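import Pool.Agent.TTT.Game

/-!
A checker for local Maker-Breaker games given by bit masks.
-/

set_option autoImplicit false

namespace Pool.Agent.TTT

open Finset

/-- The set of the positions of the bits of `m`. -/
def bs (m : ℕ) : Finset ℕ := (range m).filter (fun i => m.testBit i = true)

theorem mem_bs {m i : ℕ} : i ∈ bs m ↔ m.testBit i = true := by
  simp only [bs, mem_filter, mem_range, and_iff_right_iff_imp]
  intro h
  exact lt_of_lt_of_le Nat.lt_two_pow_self (Nat.ge_two_pow_of_testBit h)

/-- The family given by a list of masks. -/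
def fam (L : List ℕ) : Set (Finset ℕ) := {e | ∃ m ∈ L, e = bs m}

/-- Maker claims `c`. -/
def playL (c : ℕ) (L : List ℕ) : List ℕ := L.map (fun m => if m.testBit c then m ^^^ (2 ^ c) else m)

/-- Breaker claims `d`. -/
def killL (d : ℕ) (L : List ℕ) : List ℕ := L.filter (fun m => !m.testBit d)

/-- Strategy trees of Breaker: `leaf` is a pairing, `cons c d t r` answers `c` by `d` and goes on
with `t`; the other answers are in `r`. -/
inductive Tr
  | leaf (ps : List (ℕ × ℕ)) : Tr
  | nil : Tr
  | cons (c d : ℕ) (t r : Tr) : Tr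

/-- The pairs are disjoint from each other and from `acc`. -/
def pairOK : List (ℕ × ℕ) → ℕ → Bool
  | [], _ => true
  | (a, b) :: t, acc =>
    !(Nat.beq a b) && (!acc.testBit a && (!acc.testBit b && pairOK t (acc ||| (2 ^ a ||| 2 ^ b))))

/-- The checker. -/
def chk : Tr → List ℕ → ℕ → Bool
  | .leaf ps, L, _ => pairOK ps 0 && L.all (fun m => ps.any (fun p => m.testBit p.1 && m.testBit p.2))
  | .nil, L, cov => L.all (fun m => !(Nat.beq m 0) && Nat.beq (m &&& cov) m)
  | .cons c d t r, L, cov => chk t (killL d (playL c L)) 0 && chk r L (cov ||| 2 ^ c)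

theorem bs_erase (m c : ℕ) :
    bs (if m.testBit c then m ^^^ (2 ^ c) else m) = (bs m).erase c := by
  ext i
  rw [mem_erase, mem_bs, mem_bs]
  split_ifs with h
  · rw [Nat.testBit_xor, Nat.testBit_two_pow]
    by_cases hi : c = i
    · subst hi
      simp [h]
    · have hi' : i ≠ c := fun h => hi h.symm
      simp [hi, hi']
  · constructor
    · intro h'
      refine ⟨?_, h'⟩
      rintro rfl
      exact h h'
    · exact fun h' => h'.2

theorem fam_step (c d : ℕ) (L : List ℕ) :
    kill d (play c (fam L)) = fam (killL d (playL c L)) := by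
  ext e
  constructor
  · rintro ⟨⟨f, ⟨m, hm, rfl⟩, rfl⟩, hd⟩
    refine ⟨if m.testBit c then m ^^^ (2 ^ c) else m, ?_, (bs_erase m c).symm⟩
    rw [killL, List.mem_filter]
    refine ⟨List.mem_map_of_mem hm, ?_⟩
    rw [← bs_erase, mem_bs] at hd
    simpa using hd
  · rintro ⟨m', hm', rfl⟩
    rw [killL, List.mem_filter] at hm'
    obtain ⟨hm', hd⟩ := hm'
    rw [playL, List.mem_map] at hm'
    obtain ⟨m, hm, rfl⟩ := hm'
    refine ⟨⟨bs m, ⟨m, hm, rfl⟩, bs_erase m c⟩, ?_⟩
    rw [mem_bs]
    simpa using hd

theorem pairOK_sound (ps : List (ℕ × ℕ)) : ∀ acc, pairOK ps acc = true →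
    BW {e : Finset ℕ | ∃ p ∈ ps, e = {p.1, p.2}} ∧
      ∀ p ∈ ps, acc.testBit p.1 = false ∧ acc.testBit p.2 = false := by
  induction ps with
  | nil =>
    intro acc _
    refine ⟨?_, by simp⟩
    have : {e : Finset ℕ | ∃ p ∈ ([] : List (ℕ × ℕ)), e = {p.1, p.2}} = ∅ := by
      ext e; simp
    rw [this]
    exact BW.empty
  | cons p t ih =>
    obtain ⟨a, b⟩ := p
    intro acc h
    simp only [pairOK, Bool.and_eq_true, Bool.not_eq_true'] at h
    obtain ⟨hab, ha, hb, ht⟩ := h
    have hab' : a ≠ b := by
      rintro rfl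
      simp [Nat.beq_refl] at hab
    obtain ⟨h1, h2⟩ := ih _ ht
    constructor
    · refine BW.sum (BW.pair hab') h1 ?_ ?_
      · rintro e1 he1 e2 ⟨p, hp, rfl⟩
        have he1' : e1 = {a, b} := he1
        subst he1'
        obtain ⟨h3, h4⟩ := h2 p hp
        simp only [Nat.testBit_or, Nat.testBit_two_pow, Bool.or_eq_false_iff,
          decide_eq_false_iff_not] at h3 h4
        rw [Finset.disjoint_left]
        intro x hx hx'
        simp only [mem_insert, mem_singleton] at hx hx'
        rcases hx with rfl | rfl <;> rcases hx' with h | h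
        · exact h3.2.1 h
        · exact h4.2.1 h
        · exact h3.2.2 h
        · exact h4.2.2 h
      · rintro e ⟨p, hp, rfl⟩
        rcases List.mem_cons.1 hp with rfl | hp
        · exact ⟨_, Or.inl rfl, Subset.refl _⟩
        · exact ⟨_, Or.inr ⟨p, hp, rfl⟩, Subset.refl _⟩
    · intro p hp
      rcases List.mem_cons.1 hp with rfl | hp
      · exact ⟨ha, hb⟩
      · obtain ⟨h3, h4⟩ := h2 p hp
        simp only [Nat.testBit_or, Bool.or_eq_false_iff] at h3 h4
        exact ⟨h3.1, h4.1⟩

theorem chk_sound (t : Tr) : ∀ (L : List ℕ) (cov : ℕ), chk t L cov = true →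
    (∀ c, cov.testBit c = true → ∃ d, BW (kill d (play c (fam L)))) → BW (fam L) := by
  induction t with
  | leaf ps =>
    intro L cov h _
    simp only [chk, Bool.and_eq_true] at h
    refine (pairOK_sound ps 0 h.1).1.mono ?_
    rintro e ⟨m, hm, rfl⟩
    have h1 := (List.all_eq_true.1 h.2) m hm
    obtain ⟨p, hp, hpm⟩ := List.any_eq_true.1 h1
    simp only [Bool.and_eq_true] at hpm
    refine ⟨{p.1, p.2}, ⟨p, hp, rfl⟩, ?_⟩
    intro x hx
    simp only [mem_insert, mem_singleton] at hx
    rcases hx with rfl | rfl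
    · exact mem_bs.2 hpm.1
    · exact mem_bs.2 hpm.2
  | nil =>
    intro L cov h hc
    simp only [chk] at h
    have h1 : ∀ m ∈ L, m ≠ 0 ∧ m &&& cov = m := by
      intro m hm
      have := (List.all_eq_true.1 h) m hm
      simp only [Bool.and_eq_true, Bool.not_eq_true'] at this
      refine ⟨?_, Nat.eq_of_beq_eq_true this.2⟩
      rintro rfl
      simp [Nat.beq_refl] at this
    refine BW.intro ?_ ?_
    · rintro ⟨m, hm, hme⟩
      apply (h1 m hm).1
      apply Nat.eq_of_testBit_eq
      intro i
      rw [Nat.zero_testBit]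
      by_contra hi
      have : i ∈ bs m := mem_bs.2 (by simpa using hi)
      rw [← hme] at this
      exact absurd this (by simp)
    · rintro c ⟨e, ⟨m, hm, rfl⟩, hce⟩
      apply hc
      rw [mem_bs] at hce
      have := (h1 m hm).2
      rw [← this, Nat.testBit_and] at hce
      simp only [Bool.and_eq_true] at hce
      exact hce.2
  | cons c d t r iht ihr =>
    intro L cov h hc
    simp only [chk, Bool.and_eq_true] at h
    refine ihr L _ h.2 ?_
    intro c' hc'
    rw [Nat.testBit_or, Nat.testBit_two_pow] at hc'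
    simp only [Bool.or_eq_true, decide_eq_true_eq] at hc'
    rcases hc' with hc' | rfl
    · exact hc c' hc'
    · refine ⟨d, ?_⟩
      rw [fam_step]
      exact iht _ 0 h.1 (by simp)

theorem bw_of_chk {t : Tr} {L : List ℕ} (h : chk t L 0 = true) : BW (fam L) :=
  chk_sound t L 0 h (by simp)

/-- The union of the masks. -/
def supp (L : List ℕ) : ℕ := L.foldr (fun m acc => m ||| acc) 0

theorem supp_mem {L : List ℕ} {m i : ℕ} (hm : m ∈ L) (hi : m.testBit i = true) :
    (supp L).testBit i = true := by
  induction L with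
  | nil => simp at hm
  | cons a t ih =>
    simp only [supp, List.foldr_cons, Nat.testBit_or, Bool.or_eq_true]
    rcases List.mem_cons.1 hm with rfl | hm
    · exact Or.inl hi
    · exact Or.inr (ih hm)

/-- A list of blocks is good: every block is a local win of Breaker, the supports are disjoint. -/
def blocksOK : List (Tr × List ℕ) → ℕ → Bool
  | [], _ => true
  | (t, L) :: bl, acc => chk t L 0 && (Nat.beq (acc &&& supp L) 0 && blocksOK bl (acc ||| supp L))

/-- All the masks of the blocks. -/
def allMasks : List (Tr × List ℕ) → List ℕ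
  | [] => []
  | (_, L) :: bl => L ++ allMasks bl

theorem blocksOK_sound (bl : List (Tr × List ℕ)) : ∀ acc, blocksOK bl acc = true →
    BW (fam (allMasks bl)) ∧
      ∀ m ∈ allMasks bl, ∀ i, m.testBit i = true → acc.testBit i = false := by
  induction bl with
  | nil =>
    intro acc _
    refine ⟨?_, by simp [allMasks]⟩
    have : fam (allMasks []) = ∅ := by
      ext e; simp [allMasks, fam]
    rw [this]
    exact BW.empty
  | cons b bl ih =>
    obtain ⟨t, L⟩ := b
    intro acc h
    simp only [blocksOK, Bool.and_eq_true] at h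
    obtain ⟨h1, h2, h3⟩ := h
    have h2' := Nat.eq_of_beq_eq_true h2
    obtain ⟨h4, h5⟩ := ih _ h3
    constructor
    · refine BW.sum (bw_of_chk h1) h4 ?_ ?_
      · rintro e1 ⟨m, hm, rfl⟩ e2 ⟨m', hm', rfl⟩
        rw [Finset.disjoint_left]
        intro i hi hi'
        have := h5 m' hm' i (mem_bs.1 hi')
        rw [Nat.testBit_or, supp_mem hm (mem_bs.1 hi)] at this
        simp at this
      · rintro e ⟨m, hm, rfl⟩
        simp only [allMasks, List.mem_append] at hm
        rcases hm with hm | hm
        · exact ⟨_, Or.inl ⟨m, hm, rfl⟩, Subset.refl _⟩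
        · exact ⟨_, Or.inr ⟨m, hm, rfl⟩, Subset.refl _⟩
    · intro m hm i hi
      simp only [allMasks, List.mem_append] at hm
      rcases hm with hm | hm
      · by_contra hcon
        have h6 : acc.testBit i = true := by simpa using hcon
        have h7 : (acc &&& supp L).testBit i = true := by
          rw [Nat.testBit_and, h6, supp_mem hm hi]; rfl
        rw [h2'] at h7
        simp at h7
      · have := h5 m hm i hi
        rw [Nat.testBit_or, Bool.or_eq_false_iff] at this
        exact this.1

end Pool.Agent.TTT
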