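import Pool.Agent.TTT.WinChk

/-!
Soundness of the checker for forced wins.
-/

set_option autoImplicit false

namespace Pool.Agent.TTT

open Finset

theorem tb_land (x y i : ℕ) : (Nat.land x y).testBit i = (x.testBit i && y.testBit i) :=
  Nat.testBit_and x y i

theorem tb_lor (x y i : ℕ) : (Nat.lor x y).testBit i = (x.testBit i || y.testBit i) :=
  Nat.testBit_or x y i

theorem tb_one (x i : ℕ) : (Nat.shiftLeft 1 x).testBit i = decide (x = i) := by
  have : Nat.shiftLeft 1 x = 2 ^ x := Nat.one_shiftLeft x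
  rw [this, Nat.testBit_two_pow]

theorem bs_ins (X x : ℕ) : bs (Nat.lor X (Nat.shiftLeft 1 x)) = insert x (bs X) := by
  ext i
  rw [mem_bs, tb_lor, tb_one, mem_insert, mem_bs]
  simp only [Bool.or_eq_true, decide_eq_true_eq]
  constructor
  · rintro (h | h)
    · exact Or.inr h
    · exact Or.inl h.symm
  · rintro (h | h)
    · exact Or.inr h.symm
    · exact Or.inl h

theorem bs_lor (X Y : ℕ) : bs (Nat.lor X Y) = bs X ∪ bs Y := by
  ext i
  rw [mem_bs, tb_lor, mem_union, mem_bs, mem_bs, Bool.or_eq_true]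

theorem bs_one (x : ℕ) : bs (Nat.shiftLeft 1 x) = {x} := by
  ext i
  rw [mem_bs, tb_one, mem_singleton]
  simp only [decide_eq_true_eq]
  exact eq_comm

theorem bs_land (X Y : ℕ) : bs (Nat.land X Y) = bs X ∩ bs Y := by
  ext i
  rw [mem_bs, tb_land, mem_inter, mem_bs, mem_bs, Bool.and_eq_true]

theorem bs_zero : bs 0 = ∅ := by
  ext i
  rw [mem_bs]
  simp

theorem bs_eq_empty {m : ℕ} (h : bs m = ∅) : m = 0 := by
  apply Nat.eq_of_testBit_eq
  intro i
  rw [Nat.zero_testBit]
  by_contra hi
  have : i ∈ bs m := mem_bs.2 (by simpa using hi)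
  rw [h] at this
  exact absurd this (by simp)

theorem land_zero {X m : ℕ} (h : Nat.beq (Nat.land X m) 0 = false) : ¬ Disjoint (bs m) (bs X) := by
  intro hd
  have h1 : Nat.land X m = 0 := by
    apply bs_eq_empty
    rw [bs_land, inter_comm]
    exact disjoint_iff_inter_eq_empty.1 hd
  rw [h1] at h
  simp at h

theorem land_self {X m : ℕ} (h : Nat.beq (Nat.land X m) m = true) : bs m ⊆ bs X := by
  have h1 := Nat.eq_of_beq_eq_true h
  intro i hi
  have h2 : i ∈ bs (Nat.land X m) := by rw [h1]; exact hi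
  rw [bs_land, mem_inter] at h2
  exact h2.1

theorem an_true {a b : Bool} (h : an a b = true) : a = true ∧ b = true := by
  cases a
  · exact absurd h (by simp [an])
  · exact ⟨rfl, h⟩

theorem memL_sound (z : ℕ) (l : List ℕ) (h : memL z l = true) : z ∈ l := by
  induction l with
  | nil => exact absurd h (by simp [memL])
  | cons a t ih =>
    have h' : @Bool.rec (fun _ => Bool) (memL z t) true (Nat.beq z a) = true := h
    cases hb : Nat.beq z a
    · rw [hb] at h'
      exact List.mem_cons_of_mem _ (ih h')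
    · rw [Nat.eq_of_beq_eq_true hb]
      exact List.mem_cons_self

/-- Some line of the list is contained in the set. -/
def Won (L : List ℕ) (A : Finset ℕ) : Prop := ∃ l ∈ L, bs l ⊆ A

/-- The table is correct. -/
structure Board (N : ℕ) (L : List ℕ) (T : BT) : Prop where
  t1 : ∀ y < N, ∀ e ∈ look T y, e.l ∈ L ∧ bs e.l = insert y (bs e.m)
  t2 : ∀ y < N, ∀ l ∈ L, y ∈ bs l → ∃ e ∈ look T y, e.l = l
  t3 : ∀ y < N, ∀ e ∈ look T y, (∀ z ∈ e.a, 3 ≤ (bs e.m \ bs z).card) ∧
    (∀ z ∈ e.b, 2 ≤ (bs e.m \ bs z).card)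

theorem hasThr_sound {N : ℕ} {L : List ℕ} {T : BT} (hB : Board N L T) {a X : ℕ} (ha : a < N)
    (h : hasThr X (look T a) = true) : Won L (insert a (bs X)) := by
  have key : ∀ es : List En, hasThr X es = true → ∃ e ∈ es, bs e.m ⊆ bs X := by
    intro es
    induction es with
    | nil => intro h; exact absurd h (by simp [hasThr])
    | cons e t ih =>
      intro h
      have h' : @Bool.rec (fun _ => Bool) (hasThr X t) true (Nat.beq (Nat.land X e.m) e.m)
        = true := h
      cases hb : Nat.beq (Nat.land X e.m) e.m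
      · rw [hb] at h'
        obtain ⟨e', he', hs⟩ := ih h'
        exact ⟨e', List.mem_cons_of_mem _ he', hs⟩
      · exact ⟨e, List.mem_cons_self, land_self hb⟩
  obtain ⟨e, he, hs⟩ := key _ h
  obtain ⟨h1, h2⟩ := hB.t1 a ha e he
  exact ⟨e.l, h1, by rw [h2]; exact insert_subset_insert _ hs⟩

/-- The entries are adapted to the cells of the second player. -/
def EsOK (O : ℕ) (es : List En) : Prop :=
  ∀ e ∈ es, bs e.m ⊆ bs e.l ∧ bs e.l \ bs O ⊆ bs e.m ∧ (∀ z ∈ e.a, 3 ≤ (bs e.m \ bs z).card) ∧
    (∀ z ∈ e.b, 2 ≤ (bs e.m \ bs z).card)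

theorem EsOK.look {N : ℕ} {L : List ℕ} {T : BT} (hB : Board N L T) {y O : ℕ} (hy : y < N)
    (hyO : y ∈ bs O) : EsOK O (look T y) := by
  intro e he
  obtain ⟨-, h2⟩ := hB.t1 y hy e he
  obtain ⟨h3, h4⟩ := hB.t3 y hy e he
  refine ⟨by rw [h2]; exact subset_insert _ _, ?_, h3, h4⟩
  intro i hi
  rw [mem_sdiff, h2, mem_insert] at hi
  rcases hi.1 with rfl | h
  · exact absurd hyO hi.2
  · exact h

theorem EsOK.nil (O : ℕ) : EsOK O [] := by
  intro e he
  exact absurd he (by simp)

theorem sdiff_land (m O : ℕ) : bs m \ bs (Nat.land O m) = bs m \ bs O := by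
  ext i
  rw [mem_sdiff, mem_sdiff, bs_land, mem_inter]
  tauto

theorem thruS_sound (X O : ℕ) (k : List ℕ → Bool) (es : List En) : ∀ P,
    thruS X O k es P = true → EsOK O es →
    ∃ P', k P' = true ∧ (∀ l ∈ P, l ∈ P') ∧ ∀ e ∈ es, Disjoint (bs e.m) (bs X) →
      2 ≤ (bs e.m \ bs O).card ∧ ((bs e.m \ bs O).card ≤ 2 → e.l ∈ P') := by
  induction es with
  | nil =>
    intro P h _
    exact ⟨P, h, fun l hl => hl, by simp⟩
  | cons e es ih =>
    intro P h hes
    have hes' : EsOK O es := fun e' he' => hes e' (List.mem_cons_of_mem _ he')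
    obtain ⟨-, -, h3, h4⟩ := hes e List.mem_cons_self
    have h' : @Bool.rec (fun _ => Bool) (thruS X O k es P)
      (@Bool.rec (fun _ => Bool)
        (@Bool.rec (fun _ => Bool) false (thruS X O k es (e.l :: P)) (memL (Nat.land O e.m) e.b))
        (thruS X O k es P) (memL (Nat.land O e.m) e.a)) (Nat.beq (Nat.land X e.m) 0) = true := h
    cases hb : Nat.beq (Nat.land X e.m) 0
    · rw [hb] at h'
      obtain ⟨P', h5, h6, h7⟩ := ih P h' hes'
      refine ⟨P', h5, h6, ?_⟩
      intro e' he' hd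
      rcases List.mem_cons.1 he' with rfl | he'
      · exact absurd hd (land_zero hb)
      · exact h7 e' he' hd
    · rw [hb] at h'
      cases hma : memL (Nat.land O e.m) e.a
      · rw [hma] at h'
        cases hmb : memL (Nat.land O e.m) e.b
        · rw [hmb] at h'
          exact absurd h' (by simp)
        · rw [hmb] at h'
          obtain ⟨P', h5, h6, h7⟩ := ih _ h' hes'
          refine ⟨P', h5, fun l hl => h6 l (List.mem_cons_of_mem _ hl), ?_⟩
          intro e' he' hd
          rcases List.mem_cons.1 he' with rfl | he'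
          · have := h4 _ (memL_sound _ _ hmb)
            rw [sdiff_land] at this
            exact ⟨this, fun _ => h6 _ List.mem_cons_self⟩
          · exact h7 e' he' hd
      · rw [hma] at h'
        obtain ⟨P', h5, h6, h7⟩ := ih P h' hes'
        refine ⟨P', h5, h6, ?_⟩
        intro e' he' hd
        rcases List.mem_cons.1 he' with rfl | he'
        · have := h3 _ (memL_sound _ _ hma)
          rw [sdiff_land] at this
          exact ⟨by omega, fun h8 => by omega⟩
        · exact h7 e' he' hd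

theorem thruN_sound (X O : ℕ) (k : ℕ → Bool) (es : List En) : ∀ acc,
    thruN X O k es acc = true → EsOK O es →
    ∃ acc', k acc' = true ∧ bs acc ⊆ bs acc' ∧ ∀ e ∈ es, Disjoint (bs e.m) (bs X) →
      2 ≤ (bs e.m \ bs O).card ∧ ((bs e.m \ bs O).card ≤ 2 → bs e.m ⊆ bs acc') := by
  induction es with
  | nil =>
    intro acc h _
    exact ⟨acc, h, Subset.refl _, by simp⟩
  | cons e es ih =>
    intro acc h hes
    have hes' : EsOK O es := fun e' he' => hes e' (List.mem_cons_of_mem _ he')
    obtain ⟨-, -, h3, h4⟩ := hes e List.mem_cons_self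
    have h' : @Bool.rec (fun _ => Bool) (thruN X O k es acc)
      (@Bool.rec (fun _ => Bool)
        (@Bool.rec (fun _ => Bool) false (thruN X O k es (Nat.lor acc e.m))
          (memL (Nat.land O e.m) e.b))
        (thruN X O k es acc) (memL (Nat.land O e.m) e.a)) (Nat.beq (Nat.land X e.m) 0) = true := h
    cases hb : Nat.beq (Nat.land X e.m) 0
    · rw [hb] at h'
      obtain ⟨P', h5, h6, h7⟩ := ih acc h' hes'
      refine ⟨P', h5, h6, ?_⟩
      intro e' he' hd
      rcases List.mem_cons.1 he' with rfl | he'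
      · exact absurd hd (land_zero hb)
      · exact h7 e' he' hd
    · rw [hb] at h'
      cases hma : memL (Nat.land O e.m) e.a
      · rw [hma] at h'
        cases hmb : memL (Nat.land O e.m) e.b
        · rw [hmb] at h'
          exact absurd h' (by simp)
        · rw [hmb] at h'
          obtain ⟨P', h5, h6, h7⟩ := ih _ h' hes'
          rw [bs_lor] at h6
          refine ⟨P', h5, subset_union_left.trans h6, ?_⟩
          intro e' he' hd
          rcases List.mem_cons.1 he' with rfl | he'
          · have := h4 _ (memL_sound _ _ hmb)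
            rw [sdiff_land] at this
            exact ⟨this, fun _ => subset_union_right.trans h6⟩
          · exact h7 e' he' hd
      · rw [hma] at h'
        obtain ⟨P', h5, h6, h7⟩ := ih acc h' hes'
        refine ⟨P', h5, h6, ?_⟩
        intro e' he' hd
        rcases List.mem_cons.1 he' with rfl | he'
        · have := h3 _ (memL_sound _ _ hma)
          rw [sdiff_land] at this
          exact ⟨by omega, fun h8 => by omega⟩
        · exact h7 e' he' hd

theorem foldP_sound (X : ℕ) (P : List ℕ) : ∀ l ∈ P, Disjoint (bs l) (bs X) →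
    bs l ⊆ bs (foldP X P) := by
  induction P with
  | nil => intro l hl; exact absurd hl (by simp)
  | cons p P ih =>
    intro l hl hd
    have h' : foldP X (p :: P) = @Bool.rec (fun _ => ℕ) (foldP X P) (Nat.lor (foldP X P) p)
      (Nat.beq (Nat.land X p) 0) := rfl
    rw [h']
    cases hb : Nat.beq (Nat.land X p) 0
    · rcases List.mem_cons.1 hl with rfl | hl
      · exact absurd hd (land_zero hb)
      · exact ih l hl hd
    · simp only
      rw [bs_lor]
      rcases List.mem_cons.1 hl with rfl | hl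
      · exact subset_union_right
      · exact (ih l hl hd).trans subset_union_left

theorem isFree_sound {N X O x : ℕ} (h : isFree N X O x = true) :
    x < N ∧ x ∉ bs X ∧ x ∉ bs O := by
  obtain ⟨h1, h2⟩ := an_true h
  have h1' : x < N := Nat.le_of_ble_eq_true h1
  have h2' := Nat.eq_of_beq_eq_true h2
  have h3 : x ∉ bs (Nat.land (Nat.lor X O) (Nat.shiftLeft 1 x)) := by
    rw [h2', bs_zero]; simp
  rw [bs_land, bs_lor, bs_one, mem_inter, mem_union, mem_singleton] at h3
  refine ⟨h1', fun h => h3 ⟨Or.inl h, rfl⟩, fun h => h3 ⟨Or.inr h, rfl⟩⟩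

/-- If all lines which are not met by `A` have two cells outside `B`, then the second player cannot
win with his next cell. -/
theorem noWin {L : List ℕ} {A B : Finset ℕ} (h : ∀ l ∈ L, Disjoint (bs l) A → 2 ≤ (bs l \ B).card)
    (hd : Disjoint A B) {e : ℕ} (he : e ∉ A) : ¬ Won L (insert e B) := by
  rintro ⟨l, hl, hs⟩
  have h1 : Disjoint (bs l) A := by
    rw [Finset.disjoint_left]
    intro x hx hxA
    rcases mem_insert.1 (hs hx) with rfl | hxB
    · exact he hxA
    · exact (Finset.disjoint_left.1 hd hxA) hxB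
  have h2 := h l hl h1
  have h3 : bs l \ B ⊆ {e} := by
    intro x hx
    rw [mem_sdiff] at hx
    rcases mem_insert.1 (hs hx.1) with rfl | hxB
    · exact mem_singleton_self _
    · exact absurd hxB hx.2
  have h4 := card_le_card h3
  rw [card_singleton] at h4
  omega

/-- Safety. -/
def Safe2 (L : List ℕ) (X O : ℕ) (P : List ℕ) : Prop :=
  ∀ l ∈ L, Disjoint (bs l) (bs X) → 2 ≤ (bs l \ bs O).card ∧ ((bs l \ bs O).card ≤ 2 → l ∈ P)

/-- Safety with the dangerous cells. -/
def SafeN (L : List ℕ) (X O acc : ℕ) : Prop :=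
  ∀ l ∈ L, Disjoint (bs l) (bs X) → 2 ≤ (bs l \ bs O).card ∧
    ((bs l \ bs O).card ≤ 2 → bs l \ bs O ⊆ bs acc)

theorem SafeN.add {L : List ℕ} {X O acc d : ℕ} (h : SafeN L X O acc) (hd : d ∉ bs acc) :
    ∀ l ∈ L, Disjoint (bs l) (bs X) → 2 ≤ (bs l \ insert d (bs O)).card := by
  intro l hl hdis
  obtain ⟨h1, h2⟩ := h l hl hdis
  have h3 : bs l \ insert d (bs O) = (bs l \ bs O).erase d := by
    ext x
    simp only [mem_sdiff, mem_insert, mem_erase]
    tauto
  rw [h3]
  by_cases h4 : (bs l \ bs O).card ≤ 2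
  · rw [erase_eq_of_notMem (fun h => hd (h2 h4 h))]
    exact h1
  · have := pred_card_le_card_erase (s := bs l \ bs O) (a := d)
    omega

/-- The cells of the board. -/
def cellsN (N : ℕ) : Set ℕ := {c | c < N}

/-- After a threat at `a` only the answer `a` matters. -/
theorem fw_thr {N : ℕ} {L : List ℕ} {X B : Finset ℕ} {x a : ℕ}
    (hnw : ¬ Won L B) (hx : x < N) (hxX : x ∉ X) (hxB : x ∉ B) (ha : a < N) (haX : a ∉ insert x X)
    (haB : a ∉ B) (hsafe : ∀ l ∈ L, Disjoint (bs l) (insert x X) → 2 ≤ (bs l \ B).card)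
    (hd : Disjoint (insert x X) B) (hwin : Won L (insert a (insert x X)))
    (hrec : FW (cellsN N) (Won L) (insert x X) (insert a B)) : FW (cellsN N) (Won L) X B := by
  refine .step _ _ x hnw hx hxX hxB ⟨a, ha, haX, haB⟩ ?_
  intro e he heX heB
  by_cases hea : e = a
  · subst hea
    exact hrec
  · refine .win _ _ a (noWin hsafe hd heX) ha haX ?_ hwin
    rw [mem_insert]
    rintro (h | h)
    · exact hea h.symm
    · exact haB h

/-- Two threats. -/
theorem fw_dbl {N : ℕ} {L : List ℕ} {X B : Finset ℕ} {x a b : ℕ}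
    (hnw : ¬ Won L B) (hx : x < N) (hxX : x ∉ X) (hxB : x ∉ B) (ha : a < N) (haX : a ∉ insert x X)
    (haB : a ∉ B) (hb : b < N) (hbX : b ∉ insert x X) (hbB : b ∉ B) (hab : a ≠ b)
    (hsafe : ∀ l ∈ L, Disjoint (bs l) (insert x X) → 2 ≤ (bs l \ B).card)
    (hd : Disjoint (insert x X) B) (hwa : Won L (insert a (insert x X)))
    (hwb : Won L (insert b (insert x X))) : FW (cellsN N) (Won L) X B := by
  refine fw_thr hnw hx hxX hxB ha haX haB hsafe hd hwa ?_
  refine .win _ _ b (noWin hsafe hd haX) hb hbX ?_ hwb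
  rw [mem_insert]
  rintro (h | h)
  · exact hab h.symm
  · exact hbB h

/-- The safety after the move of the first player, in the null move check. -/
theorem safeN_of {L : List ℕ} {X O acc acc' : ℕ} {es : List En} (hes : EsOK O es)
    (h1 : ∀ l ∈ L, (∀ e ∈ es, e.l ≠ l) → Disjoint (bs l) (bs X) →
      2 ≤ (bs l \ bs O).card ∧ ((bs l \ bs O).card ≤ 2 → bs l \ bs O ⊆ bs acc))
    (h2 : bs acc ⊆ bs acc')
    (h3 : ∀ e ∈ es, Disjoint (bs e.m) (bs X) →
      2 ≤ (bs e.m \ bs O).card ∧ ((bs e.m \ bs O).card ≤ 2 → bs e.m ⊆ bs acc')) :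
    SafeN L X O acc' := by
  intro l hl hdis
  by_cases he : ∃ e ∈ es, e.l = l
  · obtain ⟨e, he, rfl⟩ := he
    obtain ⟨h4, h5, -, -⟩ := hes e he
    obtain ⟨h6, h7⟩ := h3 e he (hdis.mono_left h4)
    have h8 : (bs e.m \ bs O).card ≤ (bs e.l \ bs O).card :=
      card_le_card (sdiff_subset_sdiff h4 (Subset.refl _))
    exact ⟨by omega, fun h => h5.trans (h7 (by omega))⟩
  · push Not at he
    obtain ⟨h4, h5⟩ := h1 l hl he hdis
    exact ⟨h4, fun h => (h5 h).trans h2⟩

/-- The safety after the move of the first player. -/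
theorem safe2_of {L : List ℕ} {X O : ℕ} {P P' : List ℕ} {es : List En} (hes : EsOK O es)
    (h1 : ∀ l ∈ L, (∀ e ∈ es, e.l ≠ l) → Disjoint (bs l) (bs X) →
      2 ≤ (bs l \ bs O).card ∧ ((bs l \ bs O).card ≤ 2 → l ∈ P))
    (h2 : ∀ l ∈ P, l ∈ P')
    (h3 : ∀ e ∈ es, Disjoint (bs e.m) (bs X) →
      2 ≤ (bs e.m \ bs O).card ∧ ((bs e.m \ bs O).card ≤ 2 → e.l ∈ P')) :
    Safe2 L X O P' := by
  intro l hl hdis
  by_cases he : ∃ e ∈ es, e.l = l
  · obtain ⟨e, he, rfl⟩ := he
    obtain ⟨h4, h5, -, -⟩ := hes e he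
    obtain ⟨h6, h7⟩ := h3 e he (hdis.mono_left h4)
    have h8 : (bs e.m \ bs O).card ≤ (bs e.l \ bs O).card :=
      card_le_card (sdiff_subset_sdiff h4 (Subset.refl _))
    exact ⟨by omega, fun h => h7 (by omega)⟩
  · push Not at he
    obtain ⟨h4, h5⟩ := h1 l hl he hdis
    exact ⟨h4, fun h => h2 _ (h5 h)⟩

theorem not_mem_of_look {N : ℕ} {L : List ℕ} {T : BT} (hB : Board N L T) {y l : ℕ} (hy : y < N)
    (hl : l ∈ L) (h : ∀ e ∈ look T y, e.l ≠ l) : y ∉ bs l := by
  intro h'
  obtain ⟨e, he, hel⟩ := hB.t2 y hy l hl h'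
  exact h e he hel

theorem sdiff_ins {l y : ℕ} (O : ℕ) (h : y ∉ bs l) :
    bs l \ bs (Nat.lor O (Nat.shiftLeft 1 y)) = bs l \ bs O := by
  rw [bs_ins]
  ext x
  simp only [mem_sdiff, mem_insert]
  constructor
  · rintro ⟨h1, h2⟩
    exact ⟨h1, fun h3 => h2 (Or.inr h3)⟩
  · rintro ⟨h1, h2⟩
    refine ⟨h1, ?_⟩
    rintro (rfl | h3)
    · exact h h1
    · exact h2 h3

theorem nvgo_sound {N : ℕ} {L : List ℕ} {T : BT} (hB : Board N L T) (k : ℕ → Bool) (c : Ct) :
    ∀ (X O : ℕ) (es : List En) (acc : ℕ), nvgo N T k c X O es acc = true →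
      Disjoint (bs X) (bs O) → EsOK O es →
      (∀ l ∈ L, (∀ e ∈ es, e.l ≠ l) →
        Disjoint (bs l) (bs (Nat.lor X (Nat.shiftLeft 1 (fst c)))) →
        2 ≤ (bs l \ bs O).card ∧ ((bs l \ bs O).card ≤ 2 → bs l \ bs O ⊆ bs acc)) →
      ∃ bad, k bad = true ∧ bs acc ⊆ bs bad ∧ ∀ d, d < N → d ∉ bs X → d ∉ bs O → d ∉ bs bad →
        ¬ Won L (insert d (bs O)) → FW (cellsN N) (Won L) (bs X) (insert d (bs O)) := by
  refine @Ct.rec (fun c => ∀ (X O : ℕ) (es : List En) (acc : ℕ), nvgo N T k c X O es acc = true →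
      Disjoint (bs X) (bs O) → EsOK O es →
      (∀ l ∈ L, (∀ e ∈ es, e.l ≠ l) →
        Disjoint (bs l) (bs (Nat.lor X (Nat.shiftLeft 1 (fst c)))) →
        2 ≤ (bs l \ bs O).card ∧ ((bs l \ bs O).card ≤ 2 → bs l \ bs O ⊆ bs acc)) →
      ∃ bad, k bad = true ∧ bs acc ⊆ bs bad ∧ ∀ d, d < N → d ∉ bs X → d ∉ bs O → d ∉ bs bad →
        ¬ Won L (insert d (bs O)) → FW (cellsN N) (Won L) (bs X) (insert d (bs O)))
    (fun _ => True) ?imm ?dbl ?thr ?str ?ext (fun _ _ _ _ => trivial)
    (fun _ _ _ _ _ => trivial) trivial c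
  case imm =>
    intro z X O es acc h hdis _ _
    have h' : an (isFree N X O z) (an (hasThr X (look T z))
      (k (Nat.lor acc (Nat.shiftLeft 1 z)))) = true := h
    obtain ⟨h1, h2⟩ := an_true h'
    obtain ⟨h2, h3⟩ := an_true h2
    obtain ⟨hz, hzX, hzO⟩ := isFree_sound h1
    refine ⟨_, h3, ?_, ?_⟩
    · rw [bs_ins]; exact subset_insert _ _
    · intro d _ _ _ hdb hnw
      rw [bs_ins, mem_insert] at hdb
      push Not at hdb
      refine .win _ _ z hnw hz hzX ?_ (hasThr_sound hB hz h2)
      rw [mem_insert]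
      rintro (h4 | h4)
      · exact hdb.1 h4.symm
      · exact hzO h4
  case dbl =>
    intro x a b X O es acc h hdis hes hyp
    have h' : an (isFree N X O x)
      (thruN (Nat.lor X (Nat.shiftLeft 1 x)) O
        (fun acc' => an (isFree N (Nat.lor X (Nat.shiftLeft 1 x)) O a)
          (an (isFree N (Nat.lor X (Nat.shiftLeft 1 x)) O b)
          (an (hasThr (Nat.lor X (Nat.shiftLeft 1 x)) (look T a))
          (an (hasThr (Nat.lor X (Nat.shiftLeft 1 x)) (look T b))
          (@Bool.rec (fun _ => Bool)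
            (k (Nat.lor acc' (Nat.lor (Nat.shiftLeft 1 x)
              (Nat.lor (Nat.shiftLeft 1 a) (Nat.shiftLeft 1 b))))) false (Nat.beq a b))))))
        es acc) = true := h
    obtain ⟨h1, h2⟩ := an_true h'
    obtain ⟨hx, hxX, hxO⟩ := isFree_sound h1
    obtain ⟨acc', h3, h4, h5⟩ := thruN_sound _ _ _ _ _ h2 hes
    obtain ⟨h6, h3⟩ := an_true h3
    obtain ⟨h7, h3⟩ := an_true h3
    obtain ⟨h8, h3⟩ := an_true h3
    obtain ⟨h9, h3⟩ := an_true h3
    obtain ⟨ha, haX, haO⟩ := isFree_sound h6
    obtain ⟨hb, hbX, hbO⟩ := isFree_sound h7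
    have hsafe := safeN_of hes hyp h4 h5
    cases hab : Nat.beq a b
    · rw [hab] at h3
      have hab' : a ≠ b := by
        rintro rfl
        simp at hab
      refine ⟨_, h3, ?_, ?_⟩
      · rw [bs_lor]; exact h4.trans subset_union_left
      · intro d _ hdX hdO hdb hnw
        rw [bs_lor, bs_lor, bs_lor, bs_one, bs_one, bs_one] at hdb
        simp only [mem_union, mem_singleton] at hdb
        push Not at hdb
        obtain ⟨hda, hdx, hdA, hdB⟩ := hdb
        have hwa := hasThr_sound hB ha h8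
        have hwb := hasThr_sound hB hb h9
        rw [bs_ins] at haX hbX hwa hwb
        have hs := hsafe.add hda
        rw [bs_ins] at hs
        refine fw_dbl hnw hx hxX ?_ ha haX ?_ hb hbX ?_ hab' hs ?_ hwa hwb
        · rw [mem_insert]; rintro (h | h)
          · exact hdx h.symm
          · exact hxO h
        · rw [mem_insert]; rintro (h | h)
          · exact hdA h.symm
          · exact haO h
        · rw [mem_insert]; rintro (h | h)
          · exact hdB h.symm
          · exact hbO h
        · rw [disjoint_insert_left, disjoint_insert_right, mem_insert]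
          refine ⟨?_, hdX, hdis⟩
          rintro (h | h)
          · exact hdx h.symm
          · exact hxO h
    · rw [hab] at h3
      exact absurd h3 (by simp)
  case thr =>
    intro x a t ih X O es acc h hdis hes hyp
    have h' : an (isFree N X O x)
      (thruN (Nat.lor X (Nat.shiftLeft 1 x)) O
        (fun acc' => an (isFree N (Nat.lor X (Nat.shiftLeft 1 x)) O a)
          (an (hasThr (Nat.lor X (Nat.shiftLeft 1 x)) (look T a))
            (nvgo N T k t (Nat.lor X (Nat.shiftLeft 1 x)) (Nat.lor O (Nat.shiftLeft 1 a)) (look T a)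
              (Nat.lor acc' (Nat.lor (Nat.shiftLeft 1 x) (Nat.shiftLeft 1 a))))))
        es acc) = true := h
    obtain ⟨h1, h2⟩ := an_true h'
    obtain ⟨hx, hxX, hxO⟩ := isFree_sound h1
    obtain ⟨acc', h3, h4, h5⟩ := thruN_sound _ _ _ _ _ h2 hes
    obtain ⟨h6, h3⟩ := an_true h3
    obtain ⟨h7, h3⟩ := an_true h3
    obtain ⟨ha, haX, haO⟩ := isFree_sound h6
    have hsafe := safeN_of hes hyp h4 h5
    have hxa : x ≠ a := by
      rintro rfl
      rw [bs_ins] at haX
      exact haX (mem_insert_self _ _)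
    obtain ⟨bad, h8, h9, h10⟩ := ih _ _ _ _ h3 (by
        rw [bs_ins, bs_ins, disjoint_insert_left, disjoint_insert_right, mem_insert]
        rw [bs_ins, mem_insert] at haX
        refine ⟨?_, fun h => haX (Or.inr h), hdis⟩
        rintro (h | h)
        · exact hxa h
        · exact hxO h) (EsOK.look hB ha (by rw [bs_ins]; exact mem_insert_self _ _)) (by
        intro l hl hle hld
        have hal := not_mem_of_look hB ha hl hle
        rw [sdiff_ins O hal]
        have hld' : Disjoint (bs l) (bs (Nat.lor X (Nat.shiftLeft 1 x))) := by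
          refine hld.mono_right ?_
          rw [bs_ins (Nat.lor X (Nat.shiftLeft 1 x))]
          exact subset_insert _ _
        obtain ⟨h11, h12⟩ := hsafe l hl hld'
        refine ⟨h11, fun h => (h12 h).trans ?_⟩
        rw [bs_lor acc']
        exact subset_union_left)
    refine ⟨bad, h8, ?_, ?_⟩
    · refine h4.trans (Subset.trans ?_ h9)
      rw [bs_lor acc']
      exact subset_union_left
    · intro d hdN hdX hdO hdb hnw
      have hdb' : d ∉ bs (Nat.lor acc' (Nat.lor (Nat.shiftLeft 1 x) (Nat.shiftLeft 1 a))) :=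
        fun h => hdb (h9 h)
      rw [bs_lor, bs_lor, bs_one, bs_one] at hdb'
      simp only [mem_union, mem_singleton] at hdb'
      push Not at hdb'
      obtain ⟨hda, hdx, hdA⟩ := hdb'
      have hwa := hasThr_sound hB ha h7
      have hs := hsafe.add hda
      have hdis' : Disjoint (insert x (bs X)) (insert d (bs O)) := by
        rw [disjoint_insert_left, disjoint_insert_right, mem_insert]
        refine ⟨?_, hdX, hdis⟩
        rintro (h | h)
        · exact hdx h.symm
        · exact hxO h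
      rw [bs_ins] at haX hwa hs
      have haB : a ∉ insert d (bs O) := by
        rw [mem_insert]; rintro (h | h)
        · exact hdA h.symm
        · exact haO h
      refine fw_thr hnw hx hxX ?_ ha haX haB hs hdis' hwa ?_
      · rw [mem_insert]; rintro (h | h)
        · exact hdx h.symm
        · exact hxO h
      · have h13 := h10 d hdN (by rw [bs_ins, mem_insert]; push Not; exact ⟨hdx, hdX⟩)
          (by rw [bs_ins, mem_insert]; push Not; exact ⟨hdA, hdO⟩) hdb (by
            rw [bs_ins, Finset.insert_comm]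
            exact noWin hs hdis' haX)
        rw [bs_ins, bs_ins, Finset.insert_comm] at h13
        exact h13
  case str =>
    intro x t _ X O es acc h
    have h' : false = true := h
    exact absurd h' (by simp)
  case ext =>
    intro X O es acc h
    have h' : false = true := h
    exact absurd h' (by simp)

end Pool.Agent.TTT
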