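import Pool.Agent.TTT.Board
import Pool.Agent.TTT.Local
import Pool.Agent.TTT.Sound

/-!
The lines of `[n]^3` and `[n]^2` as bit masks.
-/

set_option autoImplicit false

namespace Pool.Agent.TTT

open Finset

/-- The value of a coordinate of type `ty` at the time `t`. -/
def cv (n ty t : ℕ) : ℕ := if ty < n then ty else if ty = n then t else n - 1 - t

theorem type_exists {n : ℕ} (g : Fin n → Fin n)
    (h : (∃ c : Fin n, g = fun _ => c) ∨ g = id ∨ g = Fin.rev) :
    ∃ ty < n + 2, (∀ t, (g t : ℕ) = cv n ty t) ∧ ((g = id ∨ g = Fin.rev) → n ≤ ty) := by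
  by_cases h1 : g = id
  · refine ⟨n, by omega, ?_, fun _ => le_refl _⟩
    intro t
    simp [cv, h1]
  · by_cases h2 : g = Fin.rev
    · refine ⟨n + 1, by omega, ?_, fun _ => by omega⟩
      intro t
      simp only [cv, h2, Fin.val_rev]
      have h3 : ¬ n + 1 < n := by omega
      have h4 : ¬ n + 1 = n := by omega
      rw [if_neg h3, if_neg h4]
      omega
    · rcases h with ⟨c, hc⟩ | h | h
      · refine ⟨c, by omega, ?_, fun h => ?_⟩
        · intro t
          simp [cv, hc]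
        · rcases h with h | h
          · exact absurd h h1
          · exact absurd h h2
      · exact absurd h h1
      · exact absurd h h2

theorem exists_type {n : ℕ} (ty : ℕ) (hty : ty < n + 2) :
    ∃ g : Fin n → Fin n, ((∃ c : Fin n, g = fun _ => c) ∨ g = id ∨ g = Fin.rev) ∧
      (∀ t, (g t : ℕ) = cv n ty t) ∧ (n ≤ ty → g = id ∨ g = Fin.rev) := by
  by_cases h1 : ty < n
  · refine ⟨fun _ => ⟨ty, h1⟩, Or.inl ⟨_, rfl⟩, ?_, fun h => by omega⟩
    intro t
    simp [cv, h1]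
  · by_cases h2 : ty = n
    · refine ⟨id, Or.inr (Or.inl rfl), ?_, fun _ => Or.inl rfl⟩
      intro t
      simp [cv, h2]
    · refine ⟨Fin.rev, Or.inr (Or.inr rfl), ?_, fun _ => Or.inr rfl⟩
      intro t
      simp only [cv, Fin.val_rev]
      rw [if_neg h1, if_neg h2]
      omega

/-- The mask of a list of cells. -/
def maskOf (l : List ℕ) : ℕ := l.foldr (fun i acc => 2 ^ i ||| acc) 0

theorem mem_maskOf {l : List ℕ} {i : ℕ} : i ∈ bs (maskOf l) ↔ i ∈ l := by
  induction l with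
  | nil => simp [maskOf, mem_bs]
  | cons a t ih =>
    have h : maskOf (a :: t) = 2 ^ a ||| maskOf t := rfl
    rw [mem_bs] at ih ⊢
    rw [h, Nat.testBit_or, Nat.testBit_two_pow, List.mem_cons, Bool.or_eq_true, ih]
    simp only [decide_eq_true_eq]
    exact or_congr_left eq_comm

/-- The mask of a line of the cube. -/
def lm3 (n a b c : ℕ) : ℕ :=
  maskOf ((List.range n).map (fun t => (cv n a t * n + cv n b t) * n + cv n c t))

/-- The number of a cell. -/
def enc3 {n : ℕ} (x : Fin 3 → Fin n) : ℕ := ((x 0 : ℕ) * n + x 1) * n + x 2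

theorem mul_add_inj {n a b a' b' : ℕ} (hb : b < n) (hb' : b' < n)
    (h : a * n + b = a' * n + b') : a = a' ∧ b = b' := by
  have h1 : (a * n + b) / n = a := by
    rw [Nat.add_comm, Nat.add_mul_div_right _ _ (by omega), Nat.div_eq_of_lt hb, Nat.zero_add]
  have h2 : (a' * n + b') / n = a' := by
    rw [Nat.add_comm, Nat.add_mul_div_right _ _ (by omega), Nat.div_eq_of_lt hb', Nat.zero_add]
  have h3 : a = a' := by rw [← h1, ← h2, h]
  subst h3
  exact ⟨rfl, by omega⟩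

theorem enc3_inj {n : ℕ} : Function.Injective (enc3 (n := n)) := by
  intro x y h
  unfold enc3 at h
  obtain ⟨h1, h2⟩ := mul_add_inj (x 2).2 (y 2).2 h
  obtain ⟨h3, h4⟩ := mul_add_inj (x 1).2 (y 1).2 h1
  funext j
  apply Fin.ext
  fin_cases j
  · exact h3
  · exact h4
  · exact h2

theorem enc3_range {n : ℕ} (i : ℕ) (hi : i < n * n * n) : ∃ x : Fin 3 → Fin n, enc3 x = i := by
  have hn : 0 < n := by
    rcases Nat.eq_zero_or_pos n with h | h
    · subst h; simp at hi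
    · exact h
  have h1 : i / n / n < n := by
    rw [Nat.div_div_eq_div_mul]
    apply Nat.div_lt_of_lt_mul
    exact hi
  refine ⟨![⟨i / n / n, h1⟩, ⟨(i / n) % n, Nat.mod_lt _ hn⟩, ⟨i % n, Nat.mod_lt _ hn⟩], ?_⟩
  simp only [enc3, Matrix.cons_val_zero, Matrix.cons_val_one, Matrix.cons_val]
  rw [Nat.div_add_mod' (i / n) n, Nat.div_add_mod' i n]

theorem enc3_lt {n : ℕ} (x : Fin 3 → Fin n) : enc3 x < n * n * n := by
  unfold enc3
  have h0 := (x 0).2
  have h1 := (x 1).2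
  have h2 := (x 2).2
  have h3 : (x 0 : ℕ) * n + x 1 < n * n := by
    calc (x 0 : ℕ) * n + x 1 < (x 0 : ℕ) * n + n := by omega
      _ = ((x 0 : ℕ) + 1) * n := by ring
      _ ≤ n * n := Nat.mul_le_mul_right _ (by omega)
  calc ((x 0 : ℕ) * n + x 1) * n + x 2 < ((x 0 : ℕ) * n + x 1) * n + n := by omega
      _ = ((x 0 : ℕ) * n + x 1 + 1) * n := by ring
      _ ≤ n * n * n := Nat.mul_le_mul_right _ (by omega)

theorem line_mask3 {n : ℕ} {f : Fin 3 → Fin n → Fin n} (hf : IsMove 3 n f) :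
    ∃ a < n + 2, ∃ b < n + 2, ∃ c < n + 2, (n ≤ a ∨ n ≤ b ∨ n ≤ c) ∧
      (lineOf f).image enc3 = bs (lm3 n a b c) := by
  obtain ⟨h1, h2⟩ := hf
  obtain ⟨a, ha, ha1, ha2⟩ := type_exists (f 0) (h1 0)
  obtain ⟨b, hb, hb1, hb2⟩ := type_exists (f 1) (h1 1)
  obtain ⟨c, hc, hc1, hc2⟩ := type_exists (f 2) (h1 2)
  refine ⟨a, ha, b, hb, c, hc, ?_, ?_⟩
  · obtain ⟨j, hj⟩ := h2
    fin_cases j
    · exact Or.inl (ha2 hj)
    · exact Or.inr (Or.inl (hb2 hj))
    · exact Or.inr (Or.inr (hc2 hj))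
  · ext i
    rw [lm3, mem_maskOf, List.mem_map]
    simp only [lineOf, mem_image, mem_univ, true_and, exists_exists_eq_and, List.mem_range]
    constructor
    · rintro ⟨t, rfl⟩
      exact ⟨t, t.2, by simp only [enc3, ha1, hb1, hc1]⟩
    · rintro ⟨t, ht, rfl⟩
      exact ⟨⟨t, ht⟩, by simp only [enc3, ha1, hb1, hc1]⟩

theorem mask_line3 {n a b c : ℕ} (ha : a < n + 2) (hb : b < n + 2) (hc : c < n + 2)
    (h : n ≤ a ∨ n ≤ b ∨ n ≤ c) : ∃ e ∈ Lines 3 n, e.image enc3 = bs (lm3 n a b c) := by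
  obtain ⟨g0, h01, h02, h03⟩ := exists_type a ha
  obtain ⟨g1, h11, h12, h13⟩ := exists_type b hb
  obtain ⟨g2, h21, h22, h23⟩ := exists_type c hc
  refine ⟨lineOf ![g0, g1, g2], ⟨_, ⟨?_, ?_⟩, rfl⟩, ?_⟩
  · intro j
    fin_cases j
    · exact h01
    · exact h11
    · exact h21
  · rcases h with h | h | h
    · exact ⟨0, h03 h⟩
    · exact ⟨1, h13 h⟩
    · exact ⟨2, h23 h⟩
  · ext i
    rw [lm3, mem_maskOf, List.mem_map]
    simp only [lineOf, mem_image, mem_univ, true_and, exists_exists_eq_and, List.mem_range]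
    constructor
    · rintro ⟨t, rfl⟩
      refine ⟨t, t.2, ?_⟩
      rw [← h02, ← h12, ← h22]
      rfl
    · rintro ⟨t, ht, rfl⟩
      refine ⟨⟨t, ht⟩, ?_⟩
      have e0 := h02 ⟨t, ht⟩
      have e1 := h12 ⟨t, ht⟩
      have e2 := h22 ⟨t, ht⟩
      simp only at e0 e1 e2
      rw [← e0, ← e1, ← e2]
      rfl

/-- Every line contains a mask of the list. -/
def cov3 (n : ℕ) (Ms : List ℕ) : Bool :=
  (List.range (n + 2)).all fun a => (List.range (n + 2)).all fun b => (List.range (n + 2)).all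
    fun c => (Nat.ble (a + 1) n && (Nat.ble (b + 1) n && Nat.ble (c + 1) n)) ||
      Ms.any (fun m => Nat.beq (Nat.land m (lm3 n a b c)) m)

theorem bw_of_cov3 {n : ℕ} {Ms : List ℕ} (h : BW (fam Ms)) (hc : cov3 n Ms = true) :
    BW (Lines 3 n) := by
  refine h.comap enc3 Set.univ enc3_inj.injOn (fun e _ x _ => Set.mem_univ x) ?_
  rintro e ⟨f, hf, rfl⟩
  obtain ⟨a, ha, b, hb, c, hcc, h1, h2⟩ := line_mask3 hf
  have h3 := List.all_eq_true.1 hc a (List.mem_range.2 ha)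
  have h4 := List.all_eq_true.1 h3 b (List.mem_range.2 hb)
  have h5 := List.all_eq_true.1 h4 c (List.mem_range.2 hcc)
  rw [Bool.or_eq_true] at h5
  rcases h5 with h5 | h5
  · exfalso
    simp only [Bool.and_eq_true] at h5
    have e1 := Nat.le_of_ble_eq_true h5.1
    have e2 := Nat.le_of_ble_eq_true h5.2.1
    have e3 := Nat.le_of_ble_eq_true h5.2.2
    omega
  · obtain ⟨m, hm, hmm⟩ := List.any_eq_true.1 h5
    refine ⟨bs m, ⟨m, hm, rfl⟩, ?_⟩
    rw [h2]
    have h6 := Nat.eq_of_beq_eq_true hmm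
    intro i hi
    have h7 : i ∈ bs (Nat.land m (lm3 n a b c)) := by rw [h6]; exact hi
    rw [bs_land, mem_inter] at h7
    exact h7.2

/-- The mask of a line of the square. -/
def lm2 (n a b : ℕ) : ℕ :=
  maskOf ((List.range n).map (fun t => cv n a t * n + cv n b t))

/-- The number of a cell. -/
def enc2 {n : ℕ} (x : Fin 2 → Fin n) : ℕ := (x 0 : ℕ) * n + x 1

theorem enc2_inj {n : ℕ} : Function.Injective (enc2 (n := n)) := by
  intro x y h
  unfold enc2 at h
  obtain ⟨h3, h4⟩ := mul_add_inj (x 1).2 (y 1).2 h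
  funext j
  apply Fin.ext
  fin_cases j
  · exact h3
  · exact h4

theorem enc2_range {n : ℕ} (i : ℕ) (hi : i < n * n) : ∃ x : Fin 2 → Fin n, enc2 x = i := by
  have hn : 0 < n := by
    rcases Nat.eq_zero_or_pos n with h | h
    · subst h; simp at hi
    · exact h
  have h1 : i / n < n := by
    apply Nat.div_lt_of_lt_mul
    exact hi
  refine ⟨![⟨i / n, h1⟩, ⟨i % n, Nat.mod_lt _ hn⟩], ?_⟩
  simp only [enc2, Matrix.cons_val_zero, Matrix.cons_val_one]
  rw [Nat.div_add_mod' i n]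

theorem enc2_lt {n : ℕ} (x : Fin 2 → Fin n) : enc2 x < n * n := by
  unfold enc2
  have h0 := (x 0).2
  have h1 := (x 1).2
  calc (x 0 : ℕ) * n + x 1 < (x 0 : ℕ) * n + n := by omega
      _ = ((x 0 : ℕ) + 1) * n := by ring
      _ ≤ n * n := Nat.mul_le_mul_right _ (by omega)

theorem line_mask2 {n : ℕ} {f : Fin 2 → Fin n → Fin n} (hf : IsMove 2 n f) :
    ∃ a < n + 2, ∃ b < n + 2, (n ≤ a ∨ n ≤ b) ∧
      (lineOf f).image enc2 = bs (lm2 n a b) := by
  obtain ⟨h1, h2⟩ := hf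
  obtain ⟨a, ha, ha1, ha2⟩ := type_exists (f 0) (h1 0)
  obtain ⟨b, hb, hb1, hb2⟩ := type_exists (f 1) (h1 1)
  refine ⟨a, ha, b, hb, ?_, ?_⟩
  · obtain ⟨j, hj⟩ := h2
    fin_cases j
    · exact Or.inl (ha2 hj)
    · exact Or.inr (hb2 hj)
  · ext i
    rw [lm2, mem_maskOf, List.mem_map]
    simp only [lineOf, mem_image, mem_univ, true_and, exists_exists_eq_and, List.mem_range]
    constructor
    · rintro ⟨t, rfl⟩
      exact ⟨t, t.2, by simp only [enc2, ha1, hb1]⟩
    · rintro ⟨t, ht, rfl⟩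
      exact ⟨⟨t, ht⟩, by simp only [enc2, ha1, hb1]⟩

theorem mask_line2 {n a b : ℕ} (ha : a < n + 2) (hb : b < n + 2)
    (h : n ≤ a ∨ n ≤ b) : ∃ e ∈ Lines 2 n, e.image enc2 = bs (lm2 n a b) := by
  obtain ⟨g0, h01, h02, h03⟩ := exists_type a ha
  obtain ⟨g1, h11, h12, h13⟩ := exists_type b hb
  refine ⟨lineOf ![g0, g1], ⟨_, ⟨?_, ?_⟩, rfl⟩, ?_⟩
  · intro j
    fin_cases j
    · exact h01
    · exact h11
  · rcases h with h | h
    · exact ⟨0, h03 h⟩
    · exact ⟨1, h13 h⟩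
  · ext i
    rw [lm2, mem_maskOf, List.mem_map]
    simp only [lineOf, mem_image, mem_univ, true_and, exists_exists_eq_and, List.mem_range]
    constructor
    · rintro ⟨t, rfl⟩
      refine ⟨t, t.2, ?_⟩
      rw [← h02, ← h12]
      rfl
    · rintro ⟨t, ht, rfl⟩
      refine ⟨⟨t, ht⟩, ?_⟩
      have e0 := h02 ⟨t, ht⟩
      have e1 := h12 ⟨t, ht⟩
      simp only at e0 e1
      rw [← e0, ← e1]
      rfl

/-- Every line contains a mask of the list. -/
def cov2 (n : ℕ) (Ms : List ℕ) : Bool :=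
  (List.range (n + 2)).all fun a => (List.range (n + 2)).all fun b =>
    (Nat.ble (a + 1) n && Nat.ble (b + 1) n) ||
      Ms.any (fun m => Nat.beq (Nat.land m (lm2 n a b)) m)

theorem bw_of_cov2 {n : ℕ} {Ms : List ℕ} (h : BW (fam Ms)) (hc : cov2 n Ms = true) :
    BW (Lines 2 n) := by
  refine h.comap enc2 Set.univ enc2_inj.injOn (fun e _ x _ => Set.mem_univ x) ?_
  rintro e ⟨f, hf, rfl⟩
  obtain ⟨a, ha, b, hb, h1, h2⟩ := line_mask2 hf
  have h3 := List.all_eq_true.1 hc a (List.mem_range.2 ha)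
  have h5 := List.all_eq_true.1 h3 b (List.mem_range.2 hb)
  rw [Bool.or_eq_true] at h5
  rcases h5 with h5 | h5
  · exfalso
    simp only [Bool.and_eq_true] at h5
    have e1 := Nat.le_of_ble_eq_true h5.1
    have e2 := Nat.le_of_ble_eq_true h5.2
    omega
  · obtain ⟨m, hm, hmm⟩ := List.any_eq_true.1 h5
    refine ⟨bs m, ⟨m, hm, rfl⟩, ?_⟩
    rw [h2]
    have h6 := Nat.eq_of_beq_eq_true hmm
    intro i hi
    have h7 : i ∈ bs (Nat.land m (lm2 n a b)) := by rw [h6]; exact hi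
    rw [bs_land, mem_inter] at h7
    exact h7.2

end Pool.Agent.TTT
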