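import Pool.Agent.TTT.Round
import Pool.Agent.TTT.Cube

/-!
Breaker blocks all the lines of the board `6 x 6 x 6`: he answers the first move of Maker, and then
plays locally in the blocks of a partition of the remaining cells.
-/

set_option autoImplicit false
set_option maxRecDepth 100000

namespace Pool.Agent.TTT.C6

open Finset

/-- The lines. -/
def lines : List ℕ := [0x3f, 0x41041041, 0x810204081, 0x1000000001000000001000000001000000001000000001, 0x20000000010000000008000000004000000002000000001, 0x40000000001000000000040000000001000000000040000000001, 0x800000000010000000000200000000004000000000080000000001, 0x82082082, 0x2000000002000000002000000002000000002000000002, 0x80000000002000000000080000000002000000000080000000002, 0x104104104, 0x4000000004000000004000000004000000004000000004, 0x100000000004000000000100000000004000000000100000000004, 0x208208208, 0x8000000008000000008000000008000000008000000008, 0x200000000008000000000200000000008000000000200000000008,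 0x410410410, 0x10000000010000000010000000010000000010000000010, 0x400000000010000000000400000000010000000000400000000010, 0x42108420, 0x820820820, 0x1000000002000000004000000008000000010000000020, 0x20000000020000000020000000020000000020000000020, 0x40000000002000000000100000000008000000000400000000020, 0x800000000020000000000800000000020000000000800000000020, 0xfc0, 0x40000000040000000040000000040000000040000000040, 0x800000000400000000200000000100000000080000000040, 0x80000000080000000080000000080000000080000000080, 0x100000000100000000100000000100000000100000000100, 0x200000000200000000200000000200000000200000000200, 0x400000000400000000400000000400000000400000000400, 0x40000000080000000100000000200000000400000000800, 0x800000000800000000800000000800000000800000000800, 0x3f000, 0x1000000001000000001000000001000000001000000001000, 0x20000000010000000008000000004000000002000000001000, 0x2000000002000000002000000002000000002000000002000, 0x4000000004000000004000000004000000004000000004000,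 0x8000000008000000008000000008000000008000000008000, 0x10000000010000000010000000010000000010000000010000, 0x1000000002000000004000000008000000010000000020000, 0x20000000020000000020000000020000000020000000020000, 0xfc0000, 0x40000000040000000040000000040000000040000000040000, 0x800000000400000000200000000100000000080000000040000, 0x80000000080000000080000000080000000080000000080000, 0x100000000100000000100000000100000000100000000100000, 0x200000000200000000200000000200000000200000000200000, 0x400000000400000000400000000400000000400000000400000, 0x40000000080000000100000000200000000400000000800000, 0x800000000800000000800000000800000000800000000800000, 0x3f000000, 0x1000000001000000001000000001000000001000000001000000, 0x20000000010000000008000000004000000002000000001000000, 0x2000000002000000002000000002000000002000000002000000, 0x4000000004000000004000000004000000004000000004000000, 0x8000000008000000008000000008000000008000000008000000, 0x10000000010000000010000000010000000010000000010000000,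 0x1000000002000000004000000008000000010000000020000000, 0x20000000020000000020000000020000000020000000020000000, 0xfc0000000, 0x1000000040000001000000040000001000000040000000, 0x20000000400000008000000100000002000000040000000, 0x40000000040000000040000000040000000040000000040000000, 0x800000000400000000200000000100000000080000000040000000, 0x2000000080000002000000080000002000000080000000, 0x80000000080000000080000000080000000080000000080000000, 0x4000000100000004000000100000004000000100000000, 0x100000000100000000100000000100000000100000000100000000, 0x8000000200000008000000200000008000000200000000, 0x200000000200000000200000000200000000200000000200000000, 0x10000000400000010000000400000010000000400000000, 0x400000000400000000400000000400000000400000000400000000, 0x1000000080000004000000200000010000000800000000, 0x20000000800000020000000800000020000000800000000, 0x40000000080000000100000000200000000400000000800000000, 0x800000000800000000800000000800000000800000000800000000,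 0x3f000000000, 0x41041041000000000, 0x810204081000000000, 0x82082082000000000, 0x104104104000000000, 0x208208208000000000, 0x410410410000000000, 0x42108420000000000, 0x820820820000000000, 0xfc0000000000, 0x3f000000000000, 0xfc0000000000000, 0x3f000000000000000, 0xfc0000000000000000, 0x3f000000000000000000, 0x41041041000000000000000000, 0x810204081000000000000000000, 0x82082082000000000000000000, 0x104104104000000000000000000, 0x208208208000000000000000000, 0x410410410000000000000000000, 0x42108420000000000000000000, 0x820820820000000000000000000, 0xfc0000000000000000000, 0x3f000000000000000000000, 0xfc0000000000000000000000, 0x3f000000000000000000000000, 0xfc0000000000000000000000000, 0x3f000000000000000000000000000, 0x41041041000000000000000000000000000, 0x810204081000000000000000000000000000, 0x82082082000000000000000000000000000, 0x104104104000000000000000000000000000, 0x208208208000000000000000000000000000, 0x410410410000000000000000000000000000,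 0x42108420000000000000000000000000000, 0x820820820000000000000000000000000000, 0xfc0000000000000000000000000000, 0x3f000000000000000000000000000000, 0xfc0000000000000000000000000000000, 0x3f000000000000000000000000000000000, 0xfc0000000000000000000000000000000000, 0x3f000000000000000000000000000000000000, 0x41041041000000000000000000000000000000000000, 0x810204081000000000000000000000000000000000000, 0x82082082000000000000000000000000000000000000, 0x104104104000000000000000000000000000000000000, 0x208208208000000000000000000000000000000000000, 0x410410410000000000000000000000000000000000000, 0x42108420000000000000000000000000000000000000, 0x820820820000000000000000000000000000000000000, 0xfc0000000000000000000000000000000000000, 0x3f000000000000000000000000000000000000000, 0xfc0000000000000000000000000000000000000000, 0x3f000000000000000000000000000000000000000000, 0xfc0000000000000000000000000000000000000000000, 0x3f000000000000000000000000000000000000000000000,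 0x41041041000000000000000000000000000000000000000000000, 0x810204081000000000000000000000000000000000000000000000, 0x82082082000000000000000000000000000000000000000000000, 0x104104104000000000000000000000000000000000000000000000, 0x208208208000000000000000000000000000000000000000000000, 0x410410410000000000000000000000000000000000000000000000, 0x42108420000000000000000000000000000000000000000000000, 0x820820820000000000000000000000000000000000000000000000, 0xfc0000000000000000000000000000000000000000000000, 0x3f000000000000000000000000000000000000000000000000, 0xfc0000000000000000000000000000000000000000000000000, 0x3f000000000000000000000000000000000000000000000000000, 0xfc0000000000000000000000000000000000000000000000000000]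

namespace P0

/-- The strategy tree of block 0. -/
def t0 : Tr := (.cons 6 8 (.cons 191 80 (.cons 119 83 (.cons 116 114 (.leaf [(81,186),(150,152)]) (.cons 114 116 (.leaf [(150,152),(78,186)]) (.cons 150 152 (.cons 114 116 (.leaf [(78,186)]) (.cons 116 114 (.leaf [(81,186)]) (.cons 186 114 (.leaf [(81,116)]) (.cons 81 116 (.leaf [(78,114)]) (.cons 78 114 (.leaf [(81,116)]) .nil))))) (.cons 152 150 (.leaf [(114,116),(81,186)]) (.cons 186 116 (.leaf [(150,152),(78,114)]) (.cons 81 116 (.leaf [(150,152),(78,114)]) (.cons 78 114 (.leaf [(150,152),(81,116)]) .nil))))))) (.cons 150 152 (.cons 119 83 (.cons 114 116 (.leaf [(78,186)]) (.cons 116 114 (.leaf [(81,186)]) (.cons 186 114 (.leaf [(81,116)]) (.cons 81 116 (.leaf [(78,114)]) (.cons 78 114 (.leaf [(81,116)]) .nil))))) (.cons 114 119 (.leaf [(78,186),(81,116)]) (.cons 83 119 (.leaf [(78,114),(81,116)]) (.cons 116 119 (.leaf [(81,186),(78,114)]) (.cons 186 114 (.leaf [(81,116),(83,119)]) (.cons 78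 114 (.leaf [(83,119),(81,116)]) (.cons 81 116 (.leaf [(83,119),(78,114)]) .nil))))))) (.cons 83 119 (.leaf [(150,152),(81,116),(78,114)]) (.cons 116 119 (.leaf [(81,186),(150,152),(78,114)]) (.cons 152 150 (.leaf [(83,119),(81,186),(114,116)]) (.cons 114 119 (.leaf [(150,152),(78,186),(81,116)]) (.cons 186 116 (.leaf [(83,119),(150,152),(78,114)]) (.cons 81 116 (.leaf [(83,119),(150,152),(78,114)]) (.cons 78 150 (.leaf [(83,119),(81,186),(114,116)]) .nil))))))))) (.cons 80 191 (.cons 150 152 (.cons 78 81 (.leaf [(114,186),(116,119)]) (.cons 81 116 (.leaf [(78,83),(114,186)]) (.cons 114 78 (.leaf [(116,119),(81,186)]) (.cons 116 81 (.leaf [(114,119),(78,186)]) (.cons 186 81 (.leaf [(78,114),(116,119)]) (.cons 83 81 (.leaf [(78,186),(114,116)]) (.cons 119 114 (.leaf [(78,83),(81,116)]) .nil))))))) (.cons 81 116 (.leaf [(78,83),(150,152),(114,186)]) (.cons 116 81 (.leaf [(114,119),(150,152),(78,186)]) (.cons 152 150 (.leaf [(78,83),(81,186),(114,116)])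 (.cons 78 81 (.leaf [(150,152),(114,186),(116,119)]) (.cons 114 116 (.leaf [(150,152),(78,186),(81,83)]) (.cons 186 81 (.leaf [(150,152),(78,114),(116,119)]) (.cons 83 81 (.leaf [(150,152),(78,114),(116,119)]) (.cons 119 116 (.leaf [(150,152),(78,114),(81,83)]) .nil))))))))) (.cons 150 152 (.cons 191 80 (.cons 119 83 (.cons 114 116 (.leaf [(78,186)]) (.cons 116 114 (.leaf [(81,186)]) (.cons 186 114 (.leaf [(81,116)]) (.cons 81 116 (.leaf [(78,114)]) (.cons 78 114 (.leaf [(81,116)]) .nil))))) (.cons 114 119 (.leaf [(78,186),(81,116)]) (.cons 83 119 (.leaf [(78,114),(81,116)]) (.cons 116 119 (.leaf [(81,186),(78,114)]) (.cons 186 114 (.leaf [(81,116),(83,119)]) (.cons 78 114 (.leaf [(83,119),(81,116)]) (.cons 81 116 (.leaf [(83,119),(78,114)]) .nil))))))) (.cons 80 191 (.cons 78 81 (.leaf [(114,186),(116,119)]) (.cons 81 116 (.leaf [(78,83),(114,186)]) (.cons 114 78 (.leaf [(116,119),(81,186)]) (.cons 116 81 (.leaf [(114,119),(78,186)]) (.cons 186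 81 (.leaf [(78,114),(116,119)]) (.cons 83 81 (.leaf [(78,186),(114,116)]) (.cons 119 114 (.leaf [(78,83),(81,116)]) .nil))))))) (.cons 114 116 (.cons 191 80 (.leaf [(78,186),(83,119)]) (.cons 78 186 (.cons 80 191 (.leaf [(81,83)]) (.cons 191 80 (.leaf [(83,119)]) (.cons 83 80 (.leaf [(119,191)]) (.cons 81 80 (.leaf [(83,119)]) (.cons 119 191 (.leaf [(80,81)]) .nil))))) (.cons 80 191 (.leaf [(78,186),(81,83)]) (.cons 186 78 (.leaf [(80,191),(83,119)]) (.cons 83 191 (.leaf [(78,186),(80,81)]) (.cons 119 191 (.leaf [(78,186),(80,81)]) (.cons 81 80 (.leaf [(78,186),(83,119)]) .nil))))))) (.cons 116 114 (.cons 191 80 (.leaf [(81,186),(83,119)]) (.cons 80 191 (.leaf [(81,186),(78,83)]) (.cons 81 186 (.cons 80 191 (.leaf [(78,83)]) (.cons 191 80 (.leaf [(83,119)]) (.cons 83 80 (.leaf [(119,191)]) (.cons 119 191 (.leaf [(78,80)]) (.cons 78 80 (.leaf [(83,119)]) .nil))))) (.cons 186 81 (.leaf [(80,191),(83,119)]) (.cons 83 191 (.leaf [(81,186),(78,80)]) (.cons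 119 191 (.leaf [(81,186),(78,80)]) (.cons 78 80 (.leaf [(81,186),(83,119)]) .nil))))))) (.cons 119 191 (.cons 114 116 (.leaf [(78,186),(80,81)]) (.cons 116 114 (.leaf [(81,186),(78,80)]) (.cons 186 114 (.leaf [(81,116),(78,80)]) (.cons 78 114 (.leaf [(80,83),(81,116)]) (.cons 81 116 (.leaf [(78,114),(80,83)]) (.cons 80 114 (.leaf [(78,83),(81,116)]) (.cons 83 114 (.leaf [(78,80),(81,116)]) .nil))))))) (.cons 186 114 (.cons 191 80 (.leaf [(81,116),(83,119)]) (.cons 80 191 (.leaf [(81,116),(78,83)]) (.cons 81 116 (.cons 80 191 (.leaf [(78,83)]) (.cons 191 80 (.leaf [(83,119)]) (.cons 83 80 (.leaf [(119,191)]) (.cons 119 191 (.leaf [(78,80)]) (.cons 78 80 (.leaf [(83,119)]) .nil))))) (.cons 116 81 (.leaf [(80,191),(83,119)]) (.cons 83 191 (.leaf [(81,116),(78,80)]) (.cons 119 191 (.leaf [(81,116),(78,80)]) (.cons 78 80 (.leaf [(81,116),(83,119)]) .nil))))))) (.cons 78 80 (.cons 114 186 (.leaf [(116,119),(83,191)]) (.cons 186 114 (.leaf [(81,116),(83,119)])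 (.cons 116 114 (.leaf [(81,186),(83,119)]) (.cons 119 114 (.leaf [(83,191),(81,116)]) (.cons 81 186 (.leaf [(83,119),(114,116)]) (.cons 83 114 (.leaf [(119,191),(81,116)]) (.cons 191 114 (.leaf [(83,119),(81,116)]) .nil))))))) (.cons 81 80 (.cons 116 186 (.leaf [(114,119),(83,191)]) (.cons 186 116 (.leaf [(78,114),(83,119)]) (.cons 114 116 (.leaf [(78,186),(83,119)]) (.cons 119 116 (.leaf [(83,191),(78,114)]) (.cons 78 186 (.leaf [(83,119),(114,116)]) (.cons 83 116 (.leaf [(119,191),(78,114)]) (.cons 191 116 (.leaf [(83,119),(78,114)]) .nil))))))) (.cons 83 191 (.cons 78 81 (.leaf [(114,186),(116,119)]) (.cons 81 116 (.leaf [(78,80),(114,186)]) (.cons 114 78 (.leaf [(116,119),(81,186)]) (.cons 116 81 (.leaf [(114,119),(78,186)]) (.cons 186 81 (.leaf [(78,114),(116,119)]) (.cons 80 81 (.leaf [(78,186),(114,116)]) (.cons 119 114 (.leaf [(78,80),(81,116)]) .nil))))))) .nil))))))))) (.cons 116 119 (.cons 80 191 (.cons 81 186 (.leaf [(78,83),(150,152)])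 (.cons 150 152 (.cons 81 186 (.leaf [(78,83)]) (.cons 186 81 (.leaf [(78,114)]) (.cons 78 81 (.leaf [(114,186)]) (.cons 114 186 (.leaf [(78,81)]) (.cons 83 81 (.leaf [(78,114)]) .nil))))) (.cons 186 81 (.leaf [(150,152),(78,114)]) (.cons 152 150 (.leaf [(81,186),(78,83)]) (.cons 78 81 (.leaf [(150,152),(114,186)]) (.cons 83 81 (.leaf [(150,152),(78,114)]) (.cons 114 81 (.leaf [(150,152),(78,186)]) .nil))))))) (.cons 81 186 (.leaf [(80,191),(150,152),(78,83)]) (.cons 150 152 (.cons 186 81 (.leaf [(78,114),(80,191)]) (.cons 80 191 (.cons 81 186 (.leaf [(78,83)]) (.cons 186 81 (.leaf [(78,114)]) (.cons 78 81 (.leaf [(114,186)]) (.cons 114 186 (.leaf [(78,81)]) (.cons 83 81 (.leaf [(78,114)]) .nil))))) (.cons 81 186 (.leaf [(80,191),(78,83)]) (.cons 191 80 (.leaf [(81,186),(78,114)]) (.cons 78 186 (.leaf [(80,191),(81,83)]) (.cons 114 186 (.leaf [(80,191),(78,81)]) (.cons 83 80 (.leaf [(81,186),(78,114)]) .nil))))))) (.cons 186 81 (.leaf [(80,191),(150,152),(78,114)])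 (.cons 152 150 (.leaf [(80,191),(81,186),(78,83)]) (.cons 191 80 (.leaf [(81,186),(150,152),(78,114)]) (.cons 78 81 (.leaf [(80,191),(150,152),(114,186)]) (.cons 114 150 (.leaf [(80,191),(81,186),(78,83)]) (.cons 83 80 (.leaf [(81,186),(150,152),(78,114)]) .nil))))))))) (.cons 119 191 (.cons 116 114 (.leaf [(81,186),(150,152),(78,80)]) (.cons 114 116 (.leaf [(150,152),(78,186),(80,81)]) (.cons 150 152 (.cons 114 116 (.leaf [(78,186),(80,81)]) (.cons 116 114 (.leaf [(81,186),(78,80)]) (.cons 186 114 (.leaf [(81,116),(78,80)]) (.cons 78 114 (.leaf [(80,83),(81,116)]) (.cons 81 116 (.leaf [(78,114),(80,83)]) (.cons 80 114 (.leaf [(78,83),(81,116)]) (.cons 83 114 (.leaf [(78,80),(81,116)]) .nil))))))) (.cons 152 150 (.leaf [(114,116),(81,186),(78,80)]) (.cons 81 116 (.leaf [(150,152),(78,114),(80,83)]) (.cons 186 116 (.leaf [(150,152),(78,114),(80,81)]) (.cons 78 114 (.leaf [(150,152),(80,83),(81,116)]) (.cons 80 116 (.leaf [(150,152),(78,114),(81,83)])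 (.cons 83 116 (.leaf [(150,152),(78,114),(80,81)]) .nil))))))))) (.cons 152 150 (.cons 191 80 (.leaf [(83,119),(81,186),(114,116)]) (.cons 80 191 (.leaf [(78,83),(81,186),(114,116)]) (.cons 116 119 (.leaf [(80,191),(81,186),(78,83)]) (.cons 119 191 (.leaf [(114,116),(81,186),(78,80)]) (.cons 81 80 (.leaf [(116,186),(83,191),(114,119)]) (.cons 83 191 (.leaf [(78,80),(81,186),(114,116)]) (.cons 114 116 (.leaf [(80,191),(83,119),(78,81)]) (.cons 186 116 (.leaf [(80,191),(83,119),(78,81)]) (.cons 78 80 (.leaf [(81,186),(114,116),(83,119)]) .nil))))))))) (.cons 81 80 (.cons 116 186 (.leaf [(114,119),(150,152),(83,191)]) (.cons 150 152 (.cons 116 186 (.leaf [(114,119),(83,191)]) (.cons 186 116 (.leaf [(78,114),(83,119)]) (.cons 114 116 (.leaf [(78,186),(83,119)]) (.cons 119 116 (.leaf [(83,191),(78,114)]) (.cons 78 186 (.leaf [(83,119),(114,116)]) (.cons 83 116 (.leaf [(119,191),(78,114)]) (.cons 191 116 (.leaf [(83,119),(78,114)]) .nil))))))) (.cons 186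 116 (.leaf [(150,152),(78,114),(83,119)]) (.cons 119 116 (.leaf [(83,191),(150,152),(78,114)]) (.cons 152 150 (.leaf [(116,186),(83,191),(114,119)]) (.cons 114 116 (.leaf [(150,152),(78,186),(83,119)]) (.cons 83 116 (.leaf [(119,191),(150,152),(78,114)]) (.cons 191 116 (.leaf [(83,119),(150,152),(78,114)]) (.cons 78 116 (.leaf [(150,152),(83,119),(114,186)]) .nil))))))))) (.cons 114 116 (.cons 150 152 (.cons 191 80 (.leaf [(78,186),(83,119)]) (.cons 78 186 (.cons 80 191 (.leaf [(81,83)]) (.cons 191 80 (.leaf [(83,119)]) (.cons 83 80 (.leaf [(119,191)]) (.cons 81 80 (.leaf [(83,119)]) (.cons 119 191 (.leaf [(80,81)]) .nil))))) (.cons 80 191 (.leaf [(78,186),(81,83)]) (.cons 186 78 (.leaf [(80,191),(83,119)]) (.cons 83 191 (.leaf [(78,186),(80,81)]) (.cons 119 191 (.leaf [(78,186),(80,81)]) (.cons 81 80 (.leaf [(78,186),(83,119)]) .nil))))))) (.cons 191 80 (.leaf [(83,119),(150,152),(78,186)]) (.cons 80 191 (.leaf [(150,152),(78,186),(81,83)]) (.cons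 152 150 (.leaf [(80,191),(83,119),(78,81)]) (.cons 78 150 (.cons 80 191 (.leaf [(81,83)]) (.cons 191 80 (.leaf [(83,119)]) (.cons 83 80 (.leaf [(119,191)]) (.cons 81 80 (.leaf [(83,119)]) (.cons 119 191 (.leaf [(80,81)]) .nil))))) (.cons 83 191 (.leaf [(150,152),(78,186),(80,81)]) (.cons 119 191 (.leaf [(150,152),(78,186),(80,81)]) (.cons 186 150 (.leaf [(80,191),(83,119),(78,81)]) (.cons 81 80 (.leaf [(150,152),(78,186),(83,119)]) .nil))))))))) (.cons 83 191 (.cons 150 152 (.cons 78 81 (.leaf [(114,186),(116,119)]) (.cons 81 116 (.leaf [(78,80),(114,186)]) (.cons 114 78 (.leaf [(116,119),(81,186)]) (.cons 116 81 (.leaf [(114,119),(78,186)]) (.cons 186 81 (.leaf [(78,114),(116,119)]) (.cons 80 81 (.leaf [(78,186),(114,116)]) (.cons 119 114 (.leaf [(78,80),(81,116)]) .nil))))))) (.cons 81 116 (.leaf [(78,80),(150,152),(114,186)]) (.cons 116 81 (.leaf [(114,119),(150,152),(78,186)]) (.cons 152 150 (.leaf [(78,80),(81,186),(114,116)]) (.cons 78 81 (.leaf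 [(150,152),(114,186),(116,119)]) (.cons 114 116 (.leaf [(150,152),(78,186),(80,81)]) (.cons 186 81 (.leaf [(150,152),(78,114),(116,119)]) (.cons 80 81 (.leaf [(150,152),(78,114),(116,119)]) (.cons 119 116 (.leaf [(150,152),(78,114),(80,81)]) .nil))))))))) (.cons 186 116 (.cons 150 152 (.cons 191 80 (.leaf [(78,114),(83,119)]) (.cons 78 114 (.cons 80 191 (.leaf [(81,83)]) (.cons 191 80 (.leaf [(83,119)]) (.cons 83 80 (.leaf [(119,191)]) (.cons 81 80 (.leaf [(83,119)]) (.cons 119 191 (.leaf [(80,81)]) .nil))))) (.cons 80 191 (.leaf [(78,114),(81,83)]) (.cons 114 78 (.leaf [(80,191),(83,119)]) (.cons 83 191 (.leaf [(78,114),(80,81)]) (.cons 119 191 (.leaf [(78,114),(80,81)]) (.cons 81 80 (.leaf [(78,114),(83,119)]) .nil))))))) (.cons 191 80 (.leaf [(83,119),(150,152),(78,114)]) (.cons 80 191 (.leaf [(150,152),(78,114),(81,83)]) (.cons 152 150 (.leaf [(80,191),(83,119),(78,81)]) (.cons 78 150 (.cons 80 191 (.leaf [(81,83)]) (.cons 191 80 (.leaf [(83,119)])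 (.cons 83 80 (.leaf [(119,191)]) (.cons 81 80 (.leaf [(83,119)]) (.cons 119 191 (.leaf [(80,81)]) .nil))))) (.cons 83 191 (.leaf [(150,152),(78,114),(80,81)]) (.cons 114 150 (.leaf [(80,191),(83,119),(78,81)]) (.cons 119 191 (.leaf [(150,152),(78,114),(80,81)]) (.cons 81 80 (.leaf [(150,152),(78,114),(83,119)]) .nil))))))))) (.cons 78 150 (.cons 80 191 (.leaf [(81,83),(116,186),(114,119)]) (.cons 191 80 (.leaf [(83,119),(81,186),(114,116)]) (.cons 81 80 (.leaf [(116,186),(83,191),(114,119)]) (.cons 83 80 (.leaf [(119,191),(81,186),(114,116)]) (.cons 116 80 (.leaf [(81,186),(114,119),(83,191)]) (.cons 119 191 (.leaf [(114,116),(80,83),(81,186)]) (.cons 114 80 (.leaf [(116,119),(81,186),(83,191)]) (.cons 186 80 (.leaf [(81,116),(83,191),(114,119)]) .nil)))))))) .nil))))))))))) (.cons 8 6 (.cons 116 152 (.leaf [(81,186),(114,119),(83,191),(78,80)]) (.cons 152 150 (.cons 116 80 (.leaf [(81,186),(114,119),(83,191)]) (.cons 80 116 (.leaf [(78,81),(83,119)])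 (.cons 119 116 (.leaf [(83,191),(78,80)]) (.cons 81 116 (.leaf [(78,80),(83,119)]) (.cons 83 116 (.leaf [(119,191),(78,80)]) (.cons 114 116 (.leaf [(83,119),(78,80)]) (.cons 186 116 (.leaf [(83,119),(78,80)]) (.cons 191 116 (.leaf [(83,119),(78,80)]) (.cons 78 116 (.leaf [(80,81),(83,119)]) .nil))))))))) (.cons 150 152 (.leaf [(81,186),(114,116),(83,119),(78,80)]) (.cons 119 116 (.leaf [(83,191),(150,152),(78,80)]) (.cons 80 116 (.leaf [(150,152),(78,81),(83,119)]) (.cons 81 116 (.leaf [(150,152),(78,80),(83,119)]) (.cons 83 116 (.leaf [(119,191),(150,152),(78,80)]) (.cons 114 116 (.leaf [(150,152),(83,119),(78,80)]) (.cons 186 116 (.leaf [(150,152),(83,119),(78,80)]) (.cons 191 116 (.leaf [(83,119),(150,152),(78,80)]) (.cons 78 116 (.leaf [(150,152),(80,81),(83,119)]) .nil))))))))))) (.cons 116 8 (.cons 119 114 (.cons 191 83 (.leaf [(6,80),(81,186),(150,152)]) (.cons 81 186 (.cons 83 191 (.leaf [(78,80),(150,152)]) (.cons 191 83 (.leaf [(6,80),(150,152)])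 (.cons 80 83 (.leaf [(6,191),(150,152)]) (.cons 150 152 (.cons 83 191 (.leaf [(78,80)]) (.cons 191 83 (.leaf [(6,80)]) (.cons 80 83 (.leaf [(6,191)]) (.cons 6 191 (.leaf [(78,80)]) (.cons 78 83 (.leaf [(6,80)]) .nil))))) (.cons 152 150 (.cons 83 191 (.leaf [(78,80)]) (.cons 191 83 (.leaf [(6,80)]) (.cons 80 83 (.leaf [(6,191)]) (.cons 6 191 (.leaf [(78,80)]) (.cons 78 83 (.leaf [(6,80)]) .nil))))) (.cons 6 191 (.leaf [(150,152),(78,80)]) (.cons 78 83 (.leaf [(150,152),(6,80)]) .nil))))))) (.cons 83 191 (.leaf [(81,186),(150,152),(78,80)]) (.cons 150 152 (.cons 191 83 (.leaf [(6,80),(81,186)]) (.cons 81 186 (.cons 83 191 (.leaf [(78,80)]) (.cons 191 83 (.leaf [(6,80)]) (.cons 80 83 (.leaf [(6,191)]) (.cons 6 191 (.leaf [(78,80)]) (.cons 78 83 (.leaf [(6,80)]) .nil))))) (.cons 83 191 (.leaf [(81,186),(78,80)]) (.cons 186 81 (.leaf [(83,191),(6,80)]) (.cons 80 191 (.leaf [(81,186),(78,83)]) (.cons 6 191 (.leaf [(81,186),(78,80)]) (.cons 78 81 (.leaf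 [(83,191),(6,80)]) .nil))))))) (.cons 152 150 (.cons 191 83 (.leaf [(6,80),(81,186)]) (.cons 81 186 (.cons 83 191 (.leaf [(78,80)]) (.cons 191 83 (.leaf [(6,80)]) (.cons 80 83 (.leaf [(6,191)]) (.cons 6 191 (.leaf [(78,80)]) (.cons 78 83 (.leaf [(6,80)]) .nil))))) (.cons 83 191 (.leaf [(81,186),(78,80)]) (.cons 186 81 (.leaf [(83,191),(6,80)]) (.cons 80 191 (.leaf [(81,186),(78,83)]) (.cons 6 191 (.leaf [(81,186),(78,80)]) (.cons 78 81 (.leaf [(83,191),(6,80)]) .nil))))))) (.cons 186 81 (.leaf [(83,191),(150,152),(6,80)]) (.cons 80 191 (.leaf [(81,186),(150,152),(78,83)]) (.cons 6 191 (.leaf [(81,186),(150,152),(78,80)]) (.cons 78 81 (.leaf [(83,191),(150,152),(6,80)]) .nil))))))))) (.cons 81 186 (.cons 119 114 (.cons 83 191 (.leaf [(78,80),(150,152)]) (.cons 191 83 (.leaf [(6,80),(150,152)]) (.cons 80 83 (.leaf [(6,191),(150,152)]) (.cons 150 152 (.cons 83 191 (.leaf [(78,80)]) (.cons 191 83 (.leaf [(6,80)]) (.cons 80 83 (.leaf [(6,191)]) (.cons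 6 191 (.leaf [(78,80)]) (.cons 78 83 (.leaf [(6,80)]) .nil))))) (.cons 152 150 (.cons 83 191 (.leaf [(78,80)]) (.cons 191 83 (.leaf [(6,80)]) (.cons 80 83 (.leaf [(6,191)]) (.cons 6 191 (.leaf [(78,80)]) (.cons 78 83 (.leaf [(6,80)]) .nil))))) (.cons 6 191 (.leaf [(150,152),(78,80)]) (.cons 78 83 (.leaf [(150,152),(6,80)]) .nil))))))) (.cons 80 83 (.leaf [(6,191),(114,119),(150,152)]) (.cons 114 119 (.leaf [(150,152),(6,191),(78,80)]) (.cons 83 119 (.leaf [(78,80),(150,152),(6,191)]) (.cons 150 152 (.cons 119 114 (.cons 83 191 (.leaf [(78,80)]) (.cons 191 83 (.leaf [(6,80)]) (.cons 80 83 (.leaf [(6,191)]) (.cons 6 191 (.leaf [(78,80)]) (.cons 78 83 (.leaf [(6,80)]) .nil))))) (.cons 80 83 (.leaf [(6,191),(114,119)]) (.cons 114 119 (.leaf [(6,191),(78,80)]) (.cons 83 119 (.leaf [(78,80),(6,191)]) (.cons 191 119 (.leaf [(6,80),(78,83)]) (.cons 6 80 (.leaf [(114,119),(83,191)]) (.cons 78 80 (.leaf [(114,119),(83,191)]) .nil))))))) (.cons 152 150 (.cons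 119 114 (.cons 83 191 (.leaf [(78,80)]) (.cons 191 83 (.leaf [(6,80)]) (.cons 80 83 (.leaf [(6,191)]) (.cons 6 191 (.leaf [(78,80)]) (.cons 78 83 (.leaf [(6,80)]) .nil))))) (.cons 80 83 (.leaf [(6,191),(114,119)]) (.cons 114 119 (.leaf [(6,191),(78,80)]) (.cons 83 119 (.leaf [(78,80),(6,191)]) (.cons 191 119 (.leaf [(6,80),(78,83)]) (.cons 6 80 (.leaf [(114,119),(83,191)]) (.cons 78 80 (.leaf [(114,119),(83,191)]) .nil))))))) (.cons 191 119 (.leaf [(6,80),(150,152),(78,83)]) (.cons 6 80 (.leaf [(114,119),(150,152),(83,191)]) (.cons 78 80 (.leaf [(114,119),(150,152),(83,191)]) .nil))))))))) (.cons 114 119 (.cons 81 186 (.leaf [(150,152),(6,191),(78,80)]) (.cons 150 152 (.cons 186 81 (.leaf [(6,78),(80,191)]) (.cons 81 186 (.leaf [(6,191),(78,80)]) (.cons 6 186 (.leaf [(80,191),(78,81)]) (.cons 78 186 (.leaf [(6,191),(80,81)]) (.cons 80 81 (.leaf [(6,191),(78,186)]) (.cons 191 6 (.leaf [(81,186),(78,80)]) (.cons 83 81 (.leaf [(6,80),(78,186)]) .nil)))))))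 (.cons 186 81 (.leaf [(150,152),(6,78),(80,191)]) (.cons 152 150 (.leaf [(81,186),(6,191),(78,80)]) (.cons 6 150 (.leaf [(80,191),(81,186),(78,83)]) (.cons 80 81 (.leaf [(6,191),(150,152),(78,186)]) (.cons 78 81 (.leaf [(150,152),(6,186),(80,191)]) (.cons 191 6 (.leaf [(81,186),(150,152),(78,80)]) (.cons 83 81 (.leaf [(150,152),(6,78),(80,191)]) .nil))))))))) (.cons 150 152 (.cons 119 114 (.cons 191 83 (.leaf [(6,80),(81,186)]) (.cons 81 186 (.cons 83 191 (.leaf [(78,80)]) (.cons 191 83 (.leaf [(6,80)]) (.cons 80 83 (.leaf [(6,191)]) (.cons 6 191 (.leaf [(78,80)]) (.cons 78 83 (.leaf [(6,80)]) .nil))))) (.cons 83 191 (.leaf [(81,186),(78,80)]) (.cons 186 81 (.leaf [(83,191),(6,80)]) (.cons 80 191 (.leaf [(81,186),(78,83)]) (.cons 6 191 (.leaf [(81,186),(78,80)]) (.cons 78 81 (.leaf [(83,191),(6,80)]) .nil))))))) (.cons 81 186 (.cons 119 114 (.cons 83 191 (.leaf [(78,80)]) (.cons 191 83 (.leaf [(6,80)]) (.cons 80 83 (.leaf [(6,191)]) (.cons 6 191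 (.leaf [(78,80)]) (.cons 78 83 (.leaf [(6,80)]) .nil))))) (.cons 80 83 (.leaf [(6,191),(114,119)]) (.cons 114 119 (.leaf [(6,191),(78,80)]) (.cons 83 119 (.leaf [(78,80),(6,191)]) (.cons 191 119 (.leaf [(6,80),(78,83)]) (.cons 6 80 (.leaf [(114,119),(83,191)]) (.cons 78 80 (.leaf [(114,119),(83,191)]) .nil))))))) (.cons 114 119 (.cons 186 81 (.leaf [(6,78),(80,191)]) (.cons 81 186 (.leaf [(6,191),(78,80)]) (.cons 6 186 (.leaf [(80,191),(78,81)]) (.cons 78 186 (.leaf [(6,191),(80,81)]) (.cons 80 81 (.leaf [(6,191),(78,186)]) (.cons 191 6 (.leaf [(81,186),(78,80)]) (.cons 83 81 (.leaf [(6,80),(78,186)]) .nil))))))) (.cons 186 81 (.cons 114 119 (.leaf [(6,78),(80,191)]) (.cons 119 114 (.leaf [(83,191),(6,80)]) (.cons 6 114 (.leaf [(80,191),(83,119)]) (.cons 191 119 (.leaf [(6,80),(78,114)]) (.cons 78 114 (.leaf [(6,80),(83,119)]) (.cons 80 114 (.leaf [(6,191),(83,119)]) (.cons 83 119 (.leaf [(6,80),(78,114)]) .nil))))))) (.cons 191 119 (.cons 6 80 (.leaf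 [(81,186),(78,114)]) (.cons 80 6 (.leaf [(81,186),(78,83)]) (.cons 81 186 (.leaf [(6,80),(78,83)]) (.cons 186 81 (.leaf [(6,80),(78,114)]) (.cons 78 80 (.leaf [(81,186),(6,114)]) (.cons 114 6 (.leaf [(81,186),(78,80)]) (.cons 83 80 (.leaf [(81,186),(6,78)]) .nil))))))) (.cons 6 114 (.cons 191 80 (.leaf [(81,186),(83,119)]) (.cons 80 191 (.leaf [(81,186),(78,83)]) (.cons 81 186 (.cons 80 191 (.leaf [(78,83)]) (.cons 191 80 (.leaf [(83,119)]) (.cons 83 80 (.leaf [(119,191)]) (.cons 119 191 (.leaf [(78,80)]) (.cons 78 80 (.leaf [(83,119)]) .nil))))) (.cons 186 81 (.leaf [(80,191),(83,119)]) (.cons 83 191 (.leaf [(81,186),(78,80)]) (.cons 119 191 (.leaf [(81,186),(78,80)]) (.cons 78 80 (.leaf [(81,186),(83,119)]) .nil))))))) (.cons 80 119 (.cons 81 186 (.leaf [(6,191),(78,83)]) (.cons 6 191 (.cons 81 186 (.leaf [(78,83)]) (.cons 186 81 (.leaf [(78,114)]) (.cons 78 81 (.leaf [(114,186)]) (.cons 114 186 (.leaf [(78,81)]) (.cons 83 81 (.leaf [(78,114)])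 .nil))))) (.cons 186 81 (.leaf [(6,191),(78,114)]) (.cons 191 6 (.leaf [(81,186),(78,83)]) (.cons 78 81 (.leaf [(6,191),(114,186)]) (.cons 83 81 (.leaf [(6,191),(78,114)]) (.cons 114 81 (.leaf [(6,191),(78,186)]) .nil))))))) (.cons 83 119 (.cons 81 186 (.leaf [(78,80),(6,191)]) (.cons 186 81 (.leaf [(6,80),(78,114)]) (.cons 80 81 (.leaf [(6,191),(78,114)]) (.cons 6 80 (.leaf [(81,186),(78,114)]) (.cons 78 81 (.leaf [(6,114),(80,191)]) (.cons 191 80 (.leaf [(81,186),(6,78)]) (.cons 114 81 (.leaf [(6,80),(78,186)]) .nil))))))) (.cons 78 81 (.cons 114 119 (.leaf [(6,186),(80,191)]) (.cons 119 114 (.leaf [(83,191),(6,80)]) (.cons 6 114 (.leaf [(80,191),(83,119)]) (.cons 191 119 (.leaf [(6,80),(114,186)]) (.cons 80 114 (.leaf [(6,191),(83,119)]) (.cons 83 119 (.leaf [(6,114),(80,191)]) (.cons 186 114 (.leaf [(6,80),(83,119)]) .nil))))))) .nil))))))))) (.cons 186 81 (.cons 119 114 (.leaf [(83,191),(150,152),(6,80)]) (.cons 114 119 (.leaf [(150,152),(6,78),(80,191)])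 (.cons 150 152 (.cons 114 119 (.leaf [(6,78),(80,191)]) (.cons 119 114 (.leaf [(83,191),(6,80)]) (.cons 6 114 (.leaf [(80,191),(83,119)]) (.cons 191 119 (.leaf [(6,80),(78,114)]) (.cons 78 114 (.leaf [(6,80),(83,119)]) (.cons 80 114 (.leaf [(6,191),(83,119)]) (.cons 83 119 (.leaf [(6,80),(78,114)]) .nil))))))) (.cons 152 150 (.leaf [(114,119),(6,80),(83,191)]) (.cons 191 119 (.leaf [(6,80),(150,152),(78,114)]) (.cons 6 114 (.leaf [(80,191),(150,152),(83,119)]) (.cons 80 119 (.leaf [(6,191),(150,152),(78,114)]) (.cons 83 119 (.leaf [(150,152),(6,78),(80,191)]) (.cons 78 114 (.leaf [(150,152),(6,80),(83,119)]) .nil))))))))) (.cons 152 150 (.cons 119 114 (.cons 191 83 (.leaf [(6,80),(81,186)]) (.cons 81 186 (.cons 83 191 (.leaf [(78,80)]) (.cons 191 83 (.leaf [(6,80)]) (.cons 80 83 (.leaf [(6,191)]) (.cons 6 191 (.leaf [(78,80)]) (.cons 78 83 (.leaf [(6,80)]) .nil))))) (.cons 83 191 (.leaf [(81,186),(78,80)]) (.cons 186 81 (.leaf [(83,191),(6,80)])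 (.cons 80 191 (.leaf [(81,186),(78,83)]) (.cons 6 191 (.leaf [(81,186),(78,80)]) (.cons 78 81 (.leaf [(83,191),(6,80)]) .nil))))))) (.cons 81 186 (.cons 119 114 (.cons 83 191 (.leaf [(78,80)]) (.cons 191 83 (.leaf [(6,80)]) (.cons 80 83 (.leaf [(6,191)]) (.cons 6 191 (.leaf [(78,80)]) (.cons 78 83 (.leaf [(6,80)]) .nil))))) (.cons 80 83 (.leaf [(6,191),(114,119)]) (.cons 114 119 (.leaf [(6,191),(78,80)]) (.cons 83 119 (.leaf [(78,80),(6,191)]) (.cons 191 119 (.leaf [(6,80),(78,83)]) (.cons 6 80 (.leaf [(114,119),(83,191)]) (.cons 78 80 (.leaf [(114,119),(83,191)]) .nil))))))) (.cons 114 119 (.leaf [(81,186),(6,191),(78,80)]) (.cons 186 81 (.leaf [(114,119),(6,80),(83,191)]) (.cons 191 119 (.leaf [(6,80),(81,186),(78,83)]) (.cons 80 119 (.leaf [(6,191),(81,186),(78,83)]) (.cons 83 119 (.leaf [(81,186),(6,191),(78,80)]) (.cons 6 119 (.leaf [(80,191),(81,186),(78,83)]) (.cons 78 81 (.leaf [(114,119),(6,80),(83,191)]) .nil))))))))) (.cons 191 119 (.cons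 80 6 (.leaf [(81,186),(150,152),(78,83)]) (.cons 81 186 (.leaf [(6,80),(150,152),(78,83)]) (.cons 6 80 (.leaf [(81,186),(150,152),(78,114)]) (.cons 150 152 (.cons 6 80 (.leaf [(81,186),(78,114)]) (.cons 80 6 (.leaf [(81,186),(78,83)]) (.cons 81 186 (.leaf [(6,80),(78,83)]) (.cons 186 81 (.leaf [(6,80),(78,114)]) (.cons 78 80 (.leaf [(81,186),(6,114)]) (.cons 114 6 (.leaf [(81,186),(78,80)]) (.cons 83 80 (.leaf [(81,186),(6,78)]) .nil))))))) (.cons 186 81 (.leaf [(6,80),(150,152),(78,114)]) (.cons 152 150 (.leaf [(6,80),(81,186),(78,83)]) (.cons 78 80 (.leaf [(81,186),(150,152),(6,114)]) (.cons 83 80 (.leaf [(81,186),(150,152),(6,78)]) (.cons 114 6 (.leaf [(81,186),(150,152),(78,80)]) .nil))))))))) (.cons 80 119 (.cons 81 186 (.leaf [(6,191),(78,83),(150,152)]) (.cons 6 191 (.cons 81 186 (.leaf [(78,83),(150,152)]) (.cons 150 152 (.cons 81 186 (.leaf [(78,83)]) (.cons 186 81 (.leaf [(78,114)]) (.cons 78 81 (.leaf [(114,186)]) (.cons 114 186 (.leaf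 [(78,81)]) (.cons 83 81 (.leaf [(78,114)]) .nil))))) (.cons 186 81 (.leaf [(150,152),(78,114)]) (.cons 152 150 (.leaf [(81,186),(78,83)]) (.cons 78 81 (.leaf [(150,152),(114,186)]) (.cons 83 81 (.leaf [(150,152),(78,114)]) (.cons 114 81 (.leaf [(150,152),(78,186)]) .nil))))))) (.cons 150 152 (.cons 81 186 (.leaf [(6,191),(78,83)]) (.cons 6 191 (.cons 81 186 (.leaf [(78,83)]) (.cons 186 81 (.leaf [(78,114)]) (.cons 78 81 (.leaf [(114,186)]) (.cons 114 186 (.leaf [(78,81)]) (.cons 83 81 (.leaf [(78,114)]) .nil))))) (.cons 186 81 (.leaf [(6,191),(78,114)]) (.cons 191 6 (.leaf [(81,186),(78,83)]) (.cons 78 81 (.leaf [(6,191),(114,186)]) (.cons 83 81 (.leaf [(6,191),(78,114)]) (.cons 114 81 (.leaf [(6,191),(78,186)]) .nil))))))) (.cons 186 81 (.leaf [(6,191),(150,152),(78,114)]) (.cons 152 150 (.leaf [(6,191),(81,186),(78,83)]) (.cons 191 6 (.leaf [(81,186),(150,152),(78,83)]) (.cons 78 81 (.leaf [(6,191),(150,152),(114,186)]) (.cons 83 81 (.leaf [(6,191),(150,152),(78,114)])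 (.cons 114 81 (.leaf [(6,191),(150,152),(78,186)]) .nil))))))))) (.cons 83 119 (.cons 81 186 (.leaf [(78,80),(150,152),(6,191)]) (.cons 150 152 (.cons 81 186 (.leaf [(78,80),(6,191)]) (.cons 186 81 (.leaf [(6,80),(78,114)]) (.cons 80 81 (.leaf [(6,191),(78,114)]) (.cons 6 80 (.leaf [(81,186),(78,114)]) (.cons 78 81 (.leaf [(6,114),(80,191)]) (.cons 191 80 (.leaf [(81,186),(6,78)]) (.cons 114 81 (.leaf [(6,80),(78,186)]) .nil))))))) (.cons 186 81 (.leaf [(150,152),(6,78),(80,191)]) (.cons 80 81 (.leaf [(6,191),(150,152),(78,114)]) (.cons 152 150 (.leaf [(81,186),(6,191),(78,80)]) (.cons 6 80 (.leaf [(81,186),(150,152),(78,114)]) (.cons 78 81 (.leaf [(150,152),(6,114),(80,191)]) (.cons 191 80 (.leaf [(81,186),(150,152),(6,78)]) (.cons 114 81 (.leaf [(150,152),(6,78),(80,191)]) .nil))))))))) (.cons 6 119 (.cons 80 191 (.cons 81 186 (.leaf [(78,83),(150,152)]) (.cons 150 152 (.cons 81 186 (.leaf [(78,83)]) (.cons 186 81 (.leaf [(78,114)]) (.cons 78 81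 (.leaf [(114,186)]) (.cons 114 186 (.leaf [(78,81)]) (.cons 83 81 (.leaf [(78,114)]) .nil))))) (.cons 186 81 (.leaf [(150,152),(78,114)]) (.cons 152 150 (.leaf [(81,186),(78,83)]) (.cons 78 81 (.leaf [(150,152),(114,186)]) (.cons 83 81 (.leaf [(150,152),(78,114)]) (.cons 114 81 (.leaf [(150,152),(78,186)]) .nil))))))) (.cons 81 186 (.leaf [(80,191),(150,152),(78,83)]) (.cons 150 152 (.cons 186 81 (.leaf [(78,114),(80,191)]) (.cons 80 191 (.cons 81 186 (.leaf [(78,83)]) (.cons 186 81 (.leaf [(78,114)]) (.cons 78 81 (.leaf [(114,186)]) (.cons 114 186 (.leaf [(78,81)]) (.cons 83 81 (.leaf [(78,114)]) .nil))))) (.cons 81 186 (.leaf [(80,191),(78,83)]) (.cons 191 80 (.leaf [(81,186),(78,114)]) (.cons 78 186 (.leaf [(80,191),(81,83)]) (.cons 114 186 (.leaf [(80,191),(78,81)]) (.cons 83 80 (.leaf [(81,186),(78,114)]) .nil))))))) (.cons 186 81 (.leaf [(80,191),(150,152),(78,114)]) (.cons 152 150 (.leaf [(80,191),(81,186),(78,83)]) (.cons 191 80 (.leaf [(81,186),(150,152),(78,114)])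 (.cons 78 81 (.leaf [(80,191),(150,152),(114,186)]) (.cons 114 150 (.leaf [(80,191),(81,186),(78,83)]) (.cons 83 80 (.leaf [(81,186),(150,152),(78,114)]) .nil))))))))) (.cons 78 81 (.cons 119 114 (.leaf [(83,191),(150,152),(6,80)]) (.cons 114 119 (.leaf [(150,152),(6,186),(80,191)]) (.cons 150 152 (.cons 114 119 (.leaf [(6,186),(80,191)]) (.cons 119 114 (.leaf [(83,191),(6,80)]) (.cons 6 114 (.leaf [(80,191),(83,119)]) (.cons 191 119 (.leaf [(6,80),(114,186)]) (.cons 80 114 (.leaf [(6,191),(83,119)]) (.cons 83 119 (.leaf [(6,114),(80,191)]) (.cons 186 114 (.leaf [(6,80),(83,119)]) .nil))))))) (.cons 152 150 (.leaf [(114,119),(6,80),(83,191)]) (.cons 191 119 (.leaf [(6,80),(150,152),(114,186)]) (.cons 6 114 (.leaf [(80,191),(150,152),(83,119)]) (.cons 80 119 (.leaf [(6,191),(150,152),(114,186)]) (.cons 83 119 (.leaf [(150,152),(6,114),(80,191)]) (.cons 186 114 (.leaf [(150,152),(6,80),(83,119)]) .nil))))))))) .nil))))))))))) (.cons 152 150 (.cons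 6 8 (.cons 191 80 (.leaf [(83,119),(81,186),(114,116)]) (.cons 80 191 (.leaf [(78,83),(81,186),(114,116)]) (.cons 116 119 (.leaf [(80,191),(81,186),(78,83)]) (.cons 119 191 (.leaf [(114,116),(81,186),(78,80)]) (.cons 81 80 (.leaf [(116,186),(83,191),(114,119)]) (.cons 83 191 (.leaf [(78,80),(81,186),(114,116)]) (.cons 114 116 (.leaf [(80,191),(83,119),(78,81)]) (.cons 186 116 (.leaf [(80,191),(83,119),(78,81)]) (.cons 78 80 (.leaf [(81,186),(114,116),(83,119)]) .nil))))))))) (.cons 8 6 (.cons 116 80 (.leaf [(81,186),(114,119),(83,191)]) (.cons 80 116 (.leaf [(78,81),(83,119)]) (.cons 119 116 (.leaf [(83,191),(78,80)]) (.cons 81 116 (.leaf [(78,80),(83,119)]) (.cons 83 116 (.leaf [(119,191),(78,80)]) (.cons 114 116 (.leaf [(83,119),(78,80)]) (.cons 186 116 (.leaf [(83,119),(78,80)]) (.cons 191 116 (.leaf [(83,119),(78,80)]) (.cons 78 116 (.leaf [(80,81),(83,119)]) .nil))))))))) (.cons 116 80 (.leaf [(6,8),(81,186),(114,119),(83,191)]) (.cons 80 8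 (.cons 191 6 (.cons 83 119 (.leaf [(78,81),(116,186)]) (.cons 119 83 (.leaf [(114,116),(81,186)]) (.cons 81 83 (.leaf [(116,186),(114,119)]) (.cons 116 119 (.leaf [(81,186),(78,83)]) (.cons 78 83 (.leaf [(81,186),(114,116)]) (.cons 114 119 (.leaf [(78,83),(81,116)]) (.cons 186 81 (.leaf [(83,119),(114,116)]) .nil))))))) (.cons 6 191 (.leaf [(78,83),(81,186),(114,116)]) (.cons 81 83 (.leaf [(6,191),(116,186),(114,119)]) (.cons 83 191 (.leaf [(78,81),(116,186),(114,119)]) (.cons 116 119 (.leaf [(6,191),(81,186),(78,83)]) (.cons 119 191 (.leaf [(114,116),(78,83),(81,186)]) (.cons 78 81 (.leaf [(6,191),(83,119),(114,116)]) (.cons 114 116 (.leaf [(6,191),(78,81),(83,119)]) (.cons 186 81 (.leaf [(6,191),(83,119),(114,116)]) .nil))))))))) (.cons 119 80 (.leaf [(6,8),(83,191),(114,116),(81,186)]) (.cons 191 80 (.leaf [(6,8),(83,119),(81,186),(114,116)]) (.cons 81 80 (.leaf [(6,8),(116,186),(83,191),(114,119)]) (.cons 83 80 (.leaf [(6,8),(119,191),(81,186),(114,116)])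 (.cons 114 116 (.leaf [(6,8),(80,191),(83,119),(78,81)]) (.cons 186 116 (.leaf [(6,8),(80,191),(83,119),(78,81)]) (.cons 78 80 (.leaf [(6,8),(81,186),(114,116),(83,119)]) .nil))))))))))) (.cons 150 152 (.cons 6 8 (.cons 191 80 (.cons 119 83 (.cons 114 116 (.leaf [(78,186)]) (.cons 116 114 (.leaf [(81,186)]) (.cons 186 114 (.leaf [(81,116)]) (.cons 81 116 (.leaf [(78,114)]) (.cons 78 114 (.leaf [(81,116)]) .nil))))) (.cons 114 119 (.leaf [(78,186),(81,116)]) (.cons 83 119 (.leaf [(78,114),(81,116)]) (.cons 116 119 (.leaf [(81,186),(78,114)]) (.cons 186 114 (.leaf [(81,116),(83,119)]) (.cons 78 114 (.leaf [(83,119),(81,116)]) (.cons 81 116 (.leaf [(83,119),(78,114)]) .nil))))))) (.cons 80 191 (.cons 78 81 (.leaf [(114,186),(116,119)]) (.cons 81 116 (.leaf [(78,83),(114,186)]) (.cons 114 78 (.leaf [(116,119),(81,186)]) (.cons 116 81 (.leaf [(114,119),(78,186)]) (.cons 186 81 (.leaf [(78,114),(116,119)]) (.cons 83 81 (.leaf [(78,186),(114,116)]) (.cons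 119 114 (.leaf [(78,83),(81,116)]) .nil))))))) (.cons 114 116 (.cons 191 80 (.leaf [(78,186),(83,119)]) (.cons 78 186 (.cons 80 191 (.leaf [(81,83)]) (.cons 191 80 (.leaf [(83,119)]) (.cons 83 80 (.leaf [(119,191)]) (.cons 81 80 (.leaf [(83,119)]) (.cons 119 191 (.leaf [(80,81)]) .nil))))) (.cons 80 191 (.leaf [(78,186),(81,83)]) (.cons 186 78 (.leaf [(80,191),(83,119)]) (.cons 83 191 (.leaf [(78,186),(80,81)]) (.cons 119 191 (.leaf [(78,186),(80,81)]) (.cons 81 80 (.leaf [(78,186),(83,119)]) .nil))))))) (.cons 116 114 (.cons 191 80 (.leaf [(81,186),(83,119)]) (.cons 80 191 (.leaf [(81,186),(78,83)]) (.cons 81 186 (.cons 80 191 (.leaf [(78,83)]) (.cons 191 80 (.leaf [(83,119)]) (.cons 83 80 (.leaf [(119,191)]) (.cons 119 191 (.leaf [(78,80)]) (.cons 78 80 (.leaf [(83,119)]) .nil))))) (.cons 186 81 (.leaf [(80,191),(83,119)]) (.cons 83 191 (.leaf [(81,186),(78,80)]) (.cons 119 191 (.leaf [(81,186),(78,80)]) (.cons 78 80 (.leaf [(81,186),(83,119)])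 .nil))))))) (.cons 119 191 (.cons 114 116 (.leaf [(78,186),(80,81)]) (.cons 116 114 (.leaf [(81,186),(78,80)]) (.cons 186 114 (.leaf [(81,116),(78,80)]) (.cons 78 114 (.leaf [(80,83),(81,116)]) (.cons 81 116 (.leaf [(78,114),(80,83)]) (.cons 80 114 (.leaf [(78,83),(81,116)]) (.cons 83 114 (.leaf [(78,80),(81,116)]) .nil))))))) (.cons 186 114 (.cons 191 80 (.leaf [(81,116),(83,119)]) (.cons 80 191 (.leaf [(81,116),(78,83)]) (.cons 81 116 (.cons 80 191 (.leaf [(78,83)]) (.cons 191 80 (.leaf [(83,119)]) (.cons 83 80 (.leaf [(119,191)]) (.cons 119 191 (.leaf [(78,80)]) (.cons 78 80 (.leaf [(83,119)]) .nil))))) (.cons 116 81 (.leaf [(80,191),(83,119)]) (.cons 83 191 (.leaf [(81,116),(78,80)]) (.cons 119 191 (.leaf [(81,116),(78,80)]) (.cons 78 80 (.leaf [(81,116),(83,119)]) .nil))))))) (.cons 78 80 (.cons 114 186 (.leaf [(116,119),(83,191)]) (.cons 186 114 (.leaf [(81,116),(83,119)]) (.cons 116 114 (.leaf [(81,186),(83,119)]) (.cons 119 114 (.leaf [(83,191),(81,116)])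 (.cons 81 186 (.leaf [(83,119),(114,116)]) (.cons 83 114 (.leaf [(119,191),(81,116)]) (.cons 191 114 (.leaf [(83,119),(81,116)]) .nil))))))) (.cons 81 80 (.cons 116 186 (.leaf [(114,119),(83,191)]) (.cons 186 116 (.leaf [(78,114),(83,119)]) (.cons 114 116 (.leaf [(78,186),(83,119)]) (.cons 119 116 (.leaf [(83,191),(78,114)]) (.cons 78 186 (.leaf [(83,119),(114,116)]) (.cons 83 116 (.leaf [(119,191),(78,114)]) (.cons 191 116 (.leaf [(83,119),(78,114)]) .nil))))))) (.cons 83 191 (.cons 78 81 (.leaf [(114,186),(116,119)]) (.cons 81 116 (.leaf [(78,80),(114,186)]) (.cons 114 78 (.leaf [(116,119),(81,186)]) (.cons 116 81 (.leaf [(114,119),(78,186)]) (.cons 186 81 (.leaf [(78,114),(116,119)]) (.cons 80 81 (.leaf [(78,186),(114,116)]) (.cons 119 114 (.leaf [(78,80),(81,116)]) .nil))))))) .nil))))))))) (.cons 8 6 (.leaf [(81,186),(114,116),(83,119),(78,80)]) (.cons 116 6 (.leaf [(81,186),(114,119),(83,191),(78,80)]) (.cons 119 6 (.leaf [(83,191),(114,116),(81,186),(78,80)])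 (.cons 191 6 (.leaf [(83,119),(81,186),(114,116),(78,80)]) (.cons 80 6 (.leaf [(78,83),(81,186),(114,116),(119,191)]) (.cons 81 6 (.leaf [(116,186),(78,80),(83,191),(114,119)]) (.cons 114 6 (.leaf [(116,119),(81,186),(83,191),(78,80)]) (.cons 83 6 (.leaf [(119,191),(78,80),(81,186),(114,116)]) (.cons 186 6 (.leaf [(81,116),(83,191),(114,119),(78,80)]) (.cons 78 6 (.leaf [(80,83),(81,186),(114,116),(119,191)]) .nil))))))))))) (.cons 80 8 (.cons 191 6 (.cons 83 119 (.leaf [(78,81),(150,152),(116,186)]) (.cons 119 83 (.leaf [(114,116),(150,152),(81,186)]) (.cons 81 83 (.leaf [(116,186),(150,152),(114,119)]) (.cons 116 119 (.leaf [(81,186),(150,152),(78,83)]) (.cons 150 152 (.cons 83 119 (.leaf [(78,81),(116,186)]) (.cons 119 83 (.leaf [(114,116),(81,186)]) (.cons 81 83 (.leaf [(116,186),(114,119)]) (.cons 116 119 (.leaf [(81,186),(78,83)]) (.cons 78 83 (.leaf [(81,186),(114,116)]) (.cons 114 119 (.leaf [(78,83),(81,116)]) (.cons 186 81 (.leaf [(83,119),(114,116)])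 .nil))))))) (.cons 152 150 (.cons 83 119 (.leaf [(78,81),(116,186)]) (.cons 119 83 (.leaf [(114,116),(81,186)]) (.cons 81 83 (.leaf [(116,186),(114,119)]) (.cons 116 119 (.leaf [(81,186),(78,83)]) (.cons 78 83 (.leaf [(81,186),(114,116)]) (.cons 114 119 (.leaf [(78,83),(81,116)]) (.cons 186 81 (.leaf [(83,119),(114,116)]) .nil))))))) (.cons 78 83 (.leaf [(150,152),(81,186),(114,116)]) (.cons 114 119 (.leaf [(150,152),(78,83),(81,116)]) (.cons 186 81 (.leaf [(83,119),(150,152),(114,116)]) .nil))))))))) (.cons 6 191 (.cons 150 152 (.cons 78 81 (.leaf [(114,186),(116,119)]) (.cons 81 116 (.leaf [(78,83),(114,186)]) (.cons 114 78 (.leaf [(116,119),(81,186)]) (.cons 116 81 (.leaf [(114,119),(78,186)]) (.cons 186 81 (.leaf [(78,114),(116,119)]) (.cons 83 81 (.leaf [(78,186),(114,116)]) (.cons 119 114 (.leaf [(78,83),(81,116)]) .nil))))))) (.cons 81 116 (.leaf [(78,83),(150,152),(114,186)]) (.cons 116 81 (.leaf [(114,119),(150,152),(78,186)]) (.cons 152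 150 (.leaf [(78,83),(81,186),(114,116)]) (.cons 78 81 (.leaf [(150,152),(114,186),(116,119)]) (.cons 114 116 (.leaf [(150,152),(78,186),(81,83)]) (.cons 186 81 (.leaf [(150,152),(78,114),(116,119)]) (.cons 83 81 (.leaf [(150,152),(78,114),(116,119)]) (.cons 119 116 (.leaf [(150,152),(78,114),(81,83)]) .nil))))))))) (.cons 150 152 (.cons 191 6 (.cons 83 119 (.leaf [(78,81),(116,186)]) (.cons 119 83 (.leaf [(114,116),(81,186)]) (.cons 81 83 (.leaf [(116,186),(114,119)]) (.cons 116 119 (.leaf [(81,186),(78,83)]) (.cons 78 83 (.leaf [(81,186),(114,116)]) (.cons 114 119 (.leaf [(78,83),(81,116)]) (.cons 186 81 (.leaf [(83,119),(114,116)]) .nil))))))) (.cons 6 191 (.cons 78 81 (.leaf [(114,186),(116,119)]) (.cons 81 116 (.leaf [(78,83),(114,186)]) (.cons 114 78 (.leaf [(116,119),(81,186)]) (.cons 116 81 (.leaf [(114,119),(78,186)]) (.cons 186 81 (.leaf [(78,114),(116,119)]) (.cons 83 81 (.leaf [(78,186),(114,116)]) (.cons 119 114 (.leaf [(78,83),(81,116)])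 .nil))))))) (.cons 81 83 (.cons 116 186 (.leaf [(6,191),(114,119)]) (.cons 6 191 (.cons 116 186 (.leaf [(114,119)]) (.cons 186 116 (.leaf [(78,114)]) (.cons 114 116 (.leaf [(78,186)]) (.cons 119 116 (.leaf [(78,114)]) (.cons 78 186 (.leaf [(114,116)]) .nil))))) (.cons 186 116 (.leaf [(6,191),(78,114)]) (.cons 191 6 (.leaf [(116,186),(114,119)]) (.cons 114 116 (.leaf [(6,191),(78,186)]) (.cons 119 116 (.leaf [(6,191),(78,114)]) (.cons 78 116 (.leaf [(6,191),(114,186)]) .nil))))))) (.cons 83 191 (.cons 81 78 (.leaf [(116,186),(114,119)]) (.cons 78 81 (.leaf [(6,186),(114,116)]) (.cons 116 81 (.leaf [(114,119),(6,78)]) (.cons 114 78 (.leaf [(116,119),(81,186)]) (.cons 186 81 (.leaf [(6,78),(114,116)]) (.cons 119 81 (.leaf [(114,116),(6,78)]) (.cons 6 81 (.leaf [(78,186),(114,116)]) .nil))))))) (.cons 116 119 (.cons 81 186 (.leaf [(6,191),(78,83)]) (.cons 6 191 (.cons 81 186 (.leaf [(78,83)]) (.cons 186 81 (.leaf [(78,114)]) (.cons 78 81 (.leaf [(114,186)])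 (.cons 114 186 (.leaf [(78,81)]) (.cons 83 81 (.leaf [(78,114)]) .nil))))) (.cons 186 81 (.leaf [(6,191),(78,114)]) (.cons 191 6 (.leaf [(81,186),(78,83)]) (.cons 78 81 (.leaf [(6,191),(114,186)]) (.cons 83 81 (.leaf [(6,191),(78,114)]) (.cons 114 81 (.leaf [(6,191),(78,186)]) .nil))))))) (.cons 119 191 (.cons 116 114 (.leaf [(81,186),(78,83)]) (.cons 114 116 (.leaf [(6,186),(78,81)]) (.cons 81 116 (.leaf [(78,83),(6,114)]) (.cons 78 81 (.leaf [(114,116),(6,186)]) (.cons 186 116 (.leaf [(6,114),(78,81)]) (.cons 83 81 (.leaf [(114,116),(6,78)]) (.cons 6 114 (.leaf [(78,83),(81,116)]) .nil))))))) (.cons 78 6 (.cons 81 83 (.leaf [(116,186),(114,119)]) (.cons 83 81 (.leaf [(119,191),(114,116)]) (.cons 116 81 (.leaf [(114,119),(83,191)]) (.cons 119 83 (.leaf [(114,116),(81,186)]) (.cons 114 81 (.leaf [(116,119),(83,191)]) (.cons 186 81 (.leaf [(83,119),(114,116)]) (.cons 191 83 (.leaf [(81,186),(114,116)]) .nil))))))) (.cons 114 6 (.cons 116 119 (.leaf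 [(81,186),(78,83)]) (.cons 119 116 (.leaf [(83,191),(78,81)]) (.cons 81 116 (.leaf [(78,83),(119,191)]) (.cons 83 119 (.leaf [(78,81),(116,186)]) (.cons 78 81 (.leaf [(116,119),(83,191)]) (.cons 186 116 (.leaf [(78,81),(83,119)]) (.cons 191 119 (.leaf [(78,83),(81,116)]) .nil))))))) (.cons 186 6 (.cons 81 116 (.leaf [(78,83),(119,191)]) (.cons 116 81 (.leaf [(114,119),(83,191)]) (.cons 83 81 (.leaf [(119,191),(114,116)]) (.cons 119 116 (.leaf [(83,191),(78,81)]) (.cons 78 81 (.leaf [(83,119),(114,116)]) (.cons 114 116 (.leaf [(78,81),(83,119)]) (.cons 191 81 (.leaf [(83,119),(114,116)]) .nil))))))) .nil))))))))) (.cons 81 83 (.cons 116 186 (.leaf [(6,191),(114,119),(150,152)]) (.cons 6 191 (.cons 116 186 (.leaf [(114,119),(150,152)]) (.cons 150 152 (.cons 116 186 (.leaf [(114,119)]) (.cons 186 116 (.leaf [(78,114)]) (.cons 114 116 (.leaf [(78,186)]) (.cons 119 116 (.leaf [(78,114)]) (.cons 78 186 (.leaf [(114,116)]) .nil))))) (.cons 186 116 (.leaf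 [(150,152),(78,114)]) (.cons 152 150 (.leaf [(116,186),(114,119)]) (.cons 114 116 (.leaf [(150,152),(78,186)]) (.cons 119 116 (.leaf [(150,152),(78,114)]) (.cons 78 116 (.leaf [(150,152),(114,186)]) .nil))))))) (.cons 150 152 (.cons 116 186 (.leaf [(6,191),(114,119)]) (.cons 6 191 (.cons 116 186 (.leaf [(114,119)]) (.cons 186 116 (.leaf [(78,114)]) (.cons 114 116 (.leaf [(78,186)]) (.cons 119 116 (.leaf [(78,114)]) (.cons 78 186 (.leaf [(114,116)]) .nil))))) (.cons 186 116 (.leaf [(6,191),(78,114)]) (.cons 191 6 (.leaf [(116,186),(114,119)]) (.cons 114 116 (.leaf [(6,191),(78,186)]) (.cons 119 116 (.leaf [(6,191),(78,114)]) (.cons 78 116 (.leaf [(6,191),(114,186)]) .nil))))))) (.cons 186 116 (.leaf [(6,191),(150,152),(78,114)]) (.cons 152 150 (.leaf [(6,191),(116,186),(114,119)]) (.cons 191 6 (.leaf [(116,186),(150,152),(114,119)]) (.cons 114 116 (.leaf [(6,191),(150,152),(78,186)]) (.cons 119 116 (.leaf [(6,191),(150,152),(78,114)]) (.cons 78 116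 (.leaf [(6,191),(150,152),(114,186)]) .nil))))))))) (.cons 83 191 (.cons 81 78 (.leaf [(116,186),(150,152),(114,119)]) (.cons 78 81 (.leaf [(150,152),(6,114),(116,119)]) (.cons 150 152 (.cons 81 78 (.leaf [(116,186),(114,119)]) (.cons 78 81 (.leaf [(6,186),(114,116)]) (.cons 116 81 (.leaf [(114,119),(6,78)]) (.cons 114 78 (.leaf [(116,119),(81,186)]) (.cons 186 81 (.leaf [(6,78),(114,116)]) (.cons 119 81 (.leaf [(114,116),(6,78)]) (.cons 6 81 (.leaf [(78,186),(114,116)]) .nil))))))) (.cons 116 81 (.leaf [(114,119),(150,152),(6,78)]) (.cons 152 150 (.leaf [(78,81),(116,186),(114,119)]) (.cons 114 81 (.leaf [(116,119),(150,152),(6,78)]) (.cons 186 81 (.leaf [(150,152),(114,116),(6,78)]) (.cons 119 81 (.leaf [(114,116),(150,152),(6,78)]) (.cons 6 81 (.leaf [(150,152),(78,114),(116,119)]) .nil))))))))) (.cons 116 119 (.cons 81 186 (.leaf [(6,191),(78,83),(150,152)]) (.cons 6 191 (.cons 81 186 (.leaf [(78,83),(150,152)]) (.cons 150 152 (.cons 81 186 (.leaf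 [(78,83)]) (.cons 186 81 (.leaf [(78,114)]) (.cons 78 81 (.leaf [(114,186)]) (.cons 114 186 (.leaf [(78,81)]) (.cons 83 81 (.leaf [(78,114)]) .nil))))) (.cons 186 81 (.leaf [(150,152),(78,114)]) (.cons 152 150 (.leaf [(81,186),(78,83)]) (.cons 78 81 (.leaf [(150,152),(114,186)]) (.cons 83 81 (.leaf [(150,152),(78,114)]) (.cons 114 81 (.leaf [(150,152),(78,186)]) .nil))))))) (.cons 150 152 (.cons 81 186 (.leaf [(6,191),(78,83)]) (.cons 6 191 (.cons 81 186 (.leaf [(78,83)]) (.cons 186 81 (.leaf [(78,114)]) (.cons 78 81 (.leaf [(114,186)]) (.cons 114 186 (.leaf [(78,81)]) (.cons 83 81 (.leaf [(78,114)]) .nil))))) (.cons 186 81 (.leaf [(6,191),(78,114)]) (.cons 191 6 (.leaf [(81,186),(78,83)]) (.cons 78 81 (.leaf [(6,191),(114,186)]) (.cons 83 81 (.leaf [(6,191),(78,114)]) (.cons 114 81 (.leaf [(6,191),(78,186)]) .nil))))))) (.cons 186 81 (.leaf [(6,191),(150,152),(78,114)]) (.cons 152 150 (.leaf [(6,191),(81,186),(78,83)]) (.cons 191 6 (.leaf [(81,186),(150,152),(78,83)])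 (.cons 78 81 (.leaf [(6,191),(150,152),(114,186)]) (.cons 83 81 (.leaf [(6,191),(150,152),(78,114)]) (.cons 114 81 (.leaf [(6,191),(150,152),(78,186)]) .nil))))))))) (.cons 119 191 (.cons 116 114 (.leaf [(81,186),(150,152),(78,83)]) (.cons 114 116 (.leaf [(150,152),(6,78),(81,83)]) (.cons 150 152 (.cons 116 114 (.leaf [(81,186),(78,83)]) (.cons 114 116 (.leaf [(6,186),(78,81)]) (.cons 81 116 (.leaf [(78,83),(6,114)]) (.cons 78 81 (.leaf [(114,116),(6,186)]) (.cons 186 116 (.leaf [(6,114),(78,81)]) (.cons 83 81 (.leaf [(114,116),(6,78)]) (.cons 6 114 (.leaf [(78,83),(81,116)]) .nil))))))) (.cons 81 116 (.leaf [(78,83),(150,152),(6,114)]) (.cons 152 150 (.leaf [(114,116),(78,83),(81,186)]) (.cons 78 81 (.leaf [(114,116),(150,152),(6,186)]) (.cons 186 116 (.leaf [(150,152),(6,78),(81,83)]) (.cons 83 81 (.leaf [(114,116),(150,152),(6,78)]) (.cons 6 116 (.leaf [(150,152),(78,114),(81,83)]) .nil))))))))) (.cons 152 150 (.cons 191 6 (.cons 83 119 (.leaf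 [(78,81),(116,186)]) (.cons 119 83 (.leaf [(114,116),(81,186)]) (.cons 81 83 (.leaf [(116,186),(114,119)]) (.cons 116 119 (.leaf [(81,186),(78,83)]) (.cons 78 83 (.leaf [(81,186),(114,116)]) (.cons 114 119 (.leaf [(78,83),(81,116)]) (.cons 186 81 (.leaf [(83,119),(114,116)]) .nil))))))) (.cons 6 191 (.leaf [(78,83),(81,186),(114,116)]) (.cons 81 83 (.leaf [(6,191),(116,186),(114,119)]) (.cons 83 191 (.leaf [(78,81),(116,186),(114,119)]) (.cons 116 119 (.leaf [(6,191),(81,186),(78,83)]) (.cons 119 191 (.leaf [(114,116),(78,83),(81,186)]) (.cons 78 81 (.leaf [(6,191),(83,119),(114,116)]) (.cons 114 116 (.leaf [(6,191),(78,81),(83,119)]) (.cons 186 81 (.leaf [(6,191),(83,119),(114,116)]) .nil))))))))) (.cons 78 81 (.cons 191 6 (.leaf [(83,119),(150,152),(114,116)]) (.cons 6 191 (.leaf [(150,152),(114,186),(116,119)]) (.cons 150 152 (.cons 6 191 (.leaf [(114,186),(116,119)]) (.cons 191 6 (.leaf [(83,119),(114,116)]) (.cons 114 6 (.leaf [(116,119),(83,191)])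 (.cons 119 191 (.leaf [(114,116),(6,186)]) (.cons 83 191 (.leaf [(6,186),(114,116)]) (.cons 116 114 (.leaf [(6,191),(83,119)]) (.cons 186 6 (.leaf [(83,119),(114,116)]) .nil))))))) (.cons 119 191 (.leaf [(114,116),(150,152),(6,186)]) (.cons 152 150 (.leaf [(6,191),(83,119),(114,116)]) (.cons 114 6 (.leaf [(116,119),(150,152),(83,191)]) (.cons 83 191 (.leaf [(150,152),(6,114),(116,119)]) (.cons 116 119 (.leaf [(6,191),(150,152),(114,186)]) (.cons 186 6 (.leaf [(150,152),(83,119),(114,116)]) .nil))))))))) (.cons 114 116 (.cons 191 6 (.leaf [(83,119),(150,152),(78,81)]) (.cons 6 191 (.leaf [(150,152),(78,186),(81,83)]) (.cons 150 152 (.cons 6 191 (.leaf [(78,186),(81,83)]) (.cons 191 6 (.leaf [(83,119),(78,81)]) (.cons 78 6 (.leaf [(81,83),(119,191)]) (.cons 83 191 (.leaf [(78,81),(6,186)]) (.cons 81 83 (.leaf [(6,191),(78,186)]) (.cons 119 191 (.leaf [(6,186),(78,81)]) (.cons 186 6 (.leaf [(78,81),(83,119)]) .nil))))))) (.cons 83 191 (.leaf [(78,81),(150,152),(6,186)])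 (.cons 152 150 (.leaf [(6,191),(78,81),(83,119)]) (.cons 78 6 (.leaf [(81,83),(150,152),(119,191)]) (.cons 81 83 (.leaf [(6,191),(150,152),(78,186)]) (.cons 119 191 (.leaf [(150,152),(6,78),(81,83)]) (.cons 186 6 (.leaf [(150,152),(78,81),(83,119)]) .nil))))))))) (.cons 186 81 (.cons 191 6 (.leaf [(83,119),(150,152),(114,116)]) (.cons 6 191 (.leaf [(150,152),(78,114),(116,119)]) (.cons 150 152 (.cons 6 191 (.leaf [(78,114),(116,119)]) (.cons 191 6 (.leaf [(83,119),(114,116)]) (.cons 114 6 (.leaf [(116,119),(83,191)]) (.cons 119 191 (.leaf [(114,116),(6,78)]) (.cons 78 6 (.leaf [(83,119),(114,116)]) (.cons 83 191 (.leaf [(6,78),(114,116)]) (.cons 116 114 (.leaf [(6,191),(83,119)]) .nil))))))) (.cons 119 191 (.leaf [(114,116),(150,152),(6,78)]) (.cons 152 150 (.leaf [(6,191),(83,119),(114,116)]) (.cons 114 6 (.leaf [(116,119),(150,152),(83,191)]) (.cons 83 191 (.leaf [(150,152),(114,116),(6,78)]) (.cons 116 119 (.leaf [(6,191),(150,152),(78,114)])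 (.cons 78 6 (.leaf [(150,152),(83,119),(114,116)]) .nil))))))))) .nil))))))))))) (.cons 119 80 (.cons 116 114 (.leaf [(6,8),(81,186),(83,191),(150,152)]) (.cons 6 8 (.cons 116 114 (.leaf [(81,186),(83,191),(150,152)]) (.cons 114 116 (.leaf [(83,191),(150,152),(78,186)]) (.cons 150 152 (.cons 114 116 (.leaf [(78,186),(83,191)]) (.cons 116 114 (.leaf [(81,186),(83,191)]) (.cons 83 191 (.cons 114 116 (.leaf [(78,186)]) (.cons 116 114 (.leaf [(81,186)]) (.cons 186 114 (.leaf [(81,116)]) (.cons 81 116 (.leaf [(78,114)]) (.cons 78 114 (.leaf [(81,116)]) .nil))))) (.cons 186 114 (.leaf [(81,116),(83,191)]) (.cons 191 83 (.cons 114 116 (.leaf [(78,186)]) (.cons 116 114 (.leaf [(81,186)]) (.cons 186 114 (.leaf [(81,116)]) (.cons 81 116 (.leaf [(78,114)]) (.cons 78 114 (.leaf [(81,116)]) .nil))))) (.cons 78 114 (.leaf [(83,191),(81,116)]) (.cons 81 116 (.leaf [(83,191),(78,114)]) .nil))))))) (.cons 83 191 (.cons 116 114 (.leaf [(81,186),(150,152)]) (.cons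 114 116 (.leaf [(150,152),(78,186)]) (.cons 150 152 (.cons 114 116 (.leaf [(78,186)]) (.cons 116 114 (.leaf [(81,186)]) (.cons 186 114 (.leaf [(81,116)]) (.cons 81 116 (.leaf [(78,114)]) (.cons 78 114 (.leaf [(81,116)]) .nil))))) (.cons 152 150 (.leaf [(114,116),(81,186)]) (.cons 186 116 (.leaf [(150,152),(78,114)]) (.cons 81 116 (.leaf [(150,152),(78,114)]) (.cons 78 114 (.leaf [(150,152),(81,116)]) .nil))))))) (.cons 152 150 (.leaf [(83,191),(114,116),(81,186)]) (.cons 191 83 (.cons 116 114 (.leaf [(81,186),(150,152)]) (.cons 114 116 (.leaf [(150,152),(78,186)]) (.cons 150 152 (.cons 114 116 (.leaf [(78,186)]) (.cons 116 114 (.leaf [(81,186)]) (.cons 186 114 (.leaf [(81,116)]) (.cons 81 116 (.leaf [(78,114)]) (.cons 78 114 (.leaf [(81,116)]) .nil))))) (.cons 152 150 (.leaf [(114,116),(81,186)]) (.cons 186 116 (.leaf [(150,152),(78,114)]) (.cons 81 116 (.leaf [(150,152),(78,114)]) (.cons 78 114 (.leaf [(150,152),(81,116)]) .nil))))))) (.cons 186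 116 (.leaf [(83,191),(150,152),(78,114)]) (.cons 81 116 (.leaf [(83,191),(150,152),(78,114)]) (.cons 78 114 (.leaf [(83,191),(150,152),(81,116)]) .nil))))))))) (.cons 114 116 (.leaf [(6,8),(83,191),(150,152),(78,186)]) (.cons 150 152 (.cons 116 114 (.leaf [(6,8),(81,186),(83,191)]) (.cons 6 8 (.cons 114 116 (.leaf [(78,186),(83,191)]) (.cons 116 114 (.leaf [(81,186),(83,191)]) (.cons 83 191 (.cons 114 116 (.leaf [(78,186)]) (.cons 116 114 (.leaf [(81,186)]) (.cons 186 114 (.leaf [(81,116)]) (.cons 81 116 (.leaf [(78,114)]) (.cons 78 114 (.leaf [(81,116)]) .nil))))) (.cons 186 114 (.leaf [(81,116),(83,191)]) (.cons 191 83 (.cons 114 116 (.leaf [(78,186)]) (.cons 116 114 (.leaf [(81,186)]) (.cons 186 114 (.leaf [(81,116)]) (.cons 81 116 (.leaf [(78,114)]) (.cons 78 114 (.leaf [(81,116)]) .nil))))) (.cons 78 114 (.leaf [(83,191),(81,116)]) (.cons 81 116 (.leaf [(83,191),(78,114)]) .nil))))))) (.cons 114 116 (.leaf [(6,8),(83,191),(78,186)]) (.cons 8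 6 (.leaf [(83,191),(114,116),(81,186)]) (.cons 83 191 (.cons 116 114 (.leaf [(6,8),(81,186)]) (.cons 6 8 (.cons 114 116 (.leaf [(78,186)]) (.cons 116 114 (.leaf [(81,186)]) (.cons 186 114 (.leaf [(81,116)]) (.cons 81 116 (.leaf [(78,114)]) (.cons 78 114 (.leaf [(81,116)]) .nil))))) (.cons 114 116 (.leaf [(6,8),(78,186)]) (.cons 8 6 (.leaf [(114,116),(81,186)]) (.cons 186 116 (.leaf [(6,8),(78,114)]) (.cons 81 116 (.leaf [(6,8),(78,114)]) (.cons 78 114 (.leaf [(6,8),(81,116)]) .nil))))))) (.cons 191 83 (.cons 116 114 (.leaf [(6,8),(81,186)]) (.cons 6 8 (.cons 114 116 (.leaf [(78,186)]) (.cons 116 114 (.leaf [(81,186)]) (.cons 186 114 (.leaf [(81,116)]) (.cons 81 116 (.leaf [(78,114)]) (.cons 78 114 (.leaf [(81,116)]) .nil))))) (.cons 114 116 (.leaf [(6,8),(78,186)]) (.cons 8 6 (.leaf [(114,116),(81,186)]) (.cons 186 116 (.leaf [(6,8),(78,114)]) (.cons 81 116 (.leaf [(6,8),(78,114)]) (.cons 78 114 (.leaf [(6,8),(81,116)]) .nil))))))) (.cons 186 116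 (.leaf [(6,8),(83,191),(78,114)]) (.cons 81 116 (.leaf [(6,8),(83,191),(78,114)]) (.cons 78 6 (.leaf [(83,191),(114,116),(81,186)]) .nil))))))))) (.cons 8 6 (.leaf [(83,191),(114,116),(150,152),(81,186)]) (.cons 83 191 (.cons 116 114 (.leaf [(6,8),(81,186),(150,152)]) (.cons 6 8 (.cons 116 114 (.leaf [(81,186),(150,152)]) (.cons 114 116 (.leaf [(150,152),(78,186)]) (.cons 150 152 (.cons 114 116 (.leaf [(78,186)]) (.cons 116 114 (.leaf [(81,186)]) (.cons 186 114 (.leaf [(81,116)]) (.cons 81 116 (.leaf [(78,114)]) (.cons 78 114 (.leaf [(81,116)]) .nil))))) (.cons 152 150 (.leaf [(114,116),(81,186)]) (.cons 186 116 (.leaf [(150,152),(78,114)]) (.cons 81 116 (.leaf [(150,152),(78,114)]) (.cons 78 114 (.leaf [(150,152),(81,116)]) .nil))))))) (.cons 114 116 (.leaf [(6,8),(150,152),(78,186)]) (.cons 150 152 (.cons 116 114 (.leaf [(6,8),(81,186)]) (.cons 6 8 (.cons 114 116 (.leaf [(78,186)]) (.cons 116 114 (.leaf [(81,186)]) (.cons 186 114 (.leaf [(81,116)])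 (.cons 81 116 (.leaf [(78,114)]) (.cons 78 114 (.leaf [(81,116)]) .nil))))) (.cons 114 116 (.leaf [(6,8),(78,186)]) (.cons 8 6 (.leaf [(114,116),(81,186)]) (.cons 186 116 (.leaf [(6,8),(78,114)]) (.cons 81 116 (.leaf [(6,8),(78,114)]) (.cons 78 114 (.leaf [(6,8),(81,116)]) .nil))))))) (.cons 8 6 (.leaf [(114,116),(150,152),(81,186)]) (.cons 152 150 (.leaf [(6,8),(114,116),(81,186)]) (.cons 186 116 (.leaf [(6,8),(150,152),(78,114)]) (.cons 81 116 (.leaf [(6,8),(150,152),(78,114)]) (.cons 78 116 (.leaf [(6,8),(150,152),(114,186)]) .nil))))))))) (.cons 152 150 (.leaf [(6,8),(83,191),(114,116),(81,186)]) (.cons 191 83 (.cons 116 114 (.leaf [(6,8),(81,186),(150,152)]) (.cons 6 8 (.cons 116 114 (.leaf [(81,186),(150,152)]) (.cons 114 116 (.leaf [(150,152),(78,186)]) (.cons 150 152 (.cons 114 116 (.leaf [(78,186)]) (.cons 116 114 (.leaf [(81,186)]) (.cons 186 114 (.leaf [(81,116)]) (.cons 81 116 (.leaf [(78,114)]) (.cons 78 114 (.leaf [(81,116)]) .nil)))))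 (.cons 152 150 (.leaf [(114,116),(81,186)]) (.cons 186 116 (.leaf [(150,152),(78,114)]) (.cons 81 116 (.leaf [(150,152),(78,114)]) (.cons 78 114 (.leaf [(150,152),(81,116)]) .nil))))))) (.cons 114 116 (.leaf [(6,8),(150,152),(78,186)]) (.cons 150 152 (.cons 116 114 (.leaf [(6,8),(81,186)]) (.cons 6 8 (.cons 114 116 (.leaf [(78,186)]) (.cons 116 114 (.leaf [(81,186)]) (.cons 186 114 (.leaf [(81,116)]) (.cons 81 116 (.leaf [(78,114)]) (.cons 78 114 (.leaf [(81,116)]) .nil))))) (.cons 114 116 (.leaf [(6,8),(78,186)]) (.cons 8 6 (.leaf [(114,116),(81,186)]) (.cons 186 116 (.leaf [(6,8),(78,114)]) (.cons 81 116 (.leaf [(6,8),(78,114)]) (.cons 78 114 (.leaf [(6,8),(81,116)]) .nil))))))) (.cons 8 6 (.leaf [(114,116),(150,152),(81,186)]) (.cons 152 150 (.leaf [(6,8),(114,116),(81,186)]) (.cons 186 116 (.leaf [(6,8),(150,152),(78,114)]) (.cons 81 116 (.leaf [(6,8),(150,152),(78,114)]) (.cons 78 116 (.leaf [(6,8),(150,152),(114,186)]) .nil))))))))) (.cons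 186 116 (.leaf [(6,8),(83,191),(150,152),(78,114)]) (.cons 81 116 (.leaf [(6,8),(83,191),(150,152),(78,114)]) (.cons 78 116 (.leaf [(6,8),(83,191),(150,152),(114,186)]) .nil))))))))))) (.cons 191 6 (.cons 119 83 (.leaf [(114,116),(150,152),(81,186),(8,80)]) (.cons 83 119 (.leaf [(150,152),(78,81),(8,80),(116,186)]) (.cons 116 119 (.leaf [(81,186),(150,152),(8,80),(78,83)]) (.cons 152 150 (.cons 116 119 (.leaf [(8,80),(81,186),(78,83)]) (.cons 119 83 (.leaf [(114,116),(8,80),(81,186)]) (.cons 83 119 (.leaf [(8,116),(78,80),(81,186)]) (.cons 80 116 (.leaf [(83,119),(78,81)]) (.cons 81 116 (.leaf [(83,119),(78,80)]) (.cons 8 116 (.leaf [(83,119),(78,80)]) (.cons 114 116 (.leaf [(83,119),(78,80)]) (.cons 186 116 (.leaf [(83,119),(78,80)]) (.cons 78 83 (.leaf [(8,80),(81,186),(114,116)]) .nil))))))))) (.cons 150 152 (.leaf [(83,119),(81,186),(114,116),(78,80)]) (.cons 81 116 (.leaf [(83,119),(150,152),(78,80)]) (.cons 80 83 (.leaf [(150,152),(8,116),(81,186),(114,119)])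 (.cons 114 119 (.leaf [(150,152),(81,186),(8,116),(78,80)]) (.cons 186 116 (.leaf [(83,119),(150,152),(78,80)]) (.cons 8 116 (.leaf [(83,119),(150,152),(78,80)]) (.cons 78 83 (.leaf [(150,152),(81,186),(114,116),(8,80)]) .nil))))))))))) (.cons 81 80 (.cons 116 186 (.leaf [(6,8),(114,119),(150,152),(83,191)]) (.cons 6 8 (.cons 116 186 (.leaf [(114,119),(150,152),(83,191)]) (.cons 150 152 (.cons 116 186 (.leaf [(114,119),(83,191)]) (.cons 186 116 (.leaf [(78,114),(83,119)]) (.cons 114 116 (.leaf [(78,186),(83,119)]) (.cons 119 116 (.leaf [(83,191),(78,114)]) (.cons 78 186 (.leaf [(83,119),(114,116)]) (.cons 83 116 (.leaf [(119,191),(78,114)]) (.cons 191 116 (.leaf [(83,119),(78,114)]) .nil))))))) (.cons 186 116 (.leaf [(150,152),(78,114),(83,119)]) (.cons 119 116 (.leaf [(83,191),(150,152),(78,114)]) (.cons 152 150 (.leaf [(116,186),(83,191),(114,119)]) (.cons 114 116 (.leaf [(150,152),(78,186),(83,119)]) (.cons 83 116 (.leaf [(119,191),(150,152),(78,114)])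 (.cons 191 116 (.leaf [(83,119),(150,152),(78,114)]) (.cons 78 116 (.leaf [(150,152),(83,119),(114,186)]) .nil))))))))) (.cons 150 152 (.cons 116 186 (.leaf [(6,8),(114,119),(83,191)]) (.cons 6 8 (.cons 116 186 (.leaf [(114,119),(83,191)]) (.cons 186 116 (.leaf [(78,114),(83,119)]) (.cons 114 116 (.leaf [(78,186),(83,119)]) (.cons 119 116 (.leaf [(83,191),(78,114)]) (.cons 78 186 (.leaf [(83,119),(114,116)]) (.cons 83 116 (.leaf [(119,191),(78,114)]) (.cons 191 116 (.leaf [(83,119),(78,114)]) .nil))))))) (.cons 186 116 (.leaf [(6,8),(78,114),(83,119)]) (.cons 8 6 (.leaf [(116,186),(83,191),(114,119)]) (.cons 119 116 (.leaf [(6,8),(83,191),(78,114)]) (.cons 114 116 (.leaf [(6,8),(78,186),(83,119)]) (.cons 83 116 (.leaf [(6,8),(119,191),(78,114)]) (.cons 191 116 (.leaf [(6,8),(83,119),(78,114)]) (.cons 78 6 (.leaf [(116,186),(83,191),(114,119)]) .nil))))))))) (.cons 186 116 (.leaf [(6,8),(150,152),(83,119),(78,114)]) (.cons 8 6 (.leaf [(116,186),(150,152),(83,191),(114,119)])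 (.cons 119 116 (.leaf [(6,8),(83,191),(150,152),(78,114)]) (.cons 152 150 (.leaf [(6,8),(116,186),(83,191),(114,119)]) (.cons 114 116 (.leaf [(6,8),(150,152),(83,119),(78,186)]) (.cons 83 116 (.leaf [(6,8),(119,191),(150,152),(78,114)]) (.cons 191 116 (.leaf [(6,8),(83,119),(150,152),(78,114)]) (.cons 78 116 (.leaf [(6,8),(150,152),(83,119),(114,186)]) .nil))))))))))) (.cons 83 191 (.cons 8 6 (.cons 116 152 (.leaf [(81,186),(114,119),(78,80)]) (.cons 152 150 (.cons 116 80 (.leaf [(81,186),(114,119)]) (.cons 80 116 (.leaf [(78,81)]) (.cons 81 116 (.leaf [(78,80)]) (.cons 114 116 (.leaf [(78,80)]) (.cons 119 116 (.leaf [(78,80)]) (.cons 186 116 (.leaf [(78,80)]) (.cons 78 80 (.leaf [(81,186),(114,116)]) .nil))))))) (.cons 80 116 (.leaf [(78,81),(150,152)]) (.cons 81 116 (.leaf [(78,80),(150,152)]) (.cons 150 152 (.leaf [(78,80),(81,186),(114,116)]) (.cons 78 80 (.leaf [(150,152),(81,186),(114,116)]) (.cons 114 116 (.leaf [(150,152),(78,80)]) (.cons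 119 116 (.leaf [(150,152),(78,80)]) (.cons 186 116 (.leaf [(150,152),(78,80)]) .nil))))))))) (.cons 116 8 (.cons 81 186 (.leaf [(78,80),(114,119),(150,152)]) (.cons 114 119 (.cons 81 186 (.leaf [(78,80),(150,152)]) (.cons 150 152 (.cons 81 186 (.leaf [(78,80)]) (.cons 186 81 (.leaf [(6,78)]) (.cons 78 81 (.leaf [(6,186)]) (.cons 80 81 (.leaf [(6,78)]) (.cons 6 186 (.leaf [(78,80)]) .nil))))) (.cons 186 81 (.leaf [(150,152),(6,78)]) (.cons 152 150 (.leaf [(81,186),(78,80)]) (.cons 78 81 (.leaf [(150,152),(6,186)]) (.cons 80 81 (.leaf [(150,152),(6,78)]) (.cons 6 81 (.leaf [(150,152),(78,186)]) .nil))))))) (.cons 150 152 (.cons 81 186 (.leaf [(78,80),(114,119)]) (.cons 114 119 (.cons 81 186 (.leaf [(78,80)]) (.cons 186 81 (.leaf [(6,78)]) (.cons 78 81 (.leaf [(6,186)]) (.cons 80 81 (.leaf [(6,78)]) (.cons 6 186 (.leaf [(78,80)]) .nil))))) (.cons 186 81 (.leaf [(114,119),(6,78)]) (.cons 119 114 (.leaf [(81,186),(78,80)]) (.cons 78 81 (.leaf [(114,119),(6,186)])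 (.cons 80 81 (.leaf [(114,119),(6,78)]) (.cons 6 81 (.leaf [(114,119),(78,186)]) .nil))))))) (.cons 186 81 (.leaf [(114,119),(150,152),(6,78)]) (.cons 119 114 (.leaf [(81,186),(150,152),(78,80)]) (.cons 152 150 (.leaf [(81,186),(114,119),(78,80)]) (.cons 78 81 (.leaf [(114,119),(150,152),(6,186)]) (.cons 80 81 (.leaf [(114,119),(150,152),(6,78)]) (.cons 6 81 (.leaf [(114,119),(150,152),(78,186)]) .nil))))))))) (.cons 152 150 (.cons 8 6 (.cons 116 80 (.leaf [(81,186),(114,119)]) (.cons 80 116 (.leaf [(78,81)]) (.cons 81 116 (.leaf [(78,80)]) (.cons 114 116 (.leaf [(78,80)]) (.cons 119 116 (.leaf [(78,80)]) (.cons 186 116 (.leaf [(78,80)]) (.cons 78 80 (.leaf [(81,186),(114,116)]) .nil))))))) (.cons 116 8 (.leaf [(81,186),(114,119),(78,80)]) (.cons 6 8 (.leaf [(78,80),(81,186),(114,116)]) (.cons 80 8 (.leaf [(78,81),(116,186),(114,119)]) (.cons 81 116 (.leaf [(6,8),(78,80)]) (.cons 78 8 (.leaf [(80,81),(116,186),(114,119)]) (.cons 114 116 (.leaf [(6,8),(78,80)])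 (.cons 119 116 (.leaf [(6,8),(78,80)]) (.cons 186 116 (.leaf [(6,8),(78,80)]) .nil))))))))) (.cons 6 8 (.cons 150 152 (.cons 78 81 (.leaf [(114,186),(116,119)]) (.cons 81 116 (.leaf [(78,80),(114,186)]) (.cons 114 78 (.leaf [(116,119),(81,186)]) (.cons 116 81 (.leaf [(114,119),(78,186)]) (.cons 186 81 (.leaf [(78,114),(116,119)]) (.cons 80 81 (.leaf [(78,186),(114,116)]) (.cons 119 114 (.leaf [(78,80),(81,116)]) .nil))))))) (.cons 81 116 (.leaf [(78,80),(150,152),(114,186)]) (.cons 116 81 (.leaf [(114,119),(150,152),(78,186)]) (.cons 152 150 (.leaf [(78,80),(81,186),(114,116)]) (.cons 78 81 (.leaf [(150,152),(114,186),(116,119)]) (.cons 114 116 (.leaf [(150,152),(78,186),(80,81)]) (.cons 186 81 (.leaf [(150,152),(78,114),(116,119)]) (.cons 80 81 (.leaf [(150,152),(78,114),(116,119)]) (.cons 119 116 (.leaf [(150,152),(78,114),(80,81)]) .nil))))))))) (.cons 150 152 (.cons 6 8 (.cons 78 81 (.leaf [(114,186),(116,119)]) (.cons 81 116 (.leaf [(78,80),(114,186)])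 (.cons 114 78 (.leaf [(116,119),(81,186)]) (.cons 116 81 (.leaf [(114,119),(78,186)]) (.cons 186 81 (.leaf [(78,114),(116,119)]) (.cons 80 81 (.leaf [(78,186),(114,116)]) (.cons 119 114 (.leaf [(78,80),(81,116)]) .nil))))))) (.cons 8 6 (.leaf [(78,80),(81,186),(114,116)]) (.cons 81 116 (.leaf [(6,8),(78,80),(114,186)]) (.cons 116 81 (.leaf [(6,8),(114,119),(78,186)]) (.cons 78 6 (.leaf [(80,81),(116,186),(114,119)]) (.cons 114 6 (.leaf [(116,119),(78,80),(81,186)]) (.cons 186 6 (.leaf [(81,116),(78,80),(114,119)]) (.cons 80 81 (.leaf [(6,8),(78,114),(116,119)]) (.cons 119 116 (.leaf [(6,8),(78,114),(80,81)]) .nil))))))))) (.cons 81 116 (.leaf [(6,8),(78,80),(150,152),(114,186)]) (.cons 80 116 (.leaf [(6,8),(78,81),(150,152),(114,186)]) (.cons 78 116 (.leaf [(6,8),(80,81),(150,152),(114,186)]) (.cons 114 116 (.leaf [(6,8),(150,152),(78,186),(80,81)]) (.cons 186 116 (.leaf [(6,8),(150,152),(78,114),(80,81)]) (.cons 119 116 (.leaf [(6,8),(150,152),(78,114),(80,81)])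 .nil))))))))))) (.cons 114 6 (.cons 116 119 (.leaf [(81,186),(150,152),(8,80),(78,83)]) (.cons 119 116 (.leaf [(83,191),(150,152),(78,80)]) (.cons 152 150 (.cons 116 119 (.leaf [(8,80),(81,186),(78,83)]) (.cons 119 116 (.leaf [(83,191),(78,80)]) (.cons 80 116 (.leaf [(78,81),(83,119)]) (.cons 81 116 (.leaf [(78,80),(83,119)]) (.cons 83 116 (.leaf [(119,191),(78,80)]) (.cons 8 116 (.leaf [(83,119),(78,80)]) (.cons 186 116 (.leaf [(83,119),(78,80)]) (.cons 191 116 (.leaf [(83,119),(78,80)]) (.cons 78 116 (.leaf [(80,81),(83,119)]) .nil))))))))) (.cons 150 152 (.leaf [(116,119),(81,186),(83,191),(78,80)]) (.cons 81 116 (.leaf [(150,152),(78,80),(83,119)]) (.cons 83 119 (.leaf [(150,152),(78,81),(8,80),(116,186)]) (.cons 80 116 (.leaf [(150,152),(78,81),(83,119)]) (.cons 186 116 (.leaf [(150,152),(83,119),(78,80)]) (.cons 191 119 (.leaf [(150,152),(81,186),(8,116),(78,80)]) (.cons 8 116 (.leaf [(150,152),(83,119),(78,80)]) (.cons 78 116 (.leaf [(150,152),(80,81),(83,119)])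 .nil))))))))))) (.cons 186 6 (.cons 116 81 (.leaf [(114,119),(150,152),(8,80),(83,191)]) (.cons 81 116 (.leaf [(150,152),(78,80),(83,119)]) (.cons 152 150 (.cons 116 81 (.leaf [(8,80),(114,119),(83,191)]) (.cons 81 116 (.leaf [(78,80),(83,119)]) (.cons 119 116 (.leaf [(83,191),(78,80)]) (.cons 80 116 (.leaf [(78,81),(83,119)]) (.cons 83 116 (.leaf [(119,191),(78,80)]) (.cons 8 116 (.leaf [(83,119),(78,80)]) (.cons 114 116 (.leaf [(83,119),(78,80)]) (.cons 191 116 (.leaf [(83,119),(78,80)]) (.cons 78 116 (.leaf [(80,81),(83,119)]) .nil))))))))) (.cons 150 152 (.leaf [(81,116),(83,191),(114,119),(78,80)]) (.cons 119 116 (.leaf [(83,191),(150,152),(78,80)]) (.cons 83 116 (.leaf [(119,191),(150,152),(78,80)]) (.cons 80 116 (.leaf [(150,152),(78,81),(83,119)]) (.cons 114 116 (.leaf [(150,152),(83,119),(78,80)]) (.cons 191 116 (.leaf [(83,119),(150,152),(78,80)]) (.cons 8 116 (.leaf [(150,152),(83,119),(78,80)]) (.cons 78 116 (.leaf [(150,152),(80,81),(83,119)])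 .nil))))))))))) (.cons 78 6 (.cons 116 81 (.leaf [(114,119),(150,152),(8,80),(83,191)]) (.cons 152 150 (.cons 116 80 (.leaf [(81,186),(114,119),(83,191)]) (.cons 80 116 (.leaf [(81,83),(119,191)]) (.cons 81 116 (.leaf [(80,83),(119,191)]) (.cons 83 80 (.leaf [(119,191),(81,186),(114,116)]) (.cons 119 116 (.leaf [(83,191),(80,81)]) (.cons 8 116 (.leaf [(80,81),(83,119)]) (.cons 114 116 (.leaf [(80,81),(83,119)]) (.cons 186 116 (.leaf [(80,81),(83,119)]) (.cons 191 83 (.leaf [(8,80),(81,186),(114,116)]) .nil))))))))) (.cons 81 116 (.leaf [(80,83),(150,152),(119,191)]) (.cons 83 81 (.leaf [(119,191),(150,152),(114,116),(8,80)]) (.cons 150 152 (.leaf [(80,83),(81,186),(114,116),(119,191)]) (.cons 119 116 (.leaf [(83,191),(150,152),(80,81)]) (.cons 80 81 (.leaf [(150,152),(8,116),(83,191),(114,119)]) (.cons 114 116 (.leaf [(150,152),(80,81),(83,119)]) (.cons 186 116 (.leaf [(150,152),(80,81),(83,119)]) (.cons 191 83 (.leaf [(150,152),(81,186),(114,116),(8,80)])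 (.cons 8 116 (.leaf [(150,152),(80,81),(83,119)]) .nil))))))))))) .nil)))))))))))))

/-- The masks of block 0. -/
def m0 : List ℕ := [0x140, 0x40000000040000000040000000040000000000000000040, 0x800000000000000000000000000100000000000000000040, 0x100000000100000000100000000000000000100, 0x40000000000000000100000000200000000000000000000, 0x800000000000000000800000000800000000000000000000, 0xb40000000000000000000, 0x940000000000000000000000000000, 0x140000000000000000000000000000000000000]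

/-- The strategy tree of block 1. -/
def t1 : Tr := (.cons 55 58 (.leaf [(163,199),(166,203),(169,205),(157,175),(198,202)]) (.cons 58 55 (.leaf [(163,198),(166,202),(169,205),(157,175),(199,203)]) (.cons 163 55 (.leaf [(58,198),(169,205),(166,202),(157,175),(199,203)]) (.cons 169 205 (.cons 55 58 (.leaf [(163,199),(166,203),(157,175),(198,202)]) (.cons 58 55 (.leaf [(163,198),(166,202),(157,175),(199,203)]) (.cons 163 55 (.leaf [(58,198),(157,175),(166,202),(199,203)]) (.cons 166 55 (.leaf [(58,202),(163,198),(157,175),(199,203)]) (.cons 199 55 (.leaf [(58,163),(198,203),(166,202),(157,175)]) (.cons 198 58 (.leaf [(55,163),(199,202),(166,203),(157,175)]) (.cons 202 58 (.leaf [(55,163),(198,199),(166,203),(157,175)]) (.cons 203 55 (.leaf [(58,163),(198,199),(166,202),(157,175)]) (.cons 175 55 (.leaf [(157,163),(58,198),(166,202),(199,203)]) (.cons 157 55 (.leaf [(163,175),(58,198),(166,202),(199,203)]) .nil)))))))))) (.cons 166 55 (.leaf [(58,202),(169,205),(163,198),(157,175),(199,203)])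 (.cons 205 169 (.cons 55 58 (.leaf [(163,199),(166,203),(198,202)]) (.cons 58 55 (.leaf [(163,198),(166,202),(199,203)]) (.cons 163 55 (.leaf [(58,198),(166,202),(199,203)]) (.cons 166 55 (.leaf [(58,202),(163,198),(199,203)]) (.cons 199 55 (.leaf [(58,163),(198,203),(166,202)]) (.cons 198 58 (.leaf [(55,163),(199,202),(166,203)]) (.cons 202 58 (.leaf [(55,163),(198,199),(166,203)]) (.cons 203 55 (.leaf [(58,163),(198,199),(166,202)]) .nil)))))))) (.cons 199 55 (.leaf [(169,205),(58,163),(198,203),(166,202),(157,175)]) (.cons 198 58 (.leaf [(169,205),(55,163),(199,202),(166,203),(157,175)]) (.cons 202 58 (.leaf [(169,205),(55,163),(198,199),(166,203),(157,175)]) (.cons 203 55 (.leaf [(169,205),(58,163),(198,199),(166,202),(157,175)]) (.cons 175 55 (.leaf [(169,205),(58,198),(157,163),(166,202),(199,203)]) (.cons 157 55 (.leaf [(169,205),(58,198),(163,175),(166,202),(199,203)]) .nil))))))))))))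

/-- The masks of block 1. -/
def m1 : List ℕ := [0x800000000400000000000000000000000000080000000000000, 0x80000000080000000000000000000000000080000000000000, 0x400000000400000000000000000000000000400000000000000, 0x40000000080000000000000000000000000400000000000000, 0x2000000002000000000000000000000000000000000000000000, 0x480000000000000, 0x82082000000000000000000000000000000000000000, 0xcc0000000000000000000000000000000000000000000000000]

/-- The strategy tree of block 2. -/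
def t2 : Tr := (.cons 131 125 (.leaf [(59,95),(89,173),(41,53),(56,66),(65,137)]) (.cons 125 131 (.leaf [(53,89),(65,95),(41,59),(56,66),(137,173)]) (.cons 65 125 (.leaf [(137,173),(41,53),(59,95),(56,66),(89,131)]) (.cons 137 131 (.leaf [(65,173),(41,59),(56,66),(53,89),(95,125)]) (.cons 173 131 (.leaf [(65,137),(41,59),(56,66),(53,89),(95,125)]) (.cons 89 131 (.leaf [(53,125),(41,59),(56,66),(65,95),(137,173)]) (.cons 95 131 (.leaf [(65,125),(41,59),(56,66),(53,89),(137,173)]) (.cons 41 65 (.leaf [(56,66),(53,89),(59,95),(125,137),(131,173)]) (.cons 53 125 (.leaf [(41,65),(56,66),(59,95),(89,131),(137,173)]) (.cons 59 131 (.leaf [(41,53),(65,95),(56,66),(89,125),(137,173)]) (.cons 66 131 (.leaf [(41,56),(53,59),(89,125),(65,95),(137,173)]) (.cons 56 131 (.leaf [(41,66),(53,59),(89,125),(65,95),(137,173)]) .nil))))))))))))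

/-- The masks of block 2. -/
def m2 : List ℕ := [0x20000000000800000000020000000000000000000000, 0x20000000020000000020000000000000, 0x800000000800000000800000000000000, 0x20000000020000000000000000020000000000000000, 0x20000000800000020000000000000000, 0x40100020000000000, 0x20820020000000000, 0x20820000000000000000000000000000000]

/-- The strategy tree of block 3. -/
def t3 : Tr := (.cons 46 52 (.leaf [(5,87),(44,47),(38,50)]) (.cons 52 46 (.leaf [(17,87),(49,50),(38,44)]) (.cons 44 46 (.leaf [(38,50),(17,87),(49,52)]) (.cons 50 52 (.leaf [(38,44),(5,87),(46,47)]) (.cons 87 46 (.leaf [(17,52),(38,44),(49,50)]) (.cons 5 46 (.leaf [(17,52),(38,44),(49,50)]) (.cons 38 46 (.leaf [(44,50),(17,87),(49,52)]) (.cons 47 46 (.leaf [(17,52),(38,44),(49,50)]) (.cons 17 52 (.leaf [(5,87),(44,46),(38,50)]) (.cons 49 52 (.leaf [(5,87),(44,46),(38,50)]) .nil))))))))))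

/-- The masks of block 3. -/
def m3 : List ℕ := [0x8000000000400000000020, 0x8000000010000000020000, 0x4104000000000, 0x10400000000000, 0xd00000000000, 0x16000000000000]

/-- The strategy tree of block 4. -/
def t4 : Tr := (.cons 20 14 (.cons 68 140 (.leaf [(15,25),(19,21),(70,71),(35,143),(7,13)]) (.cons 140 68 (.leaf [(15,25),(19,21),(35,70),(71,143),(7,13)]) (.cons 19 21 (.cons 68 140 (.leaf [(15,25),(70,71),(7,13),(35,143)]) (.cons 140 68 (.leaf [(15,25),(35,70),(7,13),(71,143)]) (.cons 25 15 (.cons 68 140 (.leaf [(7,13),(70,71),(35,143)]) (.cons 140 68 (.leaf [(7,13),(35,70),(71,143)]) (.cons 35 140 (.leaf [(7,13),(71,143),(68,70)]) (.cons 70 68 (.leaf [(7,13),(35,140),(71,143)]) (.cons 7 13 (.cons 68 140 (.leaf [(70,71),(35,143)]) (.cons 140 68 (.leaf [(35,70),(71,143)]) (.cons 35 140 (.leaf [(71,143),(68,70)]) (.cons 70 68 (.leaf [(35,140),(71,143)]) (.cons 71 68 (.leaf [(35,143),(70,140)]) (.cons 143 35 (.leaf [(68,140),(70,71)]) .nil))))))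 (.cons 71 68 (.leaf [(7,13),(35,143),(70,140)]) (.cons 13 7 (.cons 68 140 (.leaf [(70,71),(35,143)]) (.cons 140 68 (.leaf [(35,70),(71,143)]) (.cons 35 140 (.leaf [(71,143),(68,70)]) (.cons 70 68 (.leaf [(35,140),(71,143)]) (.cons 71 68 (.leaf [(35,143),(70,140)]) (.cons 143 35 (.leaf [(68,140),(70,71)]) .nil)))))) (.cons 143 35 (.leaf [(7,13),(68,140),(70,71)]) .nil)))))))) (.cons 35 140 (.leaf [(15,25),(71,143),(7,13),(68,70)]) (.cons 70 68 (.leaf [(15,25),(35,140),(7,13),(71,143)]) (.cons 71 68 (.leaf [(15,25),(35,143),(7,13),(70,140)]) (.cons 15 25 (.cons 68 140 (.leaf [(70,71),(35,143)]) (.cons 140 68 (.leaf [(35,70),(71,143)]) (.cons 35 140 (.leaf [(71,143),(68,70)]) (.cons 70 68 (.leaf [(35,140),(71,143)]) (.cons 71 68 (.leaf [(35,143),(70,140)]) (.cons 143 35 (.leaf [(68,140),(70,71)]) .nil)))))) (.cons 7 25 (.cons 68 140 (.leaf [(70,71),(35,143)]) (.cons 140 68 (.leaf [(35,70),(71,143)]) (.cons 35 140 (.leaf [(71,143),(68,70)]) (.cons 70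 68 (.leaf [(35,140),(71,143)]) (.cons 71 68 (.leaf [(35,143),(70,140)]) (.cons 143 35 (.leaf [(68,140),(70,71)]) .nil)))))) (.cons 13 25 (.cons 68 140 (.leaf [(70,71),(35,143)]) (.cons 140 68 (.leaf [(35,70),(71,143)]) (.cons 35 140 (.leaf [(71,143),(68,70)]) (.cons 70 68 (.leaf [(35,140),(71,143)]) (.cons 71 68 (.leaf [(35,143),(70,140)]) (.cons 143 35 (.leaf [(68,140),(70,71)]) .nil)))))) (.cons 143 35 (.leaf [(15,25),(68,140),(7,13),(70,71)]) .nil)))))))))) (.cons 25 15 (.cons 68 140 (.leaf [(19,21),(70,71),(7,13),(35,143)]) (.cons 140 68 (.leaf [(19,21),(35,70),(7,13),(71,143)]) (.cons 19 21 (.cons 68 140 (.leaf [(7,13),(70,71),(35,143)]) (.cons 140 68 (.leaf [(7,13),(35,70),(71,143)]) (.cons 35 140 (.leaf [(7,13),(71,143),(68,70)]) (.cons 70 68 (.leaf [(7,13),(35,140),(71,143)]) (.cons 7 13 (.cons 68 140 (.leaf [(70,71),(35,143)]) (.cons 140 68 (.leaf [(35,70),(71,143)]) (.cons 35 140 (.leaf [(71,143),(68,70)]) (.cons 70 68 (.leaf [(35,140),(71,143)])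 (.cons 71 68 (.leaf [(35,143),(70,140)]) (.cons 143 35 (.leaf [(68,140),(70,71)]) .nil)))))) (.cons 71 68 (.leaf [(7,13),(35,143),(70,140)]) (.cons 13 7 (.cons 68 140 (.leaf [(70,71),(35,143)]) (.cons 140 68 (.leaf [(35,70),(71,143)]) (.cons 35 140 (.leaf [(71,143),(68,70)]) (.cons 70 68 (.leaf [(35,140),(71,143)]) (.cons 71 68 (.leaf [(35,143),(70,140)]) (.cons 143 35 (.leaf [(68,140),(70,71)]) .nil)))))) (.cons 143 35 (.leaf [(7,13),(68,140),(70,71)]) .nil)))))))) (.cons 35 140 (.leaf [(19,21),(71,143),(7,13),(68,70)]) (.cons 70 68 (.leaf [(19,21),(35,140),(7,13),(71,143)]) (.cons 71 68 (.leaf [(19,21),(35,143),(7,13),(70,140)]) (.cons 21 19 (.cons 68 140 (.leaf [(70,71),(35,143)]) (.cons 140 68 (.leaf [(35,70),(71,143)]) (.cons 35 140 (.leaf [(71,143),(68,70)]) (.cons 70 68 (.leaf [(35,140),(71,143)]) (.cons 71 68 (.leaf [(35,143),(70,140)]) (.cons 143 35 (.leaf [(68,140),(70,71)]) .nil)))))) (.cons 7 19 (.cons 68 140 (.leaf [(70,71),(35,143)])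 (.cons 140 68 (.leaf [(35,70),(71,143)]) (.cons 35 140 (.leaf [(71,143),(68,70)]) (.cons 70 68 (.leaf [(35,140),(71,143)]) (.cons 71 68 (.leaf [(35,143),(70,140)]) (.cons 143 35 (.leaf [(68,140),(70,71)]) .nil)))))) (.cons 13 19 (.cons 68 140 (.leaf [(70,71),(35,143)]) (.cons 140 68 (.leaf [(35,70),(71,143)]) (.cons 35 140 (.leaf [(71,143),(68,70)]) (.cons 70 68 (.leaf [(35,140),(71,143)]) (.cons 71 68 (.leaf [(35,143),(70,140)]) (.cons 143 35 (.leaf [(68,140),(70,71)]) .nil)))))) (.cons 143 35 (.leaf [(19,21),(68,140),(7,13),(70,71)]) .nil)))))))))) (.cons 35 140 (.leaf [(15,25),(19,21),(71,143),(68,70),(7,13)]) (.cons 70 68 (.leaf [(15,25),(19,21),(35,140),(71,143),(7,13)]) (.cons 71 68 (.leaf [(15,25),(19,21),(35,143),(70,140),(7,13)]) (.cons 15 25 (.cons 68 140 (.leaf [(19,21),(70,71),(35,143)]) (.cons 140 68 (.leaf [(19,21),(35,70),(71,143)]) (.cons 35 140 (.leaf [(19,21),(71,143),(68,70)]) (.cons 70 68 (.leaf [(19,21),(35,140),(71,143)]) (.cons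 71 68 (.leaf [(19,21),(35,143),(70,140)]) (.cons 19 21 (.cons 68 140 (.leaf [(70,71),(35,143)]) (.cons 140 68 (.leaf [(35,70),(71,143)]) (.cons 35 140 (.leaf [(71,143),(68,70)]) (.cons 70 68 (.leaf [(35,140),(71,143)]) (.cons 71 68 (.leaf [(35,143),(70,140)]) (.cons 143 35 (.leaf [(68,140),(70,71)]) .nil)))))) (.cons 21 19 (.cons 68 140 (.leaf [(70,71),(35,143)]) (.cons 140 68 (.leaf [(35,70),(71,143)]) (.cons 35 140 (.leaf [(71,143),(68,70)]) (.cons 70 68 (.leaf [(35,140),(71,143)]) (.cons 71 68 (.leaf [(35,143),(70,140)]) (.cons 143 35 (.leaf [(68,140),(70,71)]) .nil)))))) (.cons 143 35 (.leaf [(19,21),(68,140),(70,71)]) .nil)))))))) (.cons 21 19 (.cons 68 140 (.leaf [(15,25),(70,71),(35,143)]) (.cons 140 68 (.leaf [(15,25),(35,70),(71,143)]) (.cons 35 140 (.leaf [(15,25),(71,143),(68,70)]) (.cons 70 68 (.leaf [(15,25),(35,140),(71,143)]) (.cons 71 68 (.leaf [(15,25),(35,143),(70,140)]) (.cons 15 25 (.cons 68 140 (.leaf [(70,71),(35,143)]) (.cons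 140 68 (.leaf [(35,70),(71,143)]) (.cons 35 140 (.leaf [(71,143),(68,70)]) (.cons 70 68 (.leaf [(35,140),(71,143)]) (.cons 71 68 (.leaf [(35,143),(70,140)]) (.cons 143 35 (.leaf [(68,140),(70,71)]) .nil)))))) (.cons 25 15 (.cons 68 140 (.leaf [(70,71),(35,143)]) (.cons 140 68 (.leaf [(35,70),(71,143)]) (.cons 35 140 (.leaf [(71,143),(68,70)]) (.cons 70 68 (.leaf [(35,140),(71,143)]) (.cons 71 68 (.leaf [(35,143),(70,140)]) (.cons 143 35 (.leaf [(68,140),(70,71)]) .nil)))))) (.cons 143 35 (.leaf [(15,25),(68,140),(70,71)]) .nil)))))))) (.cons 143 35 (.leaf [(15,25),(19,21),(68,140),(70,71),(7,13)]) (.cons 7 19 (.cons 68 140 (.leaf [(15,25),(70,71),(35,143)]) (.cons 140 68 (.leaf [(15,25),(35,70),(71,143)]) (.cons 35 140 (.leaf [(15,25),(71,143),(68,70)]) (.cons 70 68 (.leaf [(15,25),(35,140),(71,143)]) (.cons 71 68 (.leaf [(15,25),(35,143),(70,140)]) (.cons 15 25 (.cons 68 140 (.leaf [(70,71),(35,143)]) (.cons 140 68 (.leaf [(35,70),(71,143)]) (.cons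 35 140 (.leaf [(71,143),(68,70)]) (.cons 70 68 (.leaf [(35,140),(71,143)]) (.cons 71 68 (.leaf [(35,143),(70,140)]) (.cons 143 35 (.leaf [(68,140),(70,71)]) .nil)))))) (.cons 25 15 (.cons 68 140 (.leaf [(70,71),(35,143)]) (.cons 140 68 (.leaf [(35,70),(71,143)]) (.cons 35 140 (.leaf [(71,143),(68,70)]) (.cons 70 68 (.leaf [(35,140),(71,143)]) (.cons 71 68 (.leaf [(35,143),(70,140)]) (.cons 143 35 (.leaf [(68,140),(70,71)]) .nil)))))) (.cons 143 35 (.leaf [(15,25),(68,140),(70,71)]) .nil)))))))) (.cons 13 19 (.cons 68 140 (.leaf [(15,25),(70,71),(35,143)]) (.cons 140 68 (.leaf [(15,25),(35,70),(71,143)]) (.cons 35 140 (.leaf [(15,25),(71,143),(68,70)]) (.cons 70 68 (.leaf [(15,25),(35,140),(71,143)]) (.cons 71 68 (.leaf [(15,25),(35,143),(70,140)]) (.cons 15 25 (.cons 68 140 (.leaf [(70,71),(35,143)]) (.cons 140 68 (.leaf [(35,70),(71,143)]) (.cons 35 140 (.leaf [(71,143),(68,70)]) (.cons 70 68 (.leaf [(35,140),(71,143)]) (.cons 71 68 (.leaf [(35,143),(70,140)])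 (.cons 143 35 (.leaf [(68,140),(70,71)]) .nil)))))) (.cons 25 15 (.cons 68 140 (.leaf [(70,71),(35,143)]) (.cons 140 68 (.leaf [(35,70),(71,143)]) (.cons 35 140 (.leaf [(71,143),(68,70)]) (.cons 70 68 (.leaf [(35,140),(71,143)]) (.cons 71 68 (.leaf [(35,143),(70,140)]) (.cons 143 35 (.leaf [(68,140),(70,71)]) .nil)))))) (.cons 143 35 (.leaf [(15,25),(68,140),(70,71)]) .nil)))))))) .nil)))))))))))) (.cons 14 20 (.cons 35 140 (.leaf [(7,21),(13,15),(71,143),(68,70),(19,25)]) (.cons 68 140 (.leaf [(13,15),(70,71),(7,21),(35,143),(19,25)]) (.cons 140 68 (.leaf [(13,15),(35,70),(7,21),(71,143),(19,25)]) (.cons 13 15 (.cons 35 140 (.leaf [(7,21),(71,143),(19,25),(68,70)]) (.cons 68 140 (.leaf [(70,71),(7,21),(19,25),(35,143)]) (.cons 140 68 (.leaf [(35,70),(7,21),(19,25),(71,143)]) (.cons 70 68 (.leaf [(35,140),(7,21),(19,25),(71,143)]) (.cons 7 35 (.leaf [(19,25),(68,140),(70,71)]) (.cons 71 68 (.leaf [(35,143),(7,21),(19,25),(70,140)]) (.cons 143 35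 (.leaf [(68,140),(7,19),(70,71)]) (.cons 19 35 (.leaf [(7,25),(68,140),(70,71)]) (.cons 21 35 (.leaf [(68,140),(7,19),(70,71)]) (.cons 25 35 (.leaf [(7,19),(68,140),(70,71)]) .nil)))))))))) (.cons 70 68 (.leaf [(13,15),(35,140),(7,21),(71,143),(19,25)]) (.cons 71 68 (.leaf [(13,15),(35,143),(7,21),(70,140),(19,25)]) (.cons 15 13 (.cons 35 140 (.leaf [(7,21),(71,143),(68,70)]) (.cons 68 140 (.leaf [(70,71),(7,21),(35,143)]) (.cons 140 68 (.leaf [(35,70),(7,21),(71,143)]) (.cons 70 68 (.leaf [(35,140),(7,21),(71,143)]) (.cons 71 68 (.leaf [(35,143),(7,21),(70,140)]) (.cons 7 35 (.leaf [(68,140),(70,71)]) (.cons 143 35 (.leaf [(68,140),(70,71)]) (.cons 21 35 (.leaf [(68,140),(70,71)]) .nil)))))))) (.cons 7 35 (.leaf [(13,15),(68,140),(19,25),(70,71)]) (.cons 143 35 (.leaf [(13,15),(68,140),(70,71),(7,19)]) (.cons 21 35 (.leaf [(13,15),(68,140),(70,71),(7,19)]) (.cons 19 35 (.leaf [(13,15),(68,140),(7,25),(70,71)]) (.cons 25 35 (.leaf [(13,15),(68,140),(7,19),(70,71)])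 .nil)))))))))))) (.cons 68 140 (.cons 20 14 (.leaf [(15,25),(19,21),(70,71),(35,143),(7,13)]) (.cons 14 20 (.leaf [(13,15),(70,71),(7,21),(35,143),(19,25)]) (.cons 71 70 (.cons 20 14 (.leaf [(15,25),(19,21),(35,143),(7,13)]) (.cons 14 20 (.leaf [(13,15),(35,143),(7,21),(19,25)]) (.cons 35 143 (.cons 14 20 (.leaf [(7,21),(13,15),(19,25)]) (.cons 20 14 (.leaf [(15,25),(19,21),(7,13)]) (.cons 15 14 (.leaf [(20,25),(19,21),(7,13)]) (.cons 21 14 (.leaf [(19,20),(15,25),(7,13)]) (.cons 7 14 (.leaf [(13,25),(19,21),(15,20)]) (.cons 13 14 (.leaf [(7,25),(19,21),(15,20)]) (.cons 19 20 (.leaf [(7,25),(13,15),(14,21)]) (.cons 25 20 (.leaf [(7,19),(13,15),(14,21)]) .nil)))))))) (.cons 15 20 (.leaf [(13,14),(35,143),(7,21),(19,25)]) (.cons 143 35 (.cons 20 14 (.leaf [(15,25),(19,21),(7,13)]) (.cons 14 20 (.leaf [(13,15),(7,19)]) (.cons 15 20 (.leaf [(13,14),(7,19)]) (.cons 13 14 (.leaf [(7,25),(19,21),(15,20)]) (.cons 19 20 (.leaf [(7,25),(13,14)]) (.cons 25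 20 (.leaf [(7,19),(13,14)]) (.cons 21 20 (.leaf [(7,13),(14,15)]) (.cons 7 20 (.leaf [(13,19),(14,15)]) .nil)))))))) (.cons 13 14 (.leaf [(35,143),(7,25),(19,21),(15,20)]) (.cons 19 20 (.leaf [(35,143),(7,21),(13,25),(14,15)]) (.cons 21 20 (.leaf [(35,143),(7,14),(13,15),(19,25)]) (.cons 25 20 (.leaf [(35,143),(7,21),(13,19),(14,15)]) (.cons 7 14 (.leaf [(35,143),(13,25),(19,21),(15,20)]) .nil)))))))))) (.cons 70 71 (.cons 20 14 (.leaf [(15,25),(19,21),(7,13)]) (.cons 14 20 (.leaf [(13,15),(7,19),(21,35)]) (.cons 15 20 (.leaf [(13,14),(7,21),(19,25)]) (.cons 13 14 (.leaf [(7,25),(19,21),(15,20)]) (.cons 19 20 (.leaf [(7,21),(13,25),(14,15)]) (.cons 21 20 (.leaf [(7,19),(14,35),(13,15)]) (.cons 25 20 (.leaf [(7,21),(13,19),(14,15)]) (.cons 7 14 (.leaf [(13,25),(19,21),(15,20)]) (.cons 35 14 (.leaf [(15,25),(19,20),(7,13)]) .nil))))))))) (.cons 15 20 (.leaf [(13,14),(70,71),(35,143),(7,21),(19,25)]) (.cons 35 71 (.cons 14 20 (.leaf [(7,21),(13,15),(19,25)])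 (.cons 20 14 (.leaf [(15,25),(19,21),(7,13)]) (.cons 15 14 (.leaf [(20,25),(19,21),(7,13)]) (.cons 21 14 (.leaf [(19,20),(15,25),(7,13)]) (.cons 7 14 (.leaf [(13,25),(19,21),(15,20)]) (.cons 13 14 (.leaf [(7,25),(19,21),(15,20)]) (.cons 19 20 (.leaf [(7,25),(13,15),(14,21)]) (.cons 25 20 (.leaf [(7,19),(13,15),(14,21)]) .nil)))))))) (.cons 13 14 (.leaf [(70,71),(7,25),(19,21),(15,20),(35,143)]) (.cons 19 20 (.leaf [(70,71),(7,21),(13,25),(14,15),(35,143)]) (.cons 21 20 (.leaf [(70,71),(7,14),(13,15),(35,143),(19,25)]) (.cons 25 20 (.leaf [(70,71),(7,21),(13,19),(14,15),(35,143)]) (.cons 7 14 (.leaf [(70,71),(13,25),(19,21),(15,20),(35,143)]) (.cons 143 71 (.cons 20 14 (.leaf [(15,25),(19,21),(7,13)]) (.cons 14 20 (.leaf [(13,15),(7,19),(21,35)]) (.cons 15 20 (.leaf [(13,14),(7,21),(19,25)]) (.cons 13 14 (.leaf [(7,25),(19,21),(15,20)]) (.cons 19 20 (.leaf [(7,21),(13,25),(14,15)]) (.cons 21 20 (.leaf [(7,19),(14,35),(13,15)]) (.cons 25 20 (.leaf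 [(7,21),(13,19),(14,15)]) (.cons 7 14 (.leaf [(13,25),(19,21),(15,20)]) (.cons 35 14 (.leaf [(15,25),(19,20),(7,13)]) .nil))))))))) .nil)))))))))))) (.cons 140 68 (.cons 20 14 (.leaf [(15,25),(19,21),(35,70),(71,143),(7,13)]) (.cons 35 70 (.cons 14 20 (.leaf [(7,21),(13,15),(71,143),(19,25)]) (.cons 20 14 (.leaf [(15,25),(19,21),(71,143),(7,13)]) (.cons 71 143 (.cons 14 20 (.leaf [(7,21),(13,15),(19,25)]) (.cons 20 14 (.leaf [(15,25),(19,21),(7,13)]) (.cons 15 14 (.leaf [(20,25),(19,21),(7,13)]) (.cons 21 14 (.leaf [(19,20),(15,25),(7,13)]) (.cons 7 14 (.leaf [(13,25),(19,21),(15,20)]) (.cons 13 14 (.leaf [(7,25),(19,21),(15,20)]) (.cons 19 20 (.leaf [(7,25),(13,15),(14,21)]) (.cons 25 20 (.leaf [(7,19),(13,15),(14,21)]) .nil)))))))) (.cons 143 71 (.cons 14 20 (.leaf [(7,21),(13,15),(19,25)]) (.cons 20 14 (.leaf [(15,25),(19,21),(7,13)]) (.cons 15 14 (.leaf [(20,25),(19,21),(7,13)]) (.cons 21 14 (.leaf [(19,20),(15,25),(7,13)]) (.cons 7 14 (.leaf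 [(13,25),(19,21),(15,20)]) (.cons 13 14 (.leaf [(7,25),(19,21),(15,20)]) (.cons 19 20 (.leaf [(7,25),(13,15),(14,21)]) (.cons 25 20 (.leaf [(7,19),(13,15),(14,21)]) .nil)))))))) (.cons 15 14 (.leaf [(20,25),(71,143),(19,21),(7,13)]) (.cons 21 14 (.leaf [(19,20),(71,143),(15,25),(7,13)]) (.cons 7 14 (.leaf [(71,143),(13,25),(19,21),(15,20)]) (.cons 13 14 (.leaf [(71,143),(7,25),(19,21),(15,20)]) (.cons 19 20 (.leaf [(71,143),(7,25),(13,15),(14,21)]) (.cons 25 20 (.leaf [(71,143),(7,19),(13,15),(14,21)]) .nil)))))))))) (.cons 14 20 (.leaf [(13,15),(35,70),(7,21),(71,143),(19,25)]) (.cons 70 35 (.cons 20 14 (.leaf [(15,25),(19,21),(7,13)]) (.cons 14 20 (.leaf [(13,15),(7,19)]) (.cons 15 20 (.leaf [(13,14),(7,19)]) (.cons 13 14 (.leaf [(7,25),(19,21),(15,20)]) (.cons 19 20 (.leaf [(7,25),(13,14)]) (.cons 25 20 (.leaf [(7,19),(13,14)]) (.cons 21 20 (.leaf [(7,13),(14,15)]) (.cons 7 20 (.leaf [(13,19),(14,15)]) .nil)))))))) (.cons 15 20 (.leaf [(13,14),(35,70),(71,143),(7,21),(19,25)])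 (.cons 13 14 (.leaf [(35,70),(7,25),(19,21),(15,20),(71,143)]) (.cons 19 20 (.leaf [(35,70),(7,21),(13,25),(14,15),(71,143)]) (.cons 21 20 (.leaf [(35,70),(7,14),(13,15),(71,143),(19,25)]) (.cons 25 20 (.leaf [(35,70),(7,21),(13,19),(14,15),(71,143)]) (.cons 71 35 (.cons 20 14 (.leaf [(15,25),(19,21),(7,13)]) (.cons 14 20 (.leaf [(13,15),(7,19)]) (.cons 15 20 (.leaf [(13,14),(7,19)]) (.cons 13 14 (.leaf [(7,25),(19,21),(15,20)]) (.cons 19 20 (.leaf [(7,25),(13,14)]) (.cons 25 20 (.leaf [(7,19),(13,14)]) (.cons 21 20 (.leaf [(7,13),(14,15)]) (.cons 7 20 (.leaf [(13,19),(14,15)]) .nil)))))))) (.cons 7 14 (.leaf [(35,70),(13,25),(19,21),(15,20),(71,143)]) (.cons 143 35 (.cons 20 14 (.leaf [(15,25),(19,21),(7,13)]) (.cons 14 20 (.leaf [(13,15),(7,19)]) (.cons 15 20 (.leaf [(13,14),(7,19)]) (.cons 13 14 (.leaf [(7,25),(19,21),(15,20)]) (.cons 19 20 (.leaf [(7,25),(13,14)]) (.cons 25 20 (.leaf [(7,19),(13,14)]) (.cons 21 20 (.leaf [(7,13),(14,15)]) (.cons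 7 20 (.leaf [(13,19),(14,15)]) .nil)))))))) .nil)))))))))))) (.cons 35 140 (.cons 14 20 (.leaf [(7,21),(13,15),(71,143),(68,70),(19,25)]) (.cons 20 14 (.leaf [(15,25),(19,21),(71,143),(68,70),(7,13)]) (.cons 71 143 (.cons 14 20 (.leaf [(7,21),(13,15),(68,70),(19,25)]) (.cons 20 14 (.leaf [(15,25),(19,21),(68,70),(7,13)]) (.cons 68 70 (.cons 14 20 (.leaf [(7,21),(13,15),(19,25)]) (.cons 20 14 (.leaf [(15,25),(19,21),(7,13)]) (.cons 15 14 (.leaf [(20,25),(19,21),(7,13)]) (.cons 21 14 (.leaf [(19,20),(15,25),(7,13)]) (.cons 7 14 (.leaf [(13,25),(19,21),(15,20)]) (.cons 13 14 (.leaf [(7,25),(19,21),(15,20)]) (.cons 19 20 (.leaf [(7,25),(13,15),(14,21)]) (.cons 25 20 (.leaf [(7,19),(13,15),(14,21)]) .nil)))))))) (.cons 70 68 (.cons 14 20 (.leaf [(7,21),(13,15),(19,25)]) (.cons 20 14 (.leaf [(15,25),(19,21),(7,13)]) (.cons 15 14 (.leaf [(20,25),(19,21),(7,13)]) (.cons 21 14 (.leaf [(19,20),(15,25),(7,13)]) (.cons 7 14 (.leaf [(13,25),(19,21),(15,20)])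 (.cons 13 14 (.leaf [(7,25),(19,21),(15,20)]) (.cons 19 20 (.leaf [(7,25),(13,15),(14,21)]) (.cons 25 20 (.leaf [(7,19),(13,15),(14,21)]) .nil)))))))) (.cons 15 14 (.leaf [(20,25),(68,70),(19,21),(7,13)]) (.cons 21 14 (.leaf [(19,20),(68,70),(15,25),(7,13)]) (.cons 7 14 (.leaf [(68,70),(13,25),(19,21),(15,20)]) (.cons 13 14 (.leaf [(68,70),(7,25),(19,21),(15,20)]) (.cons 19 20 (.leaf [(68,70),(7,25),(13,15),(14,21)]) (.cons 25 20 (.leaf [(68,70),(7,19),(13,15),(14,21)]) .nil)))))))))) (.cons 143 71 (.cons 14 20 (.leaf [(7,21),(13,15),(19,25)]) (.cons 20 14 (.leaf [(15,25),(19,21),(7,13)]) (.cons 15 14 (.leaf [(20,25),(19,21),(7,13)]) (.cons 21 14 (.leaf [(19,20),(15,25),(7,13)]) (.cons 7 14 (.leaf [(13,25),(19,21),(15,20)]) (.cons 13 14 (.leaf [(7,25),(19,21),(15,20)]) (.cons 19 20 (.leaf [(7,25),(13,15),(14,21)]) (.cons 25 20 (.leaf [(7,19),(13,15),(14,21)]) .nil)))))))) (.cons 15 14 (.leaf [(20,25),(71,143),(19,21),(68,70),(7,13)]) (.cons 21 14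 (.leaf [(19,20),(71,143),(15,25),(68,70),(7,13)]) (.cons 7 14 (.leaf [(71,143),(13,25),(19,21),(15,20),(68,70)]) (.cons 13 14 (.leaf [(71,143),(7,25),(19,21),(15,20),(68,70)]) (.cons 19 20 (.leaf [(71,143),(7,25),(13,15),(14,21),(68,70)]) (.cons 25 20 (.leaf [(71,143),(7,19),(13,15),(14,21),(68,70)]) (.cons 68 71 (.cons 14 20 (.leaf [(7,21),(13,15),(19,25)]) (.cons 20 14 (.leaf [(15,25),(19,21),(7,13)]) (.cons 15 14 (.leaf [(20,25),(19,21),(7,13)]) (.cons 21 14 (.leaf [(19,20),(15,25),(7,13)]) (.cons 7 14 (.leaf [(13,25),(19,21),(15,20)]) (.cons 13 14 (.leaf [(7,25),(19,21),(15,20)]) (.cons 19 20 (.leaf [(7,25),(13,15),(14,21)]) (.cons 25 20 (.leaf [(7,19),(13,15),(14,21)]) .nil)))))))) (.cons 70 71 (.cons 14 20 (.leaf [(7,21),(13,15),(19,25)]) (.cons 20 14 (.leaf [(15,25),(19,21),(7,13)]) (.cons 15 14 (.leaf [(20,25),(19,21),(7,13)]) (.cons 21 14 (.leaf [(19,20),(15,25),(7,13)]) (.cons 7 14 (.leaf [(13,25),(19,21),(15,20)]) (.cons 13 14 (.leaf [(7,25),(19,21),(15,20)])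 (.cons 19 20 (.leaf [(7,25),(13,15),(14,21)]) (.cons 25 20 (.leaf [(7,19),(13,15),(14,21)]) .nil)))))))) .nil)))))))))))) (.cons 70 68 (.cons 20 14 (.leaf [(15,25),(19,21),(35,140),(71,143),(7,13)]) (.cons 35 140 (.cons 14 20 (.leaf [(7,21),(13,15),(71,143),(19,25)]) (.cons 20 14 (.leaf [(15,25),(19,21),(71,143),(7,13)]) (.cons 71 143 (.cons 14 20 (.leaf [(7,21),(13,15),(19,25)]) (.cons 20 14 (.leaf [(15,25),(19,21),(7,13)]) (.cons 15 14 (.leaf [(20,25),(19,21),(7,13)]) (.cons 21 14 (.leaf [(19,20),(15,25),(7,13)]) (.cons 7 14 (.leaf [(13,25),(19,21),(15,20)]) (.cons 13 14 (.leaf [(7,25),(19,21),(15,20)]) (.cons 19 20 (.leaf [(7,25),(13,15),(14,21)]) (.cons 25 20 (.leaf [(7,19),(13,15),(14,21)]) .nil)))))))) (.cons 143 71 (.cons 14 20 (.leaf [(7,21),(13,15),(19,25)]) (.cons 20 14 (.leaf [(15,25),(19,21),(7,13)]) (.cons 15 14 (.leaf [(20,25),(19,21),(7,13)]) (.cons 21 14 (.leaf [(19,20),(15,25),(7,13)]) (.cons 7 14 (.leaf [(13,25),(19,21),(15,20)])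 (.cons 13 14 (.leaf [(7,25),(19,21),(15,20)]) (.cons 19 20 (.leaf [(7,25),(13,15),(14,21)]) (.cons 25 20 (.leaf [(7,19),(13,15),(14,21)]) .nil)))))))) (.cons 15 14 (.leaf [(20,25),(71,143),(19,21),(7,13)]) (.cons 21 14 (.leaf [(19,20),(71,143),(15,25),(7,13)]) (.cons 7 14 (.leaf [(71,143),(13,25),(19,21),(15,20)]) (.cons 13 14 (.leaf [(71,143),(7,25),(19,21),(15,20)]) (.cons 19 20 (.leaf [(71,143),(7,25),(13,15),(14,21)]) (.cons 25 20 (.leaf [(71,143),(7,19),(13,15),(14,21)]) .nil)))))))))) (.cons 14 20 (.leaf [(13,15),(35,140),(7,21),(71,143),(19,25)]) (.cons 140 35 (.cons 20 14 (.leaf [(15,25),(19,21),(7,13)]) (.cons 14 20 (.leaf [(13,15),(7,19)]) (.cons 15 20 (.leaf [(13,14),(7,19)]) (.cons 13 14 (.leaf [(7,25),(19,21),(15,20)]) (.cons 19 20 (.leaf [(7,25),(13,14)]) (.cons 25 20 (.leaf [(7,19),(13,14)]) (.cons 21 20 (.leaf [(7,13),(14,15)]) (.cons 7 20 (.leaf [(13,19),(14,15)]) .nil)))))))) (.cons 15 20 (.leaf [(13,14),(35,140),(71,143),(7,21),(19,25)])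 (.cons 13 14 (.leaf [(35,140),(7,25),(19,21),(15,20),(71,143)]) (.cons 19 20 (.leaf [(35,140),(7,21),(13,25),(14,15),(71,143)]) (.cons 21 20 (.leaf [(35,140),(7,14),(13,15),(71,143),(19,25)]) (.cons 25 20 (.leaf [(35,140),(7,21),(13,19),(14,15),(71,143)]) (.cons 71 35 (.cons 20 14 (.leaf [(15,25),(19,21),(7,13)]) (.cons 14 20 (.leaf [(13,15),(7,19)]) (.cons 15 20 (.leaf [(13,14),(7,19)]) (.cons 13 14 (.leaf [(7,25),(19,21),(15,20)]) (.cons 19 20 (.leaf [(7,25),(13,14)]) (.cons 25 20 (.leaf [(7,19),(13,14)]) (.cons 21 20 (.leaf [(7,13),(14,15)]) (.cons 7 20 (.leaf [(13,19),(14,15)]) .nil)))))))) (.cons 7 14 (.leaf [(35,140),(13,25),(19,21),(15,20),(71,143)]) (.cons 143 35 (.cons 20 14 (.leaf [(15,25),(19,21),(7,13)]) (.cons 14 20 (.leaf [(13,15),(7,19)]) (.cons 15 20 (.leaf [(13,14),(7,19)]) (.cons 13 14 (.leaf [(7,25),(19,21),(15,20)]) (.cons 19 20 (.leaf [(7,25),(13,14)]) (.cons 25 20 (.leaf [(7,19),(13,14)]) (.cons 21 20 (.leaf [(7,13),(14,15)])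 (.cons 7 20 (.leaf [(13,19),(14,15)]) .nil)))))))) .nil)))))))))))) (.cons 71 68 (.cons 20 14 (.leaf [(15,25),(19,21),(35,143),(70,140),(7,13)]) (.cons 35 143 (.cons 14 20 (.leaf [(7,21),(13,15),(70,140),(19,25)]) (.cons 20 14 (.leaf [(15,25),(19,21),(70,140),(7,13)]) (.cons 70 140 (.cons 14 20 (.leaf [(7,21),(13,15),(19,25)]) (.cons 20 14 (.leaf [(15,25),(19,21),(7,13)]) (.cons 15 14 (.leaf [(20,25),(19,21),(7,13)]) (.cons 21 14 (.leaf [(19,20),(15,25),(7,13)]) (.cons 7 14 (.leaf [(13,25),(19,21),(15,20)]) (.cons 13 14 (.leaf [(7,25),(19,21),(15,20)]) (.cons 19 20 (.leaf [(7,25),(13,15),(14,21)]) (.cons 25 20 (.leaf [(7,19),(13,15),(14,21)]) .nil)))))))) (.cons 140 70 (.cons 14 20 (.leaf [(7,21),(13,15),(19,25)]) (.cons 20 14 (.leaf [(15,25),(19,21),(7,13)]) (.cons 15 14 (.leaf [(20,25),(19,21),(7,13)]) (.cons 21 14 (.leaf [(19,20),(15,25),(7,13)]) (.cons 7 14 (.leaf [(13,25),(19,21),(15,20)]) (.cons 13 14 (.leaf [(7,25),(19,21),(15,20)]) (.cons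 19 20 (.leaf [(7,25),(13,15),(14,21)]) (.cons 25 20 (.leaf [(7,19),(13,15),(14,21)]) .nil)))))))) (.cons 15 14 (.leaf [(20,25),(70,140),(19,21),(7,13)]) (.cons 21 14 (.leaf [(19,20),(70,140),(15,25),(7,13)]) (.cons 7 14 (.leaf [(70,140),(13,25),(19,21),(15,20)]) (.cons 13 14 (.leaf [(70,140),(7,25),(19,21),(15,20)]) (.cons 19 20 (.leaf [(70,140),(7,25),(13,15),(14,21)]) (.cons 25 20 (.leaf [(70,140),(7,19),(13,15),(14,21)]) .nil)))))))))) (.cons 14 20 (.leaf [(13,15),(35,143),(7,21),(70,140),(19,25)]) (.cons 15 20 (.leaf [(13,14),(35,143),(70,140),(7,21),(19,25)]) (.cons 143 35 (.cons 20 14 (.leaf [(15,25),(19,21),(7,13)]) (.cons 14 20 (.leaf [(13,15),(7,19)]) (.cons 15 20 (.leaf [(13,14),(7,19)]) (.cons 13 14 (.leaf [(7,25),(19,21),(15,20)]) (.cons 19 20 (.leaf [(7,25),(13,14)]) (.cons 25 20 (.leaf [(7,19),(13,14)]) (.cons 21 20 (.leaf [(7,13),(14,15)]) (.cons 7 20 (.leaf [(13,19),(14,15)]) .nil)))))))) (.cons 13 14 (.leaf [(35,143),(7,25),(19,21),(15,20),(70,140)])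 (.cons 19 20 (.leaf [(35,143),(7,21),(13,25),(14,15),(70,140)]) (.cons 21 20 (.leaf [(35,143),(7,14),(13,15),(70,140),(19,25)]) (.cons 25 20 (.leaf [(35,143),(7,21),(13,19),(14,15),(70,140)]) (.cons 70 35 (.cons 20 14 (.leaf [(15,25),(19,21),(7,13)]) (.cons 14 20 (.leaf [(13,15),(7,19)]) (.cons 15 20 (.leaf [(13,14),(7,19)]) (.cons 13 14 (.leaf [(7,25),(19,21),(15,20)]) (.cons 19 20 (.leaf [(7,25),(13,14)]) (.cons 25 20 (.leaf [(7,19),(13,14)]) (.cons 21 20 (.leaf [(7,13),(14,15)]) (.cons 7 20 (.leaf [(13,19),(14,15)]) .nil)))))))) (.cons 7 14 (.leaf [(35,143),(13,25),(19,21),(15,20),(70,140)]) (.cons 140 35 (.cons 20 14 (.leaf [(15,25),(19,21),(7,13)]) (.cons 14 20 (.leaf [(13,15),(7,19)]) (.cons 15 20 (.leaf [(13,14),(7,19)]) (.cons 13 14 (.leaf [(7,25),(19,21),(15,20)]) (.cons 19 20 (.leaf [(7,25),(13,14)]) (.cons 25 20 (.leaf [(7,19),(13,14)]) (.cons 21 20 (.leaf [(7,13),(14,15)]) (.cons 7 20 (.leaf [(13,19),(14,15)]) .nil)))))))) .nil))))))))))))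 (.cons 15 20 (.cons 68 140 (.leaf [(13,14),(70,71),(35,143),(7,21),(19,25)]) (.cons 140 68 (.leaf [(13,14),(35,70),(71,143),(7,21),(19,25)]) (.cons 35 140 (.leaf [(13,14),(71,143),(7,21),(68,70),(19,25)]) (.cons 13 14 (.cons 68 140 (.leaf [(70,71),(7,19),(35,143)]) (.cons 140 68 (.leaf [(35,70),(7,19),(71,143)]) (.cons 35 140 (.leaf [(71,143),(7,19),(68,70)]) (.cons 70 68 (.leaf [(35,140),(7,19),(71,143)]) (.cons 71 68 (.leaf [(35,143),(7,19),(70,140)]) (.cons 7 68 (.leaf [(19,25),(35,71),(70,140)]) (.cons 143 35 (.leaf [(68,140),(7,19),(70,71)]) (.cons 19 68 (.leaf [(7,25),(35,71),(70,140)]) (.cons 25 68 (.leaf [(7,19),(35,71),(70,140)]) .nil))))))))) (.cons 14 13 (.cons 35 140 (.leaf [(7,21),(71,143),(68,70)]) (.cons 68 140 (.leaf [(70,71),(7,21),(35,143)]) (.cons 140 68 (.leaf [(35,70),(7,21),(71,143)]) (.cons 70 68 (.leaf [(35,140),(7,21),(71,143)]) (.cons 71 68 (.leaf [(35,143),(7,21),(70,140)]) (.cons 7 35 (.leaf [(68,140),(70,71)]) (.cons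 143 35 (.leaf [(68,140),(70,71)]) (.cons 21 35 (.leaf [(68,140),(70,71)]) .nil)))))))) (.cons 70 68 (.leaf [(13,14),(35,140),(71,143),(7,21),(19,25)]) (.cons 71 68 (.leaf [(13,14),(35,143),(70,140),(7,21),(19,25)]) (.cons 7 35 (.leaf [(13,14),(68,140),(19,25),(70,71)]) (.cons 143 35 (.leaf [(13,14),(68,140),(70,71),(7,19)]) (.cons 19 68 (.leaf [(13,14),(7,25),(21,35),(70,140),(71,143)]) (.cons 21 35 (.leaf [(13,14),(68,140),(70,71),(7,19)]) (.cons 25 68 (.leaf [(13,14),(7,19),(21,35),(70,140),(71,143)]) .nil)))))))))))) (.cons 13 20 (.cons 68 140 (.leaf [(14,15),(70,71),(7,21),(19,25),(35,143)]) (.cons 140 68 (.leaf [(14,15),(35,70),(7,21),(19,25),(71,143)]) (.cons 35 140 (.leaf [(14,15),(71,143),(7,21),(19,25),(68,70)]) (.cons 14 15 (.cons 35 140 (.leaf [(7,21),(71,143),(19,25),(68,70)]) (.cons 68 140 (.leaf [(70,71),(7,21),(19,25),(35,143)]) (.cons 140 68 (.leaf [(35,70),(7,21),(19,25),(71,143)]) (.cons 70 68 (.leaf [(35,140),(7,21),(19,25),(71,143)])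 (.cons 7 35 (.leaf [(19,25),(68,140),(70,71)]) (.cons 71 68 (.leaf [(35,143),(7,21),(19,25),(70,140)]) (.cons 143 35 (.leaf [(68,140),(7,19),(70,71)]) (.cons 19 35 (.leaf [(7,25),(68,140),(70,71)]) (.cons 21 35 (.leaf [(68,140),(7,19),(70,71)]) (.cons 25 35 (.leaf [(7,19),(68,140),(70,71)]) .nil)))))))))) (.cons 70 68 (.leaf [(14,15),(35,140),(7,21),(19,25),(71,143)]) (.cons 71 68 (.leaf [(14,15),(35,143),(7,21),(19,25),(70,140)]) (.cons 15 14 (.cons 68 140 (.leaf [(70,71),(7,19),(35,143)]) (.cons 140 68 (.leaf [(35,70),(7,19),(71,143)]) (.cons 35 140 (.leaf [(71,143),(7,19),(68,70)]) (.cons 70 68 (.leaf [(35,140),(7,19),(71,143)]) (.cons 71 68 (.leaf [(35,143),(7,19),(70,140)]) (.cons 7 68 (.leaf [(19,25),(35,71),(70,140)]) (.cons 143 35 (.leaf [(68,140),(7,19),(70,71)]) (.cons 19 68 (.leaf [(7,25),(35,71),(70,140)]) (.cons 25 68 (.leaf [(7,19),(35,71),(70,140)]) .nil))))))))) (.cons 7 35 (.leaf [(14,15),(19,25),(68,140),(70,71)]) (.cons 143 35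 (.leaf [(14,15),(68,140),(7,19),(70,71)]) (.cons 19 68 (.leaf [(7,25),(14,15),(21,35),(70,140),(71,143)]) (.cons 25 68 (.leaf [(7,19),(14,15),(21,35),(70,140),(71,143)]) (.cons 21 35 (.leaf [(14,15),(68,140),(7,19),(70,71)]) .nil)))))))))))) (.cons 19 20 (.cons 68 140 (.leaf [(70,71),(7,21),(13,25),(14,15),(35,143)]) (.cons 140 68 (.leaf [(35,70),(7,21),(13,25),(14,15),(71,143)]) (.cons 35 140 (.leaf [(71,143),(7,25),(13,15),(14,21),(68,70)]) (.cons 70 68 (.leaf [(35,140),(7,21),(13,25),(14,15),(71,143)]) (.cons 71 68 (.leaf [(35,143),(7,21),(13,25),(14,15),(70,140)]) (.cons 13 68 (.leaf [(7,25),(14,15),(21,35),(70,140),(71,143)]) (.cons 7 35 (.leaf [(13,25),(68,140),(14,15),(70,71)]) (.cons 14 35 (.leaf [(13,15),(68,140),(7,25),(70,71)]) (.cons 15 68 (.leaf [(13,14),(7,25),(21,35),(70,140),(71,143)]) (.cons 143 35 (.leaf [(68,140),(7,25),(13,14),(70,71)]) (.cons 25 68 (.leaf [(7,13),(14,15),(21,35),(70,140),(71,143)]) (.cons 21 35 (.leaf [(68,140),(7,25),(13,14),(70,71)])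 .nil)))))))))))) (.cons 21 20 (.cons 35 140 (.leaf [(7,14),(71,143),(13,15),(68,70),(19,25)]) (.cons 68 140 (.leaf [(70,71),(7,14),(13,15),(35,143),(19,25)]) (.cons 140 68 (.leaf [(35,70),(7,14),(13,15),(71,143),(19,25)]) (.cons 70 68 (.leaf [(35,140),(7,14),(13,15),(71,143),(19,25)]) (.cons 71 68 (.leaf [(35,143),(7,14),(13,15),(70,140),(19,25)]) (.cons 14 35 (.leaf [(13,15),(68,140),(70,71),(7,19)]) (.cons 7 35 (.leaf [(68,140),(13,19),(14,15),(70,71)]) (.cons 13 35 (.leaf [(14,15),(68,140),(7,19),(70,71)]) (.cons 15 35 (.leaf [(13,14),(68,140),(70,71),(7,19)]) (.cons 143 35 (.leaf [(68,140),(7,13),(14,15),(70,71)]) (.cons 19 35 (.leaf [(68,140),(7,25),(13,14),(70,71)]) (.cons 25 35 (.leaf [(68,140),(7,19),(13,14),(70,71)]) .nil)))))))))))) (.cons 25 20 (.cons 68 140 (.leaf [(70,71),(7,21),(13,19),(14,15),(35,143)]) (.cons 140 68 (.leaf [(35,70),(7,21),(13,19),(14,15),(71,143)]) (.cons 35 140 (.leaf [(71,143),(7,19),(13,15),(14,21),(68,70)]) (.cons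 70 68 (.leaf [(35,140),(7,21),(13,19),(14,15),(71,143)]) (.cons 71 68 (.leaf [(35,143),(7,21),(13,19),(14,15),(70,140)]) (.cons 13 68 (.leaf [(7,19),(14,15),(21,35),(70,140),(71,143)]) (.cons 7 35 (.leaf [(13,19),(68,140),(14,15),(70,71)]) (.cons 14 35 (.leaf [(13,15),(68,140),(7,19),(70,71)]) (.cons 15 68 (.leaf [(13,14),(7,19),(21,35),(70,140),(71,143)]) (.cons 143 35 (.leaf [(68,140),(7,19),(13,14),(70,71)]) (.cons 19 68 (.leaf [(7,13),(14,15),(21,35),(70,140),(71,143)]) (.cons 21 35 (.leaf [(68,140),(7,19),(13,14),(70,71)]) .nil)))))))))))) (.cons 7 20 (.cons 35 140 (.leaf [(14,21),(71,143),(13,15),(19,25),(68,70)]) (.cons 68 140 (.leaf [(70,71),(13,15),(14,21),(19,25),(35,143)]) (.cons 140 68 (.leaf [(35,70),(13,15),(14,21),(19,25),(71,143)]) (.cons 70 68 (.leaf [(35,140),(13,15),(14,21),(19,25),(71,143)]) (.cons 71 68 (.leaf [(35,143),(13,15),(14,21),(19,25),(70,140)]) (.cons 13 35 (.leaf [(14,15),(19,25),(68,140),(70,71)]) (.cons 14 35 (.leaf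 [(13,15),(68,140),(19,25),(70,71)]) (.cons 15 35 (.leaf [(13,14),(68,140),(19,25),(70,71)]) (.cons 143 35 (.leaf [(68,140),(13,19),(14,15),(70,71)]) (.cons 19 35 (.leaf [(13,25),(68,140),(14,15),(70,71)]) (.cons 21 35 (.leaf [(68,140),(13,19),(14,15),(70,71)]) (.cons 25 35 (.leaf [(13,19),(68,140),(14,15),(70,71)]) .nil)))))))))))) (.cons 143 35 (.cons 20 14 (.leaf [(15,25),(19,21),(68,140),(70,71),(7,13)]) (.cons 68 140 (.cons 20 14 (.leaf [(15,25),(19,21),(70,71),(7,13)]) (.cons 14 20 (.leaf [(13,15),(70,71),(7,19)]) (.cons 70 71 (.cons 20 14 (.leaf [(15,25),(19,21),(7,13)]) (.cons 14 20 (.leaf [(13,15),(7,19)]) (.cons 15 20 (.leaf [(13,14),(7,19)]) (.cons 13 14 (.leaf [(7,25),(19,21),(15,20)]) (.cons 19 20 (.leaf [(7,25),(13,14)]) (.cons 25 20 (.leaf [(7,19),(13,14)]) (.cons 21 20 (.leaf [(7,13),(14,15)]) (.cons 7 20 (.leaf [(13,19),(14,15)]) .nil)))))))) (.cons 71 70 (.cons 20 14 (.leaf [(15,25),(19,21),(7,13)]) (.cons 14 20 (.leaf [(13,15),(7,19)])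 (.cons 15 20 (.leaf [(13,14),(7,19)]) (.cons 13 14 (.leaf [(7,25),(19,21),(15,20)]) (.cons 19 20 (.leaf [(7,25),(13,14)]) (.cons 25 20 (.leaf [(7,19),(13,14)]) (.cons 21 20 (.leaf [(7,13),(14,15)]) (.cons 7 20 (.leaf [(13,19),(14,15)]) .nil)))))))) (.cons 15 20 (.leaf [(13,14),(70,71),(7,19)]) (.cons 13 14 (.leaf [(70,71),(7,25),(19,21),(15,20)]) (.cons 19 20 (.leaf [(70,71),(7,25),(13,14)]) (.cons 25 20 (.leaf [(70,71),(7,19),(13,14)]) (.cons 21 20 (.leaf [(70,71),(7,13),(14,15)]) (.cons 7 20 (.leaf [(70,71),(13,19),(14,15)]) .nil)))))))))) (.cons 14 20 (.leaf [(13,15),(68,140),(70,71),(7,19)]) (.cons 140 68 (.cons 20 14 (.leaf [(15,25),(19,21),(7,13)]) (.cons 14 20 (.leaf [(13,15),(7,19)]) (.cons 15 20 (.leaf [(13,14),(7,19)]) (.cons 13 14 (.leaf [(7,25),(19,21),(15,20)]) (.cons 19 20 (.leaf [(7,25),(13,14)]) (.cons 25 20 (.leaf [(7,19),(13,14)]) (.cons 21 20 (.leaf [(7,13),(14,15)]) (.cons 7 20 (.leaf [(13,19),(14,15)]) .nil)))))))) (.cons 15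 20 (.leaf [(13,14),(68,140),(70,71),(7,19)]) (.cons 13 14 (.leaf [(68,140),(7,25),(19,21),(15,20),(70,71)]) (.cons 19 20 (.leaf [(68,140),(7,25),(13,14),(70,71)]) (.cons 25 20 (.leaf [(68,140),(7,19),(13,14),(70,71)]) (.cons 70 68 (.cons 20 14 (.leaf [(15,25),(19,21),(7,13)]) (.cons 14 20 (.leaf [(13,15),(7,19)]) (.cons 15 20 (.leaf [(13,14),(7,19)]) (.cons 13 14 (.leaf [(7,25),(19,21),(15,20)]) (.cons 19 20 (.leaf [(7,25),(13,14)]) (.cons 25 20 (.leaf [(7,19),(13,14)]) (.cons 21 20 (.leaf [(7,13),(14,15)]) (.cons 7 20 (.leaf [(13,19),(14,15)]) .nil)))))))) (.cons 71 68 (.cons 20 14 (.leaf [(15,25),(19,21),(7,13)]) (.cons 14 20 (.leaf [(13,15),(7,19)]) (.cons 15 20 (.leaf [(13,14),(7,19)]) (.cons 13 14 (.leaf [(7,25),(19,21),(15,20)]) (.cons 19 20 (.leaf [(7,25),(13,14)]) (.cons 25 20 (.leaf [(7,19),(13,14)]) (.cons 21 20 (.leaf [(7,13),(14,15)]) (.cons 7 20 (.leaf [(13,19),(14,15)]) .nil)))))))) (.cons 21 20 (.leaf [(68,140),(7,13),(14,15),(70,71)])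 (.cons 7 20 (.leaf [(68,140),(13,19),(14,15),(70,71)]) .nil)))))))))))) .nil))))))))))))))

/-- The masks of block 4. -/
def m4 : List ℕ := [0x800204080, 0x2082080, 0x104000, 0x2108000, 0xe000, 0x380000, 0x100000000000000000100000000000000000, 0x100000000000000000400000000800000000, 0x800000000000000000800000000800000000, 0xd00000000000000000]

/-- The strategy tree of block 5. -/
def t5 : Tr := (.cons 37 40 (.cons 74 148 (.leaf [(2,146),(31,32),(1,4),(73,145),(75,76)]) (.cons 148 74 (.leaf [(31,32),(145,146),(1,73),(2,4)]) (.cons 32 31 (.cons 74 148 (.leaf [(2,146),(1,4),(73,145),(75,76)]) (.cons 148 74 (.leaf [(145,146),(1,73),(2,4)]) (.cons 1 74 (.leaf [(2,4),(73,145),(146,148)]) (.cons 2 74 (.leaf [(1,4),(73,145),(146,148)]) (.cons 145 148 (.leaf [(1,73),(2,4),(74,146),(75,76)]) (.cons 146 74 (.leaf [(145,148),(1,73),(2,4)]) (.cons 73 74 (.leaf [(1,145),(2,4),(146,148)]) (.cons 4 74 (.leaf [(1,2),(73,145),(146,148)]) (.cons 75 74 (.leaf [(1,73),(2,4),(145,146)])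 (.cons 76 74 (.leaf [(1,73),(2,4),(145,146)]) .nil)))))))))) (.cons 1 74 (.leaf [(2,4),(31,32),(73,145),(146,148)]) (.cons 2 74 (.leaf [(1,4),(31,32),(73,145),(146,148)]) (.cons 145 148 (.leaf [(1,73),(31,32),(2,4),(74,146),(75,76)]) (.cons 146 74 (.leaf [(31,32),(145,148),(1,73),(2,4)]) (.cons 31 32 (.cons 74 148 (.leaf [(2,146),(1,4),(73,145),(75,76)]) (.cons 148 74 (.leaf [(145,146),(1,73),(2,4)]) (.cons 1 74 (.leaf [(2,4),(73,145),(146,148)]) (.cons 2 74 (.leaf [(1,4),(73,145),(146,148)]) (.cons 145 148 (.leaf [(1,73),(2,4),(74,146),(75,76)]) (.cons 146 74 (.leaf [(145,148),(1,73),(2,4)]) (.cons 73 74 (.leaf [(1,145),(2,4),(146,148)]) (.cons 4 74 (.leaf [(1,2),(73,145),(146,148)]) (.cons 75 74 (.leaf [(1,73),(2,4),(145,146)]) (.cons 76 74 (.leaf [(1,73),(2,4),(145,146)]) .nil)))))))))) (.cons 73 74 (.leaf [(1,145),(31,32),(2,4),(146,148)]) (.cons 4 74 (.leaf [(1,2),(31,32),(73,145),(146,148)]) (.cons 75 74 (.leaf [(31,32),(1,73),(2,4),(145,146)])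 (.cons 76 74 (.leaf [(31,32),(1,73),(2,4),(145,146)]) .nil)))))))))))) (.cons 40 37 (.cons 145 75 (.cons 146 148 (.leaf [(2,74),(31,32),(1,4)]) (.cons 148 146 (.leaf [(4,76),(31,32),(1,2)]) (.cons 32 31 (.cons 146 148 (.leaf [(2,74),(1,4)]) (.cons 148 146 (.leaf [(4,76),(1,2)]) (.cons 2 146 (.leaf [(1,4),(76,148)]) (.cons 4 148 (.leaf [(1,2),(74,146)]) (.cons 1 2 (.leaf [(146,148),(4,76)]) (.cons 74 146 (.leaf [(1,2),(4,76)]) (.cons 76 148 (.leaf [(1,4),(2,74)]) .nil))))))) (.cons 2 146 (.leaf [(1,4),(31,32),(76,148)]) (.cons 4 148 (.leaf [(1,2),(31,32),(74,146)]) (.cons 31 32 (.cons 146 148 (.leaf [(2,74),(1,4)]) (.cons 148 146 (.leaf [(4,76),(1,2)]) (.cons 2 146 (.leaf [(1,4),(76,148)]) (.cons 4 148 (.leaf [(1,2),(74,146)]) (.cons 1 2 (.leaf [(146,148),(4,76)]) (.cons 74 146 (.leaf [(1,2),(4,76)]) (.cons 76 148 (.leaf [(1,4),(2,74)]) .nil))))))) (.cons 1 2 (.leaf [(31,32),(146,148),(4,76)]) (.cons 74 146 (.leaf [(31,32),(1,2),(4,76)]) (.cons 76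 148 (.leaf [(31,32),(1,4),(2,74)]) .nil))))))))) (.cons 75 145 (.leaf [(31,32),(1,4),(2,146),(73,74),(76,148)]) (.cons 32 31 (.cons 145 75 (.cons 146 148 (.leaf [(2,74),(1,4)]) (.cons 148 146 (.leaf [(4,76),(1,2)]) (.cons 2 146 (.leaf [(1,4),(76,148)]) (.cons 4 148 (.leaf [(1,2),(74,146)]) (.cons 1 2 (.leaf [(146,148),(4,76)]) (.cons 74 146 (.leaf [(1,2),(4,76)]) (.cons 76 148 (.leaf [(1,4),(2,74)]) .nil))))))) (.cons 75 145 (.leaf [(1,4),(2,146),(73,74),(76,148)]) (.cons 2 145 (.leaf [(1,4),(74,146),(76,148),(73,75)]) (.cons 4 145 (.leaf [(1,2),(76,148),(74,146),(73,75)]) (.cons 146 145 (.leaf [(2,74),(1,4),(76,148),(73,75)]) (.cons 148 145 (.leaf [(4,76),(1,2),(74,146),(73,75)]) (.cons 74 145 (.leaf [(2,146),(1,4),(76,148),(73,75)]) (.cons 76 145 (.leaf [(4,148),(1,2),(74,146),(73,75)]) (.cons 1 2 (.leaf [(75,145),(4,76),(146,148),(73,74)]) (.cons 73 75 (.leaf [(1,4),(2,74),(145,146),(76,148)]) .nil)))))))))) (.cons 2 145 (.leaf [(1,4),(31,32),(74,146),(76,148),(73,75)])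 (.cons 4 145 (.leaf [(1,2),(31,32),(76,148),(74,146),(73,75)]) (.cons 146 145 (.leaf [(2,74),(31,32),(1,4),(76,148),(73,75)]) (.cons 148 145 (.leaf [(4,76),(31,32),(1,2),(74,146),(73,75)]) (.cons 31 32 (.cons 145 75 (.cons 146 148 (.leaf [(2,74),(1,4)]) (.cons 148 146 (.leaf [(4,76),(1,2)]) (.cons 2 146 (.leaf [(1,4),(76,148)]) (.cons 4 148 (.leaf [(1,2),(74,146)]) (.cons 1 2 (.leaf [(146,148),(4,76)]) (.cons 74 146 (.leaf [(1,2),(4,76)]) (.cons 76 148 (.leaf [(1,4),(2,74)]) .nil))))))) (.cons 75 145 (.leaf [(1,4),(2,146),(73,74),(76,148)]) (.cons 2 145 (.leaf [(1,4),(74,146),(76,148),(73,75)]) (.cons 4 145 (.leaf [(1,2),(76,148),(74,146),(73,75)]) (.cons 146 145 (.leaf [(2,74),(1,4),(76,148),(73,75)]) (.cons 148 145 (.leaf [(4,76),(1,2),(74,146),(73,75)]) (.cons 74 145 (.leaf [(2,146),(1,4),(76,148),(73,75)]) (.cons 76 145 (.leaf [(4,148),(1,2),(74,146),(73,75)]) (.cons 1 2 (.leaf [(75,145),(4,76),(146,148),(73,74)]) (.cons 73 75 (.leaf [(1,4),(2,74),(145,146),(76,148)])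 .nil)))))))))) (.cons 74 145 (.leaf [(2,146),(31,32),(1,4),(76,148),(73,75)]) (.cons 76 145 (.leaf [(4,148),(31,32),(1,2),(74,146),(73,75)]) (.cons 1 2 (.leaf [(31,32),(75,145),(4,76),(146,148),(73,74)]) (.cons 73 75 (.leaf [(31,32),(1,4),(2,74),(145,146),(76,148)]) .nil)))))))))))) (.cons 74 37 (.cons 2 146 (.leaf [(1,4),(31,32),(40,148),(75,145),(73,76)]) (.cons 146 2 (.cons 145 148 (.leaf [(31,32),(40,75),(73,76)]) (.cons 148 145 (.leaf [(31,32),(4,40),(73,75)]) (.cons 32 31 (.cons 145 148 (.leaf [(40,75),(73,76)]) (.cons 148 145 (.leaf [(4,40),(73,75)]) (.cons 75 145 (.leaf [(73,76),(4,40)]) (.cons 40 145 (.leaf [(4,76),(73,75)]) (.cons 76 75 (.leaf [(145,148),(4,40)]) (.cons 73 75 (.leaf [(145,148),(4,40)]) (.cons 4 145 (.leaf [(40,76),(73,75)]) .nil))))))) (.cons 75 145 (.leaf [(31,32),(73,76),(4,40)]) (.cons 31 32 (.cons 145 148 (.leaf [(40,75),(73,76)]) (.cons 148 145 (.leaf [(4,40),(73,75)]) (.cons 75 145 (.leaf [(73,76),(4,40)]) (.cons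 40 145 (.leaf [(4,76),(73,75)]) (.cons 76 75 (.leaf [(145,148),(4,40)]) (.cons 73 75 (.leaf [(145,148),(4,40)]) (.cons 4 145 (.leaf [(40,76),(73,75)]) .nil))))))) (.cons 40 145 (.leaf [(31,32),(4,76),(73,75)]) (.cons 76 75 (.leaf [(31,32),(145,148),(4,40)]) (.cons 73 75 (.leaf [(31,32),(145,148),(4,40)]) (.cons 4 145 (.leaf [(31,32),(40,76),(73,75)]) .nil))))))))) (.cons 32 31 (.cons 2 146 (.leaf [(1,4),(40,148),(75,145),(73,76)]) (.cons 146 2 (.cons 145 148 (.leaf [(40,75),(73,76)]) (.cons 148 145 (.leaf [(4,40),(73,75)]) (.cons 75 145 (.leaf [(73,76),(4,40)]) (.cons 40 145 (.leaf [(4,76),(73,75)]) (.cons 76 75 (.leaf [(145,148),(4,40)]) (.cons 73 75 (.leaf [(145,148),(4,40)]) (.cons 4 145 (.leaf [(40,76),(73,75)]) .nil))))))) (.cons 75 145 (.leaf [(2,146),(73,76),(1,4),(40,148)]) (.cons 145 146 (.leaf [(40,75),(1,2),(73,76),(4,148)]) (.cons 4 146 (.leaf [(1,2),(40,145),(73,75),(76,148)]) (.cons 40 145 (.leaf [(2,146),(1,4),(76,148),(73,75)]) (.cons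 76 146 (.leaf [(73,75),(1,2),(4,148),(40,145)]) (.cons 148 146 (.leaf [(1,2),(4,76),(40,145),(73,75)]) (.cons 1 2 (.leaf [(4,40),(75,145),(73,76),(146,148)]) (.cons 73 75 (.leaf [(2,146),(1,4),(145,148),(40,76)]) .nil)))))))))) (.cons 75 145 (.leaf [(2,146),(31,32),(73,76),(1,4),(40,148)]) (.cons 145 146 (.leaf [(31,32),(40,75),(1,2),(73,76),(4,148)]) (.cons 31 32 (.cons 2 146 (.leaf [(1,4),(40,148),(75,145),(73,76)]) (.cons 146 2 (.cons 145 148 (.leaf [(40,75),(73,76)]) (.cons 148 145 (.leaf [(4,40),(73,75)]) (.cons 75 145 (.leaf [(73,76),(4,40)]) (.cons 40 145 (.leaf [(4,76),(73,75)]) (.cons 76 75 (.leaf [(145,148),(4,40)]) (.cons 73 75 (.leaf [(145,148),(4,40)]) (.cons 4 145 (.leaf [(40,76),(73,75)]) .nil))))))) (.cons 75 145 (.leaf [(2,146),(73,76),(1,4),(40,148)]) (.cons 145 146 (.leaf [(40,75),(1,2),(73,76),(4,148)]) (.cons 4 146 (.leaf [(1,2),(40,145),(73,75),(76,148)]) (.cons 40 145 (.leaf [(2,146),(1,4),(76,148),(73,75)]) (.cons 76 146 (.leaf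 [(73,75),(1,2),(4,148),(40,145)]) (.cons 148 146 (.leaf [(1,2),(4,76),(40,145),(73,75)]) (.cons 1 2 (.leaf [(4,40),(75,145),(73,76),(146,148)]) (.cons 73 75 (.leaf [(2,146),(1,4),(145,148),(40,76)]) .nil)))))))))) (.cons 4 146 (.leaf [(1,2),(31,32),(40,145),(73,75),(76,148)]) (.cons 40 145 (.leaf [(2,146),(31,32),(1,4),(76,148),(73,75)]) (.cons 76 146 (.leaf [(31,32),(73,75),(1,2),(4,148),(40,145)]) (.cons 148 146 (.leaf [(31,32),(1,2),(4,76),(40,145),(73,75)]) (.cons 1 2 (.leaf [(31,32),(4,40),(75,145),(73,76),(146,148)]) (.cons 73 75 (.leaf [(2,146),(31,32),(1,4),(145,148),(40,76)]) .nil)))))))))))) (.cons 145 40 (.cons 146 148 (.leaf [(2,74),(31,32),(1,4),(37,73),(75,76)]) (.cons 148 146 (.leaf [(31,32),(37,74),(1,73),(2,4),(75,76)]) (.cons 74 146 (.leaf [(31,32),(37,148),(1,73),(2,4),(75,76)]) (.cons 32 31 (.cons 146 148 (.leaf [(2,74),(1,4),(37,73),(75,76)]) (.cons 148 146 (.leaf [(37,74),(1,73),(2,4),(75,76)]) (.cons 74 146 (.leaf [(37,148),(1,73),(2,4),(75,76)])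 (.cons 1 146 (.leaf [(2,4),(37,73),(74,148),(75,76)]) (.cons 2 146 (.leaf [(1,4),(37,73),(74,148),(75,76)]) (.cons 37 148 (.leaf [(1,73),(2,4),(74,146),(75,76)]) (.cons 73 37 (.leaf [(146,148),(1,4),(2,74),(75,76)]) (.cons 4 2 (.leaf [(146,148),(1,73),(37,74),(75,76)]) (.cons 75 74 (.leaf [(146,148),(1,37),(2,4)]) (.cons 76 74 (.leaf [(146,148),(1,37),(2,4)]) .nil)))))))))) (.cons 1 146 (.leaf [(2,4),(31,32),(37,73),(74,148),(75,76)]) (.cons 2 146 (.leaf [(1,4),(31,32),(37,73),(74,148),(75,76)]) (.cons 37 148 (.leaf [(1,73),(31,32),(2,4),(74,146),(75,76)]) (.cons 31 32 (.cons 146 148 (.leaf [(2,74),(1,4),(37,73),(75,76)]) (.cons 148 146 (.leaf [(37,74),(1,73),(2,4),(75,76)]) (.cons 74 146 (.leaf [(37,148),(1,73),(2,4),(75,76)]) (.cons 1 146 (.leaf [(2,4),(37,73),(74,148),(75,76)]) (.cons 2 146 (.leaf [(1,4),(37,73),(74,148),(75,76)]) (.cons 37 148 (.leaf [(1,73),(2,4),(74,146),(75,76)]) (.cons 73 37 (.leaf [(146,148),(1,4),(2,74),(75,76)]) (.cons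 4 2 (.leaf [(146,148),(1,73),(37,74),(75,76)]) (.cons 75 74 (.leaf [(146,148),(1,37),(2,4)]) (.cons 76 74 (.leaf [(146,148),(1,37),(2,4)]) .nil)))))))))) (.cons 73 37 (.leaf [(31,32),(146,148),(1,4),(2,74),(75,76)]) (.cons 4 2 (.leaf [(31,32),(146,148),(1,73),(37,74),(75,76)]) (.cons 75 74 (.leaf [(31,32),(146,148),(1,37),(2,4)]) (.cons 76 74 (.leaf [(31,32),(146,148),(1,37),(2,4)]) .nil)))))))))))) (.cons 148 37 (.cons 145 146 (.leaf [(31,32),(40,75),(1,2),(4,76),(73,74)]) (.cons 146 145 (.leaf [(2,74),(31,32),(1,4),(40,76),(73,75)]) (.cons 32 31 (.cons 145 146 (.leaf [(40,75),(1,2),(4,76),(73,74)]) (.cons 146 145 (.leaf [(2,74),(1,4),(40,76),(73,75)]) (.cons 2 146 (.leaf [(1,4),(40,76),(75,145),(73,74)]) (.cons 4 145 (.leaf [(1,2),(40,76),(74,146),(73,75)]) (.cons 40 145 (.leaf [(4,76),(1,2),(74,146),(73,75)]) (.cons 74 146 (.leaf [(1,2),(4,76),(40,145),(73,75)]) (.cons 75 145 (.leaf [(1,4),(2,146),(73,74),(40,76)]) (.cons 76 40 (.leaf [(145,146),(1,4),(2,74),(73,75)])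 (.cons 1 2 (.leaf [(145,146),(4,76),(40,75),(73,74)]) (.cons 73 145 (.leaf [(1,4),(2,146),(74,75),(40,76)]) .nil)))))))))) (.cons 2 146 (.leaf [(1,4),(31,32),(40,76),(75,145),(73,74)]) (.cons 4 145 (.leaf [(1,2),(31,32),(40,76),(74,146),(73,75)]) (.cons 40 145 (.leaf [(4,76),(31,32),(1,2),(74,146),(73,75)]) (.cons 31 32 (.cons 145 146 (.leaf [(40,75),(1,2),(4,76),(73,74)]) (.cons 146 145 (.leaf [(2,74),(1,4),(40,76),(73,75)]) (.cons 2 146 (.leaf [(1,4),(40,76),(75,145),(73,74)]) (.cons 4 145 (.leaf [(1,2),(40,76),(74,146),(73,75)]) (.cons 40 145 (.leaf [(4,76),(1,2),(74,146),(73,75)]) (.cons 74 146 (.leaf [(1,2),(4,76),(40,145),(73,75)]) (.cons 75 145 (.leaf [(1,4),(2,146),(73,74),(40,76)]) (.cons 76 40 (.leaf [(145,146),(1,4),(2,74),(73,75)]) (.cons 1 2 (.leaf [(145,146),(4,76),(40,75),(73,74)]) (.cons 73 145 (.leaf [(1,4),(2,146),(74,75),(40,76)]) .nil)))))))))) (.cons 74 146 (.leaf [(31,32),(1,2),(4,76),(40,145),(73,75)]) (.cons 75 145 (.leaf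 [(31,32),(1,4),(2,146),(73,74),(40,76)]) (.cons 76 40 (.leaf [(31,32),(145,146),(1,4),(2,74),(73,75)]) (.cons 1 2 (.leaf [(31,32),(145,146),(4,76),(40,75),(73,74)]) (.cons 73 145 (.leaf [(31,32),(1,4),(2,146),(74,75),(40,76)]) .nil)))))))))))) (.cons 32 31 (.cons 37 40 (.cons 74 148 (.leaf [(2,146),(1,4),(73,145),(75,76)]) (.cons 148 74 (.leaf [(145,146),(1,73),(2,4)]) (.cons 1 74 (.leaf [(2,4),(73,145),(146,148)]) (.cons 2 74 (.leaf [(1,4),(73,145),(146,148)]) (.cons 145 148 (.leaf [(1,73),(2,4),(74,146),(75,76)]) (.cons 146 74 (.leaf [(145,148),(1,73),(2,4)]) (.cons 73 74 (.leaf [(1,145),(2,4),(146,148)]) (.cons 4 74 (.leaf [(1,2),(73,145),(146,148)]) (.cons 75 74 (.leaf [(1,73),(2,4),(145,146)]) (.cons 76 74 (.leaf [(1,73),(2,4),(145,146)]) .nil)))))))))) (.cons 40 37 (.cons 145 75 (.cons 146 148 (.leaf [(2,74),(1,4)]) (.cons 148 146 (.leaf [(4,76),(1,2)]) (.cons 2 146 (.leaf [(1,4),(76,148)]) (.cons 4 148 (.leaf [(1,2),(74,146)]) (.cons 1 2 (.leaf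 [(146,148),(4,76)]) (.cons 74 146 (.leaf [(1,2),(4,76)]) (.cons 76 148 (.leaf [(1,4),(2,74)]) .nil))))))) (.cons 75 145 (.leaf [(1,4),(2,146),(73,74),(76,148)]) (.cons 2 145 (.leaf [(1,4),(74,146),(76,148),(73,75)]) (.cons 4 145 (.leaf [(1,2),(76,148),(74,146),(73,75)]) (.cons 146 145 (.leaf [(2,74),(1,4),(76,148),(73,75)]) (.cons 148 145 (.leaf [(4,76),(1,2),(74,146),(73,75)]) (.cons 74 145 (.leaf [(2,146),(1,4),(76,148),(73,75)]) (.cons 76 145 (.leaf [(4,148),(1,2),(74,146),(73,75)]) (.cons 1 2 (.leaf [(75,145),(4,76),(146,148),(73,74)]) (.cons 73 75 (.leaf [(1,4),(2,74),(145,146),(76,148)]) .nil)))))))))) (.cons 74 37 (.cons 2 146 (.leaf [(1,4),(40,148),(75,145),(73,76)]) (.cons 146 2 (.cons 145 148 (.leaf [(40,75),(73,76)]) (.cons 148 145 (.leaf [(4,40),(73,75)]) (.cons 75 145 (.leaf [(73,76),(4,40)]) (.cons 40 145 (.leaf [(4,76),(73,75)]) (.cons 76 75 (.leaf [(145,148),(4,40)]) (.cons 73 75 (.leaf [(145,148),(4,40)]) (.cons 4 145 (.leaf [(40,76),(73,75)])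 .nil))))))) (.cons 75 145 (.leaf [(2,146),(73,76),(1,4),(40,148)]) (.cons 145 146 (.leaf [(40,75),(1,2),(73,76),(4,148)]) (.cons 4 146 (.leaf [(1,2),(40,145),(73,75),(76,148)]) (.cons 40 145 (.leaf [(2,146),(1,4),(76,148),(73,75)]) (.cons 76 146 (.leaf [(73,75),(1,2),(4,148),(40,145)]) (.cons 148 146 (.leaf [(1,2),(4,76),(40,145),(73,75)]) (.cons 1 2 (.leaf [(4,40),(75,145),(73,76),(146,148)]) (.cons 73 75 (.leaf [(2,146),(1,4),(145,148),(40,76)]) .nil)))))))))) (.cons 145 40 (.cons 146 148 (.leaf [(2,74),(1,4),(37,73),(75,76)]) (.cons 148 146 (.leaf [(37,74),(1,73),(2,4),(75,76)]) (.cons 74 146 (.leaf [(37,148),(1,73),(2,4),(75,76)]) (.cons 1 146 (.leaf [(2,4),(37,73),(74,148),(75,76)]) (.cons 2 146 (.leaf [(1,4),(37,73),(74,148),(75,76)]) (.cons 37 148 (.leaf [(1,73),(2,4),(74,146),(75,76)]) (.cons 73 37 (.leaf [(146,148),(1,4),(2,74),(75,76)]) (.cons 4 2 (.leaf [(146,148),(1,73),(37,74),(75,76)]) (.cons 75 74 (.leaf [(146,148),(1,37),(2,4)]) (.cons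 76 74 (.leaf [(146,148),(1,37),(2,4)]) .nil)))))))))) (.cons 148 37 (.cons 145 146 (.leaf [(40,75),(1,2),(4,76),(73,74)]) (.cons 146 145 (.leaf [(2,74),(1,4),(40,76),(73,75)]) (.cons 2 146 (.leaf [(1,4),(40,76),(75,145),(73,74)]) (.cons 4 145 (.leaf [(1,2),(40,76),(74,146),(73,75)]) (.cons 40 145 (.leaf [(4,76),(1,2),(74,146),(73,75)]) (.cons 74 146 (.leaf [(1,2),(4,76),(40,145),(73,75)]) (.cons 75 145 (.leaf [(1,4),(2,146),(73,74),(40,76)]) (.cons 76 40 (.leaf [(145,146),(1,4),(2,74),(73,75)]) (.cons 1 2 (.leaf [(145,146),(4,76),(40,75),(73,74)]) (.cons 73 145 (.leaf [(1,4),(2,146),(74,75),(40,76)]) .nil)))))))))) (.cons 2 40 (.cons 74 146 (.leaf [(1,4),(37,148),(73,145),(75,76)]) (.cons 146 74 (.leaf [(1,4),(145,148),(37,73)]) (.cons 1 4 (.cons 74 146 (.leaf [(37,148),(73,145),(75,76)]) (.cons 146 74 (.leaf [(145,148),(37,73)]) (.cons 37 74 (.leaf [(73,145),(146,148)]) (.cons 145 146 (.leaf [(37,73),(74,148),(75,76)]) (.cons 148 74 (.leaf [(145,146),(37,73)])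 (.cons 73 74 (.leaf [(37,145),(146,148)]) (.cons 75 74 (.leaf [(37,73),(145,146)]) (.cons 76 74 (.leaf [(37,73),(145,146)]) .nil)))))))) (.cons 4 1 (.cons 74 146 (.leaf [(37,148),(73,75)]) (.cons 146 74 (.leaf [(145,148)]) (.cons 148 74 (.leaf [(145,146)]) (.cons 37 74 (.leaf [(145,146)]) (.cons 145 146 (.leaf [(37,148),(73,74)]) (.cons 73 74 (.leaf [(145,146)]) (.cons 75 74 (.leaf [(145,146)]) (.cons 76 74 (.leaf [(145,146)]) .nil)))))))) (.cons 148 74 (.leaf [(1,4),(145,146),(37,73)]) (.cons 37 74 (.leaf [(1,4),(73,145),(146,148)]) (.cons 145 146 (.leaf [(1,4),(37,73),(74,148),(75,76)]) (.cons 73 74 (.leaf [(1,4),(37,145),(146,148)]) (.cons 75 74 (.leaf [(1,4),(145,146),(37,73)]) (.cons 76 74 (.leaf [(1,4),(145,146),(37,73)]) .nil)))))))))) (.cons 146 37 (.cons 2 74 (.cons 145 148 (.leaf [(1,4),(40,75)]) (.cons 4 1 (.cons 145 148 (.leaf [(40,75)]) (.cons 148 145 (.leaf [(40,76)]) (.cons 40 145 (.leaf [(76,148)]) (.cons 75 145 (.leaf [(40,76)])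 (.cons 76 148 (.leaf [(40,75)]) .nil))))) (.cons 148 145 (.leaf [(1,4),(40,76)]) (.cons 1 4 (.leaf [(145,148),(40,75)]) (.cons 40 145 (.leaf [(1,4),(76,148)]) (.cons 75 145 (.leaf [(1,4),(40,76)]) (.cons 76 145 (.leaf [(1,4),(40,148)]) .nil))))))) (.cons 145 148 (.leaf [(2,74),(40,75),(1,4),(73,76)]) (.cons 74 2 (.cons 145 148 (.leaf [(40,75),(73,76)]) (.cons 148 145 (.leaf [(4,40),(73,75)]) (.cons 75 145 (.leaf [(73,76),(4,40)]) (.cons 40 145 (.leaf [(4,76),(73,75)]) (.cons 76 75 (.leaf [(145,148),(4,40)]) (.cons 73 75 (.leaf [(145,148),(4,40)]) (.cons 4 145 (.leaf [(40,76),(73,75)]) .nil))))))) (.cons 148 145 (.leaf [(2,74),(1,4),(40,76),(73,75)]) (.cons 4 2 (.cons 145 148 (.leaf [(40,75),(73,74)]) (.cons 148 145 (.leaf [(40,76),(73,74)]) (.cons 40 145 (.leaf [(76,148),(73,74)]) (.cons 75 145 (.leaf [(40,76),(73,74)]) (.cons 76 148 (.leaf [(40,75),(73,74)]) (.cons 73 145 (.leaf [(40,76),(74,75)]) (.cons 74 145 (.leaf [(40,76),(73,75)]) .nil)))))))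 (.cons 40 145 (.leaf [(2,74),(1,4),(76,148),(73,75)]) (.cons 75 145 (.leaf [(2,74),(1,4),(73,76),(40,148)]) (.cons 1 2 (.leaf [(145,148),(40,75),(4,76),(73,74)]) (.cons 76 145 (.leaf [(2,74),(1,4),(40,148),(73,75)]) (.cons 73 74 (.leaf [(145,148),(1,2),(40,75),(4,76)]) .nil)))))))))) (.cons 1 37 (.cons 2 4 (.leaf [(74,146),(40,75),(145,148),(73,76)]) (.cons 4 2 (.leaf [(40,75),(145,146),(76,148),(73,74)]) (.cons 145 2 (.leaf [(40,75),(146,148),(4,76),(73,74)]) (.cons 146 2 (.leaf [(145,148),(40,75),(4,76),(73,74)]) (.cons 40 2 (.leaf [(75,145),(4,76),(146,148),(73,74)]) (.cons 74 2 (.leaf [(4,40),(75,145),(73,76),(146,148)]) (.cons 75 2 (.leaf [(40,145),(73,74),(146,148),(4,76)]) (.cons 148 2 (.leaf [(145,146),(4,76),(40,75),(73,74)]) (.cons 76 2 (.leaf [(4,148),(40,75),(73,74),(145,146)]) (.cons 73 2 (.leaf [(4,40),(75,145),(74,76),(146,148)]) .nil)))))))))) (.cons 4 148 (.cons 2 1 (.leaf [(37,40),(74,146),(75,145),(73,76)]) (.cons 40 37 (.leaf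 [(1,2),(75,145),(74,146),(73,76)]) (.cons 1 2 (.cons 37 40 (.leaf [(73,145),(74,75)]) (.cons 40 37 (.leaf [(75,145),(73,74)]) (.cons 145 37 (.leaf [(40,75),(73,74)]) (.cons 73 37 (.leaf [(40,145),(74,75)]) (.cons 75 40 (.leaf [(37,145),(73,74)]) (.cons 74 37 (.leaf [(40,145),(73,75)]) (.cons 76 37 (.leaf [(40,75),(73,74)]) .nil))))))) (.cons 37 40 (.leaf [(1,2),(73,145),(74,146),(75,76)]) (.cons 74 1 (.leaf [(2,146),(37,40),(75,145),(73,76)]) (.cons 75 40 (.leaf [(1,2),(74,146),(73,76),(37,145)]) (.cons 145 40 (.leaf [(1,2),(37,73),(74,146),(75,76)]) (.cons 73 1 (.leaf [(37,40),(2,146),(74,76),(75,145)]) (.cons 146 2 (.leaf [(37,40),(75,145),(1,73),(74,76)]) (.cons 76 40 (.leaf [(1,2),(74,146),(73,75),(37,145)]) .nil)))))))))) (.cons 75 40 (.cons 74 146 (.leaf [(37,148),(73,76),(1,145),(2,4)]) (.cons 2 74 (.leaf [(1,4),(145,146),(37,73)]) (.cons 146 74 (.leaf [(145,148),(1,37),(2,4)]) (.cons 148 74 (.leaf [(145,146),(1,37),(2,4)]) (.cons 1 74 (.leaf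 [(2,4),(37,73),(145,146)]) (.cons 37 74 (.leaf [(1,73),(2,4),(145,146)]) (.cons 73 74 (.leaf [(1,37),(2,4),(145,146)]) (.cons 145 74 (.leaf [(146,148),(1,37),(2,4)]) (.cons 4 2 (.leaf [(1,37),(74,148),(73,76),(145,146)]) (.cons 76 74 (.leaf [(1,37),(2,4),(145,146)]) .nil)))))))))) (.cons 73 37 (.cons 2 74 (.leaf [(1,4),(40,76),(75,145),(146,148)]) (.cons 74 75 (.leaf [(2,146),(1,4),(145,148),(40,76)]) (.cons 75 74 (.leaf [(40,145),(1,2),(146,148),(4,76)]) (.cons 145 75 (.leaf [(146,148),(1,4),(2,74),(40,76)]) (.cons 146 74 (.leaf [(145,148),(1,2),(40,75),(4,76)]) (.cons 4 40 (.leaf [(1,2),(74,146),(75,76),(145,148)]) (.cons 40 75 (.leaf [(1,4),(2,74),(145,146),(76,148)]) (.cons 76 74 (.leaf [(1,2),(4,148),(40,75),(145,146)]) (.cons 148 145 (.leaf [(1,4),(2,146),(74,75),(40,76)]) (.cons 1 2 (.leaf [(4,40),(75,145),(74,76),(146,148)]) .nil)))))))))) (.cons 76 40 (.cons 74 146 (.leaf [(37,148),(73,75),(1,145),(2,4)]) (.cons 2 74 (.leaf [(1,4),(145,146),(37,73)])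 (.cons 146 74 (.leaf [(145,148),(1,37),(2,4)]) (.cons 148 74 (.leaf [(145,146),(1,37),(2,4)]) (.cons 1 74 (.leaf [(2,4),(37,73),(145,146)]) (.cons 37 74 (.leaf [(1,73),(2,4),(145,146)]) (.cons 73 74 (.leaf [(1,37),(2,4),(145,146)]) (.cons 145 74 (.leaf [(146,148),(1,37),(2,4)]) (.cons 4 2 (.leaf [(1,37),(74,148),(73,75),(145,146)]) (.cons 75 74 (.leaf [(1,37),(2,4),(145,146)]) .nil)))))))))) .nil)))))))))))) (.cons 2 40 (.cons 74 146 (.leaf [(1,4),(31,32),(37,148),(73,145),(75,76)]) (.cons 146 74 (.leaf [(1,4),(31,32),(145,148),(37,73)]) (.cons 1 4 (.cons 74 146 (.leaf [(31,32),(37,148),(73,145),(75,76)]) (.cons 146 74 (.leaf [(31,32),(145,148),(37,73)]) (.cons 32 31 (.cons 74 146 (.leaf [(37,148),(73,145),(75,76)]) (.cons 146 74 (.leaf [(145,148),(37,73)]) (.cons 37 74 (.leaf [(73,145),(146,148)]) (.cons 145 146 (.leaf [(37,73),(74,148),(75,76)]) (.cons 148 74 (.leaf [(145,146),(37,73)]) (.cons 73 74 (.leaf [(37,145),(146,148)]) (.cons 75 74 (.leaf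 [(37,73),(145,146)]) (.cons 76 74 (.leaf [(37,73),(145,146)]) .nil)))))))) (.cons 37 74 (.leaf [(31,32),(73,145),(146,148)]) (.cons 145 146 (.leaf [(31,32),(37,73),(74,148),(75,76)]) (.cons 148 74 (.leaf [(31,32),(145,146),(37,73)]) (.cons 31 32 (.cons 74 146 (.leaf [(37,148),(73,145),(75,76)]) (.cons 146 74 (.leaf [(145,148),(37,73)]) (.cons 37 74 (.leaf [(73,145),(146,148)]) (.cons 145 146 (.leaf [(37,73),(74,148),(75,76)]) (.cons 148 74 (.leaf [(145,146),(37,73)]) (.cons 73 74 (.leaf [(37,145),(146,148)]) (.cons 75 74 (.leaf [(37,73),(145,146)]) (.cons 76 74 (.leaf [(37,73),(145,146)]) .nil)))))))) (.cons 73 74 (.leaf [(31,32),(37,145),(146,148)]) (.cons 75 74 (.leaf [(31,32),(37,73),(145,146)]) (.cons 76 74 (.leaf [(31,32),(37,73),(145,146)]) .nil)))))))))) (.cons 32 31 (.cons 74 146 (.leaf [(1,4),(37,148),(73,145),(75,76)]) (.cons 146 74 (.leaf [(1,4),(145,148),(37,73)]) (.cons 1 4 (.cons 74 146 (.leaf [(37,148),(73,145),(75,76)]) (.cons 146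 74 (.leaf [(145,148),(37,73)]) (.cons 37 74 (.leaf [(73,145),(146,148)]) (.cons 145 146 (.leaf [(37,73),(74,148),(75,76)]) (.cons 148 74 (.leaf [(145,146),(37,73)]) (.cons 73 74 (.leaf [(37,145),(146,148)]) (.cons 75 74 (.leaf [(37,73),(145,146)]) (.cons 76 74 (.leaf [(37,73),(145,146)]) .nil)))))))) (.cons 4 1 (.cons 74 146 (.leaf [(37,148),(73,75)]) (.cons 146 74 (.leaf [(145,148)]) (.cons 148 74 (.leaf [(145,146)]) (.cons 37 74 (.leaf [(145,146)]) (.cons 145 146 (.leaf [(37,148),(73,74)]) (.cons 73 74 (.leaf [(145,146)]) (.cons 75 74 (.leaf [(145,146)]) (.cons 76 74 (.leaf [(145,146)]) .nil)))))))) (.cons 148 74 (.leaf [(1,4),(145,146),(37,73)]) (.cons 37 74 (.leaf [(1,4),(73,145),(146,148)]) (.cons 145 146 (.leaf [(1,4),(37,73),(74,148),(75,76)]) (.cons 73 74 (.leaf [(1,4),(37,145),(146,148)]) (.cons 75 74 (.leaf [(1,4),(145,146),(37,73)]) (.cons 76 74 (.leaf [(1,4),(145,146),(37,73)]) .nil)))))))))) (.cons 4 1 (.cons 74 146 (.leaf [(31,32),(37,148),(73,75)])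 (.cons 146 74 (.leaf [(31,32),(145,148)]) (.cons 32 31 (.cons 74 146 (.leaf [(37,148),(73,75)]) (.cons 146 74 (.leaf [(145,148)]) (.cons 148 74 (.leaf [(145,146)]) (.cons 37 74 (.leaf [(145,146)]) (.cons 145 146 (.leaf [(37,148),(73,74)]) (.cons 73 74 (.leaf [(145,146)]) (.cons 75 74 (.leaf [(145,146)]) (.cons 76 74 (.leaf [(145,146)]) .nil)))))))) (.cons 148 74 (.leaf [(31,32),(145,146)]) (.cons 31 32 (.cons 74 146 (.leaf [(37,148),(73,75)]) (.cons 146 74 (.leaf [(145,148)]) (.cons 148 74 (.leaf [(145,146)]) (.cons 37 74 (.leaf [(145,146)]) (.cons 145 146 (.leaf [(37,148),(73,74)]) (.cons 73 74 (.leaf [(145,146)]) (.cons 75 74 (.leaf [(145,146)]) (.cons 76 74 (.leaf [(145,146)]) .nil)))))))) (.cons 37 74 (.leaf [(31,32),(145,146)]) (.cons 145 146 (.leaf [(31,32),(37,148),(73,74)]) (.cons 73 74 (.leaf [(31,32),(145,146)]) (.cons 75 74 (.leaf [(31,32),(145,146)]) (.cons 76 74 (.leaf [(31,32),(145,146)]) .nil)))))))))) (.cons 148 74 (.leaf [(1,4),(31,32),(145,146),(37,73)])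 (.cons 31 32 (.cons 74 146 (.leaf [(1,4),(37,148),(73,145),(75,76)]) (.cons 146 74 (.leaf [(1,4),(145,148),(37,73)]) (.cons 1 4 (.cons 74 146 (.leaf [(37,148),(73,145),(75,76)]) (.cons 146 74 (.leaf [(145,148),(37,73)]) (.cons 37 74 (.leaf [(73,145),(146,148)]) (.cons 145 146 (.leaf [(37,73),(74,148),(75,76)]) (.cons 148 74 (.leaf [(145,146),(37,73)]) (.cons 73 74 (.leaf [(37,145),(146,148)]) (.cons 75 74 (.leaf [(37,73),(145,146)]) (.cons 76 74 (.leaf [(37,73),(145,146)]) .nil)))))))) (.cons 4 1 (.cons 74 146 (.leaf [(37,148),(73,75)]) (.cons 146 74 (.leaf [(145,148)]) (.cons 148 74 (.leaf [(145,146)]) (.cons 37 74 (.leaf [(145,146)]) (.cons 145 146 (.leaf [(37,148),(73,74)]) (.cons 73 74 (.leaf [(145,146)]) (.cons 75 74 (.leaf [(145,146)]) (.cons 76 74 (.leaf [(145,146)]) .nil)))))))) (.cons 148 74 (.leaf [(1,4),(145,146),(37,73)]) (.cons 37 74 (.leaf [(1,4),(73,145),(146,148)]) (.cons 145 146 (.leaf [(1,4),(37,73),(74,148),(75,76)]) (.cons 73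 74 (.leaf [(1,4),(37,145),(146,148)]) (.cons 75 74 (.leaf [(1,4),(145,146),(37,73)]) (.cons 76 74 (.leaf [(1,4),(145,146),(37,73)]) .nil)))))))))) (.cons 37 74 (.leaf [(1,4),(31,32),(73,145),(146,148)]) (.cons 145 146 (.leaf [(1,4),(31,32),(37,73),(74,148),(75,76)]) (.cons 73 74 (.leaf [(1,4),(31,32),(37,145),(146,148)]) (.cons 75 74 (.leaf [(1,4),(31,32),(145,146),(37,73)]) (.cons 76 74 (.leaf [(1,4),(31,32),(145,146),(37,73)]) .nil)))))))))))) (.cons 146 37 (.cons 2 74 (.cons 145 148 (.leaf [(1,4),(31,32),(40,75)]) (.cons 4 1 (.cons 145 148 (.leaf [(31,32),(40,75)]) (.cons 148 145 (.leaf [(31,32),(40,76)]) (.cons 32 31 (.cons 145 148 (.leaf [(40,75)]) (.cons 148 145 (.leaf [(40,76)]) (.cons 40 145 (.leaf [(76,148)]) (.cons 75 145 (.leaf [(40,76)]) (.cons 76 148 (.leaf [(40,75)]) .nil))))) (.cons 40 145 (.leaf [(31,32),(76,148)]) (.cons 31 32 (.cons 145 148 (.leaf [(40,75)]) (.cons 148 145 (.leaf [(40,76)]) (.cons 40 145 (.leaf [(76,148)]) (.cons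 75 145 (.leaf [(40,76)]) (.cons 76 148 (.leaf [(40,75)]) .nil))))) (.cons 75 145 (.leaf [(31,32),(40,76)]) (.cons 76 148 (.leaf [(31,32),(40,75)]) .nil))))))) (.cons 148 145 (.leaf [(1,4),(31,32),(40,76)]) (.cons 32 31 (.cons 145 148 (.leaf [(1,4),(40,75)]) (.cons 4 1 (.cons 145 148 (.leaf [(40,75)]) (.cons 148 145 (.leaf [(40,76)]) (.cons 40 145 (.leaf [(76,148)]) (.cons 75 145 (.leaf [(40,76)]) (.cons 76 148 (.leaf [(40,75)]) .nil))))) (.cons 148 145 (.leaf [(1,4),(40,76)]) (.cons 1 4 (.leaf [(145,148),(40,75)]) (.cons 40 145 (.leaf [(1,4),(76,148)]) (.cons 75 145 (.leaf [(1,4),(40,76)]) (.cons 76 145 (.leaf [(1,4),(40,148)]) .nil))))))) (.cons 1 4 (.leaf [(31,32),(145,148),(40,75)]) (.cons 31 32 (.cons 145 148 (.leaf [(1,4),(40,75)]) (.cons 4 1 (.cons 145 148 (.leaf [(40,75)]) (.cons 148 145 (.leaf [(40,76)]) (.cons 40 145 (.leaf [(76,148)]) (.cons 75 145 (.leaf [(40,76)]) (.cons 76 148 (.leaf [(40,75)]) .nil))))) (.cons 148 145 (.leaf [(1,4),(40,76)])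 (.cons 1 4 (.leaf [(145,148),(40,75)]) (.cons 40 145 (.leaf [(1,4),(76,148)]) (.cons 75 145 (.leaf [(1,4),(40,76)]) (.cons 76 145 (.leaf [(1,4),(40,148)]) .nil))))))) (.cons 40 145 (.leaf [(1,4),(31,32),(76,148)]) (.cons 75 145 (.leaf [(1,4),(31,32),(40,76)]) (.cons 76 4 (.leaf [(31,32),(145,148),(40,75)]) .nil))))))))) (.cons 145 148 (.leaf [(2,74),(31,32),(40,75),(1,4),(73,76)]) (.cons 74 2 (.cons 145 148 (.leaf [(31,32),(40,75),(73,76)]) (.cons 148 145 (.leaf [(31,32),(4,40),(73,75)]) (.cons 32 31 (.cons 145 148 (.leaf [(40,75),(73,76)]) (.cons 148 145 (.leaf [(4,40),(73,75)]) (.cons 75 145 (.leaf [(73,76),(4,40)]) (.cons 40 145 (.leaf [(4,76),(73,75)]) (.cons 76 75 (.leaf [(145,148),(4,40)]) (.cons 73 75 (.leaf [(145,148),(4,40)]) (.cons 4 145 (.leaf [(40,76),(73,75)]) .nil))))))) (.cons 75 145 (.leaf [(31,32),(73,76),(4,40)]) (.cons 31 32 (.cons 145 148 (.leaf [(40,75),(73,76)]) (.cons 148 145 (.leaf [(4,40),(73,75)]) (.cons 75 145 (.leaf [(73,76),(4,40)])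 (.cons 40 145 (.leaf [(4,76),(73,75)]) (.cons 76 75 (.leaf [(145,148),(4,40)]) (.cons 73 75 (.leaf [(145,148),(4,40)]) (.cons 4 145 (.leaf [(40,76),(73,75)]) .nil))))))) (.cons 40 145 (.leaf [(31,32),(4,76),(73,75)]) (.cons 76 75 (.leaf [(31,32),(145,148),(4,40)]) (.cons 73 75 (.leaf [(31,32),(145,148),(4,40)]) (.cons 4 145 (.leaf [(31,32),(40,76),(73,75)]) .nil))))))))) (.cons 148 145 (.leaf [(2,74),(31,32),(1,4),(40,76),(73,75)]) (.cons 32 31 (.cons 2 74 (.cons 145 148 (.leaf [(1,4),(40,75)]) (.cons 4 1 (.cons 145 148 (.leaf [(40,75)]) (.cons 148 145 (.leaf [(40,76)]) (.cons 40 145 (.leaf [(76,148)]) (.cons 75 145 (.leaf [(40,76)]) (.cons 76 148 (.leaf [(40,75)]) .nil))))) (.cons 148 145 (.leaf [(1,4),(40,76)]) (.cons 1 4 (.leaf [(145,148),(40,75)]) (.cons 40 145 (.leaf [(1,4),(76,148)]) (.cons 75 145 (.leaf [(1,4),(40,76)]) (.cons 76 145 (.leaf [(1,4),(40,148)]) .nil))))))) (.cons 145 148 (.leaf [(2,74),(40,75),(1,4),(73,76)]) (.cons 74 2 (.cons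 145 148 (.leaf [(40,75),(73,76)]) (.cons 148 145 (.leaf [(4,40),(73,75)]) (.cons 75 145 (.leaf [(73,76),(4,40)]) (.cons 40 145 (.leaf [(4,76),(73,75)]) (.cons 76 75 (.leaf [(145,148),(4,40)]) (.cons 73 75 (.leaf [(145,148),(4,40)]) (.cons 4 145 (.leaf [(40,76),(73,75)]) .nil))))))) (.cons 148 145 (.leaf [(2,74),(1,4),(40,76),(73,75)]) (.cons 4 2 (.cons 145 148 (.leaf [(40,75),(73,74)]) (.cons 148 145 (.leaf [(40,76),(73,74)]) (.cons 40 145 (.leaf [(76,148),(73,74)]) (.cons 75 145 (.leaf [(40,76),(73,74)]) (.cons 76 148 (.leaf [(40,75),(73,74)]) (.cons 73 145 (.leaf [(40,76),(74,75)]) (.cons 74 145 (.leaf [(40,76),(73,75)]) .nil))))))) (.cons 40 145 (.leaf [(2,74),(1,4),(76,148),(73,75)]) (.cons 75 145 (.leaf [(2,74),(1,4),(73,76),(40,148)]) (.cons 1 2 (.leaf [(145,148),(40,75),(4,76),(73,74)]) (.cons 76 145 (.leaf [(2,74),(1,4),(40,148),(73,75)]) (.cons 73 74 (.leaf [(145,148),(1,2),(40,75),(4,76)]) .nil)))))))))) (.cons 31 32 (.cons 2 74 (.cons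 145 148 (.leaf [(1,4),(40,75)]) (.cons 4 1 (.cons 145 148 (.leaf [(40,75)]) (.cons 148 145 (.leaf [(40,76)]) (.cons 40 145 (.leaf [(76,148)]) (.cons 75 145 (.leaf [(40,76)]) (.cons 76 148 (.leaf [(40,75)]) .nil))))) (.cons 148 145 (.leaf [(1,4),(40,76)]) (.cons 1 4 (.leaf [(145,148),(40,75)]) (.cons 40 145 (.leaf [(1,4),(76,148)]) (.cons 75 145 (.leaf [(1,4),(40,76)]) (.cons 76 145 (.leaf [(1,4),(40,148)]) .nil))))))) (.cons 145 148 (.leaf [(2,74),(40,75),(1,4),(73,76)]) (.cons 74 2 (.cons 145 148 (.leaf [(40,75),(73,76)]) (.cons 148 145 (.leaf [(4,40),(73,75)]) (.cons 75 145 (.leaf [(73,76),(4,40)]) (.cons 40 145 (.leaf [(4,76),(73,75)]) (.cons 76 75 (.leaf [(145,148),(4,40)]) (.cons 73 75 (.leaf [(145,148),(4,40)]) (.cons 4 145 (.leaf [(40,76),(73,75)]) .nil))))))) (.cons 148 145 (.leaf [(2,74),(1,4),(40,76),(73,75)]) (.cons 4 2 (.cons 145 148 (.leaf [(40,75),(73,74)]) (.cons 148 145 (.leaf [(40,76),(73,74)]) (.cons 40 145 (.leaf [(76,148),(73,74)])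 (.cons 75 145 (.leaf [(40,76),(73,74)]) (.cons 76 148 (.leaf [(40,75),(73,74)]) (.cons 73 145 (.leaf [(40,76),(74,75)]) (.cons 74 145 (.leaf [(40,76),(73,75)]) .nil))))))) (.cons 40 145 (.leaf [(2,74),(1,4),(76,148),(73,75)]) (.cons 75 145 (.leaf [(2,74),(1,4),(73,76),(40,148)]) (.cons 1 2 (.leaf [(145,148),(40,75),(4,76),(73,74)]) (.cons 76 145 (.leaf [(2,74),(1,4),(40,148),(73,75)]) (.cons 73 74 (.leaf [(145,148),(1,2),(40,75),(4,76)]) .nil)))))))))) (.cons 4 2 (.cons 145 148 (.leaf [(31,32),(40,75),(73,74)]) (.cons 148 145 (.leaf [(31,32),(40,76),(73,74)]) (.cons 32 31 (.cons 145 148 (.leaf [(40,75),(73,74)]) (.cons 148 145 (.leaf [(40,76),(73,74)]) (.cons 40 145 (.leaf [(76,148),(73,74)]) (.cons 75 145 (.leaf [(40,76),(73,74)]) (.cons 76 148 (.leaf [(40,75),(73,74)]) (.cons 73 145 (.leaf [(40,76),(74,75)]) (.cons 74 145 (.leaf [(40,76),(73,75)]) .nil))))))) (.cons 40 145 (.leaf [(31,32),(76,148),(73,74)]) (.cons 31 32 (.cons 145 148 (.leaf [(40,75),(73,74)])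 (.cons 148 145 (.leaf [(40,76),(73,74)]) (.cons 40 145 (.leaf [(76,148),(73,74)]) (.cons 75 145 (.leaf [(40,76),(73,74)]) (.cons 76 148 (.leaf [(40,75),(73,74)]) (.cons 73 145 (.leaf [(40,76),(74,75)]) (.cons 74 145 (.leaf [(40,76),(73,75)]) .nil))))))) (.cons 75 145 (.leaf [(31,32),(40,76),(73,74)]) (.cons 76 148 (.leaf [(31,32),(40,75),(73,74)]) (.cons 73 145 (.leaf [(31,32),(40,76),(74,75)]) (.cons 74 145 (.leaf [(31,32),(40,76),(73,75)]) .nil))))))))) (.cons 40 145 (.leaf [(2,74),(31,32),(1,4),(76,148),(73,75)]) (.cons 75 145 (.leaf [(2,74),(31,32),(1,4),(73,76),(40,148)]) (.cons 1 2 (.leaf [(31,32),(145,148),(40,75),(4,76),(73,74)]) (.cons 76 145 (.leaf [(2,74),(31,32),(1,4),(40,148),(73,75)]) (.cons 73 74 (.leaf [(31,32),(145,148),(1,2),(40,75),(4,76)]) .nil)))))))))))) (.cons 31 32 (.cons 37 40 (.cons 74 148 (.leaf [(2,146),(1,4),(73,145),(75,76)]) (.cons 148 74 (.leaf [(145,146),(1,73),(2,4)]) (.cons 1 74 (.leaf [(2,4),(73,145),(146,148)])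 (.cons 2 74 (.leaf [(1,4),(73,145),(146,148)]) (.cons 145 148 (.leaf [(1,73),(2,4),(74,146),(75,76)]) (.cons 146 74 (.leaf [(145,148),(1,73),(2,4)]) (.cons 73 74 (.leaf [(1,145),(2,4),(146,148)]) (.cons 4 74 (.leaf [(1,2),(73,145),(146,148)]) (.cons 75 74 (.leaf [(1,73),(2,4),(145,146)]) (.cons 76 74 (.leaf [(1,73),(2,4),(145,146)]) .nil)))))))))) (.cons 40 37 (.cons 145 75 (.cons 146 148 (.leaf [(2,74),(1,4)]) (.cons 148 146 (.leaf [(4,76),(1,2)]) (.cons 2 146 (.leaf [(1,4),(76,148)]) (.cons 4 148 (.leaf [(1,2),(74,146)]) (.cons 1 2 (.leaf [(146,148),(4,76)]) (.cons 74 146 (.leaf [(1,2),(4,76)]) (.cons 76 148 (.leaf [(1,4),(2,74)]) .nil))))))) (.cons 75 145 (.leaf [(1,4),(2,146),(73,74),(76,148)]) (.cons 2 145 (.leaf [(1,4),(74,146),(76,148),(73,75)]) (.cons 4 145 (.leaf [(1,2),(76,148),(74,146),(73,75)]) (.cons 146 145 (.leaf [(2,74),(1,4),(76,148),(73,75)]) (.cons 148 145 (.leaf [(4,76),(1,2),(74,146),(73,75)]) (.cons 74 145 (.leaf [(2,146),(1,4),(76,148),(73,75)])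 (.cons 76 145 (.leaf [(4,148),(1,2),(74,146),(73,75)]) (.cons 1 2 (.leaf [(75,145),(4,76),(146,148),(73,74)]) (.cons 73 75 (.leaf [(1,4),(2,74),(145,146),(76,148)]) .nil)))))))))) (.cons 74 37 (.cons 2 146 (.leaf [(1,4),(40,148),(75,145),(73,76)]) (.cons 146 2 (.cons 145 148 (.leaf [(40,75),(73,76)]) (.cons 148 145 (.leaf [(4,40),(73,75)]) (.cons 75 145 (.leaf [(73,76),(4,40)]) (.cons 40 145 (.leaf [(4,76),(73,75)]) (.cons 76 75 (.leaf [(145,148),(4,40)]) (.cons 73 75 (.leaf [(145,148),(4,40)]) (.cons 4 145 (.leaf [(40,76),(73,75)]) .nil))))))) (.cons 75 145 (.leaf [(2,146),(73,76),(1,4),(40,148)]) (.cons 145 146 (.leaf [(40,75),(1,2),(73,76),(4,148)]) (.cons 4 146 (.leaf [(1,2),(40,145),(73,75),(76,148)]) (.cons 40 145 (.leaf [(2,146),(1,4),(76,148),(73,75)]) (.cons 76 146 (.leaf [(73,75),(1,2),(4,148),(40,145)]) (.cons 148 146 (.leaf [(1,2),(4,76),(40,145),(73,75)]) (.cons 1 2 (.leaf [(4,40),(75,145),(73,76),(146,148)]) (.cons 73 75 (.leaf [(2,146),(1,4),(145,148),(40,76)])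 .nil)))))))))) (.cons 145 40 (.cons 146 148 (.leaf [(2,74),(1,4),(37,73),(75,76)]) (.cons 148 146 (.leaf [(37,74),(1,73),(2,4),(75,76)]) (.cons 74 146 (.leaf [(37,148),(1,73),(2,4),(75,76)]) (.cons 1 146 (.leaf [(2,4),(37,73),(74,148),(75,76)]) (.cons 2 146 (.leaf [(1,4),(37,73),(74,148),(75,76)]) (.cons 37 148 (.leaf [(1,73),(2,4),(74,146),(75,76)]) (.cons 73 37 (.leaf [(146,148),(1,4),(2,74),(75,76)]) (.cons 4 2 (.leaf [(146,148),(1,73),(37,74),(75,76)]) (.cons 75 74 (.leaf [(146,148),(1,37),(2,4)]) (.cons 76 74 (.leaf [(146,148),(1,37),(2,4)]) .nil)))))))))) (.cons 148 37 (.cons 145 146 (.leaf [(40,75),(1,2),(4,76),(73,74)]) (.cons 146 145 (.leaf [(2,74),(1,4),(40,76),(73,75)]) (.cons 2 146 (.leaf [(1,4),(40,76),(75,145),(73,74)]) (.cons 4 145 (.leaf [(1,2),(40,76),(74,146),(73,75)]) (.cons 40 145 (.leaf [(4,76),(1,2),(74,146),(73,75)]) (.cons 74 146 (.leaf [(1,2),(4,76),(40,145),(73,75)]) (.cons 75 145 (.leaf [(1,4),(2,146),(73,74),(40,76)])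 (.cons 76 40 (.leaf [(145,146),(1,4),(2,74),(73,75)]) (.cons 1 2 (.leaf [(145,146),(4,76),(40,75),(73,74)]) (.cons 73 145 (.leaf [(1,4),(2,146),(74,75),(40,76)]) .nil)))))))))) (.cons 2 40 (.cons 74 146 (.leaf [(1,4),(37,148),(73,145),(75,76)]) (.cons 146 74 (.leaf [(1,4),(145,148),(37,73)]) (.cons 1 4 (.cons 74 146 (.leaf [(37,148),(73,145),(75,76)]) (.cons 146 74 (.leaf [(145,148),(37,73)]) (.cons 37 74 (.leaf [(73,145),(146,148)]) (.cons 145 146 (.leaf [(37,73),(74,148),(75,76)]) (.cons 148 74 (.leaf [(145,146),(37,73)]) (.cons 73 74 (.leaf [(37,145),(146,148)]) (.cons 75 74 (.leaf [(37,73),(145,146)]) (.cons 76 74 (.leaf [(37,73),(145,146)]) .nil)))))))) (.cons 4 1 (.cons 74 146 (.leaf [(37,148),(73,75)]) (.cons 146 74 (.leaf [(145,148)]) (.cons 148 74 (.leaf [(145,146)]) (.cons 37 74 (.leaf [(145,146)]) (.cons 145 146 (.leaf [(37,148),(73,74)]) (.cons 73 74 (.leaf [(145,146)]) (.cons 75 74 (.leaf [(145,146)]) (.cons 76 74 (.leaf [(145,146)])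 .nil)))))))) (.cons 148 74 (.leaf [(1,4),(145,146),(37,73)]) (.cons 37 74 (.leaf [(1,4),(73,145),(146,148)]) (.cons 145 146 (.leaf [(1,4),(37,73),(74,148),(75,76)]) (.cons 73 74 (.leaf [(1,4),(37,145),(146,148)]) (.cons 75 74 (.leaf [(1,4),(145,146),(37,73)]) (.cons 76 74 (.leaf [(1,4),(145,146),(37,73)]) .nil)))))))))) (.cons 146 37 (.cons 2 74 (.cons 145 148 (.leaf [(1,4),(40,75)]) (.cons 4 1 (.cons 145 148 (.leaf [(40,75)]) (.cons 148 145 (.leaf [(40,76)]) (.cons 40 145 (.leaf [(76,148)]) (.cons 75 145 (.leaf [(40,76)]) (.cons 76 148 (.leaf [(40,75)]) .nil))))) (.cons 148 145 (.leaf [(1,4),(40,76)]) (.cons 1 4 (.leaf [(145,148),(40,75)]) (.cons 40 145 (.leaf [(1,4),(76,148)]) (.cons 75 145 (.leaf [(1,4),(40,76)]) (.cons 76 145 (.leaf [(1,4),(40,148)]) .nil))))))) (.cons 145 148 (.leaf [(2,74),(40,75),(1,4),(73,76)]) (.cons 74 2 (.cons 145 148 (.leaf [(40,75),(73,76)]) (.cons 148 145 (.leaf [(4,40),(73,75)]) (.cons 75 145 (.leaf [(73,76),(4,40)])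 (.cons 40 145 (.leaf [(4,76),(73,75)]) (.cons 76 75 (.leaf [(145,148),(4,40)]) (.cons 73 75 (.leaf [(145,148),(4,40)]) (.cons 4 145 (.leaf [(40,76),(73,75)]) .nil))))))) (.cons 148 145 (.leaf [(2,74),(1,4),(40,76),(73,75)]) (.cons 4 2 (.cons 145 148 (.leaf [(40,75),(73,74)]) (.cons 148 145 (.leaf [(40,76),(73,74)]) (.cons 40 145 (.leaf [(76,148),(73,74)]) (.cons 75 145 (.leaf [(40,76),(73,74)]) (.cons 76 148 (.leaf [(40,75),(73,74)]) (.cons 73 145 (.leaf [(40,76),(74,75)]) (.cons 74 145 (.leaf [(40,76),(73,75)]) .nil))))))) (.cons 40 145 (.leaf [(2,74),(1,4),(76,148),(73,75)]) (.cons 75 145 (.leaf [(2,74),(1,4),(73,76),(40,148)]) (.cons 1 2 (.leaf [(145,148),(40,75),(4,76),(73,74)]) (.cons 76 145 (.leaf [(2,74),(1,4),(40,148),(73,75)]) (.cons 73 74 (.leaf [(145,148),(1,2),(40,75),(4,76)]) .nil)))))))))) (.cons 1 37 (.cons 2 4 (.leaf [(74,146),(40,75),(145,148),(73,76)]) (.cons 4 2 (.leaf [(40,75),(145,146),(76,148),(73,74)]) (.cons 145 2 (.leaf [(40,75),(146,148),(4,76),(73,74)])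 (.cons 146 2 (.leaf [(145,148),(40,75),(4,76),(73,74)]) (.cons 40 2 (.leaf [(75,145),(4,76),(146,148),(73,74)]) (.cons 74 2 (.leaf [(4,40),(75,145),(73,76),(146,148)]) (.cons 75 2 (.leaf [(40,145),(73,74),(146,148),(4,76)]) (.cons 148 2 (.leaf [(145,146),(4,76),(40,75),(73,74)]) (.cons 76 2 (.leaf [(4,148),(40,75),(73,74),(145,146)]) (.cons 73 2 (.leaf [(4,40),(75,145),(74,76),(146,148)]) .nil)))))))))) (.cons 4 148 (.cons 2 1 (.leaf [(37,40),(74,146),(75,145),(73,76)]) (.cons 40 37 (.leaf [(1,2),(75,145),(74,146),(73,76)]) (.cons 1 2 (.cons 37 40 (.leaf [(73,145),(74,75)]) (.cons 40 37 (.leaf [(75,145),(73,74)]) (.cons 145 37 (.leaf [(40,75),(73,74)]) (.cons 73 37 (.leaf [(40,145),(74,75)]) (.cons 75 40 (.leaf [(37,145),(73,74)]) (.cons 74 37 (.leaf [(40,145),(73,75)]) (.cons 76 37 (.leaf [(40,75),(73,74)]) .nil))))))) (.cons 37 40 (.leaf [(1,2),(73,145),(74,146),(75,76)]) (.cons 74 1 (.leaf [(2,146),(37,40),(75,145),(73,76)]) (.cons 75 40 (.leaf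 [(1,2),(74,146),(73,76),(37,145)]) (.cons 145 40 (.leaf [(1,2),(37,73),(74,146),(75,76)]) (.cons 73 1 (.leaf [(37,40),(2,146),(74,76),(75,145)]) (.cons 146 2 (.leaf [(37,40),(75,145),(1,73),(74,76)]) (.cons 76 40 (.leaf [(1,2),(74,146),(73,75),(37,145)]) .nil)))))))))) (.cons 75 40 (.cons 74 146 (.leaf [(37,148),(73,76),(1,145),(2,4)]) (.cons 2 74 (.leaf [(1,4),(145,146),(37,73)]) (.cons 146 74 (.leaf [(145,148),(1,37),(2,4)]) (.cons 148 74 (.leaf [(145,146),(1,37),(2,4)]) (.cons 1 74 (.leaf [(2,4),(37,73),(145,146)]) (.cons 37 74 (.leaf [(1,73),(2,4),(145,146)]) (.cons 73 74 (.leaf [(1,37),(2,4),(145,146)]) (.cons 145 74 (.leaf [(146,148),(1,37),(2,4)]) (.cons 4 2 (.leaf [(1,37),(74,148),(73,76),(145,146)]) (.cons 76 74 (.leaf [(1,37),(2,4),(145,146)]) .nil)))))))))) (.cons 73 37 (.cons 2 74 (.leaf [(1,4),(40,76),(75,145),(146,148)]) (.cons 74 75 (.leaf [(2,146),(1,4),(145,148),(40,76)]) (.cons 75 74 (.leaf [(40,145),(1,2),(146,148),(4,76)]) (.cons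 145 75 (.leaf [(146,148),(1,4),(2,74),(40,76)]) (.cons 146 74 (.leaf [(145,148),(1,2),(40,75),(4,76)]) (.cons 4 40 (.leaf [(1,2),(74,146),(75,76),(145,148)]) (.cons 40 75 (.leaf [(1,4),(2,74),(145,146),(76,148)]) (.cons 76 74 (.leaf [(1,2),(4,148),(40,75),(145,146)]) (.cons 148 145 (.leaf [(1,4),(2,146),(74,75),(40,76)]) (.cons 1 2 (.leaf [(4,40),(75,145),(74,76),(146,148)]) .nil)))))))))) (.cons 76 40 (.cons 74 146 (.leaf [(37,148),(73,75),(1,145),(2,4)]) (.cons 2 74 (.leaf [(1,4),(145,146),(37,73)]) (.cons 146 74 (.leaf [(145,148),(1,37),(2,4)]) (.cons 148 74 (.leaf [(145,146),(1,37),(2,4)]) (.cons 1 74 (.leaf [(2,4),(37,73),(145,146)]) (.cons 37 74 (.leaf [(1,73),(2,4),(145,146)]) (.cons 73 74 (.leaf [(1,37),(2,4),(145,146)]) (.cons 145 74 (.leaf [(146,148),(1,37),(2,4)]) (.cons 4 2 (.leaf [(1,37),(74,148),(73,75),(145,146)]) (.cons 75 74 (.leaf [(1,37),(2,4),(145,146)]) .nil)))))))))) .nil)))))))))))) (.cons 1 37 (.cons 2 4 (.leaf [(31,32),(74,146),(40,75),(145,148),(73,76)])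 (.cons 4 2 (.leaf [(31,32),(40,75),(145,146),(76,148),(73,74)]) (.cons 32 31 (.cons 2 4 (.leaf [(74,146),(40,75),(145,148),(73,76)]) (.cons 4 2 (.leaf [(40,75),(145,146),(76,148),(73,74)]) (.cons 145 2 (.leaf [(40,75),(146,148),(4,76),(73,74)]) (.cons 146 2 (.leaf [(145,148),(40,75),(4,76),(73,74)]) (.cons 40 2 (.leaf [(75,145),(4,76),(146,148),(73,74)]) (.cons 74 2 (.leaf [(4,40),(75,145),(73,76),(146,148)]) (.cons 75 2 (.leaf [(40,145),(73,74),(146,148),(4,76)]) (.cons 148 2 (.leaf [(145,146),(4,76),(40,75),(73,74)]) (.cons 76 2 (.leaf [(4,148),(40,75),(73,74),(145,146)]) (.cons 73 2 (.leaf [(4,40),(75,145),(74,76),(146,148)]) .nil)))))))))) (.cons 145 2 (.leaf [(31,32),(40,75),(146,148),(4,76),(73,74)]) (.cons 146 2 (.leaf [(31,32),(145,148),(40,75),(4,76),(73,74)]) (.cons 31 32 (.cons 2 4 (.leaf [(74,146),(40,75),(145,148),(73,76)]) (.cons 4 2 (.leaf [(40,75),(145,146),(76,148),(73,74)]) (.cons 145 2 (.leaf [(40,75),(146,148),(4,76),(73,74)])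 (.cons 146 2 (.leaf [(145,148),(40,75),(4,76),(73,74)]) (.cons 40 2 (.leaf [(75,145),(4,76),(146,148),(73,74)]) (.cons 74 2 (.leaf [(4,40),(75,145),(73,76),(146,148)]) (.cons 75 2 (.leaf [(40,145),(73,74),(146,148),(4,76)]) (.cons 148 2 (.leaf [(145,146),(4,76),(40,75),(73,74)]) (.cons 76 2 (.leaf [(4,148),(40,75),(73,74),(145,146)]) (.cons 73 2 (.leaf [(4,40),(75,145),(74,76),(146,148)]) .nil)))))))))) (.cons 40 2 (.leaf [(31,32),(75,145),(4,76),(146,148),(73,74)]) (.cons 74 2 (.leaf [(31,32),(4,40),(75,145),(73,76),(146,148)]) (.cons 75 2 (.leaf [(31,32),(40,145),(73,74),(146,148),(4,76)]) (.cons 148 2 (.leaf [(31,32),(145,146),(4,76),(40,75),(73,74)]) (.cons 76 2 (.leaf [(31,32),(4,148),(40,75),(73,74),(145,146)]) (.cons 73 2 (.leaf [(31,32),(4,40),(75,145),(74,76),(146,148)]) .nil)))))))))))) (.cons 4 148 (.cons 2 1 (.leaf [(31,32),(37,40),(74,146),(75,145),(73,76)]) (.cons 40 37 (.leaf [(1,2),(31,32),(75,145),(74,146),(73,76)]) (.cons 1 2 (.cons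 37 40 (.leaf [(31,32),(73,145),(74,75)]) (.cons 40 37 (.leaf [(31,32),(75,145),(73,74)]) (.cons 32 31 (.cons 37 40 (.leaf [(73,145),(74,75)]) (.cons 40 37 (.leaf [(75,145),(73,74)]) (.cons 145 37 (.leaf [(40,75),(73,74)]) (.cons 73 37 (.leaf [(40,145),(74,75)]) (.cons 75 40 (.leaf [(37,145),(73,74)]) (.cons 74 37 (.leaf [(40,145),(73,75)]) (.cons 76 37 (.leaf [(40,75),(73,74)]) .nil))))))) (.cons 145 37 (.leaf [(31,32),(40,75),(73,74)]) (.cons 31 32 (.cons 37 40 (.leaf [(73,145),(74,75)]) (.cons 40 37 (.leaf [(75,145),(73,74)]) (.cons 145 37 (.leaf [(40,75),(73,74)]) (.cons 73 37 (.leaf [(40,145),(74,75)]) (.cons 75 40 (.leaf [(37,145),(73,74)]) (.cons 74 37 (.leaf [(40,145),(73,75)]) (.cons 76 37 (.leaf [(40,75),(73,74)]) .nil))))))) (.cons 73 37 (.leaf [(31,32),(40,145),(74,75)]) (.cons 75 40 (.leaf [(31,32),(37,145),(73,74)]) (.cons 74 37 (.leaf [(31,32),(40,145),(73,75)]) (.cons 76 37 (.leaf [(31,32),(40,75),(73,74)]) .nil))))))))) (.cons 37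 40 (.leaf [(1,2),(31,32),(73,145),(74,146),(75,76)]) (.cons 32 31 (.cons 2 1 (.leaf [(37,40),(74,146),(75,145),(73,76)]) (.cons 40 37 (.leaf [(1,2),(75,145),(74,146),(73,76)]) (.cons 1 2 (.cons 37 40 (.leaf [(73,145),(74,75)]) (.cons 40 37 (.leaf [(75,145),(73,74)]) (.cons 145 37 (.leaf [(40,75),(73,74)]) (.cons 73 37 (.leaf [(40,145),(74,75)]) (.cons 75 40 (.leaf [(37,145),(73,74)]) (.cons 74 37 (.leaf [(40,145),(73,75)]) (.cons 76 37 (.leaf [(40,75),(73,74)]) .nil))))))) (.cons 37 40 (.leaf [(1,2),(73,145),(74,146),(75,76)]) (.cons 74 1 (.leaf [(2,146),(37,40),(75,145),(73,76)]) (.cons 75 40 (.leaf [(1,2),(74,146),(73,76),(37,145)]) (.cons 145 40 (.leaf [(1,2),(37,73),(74,146),(75,76)]) (.cons 73 1 (.leaf [(37,40),(2,146),(74,76),(75,145)]) (.cons 146 2 (.leaf [(37,40),(75,145),(1,73),(74,76)]) (.cons 76 40 (.leaf [(1,2),(74,146),(73,75),(37,145)]) .nil)))))))))) (.cons 31 32 (.cons 2 1 (.leaf [(37,40),(74,146),(75,145),(73,76)]) (.cons 40 37 (.leaf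 [(1,2),(75,145),(74,146),(73,76)]) (.cons 1 2 (.cons 37 40 (.leaf [(73,145),(74,75)]) (.cons 40 37 (.leaf [(75,145),(73,74)]) (.cons 145 37 (.leaf [(40,75),(73,74)]) (.cons 73 37 (.leaf [(40,145),(74,75)]) (.cons 75 40 (.leaf [(37,145),(73,74)]) (.cons 74 37 (.leaf [(40,145),(73,75)]) (.cons 76 37 (.leaf [(40,75),(73,74)]) .nil))))))) (.cons 37 40 (.leaf [(1,2),(73,145),(74,146),(75,76)]) (.cons 74 1 (.leaf [(2,146),(37,40),(75,145),(73,76)]) (.cons 75 40 (.leaf [(1,2),(74,146),(73,76),(37,145)]) (.cons 145 40 (.leaf [(1,2),(37,73),(74,146),(75,76)]) (.cons 73 1 (.leaf [(37,40),(2,146),(74,76),(75,145)]) (.cons 146 2 (.leaf [(37,40),(75,145),(1,73),(74,76)]) (.cons 76 40 (.leaf [(1,2),(74,146),(73,75),(37,145)]) .nil)))))))))) (.cons 74 1 (.leaf [(2,146),(31,32),(37,40),(75,145),(73,76)]) (.cons 75 40 (.leaf [(1,2),(31,32),(74,146),(73,76),(37,145)]) (.cons 145 40 (.leaf [(1,2),(31,32),(37,73),(74,146),(75,76)]) (.cons 73 1 (.leaf [(31,32),(37,40),(2,146),(74,76),(75,145)])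 (.cons 146 2 (.leaf [(31,32),(37,40),(75,145),(1,73),(74,76)]) (.cons 76 40 (.leaf [(1,2),(31,32),(74,146),(73,75),(37,145)]) .nil)))))))))))) (.cons 75 40 (.cons 74 146 (.leaf [(31,32),(37,148),(73,76),(1,145),(2,4)]) (.cons 32 31 (.cons 74 146 (.leaf [(37,148),(73,76),(1,145),(2,4)]) (.cons 2 74 (.leaf [(1,4),(145,146),(37,73)]) (.cons 146 74 (.leaf [(145,148),(1,37),(2,4)]) (.cons 148 74 (.leaf [(145,146),(1,37),(2,4)]) (.cons 1 74 (.leaf [(2,4),(37,73),(145,146)]) (.cons 37 74 (.leaf [(1,73),(2,4),(145,146)]) (.cons 73 74 (.leaf [(1,37),(2,4),(145,146)]) (.cons 145 74 (.leaf [(146,148),(1,37),(2,4)]) (.cons 4 2 (.leaf [(1,37),(74,148),(73,76),(145,146)]) (.cons 76 74 (.leaf [(1,37),(2,4),(145,146)]) .nil)))))))))) (.cons 2 74 (.leaf [(1,4),(31,32),(145,146),(37,73)]) (.cons 146 74 (.leaf [(31,32),(145,148),(1,37),(2,4)]) (.cons 148 74 (.leaf [(31,32),(145,146),(1,37),(2,4)]) (.cons 31 32 (.cons 74 146 (.leaf [(37,148),(73,76),(1,145),(2,4)])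 (.cons 2 74 (.leaf [(1,4),(145,146),(37,73)]) (.cons 146 74 (.leaf [(145,148),(1,37),(2,4)]) (.cons 148 74 (.leaf [(145,146),(1,37),(2,4)]) (.cons 1 74 (.leaf [(2,4),(37,73),(145,146)]) (.cons 37 74 (.leaf [(1,73),(2,4),(145,146)]) (.cons 73 74 (.leaf [(1,37),(2,4),(145,146)]) (.cons 145 74 (.leaf [(146,148),(1,37),(2,4)]) (.cons 4 2 (.leaf [(1,37),(74,148),(73,76),(145,146)]) (.cons 76 74 (.leaf [(1,37),(2,4),(145,146)]) .nil)))))))))) (.cons 1 74 (.leaf [(2,4),(31,32),(37,73),(145,146)]) (.cons 37 74 (.leaf [(31,32),(1,73),(2,4),(145,146)]) (.cons 73 74 (.leaf [(31,32),(1,37),(2,4),(145,146)]) (.cons 145 74 (.leaf [(31,32),(146,148),(1,37),(2,4)]) (.cons 4 2 (.leaf [(31,32),(1,37),(74,148),(73,76),(145,146)]) (.cons 76 74 (.leaf [(31,32),(1,37),(2,4),(145,146)]) .nil)))))))))))) (.cons 73 37 (.cons 32 31 (.cons 2 74 (.leaf [(1,4),(40,76),(75,145),(146,148)]) (.cons 74 75 (.leaf [(2,146),(1,4),(145,148),(40,76)]) (.cons 75 74 (.leaf [(40,145),(1,2),(146,148),(4,76)])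 (.cons 145 75 (.leaf [(146,148),(1,4),(2,74),(40,76)]) (.cons 146 74 (.leaf [(145,148),(1,2),(40,75),(4,76)]) (.cons 4 40 (.leaf [(1,2),(74,146),(75,76),(145,148)]) (.cons 40 75 (.leaf [(1,4),(2,74),(145,146),(76,148)]) (.cons 76 74 (.leaf [(1,2),(4,148),(40,75),(145,146)]) (.cons 148 145 (.leaf [(1,4),(2,146),(74,75),(40,76)]) (.cons 1 2 (.leaf [(4,40),(75,145),(74,76),(146,148)]) .nil)))))))))) (.cons 2 74 (.leaf [(1,4),(31,32),(40,76),(75,145),(146,148)]) (.cons 74 75 (.leaf [(2,146),(31,32),(1,4),(145,148),(40,76)]) (.cons 75 74 (.leaf [(31,32),(40,145),(1,2),(146,148),(4,76)]) (.cons 145 75 (.leaf [(31,32),(146,148),(1,4),(2,74),(40,76)]) (.cons 146 74 (.leaf [(31,32),(145,148),(1,2),(40,75),(4,76)]) (.cons 31 32 (.cons 2 74 (.leaf [(1,4),(40,76),(75,145),(146,148)]) (.cons 74 75 (.leaf [(2,146),(1,4),(145,148),(40,76)]) (.cons 75 74 (.leaf [(40,145),(1,2),(146,148),(4,76)]) (.cons 145 75 (.leaf [(146,148),(1,4),(2,74),(40,76)]) (.cons 146 74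 (.leaf [(145,148),(1,2),(40,75),(4,76)]) (.cons 4 40 (.leaf [(1,2),(74,146),(75,76),(145,148)]) (.cons 40 75 (.leaf [(1,4),(2,74),(145,146),(76,148)]) (.cons 76 74 (.leaf [(1,2),(4,148),(40,75),(145,146)]) (.cons 148 145 (.leaf [(1,4),(2,146),(74,75),(40,76)]) (.cons 1 2 (.leaf [(4,40),(75,145),(74,76),(146,148)]) .nil)))))))))) (.cons 4 40 (.leaf [(1,2),(31,32),(74,146),(75,76),(145,148)]) (.cons 40 75 (.leaf [(31,32),(1,4),(2,74),(145,146),(76,148)]) (.cons 76 74 (.leaf [(31,32),(1,2),(4,148),(40,75),(145,146)]) (.cons 148 145 (.leaf [(31,32),(1,4),(2,146),(74,75),(40,76)]) (.cons 1 2 (.leaf [(31,32),(4,40),(75,145),(74,76),(146,148)]) .nil)))))))))))) (.cons 76 40 (.cons 74 146 (.leaf [(31,32),(37,148),(73,75),(1,145),(2,4)]) (.cons 32 31 (.cons 74 146 (.leaf [(37,148),(73,75),(1,145),(2,4)]) (.cons 2 74 (.leaf [(1,4),(145,146),(37,73)]) (.cons 146 74 (.leaf [(145,148),(1,37),(2,4)]) (.cons 148 74 (.leaf [(145,146),(1,37),(2,4)]) (.cons 1 74 (.leaf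 [(2,4),(37,73),(145,146)]) (.cons 37 74 (.leaf [(1,73),(2,4),(145,146)]) (.cons 73 74 (.leaf [(1,37),(2,4),(145,146)]) (.cons 145 74 (.leaf [(146,148),(1,37),(2,4)]) (.cons 4 2 (.leaf [(1,37),(74,148),(73,75),(145,146)]) (.cons 75 74 (.leaf [(1,37),(2,4),(145,146)]) .nil)))))))))) (.cons 2 74 (.leaf [(1,4),(31,32),(145,146),(37,73)]) (.cons 146 74 (.leaf [(31,32),(145,148),(1,37),(2,4)]) (.cons 148 74 (.leaf [(31,32),(145,146),(1,37),(2,4)]) (.cons 31 32 (.cons 74 146 (.leaf [(37,148),(73,75),(1,145),(2,4)]) (.cons 2 74 (.leaf [(1,4),(145,146),(37,73)]) (.cons 146 74 (.leaf [(145,148),(1,37),(2,4)]) (.cons 148 74 (.leaf [(145,146),(1,37),(2,4)]) (.cons 1 74 (.leaf [(2,4),(37,73),(145,146)]) (.cons 37 74 (.leaf [(1,73),(2,4),(145,146)]) (.cons 73 74 (.leaf [(1,37),(2,4),(145,146)]) (.cons 145 74 (.leaf [(146,148),(1,37),(2,4)]) (.cons 4 2 (.leaf [(1,37),(74,148),(73,75),(145,146)]) (.cons 75 74 (.leaf [(1,37),(2,4),(145,146)]) .nil)))))))))) (.cons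 1 74 (.leaf [(2,4),(31,32),(37,73),(145,146)]) (.cons 37 74 (.leaf [(31,32),(1,73),(2,4),(145,146)]) (.cons 73 74 (.leaf [(31,32),(1,37),(2,4),(145,146)]) (.cons 145 74 (.leaf [(31,32),(146,148),(1,37),(2,4)]) (.cons 4 2 (.leaf [(31,32),(1,37),(74,148),(73,75),(145,146)]) (.cons 75 74 (.leaf [(31,32),(1,37),(2,4),(145,146)]) .nil)))))))))))) .nil))))))))))))))

/-- The masks of block 5. -/
def m5 : List ℕ := [0x16, 0x10000000000000000004000000002000000000, 0x2000000000000000002000000002000000002, 0x4000000000000000004000000000000000004, 0x10000000000000000010000000010000000010, 0x2000000000000000008000000010000000000, 0x180000000, 0x12000000000, 0x1e000000000000000000, 0x16000000000000000000000000000000000000]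

/-- The strategy tree of block 6. -/
def t6 : Tr := (.leaf [(123,124)])

/-- The masks of block 6. -/
def m6 : List ℕ := [0x18000000000000000000000000000000]

/-- The strategy tree of block 7. -/
def t7 : Tr := (.cons 171 168 (.cons 61 185 (.cons 27 207 (.cons 29 26 (.leaf [(98,209),(134,204)]) (.cons 98 209 (.cons 26 29 (.leaf [(134,206)]) (.cons 29 26 (.leaf [(134,204)]) (.cons 134 26 (.leaf [(29,204)]) (.cons 204 29 (.leaf [(26,134)]) (.cons 206 26 (.leaf [(29,134)]) .nil))))) (.cons 26 29 (.leaf [(98,209),(134,206)]) (.cons 209 98 (.leaf [(26,29),(134,204)]) (.cons 134 29 (.leaf [(98,209),(26,206)]) (.cons 204 29 (.leaf [(98,209),(26,134)]) (.cons 206 98 (.leaf [(26,29),(134,204)]) .nil))))))) (.cons 98 209 (.cons 27 207 (.cons 26 29 (.leaf [(134,206)]) (.cons 29 26 (.leaf [(134,204)]) (.cons 134 26 (.leaf [(29,204)]) (.cons 204 29 (.leaf [(26,134)]) (.cons 206 26 (.leaf [(29,134)]) .nil))))) (.cons 134 26 (.leaf [(27,207),(29,204)]) (.cons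 207 27 (.leaf [(26,206),(29,134)]) (.cons 26 27 (.leaf [(134,206),(29,204)]) (.cons 29 27 (.leaf [(134,204),(26,206)]) (.cons 204 134 (.leaf [(27,207),(26,29)]) (.cons 206 134 (.leaf [(27,207),(26,29)]) .nil))))))) (.cons 207 27 (.cons 209 98 (.leaf [(204,206),(29,134)]) (.cons 98 209 (.leaf [(26,206),(29,134)]) (.cons 204 209 (.leaf [(29,134),(26,98)]) (.cons 134 98 (.leaf [(29,204),(206,209)]) (.cons 206 209 (.leaf [(26,98),(29,134)]) (.cons 29 204 (.leaf [(98,209),(26,134)]) (.cons 26 98 (.leaf [(29,134),(204,206)]) .nil))))))) (.cons 209 98 (.cons 207 27 (.leaf [(204,206),(29,134)]) (.cons 27 207 (.leaf [(26,29),(134,204)]) (.cons 204 207 (.leaf [(29,134),(26,27)]) (.cons 29 27 (.leaf [(134,204),(206,207)]) (.cons 134 27 (.leaf [(29,204),(206,207)]) (.cons 206 207 (.leaf [(26,27),(29,134)]) (.cons 26 27 (.leaf [(29,134),(204,206)]) .nil))))))) (.cons 29 27 (.cons 98 209 (.leaf [(134,204),(26,206)]) (.cons 134 204 (.leaf [(98,209),(26,206)]) (.cons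 204 134 (.leaf [(98,209),(206,207)]) (.cons 209 98 (.leaf [(134,204),(206,207)]) (.cons 206 209 (.leaf [(134,204),(26,98)]) (.cons 207 204 (.leaf [(98,209),(26,134)]) (.cons 26 98 (.leaf [(134,204),(206,207)]) .nil))))))) (.cons 134 27 (.cons 98 209 (.leaf [(26,206),(29,204)]) (.cons 204 29 (.cons 209 98 (.leaf [(206,207)]) (.cons 98 209 (.leaf [(26,206)]) (.cons 206 209 (.leaf [(26,98)]) (.cons 26 98 (.leaf [(206,207)]) (.cons 207 209 (.leaf [(26,98)]) .nil))))) (.cons 209 98 (.leaf [(29,204),(206,207)]) (.cons 29 204 (.leaf [(98,209),(26,206)]) (.cons 206 98 (.leaf [(29,204),(207,209)]) (.cons 26 98 (.leaf [(29,204),(206,207)]) (.cons 207 98 (.leaf [(29,204),(206,209)]) .nil))))))) (.cons 204 207 (.cons 29 134 (.leaf [(26,27),(98,209)]) (.cons 98 209 (.cons 134 29 (.leaf [(26,206)]) (.cons 29 134 (.leaf [(26,27)]) (.cons 26 134 (.leaf [(27,29)]) (.cons 27 29 (.leaf [(26,134)]) (.cons 206 134 (.leaf [(26,27)]) .nil))))) (.cons 134 29 (.leaf [(98,209),(26,206)])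 (.cons 209 98 (.leaf [(29,134),(26,27)]) (.cons 26 29 (.leaf [(98,209),(134,206)]) (.cons 27 29 (.leaf [(98,209),(26,134)]) (.cons 206 98 (.leaf [(29,134),(26,27)]) .nil))))))) (.cons 26 27 (.cons 98 209 (.leaf [(134,206),(29,204)]) (.cons 209 98 (.leaf [(29,134),(204,206)]) (.cons 134 98 (.leaf [(29,204),(206,207)]) (.cons 204 209 (.leaf [(29,134),(98,206)]) (.cons 206 98 (.leaf [(29,134),(204,207)]) (.cons 29 98 (.leaf [(134,204),(206,207)]) (.cons 207 98 (.leaf [(29,134),(204,206)]) .nil))))))) (.cons 206 98 (.cons 207 27 (.leaf [(204,209),(29,134)]) (.cons 27 207 (.leaf [(26,29),(134,204)]) (.cons 204 207 (.leaf [(29,134),(26,27)]) (.cons 29 27 (.leaf [(134,204),(207,209)]) (.cons 134 27 (.leaf [(29,204),(207,209)]) (.cons 209 207 (.leaf [(26,27),(29,134)]) (.cons 26 27 (.leaf [(29,134),(204,207)]) .nil))))))) .nil))))))))) (.cons 185 61 (.cons 27 207 (.leaf [(26,29),(197,209),(134,204),(98,206)]) (.cons 207 27 (.leaf [(197,209),(29,134),(204,206),(26,98)])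 (.cons 209 197 (.cons 207 27 (.leaf [(204,206),(29,134),(26,98)]) (.cons 27 207 (.leaf [(26,29),(134,204),(98,206)]) (.cons 204 207 (.leaf [(29,134),(26,27),(98,206)]) (.cons 29 27 (.leaf [(134,204),(206,207),(26,98)]) (.cons 134 204 (.leaf [(27,207),(26,29),(98,206)]) (.cons 206 207 (.leaf [(26,27),(29,204),(98,134)]) (.cons 26 27 (.leaf [(29,134),(98,206),(204,207)]) (.cons 98 207 (.leaf [(26,27),(29,204),(134,206)]) .nil)))))))) (.cons 197 209 (.leaf [(27,207),(26,29),(134,204),(98,206)]) (.cons 29 27 (.leaf [(134,204),(197,209),(26,98),(206,207)]) (.cons 134 27 (.leaf [(29,204),(197,209),(26,98),(206,207)]) (.cons 204 207 (.leaf [(29,134),(197,209),(26,27),(98,206)]) (.cons 26 27 (.leaf [(197,209),(29,134),(98,206),(204,207)]) (.cons 206 207 (.leaf [(197,209),(26,27),(29,204),(98,134)]) (.cons 98 27 (.leaf [(197,209),(26,206),(29,134),(204,207)]) .nil)))))))))) (.cons 27 207 (.cons 61 185 (.cons 29 26 (.leaf [(98,209),(134,204)]) (.cons 98 209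 (.cons 26 29 (.leaf [(134,206)]) (.cons 29 26 (.leaf [(134,204)]) (.cons 134 26 (.leaf [(29,204)]) (.cons 204 29 (.leaf [(26,134)]) (.cons 206 26 (.leaf [(29,134)]) .nil))))) (.cons 26 29 (.leaf [(98,209),(134,206)]) (.cons 209 98 (.leaf [(26,29),(134,204)]) (.cons 134 29 (.leaf [(98,209),(26,206)]) (.cons 204 29 (.leaf [(98,209),(26,134)]) (.cons 206 98 (.leaf [(26,29),(134,204)]) .nil))))))) (.cons 185 61 (.leaf [(26,29),(197,209),(134,204),(98,206)]) (.cons 29 26 (.cons 185 61 (.leaf [(134,204),(197,209)]) (.cons 61 185 (.leaf [(98,209),(134,204)]) (.cons 134 204 (.cons 185 61 (.leaf [(197,209)]) (.cons 61 185 (.leaf [(98,209)]) (.cons 209 185 (.leaf [(61,98)]) (.cons 98 61 (.leaf [(185,197)]) (.cons 197 185 (.leaf [(61,98)]) .nil))))) (.cons 204 134 (.cons 185 61 (.leaf [(197,209)]) (.cons 61 185 (.leaf [(98,209)]) (.cons 209 185 (.leaf [(61,98)]) (.cons 98 61 (.leaf [(185,197)]) (.cons 197 185 (.leaf [(61,98)]) .nil))))) (.cons 209 185 (.leaf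 [(61,98),(134,204)]) (.cons 98 61 (.leaf [(134,204),(185,197)]) (.cons 197 185 (.leaf [(134,204),(61,98)]) .nil))))))) (.cons 26 29 (.cons 185 61 (.leaf [(197,209),(98,134)]) (.cons 61 185 (.leaf [(98,209),(134,206)]) (.cons 98 61 (.leaf [(134,206),(185,197)]) (.cons 209 185 (.leaf [(61,98),(134,206)]) (.cons 197 185 (.leaf [(61,209),(98,134)]) (.cons 134 98 (.leaf [(61,185),(197,209)]) (.cons 206 98 (.leaf [(61,185),(197,209)]) .nil))))))) (.cons 209 61 (.leaf [(26,29),(185,197),(134,204),(98,206)]) (.cons 98 61 (.cons 26 29 (.leaf [(134,206),(185,197)]) (.cons 29 26 (.leaf [(134,204),(185,197)]) (.cons 134 26 (.leaf [(29,204),(185,197)]) (.cons 209 26 (.leaf [(185,197),(29,134)]) (.cons 197 26 (.leaf [(185,209),(29,134)]) (.cons 185 26 (.leaf [(197,209),(29,134)]) (.cons 204 29 (.leaf [(26,134),(185,197)]) (.cons 206 26 (.leaf [(29,134),(185,197)]) .nil)))))))) (.cons 134 29 (.cons 185 61 (.leaf [(197,209),(26,98)]) (.cons 61 185 (.leaf [(98,209),(26,206)])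 (.cons 98 61 (.leaf [(26,206),(185,197)]) (.cons 209 185 (.leaf [(61,98),(26,206)]) (.cons 197 185 (.leaf [(26,206),(61,98)]) (.cons 206 98 (.leaf [(61,185),(197,209)]) (.cons 26 98 (.leaf [(61,185),(197,209)]) .nil))))))) (.cons 197 185 (.leaf [(26,29),(134,204),(61,209),(98,206)]) (.cons 204 29 (.cons 185 61 (.leaf [(197,209),(26,98)]) (.cons 61 185 (.leaf [(98,209),(26,134)]) (.cons 209 185 (.leaf [(61,98),(26,134)]) (.cons 98 61 (.leaf [(26,134),(185,197)]) (.cons 197 185 (.leaf [(61,209),(26,98)]) (.cons 134 185 (.leaf [(26,206),(61,98)]) (.cons 206 185 (.leaf [(26,134),(61,98)]) (.cons 26 185 (.leaf [(61,209),(98,134)]) .nil)))))))) (.cons 206 98 (.leaf [(26,29),(61,185),(134,204),(197,209)]) .nil)))))))))) (.cons 207 27 (.cons 209 61 (.leaf [(185,197),(204,206),(29,134),(26,98)]) (.cons 61 185 (.cons 209 98 (.leaf [(204,206),(29,134)]) (.cons 98 209 (.leaf [(26,206),(29,134)]) (.cons 204 209 (.leaf [(29,134),(26,98)]) (.cons 134 98 (.leaf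 [(29,204),(206,209)]) (.cons 206 209 (.leaf [(26,98),(29,134)]) (.cons 29 204 (.leaf [(98,209),(26,134)]) (.cons 26 98 (.leaf [(29,134),(204,206)]) .nil))))))) (.cons 185 61 (.leaf [(197,209),(29,134),(204,206),(26,98)]) (.cons 204 209 (.leaf [(29,134),(61,185),(26,98)]) (.cons 98 209 (.leaf [(61,185),(26,206),(29,134)]) (.cons 134 209 (.leaf [(29,204),(61,185),(26,98)]) (.cons 206 209 (.leaf [(61,185),(26,98),(29,134)]) (.cons 197 209 (.leaf [(61,185),(29,134),(26,98)]) (.cons 29 209 (.leaf [(61,185),(134,204),(26,98)]) (.cons 26 209 (.leaf [(61,185),(29,204),(98,134)]) .nil)))))))))) (.cons 209 61 (.cons 207 27 (.leaf [(185,197),(204,206),(29,134),(26,98)]) (.cons 27 207 (.leaf [(26,29),(185,197),(134,204),(98,206)]) (.cons 197 185 (.cons 207 27 (.leaf [(204,206),(29,134),(26,98)]) (.cons 27 207 (.leaf [(26,29),(134,204),(98,206)]) (.cons 204 207 (.leaf [(29,134),(26,27),(98,206)]) (.cons 29 27 (.leaf [(134,204),(206,207),(26,98)]) (.cons 134 204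 (.leaf [(27,207),(26,29),(98,206)]) (.cons 206 207 (.leaf [(26,27),(29,204),(98,134)]) (.cons 26 27 (.leaf [(29,134),(98,206),(204,207)]) (.cons 98 207 (.leaf [(26,27),(29,204),(134,206)]) .nil)))))))) (.cons 204 207 (.leaf [(29,134),(185,197),(26,27),(98,206)]) (.cons 185 197 (.cons 207 27 (.leaf [(204,206),(29,134),(26,98)]) (.cons 27 207 (.leaf [(26,29),(134,204),(98,206)]) (.cons 204 207 (.leaf [(29,134),(26,27),(98,206)]) (.cons 29 27 (.leaf [(134,204),(206,207),(26,98)]) (.cons 134 204 (.leaf [(27,207),(26,29),(98,206)]) (.cons 206 207 (.leaf [(26,27),(29,204),(98,134)]) (.cons 26 27 (.leaf [(29,134),(98,206),(204,207)]) (.cons 98 207 (.leaf [(26,27),(29,204),(134,206)]) .nil)))))))) (.cons 29 27 (.leaf [(134,204),(185,197),(206,207),(26,98)]) (.cons 134 204 (.leaf [(27,207),(185,197),(26,29),(98,206)]) (.cons 206 207 (.leaf [(185,197),(26,27),(29,204),(98,134)]) (.cons 26 27 (.leaf [(185,197),(29,134),(98,206),(204,207)]) (.cons 98 207 (.leaf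 [(185,197),(26,27),(29,204),(134,206)]) .nil)))))))))) (.cons 29 27 (.cons 185 61 (.leaf [(134,204),(197,209),(26,98),(206,207)]) (.cons 61 185 (.cons 98 209 (.leaf [(134,204),(26,206)]) (.cons 134 204 (.leaf [(98,209),(26,206)]) (.cons 204 134 (.leaf [(98,209),(206,207)]) (.cons 209 98 (.leaf [(134,204),(206,207)]) (.cons 206 209 (.leaf [(134,204),(26,98)]) (.cons 207 204 (.leaf [(98,209),(26,134)]) (.cons 26 98 (.leaf [(134,204),(206,207)]) .nil))))))) (.cons 134 204 (.cons 185 61 (.leaf [(197,209),(26,98)]) (.cons 61 185 (.leaf [(98,209),(26,206)]) (.cons 98 61 (.leaf [(26,206),(185,197)]) (.cons 209 185 (.leaf [(61,98),(26,206)]) (.cons 197 185 (.leaf [(26,206),(61,98)]) (.cons 206 98 (.leaf [(61,185),(197,209)]) (.cons 26 98 (.leaf [(61,185),(197,209)]) .nil))))))) (.cons 204 134 (.cons 209 185 (.leaf [(61,98),(206,207)]) (.cons 185 61 (.leaf [(197,209),(206,207)]) (.cons 61 185 (.leaf [(98,209),(206,207)]) (.cons 98 209 (.leaf [(61,185)]) (.cons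 197 209 (.leaf [(61,185)]) (.cons 206 209 (.leaf [(61,185)]) (.cons 207 209 (.leaf [(61,185)]) .nil))))))) (.cons 209 61 (.leaf [(134,204),(185,197),(206,207),(26,98)]) (.cons 98 61 (.leaf [(134,204),(26,206),(185,197),(207,209)]) (.cons 197 185 (.leaf [(134,204),(61,209),(26,98),(206,207)]) (.cons 206 209 (.leaf [(61,185),(134,204),(26,98)]) (.cons 207 209 (.leaf [(61,185),(134,204),(26,98)]) (.cons 26 61 (.leaf [(134,204),(98,206),(185,197),(207,209)]) .nil)))))))))) (.cons 98 61 (.cons 27 207 (.cons 26 29 (.leaf [(134,206),(185,197)]) (.cons 29 26 (.leaf [(134,204),(185,197)]) (.cons 134 26 (.leaf [(29,204),(185,197)]) (.cons 209 26 (.leaf [(185,197),(29,134)]) (.cons 197 26 (.leaf [(185,209),(29,134)]) (.cons 185 26 (.leaf [(197,209),(29,134)]) (.cons 204 29 (.leaf [(26,134),(185,197)]) (.cons 206 26 (.leaf [(29,134),(185,197)]) .nil)))))))) (.cons 207 27 (.leaf [(26,206),(29,134),(185,197),(204,209)]) (.cons 134 26 (.leaf [(27,207),(29,204),(185,197),(206,209)])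 (.cons 26 27 (.leaf [(134,206),(29,204),(185,197),(207,209)]) (.cons 29 27 (.leaf [(134,204),(26,206),(185,197),(207,209)]) (.cons 204 134 (.leaf [(27,207),(26,29),(185,197),(206,209)]) (.cons 206 134 (.leaf [(27,207),(26,29),(185,197),(204,209)]) (.cons 209 207 (.leaf [(185,197),(26,27),(29,204),(134,206)]) (.cons 197 27 (.leaf [(185,209),(26,206),(29,134),(204,207)]) (.cons 185 27 (.leaf [(197,209),(26,206),(29,134),(204,207)]) .nil)))))))))) (.cons 134 29 (.cons 185 61 (.leaf [(27,207),(197,209),(26,98),(204,206)]) (.cons 61 185 (.cons 98 209 (.leaf [(26,206),(27,207)]) (.cons 207 27 (.cons 209 98 (.leaf [(204,206)]) (.cons 98 209 (.leaf [(26,206)]) (.cons 206 209 (.leaf [(26,98)]) (.cons 26 98 (.leaf [(204,206)]) (.cons 204 209 (.leaf [(26,98)]) .nil))))) (.cons 209 98 (.leaf [(27,207),(204,206)]) (.cons 27 207 (.leaf [(98,209),(26,206)]) (.cons 206 98 (.leaf [(27,207),(204,209)]) (.cons 26 98 (.leaf [(27,207),(204,206)]) (.cons 204 98 (.leaf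 [(27,207),(206,209)]) .nil))))))) (.cons 207 27 (.cons 209 61 (.leaf [(185,197),(204,206),(26,98)]) (.cons 185 61 (.leaf [(197,209),(26,98),(204,206)]) (.cons 61 185 (.cons 209 98 (.leaf [(204,206)]) (.cons 98 209 (.leaf [(26,206)]) (.cons 206 209 (.leaf [(26,98)]) (.cons 26 98 (.leaf [(204,206)]) (.cons 204 209 (.leaf [(26,98)]) .nil))))) (.cons 98 209 (.leaf [(26,206),(61,185)]) (.cons 206 209 (.leaf [(26,98),(61,185)]) (.cons 197 209 (.leaf [(61,185),(26,98)]) (.cons 204 209 (.leaf [(61,185),(26,98)]) (.cons 26 98 (.leaf [(61,185),(197,209),(204,206)]) .nil)))))))) (.cons 209 61 (.leaf [(27,207),(185,197),(26,98),(204,206)]) (.cons 98 61 (.leaf [(26,206),(27,207),(185,197),(204,209)]) (.cons 27 207 (.cons 185 61 (.leaf [(197,209),(26,98)]) (.cons 61 185 (.leaf [(98,209),(26,206)]) (.cons 98 61 (.leaf [(26,206),(185,197)]) (.cons 209 185 (.leaf [(61,98),(26,206)]) (.cons 197 185 (.leaf [(26,206),(61,98)]) (.cons 206 98 (.leaf [(61,185),(197,209)])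 (.cons 26 98 (.leaf [(61,185),(197,209)]) .nil))))))) (.cons 206 209 (.leaf [(26,98),(27,207),(61,185)]) (.cons 197 185 (.leaf [(27,207),(26,98),(61,209),(204,206)]) (.cons 26 98 (.leaf [(27,207),(61,185),(197,209),(204,206)]) (.cons 204 209 (.leaf [(27,207),(61,185),(26,98)]) .nil)))))))))) (.cons 204 27 (.cons 209 61 (.leaf [(29,134),(185,197),(206,207),(26,98)]) (.cons 61 185 (.cons 209 98 (.leaf [(29,134),(206,207)]) (.cons 98 209 (.leaf [(29,134),(26,206)]) (.cons 134 29 (.cons 209 98 (.leaf [(206,207)]) (.cons 98 209 (.leaf [(26,206)]) (.cons 206 209 (.leaf [(26,98)]) (.cons 26 98 (.leaf [(206,207)]) (.cons 207 209 (.leaf [(26,98)]) .nil))))) (.cons 29 134 (.leaf [(98,209),(206,207)]) (.cons 206 209 (.leaf [(29,134),(26,98)]) (.cons 207 209 (.leaf [(29,134),(26,98)]) (.cons 26 209 (.leaf [(29,134),(98,206)]) .nil))))))) (.cons 185 61 (.leaf [(29,134),(197,209),(206,207),(26,98)]) (.cons 134 29 (.cons 209 61 (.leaf [(185,197),(206,207),(26,98)])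 (.cons 185 61 (.leaf [(197,209),(26,98),(206,207)]) (.cons 61 185 (.cons 209 98 (.leaf [(206,207)]) (.cons 98 209 (.leaf [(26,206)]) (.cons 206 209 (.leaf [(26,98)]) (.cons 26 98 (.leaf [(206,207)]) (.cons 207 209 (.leaf [(26,98)]) .nil))))) (.cons 98 209 (.leaf [(26,206),(61,185)]) (.cons 206 209 (.leaf [(26,98),(61,185)]) (.cons 197 209 (.leaf [(61,185),(26,98)]) (.cons 207 209 (.leaf [(61,185),(26,98)]) (.cons 26 98 (.leaf [(61,185),(197,209),(206,207)]) .nil)))))))) (.cons 29 134 (.cons 209 185 (.leaf [(61,98),(206,207)]) (.cons 185 61 (.leaf [(197,209),(206,207)]) (.cons 61 185 (.leaf [(98,209),(206,207)]) (.cons 98 209 (.leaf [(61,185)]) (.cons 197 209 (.leaf [(61,185)]) (.cons 206 209 (.leaf [(61,185)]) (.cons 207 209 (.leaf [(61,185)]) .nil))))))) (.cons 98 209 (.leaf [(29,134),(61,185),(26,206)]) (.cons 206 209 (.leaf [(29,134),(61,185),(26,98)]) (.cons 197 209 (.leaf [(29,134),(61,185),(26,98)]) (.cons 207 209 (.leaf [(29,134),(61,185),(26,98)])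 (.cons 26 209 (.leaf [(29,134),(61,185),(98,206)]) .nil)))))))))) (.cons 26 27 (.cons 61 185 (.cons 98 209 (.leaf [(134,206),(29,204)]) (.cons 209 98 (.leaf [(29,134),(204,206)]) (.cons 134 98 (.leaf [(29,204),(206,207)]) (.cons 204 209 (.leaf [(29,134),(98,206)]) (.cons 206 98 (.leaf [(29,134),(204,207)]) (.cons 29 98 (.leaf [(134,204),(206,207)]) (.cons 207 98 (.leaf [(29,134),(204,206)]) .nil))))))) (.cons 185 61 (.leaf [(197,209),(29,134),(98,206),(204,207)]) (.cons 209 61 (.leaf [(185,197),(29,134),(98,206),(204,207)]) (.cons 98 61 (.leaf [(134,206),(29,204),(185,197),(207,209)]) (.cons 134 98 (.leaf [(29,204),(61,185),(197,209),(206,207)]) (.cons 204 209 (.leaf [(29,134),(61,185),(98,206)]) (.cons 206 98 (.leaf [(61,185),(29,134),(197,209),(204,207)]) (.cons 197 185 (.leaf [(29,134),(61,209),(98,206),(204,207)]) (.cons 29 61 (.leaf [(134,204),(98,206),(185,197),(207,209)]) (.cons 207 209 (.leaf [(61,185),(29,204),(98,134)]) .nil)))))))))) (.cons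 197 209 (.leaf [(27,207),(61,185),(26,29),(134,204),(98,206)]) (.cons 206 27 (.cons 209 61 (.leaf [(185,197),(204,207),(26,98),(29,134)]) (.cons 61 185 (.cons 98 209 (.leaf [(26,134),(29,204)]) (.cons 209 98 (.leaf [(204,207),(29,134)]) (.cons 134 98 (.leaf [(29,204),(207,209)]) (.cons 204 209 (.leaf [(29,134),(26,98)]) (.cons 207 209 (.leaf [(26,98),(29,134)]) (.cons 26 98 (.leaf [(29,134),(204,207)]) (.cons 29 209 (.leaf [(134,204),(26,98)]) .nil))))))) (.cons 185 61 (.leaf [(197,209),(26,98),(29,134),(204,207)]) (.cons 98 209 (.leaf [(26,134),(61,185),(29,204)]) (.cons 134 209 (.leaf [(26,98),(29,204),(61,185)]) (.cons 204 209 (.leaf [(29,134),(61,185),(26,98)]) (.cons 197 209 (.leaf [(61,185),(26,98),(29,134)]) (.cons 207 209 (.leaf [(61,185),(26,98),(29,134)]) (.cons 26 98 (.leaf [(61,185),(29,134),(197,209),(204,207)]) (.cons 29 209 (.leaf [(61,185),(134,204),(26,98)]) .nil)))))))))) .nil)))))))))))) (.cons 61 185 (.cons 171 168 (.cons 27 207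 (.cons 29 26 (.leaf [(98,209),(134,204)]) (.cons 98 209 (.cons 26 29 (.leaf [(134,206)]) (.cons 29 26 (.leaf [(134,204)]) (.cons 134 26 (.leaf [(29,204)]) (.cons 204 29 (.leaf [(26,134)]) (.cons 206 26 (.leaf [(29,134)]) .nil))))) (.cons 26 29 (.leaf [(98,209),(134,206)]) (.cons 209 98 (.leaf [(26,29),(134,204)]) (.cons 134 29 (.leaf [(98,209),(26,206)]) (.cons 204 29 (.leaf [(98,209),(26,134)]) (.cons 206 98 (.leaf [(26,29),(134,204)]) .nil))))))) (.cons 98 209 (.cons 27 207 (.cons 26 29 (.leaf [(134,206)]) (.cons 29 26 (.leaf [(134,204)]) (.cons 134 26 (.leaf [(29,204)]) (.cons 204 29 (.leaf [(26,134)]) (.cons 206 26 (.leaf [(29,134)]) .nil))))) (.cons 134 26 (.leaf [(27,207),(29,204)]) (.cons 207 27 (.leaf [(26,206),(29,134)]) (.cons 26 27 (.leaf [(134,206),(29,204)]) (.cons 29 27 (.leaf [(134,204),(26,206)]) (.cons 204 134 (.leaf [(27,207),(26,29)]) (.cons 206 134 (.leaf [(27,207),(26,29)]) .nil))))))) (.cons 207 27 (.cons 209 98 (.leaf [(204,206),(29,134)])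 (.cons 98 209 (.leaf [(26,206),(29,134)]) (.cons 204 209 (.leaf [(29,134),(26,98)]) (.cons 134 98 (.leaf [(29,204),(206,209)]) (.cons 206 209 (.leaf [(26,98),(29,134)]) (.cons 29 204 (.leaf [(98,209),(26,134)]) (.cons 26 98 (.leaf [(29,134),(204,206)]) .nil))))))) (.cons 209 98 (.cons 207 27 (.leaf [(204,206),(29,134)]) (.cons 27 207 (.leaf [(26,29),(134,204)]) (.cons 204 207 (.leaf [(29,134),(26,27)]) (.cons 29 27 (.leaf [(134,204),(206,207)]) (.cons 134 27 (.leaf [(29,204),(206,207)]) (.cons 206 207 (.leaf [(26,27),(29,134)]) (.cons 26 27 (.leaf [(29,134),(204,206)]) .nil))))))) (.cons 29 27 (.cons 98 209 (.leaf [(134,204),(26,206)]) (.cons 134 204 (.leaf [(98,209),(26,206)]) (.cons 204 134 (.leaf [(98,209),(206,207)]) (.cons 209 98 (.leaf [(134,204),(206,207)]) (.cons 206 209 (.leaf [(134,204),(26,98)]) (.cons 207 204 (.leaf [(98,209),(26,134)]) (.cons 26 98 (.leaf [(134,204),(206,207)]) .nil))))))) (.cons 134 27 (.cons 98 209 (.leaf [(26,206),(29,204)])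 (.cons 204 29 (.cons 209 98 (.leaf [(206,207)]) (.cons 98 209 (.leaf [(26,206)]) (.cons 206 209 (.leaf [(26,98)]) (.cons 26 98 (.leaf [(206,207)]) (.cons 207 209 (.leaf [(26,98)]) .nil))))) (.cons 209 98 (.leaf [(29,204),(206,207)]) (.cons 29 204 (.leaf [(98,209),(26,206)]) (.cons 206 98 (.leaf [(29,204),(207,209)]) (.cons 26 98 (.leaf [(29,204),(206,207)]) (.cons 207 98 (.leaf [(29,204),(206,209)]) .nil))))))) (.cons 204 207 (.cons 29 134 (.leaf [(26,27),(98,209)]) (.cons 98 209 (.cons 134 29 (.leaf [(26,206)]) (.cons 29 134 (.leaf [(26,27)]) (.cons 26 134 (.leaf [(27,29)]) (.cons 27 29 (.leaf [(26,134)]) (.cons 206 134 (.leaf [(26,27)]) .nil))))) (.cons 134 29 (.leaf [(98,209),(26,206)]) (.cons 209 98 (.leaf [(29,134),(26,27)]) (.cons 26 29 (.leaf [(98,209),(134,206)]) (.cons 27 29 (.leaf [(98,209),(26,134)]) (.cons 206 98 (.leaf [(29,134),(26,27)]) .nil))))))) (.cons 26 27 (.cons 98 209 (.leaf [(134,206),(29,204)]) (.cons 209 98 (.leaf [(29,134),(204,206)])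 (.cons 134 98 (.leaf [(29,204),(206,207)]) (.cons 204 209 (.leaf [(29,134),(98,206)]) (.cons 206 98 (.leaf [(29,134),(204,207)]) (.cons 29 98 (.leaf [(134,204),(206,207)]) (.cons 207 98 (.leaf [(29,134),(204,206)]) .nil))))))) (.cons 206 98 (.cons 207 27 (.leaf [(204,209),(29,134)]) (.cons 27 207 (.leaf [(26,29),(134,204)]) (.cons 204 207 (.leaf [(29,134),(26,27)]) (.cons 29 27 (.leaf [(134,204),(207,209)]) (.cons 134 27 (.leaf [(29,204),(207,209)]) (.cons 209 207 (.leaf [(26,27),(29,134)]) (.cons 26 27 (.leaf [(29,134),(204,207)]) .nil))))))) .nil))))))))) (.cons 98 209 (.cons 171 168 (.cons 27 207 (.cons 26 29 (.leaf [(134,206)]) (.cons 29 26 (.leaf [(134,204)]) (.cons 134 26 (.leaf [(29,204)]) (.cons 204 29 (.leaf [(26,134)]) (.cons 206 26 (.leaf [(29,134)]) .nil))))) (.cons 134 26 (.leaf [(27,207),(29,204)]) (.cons 207 27 (.leaf [(26,206),(29,134)]) (.cons 26 27 (.leaf [(134,206),(29,204)]) (.cons 29 27 (.leaf [(134,204),(26,206)]) (.cons 204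 134 (.leaf [(27,207),(26,29)]) (.cons 206 134 (.leaf [(27,207),(26,29)]) .nil))))))) (.cons 134 26 (.leaf [(29,204),(168,171),(27,207)]) (.cons 168 171 (.leaf [(26,27),(29,204),(134,206)]) (.cons 26 27 (.leaf [(134,206),(168,171),(29,204)]) (.cons 27 171 (.cons 26 29 (.leaf [(134,206)]) (.cons 29 26 (.leaf [(134,204)]) (.cons 134 26 (.leaf [(29,204)]) (.cons 204 29 (.leaf [(26,134)]) (.cons 206 26 (.leaf [(29,134)]) .nil))))) (.cons 29 26 (.leaf [(134,204),(168,171),(27,207)]) (.cons 204 134 (.leaf [(168,171),(26,29),(27,207)]) (.cons 206 134 (.leaf [(168,171),(26,29),(27,207)]) (.cons 207 171 (.leaf [(26,27),(29,204),(134,206)]) .nil))))))))) (.cons 209 98 (.cons 171 168 (.cons 207 27 (.leaf [(204,206),(29,134)]) (.cons 27 207 (.leaf [(26,29),(134,204)]) (.cons 204 207 (.leaf [(29,134),(26,27)]) (.cons 29 27 (.leaf [(134,204),(206,207)]) (.cons 134 27 (.leaf [(29,204),(206,207)]) (.cons 206 207 (.leaf [(26,27),(29,134)]) (.cons 26 27 (.leaf [(29,134),(204,206)])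 .nil))))))) (.cons 168 171 (.leaf [(26,27),(29,134),(204,206)]) (.cons 204 171 (.leaf [(29,134),(206,207),(26,27)]) (.cons 207 171 (.leaf [(204,206),(26,27),(29,134)]) (.cons 27 171 (.leaf [(26,29),(134,204),(206,207)]) (.cons 29 171 (.leaf [(26,27),(134,204),(206,207)]) (.cons 134 171 (.leaf [(29,204),(26,27),(206,207)]) (.cons 206 171 (.leaf [(204,207),(26,27),(29,134)]) (.cons 26 171 (.leaf [(27,29),(134,204),(206,207)]) .nil))))))))) (.cons 168 171 (.cons 98 209 (.leaf [(26,27),(29,204),(134,206)]) (.cons 209 98 (.leaf [(26,27),(29,134),(204,206)]) (.cons 29 98 (.leaf [(26,27),(134,204),(206,207)]) (.cons 134 98 (.leaf [(29,204),(26,27),(206,207)]) (.cons 204 209 (.leaf [(29,134),(26,27),(98,206)]) (.cons 26 98 (.leaf [(27,29),(134,204),(206,207)]) (.cons 206 98 (.leaf [(26,27),(29,134),(204,207)]) (.cons 27 29 (.leaf [(98,209),(26,134),(204,206)]) (.cons 207 209 (.leaf [(26,98),(27,29),(134,204)]) .nil))))))))) (.cons 27 171 (.cons 29 26 (.leaf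 [(98,209),(134,204),(206,207)]) (.cons 98 209 (.cons 26 29 (.leaf [(134,206)]) (.cons 29 26 (.leaf [(134,204)]) (.cons 134 26 (.leaf [(29,204)]) (.cons 204 29 (.leaf [(26,134)]) (.cons 206 26 (.leaf [(29,134)]) .nil))))) (.cons 209 98 (.leaf [(26,29),(134,204),(206,207)]) (.cons 26 29 (.leaf [(98,209),(134,206),(204,207)]) (.cons 134 29 (.leaf [(98,209),(26,206),(204,207)]) (.cons 204 29 (.leaf [(98,209),(206,207),(26,134)]) (.cons 206 98 (.leaf [(26,29),(134,204),(207,209)]) (.cons 207 209 (.leaf [(26,29),(134,204),(98,206)]) .nil)))))))) (.cons 29 27 (.cons 98 209 (.leaf [(134,204),(168,171),(26,206)]) (.cons 134 204 (.leaf [(98,209),(168,171),(26,206)]) (.cons 204 134 (.leaf [(98,209),(168,171),(206,207)]) (.cons 209 98 (.leaf [(134,204),(168,171),(206,207)]) (.cons 168 171 (.cons 98 209 (.leaf [(134,204),(26,206)]) (.cons 134 204 (.leaf [(98,209),(26,206)]) (.cons 204 134 (.leaf [(98,209),(206,207)]) (.cons 209 98 (.leaf [(134,204),(206,207)])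 (.cons 206 209 (.leaf [(134,204),(26,98)]) (.cons 207 204 (.leaf [(98,209),(26,134)]) (.cons 26 98 (.leaf [(134,204),(206,207)]) .nil))))))) (.cons 171 168 (.cons 98 209 (.leaf [(134,204),(26,206)]) (.cons 134 204 (.leaf [(98,209),(26,206)]) (.cons 204 134 (.leaf [(98,209),(206,207)]) (.cons 209 98 (.leaf [(134,204),(206,207)]) (.cons 206 209 (.leaf [(134,204),(26,98)]) (.cons 207 204 (.leaf [(98,209),(26,134)]) (.cons 26 98 (.leaf [(134,204),(206,207)]) .nil))))))) (.cons 206 98 (.leaf [(134,204),(168,171),(207,209)]) (.cons 207 204 (.leaf [(98,209),(168,171),(26,134)]) (.cons 26 98 (.leaf [(134,204),(168,171),(206,207)]) .nil))))))))) (.cons 134 29 (.cons 98 209 (.leaf [(26,206),(168,171),(27,207)]) (.cons 171 168 (.cons 98 209 (.leaf [(26,206),(27,207)]) (.cons 207 27 (.cons 209 98 (.leaf [(204,206)]) (.cons 98 209 (.leaf [(26,206)]) (.cons 206 209 (.leaf [(26,98)]) (.cons 26 98 (.leaf [(204,206)]) (.cons 204 209 (.leaf [(26,98)]) .nil))))) (.cons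 209 98 (.leaf [(27,207),(204,206)]) (.cons 27 207 (.leaf [(98,209),(26,206)]) (.cons 206 98 (.leaf [(27,207),(204,209)]) (.cons 26 98 (.leaf [(27,207),(204,206)]) (.cons 204 98 (.leaf [(27,207),(206,209)]) .nil))))))) (.cons 209 98 (.leaf [(168,171),(27,207),(204,206)]) (.cons 168 171 (.leaf [(98,209),(26,206),(204,207)]) (.cons 206 98 (.leaf [(168,171),(27,207),(204,209)]) (.cons 207 171 (.cons 209 98 (.leaf [(204,206)]) (.cons 98 209 (.leaf [(26,206)]) (.cons 206 209 (.leaf [(26,98)]) (.cons 26 98 (.leaf [(204,206)]) (.cons 204 209 (.leaf [(26,98)]) .nil))))) (.cons 26 98 (.leaf [(168,171),(27,207),(204,206)]) (.cons 27 171 (.leaf [(98,209),(26,206),(204,207)]) (.cons 204 98 (.leaf [(168,171),(27,207),(206,209)]) .nil))))))))) (.cons 204 171 (.cons 209 98 (.leaf [(29,134),(206,207),(26,27)]) (.cons 29 134 (.leaf [(26,27),(98,209),(206,207)]) (.cons 98 209 (.cons 134 29 (.leaf [(26,206)]) (.cons 29 134 (.leaf [(26,27)]) (.cons 26 134 (.leaf [(27,29)])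 (.cons 27 29 (.leaf [(26,134)]) (.cons 206 134 (.leaf [(26,27)]) .nil))))) (.cons 134 29 (.cons 209 98 (.leaf [(206,207)]) (.cons 98 209 (.leaf [(26,206)]) (.cons 206 209 (.leaf [(26,98)]) (.cons 26 98 (.leaf [(206,207)]) (.cons 207 209 (.leaf [(26,98)]) .nil))))) (.cons 206 98 (.leaf [(29,134),(207,209),(26,27)]) (.cons 26 134 (.leaf [(27,29),(98,209),(206,207)]) (.cons 207 209 (.leaf [(29,134),(26,27),(98,206)]) (.cons 27 29 (.leaf [(98,209),(206,207),(26,134)]) .nil)))))))) (.cons 207 171 (.cons 209 98 (.leaf [(204,206),(26,27),(29,134)]) (.cons 98 209 (.leaf [(26,27),(29,204),(134,206)]) (.cons 204 209 (.leaf [(29,134),(26,27),(98,206)]) (.cons 29 204 (.leaf [(26,27),(98,209),(134,206)]) (.cons 134 98 (.leaf [(29,204),(26,27),(206,209)]) (.cons 206 209 (.leaf [(26,27),(29,204),(98,134)]) (.cons 26 98 (.leaf [(27,29),(134,204),(206,209)]) (.cons 27 209 (.leaf [(26,29),(134,204),(98,206)]) .nil)))))))) (.cons 26 27 (.cons 98 209 (.leaf [(134,206),(168,171),(29,204)])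 (.cons 209 98 (.leaf [(168,171),(29,134),(204,206)]) (.cons 134 98 (.leaf [(29,204),(168,171),(206,207)]) (.cons 168 171 (.cons 98 209 (.leaf [(134,206),(29,204)]) (.cons 209 98 (.leaf [(29,134),(204,206)]) (.cons 134 98 (.leaf [(29,204),(206,207)]) (.cons 204 209 (.leaf [(29,134),(98,206)]) (.cons 206 98 (.leaf [(29,134),(204,207)]) (.cons 29 98 (.leaf [(134,204),(206,207)]) (.cons 207 98 (.leaf [(29,134),(204,206)]) .nil))))))) (.cons 171 168 (.cons 98 209 (.leaf [(134,206),(29,204)]) (.cons 209 98 (.leaf [(29,134),(204,206)]) (.cons 134 98 (.leaf [(29,204),(206,207)]) (.cons 204 209 (.leaf [(29,134),(98,206)]) (.cons 206 98 (.leaf [(29,134),(204,207)]) (.cons 29 98 (.leaf [(134,204),(206,207)]) (.cons 207 98 (.leaf [(29,134),(204,206)]) .nil))))))) (.cons 204 98 (.leaf [(29,134),(168,171),(206,207)]) (.cons 206 98 (.leaf [(168,171),(29,134),(204,207)]) (.cons 29 98 (.leaf [(134,204),(168,171),(206,207)]) (.cons 207 98 (.leaf [(168,171),(29,134),(204,206)])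 .nil))))))))) (.cons 206 171 (.cons 98 209 (.cons 134 26 (.leaf [(29,204)]) (.cons 26 134 (.leaf [(27,29)]) (.cons 29 134 (.leaf [(26,27)]) (.cons 27 26 (.leaf [(29,134)]) (.cons 204 134 (.leaf [(26,27)]) .nil))))) (.cons 209 98 (.leaf [(204,207),(26,27),(29,134)]) (.cons 134 98 (.leaf [(29,204),(26,27),(207,209)]) (.cons 204 98 (.leaf [(29,134),(207,209),(26,27)]) (.cons 26 98 (.leaf [(27,29),(134,204),(207,209)]) (.cons 29 98 (.leaf [(26,27),(134,204),(207,209)]) (.cons 207 209 (.leaf [(26,27),(29,204),(98,134)]) (.cons 27 98 (.leaf [(26,29),(134,204),(207,209)]) .nil)))))))) .nil))))))))))) (.cons 185 61 (.cons 171 168 (.cons 27 207 (.leaf [(26,29),(197,209),(134,204),(98,206)]) (.cons 207 27 (.leaf [(197,209),(29,134),(204,206),(26,98)]) (.cons 209 197 (.cons 207 27 (.leaf [(204,206),(29,134),(26,98)]) (.cons 27 207 (.leaf [(26,29),(134,204),(98,206)]) (.cons 204 207 (.leaf [(29,134),(26,27),(98,206)]) (.cons 29 27 (.leaf [(134,204),(206,207),(26,98)])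 (.cons 134 204 (.leaf [(27,207),(26,29),(98,206)]) (.cons 206 207 (.leaf [(26,27),(29,204),(98,134)]) (.cons 26 27 (.leaf [(29,134),(98,206),(204,207)]) (.cons 98 207 (.leaf [(26,27),(29,204),(134,206)]) .nil)))))))) (.cons 197 209 (.leaf [(27,207),(26,29),(134,204),(98,206)]) (.cons 29 27 (.leaf [(134,204),(197,209),(26,98),(206,207)]) (.cons 134 27 (.leaf [(29,204),(197,209),(26,98),(206,207)]) (.cons 204 207 (.leaf [(29,134),(197,209),(26,27),(98,206)]) (.cons 26 27 (.leaf [(197,209),(29,134),(98,206),(204,207)]) (.cons 206 207 (.leaf [(197,209),(26,27),(29,204),(98,134)]) (.cons 98 27 (.leaf [(197,209),(26,206),(29,134),(204,207)]) .nil)))))))))) (.cons 209 197 (.cons 171 168 (.cons 207 27 (.leaf [(204,206),(29,134),(26,98)]) (.cons 27 207 (.leaf [(26,29),(134,204),(98,206)]) (.cons 204 207 (.leaf [(29,134),(26,27),(98,206)]) (.cons 29 27 (.leaf [(134,204),(206,207),(26,98)]) (.cons 134 204 (.leaf [(27,207),(26,29),(98,206)]) (.cons 206 207 (.leaf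 [(26,27),(29,204),(98,134)]) (.cons 26 27 (.leaf [(29,134),(98,206),(204,207)]) (.cons 98 207 (.leaf [(26,27),(29,204),(134,206)]) .nil)))))))) (.cons 168 171 (.leaf [(26,98),(27,29),(134,204),(206,207)]) (.cons 204 207 (.leaf [(29,134),(168,171),(26,27),(98,206)]) (.cons 207 27 (.leaf [(168,171),(204,206),(29,134),(26,98)]) (.cons 27 207 (.leaf [(26,29),(168,171),(134,204),(98,206)]) (.cons 29 27 (.leaf [(134,204),(168,171),(206,207),(26,98)]) (.cons 134 204 (.leaf [(168,171),(26,29),(27,207),(98,206)]) (.cons 206 204 (.leaf [(168,171),(26,29),(27,207),(98,134)]) (.cons 26 27 (.leaf [(168,171),(29,134),(98,206),(204,207)]) (.cons 98 134 (.leaf [(168,171),(26,29),(27,207),(204,206)]) .nil)))))))))) (.cons 197 209 (.leaf [(168,171),(26,29),(27,207),(134,204),(98,206)]) (.cons 168 171 (.leaf [(197,209),(26,27),(29,134),(204,207),(98,206)]) (.cons 27 207 (.leaf [(26,29),(168,171),(197,209),(134,204),(98,206)]) (.cons 29 27 (.leaf [(134,204),(168,171),(197,209),(26,98),(206,207)])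 (.cons 134 29 (.leaf [(168,171),(197,209),(26,98),(27,207),(204,206)]) (.cons 204 207 (.leaf [(29,134),(168,171),(197,209),(26,27),(98,206)]) (.cons 207 27 (.leaf [(168,171),(197,209),(29,134),(204,206),(26,98)]) (.cons 26 27 (.leaf [(168,171),(197,209),(29,134),(98,206),(204,207)]) (.cons 206 204 (.leaf [(168,171),(197,209),(26,29),(27,207),(98,134)]) (.cons 98 134 (.leaf [(168,171),(197,209),(26,29),(27,207),(204,206)]) .nil)))))))))))) (.cons 209 61 (.cons 171 168 (.cons 207 27 (.leaf [(185,197),(204,206),(29,134),(26,98)]) (.cons 27 207 (.leaf [(26,29),(185,197),(134,204),(98,206)]) (.cons 197 185 (.cons 207 27 (.leaf [(204,206),(29,134),(26,98)]) (.cons 27 207 (.leaf [(26,29),(134,204),(98,206)]) (.cons 204 207 (.leaf [(29,134),(26,27),(98,206)]) (.cons 29 27 (.leaf [(134,204),(206,207),(26,98)]) (.cons 134 204 (.leaf [(27,207),(26,29),(98,206)]) (.cons 206 207 (.leaf [(26,27),(29,204),(98,134)]) (.cons 26 27 (.leaf [(29,134),(98,206),(204,207)])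 (.cons 98 207 (.leaf [(26,27),(29,204),(134,206)]) .nil)))))))) (.cons 204 207 (.leaf [(29,134),(185,197),(26,27),(98,206)]) (.cons 185 197 (.cons 207 27 (.leaf [(204,206),(29,134),(26,98)]) (.cons 27 207 (.leaf [(26,29),(134,204),(98,206)]) (.cons 204 207 (.leaf [(29,134),(26,27),(98,206)]) (.cons 29 27 (.leaf [(134,204),(206,207),(26,98)]) (.cons 134 204 (.leaf [(27,207),(26,29),(98,206)]) (.cons 206 207 (.leaf [(26,27),(29,204),(98,134)]) (.cons 26 27 (.leaf [(29,134),(98,206),(204,207)]) (.cons 98 207 (.leaf [(26,27),(29,204),(134,206)]) .nil)))))))) (.cons 29 27 (.leaf [(134,204),(185,197),(206,207),(26,98)]) (.cons 134 204 (.leaf [(27,207),(185,197),(26,29),(98,206)]) (.cons 206 207 (.leaf [(185,197),(26,27),(29,204),(98,134)]) (.cons 26 27 (.leaf [(185,197),(29,134),(98,206),(204,207)]) (.cons 98 207 (.leaf [(185,197),(26,27),(29,204),(134,206)]) .nil)))))))))) (.cons 197 185 (.cons 171 168 (.cons 207 27 (.leaf [(204,206),(29,134),(26,98)])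 (.cons 27 207 (.leaf [(26,29),(134,204),(98,206)]) (.cons 204 207 (.leaf [(29,134),(26,27),(98,206)]) (.cons 29 27 (.leaf [(134,204),(206,207),(26,98)]) (.cons 134 204 (.leaf [(27,207),(26,29),(98,206)]) (.cons 206 207 (.leaf [(26,27),(29,204),(98,134)]) (.cons 26 27 (.leaf [(29,134),(98,206),(204,207)]) (.cons 98 207 (.leaf [(26,27),(29,204),(134,206)]) .nil)))))))) (.cons 168 171 (.leaf [(26,98),(27,29),(134,204),(206,207)]) (.cons 204 207 (.leaf [(29,134),(168,171),(26,27),(98,206)]) (.cons 207 27 (.leaf [(168,171),(204,206),(29,134),(26,98)]) (.cons 27 207 (.leaf [(26,29),(168,171),(134,204),(98,206)]) (.cons 29 27 (.leaf [(134,204),(168,171),(206,207),(26,98)]) (.cons 134 204 (.leaf [(168,171),(26,29),(27,207),(98,206)]) (.cons 206 204 (.leaf [(168,171),(26,29),(27,207),(98,134)]) (.cons 26 27 (.leaf [(168,171),(29,134),(98,206),(204,207)]) (.cons 98 134 (.leaf [(168,171),(26,29),(27,207),(204,206)]) .nil)))))))))) (.cons 168 171 (.leaf [(185,197),(26,98),(27,29),(134,204),(206,207)])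 (.cons 204 207 (.leaf [(29,134),(168,171),(185,197),(26,27),(98,206)]) (.cons 207 27 (.leaf [(168,171),(185,197),(204,206),(29,134),(26,98)]) (.cons 185 197 (.cons 171 168 (.cons 207 27 (.leaf [(204,206),(29,134),(26,98)]) (.cons 27 207 (.leaf [(26,29),(134,204),(98,206)]) (.cons 204 207 (.leaf [(29,134),(26,27),(98,206)]) (.cons 29 27 (.leaf [(134,204),(206,207),(26,98)]) (.cons 134 204 (.leaf [(27,207),(26,29),(98,206)]) (.cons 206 207 (.leaf [(26,27),(29,204),(98,134)]) (.cons 26 27 (.leaf [(29,134),(98,206),(204,207)]) (.cons 98 207 (.leaf [(26,27),(29,204),(134,206)]) .nil)))))))) (.cons 168 171 (.leaf [(26,98),(27,29),(134,204),(206,207)]) (.cons 204 207 (.leaf [(29,134),(168,171),(26,27),(98,206)]) (.cons 207 27 (.leaf [(168,171),(204,206),(29,134),(26,98)]) (.cons 27 207 (.leaf [(26,29),(168,171),(134,204),(98,206)]) (.cons 29 27 (.leaf [(134,204),(168,171),(206,207),(26,98)]) (.cons 134 204 (.leaf [(168,171),(26,29),(27,207),(98,206)]) (.cons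 206 204 (.leaf [(168,171),(26,29),(27,207),(98,134)]) (.cons 26 27 (.leaf [(168,171),(29,134),(98,206),(204,207)]) (.cons 98 134 (.leaf [(168,171),(26,29),(27,207),(204,206)]) .nil)))))))))) (.cons 27 207 (.leaf [(26,29),(168,171),(185,197),(134,204),(98,206)]) (.cons 29 27 (.leaf [(134,204),(168,171),(185,197),(206,207),(26,98)]) (.cons 134 204 (.leaf [(168,171),(185,197),(26,29),(27,207),(98,206)]) (.cons 206 204 (.leaf [(168,171),(185,197),(26,29),(27,207),(98,134)]) (.cons 26 27 (.leaf [(168,171),(185,197),(29,134),(98,206),(204,207)]) (.cons 98 134 (.leaf [(168,171),(185,197),(26,29),(27,207),(204,206)]) .nil)))))))))))) (.cons 168 171 (.cons 61 185 (.cons 98 209 (.leaf [(26,27),(29,204),(134,206)]) (.cons 209 98 (.leaf [(26,27),(29,134),(204,206)]) (.cons 29 98 (.leaf [(26,27),(134,204),(206,207)]) (.cons 134 98 (.leaf [(29,204),(26,27),(206,207)]) (.cons 204 209 (.leaf [(29,134),(26,27),(98,206)]) (.cons 26 98 (.leaf [(27,29),(134,204),(206,207)])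 (.cons 206 98 (.leaf [(26,27),(29,134),(204,207)]) (.cons 27 29 (.leaf [(98,209),(26,134),(204,206)]) (.cons 207 209 (.leaf [(26,98),(27,29),(134,204)]) .nil))))))))) (.cons 185 61 (.leaf [(197,209),(26,27),(29,134),(204,207),(98,206)]) (.cons 209 61 (.leaf [(185,197),(26,98),(27,29),(134,204),(206,207)]) (.cons 29 61 (.leaf [(26,27),(134,204),(185,197),(98,206),(207,209)]) (.cons 98 61 (.leaf [(26,27),(29,204),(134,206),(185,197),(207,209)]) (.cons 134 61 (.leaf [(29,204),(26,27),(98,206),(185,197),(207,209)]) (.cons 204 209 (.leaf [(29,134),(61,185),(26,27),(98,206)]) (.cons 26 61 (.leaf [(27,29),(134,204),(98,206),(185,197),(207,209)]) (.cons 197 185 (.leaf [(26,27),(29,134),(61,209),(98,206),(204,207)]) (.cons 206 209 (.leaf [(61,185),(26,27),(29,204),(98,134)]) (.cons 27 61 (.leaf [(26,29),(134,204),(185,197),(98,206),(207,209)]) (.cons 207 209 (.leaf [(61,185),(26,98),(27,29),(134,204)]) .nil)))))))))))) (.cons 27 171 (.cons 61 185 (.cons 29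 26 (.leaf [(98,209),(134,204),(206,207)]) (.cons 98 209 (.cons 26 29 (.leaf [(134,206)]) (.cons 29 26 (.leaf [(134,204)]) (.cons 134 26 (.leaf [(29,204)]) (.cons 204 29 (.leaf [(26,134)]) (.cons 206 26 (.leaf [(29,134)]) .nil))))) (.cons 209 98 (.leaf [(26,29),(134,204),(206,207)]) (.cons 26 29 (.leaf [(98,209),(134,206),(204,207)]) (.cons 134 29 (.leaf [(98,209),(26,206),(204,207)]) (.cons 204 29 (.leaf [(98,209),(206,207),(26,134)]) (.cons 206 98 (.leaf [(26,29),(134,204),(207,209)]) (.cons 207 209 (.leaf [(26,29),(134,204),(98,206)]) .nil)))))))) (.cons 185 61 (.cons 29 26 (.leaf [(134,204),(197,209),(206,207)]) (.cons 209 197 (.cons 29 26 (.leaf [(134,204),(206,207)]) (.cons 26 29 (.leaf [(98,134),(204,206)]) (.cons 204 29 (.leaf [(206,207),(26,98)]) (.cons 134 29 (.leaf [(26,98),(204,206)]) (.cons 206 204 (.leaf [(26,29),(98,134)]) (.cons 207 204 (.leaf [(26,29),(98,134)]) (.cons 98 26 (.leaf [(29,134),(204,206)]) .nil))))))) (.cons 26 29 (.leaf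 [(197,209),(98,134),(204,206)]) (.cons 197 209 (.leaf [(26,29),(134,204),(98,206)]) (.cons 134 29 (.leaf [(197,209),(26,98),(204,206)]) (.cons 204 29 (.leaf [(197,209),(206,207),(26,98)]) (.cons 206 26 (.leaf [(197,209),(29,134),(204,207)]) (.cons 98 26 (.leaf [(197,209),(29,134),(204,206)]) (.cons 207 209 (.leaf [(26,29),(134,204),(98,206)]) .nil))))))))) (.cons 29 26 (.cons 185 61 (.leaf [(134,204),(197,209),(206,207)]) (.cons 61 185 (.leaf [(98,209),(134,204),(206,207)]) (.cons 204 134 (.cons 209 185 (.leaf [(61,98),(206,207)]) (.cons 185 61 (.leaf [(197,209),(206,207)]) (.cons 61 185 (.leaf [(98,209),(206,207)]) (.cons 98 209 (.leaf [(61,185)]) (.cons 197 209 (.leaf [(61,185)]) (.cons 206 209 (.leaf [(61,185)]) (.cons 207 209 (.leaf [(61,185)]) .nil))))))) (.cons 209 185 (.leaf [(61,98),(134,204),(206,207)]) (.cons 134 204 (.cons 185 61 (.leaf [(197,209)]) (.cons 61 185 (.leaf [(98,209)]) (.cons 209 185 (.leaf [(61,98)]) (.cons 98 61 (.leaf [(185,197)])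 (.cons 197 185 (.leaf [(61,98)]) .nil))))) (.cons 98 61 (.leaf [(134,204),(185,197),(206,207)]) (.cons 197 185 (.leaf [(134,204),(61,98),(206,207)]) (.cons 206 209 (.leaf [(61,185),(134,204)]) (.cons 207 209 (.leaf [(61,185),(134,204)]) .nil))))))))) (.cons 209 185 (.cons 29 26 (.leaf [(61,98),(134,204),(206,207)]) (.cons 98 61 (.cons 26 29 (.leaf [(134,206),(204,207)]) (.cons 29 26 (.leaf [(134,204),(206,207)]) (.cons 134 26 (.leaf [(29,204),(206,207)]) (.cons 204 29 (.leaf [(206,207),(26,134)]) (.cons 206 26 (.leaf [(204,207),(29,134)]) (.cons 207 26 (.leaf [(204,206),(29,134)]) .nil)))))) (.cons 26 29 (.leaf [(61,98),(134,206),(204,207)]) (.cons 204 29 (.leaf [(61,98),(206,207),(26,134)]) (.cons 61 98 (.leaf [(26,29),(134,204),(206,207)]) (.cons 134 29 (.leaf [(61,98),(26,206),(204,207)]) (.cons 206 26 (.leaf [(61,98),(204,207),(29,134)]) (.cons 207 204 (.leaf [(26,29),(61,98),(134,206)]) .nil)))))))) (.cons 26 29 (.cons 185 61 (.leaf [(197,209),(98,134),(204,206)])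 (.cons 61 185 (.leaf [(98,209),(134,206),(204,207)]) (.cons 209 185 (.leaf [(61,98),(134,206),(204,207)]) (.cons 98 61 (.leaf [(134,206),(185,197),(204,207)]) (.cons 206 98 (.leaf [(61,185),(197,209),(204,207)]) (.cons 197 185 (.leaf [(61,209),(98,134),(204,206)]) (.cons 134 98 (.leaf [(61,185),(197,209),(204,206)]) (.cons 204 209 (.leaf [(61,185),(98,134)]) (.cons 207 209 (.leaf [(61,185),(98,134)]) .nil))))))))) (.cons 98 61 (.cons 26 29 (.leaf [(134,206),(185,197),(204,207)]) (.cons 29 26 (.leaf [(134,204),(185,197),(206,207)]) (.cons 134 26 (.leaf [(29,204),(185,197),(206,207)]) (.cons 204 29 (.leaf [(26,134),(185,197),(206,207)]) (.cons 206 26 (.leaf [(29,134),(185,197),(204,207)]) (.cons 209 26 (.leaf [(185,197),(29,134),(204,206)]) (.cons 197 26 (.leaf [(185,209),(29,134),(204,206)]) (.cons 185 26 (.leaf [(197,209),(29,134),(204,206)]) (.cons 207 26 (.leaf [(29,134),(185,197),(204,206)]) .nil))))))))) (.cons 134 29 (.cons 185 61 (.leaf [(197,209),(26,98),(204,206)])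 (.cons 61 185 (.leaf [(98,209),(26,206),(204,207)]) (.cons 209 185 (.leaf [(61,98),(26,206),(204,207)]) (.cons 98 61 (.leaf [(26,206),(185,197),(204,207)]) (.cons 206 98 (.leaf [(61,185),(197,209),(204,207)]) (.cons 197 185 (.leaf [(26,98),(61,209),(204,206)]) (.cons 26 98 (.leaf [(61,185),(197,209),(204,206)]) (.cons 204 209 (.leaf [(61,185),(26,98)]) (.cons 207 209 (.leaf [(61,185),(26,98)]) .nil))))))))) (.cons 204 29 (.cons 209 185 (.leaf [(61,98),(206,207),(26,134)]) (.cons 185 61 (.leaf [(197,209),(206,207),(26,98)]) (.cons 61 185 (.leaf [(98,209),(206,207),(26,134)]) (.cons 98 209 (.leaf [(61,185),(26,134)]) (.cons 206 209 (.leaf [(61,185),(26,98)]) (.cons 197 209 (.leaf [(61,185),(26,98)]) (.cons 207 209 (.leaf [(61,185),(26,98)]) (.cons 134 209 (.leaf [(61,185),(26,98)]) (.cons 26 209 (.leaf [(61,185),(98,134)]) .nil))))))))) (.cons 197 209 (.leaf [(26,29),(61,185),(134,204),(98,206)]) (.cons 206 185 (.cons 29 26 (.leaf [(134,204),(61,98),(207,209)])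 (.cons 26 29 (.leaf [(98,134),(61,209),(204,207)]) (.cons 98 26 (.leaf [(61,209),(29,134),(204,207)]) (.cons 134 29 (.leaf [(26,98),(61,209),(204,207)]) (.cons 204 29 (.leaf [(207,209),(26,134),(61,98)]) (.cons 209 26 (.leaf [(61,98),(204,207),(29,134)]) (.cons 207 204 (.leaf [(26,29),(98,134),(61,209)]) (.cons 61 98 (.leaf [(26,29),(134,204),(207,209)]) .nil)))))))) (.cons 207 209 (.leaf [(26,29),(61,185),(134,204),(98,206)]) .nil))))))))))) (.cons 29 27 (.cons 185 61 (.leaf [(134,204),(168,171),(197,209),(26,98),(206,207)]) (.cons 61 185 (.cons 98 209 (.leaf [(134,204),(168,171),(26,206)]) (.cons 134 204 (.leaf [(98,209),(168,171),(26,206)]) (.cons 204 134 (.leaf [(98,209),(168,171),(206,207)]) (.cons 209 98 (.leaf [(134,204),(168,171),(206,207)]) (.cons 168 171 (.cons 98 209 (.leaf [(134,204),(26,206)]) (.cons 134 204 (.leaf [(98,209),(26,206)]) (.cons 204 134 (.leaf [(98,209),(206,207)]) (.cons 209 98 (.leaf [(134,204),(206,207)]) (.cons 206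 209 (.leaf [(134,204),(26,98)]) (.cons 207 204 (.leaf [(98,209),(26,134)]) (.cons 26 98 (.leaf [(134,204),(206,207)]) .nil))))))) (.cons 171 168 (.cons 98 209 (.leaf [(134,204),(26,206)]) (.cons 134 204 (.leaf [(98,209),(26,206)]) (.cons 204 134 (.leaf [(98,209),(206,207)]) (.cons 209 98 (.leaf [(134,204),(206,207)]) (.cons 206 209 (.leaf [(134,204),(26,98)]) (.cons 207 204 (.leaf [(98,209),(26,134)]) (.cons 26 98 (.leaf [(134,204),(206,207)]) .nil))))))) (.cons 206 98 (.leaf [(134,204),(168,171),(207,209)]) (.cons 207 204 (.leaf [(98,209),(168,171),(26,134)]) (.cons 26 98 (.leaf [(134,204),(168,171),(206,207)]) .nil))))))))) (.cons 134 204 (.cons 185 61 (.leaf [(168,171),(197,209),(26,98)]) (.cons 61 185 (.leaf [(98,209),(168,171),(26,206)]) (.cons 98 61 (.leaf [(26,206),(168,171),(185,197)]) (.cons 168 171 (.cons 185 61 (.leaf [(197,209),(26,98)]) (.cons 61 185 (.leaf [(98,209),(26,206)]) (.cons 98 61 (.leaf [(26,206),(185,197)]) (.cons 209 185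 (.leaf [(61,98),(26,206)]) (.cons 197 185 (.leaf [(26,206),(61,98)]) (.cons 206 98 (.leaf [(61,185),(197,209)]) (.cons 26 98 (.leaf [(61,185),(197,209)]) .nil))))))) (.cons 171 168 (.cons 185 61 (.leaf [(197,209),(26,98)]) (.cons 61 185 (.leaf [(98,209),(26,206)]) (.cons 98 61 (.leaf [(26,206),(185,197)]) (.cons 209 185 (.leaf [(61,98),(26,206)]) (.cons 197 185 (.leaf [(26,206),(61,98)]) (.cons 206 98 (.leaf [(61,185),(197,209)]) (.cons 26 98 (.leaf [(61,185),(197,209)]) .nil))))))) (.cons 209 185 (.leaf [(61,98),(168,171),(26,206)]) (.cons 197 185 (.leaf [(168,171),(26,206),(61,98)]) (.cons 206 98 (.leaf [(61,185),(168,171),(197,209)]) (.cons 26 98 (.leaf [(61,185),(168,171),(197,209)]) .nil))))))))) (.cons 204 134 (.cons 209 185 (.leaf [(61,98),(168,171),(206,207)]) (.cons 185 61 (.leaf [(168,171),(197,209),(206,207)]) (.cons 61 185 (.leaf [(98,209),(168,171),(206,207)]) (.cons 168 171 (.cons 209 185 (.leaf [(61,98),(206,207)]) (.cons 185 61 (.leaf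 [(197,209),(206,207)]) (.cons 61 185 (.leaf [(98,209),(206,207)]) (.cons 98 209 (.leaf [(61,185)]) (.cons 197 209 (.leaf [(61,185)]) (.cons 206 209 (.leaf [(61,185)]) (.cons 207 209 (.leaf [(61,185)]) .nil))))))) (.cons 171 168 (.cons 209 185 (.leaf [(61,98),(206,207)]) (.cons 185 61 (.leaf [(197,209),(206,207)]) (.cons 61 185 (.leaf [(98,209),(206,207)]) (.cons 98 209 (.leaf [(61,185)]) (.cons 197 209 (.leaf [(61,185)]) (.cons 206 209 (.leaf [(61,185)]) (.cons 207 209 (.leaf [(61,185)]) .nil))))))) (.cons 98 209 (.leaf [(61,185),(168,171)]) (.cons 197 209 (.leaf [(61,185),(168,171)]) (.cons 206 209 (.leaf [(61,185),(168,171)]) (.cons 207 209 (.leaf [(61,185),(168,171)]) .nil))))))))) (.cons 209 61 (.leaf [(134,204),(168,171),(185,197),(206,207),(26,98)]) (.cons 168 171 (.cons 185 61 (.leaf [(134,204),(197,209),(26,98),(206,207)]) (.cons 61 185 (.cons 98 209 (.leaf [(134,204),(26,206)]) (.cons 134 204 (.leaf [(98,209),(26,206)]) (.cons 204 134 (.leaf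 [(98,209),(206,207)]) (.cons 209 98 (.leaf [(134,204),(206,207)]) (.cons 206 209 (.leaf [(134,204),(26,98)]) (.cons 207 204 (.leaf [(98,209),(26,134)]) (.cons 26 98 (.leaf [(134,204),(206,207)]) .nil))))))) (.cons 134 204 (.cons 185 61 (.leaf [(197,209),(26,98)]) (.cons 61 185 (.leaf [(98,209),(26,206)]) (.cons 98 61 (.leaf [(26,206),(185,197)]) (.cons 209 185 (.leaf [(61,98),(26,206)]) (.cons 197 185 (.leaf [(26,206),(61,98)]) (.cons 206 98 (.leaf [(61,185),(197,209)]) (.cons 26 98 (.leaf [(61,185),(197,209)]) .nil))))))) (.cons 204 134 (.cons 209 185 (.leaf [(61,98),(206,207)]) (.cons 185 61 (.leaf [(197,209),(206,207)]) (.cons 61 185 (.leaf [(98,209),(206,207)]) (.cons 98 209 (.leaf [(61,185)]) (.cons 197 209 (.leaf [(61,185)]) (.cons 206 209 (.leaf [(61,185)]) (.cons 207 209 (.leaf [(61,185)]) .nil))))))) (.cons 209 61 (.leaf [(134,204),(185,197),(206,207),(26,98)]) (.cons 98 61 (.leaf [(134,204),(26,206),(185,197),(207,209)]) (.cons 197 185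 (.leaf [(134,204),(61,209),(26,98),(206,207)]) (.cons 206 209 (.leaf [(61,185),(134,204),(26,98)]) (.cons 207 209 (.leaf [(61,185),(134,204),(26,98)]) (.cons 26 61 (.leaf [(134,204),(98,206),(185,197),(207,209)]) .nil)))))))))) (.cons 171 168 (.cons 185 61 (.leaf [(134,204),(197,209),(26,98),(206,207)]) (.cons 61 185 (.cons 98 209 (.leaf [(134,204),(26,206)]) (.cons 134 204 (.leaf [(98,209),(26,206)]) (.cons 204 134 (.leaf [(98,209),(206,207)]) (.cons 209 98 (.leaf [(134,204),(206,207)]) (.cons 206 209 (.leaf [(134,204),(26,98)]) (.cons 207 204 (.leaf [(98,209),(26,134)]) (.cons 26 98 (.leaf [(134,204),(206,207)]) .nil))))))) (.cons 134 204 (.cons 185 61 (.leaf [(197,209),(26,98)]) (.cons 61 185 (.leaf [(98,209),(26,206)]) (.cons 98 61 (.leaf [(26,206),(185,197)]) (.cons 209 185 (.leaf [(61,98),(26,206)]) (.cons 197 185 (.leaf [(26,206),(61,98)]) (.cons 206 98 (.leaf [(61,185),(197,209)]) (.cons 26 98 (.leaf [(61,185),(197,209)]) .nil))))))) (.cons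 204 134 (.cons 209 185 (.leaf [(61,98),(206,207)]) (.cons 185 61 (.leaf [(197,209),(206,207)]) (.cons 61 185 (.leaf [(98,209),(206,207)]) (.cons 98 209 (.leaf [(61,185)]) (.cons 197 209 (.leaf [(61,185)]) (.cons 206 209 (.leaf [(61,185)]) (.cons 207 209 (.leaf [(61,185)]) .nil))))))) (.cons 209 61 (.leaf [(134,204),(185,197),(206,207),(26,98)]) (.cons 98 61 (.leaf [(134,204),(26,206),(185,197),(207,209)]) (.cons 197 185 (.leaf [(134,204),(61,209),(26,98),(206,207)]) (.cons 206 209 (.leaf [(61,185),(134,204),(26,98)]) (.cons 207 209 (.leaf [(61,185),(134,204),(26,98)]) (.cons 26 61 (.leaf [(134,204),(98,206),(185,197),(207,209)]) .nil)))))))))) (.cons 98 61 (.leaf [(134,204),(168,171),(26,206),(185,197),(207,209)]) (.cons 197 185 (.leaf [(134,204),(168,171),(61,209),(26,98),(206,207)]) (.cons 206 209 (.leaf [(61,185),(134,204),(168,171),(26,98)]) (.cons 207 209 (.leaf [(61,185),(134,204),(168,171),(26,98)]) (.cons 26 61 (.leaf [(134,204),(168,171),(98,206),(185,197),(207,209)])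 .nil)))))))))))) (.cons 98 61 (.cons 171 168 (.cons 27 207 (.cons 26 29 (.leaf [(134,206),(185,197)]) (.cons 29 26 (.leaf [(134,204),(185,197)]) (.cons 134 26 (.leaf [(29,204),(185,197)]) (.cons 209 26 (.leaf [(185,197),(29,134)]) (.cons 197 26 (.leaf [(185,209),(29,134)]) (.cons 185 26 (.leaf [(197,209),(29,134)]) (.cons 204 29 (.leaf [(26,134),(185,197)]) (.cons 206 26 (.leaf [(29,134),(185,197)]) .nil)))))))) (.cons 207 27 (.leaf [(26,206),(29,134),(185,197),(204,209)]) (.cons 134 26 (.leaf [(27,207),(29,204),(185,197),(206,209)]) (.cons 26 27 (.leaf [(134,206),(29,204),(185,197),(207,209)]) (.cons 29 27 (.leaf [(134,204),(26,206),(185,197),(207,209)]) (.cons 204 134 (.leaf [(27,207),(26,29),(185,197),(206,209)]) (.cons 206 134 (.leaf [(27,207),(26,29),(185,197),(204,209)]) (.cons 209 207 (.leaf [(185,197),(26,27),(29,204),(134,206)]) (.cons 197 27 (.leaf [(185,209),(26,206),(29,134),(204,207)]) (.cons 185 27 (.leaf [(197,209),(26,206),(29,134),(204,207)])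 .nil)))))))))) (.cons 134 26 (.leaf [(29,204),(168,171),(27,207),(185,197),(206,209)]) (.cons 168 171 (.leaf [(26,27),(29,204),(134,206),(185,197),(207,209)]) (.cons 26 27 (.leaf [(134,206),(168,171),(29,204),(185,197),(207,209)]) (.cons 27 171 (.cons 26 29 (.leaf [(134,206),(185,197),(204,207)]) (.cons 29 26 (.leaf [(134,204),(185,197),(206,207)]) (.cons 134 26 (.leaf [(29,204),(185,197),(206,207)]) (.cons 204 29 (.leaf [(26,134),(185,197),(206,207)]) (.cons 206 26 (.leaf [(29,134),(185,197),(204,207)]) (.cons 209 26 (.leaf [(185,197),(29,134),(204,206)]) (.cons 197 26 (.leaf [(185,209),(29,134),(204,206)]) (.cons 185 26 (.leaf [(197,209),(29,134),(204,206)]) (.cons 207 26 (.leaf [(29,134),(185,197),(204,206)]) .nil))))))))) (.cons 29 26 (.leaf [(134,204),(168,171),(27,207),(185,197),(206,209)]) (.cons 204 134 (.leaf [(168,171),(26,29),(27,207),(185,197),(206,209)]) (.cons 206 134 (.leaf [(168,171),(26,29),(27,207),(185,197),(204,209)]) (.cons 207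 27 (.leaf [(168,171),(26,206),(29,134),(185,197),(204,209)]) (.cons 209 134 (.leaf [(168,171),(185,197),(26,29),(27,207),(204,206)]) (.cons 197 134 (.leaf [(168,171),(185,209),(26,29),(27,207),(204,206)]) (.cons 185 134 (.leaf [(168,171),(197,209),(26,29),(27,207),(204,206)]) .nil)))))))))))) (.cons 134 29 (.cons 171 168 (.cons 185 61 (.leaf [(27,207),(197,209),(26,98),(204,206)]) (.cons 61 185 (.cons 98 209 (.leaf [(26,206),(27,207)]) (.cons 207 27 (.cons 209 98 (.leaf [(204,206)]) (.cons 98 209 (.leaf [(26,206)]) (.cons 206 209 (.leaf [(26,98)]) (.cons 26 98 (.leaf [(204,206)]) (.cons 204 209 (.leaf [(26,98)]) .nil))))) (.cons 209 98 (.leaf [(27,207),(204,206)]) (.cons 27 207 (.leaf [(98,209),(26,206)]) (.cons 206 98 (.leaf [(27,207),(204,209)]) (.cons 26 98 (.leaf [(27,207),(204,206)]) (.cons 204 98 (.leaf [(27,207),(206,209)]) .nil))))))) (.cons 207 27 (.cons 209 61 (.leaf [(185,197),(204,206),(26,98)]) (.cons 185 61 (.leaf [(197,209),(26,98),(204,206)])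 (.cons 61 185 (.cons 209 98 (.leaf [(204,206)]) (.cons 98 209 (.leaf [(26,206)]) (.cons 206 209 (.leaf [(26,98)]) (.cons 26 98 (.leaf [(204,206)]) (.cons 204 209 (.leaf [(26,98)]) .nil))))) (.cons 98 209 (.leaf [(26,206),(61,185)]) (.cons 206 209 (.leaf [(26,98),(61,185)]) (.cons 197 209 (.leaf [(61,185),(26,98)]) (.cons 204 209 (.leaf [(61,185),(26,98)]) (.cons 26 98 (.leaf [(61,185),(197,209),(204,206)]) .nil)))))))) (.cons 209 61 (.leaf [(27,207),(185,197),(26,98),(204,206)]) (.cons 98 61 (.leaf [(26,206),(27,207),(185,197),(204,209)]) (.cons 27 207 (.cons 185 61 (.leaf [(197,209),(26,98)]) (.cons 61 185 (.leaf [(98,209),(26,206)]) (.cons 98 61 (.leaf [(26,206),(185,197)]) (.cons 209 185 (.leaf [(61,98),(26,206)]) (.cons 197 185 (.leaf [(26,206),(61,98)]) (.cons 206 98 (.leaf [(61,185),(197,209)]) (.cons 26 98 (.leaf [(61,185),(197,209)]) .nil))))))) (.cons 206 209 (.leaf [(26,98),(27,207),(61,185)]) (.cons 197 185 (.leaf [(27,207),(26,98),(61,209),(204,206)])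 (.cons 26 98 (.leaf [(27,207),(61,185),(197,209),(204,206)]) (.cons 204 209 (.leaf [(27,207),(61,185),(26,98)]) .nil)))))))))) (.cons 185 61 (.leaf [(168,171),(197,209),(26,98),(27,207),(204,206)]) (.cons 61 185 (.cons 98 209 (.leaf [(26,206),(168,171),(27,207)]) (.cons 171 168 (.cons 98 209 (.leaf [(26,206),(27,207)]) (.cons 207 27 (.cons 209 98 (.leaf [(204,206)]) (.cons 98 209 (.leaf [(26,206)]) (.cons 206 209 (.leaf [(26,98)]) (.cons 26 98 (.leaf [(204,206)]) (.cons 204 209 (.leaf [(26,98)]) .nil))))) (.cons 209 98 (.leaf [(27,207),(204,206)]) (.cons 27 207 (.leaf [(98,209),(26,206)]) (.cons 206 98 (.leaf [(27,207),(204,209)]) (.cons 26 98 (.leaf [(27,207),(204,206)]) (.cons 204 98 (.leaf [(27,207),(206,209)]) .nil))))))) (.cons 209 98 (.leaf [(168,171),(27,207),(204,206)]) (.cons 168 171 (.leaf [(98,209),(26,206),(204,207)]) (.cons 206 98 (.leaf [(168,171),(27,207),(204,209)]) (.cons 207 171 (.cons 209 98 (.leaf [(204,206)]) (.cons 98 209 (.leaf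 [(26,206)]) (.cons 206 209 (.leaf [(26,98)]) (.cons 26 98 (.leaf [(204,206)]) (.cons 204 209 (.leaf [(26,98)]) .nil))))) (.cons 26 98 (.leaf [(168,171),(27,207),(204,206)]) (.cons 27 171 (.leaf [(98,209),(26,206),(204,207)]) (.cons 204 98 (.leaf [(168,171),(27,207),(206,209)]) .nil))))))))) (.cons 209 61 (.leaf [(168,171),(185,197),(26,98),(27,207),(204,206)]) (.cons 98 61 (.leaf [(26,206),(168,171),(27,207),(185,197),(204,209)]) (.cons 168 171 (.cons 185 61 (.leaf [(197,209),(26,98),(204,206)]) (.cons 61 185 (.leaf [(98,209),(26,206),(204,207)]) (.cons 209 185 (.leaf [(61,98),(26,206),(204,207)]) (.cons 98 61 (.leaf [(26,206),(185,197),(204,207)]) (.cons 206 98 (.leaf [(61,185),(197,209),(204,207)]) (.cons 197 185 (.leaf [(26,98),(61,209),(204,206)]) (.cons 26 98 (.leaf [(61,185),(197,209),(204,206)]) (.cons 204 209 (.leaf [(61,185),(26,98)]) (.cons 207 209 (.leaf [(61,185),(26,98)]) .nil))))))))) (.cons 206 209 (.leaf [(26,98),(61,185),(168,171),(27,207)])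 (.cons 207 171 (.cons 209 61 (.leaf [(185,197),(204,206),(26,98)]) (.cons 185 61 (.leaf [(197,209),(26,98),(204,206)]) (.cons 61 185 (.cons 209 98 (.leaf [(204,206)]) (.cons 98 209 (.leaf [(26,206)]) (.cons 206 209 (.leaf [(26,98)]) (.cons 26 98 (.leaf [(204,206)]) (.cons 204 209 (.leaf [(26,98)]) .nil))))) (.cons 98 209 (.leaf [(26,206),(61,185)]) (.cons 206 209 (.leaf [(26,98),(61,185)]) (.cons 197 209 (.leaf [(61,185),(26,98)]) (.cons 204 209 (.leaf [(61,185),(26,98)]) (.cons 26 98 (.leaf [(61,185),(197,209),(204,206)]) .nil)))))))) (.cons 197 185 (.leaf [(168,171),(26,98),(27,207),(61,209),(204,206)]) (.cons 26 98 (.leaf [(61,185),(168,171),(27,207),(197,209),(204,206)]) (.cons 27 171 (.cons 185 61 (.leaf [(197,209),(26,98),(204,206)]) (.cons 61 185 (.leaf [(98,209),(26,206),(204,207)]) (.cons 209 185 (.leaf [(61,98),(26,206),(204,207)]) (.cons 98 61 (.leaf [(26,206),(185,197),(204,207)]) (.cons 206 98 (.leaf [(61,185),(197,209),(204,207)]) (.cons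 197 185 (.leaf [(26,98),(61,209),(204,206)]) (.cons 26 98 (.leaf [(61,185),(197,209),(204,206)]) (.cons 204 209 (.leaf [(61,185),(26,98)]) (.cons 207 209 (.leaf [(61,185),(26,98)]) .nil))))))))) (.cons 204 209 (.leaf [(61,185),(168,171),(26,98),(27,207)]) .nil)))))))))))) (.cons 204 171 (.cons 209 61 (.cons 29 134 (.leaf [(26,27),(185,197),(206,207)]) (.cons 134 29 (.leaf [(185,197),(206,207),(26,98)]) (.cons 206 207 (.cons 134 29 (.leaf [(26,98),(185,197)]) (.cons 29 134 (.leaf [(26,27),(185,197)]) (.cons 197 185 (.cons 134 29 (.leaf [(26,98)]) (.cons 29 134 (.leaf [(26,27)]) (.cons 26 134 (.leaf [(27,29)]) (.cons 98 134 (.leaf [(26,27)]) (.cons 27 29 (.leaf [(26,98)]) .nil))))) (.cons 185 197 (.cons 134 29 (.leaf [(26,98)]) (.cons 29 134 (.leaf [(26,27)]) (.cons 26 134 (.leaf [(27,29)]) (.cons 98 134 (.leaf [(26,27)]) (.cons 27 29 (.leaf [(26,98)]) .nil))))) (.cons 26 134 (.leaf [(27,29),(185,197)]) (.cons 98 134 (.leaf [(185,197),(26,27)]) (.cons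 27 29 (.leaf [(185,197),(26,98)]) .nil))))))) (.cons 197 185 (.cons 29 134 (.leaf [(26,27),(206,207)]) (.cons 134 29 (.leaf [(206,207),(26,98)]) (.cons 206 207 (.cons 134 29 (.leaf [(26,98)]) (.cons 29 134 (.leaf [(26,27)]) (.cons 26 134 (.leaf [(27,29)]) (.cons 98 134 (.leaf [(26,27)]) (.cons 27 29 (.leaf [(26,98)]) .nil))))) (.cons 207 206 (.leaf [(29,134),(26,27)]) (.cons 26 29 (.leaf [(206,207),(98,134)]) (.cons 27 29 (.leaf [(206,207),(26,98)]) (.cons 98 134 (.leaf [(206,207),(26,27)]) .nil))))))) (.cons 207 206 (.leaf [(29,134),(185,197),(26,27)]) (.cons 185 197 (.cons 29 134 (.leaf [(26,27),(206,207)]) (.cons 134 29 (.leaf [(206,207),(26,98)]) (.cons 206 207 (.cons 134 29 (.leaf [(26,98)]) (.cons 29 134 (.leaf [(26,27)]) (.cons 26 134 (.leaf [(27,29)]) (.cons 98 134 (.leaf [(26,27)]) (.cons 27 29 (.leaf [(26,98)]) .nil))))) (.cons 207 206 (.leaf [(29,134),(26,27)]) (.cons 26 29 (.leaf [(206,207),(98,134)]) (.cons 27 29 (.leaf [(206,207),(26,98)])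 (.cons 98 134 (.leaf [(206,207),(26,27)]) .nil))))))) (.cons 26 29 (.leaf [(185,197),(206,207),(98,134)]) (.cons 27 29 (.leaf [(185,197),(206,207),(26,98)]) (.cons 98 134 (.leaf [(185,197),(206,207),(26,27)]) .nil))))))))) (.cons 61 185 (.cons 209 98 (.leaf [(29,134),(206,207),(26,27)]) (.cons 29 134 (.leaf [(26,27),(98,209),(206,207)]) (.cons 98 209 (.cons 134 29 (.leaf [(26,206)]) (.cons 29 134 (.leaf [(26,27)]) (.cons 26 134 (.leaf [(27,29)]) (.cons 27 29 (.leaf [(26,134)]) (.cons 206 134 (.leaf [(26,27)]) .nil))))) (.cons 134 29 (.cons 209 98 (.leaf [(206,207)]) (.cons 98 209 (.leaf [(26,206)]) (.cons 206 209 (.leaf [(26,98)]) (.cons 26 98 (.leaf [(206,207)]) (.cons 207 209 (.leaf [(26,98)]) .nil))))) (.cons 206 98 (.leaf [(29,134),(207,209),(26,27)]) (.cons 26 134 (.leaf [(27,29),(98,209),(206,207)]) (.cons 207 209 (.leaf [(29,134),(26,27),(98,206)]) (.cons 27 29 (.leaf [(98,209),(206,207),(26,134)]) .nil)))))))) (.cons 185 61 (.cons 209 197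 (.cons 29 134 (.leaf [(26,27),(206,207)]) (.cons 134 29 (.leaf [(206,207),(26,98)]) (.cons 206 207 (.cons 134 29 (.leaf [(26,98)]) (.cons 29 134 (.leaf [(26,27)]) (.cons 26 134 (.leaf [(27,29)]) (.cons 98 134 (.leaf [(26,27)]) (.cons 27 29 (.leaf [(26,98)]) .nil))))) (.cons 207 206 (.leaf [(29,134),(26,27)]) (.cons 26 29 (.leaf [(206,207),(98,134)]) (.cons 27 29 (.leaf [(206,207),(26,98)]) (.cons 98 134 (.leaf [(206,207),(26,27)]) .nil))))))) (.cons 29 134 (.leaf [(26,27),(197,209),(206,207)]) (.cons 134 29 (.leaf [(197,209),(26,98),(206,207)]) (.cons 197 209 (.leaf [(29,134),(26,27),(98,206)]) (.cons 206 209 (.cons 134 29 (.leaf [(26,98)]) (.cons 29 134 (.leaf [(26,27)]) (.cons 26 134 (.leaf [(27,29)]) (.cons 98 134 (.leaf [(26,27)]) (.cons 27 29 (.leaf [(26,98)]) .nil))))) (.cons 26 29 (.leaf [(197,209),(98,134),(206,207)]) (.cons 207 209 (.leaf [(29,134),(26,27),(98,206)]) (.cons 27 29 (.leaf [(197,209),(206,207),(26,98)]) (.cons 98 134 (.leaf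 [(197,209),(26,27),(206,207)]) .nil))))))))) (.cons 29 134 (.cons 209 185 (.leaf [(26,27),(61,98),(206,207)]) (.cons 185 61 (.leaf [(26,27),(197,209),(206,207)]) (.cons 61 185 (.leaf [(26,27),(98,209),(206,207)]) (.cons 26 27 (.cons 209 185 (.leaf [(61,98),(206,207)]) (.cons 185 61 (.leaf [(197,209),(206,207)]) (.cons 61 185 (.leaf [(98,209),(206,207)]) (.cons 98 209 (.leaf [(61,185)]) (.cons 197 209 (.leaf [(61,185)]) (.cons 206 209 (.leaf [(61,185)]) (.cons 207 209 (.leaf [(61,185)]) .nil))))))) (.cons 27 26 (.cons 209 185 (.leaf [(61,98),(206,207)]) (.cons 185 61 (.leaf [(197,209),(206,207)]) (.cons 61 185 (.leaf [(98,209),(206,207)]) (.cons 98 209 (.leaf [(61,185)]) (.cons 197 209 (.leaf [(61,185)]) (.cons 206 209 (.leaf [(61,185)]) (.cons 207 209 (.leaf [(61,185)]) .nil))))))) (.cons 98 209 (.leaf [(26,27),(61,185)]) (.cons 197 209 (.leaf [(26,27),(61,185)]) (.cons 206 209 (.leaf [(26,27),(61,185)]) (.cons 207 209 (.leaf [(26,27),(61,185)])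 .nil))))))))) (.cons 134 29 (.cons 209 61 (.leaf [(185,197),(206,207),(26,98)]) (.cons 185 61 (.leaf [(197,209),(26,98),(206,207)]) (.cons 61 185 (.cons 209 98 (.leaf [(206,207)]) (.cons 98 209 (.leaf [(26,206)]) (.cons 206 209 (.leaf [(26,98)]) (.cons 26 98 (.leaf [(206,207)]) (.cons 207 209 (.leaf [(26,98)]) .nil))))) (.cons 98 209 (.leaf [(26,206),(61,185)]) (.cons 206 209 (.leaf [(26,98),(61,185)]) (.cons 197 209 (.leaf [(61,185),(26,98)]) (.cons 207 209 (.leaf [(61,185),(26,98)]) (.cons 26 98 (.leaf [(61,185),(197,209),(206,207)]) .nil)))))))) (.cons 98 61 (.cons 134 29 (.leaf [(26,206),(185,197),(207,209)]) (.cons 29 134 (.leaf [(26,27),(185,197),(206,207)]) (.cons 206 134 (.leaf [(207,209),(26,27),(185,197)]) (.cons 209 134 (.leaf [(185,197),(206,207),(26,27)]) (.cons 26 134 (.leaf [(27,29),(185,197),(206,207)]) (.cons 197 134 (.leaf [(185,209),(26,27),(206,207)]) (.cons 207 134 (.leaf [(206,209),(26,27),(185,197)]) (.cons 185 134 (.leaf [(197,209),(26,27),(206,207)])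 (.cons 27 29 (.leaf [(26,134),(185,197),(206,207)]) .nil))))))))) (.cons 206 209 (.cons 134 29 (.leaf [(26,98),(61,185)]) (.cons 29 134 (.leaf [(26,27),(61,185)]) (.cons 61 185 (.cons 134 29 (.leaf [(26,98)]) (.cons 29 134 (.leaf [(26,27)]) (.cons 26 134 (.leaf [(27,29)]) (.cons 98 134 (.leaf [(26,27)]) (.cons 27 29 (.leaf [(26,98)]) .nil))))) (.cons 185 61 (.cons 134 29 (.leaf [(26,98)]) (.cons 29 134 (.leaf [(26,27)]) (.cons 26 134 (.leaf [(27,29)]) (.cons 98 134 (.leaf [(26,27)]) (.cons 27 29 (.leaf [(26,98)]) .nil))))) (.cons 26 134 (.leaf [(27,29),(61,185)]) (.cons 98 134 (.leaf [(61,185),(26,27)]) (.cons 27 29 (.leaf [(61,185),(26,98)]) .nil))))))) (.cons 26 29 (.cons 209 61 (.leaf [(185,197),(206,207),(98,134)]) (.cons 185 61 (.leaf [(197,209),(98,134),(206,207)]) (.cons 61 185 (.cons 209 98 (.leaf [(206,207)]) (.cons 98 209 (.leaf [(134,206)]) (.cons 206 209 (.leaf [(98,134)]) (.cons 134 98 (.leaf [(206,207)]) (.cons 207 209 (.leaf [(98,134)])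 .nil))))) (.cons 98 209 (.leaf [(61,185),(134,206)]) (.cons 206 209 (.leaf [(61,185),(98,134)]) (.cons 197 209 (.leaf [(61,185),(98,134)]) (.cons 134 98 (.leaf [(61,185),(197,209),(206,207)]) (.cons 207 209 (.leaf [(61,185),(98,134)]) .nil)))))))) (.cons 197 209 (.leaf [(29,134),(61,185),(26,27),(98,206)]) (.cons 207 209 (.leaf [(29,134),(61,185),(26,27),(98,206)]) (.cons 27 29 (.cons 209 185 (.leaf [(61,98),(206,207),(26,134)]) (.cons 185 61 (.leaf [(197,209),(206,207),(26,98)]) (.cons 61 185 (.leaf [(98,209),(206,207),(26,134)]) (.cons 98 209 (.leaf [(61,185),(26,134)]) (.cons 206 209 (.leaf [(61,185),(26,98)]) (.cons 197 209 (.leaf [(61,185),(26,98)]) (.cons 207 209 (.leaf [(61,185),(26,98)]) (.cons 134 209 (.leaf [(61,185),(26,98)]) (.cons 26 209 (.leaf [(61,185),(98,134)]) .nil))))))))) .nil))))))))))) (.cons 207 171 (.cons 209 185 (.cons 204 206 (.leaf [(29,134),(61,98),(26,27)]) (.cons 98 61 (.cons 204 206 (.leaf [(29,134),(26,27)]) (.cons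 206 204 (.leaf [(26,134),(27,29)]) (.cons 134 204 (.leaf [(26,206),(27,29)]) (.cons 26 206 (.leaf [(27,29),(134,204)]) (.cons 29 204 (.leaf [(26,27),(134,206)]) (.cons 27 26 (.leaf [(204,206),(29,134)]) .nil)))))) (.cons 206 204 (.leaf [(61,98),(26,134),(27,29)]) (.cons 61 98 (.leaf [(204,206),(26,27),(29,134)]) (.cons 29 204 (.leaf [(26,27),(61,98),(134,206)]) (.cons 134 204 (.leaf [(61,98),(26,206),(27,29)]) (.cons 26 204 (.leaf [(27,29),(61,98),(134,206)]) (.cons 27 204 (.leaf [(26,29),(61,98),(134,206)]) .nil)))))))) (.cons 61 185 (.cons 209 98 (.leaf [(204,206),(26,27),(29,134)]) (.cons 98 209 (.leaf [(26,27),(29,204),(134,206)]) (.cons 204 209 (.leaf [(29,134),(26,27),(98,206)]) (.cons 29 204 (.leaf [(26,27),(98,209),(134,206)]) (.cons 134 98 (.leaf [(29,204),(26,27),(206,209)]) (.cons 206 209 (.leaf [(26,27),(29,204),(98,134)]) (.cons 26 98 (.leaf [(27,29),(134,204),(206,209)]) (.cons 27 209 (.leaf [(26,29),(134,204),(98,206)]) .nil))))))))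 (.cons 185 61 (.cons 209 197 (.cons 204 206 (.leaf [(29,134),(26,27)]) (.cons 206 204 (.leaf [(26,98),(27,29)]) (.cons 29 204 (.leaf [(26,27),(98,134)]) (.cons 134 204 (.leaf [(26,98),(27,29)]) (.cons 26 204 (.leaf [(27,29),(98,134)]) (.cons 27 204 (.leaf [(26,29),(98,134)]) (.cons 98 204 (.leaf [(26,134),(27,29)]) .nil))))))) (.cons 197 209 (.leaf [(26,98),(27,29),(134,204)]) (.cons 204 209 (.leaf [(29,134),(26,27),(98,206)]) (.cons 29 204 (.leaf [(26,27),(197,209),(98,134)]) (.cons 134 204 (.leaf [(197,209),(26,98),(27,29)]) (.cons 206 209 (.leaf [(26,27),(29,204),(98,134)]) (.cons 26 209 (.leaf [(27,29),(134,204),(98,206)]) (.cons 27 209 (.leaf [(26,29),(134,204),(98,206)]) (.cons 98 209 (.leaf [(26,27),(29,204),(134,206)]) .nil))))))))) (.cons 204 209 (.leaf [(29,134),(61,185),(26,27),(98,206)]) (.cons 29 209 (.leaf [(26,27),(61,185),(134,204),(98,206)]) (.cons 98 209 (.leaf [(61,185),(26,27),(29,204),(134,206)]) (.cons 134 209 (.leaf [(29,204),(61,185),(26,27),(98,206)])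 (.cons 206 209 (.leaf [(61,185),(26,27),(29,204),(98,134)]) (.cons 26 209 (.leaf [(27,29),(61,185),(134,204),(98,206)]) (.cons 197 209 (.leaf [(61,185),(26,98),(27,29),(134,204)]) (.cons 27 209 (.leaf [(26,29),(61,185),(134,204),(98,206)]) .nil))))))))))) (.cons 26 27 (.cons 61 185 (.cons 98 209 (.leaf [(134,206),(168,171),(29,204)]) (.cons 209 98 (.leaf [(168,171),(29,134),(204,206)]) (.cons 134 98 (.leaf [(29,204),(168,171),(206,207)]) (.cons 168 171 (.cons 98 209 (.leaf [(134,206),(29,204)]) (.cons 209 98 (.leaf [(29,134),(204,206)]) (.cons 134 98 (.leaf [(29,204),(206,207)]) (.cons 204 209 (.leaf [(29,134),(98,206)]) (.cons 206 98 (.leaf [(29,134),(204,207)]) (.cons 29 98 (.leaf [(134,204),(206,207)]) (.cons 207 98 (.leaf [(29,134),(204,206)]) .nil))))))) (.cons 171 168 (.cons 98 209 (.leaf [(134,206),(29,204)]) (.cons 209 98 (.leaf [(29,134),(204,206)]) (.cons 134 98 (.leaf [(29,204),(206,207)]) (.cons 204 209 (.leaf [(29,134),(98,206)]) (.cons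 206 98 (.leaf [(29,134),(204,207)]) (.cons 29 98 (.leaf [(134,204),(206,207)]) (.cons 207 98 (.leaf [(29,134),(204,206)]) .nil))))))) (.cons 204 98 (.leaf [(29,134),(168,171),(206,207)]) (.cons 206 98 (.leaf [(168,171),(29,134),(204,207)]) (.cons 29 98 (.leaf [(134,204),(168,171),(206,207)]) (.cons 207 98 (.leaf [(168,171),(29,134),(204,206)]) .nil))))))))) (.cons 185 61 (.leaf [(168,171),(197,209),(29,134),(98,206),(204,207)]) (.cons 209 61 (.leaf [(168,171),(185,197),(29,134),(98,206),(204,207)]) (.cons 98 61 (.leaf [(134,206),(168,171),(29,204),(185,197),(207,209)]) (.cons 134 98 (.leaf [(29,204),(61,185),(168,171),(197,209),(206,207)]) (.cons 168 171 (.cons 61 185 (.cons 98 209 (.leaf [(134,206),(29,204)]) (.cons 209 98 (.leaf [(29,134),(204,206)]) (.cons 134 98 (.leaf [(29,204),(206,207)]) (.cons 204 209 (.leaf [(29,134),(98,206)]) (.cons 206 98 (.leaf [(29,134),(204,207)]) (.cons 29 98 (.leaf [(134,204),(206,207)]) (.cons 207 98 (.leaf [(29,134),(204,206)])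 .nil))))))) (.cons 185 61 (.leaf [(197,209),(29,134),(98,206),(204,207)]) (.cons 209 61 (.leaf [(185,197),(29,134),(98,206),(204,207)]) (.cons 98 61 (.leaf [(134,206),(29,204),(185,197),(207,209)]) (.cons 134 98 (.leaf [(29,204),(61,185),(197,209),(206,207)]) (.cons 204 209 (.leaf [(29,134),(61,185),(98,206)]) (.cons 206 98 (.leaf [(61,185),(29,134),(197,209),(204,207)]) (.cons 197 185 (.leaf [(29,134),(61,209),(98,206),(204,207)]) (.cons 29 61 (.leaf [(134,204),(98,206),(185,197),(207,209)]) (.cons 207 209 (.leaf [(61,185),(29,204),(98,134)]) .nil)))))))))) (.cons 171 168 (.cons 61 185 (.cons 98 209 (.leaf [(134,206),(29,204)]) (.cons 209 98 (.leaf [(29,134),(204,206)]) (.cons 134 98 (.leaf [(29,204),(206,207)]) (.cons 204 209 (.leaf [(29,134),(98,206)]) (.cons 206 98 (.leaf [(29,134),(204,207)]) (.cons 29 98 (.leaf [(134,204),(206,207)]) (.cons 207 98 (.leaf [(29,134),(204,206)]) .nil))))))) (.cons 185 61 (.leaf [(197,209),(29,134),(98,206),(204,207)])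 (.cons 209 61 (.leaf [(185,197),(29,134),(98,206),(204,207)]) (.cons 98 61 (.leaf [(134,206),(29,204),(185,197),(207,209)]) (.cons 134 98 (.leaf [(29,204),(61,185),(197,209),(206,207)]) (.cons 204 209 (.leaf [(29,134),(61,185),(98,206)]) (.cons 206 98 (.leaf [(61,185),(29,134),(197,209),(204,207)]) (.cons 197 185 (.leaf [(29,134),(61,209),(98,206),(204,207)]) (.cons 29 61 (.leaf [(134,204),(98,206),(185,197),(207,209)]) (.cons 207 209 (.leaf [(61,185),(29,204),(98,134)]) .nil)))))))))) (.cons 204 209 (.leaf [(29,134),(61,185),(168,171),(98,206)]) (.cons 206 98 (.leaf [(61,185),(168,171),(29,134),(197,209),(204,207)]) (.cons 197 185 (.leaf [(168,171),(29,134),(61,209),(98,206),(204,207)]) (.cons 29 61 (.leaf [(134,204),(168,171),(98,206),(185,197),(207,209)]) (.cons 207 209 (.leaf [(61,185),(168,171),(29,204),(98,134)]) .nil)))))))))))) (.cons 197 209 (.leaf [(61,185),(168,171),(26,29),(27,207),(134,204),(98,206)]) (.cons 206 61 (.cons 171 168 (.cons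 207 27 (.leaf [(204,209),(26,98),(29,134),(185,197)]) (.cons 27 207 (.cons 26 29 (.leaf [(98,134),(185,197)]) (.cons 29 26 (.leaf [(134,204),(185,197)]) (.cons 134 26 (.leaf [(29,204),(185,197)]) (.cons 209 26 (.leaf [(185,197),(29,134)]) (.cons 98 26 (.leaf [(29,134),(185,197)]) (.cons 197 26 (.leaf [(185,209),(29,134)]) (.cons 185 26 (.leaf [(197,209),(29,134)]) (.cons 204 29 (.leaf [(26,98),(185,197)]) .nil)))))))) (.cons 134 27 (.leaf [(26,98),(29,204),(185,197),(207,209)]) (.cons 204 27 (.leaf [(29,134),(207,209),(26,98),(185,197)]) (.cons 209 207 (.leaf [(185,197),(26,27),(29,204),(98,134)]) (.cons 26 27 (.leaf [(98,134),(29,204),(185,197),(207,209)]) (.cons 29 27 (.leaf [(134,204),(26,98),(185,197),(207,209)]) (.cons 98 134 (.leaf [(27,207),(26,29),(185,197),(204,209)]) (.cons 197 207 (.leaf [(185,209),(26,27),(29,204),(98,134)]) (.cons 185 207 (.leaf [(197,209),(26,27),(29,204),(98,134)]) .nil)))))))))) (.cons 134 29 (.leaf [(26,98),(168,171),(27,207),(185,197),(204,209)])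 (.cons 168 171 (.leaf [(26,27),(29,204),(98,134),(185,197),(207,209)]) (.cons 204 27 (.leaf [(29,134),(168,171),(207,209),(26,98),(185,197)]) (.cons 207 27 (.leaf [(168,171),(204,209),(26,98),(29,134),(185,197)]) (.cons 209 204 (.leaf [(168,171),(185,197),(26,29),(27,207),(98,134)]) (.cons 26 27 (.leaf [(98,134),(168,171),(29,204),(185,197),(207,209)]) (.cons 27 171 (.cons 26 29 (.leaf [(98,134),(185,197),(204,207)]) (.cons 29 26 (.leaf [(134,204),(185,197),(207,209)]) (.cons 134 26 (.leaf [(29,204),(185,197),(207,209)]) (.cons 204 29 (.leaf [(207,209),(26,98),(185,197)]) (.cons 209 204 (.leaf [(26,29),(185,197),(98,134)]) (.cons 98 26 (.leaf [(29,134),(185,197),(204,207)]) (.cons 197 26 (.leaf [(185,209),(29,134),(204,207)]) (.cons 207 204 (.leaf [(26,29),(98,134),(185,197)]) (.cons 185 26 (.leaf [(197,209),(29,134),(204,207)]) .nil))))))))) (.cons 29 27 (.leaf [(134,204),(168,171),(26,98),(185,197),(207,209)]) (.cons 98 134 (.leaf [(168,171),(26,29),(27,207),(185,197),(204,209)])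 (.cons 197 204 (.leaf [(168,171),(185,209),(26,29),(27,207),(98,134)]) (.cons 185 204 (.leaf [(168,171),(197,209),(26,29),(27,207),(98,134)]) .nil)))))))))))) .nil))))))))))))))

/-- The masks of block 7. -/
def m7 : List ℕ := [0x2c000000, 0x20000000000000000000000000004000000002000000000000000, 0x4000000000000000004000000004000000000000000004000000, 0x8000000008000000000000000000000000000000000008000000, 0x1000000000000000004000000000000000000000000020000000, 0x20000000000000000000000000000002000000000000000, 0x9000000000000000000000000000000000000000000, 0x20020020000000000000000000000000000000000000000000000, 0x2d000000000000000000000000000000000000000000000000000]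

/-- The strategy tree of block 8. -/
def t8 : Tr := (.cons 120 90 (.cons 132 126 (.leaf [(24,96),(12,18),(48,84),(42,54)]) (.cons 126 132 (.cons 42 84 (.leaf [(48,54),(12,18)]) (.cons 84 42 (.leaf [(12,48),(18,24)]) (.cons 12 84 (.leaf [(18,24),(42,48)]) (.cons 48 84 (.leaf [(42,54),(12,18)]) (.cons 18 84 (.leaf [(12,24),(42,48)]) (.cons 54 42 (.leaf [(12,48),(18,24)]) (.cons 24 84 (.leaf [(12,18),(42,48)]) .nil))))))) (.cons 42 126 (.leaf [(48,54),(12,84),(18,24),(96,132)]) (.cons 12 126 (.leaf [(18,24),(48,84),(96,132),(42,54)]) (.cons 48 84 (.leaf [(42,54),(126,132),(12,18),(24,96)]) (.cons 84 126 (.leaf [(12,48),(18,24),(96,132),(42,54)]) (.cons 24 126 (.leaf [(12,18),(96,132),(48,84),(42,54)]) (.cons 96 132 (.leaf [(12,84),(18,24),(48,54),(42,126)]) (.cons 18 12 (.leaf [(126,132),(24,96),(42,84),(48,54)]) (.cons 54 42 (.leaf [(126,132),(12,18),(24,96),(48,84)]) .nil)))))))))) (.cons 90 120 (.cons 96 84 (.leaf [(24,132),(12,18),(54,126),(42,48)])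 (.cons 84 96 (.cons 42 126 (.leaf [(48,54),(12,18)]) (.cons 126 42 (.leaf [(18,54),(12,24)]) (.cons 18 126 (.leaf [(12,24),(42,48)]) (.cons 54 42 (.leaf [(18,126),(12,24)]) (.cons 12 18 (.leaf [(42,126),(48,54)]) (.cons 48 42 (.leaf [(12,24),(18,54)]) (.cons 24 18 (.leaf [(42,126),(48,54)]) .nil))))))) (.cons 42 84 (.leaf [(48,54),(12,24),(18,126),(96,132)]) (.cons 18 84 (.leaf [(12,24),(54,126),(96,132),(42,48)]) (.cons 54 84 (.leaf [(18,126),(42,48),(12,24),(96,132)]) (.cons 24 84 (.leaf [(12,18),(96,132),(54,126),(42,48)]) (.cons 126 84 (.leaf [(18,54),(12,24),(96,132),(42,48)]) (.cons 132 96 (.leaf [(12,24),(18,126),(48,54),(42,84)]) (.cons 12 18 (.leaf [(84,96),(24,132),(42,126),(48,54)]) (.cons 48 42 (.leaf [(84,96),(12,18),(24,132),(54,126)]) .nil)))))))))) (.cons 84 90 (.cons 42 126 (.leaf [(48,54),(12,120),(18,24),(96,132)]) (.cons 126 42 (.cons 132 120 (.leaf [(24,96),(12,18)]) (.cons 120 132 (.leaf [(12,48),(18,24)]) (.cons 12 120 (.leaf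 [(18,24),(96,132)]) (.cons 24 132 (.leaf [(12,18),(48,120)]) (.cons 96 132 (.leaf [(12,48),(18,24)]) (.cons 48 120 (.leaf [(12,18),(24,96)]) (.cons 18 132 (.leaf [(12,24),(48,120)]) .nil))))))) (.cons 132 126 (.leaf [(24,96),(12,18),(48,120),(42,54)]) (.cons 12 120 (.leaf [(18,24),(42,126),(96,132),(48,54)]) (.cons 48 126 (.leaf [(12,120),(42,54),(18,24),(96,132)]) (.cons 24 126 (.leaf [(12,18),(96,132),(48,120),(42,54)]) (.cons 120 126 (.leaf [(12,48),(18,24),(96,132),(42,54)]) (.cons 96 132 (.leaf [(42,126),(12,120),(18,24),(48,54)]) (.cons 18 12 (.leaf [(42,126),(24,96),(48,54),(120,132)]) (.cons 54 42 (.leaf [(12,48),(18,24),(120,126),(96,132)]) .nil)))))))))) (.cons 126 120 (.cons 42 84 (.leaf [(48,54),(12,24),(18,90),(96,132)]) (.cons 84 42 (.cons 96 90 (.leaf [(24,132),(12,18)]) (.cons 90 96 (.leaf [(18,54),(12,24)]) (.cons 18 90 (.leaf [(12,24),(96,132)]) (.cons 24 96 (.leaf [(12,18),(54,90)]) (.cons 132 96 (.leaf [(12,24),(18,54)]) (.cons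 12 96 (.leaf [(18,24),(54,90)]) (.cons 54 90 (.leaf [(12,18),(24,96)]) .nil))))))) (.cons 96 84 (.leaf [(24,132),(12,18),(54,90),(42,48)]) (.cons 18 84 (.leaf [(12,24),(54,90),(96,132),(42,48)]) (.cons 54 84 (.leaf [(18,90),(42,48),(12,24),(96,132)]) (.cons 24 84 (.leaf [(12,18),(96,132),(54,90),(42,48)]) (.cons 90 84 (.leaf [(18,54),(12,24),(96,132),(42,48)]) (.cons 132 96 (.leaf [(42,84),(12,24),(18,90),(48,54)]) (.cons 12 18 (.leaf [(42,84),(24,132),(90,96),(48,54)]) (.cons 48 42 (.leaf [(12,24),(18,54),(84,90),(96,132)]) .nil)))))))))) (.cons 96 90 (.cons 132 24 (.cons 126 120 (.leaf [(42,84),(48,54)]) (.cons 120 126 (.leaf [(12,84),(42,48)]) (.cons 42 126 (.leaf [(48,54),(12,84)]) (.cons 48 42 (.leaf [(120,126),(12,84)]) (.cons 84 126 (.leaf [(12,120),(42,48)]) (.cons 54 42 (.leaf [(120,126),(12,48)]) (.cons 12 120 (.leaf [(42,84),(48,54)]) .nil))))))) (.cons 24 132 (.leaf [(12,18),(42,54),(48,120),(84,126)]) (.cons 42 132 (.leaf [(48,54),(84,126),(12,120),(18,24)])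 (.cons 126 132 (.leaf [(42,84),(12,120),(18,24),(48,54)]) (.cons 12 132 (.leaf [(18,24),(42,54),(48,120),(84,126)]) (.cons 48 132 (.leaf [(42,54),(12,120),(18,24),(84,126)]) (.cons 84 132 (.leaf [(42,126),(12,120),(18,24),(48,54)]) (.cons 120 132 (.leaf [(12,84),(18,24),(48,54),(42,126)]) (.cons 18 24 (.leaf [(42,54),(12,48),(84,126),(120,132)]) (.cons 54 132 (.leaf [(42,48),(12,120),(18,24),(84,126)]) .nil)))))))))) (.cons 132 120 (.cons 96 24 (.cons 84 90 (.leaf [(42,126),(48,54)]) (.cons 90 84 (.leaf [(18,54),(42,48)]) (.cons 42 84 (.leaf [(48,54),(18,90)]) (.cons 54 42 (.leaf [(84,90),(18,126)]) (.cons 126 84 (.leaf [(18,54),(42,48)]) (.cons 48 42 (.leaf [(84,90),(18,54)]) (.cons 18 84 (.leaf [(42,48),(54,90)]) .nil))))))) (.cons 24 96 (.leaf [(12,18),(42,48),(54,90),(84,126)]) (.cons 42 96 (.leaf [(48,54),(84,126),(12,24),(18,90)]) (.cons 84 96 (.leaf [(42,126),(12,24),(18,90),(48,54)]) (.cons 18 96 (.leaf [(12,24),(42,48),(54,90),(84,126)])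 (.cons 54 96 (.leaf [(42,48),(12,24),(18,90),(84,126)]) (.cons 90 96 (.leaf [(12,24),(18,126),(48,54),(42,84)]) (.cons 126 96 (.leaf [(42,84),(12,24),(18,90),(48,54)]) (.cons 12 24 (.leaf [(42,48),(18,54),(84,126),(90,96)]) (.cons 48 96 (.leaf [(42,54),(12,24),(18,90),(84,126)]) .nil)))))))))) (.cons 42 84 (.cons 120 90 (.leaf [(48,54),(126,132),(12,18),(24,96)]) (.cons 54 48 (.cons 120 90 (.leaf [(126,132),(12,18),(24,96)]) (.cons 90 120 (.leaf [(18,126),(12,24),(96,132)]) (.cons 132 120 (.leaf [(24,96),(12,18),(90,126)]) (.cons 18 90 (.leaf [(12,24),(96,132),(120,126)]) (.cons 24 120 (.leaf [(12,18),(96,132),(90,126)]) (.cons 126 120 (.leaf [(18,90),(12,24),(96,132)]) (.cons 96 132 (.leaf [(90,120),(12,24),(18,126)]) (.cons 12 18 (.leaf [(90,120),(24,96),(126,132)]) .nil)))))))) (.cons 90 120 (.leaf [(48,54),(12,24),(18,126),(96,132)]) (.cons 132 120 (.leaf [(24,96),(48,54),(12,18),(90,126)]) (.cons 48 54 (.leaf [(90,120),(12,18),(24,96),(126,132)])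 (.cons 24 120 (.leaf [(12,18),(48,54),(96,132),(90,126)]) (.cons 18 90 (.leaf [(12,24),(48,54),(96,132),(120,126)]) (.cons 126 120 (.leaf [(48,54),(12,24),(18,90),(96,132)]) (.cons 96 132 (.leaf [(48,54),(90,120),(12,24),(18,126)]) (.cons 12 120 (.leaf [(18,24),(48,54),(96,132),(90,126)]) .nil)))))))))) (.cons 24 120 (.cons 96 132 (.cons 84 90 (.leaf [(12,18),(42,126),(48,54)]) (.cons 18 12 (.cons 84 90 (.leaf [(42,126),(48,54)]) (.cons 90 84 (.leaf [(54,126),(42,48)]) (.cons 42 84 (.leaf [(48,54),(90,126)]) (.cons 54 90 (.leaf [(42,48),(84,126)]) (.cons 126 84 (.leaf [(54,90),(42,48)]) (.cons 48 84 (.leaf [(42,54),(90,126)]) .nil)))))) (.cons 90 84 (.leaf [(12,18),(54,126),(42,48)]) (.cons 42 84 (.leaf [(12,18),(48,54),(90,126)]) (.cons 12 18 (.leaf [(84,90),(42,126),(48,54)]) (.cons 54 84 (.leaf [(12,18),(42,48),(90,126)]) (.cons 126 84 (.leaf [(12,18),(54,90),(42,48)]) (.cons 48 42 (.leaf [(12,18),(84,90),(54,126)]) .nil)))))))) (.cons 18 12 (.cons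 96 132 (.cons 84 90 (.leaf [(42,126),(48,54)]) (.cons 90 84 (.leaf [(54,126),(42,48)]) (.cons 42 84 (.leaf [(48,54),(90,126)]) (.cons 54 90 (.leaf [(42,48),(84,126)]) (.cons 126 84 (.leaf [(54,90),(42,48)]) (.cons 48 84 (.leaf [(42,54),(90,126)]) .nil)))))) (.cons 132 96 (.leaf [(42,48),(54,90),(84,126)]) (.cons 42 84 (.leaf [(48,54),(96,132),(90,126)]) (.cons 84 90 (.leaf [(42,126),(96,132),(48,54)]) (.cons 54 90 (.leaf [(42,48),(96,132),(84,126)]) (.cons 90 84 (.leaf [(54,126),(96,132),(42,48)]) (.cons 126 84 (.leaf [(54,90),(96,132),(42,48)]) (.cons 48 42 (.leaf [(96,132),(54,126),(84,90)]) .nil)))))))) (.cons 132 96 (.leaf [(12,18),(42,48),(54,90),(84,126)]) (.cons 42 84 (.leaf [(12,18),(48,54),(96,132),(90,126)]) (.cons 12 18 (.leaf [(96,132),(42,126),(48,54),(84,90)]) (.cons 84 90 (.leaf [(12,18),(42,126),(96,132),(48,54)]) (.cons 54 84 (.leaf [(12,18),(42,48),(96,132),(90,126)]) (.cons 90 84 (.leaf [(12,18),(96,132),(54,126),(42,48)]) (.cons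 126 84 (.leaf [(12,18),(96,132),(54,90),(42,48)]) (.cons 48 42 (.leaf [(12,18),(96,132),(84,90),(54,126)]) .nil)))))))))) (.cons 12 120 (.cons 24 18 (.leaf [(96,132),(42,126),(48,54),(84,90)]) (.cons 18 24 (.cons 42 84 (.leaf [(48,54),(90,126)]) (.cons 84 42 (.leaf [(90,96),(54,126)]) (.cons 54 90 (.leaf [(42,48),(84,126)]) (.cons 90 84 (.leaf [(54,126),(42,48)]) (.cons 126 84 (.leaf [(54,90),(42,48)]) (.cons 96 84 (.leaf [(42,48),(54,90)]) (.cons 48 54 (.leaf [(42,126),(84,90)]) .nil))))))) (.cons 96 18 (.leaf [(24,132),(84,90),(42,126),(48,54)]) (.cons 42 84 (.leaf [(18,24),(48,54),(96,132),(90,126)]) (.cons 84 18 (.leaf [(42,126),(90,96),(24,132),(48,54)]) (.cons 54 18 (.leaf [(42,48),(24,132),(90,96),(84,126)]) (.cons 90 18 (.leaf [(84,96),(24,132),(42,126),(48,54)]) (.cons 126 18 (.leaf [(42,84),(24,132),(90,96),(48,54)]) (.cons 132 24 (.leaf [(42,48),(18,54),(84,126),(90,96)]) (.cons 48 42 (.leaf [(18,24),(96,132),(84,90),(54,126)]) .nil))))))))))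 (.cons 48 120 (.cons 42 54 (.leaf [(84,126),(12,18),(24,132),(90,96)]) (.cons 54 42 (.leaf [(12,24),(18,126),(84,90),(96,132)]) (.cons 96 42 (.leaf [(24,132),(84,90),(12,18),(54,126)]) (.cons 84 42 (.leaf [(90,96),(12,18),(24,132),(54,126)]) (.cons 24 42 (.leaf [(12,18),(96,132),(84,90),(54,126)]) (.cons 18 42 (.leaf [(12,24),(96,132),(54,126),(84,90)]) (.cons 90 42 (.leaf [(84,96),(12,18),(24,132),(54,126)]) (.cons 126 42 (.leaf [(12,24),(18,54),(84,90),(96,132)]) (.cons 132 96 (.leaf [(42,54),(12,24),(18,90),(84,126)]) (.cons 12 42 (.leaf [(18,24),(96,132),(84,90),(54,126)]) .nil)))))))))) (.cons 18 90 (.cons 24 12 (.leaf [(96,132),(42,84),(48,54),(120,126)]) (.cons 12 24 (.cons 42 48 (.leaf [(84,126),(120,132)]) (.cons 48 84 (.leaf [(42,54),(120,126)]) (.cons 84 48 (.leaf [(42,126),(120,132)]) (.cons 120 48 (.leaf [(126,132),(42,84)]) (.cons 126 42 (.leaf [(120,132),(48,84)]) (.cons 132 120 (.leaf [(42,84),(48,54)]) (.cons 54 48 (.leaf [(42,84),(120,126)])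 .nil))))))) (.cons 132 12 (.leaf [(24,96),(120,126),(42,84),(48,54)]) (.cons 42 126 (.leaf [(12,24),(48,54),(96,132),(84,120)]) (.cons 126 12 (.leaf [(42,84),(120,132),(24,96),(48,54)]) (.cons 48 12 (.leaf [(42,54),(24,96),(84,126),(120,132)]) (.cons 84 12 (.leaf [(42,126),(24,96),(48,54),(120,132)]) (.cons 120 12 (.leaf [(126,132),(24,96),(42,84),(48,54)]) (.cons 96 24 (.leaf [(42,54),(12,48),(84,126),(120,132)]) (.cons 54 42 (.leaf [(12,24),(96,132),(120,126),(48,84)]) .nil)))))))))) (.cons 54 90 (.cons 42 48 (.leaf [(84,126),(12,18),(24,96),(120,132)]) (.cons 48 42 (.leaf [(12,84),(18,24),(120,126),(96,132)]) (.cons 132 42 (.leaf [(24,96),(120,126),(12,18),(48,84)]) (.cons 24 42 (.leaf [(12,18),(96,132),(120,126),(48,84)]) (.cons 126 42 (.leaf [(120,132),(12,18),(24,96),(48,84)]) (.cons 12 42 (.leaf [(18,24),(96,132),(48,84),(120,126)]) (.cons 84 42 (.leaf [(12,48),(18,24),(120,126),(96,132)]) (.cons 120 42 (.leaf [(126,132),(12,18),(24,96),(48,84)])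 (.cons 96 132 (.leaf [(42,48),(12,120),(18,24),(84,126)]) (.cons 18 42 (.leaf [(12,24),(96,132),(120,126),(48,84)]) .nil)))))))))) .nil))))))))))))

/-- The masks of block 8. -/
def m8 : List ℕ := [0x1041000, 0x40000000001000000000040000000000, 0x1000000001000000001000000001000, 0x40000000040000000040000000040000, 0x1000000001000000000000000001000000, 0x1000000040000000000000000000000, 0x41040000000000, 0x1041000000000000000000000, 0x1041000000000000000000000000000000]

/-- The strategy tree of block 9. -/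
def t9 : Tr := (.leaf [(11,23)])

/-- The masks of block 9. -/
def m9 : List ℕ := [0x800800]

/-- The strategy tree of block 10. -/
def t10 : Tr := (.cons 149 113 (.cons 164 174 (.leaf [(162,167),(144,179),(156,158),(155,161),(170,176)]) (.cons 174 164 (.cons 179 176 (.cons 144 158 (.leaf [(156,162),(155,161)]) (.cons 158 144 (.leaf [(156,161),(155,167)]) (.cons 161 158 (.leaf [(155,167),(144,156)]) (.cons 156 144 (.leaf [(158,161),(155,167)]) (.cons 162 144 (.leaf [(155,161),(156,158)]) (.cons 167 161 (.leaf [(144,158),(156,162)]) (.cons 155 161 (.leaf [(144,158),(156,162)]) .nil))))))) (.cons 176 179 (.leaf [(144,162),(156,158)]) (.cons 144 179 (.leaf [(156,162),(158,161)]) (.cons 156 179 (.leaf [(144,162),(158,161)]) (.cons 158 179 (.leaf [(156,161),(144,162)]) (.cons 161 179 (.leaf [(156,158),(144,162)]) (.cons 162 179 (.leaf [(144,156),(158,161)]) (.cons 167 179 (.leaf [(144,162),(156,158)]) (.cons 155 179 (.leaf [(144,162),(156,158)]) .nil)))))))))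 (.cons 179 174 (.leaf [(144,158),(155,167),(156,161),(162,164),(170,176)]) (.cons 158 174 (.leaf [(144,179),(156,161),(162,164),(155,167),(170,176)]) (.cons 161 174 (.leaf [(156,158),(144,179),(155,167),(162,164),(170,176)]) (.cons 162 174 (.leaf [(164,167),(144,179),(156,158),(155,161),(170,176)]) (.cons 167 174 (.leaf [(162,164),(144,179),(156,158),(155,161),(170,176)]) (.cons 144 174 (.leaf [(158,179),(156,161),(162,164),(155,167),(170,176)]) (.cons 176 174 (.leaf [(144,179),(156,158),(155,161),(164,170),(162,167)]) (.cons 156 174 (.leaf [(158,161),(144,179),(162,164),(155,167),(170,176)]) (.cons 170 164 (.leaf [(144,162),(158,179),(156,161),(174,176),(155,167)]) (.cons 155 174 (.leaf [(144,179),(156,158),(161,167),(162,164),(170,176)]) .nil)))))))))))) (.cons 164 174 (.leaf [(113,149),(162,167),(144,179),(156,158),(155,161),(170,176)]) (.cons 174 149 (.cons 179 176 (.cons 144 158 (.leaf [(156,162),(164,167)]) (.cons 158 144 (.leaf [(156,161),(162,164)])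 (.cons 162 144 (.leaf [(164,167),(156,158)]) (.cons 156 144 (.leaf [(158,161),(162,164)]) (.cons 161 158 (.leaf [(144,156),(162,164)]) (.cons 164 144 (.leaf [(162,167),(156,158)]) (.cons 167 144 (.leaf [(162,164),(156,158)]) .nil))))))) (.cons 176 179 (.leaf [(144,156),(162,167),(158,161),(164,170)]) (.cons 158 179 (.leaf [(156,161),(144,162),(164,167),(170,176)]) (.cons 162 144 (.leaf [(164,167),(176,179),(156,161),(158,170)]) (.cons 144 179 (.leaf [(156,162),(158,161),(164,167),(170,176)]) (.cons 156 158 (.leaf [(144,162),(176,179),(164,167)]) (.cons 164 179 (.leaf [(162,167),(144,156),(158,161),(170,176)]) (.cons 161 158 (.leaf [(176,179),(144,156),(162,164)]) (.cons 167 162 (.leaf [(176,179),(144,158),(156,161),(164,170)]) (.cons 170 176 (.leaf [(144,162),(156,161),(158,179),(164,167)]) .nil)))))))))) (.cons 158 174 (.leaf [(113,149),(144,179),(156,161),(162,164),(155,167),(170,176)]) (.cons 179 174 (.leaf [(113,149),(144,158),(156,161),(162,164),(155,167),(170,176)])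 (.cons 113 149 (.cons 158 179 (.leaf [(156,161),(144,162),(164,167),(170,176)]) (.cons 179 158 (.leaf [(174,176),(162,164),(144,156)]) (.cons 162 158 (.leaf [(164,167),(144,156),(174,176)]) (.cons 164 158 (.leaf [(162,167),(174,176),(144,156)]) (.cons 174 179 (.leaf [(144,162),(156,161),(158,170),(164,167)]) (.cons 144 158 (.leaf [(156,162),(174,176),(164,167)]) (.cons 176 179 (.leaf [(144,156),(158,161),(164,170),(162,167)]) (.cons 156 158 (.leaf [(144,162),(174,176),(164,167)]) (.cons 161 158 (.leaf [(162,164),(174,176),(144,156)]) (.cons 167 162 (.leaf [(144,179),(158,164),(156,161),(174,176)]) (.cons 170 158 (.leaf [(162,164),(174,176),(144,156)]) .nil))))))))))) (.cons 162 174 (.leaf [(113,149),(164,167),(144,179),(156,158),(155,161),(170,176)]) (.cons 144 174 (.leaf [(113,149),(158,179),(156,161),(162,164),(155,167),(170,176)]) (.cons 176 174 (.leaf [(113,149),(144,179),(156,158),(155,161),(164,170),(162,167)]) (.cons 156 174 (.leaf [(113,149),(158,161),(144,179),(162,164),(155,167),(170,176)])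 (.cons 161 174 (.leaf [(113,149),(156,158),(144,179),(162,164),(155,167),(170,176)]) (.cons 167 174 (.leaf [(113,149),(162,164),(144,179),(156,158),(155,161),(170,176)]) (.cons 170 164 (.leaf [(113,149),(144,162),(158,179),(156,161),(174,176),(155,167)]) (.cons 155 174 (.leaf [(113,149),(144,179),(156,158),(162,164),(161,167),(170,176)]) .nil))))))))))))))

/-- The masks of block 10. -/
def m10 : List ℕ := [0x20000000020000000000000000000000000000, 0x40041001000000000000000000000000000000000000, 0x800004001000000000000000000000000000000000000, 0x104104000000000000000000000000000000000000000, 0x40100020000000000000000000000000000000000000, 0x800820820000000000000000000000000000000000000, 0x25000000000000000000000000000000000000000, 0x940000000000000000000000000000000000000000, 0x940000000000000000000000000000000000000000000]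

/-- The strategy tree of block 11. -/
def t11 : Tr := (.cons 128 200 (.cons 133 118 (.cons 110 122 (.leaf [(109,112),(135,136),(115,127),(129,130)]) (.cons 136 135 (.cons 110 122 (.leaf [(109,112),(115,127),(129,130)]) (.cons 122 110 (.cons 129 115 (.leaf [(127,130)]) (.cons 115 129 (.leaf [(109,127)]) (.cons 127 129 (.leaf [(109,115)]) (.cons 130 129 (.leaf [(109,115)]) (.cons 109 115 (.leaf [(127,129)]) .nil))))) (.cons 129 122 (.leaf [(127,130),(109,115),(110,112)]) (.cons 109 122 (.leaf [(110,112),(115,127),(129,130)]) (.cons 115 122 (.leaf [(109,127),(110,112),(129,130)]) (.cons 127 115 (.leaf [(110,122),(129,130),(109,112)]) (.cons 130 129 (.leaf [(110,122),(109,112),(115,127)]) (.cons 112 110 (.leaf [(109,115),(127,130),(122,129)]) .nil)))))))) (.cons 122 110 (.cons 136 135 (.cons 129 115 (.leaf [(127,130)]) (.cons 115 129 (.leaf [(109,127)]) (.cons 127 129 (.leaf [(109,115)]) (.cons 130 129 (.leaf [(109,115)]) (.cons 109 115 (.leaf [(127,129)])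 .nil))))) (.cons 129 136 (.leaf [(127,130),(109,115)]) (.cons 135 136 (.leaf [(109,115),(127,129)]) (.cons 115 136 (.leaf [(109,127),(129,130)]) (.cons 127 129 (.leaf [(109,115),(135,136)]) (.cons 130 129 (.leaf [(135,136),(109,115)]) (.cons 109 115 (.leaf [(135,136),(127,129)]) .nil))))))) (.cons 135 136 (.leaf [(110,122),(109,112),(115,127),(129,130)]) (.cons 109 122 (.leaf [(110,112),(115,127),(135,136),(129,130)]) (.cons 127 115 (.leaf [(110,122),(129,130),(135,136),(109,112)]) (.cons 129 122 (.leaf [(127,130),(135,136),(109,115),(110,112)]) (.cons 115 122 (.leaf [(109,127),(135,136),(110,112),(129,130)]) (.cons 130 127 (.leaf [(110,122),(135,136),(109,112),(115,129)]) (.cons 112 110 (.leaf [(135,136),(109,127),(115,122),(129,130)]) .nil)))))))))) (.cons 110 122 (.cons 133 118 (.leaf [(109,112),(135,136),(115,127),(129,130)]) (.cons 109 112 (.leaf [(118,133),(115,127),(129,130),(135,136)]) (.cons 112 109 (.cons 133 118 (.leaf [(135,136),(127,129)])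 (.cons 118 133 (.leaf [(130,136),(127,129)]) (.cons 130 118 (.leaf [(127,129),(133,135)]) (.cons 136 133 (.leaf [(118,130),(127,129)]) (.cons 129 130 (.leaf [(118,133),(135,136)]) (.cons 135 133 (.leaf [(118,130),(127,129)]) (.cons 127 130 (.leaf [(118,133),(135,136)]) .nil))))))) (.cons 118 133 (.leaf [(109,112),(130,136),(127,129)]) (.cons 130 133 (.leaf [(109,112),(127,129),(118,136)]) (.cons 136 133 (.leaf [(109,112),(118,130),(127,129)]) (.cons 127 133 (.leaf [(109,112),(129,130),(118,136)]) (.cons 129 133 (.leaf [(109,112),(127,130),(118,136)]) (.cons 135 133 (.leaf [(109,112),(127,129),(118,130)]) (.cons 115 133 (.leaf [(109,112),(127,129),(118,130)]) .nil)))))))))) (.cons 118 133 (.cons 110 122 (.leaf [(109,112),(130,136),(127,129)]) (.cons 122 110 (.leaf [(112,130),(115,136),(127,129)]) (.cons 130 110 (.leaf [(112,136),(127,129),(115,122)]) (.cons 112 110 (.leaf [(130,136),(127,129),(115,122)]) (.cons 129 130 (.leaf [(110,122),(109,112),(115,136)])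 (.cons 136 130 (.leaf [(110,122),(109,112),(115,129)]) (.cons 109 110 (.leaf [(112,130),(127,129),(115,122)]) (.cons 127 130 (.leaf [(110,122),(109,112),(115,129)]) (.cons 115 110 (.leaf [(112,130),(122,136),(127,129)]) .nil))))))))) (.cons 122 110 (.cons 133 118 (.cons 136 135 (.cons 129 115 (.leaf [(127,130)]) (.cons 115 129 (.leaf [(109,127)]) (.cons 127 129 (.leaf [(109,115)]) (.cons 130 129 (.leaf [(109,115)]) (.cons 109 115 (.leaf [(127,129)]) .nil))))) (.cons 129 136 (.leaf [(127,130),(109,115)]) (.cons 135 136 (.leaf [(109,115),(127,129)]) (.cons 115 136 (.leaf [(109,127),(129,130)]) (.cons 127 129 (.leaf [(109,115),(135,136)]) (.cons 130 129 (.leaf [(135,136),(109,115)]) (.cons 109 115 (.leaf [(135,136),(127,129)]) .nil))))))) (.cons 136 133 (.leaf [(115,129),(112,118),(127,130)]) (.cons 118 133 (.leaf [(112,130),(115,136),(127,129)]) (.cons 129 133 (.leaf [(115,136),(127,130),(112,118)]) (.cons 130 133 (.leaf [(127,129),(112,118),(115,136)])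 (.cons 115 133 (.leaf [(129,136),(127,130),(112,118)]) (.cons 127 133 (.leaf [(129,130),(115,136),(112,118)]) (.cons 135 133 (.leaf [(115,136),(127,129),(112,118)]) (.cons 109 133 (.leaf [(115,136),(127,129),(112,118)]) (.cons 112 133 (.leaf [(115,136),(127,129),(118,130)]) .nil)))))))))) (.cons 136 133 (.cons 110 122 (.leaf [(109,112),(118,130),(127,129)]) (.cons 122 110 (.leaf [(115,129),(112,118),(127,130)]) (.cons 129 122 (.leaf [(127,130),(109,110),(112,118)]) (.cons 130 110 (.leaf [(112,118),(127,129),(115,122)]) (.cons 112 110 (.leaf [(118,130),(115,122),(127,129)]) (.cons 109 110 (.leaf [(112,118),(115,122),(127,129)]) (.cons 115 122 (.leaf [(109,110),(112,118),(127,129)]) (.cons 118 130 (.leaf [(110,122),(109,112),(115,129)]) (.cons 127 129 (.leaf [(110,122),(109,112),(118,130)]) .nil))))))))) (.cons 129 133 (.cons 110 122 (.leaf [(109,112),(127,130),(118,136)]) (.cons 122 110 (.leaf [(115,136),(127,130),(112,118)]) (.cons 130 127 (.cons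 110 122 (.leaf [(109,112),(118,136)]) (.cons 122 110 (.leaf [(115,136),(112,118)]) (.cons 136 122 (.leaf [(112,118),(109,110)]) (.cons 112 110 (.leaf [(118,136),(115,122)]) (.cons 109 110 (.leaf [(112,118),(115,122)]) (.cons 115 122 (.leaf [(109,110),(112,118)]) (.cons 118 112 (.leaf [(110,122),(115,136)]) .nil))))))) (.cons 127 130 (.leaf [(110,122),(109,112),(115,136)]) (.cons 136 122 (.leaf [(127,130),(109,110),(112,118)]) (.cons 112 110 (.leaf [(127,130),(115,122),(118,136)]) (.cons 109 110 (.leaf [(127,130),(115,122),(112,118)]) (.cons 115 122 (.leaf [(127,130),(109,110),(112,118)]) (.cons 118 130 (.leaf [(110,122),(109,112),(115,136)]) .nil))))))))) (.cons 130 133 (.cons 110 122 (.leaf [(109,112),(127,129),(118,136)]) (.cons 129 127 (.cons 110 122 (.leaf [(109,112),(118,136)]) (.cons 122 110 (.leaf [(115,136),(112,118)]) (.cons 136 122 (.leaf [(112,118),(109,110)]) (.cons 112 110 (.leaf [(118,136),(115,122)]) (.cons 109 110 (.leaf [(112,118),(115,122)])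 (.cons 115 122 (.leaf [(109,110),(112,118)]) (.cons 118 112 (.leaf [(110,122),(115,136)]) .nil))))))) (.cons 122 110 (.leaf [(127,129),(112,118),(115,136)]) (.cons 112 110 (.leaf [(118,136),(127,129),(115,122)]) (.cons 127 129 (.leaf [(110,122),(109,112),(118,136)]) (.cons 136 110 (.leaf [(112,118),(127,129),(115,122)]) (.cons 109 110 (.leaf [(127,129),(112,118),(115,122)]) (.cons 118 110 (.leaf [(112,136),(127,129),(115,122)]) (.cons 115 129 (.leaf [(110,122),(109,112),(118,136)]) .nil))))))))) (.cons 109 122 (.cons 133 118 (.leaf [(110,112),(115,127),(135,136),(129,130)]) (.cons 112 110 (.cons 133 118 (.leaf [(115,127),(135,136),(129,130)]) (.cons 118 133 (.leaf [(130,136),(127,129)]) (.cons 130 133 (.leaf [(118,136),(127,129)]) (.cons 136 133 (.leaf [(118,130),(127,129)]) (.cons 127 133 (.leaf [(129,130),(118,136)]) (.cons 129 133 (.leaf [(127,130),(118,136)]) (.cons 135 133 (.leaf [(118,130),(127,129)]) (.cons 115 133 (.leaf [(118,130),(127,129)])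 .nil)))))))) (.cons 118 133 (.leaf [(110,112),(130,136),(127,129)]) (.cons 110 112 (.leaf [(118,133),(115,127),(129,130),(135,136)]) (.cons 127 133 (.leaf [(110,112),(129,130),(118,136)]) (.cons 130 133 (.leaf [(110,112),(127,129),(118,136)]) (.cons 136 133 (.leaf [(110,112),(118,130),(127,129)]) (.cons 129 133 (.leaf [(110,112),(127,130),(118,136)]) (.cons 135 133 (.leaf [(110,112),(127,129),(118,130)]) (.cons 115 133 (.leaf [(110,112),(127,129),(118,130)]) .nil)))))))))) (.cons 112 110 (.cons 133 118 (.leaf [(135,136),(109,127),(115,122),(129,130)]) (.cons 118 133 (.leaf [(130,136),(127,129),(115,122)]) (.cons 136 133 (.leaf [(118,130),(115,122),(127,129)]) (.cons 130 118 (.leaf [(127,129),(109,133),(135,136),(115,122)]) (.cons 129 133 (.leaf [(127,130),(115,122),(118,136)]) (.cons 127 133 (.leaf [(129,130),(118,136),(115,122)]) (.cons 135 133 (.leaf [(118,130),(127,129),(115,122)]) (.cons 115 133 (.leaf [(118,130),(122,136),(127,129)]) (.cons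 109 133 (.leaf [(118,130),(127,129),(115,122)]) (.cons 122 133 (.leaf [(115,136),(127,129),(118,130)]) .nil)))))))))) (.cons 127 133 (.cons 110 122 (.leaf [(109,112),(129,130),(118,136)]) (.cons 129 130 (.leaf [(110,122),(109,112),(115,136)]) (.cons 130 129 (.leaf [(110,122),(109,112),(118,136)]) (.cons 122 110 (.leaf [(129,130),(115,136),(112,118)]) (.cons 112 110 (.leaf [(129,130),(118,136),(115,122)]) (.cons 136 129 (.leaf [(110,122),(109,112),(118,130)]) (.cons 109 110 (.leaf [(129,130),(112,118),(115,122)]) (.cons 115 129 (.leaf [(110,122),(109,112),(118,130)]) (.cons 118 130 (.leaf [(110,122),(109,112),(115,129)]) .nil))))))))) (.cons 135 133 (.leaf [(110,122),(109,112),(127,130),(115,129),(118,136)]) (.cons 115 133 (.cons 110 122 (.leaf [(109,112),(127,129),(118,130)]) (.cons 122 110 (.leaf [(129,136),(127,130),(112,118)]) (.cons 129 122 (.leaf [(127,130),(109,110),(112,118)]) (.cons 130 129 (.leaf [(110,122),(109,112),(118,136)]) (.cons 136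 122 (.leaf [(109,110),(112,118),(127,129)]) (.cons 112 110 (.leaf [(118,130),(122,136),(127,129)]) (.cons 109 110 (.leaf [(122,136),(127,129),(112,118)]) (.cons 127 129 (.leaf [(110,122),(109,112),(118,130)]) (.cons 118 110 (.leaf [(112,130),(122,136),(127,129)]) .nil))))))))) .nil)))))))))))) (.cons 133 128 (.leaf [(135,136),(109,127),(110,112),(115,122),(118,130)]) (.cons 200 128 (.leaf [(109,127),(110,112),(133,135),(115,122),(118,130)]) (.cons 136 128 (.leaf [(133,135),(109,115),(110,112),(118,130),(122,129)]) (.cons 110 128 (.leaf [(109,112),(127,133),(135,136),(115,122),(118,130)]) (.cons 109 128 (.leaf [(110,112),(115,122),(127,133),(135,136),(118,130)]) (.cons 112 128 (.leaf [(109,110),(118,130),(127,133),(135,136),(115,122)]) (.cons 118 128 (.leaf [(109,127),(110,112),(130,136),(133,135),(115,122)]) (.cons 122 128 (.leaf [(109,110),(115,127),(129,136),(133,135),(112,118)]) (.cons 129 128 (.leaf [(109,110),(115,127),(122,136),(133,135),(112,118)])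 (.cons 130 128 (.leaf [(109,127),(110,112),(118,136),(133,135),(115,122)]) (.cons 135 128 (.leaf [(133,136),(109,127),(110,112),(115,122),(118,130)]) (.cons 115 128 (.leaf [(109,110),(112,118),(127,133),(122,129),(135,136)]) (.cons 127 128 (.leaf [(109,133),(110,112),(115,122),(135,136),(118,130)]) .nil))))))))))))))

/-- The masks of block 11. -/
def m11 : List ℕ := [0x100000000000000000100000000000000000000000000000000, 0x16000000000000000000000000000, 0x10204080000000000000000000000000000, 0x2080082000000000000000000000000000, 0x104004000000000000000000000000000, 0x10400410000000000000000000000000000, 0x2100400000000000000000000000000000, 0x780000000000000000000000000000000, 0x1a000000000000000000000000000000000]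

/-- The strategy tree of block 12. -/
def t12 : Tr := (.cons 64 93 (.leaf [(36,57),(60,63),(72,108)]) (.cons 93 64 (.leaf [(57,165),(92,94),(36,72)]) (.cons 36 64 (.leaf [(72,108),(57,165),(92,93)]) (.cons 57 64 (.leaf [(93,165),(36,72),(92,94)]) (.cons 165 93 (.leaf [(36,72),(57,64),(60,63)]) (.cons 72 64 (.leaf [(36,108),(57,165),(92,93)]) (.cons 108 64 (.leaf [(36,72),(57,165),(92,93)]) (.cons 92 93 (.leaf [(36,72),(57,64),(60,63)]) (.cons 60 64 (.leaf [(36,72),(57,165),(92,93)]) (.cons 94 93 (.leaf [(36,72),(57,64),(60,63)]) (.cons 63 64 (.leaf [(36,72),(57,165),(92,93)]) .nil)))))))))))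

/-- The masks of block 12. -/
def m12 : List ℕ := [0x1000000001000000001000000000, 0x200000000000000000200000000200000000000000, 0x200000010000000000000000, 0x10200001000000000, 0x19000000000000000, 0x700000000000000000000000]

/-- The strategy tree of block 13. -/
def t13 : Tr := (.cons 34 154 (.cons 214 88 (.leaf [(10,22),(106,178),(196,208),(100,172)]) (.cons 88 214 (.leaf [(10,22),(160,196),(82,106),(100,172)]) (.cons 196 214 (.leaf [(10,22),(88,160),(82,100),(172,208)]) (.cons 10 22 (.cons 214 88 (.leaf [(106,178),(196,208),(100,172)]) (.cons 88 214 (.leaf [(160,196),(82,106),(100,172)]) (.cons 196 214 (.leaf [(88,160),(82,100),(172,208)]) (.cons 172 214 (.leaf [(100,208),(82,88),(160,196)]) (.cons 208 214 (.leaf [(100,172),(82,88),(160,196)]) (.cons 100 172 (.leaf [(82,106),(88,160),(196,208),(178,214)]) (.cons 106 214 (.leaf [(82,88),(100,172),(160,196)]) (.cons 160 88 (.leaf [(100,172),(106,178),(196,208)]) (.cons 178 214 (.leaf [(82,88),(160,196),(100,172)])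 (.cons 82 214 (.leaf [(88,106),(100,172),(160,196)]) .nil)))))))))) (.cons 172 214 (.leaf [(10,22),(100,208),(82,88),(160,196)]) (.cons 208 214 (.leaf [(10,22),(100,172),(82,88),(160,196)]) (.cons 22 10 (.cons 214 88 (.leaf [(106,178),(196,208),(100,172)]) (.cons 88 214 (.leaf [(160,196),(82,106),(100,172)]) (.cons 196 214 (.leaf [(88,160),(82,100),(172,208)]) (.cons 172 214 (.leaf [(100,208),(82,88),(160,196)]) (.cons 208 214 (.leaf [(100,172),(82,88),(160,196)]) (.cons 100 172 (.leaf [(82,106),(88,160),(196,208),(178,214)]) (.cons 106 214 (.leaf [(82,88),(100,172),(160,196)]) (.cons 160 88 (.leaf [(100,172),(106,178),(196,208)]) (.cons 178 214 (.leaf [(82,88),(160,196),(100,172)]) (.cons 82 214 (.leaf [(88,106),(100,172),(160,196)]) .nil)))))))))) (.cons 100 172 (.leaf [(10,22),(82,106),(88,160),(196,208),(178,214)]) (.cons 106 214 (.leaf [(10,22),(82,88),(100,172),(160,196)]) (.cons 160 88 (.leaf [(10,22),(100,172),(106,178),(196,208)]) (.cons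 178 214 (.leaf [(10,22),(82,88),(160,196),(100,172)]) (.cons 82 214 (.leaf [(10,22),(88,106),(100,172),(160,196)]) .nil)))))))))))) (.cons 154 34 (.cons 172 88 (.leaf [(10,82),(100,208),(160,178),(196,214)]) (.cons 82 10 (.cons 172 88 (.leaf [(100,208),(160,178),(196,214)]) (.cons 88 172 (.leaf [(100,106),(160,196),(208,214)]) (.cons 160 172 (.leaf [(88,196),(100,106),(208,214)]) (.cons 100 172 (.leaf [(88,106),(160,196),(208,214)]) (.cons 196 88 (.leaf [(208,214),(100,172),(160,178)]) (.cons 208 172 (.leaf [(196,214),(88,160),(100,106)]) (.cons 214 172 (.leaf [(196,208),(88,160),(100,106)]) (.cons 106 88 (.leaf [(100,172),(160,178),(196,208)]) (.cons 178 172 (.leaf [(88,160),(100,106),(196,208)]) .nil))))))))) (.cons 88 172 (.leaf [(10,82),(160,196),(100,106),(208,214)]) (.cons 160 172 (.leaf [(10,82),(88,196),(208,214),(100,106)]) (.cons 196 88 (.leaf [(10,82),(208,214),(100,172),(160,178)]) (.cons 10 82 (.cons 172 214 (.leaf [(100,208),(160,178),(88,196)])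 (.cons 160 172 (.leaf [(88,196),(208,214)]) (.cons 196 172 (.leaf [(88,160),(208,214)]) (.cons 208 172 (.leaf [(196,214),(88,160)]) (.cons 214 172 (.leaf [(196,208),(88,160)]) (.cons 88 172 (.leaf [(160,196),(208,214)]) (.cons 100 172 (.leaf [(88,160),(196,208)]) (.cons 178 172 (.leaf [(88,160),(196,208)]) .nil)))))))) (.cons 208 172 (.leaf [(10,82),(196,214),(88,160),(100,106)]) (.cons 214 172 (.leaf [(10,82),(196,208),(88,160),(100,106)]) (.cons 100 172 (.leaf [(10,82),(88,106),(160,196),(208,214)]) (.cons 178 172 (.leaf [(10,82),(88,100),(160,196),(208,214)]) (.cons 106 172 (.leaf [(10,82),(88,100),(160,196),(208,214)]) .nil))))))))))) (.cons 172 88 (.cons 154 34 (.leaf [(10,82),(100,208),(160,178),(196,214)]) (.cons 34 154 (.leaf [(10,22),(100,208),(106,178),(196,214)]) (.cons 208 100 (.cons 154 34 (.leaf [(10,82),(160,178),(196,214)]) (.cons 34 154 (.leaf [(10,22),(196,214),(106,178)]) (.cons 214 196 (.cons 34 154 (.leaf [(10,22),(106,178)])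 (.cons 154 34 (.leaf [(10,82),(160,178)]) (.cons 10 34 (.leaf [(82,154),(160,178)]) (.cons 178 34 (.leaf [(154,160),(10,82)]) (.cons 160 154 (.leaf [(10,22),(34,106)]) (.cons 106 34 (.leaf [(10,82),(154,160)]) (.cons 82 154 (.leaf [(10,22),(34,106)]) (.cons 22 34 (.leaf [(10,82),(154,160)]) .nil)))))))) (.cons 196 214 (.cons 154 34 (.leaf [(10,82),(160,178)]) (.cons 34 154 (.leaf [(10,22)]) (.cons 10 154 (.leaf [(22,34)]) (.cons 160 154 (.leaf [(10,22)]) (.cons 82 154 (.leaf [(10,22)]) (.cons 178 154 (.leaf [(10,22)]) (.cons 22 34 (.leaf [(10,82),(154,160)]) .nil))))))) (.cons 10 154 (.leaf [(22,34),(196,214),(106,178)]) (.cons 178 154 (.leaf [(196,214),(10,22),(34,106)]) (.cons 160 154 (.leaf [(196,214),(10,22),(34,106)]) (.cons 82 154 (.leaf [(196,214),(10,22),(34,106)]) (.cons 22 34 (.leaf [(196,214),(10,82),(154,160)]) (.cons 106 34 (.leaf [(196,214),(10,82),(154,160)]) .nil)))))))))) (.cons 100 208 (.cons 154 34 (.leaf [(10,82),(160,178)]) (.cons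 34 154 (.leaf [(10,22),(106,178)]) (.cons 10 154 (.leaf [(22,34),(106,178)]) (.cons 178 154 (.leaf [(10,22),(34,106)]) (.cons 160 154 (.leaf [(10,22),(34,106)]) (.cons 82 154 (.leaf [(10,22),(34,106)]) (.cons 22 34 (.leaf [(10,82),(154,160)]) (.cons 106 34 (.leaf [(10,82),(154,160)]) (.cons 214 34 (.leaf [(10,82),(154,160)]) .nil))))))))) (.cons 10 154 (.leaf [(22,34),(100,208),(196,214),(106,178)]) (.cons 178 154 (.leaf [(100,208),(10,22),(34,106),(196,214)]) (.cons 214 208 (.cons 34 154 (.leaf [(10,22),(106,178)]) (.cons 154 34 (.leaf [(10,82),(160,178)]) (.cons 10 34 (.leaf [(82,154),(160,178)]) (.cons 178 34 (.leaf [(154,160),(10,82)]) (.cons 160 154 (.leaf [(10,22),(34,106)]) (.cons 106 34 (.leaf [(10,82),(154,160)]) (.cons 82 154 (.leaf [(10,22),(34,106)]) (.cons 22 34 (.leaf [(10,82),(154,160)]) .nil)))))))) (.cons 160 154 (.leaf [(100,208),(10,22),(196,214),(34,106)]) (.cons 196 208 (.cons 154 34 (.leaf [(10,82),(160,178)]) (.cons 34 154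 (.leaf [(10,22),(106,178)]) (.cons 10 154 (.leaf [(22,34),(106,178)]) (.cons 178 154 (.leaf [(10,22),(34,106)]) (.cons 160 154 (.leaf [(10,22),(34,106)]) (.cons 82 154 (.leaf [(10,22),(34,106)]) (.cons 22 34 (.leaf [(10,82),(154,160)]) (.cons 106 34 (.leaf [(10,82),(154,160)]) (.cons 214 34 (.leaf [(10,82),(154,160)]) .nil))))))))) (.cons 82 154 (.leaf [(100,208),(10,22),(196,214),(34,106)]) (.cons 22 34 (.leaf [(100,208),(10,82),(154,160),(196,214)]) (.cons 106 34 (.leaf [(100,208),(10,82),(154,160),(196,214)]) .nil)))))))))))) (.cons 214 172 (.cons 34 154 (.leaf [(10,22),(106,178),(196,208),(88,160),(82,100)]) (.cons 196 208 (.cons 34 154 (.leaf [(10,22),(88,160),(106,178),(82,100)]) (.cons 154 34 (.leaf [(10,82),(88,160),(100,106)]) (.cons 88 160 (.cons 34 154 (.leaf [(10,22),(106,178),(82,100)]) (.cons 154 34 (.leaf [(10,82),(100,106)]) (.cons 10 34 (.leaf [(82,154),(100,106)]) (.cons 106 34 (.leaf [(82,100),(10,154)]) (.cons 82 34 (.leaf [(10,154),(100,106)])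 (.cons 100 34 (.leaf [(82,106),(10,154)]) (.cons 178 34 (.leaf [(10,154),(82,100)]) (.cons 22 34 (.leaf [(10,154),(82,100)]) .nil)))))))) (.cons 160 88 (.cons 34 154 (.leaf [(10,22),(106,178)]) (.cons 154 34 (.leaf [(10,82)]) (.cons 10 34 (.leaf [(82,154)]) (.cons 82 34 (.leaf [(10,154)]) (.cons 178 34 (.leaf [(10,82)]) (.cons 22 34 (.leaf [(10,82)]) (.cons 106 34 (.leaf [(10,82)]) .nil))))))) (.cons 10 34 (.leaf [(82,154),(88,160),(100,106)]) (.cons 106 34 (.leaf [(88,160),(10,154),(82,100)]) (.cons 82 34 (.leaf [(10,154),(88,160),(100,106)]) (.cons 178 34 (.leaf [(88,160),(10,154),(82,100)]) (.cons 22 34 (.leaf [(88,160),(10,154),(82,100)]) (.cons 100 34 (.leaf [(88,160),(10,154),(82,106)]) .nil)))))))))) (.cons 154 34 (.leaf [(10,82),(196,208),(88,160),(100,106)]) (.cons 10 34 (.leaf [(82,154),(196,208),(88,160),(100,106)]) (.cons 208 196 (.cons 34 154 (.leaf [(10,22),(106,178),(82,88)]) (.cons 154 34 (.leaf [(10,82),(88,100)]) (.cons 10 34 (.leaf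 [(82,154),(88,100)]) (.cons 106 34 (.leaf [(10,154),(82,88)]) (.cons 82 34 (.leaf [(10,154),(88,100)]) (.cons 178 34 (.leaf [(10,154),(82,88)]) (.cons 22 34 (.leaf [(10,154),(82,88)]) (.cons 100 34 (.leaf [(10,154),(82,88)]) (.cons 88 34 (.leaf [(10,154),(82,100)]) .nil))))))))) (.cons 106 34 (.leaf [(196,208),(10,154),(82,100),(88,160)]) (.cons 82 34 (.leaf [(10,154),(196,208),(88,160),(100,106)]) (.cons 88 196 (.cons 34 154 (.leaf [(10,22),(106,178),(82,100)]) (.cons 154 34 (.leaf [(10,82),(100,106)]) (.cons 10 34 (.leaf [(82,154),(100,106)]) (.cons 106 34 (.leaf [(82,100),(10,154)]) (.cons 82 34 (.leaf [(10,154),(100,106)]) (.cons 100 34 (.leaf [(82,106),(10,154)]) (.cons 178 34 (.leaf [(10,154),(82,100)]) (.cons 22 34 (.leaf [(10,154),(82,100)]) .nil)))))))) (.cons 160 196 (.cons 34 154 (.leaf [(10,22),(106,178),(82,88)]) (.cons 154 34 (.leaf [(10,82),(88,100)]) (.cons 10 34 (.leaf [(82,154),(88,100)]) (.cons 106 34 (.leaf [(10,154),(82,88)])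 (.cons 82 34 (.leaf [(10,154),(88,100)]) (.cons 178 34 (.leaf [(10,154),(82,88)]) (.cons 22 34 (.leaf [(10,154),(82,88)]) (.cons 100 34 (.leaf [(10,154),(82,88)]) (.cons 88 34 (.leaf [(10,154),(82,100)]) .nil))))))))) (.cons 178 34 (.leaf [(196,208),(10,154),(82,100),(88,160)]) (.cons 22 34 (.leaf [(196,208),(10,154),(82,100),(88,160)]) (.cons 100 34 (.leaf [(196,208),(10,154),(82,106),(88,160)]) .nil)))))))))))) (.cons 88 172 (.cons 34 154 (.leaf [(10,22),(160,196),(82,100),(106,178),(208,214)]) (.cons 196 160 (.cons 34 154 (.leaf [(10,22),(208,214),(82,100),(106,178)]) (.cons 154 34 (.leaf [(10,82),(208,214),(100,106)]) (.cons 214 208 (.cons 34 154 (.leaf [(10,22),(106,178),(82,100)]) (.cons 154 34 (.leaf [(10,82),(100,106)]) (.cons 10 34 (.leaf [(82,154),(100,106)]) (.cons 106 34 (.leaf [(82,100),(10,154)]) (.cons 82 34 (.leaf [(10,154),(100,106)]) (.cons 100 34 (.leaf [(82,106),(10,154)]) (.cons 178 34 (.leaf [(10,154),(82,100)]) (.cons 22 34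 (.leaf [(10,154),(82,100)]) .nil)))))))) (.cons 10 34 (.leaf [(82,154),(208,214),(100,106)]) (.cons 208 214 (.cons 34 154 (.leaf [(10,22),(82,100)]) (.cons 154 34 (.leaf [(10,82),(100,106)]) (.cons 10 34 (.leaf [(82,154),(100,106)]) (.cons 82 154 (.leaf [(100,106),(10,22)]) (.cons 100 34 (.leaf [(82,106),(10,154)]) (.cons 22 34 (.leaf [(10,154),(82,100)]) (.cons 106 34 (.leaf [(82,100),(10,154)]) .nil))))))) (.cons 82 154 (.leaf [(100,106),(208,214),(10,22),(34,178)]) (.cons 106 34 (.leaf [(82,100),(208,214),(10,154)]) (.cons 100 34 (.leaf [(82,106),(208,214),(10,154)]) (.cons 22 34 (.leaf [(208,214),(10,154),(82,100)]) (.cons 178 34 (.leaf [(208,214),(10,154),(82,100)]) .nil)))))))))) (.cons 154 34 (.leaf [(10,82),(160,196),(100,106),(208,214)]) (.cons 160 196 (.cons 34 154 (.leaf [(10,22),(82,100),(106,178)]) (.cons 154 34 (.leaf [(10,82),(100,106)]) (.cons 10 34 (.leaf [(82,154),(100,106)]) (.cons 82 154 (.leaf [(100,106),(10,22),(34,178)]) (.cons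 106 34 (.leaf [(82,100),(10,154)]) (.cons 100 34 (.leaf [(82,106),(10,154)]) (.cons 22 34 (.leaf [(10,154),(82,100)]) (.cons 178 34 (.leaf [(10,154),(82,100)]) (.cons 214 34 (.leaf [(10,154),(82,100)]) .nil))))))))) (.cons 10 34 (.leaf [(82,154),(160,196),(100,106),(208,214)]) (.cons 82 154 (.leaf [(100,106),(160,196),(10,22),(208,214),(34,178)]) (.cons 106 34 (.leaf [(82,100),(160,196),(10,154),(208,214)]) (.cons 214 196 (.cons 34 154 (.leaf [(10,22),(106,178),(82,100)]) (.cons 154 34 (.leaf [(10,82),(100,106)]) (.cons 10 34 (.leaf [(82,154),(100,106)]) (.cons 106 34 (.leaf [(82,100),(10,154)]) (.cons 82 34 (.leaf [(10,154),(100,106)]) (.cons 100 34 (.leaf [(82,106),(10,154)]) (.cons 178 34 (.leaf [(10,154),(82,100)]) (.cons 22 34 (.leaf [(10,154),(82,100)]) .nil)))))))) (.cons 100 34 (.leaf [(82,106),(160,196),(10,154),(208,214)]) (.cons 208 196 (.cons 34 154 (.leaf [(10,22),(82,100),(106,178)]) (.cons 154 34 (.leaf [(10,82),(100,106)]) (.cons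 10 34 (.leaf [(82,154),(100,106)]) (.cons 82 154 (.leaf [(100,106),(10,22),(34,178)]) (.cons 106 34 (.leaf [(82,100),(10,154)]) (.cons 100 34 (.leaf [(82,106),(10,154)]) (.cons 22 34 (.leaf [(10,154),(82,100)]) (.cons 178 34 (.leaf [(10,154),(82,100)]) (.cons 214 34 (.leaf [(10,154),(82,100)]) .nil))))))))) (.cons 22 34 (.leaf [(160,196),(10,154),(82,100),(208,214)]) (.cons 178 34 (.leaf [(160,196),(10,154),(82,100),(208,214)]) .nil)))))))))))) (.cons 196 214 (.cons 154 34 (.cons 160 88 (.leaf [(10,82),(172,178),(100,208)]) (.cons 82 10 (.cons 160 88 (.leaf [(172,178),(100,208)]) (.cons 88 160 (.leaf [(100,106),(172,208)]) (.cons 100 88 (.leaf [(172,208),(160,178)]) (.cons 172 160 (.leaf [(100,208),(88,106)]) (.cons 106 88 (.leaf [(100,208),(160,172)]) (.cons 208 160 (.leaf [(100,172),(88,106)]) (.cons 178 160 (.leaf [(88,106),(100,172)]) .nil))))))) (.cons 88 160 (.leaf [(10,82),(100,106),(172,208)]) (.cons 10 82 (.leaf [(88,160),(100,208),(172,178)])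 (.cons 172 160 (.leaf [(10,82),(100,208),(88,106)]) (.cons 100 160 (.leaf [(10,82),(172,208),(88,106)]) (.cons 208 160 (.leaf [(10,82),(100,172),(88,106)]) (.cons 178 160 (.leaf [(10,82),(88,100),(172,208)]) (.cons 106 160 (.leaf [(10,82),(88,100),(172,208)]) .nil))))))))) (.cons 34 154 (.leaf [(10,22),(88,160),(82,100),(172,208)]) (.cons 160 88 (.cons 154 34 (.leaf [(10,82),(172,178),(100,208)]) (.cons 34 154 (.leaf [(10,22),(100,172)]) (.cons 10 154 (.leaf [(22,34),(100,172)]) (.cons 172 154 (.leaf [(100,208),(10,22)]) (.cons 100 154 (.leaf [(172,208),(10,22)]) (.cons 208 154 (.leaf [(100,172),(10,22)]) (.cons 82 154 (.leaf [(10,22),(100,172)]) (.cons 178 154 (.leaf [(10,22),(100,172)]) (.cons 22 34 (.leaf [(10,82),(100,208),(154,172)]) .nil))))))))) (.cons 88 160 (.cons 34 154 (.leaf [(10,22),(82,106),(100,172)]) (.cons 154 34 (.leaf [(10,82),(100,106),(172,208)]) (.cons 100 34 (.leaf [(82,106),(172,208),(10,154)]) (.cons 10 34 (.leaf [(82,154),(100,106),(172,208)])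 (.cons 82 154 (.leaf [(100,106),(10,22),(172,208)]) (.cons 106 34 (.leaf [(82,100),(10,154),(172,208)]) (.cons 172 34 (.leaf [(100,208),(10,154),(82,106)]) (.cons 208 34 (.leaf [(100,172),(10,154),(82,106)]) (.cons 22 34 (.leaf [(10,154),(82,106),(100,172)]) .nil))))))))) (.cons 10 154 (.leaf [(22,34),(88,160),(82,100),(172,208)]) (.cons 100 154 (.leaf [(88,160),(172,208),(10,22),(82,106)]) (.cons 172 154 (.leaf [(88,160),(100,208),(10,22),(82,106)]) (.cons 82 154 (.leaf [(88,160),(10,22),(100,106),(172,208)]) (.cons 208 154 (.leaf [(88,160),(100,172),(10,22),(82,106)]) (.cons 22 34 (.leaf [(88,160),(10,82),(100,106),(172,208),(154,178)]) (.cons 106 154 (.leaf [(88,160),(10,22),(82,100),(172,208)]) (.cons 178 154 (.leaf [(88,160),(10,22),(82,100),(172,208)]) .nil)))))))))))) (.cons 10 34 (.cons 172 88 (.leaf [(82,154),(100,208),(160,178),(196,214)]) (.cons 82 154 (.cons 88 172 (.leaf [(100,106),(160,196),(208,214)]) (.cons 100 88 (.leaf [(172,208),(196,214)])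 (.cons 196 88 (.leaf [(208,214),(100,172)]) (.cons 172 88 (.leaf [(100,208),(196,214)]) (.cons 208 172 (.leaf [(196,214),(88,160),(100,106)]) (.cons 214 88 (.leaf [(196,208),(100,172)]) (.cons 160 88 (.leaf [(100,172),(196,208)]) (.cons 106 88 (.leaf [(100,172),(196,208)]) .nil)))))))) (.cons 88 172 (.leaf [(82,154),(160,196),(100,106),(208,214)]) (.cons 154 82 (.cons 172 214 (.leaf [(100,208),(160,178),(88,196)]) (.cons 160 172 (.leaf [(88,196),(208,214)]) (.cons 196 172 (.leaf [(88,160),(208,214)]) (.cons 208 172 (.leaf [(196,214),(88,160)]) (.cons 214 172 (.leaf [(196,208),(88,160)]) (.cons 88 172 (.leaf [(160,196),(208,214)]) (.cons 100 172 (.leaf [(88,160),(196,208)]) (.cons 178 172 (.leaf [(88,160),(196,208)]) .nil)))))))) (.cons 196 88 (.leaf [(82,154),(208,214),(100,172),(160,178)]) (.cons 208 172 (.leaf [(82,154),(196,214),(88,160),(100,106)]) (.cons 214 172 (.leaf [(82,154),(196,208),(88,160),(100,106)]) (.cons 160 88 (.leaf [(82,154),(100,208),(172,178),(196,214)])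 (.cons 100 172 (.leaf [(82,154),(88,106),(160,196),(208,214)]) (.cons 106 88 (.leaf [(82,154),(100,208),(160,172),(196,214)]) (.cons 178 172 (.leaf [(82,154),(88,100),(160,196),(208,214)]) .nil))))))))))) (.cons 208 214 (.cons 154 34 (.cons 172 100 (.leaf [(10,82),(160,178),(88,196)]) (.cons 100 172 (.leaf [(10,82),(88,106),(160,196)]) (.cons 82 10 (.cons 100 172 (.leaf [(88,106),(160,196)]) (.cons 172 100 (.leaf [(160,178),(88,196)]) (.cons 160 172 (.leaf [(88,196),(100,106)]) (.cons 88 100 (.leaf [(160,196),(172,178)]) (.cons 196 160 (.leaf [(100,172),(88,106)]) (.cons 106 100 (.leaf [(88,196),(160,172)]) (.cons 178 172 (.leaf [(88,160),(100,106)]) .nil))))))) (.cons 160 172 (.leaf [(10,82),(88,196),(100,106)]) (.cons 10 82 (.leaf [(100,172),(88,196),(160,178)]) (.cons 88 100 (.leaf [(10,82),(160,196),(172,178)]) (.cons 196 160 (.leaf [(10,82),(100,172),(88,106)]) (.cons 178 172 (.leaf [(10,82),(88,100),(160,196)]) (.cons 106 100 (.leaf [(10,82),(88,196),(160,172)])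 .nil))))))))) (.cons 34 154 (.leaf [(10,22),(100,172),(82,88),(160,196)]) (.cons 100 172 (.cons 34 154 (.leaf [(10,22),(82,106),(88,160)]) (.cons 154 34 (.leaf [(10,82),(88,106),(160,196)]) (.cons 10 34 (.leaf [(82,154),(88,106),(160,196)]) (.cons 82 154 (.leaf [(88,106),(10,22),(160,196)]) (.cons 88 34 (.leaf [(82,106),(160,196),(10,154)]) (.cons 160 34 (.leaf [(88,196),(10,154),(82,106)]) (.cons 196 34 (.leaf [(88,160),(10,154),(82,106)]) (.cons 106 34 (.leaf [(82,88),(10,154),(160,196)]) (.cons 22 34 (.leaf [(10,154),(82,106),(88,160)]) .nil))))))))) (.cons 172 100 (.cons 154 34 (.leaf [(10,82),(160,178),(88,196)]) (.cons 34 154 (.leaf [(10,22),(88,160)]) (.cons 160 154 (.leaf [(88,196),(10,22)]) (.cons 10 154 (.leaf [(22,34),(88,160)]) (.cons 196 154 (.leaf [(88,160),(10,22)]) (.cons 82 154 (.leaf [(10,22),(88,160)]) (.cons 178 154 (.leaf [(10,22),(88,160)]) (.cons 22 34 (.leaf [(10,82),(88,196),(154,160)]) (.cons 88 154 (.leaf [(160,196),(10,22)])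 .nil))))))))) (.cons 10 154 (.leaf [(22,34),(100,172),(82,88),(160,196)]) (.cons 160 154 (.leaf [(88,196),(100,172),(10,22),(82,106)]) (.cons 82 154 (.leaf [(100,172),(10,22),(88,106),(160,196)]) (.cons 88 154 (.leaf [(100,172),(160,196),(10,22),(82,106)]) (.cons 196 154 (.leaf [(88,160),(100,172),(10,22),(82,106)]) (.cons 22 34 (.leaf [(100,172),(10,82),(88,106),(160,196),(154,178)]) (.cons 106 154 (.leaf [(100,172),(10,22),(82,88),(160,196)]) (.cons 178 154 (.leaf [(100,172),(10,22),(82,88),(160,196)]) .nil)))))))))))) (.cons 160 154 (.cons 88 196 (.leaf [(172,214),(10,22),(82,106),(100,208),(34,178)]) (.cons 196 88 (.leaf [(208,214),(10,22),(100,172),(34,106)]) (.cons 214 88 (.leaf [(196,208),(10,22),(34,106),(100,172)]) (.cons 172 88 (.leaf [(100,208),(10,22),(196,214),(34,106)]) (.cons 208 196 (.leaf [(100,172),(10,22),(88,214),(34,178),(82,106)]) (.cons 34 88 (.leaf [(10,22),(100,172),(106,178),(196,208)]) (.cons 100 88 (.leaf [(172,208),(10,22),(196,214),(34,106)])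 (.cons 10 88 (.leaf [(22,34),(100,172),(196,208),(106,178)]) (.cons 106 88 (.leaf [(10,22),(34,178),(100,172),(196,208)]) (.cons 22 88 (.leaf [(10,34),(100,172),(196,208),(106,178)]) (.cons 178 88 (.leaf [(10,22),(34,106),(100,172),(196,208)]) (.cons 82 88 (.leaf [(10,22),(100,172),(196,208),(34,106)]) .nil)))))))))))) (.cons 100 172 (.cons 34 154 (.leaf [(10,22),(82,106),(88,160),(196,208),(178,214)]) (.cons 154 34 (.leaf [(10,82),(88,106),(160,196),(208,214)]) (.cons 196 34 (.leaf [(88,160),(208,214),(10,154),(82,106)]) (.cons 10 34 (.leaf [(82,154),(88,106),(160,196),(208,214)]) (.cons 82 154 (.leaf [(88,106),(10,22),(160,196),(208,214),(34,178)]) (.cons 88 34 (.leaf [(82,106),(160,196),(10,154),(208,214)]) (.cons 106 34 (.leaf [(82,88),(10,154),(160,196),(208,214)]) (.cons 214 34 (.leaf [(196,208),(10,154),(82,106),(88,160)]) (.cons 160 34 (.leaf [(88,196),(10,154),(82,106),(208,214)]) (.cons 208 34 (.leaf [(196,214),(10,154),(82,106),(88,160)])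 (.cons 22 34 (.leaf [(10,154),(82,106),(88,160),(196,208)]) (.cons 178 34 (.leaf [(10,154),(82,106),(88,160),(196,208)]) .nil)))))))))))) (.cons 82 154 (.cons 88 214 (.leaf [(100,106),(160,196),(10,22),(172,208)]) (.cons 214 88 (.leaf [(196,208),(10,22),(34,106),(100,172)]) (.cons 100 88 (.leaf [(172,208),(10,22),(196,214),(34,106)]) (.cons 196 88 (.leaf [(208,214),(10,22),(100,172),(34,106)]) (.cons 172 88 (.leaf [(100,208),(10,22),(196,214),(34,106)]) (.cons 208 214 (.leaf [(100,172),(10,22),(88,106),(160,196)]) (.cons 34 214 (.leaf [(10,22),(88,106),(100,172),(160,196)]) (.cons 106 88 (.leaf [(10,22),(34,178),(100,172),(196,208)]) (.cons 160 88 (.leaf [(10,22),(100,172),(196,208),(34,106)]) (.cons 10 88 (.leaf [(22,34),(100,172),(196,208),(106,178)]) (.cons 22 88 (.leaf [(10,34),(100,172),(196,208),(106,178)]) (.cons 178 214 (.leaf [(10,22),(88,106),(100,172),(160,196)]) .nil)))))))))))) (.cons 106 34 (.cons 88 172 (.leaf [(82,100),(160,196),(10,154),(208,214)])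 (.cons 172 88 (.leaf [(100,208),(10,82),(154,160),(196,214)]) (.cons 100 88 (.leaf [(172,208),(10,82),(196,214),(154,160)]) (.cons 196 88 (.leaf [(208,214),(10,82),(100,172),(154,160)]) (.cons 208 172 (.leaf [(196,214),(10,154),(82,100),(88,160)]) (.cons 82 88 (.leaf [(10,154),(100,208),(160,172),(196,214)]) (.cons 214 88 (.leaf [(196,208),(10,82),(100,172),(154,160)]) (.cons 160 88 (.leaf [(10,82),(100,172),(154,178),(196,208)]) (.cons 154 172 (.leaf [(10,82),(88,100),(160,196),(208,214)]) (.cons 10 88 (.leaf [(82,154),(100,208),(160,172),(196,214)]) (.cons 178 172 (.leaf [(10,154),(82,100),(88,160),(196,208)]) .nil))))))))))) (.cons 178 34 (.cons 172 88 (.leaf [(100,208),(154,160),(10,82),(196,214)]) (.cons 88 172 (.leaf [(160,196),(10,154),(82,100),(208,214)]) (.cons 160 172 (.leaf [(88,196),(10,154),(82,100),(208,214)]) (.cons 196 88 (.leaf [(208,214),(10,82),(100,172),(154,160)]) (.cons 208 172 (.leaf [(196,214),(10,154),(82,100),(88,160)])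 (.cons 214 172 (.leaf [(196,208),(10,154),(82,100),(88,160)]) (.cons 154 172 (.leaf [(10,82),(88,100),(160,196),(208,214)]) (.cons 100 172 (.leaf [(10,154),(82,106),(88,160),(196,208)]) (.cons 82 172 (.leaf [(10,154),(88,160),(100,106),(196,208)]) (.cons 10 172 (.leaf [(82,154),(88,100),(160,196),(208,214)]) (.cons 106 172 (.leaf [(10,154),(82,100),(88,160),(196,208)]) .nil))))))))))) (.cons 22 34 (.cons 172 88 (.leaf [(100,208),(10,82),(154,160),(196,214)]) (.cons 88 172 (.leaf [(160,196),(10,154),(82,100),(208,214)]) (.cons 196 88 (.leaf [(208,214),(10,82),(100,172),(154,160)]) (.cons 208 172 (.leaf [(196,214),(10,154),(82,100),(88,160)]) (.cons 214 172 (.leaf [(196,208),(10,154),(82,100),(88,160)]) (.cons 160 88 (.leaf [(10,82),(100,172),(154,178),(196,208)]) (.cons 100 172 (.leaf [(10,154),(82,106),(88,160),(196,208)]) (.cons 82 88 (.leaf [(10,154),(100,208),(160,172),(196,214)]) (.cons 154 172 (.leaf [(10,82),(88,100),(160,196),(208,214)]) (.cons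 10 172 (.leaf [(82,154),(88,100),(160,196),(208,214)]) (.cons 106 88 (.leaf [(10,82),(100,172),(196,208),(154,160)]) (.cons 178 172 (.leaf [(10,154),(82,88),(160,196),(208,214)]) .nil)))))))))))) .nil))))))))))))))

/-- The masks of block 13. -/
def m13 : List ℕ := [0x400400400, 0x400000000010000000000000000000010000000000000000000000, 0x400000000000000000400000000000000000400, 0x10000000010000000000000000010000000000000000000000, 0x10000000010000000000000000010000000000000000000000000, 0x400000000000000000000000000000400000000, 0x400000000400000000000000000400000000000000000400000000, 0x410010400000000000000000000, 0x410010400000000000000000000000000000000000000, 0x410010000000000000000000000000000000000000000000000000]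

/-- The strategy tree of block 14. -/
def t14 : Tr := (.cons 99 105 (.cons 97 101 (.cons 102 77 (.cons 138 30 (.leaf [(139,141),(111,117)]) (.cons 141 138 (.leaf [(30,104),(111,117)]) (.cons 30 138 (.leaf [(104,141),(111,117)]) (.cons 104 141 (.leaf [(30,138)]) (.cons 139 138 (.leaf [(30,104),(111,117)]) (.cons 111 141 (.leaf [(30,138)]) (.cons 117 141 (.leaf [(30,138)]) .nil))))))) (.cons 141 102 (.leaf [(30,104),(111,117),(138,139)]) (.cons 138 102 (.leaf [(139,141),(30,104),(111,117)]) (.cons 77 102 (.leaf [(30,104),(111,117),(138,139)]) (.cons 30 102 (.leaf [(104,141),(111,117),(138,139)]) (.cons 104 141 (.leaf [(77,102),(30,138)]) (.cons 139 141 (.leaf [(77,102),(30,138)]) (.cons 111 141 (.leaf [(77,102),(30,138)]) (.cons 117 141 (.leaf [(77,102),(30,138)]) .nil))))))))) (.cons 101 97 (.leaf [(77,107),(30,102),(138,139),(104,141),(111,117)]) (.cons 141 102 (.leaf [(30,104),(97,101),(111,117),(138,139),(77,107)]) (.cons 102 97 (.cons 138 30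 (.leaf [(139,141),(77,101),(111,117)]) (.cons 141 138 (.leaf [(30,104),(111,117),(77,101)]) (.cons 30 138 (.leaf [(104,141),(77,101),(111,117)]) (.cons 101 138 (.leaf [(77,107),(30,104),(111,117)]) (.cons 104 141 (.leaf [(30,138),(77,101)]) (.cons 107 138 (.leaf [(77,101),(30,104),(111,117)]) (.cons 139 138 (.leaf [(30,104),(77,101),(111,117)]) (.cons 77 138 (.leaf [(101,107),(30,104),(111,117)]) (.cons 111 141 (.leaf [(30,138),(77,101)]) (.cons 117 141 (.leaf [(30,138),(77,101)]) .nil)))))))))) (.cons 138 102 (.leaf [(97,101),(139,141),(30,104),(77,107),(111,117)]) (.cons 77 97 (.leaf [(101,107),(30,102),(138,139),(104,141),(111,117)]) (.cons 30 102 (.leaf [(97,101),(104,141),(77,107),(111,117),(138,139)]) (.cons 104 102 (.leaf [(30,141),(97,101),(77,107),(111,117),(138,139)]) (.cons 107 101 (.leaf [(30,102),(138,139),(104,141),(77,97),(111,117)]) (.cons 139 102 (.leaf [(97,101),(138,141),(30,104),(77,107),(111,117)]) (.cons 111 102 (.leaf [(97,101),(117,141),(30,104),(77,107),(138,139)])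 (.cons 117 102 (.leaf [(97,101),(111,141),(30,104),(77,107),(138,139)]) .nil)))))))))))) (.cons 141 102 (.leaf [(30,104),(99,105),(111,117),(138,139),(77,107),(97,101)]) (.cons 102 105 (.cons 97 77 (.cons 138 30 (.leaf [(99,101),(139,141),(111,117)]) (.cons 141 138 (.leaf [(30,104),(99,101),(111,117)]) (.cons 30 138 (.leaf [(99,101),(104,141),(111,117)]) (.cons 99 101 (.cons 138 30 (.leaf [(139,141),(111,117)]) (.cons 141 138 (.leaf [(30,104),(111,117)]) (.cons 30 138 (.leaf [(104,141),(111,117)]) (.cons 104 141 (.leaf [(30,138)]) (.cons 139 138 (.leaf [(30,104),(111,117)]) (.cons 111 141 (.leaf [(30,138)]) (.cons 117 141 (.leaf [(30,138)]) .nil))))))) (.cons 101 99 (.cons 138 30 (.leaf [(139,141),(111,117)]) (.cons 141 138 (.leaf [(30,104),(111,117)]) (.cons 30 138 (.leaf [(104,141),(111,117)]) (.cons 104 141 (.leaf [(30,138)]) (.cons 139 138 (.leaf [(30,104),(111,117)]) (.cons 111 141 (.leaf [(30,138)]) (.cons 117 141 (.leaf [(30,138)]) .nil)))))))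 (.cons 104 141 (.leaf [(30,138),(99,101)]) (.cons 139 138 (.leaf [(99,101),(30,104),(111,117)]) (.cons 111 141 (.leaf [(30,138),(99,101)]) (.cons 117 141 (.leaf [(30,138),(99,101)]) .nil))))))))) (.cons 138 30 (.cons 97 77 (.leaf [(99,101),(139,141),(111,117)]) (.cons 141 139 (.cons 97 77 (.leaf [(99,101),(111,117)]) (.cons 77 97 (.leaf [(101,107),(111,117)]) (.cons 101 97 (.leaf [(77,107),(111,117)]) (.cons 111 117 (.cons 97 77 (.leaf [(99,101)]) (.cons 77 97 (.leaf [(101,107)]) (.cons 101 97 (.leaf [(77,107)]) (.cons 99 97 (.leaf [(77,101)]) (.cons 107 77 (.leaf [(97,99)]) .nil))))) (.cons 117 111 (.cons 97 77 (.leaf [(99,101)]) (.cons 77 97 (.leaf [(101,107)]) (.cons 101 97 (.leaf [(77,107)]) (.cons 99 97 (.leaf [(77,101)]) (.cons 107 77 (.leaf [(97,99)]) .nil))))) (.cons 99 97 (.leaf [(111,117),(77,101)]) (.cons 107 77 (.leaf [(111,117),(97,99)]) .nil))))))) (.cons 77 97 (.leaf [(101,107),(139,141),(111,117)]) (.cons 101 97 (.leaf [(77,107),(139,141),(111,117)])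 (.cons 139 141 (.cons 97 77 (.leaf [(99,101)]) (.cons 77 97 (.leaf [(101,107)]) (.cons 101 97 (.leaf [(77,107)]) (.cons 99 97 (.leaf [(77,101)]) (.cons 107 77 (.leaf [(97,99)]) .nil))))) (.cons 99 97 (.leaf [(139,141),(77,101),(111,117)]) (.cons 107 77 (.leaf [(139,141),(97,99),(111,117)]) (.cons 111 141 (.cons 97 77 (.leaf [(99,101)]) (.cons 77 97 (.leaf [(101,107)]) (.cons 101 97 (.leaf [(77,107)]) (.cons 99 97 (.leaf [(77,101)]) (.cons 107 77 (.leaf [(97,99)]) .nil))))) (.cons 117 141 (.cons 97 77 (.leaf [(99,101)]) (.cons 77 97 (.leaf [(101,107)]) (.cons 101 97 (.leaf [(77,107)]) (.cons 99 97 (.leaf [(77,101)]) (.cons 107 77 (.leaf [(97,99)]) .nil))))) .nil))))))))) (.cons 141 138 (.cons 97 77 (.leaf [(30,104),(99,101),(111,117)]) (.cons 77 97 (.leaf [(30,104),(101,107),(111,117)]) (.cons 101 97 (.leaf [(30,104),(77,107),(111,117)]) (.cons 104 30 (.cons 97 77 (.leaf [(99,101),(111,117)]) (.cons 77 97 (.leaf [(101,107),(111,117)]) (.cons 101 97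 (.leaf [(77,107),(111,117)]) (.cons 111 117 (.cons 97 77 (.leaf [(99,101)]) (.cons 77 97 (.leaf [(101,107)]) (.cons 101 97 (.leaf [(77,107)]) (.cons 99 97 (.leaf [(77,101)]) (.cons 107 77 (.leaf [(97,99)]) .nil))))) (.cons 117 111 (.cons 97 77 (.leaf [(99,101)]) (.cons 77 97 (.leaf [(101,107)]) (.cons 101 97 (.leaf [(77,107)]) (.cons 99 97 (.leaf [(77,101)]) (.cons 107 77 (.leaf [(97,99)]) .nil))))) (.cons 99 97 (.leaf [(111,117),(77,101)]) (.cons 107 77 (.leaf [(111,117),(97,99)]) .nil))))))) (.cons 111 117 (.cons 97 77 (.leaf [(30,104),(99,101)]) (.cons 77 97 (.leaf [(30,104),(101,107)]) (.cons 101 97 (.leaf [(30,104),(77,107)]) (.cons 104 30 (.cons 97 77 (.leaf [(99,101)]) (.cons 77 97 (.leaf [(101,107)]) (.cons 101 97 (.leaf [(77,107)]) (.cons 99 97 (.leaf [(77,101)]) (.cons 107 77 (.leaf [(97,99)]) .nil))))) (.cons 30 104 (.cons 97 77 (.leaf [(99,101)]) (.cons 77 97 (.leaf [(101,107)]) (.cons 101 97 (.leaf [(77,107)]) (.cons 99 97 (.leaf [(77,101)])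 (.cons 107 77 (.leaf [(97,99)]) .nil))))) (.cons 99 97 (.leaf [(30,104),(77,101)]) (.cons 107 77 (.leaf [(30,104),(97,99)]) .nil))))))) (.cons 117 111 (.cons 97 77 (.leaf [(30,104),(99,101)]) (.cons 77 97 (.leaf [(30,104),(101,107)]) (.cons 101 97 (.leaf [(30,104),(77,107)]) (.cons 104 30 (.cons 97 77 (.leaf [(99,101)]) (.cons 77 97 (.leaf [(101,107)]) (.cons 101 97 (.leaf [(77,107)]) (.cons 99 97 (.leaf [(77,101)]) (.cons 107 77 (.leaf [(97,99)]) .nil))))) (.cons 30 104 (.cons 97 77 (.leaf [(99,101)]) (.cons 77 97 (.leaf [(101,107)]) (.cons 101 97 (.leaf [(77,107)]) (.cons 99 97 (.leaf [(77,101)]) (.cons 107 77 (.leaf [(97,99)]) .nil))))) (.cons 99 97 (.leaf [(30,104),(77,101)]) (.cons 107 77 (.leaf [(30,104),(97,99)]) .nil))))))) (.cons 30 104 (.cons 97 77 (.leaf [(99,101),(111,117)]) (.cons 77 97 (.leaf [(101,107),(111,117)]) (.cons 101 97 (.leaf [(77,107),(111,117)]) (.cons 111 117 (.cons 97 77 (.leaf [(99,101)]) (.cons 77 97 (.leaf [(101,107)])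 (.cons 101 97 (.leaf [(77,107)]) (.cons 99 97 (.leaf [(77,101)]) (.cons 107 77 (.leaf [(97,99)]) .nil))))) (.cons 117 111 (.cons 97 77 (.leaf [(99,101)]) (.cons 77 97 (.leaf [(101,107)]) (.cons 101 97 (.leaf [(77,107)]) (.cons 99 97 (.leaf [(77,101)]) (.cons 107 77 (.leaf [(97,99)]) .nil))))) (.cons 99 97 (.leaf [(111,117),(77,101)]) (.cons 107 77 (.leaf [(111,117),(97,99)]) .nil))))))) (.cons 99 97 (.leaf [(30,104),(111,117),(77,101)]) (.cons 107 77 (.leaf [(30,104),(111,117),(97,99)]) .nil))))))))) (.cons 77 97 (.cons 138 30 (.leaf [(101,107),(139,141),(111,117)]) (.cons 141 138 (.leaf [(30,104),(101,107),(111,117)]) (.cons 30 138 (.leaf [(101,107),(104,141),(111,117)]) (.cons 101 107 (.cons 138 30 (.leaf [(139,141),(111,117)]) (.cons 141 138 (.leaf [(30,104),(111,117)]) (.cons 30 138 (.leaf [(104,141),(111,117)]) (.cons 104 141 (.leaf [(30,138)]) (.cons 139 138 (.leaf [(30,104),(111,117)]) (.cons 111 141 (.leaf [(30,138)]) (.cons 117 141 (.leaf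 [(30,138)]) .nil))))))) (.cons 107 101 (.cons 138 30 (.leaf [(139,141),(111,117)]) (.cons 141 138 (.leaf [(30,104),(111,117)]) (.cons 30 138 (.leaf [(104,141),(111,117)]) (.cons 104 141 (.leaf [(30,138)]) (.cons 139 138 (.leaf [(30,104),(111,117)]) (.cons 111 141 (.leaf [(30,138)]) (.cons 117 141 (.leaf [(30,138)]) .nil))))))) (.cons 104 141 (.leaf [(30,138),(101,107)]) (.cons 139 138 (.leaf [(101,107),(30,104),(111,117)]) (.cons 111 141 (.leaf [(30,138),(101,107)]) (.cons 117 141 (.leaf [(30,138),(101,107)]) .nil))))))))) (.cons 30 138 (.cons 97 77 (.leaf [(99,101),(104,141),(111,117)]) (.cons 141 104 (.cons 97 77 (.leaf [(99,101),(111,117)]) (.cons 77 97 (.leaf [(101,107),(111,117)]) (.cons 101 97 (.leaf [(77,107),(111,117)]) (.cons 111 117 (.cons 97 77 (.leaf [(99,101)]) (.cons 77 97 (.leaf [(101,107)]) (.cons 101 97 (.leaf [(77,107)]) (.cons 99 97 (.leaf [(77,101)]) (.cons 107 77 (.leaf [(97,99)]) .nil))))) (.cons 117 111 (.cons 97 77 (.leaf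 [(99,101)]) (.cons 77 97 (.leaf [(101,107)]) (.cons 101 97 (.leaf [(77,107)]) (.cons 99 97 (.leaf [(77,101)]) (.cons 107 77 (.leaf [(97,99)]) .nil))))) (.cons 99 97 (.leaf [(111,117),(77,101)]) (.cons 107 77 (.leaf [(111,117),(97,99)]) .nil))))))) (.cons 77 97 (.leaf [(101,107),(104,141),(111,117)]) (.cons 101 97 (.leaf [(77,107),(104,141),(111,117)]) (.cons 104 141 (.cons 97 77 (.leaf [(99,101)]) (.cons 77 97 (.leaf [(101,107)]) (.cons 101 97 (.leaf [(77,107)]) (.cons 99 97 (.leaf [(77,101)]) (.cons 107 77 (.leaf [(97,99)]) .nil))))) (.cons 99 97 (.leaf [(104,141),(77,101),(111,117)]) (.cons 107 77 (.leaf [(104,141),(97,99),(111,117)]) (.cons 111 141 (.cons 97 77 (.leaf [(99,101)]) (.cons 77 97 (.leaf [(101,107)]) (.cons 101 97 (.leaf [(77,107)]) (.cons 99 97 (.leaf [(77,101)]) (.cons 107 77 (.leaf [(97,99)]) .nil))))) (.cons 117 141 (.cons 97 77 (.leaf [(99,101)]) (.cons 77 97 (.leaf [(101,107)]) (.cons 101 97 (.leaf [(77,107)]) (.cons 99 97 (.leaf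 [(77,101)]) (.cons 107 77 (.leaf [(97,99)]) .nil))))) .nil))))))))) (.cons 101 97 (.cons 138 30 (.leaf [(77,107),(139,141),(111,117)]) (.cons 141 138 (.leaf [(30,104),(77,107),(111,117)]) (.cons 30 138 (.leaf [(77,107),(104,141),(111,117)]) (.cons 107 77 (.cons 138 30 (.leaf [(139,141),(111,117)]) (.cons 141 138 (.leaf [(30,104),(111,117)]) (.cons 30 138 (.leaf [(104,141),(111,117)]) (.cons 104 141 (.leaf [(30,138)]) (.cons 139 138 (.leaf [(30,104),(111,117)]) (.cons 111 141 (.leaf [(30,138)]) (.cons 117 141 (.leaf [(30,138)]) .nil))))))) (.cons 77 107 (.cons 138 30 (.leaf [(139,141),(111,117)]) (.cons 141 138 (.leaf [(30,104),(111,117)]) (.cons 30 138 (.leaf [(104,141),(111,117)]) (.cons 104 141 (.leaf [(30,138)]) (.cons 139 138 (.leaf [(30,104),(111,117)]) (.cons 111 141 (.leaf [(30,138)]) (.cons 117 141 (.leaf [(30,138)]) .nil))))))) (.cons 104 141 (.leaf [(30,138),(77,107)]) (.cons 139 138 (.leaf [(77,107),(30,104),(111,117)]) (.cons 111 141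 (.leaf [(30,138),(77,107)]) (.cons 117 141 (.leaf [(30,138),(77,107)]) .nil))))))))) (.cons 99 97 (.cons 138 30 (.leaf [(139,141),(77,101),(111,117)]) (.cons 141 138 (.leaf [(30,104),(111,117),(77,101)]) (.cons 30 138 (.leaf [(104,141),(77,101),(111,117)]) (.cons 101 138 (.leaf [(77,107),(30,104),(111,117)]) (.cons 104 141 (.leaf [(30,138),(77,101)]) (.cons 107 138 (.leaf [(77,101),(30,104),(111,117)]) (.cons 139 138 (.leaf [(30,104),(77,101),(111,117)]) (.cons 77 138 (.leaf [(101,107),(30,104),(111,117)]) (.cons 111 141 (.leaf [(30,138),(77,101)]) (.cons 117 141 (.leaf [(30,138),(77,101)]) .nil)))))))))) (.cons 104 30 (.cons 97 77 (.leaf [(99,101),(111,117),(138,139)]) (.cons 77 97 (.leaf [(101,107),(111,117),(138,139)]) (.cons 101 97 (.leaf [(77,107),(111,117),(138,139)]) (.cons 141 97 (.leaf [(111,117),(138,139),(77,101)]) (.cons 99 97 (.leaf [(77,101),(111,117),(138,139)]) (.cons 138 97 (.leaf [(139,141),(77,101),(111,117)]) (.cons 107 77 (.leaf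 [(97,99),(111,117),(138,139)]) (.cons 139 97 (.leaf [(138,141),(77,101),(111,117)]) (.cons 111 97 (.leaf [(117,141),(77,101),(138,139)]) (.cons 117 97 (.leaf [(111,141),(77,101),(138,139)]) .nil)))))))))) (.cons 107 77 (.cons 138 30 (.leaf [(139,141),(97,99),(111,117)]) (.cons 141 138 (.leaf [(30,104),(111,117),(97,99)]) (.cons 30 138 (.leaf [(104,141),(97,99),(111,117)]) (.cons 97 138 (.leaf [(99,101),(30,104),(111,117)]) (.cons 99 138 (.leaf [(97,101),(30,104),(111,117)]) (.cons 101 138 (.leaf [(97,99),(30,104),(111,117)]) (.cons 104 141 (.leaf [(30,138),(97,99)]) (.cons 139 138 (.leaf [(30,104),(97,99),(111,117)]) (.cons 111 141 (.leaf [(30,138),(97,99)]) (.cons 117 141 (.leaf [(30,138),(97,99)]) .nil)))))))))) (.cons 139 138 (.cons 97 77 (.leaf [(99,101),(30,104),(111,117)]) (.cons 77 97 (.leaf [(101,107),(30,104),(111,117)]) (.cons 101 97 (.leaf [(77,107),(30,104),(111,117)]) (.cons 141 97 (.leaf [(30,104),(111,117),(77,101)]) (.cons 99 97 (.leaf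 [(30,104),(77,101),(111,117)]) (.cons 104 97 (.leaf [(30,141),(77,101),(111,117)]) (.cons 107 77 (.leaf [(30,104),(97,99),(111,117)]) (.cons 111 97 (.leaf [(117,141),(30,104),(77,101)]) (.cons 117 97 (.leaf [(111,141),(30,104),(77,101)]) (.cons 30 97 (.leaf [(104,141),(77,101),(111,117)]) .nil)))))))))) (.cons 111 141 (.cons 97 77 (.leaf [(30,138),(99,101)]) (.cons 77 97 (.leaf [(30,138),(101,107)]) (.cons 101 97 (.leaf [(30,138),(77,107)]) (.cons 138 30 (.cons 97 77 (.leaf [(99,101)]) (.cons 77 97 (.leaf [(101,107)]) (.cons 101 97 (.leaf [(77,107)]) (.cons 99 97 (.leaf [(77,101)]) (.cons 107 77 (.leaf [(97,99)]) .nil))))) (.cons 30 138 (.cons 97 77 (.leaf [(99,101)]) (.cons 77 97 (.leaf [(101,107)]) (.cons 101 97 (.leaf [(77,107)]) (.cons 99 97 (.leaf [(77,101)]) (.cons 107 77 (.leaf [(97,99)]) .nil))))) (.cons 99 97 (.leaf [(30,138),(77,101)]) (.cons 107 77 (.leaf [(30,138),(97,99)]) .nil))))))) (.cons 117 141 (.cons 97 77 (.leaf [(30,138),(99,101)])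 (.cons 77 97 (.leaf [(30,138),(101,107)]) (.cons 101 97 (.leaf [(30,138),(77,107)]) (.cons 138 30 (.cons 97 77 (.leaf [(99,101)]) (.cons 77 97 (.leaf [(101,107)]) (.cons 101 97 (.leaf [(77,107)]) (.cons 99 97 (.leaf [(77,101)]) (.cons 107 77 (.leaf [(97,99)]) .nil))))) (.cons 30 138 (.cons 97 77 (.leaf [(99,101)]) (.cons 77 97 (.leaf [(101,107)]) (.cons 101 97 (.leaf [(77,107)]) (.cons 99 97 (.leaf [(77,101)]) (.cons 107 77 (.leaf [(97,99)]) .nil))))) (.cons 99 97 (.leaf [(30,138),(77,101)]) (.cons 107 77 (.leaf [(30,138),(97,99)]) .nil))))))) .nil)))))))))))) (.cons 105 99 (.cons 102 104 (.leaf [(30,138),(77,97),(101,107),(111,117),(139,141)]) (.cons 141 102 (.leaf [(30,104),(111,117),(138,139),(77,101)]) (.cons 104 102 (.leaf [(30,141),(77,101),(111,117),(138,139)]) (.cons 138 102 (.leaf [(139,141),(30,104),(77,101),(111,117)]) (.cons 107 102 (.leaf [(77,101),(30,104),(111,117),(138,139)]) (.cons 77 102 (.leaf [(101,107),(30,104),(111,117),(138,139)])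 (.cons 30 102 (.leaf [(104,141),(77,101),(111,117),(138,139)]) (.cons 97 102 (.leaf [(30,104),(77,101),(111,117),(138,139)]) (.cons 101 102 (.leaf [(77,107),(30,104),(111,117),(138,139)]) (.cons 139 141 (.leaf [(30,138),(102,104),(77,97),(101,107)]) (.cons 111 141 (.leaf [(30,138),(102,104),(77,97),(101,107)]) (.cons 117 141 (.leaf [(30,138),(102,104),(77,97),(101,107)]) .nil)))))))))))) (.cons 97 99 (.cons 102 77 (.cons 138 30 (.leaf [(139,141),(104,105),(111,117)]) (.cons 141 138 (.leaf [(30,104),(111,117),(105,107)]) (.cons 30 138 (.leaf [(104,141),(105,107),(111,117)]) (.cons 104 141 (.leaf [(30,138),(105,107)]) (.cons 105 104 (.leaf [(30,138),(111,117),(139,141)]) (.cons 107 104 (.leaf [(30,138),(111,117),(139,141)]) (.cons 139 138 (.leaf [(30,141),(104,105),(111,117)]) (.cons 111 141 (.leaf [(30,138),(104,105)]) (.cons 117 141 (.leaf [(30,138),(104,105)]) .nil))))))))) (.cons 141 102 (.leaf [(30,104),(111,117),(138,139),(77,101)]) (.cons 77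 102 (.leaf [(101,107),(30,104),(111,117),(138,139)]) (.cons 138 102 (.leaf [(139,141),(30,104),(77,101),(111,117)]) (.cons 30 102 (.leaf [(104,141),(77,101),(111,117),(138,139)]) (.cons 104 102 (.leaf [(30,141),(77,101),(111,117),(138,139)]) (.cons 107 102 (.leaf [(77,101),(30,104),(111,117),(138,139)]) (.cons 101 77 (.leaf [(30,102),(138,139),(104,141),(111,117),(105,107)]) (.cons 139 141 (.leaf [(77,102),(30,138),(101,107),(104,105)]) (.cons 111 141 (.leaf [(77,102),(30,138),(101,107),(104,105)]) (.cons 117 141 (.leaf [(77,102),(30,138),(101,107),(104,105)]) (.cons 105 102 (.leaf [(30,104),(77,101),(111,117),(138,139)]) .nil)))))))))))) (.cons 101 99 (.cons 141 30 (.leaf [(77,107),(111,117),(138,139),(97,102),(104,105)]) (.cons 77 107 (.cons 102 97 (.cons 138 30 (.leaf [(139,141),(111,117)]) (.cons 141 138 (.leaf [(30,104),(111,117)]) (.cons 30 138 (.leaf [(104,141),(111,117)]) (.cons 104 141 (.leaf [(30,138)]) (.cons 139 138 (.leaf [(30,104),(111,117)])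 (.cons 111 141 (.leaf [(30,138)]) (.cons 117 141 (.leaf [(30,138)]) .nil))))))) (.cons 141 102 (.leaf [(30,104),(111,117),(138,139)]) (.cons 97 102 (.leaf [(30,104),(111,117),(138,139)]) (.cons 138 102 (.leaf [(139,141),(30,104),(111,117)]) (.cons 30 102 (.leaf [(104,141),(111,117),(138,139)]) (.cons 104 141 (.leaf [(97,102),(30,138)]) (.cons 139 141 (.leaf [(97,102),(30,138)]) (.cons 111 141 (.leaf [(97,102),(30,138)]) (.cons 117 141 (.leaf [(97,102),(30,138)]) .nil))))))))) (.cons 102 77 (.cons 138 30 (.leaf [(139,141),(104,105),(111,117)]) (.cons 141 138 (.leaf [(30,104),(111,117),(105,107)]) (.cons 30 138 (.leaf [(104,141),(105,107),(111,117)]) (.cons 104 141 (.leaf [(30,138),(105,107)]) (.cons 105 104 (.leaf [(30,138),(111,117),(139,141)]) (.cons 107 104 (.leaf [(30,138),(111,117),(139,141)]) (.cons 139 138 (.leaf [(30,141),(104,105),(111,117)]) (.cons 111 141 (.leaf [(30,138),(104,105)]) (.cons 117 141 (.leaf [(30,138),(104,105)]) .nil)))))))))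 (.cons 107 77 (.cons 141 104 (.leaf [(111,117),(138,139),(30,102)]) (.cons 102 104 (.leaf [(30,138),(111,117),(139,141)]) (.cons 104 141 (.leaf [(102,105),(30,138)]) (.cons 138 141 (.leaf [(30,102),(104,105)]) (.cons 30 141 (.leaf [(102,138),(104,105)]) (.cons 105 102 (.leaf [(30,104),(111,117),(138,139)]) (.cons 139 141 (.leaf [(30,138),(102,104)]) (.cons 111 141 (.leaf [(30,138),(102,104)]) (.cons 117 141 (.leaf [(30,138),(102,104)]) .nil))))))))) (.cons 138 102 (.leaf [(77,107),(139,141),(30,104),(111,117)]) (.cons 30 102 (.leaf [(77,107),(104,141),(111,117),(138,139)]) (.cons 104 102 (.leaf [(30,141),(77,107),(111,117),(138,139)]) (.cons 97 77 (.leaf [(30,102),(138,139),(104,141),(111,117),(105,107)]) (.cons 139 141 (.leaf [(77,107),(30,138),(97,102),(104,105)]) (.cons 111 141 (.leaf [(77,107),(30,138),(97,102),(104,105)]) (.cons 117 141 (.leaf [(77,107),(30,138),(97,102),(104,105)]) (.cons 105 102 (.leaf [(77,107),(30,104),(111,117),(138,139)])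 .nil)))))))))))) (.cons 138 102 (.leaf [(99,105),(139,141),(30,104),(77,107),(97,101),(111,117)]) (.cons 77 97 (.cons 141 30 (.leaf [(99,105),(101,107),(111,117),(138,139),(102,104)]) (.cons 105 99 (.cons 107 101 (.cons 102 104 (.leaf [(30,138),(111,117),(139,141)]) (.cons 104 102 (.leaf [(30,141),(111,117),(138,139)]) (.cons 141 104 (.leaf [(111,117),(138,139),(30,102)]) (.cons 138 102 (.leaf [(139,141),(30,104),(111,117)]) (.cons 30 102 (.leaf [(104,141),(111,117),(138,139)]) (.cons 139 141 (.leaf [(102,104),(30,138)]) (.cons 111 141 (.leaf [(102,104),(30,138)]) (.cons 117 141 (.leaf [(102,104),(30,138)]) .nil)))))))) (.cons 141 104 (.leaf [(101,107),(111,117),(138,139),(30,102)]) (.cons 101 107 (.leaf [(30,102),(138,139),(104,141),(111,117)]) (.cons 102 104 (.leaf [(30,138),(101,107),(111,117),(139,141)]) (.cons 104 102 (.leaf [(30,141),(101,107),(111,117),(138,139)]) (.cons 138 102 (.leaf [(101,107),(139,141),(30,104),(111,117)]) (.cons 30 102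 (.leaf [(101,107),(104,141),(111,117),(138,139)]) (.cons 139 141 (.leaf [(101,107),(30,138),(102,104)]) (.cons 111 141 (.leaf [(101,107),(30,138),(102,104)]) (.cons 117 141 (.leaf [(101,107),(30,138),(102,104)]) .nil)))))))))) (.cons 107 101 (.cons 105 99 (.cons 102 104 (.leaf [(30,138),(111,117),(139,141)]) (.cons 104 102 (.leaf [(30,141),(111,117),(138,139)]) (.cons 141 104 (.leaf [(111,117),(138,139),(30,102)]) (.cons 138 102 (.leaf [(139,141),(30,104),(111,117)]) (.cons 30 102 (.leaf [(104,141),(111,117),(138,139)]) (.cons 139 141 (.leaf [(102,104),(30,138)]) (.cons 111 141 (.leaf [(102,104),(30,138)]) (.cons 117 141 (.leaf [(102,104),(30,138)]) .nil)))))))) (.cons 141 104 (.leaf [(99,105),(111,117),(138,139),(30,102)]) (.cons 99 105 (.leaf [(30,102),(138,139),(104,141),(111,117)]) (.cons 102 104 (.leaf [(30,138),(99,105),(111,117),(139,141)]) (.cons 104 102 (.leaf [(30,141),(99,105),(111,117),(138,139)]) (.cons 138 102 (.leaf [(99,105),(139,141),(30,104),(111,117)])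 (.cons 30 102 (.leaf [(99,105),(104,141),(111,117),(138,139)]) (.cons 139 141 (.leaf [(99,105),(30,138),(102,104)]) (.cons 111 141 (.leaf [(99,105),(30,138),(102,104)]) (.cons 117 141 (.leaf [(99,105),(30,138),(102,104)]) .nil)))))))))) (.cons 99 105 (.leaf [(101,107),(30,102),(138,139),(104,141),(111,117)]) (.cons 101 107 (.leaf [(99,105),(30,102),(138,139),(104,141),(111,117)]) (.cons 138 30 (.leaf [(99,105),(101,107),(139,141),(111,117),(102,104)]) (.cons 30 102 (.leaf [(99,105),(101,107),(104,141),(111,117),(138,139)]) (.cons 102 104 (.leaf [(30,138),(99,105),(101,107),(111,117),(139,141)]) (.cons 104 102 (.leaf [(30,141),(99,105),(101,107),(111,117),(138,139)]) (.cons 139 141 (.leaf [(99,105),(101,107),(30,138),(102,104)]) (.cons 111 141 (.leaf [(99,105),(101,107),(30,138),(102,104)]) (.cons 117 141 (.leaf [(99,105),(101,107),(30,138),(102,104)]) .nil)))))))))))) (.cons 30 102 (.leaf [(99,105),(104,141),(77,107),(97,101),(111,117),(138,139)])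 (.cons 104 102 (.leaf [(30,141),(99,105),(77,107),(97,101),(111,117),(138,139)]) (.cons 107 77 (.cons 99 105 (.leaf [(97,101),(30,102),(138,139),(104,141),(111,117)]) (.cons 105 99 (.cons 102 104 (.leaf [(30,138),(111,117),(139,141)]) (.cons 104 102 (.leaf [(30,141),(111,117),(138,139)]) (.cons 141 104 (.leaf [(111,117),(138,139),(30,102)]) (.cons 138 102 (.leaf [(139,141),(30,104),(111,117)]) (.cons 30 102 (.leaf [(104,141),(111,117),(138,139)]) (.cons 139 141 (.leaf [(102,104),(30,138)]) (.cons 111 141 (.leaf [(102,104),(30,138)]) (.cons 117 141 (.leaf [(102,104),(30,138)]) .nil)))))))) (.cons 141 104 (.leaf [(99,105),(111,117),(138,139),(30,102),(97,101)]) (.cons 102 104 (.leaf [(30,138),(99,105),(97,101),(111,117),(139,141)]) (.cons 104 102 (.leaf [(30,141),(99,105),(97,101),(111,117),(138,139)]) (.cons 138 102 (.leaf [(99,105),(139,141),(30,104),(97,101),(111,117)]) (.cons 30 102 (.leaf [(99,105),(104,141),(97,101),(111,117),(138,139)]) (.cons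 97 105 (.leaf [(99,101),(30,102),(138,139),(104,141),(111,117)]) (.cons 101 105 (.leaf [(97,99),(30,102),(138,139),(104,141),(111,117)]) (.cons 139 141 (.leaf [(99,105),(30,138),(102,104),(97,101)]) (.cons 111 141 (.leaf [(99,105),(30,138),(102,104),(97,101)]) (.cons 117 141 (.leaf [(99,105),(30,138),(102,104),(97,101)]) .nil)))))))))))) (.cons 139 102 (.leaf [(99,105),(138,141),(30,104),(77,107),(97,101),(111,117)]) (.cons 111 102 (.leaf [(99,105),(117,141),(30,104),(77,107),(97,101),(138,139)]) (.cons 117 102 (.leaf [(99,105),(111,141),(30,104),(77,107),(97,101),(138,139)]) .nil))))))))))))))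

/-- The masks of block 14. -/
def m14 : List ℕ := [0x40000000040000000000000000040000000, 0x200000000100000000000000000040000000, 0x208000000000000000000000000, 0x42000020000000000000000000, 0x820000020000000000000000000, 0x2a000000000000000000000000, 0xb40000000000000000000000000, 0x200000208000000000000000000000000000, 0x2c0000000000000000000000000000000000]

/-- The strategy tree of block 15. -/
def t15 : Tr := (.cons 33 3 (.cons 153 183 (.cons 159 51 (.leaf [(9,45),(147,177),(69,213)]) (.cons 45 9 (.cons 51 159 (.leaf [(39,69),(177,213)]) (.cons 159 51 (.leaf [(147,177),(69,213)]) (.cons 69 51 (.leaf [(177,213),(147,159)]) (.cons 177 159 (.leaf [(69,213),(39,51)]) (.cons 39 51 (.leaf [(69,177),(147,159)]) (.cons 147 159 (.leaf [(39,51),(69,177)]) (.cons 213 177 (.leaf [(51,159),(39,69)]) .nil))))))) (.cons 51 159 (.leaf [(9,45),(39,69),(177,213)]) (.cons 9 45 (.leaf [(51,159),(69,213),(147,177)]) (.cons 177 159 (.leaf [(9,45),(69,213),(39,51)])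 (.cons 69 51 (.leaf [(9,45),(177,213),(147,159)]) (.cons 147 159 (.leaf [(9,45),(69,177),(39,51)]) (.cons 213 177 (.leaf [(9,45),(51,159),(39,69)]) (.cons 39 45 (.leaf [(51,159),(69,213),(147,177)]) .nil))))))))) (.cons 183 153 (.leaf [(51,159),(201,213),(69,177),(39,45)]) (.cons 51 159 (.cons 183 153 (.leaf [(201,213),(39,45),(69,177)]) (.cons 153 183 (.leaf [(9,45),(39,69),(177,213)]) (.cons 69 183 (.leaf [(39,45),(177,213),(9,153)]) (.cons 45 153 (.leaf [(39,69),(177,213),(183,201)]) (.cons 213 183 (.leaf [(69,177),(9,153),(39,45)]) (.cons 39 69 (.leaf [(153,183),(9,45),(201,213)]) (.cons 9 153 (.leaf [(39,45),(69,177),(183,201)]) (.cons 201 183 (.leaf [(9,153),(39,45),(69,177)]) (.cons 177 69 (.leaf [(153,183),(9,45),(201,213)]) .nil))))))))) (.cons 159 51 (.cons 153 183 (.leaf [(9,45),(147,177),(69,213)]) (.cons 183 153 (.leaf [(201,213),(69,177)]) (.cons 177 153 (.leaf [(69,213),(183,201)]) (.cons 213 183 (.leaf [(69,177),(9,45),(147,153)])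 (.cons 69 153 (.leaf [(177,213),(183,201)]) (.cons 9 153 (.leaf [(69,177),(183,201)]) (.cons 201 183 (.leaf [(9,45),(69,177),(147,153)]) (.cons 45 153 (.leaf [(69,177),(183,201)]) (.cons 147 153 (.leaf [(69,177),(183,201)]) .nil))))))))) (.cons 213 153 (.leaf [(51,159),(69,177),(183,201),(39,45)]) (.cons 69 153 (.leaf [(51,159),(177,213),(39,45),(183,201)]) (.cons 45 153 (.leaf [(51,159),(39,69),(177,213),(183,201)]) (.cons 177 153 (.leaf [(51,159),(69,213),(183,201),(39,45)]) (.cons 9 153 (.leaf [(51,159),(69,177),(183,201),(39,45)]) (.cons 201 183 (.leaf [(51,159),(9,45),(39,69),(177,213),(147,153)]) (.cons 39 153 (.leaf [(51,159),(45,69),(177,213),(183,201)]) (.cons 147 153 (.leaf [(51,159),(69,177),(183,201),(39,45)]) .nil)))))))))))) (.cons 3 33 (.cons 45 213 (.cons 51 159 (.leaf [(9,153),(39,69),(147,183)]) (.cons 153 9 (.cons 51 159 (.leaf [(39,69),(147,183)]) (.cons 159 51 (.leaf [(147,177),(39,183)]) (.cons 39 51 (.leaf [(147,183),(159,177)])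 (.cons 147 159 (.leaf [(39,183),(51,69)]) (.cons 69 51 (.leaf [(39,183),(147,159)]) (.cons 177 159 (.leaf [(39,147),(51,69)]) (.cons 183 51 (.leaf [(39,147),(159,177)]) .nil))))))) (.cons 159 51 (.leaf [(9,153),(39,183),(147,177)]) (.cons 39 51 (.leaf [(9,153),(147,183),(159,177)]) (.cons 9 153 (.leaf [(51,159),(39,69),(147,183)]) (.cons 147 51 (.leaf [(9,153),(39,183),(159,177)]) (.cons 69 51 (.leaf [(9,153),(39,183),(147,159)]) (.cons 183 39 (.leaf [(9,153),(51,159),(147,177)]) (.cons 177 51 (.leaf [(9,153),(39,183),(147,159)]) .nil))))))))) (.cons 213 45 (.leaf [(51,159),(183,201),(39,147),(153,177)]) (.cons 51 159 (.cons 45 213 (.leaf [(9,153),(39,69),(147,183)]) (.cons 213 45 (.leaf [(183,201),(39,147)]) (.cons 39 45 (.leaf [(147,183),(201,213)]) (.cons 183 45 (.leaf [(39,147),(201,213)]) (.cons 69 45 (.leaf [(39,147),(183,201)]) (.cons 9 45 (.leaf [(39,147),(183,201)]) (.cons 201 45 (.leaf [(183,213),(39,147)]) (.cons 147 45 (.leaf [(39,183),(201,213)])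 (.cons 153 45 (.leaf [(39,147),(183,201)]) .nil))))))))) (.cons 159 51 (.cons 45 213 (.leaf [(9,153),(39,183),(147,177)]) (.cons 213 45 (.leaf [(183,201),(39,147),(153,177)]) (.cons 147 45 (.leaf [(39,183),(153,177),(201,213)]) (.cons 183 213 (.leaf [(39,147),(9,45),(153,177)]) (.cons 153 45 (.leaf [(147,177),(39,183),(201,213)]) (.cons 39 45 (.leaf [(147,183),(153,177),(201,213)]) (.cons 9 45 (.leaf [(39,147),(183,201),(153,177)]) (.cons 201 213 (.leaf [(9,45),(39,183),(147,153)]) (.cons 177 45 (.leaf [(147,153),(39,183),(201,213)]) .nil))))))))) (.cons 183 45 (.leaf [(39,147),(51,159),(201,213),(153,177)]) (.cons 39 45 (.leaf [(51,159),(147,183),(201,213),(153,177)]) (.cons 147 45 (.leaf [(39,183),(51,159),(153,177),(201,213)]) (.cons 153 45 (.leaf [(51,159),(39,183),(147,177),(201,213)]) (.cons 9 45 (.leaf [(51,159),(39,183),(147,153),(201,213)]) (.cons 201 213 (.leaf [(51,159),(9,153),(45,69),(39,183),(147,177)]) (.cons 69 45 (.leaf [(51,159),(39,183),(147,153),(201,213)])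 (.cons 177 45 (.leaf [(51,159),(39,183),(147,153),(201,213)]) .nil)))))))))))) (.cons 45 153 (.cons 3 213 (.leaf [(9,33),(51,159),(39,69),(147,183)]) (.cons 213 3 (.leaf [(51,159),(183,201),(33,177),(39,69)]) (.cons 51 159 (.cons 3 213 (.leaf [(9,33),(39,69),(147,183)]) (.cons 213 3 (.leaf [(39,69),(183,201),(33,177)]) (.cons 69 39 (.cons 213 3 (.leaf [(33,177),(183,201)]) (.cons 3 213 (.leaf [(9,33)]) (.cons 33 213 (.leaf [(3,9)]) (.cons 177 213 (.leaf [(3,9)]) (.cons 201 213 (.leaf [(3,9)]) (.cons 183 213 (.leaf [(3,9)]) (.cons 9 3 (.leaf [(33,177),(183,201)]) .nil))))))) (.cons 39 69 (.cons 3 213 (.leaf [(9,33),(147,183)]) (.cons 213 3 (.leaf [(183,201)]) (.cons 183 3 (.leaf [(201,213)]) (.cons 33 3 (.leaf [(183,201)]) (.cons 9 3 (.leaf [(183,201)]) (.cons 201 3 (.leaf [(183,213)]) (.cons 147 3 (.leaf [(183,201)]) .nil))))))) (.cons 33 3 (.leaf [(39,69),(177,213),(183,201)]) (.cons 183 213 (.leaf [(39,69),(3,147),(9,33)]) (.cons 9 3 (.leaf [(39,69),(183,201),(33,177)])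 (.cons 201 213 (.leaf [(39,69),(3,147),(9,33)]) (.cons 177 213 (.leaf [(39,69),(3,147),(9,33)]) (.cons 147 3 (.leaf [(39,69),(183,201),(33,177)]) .nil)))))))))) (.cons 159 51 (.leaf [(3,213),(9,33),(183,201),(39,147),(69,177)]) (.cons 33 3 (.leaf [(51,159),(39,69),(177,213),(183,201)]) (.cons 69 51 (.cons 213 3 (.leaf [(33,177),(183,201)]) (.cons 3 213 (.leaf [(9,33),(39,147)]) (.cons 33 213 (.leaf [(3,9),(39,147)]) (.cons 183 213 (.leaf [(3,39),(9,33)]) (.cons 201 213 (.leaf [(3,39),(9,33)]) (.cons 9 3 (.leaf [(33,177),(183,201)]) (.cons 177 213 (.leaf [(3,39),(9,33)]) (.cons 39 3 (.leaf [(33,177),(183,201)]) (.cons 147 3 (.leaf [(33,177),(183,201)]) .nil))))))))) (.cons 39 51 (.cons 3 213 (.leaf [(9,33),(147,183)]) (.cons 213 3 (.leaf [(183,201),(33,69)]) (.cons 183 3 (.leaf [(201,213),(33,69)]) (.cons 33 3 (.leaf [(69,177),(183,201)]) (.cons 9 3 (.leaf [(183,201),(33,69)]) (.cons 201 213 (.leaf [(3,147),(9,33)]) (.cons 147 3 (.leaf [(183,201),(33,69)])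 (.cons 69 3 (.leaf [(33,177),(183,201)]) (.cons 177 3 (.leaf [(33,69),(183,201)]) .nil))))))))) (.cons 183 213 (.leaf [(51,159),(3,147),(9,33),(39,69)]) (.cons 9 3 (.leaf [(51,159),(39,69),(183,201),(33,177)]) (.cons 201 213 (.leaf [(51,159),(3,147),(9,33),(39,69)]) (.cons 177 213 (.leaf [(51,159),(3,147),(9,33),(39,69)]) (.cons 147 3 (.leaf [(51,159),(39,69),(183,201),(33,177)]) .nil)))))))))))) (.cons 51 159 (.cons 45 213 (.cons 9 153 (.leaf [(3,33),(39,69),(147,183)]) (.cons 153 9 (.leaf [(33,183),(39,69),(3,147)]) (.cons 39 69 (.cons 9 153 (.leaf [(3,33),(147,183)]) (.cons 153 9 (.leaf [(33,183),(3,147)]) (.cons 33 153 (.leaf [(3,9),(147,183)]) (.cons 3 9 (.leaf [(147,183),(33,153)]) (.cons 183 153 (.leaf [(3,147),(9,33)]) (.cons 147 153 (.leaf [(3,183),(9,33)]) .nil)))))) (.cons 33 9 (.leaf [(39,69),(153,183),(3,147)]) (.cons 69 39 (.cons 153 9 (.leaf [(33,183)]) (.cons 9 153 (.leaf [(3,33)]) (.cons 33 153 (.leaf [(3,9)]) (.cons 3 9 (.leaf [(33,153)])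 (.cons 183 153 (.leaf [(3,9)]) .nil))))) (.cons 3 9 (.leaf [(39,69),(33,153),(147,183)]) (.cons 183 153 (.leaf [(39,69),(3,147),(9,33)]) (.cons 147 9 (.leaf [(39,69),(3,183),(33,153)]) .nil)))))))) (.cons 33 45 (.leaf [(3,9),(153,183),(69,177),(201,213),(39,147)]) (.cons 3 45 (.leaf [(9,33),(153,183),(39,147),(201,213),(69,177)]) (.cons 213 45 (.leaf [(183,201),(3,9),(33,153),(69,177),(39,147)]) (.cons 183 45 (.leaf [(33,153),(201,213),(3,9),(39,147),(69,177)]) (.cons 9 45 (.leaf [(3,33),(153,183),(201,213),(39,147),(69,177)]) (.cons 153 45 (.leaf [(33,183),(3,9),(201,213),(39,147),(69,177)]) (.cons 69 45 (.leaf [(3,9),(33,153),(183,201),(177,213),(39,147)]) (.cons 39 45 (.leaf [(3,9),(33,153),(147,183),(201,213),(69,177)]) (.cons 201 45 (.leaf [(183,213),(3,9),(33,153),(39,147),(69,177)]) (.cons 177 33 (.leaf [(3,147),(45,213),(9,153),(39,69),(183,201)]) (.cons 147 3 (.leaf [(9,45),(33,177),(153,183),(39,69),(201,213)]) .nil)))))))))))) (.cons 213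 183 (.cons 45 3 (.cons 51 159 (.leaf [(9,153),(39,69),(33,177)]) (.cons 153 9 (.cons 51 159 (.leaf [(39,69),(33,177)]) (.cons 159 51 (.leaf [(147,177),(33,69)]) (.cons 69 51 (.leaf [(33,177),(147,159)]) (.cons 177 159 (.leaf [(33,69),(39,51)]) (.cons 33 177 (.leaf [(51,159),(39,69)]) (.cons 39 51 (.leaf [(33,69),(147,159)]) (.cons 147 159 (.leaf [(33,69),(39,51)]) .nil))))))) (.cons 159 51 (.leaf [(9,153),(33,69),(147,177)]) (.cons 69 51 (.leaf [(9,153),(33,177),(147,159)]) (.cons 9 153 (.leaf [(51,159),(33,177),(39,69)]) (.cons 177 51 (.leaf [(9,153),(33,69),(147,159)]) (.cons 33 69 (.leaf [(9,153),(51,159),(147,177)]) (.cons 39 51 (.leaf [(9,153),(33,69),(147,159)]) (.cons 147 51 (.leaf [(9,153),(33,69),(159,177)]) .nil))))))))) (.cons 3 45 (.leaf [(9,33),(51,159),(69,177),(147,153)]) (.cons 51 159 (.cons 45 3 (.leaf [(9,153),(39,69),(33,177)]) (.cons 3 45 (.leaf [(9,33),(69,177)]) (.cons 33 3 (.leaf [(69,177),(9,153),(39,45)]) (.cons 69 45 (.leaf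 [(33,177),(3,9)]) (.cons 9 45 (.leaf [(3,33),(69,177)]) (.cons 39 45 (.leaf [(3,9),(33,69)]) (.cons 177 45 (.leaf [(33,69),(3,9)]) (.cons 153 45 (.leaf [(3,9),(33,69)]) .nil)))))))) (.cons 159 51 (.cons 3 45 (.leaf [(9,33),(69,177),(147,153)]) (.cons 45 3 (.leaf [(9,153),(33,69),(147,177)]) (.cons 33 3 (.leaf [(69,177),(9,45),(147,153)]) (.cons 9 3 (.leaf [(45,153),(33,69),(147,177)]) (.cons 177 3 (.leaf [(33,69),(147,153),(9,45)]) (.cons 153 45 (.leaf [(147,177),(3,9),(33,69)]) (.cons 69 33 (.leaf [(3,45),(9,153),(147,177)]) (.cons 147 3 (.leaf [(153,177),(9,45),(33,69)]) .nil)))))))) (.cons 33 45 (.leaf [(3,9),(51,159),(69,177),(147,153)]) (.cons 9 45 (.leaf [(3,33),(51,159),(69,177),(147,153)]) (.cons 69 45 (.leaf [(33,177),(51,159),(3,9),(147,153)]) (.cons 177 45 (.leaf [(33,69),(51,159),(3,9),(147,153)]) (.cons 153 45 (.leaf [(51,159),(3,9),(33,69),(147,177)]) (.cons 39 45 (.leaf [(51,159),(3,9),(33,69),(147,153)]) (.cons 147 45 (.leaf [(51,159),(3,9),(33,69),(153,177)])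 .nil))))))))))) (.cons 183 213 (.cons 153 33 (.cons 159 51 (.leaf [(9,45),(147,177),(3,39)]) (.cons 45 9 (.cons 51 159 (.leaf [(39,69),(3,147)]) (.cons 159 51 (.leaf [(147,177),(3,39)]) (.cons 39 51 (.leaf [(3,147),(159,177)]) (.cons 147 159 (.leaf [(3,39),(51,69)]) (.cons 3 51 (.leaf [(39,147),(159,177)]) (.cons 69 51 (.leaf [(3,39),(147,159)]) (.cons 177 159 (.leaf [(3,147),(39,51)]) .nil))))))) (.cons 51 159 (.leaf [(9,45),(3,147),(39,69)]) (.cons 9 45 (.leaf [(51,159),(3,39),(147,177)]) (.cons 147 159 (.leaf [(3,39),(9,45),(51,69)]) (.cons 39 51 (.leaf [(3,147),(9,45),(159,177)]) (.cons 3 147 (.leaf [(9,45),(51,159),(39,69)]) (.cons 177 159 (.leaf [(9,45),(3,147),(39,51)]) (.cons 69 45 (.leaf [(51,159),(3,39),(147,177)]) .nil))))))))) (.cons 33 153 (.leaf [(3,9),(51,159),(39,147),(45,69)]) (.cons 51 159 (.cons 33 153 (.leaf [(3,9),(39,147),(45,69)]) (.cons 153 33 (.leaf [(9,45),(3,147),(39,69)]) (.cons 3 33 (.leaf [(39,147),(9,153),(45,69)])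 (.cons 39 33 (.leaf [(3,147),(45,69),(9,153)]) (.cons 9 33 (.leaf [(45,153),(3,147),(39,69)]) (.cons 45 153 (.leaf [(39,69),(3,147),(9,33)]) (.cons 69 33 (.leaf [(39,45),(3,147),(9,153)]) (.cons 147 33 (.leaf [(3,39),(9,153),(45,69)]) .nil)))))))) (.cons 159 51 (.cons 153 33 (.leaf [(9,45),(147,177),(3,39)]) (.cons 33 153 (.leaf [(3,9),(39,147)]) (.cons 3 33 (.leaf [(39,147),(9,45),(153,177)]) (.cons 9 153 (.leaf [(3,33),(39,147)]) (.cons 147 153 (.leaf [(3,39),(9,33)]) (.cons 39 153 (.leaf [(3,147),(9,33)]) (.cons 45 153 (.leaf [(3,39),(9,33)]) (.cons 177 153 (.leaf [(3,39),(9,33)]) .nil)))))))) (.cons 3 153 (.leaf [(9,33),(39,147),(51,159),(45,69)]) (.cons 9 153 (.leaf [(3,33),(51,159),(39,147),(45,69)]) (.cons 39 153 (.leaf [(3,147),(51,159),(9,33),(45,69)]) (.cons 45 153 (.leaf [(51,159),(3,147),(9,33),(39,69)]) (.cons 147 153 (.leaf [(3,39),(51,159),(9,33),(45,69)]) (.cons 69 153 (.leaf [(51,159),(3,147),(9,33),(39,45)]) (.cons 177 153 (.leaf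 [(51,159),(3,147),(9,33),(39,45)]) .nil))))))))))) (.cons 153 45 (.cons 33 183 (.leaf [(3,9),(51,159),(69,213),(147,177)]) (.cons 183 33 (.leaf [(51,159),(201,213),(3,39),(147,177)]) (.cons 159 51 (.cons 33 183 (.leaf [(3,9),(147,177),(69,213)]) (.cons 183 33 (.leaf [(147,177),(201,213),(3,39)]) (.cons 177 147 (.cons 33 183 (.leaf [(3,9),(69,213)]) (.cons 183 33 (.leaf [(201,213)]) (.cons 213 33 (.leaf [(183,201)]) (.cons 3 33 (.leaf [(183,201)]) (.cons 69 33 (.leaf [(183,201)]) (.cons 9 33 (.leaf [(183,201)]) (.cons 201 33 (.leaf [(183,213)]) .nil))))))) (.cons 147 177 (.cons 183 33 (.leaf [(3,39),(201,213)]) (.cons 33 183 (.leaf [(3,9)]) (.cons 3 183 (.leaf [(9,33)]) (.cons 201 183 (.leaf [(3,9)]) (.cons 39 183 (.leaf [(3,9)]) (.cons 213 183 (.leaf [(3,9)]) (.cons 9 33 (.leaf [(3,39),(183,201)]) .nil))))))) (.cons 3 33 (.leaf [(147,177),(39,183),(201,213)]) (.cons 213 183 (.leaf [(147,177),(3,9),(33,69)]) (.cons 9 33 (.leaf [(147,177),(183,201),(3,39)])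 (.cons 201 183 (.leaf [(147,177),(3,9),(33,69)]) (.cons 69 33 (.leaf [(147,177),(183,201),(3,39)]) (.cons 39 183 (.leaf [(147,177),(3,9),(33,69)]) .nil)))))))))) (.cons 51 159 (.leaf [(33,183),(3,9),(201,213),(39,147),(69,177)]) (.cons 3 33 (.leaf [(51,159),(39,183),(147,177),(201,213)]) (.cons 177 159 (.cons 33 183 (.leaf [(3,9),(69,213)]) (.cons 183 33 (.leaf [(201,213),(3,39)]) (.cons 213 33 (.leaf [(183,201),(3,39)]) (.cons 3 33 (.leaf [(39,147),(183,201)]) (.cons 69 33 (.leaf [(183,201),(3,39)]) (.cons 9 33 (.leaf [(183,201),(3,39)]) (.cons 201 183 (.leaf [(3,9),(33,69)]) (.cons 39 33 (.leaf [(3,147),(183,201)]) (.cons 147 33 (.leaf [(3,39),(183,201)]) .nil))))))))) (.cons 147 159 (.cons 183 33 (.leaf [(3,39),(201,213)]) (.cons 33 183 (.leaf [(3,9),(69,177)]) (.cons 3 183 (.leaf [(9,33),(69,177)]) (.cons 213 183 (.leaf [(3,9),(33,69)]) (.cons 39 183 (.leaf [(3,9),(33,69)]) (.cons 201 183 (.leaf [(3,9),(33,69)]) (.cons 9 33 (.leaf [(3,39),(183,201)])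 (.cons 69 33 (.leaf [(3,39),(183,201)]) (.cons 177 33 (.leaf [(3,39),(183,201)]) .nil))))))))) (.cons 213 183 (.leaf [(51,159),(3,9),(33,69),(147,177)]) (.cons 9 33 (.leaf [(51,159),(147,177),(183,201),(3,39)]) (.cons 201 183 (.leaf [(51,159),(3,9),(147,177),(33,69)]) (.cons 69 33 (.leaf [(51,159),(147,177),(183,201),(3,39)]) (.cons 39 183 (.leaf [(51,159),(3,9),(147,177),(33,69)]) .nil)))))))))))) (.cons 159 51 (.cons 153 183 (.cons 9 45 (.leaf [(3,33),(147,177),(69,213)]) (.cons 45 9 (.leaf [(3,213),(147,177),(33,69)]) (.cons 177 147 (.cons 9 45 (.leaf [(3,33),(69,213)]) (.cons 45 9 (.leaf [(3,213),(33,69)]) (.cons 33 9 (.leaf [(69,213),(3,45)]) (.cons 3 9 (.leaf [(45,213),(33,69)]) (.cons 213 45 (.leaf [(33,69),(3,9)]) (.cons 69 33 (.leaf [(9,45),(3,213)]) .nil)))))) (.cons 3 9 (.leaf [(45,213),(147,177),(33,69)]) (.cons 147 177 (.cons 9 45 (.leaf [(3,33)]) (.cons 45 9 (.leaf [(3,213)]) (.cons 3 9 (.leaf [(45,213)]) (.cons 33 9 (.leaf [(3,45)])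 (.cons 213 45 (.leaf [(3,9)]) .nil))))) (.cons 33 9 (.leaf [(147,177),(3,45),(69,213)]) (.cons 213 45 (.leaf [(147,177),(3,9),(33,69)]) (.cons 69 9 (.leaf [(147,177),(3,45),(33,213)]) .nil)))))))) (.cons 33 153 (.leaf [(3,9),(45,213),(69,177),(183,201),(39,147)]) (.cons 3 153 (.leaf [(9,33),(45,213),(39,147),(183,201),(69,177)]) (.cons 213 153 (.leaf [(3,45),(183,201),(9,33),(69,177),(39,147)]) (.cons 183 153 (.leaf [(201,213),(3,45),(9,33),(39,147),(69,177)]) (.cons 9 153 (.leaf [(3,33),(45,213),(183,201),(39,147),(69,177)]) (.cons 45 153 (.leaf [(3,213),(9,33),(183,201),(39,147),(69,177)]) (.cons 177 153 (.leaf [(3,9),(33,69),(45,213),(183,201),(39,147)]) (.cons 147 153 (.leaf [(3,39),(9,33),(183,201),(45,213),(69,177)]) (.cons 201 153 (.leaf [(183,213),(3,45),(9,33),(39,147),(69,177)]) (.cons 69 33 (.leaf [(3,39),(45,213),(9,153),(147,177),(183,201)]) (.cons 39 3 (.leaf [(9,45),(33,69),(153,183),(147,177),(201,213)]) .nil)))))))))))) (.cons 9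 45 (.cons 33 3 (.cons 183 153 (.leaf [(51,159),(201,213),(69,177)]) (.cons 153 183 (.leaf [(51,159),(69,213),(147,177)]) (.cons 159 51 (.cons 183 153 (.leaf [(201,213),(69,177)]) (.cons 153 183 (.leaf [(147,177),(69,213)]) (.cons 177 153 (.leaf [(69,213),(183,201)]) (.cons 213 183 (.leaf [(69,177),(147,153)]) (.cons 69 177 (.leaf [(153,183),(201,213)]) (.cons 201 183 (.leaf [(69,177),(147,153)]) (.cons 147 153 (.leaf [(69,177),(183,201)]) .nil))))))) (.cons 51 159 (.leaf [(153,183),(69,177),(201,213)]) (.cons 213 183 (.leaf [(51,159),(69,177),(147,153)]) (.cons 177 183 (.leaf [(51,159),(69,213),(147,153)]) (.cons 69 213 (.leaf [(51,159),(153,183),(147,177)]) (.cons 201 183 (.leaf [(51,159),(69,177),(147,153)]) (.cons 147 183 (.leaf [(51,159),(69,213),(153,177)]) .nil))))))))) (.cons 3 33 (.leaf [(51,159),(39,183),(147,153),(201,213)]) (.cons 183 33 (.leaf [(51,159),(201,213),(3,39),(147,153)]) (.cons 159 51 (.cons 33 3 (.cons 183 153 (.leaf [(201,213),(69,177)])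 (.cons 153 183 (.leaf [(147,177),(69,213)]) (.cons 177 153 (.leaf [(69,213),(183,201)]) (.cons 213 183 (.leaf [(69,177),(147,153)]) (.cons 69 177 (.leaf [(153,183),(201,213)]) (.cons 201 183 (.leaf [(69,177),(147,153)]) (.cons 147 153 (.leaf [(69,177),(183,201)]) .nil))))))) (.cons 3 33 (.leaf [(39,147),(183,201),(153,177)]) (.cons 183 33 (.leaf [(201,213),(3,39),(147,153)]) (.cons 153 33 (.leaf [(147,177),(183,201),(3,39)]) (.cons 177 33 (.leaf [(147,153),(183,201),(3,39)]) (.cons 147 33 (.leaf [(153,177),(3,39),(183,201)]) (.cons 213 33 (.leaf [(183,201),(147,153),(3,39)]) (.cons 201 33 (.leaf [(183,213),(147,153),(3,39)]) (.cons 69 33 (.leaf [(147,153),(183,201),(3,39)]) (.cons 39 33 (.leaf [(3,147),(183,201),(153,177)]) .nil)))))))))) (.cons 51 159 (.leaf [(3,33),(153,183),(201,213),(39,147),(69,177)]) (.cons 213 33 (.leaf [(51,159),(183,201),(3,39),(147,153)]) (.cons 153 33 (.leaf [(51,159),(147,177),(183,201),(3,39)]) (.cons 201 33 (.leaf [(51,159),(183,213),(3,39),(147,153)])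 (.cons 177 33 (.leaf [(51,159),(147,153),(183,201),(3,39)]) (.cons 147 33 (.leaf [(51,159),(3,39),(153,177),(183,201)]) (.cons 69 33 (.leaf [(51,159),(183,201),(3,39),(147,153)]) (.cons 39 33 (.leaf [(51,159),(3,183),(147,153),(201,213)]) .nil)))))))))))) (.cons 69 33 (.cons 45 51 (.leaf [(3,213),(9,153),(183,201),(39,147),(159,177)]) (.cons 51 159 (.cons 45 39 (.leaf [(3,213),(9,153),(183,201)]) (.cons 39 45 (.leaf [(3,147),(183,201)]) (.cons 213 45 (.leaf [(183,201),(3,39)]) (.cons 3 45 (.leaf [(39,147),(183,201)]) (.cons 183 45 (.leaf [(201,213),(3,39)]) (.cons 9 45 (.leaf [(183,201),(3,39)]) (.cons 201 45 (.leaf [(183,213),(3,39)]) (.cons 153 45 (.leaf [(183,201),(3,39)]) (.cons 147 45 (.leaf [(3,39),(183,201)]) .nil))))))))) (.cons 159 51 (.leaf [(3,39),(45,213),(9,153),(147,177),(183,201)]) (.cons 213 45 (.leaf [(51,159),(183,201),(3,39),(147,153)]) (.cons 3 45 (.leaf [(51,159),(39,183),(147,153),(201,213)]) (.cons 39 45 (.leaf [(51,159),(3,183),(147,153),(201,213)])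 (.cons 183 45 (.leaf [(51,159),(201,213),(3,39),(147,153)]) (.cons 153 45 (.leaf [(51,159),(147,177),(183,201),(3,39)]) (.cons 9 45 (.leaf [(51,159),(183,201),(3,39),(147,153)]) (.cons 201 45 (.leaf [(51,159),(183,213),(3,39),(147,153)]) (.cons 147 45 (.leaf [(51,159),(3,39),(153,177),(183,201)]) (.cons 177 45 (.leaf [(51,159),(147,153),(183,201),(3,39)]) .nil)))))))))))) (.cons 39 3 (.cons 51 159 (.cons 45 69 (.leaf [(9,153),(33,183),(201,213)]) (.cons 69 45 (.leaf [(33,153),(183,201),(177,213)]) (.cons 183 45 (.leaf [(33,153),(201,213),(69,177)]) (.cons 153 45 (.leaf [(33,183),(201,213),(69,177)]) (.cons 33 69 (.leaf [(153,183),(9,45),(201,213)]) (.cons 213 69 (.leaf [(183,201),(9,45),(33,153)]) (.cons 9 45 (.leaf [(33,69),(153,183),(201,213)]) (.cons 201 45 (.leaf [(183,213),(33,153),(69,177)]) (.cons 177 69 (.leaf [(9,45),(33,153),(183,201)]) .nil))))))))) (.cons 153 51 (.leaf [(9,45),(33,183),(147,159),(201,213),(69,177)]) (.cons 159 51 (.leaf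 [(9,45),(33,69),(153,183),(147,177),(201,213)]) (.cons 45 51 (.leaf [(9,153),(33,183),(201,213),(69,177),(147,159)]) (.cons 183 153 (.leaf [(51,159),(201,213),(45,69),(33,177)]) (.cons 33 153 (.leaf [(51,159),(45,69),(177,213),(183,201)]) (.cons 69 51 (.leaf [(9,45),(33,153),(183,201),(177,213),(147,159)]) (.cons 213 51 (.leaf [(183,201),(9,45),(33,153),(69,177),(147,159)]) (.cons 9 153 (.leaf [(51,159),(45,69),(183,201),(33,177)]) (.cons 201 51 (.leaf [(183,213),(9,45),(33,153),(69,177),(147,159)]) (.cons 177 51 (.leaf [(9,45),(33,153),(69,213),(147,159),(183,201)]) (.cons 147 51 (.leaf [(9,45),(33,69),(153,183),(159,177),(201,213)]) .nil)))))))))))) (.cons 201 213 (.cons 51 159 (.cons 33 9 (.leaf [(153,183),(3,39),(45,69)]) (.cons 9 33 (.leaf [(45,153),(39,69),(3,147)]) (.cons 45 9 (.leaf [(39,69),(33,153),(3,147)]) (.cons 153 33 (.leaf [(9,45),(39,69),(3,147)]) (.cons 3 33 (.leaf [(9,153),(45,69),(39,147)]) (.cons 39 45 (.leaf [(3,9),(33,153),(147,183)])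 (.cons 183 33 (.leaf [(3,147),(39,45),(9,153)]) (.cons 69 45 (.leaf [(3,39),(9,33),(153,183)]) (.cons 147 33 (.leaf [(3,183),(39,45),(9,153)]) .nil))))))))) (.cons 153 33 (.leaf [(9,45),(51,159),(147,177),(3,183),(39,69)]) (.cons 159 51 (.cons 153 33 (.leaf [(9,45),(147,177),(3,39)]) (.cons 33 153 (.leaf [(3,9),(39,147)]) (.cons 9 153 (.leaf [(3,33),(39,147)]) (.cons 3 33 (.leaf [(9,45),(39,183),(147,153)]) (.cons 147 153 (.leaf [(3,39),(9,33)]) (.cons 183 153 (.leaf [(3,39),(9,33)]) (.cons 45 153 (.leaf [(3,39),(9,33)]) (.cons 177 153 (.leaf [(3,39),(9,33)]) (.cons 39 153 (.leaf [(3,147),(9,33)]) .nil))))))))) (.cons 33 153 (.leaf [(3,9),(51,159),(39,45),(147,183)]) (.cons 9 153 (.leaf [(3,33),(51,159),(39,45),(147,183)]) (.cons 3 33 (.leaf [(51,159),(9,153),(45,69),(39,183),(147,177)]) (.cons 45 153 (.leaf [(51,159),(3,147),(9,33),(39,69)]) (.cons 183 153 (.leaf [(51,159),(3,147),(9,33),(39,45)]) (.cons 39 153 (.leaf [(51,159),(3,147),(9,33),(45,69)])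 (.cons 147 153 (.leaf [(51,159),(3,183),(9,33),(39,45)]) (.cons 69 51 (.leaf [(3,9),(33,183),(45,153),(39,147),(159,177)]) (.cons 177 153 (.leaf [(51,159),(3,147),(9,33),(39,45)]) .nil)))))))))))) (.cons 177 33 (.cons 159 51 (.cons 153 147 (.leaf [(9,45),(3,213),(183,201)]) (.cons 147 153 (.leaf [(3,39),(183,201),(45,213)]) (.cons 45 153 (.leaf [(3,213),(183,201),(39,147)]) (.cons 213 45 (.leaf [(147,153),(183,201),(3,39)]) (.cons 3 45 (.leaf [(147,153),(39,183),(201,213)]) (.cons 183 147 (.leaf [(201,213),(3,45),(9,153)]) (.cons 9 153 (.leaf [(3,39),(45,213),(183,201)]) (.cons 201 213 (.leaf [(147,153),(9,45),(3,39)]) (.cons 39 147 (.leaf [(3,213),(9,45),(183,201)]) .nil))))))))) (.cons 45 159 (.leaf [(3,213),(9,153),(39,147),(51,69),(183,201)]) (.cons 51 159 (.leaf [(3,147),(45,213),(9,153),(39,69),(183,201)]) (.cons 213 45 (.leaf [(51,159),(183,201),(147,153),(3,39)]) (.cons 153 159 (.leaf [(9,45),(3,213),(183,201),(39,147),(51,69)]) (.cons 3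 45 (.leaf [(51,159),(39,183),(147,153),(201,213)]) (.cons 147 159 (.leaf [(3,39),(183,201),(45,213),(9,153),(51,69)]) (.cons 183 159 (.leaf [(201,213),(3,45),(39,147),(9,153),(51,69)]) (.cons 39 45 (.leaf [(51,159),(3,183),(147,153),(201,213)]) (.cons 9 45 (.leaf [(51,159),(147,153),(183,201),(3,39)]) (.cons 201 213 (.leaf [(51,159),(9,45),(147,153),(3,183),(39,69)]) (.cons 69 45 (.leaf [(51,159),(147,153),(183,201),(3,39)]) .nil)))))))))))) (.cons 147 3 (.cons 153 159 (.leaf [(9,45),(33,183),(201,213),(69,177),(39,51)]) (.cons 159 51 (.cons 153 177 (.leaf [(9,45),(33,183),(201,213)]) (.cons 177 153 (.leaf [(33,69),(183,201)]) (.cons 183 153 (.leaf [(201,213),(33,69)]) (.cons 33 153 (.leaf [(69,177),(183,201)]) (.cons 213 153 (.leaf [(183,201),(33,69)]) (.cons 9 153 (.leaf [(183,201),(33,69)]) (.cons 201 153 (.leaf [(183,213),(33,69)]) (.cons 45 153 (.leaf [(183,201),(33,69)]) (.cons 69 153 (.leaf [(33,177),(183,201)]) .nil))))))))) (.cons 51 159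 (.leaf [(9,45),(33,177),(153,183),(39,69),(201,213)]) (.cons 183 153 (.leaf [(51,159),(201,213),(33,69),(39,45)]) (.cons 33 153 (.leaf [(51,159),(69,177),(183,201),(39,45)]) (.cons 45 153 (.leaf [(51,159),(39,69),(183,201),(33,177)]) (.cons 177 153 (.leaf [(51,159),(33,69),(183,201),(39,45)]) (.cons 213 153 (.leaf [(51,159),(183,201),(33,69),(39,45)]) (.cons 69 153 (.leaf [(51,159),(33,177),(39,45),(183,201)]) (.cons 9 153 (.leaf [(51,159),(183,201),(33,69),(39,45)]) (.cons 201 183 (.leaf [(51,159),(9,45),(153,177),(33,213),(39,69)]) (.cons 39 51 (.leaf [(9,45),(33,69),(153,183),(159,177),(201,213)]) .nil)))))))))))) .nil))))))))))))))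

/-- The masks of block 15. -/
def m15 : List ℕ := [0x200000208, 0x8000000008000000000000000000000000008000000008, 0x200000000000000000000000000000000000000000200000000008, 0x200000000000000000000000000200000000200, 0x8000000000000000000000000008000000000000, 0x8000000200000000000000000000000000000200000000, 0x200000000200000000000000000000000000200000000200000000, 0x200008208000000000, 0x200008208000000000000000000000000000000000000, 0x200200008000000000000000000000000000000000000000000000]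

/-- The strategy tree of block 16. -/
def t16 : Tr := (.cons 43 67 (.cons 85 211 (.cons 79 151 (.leaf [(91,103),(121,193)]) (.cons 151 79 (.leaf [(121,193),(91,181)]) (.cons 121 193 (.cons 151 79 (.leaf [(91,181)]) (.cons 79 151 (.leaf [(91,103)]) (.cons 91 151 (.leaf [(79,103)]) (.cons 103 79 (.leaf [(91,151)]) (.cons 181 151 (.leaf [(79,91)]) .nil))))) (.cons 193 121 (.leaf [(79,151),(91,103)]) (.cons 91 79 (.leaf [(121,193),(151,181)]) (.cons 103 79 (.leaf [(121,193),(91,151)]) (.cons 181 79 (.leaf [(121,193),(91,151)]) .nil))))))) (.cons 211 85 (.leaf [(79,151),(181,193),(91,121)]) (.cons 79 151 (.cons 85 211 (.leaf [(91,103),(121,193)]) (.cons 211 85 (.leaf [(181,193)]) (.cons 193 85 (.leaf [(181,211)]) (.cons 103 85 (.leaf [(181,193)]) (.cons 181 211 (.leaf [(85,121),(91,103)]) (.cons 121 85 (.leaf [(181,193)]) (.cons 91 85 (.leaf [(181,193)]) .nil))))))) (.cons 151 79 (.cons 211 85 (.leaf [(181,193),(91,121)]) (.cons 85 211 (.leaf [(121,193),(91,181)])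 (.cons 193 211 (.leaf [(85,121),(91,181)]) (.cons 181 211 (.leaf [(91,121),(85,193)]) (.cons 121 85 (.leaf [(91,181),(193,211)]) (.cons 91 211 (.leaf [(121,181),(85,193)]) .nil)))))) (.cons 193 85 (.leaf [(79,151),(181,211),(91,121)]) (.cons 181 85 (.leaf [(79,151),(193,211),(91,121)]) (.cons 121 85 (.leaf [(79,151),(91,181),(193,211)]) (.cons 91 85 (.leaf [(79,151),(121,181),(193,211)]) (.cons 103 85 (.leaf [(79,151),(181,193),(91,121)]) .nil))))))))) (.cons 67 43 (.cons 211 103 (.leaf [(181,193),(85,121),(91,151)]) (.cons 103 211 (.leaf [(79,85),(91,151),(121,193)]) (.cons 193 211 (.leaf [(85,121),(79,103),(91,151)]) (.cons 85 193 (.leaf [(103,211),(79,91),(121,151)]) (.cons 181 211 (.leaf [(79,85),(121,193),(91,151)]) (.cons 121 193 (.leaf [(103,211),(91,151),(79,85)]) (.cons 91 103 (.leaf [(85,193),(121,151),(181,211)]) (.cons 79 103 (.leaf [(85,193),(91,121),(181,211)]) (.cons 151 211 (.leaf [(79,85),(121,193),(91,181)]) .nil))))))))) (.cons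 211 43 (.cons 193 181 (.leaf [(67,103),(85,121),(79,91)]) (.cons 103 67 (.cons 193 181 (.leaf [(85,121),(79,91)]) (.cons 181 193 (.leaf [(79,85),(91,121)]) (.cons 85 193 (.leaf [(79,91),(121,151)]) (.cons 121 193 (.leaf [(79,85),(91,151)]) (.cons 91 193 (.leaf [(79,85),(121,151)]) (.cons 79 193 (.leaf [(85,91),(121,151)]) (.cons 151 193 (.leaf [(79,85),(91,121)]) .nil))))))) (.cons 181 193 (.leaf [(67,103),(91,121),(79,85)]) (.cons 67 103 (.leaf [(181,193),(85,121),(91,151)]) (.cons 85 193 (.leaf [(67,103),(79,91),(121,151)]) (.cons 121 193 (.leaf [(67,103),(91,151),(79,85)]) (.cons 91 193 (.leaf [(67,103),(79,85),(121,151)]) (.cons 79 193 (.leaf [(67,103),(85,91),(121,151)]) (.cons 151 193 (.leaf [(67,103),(91,121),(79,85)]) .nil))))))))) (.cons 85 43 (.cons 193 121 (.leaf [(181,211),(67,103),(79,91)]) (.cons 121 193 (.leaf [(67,211),(79,103),(91,151)]) (.cons 103 193 (.leaf [(67,211),(79,91),(121,151)]) (.cons 211 193 (.leaf [(67,103),(79,91),(121,151)])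 (.cons 181 193 (.leaf [(67,211),(79,103),(91,121)]) (.cons 91 193 (.leaf [(79,103),(67,211),(121,151)]) (.cons 67 193 (.leaf [(103,211),(79,91),(121,151)]) (.cons 79 193 (.leaf [(91,103),(67,211),(121,151)]) (.cons 151 193 (.leaf [(67,211),(79,103),(91,121)]) .nil))))))))) (.cons 193 43 (.cons 211 181 (.leaf [(67,103),(85,121),(79,91)]) (.cons 85 121 (.leaf [(181,211),(67,103),(79,91)]) (.cons 181 211 (.leaf [(85,121),(91,151),(79,103)]) (.cons 121 85 (.leaf [(181,211),(67,103),(91,151)]) (.cons 103 211 (.leaf [(85,121),(79,91),(151,181)]) (.cons 67 211 (.leaf [(85,121),(79,103),(91,151)]) (.cons 91 211 (.leaf [(85,121),(79,103),(151,181)]) (.cons 79 211 (.leaf [(85,121),(91,103),(151,181)]) (.cons 151 211 (.leaf [(85,121),(91,181),(79,103)]) .nil))))))))) (.cons 103 43 (.cons 211 67 (.cons 193 181 (.leaf [(85,121),(79,91)]) (.cons 181 193 (.leaf [(79,85),(91,121)]) (.cons 85 193 (.leaf [(79,91),(121,151)]) (.cons 121 193 (.leaf [(79,85),(91,151)])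 (.cons 91 193 (.leaf [(79,85),(121,151)]) (.cons 79 193 (.leaf [(85,91),(121,151)]) (.cons 151 193 (.leaf [(79,85),(91,121)]) .nil))))))) (.cons 193 211 (.leaf [(85,121),(79,91),(151,181)]) (.cons 67 211 (.leaf [(79,85),(91,151),(121,193)]) (.cons 85 193 (.leaf [(67,211),(79,91),(121,151)]) (.cons 181 211 (.leaf [(79,85),(91,151),(121,193)]) (.cons 121 193 (.leaf [(67,211),(79,85),(91,151)]) (.cons 91 211 (.leaf [(79,85),(121,193),(151,181)]) (.cons 79 211 (.leaf [(85,91),(121,193),(151,181)]) (.cons 151 211 (.leaf [(79,85),(91,181),(121,193)]) .nil))))))))) (.cons 79 43 (.cons 193 211 (.leaf [(85,121),(91,103),(151,181)]) (.cons 103 211 (.leaf [(85,91),(121,193),(151,181)]) (.cons 211 193 (.leaf [(67,103),(85,91),(121,151)]) (.cons 85 193 (.leaf [(91,103),(67,211),(121,151)]) (.cons 181 193 (.leaf [(67,211),(85,103),(91,121)]) (.cons 121 193 (.leaf [(67,211),(85,103),(91,151)]) (.cons 91 103 (.leaf [(85,193),(121,151),(181,211)]) (.cons 67 103 (.leaf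 [(85,193),(91,121),(181,211)]) (.cons 151 193 (.leaf [(67,211),(85,103),(91,121)]) .nil))))))))) (.cons 181 43 (.cons 193 211 (.leaf [(85,121),(91,151),(79,103)]) (.cons 211 193 (.leaf [(67,103),(91,121),(79,85)]) (.cons 121 193 (.leaf [(91,151),(67,103),(79,85)]) (.cons 103 211 (.leaf [(79,85),(91,151),(121,193)]) (.cons 85 193 (.leaf [(67,211),(79,103),(91,121)]) (.cons 91 193 (.leaf [(121,151),(67,103),(79,85)]) (.cons 67 211 (.leaf [(79,85),(121,193),(91,151)]) (.cons 151 193 (.leaf [(91,121),(67,103),(79,85)]) (.cons 79 193 (.leaf [(67,211),(85,103),(91,121)]) .nil))))))))) (.cons 151 43 (.cons 193 211 (.leaf [(85,121),(91,181),(79,103)]) (.cons 211 193 (.leaf [(67,103),(91,121),(79,85)]) (.cons 181 193 (.leaf [(91,121),(67,103),(79,85)]) (.cons 121 193 (.leaf [(91,181),(67,103),(79,85)]) (.cons 103 211 (.leaf [(79,85),(91,181),(121,193)]) (.cons 85 193 (.leaf [(67,211),(79,103),(91,121)]) (.cons 91 181 (.leaf [(67,211),(79,103),(85,121)]) (.cons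 67 211 (.leaf [(79,85),(121,193),(91,181)]) (.cons 79 193 (.leaf [(67,211),(85,103),(91,121)]) .nil))))))))) (.cons 121 43 (.cons 193 85 (.leaf [(181,211),(67,103),(91,151)]) (.cons 85 193 (.leaf [(67,211),(79,103),(91,151)]) (.cons 211 193 (.leaf [(67,103),(91,151),(79,85)]) (.cons 181 193 (.leaf [(91,151),(67,103),(79,85)]) (.cons 103 193 (.leaf [(67,211),(79,85),(91,151)]) (.cons 91 193 (.leaf [(151,181),(67,103),(79,85)]) (.cons 67 193 (.leaf [(103,211),(91,151),(79,85)]) (.cons 151 193 (.leaf [(91,181),(67,103),(79,85)]) (.cons 79 193 (.leaf [(67,211),(85,103),(91,151)]) .nil))))))))) (.cons 91 43 (.cons 193 211 (.leaf [(85,121),(79,103),(151,181)]) (.cons 103 211 (.leaf [(79,85),(121,193),(151,181)]) (.cons 211 193 (.leaf [(67,103),(79,85),(121,151)]) (.cons 85 193 (.leaf [(79,103),(67,211),(121,151)]) (.cons 181 193 (.leaf [(121,151),(67,103),(79,85)]) (.cons 121 193 (.leaf [(151,181),(67,103),(79,85)]) (.cons 67 103 (.leaf [(85,193),(121,151),(181,211)])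 (.cons 79 103 (.leaf [(85,193),(121,151),(181,211)]) (.cons 151 181 (.leaf [(67,211),(79,103),(85,121)]) .nil))))))))) .nil)))))))))))

/-- The masks of block 16. -/
def m16 : List ℕ := [0x80000000000000000000000000000002000000000080000000000, 0x80000000000000000080000000080000000000, 0x2000000000000000002000000002000000000000000000000, 0x2000000080000002000000080000000000000000000000, 0x80000000000000000000000000080000000080000000000000000, 0x80000080000000000, 0x80082080000000000000000000, 0x80002002000000000000000000000000000000000000000000000]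

/-- The strategy tree of block 17. -/
def t17 : Tr := (.cons 182 62 (.cons 180 184 (.cons 210 192 (.cons 212 215 (.leaf [(188,194),(190,195),(187,189)]) (.cons 215 212 (.leaf [(187,194),(190,195),(188,189)]) (.cons 190 195 (.cons 212 215 (.leaf [(188,194),(187,189)]) (.cons 215 212 (.leaf [(187,194),(188,189)]) (.cons 194 212 (.leaf [(187,215),(188,189)]) (.cons 187 215 (.leaf [(188,189),(194,212)]) (.cons 188 212 (.leaf [(187,189),(194,215)]) (.cons 189 212 (.leaf [(187,188),(194,215)]) .nil)))))) (.cons 194 212 (.leaf [(187,215),(190,195),(188,189)]) (.cons 195 190 (.cons 212 215 (.leaf [(188,194)]) (.cons 215 212 (.leaf [(187,194)]) (.cons 194 212 (.leaf [(187,215)]) (.cons 187 215 (.leaf [(188,194)]) (.cons 188 212 (.leaf [(187,194)]) .nil))))) (.cons 187 215 (.leaf [(190,195),(188,189),(194,212)]) (.cons 188 212 (.leaf [(190,195),(187,189),(194,215)]) (.cons 189 212 (.leaf [(190,195),(187,188),(194,215)]) .nil)))))))) (.cons 192 210 (.leaf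 [(194,195),(187,215),(188,212),(189,190)]) (.cons 194 210 (.leaf [(187,215),(188,212),(192,195),(189,190)]) (.cons 195 210 (.leaf [(192,194),(187,215),(188,212),(189,190)]) (.cons 212 210 (.leaf [(188,194),(187,215),(192,195),(189,190)]) (.cons 215 210 (.leaf [(187,194),(188,212),(192,195),(189,190)]) (.cons 187 194 (.leaf [(192,210),(188,189),(190,195),(212,215)]) (.cons 188 194 (.leaf [(192,210),(187,189),(190,195),(212,215)]) (.cons 190 210 (.leaf [(187,189),(188,212),(194,215),(192,195)]) (.cons 189 210 (.leaf [(187,190),(188,212),(194,215),(192,195)]) .nil)))))))))) (.cons 210 192 (.cons 212 215 (.leaf [(180,184),(188,194),(190,195),(187,189)]) (.cons 180 184 (.cons 212 215 (.leaf [(188,194),(190,195),(187,189)]) (.cons 215 212 (.leaf [(187,194),(190,195),(188,189)]) (.cons 190 195 (.cons 212 215 (.leaf [(188,194),(187,189)]) (.cons 215 212 (.leaf [(187,194),(188,189)]) (.cons 194 212 (.leaf [(187,215),(188,189)]) (.cons 187 215 (.leaf [(188,189),(194,212)])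 (.cons 188 212 (.leaf [(187,189),(194,215)]) (.cons 189 212 (.leaf [(187,188),(194,215)]) .nil)))))) (.cons 194 212 (.leaf [(187,215),(190,195),(188,189)]) (.cons 195 190 (.cons 212 215 (.leaf [(188,194)]) (.cons 215 212 (.leaf [(187,194)]) (.cons 194 212 (.leaf [(187,215)]) (.cons 187 215 (.leaf [(188,194)]) (.cons 188 212 (.leaf [(187,194)]) .nil))))) (.cons 187 215 (.leaf [(190,195),(188,189),(194,212)]) (.cons 188 212 (.leaf [(190,195),(187,189),(194,215)]) (.cons 189 212 (.leaf [(190,195),(187,188),(194,215)]) .nil)))))))) (.cons 215 212 (.leaf [(180,184),(190,195),(187,194),(188,189)]) (.cons 190 195 (.cons 212 215 (.leaf [(180,184),(188,194),(187,189)]) (.cons 180 184 (.cons 212 215 (.leaf [(188,194),(187,189)]) (.cons 215 212 (.leaf [(187,194),(188,189)]) (.cons 194 212 (.leaf [(187,215),(188,189)]) (.cons 187 215 (.leaf [(188,189),(194,212)]) (.cons 188 212 (.leaf [(187,189),(194,215)]) (.cons 189 212 (.leaf [(187,188),(194,215)]) .nil))))))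 (.cons 215 212 (.leaf [(180,184),(187,194),(188,189)]) (.cons 184 180 (.leaf [(212,215),(187,189),(188,194)]) (.cons 188 212 (.leaf [(180,184),(187,189),(194,215)]) (.cons 194 212 (.leaf [(180,184),(187,215),(188,189)]) (.cons 187 212 (.leaf [(180,184),(188,189),(194,215)]) (.cons 189 212 (.leaf [(180,184),(187,188),(194,215)]) .nil)))))))) (.cons 195 190 (.cons 212 215 (.leaf [(180,184),(188,194)]) (.cons 180 184 (.cons 212 215 (.leaf [(188,194)]) (.cons 215 212 (.leaf [(187,194)]) (.cons 194 212 (.leaf [(187,215)]) (.cons 187 215 (.leaf [(188,194)]) (.cons 188 212 (.leaf [(187,194)]) .nil))))) (.cons 215 212 (.leaf [(180,184),(187,194)]) (.cons 184 180 (.leaf [(212,215),(188,194)]) (.cons 194 212 (.leaf [(180,184),(187,215)]) (.cons 188 212 (.leaf [(180,184),(187,194)]) (.cons 187 212 (.leaf [(180,184),(194,215)]) .nil))))))) (.cons 184 180 (.leaf [(190,195),(212,215),(188,194),(187,189)]) (.cons 194 212 (.leaf [(180,184),(190,195),(187,215),(188,189)])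 (.cons 188 212 (.leaf [(180,184),(190,195),(187,189),(194,215)]) (.cons 187 212 (.leaf [(180,184),(190,195),(194,215),(188,189)]) (.cons 189 212 (.leaf [(180,184),(190,195),(187,188),(194,215)]) .nil)))))))))) (.cons 194 210 (.leaf [(180,184),(188,212),(192,195),(187,215),(189,190)]) (.cons 192 210 (.leaf [(180,184),(194,195),(188,212),(187,215),(189,190)]) (.cons 195 210 (.leaf [(180,184),(192,194),(188,212),(187,215),(189,190)]) (.cons 212 210 (.leaf [(180,184),(188,194),(192,195),(187,215),(189,190)]) (.cons 184 180 (.leaf [(188,212),(192,194),(190,195),(210,215),(187,189)]) (.cons 215 210 (.leaf [(180,184),(187,194),(188,212),(192,195),(189,190)]) (.cons 188 194 (.leaf [(180,184),(192,210),(187,189),(190,195),(212,215)]) (.cons 190 210 (.leaf [(180,184),(187,215),(188,189),(194,212),(192,195)]) (.cons 187 194 (.leaf [(180,184),(192,210),(188,189),(190,195),(212,215)]) (.cons 189 210 (.leaf [(180,184),(187,215),(188,190),(194,212),(192,195)])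 .nil)))))))))))) (.cons 210 192 (.cons 182 62 (.cons 212 215 (.leaf [(180,184),(188,194),(190,195),(187,189)]) (.cons 180 184 (.cons 212 215 (.leaf [(188,194),(190,195),(187,189)]) (.cons 215 212 (.leaf [(187,194),(190,195),(188,189)]) (.cons 190 195 (.cons 212 215 (.leaf [(188,194),(187,189)]) (.cons 215 212 (.leaf [(187,194),(188,189)]) (.cons 194 212 (.leaf [(187,215),(188,189)]) (.cons 187 215 (.leaf [(188,189),(194,212)]) (.cons 188 212 (.leaf [(187,189),(194,215)]) (.cons 189 212 (.leaf [(187,188),(194,215)]) .nil)))))) (.cons 194 212 (.leaf [(187,215),(190,195),(188,189)]) (.cons 195 190 (.cons 212 215 (.leaf [(188,194)]) (.cons 215 212 (.leaf [(187,194)]) (.cons 194 212 (.leaf [(187,215)]) (.cons 187 215 (.leaf [(188,194)]) (.cons 188 212 (.leaf [(187,194)]) .nil))))) (.cons 187 215 (.leaf [(190,195),(188,189),(194,212)]) (.cons 188 212 (.leaf [(190,195),(187,189),(194,215)]) (.cons 189 212 (.leaf [(190,195),(187,188),(194,215)]) .nil))))))))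 (.cons 215 212 (.leaf [(180,184),(190,195),(187,194),(188,189)]) (.cons 190 195 (.cons 212 215 (.leaf [(180,184),(188,194),(187,189)]) (.cons 180 184 (.cons 212 215 (.leaf [(188,194),(187,189)]) (.cons 215 212 (.leaf [(187,194),(188,189)]) (.cons 194 212 (.leaf [(187,215),(188,189)]) (.cons 187 215 (.leaf [(188,189),(194,212)]) (.cons 188 212 (.leaf [(187,189),(194,215)]) (.cons 189 212 (.leaf [(187,188),(194,215)]) .nil)))))) (.cons 215 212 (.leaf [(180,184),(187,194),(188,189)]) (.cons 184 180 (.leaf [(212,215),(187,189),(188,194)]) (.cons 188 212 (.leaf [(180,184),(187,189),(194,215)]) (.cons 194 212 (.leaf [(180,184),(187,215),(188,189)]) (.cons 187 212 (.leaf [(180,184),(188,189),(194,215)]) (.cons 189 212 (.leaf [(180,184),(187,188),(194,215)]) .nil)))))))) (.cons 195 190 (.cons 212 215 (.leaf [(180,184),(188,194)]) (.cons 180 184 (.cons 212 215 (.leaf [(188,194)]) (.cons 215 212 (.leaf [(187,194)]) (.cons 194 212 (.leaf [(187,215)]) (.cons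 187 215 (.leaf [(188,194)]) (.cons 188 212 (.leaf [(187,194)]) .nil))))) (.cons 215 212 (.leaf [(180,184),(187,194)]) (.cons 184 180 (.leaf [(212,215),(188,194)]) (.cons 194 212 (.leaf [(180,184),(187,215)]) (.cons 188 212 (.leaf [(180,184),(187,194)]) (.cons 187 212 (.leaf [(180,184),(194,215)]) .nil))))))) (.cons 184 180 (.leaf [(190,195),(212,215),(188,194),(187,189)]) (.cons 194 212 (.leaf [(180,184),(190,195),(187,215),(188,189)]) (.cons 188 212 (.leaf [(180,184),(190,195),(187,189),(194,215)]) (.cons 187 212 (.leaf [(180,184),(190,195),(194,215),(188,189)]) (.cons 189 212 (.leaf [(180,184),(190,195),(187,188),(194,215)]) .nil)))))))))) (.cons 212 215 (.leaf [(62,182),(190,195),(180,184),(188,194),(187,189)]) (.cons 215 212 (.leaf [(62,182),(190,195),(180,184),(187,194),(188,189)]) (.cons 190 195 (.cons 182 62 (.cons 212 215 (.leaf [(180,184),(188,194),(187,189)]) (.cons 180 184 (.cons 212 215 (.leaf [(188,194),(187,189)]) (.cons 215 212 (.leaf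 [(187,194),(188,189)]) (.cons 194 212 (.leaf [(187,215),(188,189)]) (.cons 187 215 (.leaf [(188,189),(194,212)]) (.cons 188 212 (.leaf [(187,189),(194,215)]) (.cons 189 212 (.leaf [(187,188),(194,215)]) .nil)))))) (.cons 215 212 (.leaf [(180,184),(187,194),(188,189)]) (.cons 184 180 (.leaf [(212,215),(187,189),(188,194)]) (.cons 188 212 (.leaf [(180,184),(187,189),(194,215)]) (.cons 194 212 (.leaf [(180,184),(187,215),(188,189)]) (.cons 187 212 (.leaf [(180,184),(188,189),(194,215)]) (.cons 189 212 (.leaf [(180,184),(187,188),(194,215)]) .nil)))))))) (.cons 212 215 (.leaf [(62,182),(180,184),(188,194),(187,189)]) (.cons 215 212 (.leaf [(62,182),(180,184),(187,194),(188,189)]) (.cons 62 182 (.leaf [(212,215),(180,187),(188,189)]) (.cons 180 182 (.leaf [(212,215),(187,194),(188,189)]) (.cons 187 182 (.leaf [(188,189),(212,215),(180,194)]) (.cons 188 182 (.leaf [(187,189),(212,215),(180,194)]) (.cons 194 182 (.leaf [(212,215),(180,187),(188,189)]) (.cons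 184 182 (.leaf [(212,215),(180,187),(188,189)]) (.cons 189 182 (.leaf [(187,188),(212,215),(180,194)]) .nil)))))))))) (.cons 195 190 (.cons 182 62 (.cons 212 215 (.leaf [(180,184),(188,194)]) (.cons 180 184 (.cons 212 215 (.leaf [(188,194)]) (.cons 215 212 (.leaf [(187,194)]) (.cons 194 212 (.leaf [(187,215)]) (.cons 187 215 (.leaf [(188,194)]) (.cons 188 212 (.leaf [(187,194)]) .nil))))) (.cons 215 212 (.leaf [(180,184),(187,194)]) (.cons 184 180 (.leaf [(212,215),(188,194)]) (.cons 194 212 (.leaf [(180,184),(187,215)]) (.cons 188 212 (.leaf [(180,184),(187,194)]) (.cons 187 212 (.leaf [(180,184),(194,215)]) .nil))))))) (.cons 212 215 (.leaf [(62,182),(180,184),(188,194)]) (.cons 215 212 (.leaf [(62,182),(180,184),(187,194)]) (.cons 62 182 (.leaf [(212,215),(180,187)]) (.cons 180 182 (.leaf [(212,215),(187,194)]) (.cons 194 182 (.leaf [(212,215),(180,187)]) (.cons 184 182 (.leaf [(212,215),(180,187)]) (.cons 187 182 (.leaf [(212,215),(180,194)])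 (.cons 188 182 (.leaf [(212,215),(180,187)]) .nil))))))))) (.cons 62 182 (.leaf [(190,195),(212,215),(180,194),(187,188)]) (.cons 180 182 (.leaf [(190,195),(212,215),(187,194),(188,189)]) (.cons 194 182 (.leaf [(190,195),(212,215),(180,187),(188,189)]) (.cons 184 182 (.leaf [(190,195),(212,215),(180,194),(187,188)]) (.cons 187 182 (.leaf [(190,195),(212,215),(180,194),(188,189)]) (.cons 188 182 (.leaf [(190,195),(212,215),(187,189),(180,194)]) (.cons 189 182 (.leaf [(190,195),(212,215),(187,188),(180,194)]) .nil)))))))))))) (.cons 180 182 (.cons 210 192 (.leaf [(190,195),(212,215),(187,194),(188,189)]) (.cons 192 210 (.leaf [(194,195),(187,215),(188,189)]) (.cons 194 192 (.leaf [(187,215),(190,195),(210,212),(188,189)]) (.cons 195 210 (.leaf [(192,194),(187,215),(188,189)]) (.cons 215 210 (.leaf [(187,194),(192,195),(188,189)]) (.cons 187 210 (.leaf [(194,215),(188,189),(192,195)]) (.cons 190 210 (.leaf [(187,215),(188,189),(192,194)]) (.cons 212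 210 (.leaf [(187,188),(194,215),(192,195)]) (.cons 188 210 (.leaf [(187,215),(189,190),(192,194)]) (.cons 189 210 (.leaf [(187,215),(188,190),(192,194)]) .nil)))))))))) (.cons 192 210 (.leaf [(62,182),(194,195),(180,184),(187,215),(188,212),(189,190)]) (.cons 194 210 (.leaf [(62,182),(192,195),(180,184),(187,215),(188,212),(189,190)]) (.cons 195 210 (.leaf [(62,182),(192,194),(180,184),(187,215),(188,212),(189,190)]) (.cons 62 182 (.cons 210 192 (.leaf [(190,195),(212,215),(180,194),(187,188)]) (.cons 192 210 (.leaf [(194,195),(180,215),(187,188)]) (.cons 195 210 (.leaf [(192,194),(180,215),(187,188)]) (.cons 194 192 (.leaf [(180,215),(187,188),(190,195),(210,212)]) (.cons 180 210 (.leaf [(187,188),(194,215),(192,195)]) (.cons 215 210 (.leaf [(180,194),(187,188),(192,195)]) (.cons 190 210 (.leaf [(180,187),(188,189),(192,194)]) (.cons 212 210 (.leaf [(192,195),(180,194),(187,188)]) (.cons 187 210 (.leaf [(180,215),(192,194),(188,189)]) (.cons 188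 210 (.leaf [(180,187),(189,190),(192,194)]) (.cons 189 210 (.leaf [(180,187),(188,190),(192,194)]) .nil))))))))))) (.cons 212 210 (.leaf [(62,182),(180,184),(188,194),(192,195),(187,215),(189,190)]) (.cons 215 210 (.leaf [(62,182),(180,184),(187,194),(192,195),(188,212),(189,190)]) (.cons 190 210 (.leaf [(62,182),(180,184),(187,189),(188,212),(192,195),(194,215)]) (.cons 188 210 (.leaf [(62,182),(180,184),(194,212),(187,215),(189,190),(192,195)]) (.cons 184 180 (.leaf [(62,182),(190,210),(192,195),(188,194),(212,215),(187,189)]) (.cons 187 210 (.leaf [(62,182),(180,184),(194,215),(188,212),(189,190),(192,195)]) (.cons 189 210 (.leaf [(62,182),(180,184),(187,190),(188,212),(192,195),(194,215)]) .nil))))))))))))))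

/-- The masks of block 17. -/
def m17 : List ℕ := [0x4000000000000000000000000000004000000000000000, 0x15000000000000000000000000000000000000000000000, 0x40001001000000000000000000000000000000000000000000000, 0x800004081000000000000000000000000000000000000000000000, 0x100004104000000000000000000000000000000000000000000000, 0x40008400000000000000000000000000000000000000000000000, 0x780000000000000000000000000000000000000000000000, 0xd000000000000000000000000000000000000000000000000, 0x940000000000000000000000000000000000000000000000000000]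

/-- The blocks. -/
def blocks : List (Tr × List ℕ) := [(t0, m0), (t1, m1), (t2, m2), (t3, m3), (t4, m4), (t5, m5), (t6, m6), (t7, m7), (t8, m8), (t9, m9), (t10, m10), (t11, m11), (t12, m12), (t13, m13), (t14, m14), (t15, m15), (t16, m16), (t17, m17)]

theorem blocks_ok : blocksOK blocks 0 = true := by decide +kernel

theorem round : BW (kill 86 (play 0 (fam lines))) :=
  round_base (by norm_num) (blocksOK_sound blocks 0 blocks_ok).1 (by decide +kernel)

end P0

namespace P1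

/-- The strategy tree of block 0. -/
def t0 : Tr := (.cons 12 6 (.cons 49 86 (.leaf [(48,50),(85,157),(84,156),(158,159)]) (.cons 86 49 (.leaf [(50,158),(84,85),(48,156),(157,159)]) (.cons 48 49 (.leaf [(84,156),(50,158),(85,86),(157,159)]) (.cons 50 49 (.leaf [(86,158),(48,156),(84,85),(157,159)]) (.cons 84 86 (.leaf [(48,156),(49,50),(85,157),(158,159)]) (.cons 85 49 (.leaf [(84,86),(48,156),(50,158),(157,159)]) (.cons 156 49 (.leaf [(48,84),(50,158),(85,86),(157,159)]) (.cons 157 49 (.leaf [(48,84),(50,158),(85,86),(156,159)]) (.cons 158 86 (.leaf [(48,84),(49,50),(156,159),(85,157)]) (.cons 159 49 (.leaf [(48,84),(50,158),(85,86),(156,157)]) .nil)))))))))) (.cons 49 86 (.leaf [(6,12),(48,50),(85,157),(84,156),(158,159)]) (.cons 86 49 (.leaf [(6,12),(50,158),(84,85),(48,156),(157,159)]) (.cons 6 12 (.leaf [(48,50),(49,157),(84,85),(86,158),(156,159)]) (.cons 50 49 (.leaf [(6,12),(86,158),(84,85),(48,156),(157,159)]) (.cons 85 49 (.leaf [(6,12),(84,86),(50,158),(48,156),(157,159)])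 (.cons 48 49 (.leaf [(6,12),(84,156),(50,158),(85,86),(157,159)]) (.cons 84 86 (.leaf [(6,12),(48,156),(49,50),(85,157),(158,159)]) (.cons 157 49 (.leaf [(6,12),(50,158),(85,86),(48,84),(156,159)]) (.cons 158 86 (.leaf [(6,12),(48,84),(49,50),(85,157),(156,159)]) (.cons 156 49 (.leaf [(6,12),(48,84),(50,158),(85,86),(157,159)]) (.cons 159 49 (.leaf [(6,12),(50,158),(85,86),(48,84),(156,157)]) .nil))))))))))))

/-- The masks of block 0. -/
def m0 : List ℕ := [0x1040, 0x1000000000000000001000000001000000001000, 0x4000000002000000001000, 0x2000000000000000002000000002000000000000, 0x4000000000000000004000000004000000000000, 0x7000000000000, 0x7000000000000000000000, 0xf000000000000000000000000000000000000000]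

/-- The strategy tree of block 1. -/
def t1 : Tr := (.cons 18 54 (.cons 203 55 (.leaf [(8,9),(200,201),(19,22),(21,57)]) (.cons 55 203 (.leaf [(8,9),(19,127),(21,22),(57,201)]) (.cons 8 9 (.cons 203 55 (.leaf [(200,201),(19,22),(21,57)]) (.cons 55 203 (.leaf [(19,127),(21,22),(57,201)]) (.cons 201 203 (.leaf [(21,57),(19,22),(55,127)]) (.cons 19 55 (.leaf [(21,22),(57,201),(200,203)]) (.cons 21 203 (.leaf [(19,22),(57,201),(55,127)]) (.cons 200 203 (.leaf [(19,22),(21,57),(55,127)]) (.cons 22 203 (.leaf [(19,21),(55,127),(57,201)]) (.cons 57 201 (.leaf [(55,203),(19,127),(21,22)]) (.cons 127 55 (.leaf [(19,22),(21,57),(200,201)]) .nil))))))))) (.cons 9 8 (.cons 203 55 (.leaf [(200,201),(19,22),(21,57)]) (.cons 55 203 (.leaf [(19,127),(21,22),(57,201)]) (.cons 201 203 (.leaf [(21,57),(19,22),(55,127)]) (.cons 19 55 (.leaf [(21,22),(57,201),(200,203)]) (.cons 21 203 (.leaf [(19,22),(57,201),(55,127)]) (.cons 200 203 (.leaf [(19,22),(21,57),(55,127)])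 (.cons 22 203 (.leaf [(19,21),(55,127),(57,201)]) (.cons 57 201 (.leaf [(55,203),(19,127),(21,22)]) (.cons 127 55 (.leaf [(19,22),(21,57),(200,201)]) .nil))))))))) (.cons 201 203 (.leaf [(8,9),(21,57),(19,22),(55,127)]) (.cons 19 55 (.leaf [(8,9),(21,22),(57,201),(200,203)]) (.cons 21 203 (.leaf [(8,9),(19,22),(57,201),(55,127)]) (.cons 200 203 (.leaf [(8,9),(19,22),(21,57),(55,127)]) (.cons 22 203 (.leaf [(8,9),(19,21),(55,127),(57,201)]) (.cons 57 201 (.leaf [(8,9),(55,203),(19,127),(21,22)]) (.cons 127 55 (.leaf [(8,9),(19,22),(21,57),(200,201)]) .nil))))))))))) (.cons 54 18 (.leaf [(8,9),(55,57),(19,127),(21,201),(200,203)]) (.cons 55 18 (.leaf [(8,9),(19,127),(54,57),(21,201),(200,203)]) (.cons 8 9 (.cons 18 54 (.cons 203 55 (.leaf [(200,201),(19,22),(21,57)]) (.cons 55 203 (.leaf [(19,127),(21,22),(57,201)]) (.cons 201 203 (.leaf [(21,57),(19,22),(55,127)]) (.cons 19 55 (.leaf [(21,22),(57,201),(200,203)]) (.cons 21 203 (.leaf [(19,22),(57,201),(55,127)])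 (.cons 200 203 (.leaf [(19,22),(21,57),(55,127)]) (.cons 22 203 (.leaf [(19,21),(55,127),(57,201)]) (.cons 57 201 (.leaf [(55,203),(19,127),(21,22)]) (.cons 127 55 (.leaf [(19,22),(21,57),(200,201)]) .nil))))))))) (.cons 54 18 (.leaf [(55,57),(19,127),(21,201),(200,203)]) (.cons 55 18 (.leaf [(19,127),(54,57),(21,201),(200,203)]) (.cons 201 18 (.leaf [(21,57),(200,203),(19,127),(54,55)]) (.cons 203 18 (.leaf [(200,201),(19,127),(54,55),(21,57)]) (.cons 57 55 (.leaf [(18,54),(21,201),(200,203),(19,22)]) (.cons 19 18 (.leaf [(55,127),(21,201),(54,57),(200,203)]) (.cons 21 18 (.leaf [(57,201),(19,127),(54,55),(200,203)]) (.cons 200 18 (.leaf [(201,203),(19,127),(54,55),(21,57)]) (.cons 127 55 (.leaf [(18,54),(19,21),(57,201),(200,203)]) (.cons 22 18 (.leaf [(19,127),(54,55),(21,57),(200,201)]) .nil))))))))))) (.cons 9 8 (.cons 18 54 (.cons 203 55 (.leaf [(200,201),(19,22),(21,57)]) (.cons 55 203 (.leaf [(19,127),(21,22),(57,201)]) (.cons 201 203 (.leaf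 [(21,57),(19,22),(55,127)]) (.cons 19 55 (.leaf [(21,22),(57,201),(200,203)]) (.cons 21 203 (.leaf [(19,22),(57,201),(55,127)]) (.cons 200 203 (.leaf [(19,22),(21,57),(55,127)]) (.cons 22 203 (.leaf [(19,21),(55,127),(57,201)]) (.cons 57 201 (.leaf [(55,203),(19,127),(21,22)]) (.cons 127 55 (.leaf [(19,22),(21,57),(200,201)]) .nil))))))))) (.cons 54 18 (.leaf [(55,57),(19,127),(21,201),(200,203)]) (.cons 55 18 (.leaf [(19,127),(54,57),(21,201),(200,203)]) (.cons 201 18 (.leaf [(21,57),(200,203),(19,127),(54,55)]) (.cons 203 18 (.leaf [(200,201),(19,127),(54,55),(21,57)]) (.cons 57 55 (.leaf [(18,54),(21,201),(200,203),(19,22)]) (.cons 19 18 (.leaf [(55,127),(21,201),(54,57),(200,203)]) (.cons 21 18 (.leaf [(57,201),(19,127),(54,55),(200,203)]) (.cons 200 18 (.leaf [(201,203),(19,127),(54,55),(21,57)]) (.cons 127 55 (.leaf [(18,54),(19,21),(57,201),(200,203)]) (.cons 22 18 (.leaf [(19,127),(54,55),(21,57),(200,201)]) .nil))))))))))) (.cons 201 18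 (.leaf [(8,9),(21,57),(200,203),(19,127),(54,55)]) (.cons 203 18 (.leaf [(8,9),(200,201),(19,127),(54,55),(21,57)]) (.cons 57 55 (.leaf [(8,9),(18,54),(21,201),(200,203),(19,22)]) (.cons 19 18 (.leaf [(8,9),(55,127),(21,201),(54,57),(200,203)]) (.cons 21 18 (.leaf [(8,9),(57,201),(19,127),(54,55),(200,203)]) (.cons 200 18 (.leaf [(8,9),(201,203),(19,127),(54,55),(21,57)]) (.cons 127 55 (.leaf [(8,9),(18,54),(19,21),(57,201),(200,203)]) (.cons 22 18 (.leaf [(8,9),(19,127),(54,55),(21,57),(200,201)]) .nil)))))))))))))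

/-- The masks of block 1. -/
def m1 : List ℕ := [0x300, 0x6c0000, 0x40000000040000, 0x800000000000000000000000000000000000080000000040000, 0x80000000000000000080000000080000, 0x200000000000000000000000000000000000200000000200000, 0x2c0000000000000, 0xb00000000000000000000000000000000000000000000000000]

/-- The strategy tree of block 2. -/
def t2 : Tr := (.cons 164 169 (.cons 162 165 (.leaf [(144,174),(170,176),(71,143)]) (.cons 165 162 (.leaf [(144,179),(170,176),(71,143)]) (.cons 170 176 (.cons 162 165 (.leaf [(144,174),(71,143)]) (.cons 165 162 (.leaf [(144,179),(71,143)]) (.cons 144 162 (.leaf [(165,179),(71,143)]) (.cons 179 165 (.leaf [(71,143),(144,162)]) (.cons 71 162 (.leaf [(143,179),(144,165)]) (.cons 174 162 (.leaf [(71,143),(144,165)]) (.cons 143 162 (.leaf [(71,179),(144,165)]) .nil))))))) (.cons 176 170 (.cons 162 165 (.leaf [(144,174),(71,143)]) (.cons 165 162 (.leaf [(144,179),(71,143)]) (.cons 144 162 (.leaf [(165,179),(71,143)])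 (.cons 179 165 (.leaf [(71,143),(144,162)]) (.cons 71 162 (.leaf [(143,179),(144,165)]) (.cons 174 162 (.leaf [(71,143),(144,165)]) (.cons 143 162 (.leaf [(71,179),(144,165)]) .nil))))))) (.cons 144 162 (.leaf [(165,179),(170,176),(71,143)]) (.cons 179 165 (.leaf [(71,143),(170,176),(144,162)]) (.cons 71 162 (.leaf [(143,179),(170,176),(144,165)]) (.cons 174 162 (.leaf [(170,176),(71,143),(144,165)]) (.cons 143 162 (.leaf [(71,179),(170,176),(144,165)]) .nil))))))))) (.cons 169 170 (.cons 164 174 (.leaf [(162,165),(71,143),(144,179)]) (.cons 174 164 (.leaf [(144,162),(71,143),(165,179)]) (.cons 162 164 (.leaf [(144,174),(71,143),(165,179)]) (.cons 165 164 (.leaf [(144,179),(71,143),(162,174)]) (.cons 144 174 (.leaf [(165,179),(71,143),(162,164)]) (.cons 179 164 (.leaf [(71,143),(144,165),(162,174)]) (.cons 71 164 (.leaf [(143,179),(144,165),(162,174)]) (.cons 143 164 (.leaf [(71,179),(144,165),(162,174)]) .nil)))))))) (.cons 170 169 (.cons 164 176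 (.cons 162 165 (.leaf [(144,174),(71,143)]) (.cons 165 162 (.leaf [(144,179),(71,143)]) (.cons 144 162 (.leaf [(165,179),(71,143)]) (.cons 179 165 (.leaf [(71,143),(144,162)]) (.cons 71 162 (.leaf [(143,179),(144,165)]) (.cons 174 162 (.leaf [(71,143),(144,165)]) (.cons 143 162 (.leaf [(71,179),(144,165)]) .nil))))))) (.cons 162 164 (.leaf [(144,174),(71,143),(165,179)]) (.cons 165 164 (.leaf [(144,179),(71,143),(162,174)]) (.cons 176 164 (.leaf [(71,143),(144,165),(162,174)]) (.cons 144 162 (.leaf [(164,176),(165,179),(71,143)]) (.cons 179 164 (.leaf [(71,143),(144,165),(162,174)]) (.cons 71 164 (.leaf [(143,179),(144,165),(162,174)]) (.cons 174 162 (.leaf [(164,176),(71,143),(144,165)]) (.cons 143 164 (.leaf [(71,179),(144,165),(162,174)]) .nil))))))))) (.cons 162 164 (.leaf [(144,174),(169,170),(71,143),(165,179)]) (.cons 165 164 (.leaf [(144,179),(169,170),(71,143),(162,174)]) (.cons 174 164 (.leaf [(144,162),(169,170),(71,143),(165,179)]) (.cons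 144 164 (.leaf [(162,174),(165,179),(169,170),(71,143)]) (.cons 179 164 (.leaf [(71,143),(144,165),(169,170),(162,174)]) (.cons 71 164 (.leaf [(143,179),(169,170),(144,165),(162,174)]) (.cons 143 164 (.leaf [(71,179),(169,170),(144,165),(162,174)]) (.cons 176 164 (.leaf [(169,170),(71,143),(144,165),(162,174)]) .nil)))))))))))

/-- The masks of block 2. -/
def m2 : List ℕ := [0x800000000800000000000000000800000000000000000, 0x40040001000000000000000000000000000000000000, 0x800200001000000000000000000000000000000000000, 0x104100000000000000000000000000000000000000000, 0x42100000000000000000000000000000000000000000, 0x340000000000000000000000000000000000000000, 0x6000000000000000000000000000000000000000000]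

/-- The strategy tree of block 3. -/
def t3 : Tr := (.cons 128 210 (.cons 122 35 (.leaf [(17,192),(23,198),(116,140),(11,186)]) (.cons 35 122 (.leaf [(23,198),(11,17),(116,186)]) (.cons 23 198 (.cons 122 35 (.leaf [(17,192),(116,140),(11,186)]) (.cons 35 122 (.leaf [(11,17),(116,186)]) (.cons 11 35 (.leaf [(116,186),(17,192),(122,140)]) (.cons 17 122 (.leaf [(11,35),(116,186)]) (.cons 116 122 (.leaf [(11,186),(17,35)]) (.cons 192 122 (.leaf [(11,116),(17,35)]) (.cons 140 122 (.leaf [(11,116),(17,35)]) (.cons 186 122 (.leaf [(11,116),(17,35)]) .nil)))))))) (.cons 198 23 (.leaf [(35,122),(11,186),(116,140),(17,192)]) (.cons 116 122 (.leaf [(11,186),(23,198),(17,35)]) (.cons 11 122 (.leaf [(23,198),(116,186),(17,35)]) (.cons 17 122 (.leaf [(23,198),(11,35),(116,186)]) (.cons 192 122 (.leaf [(23,198),(11,17),(116,186)]) (.cons 140 122 (.leaf [(23,198),(11,17),(116,186)]) (.cons 186 122 (.leaf [(11,116),(23,198),(17,35)]) .nil)))))))))) (.cons 122 35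 (.cons 128 210 (.leaf [(17,192),(23,198),(116,140),(11,186)]) (.cons 192 17 (.cons 128 210 (.leaf [(23,198),(116,140),(11,186)]) (.cons 210 128 (.leaf [(186,198),(11,116)]) (.cons 198 128 (.leaf [(186,210),(11,116)]) (.cons 116 128 (.leaf [(11,186),(198,210)]) (.cons 186 128 (.leaf [(11,116),(198,210)]) (.cons 11 128 (.leaf [(116,186),(198,210)]) (.cons 140 128 (.leaf [(11,116),(186,198)]) (.cons 23 128 (.leaf [(11,116),(186,198)]) .nil)))))))) (.cons 210 128 (.leaf [(17,192),(11,116),(186,198)]) (.cons 17 192 (.leaf [(128,210),(11,186),(116,140),(23,198)]) (.cons 116 128 (.leaf [(11,186),(17,192),(198,210)]) (.cons 198 128 (.leaf [(17,192),(11,116),(186,210)]) (.cons 186 128 (.leaf [(11,116),(17,192),(198,210)]) (.cons 11 128 (.leaf [(17,192),(116,186),(198,210)]) (.cons 140 128 (.leaf [(17,192),(11,116),(186,198)]) (.cons 23 128 (.leaf [(17,192),(11,116),(186,198)]) .nil)))))))))) (.cons 35 122 (.cons 128 210 (.leaf [(23,198),(11,17),(116,186)])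 (.cons 210 128 (.leaf [(11,116),(17,23),(186,192)]) (.cons 11 128 (.leaf [(17,23),(116,186),(192,198)]) (.cons 23 128 (.leaf [(11,17),(116,186),(192,198)]) (.cons 198 128 (.leaf [(11,116),(17,23),(186,192)]) (.cons 186 128 (.leaf [(11,116),(17,23),(192,198)]) (.cons 17 128 (.leaf [(11,23),(116,186),(192,198)]) (.cons 116 128 (.leaf [(11,186),(17,23),(192,198)]) (.cons 192 128 (.leaf [(11,116),(17,23),(186,198)]) .nil))))))))) (.cons 210 128 (.cons 122 35 (.leaf [(17,192),(11,116),(186,198)]) (.cons 35 122 (.leaf [(11,116),(17,23),(186,192)]) (.cons 192 122 (.leaf [(186,198),(11,116),(17,23)]) (.cons 186 192 (.leaf [(11,116),(35,122),(17,23)]) (.cons 11 35 (.leaf [(116,186),(17,122),(192,198)]) (.cons 17 122 (.leaf [(11,116),(23,35),(186,192)]) (.cons 198 192 (.leaf [(35,122),(11,17),(116,186)]) (.cons 116 186 (.leaf [(35,122),(17,192),(11,23)]) (.cons 23 35 (.leaf [(11,116),(17,122),(186,192)]) .nil))))))))) (.cons 192 122 (.cons 128 210 (.leaf [(23,198),(11,17),(116,186)])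 (.cons 210 128 (.leaf [(186,198),(11,116),(17,23)]) (.cons 198 128 (.leaf [(186,210),(11,116),(17,23)]) (.cons 186 210 (.leaf [(11,116),(17,23),(128,198)]) (.cons 11 128 (.leaf [(116,186),(17,23),(198,210)]) (.cons 23 128 (.leaf [(11,116),(17,35),(186,198)]) (.cons 116 128 (.leaf [(11,186),(198,210),(17,23)]) (.cons 35 128 (.leaf [(11,116),(17,23),(186,198)]) (.cons 17 128 (.leaf [(11,116),(23,35),(186,198)]) .nil))))))))) (.cons 198 128 (.cons 122 35 (.leaf [(17,192),(11,116),(186,210)]) (.cons 35 122 (.leaf [(11,116),(17,23),(186,192)]) (.cons 192 122 (.leaf [(186,210),(11,116),(17,23)]) (.cons 186 192 (.leaf [(11,116),(35,122),(17,23)]) (.cons 11 35 (.leaf [(116,186),(17,122),(192,210)]) (.cons 17 122 (.leaf [(11,116),(23,35),(186,192)]) (.cons 210 192 (.leaf [(35,122),(11,17),(116,186)]) (.cons 116 186 (.leaf [(35,122),(17,192),(11,23)]) (.cons 23 35 (.leaf [(11,116),(17,122),(186,192)]) .nil))))))))) (.cons 11 122 (.cons 128 210 (.leaf [(23,198),(116,186),(17,35)])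 (.cons 210 128 (.leaf [(116,186),(17,23),(192,198)]) (.cons 186 116 (.cons 128 210 (.leaf [(23,198),(17,35)]) (.cons 210 128 (.leaf [(192,198),(17,23)]) (.cons 198 128 (.leaf [(192,210),(17,23)]) (.cons 23 128 (.leaf [(17,35),(192,198)]) (.cons 192 210 (.leaf [(17,35),(23,128)]) (.cons 35 128 (.leaf [(17,23),(192,198)]) (.cons 17 128 (.leaf [(23,35),(192,198)]) .nil))))))) (.cons 116 186 (.leaf [(128,210),(17,35),(23,198)]) (.cons 23 128 (.leaf [(17,35),(116,186),(192,198)]) (.cons 198 128 (.leaf [(116,186),(17,23),(192,210)]) (.cons 35 128 (.leaf [(17,23),(116,186),(192,198)]) (.cons 17 128 (.leaf [(23,35),(116,186),(192,198)]) (.cons 192 128 (.leaf [(116,186),(17,23),(198,210)]) .nil))))))))) (.cons 17 122 (.cons 128 210 (.leaf [(23,198),(11,35),(116,186)]) (.cons 210 128 (.leaf [(11,116),(23,35),(186,192)]) (.cons 11 128 (.leaf [(23,35),(116,186),(192,198)]) (.cons 23 128 (.leaf [(11,35),(116,186),(192,198)]) (.cons 198 128 (.leaf [(11,116),(23,35),(186,192)])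 (.cons 186 128 (.leaf [(11,116),(23,35),(192,198)]) (.cons 35 128 (.leaf [(11,23),(116,186),(192,198)]) (.cons 116 128 (.leaf [(11,186),(23,35),(192,198)]) (.cons 192 128 (.leaf [(11,116),(23,35),(186,198)]) .nil))))))))) (.cons 116 128 (.cons 122 35 (.leaf [(11,186),(17,192),(198,210)]) (.cons 35 122 (.leaf [(11,186),(17,23),(192,198)]) (.cons 186 11 (.leaf [(35,122),(17,192),(198,210)]) (.cons 11 186 (.cons 35 122 (.leaf [(17,23)]) (.cons 122 35 (.leaf [(17,192)]) (.cons 17 35 (.leaf [(122,192)]) (.cons 192 122 (.leaf [(17,23)]) (.cons 23 35 (.leaf [(17,122)]) .nil))))) (.cons 192 122 (.leaf [(11,186),(198,210),(17,23)]) (.cons 17 122 (.leaf [(11,186),(23,35),(192,198)]) (.cons 198 186 (.leaf [(35,122),(17,192),(11,23)]) (.cons 210 186 (.leaf [(35,122),(17,192),(11,23)]) (.cons 23 35 (.leaf [(11,186),(17,122),(192,198)]) .nil))))))))) (.cons 23 128 (.cons 35 122 (.leaf [(11,17),(116,186),(192,198)]) (.cons 122 35 (.leaf [(17,192),(11,116),(186,198)])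 (.cons 11 35 (.leaf [(116,186),(17,122),(192,198)]) (.cons 17 35 (.leaf [(122,192),(11,116),(186,198)]) (.cons 192 122 (.leaf [(11,116),(17,35),(186,198)]) (.cons 186 35 (.leaf [(11,116),(17,122),(192,198)]) (.cons 116 35 (.leaf [(11,186),(17,122),(192,198)]) (.cons 198 35 (.leaf [(11,116),(17,122),(186,192)]) (.cons 210 35 (.leaf [(11,116),(17,122),(186,192)]) .nil))))))))) (.cons 186 128 (.cons 122 35 (.leaf [(11,116),(17,192),(198,210)]) (.cons 35 122 (.leaf [(11,116),(17,23),(192,198)]) (.cons 11 116 (.cons 35 122 (.leaf [(17,23),(192,198)]) (.cons 122 35 (.leaf [(17,192),(198,210)]) (.cons 192 122 (.leaf [(198,210),(17,23)]) (.cons 17 35 (.leaf [(122,192),(198,210)]) (.cons 210 192 (.leaf [(35,122),(17,23)]) (.cons 198 192 (.leaf [(35,122),(17,23)]) (.cons 23 35 (.leaf [(17,122),(192,198)]) .nil))))))) (.cons 192 122 (.leaf [(11,116),(198,210),(17,23)]) (.cons 116 11 (.leaf [(35,122),(17,192),(198,210)]) (.cons 17 122 (.leaf [(11,116),(23,35),(192,198)])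 (.cons 198 192 (.leaf [(11,116),(35,122),(17,23)]) (.cons 210 192 (.leaf [(11,116),(35,122),(17,23)]) (.cons 23 35 (.leaf [(11,116),(17,122),(192,198)]) .nil))))))))) (.cons 140 128 (.leaf [(35,122),(11,23),(116,186),(17,192),(198,210)]) .nil))))))))))))

/-- The masks of block 3. -/
def m3 : List ℕ := [0x800820800, 0x40000000000000000000100000000000000000000000000000000, 0x40000000000000000100000000000000000000000000800, 0x1000000000000000004000000000000000000000000020000, 0x40000000000000000100000000000000000000000000800000, 0x4000000000000000000000800000000, 0x100104100000000000000000000000000000, 0x40041040000000000000000000000000000000000000000000000]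

/-- The strategy tree of block 4. -/
def t4 : Tr := (.cons 42 36 (.cons 150 78 (.leaf [(0,168),(90,180),(151,163),(152,155)]) (.cons 78 150 (.leaf [(0,168),(72,90),(151,163)]) (.cons 151 163 (.cons 150 78 (.leaf [(0,168),(90,180),(152,155)]) (.cons 78 150 (.leaf [(0,168),(72,90)]) (.cons 0 168 (.cons 150 78 (.leaf [(90,180),(152,155)]) (.cons 78 150 (.leaf [(72,90)]) (.cons 90 150 (.leaf [(72,78)]) (.cons 180 150 (.leaf [(72,78)]) (.cons 72 150 (.leaf [(78,90)]) (.cons 155 150 (.leaf [(72,78)]) (.cons 152 150 (.leaf [(72,78)]) .nil))))))) (.cons 168 0 (.cons 150 78 (.leaf [(90,180),(152,155)]) (.cons 78 150 (.leaf [(72,90)]) (.cons 90 150 (.leaf [(72,78)]) (.cons 180 150 (.leaf [(72,78)]) (.cons 72 150 (.leaf [(78,90)]) (.cons 155 150 (.leaf [(72,78)]) (.cons 152 150 (.leaf [(72,78)]) .nil))))))) (.cons 90 150 (.leaf [(0,168),(72,78)]) (.cons 72 78 (.leaf [(0,168),(90,180),(150,152)]) (.cons 180 150 (.leaf [(0,168),(72,78)]) (.cons 152 150 (.leaf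 [(0,168),(72,78)]) (.cons 155 150 (.leaf [(0,168),(72,78)]) .nil))))))))) (.cons 0 168 (.cons 150 78 (.leaf [(90,180),(151,163),(152,155)]) (.cons 78 150 (.leaf [(72,90),(151,163)]) (.cons 151 163 (.cons 150 78 (.leaf [(90,180),(152,155)]) (.cons 78 150 (.leaf [(72,90)]) (.cons 90 150 (.leaf [(72,78)]) (.cons 180 150 (.leaf [(72,78)]) (.cons 72 150 (.leaf [(78,90)]) (.cons 155 150 (.leaf [(72,78)]) (.cons 152 150 (.leaf [(72,78)]) .nil))))))) (.cons 163 151 (.cons 150 78 (.leaf [(90,180)]) (.cons 78 150 (.leaf [(72,90)]) (.cons 90 150 (.leaf [(72,78)]) (.cons 180 150 (.leaf [(72,78)]) (.cons 72 78 (.leaf [(90,150)]) .nil))))) (.cons 90 150 (.leaf [(72,78),(151,163)]) (.cons 72 78 (.leaf [(151,163),(90,180),(150,152)]) (.cons 180 150 (.leaf [(151,163),(72,78)]) (.cons 152 150 (.leaf [(151,163),(72,78)]) (.cons 155 150 (.leaf [(151,163),(72,78)]) .nil))))))))) (.cons 163 151 (.cons 78 150 (.leaf [(0,168),(72,90)]) (.cons 150 78 (.leaf [(0,168),(90,180)])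 (.cons 0 168 (.cons 150 78 (.leaf [(90,180)]) (.cons 78 150 (.leaf [(72,90)]) (.cons 90 150 (.leaf [(72,78)]) (.cons 180 150 (.leaf [(72,78)]) (.cons 72 78 (.leaf [(90,150)]) .nil))))) (.cons 168 0 (.cons 150 78 (.leaf [(90,180)]) (.cons 78 150 (.leaf [(72,90)]) (.cons 90 150 (.leaf [(72,78)]) (.cons 180 150 (.leaf [(72,78)]) (.cons 72 78 (.leaf [(90,150)]) .nil))))) (.cons 90 150 (.leaf [(0,168),(72,78)]) (.cons 72 78 (.leaf [(0,168),(90,150)]) (.cons 180 150 (.leaf [(0,168),(72,78)]) .nil))))))) (.cons 168 0 (.cons 150 78 (.leaf [(90,180),(151,163),(152,155)]) (.cons 78 150 (.leaf [(72,90),(151,163)]) (.cons 151 163 (.cons 150 78 (.leaf [(90,180),(152,155)]) (.cons 78 150 (.leaf [(72,90)]) (.cons 90 150 (.leaf [(72,78)]) (.cons 180 150 (.leaf [(72,78)]) (.cons 72 150 (.leaf [(78,90)]) (.cons 155 150 (.leaf [(72,78)]) (.cons 152 150 (.leaf [(72,78)]) .nil))))))) (.cons 163 151 (.cons 150 78 (.leaf [(90,180)]) (.cons 78 150 (.leaf [(72,90)]) (.cons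 90 150 (.leaf [(72,78)]) (.cons 180 150 (.leaf [(72,78)]) (.cons 72 78 (.leaf [(90,150)]) .nil))))) (.cons 90 150 (.leaf [(72,78),(151,163)]) (.cons 72 78 (.leaf [(151,163),(90,180),(150,152)]) (.cons 180 150 (.leaf [(151,163),(72,78)]) (.cons 152 150 (.leaf [(151,163),(72,78)]) (.cons 155 150 (.leaf [(151,163),(72,78)]) .nil))))))))) (.cons 90 150 (.leaf [(0,168),(72,78),(151,163)]) (.cons 72 78 (.leaf [(0,168),(151,163),(90,180),(150,152)]) (.cons 180 150 (.leaf [(0,168),(151,163),(72,78)]) (.cons 152 150 (.leaf [(0,168),(151,163),(72,78)]) (.cons 155 150 (.leaf [(0,168),(151,163),(72,78)]) .nil))))))))))) (.cons 36 42 (.leaf [(151,163),(0,180),(72,78),(90,150),(152,155)]) (.cons 150 42 (.leaf [(90,180),(151,163),(72,78),(152,155),(0,36)]) (.cons 151 163 (.cons 42 36 (.cons 150 78 (.leaf [(0,168),(90,180),(152,155)]) (.cons 78 150 (.leaf [(0,168),(72,90)]) (.cons 0 168 (.cons 150 78 (.leaf [(90,180),(152,155)]) (.cons 78 150 (.leaf [(72,90)]) (.cons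 90 150 (.leaf [(72,78)]) (.cons 180 150 (.leaf [(72,78)]) (.cons 72 150 (.leaf [(78,90)]) (.cons 155 150 (.leaf [(72,78)]) (.cons 152 150 (.leaf [(72,78)]) .nil))))))) (.cons 168 0 (.cons 150 78 (.leaf [(90,180),(152,155)]) (.cons 78 150 (.leaf [(72,90)]) (.cons 90 150 (.leaf [(72,78)]) (.cons 180 150 (.leaf [(72,78)]) (.cons 72 150 (.leaf [(78,90)]) (.cons 155 150 (.leaf [(72,78)]) (.cons 152 150 (.leaf [(72,78)]) .nil))))))) (.cons 90 150 (.leaf [(0,168),(72,78)]) (.cons 72 78 (.leaf [(0,168),(90,180),(150,152)]) (.cons 180 150 (.leaf [(0,168),(72,78)]) (.cons 152 150 (.leaf [(0,168),(72,78)]) (.cons 155 150 (.leaf [(0,168),(72,78)]) .nil))))))))) (.cons 150 42 (.leaf [(90,180),(152,155),(72,78),(0,36)]) (.cons 36 42 (.leaf [(0,180),(72,78),(90,150),(152,155)]) (.cons 78 42 (.leaf [(72,90),(150,180),(152,155),(0,36)]) (.cons 90 42 (.leaf [(72,78),(150,180),(152,155),(0,36)]) (.cons 0 42 (.leaf [(36,180),(72,78),(90,150),(152,155)]) (.cons 72 42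 (.leaf [(78,90),(0,36),(150,180),(152,155)]) (.cons 180 42 (.leaf [(90,150),(0,36),(72,78),(152,155)]) (.cons 168 42 (.leaf [(72,78),(90,180),(150,152),(0,36)]) (.cons 152 42 (.leaf [(150,155),(72,78),(90,180),(0,36)]) (.cons 155 42 (.leaf [(150,152),(72,78),(90,180),(0,36)]) .nil))))))))))) (.cons 163 151 (.cons 42 36 (.cons 78 150 (.leaf [(0,168),(72,90)]) (.cons 150 78 (.leaf [(0,168),(90,180)]) (.cons 0 168 (.cons 150 78 (.leaf [(90,180)]) (.cons 78 150 (.leaf [(72,90)]) (.cons 90 150 (.leaf [(72,78)]) (.cons 180 150 (.leaf [(72,78)]) (.cons 72 78 (.leaf [(90,150)]) .nil))))) (.cons 168 0 (.cons 150 78 (.leaf [(90,180)]) (.cons 78 150 (.leaf [(72,90)]) (.cons 90 150 (.leaf [(72,78)]) (.cons 180 150 (.leaf [(72,78)]) (.cons 72 78 (.leaf [(90,150)]) .nil))))) (.cons 90 150 (.leaf [(0,168),(72,78)]) (.cons 72 78 (.leaf [(0,168),(90,150)]) (.cons 180 150 (.leaf [(0,168),(72,78)]) .nil))))))) (.cons 36 42 (.leaf [(0,180),(72,78),(90,150)]) (.cons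 78 42 (.leaf [(72,90),(150,180),(0,36)]) (.cons 150 42 (.leaf [(90,180),(72,78),(0,36)]) (.cons 90 42 (.leaf [(72,78),(150,180),(0,36)]) (.cons 0 42 (.leaf [(36,180),(72,78),(90,150)]) (.cons 72 42 (.leaf [(78,90),(0,36),(150,180)]) (.cons 180 42 (.leaf [(90,150),(0,36),(72,78)]) (.cons 168 42 (.leaf [(72,78),(90,150),(0,36)]) .nil))))))))) (.cons 78 42 (.leaf [(72,90),(151,163),(150,180),(0,36),(152,155)]) (.cons 90 42 (.leaf [(72,78),(150,180),(151,163),(0,36),(152,155)]) (.cons 0 42 (.leaf [(151,163),(36,180),(72,78),(90,150),(152,155)]) (.cons 72 42 (.leaf [(78,90),(151,163),(0,36),(150,180),(152,155)]) (.cons 180 42 (.leaf [(90,150),(151,163),(0,36),(72,78),(152,155)]) (.cons 168 42 (.leaf [(151,163),(72,78),(90,180),(150,152),(0,36)]) (.cons 152 42 (.leaf [(151,163),(72,78),(90,180),(150,155),(0,36)]) (.cons 155 42 (.leaf [(151,163),(72,78),(90,180),(150,152),(0,36)]) .nil)))))))))))))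

/-- The masks of block 4. -/
def m4 : List ℕ := [0x1000000000000000000000000001000000001000000001, 0x1000000000000000000000000000000040000000001, 0x40000000000000000040000000040000000000, 0x1000000040000000000000040000000000000000000000, 0x41000000000, 0x40041000000000000000000, 0x80080000000000000000000000000000000000000, 0x9c0000000000000000000000000000000000000]

/-- The strategy tree of block 5. -/
def t5 : Tr := (.cons 87 99 (.cons 123 51 (.cons 121 120 (.cons 181 61 (.leaf [(184,185),(30,66)]) (.cons 61 181 (.leaf [(30,185),(66,102)]) (.cons 185 181 (.leaf [(30,61),(66,102)]) (.cons 30 61 (.leaf [(66,102),(181,184)]) (.cons 66 181 (.leaf [(30,102),(61,185)]) (.cons 102 181 (.leaf [(30,66),(61,185)]) (.cons 184 181 (.leaf [(30,66),(61,185)]) .nil))))))) (.cons 181 121 (.leaf [(184,185),(30,61),(66,102)]) (.cons 120 121 (.leaf [(30,66),(61,185),(181,184)]) (.cons 185 181 (.leaf [(30,61),(120,121),(66,102)]) (.cons 61 121 (.leaf [(30,185),(66,102),(181,184)])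 (.cons 30 185 (.leaf [(66,102),(120,121),(61,181)]) (.cons 66 121 (.leaf [(30,102),(61,185),(181,184)]) (.cons 102 121 (.leaf [(30,66),(61,185),(181,184)]) (.cons 184 121 (.leaf [(181,185),(30,61),(66,102)]) .nil))))))))) (.cons 51 123 (.leaf [(61,66),(30,102),(121,181),(184,185)]) (.cons 61 123 (.leaf [(51,66),(121,181),(30,102),(184,185)]) (.cons 66 123 (.leaf [(30,102),(51,61),(121,181),(184,185)]) (.cons 181 123 (.leaf [(61,121),(184,185),(30,102),(51,66)]) (.cons 121 123 (.leaf [(61,181),(30,102),(51,66),(184,185)]) (.cons 185 123 (.leaf [(181,184),(30,102),(51,66),(61,121)]) (.cons 30 123 (.leaf [(66,102),(51,61),(121,181),(184,185)]) (.cons 102 123 (.leaf [(30,66),(51,61),(121,181),(184,185)]) (.cons 184 123 (.leaf [(181,185),(30,102),(51,66),(61,121)]) (.cons 120 123 (.leaf [(30,102),(51,66),(61,121),(181,184)]) .nil))))))))))) (.cons 123 51 (.cons 121 120 (.cons 181 61 (.leaf [(87,99),(184,185),(30,66)]) (.cons 61 181 (.leaf [(30,185),(87,99),(66,102)])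 (.cons 99 87 (.cons 181 61 (.leaf [(184,185),(30,66)]) (.cons 61 181 (.leaf [(30,185),(66,102)]) (.cons 185 181 (.leaf [(30,61),(66,102)]) (.cons 30 61 (.leaf [(66,102),(181,184)]) (.cons 66 181 (.leaf [(30,102),(61,185)]) (.cons 102 181 (.leaf [(30,66),(61,185)]) (.cons 184 181 (.leaf [(30,66),(61,185)]) .nil))))))) (.cons 87 99 (.cons 181 61 (.leaf [(184,185),(30,66)]) (.cons 61 181 (.leaf [(30,185),(66,102)]) (.cons 185 181 (.leaf [(30,61),(66,102)]) (.cons 30 61 (.leaf [(66,102),(181,184)]) (.cons 66 181 (.leaf [(30,102),(61,185)]) (.cons 102 181 (.leaf [(30,66),(61,185)]) (.cons 184 181 (.leaf [(30,66),(61,185)]) .nil))))))) (.cons 185 181 (.leaf [(30,61),(87,99),(66,102)]) (.cons 30 61 (.leaf [(66,102),(87,99),(181,184)]) (.cons 66 181 (.leaf [(30,102),(87,99),(61,185)]) (.cons 102 181 (.leaf [(30,66),(87,99),(61,185)]) (.cons 184 181 (.leaf [(87,99),(30,66),(61,185)]) .nil))))))))) (.cons 99 87 (.cons 121 120 (.cons 181 61 (.leaf [(184,185),(30,66)])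 (.cons 61 181 (.leaf [(30,185),(66,102)]) (.cons 185 181 (.leaf [(30,61),(66,102)]) (.cons 30 61 (.leaf [(66,102),(181,184)]) (.cons 66 181 (.leaf [(30,102),(61,185)]) (.cons 102 181 (.leaf [(30,66),(61,185)]) (.cons 184 181 (.leaf [(30,66),(61,185)]) .nil))))))) (.cons 181 121 (.leaf [(184,185),(30,61),(66,102)]) (.cons 120 121 (.leaf [(30,66),(61,185),(181,184)]) (.cons 185 181 (.leaf [(30,61),(120,121),(66,102)]) (.cons 61 121 (.leaf [(30,185),(66,102),(181,184)]) (.cons 30 185 (.leaf [(66,102),(120,121),(61,181)]) (.cons 66 121 (.leaf [(30,102),(61,185),(181,184)]) (.cons 102 121 (.leaf [(30,66),(61,185),(181,184)]) (.cons 184 121 (.leaf [(181,185),(30,61),(66,102)]) .nil))))))))) (.cons 181 121 (.leaf [(87,99),(184,185),(30,61),(66,102)]) (.cons 87 99 (.cons 121 120 (.cons 181 61 (.leaf [(184,185),(30,66)]) (.cons 61 181 (.leaf [(30,185),(66,102)]) (.cons 185 181 (.leaf [(30,61),(66,102)]) (.cons 30 61 (.leaf [(66,102),(181,184)]) (.cons 66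 181 (.leaf [(30,102),(61,185)]) (.cons 102 181 (.leaf [(30,66),(61,185)]) (.cons 184 181 (.leaf [(30,66),(61,185)]) .nil))))))) (.cons 181 121 (.leaf [(184,185),(30,61),(66,102)]) (.cons 120 121 (.leaf [(30,66),(61,185),(181,184)]) (.cons 185 181 (.leaf [(30,61),(120,121),(66,102)]) (.cons 61 121 (.leaf [(30,185),(66,102),(181,184)]) (.cons 30 185 (.leaf [(66,102),(120,121),(61,181)]) (.cons 66 121 (.leaf [(30,102),(61,185),(181,184)]) (.cons 102 121 (.leaf [(30,66),(61,185),(181,184)]) (.cons 184 121 (.leaf [(181,185),(30,61),(66,102)]) .nil))))))))) (.cons 120 121 (.leaf [(87,99),(30,66),(61,185),(181,184)]) (.cons 185 181 (.leaf [(30,61),(87,99),(120,121),(66,102)]) (.cons 61 121 (.leaf [(30,185),(87,99),(66,102),(181,184)]) (.cons 30 185 (.leaf [(66,102),(87,99),(120,121),(61,181)]) (.cons 66 121 (.leaf [(30,102),(87,99),(61,185),(181,184)]) (.cons 102 121 (.leaf [(30,66),(87,99),(61,185),(181,184)]) (.cons 184 121 (.leaf [(87,99),(181,185),(30,61),(66,102)])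 .nil))))))))))) (.cons 61 123 (.leaf [(51,66),(87,99),(121,181),(30,102),(184,185)]) (.cons 66 61 (.leaf [(30,102),(87,99),(51,123),(120,121),(181,184)]) (.cons 99 87 (.cons 61 181 (.leaf [(51,66),(30,102),(123,185),(120,121)]) (.cons 66 61 (.leaf [(30,102),(120,121),(181,184)]) (.cons 181 61 (.leaf [(184,185),(30,66),(120,121)]) (.cons 121 61 (.leaf [(120,123),(30,66),(181,184)]) (.cons 185 181 (.leaf [(30,123),(51,61),(66,102),(120,121)]) (.cons 123 121 (.leaf [(30,185),(51,61),(66,102),(181,184)]) (.cons 30 61 (.leaf [(66,102),(120,121),(181,184)]) (.cons 102 66 (.leaf [(30,61),(121,181),(120,123),(184,185)]) (.cons 51 61 (.leaf [(30,66),(120,121),(181,184)]) (.cons 184 181 (.leaf [(30,123),(66,102),(51,61),(120,121)]) (.cons 120 121 (.leaf [(30,123),(66,102),(51,61),(181,184)]) .nil))))))))))) (.cons 51 123 (.leaf [(61,66),(87,99),(30,102),(121,181),(184,185)]) (.cons 181 61 (.leaf [(87,99),(184,185),(30,66),(51,123),(120,121)]) (.cons 121 123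 (.leaf [(61,181),(87,99),(30,102),(51,66),(184,185)]) (.cons 185 123 (.leaf [(87,99),(181,184),(30,102),(51,66),(61,121)]) (.cons 30 123 (.leaf [(66,102),(87,99),(51,61),(121,181),(184,185)]) (.cons 102 123 (.leaf [(30,66),(87,99),(51,61),(121,181),(184,185)]) (.cons 184 123 (.leaf [(87,99),(181,185),(30,102),(51,66),(61,121)]) (.cons 120 123 (.leaf [(87,99),(30,102),(51,66),(61,121),(181,184)]) .nil)))))))))))))

/-- The masks of block 5. -/
def m5 : List ℕ := [0x8000000008000000008000000000000, 0x20000000000000008000000000000002000000040000000, 0x40000000040000000040000000, 0x2000000000000002000000000000002000000000000000, 0x42008000000000000, 0x8008000000000000000000000, 0xb000000000000000000000000000000, 0x32000000000000000000000000000000000000000000000]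

/-- The strategy tree of block 6. -/
def t6 : Tr := (.cons 37 74 (.cons 41 149 (.leaf [(38,40),(109,145),(76,148),(75,110)]) (.cons 145 109 (.cons 40 41 (.leaf [(75,110),(76,148),(146,149)]) (.cons 41 149 (.leaf [(38,40),(75,110),(76,148)]) (.cons 149 41 (.leaf [(146,148),(40,76),(75,110)]) (.cons 148 149 (.leaf [(40,76),(38,41),(75,110)]) (.cons 38 40 (.leaf [(41,149),(146,148)]) (.cons 75 40 (.leaf [(41,149),(146,148)]) (.cons 76 40 (.leaf [(41,149),(146,148)]) (.cons 110 40 (.leaf [(41,149),(146,148)]) (.cons 146 149 (.leaf [(38,41),(40,76),(75,110)]) .nil))))))))) (.cons 40 41 (.leaf [(76,148),(109,145),(75,110),(146,149)]) (.cons 149 41 (.leaf [(109,145),(40,76),(146,148),(75,110)]) (.cons 109 145 (.leaf [(41,149),(38,40),(76,148)]) (.cons 148 41 (.leaf [(40,76),(109,145),(146,149),(75,110)]) (.cons 38 41 (.leaf [(109,145),(40,76),(146,148),(75,110)]) (.cons 76 40 (.leaf [(41,149),(109,145),(146,148)]) (.cons 75 145 (.leaf [(41,149),(38,40),(76,148)])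 (.cons 110 145 (.leaf [(41,149),(38,40),(76,148)]) (.cons 146 145 (.leaf [(41,149),(38,40),(76,148)]) .nil))))))))))) (.cons 41 149 (.cons 37 40 (.leaf [(74,148),(109,145),(75,76),(38,110)]) (.cons 40 37 (.leaf [(76,148),(74,75),(110,145),(38,146)]) (.cons 74 37 (.leaf [(75,76),(38,146),(110,145),(40,148)]) (.cons 76 40 (.leaf [(74,75),(37,148),(109,145),(38,110)]) (.cons 148 37 (.leaf [(40,76),(74,75),(38,146),(110,145)]) (.cons 38 37 (.leaf [(40,145),(76,148),(74,75),(110,146)]) (.cons 75 74 (.leaf [(37,38),(40,110),(109,145),(76,148)]) (.cons 145 37 (.leaf [(40,110),(74,75),(76,148),(38,146)]) (.cons 109 37 (.leaf [(40,110),(76,148),(74,75),(38,146)]) (.cons 110 37 (.leaf [(38,146),(74,75),(40,145),(76,148)]) (.cons 146 37 (.leaf [(38,110),(74,75),(40,145),(76,148)]) .nil))))))))))) (.cons 74 37 (.cons 76 75 (.leaf [(40,148),(41,149),(38,110),(145,146)]) (.cons 75 76 (.leaf [(41,149),(38,146),(40,110),(145,148)]) (.cons 149 41 (.cons 76 75 (.leaf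 [(40,148),(38,110),(145,146)]) (.cons 75 76 (.leaf [(38,146),(40,110),(145,148)]) (.cons 146 76 (.leaf [(38,110),(145,148),(40,75)]) (.cons 148 76 (.leaf [(145,146),(38,110),(40,75)]) (.cons 40 76 (.leaf [(38,146),(75,110),(145,148)]) (.cons 110 75 (.leaf [(38,146),(40,76),(145,148)]) (.cons 145 75 (.leaf [(146,148),(38,110),(40,76)]) (.cons 38 76 (.leaf [(110,146),(145,148),(40,75)]) .nil)))))))) (.cons 41 149 (.leaf [(75,76),(38,146),(110,145),(40,148)]) (.cons 40 76 (.leaf [(41,149),(38,146),(75,110),(145,148)]) (.cons 110 75 (.leaf [(38,146),(41,149),(40,76),(145,148)]) (.cons 146 76 (.leaf [(38,110),(41,149),(145,148),(40,75)]) (.cons 148 76 (.leaf [(41,149),(38,110),(145,146),(40,75)]) (.cons 38 76 (.leaf [(41,149),(110,146),(40,75),(145,148)]) (.cons 145 75 (.leaf [(41,149),(38,110),(40,76),(146,148)]) .nil)))))))))) (.cons 148 74 (.cons 40 76 (.cons 41 149 (.leaf [(37,38),(109,145),(75,110)]) (.cons 145 149 (.leaf [(37,109),(75,110),(38,41)])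 (.cons 149 41 (.leaf [(145,146),(37,109),(75,110)]) (.cons 37 41 (.leaf [(109,145),(75,110),(146,149)]) (.cons 38 41 (.leaf [(37,109),(75,110),(145,146)]) (.cons 75 145 (.leaf [(41,149),(37,38)]) (.cons 109 145 (.leaf [(41,149),(37,38)]) (.cons 110 145 (.leaf [(41,149),(37,38)]) (.cons 146 145 (.leaf [(41,149),(37,38)]) .nil))))))))) (.cons 149 41 (.leaf [(40,76),(145,146),(37,109),(75,110)]) (.cons 41 149 (.leaf [(40,76),(37,38),(109,145),(75,110)]) (.cons 145 149 (.leaf [(37,109),(40,76),(75,110),(38,41)]) (.cons 76 40 (.leaf [(41,149),(37,109),(145,146)]) (.cons 37 41 (.leaf [(40,76),(109,145),(146,149),(75,110)]) (.cons 109 145 (.leaf [(40,76),(41,149),(37,38)]) (.cons 146 149 (.leaf [(40,76),(37,38),(109,145),(75,110)]) (.cons 38 40 (.leaf [(41,149),(37,109),(145,146)]) (.cons 75 40 (.leaf [(41,149),(37,109),(145,146)]) (.cons 110 40 (.leaf [(41,149),(37,109),(145,146)]) .nil))))))))))) (.cons 149 41 (.cons 148 74 (.leaf [(40,76),(145,146),(37,109),(75,110)])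 (.cons 74 148 (.leaf [(75,76),(37,109),(38,146),(40,110)]) (.cons 145 148 (.leaf [(37,109),(40,110),(75,76),(38,74)]) (.cons 37 148 (.leaf [(109,145),(74,76),(40,75),(38,110)]) (.cons 76 148 (.leaf [(74,75),(37,109),(38,146),(40,110)]) (.cons 40 148 (.leaf [(37,109),(38,74),(75,76),(110,145)]) (.cons 75 74 (.leaf [(37,109),(40,110),(76,148),(145,146)]) (.cons 146 148 (.leaf [(37,109),(38,110),(74,76),(40,75)]) (.cons 109 145 (.leaf [(37,148),(74,75),(40,76),(38,110)]) (.cons 110 74 (.leaf [(37,109),(40,75),(145,146),(76,148)]) (.cons 38 74 (.leaf [(37,109),(40,75),(76,148),(145,146)]) .nil))))))))))) (.cons 40 37 (.cons 76 148 (.leaf [(41,149),(74,75),(110,145),(38,146)]) (.cons 148 76 (.leaf [(41,149),(75,110),(145,146),(38,74)]) (.cons 149 41 (.cons 76 148 (.leaf [(74,75),(110,145),(38,146)]) (.cons 148 76 (.leaf [(145,146),(75,110),(38,74)]) (.cons 75 76 (.leaf [(110,145),(146,148),(38,74)]) (.cons 145 148 (.leaf [(75,110),(74,76),(38,146)]) (.cons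 74 76 (.leaf [(38,146),(75,110),(145,148)]) (.cons 110 75 (.leaf [(76,148),(38,74),(145,146)]) (.cons 146 148 (.leaf [(38,110),(74,76),(75,145)]) (.cons 38 76 (.leaf [(74,146),(75,110),(145,148)]) .nil)))))))) (.cons 41 149 (.leaf [(76,148),(74,75),(110,145),(38,146)]) (.cons 75 76 (.leaf [(41,149),(110,145),(38,74),(146,148)]) (.cons 74 76 (.leaf [(41,149),(38,146),(75,110),(145,148)]) (.cons 110 75 (.leaf [(41,149),(76,148),(38,74),(145,146)]) (.cons 145 76 (.leaf [(41,149),(75,110),(146,148),(38,74)]) (.cons 146 76 (.leaf [(41,149),(38,74),(75,110),(145,148)]) (.cons 38 76 (.leaf [(41,149),(74,146),(75,110),(145,148)]) .nil)))))))))) (.cons 76 74 (.cons 40 148 (.leaf [(41,149),(37,38),(109,145),(75,110)]) (.cons 41 149 (.leaf [(40,148),(37,38),(109,145),(75,110)]) (.cons 148 40 (.leaf [(41,149),(37,109),(145,146)]) (.cons 149 41 (.leaf [(40,148),(37,109),(145,146),(75,110)]) (.cons 145 40 (.leaf [(37,109),(41,149),(146,148)]) (.cons 37 40 (.leaf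 [(41,149),(109,145),(146,148)]) (.cons 109 40 (.leaf [(37,145),(41,149),(146,148)]) (.cons 38 40 (.leaf [(41,149),(37,109),(145,146)]) (.cons 75 40 (.leaf [(41,149),(37,109),(145,146)]) (.cons 110 40 (.leaf [(41,149),(37,109),(145,146)]) (.cons 146 40 (.leaf [(41,149),(37,109),(145,148)]) .nil))))))))))) (.cons 145 74 (.cons 149 41 (.leaf [(37,109),(146,148),(40,76),(75,110)]) (.cons 37 109 (.cons 40 41 (.leaf [(75,110),(76,148),(146,149)]) (.cons 41 149 (.leaf [(38,40),(75,110),(76,148)]) (.cons 149 41 (.leaf [(146,148),(40,76),(75,110)]) (.cons 148 149 (.leaf [(40,76),(38,41),(75,110)]) (.cons 38 40 (.leaf [(41,149),(146,148)]) (.cons 75 40 (.leaf [(41,149),(146,148)]) (.cons 76 40 (.leaf [(41,149),(146,148)]) (.cons 110 40 (.leaf [(41,149),(146,148)]) (.cons 146 149 (.leaf [(38,41),(40,76),(75,110)]) .nil))))))))) (.cons 40 41 (.leaf [(37,109),(75,110),(76,148),(146,149)]) (.cons 41 149 (.leaf [(37,109),(38,40),(75,110),(76,148)]) (.cons 109 37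 (.leaf [(41,149),(40,76),(75,110),(146,148)]) (.cons 148 149 (.leaf [(37,109),(40,76),(75,110),(38,41)]) (.cons 75 40 (.leaf [(37,109),(41,149),(146,148)]) (.cons 76 40 (.leaf [(37,109),(41,149),(146,148)]) (.cons 110 40 (.leaf [(37,109),(41,149),(146,148)]) (.cons 146 149 (.leaf [(37,109),(38,40),(75,110),(76,148)]) (.cons 38 37 (.leaf [(41,149),(40,76),(75,110),(146,148)]) .nil))))))))))) (.cons 75 74 (.cons 40 145 (.leaf [(41,149),(76,148),(37,38)]) (.cons 41 149 (.leaf [(37,38),(40,110),(109,145),(76,148)]) (.cons 145 40 (.leaf [(37,109),(41,149),(146,148)]) (.cons 149 41 (.leaf [(37,109),(40,110),(76,148),(145,146)]) (.cons 37 145 (.leaf [(41,149),(38,40),(76,148)]) (.cons 148 40 (.leaf [(41,149),(37,109),(145,146)]) (.cons 76 40 (.leaf [(41,149),(37,109),(145,146)]) (.cons 109 145 (.leaf [(41,149),(40,76),(37,38)]) (.cons 110 40 (.leaf [(41,149),(37,109),(145,146)]) (.cons 38 40 (.leaf [(41,149),(37,109),(145,146)]) (.cons 146 145 (.leaf [(41,149),(40,76),(37,38)])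 .nil))))))))))) (.cons 38 41 (.cons 74 148 (.leaf [(75,76),(110,146),(37,109),(40,145)]) (.cons 148 74 (.leaf [(40,76),(37,109),(145,146),(75,110)]) (.cons 37 74 (.leaf [(109,145),(40,76),(146,148),(75,110)]) (.cons 76 74 (.leaf [(40,148),(37,109),(75,110),(145,146)]) (.cons 145 74 (.leaf [(37,109),(40,76),(75,110),(146,148)]) (.cons 40 148 (.leaf [(37,109),(74,76),(75,145),(110,146)]) (.cons 75 74 (.leaf [(37,109),(40,110),(76,148),(145,146)]) (.cons 110 74 (.leaf [(37,109),(40,75),(145,146),(76,148)]) (.cons 146 74 (.leaf [(37,109),(40,75),(76,148),(145,149)]) (.cons 109 74 (.leaf [(37,145),(40,76),(146,148),(75,110)]) (.cons 149 74 (.leaf [(37,109),(40,75),(76,148),(145,146)]) .nil))))))))))) (.cons 109 74 (.cons 145 37 (.leaf [(41,149),(40,76),(75,110),(146,148)]) (.cons 37 145 (.leaf [(41,149),(38,40),(76,148)]) (.cons 41 149 (.leaf [(37,145),(38,40),(76,148),(75,110)]) (.cons 149 41 (.leaf [(37,145),(40,76),(146,148),(75,110)]) (.cons 40 145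 (.leaf [(41,149),(76,148),(37,38)]) (.cons 148 145 (.leaf [(40,76),(41,149),(37,38)]) (.cons 76 40 (.leaf [(37,145),(41,149),(146,148)]) (.cons 38 37 (.leaf [(41,149),(40,75),(76,148),(145,146)]) (.cons 75 145 (.leaf [(41,149),(40,76),(37,38)]) (.cons 110 145 (.leaf [(41,149),(40,76),(37,38)]) (.cons 146 145 (.leaf [(41,149),(40,76),(37,38)]) .nil))))))))))) (.cons 110 74 (.cons 40 145 (.leaf [(41,149),(76,148),(37,38)]) (.cons 41 149 (.leaf [(37,38),(40,75),(109,145),(76,148)]) (.cons 145 40 (.leaf [(37,109),(41,149),(146,148)]) (.cons 149 41 (.leaf [(37,109),(40,75),(145,146),(76,148)]) (.cons 37 145 (.leaf [(41,149),(38,40),(76,148)]) (.cons 148 40 (.leaf [(41,149),(37,109),(145,146)]) (.cons 75 40 (.leaf [(41,149),(37,109),(145,146)]) (.cons 76 40 (.leaf [(41,149),(37,109),(145,146)]) (.cons 109 145 (.leaf [(41,149),(40,76),(37,38)]) (.cons 38 40 (.leaf [(41,149),(37,109),(145,146)]) (.cons 146 145 (.leaf [(41,149),(40,76),(37,38)]) .nil)))))))))))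 (.cons 146 74 (.cons 149 41 (.leaf [(145,148),(37,109),(40,76),(75,110)]) (.cons 41 149 (.leaf [(37,38),(40,75),(109,145),(76,148)]) (.cons 145 149 (.leaf [(37,109),(38,40),(75,110),(76,148)]) (.cons 40 41 (.leaf [(76,148),(37,109),(75,110),(145,149)]) (.cons 148 149 (.leaf [(40,76),(37,38),(109,145),(75,110)]) (.cons 37 145 (.leaf [(41,149),(38,40),(76,148)]) (.cons 76 40 (.leaf [(41,149),(37,109),(145,148)]) (.cons 109 145 (.leaf [(41,149),(40,76),(37,38)]) (.cons 38 41 (.leaf [(37,109),(40,75),(76,148),(145,149)]) (.cons 75 145 (.leaf [(41,149),(40,76),(37,38)]) (.cons 110 145 (.leaf [(41,149),(40,76),(37,38)]) .nil))))))))))) .nil)))))))))))))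

/-- The masks of block 6. -/
def m6 : List ℕ := [0x10000000000000000004000000002000000000, 0x2000000002000000000000000002000000000, 0x4000000004000000004000000004000000000, 0x10000000000000000010000000010000000000, 0x2000000004000000008000000010000000000, 0x20000000000000000000000000020000000000, 0x36000000000, 0x1c000000000000000000, 0x36000000000000000000000000000000000000]

/-- The strategy tree of block 7. -/
def t7 : Tr := (.cons 133 136 (.cons 139 115 (.leaf [(126,131),(138,142),(108,112),(113,118)]) (.cons 115 139 (.leaf [(117,118),(126,131),(108,112),(113,138)]) (.cons 131 126 (.cons 139 115 (.leaf [(138,142),(108,112),(113,118)]) (.cons 115 139 (.leaf [(117,118),(108,112),(113,138)]) (.cons 138 139 (.leaf [(113,118),(108,112),(115,117)]) (.cons 113 138 (.leaf [(108,112),(115,139),(117,118)]) (.cons 118 115 (.leaf [(113,138),(108,112),(139,142)]) (.cons 108 139 (.leaf [(112,113),(118,138),(115,117)]) (.cons 142 139 (.leaf [(108,112),(113,118),(115,117)])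 (.cons 112 139 (.leaf [(108,113),(118,138),(115,117)]) (.cons 117 115 (.leaf [(108,112),(113,118),(138,139)]) .nil))))))))) (.cons 138 139 (.leaf [(113,118),(126,131),(108,112),(115,117)]) (.cons 113 138 (.leaf [(108,112),(115,139),(126,131),(117,118)]) (.cons 118 115 (.leaf [(113,138),(126,131),(108,112),(139,142)]) (.cons 126 131 (.cons 139 115 (.leaf [(138,142),(108,112),(113,118)]) (.cons 115 139 (.leaf [(117,118),(108,112),(113,138)]) (.cons 138 139 (.leaf [(113,118),(108,112),(115,117)]) (.cons 113 138 (.leaf [(108,112),(115,139),(117,118)]) (.cons 118 115 (.leaf [(113,138),(108,112),(139,142)]) (.cons 108 139 (.leaf [(112,113),(118,138),(115,117)]) (.cons 142 139 (.leaf [(108,112),(113,118),(115,117)]) (.cons 112 139 (.leaf [(108,113),(118,138),(115,117)]) (.cons 117 115 (.leaf [(108,112),(113,118),(138,139)]) .nil))))))))) (.cons 108 139 (.leaf [(112,113),(126,131),(118,138),(115,117)]) (.cons 142 139 (.leaf [(126,131),(108,112),(113,118),(115,117)])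 (.cons 112 139 (.leaf [(108,113),(126,131),(118,138),(115,117)]) (.cons 117 115 (.leaf [(126,131),(108,112),(113,118),(138,139)]) .nil))))))))))) (.cons 136 133 (.cons 108 115 (.leaf [(112,113),(126,131),(118,142),(138,139)]) (.cons 115 108 (.leaf [(117,118),(126,131),(112,142),(138,139)]) (.cons 131 126 (.cons 108 115 (.leaf [(112,113),(118,142),(138,139)]) (.cons 115 108 (.leaf [(117,118),(112,142),(138,139)]) (.cons 142 108 (.leaf [(112,118),(138,139),(115,117)]) (.cons 112 108 (.leaf [(118,142),(115,117),(138,139)]) (.cons 118 115 (.leaf [(112,142),(108,113),(138,139)]) (.cons 138 108 (.leaf [(139,142),(112,118),(115,117)]) (.cons 139 108 (.leaf [(138,142),(112,118),(115,117)]) (.cons 113 108 (.leaf [(112,118),(115,117),(138,139)]) (.cons 117 115 (.leaf [(108,113),(112,118),(138,139)]) .nil))))))))) (.cons 142 108 (.leaf [(112,118),(126,131),(138,139),(115,117)]) (.cons 112 108 (.leaf [(118,142),(126,131),(115,117),(138,139)]) (.cons 118 115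 (.leaf [(112,142),(126,131),(108,113),(138,139)]) (.cons 126 131 (.cons 108 115 (.leaf [(112,113),(118,142),(138,139)]) (.cons 115 108 (.leaf [(117,118),(112,142),(138,139)]) (.cons 142 108 (.leaf [(112,118),(138,139),(115,117)]) (.cons 112 108 (.leaf [(118,142),(115,117),(138,139)]) (.cons 118 115 (.leaf [(112,142),(108,113),(138,139)]) (.cons 138 108 (.leaf [(139,142),(112,118),(115,117)]) (.cons 139 108 (.leaf [(138,142),(112,118),(115,117)]) (.cons 113 108 (.leaf [(112,118),(115,117),(138,139)]) (.cons 117 115 (.leaf [(108,113),(112,118),(138,139)]) .nil))))))))) (.cons 138 108 (.leaf [(126,131),(139,142),(112,118),(115,117)]) (.cons 139 108 (.leaf [(126,131),(138,142),(112,118),(115,117)]) (.cons 113 108 (.leaf [(126,131),(112,118),(115,117),(138,139)]) (.cons 117 115 (.leaf [(126,131),(108,113),(112,118),(138,139)]) .nil))))))))))) (.cons 115 133 (.cons 108 136 (.leaf [(112,113),(117,118),(126,131),(138,139)]) (.cons 136 108 (.leaf [(117,118),(126,131),(112,142),(138,139)])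 (.cons 118 117 (.cons 136 108 (.leaf [(112,142),(126,131),(138,139)]) (.cons 108 136 (.leaf [(112,113),(126,131),(138,139)]) (.cons 131 126 (.cons 136 108 (.leaf [(112,142),(138,139)]) (.cons 108 136 (.leaf [(112,113),(138,139)]) (.cons 112 136 (.leaf [(108,113),(138,139)]) (.cons 142 136 (.leaf [(138,139),(108,112)]) (.cons 113 108 (.leaf [(112,136),(138,139)]) (.cons 138 136 (.leaf [(139,142),(108,112)]) (.cons 139 136 (.leaf [(138,142),(108,112)]) .nil))))))) (.cons 142 136 (.leaf [(126,131),(138,139),(108,112)]) (.cons 112 136 (.leaf [(108,113),(126,131),(138,139)]) (.cons 126 131 (.cons 136 108 (.leaf [(112,142),(138,139)]) (.cons 108 136 (.leaf [(112,113),(138,139)]) (.cons 112 136 (.leaf [(108,113),(138,139)]) (.cons 142 136 (.leaf [(138,139),(108,112)]) (.cons 113 108 (.leaf [(112,136),(138,139)]) (.cons 138 136 (.leaf [(139,142),(108,112)]) (.cons 139 136 (.leaf [(138,142),(108,112)]) .nil))))))) (.cons 138 136 (.leaf [(126,131),(139,142),(108,112)])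 (.cons 139 136 (.leaf [(126,131),(138,142),(108,112)]) (.cons 113 108 (.leaf [(126,131),(112,136),(138,139)]) .nil))))))))) (.cons 131 126 (.cons 108 136 (.leaf [(112,113),(117,118),(138,139)]) (.cons 136 108 (.leaf [(117,118),(112,142),(138,139)]) (.cons 118 117 (.cons 136 108 (.leaf [(112,142),(138,139)]) (.cons 108 136 (.leaf [(112,113),(138,139)]) (.cons 112 136 (.leaf [(108,113),(138,139)]) (.cons 142 136 (.leaf [(138,139),(108,112)]) (.cons 113 108 (.leaf [(112,136),(138,139)]) (.cons 138 136 (.leaf [(139,142),(108,112)]) (.cons 139 136 (.leaf [(138,142),(108,112)]) .nil))))))) (.cons 117 118 (.leaf [(108,136),(112,113),(138,139)]) (.cons 142 136 (.leaf [(117,118),(138,139),(108,112)]) (.cons 112 108 (.leaf [(117,118),(136,142),(138,139)]) (.cons 138 108 (.leaf [(117,118),(139,142),(112,136)]) (.cons 139 108 (.leaf [(117,118),(138,142),(112,136)]) (.cons 113 108 (.leaf [(117,118),(138,139),(112,136)]) .nil))))))))) (.cons 117 118 (.leaf [(108,136),(126,131),(112,113),(138,139)])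 (.cons 126 131 (.cons 108 136 (.leaf [(112,113),(117,118),(138,139)]) (.cons 136 108 (.leaf [(117,118),(112,142),(138,139)]) (.cons 118 117 (.cons 136 108 (.leaf [(112,142),(138,139)]) (.cons 108 136 (.leaf [(112,113),(138,139)]) (.cons 112 136 (.leaf [(108,113),(138,139)]) (.cons 142 136 (.leaf [(138,139),(108,112)]) (.cons 113 108 (.leaf [(112,136),(138,139)]) (.cons 138 136 (.leaf [(139,142),(108,112)]) (.cons 139 136 (.leaf [(138,142),(108,112)]) .nil))))))) (.cons 117 118 (.leaf [(108,136),(112,113),(138,139)]) (.cons 142 136 (.leaf [(117,118),(138,139),(108,112)]) (.cons 112 108 (.leaf [(117,118),(136,142),(138,139)]) (.cons 138 108 (.leaf [(117,118),(139,142),(112,136)]) (.cons 139 108 (.leaf [(117,118),(138,142),(112,136)]) (.cons 113 108 (.leaf [(117,118),(138,139),(112,136)]) .nil))))))))) (.cons 142 136 (.leaf [(117,118),(126,131),(138,139),(108,112)]) (.cons 112 108 (.leaf [(117,118),(126,131),(136,142),(138,139)]) (.cons 138 108 (.leaf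 [(117,118),(126,131),(139,142),(112,136)]) (.cons 139 108 (.leaf [(117,118),(126,131),(138,142),(112,136)]) (.cons 113 108 (.leaf [(117,118),(126,131),(138,139),(112,136)]) .nil))))))))))) (.cons 131 126 (.cons 133 136 (.cons 139 115 (.leaf [(138,142),(108,112),(113,118)]) (.cons 115 139 (.leaf [(117,118),(108,112),(113,138)]) (.cons 138 139 (.leaf [(113,118),(108,112),(115,117)]) (.cons 113 138 (.leaf [(108,112),(115,139),(117,118)]) (.cons 118 115 (.leaf [(113,138),(108,112),(139,142)]) (.cons 108 139 (.leaf [(112,113),(118,138),(115,117)]) (.cons 142 139 (.leaf [(108,112),(113,118),(115,117)]) (.cons 112 139 (.leaf [(108,113),(118,138),(115,117)]) (.cons 117 115 (.leaf [(108,112),(113,118),(138,139)]) .nil))))))))) (.cons 136 133 (.cons 108 115 (.leaf [(112,113),(118,142),(138,139)]) (.cons 115 108 (.leaf [(117,118),(112,142),(138,139)]) (.cons 142 108 (.leaf [(112,118),(138,139),(115,117)]) (.cons 112 108 (.leaf [(118,142),(115,117),(138,139)])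 (.cons 118 115 (.leaf [(112,142),(108,113),(138,139)]) (.cons 138 108 (.leaf [(139,142),(112,118),(115,117)]) (.cons 139 108 (.leaf [(138,142),(112,118),(115,117)]) (.cons 113 108 (.leaf [(112,118),(115,117),(138,139)]) (.cons 117 115 (.leaf [(108,113),(112,118),(138,139)]) .nil))))))))) (.cons 115 133 (.cons 108 136 (.leaf [(112,113),(117,118),(138,139)]) (.cons 136 108 (.leaf [(117,118),(112,142),(138,139)]) (.cons 118 117 (.cons 136 108 (.leaf [(112,142),(138,139)]) (.cons 108 136 (.leaf [(112,113),(138,139)]) (.cons 112 136 (.leaf [(108,113),(138,139)]) (.cons 142 136 (.leaf [(138,139),(108,112)]) (.cons 113 108 (.leaf [(112,136),(138,139)]) (.cons 138 136 (.leaf [(139,142),(108,112)]) (.cons 139 136 (.leaf [(138,142),(108,112)]) .nil))))))) (.cons 117 118 (.leaf [(108,136),(112,113),(138,139)]) (.cons 142 136 (.leaf [(117,118),(138,139),(108,112)]) (.cons 112 108 (.leaf [(117,118),(136,142),(138,139)]) (.cons 138 108 (.leaf [(117,118),(139,142),(112,136)])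 (.cons 139 108 (.leaf [(117,118),(138,142),(112,136)]) (.cons 113 108 (.leaf [(117,118),(138,139),(112,136)]) .nil))))))))) (.cons 139 115 (.cons 133 136 (.leaf [(138,142),(108,112),(113,118)]) (.cons 136 133 (.leaf [(138,142),(108,113),(112,118)]) (.cons 138 142 (.leaf [(133,136),(108,112),(113,118)]) (.cons 142 138 (.leaf [(133,136),(108,113),(112,118)]) (.cons 112 136 (.leaf [(108,113),(138,142),(118,133)]) (.cons 113 133 (.leaf [(108,112),(138,142),(118,136)]) (.cons 108 133 (.leaf [(112,113),(138,142),(118,136)]) (.cons 118 133 (.leaf [(138,142),(108,113),(112,136)]) .nil)))))))) (.cons 108 115 (.cons 133 136 (.leaf [(112,113),(118,138),(139,142)]) (.cons 136 133 (.leaf [(112,113),(118,142),(138,139)]) (.cons 112 113 (.leaf [(133,136),(118,142),(138,139)]) (.cons 113 112 (.leaf [(133,136),(118,138),(139,142)]) (.cons 138 133 (.leaf [(112,113),(139,142),(118,136)]) (.cons 142 136 (.leaf [(112,113),(138,139),(118,133)]) (.cons 139 133 (.leaf [(112,113),(138,142),(118,136)])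 (.cons 118 133 (.leaf [(112,113),(136,142),(138,139)]) .nil)))))))) (.cons 118 115 (.cons 133 136 (.leaf [(113,138),(108,112),(139,142)]) (.cons 136 133 (.leaf [(112,142),(108,113),(138,139)]) (.cons 138 133 (.leaf [(139,142),(108,113),(112,136)]) (.cons 142 136 (.leaf [(138,139),(108,112),(113,133)]) (.cons 112 136 (.leaf [(108,113),(133,138),(139,142)]) (.cons 113 133 (.leaf [(108,112),(136,142),(138,139)]) (.cons 139 133 (.leaf [(138,142),(108,113),(112,136)]) (.cons 108 133 (.leaf [(112,113),(136,142),(138,139)]) .nil)))))))) (.cons 138 115 (.cons 133 136 (.leaf [(113,118),(139,142),(108,112)]) (.cons 136 133 (.leaf [(139,142),(108,113),(112,118)]) (.cons 142 139 (.cons 133 136 (.leaf [(113,118),(108,112)]) (.cons 136 133 (.leaf [(112,118),(108,113)]) (.cons 112 136 (.leaf [(108,113),(118,133)]) (.cons 113 133 (.leaf [(108,112),(118,136)]) (.cons 118 133 (.leaf [(112,136),(108,113)]) (.cons 108 112 (.leaf [(133,136),(113,118)]) .nil)))))) (.cons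 139 142 (.leaf [(133,136),(108,112),(113,118)]) (.cons 113 133 (.leaf [(108,112),(139,142),(118,136)]) (.cons 112 133 (.leaf [(108,113),(139,142),(118,136)]) (.cons 118 133 (.leaf [(139,142),(108,113),(112,136)]) (.cons 108 133 (.leaf [(112,113),(139,142),(118,136)]) .nil)))))))) (.cons 142 136 (.cons 139 138 (.leaf [(115,133),(108,112),(117,118)]) (.cons 138 139 (.leaf [(108,112),(113,118),(115,117)]) (.cons 115 139 (.leaf [(117,118),(108,112),(113,133)]) (.cons 133 139 (.leaf [(108,112),(113,118),(115,117)]) (.cons 113 138 (.leaf [(108,112),(115,133),(117,118)]) (.cons 118 138 (.leaf [(115,117),(108,112),(133,139)]) (.cons 108 139 (.leaf [(112,113),(115,117),(118,133)]) (.cons 112 139 (.leaf [(108,113),(115,117),(118,133)]) (.cons 117 139 (.leaf [(115,118),(108,112),(113,133)]) .nil))))))))) (.cons 112 115 (.cons 136 133 (.leaf [(108,113),(118,142),(138,139)]) (.cons 133 136 (.leaf [(108,113),(118,138),(139,142)]) (.cons 113 108 (.cons 133 136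 (.leaf [(118,138),(139,142)]) (.cons 136 133 (.leaf [(118,142),(138,139)]) (.cons 118 133 (.leaf [(136,142),(138,139)]) (.cons 138 133 (.leaf [(139,142),(118,136)]) (.cons 142 136 (.leaf [(138,139),(118,133)]) (.cons 139 133 (.leaf [(138,142),(118,136)]) .nil)))))) (.cons 108 113 (.leaf [(133,136),(118,142),(138,139)]) (.cons 142 136 (.leaf [(108,113),(138,139),(118,133)]) (.cons 138 133 (.leaf [(108,113),(139,142),(118,136)]) (.cons 118 136 (.leaf [(108,113),(133,138),(139,142)]) (.cons 139 136 (.leaf [(108,113),(138,142),(118,133)]) .nil)))))))) (.cons 113 133 (.cons 108 112 (.leaf [(115,136),(117,118),(138,139)]) (.cons 112 108 (.leaf [(115,117),(118,136),(138,139)]) (.cons 115 108 (.leaf [(117,118),(138,139),(112,136)]) (.cons 136 108 (.leaf [(112,118),(115,117),(138,139)]) (.cons 142 108 (.leaf [(138,139),(112,118),(115,117)]) (.cons 118 108 (.leaf [(115,117),(112,136),(138,139)]) (.cons 138 108 (.leaf [(139,142),(115,117),(112,118)]) (.cons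 139 108 (.leaf [(138,142),(115,117),(112,118)]) (.cons 117 108 (.leaf [(115,118),(138,139),(112,136)]) .nil))))))))) (.cons 117 115 (.cons 133 136 (.leaf [(108,112),(113,118),(138,139)]) (.cons 136 133 (.leaf [(108,113),(112,118),(138,139)]) (.cons 138 133 (.leaf [(139,142),(108,113),(112,118)]) (.cons 142 136 (.leaf [(138,139),(108,112),(113,118)]) (.cons 112 136 (.leaf [(108,113),(138,139),(118,133)]) (.cons 113 133 (.leaf [(108,112),(138,139),(118,136)]) (.cons 139 133 (.leaf [(138,142),(108,113),(112,118)]) (.cons 108 133 (.leaf [(112,113),(138,139),(118,136)]) (.cons 118 133 (.leaf [(108,113),(112,136),(138,139)]) .nil))))))))) .nil))))))))))) (.cons 139 115 (.cons 133 136 (.leaf [(126,131),(138,142),(108,112),(113,118)]) (.cons 136 133 (.leaf [(126,131),(138,142),(108,113),(112,118)]) (.cons 138 142 (.leaf [(126,131),(133,136),(108,112),(113,118)]) (.cons 142 138 (.leaf [(126,131),(133,136),(108,113),(112,118)]) (.cons 131 126 (.cons 133 136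 (.leaf [(138,142),(108,112),(113,118)]) (.cons 136 133 (.leaf [(138,142),(108,113),(112,118)]) (.cons 138 142 (.leaf [(133,136),(108,112),(113,118)]) (.cons 142 138 (.leaf [(133,136),(108,113),(112,118)]) (.cons 112 136 (.leaf [(108,113),(138,142),(118,133)]) (.cons 113 133 (.leaf [(108,112),(138,142),(118,136)]) (.cons 108 133 (.leaf [(112,113),(138,142),(118,136)]) (.cons 118 133 (.leaf [(138,142),(108,113),(112,136)]) .nil)))))))) (.cons 126 131 (.cons 133 136 (.leaf [(138,142),(108,112),(113,118)]) (.cons 136 133 (.leaf [(138,142),(108,113),(112,118)]) (.cons 138 142 (.leaf [(133,136),(108,112),(113,118)]) (.cons 142 138 (.leaf [(133,136),(108,113),(112,118)]) (.cons 112 136 (.leaf [(108,113),(138,142),(118,133)]) (.cons 113 133 (.leaf [(108,112),(138,142),(118,136)]) (.cons 108 133 (.leaf [(112,113),(138,142),(118,136)]) (.cons 118 133 (.leaf [(138,142),(108,113),(112,136)]) .nil)))))))) (.cons 112 136 (.leaf [(108,113),(126,131),(138,142),(118,133)])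 (.cons 113 133 (.leaf [(108,112),(126,131),(138,142),(118,136)]) (.cons 108 133 (.leaf [(112,113),(126,131),(138,142),(118,136)]) (.cons 118 133 (.leaf [(126,131),(138,142),(108,113),(112,136)]) .nil)))))))))) (.cons 108 115 (.cons 133 136 (.leaf [(112,113),(126,131),(118,138),(139,142)]) (.cons 136 133 (.leaf [(112,113),(126,131),(118,142),(138,139)]) (.cons 112 113 (.leaf [(126,131),(133,136),(118,142),(138,139)]) (.cons 113 112 (.leaf [(126,131),(133,136),(118,138),(139,142)]) (.cons 131 126 (.cons 133 136 (.leaf [(112,113),(118,138),(139,142)]) (.cons 136 133 (.leaf [(112,113),(118,142),(138,139)]) (.cons 112 113 (.leaf [(133,136),(118,142),(138,139)]) (.cons 113 112 (.leaf [(133,136),(118,138),(139,142)]) (.cons 138 133 (.leaf [(112,113),(139,142),(118,136)]) (.cons 142 136 (.leaf [(112,113),(138,139),(118,133)]) (.cons 139 133 (.leaf [(112,113),(138,142),(118,136)]) (.cons 118 133 (.leaf [(112,113),(136,142),(138,139)]) .nil)))))))) (.cons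 126 131 (.cons 133 136 (.leaf [(112,113),(118,138),(139,142)]) (.cons 136 133 (.leaf [(112,113),(118,142),(138,139)]) (.cons 112 113 (.leaf [(133,136),(118,142),(138,139)]) (.cons 113 112 (.leaf [(133,136),(118,138),(139,142)]) (.cons 138 133 (.leaf [(112,113),(139,142),(118,136)]) (.cons 142 136 (.leaf [(112,113),(138,139),(118,133)]) (.cons 139 133 (.leaf [(112,113),(138,142),(118,136)]) (.cons 118 133 (.leaf [(112,113),(136,142),(138,139)]) .nil)))))))) (.cons 138 133 (.leaf [(112,113),(126,131),(139,142),(118,136)]) (.cons 142 136 (.leaf [(112,113),(126,131),(138,139),(118,133)]) (.cons 139 133 (.leaf [(112,113),(126,131),(138,142),(118,136)]) (.cons 118 133 (.leaf [(112,113),(126,131),(136,142),(138,139)]) .nil)))))))))) (.cons 118 115 (.cons 133 136 (.leaf [(113,138),(126,131),(108,112),(139,142)]) (.cons 136 133 (.leaf [(112,142),(126,131),(108,113),(138,139)]) (.cons 131 126 (.cons 133 136 (.leaf [(113,138),(108,112),(139,142)]) (.cons 136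 133 (.leaf [(112,142),(108,113),(138,139)]) (.cons 138 133 (.leaf [(139,142),(108,113),(112,136)]) (.cons 142 136 (.leaf [(138,139),(108,112),(113,133)]) (.cons 112 136 (.leaf [(108,113),(133,138),(139,142)]) (.cons 113 133 (.leaf [(108,112),(136,142),(138,139)]) (.cons 139 133 (.leaf [(138,142),(108,113),(112,136)]) (.cons 108 133 (.leaf [(112,113),(136,142),(138,139)]) .nil)))))))) (.cons 138 133 (.leaf [(126,131),(139,142),(108,113),(112,136)]) (.cons 142 136 (.leaf [(126,131),(138,139),(108,112),(113,133)]) (.cons 112 136 (.leaf [(108,113),(126,131),(133,138),(139,142)]) (.cons 113 133 (.leaf [(108,112),(126,131),(136,142),(138,139)]) (.cons 126 131 (.cons 133 136 (.leaf [(113,138),(108,112),(139,142)]) (.cons 136 133 (.leaf [(112,142),(108,113),(138,139)]) (.cons 138 133 (.leaf [(139,142),(108,113),(112,136)]) (.cons 142 136 (.leaf [(138,139),(108,112),(113,133)]) (.cons 112 136 (.leaf [(108,113),(133,138),(139,142)]) (.cons 113 133 (.leaf [(108,112),(136,142),(138,139)])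 (.cons 139 133 (.leaf [(138,142),(108,113),(112,136)]) (.cons 108 133 (.leaf [(112,113),(136,142),(138,139)]) .nil)))))))) (.cons 139 133 (.leaf [(126,131),(138,142),(108,113),(112,136)]) (.cons 108 133 (.leaf [(112,113),(126,131),(136,142),(138,139)]) .nil)))))))))) (.cons 126 131 (.cons 133 136 (.cons 139 115 (.leaf [(138,142),(108,112),(113,118)]) (.cons 115 139 (.leaf [(117,118),(108,112),(113,138)]) (.cons 138 139 (.leaf [(113,118),(108,112),(115,117)]) (.cons 113 138 (.leaf [(108,112),(115,139),(117,118)]) (.cons 118 115 (.leaf [(113,138),(108,112),(139,142)]) (.cons 108 139 (.leaf [(112,113),(118,138),(115,117)]) (.cons 142 139 (.leaf [(108,112),(113,118),(115,117)]) (.cons 112 139 (.leaf [(108,113),(118,138),(115,117)]) (.cons 117 115 (.leaf [(108,112),(113,118),(138,139)]) .nil))))))))) (.cons 136 133 (.cons 108 115 (.leaf [(112,113),(118,142),(138,139)]) (.cons 115 108 (.leaf [(117,118),(112,142),(138,139)]) (.cons 142 108 (.leaf [(112,118),(138,139),(115,117)])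 (.cons 112 108 (.leaf [(118,142),(115,117),(138,139)]) (.cons 118 115 (.leaf [(112,142),(108,113),(138,139)]) (.cons 138 108 (.leaf [(139,142),(112,118),(115,117)]) (.cons 139 108 (.leaf [(138,142),(112,118),(115,117)]) (.cons 113 108 (.leaf [(112,118),(115,117),(138,139)]) (.cons 117 115 (.leaf [(108,113),(112,118),(138,139)]) .nil))))))))) (.cons 115 133 (.cons 108 136 (.leaf [(112,113),(117,118),(138,139)]) (.cons 136 108 (.leaf [(117,118),(112,142),(138,139)]) (.cons 118 117 (.cons 136 108 (.leaf [(112,142),(138,139)]) (.cons 108 136 (.leaf [(112,113),(138,139)]) (.cons 112 136 (.leaf [(108,113),(138,139)]) (.cons 142 136 (.leaf [(138,139),(108,112)]) (.cons 113 108 (.leaf [(112,136),(138,139)]) (.cons 138 136 (.leaf [(139,142),(108,112)]) (.cons 139 136 (.leaf [(138,142),(108,112)]) .nil))))))) (.cons 117 118 (.leaf [(108,136),(112,113),(138,139)]) (.cons 142 136 (.leaf [(117,118),(138,139),(108,112)]) (.cons 112 108 (.leaf [(117,118),(136,142),(138,139)])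 (.cons 138 108 (.leaf [(117,118),(139,142),(112,136)]) (.cons 139 108 (.leaf [(117,118),(138,142),(112,136)]) (.cons 113 108 (.leaf [(117,118),(138,139),(112,136)]) .nil))))))))) (.cons 139 115 (.cons 133 136 (.leaf [(138,142),(108,112),(113,118)]) (.cons 136 133 (.leaf [(138,142),(108,113),(112,118)]) (.cons 138 142 (.leaf [(133,136),(108,112),(113,118)]) (.cons 142 138 (.leaf [(133,136),(108,113),(112,118)]) (.cons 112 136 (.leaf [(108,113),(138,142),(118,133)]) (.cons 113 133 (.leaf [(108,112),(138,142),(118,136)]) (.cons 108 133 (.leaf [(112,113),(138,142),(118,136)]) (.cons 118 133 (.leaf [(138,142),(108,113),(112,136)]) .nil)))))))) (.cons 108 115 (.cons 133 136 (.leaf [(112,113),(118,138),(139,142)]) (.cons 136 133 (.leaf [(112,113),(118,142),(138,139)]) (.cons 112 113 (.leaf [(133,136),(118,142),(138,139)]) (.cons 113 112 (.leaf [(133,136),(118,138),(139,142)]) (.cons 138 133 (.leaf [(112,113),(139,142),(118,136)]) (.cons 142 136 (.leaf [(112,113),(138,139),(118,133)])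 (.cons 139 133 (.leaf [(112,113),(138,142),(118,136)]) (.cons 118 133 (.leaf [(112,113),(136,142),(138,139)]) .nil)))))))) (.cons 118 115 (.cons 133 136 (.leaf [(113,138),(108,112),(139,142)]) (.cons 136 133 (.leaf [(112,142),(108,113),(138,139)]) (.cons 138 133 (.leaf [(139,142),(108,113),(112,136)]) (.cons 142 136 (.leaf [(138,139),(108,112),(113,133)]) (.cons 112 136 (.leaf [(108,113),(133,138),(139,142)]) (.cons 113 133 (.leaf [(108,112),(136,142),(138,139)]) (.cons 139 133 (.leaf [(138,142),(108,113),(112,136)]) (.cons 108 133 (.leaf [(112,113),(136,142),(138,139)]) .nil)))))))) (.cons 138 115 (.cons 133 136 (.leaf [(113,118),(139,142),(108,112)]) (.cons 136 133 (.leaf [(139,142),(108,113),(112,118)]) (.cons 142 139 (.cons 133 136 (.leaf [(113,118),(108,112)]) (.cons 136 133 (.leaf [(112,118),(108,113)]) (.cons 112 136 (.leaf [(108,113),(118,133)]) (.cons 113 133 (.leaf [(108,112),(118,136)]) (.cons 118 133 (.leaf [(112,136),(108,113)]) (.cons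 108 112 (.leaf [(133,136),(113,118)]) .nil)))))) (.cons 139 142 (.leaf [(133,136),(108,112),(113,118)]) (.cons 113 133 (.leaf [(108,112),(139,142),(118,136)]) (.cons 112 133 (.leaf [(108,113),(139,142),(118,136)]) (.cons 118 133 (.leaf [(139,142),(108,113),(112,136)]) (.cons 108 133 (.leaf [(112,113),(139,142),(118,136)]) .nil)))))))) (.cons 142 136 (.cons 139 138 (.leaf [(115,133),(108,112),(117,118)]) (.cons 138 139 (.leaf [(108,112),(113,118),(115,117)]) (.cons 115 139 (.leaf [(117,118),(108,112),(113,133)]) (.cons 133 139 (.leaf [(108,112),(113,118),(115,117)]) (.cons 113 138 (.leaf [(108,112),(115,133),(117,118)]) (.cons 118 138 (.leaf [(115,117),(108,112),(133,139)]) (.cons 108 139 (.leaf [(112,113),(115,117),(118,133)]) (.cons 112 139 (.leaf [(108,113),(115,117),(118,133)]) (.cons 117 139 (.leaf [(115,118),(108,112),(113,133)]) .nil))))))))) (.cons 112 115 (.cons 136 133 (.leaf [(108,113),(118,142),(138,139)]) (.cons 133 136 (.leaf [(108,113),(118,138),(139,142)])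 (.cons 113 108 (.cons 133 136 (.leaf [(118,138),(139,142)]) (.cons 136 133 (.leaf [(118,142),(138,139)]) (.cons 118 133 (.leaf [(136,142),(138,139)]) (.cons 138 133 (.leaf [(139,142),(118,136)]) (.cons 142 136 (.leaf [(138,139),(118,133)]) (.cons 139 133 (.leaf [(138,142),(118,136)]) .nil)))))) (.cons 108 113 (.leaf [(133,136),(118,142),(138,139)]) (.cons 142 136 (.leaf [(108,113),(138,139),(118,133)]) (.cons 138 133 (.leaf [(108,113),(139,142),(118,136)]) (.cons 118 136 (.leaf [(108,113),(133,138),(139,142)]) (.cons 139 136 (.leaf [(108,113),(138,142),(118,133)]) .nil)))))))) (.cons 113 133 (.cons 108 112 (.leaf [(115,136),(117,118),(138,139)]) (.cons 112 108 (.leaf [(115,117),(118,136),(138,139)]) (.cons 115 108 (.leaf [(117,118),(138,139),(112,136)]) (.cons 136 108 (.leaf [(112,118),(115,117),(138,139)]) (.cons 142 108 (.leaf [(138,139),(112,118),(115,117)]) (.cons 118 108 (.leaf [(115,117),(112,136),(138,139)]) (.cons 138 108 (.leaf [(139,142),(115,117),(112,118)])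 (.cons 139 108 (.leaf [(138,142),(115,117),(112,118)]) (.cons 117 108 (.leaf [(115,118),(138,139),(112,136)]) .nil))))))))) (.cons 117 115 (.cons 133 136 (.leaf [(108,112),(113,118),(138,139)]) (.cons 136 133 (.leaf [(108,113),(112,118),(138,139)]) (.cons 138 133 (.leaf [(139,142),(108,113),(112,118)]) (.cons 142 136 (.leaf [(138,139),(108,112),(113,118)]) (.cons 112 136 (.leaf [(108,113),(138,139),(118,133)]) (.cons 113 133 (.leaf [(108,112),(138,139),(118,136)]) (.cons 139 133 (.leaf [(138,142),(108,113),(112,118)]) (.cons 108 133 (.leaf [(112,113),(138,139),(118,136)]) (.cons 118 133 (.leaf [(108,113),(112,136),(138,139)]) .nil))))))))) .nil))))))))))) (.cons 138 115 (.cons 133 136 (.leaf [(113,118),(126,131),(139,142),(108,112)]) (.cons 136 133 (.leaf [(126,131),(139,142),(108,113),(112,118)]) (.cons 142 139 (.cons 133 136 (.leaf [(113,118),(126,131),(108,112)]) (.cons 136 133 (.leaf [(112,118),(126,131),(108,113)]) (.cons 131 126 (.cons 133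 136 (.leaf [(113,118),(108,112)]) (.cons 136 133 (.leaf [(112,118),(108,113)]) (.cons 112 136 (.leaf [(108,113),(118,133)]) (.cons 113 133 (.leaf [(108,112),(118,136)]) (.cons 118 133 (.leaf [(112,136),(108,113)]) (.cons 108 112 (.leaf [(133,136),(113,118)]) .nil)))))) (.cons 112 136 (.leaf [(108,113),(126,131),(118,133)]) (.cons 113 133 (.leaf [(108,112),(126,131),(118,136)]) (.cons 118 133 (.leaf [(112,136),(126,131),(108,113)]) (.cons 126 131 (.cons 133 136 (.leaf [(113,118),(108,112)]) (.cons 136 133 (.leaf [(112,118),(108,113)]) (.cons 112 136 (.leaf [(108,113),(118,133)]) (.cons 113 133 (.leaf [(108,112),(118,136)]) (.cons 118 133 (.leaf [(112,136),(108,113)]) (.cons 108 112 (.leaf [(133,136),(113,118)]) .nil)))))) (.cons 108 133 (.leaf [(112,113),(126,131),(118,136)]) .nil)))))))) (.cons 131 126 (.cons 133 136 (.leaf [(113,118),(139,142),(108,112)]) (.cons 136 133 (.leaf [(139,142),(108,113),(112,118)]) (.cons 142 139 (.cons 133 136 (.leaf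 [(113,118),(108,112)]) (.cons 136 133 (.leaf [(112,118),(108,113)]) (.cons 112 136 (.leaf [(108,113),(118,133)]) (.cons 113 133 (.leaf [(108,112),(118,136)]) (.cons 118 133 (.leaf [(112,136),(108,113)]) (.cons 108 112 (.leaf [(133,136),(113,118)]) .nil)))))) (.cons 139 142 (.leaf [(133,136),(108,112),(113,118)]) (.cons 113 133 (.leaf [(108,112),(139,142),(118,136)]) (.cons 112 133 (.leaf [(108,113),(139,142),(118,136)]) (.cons 118 133 (.leaf [(139,142),(108,113),(112,136)]) (.cons 108 133 (.leaf [(112,113),(139,142),(118,136)]) .nil)))))))) (.cons 139 142 (.leaf [(126,131),(133,136),(108,112),(113,118)]) (.cons 113 133 (.leaf [(108,112),(126,131),(139,142),(118,136)]) (.cons 126 131 (.cons 133 136 (.leaf [(113,118),(139,142),(108,112)]) (.cons 136 133 (.leaf [(139,142),(108,113),(112,118)]) (.cons 142 139 (.cons 133 136 (.leaf [(113,118),(108,112)]) (.cons 136 133 (.leaf [(112,118),(108,113)]) (.cons 112 136 (.leaf [(108,113),(118,133)]) (.cons 113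 133 (.leaf [(108,112),(118,136)]) (.cons 118 133 (.leaf [(112,136),(108,113)]) (.cons 108 112 (.leaf [(133,136),(113,118)]) .nil)))))) (.cons 139 142 (.leaf [(133,136),(108,112),(113,118)]) (.cons 113 133 (.leaf [(108,112),(139,142),(118,136)]) (.cons 112 133 (.leaf [(108,113),(139,142),(118,136)]) (.cons 118 133 (.leaf [(139,142),(108,113),(112,136)]) (.cons 108 133 (.leaf [(112,113),(139,142),(118,136)]) .nil)))))))) (.cons 112 133 (.leaf [(108,113),(126,131),(139,142),(118,136)]) (.cons 118 133 (.leaf [(126,131),(139,142),(108,113),(112,136)]) (.cons 108 133 (.leaf [(112,113),(126,131),(139,142),(118,136)]) .nil)))))))))) (.cons 142 136 (.cons 139 138 (.leaf [(115,133),(126,131),(108,112),(117,118)]) (.cons 138 139 (.leaf [(126,131),(108,112),(113,118),(115,117)]) (.cons 131 126 (.cons 139 138 (.leaf [(115,133),(108,112),(117,118)]) (.cons 138 139 (.leaf [(108,112),(113,118),(115,117)]) (.cons 115 139 (.leaf [(117,118),(108,112),(113,133)]) (.cons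 133 139 (.leaf [(108,112),(113,118),(115,117)]) (.cons 113 138 (.leaf [(108,112),(115,133),(117,118)]) (.cons 118 138 (.leaf [(115,117),(108,112),(133,139)]) (.cons 108 139 (.leaf [(112,113),(115,117),(118,133)]) (.cons 112 139 (.leaf [(108,113),(115,117),(118,133)]) (.cons 117 139 (.leaf [(115,118),(108,112),(113,133)]) .nil))))))))) (.cons 115 139 (.leaf [(117,118),(126,131),(108,112),(113,133)]) (.cons 126 131 (.cons 139 138 (.leaf [(115,133),(108,112),(117,118)]) (.cons 138 139 (.leaf [(108,112),(113,118),(115,117)]) (.cons 115 139 (.leaf [(117,118),(108,112),(113,133)]) (.cons 133 139 (.leaf [(108,112),(113,118),(115,117)]) (.cons 113 138 (.leaf [(108,112),(115,133),(117,118)]) (.cons 118 138 (.leaf [(115,117),(108,112),(133,139)]) (.cons 108 139 (.leaf [(112,113),(115,117),(118,133)]) (.cons 112 139 (.leaf [(108,113),(115,117),(118,133)]) (.cons 117 139 (.leaf [(115,118),(108,112),(113,133)]) .nil))))))))) (.cons 133 139 (.leaf [(126,131),(108,112),(113,118),(115,117)])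 (.cons 113 138 (.leaf [(108,112),(126,131),(115,133),(117,118)]) (.cons 118 138 (.leaf [(115,117),(126,131),(108,112),(133,139)]) (.cons 108 139 (.leaf [(112,113),(126,131),(115,117),(118,133)]) (.cons 112 139 (.leaf [(108,113),(126,131),(115,117),(118,133)]) (.cons 117 139 (.leaf [(115,118),(126,131),(108,112),(113,133)]) .nil))))))))))) (.cons 112 115 (.cons 136 133 (.leaf [(108,113),(118,142),(126,131),(138,139)]) (.cons 133 136 (.leaf [(108,113),(126,131),(118,138),(139,142)]) (.cons 113 108 (.cons 133 136 (.leaf [(118,138),(126,131),(139,142)]) (.cons 136 133 (.leaf [(118,142),(126,131),(138,139)]) (.cons 131 126 (.cons 133 136 (.leaf [(118,138),(139,142)]) (.cons 136 133 (.leaf [(118,142),(138,139)]) (.cons 118 133 (.leaf [(136,142),(138,139)]) (.cons 138 133 (.leaf [(139,142),(118,136)]) (.cons 142 136 (.leaf [(138,139),(118,133)]) (.cons 139 133 (.leaf [(138,142),(118,136)]) .nil)))))) (.cons 138 133 (.leaf [(126,131),(139,142),(118,136)])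 (.cons 142 136 (.leaf [(126,131),(138,139),(118,133)]) (.cons 118 133 (.leaf [(126,131),(136,142),(138,139)]) (.cons 126 131 (.cons 133 136 (.leaf [(118,138),(139,142)]) (.cons 136 133 (.leaf [(118,142),(138,139)]) (.cons 118 133 (.leaf [(136,142),(138,139)]) (.cons 138 133 (.leaf [(139,142),(118,136)]) (.cons 142 136 (.leaf [(138,139),(118,133)]) (.cons 139 133 (.leaf [(138,142),(118,136)]) .nil)))))) (.cons 139 133 (.leaf [(126,131),(138,142),(118,136)]) .nil)))))))) (.cons 131 126 (.cons 136 133 (.leaf [(108,113),(118,142),(138,139)]) (.cons 133 136 (.leaf [(108,113),(118,138),(139,142)]) (.cons 113 108 (.cons 133 136 (.leaf [(118,138),(139,142)]) (.cons 136 133 (.leaf [(118,142),(138,139)]) (.cons 118 133 (.leaf [(136,142),(138,139)]) (.cons 138 133 (.leaf [(139,142),(118,136)]) (.cons 142 136 (.leaf [(138,139),(118,133)]) (.cons 139 133 (.leaf [(138,142),(118,136)]) .nil)))))) (.cons 108 113 (.leaf [(133,136),(118,142),(138,139)]) (.cons 142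 136 (.leaf [(108,113),(138,139),(118,133)]) (.cons 138 133 (.leaf [(108,113),(139,142),(118,136)]) (.cons 118 136 (.leaf [(108,113),(133,138),(139,142)]) (.cons 139 136 (.leaf [(108,113),(138,142),(118,133)]) .nil)))))))) (.cons 108 113 (.leaf [(126,131),(133,136),(118,142),(138,139)]) (.cons 142 136 (.leaf [(108,113),(126,131),(138,139),(118,133)]) (.cons 126 131 (.cons 136 133 (.leaf [(108,113),(118,142),(138,139)]) (.cons 133 136 (.leaf [(108,113),(118,138),(139,142)]) (.cons 113 108 (.cons 133 136 (.leaf [(118,138),(139,142)]) (.cons 136 133 (.leaf [(118,142),(138,139)]) (.cons 118 133 (.leaf [(136,142),(138,139)]) (.cons 138 133 (.leaf [(139,142),(118,136)]) (.cons 142 136 (.leaf [(138,139),(118,133)]) (.cons 139 133 (.leaf [(138,142),(118,136)]) .nil)))))) (.cons 108 113 (.leaf [(133,136),(118,142),(138,139)]) (.cons 142 136 (.leaf [(108,113),(138,139),(118,133)]) (.cons 138 133 (.leaf [(108,113),(139,142),(118,136)]) (.cons 118 136 (.leaf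 [(108,113),(133,138),(139,142)]) (.cons 139 136 (.leaf [(108,113),(138,142),(118,133)]) .nil)))))))) (.cons 138 133 (.leaf [(108,113),(126,131),(139,142),(118,136)]) (.cons 118 136 (.leaf [(108,113),(126,131),(133,138),(139,142)]) (.cons 139 136 (.leaf [(108,113),(126,131),(138,142),(118,133)]) .nil)))))))))) (.cons 113 133 (.cons 108 112 (.leaf [(115,136),(126,131),(117,118),(138,139)]) (.cons 112 108 (.leaf [(126,131),(115,117),(118,136),(138,139)]) (.cons 131 126 (.cons 108 112 (.leaf [(115,136),(117,118),(138,139)]) (.cons 112 108 (.leaf [(115,117),(118,136),(138,139)]) (.cons 115 108 (.leaf [(117,118),(138,139),(112,136)]) (.cons 136 108 (.leaf [(112,118),(115,117),(138,139)]) (.cons 142 108 (.leaf [(138,139),(112,118),(115,117)]) (.cons 118 108 (.leaf [(115,117),(112,136),(138,139)]) (.cons 138 108 (.leaf [(139,142),(115,117),(112,118)]) (.cons 139 108 (.leaf [(138,142),(115,117),(112,118)]) (.cons 117 108 (.leaf [(115,118),(138,139),(112,136)])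 .nil))))))))) (.cons 115 108 (.leaf [(117,118),(126,131),(138,139),(112,136)]) (.cons 126 131 (.cons 108 112 (.leaf [(115,136),(117,118),(138,139)]) (.cons 112 108 (.leaf [(115,117),(118,136),(138,139)]) (.cons 115 108 (.leaf [(117,118),(138,139),(112,136)]) (.cons 136 108 (.leaf [(112,118),(115,117),(138,139)]) (.cons 142 108 (.leaf [(138,139),(112,118),(115,117)]) (.cons 118 108 (.leaf [(115,117),(112,136),(138,139)]) (.cons 138 108 (.leaf [(139,142),(115,117),(112,118)]) (.cons 139 108 (.leaf [(138,142),(115,117),(112,118)]) (.cons 117 108 (.leaf [(115,118),(138,139),(112,136)]) .nil))))))))) (.cons 136 108 (.leaf [(126,131),(112,118),(115,117),(138,139)]) (.cons 142 108 (.leaf [(126,131),(138,139),(112,118),(115,117)]) (.cons 118 108 (.leaf [(115,117),(126,131),(112,136),(138,139)]) (.cons 138 108 (.leaf [(126,131),(139,142),(115,117),(112,118)]) (.cons 139 108 (.leaf [(126,131),(138,142),(115,117),(112,118)]) (.cons 117 108 (.leaf [(115,118),(126,131),(138,139),(112,136)])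 .nil))))))))))) (.cons 117 115 (.cons 133 136 (.leaf [(126,131),(108,112),(113,118),(138,139)]) (.cons 136 133 (.leaf [(126,131),(108,113),(112,118),(138,139)]) (.cons 131 126 (.cons 133 136 (.leaf [(108,112),(113,118),(138,139)]) (.cons 136 133 (.leaf [(108,113),(112,118),(138,139)]) (.cons 138 133 (.leaf [(139,142),(108,113),(112,118)]) (.cons 142 136 (.leaf [(138,139),(108,112),(113,118)]) (.cons 112 136 (.leaf [(108,113),(138,139),(118,133)]) (.cons 113 133 (.leaf [(108,112),(138,139),(118,136)]) (.cons 139 133 (.leaf [(138,142),(108,113),(112,118)]) (.cons 108 133 (.leaf [(112,113),(138,139),(118,136)]) (.cons 118 133 (.leaf [(108,113),(112,136),(138,139)]) .nil))))))))) (.cons 126 131 (.cons 133 136 (.leaf [(108,112),(113,118),(138,139)]) (.cons 136 133 (.leaf [(108,113),(112,118),(138,139)]) (.cons 138 133 (.leaf [(139,142),(108,113),(112,118)]) (.cons 142 136 (.leaf [(138,139),(108,112),(113,118)]) (.cons 112 136 (.leaf [(108,113),(138,139),(118,133)])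 (.cons 113 133 (.leaf [(108,112),(138,139),(118,136)]) (.cons 139 133 (.leaf [(138,142),(108,113),(112,118)]) (.cons 108 133 (.leaf [(112,113),(138,139),(118,136)]) (.cons 118 133 (.leaf [(108,113),(112,136),(138,139)]) .nil))))))))) (.cons 138 133 (.leaf [(126,131),(139,142),(108,113),(112,118)]) (.cons 142 136 (.leaf [(126,131),(138,139),(108,112),(113,118)]) (.cons 112 136 (.leaf [(108,113),(126,131),(138,139),(118,133)]) (.cons 113 133 (.leaf [(108,112),(126,131),(138,139),(118,136)]) (.cons 139 133 (.leaf [(126,131),(138,142),(108,113),(112,118)]) (.cons 108 133 (.leaf [(112,113),(126,131),(138,139),(118,136)]) (.cons 118 133 (.leaf [(126,131),(108,113),(112,136),(138,139)]) .nil))))))))))) .nil)))))))))))))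

/-- The masks of block 7. -/
def m7 : List ℕ := [0x31000000000000000000000000000, 0x10000081000000000000000000000000000, 0x82000080000000000000000000000000000, 0x410000410000000000000000000000000000, 0x42000420000000000000000000000000000, 0x680000000000000000000000000000, 0x840000000000000000000000000000000, 0x12000000000000000000000000000000000, 0x4c0000000000000000000000000000000000]

/-- The strategy tree of block 8. -/
def t8 : Tr := (.cons 195 190 (.cons 215 187 (.leaf [(189,213),(191,197),(193,196),(211,214)]) (.cons 187 215 (.leaf [(189,213),(193,211),(196,197)]) (.cons 213 189 (.cons 215 187 (.leaf [(191,197),(211,214),(193,196)]) (.cons 187 215 (.leaf [(193,211),(196,197)]) (.cons 193 215 (.leaf [(187,211),(196,197)]) (.cons 197 215 (.leaf [(193,196),(187,211)]) (.cons 211 215 (.leaf [(187,193),(196,197)]) (.cons 196 215 (.leaf [(193,197),(187,211)]) (.cons 214 215 (.leaf [(187,211),(193,196)]) (.cons 191 215 (.leaf [(187,211),(193,196)])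 .nil)))))))) (.cons 193 187 (.leaf [(189,213),(196,197),(191,215),(211,214)]) (.cons 197 215 (.leaf [(189,213),(193,196),(187,211)]) (.cons 189 213 (.cons 215 187 (.leaf [(191,197),(193,196)]) (.cons 187 215 (.leaf [(193,211),(196,197)]) (.cons 193 187 (.leaf [(196,197),(191,215)]) (.cons 197 215 (.leaf [(193,196),(187,211)]) (.cons 196 193 (.leaf [(187,215),(191,197)]) (.cons 211 187 (.leaf [(191,197),(193,196)]) (.cons 191 215 (.leaf [(187,211),(193,196)]) .nil))))))) (.cons 211 215 (.leaf [(187,193),(189,213),(196,197)]) (.cons 196 215 (.leaf [(189,213),(193,197),(187,211)]) (.cons 191 215 (.leaf [(189,213),(187,211),(193,196)]) (.cons 214 215 (.leaf [(189,213),(187,211),(193,196)]) .nil)))))))))) (.cons 215 187 (.cons 195 190 (.leaf [(189,213),(191,197),(193,196),(211,214)]) (.cons 197 191 (.cons 195 190 (.leaf [(189,213),(193,196),(211,214)]) (.cons 190 195 (.leaf [(196,202),(211,213)]) (.cons 213 195 (.leaf [(211,214),(190,196)]) (.cons 196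 195 (.leaf [(190,202),(211,213)]) (.cons 214 195 (.leaf [(211,213),(190,196)]) (.cons 193 195 (.leaf [(211,213),(190,196)]) (.cons 211 195 (.leaf [(213,214),(190,196)]) (.cons 189 195 (.leaf [(211,213),(190,196)]) (.cons 202 195 (.leaf [(190,196),(211,213)]) .nil))))))))) (.cons 190 195 (.leaf [(191,197),(196,202),(211,213)]) (.cons 213 195 (.leaf [(191,197),(211,214),(190,196)]) (.cons 191 197 (.leaf [(190,195),(189,213),(211,214),(196,202)]) (.cons 214 195 (.leaf [(191,197),(211,213),(190,196)]) (.cons 196 195 (.leaf [(191,197),(190,202),(211,213)]) (.cons 211 195 (.leaf [(191,197),(213,214),(190,196)]) (.cons 189 195 (.leaf [(191,197),(211,213),(190,196)]) (.cons 193 195 (.leaf [(191,197),(211,213),(190,196)]) (.cons 202 195 (.leaf [(191,197),(190,196),(211,213)]) .nil))))))))))) (.cons 187 215 (.cons 195 190 (.leaf [(189,213),(193,211),(196,197)]) (.cons 190 195 (.leaf [(189,191),(193,211),(196,202)]) (.cons 193 211 (.cons 195 190 (.leaf [(189,213),(196,197)])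 (.cons 190 195 (.leaf [(189,191),(196,202)]) (.cons 189 195 (.leaf [(190,191),(196,202)]) (.cons 196 195 (.leaf [(189,191),(190,202)]) (.cons 197 195 (.leaf [(189,191),(190,196)]) (.cons 213 195 (.leaf [(189,191),(190,196)]) (.cons 191 190 (.leaf [(189,213),(195,196)]) (.cons 202 195 (.leaf [(189,191),(190,196)]) (.cons 214 195 (.leaf [(189,191),(190,196)]) .nil))))))))) (.cons 211 193 (.cons 190 195 (.leaf [(189,191),(196,202)]) (.cons 195 190 (.leaf [(189,213)]) (.cons 189 190 (.leaf [(195,213)]) (.cons 213 195 (.leaf [(189,191),(190,196)]) (.cons 191 190 (.leaf [(189,195)]) (.cons 196 190 (.leaf [(189,195)]) (.cons 202 190 (.leaf [(189,195)]) (.cons 214 190 (.leaf [(189,195)]) .nil)))))))) (.cons 189 195 (.leaf [(190,191),(193,211),(196,202)]) (.cons 196 195 (.leaf [(193,211),(189,191),(190,202)]) (.cons 213 195 (.leaf [(193,211),(189,191),(190,196)]) (.cons 191 190 (.leaf [(193,211),(189,213),(195,196)]) (.cons 197 195 (.leaf [(193,211),(189,191),(190,196)])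 (.cons 202 190 (.leaf [(193,211),(189,213),(195,196)]) (.cons 214 190 (.leaf [(193,211),(189,213),(195,196)]) .nil))))))))))) (.cons 190 195 (.cons 187 215 (.leaf [(189,191),(193,211),(196,202)]) (.cons 215 187 (.leaf [(191,197),(196,202),(211,213)]) (.cons 191 187 (.leaf [(197,215),(196,202),(211,213)]) (.cons 211 187 (.leaf [(191,197),(196,202),(213,214)]) (.cons 214 215 (.leaf [(196,202),(187,193),(189,191)]) (.cons 193 187 (.leaf [(191,197),(196,202),(211,213)]) (.cons 196 187 (.leaf [(202,214),(191,197),(211,213)]) (.cons 197 215 (.leaf [(187,193),(189,191),(196,202)]) (.cons 202 187 (.leaf [(196,214),(191,197),(211,213)]) (.cons 189 187 (.leaf [(191,197),(196,202),(211,213)]) (.cons 213 215 (.leaf [(187,193),(189,191),(196,202)]) .nil))))))))))) (.cons 193 187 (.cons 195 190 (.leaf [(189,213),(196,197),(191,215),(211,214)]) (.cons 190 195 (.leaf [(191,197),(196,202),(211,213)]) (.cons 197 195 (.leaf [(191,215),(190,196),(211,213)]) (.cons 196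 195 (.leaf [(190,202),(191,197),(211,213)]) (.cons 213 195 (.leaf [(191,197),(211,214),(190,196)]) (.cons 215 195 (.leaf [(191,197),(211,213),(190,196)]) (.cons 214 195 (.leaf [(190,196),(191,197),(211,213)]) (.cons 189 195 (.leaf [(191,197),(190,196),(211,213)]) (.cons 191 195 (.leaf [(197,215),(190,196),(211,213)]) (.cons 202 195 (.leaf [(190,196),(191,197),(211,213)]) (.cons 211 195 (.leaf [(191,197),(213,214),(190,196)]) .nil))))))))))) (.cons 197 215 (.cons 195 190 (.leaf [(189,213),(193,196),(187,211)]) (.cons 190 195 (.leaf [(187,193),(189,191),(196,202)]) (.cons 193 195 (.leaf [(187,211),(189,191),(190,196)]) (.cons 196 195 (.leaf [(187,189),(193,211),(190,202)]) (.cons 187 195 (.leaf [(193,211),(189,191),(190,196)]) (.cons 189 195 (.leaf [(187,191),(190,196),(193,211)]) (.cons 211 195 (.leaf [(187,193),(189,191),(190,196)]) (.cons 213 195 (.leaf [(187,189),(193,211),(190,196)]) (.cons 202 195 (.leaf [(187,189),(193,211),(190,196)]) (.cons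 214 195 (.leaf [(187,189),(193,211),(190,196)]) (.cons 191 195 (.leaf [(187,189),(190,196),(193,211)]) .nil))))))))))) (.cons 211 187 (.cons 195 190 (.leaf [(189,213),(191,197),(193,196),(214,215)]) (.cons 190 195 (.leaf [(191,197),(196,202),(213,214)]) (.cons 213 195 (.leaf [(214,215),(191,197),(190,196)]) (.cons 215 195 (.leaf [(191,197),(213,214),(190,196)]) (.cons 197 195 (.leaf [(191,215),(213,214),(190,196)]) (.cons 214 195 (.leaf [(213,215),(190,196),(191,197)]) (.cons 196 195 (.leaf [(190,202),(191,197),(213,214)]) (.cons 189 195 (.leaf [(191,197),(213,214),(190,196)]) (.cons 191 195 (.leaf [(197,215),(213,214),(190,196)]) (.cons 193 195 (.leaf [(191,197),(213,214),(190,196)]) (.cons 202 195 (.leaf [(190,196),(191,197),(213,214)]) .nil))))))))))) (.cons 213 195 (.cons 215 187 (.leaf [(191,197),(211,214),(190,196)]) (.cons 187 215 (.leaf [(193,211),(189,191),(190,196)]) (.cons 211 215 (.leaf [(187,193),(189,191),(190,196)]) (.cons 214 215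 (.leaf [(187,189),(193,211),(190,196)]) (.cons 191 215 (.leaf [(187,189),(190,196),(193,211)]) (.cons 193 187 (.leaf [(191,197),(211,214),(190,196)]) (.cons 197 215 (.leaf [(187,189),(193,211),(190,196)]) (.cons 190 215 (.leaf [(187,193),(189,191),(196,202)]) (.cons 196 215 (.leaf [(187,189),(193,211),(190,202)]) (.cons 202 215 (.leaf [(187,189),(193,211),(190,196)]) (.cons 189 215 (.leaf [(187,191),(190,196),(193,211)]) .nil))))))))))) (.cons 189 195 (.cons 187 215 (.leaf [(190,191),(193,211),(196,202)]) (.cons 215 187 (.leaf [(191,197),(211,213),(190,196)]) (.cons 191 187 (.leaf [(197,215),(190,196),(211,213)]) (.cons 211 187 (.leaf [(191,197),(213,214),(190,196)]) (.cons 190 187 (.leaf [(191,197),(196,202),(211,213)]) (.cons 193 187 (.leaf [(191,197),(190,196),(211,213)]) (.cons 197 215 (.leaf [(187,191),(190,196),(193,211)]) (.cons 214 215 (.leaf [(187,191),(190,196),(193,211)]) (.cons 196 187 (.leaf [(190,202),(191,197),(211,213)]) (.cons 202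 187 (.leaf [(190,196),(191,197),(211,213)]) (.cons 213 215 (.leaf [(187,191),(190,196),(193,211)]) .nil))))))))))) (.cons 191 215 (.cons 195 190 (.leaf [(189,213),(187,211),(193,196)]) (.cons 190 195 (.leaf [(187,189),(193,211),(196,202)]) (.cons 187 190 (.leaf [(193,211),(189,213),(195,196)]) (.cons 189 195 (.leaf [(187,190),(193,211),(196,202)]) (.cons 193 195 (.leaf [(187,211),(189,190),(196,202)]) (.cons 196 195 (.leaf [(187,189),(190,202),(193,211)]) (.cons 211 195 (.leaf [(187,193),(189,190),(196,202)]) (.cons 213 195 (.leaf [(187,189),(190,196),(193,211)]) (.cons 197 195 (.leaf [(187,189),(190,196),(193,211)]) (.cons 202 190 (.leaf [(187,211),(193,195),(189,213)]) (.cons 214 190 (.leaf [(187,211),(193,195),(189,213)]) .nil))))))))))) (.cons 196 190 (.cons 215 187 (.leaf [(191,197),(189,213),(193,195),(211,214)]) (.cons 187 215 (.leaf [(193,211),(189,213),(195,197)]) (.cons 193 187 (.leaf [(195,197),(189,213),(191,215),(211,214)]) (.cons 195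 215 (.leaf [(189,213),(193,197),(187,211)]) (.cons 197 215 (.leaf [(193,195),(187,211),(189,213)]) (.cons 211 215 (.leaf [(187,193),(189,213),(195,197)]) (.cons 213 215 (.leaf [(189,195),(187,211),(193,197)]) (.cons 189 215 (.leaf [(195,213),(187,211),(193,197)]) (.cons 191 215 (.leaf [(187,211),(193,195),(189,213)]) (.cons 214 215 (.leaf [(187,211),(193,195),(189,213)]) .nil)))))))))) (.cons 214 190 (.cons 215 187 (.leaf [(191,197),(211,213),(189,195),(193,196)]) (.cons 187 215 (.leaf [(193,211),(189,213),(195,196)]) (.cons 211 215 (.leaf [(187,193),(189,213),(195,196)]) (.cons 213 215 (.leaf [(189,195),(187,211),(193,196)]) (.cons 193 215 (.leaf [(187,211),(189,213),(195,196)]) (.cons 195 215 (.leaf [(189,213),(187,211),(193,196)]) (.cons 197 215 (.leaf [(187,211),(193,195),(189,213)]) (.cons 189 215 (.leaf [(195,213),(187,211),(193,196)]) (.cons 191 215 (.leaf [(187,211),(193,195),(189,213)]) (.cons 196 215 (.leaf [(187,211),(193,195),(189,213)])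 .nil)))))))))) (.cons 202 195 (.cons 215 187 (.leaf [(191,197),(190,196),(211,213)]) (.cons 187 215 (.leaf [(193,211),(189,191),(190,196)]) (.cons 211 187 (.leaf [(190,196),(191,197),(213,214)]) (.cons 214 215 (.leaf [(190,196),(187,189),(193,211)]) (.cons 190 187 (.leaf [(196,214),(191,197),(211,213)]) (.cons 191 215 (.leaf [(187,189),(190,196),(193,211)]) (.cons 193 187 (.leaf [(190,196),(191,197),(211,213)]) (.cons 196 215 (.leaf [(190,214),(187,189),(193,211)]) (.cons 197 215 (.leaf [(187,189),(193,211),(190,196)]) (.cons 213 215 (.leaf [(187,189),(193,211),(190,196)]) (.cons 189 187 (.leaf [(190,196),(191,197),(211,213)]) .nil))))))))))) .nil)))))))))))))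

/-- The masks of block 8. -/
def m8 : List ℕ := [0x800000080000000000000000000000000000000000000000000000, 0x80002080000000000000000000000000000000000000000000000, 0x200008200000000000000000000000000000000000000000000000, 0x400410400000000000000000000000000000000000000000000000, 0x8400000000000000000000000000000000000000000000000, 0x800020800000000000000000000000000000000000000000000000, 0xe80000000000000000000000000000000000000000000000, 0x3a000000000000000000000000000000000000000000000000, 0xe80000000000000000000000000000000000000000000000000000]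

/-- The strategy tree of block 9. -/
def t9 : Tr := (.cons 64 60 (.cons 172 208 (.cons 98 24 (.leaf [(27,207),(26,206),(29,134)]) (.cons 24 98 (.leaf [(27,207),(26,29),(134,204)]) (.cons 27 207 (.cons 24 98 (.leaf [(26,29),(134,204)]) (.cons 98 24 (.leaf [(26,206),(29,134)]) (.cons 29 24 (.leaf [(134,204),(26,98)]) (.cons 134 98 (.leaf [(29,204),(24,26)]) (.cons 26 24 (.leaf [(29,204),(98,134)]) (.cons 204 24 (.leaf [(29,134),(26,98)]) (.cons 206 98 (.leaf [(24,26),(29,134)]) .nil))))))) (.cons 207 27 (.leaf [(24,98),(29,204),(26,134)]) (.cons 134 98 (.leaf [(27,207),(29,204),(24,26)]) (.cons 29 24 (.leaf [(27,207),(134,204),(26,98)]) (.cons 204 98 (.leaf [(27,207),(29,134),(24,26)]) (.cons 26 98 (.leaf [(27,207),(24,29),(134,204)]) (.cons 206 98 (.leaf [(27,207),(29,134),(24,26)]) .nil))))))))) (.cons 207 27 (.cons 172 208 (.leaf [(24,98),(29,204),(26,134)]) (.cons 208 172 (.leaf [(204,206),(29,134),(26,98)]) (.cons 204 208 (.leaf [(29,134),(24,172),(26,98)])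 (.cons 98 172 (.leaf [(26,206),(29,134),(204,208)]) (.cons 134 204 (.leaf [(172,208),(24,98),(26,206)]) (.cons 206 208 (.leaf [(24,172),(26,98),(29,134)]) (.cons 24 172 (.leaf [(29,134),(204,206),(26,98)]) (.cons 29 204 (.leaf [(172,208),(24,98),(26,134)]) (.cons 26 172 (.leaf [(29,134),(98,206),(204,208)]) .nil))))))))) (.cons 208 172 (.cons 207 27 (.leaf [(204,206),(29,134),(26,98)]) (.cons 27 207 (.leaf [(24,29),(26,98),(134,204)]) (.cons 204 207 (.leaf [(29,134),(24,27),(26,98)]) (.cons 134 204 (.leaf [(27,207),(24,26),(98,206)]) (.cons 206 207 (.leaf [(24,26),(98,134),(29,204)]) (.cons 29 204 (.leaf [(27,207),(24,26),(98,134)]) (.cons 26 207 (.leaf [(24,27),(29,204),(98,134)]) (.cons 98 207 (.leaf [(24,26),(134,206),(29,204)]) (.cons 24 207 (.leaf [(26,98),(27,29),(134,204)]) .nil))))))))) (.cons 27 207 (.cons 172 208 (.cons 24 98 (.leaf [(26,29),(134,204)]) (.cons 98 24 (.leaf [(26,206),(29,134)]) (.cons 29 24 (.leaf [(134,204),(26,98)]) (.cons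 134 98 (.leaf [(29,204),(24,26)]) (.cons 26 24 (.leaf [(29,204),(98,134)]) (.cons 204 24 (.leaf [(29,134),(26,98)]) (.cons 206 98 (.leaf [(24,26),(29,134)]) .nil))))))) (.cons 208 172 (.leaf [(24,29),(26,98),(134,204)]) (.cons 24 172 (.leaf [(26,29),(134,204),(98,206)]) (.cons 29 172 (.leaf [(24,26),(134,204),(98,206)]) (.cons 98 172 (.leaf [(24,26),(29,204),(134,206)]) (.cons 134 172 (.leaf [(29,204),(24,26),(98,206)]) (.cons 26 172 (.leaf [(24,29),(134,204),(98,206)]) (.cons 204 172 (.leaf [(29,134),(24,26),(98,206)]) (.cons 206 172 (.leaf [(24,26),(29,204),(98,134)]) .nil))))))))) (.cons 98 172 (.cons 207 27 (.leaf [(26,206),(29,134),(204,208)]) (.cons 27 207 (.leaf [(24,26),(29,204),(134,206)]) (.cons 134 204 (.leaf [(26,206),(27,207),(24,29)]) (.cons 204 134 (.leaf [(27,207),(206,208),(24,26)]) (.cons 206 134 (.leaf [(27,207),(204,208),(24,26)]) (.cons 26 134 (.leaf [(27,207),(24,29),(204,206)]) (.cons 29 134 (.leaf [(27,207),(24,26),(204,206)])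 (.cons 208 207 (.leaf [(24,26),(134,206),(29,204)]) (.cons 24 27 (.leaf [(26,206),(29,134),(204,207)]) .nil))))))))) (.cons 134 172 (.cons 204 29 (.leaf [(27,207),(26,98),(206,208)]) (.cons 207 27 (.leaf [(29,204),(26,98),(206,208)]) (.cons 27 207 (.leaf [(29,204),(24,26),(98,206)]) (.cons 29 204 (.leaf [(27,207),(24,26),(98,206)]) (.cons 206 204 (.leaf [(26,98),(27,207),(24,29)]) (.cons 26 27 (.leaf [(29,204),(98,206),(207,208)]) (.cons 98 204 (.leaf [(26,206),(27,207),(24,29)]) (.cons 208 204 (.leaf [(27,207),(24,26),(98,206)]) (.cons 24 27 (.leaf [(29,204),(26,98),(206,207)]) .nil))))))))) (.cons 204 172 (.cons 207 27 (.leaf [(29,134),(206,208),(26,98)]) (.cons 134 29 (.leaf [(27,207),(26,98),(206,208)]) (.cons 27 207 (.leaf [(29,134),(24,26),(98,206)]) (.cons 29 134 (.leaf [(27,207),(24,26),(206,208)]) (.cons 206 207 (.leaf [(29,134),(26,98),(24,27)]) (.cons 208 207 (.leaf [(29,134),(24,27),(26,98)]) (.cons 26 134 (.leaf [(27,207),(24,29),(206,208)])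 (.cons 98 134 (.leaf [(27,207),(206,208),(24,26)]) (.cons 24 207 (.leaf [(29,134),(26,27),(98,206)]) .nil))))))))) (.cons 24 172 (.cons 27 207 (.leaf [(26,29),(134,204),(98,206)]) (.cons 207 27 (.leaf [(29,134),(204,206),(26,98)]) (.cons 29 27 (.leaf [(134,204),(26,98),(206,207)]) (.cons 134 27 (.leaf [(29,204),(26,98),(206,207)]) (.cons 204 207 (.leaf [(29,134),(26,27),(98,206)]) (.cons 26 27 (.leaf [(29,134),(98,206),(204,207)]) (.cons 206 207 (.leaf [(26,27),(29,204),(98,134)]) (.cons 98 27 (.leaf [(26,206),(29,134),(204,207)]) (.cons 208 207 (.leaf [(26,98),(27,29),(134,204)]) .nil))))))))) (.cons 29 172 (.cons 27 207 (.leaf [(24,26),(134,204),(98,206)]) (.cons 134 204 (.leaf [(27,207),(24,26),(98,206)]) (.cons 204 134 (.leaf [(27,207),(24,26),(206,208)]) (.cons 207 27 (.leaf [(134,204),(206,208),(26,98)]) (.cons 26 27 (.leaf [(134,204),(98,206),(207,208)]) (.cons 206 134 (.leaf [(27,207),(24,26),(204,208)]) (.cons 24 27 (.leaf [(134,204),(26,98),(206,207)])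 (.cons 98 134 (.leaf [(27,207),(24,26),(204,206)]) (.cons 208 204 (.leaf [(27,207),(24,26),(98,134)]) .nil))))))))) (.cons 206 172 (.cons 207 27 (.leaf [(204,208),(26,98),(29,134)]) (.cons 27 207 (.leaf [(24,26),(29,204),(98,134)]) (.cons 134 204 (.leaf [(26,98),(27,207),(24,29)]) (.cons 204 207 (.leaf [(29,134),(26,98),(24,27)]) (.cons 26 134 (.leaf [(27,207),(24,29),(204,208)]) (.cons 29 134 (.leaf [(27,207),(24,26),(204,208)]) (.cons 98 134 (.leaf [(27,207),(204,208),(24,26)]) (.cons 208 207 (.leaf [(24,26),(98,134),(29,204)]) (.cons 24 207 (.leaf [(26,27),(29,204),(98,134)]) .nil))))))))) (.cons 26 172 (.cons 27 207 (.leaf [(24,29),(134,204),(98,206)]) (.cons 207 27 (.leaf [(29,134),(98,206),(204,208)]) (.cons 134 27 (.leaf [(29,204),(98,206),(207,208)]) (.cons 29 27 (.leaf [(134,204),(98,206),(207,208)]) (.cons 204 134 (.leaf [(27,207),(24,29),(206,208)]) (.cons 206 134 (.leaf [(27,207),(24,29),(204,208)]) (.cons 98 134 (.leaf [(27,207),(24,29),(204,206)])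 (.cons 24 27 (.leaf [(29,134),(98,206),(204,207)]) (.cons 208 207 (.leaf [(24,27),(29,204),(98,134)]) .nil))))))))) .nil))))))))))) (.cons 60 64 (.cons 24 204 (.leaf [(27,207),(98,172),(26,29),(134,206)]) (.cons 204 24 (.leaf [(27,207),(206,208),(26,98)]) (.cons 207 27 (.leaf [(24,204),(98,172),(206,208),(26,134)]) (.cons 27 207 (.leaf [(24,204),(26,29),(98,172),(134,206)]) (.cons 98 24 (.leaf [(27,207),(26,134),(204,206)]) (.cons 172 24 (.leaf [(27,207),(26,98),(204,206)]) (.cons 206 24 (.leaf [(27,207),(26,98),(204,208)]) (.cons 26 24 (.leaf [(27,207),(98,134),(204,206)]) (.cons 134 24 (.leaf [(27,207),(26,98),(204,206)]) (.cons 208 24 (.leaf [(27,207),(204,206),(26,98)]) (.cons 29 24 (.leaf [(27,207),(26,98),(204,206)]) .nil))))))))))) (.cons 207 27 (.cons 64 60 (.cons 172 208 (.leaf [(24,98),(29,204),(26,134)]) (.cons 208 172 (.leaf [(204,206),(29,134),(26,98)]) (.cons 204 208 (.leaf [(29,134),(24,172),(26,98)]) (.cons 98 172 (.leaf [(26,206),(29,134),(204,208)])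 (.cons 134 204 (.leaf [(172,208),(24,98),(26,206)]) (.cons 206 208 (.leaf [(24,172),(26,98),(29,134)]) (.cons 24 172 (.leaf [(29,134),(204,206),(26,98)]) (.cons 29 204 (.leaf [(172,208),(24,98),(26,134)]) (.cons 26 172 (.leaf [(29,134),(98,206),(204,208)]) .nil))))))))) (.cons 60 64 (.leaf [(24,204),(98,172),(206,208),(26,134)]) (.cons 204 64 (.leaf [(24,60),(206,208),(98,172),(26,134)]) (.cons 172 64 (.leaf [(24,98),(60,204),(206,208),(26,134)]) (.cons 208 64 (.leaf [(204,206),(24,60),(98,172),(26,134)]) (.cons 24 64 (.leaf [(60,204),(98,172),(206,208),(26,134)]) (.cons 98 64 (.leaf [(24,172),(60,204),(26,134),(206,208)]) (.cons 206 64 (.leaf [(204,208),(24,60),(98,172),(26,134)]) (.cons 134 64 (.leaf [(24,60),(204,208),(98,172),(26,206)]) (.cons 26 64 (.leaf [(24,60),(204,208),(98,172),(134,206)]) (.cons 29 64 (.leaf [(24,172),(60,204),(26,98),(206,208)]) .nil))))))))))) (.cons 24 64 (.cons 27 207 (.leaf [(26,29),(60,204),(98,172),(134,206)]) (.cons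 98 172 (.cons 27 207 (.leaf [(26,29),(60,204),(134,206)]) (.cons 204 60 (.cons 207 27 (.leaf [(206,208),(26,134)]) (.cons 27 207 (.leaf [(26,29),(134,206)]) (.cons 206 207 (.leaf [(26,134),(27,29)]) (.cons 26 27 (.leaf [(134,206),(207,208)]) (.cons 134 26 (.leaf [(27,207),(206,208)]) (.cons 208 207 (.leaf [(26,134),(27,29)]) (.cons 29 27 (.leaf [(26,134),(206,207)]) .nil))))))) (.cons 207 27 (.leaf [(60,204),(26,134),(206,208)]) (.cons 26 27 (.leaf [(60,204),(134,206),(207,208)]) (.cons 60 204 (.leaf [(27,207),(26,29),(134,206)]) (.cons 206 207 (.leaf [(26,134),(60,204),(27,29)]) (.cons 134 26 (.leaf [(27,207),(60,204),(206,208)]) (.cons 29 27 (.leaf [(60,204),(26,134),(206,207)]) (.cons 208 204 (.leaf [(27,207),(26,29),(134,206)]) .nil))))))))) (.cons 204 60 (.cons 207 27 (.leaf [(98,172),(206,208),(26,134)]) (.cons 27 207 (.leaf [(26,29),(98,172),(134,206)]) (.cons 98 172 (.cons 207 27 (.leaf [(206,208),(26,134)]) (.cons 27 207 (.leaf [(26,29),(134,206)])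 (.cons 206 207 (.leaf [(26,134),(27,29)]) (.cons 26 27 (.leaf [(134,206),(207,208)]) (.cons 134 26 (.leaf [(27,207),(206,208)]) (.cons 208 207 (.leaf [(26,134),(27,29)]) (.cons 29 27 (.leaf [(26,134),(206,207)]) .nil))))))) (.cons 172 98 (.leaf [(27,207),(26,29),(206,208)]) (.cons 206 207 (.leaf [(98,172),(26,134),(27,29)]) (.cons 26 27 (.leaf [(98,172),(134,206),(207,208)]) (.cons 208 207 (.leaf [(98,172),(26,134),(27,29)]) (.cons 29 27 (.leaf [(98,172),(206,207),(26,134)]) (.cons 134 98 (.leaf [(27,207),(26,29),(206,208)]) .nil))))))))) (.cons 207 27 (.leaf [(60,204),(98,172),(206,208),(26,134)]) (.cons 172 98 (.leaf [(27,207),(60,204),(26,29),(206,208)]) (.cons 60 204 (.leaf [(27,207),(98,172),(26,29),(134,206)]) (.cons 26 27 (.leaf [(60,204),(98,172),(134,206),(207,208)]) (.cons 206 207 (.leaf [(60,204),(98,172),(26,134),(27,29)]) (.cons 29 27 (.leaf [(60,204),(98,172),(26,134),(206,207)]) (.cons 134 98 (.leaf [(27,207),(60,204),(26,29),(206,208)])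 (.cons 208 204 (.leaf [(27,207),(98,172),(26,29),(134,206)]) .nil))))))))))) (.cons 27 207 (.cons 64 60 (.cons 172 208 (.cons 24 98 (.leaf [(26,29),(134,204)]) (.cons 98 24 (.leaf [(26,206),(29,134)]) (.cons 29 24 (.leaf [(134,204),(26,98)]) (.cons 134 98 (.leaf [(29,204),(24,26)]) (.cons 26 24 (.leaf [(29,204),(98,134)]) (.cons 204 24 (.leaf [(29,134),(26,98)]) (.cons 206 98 (.leaf [(24,26),(29,134)]) .nil))))))) (.cons 208 172 (.leaf [(24,29),(26,98),(134,204)]) (.cons 24 172 (.leaf [(26,29),(134,204),(98,206)]) (.cons 29 172 (.leaf [(24,26),(134,204),(98,206)]) (.cons 98 172 (.leaf [(24,26),(29,204),(134,206)]) (.cons 134 172 (.leaf [(29,204),(24,26),(98,206)]) (.cons 26 172 (.leaf [(24,29),(134,204),(98,206)]) (.cons 204 172 (.leaf [(29,134),(24,26),(98,206)]) (.cons 206 172 (.leaf [(24,26),(29,204),(98,134)]) .nil))))))))) (.cons 24 64 (.leaf [(26,29),(60,204),(98,172),(134,206)]) (.cons 60 64 (.leaf [(24,204),(26,29),(98,172),(134,206)]) (.cons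 172 64 (.leaf [(24,98),(26,29),(60,204),(134,206)]) (.cons 98 24 (.leaf [(60,64),(26,206),(29,134),(172,208)]) (.cons 204 64 (.leaf [(24,60),(26,29),(98,172),(134,206)]) (.cons 26 24 (.leaf [(60,64),(172,208),(98,206),(29,134)]) (.cons 29 64 (.leaf [(24,26),(60,204),(98,172),(134,206)]) (.cons 134 64 (.leaf [(24,29),(26,206),(60,204),(98,172)]) (.cons 208 64 (.leaf [(24,29),(26,134),(60,204),(98,172)]) (.cons 206 64 (.leaf [(24,29),(26,134),(60,204),(98,172)]) .nil))))))))))) (.cons 204 64 (.cons 24 60 (.cons 207 27 (.leaf [(98,172),(206,208),(26,134)]) (.cons 27 207 (.leaf [(26,29),(98,172),(134,206)]) (.cons 98 172 (.cons 207 27 (.leaf [(206,208),(26,134)]) (.cons 27 207 (.leaf [(26,29),(134,206)]) (.cons 206 207 (.leaf [(26,134),(27,29)]) (.cons 26 27 (.leaf [(134,206),(207,208)]) (.cons 134 26 (.leaf [(27,207),(206,208)]) (.cons 208 207 (.leaf [(26,134),(27,29)]) (.cons 29 27 (.leaf [(26,134),(206,207)]) .nil))))))) (.cons 172 98 (.leaf [(27,207),(26,29),(206,208)])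 (.cons 206 207 (.leaf [(98,172),(26,134),(27,29)]) (.cons 26 27 (.leaf [(98,172),(134,206),(207,208)]) (.cons 208 207 (.leaf [(98,172),(26,134),(27,29)]) (.cons 29 27 (.leaf [(98,172),(206,207),(26,134)]) (.cons 134 98 (.leaf [(27,207),(26,29),(206,208)]) .nil))))))))) (.cons 207 27 (.leaf [(24,60),(206,208),(98,172),(26,134)]) (.cons 27 207 (.leaf [(24,60),(26,29),(98,172),(134,206)]) (.cons 60 24 (.leaf [(27,207),(206,208),(26,98)]) (.cons 98 24 (.leaf [(27,207),(26,134),(206,208)]) (.cons 206 207 (.leaf [(24,60),(98,172),(26,134),(27,29)]) (.cons 172 24 (.leaf [(27,207),(206,208),(26,98)]) (.cons 208 207 (.leaf [(24,60),(98,172),(26,134),(27,29)]) (.cons 26 24 (.leaf [(27,207),(98,134),(206,208)]) (.cons 134 24 (.leaf [(27,207),(26,98),(206,208)]) (.cons 29 24 (.leaf [(27,207),(206,208),(26,98)]) .nil))))))))))) (.cons 172 64 (.cons 24 98 (.leaf [(27,207),(60,204),(26,29),(206,208)]) (.cons 98 24 (.leaf [(27,207),(26,134),(204,206)]) (.cons 207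 27 (.leaf [(24,98),(60,204),(206,208),(26,134)]) (.cons 27 207 (.leaf [(24,98),(26,29),(60,204),(134,206)]) (.cons 204 24 (.leaf [(27,207),(206,208),(26,98)]) (.cons 206 24 (.leaf [(27,207),(26,98),(204,208)]) (.cons 26 24 (.leaf [(27,207),(98,134),(204,206)]) (.cons 60 24 (.leaf [(27,207),(26,98),(204,206)]) (.cons 134 24 (.leaf [(27,207),(26,98),(204,206)]) (.cons 208 24 (.leaf [(27,207),(204,206),(26,98)]) (.cons 29 24 (.leaf [(27,207),(26,98),(204,206)]) .nil))))))))))) (.cons 98 64 (.cons 24 172 (.cons 27 207 (.leaf [(26,29),(60,204),(134,206)]) (.cons 204 60 (.cons 207 27 (.leaf [(206,208),(26,134)]) (.cons 27 207 (.leaf [(26,29),(134,206)]) (.cons 206 207 (.leaf [(26,134),(27,29)]) (.cons 26 27 (.leaf [(134,206),(207,208)]) (.cons 134 26 (.leaf [(27,207),(206,208)]) (.cons 208 207 (.leaf [(26,134),(27,29)]) (.cons 29 27 (.leaf [(26,134),(206,207)]) .nil))))))) (.cons 207 27 (.leaf [(60,204),(26,134),(206,208)]) (.cons 26 27 (.leaf [(60,204),(134,206),(207,208)])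 (.cons 60 204 (.leaf [(27,207),(26,29),(134,206)]) (.cons 206 207 (.leaf [(26,134),(60,204),(27,29)]) (.cons 134 26 (.leaf [(27,207),(60,204),(206,208)]) (.cons 29 27 (.leaf [(60,204),(26,134),(206,207)]) (.cons 208 204 (.leaf [(27,207),(26,29),(134,206)]) .nil))))))))) (.cons 207 27 (.leaf [(24,172),(60,204),(26,134),(206,208)]) (.cons 27 207 (.leaf [(24,172),(26,29),(60,204),(134,206)]) (.cons 172 24 (.leaf [(27,207),(26,134),(204,206)]) (.cons 204 24 (.leaf [(27,207),(26,134),(206,208)]) (.cons 206 24 (.leaf [(26,134),(27,207),(204,208)]) (.cons 26 24 (.leaf [(27,207),(134,206),(204,208)]) (.cons 134 24 (.leaf [(26,206),(27,207),(204,208)]) (.cons 60 24 (.leaf [(27,207),(26,134),(204,206)]) (.cons 208 24 (.leaf [(27,207),(26,134),(204,206)]) (.cons 29 24 (.leaf [(27,207),(26,134),(204,206)]) .nil))))))))))) (.cons 208 64 (.cons 207 27 (.leaf [(204,206),(24,60),(98,172),(26,134)]) (.cons 24 204 (.leaf [(27,207),(98,172),(26,29),(134,206)]) (.cons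 27 207 (.leaf [(24,29),(26,134),(60,204),(98,172)]) (.cons 204 207 (.leaf [(24,60),(98,172),(26,134),(27,29)]) (.cons 98 24 (.leaf [(27,207),(26,134),(204,206)]) (.cons 206 207 (.leaf [(24,27),(60,204),(98,172),(26,134)]) (.cons 172 24 (.leaf [(27,207),(204,206),(26,98)]) (.cons 26 207 (.leaf [(24,172),(27,29),(60,204),(98,134)]) (.cons 60 24 (.leaf [(27,207),(204,206),(26,98)]) (.cons 134 207 (.leaf [(24,27),(60,204),(98,172),(26,206)]) (.cons 29 207 (.leaf [(24,27),(26,134),(60,204),(98,172)]) .nil))))))))))) (.cons 134 64 (.cons 207 27 (.leaf [(24,60),(204,208),(98,172),(26,206)]) (.cons 24 98 (.leaf [(27,207),(60,204),(26,29),(206,208)]) (.cons 27 207 (.leaf [(24,29),(26,206),(60,204),(98,172)]) (.cons 98 24 (.leaf [(26,206),(27,207),(204,208)]) (.cons 204 24 (.leaf [(27,207),(26,98),(206,208)]) (.cons 206 98 (.leaf [(27,207),(24,60),(204,208),(26,29)]) (.cons 26 98 (.leaf [(27,207),(24,29),(60,204),(206,208)]) (.cons 172 24 (.leaf [(27,207),(26,98),(204,206)])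 (.cons 60 24 (.leaf [(27,207),(26,98),(204,206)]) (.cons 208 207 (.leaf [(24,27),(60,204),(98,172),(26,206)]) (.cons 29 24 (.leaf [(27,207),(26,98),(204,206)]) .nil))))))))))) (.cons 206 64 (.cons 207 27 (.leaf [(204,208),(24,60),(98,172),(26,134)]) (.cons 24 207 (.leaf [(60,204),(98,172),(26,134),(27,29)]) (.cons 27 207 (.leaf [(24,29),(26,134),(60,204),(98,172)]) (.cons 98 24 (.leaf [(26,134),(27,207),(204,208)]) (.cons 204 207 (.leaf [(24,60),(98,172),(26,134),(27,29)]) (.cons 26 207 (.leaf [(98,134),(24,172),(27,29),(60,204)]) (.cons 134 98 (.leaf [(27,207),(24,60),(204,208),(26,29)]) (.cons 172 24 (.leaf [(27,207),(26,98),(204,208)]) (.cons 208 207 (.leaf [(24,27),(60,204),(98,172),(26,134)]) (.cons 60 24 (.leaf [(27,207),(26,98),(204,208)]) (.cons 29 207 (.leaf [(24,27),(26,134),(60,204),(98,172)]) .nil))))))))))) (.cons 26 64 (.cons 24 27 (.leaf [(60,204),(98,172),(134,206),(207,208)]) (.cons 27 207 (.leaf [(24,29),(60,204),(98,172),(134,206)])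 (.cons 207 27 (.leaf [(24,60),(204,208),(98,172),(134,206)]) (.cons 98 24 (.leaf [(27,207),(134,206),(204,208)]) (.cons 204 24 (.leaf [(27,207),(98,134),(206,208)]) (.cons 206 207 (.leaf [(98,134),(24,172),(27,29),(60,204)]) (.cons 134 98 (.leaf [(27,207),(24,29),(60,204),(206,208)]) (.cons 172 24 (.leaf [(27,207),(98,134),(204,206)]) (.cons 60 24 (.leaf [(27,207),(98,134),(204,206)]) (.cons 29 24 (.leaf [(27,207),(98,134),(204,206)]) (.cons 208 207 (.leaf [(24,172),(27,29),(60,204),(98,134)]) .nil))))))))))) (.cons 29 64 (.cons 24 27 (.leaf [(60,204),(98,172),(26,134),(206,207)]) (.cons 27 207 (.leaf [(24,26),(60,204),(98,172),(134,206)]) (.cons 207 27 (.leaf [(24,172),(60,204),(26,98),(206,208)]) (.cons 98 24 (.leaf [(27,207),(26,134),(204,206)]) (.cons 204 24 (.leaf [(27,207),(206,208),(26,98)]) (.cons 26 24 (.leaf [(27,207),(98,134),(204,206)]) (.cons 172 24 (.leaf [(27,207),(26,98),(204,206)]) (.cons 206 207 (.leaf [(24,27),(26,134),(60,204),(98,172)])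 (.cons 60 24 (.leaf [(27,207),(26,98),(204,206)]) (.cons 134 24 (.leaf [(27,207),(26,98),(204,206)]) (.cons 208 207 (.leaf [(24,27),(26,134),(60,204),(98,172)]) .nil))))))))))) .nil)))))))))))))

/-- The masks of block 9. -/
def m9 : List ℕ := [0x2d000000, 0x1000000000000000000000000000000000001000000001000000, 0x10000000000000000004000000000000000001000000, 0x4000000000000000004000000004000000000000000004000000, 0x8000000000000000000000000000000000000000000008000000, 0x10000000010000000000000000000000000010000000000000000, 0x1000000000000000004000000000000000010000000020000000, 0x11000000000000000, 0x1d000000000000000000000000000000000000000000000000000]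

/-- The strategy tree of block 10. -/
def t10 : Tr := (.cons 153 45 (.leaf [(63,183),(147,171),(39,111),(129,135)]) (.cons 45 153 (.leaf [(129,171),(39,147),(63,69),(111,135)]) (.cons 129 45 (.leaf [(111,135),(63,183),(153,171),(39,147)]) (.cons 171 153 (.leaf [(45,129),(111,135),(39,147),(63,69)]) (.cons 111 153 (.leaf [(129,135),(39,63),(147,183),(45,171)]) (.cons 147 153 (.leaf [(39,63),(111,183),(45,171),(129,135)]) (.cons 183 153 (.leaf [(39,63),(111,147),(45,171),(129,135)]) (.cons 63 153 (.leaf [(39,147),(45,69),(129,171),(111,135)]) (.cons 135 153 (.leaf [(111,129),(45,171),(39,147),(63,69)]) (.cons 39 45 (.leaf [(63,153),(111,183),(129,135),(147,171)]) (.cons 69 45 (.leaf [(63,183),(147,153),(39,111),(129,135)]) .nil)))))))))))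

/-- The masks of block 10. -/
def m10 : List ℕ := [0x8000000008000000008000000000000000008000000000, 0x8000000000200000000000000000000200000000000, 0x200000000000000000000000000200000000000, 0x8000000200000000000000000000008000000000000000, 0x208000208000000000, 0x8200008000000000000000000000000000, 0x8000208000000000000000000000000000000000000]

/-- The strategy tree of block 11. -/
def t11 : Tr := (.cons 47 119 (.cons 173 89 (.cons 65 167 (.leaf [(53,59),(95,125),(137,209)]) (.cons 167 161 (.cons 65 59 (.leaf [(95,125),(137,209)]) (.cons 59 95 (.leaf [(53,65),(137,209)]) (.cons 95 59 (.leaf [(65,125),(137,209)]) (.cons 209 65 (.leaf [(59,95)]) (.cons 53 65 (.leaf [(59,95)]) (.cons 137 65 (.leaf [(59,95)]) (.cons 125 65 (.leaf [(59,95)]) .nil))))))) (.cons 161 167 (.leaf [(53,59),(65,137),(95,125)]) (.cons 59 167 (.leaf [(53,65),(95,125),(137,209)]) (.cons 95 167 (.leaf [(65,125),(53,59),(137,209)]) (.cons 137 65 (.leaf [(161,167),(59,95)]) (.cons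 209 65 (.leaf [(161,167),(59,95)]) (.cons 53 65 (.leaf [(161,167),(59,95)]) (.cons 125 65 (.leaf [(161,167),(59,95)]) .nil))))))))) (.cons 65 59 (.cons 173 89 (.leaf [(95,125),(137,209),(161,167)]) (.cons 89 173 (.leaf [(95,125),(53,161)]) (.cons 125 95 (.cons 173 89 (.leaf [(137,209),(161,167)]) (.cons 89 173 (.leaf [(53,161)]) (.cons 161 173 (.leaf [(53,89)]) (.cons 167 173 (.leaf [(53,89)]) (.cons 137 173 (.leaf [(53,89)]) (.cons 209 173 (.leaf [(53,89)]) (.cons 53 89 (.leaf [(137,173),(161,167)]) .nil))))))) (.cons 95 125 (.leaf [(89,173),(137,209),(161,167)]) (.cons 161 173 (.leaf [(95,125),(53,89)]) (.cons 167 173 (.leaf [(95,125),(53,89)]) (.cons 137 173 (.leaf [(95,125),(53,89)]) (.cons 209 173 (.leaf [(95,125),(53,89)]) (.cons 53 173 (.leaf [(95,125),(89,161)]) .nil))))))))) (.cons 89 173 (.cons 65 53 (.leaf [(95,125),(59,167)]) (.cons 53 65 (.leaf [(125,161),(59,95)]) (.cons 59 65 (.leaf [(95,167),(53,125)]) (.cons 125 65 (.leaf [(53,161),(59,95)])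 (.cons 95 65 (.leaf [(59,167),(53,125)]) (.cons 161 53 (.leaf [(59,167),(65,95)]) (.cons 167 59 (.leaf [(53,125),(65,95)]) .nil))))))) (.cons 167 173 (.cons 59 95 (.leaf [(53,65),(89,125)]) (.cons 95 59 (.leaf [(65,125),(53,89)]) (.cons 65 59 (.leaf [(95,125),(53,89)]) (.cons 53 59 (.leaf [(65,95),(89,125)]) (.cons 125 95 (.leaf [(53,89),(59,65)]) (.cons 161 59 (.leaf [(53,89),(65,95)]) (.cons 89 59 (.leaf [(53,125),(65,95)]) .nil))))))) (.cons 59 167 (.cons 65 53 (.leaf [(89,173),(95,125),(137,209)]) (.cons 173 89 (.leaf [(53,65),(95,125),(137,209)]) (.cons 53 65 (.leaf [(89,173),(125,161)]) (.cons 89 173 (.cons 65 53 (.leaf [(95,125)]) (.cons 53 65 (.leaf [(125,161)]) (.cons 125 65 (.leaf [(53,161)]) (.cons 161 53 (.leaf [(65,95)]) (.cons 95 65 (.leaf [(53,125)]) .nil))))) (.cons 125 65 (.leaf [(89,173),(53,161)]) (.cons 95 65 (.leaf [(89,173),(53,125)]) (.cons 161 65 (.leaf [(89,173),(53,125)]) (.cons 137 65 (.leaf [(89,173),(53,125)]) (.cons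 209 65 (.leaf [(89,173),(53,125)]) .nil))))))))) (.cons 95 167 (.cons 65 125 (.leaf [(53,59),(89,173),(137,209)]) (.cons 173 89 (.leaf [(65,125),(53,59),(137,209)]) (.cons 89 173 (.cons 65 125 (.leaf [(53,59)]) (.cons 125 65 (.leaf [(53,161)]) (.cons 53 65 (.leaf [(125,161)]) (.cons 161 125 (.leaf [(53,59)]) (.cons 59 65 (.leaf [(53,125)]) .nil))))) (.cons 125 65 (.leaf [(89,173),(53,161)]) (.cons 53 65 (.leaf [(89,173),(125,161)]) (.cons 59 65 (.leaf [(89,173),(53,125)]) (.cons 161 65 (.leaf [(89,173),(53,125)]) (.cons 137 65 (.leaf [(89,173),(53,125)]) (.cons 209 65 (.leaf [(89,173),(53,125)]) .nil))))))))) (.cons 161 173 (.cons 65 53 (.leaf [(95,125),(59,167)]) (.cons 53 65 (.leaf [(89,125),(59,95)]) (.cons 59 65 (.leaf [(95,167),(53,89)]) (.cons 125 65 (.leaf [(53,89),(59,95)]) (.cons 95 65 (.leaf [(59,167),(53,89)]) (.cons 167 59 (.leaf [(53,89),(65,95)]) (.cons 89 53 (.leaf [(59,167),(65,95)]) .nil))))))) (.cons 53 65 (.cons 173 89 (.leaf [(161,167),(59,95)])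 (.cons 89 173 (.leaf [(125,161),(59,95)]) (.cons 161 173 (.leaf [(89,125),(59,95)]) (.cons 167 173 (.leaf [(59,95),(89,125)]) (.cons 59 167 (.leaf [(89,173),(125,161)]) (.cons 125 89 (.leaf [(59,95),(161,167)]) (.cons 95 167 (.leaf [(89,173),(125,161)]) .nil))))))) (.cons 125 65 (.cons 173 89 (.leaf [(161,167),(59,95)]) (.cons 89 173 (.leaf [(53,161),(59,95)]) (.cons 161 89 (.leaf [(167,173),(59,95)]) (.cons 167 173 (.leaf [(59,95),(53,89)]) (.cons 53 89 (.leaf [(59,95),(161,167)]) (.cons 59 167 (.leaf [(89,173),(53,161)]) (.cons 95 167 (.leaf [(89,173),(53,161)]) .nil))))))) (.cons 137 173 (.leaf [(53,59),(65,125),(95,167),(89,161)]) (.cons 209 173 (.leaf [(53,59),(65,125),(95,167),(89,161)]) .nil))))))))))) (.cons 119 47 (.cons 125 137 (.leaf [(65,95),(53,89),(59,167),(161,173)]) (.cons 137 125 (.leaf [(59,95),(65,173),(161,167)]) (.cons 167 125 (.leaf [(59,95),(161,173),(65,137)]) (.cons 95 125 (.leaf [(59,167),(161,173),(65,137)]) (.cons 65 125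 (.leaf [(59,95),(137,173),(161,167)]) (.cons 161 125 (.leaf [(167,173),(59,95),(65,137)]) (.cons 173 125 (.leaf [(161,167),(59,95),(65,137)]) (.cons 59 125 (.leaf [(95,167),(161,173),(65,137)]) (.cons 209 125 (.leaf [(59,95),(65,137),(161,167)]) (.cons 53 125 (.leaf [(59,95),(161,167),(65,137)]) (.cons 89 125 (.leaf [(59,95),(161,167),(65,137)]) .nil))))))))))) (.cons 173 47 (.cons 167 161 (.cons 95 59 (.cons 65 125 (.leaf [(137,209)]) (.cons 125 65 (.leaf [(119,137)]) (.cons 137 65 (.leaf [(119,125)]) (.cons 209 65 (.leaf [(119,125)]) (.cons 119 125 (.leaf [(65,137)]) .nil))))) (.cons 65 95 (.leaf [(137,209),(119,125)]) (.cons 137 65 (.leaf [(59,95),(119,125)]) (.cons 59 95 (.leaf [(65,137),(119,125)]) (.cons 125 95 (.leaf [(119,137),(65,209)]) (.cons 209 65 (.leaf [(59,95),(119,125)]) (.cons 119 137 (.leaf [(59,95),(65,125)]) .nil))))))) (.cons 161 167 (.leaf [(53,89),(65,95),(119,125),(137,209)]) (.cons 125 65 (.leaf [(119,137),(161,167),(53,89),(59,95)])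 (.cons 65 125 (.leaf [(137,209),(161,167),(59,95)]) (.cons 137 125 (.leaf [(65,209),(161,167),(59,95)]) (.cons 95 167 (.cons 125 65 (.leaf [(119,137),(53,89)]) (.cons 65 125 (.leaf [(137,209)]) (.cons 137 125 (.leaf [(65,209)]) (.cons 209 65 (.leaf [(119,125),(53,89)]) (.cons 119 125 (.leaf [(65,137)]) (.cons 161 125 (.leaf [(65,137)]) (.cons 53 125 (.leaf [(65,137)]) (.cons 89 125 (.leaf [(65,137)]) .nil)))))))) (.cons 209 65 (.leaf [(161,167),(59,95),(119,125),(53,89)]) (.cons 119 125 (.leaf [(161,167),(59,95),(65,137)]) (.cons 59 167 (.leaf [(65,95),(119,125),(137,209),(53,89)]) (.cons 53 161 (.leaf [(59,167),(65,95),(119,125),(137,209)]) (.cons 89 161 (.leaf [(59,167),(65,95),(119,125),(137,209)]) .nil))))))))))) (.cons 125 47 (.cons 95 65 (.leaf [(59,167),(119,137),(53,89),(161,173)]) (.cons 65 95 (.leaf [(119,137),(53,89),(173,209),(161,167)]) (.cons 137 119 (.cons 65 95 (.leaf [(173,209),(53,89),(161,167)]) (.cons 95 65 (.leaf [(59,167),(53,89),(161,173)])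 (.cons 161 65 (.leaf [(53,89),(167,173),(59,95)]) (.cons 167 95 (.leaf [(161,173),(53,89),(65,209)]) (.cons 173 65 (.leaf [(161,167),(53,89),(59,95)]) (.cons 209 65 (.leaf [(53,89),(59,95),(161,167)]) (.cons 53 65 (.leaf [(89,161),(59,95),(167,173)]) (.cons 89 65 (.leaf [(53,161),(59,95),(167,173)]) (.cons 59 95 (.leaf [(53,89),(65,173),(161,167)]) .nil))))))))) (.cons 161 167 (.leaf [(53,89),(65,95),(119,137),(173,209)]) (.cons 167 95 (.leaf [(119,137),(161,173),(53,89),(65,209)]) (.cons 119 137 (.leaf [(65,95),(53,89),(59,167),(161,173)]) (.cons 173 65 (.leaf [(119,137),(161,167),(53,89),(59,95)]) (.cons 53 161 (.leaf [(65,95),(119,137),(59,167),(173,209)]) (.cons 89 161 (.leaf [(65,95),(119,137),(59,167),(173,209)]) (.cons 59 95 (.leaf [(119,137),(53,89),(161,167),(65,173)]) (.cons 209 65 (.leaf [(119,137),(53,89),(59,95),(161,167)]) .nil))))))))))) (.cons 65 47 (.cons 125 95 (.leaf [(119,137),(53,89),(173,209),(161,167)]) (.cons 95 125 (.leaf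 [(59,167),(137,209),(161,173)]) (.cons 167 95 (.leaf [(161,173),(119,125),(137,209),(53,89)]) (.cons 137 125 (.leaf [(173,209),(59,95),(161,167)]) (.cons 173 125 (.leaf [(137,209),(161,167),(59,95)]) (.cons 161 125 (.leaf [(167,173),(59,95),(137,209)]) (.cons 209 125 (.leaf [(137,173),(59,95),(161,167)]) (.cons 119 125 (.leaf [(59,95),(137,173),(161,167)]) (.cons 59 95 (.leaf [(119,125),(137,173),(161,167),(53,89)]) (.cons 53 125 (.leaf [(59,95),(137,173),(161,167)]) (.cons 89 125 (.leaf [(59,95),(137,173),(161,167)]) .nil))))))))))) (.cons 167 47 (.cons 95 59 (.cons 125 65 (.leaf [(119,137),(161,173),(53,89)]) (.cons 65 125 (.leaf [(161,173),(137,209)]) (.cons 161 173 (.leaf [(65,125),(53,89),(119,137)]) (.cons 173 161 (.cons 65 125 (.leaf [(137,209)]) (.cons 125 65 (.leaf [(119,137)]) (.cons 137 65 (.leaf [(119,125)]) (.cons 209 65 (.leaf [(119,125)]) (.cons 119 125 (.leaf [(65,137)]) .nil))))) (.cons 137 125 (.leaf [(161,173),(65,209)]) (.cons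 119 125 (.leaf [(161,173),(65,137)]) (.cons 209 125 (.leaf [(161,173),(65,137)]) (.cons 53 125 (.leaf [(161,173),(65,137)]) (.cons 89 125 (.leaf [(161,173),(65,137)]) .nil))))))))) (.cons 161 173 (.leaf [(59,95),(53,89),(65,125),(119,137)]) (.cons 173 161 (.cons 95 59 (.cons 65 125 (.leaf [(137,209)]) (.cons 125 65 (.leaf [(119,137)]) (.cons 137 65 (.leaf [(119,125)]) (.cons 209 65 (.leaf [(119,125)]) (.cons 119 125 (.leaf [(65,137)]) .nil))))) (.cons 65 95 (.leaf [(137,209),(119,125)]) (.cons 137 65 (.leaf [(59,95),(119,125)]) (.cons 59 95 (.leaf [(65,137),(119,125)]) (.cons 125 95 (.leaf [(119,137),(65,209)]) (.cons 209 65 (.leaf [(59,95),(119,125)]) (.cons 119 137 (.leaf [(59,95),(65,125)]) .nil))))))) (.cons 125 95 (.leaf [(119,137),(161,173),(53,89),(65,209)]) (.cons 59 95 (.leaf [(161,173),(119,125),(53,89),(65,137)]) (.cons 65 95 (.leaf [(161,173),(119,125),(137,209),(53,89)]) (.cons 137 125 (.leaf [(59,95),(161,173),(65,209)]) (.cons 119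 125 (.leaf [(59,95),(161,173),(65,137)]) (.cons 209 173 (.leaf [(59,95),(65,125),(119,137),(53,89)]) (.cons 53 161 (.leaf [(59,95),(65,125),(119,137),(173,209)]) (.cons 89 161 (.leaf [(59,95),(65,125),(119,137),(173,209)]) .nil))))))))))) (.cons 95 47 (.cons 125 65 (.leaf [(59,167),(119,137),(53,89),(161,173)]) (.cons 167 59 (.cons 125 65 (.leaf [(119,137),(161,173),(53,89)]) (.cons 65 125 (.leaf [(161,173),(137,209)]) (.cons 161 173 (.leaf [(65,125),(53,89),(119,137)]) (.cons 173 161 (.cons 65 125 (.leaf [(137,209)]) (.cons 125 65 (.leaf [(119,137)]) (.cons 137 65 (.leaf [(119,125)]) (.cons 209 65 (.leaf [(119,125)]) (.cons 119 125 (.leaf [(65,137)]) .nil))))) (.cons 137 125 (.leaf [(161,173),(65,209)]) (.cons 119 125 (.leaf [(161,173),(65,137)]) (.cons 209 125 (.leaf [(161,173),(65,137)]) (.cons 53 125 (.leaf [(161,173),(65,137)]) (.cons 89 125 (.leaf [(161,173),(65,137)]) .nil))))))))) (.cons 65 125 (.leaf [(59,167),(137,209),(161,173)]) (.cons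 59 167 (.leaf [(65,125),(119,137),(53,89),(173,209)]) (.cons 161 167 (.leaf [(65,125),(53,89),(119,137),(173,209)]) (.cons 137 125 (.leaf [(59,167),(65,209),(161,173)]) (.cons 173 167 (.cons 125 65 (.leaf [(119,137),(53,89)]) (.cons 65 125 (.leaf [(137,209)]) (.cons 137 125 (.leaf [(65,209)]) (.cons 209 65 (.leaf [(119,125),(53,89)]) (.cons 119 125 (.leaf [(65,137)]) (.cons 161 125 (.leaf [(65,137)]) (.cons 53 125 (.leaf [(65,137)]) (.cons 89 125 (.leaf [(65,137)]) .nil)))))))) (.cons 119 125 (.leaf [(59,167),(161,173),(65,137)]) (.cons 209 125 (.leaf [(59,167),(65,137),(161,173)]) (.cons 53 125 (.leaf [(59,167),(161,173),(65,137)]) (.cons 89 125 (.leaf [(59,167),(161,173),(65,137)]) .nil))))))))))) (.cons 161 47 (.cons 167 173 (.leaf [(59,95),(53,89),(65,125),(119,137)]) (.cons 125 167 (.leaf [(53,89),(65,95),(119,137),(173,209)]) (.cons 173 167 (.leaf [(53,89),(65,95),(119,125),(137,209)]) (.cons 95 167 (.leaf [(65,125),(53,89),(119,137),(173,209)])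 (.cons 65 125 (.leaf [(167,173),(59,95),(137,209)]) (.cons 137 125 (.leaf [(167,173),(59,95),(65,209)]) (.cons 53 125 (.leaf [(167,173),(59,95),(65,137)]) (.cons 119 125 (.leaf [(167,173),(59,95),(65,137)]) (.cons 89 125 (.leaf [(167,173),(59,95),(65,137)]) (.cons 59 167 (.leaf [(53,89),(65,173),(95,125),(119,137)]) (.cons 209 167 (.leaf [(53,89),(65,95),(119,125),(137,173)]) .nil))))))))))) (.cons 137 119 (.cons 173 65 (.leaf [(47,89),(161,167),(59,95),(53,125)]) (.cons 65 173 (.leaf [(95,125),(47,53),(59,167),(89,161)]) (.cons 167 173 (.leaf [(59,95),(65,125),(47,53),(89,161)]) (.cons 95 65 (.leaf [(59,167),(47,89),(161,173),(53,125)]) (.cons 161 173 (.leaf [(47,53),(89,125),(59,167),(65,95)]) (.cons 47 173 (.leaf [(53,59),(65,125),(95,167),(89,161)]) (.cons 89 173 (.leaf [(47,53),(125,161),(59,167),(65,95)]) (.cons 59 65 (.leaf [(95,167),(47,89),(161,173),(53,125)]) (.cons 125 65 (.leaf [(47,173),(53,89),(59,95),(161,167)]) (.cons 209 173 (.leaf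 [(47,59),(95,167),(65,125),(53,89)]) (.cons 53 65 (.leaf [(47,173),(89,125),(59,95),(161,167)]) .nil))))))))))) (.cons 89 47 (.cons 125 161 (.leaf [(65,95),(119,137),(59,167),(173,209)]) (.cons 161 125 (.leaf [(167,173),(59,95),(65,137)]) (.cons 167 161 (.leaf [(59,95),(65,125),(119,137),(173,209)]) (.cons 95 125 (.leaf [(59,167),(161,173),(65,137)]) (.cons 65 125 (.leaf [(59,95),(137,173),(161,167)]) (.cons 137 125 (.leaf [(59,95),(65,173),(161,167)]) (.cons 173 161 (.leaf [(59,167),(65,95),(119,125),(137,209)]) (.cons 53 125 (.leaf [(59,95),(161,167),(65,137)]) (.cons 119 125 (.leaf [(59,95),(161,167),(65,137)]) (.cons 59 167 (.leaf [(53,161),(95,125),(65,173),(119,137)]) (.cons 209 125 (.leaf [(59,95),(65,137),(161,167)]) .nil))))))))))) (.cons 59 47 (.cons 167 95 (.leaf [(161,173),(119,125),(53,89),(65,137)]) (.cons 95 167 (.leaf [(65,125),(119,137),(53,89),(173,209)]) (.cons 125 95 (.leaf [(119,137),(53,89),(161,167),(65,173)]) (.cons 65 95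 (.leaf [(119,125),(137,173),(161,167),(53,89)]) (.cons 161 167 (.leaf [(53,89),(65,173),(95,125),(119,137)]) (.cons 137 125 (.leaf [(95,167),(65,209),(161,173)]) (.cons 173 167 (.leaf [(65,95),(119,125),(137,209),(53,89)]) (.cons 119 125 (.leaf [(95,167),(161,173),(65,137)]) (.cons 209 167 (.leaf [(65,95),(119,125),(137,173),(53,89)]) (.cons 53 167 (.leaf [(65,173),(95,125),(89,161),(119,137)]) (.cons 89 167 (.leaf [(53,161),(95,125),(65,173),(119,137)]) .nil))))))))))) (.cons 53 47 (.cons 125 161 (.leaf [(65,95),(119,137),(59,167),(173,209)]) (.cons 161 125 (.leaf [(167,173),(59,95),(65,137)]) (.cons 167 161 (.leaf [(59,95),(65,125),(119,137),(173,209)]) (.cons 95 125 (.leaf [(59,167),(161,173),(65,137)]) (.cons 65 125 (.leaf [(59,95),(137,173),(161,167)]) (.cons 137 125 (.leaf [(59,95),(65,173),(161,167)]) (.cons 173 161 (.leaf [(59,167),(65,95),(119,125),(137,209)]) (.cons 119 125 (.leaf [(59,95),(161,167),(65,137)]) (.cons 89 125 (.leaf [(59,95),(161,167),(65,137)])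 (.cons 59 167 (.leaf [(65,173),(95,125),(89,161),(119,137)]) (.cons 209 125 (.leaf [(59,95),(65,137),(161,167)]) .nil))))))))))) (.cons 209 47 (.cons 125 65 (.leaf [(119,137),(53,89),(59,95),(161,167)]) (.cons 65 125 (.leaf [(137,173),(59,95),(161,167)]) (.cons 167 173 (.leaf [(59,95),(65,125),(119,137),(53,89)]) (.cons 137 125 (.leaf [(65,173),(59,95),(161,167)]) (.cons 173 65 (.leaf [(161,167),(59,95),(119,125),(53,89)]) (.cons 95 125 (.leaf [(59,167),(65,137),(161,173)]) (.cons 161 167 (.leaf [(53,89),(65,95),(119,125),(137,173)]) (.cons 119 125 (.leaf [(59,95),(65,137),(161,167)]) (.cons 59 167 (.leaf [(65,95),(119,125),(137,173),(53,89)]) (.cons 53 125 (.leaf [(59,95),(65,137),(161,167)]) (.cons 89 125 (.leaf [(59,95),(65,137),(161,167)]) .nil))))))))))) .nil)))))))))))))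

/-- The masks of block 11. -/
def m11 : List ℕ := [0x20000000000000000000020000000000800000000000, 0x800000000000000000800000000000, 0x20000000020000000020000000020000000000000, 0x800000000000000000800000000800000000000000, 0x20000000020000000020000000000000000020000000000000000, 0x20000000800000020000000000000000, 0x20820800000000000, 0x20020800000000000000000000000000000, 0x20820000000000000000000000000000000000000000]

/-- The strategy tree of block 12. -/
def t12 : Tr := (.cons 67 70 (.cons 178 141 (.leaf [(175,177),(31,103),(33,34),(105,106)]) (.cons 141 178 (.leaf [(31,175),(33,34),(103,106),(105,177)]) (.cons 103 175 (.leaf [(105,106),(141,178),(31,34),(33,177)]) (.cons 175 178 (.leaf [(31,103),(33,34),(105,106),(141,177)]) (.cons 31 175 (.leaf [(33,34),(141,178),(103,106),(105,177)]) (.cons 33 141 (.leaf [(31,34),(103,175),(105,106),(177,178)]) (.cons 105 141 (.leaf [(103,106),(31,175),(33,34),(177,178)]) (.cons 177 178 (.leaf [(31,175),(33,34),(103,106),(105,141)])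 (.cons 34 178 (.leaf [(31,33),(103,175),(105,106),(141,177)]) (.cons 106 103 (.leaf [(141,178),(31,34),(33,105),(175,177)]) .nil)))))))))) (.cons 70 67 (.cons 105 175 (.leaf [(103,106),(31,33),(34,178),(141,177)]) (.cons 175 105 (.leaf [(177,178),(31,33),(34,106)]) (.cons 34 105 (.leaf [(31,33),(106,178),(175,177)]) (.cons 106 105 (.leaf [(34,178),(31,33),(175,177)]) (.cons 178 175 (.leaf [(34,106),(31,33),(103,105),(141,177)]) (.cons 33 105 (.leaf [(31,34),(106,178),(175,177)]) (.cons 177 105 (.leaf [(175,178),(31,33),(34,106)]) (.cons 103 105 (.leaf [(31,33),(34,106),(175,177)]) (.cons 31 105 (.leaf [(33,34),(106,178),(175,177)]) (.cons 141 105 (.leaf [(31,33),(34,106),(175,177)]) .nil)))))))))) (.cons 105 70 (.cons 103 106 (.cons 33 141 (.leaf [(31,34),(67,175),(177,178)]) (.cons 67 141 (.leaf [(31,175),(33,34),(177,178)]) (.cons 141 67 (.leaf [(33,177),(31,34),(175,178)]) (.cons 175 67 (.leaf [(177,178),(31,34),(33,141)]) (.cons 177 141 (.leaf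 [(175,178),(31,67),(33,34)]) (.cons 178 67 (.leaf [(175,177),(31,34),(33,141)]) (.cons 31 67 (.leaf [(33,34),(141,177),(175,178)]) (.cons 34 33 (.leaf [(31,67),(175,177),(141,178)]) .nil)))))))) (.cons 33 141 (.leaf [(31,34),(103,106),(67,175),(177,178)]) (.cons 106 103 (.leaf [(31,34),(33,141),(67,178),(175,177)]) (.cons 141 177 (.leaf [(67,178),(103,106),(31,175),(33,34)]) (.cons 177 141 (.leaf [(103,106),(175,178),(31,67),(33,34)]) (.cons 178 141 (.leaf [(103,106),(175,177),(31,67),(33,34)]) (.cons 67 141 (.leaf [(103,106),(31,175),(33,34),(177,178)]) (.cons 175 177 (.leaf [(103,106),(31,67),(33,34),(141,178)]) (.cons 31 67 (.leaf [(33,34),(103,106),(141,177),(175,178)]) (.cons 34 33 (.leaf [(103,106),(31,67),(141,178),(175,177)]) .nil)))))))))) (.cons 175 70 (.cons 178 177 (.leaf [(67,141),(31,103),(33,34),(105,106)]) (.cons 177 178 (.leaf [(31,67),(33,34),(103,106),(105,141)]) (.cons 67 178 (.leaf [(31,103),(33,34),(105,106),(141,177)]) (.cons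 103 67 (.leaf [(105,106),(177,178),(31,34),(33,141)]) (.cons 31 67 (.leaf [(33,34),(177,178),(103,106),(105,141)]) (.cons 33 177 (.leaf [(31,34),(67,103),(141,178),(105,106)]) (.cons 105 177 (.leaf [(103,106),(31,67),(33,34),(141,178)]) (.cons 141 178 (.leaf [(31,67),(33,34),(103,106),(105,177)]) (.cons 34 178 (.leaf [(31,33),(67,103),(105,106),(141,177)]) (.cons 106 103 (.leaf [(177,178),(31,34),(33,105),(67,141)]) .nil)))))))))) (.cons 178 70 (.cons 67 141 (.leaf [(175,177),(31,103),(33,34),(105,106)]) (.cons 141 67 (.leaf [(175,177),(31,34),(33,105),(103,106)]) (.cons 175 177 (.leaf [(67,141),(31,103),(33,34),(105,106)]) (.cons 177 175 (.leaf [(67,141),(31,34),(33,105),(103,106)]) (.cons 33 141 (.leaf [(31,34),(175,177),(67,103),(105,106)]) (.cons 103 67 (.leaf [(105,106),(175,177),(31,34),(33,141)]) (.cons 105 141 (.leaf [(103,106),(175,177),(31,67),(33,34)]) (.cons 31 67 (.leaf [(33,34),(175,177),(103,106),(105,141)]) (.cons 34 33 (.leaf [(67,141),(175,177),(31,103),(105,106)])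 (.cons 106 67 (.leaf [(103,105),(175,177),(31,34),(33,141)]) .nil)))))))))) (.cons 33 67 (.cons 105 175 (.leaf [(31,34),(103,106),(141,177),(70,178)]) (.cons 34 31 (.cons 105 70 (.leaf [(103,106),(141,177),(175,178)]) (.cons 70 105 (.leaf [(106,178),(175,177)]) (.cons 106 105 (.leaf [(70,178),(175,177)]) (.cons 175 105 (.leaf [(177,178),(70,106)]) (.cons 177 105 (.leaf [(175,178),(70,106)]) (.cons 178 70 (.leaf [(175,177),(103,106),(105,141)]) (.cons 103 105 (.leaf [(70,106),(175,177)]) (.cons 141 105 (.leaf [(70,106),(175,177)]) .nil)))))))) (.cons 175 105 (.leaf [(31,34),(177,178),(70,106)]) (.cons 177 105 (.leaf [(31,34),(175,178),(70,106)]) (.cons 31 34 (.leaf [(70,105),(103,106),(175,178),(141,177)]) (.cons 70 105 (.leaf [(31,34),(106,178),(175,177)]) (.cons 106 105 (.leaf [(31,34),(70,178),(175,177)]) (.cons 178 105 (.leaf [(31,34),(175,177),(70,106)]) (.cons 103 105 (.leaf [(31,34),(175,177),(70,106)]) (.cons 141 105 (.leaf [(31,34),(175,177),(70,106)])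 .nil)))))))))) (.cons 34 70 (.cons 33 31 (.leaf [(67,178),(105,141),(103,106),(175,177)]) (.cons 31 33 (.leaf [(67,103),(175,177),(141,178),(105,106)]) (.cons 178 33 (.leaf [(67,141),(175,177),(31,103),(105,106)]) (.cons 67 178 (.leaf [(31,33),(103,175),(105,106),(141,177)]) (.cons 103 31 (.leaf [(105,106),(67,178),(33,141),(175,177)]) (.cons 105 33 (.leaf [(103,106),(31,67),(141,178),(175,177)]) (.cons 141 33 (.leaf [(67,178),(31,103),(105,106),(175,177)]) (.cons 175 178 (.leaf [(31,33),(67,103),(105,106),(141,177)]) (.cons 177 33 (.leaf [(175,178),(67,141),(31,103),(105,106)]) (.cons 106 33 (.leaf [(103,105),(31,67),(141,178),(175,177)]) .nil)))))))))) (.cons 103 67 (.cons 105 106 (.leaf [(70,175),(31,34),(33,141),(177,178)]) (.cons 106 105 (.leaf [(31,33),(34,70),(175,177)]) (.cons 175 105 (.leaf [(177,178),(31,33),(34,70)]) (.cons 33 105 (.leaf [(31,34),(175,177),(70,106)]) (.cons 34 105 (.leaf [(31,33),(70,106),(175,177)]) (.cons 70 105 (.leaf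 [(31,33),(34,106),(175,177)]) (.cons 177 105 (.leaf [(175,178),(31,33),(34,70)]) (.cons 178 105 (.leaf [(175,177),(31,33),(34,70)]) (.cons 31 105 (.leaf [(33,34),(175,177),(70,106)]) (.cons 141 105 (.leaf [(31,33),(175,177),(34,70)]) .nil)))))))))) (.cons 106 70 (.cons 103 105 (.leaf [(31,67),(33,34),(175,177),(141,178)]) (.cons 105 103 (.leaf [(31,34),(33,141),(67,178),(175,177)]) (.cons 178 67 (.leaf [(103,105),(175,177),(31,34),(33,141)]) (.cons 33 105 (.leaf [(31,34),(67,103),(141,178),(175,177)]) (.cons 67 103 (.leaf [(141,178),(31,34),(33,105),(175,177)]) (.cons 141 105 (.leaf [(67,178),(31,103),(33,34),(175,177)]) (.cons 175 103 (.leaf [(177,178),(31,34),(33,105),(67,141)]) (.cons 177 105 (.leaf [(175,178),(31,103),(33,34),(67,141)]) (.cons 31 103 (.leaf [(33,34),(67,178),(105,141),(175,177)]) (.cons 34 33 (.leaf [(103,105),(31,67),(141,178),(175,177)]) .nil)))))))))) (.cons 141 67 (.cons 105 175 (.leaf [(33,177),(103,106),(31,34),(70,178)])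 (.cons 33 105 (.leaf [(31,34),(175,177),(70,106)]) (.cons 175 105 (.leaf [(177,178),(31,33),(34,70)]) (.cons 177 105 (.leaf [(175,178),(31,33),(34,70)]) (.cons 34 105 (.leaf [(31,33),(70,106),(175,177)]) (.cons 70 105 (.leaf [(31,33),(34,106),(175,177)]) (.cons 106 105 (.leaf [(31,33),(34,70),(175,177)]) (.cons 178 105 (.leaf [(175,177),(31,33),(34,70)]) (.cons 103 105 (.leaf [(31,33),(175,177),(34,70)]) (.cons 31 33 (.leaf [(34,70),(105,175),(103,106),(177,178)]) .nil)))))))))) (.cons 177 67 (.cons 105 175 (.leaf [(33,141),(103,106),(31,34),(70,178)]) (.cons 175 178 (.leaf [(70,105),(31,34),(33,141),(103,106)]) (.cons 178 175 (.leaf [(31,34),(33,141),(103,105),(70,106)]) (.cons 33 105 (.leaf [(31,34),(175,178),(70,106)]) (.cons 34 105 (.leaf [(31,33),(175,178),(70,106)]) (.cons 70 105 (.leaf [(175,178),(31,33),(34,106)]) (.cons 106 105 (.leaf [(175,178),(31,33),(34,70)]) (.cons 103 105 (.leaf [(175,178),(31,33),(34,70)]) (.cons 141 105 (.leaf [(175,178),(31,33),(34,70)])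 (.cons 31 105 (.leaf [(33,34),(175,178),(70,106)]) .nil)))))))))) (.cons 31 67 (.cons 33 34 (.leaf [(70,105),(103,106),(175,178),(141,177)]) (.cons 34 33 (.cons 70 178 (.leaf [(105,175),(103,106)]) (.cons 105 70 (.leaf [(103,106),(175,177)]) (.cons 106 178 (.leaf [(103,105),(70,175)]) (.cons 175 178 (.leaf [(70,105),(103,106)]) (.cons 178 70 (.leaf [(175,177),(103,105)]) (.cons 103 105 (.leaf [(70,106),(175,177)]) (.cons 177 178 (.leaf [(70,175),(103,105)]) .nil))))))) (.cons 105 175 (.leaf [(33,34),(103,106),(141,177),(70,178)]) (.cons 175 105 (.leaf [(33,34),(177,178),(70,106)]) (.cons 70 105 (.leaf [(33,34),(106,178),(175,177)]) (.cons 106 105 (.leaf [(33,34),(70,178),(175,177)]) (.cons 177 105 (.leaf [(33,34),(175,178),(70,106)]) (.cons 178 34 (.leaf [(175,177),(70,105),(103,106),(33,141)]) (.cons 103 105 (.leaf [(33,34),(175,177),(70,106)]) (.cons 141 33 (.leaf [(34,70),(105,175),(103,106),(177,178)]) .nil)))))))))) .nil))))))))))))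

/-- The masks of block 12. -/
def m12 : List ℕ := [0x680000000, 0x400000000200000000000000000080000000000000000, 0x80000000000000000080000000080000000080000000, 0x200000000200000000200000000000000000200000000, 0x400000000000000000400000000400000000400000000, 0x80000000000000000200000000400000000000000000, 0x480000000000000000, 0x680000000000000000000000000, 0x680000000000000000000000000000000000000000000]

/-- The strategy tree of block 13. -/
def t13 : Tr := (.cons 44 212 (.cons 80 188 (.cons 92 104 (.cons 20 56 (.leaf [(2,32),(62,182)]) (.cons 56 20 (.leaf [(62,68),(32,182)]) (.cons 32 20 (.leaf [(62,182),(56,68)]) (.cons 62 56 (.leaf [(32,182),(2,20)]) (.cons 2 20 (.leaf [(32,182),(56,62)]) (.cons 68 56 (.leaf [(2,20),(32,62)]) (.cons 182 32 (.leaf [(20,56),(62,68)]) .nil))))))) (.cons 104 92 (.leaf [(2,20),(56,62)]) (.cons 20 92 (.leaf [(2,32),(56,62)]) (.cons 56 92 (.leaf [(62,68),(2,20)]) (.cons 32 92 (.leaf [(2,20),(56,62)]) (.cons 62 92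 (.leaf [(56,68),(2,20)]) (.cons 2 92 (.leaf [(20,32),(56,62)]) (.cons 68 92 (.leaf [(56,62),(2,20)]) (.cons 182 92 (.leaf [(2,20),(56,62)]) .nil))))))))) (.cons 92 80 (.cons 20 56 (.leaf [(2,32),(62,182)]) (.cons 56 20 (.leaf [(62,68),(32,182)]) (.cons 32 20 (.leaf [(62,182),(56,68)]) (.cons 62 56 (.leaf [(32,182),(2,20)]) (.cons 2 20 (.leaf [(32,182),(56,62)]) (.cons 68 56 (.leaf [(2,20),(32,62)]) (.cons 182 32 (.leaf [(20,56),(62,68)]) .nil))))))) (.cons 20 92 (.leaf [(2,32),(80,188),(56,62)]) (.cons 56 92 (.leaf [(62,68),(80,188),(2,20)]) (.cons 188 80 (.leaf [(2,20),(32,182),(56,92),(62,68)]) (.cons 32 92 (.leaf [(2,20),(80,188),(56,62)]) (.cons 62 92 (.leaf [(56,68),(80,188),(2,20)]) (.cons 2 20 (.leaf [(80,188),(56,68),(32,62),(92,104)]) (.cons 68 56 (.leaf [(80,188),(2,20),(92,104),(32,62)]) (.cons 104 80 (.leaf [(2,20),(32,182),(56,92),(62,68)]) (.cons 182 92 (.leaf [(80,188),(2,20),(56,62)]) .nil))))))))))) (.cons 212 44 (.cons 32 92 (.leaf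 [(2,20),(68,104),(182,188)]) (.cons 92 32 (.leaf [(20,56),(80,104),(182,188)]) (.cons 182 188 (.cons 32 92 (.leaf [(2,20),(68,104)]) (.cons 92 32 (.leaf [(20,56),(80,104)]) (.cons 104 32 (.leaf [(80,92),(20,56)]) (.cons 20 32 (.leaf [(56,92),(80,104)]) (.cons 2 32 (.leaf [(20,56),(80,92)]) (.cons 68 32 (.leaf [(20,56),(80,92)]) (.cons 80 92 (.leaf [(2,20),(32,68)]) (.cons 56 92 (.leaf [(2,20),(32,68)]) (.cons 62 32 (.leaf [(20,56),(80,92)]) .nil))))))))) (.cons 104 32 (.leaf [(80,92),(182,188),(20,56)]) (.cons 20 32 (.leaf [(56,92),(182,188),(80,104)]) (.cons 188 182 (.leaf [(2,32),(20,56),(80,92),(68,104)]) (.cons 2 32 (.leaf [(182,188),(20,56),(80,92)]) (.cons 68 32 (.leaf [(182,188),(20,56),(80,92)]) (.cons 80 92 (.leaf [(182,188),(2,20),(32,68)]) (.cons 56 92 (.leaf [(182,188),(2,20),(32,68)]) (.cons 62 32 (.leaf [(182,188),(20,56),(80,92)]) .nil))))))))))) (.cons 92 212 (.cons 80 104 (.cons 20 56 (.leaf [(2,32),(44,188),(62,182)]) (.cons 44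 188 (.cons 20 56 (.leaf [(2,32),(62,182)]) (.cons 56 20 (.leaf [(62,68),(32,182)]) (.cons 32 20 (.leaf [(62,182),(56,68)]) (.cons 62 56 (.leaf [(32,182),(2,20)]) (.cons 2 20 (.leaf [(32,182),(56,62)]) (.cons 68 56 (.leaf [(2,20),(32,62)]) (.cons 182 32 (.leaf [(20,56),(62,68)]) .nil))))))) (.cons 56 20 (.leaf [(44,188),(32,182),(62,68)]) (.cons 32 20 (.leaf [(44,188),(62,182),(56,68)]) (.cons 188 44 (.leaf [(20,56),(2,32),(62,182)]) (.cons 62 20 (.leaf [(32,182),(44,188),(56,68)]) (.cons 2 20 (.leaf [(44,188),(32,182),(56,62)]) (.cons 182 32 (.leaf [(20,56),(44,188),(62,68)]) (.cons 68 44 (.leaf [(20,56),(2,32),(62,182)]) .nil))))))))) (.cons 20 56 (.leaf [(2,32),(80,104),(62,182),(44,188)]) (.cons 56 20 (.leaf [(80,104),(32,182),(62,68),(44,188)]) (.cons 32 20 (.leaf [(62,182),(80,104),(44,188),(56,68)]) (.cons 104 80 (.leaf [(20,56),(2,32),(62,182),(44,68)]) (.cons 44 80 (.cons 20 56 (.leaf [(2,32),(62,182)]) (.cons 56 20 (.leaf [(62,68),(32,182)])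 (.cons 32 20 (.leaf [(62,182),(56,68)]) (.cons 62 56 (.leaf [(32,182),(2,20)]) (.cons 2 20 (.leaf [(32,182),(56,62)]) (.cons 68 56 (.leaf [(2,20),(32,62)]) (.cons 182 32 (.leaf [(20,56),(62,68)]) .nil))))))) (.cons 62 20 (.leaf [(32,182),(80,104),(44,188),(56,68)]) (.cons 2 20 (.leaf [(80,104),(32,182),(56,62),(44,188)]) (.cons 182 32 (.leaf [(20,56),(80,104),(44,188),(62,68)]) (.cons 188 80 (.leaf [(20,56),(2,32),(62,182),(44,68)]) (.cons 68 20 (.leaf [(80,104),(32,182),(56,62),(44,188)]) .nil))))))))))) (.cons 32 212 (.cons 92 20 (.leaf [(62,182),(80,104),(44,188),(56,68)]) (.cons 20 2 (.cons 92 56 (.leaf [(62,182),(80,104),(44,188)]) (.cons 56 92 (.leaf [(44,80),(62,68)]) (.cons 80 92 (.leaf [(44,188),(56,62)]) (.cons 44 92 (.leaf [(80,188),(56,62)]) (.cons 62 92 (.leaf [(44,80),(56,68)]) (.cons 104 92 (.leaf [(44,56),(80,188)]) (.cons 182 92 (.leaf [(44,56),(80,188)]) (.cons 188 92 (.leaf [(44,80),(56,62)]) (.cons 68 92 (.leaf [(44,80),(56,62)])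 .nil))))))))) (.cons 2 20 (.leaf [(44,56),(80,188),(62,182),(92,104)]) (.cons 80 92 (.leaf [(2,20),(44,188),(56,62)]) (.cons 44 92 (.leaf [(2,20),(80,188),(56,62)]) (.cons 56 20 (.leaf [(44,188),(62,68),(80,104),(92,182)]) (.cons 62 92 (.leaf [(2,20),(44,80),(56,68)]) (.cons 104 92 (.leaf [(2,20),(44,56),(80,188)]) (.cons 182 92 (.leaf [(2,20),(44,56),(80,188)]) (.cons 188 80 (.leaf [(2,20),(56,92),(62,182),(44,68)]) (.cons 68 20 (.leaf [(44,188),(56,62),(80,104),(92,182)]) .nil))))))))))) (.cons 2 44 (.cons 32 20 (.leaf [(62,92),(68,212),(80,104),(182,188)]) (.cons 20 32 (.leaf [(56,92),(80,104),(182,188)]) (.cons 92 20 (.leaf [(80,104),(32,68),(62,182),(188,212)]) (.cons 104 32 (.leaf [(80,92),(20,56),(182,188)]) (.cons 212 32 (.leaf [(182,188),(20,56),(80,92)]) (.cons 182 32 (.leaf [(188,212),(20,56),(80,92)]) (.cons 80 92 (.leaf [(20,32),(182,188),(68,104)]) (.cons 188 32 (.leaf [(182,212),(20,56),(80,92)]) (.cons 56 20 (.leaf [(80,104),(62,92),(182,188),(32,68)])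 (.cons 68 32 (.leaf [(20,56),(80,92),(182,188)]) (.cons 62 32 (.leaf [(20,56),(80,92),(182,188)]) .nil))))))))))) (.cons 80 44 (.cons 92 104 (.leaf [(20,56),(2,32),(62,182),(188,212)]) (.cons 104 92 (.leaf [(2,20),(32,68),(182,188)]) (.cons 32 92 (.leaf [(2,20),(68,104),(182,188)]) (.cons 20 92 (.leaf [(2,32),(182,188),(68,104)]) (.cons 212 92 (.leaf [(182,188),(2,20),(32,68)]) (.cons 182 92 (.leaf [(188,212),(2,20),(32,68)]) (.cons 2 92 (.leaf [(20,32),(182,188),(68,104)]) (.cons 188 92 (.leaf [(182,212),(2,20),(32,68)]) (.cons 56 92 (.leaf [(2,20),(182,188),(32,68)]) (.cons 68 92 (.leaf [(2,20),(32,104),(182,188)]) (.cons 62 92 (.leaf [(2,20),(182,188),(32,68)]) .nil))))))))))) (.cons 188 44 (.cons 212 182 (.leaf [(2,32),(20,56),(80,92),(68,104)]) (.cons 182 212 (.leaf [(2,20),(32,62),(56,92),(80,104)]) (.cons 92 182 (.leaf [(20,56),(80,104),(2,32),(68,212)]) (.cons 32 212 (.leaf [(2,20),(56,92),(62,182),(80,104)]) (.cons 20 92 (.leaf [(2,32),(182,212),(68,104)])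 (.cons 104 92 (.leaf [(182,212),(2,20),(32,68)]) (.cons 2 32 (.leaf [(182,212),(20,56),(80,92)]) (.cons 80 92 (.leaf [(182,212),(2,20),(32,68)]) (.cons 56 92 (.leaf [(182,212),(2,20),(32,68)]) (.cons 68 212 (.leaf [(2,20),(32,62),(56,92),(80,104)]) (.cons 62 182 (.leaf [(2,20),(32,68),(56,92),(80,104)]) .nil))))))))))) (.cons 20 92 (.cons 2 32 (.cons 44 212 (.leaf [(80,188),(56,62)]) (.cons 212 44 (.leaf [(182,188)]) (.cons 188 44 (.leaf [(182,212)]) (.cons 80 44 (.leaf [(182,188)]) (.cons 182 212 (.leaf [(44,56),(80,188)]) (.cons 68 44 (.leaf [(182,188)]) (.cons 56 44 (.leaf [(182,188)]) (.cons 62 44 (.leaf [(182,188)]) .nil)))))))) (.cons 32 2 (.leaf [(44,56),(80,188),(68,104),(182,212)]) (.cons 44 2 (.leaf [(80,188),(56,62),(182,212),(32,68)]) (.cons 212 2 (.leaf [(182,188),(32,68),(44,80),(56,62)]) (.cons 188 44 (.leaf [(2,32),(182,212),(68,104)]) (.cons 68 32 (.leaf [(2,212),(44,80),(56,62),(182,188)]) (.cons 80 44 (.leaf [(2,32),(182,188),(68,104)])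 (.cons 182 212 (.leaf [(2,32),(44,56),(80,188)]) (.cons 104 32 (.leaf [(2,212),(44,80),(182,188),(56,62)]) (.cons 56 2 (.leaf [(44,62),(32,68),(80,188),(182,212)]) (.cons 62 2 (.leaf [(44,56),(32,68),(80,188),(182,212)]) .nil))))))))))) (.cons 104 92 (.cons 212 44 (.leaf [(32,68),(182,188),(2,20)]) (.cons 44 212 (.leaf [(80,188),(2,20),(56,62)]) (.cons 32 212 (.leaf [(2,20),(44,56),(80,188)]) (.cons 2 212 (.leaf [(20,32),(44,56),(80,188)]) (.cons 188 212 (.leaf [(44,80),(2,20),(56,62)]) (.cons 68 212 (.leaf [(2,20),(44,80),(56,62)]) (.cons 80 44 (.leaf [(2,20),(32,68),(182,188)]) (.cons 20 32 (.leaf [(2,212),(44,80),(182,188),(56,62)]) (.cons 182 212 (.leaf [(2,20),(44,56),(80,188)]) (.cons 56 44 (.leaf [(2,20),(32,68),(182,188)]) (.cons 62 44 (.leaf [(2,20),(32,68),(182,188)]) .nil))))))))))) (.cons 182 212 (.cons 92 32 (.leaf [(20,56),(80,104),(44,188),(62,68)]) (.cons 32 92 (.leaf [(2,20),(44,56),(80,188)]) (.cons 80 92 (.leaf [(44,188),(2,20),(56,62)])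 (.cons 20 92 (.leaf [(2,32),(44,56),(80,188)]) (.cons 44 92 (.leaf [(80,188),(2,20),(56,62)]) (.cons 56 92 (.leaf [(2,20),(44,80),(62,68)]) (.cons 62 92 (.leaf [(2,20),(44,80),(56,68)]) (.cons 2 32 (.leaf [(20,56),(44,62),(80,188),(92,104)]) (.cons 104 92 (.leaf [(2,20),(44,56),(80,188)]) (.cons 188 80 (.leaf [(2,20),(32,62),(56,92),(44,68)]) (.cons 68 92 (.leaf [(2,20),(44,80),(56,62)]) .nil))))))))))) (.cons 56 92 (.cons 44 212 (.leaf [(62,68),(80,188),(2,20)]) (.cons 212 44 (.leaf [(182,188),(2,20),(32,68)]) (.cons 2 44 (.leaf [(20,32),(182,188),(68,104)]) (.cons 188 44 (.leaf [(182,212),(2,20),(32,68)]) (.cons 32 2 (.leaf [(44,80),(62,68),(182,188),(104,212)]) (.cons 68 44 (.leaf [(2,20),(32,104),(182,188)]) (.cons 80 44 (.leaf [(2,20),(182,188),(32,68)]) (.cons 20 2 (.leaf [(44,62),(32,68),(80,188),(182,212)]) (.cons 182 212 (.leaf [(2,20),(44,80),(62,68)]) (.cons 62 44 (.leaf [(2,20),(182,188),(32,68)]) (.cons 104 44 (.leaf [(2,20),(32,68),(182,188)])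 .nil))))))))))) (.cons 68 44 (.cons 32 104 (.leaf [(2,20),(56,92),(62,182),(188,212)]) (.cons 92 32 (.leaf [(20,56),(80,104),(182,188)]) (.cons 104 32 (.leaf [(80,92),(20,56),(182,188)]) (.cons 20 32 (.leaf [(56,92),(80,104),(182,188)]) (.cons 212 32 (.leaf [(182,188),(20,56),(80,92)]) (.cons 182 32 (.leaf [(188,212),(20,56),(80,92)]) (.cons 2 32 (.leaf [(20,56),(80,92),(182,188)]) (.cons 80 92 (.leaf [(2,20),(32,104),(182,188)]) (.cons 188 212 (.leaf [(2,20),(32,62),(56,92),(80,104)]) (.cons 56 92 (.leaf [(2,20),(32,104),(182,188)]) (.cons 62 32 (.leaf [(20,56),(80,92),(182,188)]) .nil))))))))))) (.cons 62 44 (.cons 92 32 (.leaf [(20,56),(80,104),(182,188)]) (.cons 32 92 (.leaf [(2,20),(68,104),(182,188)]) (.cons 20 92 (.leaf [(2,32),(182,188),(68,104)]) (.cons 182 92 (.leaf [(188,212),(2,20),(32,68)]) (.cons 104 92 (.leaf [(2,20),(32,68),(182,188)]) (.cons 212 32 (.leaf [(182,188),(20,56),(80,92)]) (.cons 2 32 (.leaf [(20,56),(80,92),(182,188)])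 (.cons 80 92 (.leaf [(2,20),(182,188),(32,68)]) (.cons 188 182 (.leaf [(2,20),(32,68),(56,92),(80,104)]) (.cons 56 92 (.leaf [(2,20),(182,188),(32,68)]) (.cons 68 32 (.leaf [(20,56),(80,92),(182,188)]) .nil))))))))))) .nil)))))))))))))

/-- The masks of block 13. -/
def m13 : List ℕ := [0x100100004, 0x100000000000000000000000000000000000000000100000000004, 0x100000000000000000000000000100000000100000000000, 0x100000000100000000100000, 0x4000000000000000000000100000004000000100000000, 0x100000000000000000000000000100000000100000000100000000, 0x104100100000000000, 0x100100100000000000000000000, 0x100000104000000000000000000000000000000000000000000000]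

/-- The strategy tree of block 14. -/
def t14 : Tr := (.cons 154 46 (.leaf [(94,124),(160,166),(91,93),(52,88),(58,130)]) (.cons 46 154 (.leaf [(52,58),(88,130),(91,93),(124,160),(94,166)]) (.cons 94 154 (.leaf [(91,93),(46,52),(58,166),(88,130),(124,160)]) (.cons 160 154 (.leaf [(46,58),(52,124),(88,130),(91,93),(94,166)]) (.cons 130 46 (.leaf [(58,166),(94,124),(91,93),(154,160),(52,88)]) (.cons 166 154 (.leaf [(46,52),(58,94),(88,130),(91,93),(124,160)]) (.cons 52 46 (.leaf [(88,160),(94,124),(91,93),(154,166),(58,130)]) (.cons 88 46 (.leaf [(52,160),(94,124),(91,93),(154,166),(58,130)]) (.cons 58 46 (.leaf [(91,93),(94,124),(154,160),(130,166),(52,88)]) (.cons 124 154 (.leaf [(46,58),(52,160),(88,130),(91,93),(94,166)]) (.cons 91 154 (.leaf [(93,94),(46,52),(58,166),(88,130),(124,160)]) (.cons 93 154 (.leaf [(91,94),(46,52),(58,166),(88,130),(124,160)]) .nil))))))))))))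

/-- The masks of block 14. -/
def m14 : List ℕ := [0x400000000010000000000400000000000, 0x400000000000000000000000000400000000000, 0x10000000010000000010000000010000000000000, 0x400000000400000000400000000400000000000000, 0x400000010000000400000000000000000000000, 0x410400000000000, 0x680000000000000000000000, 0x410400000000000000000000000000000000000000]

/-- The strategy tree of block 15. -/
def t15 : Tr := (.cons 97 82 (.leaf [(25,205),(73,79),(100,107),(96,101),(77,83)]) (.cons 100 82 (.leaf [(79,107),(25,205),(73,97),(96,101),(77,83)]) (.cons 82 100 (.leaf [(77,97),(25,205),(73,79),(81,83),(101,107)]) (.cons 79 100 (.leaf [(73,97),(25,205),(77,82),(81,83),(101,107)]) (.cons 107 100 (.leaf [(25,205),(73,97),(79,81),(77,82),(83,101)]) (.cons 77 82 (.leaf [(25,205),(96,97),(73,79),(100,107),(83,101)]) (.cons 101 100 (.leaf [(25,205),(73,97),(79,81),(77,82),(83,107)]) (.cons 73 97 (.leaf [(82,100),(79,107),(77,101),(81,83)]) (.cons 205 97 (.leaf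 [(82,100),(79,107),(77,101),(81,83)]) (.cons 83 82 (.leaf [(25,205),(96,97),(73,79),(77,101),(100,107)]) (.cons 25 97 (.leaf [(82,100),(79,107),(77,101),(81,83)]) (.cons 96 97 (.leaf [(82,100),(79,107),(77,101),(81,83)]) (.cons 81 82 (.leaf [(25,205),(96,97),(73,79),(100,107),(77,83)]) .nil)))))))))))))

/-- The masks of block 15. -/
def m15 : List ℕ := [0x2000000000000000000000000002000000000000000002000000, 0x810000080000000000000000000, 0x2000082000000000000000000, 0x10000400000000000000000000, 0x2000420000000000000000000, 0x820000820000000000000000000, 0xe80000000000000000000, 0x33000000000000000000000000]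

/-- The strategy tree of block 16. -/
def t16 : Tr := (.cons 15 3 (.cons 7 13 (.leaf [(5,10),(14,28),(114,132),(4,16)]) (.cons 13 7 (.leaf [(5,10),(14,16),(114,132),(4,28)]) (.cons 10 5 (.cons 7 13 (.leaf [(14,28),(114,132),(4,16)]) (.cons 13 7 (.leaf [(14,16),(114,132),(4,28)]) (.cons 132 114 (.cons 7 13 (.leaf [(14,28),(4,16)]) (.cons 13 7 (.leaf [(14,16),(4,28)]) (.cons 14 7 (.leaf [(13,16),(4,28)]) (.cons 16 13 (.leaf [(4,28),(7,14)]) (.cons 28 7 (.leaf [(4,16),(13,14)]) (.cons 4 16 (.leaf [(7,13),(14,28)]) .nil)))))) (.cons 14 7 (.leaf [(13,16),(114,132),(4,28)]) (.cons 16 13 (.leaf [(4,28),(114,132),(7,14)]) (.cons 114 132 (.cons 7 13 (.leaf [(14,28),(4,16)]) (.cons 13 7 (.leaf [(14,16),(4,28)]) (.cons 14 7 (.leaf [(13,16),(4,28)]) (.cons 16 13 (.leaf [(4,28),(7,14)]) (.cons 28 7 (.leaf [(4,16),(13,14)]) (.cons 4 16 (.leaf [(7,13),(14,28)]) .nil)))))) (.cons 28 7 (.leaf [(4,16),(114,132),(13,14)]) (.cons 4 7 (.leaf [(16,28),(114,132),(13,14)])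 .nil)))))))) (.cons 132 114 (.cons 7 13 (.leaf [(5,10),(14,28),(4,16)]) (.cons 13 7 (.leaf [(5,10),(14,16),(4,28)]) (.cons 10 5 (.cons 7 13 (.leaf [(14,28),(4,16)]) (.cons 13 7 (.leaf [(14,16),(4,28)]) (.cons 14 7 (.leaf [(13,16),(4,28)]) (.cons 16 13 (.leaf [(4,28),(7,14)]) (.cons 28 7 (.leaf [(4,16),(13,14)]) (.cons 4 16 (.leaf [(7,13),(14,28)]) .nil)))))) (.cons 5 10 (.cons 7 13 (.leaf [(14,28)]) (.cons 13 7 (.leaf [(14,16)]) (.cons 14 7 (.leaf [(13,16)]) (.cons 16 13 (.leaf [(7,14)]) (.cons 28 7 (.leaf [(13,14)]) .nil))))) (.cons 14 7 (.leaf [(5,10),(13,16),(4,28)]) (.cons 16 13 (.leaf [(5,10),(4,28),(7,14)]) (.cons 28 7 (.leaf [(5,10),(4,16),(13,14)]) (.cons 4 7 (.leaf [(5,10),(16,28),(13,14)]) .nil)))))))) (.cons 5 10 (.cons 7 13 (.leaf [(14,28),(114,132)]) (.cons 13 7 (.leaf [(14,16),(114,132)]) (.cons 132 114 (.cons 7 13 (.leaf [(14,28)]) (.cons 13 7 (.leaf [(14,16)]) (.cons 14 7 (.leaf [(13,16)]) (.cons 16 13 (.leaf [(7,14)]) (.cons 28 7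 (.leaf [(13,14)]) .nil))))) (.cons 14 7 (.leaf [(13,16),(114,132)]) (.cons 114 132 (.cons 7 13 (.leaf [(14,28)]) (.cons 13 7 (.leaf [(14,16)]) (.cons 14 7 (.leaf [(13,16)]) (.cons 16 13 (.leaf [(7,14)]) (.cons 28 7 (.leaf [(13,14)]) .nil))))) (.cons 16 13 (.leaf [(114,132),(7,14)]) (.cons 28 7 (.leaf [(114,132),(13,14)]) .nil))))))) (.cons 14 7 (.leaf [(5,10),(13,16),(114,132),(4,28)]) (.cons 114 132 (.cons 7 13 (.leaf [(5,10),(14,28),(4,16)]) (.cons 13 7 (.leaf [(5,10),(14,16),(4,28)]) (.cons 10 5 (.cons 7 13 (.leaf [(14,28),(4,16)]) (.cons 13 7 (.leaf [(14,16),(4,28)]) (.cons 14 7 (.leaf [(13,16),(4,28)]) (.cons 16 13 (.leaf [(4,28),(7,14)]) (.cons 28 7 (.leaf [(4,16),(13,14)]) (.cons 4 16 (.leaf [(7,13),(14,28)]) .nil)))))) (.cons 5 10 (.cons 7 13 (.leaf [(14,28)]) (.cons 13 7 (.leaf [(14,16)]) (.cons 14 7 (.leaf [(13,16)]) (.cons 16 13 (.leaf [(7,14)]) (.cons 28 7 (.leaf [(13,14)]) .nil))))) (.cons 14 7 (.leaf [(5,10),(13,16),(4,28)]) (.cons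 16 13 (.leaf [(5,10),(4,28),(7,14)]) (.cons 28 7 (.leaf [(5,10),(4,16),(13,14)]) (.cons 4 7 (.leaf [(5,10),(16,28),(13,14)]) .nil)))))))) (.cons 16 13 (.leaf [(5,10),(114,132),(4,28),(7,14)]) (.cons 28 7 (.leaf [(5,10),(114,132),(4,16),(13,14)]) (.cons 4 7 (.leaf [(5,10),(114,132),(16,28),(13,14)]) .nil)))))))))) (.cons 3 15 (.leaf [(4,5),(7,13),(114,132),(14,28),(10,16)]) (.cons 7 13 (.cons 3 15 (.leaf [(4,5),(14,28),(114,132),(10,16)]) (.cons 15 3 (.leaf [(5,10),(14,28),(114,132),(4,16)]) (.cons 28 14 (.cons 3 15 (.leaf [(4,5),(114,132),(10,16)]) (.cons 15 3 (.leaf [(5,10),(114,132),(4,16)]) (.cons 132 114 (.cons 3 15 (.leaf [(4,5),(10,16)]) (.cons 15 3 (.leaf [(5,10),(4,16)]) (.cons 4 3 (.leaf [(10,16),(5,15)]) (.cons 5 3 (.leaf [(10,15),(4,16)]) (.cons 10 15 (.leaf [(4,16),(3,5)]) (.cons 16 3 (.leaf [(4,10),(5,15)]) .nil)))))) (.cons 4 3 (.leaf [(10,16),(114,132),(5,15)]) (.cons 5 3 (.leaf [(10,15),(114,132),(4,16)]) (.cons 10 15 (.leaf [(4,16),(114,132),(3,5)])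 (.cons 114 132 (.cons 3 15 (.leaf [(4,5),(10,16)]) (.cons 15 3 (.leaf [(5,10),(4,16)]) (.cons 4 3 (.leaf [(10,16),(5,15)]) (.cons 5 3 (.leaf [(10,15),(4,16)]) (.cons 10 15 (.leaf [(4,16),(3,5)]) (.cons 16 3 (.leaf [(4,10),(5,15)]) .nil)))))) (.cons 16 3 (.leaf [(4,10),(114,132),(5,15)]) .nil)))))))) (.cons 132 114 (.cons 3 15 (.leaf [(4,5),(14,28),(10,16)]) (.cons 15 3 (.leaf [(5,10),(14,28),(4,16)]) (.cons 28 14 (.cons 3 15 (.leaf [(4,5),(10,16)]) (.cons 15 3 (.leaf [(5,10),(4,16)]) (.cons 4 3 (.leaf [(10,16),(5,15)]) (.cons 5 3 (.leaf [(10,15),(4,16)]) (.cons 10 15 (.leaf [(4,16),(3,5)]) (.cons 16 3 (.leaf [(4,10),(5,15)]) .nil)))))) (.cons 5 3 (.leaf [(10,15),(14,28),(4,16)]) (.cons 14 28 (.cons 3 15 (.leaf [(4,5)]) (.cons 15 3 (.leaf [(5,10)]) (.cons 5 3 (.leaf [(10,15)]) (.cons 4 3 (.leaf [(5,10)]) (.cons 10 15 (.leaf [(3,4)]) .nil))))) (.cons 4 3 (.leaf [(14,28),(5,15),(10,16)]) (.cons 10 15 (.leaf [(14,28),(3,5),(4,16)]) (.cons 16 3 (.leaf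 [(14,28),(4,10),(5,15)]) .nil)))))))) (.cons 5 3 (.leaf [(10,15),(14,28),(114,132),(4,16)]) (.cons 14 28 (.cons 3 15 (.leaf [(4,5),(114,132)]) (.cons 15 3 (.leaf [(5,10),(114,132)]) (.cons 132 114 (.cons 3 15 (.leaf [(4,5)]) (.cons 15 3 (.leaf [(5,10)]) (.cons 5 3 (.leaf [(10,15)]) (.cons 4 3 (.leaf [(5,10)]) (.cons 10 15 (.leaf [(3,4)]) .nil))))) (.cons 5 3 (.leaf [(10,15),(114,132)]) (.cons 114 132 (.cons 3 15 (.leaf [(4,5)]) (.cons 15 3 (.leaf [(5,10)]) (.cons 5 3 (.leaf [(10,15)]) (.cons 4 3 (.leaf [(5,10)]) (.cons 10 15 (.leaf [(3,4)]) .nil))))) (.cons 4 3 (.leaf [(114,132),(5,10)]) (.cons 10 15 (.leaf [(114,132),(3,4)]) .nil))))))) (.cons 114 132 (.cons 3 15 (.leaf [(4,5),(14,28),(10,16)]) (.cons 15 3 (.leaf [(5,10),(14,28),(4,16)]) (.cons 28 14 (.cons 3 15 (.leaf [(4,5),(10,16)]) (.cons 15 3 (.leaf [(5,10),(4,16)]) (.cons 4 3 (.leaf [(10,16),(5,15)]) (.cons 5 3 (.leaf [(10,15),(4,16)]) (.cons 10 15 (.leaf [(4,16),(3,5)]) (.cons 16 3 (.leaf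 [(4,10),(5,15)]) .nil)))))) (.cons 5 3 (.leaf [(10,15),(14,28),(4,16)]) (.cons 14 28 (.cons 3 15 (.leaf [(4,5)]) (.cons 15 3 (.leaf [(5,10)]) (.cons 5 3 (.leaf [(10,15)]) (.cons 4 3 (.leaf [(5,10)]) (.cons 10 15 (.leaf [(3,4)]) .nil))))) (.cons 4 3 (.leaf [(14,28),(5,15),(10,16)]) (.cons 10 15 (.leaf [(14,28),(3,5),(4,16)]) (.cons 16 3 (.leaf [(14,28),(4,10),(5,15)]) .nil)))))))) (.cons 4 3 (.leaf [(14,28),(114,132),(5,15),(10,16)]) (.cons 10 15 (.leaf [(14,28),(114,132),(3,5),(4,16)]) (.cons 16 3 (.leaf [(14,28),(114,132),(4,10),(5,15)]) .nil)))))))))) (.cons 13 7 (.cons 15 3 (.leaf [(5,10),(14,16),(114,132),(4,28)]) (.cons 3 15 (.leaf [(4,5),(114,132),(10,16)]) (.cons 132 114 (.cons 15 3 (.leaf [(5,10),(14,16),(4,28)]) (.cons 3 15 (.leaf [(4,5),(10,16)]) (.cons 5 15 (.leaf [(3,4),(10,16)]) (.cons 4 3 (.leaf [(5,10),(14,15),(16,28)]) (.cons 10 15 (.leaf [(3,5),(4,16)]) (.cons 16 15 (.leaf [(3,5),(4,10)]) (.cons 14 15 (.leaf [(3,5),(4,10)]) (.cons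 28 15 (.leaf [(3,5),(4,10)]) .nil)))))))) (.cons 5 15 (.leaf [(3,4),(114,132),(10,16)]) (.cons 114 132 (.cons 15 3 (.leaf [(5,10),(14,16),(4,28)]) (.cons 3 15 (.leaf [(4,5),(10,16)]) (.cons 5 15 (.leaf [(3,4),(10,16)]) (.cons 4 3 (.leaf [(5,10),(14,15),(16,28)]) (.cons 10 15 (.leaf [(3,5),(4,16)]) (.cons 16 15 (.leaf [(3,5),(4,10)]) (.cons 14 15 (.leaf [(3,5),(4,10)]) (.cons 28 15 (.leaf [(3,5),(4,10)]) .nil)))))))) (.cons 4 3 (.leaf [(114,132),(5,10),(14,15),(16,28)]) (.cons 10 15 (.leaf [(114,132),(3,5),(4,16)]) (.cons 16 15 (.leaf [(114,132),(3,5),(4,10)]) (.cons 14 15 (.leaf [(114,132),(3,5),(4,10)]) (.cons 28 15 (.leaf [(114,132),(3,5),(4,10)]) .nil)))))))))) (.cons 132 114 (.cons 15 3 (.cons 7 13 (.leaf [(5,10),(14,28),(4,16)]) (.cons 13 7 (.leaf [(5,10),(14,16),(4,28)]) (.cons 10 5 (.cons 7 13 (.leaf [(14,28),(4,16)]) (.cons 13 7 (.leaf [(14,16),(4,28)]) (.cons 14 7 (.leaf [(13,16),(4,28)]) (.cons 16 13 (.leaf [(4,28),(7,14)]) (.cons 28 7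 (.leaf [(4,16),(13,14)]) (.cons 4 16 (.leaf [(7,13),(14,28)]) .nil)))))) (.cons 5 10 (.cons 7 13 (.leaf [(14,28)]) (.cons 13 7 (.leaf [(14,16)]) (.cons 14 7 (.leaf [(13,16)]) (.cons 16 13 (.leaf [(7,14)]) (.cons 28 7 (.leaf [(13,14)]) .nil))))) (.cons 14 7 (.leaf [(5,10),(13,16),(4,28)]) (.cons 16 13 (.leaf [(5,10),(4,28),(7,14)]) (.cons 28 7 (.leaf [(5,10),(4,16),(13,14)]) (.cons 4 7 (.leaf [(5,10),(16,28),(13,14)]) .nil)))))))) (.cons 3 15 (.leaf [(4,5),(7,13),(14,28),(10,16)]) (.cons 7 13 (.cons 3 15 (.leaf [(4,5),(14,28),(10,16)]) (.cons 15 3 (.leaf [(5,10),(14,28),(4,16)]) (.cons 28 14 (.cons 3 15 (.leaf [(4,5),(10,16)]) (.cons 15 3 (.leaf [(5,10),(4,16)]) (.cons 4 3 (.leaf [(10,16),(5,15)]) (.cons 5 3 (.leaf [(10,15),(4,16)]) (.cons 10 15 (.leaf [(4,16),(3,5)]) (.cons 16 3 (.leaf [(4,10),(5,15)]) .nil)))))) (.cons 5 3 (.leaf [(10,15),(14,28),(4,16)]) (.cons 14 28 (.cons 3 15 (.leaf [(4,5)]) (.cons 15 3 (.leaf [(5,10)]) (.cons 5 3 (.leaf [(10,15)])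 (.cons 4 3 (.leaf [(5,10)]) (.cons 10 15 (.leaf [(3,4)]) .nil))))) (.cons 4 3 (.leaf [(14,28),(5,15),(10,16)]) (.cons 10 15 (.leaf [(14,28),(3,5),(4,16)]) (.cons 16 3 (.leaf [(14,28),(4,10),(5,15)]) .nil)))))))) (.cons 13 7 (.cons 15 3 (.leaf [(5,10),(14,16),(4,28)]) (.cons 3 15 (.leaf [(4,5),(10,16)]) (.cons 5 15 (.leaf [(3,4),(10,16)]) (.cons 4 3 (.leaf [(5,10),(14,15),(16,28)]) (.cons 10 15 (.leaf [(3,5),(4,16)]) (.cons 16 15 (.leaf [(3,5),(4,10)]) (.cons 14 15 (.leaf [(3,5),(4,10)]) (.cons 28 15 (.leaf [(3,5),(4,10)]) .nil)))))))) (.cons 5 15 (.leaf [(3,4),(7,13),(14,28),(10,16)]) (.cons 4 15 (.leaf [(3,5),(7,13),(14,28),(10,16)]) (.cons 10 15 (.leaf [(7,13),(3,5),(4,16),(14,28)]) (.cons 14 7 (.cons 15 3 (.leaf [(5,10),(13,16),(4,28)]) (.cons 3 15 (.leaf [(4,5),(10,16)]) (.cons 5 15 (.leaf [(3,4),(10,16)]) (.cons 4 3 (.leaf [(5,10),(13,15),(16,28)]) (.cons 10 15 (.leaf [(3,5),(4,16)]) (.cons 16 15 (.leaf [(3,5),(4,10)]) (.cons 13 15 (.leaf [(3,5),(4,10)])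 (.cons 28 15 (.leaf [(3,5),(4,10)]) .nil)))))))) (.cons 28 7 (.cons 15 3 (.leaf [(5,10),(4,16),(13,14)]) (.cons 3 15 (.leaf [(4,5),(10,16)]) (.cons 4 3 (.leaf [(10,16),(5,15),(13,14)]) (.cons 5 15 (.leaf [(3,4),(10,16)]) (.cons 10 15 (.leaf [(4,16),(3,5)]) (.cons 16 15 (.leaf [(4,10),(3,5)]) (.cons 13 15 (.leaf [(3,5),(4,10)]) (.cons 14 15 (.leaf [(3,5),(4,10)]) .nil)))))))) (.cons 16 15 (.leaf [(7,13),(3,5),(4,10),(14,28)]) .nil)))))))))) (.cons 5 15 (.leaf [(3,4),(7,13),(114,132),(14,28),(10,16)]) (.cons 114 132 (.cons 15 3 (.cons 7 13 (.leaf [(5,10),(14,28),(4,16)]) (.cons 13 7 (.leaf [(5,10),(14,16),(4,28)]) (.cons 10 5 (.cons 7 13 (.leaf [(14,28),(4,16)]) (.cons 13 7 (.leaf [(14,16),(4,28)]) (.cons 14 7 (.leaf [(13,16),(4,28)]) (.cons 16 13 (.leaf [(4,28),(7,14)]) (.cons 28 7 (.leaf [(4,16),(13,14)]) (.cons 4 16 (.leaf [(7,13),(14,28)]) .nil)))))) (.cons 5 10 (.cons 7 13 (.leaf [(14,28)]) (.cons 13 7 (.leaf [(14,16)]) (.cons 14 7 (.leaf [(13,16)])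 (.cons 16 13 (.leaf [(7,14)]) (.cons 28 7 (.leaf [(13,14)]) .nil))))) (.cons 14 7 (.leaf [(5,10),(13,16),(4,28)]) (.cons 16 13 (.leaf [(5,10),(4,28),(7,14)]) (.cons 28 7 (.leaf [(5,10),(4,16),(13,14)]) (.cons 4 7 (.leaf [(5,10),(16,28),(13,14)]) .nil)))))))) (.cons 3 15 (.leaf [(4,5),(7,13),(14,28),(10,16)]) (.cons 7 13 (.cons 3 15 (.leaf [(4,5),(14,28),(10,16)]) (.cons 15 3 (.leaf [(5,10),(14,28),(4,16)]) (.cons 28 14 (.cons 3 15 (.leaf [(4,5),(10,16)]) (.cons 15 3 (.leaf [(5,10),(4,16)]) (.cons 4 3 (.leaf [(10,16),(5,15)]) (.cons 5 3 (.leaf [(10,15),(4,16)]) (.cons 10 15 (.leaf [(4,16),(3,5)]) (.cons 16 3 (.leaf [(4,10),(5,15)]) .nil)))))) (.cons 5 3 (.leaf [(10,15),(14,28),(4,16)]) (.cons 14 28 (.cons 3 15 (.leaf [(4,5)]) (.cons 15 3 (.leaf [(5,10)]) (.cons 5 3 (.leaf [(10,15)]) (.cons 4 3 (.leaf [(5,10)]) (.cons 10 15 (.leaf [(3,4)]) .nil))))) (.cons 4 3 (.leaf [(14,28),(5,15),(10,16)]) (.cons 10 15 (.leaf [(14,28),(3,5),(4,16)]) (.cons 16 3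 (.leaf [(14,28),(4,10),(5,15)]) .nil)))))))) (.cons 13 7 (.cons 15 3 (.leaf [(5,10),(14,16),(4,28)]) (.cons 3 15 (.leaf [(4,5),(10,16)]) (.cons 5 15 (.leaf [(3,4),(10,16)]) (.cons 4 3 (.leaf [(5,10),(14,15),(16,28)]) (.cons 10 15 (.leaf [(3,5),(4,16)]) (.cons 16 15 (.leaf [(3,5),(4,10)]) (.cons 14 15 (.leaf [(3,5),(4,10)]) (.cons 28 15 (.leaf [(3,5),(4,10)]) .nil)))))))) (.cons 5 15 (.leaf [(3,4),(7,13),(14,28),(10,16)]) (.cons 4 15 (.leaf [(3,5),(7,13),(14,28),(10,16)]) (.cons 10 15 (.leaf [(7,13),(3,5),(4,16),(14,28)]) (.cons 14 7 (.cons 15 3 (.leaf [(5,10),(13,16),(4,28)]) (.cons 3 15 (.leaf [(4,5),(10,16)]) (.cons 5 15 (.leaf [(3,4),(10,16)]) (.cons 4 3 (.leaf [(5,10),(13,15),(16,28)]) (.cons 10 15 (.leaf [(3,5),(4,16)]) (.cons 16 15 (.leaf [(3,5),(4,10)]) (.cons 13 15 (.leaf [(3,5),(4,10)]) (.cons 28 15 (.leaf [(3,5),(4,10)]) .nil)))))))) (.cons 28 7 (.cons 15 3 (.leaf [(5,10),(4,16),(13,14)]) (.cons 3 15 (.leaf [(4,5),(10,16)]) (.cons 4 3 (.leaf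 [(10,16),(5,15),(13,14)]) (.cons 5 15 (.leaf [(3,4),(10,16)]) (.cons 10 15 (.leaf [(4,16),(3,5)]) (.cons 16 15 (.leaf [(4,10),(3,5)]) (.cons 13 15 (.leaf [(3,5),(4,10)]) (.cons 14 15 (.leaf [(3,5),(4,10)]) .nil)))))))) (.cons 16 15 (.leaf [(7,13),(3,5),(4,10),(14,28)]) .nil)))))))))) (.cons 4 15 (.leaf [(3,5),(7,13),(114,132),(14,28),(10,16)]) (.cons 10 15 (.leaf [(7,13),(114,132),(3,5),(4,16),(14,28)]) (.cons 14 7 (.cons 15 3 (.leaf [(5,10),(13,16),(114,132),(4,28)]) (.cons 3 15 (.leaf [(4,5),(114,132),(10,16)]) (.cons 132 114 (.cons 15 3 (.leaf [(5,10),(13,16),(4,28)]) (.cons 3 15 (.leaf [(4,5),(10,16)]) (.cons 5 15 (.leaf [(3,4),(10,16)]) (.cons 4 3 (.leaf [(5,10),(13,15),(16,28)]) (.cons 10 15 (.leaf [(3,5),(4,16)]) (.cons 16 15 (.leaf [(3,5),(4,10)]) (.cons 13 15 (.leaf [(3,5),(4,10)]) (.cons 28 15 (.leaf [(3,5),(4,10)]) .nil)))))))) (.cons 5 15 (.leaf [(3,4),(114,132),(10,16)]) (.cons 114 132 (.cons 15 3 (.leaf [(5,10),(13,16),(4,28)]) (.cons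 3 15 (.leaf [(4,5),(10,16)]) (.cons 5 15 (.leaf [(3,4),(10,16)]) (.cons 4 3 (.leaf [(5,10),(13,15),(16,28)]) (.cons 10 15 (.leaf [(3,5),(4,16)]) (.cons 16 15 (.leaf [(3,5),(4,10)]) (.cons 13 15 (.leaf [(3,5),(4,10)]) (.cons 28 15 (.leaf [(3,5),(4,10)]) .nil)))))))) (.cons 4 3 (.leaf [(114,132),(5,10),(13,15),(16,28)]) (.cons 10 15 (.leaf [(114,132),(3,5),(4,16)]) (.cons 16 15 (.leaf [(114,132),(3,5),(4,10)]) (.cons 13 15 (.leaf [(114,132),(3,5),(4,10)]) (.cons 28 15 (.leaf [(114,132),(3,5),(4,10)]) .nil)))))))))) (.cons 28 7 (.cons 15 3 (.leaf [(5,10),(114,132),(4,16),(13,14)]) (.cons 3 15 (.leaf [(4,5),(114,132),(10,16)]) (.cons 132 114 (.cons 15 3 (.leaf [(5,10),(4,16),(13,14)]) (.cons 3 15 (.leaf [(4,5),(10,16)]) (.cons 4 3 (.leaf [(10,16),(5,15),(13,14)]) (.cons 5 15 (.leaf [(3,4),(10,16)]) (.cons 10 15 (.leaf [(4,16),(3,5)]) (.cons 16 15 (.leaf [(4,10),(3,5)]) (.cons 13 15 (.leaf [(3,5),(4,10)]) (.cons 14 15 (.leaf [(3,5),(4,10)]) .nil))))))))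 (.cons 4 3 (.leaf [(10,16),(114,132),(5,15),(13,14)]) (.cons 5 15 (.leaf [(3,4),(114,132),(10,16)]) (.cons 10 15 (.leaf [(4,16),(114,132),(3,5)]) (.cons 114 132 (.cons 15 3 (.leaf [(5,10),(4,16),(13,14)]) (.cons 3 15 (.leaf [(4,5),(10,16)]) (.cons 4 3 (.leaf [(10,16),(5,15),(13,14)]) (.cons 5 15 (.leaf [(3,4),(10,16)]) (.cons 10 15 (.leaf [(4,16),(3,5)]) (.cons 16 15 (.leaf [(4,10),(3,5)]) (.cons 13 15 (.leaf [(3,5),(4,10)]) (.cons 14 15 (.leaf [(3,5),(4,10)]) .nil)))))))) (.cons 16 15 (.leaf [(4,10),(114,132),(3,5)]) (.cons 13 15 (.leaf [(114,132),(3,5),(4,10)]) (.cons 14 15 (.leaf [(114,132),(3,5),(4,10)]) .nil)))))))))) (.cons 16 15 (.leaf [(7,13),(114,132),(3,5),(4,10),(14,28)]) .nil))))))))))))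

/-- The masks of block 16. -/
def m16 : List ℕ := [0x38, 0x10004080, 0x2080, 0x8008, 0x10010410, 0x8420, 0x1e000, 0x1000040000000000000000000000000000]

/-- The blocks. -/
def blocks : List (Tr × List ℕ) := [(t0, m0), (t1, m1), (t2, m2), (t3, m3), (t4, m4), (t5, m5), (t6, m6), (t7, m7), (t8, m8), (t9, m9), (t10, m10), (t11, m11), (t12, m12), (t13, m13), (t14, m14), (t15, m15), (t16, m16)]

theorem blocks_ok : blocksOK blocks 0 = true := by decide +kernel

theorem round : BW (kill 43 (play 1 (fam lines))) :=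
  round_base (by norm_num) (blocksOK_sound blocks 0 blocks_ok).1 (by decide +kernel)

end P1

namespace P2

/-- The strategy tree of block 0. -/
def t0 : Tr := (.cons 180 192 (.cons 110 145 (.cons 116 122 (.leaf [(11,151),(17,23)]) (.cons 122 116 (.leaf [(35,151),(11,17)]) (.cons 151 116 (.leaf [(35,122),(11,17)]) (.cons 35 122 (.leaf [(11,116),(17,23)]) (.cons 11 116 (.leaf [(17,23),(35,122)]) (.cons 17 116 (.leaf [(11,23),(35,122)]) (.cons 23 116 (.leaf [(11,17),(35,122)]) .nil))))))) (.cons 145 110 (.leaf [(151,157),(11,116),(35,122),(17,23)]) (.cons 151 110 (.leaf [(11,116),(35,122),(145,157),(17,23)]) (.cons 116 110 (.leaf [(11,151),(35,122),(145,157),(17,23)]) (.cons 122 110 (.leaf [(35,151),(11,116),(145,157),(17,23)]) (.cons 35 151 (.leaf [(110,145),(11,17),(116,122)]) (.cons 11 151 (.leaf [(110,145),(17,23),(116,122)]) (.cons 157 145 (.leaf [(11,151),(110,116),(35,122),(17,23)]) (.cons 17 110 (.leaf [(11,23),(35,122),(116,151),(145,157)])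 (.cons 23 110 (.leaf [(11,17),(35,122),(116,151),(145,157)]) .nil)))))))))) (.cons 192 180 (.leaf [(11,116),(17,157),(110,122),(145,151),(23,35)]) (.cons 151 180 (.leaf [(11,116),(145,157),(110,122),(17,192),(23,35)]) (.cons 110 180 (.leaf [(116,122),(11,151),(145,157),(17,192),(23,35)]) (.cons 145 180 (.leaf [(151,157),(11,116),(110,122),(17,192),(23,35)]) (.cons 116 180 (.leaf [(11,151),(110,122),(145,157),(17,192),(23,35)]) (.cons 122 180 (.leaf [(110,116),(11,151),(17,192),(145,157),(23,35)]) (.cons 11 180 (.leaf [(116,151),(17,192),(23,35),(110,122),(145,157)]) (.cons 157 180 (.leaf [(145,151),(11,116),(17,192),(110,122),(23,35)]) (.cons 35 180 (.leaf [(11,23),(17,192),(116,151),(110,122),(145,157)]) (.cons 17 180 (.leaf [(11,116),(23,35),(110,122),(145,151),(157,192)]) (.cons 23 180 (.leaf [(11,35),(17,192),(116,151),(110,122),(145,157)]) .nil))))))))))))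

/-- The masks of block 0. -/
def m0 : List ℕ := [0x800820800, 0x1000000002000000004000000000000000000000000000, 0x80000000100000000000000000000000000800, 0x1000000002000000004000000000000000000000000020000, 0x1000000080000004000000000000000000000800000000, 0x4104000000000000000000000000000, 0x2082000000000000000000000000000000000000, 0x1001000000000000000000000000000000000000000000000]

/-- The strategy tree of block 1. -/
def t1 : Tr := (.cons 214 215 (.cons 142 106 (.leaf [(140,143),(31,103),(105,175)]) (.cons 106 142 (.leaf [(31,175),(103,107),(105,140)]) (.cons 140 142 (.leaf [(105,175),(31,103),(106,107)]) (.cons 175 140 (.leaf [(31,103),(106,142),(105,107)]) (.cons 103 106 (.leaf [(31,175),(105,140),(142,143)]) (.cons 105 106 (.leaf [(140,175),(31,103),(142,143)]) (.cons 143 142 (.leaf [(31,175),(103,106),(105,140)]) (.cons 31 142 (.leaf [(103,175),(105,140),(106,107)]) (.cons 107 106 (.leaf [(31,103),(105,175),(140,142)]) .nil))))))))) (.cons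 215 214 (.cons 143 107 (.leaf [(140,142),(31,103),(105,175)]) (.cons 107 143 (.leaf [(31,175),(103,106),(105,140)]) (.cons 140 143 (.leaf [(105,175),(31,103),(106,107)]) (.cons 175 140 (.leaf [(31,103),(107,143),(105,106)]) (.cons 103 107 (.leaf [(31,175),(105,140),(142,143)]) (.cons 105 107 (.leaf [(140,175),(31,103),(142,143)]) (.cons 142 143 (.leaf [(31,175),(103,106),(105,140)]) (.cons 31 175 (.leaf [(107,143),(140,142),(103,105)]) (.cons 106 107 (.leaf [(31,103),(105,175),(140,142)]) .nil))))))))) (.cons 140 142 (.cons 175 105 (.leaf [(31,103),(214,215),(107,143)]) (.cons 215 214 (.cons 175 105 (.leaf [(31,103),(107,143)]) (.cons 105 175 (.leaf [(107,143),(103,106)]) (.cons 107 143 (.cons 105 175 (.leaf [(103,106)]) (.cons 175 105 (.leaf [(31,103)]) (.cons 103 105 (.leaf [(31,175)]) (.cons 106 105 (.leaf [(31,103)]) (.cons 31 175 (.leaf [(103,105)]) .nil))))) (.cons 143 107 (.leaf [(105,175),(31,103)]) (.cons 103 175 (.leaf [(107,143),(105,106)])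 (.cons 31 175 (.leaf [(107,143),(103,105)]) (.cons 106 105 (.leaf [(107,143),(31,103)]) .nil))))))) (.cons 105 175 (.leaf [(214,215),(103,106),(107,143)]) (.cons 214 215 (.leaf [(105,175),(31,103),(106,107)]) (.cons 103 175 (.leaf [(214,215),(105,106),(107,143)]) (.cons 107 215 (.cons 105 175 (.leaf [(103,106)]) (.cons 175 105 (.leaf [(31,103)]) (.cons 103 105 (.leaf [(31,175)]) (.cons 106 105 (.leaf [(31,103)]) (.cons 31 175 (.leaf [(103,105)]) .nil))))) (.cons 143 215 (.leaf [(105,175),(31,103),(106,107)]) (.cons 31 175 (.leaf [(214,215),(107,143),(103,105)]) (.cons 106 105 (.leaf [(214,215),(31,103),(107,143)]) .nil))))))))) (.cons 142 214 (.cons 140 143 (.leaf [(105,175),(31,103),(106,107)]) (.cons 143 140 (.leaf [(107,215),(31,175),(103,105)]) (.cons 175 140 (.leaf [(31,103),(107,143),(105,106)]) (.cons 103 140 (.leaf [(31,175),(105,106),(107,143)]) (.cons 105 140 (.leaf [(31,175),(103,106),(107,143)]) (.cons 107 143 (.leaf [(31,175),(103,106),(105,140)])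 (.cons 215 143 (.leaf [(31,175),(103,106),(105,140)]) (.cons 31 140 (.leaf [(103,175),(107,143),(105,106)]) (.cons 106 140 (.leaf [(31,175),(103,105),(107,143)]) .nil))))))))) (.cons 175 140 (.cons 214 215 (.leaf [(31,103),(106,142),(105,107)]) (.cons 215 214 (.leaf [(31,103),(107,143),(105,106)]) (.cons 103 31 (.cons 214 215 (.leaf [(106,142),(105,107)]) (.cons 215 214 (.leaf [(107,143),(105,106)]) (.cons 106 214 (.leaf [(105,107),(143,215)]) (.cons 107 215 (.leaf [(105,106),(142,214)]) (.cons 105 214 (.leaf [(106,107),(143,215)]) (.cons 142 214 (.leaf [(105,106),(107,143)]) (.cons 143 215 (.leaf [(105,107),(106,142)]) .nil))))))) (.cons 31 103 (.leaf [(214,215),(106,142),(107,143)]) (.cons 106 214 (.leaf [(31,103),(105,107),(143,215)]) (.cons 107 215 (.leaf [(31,103),(105,106),(142,214)]) (.cons 142 214 (.leaf [(31,103),(107,143),(105,106)]) (.cons 143 215 (.leaf [(31,103),(105,106),(142,214)]) (.cons 105 103 (.leaf [(214,215),(106,142),(107,143)])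 .nil))))))))) (.cons 143 215 (.cons 140 142 (.leaf [(105,175),(31,103),(106,107)]) (.cons 142 140 (.leaf [(106,214),(31,175),(103,105)]) (.cons 175 140 (.leaf [(31,103),(105,106),(142,214)]) (.cons 103 140 (.leaf [(31,175),(105,107),(106,142)]) (.cons 105 140 (.leaf [(31,175),(103,107),(106,142)]) (.cons 106 142 (.leaf [(31,175),(103,107),(105,140)]) (.cons 214 142 (.leaf [(31,175),(103,106),(105,140)]) (.cons 31 140 (.leaf [(103,175),(105,106),(142,214)]) (.cons 107 140 (.leaf [(31,175),(103,105),(106,142)]) .nil))))))))) (.cons 103 175 (.cons 214 215 (.leaf [(106,142),(105,107),(140,143)]) (.cons 215 214 (.leaf [(107,143),(105,106),(140,142)]) (.cons 106 214 (.leaf [(105,107),(143,215),(140,142)]) (.cons 107 215 (.leaf [(105,106),(142,214),(140,143)]) (.cons 142 214 (.leaf [(140,143),(105,106),(107,215)]) (.cons 143 215 (.leaf [(140,142),(105,107),(106,214)]) (.cons 105 106 (.leaf [(214,215),(107,143),(140,142)]) (.cons 140 142 (.leaf [(214,215),(105,106),(107,143)])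 .nil)))))))) (.cons 105 175 (.cons 214 215 (.leaf [(106,142),(103,107),(140,143)]) (.cons 215 214 (.leaf [(107,143),(103,106),(140,142)]) (.cons 106 214 (.leaf [(103,107),(143,215),(140,142)]) (.cons 107 215 (.leaf [(103,106),(142,214),(140,143)]) (.cons 142 214 (.leaf [(140,143),(103,106),(107,215)]) (.cons 143 215 (.leaf [(140,142),(103,107),(106,214)]) (.cons 103 106 (.leaf [(214,215),(107,143),(140,142)]) (.cons 140 142 (.leaf [(214,215),(103,106),(107,143)]) .nil)))))))) (.cons 106 214 (.cons 103 105 (.leaf [(31,175),(107,143),(140,142)]) (.cons 105 103 (.leaf [(140,175),(107,215),(142,143)]) (.cons 107 103 (.leaf [(143,215),(105,175),(140,142)]) (.cons 140 105 (.leaf [(142,143),(31,103),(107,215)]) (.cons 175 103 (.leaf [(105,140),(107,215),(142,143)]) (.cons 143 107 (.leaf [(140,142),(31,103),(105,175)]) (.cons 142 140 (.leaf [(31,175),(103,105),(107,143)]) (.cons 215 107 (.leaf [(31,103),(105,175),(140,142)]) (.cons 31 103 (.leaf [(105,175),(140,142),(107,143)])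 .nil))))))))) (.cons 107 215 (.cons 103 105 (.leaf [(31,175),(106,214),(140,142)]) (.cons 105 103 (.leaf [(140,175),(106,214),(142,143)]) (.cons 106 103 (.leaf [(142,214),(105,175),(140,143)]) (.cons 140 105 (.leaf [(142,143),(31,103),(106,214)]) (.cons 142 106 (.leaf [(140,143),(31,103),(105,175)]) (.cons 175 103 (.leaf [(105,140),(106,214),(142,143)]) (.cons 143 140 (.leaf [(31,175),(103,105),(106,142)]) (.cons 214 106 (.leaf [(31,103),(105,175),(140,142)]) (.cons 31 103 (.leaf [(105,175),(140,142),(106,214)]) .nil))))))))) (.cons 31 175 (.cons 214 215 (.leaf [(106,142),(140,143),(103,105)]) (.cons 215 214 (.leaf [(107,143),(140,142),(103,105)]) (.cons 142 214 (.leaf [(140,143),(107,215),(103,105)]) (.cons 143 215 (.leaf [(140,142),(106,214),(103,105)]) (.cons 106 214 (.leaf [(103,105),(107,143),(140,142)]) (.cons 107 215 (.leaf [(103,105),(106,214),(140,142)]) (.cons 140 142 (.leaf [(214,215),(107,143),(103,105)]) (.cons 103 214 (.leaf [(105,106),(107,143),(140,142)])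 (.cons 105 214 (.leaf [(103,106),(107,143),(140,142)]) .nil))))))))) .nil)))))))))))

/-- The masks of block 1. -/
def m1 : List ℕ := [0x80000000000000000080000000000000000080000000, 0x400000000000000000400000000400000000000000000000000000, 0x80000000100000000200000000000000000000000000, 0x800000000000000000800000000800000000000000000000000000, 0xe80000000000000000000000000, 0xd00000000000000000000000000000000000, 0xc00000000000000000000000000000000000000000000000000000]

/-- The strategy tree of block 2. -/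
def t2 : Tr := (.cons 144 149 (.leaf [(172,179),(162,174),(163,164),(168,169),(176,177)]) (.cons 149 144 (.leaf [(162,163),(164,169),(168,172),(174,176)]) (.cons 172 144 (.leaf [(168,169),(162,163),(149,164),(174,176)]) (.cons 162 144 (.leaf [(163,164),(168,172),(149,169),(174,176)]) (.cons 164 144 (.leaf [(162,163),(149,169),(168,172),(174,176)]) (.cons 168 144 (.leaf [(169,172),(162,163),(149,164),(174,176)]) (.cons 169 144 (.leaf [(168,172),(149,164),(162,163),(174,176)]) (.cons 174 144 (.leaf [(149,164),(162,163),(168,169),(176,177)]) (.cons 179 144 (.leaf [(162,163),(168,169),(174,176),(149,164)]) (.cons 163 144 (.leaf [(162,164),(168,172),(149,169),(174,176)]) (.cons 176 144 (.leaf [(162,163),(168,169),(174,177),(149,164)]) (.cons 177 144 (.leaf [(162,163),(168,169),(174,176),(149,164)]) .nil))))))))))))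

/-- The masks of block 2. -/
def m2 : List ℕ := [0x21000000000000000000000000000000000000, 0x41040001000000000000000000000000000000000000, 0x810000001000000000000000000000000000000000000, 0x42100020000000000000000000000000000000000000, 0x1c0000000000000000000000000000000000000000, 0x13000000000000000000000000000000000000000000, 0xb40000000000000000000000000000000000000000000]

/-- The strategy tree of block 3. -/
def t3 : Tr := (.cons 85 73 (.cons 121 181 (.cons 13 193 (.cons 1 19 (.leaf [(127,211),(109,139)]) (.cons 19 1 (.leaf [(127,199),(109,139)]) (.cons 127 1 (.leaf [(19,199),(109,139)]) (.cons 211 1 (.leaf [(19,199),(109,127)]) (.cons 199 19 (.leaf [(1,211),(109,127)]) (.cons 139 127 (.leaf [(1,19)]) (.cons 109 127 (.leaf [(1,19)]) .nil))))))) (.cons 127 1 (.leaf [(13,193),(19,199),(109,139)]) (.cons 193 13 (.leaf [(1,211),(109,127),(19,199)]) (.cons 1 13 (.leaf [(127,211),(19,199),(109,139)]) (.cons 19 13 (.leaf [(127,199),(1,211),(109,139)])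 (.cons 199 127 (.leaf [(13,193),(1,19)]) (.cons 139 127 (.leaf [(13,193),(1,19)]) (.cons 109 127 (.leaf [(13,193),(1,19)]) (.cons 211 127 (.leaf [(13,193),(1,19)]) .nil))))))))) (.cons 181 121 (.cons 1 19 (.leaf [(127,211),(193,199)]) (.cons 199 19 (.leaf [(193,211),(1,127)]) (.cons 19 1 (.leaf [(127,199),(193,211)]) (.cons 211 1 (.leaf [(193,199),(19,127)]) (.cons 127 1 (.leaf [(19,199),(193,211)]) (.cons 193 199 (.leaf [(1,127),(13,19)]) (.cons 13 1 (.leaf [(19,127),(193,199)]) .nil))))))) (.cons 127 1 (.cons 121 181 (.leaf [(13,193),(19,199),(109,139)]) (.cons 199 19 (.cons 121 181 (.leaf [(13,193),(109,139)]) (.cons 181 121 (.leaf [(193,211)]) (.cons 193 121 (.leaf [(181,211)]) (.cons 139 121 (.leaf [(181,193)]) (.cons 109 121 (.leaf [(181,193)]) (.cons 13 121 (.leaf [(181,193)]) (.cons 211 181 (.leaf [(13,193),(109,121)]) .nil))))))) (.cons 181 121 (.leaf [(19,199),(193,211)]) (.cons 19 199 (.leaf [(121,181),(13,193),(109,139)]) (.cons 193 121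 (.leaf [(19,199),(181,211)]) (.cons 139 121 (.leaf [(19,199),(181,193)]) (.cons 13 121 (.leaf [(19,199),(181,193)]) (.cons 109 121 (.leaf [(19,199),(181,193)]) (.cons 211 121 (.leaf [(19,199),(181,193)]) .nil))))))))) (.cons 1 13 (.cons 127 211 (.leaf [(19,199),(121,181),(109,139)]) (.cons 211 127 (.leaf [(121,181),(193,199)]) (.cons 181 121 (.cons 211 127 (.leaf [(193,199)]) (.cons 127 211 (.leaf [(19,199)]) (.cons 199 211 (.leaf [(19,127)]) (.cons 193 211 (.leaf [(19,127)]) (.cons 19 127 (.leaf [(193,199)]) .nil))))) (.cons 121 181 (.leaf [(127,211),(19,199),(109,139)]) (.cons 199 127 (.leaf [(121,181),(193,211)]) (.cons 19 127 (.leaf [(121,181),(193,199)]) (.cons 193 127 (.leaf [(121,181),(199,211)]) (.cons 139 127 (.leaf [(121,181),(193,199)]) (.cons 109 127 (.leaf [(121,181),(193,199)]) .nil))))))))) (.cons 13 121 (.cons 1 19 (.leaf [(127,211),(181,193)]) (.cons 19 1 (.leaf [(127,199),(181,193)]) (.cons 127 1 (.leaf [(19,199),(181,193)]) (.cons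 199 19 (.leaf [(1,127),(181,193)]) (.cons 211 1 (.leaf [(19,127),(181,193)]) (.cons 193 1 (.leaf [(19,127),(181,199)]) (.cons 181 1 (.leaf [(19,127),(193,199)]) .nil))))))) (.cons 19 1 (.cons 121 181 (.leaf [(13,193),(127,199),(109,139)]) (.cons 199 127 (.cons 181 121 (.leaf [(193,211)]) (.cons 121 181 (.leaf [(13,193)]) (.cons 193 181 (.leaf [(13,121)]) (.cons 211 181 (.leaf [(13,121)]) (.cons 13 121 (.leaf [(181,193)]) .nil))))) (.cons 181 121 (.leaf [(127,199),(193,211)]) (.cons 127 199 (.leaf [(121,181),(13,193),(109,139)]) (.cons 193 121 (.leaf [(127,199),(181,211)]) (.cons 13 121 (.leaf [(127,199),(181,193)]) (.cons 139 121 (.leaf [(127,199),(181,193)]) (.cons 109 121 (.leaf [(127,199),(181,193)]) (.cons 211 121 (.leaf [(127,199),(181,193)]) .nil))))))))) (.cons 193 121 (.cons 1 19 (.leaf [(127,211),(181,199)]) (.cons 199 19 (.leaf [(181,211),(1,127)]) (.cons 19 1 (.leaf [(127,199),(181,211)]) (.cons 211 1 (.leaf [(181,199),(19,127)]) (.cons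 127 1 (.leaf [(19,199),(181,211)]) (.cons 13 1 (.leaf [(19,127),(181,199)]) (.cons 181 199 (.leaf [(1,127),(13,19)]) .nil))))))) (.cons 199 121 (.cons 19 127 (.leaf [(1,13),(181,193)]) (.cons 127 19 (.leaf [(1,211),(181,193)]) (.cons 1 19 (.leaf [(127,211),(181,193)]) (.cons 211 127 (.leaf [(181,193),(1,13)]) (.cons 193 19 (.leaf [(181,211),(1,127)]) (.cons 181 19 (.leaf [(193,211),(1,127)]) (.cons 13 19 (.leaf [(1,127),(181,193)]) .nil))))))) (.cons 211 121 (.cons 1 127 (.leaf [(13,19),(181,193)]) (.cons 127 1 (.leaf [(19,199),(181,193)]) (.cons 19 1 (.leaf [(127,199),(181,193)]) (.cons 199 127 (.leaf [(181,193),(1,13)]) (.cons 193 1 (.leaf [(181,199),(19,127)]) (.cons 181 1 (.leaf [(193,199),(19,127)]) (.cons 13 1 (.leaf [(19,127),(181,193)]) .nil))))))) (.cons 139 121 (.leaf [(1,13),(19,199),(127,211),(181,193)]) (.cons 109 121 (.leaf [(1,13),(19,199),(127,211),(181,193)]) .nil))))))))))) (.cons 181 121 (.cons 73 85 (.leaf [(1,109),(13,19),(127,199),(193,211)])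 (.cons 1 85 (.leaf [(13,19),(73,109),(127,199),(193,211)]) (.cons 85 73 (.cons 1 19 (.leaf [(127,211),(193,199)]) (.cons 199 19 (.leaf [(193,211),(1,127)]) (.cons 19 1 (.leaf [(127,199),(193,211)]) (.cons 211 1 (.leaf [(193,199),(19,127)]) (.cons 127 1 (.leaf [(19,199),(193,211)]) (.cons 193 199 (.leaf [(1,127),(13,19)]) (.cons 13 1 (.leaf [(19,127),(193,199)]) .nil))))))) (.cons 199 1 (.leaf [(19,127),(73,85),(193,211)]) (.cons 19 1 (.leaf [(73,85),(127,199),(193,211)]) (.cons 211 1 (.leaf [(73,85),(193,199),(19,127)]) (.cons 127 1 (.leaf [(19,199),(73,85),(193,211)]) (.cons 193 199 (.leaf [(73,85),(1,109),(13,19),(127,211)]) (.cons 109 73 (.leaf [(1,85),(13,19),(127,199),(193,211)]) (.cons 13 1 (.leaf [(73,85),(19,127),(193,199)]) .nil)))))))))) (.cons 121 181 (.cons 85 73 (.cons 13 193 (.cons 1 19 (.leaf [(127,211),(109,139)]) (.cons 19 1 (.leaf [(127,199),(109,139)]) (.cons 127 1 (.leaf [(19,199),(109,139)]) (.cons 211 1 (.leaf [(19,199),(109,127)])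 (.cons 199 19 (.leaf [(1,211),(109,127)]) (.cons 139 127 (.leaf [(1,19)]) (.cons 109 127 (.leaf [(1,19)]) .nil))))))) (.cons 127 1 (.leaf [(13,193),(19,199),(109,139)]) (.cons 193 13 (.leaf [(1,211),(109,127),(19,199)]) (.cons 1 13 (.leaf [(127,211),(19,199),(109,139)]) (.cons 19 13 (.leaf [(127,199),(1,211),(109,139)]) (.cons 199 127 (.leaf [(13,193),(1,19)]) (.cons 139 127 (.leaf [(13,193),(1,19)]) (.cons 109 127 (.leaf [(13,193),(1,19)]) (.cons 211 127 (.leaf [(13,193),(1,19)]) .nil))))))))) (.cons 127 85 (.leaf [(19,199),(109,139),(1,13)]) (.cons 73 85 (.leaf [(1,13),(19,199),(109,127)]) (.cons 13 85 (.leaf [(1,19),(127,199),(109,139)]) (.cons 19 85 (.leaf [(1,13),(127,199),(109,139)]) (.cons 1 85 (.leaf [(13,19),(127,199),(109,139)]) (.cons 193 85 (.leaf [(1,13),(19,199),(109,127)]) (.cons 199 85 (.leaf [(19,127),(1,13),(109,139)]) (.cons 139 85 (.leaf [(109,127),(1,13),(19,199)]) (.cons 109 85 (.leaf [(127,139),(1,13),(19,199)]) (.cons 211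 85 (.leaf [(1,13),(19,199),(109,127)]) .nil))))))))))) (.cons 73 85 (.cons 181 121 (.leaf [(1,109),(13,19),(127,199),(193,211)]) (.cons 121 181 (.leaf [(1,13),(19,199),(109,127)]) (.cons 1 181 (.leaf [(13,19),(127,199),(109,121)]) (.cons 19 181 (.leaf [(1,13),(127,199),(109,121)]) (.cons 199 181 (.leaf [(19,127),(1,13),(109,121)]) (.cons 109 181 (.leaf [(1,13),(19,199),(121,127)]) (.cons 127 181 (.leaf [(19,199),(1,13),(109,121)]) (.cons 13 181 (.leaf [(1,19),(127,199),(109,121)]) (.cons 193 181 (.leaf [(1,13),(19,127),(109,121)]) (.cons 139 181 (.leaf [(1,13),(19,127),(109,121)]) (.cons 211 181 (.leaf [(1,13),(19,127),(109,121)]) .nil))))))))))) (.cons 1 85 (.cons 181 121 (.leaf [(13,19),(73,109),(127,199),(193,211)]) (.cons 19 13 (.cons 181 121 (.leaf [(73,109),(127,199),(193,211)]) (.cons 199 127 (.leaf [(121,181),(73,109),(193,211)]) (.cons 121 181 (.leaf [(127,199),(109,139)]) (.cons 127 199 (.cons 181 121 (.leaf [(73,109)]) (.cons 121 181 (.leaf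 [(109,139)]) (.cons 109 121 (.leaf [(73,181)]) (.cons 73 181 (.leaf [(109,121)]) (.cons 139 121 (.leaf [(73,109)]) .nil))))) (.cons 109 181 (.leaf [(127,199),(121,139)]) (.cons 73 181 (.leaf [(127,199),(109,121)]) (.cons 193 181 (.leaf [(127,199),(109,121)]) (.cons 139 181 (.leaf [(127,199),(109,121)]) (.cons 211 181 (.leaf [(127,199),(109,121)]) .nil))))))))) (.cons 121 181 (.leaf [(13,19),(127,199),(109,139)]) (.cons 13 19 (.leaf [(121,181),(73,109),(127,139),(193,199)]) (.cons 199 19 (.leaf [(121,181),(73,109),(193,211),(127,139)]) (.cons 109 181 (.leaf [(13,19),(127,199),(121,139)]) (.cons 127 19 (.cons 181 121 (.leaf [(73,109),(193,199)]) (.cons 121 181 (.leaf [(109,139)]) (.cons 109 181 (.leaf [(121,139)]) (.cons 73 181 (.leaf [(109,121)]) (.cons 139 121 (.leaf [(73,109),(181,193)]) (.cons 193 181 (.leaf [(109,121)]) (.cons 199 181 (.leaf [(109,121)]) (.cons 211 181 (.leaf [(109,121)]) .nil)))))))) (.cons 73 181 (.leaf [(13,19),(127,199),(109,121)])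 (.cons 193 181 (.leaf [(13,19),(127,199),(109,121)]) (.cons 139 181 (.leaf [(13,19),(127,199),(109,121)]) (.cons 211 181 (.leaf [(13,19),(127,199),(109,121)]) .nil))))))))))) (.cons 19 1 (.cons 121 181 (.leaf [(73,85),(127,199),(13,193),(109,139)]) (.cons 199 127 (.cons 181 121 (.leaf [(73,85),(193,211)]) (.cons 85 73 (.cons 181 121 (.leaf [(193,211)]) (.cons 121 181 (.leaf [(13,193)]) (.cons 193 181 (.leaf [(13,121)]) (.cons 211 181 (.leaf [(13,121)]) (.cons 13 121 (.leaf [(181,193)]) .nil))))) (.cons 121 181 (.leaf [(73,85),(13,193)]) (.cons 73 85 (.leaf [(121,181),(193,211)]) (.cons 193 181 (.leaf [(73,85),(13,121)]) (.cons 211 181 (.leaf [(73,85),(13,121)]) (.cons 13 121 (.leaf [(73,85),(181,193)]) .nil))))))) (.cons 85 73 (.cons 121 181 (.leaf [(13,193),(127,199),(109,139)]) (.cons 199 127 (.cons 181 121 (.leaf [(193,211)]) (.cons 121 181 (.leaf [(13,193)]) (.cons 193 181 (.leaf [(13,121)]) (.cons 211 181 (.leaf [(13,121)]) (.cons 13 121 (.leaf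 [(181,193)]) .nil))))) (.cons 181 121 (.leaf [(127,199),(193,211)]) (.cons 127 199 (.leaf [(121,181),(13,193),(109,139)]) (.cons 193 121 (.leaf [(127,199),(181,211)]) (.cons 13 121 (.leaf [(127,199),(181,193)]) (.cons 139 121 (.leaf [(127,199),(181,193)]) (.cons 109 121 (.leaf [(127,199),(181,193)]) (.cons 211 121 (.leaf [(127,199),(181,193)]) .nil))))))))) (.cons 181 121 (.leaf [(73,85),(127,199),(193,211)]) (.cons 127 199 (.leaf [(73,85),(121,181),(109,139),(13,193)]) (.cons 73 85 (.leaf [(121,181),(127,199),(109,139),(193,211)]) (.cons 193 121 (.leaf [(73,85),(127,199),(181,211)]) (.cons 139 121 (.leaf [(73,85),(127,199),(181,193)]) (.cons 13 121 (.leaf [(73,85),(127,199),(181,193)]) (.cons 109 121 (.leaf [(73,85),(127,199),(181,193)]) (.cons 211 199 (.leaf [(73,85),(121,181),(13,193),(109,127)]) .nil))))))))))) (.cons 127 85 (.cons 19 199 (.cons 121 181 (.leaf [(1,13),(109,139)]) (.cons 1 13 (.cons 181 121 (.leaf [(73,109)]) (.cons 121 181 (.leaf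 [(109,139)]) (.cons 109 121 (.leaf [(73,181)]) (.cons 73 181 (.leaf [(109,121)]) (.cons 139 121 (.leaf [(73,109)]) .nil))))) (.cons 181 121 (.leaf [(1,13),(73,109)]) (.cons 13 1 (.leaf [(121,181),(109,139)]) (.cons 109 121 (.leaf [(1,13),(73,181)]) (.cons 139 121 (.leaf [(1,13),(73,109)]) (.cons 73 1 (.leaf [(121,181),(109,139)]) .nil))))))) (.cons 181 121 (.leaf [(19,199),(1,13),(73,109),(193,211)]) (.cons 121 181 (.leaf [(19,199),(109,139),(1,13)]) (.cons 199 19 (.leaf [(121,181),(109,139),(193,211),(1,73)]) (.cons 1 19 (.cons 181 121 (.leaf [(73,109),(193,199)]) (.cons 121 181 (.leaf [(109,139)]) (.cons 109 181 (.leaf [(121,139)]) (.cons 73 181 (.leaf [(109,121)]) (.cons 139 121 (.leaf [(73,109),(181,193)]) (.cons 193 181 (.leaf [(109,121)]) (.cons 199 181 (.leaf [(109,121)]) (.cons 211 181 (.leaf [(109,121)]) .nil)))))))) (.cons 109 121 (.leaf [(19,199),(1,13),(73,181),(193,211)]) (.cons 139 121 (.leaf [(19,199),(1,13),(73,109),(181,193)]) (.cons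 13 19 (.leaf [(121,181),(109,139),(1,73),(193,199)]) (.cons 193 181 (.leaf [(19,199),(1,13),(109,121)]) (.cons 73 181 (.leaf [(19,199),(1,13),(109,121)]) (.cons 211 181 (.leaf [(19,199),(1,13),(109,121)]) .nil))))))))))) (.cons 199 85 (.cons 181 121 (.leaf [(19,127),(193,211),(1,13),(73,109)]) (.cons 19 127 (.leaf [(1,13),(121,181),(193,211),(73,109)]) (.cons 121 181 (.leaf [(19,127),(1,13),(109,139)]) (.cons 127 19 (.leaf [(121,181),(109,139),(193,211),(1,73)]) (.cons 1 19 (.leaf [(121,181),(73,109),(193,211),(127,139)]) (.cons 193 181 (.leaf [(19,127),(1,13),(109,121)]) (.cons 13 19 (.leaf [(121,181),(193,211),(1,73),(109,127)]) (.cons 109 181 (.leaf [(19,127),(1,13),(121,139)]) (.cons 211 181 (.leaf [(19,127),(1,13),(109,121)]) (.cons 73 181 (.leaf [(19,127),(1,13),(109,121)]) (.cons 139 181 (.leaf [(19,127),(1,13),(109,121)]) .nil))))))))))) (.cons 13 85 (.cons 19 1 (.leaf [(121,181),(127,199),(109,139),(193,211)]) (.cons 181 121 (.leaf [(1,19),(73,109),(127,199),(193,211)])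 (.cons 1 19 (.leaf [(121,181),(73,109),(127,139),(193,199)]) (.cons 121 181 (.leaf [(1,19),(127,199),(109,139)]) (.cons 199 19 (.leaf [(121,181),(193,211),(1,73),(109,127)]) (.cons 127 19 (.leaf [(121,181),(109,139),(1,73),(193,199)]) (.cons 109 181 (.leaf [(1,19),(127,199),(121,139)]) (.cons 193 181 (.leaf [(1,19),(127,199),(109,121)]) (.cons 73 181 (.leaf [(1,19),(127,199),(109,121)]) (.cons 139 19 (.leaf [(121,181),(109,127),(1,73),(193,199)]) (.cons 211 181 (.leaf [(1,19),(127,199),(109,121)]) .nil))))))))))) (.cons 193 85 (.cons 181 121 (.leaf [(199,211),(1,13),(19,127),(73,109)]) (.cons 121 181 (.leaf [(1,13),(19,199),(109,127)]) (.cons 199 181 (.leaf [(19,127),(1,13),(109,121)]) (.cons 19 181 (.leaf [(1,13),(127,199),(109,121)]) (.cons 1 181 (.leaf [(13,19),(127,199),(109,121)]) (.cons 127 181 (.leaf [(19,199),(1,13),(109,121)]) (.cons 13 181 (.leaf [(1,19),(127,199),(109,121)]) (.cons 109 181 (.leaf [(1,13),(19,199),(121,127)]) (.cons 211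 181 (.leaf [(1,13),(19,127),(109,121)]) (.cons 73 181 (.leaf [(1,13),(19,127),(109,121)]) (.cons 139 181 (.leaf [(1,13),(19,127),(109,121)]) .nil))))))))))) (.cons 109 121 (.cons 73 85 (.leaf [(1,181),(13,19),(127,199),(193,211)]) (.cons 1 73 (.leaf [(13,19),(127,199),(85,211),(181,193)]) (.cons 85 73 (.leaf [(1,13),(19,199),(127,211),(181,193)]) (.cons 19 1 (.leaf [(73,85),(127,199),(181,193)]) (.cons 199 73 (.leaf [(19,127),(1,13),(181,193),(85,211)]) (.cons 181 73 (.leaf [(1,85),(13,19),(127,199),(193,211)]) (.cons 127 1 (.leaf [(19,199),(73,85),(181,193)]) (.cons 13 1 (.leaf [(73,85),(19,127),(181,193)]) (.cons 211 1 (.leaf [(73,85),(19,127),(181,193)]) (.cons 193 73 (.leaf [(1,85),(13,19),(127,199),(181,211)]) .nil)))))))))) (.cons 211 85 (.cons 181 121 (.leaf [(193,199),(1,13),(19,127),(73,109)]) (.cons 121 181 (.leaf [(1,13),(19,199),(109,127)]) (.cons 199 181 (.leaf [(19,127),(1,13),(109,121)]) (.cons 19 181 (.leaf [(1,13),(127,199),(109,121)])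 (.cons 1 181 (.leaf [(13,19),(127,199),(109,121)]) (.cons 127 181 (.leaf [(19,199),(1,13),(109,121)]) (.cons 193 181 (.leaf [(1,13),(19,127),(109,121)]) (.cons 13 181 (.leaf [(1,19),(127,199),(109,121)]) (.cons 109 181 (.leaf [(1,13),(19,199),(121,127)]) (.cons 73 181 (.leaf [(1,13),(19,127),(109,121)]) (.cons 139 181 (.leaf [(1,13),(19,127),(109,121)]) .nil))))))))))) (.cons 139 121 (.cons 73 85 (.leaf [(1,109),(13,19),(181,193),(127,199)]) (.cons 85 73 (.leaf [(1,13),(19,199),(127,211),(181,193)]) (.cons 1 73 (.leaf [(13,19),(127,199),(85,211),(181,193)]) (.cons 19 1 (.leaf [(73,85),(127,199),(181,193)]) (.cons 199 19 (.leaf [(73,85),(109,181),(193,211),(1,127)]) (.cons 127 19 (.leaf [(73,85),(1,211),(109,181),(193,199)]) (.cons 13 1 (.leaf [(73,85),(19,127),(181,193)]) (.cons 211 85 (.leaf [(1,73),(13,19),(127,199),(181,193)]) (.cons 181 73 (.leaf [(1,85),(13,19),(127,199),(193,211)]) (.cons 193 73 (.leaf [(1,85),(13,19),(127,199),(181,211)])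 (.cons 109 73 (.leaf [(1,85),(13,19),(127,199),(181,193)]) .nil))))))))))) .nil)))))))))))))

/-- The masks of block 3. -/
def m3 : List ℕ := [0x82002, 0x2000000000000000002000000002000000000000000002, 0x80000000000000000000080000000002000000000000000000002, 0x2000000000000000002000000002000000000000000002000, 0x80000000000000000080000000000000000000000000080000, 0x2000000000000002000000000000000000000000000000, 0x2002000000000000000000, 0x80082002000000000000000000000000000, 0x80082002000000000000000000000000000000000000000000000]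

/-- The strategy tree of block 4. -/
def t4 : Tr := (.cons 80 44 (.cons 117 6 (.leaf [(81,83),(114,115),(7,187),(9,45)]) (.cons 6 117 (.leaf [(7,9),(81,83),(115,187)]) (.cons 81 83 (.cons 117 6 (.leaf [(9,45),(114,115),(7,187)]) (.cons 6 117 (.leaf [(7,9),(115,187)]) (.cons 7 6 (.leaf [(115,187),(9,45),(114,117)]) (.cons 9 117 (.leaf [(6,7),(115,187)]) (.cons 115 117 (.leaf [(7,187),(6,9)]) (.cons 45 117 (.leaf [(6,9),(7,115)]) (.cons 114 117 (.leaf [(6,9),(7,115)]) (.cons 187 117 (.leaf [(7,115),(6,9)]) .nil)))))))) (.cons 7 6 (.leaf [(81,83),(115,187),(114,117),(9,45)]) (.cons 83 81 (.cons 6 117 (.leaf [(7,9),(115,187)]) (.cons 117 6 (.leaf [(114,115),(7,187)]) (.cons 7 6 (.leaf [(115,187),(114,117)]) (.cons 115 117 (.leaf [(7,187),(6,9)]) (.cons 9 6 (.leaf [(7,187),(114,115)]) (.cons 114 117 (.leaf [(6,9),(7,115)]) (.cons 187 115 (.leaf [(6,117),(7,9)]) .nil))))))) (.cons 115 117 (.leaf [(7,187),(81,83),(6,9)]) (.cons 9 6 (.leaf [(81,83),(7,187),(114,115),(45,117)])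 (.cons 114 117 (.leaf [(81,83),(6,9),(7,115)]) (.cons 187 117 (.leaf [(7,115),(81,83),(6,9)]) (.cons 45 117 (.leaf [(81,83),(6,9),(7,115)]) .nil)))))))))) (.cons 117 80 (.leaf [(114,115),(6,9),(7,187),(45,81)]) (.cons 6 80 (.leaf [(7,9),(115,187),(114,117),(45,81)]) (.cons 7 80 (.leaf [(6,9),(115,187),(114,117),(45,81)]) (.cons 44 80 (.leaf [(6,7),(9,45),(115,187),(114,117)]) (.cons 115 80 (.leaf [(7,187),(114,117),(6,9),(45,81)]) (.cons 9 80 (.leaf [(6,7),(115,187),(45,81),(114,117)]) (.cons 81 80 (.leaf [(6,9),(7,187),(114,115),(45,117)]) (.cons 114 80 (.leaf [(115,117),(6,9),(7,187),(45,81)]) (.cons 83 80 (.leaf [(6,7),(9,45),(115,187),(114,117)]) (.cons 187 80 (.leaf [(7,115),(6,9),(114,117),(45,81)]) (.cons 45 80 (.leaf [(6,9),(7,187),(114,115),(81,117)]) .nil))))))))))))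

/-- The masks of block 4. -/
def m4 : List ℕ := [0x2c0, 0x200000000100000000000000000040, 0x80000000000000000080000000000000000000000000080, 0x100000000100000000000, 0x200000000200000000200000000200, 0xb00000000000000000000, 0x2c0000000000000000000000000000]

/-- The strategy tree of block 5. -/
def t5 : Tr := (.cons 20 22 (.leaf [(10,15),(104,141),(12,16)]) (.cons 22 20 (.leaf [(10,16),(104,141),(12,15)]) (.cons 104 141 (.cons 20 22 (.leaf [(10,15),(12,16)]) (.cons 22 20 (.leaf [(10,16),(12,15)]) (.cons 16 22 (.leaf [(12,15),(10,20)]) (.cons 10 20 (.leaf [(16,22),(12,15)]) (.cons 15 20 (.leaf [(12,16),(10,22)]) (.cons 12 16 (.leaf [(20,22),(10,15)]) .nil)))))) (.cons 10 20 (.leaf [(16,22),(104,141),(12,15)]) (.cons 141 104 (.cons 20 22 (.leaf [(10,15),(12,16)]) (.cons 22 20 (.leaf [(10,16),(12,15)]) (.cons 16 22 (.leaf [(12,15),(10,20)]) (.cons 10 20 (.leaf [(16,22),(12,15)]) (.cons 15 20 (.leaf [(12,16),(10,22)]) (.cons 12 16 (.leaf [(20,22),(10,15)])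 .nil)))))) (.cons 15 20 (.leaf [(12,16),(104,141),(10,22)]) (.cons 16 22 (.leaf [(12,15),(104,141),(10,20)]) (.cons 12 15 (.leaf [(20,22),(104,141),(10,16)]) .nil))))))))

/-- The masks of block 5. -/
def m5 : List ℕ := [0x410400, 0x108400, 0x19000, 0x500000, 0x200000000100000000000000000000000000]

/-- The strategy tree of block 6. -/
def t6 : Tr := (.cons 194 208 (.cons 195 196 (.cons 189 207 (.cons 188 190 (.leaf [(182,206),(184,185)]) (.cons 190 188 (.leaf [(185,205),(182,184)]) (.cons 182 188 (.leaf [(184,185),(190,205)]) (.cons 185 190 (.leaf [(182,184),(188,206)]) (.cons 205 190 (.leaf [(182,188),(184,185)]) (.cons 206 188 (.leaf [(182,184),(185,190)]) (.cons 184 182 (.leaf [(188,190),(185,205)]) .nil))))))) (.cons 207 189 (.leaf [(182,184),(185,190),(188,206)]) (.cons 182 188 (.leaf [(184,185),(189,207),(190,205)]) (.cons 185 189 (.leaf [(182,184),(190,205),(188,206)]) (.cons 188 189 (.leaf [(182,206),(184,185),(190,205)]) (.cons 190 189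 (.leaf [(185,205),(182,184),(188,206)]) (.cons 205 185 (.leaf [(189,207),(182,206),(188,190)]) (.cons 206 182 (.leaf [(189,207),(185,205),(188,190)]) (.cons 184 182 (.leaf [(189,207),(185,205),(188,190)]) .nil))))))))) (.cons 196 195 (.leaf [(182,206),(184,185),(188,189)]) (.cons 182 195 (.leaf [(184,185),(188,206),(189,190)]) (.cons 188 195 (.leaf [(182,206),(189,190),(184,185)]) (.cons 189 195 (.leaf [(188,190),(182,206),(184,185)]) (.cons 185 195 (.leaf [(182,184),(188,206),(189,190)]) (.cons 190 195 (.leaf [(188,189),(182,206),(184,185)]) (.cons 206 195 (.leaf [(182,188),(184,185),(189,190)]) (.cons 207 195 (.leaf [(182,206),(184,185),(188,189)]) (.cons 184 195 (.leaf [(182,185),(188,206),(189,190)]) (.cons 205 195 (.leaf [(182,206),(184,185),(188,189)]) .nil))))))))))) (.cons 208 194 (.cons 190 189 (.leaf [(184,196),(182,185),(195,205),(206,207)]) (.cons 207 189 (.leaf [(205,206),(182,184),(185,195),(190,196)]) (.cons 184 190 (.leaf [(182,185),(189,195),(205,206)])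 (.cons 189 190 (.leaf [(195,207),(182,184),(205,206)]) (.cons 195 207 (.leaf [(182,184),(185,205),(190,196),(188,189)]) (.cons 205 207 (.leaf [(182,184),(185,195),(190,196),(188,189)]) (.cons 185 190 (.leaf [(182,184),(189,195),(205,206)]) (.cons 196 190 (.leaf [(182,184),(189,195),(205,206)]) (.cons 206 207 (.leaf [(182,184),(185,195),(190,196),(188,189)]) (.cons 182 184 (.leaf [(188,189),(185,190),(195,207),(205,206)]) (.cons 188 190 (.leaf [(182,184),(189,195),(205,206)]) .nil))))))))))) (.cons 195 194 (.cons 189 207 (.leaf [(188,190),(182,184),(185,205),(196,208)]) (.cons 207 189 (.leaf [(182,185),(184,196),(190,205),(206,208)]) (.cons 190 189 (.leaf [(185,205),(182,184),(196,208),(206,207)]) (.cons 185 190 (.leaf [(182,184),(189,207),(205,206)]) (.cons 205 190 (.leaf [(189,207),(182,184),(206,208)]) (.cons 184 185 (.leaf [(189,207),(188,190),(196,208),(205,206)]) (.cons 208 207 (.leaf [(182,184),(185,205),(190,196),(188,189)]) (.cons 182 185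 (.leaf [(189,207),(188,190),(184,196),(205,206)]) (.cons 188 189 (.leaf [(182,184),(185,190),(205,206),(196,208)]) (.cons 196 189 (.leaf [(182,184),(185,205),(190,208),(206,207)]) (.cons 206 207 (.leaf [(182,185),(184,196),(190,205),(188,189)]) .nil))))))))))) (.cons 189 195 (.cons 208 194 (.leaf [(188,190),(182,185),(184,196),(205,206)]) (.cons 194 208 (.leaf [(188,190),(182,206),(184,185)]) (.cons 188 190 (.leaf [(194,208),(182,206),(184,185),(205,207)]) (.cons 190 188 (.leaf [(194,208),(182,185),(184,196),(205,206)]) (.cons 182 194 (.leaf [(184,185),(188,190),(196,208),(205,206)]) (.cons 184 208 (.leaf [(182,185),(188,190),(194,206)]) (.cons 206 208 (.leaf [(188,190),(182,194),(184,185)]) (.cons 185 208 (.leaf [(182,184),(188,190),(194,206)]) (.cons 196 208 (.leaf [(188,190),(182,194),(184,185)]) (.cons 205 208 (.leaf [(188,190),(182,194),(184,185)]) (.cons 207 208 (.leaf [(188,190),(182,194),(184,185)]) .nil))))))))))) (.cons 190 208 (.cons 195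 189 (.leaf [(185,205),(194,196),(182,184),(188,206)]) (.cons 189 188 (.leaf [(195,207),(182,184),(185,205),(194,196)]) (.cons 188 189 (.leaf [(182,206),(184,185),(194,196),(195,205)]) (.cons 185 195 (.leaf [(182,184),(188,189),(194,206)]) (.cons 194 195 (.leaf [(188,189),(182,206),(184,185)]) (.cons 182 195 (.leaf [(184,185),(188,189),(194,206)]) (.cons 196 195 (.leaf [(188,189),(182,194),(184,185)]) (.cons 205 195 (.leaf [(188,189),(182,194),(184,185)]) (.cons 207 195 (.leaf [(188,189),(182,194),(184,185)]) (.cons 184 195 (.leaf [(182,185),(188,189),(194,206)]) (.cons 206 195 (.leaf [(188,189),(182,194),(184,185)]) .nil))))))))))) (.cons 196 194 (.cons 190 184 (.leaf [(188,189),(185,205),(195,207),(206,208)]) (.cons 184 190 (.leaf [(182,185),(189,195),(205,206)]) (.cons 189 190 (.leaf [(195,207),(182,184),(205,206)]) (.cons 195 189 (.leaf [(182,184),(185,205),(190,208),(206,207)]) (.cons 207 189 (.leaf [(182,184),(185,195),(190,208),(205,206)])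 (.cons 208 190 (.leaf [(182,184),(189,195),(205,206)]) (.cons 185 184 (.leaf [(188,189),(190,205),(195,207),(206,208)]) (.cons 205 190 (.leaf [(182,184),(189,195),(206,207)]) (.cons 182 184 (.leaf [(188,189),(185,190),(195,207),(205,206)]) (.cons 188 190 (.leaf [(182,184),(189,195),(205,206)]) (.cons 206 190 (.leaf [(182,184),(189,195),(205,207)]) .nil))))))))))) (.cons 207 194 (.cons 189 195 (.leaf [(188,190),(182,185),(184,196),(205,206)]) (.cons 195 189 (.leaf [(182,185),(184,196),(190,205),(206,208)]) (.cons 190 189 (.leaf [(182,184),(185,195),(196,208),(205,206)]) (.cons 205 195 (.leaf [(206,208),(182,185),(184,190),(188,189)]) (.cons 208 189 (.leaf [(205,206),(182,184),(185,195),(190,196)]) (.cons 184 189 (.leaf [(182,185),(190,195),(196,208),(205,206)]) (.cons 185 195 (.leaf [(182,184),(188,189),(205,206),(190,196)]) (.cons 206 189 (.leaf [(205,208),(182,184),(185,195),(190,196)]) (.cons 182 189 (.leaf [(184,185),(205,206),(190,195),(196,208)])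 (.cons 188 189 (.leaf [(182,184),(205,206),(185,190),(196,208)]) (.cons 196 189 (.leaf [(182,184),(185,195),(190,208),(205,206)]) .nil))))))))))) (.cons 182 194 (.cons 184 185 (.leaf [(188,189),(190,196),(195,207),(205,206)]) (.cons 185 184 (.leaf [(188,189),(190,205),(195,207),(206,208)]) (.cons 189 190 (.leaf [(184,185),(195,207),(205,206)]) (.cons 190 184 (.leaf [(188,189),(185,205),(195,207),(206,208)]) (.cons 195 185 (.leaf [(189,207),(188,190),(184,196),(205,206)]) (.cons 207 189 (.leaf [(184,185),(205,206),(190,195),(196,208)]) (.cons 205 185 (.leaf [(188,189),(184,190),(195,207),(206,208)]) (.cons 208 184 (.leaf [(188,189),(185,190),(195,207),(205,206)]) (.cons 188 189 (.leaf [(184,185),(190,195),(196,208),(205,206)]) (.cons 196 184 (.leaf [(188,189),(185,190),(195,207),(205,206)]) (.cons 206 184 (.leaf [(188,189),(185,190),(195,207),(205,208)]) .nil))))))))))) (.cons 184 208 (.cons 195 185 (.leaf [(189,207),(194,196),(188,190),(182,206)])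 (.cons 182 185 (.leaf [(188,206),(189,190),(194,196),(195,207)]) (.cons 185 182 (.leaf [(188,189),(190,205),(195,207),(194,196)]) (.cons 189 195 (.leaf [(182,185),(188,190),(194,206)]) (.cons 194 195 (.leaf [(182,185),(188,206),(189,190)]) (.cons 188 182 (.leaf [(189,190),(195,207),(194,196),(185,205)]) (.cons 190 195 (.leaf [(182,185),(188,189),(194,206)]) (.cons 196 195 (.leaf [(182,185),(188,194),(189,190)]) (.cons 207 195 (.leaf [(182,185),(188,194),(189,190)]) (.cons 205 195 (.leaf [(182,185),(188,194),(189,190)]) (.cons 206 182 (.leaf [(188,189),(185,190),(195,207),(194,196)]) .nil))))))))))) (.cons 185 195 (.cons 208 194 (.leaf [(182,184),(190,196),(188,189),(205,206)]) (.cons 194 208 (.leaf [(182,184),(188,206),(189,190)]) (.cons 182 184 (.leaf [(194,208),(188,206),(189,190),(205,207)]) (.cons 184 182 (.leaf [(194,208),(188,189),(190,196),(205,206)]) (.cons 188 194 (.leaf [(182,184),(189,190),(196,208),(205,206)]) (.cons 190 208 (.leaf [(182,184),(188,189),(194,206)])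 (.cons 206 208 (.leaf [(182,184),(188,194),(189,190)]) (.cons 189 208 (.leaf [(182,184),(188,190),(194,206)]) (.cons 196 208 (.leaf [(182,184),(188,194),(189,190)]) (.cons 205 208 (.leaf [(182,184),(188,194),(189,190)]) (.cons 207 208 (.leaf [(182,184),(188,194),(189,190)]) .nil))))))))))) (.cons 188 194 (.cons 189 190 (.leaf [(195,207),(182,184),(205,206)]) (.cons 190 189 (.leaf [(182,184),(185,195),(196,208),(205,206)]) (.cons 195 189 (.leaf [(182,184),(185,190),(205,206),(196,208)]) (.cons 207 189 (.leaf [(182,184),(205,206),(185,190),(196,208)]) (.cons 184 190 (.leaf [(182,185),(189,195),(205,206)]) (.cons 185 190 (.leaf [(182,184),(189,195),(205,206)]) (.cons 205 190 (.leaf [(182,184),(189,195),(206,207)]) (.cons 208 190 (.leaf [(182,184),(189,195),(205,206)]) (.cons 182 189 (.leaf [(184,185),(190,195),(196,208),(205,206)]) (.cons 196 190 (.leaf [(182,184),(189,195),(205,206)]) (.cons 206 189 (.leaf [(182,184),(205,207),(185,190),(196,208)])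 .nil))))))))))) (.cons 205 194 (.cons 190 195 (.leaf [(188,189),(182,185),(184,196),(206,207)]) (.cons 195 190 (.leaf [(189,207),(182,184),(206,208)]) (.cons 207 195 (.leaf [(206,208),(182,185),(184,190),(188,189)]) (.cons 185 190 (.leaf [(182,184),(189,195),(206,207)]) (.cons 189 190 (.leaf [(195,207),(182,184),(206,208)]) (.cons 208 207 (.leaf [(182,184),(185,195),(190,196),(188,189)]) (.cons 184 185 (.leaf [(188,190),(189,195),(206,207),(196,208)]) (.cons 206 207 (.leaf [(182,185),(184,196),(190,195),(188,189)]) (.cons 182 185 (.leaf [(188,189),(184,190),(195,207),(206,208)]) (.cons 188 190 (.leaf [(182,184),(189,195),(206,207)]) (.cons 196 190 (.leaf [(182,184),(189,195),(206,207)]) .nil))))))))))) (.cons 206 194 (.cons 207 189 (.leaf [(205,208),(182,184),(185,195),(190,196)]) (.cons 189 207 (.leaf [(188,190),(182,184),(185,195),(196,208)]) (.cons 190 189 (.leaf [(182,184),(185,195),(196,208),(205,207)]) (.cons 195 207 (.leaf [(182,185),(184,196),(190,205),(188,189)])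 (.cons 205 207 (.leaf [(182,185),(184,196),(190,195),(188,189)]) (.cons 208 207 (.leaf [(182,184),(185,195),(190,196),(188,189)]) (.cons 184 185 (.leaf [(188,190),(189,195),(205,207),(196,208)]) (.cons 185 190 (.leaf [(182,184),(189,195),(205,207)]) (.cons 182 184 (.leaf [(188,189),(185,190),(195,207),(205,208)]) (.cons 188 189 (.leaf [(182,184),(205,207),(185,190),(196,208)]) (.cons 196 190 (.leaf [(182,184),(189,195),(205,207)]) .nil))))))))))) .nil)))))))))))))

/-- The masks of block 6. -/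
def m6 : List ℕ := [0x34000000000000000000000000000000000000000000000, 0x10004000000000000000000000000000000000000000000000000, 0x4004104000000000000000000000000000000000000000000000, 0x8008200000000000000000000000000000000000000000000000, 0x10010410000000000000000000000000000000000000000000000, 0x2008420000000000000000000000000000000000000000000000, 0x700000000000000000000000000000000000000000000000, 0x1c000000000000000000000000000000000000000000000000, 0x1e000000000000000000000000000000000000000000000000000]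

/-- The strategy tree of block 7. -/
def t7 : Tr := (.cons 4 76 (.leaf [(28,100),(46,88),(82,118)]) (.cons 100 28 (.cons 4 76 (.leaf [(46,88),(82,118)]) (.cons 76 4 (.leaf [(82,88),(46,118)]) (.cons 46 4 (.leaf [(82,118),(76,88)]) (.cons 82 76 (.leaf [(46,118),(4,88)]) (.cons 88 4 (.leaf [(76,82),(46,118)]) (.cons 118 82 (.leaf [(4,76),(46,88)]) .nil)))))) (.cons 76 4 (.leaf [(28,100),(46,118),(82,88)]) (.cons 46 4 (.leaf [(28,100),(82,118),(76,88)]) (.cons 28 100 (.leaf [(4,76),(46,88),(82,118)]) (.cons 82 4 (.leaf [(28,100),(46,118),(76,88)]) (.cons 88 4 (.leaf [(28,100),(46,118),(76,82)]) (.cons 118 4 (.leaf [(28,100),(46,82),(76,88)]) .nil))))))))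

/-- The masks of block 7. -/
def m7 : List ℕ := [0x10000000000000000010, 0x10000000000400000000010, 0x400000000400000000400000000000, 0x10000000000000000010000000, 0x10010410000000000000000000]

/-- The strategy tree of block 8. -/
def t8 : Tr := (.cons 58 198 (.leaf [(56,200),(78,186),(166,202),(54,55),(18,203)]) (.cons 198 58 (.leaf [(18,54),(56,200),(78,186),(202,203),(55,166)]) (.cons 200 56 (.cons 198 58 (.leaf [(18,54),(78,186),(202,203),(55,166)]) (.cons 58 198 (.leaf [(78,186),(166,202),(18,55)]) (.cons 186 78 (.cons 198 58 (.leaf [(18,54),(202,203),(55,166)]) (.cons 58 198 (.leaf [(166,202),(18,55)]) (.cons 202 198 (.leaf [(58,166),(18,55)]) (.cons 166 198 (.leaf [(58,202),(18,55)]) (.cons 203 198 (.leaf [(18,55),(58,166)]) (.cons 18 198 (.leaf [(55,203),(58,166)]) (.cons 54 198 (.leaf [(58,166),(18,55)]) (.cons 55 198 (.leaf [(18,203),(58,166)]) .nil)))))))) (.cons 202 198 (.leaf [(58,166),(78,186),(18,55)]) (.cons 78 186 (.cons 198 58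 (.leaf [(18,54),(202,203),(55,166)]) (.cons 58 198 (.leaf [(166,202),(18,55)]) (.cons 202 198 (.leaf [(58,166),(18,55)]) (.cons 166 198 (.leaf [(58,202),(18,55)]) (.cons 203 198 (.leaf [(18,55),(58,166)]) (.cons 18 198 (.leaf [(55,203),(58,166)]) (.cons 54 198 (.leaf [(58,166),(18,55)]) (.cons 55 198 (.leaf [(18,203),(58,166)]) .nil)))))))) (.cons 166 198 (.leaf [(58,202),(78,186),(18,55)]) (.cons 203 198 (.leaf [(78,186),(18,55),(58,166)]) (.cons 18 198 (.leaf [(78,186),(55,203),(58,166)]) (.cons 54 198 (.leaf [(78,186),(58,166),(18,55)]) (.cons 55 198 (.leaf [(78,186),(18,203),(58,166)]) .nil)))))))))) (.cons 56 200 (.cons 58 198 (.leaf [(54,55),(78,186),(166,202),(18,203)]) (.cons 198 58 (.leaf [(18,54),(78,186),(55,166)]) (.cons 186 78 (.cons 58 198 (.leaf [(54,55),(166,202),(18,203)]) (.cons 198 58 (.leaf [(18,54),(55,166)]) (.cons 54 58 (.leaf [(18,198),(55,166)]) (.cons 166 58 (.leaf [(18,55),(54,198)]) (.cons 18 198 (.leaf [(54,55),(58,202),(166,203)])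 (.cons 55 58 (.leaf [(18,166),(54,198)]) (.cons 202 58 (.leaf [(18,55),(54,198)]) (.cons 203 58 (.leaf [(18,55),(54,198)]) .nil)))))))) (.cons 78 186 (.cons 58 198 (.leaf [(54,55),(166,202),(18,203)]) (.cons 198 58 (.leaf [(18,54),(55,166)]) (.cons 54 58 (.leaf [(18,198),(55,166)]) (.cons 166 58 (.leaf [(18,55),(54,198)]) (.cons 18 198 (.leaf [(54,55),(58,202),(166,203)]) (.cons 55 58 (.leaf [(18,166),(54,198)]) (.cons 202 58 (.leaf [(18,55),(54,198)]) (.cons 203 58 (.leaf [(18,55),(54,198)]) .nil)))))))) (.cons 54 58 (.leaf [(18,198),(78,186),(55,166)]) (.cons 166 58 (.leaf [(78,186),(18,55),(54,198)]) (.cons 18 58 (.leaf [(54,198),(78,186),(55,166)]) (.cons 55 58 (.leaf [(78,186),(18,166),(54,198)]) (.cons 202 58 (.leaf [(78,186),(18,55),(54,198)]) (.cons 203 58 (.leaf [(78,186),(18,55),(54,198)]) .nil)))))))))) (.cons 78 186 (.cons 198 58 (.leaf [(18,54),(56,200),(202,203),(55,166)]) (.cons 58 198 (.leaf [(56,200),(166,202),(54,55),(18,203)])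 (.cons 200 56 (.cons 198 58 (.leaf [(18,54),(202,203),(55,166)]) (.cons 58 198 (.leaf [(166,202),(18,55)]) (.cons 202 198 (.leaf [(58,166),(18,55)]) (.cons 166 198 (.leaf [(58,202),(18,55)]) (.cons 203 198 (.leaf [(18,55),(58,166)]) (.cons 18 198 (.leaf [(55,203),(58,166)]) (.cons 54 198 (.leaf [(58,166),(18,55)]) (.cons 55 198 (.leaf [(18,203),(58,166)]) .nil)))))))) (.cons 56 200 (.cons 58 198 (.leaf [(54,55),(166,202),(18,203)]) (.cons 198 58 (.leaf [(18,54),(55,166)]) (.cons 54 58 (.leaf [(18,198),(55,166)]) (.cons 166 58 (.leaf [(18,55),(54,198)]) (.cons 18 198 (.leaf [(54,55),(58,202),(166,203)]) (.cons 55 58 (.leaf [(18,166),(54,198)]) (.cons 202 58 (.leaf [(18,55),(54,198)]) (.cons 203 58 (.leaf [(18,55),(54,198)]) .nil)))))))) (.cons 166 58 (.leaf [(56,200),(18,54),(198,202),(55,203)]) (.cons 202 58 (.leaf [(56,200),(18,54),(198,203),(55,166)]) (.cons 18 198 (.leaf [(56,200),(54,55),(166,203),(58,202)]) (.cons 54 198 (.leaf [(56,200),(55,58),(166,202),(18,203)])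 (.cons 203 198 (.leaf [(56,200),(18,166),(54,55),(58,202)]) (.cons 55 58 (.leaf [(56,200),(18,54),(198,202),(166,203)]) .nil)))))))))) (.cons 186 78 (.cons 198 58 (.leaf [(18,54),(56,200),(202,203),(55,166)]) (.cons 58 198 (.leaf [(56,200),(166,202),(54,55),(18,203)]) (.cons 200 56 (.cons 198 58 (.leaf [(18,54),(202,203),(55,166)]) (.cons 58 198 (.leaf [(166,202),(18,55)]) (.cons 202 198 (.leaf [(58,166),(18,55)]) (.cons 166 198 (.leaf [(58,202),(18,55)]) (.cons 203 198 (.leaf [(18,55),(58,166)]) (.cons 18 198 (.leaf [(55,203),(58,166)]) (.cons 54 198 (.leaf [(58,166),(18,55)]) (.cons 55 198 (.leaf [(18,203),(58,166)]) .nil)))))))) (.cons 56 200 (.cons 58 198 (.leaf [(54,55),(166,202),(18,203)]) (.cons 198 58 (.leaf [(18,54),(55,166)]) (.cons 54 58 (.leaf [(18,198),(55,166)]) (.cons 166 58 (.leaf [(18,55),(54,198)]) (.cons 18 198 (.leaf [(54,55),(58,202),(166,203)]) (.cons 55 58 (.leaf [(18,166),(54,198)]) (.cons 202 58 (.leaf [(18,55),(54,198)])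 (.cons 203 58 (.leaf [(18,55),(54,198)]) .nil)))))))) (.cons 166 58 (.leaf [(56,200),(18,54),(198,202),(55,203)]) (.cons 202 58 (.leaf [(56,200),(18,54),(198,203),(55,166)]) (.cons 18 198 (.leaf [(56,200),(54,55),(166,203),(58,202)]) (.cons 54 198 (.leaf [(56,200),(55,58),(166,202),(18,203)]) (.cons 203 198 (.leaf [(56,200),(18,166),(54,55),(58,202)]) (.cons 55 58 (.leaf [(56,200),(18,54),(198,202),(166,203)]) .nil)))))))))) (.cons 166 58 (.leaf [(56,200),(78,186),(18,54),(198,202),(55,203)]) (.cons 202 58 (.leaf [(56,200),(78,186),(18,54),(198,203),(55,166)]) (.cons 18 198 (.leaf [(56,200),(78,186),(54,55),(166,203),(58,202)]) (.cons 54 198 (.leaf [(56,200),(78,186),(55,58),(166,202),(18,203)]) (.cons 203 198 (.leaf [(56,200),(78,186),(18,166),(54,55),(58,202)]) (.cons 55 58 (.leaf [(56,200),(78,186),(18,54),(198,202),(166,203)]) .nil))))))))))))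

/-- The masks of block 8. -/
def m8 : List ℕ := [0x40000000000000000000000000040000000000000000000, 0x40000000000000000000000000000000000040000000040000, 0x800000000400000000000000000000000000080000000040000, 0x100000000000000000000000000000000000100000000000000, 0x400000000400000000000000000000000000400000000000000, 0x40000000000000000000000000000000000400000000000000, 0x5c0000000000000, 0xd40000000000000000000000000000000000000000000000000]

/-- The strategy tree of block 9. -/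
def t9 : Tr := (.cons 3 171 (.leaf [(21,27),(39,147),(69,213),(57,63),(165,201)]) (.cons 171 3 (.leaf [(27,63),(69,213),(147,165),(21,201),(39,57)]) (.cons 213 69 (.cons 3 171 (.leaf [(21,27),(39,147),(57,165)]) (.cons 171 3 (.leaf [(27,63),(147,165),(21,57)]) (.cons 147 3 (.leaf [(165,171),(27,63),(21,57)]) (.cons 27 3 (.leaf [(63,171),(147,165),(21,57)]) (.cons 165 171 (.leaf [(3,27),(21,57),(39,147)]) (.cons 21 3 (.leaf [(27,63),(57,201),(147,165)]) (.cons 39 3 (.leaf [(27,63),(147,165),(21,57)]) (.cons 63 171 (.leaf [(3,27),(21,57),(39,147)]) (.cons 201 3 (.leaf [(21,57),(27,63),(147,165)]) (.cons 57 3 (.leaf [(21,201),(147,165),(27,63)]) .nil)))))))))) (.cons 69 213 (.cons 3 39 (.leaf [(21,27),(63,171),(147,165),(57,201)]) (.cons 39 3 (.leaf [(57,63),(27,171),(147,165),(21,201)]) (.cons 171 147 (.leaf [(27,63),(3,21),(39,57),(165,201)]) (.cons 147 3 (.leaf [(165,171),(27,63),(39,57),(21,201)]) (.cons 27 3 (.leaf [(63,171),(39,57),(147,165),(21,201)])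 (.cons 63 39 (.leaf [(27,171),(3,21),(147,165),(57,201)]) (.cons 165 171 (.leaf [(3,147),(21,27),(39,63),(57,201)]) (.cons 21 3 (.leaf [(27,171),(39,63),(57,201),(147,165)]) (.cons 57 39 (.leaf [(3,27),(21,201),(147,165),(63,171)]) (.cons 201 3 (.leaf [(21,57),(27,171),(39,63),(147,165)]) .nil)))))))))) (.cons 147 3 (.leaf [(69,213),(165,171),(27,63),(21,201),(39,57)]) (.cons 27 3 (.leaf [(63,171),(69,213),(147,165),(21,201),(39,57)]) (.cons 165 171 (.leaf [(69,213),(3,147),(21,27),(39,63),(57,201)]) (.cons 39 3 (.leaf [(69,213),(27,171),(57,63),(147,165),(21,201)]) (.cons 21 3 (.leaf [(69,213),(27,63),(39,57),(165,201),(147,171)]) (.cons 63 171 (.leaf [(69,213),(3,147),(21,27),(39,57),(165,201)]) (.cons 57 3 (.leaf [(69,213),(21,201),(147,165),(27,171),(39,63)]) (.cons 201 3 (.leaf [(69,213),(21,165),(39,57),(27,63),(147,171)]) .nil))))))))))))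

/-- The masks of block 9. -/
def m9 : List ℕ := [0x8200008, 0x8000000000000000000000000008000000008, 0x200000000008000000000000000000000000000000000000000008, 0x200000000200000000000000000000000000200000000200000, 0x8000000000000000000000000008000000008000000, 0x200000000000000000000000000000000000200000000000000000, 0x208200008000000000, 0x8200008000000000000000000000000000000000000]

/-- The strategy tree of block 10. -/
def t10 : Tr := (.cons 87 84 (.cons 97 77 (.leaf [(96,99),(148,178),(72,79),(75,93)]) (.cons 77 97 (.cons 72 75 (.leaf [(79,93),(148,178)]) (.cons 75 72 (.leaf [(93,99),(148,178)]) (.cons 178 148 (.cons 72 75 (.leaf [(79,93)]) (.cons 75 72 (.leaf [(93,99)]) (.cons 93 72 (.leaf [(75,99)]) (.cons 99 75 (.leaf [(72,79)]) (.cons 79 72 (.leaf [(75,93)]) .nil))))) (.cons 148 178 (.cons 72 75 (.leaf [(79,93)]) (.cons 75 72 (.leaf [(93,99)]) (.cons 93 72 (.leaf [(75,99)]) (.cons 99 75 (.leaf [(72,79)]) (.cons 79 72 (.leaf [(75,93)]) .nil)))))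 (.cons 93 72 (.leaf [(75,99),(148,178)]) (.cons 99 75 (.leaf [(148,178),(72,79)]) (.cons 79 72 (.leaf [(148,178),(75,93)]) .nil))))))) (.cons 99 77 (.leaf [(75,93),(96,97),(148,178),(72,79)]) (.cons 72 77 (.leaf [(79,93),(148,178),(75,99),(96,97)]) (.cons 75 77 (.leaf [(93,99),(148,178),(72,79),(96,97)]) (.cons 178 148 (.cons 97 77 (.leaf [(96,99),(72,79),(75,93)]) (.cons 77 97 (.cons 72 75 (.leaf [(79,93)]) (.cons 75 72 (.leaf [(93,99)]) (.cons 93 72 (.leaf [(75,99)]) (.cons 99 75 (.leaf [(72,79)]) (.cons 79 72 (.leaf [(75,93)]) .nil))))) (.cons 99 77 (.leaf [(75,93),(96,97),(72,79)]) (.cons 72 77 (.leaf [(79,93),(75,99),(96,97)]) (.cons 75 77 (.leaf [(93,99),(72,79),(96,97)]) (.cons 93 75 (.leaf [(72,79),(77,97),(96,99)]) (.cons 96 97 (.leaf [(72,77),(75,99),(79,93)]) (.cons 79 72 (.leaf [(77,97),(75,93),(96,99)]) .nil)))))))) (.cons 148 178 (.cons 97 77 (.leaf [(96,99),(72,79),(75,93)]) (.cons 77 97 (.cons 72 75 (.leaf [(79,93)]) (.cons 75 72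 (.leaf [(93,99)]) (.cons 93 72 (.leaf [(75,99)]) (.cons 99 75 (.leaf [(72,79)]) (.cons 79 72 (.leaf [(75,93)]) .nil))))) (.cons 99 77 (.leaf [(75,93),(96,97),(72,79)]) (.cons 72 77 (.leaf [(79,93),(75,99),(96,97)]) (.cons 75 77 (.leaf [(93,99),(72,79),(96,97)]) (.cons 93 75 (.leaf [(72,79),(77,97),(96,99)]) (.cons 96 97 (.leaf [(72,77),(75,99),(79,93)]) (.cons 79 72 (.leaf [(77,97),(75,93),(96,99)]) .nil)))))))) (.cons 93 75 (.leaf [(72,79),(77,97),(148,178),(96,99)]) (.cons 96 97 (.leaf [(148,178),(72,77),(75,99),(79,93)]) (.cons 79 72 (.leaf [(77,97),(148,178),(75,93),(96,99)]) .nil)))))))))) (.cons 72 87 (.leaf [(75,77),(79,93),(84,96),(148,178),(97,99)]) (.cons 84 87 (.leaf [(72,96),(148,178),(75,77),(79,93),(97,99)]) (.cons 96 87 (.leaf [(72,84),(97,99),(148,178),(75,77),(79,93)]) (.cons 97 87 (.leaf [(96,99),(148,178),(72,84),(75,77),(79,93)]) (.cons 77 87 (.leaf [(72,75),(148,178),(79,93),(84,96),(97,99)]) (.cons 178 148 (.cons 87 84 (.cons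 97 77 (.leaf [(96,99),(72,79),(75,93)]) (.cons 77 97 (.cons 72 75 (.leaf [(79,93)]) (.cons 75 72 (.leaf [(93,99)]) (.cons 93 72 (.leaf [(75,99)]) (.cons 99 75 (.leaf [(72,79)]) (.cons 79 72 (.leaf [(75,93)]) .nil))))) (.cons 99 77 (.leaf [(75,93),(96,97),(72,79)]) (.cons 72 77 (.leaf [(79,93),(75,99),(96,97)]) (.cons 75 77 (.leaf [(93,99),(72,79),(96,97)]) (.cons 93 75 (.leaf [(72,79),(77,97),(96,99)]) (.cons 96 97 (.leaf [(72,77),(75,99),(79,93)]) (.cons 79 72 (.leaf [(77,97),(75,93),(96,99)]) .nil)))))))) (.cons 72 87 (.leaf [(75,77),(79,93),(84,96),(97,99)]) (.cons 84 87 (.leaf [(72,96),(75,77),(79,93),(97,99)]) (.cons 96 87 (.leaf [(72,84),(97,99),(75,77),(79,93)]) (.cons 97 87 (.leaf [(96,99),(72,84),(75,77),(79,93)]) (.cons 77 87 (.leaf [(72,75),(79,93),(84,96),(97,99)]) (.cons 99 87 (.leaf [(96,97),(72,84),(75,77),(79,93)]) (.cons 75 87 (.leaf [(72,77),(79,93),(84,96),(97,99)]) (.cons 93 87 (.leaf [(72,79),(75,77),(84,96),(97,99)]) (.cons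 79 72 (.leaf [(84,87),(77,97),(96,99),(75,93)]) .nil)))))))))) (.cons 148 178 (.cons 87 84 (.cons 97 77 (.leaf [(96,99),(72,79),(75,93)]) (.cons 77 97 (.cons 72 75 (.leaf [(79,93)]) (.cons 75 72 (.leaf [(93,99)]) (.cons 93 72 (.leaf [(75,99)]) (.cons 99 75 (.leaf [(72,79)]) (.cons 79 72 (.leaf [(75,93)]) .nil))))) (.cons 99 77 (.leaf [(75,93),(96,97),(72,79)]) (.cons 72 77 (.leaf [(79,93),(75,99),(96,97)]) (.cons 75 77 (.leaf [(93,99),(72,79),(96,97)]) (.cons 93 75 (.leaf [(72,79),(77,97),(96,99)]) (.cons 96 97 (.leaf [(72,77),(75,99),(79,93)]) (.cons 79 72 (.leaf [(77,97),(75,93),(96,99)]) .nil)))))))) (.cons 72 87 (.leaf [(75,77),(79,93),(84,96),(97,99)]) (.cons 84 87 (.leaf [(72,96),(75,77),(79,93),(97,99)]) (.cons 96 87 (.leaf [(72,84),(97,99),(75,77),(79,93)]) (.cons 97 87 (.leaf [(96,99),(72,84),(75,77),(79,93)]) (.cons 77 87 (.leaf [(72,75),(79,93),(84,96),(97,99)]) (.cons 99 87 (.leaf [(96,97),(72,84),(75,77),(79,93)]) (.cons 75 87 (.leaf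 [(72,77),(79,93),(84,96),(97,99)]) (.cons 93 87 (.leaf [(72,79),(75,77),(84,96),(97,99)]) (.cons 79 72 (.leaf [(84,87),(77,97),(96,99),(75,93)]) .nil)))))))))) (.cons 99 87 (.leaf [(96,97),(148,178),(72,84),(75,77),(79,93)]) (.cons 75 87 (.leaf [(72,77),(148,178),(79,93),(84,96),(97,99)]) (.cons 93 87 (.leaf [(72,79),(148,178),(75,77),(84,96),(97,99)]) (.cons 79 72 (.leaf [(84,87),(148,178),(77,97),(96,99),(75,93)]) .nil))))))))))))

/-- The masks of block 10. -/
def m10 : List ℕ := [0x29000000000000000000, 0x1001001000000000000000000, 0x200081000000000000000000, 0x8208008000000000000000000, 0x2008020000000000000000000, 0x9000000000000000000000, 0xb000000000000000000000000, 0x400000010000000000000000000000000000000000000]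

/-- The strategy tree of block 11. -/
def t11 : Tr := (.cons 24 204 (.cons 61 98 (.cons 133 25 (.leaf [(134,137),(29,101)]) (.cons 25 133 (.leaf [(26,29),(101,137)]) (.cons 137 133 (.leaf [(29,101),(25,26)]) (.cons 29 25 (.leaf [(101,137),(133,134)]) (.cons 101 137 (.leaf [(25,133),(26,29)]) (.cons 134 133 (.leaf [(25,26),(29,101)]) (.cons 26 25 (.leaf [(29,101),(133,134)]) .nil))))))) (.cons 98 61 (.leaf [(25,29),(26,170),(133,134),(101,137)]) (.cons 133 61 (.leaf [(134,137),(25,26),(29,101),(98,170)]) (.cons 137 133 (.leaf [(29,101),(61,98),(25,26),(134,170)]) (.cons 25 61 (.leaf [(26,29),(101,137),(133,134),(98,170)]) (.cons 29 25 (.leaf [(61,98),(101,137),(133,134),(26,170)]) (.cons 134 133 (.leaf [(61,98),(25,29),(26,170),(101,137)]) (.cons 26 61 (.leaf [(25,29),(101,137),(98,170),(133,134)]) (.cons 101 137 (.leaf [(61,98),(25,133),(26,29),(134,170)]) (.cons 170 98 (.leaf [(25,61),(26,29),(133,134),(101,137)]) .nil)))))))))) (.cons 204 24 (.cons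 134 29 (.leaf [(133,137),(25,61),(26,98)]) (.cons 29 134 (.leaf [(101,137),(25,61)]) (.cons 133 134 (.leaf [(25,61),(29,101)]) (.cons 137 134 (.leaf [(29,101),(25,61)]) (.cons 101 29 (.leaf [(25,61),(133,134),(26,98)]) (.cons 25 134 (.leaf [(61,133),(29,101)]) (.cons 61 134 (.leaf [(25,133),(29,101)]) (.cons 98 134 (.leaf [(25,61),(29,101)]) (.cons 170 134 (.leaf [(25,61),(29,101)]) (.cons 26 134 (.leaf [(25,61),(29,101)]) .nil)))))))))) (.cons 134 204 (.cons 133 137 (.cons 61 25 (.leaf [(24,98),(26,170)]) (.cons 25 61 (.leaf [(24,29),(26,98)]) (.cons 98 61 (.leaf [(26,170),(24,25)]) (.cons 24 61 (.leaf [(25,29),(26,98)]) (.cons 26 98 (.leaf [(25,61),(24,29)]) (.cons 170 98 (.leaf [(25,61),(24,26)]) (.cons 29 25 (.leaf [(24,61),(26,98)]) .nil))))))) (.cons 137 133 (.leaf [(29,101),(24,25),(61,98),(26,170)]) (.cons 98 133 (.leaf [(24,61),(26,170),(25,29),(101,137)]) (.cons 61 133 (.leaf [(24,98),(26,170),(25,29),(101,137)]) (.cons 29 133 (.leaf [(101,137),(24,25),(26,170),(61,98)])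 (.cons 24 133 (.leaf [(61,98),(25,29),(26,170),(101,137)]) (.cons 25 133 (.leaf [(24,29),(26,170),(61,98),(101,137)]) (.cons 26 133 (.leaf [(98,170),(24,61),(25,29),(101,137)]) (.cons 101 137 (.leaf [(24,29),(61,98),(25,133),(26,170)]) (.cons 170 98 (.leaf [(133,137),(25,61),(29,101),(24,26)]) .nil)))))))))) (.cons 29 204 (.cons 137 101 (.cons 133 134 (.cons 25 61 (.leaf [(24,26)]) (.cons 61 25 (.leaf [(24,98)]) (.cons 24 25 (.leaf [(61,98)]) (.cons 98 61 (.leaf [(24,25)]) (.cons 26 25 (.leaf [(24,61)]) .nil))))) (.cons 134 133 (.leaf [(24,25),(26,170),(61,98)]) (.cons 24 133 (.leaf [(25,26),(61,98),(134,170)]) (.cons 25 133 (.leaf [(24,26),(61,98),(134,170)]) (.cons 61 133 (.leaf [(24,98),(25,26),(134,170)]) (.cons 98 133 (.leaf [(24,61),(25,26),(134,170)]) (.cons 26 133 (.leaf [(24,25),(61,98),(134,170)]) (.cons 170 133 (.leaf [(24,25),(26,134),(61,98)]) .nil)))))))) (.cons 101 137 (.leaf [(24,26),(25,133),(61,98),(134,170)]) (.cons 133 137 (.cons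 25 61 (.leaf [(24,26),(98,134)]) (.cons 61 25 (.leaf [(24,98),(26,134)]) (.cons 24 25 (.leaf [(61,98),(26,134)]) (.cons 98 61 (.leaf [(24,25),(26,134)]) (.cons 26 25 (.leaf [(24,61),(98,134)]) (.cons 134 25 (.leaf [(24,61),(26,98)]) (.cons 170 25 (.leaf [(24,61),(26,98)]) .nil))))))) (.cons 24 25 (.leaf [(61,98),(101,137),(133,134),(26,170)]) (.cons 25 133 (.leaf [(24,26),(101,137),(61,98),(134,170)]) (.cons 61 133 (.leaf [(24,98),(101,137),(25,26),(134,170)]) (.cons 98 24 (.leaf [(101,137),(25,61),(26,170),(133,134)]) (.cons 134 133 (.leaf [(101,137),(24,25),(26,170),(61,98)]) (.cons 26 24 (.leaf [(101,137),(25,61),(98,170),(133,134)]) (.cons 170 98 (.leaf [(101,137),(24,26),(25,61),(133,134)]) .nil)))))))))) (.cons 133 24 (.cons 134 137 (.leaf [(25,61),(29,204),(26,98)]) (.cons 137 134 (.leaf [(25,61),(29,101)]) (.cons 61 25 (.cons 134 137 (.leaf [(29,204),(26,98)]) (.cons 137 134 (.leaf [(29,101)]) (.cons 29 134 (.leaf [(101,137)]) (.cons 101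 137 (.leaf [(29,134),(26,98)]) (.cons 204 134 (.leaf [(29,101)]) (.cons 98 134 (.leaf [(29,101)]) (.cons 170 134 (.leaf [(29,101)]) (.cons 26 134 (.leaf [(29,101)]) .nil)))))))) (.cons 25 61 (.cons 134 137 (.leaf [(29,204),(26,98)]) (.cons 137 134 (.leaf [(29,101)]) (.cons 29 134 (.leaf [(101,137)]) (.cons 101 137 (.leaf [(29,134),(26,98)]) (.cons 204 134 (.leaf [(29,101)]) (.cons 98 134 (.leaf [(29,101)]) (.cons 170 134 (.leaf [(29,101)]) (.cons 26 134 (.leaf [(29,101)]) .nil)))))))) (.cons 29 134 (.leaf [(25,61),(101,137)]) (.cons 101 137 (.leaf [(25,61),(29,134),(26,98)]) (.cons 204 134 (.leaf [(25,61),(29,101)]) (.cons 98 134 (.leaf [(25,61),(29,101)]) (.cons 170 134 (.leaf [(25,61),(29,101)]) (.cons 26 134 (.leaf [(25,61),(29,101)]) .nil)))))))))) (.cons 137 204 (.cons 133 134 (.cons 61 25 (.leaf [(24,98),(29,101)]) (.cons 29 101 (.cons 25 61 (.leaf [(24,26)]) (.cons 61 25 (.leaf [(24,98)]) (.cons 24 25 (.leaf [(61,98)]) (.cons 98 61 (.leaf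 [(24,25)]) (.cons 26 25 (.leaf [(24,61)]) .nil))))) (.cons 25 61 (.leaf [(29,101),(24,26)]) (.cons 101 29 (.leaf [(25,61),(24,98)]) (.cons 24 61 (.leaf [(29,101),(25,26)]) (.cons 98 61 (.leaf [(29,101),(24,25)]) (.cons 26 61 (.leaf [(29,101),(24,25)]) .nil))))))) (.cons 134 133 (.leaf [(29,101),(24,25),(61,98),(26,170)]) (.cons 29 101 (.cons 133 134 (.cons 25 61 (.leaf [(24,26)]) (.cons 61 25 (.leaf [(24,98)]) (.cons 24 25 (.leaf [(61,98)]) (.cons 98 61 (.leaf [(24,25)]) (.cons 26 25 (.leaf [(24,61)]) .nil))))) (.cons 134 133 (.leaf [(24,25),(26,170),(61,98)]) (.cons 24 133 (.leaf [(25,26),(61,98),(134,170)]) (.cons 25 133 (.leaf [(24,26),(61,98),(134,170)]) (.cons 61 133 (.leaf [(24,98),(25,26),(134,170)]) (.cons 98 133 (.leaf [(24,61),(25,26),(134,170)]) (.cons 26 133 (.leaf [(24,25),(61,98),(134,170)]) (.cons 170 133 (.leaf [(24,25),(26,134),(61,98)]) .nil)))))))) (.cons 101 29 (.leaf [(133,134),(24,98),(25,61),(26,170)]) (.cons 61 133 (.leaf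 [(24,98),(29,101),(25,26),(134,170)]) (.cons 98 133 (.leaf [(24,61),(29,101),(25,26),(134,170)]) (.cons 24 133 (.leaf [(29,101),(61,98),(25,26),(134,170)]) (.cons 25 133 (.leaf [(29,101),(24,26),(61,98),(134,170)]) (.cons 26 133 (.leaf [(29,101),(24,25),(61,98),(134,170)]) (.cons 170 134 (.leaf [(29,101),(24,26),(61,98),(25,133)]) .nil)))))))))) (.cons 61 204 (.cons 133 25 (.leaf [(24,98),(134,137),(29,101),(26,170)]) (.cons 98 24 (.leaf [(25,133),(26,170),(134,137),(29,101)]) (.cons 24 98 (.cons 133 25 (.leaf [(134,137),(29,101)]) (.cons 25 133 (.leaf [(26,29),(101,137)]) (.cons 137 133 (.leaf [(29,101),(25,26)]) (.cons 29 25 (.leaf [(101,137),(133,134)]) (.cons 101 137 (.leaf [(25,133),(26,29)]) (.cons 134 133 (.leaf [(25,26),(29,101)]) (.cons 26 25 (.leaf [(29,101),(133,134)]) .nil))))))) (.cons 25 133 (.leaf [(24,98),(26,29),(101,137),(134,170)]) (.cons 137 133 (.leaf [(24,98),(29,101),(25,26),(134,170)]) (.cons 134 133 (.leaf [(24,98),(26,170),(25,29),(101,137)])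 (.cons 29 133 (.leaf [(24,98),(101,137),(25,26),(134,170)]) (.cons 101 133 (.leaf [(24,98),(29,137),(25,26),(134,170)]) (.cons 26 133 (.leaf [(24,98),(25,29),(101,137),(134,170)]) (.cons 170 98 (.leaf [(25,133),(29,101),(134,137),(24,26)]) .nil)))))))))) (.cons 98 24 (.leaf [(25,61),(26,170),(133,134),(29,204),(101,137)]) (.cons 25 133 (.cons 24 204 (.leaf [(26,29),(61,98),(101,137),(134,170)]) (.cons 204 24 (.leaf [(29,134),(101,137),(26,98)]) (.cons 29 24 (.leaf [(101,137),(134,204),(26,98)]) (.cons 98 24 (.leaf [(26,170),(29,134),(101,137)]) (.cons 134 204 (.leaf [(24,29),(26,170),(61,98),(101,137)]) (.cons 26 24 (.leaf [(29,204),(101,137),(98,134)]) (.cons 101 29 (.leaf [(24,204),(61,98),(26,134)]) (.cons 137 29 (.leaf [(24,204),(61,98),(26,134)]) (.cons 61 24 (.leaf [(29,134),(101,137),(26,98)]) (.cons 170 24 (.leaf [(26,98),(29,134),(101,137)]) .nil)))))))))) (.cons 101 29 (.leaf [(24,204),(61,98),(25,133),(134,137),(26,170)]) (.cons 26 24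 (.leaf [(25,61),(29,204),(101,137),(133,134),(98,170)]) (.cons 170 24 (.leaf [(25,61),(26,98),(29,204),(101,137),(133,134)]) .nil))))))))))))

/-- The masks of block 11. -/
def m11 : List ℕ := [0x27000000, 0x1000000000000000000000000000000000000000000001000000, 0x4000000002000000001000000, 0x2000000000000000002000000002000000, 0x4000000004000000004000000000000000004000000, 0x1000000000000000004000000000000000000000000020000000, 0x20000000020000000000000000020000000, 0x26000000000000000000000000000000000]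

/-- The strategy tree of block 12. -/
def t12 : Tr := (.cons 154 30 (.leaf [(34,94),(60,65),(150,153),(33,183),(90,91)]) (.cons 30 154 (.leaf [(33,34),(60,65),(153,183),(90,150),(91,94)]) (.cons 60 65 (.cons 154 30 (.leaf [(34,94),(150,153),(33,183),(90,91)]) (.cons 30 154 (.leaf [(33,34),(90,150),(153,183),(91,94)]) (.cons 33 30 (.leaf [(153,183),(34,94),(90,91),(150,154)]) (.cons 34 154 (.leaf [(30,33),(90,150),(153,183),(91,94)]) (.cons 94 154 (.leaf [(90,91),(30,150),(33,34),(153,183)]) (.cons 150 154 (.leaf [(30,90),(33,34),(153,183),(91,94)]) (.cons 153 154 (.leaf [(33,183),(30,34),(90,150),(91,94)]) (.cons 90 30 (.leaf [(91,94),(33,183),(150,153),(34,154)]) (.cons 183 154 (.leaf [(33,153),(30,34),(90,150),(91,94)]) (.cons 91 154 (.leaf [(90,94),(30,150),(33,34),(153,183)]) .nil)))))))))) (.cons 65 60 (.cons 154 30 (.leaf [(34,94),(150,153),(33,183),(90,91)]) (.cons 30 154 (.leaf [(33,34),(153,183),(90,91)]) (.cons 33 30 (.leaf [(153,183),(34,94),(90,91),(150,154)])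 (.cons 34 154 (.leaf [(30,33),(153,183),(90,91)]) (.cons 94 154 (.leaf [(90,91),(30,34),(33,153)]) (.cons 153 154 (.leaf [(33,183),(30,34),(90,91)]) (.cons 90 154 (.leaf [(91,94),(30,34),(33,153)]) (.cons 150 154 (.leaf [(30,34),(33,153),(90,91)]) (.cons 183 154 (.leaf [(33,153),(30,34),(90,91)]) (.cons 91 154 (.leaf [(90,94),(30,34),(33,153)]) .nil)))))))))) (.cons 33 30 (.leaf [(60,65),(153,183),(34,94),(90,91),(150,154)]) (.cons 34 154 (.leaf [(30,33),(60,65),(153,183),(90,150),(91,94)]) (.cons 94 154 (.leaf [(60,65),(90,91),(30,150),(33,34),(153,183)]) (.cons 153 154 (.leaf [(33,183),(60,65),(30,34),(90,150),(91,94)]) (.cons 90 30 (.leaf [(60,65),(91,94),(33,183),(150,153),(34,154)]) (.cons 150 154 (.leaf [(60,65),(30,90),(33,34),(153,183),(91,94)]) (.cons 183 154 (.leaf [(33,153),(60,65),(30,34),(90,150),(91,94)]) (.cons 91 154 (.leaf [(60,65),(90,94),(30,150),(33,34),(153,183)]) .nil))))))))))))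

/-- The masks of block 12. -/
def m12 : List ℕ := [0x640000000, 0x40000000000000040000001000000040000000, 0x400000000000000000000000000000040000000, 0x8000000200000000000000000000000000000200000000, 0x400000000000000400000000000000400000000, 0x21000000000000000, 0x4c0000000000000000000000, 0x640000000000000000000000000000000000000]

/-- The strategy tree of block 13. -/
def t13 : Tr := (.cons 113 5 (.cons 138 128 (.cons 108 112 (.leaf [(102,210),(126,132),(129,136)]) (.cons 112 108 (.leaf [(102,210),(130,136)]) (.cons 102 210 (.cons 108 112 (.leaf [(126,132),(129,136)]) (.cons 112 108 (.leaf [(130,136)]) (.cons 136 108 (.leaf [(112,130)]) (.cons 129 108 (.leaf [(112,130)]) (.cons 130 112 (.leaf [(108,129),(126,132)]) (.cons 132 108 (.leaf [(112,130)]) (.cons 126 108 (.leaf [(112,130)]) .nil))))))) (.cons 136 108 (.leaf [(102,210),(112,130)]) (.cons 210 102 (.cons 108 112 (.leaf [(126,132),(129,136)]) (.cons 112 108 (.leaf [(130,136)]) (.cons 136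 108 (.leaf [(112,130)]) (.cons 129 108 (.leaf [(112,130)]) (.cons 130 112 (.leaf [(108,129),(126,132)]) (.cons 132 108 (.leaf [(112,130)]) (.cons 126 108 (.leaf [(112,130)]) .nil))))))) (.cons 129 108 (.leaf [(102,210),(112,130)]) (.cons 130 108 (.leaf [(102,210),(112,136)]) (.cons 132 108 (.leaf [(102,210),(112,130)]) (.cons 126 108 (.leaf [(102,210),(112,130)]) .nil))))))))) (.cons 108 112 (.cons 138 128 (.leaf [(102,210),(126,132),(129,136)]) (.cons 128 138 (.leaf [(129,136),(126,130)]) (.cons 129 136 (.cons 138 128 (.leaf [(102,210),(126,132)]) (.cons 128 138 (.leaf [(126,130)]) (.cons 126 138 (.leaf [(128,130)]) (.cons 130 128 (.leaf [(102,138),(126,132)]) (.cons 132 138 (.leaf [(126,128)]) (.cons 102 138 (.leaf [(126,128)]) (.cons 210 138 (.leaf [(126,128)]) .nil))))))) (.cons 136 129 (.leaf [(128,138),(102,210),(126,132)]) (.cons 126 138 (.leaf [(129,136),(128,130)]) (.cons 132 138 (.leaf [(129,136),(126,128)]) (.cons 102 138 (.leaf [(129,136),(126,128)])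 (.cons 210 138 (.leaf [(129,136),(126,128)]) (.cons 130 138 (.leaf [(129,136),(126,128)]) .nil))))))))) (.cons 112 108 (.leaf [(128,138),(130,136),(102,210),(126,129)]) (.cons 128 138 (.cons 112 108 (.leaf [(130,136),(126,129)]) (.cons 108 112 (.leaf [(129,136),(126,130)]) (.cons 129 108 (.leaf [(126,130),(112,136)]) (.cons 130 112 (.leaf [(126,129),(108,136)]) (.cons 136 112 (.leaf [(108,129),(126,130)]) (.cons 126 112 (.leaf [(129,130),(108,136)]) .nil)))))) (.cons 136 108 (.leaf [(112,130),(128,138),(102,210),(126,129)]) (.cons 129 108 (.leaf [(128,138),(102,210),(112,136),(126,130)]) (.cons 130 108 (.leaf [(112,136),(128,138),(102,210),(126,129)]) (.cons 102 138 (.cons 108 112 (.leaf [(129,136),(126,128)]) (.cons 112 108 (.leaf [(130,136),(126,128)]) (.cons 136 112 (.leaf [(108,129),(126,128)]) (.cons 129 108 (.leaf [(112,130),(126,128)]) (.cons 130 112 (.leaf [(108,129),(126,128)]) (.cons 128 112 (.leaf [(108,136),(126,129)]) (.cons 126 112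 (.leaf [(108,136),(128,129)]) .nil))))))) (.cons 210 138 (.cons 108 112 (.leaf [(129,136),(126,128)]) (.cons 112 108 (.leaf [(130,136),(126,128)]) (.cons 136 112 (.leaf [(108,129),(126,128)]) (.cons 129 108 (.leaf [(112,130),(126,128)]) (.cons 130 112 (.leaf [(108,129),(126,128)]) (.cons 128 112 (.leaf [(108,136),(126,129)]) (.cons 126 112 (.leaf [(108,136),(128,129)]) .nil))))))) (.cons 126 108 (.leaf [(128,138),(102,210),(112,136),(129,130)]) (.cons 132 108 (.leaf [(128,138),(102,210),(112,130),(126,129)]) .nil))))))))))) (.cons 5 113 (.cons 210 128 (.leaf [(102,138),(108,126),(129,136),(112,130)]) (.cons 128 210 (.leaf [(108,136),(126,129),(112,130),(132,138)]) (.cons 136 210 (.leaf [(108,129),(112,130),(126,128),(132,138)]) (.cons 129 128 (.leaf [(108,136),(102,138),(112,130),(126,132)]) (.cons 130 128 (.leaf [(112,136),(102,138),(108,129),(126,132)]) (.cons 138 210 (.leaf [(108,132),(126,128),(129,136),(112,130)]) (.cons 108 136 (.leaf [(128,210),(102,138),(126,132),(129,130)])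 (.cons 102 210 (.leaf [(108,132),(129,136),(112,130),(126,128)]) (.cons 112 136 (.leaf [(128,210),(102,138),(108,132),(126,129)]) (.cons 126 128 (.leaf [(102,138),(108,132),(129,136),(112,130)]) (.cons 132 210 (.leaf [(108,138),(126,128),(129,136),(112,130)]) .nil))))))))))) (.cons 128 113 (.cons 210 5 (.cons 138 102 (.cons 129 130 (.leaf [(108,136),(126,132)]) (.cons 130 129 (.leaf [(112,136),(108,126)]) (.cons 136 129 (.leaf [(112,130),(108,126)]) (.cons 108 129 (.leaf [(126,132),(112,130)]) (.cons 126 129 (.leaf [(108,132),(112,130)]) (.cons 132 108 (.leaf [(112,130),(126,129)]) (.cons 112 130 (.leaf [(108,129),(126,132)]) .nil))))))) (.cons 129 130 (.leaf [(102,138),(108,136),(126,132)]) (.cons 130 129 (.leaf [(102,138),(112,136),(108,126)]) (.cons 102 138 (.leaf [(108,136),(126,129),(112,130)]) (.cons 136 129 (.leaf [(102,138),(112,130),(108,126)]) (.cons 108 129 (.leaf [(102,138),(112,130),(126,132)]) (.cons 126 129 (.leaf [(102,138),(108,132),(112,130)])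 (.cons 112 130 (.leaf [(102,138),(108,126),(129,136)]) (.cons 132 138 (.leaf [(108,136),(126,129),(112,130)]) .nil))))))))) (.cons 129 130 (.leaf [(5,210),(108,136),(102,138),(126,132)]) (.cons 130 129 (.leaf [(5,210),(112,136),(102,138),(108,126)]) (.cons 5 210 (.leaf [(108,136),(126,129),(112,130),(132,138)]) (.cons 136 129 (.leaf [(5,210),(112,130),(102,138),(108,126)]) (.cons 138 210 (.cons 129 130 (.leaf [(108,136),(126,132)]) (.cons 130 129 (.leaf [(112,136),(108,126)]) (.cons 136 129 (.leaf [(112,130),(108,126)]) (.cons 108 129 (.leaf [(126,132),(112,130)]) (.cons 126 129 (.leaf [(108,132),(112,130)]) (.cons 132 108 (.leaf [(112,130),(126,129)]) (.cons 112 130 (.leaf [(108,129),(126,132)]) .nil))))))) (.cons 108 129 (.leaf [(5,210),(102,138),(112,130),(126,132)]) (.cons 126 129 (.leaf [(5,210),(102,138),(108,132),(112,130)]) (.cons 102 210 (.leaf [(108,136),(126,129),(112,130),(132,138)]) (.cons 112 130 (.leaf [(5,210),(102,138),(108,126),(129,136)])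 (.cons 132 129 (.leaf [(5,210),(102,138),(108,126),(112,130)]) .nil))))))))))) (.cons 138 113 (.cons 210 102 (.cons 128 5 (.cons 129 130 (.leaf [(108,136),(126,132)]) (.cons 130 129 (.leaf [(112,136),(108,126)]) (.cons 136 129 (.leaf [(112,130),(108,126)]) (.cons 108 129 (.leaf [(126,132),(112,130)]) (.cons 126 129 (.leaf [(108,132),(112,130)]) (.cons 132 108 (.leaf [(112,130),(126,129)]) (.cons 112 130 (.leaf [(108,129),(126,132)]) .nil))))))) (.cons 5 128 (.leaf [(108,129),(126,132),(112,130)]) (.cons 136 108 (.leaf [(5,128),(112,130),(126,129)]) (.cons 108 136 (.leaf [(5,128),(126,132),(129,130)]) (.cons 129 128 (.leaf [(108,136),(126,132),(112,130)]) (.cons 130 128 (.leaf [(112,136),(108,129),(126,132)]) (.cons 126 128 (.leaf [(108,132),(129,136),(112,130)]) (.cons 132 108 (.leaf [(5,128),(112,130),(126,129)]) (.cons 112 136 (.leaf [(5,128),(108,132),(126,129)]) .nil))))))))) (.cons 102 210 (.leaf [(108,132),(126,128),(129,136),(112,130)]) (.cons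 136 108 (.leaf [(102,210),(112,130),(5,128),(126,129)]) (.cons 108 136 (.leaf [(102,210),(126,132),(5,128),(129,130)]) (.cons 128 210 (.cons 129 130 (.leaf [(108,136),(126,132)]) (.cons 130 129 (.leaf [(112,136),(108,126)]) (.cons 136 129 (.leaf [(112,130),(108,126)]) (.cons 108 129 (.leaf [(126,132),(112,130)]) (.cons 126 129 (.leaf [(108,132),(112,130)]) (.cons 132 108 (.leaf [(112,130),(126,129)]) (.cons 112 130 (.leaf [(108,129),(126,132)]) .nil))))))) (.cons 129 136 (.leaf [(102,210),(5,128),(108,132),(126,130)]) (.cons 130 136 (.leaf [(102,210),(5,128),(108,132),(126,129)]) (.cons 126 108 (.leaf [(102,210),(5,128),(112,136),(129,130)]) (.cons 132 108 (.leaf [(102,210),(5,128),(112,130),(126,129)]) (.cons 5 210 (.leaf [(108,132),(126,128),(129,136),(112,130)]) (.cons 112 136 (.leaf [(102,210),(5,128),(108,132),(126,129)]) .nil))))))))))) (.cons 108 113 (.cons 136 129 (.leaf [(112,130),(5,128),(102,138),(126,132)]) (.cons 129 136 (.leaf [(5,210),(128,130),(102,138),(126,132)])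 (.cons 138 136 (.leaf [(102,210),(126,132),(5,128),(129,130)]) (.cons 210 136 (.leaf [(5,128),(102,138),(126,132),(129,130)]) (.cons 128 129 (.leaf [(5,210),(102,138),(112,130),(126,132)]) (.cons 130 136 (.leaf [(5,210),(128,129),(102,138),(126,132)]) (.cons 126 129 (.leaf [(132,138),(5,128),(102,210),(112,130)]) (.cons 132 136 (.leaf [(126,138),(5,128),(102,210),(129,130)]) (.cons 5 136 (.leaf [(128,210),(102,138),(126,132),(129,130)]) (.cons 102 136 (.leaf [(138,210),(5,128),(126,132),(129,130)]) (.cons 112 136 (.leaf [(5,128),(102,210),(132,138),(126,129)]) .nil))))))))))) (.cons 136 113 (.cons 129 108 (.leaf [(112,130),(5,210),(126,128),(102,138)]) (.cons 130 112 (.cons 129 108 (.leaf [(126,128),(5,210),(102,138)]) (.cons 108 129 (.leaf [(5,128),(102,138),(126,132)]) (.cons 128 129 (.leaf [(5,210),(102,138),(108,126)]) (.cons 210 128 (.leaf [(102,138),(108,129),(126,132)]) (.cons 138 129 (.leaf [(102,210),(5,128),(108,126)]) (.cons 126 129 (.leaf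 [(5,128),(102,138),(108,132)]) (.cons 5 128 (.leaf [(108,129),(102,138),(126,132)]) (.cons 102 129 (.leaf [(138,210),(5,128),(108,126)]) (.cons 132 129 (.leaf [(5,128),(102,138),(108,126)]) .nil))))))))) (.cons 108 129 (.leaf [(112,130),(5,128),(102,138),(126,132)]) (.cons 112 130 (.leaf [(108,129),(5,128),(102,138),(126,132)]) (.cons 210 128 (.leaf [(102,138),(108,129),(112,130),(126,132)]) (.cons 128 129 (.leaf [(5,210),(112,130),(102,138),(108,126)]) (.cons 138 108 (.leaf [(102,210),(112,130),(5,128),(126,129)]) (.cons 5 210 (.leaf [(108,129),(112,130),(126,128),(132,138)]) (.cons 102 210 (.leaf [(108,129),(112,130),(126,128),(132,138)]) (.cons 126 129 (.leaf [(112,130),(5,128),(102,138),(108,132)]) (.cons 132 108 (.leaf [(112,130),(5,210),(126,128),(102,138)]) .nil))))))))))) (.cons 112 113 (.cons 136 130 (.leaf [(108,129),(5,128),(102,138),(126,132)]) (.cons 130 136 (.leaf [(5,210),(128,129),(102,138),(108,126)]) (.cons 210 136 (.leaf [(5,128),(102,138),(108,132),(126,129)])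 (.cons 128 130 (.leaf [(5,210),(102,138),(108,126),(129,136)]) (.cons 129 136 (.leaf [(5,210),(128,130),(102,138),(108,126)]) (.cons 138 136 (.leaf [(102,210),(5,128),(108,132),(126,129)]) (.cons 108 136 (.leaf [(5,128),(102,210),(132,138),(126,129)]) (.cons 5 136 (.leaf [(128,210),(102,138),(108,132),(126,129)]) (.cons 102 136 (.leaf [(138,210),(5,128),(108,132),(126,129)]) (.cons 126 130 (.leaf [(5,128),(102,138),(108,132),(129,136)]) (.cons 132 136 (.leaf [(5,128),(102,210),(108,138),(126,129)]) .nil))))))))))) (.cons 210 113 (.cons 128 5 (.cons 138 102 (.cons 129 130 (.leaf [(108,136),(126,132)]) (.cons 130 129 (.leaf [(112,136),(108,126)]) (.cons 136 129 (.leaf [(112,130),(108,126)]) (.cons 108 129 (.leaf [(126,132),(112,130)]) (.cons 126 129 (.leaf [(108,132),(112,130)]) (.cons 132 108 (.leaf [(112,130),(126,129)]) (.cons 112 130 (.leaf [(108,129),(126,132)]) .nil))))))) (.cons 129 130 (.leaf [(102,138),(108,136),(126,132)]) (.cons 130 129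 (.leaf [(102,138),(112,136),(108,126)]) (.cons 102 138 (.leaf [(108,136),(126,129),(112,130)]) (.cons 136 129 (.leaf [(102,138),(112,130),(108,126)]) (.cons 108 129 (.leaf [(102,138),(112,130),(126,132)]) (.cons 126 129 (.leaf [(102,138),(108,132),(112,130)]) (.cons 112 130 (.leaf [(102,138),(108,126),(129,136)]) (.cons 132 138 (.leaf [(108,136),(126,129),(112,130)]) .nil))))))))) (.cons 138 102 (.cons 128 5 (.cons 129 130 (.leaf [(108,136),(126,132)]) (.cons 130 129 (.leaf [(112,136),(108,126)]) (.cons 136 129 (.leaf [(112,130),(108,126)]) (.cons 108 129 (.leaf [(126,132),(112,130)]) (.cons 126 129 (.leaf [(108,132),(112,130)]) (.cons 132 108 (.leaf [(112,130),(126,129)]) (.cons 112 130 (.leaf [(108,129),(126,132)]) .nil))))))) (.cons 5 128 (.leaf [(108,129),(126,132),(112,130)]) (.cons 136 108 (.leaf [(5,128),(112,130),(126,129)]) (.cons 108 136 (.leaf [(5,128),(126,132),(129,130)]) (.cons 129 128 (.leaf [(108,136),(126,132),(112,130)]) (.cons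 130 128 (.leaf [(112,136),(108,129),(126,132)]) (.cons 126 128 (.leaf [(108,132),(129,136),(112,130)]) (.cons 132 108 (.leaf [(5,128),(112,130),(126,129)]) (.cons 112 136 (.leaf [(5,128),(108,132),(126,129)]) .nil))))))))) (.cons 5 128 (.leaf [(102,138),(108,126),(129,136),(112,130)]) (.cons 102 138 (.leaf [(5,128),(108,136),(126,129),(112,130)]) (.cons 136 128 (.leaf [(102,138),(108,129),(112,130),(126,132)]) (.cons 129 128 (.leaf [(102,138),(108,136),(112,130),(126,132)]) (.cons 130 128 (.leaf [(102,138),(112,136),(108,129),(126,132)]) (.cons 108 136 (.leaf [(5,128),(102,138),(126,132),(129,130)]) (.cons 112 136 (.leaf [(5,128),(102,138),(108,132),(126,129)]) (.cons 126 128 (.leaf [(102,138),(108,132),(129,136),(112,130)]) (.cons 132 138 (.leaf [(5,128),(108,136),(126,129),(112,130)]) .nil))))))))))) (.cons 129 108 (.cons 128 5 (.leaf [(113,138),(126,130),(102,210),(112,136)]) (.cons 5 113 (.leaf [(128,210),(102,138),(112,136),(126,130)]) (.cons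 113 5 (.leaf [(128,138),(102,210),(112,136),(126,130)]) (.cons 130 128 (.leaf [(5,113),(112,136),(102,138)]) (.cons 138 128 (.leaf [(5,113),(102,210),(112,130)]) (.cons 210 128 (.leaf [(5,113),(102,138),(112,130)]) (.cons 102 128 (.leaf [(5,113),(138,210),(112,130)]) (.cons 136 128 (.leaf [(5,113),(112,130),(102,138)]) (.cons 112 128 (.leaf [(5,113),(130,136),(102,138)]) (.cons 126 128 (.leaf [(5,113),(102,138),(112,130)]) .nil)))))))))) (.cons 130 113 (.cons 136 112 (.cons 129 108 (.leaf [(126,128),(5,210),(102,138)]) (.cons 108 129 (.leaf [(5,128),(102,138),(126,132)]) (.cons 128 129 (.leaf [(5,210),(102,138),(108,126)]) (.cons 210 128 (.leaf [(102,138),(108,129),(126,132)]) (.cons 138 129 (.leaf [(102,210),(5,128),(108,126)]) (.cons 126 129 (.leaf [(5,128),(102,138),(108,132)]) (.cons 5 128 (.leaf [(108,129),(102,138),(126,132)]) (.cons 102 129 (.leaf [(138,210),(5,128),(108,126)]) (.cons 132 129 (.leaf [(5,128),(102,138),(108,126)]) .nil)))))))))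 (.cons 128 129 (.leaf [(5,210),(112,136),(102,138),(108,126)]) (.cons 129 136 (.leaf [(126,128),(5,210),(102,138),(108,132)]) (.cons 112 136 (.leaf [(5,210),(128,129),(102,138),(108,126)]) (.cons 210 128 (.leaf [(102,138),(112,136),(108,129),(126,132)]) (.cons 138 136 (.leaf [(102,210),(5,128),(108,132),(126,129)]) (.cons 108 136 (.leaf [(5,210),(128,129),(102,138),(126,132)]) (.cons 126 128 (.leaf [(112,136),(102,210),(132,138),(108,129)]) (.cons 5 128 (.leaf [(112,136),(102,138),(108,129),(126,132)]) (.cons 102 136 (.leaf [(138,210),(5,128),(126,129),(108,132)]) (.cons 132 136 (.leaf [(5,128),(102,210),(108,138),(126,129)]) .nil))))))))))) (.cons 102 113 (.cons 210 138 (.leaf [(5,128),(108,136),(126,129),(112,130)]) (.cons 138 210 (.leaf [(108,132),(126,128),(129,136),(112,130)]) (.cons 136 210 (.leaf [(108,129),(112,130),(126,128),(132,138)]) (.cons 128 210 (.leaf [(108,136),(126,129),(112,130),(132,138)]) (.cons 129 136 (.leaf [(138,210),(5,128),(126,130),(108,132)])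 (.cons 130 136 (.leaf [(138,210),(5,128),(126,129),(108,132)]) (.cons 108 136 (.leaf [(138,210),(5,128),(126,132),(129,130)]) (.cons 5 210 (.leaf [(108,132),(129,136),(112,130),(126,128)]) (.cons 112 136 (.leaf [(138,210),(5,128),(108,132),(126,129)]) (.cons 126 138 (.leaf [(5,210),(128,129),(108,136),(112,130)]) (.cons 132 138 (.leaf [(5,210),(126,128),(108,129),(112,130)]) .nil))))))))))) (.cons 126 108 (.cons 128 5 (.leaf [(113,138),(129,130),(102,210),(112,136)]) (.cons 5 113 (.leaf [(128,210),(102,138),(112,136),(129,130)]) (.cons 113 5 (.leaf [(128,138),(102,210),(112,136),(129,130)]) (.cons 130 128 (.leaf [(5,113),(112,136),(102,138)]) (.cons 138 128 (.leaf [(5,113),(102,210),(112,130)]) (.cons 210 128 (.leaf [(5,113),(102,138),(112,130)]) (.cons 129 128 (.leaf [(5,113),(102,138),(112,130)]) (.cons 102 128 (.leaf [(5,113),(138,210),(112,130)]) (.cons 136 128 (.leaf [(5,113),(112,130),(102,138)]) (.cons 112 128 (.leaf [(5,113),(130,136),(102,138)])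 .nil)))))))))) (.cons 132 113 (.cons 136 108 (.leaf [(112,130),(5,210),(126,128),(102,138)]) (.cons 138 108 (.leaf [(102,210),(5,128),(112,130),(126,129)]) (.cons 108 136 (.leaf [(126,138),(5,128),(102,210),(129,130)]) (.cons 210 138 (.leaf [(5,128),(108,136),(126,129),(112,130)]) (.cons 128 129 (.leaf [(5,210),(102,138),(108,126),(112,130)]) (.cons 129 136 (.leaf [(5,128),(102,210),(108,138),(126,130)]) (.cons 130 136 (.leaf [(5,128),(102,210),(108,138),(126,129)]) (.cons 126 138 (.leaf [(5,210),(128,129),(108,136),(112,130)]) (.cons 5 210 (.leaf [(108,138),(126,128),(129,136),(112,130)]) (.cons 102 138 (.leaf [(5,210),(126,128),(108,129),(112,130)]) (.cons 112 136 (.leaf [(5,128),(102,210),(108,138),(126,129)]) .nil))))))))))) .nil)))))))))))))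

/-- The masks of block 13. -/
def m13 : List ℕ := [0x20000000000000000000000000020, 0x40000000000000000000100000000000000000000000000000020, 0x40000000000000000040000000040000000000000000000000000, 0x31000000000000000000000000000, 0x41040001000000000000000000000000000, 0x10200001000000000000000000000000000, 0x10400010000000000000000000000000000, 0x40100020000000000000000000000000000, 0x740000000000000000000000000000000]

/-- The strategy tree of block 14. -/
def t14 : Tr := (.cons 89 95 (.cons 131 173 (.cons 119 125 (.leaf [(155,191),(197,209)]) (.cons 125 119 (.leaf [(161,197),(191,209)]) (.cons 197 125 (.leaf [(191,209),(119,155)]) (.cons 191 119 (.leaf [(197,209),(125,161)]) (.cons 161 125 (.leaf [(119,155),(191,197)]) (.cons 209 197 (.leaf [(119,125),(155,191)]) (.cons 155 119 (.leaf [(125,161),(191,197)]) .nil))))))) (.cons 173 131 (.leaf [(119,155),(125,197),(161,167),(191,209)]) (.cons 197 131 (.leaf [(125,161),(191,209),(119,155),(167,173)])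 (.cons 119 131 (.leaf [(155,191),(125,161),(197,209),(167,173)]) (.cons 125 131 (.leaf [(161,197),(119,155),(191,209),(167,173)]) (.cons 191 131 (.leaf [(119,155),(197,209),(125,161),(167,173)]) (.cons 161 131 (.leaf [(125,197),(119,155),(191,209),(167,173)]) (.cons 155 131 (.leaf [(119,191),(125,161),(197,209),(167,173)]) (.cons 209 131 (.leaf [(191,197),(119,155),(125,161),(167,173)]) (.cons 167 131 (.leaf [(119,155),(125,197),(161,173),(191,209)]) .nil)))))))))) (.cons 95 89 (.cons 155 125 (.leaf [(119,191),(59,131),(161,167),(197,209)]) (.cons 125 155 (.leaf [(119,131),(59,167),(191,197)]) (.cons 131 125 (.leaf [(59,167),(119,191),(155,161),(197,209)]) (.cons 119 155 (.leaf [(125,131),(59,167),(191,197)]) (.cons 191 155 (.leaf [(197,209),(59,131),(119,125)]) (.cons 167 155 (.leaf [(59,131),(119,125),(191,197)]) (.cons 197 155 (.leaf [(191,209),(59,131),(119,125)]) (.cons 209 155 (.leaf [(191,197),(59,131),(119,125)]) (.cons 59 155 (.leaf [(131,167),(119,125),(191,197)])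 (.cons 161 155 (.leaf [(59,131),(119,125),(191,197)]) (.cons 173 155 (.leaf [(59,131),(119,125),(191,197)]) .nil))))))))))) (.cons 131 89 (.cons 119 125 (.leaf [(155,191),(59,95),(197,209),(161,167)]) (.cons 125 119 (.leaf [(95,155),(59,167),(191,197),(161,173)]) (.cons 155 119 (.leaf [(95,125),(59,167),(161,173),(191,197)]) (.cons 191 119 (.leaf [(197,209),(59,167),(95,125),(155,161)]) (.cons 95 125 (.leaf [(59,167),(119,191),(155,161),(197,209)]) (.cons 167 155 (.leaf [(59,95),(119,125),(191,197)]) (.cons 197 191 (.leaf [(119,125),(59,167),(95,155),(161,173)]) (.cons 209 191 (.leaf [(119,125),(59,167),(95,155),(161,173)]) (.cons 59 119 (.leaf [(95,167),(125,155),(191,197),(161,173)]) (.cons 161 155 (.leaf [(119,125),(59,95),(191,197)]) (.cons 173 155 (.leaf [(119,125),(59,95),(191,197)]) .nil))))))))))) (.cons 155 95 (.cons 119 191 (.cons 131 125 (.leaf [(89,173),(161,167)]) (.cons 125 131 (.leaf [(89,197),(161,167)]) (.cons 173 131 (.leaf [(161,167),(89,125)])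 (.cons 161 131 (.leaf [(167,173),(89,125)]) (.cons 89 131 (.leaf [(125,197),(161,167)]) (.cons 167 131 (.leaf [(161,173),(89,125)]) (.cons 197 131 (.leaf [(89,125),(161,167)]) .nil))))))) (.cons 191 119 (.leaf [(197,209),(89,125),(131,173),(161,167)]) (.cons 131 119 (.leaf [(89,173),(161,167),(191,209),(125,197)]) (.cons 173 131 (.leaf [(119,191),(161,167),(197,209),(89,125)]) (.cons 161 119 (.leaf [(167,173),(89,131),(125,197),(191,209)]) (.cons 197 119 (.leaf [(191,209),(89,125),(161,167),(131,173)]) (.cons 89 131 (.leaf [(119,191),(125,161),(197,209),(167,173)]) (.cons 125 119 (.leaf [(89,197),(131,173),(161,167),(191,209)]) (.cons 167 173 (.leaf [(119,191),(125,131),(197,209),(89,161)]) (.cons 209 191 (.leaf [(89,197),(131,173),(119,125),(161,167)]) .nil)))))))))) (.cons 125 95 (.cons 131 119 (.leaf [(89,173),(161,197),(191,209),(155,167)]) (.cons 119 131 (.leaf [(155,191),(89,161),(197,209),(167,173)]) (.cons 197 131 (.leaf [(89,161),(191,209),(119,155),(167,173)])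 (.cons 89 131 (.leaf [(161,197),(119,155),(191,209),(167,173)]) (.cons 191 119 (.leaf [(197,209),(89,161),(131,173),(155,167)]) (.cons 161 131 (.leaf [(89,197),(119,155),(191,209),(167,173)]) (.cons 173 131 (.leaf [(89,197),(161,167),(119,155),(191,209)]) (.cons 155 119 (.leaf [(89,197),(131,173),(161,167),(191,209)]) (.cons 209 131 (.leaf [(191,197),(89,161),(119,155),(167,173)]) (.cons 167 131 (.leaf [(89,197),(161,173),(119,155),(191,209)]) .nil)))))))))) (.cons 191 89 (.cons 155 119 (.leaf [(95,125),(197,209),(161,167),(59,131)]) (.cons 119 155 (.leaf [(125,131),(197,209),(59,95)]) (.cons 197 209 (.cons 155 119 (.leaf [(95,125),(161,167),(59,131)]) (.cons 119 155 (.leaf [(125,131),(59,95)]) (.cons 125 155 (.leaf [(119,131),(59,95)]) (.cons 131 119 (.leaf [(59,167),(95,125),(155,161)]) (.cons 95 155 (.leaf [(59,131),(119,125)]) (.cons 167 155 (.leaf [(59,95),(119,125)]) (.cons 161 155 (.leaf [(119,125),(59,95)]) (.cons 59 155 (.leaf [(95,131),(119,125)])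 (.cons 173 155 (.leaf [(119,125),(59,95)]) .nil))))))))) (.cons 209 197 (.cons 155 119 (.leaf [(95,125),(161,167),(59,131)]) (.cons 119 155 (.leaf [(125,131),(59,95)]) (.cons 125 155 (.leaf [(119,131),(59,95)]) (.cons 131 119 (.leaf [(59,167),(95,125),(155,161)]) (.cons 95 155 (.leaf [(59,131),(119,125)]) (.cons 167 155 (.leaf [(59,95),(119,125)]) (.cons 161 155 (.leaf [(119,125),(59,95)]) (.cons 59 155 (.leaf [(95,131),(119,125)]) (.cons 173 155 (.leaf [(119,125),(59,95)]) .nil))))))))) (.cons 125 155 (.leaf [(119,131),(197,209),(59,95)]) (.cons 131 119 (.leaf [(197,209),(59,167),(95,125),(155,161)]) (.cons 95 155 (.leaf [(197,209),(59,131),(119,125)]) (.cons 167 155 (.leaf [(197,209),(59,95),(119,125)]) (.cons 161 155 (.leaf [(197,209),(119,125),(59,95)]) (.cons 59 155 (.leaf [(197,209),(95,131),(119,125)]) (.cons 173 155 (.leaf [(197,209),(119,125),(59,95)]) .nil))))))))))) (.cons 119 125 (.cons 191 155 (.leaf [(89,95),(197,209),(131,173),(59,167)])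 (.cons 89 95 (.leaf [(131,173),(155,191),(197,209),(161,167)]) (.cons 155 191 (.cons 89 95 (.leaf [(131,173),(161,167)]) (.cons 95 89 (.leaf [(59,131),(161,167)]) (.cons 173 89 (.leaf [(161,167),(59,95)]) (.cons 131 89 (.leaf [(59,95),(161,167)]) (.cons 167 173 (.leaf [(89,95),(59,131)]) (.cons 161 173 (.leaf [(89,95),(59,131)]) (.cons 59 89 (.leaf [(95,131),(161,167)]) .nil))))))) (.cons 95 89 (.leaf [(155,191),(59,131),(197,209),(161,167)]) (.cons 131 89 (.leaf [(155,191),(59,95),(197,209),(161,167)]) (.cons 173 89 (.leaf [(155,191),(161,167),(197,209),(59,95)]) (.cons 197 191 (.leaf [(89,95),(131,173),(59,167),(155,161)]) (.cons 167 89 (.leaf [(155,191),(59,95),(161,173),(197,209)]) (.cons 209 191 (.leaf [(89,95),(131,173),(59,167),(155,161)]) (.cons 161 89 (.leaf [(155,191),(167,173),(197,209),(59,95)]) (.cons 59 89 (.leaf [(155,191),(95,131),(197,209),(161,167)]) .nil))))))))))) (.cons 197 89 (.cons 191 209 (.cons 155 119 (.leaf [(95,125),(161,167),(59,131)])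 (.cons 119 155 (.leaf [(125,131),(59,95)]) (.cons 125 155 (.leaf [(119,131),(59,95)]) (.cons 131 119 (.leaf [(59,167),(95,125),(155,161)]) (.cons 95 155 (.leaf [(59,131),(119,125)]) (.cons 167 155 (.leaf [(59,95),(119,125)]) (.cons 161 155 (.leaf [(119,125),(59,95)]) (.cons 59 155 (.leaf [(95,131),(119,125)]) (.cons 173 155 (.leaf [(119,125),(59,95)]) .nil))))))))) (.cons 155 191 (.leaf [(95,125),(119,131),(161,173),(59,167)]) (.cons 209 191 (.leaf [(95,125),(119,131),(155,161),(59,167)]) (.cons 119 191 (.leaf [(125,131),(95,155),(59,167),(161,173)]) (.cons 125 155 (.leaf [(119,131),(191,209),(59,95)]) (.cons 131 191 (.leaf [(119,125),(59,167),(95,155),(161,173)]) (.cons 95 155 (.leaf [(191,209),(59,131),(119,125)]) (.cons 167 191 (.leaf [(59,131),(95,155),(119,125),(161,173)]) (.cons 161 191 (.leaf [(59,95),(125,155),(119,131),(167,173)]) (.cons 59 191 (.leaf [(95,155),(119,125),(131,167),(161,173)]) (.cons 173 191 (.leaf [(59,95),(125,155),(119,131),(161,167)])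 .nil))))))))))) (.cons 173 131 (.cons 155 95 (.leaf [(119,191),(161,167),(197,209),(89,125)]) (.cons 95 89 (.leaf [(125,155),(119,191),(161,167),(197,209)]) (.cons 89 95 (.leaf [(119,155),(125,197),(161,167),(191,209)]) (.cons 191 155 (.leaf [(89,95),(197,209),(125,161)]) (.cons 161 155 (.leaf [(89,95),(125,197),(191,209)]) (.cons 197 89 (.leaf [(191,209),(95,125),(119,155),(161,167)]) (.cons 125 155 (.leaf [(89,95),(161,197),(191,209)]) (.cons 167 155 (.leaf [(89,95),(191,197),(125,161)]) (.cons 209 155 (.leaf [(89,95),(191,197),(125,161)]) (.cons 119 155 (.leaf [(89,95),(191,197),(125,161)]) .nil)))))))))) (.cons 161 95 (.cons 131 119 (.leaf [(89,173),(125,197),(155,167),(191,209)]) (.cons 197 89 (.leaf [(191,209),(119,155),(125,131),(167,173)]) (.cons 173 131 (.leaf [(155,167),(89,125),(119,191),(197,209)]) (.cons 119 131 (.leaf [(155,191),(89,125),(167,173),(197,209)]) (.cons 89 131 (.leaf [(125,197),(119,155),(191,209),(167,173)]) (.cons 155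 119 (.leaf [(167,173),(89,131),(125,197),(191,209)]) (.cons 125 131 (.leaf [(89,197),(119,155),(191,209),(167,173)]) (.cons 191 119 (.leaf [(197,209),(89,125),(131,173),(155,167)]) (.cons 167 173 (.leaf [(89,197),(125,131),(119,155),(191,209)]) (.cons 209 197 (.leaf [(89,173),(125,131),(119,191),(155,167)]) .nil)))))))))) (.cons 167 95 (.cons 131 173 (.leaf [(119,125),(155,191),(197,209),(89,161)]) (.cons 173 131 (.leaf [(155,161),(119,191),(197,209),(89,125)]) (.cons 119 131 (.leaf [(155,191),(161,173),(197,209),(89,125)]) (.cons 155 173 (.leaf [(119,191),(125,131),(197,209),(89,161)]) (.cons 191 119 (.leaf [(197,209),(89,125),(131,173),(155,161)]) (.cons 161 173 (.leaf [(89,197),(125,131),(119,155),(191,209)]) (.cons 197 161 (.leaf [(191,209),(89,173),(125,131),(119,155)]) (.cons 89 131 (.leaf [(119,155),(125,197),(161,173),(191,209)]) (.cons 125 131 (.leaf [(89,197),(161,173),(119,155),(191,209)]) (.cons 209 191 (.leaf [(89,197),(131,173),(119,125),(155,161)])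 .nil)))))))))) (.cons 209 95 (.cons 191 197 (.leaf [(119,155),(89,173),(125,131),(161,167)]) (.cons 197 191 (.leaf [(89,161),(119,125),(131,173),(155,167)]) (.cons 131 119 (.leaf [(89,173),(191,197),(125,161),(155,167)]) (.cons 119 191 (.leaf [(125,131),(89,173),(161,197),(155,167)]) (.cons 173 131 (.leaf [(191,197),(119,155),(161,167),(89,125)]) (.cons 89 131 (.leaf [(191,197),(119,155),(125,161),(167,173)]) (.cons 155 191 (.leaf [(89,197),(131,173),(119,125),(161,167)]) (.cons 125 131 (.leaf [(191,197),(89,161),(119,155),(167,173)]) (.cons 161 197 (.leaf [(89,173),(125,131),(119,191),(155,167)]) (.cons 167 191 (.leaf [(89,197),(131,173),(119,125),(155,161)]) .nil)))))))))) (.cons 59 95 (.cons 131 119 (.leaf [(89,173),(191,209),(125,197),(155,161)]) (.cons 119 131 (.leaf [(155,191),(197,209),(89,125),(161,167)]) (.cons 191 119 (.leaf [(197,209),(89,125),(131,173),(155,161)]) (.cons 197 191 (.leaf [(89,161),(119,125),(131,173),(155,167)]) (.cons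 173 131 (.leaf [(119,155),(191,197),(161,167),(89,125)]) (.cons 89 131 (.leaf [(119,191),(155,167),(125,161),(197,209)]) (.cons 155 119 (.leaf [(89,125),(131,173),(161,167),(191,197)]) (.cons 125 131 (.leaf [(89,161),(119,191),(155,167),(197,209)]) (.cons 161 131 (.leaf [(89,125),(119,155),(191,197),(167,173)]) (.cons 209 191 (.leaf [(89,197),(131,173),(119,125),(155,161)]) (.cons 167 131 (.leaf [(119,155),(191,197),(161,173),(89,125)]) .nil))))))))))) .nil)))))))))))))

/-- The masks of block 14. -/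
def m14 : List ℕ := [0x20000000000800000000020000000000000000000000, 0x800000000800000000800000000000000000000000000000, 0x20000000020000000020000000020000000000000000000000, 0x800000000800000000800000000800000000000000, 0x800000020000000800000000000000000000000, 0x820000000000000000000000, 0x820800000000000000000000000000000, 0x20820800000000000000000000000000000000000000, 0x20020800000000000000000000000000000000000000000000000]

/-- The strategy tree of block 15. -/
def t15 : Tr := (.cons 66 41 (.cons 70 71 (.leaf [(36,42),(40,64),(37,49),(43,47)]) (.cons 42 36 (.leaf [(43,47),(70,71),(37,49),(40,64)]) (.cons 36 42 (.cons 70 71 (.leaf [(40,64),(37,43)]) (.cons 71 70 (.leaf [(43,64),(37,49)]) (.cons 64 70 (.leaf [(43,71),(37,49)]) (.cons 43 71 (.leaf [(37,49),(40,64)]) (.cons 37 70 (.leaf [(43,49),(64,71)]) (.cons 40 70 (.leaf [(37,49),(43,64)]) (.cons 49 70 (.leaf [(37,43),(64,71)]) .nil))))))) (.cons 71 70 (.cons 36 42 (.leaf [(43,64),(37,49)])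 (.cons 42 36 (.leaf [(43,47),(37,49)]) (.cons 43 36 (.leaf [(37,49),(42,47)]) (.cons 64 36 (.leaf [(37,49),(42,43)]) (.cons 37 43 (.leaf [(36,42)]) (.cons 47 42 (.leaf [(36,64),(37,43)]) (.cons 49 43 (.leaf [(36,42)]) .nil))))))) (.cons 43 36 (.leaf [(37,49),(42,47),(70,71),(40,64)]) (.cons 64 71 (.leaf [(36,42),(40,70),(37,49),(43,47)]) (.cons 37 43 (.leaf [(36,42),(70,71),(40,64)]) (.cons 40 70 (.leaf [(36,42),(37,49),(43,47),(64,71)]) (.cons 47 42 (.leaf [(70,71),(37,49),(36,43),(40,64)]) (.cons 49 43 (.leaf [(36,42),(70,71),(40,64)]) .nil)))))))))) (.cons 41 66 (.cons 47 71 (.leaf [(42,43),(36,40),(37,49),(64,70)]) (.cons 71 47 (.cons 64 36 (.leaf [(40,70),(37,43)]) (.cons 36 64 (.leaf [(37,40),(43,49)]) (.cons 37 36 (.leaf [(43,49),(40,64)]) (.cons 40 64 (.leaf [(36,37),(43,49)]) (.cons 43 64 (.leaf [(37,49),(36,40)]) (.cons 70 64 (.leaf [(36,40),(37,43)]) (.cons 49 37 (.leaf [(36,43),(40,64)]) .nil))))))) (.cons 43 71 (.leaf [(37,49),(42,47),(36,40),(64,70)])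 (.cons 37 43 (.leaf [(36,40),(47,71),(64,70)]) (.cons 40 36 (.leaf [(47,71),(64,70),(37,49),(42,43)]) (.cons 64 71 (.leaf [(40,70),(36,37),(43,49),(42,47)]) (.cons 36 71 (.leaf [(37,40),(43,49),(64,70),(42,47)]) (.cons 70 40 (.leaf [(47,71),(37,49),(42,43),(36,64)]) (.cons 42 47 (.leaf [(36,71),(37,40),(43,49),(64,70)]) (.cons 49 43 (.leaf [(47,71),(36,37),(40,64)]) .nil)))))))))) (.cons 71 66 (.cons 43 41 (.leaf [(36,64),(37,49),(42,47),(40,70)]) (.cons 47 41 (.leaf [(42,43),(36,64),(37,49),(40,70)]) (.cons 41 47 (.cons 64 36 (.leaf [(40,70),(37,43)]) (.cons 36 64 (.leaf [(37,40),(43,49)]) (.cons 37 36 (.leaf [(43,49),(40,64)]) (.cons 40 64 (.leaf [(36,37),(43,49)]) (.cons 43 64 (.leaf [(37,49),(36,40)]) (.cons 70 64 (.leaf [(36,40),(37,43)]) (.cons 49 37 (.leaf [(36,43),(40,64)]) .nil))))))) (.cons 64 43 (.leaf [(40,70),(41,47),(36,37)]) (.cons 36 43 (.leaf [(41,47),(37,40),(64,70)]) (.cons 37 43 (.leaf [(41,47),(36,40),(64,70)]) (.cons 40 41 (.leaf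 [(64,70),(36,43),(37,49),(42,47)]) (.cons 70 64 (.leaf [(41,47),(37,49),(42,43),(36,40)]) (.cons 42 43 (.leaf [(41,47),(40,64),(36,37)]) (.cons 49 43 (.leaf [(41,47),(40,64),(36,37)]) .nil)))))))))) (.cons 43 66 (.cons 47 42 (.cons 71 41 (.leaf [(36,64),(37,49),(40,70)]) (.cons 37 49 (.cons 71 41 (.leaf [(36,64),(40,70)]) (.cons 41 71 (.leaf [(36,40),(64,70)]) (.cons 64 71 (.leaf [(40,70),(36,41)]) (.cons 36 71 (.leaf [(40,41),(64,70)]) (.cons 40 41 (.leaf [(64,70),(36,71)]) (.cons 70 64 (.leaf [(41,71),(36,40)]) .nil)))))) (.cons 41 71 (.leaf [(37,49),(36,40),(64,70)]) (.cons 64 71 (.leaf [(37,49),(40,70),(36,41)]) (.cons 49 37 (.leaf [(41,71),(36,64),(40,70)]) (.cons 36 71 (.leaf [(37,49),(40,41),(64,70)]) (.cons 40 71 (.leaf [(37,49),(64,70),(36,41)]) (.cons 70 64 (.leaf [(37,49),(41,71),(36,40)]) .nil)))))))) (.cons 37 49 (.cons 47 42 (.cons 71 41 (.leaf [(36,64),(40,70)]) (.cons 41 71 (.leaf [(36,40),(64,70)]) (.cons 64 71 (.leaf [(40,70),(36,41)])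 (.cons 36 71 (.leaf [(40,41),(64,70)]) (.cons 40 41 (.leaf [(64,70),(36,71)]) (.cons 70 64 (.leaf [(41,71),(36,40)]) .nil)))))) (.cons 64 36 (.leaf [(40,70),(42,47),(41,71)]) (.cons 36 71 (.leaf [(40,41),(42,47),(64,70)]) (.cons 71 41 (.leaf [(36,64),(42,47),(40,70)]) (.cons 40 36 (.leaf [(42,47),(64,70),(41,71)]) (.cons 41 71 (.leaf [(36,40),(42,47),(64,70)]) (.cons 42 47 (.leaf [(36,41),(40,70),(64,71)]) (.cons 70 64 (.leaf [(42,47),(36,40),(41,71)]) .nil)))))))) (.cons 64 71 (.leaf [(37,49),(40,70),(42,47),(36,41)]) (.cons 71 41 (.leaf [(36,64),(37,49),(42,47),(40,70)]) (.cons 42 47 (.leaf [(37,49),(36,41),(64,71),(40,70)]) (.cons 49 37 (.leaf [(42,47),(36,64),(40,70),(41,71)]) (.cons 36 71 (.leaf [(37,49),(42,47),(40,41),(64,70)]) (.cons 40 36 (.leaf [(37,49),(42,47),(64,70),(41,71)]) (.cons 41 71 (.leaf [(37,49),(42,47),(36,40),(64,70)]) (.cons 70 64 (.leaf [(37,49),(42,47),(41,71),(36,40)]) .nil)))))))))) (.cons 36 66 (.cons 43 71 (.leaf [(37,49),(42,47),(40,41),(64,70)])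 (.cons 64 43 (.leaf [(40,70),(37,41),(47,71)]) (.cons 37 43 (.leaf [(40,41),(64,70),(47,71)]) (.cons 71 43 (.leaf [(41,47),(37,40),(64,70)]) (.cons 40 41 (.leaf [(64,70),(37,49),(43,71),(42,47)]) (.cons 41 71 (.leaf [(37,40),(43,49),(64,70),(42,47)]) (.cons 47 43 (.leaf [(41,71),(37,40),(64,70)]) (.cons 70 64 (.leaf [(37,49),(40,41),(42,43),(47,71)]) (.cons 42 43 (.leaf [(37,40),(41,47),(64,70)]) (.cons 49 43 (.leaf [(37,40),(41,47),(64,70)]) .nil)))))))))) (.cons 70 66 (.cons 64 40 (.leaf [(36,71),(42,43),(37,49),(41,47)]) (.cons 40 64 (.leaf [(36,41),(37,49),(42,43),(47,71)]) (.cons 43 64 (.leaf [(37,49),(42,47),(41,71),(36,40)]) (.cons 47 43 (.leaf [(40,64),(41,71),(36,37)]) (.cons 37 43 (.leaf [(40,64),(36,41),(47,71)]) (.cons 71 64 (.leaf [(41,47),(37,49),(42,43),(36,40)]) (.cons 41 40 (.leaf [(47,71),(37,49),(42,43),(36,64)]) (.cons 36 64 (.leaf [(37,49),(40,41),(42,43),(47,71)]) (.cons 42 43 (.leaf [(40,64),(41,47),(36,37)]) (.cons 49 43 (.leaf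 [(40,64),(41,47),(36,37)]) .nil)))))))))) (.cons 42 66 (.cons 43 47 (.leaf [(37,49),(36,41),(64,71),(40,70)]) (.cons 47 43 (.leaf [(41,71),(40,64),(36,37)]) (.cons 64 43 (.leaf [(40,70),(41,47),(36,37)]) (.cons 37 43 (.leaf [(36,40),(41,47),(64,70)]) (.cons 71 43 (.leaf [(41,47),(40,64),(36,37)]) (.cons 40 43 (.leaf [(64,70),(36,37),(41,47)]) (.cons 41 47 (.leaf [(36,71),(37,40),(43,49),(64,70)]) (.cons 36 43 (.leaf [(37,40),(41,47),(64,70)]) (.cons 70 43 (.leaf [(40,64),(41,47),(36,37)]) (.cons 49 43 (.leaf [(40,64),(41,47),(36,37)]) .nil)))))))))) (.cons 47 41 (.cons 43 42 (.leaf [(37,49),(36,71),(40,64),(66,70)]) (.cons 42 43 (.leaf [(36,66),(40,64),(70,71)]) (.cons 66 42 (.leaf [(70,71),(37,49),(36,43),(40,64)]) (.cons 70 43 (.leaf [(40,64),(66,71),(36,42)]) (.cons 64 43 (.leaf [(40,70),(36,42),(66,71)]) (.cons 36 42 (.leaf [(37,49),(43,71),(40,64),(66,70)]) (.cons 71 43 (.leaf [(66,70),(36,42),(40,64)]) (.cons 37 43 (.leaf [(36,42),(40,64),(66,70)])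 (.cons 40 43 (.leaf [(64,70),(36,42),(66,71)]) (.cons 49 43 (.leaf [(36,42),(40,64),(66,70)]) .nil)))))))))) (.cons 64 66 (.cons 43 71 (.leaf [(37,49),(40,70),(42,47),(36,41)]) (.cons 40 70 (.cons 43 36 (.leaf [(37,49),(42,47),(41,71)]) (.cons 36 43 (.leaf [(37,41),(47,71)]) (.cons 37 43 (.leaf [(36,41),(47,71)]) (.cons 71 43 (.leaf [(41,47),(36,37)]) (.cons 41 36 (.leaf [(47,71),(37,49),(42,43)]) (.cons 47 43 (.leaf [(41,71),(36,37)]) (.cons 42 43 (.leaf [(36,37),(41,47)]) (.cons 49 43 (.leaf [(36,37),(41,47)]) .nil)))))))) (.cons 70 40 (.leaf [(36,71),(42,43),(37,49),(41,47)]) (.cons 71 43 (.leaf [(40,70),(41,47),(36,37)]) (.cons 47 43 (.leaf [(40,70),(41,71),(36,37)]) (.cons 36 43 (.leaf [(40,70),(37,41),(47,71)]) (.cons 37 43 (.leaf [(40,70),(36,41),(47,71)]) (.cons 41 71 (.leaf [(40,70),(36,37),(43,49),(42,47)]) (.cons 42 43 (.leaf [(40,70),(41,47),(36,37)]) (.cons 49 43 (.leaf [(40,70),(41,47),(36,37)]) .nil)))))))))) (.cons 37 43 (.cons 66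 41 (.leaf [(36,42),(70,71),(40,64)]) (.cons 41 66 (.leaf [(36,40),(47,71),(64,70)]) (.cons 36 66 (.leaf [(40,41),(64,70),(47,71)]) (.cons 70 66 (.leaf [(40,64),(36,41),(47,71)]) (.cons 71 66 (.leaf [(41,47),(36,40),(64,70)]) (.cons 40 41 (.leaf [(64,70),(36,42),(66,71)]) (.cons 64 66 (.leaf [(40,70),(36,41),(47,71)]) (.cons 42 66 (.leaf [(36,40),(41,47),(64,70)]) (.cons 47 41 (.leaf [(36,42),(40,64),(66,70)]) .nil))))))))) (.cons 40 41 (.cons 70 64 (.leaf [(66,71),(36,42),(37,49),(43,47)]) (.cons 64 70 (.leaf [(36,66),(42,47),(43,71),(37,49)]) (.cons 43 64 (.leaf [(37,49),(42,47),(36,66),(70,71)]) (.cons 66 70 (.leaf [(36,42),(37,49),(43,47),(64,71)]) (.cons 42 66 (.leaf [(43,47),(64,70),(37,49),(36,71)]) (.cons 36 64 (.leaf [(42,66),(37,49),(43,47),(70,71)]) (.cons 71 70 (.leaf [(36,66),(42,47),(43,64),(37,49)]) (.cons 37 43 (.leaf [(64,70),(36,42),(66,71)]) (.cons 47 43 (.leaf [(64,70),(36,42),(66,71)]) (.cons 49 43 (.leaf [(64,70),(36,42),(66,71)])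 .nil)))))))))) (.cons 49 66 (.cons 43 37 (.leaf [(42,47),(36,64),(40,70),(41,71)]) (.cons 37 43 (.leaf [(36,40),(41,47),(64,70)]) (.cons 47 43 (.leaf [(41,71),(40,64),(36,37)]) (.cons 64 43 (.leaf [(40,70),(41,47),(36,37)]) (.cons 71 43 (.leaf [(41,47),(40,64),(36,37)]) (.cons 40 43 (.leaf [(64,70),(36,37),(41,47)]) (.cons 41 43 (.leaf [(47,71),(36,37),(40,64)]) (.cons 36 43 (.leaf [(37,40),(41,47),(64,70)]) (.cons 70 43 (.leaf [(40,64),(41,47),(36,37)]) (.cons 42 43 (.leaf [(40,64),(41,47),(36,37)]) .nil)))))))))) .nil))))))))))))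

/-- The masks of block 15. -/
def m15 : List ℕ := [0x33000000000, 0x40000041000000000, 0x810000081000000000, 0x2082000000000, 0x410000010000000000, 0x40000020000000000, 0x800000820000000000, 0x8c0000000000, 0xc40000000000000000]

/-- The strategy tree of block 16. -/
def t16 : Tr := (.cons 123 160 (.leaf [(51,159),(111,135),(120,124),(48,156),(52,53)]) (.cons 160 123 (.leaf [(52,124),(156,159),(48,120),(51,53)]) (.cons 124 123 (.leaf [(52,160),(48,120),(156,159),(51,53)]) (.cons 120 123 (.leaf [(48,156),(52,124),(159,160),(51,53)]) (.cons 156 160 (.leaf [(48,120),(51,159),(123,124),(111,135),(52,53)]) (.cons 159 123 (.leaf [(156,160),(48,120),(52,124),(51,53)]) (.cons 48 123 (.leaf [(120,156),(51,53),(52,124),(159,160)]) (.cons 51 123 (.leaf [(48,120),(52,53),(156,159),(124,160)]) (.cons 52 160 (.leaf [(48,156),(51,53),(120,124),(123,159),(111,135)]) (.cons 135 123 (.leaf [(48,51),(120,156),(52,124),(159,160)]) (.cons 111 123 (.leaf [(48,51),(120,156),(52,124),(159,160)])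 (.cons 53 123 (.leaf [(48,120),(51,52),(156,159),(124,160)]) .nil))))))))))))

/-- The masks of block 16. -/
def m16 : List ℕ := [0x1000000001000000000000000001000000000000, 0x10000000008000000000000000000000000000000, 0x8000000008000000000000000008000000000000, 0x10000000010000000000000000010000000000000, 0x39000000000000, 0x8008008000000000000000000000000000, 0x19000000000000000000000000000000, 0x19000000000000000000000000000000000000000]

/-- The strategy tree of block 17. -/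
def t17 : Tr := (.cons 32 212 (.cons 2 14 (.cons 38 74 (.leaf [(50,62),(92,152),(146,158)]) (.cons 74 38 (.leaf [(86,92),(62,152),(146,158)]) (.cons 146 38 (.leaf [(152,158),(62,92),(74,86)]) (.cons 152 146 (.leaf [(62,92),(38,50),(74,86)]) (.cons 92 74 (.leaf [(62,152),(38,50),(146,158)]) (.cons 62 38 (.leaf [(92,152),(74,86),(146,158)]) (.cons 50 38 (.leaf [(62,92),(74,86),(146,152)]) (.cons 86 74 (.leaf [(38,50),(62,92),(146,152)]) (.cons 158 146 (.leaf [(38,50),(62,92),(74,86)]) .nil))))))))) (.cons 14 2 (.cons 50 86 (.leaf [(38,62),(92,152),(146,158)]) (.cons 86 50 (.leaf [(74,92),(62,152),(146,158)]) (.cons 152 158 (.leaf [(62,92),(38,50),(74,86)]) (.cons 62 50 (.leaf [(92,152),(74,86),(146,158)]) (.cons 92 86 (.leaf [(62,152),(38,50),(146,158)]) (.cons 158 50 (.leaf [(146,152),(62,92),(74,86)]) (.cons 38 50 (.leaf [(62,92),(74,86),(146,152)]) (.cons 74 86 (.leaf [(38,50),(62,92),(146,152)]) (.cons 146 152 (.leaf [(38,62),(50,158),(74,86)])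 .nil))))))))) (.cons 152 62 (.cons 2 14 (.leaf [(146,158),(38,74),(86,92)]) (.cons 14 2 (.leaf [(146,158),(50,86),(74,92)]) (.cons 146 158 (.leaf [(2,14),(38,74),(86,92)]) (.cons 158 146 (.leaf [(2,14),(50,86),(74,92)]) (.cons 74 2 (.leaf [(86,92),(146,158),(14,50)]) (.cons 86 14 (.leaf [(74,92),(146,158),(2,38)]) (.cons 92 2 (.leaf [(74,86),(146,158),(14,50)]) (.cons 38 2 (.leaf [(146,158),(74,86),(14,50)]) (.cons 50 14 (.leaf [(146,158),(74,86),(2,38)]) .nil))))))))) (.cons 92 152 (.cons 2 14 (.leaf [(74,86),(38,146),(50,62)]) (.cons 74 86 (.leaf [(2,14),(38,146),(50,62)]) (.cons 14 2 (.leaf [(74,86),(38,62),(50,158)]) (.cons 86 74 (.leaf [(2,14),(50,158),(38,62)]) (.cons 38 2 (.leaf [(50,62),(74,86),(14,158)]) (.cons 50 14 (.leaf [(38,62),(74,86),(2,146)]) (.cons 62 2 (.leaf [(38,50),(74,86),(14,158)]) (.cons 146 2 (.leaf [(74,86),(38,62),(14,50)]) (.cons 158 14 (.leaf [(74,86),(2,38),(50,62)]) .nil))))))))) (.cons 62 152 (.cons 2 14 (.leaf [(38,50),(74,146),(86,92)])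 (.cons 38 50 (.leaf [(2,14),(74,146),(86,92)]) (.cons 14 2 (.leaf [(38,50),(86,158),(74,92)]) (.cons 50 38 (.leaf [(2,14),(86,158),(74,92)]) (.cons 74 2 (.leaf [(38,50),(86,92),(14,158)]) (.cons 86 14 (.leaf [(38,50),(74,92),(2,146)]) (.cons 92 2 (.leaf [(38,50),(74,86),(14,158)]) (.cons 146 2 (.leaf [(38,50),(74,92),(14,86)]) (.cons 158 14 (.leaf [(38,50),(2,74),(86,92)]) .nil))))))))) (.cons 38 2 (.cons 62 50 (.leaf [(92,152),(74,86),(146,158)]) (.cons 50 62 (.leaf [(14,158),(74,86),(146,152)]) (.cons 152 62 (.leaf [(146,158),(74,86),(14,50)]) (.cons 92 62 (.leaf [(74,86),(146,152),(14,50)]) (.cons 86 50 (.leaf [(74,92),(62,152),(146,158)]) (.cons 158 50 (.leaf [(146,152),(62,92),(74,86)]) (.cons 74 62 (.leaf [(86,92),(146,152),(14,50)]) (.cons 146 152 (.leaf [(50,62),(74,92),(14,86)]) (.cons 14 50 (.leaf [(62,92),(74,86),(146,152)]) .nil))))))))) (.cons 74 2 (.cons 92 86 (.leaf [(62,152),(38,50),(146,158)]) (.cons 86 92 (.leaf [(14,158),(38,50),(146,152)])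 (.cons 152 92 (.leaf [(146,158),(38,62),(14,50)]) (.cons 62 92 (.leaf [(38,50),(146,152),(14,86)]) (.cons 50 86 (.leaf [(38,62),(92,152),(146,158)]) (.cons 158 86 (.leaf [(146,152),(38,50),(62,92)]) (.cons 38 62 (.leaf [(86,92),(146,152),(14,50)]) (.cons 146 152 (.leaf [(86,92),(38,62),(14,50)]) (.cons 14 86 (.leaf [(38,50),(62,92),(146,152)]) .nil))))))))) (.cons 50 14 (.cons 62 38 (.leaf [(92,152),(74,86),(146,158)]) (.cons 38 62 (.leaf [(2,74),(146,152),(86,92)]) (.cons 152 62 (.leaf [(146,158),(74,86),(2,38)]) (.cons 92 62 (.leaf [(74,86),(146,152),(2,38)]) (.cons 74 38 (.leaf [(86,92),(62,152),(146,158)]) (.cons 146 38 (.leaf [(152,158),(62,92),(74,86)]) (.cons 86 62 (.leaf [(74,92),(146,152),(2,38)]) (.cons 158 152 (.leaf [(38,62),(2,74),(86,92)]) (.cons 2 38 (.leaf [(62,92),(74,86),(146,152)]) .nil))))))))) (.cons 146 2 (.cons 152 158 (.leaf [(62,92),(38,50),(74,86)]) (.cons 158 152 (.leaf [(14,50),(38,62),(74,86)]) (.cons 92 152 (.leaf [(74,86),(38,62),(14,50)])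 (.cons 62 152 (.leaf [(38,50),(74,92),(14,86)]) (.cons 50 152 (.leaf [(38,62),(14,158),(74,86)]) (.cons 86 152 (.leaf [(74,92),(14,158),(38,50)]) (.cons 38 152 (.leaf [(50,62),(74,92),(14,86)]) (.cons 74 152 (.leaf [(86,92),(38,62),(14,50)]) (.cons 14 152 (.leaf [(38,62),(50,158),(74,86)]) .nil))))))))) (.cons 86 14 (.cons 92 74 (.leaf [(62,152),(38,50),(146,158)]) (.cons 74 92 (.leaf [(2,38),(146,152),(50,62)]) (.cons 152 92 (.leaf [(146,158),(2,38),(50,62)]) (.cons 62 92 (.leaf [(38,50),(146,152),(2,74)]) (.cons 38 74 (.leaf [(50,62),(92,152),(146,158)]) (.cons 146 74 (.leaf [(152,158),(38,50),(62,92)]) (.cons 50 62 (.leaf [(74,92),(146,152),(2,38)]) (.cons 158 152 (.leaf [(74,92),(2,38),(50,62)]) (.cons 2 74 (.leaf [(38,50),(62,92),(146,152)]) .nil))))))))) (.cons 158 14 (.cons 152 146 (.leaf [(62,92),(38,50),(74,86)]) (.cons 146 152 (.leaf [(2,38),(74,86),(50,62)]) (.cons 92 152 (.leaf [(74,86),(2,38),(50,62)]) (.cons 62 152 (.leaf [(38,50),(2,74),(86,92)])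 (.cons 38 146 (.leaf [(50,62),(92,152),(74,86)]) (.cons 74 146 (.leaf [(86,92),(38,50),(62,152)]) (.cons 50 152 (.leaf [(38,62),(2,74),(86,92)]) (.cons 86 152 (.leaf [(74,92),(2,38),(50,62)]) (.cons 2 146 (.leaf [(38,50),(62,92),(74,86)]) .nil))))))))) .nil))))))))))) (.cons 212 32 (.cons 86 2 (.leaf [(74,92),(14,158),(38,50),(146,152)]) (.cons 2 86 (.leaf [(38,74),(50,62),(146,152)]) (.cons 38 86 (.leaf [(50,62),(2,74),(146,152)]) (.cons 74 86 (.leaf [(2,38),(146,152),(50,62)]) (.cons 50 86 (.leaf [(38,62),(146,152),(2,74)]) (.cons 146 86 (.leaf [(152,158),(2,74),(38,50)]) (.cons 158 86 (.leaf [(146,152),(2,38),(50,62)]) (.cons 152 86 (.leaf [(146,158),(2,38),(50,62)]) (.cons 92 86 (.leaf [(2,38),(50,62),(146,152)]) (.cons 62 86 (.leaf [(38,50),(146,152),(2,74)]) (.cons 14 86 (.leaf [(2,38),(50,62),(146,152)]) .nil))))))))))) (.cons 2 32 (.cons 86 212 (.cons 74 92 (.cons 38 146 (.leaf [(50,62),(14,158)]) (.cons 146 38 (.leaf [(152,158),(14,50)])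 (.cons 50 38 (.leaf [(14,158),(146,152)]) (.cons 158 146 (.leaf [(14,50),(38,62)]) (.cons 14 146 (.leaf [(50,158),(38,62)]) (.cons 152 146 (.leaf [(14,158),(38,50)]) (.cons 62 38 (.leaf [(14,50),(146,152)]) .nil))))))) (.cons 38 74 (.leaf [(50,62),(14,158),(146,152)]) (.cons 50 38 (.leaf [(14,158),(74,92),(146,152)]) (.cons 146 74 (.leaf [(152,158),(14,50),(38,62)]) (.cons 158 74 (.leaf [(14,50),(146,152),(38,62)]) (.cons 92 74 (.leaf [(14,158),(38,50),(146,152)]) (.cons 14 74 (.leaf [(50,158),(38,62),(146,152)]) (.cons 152 74 (.leaf [(146,158),(14,50),(38,62)]) (.cons 62 38 (.leaf [(74,92),(14,50),(146,152)]) .nil))))))))) (.cons 38 86 (.leaf [(50,62),(74,146),(152,158)]) (.cons 74 86 (.leaf [(38,146),(50,62),(152,158)]) (.cons 146 86 (.leaf [(38,74),(152,158),(50,62)]) (.cons 212 86 (.leaf [(38,74),(50,62),(146,152)]) (.cons 50 86 (.leaf [(38,62),(74,146),(152,158)]) (.cons 158 86 (.leaf [(146,152),(38,74),(50,62)]) (.cons 152 86 (.leaf [(146,158),(38,74),(50,62)])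 (.cons 92 86 (.leaf [(38,74),(50,62),(146,152)]) (.cons 62 86 (.leaf [(38,50),(74,146),(152,158)]) (.cons 14 86 (.leaf [(38,74),(50,62),(146,152)]) .nil))))))))))) (.cons 86 32 (.cons 2 212 (.cons 74 92 (.cons 38 146 (.leaf [(50,62),(14,158)]) (.cons 146 38 (.leaf [(152,158),(14,50)]) (.cons 50 38 (.leaf [(14,158),(146,152)]) (.cons 158 146 (.leaf [(14,50),(38,62)]) (.cons 14 146 (.leaf [(50,158),(38,62)]) (.cons 152 146 (.leaf [(14,158),(38,50)]) (.cons 62 38 (.leaf [(14,50),(146,152)]) .nil))))))) (.cons 38 74 (.leaf [(50,62),(14,158),(146,152)]) (.cons 50 38 (.leaf [(14,158),(74,92),(146,152)]) (.cons 146 74 (.leaf [(152,158),(14,50),(38,62)]) (.cons 158 74 (.leaf [(14,50),(146,152),(38,62)]) (.cons 92 74 (.leaf [(14,158),(38,50),(146,152)]) (.cons 14 74 (.leaf [(50,158),(38,62),(146,152)]) (.cons 152 74 (.leaf [(146,158),(14,50),(38,62)]) (.cons 62 38 (.leaf [(74,92),(14,50),(146,152)]) .nil))))))))) (.cons 74 92 (.cons 2 212 (.cons 38 146 (.leaf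 [(50,62),(14,158)]) (.cons 146 38 (.leaf [(152,158),(14,50)]) (.cons 50 38 (.leaf [(14,158),(146,152)]) (.cons 158 146 (.leaf [(14,50),(38,62)]) (.cons 14 146 (.leaf [(50,158),(38,62)]) (.cons 152 146 (.leaf [(14,158),(38,50)]) (.cons 62 38 (.leaf [(14,50),(146,152)]) .nil))))))) (.cons 38 2 (.leaf [(50,62),(14,158),(146,152)]) (.cons 146 2 (.leaf [(152,158),(14,50),(38,62)]) (.cons 50 2 (.leaf [(14,158),(38,62),(146,152)]) (.cons 212 2 (.leaf [(14,158),(38,50),(146,152)]) (.cons 158 2 (.leaf [(14,50),(146,152),(38,62)]) (.cons 14 2 (.leaf [(50,158),(38,62),(146,152)]) (.cons 62 2 (.leaf [(38,50),(14,158),(146,152)]) (.cons 152 2 (.leaf [(146,158),(14,50),(38,62)]) .nil))))))))) (.cons 50 2 (.leaf [(14,158),(38,62),(74,92),(146,152)]) (.cons 212 2 (.leaf [(74,92),(14,158),(38,50),(146,152)]) (.cons 92 74 (.leaf [(2,212),(14,158),(38,50),(146,152)]) (.cons 158 2 (.leaf [(14,50),(74,92),(146,152),(38,62)]) (.cons 38 2 (.leaf [(50,62),(74,92),(14,158),(146,152)])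 (.cons 146 2 (.leaf [(74,92),(152,158),(14,50),(38,62)]) (.cons 14 50 (.leaf [(2,212),(74,92),(38,146),(152,158)]) (.cons 62 50 (.leaf [(2,212),(74,92),(38,146),(152,158)]) (.cons 152 158 (.leaf [(2,212),(74,92),(38,146),(50,62)]) .nil))))))))))) (.cons 38 32 (.cons 50 62 (.cons 86 2 (.leaf [(14,158),(74,92),(146,152)]) (.cons 2 86 (.leaf [(74,146),(152,158)]) (.cons 74 86 (.leaf [(2,146),(152,158)]) (.cons 146 2 (.leaf [(152,158),(14,86),(74,92)]) (.cons 158 86 (.leaf [(146,152),(2,74)]) (.cons 14 86 (.leaf [(2,74),(146,152)]) (.cons 212 86 (.leaf [(2,74),(146,152)]) (.cons 152 146 (.leaf [(2,212),(74,86),(14,158)]) (.cons 92 86 (.leaf [(2,74),(146,152)]) .nil))))))))) (.cons 86 2 (.leaf [(50,62),(74,92),(14,158),(146,152)]) (.cons 2 86 (.leaf [(50,62),(74,146),(152,158)]) (.cons 74 86 (.leaf [(2,146),(50,62),(152,158)]) (.cons 146 2 (.leaf [(50,62),(152,158),(74,92),(14,86)]) (.cons 62 50 (.leaf [(2,146),(74,92),(86,212),(152,158)]) (.cons 158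 146 (.leaf [(50,62),(2,212),(14,86),(74,92)]) (.cons 212 86 (.leaf [(50,62),(2,74),(146,152)]) (.cons 152 146 (.leaf [(50,62),(2,212),(14,86),(74,92)]) (.cons 92 86 (.leaf [(50,62),(2,74),(146,152)]) (.cons 14 50 (.leaf [(2,146),(74,92),(86,212),(152,158)]) .nil))))))))))) (.cons 74 2 (.cons 32 212 (.cons 92 86 (.leaf [(62,152),(38,50),(146,158)]) (.cons 86 92 (.leaf [(14,158),(38,50),(146,152)]) (.cons 152 92 (.leaf [(146,158),(38,62),(14,50)]) (.cons 62 92 (.leaf [(38,50),(146,152),(14,86)]) (.cons 50 86 (.leaf [(38,62),(92,152),(146,158)]) (.cons 158 86 (.leaf [(146,152),(38,50),(62,92)]) (.cons 38 62 (.leaf [(86,92),(146,152),(14,50)]) (.cons 146 152 (.leaf [(86,92),(38,62),(14,50)]) (.cons 14 86 (.leaf [(38,50),(62,92),(146,152)]) .nil))))))))) (.cons 86 92 (.leaf [(32,212),(14,158),(38,50),(146,152)]) (.cons 92 86 (.leaf [(32,212),(62,152),(38,50),(146,158)]) (.cons 212 32 (.leaf [(86,92),(38,62),(14,50),(146,152)]) (.cons 50 86 (.leaf [(32,212),(38,62),(146,158),(92,152)])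 (.cons 152 32 (.leaf [(86,92),(146,158),(38,62),(14,50)]) (.cons 158 86 (.leaf [(32,212),(146,152),(38,50),(62,92)]) (.cons 62 32 (.leaf [(38,50),(86,92),(146,152),(14,158)]) (.cons 38 32 (.leaf [(50,62),(86,92),(146,152),(14,158)]) (.cons 146 32 (.leaf [(86,92),(152,158),(38,62),(14,50)]) (.cons 14 86 (.leaf [(32,212),(38,50),(146,152),(62,92)]) .nil))))))))))) (.cons 14 32 (.cons 86 50 (.leaf [(2,212),(74,92),(38,146),(152,158)]) (.cons 50 86 (.leaf [(38,62),(146,152),(2,74)]) (.cons 158 86 (.leaf [(146,152),(2,38),(50,62)]) (.cons 2 86 (.leaf [(38,74),(50,62),(146,152)]) (.cons 38 50 (.leaf [(2,146),(74,92),(86,212),(152,158)]) (.cons 74 86 (.leaf [(2,38),(146,152),(50,62)]) (.cons 146 86 (.leaf [(152,158),(2,74),(38,50)]) (.cons 212 86 (.leaf [(2,38),(50,62),(146,152)]) (.cons 152 86 (.leaf [(146,158),(2,38),(50,62)]) (.cons 92 86 (.leaf [(2,38),(50,62),(146,152)]) (.cons 62 50 (.leaf [(2,38),(86,212),(74,92),(146,152)]) .nil))))))))))) (.cons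 50 32 (.cons 86 2 (.leaf [(14,158),(38,62),(74,92),(146,152)]) (.cons 38 62 (.cons 86 2 (.leaf [(14,158),(74,92),(146,152)]) (.cons 2 86 (.leaf [(74,146),(152,158)]) (.cons 74 86 (.leaf [(2,146),(152,158)]) (.cons 146 2 (.leaf [(152,158),(14,86),(74,92)]) (.cons 158 86 (.leaf [(146,152),(2,74)]) (.cons 14 86 (.leaf [(2,74),(146,152)]) (.cons 212 86 (.leaf [(2,74),(146,152)]) (.cons 152 146 (.leaf [(2,212),(74,86),(14,158)]) (.cons 92 86 (.leaf [(2,74),(146,152)]) .nil))))))))) (.cons 62 38 (.leaf [(2,212),(74,86),(14,158),(146,152)]) (.cons 158 86 (.leaf [(38,62),(146,152),(2,74)]) (.cons 2 86 (.leaf [(38,62),(74,146),(152,158)]) (.cons 74 86 (.leaf [(38,62),(2,146),(152,158)]) (.cons 146 38 (.leaf [(152,158),(2,212),(14,86),(74,92)]) (.cons 14 86 (.leaf [(38,62),(146,152),(2,74)]) (.cons 212 86 (.leaf [(38,62),(146,152),(2,74)]) (.cons 92 86 (.leaf [(38,62),(146,152),(2,74)]) (.cons 152 86 (.leaf [(38,62),(146,158),(2,74)]) .nil))))))))))) (.cons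 146 32 (.cons 86 2 (.leaf [(74,92),(152,158),(14,50),(38,62)]) (.cons 158 152 (.cons 86 2 (.leaf [(14,50),(74,92),(38,62)]) (.cons 2 86 (.leaf [(38,74),(50,62)]) (.cons 38 2 (.leaf [(50,62),(14,86),(74,92)]) (.cons 74 86 (.leaf [(2,38),(50,62)]) (.cons 50 86 (.leaf [(38,62),(2,74)]) (.cons 14 86 (.leaf [(2,74),(38,50)]) (.cons 212 86 (.leaf [(2,74),(38,50)]) (.cons 92 86 (.leaf [(2,74),(38,50)]) (.cons 62 38 (.leaf [(2,212),(74,86),(14,50)]) .nil))))))))) (.cons 2 86 (.leaf [(38,74),(152,158),(50,62)]) (.cons 38 2 (.leaf [(50,62),(152,158),(74,92),(14,86)]) (.cons 74 86 (.leaf [(2,38),(152,158),(50,62)]) (.cons 152 158 (.leaf [(2,38),(74,92),(86,212),(50,62)]) (.cons 50 38 (.leaf [(152,158),(2,212),(14,86),(74,92)]) (.cons 212 86 (.leaf [(152,158),(2,74),(38,50)]) (.cons 62 38 (.leaf [(152,158),(2,212),(74,86),(14,50)]) (.cons 92 86 (.leaf [(152,158),(2,74),(38,50)]) (.cons 14 86 (.leaf [(152,158),(2,74),(38,50)]) .nil))))))))))) (.cons 152 32 (.cons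 146 158 (.leaf [(2,38),(74,92),(86,212),(50,62)]) (.cons 86 158 (.leaf [(2,212),(74,92),(38,146),(50,62)]) (.cons 158 146 (.leaf [(2,212),(74,86),(14,50),(38,62)]) (.cons 2 86 (.leaf [(146,158),(38,74),(50,62)]) (.cons 38 146 (.leaf [(50,62),(2,212),(14,86),(74,92)]) (.cons 74 86 (.leaf [(146,158),(2,38),(50,62)]) (.cons 50 86 (.leaf [(38,62),(146,158),(2,74)]) (.cons 212 86 (.leaf [(146,158),(2,38),(50,62)]) (.cons 92 86 (.leaf [(146,158),(2,38),(50,62)]) (.cons 62 38 (.leaf [(146,158),(2,212),(74,86),(14,50)]) (.cons 14 86 (.leaf [(146,158),(2,38),(50,62)]) .nil))))))))))) (.cons 158 32 (.cons 86 2 (.leaf [(14,50),(74,92),(146,152),(38,62)]) (.cons 146 152 (.cons 86 2 (.leaf [(14,50),(74,92),(38,62)]) (.cons 2 86 (.leaf [(38,74),(50,62)]) (.cons 38 2 (.leaf [(50,62),(14,86),(74,92)]) (.cons 74 86 (.leaf [(2,38),(50,62)]) (.cons 50 86 (.leaf [(38,62),(2,74)]) (.cons 14 86 (.leaf [(2,74),(38,50)]) (.cons 212 86 (.leaf [(2,74),(38,50)]) (.cons 92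 86 (.leaf [(2,74),(38,50)]) (.cons 62 38 (.leaf [(2,212),(74,86),(14,50)]) .nil))))))))) (.cons 50 86 (.leaf [(38,62),(146,152),(2,74)]) (.cons 152 146 (.leaf [(2,212),(74,86),(14,50),(38,62)]) (.cons 2 86 (.leaf [(146,152),(38,74),(50,62)]) (.cons 38 146 (.leaf [(50,62),(2,212),(14,86),(74,92)]) (.cons 74 86 (.leaf [(146,152),(2,38),(50,62)]) (.cons 14 86 (.leaf [(146,152),(2,38),(50,62)]) (.cons 212 86 (.leaf [(146,152),(2,38),(50,62)]) (.cons 92 86 (.leaf [(146,152),(2,38),(50,62)]) (.cons 62 50 (.leaf [(146,152),(2,38),(86,212),(74,92)]) .nil))))))))))) (.cons 92 32 (.cons 86 74 (.leaf [(2,212),(14,158),(38,50),(146,152)]) (.cons 74 86 (.leaf [(2,38),(146,152),(50,62)]) (.cons 2 86 (.leaf [(38,74),(50,62),(146,152)]) (.cons 38 86 (.leaf [(50,62),(2,74),(146,152)]) (.cons 50 86 (.leaf [(38,62),(146,152),(2,74)]) (.cons 146 86 (.leaf [(152,158),(2,74),(38,50)]) (.cons 158 86 (.leaf [(146,152),(2,38),(50,62)]) (.cons 212 86 (.leaf [(2,38),(50,62),(146,152)])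 (.cons 152 86 (.leaf [(146,158),(2,38),(50,62)]) (.cons 62 86 (.leaf [(38,50),(146,152),(2,74)]) (.cons 14 86 (.leaf [(2,38),(50,62),(146,152)]) .nil))))))))))) (.cons 62 32 (.cons 38 50 (.leaf [(2,146),(74,92),(86,212),(152,158)]) (.cons 50 38 (.leaf [(2,212),(74,86),(14,158),(146,152)]) (.cons 86 50 (.leaf [(2,212),(74,92),(38,146),(152,158)]) (.cons 2 86 (.leaf [(38,50),(74,146),(152,158)]) (.cons 74 86 (.leaf [(38,50),(2,146),(152,158)]) (.cons 146 38 (.leaf [(152,158),(2,212),(74,86),(14,50)]) (.cons 158 50 (.leaf [(146,152),(2,38),(86,212),(74,92)]) (.cons 212 86 (.leaf [(38,50),(146,152),(2,74)]) (.cons 152 38 (.leaf [(146,158),(2,212),(74,86),(14,50)]) (.cons 92 86 (.leaf [(38,50),(146,152),(2,74)]) (.cons 14 50 (.leaf [(2,38),(86,212),(74,92),(146,152)]) .nil))))))))))) .nil)))))))))))))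

/-- The masks of block 17. -/
def m17 : List ℕ := [0x100004004, 0x4000000000000000004000000004000000004, 0x100000000000000000000000000000004000000000000000000004, 0x4000000000000000004000000004000000004000, 0x100000000000000100000004000000100000000, 0x100000000000000000000000000000000000000000000100000000, 0x4004004000000000, 0x104004000000000000000000, 0x4104000000000000000000000000000000000000]

/-- The blocks. -/
def blocks : List (Tr × List ℕ) := [(t0, m0), (t1, m1), (t2, m2), (t3, m3), (t4, m4), (t5, m5), (t6, m6), (t7, m7), (t8, m8), (t9, m9), (t10, m10), (t11, m11), (t12, m12), (t13, m13), (t14, m14), (t15, m15), (t16, m16), (t17, m17)]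

theorem blocks_ok : blocksOK blocks 0 = true := by decide +kernel

theorem round : BW (kill 0 (play 8 (fam lines))) :=
  round_base (by norm_num) (blocksOK_sound blocks 0 blocks_ok).1 (by decide +kernel)

end P2

/-- Generators of symmetries. -/
def gens : List (List ℕ) := [[0, 1, 2, 3, 4, 5, 36, 37, 38, 39, 40, 41, 72, 73, 74, 75, 76, 77, 108, 109, 110, 111, 112, 113, 144, 145, 146, 147, 148, 149, 180, 181, 182, 183, 184, 185, 6, 7, 8, 9, 10, 11, 42, 43, 44, 45, 46, 47, 78, 79, 80, 81, 82, 83, 114, 115, 116, 117, 118, 119, 150, 151, 152, 153, 154, 155, 186, 187, 188, 189, 190, 191, 12, 13, 14, 15, 16, 17, 48, 49, 50, 51, 52, 53, 84, 85, 86, 87, 88, 89, 120, 121, 122, 123, 124, 125, 156, 157, 158, 159, 160, 161, 192, 193, 194, 195, 196, 197, 18, 19, 20, 21, 22, 23, 54, 55, 56, 57, 58, 59, 90, 91, 92, 93, 94, 95, 126, 127, 128, 129, 130, 131, 162, 163, 164, 165, 166, 167, 198, 199, 200, 201, 202, 203, 24, 25, 26, 27, 28, 29, 60, 61, 62, 63, 64, 65,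 96, 97, 98, 99, 100, 101, 132, 133, 134, 135, 136, 137, 168, 169, 170, 171, 172, 173, 204, 205, 206, 207, 208, 209, 30, 31, 32, 33, 34, 35, 66, 67, 68, 69, 70, 71, 102, 103, 104, 105, 106, 107, 138, 139, 140, 141, 142, 143, 174, 175, 176, 177, 178, 179, 210, 211, 212, 213, 214, 215],
  [0, 6, 12, 18, 24, 30, 1, 7, 13, 19, 25, 31, 2, 8, 14, 20, 26, 32, 3, 9, 15, 21, 27, 33, 4, 10, 16, 22, 28, 34, 5, 11, 17, 23, 29, 35, 36, 42, 48, 54, 60, 66, 37, 43, 49, 55, 61, 67, 38, 44, 50, 56, 62, 68, 39, 45, 51, 57, 63, 69, 40, 46, 52, 58, 64, 70, 41, 47, 53, 59, 65, 71, 72, 78, 84, 90, 96, 102, 73, 79, 85, 91, 97, 103, 74, 80, 86, 92, 98, 104, 75, 81, 87, 93, 99, 105, 76, 82, 88, 94, 100, 106, 77, 83, 89, 95, 101, 107, 108, 114, 120, 126, 132, 138, 109, 115, 121, 127, 133, 139, 110, 116, 122, 128, 134, 140, 111, 117, 123, 129, 135, 141, 112, 118, 124, 130, 136, 142, 113, 119, 125, 131, 137, 143, 144, 150, 156, 162, 168, 174, 145, 151, 157, 163, 169, 175, 146,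 152, 158, 164, 170, 176, 147, 153, 159, 165, 171, 177, 148, 154, 160, 166, 172, 178, 149, 155, 161, 167, 173, 179, 180, 186, 192, 198, 204, 210, 181, 187, 193, 199, 205, 211, 182, 188, 194, 200, 206, 212, 183, 189, 195, 201, 207, 213, 184, 190, 196, 202, 208, 214, 185, 191, 197, 203, 209, 215],
  [5, 4, 3, 2, 1, 0, 11, 10, 9, 8, 7, 6, 17, 16, 15, 14, 13, 12, 23, 22, 21, 20, 19, 18, 29, 28, 27, 26, 25, 24, 35, 34, 33, 32, 31, 30, 41, 40, 39, 38, 37, 36, 47, 46, 45, 44, 43, 42, 53, 52, 51, 50, 49, 48, 59, 58, 57, 56, 55, 54, 65, 64, 63, 62, 61, 60, 71, 70, 69, 68, 67, 66, 77, 76, 75, 74, 73, 72, 83, 82, 81, 80, 79, 78, 89, 88, 87, 86, 85, 84, 95, 94, 93, 92, 91, 90, 101, 100, 99, 98, 97, 96, 107, 106, 105, 104, 103, 102, 113, 112, 111, 110, 109, 108, 119, 118, 117, 116, 115, 114, 125, 124, 123, 122, 121, 120, 131, 130, 129, 128, 127, 126, 137, 136, 135, 134, 133, 132, 143, 142, 141, 140, 139, 138, 149, 148, 147, 146, 145, 144, 155, 154, 153, 152, 151,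 150, 161, 160, 159, 158, 157, 156, 167, 166, 165, 164, 163, 162, 173, 172, 171, 170, 169, 168, 179, 178, 177, 176, 175, 174, 185, 184, 183, 182, 181, 180, 191, 190, 189, 188, 187, 186, 197, 196, 195, 194, 193, 192, 203, 202, 201, 200, 199, 198, 209, 208, 207, 206, 205, 204, 215, 214, 213, 212, 211, 210],
  [43, 42, 44, 45, 47, 46, 37, 36, 38, 39, 41, 40, 49, 48, 50, 51, 53, 52, 55, 54, 56, 57, 59, 58, 67, 66, 68, 69, 71, 70, 61, 60, 62, 63, 65, 64, 7, 6, 8, 9, 11, 10, 1, 0, 2, 3, 5, 4, 13, 12, 14, 15, 17, 16, 19, 18, 20, 21, 23, 22, 31, 30, 32, 33, 35, 34, 25, 24, 26, 27, 29, 28, 79, 78, 80, 81, 83, 82, 73, 72, 74, 75, 77, 76, 85, 84, 86, 87, 89, 88, 91, 90, 92, 93, 95, 94, 103, 102, 104, 105, 107, 106, 97, 96, 98, 99, 101, 100, 115, 114, 116, 117, 119, 118, 109, 108, 110, 111, 113, 112, 121, 120, 122, 123, 125, 124, 127, 126, 128, 129, 131, 130, 139, 138, 140, 141, 143, 142, 133, 132, 134, 135, 137, 136, 187, 186, 188, 189, 191, 190, 181, 180, 182,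 183, 185, 184, 193, 192, 194, 195, 197, 196, 199, 198, 200, 201, 203, 202, 211, 210, 212, 213, 215, 214, 205, 204, 206, 207, 209, 208, 151, 150, 152, 153, 155, 154, 145, 144, 146, 147, 149, 148, 157, 156, 158, 159, 161, 160, 163, 162, 164, 165, 167, 166, 175, 174, 176, 177, 179, 178, 169, 168, 170, 171, 173, 172],
  [0, 2, 1, 4, 3, 5, 12, 14, 13, 16, 15, 17, 6, 8, 7, 10, 9, 11, 24, 26, 25, 28, 27, 29, 18, 20, 19, 22, 21, 23, 30, 32, 31, 34, 33, 35, 72, 74, 73, 76, 75, 77, 84, 86, 85, 88, 87, 89, 78, 80, 79, 82, 81, 83, 96, 98, 97, 100, 99, 101, 90, 92, 91, 94, 93, 95, 102, 104, 103, 106, 105, 107, 36, 38, 37, 40, 39, 41, 48, 50, 49, 52, 51, 53, 42, 44, 43, 46, 45, 47, 60, 62, 61, 64, 63, 65, 54, 56, 55, 58, 57, 59, 66, 68, 67, 70, 69, 71, 144, 146, 145, 148, 147, 149, 156, 158, 157, 160, 159, 161, 150, 152, 151, 154, 153, 155, 168, 170, 169, 172, 171, 173, 162, 164, 163, 166, 165, 167, 174, 176, 175, 178, 177, 179, 108, 110, 109, 112, 111, 113, 120,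 122, 121, 124, 123, 125, 114, 116, 115, 118, 117, 119, 132, 134, 133, 136, 135, 137, 126, 128, 127, 130, 129, 131, 138, 140, 139, 142, 141, 143, 180, 182, 181, 184, 183, 185, 192, 194, 193, 196, 195, 197, 186, 188, 187, 190, 189, 191, 204, 206, 205, 208, 207, 209, 198, 200, 199, 202, 201, 203, 210, 212, 211, 214, 213, 215]]

/-- The cases. -/
def known : List (ℕ × ℕ) := [(0, 86), (1, 43), (8, 0)]

/-- The answers. -/
def entries : List (ℕ × List ℕ) := [(0, []),
  (1, []),
  (1, [4]),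
  (1, [2, 4]),
  (1, [2]),
  (0, [2]),
  (1, [1]),
  (1, [1, 0, 3]),
  (2, []),
  (2, [2]),
  (1, [1, 0, 2, 3]),
  (1, [1, 2]),
  (1, [1, 4]),
  (2, [1]),
  (1, [1, 0, 3, 4]),
  (1, [1, 0, 2, 3, 4]),
  (2, [1, 2]),
  (1, [1, 2, 4]),
  (1, [2, 1, 4]),
  (2, [2, 1]),
  (1, [1, 0, 2, 1, 3, 4]),
  (1, [1, 0, 2, 1, 2, 3, 4]),
  (2, [2, 1, 2]),
  (1, [2, 1, 2, 4]),
  (1, [2, 1]),
  (1, [1, 0, 2, 1, 3]),
  (2, [1, 2, 1]),
  (2, [1, 2, 1, 2]),
  (1, [1, 0, 2, 1, 2, 3]),
  (1, [2, 1, 2]),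
  (0, [2, 1]),
  (1, [1, 2, 1]),
  (1, [1, 2, 1, 4]),
  (1, [1, 2, 1, 2, 4]),
  (1, [1, 2, 1, 2]),
  (0, [2, 1, 2]),
  (1, [1, 0]),
  (1, [1, 3]),
  (2, [0]),
  (2, [0, 2]),
  (1, [1, 2, 3]),
  (1, [1, 0, 2]),
  (1, [3]),
  (0, [3]),
  (1, [4, 3]),
  (1, [2, 4, 3]),
  (0, [2, 3]),
  (1, [2, 3]),
  (2, [0, 1]),
  (1, [1, 4, 3]),
  (1, [1, 0, 3, 4, 3]),
  (1, [1, 0, 2, 3, 4, 3]),
  (1, [1, 2, 4, 3]),
  (2, [0, 1, 2]),
  (2, [0, 2, 1]),
  (1, [2, 1, 4, 3]),
  (1, [1, 0, 2, 1, 3, 4, 3]),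
  (1, [1, 0, 2, 1, 2, 3, 4, 3]),
  (1, [2, 1, 2, 4, 3]),
  (2, [0, 2, 1, 2]),
  (1, [1, 2, 1, 3]),
  (0, [2, 1, 3]),
  (1, [1, 2, 1, 4, 3]),
  (1, [1, 2, 1, 2, 4, 3]),
  (0, [2, 1, 2, 3]),
  (1, [1, 2, 1, 2, 3]),
  (1, [1, 0, 2, 1]),
  (1, [2, 1, 3]),
  (2, [0, 1, 2, 1]),
  (2, [0, 1, 2, 1, 2]),
  (1, [2, 1, 2, 3]),
  (1, [1, 0, 2, 1, 2]),
  (1, [1, 0, 4]),
  (2, [0, 4]),
  (1, [1, 3, 4]),
  (1, [1, 2, 3, 4]),
  (2, [0, 2, 4]),
  (1, [1, 0, 2, 4]),
  (2, [0, 1, 0]),
  (1, [1, 0, 4, 3]),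
  (1, [1, 3, 4, 3]),
  (1, [1, 2, 3, 4, 3]),
  (1, [1, 0, 2, 4, 3]),
  (2, [0, 1, 0, 2]),
  (1, [3, 4]),
  (1, [3, 4, 3]),
  (0, [3, 4]),
  (0, [2, 3, 4]),
  (1, [2, 3, 4, 3]),
  (1, [2, 3, 4]),
  (1, [1, 2, 1, 3, 4]),
  (1, [1, 2, 1, 3, 4, 3]),
  (0, [2, 1, 3, 4]),
  (0, [2, 1, 2, 3, 4]),
  (1, [1, 2, 1, 2, 3, 4, 3]),
  (1, [1, 2, 1, 2, 3, 4]),
  (2, [0, 2, 1, 4]),
  (1, [1, 0, 2, 1, 4, 3]),
  (1, [2, 1, 3, 4, 3]),
  (1, [2, 1, 2, 3, 4, 3]),
  (1, [1, 0, 2, 1, 2, 4, 3]),
  (2, [0, 2, 1, 2, 4]),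
  (1, [1, 0, 2, 1, 4]),
  (2, [0, 1, 0, 2, 1]),
  (1, [2, 1, 3, 4]),
  (1, [2, 1, 2, 3, 4]),
  (2, [0, 1, 0, 2, 1, 2]),
  (1, [1, 0, 2, 1, 2, 4]),
  (1, [2, 1, 0, 4]),
  (2, [2, 1, 0]),
  (1, [1, 0, 2, 1, 0, 3, 4]),
  (1, [1, 0, 2, 1, 0, 2, 3, 4]),
  (2, [2, 1, 0, 2]),
  (1, [2, 1, 0, 2, 4]),
  (2, [0, 2, 1, 0]),
  (1, [2, 1, 0, 4, 3]),
  (1, [1, 0, 2, 1, 0, 3, 4, 3]),
  (1, [1, 0, 2, 1, 0, 2, 3, 4, 3]),
  (1, [2, 1, 0, 2, 4, 3]),
  (2, [0, 2, 1, 0, 2]),
  (1, [1, 2, 1, 0, 3, 4]),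
  (1, [1, 2, 1, 0, 3, 4, 3]),
  (0, [2, 1, 0, 3, 4]),
  (0, [2, 1, 0, 2, 3, 4]),
  (1, [1, 2, 1, 0, 2, 3, 4, 3]),
  (1, [1, 2, 1, 0, 2, 3, 4]),
  (1, [1, 0, 2, 1, 0, 2, 1, 3, 4]),
  (1, [1, 0, 2, 1, 0, 2, 1, 3, 4, 3]),
  (0, [2, 1, 0, 2, 1, 3, 4]),
  (0, [2, 1, 0, 2, 1, 2, 3, 4]),
  (1, [1, 0, 2, 1, 0, 2, 1, 2, 3, 4, 3]),
  (1, [1, 0, 2, 1, 0, 2, 1, 2, 3, 4]),
  (2, [2, 1, 0, 2, 1]),
  (1, [2, 1, 0, 2, 1, 4, 3]),
  (1, [1, 2, 1, 0, 2, 1, 3, 4, 3]),
  (1, [1, 2, 1, 0, 2, 1, 2, 3, 4, 3]),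
  (1, [2, 1, 0, 2, 1, 2, 4, 3]),
  (2, [2, 1, 0, 2, 1, 2]),
  (1, [2, 1, 0, 2, 1, 4]),
  (2, [0, 2, 1, 0, 2, 1]),
  (1, [1, 2, 1, 0, 2, 1, 3, 4]),
  (1, [1, 2, 1, 0, 2, 1, 2, 3, 4]),
  (2, [0, 2, 1, 0, 2, 1, 2]),
  (1, [2, 1, 0, 2, 1, 2, 4]),
  (1, [2, 1, 0]),
  (1, [1, 0, 2, 1, 0, 3]),
  (2, [1, 2, 1, 0]),
  (2, [1, 2, 1, 0, 2]),
  (1, [1, 0, 2, 1, 0, 2, 3]),
  (1, [2, 1, 0, 2]),
  (1, [1, 2, 1, 0, 3]),
  (0, [2, 1, 0, 3]),
  (1, [1, 2, 1, 0, 4, 3]),
  (1, [1, 2, 1, 0, 2, 4, 3]),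
  (0, [2, 1, 0, 2, 3]),
  (1, [1, 2, 1, 0, 2, 3]),
  (2, [0, 2, 1, 0, 4]),
  (1, [1, 0, 2, 1, 0, 4, 3]),
  (1, [2, 1, 0, 3, 4, 3]),
  (1, [2, 1, 0, 2, 3, 4, 3]),
  (1, [1, 0, 2, 1, 0, 2, 4, 3]),
  (2, [0, 2, 1, 0, 2, 4]),
  (2, [1, 2, 1, 0, 2, 1]),
  (1, [1, 2, 1, 0, 2, 1, 4, 3]),
  (1, [2, 1, 0, 2, 1, 3, 4, 3]),
  (1, [2, 1, 0, 2, 1, 2, 3, 4, 3]),
  (1, [1, 2, 1, 0, 2, 1, 2, 4, 3]),
  (2, [1, 2, 1, 0, 2, 1, 2]),
  (1, [1, 0, 2, 1, 0, 2, 1, 3]),
  (0, [2, 1, 0, 2, 1, 3]),
  (1, [1, 0, 2, 1, 0, 2, 1, 4, 3]),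
  (1, [1, 0, 2, 1, 0, 2, 1, 2, 4, 3]),
  (0, [2, 1, 0, 2, 1, 2, 3]),
  (1, [1, 0, 2, 1, 0, 2, 1, 2, 3]),
  (1, [2, 1, 0, 2, 1]),
  (1, [1, 2, 1, 0, 2, 1, 3]),
  (2, [0, 2, 1, 0, 2, 1, 4]),
  (2, [0, 2, 1, 0, 2, 1, 2, 4]),
  (1, [1, 2, 1, 0, 2, 1, 2, 3]),
  (1, [2, 1, 0, 2, 1, 2]),
  (0, [2, 1, 0]),
  (1, [1, 2, 1, 0]),
  (1, [1, 2, 1, 0, 4]),
  (1, [1, 2, 1, 0, 2, 4]),
  (1, [1, 2, 1, 0, 2]),
  (0, [2, 1, 0, 2]),
  (1, [1, 0, 2, 1, 0]),
  (1, [2, 1, 0, 3]),
  (2, [0, 1, 2, 1, 0]),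
  (2, [0, 1, 2, 1, 0, 2]),
  (1, [2, 1, 0, 2, 3]),
  (1, [1, 0, 2, 1, 0, 2]),
  (1, [1, 0, 2, 1, 0, 4]),
  (2, [0, 1, 0, 2, 1, 0]),
  (1, [2, 1, 0, 3, 4]),
  (1, [2, 1, 0, 2, 3, 4]),
  (2, [0, 1, 0, 2, 1, 0, 2]),
  (1, [1, 0, 2, 1, 0, 2, 4]),
  (1, [1, 2, 1, 0, 2, 1, 4]),
  (2, [0, 1, 2, 1, 0, 2, 1]),
  (1, [2, 1, 0, 2, 1, 3, 4]),
  (1, [2, 1, 0, 2, 1, 2, 3, 4]),
  (2, [0, 1, 2, 1, 0, 2, 1, 2]),
  (1, [1, 2, 1, 0, 2, 1, 2, 4]),
  (1, [1, 2, 1, 0, 2, 1]),
  (1, [2, 1, 0, 2, 1, 3]),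
  (2, [0, 1, 0, 2, 1, 0, 2, 1]),
  (2, [0, 1, 0, 2, 1, 0, 2, 1, 2]),
  (1, [2, 1, 0, 2, 1, 2, 3]),
  (1, [1, 2, 1, 0, 2, 1, 2]),
  (0, [2, 1, 0, 2, 1]),
  (1, [1, 0, 2, 1, 0, 2, 1]),
  (1, [1, 0, 2, 1, 0, 2, 1, 4]),
  (1, [1, 0, 2, 1, 0, 2, 1, 2, 4]),
  (1, [1, 0, 2, 1, 0, 2, 1, 2]),
  (0, [2, 1, 0, 2, 1, 2])]

/-- The full mask. -/
def full : ℕ := 2 ^ 216 - 1

theorem lines_lt : ∀ l ∈ lines, ∀ i ∈ bs l, i < 216 := by
  have h : (lines.all fun l => Nat.beq (Nat.land l full) l) = true := by decide +kernel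
  intro l hl i hi
  have h1 := Nat.eq_of_beq_eq_true (List.all_eq_true.1 h l hl)
  rw [← h1, bs_land, mem_inter] at hi
  have h2 := hi.2
  rw [mem_bs, full, Nat.testBit_two_pow_sub_one, decide_eq_true_eq] at h2
  exact h2

theorem lines_ne : ∀ l ∈ lines, l ≠ 0 := by
  have h : (lines.all fun l => Nat.ble 1 l) = true := by decide +kernel
  intro l hl
  have h1 := Nat.le_of_ble_eq_true (List.all_eq_true.1 h l hl)
  omega

theorem gens_ok : ∀ σ ∈ gens, ∃ τ, symOK 216 lines σ τ = true := by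
  have h : (gens.all fun σ => symOK 216 lines σ σ) = true := by decide +kernel
  intro σ hσ
  exact ⟨σ, List.all_eq_true.1 h σ hσ⟩

theorem bwL : BW (fam lines) := by
  refine round_all lines_lt lines_ne gens_ok known ?_ entries (by decide +kernel)
  intro p hp
  simp only [known, List.mem_cons, List.not_mem_nil, or_false] at hp
  rcases hp with rfl | rfl | rfl
  · exact ⟨by norm_num, by norm_num, P0.round⟩
  · exact ⟨by norm_num, by norm_num, P1.round⟩
  · exact ⟨by norm_num, by norm_num, P2.round⟩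

/-- Breaker blocks all the lines of the board `6 x 6 x 6`. -/
theorem bw : BW (Lines 3 6) := bw_of_cov3 bwL (by decide +kernel)

end Pool.Agent.TTT.C6
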