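import Pool.Agent.TTT.Q0

/-!
Certified forced wins in positions of the 4 x 4 x 4 board.
-/

set_option autoImplicit false
set_option maxRecDepth 1000000
set_option linter.all false

namespace Pool.Agent.TTT.B43

/-- A certificate. -/
noncomputable def c20 : Ct := (.str 16 (.nv (.thr 28 24 (.thr 19 25 (.thr 26 31 (.dbl 18 17 30)))) (.rp 31 (.thr 28 24 (.thr 19 25 (.thr 18 17 (.thr 26 30 (.str 38 (.nv (.thr 4 55 (.thr 6 54 (.thr 52 36 (.dbl 7 5 37)))) (.nv (.thr 54 6 (.thr 50 14 (.thr 62 58 (.dbl 2 34 42)))) (.rp 54 (.str 51 (.nv (.thr 4 55 (.thr 50 14 (.thr 48 49 (.thr 52 36 (.dbl 37 7 15))))) (.nv (.thr 3 35 (.thr 4 55 (.thr 52 36 (.thr 60 41 (.dbl 48 33 56))))) (.nv (.thr 50 14 (.thr 3 35 (.dbl 48 33 49))) (.rp 48 (.thr 55 4 (.thr 63 59 (.thr 50 14 (.thr 2 34 (.thr 3 35 (.thr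 60 41 (.dbl 62 42 61))))))) (.rp 33 (.thr 4 55 (.thr 52 36 (.thr 50 14 (.thr 3 35 (.thr 60 41 (.dbl 48 49 56)))))) .nd)))))) (.rp 51 (.str 34 (.nv (.dbl 50 2 14) (.rp 50 (.thr 4 55 (.thr 6 54 (.thr 7 5 (.dbl 52 36 37)))) (.rp 14 (.thr 2 50 (.dbl 42 46 62)) (.rp 2 (.thr 4 55 (.thr 6 54 (.thr 7 5 (.dbl 52 36 37)))) .nd))))) (.rp 34 (.str 51 (.nv (.thr 50 14 (.thr 3 35 (.dbl 48 33 49))) (.nv (.thr 4 55 (.thr 6 54 (.thr 7 5 (.dbl 52 36 37)))) (.nv (.thr 54 6 (.thr 60 57 (.dbl 3 35 41))) .nd)))) (.rp 6 (.str 51 (.nv (.thr 4 55 (.thr 36 52 (.thr 50 14 (.thr 48 49 (.dbl 37 15 39))))) (.nv (.thr 3 35 (.thr 4 55 (.thr 52 36 (.thr 60 41 (.dbl 48 33 56))))) (.nv (.thr 3 35 (.thr 48 33 (.dbl 50 14 49))) (.rp 48 (.thr 50 14 (.thr 2 34 (.thr 62 42 (.thr 54 58 (.thr 60 57 (.dbl 3 35 41))))))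 (.rp 33 (.thr 4 55 (.thr 52 36 (.thr 50 14 (.thr 3 35 (.thr 60 41 (.dbl 48 49 56)))))) .nd)))))) .nd))))))))))) (.rp 30 (.str 4 (.nv (.thr 24 28 (.thr 36 52 (.thr 12 48 (.thr 38 55 (.thr 25 51 (.dbl 26 27 31)))))) (.nv (.thr 52 36 (.thr 7 37 (.thr 38 55 (.dbl 6 5 54)))) (.rp 55 (.thr 28 24 (.thr 25 19 (.thr 52 36 (.thr 7 37 (.thr 6 5 (.thr 38 54 (.thr 12 51 (.thr 3 9 (.dbl 60 41 44))))))))) (.rp 54 (.thr 28 24 (.thr 19 25 (.thr 18 17 (.thr 26 31 (.thr 52 36 (.thr 37 7 (.thr 48 15 (.thr 3 33 (.dbl 60 41 56))))))))) (.rp 52 (.thr 28 24 (.thr 25 19 (.thr 38 55 (.thr 12 51 (.thr 60 44 (.thr 3 41 (.dbl 6 9 54))))))) (.rp 38 (.thr 28 24 (.thr 19 25 (.thr 18 17 (.thr 26 31 (.thr 52 36 (.thr 37 7 (.thr 48 15 (.thr 3 33 (.dbl 60 41 56))))))))) (.rp 36 (.thr 28 24 (.thr 25 19 (.thr 38 55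 (.thr 6 54 (.thr 12 51 (.thr 3 9 (.dbl 60 41 44))))))) (.rp 7 (.thr 24 28 (.thr 36 52 (.thr 12 48 (.thr 38 55 (.thr 39 37 (.thr 25 51 (.dbl 26 27 31))))))) .nd))))))))) (.rp 28 (.str 4 (.nv (.thr 52 36 (.thr 7 37 (.thr 38 55 (.dbl 6 5 54)))) (.rp 55 (.thr 26 31 (.thr 30 18 (.thr 52 36 (.thr 7 37 (.thr 6 5 (.thr 38 54 (.thr 14 50 (.thr 62 46 (.dbl 2 10 42))))))))) (.rp 54 (.thr 26 31 (.thr 30 18 (.thr 52 36 (.thr 7 37 (.thr 6 5 (.thr 38 55 (.thr 14 50 (.thr 62 46 (.dbl 2 10 42))))))))) (.rp 52 (.thr 26 31 (.thr 30 18 (.thr 38 55 (.thr 14 50 (.thr 62 46 (.thr 2 42 (.dbl 6 10 54))))))) (.rp 38 (.str 29 (.nv (.thr 26 31 (.thr 18 30 (.dbl 17 19 25))) (.rp 31 (.thr 25 17 (.thr 52 36 (.thr 37 7 (.thr 5 53 (.thr 13 49 (.thr 1 9 (.dbl 61 41 45))))))) (.rp 30 (.thr 25 17 (.thr 52 36 (.thr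 37 7 (.thr 5 53 (.thr 13 49 (.thr 1 9 (.dbl 61 41 45))))))) (.rp 27 (.thr 25 17 (.thr 52 36 (.thr 37 7 (.thr 5 53 (.thr 13 49 (.thr 1 9 (.dbl 61 41 45))))))) (.rp 26 (.thr 25 17 (.thr 52 36 (.thr 37 7 (.thr 5 53 (.thr 13 49 (.thr 1 9 (.dbl 61 41 45))))))) (.rp 25 (.thr 26 31 (.thr 18 30 (.thr 52 36 (.thr 37 7 (.thr 48 15 (.thr 3 33 (.dbl 60 41 56))))))) (.rp 19 (.thr 25 17 (.thr 52 36 (.thr 37 7 (.thr 5 53 (.thr 13 49 (.thr 1 9 (.dbl 61 41 45))))))) (.rp 18 (.thr 25 17 (.thr 52 36 (.thr 37 7 (.thr 5 53 (.thr 13 49 (.thr 1 9 (.dbl 61 41 45))))))) (.rp 17 (.thr 26 31 (.thr 18 30 (.thr 52 36 (.thr 37 7 (.thr 48 15 (.thr 3 33 (.dbl 60 41 56))))))) .nd)))))))))) (.rp 37 (.thr 26 31 (.thr 30 18 (.thr 38 55 (.thr 6 54 (.thr 14 50 (.thr 2 10 (.dbl 62 42 46))))))) (.rp 36 (.thr 26 31 (.thr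 30 18 (.thr 38 55 (.thr 6 54 (.thr 14 50 (.thr 2 10 (.dbl 62 42 46))))))) (.rp 7 (.thr 26 31 (.thr 30 18 (.thr 36 52 (.thr 38 55 (.thr 39 37 (.thr 14 50 (.thr 62 46 (.thr 2 42 (.dbl 6 10 54))))))))) (.rp 6 (.thr 52 36 (.thr 37 7 (.thr 53 5 (.dbl 55 38 54)))) (.rp 5 (.thr 26 31 (.thr 30 18 (.thr 38 55 (.thr 6 54 (.thr 14 50 (.thr 62 46 (.dbl 2 10 42))))))) .nd))))))))))) (.rp 26 (.str 52 (.nv (.thr 4 36 (.thr 37 7 (.thr 55 38 (.dbl 53 5 54)))) (.nv (.thr 4 36 (.thr 38 55 (.thr 6 54 (.dbl 7 5 37)))) (.rp 56 (.str 41 (.nv (.thr 1 61 (.thr 28 24 (.thr 25 19 (.thr 17 29 (.thr 33 49 (.dbl 37 7 45)))))) (.nv (.thr 4 36 (.thr 38 55 (.thr 6 54 (.dbl 7 5 37)))) (.rp 37 (.thr 4 36 (.thr 28 24 (.thr 60 3 (.thr 38 55 (.dbl 44 12 35))))) (.rp 7 (.thr 4 36 (.thr 28 24 (.thr 61 1 (.thr 25 19 (.thr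 57 9 (.thr 53 49 (.dbl 55 38 54))))))) .nd))))) (.rp 55 (.thr 28 24 (.thr 25 19 (.thr 4 36 (.thr 7 37 (.thr 6 5 (.thr 38 54 (.thr 12 51 (.thr 3 9 (.dbl 60 41 44))))))))) (.rp 54 (.thr 28 24 (.thr 25 19 (.thr 29 17 (.thr 37 7 (.thr 5 53 (.thr 13 49 (.thr 1 9 (.dbl 61 41 45)))))))) (.rp 41 (.str 56 (.nv (.thr 4 36 (.thr 37 7 (.thr 53 5 (.dbl 55 38 54)))) (.nv (.thr 24 28 (.thr 48 60 (.dbl 36 4 12))) (.rp 36 (.thr 28 24 (.thr 25 19 (.thr 60 48 (.thr 12 44 (.thr 38 51 (.thr 54 6 (.dbl 55 4 53))))))) (.rp 4 (.thr 28 24 (.thr 25 19 (.thr 29 17 (.thr 60 48 (.thr 37 7 (.thr 13 49 (.thr 45 61 (.dbl 30 15 31)))))))) .nd))))) (.rp 38 (.thr 28 24 (.thr 25 19 (.thr 29 17 (.thr 37 7 (.thr 5 53 (.thr 13 49 (.thr 1 9 (.dbl 61 41 45)))))))) (.rp 37 (.thr 28 24 (.thr 25 19 (.thr 4 36 (.thr 38 55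 (.thr 6 54 (.thr 12 51 (.thr 3 9 (.dbl 60 41 44)))))))) (.rp 36 (.thr 28 24 (.thr 25 19 (.thr 29 17 (.thr 37 7 (.thr 5 53 (.thr 13 49 (.thr 1 9 (.dbl 61 41 45)))))))) (.rp 7 (.thr 28 24 (.thr 25 19 (.thr 17 29 (.thr 4 36 (.thr 55 38 (.thr 53 54 (.thr 37 5 (.thr 49 13 (.thr 61 57 (.dbl 1 33 41)))))))))) (.rp 5 (.thr 28 24 (.thr 25 19 (.thr 4 36 (.thr 38 55 (.thr 6 54 (.thr 12 51 (.thr 3 9 (.dbl 60 41 44)))))))) (.rp 4 (.thr 28 24 (.thr 25 19 (.thr 29 17 (.thr 37 7 (.thr 5 53 (.thr 13 49 (.thr 1 9 (.dbl 61 41 45)))))))) .nd))))))))))))) (.rp 25 (.str 4 (.nv (.thr 52 36 (.thr 37 7 (.thr 55 38 (.dbl 53 5 54)))) (.nv (.thr 38 55 (.thr 6 54 (.thr 52 36 (.dbl 7 5 37)))) (.rp 55 (.thr 26 31 (.thr 30 18 (.thr 52 36 (.thr 7 37 (.thr 6 5 (.thr 38 54 (.thr 14 50 (.thr 62 46 (.dbl 2 10 42)))))))))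 (.rp 54 (.thr 24 28 (.thr 26 31 (.thr 36 52 (.thr 48 12 (.thr 37 15 (.dbl 38 39 55)))))) (.rp 52 (.thr 26 31 (.thr 18 30 (.thr 38 55 (.thr 54 6 (.thr 50 14 (.thr 62 58 (.dbl 2 34 42))))))) (.rp 38 (.thr 26 31 (.thr 18 30 (.thr 52 36 (.thr 37 7 (.thr 48 15 (.thr 3 33 (.dbl 60 41 56))))))) (.rp 37 (.thr 26 31 (.thr 18 30 (.thr 38 55 (.thr 54 6 (.thr 50 14 (.thr 62 58 (.dbl 2 34 42))))))) (.rp 36 (.thr 26 31 (.thr 18 30 (.thr 38 55 (.thr 54 6 (.thr 50 14 (.thr 62 58 (.dbl 2 34 42))))))) (.rp 7 (.thr 26 31 (.thr 18 30 (.thr 36 52 (.thr 38 55 (.thr 39 37 (.thr 54 6 (.thr 50 14 (.thr 62 58 (.dbl 2 34 42))))))))) (.rp 5 (.thr 24 28 (.thr 26 31 (.thr 36 52 (.thr 48 12 (.thr 38 55 (.dbl 37 15 39)))))) .nd))))))))))) (.rp 24 (.str 4 (.nv (.thr 38 55 (.thr 6 54 (.thr 7 5 (.dbl 52 36 37))))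 (.nv (.thr 52 36 (.thr 7 37 (.thr 38 55 (.dbl 6 5 54)))) (.rp 55 (.thr 26 31 (.thr 30 18 (.thr 52 36 (.thr 7 37 (.thr 6 5 (.thr 38 54 (.thr 14 50 (.thr 62 46 (.dbl 2 10 42))))))))) (.rp 54 (.thr 26 31 (.thr 18 30 (.thr 52 36 (.thr 37 7 (.thr 48 15 (.thr 3 33 (.dbl 60 41 56))))))) (.rp 52 (.thr 26 31 (.thr 18 30 (.thr 38 55 (.thr 54 6 (.thr 50 14 (.thr 62 58 (.dbl 2 34 42))))))) (.rp 38 (.thr 26 31 (.thr 18 30 (.thr 52 36 (.thr 37 7 (.thr 48 15 (.thr 3 33 (.dbl 60 41 56))))))) (.rp 37 (.thr 26 31 (.thr 18 30 (.thr 38 55 (.thr 54 6 (.thr 50 14 (.thr 62 58 (.dbl 2 34 42))))))) (.rp 36 (.thr 26 31 (.thr 18 30 (.thr 38 55 (.thr 54 6 (.thr 50 14 (.thr 62 58 (.dbl 2 34 42))))))) (.rp 7 (.thr 26 31 (.thr 18 30 (.thr 36 52 (.thr 38 55 (.thr 39 37 (.thr 54 6 (.thr 50 14 (.thr 62 58 (.dbl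 2 34 42))))))))) (.rp 6 (.thr 52 36 (.thr 37 7 (.thr 53 5 (.dbl 55 38 54)))) (.rp 5 (.thr 26 31 (.thr 18 30 (.thr 38 55 (.thr 54 6 (.thr 50 14 (.thr 62 58 (.dbl 2 34 42))))))) .nd)))))))))))) (.rp 19 (.thr 24 28 (.thr 26 31 (.thr 27 25 (.thr 30 18 (.str 4 (.nv (.thr 36 52 (.thr 48 12 (.thr 37 15 (.dbl 38 39 55)))) (.nv (.thr 38 55 (.thr 14 50 (.thr 62 46 (.thr 2 42 (.dbl 6 10 54))))) (.nv (.thr 52 36 (.thr 38 55 (.thr 6 54 (.dbl 7 5 37)))) (.rp 55 (.thr 52 36 (.thr 7 37 (.thr 6 5 (.thr 38 54 (.thr 14 50 (.thr 62 46 (.dbl 2 10 42))))))) (.rp 39 (.thr 52 36 (.thr 7 37 (.thr 38 55 (.dbl 6 5 54)))) (.rp 38 (.thr 52 36 (.thr 37 7 (.thr 53 5 (.thr 55 54 (.thr 15 48 (.thr 51 39 (.thr 63 59 (.thr 60 45 (.thr 61 62 (.dbl 41 1 3)))))))))) (.rp 7 (.thr 36 52 (.thr 12 48 (.thr 38 55 (.thr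 39 37 (.thr 15 51 (.dbl 14 13 50)))))) .nd)))))))))))) (.rp 18 (.thr 28 24 (.thr 25 19 (.thr 29 17 (.dbl 31 26 30)))) (.rp 17 (.thr 26 31 (.thr 24 28 (.thr 30 18 (.thr 27 25 (.str 38 (.nv (.thr 4 55 (.thr 36 52 (.thr 48 12 (.dbl 37 15 39)))) (.nv (.thr 14 50 (.thr 62 46 (.thr 6 54 (.dbl 2 10 42)))) (.rp 54 (.thr 14 50 (.thr 62 46 (.thr 4 55 (.thr 52 36 (.thr 7 37 (.thr 6 5 (.dbl 2 10 42))))))) (.rp 51 (.str 34 (.nv (.thr 4 55 (.thr 6 54 (.thr 7 5 (.dbl 52 36 37)))) (.nv (.thr 46 42 (.dbl 14 50 62)) (.rp 59 (.thr 14 50 (.dbl 46 42 62)) .nd)))) (.rp 34 (.str 51 (.nv (.thr 54 6 (.thr 60 57 (.dbl 15 39 45))) (.nv (.thr 50 14 (.thr 15 39 (.dbl 48 37 49))) (.rp 50 (.str 2 (.nv (.thr 15 39 (.thr 48 37 (.thr 36 12 (.dbl 4 52 55)))) (.nv (.thr 6 54 (.thr 10 14 (.dbl 42 58 62))) .nd))) (.rp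 39 (.thr 50 14 (.thr 48 49 (.thr 36 12 (.dbl 4 52 55)))) (.rp 15 (.thr 50 14 (.thr 48 49 (.thr 4 55 (.dbl 36 12 52)))) .nd)))))) .nd)))))))))) .nd)))))))))))

theorem w20 : WinAt (7340032, 8390657) :=
  chF (K := []) kn c20 7340032 8390657 23
    [] (by decide +kernel) (by decide +kernel)

/-- A certificate. -/
noncomputable def c21 : Ct := (.str 24 (.nv (.thr 20 23 (.dbl 28 16 19)) (.rp 51 (.str 34 (.nv (.thr 20 23 (.dbl 28 16 19)) (.rp 28 (.thr 26 27 (.thr 18 30 (.thr 2 50 (.thr 42 62 (.thr 8 59 (.thr 56 40 (.thr 11 41 (.dbl 10 9 58)))))))) (.rp 23 (.thr 28 19 (.thr 16 20 (.dbl 26 27 31))) (.rp 20 (.thr 19 28 (.str 60 (.nv (.thr 26 27 (.thr 18 30 (.thr 2 50 (.thr 41 3 (.thr 61 1 (.dbl 62 42 63)))))) (.nv (.thr 26 27 (.thr 41 3 (.thr 56 11 (.thr 8 40 (.thr 59 42 (.dbl 57 9 58))))))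 (.nv (.thr 26 27 (.thr 30 18 (.thr 15 45 (.thr 48 37 (.thr 56 52 (.dbl 41 3 11)))))) (.rp 41 (.thr 26 27 (.thr 30 18 (.thr 31 16 (.thr 15 45 (.thr 63 47 (.thr 62 61 (.thr 42 2 (.dbl 46 14 38)))))))) (.rp 39 (.thr 27 26 (.thr 23 31 (.thr 3 41 (.thr 63 43 (.thr 62 61 (.thr 42 2 (.thr 38 46 (.thr 8 59 (.thr 56 40 (.thr 48 52 (.thr 58 53 (.dbl 54 6 50)))))))))))) (.rp 27 (.str 15 (.nv (.thr 41 3 (.thr 1 61 (.thr 9 57 (.thr 5 13 (.thr 45 30 (.dbl 37 33 53)))))) (.nv (.thr 30 45 (.thr 26 18 (.thr 31 16 (.thr 63 47 (.thr 62 61 (.thr 46 14 (.dbl 42 2 38))))))) (.nv (.thr 30 45 (.thr 26 18 (.thr 48 37 (.thr 56 52 (.dbl 41 3 11))))) (.rp 45 (.thr 3 41 (.thr 7 11 (.thr 37 52 (.thr 49 13 (.thr 53 5 (.thr 61 57 (.thr 63 62 (.dbl 48 26 58)))))))) (.rp 30 (.thr 3 41 (.thr 7 11 (.thr 37 52 (.thr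 49 13 (.thr 53 5 (.thr 61 57 (.thr 63 62 (.dbl 48 26 58)))))))) (.rp 8 (.str 4 (.nv (.thr 38 55 (.thr 6 54 (.thr 7 5 (.dbl 3 11 41)))) (.nv (.thr 30 45 (.thr 18 26 (.thr 38 55 (.thr 42 46 (.dbl 2 50 62))))) (.nv (.thr 30 45 (.thr 26 18 (.thr 48 37 (.thr 56 52 (.dbl 41 3 11))))) .nd)))) (.rp 4 (.str 8 (.nv (.thr 40 56 (.thr 42 59 (.dbl 41 3 43))) (.nv (.thr 30 45 (.thr 42 59 (.thr 46 38 (.dbl 62 2 14)))) (.nv (.thr 30 45 (.thr 26 18 (.thr 56 40 (.dbl 48 37 52)))) (.rp 52 (.str 36 (.nv (.thr 40 56 (.thr 41 3 (.dbl 42 43 59))) (.nv (.thr 30 45 (.thr 42 59 (.thr 46 38 (.dbl 62 2 14)))) (.nv (.thr 30 45 (.thr 26 18 (.thr 56 40 (.dbl 41 3 11)))) .nd)))) (.rp 36 (.str 52 (.nv (.thr 3 41 (.dbl 7 11 37)) (.nv (.dbl 56 40 48) .nd))) .nd)))))) .nd)))))))) (.rp 26 (.str 8 (.nv (.thr 40 56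 (.thr 42 59 (.dbl 41 3 43))) (.nv (.thr 40 56 (.thr 41 3 (.dbl 42 43 59))) (.rp 59 (.thr 56 40 (.thr 52 48 (.thr 37 7 (.thr 53 5 (.thr 41 3 (.thr 49 13 (.dbl 57 9 61))))))) (.rp 56 (.thr 42 59 (.thr 41 3 (.thr 43 40 (.thr 38 46 (.thr 35 44 (.thr 32 33 (.dbl 47 37 39))))))) (.rp 43 (.thr 56 40 (.thr 59 42 (.thr 41 3 (.dbl 57 9 58)))) (.rp 42 (.thr 56 40 (.thr 52 48 (.thr 37 7 (.thr 53 5 (.thr 41 3 (.thr 49 13 (.dbl 57 9 61))))))) (.rp 41 (.thr 56 40 (.thr 42 59 (.thr 52 48 (.thr 38 46 (.thr 54 6 (.dbl 55 4 53)))))) (.rp 40 (.thr 42 59 (.thr 41 3 (.thr 9 57 (.thr 10 11 (.thr 2 62 (.thr 38 46 (.dbl 6 14 54))))))) (.rp 3 (.thr 56 40 (.thr 42 59 (.thr 52 48 (.thr 38 46 (.thr 55 4 (.dbl 54 6 53)))))) .nd)))))))))) (.rp 15 (.thr 27 26 (.thr 23 31 (.thr 3 41 (.thr 63 43 (.thr 62 61 (.thr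 42 2 (.thr 38 46 (.thr 8 59 (.thr 56 40 (.thr 48 52 (.thr 58 53 (.dbl 54 6 50)))))))))))) (.rp 8 (.str 4 (.nv (.thr 38 55 (.thr 42 46 (.thr 2 62 (.thr 18 50 (.dbl 26 27 30))))) (.nv (.thr 3 41 (.thr 26 27 (.thr 18 30 (.thr 48 33 (.thr 52 56 (.dbl 37 7 15)))))) (.nv (.thr 38 55 (.thr 26 27 (.thr 50 14 (.dbl 18 2 30)))) (.rp 30 (.thr 38 55 (.thr 26 27 (.thr 50 14 (.thr 2 18 (.dbl 42 46 62))))) (.rp 27 (.thr 38 55 (.thr 6 54 (.thr 5 7 (.thr 41 3 (.thr 9 57 (.dbl 1 13 61)))))) (.rp 26 (.thr 38 55 (.thr 6 54 (.thr 5 7 (.thr 41 3 (.thr 9 57 (.dbl 1 13 61)))))) (.rp 18 (.thr 38 55 (.thr 54 6 (.thr 26 27 (.thr 42 46 (.thr 58 10 (.dbl 50 14 62)))))) .nd)))))))) (.rp 4 (.str 8 (.nv (.thr 40 56 (.thr 41 3 (.dbl 42 43 59))) (.nv (.thr 42 59 (.thr 2 62 (.thr 18 50 (.dbl 26 27 30)))) (.nv (.thr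 56 40 (.thr 26 27 (.dbl 41 3 11))) (.rp 52 (.str 36 (.nv (.thr 40 56 (.thr 41 3 (.dbl 42 43 59))) (.nv (.thr 42 59 (.thr 2 62 (.thr 18 50 (.dbl 26 27 30)))) (.nv (.thr 56 40 (.thr 26 27 (.dbl 41 3 11))) .nd)))) (.rp 36 (.str 52 (.nv (.dbl 56 40 48) (.rp 56 (.thr 37 7 (.thr 26 27 (.thr 30 18 (.dbl 15 45 48)))) (.rp 48 (.thr 56 40 (.thr 26 27 (.dbl 41 3 11))) (.rp 40 (.thr 37 7 (.thr 26 27 (.dbl 48 15 56))) .nd))))) .nd)))))) (.rp 3 (.thr 26 27 (.thr 18 30 (.thr 2 50 (.thr 42 62 (.thr 8 59 (.thr 56 40 (.thr 11 41 (.dbl 10 9 58)))))))) .nd))))))))))))) (.rp 19 (.thr 20 23 (.thr 16 28 (.dbl 26 27 31))) (.rp 16 (.thr 27 26 (.thr 23 20 (.dbl 19 28 31))) (.rp 8 (.str 4 (.nv (.thr 26 27 (.thr 18 30 (.thr 38 55 (.dbl 50 2 14)))) (.nv (.thr 20 23 (.dbl 28 16 19)) .nd))) (.rp 4 (.str 8 (.nv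 (.thr 26 27 (.thr 18 30 (.thr 2 50 (.dbl 42 59 62)))) (.nv (.thr 20 23 (.dbl 28 16 19)) .nd))) .nd))))))))) (.rp 34 (.str 51 (.nv (.thr 20 23 (.dbl 28 16 19)) (.rp 28 (.thr 27 26 (.thr 23 20 (.thr 19 31 (.thr 3 35 (.thr 63 43 (.thr 55 59 (.dbl 39 7 15))))))) (.rp 23 (.thr 28 19 (.thr 16 20 (.dbl 26 27 31))) (.rp 20 (.thr 27 26 (.thr 19 28 (.thr 23 31 (.thr 3 35 (.thr 63 43 (.thr 55 59 (.dbl 39 7 15))))))) (.rp 19 (.thr 20 23 (.thr 16 28 (.dbl 26 27 31))) (.rp 16 (.thr 27 26 (.thr 19 28 (.dbl 23 20 31))) (.rp 8 (.str 4 (.nv (.thr 23 20 (.thr 27 26 (.thr 39 15 (.dbl 55 7 38)))) (.nv (.thr 20 23 (.dbl 28 16 19)) (.rp 23 (.thr 28 19 (.thr 16 20 (.dbl 26 27 31))) (.rp 20 (.thr 19 28 (.thr 27 26 (.thr 23 31 (.thr 55 38 (.dbl 39 7 15))))) .nd))))) (.rp 4 (.str 8 (.nv (.thr 20 23 (.dbl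 28 16 19)) (.rp 28 (.thr 26 27 (.thr 59 42 (.thr 56 40 (.thr 57 58 (.dbl 41 9 11))))) (.rp 23 (.thr 28 19 (.thr 16 20 (.dbl 26 27 31))) (.rp 20 (.thr 26 27 (.thr 42 59 (.thr 10 58 (.thr 11 9 (.dbl 56 40 41))))) (.rp 19 (.thr 20 23 (.thr 16 28 (.dbl 26 27 31))) (.rp 16 (.thr 27 26 (.thr 19 28 (.dbl 23 20 31))) .nd))))))) .nd))))))))) (.rp 28 (.thr 20 23 (.str 4 (.nv (.thr 52 36 (.thr 7 37 (.thr 38 55 (.dbl 6 5 54)))) (.rp 60 (.str 44 (.nv (.thr 26 27 (.thr 36 52 (.thr 40 32 (.thr 56 8 (.thr 41 11 (.dbl 38 35 55)))))) (.nv (.thr 52 36 (.thr 7 37 (.thr 38 55 (.dbl 6 5 54)))) (.rp 55 (.thr 26 27 (.thr 30 18 (.thr 52 36 (.thr 7 37 (.thr 6 5 (.thr 38 54 (.thr 14 50 (.thr 62 46 (.dbl 2 10 42))))))))) (.rp 52 (.thr 38 55 (.thr 41 35 (.thr 1 61 (.thr 9 57 (.thr 5 13 (.dbl 6 7 54)))))) (.rp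 51 (.str 34 (.nv (.thr 26 27 (.thr 18 30 (.thr 50 2 (.dbl 38 14 55)))) (.nv (.thr 52 36 (.thr 37 7 (.thr 55 38 (.dbl 53 5 54)))) (.rp 57 (.str 54 (.nv (.thr 52 36 (.thr 37 7 (.dbl 53 5 55))) (.nv (.dbl 38 6 55) (.rp 55 (.thr 52 36 (.thr 6 38 (.dbl 7 5 37))) .nd)))) (.rp 55 (.thr 36 52 (.thr 32 40 (.thr 35 33 (.thr 38 41 (.thr 42 46 (.dbl 37 39 47)))))) (.rp 54 (.str 57 (.nv (.thr 52 36 (.thr 37 7 (.thr 49 13 (.dbl 53 5 61)))) (.nv (.thr 41 9 (.dbl 38 35 55)) (.rp 55 (.thr 41 9 (.thr 35 38 (.thr 32 33 (.dbl 36 40 52)))) .nd)))) (.rp 38 (.thr 36 52 (.thr 40 32 (.thr 26 27 (.thr 18 30 (.thr 2 50 (.thr 42 62 (.dbl 8 56 59))))))) .nd))))))) (.rp 38 (.str 8 (.nv (.thr 40 56 (.dbl 36 32 52)) (.rp 56 (.thr 26 27 (.thr 30 18 (.thr 52 36 (.thr 37 7 (.thr 42 59 (.thr 47 32 (.thr 46 45 (.dbl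 62 2 14)))))))) (.rp 52 (.thr 26 27 (.thr 56 40 (.thr 11 41 (.thr 10 9 (.dbl 42 58 59))))) (.rp 51 (.str 34 (.nv (.thr 26 27 (.thr 18 30 (.thr 42 59 (.dbl 2 50 62)))) (.nv (.thr 36 52 (.dbl 40 32 56)) (.rp 57 (.str 54 (.nv (.thr 26 27 (.thr 42 59 (.thr 58 10 (.dbl 62 2 50)))) (.nv (.thr 36 52 (.dbl 40 32 56)) .nd))) (.rp 54 (.str 57 (.nv (.thr 36 52 (.dbl 40 32 56)) (.nv (.thr 26 27 (.thr 18 30 (.thr 42 59 (.dbl 2 50 62)))) (.nv (.thr 56 40 (.dbl 59 42 58)) .nd)))) .nd))))) (.rp 48 (.thr 26 27 (.thr 56 40 (.thr 11 41 (.thr 10 9 (.dbl 42 58 59))))) (.rp 40 (.thr 26 27 (.thr 52 36 (.thr 42 59 (.thr 2 62 (.thr 10 58 (.thr 6 14 (.dbl 7 5 37))))))) (.rp 36 (.thr 26 27 (.thr 56 40 (.thr 11 41 (.thr 10 9 (.dbl 42 58 59))))) (.rp 34 (.str 51 (.nv (.thr 36 52 (.dbl 40 32 56)) (.rp 56 (.thr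 52 36 (.thr 37 7 (.thr 53 5 (.thr 55 54 (.dbl 59 42 63))))) (.rp 52 (.thr 56 40 (.thr 42 59 (.thr 26 27 (.thr 10 58 (.dbl 11 9 41))))) (.rp 48 (.thr 52 36 (.thr 37 7 (.thr 53 5 (.thr 55 54 (.dbl 59 42 63))))) (.rp 46 (.thr 42 59 (.thr 36 52 (.dbl 40 32 56))) (.rp 42 (.str 46 (.nv (.thr 40 56 (.dbl 36 32 52)) (.rp 56 (.thr 52 36 (.thr 26 27 (.thr 37 7 (.thr 49 13 (.dbl 48 15 50))))) (.rp 52 (.thr 56 40 (.thr 26 27 (.thr 45 47 (.thr 41 11 (.thr 37 33 (.thr 49 13 (.dbl 48 15 50))))))) (.rp 48 (.thr 56 40 (.thr 52 36 (.thr 26 27 (.thr 45 47 (.thr 41 11 (.dbl 37 7 33)))))) (.rp 40 (.thr 52 36 (.thr 26 27 (.thr 37 7 (.thr 49 13 (.dbl 48 15 50))))) (.rp 36 (.thr 56 40 (.thr 26 27 (.thr 45 47 (.thr 41 11 (.thr 37 33 (.thr 5 53 (.dbl 7 6 52))))))) (.rp 32 (.thr 52 36 (.thr 26 27 (.thr 37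 7 (.thr 49 13 (.dbl 48 15 50))))) .nd)))))))) (.rp 40 (.thr 52 36 (.thr 37 7 (.thr 53 5 (.thr 55 54 (.dbl 59 42 63))))) (.rp 36 (.thr 56 40 (.thr 42 59 (.thr 26 27 (.thr 10 58 (.dbl 11 9 41))))) (.rp 32 (.thr 52 36 (.thr 37 7 (.thr 53 5 (.thr 55 54 (.dbl 59 42 63))))) .nd)))))))))) (.rp 32 (.thr 26 27 (.thr 56 40 (.thr 11 41 (.thr 10 9 (.dbl 42 58 59))))) .nd)))))))))) (.rp 36 (.thr 38 55 (.thr 41 35 (.thr 1 61 (.thr 9 57 (.thr 5 13 (.dbl 6 7 54)))))) (.rp 34 (.str 51 (.nv (.thr 36 52 (.thr 40 32 (.thr 55 38 (.thr 59 63 (.dbl 8 42 56))))) (.nv (.thr 52 36 (.thr 38 55 (.thr 7 37 (.dbl 6 5 54)))) (.rp 55 (.thr 52 36 (.thr 7 37 (.thr 6 5 (.thr 38 54 (.thr 35 41 (.thr 3 19 (.thr 27 26 (.dbl 15 11 39)))))))) (.rp 52 (.thr 38 55 (.thr 41 35 (.thr 9 57 (.thr 1 61 (.thr 5 13 (.dbl 6 7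 54)))))) (.rp 38 (.thr 52 36 (.thr 37 7 (.thr 49 13 (.thr 48 50 (.dbl 26 15 27))))) (.rp 36 (.thr 38 55 (.thr 6 54 (.thr 41 35 (.thr 9 57 (.thr 1 61 (.dbl 5 7 13)))))) .nd))))))) .nd))))))))) (.rp 55 (.thr 26 27 (.thr 30 18 (.thr 52 36 (.thr 7 37 (.thr 6 5 (.thr 38 54 (.thr 14 50 (.thr 62 46 (.dbl 2 10 42))))))))) (.rp 54 (.thr 26 27 (.thr 18 30 (.thr 52 36 (.thr 37 7 (.thr 48 15 (.thr 60 56 (.dbl 3 33 41))))))) (.rp 52 (.thr 26 27 (.thr 18 30 (.thr 38 55 (.thr 54 6 (.thr 50 14 (.thr 62 58 (.dbl 2 34 42))))))) (.rp 51 (.str 34 (.nv (.thr 26 27 (.thr 18 30 (.thr 50 2 (.dbl 38 14 55)))) (.nv (.thr 52 36 (.thr 37 7 (.thr 55 38 (.dbl 53 5 54)))) (.rp 60 (.str 44 (.nv (.thr 26 27 (.thr 18 30 (.thr 50 2 (.dbl 38 14 55)))) (.nv (.thr 52 36 (.thr 37 7 (.thr 55 38 (.dbl 53 5 54)))) (.rp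 57 (.str 54 (.nv (.thr 52 36 (.thr 37 7 (.dbl 53 5 55))) (.nv (.dbl 38 6 55) (.rp 55 (.thr 52 36 (.thr 6 38 (.dbl 7 5 37))) .nd)))) (.rp 55 (.thr 36 52 (.thr 32 40 (.thr 35 33 (.thr 38 41 (.thr 42 46 (.dbl 37 39 47)))))) (.rp 54 (.str 57 (.nv (.thr 52 36 (.thr 37 7 (.thr 49 13 (.dbl 53 5 61)))) (.nv (.thr 41 9 (.dbl 38 35 55)) (.rp 55 (.thr 41 9 (.thr 35 38 (.thr 32 33 (.dbl 36 40 52)))) .nd)))) (.rp 38 (.thr 36 52 (.thr 40 32 (.thr 26 27 (.thr 18 30 (.thr 2 50 (.thr 42 62 (.dbl 8 56 59))))))) .nd))))))) (.rp 55 (.thr 26 27 (.thr 18 30 (.thr 50 2 (.thr 38 14 (.thr 6 54 (.thr 7 5 (.dbl 52 36 37))))))) (.rp 44 (.str 60 (.nv (.thr 52 36 (.thr 7 37 (.thr 38 55 (.dbl 6 5 54)))) (.nv (.thr 26 27 (.thr 18 30 (.thr 50 2 (.dbl 38 14 55)))) (.nv (.thr 52 36 (.thr 48 56 (.thr 37 7 (.dbl 26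 15 27)))) (.rp 55 (.thr 52 36 (.thr 48 56 (.thr 26 27 (.dbl 37 7 15)))) .nd))))) (.rp 38 (.thr 26 27 (.thr 18 30 (.thr 2 50 (.thr 42 62 (.thr 8 59 (.thr 56 40 (.thr 11 41 (.dbl 10 9 58)))))))) .nd))))))) (.rp 44 (.str 60 (.nv (.thr 26 27 (.thr 30 18 (.thr 15 45 (.thr 48 37 (.dbl 52 36 56))))) (.nv (.thr 52 36 (.thr 7 37 (.thr 38 55 (.dbl 6 5 54)))) (.rp 52 (.thr 26 27 (.thr 41 3 (.thr 56 11 (.thr 8 40 (.thr 59 42 (.dbl 57 9 58)))))) (.rp 51 (.str 34 (.nv (.thr 52 36 (.thr 7 37 (.thr 38 55 (.dbl 6 5 54)))) (.nv (.thr 26 27 (.thr 18 30 (.thr 50 2 (.dbl 38 14 55)))) (.nv (.thr 52 36 (.thr 48 56 (.thr 37 7 (.dbl 26 15 27)))) (.rp 55 (.thr 52 36 (.thr 48 56 (.thr 26 27 (.dbl 37 7 15)))) .nd))))) (.rp 37 (.thr 26 27 (.thr 52 36 (.thr 56 48 (.dbl 41 3 11)))) (.rp 36 (.thr 26 27 (.thr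 30 18 (.thr 15 45 (.thr 48 37 (.thr 56 52 (.dbl 41 3 11)))))) (.rp 34 (.str 51 (.nv (.thr 26 27 (.thr 52 36 (.thr 48 56 (.dbl 37 7 15)))) (.nv (.thr 54 57 (.dbl 38 6 55)) .nd))) .nd)))))))) (.rp 38 (.thr 26 27 (.thr 18 30 (.thr 52 36 (.thr 37 7 (.thr 48 15 (.thr 60 56 (.dbl 3 33 41))))))) (.rp 37 (.thr 26 27 (.thr 18 30 (.thr 38 55 (.thr 54 6 (.thr 50 14 (.thr 62 58 (.dbl 2 34 42))))))) (.rp 36 (.thr 26 27 (.thr 18 30 (.thr 38 55 (.thr 54 6 (.thr 50 14 (.thr 62 58 (.dbl 2 34 42))))))) (.rp 34 (.str 51 (.nv (.thr 26 27 (.thr 52 36 (.thr 37 7 (.thr 49 13 (.dbl 48 15 50))))) (.nv (.thr 52 36 (.thr 7 37 (.thr 38 55 (.dbl 6 5 54)))) (.rp 60 (.str 44 (.nv (.thr 36 52 (.thr 40 32 (.thr 55 38 (.thr 59 63 (.dbl 8 42 56))))) (.nv (.thr 52 36 (.thr 38 55 (.thr 7 37 (.dbl 6 5 54)))) (.rp 55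 (.thr 52 36 (.thr 7 37 (.thr 6 5 (.thr 38 54 (.thr 35 41 (.thr 3 19 (.thr 27 26 (.dbl 15 11 39)))))))) (.rp 52 (.thr 38 55 (.thr 41 35 (.thr 9 57 (.thr 1 61 (.thr 5 13 (.dbl 6 7 54)))))) (.rp 38 (.thr 52 36 (.thr 37 7 (.thr 49 13 (.thr 48 50 (.dbl 26 15 27))))) (.rp 36 (.thr 38 55 (.thr 6 54 (.thr 41 35 (.thr 9 57 (.thr 1 61 (.dbl 5 7 13)))))) .nd))))))) (.rp 55 (.thr 27 26 (.thr 52 36 (.thr 7 37 (.thr 6 5 (.thr 38 54 (.thr 15 39 (.thr 3 11 (.thr 35 19 (.dbl 41 44 60))))))))) (.rp 52 (.thr 26 27 (.thr 30 18 (.thr 38 55 (.thr 54 6 (.thr 60 57 (.thr 50 14 (.thr 48 49 (.dbl 15 37 45)))))))) (.rp 44 (.str 60 (.nv (.thr 26 27 (.thr 52 36 (.thr 48 56 (.dbl 37 7 15)))) (.nv (.thr 54 57 (.dbl 38 6 55)) .nd))) (.rp 37 (.thr 26 27 (.thr 30 18 (.thr 38 55 (.thr 6 54 (.thr 14 50 (.thr 2 10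 (.dbl 62 42 46))))))) (.rp 36 (.thr 26 27 (.thr 30 18 (.thr 38 55 (.thr 6 54 (.thr 14 50 (.thr 2 10 (.dbl 62 42 46))))))) (.rp 7 (.thr 27 26 (.thr 38 55 (.thr 39 15 (.dbl 36 37 52)))) .nd)))))))))) (.rp 7 (.thr 26 27 (.thr 18 30 (.thr 36 52 (.thr 38 55 (.thr 39 37 (.thr 54 6 (.thr 50 14 (.thr 62 58 (.dbl 2 34 42))))))))) (.rp 6 (.thr 52 36 (.thr 37 7 (.thr 53 5 (.dbl 55 38 54)))) (.rp 5 (.thr 26 27 (.thr 18 30 (.thr 38 55 (.thr 54 6 (.thr 50 14 (.thr 62 58 (.dbl 2 34 42))))))) .nd)))))))))))))))) (.rp 23 (.thr 28 19 (.thr 16 20 (.dbl 26 27 31))) (.rp 20 (.thr 19 28 (.str 60 (.nv (.thr 3 41 (.thr 26 27 (.thr 18 30 (.thr 48 33 (.thr 51 35 (.thr 54 57 (.thr 38 6 (.dbl 50 14 49)))))))) (.nv (.thr 26 27 (.thr 41 3 (.thr 56 11 (.thr 8 40 (.thr 59 42 (.dbl 57 9 58)))))) (.nv (.thr 26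 27 (.thr 30 18 (.thr 15 45 (.thr 48 37 (.thr 56 52 (.dbl 41 3 11)))))) (.rp 51 (.str 34 (.nv (.thr 26 27 (.thr 18 30 (.thr 2 50 (.thr 41 3 (.thr 61 1 (.dbl 62 42 63)))))) (.nv (.thr 26 27 (.thr 41 3 (.thr 56 11 (.thr 8 40 (.thr 59 42 (.dbl 57 9 58)))))) (.nv (.thr 26 27 (.thr 30 18 (.thr 15 45 (.thr 48 37 (.thr 56 52 (.dbl 41 3 11)))))) (.rp 41 (.thr 26 27 (.thr 30 18 (.thr 31 16 (.thr 15 45 (.thr 63 47 (.thr 62 61 (.thr 42 2 (.dbl 46 14 38)))))))) (.rp 39 (.thr 27 26 (.thr 23 31 (.thr 3 41 (.thr 63 43 (.thr 62 61 (.thr 42 2 (.thr 38 46 (.thr 8 59 (.thr 56 40 (.thr 48 52 (.thr 58 53 (.dbl 54 6 50)))))))))))) (.rp 27 (.str 15 (.nv (.thr 41 3 (.thr 1 61 (.thr 9 57 (.thr 5 13 (.thr 45 30 (.dbl 37 33 53)))))) (.nv (.thr 30 45 (.thr 26 18 (.thr 31 16 (.thr 63 47 (.thr 62 61 (.thr 46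 14 (.dbl 42 2 38))))))) (.nv (.thr 30 45 (.thr 26 18 (.thr 48 37 (.thr 56 52 (.dbl 41 3 11))))) (.rp 45 (.thr 3 41 (.thr 7 11 (.thr 37 52 (.thr 49 13 (.thr 53 5 (.thr 61 57 (.thr 63 62 (.dbl 48 26 58)))))))) (.rp 30 (.thr 3 41 (.thr 7 11 (.thr 37 52 (.thr 49 13 (.thr 53 5 (.thr 61 57 (.thr 63 62 (.dbl 48 26 58)))))))) (.rp 8 (.str 4 (.nv (.thr 38 55 (.thr 6 54 (.thr 7 5 (.dbl 3 11 41)))) (.nv (.thr 30 45 (.thr 18 26 (.thr 38 55 (.thr 42 46 (.dbl 2 50 62))))) (.nv (.thr 30 45 (.thr 26 18 (.thr 48 37 (.thr 56 52 (.dbl 41 3 11))))) .nd)))) (.rp 4 (.str 8 (.nv (.thr 40 56 (.thr 42 59 (.dbl 41 3 43))) (.nv (.thr 30 45 (.thr 42 59 (.thr 46 38 (.dbl 62 2 14)))) (.nv (.thr 30 45 (.thr 26 18 (.thr 56 40 (.dbl 48 37 52)))) (.rp 52 (.str 36 (.nv (.thr 40 56 (.thr 41 3 (.dbl 42 43 59))) (.nv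 (.thr 30 45 (.thr 42 59 (.thr 46 38 (.dbl 62 2 14)))) (.nv (.thr 30 45 (.thr 26 18 (.thr 56 40 (.dbl 41 3 11)))) .nd)))) (.rp 36 (.str 52 (.nv (.thr 3 41 (.dbl 7 11 37)) (.nv (.dbl 56 40 48) .nd))) .nd)))))) .nd)))))))) (.rp 26 (.str 8 (.nv (.thr 40 56 (.thr 42 59 (.dbl 41 3 43))) (.nv (.thr 40 56 (.thr 41 3 (.dbl 42 43 59))) (.rp 59 (.thr 56 40 (.thr 52 48 (.thr 37 7 (.thr 53 5 (.thr 41 3 (.thr 49 13 (.dbl 57 9 61))))))) (.rp 56 (.thr 42 59 (.thr 41 3 (.thr 43 40 (.thr 38 46 (.thr 35 44 (.thr 32 33 (.dbl 47 37 39))))))) (.rp 43 (.thr 56 40 (.thr 59 42 (.thr 41 3 (.dbl 57 9 58)))) (.rp 42 (.thr 56 40 (.thr 52 48 (.thr 37 7 (.thr 53 5 (.thr 41 3 (.thr 49 13 (.dbl 57 9 61))))))) (.rp 41 (.thr 56 40 (.thr 42 59 (.thr 52 48 (.thr 38 46 (.thr 54 6 (.dbl 55 4 53)))))) (.rp 40 (.thr 42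 59 (.thr 41 3 (.thr 9 57 (.thr 10 11 (.thr 2 62 (.thr 38 46 (.dbl 6 14 54))))))) (.rp 3 (.thr 56 40 (.thr 42 59 (.thr 52 48 (.thr 38 46 (.thr 55 4 (.dbl 54 6 53)))))) .nd)))))))))) (.rp 15 (.thr 27 26 (.thr 23 31 (.thr 3 41 (.thr 63 43 (.thr 62 61 (.thr 42 2 (.thr 38 46 (.thr 8 59 (.thr 56 40 (.thr 48 52 (.thr 58 53 (.dbl 54 6 50)))))))))))) (.rp 8 (.str 4 (.nv (.thr 38 55 (.thr 42 46 (.thr 2 62 (.thr 18 50 (.dbl 26 27 30))))) (.nv (.thr 3 41 (.thr 26 27 (.thr 18 30 (.thr 48 33 (.thr 52 56 (.dbl 37 7 15)))))) (.nv (.thr 38 55 (.thr 26 27 (.thr 50 14 (.dbl 18 2 30)))) (.rp 30 (.thr 38 55 (.thr 26 27 (.thr 50 14 (.thr 2 18 (.dbl 42 46 62))))) (.rp 27 (.thr 38 55 (.thr 6 54 (.thr 5 7 (.thr 41 3 (.thr 9 57 (.dbl 1 13 61)))))) (.rp 26 (.thr 38 55 (.thr 6 54 (.thr 5 7 (.thr 41 3 (.thr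 9 57 (.dbl 1 13 61)))))) (.rp 18 (.thr 38 55 (.thr 54 6 (.thr 26 27 (.thr 42 46 (.thr 58 10 (.dbl 50 14 62)))))) .nd)))))))) (.rp 4 (.str 8 (.nv (.thr 40 56 (.thr 41 3 (.dbl 42 43 59))) (.nv (.thr 42 59 (.thr 2 62 (.thr 18 50 (.dbl 26 27 30)))) (.nv (.thr 56 40 (.thr 26 27 (.dbl 41 3 11))) (.rp 52 (.str 36 (.nv (.thr 40 56 (.thr 41 3 (.dbl 42 43 59))) (.nv (.thr 42 59 (.thr 2 62 (.thr 18 50 (.dbl 26 27 30)))) (.nv (.thr 56 40 (.thr 26 27 (.dbl 41 3 11))) .nd)))) (.rp 36 (.str 52 (.nv (.dbl 56 40 48) (.rp 56 (.thr 37 7 (.thr 26 27 (.thr 30 18 (.dbl 15 45 48)))) (.rp 48 (.thr 56 40 (.thr 26 27 (.dbl 41 3 11))) (.rp 40 (.thr 37 7 (.thr 26 27 (.dbl 48 15 56))) .nd))))) .nd)))))) (.rp 3 (.thr 26 27 (.thr 18 30 (.thr 2 50 (.thr 42 62 (.thr 8 59 (.thr 56 40 (.thr 11 41 (.dbl 10 9 58))))))))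 .nd)))))))))))) (.rp 41 (.thr 26 27 (.thr 30 18 (.thr 31 16 (.thr 15 45 (.thr 63 47 (.thr 62 61 (.thr 42 2 (.thr 58 10 (.dbl 48 37 53))))))))) (.rp 34 (.str 51 (.nv (.dbl 3 35 41) (.rp 41 (.thr 27 26 (.thr 23 31 (.thr 54 57 (.thr 39 15 (.thr 55 7 (.dbl 38 4 6)))))) (.rp 35 (.thr 57 54 (.dbl 41 3 9)) (.rp 8 (.str 4 (.nv (.thr 38 55 (.dbl 54 6 57)) (.nv (.dbl 3 35 41) .nd))) (.rp 4 (.str 8 (.nv (.thr 56 40 (.thr 57 54 (.dbl 59 42 58))) (.nv (.dbl 3 35 41) (.rp 52 (.str 36 (.nv (.thr 56 40 (.thr 57 54 (.dbl 59 42 58))) (.nv (.dbl 3 35 41) .nd))) (.rp 36 (.str 52 (.nv (.dbl 3 35 41) (.nv (.dbl 56 40 48) .nd))) .nd))))) (.rp 3 (.thr 27 26 (.thr 23 31 (.thr 54 57 (.thr 39 15 (.thr 7 55 (.thr 37 52 (.dbl 38 6 36))))))) .nd))))))) (.rp 27 (.thr 3 41 (.thr 51 35 (.thr 54 57 (.thr 38 6 (.str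 56 (.nv (.thr 8 40 (.thr 55 4 (.dbl 59 42 63))) (.nv (.thr 52 48 (.dbl 55 4 53)) (.rp 55 (.thr 48 52 (.thr 50 49 (.thr 26 14 (.dbl 18 30 33)))) (.rp 52 (.thr 8 40 (.thr 42 59 (.thr 62 2 (.thr 50 58 (.thr 46 34 (.dbl 14 26 30)))))) (.rp 8 (.thr 4 55 (.thr 48 52 (.thr 50 49 (.thr 26 14 (.dbl 18 30 33))))) (.rp 4 (.thr 8 40 (.thr 52 48 (.thr 53 55 (.dbl 37 5 7)))) .nd))))))))))) (.rp 26 (.thr 3 41 (.thr 51 35 (.thr 54 57 (.thr 38 6 (.str 56 (.nv (.thr 8 40 (.thr 55 4 (.dbl 59 42 63))) (.nv (.thr 52 48 (.dbl 55 4 53)) (.rp 55 (.thr 8 40 (.thr 42 59 (.thr 48 52 (.thr 50 49 (.dbl 62 2 58))))) (.rp 52 (.thr 8 40 (.thr 42 59 (.thr 62 2 (.thr 63 61 (.thr 23 43 (.thr 27 31 (.thr 39 15 (.dbl 55 4 7)))))))) (.rp 8 (.thr 4 55 (.thr 48 52 (.thr 49 50 (.thr 37 13 (.thr 53 5 (.thr 39 36 (.thr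 63 58 (.thr 23 43 (.dbl 27 15 31))))))))) (.rp 4 (.thr 8 40 (.thr 52 48 (.thr 53 55 (.dbl 37 5 7)))) .nd))))))))))) (.rp 8 (.str 4 (.nv (.thr 3 41 (.thr 26 27 (.thr 18 30 (.thr 48 33 (.thr 37 15 (.dbl 52 7 56)))))) (.nv (.thr 3 41 (.thr 51 35 (.thr 38 55 (.dbl 54 6 57)))) (.rp 51 (.str 34 (.nv (.thr 38 55 (.thr 42 46 (.thr 2 62 (.thr 18 50 (.dbl 26 27 30))))) (.nv (.thr 3 41 (.thr 26 27 (.thr 18 30 (.thr 48 33 (.thr 52 56 (.dbl 37 7 15)))))) (.nv (.thr 38 55 (.thr 26 27 (.thr 50 14 (.dbl 18 2 30)))) (.rp 30 (.thr 38 55 (.thr 26 27 (.thr 50 14 (.thr 2 18 (.dbl 42 46 62))))) (.rp 27 (.thr 38 55 (.thr 6 54 (.thr 5 7 (.thr 41 3 (.thr 9 57 (.dbl 1 13 61)))))) (.rp 26 (.thr 38 55 (.thr 6 54 (.thr 5 7 (.thr 41 3 (.thr 9 57 (.dbl 1 13 61)))))) (.rp 18 (.thr 38 55 (.thr 54 6 (.thr 26 27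 (.thr 42 46 (.thr 58 10 (.dbl 50 14 62)))))) .nd)))))))) (.rp 41 (.thr 26 27 (.thr 30 18 (.thr 15 45 (.thr 37 48 (.thr 7 52 (.dbl 5 6 53)))))) (.rp 34 (.str 51 (.nv (.thr 38 55 (.dbl 54 6 57)) (.nv (.dbl 3 35 41) .nd))) (.rp 3 (.thr 27 26 (.thr 23 31 (.thr 55 38 (.thr 7 39 (.thr 37 52 (.dbl 5 6 53)))))) .nd))))))) (.rp 4 (.str 8 (.nv (.thr 26 27 (.thr 30 18 (.thr 15 45 (.thr 56 40 (.dbl 48 37 52))))) (.nv (.thr 42 59 (.thr 62 2 (.thr 61 63 (.dbl 41 1 3)))) (.nv (.thr 26 27 (.thr 56 40 (.dbl 41 3 11))) (.rp 52 (.str 36 (.nv (.thr 42 59 (.thr 62 2 (.thr 61 63 (.dbl 41 1 3)))) (.nv (.thr 26 27 (.thr 56 40 (.dbl 41 3 11))) (.rp 51 (.str 34 (.nv (.thr 40 56 (.thr 41 3 (.dbl 42 43 59))) (.nv (.thr 42 59 (.thr 2 62 (.thr 18 50 (.dbl 26 27 30)))) (.nv (.thr 56 40 (.thr 26 27 (.dbl 41 3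 11))) .nd)))) (.rp 41 (.thr 40 56 (.thr 32 44 (.thr 26 27 (.thr 30 18 (.thr 15 45 (.thr 37 48 (.dbl 42 47 59))))))) (.rp 34 (.str 51 (.nv (.thr 56 40 (.thr 57 54 (.dbl 59 42 58))) (.nv (.dbl 3 35 41) .nd))) (.rp 3 (.thr 56 40 (.thr 26 27 (.thr 41 11 (.thr 59 42 (.dbl 57 9 58))))) .nd))))))) (.rp 51 (.str 34 (.nv (.thr 40 56 (.thr 41 3 (.dbl 42 43 59))) (.nv (.thr 42 59 (.thr 2 62 (.thr 18 50 (.dbl 26 27 30)))) (.nv (.thr 56 40 (.thr 26 27 (.dbl 41 3 11))) (.rp 52 (.str 36 (.nv (.thr 40 56 (.thr 41 3 (.dbl 42 43 59))) (.nv (.thr 42 59 (.thr 2 62 (.thr 18 50 (.dbl 26 27 30)))) (.nv (.thr 56 40 (.thr 26 27 (.dbl 41 3 11))) .nd)))) (.rp 36 (.str 52 (.nv (.dbl 56 40 48) (.rp 56 (.thr 37 7 (.thr 26 27 (.thr 30 18 (.dbl 15 45 48)))) (.rp 48 (.thr 56 40 (.thr 26 27 (.dbl 41 3 11))) (.rp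 40 (.thr 37 7 (.thr 26 27 (.dbl 48 15 56))) .nd))))) .nd)))))) (.rp 36 (.str 52 (.nv (.dbl 56 40 48) (.rp 56 (.thr 26 27 (.thr 30 18 (.thr 15 45 (.dbl 37 7 48)))) (.rp 51 (.str 34 (.nv (.dbl 56 40 48) (.rp 56 (.thr 37 7 (.thr 26 27 (.thr 30 18 (.dbl 15 45 48)))) (.rp 48 (.thr 56 40 (.thr 26 27 (.dbl 41 3 11))) (.rp 40 (.thr 37 7 (.thr 26 27 (.dbl 48 15 56))) .nd))))) (.rp 48 (.thr 26 27 (.thr 56 40 (.dbl 41 3 11))) (.rp 40 (.thr 26 27 (.thr 56 48 (.dbl 41 3 11))) (.rp 34 (.str 51 (.nv (.dbl 3 35 41) (.nv (.dbl 56 40 48) .nd))) .nd))))))) (.rp 34 (.str 51 (.nv (.thr 56 40 (.thr 57 54 (.dbl 59 42 58))) (.nv (.dbl 3 35 41) (.rp 52 (.str 36 (.nv (.thr 56 40 (.thr 57 54 (.dbl 59 42 58))) (.nv (.dbl 3 35 41) .nd))) (.rp 36 (.str 52 (.nv (.dbl 3 35 41) (.nv (.dbl 56 40 48) .nd))) .nd)))))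 .nd)))))))) (.rp 3 (.thr 26 27 (.thr 30 18 (.thr 31 16 (.thr 15 45 (.thr 63 47 (.thr 62 61 (.thr 48 37 (.thr 58 53 (.dbl 42 2 10))))))))) .nd))))))))))))) (.rp 19 (.thr 20 23 (.thr 16 28 (.dbl 26 27 31))) (.rp 16 (.thr 23 20 (.thr 19 28 (.dbl 27 26 31))) (.rp 8 (.str 4 (.nv (.thr 20 23 (.dbl 28 16 19)) (.rp 51 (.str 34 (.nv (.thr 26 27 (.thr 18 30 (.thr 38 55 (.dbl 50 2 14)))) (.nv (.thr 20 23 (.dbl 28 16 19)) .nd))) (.rp 34 (.str 51 (.nv (.thr 23 20 (.thr 27 26 (.thr 39 15 (.dbl 55 7 38)))) (.nv (.thr 20 23 (.dbl 28 16 19)) (.rp 23 (.thr 28 19 (.thr 16 20 (.dbl 26 27 31))) (.rp 20 (.thr 19 28 (.thr 27 26 (.thr 23 31 (.thr 55 38 (.dbl 39 7 15))))) .nd))))) (.rp 28 (.thr 20 23 (.thr 52 36 (.thr 7 37 (.thr 6 5 (.dbl 38 54 55))))) (.rp 23 (.thr 28 19 (.thr 16 20 (.dbl 26 27 31)))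 (.rp 20 (.thr 19 28 (.thr 27 26 (.thr 23 31 (.thr 55 38 (.thr 7 39 (.thr 5 6 (.dbl 37 52 53))))))) (.rp 19 (.thr 20 23 (.thr 16 28 (.dbl 26 27 31))) (.rp 16 (.thr 23 20 (.thr 19 28 (.dbl 27 26 31))) .nd))))))))) (.rp 4 (.str 8 (.nv (.thr 20 23 (.dbl 28 16 19)) (.rp 51 (.str 34 (.nv (.thr 26 27 (.thr 18 30 (.thr 2 50 (.dbl 42 59 62)))) (.nv (.thr 20 23 (.dbl 28 16 19)) .nd))) (.rp 34 (.str 51 (.nv (.thr 20 23 (.dbl 28 16 19)) (.rp 28 (.thr 26 27 (.thr 59 42 (.thr 56 40 (.thr 57 58 (.dbl 41 9 11))))) (.rp 23 (.thr 28 19 (.thr 16 20 (.dbl 26 27 31))) (.rp 20 (.thr 26 27 (.thr 42 59 (.thr 10 58 (.thr 11 9 (.dbl 56 40 41))))) (.rp 19 (.thr 20 23 (.thr 16 28 (.dbl 26 27 31))) (.rp 16 (.thr 27 26 (.thr 19 28 (.dbl 23 20 31))) .nd))))))) (.rp 28 (.thr 26 27 (.thr 56 40 (.thr 11 41 (.thr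 10 9 (.dbl 42 58 59))))) (.rp 23 (.thr 28 19 (.thr 16 20 (.dbl 26 27 31))) (.rp 20 (.thr 26 27 (.thr 42 59 (.thr 10 58 (.thr 11 9 (.dbl 56 40 41))))) (.rp 19 (.thr 20 23 (.thr 16 28 (.dbl 26 27 31))) (.rp 16 (.thr 27 26 (.thr 19 28 (.dbl 23 20 31))) .nd))))))))) .nd)))))))))))

theorem w21 : WinAt (39845888, 135169) :=
  chF (K := []) kn c21 39845888 135169 17
    [4369, 2251816993685505] (by decide +kernel) (by decide +kernel)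

/-- A certificate. -/
noncomputable def c22 : Ct := (.str 16 (.nv (.thr 17 29 (.thr 18 19 (.dbl 26 30 31))) (.nv (.thr 19 28 (.dbl 17 18 29)) (.rp 60 (.str 40 (.nv (.thr 17 29 (.dbl 19 18 28)) (.nv (.thr 28 19 (.thr 31 26 (.dbl 29 17 30))) (.rp 29 (.thr 26 31 (.thr 30 18 (.thr 24 27 (.thr 8 56 (.thr 42 59 (.thr 62 2 (.thr 58 10 (.thr 50 54 (.dbl 14 38 46))))))))) (.rp 28 (.str 44 (.nv (.thr 17 29 (.thr 18 19 (.dbl 26 30 31))) (.rp 63 (.thr 26 31 (.thr 30 18 (.thr 24 27 (.thr 32 36 (.thr 8 56 (.thr 42 59 (.thr 47 37 (.thr 46 45 (.dbl 62 2 14))))))))) (.rp 46 (.thr 29 17 (.thr 26 31 (.thr 24 27 (.thr 32 36 (.thr 8 56 (.thr 42 59 (.thr 37 47 (.thr 13 49 (.thr 45 61 (.dbl 41 33 43)))))))))) (.rp 31 (.str 8 (.nv (.thr 32 36 (.thr 42 59 (.thr 47 37 (.thr 46 45 (.thr 38 34 (.dbl 41 35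 43)))))) (.nv (.thr 29 17 (.thr 42 59 (.thr 41 43 (.thr 38 35 (.thr 61 1 (.thr 45 13 (.dbl 46 34 47))))))) (.nv (.thr 56 24 (.thr 42 59 (.thr 41 43 (.thr 11 26 (.dbl 9 10 57))))) (.rp 59 (.str 46 (.nv (.thr 29 17 (.thr 45 47 (.thr 61 13 (.thr 41 1 (.thr 38 35 (.dbl 42 34 43)))))) (.nv (.thr 24 56 (.thr 26 27 (.thr 30 18 (.thr 32 36 (.thr 47 45 (.thr 62 14 (.dbl 42 2 37))))))) (.nv (.thr 24 56 (.thr 26 27 (.thr 30 18 (.thr 14 62 (.thr 38 50 (.thr 41 35 (.dbl 42 34 43))))))) (.nv (.thr 29 17 (.thr 45 47 (.thr 61 13 (.thr 41 1 (.thr 9 57 (.thr 11 10 (.dbl 56 24 26))))))) (.nv (.thr 47 45 (.thr 32 36 (.thr 42 37 (.thr 41 43 (.dbl 38 34 35))))) (.rp 29 (.str 30 (.nv (.thr 47 45 (.thr 62 14 (.thr 42 2 (.dbl 32 36 37)))) (.nv (.thr 26 18 (.dbl 24 27 56)) .nd))) .nd))))))) (.rp 43 (.thr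 29 17 (.thr 32 36 (.thr 42 59 (.thr 37 47 (.thr 5 53 (.thr 13 49 (.thr 1 9 (.dbl 61 41 45)))))))) (.rp 42 (.thr 24 56 (.thr 26 27 (.thr 30 18 (.thr 36 32 (.str 37 (.nv (.thr 13 49 (.thr 29 17 (.thr 38 39 (.thr 41 35 (.dbl 45 33 61))))) (.nv (.thr 5 53 (.thr 13 49 (.thr 29 17 (.thr 61 45 (.dbl 1 9 41))))) (.nv (.thr 52 7 (.thr 38 39 (.thr 55 4 (.dbl 53 5 54)))) (.rp 52 (.thr 48 15 (.thr 29 17 (.thr 13 49 (.thr 5 53 (.thr 1 9 (.dbl 61 41 45)))))) (.rp 51 (.thr 52 7 (.thr 53 5 (.thr 54 55 (.dbl 38 6 39)))) (.rp 23 (.str 19 (.nv (.thr 13 49 (.thr 29 17 (.thr 38 39 (.thr 41 35 (.dbl 45 33 61))))) (.nv (.thr 5 53 (.thr 13 49 (.thr 1 9 (.thr 61 41 (.dbl 29 17 45))))) (.nv (.thr 52 7 (.thr 38 39 (.thr 55 4 (.dbl 53 5 54)))) (.rp 52 (.thr 48 15 (.thr 29 17 (.thr 13 49 (.thr 5 53 (.thr 1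 9 (.dbl 61 41 45)))))) .nd))))) (.rp 19 (.str 23 (.nv (.thr 52 7 (.thr 38 39 (.thr 53 5 (.dbl 54 6 55)))) (.nv (.thr 39 38 (.dbl 7 52 55)) (.rp 55 (.thr 17 29 (.thr 38 39 (.thr 41 35 (.thr 33 45 (.dbl 1 49 61))))) (.rp 52 (.thr 48 15 (.thr 29 17 (.thr 13 49 (.thr 5 53 (.thr 1 9 (.dbl 61 41 45)))))) (.rp 39 (.thr 17 29 (.thr 49 13 (.thr 1 33 (.thr 53 5 (.dbl 61 41 57))))) (.rp 38 (.thr 17 29 (.thr 49 13 (.thr 1 33 (.thr 53 5 (.dbl 61 41 57))))) (.rp 7 (.thr 17 29 (.thr 38 39 (.thr 41 35 (.thr 33 45 (.dbl 1 49 61))))) .nd)))))))) .nd)))))))))))) (.rp 41 (.thr 32 36 (.thr 24 56 (.thr 26 27 (.thr 30 18 (.thr 42 59 (.thr 47 37 (.thr 62 2 (.dbl 46 14 45)))))))) (.rp 29 (.str 30 (.nv (.thr 26 18 (.dbl 24 27 56)) (.rp 63 (.str 46 (.nv (.thr 26 18 (.dbl 24 27 56)) (.nv (.thr 62 14 (.dbl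 42 2 59)) (.rp 62 (.str 61 (.nv (.thr 47 45 (.thr 41 1 (.dbl 42 43 59))) (.nv (.thr 26 18 (.dbl 24 27 56)) (.rp 47 (.str 15 (.nv (.thr 41 1 (.dbl 42 43 59)) (.nv (.thr 26 18 (.dbl 24 27 56)) .nd))) .nd)))) (.rp 47 (.str 15 (.nv (.thr 26 18 (.dbl 24 27 56)) (.nv (.thr 62 14 (.dbl 42 2 59)) (.rp 62 (.str 61 (.nv (.thr 41 1 (.dbl 42 43 59)) (.nv (.thr 26 18 (.dbl 24 27 56)) .nd))) .nd)))) (.rp 15 (.thr 47 45 (.thr 26 18 (.dbl 24 27 56))) .nd)))))) (.rp 56 (.thr 32 36 (.thr 42 59 (.thr 47 37 (.thr 46 45 (.dbl 62 2 14))))) (.rp 46 (.str 63 (.nv (.thr 26 18 (.dbl 24 27 56)) (.rp 56 (.thr 32 36 (.thr 26 18 (.thr 42 59 (.thr 58 10 (.thr 48 53 (.dbl 37 15 47)))))) (.rp 27 (.thr 56 24 (.thr 26 18 (.thr 42 59 (.dbl 41 11 43)))) (.rp 26 (.thr 32 36 (.thr 42 59 (.thr 37 47 (.thr 41 43 (.thr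 33 45 (.dbl 35 34 38)))))) (.rp 24 (.thr 26 18 (.thr 42 59 (.thr 10 58 (.thr 41 43 (.dbl 9 11 57))))) (.rp 18 (.thr 56 24 (.thr 42 59 (.thr 41 43 (.thr 9 57 (.dbl 11 10 26))))) .nd))))))) (.rp 27 (.thr 26 18 (.thr 56 24 (.thr 41 11 (.dbl 42 43 59)))) (.rp 26 (.thr 32 36 (.thr 42 59 (.thr 47 37 (.thr 46 45 (.dbl 62 2 14))))) (.rp 24 (.thr 26 18 (.thr 42 59 (.thr 41 43 (.thr 11 56 (.dbl 9 10 57))))) (.rp 18 (.thr 32 36 (.thr 42 59 (.thr 47 37 (.thr 46 45 (.dbl 62 2 14))))) .nd))))))))) .nd))))))))) (.rp 30 (.thr 29 17 (.thr 26 31 (.thr 24 27 (.thr 32 36 (.thr 8 56 (.thr 42 59 (.thr 37 47 (.thr 13 49 (.thr 45 61 (.dbl 41 33 43)))))))))) (.rp 29 (.thr 26 31 (.thr 30 18 (.thr 24 27 (.thr 32 36 (.thr 8 56 (.thr 42 59 (.thr 47 37 (.thr 46 45 (.dbl 62 2 14))))))))) (.rp 26 (.str 42 (.nv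 (.thr 2 62 (.thr 17 29 (.thr 18 19 (.thr 32 36 (.thr 34 50 (.thr 35 33 (.dbl 38 41 46))))))) (.nv (.thr 17 29 (.thr 41 43 (.thr 9 57 (.thr 1 61 (.thr 13 5 (.dbl 49 33 37)))))) (.nv (.thr 32 36 (.thr 41 43 (.thr 38 35 (.thr 47 37 (.dbl 46 34 45))))) (.rp 46 (.thr 32 36 (.thr 41 43 (.thr 35 38 (.thr 33 34 (.dbl 37 45 47))))) (.rp 41 (.thr 17 29 (.thr 18 19 (.thr 32 36 (.thr 47 37 (.thr 2 62 (.thr 34 50 (.dbl 46 38 45))))))) (.rp 8 (.str 4 (.nv (.thr 32 36 (.thr 37 47 (.thr 5 53 (.dbl 7 6 52)))) (.nv (.thr 41 43 (.dbl 38 35 55)) .nd))) (.rp 4 (.thr 8 59 (.thr 41 43 (.thr 38 35 (.thr 46 34 (.thr 47 45 (.dbl 32 36 37)))))) .nd)))))))) (.rp 19 (.str 8 (.nv (.thr 26 31 (.dbl 24 27 56)) (.nv (.thr 24 56 (.dbl 26 27 31)) (.rp 56 (.thr 32 36 (.thr 42 59 (.thr 37 47 (.thr 41 43 (.thr 33 45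 (.dbl 35 34 38)))))) (.rp 31 (.thr 56 24 (.thr 42 59 (.thr 41 43 (.thr 11 26 (.dbl 9 10 57))))) (.rp 27 (.thr 56 24 (.thr 42 59 (.thr 41 43 (.thr 11 26 (.dbl 9 10 57))))) (.rp 26 (.thr 32 36 (.thr 42 59 (.thr 37 47 (.thr 41 43 (.thr 33 45 (.dbl 35 34 38)))))) (.rp 24 (.thr 26 31 (.thr 42 59 (.thr 41 43 (.thr 11 56 (.dbl 9 10 57))))) .nd)))))))) (.rp 18 (.thr 26 31 (.thr 24 27 (.thr 32 36 (.thr 8 56 (.thr 42 59 (.thr 47 37 (.thr 46 45 (.thr 38 34 (.dbl 41 35 43))))))))) (.rp 17 (.thr 26 31 (.thr 30 18 (.thr 24 27 (.thr 32 36 (.thr 8 56 (.thr 42 59 (.thr 47 37 (.thr 46 45 (.dbl 62 2 14))))))))) (.rp 8 (.str 4 (.nv (.thr 36 32 (.thr 38 55 (.thr 6 54 (.thr 5 7 (.dbl 37 39 53))))) (.nv (.thr 17 29 (.thr 18 19 (.dbl 26 30 31))) .nd))) (.rp 4 (.str 8 (.nv (.thr 36 32 (.thr 17 29 (.thr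 18 19 (.dbl 26 30 31)))) (.nv (.thr 24 56 (.dbl 26 27 31)) (.rp 36 (.str 52 (.nv (.thr 17 29 (.thr 18 19 (.dbl 26 30 31))) (.nv (.thr 24 56 (.dbl 26 27 31)) (.rp 31 (.thr 37 7 (.thr 42 59 (.thr 41 43 (.thr 45 33 (.dbl 47 32 46))))) (.rp 26 (.thr 37 7 (.thr 42 59 (.thr 41 43 (.thr 45 33 (.dbl 47 32 46))))) (.rp 24 (.str 48 (.nv (.thr 17 29 (.thr 18 19 (.dbl 26 30 31))) (.nv (.thr 37 7 (.dbl 26 15 31)) (.rp 31 (.thr 37 7 (.thr 42 59 (.thr 41 43 (.thr 45 33 (.dbl 47 32 46))))) (.rp 26 (.thr 17 29 (.thr 37 7 (.thr 49 13 (.thr 33 1 (.dbl 18 3 19))))) .nd))))) .nd)))))) (.rp 31 (.thr 56 24 (.thr 42 59 (.thr 41 43 (.thr 11 26 (.dbl 9 10 57))))) (.rp 26 (.thr 42 59 (.thr 41 43 (.thr 38 35 (.thr 46 34 (.thr 47 45 (.dbl 32 36 37)))))) .nd)))))) .nd))))))))))))) (.rp 19 (.str 8 (.nv (.thr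 26 31 (.dbl 24 27 56)) (.rp 56 (.thr 29 17 (.thr 42 59 (.thr 41 43 (.thr 61 1 (.thr 13 45 (.thr 57 9 (.dbl 49 37 53))))))) (.rp 44 (.str 28 (.nv (.thr 24 56 (.dbl 26 27 31)) (.nv (.thr 31 26 (.dbl 29 17 30)) (.rp 31 (.thr 56 24 (.thr 42 59 (.thr 41 43 (.thr 11 26 (.dbl 9 10 57))))) (.rp 26 (.thr 29 17 (.thr 42 59 (.thr 41 43 (.thr 61 1 (.thr 13 45 (.thr 57 9 (.dbl 49 37 53))))))) .nd))))) (.rp 31 (.thr 56 24 (.thr 42 59 (.thr 41 43 (.thr 11 26 (.dbl 9 10 57))))) (.rp 28 (.str 44 (.nv (.thr 26 31 (.dbl 24 27 56)) (.nv (.thr 24 56 (.dbl 26 27 31)) (.rp 56 (.thr 32 36 (.thr 42 59 (.thr 37 47 (.thr 41 43 (.thr 33 45 (.dbl 35 34 38)))))) (.rp 31 (.thr 56 24 (.thr 42 59 (.thr 41 43 (.thr 11 26 (.dbl 9 10 57))))) (.rp 27 (.thr 56 24 (.thr 42 59 (.thr 41 43 (.thr 11 26 (.dbl 9 10 57)))))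 (.rp 26 (.thr 32 36 (.thr 42 59 (.thr 37 47 (.thr 41 43 (.thr 33 45 (.dbl 35 34 38)))))) (.rp 24 (.thr 26 31 (.thr 42 59 (.thr 41 43 (.thr 11 56 (.dbl 9 10 57))))) .nd)))))))) (.rp 27 (.thr 56 24 (.thr 42 59 (.thr 41 43 (.thr 11 26 (.dbl 9 10 57))))) (.rp 26 (.thr 29 17 (.thr 42 59 (.thr 41 43 (.thr 61 1 (.thr 13 45 (.thr 57 9 (.dbl 49 37 53))))))) (.rp 24 (.thr 26 31 (.thr 42 59 (.thr 41 43 (.thr 11 56 (.dbl 9 10 57))))) (.rp 23 (.thr 24 56 (.dbl 26 27 31)) .nd)))))))))) (.rp 17 (.thr 26 31 (.thr 30 18 (.thr 24 27 (.thr 8 56 (.thr 42 59 (.thr 62 2 (.thr 14 46 (.thr 58 10 (.dbl 50 38 54))))))))) (.rp 8 (.str 4 (.nv (.thr 17 29 (.dbl 19 18 28)) (.nv (.thr 28 19 (.thr 31 26 (.dbl 29 17 30))) (.rp 29 (.thr 26 31 (.thr 30 18 (.thr 38 55 (.thr 6 54 (.thr 14 50 (.thr 2 10 (.dbl 62 42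 46))))))) (.rp 28 (.str 44 (.nv (.thr 36 32 (.thr 38 55 (.thr 6 54 (.thr 5 7 (.dbl 37 39 53))))) (.nv (.thr 17 29 (.thr 18 19 (.dbl 26 30 31))) .nd))) (.rp 19 (.thr 26 31 (.thr 30 18 (.thr 38 55 (.thr 6 54 (.thr 14 50 (.thr 2 10 (.dbl 62 42 46))))))) (.rp 17 (.thr 26 31 (.thr 30 18 (.thr 38 55 (.thr 6 54 (.thr 14 50 (.thr 2 10 (.dbl 62 42 46))))))) .nd))))))) (.rp 4 (.str 8 (.nv (.thr 17 29 (.dbl 19 18 28)) (.nv (.thr 26 31 (.dbl 24 27 56)) (.rp 52 (.str 36 (.nv (.thr 17 29 (.dbl 19 18 28)) (.nv (.thr 26 31 (.dbl 24 27 56)) (.rp 56 (.str 48 (.nv (.thr 28 19 (.thr 29 17 (.dbl 31 26 30))) (.nv (.thr 26 31 (.thr 37 15 (.thr 42 59 (.dbl 32 44 47)))) (.nv (.thr 44 32 (.thr 19 28 (.dbl 17 18 29))) (.rp 28 (.thr 44 32 (.thr 17 29 (.thr 18 19 (.dbl 26 30 31)))) .nd))))) (.rp 48 (.thr 56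 24 (.thr 17 29 (.dbl 19 18 28))) (.rp 44 (.thr 28 19 (.thr 29 17 (.dbl 31 26 30))) (.rp 28 (.thr 44 32 (.thr 26 31 (.dbl 24 27 56))) .nd))))))) (.rp 44 (.thr 28 19 (.thr 29 17 (.dbl 31 26 30))) (.rp 36 (.str 52 (.nv (.thr 17 29 (.dbl 19 18 28)) (.nv (.thr 24 56 (.dbl 26 27 31)) (.rp 44 (.thr 28 19 (.thr 24 56 (.dbl 26 27 31))) (.rp 28 (.str 44 (.nv (.thr 17 29 (.thr 18 19 (.dbl 26 30 31))) (.nv (.thr 24 56 (.dbl 26 27 31)) (.rp 31 (.thr 37 7 (.thr 42 59 (.thr 41 43 (.thr 45 33 (.dbl 47 32 46))))) (.rp 26 (.thr 37 7 (.thr 42 59 (.thr 41 43 (.thr 45 33 (.dbl 47 32 46))))) (.rp 24 (.str 48 (.nv (.thr 17 29 (.thr 18 19 (.dbl 26 30 31))) (.nv (.thr 37 7 (.dbl 26 15 31)) (.rp 31 (.thr 37 7 (.thr 42 59 (.thr 41 43 (.thr 45 33 (.dbl 47 32 46))))) (.rp 26 (.thr 17 29 (.thr 37 7 (.thr 49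 13 (.thr 33 1 (.dbl 18 3 19))))) .nd))))) .nd)))))) (.rp 24 (.str 48 (.nv (.thr 17 29 (.dbl 19 18 28)) (.nv (.thr 26 31 (.dbl 37 7 15)) (.rp 44 (.thr 28 19 (.thr 29 17 (.dbl 31 26 30))) (.rp 28 (.str 44 (.nv (.thr 17 29 (.thr 18 19 (.dbl 26 30 31))) (.nv (.thr 37 7 (.dbl 26 15 31)) (.rp 31 (.thr 37 7 (.thr 42 59 (.thr 41 43 (.thr 45 33 (.dbl 47 32 46))))) (.rp 26 (.thr 17 29 (.thr 37 7 (.thr 49 13 (.thr 33 1 (.dbl 18 3 19))))) .nd))))) .nd))))) .nd)))))) (.rp 28 (.str 44 (.nv (.thr 36 32 (.thr 17 29 (.thr 18 19 (.dbl 26 30 31)))) (.nv (.thr 24 56 (.dbl 26 27 31)) (.rp 36 (.str 52 (.nv (.thr 17 29 (.thr 18 19 (.dbl 26 30 31))) (.nv (.thr 24 56 (.dbl 26 27 31)) (.rp 31 (.thr 37 7 (.thr 42 59 (.thr 41 43 (.thr 45 33 (.dbl 47 32 46))))) (.rp 26 (.thr 37 7 (.thr 42 59 (.thr 41 43 (.thr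 45 33 (.dbl 47 32 46))))) (.rp 24 (.str 48 (.nv (.thr 17 29 (.thr 18 19 (.dbl 26 30 31))) (.nv (.thr 37 7 (.dbl 26 15 31)) (.rp 31 (.thr 37 7 (.thr 42 59 (.thr 41 43 (.thr 45 33 (.dbl 47 32 46))))) (.rp 26 (.thr 17 29 (.thr 37 7 (.thr 49 13 (.thr 33 1 (.dbl 18 3 19))))) .nd))))) .nd)))))) (.rp 31 (.thr 56 24 (.thr 42 59 (.thr 41 43 (.thr 11 26 (.dbl 9 10 57))))) (.rp 26 (.thr 42 59 (.thr 41 43 (.thr 38 35 (.thr 46 34 (.thr 47 45 (.dbl 32 36 37)))))) .nd)))))) .nd))))))) .nd))))))))) (.rp 40 (.str 60 (.nv (.thr 19 28 (.dbl 17 18 29)) (.rp 29 (.thr 19 28 (.thr 18 17 (.dbl 26 30 31))) (.rp 28 (.thr 17 29 (.thr 18 19 (.dbl 26 30 31))) (.rp 19 (.thr 31 26 (.thr 29 17 (.thr 30 28 (.thr 45 15 (.thr 41 3 (.dbl 61 1 13)))))) (.rp 18 (.thr 31 26 (.thr 28 19 (.dbl 29 17 30))) (.rp 17 (.thr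 26 31 (.thr 30 18 (.thr 15 45 (.thr 48 37 (.thr 56 52 (.dbl 41 3 11)))))) (.rp 8 (.str 4 (.nv (.thr 38 55 (.thr 54 6 (.thr 57 51 (.dbl 41 3 9)))) (.nv (.thr 19 28 (.dbl 17 18 29)) (.rp 56 (.str 24 (.nv (.thr 17 29 (.dbl 19 18 28)) (.nv (.dbl 26 27 31) .nd))) (.rp 24 (.str 56 (.nv (.thr 48 52 (.thr 17 29 (.dbl 19 18 28))) (.nv (.thr 26 31 (.dbl 41 3 11)) (.rp 48 (.str 36 (.nv (.thr 19 28 (.dbl 17 18 29)) (.nv (.thr 26 31 (.dbl 41 3 11)) .nd))) .nd)))) (.rp 17 (.thr 19 28 (.thr 38 55 (.thr 54 6 (.thr 51 57 (.dbl 3 35 41))))) .nd)))))) (.rp 4 (.str 8 (.nv (.thr 26 31 (.thr 41 3 (.thr 9 57 (.dbl 11 10 56)))) (.nv (.thr 19 28 (.dbl 17 18 29)) (.rp 52 (.str 36 (.nv (.thr 26 31 (.thr 41 3 (.thr 9 57 (.dbl 11 10 56)))) (.nv (.thr 19 28 (.dbl 17 18 29)) .nd))) (.rp 36 (.str 52 (.nv (.thr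 48 56 (.thr 26 31 (.dbl 37 7 15))) (.nv (.thr 19 28 (.dbl 17 18 29)) (.rp 48 (.str 24 (.nv (.thr 17 29 (.dbl 19 18 28)) (.nv (.dbl 26 27 31) (.rp 44 (.str 32 (.nv (.thr 17 29 (.dbl 19 18 28)) (.nv (.dbl 26 27 31) .nd))) (.rp 32 (.str 44 (.nv (.thr 17 29 (.dbl 19 18 28)) (.nv (.dbl 26 27 31) .nd))) .nd))))) (.rp 44 (.str 32 (.nv (.thr 48 56 (.thr 26 31 (.dbl 37 7 15))) (.nv (.thr 19 28 (.dbl 17 18 29)) (.rp 48 (.str 24 (.nv (.thr 17 29 (.dbl 19 18 28)) (.nv (.dbl 26 27 31) .nd))) .nd)))) (.rp 32 (.str 44 (.nv (.thr 48 56 (.thr 26 31 (.dbl 37 7 15))) (.nv (.thr 19 28 (.dbl 17 18 29)) (.rp 48 (.str 24 (.nv (.thr 17 29 (.dbl 19 18 28)) (.nv (.dbl 26 27 31) .nd))) .nd)))) .nd)))))) .nd))))) .nd))))))))) (.rp 29 (.thr 19 28 (.thr 18 17 (.dbl 26 30 31))) (.rp 19 (.str 60 (.nv (.thr 26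 31 (.thr 27 24 (.thr 41 3 (.thr 9 57 (.thr 11 56 (.thr 59 43 (.dbl 8 10 42))))))) (.nv (.thr 17 29 (.thr 41 3 (.thr 9 57 (.thr 1 61 (.thr 13 5 (.dbl 49 33 37)))))) (.nv (.thr 3 41 (.thr 26 31 (.thr 30 18 (.thr 15 45 (.thr 7 11 (.dbl 37 48 52)))))) (.rp 41 (.thr 26 31 (.thr 30 18 (.thr 27 24 (.thr 15 45 (.thr 51 39 (.thr 54 57 (.thr 38 6 (.thr 50 14 (.dbl 48 37 49))))))))) (.rp 8 (.str 4 (.nv (.thr 3 41 (.thr 26 31 (.thr 18 30 (.thr 48 33 (.thr 52 56 (.dbl 37 7 15)))))) (.nv (.thr 38 55 (.thr 54 6 (.thr 57 51 (.dbl 41 3 9)))) (.rp 41 (.thr 26 31 (.thr 30 18 (.thr 15 45 (.thr 37 48 (.thr 7 52 (.dbl 5 6 53)))))) (.rp 3 (.thr 26 31 (.thr 30 18 (.thr 27 24 (.thr 38 55 (.thr 15 45 (.thr 51 39 (.dbl 54 6 57))))))) .nd))))) (.rp 4 (.str 8 (.nv (.thr 17 29 (.thr 41 3 (.thr 1 61 (.thr 9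 57 (.thr 13 5 (.dbl 49 33 37)))))) (.nv (.thr 26 31 (.thr 27 24 (.thr 59 42 (.thr 11 43 (.dbl 41 3 56))))) (.rp 52 (.str 36 (.nv (.thr 17 29 (.thr 41 3 (.thr 1 61 (.thr 9 57 (.thr 13 5 (.dbl 49 33 37)))))) (.nv (.thr 26 31 (.thr 27 24 (.thr 59 42 (.thr 11 43 (.dbl 41 3 56))))) (.rp 41 (.thr 26 31 (.thr 30 18 (.thr 15 45 (.thr 37 48 (.thr 27 24 (.dbl 39 38 51)))))) (.rp 3 (.thr 26 31 (.thr 27 24 (.thr 59 42 (.thr 11 43 (.thr 9 10 (.dbl 41 56 57)))))) .nd))))) (.rp 41 (.thr 26 31 (.thr 18 30 (.thr 42 59 (.thr 10 58 (.thr 2 62 (.thr 14 6 (.dbl 50 34 38))))))) (.rp 36 (.str 52 (.nv (.thr 42 59 (.thr 62 2 (.thr 61 63 (.dbl 41 1 3)))) (.nv (.thr 26 31 (.thr 56 48 (.dbl 24 27 40))) (.rp 48 (.str 24 (.nv (.thr 40 56 (.thr 41 3 (.dbl 42 43 59))) (.nv (.dbl 26 27 31) .nd))) (.rp 24 (.thr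 48 56 (.thr 26 31 (.dbl 37 7 15))) .nd))))) (.rp 3 (.thr 26 31 (.thr 27 24 (.thr 59 42 (.thr 11 43 (.thr 9 10 (.dbl 41 56 57)))))) .nd))))))) (.rp 3 (.thr 26 31 (.thr 30 18 (.thr 27 24 (.thr 15 45 (.thr 51 39 (.thr 54 57 (.thr 48 37 (.thr 50 49 (.dbl 38 6 14))))))))) .nd)))))))) (.rp 18 (.thr 29 17 (.thr 28 19 (.dbl 31 26 30))) (.rp 17 (.thr 26 31 (.str 60 (.nv (.thr 3 41 (.thr 19 28 (.thr 30 18 (.thr 15 45 (.thr 51 35 (.dbl 27 24 39)))))) (.nv (.thr 27 24 (.thr 41 3 (.thr 9 57 (.thr 11 56 (.thr 59 43 (.dbl 8 10 42)))))) (.nv (.thr 3 41 (.thr 30 18 (.thr 15 45 (.thr 7 11 (.dbl 37 48 52))))) (.rp 51 (.str 34 (.nv (.thr 27 24 (.thr 41 3 (.thr 9 57 (.thr 11 56 (.thr 59 43 (.dbl 8 10 42)))))) (.nv (.thr 3 41 (.thr 30 18 (.thr 15 45 (.thr 7 11 (.dbl 37 48 52))))) (.rp 48 (.thr 24 27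 (.thr 41 3 (.thr 56 11 (.thr 8 40 (.thr 59 42 (.dbl 57 9 58)))))) (.rp 41 (.thr 30 18 (.thr 15 45 (.thr 37 48 (.thr 53 5 (.thr 49 13 (.thr 61 57 (.thr 62 63 (.thr 42 2 (.dbl 46 14 38))))))))) (.rp 11 (.thr 18 30 (.thr 2 50 (.thr 62 42 (.thr 61 63 (.dbl 41 1 3))))) (.rp 8 (.str 4 (.nv (.thr 38 55 (.thr 50 14 (.thr 2 18 (.dbl 42 46 62)))) (.nv (.thr 3 41 (.thr 30 18 (.thr 15 45 (.thr 7 11 (.dbl 37 48 52))))) (.nv (.thr 18 30 (.thr 50 2 (.dbl 38 14 55))) (.rp 18 (.thr 38 55 (.thr 42 46 (.thr 62 2 (.thr 58 10 (.dbl 50 14 54))))) .nd))))) (.rp 4 (.str 8 (.nv (.thr 24 27 (.thr 56 40 (.dbl 41 3 11))) (.nv (.thr 42 59 (.thr 2 62 (.dbl 18 30 50))) (.rp 52 (.str 36 (.nv (.thr 24 27 (.thr 56 40 (.dbl 41 3 11))) (.nv (.thr 42 59 (.thr 2 62 (.dbl 18 30 50))) .nd))) (.rp 36 (.str 52 (.nv (.thr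 18 30 (.thr 2 50 (.dbl 42 59 62))) (.nv (.thr 48 56 (.dbl 37 7 15)) (.rp 48 (.thr 24 27 (.thr 56 40 (.dbl 41 3 11))) .nd)))) .nd))))) (.rp 3 (.thr 24 27 (.thr 18 30 (.thr 2 50 (.thr 42 62 (.thr 8 59 (.thr 56 40 (.thr 11 41 (.dbl 10 9 58)))))))) .nd))))))))) (.rp 41 (.thr 30 18 (.thr 19 28 (.thr 27 24 (.thr 15 45 (.thr 51 39 (.thr 3 35 (.thr 7 11 (.dbl 37 48 52)))))))) (.rp 34 (.str 51 (.nv (.thr 27 24 (.thr 15 39 (.dbl 30 18 45))) (.nv (.thr 57 54 (.dbl 41 3 9)) (.rp 8 (.str 4 (.nv (.thr 19 28 (.dbl 3 35 41)) (.nv (.thr 54 57 (.dbl 38 6 55)) .nd))) (.rp 4 (.str 8 (.nv (.thr 27 24 (.thr 15 39 (.dbl 30 18 45))) (.nv (.thr 57 54 (.dbl 41 3 9)) (.rp 52 (.str 36 (.nv (.thr 27 24 (.thr 15 39 (.dbl 30 18 45))) (.nv (.thr 3 41 (.dbl 19 28 35)) .nd))) (.rp 36 (.str 52 (.nv (.thr 24 27 (.thr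 3 41 (.dbl 19 28 35))) (.nv (.thr 48 56 (.dbl 37 7 15)) .nd))) .nd))))) .nd))))) (.rp 8 (.str 4 (.nv (.thr 30 18 (.thr 15 45 (.thr 48 37 (.thr 56 52 (.dbl 41 3 11))))) (.nv (.thr 3 41 (.thr 38 55 (.thr 54 6 (.thr 51 57 (.dbl 19 28 35))))) (.rp 51 (.str 34 (.nv (.thr 38 55 (.thr 50 14 (.thr 2 18 (.dbl 42 46 62)))) (.nv (.thr 3 41 (.thr 30 18 (.thr 15 45 (.thr 7 11 (.dbl 37 48 52))))) (.nv (.thr 18 30 (.thr 50 2 (.dbl 38 14 55))) (.rp 18 (.thr 38 55 (.thr 42 46 (.thr 62 2 (.thr 58 10 (.dbl 50 14 54))))) .nd))))) (.rp 41 (.thr 30 18 (.thr 15 45 (.thr 37 48 (.thr 7 52 (.dbl 5 6 53))))) (.rp 34 (.str 51 (.nv (.thr 19 28 (.dbl 3 35 41)) (.nv (.thr 54 57 (.dbl 38 6 55)) .nd))) (.rp 3 (.thr 30 18 (.thr 27 24 (.thr 38 55 (.thr 15 45 (.thr 51 39 (.dbl 54 6 57)))))) .nd))))))) (.rp 4 (.str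 8 (.nv (.thr 24 27 (.thr 30 18 (.thr 15 45 (.thr 56 40 (.dbl 48 37 52))))) (.nv (.thr 42 59 (.thr 62 2 (.thr 61 63 (.dbl 41 1 3)))) (.nv (.thr 24 27 (.thr 56 40 (.dbl 41 3 11))) (.rp 52 (.str 36 (.nv (.thr 24 27 (.thr 56 40 (.dbl 41 3 11))) (.nv (.thr 42 59 (.thr 62 2 (.thr 61 63 (.dbl 41 1 3)))) (.nv (.thr 41 3 (.thr 9 57 (.dbl 11 10 56))) (.rp 51 (.str 34 (.nv (.thr 24 27 (.thr 56 40 (.dbl 41 3 11))) (.nv (.thr 42 59 (.thr 2 62 (.dbl 18 30 50))) .nd))) (.rp 41 (.thr 30 18 (.thr 15 45 (.thr 37 48 (.thr 27 24 (.dbl 39 38 51))))) (.rp 34 (.str 51 (.nv (.thr 27 24 (.thr 15 39 (.dbl 30 18 45))) (.nv (.thr 3 41 (.dbl 19 28 35)) .nd))) (.rp 3 (.thr 24 27 (.thr 56 40 (.thr 41 11 (.thr 59 42 (.dbl 57 9 58))))) .nd)))))))) (.rp 51 (.str 34 (.nv (.thr 24 27 (.thr 56 40 (.dbl 41 3 11)))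 (.nv (.thr 42 59 (.thr 2 62 (.dbl 18 30 50))) (.rp 52 (.str 36 (.nv (.thr 24 27 (.thr 56 40 (.dbl 41 3 11))) (.nv (.thr 42 59 (.thr 2 62 (.dbl 18 30 50))) .nd))) (.rp 36 (.str 52 (.nv (.thr 18 30 (.thr 2 50 (.dbl 42 59 62))) (.nv (.thr 48 56 (.dbl 37 7 15)) (.rp 48 (.thr 24 27 (.thr 56 40 (.dbl 41 3 11))) .nd)))) .nd))))) (.rp 36 (.str 52 (.nv (.thr 48 56 (.dbl 37 7 15)) (.nv (.thr 56 48 (.dbl 24 27 40)) (.rp 56 (.thr 30 18 (.thr 15 45 (.dbl 37 7 48))) (.rp 51 (.str 34 (.nv (.thr 18 30 (.thr 2 50 (.dbl 42 59 62))) (.nv (.thr 48 56 (.dbl 37 7 15)) (.rp 48 (.thr 24 27 (.thr 56 40 (.dbl 41 3 11))) .nd)))) (.rp 48 (.thr 24 27 (.thr 56 40 (.dbl 41 3 11))) (.rp 34 (.str 51 (.nv (.thr 24 27 (.thr 3 41 (.dbl 19 28 35))) (.nv (.thr 48 56 (.dbl 37 7 15)) .nd))) .nd))))))) (.rp 34 (.str 51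 (.nv (.thr 27 24 (.thr 15 39 (.dbl 30 18 45))) (.nv (.thr 57 54 (.dbl 41 3 9)) (.rp 52 (.str 36 (.nv (.thr 27 24 (.thr 15 39 (.dbl 30 18 45))) (.nv (.thr 3 41 (.dbl 19 28 35)) .nd))) (.rp 36 (.str 52 (.nv (.thr 24 27 (.thr 3 41 (.dbl 19 28 35))) (.nv (.thr 48 56 (.dbl 37 7 15)) .nd))) .nd))))) .nd)))))))) (.rp 3 (.thr 30 18 (.thr 27 24 (.thr 15 45 (.thr 51 39 (.thr 54 57 (.thr 48 37 (.thr 50 49 (.dbl 38 6 14)))))))) .nd))))))))))) (.rp 8 (.str 4 (.nv (.thr 17 29 (.thr 18 19 (.dbl 26 30 31))) (.nv (.thr 19 28 (.dbl 17 18 29)) (.rp 60 (.str 40 (.nv (.thr 17 29 (.dbl 19 18 28)) (.nv (.thr 28 19 (.thr 31 26 (.dbl 29 17 30))) (.rp 29 (.thr 26 31 (.thr 30 18 (.thr 38 55 (.thr 6 54 (.thr 14 50 (.thr 2 10 (.dbl 62 42 46))))))) (.rp 28 (.str 44 (.nv (.thr 36 32 (.thr 38 55 (.thr 6 54 (.thr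 5 7 (.dbl 37 39 53))))) (.nv (.thr 17 29 (.thr 18 19 (.dbl 26 30 31))) .nd))) (.rp 19 (.thr 26 31 (.thr 30 18 (.thr 38 55 (.thr 6 54 (.thr 14 50 (.thr 2 10 (.dbl 62 42 46))))))) (.rp 17 (.thr 26 31 (.thr 30 18 (.thr 38 55 (.thr 6 54 (.thr 14 50 (.thr 2 10 (.dbl 62 42 46))))))) .nd))))))) (.rp 40 (.str 60 (.nv (.thr 38 55 (.thr 54 6 (.thr 57 51 (.dbl 41 3 9)))) (.nv (.thr 19 28 (.dbl 17 18 29)) (.rp 56 (.str 24 (.nv (.thr 17 29 (.dbl 19 18 28)) (.nv (.dbl 26 27 31) .nd))) (.rp 24 (.str 56 (.nv (.thr 48 52 (.thr 17 29 (.dbl 19 18 28))) (.nv (.thr 26 31 (.dbl 41 3 11)) (.rp 48 (.str 36 (.nv (.thr 19 28 (.dbl 17 18 29)) (.nv (.thr 26 31 (.dbl 41 3 11)) .nd))) .nd)))) (.rp 17 (.thr 19 28 (.thr 38 55 (.thr 54 6 (.thr 51 57 (.dbl 3 35 41))))) .nd)))))) (.rp 29 (.thr 19 28 (.thr 18 17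 (.dbl 26 30 31))) (.rp 19 (.thr 26 31 (.thr 18 30 (.thr 38 55 (.thr 54 6 (.thr 50 14 (.thr 62 58 (.dbl 2 34 42))))))) (.rp 18 (.thr 29 17 (.thr 28 19 (.dbl 31 26 30))) (.rp 17 (.thr 19 28 (.thr 31 26 (.thr 23 27 (.thr 55 38 (.thr 7 39 (.thr 5 6 (.dbl 37 52 53))))))) .nd))))))))) (.rp 4 (.str 8 (.nv (.thr 17 29 (.thr 18 19 (.dbl 26 30 31))) (.nv (.thr 19 28 (.dbl 17 18 29)) (.rp 60 (.str 40 (.nv (.thr 17 29 (.dbl 19 18 28)) (.nv (.thr 26 31 (.dbl 24 27 56)) (.rp 52 (.str 36 (.nv (.thr 17 29 (.dbl 19 18 28)) (.nv (.thr 26 31 (.dbl 24 27 56)) (.rp 56 (.str 48 (.nv (.thr 28 19 (.thr 29 17 (.dbl 31 26 30))) (.nv (.thr 26 31 (.thr 37 15 (.thr 42 59 (.dbl 32 44 47)))) (.nv (.thr 44 32 (.thr 19 28 (.dbl 17 18 29))) (.rp 28 (.thr 44 32 (.thr 17 29 (.thr 18 19 (.dbl 26 30 31)))) .nd)))))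 (.rp 48 (.thr 56 24 (.thr 17 29 (.dbl 19 18 28))) (.rp 44 (.thr 28 19 (.thr 29 17 (.dbl 31 26 30))) (.rp 28 (.thr 44 32 (.thr 26 31 (.dbl 24 27 56))) .nd))))))) (.rp 44 (.thr 28 19 (.thr 29 17 (.dbl 31 26 30))) (.rp 36 (.str 52 (.nv (.thr 17 29 (.dbl 19 18 28)) (.nv (.thr 24 56 (.dbl 26 27 31)) (.rp 44 (.thr 28 19 (.thr 24 56 (.dbl 26 27 31))) (.rp 28 (.str 44 (.nv (.thr 17 29 (.thr 18 19 (.dbl 26 30 31))) (.nv (.thr 24 56 (.dbl 26 27 31)) (.rp 31 (.thr 37 7 (.thr 42 59 (.thr 41 43 (.thr 45 33 (.dbl 47 32 46))))) (.rp 26 (.thr 37 7 (.thr 42 59 (.thr 41 43 (.thr 45 33 (.dbl 47 32 46))))) (.rp 24 (.str 48 (.nv (.thr 17 29 (.thr 18 19 (.dbl 26 30 31))) (.nv (.thr 37 7 (.dbl 26 15 31)) (.rp 31 (.thr 37 7 (.thr 42 59 (.thr 41 43 (.thr 45 33 (.dbl 47 32 46))))) (.rp 26 (.thr 17 29 (.thr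 37 7 (.thr 49 13 (.thr 33 1 (.dbl 18 3 19))))) .nd))))) .nd)))))) (.rp 24 (.str 48 (.nv (.thr 17 29 (.dbl 19 18 28)) (.nv (.thr 26 31 (.dbl 37 7 15)) (.rp 44 (.thr 28 19 (.thr 29 17 (.dbl 31 26 30))) (.rp 28 (.str 44 (.nv (.thr 17 29 (.thr 18 19 (.dbl 26 30 31))) (.nv (.thr 37 7 (.dbl 26 15 31)) (.rp 31 (.thr 37 7 (.thr 42 59 (.thr 41 43 (.thr 45 33 (.dbl 47 32 46))))) (.rp 26 (.thr 17 29 (.thr 37 7 (.thr 49 13 (.thr 33 1 (.dbl 18 3 19))))) .nd))))) .nd))))) .nd)))))) (.rp 28 (.str 44 (.nv (.thr 36 32 (.thr 17 29 (.thr 18 19 (.dbl 26 30 31)))) (.nv (.thr 24 56 (.dbl 26 27 31)) (.rp 36 (.str 52 (.nv (.thr 17 29 (.thr 18 19 (.dbl 26 30 31))) (.nv (.thr 24 56 (.dbl 26 27 31)) (.rp 31 (.thr 37 7 (.thr 42 59 (.thr 41 43 (.thr 45 33 (.dbl 47 32 46))))) (.rp 26 (.thr 37 7 (.thr 42 59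 (.thr 41 43 (.thr 45 33 (.dbl 47 32 46))))) (.rp 24 (.str 48 (.nv (.thr 17 29 (.thr 18 19 (.dbl 26 30 31))) (.nv (.thr 37 7 (.dbl 26 15 31)) (.rp 31 (.thr 37 7 (.thr 42 59 (.thr 41 43 (.thr 45 33 (.dbl 47 32 46))))) (.rp 26 (.thr 17 29 (.thr 37 7 (.thr 49 13 (.thr 33 1 (.dbl 18 3 19))))) .nd))))) .nd)))))) (.rp 31 (.thr 56 24 (.thr 42 59 (.thr 41 43 (.thr 11 26 (.dbl 9 10 57))))) (.rp 26 (.thr 42 59 (.thr 41 43 (.thr 38 35 (.thr 46 34 (.thr 47 45 (.dbl 32 36 37)))))) .nd)))))) .nd))))))) (.rp 52 (.str 36 (.nv (.thr 17 29 (.thr 18 19 (.dbl 26 30 31))) (.nv (.thr 19 28 (.dbl 17 18 29)) (.rp 60 (.str 40 (.nv (.thr 17 29 (.dbl 19 18 28)) (.nv (.thr 26 31 (.dbl 24 27 56)) (.rp 56 (.str 48 (.nv (.thr 28 19 (.thr 29 17 (.dbl 31 26 30))) (.nv (.thr 26 31 (.thr 37 15 (.thr 42 59 (.dbl 32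 44 47)))) (.nv (.thr 44 32 (.thr 19 28 (.dbl 17 18 29))) (.rp 28 (.thr 44 32 (.thr 17 29 (.thr 18 19 (.dbl 26 30 31)))) .nd))))) (.rp 48 (.thr 56 24 (.thr 17 29 (.dbl 19 18 28))) (.rp 44 (.thr 28 19 (.thr 29 17 (.dbl 31 26 30))) (.rp 28 (.thr 44 32 (.thr 26 31 (.dbl 24 27 56))) .nd))))))) (.rp 40 (.str 60 (.nv (.thr 26 31 (.thr 41 3 (.thr 9 57 (.dbl 11 10 56)))) (.nv (.thr 19 28 (.dbl 17 18 29)) .nd))) (.rp 29 (.thr 19 28 (.thr 18 17 (.dbl 26 30 31))) (.rp 19 (.thr 26 31 (.thr 27 24 (.thr 59 42 (.thr 11 43 (.thr 9 10 (.dbl 41 56 57)))))) (.rp 18 (.thr 29 17 (.thr 28 19 (.dbl 31 26 30))) (.rp 17 (.thr 26 31 (.thr 24 27 (.thr 42 59 (.thr 10 58 (.thr 11 9 (.dbl 56 40 41)))))) .nd))))))))) (.rp 40 (.str 60 (.nv (.thr 26 31 (.thr 41 3 (.thr 9 57 (.dbl 11 10 56)))) (.nv (.thr 19 28 (.dbl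 17 18 29)) (.rp 52 (.str 36 (.nv (.thr 26 31 (.thr 41 3 (.thr 9 57 (.dbl 11 10 56)))) (.nv (.thr 19 28 (.dbl 17 18 29)) .nd))) (.rp 36 (.str 52 (.nv (.thr 48 56 (.thr 26 31 (.dbl 37 7 15))) (.nv (.thr 19 28 (.dbl 17 18 29)) (.rp 48 (.str 24 (.nv (.thr 17 29 (.dbl 19 18 28)) (.nv (.dbl 26 27 31) (.rp 44 (.str 32 (.nv (.thr 17 29 (.dbl 19 18 28)) (.nv (.dbl 26 27 31) .nd))) (.rp 32 (.str 44 (.nv (.thr 17 29 (.dbl 19 18 28)) (.nv (.dbl 26 27 31) .nd))) .nd))))) (.rp 44 (.str 32 (.nv (.thr 48 56 (.thr 26 31 (.dbl 37 7 15))) (.nv (.thr 19 28 (.dbl 17 18 29)) (.rp 48 (.str 24 (.nv (.thr 17 29 (.dbl 19 18 28)) (.nv (.dbl 26 27 31) .nd))) .nd)))) (.rp 32 (.str 44 (.nv (.thr 48 56 (.thr 26 31 (.dbl 37 7 15))) (.nv (.thr 19 28 (.dbl 17 18 29)) (.rp 48 (.str 24 (.nv (.thr 17 29 (.dbl 19 18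 28)) (.nv (.dbl 26 27 31) .nd))) .nd)))) .nd)))))) .nd))))) (.rp 36 (.str 52 (.nv (.thr 17 29 (.thr 18 19 (.dbl 26 30 31))) (.nv (.thr 19 28 (.dbl 17 18 29)) (.rp 60 (.str 40 (.nv (.thr 17 29 (.dbl 19 18 28)) (.nv (.thr 24 56 (.dbl 26 27 31)) (.rp 44 (.thr 28 19 (.thr 24 56 (.dbl 26 27 31))) (.rp 28 (.str 44 (.nv (.thr 17 29 (.thr 18 19 (.dbl 26 30 31))) (.nv (.thr 24 56 (.dbl 26 27 31)) (.rp 31 (.thr 37 7 (.thr 42 59 (.thr 41 43 (.thr 45 33 (.dbl 47 32 46))))) (.rp 26 (.thr 37 7 (.thr 42 59 (.thr 41 43 (.thr 45 33 (.dbl 47 32 46))))) (.rp 24 (.str 48 (.nv (.thr 17 29 (.thr 18 19 (.dbl 26 30 31))) (.nv (.thr 37 7 (.dbl 26 15 31)) (.rp 31 (.thr 37 7 (.thr 42 59 (.thr 41 43 (.thr 45 33 (.dbl 47 32 46))))) (.rp 26 (.thr 17 29 (.thr 37 7 (.thr 49 13 (.thr 33 1 (.dbl 18 3 19))))) .nd)))))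 .nd)))))) (.rp 24 (.str 48 (.nv (.thr 17 29 (.dbl 19 18 28)) (.nv (.thr 26 31 (.dbl 37 7 15)) (.rp 44 (.thr 28 19 (.thr 29 17 (.dbl 31 26 30))) (.rp 28 (.str 44 (.nv (.thr 17 29 (.thr 18 19 (.dbl 26 30 31))) (.nv (.thr 37 7 (.dbl 26 15 31)) (.rp 31 (.thr 37 7 (.thr 42 59 (.thr 41 43 (.thr 45 33 (.dbl 47 32 46))))) (.rp 26 (.thr 17 29 (.thr 37 7 (.thr 49 13 (.thr 33 1 (.dbl 18 3 19))))) .nd))))) .nd))))) .nd)))))) (.rp 48 (.str 24 (.nv (.thr 40 56 (.thr 17 29 (.dbl 19 18 28))) (.nv (.dbl 26 27 31) (.rp 40 (.str 60 (.nv (.thr 17 29 (.dbl 19 18 28)) (.nv (.dbl 26 27 31) (.rp 44 (.str 32 (.nv (.thr 17 29 (.dbl 19 18 28)) (.nv (.dbl 26 27 31) .nd))) (.rp 32 (.str 44 (.nv (.thr 17 29 (.dbl 19 18 28)) (.nv (.dbl 26 27 31) .nd))) .nd))))) .nd)))) (.rp 40 (.str 60 (.nv (.thr 48 56 (.thr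 26 31 (.dbl 37 7 15))) (.nv (.thr 19 28 (.dbl 17 18 29)) (.rp 48 (.str 24 (.nv (.thr 17 29 (.dbl 19 18 28)) (.nv (.dbl 26 27 31) (.rp 44 (.str 32 (.nv (.thr 17 29 (.dbl 19 18 28)) (.nv (.dbl 26 27 31) .nd))) (.rp 32 (.str 44 (.nv (.thr 17 29 (.dbl 19 18 28)) (.nv (.dbl 26 27 31) .nd))) .nd))))) (.rp 44 (.str 32 (.nv (.thr 48 56 (.thr 26 31 (.dbl 37 7 15))) (.nv (.thr 19 28 (.dbl 17 18 29)) (.rp 48 (.str 24 (.nv (.thr 17 29 (.dbl 19 18 28)) (.nv (.dbl 26 27 31) .nd))) .nd)))) (.rp 32 (.str 44 (.nv (.thr 48 56 (.thr 26 31 (.dbl 37 7 15))) (.nv (.thr 19 28 (.dbl 17 18 29)) (.rp 48 (.str 24 (.nv (.thr 17 29 (.dbl 19 18 28)) (.nv (.dbl 26 27 31) .nd))) .nd)))) .nd)))))) (.rp 29 (.thr 19 28 (.thr 18 17 (.dbl 26 30 31))) (.rp 24 (.str 48 (.nv (.thr 60 56 (.thr 17 29 (.dbl 19 18 28)))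 (.nv (.thr 26 31 (.dbl 37 7 15)) (.rp 60 (.str 40 (.nv (.thr 17 29 (.dbl 19 18 28)) (.nv (.thr 26 31 (.dbl 37 7 15)) (.rp 44 (.thr 28 19 (.thr 29 17 (.dbl 31 26 30))) (.rp 28 (.str 44 (.nv (.thr 17 29 (.thr 18 19 (.dbl 26 30 31))) (.nv (.thr 37 7 (.dbl 26 15 31)) (.rp 31 (.thr 37 7 (.thr 42 59 (.thr 41 43 (.thr 45 33 (.dbl 47 32 46))))) (.rp 26 (.thr 17 29 (.thr 37 7 (.thr 49 13 (.thr 33 1 (.dbl 18 3 19))))) .nd))))) .nd))))) .nd)))) (.rp 19 (.thr 17 29 (.thr 37 7 (.thr 49 13 (.thr 1 33 (.thr 61 41 (.dbl 53 5 57)))))) (.rp 18 (.thr 29 17 (.thr 28 19 (.dbl 31 26 30))) (.rp 17 (.thr 26 31 (.thr 24 27 (.thr 37 7 (.thr 48 15 (.dbl 56 40 60))))) .nd))))))))))) (.rp 29 (.thr 19 28 (.thr 18 17 (.dbl 26 30 31))) (.rp 19 (.thr 26 31 (.thr 27 24 (.thr 59 42 (.thr 11 43 (.thr 9 10 (.dbl 41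 56 57)))))) (.rp 18 (.thr 29 17 (.thr 31 26 (.dbl 28 19 30))) (.rp 17 (.thr 26 31 (.thr 24 27 (.thr 42 59 (.thr 10 58 (.thr 11 9 (.dbl 56 40 41)))))) .nd))))))))))) .nd)))))))))))

theorem w22 : WinAt (39845888, 1052673) :=
  chF (K := []) kn c22 39845888 1052673 20
    [4369, 1152922604119523329] (by decide +kernel) (by decide +kernel)

/-- A certificate. -/
noncomputable def c23 : Ct := (.str 13 (.nv (.thr 37 49 (.thr 52 7 (.thr 4 36 (.thr 53 5 (.dbl 55 38 54))))) (.nv (.thr 29 17 (.thr 61 45 (.thr 1 41 (.thr 37 49 (.dbl 5 9 53))))) (.rp 60 (.str 44 (.nv (.thr 17 29 (.thr 49 37 (.thr 1 33 (.thr 9 5 (.dbl 41 57 61))))) (.nv (.thr 37 49 (.thr 52 7 (.thr 4 36 (.thr 55 38 (.dbl 53 5 54))))) (.rp 49 (.str 4 (.nv (.thr 29 17 (.thr 38 55 (.thr 41 35 (.dbl 61 1 45)))) (.nv (.thr 52 36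 (.thr 7 37 (.thr 38 55 (.dbl 6 5 54)))) (.rp 55 (.thr 29 17 (.thr 52 36 (.thr 7 37 (.thr 5 6 (.thr 61 45 (.dbl 1 9 41)))))) (.rp 38 (.thr 29 17 (.thr 52 36 (.thr 37 7 (.thr 61 45 (.thr 1 41 (.dbl 5 9 53)))))) (.rp 7 (.thr 29 17 (.thr 36 52 (.thr 61 45 (.thr 38 55 (.thr 39 37 (.dbl 41 1 35)))))) .nd)))))) (.rp 37 (.thr 29 17 (.thr 61 45 (.thr 41 1 (.thr 38 35 (.thr 9 57 (.thr 4 55 (.thr 36 52 (.thr 40 32 (.thr 42 43 (.thr 8 59 (.thr 11 10 (.dbl 56 24 26)))))))))))) (.rp 8 (.str 4 (.nv (.thr 29 17 (.thr 38 55 (.thr 41 35 (.dbl 61 1 45)))) (.nv (.thr 37 49 (.dbl 52 7 36)) (.rp 7 (.thr 36 52 (.thr 37 49 (.dbl 38 39 55))) .nd)))) (.rp 5 (.thr 29 17 (.thr 61 45 (.thr 41 1 (.thr 57 9 (.dbl 49 37 53))))) (.rp 4 (.str 8 (.nv (.thr 17 29 (.thr 49 37 (.thr 1 33 (.thr 41 61 (.dbl 9 5 57)))))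 (.nv (.thr 37 49 (.thr 42 59 (.thr 47 32 (.thr 45 46 (.dbl 29 17 61))))) (.rp 61 (.thr 37 49 (.thr 42 59 (.thr 32 47 (.thr 40 36 (.thr 41 43 (.thr 33 45 (.dbl 35 34 38))))))) (.rp 49 (.thr 29 17 (.thr 45 61 (.thr 46 47 (.thr 42 59 (.thr 62 2 (.thr 30 14 (.thr 26 18 (.thr 24 27 (.thr 56 40 (.thr 11 41 (.dbl 10 9 58))))))))))) (.rp 46 (.thr 29 17 (.thr 61 45 (.thr 1 41 (.thr 5 9 (.dbl 37 49 53))))) (.rp 37 (.thr 29 17 (.thr 61 45 (.thr 41 1 (.thr 9 57 (.thr 11 10 (.thr 26 56 (.thr 27 24 (.dbl 59 42 43)))))))) (.rp 29 (.thr 37 49 (.thr 5 53 (.thr 9 1 (.thr 42 59 (.thr 32 47 (.thr 40 36 (.dbl 41 43 57))))))) (.rp 17 (.thr 37 49 (.thr 5 53 (.thr 1 9 (.thr 61 41 (.thr 45 29 (.thr 42 59 (.dbl 47 32 46))))))) .nd))))))))) .nd)))))))) (.rp 53 (.thr 17 29 (.thr 49 37 (.thr 1 33 (.thr 9 5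 (.dbl 41 57 61))))) (.rp 49 (.str 4 (.nv (.thr 29 17 (.thr 61 45 (.thr 1 41 (.thr 5 9 (.thr 37 53 (.dbl 7 6 52)))))) (.nv (.thr 52 36 (.thr 7 37 (.thr 38 55 (.dbl 6 5 54)))) (.rp 60 (.str 44 (.nv (.thr 29 17 (.thr 38 55 (.thr 41 35 (.dbl 61 1 45)))) (.nv (.thr 52 36 (.thr 7 37 (.thr 38 55 (.dbl 6 5 54)))) (.rp 55 (.thr 29 17 (.thr 52 36 (.thr 7 37 (.thr 5 6 (.thr 61 45 (.dbl 1 9 41)))))) (.rp 38 (.thr 29 17 (.thr 52 36 (.thr 37 7 (.thr 61 45 (.thr 1 41 (.dbl 5 9 53)))))) (.rp 7 (.thr 29 17 (.thr 36 52 (.thr 61 45 (.thr 38 55 (.thr 39 37 (.dbl 41 1 35)))))) .nd)))))) (.rp 52 (.thr 29 17 (.thr 61 45 (.thr 1 41 (.thr 5 9 (.thr 6 7 (.dbl 38 54 55)))))) (.rp 44 (.str 60 (.nv (.thr 29 17 (.thr 61 45 (.dbl 41 1 3))) (.nv (.thr 38 55 (.thr 6 54 (.thr 52 36 (.dbl 7 5 37)))) (.nv (.thr 41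 3 (.thr 1 61 (.dbl 9 5 57))) .nd)))) (.rp 37 (.str 60 (.nv (.thr 38 55 (.thr 54 6 (.thr 57 51 (.dbl 41 3 9)))) (.nv (.thr 41 3 (.thr 1 61 (.dbl 9 5 57))) (.nv (.thr 29 17 (.thr 61 45 (.dbl 41 1 3))) (.rp 41 (.thr 29 17 (.thr 38 55 (.thr 6 54 (.thr 45 61 (.thr 30 15 (.thr 26 18 (.thr 14 50 (.thr 62 46 (.dbl 2 10 42))))))))) (.rp 3 (.thr 29 17 (.thr 52 36 (.thr 48 56 (.thr 61 45 (.thr 63 62 (.thr 53 58 (.dbl 55 38 54))))))) .nd)))))) (.rp 7 (.thr 29 17 (.thr 61 45 (.thr 1 41 (.thr 5 9 (.thr 37 53 (.thr 36 52 (.dbl 38 39 55))))))) (.rp 6 (.thr 52 36 (.thr 37 7 (.thr 53 5 (.dbl 55 38 54)))) (.rp 5 (.str 60 (.nv (.thr 41 3 (.thr 52 36 (.thr 55 38 (.thr 54 53 (.dbl 57 9 51))))) (.nv (.thr 29 17 (.thr 61 45 (.dbl 41 1 3))) (.rp 51 (.thr 52 36 (.thr 37 7 (.thr 41 3 (.thr 45 33 (.dbl 29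 17 61))))) (.rp 41 (.thr 29 17 (.thr 52 36 (.thr 48 56 (.thr 37 7 (.thr 45 61 (.dbl 15 26 30)))))) (.rp 15 (.str 10 (.nv (.thr 38 55 (.thr 54 6 (.thr 57 51 (.dbl 41 3 9)))) (.nv (.thr 41 3 (.thr 9 57 (.thr 11 8 (.thr 52 36 (.dbl 56 26 48))))) (.nv (.thr 29 17 (.thr 61 45 (.dbl 41 1 3))) (.rp 41 (.thr 29 17 (.thr 61 45 (.thr 62 63 (.thr 2 42 (.thr 6 14 (.dbl 38 54 55)))))) (.rp 3 (.thr 29 17 (.thr 61 45 (.thr 38 55 (.thr 6 54 (.thr 2 14 (.dbl 62 42 63)))))) .nd)))))) (.rp 10 (.str 15 (.nv (.thr 3 41 (.thr 7 11 (.dbl 52 36 37))) (.nv (.thr 45 30 (.dbl 29 17 61)) .nd))) (.rp 3 (.thr 29 17 (.thr 52 36 (.thr 48 56 (.thr 37 7 (.thr 15 26 (.dbl 45 30 61)))))) (.rp 1 (.thr 38 55 (.thr 54 6 (.thr 57 51 (.dbl 41 3 9)))) .nd))))))))) .nd)))))))))) (.rp 44 (.str 60 (.nv (.thr 29 17 (.thr 61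 45 (.dbl 41 1 3))) (.nv (.thr 41 3 (.thr 1 61 (.dbl 9 5 57))) (.rp 61 (.thr 17 29 (.thr 49 37 (.thr 1 33 (.thr 9 5 (.dbl 41 3 57))))) (.rp 41 (.thr 37 49 (.thr 53 5 (.thr 52 7 (.thr 55 54 (.dbl 4 36 38))))) (.rp 8 (.str 4 (.nv (.thr 29 17 (.thr 41 3 (.dbl 61 1 45))) (.nv (.thr 37 49 (.dbl 52 7 36)) .nd))) (.rp 4 (.str 8 (.nv (.thr 29 17 (.thr 42 59 (.thr 61 45 (.dbl 62 2 63)))) (.nv (.thr 41 3 (.thr 1 61 (.dbl 9 5 57))) (.rp 63 (.thr 29 17 (.thr 61 45 (.dbl 41 1 3))) (.rp 61 (.thr 17 29 (.thr 41 3 (.thr 9 57 (.thr 1 5 (.dbl 49 33 37))))) .nd))))) (.rp 3 (.thr 29 17 (.thr 49 37 (.thr 61 45 (.thr 57 53 (.dbl 41 1 9))))) (.rp 1 (.thr 29 17 (.thr 49 37 (.thr 61 45 (.thr 57 53 (.dbl 41 3 9))))) .nd))))))))) (.rp 37 (.str 41 (.nv (.thr 29 17 (.dbl 61 1 45)) (.nv (.thr 9 57 (.dbl 1 5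 61)) (.rp 61 (.str 38 (.nv (.thr 6 54 (.thr 4 55 (.thr 9 57 (.dbl 5 1 7)))) (.nv (.thr 4 55 (.thr 9 57 (.thr 5 1 (.dbl 6 7 54)))) (.rp 60 (.thr 44 35 (.thr 9 57 (.thr 5 1 (.thr 4 55 (.dbl 6 7 54))))) (.rp 57 (.thr 54 6 (.thr 44 35 (.thr 4 55 (.thr 36 52 (.thr 40 32 (.thr 42 43 (.thr 62 2 (.thr 50 58 (.thr 14 26 (.dbl 46 30 34)))))))))) (.rp 55 (.str 8 (.nv (.thr 6 54 (.thr 42 59 (.thr 2 62 (.thr 14 10 (.thr 34 46 (.dbl 50 18 26)))))) (.nv (.thr 57 9 (.thr 59 42 (.thr 56 58 (.thr 26 11 (.dbl 24 27 40))))) (.nv (.thr 9 57 (.thr 6 54 (.thr 10 11 (.thr 2 14 (.dbl 42 59 62))))) (.rp 60 (.thr 44 35 (.thr 9 57 (.thr 11 10 (.thr 56 26 (.thr 40 24 (.dbl 42 43 59)))))) (.rp 59 (.thr 44 35 (.thr 9 57 (.thr 5 1 (.thr 6 54 (.thr 7 4 (.thr 11 10 (.dbl 3 15 60))))))) (.rp 44 (.thr 60 3 (.thr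 9 57 (.thr 6 54 (.thr 10 11 (.thr 2 14 (.dbl 42 59 62)))))) (.rp 42 (.thr 44 35 (.thr 9 57 (.thr 5 1 (.thr 6 54 (.thr 7 4 (.thr 11 10 (.dbl 3 15 60))))))) (.rp 39 (.str 7 (.nv (.thr 3 60 (.thr 44 35 (.thr 11 15 (.dbl 9 10 57)))) (.nv (.thr 6 54 (.thr 5 4 (.dbl 9 1 57))) (.rp 60 (.thr 44 35 (.thr 6 54 (.thr 5 4 (.dbl 9 1 57)))) (.rp 57 (.thr 6 54 (.thr 5 4 (.thr 9 1 (.thr 11 10 (.dbl 3 15 60))))) (.rp 44 (.thr 60 3 (.thr 6 54 (.thr 5 4 (.dbl 9 1 57)))) (.rp 9 (.thr 42 59 (.thr 40 43 (.thr 56 24 (.thr 11 26 (.dbl 3 15 60))))) (.rp 5 (.thr 9 57 (.thr 3 60 (.thr 44 35 (.dbl 11 10 15)))) .nd)))))))) (.rp 7 (.str 39 (.nv (.thr 6 54 (.thr 9 57 (.thr 10 11 (.thr 2 14 (.dbl 42 59 62))))) (.nv (.thr 42 59 (.thr 43 40 (.dbl 35 44 47))) (.rp 60 (.thr 44 35 (.thr 42 59 (.thr 40 43 (.thr 9 57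 (.thr 11 10 (.dbl 56 24 26)))))) (.rp 59 (.thr 6 54 (.thr 9 57 (.thr 10 11 (.thr 2 14 (.thr 42 62 (.thr 43 40 (.dbl 35 44 47))))))) (.rp 51 (.thr 60 3 (.thr 35 44 (.thr 43 47 (.dbl 42 40 59)))) (.rp 44 (.thr 60 3 (.thr 6 54 (.thr 42 59 (.thr 9 57 (.thr 2 62 (.dbl 10 11 14)))))) (.rp 42 (.thr 9 57 (.thr 11 10 (.thr 26 56 (.thr 27 24 (.thr 60 3 (.thr 35 44 (.dbl 43 47 59))))))) .nd)))))))) (.rp 6 (.thr 9 57 (.thr 11 10 (.thr 56 26 (.thr 40 24 (.dbl 42 43 59))))) .nd))))))))))) (.rp 54 (.str 42 (.nv (.thr 44 35 (.thr 40 43 (.thr 36 32 (.dbl 4 52 55)))) (.nv (.thr 8 59 (.thr 9 57 (.thr 11 10 (.thr 56 26 (.dbl 40 24 43))))) (.nv (.thr 4 55 (.thr 40 43 (.thr 44 35 (.dbl 36 32 52)))) (.rp 44 (.thr 60 3 (.thr 8 59 (.thr 9 57 (.thr 11 10 (.thr 56 26 (.dbl 40 24 43)))))) (.rp 43 (.thr 4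 55 (.thr 52 36 (.thr 59 8 (.thr 57 9 (.thr 56 58 (.dbl 60 3 48)))))) (.rp 40 (.thr 4 55 (.thr 52 36 (.thr 59 8 (.thr 57 9 (.thr 56 58 (.dbl 60 3 48)))))) .nd))))))) (.rp 53 (.thr 54 6 (.thr 44 35 (.thr 4 55 (.thr 36 52 (.thr 40 32 (.thr 42 43 (.thr 62 2 (.thr 50 58 (.thr 14 26 (.dbl 46 30 34)))))))))) (.rp 49 (.thr 44 35 (.thr 4 55 (.thr 36 52 (.thr 40 32 (.thr 42 43 (.thr 8 59 (.thr 56 24 (.thr 11 26 (.dbl 9 10 57))))))))) (.rp 44 (.thr 60 3 (.thr 9 57 (.thr 6 54 (.thr 4 55 (.dbl 5 1 7))))) (.rp 39 (.thr 9 57 (.thr 5 1 (.thr 6 54 (.dbl 4 7 55)))) (.rp 9 (.thr 44 35 (.thr 4 55 (.thr 36 52 (.thr 40 32 (.thr 42 43 (.thr 34 46 (.thr 2 62 (.thr 50 18 (.thr 14 26 (.dbl 6 10 54)))))))))) (.rp 7 (.thr 44 35 (.str 8 (.nv (.thr 55 4 (.thr 57 9 (.thr 59 42 (.thr 51 63 (.dbl 54 6 60)))))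 (.nv (.thr 6 54 (.thr 42 59 (.thr 2 62 (.thr 34 46 (.thr 50 18 (.dbl 14 10 26)))))) (.nv (.thr 9 57 (.thr 11 10 (.thr 56 26 (.thr 42 59 (.dbl 40 24 43))))) (.rp 59 (.thr 9 57 (.thr 11 10 (.thr 56 26 (.thr 40 24 (.thr 36 32 (.dbl 4 52 55)))))) (.rp 55 (.str 39 (.nv (.thr 3 60 (.thr 57 9 (.thr 59 42 (.thr 56 58 (.thr 26 11 (.dbl 24 27 40)))))) (.nv (.thr 6 54 (.thr 42 59 (.thr 34 46 (.thr 2 62 (.thr 50 18 (.dbl 14 10 26)))))) (.nv (.thr 57 9 (.thr 59 42 (.thr 56 58 (.thr 24 40 (.dbl 26 11 27))))) (.rp 59 (.thr 9 57 (.thr 11 10 (.thr 56 26 (.thr 40 24 (.thr 60 3 (.thr 36 32 (.dbl 52 4 48))))))) (.rp 42 (.thr 9 57 (.thr 11 10 (.thr 26 56 (.thr 27 24 (.thr 60 3 (.thr 30 18 (.dbl 15 45 51))))))) (.rp 26 (.thr 6 54 (.thr 42 59 (.thr 9 57 (.thr 10 11 (.dbl 2 14 62))))) .nd))))))) (.rp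 42 (.thr 9 57 (.thr 60 3 (.thr 11 10 (.thr 26 56 (.thr 14 50 (.thr 30 18 (.thr 46 62 (.dbl 45 15 47)))))))) .nd)))))))) (.rp 6 (.thr 9 57 (.thr 44 35 (.thr 4 55 (.thr 36 52 (.thr 40 32 (.thr 42 43 (.thr 8 59 (.thr 56 24 (.dbl 11 10 26))))))))) (.rp 5 (.thr 9 57 (.thr 44 35 (.thr 4 55 (.thr 36 52 (.thr 40 32 (.thr 42 43 (.thr 8 59 (.thr 56 24 (.dbl 11 10 26))))))))) (.rp 4 (.str 8 (.nv (.thr 6 54 (.thr 42 59 (.thr 2 62 (.thr 14 10 (.thr 34 46 (.dbl 50 18 26)))))) (.nv (.thr 42 59 (.thr 40 43 (.thr 56 24 (.thr 11 26 (.dbl 9 10 57))))) (.nv (.thr 9 57 (.thr 6 54 (.thr 10 11 (.thr 2 14 (.dbl 42 59 62))))) (.rp 60 (.thr 44 35 (.thr 9 57 (.thr 11 10 (.thr 56 26 (.thr 40 24 (.dbl 42 43 59)))))) (.rp 59 (.str 56 (.nv (.thr 44 35 (.thr 9 57 (.dbl 11 10 26))) (.nv (.thr 24 40 (.dbl 26 11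 27)) (.rp 44 (.thr 60 3 (.thr 24 40 (.dbl 26 11 27))) (.rp 26 (.thr 40 24 (.thr 9 57 (.thr 6 54 (.thr 10 11 (.thr 2 14 (.dbl 42 43 62)))))) (.rp 11 (.thr 24 40 (.thr 9 57 (.thr 1 5 (.thr 17 29 (.thr 49 33 (.thr 6 54 (.thr 60 3 (.thr 48 52 (.thr 35 44 (.thr 50 51 (.dbl 26 14 27))))))))))) .nd)))))) (.rp 44 (.thr 60 3 (.thr 9 57 (.thr 6 54 (.thr 10 11 (.thr 2 14 (.dbl 42 59 62)))))) (.rp 42 (.thr 60 3 (.thr 9 57 (.thr 44 35 (.thr 11 10 (.thr 26 56 (.thr 14 50 (.thr 30 18 (.thr 46 62 (.dbl 45 15 47))))))))) (.rp 10 (.thr 57 9 (.thr 59 42 (.thr 56 58 (.thr 26 11 (.dbl 24 27 40))))) .nd))))))))) (.rp 1 (.thr 9 57 (.thr 44 35 (.thr 4 55 (.thr 36 52 (.thr 40 32 (.thr 42 43 (.thr 8 59 (.thr 56 24 (.dbl 11 10 26))))))))) .nd))))))))))))))))) (.rp 60 (.str 44 (.nv (.thr 1 61 (.dbl 9 5 57))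 (.nv (.thr 29 17 (.dbl 61 1 45)) (.rp 61 (.thr 9 57 (.thr 5 1 (.thr 38 35 (.thr 4 55 (.dbl 6 7 54))))) (.rp 8 (.str 4 (.nv (.thr 1 61 (.dbl 9 5 57)) (.nv (.dbl 38 35 55) .nd))) (.rp 4 (.str 8 (.nv (.thr 1 61 (.dbl 9 5 57)) (.nv (.thr 29 17 (.dbl 61 1 45)) (.rp 61 (.thr 9 57 (.thr 11 10 (.thr 56 26 (.thr 40 24 (.dbl 42 43 59))))) (.rp 1 (.thr 29 17 (.thr 45 61 (.thr 38 35 (.thr 46 47 (.dbl 42 34 59))))) .nd))))) (.rp 1 (.thr 29 17 (.thr 45 61 (.thr 38 35 (.thr 46 47 (.thr 4 55 (.thr 36 52 (.thr 40 32 (.dbl 42 34 43)))))))) .nd))))))) (.rp 44 (.thr 60 3 (.thr 29 17 (.dbl 61 1 45))) (.rp 8 (.str 4 (.nv (.thr 29 17 (.dbl 61 1 45)) (.nv (.thr 9 57 (.dbl 1 5 61)) (.rp 61 (.thr 9 57 (.thr 5 1 (.thr 6 7 (.dbl 38 54 55)))) (.rp 60 (.str 44 (.nv (.thr 1 61 (.dbl 9 5 57)) (.nv (.dbl 38 35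 55) .nd))) (.rp 44 (.thr 60 3 (.thr 29 17 (.dbl 61 1 45))) (.rp 1 (.thr 29 17 (.thr 36 52 (.thr 45 61 (.thr 38 55 (.thr 44 35 (.thr 40 32 (.thr 46 47 (.dbl 42 34 43)))))))) .nd))))))) (.rp 4 (.str 8 (.nv (.thr 29 17 (.dbl 61 1 45)) (.nv (.thr 9 57 (.dbl 1 5 61)) (.rp 61 (.thr 9 57 (.thr 11 10 (.thr 26 56 (.thr 27 24 (.dbl 59 42 43))))) (.rp 60 (.str 44 (.nv (.thr 1 61 (.dbl 9 5 57)) (.nv (.thr 29 17 (.dbl 61 1 45)) (.rp 61 (.thr 9 57 (.thr 11 10 (.thr 56 26 (.thr 40 24 (.dbl 42 43 59))))) (.rp 1 (.thr 29 17 (.thr 45 61 (.thr 38 35 (.thr 46 47 (.dbl 42 34 59))))) .nd))))) (.rp 44 (.thr 60 3 (.thr 29 17 (.dbl 61 1 45))) (.rp 1 (.thr 9 57 (.thr 11 10 (.thr 26 56 (.thr 27 24 (.dbl 59 42 43))))) .nd))))))) (.rp 1 (.str 42 (.nv (.thr 2 62 (.thr 8 59 (.thr 9 57 (.thr 11 10 (.thr 56 26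 (.dbl 40 24 43)))))) (.nv (.thr 8 59 (.thr 40 43 (.thr 9 57 (.thr 56 24 (.dbl 11 10 26))))) (.nv (.thr 8 59 (.thr 9 57 (.thr 11 10 (.thr 40 43 (.dbl 56 24 26))))) (.rp 60 (.str 44 (.nv (.thr 2 62 (.thr 8 59 (.thr 38 35 (.thr 6 54 (.thr 10 14 (.dbl 9 11 57)))))) (.nv (.thr 8 59 (.thr 9 57 (.thr 11 10 (.thr 56 26 (.dbl 40 24 43))))) (.nv (.thr 38 35 (.thr 4 55 (.thr 40 43 (.dbl 36 32 52)))) (.rp 8 (.str 4 (.nv (.thr 2 62 (.thr 36 52 (.dbl 40 32 43))) (.nv (.dbl 38 35 55) (.rp 2 (.str 3 (.nv (.thr 36 52 (.dbl 40 32 43)) (.nv (.dbl 38 35 55) .nd))) .nd)))) (.rp 2 (.str 3 (.nv (.thr 29 17 (.thr 38 35 (.thr 45 61 (.dbl 46 34 47)))) (.nv (.thr 8 59 (.thr 9 57 (.thr 11 10 (.thr 40 43 (.dbl 56 24 26))))) (.nv (.thr 38 35 (.thr 4 55 (.thr 40 43 (.dbl 36 32 52)))) (.rp 8 (.str 4 (.nv (.thr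 36 52 (.dbl 40 32 43)) (.nv (.dbl 38 35 55) .nd))) .nd))))) .nd)))))) (.rp 59 (.thr 29 17 (.thr 60 3 (.thr 2 62 (.thr 45 61 (.thr 30 15 (.thr 26 18 (.thr 10 58 (.thr 6 14 (.thr 57 9 (.dbl 54 38 51)))))))))) (.rp 57 (.thr 29 17 (.thr 43 40 (.thr 60 3 (.thr 2 62 (.thr 45 61 (.thr 30 15 (.thr 26 18 (.thr 27 24 (.dbl 11 56 59))))))))) (.rp 56 (.thr 29 17 (.thr 60 3 (.thr 2 62 (.thr 45 61 (.thr 30 15 (.thr 26 18 (.thr 10 58 (.thr 6 14 (.thr 57 9 (.dbl 54 38 51)))))))))) (.rp 44 (.thr 60 3 (.thr 2 62 (.thr 9 57 (.thr 8 59 (.thr 11 10 (.thr 56 26 (.dbl 40 24 43))))))) (.rp 43 (.thr 3 60 (.str 44 (.nv (.thr 8 59 (.thr 2 62 (.thr 38 35 (.thr 6 54 (.thr 10 14 (.dbl 9 11 57)))))) (.nv (.thr 29 17 (.thr 38 35 (.thr 45 61 (.dbl 46 34 47)))) (.rp 63 (.thr 29 17 (.thr 38 35 (.thr 45 61 (.thr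 62 2 (.dbl 46 34 47))))) (.rp 62 (.thr 29 17 (.thr 38 35 (.thr 61 45 (.thr 57 9 (.thr 8 59 (.thr 54 6 (.thr 55 4 (.dbl 53 49 52)))))))) (.rp 61 (.thr 38 35 (.thr 46 34 (.thr 62 2 (.thr 14 30 (.thr 54 6 (.dbl 50 26 58)))))) (.rp 51 (.thr 38 35 (.thr 34 46 (.thr 2 62 (.thr 50 18 (.thr 14 26 (.dbl 6 10 54)))))) (.rp 47 (.thr 17 29 (.thr 35 38 (.thr 2 62 (.thr 19 51 (.thr 18 16 (.thr 34 50 (.dbl 33 32 48))))))) (.rp 46 (.thr 38 35 (.thr 62 2 (.thr 57 9 (.thr 54 6 (.thr 58 50 (.dbl 59 8 56)))))) (.rp 39 (.thr 9 57 (.thr 8 59 (.thr 11 10 (.thr 56 26 (.thr 40 24 (.thr 36 32 (.thr 4 52 (.dbl 38 35 55)))))))) (.rp 38 (.thr 29 17 (.thr 45 61 (.thr 46 47 (.thr 62 2 (.thr 30 14 (.thr 26 18 (.thr 11 56 (.thr 9 57 (.dbl 8 10 59))))))))) (.rp 35 (.thr 29 17 (.thr 45 61 (.thr 47 46 (.thr 62 2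 (.thr 9 57 (.thr 8 59 (.thr 11 10 (.thr 15 7 (.thr 31 63 (.dbl 26 16 56)))))))))) (.rp 8 (.str 4 (.nv (.dbl 38 35 55) (.rp 55 (.thr 29 17 (.thr 38 35 (.thr 45 61 (.dbl 46 34 47)))) (.rp 38 (.str 26 (.nv (.thr 10 58 (.thr 11 56 (.thr 7 15 (.thr 6 5 (.dbl 2 14 62))))) (.nv (.thr 29 17 (.thr 30 18 (.thr 45 61 (.thr 46 47 (.dbl 62 2 14))))) (.nv (.thr 2 62 (.thr 10 58 (.thr 6 14 (.thr 7 5 (.dbl 11 15 56))))) (.rp 62 (.thr 24 27 (.thr 31 16 (.thr 29 17 (.thr 18 30 (.thr 11 56 (.thr 15 7 (.thr 45 61 (.thr 63 47 (.thr 9 57 (.thr 58 10 (.dbl 48 33 53))))))))))) (.rp 39 (.thr 36 52 (.thr 29 17 (.thr 30 18 (.thr 45 61 (.thr 62 2 (.dbl 46 14 47)))))) (.rp 36 (.str 39 (.nv (.thr 2 62 (.thr 10 58 (.thr 6 14 (.thr 7 5 (.dbl 11 15 56))))) (.nv (.thr 11 56 (.thr 15 7 (.dbl 27 24 51))) (.rp 56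 (.thr 30 18 (.thr 29 17 (.thr 62 2 (.thr 46 14 (.dbl 45 47 61))))) (.rp 48 (.thr 24 27 (.thr 30 18 (.thr 29 17 (.thr 62 2 (.thr 46 14 (.dbl 45 47 61)))))) (.rp 24 (.str 48 (.nv (.dbl 18 30 33) (.rp 56 (.str 40 (.nv (.dbl 18 30 33) (.rp 33 (.thr 30 18 (.thr 62 2 (.thr 46 14 (.thr 45 47 (.dbl 29 17 61))))) (.rp 30 (.thr 29 17 (.thr 31 16 (.thr 58 10 (.thr 45 61 (.thr 47 46 (.dbl 63 15 53)))))) (.rp 18 (.thr 29 17 (.thr 58 10 (.thr 61 45 (.thr 53 63 (.dbl 57 9 49))))) .nd))))) (.rp 40 (.thr 56 11 (.dbl 18 30 33)) (.rp 33 (.thr 30 18 (.thr 62 2 (.thr 46 14 (.thr 45 47 (.dbl 29 17 61))))) (.rp 30 (.thr 31 16 (.thr 58 10 (.thr 63 53 (.thr 15 47 (.dbl 11 7 56))))) (.rp 18 (.thr 29 17 (.thr 58 10 (.thr 61 45 (.thr 53 63 (.dbl 57 9 49))))) .nd))))))) (.rp 15 (.thr 30 18 (.thr 29 17 (.thr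 62 2 (.thr 46 14 (.dbl 45 47 61))))) (.rp 11 (.thr 30 18 (.thr 29 17 (.thr 62 2 (.thr 46 14 (.dbl 45 47 61))))) (.rp 7 (.thr 30 18 (.thr 29 17 (.thr 62 2 (.thr 46 14 (.dbl 45 47 61))))) .nd))))))))) (.rp 30 (.thr 31 16 (.thr 29 17 (.thr 45 61 (.thr 47 46 (.thr 11 56 (.dbl 15 7 63)))))) (.rp 14 (.thr 24 27 (.thr 31 16 (.thr 29 17 (.thr 18 30 (.thr 45 61 (.thr 47 46 (.thr 62 2 (.thr 15 63 (.dbl 11 7 56))))))))) (.rp 2 (.thr 31 16 (.thr 29 17 (.thr 45 61 (.thr 47 46 (.thr 11 56 (.dbl 15 7 63)))))) .nd)))))))))) (.rp 35 (.thr 29 17 (.thr 45 61 (.thr 38 55 (.dbl 46 34 47)))) .nd))))) .nd)))))))))))))) (.rp 40 (.thr 29 17 (.thr 60 3 (.thr 2 62 (.thr 45 61 (.thr 30 15 (.thr 26 18 (.thr 11 56 (.thr 9 57 (.dbl 8 10 59))))))))) (.rp 26 (.thr 29 17 (.thr 45 61 (.thr 2 62 (.thr 9 57 (.thr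 8 59 (.thr 10 11 (.thr 6 14 (.thr 38 54 (.thr 44 35 (.dbl 46 34 47)))))))))) (.rp 24 (.thr 29 17 (.thr 60 3 (.thr 2 62 (.thr 45 61 (.thr 30 15 (.thr 26 18 (.thr 11 56 (.thr 9 57 (.dbl 8 10 59))))))))) (.rp 11 (.str 38 (.nv (.thr 44 35 (.thr 46 34 (.thr 45 47 (.dbl 29 17 61)))) (.nv (.thr 2 62 (.thr 6 54 (.thr 14 10 (.thr 34 46 (.dbl 50 18 26))))) (.nv (.thr 4 55 (.thr 36 52 (.thr 44 35 (.dbl 40 32 43)))) (.rp 44 (.thr 60 3 (.thr 2 62 (.thr 6 54 (.thr 14 10 (.thr 34 46 (.dbl 50 18 26)))))) (.rp 4 (.thr 8 59 (.thr 44 35 (.thr 46 34 (.thr 45 47 (.dbl 29 17 61))))) (.rp 2 (.thr 3 60 (.thr 44 35 (.thr 4 55 (.thr 36 52 (.dbl 40 32 43))))) .nd))))))) (.rp 10 (.thr 8 59 (.thr 2 62 (.str 44 (.nv (.thr 38 35 (.thr 46 34 (.thr 45 47 (.dbl 29 17 61)))) (.nv (.thr 40 43 (.thr 36 32 (.thr 52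 4 (.thr 56 24 (.dbl 60 3 48))))) (.nv (.thr 29 17 (.thr 38 35 (.thr 45 61 (.dbl 46 34 47)))) (.rp 15 (.str 5 (.nv (.thr 29 17 (.thr 38 35 (.thr 45 61 (.dbl 46 34 47)))) (.nv (.thr 38 35 (.thr 6 54 (.dbl 4 7 55))) (.rp 48 (.str 26 (.nv (.thr 18 30 (.thr 34 50 (.dbl 38 35 46))) (.nv (.thr 40 43 (.dbl 24 27 56)) (.rp 36 (.thr 24 27 (.dbl 40 43 56)) (.rp 32 (.thr 16 31 (.thr 40 43 (.dbl 24 27 56))) (.rp 24 (.str 36 (.nv (.thr 16 31 (.thr 4 52 (.dbl 38 35 55))) (.nv (.dbl 40 32 43) (.rp 16 (.thr 32 40 (.thr 38 35 (.dbl 4 52 55))) .nd)))) (.rp 16 (.str 32 (.nv (.thr 18 30 (.thr 34 50 (.dbl 35 33 38))) (.nv (.dbl 40 36 43) (.rp 36 (.thr 24 27 (.dbl 40 43 56)) (.rp 24 (.thr 36 40 (.thr 38 35 (.dbl 4 52 55))) .nd))))) .nd))))))) (.rp 38 (.thr 40 43 (.thr 36 32 (.thr 56 24 (.thr 52 4 (.dbl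 60 3 48))))) (.rp 35 (.thr 40 43 (.thr 36 32 (.thr 56 24 (.thr 52 4 (.dbl 60 3 48))))) (.rp 26 (.str 48 (.nv (.thr 40 43 (.thr 56 24 (.dbl 60 3 52))) (.nv (.thr 38 35 (.thr 6 54 (.dbl 4 7 55))) .nd))) .nd))))))) (.rp 5 (.str 15 (.nv (.thr 38 35 (.thr 4 55 (.thr 36 52 (.dbl 40 32 43)))) (.nv (.thr 29 17 (.thr 45 61 (.dbl 60 3 30))) (.rp 51 (.thr 60 3 (.thr 45 30 (.dbl 29 17 61))) .nd)))) .nd)))))))) (.rp 9 (.thr 8 59 (.thr 2 62 (.str 38 (.nv (.thr 44 35 (.thr 4 55 (.thr 40 43 (.dbl 36 32 52)))) (.nv (.thr 6 54 (.thr 14 10 (.thr 50 26 (.dbl 34 18 46)))) (.rp 44 (.thr 60 3 (.thr 6 54 (.thr 14 10 (.thr 34 46 (.dbl 50 18 26))))) (.rp 6 (.thr 3 60 (.thr 44 35 (.thr 40 43 (.thr 36 32 (.dbl 4 52 55))))) .nd))))))) (.rp 8 (.str 4 (.nv (.thr 36 52 (.thr 38 55 (.thr 44 35 (.dbl 40 32 43))))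 (.nv (.thr 2 62 (.thr 38 55 (.thr 34 46 (.thr 50 18 (.thr 14 26 (.dbl 6 10 54)))))) (.nv (.thr 40 43 (.thr 36 52 (.thr 44 32 (.dbl 38 35 55)))) (.rp 60 (.str 44 (.nv (.thr 2 62 (.thr 36 52 (.dbl 40 32 43))) (.nv (.dbl 38 35 55) (.rp 2 (.str 3 (.nv (.thr 36 52 (.dbl 40 32 43)) (.nv (.dbl 38 35 55) .nd))) .nd)))) (.rp 55 (.thr 29 17 (.thr 40 43 (.thr 45 61 (.thr 36 52 (.thr 44 32 (.thr 46 47 (.dbl 38 34 35))))))) (.rp 44 (.thr 60 3 (.thr 2 62 (.thr 38 55 (.thr 34 46 (.thr 6 54 (.thr 14 10 (.dbl 50 18 26))))))) (.rp 38 (.thr 29 17 (.thr 60 3 (.thr 2 62 (.thr 45 61 (.thr 30 15 (.thr 26 18 (.thr 10 58 (.thr 6 14 (.thr 7 5 (.thr 56 11 (.dbl 52 36 48))))))))))) (.rp 2 (.thr 3 60 (.str 44 (.nv (.thr 36 52 (.dbl 40 32 43)) (.nv (.dbl 38 35 55) .nd)))) .nd))))))))) (.rp 2 (.thr 3 60 (.str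 44 (.nv (.thr 29 17 (.thr 38 35 (.thr 45 61 (.dbl 46 34 47)))) (.nv (.thr 8 59 (.thr 9 57 (.thr 11 10 (.thr 40 43 (.dbl 56 24 26))))) (.nv (.thr 38 35 (.thr 4 55 (.thr 40 43 (.dbl 36 32 52)))) (.rp 8 (.str 4 (.nv (.thr 36 52 (.dbl 40 32 43)) (.nv (.dbl 38 35 55) .nd))) .nd)))))) .nd)))))))))))))))))) .nd))))))))) (.rp 8 (.str 4 (.nv (.thr 37 49 (.thr 5 53 (.thr 6 7 (.dbl 38 54 55)))) (.nv (.thr 37 49 (.dbl 52 7 36)) (.rp 60 (.str 44 (.nv (.thr 29 17 (.thr 38 55 (.thr 41 35 (.dbl 61 1 45)))) (.nv (.thr 37 49 (.dbl 52 7 36)) (.rp 7 (.thr 36 52 (.thr 37 49 (.dbl 38 39 55))) .nd)))) (.rp 49 (.thr 52 36 (.thr 7 37 (.thr 6 5 (.dbl 38 54 55)))) (.rp 44 (.str 60 (.nv (.thr 29 17 (.thr 41 3 (.dbl 61 1 45))) (.nv (.thr 37 49 (.dbl 52 7 36)) .nd))) (.rp 37 (.thr 29 17 (.thr 61 45 (.thr 41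 1 (.thr 36 52 (.thr 38 55 (.thr 44 35 (.thr 40 32 (.thr 42 43 (.thr 2 62 (.thr 34 46 (.thr 50 18 (.thr 14 26 (.dbl 6 10 54))))))))))))) (.rp 7 (.thr 37 49 (.thr 36 52 (.dbl 38 39 55))) .nd)))))))) (.rp 5 (.thr 29 17 (.thr 61 45 (.thr 41 1 (.thr 57 9 (.dbl 49 37 53))))) (.rp 4 (.str 8 (.nv (.thr 17 29 (.thr 49 37 (.thr 1 33 (.thr 41 61 (.dbl 9 5 57))))) (.nv (.thr 29 17 (.thr 42 59 (.thr 61 45 (.thr 62 2 (.thr 60 63 (.dbl 41 1 3)))))) (.nv (.thr 29 17 (.thr 61 45 (.thr 1 41 (.thr 37 49 (.dbl 5 9 53))))) (.rp 61 (.thr 17 29 (.thr 49 37 (.thr 1 33 (.thr 9 5 (.thr 41 57 (.thr 42 59 (.thr 40 43 (.thr 56 24 (.dbl 11 10 26))))))))) (.rp 60 (.str 44 (.nv (.thr 17 29 (.thr 49 37 (.thr 1 33 (.thr 41 61 (.dbl 9 5 57))))) (.nv (.thr 37 49 (.thr 42 59 (.thr 47 32 (.thr 45 46 (.dbl 29 17 61)))))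 (.rp 61 (.thr 37 49 (.thr 42 59 (.thr 32 47 (.thr 40 36 (.thr 41 43 (.thr 33 45 (.dbl 35 34 38))))))) (.rp 49 (.thr 29 17 (.thr 45 61 (.thr 46 47 (.thr 42 59 (.thr 62 2 (.thr 30 14 (.thr 26 18 (.thr 24 27 (.thr 56 40 (.thr 11 41 (.dbl 10 9 58))))))))))) (.rp 46 (.thr 29 17 (.thr 61 45 (.thr 1 41 (.thr 5 9 (.dbl 37 49 53))))) (.rp 37 (.thr 29 17 (.thr 61 45 (.thr 41 1 (.thr 9 57 (.thr 11 10 (.thr 26 56 (.thr 27 24 (.dbl 59 42 43)))))))) (.rp 29 (.thr 37 49 (.thr 5 53 (.thr 9 1 (.thr 42 59 (.thr 32 47 (.thr 40 36 (.dbl 41 43 57))))))) (.rp 17 (.thr 37 49 (.thr 5 53 (.thr 1 9 (.thr 61 41 (.thr 45 29 (.thr 42 59 (.dbl 47 32 46))))))) .nd))))))))) (.rp 44 (.str 60 (.nv (.thr 29 17 (.thr 42 59 (.thr 61 45 (.dbl 62 2 63)))) (.nv (.thr 41 3 (.thr 1 61 (.dbl 9 5 57))) (.rp 63 (.thr 29 17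 (.thr 61 45 (.dbl 41 1 3))) (.rp 61 (.thr 17 29 (.thr 41 3 (.thr 9 57 (.thr 1 5 (.dbl 49 33 37))))) .nd))))) (.rp 41 (.thr 37 49 (.thr 5 53 (.thr 9 1 (.thr 10 11 (.thr 42 59 (.thr 26 58 (.thr 18 30 (.thr 2 62 (.thr 14 6 (.dbl 50 34 38)))))))))) (.rp 29 (.thr 37 49 (.thr 5 53 (.thr 9 1 (.thr 11 10 (.thr 7 52 (.thr 3 15 (.dbl 41 57 60))))))) (.rp 17 (.thr 37 49 (.thr 5 53 (.thr 1 9 (.thr 61 41 (.thr 45 29 (.thr 42 59 (.thr 62 2 (.thr 47 32 (.thr 60 63 (.thr 46 44 (.dbl 30 14 15))))))))))) (.rp 1 (.thr 29 17 (.thr 61 45 (.thr 49 37 (.thr 57 53 (.thr 41 9 (.thr 59 42 (.thr 56 58 (.thr 26 11 (.dbl 24 27 40))))))))) .nd))))))))))) .nd)))))))))))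

theorem w23 : WinAt (40894464, 276828161) :=
  chF (K := []) kn c23 40894464 276828161 23
    [4369, 1152939097061330944] (by decide +kernel) (by decide +kernel)

/-- A certificate. -/
noncomputable def c24 : Ct := (.str 25 (.nv (.thr 17 29 (.thr 19 28 (.thr 16 18 (.thr 23 20 (.dbl 31 26 27))))) (.nv (.thr 29 17 (.thr 20 23 (.thr 28 19 (.thr 31 30 (.dbl 16 24 26))))) (.rp 31 (.str 49 (.nv (.thr 20 23 (.thr 37 13 (.thr 52 7 (.thr 4 36 (.thr 55 38 (.dbl 53 5 54)))))) (.nv (.thr 13 37 (.thr 29 17 (.thr 61 45 (.thr 57 53 (.dbl 41 1 9))))) (.rp 53 (.thr 17 29 (.thr 1 33 (.thr 41 61 (.thr 9 57 (.dbl 13 5 37))))) (.rp 37 (.str 3 (.nv (.thr 17 29 (.thr 33 1 (.thr 18 48 (.dbl 19 16 28)))) (.nv (.thr 41 60 (.thr 57 9 (.dbl 61 1 53))) (.nv (.thr 17 29 (.thr 1 33 (.dbl 41 60 61))) (.rp 28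 (.thr 23 20 (.thr 60 41 (.thr 63 43 (.thr 61 62 (.thr 53 57 (.thr 48 58 (.thr 33 18 (.dbl 17 1 29)))))))) (.rp 8 (.str 4 (.nv (.thr 23 20 (.thr 55 38 (.thr 63 43 (.thr 51 59 (.dbl 19 28 35))))) (.nv (.thr 17 29 (.thr 1 33 (.dbl 41 60 61))) (.rp 63 (.thr 41 60 (.thr 61 1 (.dbl 57 9 53))) (.rp 60 (.thr 17 29 (.thr 33 1 (.thr 18 48 (.dbl 19 16 28)))) (.rp 28 (.thr 38 55 (.thr 41 60 (.thr 44 35 (.thr 1 61 (.dbl 17 29 33))))) .nd)))))) (.rp 4 (.str 8 (.nv (.thr 17 29 (.thr 33 1 (.thr 18 48 (.dbl 19 16 28)))) (.nv (.thr 23 20 (.thr 42 59 (.thr 62 2 (.thr 63 43 (.dbl 60 41 61))))) (.nv (.thr 17 29 (.thr 1 33 (.dbl 41 60 61))) (.rp 63 (.thr 41 60 (.thr 61 1 (.dbl 57 9 53))) .nd))))) (.rp 1 (.thr 19 28 (.thr 51 35 (.thr 48 50 (.thr 18 33 (.dbl 17 16 29))))) .nd)))))))) (.rp 13 (.thr 17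 29 (.thr 20 23 (.thr 1 33 (.thr 61 41 (.thr 53 57 (.thr 37 5 (.thr 52 7 (.thr 55 54 (.dbl 4 36 38))))))))) (.rp 8 (.str 4 (.nv (.thr 13 37 (.thr 17 29 (.thr 1 33 (.thr 41 61 (.dbl 9 5 57))))) (.nv (.thr 37 13 (.thr 5 53 (.dbl 7 6 52))) (.rp 37 (.thr 17 29 (.thr 1 33 (.thr 41 61 (.thr 9 57 (.thr 38 55 (.thr 6 54 (.dbl 5 7 13))))))) (.rp 13 (.thr 20 23 (.thr 52 36 (.thr 7 37 (.thr 6 5 (.dbl 38 54 55))))) (.rp 5 (.thr 20 23 (.thr 37 13 (.dbl 52 7 36))) .nd)))))) (.rp 4 (.str 8 (.nv (.thr 13 37 (.thr 17 29 (.thr 1 33 (.thr 41 61 (.dbl 9 5 57))))) (.nv (.thr 13 37 (.thr 29 17 (.thr 61 45 (.thr 57 53 (.dbl 41 1 9))))) (.rp 61 (.thr 17 29 (.thr 13 37 (.thr 1 33 (.thr 9 5 (.thr 41 57 (.thr 42 59 (.thr 40 43 (.thr 56 24 (.dbl 11 10 26))))))))) (.rp 57 (.thr 29 17 (.thr 13 37 (.thr 61 45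 (.thr 42 59 (.thr 62 2 (.thr 60 63 (.dbl 41 1 3))))))) (.rp 41 (.thr 17 29 (.thr 20 23 (.thr 37 13 (.thr 5 53 (.thr 7 52 (.thr 33 1 (.thr 42 59 (.thr 2 62 (.thr 32 47 (.thr 34 35 (.thr 18 50 (.dbl 19 16 28)))))))))))) (.rp 37 (.thr 17 29 (.thr 20 23 (.thr 1 33 (.thr 41 61 (.thr 42 59 (.thr 40 43 (.thr 24 56 (.dbl 28 16 19)))))))) (.rp 33 (.thr 29 17 (.thr 13 37 (.thr 61 45 (.thr 41 1 (.dbl 57 9 53))))) (.rp 29 (.thr 37 13 (.thr 53 5 (.thr 61 57 (.thr 42 59 (.thr 62 2 (.thr 63 60 (.thr 58 48 (.thr 54 50 (.dbl 52 7 55))))))))) (.rp 17 (.thr 37 13 (.thr 53 5 (.thr 61 57 (.thr 42 59 (.thr 62 2 (.thr 60 63 (.dbl 41 1 3))))))) (.rp 13 (.thr 17 29 (.thr 1 33 (.thr 61 41 (.thr 53 57 (.thr 37 5 (.thr 42 59 (.thr 62 2 (.thr 63 60 (.thr 58 48 (.thr 54 50 (.dbl 52 7 55))))))))))) (.rp 9 (.thr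 17 29 (.thr 37 13 (.thr 53 5 (.thr 1 33 (.dbl 61 41 57))))) (.rp 1 (.thr 29 17 (.thr 20 23 (.thr 13 37 (.thr 61 45 (.thr 57 53 (.thr 59 42 (.thr 56 58 (.thr 24 40 (.dbl 28 16 19))))))))) .nd))))))))))))) .nd)))))))) (.rp 30 (.thr 17 29 (.thr 23 20 (.thr 19 28 (.thr 31 27 (.dbl 16 18 26))))) (.rp 29 (.str 24 (.nv (.thr 20 23 (.dbl 28 16 19)) (.rp 63 (.str 46 (.nv (.thr 28 19 (.dbl 20 16 23)) (.rp 28 (.thr 26 27 (.thr 30 18 (.thr 62 14 (.thr 42 2 (.thr 8 59 (.thr 56 40 (.thr 10 58 (.dbl 11 9 41)))))))) (.rp 23 (.thr 28 19 (.thr 16 20 (.dbl 26 27 31))) (.rp 20 (.thr 26 27 (.thr 30 18 (.thr 62 14 (.thr 42 2 (.thr 8 59 (.thr 10 58 (.thr 11 9 (.dbl 56 40 41)))))))) (.rp 19 (.thr 20 23 (.thr 16 28 (.dbl 26 27 31))) (.rp 16 (.thr 23 20 (.thr 27 26 (.dbl 19 28 31))) (.rp 8 (.str 4 (.nv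 (.thr 26 27 (.thr 30 18 (.thr 14 62 (.dbl 38 50 55)))) (.nv (.thr 28 19 (.dbl 20 16 23)) .nd))) (.rp 4 (.str 8 (.nv (.thr 26 27 (.thr 30 18 (.thr 42 59 (.dbl 62 2 14)))) (.nv (.thr 28 19 (.dbl 20 16 23)) .nd))) .nd))))))))) (.rp 46 (.str 63 (.nv (.thr 20 23 (.dbl 28 16 19)) (.rp 28 (.thr 23 20 (.thr 27 26 (.thr 31 19 (.thr 15 47 (.thr 51 39 (.thr 59 55 (.dbl 43 3 11))))))) (.rp 23 (.thr 28 19 (.thr 16 20 (.dbl 26 27 31))) (.rp 20 (.thr 26 27 (.thr 31 16 (.thr 18 30 (.thr 15 47 (.thr 48 37 (.thr 3 33 (.thr 11 7 (.dbl 41 56 60)))))))) (.rp 19 (.thr 20 23 (.thr 16 28 (.dbl 26 27 31))) (.rp 16 (.thr 23 20 (.thr 19 28 (.dbl 27 26 31))) (.rp 8 (.str 4 (.nv (.thr 20 23 (.dbl 28 16 19)) (.rp 28 (.thr 20 23 (.thr 55 38 (.thr 52 36 (.thr 53 54 (.dbl 37 5 7))))) (.rp 23 (.thr 28 19 (.thr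 16 20 (.dbl 26 27 31))) (.rp 20 (.thr 19 28 (.thr 27 26 (.thr 31 23 (.thr 55 38 (.thr 51 59 (.dbl 15 39 47)))))) (.rp 19 (.thr 20 23 (.thr 16 28 (.dbl 26 27 31))) (.rp 16 (.thr 23 20 (.thr 19 28 (.dbl 27 26 31))) .nd))))))) (.rp 4 (.str 8 (.nv (.thr 23 20 (.thr 27 26 (.thr 43 3 (.dbl 59 11 42)))) (.nv (.thr 28 19 (.dbl 20 16 23)) (.rp 23 (.thr 28 19 (.thr 16 20 (.dbl 26 27 31))) (.rp 20 (.thr 26 27 (.thr 42 59 (.thr 10 58 (.thr 11 9 (.dbl 56 40 41))))) .nd))))) .nd))))))))) (.rp 28 (.thr 26 27 (.thr 30 18 (.str 60 (.nv (.thr 3 41 (.thr 23 20 (.thr 31 16 (.thr 63 43 (.dbl 15 45 47))))) (.nv (.thr 15 45 (.thr 48 37 (.thr 56 52 (.dbl 41 3 11)))) (.rp 63 (.str 46 (.nv (.thr 14 62 (.thr 38 50 (.thr 54 6 (.thr 57 51 (.dbl 41 3 9))))) (.nv (.thr 15 45 (.thr 48 37 (.thr 56 52 (.dbl 41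 3 11)))) (.rp 48 (.thr 62 14 (.thr 42 2 (.thr 8 59 (.thr 56 40 (.dbl 41 3 11))))) (.rp 41 (.thr 62 14 (.thr 15 45 (.thr 42 2 (.thr 8 59 (.thr 56 40 (.dbl 48 37 52)))))) (.rp 15 (.thr 20 23 (.thr 14 62 (.thr 38 50 (.thr 4 55 (.thr 52 36 (.thr 56 48 (.dbl 41 3 11))))))) (.rp 8 (.str 4 (.nv (.thr 3 41 (.thr 15 45 (.thr 7 11 (.dbl 37 48 52)))) (.nv (.thr 14 62 (.dbl 38 50 55)) .nd))) (.rp 4 (.str 8 (.nv (.thr 62 14 (.dbl 42 2 59)) (.nv (.thr 56 40 (.dbl 41 3 11)) .nd))) (.rp 3 (.thr 62 14 (.thr 15 45 (.thr 48 37 (.thr 56 52 (.thr 8 40 (.dbl 42 2 59)))))) .nd))))))))) (.rp 48 (.thr 23 20 (.thr 15 45 (.thr 3 41 (.thr 63 43 (.dbl 31 16 47))))) (.rp 46 (.str 63 (.nv (.thr 15 45 (.dbl 31 16 47)) (.nv (.thr 23 20 (.dbl 3 41 43)) (.rp 8 (.str 4 (.nv (.thr 15 45 (.dbl 31 16 47)) (.nv (.thr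 23 20 (.dbl 3 41 43)) .nd))) (.rp 4 (.str 8 (.nv (.thr 15 45 (.dbl 31 16 47)) (.nv (.thr 56 40 (.dbl 41 3 11)) .nd))) .nd))))) (.rp 45 (.thr 41 3 (.thr 56 11 (.thr 8 40 (.thr 59 42 (.dbl 57 9 58))))) (.rp 41 (.thr 20 23 (.thr 15 45 (.thr 37 48 (.thr 52 7 (.thr 4 36 (.thr 55 38 (.dbl 53 5 54))))))) (.rp 15 (.thr 23 20 (.thr 3 41 (.thr 63 43 (.thr 62 61 (.thr 14 46 (.thr 50 38 (.thr 58 54 (.dbl 42 2 10)))))))) (.rp 11 (.thr 23 20 (.thr 31 16 (.thr 15 45 (.thr 63 47 (.dbl 3 41 43))))) (.rp 8 (.str 4 (.nv (.thr 38 55 (.thr 54 6 (.thr 57 51 (.dbl 41 3 9)))) (.nv (.thr 20 23 (.thr 52 36 (.thr 48 56 (.dbl 37 7 15)))) (.rp 63 (.str 46 (.nv (.thr 3 41 (.thr 15 45 (.thr 7 11 (.dbl 37 48 52)))) (.nv (.thr 14 62 (.dbl 38 50 55)) .nd))) (.rp 46 (.str 63 (.nv (.thr 15 45 (.dbl 31 16 47)) (.nv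 (.thr 23 20 (.dbl 3 41 43)) .nd))) (.rp 15 (.thr 20 23 (.thr 52 36 (.thr 56 48 (.dbl 41 3 11)))) .nd)))))) (.rp 4 (.str 8 (.nv (.thr 3 41 (.thr 15 45 (.thr 7 11 (.dbl 37 48 52)))) (.nv (.thr 15 45 (.thr 56 40 (.dbl 48 37 52))) (.nv (.thr 56 40 (.dbl 41 3 11)) (.rp 63 (.str 46 (.nv (.thr 62 14 (.dbl 42 2 59)) (.nv (.thr 56 40 (.dbl 41 3 11)) .nd))) (.rp 46 (.str 63 (.nv (.thr 15 45 (.dbl 31 16 47)) (.nv (.thr 56 40 (.dbl 41 3 11)) .nd))) .nd)))))) (.rp 3 (.thr 31 16 (.thr 15 45 (.thr 63 47 (.thr 61 62 (.thr 48 37 (.thr 56 52 (.dbl 41 1 11))))))) .nd))))))))))))))) (.rp 23 (.thr 28 19 (.thr 16 20 (.dbl 26 27 31))) (.rp 20 (.thr 26 27 (.thr 30 18 (.thr 19 28 (.str 60 (.nv (.thr 41 3 (.thr 56 11 (.thr 8 40 (.thr 59 42 (.dbl 57 9 58))))) (.nv (.thr 15 45 (.thr 31 16 (.thr 63 47 (.thr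 61 62 (.dbl 41 1 3))))) (.nv (.thr 15 45 (.thr 48 37 (.thr 56 52 (.dbl 41 3 11)))) (.rp 63 (.str 46 (.nv (.thr 15 45 (.thr 48 37 (.thr 56 52 (.dbl 41 3 11)))) (.nv (.thr 3 41 (.thr 14 62 (.thr 51 35 (.thr 54 57 (.dbl 38 6 50))))) (.rp 41 (.thr 62 14 (.thr 15 45 (.thr 42 2 (.thr 8 59 (.thr 56 40 (.dbl 48 37 52)))))) (.rp 8 (.str 4 (.nv (.thr 3 41 (.thr 15 45 (.thr 7 11 (.dbl 37 48 52)))) (.nv (.thr 14 62 (.dbl 38 50 55)) .nd))) (.rp 4 (.str 8 (.nv (.thr 62 14 (.dbl 42 2 59)) (.nv (.thr 56 40 (.dbl 41 3 11)) (.rp 52 (.str 36 (.nv (.thr 62 14 (.dbl 42 2 59)) (.nv (.thr 56 40 (.dbl 41 3 11)) .nd))) (.rp 36 (.str 52 (.nv (.thr 42 59 (.dbl 62 2 14)) (.nv (.dbl 56 40 48) .nd))) .nd))))) (.rp 3 (.thr 62 14 (.thr 15 45 (.thr 48 37 (.thr 56 52 (.thr 8 40 (.dbl 42 2 59)))))) .nd))))))) (.rp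 48 (.thr 15 45 (.thr 3 41 (.thr 7 11 (.thr 51 35 (.thr 54 57 (.thr 37 52 (.thr 5 53 (.dbl 6 4 38)))))))) (.rp 46 (.str 63 (.nv (.thr 31 16 (.dbl 15 45 47)) (.nv (.thr 61 62 (.dbl 41 1 3)) (.rp 8 (.str 4 (.nv (.thr 31 16 (.dbl 15 45 47)) (.nv (.thr 61 62 (.dbl 41 1 3)) .nd))) (.rp 4 (.str 8 (.nv (.thr 31 16 (.dbl 15 45 47)) (.nv (.thr 56 40 (.dbl 41 3 11)) (.rp 52 (.str 36 (.nv (.thr 31 16 (.dbl 15 45 47)) (.nv (.thr 56 40 (.dbl 41 3 11)) .nd))) (.rp 36 (.str 52 (.nv (.thr 15 45 (.dbl 31 16 47)) (.nv (.dbl 56 40 48) .nd))) .nd))))) .nd))))) (.rp 41 (.thr 15 45 (.thr 37 48 (.thr 52 7 (.thr 53 5 (.thr 54 55 (.thr 57 51 (.dbl 49 13 61))))))) (.rp 15 (.thr 3 41 (.thr 51 35 (.thr 54 57 (.thr 38 6 (.thr 14 50 (.thr 62 46 (.thr 63 61 (.dbl 55 4 59)))))))) (.rp 8 (.str 4 (.nv (.thr 15 45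 (.thr 38 55 (.thr 6 54 (.thr 5 7 (.dbl 37 48 53))))) (.nv (.thr 3 41 (.thr 15 45 (.thr 7 11 (.dbl 37 48 52)))) (.nv (.thr 38 55 (.thr 54 6 (.thr 3 41 (.dbl 51 35 57)))) (.rp 63 (.str 46 (.nv (.thr 3 41 (.thr 15 45 (.thr 7 11 (.dbl 37 48 52)))) (.nv (.thr 14 62 (.dbl 38 50 55)) .nd))) (.rp 46 (.str 63 (.nv (.thr 31 16 (.dbl 15 45 47)) (.nv (.thr 61 62 (.dbl 41 1 3)) .nd))) .nd)))))) (.rp 4 (.str 8 (.nv (.thr 3 41 (.thr 15 45 (.thr 7 11 (.dbl 37 48 52)))) (.nv (.thr 15 45 (.thr 56 40 (.dbl 48 37 52))) (.nv (.thr 56 40 (.dbl 41 3 11)) (.rp 63 (.str 46 (.nv (.thr 62 14 (.dbl 42 2 59)) (.nv (.thr 56 40 (.dbl 41 3 11)) (.rp 52 (.str 36 (.nv (.thr 62 14 (.dbl 42 2 59)) (.nv (.thr 56 40 (.dbl 41 3 11)) .nd))) (.rp 36 (.str 52 (.nv (.thr 42 59 (.dbl 62 2 14)) (.nv (.dbl 56 40 48) .nd)))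 .nd))))) (.rp 52 (.str 36 (.nv (.thr 41 3 (.thr 9 57 (.thr 10 11 (.dbl 42 58 59)))) (.nv (.thr 56 40 (.dbl 41 3 11)) (.rp 63 (.str 46 (.nv (.thr 62 14 (.dbl 42 2 59)) (.nv (.thr 56 40 (.dbl 41 3 11)) .nd))) (.rp 46 (.str 63 (.nv (.thr 31 16 (.dbl 15 45 47)) (.nv (.thr 56 40 (.dbl 41 3 11)) .nd))) (.rp 41 (.thr 31 16 (.thr 15 45 (.thr 63 47 (.thr 42 59 (.dbl 62 2 61))))) (.rp 11 (.thr 41 3 (.thr 40 56 (.dbl 42 43 59))) (.rp 3 (.thr 56 40 (.thr 11 41 (.thr 42 59 (.dbl 10 9 58)))) .nd)))))))) (.rp 46 (.str 63 (.nv (.thr 31 16 (.dbl 15 45 47)) (.nv (.thr 56 40 (.dbl 41 3 11)) (.rp 52 (.str 36 (.nv (.thr 31 16 (.dbl 15 45 47)) (.nv (.thr 56 40 (.dbl 41 3 11)) .nd))) (.rp 36 (.str 52 (.nv (.thr 15 45 (.dbl 31 16 47)) (.nv (.dbl 56 40 48) .nd))) .nd))))) (.rp 36 (.str 52 (.nv (.thr 3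 41 (.thr 7 37 (.dbl 15 11 45))) (.nv (.dbl 56 40 48) (.rp 63 (.str 46 (.nv (.thr 42 59 (.dbl 62 2 14)) (.nv (.dbl 56 40 48) .nd))) (.rp 46 (.str 63 (.nv (.thr 15 45 (.dbl 31 16 47)) (.nv (.dbl 56 40 48) .nd))) .nd))))) .nd)))))))) (.rp 3 (.thr 31 16 (.thr 15 45 (.thr 63 47 (.thr 61 62 (.thr 48 37 (.thr 56 52 (.dbl 41 1 11))))))) .nd))))))))))))))) (.rp 19 (.thr 20 23 (.thr 16 28 (.dbl 26 27 31))) (.rp 16 (.thr 23 20 (.thr 19 28 (.dbl 27 26 31))) (.rp 8 (.str 4 (.nv (.thr 20 23 (.dbl 28 16 19)) (.rp 63 (.str 46 (.nv (.thr 26 27 (.thr 30 18 (.thr 14 62 (.dbl 38 50 55)))) (.nv (.thr 28 19 (.dbl 20 16 23)) .nd))) (.rp 46 (.str 63 (.nv (.thr 20 23 (.dbl 28 16 19)) (.rp 28 (.thr 20 23 (.thr 55 38 (.thr 52 36 (.thr 53 54 (.dbl 37 5 7))))) (.rp 23 (.thr 28 19 (.thr 16 20 (.dbl 26 27 31)))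 (.rp 20 (.thr 19 28 (.thr 27 26 (.thr 31 23 (.thr 55 38 (.thr 51 59 (.dbl 15 39 47)))))) (.rp 19 (.thr 20 23 (.thr 16 28 (.dbl 26 27 31))) (.rp 16 (.thr 23 20 (.thr 19 28 (.dbl 27 26 31))) .nd))))))) (.rp 28 (.thr 20 23 (.thr 52 36 (.thr 7 37 (.thr 6 5 (.dbl 38 54 55))))) (.rp 23 (.thr 28 19 (.thr 16 20 (.dbl 26 27 31))) (.rp 20 (.thr 26 27 (.thr 18 30 (.thr 38 55 (.thr 54 6 (.thr 50 14 (.thr 62 58 (.dbl 2 34 42))))))) (.rp 19 (.thr 20 23 (.thr 16 28 (.dbl 26 27 31))) (.rp 16 (.thr 23 20 (.thr 19 28 (.dbl 27 26 31))) .nd))))))))) (.rp 4 (.str 8 (.nv (.thr 28 19 (.dbl 20 16 23)) (.rp 63 (.str 46 (.nv (.thr 26 27 (.thr 30 18 (.thr 42 59 (.dbl 62 2 14)))) (.nv (.thr 28 19 (.dbl 20 16 23)) .nd))) (.rp 46 (.str 63 (.nv (.thr 23 20 (.thr 27 26 (.thr 43 3 (.dbl 59 11 42)))) (.nv (.thr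 28 19 (.dbl 20 16 23)) (.rp 23 (.thr 28 19 (.thr 16 20 (.dbl 26 27 31))) (.rp 20 (.thr 26 27 (.thr 42 59 (.thr 10 58 (.thr 11 9 (.dbl 56 40 41))))) .nd))))) (.rp 28 (.thr 26 27 (.thr 56 40 (.thr 11 41 (.thr 10 9 (.dbl 42 58 59))))) (.rp 23 (.thr 28 19 (.thr 16 20 (.dbl 26 27 31))) (.rp 20 (.thr 26 27 (.thr 42 59 (.thr 10 58 (.thr 11 9 (.dbl 56 40 41))))) (.rp 19 (.thr 20 23 (.thr 16 28 (.dbl 26 27 31))) (.rp 16 (.thr 27 26 (.thr 19 28 (.dbl 23 20 31))) .nd))))))))) .nd))))))))))) (.rp 28 (.thr 20 23 .ext) (.rp 26 (.thr 28 19 (.str 37 (.nv (.thr 17 29 (.thr 49 13 (.thr 1 33 (.thr 53 5 (.dbl 61 41 57))))) (.nv (.thr 5 53 (.thr 23 20 (.thr 7 52 (.thr 55 39 (.dbl 4 6 38))))) (.rp 53 (.thr 29 17 (.thr 13 49 (.thr 61 45 (.thr 1 41 (.thr 5 9 (.thr 7 52 (.thr 23 20 (.thr 55 39 (.dbl 4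 6 38))))))))) (.rp 8 (.str 4 (.nv (.thr 20 23 (.thr 36 52 (.dbl 38 39 55))) (.nv (.thr 5 53 (.dbl 7 6 52)) (.rp 52 (.thr 5 53 (.thr 6 7 (.dbl 38 54 55))) .nd)))) (.rp 5 (.thr 17 29 (.thr 49 13 (.thr 1 33 (.thr 61 41 (.thr 53 57 (.thr 52 7 (.thr 20 23 (.thr 4 36 (.dbl 55 38 54))))))))) (.rp 4 (.str 8 (.nv (.thr 5 53 (.thr 7 52 (.thr 13 49 (.thr 9 1 (.thr 11 10 (.thr 3 15 (.dbl 41 57 60))))))) (.nv (.thr 5 53 (.thr 29 17 (.thr 13 49 (.thr 61 45 (.dbl 1 9 41))))) (.nv (.thr 5 53 (.thr 13 49 (.thr 1 9 (.thr 61 41 (.dbl 29 17 45))))) (.rp 61 (.thr 17 29 (.thr 13 49 (.thr 53 5 (.thr 7 52 (.thr 20 23 (.thr 24 16 (.thr 40 56 (.thr 42 59 (.thr 2 62 (.thr 41 43 (.thr 33 45 (.thr 57 9 (.thr 32 47 (.thr 44 36 (.dbl 35 34 38))))))))))))))) (.rp 53 (.thr 29 17 (.thr 13 49 (.thr 61 45 (.thr 42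 59 (.thr 62 2 (.thr 60 63 (.dbl 41 1 3))))))) (.rp 49 (.thr 53 5 (.thr 20 23 (.thr 24 16 (.thr 56 40 (.thr 59 42 (.thr 58 57 (.thr 48 63 (.dbl 52 7 60)))))))) (.rp 41 (.thr 20 23 (.thr 24 16 (.thr 56 40 (.thr 49 13 (.thr 53 5 (.thr 57 61 (.dbl 59 42 58))))))) (.rp 17 (.thr 49 13 (.thr 53 5 (.thr 61 57 (.thr 42 59 (.thr 62 2 (.thr 60 63 (.dbl 41 1 3))))))) (.rp 13 (.thr 53 5 (.thr 20 23 (.thr 24 16 (.thr 56 40 (.thr 59 42 (.thr 58 57 (.thr 48 63 (.dbl 52 7 60)))))))) (.rp 9 (.thr 17 29 (.thr 49 13 (.thr 1 33 (.thr 53 5 (.dbl 61 41 57))))) (.rp 5 (.thr 29 17 (.thr 13 49 (.thr 61 45 (.thr 42 59 (.thr 62 2 (.thr 60 63 (.dbl 41 1 3))))))) (.rp 1 (.thr 17 29 (.thr 13 49 (.thr 5 53 (.thr 52 7 (.thr 20 23 (.thr 24 16 (.thr 40 56 (.thr 42 59 (.thr 2 62 (.thr 41 43 (.thr 33 45 (.thr 57 9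 (.thr 3 60 (.thr 48 18 (.thr 32 47 (.thr 44 36 (.dbl 35 34 38))))))))))))))))) .nd))))))))))))) .nd)))))))) (.rp 23 (.str 16 (.nv (.thr 28 19 (.thr 24 20 (.dbl 26 27 31))) (.nv (.thr 17 29 (.dbl 19 18 28)) (.rp 28 (.thr 17 29 (.thr 18 19 (.dbl 26 30 31))) (.rp 19 (.str 41 (.nv (.thr 1 61 (.thr 3 60 (.thr 17 29 (.thr 33 49 (.thr 18 48 (.dbl 26 30 31)))))) (.nv (.thr 31 26 (.thr 29 17 (.thr 30 28 (.thr 60 3 (.thr 45 15 (.dbl 61 1 13)))))) (.nv (.thr 9 57 (.thr 26 31 (.thr 27 24 (.thr 11 56 (.thr 59 43 (.dbl 8 10 42)))))) (.nv (.thr 1 61 (.thr 9 57 (.thr 13 5 (.thr 49 37 (.dbl 17 29 33))))) (.rp 31 (.str 27 (.nv (.thr 26 24 (.thr 11 56 (.thr 59 43 (.thr 9 57 (.dbl 8 10 42))))) (.nv (.thr 3 60 (.thr 26 24 (.thr 11 56 (.thr 15 7 (.thr 48 37 (.dbl 18 30 33)))))) (.nv (.thr 1 61 (.thr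 9 57 (.thr 13 5 (.thr 49 37 (.dbl 17 29 33))))) (.rp 8 (.str 4 (.nv (.thr 1 61 (.thr 9 57 (.thr 38 55 (.thr 6 54 (.dbl 5 7 13))))) (.nv (.thr 1 61 (.thr 3 60 (.thr 26 24 (.thr 18 30 (.thr 48 33 (.thr 15 37 (.dbl 11 7 56))))))) (.nv (.thr 9 57 (.thr 1 61 (.thr 13 5 (.thr 49 37 (.dbl 17 29 33))))) (.rp 61 (.thr 24 26 (.thr 20 28 (.thr 52 36 (.thr 7 37 (.thr 6 5 (.dbl 38 54 55)))))) (.rp 1 (.thr 24 26 (.thr 20 28 (.thr 52 36 (.thr 7 37 (.thr 6 5 (.dbl 38 54 55)))))) .nd)))))) (.rp 4 (.str 8 (.nv (.thr 1 61 (.thr 9 57 (.thr 13 5 (.thr 17 29 (.dbl 49 33 37))))) (.nv (.thr 24 26 (.thr 40 56 (.dbl 42 43 59))) .nd))) .nd)))))) (.rp 8 (.str 4 (.nv (.thr 1 61 (.thr 3 60 (.thr 17 29 (.thr 33 49 (.thr 18 48 (.dbl 26 30 31)))))) (.nv (.thr 1 61 (.thr 9 57 (.thr 38 55 (.thr 6 54 (.dbl 5 7 13)))))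 (.nv (.thr 1 61 (.thr 9 57 (.thr 13 5 (.thr 49 37 (.dbl 17 29 33))))) (.rp 61 (.thr 60 3 (.thr 26 31 (.thr 27 24 (.thr 30 18 (.thr 56 11 (.thr 48 52 (.dbl 15 37 45))))))) (.rp 57 (.thr 29 17 (.thr 61 1 (.thr 45 13 (.thr 31 26 (.thr 30 28 (.dbl 60 3 15)))))) (.rp 53 (.thr 17 29 (.thr 9 57 (.thr 1 61 (.thr 49 33 (.dbl 13 5 37))))) (.rp 49 (.thr 29 17 (.thr 60 3 (.thr 31 26 (.thr 30 28 (.thr 45 15 (.dbl 61 1 13)))))) (.rp 31 (.str 27 (.nv (.thr 1 61 (.thr 9 57 (.thr 38 55 (.thr 6 54 (.dbl 5 7 13))))) (.nv (.thr 1 61 (.thr 3 60 (.thr 26 24 (.thr 18 30 (.thr 48 33 (.thr 15 37 (.dbl 11 7 56))))))) (.nv (.thr 9 57 (.thr 1 61 (.thr 13 5 (.thr 49 37 (.dbl 17 29 33))))) (.rp 61 (.thr 24 26 (.thr 20 28 (.thr 52 36 (.thr 7 37 (.thr 6 5 (.dbl 38 54 55)))))) (.rp 1 (.thr 24 26 (.thr 20 28 (.thr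 52 36 (.thr 7 37 (.thr 6 5 (.dbl 38 54 55)))))) .nd)))))) (.rp 27 (.thr 31 26 (.thr 17 29 (.thr 9 57 (.thr 1 61 (.thr 13 5 (.dbl 49 33 37)))))) (.rp 13 (.thr 29 17 (.thr 60 3 (.thr 31 26 (.thr 30 28 (.thr 15 45 (.thr 63 47 (.dbl 61 1 62))))))) (.rp 1 (.thr 3 60 (.thr 26 31 (.thr 27 24 (.thr 18 30 (.thr 48 33 (.thr 15 37 (.dbl 11 7 56))))))) .nd)))))))))))) (.rp 4 (.str 8 (.nv (.thr 26 31 (.thr 27 24 (.thr 11 56 (.dbl 59 42 43)))) (.nv (.thr 1 61 (.thr 9 57 (.thr 17 29 (.thr 49 33 (.dbl 13 5 37))))) (.nv (.thr 9 57 (.thr 11 10 (.dbl 26 31 56))) (.rp 31 (.str 27 (.nv (.thr 1 61 (.thr 9 57 (.thr 13 5 (.thr 17 29 (.dbl 49 33 37))))) (.nv (.thr 24 26 (.thr 40 56 (.dbl 42 43 59))) .nd))) (.rp 27 (.thr 31 26 (.thr 17 29 (.thr 9 57 (.thr 1 61 (.thr 13 5 (.dbl 49 33 37)))))) .nd)))))) .nd))))))))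 (.rp 8 (.str 4 (.nv (.thr 28 19 (.thr 24 20 (.dbl 26 27 31))) (.nv (.thr 17 29 (.dbl 19 18 28)) (.rp 28 (.thr 17 29 (.thr 18 19 (.dbl 26 30 31))) (.rp 19 (.thr 38 55 (.thr 6 54 (.thr 7 5 (.thr 52 37 (.thr 20 36 (.thr 24 28 (.dbl 26 27 31))))))) .nd))))) (.rp 4 (.str 8 (.nv (.thr 28 19 (.thr 24 20 (.dbl 26 27 31))) (.nv (.thr 17 29 (.dbl 19 18 28)) (.rp 28 (.thr 17 29 (.thr 18 19 (.dbl 26 30 31))) (.rp 19 (.thr 26 31 (.thr 27 24 (.thr 59 42 (.thr 11 43 (.thr 9 10 (.dbl 41 56 57)))))) .nd))))) .nd))))))) (.rp 20 .ext (.rp 19 (.str 13 (.nv (.thr 20 23 (.thr 37 49 (.thr 52 7 (.thr 4 36 (.thr 53 5 (.dbl 55 38 54)))))) (.nv (.thr 17 29 (.thr 49 37 (.thr 1 33 (.thr 41 61 (.dbl 9 5 57))))) (.rp 49 (.thr 29 17 (.thr 23 20 (.thr 61 45 (.thr 1 41 (.thr 5 9 (.thr 37 53 (.thr 7 52 (.thr 55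 39 (.dbl 4 6 38))))))))) (.rp 37 (.str 60 (.nv (.thr 3 41 (.thr 23 20 (.thr 63 43 (.thr 61 62 (.dbl 29 17 45))))) (.nv (.thr 29 17 (.thr 45 61 (.thr 30 15 (.thr 31 28 (.dbl 26 16 18))))) (.nv (.thr 41 3 (.thr 1 61 (.dbl 9 5 57))) (.rp 61 (.str 30 (.nv (.thr 29 17 (.thr 31 28 (.dbl 26 16 18))) (.rp 51 (.thr 17 29 (.thr 23 20 (.thr 26 18 (.thr 31 16 (.thr 15 45 (.thr 63 47 (.dbl 3 41 43))))))) (.rp 34 (.thr 26 18 (.thr 27 24 (.thr 15 45 (.thr 41 3 (.thr 51 39 (.dbl 57 9 54)))))) (.rp 31 (.thr 26 18 (.thr 27 24 (.thr 15 45 (.thr 41 3 (.thr 51 39 (.dbl 57 9 54)))))) (.rp 29 (.thr 26 18 (.thr 27 24 (.thr 15 45 (.thr 41 3 (.thr 51 39 (.dbl 57 9 54)))))) (.rp 28 (.thr 26 18 (.thr 27 24 (.thr 15 45 (.thr 41 3 (.thr 51 39 (.dbl 57 9 54)))))) (.rp 26 (.thr 29 17 (.thr 23 20 (.thr 31 28 (.thr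 15 45 (.thr 63 47 (.dbl 3 41 43)))))) (.rp 18 (.str 31 (.nv (.dbl 29 17 28) (.rp 29 (.thr 23 20 (.thr 15 45 (.thr 63 47 (.dbl 3 41 43)))) (.rp 28 (.thr 23 20 (.thr 15 45 (.thr 63 47 (.dbl 3 41 43)))) (.rp 17 (.thr 16 26 (.thr 20 23 (.dbl 28 24 29))) (.rp 16 (.thr 17 29 (.thr 23 20 (.thr 15 45 (.thr 63 47 (.dbl 3 41 43))))) (.rp 8 (.str 4 (.nv (.dbl 29 17 28) (.rp 29 (.thr 23 20 (.thr 15 45 (.thr 63 47 (.dbl 3 41 43)))) (.rp 28 (.thr 23 20 (.thr 15 45 (.thr 63 47 (.dbl 3 41 43)))) (.rp 17 (.thr 16 26 (.thr 20 23 (.dbl 28 24 29))) (.rp 16 (.thr 17 29 (.thr 23 20 (.thr 15 45 (.thr 63 47 (.dbl 3 41 43))))) .nd)))))) (.rp 4 (.str 8 (.nv (.dbl 29 17 28) (.rp 29 (.thr 23 20 (.thr 3 41 (.thr 63 43 (.dbl 15 45 47)))) (.rp 28 (.thr 23 20 (.thr 3 41 (.thr 63 43 (.dbl 15 45 47)))) (.rp 17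 (.thr 16 26 (.thr 28 29 (.dbl 20 23 24))) (.rp 16 (.thr 17 29 (.thr 23 20 (.thr 3 41 (.thr 63 43 (.dbl 15 45 47))))) .nd)))))) .nd)))))))) (.rp 17 (.thr 26 18 (.thr 16 31 (.thr 27 24 (.thr 15 45 (.thr 41 3 (.thr 51 39 (.dbl 57 9 54))))))) (.rp 16 (.thr 17 29 (.thr 26 18 (.thr 27 24 (.thr 15 45 (.thr 41 3 (.thr 51 39 (.dbl 57 9 54))))))) (.rp 8 (.str 4 (.nv (.thr 3 41 (.thr 38 55 (.thr 6 54 (.thr 7 5 (.dbl 15 11 45))))) (.nv (.thr 29 17 (.thr 31 28 (.dbl 26 16 18))) .nd))) (.rp 4 (.str 8 (.nv (.thr 41 3 (.thr 9 57 (.thr 11 10 (.dbl 26 18 56)))) (.nv (.thr 29 17 (.thr 31 28 (.dbl 26 16 18))) (.rp 51 (.thr 26 18 (.thr 24 27 (.thr 56 40 (.dbl 41 3 11)))) (.rp 26 (.thr 29 17 (.thr 31 28 (.thr 23 20 (.thr 3 41 (.thr 63 43 (.dbl 15 45 47)))))) (.rp 18 (.thr 23 20 (.thr 3 41 (.thr 43 63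 (.thr 59 42 (.thr 11 27 (.dbl 15 7 45)))))) .nd)))))) .nd))))))))))))) (.rp 8 (.str 4 (.nv (.thr 38 55 (.thr 6 54 (.thr 5 7 (.thr 9 1 (.dbl 41 3 57))))) (.nv (.thr 29 17 (.thr 45 61 (.thr 30 15 (.thr 31 28 (.dbl 26 16 18))))) (.nv (.thr 41 3 (.thr 1 61 (.dbl 9 5 57))) (.rp 5 (.thr 29 17 (.thr 61 45 (.dbl 41 1 3))) .nd))))) (.rp 4 (.str 8 (.nv (.thr 29 17 (.thr 42 59 (.thr 61 45 (.dbl 62 2 63)))) (.nv (.thr 41 3 (.thr 1 61 (.dbl 9 5 57))) (.rp 61 (.thr 41 3 (.thr 9 57 (.thr 11 10 (.thr 26 56 (.thr 27 24 (.dbl 59 42 43)))))) (.rp 51 (.thr 23 20 (.thr 3 41 (.thr 63 43 (.thr 61 62 (.dbl 29 17 45))))) (.rp 41 (.thr 29 17 (.thr 42 59 (.thr 62 2 (.dbl 61 45 63)))) .nd)))))) .nd))))))) (.rp 8 (.str 4 (.nv (.thr 20 23 (.thr 36 52 (.thr 37 49 (.dbl 38 39 55)))) (.nv (.thr 37 49 (.thr 7 52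 (.dbl 5 6 53))) (.rp 52 (.thr 37 49 (.thr 5 53 (.thr 6 7 (.dbl 38 54 55)))) (.rp 49 (.thr 20 23 (.thr 52 36 (.thr 7 37 (.thr 6 5 (.dbl 38 54 55))))) (.rp 37 (.thr 29 17 (.thr 61 45 (.thr 38 55 (.thr 6 54 (.thr 5 7 (.dbl 1 9 41)))))) .nd)))))) (.rp 5 (.thr 29 17 (.thr 61 45 (.thr 41 1 (.thr 57 9 (.dbl 49 37 53))))) (.rp 4 (.str 8 (.nv (.thr 29 17 (.thr 42 59 (.thr 61 45 (.thr 62 2 (.thr 60 63 (.dbl 41 1 3)))))) (.nv (.thr 17 29 (.thr 49 37 (.thr 1 33 (.thr 41 61 (.dbl 9 5 57))))) (.rp 63 (.thr 29 17 (.thr 61 45 (.thr 1 41 (.thr 5 9 (.dbl 37 49 53))))) (.rp 61 (.thr 17 29 (.thr 49 37 (.thr 1 33 (.thr 9 5 (.thr 41 57 (.thr 42 59 (.thr 40 43 (.thr 56 24 (.dbl 11 10 26))))))))) (.rp 41 (.thr 23 20 (.thr 37 49 (.thr 5 53 (.thr 9 1 (.thr 11 10 (.thr 59 42 (.thr 43 27 (.thr 3 63 (.dbl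 7 15 52))))))))) (.rp 29 (.thr 37 49 (.thr 5 53 (.thr 9 1 (.thr 11 10 (.thr 7 52 (.thr 3 15 (.dbl 41 57 60))))))) (.rp 17 (.thr 37 49 (.thr 5 53 (.thr 1 9 (.thr 61 41 (.thr 45 29 (.thr 42 59 (.thr 62 2 (.thr 47 32 (.thr 60 63 (.thr 46 44 (.dbl 30 14 15))))))))))) (.rp 1 (.thr 29 17 (.thr 61 45 (.thr 49 37 (.thr 57 53 (.thr 41 9 (.thr 59 42 (.thr 56 58 (.thr 26 11 (.dbl 24 27 40))))))))) .nd))))))))) .nd)))))))) (.rp 18 (.thr 29 17 (.thr 20 23 (.thr 28 19 (.thr 16 24 (.dbl 31 26 30))))) (.rp 17 .ext (.rp 16 (.thr 20 23 (.str 37 (.nv (.thr 5 53 (.thr 13 49 (.thr 1 9 (.thr 29 17 (.dbl 61 41 45))))) (.nv (.thr 52 7 (.thr 4 36 (.thr 55 38 (.dbl 53 5 54)))) (.rp 53 (.thr 52 7 (.thr 4 36 (.str 48 (.nv (.thr 49 13 (.thr 51 50 (.thr 60 56 (.thr 54 57 (.dbl 38 6 55))))) (.nv (.thr 15 26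 (.thr 60 56 (.thr 45 30 (.dbl 41 3 33)))) (.rp 60 (.thr 49 13 (.thr 17 29 (.thr 33 1 (.thr 3 18 (.thr 51 50 (.dbl 19 28 35)))))) (.rp 56 (.thr 49 13 (.thr 17 29 (.thr 33 1 (.thr 3 18 (.dbl 41 45 60))))) (.rp 55 (.str 39 (.nv (.thr 13 49 (.thr 29 17 (.thr 60 56 (.thr 61 45 (.dbl 41 1 3))))) (.nv (.thr 15 26 (.thr 60 56 (.thr 41 3 (.dbl 45 30 33)))) (.nv (.thr 49 13 (.thr 15 26 (.dbl 51 27 50))) .nd)))) (.rp 39 (.thr 55 38 (.thr 60 56 (.thr 41 3 (.thr 45 33 (.dbl 15 26 30))))) (.rp 15 (.thr 60 56 (.thr 13 49 (.thr 29 17 (.thr 61 45 (.dbl 41 1 3))))) .nd)))))))))) (.rp 48 (.str 32 (.nv (.thr 5 53 (.thr 13 49 (.thr 29 17 (.thr 61 45 (.dbl 1 9 41))))) (.nv (.thr 53 5 (.thr 52 7 (.thr 55 54 (.dbl 4 36 38)))) (.rp 53 (.thr 49 13 (.thr 17 29 (.thr 33 1 (.thr 19 28 (.thr 35 34 (.thr 3 51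 (.dbl 41 45 60))))))) (.rp 36 (.str 24 (.nv (.thr 5 53 (.thr 13 49 (.thr 1 9 (.thr 42 47 (.thr 8 59 (.thr 40 56 (.dbl 41 43 61))))))) (.nv (.thr 49 13 (.thr 53 5 (.thr 61 57 (.thr 1 41 (.dbl 17 29 33))))) (.rp 61 (.thr 26 27 (.thr 42 47 (.thr 10 58 (.thr 8 59 (.thr 56 40 (.dbl 11 9 41)))))) (.rp 57 (.thr 29 17 (.thr 13 49 (.thr 5 53 (.thr 61 45 (.dbl 1 9 41))))) (.rp 53 (.thr 26 27 (.thr 42 47 (.thr 8 59 (.thr 56 40 (.thr 11 41 (.dbl 10 9 58)))))) (.rp 49 (.thr 26 27 (.thr 42 47 (.thr 10 58 (.thr 8 59 (.thr 56 40 (.dbl 11 9 41)))))) (.rp 41 (.thr 17 29 (.thr 13 49 (.thr 5 53 (.thr 1 9 (.thr 52 7 (.thr 19 28 (.thr 26 27 (.thr 30 18 (.thr 42 47 (.thr 58 10 (.thr 62 2 (.thr 50 54 (.dbl 14 38 46))))))))))))) (.rp 13 (.thr 26 27 (.thr 42 47 (.thr 10 58 (.thr 8 59 (.thr 56 40 (.dbl 11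 9 41)))))) (.rp 9 (.thr 17 29 (.thr 49 13 (.thr 1 33 (.thr 53 5 (.dbl 61 41 57))))) (.rp 8 (.str 4 (.nv (.thr 7 52 (.thr 6 5 (.dbl 38 54 55))) (.nv (.thr 5 53 (.dbl 7 6 52)) (.rp 52 (.thr 5 53 (.thr 6 7 (.dbl 38 54 55))) (.rp 7 (.thr 17 29 (.thr 49 13 (.thr 1 33 (.thr 53 5 (.dbl 61 41 57))))) (.rp 6 (.thr 53 5 (.thr 52 7 (.dbl 55 38 54))) (.rp 5 (.thr 49 13 (.thr 42 47 (.thr 38 55 (.thr 34 46 (.thr 33 35 (.dbl 17 1 29)))))) .nd))))))) (.rp 5 (.thr 26 27 (.thr 42 47 (.thr 10 58 (.thr 8 59 (.thr 56 40 (.dbl 11 9 41)))))) (.rp 4 (.str 8 (.nv (.dbl 42 47 59) (.rp 59 (.thr 56 40 (.thr 26 27 (.thr 11 41 (.thr 10 9 (.dbl 42 47 58))))) (.rp 47 (.thr 56 40 (.thr 49 13 (.thr 53 5 (.thr 57 61 (.dbl 59 42 58))))) (.rp 42 (.thr 17 29 (.thr 49 13 (.thr 1 33 (.thr 53 5 (.dbl 61 41 57))))) .nd)))))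 (.rp 1 (.thr 26 27 (.thr 42 47 (.thr 10 58 (.thr 8 59 (.thr 56 40 (.dbl 11 9 41)))))) .nd)))))))))))))) (.rp 24 (.str 36 (.nv (.thr 4 52 (.dbl 38 39 55)) (.nv (.dbl 52 4 7) (.rp 52 (.thr 44 40 (.thr 13 49 (.thr 29 17 (.thr 45 61 (.dbl 47 42 46))))) (.rp 4 (.str 8 (.nv (.dbl 42 47 59) (.rp 59 (.thr 44 40 (.thr 13 49 (.thr 29 17 (.thr 45 61 (.dbl 47 42 46))))) (.rp 47 (.thr 44 40 (.thr 38 39 (.thr 35 41 (.thr 34 33 (.dbl 42 46 59))))) (.rp 42 (.thr 5 53 (.thr 13 49 (.thr 1 9 (.thr 29 17 (.dbl 61 41 45))))) .nd))))) .nd))))) (.rp 8 (.str 4 (.nv (.thr 36 52 (.dbl 38 39 55)) (.nv (.dbl 52 7 36) (.rp 52 (.thr 5 53 (.thr 6 7 (.dbl 38 54 55))) (.rp 36 (.str 24 (.nv (.thr 7 52 (.thr 6 5 (.dbl 38 54 55))) (.nv (.thr 5 53 (.dbl 7 6 52)) (.rp 52 (.thr 5 53 (.thr 6 7 (.dbl 38 54 55))) (.rp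 7 (.thr 17 29 (.thr 49 13 (.thr 1 33 (.thr 53 5 (.dbl 61 41 57))))) (.rp 6 (.thr 53 5 (.thr 52 7 (.dbl 55 38 54))) (.rp 5 (.thr 49 13 (.thr 42 47 (.thr 38 55 (.thr 34 46 (.thr 33 35 (.dbl 17 1 29)))))) .nd))))))) .nd))))) (.rp 5 (.thr 13 49 (.thr 29 17 (.thr 45 61 (.thr 52 7 (.thr 47 42 (.thr 44 46 (.dbl 36 4 40))))))) (.rp 4 (.str 8 (.nv (.dbl 42 47 59) (.rp 59 (.thr 17 29 (.thr 49 13 (.thr 1 33 (.thr 53 5 (.dbl 61 41 57))))) (.rp 47 (.thr 17 29 (.thr 49 13 (.thr 1 33 (.thr 53 5 (.dbl 61 41 57))))) (.rp 42 (.thr 17 29 (.thr 49 13 (.thr 1 33 (.thr 53 5 (.dbl 61 41 57))))) (.rp 36 (.str 24 (.nv (.dbl 42 47 59) (.rp 59 (.thr 56 40 (.thr 26 27 (.thr 11 41 (.thr 10 9 (.dbl 42 47 58))))) (.rp 47 (.thr 56 40 (.thr 49 13 (.thr 53 5 (.thr 57 61 (.dbl 59 42 58))))) (.rp 42 (.thr 17 29 (.thr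 49 13 (.thr 1 33 (.thr 53 5 (.dbl 61 41 57))))) .nd))))) (.rp 24 (.str 36 (.nv (.dbl 42 47 59) (.rp 59 (.thr 44 40 (.thr 13 49 (.thr 29 17 (.thr 45 61 (.dbl 47 42 46))))) (.rp 47 (.thr 44 40 (.thr 38 39 (.thr 35 41 (.thr 34 33 (.dbl 42 46 59))))) (.rp 42 (.thr 5 53 (.thr 13 49 (.thr 1 9 (.thr 29 17 (.dbl 61 41 45))))) .nd))))) .nd))))))) .nd))))))))) (.rp 32 (.str 48 (.nv (.thr 17 29 (.thr 49 13 (.thr 33 1 (.thr 3 18 (.dbl 41 45 60))))) (.nv (.thr 52 7 (.thr 4 36 (.thr 55 38 (.dbl 53 5 54)))) (.rp 8 (.str 4 (.nv (.thr 5 53 (.thr 6 7 (.dbl 38 54 55))) (.nv (.dbl 52 7 36) (.rp 7 (.thr 36 52 (.dbl 38 39 55)) .nd)))) (.rp 5 (.thr 52 7 (.thr 60 56 (.thr 41 3 (.thr 45 33 (.dbl 15 26 30))))) (.rp 4 (.str 8 (.nv (.thr 5 53 (.thr 13 49 (.thr 1 9 (.thr 29 17 (.dbl 61 41 45))))) (.nv (.thr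 49 13 (.thr 51 50 (.thr 53 5 (.thr 59 42 (.dbl 63 55 58))))) (.nv (.thr 7 52 (.thr 15 26 (.thr 3 11 (.thr 41 60 (.dbl 33 18 45))))) .nd)))) .nd)))))) (.rp 8 (.str 4 (.nv (.thr 5 53 (.thr 6 7 (.dbl 38 54 55))) (.nv (.dbl 52 7 36) (.rp 48 (.str 32 (.nv (.thr 36 52 (.dbl 38 39 55)) (.nv (.dbl 52 7 36) (.rp 52 (.thr 5 53 (.thr 6 7 (.dbl 38 54 55))) (.rp 36 (.str 24 (.nv (.thr 7 52 (.thr 6 5 (.dbl 38 54 55))) (.nv (.thr 5 53 (.dbl 7 6 52)) (.rp 52 (.thr 5 53 (.thr 6 7 (.dbl 38 54 55))) (.rp 7 (.thr 17 29 (.thr 49 13 (.thr 1 33 (.thr 53 5 (.dbl 61 41 57))))) (.rp 6 (.thr 53 5 (.thr 52 7 (.dbl 55 38 54))) (.rp 5 (.thr 49 13 (.thr 42 47 (.thr 38 55 (.thr 34 46 (.thr 33 35 (.dbl 17 1 29)))))) .nd))))))) .nd))))) (.rp 32 (.str 48 (.nv (.thr 5 53 (.thr 6 7 (.dbl 38 54 55))) (.nv (.dbl 52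 7 36) (.rp 7 (.thr 36 52 (.dbl 38 39 55)) .nd)))) (.rp 7 (.thr 36 52 (.dbl 38 39 55)) .nd)))))) (.rp 5 (.thr 17 29 (.thr 49 13 (.thr 1 33 (.thr 61 41 (.thr 53 57 (.thr 52 7 (.thr 4 36 (.dbl 55 38 54)))))))) (.rp 4 (.str 8 (.nv (.thr 5 53 (.thr 7 52 (.thr 13 49 (.thr 9 1 (.thr 11 10 (.thr 3 15 (.dbl 41 57 60))))))) (.nv (.thr 5 53 (.thr 29 17 (.thr 13 49 (.thr 61 45 (.dbl 1 9 41))))) (.nv (.thr 5 53 (.thr 13 49 (.thr 1 9 (.thr 61 41 (.dbl 29 17 45))))) (.rp 61 (.str 48 (.nv (.thr 52 7 (.thr 56 60 (.thr 59 42 (.thr 58 57 (.dbl 53 5 63))))) (.nv (.thr 7 52 (.thr 15 26 (.thr 3 11 (.thr 33 18 (.dbl 41 45 60))))) (.nv (.thr 15 26 (.thr 42 59 (.thr 47 32 (.thr 53 5 (.dbl 63 31 58))))) (.rp 7 (.thr 42 59 (.thr 15 26 (.thr 47 32 (.thr 63 31 (.dbl 53 5 58))))) .nd))))) (.rp 53 (.thr 29 17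 (.thr 13 49 (.thr 61 45 (.thr 42 59 (.thr 62 2 (.thr 60 63 (.dbl 41 1 3))))))) (.rp 49 (.str 48 (.nv (.thr 52 7 (.thr 56 60 (.thr 59 42 (.thr 58 57 (.dbl 53 5 63))))) (.nv (.thr 15 26 (.thr 42 59 (.thr 47 32 (.thr 63 31 (.dbl 53 5 58))))) (.nv (.thr 7 52 (.thr 15 26 (.thr 3 11 (.thr 41 60 (.dbl 33 18 45))))) .nd)))) (.rp 48 (.str 32 (.nv (.dbl 42 47 59) (.rp 59 (.thr 17 29 (.thr 49 13 (.thr 1 33 (.thr 53 5 (.dbl 61 41 57))))) (.rp 47 (.thr 17 29 (.thr 49 13 (.thr 1 33 (.thr 53 5 (.dbl 61 41 57))))) (.rp 42 (.thr 17 29 (.thr 49 13 (.thr 1 33 (.thr 53 5 (.dbl 61 41 57))))) (.rp 36 (.str 24 (.nv (.dbl 42 47 59) (.rp 59 (.thr 56 40 (.thr 26 27 (.thr 11 41 (.thr 10 9 (.dbl 42 47 58))))) (.rp 47 (.thr 56 40 (.thr 49 13 (.thr 53 5 (.thr 57 61 (.dbl 59 42 58))))) (.rp 42 (.thr 17 29 (.thr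 49 13 (.thr 1 33 (.thr 53 5 (.dbl 61 41 57))))) .nd))))) (.rp 24 (.str 36 (.nv (.dbl 42 47 59) (.rp 59 (.thr 44 40 (.thr 13 49 (.thr 29 17 (.thr 45 61 (.dbl 47 42 46))))) (.rp 47 (.thr 44 40 (.thr 38 39 (.thr 35 41 (.thr 34 33 (.dbl 42 46 59))))) (.rp 42 (.thr 5 53 (.thr 13 49 (.thr 1 9 (.thr 29 17 (.dbl 61 41 45))))) .nd))))) .nd))))))) (.rp 41 (.thr 17 29 (.thr 13 49 (.thr 5 53 (.thr 9 1 (.thr 52 7 (.thr 10 11 (.thr 28 19 (.thr 42 59 (.thr 26 58 (.thr 18 30 (.thr 2 62 (.thr 14 6 (.dbl 50 34 38))))))))))))) (.rp 32 (.str 48 (.nv (.thr 5 53 (.thr 13 49 (.thr 1 9 (.thr 29 17 (.dbl 61 41 45))))) (.nv (.thr 49 13 (.thr 51 50 (.thr 53 5 (.thr 59 42 (.dbl 63 55 58))))) (.nv (.thr 7 52 (.thr 15 26 (.thr 3 11 (.thr 41 60 (.dbl 33 18 45))))) .nd)))) (.rp 17 (.thr 49 13 (.thr 53 5 (.thr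 61 57 (.thr 42 59 (.thr 62 2 (.thr 60 63 (.dbl 41 1 3))))))) (.rp 13 (.thr 5 53 (.thr 42 59 (.str 15 (.nv (.thr 48 26 (.thr 52 7 (.thr 60 56 (.thr 45 30 (.dbl 41 3 33))))) (.nv (.thr 47 32 (.thr 48 26 (.thr 28 19 (.thr 31 63 (.dbl 29 17 30))))) (.rp 55 (.thr 32 47 (.thr 26 48 (.thr 30 18 (.thr 60 45 (.thr 3 41 (.dbl 7 11 52)))))) (.rp 48 (.thr 32 47 (.thr 29 17 (.thr 7 52 (.thr 3 11 (.thr 60 41 (.thr 30 45 (.dbl 28 19 31))))))) (.rp 30 (.thr 32 47 (.thr 7 52 (.thr 11 3 (.thr 26 48 (.dbl 10 9 58))))) (.rp 26 (.thr 32 47 (.thr 7 52 (.thr 3 11 (.thr 41 60 (.thr 33 45 (.thr 35 34 (.dbl 19 28 51))))))) (.rp 3 (.thr 29 17 (.thr 52 7 (.thr 48 26 (.thr 60 56 (.thr 30 45 (.dbl 28 19 31)))))) .nd)))))))))) (.rp 9 (.thr 17 29 (.thr 49 13 (.thr 1 33 (.thr 53 5 (.dbl 61 41 57))))) (.rp 5 (.thr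 29 17 (.thr 13 49 (.thr 61 45 (.thr 42 59 (.thr 62 2 (.thr 60 63 (.dbl 41 1 3))))))) (.rp 1 (.thr 5 53 (.thr 29 17 (.thr 42 59 (.thr 2 62 (.thr 32 47 (.str 34 (.nv (.thr 13 49 (.thr 33 35 (.dbl 45 41 61))) (.nv (.thr 28 19 (.thr 18 50 (.dbl 30 26 31))) (.rp 49 (.thr 33 35 (.thr 28 19 (.thr 18 50 (.dbl 30 26 31)))) (.rp 33 (.thr 49 13 (.thr 28 19 (.thr 18 50 (.dbl 30 26 31)))) (.rp 19 (.thr 18 50 (.thr 26 30 (.thr 33 35 (.dbl 48 3 15)))) (.rp 18 (.thr 19 28 (.thr 33 35 (.thr 45 41 (.dbl 13 49 61)))) .nd)))))))))))) .nd))))))))))))))) .nd)))))))))) (.rp 8 (.str 4 (.nv (.thr 17 29 (.thr 19 28 (.thr 16 18 (.thr 23 20 (.dbl 31 26 27))))) (.nv (.thr 20 23 (.thr 52 36 (.thr 7 37 (.thr 38 55 (.dbl 6 5 54))))) (.rp 23 (.thr 29 17 (.thr 28 19 (.thr 31 30 (.thr 16 26 (.thr 20 24 (.thr 38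 55 (.thr 6 54 (.thr 7 5 (.dbl 52 36 37))))))))) (.rp 20 (.thr 17 29 (.thr 19 28 (.thr 16 18 (.thr 31 26 (.thr 23 27 (.thr 55 38 (.thr 7 39 (.thr 5 6 (.dbl 37 52 53))))))))) .nd))))) (.rp 4 .ext .nd))))))))))))))))

theorem w24 : WinAt (6291456, 4097) :=
  chF (K := [(39845888, 4113), (39845888, 135169), (39845888, 1052673), (40894464, 276828161)]) (kc w11 (kc w21 (kc w22 (kc w23 kn)))) c24 6291456 4097 12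
    [4369] (by decide +kernel) (by decide +kernel)

/-- A certificate. -/
noncomputable def c25 : Ct := (.str 16 (.nv (.thr 28 24 (.thr 31 26 (.thr 25 19 (.dbl 29 17 30)))) (.rp 31 (.thr 28 24 (.thr 19 25 (.thr 18 17 (.thr 26 30 (.str 37 (.nv (.thr 52 7 (.thr 53 5 (.thr 55 54 (.dbl 4 36 38)))) (.nv (.thr 48 15 (.thr 3 33 (.thr 60 41 (.dbl 52 7 56)))) (.nv (.thr 52 7 (.thr 4 36 (.thr 55 38 (.dbl 53 5 54)))) (.rp 52 (.thr 48 15 (.thr 3 33 (.thr 51 35 (.thr 49 50 (.thr 60 41 (.thr 57 54 (.dbl 53 5 61))))))) (.rp 51 (.str 34 (.nv (.thr 53 5 (.thr 52 7 (.thr 55 54 (.dbl 4 36 38)))) (.nv (.thr 2 50 (.thr 42 62 (.thr 32 47 (.thr 33 35 (.dbl 48 3 15))))) (.nv (.thr 50 2 (.thr 52 7 (.thr 4 36 (.dbl 38 14 55)))) (.rp 38 (.str 12 (.nv (.thr 5 53 (.thr 7 52 (.thr 6 4 (.thr 3 9 (.dbl 15 11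 48))))) (.nv (.thr 2 50 (.thr 60 44 (.thr 41 3 (.thr 61 1 (.dbl 62 42 63))))) (.nv (.thr 52 7 (.thr 60 44 (.dbl 48 15 56))) (.rp 48 (.thr 7 52 (.thr 5 53 (.thr 6 4 (.thr 3 9 (.dbl 60 41 44))))) (.rp 41 (.thr 48 15 (.thr 52 7 (.dbl 60 44 56))) .nd)))))) (.rp 12 (.str 38 (.nv (.thr 4 55 (.dbl 36 39 52)) (.nv (.dbl 50 2 14) (.rp 48 (.thr 36 39 (.dbl 50 2 14)) (.rp 36 (.thr 48 15 (.thr 14 50 (.thr 42 46 (.thr 33 3 (.dbl 32 35 47))))) (.rp 15 (.thr 14 50 (.thr 4 55 (.dbl 36 39 52))) (.rp 14 (.thr 15 48 (.thr 36 39 (.dbl 4 52 55))) (.rp 4 (.str 8 (.nv (.dbl 50 2 14) (.rp 50 (.thr 42 46 (.thr 32 47 (.thr 33 35 (.dbl 48 3 15)))) (.rp 48 (.thr 36 39 (.dbl 50 2 14)) (.rp 36 (.thr 48 15 (.thr 14 50 (.thr 42 46 (.thr 33 3 (.dbl 32 35 47))))) (.rp 15 (.thr 14 50 (.thr 42 46 (.thr 6 54 (.dbl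 2 10 62)))) (.rp 14 (.thr 15 48 (.thr 36 39 (.thr 42 46 (.thr 62 2 (.thr 32 47 (.thr 35 33 (.dbl 44 40 41))))))) (.rp 2 (.thr 42 46 (.thr 32 47 (.thr 33 35 (.dbl 48 3 15)))) .nd)))))))) .nd)))))))) .nd)))))) (.rp 34 (.str 51 (.nv (.thr 52 7 (.thr 53 5 (.thr 55 54 (.dbl 4 36 38)))) (.nv (.thr 3 35 (.dbl 48 15 33)) (.rp 15 (.thr 3 35 (.thr 33 48 (.dbl 41 45 60))) .nd)))) (.rp 7 (.thr 48 15 (.thr 3 33 (.thr 51 35 (.thr 49 50 (.thr 60 41 (.thr 57 54 (.dbl 53 5 61))))))) (.rp 5 (.thr 15 48 (.thr 7 52 (.thr 3 11 (.thr 51 35 (.thr 39 27 (.thr 60 41 (.thr 38 36 (.thr 12 44 (.dbl 6 9 54))))))))) .nd))))))))))))) (.rp 30 (.str 4 (.nv (.thr 24 28 (.thr 36 52 (.thr 12 48 (.thr 38 55 (.thr 25 51 (.dbl 26 27 31)))))) (.nv (.thr 52 36 (.thr 37 7 (.thr 55 38 (.dbl 53 5 54)))) (.rp 55 (.thr 28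 24 (.thr 25 19 (.thr 52 36 (.thr 7 37 (.thr 6 5 (.thr 38 54 (.thr 12 51 (.thr 60 44 (.dbl 3 9 41))))))))) (.rp 54 (.thr 28 24 (.thr 19 25 (.thr 18 17 (.thr 26 31 (.thr 52 36 (.thr 37 7 (.thr 48 15 (.thr 60 56 (.dbl 3 33 41))))))))) (.rp 53 (.thr 52 36 (.thr 7 37 (.thr 6 5 (.dbl 38 54 55)))) (.rp 52 (.thr 28 24 (.thr 25 19 (.thr 38 55 (.thr 12 51 (.thr 60 44 (.thr 3 41 (.dbl 6 9 54))))))) (.rp 38 (.thr 28 24 (.thr 19 25 (.thr 18 17 (.thr 26 31 (.thr 52 36 (.thr 37 7 (.thr 48 15 (.thr 60 56 (.dbl 3 33 41))))))))) (.rp 36 (.thr 28 24 (.thr 25 19 (.thr 38 55 (.thr 6 54 (.thr 12 51 (.thr 3 9 (.dbl 60 41 44))))))) (.rp 7 (.thr 24 28 (.thr 36 52 (.thr 12 48 (.thr 38 55 (.thr 39 37 (.thr 25 51 (.dbl 26 27 31))))))) .nd)))))))))) (.rp 29 (.thr 28 24 (.thr 19 25 (.thr 18 17 (.dbl 26 30 31))))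 (.rp 28 (.str 4 (.nv (.thr 52 36 (.thr 37 7 (.thr 55 38 (.dbl 53 5 54)))) (.rp 55 (.thr 26 31 (.thr 30 18 (.thr 52 36 (.thr 7 37 (.thr 6 5 (.thr 38 54 (.thr 14 50 (.thr 62 46 (.dbl 2 10 42))))))))) (.rp 54 (.thr 26 31 (.thr 52 36 (.thr 37 7 (.thr 48 15 (.thr 60 56 (.thr 3 41 (.dbl 18 30 33))))))) (.rp 53 (.thr 52 36 (.thr 7 37 (.thr 6 5 (.dbl 38 54 55)))) (.rp 52 (.thr 26 31 (.thr 30 18 (.thr 38 55 (.thr 14 50 (.thr 62 46 (.thr 2 42 (.dbl 6 10 54))))))) (.rp 38 (.thr 26 31 (.thr 52 36 (.thr 37 7 (.thr 48 15 (.thr 60 56 (.thr 3 41 (.dbl 18 30 33))))))) (.rp 37 (.thr 26 31 (.thr 30 18 (.thr 38 55 (.thr 6 54 (.thr 14 50 (.thr 2 10 (.dbl 62 42 46))))))) (.rp 36 (.thr 26 31 (.thr 30 18 (.thr 38 55 (.thr 6 54 (.thr 14 50 (.thr 2 10 (.dbl 62 42 46))))))) (.rp 7 (.thr 26 31 (.thr 30 18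 (.thr 36 52 (.thr 38 55 (.thr 39 37 (.thr 14 50 (.thr 62 46 (.thr 2 42 (.dbl 6 10 54))))))))) (.rp 5 (.thr 26 31 (.thr 30 18 (.thr 38 55 (.thr 6 54 (.thr 14 50 (.thr 62 46 (.dbl 2 10 42))))))) .nd))))))))))) (.rp 26 (.str 38 (.nv (.thr 6 54 (.thr 28 24 (.thr 25 19 (.thr 12 51 (.thr 60 44 (.dbl 3 9 41)))))) (.nv (.thr 4 55 (.thr 6 54 (.thr 52 36 (.dbl 7 5 37)))) (.rp 54 (.thr 4 55 (.thr 52 36 (.thr 7 37 (.thr 6 5 (.thr 28 24 (.thr 25 19 (.thr 12 51 (.thr 60 44 (.dbl 3 9 41))))))))) (.rp 6 (.thr 4 55 (.thr 36 52 (.thr 28 24 (.thr 25 19 (.thr 12 51 (.thr 44 60 (.thr 35 41 (.thr 32 40 (.thr 34 33 (.thr 29 17 (.dbl 46 42 63))))))))))) .nd))))) (.rp 25 (.str 37 (.nv (.thr 7 52 (.thr 26 31 (.thr 15 48 (.thr 3 11 (.thr 30 18 (.dbl 60 41 45)))))) (.nv (.thr 52 7 (.thr 4 36 (.thr 55 38 (.dbl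 53 5 54)))) (.rp 52 (.thr 5 53 (.thr 28 24 (.thr 26 31 (.thr 30 18 (.thr 15 48 (.thr 60 45 (.thr 12 44 (.thr 3 41 (.thr 7 11 (.dbl 6 4 9)))))))))) (.rp 7 (.thr 26 31 (.thr 18 30 (.thr 48 15 (.thr 3 33 (.thr 60 41 (.thr 52 56 (.thr 36 4 (.dbl 24 12 28)))))))) .nd))))) (.rp 24 (.str 4 (.nv (.thr 38 55 (.thr 6 54 (.thr 7 5 (.dbl 52 36 37)))) (.nv (.thr 52 36 (.thr 37 7 (.thr 55 38 (.dbl 53 5 54)))) (.rp 55 (.thr 26 31 (.thr 30 18 (.thr 52 36 (.thr 7 37 (.thr 6 5 (.thr 38 54 (.thr 14 50 (.thr 62 46 (.dbl 2 10 42))))))))) (.rp 54 (.thr 26 31 (.thr 18 30 (.thr 52 36 (.thr 37 7 (.thr 48 15 (.thr 60 56 (.dbl 3 33 41))))))) (.rp 53 (.thr 52 36 (.thr 7 37 (.thr 6 5 (.dbl 38 54 55)))) (.rp 52 (.thr 26 31 (.thr 18 30 (.thr 38 55 (.thr 54 6 (.thr 50 14 (.thr 62 58 (.dbl 2 34 42))))))) (.rp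 38 (.thr 26 31 (.thr 18 30 (.thr 52 36 (.thr 37 7 (.thr 48 15 (.thr 60 56 (.dbl 3 33 41))))))) (.rp 37 (.thr 26 31 (.thr 18 30 (.thr 38 55 (.thr 54 6 (.thr 50 14 (.thr 62 58 (.dbl 2 34 42))))))) (.rp 36 (.thr 26 31 (.thr 18 30 (.thr 38 55 (.thr 54 6 (.thr 50 14 (.thr 62 58 (.dbl 2 34 42))))))) (.rp 7 (.thr 26 31 (.thr 18 30 (.thr 36 52 (.thr 38 55 (.thr 39 37 (.thr 54 6 (.thr 50 14 (.thr 62 58 (.dbl 2 34 42))))))))) (.rp 5 (.thr 26 31 (.thr 18 30 (.thr 38 55 (.thr 54 6 (.thr 50 14 (.thr 62 58 (.dbl 2 34 42))))))) .nd)))))))))))) (.rp 19 (.thr 24 28 (.thr 26 31 (.thr 27 25 (.thr 30 18 (.str 37 (.nv (.thr 52 7 (.thr 4 36 (.thr 55 38 (.dbl 53 5 54)))) (.nv (.thr 7 52 (.thr 15 48 (.thr 3 11 (.dbl 60 41 45)))) (.rp 52 (.thr 15 48 (.thr 51 39 (.thr 53 5 (.thr 60 45 (.thr 57 54 (.thr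 61 49 (.dbl 41 1 3))))))) (.rp 7 (.str 38 (.nv (.thr 6 54 (.thr 14 50 (.thr 62 46 (.dbl 2 10 42)))) (.nv (.thr 39 36 (.dbl 15 48 51)) (.rp 39 (.thr 55 4 (.thr 14 50 (.thr 62 46 (.thr 6 54 (.dbl 2 10 42))))) .nd)))) .nd))))))))) (.rp 17 (.thr 26 31 (.thr 18 30 (.thr 28 24 (.thr 19 25 (.str 37 (.nv (.thr 52 7 (.thr 53 5 (.thr 55 54 (.dbl 4 36 38)))) (.nv (.thr 48 15 (.thr 3 33 (.thr 60 41 (.dbl 52 7 56)))) (.nv (.thr 52 7 (.thr 4 36 (.thr 55 38 (.dbl 53 5 54)))) (.rp 52 (.thr 48 15 (.thr 3 33 (.thr 51 35 (.thr 49 50 (.thr 60 41 (.thr 57 54 (.dbl 53 5 61))))))) (.rp 51 (.str 34 (.nv (.thr 53 5 (.thr 52 7 (.thr 55 54 (.dbl 4 36 38)))) (.nv (.thr 2 50 (.thr 42 62 (.thr 32 47 (.thr 33 35 (.dbl 48 3 15))))) (.nv (.thr 50 2 (.thr 52 7 (.thr 4 36 (.dbl 38 14 55)))) (.rp 38 (.str 12 (.nv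 (.thr 5 53 (.thr 7 52 (.thr 6 4 (.thr 3 9 (.dbl 15 11 48))))) (.nv (.thr 2 50 (.thr 60 44 (.thr 41 3 (.thr 61 1 (.dbl 62 42 63))))) (.nv (.thr 52 7 (.thr 60 44 (.dbl 48 15 56))) (.rp 48 (.thr 7 52 (.thr 5 53 (.thr 6 4 (.thr 3 9 (.dbl 60 41 44))))) (.rp 41 (.thr 48 15 (.thr 52 7 (.dbl 60 44 56))) .nd)))))) (.rp 12 (.str 38 (.nv (.thr 4 55 (.dbl 36 39 52)) (.nv (.dbl 50 2 14) (.rp 48 (.thr 36 39 (.dbl 50 2 14)) (.rp 36 (.thr 48 15 (.thr 14 50 (.thr 42 46 (.thr 33 3 (.dbl 32 35 47))))) (.rp 15 (.thr 14 50 (.thr 4 55 (.dbl 36 39 52))) (.rp 14 (.thr 15 48 (.thr 36 39 (.dbl 4 52 55))) (.rp 4 (.str 8 (.nv (.dbl 50 2 14) (.rp 50 (.thr 42 46 (.thr 32 47 (.thr 33 35 (.dbl 48 3 15)))) (.rp 48 (.thr 36 39 (.dbl 50 2 14)) (.rp 36 (.thr 48 15 (.thr 14 50 (.thr 42 46 (.thr 33 3 (.dbl 32 35 47)))))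 (.rp 15 (.thr 14 50 (.thr 42 46 (.thr 6 54 (.dbl 2 10 62)))) (.rp 14 (.thr 15 48 (.thr 36 39 (.thr 42 46 (.thr 62 2 (.thr 32 47 (.thr 35 33 (.dbl 44 40 41))))))) (.rp 2 (.thr 42 46 (.thr 32 47 (.thr 33 35 (.dbl 48 3 15)))) .nd)))))))) .nd)))))))) .nd)))))) (.rp 34 (.str 51 (.nv (.thr 52 7 (.thr 53 5 (.thr 55 54 (.dbl 4 36 38)))) (.nv (.thr 3 35 (.dbl 48 15 33)) (.rp 15 (.thr 3 35 (.thr 33 48 (.dbl 41 45 60))) .nd)))) (.rp 7 (.thr 48 15 (.thr 3 33 (.thr 51 35 (.thr 49 50 (.thr 60 41 (.thr 57 54 (.dbl 53 5 61))))))) (.rp 5 (.thr 15 48 (.thr 7 52 (.thr 3 11 (.thr 51 35 (.thr 39 27 (.thr 60 41 (.thr 38 36 (.thr 12 44 (.dbl 6 9 54))))))))) .nd))))))))))))) .nd)))))))))))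

theorem w25 : WinAt (7340032, 8396801) :=
  chF (K := []) kn c25 7340032 8396801 23
    [] (by decide +kernel) (by decide +kernel)

/-- A certificate. -/
noncomputable def c26 : Ct := (.str 16 (.nv (.thr 28 24 (.thr 19 25 (.thr 26 31 (.dbl 18 17 30)))) (.rp 31 (.str 37 (.nv (.thr 52 7 (.thr 4 36 (.thr 55 38 (.dbl 53 5 54)))) (.nv (.thr 53 5 (.thr 52 7 (.thr 55 54 (.dbl 4 36 38)))) (.rp 55 (.thr 28 24 (.thr 19 25 (.thr 18 17 (.thr 26 30 (.thr 48 15 (.thr 3 33 (.thr 60 41 (.dbl 52 7 56)))))))) (.rp 54 (.thr 52 7 (.thr 28 24 (.thr 19 25 (.thr 18 17 (.thr 26 30 (.thr 48 15 (.thr 3 33 (.dbl 60 41 56)))))))) (.rp 53 (.thr 52 7 (.thr 28 24 (.thr 19 25 (.thr 18 17 (.thr 26 30 (.thr 48 15 (.thr 3 33 (.dbl 60 41 56)))))))) (.rp 52 (.thr 28 24 (.thr 19 25 (.thr 18 17 (.thr 26 30 (.thr 48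 15 (.thr 3 33 (.thr 51 35 (.thr 49 50 (.thr 60 41 (.thr 57 54 (.dbl 53 5 61))))))))))) (.rp 38 (.thr 52 7 (.thr 28 24 (.thr 19 25 (.thr 18 17 (.thr 26 30 (.thr 48 15 (.thr 3 33 (.dbl 60 41 56)))))))) (.rp 36 (.thr 52 7 (.thr 28 24 (.thr 19 25 (.thr 18 17 (.thr 26 30 (.thr 48 15 (.thr 3 33 (.dbl 60 41 56)))))))) (.rp 27 (.str 19 (.nv (.dbl 28 24 25) (.rp 28 (.thr 53 5 (.thr 52 7 (.thr 55 54 (.dbl 4 36 38)))) (.rp 25 (.thr 53 5 (.thr 52 7 (.thr 55 54 (.dbl 4 36 38)))) (.rp 24 (.thr 17 18 (.dbl 25 28 29)) .nd))))) (.rp 19 (.str 27 (.nv (.thr 24 28 (.thr 26 25 (.thr 15 48 (.thr 39 51 (.thr 52 7 (.dbl 36 4 38)))))) (.nv (.thr 53 5 (.thr 52 7 (.thr 55 54 (.dbl 4 36 38)))) (.rp 52 (.thr 5 53 (.thr 24 28 (.thr 25 26 (.thr 13 49 (.thr 1 9 (.thr 29 17 (.dbl 61 41 45))))))) (.rp 38 (.thr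 52 7 (.thr 36 4 (.thr 24 28 (.thr 26 25 (.dbl 48 12 15))))) (.rp 36 (.thr 5 53 (.thr 24 28 (.thr 25 26 (.thr 13 49 (.thr 1 9 (.thr 29 17 (.dbl 61 41 45))))))) (.rp 15 (.thr 52 7 (.thr 4 36 (.thr 55 38 (.dbl 53 5 54)))) (.rp 7 (.thr 5 53 (.thr 24 28 (.thr 25 26 (.thr 13 49 (.thr 1 9 (.thr 29 17 (.dbl 61 41 45))))))) (.rp 4 (.thr 5 53 (.thr 24 28 (.thr 25 26 (.thr 13 49 (.thr 1 9 (.thr 29 17 (.dbl 61 41 45))))))) .nd))))))))) (.rp 7 (.thr 28 24 (.thr 19 25 (.thr 18 17 (.thr 26 30 (.thr 48 15 (.thr 3 33 (.thr 51 35 (.thr 49 50 (.thr 60 41 (.thr 57 54 (.dbl 53 5 61))))))))))) (.rp 5 (.thr 7 52 (.thr 28 24 (.thr 19 25 (.thr 18 17 (.thr 26 30 (.thr 15 48 (.thr 3 11 (.thr 51 35 (.thr 39 27 (.thr 60 41 (.thr 38 36 (.thr 12 44 (.dbl 6 9 54))))))))))))) (.rp 4 (.thr 52 7 (.thr 28 24 (.thr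 19 25 (.thr 18 17 (.thr 26 30 (.thr 48 15 (.thr 3 33 (.dbl 60 41 56)))))))) .nd)))))))))))))) (.rp 30 (.thr 26 31 (.thr 28 24 (.thr 19 25 (.thr 17 18 (.str 41 (.nv (.thr 56 11 (.thr 60 3 (.thr 44 12 (.thr 38 35 (.thr 4 55 (.dbl 52 36 48)))))) (.nv (.thr 1 61 (.thr 33 49 (.thr 37 45 (.thr 52 7 (.thr 53 5 (.thr 55 54 (.dbl 4 36 38))))))) (.nv (.thr 1 61 (.thr 56 11 (.thr 60 3 (.thr 48 52 (.thr 33 49 (.dbl 37 15 45)))))) (.rp 62 (.str 46 (.nv (.thr 56 11 (.thr 60 3 (.thr 44 12 (.thr 38 35 (.thr 4 55 (.dbl 52 36 48)))))) (.nv (.thr 3 60 (.thr 35 51 (.thr 38 44 (.thr 34 42 (.thr 33 32 (.dbl 1 49 61)))))) (.nv (.thr 1 61 (.thr 56 11 (.thr 60 3 (.thr 48 52 (.thr 33 49 (.dbl 37 15 45)))))) (.rp 63 (.thr 3 60 (.thr 61 1 (.thr 11 56 (.thr 15 7 (.thr 35 51 (.thr 38 44 (.thr 34 42 (.thr 33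 32 (.dbl 37 45 48))))))))) (.rp 60 (.str 45 (.nv (.thr 33 37 (.dbl 1 49 61)) (.rp 63 (.thr 61 1 (.thr 37 33 (.thr 52 7 (.thr 4 36 (.thr 53 5 (.dbl 55 38 54)))))) (.rp 61 (.str 63 (.nv (.thr 37 33 (.thr 44 47 (.thr 38 35 (.thr 4 55 (.dbl 36 39 52))))) (.nv (.thr 37 33 (.thr 53 5 (.dbl 48 15 58))) (.rp 48 (.thr 44 47 (.thr 38 35 (.thr 56 11 (.thr 4 55 (.thr 36 52 (.dbl 37 33 39)))))) (.rp 37 (.thr 44 47 (.thr 38 35 (.thr 42 34 (.thr 4 55 (.thr 36 52 (.dbl 40 32 43)))))) (.rp 33 (.thr 44 47 (.thr 38 35 (.thr 6 54 (.thr 4 55 (.thr 52 36 (.dbl 7 5 37)))))) (.rp 3 (.thr 37 33 (.thr 48 15 (.dbl 53 5 58))) .nd))))))) (.rp 49 (.thr 44 47 (.thr 37 33 (.thr 38 35 (.thr 52 7 (.dbl 36 4 39))))) (.rp 37 (.thr 44 47 (.thr 38 35 (.thr 42 34 (.thr 4 55 (.thr 36 52 (.dbl 40 32 43)))))) (.rp 33 (.thr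 44 47 (.thr 38 35 (.thr 6 54 (.thr 4 55 (.thr 7 5 (.dbl 52 36 37)))))) (.rp 13 (.thr 44 47 (.thr 37 33 (.thr 38 35 (.thr 52 7 (.dbl 36 4 39))))) (.rp 1 (.thr 44 47 (.thr 37 33 (.thr 38 35 (.thr 52 7 (.dbl 36 4 39))))) .nd))))))))) (.rp 33 (.thr 3 60 (.thr 11 56 (.thr 35 51 (.thr 38 44 (.thr 4 55 (.thr 52 36 (.dbl 7 15 37))))))) (.rp 15 (.thr 60 3 (.thr 1 61 (.thr 11 56 (.thr 33 49 (.thr 37 45 (.thr 52 7 (.thr 4 36 (.thr 55 38 (.dbl 53 5 54))))))))) (.rp 3 (.thr 1 61 (.thr 33 49 (.thr 37 45 (.thr 52 7 (.thr 4 36 (.thr 53 5 (.dbl 55 38 54))))))) (.rp 1 (.thr 3 60 (.thr 11 56 (.thr 35 51 (.thr 38 44 (.thr 4 55 (.thr 52 36 (.dbl 7 15 37))))))) .nd)))))))))) (.rp 60 (.thr 1 61 (.thr 33 49 (.thr 37 45 (.thr 15 48 (.thr 52 7 (.thr 53 5 (.thr 55 54 (.dbl 4 36 38)))))))) (.rp 52 (.thr 3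 60 (.thr 1 61 (.thr 49 33 (.thr 51 35 (.thr 11 56 (.thr 48 50 (.dbl 15 7 37))))))) (.rp 46 (.str 62 (.nv (.thr 61 1 (.dbl 60 3 63)) (.rp 63 (.thr 3 60 (.thr 35 51 (.thr 38 44 (.thr 54 6 (.thr 58 50 (.dbl 42 2 10)))))) (.rp 61 (.thr 60 3 (.thr 56 11 (.thr 44 12 (.thr 38 35 (.thr 4 55 (.dbl 52 36 48)))))) (.rp 60 (.thr 1 61 (.thr 33 49 (.thr 37 45 (.thr 15 48 (.thr 52 7 (.thr 53 5 (.thr 55 54 (.dbl 4 36 38)))))))) (.rp 3 (.thr 1 61 (.thr 33 49 (.thr 37 45 (.thr 52 7 (.thr 53 5 (.thr 55 54 (.dbl 4 36 38))))))) (.rp 2 (.thr 60 3 (.thr 1 61 (.thr 33 49 (.thr 37 45 (.thr 56 11 (.dbl 48 15 52)))))) (.rp 1 (.thr 3 60 (.thr 35 51 (.thr 38 44 (.thr 54 6 (.thr 58 50 (.dbl 42 2 10)))))) .nd)))))))) (.rp 33 (.thr 3 60 (.thr 11 56 (.thr 35 51 (.thr 38 44 (.thr 4 55 (.thr 52 36 (.dbl 7 15 37)))))))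 (.rp 15 (.thr 60 3 (.thr 11 56 (.thr 1 61 (.thr 33 49 (.thr 37 45 (.thr 52 7 (.thr 4 36 (.thr 55 38 (.dbl 53 5 54))))))))) (.rp 7 (.thr 3 60 (.thr 11 56 (.thr 1 61 (.thr 33 49 (.thr 35 51 (.thr 38 44 (.thr 34 32 (.thr 42 46 (.thr 62 2 (.thr 40 43 (.thr 10 58 (.thr 9 8 (.dbl 6 12 54))))))))))))) (.rp 1 (.thr 3 60 (.thr 11 56 (.thr 35 51 (.thr 38 44 (.thr 4 55 (.thr 52 36 (.dbl 7 15 37))))))) .nd)))))))))))))))) (.rp 28 (.str 37 (.nv (.thr 7 52 (.thr 26 31 (.thr 15 48 (.thr 3 11 (.thr 30 18 (.dbl 60 41 45)))))) (.nv (.thr 53 5 (.thr 52 7 (.thr 55 54 (.dbl 4 36 38)))) (.rp 52 (.thr 5 53 (.thr 26 31 (.thr 30 18 (.thr 15 48 (.thr 60 45 (.thr 3 41 (.thr 7 11 (.thr 6 4 (.thr 54 38 (.thr 51 57 (.thr 27 39 (.thr 25 24 (.thr 29 17 (.thr 49 13 (.thr 12 9 (.thr 63 46 (.thr 62 61 (.thr 59 55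 (.dbl 42 2 8))))))))))))))))))) (.rp 15 (.thr 52 7 (.thr 4 36 (.thr 55 38 (.dbl 53 5 54)))) (.rp 7 (.str 4 (.nv (.thr 36 52 (.dbl 38 39 55)) (.rp 55 (.str 39 (.nv (.dbl 36 38 52) (.rp 52 (.thr 38 36 (.thr 54 6 (.thr 26 31 (.thr 30 18 (.thr 15 48 (.thr 60 45 (.dbl 51 27 57))))))) (.rp 38 (.thr 52 36 (.thr 26 31 (.thr 48 15 (.thr 60 56 (.thr 3 41 (.dbl 18 30 33)))))) (.rp 36 (.str 1 (.nv (.thr 5 53 (.thr 13 9 (.thr 26 31 (.thr 15 48 (.thr 27 51 (.dbl 25 24 49)))))) (.nv (.thr 26 31 (.thr 15 48 (.thr 30 18 (.thr 41 61 (.dbl 45 33 60))))) (.nv (.thr 5 53 (.thr 13 9 (.thr 49 25 (.thr 41 61 (.dbl 33 17 45))))) .nd)))) .nd))))) (.rp 52 (.thr 38 55 (.thr 39 36 (.thr 54 6 (.thr 26 31 (.thr 30 18 (.thr 15 48 (.thr 60 45 (.dbl 51 27 57)))))))) (.rp 39 (.thr 55 38 (.thr 53 5 (.dbl 52 36 54)))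 (.rp 38 (.thr 52 36 (.thr 26 31 (.thr 48 15 (.thr 60 56 (.thr 3 41 (.dbl 18 30 33)))))) (.rp 36 (.thr 53 5 (.thr 55 38 (.thr 54 52 (.thr 26 31 (.thr 30 18 (.thr 15 48 (.thr 60 45 (.thr 51 57 (.thr 63 59 (.thr 61 62 (.dbl 41 1 3))))))))))) .nd))))))) .nd)))))) (.rp 26 (.str 38 (.nv (.thr 6 54 (.thr 28 24 (.thr 25 19 (.thr 12 51 (.thr 3 9 (.dbl 60 41 44)))))) (.nv (.thr 4 55 (.thr 6 54 (.thr 52 36 (.dbl 7 5 37)))) (.rp 54 (.thr 4 55 (.thr 52 36 (.thr 7 37 (.thr 6 5 (.thr 28 24 (.thr 25 19 (.thr 12 51 (.thr 60 44 (.dbl 3 9 41))))))))) (.rp 6 (.thr 4 55 (.thr 36 52 (.thr 28 24 (.thr 25 19 (.thr 12 51 (.thr 44 60 (.thr 35 41 (.thr 32 40 (.thr 34 33 (.thr 29 17 (.dbl 46 42 63))))))))))) .nd))))) (.rp 25 (.str 37 (.nv (.thr 7 52 (.thr 26 31 (.thr 15 48 (.thr 3 11 (.thr 30 18 (.dbl 60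 41 45)))))) (.nv (.thr 53 5 (.thr 52 7 (.thr 55 54 (.dbl 4 36 38)))) (.rp 52 (.thr 5 53 (.thr 28 24 (.thr 26 31 (.thr 30 18 (.thr 15 48 (.thr 60 45 (.thr 12 44 (.thr 3 41 (.thr 7 11 (.dbl 6 4 9)))))))))) (.rp 15 (.thr 52 7 (.thr 4 36 (.thr 55 38 (.dbl 53 5 54)))) (.rp 7 (.thr 26 31 (.thr 18 30 (.thr 48 15 (.thr 3 33 (.thr 60 41 (.thr 52 56 (.thr 36 4 (.dbl 24 12 28)))))))) .nd)))))) (.rp 24 (.str 37 (.nv (.thr 7 52 (.thr 26 31 (.thr 15 48 (.thr 3 11 (.thr 30 18 (.dbl 60 41 45)))))) (.nv (.thr 53 5 (.thr 52 7 (.thr 55 54 (.dbl 4 36 38)))) (.rp 52 (.thr 26 31 (.thr 18 30 (.thr 19 17 (.thr 48 15 (.thr 3 33 (.thr 51 35 (.thr 49 50 (.dbl 25 13 28)))))))) (.rp 36 (.thr 52 7 (.thr 26 31 (.thr 18 30 (.thr 48 15 (.thr 3 33 (.dbl 60 41 56)))))) (.rp 15 (.thr 52 7 (.thr 4 36 (.thr 55 38 (.dbl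 53 5 54)))) (.rp 7 (.thr 26 31 (.thr 18 30 (.thr 19 17 (.thr 48 15 (.thr 3 33 (.thr 51 35 (.thr 49 50 (.dbl 25 13 28)))))))) .nd))))))) (.rp 19 (.thr 24 28 (.thr 26 31 (.thr 27 25 (.thr 30 18 (.str 15 (.nv (.thr 48 37 (.thr 36 12 (.thr 60 45 (.dbl 52 4 56)))) (.nv (.thr 37 48 (.thr 39 51 (.thr 52 7 (.dbl 36 4 38)))) (.nv (.thr 37 48 (.thr 7 52 (.thr 60 45 (.dbl 3 11 41)))) (.rp 52 (.thr 51 39 (.thr 60 45 (.thr 57 54 (.thr 41 3 (.thr 48 37 (.thr 49 50 (.dbl 61 1 53))))))) (.rp 48 (.thr 51 39 (.thr 60 45 (.thr 54 57 (.thr 38 6 (.thr 55 4 (.thr 59 63 (.thr 11 43 (.dbl 3 7 41)))))))) (.rp 37 (.thr 51 39 (.thr 60 45 (.thr 54 57 (.thr 38 6 (.thr 55 4 (.thr 59 63 (.thr 11 43 (.dbl 3 7 41)))))))) (.rp 33 (.thr 60 45 (.thr 3 41 (.thr 37 48 (.dbl 7 11 52)))) .nd)))))))))))) (.rp 18 (.thr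 28 24 (.thr 25 19 (.thr 29 17 (.dbl 31 26 30)))) (.rp 17 (.thr 28 24 (.str 60 (.nv (.thr 3 41 (.thr 26 31 (.thr 18 30 (.thr 48 33 (.thr 52 56 (.dbl 37 7 15)))))) (.nv (.thr 3 41 (.thr 12 44 (.thr 6 9 (.thr 38 54 (.dbl 25 19 51))))) (.rp 51 (.str 34 (.nv (.thr 26 31 (.thr 18 30 (.thr 2 50 (.thr 41 3 (.thr 61 1 (.dbl 62 42 63)))))) (.nv (.thr 3 41 (.thr 12 44 (.thr 6 9 (.thr 38 54 (.thr 4 55 (.thr 52 36 (.dbl 7 5 37))))))) (.nv (.thr 3 41 (.thr 26 31 (.thr 30 18 (.thr 15 45 (.thr 7 11 (.dbl 37 48 52)))))) (.rp 41 (.thr 26 31 (.thr 30 18 (.thr 15 45 (.thr 37 48 (.thr 53 5 (.thr 52 7 (.thr 55 54 (.dbl 4 36 38)))))))) (.rp 3 (.thr 26 31 (.thr 18 30 (.thr 2 50 (.thr 42 62 (.thr 46 38 (.thr 58 10 (.thr 12 44 (.thr 63 29 (.thr 48 53 (.thr 52 56 (.dbl 37 7 15))))))))))) .nd)))))) (.rp 41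 (.thr 26 31 (.thr 30 18 (.thr 15 45 (.thr 37 48 (.thr 52 7 (.thr 53 5 (.thr 55 54 (.dbl 4 36 38)))))))) (.rp 34 (.str 51 (.nv (.thr 12 44 (.thr 54 57 (.thr 6 38 (.dbl 3 9 41)))) (.nv (.thr 19 25 (.dbl 3 35 41)) (.nv (.thr 12 44 (.dbl 25 19 38)) .nd)))) (.rp 19 (.thr 31 26 (.thr 30 29 (.thr 15 45 (.thr 63 47 (.thr 61 62 (.dbl 41 1 3)))))) (.rp 3 (.thr 26 31 (.thr 30 18 (.thr 12 44 (.thr 15 45 (.thr 48 37 (.thr 52 56 (.thr 4 36 (.thr 38 55 (.dbl 25 19 51))))))))) .nd))))))))) .nd)))))))))))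

theorem w26 : WinAt (7340032, 8404993) :=
  chF (K := []) kn c26 7340032 8404993 23
    [] (by decide +kernel) (by decide +kernel)

/-- A certificate. -/
noncomputable def c27 : Ct := (.str 26 (.nv (.thr 23 20 (.thr 30 18 (.thr 31 16 (.thr 19 27 (.dbl 28 25 29))))) (.nv (.thr 20 23 (.thr 16 31 (.thr 28 24 (.thr 19 25 (.dbl 18 17 30))))) (.rp 31 (.str 38 (.nv (.thr 20 23 (.thr 6 54 (.thr 4 55 (.thr 52 36 (.dbl 7 5 37))))) (.nv (.thr 6 54 (.thr 30 18 (.thr 14 50 (.thr 62 46 (.dbl 2 10 42))))) (.rp 63 (.str 47 (.nv (.thr 20 23 (.thr 6 54 (.thr 4 55 (.thr 52 36 (.dbl 7 5 37))))) (.nv (.thr 6 54 (.thr 30 18 (.thr 14 50 (.thr 62 46 (.dbl 2 10 42))))) (.rp 54 (.thr 30 18 (.thr 14 50 (.thr 55 4 (.thr 23 20 (.thr 39 7 (.thr 35 43 (.thr 44 41 (.dbl 46 45 62)))))))) (.rp 10 (.str 5 (.nv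 (.thr 4 55 (.thr 20 23 (.thr 37 53 (.dbl 52 7 36)))) (.nv (.thr 6 54 (.dbl 4 7 55)) (.rp 55 (.thr 6 54 (.thr 7 4 (.dbl 37 52 53))) (.rp 7 (.thr 54 6 (.thr 53 37 (.dbl 55 4 52))) (.rp 4 (.thr 54 6 (.thr 18 30 (.thr 50 14 (.thr 2 34 (.dbl 62 42 58))))) .nd)))))) (.rp 6 (.thr 30 18 (.thr 14 50 (.thr 46 62 (.thr 55 4 (.thr 23 20 (.thr 44 45 (.thr 35 41 (.dbl 39 7 43)))))))) (.rp 5 (.str 10 (.nv (.thr 14 50 (.thr 30 18 (.thr 42 58 (.dbl 62 2 46)))) (.nv (.thr 14 50 (.dbl 6 2 54)) (.rp 50 (.thr 6 54 (.thr 2 14 (.dbl 42 58 62))) (.rp 14 (.thr 54 6 (.thr 23 20 (.thr 55 4 (.thr 7 39 (.dbl 52 37 53))))) (.rp 2 (.thr 50 14 (.thr 54 6 (.dbl 58 42 62))) .nd)))))) .nd))))))) (.rp 54 (.thr 30 18 (.thr 20 23 (.thr 4 55 (.thr 14 50 (.thr 62 46 (.thr 2 42 (.thr 52 36 (.thr 7 37 (.dbl 6 5 10)))))))))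 (.rp 47 (.str 63 (.nv (.thr 6 54 (.thr 14 50 (.thr 30 18 (.thr 62 46 (.dbl 2 10 42))))) (.nv (.thr 14 50 (.thr 23 20 (.thr 30 18 (.thr 62 46 (.thr 60 61 (.dbl 3 41 43)))))) (.nv (.thr 20 23 (.thr 4 55 (.thr 52 36 (.thr 6 54 (.dbl 7 5 37))))) (.rp 10 (.str 5 (.nv (.thr 4 55 (.thr 20 23 (.thr 37 53 (.dbl 52 7 36)))) (.nv (.thr 6 54 (.dbl 4 7 55)) (.rp 55 (.thr 6 54 (.thr 7 4 (.dbl 37 52 53))) (.rp 7 (.thr 54 6 (.thr 53 37 (.dbl 55 4 52))) (.rp 4 (.thr 54 6 (.thr 53 37 (.thr 58 48 (.dbl 50 14 62)))) .nd)))))) (.rp 5 (.str 10 (.nv (.thr 14 50 (.thr 30 18 (.thr 42 58 (.dbl 62 2 46)))) (.nv (.thr 14 50 (.dbl 6 2 54)) (.rp 50 (.thr 6 54 (.thr 2 14 (.dbl 42 58 62))) (.rp 14 (.thr 54 6 (.thr 58 42 (.thr 53 48 (.dbl 55 4 52)))) (.rp 2 (.thr 50 14 (.thr 54 6 (.dbl 58 42 62))) .nd)))))) .nd))))))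 (.rp 10 (.str 5 (.nv (.thr 4 55 (.thr 20 23 (.thr 37 53 (.dbl 52 7 36)))) (.nv (.thr 4 55 (.dbl 6 7 54)) (.rp 63 (.str 47 (.nv (.thr 4 55 (.thr 20 23 (.thr 37 53 (.dbl 52 7 36)))) (.nv (.thr 6 54 (.dbl 4 7 55)) (.rp 55 (.thr 6 54 (.thr 7 4 (.dbl 37 52 53))) (.rp 7 (.thr 54 6 (.thr 53 37 (.dbl 55 4 52))) (.rp 4 (.thr 54 6 (.thr 18 30 (.thr 50 14 (.thr 2 34 (.dbl 62 42 58))))) .nd)))))) (.rp 55 (.thr 6 54 (.thr 7 4 (.dbl 37 52 53))) (.rp 47 (.str 63 (.nv (.thr 4 55 (.thr 20 23 (.thr 37 53 (.dbl 52 7 36)))) (.nv (.thr 6 54 (.dbl 4 7 55)) (.rp 55 (.thr 6 54 (.thr 7 4 (.dbl 37 52 53))) (.rp 7 (.thr 54 6 (.thr 53 37 (.dbl 55 4 52))) (.rp 4 (.thr 54 6 (.thr 53 37 (.thr 58 48 (.dbl 50 14 62)))) .nd)))))) (.rp 7 (.thr 55 4 (.thr 54 6 (.dbl 53 37 52))) (.rp 4 (.thr 18 30 (.thr 50 14 (.thr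 2 34 (.thr 54 6 (.dbl 62 42 58))))) .nd)))))))) (.rp 6 (.thr 18 30 (.thr 23 20 (.thr 55 4 (.thr 7 39 (.thr 50 14 (.thr 2 34 (.thr 62 42 (.thr 54 58 (.dbl 52 37 53))))))))) (.rp 5 (.str 10 (.nv (.thr 14 50 (.thr 30 18 (.thr 42 58 (.dbl 62 2 46)))) (.nv (.thr 14 50 (.dbl 6 2 54)) (.rp 63 (.str 47 (.nv (.thr 14 50 (.thr 30 18 (.thr 42 58 (.dbl 62 2 46)))) (.nv (.thr 14 50 (.dbl 6 2 54)) (.rp 50 (.thr 6 54 (.thr 2 14 (.dbl 42 58 62))) (.rp 14 (.thr 54 6 (.thr 23 20 (.thr 55 4 (.thr 7 39 (.dbl 52 37 53))))) (.rp 2 (.thr 50 14 (.thr 54 6 (.dbl 58 42 62))) .nd)))))) (.rp 50 (.thr 6 54 (.thr 2 14 (.dbl 42 58 62))) (.rp 47 (.str 63 (.nv (.thr 14 50 (.thr 30 18 (.thr 42 58 (.dbl 62 2 46)))) (.nv (.thr 14 50 (.dbl 6 2 54)) (.rp 50 (.thr 6 54 (.thr 2 14 (.dbl 42 58 62))) (.rp 14 (.thr 54 6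 (.thr 58 42 (.thr 53 48 (.dbl 55 4 52)))) (.rp 2 (.thr 50 14 (.thr 54 6 (.dbl 58 42 62))) .nd)))))) (.rp 14 (.thr 23 20 (.thr 55 4 (.thr 7 39 (.thr 54 6 (.dbl 52 37 53))))) (.rp 2 (.thr 50 14 (.thr 54 6 (.dbl 58 42 62))) .nd)))))))) .nd))))))))) (.rp 30 (.thr 20 23 (.str 28 (.nv (.dbl 16 24 31) (.rp 60 (.str 45 (.nv (.dbl 16 24 31) (.rp 31 (.thr 24 16 (.dbl 25 19 27)) (.rp 24 (.thr 25 19 (.thr 29 17 (.thr 13 61 (.thr 37 49 (.thr 52 7 (.thr 4 36 (.thr 55 38 (.dbl 53 5 54)))))))) (.rp 16 (.str 1 (.nv (.thr 41 61 (.thr 37 33 (.thr 5 53 (.thr 13 9 (.dbl 25 19 49))))) (.nv (.thr 61 41 (.thr 29 13 (.dbl 25 17 19))) (.rp 61 (.thr 25 19 (.thr 17 29 (.thr 33 49 (.thr 37 41 (.thr 52 7 (.thr 4 36 (.thr 55 38 (.dbl 53 5 54)))))))) (.rp 48 (.str 32 (.nv (.thr 41 61 (.thr 37 33 (.thr 5 53 (.thr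 13 9 (.dbl 25 19 49))))) (.nv (.thr 61 41 (.thr 29 13 (.dbl 25 17 19))) (.rp 61 (.thr 25 19 (.thr 17 29 (.thr 33 49 (.thr 37 41 (.thr 47 42 (.thr 44 46 (.thr 52 7 (.dbl 36 4 40)))))))) (.rp 56 (.str 52 (.nv (.thr 25 19 (.thr 61 41 (.dbl 29 13 17))) (.nv (.thr 4 36 (.thr 7 37 (.thr 38 55 (.dbl 6 5 54)))) (.nv (.thr 41 61 (.dbl 37 7 33)) (.rp 10 (.str 5 (.nv (.thr 13 9 (.dbl 61 29 41)) (.nv (.dbl 37 7 53) .nd))) (.rp 5 (.str 10 (.nv (.thr 4 36 (.thr 38 55 (.thr 6 54 (.dbl 14 2 50)))) (.nv (.thr 41 61 (.dbl 37 7 33)) (.rp 7 (.thr 41 61 (.thr 37 33 (.dbl 42 47 58))) .nd)))) .nd)))))) (.rp 52 (.str 56 (.nv (.dbl 41 11 61) (.rp 61 (.thr 41 11 (.thr 33 37 (.thr 17 49 (.dbl 25 19 29)))) (.rp 41 (.thr 25 19 (.thr 17 29 (.thr 49 33 (.thr 37 13 (.thr 42 47 (.thr 8 59 (.dbl 24 27 40)))))))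 (.rp 11 (.thr 61 41 (.thr 29 13 (.dbl 25 17 19))) (.rp 10 (.str 5 (.nv (.thr 25 19 (.thr 37 53 (.dbl 13 9 49))) (.nv (.dbl 41 11 61) .nd))) (.rp 5 (.str 10 (.nv (.dbl 41 11 61) (.rp 61 (.thr 42 58 (.thr 41 11 (.dbl 37 33 47))) (.rp 41 (.thr 42 58 (.thr 25 19 (.thr 8 59 (.dbl 24 27 40)))) (.rp 11 (.thr 41 61 (.thr 37 33 (.dbl 42 47 58))) .nd))))) .nd))))))) (.rp 41 (.thr 25 19 (.thr 17 29 (.thr 49 33 (.thr 37 13 (.thr 47 42 (.thr 44 46 (.thr 52 7 (.dbl 36 4 40)))))))) (.rp 25 (.thr 41 61 (.thr 37 33 (.thr 42 47 (.thr 40 43 (.thr 36 44 (.dbl 52 4 7)))))) (.rp 19 (.thr 41 61 (.thr 37 33 (.thr 42 47 (.thr 40 43 (.thr 36 44 (.dbl 52 4 7)))))) (.rp 13 (.thr 25 19 (.thr 17 29 (.thr 41 61 (.dbl 33 37 49)))) (.rp 10 (.str 5 (.nv (.thr 37 53 (.dbl 41 33 61)) (.nv (.thr 13 9 (.thr 25 19 (.dbl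 37 49 53))) (.nv (.thr 61 41 (.dbl 13 9 29)) (.rp 56 (.str 52 (.nv (.thr 13 9 (.dbl 61 29 41)) (.nv (.dbl 37 7 53) .nd))) (.rp 52 (.str 56 (.nv (.thr 25 19 (.thr 37 53 (.dbl 13 9 49))) (.nv (.dbl 41 11 61) .nd))) .nd)))))) (.rp 5 (.str 10 (.nv (.thr 25 19 (.thr 17 29 (.thr 42 58 (.thr 37 47 (.dbl 49 13 33))))) (.nv (.thr 41 61 (.thr 37 33 (.dbl 42 47 58))) (.nv (.thr 61 41 (.thr 29 13 (.dbl 25 17 19))) (.rp 56 (.str 52 (.nv (.thr 4 36 (.thr 38 55 (.thr 6 54 (.dbl 14 2 50)))) (.nv (.thr 41 61 (.dbl 37 7 33)) (.rp 7 (.thr 41 61 (.thr 37 33 (.dbl 42 47 58))) .nd)))) (.rp 52 (.str 56 (.nv (.dbl 41 11 61) (.rp 61 (.thr 42 58 (.thr 41 11 (.dbl 37 33 47))) (.rp 41 (.thr 42 58 (.thr 25 19 (.thr 8 59 (.dbl 24 27 40)))) (.rp 11 (.thr 41 61 (.thr 37 33 (.dbl 42 47 58))) .nd))))) .nd))))))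 .nd)))))))))))) (.rp 41 (.thr 25 19 (.thr 17 29 (.thr 49 33 (.thr 37 13 (.thr 52 7 (.thr 4 36 (.thr 55 38 (.dbl 53 5 54)))))))) (.rp 32 (.str 48 (.nv (.thr 41 61 (.thr 37 33 (.thr 5 53 (.thr 13 9 (.dbl 25 19 49))))) (.nv (.thr 61 41 (.thr 29 13 (.dbl 25 17 19))) (.rp 61 (.thr 25 19 (.thr 17 29 (.thr 49 33 (.thr 51 50 (.thr 12 38 (.dbl 24 27 36)))))) (.rp 41 (.thr 25 19 (.thr 17 29 (.thr 49 33 (.thr 51 50 (.thr 12 38 (.dbl 24 27 36)))))) (.rp 25 (.thr 41 61 (.thr 37 33 (.thr 52 7 (.thr 4 36 (.thr 55 38 (.dbl 53 5 54)))))) (.rp 19 (.thr 41 61 (.thr 37 33 (.thr 52 7 (.thr 4 36 (.thr 55 38 (.dbl 53 5 54)))))) (.rp 13 (.thr 41 61 (.thr 33 37 (.thr 17 49 (.dbl 25 19 29)))) (.rp 10 (.str 5 (.nv (.thr 13 9 (.thr 25 19 (.dbl 29 17 61))) (.nv (.thr 37 53 (.dbl 41 33 61)) (.rp 61 (.thr 13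 9 (.thr 37 53 (.dbl 25 19 49))) .nd)))) (.rp 5 (.str 10 (.nv (.thr 41 61 (.thr 11 56 (.thr 8 9 (.thr 42 58 (.dbl 25 19 59))))) (.nv (.thr 61 41 (.thr 29 13 (.dbl 25 17 19))) (.rp 61 (.thr 42 58 (.thr 25 19 (.thr 8 59 (.thr 11 9 (.thr 56 41 (.dbl 24 27 40)))))) (.rp 41 (.thr 25 19 (.thr 17 29 (.thr 49 33 (.thr 51 50 (.thr 12 38 (.dbl 24 27 36)))))) (.rp 25 (.thr 41 61 (.thr 37 33 (.thr 58 42 (.thr 52 7 (.thr 4 36 (.thr 55 38 (.dbl 53 54 63))))))) (.rp 19 (.thr 41 61 (.thr 33 37 (.thr 17 49 (.thr 25 29 (.thr 11 56 (.dbl 9 8 57)))))) .nd))))))) .nd)))))))))) (.rp 25 (.thr 41 61 (.thr 37 33 (.thr 52 7 (.thr 4 36 (.thr 55 38 (.dbl 53 5 54)))))) (.rp 19 (.thr 41 61 (.thr 37 33 (.thr 52 7 (.thr 4 36 (.thr 55 38 (.dbl 53 5 54)))))) (.rp 13 (.thr 25 19 (.thr 17 29 (.thr 41 61 (.dbl 33 37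 49)))) (.rp 10 (.str 5 (.nv (.thr 13 9 (.thr 25 19 (.dbl 29 17 61))) (.nv (.thr 37 53 (.dbl 41 33 61)) (.rp 61 (.thr 13 9 (.thr 25 19 (.dbl 37 49 53))) (.rp 48 (.str 32 (.nv (.thr 37 53 (.dbl 41 33 61)) (.nv (.thr 13 9 (.thr 25 19 (.dbl 37 49 53))) (.nv (.thr 61 41 (.dbl 13 9 29)) (.rp 56 (.str 52 (.nv (.thr 13 9 (.dbl 61 29 41)) (.nv (.dbl 37 7 53) .nd))) (.rp 52 (.str 56 (.nv (.thr 25 19 (.thr 37 53 (.dbl 13 9 49))) (.nv (.dbl 41 11 61) .nd))) .nd)))))) (.rp 32 (.str 48 (.nv (.thr 13 9 (.thr 25 19 (.dbl 29 17 61))) (.nv (.thr 37 53 (.dbl 41 33 61)) (.rp 61 (.thr 13 9 (.thr 37 53 (.dbl 25 19 49))) .nd)))) .nd)))))) (.rp 5 (.str 10 (.nv (.thr 41 61 (.thr 11 56 (.thr 8 9 (.thr 42 58 (.dbl 25 19 59))))) (.nv (.thr 61 41 (.thr 29 13 (.dbl 25 17 19))) (.rp 61 (.thr 25 19 (.thr 17 29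 (.thr 33 49 (.thr 41 37 (.thr 11 56 (.dbl 9 8 57)))))) (.rp 48 (.str 32 (.nv (.thr 25 19 (.thr 17 29 (.thr 42 58 (.thr 37 47 (.dbl 49 13 33))))) (.nv (.thr 41 61 (.thr 37 33 (.dbl 42 47 58))) (.nv (.thr 61 41 (.thr 29 13 (.dbl 25 17 19))) (.rp 56 (.str 52 (.nv (.thr 4 36 (.thr 38 55 (.thr 6 54 (.dbl 14 2 50)))) (.nv (.thr 41 61 (.dbl 37 7 33)) (.rp 7 (.thr 41 61 (.thr 37 33 (.dbl 42 47 58))) .nd)))) (.rp 52 (.str 56 (.nv (.dbl 41 11 61) (.rp 61 (.thr 42 58 (.thr 41 11 (.dbl 37 33 47))) (.rp 41 (.thr 42 58 (.thr 25 19 (.thr 8 59 (.dbl 24 27 40)))) (.rp 11 (.thr 41 61 (.thr 37 33 (.dbl 42 47 58))) .nd))))) .nd)))))) (.rp 41 (.thr 25 19 (.thr 17 29 (.thr 42 58 (.thr 2 62 (.thr 14 6 (.thr 49 33 (.thr 37 13 (.thr 52 7 (.thr 4 36 (.dbl 38 50 55)))))))))) (.rp 32 (.str 48 (.nv (.thr 41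 61 (.thr 11 56 (.thr 8 9 (.thr 42 58 (.dbl 25 19 59))))) (.nv (.thr 61 41 (.thr 29 13 (.dbl 25 17 19))) (.rp 61 (.thr 42 58 (.thr 25 19 (.thr 8 59 (.thr 11 9 (.thr 56 41 (.dbl 24 27 40)))))) (.rp 41 (.thr 25 19 (.thr 17 29 (.thr 49 33 (.thr 51 50 (.thr 12 38 (.dbl 24 27 36)))))) (.rp 25 (.thr 41 61 (.thr 37 33 (.thr 58 42 (.thr 52 7 (.thr 4 36 (.thr 55 38 (.dbl 53 54 63))))))) (.rp 19 (.thr 41 61 (.thr 33 37 (.thr 17 49 (.thr 25 29 (.thr 11 56 (.dbl 9 8 57)))))) .nd))))))) (.rp 25 (.thr 41 61 (.thr 37 33 (.thr 42 58 (.thr 40 43 (.thr 32 47 (.thr 36 44 (.dbl 52 4 7))))))) (.rp 19 (.thr 41 61 (.thr 33 37 (.thr 11 56 (.thr 9 8 (.thr 25 57 (.dbl 17 29 49)))))) .nd))))))))) .nd)))))))))))) (.rp 10 (.str 5 (.nv (.dbl 16 24 31) (.rp 31 (.thr 24 16 (.dbl 25 19 27)) (.rp 24 (.thr 25 19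 (.thr 29 17 (.thr 13 61 (.dbl 37 49 53)))) (.rp 16 (.thr 25 19 (.thr 37 53 (.thr 13 49 (.dbl 29 17 61)))) .nd))))) (.rp 5 (.str 10 (.nv (.dbl 16 24 31) (.rp 31 (.thr 24 16 (.dbl 25 19 27)) (.rp 24 (.thr 25 19 (.thr 29 17 (.thr 61 13 (.thr 41 1 (.thr 9 57 (.dbl 11 8 56)))))) (.rp 16 (.thr 25 19 (.thr 42 58 (.thr 8 59 (.thr 11 9 (.thr 56 41 (.dbl 24 27 40)))))) .nd))))) .nd))))))) (.rp 45 (.str 60 (.nv (.dbl 16 24 31) (.rp 31 (.thr 24 16 (.dbl 25 19 27)) (.rp 24 (.thr 25 19 (.thr 12 44 (.thr 51 38 (.thr 57 54 (.dbl 41 3 9))))) (.rp 16 (.thr 25 19 (.thr 12 44 (.thr 51 38 (.thr 57 54 (.dbl 41 3 9))))) (.rp 10 (.str 5 (.nv (.dbl 16 24 31) (.rp 31 (.thr 24 16 (.dbl 25 19 27)) (.rp 24 (.thr 25 19 (.thr 41 3 (.thr 1 61 (.dbl 9 13 57)))) (.rp 16 (.thr 25 19 (.thr 41 3 (.thr 1 61 (.dbl 9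 13 57)))) .nd))))) (.rp 5 (.str 10 (.nv (.dbl 16 24 31) (.rp 31 (.thr 24 16 (.dbl 25 19 27)) (.rp 24 (.thr 25 19 (.thr 41 3 (.thr 11 56 (.dbl 9 8 57)))) (.rp 16 (.thr 25 19 (.thr 41 3 (.thr 11 56 (.dbl 9 8 57)))) .nd))))) .nd))))))) (.rp 31 (.thr 24 16 (.dbl 25 19 27)) (.rp 24 (.str 60 (.nv (.thr 3 41 (.thr 12 44 (.thr 6 9 (.thr 38 54 (.thr 4 55 (.thr 52 36 (.dbl 7 5 37))))))) (.nv (.thr 12 44 (.thr 25 19 (.thr 29 17 (.thr 41 3 (.thr 63 46 (.dbl 61 1 62)))))) (.nv (.thr 3 41 (.thr 12 44 (.thr 6 9 (.thr 38 54 (.dbl 25 19 51))))) (.rp 44 (.thr 25 19 (.thr 17 29 (.thr 41 3 (.thr 1 61 (.thr 49 33 (.thr 13 37 (.dbl 9 5 57))))))) (.rp 41 (.thr 25 19 (.thr 12 44 (.thr 38 51 (.thr 6 54 (.thr 4 55 (.thr 52 36 (.dbl 7 5 37))))))) (.rp 35 (.thr 25 19 (.thr 12 44 (.thr 51 38 (.thr 41 3 (.dbl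 57 9 54))))) (.rp 25 (.thr 44 12 (.thr 41 3 (.thr 38 35 (.thr 6 54 (.thr 4 55 (.thr 52 36 (.thr 48 56 (.dbl 7 5 37)))))))) (.rp 12 (.thr 25 19 (.thr 17 29 (.thr 41 3 (.thr 1 61 (.thr 49 33 (.thr 13 37 (.dbl 9 5 57))))))) (.rp 10 (.str 5 (.nv (.thr 12 44 (.thr 25 19 (.thr 38 51 (.thr 4 55 (.dbl 6 7 54))))) (.nv (.thr 25 19 (.thr 41 3 (.thr 11 56 (.thr 1 61 (.dbl 9 13 57))))) (.nv (.thr 3 41 (.thr 37 53 (.thr 7 52 (.thr 6 4 (.dbl 12 9 44))))) (.rp 3 (.thr 25 19 (.thr 29 17 (.thr 37 53 (.thr 13 49 (.thr 1 9 (.dbl 61 41 45)))))) .nd))))) (.rp 5 (.str 10 (.nv (.thr 25 19 (.thr 12 44 (.thr 51 38 (.thr 57 54 (.dbl 41 3 9))))) (.nv (.thr 42 58 (.thr 62 2 (.thr 61 63 (.dbl 41 1 3)))) (.rp 41 (.thr 25 19 (.thr 12 44 (.thr 38 51 (.thr 14 50 (.dbl 6 2 54))))) (.rp 31 (.thr 42 58 (.thr 2 62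 (.thr 12 44 (.thr 3 41 (.dbl 6 9 14))))) (.rp 3 (.thr 25 19 (.thr 29 17 (.thr 42 58 (.thr 12 44 (.thr 63 46 (.dbl 62 2 61)))))) .nd)))))) (.rp 3 (.thr 25 19 (.thr 29 17 (.thr 12 44 (.thr 51 38 (.thr 57 54 (.thr 63 46 (.thr 41 9 (.dbl 61 1 62)))))))) .nd)))))))))))) (.rp 16 (.str 60 (.nv (.thr 3 41 (.thr 12 44 (.thr 6 9 (.thr 38 54 (.thr 4 55 (.thr 52 36 (.dbl 7 5 37))))))) (.nv (.thr 12 44 (.thr 25 19 (.thr 38 51 (.thr 4 55 (.thr 36 52 (.dbl 24 27 48)))))) (.nv (.thr 3 41 (.thr 12 44 (.thr 6 9 (.thr 38 54 (.dbl 25 19 51))))) (.rp 54 (.thr 44 12 (.thr 41 3 (.thr 38 35 (.thr 4 55 (.thr 52 36 (.dbl 56 11 48)))))) (.rp 48 (.str 32 (.nv (.thr 44 12 (.thr 36 40 (.thr 4 52 (.thr 38 55 (.dbl 41 3 35))))) (.nv (.thr 3 41 (.thr 12 44 (.thr 6 9 (.thr 38 54 (.dbl 25 19 51))))) (.rp 54 (.thr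 44 12 (.thr 36 40 (.thr 4 52 (.thr 41 3 (.dbl 38 35 55))))) (.rp 44 (.thr 25 19 (.thr 17 29 (.thr 41 3 (.thr 1 61 (.thr 9 57 (.thr 11 56 (.thr 13 5 (.thr 10 8 (.dbl 49 33 37))))))))) (.rp 41 (.thr 25 19 (.thr 12 44 (.thr 38 51 (.thr 4 55 (.thr 52 36 (.thr 6 54 (.dbl 7 5 37))))))) (.rp 38 (.thr 25 19 (.thr 27 24 (.thr 41 3 (.thr 11 56 (.thr 43 59 (.thr 40 42 (.dbl 44 12 36))))))) (.rp 35 (.thr 25 19 (.thr 12 44 (.thr 51 38 (.thr 41 3 (.dbl 57 9 54))))) (.rp 12 (.thr 25 19 (.thr 17 29 (.thr 41 3 (.thr 1 61 (.thr 33 49 (.thr 35 34 (.thr 38 44 (.thr 4 55 (.thr 36 52 (.dbl 37 39 45)))))))))) (.rp 10 (.str 5 (.nv (.thr 25 19 (.thr 41 3 (.thr 9 57 (.dbl 1 13 61)))) (.nv (.thr 3 41 (.thr 12 44 (.thr 25 19 (.thr 38 51 (.dbl 6 9 54))))) (.nv (.thr 44 12 (.thr 36 40 (.thr 37 53 (.dbl 52 4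 7)))) .nd)))) (.rp 5 (.str 10 (.nv (.thr 25 19 (.thr 41 3 (.thr 11 56 (.dbl 9 8 57)))) (.nv (.thr 44 12 (.thr 36 40 (.thr 42 58 (.thr 37 47 (.dbl 52 4 7))))) (.nv (.thr 3 41 (.thr 12 44 (.thr 6 9 (.thr 38 54 (.dbl 25 19 51))))) .nd)))) (.rp 3 (.thr 25 19 (.thr 27 24 (.thr 12 44 (.thr 51 38 (.thr 57 54 (.thr 41 9 (.thr 11 56 (.thr 59 43 (.thr 63 55 (.dbl 61 1 62)))))))))) .nd)))))))))))) (.rp 44 (.thr 25 19 (.thr 17 29 (.thr 41 3 (.thr 1 61 (.thr 49 33 (.thr 13 37 (.dbl 9 5 57))))))) (.rp 38 (.thr 25 19 (.thr 17 29 (.thr 41 3 (.thr 1 61 (.thr 49 33 (.thr 13 37 (.dbl 9 5 57))))))) (.rp 35 (.thr 25 19 (.thr 12 44 (.thr 51 38 (.thr 41 3 (.dbl 57 9 54))))) (.rp 32 (.str 48 (.nv (.thr 12 44 (.thr 25 19 (.dbl 24 27 36))) (.nv (.thr 56 52 (.dbl 41 3 11)) (.rp 10 (.str 5 (.nv (.thr 12 44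 (.thr 25 19 (.dbl 24 27 36))) (.nv (.thr 52 56 (.dbl 37 7 53)) .nd))) (.rp 5 (.str 10 (.nv (.thr 12 44 (.thr 25 19 (.dbl 24 27 36))) (.nv (.thr 56 52 (.dbl 41 3 11)) .nd))) .nd))))) (.rp 25 (.thr 44 12 (.thr 41 3 (.thr 38 35 (.thr 4 55 (.thr 52 36 (.dbl 56 11 48)))))) (.rp 12 (.thr 25 19 (.thr 17 29 (.thr 41 3 (.thr 1 61 (.thr 49 33 (.thr 13 37 (.dbl 9 5 57))))))) (.rp 10 (.str 5 (.nv (.thr 12 44 (.thr 25 19 (.thr 38 51 (.thr 4 55 (.dbl 6 7 54))))) (.nv (.thr 25 19 (.thr 41 3 (.thr 11 56 (.thr 1 61 (.dbl 9 13 57))))) (.nv (.thr 3 41 (.thr 37 53 (.thr 7 52 (.thr 6 4 (.dbl 12 9 44))))) (.rp 48 (.str 32 (.nv (.thr 25 19 (.thr 41 3 (.thr 9 57 (.dbl 1 13 61)))) (.nv (.thr 3 41 (.thr 12 44 (.thr 25 19 (.thr 38 51 (.dbl 6 9 54))))) (.nv (.thr 44 12 (.thr 36 40 (.thr 37 53 (.dbl 52 4 7))))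 .nd)))) (.rp 32 (.str 48 (.nv (.thr 12 44 (.thr 25 19 (.dbl 24 27 36))) (.nv (.thr 52 56 (.dbl 37 7 53)) .nd))) (.rp 3 (.thr 25 19 (.thr 37 53 (.thr 7 52 (.thr 4 6 (.thr 12 44 (.dbl 38 51 55)))))) .nd))))))) (.rp 5 (.str 10 (.nv (.thr 3 41 (.thr 12 44 (.thr 25 19 (.thr 27 24 (.thr 38 51 (.dbl 6 9 54)))))) (.nv (.thr 42 58 (.thr 62 2 (.thr 61 63 (.dbl 41 1 3)))) (.rp 48 (.str 32 (.nv (.thr 25 19 (.thr 41 3 (.thr 11 56 (.dbl 9 8 57)))) (.nv (.thr 44 12 (.thr 36 40 (.thr 42 58 (.thr 37 47 (.dbl 52 4 7))))) (.nv (.thr 3 41 (.thr 12 44 (.thr 6 9 (.thr 38 54 (.dbl 25 19 51))))) .nd)))) (.rp 41 (.thr 25 19 (.thr 12 44 (.thr 38 51 (.thr 14 50 (.dbl 6 2 54))))) (.rp 32 (.str 48 (.nv (.thr 12 44 (.thr 25 19 (.dbl 24 27 36))) (.nv (.thr 56 52 (.dbl 41 3 11)) .nd))) (.rp 3 (.thr 25 19 (.thr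 42 58 (.thr 2 62 (.thr 14 6 (.thr 12 44 (.dbl 38 50 51)))))) .nd))))))) (.rp 3 (.thr 25 19 (.thr 17 29 (.thr 12 44 (.thr 51 38 (.thr 57 54 (.thr 41 9 (.thr 1 61 (.thr 49 33 (.thr 48 50 (.dbl 24 27 36)))))))))) .nd))))))))))))))) (.rp 10 (.str 5 (.nv (.dbl 16 24 31) (.rp 60 (.str 45 (.nv (.dbl 16 24 31) (.rp 31 (.thr 24 16 (.dbl 25 19 27)) (.rp 24 (.thr 25 19 (.thr 29 17 (.thr 13 61 (.dbl 37 49 53)))) (.rp 16 (.thr 25 19 (.thr 37 53 (.thr 13 49 (.dbl 29 17 61)))) .nd))))) (.rp 45 (.str 60 (.nv (.dbl 16 24 31) (.rp 31 (.thr 24 16 (.dbl 25 19 27)) (.rp 24 (.thr 25 19 (.thr 41 3 (.thr 1 61 (.dbl 9 13 57)))) (.rp 16 (.thr 25 19 (.thr 41 3 (.thr 1 61 (.dbl 9 13 57)))) .nd))))) (.rp 31 (.thr 24 16 (.dbl 25 19 27)) (.rp 24 (.thr 25 19 (.thr 29 17 (.thr 37 53 (.thr 13 49 (.thr 1 9 (.dbl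 61 41 45)))))) (.rp 16 (.thr 25 19 (.thr 37 53 (.thr 13 49 (.thr 1 9 (.thr 61 41 (.dbl 29 17 45)))))) .nd))))))) (.rp 5 (.str 10 (.nv (.dbl 16 24 31) (.rp 60 (.str 45 (.nv (.dbl 16 24 31) (.rp 31 (.thr 24 16 (.dbl 25 19 27)) (.rp 24 (.thr 25 19 (.thr 29 17 (.thr 61 13 (.thr 41 1 (.thr 9 57 (.dbl 11 8 56)))))) (.rp 16 (.thr 25 19 (.thr 42 58 (.thr 8 59 (.thr 11 9 (.thr 56 41 (.dbl 24 27 40)))))) .nd))))) (.rp 45 (.str 60 (.nv (.dbl 16 24 31) (.rp 31 (.thr 24 16 (.dbl 25 19 27)) (.rp 24 (.thr 25 19 (.thr 41 3 (.thr 11 56 (.dbl 9 8 57)))) (.rp 16 (.thr 25 19 (.thr 41 3 (.thr 11 56 (.dbl 9 8 57)))) .nd))))) (.rp 31 (.thr 24 16 (.dbl 25 19 27)) (.rp 24 (.thr 19 25 (.thr 16 31 (.thr 18 17 (.thr 42 58 (.thr 2 62 (.thr 14 6 (.dbl 50 34 38))))))) (.rp 16 (.thr 25 19 (.thr 42 58 (.thr 8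 59 (.thr 11 9 (.thr 56 41 (.dbl 24 27 40)))))) .nd))))))) .nd)))))))))) (.rp 28 (.str 38 (.nv (.thr 6 54 (.thr 14 50 (.thr 30 18 (.thr 62 46 (.dbl 2 10 42))))) (.nv (.thr 6 54 (.thr 20 23 (.thr 4 55 (.thr 52 36 (.dbl 7 5 37))))) (.rp 54 (.thr 20 23 (.thr 30 18 (.thr 14 50 (.thr 4 55 (.thr 52 36 (.thr 7 37 (.thr 62 46 (.thr 2 42 (.dbl 6 5 10))))))))) (.rp 10 (.str 5 (.nv (.thr 4 55 (.thr 20 23 (.thr 37 53 (.dbl 52 7 36)))) (.nv (.thr 4 55 (.dbl 6 7 54)) (.rp 55 (.thr 6 54 (.thr 7 4 (.dbl 37 52 53))) (.rp 7 (.thr 55 4 (.thr 54 6 (.dbl 53 37 52))) (.rp 4 (.thr 18 30 (.thr 50 14 (.thr 2 34 (.thr 54 6 (.dbl 62 42 58))))) .nd)))))) (.rp 6 (.thr 23 20 (.thr 18 30 (.thr 50 14 (.thr 2 34 (.thr 55 4 (.thr 7 39 (.thr 52 37 (.thr 54 53 (.dbl 62 42 58))))))))) (.rp 5 (.str 10 (.nv (.thr 14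 50 (.thr 30 18 (.thr 42 58 (.dbl 62 2 46)))) (.nv (.thr 14 50 (.dbl 6 2 54)) (.rp 50 (.thr 6 54 (.thr 2 14 (.dbl 42 58 62))) (.rp 14 (.thr 23 20 (.thr 55 4 (.thr 7 39 (.thr 54 6 (.dbl 52 37 53))))) (.rp 2 (.thr 50 14 (.thr 54 6 (.dbl 58 42 62))) .nd)))))) .nd))))))) (.rp 27 (.thr 20 23 (.thr 18 30 (.thr 16 31 (.thr 19 17 (.dbl 28 24 25))))) (.rp 25 (.thr 20 23 (.thr 30 18 (.str 38 (.nv (.thr 14 50 (.thr 6 54 (.thr 62 46 (.dbl 2 10 42)))) (.nv (.thr 6 54 (.thr 4 55 (.thr 52 36 (.dbl 7 5 37)))) (.rp 54 (.thr 4 55 (.thr 52 36 (.thr 7 37 (.thr 14 50 (.thr 62 46 (.thr 2 42 (.dbl 6 5 10))))))) (.rp 10 (.str 5 (.nv (.thr 4 55 (.thr 37 53 (.dbl 52 7 36))) (.nv (.thr 6 54 (.dbl 4 7 55)) (.rp 55 (.thr 6 54 (.thr 7 4 (.dbl 37 52 53))) (.rp 7 (.thr 54 6 (.thr 53 37 (.dbl 55 4 52))) (.rp 4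 (.thr 6 54 (.thr 37 53 (.thr 36 39 (.thr 16 31 (.thr 24 28 (.thr 12 48 (.thr 14 50 (.thr 62 46 (.thr 2 42 (.thr 3 9 (.thr 41 60 (.thr 33 45 (.thr 61 1 (.thr 44 35 (.thr 40 32 (.dbl 56 8 11)))))))))))))))) .nd)))))) (.rp 6 (.str 41 (.nv (.thr 16 31 (.thr 28 24 (.thr 44 35 (.dbl 60 3 12)))) (.nv (.thr 4 55 (.thr 52 36 (.thr 56 11 (.dbl 60 3 48)))) (.rp 60 (.thr 4 55 (.thr 36 52 (.thr 56 11 (.thr 16 31 (.thr 24 28 (.thr 40 8 (.dbl 44 32 35))))))) (.rp 10 (.str 5 (.nv (.thr 14 50 (.thr 62 46 (.thr 61 1 (.dbl 60 3 63)))) (.nv (.thr 4 55 (.thr 37 53 (.dbl 52 7 36))) (.rp 14 (.str 2 (.nv (.thr 61 1 (.thr 62 42 (.dbl 60 3 63))) (.nv (.thr 4 55 (.thr 37 53 (.dbl 52 7 36))) (.rp 13 (.str 12 (.nv (.thr 37 53 (.thr 4 55 (.dbl 36 39 52))) (.nv (.thr 44 35 (.dbl 60 3 28)) (.rp 37 (.str 49 (.nv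 (.thr 4 55 (.thr 16 31 (.thr 24 28 (.dbl 36 48 52)))) (.nv (.thr 44 35 (.dbl 60 3 28)) (.rp 28 (.thr 61 1 (.thr 62 42 (.dbl 60 3 63))) .nd)))) .nd)))) (.rp 12 (.str 13 (.nv (.thr 4 55 (.thr 36 52 (.dbl 37 39 53))) (.nv (.dbl 1 9 61) (.rp 9 (.thr 3 60 (.thr 31 16 (.thr 61 1 (.dbl 29 28 45)))) (.rp 4 (.str 8 (.nv (.thr 16 31 (.thr 24 28 (.dbl 56 11 40))) (.nv (.dbl 1 9 61) (.rp 9 (.thr 3 60 (.thr 16 31 (.thr 56 11 (.dbl 24 28 40)))) (.rp 3 (.thr 9 1 (.thr 16 31 (.thr 24 28 (.dbl 56 11 40)))) .nd))))) (.rp 3 (.thr 9 1 (.thr 37 53 (.thr 36 39 (.dbl 4 52 55)))) .nd)))))) .nd))))) (.rp 2 (.thr 14 50 (.str 34 (.nv (.thr 4 55 (.thr 36 52 (.dbl 37 39 53))) (.nv (.dbl 46 42 62) (.rp 3 (.thr 1 61 (.dbl 46 42 62)) (.rp 1 (.thr 3 60 (.dbl 46 42 62)) .nd)))))) .nd))))) (.rp 5 (.str 10 (.nv (.thr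 4 55 (.thr 52 36 (.thr 56 11 (.dbl 60 3 48)))) (.nv (.thr 14 50 (.thr 42 58 (.dbl 62 2 46))) (.rp 7 (.thr 4 55 (.str 39 (.nv (.thr 14 50 (.thr 42 58 (.dbl 46 34 62))) (.nv (.dbl 36 37 52) (.rp 11 (.thr 3 60 (.dbl 36 37 52)) (.rp 3 (.thr 11 56 (.dbl 36 37 52)) .nd)))))) (.rp 4 (.str 7 (.nv (.thr 52 37 (.thr 56 11 (.dbl 60 3 48))) (.nv (.thr 14 50 (.thr 42 58 (.dbl 62 2 46))) (.rp 12 (.str 8 (.nv (.thr 14 50 (.thr 42 58 (.dbl 46 34 62))) (.nv (.dbl 11 9 56) (.rp 14 (.str 13 (.nv (.thr 31 16 (.thr 29 28 (.dbl 61 1 45))) (.nv (.dbl 11 9 56) (.rp 9 (.thr 3 60 (.thr 31 16 (.thr 61 1 (.dbl 29 28 45)))) (.rp 3 (.thr 9 11 (.thr 31 16 (.thr 29 28 (.dbl 61 1 45)))) .nd))))) (.rp 9 (.thr 3 60 (.thr 16 31 (.thr 56 11 (.dbl 24 28 40)))) (.rp 3 (.thr 9 11 (.thr 42 58 (.thr 46 34 (.dbl 14 50 62))))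 .nd)))))) (.rp 8 (.str 12 (.nv (.thr 42 58 (.thr 14 50 (.dbl 46 34 62))) (.nv (.thr 44 35 (.dbl 60 3 28)) (.rp 42 (.str 59 (.nv (.thr 14 50 (.thr 31 16 (.thr 29 28 (.dbl 46 62 63)))) (.nv (.thr 44 35 (.dbl 60 3 28)) (.rp 28 (.thr 56 11 (.thr 52 37 (.dbl 60 3 48))) .nd)))) .nd)))) .nd))))) .nd))))) (.rp 3 (.thr 4 55 (.thr 36 52 (.thr 16 31 (.thr 24 28 (.thr 44 35 (.thr 40 32 (.dbl 56 8 11))))))) .nd))))))) (.rp 5 (.str 10 (.nv (.thr 14 50 (.thr 42 58 (.dbl 62 2 46))) (.nv (.thr 6 54 (.dbl 14 2 50)) (.rp 50 (.thr 6 54 (.thr 2 14 (.dbl 42 58 62))) (.rp 14 (.thr 6 54 (.thr 42 58 (.thr 46 34 (.thr 31 16 (.thr 29 28 (.thr 12 63 (.thr 4 55 (.thr 52 36 (.thr 7 37 (.thr 3 9 (.thr 41 60 (.thr 43 40 (.thr 56 11 (.thr 44 35 (.thr 45 47 (.dbl 61 1 13)))))))))))))))) (.rp 2 (.thr 54 6 (.thr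 58 42 (.dbl 50 14 62))) .nd)))))) .nd))))))))) (.rp 24 (.thr 23 20 (.thr 30 18 (.thr 31 16 (.thr 28 29 (.dbl 19 25 27))))) (.rp 23 (.str 19 (.nv (.thr 16 31 (.thr 17 18 (.dbl 25 28 29))) (.nv (.thr 18 30 (.dbl 16 17 31)) (.rp 31 (.thr 18 30 (.thr 17 16 (.dbl 25 28 29))) (.rp 18 (.thr 25 28 (.str 41 (.nv (.thr 1 61 (.thr 9 57 (.thr 17 29 (.thr 49 33 (.dbl 13 5 37))))) (.nv (.thr 57 9 (.thr 56 11 (.thr 59 58 (.thr 8 42 (.dbl 24 27 40))))) (.rp 57 (.thr 27 24 (.thr 3 60 (.thr 51 35 (.thr 11 56 (.thr 59 43 (.thr 55 63 (.dbl 38 4 12))))))) (.rp 10 (.str 5 (.nv (.thr 1 61 (.thr 17 29 (.thr 37 53 (.dbl 49 13 33)))) (.nv (.thr 3 60 (.thr 9 57 (.thr 12 6 (.dbl 51 35 38)))) (.nv (.thr 1 61 (.dbl 9 13 57)) .nd)))) (.rp 9 (.thr 27 24 (.thr 3 60 (.thr 51 35 (.thr 11 56 (.thr 59 43 (.thr 55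 63 (.dbl 38 4 12))))))) (.rp 5 (.str 10 (.nv (.thr 11 56 (.thr 27 24 (.thr 42 58 (.dbl 59 8 43)))) (.nv (.thr 3 60 (.thr 9 57 (.thr 12 6 (.dbl 51 35 38)))) (.nv (.thr 11 56 (.dbl 9 8 57)) .nd)))) (.rp 3 (.thr 27 24 (.thr 1 61 (.thr 11 56 (.thr 9 57 (.thr 8 10 (.thr 5 13 (.dbl 59 42 43))))))) .nd))))))))) (.rp 17 (.thr 30 18 (.thr 31 16 (.dbl 28 25 29))) (.rp 16 (.str 42 (.nv (.thr 10 58 (.thr 25 28 (.thr 8 59 (.thr 11 9 (.thr 24 27 (.dbl 56 40 41)))))) (.nv (.thr 10 58 (.thr 2 62 (.thr 14 6 (.thr 50 38 (.dbl 18 30 34))))) (.rp 58 (.thr 30 18 (.thr 62 2 (.thr 46 14 (.thr 25 28 (.thr 29 17 (.thr 12 63 (.dbl 38 34 51))))))) (.rp 48 (.str 32 (.nv (.thr 25 28 (.thr 8 59 (.thr 24 27 (.thr 56 40 (.thr 11 41 (.dbl 10 9 58)))))) (.nv (.thr 10 58 (.thr 2 62 (.thr 14 6 (.thr 50 38 (.dbl 18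 30 34))))) (.rp 58 (.thr 25 28 (.thr 17 29 (.thr 37 47 (.thr 49 13 (.thr 1 33 (.thr 61 41 (.dbl 53 5 57))))))) (.rp 10 (.str 5 (.nv (.dbl 37 47 53) (.rp 53 (.thr 37 47 (.thr 25 28 (.thr 13 49 (.thr 1 9 (.thr 29 17 (.dbl 61 41 45)))))) (.rp 47 (.thr 37 53 (.thr 25 28 (.thr 13 49 (.thr 1 9 (.thr 29 17 (.dbl 61 41 45)))))) (.rp 37 (.thr 18 30 (.thr 2 62 (.thr 34 50 (.thr 35 33 (.thr 51 3 (.thr 25 28 (.dbl 38 12 46))))))) .nd))))) .nd))))) (.rp 32 (.str 48 (.nv (.thr 25 28 (.thr 8 59 (.thr 24 27 (.thr 56 40 (.thr 60 52 (.dbl 41 3 11)))))) (.nv (.thr 10 58 (.thr 2 62 (.thr 14 6 (.thr 50 38 (.dbl 18 30 34))))) (.rp 10 (.str 5 (.nv (.thr 2 62 (.thr 18 30 (.thr 50 34 (.thr 51 49 (.dbl 3 33 35))))) (.nv (.thr 25 28 (.thr 24 27 (.thr 12 36 (.thr 37 53 (.thr 49 13 (.dbl 51 38 50)))))) (.nv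 (.thr 18 30 (.thr 3 33 (.thr 37 53 (.thr 60 41 (.dbl 52 7 56))))) .nd)))) .nd)))) (.rp 10 (.str 5 (.nv (.thr 2 62 (.thr 18 30 (.thr 34 50 (.thr 37 53 (.thr 7 52 (.thr 4 6 (.dbl 38 46 55))))))) (.nv (.thr 25 28 (.thr 37 53 (.thr 13 49 (.thr 1 9 (.thr 61 41 (.dbl 29 17 45)))))) (.rp 53 (.thr 30 18 (.thr 25 28 (.thr 59 8 (.thr 62 2 (.thr 14 46 (.thr 50 38 (.thr 58 54 (.thr 56 57 (.thr 11 41 (.dbl 27 24 43)))))))))) (.rp 48 (.str 32 (.nv (.dbl 37 47 53) (.rp 53 (.thr 37 47 (.thr 25 28 (.thr 13 49 (.thr 1 9 (.thr 29 17 (.dbl 61 41 45)))))) (.rp 47 (.thr 37 53 (.thr 25 28 (.thr 13 49 (.thr 1 9 (.thr 29 17 (.dbl 61 41 45)))))) (.rp 37 (.thr 18 30 (.thr 2 62 (.thr 34 50 (.thr 35 33 (.thr 51 3 (.thr 25 28 (.dbl 38 12 46))))))) .nd))))) (.rp 45 (.thr 30 18 (.thr 62 2 (.thr 14 46 (.thr 37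 53 (.thr 7 52 (.thr 6 4 (.dbl 38 50 54))))))) (.rp 37 (.thr 30 18 (.thr 25 28 (.thr 59 8 (.thr 62 2 (.thr 14 46 (.thr 50 38 (.thr 58 54 (.thr 56 57 (.thr 11 41 (.dbl 27 24 43)))))))))) (.rp 32 (.str 48 (.nv (.thr 2 62 (.thr 18 30 (.thr 50 34 (.thr 51 49 (.dbl 3 33 35))))) (.nv (.thr 25 28 (.thr 24 27 (.thr 12 36 (.thr 37 53 (.thr 49 13 (.dbl 51 38 50)))))) (.nv (.thr 18 30 (.thr 3 33 (.thr 37 53 (.thr 60 41 (.dbl 52 7 56))))) .nd)))) .nd)))))))) .nd))))))) (.rp 10 (.str 5 (.nv (.thr 18 30 (.thr 17 16 (.dbl 25 28 29))) (.nv (.thr 16 31 (.dbl 18 17 30)) (.rp 30 (.thr 16 31 (.thr 17 18 (.dbl 25 28 29))) (.rp 18 (.thr 25 28 (.thr 29 17 (.thr 37 53 (.thr 13 49 (.thr 1 9 (.dbl 61 41 45)))))) (.rp 17 (.thr 28 25 (.thr 31 16 (.dbl 30 18 29))) (.rp 16 (.thr 25 28 (.thr 29 17 (.thr 37 53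 (.thr 13 49 (.thr 1 9 (.dbl 61 41 45)))))) .nd))))))) (.rp 5 (.str 10 (.nv (.thr 16 31 (.thr 17 18 (.dbl 25 28 29))) (.nv (.thr 18 30 (.dbl 16 17 31)) (.rp 31 (.thr 18 30 (.thr 17 16 (.dbl 25 28 29))) (.rp 18 (.thr 25 28 (.thr 24 27 (.thr 42 58 (.thr 8 59 (.thr 11 9 (.dbl 56 40 41)))))) (.rp 17 (.thr 30 18 (.thr 28 25 (.dbl 31 16 29))) (.rp 16 (.thr 18 30 (.thr 42 58 (.thr 2 62 (.thr 14 6 (.dbl 50 34 38))))) .nd))))))) .nd))))))))) (.rp 20 (.thr 30 18 (.str 28 (.nv (.dbl 31 16 29) (.rp 60 (.str 40 (.nv (.dbl 31 16 29) (.rp 31 (.str 11 (.nv (.thr 41 56 (.thr 42 43 (.thr 10 58 (.thr 8 9 (.dbl 25 19 59))))) (.nv (.thr 56 41 (.thr 24 8 (.dbl 25 19 27))) (.rp 63 (.str 47 (.nv (.thr 41 56 (.thr 42 43 (.thr 10 58 (.thr 8 9 (.dbl 25 19 59))))) (.nv (.thr 56 41 (.thr 24 8 (.dbl 25 19 27)))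 (.rp 62 (.str 61 (.nv (.dbl 41 1 56) (.rp 56 (.thr 41 1 (.thr 43 42 (.thr 27 59 (.dbl 25 19 24)))) (.rp 41 (.thr 25 19 (.thr 27 24 (.thr 59 43 (.thr 42 8 (.thr 37 32 (.thr 13 49 (.dbl 29 17 45))))))) (.rp 10 (.str 5 (.nv (.dbl 41 1 56) (.rp 56 (.thr 37 53 (.thr 41 1 (.dbl 42 32 43))) (.rp 41 (.thr 37 53 (.thr 25 19 (.thr 13 49 (.dbl 29 17 45)))) (.rp 1 (.thr 41 56 (.thr 42 43 (.dbl 37 32 53))) .nd))))) (.rp 5 (.str 10 (.nv (.thr 25 19 (.thr 42 58 (.dbl 8 9 59))) (.nv (.dbl 41 1 56) .nd))) (.rp 1 (.thr 56 41 (.thr 24 8 (.dbl 25 19 27))) .nd))))))) (.rp 61 (.str 62 (.nv (.thr 25 19 (.thr 56 41 (.dbl 24 8 27))) (.nv (.thr 2 42 (.thr 14 46 (.thr 38 50 (.dbl 6 10 54)))) (.nv (.thr 41 56 (.dbl 42 2 43)) (.rp 10 (.str 5 (.nv (.thr 14 46 (.thr 38 50 (.thr 4 55 (.dbl 6 7 54)))) (.nv (.thr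 41 56 (.dbl 42 2 43)) (.rp 2 (.thr 41 56 (.thr 42 43 (.dbl 37 32 53))) .nd)))) (.rp 5 (.str 10 (.nv (.thr 8 9 (.dbl 56 24 41)) (.nv (.dbl 42 2 58) .nd))) .nd)))))) (.rp 56 (.thr 25 19 (.thr 27 24 (.thr 43 59 (.thr 42 41 (.thr 32 37 (.thr 44 36 (.thr 62 2 (.dbl 46 14 45)))))))) (.rp 41 (.thr 25 19 (.thr 27 24 (.thr 59 43 (.thr 42 8 (.thr 32 37 (.thr 44 36 (.thr 62 2 (.dbl 46 14 45)))))))) (.rp 25 (.thr 41 56 (.thr 42 43 (.thr 37 32 (.thr 45 33 (.thr 46 44 (.dbl 62 2 14)))))) (.rp 19 (.thr 41 56 (.thr 42 43 (.thr 37 32 (.thr 45 33 (.thr 46 44 (.dbl 62 2 14)))))) (.rp 10 (.str 5 (.nv (.thr 25 19 (.thr 27 24 (.thr 37 53 (.thr 42 32 (.dbl 59 8 43))))) (.nv (.thr 37 53 (.thr 41 56 (.dbl 42 32 43))) (.nv (.thr 56 41 (.thr 24 8 (.dbl 25 19 27))) (.rp 62 (.str 61 (.nv (.dbl 41 1 56) (.rp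 56 (.thr 37 53 (.thr 41 1 (.dbl 42 32 43))) (.rp 41 (.thr 37 53 (.thr 25 19 (.thr 13 49 (.dbl 29 17 45)))) (.rp 1 (.thr 41 56 (.thr 42 43 (.dbl 37 32 53))) .nd))))) (.rp 61 (.str 62 (.nv (.thr 14 46 (.thr 38 50 (.thr 4 55 (.dbl 6 7 54)))) (.nv (.thr 41 56 (.dbl 42 2 43)) (.rp 2 (.thr 41 56 (.thr 42 43 (.dbl 37 32 53))) .nd)))) .nd)))))) (.rp 8 (.thr 25 19 (.thr 27 24 (.thr 41 56 (.dbl 43 42 59)))) (.rp 5 (.str 10 (.nv (.thr 41 56 (.dbl 42 43 58)) (.nv (.thr 8 9 (.thr 25 19 (.dbl 42 58 59))) (.nv (.thr 56 41 (.dbl 8 9 24)) (.rp 62 (.str 61 (.nv (.thr 25 19 (.thr 42 58 (.dbl 8 9 59))) (.nv (.dbl 41 1 56) .nd))) (.rp 61 (.str 62 (.nv (.thr 8 9 (.dbl 56 24 41)) (.nv (.dbl 42 2 58) .nd))) .nd)))))) .nd)))))))))))) (.rp 56 (.thr 25 19 (.thr 27 24 (.thr 43 59 (.thr 42 41 (.thr 62 2 (.thr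 14 46 (.thr 50 38 (.dbl 58 10 54)))))))) (.rp 47 (.str 63 (.nv (.thr 41 56 (.thr 42 43 (.thr 10 58 (.thr 8 9 (.dbl 25 19 59))))) (.nv (.thr 56 41 (.thr 24 8 (.dbl 25 19 27))) (.rp 56 (.thr 25 19 (.thr 27 24 (.thr 59 43 (.thr 51 55 (.thr 12 38 (.dbl 29 17 46)))))) (.rp 41 (.thr 25 19 (.thr 27 24 (.thr 59 43 (.thr 51 55 (.thr 12 38 (.dbl 29 17 46)))))) (.rp 25 (.thr 41 56 (.thr 42 43 (.thr 62 2 (.thr 14 46 (.thr 50 38 (.dbl 58 10 54)))))) (.rp 19 (.thr 41 56 (.thr 42 43 (.thr 62 2 (.thr 14 46 (.thr 50 38 (.dbl 58 10 54)))))) (.rp 10 (.str 5 (.nv (.thr 37 53 (.thr 41 56 (.thr 1 61 (.thr 13 9 (.dbl 25 19 49))))) (.nv (.thr 56 41 (.thr 24 8 (.dbl 25 19 27))) (.rp 56 (.thr 37 53 (.thr 25 19 (.thr 13 49 (.thr 1 9 (.thr 61 41 (.dbl 29 17 45)))))) (.rp 41 (.thr 25 19 (.thr 27 24 (.thr 59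 43 (.thr 51 55 (.thr 12 38 (.dbl 29 17 46)))))) (.rp 25 (.thr 41 56 (.thr 42 43 (.thr 53 37 (.thr 62 2 (.thr 14 46 (.thr 50 38 (.dbl 58 48 54))))))) (.rp 19 (.thr 41 56 (.thr 43 42 (.thr 27 59 (.thr 25 24 (.thr 1 61 (.dbl 9 13 57)))))) .nd))))))) (.rp 8 (.thr 41 56 (.thr 43 42 (.thr 27 59 (.dbl 25 19 24)))) (.rp 5 (.str 10 (.nv (.thr 8 9 (.thr 24 56 (.dbl 25 19 27))) (.nv (.thr 42 58 (.dbl 41 43 56)) (.rp 56 (.thr 8 9 (.thr 42 58 (.dbl 25 19 59))) .nd)))) .nd)))))))))) (.rp 41 (.thr 25 19 (.thr 27 24 (.thr 59 43 (.thr 42 8 (.thr 62 2 (.thr 14 46 (.thr 50 38 (.dbl 58 10 54)))))))) (.rp 25 (.thr 41 56 (.thr 42 43 (.thr 62 2 (.thr 14 46 (.thr 50 38 (.dbl 58 10 54)))))) (.rp 19 (.thr 41 56 (.thr 42 43 (.thr 62 2 (.thr 14 46 (.thr 50 38 (.dbl 58 10 54)))))) (.rp 10 (.str 5 (.nv (.thr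 37 53 (.thr 41 56 (.thr 1 61 (.thr 13 9 (.dbl 25 19 49))))) (.nv (.thr 56 41 (.thr 24 8 (.dbl 25 19 27))) (.rp 63 (.str 47 (.nv (.thr 25 19 (.thr 27 24 (.thr 37 53 (.thr 42 32 (.dbl 59 8 43))))) (.nv (.thr 37 53 (.thr 41 56 (.dbl 42 32 43))) (.nv (.thr 56 41 (.thr 24 8 (.dbl 25 19 27))) (.rp 62 (.str 61 (.nv (.dbl 41 1 56) (.rp 56 (.thr 37 53 (.thr 41 1 (.dbl 42 32 43))) (.rp 41 (.thr 37 53 (.thr 25 19 (.thr 13 49 (.dbl 29 17 45)))) (.rp 1 (.thr 41 56 (.thr 42 43 (.dbl 37 32 53))) .nd))))) (.rp 61 (.str 62 (.nv (.thr 14 46 (.thr 38 50 (.thr 4 55 (.dbl 6 7 54)))) (.nv (.thr 41 56 (.dbl 42 2 43)) (.rp 2 (.thr 41 56 (.thr 42 43 (.dbl 37 32 53))) .nd)))) .nd)))))) (.rp 56 (.thr 25 19 (.thr 27 24 (.thr 43 59 (.thr 41 42 (.thr 1 61 (.dbl 9 13 57)))))) (.rp 47 (.str 63 (.nv (.thr 37 53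 (.thr 41 56 (.thr 1 61 (.thr 13 9 (.dbl 25 19 49))))) (.nv (.thr 56 41 (.thr 24 8 (.dbl 25 19 27))) (.rp 56 (.thr 37 53 (.thr 25 19 (.thr 13 49 (.thr 1 9 (.thr 61 41 (.dbl 29 17 45)))))) (.rp 41 (.thr 25 19 (.thr 27 24 (.thr 59 43 (.thr 51 55 (.thr 12 38 (.dbl 29 17 46)))))) (.rp 25 (.thr 41 56 (.thr 42 43 (.thr 53 37 (.thr 62 2 (.thr 14 46 (.thr 50 38 (.dbl 58 48 54))))))) (.rp 19 (.thr 41 56 (.thr 43 42 (.thr 27 59 (.thr 25 24 (.thr 1 61 (.dbl 9 13 57)))))) .nd))))))) (.rp 41 (.thr 25 19 (.thr 27 24 (.thr 37 53 (.thr 7 52 (.thr 4 6 (.thr 59 43 (.thr 42 8 (.thr 62 2 (.thr 14 46 (.dbl 38 50 55)))))))))) (.rp 25 (.thr 41 56 (.thr 42 43 (.thr 37 53 (.thr 45 33 (.thr 47 32 (.thr 46 44 (.dbl 62 2 14))))))) (.rp 19 (.thr 41 56 (.thr 43 42 (.thr 1 61 (.thr 9 13 (.thr 25 57 (.dbl 27 24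 59)))))) .nd))))))))) (.rp 8 (.thr 25 19 (.thr 27 24 (.thr 41 56 (.dbl 43 42 59)))) (.rp 5 (.str 10 (.nv (.thr 8 9 (.thr 24 56 (.dbl 25 19 27))) (.nv (.thr 42 58 (.dbl 41 43 56)) (.rp 63 (.str 47 (.nv (.thr 41 56 (.dbl 42 43 58)) (.nv (.thr 8 9 (.thr 25 19 (.dbl 42 58 59))) (.nv (.thr 56 41 (.dbl 8 9 24)) (.rp 62 (.str 61 (.nv (.thr 25 19 (.thr 42 58 (.dbl 8 9 59))) (.nv (.dbl 41 1 56) .nd))) (.rp 61 (.str 62 (.nv (.thr 8 9 (.dbl 56 24 41)) (.nv (.dbl 42 2 58) .nd))) .nd)))))) (.rp 56 (.thr 8 9 (.thr 25 19 (.dbl 42 58 59))) (.rp 47 (.str 63 (.nv (.thr 8 9 (.thr 24 56 (.dbl 25 19 27))) (.nv (.thr 42 58 (.dbl 41 43 56)) (.rp 56 (.thr 8 9 (.thr 42 58 (.dbl 25 19 59))) .nd)))) .nd)))))) .nd)))))))))))) (.rp 29 (.thr 25 19 (.thr 24 27 (.thr 8 56 (.thr 42 59 (.thr 62 2 (.thr 14 46 (.thr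 50 38 (.dbl 58 10 54)))))))) (.rp 16 (.thr 29 31 (.dbl 25 17 19)) (.rp 10 (.str 5 (.nv (.dbl 31 16 29) (.rp 31 (.thr 25 19 (.thr 37 53 (.thr 13 49 (.thr 1 9 (.thr 61 41 (.dbl 29 17 45)))))) (.rp 29 (.thr 25 19 (.thr 24 27 (.thr 56 8 (.thr 41 11 (.thr 9 57 (.dbl 1 13 61)))))) (.rp 16 (.thr 29 31 (.dbl 25 17 19)) .nd))))) (.rp 5 (.str 10 (.nv (.dbl 31 16 29) (.rp 31 (.thr 25 19 (.thr 42 58 (.thr 8 59 (.dbl 24 27 56)))) (.rp 29 (.thr 25 19 (.thr 24 27 (.thr 8 56 (.dbl 42 58 59)))) (.rp 16 (.thr 29 31 (.dbl 25 17 19)) .nd))))) .nd))))))) (.rp 40 (.str 60 (.nv (.dbl 31 16 29) (.rp 31 (.thr 25 19 (.thr 12 44 (.thr 51 38 (.thr 57 54 (.dbl 41 3 9))))) (.rp 29 (.thr 25 19 (.thr 12 44 (.thr 51 38 (.thr 57 54 (.dbl 41 3 9))))) (.rp 16 (.thr 29 31 (.dbl 25 17 19)) (.rp 10 (.str 5 (.nv (.dbl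 31 16 29) (.rp 31 (.thr 25 19 (.thr 41 3 (.thr 1 61 (.dbl 9 13 57)))) (.rp 29 (.thr 25 19 (.thr 41 3 (.thr 1 61 (.dbl 9 13 57)))) (.rp 16 (.thr 29 31 (.dbl 25 17 19)) .nd))))) (.rp 5 (.str 10 (.nv (.dbl 31 16 29) (.rp 31 (.thr 25 19 (.thr 41 3 (.thr 11 56 (.dbl 9 8 57)))) (.rp 29 (.thr 25 19 (.thr 41 3 (.thr 11 56 (.dbl 9 8 57)))) (.rp 16 (.thr 29 31 (.dbl 25 17 19)) .nd))))) .nd))))))) (.rp 31 (.str 60 (.nv (.thr 3 41 (.thr 12 44 (.thr 6 9 (.thr 38 54 (.thr 14 50 (.thr 62 46 (.dbl 2 10 42))))))) (.nv (.thr 12 44 (.thr 25 19 (.thr 38 51 (.thr 14 50 (.thr 46 62 (.dbl 29 17 63)))))) (.nv (.thr 3 41 (.thr 12 44 (.thr 6 9 (.thr 38 54 (.dbl 25 19 51))))) (.rp 63 (.str 47 (.nv (.thr 44 12 (.thr 46 45 (.thr 14 62 (.thr 38 50 (.dbl 41 3 35))))) (.nv (.thr 3 41 (.thr 12 44 (.thr 6 9 (.thr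 38 54 (.dbl 25 19 51))))) (.rp 54 (.thr 44 12 (.thr 46 45 (.thr 14 62 (.thr 41 3 (.dbl 38 35 50))))) (.rp 44 (.thr 25 19 (.thr 27 24 (.thr 41 3 (.thr 11 56 (.thr 9 57 (.thr 1 61 (.thr 8 10 (.thr 5 13 (.dbl 59 42 43))))))))) (.rp 41 (.thr 25 19 (.thr 12 44 (.thr 38 51 (.thr 14 50 (.thr 62 46 (.thr 6 54 (.dbl 2 10 42))))))) (.rp 38 (.thr 25 19 (.thr 17 29 (.thr 41 3 (.thr 1 61 (.thr 33 49 (.thr 45 37 (.dbl 44 12 46))))))) (.rp 35 (.thr 25 19 (.thr 12 44 (.thr 51 38 (.thr 41 3 (.dbl 57 9 54))))) (.rp 12 (.thr 25 19 (.thr 27 24 (.thr 41 3 (.thr 11 56 (.thr 43 59 (.thr 35 39 (.thr 38 44 (.thr 14 50 (.thr 46 62 (.dbl 42 34 40)))))))))) (.rp 10 (.str 5 (.nv (.thr 25 19 (.thr 41 3 (.thr 9 57 (.dbl 1 13 61)))) (.nv (.thr 44 12 (.thr 46 45 (.thr 37 53 (.thr 42 32 (.dbl 62 2 14))))) (.nv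 (.thr 3 41 (.thr 12 44 (.thr 6 9 (.thr 38 54 (.dbl 25 19 51))))) .nd)))) (.rp 5 (.str 10 (.nv (.thr 25 19 (.thr 41 3 (.thr 11 56 (.dbl 9 8 57)))) (.nv (.thr 3 41 (.thr 12 44 (.thr 25 19 (.thr 38 51 (.dbl 6 9 54))))) (.nv (.thr 44 12 (.thr 46 45 (.thr 42 58 (.dbl 62 2 14)))) .nd)))) (.rp 3 (.thr 25 19 (.thr 17 29 (.thr 12 44 (.thr 51 38 (.thr 57 54 (.thr 41 9 (.thr 1 61 (.thr 49 33 (.thr 48 50 (.dbl 56 11 52)))))))))) .nd)))))))))))) (.rp 54 (.thr 44 12 (.thr 41 3 (.thr 38 35 (.thr 14 50 (.thr 62 46 (.dbl 61 1 63)))))) (.rp 47 (.str 63 (.nv (.thr 12 44 (.thr 25 19 (.dbl 29 17 46))) (.nv (.thr 61 62 (.dbl 41 1 3)) (.rp 10 (.str 5 (.nv (.thr 12 44 (.thr 25 19 (.dbl 29 17 46))) (.nv (.thr 61 62 (.dbl 41 1 3)) .nd))) (.rp 5 (.str 10 (.nv (.thr 12 44 (.thr 25 19 (.dbl 29 17 46))) (.nv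 (.thr 62 61 (.dbl 42 2 58)) .nd))) .nd))))) (.rp 44 (.thr 25 19 (.thr 27 24 (.thr 41 3 (.thr 11 56 (.thr 59 43 (.thr 8 42 (.dbl 9 10 57))))))) (.rp 38 (.thr 25 19 (.thr 27 24 (.thr 41 3 (.thr 11 56 (.thr 59 43 (.thr 8 42 (.dbl 9 10 57))))))) (.rp 35 (.thr 25 19 (.thr 12 44 (.thr 51 38 (.thr 41 3 (.dbl 57 9 54))))) (.rp 25 (.thr 44 12 (.thr 41 3 (.thr 38 35 (.thr 14 50 (.thr 62 46 (.dbl 61 1 63)))))) (.rp 12 (.thr 25 19 (.thr 27 24 (.thr 41 3 (.thr 11 56 (.thr 59 43 (.thr 8 42 (.dbl 9 10 57))))))) (.rp 10 (.str 5 (.nv (.thr 12 44 (.thr 25 19 (.thr 37 53 (.thr 7 52 (.thr 4 6 (.dbl 38 51 55)))))) (.nv (.thr 3 41 (.thr 12 44 (.thr 25 19 (.thr 17 29 (.thr 38 51 (.dbl 6 9 54)))))) (.nv (.thr 37 53 (.thr 52 7 (.thr 56 48 (.dbl 41 3 11)))) (.rp 63 (.str 47 (.nv (.thr 25 19 (.thr 41 3 (.thr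 9 57 (.dbl 1 13 61)))) (.nv (.thr 44 12 (.thr 46 45 (.thr 37 53 (.thr 42 32 (.dbl 62 2 14))))) (.nv (.thr 3 41 (.thr 12 44 (.thr 6 9 (.thr 38 54 (.dbl 25 19 51))))) .nd)))) (.rp 47 (.str 63 (.nv (.thr 12 44 (.thr 25 19 (.dbl 29 17 46))) (.nv (.thr 61 62 (.dbl 41 1 3)) .nd))) .nd)))))) (.rp 5 (.str 10 (.nv (.thr 12 44 (.thr 25 19 (.thr 38 51 (.thr 6 54 (.dbl 14 2 50))))) (.nv (.thr 25 19 (.thr 41 3 (.thr 1 61 (.thr 9 57 (.dbl 11 8 56))))) (.nv (.thr 3 41 (.thr 42 58 (.thr 2 62 (.thr 6 14 (.dbl 12 9 44))))) (.rp 63 (.str 47 (.nv (.thr 25 19 (.thr 41 3 (.thr 11 56 (.dbl 9 8 57)))) (.nv (.thr 3 41 (.thr 12 44 (.thr 25 19 (.thr 38 51 (.dbl 6 9 54))))) (.nv (.thr 44 12 (.thr 46 45 (.thr 42 58 (.dbl 62 2 14)))) .nd)))) (.rp 47 (.str 63 (.nv (.thr 12 44 (.thr 25 19 (.dbl 29 17 46))) (.nv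 (.thr 62 61 (.dbl 42 2 58)) .nd))) (.rp 3 (.thr 25 19 (.thr 42 58 (.thr 2 62 (.thr 14 6 (.thr 12 44 (.dbl 38 50 51)))))) .nd))))))) (.rp 3 (.thr 25 19 (.thr 27 24 (.thr 12 44 (.thr 51 38 (.thr 57 54 (.thr 41 9 (.thr 11 56 (.thr 59 43 (.thr 63 55 (.dbl 29 17 46)))))))))) .nd))))))))))))))) (.rp 29 (.str 60 (.nv (.thr 3 41 (.thr 12 44 (.thr 6 9 (.thr 38 54 (.thr 14 50 (.thr 62 46 (.dbl 2 10 42))))))) (.nv (.thr 12 44 (.thr 25 19 (.thr 24 27 (.thr 41 3 (.thr 48 36 (.dbl 56 11 52)))))) (.nv (.thr 3 41 (.thr 12 44 (.thr 6 9 (.thr 38 54 (.dbl 25 19 51))))) (.rp 44 (.thr 25 19 (.thr 27 24 (.thr 41 3 (.thr 11 56 (.thr 59 43 (.thr 8 42 (.dbl 9 10 57))))))) (.rp 41 (.thr 25 19 (.thr 12 44 (.thr 38 51 (.thr 6 54 (.thr 14 50 (.thr 62 46 (.dbl 2 10 42))))))) (.rp 35 (.thr 25 19 (.thr 12 44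 (.thr 51 38 (.thr 41 3 (.dbl 57 9 54))))) (.rp 25 (.thr 44 12 (.thr 41 3 (.thr 38 35 (.thr 6 54 (.thr 14 50 (.thr 62 46 (.thr 63 61 (.dbl 2 10 42)))))))) (.rp 12 (.thr 25 19 (.thr 27 24 (.thr 41 3 (.thr 11 56 (.thr 59 43 (.thr 8 42 (.dbl 9 10 57))))))) (.rp 10 (.str 5 (.nv (.thr 25 19 (.thr 12 44 (.thr 51 38 (.thr 57 54 (.dbl 41 3 9))))) (.nv (.thr 37 53 (.thr 52 7 (.thr 56 48 (.dbl 41 3 11)))) (.rp 41 (.thr 25 19 (.thr 12 44 (.thr 38 51 (.thr 4 55 (.dbl 6 7 54))))) (.rp 16 (.thr 37 53 (.thr 7 52 (.thr 12 44 (.thr 3 41 (.dbl 6 4 9))))) (.rp 3 (.thr 25 19 (.thr 24 27 (.thr 37 53 (.thr 12 44 (.thr 48 36 (.dbl 52 7 56)))))) .nd)))))) (.rp 5 (.str 10 (.nv (.thr 12 44 (.thr 25 19 (.thr 38 51 (.thr 6 54 (.dbl 14 2 50))))) (.nv (.thr 25 19 (.thr 41 3 (.thr 1 61 (.thr 9 57 (.dbl 11 8 56)))))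 (.nv (.thr 3 41 (.thr 42 58 (.thr 2 62 (.thr 6 14 (.dbl 12 9 44))))) (.rp 3 (.thr 25 19 (.thr 24 27 (.thr 42 58 (.thr 8 59 (.thr 11 9 (.dbl 56 40 41)))))) .nd))))) (.rp 3 (.thr 25 19 (.thr 24 27 (.thr 12 44 (.thr 51 38 (.thr 57 54 (.thr 48 36 (.thr 41 9 (.dbl 56 11 52)))))))) .nd)))))))))))) (.rp 16 (.thr 29 31 (.dbl 25 17 19)) (.rp 10 (.str 5 (.nv (.dbl 31 16 29) (.rp 60 (.str 40 (.nv (.dbl 31 16 29) (.rp 31 (.thr 25 19 (.thr 37 53 (.thr 13 49 (.thr 1 9 (.thr 61 41 (.dbl 29 17 45)))))) (.rp 29 (.thr 25 19 (.thr 24 27 (.thr 56 8 (.thr 41 11 (.thr 9 57 (.dbl 1 13 61)))))) (.rp 16 (.thr 29 31 (.dbl 25 17 19)) .nd))))) (.rp 40 (.str 60 (.nv (.dbl 31 16 29) (.rp 31 (.thr 25 19 (.thr 41 3 (.thr 1 61 (.dbl 9 13 57)))) (.rp 29 (.thr 25 19 (.thr 41 3 (.thr 1 61 (.dbl 9 13 57)))) (.rp 16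 (.thr 29 31 (.dbl 25 17 19)) .nd))))) (.rp 31 (.thr 25 19 (.thr 37 53 (.thr 13 49 (.thr 1 9 (.thr 61 41 (.dbl 29 17 45)))))) (.rp 29 (.thr 19 25 (.thr 31 16 (.thr 23 27 (.thr 37 53 (.thr 7 52 (.thr 4 6 (.dbl 55 38 39))))))) (.rp 16 (.thr 29 31 (.dbl 25 17 19)) .nd))))))) (.rp 5 (.str 10 (.nv (.dbl 31 16 29) (.rp 60 (.str 40 (.nv (.dbl 31 16 29) (.rp 31 (.thr 25 19 (.thr 42 58 (.thr 8 59 (.dbl 24 27 56)))) (.rp 29 (.thr 25 19 (.thr 24 27 (.thr 8 56 (.dbl 42 58 59)))) (.rp 16 (.thr 29 31 (.dbl 25 17 19)) .nd))))) (.rp 40 (.str 60 (.nv (.dbl 31 16 29) (.rp 31 (.thr 25 19 (.thr 41 3 (.thr 11 56 (.dbl 9 8 57)))) (.rp 29 (.thr 25 19 (.thr 41 3 (.thr 11 56 (.dbl 9 8 57)))) (.rp 16 (.thr 29 31 (.dbl 25 17 19)) .nd))))) (.rp 31 (.thr 25 19 (.thr 42 58 (.thr 8 59 (.thr 11 9 (.thr 56 41 (.dbl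 24 27 40)))))) (.rp 29 (.thr 25 19 (.thr 24 27 (.thr 42 58 (.thr 8 59 (.thr 11 9 (.dbl 56 40 41)))))) (.rp 16 (.thr 29 31 (.dbl 25 17 19)) .nd))))))) .nd)))))))))) (.rp 19 (.str 38 (.nv (.thr 6 54 (.thr 14 50 (.thr 30 18 (.thr 62 46 (.dbl 2 10 42))))) (.nv (.thr 6 54 (.thr 20 23 (.thr 4 55 (.thr 52 36 (.dbl 7 5 37))))) (.rp 54 (.thr 20 23 (.thr 30 18 (.thr 14 50 (.thr 4 55 (.thr 52 36 (.thr 7 37 (.thr 62 46 (.thr 2 42 (.dbl 6 5 10))))))))) (.rp 10 (.str 5 (.nv (.thr 4 55 (.thr 20 23 (.thr 37 53 (.dbl 52 7 36)))) (.nv (.thr 4 55 (.dbl 6 7 54)) (.rp 55 (.thr 6 54 (.thr 7 4 (.dbl 37 52 53))) (.rp 7 (.thr 55 4 (.thr 54 6 (.dbl 53 37 52))) (.rp 4 (.thr 18 30 (.thr 50 14 (.thr 2 34 (.thr 54 6 (.dbl 62 42 58))))) .nd)))))) (.rp 6 (.thr 23 20 (.thr 18 30 (.thr 50 14 (.thr 2 34 (.thr 55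 4 (.thr 7 39 (.thr 52 37 (.thr 54 53 (.dbl 62 42 58))))))))) (.rp 5 (.str 10 (.nv (.thr 14 50 (.thr 30 18 (.thr 42 58 (.dbl 62 2 46)))) (.nv (.thr 14 50 (.dbl 6 2 54)) (.rp 50 (.thr 6 54 (.thr 2 14 (.dbl 42 58 62))) (.rp 14 (.thr 23 20 (.thr 55 4 (.thr 7 39 (.thr 54 6 (.dbl 52 37 53))))) (.rp 2 (.thr 50 14 (.thr 54 6 (.dbl 58 42 62))) .nd)))))) .nd))))))) (.rp 18 (.str 19 (.nv (.thr 16 31 (.thr 20 23 (.dbl 28 24 25))) (.nv (.thr 23 20 (.dbl 31 16 27)) (.rp 31 (.str 37 (.nv (.thr 5 53 (.thr 25 28 (.thr 13 49 (.thr 1 9 (.thr 29 17 (.dbl 61 41 45)))))) (.nv (.thr 5 53 (.thr 7 52 (.thr 4 6 (.thr 55 38 (.dbl 23 20 39))))) (.rp 63 (.str 47 (.nv (.thr 52 7 (.thr 20 23 (.thr 4 36 (.thr 55 38 (.dbl 53 5 54))))) (.nv (.thr 5 53 (.thr 25 28 (.thr 13 49 (.thr 1 9 (.thr 29 17 (.dbl 61 41 45))))))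 (.nv (.thr 5 53 (.thr 7 52 (.thr 4 6 (.thr 55 38 (.dbl 23 20 39))))) (.rp 53 (.thr 25 28 (.thr 27 24 (.thr 42 32 (.thr 59 8 (.thr 11 43 (.thr 56 41 (.dbl 58 10 57))))))) (.rp 5 (.str 10 (.nv (.dbl 42 32 58) (.rp 58 (.thr 42 32 (.thr 25 28 (.thr 8 59 (.thr 11 9 (.thr 24 27 (.dbl 56 40 41)))))) (.rp 42 (.thr 23 20 (.thr 7 52 (.thr 39 55 (.thr 35 43 (.thr 51 3 (.thr 25 28 (.dbl 38 12 36))))))) (.rp 32 (.thr 42 58 (.thr 25 28 (.thr 8 59 (.thr 11 9 (.thr 24 27 (.dbl 56 40 41)))))) .nd))))) .nd)))))) (.rp 53 (.thr 20 23 (.thr 52 7 (.thr 36 4 (.thr 25 28 (.thr 24 27 (.thr 12 48 (.dbl 38 39 51))))))) (.rp 47 (.str 63 (.nv (.thr 25 28 (.thr 13 49 (.thr 29 17 (.thr 61 45 (.thr 60 62 (.dbl 41 1 3)))))) (.nv (.thr 5 53 (.thr 7 52 (.thr 4 6 (.thr 55 38 (.dbl 23 20 39))))) (.rp 5 (.str 10 (.nv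 (.thr 7 52 (.thr 23 20 (.thr 55 39 (.thr 51 59 (.dbl 3 35 43))))) (.nv (.thr 25 28 (.thr 29 17 (.thr 12 46 (.thr 42 58 (.thr 51 38 (.dbl 59 8 55)))))) (.nv (.thr 23 20 (.thr 3 43 (.thr 42 58 (.thr 60 41 (.dbl 62 2 61))))) .nd)))) .nd)))) (.rp 5 (.str 10 (.nv (.thr 7 52 (.thr 23 20 (.thr 39 55 (.thr 42 58 (.thr 2 62 (.thr 14 6 (.dbl 38 36 50))))))) (.nv (.thr 25 28 (.thr 42 58 (.thr 8 59 (.thr 11 9 (.thr 56 41 (.dbl 24 27 40)))))) (.rp 63 (.str 47 (.nv (.dbl 42 32 58) (.rp 58 (.thr 42 32 (.thr 25 28 (.thr 8 59 (.thr 11 9 (.thr 24 27 (.dbl 56 40 41)))))) (.rp 42 (.thr 23 20 (.thr 7 52 (.thr 39 55 (.thr 35 43 (.thr 51 3 (.thr 25 28 (.dbl 38 12 36))))))) (.rp 32 (.thr 42 58 (.thr 25 28 (.thr 8 59 (.thr 11 9 (.thr 24 27 (.dbl 56 40 41)))))) .nd))))) (.rp 58 (.thr 20 23 (.thr 25 28 (.thr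 49 13 (.thr 52 7 (.thr 4 36 (.thr 55 38 (.thr 53 54 (.thr 61 57 (.thr 1 41 (.dbl 17 29 33)))))))))) (.rp 47 (.str 63 (.nv (.thr 7 52 (.thr 23 20 (.thr 55 39 (.thr 51 59 (.dbl 3 35 43))))) (.nv (.thr 25 28 (.thr 29 17 (.thr 12 46 (.thr 42 58 (.thr 51 38 (.dbl 59 8 55)))))) (.nv (.thr 23 20 (.thr 3 43 (.thr 42 58 (.thr 60 41 (.dbl 62 2 61))))) .nd)))) (.rp 42 (.thr 20 23 (.thr 25 28 (.thr 49 13 (.thr 52 7 (.thr 4 36 (.thr 55 38 (.thr 53 54 (.thr 61 57 (.thr 1 41 (.dbl 17 29 33)))))))))) (.rp 40 (.thr 20 23 (.thr 52 7 (.thr 4 36 (.thr 42 58 (.thr 2 62 (.thr 6 14 (.dbl 38 54 55))))))) .nd)))))))) .nd))))))) (.rp 23 (.thr 25 28 (.str 41 (.nv (.thr 1 61 (.thr 9 57 (.thr 17 29 (.thr 49 33 (.dbl 13 5 37))))) (.nv (.thr 57 9 (.thr 56 11 (.thr 59 58 (.thr 8 42 (.dbl 24 27 40))))) (.rp 57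 (.thr 27 24 (.thr 3 60 (.thr 51 35 (.thr 11 56 (.thr 59 43 (.thr 55 63 (.dbl 38 4 12))))))) (.rp 10 (.str 5 (.nv (.thr 1 61 (.thr 17 29 (.thr 37 53 (.dbl 49 13 33)))) (.nv (.thr 3 60 (.thr 9 57 (.thr 12 6 (.dbl 51 35 38)))) (.nv (.thr 1 61 (.dbl 9 13 57)) .nd)))) (.rp 9 (.thr 27 24 (.thr 3 60 (.thr 51 35 (.thr 11 56 (.thr 59 43 (.thr 55 63 (.dbl 38 4 12))))))) (.rp 5 (.str 10 (.nv (.thr 11 56 (.thr 27 24 (.thr 42 58 (.dbl 59 8 43)))) (.nv (.thr 3 60 (.thr 9 57 (.thr 12 6 (.dbl 51 35 38)))) (.nv (.thr 11 56 (.dbl 9 8 57)) .nd)))) (.rp 3 (.thr 27 24 (.thr 1 61 (.thr 11 56 (.thr 9 57 (.thr 8 10 (.thr 5 13 (.dbl 59 42 43))))))) .nd))))))))) (.rp 20 (.thr 31 16 (.thr 27 23 (.dbl 25 24 28))) (.rp 16 (.thr 23 20 (.thr 27 31 (.dbl 25 24 28))) (.rp 10 (.str 5 (.nv (.thr 16 31 (.thr 20 23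 (.dbl 28 24 25))) (.nv (.thr 23 20 (.dbl 31 16 27)) (.rp 31 (.thr 23 20 (.thr 37 53 (.thr 7 52 (.thr 4 6 (.dbl 55 38 39))))) (.rp 23 (.thr 25 28 (.thr 29 17 (.thr 37 53 (.thr 13 49 (.thr 1 9 (.dbl 61 41 45)))))) (.rp 20 (.thr 31 16 (.thr 27 23 (.dbl 25 24 28))) (.rp 16 (.thr 23 20 (.thr 27 31 (.dbl 25 24 28))) .nd))))))) (.rp 5 (.str 10 (.nv (.thr 16 31 (.thr 20 23 (.dbl 28 24 25))) (.nv (.thr 31 16 (.dbl 23 20 27)) (.rp 31 (.thr 25 28 (.thr 24 27 (.thr 42 58 (.thr 8 59 (.thr 11 9 (.dbl 56 40 41)))))) (.rp 23 (.thr 25 28 (.thr 24 27 (.thr 42 58 (.thr 8 59 (.thr 11 9 (.dbl 56 40 41)))))) (.rp 20 (.thr 31 16 (.thr 27 23 (.dbl 25 24 28))) (.rp 16 (.thr 23 20 (.thr 27 31 (.dbl 25 24 28))) .nd))))))) .nd))))))))) (.rp 16 (.str 38 (.nv (.thr 6 54 (.thr 14 50 (.thr 30 18 (.thr 62 46 (.dbl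 2 10 42))))) (.nv (.thr 6 54 (.thr 20 23 (.thr 4 55 (.thr 52 36 (.dbl 7 5 37))))) (.rp 54 (.thr 20 23 (.thr 30 18 (.thr 14 50 (.thr 4 55 (.thr 52 36 (.thr 7 37 (.thr 62 46 (.thr 2 42 (.dbl 6 5 10))))))))) (.rp 48 (.str 32 (.nv (.thr 6 54 (.thr 14 50 (.thr 30 18 (.thr 62 46 (.dbl 2 10 42))))) (.nv (.thr 20 23 (.thr 6 54 (.thr 4 55 (.thr 52 36 (.dbl 7 5 37))))) (.rp 54 (.thr 20 23 (.thr 4 55 (.thr 50 14 (.thr 18 30 (.thr 34 2 (.thr 35 33 (.thr 44 41 (.dbl 36 40 52)))))))) (.rp 10 (.str 5 (.nv (.thr 4 55 (.thr 20 23 (.thr 37 53 (.dbl 52 7 36)))) (.nv (.thr 4 55 (.dbl 6 7 54)) (.rp 55 (.thr 6 54 (.thr 7 4 (.dbl 37 52 53))) (.rp 7 (.thr 55 4 (.thr 54 6 (.dbl 53 37 52))) (.rp 4 (.thr 54 6 (.thr 18 30 (.thr 50 14 (.thr 2 34 (.dbl 62 42 58))))) .nd)))))) (.rp 6 (.thr 20 23 (.thr 4 55 (.thr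 36 52 (.thr 50 14 (.thr 18 30 (.thr 44 40 (.thr 35 41 (.dbl 34 2 33)))))))) (.rp 5 (.str 10 (.nv (.thr 14 50 (.thr 30 18 (.thr 42 58 (.dbl 62 2 46)))) (.nv (.thr 6 54 (.dbl 14 2 50)) (.rp 50 (.thr 6 54 (.thr 2 14 (.dbl 42 58 62))) (.rp 14 (.thr 54 6 (.thr 23 20 (.thr 55 4 (.thr 7 39 (.dbl 52 37 53))))) (.rp 2 (.thr 54 6 (.thr 58 42 (.dbl 50 14 62))) .nd)))))) .nd))))))) (.rp 32 (.str 48 (.nv (.thr 20 23 (.thr 6 54 (.thr 4 55 (.thr 52 36 (.dbl 7 5 37))))) (.nv (.thr 4 55 (.thr 18 30 (.thr 20 23 (.thr 52 36 (.thr 60 56 (.dbl 3 33 41)))))) (.nv (.thr 30 18 (.thr 14 50 (.thr 62 46 (.thr 6 54 (.dbl 2 10 42))))) (.rp 10 (.str 5 (.nv (.thr 4 55 (.thr 20 23 (.thr 37 53 (.dbl 52 7 36)))) (.nv (.thr 4 55 (.dbl 6 7 54)) (.rp 55 (.thr 6 54 (.thr 7 4 (.dbl 37 52 53))) (.rp 7 (.thr 55 4 (.thr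 54 6 (.dbl 53 37 52))) (.rp 4 (.thr 54 6 (.thr 53 37 (.thr 58 63 (.dbl 50 14 62)))) .nd)))))) (.rp 5 (.str 10 (.nv (.thr 14 50 (.thr 30 18 (.thr 42 58 (.dbl 62 2 46)))) (.nv (.thr 6 54 (.dbl 14 2 50)) (.rp 50 (.thr 6 54 (.thr 2 14 (.dbl 42 58 62))) (.rp 14 (.thr 54 6 (.thr 58 42 (.thr 53 63 (.dbl 55 4 52)))) (.rp 2 (.thr 54 6 (.thr 58 42 (.dbl 50 14 62))) .nd)))))) .nd)))))) (.rp 10 (.str 5 (.nv (.thr 4 55 (.thr 20 23 (.thr 37 53 (.dbl 52 7 36)))) (.nv (.thr 4 55 (.dbl 6 7 54)) (.rp 55 (.thr 6 54 (.thr 7 4 (.dbl 37 52 53))) (.rp 48 (.str 32 (.nv (.thr 4 55 (.thr 20 23 (.thr 37 53 (.dbl 52 7 36)))) (.nv (.thr 4 55 (.dbl 6 7 54)) (.rp 55 (.thr 6 54 (.thr 7 4 (.dbl 37 52 53))) (.rp 7 (.thr 55 4 (.thr 54 6 (.dbl 53 37 52))) (.rp 4 (.thr 54 6 (.thr 18 30 (.thr 50 14 (.thr 2 34 (.dbl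 62 42 58))))) .nd)))))) (.rp 32 (.str 48 (.nv (.thr 4 55 (.thr 20 23 (.thr 37 53 (.dbl 52 7 36)))) (.nv (.thr 4 55 (.dbl 6 7 54)) (.rp 55 (.thr 6 54 (.thr 7 4 (.dbl 37 52 53))) (.rp 7 (.thr 55 4 (.thr 54 6 (.dbl 53 37 52))) (.rp 4 (.thr 54 6 (.thr 53 37 (.thr 58 63 (.dbl 50 14 62)))) .nd)))))) (.rp 7 (.thr 55 4 (.thr 54 6 (.dbl 53 37 52))) (.rp 4 (.thr 18 30 (.thr 50 14 (.thr 2 34 (.thr 54 6 (.dbl 62 42 58))))) .nd)))))))) (.rp 6 (.thr 23 20 (.thr 18 30 (.thr 50 14 (.thr 2 34 (.thr 55 4 (.thr 7 39 (.thr 52 37 (.thr 54 53 (.dbl 62 42 58))))))))) (.rp 5 (.str 10 (.nv (.thr 14 50 (.thr 30 18 (.thr 42 58 (.dbl 62 2 46)))) (.nv (.thr 14 50 (.dbl 6 2 54)) (.rp 50 (.thr 6 54 (.thr 2 14 (.dbl 42 58 62))) (.rp 48 (.str 32 (.nv (.thr 14 50 (.thr 30 18 (.thr 42 58 (.dbl 62 2 46)))) (.nv (.thr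 6 54 (.dbl 14 2 50)) (.rp 50 (.thr 6 54 (.thr 2 14 (.dbl 42 58 62))) (.rp 14 (.thr 54 6 (.thr 23 20 (.thr 55 4 (.thr 7 39 (.dbl 52 37 53))))) (.rp 2 (.thr 54 6 (.thr 58 42 (.dbl 50 14 62))) .nd)))))) (.rp 32 (.str 48 (.nv (.thr 14 50 (.thr 30 18 (.thr 42 58 (.dbl 62 2 46)))) (.nv (.thr 6 54 (.dbl 14 2 50)) (.rp 50 (.thr 6 54 (.thr 2 14 (.dbl 42 58 62))) (.rp 14 (.thr 54 6 (.thr 58 42 (.thr 53 63 (.dbl 55 4 52)))) (.rp 2 (.thr 54 6 (.thr 58 42 (.dbl 50 14 62))) .nd)))))) (.rp 14 (.thr 23 20 (.thr 55 4 (.thr 7 39 (.thr 54 6 (.dbl 52 37 53))))) (.rp 2 (.thr 50 14 (.thr 54 6 (.dbl 58 42 62))) .nd)))))))) .nd))))))))) (.rp 10 (.str 5 (.nv (.thr 23 20 (.thr 37 53 (.thr 7 52 (.thr 4 6 (.dbl 55 38 39))))) (.nv (.thr 20 23 (.thr 16 31 (.thr 28 24 (.thr 19 25 (.dbl 18 17 30))))) (.rp 23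 (.str 28 (.nv (.thr 16 31 (.thr 24 20 (.dbl 25 19 27))) (.nv (.thr 30 18 (.dbl 31 16 29)) (.rp 31 (.thr 25 19 (.thr 27 24 (.thr 29 17 (.thr 37 53 (.thr 13 49 (.thr 1 9 (.dbl 61 41 45))))))) (.rp 16 (.thr 30 18 (.thr 29 31 (.dbl 25 17 19))) .nd))))) (.rp 20 (.thr 31 16 (.thr 30 18 (.thr 28 29 (.thr 19 25 (.thr 23 27 (.thr 37 53 (.thr 7 52 (.thr 4 6 (.dbl 55 38 39))))))))) .nd))))) (.rp 5 (.str 10 (.nv (.thr 18 30 (.thr 42 58 (.thr 2 62 (.thr 14 6 (.dbl 50 34 38))))) (.nv (.thr 30 18 (.thr 31 16 (.thr 28 29 (.thr 19 25 (.dbl 23 20 27))))) (.rp 30 (.thr 16 31 (.thr 20 23 (.thr 28 24 (.thr 19 25 (.thr 18 17 (.thr 42 58 (.thr 2 62 (.thr 14 6 (.dbl 50 34 38))))))))) (.rp 18 (.str 28 (.nv (.thr 31 16 (.thr 29 30 (.dbl 25 17 19))) (.nv (.thr 20 23 (.dbl 16 24 31)) (.rp 31 (.thr 20 23 (.thr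 24 16 (.dbl 25 19 27))) (.rp 16 (.thr 25 19 (.thr 17 29 (.thr 24 27 (.thr 42 58 (.thr 8 59 (.thr 11 9 (.dbl 56 40 41))))))) .nd))))) .nd))))) .nd))))))))))))))))

theorem w27 : WinAt (6291456, 32769) :=
  chF (K := []) kn c27 6291456 32769 15
    [33825] (by decide +kernel) (by decide +kernel)

/-- A certificate. -/
noncomputable def c28 : Ct := (.str 13 (.nv (.thr 49 25 (.thr 53 5 (.thr 61 57 (.thr 41 1 (.dbl 45 29 33))))) (.nv (.thr 5 53 (.thr 1 9 (.thr 49 25 (.thr 41 61 (.dbl 33 17 45))))) (.rp 61 (.thr 5 53 (.thr 49 25 (.thr 1 9 (.thr 33 17 (.thr 41 45 (.thr 42 47 (.thr 40 43 (.thr 44 36 (.dbl 35 34 38))))))))) (.rp 53 (.thr 25 49 (.thr 29 17 (.thr 61 45 (.thr 42 47 (.thr 62 2 (.thr 63 60 (.thr 46 12 (.thr 8 59 (.thr 30 14 (.dbl 28 19 31)))))))))) (.rp 49 (.thr 5 53 (.thr 1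 9 (.thr 61 41 (.thr 29 45 (.thr 25 17 (.thr 42 47 (.thr 62 2 (.thr 63 60 (.thr 46 12 (.thr 8 59 (.thr 30 14 (.dbl 28 19 31)))))))))))) (.rp 45 (.thr 53 5 (.thr 49 25 (.thr 61 57 (.thr 42 47 (.thr 62 2 (.thr 60 63 (.dbl 41 1 3))))))) (.rp 41 (.thr 5 53 (.thr 25 49 (.thr 9 1 (.thr 42 47 (.thr 2 62 (.thr 8 59 (.thr 10 11 (.thr 6 14 (.thr 38 54 (.dbl 12 3 51)))))))))) (.rp 33 (.thr 5 53 (.thr 25 49 (.thr 29 17 (.thr 1 9 (.dbl 61 41 45))))) (.rp 25 (.thr 5 53 (.thr 1 9 (.thr 41 61 (.thr 33 45 (.thr 35 34 (.thr 38 44 (.thr 39 36 (.dbl 47 42 43)))))))) (.rp 12 (.str 8 (.nv (.thr 42 47 (.dbl 25 49 59)) (.rp 59 (.thr 25 49 (.thr 29 17 (.thr 5 53 (.thr 1 9 (.dbl 61 41 45))))) (.rp 49 (.thr 5 53 (.thr 1 9 (.thr 61 41 (.thr 29 45 (.thr 25 17 (.dbl 42 47 59)))))) (.rp 47 (.thr 25 49 (.thr 29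 17 (.thr 5 53 (.thr 1 9 (.dbl 61 41 45))))) (.rp 42 (.thr 25 49 (.thr 29 17 (.thr 5 53 (.thr 1 9 (.dbl 61 41 45))))) (.rp 36 (.str 24 (.nv (.thr 42 47 (.dbl 25 49 59)) (.rp 59 (.thr 40 56 (.thr 5 53 (.thr 1 9 (.thr 41 61 (.dbl 42 43 47))))) (.rp 49 (.thr 40 56 (.thr 5 53 (.thr 1 9 (.thr 42 47 (.dbl 41 43 61))))) (.rp 47 (.thr 25 49 (.thr 29 17 (.thr 5 53 (.thr 1 9 (.dbl 61 41 45))))) (.rp 42 (.thr 25 49 (.thr 29 17 (.thr 5 53 (.thr 1 9 (.dbl 61 41 45))))) (.rp 25 (.thr 40 56 (.thr 5 53 (.thr 1 9 (.thr 41 61 (.dbl 42 43 47))))) .nd))))))) (.rp 25 (.thr 5 53 (.thr 1 9 (.thr 41 61 (.thr 33 45 (.thr 35 34 (.thr 38 44 (.thr 47 42 (.dbl 39 36 43)))))))) (.rp 24 (.str 36 (.nv (.thr 42 47 (.dbl 25 49 59)) (.rp 59 (.thr 40 44 (.thr 5 53 (.thr 1 9 (.thr 41 61 (.dbl 42 43 47))))) (.rp 49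 (.thr 40 44 (.thr 5 53 (.thr 1 9 (.thr 42 47 (.dbl 41 43 61))))) (.rp 47 (.thr 44 40 (.thr 5 53 (.thr 1 9 (.thr 41 61 (.dbl 38 35 39))))) (.rp 42 (.thr 44 40 (.thr 5 53 (.thr 1 9 (.thr 41 61 (.dbl 38 35 39))))) (.rp 25 (.thr 40 44 (.thr 5 53 (.thr 1 9 (.thr 41 61 (.dbl 42 43 47))))) .nd))))))) .nd))))))))) (.rp 8 (.str 12 (.nv (.thr 25 49 (.thr 28 19 (.thr 44 60 (.thr 36 40 (.dbl 38 39 51))))) (.nv (.thr 5 53 (.thr 9 1 (.thr 3 6 (.thr 15 14 (.dbl 7 11 52))))) (.rp 52 (.thr 5 53 (.thr 1 9 (.thr 61 41 (.thr 29 45 (.dbl 25 17 49))))) .nd)))) (.rp 5 (.thr 25 49 (.thr 29 17 (.thr 61 45 (.thr 42 47 (.thr 62 2 (.thr 60 63 (.dbl 41 1 3))))))) (.rp 1 (.thr 53 5 (.thr 49 25 (.thr 61 57 (.thr 45 29 (.thr 41 33 (.thr 47 42 (.thr 44 46 (.thr 38 35 (.dbl 36 39 40))))))))) .nd))))))))))))))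

theorem w28 : WinAt (141741260800, 281474985164817) :=
  chF (K := []) kn c28 141741260800 281474985164817 23
    [4369] (by decide +kernel) (by decide +kernel)

/-- A certificate. -/
noncomputable def c29 : Ct := (.thr 20 23 .ext)

theorem w29 : WinAt (141740212224, 281474976776209) :=
  chF (K := [(141741260800, 281474985164817)]) (kc w28 kn) c29 141740212224 281474976776209 4
    [4369] (by decide +kernel) (by decide +kernel)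

/-- A certificate. -/
noncomputable def c30 : Ct := (.str 32 (.nv (.thr 5 53 (.thr 7 52 (.thr 4 6 (.thr 23 20 (.dbl 55 38 39))))) (.nv (.thr 53 5 (.thr 52 7 (.thr 55 54 (.thr 4 38 (.dbl 20 23 36))))) (.rp 55 (.str 36 (.nv (.thr 52 7 (.dbl 20 4 23)) (.rp 52 (.thr 38 39 (.thr 44 40 (.thr 35 41 (.thr 34 33 (.dbl 42 46 47))))) (.rp 39 (.thr 53 5 (.thr 44 40 (.thr 47 42 (.thr 45 46 (.thr 41 33 (.thr 61 1 (.thr 13 29 (.dbl 49 25 57)))))))) (.rp 23 (.thr 44 40 (.thr 47 42 (.thr 45 46 (.thr 41 33 (.dbl 38 35 39))))) (.rp 20 (.thr 38 39 (.thr 42 47 (.thr 34 46 (.thr 35 33 (.dbl 44 40 41))))) (.rp 7 (.thr 44 40 (.thr 47 42 (.thr 45 46 (.thr 41 33 (.dbl 38 35 39))))) (.rp 4 (.thr 38 39 (.thr 44 40 (.thr 35 41 (.thr 34 33 (.dbl 42 46 47))))) .nd)))))))) (.rp 54 (.thr 5 53 (.thr 23 20 (.thr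 7 52 (.thr 55 39 (.dbl 4 6 38))))) (.rp 53 (.thr 52 7 (.thr 20 23 (.thr 36 4 (.thr 44 40 (.thr 47 42 (.thr 45 46 (.thr 41 33 (.dbl 38 35 39)))))))) (.rp 52 (.thr 20 23 (.str 41 (.nv (.thr 45 33 (.thr 53 5 (.thr 61 1 (.thr 49 57 (.dbl 13 25 29))))) (.nv (.thr 33 45 (.thr 35 34 (.thr 38 44 (.thr 47 42 (.dbl 39 36 43))))) (.rp 60 (.str 56 (.nv (.thr 11 26 (.thr 42 47 (.thr 40 43 (.thr 8 24 (.thr 9 10 (.dbl 25 57 59)))))) (.nv (.thr 1 61 (.thr 5 53 (.thr 13 9 (.thr 33 45 (.dbl 49 17 25))))) (.nv (.thr 45 33 (.thr 47 42 (.thr 44 46 (.thr 38 35 (.dbl 36 39 40))))) .nd)))) (.rp 56 (.thr 60 3 (.thr 5 53 (.thr 33 45 (.thr 1 61 (.thr 49 17 (.dbl 13 9 25)))))) (.rp 45 (.thr 5 53 (.thr 1 61 (.thr 13 9 (.thr 49 25 (.thr 33 17 (.thr 42 47 (.thr 40 43 (.thr 44 36 (.dbl 35 34 38))))))))) (.rp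 33 (.thr 53 5 (.thr 61 1 (.thr 49 57 (.thr 13 25 (.thr 45 29 (.thr 47 42 (.thr 44 46 (.thr 36 40 (.dbl 38 35 39))))))))) .nd)))))))) (.rp 38 (.thr 5 53 (.thr 52 7 (.thr 20 23 (.thr 36 4 (.thr 40 44 (.thr 42 47 (.thr 41 43 (.thr 1 61 (.thr 13 9 (.thr 49 25 (.dbl 33 17 45))))))))))) (.rp 23 (.thr 53 5 (.thr 52 7 (.thr 55 54 (.thr 4 38 (.thr 36 20 (.thr 40 44 (.thr 42 47 (.thr 41 43 (.thr 45 33 (.thr 61 1 (.thr 13 29 (.dbl 49 25 57)))))))))))) (.rp 20 (.str 60 (.nv (.thr 41 3 (.thr 33 45 (.thr 35 34 (.thr 38 44 (.thr 39 36 (.dbl 47 42 43)))))) (.nv (.thr 41 3 (.thr 1 61 (.thr 33 45 (.thr 49 17 (.thr 13 25 (.dbl 5 9 53)))))) (.nv (.thr 42 47 (.thr 62 2 (.thr 61 63 (.dbl 41 1 3)))) (.rp 41 (.thr 52 7 (.thr 53 5 (.thr 54 55 (.thr 42 47 (.thr 62 2 (.thr 61 63 (.dbl 57 49 51))))))) (.rp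 28 (.str 24 (.nv (.thr 41 3 (.thr 33 45 (.thr 35 34 (.thr 38 44 (.thr 39 36 (.dbl 47 42 43)))))) (.nv (.thr 41 3 (.thr 1 61 (.thr 33 45 (.thr 49 17 (.thr 13 25 (.dbl 5 9 53)))))) (.nv (.thr 42 47 (.thr 62 2 (.thr 61 63 (.dbl 41 1 3)))) (.rp 41 (.thr 53 5 (.thr 52 7 (.thr 54 55 (.thr 57 51 (.thr 42 47 (.thr 62 2 (.dbl 61 49 63))))))) (.rp 3 (.thr 53 5 (.thr 52 7 (.thr 54 55 (.thr 57 51 (.thr 49 61 (.thr 25 13 (.thr 26 27 (.thr 42 47 (.thr 59 8 (.dbl 58 10 56)))))))))) (.rp 1 (.thr 42 47 (.thr 2 62 (.thr 41 3 (.thr 33 45 (.thr 35 34 (.thr 44 38 (.dbl 40 36 43))))))) .nd))))))) (.rp 24 (.str 28 (.nv (.thr 42 47 (.thr 62 2 (.thr 61 63 (.dbl 41 1 3)))) (.nv (.thr 44 12 (.thr 36 40 (.thr 38 39 (.dbl 41 3 35)))) (.rp 41 (.thr 7 52 (.thr 5 53 (.thr 4 6 (.thr 44 12 (.thr 36 40 (.dbl 38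 39 55)))))) (.rp 36 (.thr 12 44 (.thr 5 53 (.thr 3 41 (.thr 6 9 (.dbl 7 4 52))))) (.rp 12 (.str 36 (.nv (.thr 40 44 (.thr 41 3 (.dbl 42 43 47))) (.nv (.thr 5 53 (.thr 7 52 (.thr 38 39 (.dbl 4 6 55)))) (.nv (.thr 38 39 (.thr 44 40 (.dbl 41 3 35))) (.rp 8 (.str 4 (.nv (.thr 40 44 (.thr 5 53 (.dbl 7 6 52))) (.nv (.dbl 38 39 55) (.rp 40 (.str 56 (.nv (.thr 5 53 (.dbl 7 6 52)) (.nv (.dbl 38 39 55) .nd))) .nd)))) (.rp 4 (.str 8 (.nv (.thr 38 39 (.thr 41 3 (.dbl 44 35 40))) (.nv (.thr 42 47 (.dbl 25 19 59)) .nd))) .nd)))))) (.rp 3 (.thr 7 52 (.thr 5 53 (.thr 4 6 (.thr 12 44 (.thr 25 19 (.dbl 38 51 55)))))) .nd))))))) (.rp 3 (.thr 52 7 (.thr 53 5 (.thr 54 55 (.thr 42 47 (.thr 57 51 (.thr 49 61 (.thr 25 13 (.thr 59 8 (.thr 58 56 (.dbl 62 2 50)))))))))) (.rp 1 (.thr 42 47 (.thr 2 62 (.thr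 41 3 (.thr 33 45 (.thr 35 34 (.thr 44 38 (.dbl 40 36 43))))))) .nd))))))))) (.rp 7 (.str 36 (.nv (.thr 44 40 (.thr 47 42 (.thr 45 46 (.thr 41 33 (.dbl 38 35 39))))) (.nv (.thr 38 39 (.thr 42 47 (.thr 34 46 (.thr 35 33 (.dbl 44 40 41))))) (.nv (.thr 20 23 (.thr 4 52 (.dbl 38 39 55))) (.rp 39 (.thr 53 5 (.thr 44 40 (.thr 47 42 (.thr 45 46 (.thr 41 33 (.thr 61 1 (.thr 13 29 (.dbl 49 25 57)))))))) (.rp 38 (.thr 53 5 (.thr 40 44 (.thr 42 47 (.thr 41 43 (.thr 45 33 (.thr 61 1 (.thr 13 29 (.dbl 49 25 57)))))))) .nd)))))) (.rp 6 (.thr 53 5 (.thr 20 23 (.thr 52 7 (.thr 4 36 (.dbl 55 38 54))))) (.rp 5 (.thr 7 52 (.thr 23 20 (.thr 39 55 (.thr 47 42 (.thr 35 43 (.thr 33 34 (.thr 41 45 (.dbl 38 36 44)))))))) (.rp 4 .ext .nd))))))))))))))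

theorem w30 : WinAt (137445244928, 281474976776193) :=
  chF (K := [(141740212224, 281474976776209)]) (kc w29 kn) c30 137445244928 281474976776193 48
    [] (by decide +kernel) (by decide +kernel)

/-- A certificate. -/
noncomputable def c31 : Ct := (.str 37 (.nv (.thr 20 23 (.thr 52 7 (.thr 4 36 (.thr 55 38 (.dbl 53 5 54))))) (.rp 55 (.str 48 (.nv (.thr 7 52 (.thr 15 26 (.thr 3 11 (.thr 53 5 (.thr 63 58 (.dbl 23 20 43)))))) (.nv (.thr 23 20 (.thr 53 5 (.thr 63 58 (.thr 3 43 (.thr 33 18 (.dbl 41 45 60)))))) (.nv (.thr 52 7 (.thr 60 56 (.thr 3 41 (.thr 18 33 (.dbl 26 15 30))))) (.rp 41 (.thr 53 5 (.thr 7 52 (.thr 23 20 (.thr 63 58 (.thr 3 43 (.dbl 15 11 26)))))) (.rp 23 (.thr 7 52 (.thr 15 26 (.thr 3 11 (.thr 33 18 (.dbl 41 45 60))))) (.rp 15 (.thr 52 7 (.thr 23 20 (.thr 60 56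 (.thr 3 41 (.thr 63 43 (.dbl 53 5 58)))))) (.rp 3 (.thr 53 5 (.thr 52 7 (.thr 60 56 (.thr 63 58 (.thr 61 62 (.thr 15 26 (.thr 45 30 (.dbl 41 1 33)))))))) .nd)))))))) (.rp 54 (.thr 23 20 (.thr 5 53 (.thr 7 52 (.thr 55 39 (.dbl 4 6 38))))) (.rp 53 (.thr 20 23 (.str 48 (.nv (.thr 15 26 (.thr 52 7 (.thr 36 4 (.thr 12 24 (.thr 13 14 (.thr 25 49 (.dbl 38 39 51))))))) (.nv (.thr 7 52 (.thr 15 26 (.thr 3 11 (.thr 41 60 (.dbl 33 18 45))))) (.rp 55 (.thr 26 15 (.thr 18 30 (.thr 3 33 (.thr 60 41 (.dbl 52 7 56))))) (.rp 52 (.str 38 (.nv (.thr 6 54 (.thr 55 4 (.thr 36 39 (.thr 12 24 (.thr 3 9 (.thr 33 18 (.dbl 41 45 60))))))) (.nv (.thr 26 15 (.thr 14 50 (.thr 30 18 (.thr 62 46 (.thr 2 42 (.dbl 6 10 54)))))) (.nv (.thr 36 39 (.thr 12 24 (.thr 15 26 (.thr 13 14 (.dbl 25 49 51))))) (.rp 55 (.thr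 54 6 (.thr 39 36 (.thr 15 26 (.thr 51 27 (.thr 49 50 (.dbl 25 12 13)))))) (.rp 54 (.thr 55 4 (.thr 36 39 (.thr 12 24 (.thr 51 25 (.thr 50 49 (.dbl 26 14 15)))))) .nd)))))) (.rp 26 (.thr 52 7 (.thr 36 4 (.thr 60 56 (.thr 41 3 (.thr 12 24 (.thr 44 28 (.dbl 38 35 39))))))) (.rp 15 (.thr 52 7 (.thr 36 4 (.thr 60 56 (.thr 3 41 (.thr 12 24 (.thr 6 9 (.dbl 38 39 54))))))) (.rp 7 (.thr 26 15 (.thr 18 30 (.thr 3 33 (.thr 60 41 (.thr 52 56 (.thr 36 4 (.thr 12 24 (.thr 6 9 (.dbl 38 39 54))))))))) .nd))))))))) (.rp 52 (.thr 20 23 (.str 41 (.nv (.thr 45 33 (.thr 53 5 (.thr 60 3 (.thr 15 30 (.thr 48 26 (.thr 63 58 (.dbl 61 1 62))))))) (.nv (.thr 33 45 (.thr 5 53 (.thr 1 61 (.thr 13 9 (.dbl 49 17 25))))) (.rp 61 (.thr 5 53 (.thr 33 45 (.thr 3 60 (.thr 48 18 (.thr 15 26 (.thr 7 11 (.thr 6 4 (.thr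 12 9 (.thr 36 24 (.dbl 38 39 54)))))))))) (.rp 53 (.thr 33 45 (.thr 1 61 (.thr 49 17 (.thr 13 25 (.thr 9 5 (.thr 3 60 (.thr 12 6 (.thr 15 14 (.dbl 48 18 26))))))))) (.rp 48 (.str 32 (.nv (.thr 45 33 (.thr 53 5 (.thr 61 1 (.thr 49 57 (.dbl 13 25 29))))) (.nv (.thr 33 45 (.thr 35 34 (.thr 38 44 (.thr 47 42 (.dbl 39 36 43))))) (.rp 60 (.str 56 (.nv (.thr 11 26 (.thr 42 47 (.thr 40 43 (.thr 8 24 (.thr 9 10 (.dbl 25 57 59)))))) (.nv (.thr 1 61 (.thr 5 53 (.thr 13 9 (.thr 33 45 (.dbl 49 17 25))))) (.nv (.thr 45 33 (.thr 47 42 (.thr 44 46 (.thr 38 35 (.dbl 36 39 40))))) .nd)))) (.rp 56 (.thr 60 3 (.thr 5 53 (.thr 33 45 (.thr 1 61 (.thr 49 17 (.dbl 13 9 25)))))) (.rp 45 (.thr 5 53 (.thr 1 61 (.thr 13 9 (.thr 49 25 (.thr 33 17 (.thr 42 47 (.thr 40 43 (.thr 44 36 (.dbl 35 34 38)))))))))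 (.rp 33 (.thr 53 5 (.thr 61 1 (.thr 49 57 (.thr 13 25 (.thr 45 29 (.thr 47 42 (.thr 44 46 (.thr 36 40 (.dbl 38 35 39))))))))) .nd))))))) (.rp 45 (.str 32 (.nv (.thr 42 47 (.thr 40 43 (.thr 44 36 (.thr 35 38 (.thr 33 34 (.thr 5 53 (.thr 1 61 (.thr 13 9 (.dbl 49 17 25))))))))) (.rp 63 (.thr 53 5 (.thr 61 1 (.thr 57 49 (.thr 9 25 (.thr 3 60 (.thr 6 12 (.thr 38 54 (.thr 44 35 (.dbl 36 39 40))))))))) (.rp 61 (.thr 3 60 (.thr 42 47 (.thr 40 43 (.thr 44 36 (.thr 35 38 (.thr 19 51 (.thr 25 28 (.thr 8 59 (.thr 56 24 (.thr 11 26 (.dbl 9 10 57))))))))))) (.rp 57 (.thr 53 5 (.thr 3 60 (.thr 42 47 (.thr 40 43 (.thr 44 36 (.thr 35 38 (.thr 33 34 (.thr 48 18 (.thr 58 63 (.dbl 26 10 15)))))))))) (.rp 55 (.thr 53 5 (.thr 61 1 (.thr 57 49 (.thr 9 25 (.thr 3 60 (.thr 6 12 (.thr 38 54 (.thr 44 35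 (.dbl 36 39 40))))))))) (.rp 54 (.thr 53 5 (.thr 61 1 (.thr 57 49 (.thr 3 60 (.thr 42 47 (.thr 40 43 (.thr 44 36 (.thr 35 38 (.thr 19 51 (.dbl 25 9 28)))))))))) (.rp 53 (.thr 1 61 (.thr 3 60 (.thr 42 47 (.thr 40 43 (.thr 44 36 (.thr 35 38 (.thr 19 51 (.thr 25 28 (.thr 33 34 (.dbl 17 29 49)))))))))) (.rp 51 (.thr 53 5 (.thr 61 1 (.thr 57 49 (.thr 9 25 (.thr 3 60 (.thr 6 12 (.thr 38 54 (.thr 44 35 (.dbl 36 39 40))))))))) (.rp 49 (.thr 53 5 (.thr 3 60 (.thr 42 47 (.thr 40 43 (.thr 44 36 (.thr 35 38 (.thr 33 34 (.thr 48 18 (.thr 58 63 (.dbl 26 10 15)))))))))) (.rp 47 (.thr 53 5 (.thr 61 1 (.thr 57 49 (.thr 9 25 (.thr 3 60 (.thr 6 12 (.thr 38 54 (.thr 44 35 (.dbl 36 39 40))))))))) (.rp 46 (.thr 53 5 (.thr 61 1 (.thr 57 49 (.thr 9 25 (.thr 3 60 (.thr 6 12 (.thr 38 54 (.thr 44 35 (.dbl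 36 39 40))))))))) (.rp 44 (.thr 5 53 (.thr 1 61 (.thr 13 9 (.thr 49 25 (.thr 33 17 (.thr 34 35 (.thr 42 47 (.thr 46 38 (.thr 2 62 (.thr 18 50 (.dbl 3 48 60))))))))))) (.rp 43 (.thr 53 5 (.thr 61 1 (.thr 57 49 (.thr 9 25 (.thr 3 60 (.thr 6 12 (.thr 38 54 (.thr 44 35 (.dbl 36 39 40))))))))) (.rp 42 (.thr 53 5 (.thr 61 1 (.thr 57 49 (.thr 9 25 (.thr 3 60 (.thr 6 12 (.thr 38 54 (.thr 44 35 (.dbl 36 39 40))))))))) (.rp 40 (.thr 5 53 (.thr 1 61 (.thr 13 9 (.thr 49 25 (.thr 33 17 (.thr 34 35 (.thr 42 47 (.thr 2 62 (.thr 18 50 (.dbl 3 48 60)))))))))) (.rp 39 (.thr 53 5 (.thr 61 1 (.thr 57 49 (.thr 9 25 (.thr 3 60 (.thr 6 12 (.thr 38 54 (.thr 44 35 (.thr 40 36 (.dbl 42 43 47)))))))))) (.rp 38 (.thr 5 53 (.thr 1 61 (.thr 13 9 (.thr 49 25 (.thr 33 17 (.thr 34 35 (.thr 42 47 (.thr 2 62 (.thr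 18 50 (.dbl 3 48 60)))))))))) (.rp 36 (.thr 5 53 (.thr 1 61 (.thr 13 9 (.thr 49 25 (.thr 33 17 (.thr 34 35 (.thr 42 47 (.thr 2 62 (.thr 18 50 (.dbl 3 48 60)))))))))) (.rp 35 (.thr 53 5 (.thr 61 1 (.thr 57 49 (.thr 9 25 (.thr 3 60 (.thr 6 12 (.thr 42 47 (.thr 2 62 (.thr 10 14 (.thr 26 58 (.dbl 11 8 56))))))))))) (.rp 34 (.thr 53 5 (.thr 61 1 (.thr 57 49 (.thr 9 25 (.thr 3 60 (.thr 6 12 (.thr 38 54 (.thr 44 35 (.dbl 36 39 40))))))))) (.rp 33 (.thr 5 53 (.thr 1 61 (.thr 13 9 (.thr 3 60 (.thr 42 47 (.thr 40 43 (.thr 44 36 (.thr 35 38 (.thr 19 51 (.dbl 25 28 49)))))))))) (.rp 25 (.thr 53 5 (.thr 61 1 (.thr 57 49 (.thr 42 47 (.thr 2 62 (.thr 60 3 (.thr 54 51 (.thr 38 6 (.thr 36 39 (.dbl 40 43 44)))))))))) (.rp 17 (.thr 5 53 (.thr 1 61 (.thr 13 9 (.thr 3 60 (.thr 42 47 (.thr 40 43 (.thr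 44 36 (.thr 35 38 (.thr 34 33 (.thr 19 51 (.dbl 25 28 49))))))))))) (.rp 13 (.thr 53 5 (.thr 3 60 (.thr 42 47 (.thr 40 43 (.thr 44 36 (.thr 35 38 (.thr 33 34 (.thr 48 18 (.thr 58 63 (.dbl 26 10 15)))))))))) (.rp 9 (.thr 53 5 (.thr 3 60 (.thr 42 47 (.thr 40 43 (.thr 44 36 (.thr 35 38 (.thr 33 34 (.thr 48 18 (.thr 58 63 (.dbl 26 10 15)))))))))) (.rp 5 (.thr 1 61 (.thr 3 60 (.thr 42 47 (.thr 40 43 (.thr 44 36 (.thr 35 38 (.thr 33 34 (.thr 17 49 (.thr 19 51 (.dbl 25 28 29)))))))))) (.rp 3 (.thr 5 53 (.thr 1 61 (.thr 13 9 (.thr 49 25 (.thr 33 17 (.thr 34 35 (.thr 42 47 (.thr 2 62 (.thr 18 50 (.thr 26 30 (.thr 15 48 (.thr 14 12 (.thr 6 10 (.dbl 38 46 54)))))))))))))) (.rp 1 (.thr 53 5 (.thr 3 60 (.thr 42 47 (.thr 40 43 (.thr 44 36 (.thr 35 38 (.thr 33 34 (.thr 48 18 (.thr 58 63 (.dbl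 26 10 15)))))))))) .nd))))))))))))))))))))))))))))) (.rp 33 (.thr 5 53 (.thr 1 61 (.thr 9 13 (.thr 3 60 (.thr 6 12 (.thr 4 7 (.dbl 38 54 55))))))) (.rp 32 (.str 48 (.nv (.thr 53 5 (.thr 60 3 (.thr 63 58 (.dbl 61 1 62)))) (.nv (.thr 33 45 (.dbl 3 18 60)) (.rp 60 (.thr 33 45 (.thr 18 3 (.dbl 26 15 30))) (.rp 3 (.thr 5 53 (.thr 33 45 (.thr 1 61 (.thr 49 17 (.dbl 13 9 25))))) .nd))))) (.rp 5 (.thr 60 3 (.thr 1 61 (.thr 45 33 (.thr 15 30 (.thr 48 26 (.str 47 (.nv (.thr 42 32 (.thr 43 40 (.thr 35 39 (.dbl 44 38 46)))) (.nv (.thr 44 46 (.thr 12 28 (.thr 36 24 (.dbl 38 35 39)))) (.nv (.thr 44 46 (.thr 12 28 (.thr 36 24 (.dbl 32 40 42)))) (.nv (.thr 44 46 (.thr 35 38 (.thr 42 32 (.dbl 43 39 40)))) (.rp 63 (.str 43 (.nv (.thr 35 39 (.dbl 44 38 46)) (.nv (.dbl 42 32 40) .nd))) (.rp 46 (.thr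 63 31 (.thr 58 53 (.thr 42 32 (.thr 43 40 (.thr 35 39 (.thr 62 2 (.thr 54 50 (.dbl 38 6 44)))))))) (.rp 44 (.thr 63 31 (.thr 58 53 (.thr 42 32 (.thr 62 2 (.thr 54 50 (.thr 57 51 (.thr 25 9 (.dbl 59 8 56)))))))) (.rp 43 (.thr 63 31 (.thr 44 46 (.thr 38 35 (.thr 36 39 (.dbl 12 24 28))))) .nd)))))))))))))) (.rp 1 (.thr 5 53 (.thr 33 45 (.thr 3 60 (.thr 48 18 (.thr 15 26 (.thr 7 11 (.thr 6 4 (.thr 12 9 (.thr 36 24 (.dbl 38 39 54)))))))))) .nd)))))))))))) (.rp 48 .ext (.rp 39 (.thr 20 23 (.thr 53 5 (.thr 52 7 (.thr 55 54 (.dbl 4 36 38))))) (.rp 38 (.str 48 (.nv (.thr 7 52 (.thr 15 26 (.thr 3 11 (.thr 53 5 (.thr 63 58 (.dbl 23 20 43)))))) (.nv (.thr 23 20 (.thr 53 5 (.thr 63 58 (.thr 3 43 (.thr 33 18 (.dbl 41 45 60)))))) (.nv (.thr 52 7 (.thr 60 56 (.thr 3 41 (.thr 18 33 (.dbl 26 15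 30))))) (.rp 41 (.thr 53 5 (.thr 7 52 (.thr 23 20 (.thr 63 58 (.thr 3 43 (.dbl 15 11 26)))))) (.rp 15 (.thr 52 7 (.thr 23 20 (.thr 60 56 (.thr 3 41 (.thr 63 43 (.dbl 53 5 58)))))) (.rp 3 (.thr 53 5 (.thr 52 7 (.thr 54 55 (.thr 60 56 (.thr 51 57 (.thr 50 49 (.dbl 58 62 63))))))) .nd))))))) (.rp 36 (.thr 23 20 (.thr 5 53 (.thr 7 52 (.thr 4 6 (.dbl 55 38 39))))) (.rp 32 (.str 48 (.nv (.thr 7 52 (.thr 15 26 (.thr 3 11 (.thr 33 18 (.dbl 41 45 60))))) (.nv (.thr 5 53 (.thr 7 52 (.thr 4 6 (.thr 55 38 (.dbl 23 20 39))))) (.rp 52 (.thr 53 5 (.thr 23 20 (.thr 63 58 (.thr 3 43 (.thr 33 18 (.dbl 41 45 60)))))) (.rp 7 (.thr 53 5 (.thr 23 20 (.thr 63 58 (.thr 3 43 (.thr 33 18 (.dbl 41 45 60)))))) .nd))))) (.rp 23 (.thr 53 5 (.str 48 (.nv (.thr 52 7 (.thr 60 56 (.thr 63 58 (.thr 61 62 (.thr 57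 49 (.dbl 54 51 55)))))) (.nv (.thr 15 26 (.thr 7 52 (.thr 3 11 (.thr 41 60 (.dbl 33 18 45))))) (.rp 60 (.thr 52 7 (.thr 55 54 (.thr 63 58 (.thr 51 59 (.thr 15 26 (.thr 39 27 (.dbl 38 4 36))))))) (.rp 52 (.thr 63 58 (.thr 15 26 (.thr 47 31 (.thr 42 32 (.thr 62 2 (.thr 60 61 (.thr 45 30 (.dbl 41 3 33)))))))) (.rp 15 (.str 10 (.nv (.thr 52 7 (.thr 60 56 (.thr 63 58 (.thr 61 62 (.dbl 41 1 3))))) (.nv (.thr 58 63 (.thr 42 26 (.thr 62 2 (.thr 54 50 (.dbl 52 7 55))))) (.nv (.thr 52 7 (.thr 60 56 (.thr 3 41 (.thr 18 33 (.thr 26 30 (.dbl 58 42 63)))))) (.rp 63 (.thr 52 7 (.thr 60 56 (.thr 3 41 (.thr 18 33 (.thr 26 30 (.thr 42 58 (.thr 2 62 (.thr 50 34 (.dbl 14 6 38))))))))) (.rp 58 (.thr 52 7 (.thr 55 54 (.thr 4 38 (.thr 36 20 (.thr 60 56 (.thr 12 24 (.thr 28 44 (.thr 25 19 (.thr 49 13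 (.thr 57 61 (.dbl 41 3 9))))))))))) (.rp 55 (.thr 58 63 (.thr 26 42 (.thr 18 30 (.thr 3 33 (.thr 60 41 (.dbl 52 7 56)))))) (.rp 52 (.thr 58 63 (.thr 42 26 (.thr 62 2 (.thr 50 54 (.thr 49 51 (.thr 25 13 (.thr 59 8 (.dbl 57 56 61)))))))) (.rp 7 (.thr 58 63 (.thr 42 26 (.thr 62 2 (.thr 54 50 (.thr 55 52 (.dbl 38 4 6)))))) (.rp 3 (.thr 7 52 (.thr 63 58 (.str 2 (.nv (.thr 6 14 (.thr 38 54 (.thr 36 39 (.thr 12 24 (.thr 46 29 (.dbl 42 34 62)))))) (.nv (.thr 6 14 (.thr 38 54 (.thr 55 4 (.thr 36 39 (.thr 51 59 (.dbl 12 24 25)))))) (.nv (.thr 62 42 (.thr 61 60 (.thr 41 1 (.thr 45 33 (.thr 13 29 (.dbl 49 25 57)))))) (.rp 62 (.str 50 (.nv (.thr 6 14 (.thr 38 54 (.thr 51 49 (.dbl 55 4 59)))) (.nv (.thr 49 51 (.thr 61 57 (.thr 1 41 (.thr 17 33 (.dbl 25 13 29))))) (.nv (.thr 14 6 (.thr 26 38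 (.dbl 18 30 34))) .nd)))) (.rp 13 (.thr 62 42 (.thr 14 6 (.thr 30 46 (.thr 18 26 (.thr 61 60 (.thr 49 57 (.dbl 50 34 51))))))) .nd)))))))) .nd)))))))))) (.rp 7 (.thr 63 58 (.thr 15 26 (.thr 47 31 (.thr 42 32 (.thr 62 2 (.thr 60 61 (.thr 45 30 (.dbl 41 3 33)))))))) .nd)))))))) (.rp 20 (.str 60 (.nv (.thr 41 3 (.thr 52 7 (.thr 48 56 (.thr 53 5 (.thr 63 58 (.dbl 61 1 62)))))) (.nv (.thr 5 53 (.thr 41 3 (.thr 1 61 (.thr 13 9 (.thr 33 45 (.dbl 49 17 25)))))) (.nv (.thr 52 7 (.thr 48 56 (.thr 15 26 (.thr 45 30 (.dbl 41 3 33))))) (.rp 48 (.str 32 (.nv (.thr 41 3 (.thr 33 45 (.thr 35 34 (.thr 38 44 (.thr 39 36 (.dbl 47 42 43)))))) (.nv (.thr 41 3 (.thr 1 61 (.thr 33 45 (.thr 49 17 (.thr 13 25 (.dbl 5 9 53)))))) (.nv (.thr 42 47 (.thr 62 2 (.thr 61 63 (.dbl 41 1 3)))) (.rp 41 (.thr 52 7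 (.thr 53 5 (.thr 54 55 (.thr 42 47 (.thr 62 2 (.thr 61 63 (.dbl 57 49 51))))))) (.rp 28 (.str 24 (.nv (.thr 41 3 (.thr 33 45 (.thr 35 34 (.thr 38 44 (.thr 39 36 (.dbl 47 42 43)))))) (.nv (.thr 41 3 (.thr 1 61 (.thr 33 45 (.thr 49 17 (.thr 13 25 (.dbl 5 9 53)))))) (.nv (.thr 42 47 (.thr 62 2 (.thr 61 63 (.dbl 41 1 3)))) (.rp 41 (.thr 53 5 (.thr 52 7 (.thr 54 55 (.thr 57 51 (.thr 42 47 (.thr 62 2 (.dbl 61 49 63))))))) (.rp 3 (.thr 53 5 (.thr 52 7 (.thr 54 55 (.thr 57 51 (.thr 49 61 (.thr 25 13 (.thr 26 27 (.thr 42 47 (.thr 59 8 (.dbl 58 10 56)))))))))) (.rp 1 (.thr 42 47 (.thr 2 62 (.thr 41 3 (.thr 33 45 (.thr 35 34 (.thr 44 38 (.dbl 40 36 43))))))) .nd))))))) (.rp 24 (.str 28 (.nv (.thr 42 47 (.thr 62 2 (.thr 61 63 (.dbl 41 1 3)))) (.nv (.thr 44 12 (.thr 36 40 (.thr 38 39 (.dbl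 41 3 35)))) (.rp 41 (.thr 7 52 (.thr 5 53 (.thr 4 6 (.thr 44 12 (.thr 36 40 (.dbl 38 39 55)))))) (.rp 36 (.thr 12 44 (.thr 5 53 (.thr 3 41 (.thr 6 9 (.dbl 7 4 52))))) (.rp 12 (.str 36 (.nv (.thr 40 44 (.thr 41 3 (.dbl 42 43 47))) (.nv (.thr 5 53 (.thr 7 52 (.thr 38 39 (.dbl 4 6 55)))) (.nv (.thr 38 39 (.thr 44 40 (.dbl 41 3 35))) (.rp 8 (.str 4 (.nv (.thr 40 44 (.thr 5 53 (.dbl 7 6 52))) (.nv (.dbl 38 39 55) (.rp 40 (.str 56 (.nv (.thr 5 53 (.dbl 7 6 52)) (.nv (.dbl 38 39 55) .nd))) .nd)))) (.rp 4 (.str 8 (.nv (.thr 38 39 (.thr 41 3 (.dbl 44 35 40))) (.nv (.thr 42 47 (.dbl 25 19 59)) .nd))) .nd)))))) (.rp 3 (.thr 7 52 (.thr 5 53 (.thr 4 6 (.thr 12 44 (.thr 25 19 (.dbl 38 51 55)))))) .nd))))))) (.rp 3 (.thr 52 7 (.thr 53 5 (.thr 54 55 (.thr 42 47 (.thr 57 51 (.thr 49 61 (.thr 25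 13 (.thr 59 8 (.thr 58 56 (.dbl 62 2 50)))))))))) (.rp 1 (.thr 42 47 (.thr 2 62 (.thr 41 3 (.thr 33 45 (.thr 35 34 (.thr 44 38 (.dbl 40 36 43))))))) .nd))))))))) (.rp 41 (.thr 52 7 (.thr 53 5 (.thr 54 55 (.thr 48 56 (.thr 63 58 (.thr 61 62 (.dbl 57 49 51))))))) (.rp 32 (.str 48 (.nv (.thr 3 41 (.thr 18 33 (.dbl 26 15 30))) (.nv (.dbl 52 7 56) (.rp 28 (.str 24 (.nv (.thr 3 41 (.thr 18 33 (.dbl 26 15 30))) (.nv (.dbl 52 7 56) .nd))) (.rp 24 (.str 28 (.nv (.thr 3 41 (.thr 18 33 (.dbl 26 15 30))) (.nv (.dbl 52 7 56) .nd))) .nd))))) (.rp 28 (.str 24 (.nv (.thr 52 7 (.thr 48 56 (.thr 36 12 (.thr 38 39 (.thr 53 5 (.dbl 54 6 55)))))) (.nv (.thr 5 53 (.thr 41 3 (.thr 1 61 (.thr 13 9 (.thr 33 45 (.dbl 49 17 25)))))) (.nv (.thr 3 41 (.thr 52 7 (.thr 48 56 (.thr 18 33 (.dbl 26 15 30))))) (.rp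 48 (.str 32 (.nv (.thr 41 3 (.thr 33 45 (.thr 35 34 (.thr 38 44 (.thr 39 36 (.dbl 47 42 43)))))) (.nv (.thr 41 3 (.thr 1 61 (.thr 33 45 (.thr 49 17 (.thr 13 25 (.dbl 5 9 53)))))) (.nv (.thr 42 47 (.thr 62 2 (.thr 61 63 (.dbl 41 1 3)))) (.rp 41 (.thr 53 5 (.thr 52 7 (.thr 54 55 (.thr 57 51 (.thr 42 47 (.thr 62 2 (.dbl 61 49 63))))))) (.rp 3 (.thr 53 5 (.thr 52 7 (.thr 54 55 (.thr 57 51 (.thr 49 61 (.thr 25 13 (.thr 26 27 (.thr 42 47 (.thr 59 8 (.dbl 58 10 56)))))))))) (.rp 1 (.thr 42 47 (.thr 2 62 (.thr 41 3 (.thr 33 45 (.thr 35 34 (.thr 44 38 (.dbl 40 36 43))))))) .nd))))))) (.rp 32 (.str 48 (.nv (.thr 3 41 (.thr 18 33 (.dbl 26 15 30))) (.nv (.dbl 52 7 56) .nd))) .nd)))))) (.rp 24 (.str 28 (.nv (.thr 3 41 (.thr 5 53 (.thr 7 52 (.thr 12 44 (.dbl 6 4 9))))) (.nv (.thr 25 19 (.thr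 17 29 (.thr 49 13 (.thr 1 33 (.dbl 41 3 61))))) (.rp 48 (.str 32 (.nv (.thr 42 47 (.thr 62 2 (.thr 61 63 (.dbl 41 1 3)))) (.nv (.thr 44 12 (.thr 36 40 (.thr 38 39 (.dbl 41 3 35)))) (.rp 41 (.thr 7 52 (.thr 5 53 (.thr 4 6 (.thr 44 12 (.thr 36 40 (.dbl 38 39 55)))))) (.rp 36 (.thr 12 44 (.thr 5 53 (.thr 3 41 (.thr 6 9 (.dbl 7 4 52))))) (.rp 12 (.str 36 (.nv (.thr 40 44 (.thr 41 3 (.dbl 42 43 47))) (.nv (.thr 5 53 (.thr 7 52 (.thr 38 39 (.dbl 4 6 55)))) (.nv (.thr 38 39 (.thr 44 40 (.dbl 41 3 35))) (.rp 8 (.str 4 (.nv (.thr 40 44 (.thr 5 53 (.dbl 7 6 52))) (.nv (.dbl 38 39 55) (.rp 40 (.str 56 (.nv (.thr 5 53 (.dbl 7 6 52)) (.nv (.dbl 38 39 55) .nd))) .nd)))) (.rp 4 (.str 8 (.nv (.thr 38 39 (.thr 41 3 (.dbl 44 35 40))) (.nv (.thr 42 47 (.dbl 25 19 59)) .nd))) .nd)))))) (.rp 3 (.thr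 7 52 (.thr 5 53 (.thr 4 6 (.thr 12 44 (.thr 25 19 (.dbl 38 51 55)))))) .nd))))))) (.rp 41 (.thr 52 7 (.thr 53 5 (.thr 54 55 (.thr 12 44 (.thr 25 19 (.dbl 38 6 51)))))) (.rp 32 (.str 48 (.nv (.thr 3 41 (.thr 18 33 (.dbl 26 15 30))) (.nv (.dbl 52 7 56) .nd))) (.rp 3 (.thr 52 7 (.thr 53 5 (.thr 54 55 (.thr 12 44 (.thr 25 19 (.dbl 38 6 51)))))) .nd))))))) (.rp 3 (.thr 52 7 (.thr 53 5 (.thr 54 55 (.thr 48 56 (.thr 63 58 (.thr 61 62 (.dbl 57 49 51))))))) .nd)))))))))) (.rp 7 (.str 48 (.nv (.thr 23 20 (.thr 53 5 (.thr 63 58 (.thr 3 43 (.thr 33 18 (.dbl 41 45 60)))))) (.nv (.thr 23 20 (.thr 26 15 (.thr 18 30 (.thr 3 33 (.thr 63 43 (.dbl 53 5 58)))))) (.nv (.thr 53 5 (.thr 23 20 (.thr 63 58 (.thr 3 43 (.thr 18 33 (.dbl 26 15 30)))))) (.rp 63 (.thr 20 23 (.thr 26 15 (.thr 18 30 (.thr 3 33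 (.thr 60 41 (.thr 52 56 (.thr 4 36 (.thr 55 38 (.dbl 53 5 54))))))))) (.rp 60 (.thr 53 5 (.thr 20 23 (.thr 15 26 (.str 38 (.nv (.thr 39 36 (.thr 51 27 (.thr 63 58 (.dbl 55 4 59)))) (.nv (.thr 6 54 (.thr 39 36 (.thr 55 4 (.thr 63 58 (.dbl 51 27 59))))) (.nv (.thr 39 36 (.thr 51 27 (.thr 49 50 (.dbl 25 12 13)))) (.rp 51 (.thr 39 36 (.thr 63 58 (.thr 47 31 (.thr 42 32 (.thr 35 43 (.thr 44 41 (.dbl 46 34 45))))))) (.rp 39 (.thr 55 4 (.thr 6 54 (.thr 63 58 (.thr 47 31 (.thr 51 59 (.thr 12 25 (.thr 46 29 (.dbl 42 32 34)))))))) (.rp 36 (.thr 63 58 (.thr 47 31 (.thr 42 32 (.thr 62 2 (.thr 46 34 (.thr 14 30 (.dbl 12 13 29))))))) (.rp 27 (.thr 6 54 (.thr 55 4 (.thr 36 39 (.thr 63 58 (.thr 51 59 (.dbl 12 24 25)))))) (.rp 6 (.thr 4 55 (.thr 39 36 (.thr 51 27 (.thr 49 50 (.dbl 25 12 13)))))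 (.rp 4 (.thr 6 54 (.thr 39 36 (.thr 51 27 (.thr 49 50 (.dbl 25 12 13))))) .nd))))))))))))) (.rp 58 (.thr 20 23 (.thr 26 15 (.thr 18 30 (.thr 3 33 (.thr 60 41 (.thr 52 56 (.thr 4 36 (.thr 55 38 (.dbl 53 5 54))))))))) (.rp 53 (.thr 20 23 (.thr 26 15 (.thr 18 30 (.thr 3 33 (.thr 60 41 (.thr 52 56 (.thr 36 4 (.thr 12 24 (.thr 6 9 (.dbl 38 39 54)))))))))) (.rp 43 (.thr 53 5 (.thr 63 58 (.thr 15 26 (.thr 47 31 (.thr 42 32 (.thr 62 2 (.thr 60 61 (.thr 45 30 (.dbl 41 3 33))))))))) (.rp 40 (.thr 53 5 (.thr 63 58 (.thr 15 26 (.thr 47 31 (.thr 42 32 (.thr 62 2 (.thr 23 20 (.thr 60 61 (.dbl 3 41 43))))))))) (.rp 33 (.thr 53 5 (.thr 23 20 (.thr 63 58 (.thr 3 43 (.thr 60 41 (.thr 61 62 (.thr 57 49 (.thr 54 51 (.dbl 52 55 56))))))))) (.rp 28 (.thr 53 5 (.thr 63 58 (.thr 15 26 (.thr 47 31 (.thr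 42 32 (.thr 62 2 (.thr 60 61 (.thr 3 41 (.dbl 23 20 43))))))))) (.rp 24 (.thr 53 5 (.thr 63 58 (.thr 15 26 (.thr 47 31 (.thr 42 32 (.thr 62 2 (.thr 60 61 (.thr 45 30 (.dbl 41 3 33))))))))) (.rp 23 (.thr 53 5 (.thr 63 58 (.thr 15 26 (.thr 47 31 (.thr 42 32 (.thr 62 2 (.thr 60 61 (.thr 45 30 (.dbl 41 3 33))))))))) (.rp 20 (.thr 53 5 (.thr 63 58 (.thr 15 26 (.thr 47 31 (.thr 42 32 (.thr 62 2 (.thr 60 61 (.thr 45 30 (.dbl 41 3 33))))))))) (.rp 18 (.thr 53 5 (.thr 23 20 (.thr 63 58 (.thr 3 43 (.thr 60 41 (.thr 61 62 (.thr 57 49 (.thr 54 51 (.dbl 52 55 56))))))))) (.rp 15 (.thr 5 53 (.str 3 (.nv (.thr 41 60 (.dbl 33 18 45)) (.nv (.thr 33 18 (.dbl 41 45 60)) (.rp 60 (.thr 18 33 (.thr 30 26 (.str 25 (.nv (.thr 13 49 (.thr 1 9 (.thr 29 17 (.dbl 61 41 45)))) (.nv (.thr 20 23 (.thr 19 28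 (.thr 49 13 (.dbl 51 35 50)))) (.nv (.thr 28 19 (.dbl 29 17 31)) (.rp 20 (.str 40 (.nv (.thr 49 13 (.thr 51 50 (.dbl 19 28 35))) (.nv (.thr 28 19 (.dbl 29 17 31)) (.rp 28 (.str 24 (.nv (.thr 8 56 (.thr 42 59 (.thr 32 47 (.dbl 36 12 44)))) (.nv (.thr 12 36 (.thr 9 6 (.dbl 13 1 49))) (.rp 36 (.thr 29 17 (.thr 13 49 (.thr 1 9 (.dbl 61 41 45)))) (.rp 12 (.str 44 (.nv (.thr 13 49 (.thr 1 9 (.thr 29 17 (.dbl 61 41 45)))) (.nv (.thr 32 36 (.thr 42 47 (.dbl 8 56 59))) (.rp 13 (.str 14 (.nv (.thr 32 36 (.thr 42 47 (.dbl 62 2 46))) (.nv (.thr 8 56 (.thr 42 59 (.dbl 32 36 47))) (.nv (.thr 62 46 (.thr 42 2 (.dbl 8 56 59))) (.rp 42 (.thr 36 32 (.thr 38 39 (.thr 35 41 (.thr 6 54 (.thr 51 19 (.thr 50 49 (.dbl 2 10 34))))))) (.rp 8 (.str 4 (.nv (.thr 38 55 (.thr 62 46 (.thr 2 42 (.dbl 6 10 54))))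 (.nv (.thr 32 36 (.thr 42 47 (.dbl 62 2 46))) (.nv (.thr 36 32 (.dbl 38 39 55)) .nd)))) .nd)))))) (.rp 8 (.str 4 (.nv (.thr 13 49 (.thr 1 9 (.thr 61 41 (.dbl 29 17 45)))) (.nv (.thr 36 32 (.dbl 38 39 55)) (.rp 13 (.str 14 (.nv (.thr 38 55 (.thr 62 46 (.thr 2 42 (.dbl 6 10 54)))) (.nv (.thr 32 36 (.thr 42 47 (.dbl 62 2 46))) (.nv (.thr 36 32 (.dbl 38 39 55)) .nd)))) .nd)))) (.rp 4 (.thr 8 56 (.thr 42 59 (.dbl 32 36 47))) .nd)))))) .nd))))) (.rp 19 (.thr 29 17 (.thr 13 49 (.thr 1 9 (.dbl 61 41 45)))) .nd))))) .nd))))))) (.rp 45 (.thr 20 23 (.thr 60 41 (.thr 52 56 (.thr 36 4 (.thr 12 24 (.thr 6 9 (.dbl 38 39 54))))))) (.rp 41 (.str 36 (.nv (.thr 12 24 (.thr 9 6 (.thr 13 1 (.thr 25 49 (.dbl 38 39 51))))) (.nv (.thr 20 23 (.thr 4 52 (.dbl 38 39 55))) (.rp 39 (.thr 12 24 (.thr 9 6 (.thr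 13 1 (.thr 25 49 (.thr 51 38 (.dbl 19 28 35)))))) (.rp 38 (.thr 20 23 (.thr 52 4 (.thr 12 24 (.thr 9 6 (.thr 13 1 (.thr 25 49 (.thr 28 19 (.dbl 60 44 56)))))))) (.rp 20 (.thr 38 39 (.thr 6 54 (.dbl 12 9 24))) .nd)))))) (.rp 33 (.thr 20 23 (.thr 60 41 (.thr 52 56 (.thr 36 4 (.thr 12 24 (.thr 6 9 (.dbl 38 39 54))))))) (.rp 18 (.thr 41 60 (.thr 1 61 (.thr 13 9 (.thr 49 25 (.dbl 33 17 45))))) .nd))))))))) (.rp 10 (.thr 5 53 (.thr 20 23 (.thr 26 15 (.thr 18 30 (.thr 3 33 (.thr 60 41 (.thr 52 56 (.thr 36 4 (.thr 12 24 (.thr 6 9 (.dbl 38 39 54))))))))))) (.rp 5 (.thr 20 23 (.thr 15 26 (.str 4 (.nv (.thr 36 52 (.dbl 38 39 55)) (.rp 55 (.str 39 (.nv (.dbl 36 38 52) (.rp 52 (.thr 38 36 (.thr 51 27 (.thr 49 50 (.dbl 25 12 13)))) (.rp 38 (.thr 52 36 (.thr 60 56 (.thr 45 30 (.dbl 41 3 33))))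 (.rp 36 (.thr 51 27 (.thr 49 50 (.thr 25 13 (.thr 19 28 (.thr 3 35 (.thr 33 18 (.dbl 17 1 29))))))) .nd))))) (.rp 52 (.thr 38 55 (.thr 39 36 (.thr 51 27 (.thr 49 50 (.dbl 25 12 13))))) (.rp 39 (.thr 55 38 (.thr 52 36 (.thr 60 56 (.thr 45 30 (.dbl 41 3 33))))) (.rp 38 (.thr 52 36 (.thr 60 56 (.thr 45 30 (.dbl 41 3 33)))) (.rp 36 (.str 51 (.nv (.thr 38 55 (.thr 39 27 (.thr 25 12 (.dbl 49 13 50)))) (.nv (.thr 49 50 (.thr 25 13 (.dbl 38 12 55))) (.rp 55 (.thr 39 27 (.thr 49 50 (.thr 25 13 (.thr 19 28 (.thr 3 35 (.thr 33 18 (.dbl 17 1 29))))))) (.rp 50 (.thr 38 55 (.thr 39 27 (.thr 54 6 (.thr 60 57 (.thr 45 30 (.dbl 41 3 33)))))) (.rp 49 (.thr 38 55 (.thr 39 27 (.thr 54 6 (.thr 60 57 (.thr 45 30 (.dbl 41 3 33)))))) (.rp 39 (.thr 55 38 (.thr 63 59 (.thr 53 58 (.thr 54 52 (.thr 57 60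 (.dbl 49 50 61)))))) (.rp 38 (.thr 50 49 (.str 3 (.nv (.thr 41 60 (.dbl 33 18 45)) (.rp 60 (.thr 35 19 (.thr 18 33 (.thr 2 34 (.thr 42 62 (.thr 47 32 (.dbl 39 27 43)))))) (.rp 55 (.thr 39 27 (.thr 33 18 (.dbl 41 45 60))) (.rp 45 (.thr 18 33 (.thr 2 34 (.thr 60 41 (.thr 54 57 (.dbl 62 42 58))))) (.rp 41 (.thr 35 19 (.thr 18 33 (.thr 2 34 (.thr 42 62 (.thr 47 32 (.dbl 39 27 43)))))) (.rp 39 (.str 55 (.nv (.thr 60 41 (.thr 54 57 (.dbl 52 53 56))) (.nv (.thr 41 60 (.dbl 33 18 45)) (.rp 60 (.thr 18 33 (.thr 2 34 (.thr 42 62 (.thr 63 59 (.dbl 47 31 32))))) (.rp 41 (.thr 18 33 (.thr 2 34 (.thr 42 62 (.thr 63 59 (.dbl 47 31 32))))) .nd))))) (.rp 33 (.thr 60 41 (.thr 54 57 (.thr 58 62 (.thr 53 63 (.dbl 52 55 56))))) (.rp 18 (.thr 60 41 (.thr 54 57 (.thr 58 62 (.thr 53 63 (.dbl 52 55 56)))))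 .nd)))))))))) (.rp 25 (.thr 55 38 (.thr 63 59 (.thr 53 58 (.thr 54 52 (.thr 57 60 (.dbl 49 50 61)))))) (.rp 13 (.thr 38 55 (.thr 39 27 (.thr 54 6 (.thr 60 57 (.thr 45 30 (.dbl 41 3 33)))))) (.rp 12 (.thr 38 55 (.thr 39 27 (.thr 54 6 (.thr 60 57 (.thr 45 30 (.dbl 41 3 33)))))) .nd))))))))))) .nd))))))))) (.rp 3 (.thr 53 5 (.thr 23 20 (.thr 63 58 (.thr 15 26 (.thr 31 47 (.thr 27 19 (.thr 51 39 (.thr 55 59 (.thr 54 52 (.dbl 38 4 6)))))))))) .nd)))))))))))))))))))) (.rp 5 (.str 15 (.nv (.thr 48 26 (.thr 52 7 (.thr 60 56 (.thr 41 3 (.dbl 45 30 33))))) (.nv (.thr 7 52 (.thr 3 11 (.thr 23 20 (.thr 39 55 (.thr 27 51 (.thr 63 43 (.dbl 31 19 47))))))) (.nv (.thr 7 52 (.thr 3 11 (.thr 60 41 (.thr 30 45 (.dbl 26 18 48))))) (.rp 60 (.thr 7 52 (.thr 20 23 (.thr 3 11 (.thr 48 26 (.thr 33 18 (.str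 25 (.nv (.thr 19 28 (.thr 51 35 (.thr 39 27 (.dbl 38 12 36)))) (.nv (.thr 17 29 (.dbl 49 1 13)) (.rp 56 (.thr 41 45 (.thr 17 29 (.dbl 1 49 61))) (.rp 41 (.str 56 (.nv (.thr 19 28 (.thr 51 35 (.thr 39 27 (.dbl 38 12 36)))) (.nv (.thr 17 29 (.dbl 49 1 13)) .nd))) .nd)))))))))) (.rp 52 (.str 47 (.nv (.thr 23 20 (.thr 31 63 (.thr 19 27 (.thr 28 25 (.thr 30 29 (.dbl 26 18 48)))))) (.nv (.thr 26 48 (.thr 32 42 (.thr 30 18 (.thr 60 45 (.thr 63 31 (.thr 61 62 (.dbl 41 1 3))))))) (.nv (.thr 23 20 (.thr 63 31 (.thr 3 43 (.thr 60 41 (.thr 62 61 (.dbl 42 2 32)))))) (.rp 63 (.thr 23 20 (.thr 32 42 (.thr 26 48 (.thr 30 18 (.thr 60 45 (.thr 3 41 (.thr 7 11 (.thr 39 55 (.thr 51 27 (.dbl 35 19 43)))))))))) (.rp 60 (.thr 63 31 (.thr 42 32 (.thr 48 26 (.thr 62 2 (.thr 58 53 (.thr 54 50 (.thr 38 6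 (.thr 39 36 (.thr 43 35 (.dbl 23 3 20)))))))))) (.rp 48 (.thr 32 42 (.thr 23 20 (.thr 63 31 (.thr 43 3 (.thr 39 35 (.thr 55 7 (.dbl 38 4 36))))))) (.rp 32 (.thr 48 26 (.thr 23 20 (.thr 63 31 (.thr 3 43 (.thr 33 18 (.dbl 41 45 60)))))) (.rp 31 (.thr 23 20 (.thr 32 42 (.thr 26 48 (.thr 30 18 (.thr 60 45 (.thr 3 41 (.thr 43 63 (.thr 39 35 (.dbl 7 11 55))))))))) .nd))))))))) (.rp 48 (.str 32 (.nv (.thr 7 52 (.thr 3 11 (.thr 23 20 (.thr 39 55 (.thr 43 63 (.thr 35 47 (.dbl 51 19 27))))))) (.nv (.thr 7 52 (.thr 23 20 (.thr 39 55 (.thr 27 51 (.thr 47 42 (.dbl 31 19 63)))))) (.nv (.thr 7 52 (.thr 3 11 (.thr 47 42 (.thr 63 31 (.dbl 23 20 43))))) (.rp 63 (.thr 7 52 (.thr 23 20 (.thr 39 55 (.thr 47 42 (.thr 35 43 (.thr 3 11 (.dbl 51 19 27))))))) (.rp 60 (.str 36 (.nv (.thr 52 7 (.thr 4 20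 (.thr 40 44 (.dbl 38 39 55)))) (.nv (.thr 20 23 (.dbl 52 4 7)) (.rp 52 (.str 56 (.nv (.thr 23 20 (.thr 40 44 (.thr 47 42 (.thr 31 63 (.thr 27 19 (.dbl 39 38 51)))))) (.nv (.thr 20 23 (.thr 44 40 (.thr 42 47 (.thr 38 39 (.thr 35 41 (.dbl 34 33 46)))))) (.rp 47 (.thr 40 44 (.thr 24 8 (.thr 23 20 (.thr 39 38 (.thr 27 51 (.thr 25 26 (.dbl 19 28 31))))))) (.rp 44 (.thr 47 42 (.thr 39 38 (.thr 31 63 (.thr 27 51 (.dbl 23 19 20))))) (.rp 42 (.thr 40 44 (.thr 24 8 (.thr 23 20 (.thr 39 38 (.thr 27 51 (.thr 25 26 (.dbl 19 28 31))))))) (.rp 40 (.thr 20 23 (.thr 42 47 (.thr 2 62 (.thr 38 39 (.thr 34 46 (.thr 6 54 (.thr 14 10 (.dbl 50 18 26)))))))) (.rp 39 (.thr 40 44 (.thr 8 24 (.thr 42 47 (.thr 59 25 (.thr 58 57 (.thr 26 10 (.dbl 41 11 43))))))) (.rp 38 (.thr 40 44 (.thr 8 24 (.thr 42 47 (.thr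 41 43 (.thr 26 11 (.thr 58 10 (.dbl 59 25 57))))))) (.rp 23 (.thr 42 47 (.thr 38 39 (.thr 34 46 (.thr 35 33 (.dbl 44 40 41))))) (.rp 20 (.thr 40 44 (.thr 24 8 (.thr 42 47 (.thr 41 43 (.thr 26 11 (.thr 27 25 (.dbl 39 38 51))))))) .nd))))))))))) (.rp 20 (.thr 40 44 (.thr 39 38 (.thr 47 42 (.thr 63 31 (.thr 51 27 (.thr 55 59 (.dbl 7 23 52))))))) (.rp 7 (.thr 38 39 (.thr 42 47 (.thr 34 46 (.thr 35 33 (.dbl 44 40 41))))) (.rp 4 (.thr 39 38 (.thr 23 20 (.thr 40 44 (.dbl 7 52 55)))) .nd))))))) (.rp 56 (.thr 23 20 (.thr 47 42 (.thr 63 31 (.thr 3 43 (.dbl 7 11 52))))) (.rp 52 (.thr 23 20 (.thr 47 42 (.thr 63 31 (.thr 43 3 (.thr 39 35 (.thr 55 7 (.dbl 38 4 36))))))) (.rp 47 (.thr 7 52 (.thr 23 20 (.thr 39 55 (.thr 36 38 (.thr 40 44 (.thr 3 11 (.thr 43 63 (.dbl 41 42 60)))))))) (.rp 23 (.thr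 7 52 (.thr 47 42 (.thr 63 31 (.thr 3 11 (.thr 60 41 (.thr 61 62 (.thr 45 30 (.thr 46 44 (.dbl 29 12 13))))))))) (.rp 20 (.thr 7 52 (.thr 47 42 (.thr 63 31 (.thr 3 11 (.thr 43 23 (.thr 35 39 (.thr 33 34 (.dbl 41 45 60)))))))) (.rp 7 (.thr 23 20 (.thr 47 42 (.thr 63 31 (.thr 43 3 (.thr 39 35 (.thr 38 36 (.thr 51 27 (.dbl 55 4 59)))))))) .nd)))))))))))) (.rp 7 (.thr 20 23 (.thr 48 26 (.str 4 (.nv (.thr 36 52 (.dbl 38 39 55)) (.rp 55 (.str 39 (.nv (.dbl 36 38 52) (.rp 52 (.thr 38 36 (.thr 51 27 (.thr 49 50 (.dbl 25 12 13)))) (.rp 38 (.thr 52 36 (.thr 60 56 (.thr 45 30 (.dbl 41 3 33)))) (.rp 36 (.thr 51 27 (.thr 49 50 (.thr 25 13 (.thr 19 28 (.thr 3 35 (.thr 33 18 (.dbl 17 1 29))))))) .nd))))) (.rp 52 (.thr 38 55 (.thr 39 36 (.thr 51 27 (.thr 49 50 (.dbl 25 12 13))))) (.rp 39 (.thr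 55 38 (.thr 52 36 (.thr 60 56 (.thr 45 30 (.dbl 41 3 33))))) (.rp 38 (.thr 52 36 (.thr 60 56 (.thr 45 30 (.dbl 41 3 33)))) (.rp 36 (.str 51 (.nv (.thr 38 55 (.thr 39 27 (.thr 25 12 (.dbl 49 13 50)))) (.nv (.thr 49 50 (.thr 25 13 (.dbl 38 12 55))) (.rp 55 (.thr 39 27 (.thr 49 50 (.thr 25 13 (.thr 19 28 (.thr 3 35 (.thr 33 18 (.dbl 17 1 29))))))) (.rp 50 (.thr 38 55 (.thr 39 27 (.thr 54 6 (.thr 60 57 (.thr 45 30 (.dbl 41 3 33)))))) (.rp 49 (.thr 38 55 (.thr 39 27 (.thr 54 6 (.thr 60 57 (.thr 45 30 (.dbl 41 3 33)))))) (.rp 39 (.thr 55 38 (.thr 63 59 (.thr 53 58 (.thr 54 52 (.thr 57 60 (.dbl 49 50 61)))))) (.rp 38 (.thr 50 49 (.str 3 (.nv (.thr 41 60 (.dbl 33 18 45)) (.rp 60 (.thr 35 19 (.thr 18 33 (.thr 2 34 (.thr 42 62 (.thr 47 32 (.dbl 39 27 43)))))) (.rp 55 (.thr 39 27 (.thr 33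 18 (.dbl 41 45 60))) (.rp 45 (.thr 18 33 (.thr 2 34 (.thr 60 41 (.thr 54 57 (.dbl 62 42 58))))) (.rp 41 (.thr 35 19 (.thr 18 33 (.thr 2 34 (.thr 42 62 (.thr 47 32 (.dbl 39 27 43)))))) (.rp 39 (.str 55 (.nv (.thr 60 41 (.thr 54 57 (.dbl 52 53 56))) (.nv (.thr 41 60 (.dbl 33 18 45)) (.rp 60 (.thr 18 33 (.thr 2 34 (.thr 42 62 (.thr 63 59 (.dbl 47 31 32))))) (.rp 41 (.thr 18 33 (.thr 2 34 (.thr 42 62 (.thr 63 59 (.dbl 47 31 32))))) .nd))))) (.rp 33 (.thr 60 41 (.thr 54 57 (.thr 58 62 (.thr 53 63 (.dbl 52 55 56))))) (.rp 18 (.thr 60 41 (.thr 54 57 (.thr 58 62 (.thr 53 63 (.dbl 52 55 56))))) .nd)))))))))) (.rp 25 (.thr 55 38 (.thr 63 59 (.thr 53 58 (.thr 54 52 (.thr 57 60 (.dbl 49 50 61)))))) (.rp 13 (.thr 38 55 (.thr 39 27 (.thr 54 6 (.thr 60 57 (.thr 45 30 (.dbl 41 3 33)))))) (.rp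 12 (.thr 38 55 (.thr 39 27 (.thr 54 6 (.thr 60 57 (.thr 45 30 (.dbl 41 3 33)))))) .nd))))))))))) .nd))))))))) (.rp 3 (.thr 7 52 (.thr 23 20 (.thr 39 55 (.thr 51 27 (.thr 48 26 (.thr 49 50 (.thr 25 13 (.dbl 38 12 36)))))))) .nd))))))))) (.rp 4 (.str 48 (.nv (.thr 15 26 (.thr 7 52 (.thr 3 11 (.thr 33 18 (.dbl 41 45 60))))) (.nv (.thr 15 26 (.thr 23 20 (.thr 53 5 (.thr 63 58 (.thr 3 43 (.dbl 7 11 52)))))) (.nv (.thr 5 53 (.thr 52 7 (.thr 60 56 (.thr 3 41 (.thr 26 15 (.dbl 18 30 33)))))) (.rp 60 (.thr 53 5 (.thr 7 52 (.thr 63 58 (.thr 15 26 (.thr 3 11 (.dbl 23 20 43)))))) (.rp 52 (.thr 53 5 (.thr 63 58 (.thr 15 26 (.thr 47 31 (.thr 42 32 (.thr 62 2 (.thr 60 61 (.thr 45 30 (.dbl 41 3 33))))))))) (.rp 26 (.thr 53 5 (.thr 23 20 (.thr 63 58 (.thr 3 43 (.thr 33 18 (.dbl 41 45 60)))))) (.rp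 15 (.thr 52 7 (.thr 23 20 (.thr 60 56 (.thr 3 41 (.thr 63 43 (.dbl 53 5 58)))))) (.rp 12 (.str 8 (.nv (.thr 23 20 (.thr 26 15 (.thr 18 30 (.thr 3 33 (.thr 63 43 (.dbl 53 5 58)))))) (.nv (.thr 7 52 (.thr 15 26 (.thr 3 11 (.thr 53 5 (.thr 63 58 (.dbl 23 20 43)))))) (.nv (.thr 52 7 (.thr 60 56 (.thr 3 41 (.thr 18 33 (.dbl 26 15 30))))) (.rp 52 (.thr 53 5 (.thr 58 63 (.thr 26 15 (.thr 10 42 (.thr 11 9 (.thr 41 56 (.thr 3 60 (.dbl 33 18 45)))))))) (.rp 26 (.thr 53 5 (.thr 23 20 (.thr 63 58 (.thr 3 43 (.thr 33 18 (.dbl 41 45 60)))))) (.rp 15 (.thr 52 7 (.thr 23 20 (.thr 60 56 (.thr 3 41 (.thr 63 43 (.dbl 53 5 58)))))) (.rp 5 (.thr 7 52 (.thr 15 26 (.thr 3 11 (.thr 33 18 (.dbl 41 45 60))))) (.rp 3 (.thr 53 5 (.thr 23 20 (.thr 15 26 (.thr 63 58 (.thr 31 47 (.thr 27 19 (.thr 51 39 (.thr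 55 59 (.dbl 52 7 54))))))))) .nd))))))))) (.rp 8 (.str 12 (.nv (.thr 15 26 (.thr 13 14 (.thr 25 49 (.thr 38 51 (.dbl 36 24 39))))) (.nv (.thr 26 15 (.thr 18 30 (.thr 3 33 (.thr 52 7 (.dbl 60 41 56))))) (.nv (.thr 7 52 (.thr 36 24 (.thr 39 38 (.dbl 23 20 55)))) .nd)))) (.rp 7 (.thr 23 20 (.thr 26 15 (.thr 18 30 (.thr 3 33 (.thr 63 43 (.dbl 53 5 58)))))) (.rp 3 (.thr 53 5 (.thr 23 20 (.thr 63 58 (.thr 15 26 (.thr 31 47 (.thr 27 19 (.thr 51 39 (.thr 55 59 (.dbl 52 7 54))))))))) .nd)))))))))))) .nd))))))))))))))))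

theorem w31 : WinAt (6291456, 65537) :=
  chF (K := [(137445244928, 281474976776193)]) (kc w30 kn) c31 6291456 65537 16
    [281479271743489] (by decide +kernel) (by decide +kernel)

/-- A certificate. -/
noncomputable def c32 : Ct := (.str 38 (.nv (.thr 20 23 (.thr 6 54 (.thr 4 55 (.thr 52 36 (.dbl 7 5 37))))) (.rp 55 (.thr 54 6 (.str 51 (.nv (.thr 12 25 (.thr 60 57 (.thr 41 3 (.dbl 44 28 35)))) (.nv (.thr 60 57 (.thr 3 41 (.thr 19 35 (.dbl 25 12 28)))) (.rp 60 (.thr 20 23 (.str 37 (.nv (.thr 7 52 (.thr 12 25 (.thr 36 39 (.thr 48 24 (.thr 26 15 (.dbl 50 14 49)))))) (.nv (.thr 7 52 (.thr 39 36 (.thr 15 27 (.thr 3 11 (.thr 19 35 (.dbl 25 12 28)))))) (.nv (.thr 39 36 (.thr 15 27 (.thr 48 26 (.thr 49 50 (.dbl 25 12 13))))) (.rp 48 (.thr 39 36 (.thr 27 15 (.thr 25 12 (.thr 24 26 (.dbl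 28 16 19))))) (.rp 39 (.thr 7 52 (.thr 25 12 (.thr 28 19 (.thr 16 24 (.thr 49 13 (.thr 48 50 (.dbl 26 15 31))))))) (.rp 36 (.thr 25 12 (.thr 28 19 (.thr 49 13 (.thr 48 50 (.thr 16 24 (.dbl 26 15 31)))))) (.rp 25 (.thr 39 36 (.thr 15 27 (.thr 26 48 (.thr 50 14 (.thr 62 58 (.thr 2 42 (.dbl 18 30 34))))))) (.rp 15 (.thr 36 39 (.thr 7 52 (.thr 12 25 (.thr 48 24 (.thr 50 49 (.thr 58 62 (.dbl 53 5 63))))))) (.rp 12 (.thr 39 36 (.thr 53 5 (.thr 15 27 (.thr 48 26 (.thr 50 49 (.dbl 58 62 63)))))) .nd))))))))))) (.rp 57 (.thr 23 20 (.thr 25 12 (.thr 19 28 (.thr 3 35 (.thr 43 63 (.thr 27 31 (.thr 15 39 (.dbl 11 7 59)))))))) (.rp 41 (.thr 23 20 (.thr 60 57 (.thr 25 12 (.thr 19 28 (.thr 27 31 (.thr 15 39 (.thr 30 45 (.dbl 26 18 24)))))))) (.rp 35 (.thr 23 20 (.thr 60 57 (.thr 3 41 (.thr 63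 43 (.thr 62 61 (.thr 42 2 (.thr 46 34 (.dbl 12 25 29)))))))) (.rp 28 (.thr 23 20 (.thr 60 57 (.thr 3 41 (.thr 19 35 (.thr 43 63 (.thr 27 31 (.thr 15 39 (.dbl 11 7 59)))))))) (.rp 25 (.str 39 (.nv (.thr 23 20 (.thr 27 15 (.thr 19 31 (.thr 3 35 (.dbl 60 41 57))))) (.nv (.thr 15 27 (.thr 37 36 (.thr 60 57 (.thr 30 45 (.dbl 26 18 48))))) (.rp 60 (.thr 37 36 (.thr 7 52 (.thr 15 27 (.thr 3 11 (.thr 35 19 (.thr 43 47 (.dbl 23 20 63))))))) (.rp 57 (.thr 37 36 (.thr 7 52 (.thr 15 27 (.thr 3 11 (.thr 35 19 (.dbl 41 44 60)))))) (.rp 41 (.thr 37 36 (.thr 15 27 (.thr 26 48 (.thr 30 18 (.dbl 60 45 57))))) (.rp 27 (.thr 37 36 (.thr 52 7 (.thr 60 57 (.thr 48 56 (.thr 50 49 (.dbl 26 14 15)))))) (.rp 15 (.thr 37 36 (.thr 52 7 (.thr 60 57 (.thr 48 56 (.thr 50 49 (.thr 58 62 (.dbl 53 5 63))))))) .nd))))))))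 (.rp 12 (.thr 23 20 (.thr 60 57 (.thr 3 41 (.thr 19 35 (.thr 43 63 (.thr 27 31 (.thr 15 39 (.dbl 11 7 59)))))))) (.rp 3 (.thr 20 23 (.thr 60 57 (.thr 12 25 (.thr 28 44 (.thr 16 24 (.thr 26 31 (.thr 14 50 (.thr 15 13 (.dbl 30 18 45))))))))) .nd)))))))))))) (.rp 54 (.str 51 (.nv (.thr 55 4 (.thr 23 20 (.thr 63 59 (.thr 3 43 (.thr 35 19 (.dbl 41 44 60)))))) (.nv (.thr 12 25 (.thr 23 20 (.thr 55 4 (.thr 39 7 (.thr 15 27 (.thr 14 13 (.thr 26 50 (.dbl 37 36 48)))))))) (.nv (.thr 23 20 (.thr 25 12 (.thr 19 28 (.thr 3 35 (.thr 63 43 (.dbl 55 4 59)))))) (.rp 60 (.thr 55 4 (.thr 63 59 (.thr 12 25 (.thr 46 29 (.thr 42 34 (.thr 62 2 (.thr 14 30 (.thr 15 13 (.thr 31 47 (.dbl 26 16 50)))))))))) (.rp 55 (.thr 23 20 (.thr 25 12 (.thr 19 28 (.thr 3 35 (.thr 43 63 (.thr 27 31 (.thr 15 39 (.dbl 11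 7 59)))))))) (.rp 40 (.thr 25 12 (.thr 19 28 (.thr 3 35 (.thr 23 20 (.thr 60 41 (.thr 27 31 (.thr 39 15 (.dbl 55 4 7)))))))) (.rp 23 (.thr 55 4 (.thr 63 59 (.thr 12 25 (.thr 46 29 (.thr 42 34 (.thr 62 2 (.thr 60 61 (.thr 44 28 (.dbl 41 3 35))))))))) (.rp 20 (.thr 55 4 (.thr 63 59 (.thr 12 25 (.thr 46 29 (.thr 42 34 (.thr 62 2 (.thr 60 61 (.thr 44 28 (.dbl 41 3 35))))))))) (.rp 12 (.str 39 (.nv (.thr 4 55 (.thr 20 23 (.dbl 36 37 52))) (.nv (.thr 23 20 (.dbl 55 4 7)) (.rp 55 (.thr 37 36 (.thr 7 52 (.thr 53 5 (.thr 15 27 (.thr 3 11 (.thr 35 19 (.dbl 41 44 60))))))) (.rp 23 (.thr 37 36 (.thr 7 52 (.thr 15 27 (.thr 3 11 (.thr 41 60 (.dbl 35 19 44)))))) (.rp 20 (.thr 37 36 (.thr 53 5 (.thr 15 27 (.thr 48 26 (.thr 63 58 (.dbl 55 4 59)))))) (.rp 4 (.str 8 (.nv (.thr 23 20 (.thr 7 55 (.dbl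 37 36 52))) (.rp 60 (.thr 37 36 (.thr 53 5 (.thr 15 27 (.thr 48 26 (.thr 63 58 (.thr 55 59 (.dbl 23 7 20))))))) (.rp 55 (.thr 23 20 (.thr 27 15 (.thr 19 31 (.thr 3 35 (.thr 25 28 (.thr 59 42 (.dbl 43 11 63))))))) (.rp 53 (.thr 23 20 (.thr 55 7 (.thr 27 15 (.thr 19 31 (.thr 3 35 (.dbl 63 43 59)))))) (.rp 52 (.thr 23 20 (.thr 36 37 (.thr 55 7 (.thr 27 15 (.thr 19 31 (.thr 3 35 (.dbl 63 43 59))))))) (.rp 40 (.thr 20 23 (.thr 37 36 (.thr 7 52 (.thr 15 27 (.thr 3 11 (.thr 41 60 (.dbl 35 19 44))))))) (.rp 37 (.thr 23 20 (.thr 7 55 (.thr 15 27 (.thr 3 11 (.thr 35 19 (.dbl 41 44 60)))))) (.rp 36 (.thr 20 23 (.str 24 (.nv (.thr 27 15 (.thr 25 26 (.dbl 28 16 19))) (.nv (.thr 16 28 (.thr 26 31 (.dbl 27 15 25))) (.rp 28 (.thr 27 15 (.thr 25 26 (.thr 59 42 (.thr 43 11 (.thr 35 47 (.thr 3 19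 (.dbl 41 44 60))))))) (.rp 27 (.thr 40 56 (.thr 28 16 (.thr 19 25 (.thr 35 3 (.thr 41 44 (.dbl 43 42 47)))))) (.rp 26 (.thr 40 56 (.thr 28 16 (.thr 19 25 (.thr 35 3 (.thr 41 44 (.dbl 43 42 47)))))) (.rp 25 (.thr 16 28 (.thr 26 31 (.thr 50 14 (.thr 48 49 (.dbl 15 27 37))))) (.rp 16 (.thr 56 40 (.thr 27 15 (.thr 26 25 (.thr 41 11 (.thr 3 60 (.dbl 35 19 44)))))) (.rp 15 (.thr 40 56 (.thr 28 16 (.thr 19 25 (.thr 35 3 (.thr 41 44 (.dbl 43 42 47)))))) .nd)))))))))) (.rp 23 (.thr 37 36 (.thr 52 7 (.thr 15 27 (.thr 48 26 (.thr 60 56 (.thr 41 3 (.dbl 45 30 33))))))) (.rp 20 (.thr 37 36 (.thr 52 7 (.thr 15 27 (.thr 48 26 (.thr 60 56 (.thr 41 3 (.dbl 45 30 33))))))) (.rp 7 (.thr 23 20 (.thr 27 15 (.thr 19 31 (.thr 3 35 (.thr 25 28 (.thr 59 42 (.dbl 43 11 63))))))) .nd)))))))))))) .nd)))))))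 (.rp 4 (.str 39 (.nv (.thr 12 25 (.thr 15 27 (.thr 14 13 (.thr 26 50 (.dbl 37 36 48))))) (.nv (.thr 23 20 (.thr 7 55 (.dbl 37 36 52))) (.rp 37 (.thr 23 20 (.thr 27 15 (.thr 19 31 (.dbl 25 12 28)))) (.rp 36 (.thr 15 27 (.thr 12 25 (.thr 14 13 (.thr 26 50 (.thr 30 18 (.thr 60 45 (.thr 44 28 (.dbl 41 3 35)))))))) (.rp 12 (.str 8 (.nv (.thr 23 20 (.thr 7 55 (.dbl 37 36 52))) (.rp 60 (.thr 37 36 (.thr 53 5 (.thr 15 27 (.thr 48 26 (.thr 63 58 (.thr 55 59 (.dbl 23 7 20))))))) (.rp 55 (.thr 23 20 (.thr 27 15 (.thr 19 31 (.thr 3 35 (.thr 25 28 (.thr 59 42 (.dbl 43 11 63))))))) (.rp 53 (.thr 23 20 (.thr 55 7 (.thr 27 15 (.thr 19 31 (.thr 3 35 (.dbl 63 43 59)))))) (.rp 52 (.thr 23 20 (.thr 36 37 (.thr 55 7 (.thr 27 15 (.thr 19 31 (.thr 3 35 (.dbl 63 43 59))))))) (.rp 40 (.thr 20 23 (.thr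 37 36 (.thr 7 52 (.thr 15 27 (.thr 3 11 (.thr 41 60 (.dbl 35 19 44))))))) (.rp 37 (.thr 23 20 (.thr 7 55 (.thr 15 27 (.thr 3 11 (.thr 35 19 (.dbl 41 44 60)))))) (.rp 36 (.thr 20 23 (.str 24 (.nv (.thr 27 15 (.thr 25 26 (.dbl 28 16 19))) (.nv (.thr 16 28 (.thr 26 31 (.dbl 27 15 25))) (.rp 28 (.thr 27 15 (.thr 25 26 (.thr 59 42 (.thr 43 11 (.thr 35 47 (.thr 3 19 (.dbl 41 44 60))))))) (.rp 27 (.thr 40 56 (.thr 28 16 (.thr 19 25 (.thr 35 3 (.thr 41 44 (.dbl 43 42 47)))))) (.rp 26 (.thr 40 56 (.thr 28 16 (.thr 19 25 (.thr 35 3 (.thr 41 44 (.dbl 43 42 47)))))) (.rp 25 (.thr 16 28 (.thr 26 31 (.thr 50 14 (.thr 48 49 (.dbl 15 27 37))))) (.rp 16 (.thr 56 40 (.thr 27 15 (.thr 26 25 (.thr 41 11 (.thr 3 60 (.dbl 35 19 44)))))) (.rp 15 (.thr 40 56 (.thr 28 16 (.thr 19 25 (.thr 35 3 (.thr 41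 44 (.dbl 43 42 47)))))) .nd)))))))))) (.rp 23 (.thr 37 36 (.thr 52 7 (.thr 15 27 (.thr 48 26 (.thr 60 56 (.thr 41 3 (.dbl 45 30 33))))))) (.rp 20 (.thr 37 36 (.thr 52 7 (.thr 15 27 (.thr 48 26 (.thr 60 56 (.thr 41 3 (.dbl 45 30 33))))))) (.rp 7 (.thr 23 20 (.thr 27 15 (.thr 19 31 (.thr 3 35 (.thr 25 28 (.thr 59 42 (.dbl 43 11 63))))))) .nd)))))))))))) .nd)))))) .nd))))))))))) (.rp 52 (.str 51 (.nv (.thr 6 54 (.thr 12 25 (.thr 3 9 (.thr 55 4 (.thr 63 59 (.dbl 23 20 43)))))) (.nv (.thr 23 20 (.thr 25 12 (.thr 19 28 (.thr 27 31 (.thr 39 15 (.dbl 55 4 7)))))) (.nv (.thr 54 6 (.thr 60 57 (.thr 3 41 (.thr 19 35 (.dbl 25 12 28))))) (.rp 25 (.thr 54 6 (.thr 55 4 (.thr 63 59 (.thr 60 57 (.thr 61 62 (.dbl 41 1 3)))))) (.rp 12 (.thr 54 6 (.thr 23 20 (.thr 60 57 (.thr 3 41 (.thr 63 43 (.dbl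 55 4 59)))))) .nd)))))) (.rp 51 (.str 34 (.nv (.thr 6 54 (.thr 42 46 (.thr 2 62 (.thr 50 18 (.dbl 14 10 26))))) (.nv (.thr 54 6 (.thr 55 4 (.thr 52 53 (.thr 7 37 (.dbl 23 20 39))))) (.rp 54 (.thr 4 55 (.thr 20 23 (.thr 52 36 (.thr 7 37 (.thr 6 5 (.thr 42 46 (.thr 2 62 (.thr 50 18 (.dbl 14 10 26))))))))) (.rp 6 (.str 52 (.nv (.thr 55 4 (.thr 53 54 (.dbl 37 5 7))) (.nv (.thr 20 23 (.dbl 4 36 55)) (.rp 55 (.thr 20 23 (.thr 36 4 (.dbl 37 7 39))) (.rp 4 (.thr 37 7 (.thr 5 53 (.thr 36 39 (.thr 42 46 (.thr 32 47 (.thr 35 33 (.dbl 44 40 41))))))) .nd))))) .nd))))) (.rp 39 (.thr 20 23 (.thr 6 54 (.thr 4 55 (.thr 7 5 (.dbl 52 36 37))))) (.rp 37 (.str 51 (.nv (.thr 6 54 (.thr 12 25 (.thr 3 9 (.thr 55 4 (.thr 63 59 (.dbl 23 20 43)))))) (.nv (.thr 23 20 (.thr 25 12 (.thr 19 28 (.thr 27 31 (.thr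 39 15 (.dbl 55 4 7)))))) (.nv (.thr 54 6 (.thr 60 57 (.thr 3 41 (.thr 19 35 (.dbl 25 12 28))))) (.rp 25 (.thr 54 6 (.thr 55 4 (.thr 23 20 (.thr 63 59 (.thr 3 43 (.dbl 60 41 57)))))) (.rp 12 (.thr 54 6 (.thr 23 20 (.thr 60 57 (.thr 3 41 (.thr 63 43 (.dbl 55 4 59)))))) .nd)))))) (.rp 36 (.thr 23 20 (.thr 54 6 (.thr 55 4 (.thr 52 53 (.dbl 7 37 39))))) (.rp 34 (.str 51 (.nv (.thr 6 54 (.thr 12 25 (.thr 3 9 (.thr 35 19 (.dbl 41 44 60))))) (.nv (.thr 4 55 (.thr 20 23 (.thr 6 54 (.thr 52 36 (.dbl 7 5 37))))) (.rp 54 (.thr 55 4 (.thr 23 20 (.thr 39 7 (.thr 27 15 (.thr 19 31 (.dbl 25 12 28)))))) (.rp 6 (.thr 55 4 (.thr 23 20 (.thr 63 59 (.thr 3 43 (.thr 35 19 (.dbl 41 44 60)))))) .nd))))) (.rp 23 (.thr 54 6 (.str 51 (.nv (.thr 55 4 (.thr 53 52 (.thr 57 60 (.thr 49 61 (.thr 48 50 (.dbl 63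 58 59)))))) (.nv (.thr 60 57 (.thr 3 41 (.thr 19 35 (.dbl 25 12 28)))) (.rp 60 (.thr 55 4 (.thr 53 52 (.thr 63 59 (.thr 48 58 (.thr 50 49 (.thr 26 14 (.dbl 37 5 15))))))) (.rp 57 (.thr 55 4 (.thr 53 52 (.thr 63 59 (.thr 58 48 (.thr 62 50 (.thr 42 2 (.thr 12 25 (.dbl 46 29 34)))))))) (.rp 12 (.thr 4 55 (.thr 60 57 (.thr 3 41 (.thr 19 35 (.str 37 (.nv (.thr 25 28 (.thr 49 13 (.thr 48 50 (.thr 18 33 (.dbl 26 15 30))))) (.nv (.thr 39 36 (.thr 7 52 (.dbl 15 11 27))) (.rp 48 (.thr 7 52 (.thr 15 11 (.dbl 39 27 36))) (.rp 39 (.thr 7 52 (.thr 15 11 (.thr 30 45 (.dbl 26 18 48)))) (.rp 25 (.str 9 (.nv (.thr 39 36 (.thr 15 27 (.thr 30 45 (.dbl 26 18 48)))) (.nv (.thr 7 52 (.thr 15 11 (.thr 30 45 (.dbl 26 18 48)))) (.nv (.thr 39 36 (.thr 7 52 (.dbl 15 11 27))) (.rp 48 (.thr 7 52 (.thr 15 11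 (.dbl 39 27 36))) (.rp 15 (.thr 39 36 (.thr 52 7 (.thr 48 56 (.thr 50 49 (.thr 58 62 (.dbl 53 5 63)))))) .nd)))))) (.rp 15 (.thr 39 36 (.thr 52 7 (.thr 25 28 (.thr 48 56 (.dbl 49 13 50))))) (.rp 7 (.thr 39 36 (.thr 15 27 (.thr 30 45 (.dbl 26 18 48)))) .nd)))))))))))) .nd))))))) (.rp 20 (.str 60 (.nv (.thr 41 3 (.thr 44 35 (.thr 12 28 (.thr 51 25 (.thr 55 4 (.thr 63 59 (.dbl 61 1 62))))))) (.nv (.thr 54 6 (.thr 51 57 (.thr 55 4 (.thr 63 59 (.thr 61 62 (.dbl 41 1 3)))))) (.nv (.thr 54 6 (.thr 51 57 (.thr 3 41 (.thr 19 35 (.dbl 25 12 28))))) (.rp 51 (.str 34 (.nv (.thr 6 54 (.thr 42 46 (.thr 2 62 (.thr 14 10 (.dbl 50 18 26))))) (.nv (.thr 42 46 (.thr 62 2 (.thr 61 63 (.dbl 41 1 3)))) (.rp 62 (.thr 42 46 (.thr 41 3 (.thr 35 44 (.thr 32 33 (.thr 47 37 (.dbl 43 39 40)))))) (.rp 46 (.thr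 6 54 (.thr 4 55 (.thr 7 5 (.thr 41 3 (.thr 35 44 (.thr 33 32 (.dbl 37 45 52))))))) (.rp 42 (.thr 6 54 (.thr 4 55 (.thr 7 5 (.thr 41 3 (.thr 35 44 (.thr 33 32 (.dbl 37 45 52))))))) (.rp 2 (.thr 42 46 (.thr 41 3 (.thr 1 61 (.thr 35 44 (.thr 32 33 (.thr 47 37 (.dbl 43 39 40))))))) .nd))))))) (.rp 41 (.thr 54 6 (.thr 55 4 (.thr 51 57 (.thr 63 59 (.thr 62 61 (.thr 58 50 (.dbl 53 48 52))))))) (.rp 34 (.str 51 (.nv (.thr 3 41 (.thr 19 35 (.dbl 25 12 28))) (.nv (.dbl 54 6 57) .nd))) (.rp 12 (.thr 6 54 (.thr 4 55 (.thr 7 5 (.thr 3 41 (.thr 15 11 (.thr 30 45 (.thr 26 18 (.dbl 37 48 52)))))))) (.rp 3 (.thr 54 6 (.thr 55 4 (.thr 51 57 (.thr 63 59 (.thr 62 61 (.thr 58 50 (.dbl 53 48 52))))))) .nd))))))))) (.rp 7 (.str 51 (.nv (.thr 23 20 (.thr 25 12 (.thr 19 28 (.thr 3 35 (.thr 63 43 (.dbl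 55 4 59)))))) (.nv (.thr 6 54 (.thr 12 25 (.thr 3 9 (.thr 55 4 (.thr 63 59 (.dbl 23 20 43)))))) (.nv (.thr 6 54 (.thr 12 25 (.thr 3 9 (.thr 41 60 (.dbl 35 19 44))))) (.rp 25 (.thr 55 4 (.thr 23 20 (.thr 63 59 (.thr 3 43 (.thr 35 19 (.dbl 41 44 60)))))) (.rp 20 (.thr 54 6 (.thr 60 57 (.thr 3 41 (.thr 19 35 (.dbl 25 12 28))))) (.rp 12 (.thr 54 6 (.thr 23 20 (.thr 60 57 (.thr 3 41 (.thr 63 43 (.dbl 55 4 59)))))) (.rp 3 (.thr 54 6 (.thr 20 23 (.thr 60 57 (.thr 12 25 (.thr 28 44 (.thr 24 16 (.thr 48 36 (.thr 52 56 (.dbl 55 4 53))))))))) .nd)))))))) (.rp 6 (.str 51 (.nv (.thr 23 20 (.thr 55 4 (.thr 63 59 (.thr 3 43 (.thr 35 19 (.dbl 41 44 60)))))) (.nv (.thr 4 55 (.thr 12 25 (.thr 20 23 (.thr 36 52 (.thr 48 24 (.thr 50 49 (.thr 26 14 (.dbl 37 15 39)))))))) (.nv (.thr 23 20 (.thr 25 12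 (.thr 19 28 (.thr 3 35 (.thr 63 43 (.dbl 55 4 59)))))) (.rp 55 (.thr 23 20 (.thr 25 12 (.thr 19 28 (.thr 3 35 (.thr 43 63 (.thr 27 31 (.thr 15 39 (.dbl 11 7 59)))))))) (.rp 23 (.thr 55 4 (.thr 63 59 (.thr 12 25 (.thr 46 29 (.thr 42 34 (.thr 62 2 (.thr 60 61 (.thr 44 28 (.dbl 41 3 35))))))))) (.rp 20 (.thr 55 4 (.thr 63 59 (.thr 12 25 (.thr 46 29 (.thr 42 34 (.thr 62 2 (.thr 60 61 (.thr 44 28 (.dbl 41 3 35))))))))) (.rp 12 (.thr 4 55 (.str 3 (.nv (.thr 41 60 (.dbl 35 19 44)) (.nv (.thr 35 19 (.dbl 41 44 60)) (.rp 60 (.thr 20 23 (.thr 36 52 (.thr 35 19 (.thr 44 41 (.thr 32 40 (.thr 34 33 (.thr 42 46 (.dbl 37 39 47)))))))) (.rp 44 (.thr 23 20 (.thr 19 35 (.thr 31 27 (.thr 26 16 (.thr 30 18 (.dbl 28 25 29)))))) (.rp 41 (.thr 23 20 (.thr 19 35 (.thr 31 27 (.thr 26 16 (.thr 30 18 (.dbl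 28 25 29)))))) (.rp 35 (.thr 20 23 (.thr 52 36 (.thr 60 41 (.thr 48 56 (.thr 50 49 (.thr 26 14 (.dbl 37 7 15))))))) (.rp 19 (.thr 20 23 (.thr 52 36 (.thr 60 41 (.thr 48 56 (.thr 50 49 (.thr 26 14 (.dbl 37 7 15))))))) .nd))))))))) (.rp 4 (.thr 12 25 (.str 7 (.nv (.thr 37 52 (.thr 36 39 (.thr 48 24 (.thr 26 15 (.dbl 50 14 49))))) (.nv (.thr 23 20 (.thr 39 55 (.dbl 37 36 52))) (.rp 52 (.str 36 (.nv (.thr 37 39 (.thr 48 24 (.thr 26 15 (.dbl 50 14 49)))) (.nv (.thr 23 20 (.dbl 39 37 55)) (.rp 39 (.thr 20 23 (.thr 24 48 (.thr 16 28 (.thr 26 31 (.thr 30 18 (.thr 14 50 (.thr 15 13 (.thr 60 45 (.dbl 3 11 41))))))))) (.rp 37 (.thr 23 20 (.thr 55 39 (.thr 63 59 (.thr 3 43 (.thr 35 19 (.dbl 41 44 60)))))) .nd))))) (.rp 39 (.str 55 (.nv (.thr 23 20 (.thr 63 59 (.thr 3 43 (.thr 35 19 (.dbl 41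 44 60))))) (.nv (.thr 37 52 (.thr 53 5 (.thr 63 59 (.thr 48 58 (.thr 50 49 (.dbl 26 14 15)))))) (.nv (.thr 52 37 (.thr 54 53 (.thr 60 57 (.thr 44 28 (.dbl 41 3 35))))) (.rp 52 (.thr 63 59 (.thr 46 29 (.thr 42 34 (.thr 62 2 (.thr 60 61 (.thr 44 28 (.dbl 41 3 35))))))) .nd))))) (.rp 37 (.thr 23 20 (.thr 55 39 (.thr 63 59 (.thr 3 43 (.thr 35 19 (.dbl 41 44 60)))))) (.rp 36 (.thr 23 20 (.thr 52 37 (.thr 55 39 (.thr 54 53 (.thr 60 57 (.thr 44 28 (.dbl 41 3 35))))))) .nd)))))))) .nd))))))))) (.rp 5 (.thr 23 20 (.thr 54 6 (.thr 55 4 (.thr 7 39 (.dbl 52 37 53))))) (.rp 4 (.str 12 (.nv (.thr 51 25 (.thr 54 6 (.thr 60 57 (.thr 41 3 (.dbl 44 28 35))))) (.nv (.thr 51 25 (.thr 6 54 (.thr 3 9 (.thr 41 60 (.dbl 35 19 44))))) (.nv (.thr 6 54 (.thr 3 9 (.thr 60 41 (.thr 28 44 (.dbl 25 19 51)))))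 (.rp 60 (.thr 6 54 (.thr 20 23 (.thr 51 25 (.str 7 (.nv (.thr 37 52 (.thr 36 39 (.thr 48 24 (.thr 26 15 (.dbl 50 14 49))))) (.nv (.thr 3 9 (.thr 15 11 (.thr 14 13 (.thr 26 50 (.thr 18 30 (.dbl 48 33 37)))))) (.nv (.thr 37 52 (.thr 39 36 (.thr 3 9 (.dbl 15 11 27)))) (.rp 48 (.thr 3 9 (.thr 15 11 (.thr 39 27 (.dbl 37 36 52)))) (.rp 37 (.thr 3 9 (.thr 35 19 (.thr 15 11 (.thr 13 14 (.thr 41 44 (.thr 61 1 (.thr 29 45 (.thr 46 63 (.thr 42 34 (.thr 43 40 (.dbl 39 27 47))))))))))) (.rp 15 (.thr 37 52 (.thr 36 39 (.thr 48 24 (.thr 50 49 (.thr 26 14 (.thr 3 9 (.dbl 18 30 33))))))) .nd)))))))))) (.rp 54 (.str 34 (.nv (.thr 25 51 (.thr 28 19 (.thr 42 46 (.thr 60 44 (.thr 62 2 (.thr 61 63 (.dbl 41 1 3))))))) (.nv (.thr 23 20 (.thr 25 51 (.thr 19 28 (.thr 31 27 (.thr 42 46 (.thr 2 62 (.thr 50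 18 (.dbl 26 14 16)))))))) (.nv (.thr 23 20 (.thr 25 51 (.thr 46 42 (.thr 63 29 (.thr 3 43 (.thr 9 6 (.dbl 41 57 60))))))) (.nv (.thr 20 23 (.thr 25 51 (.thr 28 19 (.thr 16 24 (.thr 31 26 (.thr 29 30 (.dbl 46 42 63))))))) (.rp 60 (.thr 42 46 (.thr 2 62 (.thr 50 18 (.thr 51 25 (.thr 48 49 (.thr 36 24 (.thr 37 39 (.dbl 26 14 15)))))))) (.rp 57 (.thr 23 20 (.thr 46 42 (.thr 63 29 (.thr 3 43 (.thr 51 25 (.thr 35 19 (.dbl 41 44 60))))))) (.rp 51 (.thr 23 20 (.thr 42 46 (.thr 2 62 (.thr 50 18 (.thr 14 26 (.thr 6 10 (.thr 3 9 (.thr 43 63 (.dbl 41 40 60))))))))) (.rp 46 (.thr 20 23 (.thr 25 51 (.thr 28 19 (.thr 60 44 (.thr 16 24 (.thr 31 26 (.thr 30 29 (.thr 15 45 (.thr 47 63 (.thr 13 14 (.thr 3 41 (.thr 37 49 (.dbl 7 11 52))))))))))))) (.rp 42 (.thr 20 23 (.thr 25 51 (.thr 28 19 (.thr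 60 44 (.thr 16 24 (.thr 31 26 (.thr 30 29 (.thr 15 45 (.thr 13 14 (.thr 3 41 (.thr 37 49 (.dbl 7 11 52)))))))))))) (.rp 25 (.thr 23 20 (.thr 42 46 (.thr 2 62 (.thr 50 18 (.thr 14 26 (.thr 6 10 (.thr 3 9 (.thr 43 63 (.dbl 41 40 60))))))))) .nd))))))))))) (.rp 51 (.str 34 (.nv (.thr 42 46 (.thr 2 62 (.thr 50 18 (.thr 14 26 (.dbl 6 10 54))))) (.nv (.thr 6 54 (.thr 46 42 (.thr 63 29 (.thr 3 9 (.dbl 23 20 43))))) (.rp 54 (.thr 23 20 (.thr 42 46 (.thr 2 62 (.thr 50 18 (.thr 14 26 (.thr 6 10 (.thr 3 9 (.thr 43 63 (.dbl 41 40 60))))))))) (.rp 46 (.thr 6 54 (.thr 20 23 (.thr 3 9 (.thr 60 41 (.thr 28 44 (.thr 16 24 (.thr 26 31 (.thr 50 14 (.dbl 18 2 30))))))))) (.rp 42 (.thr 6 54 (.thr 20 23 (.thr 3 9 (.thr 60 41 (.thr 28 44 (.thr 16 24 (.thr 26 31 (.thr 50 14 (.dbl 18 2 30))))))))) (.rp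 6 (.str 7 (.nv (.thr 23 20 (.thr 39 55 (.dbl 37 36 52))) (.rp 63 (.thr 37 52 (.thr 36 39 (.thr 42 46 (.thr 32 47 (.thr 35 33 (.dbl 44 40 41)))))) (.rp 60 (.thr 37 52 (.thr 36 39 (.thr 53 5 (.thr 46 42 (.thr 63 29 (.dbl 48 24 58)))))) (.rp 59 (.thr 23 20 (.thr 46 42 (.thr 39 55 (.thr 63 29 (.dbl 37 36 52))))) (.rp 55 (.thr 37 52 (.thr 36 39 (.thr 53 5 (.thr 46 42 (.thr 63 29 (.dbl 48 24 58)))))) (.rp 52 (.thr 42 46 (.thr 2 62 (.thr 50 18 (.thr 14 26 (.thr 15 13 (.thr 3 11 (.thr 41 60 (.thr 35 44 (.thr 32 33 (.thr 47 37 (.dbl 43 39 40))))))))))) (.rp 40 (.thr 37 52 (.thr 36 39 (.thr 53 5 (.thr 46 42 (.thr 63 29 (.dbl 48 24 58)))))) (.rp 39 (.thr 23 20 (.thr 46 42 (.thr 63 29 (.thr 3 43 (.thr 15 11 (.thr 47 31 (.thr 44 45 (.dbl 60 28 41)))))))) (.rp 37 (.thr 23 20 (.thr 46 42 (.thr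 63 29 (.thr 3 43 (.thr 15 11 (.thr 47 31 (.thr 44 45 (.dbl 60 28 41)))))))) (.rp 36 (.thr 52 37 (.thr 23 20 (.thr 55 39 (.thr 53 54 (.thr 46 42 (.thr 63 29 (.thr 48 58 (.thr 60 56 (.dbl 3 41 43))))))))) (.rp 23 (.thr 37 52 (.thr 36 39 (.thr 53 5 (.thr 46 42 (.thr 63 29 (.dbl 48 24 58)))))) (.rp 20 (.thr 37 52 (.thr 36 39 (.thr 53 5 (.thr 46 42 (.thr 63 29 (.dbl 48 24 58)))))) .nd))))))))))))) .nd))))))) (.rp 44 (.thr 6 54 (.thr 23 20 (.thr 3 9 (.thr 63 43 (.thr 46 29 (.thr 60 41 (.thr 62 61 (.dbl 42 2 34)))))))) (.rp 41 (.str 46 (.nv (.thr 34 42 (.thr 6 54 (.thr 23 20 (.thr 63 29 (.dbl 3 9 43))))) (.nv (.thr 42 34 (.thr 51 25 (.thr 54 6 (.thr 62 2 (.thr 14 30 (.dbl 50 26 58)))))) (.nv (.thr 6 54 (.thr 63 29 (.thr 3 9 (.dbl 23 20 43)))) (.rp 54 (.thr 20 23 (.thr 29 63 (.thr 34 42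 (.thr 25 51 (.thr 28 19 (.thr 31 30 (.dbl 16 24 26))))))) (.rp 34 (.thr 51 25 (.thr 6 54 (.thr 23 20 (.thr 63 29 (.dbl 3 9 43))))) (.rp 9 (.thr 54 6 (.thr 42 34 (.thr 51 25 (.thr 57 60 (.thr 62 2 (.thr 14 30 (.dbl 50 26 58))))))) (.rp 6 (.thr 20 23 (.thr 29 63 (.thr 34 42 (.thr 25 51 (.thr 28 19 (.thr 31 30 (.dbl 16 24 26))))))) (.rp 3 (.thr 54 6 (.thr 23 20 (.thr 63 29 (.thr 51 25 (.thr 55 59 (.thr 7 39 (.dbl 52 37 53))))))) .nd))))))))) (.rp 25 (.thr 6 54 (.thr 23 20 (.thr 3 9 (.thr 43 63 (.thr 41 60 (.thr 40 42 (.thr 35 44 (.thr 39 47 (.thr 7 55 (.dbl 37 36 52)))))))))) (.rp 6 (.thr 51 25 (.str 7 (.nv (.thr 37 52 (.thr 36 39 (.thr 48 24 (.thr 26 15 (.dbl 50 14 49))))) (.nv (.thr 23 20 (.thr 39 55 (.dbl 37 36 52))) (.rp 52 (.str 36 (.nv (.thr 37 39 (.thr 48 24 (.thr 26 15 (.dbl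 50 14 49)))) (.nv (.thr 23 20 (.dbl 39 37 55)) (.rp 39 (.thr 20 23 (.thr 24 48 (.thr 16 28 (.thr 26 31 (.thr 30 18 (.thr 14 50 (.thr 15 13 (.thr 60 45 (.dbl 3 11 41))))))))) (.rp 37 (.thr 23 20 (.thr 55 39 (.thr 63 59 (.thr 3 43 (.thr 35 19 (.dbl 41 44 60)))))) .nd))))) (.rp 39 (.str 55 (.nv (.thr 23 20 (.thr 63 59 (.thr 3 43 (.thr 35 19 (.dbl 41 44 60))))) (.nv (.thr 37 52 (.thr 53 5 (.thr 63 59 (.thr 48 58 (.thr 50 49 (.dbl 26 14 15)))))) (.nv (.thr 52 37 (.thr 54 53 (.thr 60 57 (.thr 44 28 (.dbl 41 3 35))))) (.rp 52 (.thr 63 59 (.thr 46 29 (.thr 42 34 (.thr 62 2 (.thr 60 61 (.thr 44 28 (.dbl 41 3 35))))))) .nd))))) (.rp 37 (.thr 23 20 (.thr 55 39 (.thr 63 59 (.thr 3 43 (.thr 35 19 (.dbl 41 44 60)))))) (.rp 36 (.thr 23 20 (.thr 52 37 (.thr 55 39 (.thr 54 53 (.thr 60 57 (.thr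 44 28 (.dbl 41 3 35))))))) .nd)))))))) (.rp 3 (.thr 54 6 (.thr 20 23 (.thr 51 25 (.thr 60 57 (.thr 28 44 (.thr 16 24 (.thr 26 31 (.thr 14 50 (.thr 15 13 (.dbl 30 18 45)))))))))) .nd)))))))))))) .nd))))))))))))))))

theorem w32 : WinAt (6291456, 131073) :=
  chF (K := []) kn c32 6291456 131073 17
    [2251816993685505] (by decide +kernel) (by decide +kernel)

/-- A certificate. -/
noncomputable def c33 : Ct := (.str 38 (.nv (.thr 20 23 (.thr 6 54 (.thr 4 55 (.thr 52 36 (.dbl 7 5 37))))) (.rp 55 (.str 12 (.nv (.thr 6 54 (.thr 3 9 (.thr 23 20 (.thr 25 51 (.thr 63 43 (.dbl 29 17 46)))))) (.nv (.thr 20 23 (.thr 25 51 (.thr 28 19 (.thr 16 24 (.thr 31 26 (.dbl 29 17 30)))))) (.nv (.thr 51 25 (.thr 54 6 (.thr 60 57 (.thr 44 28 (.dbl 41 3 35))))) (.rp 51 (.thr 6 54 (.thr 23 20 (.thr 3 9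 (.thr 63 43 (.thr 46 29 (.thr 60 41 (.thr 62 61 (.dbl 42 2 34)))))))) (.rp 25 (.thr 6 54 (.thr 23 20 (.thr 3 9 (.thr 63 43 (.thr 46 29 (.thr 42 34 (.thr 2 62 (.thr 14 10 (.thr 15 13 (.thr 31 47 (.dbl 26 16 50))))))))))) (.rp 3 (.thr 54 6 (.thr 20 23 (.thr 51 25 (.thr 60 57 (.thr 28 44 (.thr 16 24 (.thr 26 31 (.thr 50 14 (.thr 48 49 (.thr 37 15 (.dbl 52 7 56))))))))))) .nd))))))) (.rp 54 (.str 25 (.nv (.thr 19 28 (.thr 23 20 (.thr 51 12 (.thr 3 35 (.thr 63 43 (.dbl 55 4 59)))))) (.nv (.thr 20 23 (.thr 28 19 (.thr 16 24 (.thr 31 26 (.dbl 29 17 30))))) (.rp 28 (.thr 20 23 (.thr 4 55 (.thr 52 36 (.thr 7 37 (.thr 6 5 (.thr 12 51 (.thr 3 9 (.thr 15 11 (.thr 13 14 (.thr 60 41 (.thr 45 30 (.dbl 29 17 61)))))))))))) (.rp 24 (.thr 23 20 (.thr 12 51 (.thr 28 19 (.thr 60 44 (.thr 3 41 (.thr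 63 43 (.dbl 29 17 46))))))) (.rp 23 (.thr 4 55 (.thr 12 51 (.thr 28 19 (.thr 60 44 (.thr 3 41 (.thr 6 9 (.thr 7 5 (.thr 52 37 (.thr 36 20 (.dbl 48 24 56)))))))))) (.rp 20 (.thr 4 55 (.thr 12 51 (.thr 28 19 (.thr 60 44 (.thr 3 41 (.thr 6 9 (.thr 7 5 (.thr 15 11 (.thr 13 14 (.dbl 37 49 52)))))))))) (.rp 19 (.thr 20 23 (.thr 4 55 (.thr 52 36 (.thr 7 37 (.thr 6 5 (.thr 12 51 (.thr 3 9 (.thr 15 11 (.thr 13 14 (.thr 60 41 (.thr 45 30 (.dbl 29 17 61)))))))))))) (.rp 16 (.thr 20 23 (.thr 4 55 (.thr 52 36 (.thr 7 37 (.thr 6 5 (.thr 12 51 (.thr 3 9 (.thr 60 41 (.dbl 28 19 44))))))))) .nd))))))))) (.rp 52 (.str 3 (.nv (.thr 6 54 (.thr 12 9 (.thr 23 20 (.thr 25 51 (.thr 63 43 (.dbl 29 17 46)))))) (.nv (.thr 41 60 (.thr 35 44 (.thr 51 19 (.thr 55 4 (.thr 63 59 (.dbl 23 20 43)))))) (.nv (.thr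 54 6 (.thr 60 41 (.thr 51 57 (.thr 19 35 (.dbl 25 12 28))))) (.rp 60 (.thr 6 54 (.thr 55 4 (.thr 12 9 (.thr 51 25 (.thr 63 59 (.dbl 23 20 43)))))) (.rp 51 (.thr 23 20 (.thr 43 63 (.thr 41 60 (.thr 40 42 (.thr 35 44 (.thr 39 47 (.dbl 55 4 7))))))) (.rp 12 (.thr 23 20 (.thr 54 6 (.thr 63 43 (.thr 60 41 (.thr 51 57 (.dbl 55 4 59)))))) .nd))))))) (.rp 39 (.thr 20 23 (.thr 6 54 (.thr 4 55 (.thr 7 5 (.dbl 52 36 37))))) (.rp 37 (.str 3 (.nv (.thr 4 55 (.thr 6 54 (.thr 5 7 (.thr 9 12 (.thr 1 13 (.dbl 41 60 61)))))) (.nv (.thr 6 54 (.thr 12 9 (.thr 41 60 (.thr 35 44 (.dbl 51 19 25))))) (.rp 60 (.thr 6 54 (.thr 55 4 (.thr 12 9 (.thr 51 25 (.thr 63 59 (.dbl 23 20 43)))))) (.rp 54 (.thr 23 20 (.thr 55 4 (.thr 39 7 (.thr 43 63 (.thr 35 47 (.dbl 41 44 60)))))) (.rp 41 (.thr 23 20 (.thr 6 54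 (.thr 55 4 (.thr 12 9 (.thr 63 43 (.dbl 51 25 59)))))) (.rp 25 (.thr 23 20 (.thr 54 6 (.thr 55 4 (.thr 63 43 (.thr 51 59 (.dbl 60 41 57)))))) (.rp 12 (.thr 23 20 (.thr 54 6 (.thr 63 43 (.thr 60 41 (.thr 51 57 (.dbl 55 4 59)))))) (.rp 9 (.thr 54 6 (.thr 60 41 (.thr 51 57 (.thr 25 12 (.dbl 19 28 35))))) (.rp 6 (.thr 23 20 (.thr 55 4 (.thr 63 43 (.thr 51 59 (.thr 19 35 (.dbl 25 12 28)))))) .nd)))))))))) (.rp 36 (.thr 23 20 (.thr 54 6 (.thr 55 4 (.thr 52 53 (.dbl 7 37 39))))) (.rp 23 (.str 60 (.nv (.thr 54 6 (.thr 51 57 (.thr 55 4 (.thr 63 59 (.thr 61 62 (.dbl 41 1 3)))))) (.nv (.thr 54 6 (.thr 51 57 (.thr 12 25 (.thr 44 28 (.dbl 41 3 35))))) (.rp 57 (.thr 6 54 (.thr 3 41 (.thr 12 9 (.thr 25 51 (.dbl 28 19 44))))) (.rp 54 (.thr 55 4 (.thr 41 3 (.thr 44 35 (.thr 12 28 (.thr 51 25 (.thr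 63 59 (.dbl 61 1 62))))))) (.rp 51 (.thr 6 54 (.thr 4 55 (.thr 7 5 (.thr 52 37 (.thr 36 20 (.thr 48 56 (.thr 12 24 (.dbl 3 9 41)))))))) (.rp 41 (.thr 54 6 (.thr 55 4 (.thr 53 52 (.thr 51 57 (.thr 63 59 (.thr 62 61 (.dbl 58 48 50))))))) (.rp 12 (.thr 54 6 (.thr 57 51 (.thr 41 3 (.thr 9 25 (.thr 1 61 (.thr 5 13 (.thr 37 53 (.thr 52 7 (.thr 48 56 (.thr 15 26 (.dbl 45 30 33))))))))))) (.rp 6 (.thr 55 4 (.thr 41 3 (.thr 44 35 (.thr 12 28 (.thr 51 25 (.thr 63 59 (.dbl 61 1 62))))))) (.rp 3 (.thr 54 6 (.thr 55 4 (.thr 53 52 (.thr 51 57 (.thr 63 59 (.thr 62 61 (.dbl 58 48 50))))))) .nd)))))))))) (.rp 20 (.str 60 (.nv (.thr 54 6 (.thr 51 57 (.thr 55 4 (.thr 63 59 (.thr 61 62 (.dbl 41 1 3)))))) (.nv (.thr 54 6 (.thr 51 57 (.thr 3 41 (.thr 19 35 (.dbl 25 12 28))))) (.rp 57 (.thr 6 54 (.thr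 3 41 (.thr 12 9 (.thr 25 51 (.dbl 28 19 44))))) (.rp 54 (.thr 55 4 (.thr 41 3 (.thr 44 35 (.thr 12 28 (.thr 51 25 (.thr 63 59 (.dbl 61 1 62))))))) (.rp 51 (.thr 6 54 (.thr 4 55 (.thr 7 5 (.thr 3 41 (.thr 15 11 (.thr 30 45 (.thr 12 9 (.thr 28 44 (.thr 29 31 (.dbl 25 17 19)))))))))) (.rp 41 (.thr 54 6 (.thr 55 4 (.thr 51 57 (.thr 63 59 (.thr 62 61 (.thr 58 50 (.dbl 53 48 52))))))) (.rp 12 (.thr 54 6 (.thr 57 51 (.thr 41 3 (.thr 9 25 (.thr 1 61 (.thr 5 13 (.thr 37 53 (.thr 52 7 (.thr 48 56 (.thr 15 26 (.dbl 45 30 33))))))))))) (.rp 6 (.thr 55 4 (.thr 41 3 (.thr 44 35 (.thr 12 28 (.thr 51 25 (.thr 63 59 (.dbl 61 1 62))))))) (.rp 3 (.thr 54 6 (.thr 55 4 (.thr 51 57 (.thr 63 59 (.thr 62 61 (.thr 58 50 (.dbl 53 48 52))))))) .nd)))))))))) (.rp 7 (.str 3 (.nv (.thr 23 20 (.thr 55 4 (.thr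 63 43 (.thr 51 59 (.thr 35 19 (.dbl 41 44 60)))))) (.nv (.thr 6 54 (.thr 12 9 (.thr 23 20 (.thr 55 4 (.thr 63 43 (.dbl 51 25 59)))))) (.nv (.thr 6 54 (.thr 12 9 (.thr 60 41 (.thr 28 44 (.dbl 25 19 51))))) (.rp 60 (.thr 6 54 (.thr 55 4 (.thr 12 9 (.thr 51 25 (.thr 63 59 (.dbl 23 20 43)))))) (.rp 51 (.thr 23 20 (.thr 6 54 (.thr 12 9 (.thr 63 43 (.thr 29 46 (.thr 60 41 (.thr 28 44 (.dbl 25 17 19)))))))) (.rp 12 (.thr 23 20 (.thr 54 6 (.thr 63 43 (.thr 60 41 (.thr 51 57 (.dbl 55 4 59)))))) (.rp 6 (.thr 23 20 (.thr 43 63 (.thr 41 60 (.thr 40 42 (.thr 61 1 (.thr 35 44 (.thr 19 51 (.thr 39 47 (.thr 37 36 (.thr 45 33 (.thr 29 13 (.dbl 25 17 28)))))))))))) .nd)))))))) (.rp 6 (.thr 20 23 (.str 25 (.nv (.thr 4 55 (.thr 12 51 (.thr 36 52 (.thr 24 48 (.dbl 28 16 19))))) (.nv (.thr 28 19 (.thr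 16 24 (.thr 31 26 (.dbl 29 17 30)))) (.rp 28 (.str 1 (.nv (.thr 17 29 (.thr 49 33 (.thr 4 55 (.thr 52 36 (.dbl 37 7 13))))) (.nv (.thr 4 55 (.thr 36 52 (.thr 41 61 (.thr 9 57 (.thr 13 5 (.dbl 37 39 49)))))) (.nv (.thr 4 55 (.thr 29 17 (.thr 36 52 (.thr 61 41 (.thr 13 45 (.dbl 37 39 49)))))) (.nv (.thr 17 29 (.thr 49 33 (.thr 13 37 (.thr 41 61 (.dbl 9 5 57))))) (.rp 49 (.thr 4 55 (.thr 36 52 (.thr 29 17 (.thr 61 41 (.thr 13 45 (.thr 5 9 (.dbl 37 39 53))))))) (.rp 37 (.thr 4 55 (.thr 52 36 (.thr 51 12 (.thr 17 29 (.thr 49 33 (.thr 48 50 (.thr 60 56 (.dbl 41 3 61)))))))) (.rp 13 (.thr 4 55 (.thr 36 52 (.thr 17 29 (.thr 49 33 (.thr 61 41 (.thr 53 57 (.dbl 37 5 39))))))) .nd)))))))) (.rp 24 (.thr 4 55 (.thr 51 12 (.thr 19 28 (.thr 3 35 (.thr 60 41 (.thr 52 36 (.thr 48 56 (.thr 49 50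 (.dbl 37 7 13))))))))) (.rp 19 (.thr 4 55 (.thr 36 52 (.thr 12 51 (.thr 24 48 (.thr 16 28 (.dbl 26 27 31)))))) (.rp 17 (.thr 4 55 (.thr 52 36 (.thr 51 12 (.thr 19 28 (.thr 3 35 (.thr 60 41 (.thr 48 56 (.thr 49 50 (.dbl 37 7 13))))))))) (.rp 16 (.thr 4 55 (.thr 52 36 (.thr 51 12 (.thr 19 28 (.thr 3 35 (.thr 60 41 (.thr 48 56 (.thr 49 50 (.dbl 37 7 13))))))))) .nd))))))))) (.rp 5 (.thr 23 20 (.thr 54 6 (.thr 55 4 (.thr 7 39 (.dbl 52 37 53))))) (.rp 4 (.str 12 (.nv (.thr 6 54 (.thr 3 9 (.thr 23 20 (.thr 25 51 (.thr 63 43 (.dbl 29 17 46)))))) (.nv (.thr 20 23 (.thr 25 51 (.thr 28 19 (.thr 16 24 (.thr 31 26 (.dbl 29 17 30)))))) (.nv (.thr 6 54 (.thr 3 9 (.thr 60 41 (.thr 28 44 (.dbl 25 19 51))))) (.rp 51 (.thr 6 54 (.thr 23 20 (.thr 3 9 (.thr 63 43 (.thr 46 29 (.thr 60 41 (.thr 62 61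 (.dbl 42 2 34)))))))) (.rp 25 (.thr 6 54 (.thr 23 20 (.thr 3 9 (.thr 43 63 (.thr 41 60 (.thr 40 42 (.thr 35 44 (.thr 39 47 (.thr 7 55 (.dbl 37 36 52)))))))))) (.rp 3 (.thr 54 6 (.thr 20 23 (.thr 51 25 (.thr 60 57 (.thr 28 44 (.thr 24 16 (.thr 48 36 (.thr 52 56 (.thr 53 55 (.dbl 37 5 7)))))))))) .nd))))))) .nd))))))))))))))

theorem w33 : WinAt (6291456, 262145) :=
  chF (K := []) kn c33 6291456 262145 18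
    [] (by decide +kernel) (by decide +kernel)

/-- A certificate. -/
noncomputable def c34 : Ct := (.str 7 (.nv (.thr 20 23 (.thr 52 37 (.thr 4 36 (.thr 38 55 (.dbl 6 5 54))))) (.nv (.thr 37 52 (.thr 5 53 (.thr 4 6 (.thr 55 38 (.dbl 23 20 39))))) (.rp 55 (.str 3 (.nv (.thr 15 11 (.thr 23 20 (.thr 60 41 (.thr 30 45 (.thr 26 18 (.thr 63 43 (.dbl 31 16 47))))))) (.nv (.thr 15 11 (.thr 23 20 (.thr 37 52 (.thr 53 5 (.thr 63 43 (.dbl 48 26 58)))))) (.nv (.thr 15 11 (.thr 37 52 (.thr 60 41 (.thr 30 45 (.dbl 26 18 48))))) (.rp 60 (.thr 37 52 (.thr 53 5 (.thr 15 11 (.thr 48 26 (.thr 63 58 (.dbl 23 20 43)))))) (.rp 37 (.thr 23 20 (.thr 15 11 (.thr 63 43 (.thr 31 47 (.thr 26 16 (.thr 60 41 (.dbl 30 18 45))))))) (.rp 26 (.thr 23 20 (.thr 37 52 (.thr 53 5 (.thr 63 43 (.thr 48 58 (.thr 33 18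 (.dbl 41 45 60))))))) (.rp 15 (.thr 37 52 (.thr 41 60 (.thr 61 1 (.thr 45 33 (.thr 13 29 (.thr 49 25 (.dbl 53 5 57))))))) (.rp 11 (.thr 23 20 (.thr 37 52 (.thr 53 5 (.thr 63 43 (.thr 48 58 (.thr 18 33 (.dbl 26 15 30))))))) .nd))))))))) (.rp 54 (.thr 23 20 (.thr 55 39 (.thr 4 38 (.thr 5 6 (.dbl 37 52 53))))) (.rp 52 (.str 38 (.nv (.thr 23 20 (.dbl 55 4 39)) (.nv (.thr 6 54 (.dbl 4 5 55)) (.rp 55 (.thr 54 6 (.str 60 (.nv (.thr 51 57 (.thr 12 25 (.thr 44 28 (.dbl 41 3 35)))) (.rp 57 (.thr 23 20 (.thr 3 41 (.thr 15 11 (.thr 30 45 (.thr 26 18 (.thr 63 43 (.dbl 31 16 47))))))) (.rp 51 (.thr 23 20 (.thr 3 41 (.thr 15 11 (.thr 30 45 (.thr 26 18 (.thr 63 43 (.dbl 31 16 47))))))) (.rp 44 (.thr 23 20 (.thr 3 41 (.thr 15 11 (.thr 30 45 (.thr 26 18 (.thr 63 43 (.dbl 31 16 47))))))) (.rp 41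 (.str 30 (.nv (.thr 15 45 (.thr 26 18 (.thr 14 50 (.thr 51 57 (.dbl 12 13 25))))) (.nv (.thr 15 45 (.thr 3 11 (.thr 23 20 (.thr 63 43 (.thr 62 61 (.thr 14 46 (.dbl 50 26 58))))))) (.nv (.thr 51 57 (.thr 25 12 (.thr 29 17 (.thr 31 28 (.dbl 26 16 18))))) (.rp 26 (.thr 23 20 (.thr 15 45 (.thr 51 57 (.thr 25 12 (.thr 29 17 (.thr 31 28 (.thr 63 47 (.dbl 3 11 43)))))))) .nd))))) (.rp 35 (.thr 23 20 (.thr 3 41 (.thr 15 11 (.thr 30 45 (.thr 26 18 (.thr 63 43 (.dbl 31 16 47))))))) (.rp 28 (.thr 23 20 (.thr 3 41 (.thr 15 11 (.thr 30 45 (.thr 26 18 (.thr 63 43 (.dbl 31 16 47))))))) (.rp 25 (.thr 23 20 (.thr 3 41 (.thr 15 11 (.thr 30 45 (.thr 26 18 (.thr 63 43 (.dbl 31 16 47))))))) (.rp 12 (.thr 23 20 (.thr 3 41 (.thr 15 11 (.thr 30 45 (.thr 26 18 (.thr 63 43 (.dbl 31 16 47))))))) (.rp 9 (.thr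 51 57 (.thr 12 25 (.thr 41 3 (.dbl 44 28 35)))) (.rp 3 (.thr 20 23 (.thr 51 57 (.thr 12 25 (.thr 28 44 (.thr 24 16 (.thr 48 36 (.thr 50 49 (.thr 14 26 (.thr 62 58 (.thr 30 46 (.dbl 15 13 45))))))))))) .nd))))))))))))) (.rp 4 (.str 12 (.nv (.thr 20 23 (.thr 51 25 (.thr 54 6 (.thr 60 57 (.thr 41 3 (.dbl 44 28 35)))))) (.nv (.thr 6 54 (.thr 3 9 (.thr 15 11 (.thr 14 13 (.thr 26 50 (.thr 18 30 (.dbl 48 33 37))))))) (.nv (.thr 54 6 (.thr 51 25 (.thr 60 57 (.thr 44 28 (.dbl 41 3 35))))) (.rp 54 (.str 37 (.nv (.thr 23 20 (.thr 36 39 (.thr 48 24 (.thr 53 5 (.thr 63 58 (.thr 3 43 (.dbl 15 11 26))))))) (.nv (.thr 20 23 (.thr 25 51 (.thr 17 29 (.thr 49 13 (.thr 1 33 (.thr 61 41 (.dbl 53 5 57))))))) (.nv (.thr 36 39 (.thr 48 24 (.thr 15 26 (.thr 13 14 (.dbl 25 49 51))))) (.rp 55 (.thr 53 5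 (.thr 36 39 (.thr 48 24 (.thr 63 58 (.thr 29 46 (.dbl 25 17 51)))))) (.rp 53 (.str 55 (.nv (.dbl 39 23 36) (.rp 39 (.thr 25 51 (.thr 13 49 (.thr 15 14 (.thr 3 11 (.thr 9 6 (.dbl 41 57 60)))))) (.rp 36 (.thr 20 23 (.thr 25 51 (.thr 13 49 (.thr 15 14 (.thr 3 11 (.thr 9 6 (.dbl 41 57 60))))))) (.rp 23 (.thr 36 39 (.thr 48 24 (.thr 15 26 (.thr 13 14 (.dbl 25 49 51))))) (.rp 20 (.thr 36 39 (.thr 48 24 (.thr 15 26 (.thr 13 14 (.dbl 25 49 51))))) .nd)))))) .nd)))))) (.rp 20 (.str 36 (.nv (.thr 37 39 (.thr 48 24 (.thr 15 26 (.thr 13 14 (.dbl 25 49 51))))) (.nv (.thr 6 54 (.thr 3 9 (.thr 15 11 (.thr 37 39 (.dbl 48 24 26))))) (.nv (.thr 51 25 (.thr 54 6 (.thr 60 57 (.thr 41 3 (.dbl 44 28 35))))) (.rp 60 (.str 40 (.nv (.thr 6 54 (.thr 3 9 (.thr 15 11 (.thr 14 13 (.thr 48 24 (.thr 50 26 (.dbl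 51 25 49))))))) (.nv (.thr 6 54 (.thr 3 9 (.thr 15 11 (.thr 39 37 (.dbl 51 25 27))))) (.nv (.thr 6 54 (.thr 3 9 (.thr 15 11 (.thr 37 39 (.dbl 48 24 26))))) (.nv (.thr 48 24 (.thr 37 39 (.thr 15 26 (.thr 13 14 (.dbl 25 49 51))))) (.rp 51 (.thr 37 39 (.thr 48 24 (.thr 15 26 (.thr 3 11 (.dbl 6 9 54))))) (.rp 48 (.str 56 (.nv (.thr 8 24 (.thr 25 51 (.thr 42 59 (.thr 41 43 (.dbl 44 32 35))))) (.nv (.thr 6 54 (.thr 3 9 (.thr 39 37 (.thr 51 25 (.dbl 15 11 27))))) (.nv (.thr 8 24 (.thr 32 44 (.thr 37 39 (.thr 42 47 (.dbl 25 51 59))))) (.rp 51 (.thr 54 6 (.thr 37 39 (.thr 8 24 (.thr 32 44 (.thr 42 47 (.thr 59 25 (.thr 58 57 (.dbl 62 2 50)))))))) (.rp 32 (.str 16 (.nv (.thr 6 54 (.thr 3 9 (.thr 11 15 (.dbl 26 31 41)))) (.nv (.thr 6 54 (.thr 3 9 (.thr 51 25 (.thr 39 37 (.dbl 15 11 27)))))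 (.nv (.thr 24 8 (.thr 26 31 (.dbl 25 27 51))) (.rp 51 (.thr 26 31 (.thr 11 41 (.thr 3 15 (.dbl 6 9 54)))) .nd))))) (.rp 25 (.thr 6 54 (.thr 37 39 (.thr 3 9 (.thr 11 15 (.thr 41 26 (.dbl 44 32 35)))))) (.rp 16 (.thr 32 44 (.thr 37 39 (.thr 42 47 (.thr 25 51 (.dbl 8 24 59))))) .nd)))))))) (.rp 15 (.thr 6 54 (.thr 37 39 (.thr 44 32 (.thr 48 24 (.thr 3 9 (.thr 33 18 (.dbl 41 35 45))))))) .nd)))))))) (.rp 40 (.str 60 (.nv (.thr 44 28 (.dbl 41 3 35)) (.nv (.thr 54 6 (.dbl 51 25 57)) .nd))) .nd)))))) (.rp 6 (.str 36 (.nv (.thr 39 37 (.dbl 23 20 55)) (.rp 55 (.thr 37 39 (.thr 48 24 (.thr 15 26 (.thr 13 14 (.dbl 25 49 51))))) (.rp 39 (.thr 20 23 (.thr 24 48 (.thr 16 28 (.thr 25 51 (.dbl 26 27 31))))) (.rp 37 (.thr 20 23 (.thr 24 48 (.thr 16 28 (.thr 25 51 (.dbl 26 27 31))))) (.rp 23 (.thr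 37 39 (.thr 48 24 (.thr 15 26 (.thr 13 14 (.dbl 25 49 51))))) (.rp 20 (.thr 37 39 (.thr 48 24 (.thr 15 26 (.thr 13 14 (.dbl 25 49 51))))) .nd))))))) (.rp 3 (.thr 54 6 (.thr 20 23 (.thr 51 25 (.thr 60 57 (.thr 28 44 (.thr 24 16 (.thr 48 36 (.thr 50 49 (.thr 62 58 (.thr 2 42 (.thr 18 34 (.dbl 26 14 30)))))))))))) .nd)))))))) .nd))))) (.rp 38 (.str 3 (.nv (.thr 15 11 (.thr 23 20 (.thr 60 41 (.thr 30 45 (.thr 26 18 (.thr 63 43 (.dbl 31 16 47))))))) (.nv (.thr 15 11 (.thr 37 52 (.thr 26 48 (.thr 60 41 (.dbl 30 18 45))))) (.nv (.thr 37 52 (.thr 5 53 (.thr 6 4 (.thr 41 60 (.thr 1 61 (.dbl 9 12 13)))))) (.nv (.thr 15 11 (.thr 37 52 (.thr 41 60 (.thr 33 45 (.dbl 48 18 26))))) (.rp 60 (.thr 37 52 (.thr 53 5 (.thr 15 11 (.thr 48 26 (.thr 63 58 (.dbl 23 20 43)))))) (.rp 41 (.thr 23 20 (.thr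 37 52 (.thr 53 5 (.thr 15 11 (.thr 63 43 (.dbl 48 26 58)))))) (.rp 37 (.thr 23 20 (.thr 15 11 (.thr 63 43 (.thr 31 47 (.thr 26 16 (.thr 60 41 (.dbl 30 18 45))))))) .nd)))))))) (.rp 37 (.thr 23 20 (.str 60 (.nv (.thr 41 3 (.thr 55 39 (.thr 38 4 (.thr 54 6 (.thr 51 57 (.thr 12 25 (.dbl 44 28 35))))))) (.nv (.thr 3 41 (.thr 15 11 (.thr 63 43 (.thr 31 47 (.thr 26 16 (.dbl 30 18 45)))))) (.nv (.thr 55 39 (.thr 38 4 (.thr 54 6 (.thr 51 57 (.thr 63 59 (.dbl 3 41 43)))))) (.rp 41 (.thr 55 39 (.thr 38 4 (.thr 54 6 (.thr 51 57 (.thr 63 59 (.thr 62 61 (.thr 58 50 (.dbl 53 48 52)))))))) (.rp 39 (.thr 3 41 (.thr 15 11 (.thr 45 30 (.thr 63 43 (.thr 61 62 (.thr 47 31 (.thr 29 13 (.dbl 46 12 44)))))))) (.rp 3 (.thr 55 39 (.thr 38 4 (.thr 54 6 (.thr 51 57 (.thr 63 59 (.thr 62 61 (.thr 58 50 (.dbl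 53 48 52)))))))) .nd)))))))) (.rp 23 (.thr 37 52 (.thr 5 53 (.thr 4 6 (.thr 55 38 (.str 41 (.nv (.thr 1 61 (.thr 13 9 (.thr 33 45 (.dbl 49 17 25)))) (.nv (.thr 3 60 (.thr 15 11 (.thr 33 45 (.dbl 48 18 26)))) (.rp 45 (.thr 3 60 (.thr 15 11 (.thr 1 61 (.thr 13 9 (.thr 49 25 (.thr 33 17 (.dbl 48 18 26))))))) (.rp 33 (.thr 3 60 (.thr 11 15 (.thr 56 26 (.thr 1 61 (.thr 9 13 (.thr 8 10 (.thr 40 24 (.thr 42 43 (.dbl 25 57 59))))))))) (.rp 31 (.str 27 (.nv (.thr 1 61 (.thr 13 9 (.thr 33 45 (.dbl 49 17 25)))) (.nv (.thr 3 60 (.thr 15 11 (.thr 33 45 (.dbl 48 18 26)))) (.rp 45 (.thr 3 60 (.thr 15 11 (.thr 51 39 (.thr 1 61 (.thr 13 9 (.thr 49 25 (.dbl 48 26 50))))))) (.rp 33 (.thr 3 60 (.thr 15 11 (.thr 51 39 (.thr 1 61 (.thr 13 9 (.thr 49 25 (.dbl 48 26 50))))))) (.rp 3 (.thr 1 61 (.thr 33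 45 (.thr 49 17 (.dbl 13 9 25)))) .nd)))))) (.rp 27 (.str 31 (.nv (.thr 1 61 (.thr 13 9 (.thr 33 45 (.dbl 49 17 25)))) (.nv (.thr 26 16 (.thr 11 56 (.dbl 15 3 48))) (.rp 17 (.thr 3 60 (.thr 15 11 (.dbl 26 16 48))) (.rp 3 (.thr 1 61 (.thr 33 45 (.thr 49 17 (.dbl 13 9 25)))) .nd))))) (.rp 3 (.thr 1 61 (.thr 33 45 (.thr 49 17 (.dbl 13 9 25)))) .nd)))))))))))) (.rp 20 (.str 6 (.nv (.thr 5 4 (.dbl 37 52 53)) (.nv (.thr 38 54 (.dbl 4 5 55)) (.rp 60 (.str 40 (.nv (.thr 5 4 (.dbl 37 52 53)) (.nv (.thr 4 5 (.dbl 38 54 55)) (.rp 5 (.thr 38 54 (.thr 55 4 (.thr 39 23 (.dbl 37 36 52)))) (.rp 4 (.thr 38 54 (.thr 37 52 (.thr 36 39 (.thr 32 44 (.thr 42 47 (.thr 2 62 (.thr 14 10 (.thr 50 26 (.dbl 34 18 46))))))))) .nd))))) (.rp 40 (.str 60 (.nv (.thr 5 4 (.dbl 37 52 53)) (.nv (.thr 38 54 (.dbl 4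 5 55)) (.rp 5 (.thr 38 54 (.thr 55 4 (.thr 39 23 (.dbl 37 36 52)))) (.rp 4 (.thr 3 41 (.thr 15 11 (.thr 30 45 (.thr 26 18 (.dbl 37 48 52))))) .nd))))) (.rp 5 (.thr 38 54 (.thr 55 4 (.thr 39 23 (.dbl 37 36 52)))) (.rp 4 (.thr 52 37 (.str 60 (.nv (.thr 3 41 (.thr 15 11 (.thr 54 38 (.thr 51 57 (.thr 39 27 (.dbl 55 23 53)))))) (.nv (.thr 3 41 (.thr 12 9 (.thr 15 11 (.thr 14 13 (.thr 38 54 (.thr 26 50 (.dbl 30 18 45))))))) (.nv (.thr 54 38 (.thr 53 55 (.thr 48 56 (.thr 51 57 (.thr 58 63 (.dbl 50 49 62)))))) (.rp 57 (.thr 38 54 (.thr 48 56 (.thr 3 41 (.thr 12 9 (.thr 25 51 (.thr 24 36 (.thr 26 27 (.dbl 18 30 33)))))))) (.rp 56 (.thr 54 38 (.thr 53 55 (.thr 57 51 (.thr 61 49 (.dbl 41 1 3))))) (.rp 54 (.thr 3 41 (.thr 15 11 (.thr 45 30 (.thr 12 9 (.thr 13 14 (.thr 44 28 (.thr 29 61 (.dbl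 46 47 63)))))))) (.rp 38 (.thr 3 41 (.thr 15 11 (.thr 45 30 (.thr 12 9 (.thr 13 14 (.thr 44 28 (.thr 29 61 (.dbl 46 47 63)))))))) (.rp 12 (.str 8 (.nv (.thr 3 41 (.thr 54 38 (.thr 51 57 (.thr 55 53 (.thr 39 23 (.dbl 15 11 27)))))) (.nv (.thr 41 3 (.thr 56 48 (.thr 24 40 (.thr 26 11 (.thr 25 27 (.thr 57 9 (.dbl 59 42 58))))))) (.nv (.thr 54 38 (.thr 53 55 (.thr 48 56 (.thr 63 58 (.thr 61 62 (.dbl 57 49 51)))))) (.rp 57 (.thr 38 54 (.thr 56 48 (.thr 41 3 (.thr 26 11 (.thr 14 50 (.thr 2 10 (.thr 62 42 (.dbl 30 18 46)))))))) (.rp 51 (.thr 38 54 (.thr 48 56 (.thr 3 41 (.thr 11 15 (.thr 10 9 (.thr 14 2 (.thr 26 50 (.dbl 18 30 33)))))))) (.rp 25 (.thr 54 38 (.thr 51 57 (.thr 53 55 (.thr 48 56 (.thr 58 63 (.dbl 50 49 62)))))) .nd))))))) (.rp 8 (.str 12 (.nv (.dbl 3 9 41) (.rp 41 (.thr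 54 38 (.thr 53 55 (.thr 48 56 (.thr 63 58 (.thr 61 62 (.dbl 57 49 51)))))) (.rp 9 (.thr 38 54 (.thr 44 28 (.dbl 41 3 35))) (.rp 3 (.thr 54 38 (.thr 53 55 (.thr 48 56 (.thr 63 58 (.thr 61 62 (.dbl 57 49 51)))))) .nd))))) .nd))))))))))) .nd))))))) (.rp 6 (.str 3 (.nv (.thr 15 11 (.thr 23 20 (.thr 60 41 (.thr 30 45 (.thr 26 18 (.thr 63 43 (.dbl 31 16 47))))))) (.nv (.thr 15 11 (.thr 23 20 (.thr 37 52 (.thr 53 5 (.thr 63 43 (.dbl 48 26 58)))))) (.nv (.thr 15 11 (.thr 37 52 (.thr 60 41 (.thr 30 45 (.dbl 26 18 48))))) (.rp 60 (.thr 37 52 (.thr 53 5 (.thr 15 11 (.thr 48 26 (.thr 63 58 (.dbl 23 20 43)))))) (.rp 37 (.thr 23 20 (.thr 15 11 (.thr 63 43 (.thr 31 47 (.thr 26 16 (.thr 60 41 (.dbl 30 18 45))))))) (.rp 26 (.thr 23 20 (.thr 55 39 (.thr 52 37 (.thr 54 53 (.thr 63 43 (.thr 51 59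 (.dbl 60 41 57))))))) (.rp 15 (.thr 23 20 (.thr 55 39 (.thr 52 37 (.thr 54 53 (.thr 63 43 (.thr 51 59 (.dbl 60 41 57))))))) (.rp 11 (.thr 23 20 (.thr 55 39 (.thr 52 37 (.thr 54 53 (.thr 63 43 (.thr 60 41 (.dbl 51 57 59))))))) .nd))))))))) (.rp 5 (.thr 23 20 (.thr 55 39 (.thr 38 4 (.thr 54 6 (.dbl 52 37 53))))) (.rp 4 (.str 3 (.nv (.thr 15 11 (.thr 60 41 (.thr 30 45 (.thr 26 18 (.dbl 37 48 52))))) (.nv (.thr 15 11 (.thr 37 52 (.thr 48 26 (.thr 53 5 (.thr 63 58 (.dbl 23 20 43)))))) (.nv (.thr 15 11 (.thr 37 52 (.thr 41 60 (.thr 48 26 (.dbl 33 18 45))))) (.rp 52 (.str 12 (.nv (.thr 6 9 (.thr 15 11 (.thr 14 13 (.thr 38 54 (.thr 26 50 (.thr 18 30 (.dbl 48 33 37))))))) (.nv (.thr 15 11 (.thr 60 41 (.thr 28 44 (.thr 30 45 (.thr 26 18 (.dbl 31 16 29)))))) (.nv (.thr 9 6 (.thr 41 60 (.thr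 25 57 (.thr 29 17 (.thr 63 46 (.dbl 23 20 43)))))) (.nv (.thr 9 6 (.thr 15 11 (.thr 13 14 (.thr 1 5 (.dbl 41 60 61))))) (.rp 36 (.thr 20 23 (.thr 9 6 (.thr 15 11 (.thr 13 14 (.thr 1 5 (.dbl 41 60 61)))))) (.rp 20 (.str 36 (.nv (.thr 6 9 (.thr 38 54 (.thr 37 39 (.thr 48 24 (.thr 33 18 (.dbl 41 45 60)))))) (.nv (.thr 9 6 (.thr 15 11 (.thr 13 14 (.thr 1 5 (.dbl 41 60 61))))) (.nv (.thr 15 11 (.thr 48 24 (.thr 18 33 (.dbl 26 30 37)))) (.rp 60 (.str 40 (.nv (.thr 6 9 (.thr 15 11 (.thr 38 54 (.thr 39 37 (.dbl 51 25 27))))) (.nv (.thr 48 24 (.thr 15 11 (.thr 18 33 (.dbl 26 30 37)))) (.rp 48 (.str 56 (.nv (.thr 6 9 (.thr 38 54 (.thr 39 37 (.thr 51 25 (.dbl 15 11 27))))) (.nv (.thr 8 24 (.thr 9 6 (.dbl 11 10 15))) (.rp 32 (.str 16 (.nv (.thr 8 24 (.thr 9 6 (.dbl 11 10 15))) (.nv (.thr 26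 31 (.dbl 11 15 41)) (.rp 15 (.thr 8 24 (.thr 9 6 (.thr 26 31 (.dbl 11 10 41)))) (.rp 11 (.thr 6 9 (.thr 38 54 (.thr 37 39 (.thr 26 31 (.thr 14 50 (.thr 13 15 (.dbl 25 49 51))))))) .nd))))) (.rp 16 (.thr 32 44 (.thr 9 6 (.thr 11 15 (.dbl 8 10 24)))) (.rp 15 (.thr 8 24 (.thr 6 9 (.thr 38 54 (.thr 37 39 (.thr 32 44 (.thr 42 47 (.dbl 25 51 59))))))) (.rp 11 (.thr 8 24 (.thr 6 9 (.thr 38 54 (.thr 37 39 (.thr 32 44 (.thr 42 47 (.dbl 25 51 59))))))) (.rp 9 (.thr 24 8 (.thr 11 15 (.thr 26 41 (.thr 25 27 (.thr 51 38 (.thr 29 17 (.thr 63 46 (.thr 23 43 (.dbl 55 39 59))))))))) (.rp 6 (.thr 8 24 (.thr 32 44 (.thr 11 15 (.thr 10 9 (.thr 26 41 (.thr 42 58 (.thr 25 59 (.thr 38 51 (.dbl 37 39 47))))))))) .nd))))))))) (.rp 37 (.thr 6 9 (.thr 15 11 (.thr 14 13 (.thr 48 24 (.thr 18 33 (.thr 26 30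 (.dbl 38 50 54))))))) (.rp 15 (.thr 6 9 (.thr 44 32 (.thr 48 24 (.thr 33 18 (.thr 38 54 (.thr 41 35 (.dbl 37 39 45))))))) (.rp 11 (.thr 6 9 (.thr 48 24 (.thr 18 33 (.thr 26 30 (.thr 38 54 (.dbl 37 15 39)))))) .nd))))))) (.rp 40 (.thr 60 41 (.thr 15 11 (.thr 48 24 (.thr 18 33 (.dbl 26 30 37))))) .nd)))))) .nd))))))) (.rp 48 (.thr 23 20 (.thr 55 39 (.thr 52 37 (.thr 54 53 (.thr 63 43 (.thr 51 59 (.dbl 60 41 57))))))) (.rp 41 (.thr 23 20 (.thr 15 11 (.thr 63 43 (.thr 31 47 (.thr 26 16 (.dbl 37 48 52)))))) (.rp 37 (.thr 23 20 (.thr 15 11 (.thr 63 43 (.thr 31 47 (.thr 26 16 (.thr 60 41 (.dbl 30 18 45))))))) (.rp 26 (.thr 23 20 (.thr 55 39 (.thr 52 37 (.thr 54 53 (.thr 63 43 (.thr 51 59 (.dbl 60 41 57))))))) (.rp 15 (.thr 23 20 (.thr 55 39 (.thr 52 37 (.thr 54 53 (.thr 63 43 (.thr 51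 59 (.dbl 60 41 57))))))) (.rp 12 (.str 8 (.nv (.thr 15 11 (.thr 60 41 (.thr 30 45 (.thr 26 18 (.dbl 37 48 52))))) (.nv (.thr 11 15 (.thr 23 20 (.thr 43 63 (.thr 59 27 (.thr 42 25 (.dbl 41 40 60)))))) (.nv (.thr 15 11 (.thr 37 52 (.thr 60 41 (.thr 30 45 (.dbl 26 18 48))))) (.rp 60 (.thr 15 11 (.thr 37 52 (.thr 48 26 (.thr 53 5 (.thr 63 58 (.dbl 23 20 43)))))) (.rp 52 (.thr 11 15 (.thr 41 60 (.thr 56 26 (.thr 40 24 (.thr 43 42 (.dbl 23 20 63)))))) (.rp 41 (.thr 15 11 (.thr 23 20 (.thr 63 43 (.thr 31 47 (.thr 26 16 (.dbl 37 48 52)))))) (.rp 26 (.thr 11 15 (.thr 37 52 (.thr 9 10 (.thr 5 53 (.thr 41 60 (.dbl 1 13 61)))))) (.rp 15 (.thr 23 20 (.thr 52 37 (.thr 55 39 (.thr 53 54 (.thr 60 41 (.thr 48 56 (.dbl 63 43 58))))))) (.rp 11 (.thr 23 20 (.thr 52 37 (.thr 55 39 (.thr 53 54 (.thr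 60 41 (.thr 63 43 (.dbl 48 56 58))))))) .nd)))))))))) (.rp 11 (.thr 23 20 (.thr 55 39 (.thr 52 37 (.thr 54 53 (.thr 63 43 (.thr 60 41 (.dbl 51 57 59))))))) (.rp 8 (.str 12 (.nv (.thr 37 52 (.thr 41 60 (.thr 33 45 (.thr 48 18 (.dbl 15 11 26))))) (.nv (.thr 23 20 (.thr 52 37 (.thr 55 39 (.thr 54 53 (.dbl 6 9 38))))) (.nv (.thr 9 6 (.thr 15 11 (.thr 13 14 (.thr 1 5 (.dbl 41 60 61))))) (.rp 60 (.thr 6 9 (.thr 52 37 (.thr 54 38 (.thr 55 53 (.dbl 23 20 39))))) .nd))))) .nd))))))))))))) .nd)))))))))))))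

theorem w34 : WinAt (6291456, 524289) :=
  chF (K := []) kn c34 6291456 524289 19
    [] (by decide +kernel) (by decide +kernel)

end Pool.Agent.TTT.B43
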