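import Pool.Agent.TTT.B43

/-!
Certified forced wins in positions of the 4 x 4 x 4 board.
-/

set_option autoImplicit false
set_option maxRecDepth 1000000
set_option linter.all false

namespace Pool.Agent.TTT.B43

/-- A certificate. -/
noncomputable def c35 : Ct := (.str 60 (.rp 63 (.str 30 (.nv (.thr 15 45 (.thr 26 18 (.thr 41 3 (.thr 48 37 (.dbl 56 11 52))))) (.nv (.thr 26 18 (.thr 15 45 (.thr 3 41 (.thr 7 11 (.dbl 37 48 52))))) (.rp 52 (.thr 26 18 (.thr 31 16 (.thr 28 29 (.thr 19 25 (.thr 27 23 (.thr 15 45 (.thr 51 39 (.dbl 3 35 41)))))))) (.rp 48 (.thr 26 18 (.thr 45 15 (.thr 41 3 (.thr 33 37 (.thr 1 61 (.thr 17 49 (.thr 25 29 (.thr 28 19 (.thr 12 44 (.thr 51 38 (.dbl 57 9 54))))))))))) (.rp 45 (.thr 26 18 (.thr 31 16 (.thr 28 29 (.thr 12 44 (.thr 3 41 (.thr 6 9 (.thr 38 54 (.dbl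 25 19 51)))))))) (.rp 41 (.thr 26 18 (.thr 15 45 (.thr 37 48 (.thr 52 7 (.thr 53 5 (.thr 54 55 (.thr 51 57 (.thr 39 27 (.dbl 38 6 36))))))))) (.rp 37 (.thr 26 18 (.thr 31 16 (.thr 28 29 (.thr 19 25 (.thr 27 23 (.thr 15 45 (.thr 51 39 (.dbl 3 35 41)))))))) (.rp 26 (.thr 45 15 (.thr 41 3 (.thr 1 61 (.thr 37 33 (.thr 7 52 (.thr 5 53 (.thr 9 13 (.thr 57 25 (.thr 54 51 (.dbl 6 4 38)))))))))) (.rp 18 (.thr 45 15 (.thr 41 3 (.thr 1 61 (.thr 33 37 (.thr 17 49 (.thr 25 29 (.thr 28 19 (.thr 12 44 (.thr 51 38 (.dbl 57 9 54)))))))))) (.rp 15 (.thr 26 18 (.thr 31 16 (.thr 28 29 (.thr 12 44 (.thr 3 41 (.thr 6 9 (.thr 38 54 (.dbl 25 19 51)))))))) (.rp 11 (.thr 26 18 (.thr 31 16 (.thr 28 29 (.thr 19 25 (.thr 27 23 (.thr 15 45 (.thr 51 39 (.dbl 3 35 41)))))))) (.rp 3 (.thr 26 18 (.thr 31 16 (.thr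 28 29 (.thr 12 44 (.thr 15 45 (.thr 48 37 (.thr 24 36 (.dbl 25 19 27)))))))) .nd))))))))))))) (.rp 62 (.str 30 (.nv (.thr 15 45 (.thr 26 18 (.thr 41 3 (.thr 48 37 (.dbl 56 11 52))))) (.nv (.thr 26 18 (.thr 15 45 (.thr 3 41 (.thr 7 11 (.dbl 37 48 52))))) (.rp 52 (.thr 26 18 (.thr 31 16 (.thr 28 29 (.thr 19 25 (.thr 23 27 (.thr 15 45 (.thr 63 47 (.dbl 3 41 43)))))))) (.rp 48 (.thr 18 26 (.thr 41 3 (.thr 45 15 (.thr 37 33 (.thr 7 52 (.thr 5 53 (.thr 1 61 (.thr 9 13 (.thr 57 25 (.thr 54 51 (.dbl 6 4 38))))))))))) (.rp 45 (.thr 26 18 (.thr 31 16 (.thr 28 29 (.thr 12 44 (.thr 3 41 (.thr 6 9 (.thr 38 54 (.dbl 25 19 51)))))))) (.rp 41 (.thr 26 18 (.thr 15 45 (.thr 37 48 (.thr 52 7 (.thr 53 5 (.thr 54 55 (.thr 51 57 (.thr 39 27 (.dbl 38 6 36))))))))) (.rp 37 (.thr 26 18 (.thr 31 16 (.thr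 28 29 (.thr 19 25 (.thr 23 27 (.thr 15 45 (.thr 63 47 (.dbl 3 41 43)))))))) (.rp 26 (.thr 45 15 (.thr 41 3 (.thr 1 61 (.thr 37 33 (.thr 7 52 (.thr 5 53 (.thr 9 13 (.thr 57 25 (.thr 54 51 (.dbl 6 4 38)))))))))) (.rp 18 (.thr 45 15 (.thr 41 3 (.thr 1 61 (.thr 33 37 (.thr 17 49 (.thr 25 29 (.thr 28 19 (.thr 12 44 (.thr 51 38 (.dbl 57 9 54)))))))))) (.rp 15 (.thr 26 18 (.thr 31 16 (.thr 28 29 (.thr 12 44 (.thr 3 41 (.thr 6 9 (.thr 38 54 (.dbl 25 19 51)))))))) (.rp 11 (.thr 26 18 (.thr 31 16 (.thr 28 29 (.thr 19 25 (.thr 23 27 (.thr 15 45 (.thr 63 47 (.dbl 3 41 43)))))))) (.rp 3 (.thr 26 18 (.thr 31 16 (.thr 28 29 (.thr 12 44 (.thr 15 45 (.thr 48 37 (.thr 24 36 (.dbl 25 19 27)))))))) .nd))))))))))))) (.rp 61 (.str 25 (.nv (.thr 28 19 (.thr 12 44 (.thr 29 17 (.thr 30 31 (.thr 15 45 (.thr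 14 13 (.dbl 46 62 63))))))) (.nv (.thr 28 19 (.thr 12 44 (.thr 51 38 (.thr 57 54 (.dbl 41 3 9))))) (.rp 51 (.thr 28 19 (.thr 12 44 (.thr 3 41 (.thr 6 9 (.thr 38 54 (.thr 4 55 (.thr 7 5 (.thr 15 11 (.thr 13 14 (.dbl 37 49 52)))))))))) (.rp 44 (.thr 19 28 (.thr 3 41 (.thr 51 35 (.thr 38 12 (.dbl 54 6 57))))) (.rp 28 (.thr 29 17 (.thr 41 3 (.thr 57 9 (.thr 51 54 (.thr 12 38 (.thr 63 46 (.thr 59 55 (.thr 56 58 (.thr 42 8 (.thr 11 26 (.dbl 43 27 40))))))))))) (.rp 19 (.thr 29 17 (.thr 41 3 (.thr 57 9 (.thr 51 54 (.thr 12 38 (.thr 46 63 (.thr 28 44 (.thr 30 31 (.thr 14 62 (.dbl 15 13 45)))))))))) (.rp 12 (.thr 28 19 (.thr 29 17 (.thr 30 31 (.thr 15 45 (.thr 3 41 (.thr 7 11 (.thr 37 52 (.dbl 26 18 48)))))))) .nd)))))))) (.rp 59 (.str 30 (.nv (.thr 15 45 (.thr 26 18 (.thr 31 16 (.thr 63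 47 (.thr 62 61 (.thr 46 14 (.dbl 29 12 28))))))) (.nv (.thr 26 18 (.thr 15 45 (.thr 48 37 (.thr 41 3 (.dbl 56 11 52))))) (.rp 48 (.thr 18 26 (.thr 41 3 (.thr 45 15 (.thr 37 33 (.thr 7 52 (.thr 5 53 (.thr 1 61 (.thr 9 13 (.thr 57 25 (.thr 54 51 (.dbl 6 4 38))))))))))) (.rp 45 (.thr 26 18 (.thr 31 16 (.thr 28 29 (.thr 12 44 (.thr 3 41 (.thr 6 9 (.thr 38 54 (.dbl 25 19 51)))))))) (.rp 26 (.thr 45 15 (.thr 41 3 (.thr 1 61 (.thr 37 33 (.thr 7 52 (.thr 5 53 (.thr 9 13 (.thr 57 25 (.thr 54 51 (.dbl 6 4 38)))))))))) (.rp 18 (.thr 45 15 (.thr 41 3 (.thr 1 61 (.thr 33 37 (.thr 17 49 (.thr 25 29 (.thr 28 19 (.thr 12 44 (.thr 51 38 (.dbl 57 9 54)))))))))) (.rp 15 (.thr 26 18 (.thr 31 16 (.thr 28 29 (.thr 12 44 (.thr 3 41 (.thr 6 9 (.thr 38 54 (.dbl 25 19 51)))))))) .nd)))))))) (.rp 58 (.str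 30 (.nv (.thr 15 45 (.thr 26 18 (.thr 31 16 (.thr 63 47 (.thr 62 61 (.thr 46 14 (.dbl 29 12 28))))))) (.nv (.thr 26 18 (.thr 15 45 (.thr 3 41 (.thr 7 11 (.dbl 37 48 52))))) (.rp 48 (.thr 26 18 (.thr 45 15 (.thr 41 3 (.thr 33 37 (.thr 1 61 (.thr 17 49 (.thr 25 29 (.thr 28 19 (.thr 12 44 (.thr 51 38 (.dbl 57 9 54))))))))))) (.rp 45 (.thr 26 18 (.thr 31 16 (.thr 28 29 (.thr 12 44 (.thr 3 41 (.thr 6 9 (.thr 38 54 (.dbl 25 19 51)))))))) (.rp 26 (.thr 45 15 (.thr 41 3 (.thr 1 61 (.thr 37 33 (.thr 7 52 (.thr 5 53 (.thr 9 13 (.thr 57 25 (.thr 54 51 (.dbl 6 4 38)))))))))) (.rp 18 (.thr 45 15 (.thr 41 3 (.thr 1 61 (.thr 33 37 (.thr 17 49 (.thr 25 29 (.thr 28 19 (.thr 12 44 (.thr 51 38 (.dbl 57 9 54)))))))))) (.rp 15 (.thr 26 18 (.thr 31 16 (.thr 28 29 (.thr 12 44 (.thr 3 41 (.thr 6 9 (.thr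 38 54 (.dbl 25 19 51)))))))) .nd)))))))) (.rp 57 (.str 26 (.nv (.thr 18 30 (.thr 3 41 (.thr 48 33 (.thr 37 15 (.dbl 52 7 56))))) (.nv (.thr 30 18 (.thr 15 45 (.thr 31 16 (.thr 63 47 (.thr 61 62 (.dbl 41 1 3)))))) (.nv (.thr 30 18 (.thr 15 45 (.thr 48 37 (.thr 41 3 (.dbl 56 11 52))))) (.rp 48 (.thr 30 18 (.thr 15 45 (.thr 3 41 (.thr 7 11 (.thr 37 52 (.thr 5 53 (.thr 4 6 (.thr 55 38 (.thr 23 39 (.thr 63 43 (.dbl 31 16 47))))))))))) (.rp 41 (.thr 30 18 (.thr 31 16 (.thr 15 45 (.thr 63 47 (.thr 62 61 (.thr 46 14 (.dbl 29 12 28))))))) (.rp 30 (.thr 31 16 (.thr 41 3 (.thr 56 11 (.thr 48 52 (.thr 15 37 (.thr 63 47 (.dbl 61 1 62))))))) (.rp 18 (.thr 31 16 (.thr 41 3 (.thr 56 11 (.thr 48 52 (.thr 15 37 (.thr 63 47 (.dbl 61 1 62))))))) (.rp 15 (.thr 18 30 (.thr 16 31 (.thr 19 17 (.thr 3 41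 (.thr 51 35 (.thr 48 33 (.thr 52 56 (.thr 49 50 (.thr 37 7 (.dbl 25 13 28)))))))))) (.rp 3 (.thr 30 18 (.thr 31 16 (.thr 15 45 (.thr 63 47 (.thr 62 61 (.thr 46 14 (.dbl 29 12 28))))))) .nd)))))))))) (.rp 56 (.str 30 (.nv (.thr 15 45 (.thr 26 18 (.thr 31 16 (.thr 63 47 (.thr 62 61 (.thr 46 14 (.dbl 29 12 28))))))) (.nv (.thr 26 18 (.thr 15 45 (.thr 3 41 (.thr 7 11 (.dbl 37 48 52))))) (.rp 48 (.thr 18 26 (.thr 41 3 (.thr 45 15 (.thr 37 33 (.thr 7 52 (.thr 5 53 (.thr 1 61 (.thr 9 13 (.thr 57 25 (.thr 54 51 (.dbl 6 4 38))))))))))) (.rp 45 (.thr 26 18 (.thr 31 16 (.thr 28 29 (.thr 12 44 (.thr 3 41 (.thr 6 9 (.thr 38 54 (.dbl 25 19 51)))))))) (.rp 26 (.thr 45 15 (.thr 41 3 (.thr 1 61 (.thr 37 33 (.thr 7 52 (.thr 5 53 (.thr 9 13 (.thr 57 25 (.thr 54 51 (.dbl 6 4 38)))))))))) (.rp 18 (.thr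 45 15 (.thr 41 3 (.thr 1 61 (.thr 33 37 (.thr 17 49 (.thr 25 29 (.thr 28 19 (.thr 12 44 (.thr 51 38 (.dbl 57 9 54)))))))))) (.rp 15 (.thr 26 18 (.thr 31 16 (.thr 28 29 (.thr 12 44 (.thr 3 41 (.thr 6 9 (.thr 38 54 (.dbl 25 19 51)))))))) .nd)))))))) (.rp 55 (.str 25 (.nv (.thr 28 19 (.thr 12 44 (.thr 29 17 (.thr 30 31 (.thr 15 45 (.thr 14 13 (.dbl 46 62 63))))))) (.nv (.thr 17 29 (.thr 41 3 (.thr 1 61 (.thr 9 57 (.thr 13 5 (.dbl 49 33 37)))))) (.nv (.thr 3 41 (.thr 28 19 (.thr 12 44 (.thr 6 9 (.dbl 38 51 54))))) .nd)))) (.rp 54 (.str 37 (.nv (.thr 41 3 (.thr 52 7 (.thr 48 56 (.thr 53 5 (.thr 63 58 (.dbl 61 1 62)))))) (.nv (.thr 41 3 (.thr 1 61 (.thr 33 45 (.thr 49 17 (.thr 13 25 (.dbl 5 9 53)))))) (.nv (.thr 52 7 (.thr 48 56 (.thr 15 26 (.thr 45 30 (.dbl 41 3 33))))) (.rp 41 (.thr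 52 7 (.thr 53 5 (.thr 48 56 (.thr 63 58 (.thr 62 61 (.thr 42 2 (.thr 47 32 (.dbl 15 26 31)))))))) (.rp 3 (.thr 52 7 (.thr 53 5 (.thr 48 56 (.thr 15 26 (.thr 45 30 (.thr 63 58 (.thr 41 33 (.dbl 61 1 62)))))))) .nd)))))) (.rp 53 (.str 25 (.nv (.thr 17 29 (.thr 41 3 (.thr 1 61 (.thr 9 57 (.thr 49 33 (.dbl 13 5 37)))))) (.nv (.thr 3 41 (.thr 28 19 (.thr 12 44 (.thr 6 9 (.dbl 38 51 54))))) (.rp 41 (.thr 28 19 (.thr 29 17 (.thr 30 31 (.thr 12 44 (.thr 63 46 (.thr 61 62 (.dbl 45 13 15))))))) (.rp 9 (.thr 19 28 (.thr 3 41 (.thr 51 35 (.thr 54 57 (.dbl 38 6 12))))) (.rp 3 (.thr 28 19 (.thr 29 17 (.thr 30 31 (.thr 12 44 (.thr 63 46 (.thr 61 62 (.dbl 45 13 15))))))) .nd)))))) (.rp 52 (.str 25 (.nv (.thr 17 29 (.thr 41 3 (.thr 1 61 (.thr 9 57 (.thr 13 5 (.dbl 49 33 37)))))) (.nv (.thr 3 41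 (.thr 28 19 (.thr 12 44 (.thr 6 9 (.dbl 38 51 54))))) (.rp 41 (.thr 28 19 (.thr 29 17 (.thr 30 31 (.thr 12 44 (.thr 63 46 (.thr 61 62 (.dbl 45 13 15))))))) (.rp 36 (.str 4 (.nv (.thr 28 19 (.thr 12 44 (.dbl 38 51 55))) (.nv (.thr 38 55 (.thr 54 6 (.dbl 51 12 57))) (.rp 55 (.thr 28 19 (.thr 12 44 (.thr 51 38 (.thr 41 3 (.dbl 57 9 54))))) (.rp 51 (.thr 28 19 (.thr 38 55 (.thr 44 12 (.dbl 41 3 35)))) (.rp 38 (.thr 28 19 (.thr 29 17 (.thr 30 31 (.thr 45 15 (.thr 61 13 (.dbl 41 1 3)))))) (.rp 12 (.thr 38 55 (.thr 54 6 (.thr 57 51 (.dbl 41 3 9)))) .nd))))))) (.rp 9 (.thr 19 28 (.thr 3 41 (.thr 51 35 (.thr 54 57 (.dbl 38 6 12))))) (.rp 4 (.str 36 (.nv (.thr 28 19 (.thr 12 44 (.thr 24 48 (.thr 26 27 (.thr 29 17 (.dbl 30 18 31)))))) (.nv (.thr 17 29 (.thr 41 3 (.thr 1 61 (.thr 9 57 (.thr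 49 33 (.dbl 13 5 37)))))) (.nv (.thr 3 41 (.thr 28 19 (.thr 12 44 (.thr 6 9 (.dbl 38 51 54))))) (.rp 12 (.str 8 (.nv (.thr 41 3 (.thr 9 57 (.thr 11 10 (.thr 26 56 (.thr 27 24 (.dbl 59 42 43)))))) (.nv (.thr 41 3 (.thr 1 61 (.thr 9 57 (.thr 13 5 (.thr 49 37 (.dbl 17 29 33)))))) (.nv (.thr 42 59 (.thr 62 2 (.thr 61 63 (.dbl 41 1 3)))) (.rp 41 (.thr 29 17 (.thr 28 19 (.thr 30 31 (.thr 45 15 (.thr 42 59 (.thr 62 2 (.dbl 61 13 63))))))) (.rp 3 (.thr 29 17 (.thr 28 19 (.thr 30 31 (.thr 45 15 (.thr 13 61 (.thr 37 49 (.thr 38 39 (.thr 42 59 (.thr 47 32 (.dbl 46 34 44)))))))))) (.rp 1 (.thr 42 59 (.thr 2 62 (.thr 41 3 (.thr 9 57 (.thr 11 10 (.thr 56 26 (.dbl 40 24 43))))))) .nd))))))) (.rp 8 (.str 12 (.nv (.thr 3 41 (.thr 6 9 (.dbl 38 51 54))) (.nv (.dbl 28 19 44) .nd))) .nd)))))) (.rp 3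 (.thr 28 19 (.thr 29 17 (.thr 30 31 (.thr 12 44 (.thr 63 46 (.thr 61 62 (.dbl 45 13 15))))))) .nd)))))))) (.rp 51 (.str 15 (.nv (.thr 30 45 (.thr 26 18 (.thr 31 16 (.thr 63 47 (.thr 62 61 (.thr 46 14 (.dbl 29 12 28))))))) (.nv (.thr 3 41 (.thr 30 45 (.thr 7 11 (.thr 26 18 (.dbl 37 48 52))))) (.rp 48 (.thr 30 45 (.thr 26 18 (.thr 3 41 (.thr 7 11 (.thr 37 52 (.thr 5 53 (.thr 4 6 (.thr 55 38 (.thr 23 39 (.thr 63 43 (.dbl 31 16 47))))))))))) (.rp 45 (.thr 3 41 (.thr 7 11 (.thr 37 52 (.thr 5 53 (.thr 4 6 (.thr 55 38 (.thr 23 39 (.thr 26 48 (.thr 63 43 (.dbl 31 16 47)))))))))) (.rp 34 (.str 17 (.nv (.thr 29 25 (.thr 30 45 (.thr 26 18 (.dbl 31 16 28)))) (.nv (.thr 25 29 (.thr 41 3 (.thr 9 57 (.thr 1 61 (.thr 13 5 (.dbl 49 33 37)))))) (.nv (.thr 41 3 (.thr 1 61 (.thr 33 49 (.dbl 45 30 37))))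 (.nv (.thr 30 45 (.thr 18 26 (.thr 25 29 (.dbl 19 16 28)))) .nd))))) (.rp 30 (.thr 3 41 (.thr 7 11 (.thr 37 52 (.thr 5 53 (.thr 4 6 (.thr 55 38 (.thr 23 39 (.thr 26 48 (.thr 63 43 (.dbl 31 16 47)))))))))) (.rp 26 (.thr 45 30 (.thr 41 3 (.thr 37 33 (.thr 52 7 (.thr 53 5 (.thr 48 56 (.thr 63 58 (.dbl 61 1 62)))))))) (.rp 18 (.thr 45 30 (.thr 41 3 (.thr 37 33 (.thr 48 26 (.dbl 52 7 56))))) (.rp 17 (.str 34 (.nv (.thr 30 45 (.thr 18 26 (.thr 2 50 (.thr 62 42 (.thr 61 63 (.dbl 41 1 3)))))) (.nv (.thr 30 45 (.thr 3 41 (.thr 7 11 (.thr 26 18 (.dbl 37 48 52))))) (.rp 48 (.thr 30 45 (.thr 26 18 (.thr 3 41 (.thr 7 11 (.thr 37 52 (.thr 5 53 (.thr 4 6 (.thr 55 38 (.thr 23 39 (.thr 63 43 (.dbl 31 16 47))))))))))) (.rp 45 (.thr 3 41 (.thr 7 11 (.thr 37 52 (.thr 5 53 (.thr 4 6 (.thr 26 48 (.thr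 18 30 (.thr 50 2 (.dbl 38 14 55))))))))) (.rp 41 (.thr 30 45 (.thr 18 26 (.thr 2 50 (.thr 62 42 (.thr 63 61 (.thr 31 47 (.thr 29 28 (.dbl 46 12 14)))))))) (.rp 30 (.thr 3 41 (.thr 7 11 (.thr 37 52 (.thr 5 53 (.thr 4 6 (.thr 55 38 (.thr 23 39 (.thr 26 48 (.thr 63 43 (.dbl 31 16 47)))))))))) (.rp 26 (.thr 45 30 (.thr 41 3 (.thr 37 33 (.thr 52 7 (.thr 53 5 (.thr 48 56 (.thr 63 58 (.dbl 61 1 62)))))))) (.rp 18 (.thr 45 30 (.thr 41 3 (.thr 37 33 (.thr 48 26 (.dbl 52 7 56))))) (.rp 3 (.thr 30 45 (.thr 18 26 (.thr 2 50 (.thr 62 42 (.thr 63 61 (.thr 31 47 (.thr 29 28 (.dbl 46 12 14)))))))) .nd)))))))))) .nd)))))))))) (.rp 50 (.str 37 (.nv (.thr 5 53 (.thr 41 3 (.thr 1 61 (.thr 13 9 (.thr 33 45 (.dbl 49 17 25)))))) (.nv (.thr 3 41 (.thr 52 7 (.thr 48 56 (.thr 18 33 (.dbl 26 15 30))))) (.rp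 41 (.thr 52 7 (.thr 53 5 (.thr 54 55 (.thr 48 56 (.thr 63 58 (.thr 61 62 (.dbl 57 49 51))))))) (.rp 33 (.thr 7 52 (.thr 3 41 (.thr 15 11 (.thr 30 45 (.dbl 26 18 48))))) (.rp 3 (.thr 52 7 (.thr 53 5 (.thr 54 55 (.thr 48 56 (.thr 63 58 (.thr 61 62 (.dbl 57 49 51))))))) .nd)))))) (.rp 49 (.str 26 (.nv (.thr 30 18 (.thr 15 45 (.thr 31 16 (.thr 63 47 (.thr 61 62 (.dbl 41 1 3)))))) (.nv (.thr 30 18 (.thr 15 45 (.thr 3 41 (.thr 7 11 (.dbl 37 48 52))))) (.rp 48 (.thr 18 30 (.thr 16 31 (.thr 19 17 (.thr 3 41 (.thr 51 35 (.thr 54 57 (.thr 38 6 (.dbl 25 12 28)))))))) (.rp 45 (.thr 18 30 (.thr 3 41 (.thr 48 33 (.thr 37 15 (.dbl 52 7 56))))) (.rp 41 (.thr 30 18 (.thr 31 16 (.thr 15 45 (.thr 63 47 (.thr 62 61 (.thr 46 14 (.dbl 29 12 28))))))) (.rp 30 (.thr 31 16 (.thr 41 3 (.thr 56 11 (.thr 48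 52 (.thr 15 37 (.thr 63 47 (.dbl 61 1 62))))))) (.rp 18 (.thr 31 16 (.thr 41 3 (.thr 56 11 (.thr 48 52 (.thr 15 37 (.thr 63 47 (.dbl 61 1 62))))))) (.rp 15 (.thr 30 18 (.thr 31 16 (.thr 28 29 (.thr 12 44 (.thr 3 41 (.thr 6 9 (.thr 38 54 (.dbl 25 19 51)))))))) (.rp 3 (.thr 30 18 (.thr 31 16 (.thr 15 45 (.thr 63 47 (.thr 62 61 (.thr 46 14 (.dbl 29 12 28))))))) .nd)))))))))) (.rp 48 (.str 38 (.nv (.thr 54 6 (.thr 51 57 (.thr 55 4 (.thr 63 59 (.thr 61 62 (.dbl 41 1 3)))))) (.nv (.thr 54 6 (.thr 51 57 (.thr 3 41 (.thr 19 35 (.dbl 25 12 28))))) (.rp 57 (.thr 6 54 (.thr 3 41 (.thr 12 9 (.thr 25 51 (.dbl 28 19 44))))) (.rp 54 (.thr 55 4 (.thr 41 3 (.thr 44 35 (.thr 12 28 (.thr 51 25 (.thr 63 59 (.dbl 61 1 62))))))) (.rp 51 (.thr 6 54 (.thr 4 55 (.thr 7 5 (.thr 3 41 (.thr 15 11 (.thr 30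 45 (.thr 26 18 (.thr 12 9 (.dbl 14 13 50))))))))) (.rp 41 (.thr 54 6 (.thr 55 4 (.thr 51 57 (.thr 63 59 (.thr 62 61 (.thr 42 2 (.thr 46 34 (.dbl 12 25 29)))))))) (.rp 32 (.str 16 (.nv (.thr 3 41 (.thr 26 31 (.thr 18 30 (.thr 19 17 (.thr 51 35 (.dbl 25 12 28)))))) (.nv (.thr 26 31 (.thr 50 14 (.thr 54 6 (.thr 62 58 (.thr 2 42 (.dbl 18 30 34)))))) (.nv (.thr 54 6 (.thr 51 57 (.thr 12 25 (.thr 44 28 (.dbl 41 3 35))))) .nd)))) (.rp 16 (.str 32 (.nv (.thr 41 3 (.thr 35 44 (.thr 33 34 (.thr 37 45 (.thr 47 42 (.dbl 39 36 43)))))) (.nv (.thr 6 54 (.thr 3 41 (.thr 12 9 (.thr 28 44 (.dbl 25 19 51))))) (.rp 51 (.thr 6 54 (.thr 4 55 (.thr 7 5 (.thr 3 41 (.thr 15 11 (.thr 30 45 (.thr 12 9 (.thr 26 18 (.dbl 14 13 50))))))))) (.rp 44 (.thr 54 6 (.thr 3 41 (.thr 51 57 (.thr 19 35 (.dbl 25 12 28)))))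 (.rp 41 (.thr 54 6 (.thr 55 4 (.thr 51 57 (.thr 63 59 (.thr 62 61 (.thr 42 2 (.thr 46 34 (.dbl 12 25 29)))))))) (.rp 28 (.str 24 (.nv (.thr 3 41 (.thr 6 54 (.thr 12 9 (.thr 25 51 (.thr 26 27 (.thr 30 18 (.thr 15 45 (.dbl 14 13 50)))))))) (.nv (.thr 54 6 (.thr 55 4 (.thr 51 57 (.thr 63 59 (.thr 61 62 (.dbl 41 1 3)))))) (.nv (.thr 41 3 (.thr 35 44 (.thr 33 34 (.thr 37 45 (.thr 47 42 (.dbl 39 36 43)))))) (.rp 51 (.thr 6 54 (.thr 4 55 (.thr 7 5 (.thr 3 41 (.thr 12 9 (.thr 15 11 (.thr 30 45 (.thr 26 18 (.dbl 14 13 50))))))))) (.rp 41 (.thr 54 6 (.thr 55 4 (.thr 51 57 (.thr 63 59 (.thr 62 61 (.thr 42 2 (.thr 46 34 (.dbl 12 25 29)))))))) (.rp 3 (.thr 54 6 (.thr 55 4 (.thr 51 57 (.thr 12 25 (.thr 63 59 (.thr 62 61 (.thr 46 29 (.dbl 42 2 34)))))))) .nd))))))) (.rp 24 (.str 28 (.nv (.thr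 41 3 (.dbl 44 12 35)) (.nv (.thr 12 44 (.dbl 25 19 51)) (.rp 44 (.thr 54 6 (.thr 51 57 (.dbl 25 12 19))) (.rp 12 (.str 36 (.nv (.thr 4 55 (.thr 6 54 (.thr 5 7 (.dbl 37 39 53)))) (.nv (.thr 44 40 (.dbl 41 3 35)) (.rp 4 (.str 8 (.nv (.thr 25 19 (.thr 37 39 (.dbl 42 47 59))) (.nv (.thr 44 40 (.dbl 41 3 35)) .nd))) .nd)))) .nd))))) (.rp 3 (.thr 54 6 (.thr 55 4 (.thr 51 57 (.thr 63 59 (.thr 62 61 (.thr 12 25 (.thr 46 29 (.dbl 42 2 34)))))))) .nd))))))))) (.rp 12 (.thr 6 54 (.thr 4 55 (.thr 7 5 (.thr 3 41 (.thr 15 11 (.thr 30 45 (.thr 26 18 (.thr 14 50 (.thr 62 46 (.dbl 2 10 42)))))))))) (.rp 6 (.thr 55 4 (.thr 41 3 (.thr 44 35 (.thr 12 28 (.thr 51 25 (.thr 63 59 (.dbl 61 1 62))))))) (.rp 3 (.thr 54 6 (.thr 55 4 (.thr 51 57 (.thr 63 59 (.thr 62 61 (.thr 12 25 (.thr 46 29 (.dbl 42 2 34))))))))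 .nd)))))))))))) (.rp 47 (.str 54 (.nv (.thr 38 6 (.thr 51 57 (.thr 55 4 (.thr 63 59 (.thr 61 62 (.dbl 41 1 3)))))) (.nv (.thr 38 6 (.thr 51 57 (.thr 12 25 (.thr 41 3 (.dbl 44 28 35))))) (.rp 57 (.thr 38 6 (.thr 55 4 (.thr 52 53 (.thr 48 56 (.thr 3 41 (.thr 18 33 (.thr 26 30 (.dbl 37 7 15)))))))) (.rp 51 (.thr 38 6 (.thr 55 4 (.thr 52 53 (.thr 48 56 (.thr 3 41 (.thr 18 33 (.thr 26 30 (.dbl 37 7 15)))))))) (.rp 41 (.thr 38 6 (.thr 55 4 (.thr 51 57 (.thr 63 59 (.thr 62 61 (.thr 58 50 (.dbl 53 48 52))))))) (.rp 38 (.thr 57 51 (.thr 41 3 (.thr 1 61 (.thr 25 9 (.thr 19 28 (.thr 17 29 (.thr 33 49 (.thr 45 37 (.thr 30 15 (.dbl 18 16 26)))))))))) (.rp 12 (.thr 6 38 (.thr 41 3 (.thr 57 51 (.thr 25 9 (.thr 19 28 (.thr 17 29 (.thr 1 61 (.thr 33 49 (.thr 45 37 (.thr 30 15 (.dbl 18 16 26)))))))))))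 (.rp 6 (.thr 57 51 (.thr 41 3 (.thr 1 61 (.thr 9 25 (.thr 5 13 (.thr 37 53 (.thr 52 7 (.thr 48 56 (.thr 15 26 (.dbl 45 30 33)))))))))) (.rp 3 (.thr 38 6 (.thr 55 4 (.thr 51 57 (.thr 63 59 (.thr 62 61 (.thr 58 50 (.dbl 53 48 52))))))) (.rp 1 (.thr 38 6 (.thr 51 57 (.thr 12 25 (.thr 44 28 (.dbl 41 3 35))))) .nd))))))))))) (.rp 46 (.str 54 (.nv (.thr 38 6 (.thr 51 57 (.thr 55 4 (.thr 63 59 (.thr 61 62 (.dbl 41 1 3)))))) (.nv (.thr 38 6 (.thr 51 57 (.thr 3 41 (.thr 19 35 (.dbl 25 12 28))))) (.rp 57 (.thr 38 6 (.thr 55 4 (.thr 52 53 (.thr 48 56 (.thr 3 41 (.thr 18 33 (.thr 26 30 (.dbl 37 7 15)))))))) (.rp 51 (.thr 38 6 (.thr 55 4 (.thr 52 53 (.thr 48 56 (.thr 3 41 (.thr 18 33 (.thr 26 30 (.dbl 37 7 15)))))))) (.rp 41 (.thr 38 6 (.thr 55 4 (.thr 51 57 (.thr 63 59 (.thr 62 61 (.thr 58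 50 (.dbl 53 48 52))))))) (.rp 38 (.thr 57 51 (.thr 41 3 (.thr 1 61 (.thr 25 9 (.thr 19 28 (.thr 17 29 (.thr 33 49 (.thr 45 37 (.thr 30 15 (.dbl 18 16 26)))))))))) (.rp 12 (.thr 38 6 (.thr 57 51 (.thr 41 3 (.thr 9 25 (.thr 1 61 (.thr 5 13 (.thr 37 53 (.thr 52 7 (.thr 48 56 (.thr 15 26 (.dbl 45 30 33))))))))))) (.rp 6 (.thr 57 51 (.thr 41 3 (.thr 1 61 (.thr 9 25 (.thr 5 13 (.thr 37 53 (.thr 52 7 (.thr 48 56 (.thr 15 26 (.dbl 45 30 33)))))))))) (.rp 3 (.thr 38 6 (.thr 55 4 (.thr 51 57 (.thr 63 59 (.thr 62 61 (.thr 58 50 (.dbl 53 48 52))))))) .nd)))))))))) (.rp 45 (.str 38 (.nv (.thr 6 54 (.thr 3 41 (.thr 12 9 (.thr 25 51 (.dbl 28 19 44))))) (.nv (.thr 54 6 (.thr 51 57 (.thr 55 4 (.thr 63 59 (.thr 61 62 (.dbl 41 1 3)))))) (.nv (.thr 54 6 (.thr 51 57 (.thr 12 25 (.thr 41 3 (.dbl 44 28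 35))))) (.rp 54 (.thr 55 4 (.thr 41 3 (.thr 44 35 (.thr 12 28 (.thr 51 25 (.thr 63 59 (.dbl 61 1 62))))))) (.rp 51 (.thr 6 54 (.thr 4 55 (.thr 7 5 (.thr 3 41 (.thr 15 11 (.thr 12 9 (.thr 28 44 (.thr 13 14 (.thr 25 19 (.dbl 37 49 52)))))))))) (.rp 41 (.thr 54 6 (.thr 55 4 (.thr 51 57 (.thr 63 59 (.thr 62 61 (.thr 58 50 (.dbl 53 48 52))))))) (.rp 12 (.thr 54 6 (.thr 51 57 (.thr 3 41 (.thr 19 35 (.thr 25 28 (.thr 17 29 (.thr 16 18 (.thr 31 26 (.thr 23 27 (.thr 63 43 (.dbl 55 4 59))))))))))) (.rp 6 (.thr 55 4 (.thr 41 3 (.thr 44 35 (.thr 12 28 (.thr 51 25 (.thr 63 59 (.dbl 61 1 62))))))) (.rp 3 (.thr 54 6 (.thr 55 4 (.thr 51 57 (.thr 63 59 (.thr 62 61 (.thr 58 50 (.dbl 53 48 52))))))) .nd)))))))))) (.rp 44 (.str 54 (.nv (.thr 38 6 (.thr 51 57 (.thr 55 4 (.thr 63 59 (.thr 62 61 (.thr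 58 50 (.dbl 53 48 52))))))) (.nv (.thr 38 6 (.thr 51 57 (.thr 3 41 (.thr 19 35 (.dbl 25 12 28))))) (.rp 57 (.thr 38 6 (.thr 55 4 (.thr 52 53 (.thr 48 56 (.thr 3 41 (.thr 18 33 (.thr 26 30 (.dbl 37 7 15)))))))) (.rp 51 (.thr 38 6 (.thr 55 4 (.thr 52 53 (.thr 48 56 (.thr 3 41 (.thr 18 33 (.thr 26 30 (.dbl 37 7 15)))))))) (.rp 38 (.thr 57 51 (.thr 41 3 (.thr 1 61 (.thr 25 9 (.thr 19 28 (.thr 17 29 (.thr 33 49 (.thr 45 37 (.thr 30 15 (.dbl 18 16 26)))))))))) (.rp 12 (.thr 6 38 (.thr 41 3 (.thr 57 51 (.thr 25 9 (.thr 19 28 (.thr 17 29 (.thr 1 61 (.thr 33 49 (.thr 45 37 (.thr 30 15 (.dbl 18 16 26))))))))))) (.rp 6 (.thr 57 51 (.thr 41 3 (.thr 1 61 (.thr 9 25 (.thr 5 13 (.thr 37 53 (.thr 52 7 (.thr 48 56 (.thr 15 26 (.dbl 45 30 33)))))))))) .nd)))))))) (.rp 43 (.str 30 (.nv (.thr 15 45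 (.thr 26 18 (.thr 31 16 (.thr 63 47 (.thr 62 61 (.thr 46 14 (.dbl 29 12 28))))))) (.nv (.thr 26 18 (.thr 15 45 (.thr 48 37 (.thr 56 52 (.dbl 41 3 11))))) (.rp 48 (.thr 18 26 (.thr 41 3 (.thr 45 15 (.thr 37 33 (.thr 7 52 (.thr 5 53 (.thr 1 61 (.thr 9 13 (.thr 57 25 (.thr 54 51 (.dbl 6 4 38))))))))))) (.rp 45 (.thr 26 18 (.thr 31 16 (.thr 28 29 (.thr 12 44 (.thr 3 41 (.thr 6 9 (.thr 38 54 (.dbl 25 19 51)))))))) (.rp 26 (.thr 45 15 (.thr 41 3 (.thr 1 61 (.thr 37 33 (.thr 7 52 (.thr 5 53 (.thr 9 13 (.thr 57 25 (.thr 54 51 (.dbl 6 4 38)))))))))) (.rp 18 (.thr 45 15 (.thr 41 3 (.thr 1 61 (.thr 33 37 (.thr 17 49 (.thr 25 29 (.thr 28 19 (.thr 12 44 (.thr 51 38 (.dbl 57 9 54)))))))))) (.rp 15 (.thr 26 18 (.thr 31 16 (.thr 28 29 (.thr 12 44 (.thr 3 41 (.thr 6 9 (.thr 38 54 (.dbl 25 19 51))))))))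 .nd)))))))) (.rp 42 (.str 30 (.nv (.thr 15 45 (.thr 26 18 (.thr 31 16 (.thr 63 47 (.thr 62 61 (.thr 46 14 (.dbl 29 12 28))))))) (.nv (.thr 26 18 (.thr 15 45 (.thr 3 41 (.thr 7 11 (.dbl 37 48 52))))) (.rp 48 (.thr 18 26 (.thr 41 3 (.thr 45 15 (.thr 37 33 (.thr 7 52 (.thr 5 53 (.thr 1 61 (.thr 9 13 (.thr 57 25 (.thr 54 51 (.dbl 6 4 38))))))))))) (.rp 45 (.thr 26 18 (.thr 31 16 (.thr 28 29 (.thr 12 44 (.thr 3 41 (.thr 6 9 (.thr 38 54 (.dbl 25 19 51)))))))) (.rp 37 (.thr 26 18 (.thr 31 16 (.thr 28 29 (.thr 19 25 (.thr 27 23 (.thr 15 45 (.thr 51 39 (.dbl 3 35 41)))))))) (.rp 26 (.thr 45 15 (.thr 41 3 (.thr 1 61 (.thr 37 33 (.thr 7 52 (.thr 5 53 (.thr 9 13 (.thr 57 25 (.thr 54 51 (.dbl 6 4 38)))))))))) (.rp 18 (.thr 45 15 (.thr 41 3 (.thr 1 61 (.thr 33 37 (.thr 17 49 (.thr 25 29 (.thr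 28 19 (.thr 12 44 (.thr 51 38 (.dbl 57 9 54)))))))))) (.rp 15 (.thr 26 18 (.thr 31 16 (.thr 28 29 (.thr 12 44 (.thr 3 41 (.thr 6 9 (.thr 38 54 (.dbl 25 19 51)))))))) .nd))))))))) (.rp 41 (.str 28 (.nv (.thr 25 19 (.thr 29 17 (.thr 30 31 (.thr 45 15 (.thr 61 13 (.thr 63 62 (.dbl 12 44 46))))))) (.nv (.thr 12 44 (.thr 25 19 (.thr 29 17 (.thr 30 31 (.thr 15 45 (.thr 13 14 (.thr 37 49 (.dbl 26 18 48)))))))) (.nv (.thr 12 44 (.thr 25 19 (.thr 29 17 (.thr 63 46 (.thr 62 61 (.thr 42 2 (.thr 59 8 (.dbl 51 38 55)))))))) (.nv (.thr 12 44 (.thr 25 19 (.thr 29 17 (.thr 63 46 (.thr 61 62 (.thr 45 13 (.dbl 30 15 31))))))) (.rp 51 (.str 29 (.nv (.dbl 25 17 19) (.rp 34 (.thr 17 25 (.thr 30 31 (.thr 12 44 (.thr 63 46 (.thr 61 62 (.dbl 45 13 15)))))) (.rp 25 (.thr 30 31 (.thr 12 44 (.thr 63 46 (.thr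 61 62 (.dbl 45 13 15))))) (.rp 19 (.thr 30 31 (.thr 12 44 (.thr 63 46 (.thr 61 62 (.dbl 45 13 15))))) (.rp 17 (.str 34 (.nv (.thr 30 31 (.thr 45 15 (.thr 61 13 (.thr 63 62 (.dbl 12 44 46))))) (.nv (.thr 12 44 (.thr 25 19 (.thr 30 31 (.thr 15 45 (.thr 13 14 (.thr 37 49 (.dbl 26 18 48))))))) (.nv (.thr 12 44 (.thr 30 31 (.thr 18 26 (.thr 2 50 (.thr 42 62 (.dbl 46 38 63)))))) (.nv (.thr 12 44 (.thr 30 31 (.thr 63 46 (.thr 61 62 (.dbl 45 13 15))))) (.rp 46 (.thr 30 31 (.thr 45 15 (.thr 61 13 (.thr 18 26 (.thr 2 50 (.dbl 62 42 63)))))) (.rp 44 (.thr 30 31 (.thr 45 15 (.thr 61 13 (.thr 18 26 (.thr 2 50 (.dbl 62 42 63)))))) (.rp 31 (.thr 12 44 (.thr 46 63 (.thr 38 42 (.thr 54 6 (.thr 55 4 (.thr 52 53 (.thr 48 56 (.thr 36 24 (.dbl 37 7 39))))))))) (.rp 30 (.thr 12 44 (.thr 46 63 (.thr 38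 42 (.thr 54 6 (.thr 55 4 (.thr 52 53 (.thr 48 56 (.thr 36 24 (.dbl 37 7 39))))))))) (.rp 12 (.thr 30 31 (.thr 45 15 (.thr 18 26 (.thr 2 50 (.thr 62 42 (.dbl 61 13 63)))))) .nd)))))))))) .nd)))))) (.rp 47 (.thr 25 19 (.thr 29 17 (.thr 30 31 (.thr 12 44 (.thr 63 46 (.thr 45 15 (.dbl 61 13 62))))))) (.rp 46 (.thr 25 19 (.thr 12 44 (.thr 38 51 (.thr 54 6 (.thr 55 4 (.thr 52 53 (.thr 48 56 (.thr 36 24 (.dbl 37 7 39))))))))) (.rp 45 (.thr 25 19 (.thr 29 17 (.thr 30 31 (.thr 12 44 (.thr 46 63 (.thr 62 14 (.thr 42 2 (.dbl 38 34 51)))))))) (.rp 44 (.str 38 (.nv (.thr 54 6 (.thr 25 19 (.dbl 51 12 57))) (.rp 57 (.thr 25 19 (.thr 29 17 (.thr 30 31 (.thr 15 45 (.thr 51 12 (.thr 27 39 (.dbl 26 18 24))))))) (.rp 54 (.thr 25 19 (.thr 29 17 (.thr 30 31 (.thr 15 45 (.thr 51 12 (.thr 27 39 (.dbl 26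 18 24))))))) (.rp 51 (.str 34 (.nv (.thr 25 19 (.thr 29 17 (.thr 30 31 (.thr 46 42 (.thr 62 14 (.dbl 63 12 61)))))) (.nv (.thr 6 54 (.thr 42 46 (.thr 2 62 (.thr 50 18 (.dbl 14 10 26))))) (.rp 62 (.thr 46 42 (.thr 25 19 (.thr 29 17 (.thr 12 63 (.thr 30 31 (.thr 15 45 (.thr 14 13 (.dbl 26 18 50)))))))) (.rp 46 (.thr 25 19 (.thr 29 17 (.thr 30 31 (.thr 45 15 (.thr 61 13 (.thr 18 26 (.thr 2 50 (.dbl 62 42 63)))))))) (.rp 42 (.thr 6 54 (.thr 4 55 (.thr 5 7 (.thr 25 19 (.thr 29 17 (.thr 30 31 (.thr 45 15 (.thr 13 61 (.dbl 37 49 53))))))))) (.rp 30 (.thr 6 54 (.thr 42 46 (.thr 2 62 (.thr 14 10 (.dbl 50 18 26))))) (.rp 18 (.thr 54 6 (.thr 55 4 (.thr 42 46 (.thr 62 2 (.thr 63 61 (.thr 58 50 (.dbl 53 48 52))))))) (.rp 14 (.thr 42 46 (.thr 25 19 (.thr 29 17 (.thr 30 31 (.thr 2 62 (.dbl 18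 26 50)))))) .nd))))))))) (.rp 25 (.thr 54 6 (.thr 55 4 (.thr 52 53 (.thr 56 48 (.thr 57 51 (.thr 58 59 (.thr 50 62 (.thr 26 14 (.thr 30 18 (.dbl 31 16 29)))))))))) (.rp 19 (.thr 54 6 (.thr 55 4 (.thr 51 57 (.thr 63 59 (.thr 62 61 (.thr 58 50 (.dbl 53 48 52))))))) (.rp 12 (.thr 54 6 (.thr 25 19 (.thr 29 17 (.thr 30 31 (.thr 15 45 (.thr 51 57 (.thr 27 39 (.dbl 26 18 24)))))))) (.rp 6 (.thr 25 19 (.thr 29 17 (.thr 30 31 (.thr 15 45 (.thr 51 12 (.thr 27 39 (.dbl 26 18 24))))))) .nd))))))))) (.rp 34 (.thr 25 19 (.thr 17 29 (.thr 12 44 (.thr 38 51 (.thr 54 6 (.thr 55 4 (.thr 52 53 (.thr 48 56 (.thr 36 24 (.dbl 37 7 39)))))))))) (.rp 29 (.thr 25 19 (.thr 12 44 (.thr 38 51 (.thr 54 6 (.thr 55 4 (.thr 52 53 (.thr 48 56 (.thr 36 24 (.dbl 37 7 39))))))))) (.rp 25 (.str 30 (.nv (.thr 31 29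 (.dbl 26 16 18)) (.rp 57 (.str 9 (.nv (.thr 31 29 (.dbl 26 16 18)) (.rp 31 (.thr 26 18 (.thr 15 45 (.thr 12 44 (.thr 13 14 (.thr 5 1 (.dbl 37 48 53)))))) (.rp 29 (.thr 26 18 (.thr 15 45 (.thr 12 44 (.thr 13 14 (.thr 5 1 (.dbl 37 48 53)))))) (.rp 26 (.thr 29 31 (.thr 15 45 (.thr 12 44 (.thr 14 13 (.dbl 46 62 63))))) (.rp 18 (.thr 29 31 (.thr 15 45 (.thr 12 44 (.thr 14 13 (.dbl 46 62 63))))) (.rp 16 (.thr 29 31 (.thr 15 45 (.thr 12 44 (.thr 14 13 (.dbl 46 62 63))))) .nd))))))) (.rp 31 (.thr 26 18 (.thr 12 44 (.thr 15 45 (.thr 14 13 (.thr 38 50 (.thr 6 54 (.thr 2 10 (.dbl 62 42 46)))))))) (.rp 29 (.thr 26 18 (.thr 12 44 (.thr 15 45 (.thr 37 48 (.thr 7 52 (.thr 3 11 (.thr 5 53 (.dbl 6 4 9)))))))) (.rp 26 (.thr 29 31 (.thr 12 44 (.thr 63 46 (.thr 61 62 (.dbl 45 13 15))))) (.rp 18 (.thr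 29 31 (.thr 12 44 (.thr 63 46 (.thr 61 62 (.dbl 45 13 15))))) (.rp 16 (.thr 29 31 (.thr 12 44 (.thr 63 46 (.thr 61 62 (.dbl 45 13 15))))) (.rp 9 (.str 57 (.nv (.thr 31 29 (.dbl 26 16 18)) (.rp 31 (.thr 54 51 (.thr 26 18 (.thr 12 44 (.thr 15 45 (.thr 14 13 (.dbl 38 6 50)))))) (.rp 29 (.thr 54 51 (.thr 26 18 (.thr 12 44 (.thr 15 45 (.thr 38 6 (.dbl 14 13 50)))))) (.rp 26 (.thr 29 31 (.thr 12 44 (.thr 63 46 (.thr 61 62 (.dbl 45 13 15))))) (.rp 18 (.thr 29 31 (.thr 12 44 (.thr 63 46 (.thr 61 62 (.dbl 45 13 15))))) (.rp 16 (.thr 29 31 (.thr 12 44 (.thr 63 46 (.thr 61 62 (.dbl 45 13 15))))) .nd))))))) .nd))))))))) (.rp 19 (.str 30 (.nv (.thr 31 29 (.dbl 26 16 18)) (.rp 31 (.thr 26 18 (.thr 12 44 (.thr 15 45 (.thr 14 13 (.thr 38 50 (.thr 54 6 (.dbl 51 25 57))))))) (.rp 29 (.thr 26 18 (.thr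 12 44 (.thr 15 45 (.thr 13 14 (.thr 37 48 (.thr 25 49 (.thr 27 24 (.dbl 51 38 39)))))))) (.rp 26 (.thr 29 31 (.thr 12 44 (.thr 63 46 (.thr 61 62 (.dbl 45 13 15))))) (.rp 18 (.thr 29 31 (.thr 12 44 (.thr 63 46 (.thr 61 62 (.dbl 45 13 15))))) (.rp 16 (.thr 29 31 (.thr 12 44 (.thr 63 46 (.thr 61 62 (.dbl 45 13 15))))) .nd))))))) (.rp 18 (.thr 25 19 (.thr 12 44 (.thr 38 51 (.thr 54 6 (.thr 55 4 (.thr 52 53 (.thr 48 56 (.thr 36 24 (.dbl 37 7 39))))))))) (.rp 17 (.thr 12 44 (.str 38 (.nv (.thr 51 25 (.dbl 54 6 57)) (.nv (.dbl 25 19 51) (.rp 51 (.str 34 (.nv (.thr 46 42 (.thr 29 63 (.thr 30 31 (.thr 14 62 (.dbl 15 13 45))))) (.nv (.thr 54 6 (.thr 55 4 (.thr 52 53 (.thr 48 56 (.thr 36 24 (.dbl 37 7 39)))))) (.nv (.thr 6 54 (.thr 42 46 (.thr 2 62 (.thr 50 18 (.dbl 14 10 26))))) .nd)))) (.rp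 25 (.thr 54 6 (.thr 55 4 (.thr 52 53 (.thr 48 56 (.thr 36 24 (.dbl 37 7 39)))))) .nd)))))) (.rp 16 (.thr 25 19 (.thr 12 44 (.thr 38 51 (.thr 54 6 (.thr 55 4 (.thr 52 53 (.thr 48 56 (.thr 36 24 (.dbl 37 7 39))))))))) (.rp 12 (.str 37 (.nv (.thr 52 7 (.thr 48 56 (.thr 26 15 (.thr 30 18 (.dbl 31 16 29))))) (.nv (.thr 25 19 (.thr 49 13 (.thr 52 7 (.thr 53 5 (.thr 54 55 (.dbl 57 51 61)))))) (.nv (.thr 25 19 (.thr 29 17 (.thr 30 31 (.thr 15 45 (.dbl 26 18 48))))) (.rp 15 (.thr 52 7 (.thr 25 19 (.thr 29 17 (.thr 13 49 (.thr 61 45 (.thr 63 62 (.thr 48 56 (.dbl 53 5 58)))))))) (.rp 8 (.str 4 (.nv (.thr 7 52 (.dbl 5 6 53)) (.rp 53 (.thr 7 52 (.thr 6 5 (.dbl 38 54 55))) (.rp 52 (.thr 5 53 (.thr 6 7 (.dbl 38 54 55))) (.rp 7 (.thr 25 19 (.thr 29 17 (.thr 30 31 (.thr 15 45 (.dbl 26 18 48)))))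 (.rp 6 (.thr 55 38 (.thr 52 7 (.dbl 53 5 54))) (.rp 5 (.thr 25 19 (.thr 29 17 (.thr 30 31 (.thr 15 45 (.dbl 26 18 48))))) .nd))))))) (.rp 4 (.str 8 (.nv (.thr 25 19 (.thr 29 17 (.thr 30 31 (.thr 15 45 (.dbl 26 18 48))))) (.nv (.thr 25 19 (.thr 13 49 (.thr 42 59 (.thr 62 2 (.thr 61 63 (.dbl 29 17 45)))))) (.nv (.thr 52 7 (.thr 5 53 (.thr 48 56 (.thr 26 15 (.thr 30 18 (.dbl 31 16 29)))))) (.rp 52 (.str 36 (.nv (.thr 25 19 (.thr 42 59 (.thr 49 13 (.thr 53 5 (.thr 61 57 (.dbl 62 2 63)))))) (.nv (.thr 25 19 (.thr 29 17 (.thr 30 31 (.thr 15 45 (.dbl 26 18 48))))) (.rp 25 (.str 57 (.nv (.thr 38 39 (.dbl 54 6 51)) (.rp 54 (.thr 53 5 (.thr 61 49 (.thr 38 39 (.thr 62 63 (.thr 42 2 (.thr 46 34 (.thr 30 14 (.thr 15 45 (.dbl 26 18 48))))))))) (.rp 51 (.thr 38 39 (.thr 53 5 (.thr 61 49 (.thr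 63 62 (.thr 48 58 (.thr 15 26 (.thr 30 45 (.dbl 31 29 47)))))))) (.rp 39 (.thr 53 5 (.thr 61 49 (.thr 51 54 (.thr 63 62 (.thr 58 48 (.dbl 59 55 56)))))) (.rp 38 (.thr 51 54 (.thr 53 5 (.thr 61 49 (.thr 63 62 (.thr 58 48 (.dbl 59 55 56)))))) (.rp 6 (.thr 51 54 (.thr 39 38 (.thr 15 27 (.thr 26 48 (.dbl 30 18 45))))) .nd))))))) (.rp 19 (.str 30 (.nv (.thr 26 18 (.dbl 31 16 29)) (.nv (.thr 29 31 (.thr 45 15 (.thr 13 61 (.dbl 25 17 49)))) (.nv (.thr 15 45 (.dbl 26 18 48)) .nd)))) (.rp 15 (.thr 25 19 (.thr 42 59 (.thr 62 2 (.thr 61 63 (.thr 29 17 (.dbl 13 45 49)))))) .nd)))))) (.rp 29 (.thr 53 5 (.thr 25 19 (.thr 42 59 (.thr 62 2 (.thr 49 13 (.dbl 61 57 63)))))) .nd)))))) .nd))))))) .nd)))))))))))))))))) (.rp 40 (.str 25 (.nv (.thr 28 19 (.thr 12 44 (.thr 29 17 (.thr 41 3 (.thr 63 46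 (.dbl 61 1 62)))))) (.nv (.thr 17 29 (.thr 41 3 (.thr 1 61 (.thr 9 57 (.thr 13 5 (.dbl 49 33 37)))))) (.nv (.thr 28 19 (.thr 12 44 (.thr 51 38 (.thr 57 54 (.dbl 41 3 9))))) (.rp 41 (.thr 28 19 (.thr 29 17 (.thr 30 31 (.thr 12 44 (.thr 63 46 (.thr 61 62 (.dbl 45 13 15))))))) (.rp 3 (.thr 28 19 (.thr 29 17 (.thr 30 31 (.thr 12 44 (.thr 63 46 (.thr 61 62 (.dbl 45 13 15))))))) .nd)))))) (.rp 39 (.str 37 (.nv (.thr 41 3 (.thr 52 7 (.thr 48 56 (.thr 53 5 (.thr 63 58 (.dbl 61 1 62)))))) (.nv (.thr 5 53 (.thr 41 3 (.thr 1 61 (.thr 13 9 (.thr 33 45 (.dbl 49 17 25)))))) (.nv (.thr 52 7 (.thr 48 56 (.thr 15 26 (.thr 45 30 (.dbl 41 3 33))))) (.rp 41 (.thr 52 7 (.thr 53 5 (.thr 48 56 (.thr 63 58 (.thr 61 62 (.thr 57 49 (.dbl 54 51 55))))))) (.rp 3 (.thr 52 7 (.thr 53 5 (.thr 48 56 (.thr 63 58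 (.thr 61 62 (.thr 57 49 (.dbl 54 51 55))))))) .nd)))))) (.rp 38 (.str 48 (.nv (.thr 52 56 (.thr 37 7 (.thr 53 5 (.thr 63 58 (.thr 61 62 (.dbl 41 1 3)))))) (.nv (.thr 41 3 (.thr 56 52 (.thr 26 11 (.thr 15 37 (.thr 31 16 (.thr 63 47 (.dbl 61 1 62))))))) (.nv (.thr 52 56 (.thr 37 7 (.thr 26 15 (.thr 18 30 (.dbl 3 33 41))))) (.rp 56 (.thr 3 41 (.thr 18 33 (.thr 26 30 (.thr 16 31 (.thr 19 17 (.thr 28 25 (.thr 44 12 (.thr 51 35 (.thr 49 50 (.thr 57 54 (.thr 53 61 (.dbl 37 5 15)))))))))))) (.rp 52 (.thr 3 41 (.thr 18 33 (.thr 26 30 (.thr 16 31 (.thr 19 17 (.thr 28 25 (.thr 44 12 (.thr 51 35 (.thr 49 50 (.thr 57 54 (.thr 53 61 (.dbl 37 5 15)))))))))))) (.rp 41 (.thr 52 56 (.thr 37 7 (.thr 53 5 (.thr 54 55 (.thr 58 63 (.thr 50 62 (.dbl 51 49 57))))))) (.rp 37 (.thr 56 52 (.thr 41 3 (.thr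 26 11 (.thr 30 18 (.thr 31 16 (.thr 15 45 (.thr 63 47 (.dbl 61 1 62)))))))) (.rp 15 (.thr 52 56 (.thr 37 7 (.thr 3 41 (.thr 18 33 (.thr 26 30 (.thr 16 31 (.thr 19 17 (.thr 28 25 (.thr 44 12 (.thr 51 35 (.thr 49 50 (.thr 57 54 (.dbl 53 5 61))))))))))))) (.rp 3 (.thr 52 56 (.thr 37 7 (.thr 53 5 (.thr 54 55 (.thr 58 63 (.thr 50 62 (.dbl 51 49 57))))))) .nd)))))))))) (.rp 37 (.str 38 (.nv (.thr 54 6 (.thr 51 57 (.thr 55 4 (.thr 63 59 (.thr 61 62 (.dbl 41 1 3)))))) (.nv (.thr 54 6 (.thr 51 57 (.thr 3 41 (.thr 19 35 (.dbl 25 12 28))))) (.rp 57 (.thr 6 54 (.thr 3 41 (.thr 12 9 (.thr 25 51 (.dbl 28 19 44))))) (.rp 54 (.thr 55 4 (.thr 41 3 (.thr 44 35 (.thr 12 28 (.thr 51 25 (.thr 63 59 (.dbl 61 1 62))))))) (.rp 51 (.thr 54 6 (.thr 55 4 (.thr 52 53 (.thr 56 48 (.thr 41 3 (.thr 26 11 (.thr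 18 30 (.thr 50 14 (.thr 62 58 (.thr 63 61 (.dbl 2 34 42))))))))))) (.rp 41 (.thr 54 6 (.thr 55 4 (.thr 51 57 (.thr 63 59 (.thr 62 61 (.thr 58 50 (.dbl 53 48 52))))))) (.rp 12 (.thr 54 6 (.thr 51 57 (.thr 3 41 (.thr 19 35 (.thr 25 28 (.thr 17 29 (.thr 16 18 (.thr 31 26 (.thr 23 27 (.thr 63 43 (.dbl 55 4 59))))))))))) (.rp 6 (.thr 55 4 (.thr 41 3 (.thr 44 35 (.thr 12 28 (.thr 51 25 (.thr 63 59 (.dbl 61 1 62))))))) (.rp 3 (.thr 54 6 (.thr 55 4 (.thr 51 57 (.thr 63 59 (.thr 62 61 (.thr 58 50 (.dbl 53 48 52))))))) .nd)))))))))) (.rp 36 (.str 52 (.nv (.thr 37 7 (.thr 41 3 (.thr 53 5 (.thr 54 55 (.thr 57 51 (.dbl 61 1 49)))))) (.nv (.thr 37 7 (.thr 48 56 (.thr 15 26 (.thr 45 30 (.dbl 41 3 33))))) (.rp 41 (.thr 37 7 (.thr 53 5 (.thr 54 55 (.thr 48 56 (.thr 63 58 (.thr 61 62 (.dbl 57 49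 51))))))) (.rp 37 (.str 38 (.nv (.thr 54 6 (.dbl 55 4 53)) (.rp 55 (.thr 54 6 (.thr 51 57 (.thr 12 25 (.thr 44 28 (.dbl 41 3 35))))) (.rp 54 (.thr 55 4 (.thr 41 3 (.thr 44 35 (.thr 12 28 (.thr 51 25 (.thr 63 59 (.dbl 61 1 62))))))) (.rp 53 (.thr 54 6 (.thr 51 57 (.thr 12 25 (.thr 44 28 (.dbl 41 3 35))))) (.rp 6 (.thr 55 4 (.thr 54 53 (.thr 51 57 (.thr 63 59 (.thr 61 62 (.dbl 41 1 3)))))) (.rp 4 (.thr 54 6 (.thr 53 55 (.thr 57 51 (.thr 61 49 (.dbl 41 1 3))))) .nd))))))) (.rp 15 (.thr 37 7 (.thr 5 53 (.thr 56 48 (.thr 41 3 (.thr 11 26 (.thr 1 61 (.thr 13 9 (.thr 49 25 (.dbl 33 17 45))))))))) (.rp 11 (.thr 37 7 (.thr 48 56 (.thr 15 26 (.thr 41 3 (.dbl 45 30 33))))) (.rp 7 (.thr 48 56 (.thr 3 41 (.thr 18 33 (.thr 26 30 (.thr 16 31 (.thr 19 17 (.thr 51 35 (.thr 49 50 (.thr 37 15 (.dbl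 25 13 28)))))))))) (.rp 3 (.thr 37 7 (.thr 53 5 (.thr 54 55 (.thr 48 56 (.thr 63 58 (.thr 61 62 (.dbl 57 49 51))))))) .nd))))))))) (.rp 35 (.str 37 (.nv (.thr 41 3 (.thr 52 7 (.thr 48 56 (.thr 53 5 (.thr 63 58 (.dbl 61 1 62)))))) (.nv (.thr 5 53 (.thr 41 3 (.thr 1 61 (.thr 13 9 (.thr 33 45 (.dbl 49 17 25)))))) (.nv (.thr 52 7 (.thr 48 56 (.thr 15 26 (.thr 45 30 (.dbl 41 3 33))))) (.rp 41 (.thr 52 7 (.thr 53 5 (.thr 54 55 (.thr 48 56 (.thr 63 58 (.thr 61 62 (.dbl 57 49 51))))))) (.rp 3 (.thr 52 7 (.thr 53 5 (.thr 54 55 (.thr 48 56 (.thr 63 58 (.thr 61 62 (.dbl 57 49 51))))))) .nd)))))) (.rp 34 (.str 51 (.nv (.thr 41 3 (.thr 57 54 (.thr 25 9 (.thr 12 38 (.dbl 28 19 44))))) (.nv (.thr 41 3 (.thr 54 57 (.thr 38 6 (.thr 55 4 (.thr 63 59 (.dbl 61 1 62)))))) (.nv (.thr 54 57 (.thr 38 6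 (.thr 25 12 (.thr 3 41 (.dbl 19 28 35))))) (.rp 57 (.thr 3 41 (.thr 19 35 (.thr 25 28 (.thr 17 29 (.thr 16 18 (.thr 31 26 (.thr 23 27 (.thr 38 12 (.thr 63 43 (.dbl 55 4 59)))))))))) (.rp 54 (.thr 3 41 (.thr 19 35 (.thr 25 28 (.thr 17 29 (.thr 16 18 (.thr 31 26 (.thr 23 27 (.thr 38 12 (.thr 63 43 (.dbl 55 4 59)))))))))) (.rp 41 (.thr 54 57 (.thr 38 6 (.thr 55 4 (.thr 63 59 (.thr 62 61 (.thr 58 50 (.dbl 53 48 52))))))) (.rp 38 (.thr 57 54 (.thr 41 3 (.thr 25 9 (.thr 28 19 (.thr 29 17 (.thr 30 31 (.thr 45 15 (.dbl 61 1 13)))))))) (.rp 12 (.thr 57 54 (.thr 41 3 (.thr 9 25 (.thr 1 61 (.thr 5 13 (.thr 37 53 (.thr 45 33 (.thr 15 30 (.thr 48 26 (.dbl 52 7 56)))))))))) (.rp 3 (.thr 54 57 (.thr 38 6 (.thr 55 4 (.thr 63 59 (.thr 62 61 (.thr 58 50 (.dbl 53 48 52))))))) .nd)))))))))) (.rp 33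 (.str 38 (.nv (.thr 54 6 (.thr 51 57 (.thr 55 4 (.thr 63 59 (.thr 61 62 (.dbl 41 1 3)))))) (.nv (.thr 54 6 (.thr 51 57 (.thr 12 25 (.thr 44 28 (.dbl 41 3 35))))) (.rp 57 (.thr 6 54 (.thr 3 41 (.thr 12 9 (.thr 25 51 (.dbl 28 19 44))))) (.rp 54 (.thr 55 4 (.thr 41 3 (.thr 44 35 (.thr 12 28 (.thr 51 25 (.thr 63 59 (.dbl 61 1 62))))))) (.rp 51 (.thr 6 54 (.thr 4 55 (.thr 7 5 (.thr 3 41 (.thr 15 11 (.thr 12 9 (.thr 28 44 (.thr 13 14 (.thr 25 19 (.dbl 37 49 52)))))))))) (.rp 41 (.thr 54 6 (.thr 55 4 (.thr 51 57 (.thr 63 59 (.thr 62 61 (.thr 58 50 (.dbl 53 48 52))))))) (.rp 12 (.thr 54 6 (.thr 51 57 (.thr 3 41 (.thr 19 35 (.thr 25 28 (.thr 17 29 (.thr 16 18 (.thr 31 26 (.thr 23 27 (.thr 63 43 (.dbl 55 4 59))))))))))) (.rp 6 (.thr 55 4 (.thr 41 3 (.thr 44 35 (.thr 12 28 (.thr 51 25 (.thr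 63 59 (.dbl 61 1 62))))))) (.rp 3 (.thr 54 6 (.thr 55 4 (.thr 51 57 (.thr 63 59 (.thr 62 61 (.thr 58 50 (.dbl 53 48 52))))))) .nd)))))))))) (.rp 32 (.str 48 (.nv (.thr 52 56 (.thr 37 7 (.thr 53 5 (.thr 63 58 (.thr 61 62 (.dbl 41 1 3)))))) (.nv (.thr 52 56 (.thr 37 7 (.thr 15 26 (.thr 45 30 (.dbl 41 3 33))))) (.rp 56 (.thr 3 41 (.thr 18 33 (.thr 26 30 (.thr 16 31 (.thr 19 17 (.thr 28 25 (.thr 12 44 (.thr 36 24 (.thr 37 15 (.thr 38 39 (.dbl 6 9 54))))))))))) (.rp 52 (.thr 3 41 (.thr 18 33 (.thr 26 30 (.thr 16 31 (.thr 19 17 (.thr 28 25 (.thr 12 44 (.thr 36 24 (.thr 37 15 (.thr 38 39 (.dbl 6 9 54))))))))))) (.rp 41 (.thr 52 56 (.thr 37 7 (.thr 53 5 (.thr 54 55 (.thr 58 63 (.thr 50 62 (.dbl 51 49 57))))))) (.rp 37 (.thr 56 52 (.thr 41 3 (.thr 26 11 (.thr 30 18 (.thr 31 16 (.thr 28 29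 (.thr 44 12 (.thr 38 35 (.thr 50 14 (.thr 51 49 (.dbl 54 6 57))))))))))) (.rp 15 (.thr 52 56 (.thr 37 7 (.thr 3 41 (.thr 18 33 (.thr 26 30 (.thr 16 31 (.thr 19 17 (.thr 28 25 (.thr 12 44 (.thr 36 24 (.thr 38 39 (.dbl 6 9 54)))))))))))) (.rp 7 (.thr 56 52 (.thr 41 3 (.thr 26 11 (.thr 15 37 (.dbl 30 18 45))))) (.rp 3 (.thr 52 56 (.thr 37 7 (.thr 53 5 (.thr 54 55 (.thr 58 63 (.thr 50 62 (.dbl 51 49 57))))))) .nd)))))))))) (.rp 31 (.str 37 (.nv (.thr 5 53 (.thr 41 3 (.thr 1 61 (.thr 13 9 (.thr 33 45 (.dbl 49 17 25)))))) (.nv (.thr 3 41 (.thr 52 7 (.thr 48 56 (.thr 18 33 (.dbl 26 15 30))))) (.rp 41 (.thr 52 7 (.thr 53 5 (.thr 54 55 (.thr 48 56 (.thr 63 58 (.thr 61 62 (.dbl 57 49 51))))))) (.rp 33 (.thr 7 52 (.thr 3 41 (.thr 15 11 (.thr 30 45 (.dbl 26 18 48))))) (.rp 3 (.thr 52 7 (.thr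 53 5 (.thr 54 55 (.thr 48 56 (.thr 63 58 (.thr 61 62 (.dbl 57 49 51))))))) .nd)))))) (.rp 30 (.str 25 (.nv (.thr 28 19 (.thr 12 44 (.thr 29 17 (.thr 41 3 (.thr 63 46 (.dbl 61 1 62)))))) (.nv (.thr 41 3 (.thr 1 61 (.thr 9 57 (.thr 13 5 (.thr 49 37 (.dbl 17 29 33)))))) (.nv (.thr 28 19 (.thr 12 44 (.thr 51 38 (.thr 57 54 (.dbl 41 3 9))))) (.rp 41 (.thr 28 19 (.thr 29 17 (.thr 12 44 (.thr 63 46 (.thr 62 61 (.thr 42 2 (.thr 59 8 (.dbl 51 38 55)))))))) (.rp 3 (.thr 28 19 (.thr 29 17 (.thr 12 44 (.thr 51 38 (.thr 57 54 (.thr 63 46 (.thr 41 9 (.dbl 61 1 62)))))))) .nd)))))) (.rp 29 (.str 37 (.nv (.thr 5 53 (.thr 41 3 (.thr 1 61 (.thr 13 9 (.thr 33 45 (.dbl 49 17 25)))))) (.nv (.thr 3 41 (.thr 52 7 (.thr 48 56 (.thr 18 33 (.dbl 26 15 30))))) (.rp 41 (.thr 52 7 (.thr 53 5 (.thr 54 55 (.thr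 48 56 (.thr 63 58 (.thr 61 62 (.dbl 57 49 51))))))) (.rp 33 (.thr 7 52 (.thr 3 41 (.thr 15 11 (.thr 30 45 (.dbl 26 18 48))))) (.rp 3 (.thr 52 7 (.thr 53 5 (.thr 54 55 (.thr 48 56 (.thr 63 58 (.thr 61 62 (.dbl 57 49 51))))))) .nd)))))) (.rp 28 (.str 37 (.nv (.thr 5 53 (.thr 41 3 (.thr 1 61 (.thr 13 9 (.thr 33 45 (.dbl 49 17 25)))))) (.nv (.thr 3 41 (.thr 52 7 (.thr 48 56 (.thr 18 33 (.dbl 26 15 30))))) (.rp 41 (.thr 52 7 (.thr 53 5 (.thr 54 55 (.thr 48 56 (.thr 63 58 (.thr 61 62 (.dbl 57 49 51))))))) (.rp 33 (.thr 7 52 (.thr 3 41 (.thr 15 11 (.thr 30 45 (.dbl 26 18 48))))) (.rp 24 (.str 16 (.nv (.thr 52 7 (.thr 48 56 (.dbl 26 15 31))) (.nv (.thr 26 31 (.thr 30 18 (.dbl 15 45 48))) (.rp 48 (.thr 26 31 (.thr 30 18 (.thr 45 15 (.dbl 41 3 33)))) (.rp 31 (.thr 52 7 (.thr 48 56 (.thr 15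 26 (.thr 41 3 (.dbl 45 30 33))))) (.rp 26 (.thr 52 7 (.thr 53 5 (.thr 54 55 (.thr 57 51 (.thr 61 49 (.dbl 41 1 3)))))) (.rp 15 (.thr 52 7 (.thr 26 31 (.thr 56 48 (.dbl 41 3 11)))) .nd))))))) (.rp 16 (.str 24 (.nv (.thr 52 7 (.thr 48 56 (.thr 36 12 (.thr 38 39 (.thr 53 5 (.dbl 54 6 55)))))) (.nv (.thr 5 53 (.thr 41 3 (.thr 1 61 (.thr 13 9 (.thr 33 45 (.dbl 49 17 25)))))) (.nv (.thr 3 41 (.thr 52 7 (.thr 48 56 (.thr 18 33 (.dbl 26 15 30))))) (.rp 48 (.str 32 (.nv (.thr 41 3 (.thr 33 45 (.thr 35 34 (.thr 38 44 (.thr 39 36 (.dbl 47 42 43)))))) (.nv (.thr 41 3 (.thr 1 61 (.thr 33 45 (.thr 49 17 (.thr 13 25 (.dbl 5 9 53)))))) (.nv (.thr 42 47 (.thr 62 2 (.thr 61 63 (.dbl 41 1 3)))) (.rp 41 (.thr 53 5 (.thr 52 7 (.thr 54 55 (.thr 57 51 (.thr 42 47 (.thr 62 2 (.dbl 61 49 63))))))) (.rp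 3 (.thr 53 5 (.thr 52 7 (.thr 54 55 (.thr 57 51 (.thr 49 61 (.thr 25 13 (.thr 26 27 (.thr 42 47 (.thr 59 8 (.dbl 58 10 56)))))))))) (.rp 1 (.thr 42 47 (.thr 2 62 (.thr 41 3 (.thr 33 45 (.thr 35 34 (.thr 44 38 (.dbl 40 36 43))))))) .nd))))))) (.rp 32 (.str 48 (.nv (.thr 3 41 (.thr 18 33 (.dbl 26 15 30))) (.nv (.dbl 52 7 56) .nd))) .nd)))))) (.rp 3 (.thr 52 7 (.thr 53 5 (.thr 54 55 (.thr 48 56 (.thr 63 58 (.thr 61 62 (.dbl 57 49 51))))))) .nd)))))))) (.rp 27 (.str 25 (.nv (.thr 28 19 (.thr 12 44 (.thr 29 17 (.thr 41 3 (.thr 63 46 (.dbl 61 1 62)))))) (.nv (.thr 17 29 (.thr 41 3 (.thr 1 61 (.thr 9 57 (.thr 13 5 (.dbl 49 33 37)))))) (.nv (.thr 28 19 (.thr 12 44 (.thr 51 38 (.thr 57 54 (.dbl 41 3 9))))) (.rp 41 (.thr 28 19 (.thr 29 17 (.thr 12 44 (.thr 63 46 (.thr 61 62 (.thr 45 13 (.dbl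 30 15 31))))))) (.rp 3 (.thr 28 19 (.thr 29 17 (.thr 12 44 (.thr 63 46 (.thr 61 62 (.thr 45 13 (.dbl 30 15 31))))))) .nd)))))) (.rp 26 (.str 12 (.nv (.thr 41 3 (.thr 44 28 (.thr 38 35 (.thr 51 25 (.dbl 54 6 57))))) (.nv (.thr 28 44 (.thr 25 19 (.thr 29 17 (.thr 30 31 (.thr 15 45 (.thr 14 13 (.dbl 46 62 63))))))) (.nv (.thr 28 44 (.thr 25 19 (.thr 38 51 (.thr 6 54 (.dbl 3 9 41))))) (.rp 51 (.thr 28 44 (.thr 25 19 (.thr 3 41 (.thr 6 9 (.thr 38 54 (.thr 4 55 (.thr 7 5 (.thr 52 37 (.thr 56 48 (.thr 15 11 (.thr 13 14 (.thr 45 30 (.dbl 29 17 61))))))))))))) (.rp 44 (.thr 3 41 (.thr 6 9 (.thr 38 54 (.thr 4 55 (.thr 7 5 (.thr 52 37 (.thr 56 48 (.thr 15 11 (.thr 13 14 (.thr 45 30 (.thr 29 61 (.dbl 25 17 51)))))))))))) (.rp 28 (.thr 3 41 (.thr 6 9 (.thr 38 54 (.thr 4 55 (.thr 7 5 (.thr 52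 37 (.thr 56 48 (.thr 15 11 (.thr 13 14 (.thr 45 30 (.thr 29 61 (.dbl 25 17 51)))))))))))) (.rp 25 (.thr 44 28 (.thr 41 3 (.thr 38 35 (.thr 54 6 (.thr 55 4 (.thr 51 57 (.thr 63 59 (.dbl 61 1 62)))))))) .nd)))))))) (.rp 25 (.str 26 (.nv (.thr 30 18 (.thr 15 45 (.thr 31 16 (.thr 63 47 (.thr 61 62 (.dbl 41 1 3)))))) (.nv (.thr 30 18 (.thr 15 45 (.thr 3 41 (.thr 7 11 (.dbl 37 48 52))))) (.rp 48 (.thr 30 18 (.thr 15 45 (.thr 3 41 (.thr 7 11 (.thr 37 52 (.thr 5 53 (.thr 4 6 (.thr 55 38 (.thr 23 39 (.thr 63 43 (.dbl 31 16 47))))))))))) (.rp 45 (.thr 18 30 (.thr 3 41 (.thr 48 33 (.thr 37 15 (.dbl 52 7 56))))) (.rp 41 (.thr 30 18 (.thr 31 16 (.thr 15 45 (.thr 63 47 (.thr 62 61 (.thr 46 14 (.dbl 29 12 28))))))) (.rp 30 (.thr 31 16 (.thr 41 3 (.thr 56 11 (.thr 48 52 (.thr 15 37 (.thr 63 47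 (.dbl 61 1 62))))))) (.rp 18 (.thr 31 16 (.thr 41 3 (.thr 56 11 (.thr 48 52 (.thr 15 37 (.thr 63 47 (.dbl 61 1 62))))))) (.rp 15 (.thr 30 18 (.thr 31 16 (.thr 28 29 (.thr 44 12 (.thr 41 3 (.thr 38 35 (.thr 6 54 (.thr 14 50 (.thr 62 46 (.thr 63 61 (.dbl 2 10 42))))))))))) (.rp 3 (.thr 30 18 (.thr 31 16 (.thr 15 45 (.thr 63 47 (.thr 62 61 (.thr 46 14 (.dbl 29 12 28))))))) .nd)))))))))) (.rp 24 (.str 28 (.nv (.thr 25 19 (.thr 29 17 (.thr 30 31 (.thr 41 3 (.thr 45 15 (.dbl 61 1 13)))))) (.nv (.thr 12 44 (.thr 25 19 (.thr 29 17 (.thr 30 31 (.thr 15 45 (.thr 14 13 (.dbl 46 62 63))))))) (.nv (.thr 25 19 (.thr 12 44 (.thr 51 38 (.thr 57 54 (.dbl 41 3 9))))) (.rp 51 (.thr 25 19 (.thr 17 29 (.thr 44 12 (.thr 41 3 (.thr 35 38 (.thr 1 61 (.thr 49 33 (.thr 13 37 (.dbl 9 5 57))))))))) (.rp 25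 (.str 26 (.nv (.thr 30 18 (.dbl 31 16 29)) (.rp 31 (.thr 30 18 (.thr 15 45 (.thr 48 37 (.thr 56 52 (.dbl 41 3 11))))) (.rp 30 (.thr 31 16 (.thr 41 3 (.thr 56 11 (.thr 48 52 (.thr 15 37 (.thr 63 47 (.dbl 61 1 62))))))) (.rp 29 (.thr 30 18 (.thr 15 45 (.thr 48 37 (.thr 56 52 (.dbl 41 3 11))))) (.rp 18 (.thr 31 16 (.thr 30 29 (.thr 15 45 (.thr 63 47 (.thr 61 62 (.dbl 41 1 3)))))) (.rp 16 (.thr 30 18 (.thr 29 31 (.thr 45 15 (.thr 61 13 (.dbl 41 1 3))))) .nd))))))) (.rp 19 (.thr 12 44 (.thr 3 41 (.thr 6 9 (.thr 38 54 (.thr 4 55 (.thr 7 5 (.thr 15 11 (.thr 13 14 (.thr 25 51 (.dbl 37 49 52)))))))))) .nd))))))) (.rp 23 (.str 25 (.nv (.thr 28 19 (.thr 12 44 (.thr 29 17 (.thr 41 3 (.thr 63 46 (.dbl 61 1 62)))))) (.nv (.thr 17 29 (.thr 41 3 (.thr 1 61 (.thr 9 57 (.thr 13 5 (.dbl 49 33 37))))))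 (.nv (.thr 28 19 (.thr 12 44 (.thr 51 38 (.thr 57 54 (.dbl 41 3 9))))) (.rp 41 (.thr 28 19 (.thr 29 17 (.thr 12 44 (.thr 63 46 (.thr 61 62 (.thr 45 13 (.dbl 30 15 31))))))) (.rp 3 (.thr 28 19 (.thr 29 17 (.thr 12 44 (.thr 63 46 (.thr 61 62 (.thr 45 13 (.dbl 30 15 31))))))) .nd)))))) (.rp 19 (.str 37 (.nv (.thr 41 3 (.thr 52 7 (.thr 48 56 (.thr 53 5 (.thr 63 58 (.dbl 61 1 62)))))) (.nv (.thr 5 53 (.thr 41 3 (.thr 1 61 (.thr 13 9 (.thr 33 45 (.dbl 49 17 25)))))) (.nv (.thr 52 7 (.thr 48 56 (.thr 15 26 (.thr 45 30 (.dbl 41 3 33))))) (.rp 41 (.thr 52 7 (.thr 53 5 (.thr 54 55 (.thr 48 56 (.thr 63 58 (.thr 61 62 (.dbl 57 49 51))))))) (.rp 3 (.thr 52 7 (.thr 53 5 (.thr 54 55 (.thr 48 56 (.thr 63 58 (.thr 61 62 (.dbl 57 49 51))))))) .nd)))))) (.rp 18 (.str 37 (.nv (.thr 52 7 (.thr 41 3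 (.thr 48 56 (.thr 53 5 (.thr 63 58 (.dbl 61 1 62)))))) (.nv (.thr 5 53 (.thr 41 3 (.thr 33 45 (.thr 1 61 (.thr 13 9 (.dbl 49 17 25)))))) (.nv (.thr 52 7 (.thr 48 56 (.thr 15 26 (.thr 45 30 (.dbl 41 3 33))))) (.rp 41 (.thr 52 7 (.thr 53 5 (.thr 54 55 (.thr 48 56 (.thr 63 58 (.thr 61 62 (.dbl 57 49 51))))))) (.rp 3 (.thr 52 7 (.thr 53 5 (.thr 54 55 (.thr 48 56 (.thr 63 58 (.thr 61 62 (.dbl 57 49 51))))))) .nd)))))) (.rp 17 (.str 51 (.nv (.thr 54 57 (.thr 38 6 (.thr 55 4 (.thr 63 59 (.thr 62 61 (.thr 58 50 (.dbl 53 48 52))))))) (.nv (.thr 54 57 (.thr 38 6 (.thr 3 41 (.thr 19 35 (.dbl 25 12 28))))) (.rp 57 (.thr 3 41 (.thr 19 35 (.thr 25 28 (.thr 38 12 (.thr 6 54 (.thr 4 55 (.thr 7 5 (.thr 15 11 (.thr 39 27 (.dbl 37 36 52)))))))))) (.rp 54 (.str 63 (.nv (.thr 41 3 (.dbl 61 1 62)) (.rp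 62 (.thr 55 59 (.thr 38 4 (.thr 12 25 (.thr 44 28 (.dbl 41 3 35))))) (.rp 61 (.thr 55 59 (.thr 38 4 (.thr 12 25 (.thr 44 28 (.dbl 41 3 35))))) (.rp 41 (.thr 62 61 (.thr 55 59 (.thr 38 4 (.thr 12 25 (.thr 46 29 (.dbl 42 2 34)))))) (.rp 3 (.thr 61 62 (.thr 55 59 (.thr 38 4 (.thr 12 25 (.thr 44 28 (.dbl 41 1 35)))))) (.rp 2 (.thr 61 62 (.dbl 41 1 3)) (.rp 1 (.thr 55 59 (.thr 38 4 (.thr 12 25 (.thr 44 28 (.dbl 41 3 35))))) .nd)))))))) (.rp 38 (.thr 57 54 (.thr 41 3 (.thr 9 25 (.thr 1 61 (.thr 5 13 (.thr 37 53 (.thr 45 33 (.thr 15 30 (.thr 48 26 (.dbl 52 7 56)))))))))) (.rp 12 (.thr 57 54 (.thr 41 3 (.thr 9 25 (.thr 1 61 (.thr 5 13 (.thr 37 53 (.thr 45 33 (.thr 15 30 (.thr 48 26 (.dbl 52 7 56)))))))))) (.rp 6 (.thr 57 54 (.thr 41 3 (.thr 25 9 (.thr 12 38 (.dbl 28 19 44))))) .nd))))))))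 (.rp 16 (.str 28 (.nv (.thr 3 41 (.thr 25 19 (.thr 12 44 (.thr 38 51 (.dbl 6 9 54))))) (.nv (.thr 25 19 (.thr 17 29 (.thr 41 3 (.thr 1 61 (.thr 9 57 (.thr 13 5 (.dbl 49 33 37))))))) (.nv (.thr 3 41 (.thr 12 44 (.thr 6 9 (.thr 38 54 (.dbl 25 19 51))))) (.rp 51 (.thr 25 19 (.thr 17 29 (.thr 44 12 (.thr 41 3 (.thr 35 38 (.thr 1 61 (.thr 49 33 (.thr 13 37 (.dbl 9 5 57))))))))) (.rp 48 (.str 32 (.nv (.thr 3 41 (.thr 25 19 (.thr 12 44 (.thr 38 51 (.dbl 6 9 54))))) (.nv (.thr 25 19 (.thr 17 29 (.thr 41 3 (.thr 1 61 (.thr 9 57 (.thr 13 5 (.dbl 49 33 37))))))) (.nv (.thr 3 41 (.thr 12 44 (.thr 6 9 (.thr 38 54 (.dbl 25 19 51))))) (.rp 51 (.thr 25 19 (.thr 17 29 (.thr 44 12 (.thr 41 3 (.thr 35 38 (.thr 33 34 (.dbl 1 49 61))))))) (.rp 41 (.thr 25 19 (.thr 12 44 (.thr 38 51 (.thr 4 55 (.thr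 6 54 (.thr 3 9 (.thr 7 5 (.thr 15 11 (.thr 30 45 (.dbl 29 17 31)))))))))) (.rp 25 (.thr 44 12 (.thr 36 40 (.thr 41 3 (.thr 38 35 (.thr 37 39 (.thr 47 42 (.dbl 45 33 46))))))) (.rp 19 (.thr 44 12 (.thr 41 3 (.thr 35 38 (.thr 33 34 (.thr 37 45 (.thr 42 47 (.dbl 40 36 43))))))) (.rp 9 (.thr 25 19 (.thr 17 29 (.thr 41 3 (.thr 1 61 (.thr 33 49 (.thr 35 34 (.dbl 44 12 38))))))) (.rp 3 (.thr 25 19 (.thr 17 29 (.thr 12 44 (.thr 51 38 (.thr 57 54 (.thr 41 9 (.thr 1 61 (.thr 33 49 (.thr 45 37 (.thr 35 34 (.thr 15 30 (.thr 39 27 (.thr 43 47 (.thr 42 40 (.thr 59 8 (.thr 2 62 (.thr 14 13 (.thr 10 6 (.dbl 58 26 56))))))))))))))))))) .nd)))))))))) (.rp 41 (.thr 25 19 (.thr 12 44 (.thr 38 51 (.thr 54 6 (.thr 55 4 (.thr 52 53 (.thr 48 56 (.thr 36 24 (.dbl 37 7 39))))))))) (.rp 32 (.str 48 (.nv (.thr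 3 41 (.thr 12 44 (.thr 6 9 (.thr 25 19 (.dbl 38 51 54))))) (.nv (.thr 52 56 (.thr 37 7 (.thr 15 26 (.thr 45 30 (.dbl 41 3 33))))) (.rp 41 (.thr 25 19 (.thr 52 56 (.thr 12 44 (.thr 38 51 (.thr 54 6 (.dbl 55 4 53)))))) (.rp 3 (.thr 25 19 (.thr 52 56 (.thr 12 44 (.thr 51 38 (.thr 49 50 (.dbl 37 7 13)))))) .nd))))) (.rp 25 (.str 48 (.nv (.thr 52 56 (.thr 37 7 (.thr 53 5 (.thr 63 58 (.thr 61 62 (.dbl 41 1 3)))))) (.nv (.thr 3 41 (.thr 12 44 (.thr 36 24 (.thr 52 56 (.thr 37 7 (.thr 38 39 (.dbl 6 9 54))))))) (.nv (.thr 52 56 (.thr 37 7 (.thr 26 15 (.thr 18 30 (.dbl 3 33 41))))) (.rp 56 (.thr 12 44 (.thr 36 24 (.thr 3 41 (.thr 18 33 (.thr 26 30 (.thr 37 15 (.thr 38 39 (.dbl 6 9 54)))))))) (.rp 52 (.thr 12 44 (.thr 36 24 (.thr 3 41 (.thr 18 33 (.thr 26 30 (.thr 37 15 (.thr 38 39 (.dbl 6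 9 54)))))))) (.rp 41 (.thr 52 56 (.thr 12 44 (.thr 36 24 (.thr 37 7 (.thr 53 5 (.thr 54 55 (.dbl 38 6 39))))))) (.rp 37 (.thr 56 52 (.thr 12 44 (.thr 41 3 (.thr 26 11 (.thr 30 18 (.thr 29 31 (.thr 63 46 (.dbl 61 1 62)))))))) (.rp 7 (.thr 56 52 (.thr 41 3 (.thr 26 11 (.thr 15 37 (.dbl 30 18 45))))) (.rp 3 (.thr 52 56 (.thr 12 44 (.thr 36 24 (.thr 37 7 (.thr 53 5 (.thr 54 55 (.dbl 38 6 39))))))) .nd)))))))))) (.rp 19 (.thr 12 44 (.thr 3 41 (.thr 6 9 (.thr 38 54 (.thr 4 55 (.thr 7 5 (.thr 15 11 (.thr 13 14 (.thr 25 51 (.dbl 37 49 52)))))))))) (.rp 9 (.thr 25 19 (.thr 12 44 (.thr 38 51 (.thr 54 6 (.thr 55 4 (.thr 52 53 (.thr 48 56 (.thr 36 24 (.dbl 37 7 39))))))))) (.rp 3 (.thr 25 19 (.thr 17 29 (.thr 12 44 (.thr 51 38 (.thr 57 54 (.thr 41 9 (.thr 1 61 (.thr 49 33 (.thr 48 50 (.thr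 52 56 (.dbl 37 7 13))))))))))) .nd)))))))))))) (.rp 15 (.str 51 (.nv (.thr 54 57 (.thr 38 6 (.thr 55 4 (.thr 63 59 (.thr 61 62 (.dbl 41 1 3)))))) (.nv (.thr 3 41 (.thr 54 57 (.thr 19 35 (.thr 38 6 (.dbl 25 12 28))))) (.rp 57 (.thr 3 41 (.thr 19 35 (.thr 25 28 (.thr 17 29 (.thr 16 18 (.thr 31 26 (.thr 23 27 (.thr 38 12 (.thr 63 43 (.dbl 55 4 59)))))))))) (.rp 54 (.thr 3 41 (.thr 19 35 (.thr 25 28 (.thr 17 29 (.thr 16 18 (.thr 31 26 (.thr 23 27 (.thr 38 12 (.thr 63 43 (.dbl 55 4 59)))))))))) (.rp 41 (.thr 54 57 (.thr 38 6 (.thr 55 4 (.thr 63 59 (.thr 62 61 (.thr 58 50 (.dbl 53 48 52))))))) (.rp 38 (.thr 57 54 (.thr 41 3 (.thr 25 9 (.thr 28 19 (.thr 29 17 (.thr 12 44 (.thr 63 46 (.dbl 61 1 62)))))))) (.rp 12 (.thr 54 57 (.thr 38 6 (.thr 3 41 (.thr 19 35 (.thr 25 28 (.thr 17 29 (.thr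 16 18 (.thr 31 26 (.thr 23 27 (.thr 63 43 (.dbl 55 4 59))))))))))) (.rp 10 (.str 5 (.nv (.thr 53 37 (.thr 54 57 (.thr 38 6 (.dbl 55 4 52)))) (.nv (.thr 37 53 (.thr 41 3 (.thr 33 45 (.thr 1 61 (.thr 49 17 (.dbl 13 9 25)))))) (.nv (.thr 41 3 (.thr 1 61 (.thr 9 13 (.dbl 57 25 54)))) (.nv (.thr 54 57 (.thr 6 38 (.thr 37 53 (.dbl 7 4 52)))) .nd))))) (.rp 6 (.thr 57 54 (.thr 41 3 (.thr 25 9 (.thr 12 38 (.dbl 28 19 44))))) (.rp 5 (.str 10 (.nv (.thr 54 57 (.thr 6 38 (.thr 2 14 (.thr 62 42 (.thr 61 63 (.dbl 41 1 3)))))) (.nv (.thr 54 57 (.thr 3 41 (.thr 19 35 (.thr 38 6 (.dbl 25 12 28))))) (.rp 57 (.thr 3 41 (.thr 19 35 (.thr 25 28 (.thr 17 29 (.thr 16 18 (.thr 38 12 (.thr 6 54 (.thr 14 2 (.dbl 26 31 50))))))))) (.rp 54 (.thr 3 41 (.thr 19 35 (.thr 25 28 (.thr 17 29 (.thr 16 18 (.thr 31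 26 (.thr 23 27 (.thr 38 12 (.thr 63 43 (.dbl 55 4 59)))))))))) (.rp 41 (.thr 54 57 (.thr 6 38 (.thr 2 14 (.thr 62 42 (.thr 63 61 (.thr 55 59 (.thr 53 52 (.dbl 58 48 50)))))))) (.rp 38 (.thr 57 54 (.thr 41 3 (.thr 25 9 (.thr 28 19 (.thr 29 17 (.thr 12 44 (.thr 63 46 (.dbl 61 1 62)))))))) (.rp 12 (.thr 54 57 (.thr 38 6 (.thr 3 41 (.thr 19 35 (.thr 25 28 (.thr 17 29 (.thr 16 18 (.thr 31 26 (.thr 23 27 (.thr 63 43 (.dbl 55 4 59))))))))))) (.rp 6 (.thr 57 54 (.thr 41 3 (.thr 25 9 (.thr 12 38 (.dbl 28 19 44))))) (.rp 3 (.thr 54 57 (.thr 6 38 (.thr 2 14 (.thr 62 42 (.thr 63 61 (.thr 55 59 (.thr 53 52 (.dbl 58 48 50)))))))) .nd)))))))))) (.rp 3 (.thr 54 57 (.thr 38 6 (.thr 55 4 (.thr 63 59 (.thr 62 61 (.thr 58 50 (.dbl 53 48 52))))))) .nd)))))))))))) (.rp 14 (.str 25 (.nv (.thr 17 29 (.thr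 41 3 (.thr 1 61 (.thr 9 57 (.thr 13 5 (.dbl 49 33 37)))))) (.nv (.thr 3 41 (.thr 28 19 (.thr 12 44 (.thr 6 9 (.dbl 38 51 54))))) (.rp 41 (.thr 28 19 (.thr 29 17 (.thr 30 31 (.thr 12 44 (.thr 63 46 (.thr 61 62 (.dbl 45 13 15))))))) (.rp 9 (.thr 19 28 (.thr 3 41 (.thr 51 35 (.thr 54 57 (.dbl 38 6 12))))) (.rp 3 (.thr 28 19 (.thr 29 17 (.thr 30 31 (.thr 12 44 (.thr 63 46 (.thr 61 62 (.dbl 45 13 15))))))) .nd)))))) (.rp 13 (.str 38 (.nv (.thr 54 6 (.thr 51 57 (.thr 55 4 (.thr 63 59 (.thr 61 62 (.dbl 41 1 3)))))) (.nv (.thr 54 6 (.thr 51 57 (.thr 3 41 (.thr 19 35 (.dbl 25 12 28))))) (.rp 57 (.thr 6 54 (.thr 3 41 (.thr 12 9 (.thr 25 51 (.dbl 28 19 44))))) (.rp 54 (.thr 55 4 (.thr 41 3 (.thr 44 35 (.thr 12 28 (.thr 51 25 (.thr 63 59 (.dbl 61 1 62))))))) (.rp 51 (.thr 54 6 (.thr 55 4 (.thr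 52 53 (.thr 48 56 (.thr 3 41 (.thr 18 33 (.thr 26 30 (.dbl 37 7 15)))))))) (.rp 41 (.thr 54 6 (.thr 55 4 (.thr 51 57 (.thr 63 59 (.thr 62 61 (.thr 58 50 (.dbl 53 48 52))))))) (.rp 12 (.thr 6 54 (.thr 4 55 (.thr 7 5 (.thr 3 41 (.thr 15 11 (.thr 30 45 (.thr 26 18 (.dbl 37 48 52)))))))) (.rp 6 (.thr 55 4 (.thr 41 3 (.thr 44 35 (.thr 12 28 (.thr 51 25 (.thr 63 59 (.dbl 61 1 62))))))) (.rp 3 (.thr 54 6 (.thr 55 4 (.thr 51 57 (.thr 63 59 (.thr 62 61 (.thr 58 50 (.dbl 53 48 52))))))) .nd)))))))))) (.rp 12 (.str 26 (.nv (.thr 30 18 (.thr 15 45 (.thr 31 16 (.thr 63 47 (.thr 61 62 (.dbl 41 1 3)))))) (.nv (.thr 30 18 (.thr 15 45 (.thr 3 41 (.thr 7 11 (.dbl 37 48 52))))) (.rp 48 (.thr 18 30 (.thr 16 31 (.thr 19 17 (.thr 3 41 (.thr 51 35 (.thr 54 57 (.thr 38 6 (.thr 50 14 (.thr 62 58 (.dbl 2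 34 42)))))))))) (.rp 45 (.thr 18 30 (.thr 3 41 (.thr 48 33 (.thr 37 15 (.dbl 52 7 56))))) (.rp 41 (.thr 30 18 (.thr 31 16 (.thr 15 45 (.thr 63 47 (.thr 62 61 (.thr 42 2 (.thr 58 10 (.dbl 48 37 53)))))))) (.rp 30 (.thr 31 16 (.thr 41 3 (.thr 56 11 (.thr 48 52 (.thr 15 37 (.thr 63 47 (.dbl 61 1 62))))))) (.rp 18 (.thr 31 16 (.thr 41 3 (.thr 56 11 (.thr 48 52 (.thr 15 37 (.thr 63 47 (.dbl 61 1 62))))))) (.rp 15 (.thr 18 30 (.thr 16 31 (.thr 19 17 (.thr 3 41 (.thr 51 35 (.thr 54 57 (.thr 38 6 (.thr 48 33 (.dbl 50 14 49))))))))) (.rp 8 (.str 4 (.nv (.thr 3 41 (.thr 38 55 (.thr 6 54 (.thr 7 5 (.thr 15 11 (.dbl 37 48 52)))))) (.nv (.thr 18 30 (.thr 38 55 (.thr 50 14 (.thr 2 34 (.thr 62 42 (.dbl 54 6 58)))))) (.nv (.thr 30 18 (.thr 15 45 (.thr 48 37 (.thr 56 52 (.dbl 41 3 11))))) (.rp 15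 (.thr 30 18 (.thr 38 55 (.thr 6 54 (.thr 14 50 (.thr 62 46 (.dbl 2 10 42)))))) .nd))))) (.rp 4 (.str 8 (.nv (.thr 41 3 (.thr 11 56 (.thr 9 10 (.thr 25 57 (.thr 59 42 (.dbl 27 24 43)))))) (.nv (.thr 18 30 (.thr 3 41 (.thr 48 33 (.thr 52 56 (.dbl 37 7 15))))) (.rp 56 (.thr 30 18 (.thr 3 41 (.thr 15 45 (.thr 7 11 (.dbl 37 48 52))))) (.rp 52 (.str 36 (.nv (.thr 30 18 (.thr 15 45 (.thr 31 16 (.thr 28 29 (.thr 63 47 (.thr 61 62 (.dbl 41 1 3))))))) (.nv (.thr 41 3 (.thr 11 56 (.thr 9 10 (.thr 25 57 (.thr 59 42 (.dbl 27 24 43)))))) (.rp 41 (.thr 30 18 (.thr 31 16 (.thr 15 45 (.thr 63 47 (.thr 62 61 (.thr 42 2 (.thr 58 10 (.dbl 48 37 53)))))))) (.rp 15 (.thr 18 30 (.thr 16 31 (.thr 19 17 (.thr 3 41 (.thr 48 33 (.thr 51 35 (.thr 54 57 (.thr 38 6 (.dbl 50 14 49))))))))) (.rp 3 (.thr 30 18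 (.thr 31 16 (.thr 15 45 (.thr 48 37 (.thr 63 47 (.thr 62 61 (.thr 58 53 (.dbl 42 2 10)))))))) (.rp 1 (.thr 30 18 (.thr 31 16 (.thr 28 29 (.thr 19 25 (.thr 23 27 (.thr 15 45 (.thr 63 47 (.dbl 3 41 43)))))))) .nd))))))) (.rp 41 (.thr 30 18 (.thr 31 16 (.thr 15 45 (.thr 63 47 (.thr 62 61 (.thr 42 2 (.thr 58 10 (.dbl 48 37 53)))))))) (.rp 36 (.str 52 (.nv (.thr 41 3 (.dbl 56 11 48)) (.nv (.thr 48 56 (.dbl 37 7 15)) (.rp 56 (.thr 30 18 (.thr 15 45 (.dbl 37 7 48))) (.rp 48 (.str 24 (.nv (.thr 16 31 (.thr 18 30 (.thr 17 19 (.dbl 25 27 29)))) (.nv (.thr 56 40 (.dbl 41 3 11)) (.rp 16 (.str 32 (.nv (.thr 25 27 (.thr 37 7 (.dbl 42 47 59))) (.nv (.thr 56 40 (.dbl 41 3 11)) .nd))) .nd)))) .nd))))) (.rp 15 (.thr 18 30 (.thr 16 31 (.thr 19 17 (.thr 3 41 (.thr 51 35 (.thr 54 57 (.thr 48 33 (.thr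 38 6 (.dbl 50 14 49))))))))) (.rp 3 (.thr 30 18 (.thr 31 16 (.thr 15 45 (.thr 63 47 (.thr 62 61 (.thr 48 37 (.thr 58 53 (.dbl 42 2 10)))))))) .nd))))))))) (.rp 3 (.thr 30 18 (.thr 31 16 (.thr 15 45 (.thr 63 47 (.thr 62 61 (.thr 48 37 (.thr 58 53 (.dbl 42 2 10)))))))) .nd)))))))))))) (.rp 11 (.str 25 (.nv (.thr 28 19 (.thr 12 44 (.thr 29 17 (.thr 41 3 (.thr 63 46 (.dbl 61 1 62)))))) (.nv (.thr 17 29 (.thr 41 3 (.thr 1 61 (.thr 9 57 (.thr 13 5 (.dbl 49 33 37)))))) (.nv (.thr 28 19 (.thr 12 44 (.thr 51 38 (.thr 57 54 (.dbl 41 3 9))))) (.rp 41 (.thr 28 19 (.thr 29 17 (.thr 30 31 (.thr 12 44 (.thr 63 46 (.thr 61 62 (.dbl 45 13 15))))))) (.rp 3 (.thr 28 19 (.thr 29 17 (.thr 30 31 (.thr 12 44 (.thr 63 46 (.thr 61 62 (.dbl 45 13 15))))))) .nd)))))) (.rp 10 (.str 15 (.nv (.thr 41 3 (.thr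 45 30 (.thr 37 33 (.thr 48 26 (.dbl 52 7 56))))) (.nv (.thr 30 45 (.thr 26 18 (.thr 31 16 (.thr 63 47 (.thr 62 61 (.thr 46 14 (.dbl 29 12 28))))))) (.nv (.thr 30 45 (.thr 26 18 (.thr 37 48 (.thr 3 41 (.dbl 7 11 52))))) (.rp 48 (.thr 45 30 (.thr 41 3 (.thr 33 37 (.thr 1 61 (.thr 17 49 (.thr 25 29 (.thr 57 9 (.thr 51 54 (.thr 12 38 (.dbl 28 19 44)))))))))) (.rp 45 (.thr 3 41 (.thr 7 11 (.thr 37 52 (.thr 5 53 (.thr 4 6 (.thr 55 38 (.thr 23 39 (.thr 26 48 (.thr 63 43 (.dbl 31 16 47)))))))))) (.rp 30 (.thr 3 41 (.thr 7 11 (.thr 37 52 (.thr 5 53 (.thr 4 6 (.thr 55 38 (.thr 23 39 (.thr 26 48 (.thr 63 43 (.dbl 31 16 47)))))))))) (.rp 26 (.thr 45 30 (.thr 41 3 (.thr 37 33 (.thr 52 7 (.thr 53 5 (.thr 54 55 (.thr 57 51 (.dbl 61 1 49)))))))) .nd)))))))) (.rp 9 (.str 26 (.nv (.thr 30 18 (.thr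 15 45 (.thr 31 16 (.thr 63 47 (.thr 61 62 (.dbl 41 1 3)))))) (.nv (.thr 30 18 (.thr 15 45 (.thr 48 37 (.thr 56 52 (.dbl 41 3 11))))) (.rp 48 (.thr 30 18 (.thr 15 45 (.thr 3 41 (.thr 7 11 (.thr 37 52 (.thr 5 53 (.thr 4 6 (.thr 55 38 (.thr 23 39 (.thr 63 43 (.dbl 31 16 47))))))))))) (.rp 45 (.thr 18 30 (.thr 3 41 (.thr 48 33 (.thr 37 15 (.dbl 52 7 56))))) (.rp 41 (.thr 30 18 (.thr 31 16 (.thr 15 45 (.thr 63 47 (.thr 62 61 (.thr 46 14 (.dbl 29 12 28))))))) (.rp 30 (.thr 31 16 (.thr 41 3 (.thr 56 11 (.thr 48 52 (.thr 15 37 (.thr 63 47 (.dbl 61 1 62))))))) (.rp 18 (.thr 31 16 (.thr 41 3 (.thr 56 11 (.thr 48 52 (.thr 15 37 (.thr 63 47 (.dbl 61 1 62))))))) (.rp 15 (.thr 18 30 (.thr 16 31 (.thr 19 17 (.thr 3 41 (.thr 51 35 (.thr 48 33 (.thr 52 56 (.thr 49 50 (.thr 37 7 (.dbl 25 13 28))))))))))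 (.rp 3 (.thr 30 18 (.thr 31 16 (.thr 15 45 (.thr 63 47 (.thr 62 61 (.thr 46 14 (.dbl 29 12 28))))))) .nd)))))))))) (.rp 8 (.str 12 (.nv (.thr 28 44 (.thr 25 19 (.thr 29 17 (.thr 30 31 (.thr 15 45 (.thr 14 13 (.dbl 46 62 63))))))) (.nv (.thr 28 44 (.thr 25 19 (.thr 51 38 (.thr 57 54 (.dbl 41 3 9))))) (.rp 51 (.thr 28 44 (.thr 25 19 (.thr 3 41 (.thr 6 9 (.thr 38 54 (.thr 4 55 (.thr 7 5 (.thr 52 37 (.thr 48 56 (.thr 24 36 (.thr 26 27 (.dbl 18 30 33)))))))))))) (.rp 44 (.thr 3 41 (.thr 6 9 (.thr 38 54 (.thr 4 55 (.thr 7 5 (.thr 52 37 (.thr 48 56 (.thr 24 36 (.thr 25 51 (.thr 26 27 (.dbl 18 30 33))))))))))) (.rp 28 (.thr 3 41 (.thr 6 9 (.thr 38 54 (.thr 4 55 (.thr 7 5 (.thr 52 37 (.thr 48 56 (.thr 24 36 (.thr 25 51 (.thr 26 27 (.dbl 18 30 33))))))))))) (.rp 25 (.thr 44 28 (.thr 41 3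 (.thr 38 35 (.thr 54 6 (.thr 55 4 (.thr 52 53 (.thr 56 48 (.thr 26 11 (.thr 14 50 (.thr 15 13 (.dbl 30 18 45))))))))))) (.rp 19 (.thr 44 28 (.thr 41 3 (.thr 38 35 (.thr 51 25 (.dbl 54 6 57))))) .nd)))))))) (.rp 7 (.str 25 (.nv (.thr 28 19 (.thr 12 44 (.thr 29 17 (.thr 41 3 (.thr 63 46 (.dbl 61 1 62)))))) (.nv (.thr 17 29 (.thr 41 3 (.thr 1 61 (.thr 9 57 (.thr 13 5 (.dbl 49 33 37)))))) (.nv (.thr 28 19 (.thr 12 44 (.thr 51 38 (.thr 57 54 (.dbl 41 3 9))))) (.rp 41 (.thr 28 19 (.thr 29 17 (.thr 30 31 (.thr 12 44 (.thr 63 46 (.thr 61 62 (.dbl 45 13 15))))))) (.rp 3 (.thr 28 19 (.thr 29 17 (.thr 30 31 (.thr 12 44 (.thr 63 46 (.thr 61 62 (.dbl 45 13 15))))))) .nd)))))) (.rp 6 (.str 25 (.nv (.thr 28 19 (.thr 12 44 (.thr 29 17 (.thr 30 31 (.thr 15 45 (.thr 14 13 (.dbl 46 62 63))))))) (.nv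 (.thr 17 29 (.thr 41 3 (.thr 9 57 (.thr 1 61 (.thr 13 5 (.dbl 49 33 37)))))) (.nv (.thr 28 19 (.thr 12 44 (.thr 51 38 (.thr 57 54 (.dbl 41 3 9))))) .nd)))) (.rp 5 (.str 15 (.nv (.thr 30 45 (.thr 26 18 (.thr 31 16 (.thr 63 47 (.thr 62 61 (.thr 46 14 (.dbl 29 12 28))))))) (.nv (.thr 30 45 (.thr 26 18 (.thr 3 41 (.thr 7 11 (.dbl 37 48 52))))) (.rp 48 (.thr 45 30 (.thr 41 3 (.thr 33 37 (.thr 1 61 (.thr 17 49 (.thr 25 29 (.thr 57 9 (.thr 51 54 (.thr 12 38 (.dbl 28 19 44)))))))))) (.rp 45 (.thr 3 41 (.thr 7 11 (.thr 37 52 (.thr 26 48 (.thr 18 30 (.thr 16 31 (.thr 19 17 (.thr 51 35 (.thr 27 39 (.dbl 25 24 28)))))))))) (.rp 30 (.str 63 (.nv (.thr 41 3 (.dbl 61 1 62)) (.rp 62 (.thr 31 47 (.thr 26 16 (.thr 48 37 (.thr 56 52 (.dbl 41 3 11))))) (.rp 61 (.thr 31 47 (.thr 26 16 (.thr 48 37 (.thr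 56 52 (.dbl 41 3 11))))) (.rp 41 (.thr 62 61 (.thr 31 47 (.thr 26 16 (.thr 48 37 (.thr 58 53 (.dbl 42 2 10)))))) (.rp 3 (.thr 61 62 (.thr 31 47 (.thr 26 16 (.thr 48 37 (.thr 56 52 (.dbl 41 1 11)))))) (.rp 2 (.thr 61 62 (.dbl 41 1 3)) (.rp 1 (.thr 31 47 (.thr 26 16 (.thr 48 37 (.thr 56 52 (.dbl 41 3 11))))) .nd)))))))) (.rp 26 (.thr 45 30 (.thr 41 3 (.thr 33 37 (.thr 1 61 (.thr 17 49 (.thr 25 29 (.thr 57 9 (.thr 51 54 (.thr 12 38 (.dbl 28 19 44)))))))))) (.rp 18 (.thr 45 30 (.thr 41 3 (.thr 37 33 (.thr 48 26 (.dbl 52 7 56))))) .nd)))))))) (.rp 4 (.str 52 (.nv (.thr 3 41 (.thr 37 7 (.thr 48 56 (.thr 26 15 (.dbl 18 30 33))))) (.nv (.thr 37 7 (.thr 5 53 (.thr 41 3 (.thr 1 61 (.thr 13 9 (.thr 33 45 (.dbl 49 17 25))))))) (.nv (.thr 3 41 (.thr 48 56 (.thr 18 33 (.thr 26 30 (.dbl 37 7 15)))))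 (.rp 41 (.thr 37 7 (.thr 48 56 (.thr 26 15 (.thr 30 18 (.thr 31 16 (.thr 28 29 (.thr 12 44 (.thr 24 36 (.dbl 25 19 27))))))))) (.rp 37 (.str 12 (.nv (.thr 28 44 (.thr 25 19 (.thr 29 17 (.thr 63 46 (.thr 61 62 (.dbl 41 1 3)))))) (.nv (.thr 3 41 (.thr 28 44 (.thr 25 19 (.thr 48 56 (.thr 24 36 (.thr 26 27 (.dbl 18 30 33))))))) (.nv (.thr 28 44 (.thr 25 19 (.thr 38 51 (.thr 6 54 (.dbl 3 9 41))))) (.rp 44 (.thr 48 56 (.thr 24 36 (.thr 3 41 (.thr 6 9 (.thr 38 54 (.thr 25 51 (.thr 26 27 (.dbl 18 30 33)))))))) (.rp 41 (.thr 28 44 (.thr 48 56 (.thr 24 36 (.thr 25 19 (.thr 29 17 (.thr 30 31 (.dbl 26 18 27))))))) (.rp 28 (.thr 48 56 (.thr 24 36 (.thr 3 41 (.thr 6 9 (.thr 38 54 (.thr 25 51 (.thr 26 27 (.dbl 18 30 33)))))))) (.rp 25 (.thr 44 28 (.thr 48 56 (.thr 41 3 (.thr 38 35 (.thr 54 6 (.thr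 53 55 (.thr 63 58 (.dbl 61 1 62)))))))) (.rp 19 (.thr 44 28 (.thr 41 3 (.thr 38 35 (.thr 51 25 (.dbl 54 6 57))))) (.rp 3 (.thr 28 44 (.thr 48 56 (.thr 24 36 (.thr 25 19 (.thr 29 17 (.thr 30 31 (.dbl 26 18 27))))))) .nd)))))))))) (.rp 33 (.thr 37 7 (.thr 48 56 (.thr 26 15 (.thr 30 18 (.thr 31 16 (.thr 28 29 (.thr 12 44 (.thr 24 36 (.dbl 25 19 27))))))))) (.rp 15 (.thr 37 7 (.thr 5 53 (.thr 56 48 (.thr 41 3 (.thr 11 26 (.thr 1 61 (.thr 13 9 (.thr 49 25 (.dbl 33 17 45))))))))) (.rp 12 (.str 8 (.nv (.thr 3 41 (.thr 37 7 (.thr 48 56 (.thr 26 15 (.dbl 18 30 33))))) (.nv (.thr 37 7 (.thr 5 53 (.thr 41 3 (.thr 1 61 (.thr 33 45 (.thr 49 17 (.dbl 13 9 25))))))) (.nv (.thr 3 41 (.thr 48 56 (.thr 18 33 (.thr 26 30 (.dbl 37 7 15))))) (.rp 41 (.thr 37 7 (.thr 48 56 (.thr 26 15 (.thr 16 31 (.thr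 18 30 (.thr 3 33 (.thr 19 17 (.thr 51 35 (.thr 54 57 (.dbl 53 5 55)))))))))) (.rp 37 (.thr 56 48 (.thr 24 40 (.thr 41 3 (.thr 26 11 (.thr 25 27 (.thr 59 42 (.dbl 57 9 58))))))) (.rp 33 (.thr 37 7 (.thr 5 53 (.thr 41 3 (.thr 1 61 (.thr 9 13 (.thr 11 10 (.dbl 56 26 48))))))) (.rp 15 (.thr 37 7 (.thr 5 53 (.thr 56 48 (.thr 41 3 (.thr 11 26 (.thr 9 10 (.dbl 1 13 61))))))) (.rp 7 (.thr 56 48 (.thr 41 3 (.thr 11 26 (.thr 9 10 (.thr 25 57 (.thr 42 59 (.dbl 40 24 43))))))) (.rp 3 (.thr 37 7 (.thr 5 53 (.thr 48 56 (.thr 15 26 (.thr 45 30 (.thr 41 33 (.thr 1 61 (.thr 9 13 (.thr 57 25 (.thr 11 10 (.thr 51 54 (.thr 27 39 (.thr 43 59 (.thr 42 40 (.thr 47 32 (.thr 2 62 (.thr 50 49 (.thr 34 18 (.dbl 46 38 44))))))))))))))))))) .nd)))))))))) (.rp 8 (.str 12 (.nv (.thr 3 41 (.thr 37 7 (.thr 48 56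 (.thr 18 33 (.dbl 26 15 30))))) (.nv (.thr 28 44 (.thr 25 19 (.thr 51 38 (.thr 57 54 (.dbl 41 3 9))))) (.rp 41 (.thr 37 7 (.thr 28 44 (.thr 48 56 (.thr 26 15 (.thr 30 18 (.dbl 31 16 29)))))) (.rp 3 (.thr 37 7 (.thr 28 44 (.thr 48 56 (.thr 15 26 (.thr 13 14 (.dbl 25 19 49)))))) .nd))))) (.rp 7 (.thr 48 56 (.thr 3 41 (.thr 18 33 (.thr 26 30 (.thr 16 31 (.thr 19 17 (.thr 51 35 (.thr 49 50 (.thr 37 15 (.dbl 25 13 28)))))))))) (.rp 3 (.thr 37 7 (.thr 5 53 (.thr 48 56 (.thr 15 26 (.thr 45 30 (.thr 41 33 (.thr 1 61 (.thr 13 9 (.thr 12 14 (.thr 28 44 (.dbl 25 19 49))))))))))) .nd)))))))))))) (.rp 3 (.str 51 (.nv (.thr 54 57 (.thr 38 6 (.thr 12 25 (.thr 55 4 (.thr 52 53 (.thr 48 56 (.thr 36 24 (.dbl 37 7 39)))))))) (.nv (.thr 54 57 (.thr 38 6 (.thr 12 25 (.thr 44 28 (.thr 41 35 (.thr 55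 4 (.thr 63 59 (.dbl 61 1 62)))))))) (.nv (.thr 54 57 (.thr 38 6 (.thr 55 4 (.thr 63 59 (.thr 62 61 (.thr 58 50 (.dbl 53 48 52))))))) (.rp 61 (.thr 54 57 (.thr 38 6 (.thr 12 25 (.thr 28 44 (.thr 55 4 (.thr 63 59 (.thr 29 46 (.thr 31 30 (.thr 26 16 (.thr 14 50 (.dbl 15 13 47))))))))))) (.rp 59 (.thr 54 57 (.thr 38 6 (.thr 12 25 (.thr 55 4 (.thr 52 53 (.thr 7 37 (.thr 39 23 (.thr 15 27 (.thr 30 45 (.thr 26 18 (.dbl 14 13 50))))))))))) (.rp 58 (.thr 54 57 (.thr 38 6 (.thr 12 25 (.thr 55 4 (.thr 52 53 (.thr 59 63 (.thr 48 56 (.thr 36 24 (.dbl 37 7 39))))))))) (.rp 57 (.str 25 (.nv (.thr 28 19 (.dbl 12 38 44)) (.rp 44 (.thr 29 17 (.thr 28 19 (.thr 30 31 (.thr 15 45 (.thr 27 39 (.dbl 26 18 24)))))) (.rp 38 (.thr 29 17 (.thr 28 19 (.thr 30 31 (.thr 15 45 (.thr 27 39 (.dbl 26 18 24))))))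 (.rp 28 (.thr 29 17 (.thr 12 38 (.thr 63 46 (.thr 59 55 (.thr 62 61 (.dbl 42 2 8)))))) (.rp 19 (.thr 29 17 (.thr 12 38 (.thr 63 46 (.thr 59 55 (.thr 62 61 (.dbl 42 2 8)))))) (.rp 12 (.thr 29 17 (.thr 28 19 (.thr 30 31 (.thr 15 45 (.thr 27 39 (.dbl 26 18 24)))))) (.rp 2 (.str 1 (.nv (.thr 12 38 (.thr 29 17 (.thr 63 46 (.dbl 61 41 62)))) (.nv (.thr 28 19 (.dbl 12 38 44)) (.rp 38 (.thr 17 29 (.thr 49 33 (.thr 48 50 (.thr 52 56 (.dbl 37 7 13))))) (.rp 12 (.thr 17 29 (.thr 49 33 (.thr 48 50 (.thr 52 56 (.dbl 37 7 13))))) .nd))))) (.rp 1 (.str 2 (.nv (.thr 12 38 (.thr 29 17 (.thr 62 42 (.dbl 63 46 61)))) (.nv (.thr 28 19 (.dbl 12 38 44)) (.rp 38 (.thr 28 19 (.thr 29 17 (.thr 62 42 (.thr 63 61 (.dbl 12 44 46))))) (.rp 12 (.thr 28 19 (.thr 29 17 (.thr 30 31 (.thr 62 42 (.thr 61 63 (.dbl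 45 13 15)))))) .nd))))) .nd))))))))) (.rp 56 (.thr 54 57 (.thr 38 6 (.thr 12 25 (.thr 55 4 (.thr 52 53 (.thr 7 37 (.thr 39 23 (.thr 15 27 (.thr 30 45 (.thr 26 18 (.dbl 14 13 50))))))))))) (.rp 55 (.thr 54 57 (.str 61 (.nv (.thr 62 63 (.thr 2 42 (.thr 50 58 (.thr 18 34 (.thr 26 30 (.dbl 38 6 14)))))) (.nv (.thr 38 6 (.thr 12 25 (.thr 44 28 (.dbl 41 1 35)))) (.rp 38 (.thr 62 63 (.thr 50 58 (.thr 48 49 (.thr 56 52 (.thr 41 1 (.thr 2 42 (.thr 26 11 (.dbl 18 30 34)))))))) (.rp 6 (.thr 62 63 (.thr 50 58 (.thr 48 49 (.thr 56 52 (.thr 41 1 (.thr 2 42 (.thr 26 11 (.dbl 18 30 34)))))))) (.rp 2 (.thr 1 41 (.thr 62 63 (.thr 50 58 (.thr 38 6 (.thr 14 26 (.thr 30 46 (.thr 15 45 (.dbl 12 13 25)))))))) (.rp 1 (.str 2 (.nv (.dbl 62 42 63) (.rp 63 (.thr 62 42 (.thr 50 58 (.thr 18 34 (.thr 26 30 (.dbl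 38 6 14))))) (.rp 62 (.str 26 (.nv (.thr 30 18 (.thr 31 16 (.thr 45 15 (.dbl 29 13 28)))) (.nv (.thr 18 30 (.thr 50 34 (.dbl 38 6 14))) (.rp 30 (.thr 38 6 (.thr 14 50 (.thr 12 25 (.thr 15 13 (.thr 39 27 (.dbl 37 36 48)))))) (.rp 18 (.thr 38 6 (.thr 50 14 (.thr 48 49 (.thr 52 56 (.dbl 37 7 15))))) .nd))))) (.rp 42 (.thr 62 63 (.thr 50 58 (.thr 18 34 (.thr 26 30 (.dbl 38 6 14))))) .nd))))) .nd)))))))) (.rp 54 (.str 25 (.nv (.thr 28 19 (.dbl 12 38 44)) (.rp 44 (.thr 29 17 (.thr 28 19 (.thr 30 31 (.thr 15 45 (.thr 27 39 (.dbl 26 18 24)))))) (.rp 38 (.thr 29 17 (.thr 28 19 (.thr 30 31 (.thr 15 45 (.thr 27 39 (.dbl 26 18 24)))))) (.rp 28 (.thr 29 17 (.thr 12 38 (.thr 63 46 (.thr 59 55 (.thr 62 61 (.dbl 42 2 8)))))) (.rp 19 (.thr 29 17 (.thr 12 38 (.thr 63 46 (.thr 59 55 (.thr 62 61 (.dbl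 42 2 8)))))) (.rp 12 (.thr 29 17 (.thr 28 19 (.thr 30 31 (.thr 15 45 (.thr 27 39 (.dbl 26 18 24)))))) (.rp 2 (.str 1 (.nv (.thr 12 38 (.thr 29 17 (.thr 63 46 (.dbl 61 41 62)))) (.nv (.thr 28 19 (.dbl 12 38 44)) (.rp 38 (.thr 17 29 (.thr 61 41 (.thr 49 33 (.thr 53 57 (.dbl 37 5 13))))) (.rp 12 (.thr 17 29 (.thr 61 41 (.thr 49 33 (.thr 53 57 (.dbl 37 5 13))))) .nd))))) (.rp 1 (.str 2 (.nv (.thr 12 38 (.thr 29 17 (.thr 62 42 (.dbl 63 46 61)))) (.nv (.thr 28 19 (.dbl 12 38 44)) (.rp 38 (.thr 28 19 (.thr 29 17 (.thr 62 42 (.thr 63 61 (.dbl 12 44 46))))) (.rp 12 (.thr 28 19 (.thr 29 17 (.thr 30 31 (.thr 62 42 (.thr 61 63 (.dbl 45 13 15)))))) .nd))))) .nd))))))))) (.rp 52 (.thr 54 57 (.thr 38 6 (.thr 12 25 (.thr 44 28 (.thr 41 35 (.str 36 (.nv (.thr 1 61 (.thr 37 39 (.thr 33 45 (.thr 49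 17 (.dbl 48 24 50))))) (.nv (.thr 55 4 (.thr 63 59 (.dbl 61 1 62))) (.nv (.thr 32 40 (.thr 37 39 (.thr 47 42 (.dbl 45 33 46)))) (.rp 24 (.str 16 (.nv (.thr 55 4 (.thr 63 59 (.dbl 61 1 62))) (.nv (.thr 26 31 (.thr 30 18 (.thr 15 45 (.dbl 37 39 48)))) (.rp 26 (.str 27 (.nv (.thr 55 4 (.thr 63 59 (.dbl 61 1 62))) (.nv (.dbl 39 15 37) (.rp 2 (.thr 1 61 (.dbl 39 15 37)) (.rp 1 (.str 2 (.nv (.thr 40 32 (.dbl 42 43 62)) (.nv (.dbl 39 15 37) .nd))) .nd))))) (.rp 2 (.thr 1 61 (.thr 32 40 (.thr 37 39 (.thr 45 33 (.dbl 47 42 46))))) (.rp 1 (.str 2 (.nv (.thr 26 31 (.thr 50 14 (.dbl 18 30 34))) (.nv (.thr 42 62 (.dbl 40 32 43)) (.rp 26 (.str 27 (.nv (.thr 40 32 (.dbl 42 43 62)) (.nv (.dbl 39 15 37) .nd))) .nd)))) .nd)))))) (.rp 16 (.thr 24 48 (.thr 32 40 (.thr 37 39 (.thr 47 42 (.dbl 45 33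 46))))) (.rp 1 (.str 2 (.nv (.thr 55 4 (.thr 62 42 (.dbl 63 59 61))) (.nv (.thr 37 39 (.thr 45 33 (.thr 15 30 (.dbl 48 24 26)))) (.nv (.thr 42 62 (.dbl 40 32 43)) (.rp 24 (.str 16 (.nv (.thr 26 31 (.thr 50 14 (.dbl 18 30 34))) (.nv (.thr 42 62 (.dbl 40 32 43)) (.rp 26 (.str 27 (.nv (.thr 40 32 (.dbl 42 43 62)) (.nv (.dbl 39 15 37) .nd))) .nd)))) (.rp 16 (.thr 24 48 (.thr 32 40 (.thr 37 39 (.dbl 42 47 62)))) .nd)))))) .nd)))))))))))) (.rp 38 (.str 53 (.nv (.thr 57 54 (.thr 49 61 (.thr 48 50 (.thr 56 52 (.dbl 58 59 63))))) (.nv (.thr 54 57 (.thr 52 55 (.dbl 37 5 7))) (.rp 57 (.thr 37 5 (.thr 52 7 (.thr 55 54 (.thr 63 59 (.dbl 48 56 58))))) (.rp 54 (.thr 37 5 (.thr 52 7 (.thr 48 56 (.thr 49 50 (.thr 61 57 (.dbl 63 58 62)))))) (.rp 52 (.thr 57 54 (.thr 61 49 (.thr 63 62 (.thr 59 55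 (.dbl 58 48 56))))) (.rp 2 (.str 1 (.nv (.thr 37 5 (.thr 52 7 (.dbl 54 55 57))) (.nv (.thr 57 54 (.dbl 61 41 49)) (.rp 57 (.thr 61 41 (.thr 63 62 (.thr 55 59 (.thr 52 54 (.dbl 48 56 58))))) (.rp 54 (.thr 61 41 (.thr 49 57 (.thr 48 50 (.dbl 63 58 62)))) .nd))))) (.rp 1 (.str 2 (.nv (.thr 37 5 (.thr 52 7 (.thr 48 56 (.thr 62 42 (.dbl 63 58 61))))) (.nv (.thr 57 54 (.thr 61 49 (.dbl 62 42 63))) (.nv (.thr 54 57 (.thr 52 55 (.dbl 37 5 7))) .nd)))) .nd)))))))) (.rp 36 (.thr 54 57 (.thr 38 6 (.thr 12 25 (.thr 44 28 (.thr 41 35 (.thr 55 4 (.thr 52 53 (.thr 63 59 (.dbl 61 1 62))))))))) (.rp 12 (.thr 54 57 (.thr 6 38 (.str 52 (.nv (.thr 48 56 (.thr 50 49 (.thr 53 55 (.dbl 58 62 63)))) (.nv (.thr 53 55 (.dbl 37 5 7)) (.rp 55 (.thr 48 56 (.thr 50 49 (.thr 58 62 (.thr 53 63 (.dbl 37 5 7)))))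 (.rp 53 (.thr 48 56 (.thr 49 50 (.thr 37 7 (.thr 25 13 (.thr 28 19 (.thr 29 17 (.thr 30 31 (.dbl 26 15 18)))))))) (.rp 8 (.str 4 (.nv (.dbl 7 5 37) (.rp 37 (.thr 53 55 (.thr 48 56 (.thr 50 49 (.dbl 58 62 63)))) (.rp 7 (.thr 53 55 (.thr 48 56 (.thr 50 49 (.dbl 58 62 63)))) (.rp 5 (.thr 53 55 (.thr 48 56 (.thr 50 49 (.dbl 58 62 63)))) (.rp 2 (.str 1 (.nv (.thr 55 53 (.thr 61 41 (.dbl 63 59 62))) (.nv (.dbl 7 5 37) .nd))) (.rp 1 (.str 2 (.nv (.thr 48 56 (.thr 50 49 (.dbl 62 42 58))) (.nv (.dbl 7 5 37) .nd))) .nd))))))) (.rp 4 (.str 8 (.nv (.thr 48 56 (.thr 50 49 (.thr 53 55 (.dbl 58 62 63)))) (.nv (.thr 53 55 (.dbl 37 5 7)) (.rp 55 (.thr 48 56 (.thr 50 49 (.thr 58 62 (.thr 53 63 (.dbl 37 5 7))))) (.rp 53 (.thr 48 56 (.thr 49 50 (.thr 37 7 (.thr 25 13 (.thr 28 19 (.thr 29 17 (.thr 30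 31 (.dbl 26 15 18)))))))) (.rp 2 (.str 1 (.nv (.thr 48 56 (.thr 50 49 (.thr 61 41 (.dbl 62 58 63)))) (.nv (.thr 53 55 (.dbl 37 5 7)) .nd))) (.rp 1 (.str 2 (.nv (.thr 48 56 (.thr 62 42 (.dbl 50 49 58))) (.nv (.thr 53 55 (.dbl 37 5 7)) .nd))) .nd))))))) (.rp 2 (.str 1 (.nv (.thr 48 56 (.thr 50 49 (.thr 61 41 (.dbl 62 58 63)))) (.nv (.thr 53 55 (.dbl 37 5 7)) (.rp 8 (.str 4 (.nv (.thr 55 53 (.thr 61 41 (.dbl 63 59 62))) (.nv (.dbl 7 5 37) .nd))) (.rp 4 (.str 8 (.nv (.thr 48 56 (.thr 50 49 (.thr 61 41 (.dbl 62 58 63)))) (.nv (.thr 53 55 (.dbl 37 5 7)) .nd))) .nd))))) (.rp 1 (.str 2 (.nv (.thr 48 56 (.thr 62 42 (.dbl 50 49 58))) (.nv (.thr 53 55 (.dbl 37 5 7)) (.rp 8 (.str 4 (.nv (.thr 48 56 (.thr 50 49 (.dbl 62 42 58))) (.nv (.dbl 7 5 37) .nd))) (.rp 4 (.str 8 (.nv (.thr 48 56 (.thr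 62 42 (.dbl 50 49 58))) (.nv (.thr 53 55 (.dbl 37 5 7)) .nd))) .nd))))) .nd))))))))))) (.rp 9 (.str 12 (.nv (.thr 38 25 (.dbl 54 6 57)) (.nv (.thr 28 44 (.dbl 25 19 38)) (.rp 38 (.thr 28 44 (.thr 25 19 (.thr 29 17 (.thr 30 31 (.thr 63 46 (.thr 61 62 (.dbl 45 13 15))))))) (.rp 25 (.thr 57 54 (.str 52 (.nv (.thr 37 7 (.thr 48 56 (.thr 36 24 (.thr 39 38 (.dbl 15 26 27))))) (.nv (.thr 48 56 (.thr 49 50 (.thr 53 61 (.dbl 37 5 7)))) (.rp 56 (.thr 37 7 (.thr 53 5 (.thr 49 61 (.thr 48 50 (.thr 36 24 (.thr 39 38 (.dbl 15 26 27))))))) (.rp 48 (.thr 37 7 (.thr 53 5 (.thr 61 49 (.thr 63 62 (.thr 29 46 (.thr 28 44 (.thr 30 31 (.dbl 45 13 15)))))))) (.rp 37 (.thr 56 48 (.thr 59 58 (.thr 63 55 (.thr 62 61 (.thr 46 29 (.thr 30 14 (.thr 44 28 (.dbl 45 15 47)))))))) (.rp 7 (.thr 48 56 (.thr 49 50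 (.thr 53 61 (.thr 36 24 (.thr 37 5 (.thr 39 38 (.dbl 15 26 27))))))) (.rp 2 (.str 1 (.nv (.thr 48 56 (.thr 49 50 (.dbl 61 41 53))) (.nv (.thr 37 7 (.thr 48 56 (.thr 36 24 (.thr 39 38 (.dbl 15 26 27))))) (.nv (.thr 61 41 (.thr 53 49 (.dbl 37 5 7))) .nd)))) (.rp 1 (.str 2 (.nv (.thr 48 56 (.thr 49 50 (.thr 61 53 (.dbl 62 42 63)))) (.nv (.thr 37 7 (.thr 62 42 (.thr 61 63 (.dbl 53 5 49)))) (.nv (.thr 37 7 (.thr 48 56 (.thr 36 24 (.thr 39 38 (.dbl 15 26 27))))) (.nv (.thr 48 56 (.thr 49 50 (.thr 53 61 (.dbl 37 5 7)))) (.rp 13 (.str 5 (.nv (.dbl 37 7 53) (.rp 53 (.thr 56 48 (.thr 59 58 (.thr 63 55 (.dbl 62 42 61)))) (.rp 37 (.str 49 (.nv (.thr 61 53 (.dbl 62 42 63)) (.nv (.dbl 48 50 56) .nd))) (.rp 7 (.thr 48 56 (.thr 49 50 (.dbl 53 37 61))) .nd))))) (.rp 5 (.str 13 (.nv (.thr 15 14 (.thr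 45 30 (.thr 61 29 (.dbl 62 42 63)))) (.nv (.thr 15 14 (.thr 48 56 (.dbl 37 7 26))) (.rp 15 (.str 10 (.nv (.thr 14 6 (.thr 62 42 (.thr 46 30 (.dbl 63 29 61)))) (.nv (.thr 14 6 (.thr 48 56 (.thr 50 49 (.thr 18 34 (.dbl 26 30 38))))) (.nv (.thr 42 62 (.thr 58 26 (.dbl 56 48 59))) (.rp 11 (.thr 7 37 (.thr 14 6 (.thr 62 42 (.thr 63 61 (.dbl 46 29 30))))) (.rp 7 (.str 11 (.nv (.thr 48 56 (.thr 50 49 (.thr 18 34 (.thr 26 30 (.dbl 14 6 38))))) (.nv (.thr 62 42 (.thr 63 61 (.thr 46 29 (.dbl 14 6 30)))) (.nv (.thr 42 62 (.thr 58 26 (.dbl 56 48 59))) (.rp 6 (.str 4 (.nv (.thr 55 38 (.thr 56 48 (.dbl 59 58 63))) (.nv (.thr 42 62 (.thr 56 48 (.dbl 26 41 58))) (.nv (.thr 55 38 (.thr 63 59 (.dbl 62 42 61))) .nd)))) (.rp 4 (.thr 6 14 (.thr 56 48 (.thr 58 59 (.dbl 26 41 42)))) .nd)))))) .nd))))))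 (.rp 14 (.thr 48 56 (.thr 49 50 (.thr 61 53 (.dbl 62 42 63)))) .nd))))) .nd))))))) .nd)))))))))) (.rp 2 (.str 1 (.nv (.thr 38 25 (.dbl 54 6 57)) (.nv (.thr 28 44 (.dbl 25 19 38)) (.rp 38 (.thr 28 44 (.thr 25 19 (.thr 29 17 (.thr 63 46 (.dbl 61 41 62))))) (.rp 25 (.thr 44 28 (.thr 54 57 (.thr 41 61 (.dbl 38 6 35)))) .nd))))) (.rp 1 (.str 2 (.nv (.thr 38 25 (.dbl 54 6 57)) (.nv (.thr 28 44 (.dbl 25 19 38)) (.rp 38 (.thr 62 42 (.thr 63 61 (.thr 28 44 (.thr 25 19 (.dbl 29 17 46))))) (.rp 25 (.thr 62 42 (.thr 63 61 (.thr 46 29 (.thr 30 14 (.thr 44 28 (.dbl 45 15 47)))))) (.rp 13 (.str 5 (.nv (.thr 53 37 (.thr 57 54 (.thr 62 42 (.dbl 61 49 63)))) (.nv (.thr 28 44 (.dbl 25 19 38)) (.rp 25 (.thr 57 54 (.thr 62 42 (.thr 61 63 (.dbl 53 37 49)))) .nd)))) (.rp 5 (.str 13 (.nv (.thr 15 14 (.thr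 45 30 (.thr 62 42 (.dbl 61 29 63)))) (.nv (.thr 28 44 (.dbl 25 19 38)) (.rp 15 (.str 10 (.nv (.thr 25 38 (.dbl 28 19 44)) (.nv (.thr 6 14 (.dbl 54 38 57)) (.rp 38 (.thr 14 6 (.thr 62 42 (.thr 63 61 (.dbl 46 29 30)))) (.rp 11 (.str 7 (.nv (.thr 25 38 (.dbl 28 19 44)) (.nv (.thr 6 14 (.dbl 54 38 57)) (.rp 38 (.thr 28 44 (.thr 25 19 (.dbl 37 49 52))) .nd)))) (.rp 7 (.str 11 (.nv (.thr 25 38 (.dbl 28 19 44)) (.nv (.thr 6 14 (.dbl 54 38 57)) (.rp 38 (.thr 62 42 (.thr 63 61 (.thr 46 29 (.dbl 14 6 30)))) (.rp 6 (.str 4 (.nv (.dbl 38 25 55) (.rp 55 (.thr 25 38 (.dbl 28 19 44)) (.rp 38 (.thr 62 42 (.thr 63 61 (.thr 28 44 (.thr 25 19 (.dbl 29 17 46))))) (.rp 25 (.thr 62 42 (.thr 63 61 (.dbl 55 38 59))) .nd))))) .nd))))) .nd)))))) .nd)))) .nd))))))) .nd))))))) (.rp 8 (.thr 54 57 (.thr 38 6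 (.thr 12 25 (.thr 55 4 (.thr 52 53 (.thr 7 37 (.thr 39 23 (.thr 15 27 (.thr 30 45 (.thr 26 18 (.dbl 14 13 50))))))))))) (.rp 7 (.thr 54 57 (.str 15 (.nv (.thr 30 45 (.thr 38 6 (.thr 12 25 (.thr 14 13 (.thr 50 26 (.dbl 62 46 58)))))) (.nv (.thr 27 39 (.thr 30 45 (.thr 26 18 (.thr 25 24 (.thr 28 19 (.dbl 29 17 31)))))) (.nv (.thr 30 45 (.thr 26 18 (.thr 31 16 (.thr 28 29 (.thr 12 44 (.dbl 25 19 38)))))) (.nv (.thr 39 27 (.thr 38 6 (.thr 4 55 (.thr 37 36 (.thr 30 45 (.dbl 26 18 48)))))) (.rp 45 (.thr 38 6 (.thr 12 25 (.thr 14 13 (.thr 39 27 (.thr 37 36 (.dbl 26 48 50)))))) (.rp 30 (.thr 38 6 (.thr 12 25 (.thr 14 13 (.thr 39 27 (.thr 37 36 (.dbl 26 48 50)))))) (.rp 26 (.thr 38 6 (.thr 30 45 (.thr 12 25 (.thr 14 13 (.thr 28 44 (.thr 29 31 (.dbl 46 62 63))))))) (.rp 2 (.str 1 (.nv (.thr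 38 6 (.thr 61 41 (.thr 63 62 (.dbl 55 4 59)))) (.nv (.thr 27 39 (.thr 30 45 (.thr 26 18 (.thr 25 24 (.dbl 38 6 12))))) (.nv (.thr 30 45 (.thr 26 18 (.thr 48 37 (.thr 56 52 (.dbl 41 11 61))))) (.nv (.thr 45 30 (.thr 61 41 (.thr 29 13 (.thr 25 17 (.dbl 38 6 12))))) .nd))))) (.rp 1 (.str 2 (.nv (.thr 38 6 (.thr 62 42 (.thr 63 61 (.dbl 55 4 59)))) (.nv (.thr 30 45 (.thr 18 26 (.thr 50 34 (.dbl 62 42 58)))) (.nv (.thr 27 39 (.thr 30 45 (.thr 26 18 (.thr 25 24 (.dbl 38 6 12))))) (.nv (.thr 6 38 (.thr 30 45 (.thr 14 10 (.dbl 62 42 46)))) .nd))))) .nd))))))))))) (.rp 6 (.str 12 (.nv (.thr 25 38 (.dbl 28 19 44)) (.rp 44 (.thr 57 54 (.thr 25 38 (.thr 29 17 (.thr 63 46 (.thr 61 62 (.dbl 41 1 9)))))) (.rp 38 (.thr 57 54 (.thr 28 44 (.thr 25 19 (.thr 29 17 (.thr 63 46 (.thr 61 62 (.dbl 41 1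 9))))))) (.rp 28 (.thr 57 54 (.thr 25 38 (.thr 29 17 (.thr 63 46 (.thr 61 62 (.dbl 41 1 9)))))) (.rp 25 (.thr 28 44 (.str 61 (.nv (.thr 1 41 (.thr 57 54 (.thr 63 62 (.thr 59 55 (.thr 58 56 (.dbl 53 48 49)))))) (.nv (.thr 63 62 (.thr 29 46 (.thr 30 31 (.dbl 45 13 15)))) (.rp 63 (.thr 57 54 (.thr 53 49 (.thr 1 41 (.thr 5 37 (.thr 13 9 (.thr 15 14 (.dbl 45 29 30))))))) (.rp 62 (.thr 57 54 (.thr 53 49 (.thr 1 41 (.thr 5 37 (.thr 13 9 (.thr 15 14 (.dbl 45 29 30))))))) (.rp 1 (.str 2 (.nv (.dbl 62 42 63) (.rp 63 (.thr 54 57 (.thr 62 42 (.thr 50 58 (.thr 48 49 (.thr 18 34 (.thr 26 30 (.thr 37 15 (.dbl 52 7 56)))))))) (.rp 62 (.thr 57 54 (.thr 49 53 (.thr 50 48 (.thr 18 34 (.thr 30 26 (.thr 29 31 (.dbl 45 13 15))))))) (.rp 42 (.thr 63 62 (.thr 29 46 (.thr 30 31 (.dbl 45 13 15)))) .nd)))))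 .nd))))))) (.rp 19 (.thr 57 54 (.thr 25 38 (.thr 29 17 (.thr 63 46 (.thr 61 62 (.dbl 41 1 9)))))) (.rp 2 (.str 1 (.nv (.thr 25 38 (.thr 41 61 (.dbl 57 9 54))) (.nv (.thr 28 44 (.dbl 25 19 38)) (.rp 38 (.thr 28 44 (.thr 25 19 (.thr 57 54 (.dbl 41 9 61)))) (.rp 25 (.thr 28 44 (.thr 61 41 (.thr 63 62 (.thr 29 46 (.thr 45 13 (.dbl 30 15 31)))))) (.rp 14 (.str 10 (.nv (.thr 25 38 (.thr 41 61 (.dbl 57 9 54))) (.nv (.thr 28 44 (.dbl 25 19 38)) (.rp 38 (.thr 57 54 (.thr 41 61 (.thr 25 9 (.dbl 28 19 44)))) (.rp 25 (.thr 57 54 (.thr 61 41 (.thr 63 62 (.thr 59 55 (.thr 58 56 (.dbl 53 48 49)))))) .nd))))) (.rp 10 (.str 14 (.nv (.thr 15 13 (.thr 30 45 (.thr 61 41 (.dbl 62 46 63)))) (.nv (.thr 28 44 (.dbl 25 19 38)) (.rp 15 (.str 5 (.nv (.thr 53 37 (.thr 57 54 (.dbl 61 41 49))) (.nv (.thr 28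 44 (.dbl 25 19 38)) (.rp 11 (.str 7 (.nv (.thr 9 13 (.thr 25 38 (.dbl 28 19 44))) (.nv (.dbl 37 52 53) (.rp 9 (.str 8 (.nv (.thr 25 38 (.dbl 28 19 44)) (.nv (.dbl 37 52 53) .nd))) .nd)))) (.rp 7 (.str 11 (.nv (.thr 53 37 (.thr 57 54 (.dbl 61 41 49))) (.nv (.thr 28 44 (.dbl 25 19 38)) .nd))) .nd))))) .nd)))) .nd))))))) (.rp 1 (.str 2 (.nv (.thr 25 38 (.thr 29 17 (.thr 62 42 (.dbl 63 46 61)))) (.nv (.thr 25 38 (.dbl 28 19 44)) (.rp 38 (.thr 62 42 (.thr 63 61 (.thr 28 44 (.thr 25 19 (.dbl 29 17 46))))) (.rp 25 (.thr 54 57 (.thr 62 42 (.thr 58 50 (.thr 63 61 (.thr 53 48 (.dbl 55 52 59)))))) .nd))))) .nd))))))))) (.rp 5 (.thr 54 57 (.str 15 (.nv (.thr 30 45 (.thr 26 18 (.thr 48 37 (.thr 50 49 (.thr 62 58 (.dbl 14 38 46)))))) (.nv (.thr 38 6 (.thr 39 27 (.thr 55 4 (.thr 7 23 (.dbl 37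 36 52))))) (.nv (.thr 27 39 (.thr 30 45 (.thr 26 18 (.thr 25 24 (.dbl 38 6 12))))) (.rp 38 (.thr 30 45 (.thr 27 39 (.thr 26 18 (.thr 31 16 (.thr 28 29 (.dbl 19 23 25)))))) (.rp 2 (.str 1 (.nv (.thr 38 6 (.thr 39 27 (.thr 55 4 (.thr 7 23 (.dbl 37 36 52))))) (.nv (.thr 27 39 (.thr 30 45 (.thr 26 18 (.thr 31 16 (.thr 19 23 (.dbl 25 24 28)))))) (.nv (.thr 45 30 (.thr 61 41 (.thr 29 13 (.thr 25 17 (.dbl 38 6 12))))) .nd)))) (.rp 1 (.str 2 (.nv (.thr 38 6 (.thr 62 42 (.thr 63 61 (.dbl 55 4 59)))) (.nv (.thr 30 45 (.thr 18 26 (.thr 50 34 (.dbl 62 42 58)))) (.nv (.thr 27 39 (.thr 30 45 (.thr 26 18 (.thr 25 24 (.dbl 38 6 12))))) (.nv (.thr 6 38 (.thr 30 45 (.thr 14 10 (.dbl 62 42 46)))) (.rp 13 (.str 9 (.nv (.thr 38 6 (.thr 25 12 (.thr 28 19 (.thr 30 45 (.dbl 29 17 31))))) (.nv (.thr 30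 45 (.thr 18 26 (.thr 50 34 (.dbl 62 42 58)))) (.rp 45 (.thr 62 42 (.thr 50 58 (.thr 48 49 (.thr 18 34 (.dbl 26 30 37))))) (.rp 30 (.thr 62 42 (.thr 63 61 (.thr 55 59 (.dbl 38 4 6)))) (.rp 29 (.thr 62 42 (.thr 50 58 (.thr 18 34 (.dbl 30 26 45)))) .nd)))))) (.rp 9 (.str 13 (.nv (.thr 45 30 (.thr 61 29 (.dbl 62 42 63))) (.nv (.thr 12 14 (.dbl 38 6 25)) (.rp 41 (.str 25 (.nv (.thr 29 17 (.dbl 45 30 61)) (.nv (.dbl 12 14 38) (.rp 12 (.thr 6 38 (.thr 29 17 (.dbl 45 30 61))) .nd)))) (.rp 25 (.str 41 (.nv (.thr 45 30 (.thr 61 29 (.dbl 62 42 63))) (.nv (.thr 6 38 (.dbl 14 10 12)) (.rp 12 (.thr 6 38 (.thr 45 30 (.thr 61 29 (.dbl 62 42 63)))) (.rp 6 (.thr 12 14 (.thr 45 30 (.thr 61 29 (.dbl 62 42 63)))) .nd))))) (.rp 12 (.thr 6 38 (.thr 30 45 (.thr 14 10 (.dbl 62 42 46)))) (.rp 6 (.thr 12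 14 (.thr 28 44 (.dbl 25 19 38))) .nd))))))) .nd))))))) .nd)))))))) (.rp 4 (.thr 54 57 (.thr 6 38 (.str 52 (.nv (.thr 48 56 (.thr 50 49 (.thr 53 55 (.dbl 58 62 63)))) (.nv (.thr 53 55 (.dbl 37 5 7)) (.rp 55 (.thr 48 56 (.thr 50 49 (.thr 58 62 (.thr 53 63 (.dbl 37 5 7))))) (.rp 53 (.thr 48 56 (.thr 49 50 (.thr 37 7 (.thr 25 13 (.thr 28 19 (.thr 29 17 (.thr 30 31 (.dbl 26 15 18)))))))) (.rp 12 (.str 8 (.nv (.thr 48 56 (.thr 50 49 (.thr 53 55 (.dbl 58 62 63)))) (.nv (.thr 53 55 (.dbl 37 5 7)) (.rp 55 (.thr 48 56 (.thr 50 49 (.thr 58 62 (.thr 53 63 (.dbl 37 5 7))))) (.rp 53 (.thr 48 56 (.thr 49 50 (.thr 37 7 (.thr 25 13 (.thr 28 19 (.thr 29 17 (.thr 30 31 (.dbl 26 15 18)))))))) (.rp 2 (.str 1 (.nv (.thr 48 56 (.thr 50 49 (.thr 61 41 (.dbl 62 58 63)))) (.nv (.thr 53 55 (.dbl 37 5 7))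 .nd))) (.rp 1 (.str 2 (.nv (.thr 48 56 (.thr 62 42 (.dbl 50 49 58))) (.nv (.thr 53 55 (.dbl 37 5 7)) .nd))) .nd))))))) (.rp 8 (.str 12 (.nv (.thr 48 56 (.thr 50 49 (.thr 53 55 (.dbl 58 62 63)))) (.nv (.thr 53 55 (.dbl 37 5 7)) (.rp 55 (.thr 37 7 (.thr 53 5 (.thr 48 56 (.thr 50 49 (.dbl 58 62 63))))) (.rp 53 (.thr 37 7 (.thr 28 44 (.thr 25 19 (.thr 49 13 (.dbl 48 50 56))))) (.rp 2 (.str 1 (.nv (.thr 48 56 (.thr 50 49 (.thr 61 41 (.dbl 62 58 63)))) (.nv (.thr 53 55 (.dbl 37 5 7)) .nd))) (.rp 1 (.str 2 (.nv (.thr 48 56 (.thr 62 42 (.dbl 50 49 58))) (.nv (.thr 53 55 (.dbl 37 5 7)) .nd))) .nd))))))) (.rp 2 (.str 1 (.nv (.thr 48 56 (.thr 50 49 (.thr 61 41 (.dbl 62 58 63)))) (.nv (.thr 53 55 (.dbl 37 5 7)) (.rp 12 (.str 8 (.nv (.thr 48 56 (.thr 50 49 (.thr 61 41 (.dbl 62 58 63)))) (.nv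 (.thr 53 55 (.dbl 37 5 7)) .nd))) (.rp 8 (.str 12 (.nv (.thr 48 56 (.thr 50 49 (.thr 61 41 (.dbl 62 58 63)))) (.nv (.thr 53 55 (.dbl 37 5 7)) .nd))) .nd))))) (.rp 1 (.str 2 (.nv (.thr 48 56 (.thr 62 42 (.dbl 50 49 58))) (.nv (.thr 53 55 (.dbl 37 5 7)) (.rp 12 (.str 8 (.nv (.thr 48 56 (.thr 62 42 (.dbl 50 49 58))) (.nv (.thr 53 55 (.dbl 37 5 7)) .nd))) (.rp 8 (.str 12 (.nv (.thr 48 56 (.thr 62 42 (.dbl 50 49 58))) (.nv (.thr 53 55 (.dbl 37 5 7)) .nd))) .nd))))) .nd))))))))))) (.rp 2 (.str 1 (.nv (.thr 57 54 (.thr 61 41 (.thr 53 49 (.thr 63 62 (.thr 58 48 (.dbl 59 55 56)))))) (.nv (.thr 57 54 (.thr 41 61 (.thr 25 9 (.thr 12 38 (.dbl 28 19 44))))) (.rp 61 (.thr 54 57 (.thr 38 6 (.thr 12 25 (.thr 28 44 (.thr 55 4 (.thr 63 59 (.thr 29 46 (.thr 31 30 (.thr 26 16 (.thr 14 50 (.dbl 15 13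 47))))))))))) (.rp 57 (.thr 61 41 (.thr 63 62 (.thr 55 59 (.thr 38 4 (.thr 54 6 (.thr 52 53 (.thr 7 37 (.thr 39 23 (.thr 15 27 (.thr 45 30 (.thr 29 13 (.dbl 25 12 17)))))))))))) (.rp 54 (.thr 61 41 (.thr 63 62 (.thr 55 59 (.thr 38 4 (.thr 12 25 (.thr 28 44 (.thr 29 46 (.thr 30 31 (.dbl 45 13 15))))))))) (.rp 41 (.thr 54 57 (.thr 38 6 (.thr 55 4 (.thr 63 59 (.thr 62 61 (.thr 58 50 (.dbl 53 48 52))))))) .nd))))))) (.rp 1 (.str 2 (.nv (.thr 54 57 (.thr 62 42 (.thr 58 50 (.thr 63 61 (.thr 53 48 (.dbl 55 52 59)))))) (.nv (.thr 54 57 (.thr 62 42 (.thr 50 58 (.thr 18 34 (.thr 26 30 (.dbl 38 6 14)))))) (.nv (.thr 62 42 (.thr 54 57 (.thr 63 61 (.thr 38 6 (.dbl 55 4 59))))) (.rp 62 (.thr 54 57 (.thr 38 6 (.thr 12 25 (.thr 55 4 (.thr 52 53 (.thr 48 56 (.thr 36 24 (.dbl 37 7 39)))))))) (.rp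 59 (.thr 54 57 (.thr 62 42 (.thr 58 50 (.thr 63 61 (.thr 53 48 (.thr 52 55 (.dbl 37 5 7))))))) (.rp 57 (.thr 62 42 (.thr 63 61 (.thr 55 59 (.thr 38 4 (.thr 54 6 (.thr 58 50 (.dbl 53 48 52))))))) (.rp 54 (.str 25 (.nv (.thr 12 38 (.thr 29 17 (.thr 62 42 (.dbl 63 46 61)))) (.nv (.thr 28 19 (.dbl 12 38 44)) (.rp 38 (.thr 28 19 (.thr 29 17 (.thr 62 42 (.thr 63 61 (.dbl 12 44 46))))) (.rp 12 (.thr 28 19 (.thr 29 17 (.thr 30 31 (.thr 62 42 (.thr 61 63 (.dbl 45 13 15)))))) .nd))))) (.rp 42 (.thr 54 57 (.thr 38 6 (.thr 55 4 (.thr 63 59 (.thr 62 61 (.thr 58 50 (.dbl 53 48 52))))))) .nd))))))))) .nd))))))))))))))))))))))) (.rp 2 (.str 30 (.nv (.thr 3 41 (.thr 15 45 (.thr 7 11 (.thr 37 52 (.dbl 26 18 48))))) (.nv (.thr 15 45 (.thr 26 18 (.thr 31 16 (.thr 63 47 (.thr 62 61 (.thr 46 14 (.dbl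 29 12 28))))))) (.nv (.thr 3 41 (.thr 15 45 (.thr 7 11 (.thr 26 18 (.dbl 37 48 52))))) (.rp 48 (.thr 18 26 (.thr 41 3 (.thr 1 61 (.thr 45 15 (.thr 37 33 (.thr 7 52 (.thr 5 53 (.thr 9 13 (.thr 57 25 (.thr 54 51 (.dbl 6 4 38))))))))))) (.rp 45 (.thr 26 18 (.thr 31 16 (.thr 28 29 (.thr 12 44 (.thr 3 41 (.thr 6 9 (.thr 38 54 (.dbl 25 19 51)))))))) (.rp 26 (.thr 45 15 (.thr 41 3 (.thr 1 61 (.thr 37 33 (.thr 7 52 (.thr 5 53 (.thr 9 13 (.thr 57 25 (.thr 54 51 (.dbl 6 4 38)))))))))) (.rp 18 (.thr 45 15 (.thr 41 3 (.thr 1 61 (.thr 33 37 (.thr 17 49 (.thr 25 29 (.thr 28 19 (.thr 12 44 (.thr 51 38 (.dbl 57 9 54)))))))))) (.rp 15 (.thr 26 18 (.thr 31 16 (.thr 28 29 (.thr 12 44 (.thr 3 41 (.thr 6 9 (.thr 38 54 (.dbl 25 19 51)))))))) (.rp 3 (.str 1 (.nv (.thr 45 15 (.thr 61 41 (.thr 29 13 (.thr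 25 17 (.dbl 28 19 31))))) (.nv (.thr 15 45 (.thr 61 41 (.thr 63 62 (.thr 31 47 (.dbl 26 16 18))))) (.nv (.thr 15 45 (.thr 26 18 (.thr 48 37 (.thr 41 61 (.dbl 56 11 52))))) (.rp 61 (.thr 26 18 (.thr 31 16 (.thr 28 29 (.thr 12 44 (.thr 15 45 (.thr 13 14 (.thr 5 9 (.dbl 37 48 53)))))))) (.rp 45 (.thr 26 18 (.thr 61 41 (.thr 62 63 (.thr 14 46 (.thr 50 38 (.thr 54 58 (.thr 57 51 (.thr 53 49 (.thr 37 5 (.dbl 52 7 55)))))))))) (.rp 41 (.thr 26 18 (.thr 31 16 (.thr 15 45 (.thr 63 47 (.thr 62 61 (.thr 46 14 (.dbl 29 12 28))))))) (.rp 15 (.thr 26 18 (.thr 31 16 (.thr 61 41 (.thr 62 63 (.thr 14 46 (.thr 50 38 (.thr 54 58 (.thr 57 51 (.thr 53 49 (.thr 5 37 (.thr 13 9 (.dbl 29 28 45)))))))))))) .nd)))))))) .nd)))))))))) (.rp 1 (.str 30 (.nv (.thr 15 45 (.thr 26 18 (.thr 31 16 (.thr 63 47 (.thr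 62 61 (.thr 46 14 (.dbl 29 12 28))))))) (.nv (.thr 3 41 (.thr 15 45 (.thr 7 11 (.thr 26 18 (.dbl 37 48 52))))) (.rp 48 (.thr 26 18 (.thr 15 45 (.thr 3 41 (.thr 7 11 (.thr 37 52 (.thr 5 53 (.thr 4 6 (.thr 55 38 (.thr 23 39 (.thr 63 43 (.dbl 31 16 47))))))))))) (.rp 45 (.thr 26 18 (.thr 31 16 (.thr 28 29 (.thr 12 44 (.thr 3 41 (.thr 6 9 (.thr 38 54 (.dbl 25 19 51)))))))) (.rp 26 (.str 62 (.nv (.thr 3 41 (.thr 46 14 (.thr 63 61 (.thr 29 12 (.thr 25 17 (.dbl 28 19 31)))))) (.nv (.thr 2 42 (.thr 45 15 (.thr 61 63 (.thr 29 13 (.thr 25 17 (.dbl 28 19 31)))))) (.nv (.thr 2 42 (.thr 3 41 (.thr 14 46 (.thr 15 45 (.thr 12 13 (.dbl 6 9 10)))))) (.nv (.thr 63 61 (.thr 15 45 (.thr 31 47 (.thr 46 14 (.dbl 29 12 28))))) (.rp 61 (.thr 14 46 (.thr 2 42 (.thr 45 15 (.thr 41 3 (.thr 37 33 (.thr 7 52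 (.thr 5 53 (.dbl 6 4 10)))))))) (.rp 29 (.thr 61 63 (.thr 2 42 (.thr 15 45 (.thr 14 46 (.thr 12 13 (.thr 3 41 (.dbl 6 9 10))))))) (.rp 15 (.thr 63 61 (.thr 46 14 (.thr 12 29 (.thr 42 2 (.thr 3 41 (.thr 6 9 (.dbl 38 34 54))))))) (.rp 14 (.thr 63 61 (.thr 42 2 (.thr 3 41 (.thr 15 45 (.thr 47 31 (.thr 37 32 (.dbl 7 11 52))))))) (.rp 13 (.thr 63 61 (.thr 46 14 (.thr 29 12 (.thr 15 45 (.dbl 31 28 47))))) (.rp 12 (.thr 61 63 (.thr 45 15 (.thr 14 46 (.thr 29 13 (.thr 25 17 (.dbl 28 19 31)))))) .nd))))))))))) (.rp 18 (.thr 15 45 (.thr 3 41 (.thr 7 11 (.thr 37 52 (.thr 5 53 (.thr 4 6 (.thr 55 38 (.thr 23 39 (.thr 26 48 (.thr 63 43 (.dbl 31 16 47))))))))))) (.rp 15 (.thr 26 18 (.thr 31 16 (.thr 28 29 (.thr 12 44 (.thr 3 41 (.thr 6 9 (.thr 38 54 (.dbl 25 19 51)))))))) (.rp 3 (.str 2 (.nv (.thr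 26 18 (.thr 31 16 (.thr 15 45 (.thr 62 42 (.dbl 63 47 61))))) (.nv (.thr 15 45 (.thr 62 42 (.thr 46 14 (.thr 63 61 (.thr 31 47 (.dbl 29 12 28)))))) (.nv (.thr 26 18 (.thr 62 42 (.thr 14 46 (.thr 38 50 (.dbl 6 10 54))))) (.rp 62 (.thr 26 18 (.thr 31 16 (.thr 28 29 (.thr 12 44 (.thr 15 45 (.thr 48 37 (.thr 24 36 (.dbl 25 19 27)))))))) (.rp 42 (.thr 26 18 (.thr 31 16 (.thr 15 45 (.thr 63 47 (.thr 62 61 (.thr 46 14 (.dbl 29 12 28))))))) .nd)))))) .nd))))))))) .nd))))))))))))))))))))))))))))))))))))))))))))))))))))))))))))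

theorem w35 : WinAt (6291456, 1048577) :=
  chF (K := []) kn c35 6291456 1048577 20
    [1152922604119523329] (by decide +kernel) (by decide +kernel)

/-- A certificate. -/
noncomputable def c36 : Ct := (.str 48 (.nv (.thr 25 29 (.thr 27 24 (.thr 11 59 (.thr 37 15 (.thr 52 7 (.dbl 56 41 60)))))) (.nv (.thr 25 29 (.thr 37 15 (.thr 49 13 (.thr 1 33 (.thr 61 41 (.dbl 53 5 57)))))) (.nv (.thr 25 29 (.thr 24 27 (.thr 12 36 (.thr 51 38 (.thr 49 50 (.dbl 37 13 15)))))) (.rp 46 (.thr 29 25 (.thr 30 28 (.thr 15 37 (.thr 60 45 (.thr 56 52 (.thr 41 11 (.thr 42 40 (.thr 1 61 (.thr 49 33 (.thr 51 50 (.thr 57 54 (.dbl 58 10 59)))))))))))) (.rp 37 (.thr 25 29 (.thr 24 27 (.thr 28 19 (.thr 12 36 (.thr 60 44 (.thr 56 52 (.thr 41 11 (.dbl 40 8 42)))))))) (.rp 29 (.str 12 (.nv (.thr 36 24 (.thr 37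 15 (.thr 5 53 (.thr 7 52 (.thr 4 6 (.dbl 38 39 55)))))) (.nv (.thr 24 36 (.thr 25 27 (.thr 28 19 (.thr 60 44 (.thr 56 52 (.thr 40 8 (.dbl 41 11 42))))))) (.nv (.thr 24 36 (.thr 25 27 (.thr 51 38 (.thr 49 50 (.dbl 37 13 15))))) (.rp 36 (.thr 15 37 (.thr 14 13 (.thr 38 50 (.thr 55 4 (.thr 54 6 (.thr 52 53 (.thr 60 56 (.dbl 51 25 57)))))))) (.rp 24 (.thr 15 37 (.thr 14 13 (.thr 38 50 (.thr 55 4 (.thr 54 6 (.thr 52 53 (.thr 60 56 (.dbl 51 25 57)))))))) (.rp 2 (.str 1 (.nv (.thr 37 15 (.thr 33 49 (.dbl 41 45 61))) (.nv (.thr 24 36 (.thr 41 61 (.thr 40 42 (.dbl 56 8 11)))) (.nv (.thr 24 36 (.thr 25 27 (.thr 49 33 (.dbl 51 38 50)))) (.rp 50 (.str 34 (.nv (.thr 37 15 (.thr 33 49 (.dbl 41 45 61))) (.nv (.thr 24 36 (.thr 41 61 (.thr 40 42 (.dbl 56 8 11)))) (.nv (.thr 24 36 (.thr 25 27 (.thr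 49 33 (.dbl 37 13 15)))) .nd)))) (.rp 34 (.str 50 (.nv (.thr 14 38 (.dbl 15 13 37)) (.nv (.dbl 49 33 51) .nd))) .nd)))))) (.rp 1 (.str 2 (.nv (.thr 15 37 (.thr 42 62 (.thr 10 58 (.dbl 14 6 13)))) (.nv (.thr 24 36 (.thr 25 27 (.thr 42 62 (.thr 40 41 (.dbl 8 56 59))))) (.nv (.thr 24 36 (.thr 25 27 (.thr 51 38 (.thr 49 50 (.dbl 37 13 15))))) .nd)))) .nd)))))))) (.rp 25 (.str 1 (.nv (.thr 33 49 (.thr 41 61 (.dbl 37 15 45))) (.nv (.thr 33 49 (.thr 37 15 (.dbl 41 45 61))) (.rp 61 (.thr 49 33 (.thr 50 51 (.thr 38 14 (.thr 54 6 (.thr 37 15 (.thr 55 4 (.dbl 53 5 52))))))) (.rp 49 (.thr 41 61 (.thr 37 15 (.thr 45 33 (.thr 42 40 (.thr 47 32 (.thr 35 39 (.dbl 44 38 46))))))) (.rp 45 (.thr 49 33 (.thr 61 41 (.thr 37 15 (.dbl 53 5 57)))) (.rp 41 (.thr 49 33 (.thr 50 51 (.thr 38 14 (.thr 54 6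 (.thr 37 15 (.thr 55 4 (.dbl 53 5 52))))))) (.rp 37 (.thr 49 33 (.thr 41 61 (.thr 50 51 (.thr 42 40 (.thr 58 10 (.dbl 62 2 54)))))) (.rp 33 (.thr 41 61 (.thr 37 15 (.thr 5 53 (.thr 9 13 (.thr 11 56 (.thr 42 40 (.dbl 10 8 58))))))) (.rp 15 (.thr 49 33 (.thr 41 61 (.thr 50 51 (.thr 42 40 (.thr 62 2 (.dbl 58 10 54)))))) .nd)))))))))) (.rp 15 (.thr 25 29 (.thr 27 24 (.thr 11 59 (.thr 41 56 (.thr 1 61 (.thr 49 33 (.thr 13 37 (.dbl 9 5 57)))))))) (.rp 12 (.thr 29 25 (.thr 30 28 (.thr 15 37 (.thr 60 45 (.thr 56 52 (.thr 41 11 (.thr 42 40 (.thr 1 61 (.thr 49 33 (.thr 51 50 (.thr 57 54 (.dbl 58 10 59)))))))))))) (.rp 2 (.str 1 (.nv (.thr 33 49 (.thr 37 15 (.dbl 41 45 61))) (.nv (.thr 41 61 (.thr 11 56 (.thr 27 59 (.dbl 25 24 29)))) (.nv (.thr 49 33 (.thr 25 29 (.dbl 37 13 15))) (.rp 50 (.str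 34 (.nv (.thr 33 49 (.thr 37 15 (.dbl 41 45 61))) (.nv (.thr 41 61 (.thr 11 56 (.thr 27 59 (.dbl 25 24 29)))) (.nv (.thr 49 33 (.thr 25 29 (.dbl 37 13 15))) .nd)))) (.rp 34 (.str 50 (.nv (.dbl 49 33 51) (.rp 51 (.thr 49 33 (.thr 25 29 (.dbl 37 13 15))) (.rp 49 (.thr 38 14 (.thr 25 29 (.thr 24 27 (.dbl 12 36 51)))) (.rp 33 (.thr 38 14 (.thr 25 29 (.dbl 51 12 49))) .nd))))) .nd)))))) (.rp 1 (.str 2 (.nv (.thr 42 62 (.thr 41 40 (.thr 11 56 (.thr 27 59 (.dbl 25 24 29))))) (.nv (.thr 15 37 (.thr 25 29 (.thr 27 24 (.thr 51 39 (.thr 50 49 (.dbl 38 12 14)))))) (.nv (.thr 42 62 (.thr 25 29 (.thr 59 8 (.dbl 27 11 24)))) (.rp 29 (.thr 42 62 (.thr 10 58 (.thr 6 14 (.thr 37 15 (.thr 5 53 (.dbl 7 4 52)))))) (.rp 27 (.thr 42 62 (.thr 58 10 (.thr 25 29 (.thr 41 40 (.thr 57 9 (.dbl 59 8 56))))))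 (.rp 25 (.thr 42 62 (.thr 10 58 (.thr 6 14 (.thr 37 15 (.thr 5 53 (.dbl 7 4 52)))))) (.rp 24 (.thr 42 62 (.thr 25 29 (.thr 59 8 (.thr 11 27 (.dbl 41 40 56))))) .nd)))))))) .nd))))))))))))

theorem w36 : WinAt (8798314037248, 9223372036863492105) :=
  chF (K := []) kn c36 8798314037248 9223372036863492105 16
    [15, 281479271743489, 281483566907400] (by decide +kernel) (by decide +kernel)

/-- A certificate. -/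
noncomputable def c37 : Ct := (.thr 31 16 .ext)

theorem w37 : WinAt (8796166553600, 9223372036863426569) :=
  chF (K := [(8798314037248, 9223372036863492105)]) (kc w36 kn) c37 8796166553600 9223372036863426569 18
    [15, 281483566907400] (by decide +kernel) (by decide +kernel)

/-- A certificate. -/
noncomputable def c38 : Ct := (.str 43 (.nv (.thr 18 30 (.dbl 16 19 31)) (.rp 31 (.thr 18 30 (.thr 19 16 (.dbl 25 28 29))) (.rp 30 (.thr 16 31 (.thr 19 18 (.dbl 25 28 29))) (.rp 19 (.thr 29 25 (.thr 30 18 (.dbl 31 16 28))) (.rp 18 .ext (.rp 16 (.thr 25 29 (.thr 27 24 (.thr 11 59 (.thr 41 56 (.thr 1 61 (.thr 49 33 (.thr 13 37 (.dbl 9 5 57)))))))) (.rp 2 (.str 1 (.nv (.thr 25 29 (.thr 27 24 (.thr 11 59 (.dbl 41 56 61)))) (.nv (.thr 18 30 (.dbl 16 19 31)) .nd))) (.rp 1 (.str 2 (.nv (.thr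 25 29 (.thr 27 24 (.thr 42 62 (.dbl 59 8 11)))) (.nv (.thr 18 30 (.dbl 16 19 31)) .nd))) .nd)))))))))

theorem w38 : WinAt (73531392, 9223372036863164425) :=
  chF (K := [(8796166553600, 9223372036863426569)]) (kc w37 kn) c38 73531392 9223372036863164425 63
    [15] (by decide +kernel) (by decide +kernel)

/-- A certificate. -/
noncomputable def c39 : Ct := (.str 41 (.nv (.thr 3 60 (.thr 1 61 (.thr 33 49 (.thr 18 48 (.thr 16 19 (.dbl 26 30 31)))))) (.nv (.thr 1 61 (.thr 33 49 (.thr 37 45 (.thr 3 60 (.thr 48 18 (.thr 7 52 (.dbl 15 11 26))))))) (.rp 63 (.str 18 (.nv (.thr 1 61 (.thr 33 49 (.dbl 3 48 60))) (.nv (.thr 26 30 (.dbl 16 19 31)) (.rp 43 (.thr 3 60 (.thr 16 19 (.dbl 26 30 31))) (.rp 3 (.str 43 (.nv (.thr 26 30 (.dbl 16 19 31)) (.rp 31 (.thr 26 30 (.thr 42 40 (.thr 2 62 (.thr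 50 34 (.thr 10 58 (.dbl 14 6 38)))))) (.rp 30 (.thr 42 40 (.thr 1 61 (.thr 33 49 (.thr 37 45 (.thr 32 47 (.thr 34 35 (.dbl 2 50 62))))))) (.rp 26 (.thr 42 40 (.thr 1 61 (.thr 33 49 (.thr 37 45 (.thr 32 47 (.thr 34 35 (.dbl 2 50 62))))))) (.rp 19 (.thr 26 30 (.thr 42 40 (.thr 2 62 (.thr 50 34 (.thr 10 58 (.dbl 14 6 38)))))) (.rp 16 (.thr 26 30 (.thr 42 40 (.thr 2 62 (.thr 50 34 (.thr 10 58 (.dbl 14 6 38)))))) (.rp 2 (.thr 1 61 (.thr 26 30 (.dbl 16 19 31))) (.rp 1 (.str 2 (.nv (.thr 16 19 (.dbl 26 30 31)) (.nv (.dbl 42 40 62) .nd))) .nd))))))))) .nd))))) (.rp 62 (.thr 1 61 (.thr 33 49 (.thr 37 45 (.thr 53 5 (.thr 60 3 (.thr 52 7 (.thr 48 56 (.thr 15 26 (.thr 63 58 (.thr 47 31 (.thr 42 32 (.thr 43 40 (.thr 54 55 (.thr 39 35 (.dbl 38 6 36))))))))))))))) (.rp 61 (.str 18 (.nv (.thr 26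 30 (.dbl 16 19 31)) (.rp 31 (.thr 3 60 (.thr 48 33 (.thr 26 30 (.thr 11 56 (.dbl 15 7 37))))) (.rp 30 (.thr 19 16 (.thr 3 60 (.thr 35 51 (.thr 33 48 (.thr 32 34 (.thr 38 44 (.thr 54 6 (.thr 55 4 (.thr 52 53 (.dbl 37 7 45)))))))))) (.rp 26 (.thr 19 16 (.thr 3 60 (.thr 35 51 (.thr 33 48 (.thr 32 34 (.thr 38 44 (.thr 37 45 (.thr 39 36 (.dbl 47 42 43))))))))) (.rp 19 (.thr 3 60 (.thr 48 33 (.thr 26 30 (.thr 11 56 (.dbl 15 7 37))))) (.rp 16 (.thr 3 60 (.thr 48 33 (.thr 26 30 (.thr 11 56 (.dbl 15 7 37))))) .nd))))))) (.rp 60 (.str 26 (.nv (.thr 16 31 (.dbl 18 19 30)) (.rp 40 (.str 20 (.nv (.thr 16 31 (.dbl 18 19 30)) (.rp 31 (.thr 18 30 (.thr 1 61 (.thr 33 49 (.thr 48 3 (.dbl 37 15 45))))) (.rp 30 (.thr 1 61 (.thr 33 49 (.thr 37 45 (.thr 15 48 (.thr 52 7 (.thr 4 36 (.thr 53 5 (.dbl 55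 38 54)))))))) (.rp 27 (.thr 18 30 (.dbl 16 19 31)) (.rp 19 (.thr 18 30 (.thr 1 61 (.thr 33 49 (.thr 48 3 (.dbl 37 15 45))))) (.rp 18 (.thr 1 61 (.thr 33 49 (.thr 37 45 (.thr 52 7 (.thr 4 36 (.thr 53 5 (.dbl 55 38 54))))))) (.rp 16 (.thr 18 30 (.thr 1 61 (.thr 33 49 (.thr 48 3 (.dbl 37 15 45))))) .nd)))))))) (.rp 31 (.thr 18 30 (.thr 1 61 (.thr 33 49 (.thr 48 3 (.dbl 37 15 45))))) (.rp 30 (.str 15 (.nv (.thr 11 56 (.thr 3 7 (.thr 16 31 (.thr 48 37 (.dbl 18 19 33))))) (.nv (.thr 1 61 (.thr 33 49 (.dbl 37 45 48))) (.nv (.thr 11 56 (.thr 7 3 (.dbl 37 48 52))) (.rp 48 (.thr 56 11 (.str 38 (.nv (.thr 16 31 (.thr 50 14 (.thr 54 6 (.thr 62 58 (.thr 2 42 (.dbl 18 19 34)))))) (.nv (.thr 1 61 (.thr 6 54 (.thr 4 55 (.thr 7 5 (.thr 33 49 (.dbl 37 45 52)))))) (.rp 63 (.thr 16 31 (.thr 19 18 (.thr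 35 44 (.thr 14 50 (.thr 6 54 (.thr 12 13 (.dbl 3 9 51))))))) (.rp 62 (.thr 61 1 (.thr 14 50 (.thr 54 6 (.thr 13 12 (.thr 45 29 (.thr 37 33 (.thr 52 7 (.dbl 55 4 53)))))))) (.rp 54 (.thr 1 61 (.thr 14 50 (.thr 13 12 (.thr 5 9 (.thr 37 53 (.dbl 33 45 49)))))) (.rp 53 (.thr 1 61 (.thr 14 50 (.thr 6 54 (.thr 13 12 (.thr 5 9 (.dbl 4 7 55)))))) (.rp 50 (.thr 16 31 (.thr 19 18 (.thr 35 44 (.thr 1 61 (.thr 51 3 (.thr 33 49 (.thr 37 45 (.dbl 39 27 36)))))))) (.rp 40 (.str 20 (.nv (.thr 1 61 (.thr 4 55 (.thr 33 49 (.thr 36 52 (.dbl 37 39 45))))) (.nv (.thr 4 55 (.thr 52 36 (.thr 7 37 (.dbl 6 5 54)))) (.nv (.thr 1 61 (.thr 14 50 (.thr 13 12 (.thr 5 9 (.thr 37 53 (.dbl 33 45 49)))))) (.nv (.thr 6 54 (.thr 4 55 (.thr 7 5 (.dbl 52 36 37)))) (.rp 37 (.thr 16 31 (.thr 50 14 (.thr 54 6 (.thr 62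 58 (.thr 2 42 (.dbl 18 19 34)))))) (.rp 36 (.thr 16 31 (.thr 50 14 (.thr 54 6 (.thr 62 58 (.thr 2 42 (.dbl 18 19 34)))))) (.rp 32 (.thr 16 31 (.thr 6 54 (.thr 4 55 (.thr 7 5 (.dbl 52 36 37))))) (.rp 16 (.str 32 (.nv (.thr 4 55 (.thr 6 54 (.thr 7 5 (.dbl 52 36 37)))) (.nv (.thr 35 44 (.thr 33 34 (.dbl 1 49 61))) .nd))) (.rp 4 (.thr 16 31 (.thr 50 14 (.thr 54 6 (.thr 62 58 (.thr 2 42 (.dbl 18 19 34)))))) .nd)))))))))) (.rp 20 (.str 40 (.nv (.thr 1 61 (.thr 33 49 (.thr 37 45 (.thr 36 39 (.dbl 44 32 35))))) (.nv (.thr 35 44 (.thr 43 42 (.thr 47 39 (.dbl 31 16 63)))) (.nv (.thr 54 6 (.thr 50 14 (.thr 62 58 (.dbl 42 2 43)))) (.rp 63 (.thr 6 54 (.thr 14 50 (.thr 10 2 (.dbl 42 43 58)))) (.rp 32 (.thr 16 31 (.thr 6 54 (.thr 14 50 (.thr 10 2 (.dbl 42 43 58))))) (.rp 16 (.str 32 (.nv (.dbl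 44 35 36) (.rp 44 (.thr 1 61 (.thr 33 49 (.thr 37 45 (.dbl 42 43 47)))) (.rp 36 (.thr 1 61 (.thr 33 49 (.dbl 35 34 44))) (.rp 35 (.thr 36 44 (.thr 42 43 (.dbl 37 39 47))) (.rp 28 (.thr 24 8 (.dbl 44 35 36)) (.rp 24 (.str 28 (.nv (.thr 36 44 (.thr 37 39 (.dbl 42 43 47))) (.nv (.dbl 44 35 36) (.rp 44 (.thr 1 61 (.thr 33 49 (.thr 37 45 (.dbl 42 43 47)))) (.rp 36 (.str 12 (.nv (.thr 1 61 (.thr 35 44 (.dbl 33 34 49))) (.nv (.dbl 14 13 50) (.rp 52 (.thr 4 55 (.dbl 14 13 50)) (.rp 4 (.str 52 (.nv (.thr 37 7 (.dbl 42 43 47)) (.nv (.dbl 14 13 50) .nd))) .nd))))) .nd))))) .nd))))))) .nd))))))) (.rp 16 (.str 32 (.nv (.thr 1 61 (.thr 33 49 (.thr 34 35 (.thr 37 45 (.dbl 42 46 47))))) (.nv (.thr 35 44 (.thr 33 34 (.dbl 1 49 61))) (.rp 61 (.thr 44 35 (.thr 40 36 (.thr 42 43 (.thr 46 34 (.dbl 47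 37 45))))) (.rp 49 (.thr 44 35 (.thr 40 36 (.thr 42 43 (.thr 46 34 (.dbl 47 37 45))))) (.rp 40 (.str 20 (.nv (.thr 4 55 (.thr 6 54 (.thr 7 5 (.dbl 52 36 37)))) (.nv (.thr 35 44 (.thr 33 34 (.dbl 1 49 61))) .nd))) (.rp 35 (.thr 1 61 (.thr 33 49 (.thr 37 45 (.thr 53 5 (.thr 54 6 (.dbl 52 7 55)))))) (.rp 34 (.thr 1 61 (.thr 33 49 (.thr 37 45 (.thr 36 39 (.dbl 44 35 40))))) (.rp 33 (.thr 44 35 (.thr 40 36 (.thr 42 43 (.thr 46 34 (.dbl 47 37 45))))) (.rp 20 (.str 40 (.nv (.dbl 44 35 36) (.rp 44 (.thr 1 61 (.thr 33 49 (.thr 37 45 (.dbl 42 43 47)))) (.rp 36 (.thr 1 61 (.thr 33 49 (.dbl 35 34 44))) (.rp 35 (.thr 36 44 (.thr 42 43 (.dbl 37 39 47))) (.rp 28 (.thr 24 8 (.dbl 44 35 36)) (.rp 24 (.str 28 (.nv (.thr 36 44 (.thr 37 39 (.dbl 42 43 47))) (.nv (.dbl 44 35 36) (.rp 44 (.thr 1 61 (.thr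 33 49 (.thr 37 45 (.dbl 42 43 47)))) (.rp 36 (.str 12 (.nv (.thr 1 61 (.thr 35 44 (.dbl 33 34 49))) (.nv (.dbl 14 13 50) (.rp 52 (.thr 4 55 (.dbl 14 13 50)) (.rp 4 (.str 52 (.nv (.thr 37 7 (.dbl 42 43 47)) (.nv (.dbl 14 13 50) .nd))) .nd))))) .nd))))) .nd))))))) (.rp 1 (.thr 44 35 (.thr 40 36 (.thr 42 43 (.thr 46 34 (.dbl 47 37 45))))) .nd))))))))))) (.rp 6 (.thr 16 31 (.thr 35 44 (.thr 1 61 (.thr 33 49 (.thr 34 32 (.thr 50 14 (.dbl 18 2 19))))))) .nd))))))))))))) (.rp 40 (.str 20 (.nv (.thr 37 48 (.thr 52 7 (.thr 4 36 (.thr 53 5 (.dbl 55 38 54))))) (.nv (.thr 1 61 (.thr 33 49 (.dbl 37 45 48))) (.rp 53 (.thr 11 56 (.thr 7 3 (.dbl 37 48 52))) (.rp 48 (.thr 1 61 (.thr 33 49 (.thr 37 45 (.thr 52 7 (.thr 4 36 (.thr 53 5 (.dbl 55 38 54))))))) (.rp 37 (.thr 16 31 (.thr 19 18 (.thr 11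 56 (.thr 3 7 (.thr 1 61 (.thr 49 33 (.thr 35 51 (.thr 38 44 (.thr 14 50 (.thr 12 13 (.dbl 6 9 54))))))))))) .nd)))))) (.rp 37 (.thr 16 31 (.thr 19 18 (.thr 11 56 (.thr 3 7 (.thr 1 61 (.thr 49 33 (.thr 35 51 (.thr 38 44 (.thr 14 50 (.thr 12 13 (.dbl 6 9 54))))))))))) (.rp 20 (.str 40 (.nv (.thr 11 56 (.thr 3 7 (.thr 16 31 (.thr 48 37 (.dbl 18 19 33))))) (.nv (.thr 1 61 (.thr 33 49 (.dbl 37 45 48))) (.nv (.thr 11 56 (.thr 7 3 (.dbl 37 48 52))) (.rp 48 (.thr 16 31 (.thr 42 43 (.thr 2 62 (.thr 10 58 (.thr 14 6 (.thr 50 38 (.dbl 18 19 34))))))) (.rp 37 (.thr 31 16 (.thr 43 42 (.thr 11 56 (.thr 47 63 (.thr 39 35 (.dbl 27 51 59)))))) .nd)))))) .nd)))))))) (.rp 27 (.thr 18 30 (.dbl 16 19 31)) (.rp 20 (.str 40 (.nv (.thr 16 31 (.dbl 18 19 30)) (.rp 31 (.thr 18 30 (.thr 1 61 (.thr 33 49 (.thr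 48 3 (.dbl 37 15 45))))) (.rp 30 (.thr 16 31 (.thr 42 43 (.thr 2 62 (.thr 10 58 (.thr 14 6 (.thr 50 38 (.dbl 18 19 34))))))) (.rp 27 (.thr 18 30 (.dbl 16 19 31)) (.rp 19 (.thr 18 30 (.thr 1 61 (.thr 33 49 (.thr 48 3 (.dbl 37 15 45))))) (.rp 18 (.thr 42 43 (.thr 1 61 (.thr 33 49 (.thr 37 45 (.thr 32 47 (.thr 44 36 (.dbl 35 34 38))))))) (.rp 16 (.thr 18 30 (.thr 1 61 (.thr 33 49 (.thr 48 3 (.dbl 37 15 45))))) .nd)))))))) (.rp 19 (.thr 18 30 (.thr 1 61 (.thr 33 49 (.thr 48 3 (.dbl 37 15 45))))) (.rp 18 (.thr 56 11 (.str 55 (.nv (.thr 1 61 (.thr 38 4 (.thr 54 6 (.thr 53 52 (.thr 33 49 (.dbl 37 5 45)))))) (.nv (.thr 1 61 (.thr 33 49 (.thr 37 45 (.thr 52 7 (.dbl 53 5 54))))) (.rp 63 (.thr 61 1 (.thr 38 4 (.thr 54 6 (.thr 53 52 (.thr 57 49 (.thr 58 59 (.dbl 50 14 62))))))) (.rp 62 (.thr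 61 1 (.thr 38 4 (.thr 54 6 (.thr 53 52 (.thr 49 57 (.thr 50 14 (.thr 48 51 (.dbl 37 5 15)))))))) (.rp 61 (.thr 38 4 (.thr 54 6 (.thr 53 52 (.thr 50 14 (.thr 58 62 (.thr 63 48 (.dbl 59 51 57))))))) (.rp 54 (.thr 1 61 (.thr 33 49 (.thr 37 45 (.thr 7 52 (.thr 4 38 (.dbl 5 6 53)))))) (.rp 53 (.thr 1 61 (.thr 38 4 (.thr 44 35 (.thr 6 54 (.thr 14 50 (.thr 2 10 (.thr 62 42 (.thr 46 30 (.thr 45 47 (.dbl 33 37 49)))))))))) (.rp 52 (.thr 1 61 (.thr 33 49 (.thr 37 45 (.thr 38 4 (.thr 35 44 (.thr 32 34 (.thr 47 42 (.dbl 39 36 43)))))))) (.rp 49 (.thr 38 4 (.thr 54 6 (.thr 53 52 (.thr 50 14 (.thr 58 62 (.thr 59 57 (.dbl 63 48 51))))))) (.rp 45 (.thr 61 1 (.thr 38 4 (.thr 54 6 (.thr 53 52 (.thr 57 49 (.thr 58 59 (.dbl 50 14 62))))))) (.rp 40 (.str 20 (.nv (.thr 1 61 (.thr 4 38 (.thr 52 36 (.thr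 37 7 (.dbl 33 45 49))))) (.nv (.thr 1 61 (.thr 33 49 (.thr 37 45 (.thr 52 7 (.dbl 53 5 54))))) (.nv (.thr 4 38 (.thr 52 36 (.thr 53 54 (.dbl 37 5 7)))) (.rp 52 (.thr 16 31 (.thr 24 28 (.thr 1 61 (.thr 33 49 (.thr 37 45 (.thr 38 4 (.thr 36 39 (.dbl 48 12 15)))))))) (.rp 37 (.thr 61 1 (.thr 38 4 (.thr 54 6 (.thr 53 52 (.thr 50 14 (.thr 58 62 (.dbl 57 49 59))))))) (.rp 7 (.thr 1 61 (.thr 33 49 (.thr 37 45 (.thr 53 5 (.thr 54 52 (.dbl 38 4 6)))))) .nd))))))) (.rp 37 (.thr 61 1 (.thr 38 4 (.thr 54 6 (.thr 53 52 (.thr 50 14 (.thr 58 62 (.dbl 57 49 59))))))) (.rp 33 (.thr 61 1 (.thr 38 4 (.thr 54 6 (.thr 53 52 (.thr 57 49 (.thr 58 59 (.dbl 50 14 62))))))) (.rp 20 (.str 40 (.nv (.thr 38 4 (.thr 6 54 (.thr 14 50 (.thr 2 10 (.dbl 42 43 62))))) (.nv (.thr 1 61 (.thr 33 49 (.thr 37 45 (.thr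 52 7 (.dbl 53 5 54))))) (.nv (.thr 42 43 (.thr 2 62 (.thr 10 58 (.thr 14 6 (.dbl 38 4 50))))) (.rp 62 (.thr 42 43 (.thr 38 4 (.thr 35 44 (.thr 34 46 (.thr 33 32 (.dbl 1 49 61)))))) (.rp 54 (.thr 42 43 (.thr 1 61 (.thr 33 49 (.thr 38 4 (.thr 35 44 (.dbl 34 32 46)))))) .nd)))))) (.rp 7 (.thr 1 61 (.thr 33 49 (.thr 37 45 (.thr 53 5 (.thr 54 52 (.dbl 38 4 6)))))) (.rp 5 (.thr 1 61 (.thr 33 49 (.thr 37 45 (.thr 38 4 (.thr 39 36 (.thr 35 44 (.thr 32 34 (.dbl 47 42 43)))))))) (.rp 1 (.thr 38 4 (.thr 54 6 (.thr 53 52 (.thr 50 14 (.thr 58 62 (.thr 59 57 (.dbl 63 48 51))))))) .nd))))))))))))))))))) (.rp 16 (.thr 18 30 (.thr 1 61 (.thr 33 49 (.thr 48 3 (.dbl 37 15 45))))) .nd)))))))))) (.rp 57 (.str 33 (.nv (.dbl 1 49 61) (.rp 61 (.thr 3 60 (.thr 18 48 (.thr 26 30 (.dbl 16 19 31)))) (.rp 49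 (.thr 3 60 (.thr 18 48 (.thr 26 30 (.dbl 16 19 31)))) (.rp 1 (.thr 3 60 (.thr 18 48 (.thr 26 30 (.dbl 16 19 31)))) .nd))))) (.rp 53 (.str 52 (.nv (.thr 60 3 (.thr 56 48 (.thr 26 11 (.thr 16 31 (.dbl 18 19 30))))) (.nv (.thr 37 7 (.thr 33 45 (.dbl 1 49 61))) (.rp 33 (.thr 3 60 (.thr 7 37 (.thr 11 15 (.thr 26 56 (.thr 16 31 (.dbl 18 19 30)))))) (.rp 7 (.thr 1 61 (.thr 49 33 (.thr 60 3 (.thr 48 56 (.thr 51 50 (.thr 54 57 (.thr 38 6 (.thr 44 35 (.thr 12 28 (.thr 36 24 (.dbl 4 20 55))))))))))) (.rp 1 (.thr 3 60 (.thr 37 7 (.thr 33 45 (.thr 18 48 (.thr 16 19 (.dbl 26 30 31)))))) .nd)))))) (.rp 52 (.str 4 (.nv (.thr 1 61 (.thr 3 60 (.thr 38 55 (.thr 54 6 (.thr 35 44 (.thr 19 51 (.thr 18 16 (.dbl 33 48 49)))))))) (.nv (.thr 1 61 (.thr 3 60 (.thr 33 49 (.thr 37 45 (.thr 48 18 (.thr 15 26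 (.thr 7 11 (.dbl 5 6 53)))))))) (.nv (.thr 1 61 (.thr 33 49 (.thr 37 45 (.thr 38 55 (.thr 39 36 (.thr 35 44 (.thr 32 34 (.dbl 47 42 43)))))))) (.rp 61 (.thr 3 60 (.thr 38 55 (.thr 35 44 (.thr 19 51 (.thr 18 16 (.thr 26 30 (.thr 50 14 (.thr 34 2 (.dbl 33 32 48))))))))) (.rp 49 (.thr 3 60 (.thr 38 55 (.thr 35 44 (.thr 19 51 (.thr 18 16 (.thr 26 30 (.thr 50 14 (.thr 34 2 (.dbl 33 32 48))))))))) (.rp 33 (.thr 3 60 (.thr 38 55 (.thr 54 6 (.thr 35 44 (.thr 19 51 (.thr 18 16 (.thr 26 30 (.thr 50 14 (.thr 2 34 (.dbl 62 42 58)))))))))) (.rp 1 (.thr 3 60 (.thr 38 55 (.thr 35 44 (.thr 19 51 (.thr 18 16 (.thr 26 30 (.thr 50 14 (.thr 34 2 (.dbl 33 32 48))))))))) .nd)))))))) (.rp 49 (.str 26 (.nv (.thr 18 30 (.dbl 16 19 31)) (.rp 37 (.str 13 (.nv (.thr 30 18 (.thr 60 3 (.thr 45 15 (.dbl 61 1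 29)))) (.nv (.thr 18 30 (.dbl 16 19 31)) (.rp 30 (.thr 3 60 (.thr 11 56 (.thr 15 7 (.thr 12 14 (.thr 9 6 (.dbl 1 5 61)))))) (.rp 18 (.thr 3 60 (.thr 11 56 (.thr 15 7 (.thr 12 14 (.thr 9 6 (.dbl 1 5 61)))))) .nd))))) (.rp 31 (.thr 18 30 (.thr 3 60 (.thr 48 33 (.thr 11 56 (.dbl 15 7 37))))) (.rp 30 (.thr 16 31 (.thr 19 18 (.thr 3 60 (.thr 35 51 (.thr 38 44 (.thr 11 56 (.thr 54 6 (.thr 55 4 (.thr 52 53 (.dbl 7 15 37)))))))))) (.rp 19 (.thr 18 30 (.thr 3 60 (.thr 48 33 (.thr 11 56 (.dbl 15 7 37))))) (.rp 18 (.thr 11 56 (.str 6 (.nv (.thr 3 60 (.thr 7 15 (.thr 5 4 (.dbl 37 52 53)))) (.nv (.thr 3 60 (.thr 9 12 (.thr 38 54 (.thr 14 50 (.dbl 10 2 8))))) (.nv (.thr 38 54 (.thr 4 55 (.thr 7 5 (.dbl 3 15 60)))) (.rp 60 (.thr 38 54 (.thr 4 55 (.thr 7 5 (.thr 15 3 (.dbl 37 48 52))))) (.rp 52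 (.thr 60 3 (.thr 38 54 (.thr 14 50 (.thr 2 10 (.thr 61 1 (.dbl 62 42 63)))))) (.rp 37 (.str 13 (.nv (.thr 1 61 (.thr 5 9 (.thr 4 7 (.dbl 38 54 55)))) (.nv (.thr 3 60 (.thr 12 9 (.dbl 15 7 14))) (.rp 9 (.thr 3 60 (.thr 15 7 (.thr 14 12 (.dbl 38 50 54)))) (.rp 7 (.thr 3 60 (.thr 9 12 (.dbl 1 5 61))) .nd))))) (.rp 13 (.str 37 (.nv (.thr 5 53 (.thr 4 7 (.dbl 38 54 55))) (.nv (.thr 7 52 (.dbl 3 15 60)) (.rp 7 (.thr 48 15 (.thr 3 60 (.thr 12 9 (.thr 36 24 (.dbl 38 39 54))))) .nd)))) (.rp 4 (.thr 3 60 (.thr 12 9 (.thr 15 7 (.thr 38 54 (.dbl 14 13 50))))) (.rp 3 (.thr 31 16 (.thr 38 54 (.thr 44 35 (.thr 14 50 (.thr 2 10 (.thr 61 1 (.thr 62 42 (.thr 30 46 (.thr 28 29 (.dbl 60 12 63)))))))))) .nd))))))))))) (.rp 16 (.thr 18 30 (.thr 3 60 (.thr 48 33 (.thr 11 56 (.dbl 15 7 37))))) (.rp 13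 (.str 37 (.nv (.thr 3 60 (.thr 7 52 (.dbl 11 15 56))) (.nv (.thr 18 30 (.dbl 16 19 31)) .nd))) .nd))))))))) (.rp 48 (.thr 1 61 (.str 38 (.nv (.thr 3 60 (.thr 4 55 (.thr 6 54 (.thr 9 12 (.dbl 5 7 13))))) (.nv (.thr 33 49 (.thr 35 44 (.thr 32 34 (.thr 37 45 (.thr 47 42 (.dbl 39 36 43)))))) (.nv (.thr 6 54 (.thr 4 55 (.thr 7 5 (.thr 33 49 (.dbl 37 45 52))))) (.rp 57 (.thr 54 6 (.thr 55 4 (.thr 33 49 (.thr 53 52 (.dbl 37 5 45))))) (.rp 53 (.thr 6 54 (.thr 3 60 (.thr 9 12 (.thr 5 13 (.dbl 4 7 55))))) (.rp 51 (.thr 54 6 (.thr 55 4 (.thr 52 53 (.thr 7 37 (.thr 3 60 (.thr 11 15 (.thr 26 56 (.thr 16 31 (.dbl 18 19 30))))))))) (.rp 32 (.str 16 (.nv (.thr 3 60 (.thr 19 18 (.dbl 35 44 51))) (.nv (.thr 18 19 (.dbl 26 30 31)) (.rp 19 (.thr 33 49 (.thr 54 6 (.thr 55 4 (.thr 53 52 (.dbl 37 5 45)))))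 (.rp 18 (.thr 33 49 (.thr 54 6 (.thr 55 4 (.thr 53 52 (.dbl 37 5 45))))) .nd))))) (.rp 16 (.str 32 (.nv (.thr 35 44 (.dbl 33 34 49)) (.rp 49 (.thr 6 54 (.thr 4 55 (.thr 3 60 (.thr 9 12 (.dbl 5 7 13))))) (.rp 44 (.thr 33 49 (.thr 34 35 (.thr 37 45 (.dbl 42 46 47)))) (.rp 35 (.thr 33 49 (.thr 54 6 (.thr 55 4 (.thr 53 52 (.dbl 37 5 45))))) (.rp 34 (.thr 33 49 (.thr 44 35 (.thr 36 40 (.dbl 37 39 45)))) (.rp 33 (.thr 6 54 (.thr 4 55 (.thr 3 60 (.thr 9 12 (.dbl 5 7 13))))) .nd))))))) .nd)))))))))) (.rp 40 (.thr 1 61 (.thr 33 49 (.thr 37 45 (.thr 53 5 (.thr 52 7 (.thr 55 54 (.thr 4 38 (.thr 20 36 (.thr 3 60 (.thr 18 48 (.thr 16 19 (.dbl 26 30 31)))))))))))) (.rp 37 (.thr 1 61 (.thr 49 33 (.str 56 (.nv (.thr 26 11 (.thr 18 30 (.dbl 16 19 31))) (.rp 31 (.thr 60 3 (.thr 48 52 (.thr 50 51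 (.thr 26 11 (.thr 38 14 (.thr 54 6 (.thr 18 30 (.thr 2 34 (.dbl 62 42 58))))))))) (.rp 30 (.thr 60 3 (.thr 48 52 (.thr 50 51 (.thr 26 11 (.thr 38 14 (.thr 54 6 (.thr 62 58 (.thr 2 42 (.thr 18 34 (.dbl 16 19 31)))))))))) (.rp 26 (.thr 60 3 (.thr 48 52 (.thr 51 50 (.thr 54 57 (.thr 38 6 (.thr 44 35 (.thr 12 28 (.thr 55 4 (.thr 63 59 (.thr 46 29 (.thr 45 47 (.thr 30 15 (.thr 62 14 (.dbl 42 2 34)))))))))))))) (.rp 19 (.thr 60 3 (.thr 48 52 (.thr 51 50 (.thr 57 54 (.thr 26 11 (.thr 30 18 (.thr 58 59 (.thr 15 45 (.thr 31 16 (.dbl 63 47 53)))))))))) (.rp 18 (.thr 60 3 (.thr 48 52 (.thr 51 50 (.thr 54 57 (.thr 38 6 (.thr 44 35 (.thr 12 28 (.thr 24 36 (.thr 40 8 (.thr 11 26 (.thr 43 42 (.thr 59 27 (.dbl 55 4 63))))))))))))) (.rp 16 (.thr 60 3 (.thr 48 52 (.thr 50 51 (.thr 26 11 (.thr 38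 14 (.thr 54 6 (.thr 18 30 (.thr 2 34 (.dbl 62 42 58))))))))) (.rp 11 (.thr 60 3 (.thr 48 52 (.thr 51 50 (.thr 54 57 (.thr 38 6 (.thr 44 35 (.thr 12 28 (.thr 36 24 (.thr 32 40 (.thr 55 4 (.thr 63 59 (.thr 58 53 (.thr 46 29 (.thr 42 34 (.thr 26 10 (.thr 45 47 (.dbl 30 15 18))))))))))))))))) .nd))))))))))) (.rp 33 (.str 26 (.nv (.thr 18 30 (.dbl 16 19 31)) (.rp 31 (.thr 30 18 (.thr 56 11 (.thr 60 3 (.thr 48 52 (.dbl 15 37 45))))) (.rp 30 (.thr 31 16 (.thr 60 3 (.thr 56 11 (.thr 48 52 (.thr 15 37 (.thr 63 47 (.dbl 61 1 62))))))) (.rp 19 (.thr 30 18 (.thr 56 11 (.thr 60 3 (.thr 48 52 (.dbl 15 37 45))))) (.rp 18 (.thr 31 16 (.thr 56 11 (.thr 60 3 (.thr 48 52 (.thr 15 37 (.thr 63 47 (.dbl 61 1 62))))))) (.rp 16 (.thr 30 18 (.thr 56 11 (.thr 60 3 (.thr 48 52 (.dbl 15 37 45))))) .nd)))))))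 (.rp 30 (.thr 1 61 (.thr 33 49 (.thr 37 45 (.thr 7 52 (.thr 3 60 (.thr 15 11 (.dbl 48 18 26))))))) (.rp 26 (.thr 1 61 (.thr 33 49 (.thr 37 45 (.thr 53 5 (.thr 3 60 (.thr 48 18 (.thr 52 7 (.thr 55 54 (.thr 63 58 (.thr 51 59 (.thr 35 19 (.dbl 38 4 44)))))))))))) (.rp 20 (.thr 1 61 (.thr 33 49 (.thr 37 45 (.thr 53 5 (.thr 60 3 (.thr 52 7 (.thr 48 56 (.thr 55 54 (.thr 15 26 (.thr 63 58 (.thr 47 31 (.thr 42 32 (.thr 43 40 (.thr 35 39 (.dbl 38 4 44))))))))))))))) (.rp 18 (.thr 1 61 (.thr 33 49 (.thr 37 45 (.thr 53 5 (.thr 60 3 (.thr 52 7 (.thr 48 56 (.thr 55 54 (.thr 15 26 (.thr 63 58 (.thr 47 31 (.thr 42 32 (.thr 43 40 (.thr 35 39 (.dbl 38 4 44))))))))))))))) (.rp 13 (.str 33 (.nv (.dbl 1 49 61) (.rp 61 (.thr 3 60 (.thr 18 48 (.thr 26 30 (.dbl 16 19 31)))) (.rp 49 (.thr 37 45 (.thr 3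 60 (.thr 48 18 (.thr 7 52 (.dbl 15 11 26))))) (.rp 37 (.thr 49 1 (.thr 3 60 (.thr 18 48 (.thr 26 30 (.dbl 16 19 31))))) (.rp 1 (.thr 3 60 (.thr 18 48 (.thr 26 30 (.dbl 16 19 31)))) .nd)))))) (.rp 3 (.thr 1 61 (.str 26 (.nv (.thr 18 30 (.dbl 16 19 31)) (.rp 63 (.str 43 (.nv (.thr 18 30 (.dbl 16 19 31)) (.rp 62 (.str 60 (.nv (.thr 33 49 (.thr 37 45 (.thr 52 7 (.dbl 48 15 56)))) (.nv (.thr 18 30 (.dbl 16 19 31)) .nd))) (.rp 60 (.str 62 (.nv (.thr 16 31 (.dbl 18 19 30)) (.nv (.dbl 42 2 40) (.rp 40 (.str 20 (.nv (.thr 18 30 (.dbl 16 19 31)) (.rp 45 (.thr 16 31 (.dbl 18 19 30)) (.rp 31 (.thr 18 30 (.thr 2 42 (.thr 50 34 (.thr 54 58 (.dbl 38 6 14))))) (.rp 30 (.thr 33 49 (.thr 37 45 (.thr 15 48 (.thr 52 7 (.thr 53 5 (.thr 55 54 (.dbl 4 36 38))))))) (.rp 19 (.thr 18 30 (.thr 2 42 (.thr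 50 34 (.thr 54 58 (.dbl 38 6 14))))) (.rp 18 (.thr 33 49 (.thr 37 45 (.thr 52 7 (.thr 53 5 (.thr 55 54 (.dbl 4 36 38)))))) (.rp 16 (.thr 18 30 (.thr 2 42 (.thr 50 34 (.thr 54 58 (.dbl 38 6 14))))) (.rp 15 (.thr 30 18 (.thr 42 2 (.thr 14 46 (.thr 50 38 (.dbl 58 10 54))))) .nd))))))))) (.rp 20 (.thr 40 42 (.thr 18 30 (.dbl 16 19 31))) .nd))))) (.rp 31 (.thr 30 18 (.thr 42 40 (.thr 62 2 (.thr 14 46 (.thr 58 10 (.dbl 50 38 54)))))) (.rp 30 (.thr 42 40 (.thr 62 2 (.thr 58 10 (.thr 54 50 (.thr 33 49 (.thr 37 45 (.thr 52 7 (.dbl 53 5 55)))))))) (.rp 19 (.thr 30 18 (.thr 42 40 (.thr 62 2 (.thr 14 46 (.thr 58 10 (.dbl 50 38 54)))))) (.rp 18 (.thr 42 40 (.thr 11 56 (.thr 27 59 (.thr 33 49 (.thr 37 45 (.thr 47 32 (.thr 39 35 (.dbl 15 48 51)))))))) (.rp 16 (.thr 30 18 (.thr 42 40 (.thr 62 2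 (.thr 14 46 (.thr 58 10 (.dbl 50 38 54)))))) .nd))))))))) (.rp 43 (.str 63 (.nv (.thr 33 49 (.thr 37 45 (.thr 53 5 (.dbl 48 15 58)))) (.nv (.thr 18 30 (.dbl 16 19 31)) .nd))) (.rp 31 (.thr 11 56 (.str 43 (.nv (.thr 27 59 (.thr 18 30 (.thr 42 40 (.thr 2 62 (.thr 50 34 (.thr 14 38 (.dbl 10 6 58))))))) (.nv (.thr 27 59 (.thr 33 49 (.thr 37 45 (.thr 42 40 (.thr 47 32 (.thr 39 35 (.dbl 15 48 51))))))) (.nv (.thr 30 18 (.thr 42 40 (.thr 62 2 (.thr 14 46 (.thr 58 10 (.dbl 50 38 54)))))) (.rp 60 (.thr 18 30 (.thr 33 49 (.thr 37 45 (.thr 15 48 (.thr 52 7 (.thr 53 5 (.thr 55 54 (.thr 4 38 (.thr 42 40 (.thr 20 36 (.thr 32 47 (.thr 34 35 (.dbl 2 50 62))))))))))))) (.rp 58 (.thr 18 30 (.thr 42 40 (.thr 2 62 (.thr 33 49 (.thr 37 45 (.thr 32 47 (.dbl 34 35 50))))))) (.rp 42 (.thr 18 30 (.thr 19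 16 (.thr 59 27 (.thr 33 49 (.thr 37 45 (.thr 53 5 (.thr 52 7 (.thr 55 54 (.thr 63 51 (.dbl 48 15 58)))))))))) (.rp 40 (.thr 18 30 (.thr 19 16 (.thr 59 27 (.thr 33 49 (.thr 37 45 (.thr 53 5 (.thr 52 7 (.thr 55 54 (.thr 63 51 (.dbl 48 15 58)))))))))) (.rp 27 (.str 19 (.nv (.dbl 18 16 30) (.rp 30 (.thr 18 16 (.thr 42 40 (.thr 2 62 (.thr 10 58 (.thr 14 6 (.dbl 50 34 38)))))) (.rp 18 (.thr 42 40 (.thr 2 62 (.thr 10 58 (.thr 6 14 (.thr 33 49 (.thr 37 45 (.thr 7 52 (.dbl 5 4 53)))))))) (.rp 16 (.thr 30 18 (.thr 42 40 (.thr 62 2 (.thr 14 46 (.thr 58 10 (.dbl 50 38 54)))))) .nd))))) (.rp 24 (.thr 18 30 (.thr 19 16 (.thr 59 27 (.thr 33 49 (.thr 37 45 (.thr 53 5 (.thr 52 7 (.thr 55 54 (.thr 63 51 (.dbl 48 15 58)))))))))) (.rp 20 (.thr 18 30 (.thr 19 16 (.thr 59 27 (.thr 33 49 (.thr 37 45 (.thr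 53 5 (.thr 52 7 (.thr 55 54 (.thr 63 51 (.dbl 48 15 58)))))))))) (.rp 8 (.thr 18 30 (.thr 19 16 (.thr 59 27 (.thr 33 49 (.thr 37 45 (.thr 53 5 (.thr 52 7 (.thr 55 54 (.thr 63 51 (.dbl 48 15 58)))))))))) .nd))))))))))))) (.rp 30 (.thr 11 56 (.str 43 (.nv (.thr 16 31 (.thr 33 49 (.thr 37 45 (.thr 42 40 (.thr 2 62 (.thr 32 47 (.thr 34 35 (.dbl 18 19 50)))))))) (.nv (.thr 16 31 (.thr 42 40 (.thr 10 58 (.thr 2 62 (.thr 14 6 (.thr 50 38 (.dbl 18 19 34))))))) (.nv (.thr 27 59 (.thr 42 40 (.thr 33 49 (.thr 37 45 (.thr 47 32 (.thr 39 35 (.dbl 15 48 51))))))) (.rp 60 (.thr 40 42 (.thr 59 27 (.thr 33 49 (.thr 37 45 (.thr 15 48 (.thr 52 7 (.thr 53 5 (.thr 55 54 (.thr 4 38 (.thr 36 20 (.thr 31 16 (.thr 32 44 (.dbl 63 47 51))))))))))))) (.rp 57 (.thr 42 40 (.thr 2 62 (.thr 59 27 (.thr 10 58 (.thr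 14 6 (.thr 50 38 (.thr 18 34 (.dbl 16 19 31)))))))) (.rp 51 (.thr 31 16 (.thr 42 40 (.thr 2 62 (.thr 27 59 (.thr 33 49 (.thr 37 45 (.thr 32 47 (.thr 35 34 (.thr 53 5 (.thr 52 7 (.thr 55 54 (.dbl 38 4 44)))))))))))) (.rp 42 (.thr 59 27 (.thr 33 49 (.thr 37 45 (.thr 53 5 (.thr 52 7 (.thr 55 54 (.thr 63 51 (.dbl 48 15 58)))))))) (.rp 40 (.thr 59 27 (.thr 33 49 (.thr 37 45 (.thr 53 5 (.thr 52 7 (.thr 55 54 (.thr 63 51 (.dbl 48 15 58)))))))) (.rp 29 (.thr 42 40 (.thr 2 62 (.thr 10 58 (.thr 14 6 (.thr 50 38 (.thr 18 34 (.dbl 16 19 31))))))) (.rp 27 (.thr 42 40 (.thr 2 62 (.thr 10 58 (.thr 14 6 (.thr 50 38 (.thr 18 34 (.dbl 16 19 31))))))) (.rp 24 (.thr 59 27 (.thr 33 49 (.thr 37 45 (.thr 53 5 (.thr 52 7 (.thr 55 54 (.thr 63 51 (.dbl 48 15 58)))))))) (.rp 20 (.thr 59 27 (.thr 33 49 (.thr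 37 45 (.thr 53 5 (.thr 52 7 (.thr 55 54 (.thr 63 51 (.dbl 48 15 58)))))))) (.rp 19 (.thr 16 31 (.thr 27 59 (.thr 42 40 (.thr 33 49 (.thr 37 45 (.thr 47 32 (.thr 15 48 (.dbl 39 35 51)))))))) (.rp 16 (.thr 42 40 (.thr 2 62 (.thr 33 49 (.thr 37 45 (.thr 32 47 (.thr 34 35 (.thr 50 18 (.dbl 38 14 46)))))))) (.rp 8 (.thr 59 27 (.thr 33 49 (.thr 37 45 (.thr 53 5 (.thr 52 7 (.thr 55 54 (.thr 63 51 (.dbl 48 15 58)))))))) .nd))))))))))))))))) (.rp 19 (.str 35 (.nv (.thr 11 56 (.thr 33 49 (.thr 37 45 (.thr 7 52 (.thr 38 44 (.thr 4 55 (.dbl 5 6 53))))))) (.nv (.thr 18 30 (.thr 38 44 (.thr 50 14 (.thr 2 34 (.thr 54 6 (.dbl 62 42 58)))))) (.nv (.thr 31 16 (.thr 33 49 (.thr 32 34 (.thr 37 45 (.thr 15 48 (.dbl 47 42 63)))))) (.nv (.thr 18 30 (.thr 38 44 (.thr 50 14 (.thr 34 2 (.dbl 33 32 49)))))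 (.rp 63 (.str 43 (.nv (.thr 33 49 (.thr 37 45 (.thr 38 44 (.dbl 39 36 47)))) (.nv (.thr 31 16 (.thr 33 49 (.thr 32 34 (.thr 37 45 (.dbl 47 39 42))))) (.nv (.thr 18 30 (.thr 38 44 (.thr 50 14 (.thr 2 34 (.dbl 42 40 62))))) (.rp 62 (.str 60 (.nv (.thr 33 49 (.thr 32 34 (.thr 37 45 (.dbl 42 40 47)))) (.nv (.thr 31 16 (.thr 30 18 (.thr 44 38 (.dbl 28 12 29)))) (.nv (.thr 33 49 (.thr 30 18 (.dbl 45 15 37))) (.rp 33 (.thr 56 11 (.thr 48 52 (.thr 30 18 (.dbl 15 37 45)))) (.rp 31 (.str 27 (.nv (.thr 30 18 (.thr 15 45 (.dbl 39 47 51))) (.nv (.dbl 11 56 59) (.rp 47 (.str 15 (.nv (.dbl 30 18 45) (.nv (.dbl 11 56 59) .nd))) (.rp 15 (.thr 47 39 (.dbl 11 56 59)) .nd))))) .nd)))))) (.rp 60 (.str 62 (.nv (.thr 30 18 (.thr 14 46 (.dbl 38 44 50))) (.nv (.dbl 42 2 40) (.rp 40 (.str 20 (.nv (.thr 31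 16 (.thr 38 44 (.thr 14 50 (.dbl 30 18 46)))) (.nv (.thr 33 49 (.thr 32 34 (.thr 47 39 (.dbl 37 42 45)))) (.nv (.thr 30 18 (.thr 14 46 (.dbl 38 44 50))) (.rp 31 (.str 27 (.nv (.thr 30 18 (.thr 14 46 (.dbl 38 44 50))) (.nv (.dbl 11 56 59) (.rp 47 (.str 15 (.nv (.thr 33 49 (.dbl 37 45 48)) (.nv (.dbl 11 56 59) .nd))) (.rp 15 (.thr 47 39 (.dbl 11 56 59)) .nd))))) .nd))))) (.rp 31 (.str 27 (.nv (.thr 47 39 (.dbl 11 56 59)) (.nv (.dbl 42 2 40) (.rp 47 (.str 15 (.nv (.dbl 11 56 59) (.nv (.dbl 42 2 40) (.rp 40 (.str 20 (.nv (.thr 33 49 (.dbl 37 45 48)) (.nv (.dbl 11 56 59) .nd))) (.rp 20 (.thr 40 42 (.dbl 11 56 59)) .nd))))) (.rp 40 (.str 20 (.nv (.thr 30 18 (.thr 14 46 (.dbl 38 44 50))) (.nv (.dbl 11 56 59) (.rp 47 (.str 15 (.nv (.thr 33 49 (.dbl 37 45 48)) (.nv (.dbl 11 56 59) .nd)))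 (.rp 15 (.thr 47 39 (.dbl 11 56 59)) .nd))))) (.rp 20 (.thr 40 42 (.dbl 11 56 59)) .nd)))))) (.rp 27 (.thr 31 16 (.dbl 42 2 40)) (.rp 20 (.thr 40 42 (.thr 33 49 (.thr 44 38 (.dbl 32 34 36)))) .nd))))))) (.rp 31 (.str 27 (.nv (.dbl 11 56 59) (.rp 62 (.str 60 (.nv (.thr 30 18 (.thr 15 45 (.dbl 39 47 51))) (.nv (.dbl 11 56 59) (.rp 47 (.str 15 (.nv (.dbl 30 18 45) (.nv (.dbl 11 56 59) .nd))) (.rp 15 (.thr 47 39 (.dbl 11 56 59)) .nd))))) (.rp 60 (.str 62 (.nv (.thr 47 39 (.dbl 11 56 59)) (.nv (.dbl 42 2 40) (.rp 47 (.str 15 (.nv (.dbl 11 56 59) (.nv (.dbl 42 2 40) (.rp 40 (.str 20 (.nv (.thr 33 49 (.dbl 37 45 48)) (.nv (.dbl 11 56 59) .nd))) (.rp 20 (.thr 40 42 (.dbl 11 56 59)) .nd))))) (.rp 40 (.str 20 (.nv (.thr 30 18 (.thr 14 46 (.dbl 38 44 50))) (.nv (.dbl 11 56 59) (.rp 47 (.str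 15 (.nv (.thr 33 49 (.dbl 37 45 48)) (.nv (.dbl 11 56 59) .nd))) (.rp 15 (.thr 47 39 (.dbl 11 56 59)) .nd))))) (.rp 20 (.thr 40 42 (.dbl 11 56 59)) .nd)))))) (.rp 59 (.thr 33 49 (.thr 34 32 (.thr 42 40 (.dbl 38 44 46)))) (.rp 56 (.thr 33 49 (.thr 34 32 (.thr 42 40 (.dbl 38 44 46)))) (.rp 47 (.str 15 (.nv (.thr 33 49 (.dbl 37 45 48)) (.nv (.dbl 11 56 59) (.rp 62 (.str 60 (.nv (.dbl 30 18 45) (.nv (.dbl 11 56 59) .nd))) (.rp 60 (.str 62 (.nv (.dbl 11 56 59) (.nv (.dbl 42 2 40) (.rp 40 (.str 20 (.nv (.thr 33 49 (.dbl 37 45 48)) (.nv (.dbl 11 56 59) .nd))) (.rp 20 (.thr 40 42 (.dbl 11 56 59)) .nd))))) .nd))))) (.rp 15 (.thr 47 39 (.dbl 11 56 59)) (.rp 11 (.thr 33 49 (.thr 34 32 (.thr 42 40 (.dbl 38 44 46)))) .nd))))))))) .nd))))))) (.rp 43 (.str 63 (.nv (.thr 18 30 (.thr 38 44 (.thr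 50 14 (.thr 34 2 (.dbl 33 32 49))))) (.nv (.thr 31 16 (.thr 15 47 (.thr 33 49 (.dbl 37 45 48)))) (.rp 49 (.thr 30 18 (.thr 31 16 (.thr 15 47 (.thr 45 60 (.dbl 37 33 48))))) (.rp 33 (.thr 18 30 (.thr 38 44 (.thr 54 6 (.thr 50 14 (.thr 62 58 (.dbl 2 34 42)))))) (.rp 32 (.thr 33 49 (.thr 37 45 (.thr 53 5 (.dbl 48 15 58)))) (.rp 31 (.str 27 (.nv (.thr 33 49 (.thr 34 32 (.thr 38 44 (.thr 50 14 (.dbl 18 2 30))))) (.nv (.thr 18 30 (.thr 38 44 (.thr 50 14 (.thr 2 34 (.thr 54 6 (.dbl 62 42 58)))))) (.nv (.thr 33 49 (.thr 37 45 (.thr 53 5 (.dbl 48 15 58)))) .nd)))) .nd))))))) (.rp 31 (.str 27 (.nv (.thr 11 56 (.thr 33 49 (.thr 32 34 (.thr 37 45 (.thr 43 59 (.dbl 42 40 47)))))) (.nv (.thr 11 56 (.thr 38 44 (.thr 43 59 (.thr 39 47 (.thr 15 51 (.dbl 37 36 48)))))) (.nv (.thr 18 30 (.thr 38 44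 (.thr 50 14 (.thr 34 2 (.dbl 33 32 49))))) (.rp 63 (.str 43 (.nv (.dbl 11 56 59) (.rp 62 (.str 60 (.nv (.thr 30 18 (.thr 15 45 (.dbl 39 47 51))) (.nv (.dbl 11 56 59) (.rp 47 (.str 15 (.nv (.dbl 30 18 45) (.nv (.dbl 11 56 59) .nd))) (.rp 15 (.thr 47 39 (.dbl 11 56 59)) .nd))))) (.rp 60 (.str 62 (.nv (.thr 47 39 (.dbl 11 56 59)) (.nv (.dbl 42 2 40) (.rp 47 (.str 15 (.nv (.dbl 11 56 59) (.nv (.dbl 42 2 40) (.rp 40 (.str 20 (.nv (.thr 33 49 (.dbl 37 45 48)) (.nv (.dbl 11 56 59) .nd))) (.rp 20 (.thr 40 42 (.dbl 11 56 59)) .nd))))) (.rp 40 (.str 20 (.nv (.thr 30 18 (.thr 14 46 (.dbl 38 44 50))) (.nv (.dbl 11 56 59) (.rp 47 (.str 15 (.nv (.thr 33 49 (.dbl 37 45 48)) (.nv (.dbl 11 56 59) .nd))) (.rp 15 (.thr 47 39 (.dbl 11 56 59)) .nd))))) (.rp 20 (.thr 40 42 (.dbl 11 56 59)) .nd))))))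 (.rp 59 (.thr 33 49 (.thr 34 32 (.thr 42 40 (.dbl 38 44 46)))) (.rp 56 (.thr 33 49 (.thr 34 32 (.thr 42 40 (.dbl 38 44 46)))) (.rp 47 (.str 15 (.nv (.thr 33 49 (.dbl 37 45 48)) (.nv (.dbl 11 56 59) (.rp 62 (.str 60 (.nv (.dbl 30 18 45) (.nv (.dbl 11 56 59) .nd))) (.rp 60 (.str 62 (.nv (.dbl 11 56 59) (.nv (.dbl 42 2 40) (.rp 40 (.str 20 (.nv (.thr 33 49 (.dbl 37 45 48)) (.nv (.dbl 11 56 59) .nd))) (.rp 20 (.thr 40 42 (.dbl 11 56 59)) .nd))))) .nd))))) (.rp 15 (.thr 47 39 (.dbl 11 56 59)) (.rp 11 (.thr 33 49 (.thr 34 32 (.thr 42 40 (.dbl 38 44 46)))) .nd))))))))) (.rp 43 (.str 63 (.nv (.thr 33 49 (.thr 34 32 (.thr 38 44 (.thr 50 14 (.dbl 18 2 30))))) (.nv (.thr 18 30 (.thr 38 44 (.thr 50 14 (.thr 2 34 (.thr 54 6 (.dbl 62 42 58)))))) (.nv (.thr 33 49 (.thr 37 45 (.thr 53 5 (.dbl 48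 15 58)))) .nd)))) .nd)))))) .nd)))))))) (.rp 18 (.thr 49 33 (.str 48 (.nv (.thr 56 11 (.thr 52 60 (.dbl 37 7 15))) (.rp 63 (.str 43 (.nv (.thr 42 40 (.thr 50 51 (.thr 62 2 (.dbl 58 10 54)))) (.nv (.thr 11 56 (.thr 37 15 (.thr 5 53 (.thr 9 13 (.thr 10 8 (.dbl 42 40 58)))))) (.nv (.thr 51 50 (.thr 11 56 (.thr 15 37 (.dbl 27 39 59)))) (.rp 62 (.str 60 (.nv (.dbl 56 11 52) (.rp 56 (.thr 50 51 (.thr 38 14 (.thr 35 44 (.thr 39 47 (.dbl 37 15 36))))) (.rp 52 (.thr 51 50 (.thr 11 56 (.thr 27 59 (.dbl 15 37 39)))) (.rp 11 (.thr 52 56 (.dbl 37 7 15)) .nd))))) (.rp 60 (.str 62 (.nv (.thr 50 51 (.thr 38 14 (.dbl 54 6 58))) (.nv (.dbl 42 2 40) (.rp 40 (.str 20 (.nv (.thr 11 56 (.thr 15 37 (.thr 51 50 (.dbl 27 39 59)))) (.nv (.thr 50 51 (.thr 54 58 (.dbl 38 6 14))) (.rp 59 (.thr 42 2 (.thr 58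 10 (.dbl 50 51 54))) (.rp 51 (.thr 42 2 (.thr 11 56 (.thr 10 58 (.thr 37 15 (.thr 5 53 (.dbl 9 8 13)))))) (.rp 50 (.thr 11 56 (.thr 37 15 (.thr 52 7 (.thr 4 36 (.thr 55 38 (.dbl 53 5 54)))))) .nd)))))) (.rp 20 (.thr 40 42 (.thr 50 51 (.thr 54 58 (.dbl 38 6 14)))) .nd))))) .nd)))))) (.rp 62 (.thr 50 51 (.thr 56 11 (.thr 38 14 (.thr 54 6 (.thr 55 4 (.dbl 52 53 60)))))) (.rp 60 (.thr 50 51 (.thr 37 15 (.thr 7 52 (.thr 5 53 (.thr 6 4 (.dbl 38 14 54)))))) (.rp 56 (.thr 50 51 (.thr 37 15 (.thr 7 52 (.thr 5 53 (.thr 6 4 (.dbl 38 14 54)))))) (.rp 52 (.thr 50 51 (.thr 37 15 (.thr 38 14 (.thr 54 6 (.thr 58 62 (.dbl 53 5 63)))))) (.rp 43 (.str 63 (.nv (.thr 50 51 (.thr 38 14 (.thr 54 6 (.dbl 58 53 62)))) (.nv (.thr 31 16 (.dbl 15 37 47)) .nd))) (.rp 40 (.thr 50 51 (.thr 56 11 (.thr 38 14 (.thr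 54 6 (.thr 55 4 (.dbl 52 53 60)))))) (.rp 37 (.thr 50 51 (.thr 56 11 (.thr 52 60 (.thr 38 14 (.thr 54 6 (.dbl 55 4 53)))))) (.rp 20 (.thr 50 51 (.thr 56 11 (.thr 38 14 (.thr 54 6 (.thr 55 4 (.dbl 52 53 60)))))) (.rp 15 (.thr 50 51 (.thr 38 14 (.thr 54 6 (.thr 55 4 (.thr 53 52 (.dbl 58 62 63)))))) (.rp 11 (.thr 50 51 (.thr 37 15 (.thr 7 52 (.thr 5 53 (.thr 6 4 (.dbl 38 14 54)))))) (.rp 7 (.thr 51 50 (.thr 56 11 (.thr 15 37 (.thr 31 16 (.thr 63 47 (.thr 58 53 (.dbl 59 55 57))))))) .nd))))))))))))))) (.rp 16 (.thr 49 33 (.thr 30 18 (.str 48 (.nv (.thr 56 11 (.thr 15 37 (.dbl 60 45 52))) (.rp 63 (.str 43 (.nv (.thr 42 40 (.thr 50 51 (.thr 62 2 (.dbl 14 38 46)))) (.nv (.thr 15 37 (.thr 56 11 (.dbl 60 45 52))) (.rp 62 (.str 60 (.nv (.dbl 15 37 45) (.nv (.dbl 56 11 52) .nd))) (.rp 60 (.str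 62 (.nv (.thr 14 46 (.dbl 50 38 51)) (.nv (.dbl 42 2 40) (.rp 40 (.str 20 (.nv (.thr 11 56 (.thr 15 37 (.thr 27 59 (.dbl 51 39 50)))) (.nv (.thr 14 46 (.dbl 50 38 51)) (.rp 51 (.thr 42 2 (.thr 58 10 (.thr 14 46 (.dbl 50 38 54)))) (.rp 50 (.thr 2 42 (.thr 37 15 (.thr 7 52 (.thr 5 53 (.thr 6 4 (.dbl 14 10 46)))))) .nd))))) (.rp 20 (.thr 40 42 (.thr 14 46 (.dbl 50 38 51))) .nd))))) .nd))))) (.rp 60 (.thr 37 15 (.thr 5 53 (.thr 7 52 (.thr 4 6 (.thr 50 51 (.dbl 38 14 55)))))) (.rp 56 (.thr 37 15 (.thr 5 53 (.thr 7 52 (.thr 4 6 (.thr 50 51 (.dbl 38 14 55)))))) (.rp 52 (.thr 37 15 (.thr 50 51 (.thr 38 14 (.thr 54 6 (.thr 58 62 (.dbl 53 5 63)))))) (.rp 45 (.thr 56 11 (.thr 52 60 (.dbl 37 7 15))) (.rp 43 (.str 63 (.nv (.thr 15 37 (.thr 56 11 (.dbl 60 45 52))) (.nv (.thr 50 51 (.thr 38 14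 (.thr 54 6 (.dbl 58 53 62)))) (.nv (.thr 53 58 (.dbl 37 5 15)) .nd)))) (.rp 37 (.thr 56 11 (.thr 52 60 (.thr 50 51 (.thr 38 14 (.thr 54 6 (.dbl 55 4 53)))))) (.rp 15 (.thr 50 51 (.thr 38 14 (.thr 54 6 (.thr 58 62 (.thr 55 4 (.dbl 53 52 63)))))) (.rp 11 (.thr 37 15 (.thr 7 52 (.thr 5 53 (.thr 4 6 (.thr 50 51 (.dbl 38 14 55)))))) .nd))))))))))))) .nd)))))))))) (.rp 1 (.str 18 (.nv (.thr 26 30 (.dbl 16 19 31)) (.rp 31 (.thr 3 60 (.thr 48 33 (.thr 26 30 (.thr 11 56 (.dbl 15 7 37))))) (.rp 30 (.thr 19 16 (.thr 3 60 (.thr 35 51 (.thr 33 48 (.thr 32 34 (.thr 38 44 (.thr 54 6 (.thr 55 4 (.thr 52 53 (.dbl 37 7 45)))))))))) (.rp 26 (.thr 19 16 (.thr 3 60 (.thr 35 51 (.thr 33 48 (.thr 32 34 (.thr 38 44 (.thr 37 45 (.thr 39 36 (.dbl 47 42 43))))))))) (.rp 19 (.thr 3 60 (.thr 48 33 (.thr 26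 30 (.thr 11 56 (.dbl 15 7 37))))) (.rp 16 (.thr 3 60 (.thr 48 33 (.thr 26 30 (.thr 11 56 (.dbl 15 7 37))))) (.rp 3 (.str 2 (.nv (.thr 26 30 (.dbl 16 19 31)) (.rp 63 (.str 43 (.nv (.thr 16 19 (.dbl 26 30 31)) (.nv (.dbl 42 40 62) .nd))) (.rp 43 (.str 63 (.nv (.thr 26 30 (.dbl 16 19 31)) (.rp 31 (.thr 50 34 (.thr 42 62 (.thr 26 30 (.thr 10 58 (.dbl 14 6 38))))) (.rp 30 (.thr 50 34 (.thr 62 42 (.thr 54 58 (.thr 38 6 (.thr 26 14 (.dbl 16 19 31)))))) (.rp 26 (.thr 34 50 (.thr 42 62 (.thr 38 46 (.thr 54 6 (.thr 55 4 (.thr 53 52 (.thr 35 44 (.thr 33 32 (.dbl 37 5 45))))))))) (.rp 19 (.thr 50 34 (.thr 42 62 (.thr 26 30 (.thr 10 58 (.dbl 14 6 38))))) (.rp 16 (.thr 50 34 (.thr 42 62 (.thr 26 30 (.thr 10 58 (.dbl 14 6 38))))) .nd))))))) (.rp 31 (.thr 50 34 (.thr 42 62 (.thr 26 30 (.thr 10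 58 (.dbl 14 6 38))))) (.rp 30 (.thr 50 34 (.thr 16 19 (.thr 62 42 (.thr 54 58 (.thr 38 6 (.dbl 26 14 31)))))) (.rp 26 (.thr 34 50 (.thr 42 62 (.thr 43 40 (.thr 38 46 (.thr 35 44 (.thr 32 33 (.dbl 47 37 39))))))) (.rp 19 (.thr 50 34 (.thr 42 62 (.thr 26 30 (.thr 10 58 (.dbl 14 6 38))))) (.rp 16 (.thr 50 34 (.thr 42 62 (.thr 26 30 (.thr 10 58 (.dbl 14 6 38))))) .nd))))))))) (.rp 2 (.thr 3 60 (.thr 16 19 (.dbl 26 30 31))) .nd))))))))) .nd))))))))))))))))))))))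

theorem w39 : WinAt (6422528, 41943041) :=
  chF (K := []) kn c39 6422528 41943041 25
    [] (by decide +kernel) (by decide +kernel)

/-- A certificate. -/
noncomputable def c40 : Ct := (.str 1 (.nv (.thr 33 49 (.thr 41 61 (.dbl 3 48 60))) (.nv (.thr 33 49 (.thr 3 48 (.dbl 41 60 61))) (.rp 61 (.str 13 (.nv (.thr 19 16 (.thr 49 33 (.dbl 25 28 37))) (.nv (.thr 5 9 (.thr 49 33 (.dbl 37 25 53))) (.rp 49 (.str 3 (.nv (.thr 5 9 (.thr 33 48 (.thr 41 60 (.dbl 37 45 53)))) (.nv (.thr 9 5 (.thr 12 6 (.thr 19 16 (.thr 51 35 (.dbl 25 28 38))))) (.nv (.thr 5 9 (.thr 48 33 (.thr 60 41 (.thr 52 56 (.dbl 37 7 53))))) (.rp 57 (.str 53 (.nv (.dbl 5 9 37) (.rp 37 (.thr 19 16 (.thr 28 25 (.thr 9 5 (.thr 12 6 (.dbl 60 41 44))))) (.rp 31 (.str 28 (.nv (.dbl 5 9 37) (.nv (.dbl 19 16 25) (.rp 19 (.str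 27 (.nv (.dbl 5 9 37) (.rp 37 (.thr 9 5 (.thr 12 6 (.dbl 60 41 44))) (.rp 9 (.thr 37 5 (.thr 33 48 (.dbl 41 45 60))) (.rp 5 (.thr 48 33 (.thr 60 41 (.thr 52 56 (.thr 54 55 (.thr 6 38 (.dbl 12 9 44)))))) .nd))))) .nd)))) (.rp 28 (.str 31 (.nv (.dbl 5 9 37) (.nv (.dbl 16 19 26) .nd))) (.rp 9 (.thr 37 5 (.thr 33 48 (.dbl 41 45 60))) (.rp 5 (.thr 16 19 (.thr 48 33 (.thr 60 41 (.thr 52 56 (.thr 37 7 (.dbl 26 15 31)))))) .nd))))))) (.rp 53 (.str 57 (.nv (.thr 19 16 (.thr 51 35 (.dbl 60 41 54))) (.nv (.thr 9 5 (.dbl 41 25 60)) (.rp 60 (.thr 19 16 (.thr 9 5 (.dbl 25 28 41))) (.rp 41 (.thr 19 16 (.thr 9 5 (.thr 12 6 (.thr 51 35 (.dbl 25 28 38))))) (.rp 31 (.str 28 (.nv (.thr 9 5 (.thr 12 6 (.dbl 60 41 44))) (.nv (.dbl 19 16 25) (.rp 19 (.str 27 (.nv (.thr 60 41 (.thr 12 44 (.thr 15 14 (.dbl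 51 39 54)))) (.nv (.thr 9 5 (.dbl 41 25 60)) (.rp 60 (.thr 9 5 (.thr 12 6 (.thr 15 14 (.thr 25 41 (.dbl 51 38 39))))) (.rp 41 (.thr 9 5 (.thr 12 6 (.thr 15 14 (.thr 60 44 (.dbl 51 39 54))))) (.rp 15 (.thr 60 41 (.thr 12 44 (.dbl 9 5 6))) .nd)))))) .nd)))) (.rp 28 (.str 31 (.nv (.thr 9 5 (.dbl 41 25 60)) (.nv (.dbl 16 19 26) .nd))) .nd))))))) (.rp 48 (.thr 9 5 (.thr 12 6 (.thr 60 41 (.thr 28 44 (.dbl 19 16 25))))) (.rp 31 (.str 28 (.nv (.thr 9 5 (.thr 12 6 (.dbl 60 41 44))) (.nv (.dbl 19 16 25) (.rp 57 (.str 53 (.nv (.dbl 5 9 37) (.nv (.dbl 19 16 25) (.rp 19 (.str 27 (.nv (.dbl 5 9 37) (.rp 37 (.thr 9 5 (.thr 12 6 (.dbl 60 41 44))) (.rp 9 (.thr 37 5 (.thr 33 48 (.dbl 41 45 60))) (.rp 5 (.thr 48 33 (.thr 60 41 (.thr 52 56 (.thr 54 55 (.thr 6 38 (.dbl 12 9 44)))))) .nd))))) .nd))))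 (.rp 53 (.str 57 (.nv (.thr 9 5 (.thr 12 6 (.dbl 60 41 44))) (.nv (.dbl 19 16 25) (.rp 19 (.str 27 (.nv (.thr 60 41 (.thr 12 44 (.thr 15 14 (.dbl 51 39 54)))) (.nv (.thr 9 5 (.dbl 41 25 60)) (.rp 60 (.thr 9 5 (.thr 12 6 (.thr 15 14 (.thr 25 41 (.dbl 51 38 39))))) (.rp 41 (.thr 9 5 (.thr 12 6 (.thr 15 14 (.thr 60 44 (.dbl 51 39 54))))) (.rp 15 (.thr 60 41 (.thr 12 44 (.dbl 9 5 6))) .nd)))))) .nd)))) (.rp 19 (.str 27 (.nv (.thr 5 9 (.thr 48 33 (.thr 60 41 (.thr 52 56 (.dbl 37 7 53))))) (.nv (.thr 9 5 (.thr 60 41 (.dbl 12 6 44))) (.rp 60 (.thr 9 5 (.thr 12 6 (.thr 15 14 (.thr 7 11 (.thr 37 52 (.dbl 48 26 33)))))) (.rp 57 (.str 53 (.nv (.dbl 5 9 37) (.rp 37 (.thr 9 5 (.thr 12 6 (.dbl 60 41 44))) (.rp 9 (.thr 37 5 (.thr 33 48 (.dbl 41 45 60))) (.rp 5 (.thr 48 33 (.thr 60 41 (.thr 52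 56 (.thr 54 55 (.thr 6 38 (.dbl 12 9 44)))))) .nd))))) (.rp 53 (.str 57 (.nv (.thr 60 41 (.thr 12 44 (.thr 15 14 (.dbl 51 39 54)))) (.nv (.thr 9 5 (.dbl 41 25 60)) (.rp 60 (.thr 9 5 (.thr 12 6 (.thr 15 14 (.thr 25 41 (.dbl 51 38 39))))) (.rp 41 (.thr 9 5 (.thr 12 6 (.thr 15 14 (.thr 60 44 (.dbl 51 39 54))))) (.rp 15 (.thr 60 41 (.thr 12 44 (.dbl 9 5 6))) .nd)))))) (.rp 41 (.thr 9 5 (.thr 12 6 (.thr 15 14 (.thr 7 11 (.thr 37 52 (.dbl 48 26 33)))))) (.rp 9 (.thr 48 33 (.thr 60 41 (.thr 52 56 (.thr 37 7 (.thr 12 44 (.dbl 15 14 26)))))) (.rp 5 (.thr 48 33 (.thr 60 41 (.thr 52 56 (.thr 37 7 (.thr 12 44 (.dbl 15 14 26)))))) .nd))))))))) .nd)))))) (.rp 28 (.str 31 (.nv (.dbl 16 19 26) (.rp 57 (.str 53 (.nv (.dbl 5 9 37) (.nv (.dbl 16 19 26) .nd))) (.rp 53 (.str 57 (.nv (.thr 9 5 (.dbl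 41 25 60)) (.nv (.dbl 16 19 26) .nd))) (.rp 26 (.thr 5 9 (.thr 33 48 (.thr 41 60 (.dbl 37 45 53)))) (.rp 19 (.thr 26 16 (.thr 5 9 (.thr 48 33 (.dbl 37 15 53)))) (.rp 16 (.thr 5 9 (.thr 48 33 (.thr 60 41 (.thr 52 56 (.dbl 37 7 53))))) .nd))))))) (.rp 9 (.thr 16 19 (.thr 48 33 (.thr 60 41 (.thr 52 56 (.thr 37 7 (.dbl 26 15 31)))))) (.rp 5 (.thr 16 19 (.thr 48 33 (.thr 60 41 (.thr 52 56 (.thr 37 7 (.dbl 26 15 31)))))) .nd))))))))))) (.rp 37 (.thr 9 5 (.thr 33 49 (.thr 3 48 (.thr 12 6 (.thr 60 41 (.thr 28 44 (.dbl 19 16 25))))))) (.rp 33 (.thr 19 16 (.thr 5 9 (.thr 37 53 (.dbl 25 28 49)))) (.rp 31 (.str 28 (.nv (.dbl 19 16 25) (.rp 25 (.thr 5 9 (.thr 33 49 (.thr 3 48 (.thr 41 60 (.dbl 37 45 53))))) (.rp 19 (.str 27 (.nv (.thr 9 5 (.thr 33 49 (.thr 3 48 (.thr 12 6 (.dbl 60 41 44)))))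 (.nv (.thr 5 9 (.thr 37 53 (.dbl 49 25 33))) (.rp 53 (.thr 9 5 (.thr 49 33 (.thr 25 37 (.thr 26 24 (.thr 41 57 (.thr 11 56 (.thr 59 43 (.dbl 8 10 42)))))))) (.rp 49 (.str 3 (.nv (.thr 5 9 (.thr 48 33 (.thr 60 41 (.thr 52 56 (.dbl 37 7 53))))) (.nv (.thr 9 5 (.thr 60 41 (.dbl 12 6 44))) (.rp 60 (.thr 9 5 (.thr 12 6 (.thr 15 14 (.thr 7 11 (.thr 37 52 (.dbl 48 26 33)))))) (.rp 57 (.str 53 (.nv (.dbl 5 9 37) (.rp 37 (.thr 9 5 (.thr 12 6 (.dbl 60 41 44))) (.rp 9 (.thr 37 5 (.thr 33 48 (.dbl 41 45 60))) (.rp 5 (.thr 48 33 (.thr 60 41 (.thr 52 56 (.thr 54 55 (.thr 6 38 (.dbl 12 9 44)))))) .nd))))) (.rp 53 (.str 57 (.nv (.thr 60 41 (.thr 12 44 (.thr 15 14 (.dbl 51 39 54)))) (.nv (.thr 9 5 (.dbl 41 25 60)) (.rp 60 (.thr 9 5 (.thr 12 6 (.thr 15 14 (.thr 25 41 (.dbl 51 38 39))))) (.rp 41 (.thr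 9 5 (.thr 12 6 (.thr 15 14 (.thr 60 44 (.dbl 51 39 54))))) (.rp 15 (.thr 60 41 (.thr 12 44 (.dbl 9 5 6))) .nd)))))) (.rp 41 (.thr 9 5 (.thr 12 6 (.thr 15 14 (.thr 7 11 (.thr 37 52 (.dbl 48 26 33)))))) (.rp 9 (.thr 48 33 (.thr 60 41 (.thr 52 56 (.thr 37 7 (.thr 12 44 (.dbl 15 14 26)))))) (.rp 5 (.thr 48 33 (.thr 60 41 (.thr 52 56 (.thr 37 7 (.thr 12 44 (.dbl 15 14 26)))))) .nd))))))))) (.rp 33 (.thr 5 9 (.str 4 (.nv (.thr 7 6 (.dbl 37 52 53)) (.nv (.thr 6 7 (.dbl 38 54 55)) (.rp 7 (.thr 37 53 (.thr 38 55 (.thr 39 36 (.thr 51 15 (.dbl 25 12 49))))) (.rp 6 (.thr 37 53 (.thr 52 7 (.thr 36 20 (.dbl 38 39 55)))) .nd)))))) (.rp 9 (.thr 33 49 (.thr 3 48 (.thr 60 41 (.thr 12 44 (.thr 15 14 (.thr 11 7 (.thr 59 43 (.thr 51 39 (.thr 55 63 (.dbl 38 4 25)))))))))) (.rp 5 (.thr 33 49 (.thr 3 48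 (.thr 60 41 (.thr 12 44 (.thr 6 9 (.thr 15 14 (.thr 51 39 (.dbl 54 38 57)))))))) .nd)))))))) (.rp 16 (.thr 49 33 (.dbl 25 19 37)) .nd))))) (.rp 28 (.str 31 (.nv (.thr 5 9 (.thr 37 53 (.dbl 49 25 33))) (.nv (.dbl 16 19 26) .nd))) (.rp 25 (.thr 5 9 (.thr 33 49 (.thr 3 48 (.thr 41 60 (.dbl 37 45 53))))) .nd))))))))) (.rp 60 (.thr 19 16 (.thr 49 33 (.thr 61 41 (.thr 53 57 (.thr 37 5 (.dbl 25 13 28)))))) (.rp 49 (.str 26 (.nv (.dbl 16 19 31) (.rp 31 (.str 28 (.nv (.dbl 19 16 25) (.rp 25 (.thr 41 61 (.thr 3 60 (.thr 48 33 (.thr 11 56 (.dbl 15 7 37))))) (.rp 19 (.str 27 (.nv (.thr 41 61 (.thr 11 56 (.thr 3 60 (.thr 15 7 (.dbl 48 33 37))))) (.nv (.thr 25 24 (.thr 41 61 (.thr 57 9 (.thr 60 3 (.thr 12 44 (.dbl 51 38 54)))))) (.rp 63 (.thr 25 24 (.thr 41 61 (.thr 57 9 (.thr 11 56 (.thr 60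 3 (.thr 43 59 (.thr 51 54 (.dbl 12 38 44)))))))) (.rp 61 (.thr 25 24 (.str 15 (.nv (.thr 48 37 (.thr 3 33 (.thr 41 60 (.dbl 11 7 56)))) (.nv (.thr 51 39 (.thr 38 12 (.thr 50 14 (.thr 2 34 (.thr 62 42 (.dbl 54 6 58)))))) (.nv (.thr 48 37 (.thr 3 33 (.thr 11 7 (.dbl 41 56 60)))) (.rp 57 (.str 53 (.nv (.dbl 37 5 48) (.rp 48 (.thr 5 37 (.thr 13 9 (.thr 12 14 (.dbl 51 38 39)))) (.rp 45 (.str 13 (.nv (.thr 12 14 (.dbl 51 38 39)) (.nv (.dbl 5 9 37) .nd))) (.rp 37 (.thr 51 39 (.thr 38 12 (.thr 54 6 (.dbl 55 4 52)))) (.rp 13 (.str 45 (.nv (.dbl 37 5 48) (.rp 48 (.thr 37 5 (.thr 7 52 (.thr 11 3 (.dbl 41 33 56)))) (.rp 37 (.thr 51 39 (.thr 38 12 (.thr 54 6 (.dbl 55 4 52)))) (.rp 5 (.thr 48 37 (.thr 3 33 (.thr 11 7 (.dbl 41 56 60)))) .nd))))) (.rp 5 (.thr 48 37 (.thr 3 33 (.thr 11 7 (.dbl 41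 56 60)))) .nd))))))) (.rp 53 (.str 57 (.nv (.thr 51 39 (.thr 54 60 (.dbl 38 6 12))) (.nv (.thr 48 37 (.thr 3 33 (.dbl 41 9 60))) (.rp 60 (.thr 9 41 (.thr 13 5 (.thr 12 14 (.dbl 51 38 39)))) (.rp 45 (.str 13 (.nv (.thr 12 14 (.dbl 51 38 39)) (.nv (.dbl 9 5 41) .nd))) (.rp 13 (.str 45 (.nv (.thr 51 39 (.thr 54 60 (.dbl 38 6 12))) (.nv (.thr 41 9 (.dbl 37 33 48)) .nd))) .nd)))))) (.rp 48 (.thr 51 39 (.thr 12 38 (.thr 60 44 (.thr 57 54 (.dbl 41 3 9))))) (.rp 45 (.str 13 (.nv (.thr 12 14 (.dbl 51 38 39)) (.nv (.thr 5 9 (.dbl 37 48 53)) (.rp 57 (.str 53 (.nv (.thr 12 14 (.dbl 51 38 39)) (.nv (.dbl 5 9 37) .nd))) (.rp 53 (.str 57 (.nv (.thr 12 14 (.dbl 51 38 39)) (.nv (.dbl 9 5 41) .nd))) .nd))))) (.rp 13 (.str 45 (.nv (.thr 37 48 (.thr 41 33 (.thr 11 56 (.thr 59 43 (.thr 8 42 (.dbl 9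 10 57)))))) (.nv (.thr 51 39 (.thr 12 38 (.thr 60 44 (.thr 41 3 (.dbl 57 9 54))))) (.nv (.thr 48 37 (.thr 3 33 (.thr 11 7 (.dbl 41 56 60)))) (.rp 60 (.thr 37 48 (.thr 52 7 (.thr 53 5 (.thr 55 54 (.thr 51 39 (.dbl 38 4 12)))))) (.rp 57 (.str 53 (.nv (.dbl 37 5 48) (.rp 48 (.thr 37 5 (.thr 7 52 (.thr 11 3 (.dbl 41 33 56)))) (.rp 37 (.thr 51 39 (.thr 38 12 (.thr 54 6 (.dbl 55 4 52)))) (.rp 5 (.thr 48 37 (.thr 3 33 (.thr 11 7 (.dbl 41 56 60)))) .nd))))) (.rp 53 (.str 57 (.nv (.thr 51 39 (.thr 54 60 (.dbl 38 6 12))) (.nv (.thr 41 9 (.dbl 37 33 48)) .nd))) (.rp 41 (.thr 37 48 (.thr 52 7 (.thr 53 5 (.thr 55 54 (.thr 51 39 (.dbl 38 4 12)))))) (.rp 37 (.thr 51 39 (.thr 38 12 (.thr 54 6 (.thr 50 14 (.thr 2 34 (.dbl 62 42 58)))))) (.rp 3 (.thr 37 48 (.thr 41 33 (.thr 57 9 (.thr 51 39 (.thr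 12 38 (.dbl 60 44 54)))))) .nd)))))))))) (.rp 7 (.thr 48 37 (.thr 3 33 (.thr 41 60 (.thr 11 56 (.thr 59 43 (.thr 8 42 (.dbl 9 10 57))))))) .nd))))))))))) (.rp 60 (.thr 25 24 (.thr 41 61 (.thr 11 56 (.thr 59 43 (.thr 8 42 (.dbl 9 10 57)))))) (.rp 57 (.str 53 (.nv (.thr 37 5 (.thr 41 61 (.thr 3 60 (.dbl 33 45 48)))) (.nv (.thr 24 25 (.thr 41 61 (.thr 60 3 (.thr 12 44 (.thr 48 36 (.dbl 56 11 52)))))) (.nv (.thr 24 25 (.thr 20 16 (.thr 37 5 (.thr 52 7 (.thr 4 36 (.dbl 55 38 54)))))) (.nv (.thr 37 5 (.thr 15 48 (.thr 7 52 (.thr 3 11 (.dbl 41 60 61))))) (.rp 48 (.thr 24 25 (.thr 37 5 (.thr 52 7 (.thr 55 54 (.thr 4 38 (.dbl 20 16 36)))))) (.rp 41 (.thr 37 5 (.thr 52 7 (.thr 55 54 (.thr 4 38 (.thr 20 36 (.dbl 24 16 25)))))) (.rp 37 (.thr 41 61 (.thr 60 3 (.thr 56 11 (.thr 48 52 (.thr 12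 44 (.dbl 24 25 36)))))) .nd)))))))) (.rp 45 (.thr 25 24 (.str 15 (.nv (.thr 37 48 (.thr 5 53 (.thr 13 9 (.thr 12 14 (.dbl 51 38 39))))) (.nv (.thr 48 37 (.thr 3 33 (.dbl 41 60 61))) (.rp 61 (.str 13 (.nv (.thr 12 14 (.dbl 51 38 39)) (.nv (.thr 5 9 (.dbl 37 48 53)) (.rp 57 (.str 53 (.nv (.thr 12 14 (.dbl 51 38 39)) (.nv (.dbl 5 9 37) .nd))) (.rp 53 (.str 57 (.nv (.thr 12 14 (.dbl 51 38 39)) (.nv (.dbl 9 5 41) .nd))) .nd))))) (.rp 48 (.thr 51 39 (.thr 12 38 (.thr 60 44 (.dbl 41 3 61)))) (.rp 37 (.thr 51 39 (.thr 38 12 (.thr 54 6 (.thr 57 60 (.dbl 41 9 61))))) (.rp 13 (.thr 61 41 (.thr 37 48 (.thr 5 53 (.thr 7 52 (.thr 4 6 (.thr 51 39 (.dbl 38 12 55))))))) .nd)))))))) (.rp 41 (.str 50 (.nv (.thr 2 34 (.thr 14 38 (.thr 42 62 (.dbl 10 6 58)))) (.nv (.thr 2 34 (.thr 38 14 (.thr 54 6 (.dbl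 62 42 58)))) (.rp 62 (.thr 24 25 (.thr 20 16 (.thr 34 2 (.thr 38 14 (.thr 46 42 (.thr 6 54 (.thr 4 55 (.thr 7 5 (.dbl 52 36 37))))))))) (.rp 58 (.thr 24 25 (.thr 20 16 (.thr 38 14 (.thr 6 54 (.thr 4 55 (.thr 7 5 (.dbl 52 36 37))))))) (.rp 42 (.thr 24 25 (.thr 20 16 (.thr 38 14 (.thr 6 54 (.thr 4 55 (.thr 7 5 (.dbl 52 36 37))))))) (.rp 38 (.thr 25 24 (.thr 2 34 (.thr 42 62 (.thr 10 58 (.thr 8 59 (.thr 9 11 (.thr 5 13 (.thr 37 53 (.thr 7 52 (.dbl 6 4 14)))))))))) (.rp 34 (.thr 24 25 (.thr 20 16 (.thr 38 14 (.thr 6 54 (.thr 4 55 (.thr 7 5 (.dbl 52 36 37))))))) (.rp 14 (.thr 24 25 (.thr 20 16 (.thr 2 34 (.thr 62 42 (.thr 54 58 (.thr 38 6 (.thr 4 55 (.thr 36 52 (.thr 48 12 (.dbl 37 15 39)))))))))) (.rp 6 (.thr 24 25 (.thr 20 16 (.thr 38 14 (.thr 4 55 (.thr 36 52 (.thr 48 12 (.dbl 37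 15 39))))))) (.rp 2 (.thr 24 25 (.thr 20 16 (.thr 38 14 (.thr 6 54 (.thr 4 55 (.thr 7 5 (.dbl 52 36 37))))))) .nd))))))))))) (.rp 13 (.thr 25 24 (.str 15 (.nv (.thr 51 39 (.thr 12 38 (.thr 60 44 (.dbl 41 3 61)))) (.nv (.thr 48 37 (.thr 3 33 (.dbl 41 60 61))) (.rp 61 (.str 45 (.nv (.thr 37 48 (.thr 41 33 (.thr 11 56 (.thr 59 43 (.thr 8 42 (.dbl 9 10 57)))))) (.nv (.thr 51 39 (.thr 12 38 (.thr 60 44 (.thr 41 3 (.dbl 57 9 54))))) (.nv (.thr 48 37 (.thr 3 33 (.thr 11 7 (.dbl 41 56 60)))) (.rp 60 (.thr 37 48 (.thr 52 7 (.thr 53 5 (.thr 55 54 (.thr 51 39 (.dbl 38 4 12)))))) (.rp 57 (.str 53 (.nv (.dbl 37 5 48) (.rp 48 (.thr 37 5 (.thr 7 52 (.thr 11 3 (.dbl 41 33 56)))) (.rp 37 (.thr 51 39 (.thr 38 12 (.thr 54 6 (.dbl 55 4 52)))) (.rp 5 (.thr 48 37 (.thr 3 33 (.thr 11 7 (.dbl 41 56 60))))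 .nd))))) (.rp 53 (.str 57 (.nv (.thr 51 39 (.thr 54 60 (.dbl 38 6 12))) (.nv (.thr 41 9 (.dbl 37 33 48)) .nd))) (.rp 41 (.thr 37 48 (.thr 52 7 (.thr 53 5 (.thr 55 54 (.thr 51 39 (.dbl 38 4 12)))))) (.rp 37 (.thr 51 39 (.thr 38 12 (.thr 54 6 (.thr 50 14 (.thr 2 34 (.dbl 62 42 58)))))) (.rp 3 (.thr 37 48 (.thr 41 33 (.thr 57 9 (.thr 51 39 (.thr 12 38 (.dbl 60 44 54)))))) .nd)))))))))) (.rp 60 (.thr 48 37 (.thr 3 33 (.thr 11 7 (.dbl 41 56 61)))) (.rp 45 (.thr 61 41 (.thr 37 48 (.thr 5 53 (.thr 7 52 (.thr 4 6 (.thr 51 39 (.dbl 38 12 55))))))) (.rp 41 (.thr 37 48 (.thr 5 53 (.thr 7 52 (.thr 4 6 (.thr 51 39 (.dbl 38 12 55)))))) (.rp 37 (.thr 51 39 (.thr 38 12 (.thr 54 6 (.thr 57 60 (.dbl 41 9 61))))) (.rp 3 (.thr 51 39 (.thr 12 38 (.thr 60 44 (.thr 57 54 (.dbl 41 9 61))))) .nd))))))))))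 (.rp 3 (.thr 41 61 (.thr 11 56 (.thr 43 59 (.thr 42 40 (.thr 2 62 (.thr 50 34 (.thr 14 38 (.dbl 10 6 58)))))))) .nd))))))))))) (.rp 16 (.thr 41 61 (.thr 3 60 (.thr 48 33 (.thr 15 37 (.dbl 11 7 56))))) .nd))))) (.rp 28 (.thr 31 16 (.thr 41 61 (.thr 3 60 (.thr 48 33 (.thr 15 37 (.dbl 11 7 56)))))) (.rp 19 (.thr 41 61 (.thr 3 60 (.thr 48 33 (.thr 15 37 (.dbl 11 7 56))))) (.rp 16 (.thr 41 61 (.thr 3 60 (.thr 48 33 (.thr 15 37 (.dbl 11 7 56))))) .nd)))))) (.rp 48 (.thr 49 33 (.thr 61 41 (.thr 53 57 (.thr 37 5 (.thr 25 13 (.dbl 19 16 28)))))) (.rp 41 (.str 31 (.nv (.dbl 16 19 26) (.rp 26 (.str 37 (.nv (.thr 19 16 (.thr 25 28 (.dbl 49 13 33))) (.nv (.thr 5 53 (.thr 49 33 (.dbl 13 9 25))) (.rp 56 (.str 11 (.nv (.thr 5 53 (.thr 7 52 (.thr 3 15 (.thr 6 4 (.dbl 9 12 13))))) (.nv (.thr 7 52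 (.thr 33 49 (.dbl 3 15 48))) (.nv (.thr 5 53 (.thr 49 33 (.dbl 13 9 25))) .nd)))) (.rp 49 (.thr 7 52 (.thr 5 53 (.thr 6 4 (.thr 19 16 (.thr 25 28 (.thr 9 13 (.thr 12 3 (.dbl 38 51 54)))))))) (.rp 33 (.thr 5 53 (.thr 19 16 (.thr 25 28 (.dbl 13 9 49)))) (.rp 25 (.thr 7 52 (.thr 5 53 (.thr 6 4 (.thr 33 49 (.thr 3 48 (.dbl 9 12 13)))))) (.rp 13 (.thr 52 7 (.thr 53 5 (.thr 55 54 (.thr 19 16 (.thr 33 49 (.thr 48 3 (.thr 25 28 (.thr 63 58 (.thr 51 59 (.dbl 38 4 12)))))))))) (.rp 11 (.str 56 (.nv (.thr 33 49 (.thr 48 3 (.dbl 52 7 60))) (.nv (.thr 5 53 (.thr 49 33 (.dbl 13 9 25))) (.rp 49 (.thr 19 16 (.thr 25 28 (.thr 5 53 (.thr 9 13 (.thr 7 52 (.thr 6 4 (.thr 12 3 (.dbl 38 51 54)))))))) (.rp 33 (.thr 19 16 (.thr 25 28 (.thr 5 53 (.dbl 13 9 49)))) .nd))))) .nd))))))))) (.rp 19 (.str 2 (.nv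 (.thr 50 34 (.thr 62 42 (.thr 54 58 (.thr 38 6 (.dbl 26 14 16))))) (.nv (.thr 26 16 (.thr 33 49 (.thr 42 62 (.thr 48 3 (.thr 15 37 (.thr 58 10 (.dbl 63 47 53))))))) (.nv (.thr 26 16 (.thr 49 33 (.thr 50 34 (.thr 48 51 (.thr 37 15 (.thr 5 53 (.dbl 13 9 25))))))) (.nv (.thr 26 16 (.thr 50 34 (.thr 38 14 (.thr 54 6 (.dbl 62 42 58))))) (.rp 26 (.thr 34 50 (.thr 33 49 (.thr 32 35 (.thr 42 62 (.thr 37 47 (.thr 7 52 (.thr 5 53 (.thr 6 4 (.dbl 38 46 54))))))))) (.rp 16 (.thr 50 34 (.thr 49 33 (.thr 62 42 (.thr 54 58 (.thr 38 6 (.thr 55 4 (.thr 53 52 (.thr 57 61 (.dbl 51 48 60))))))))) .nd))))))) (.rp 16 (.str 48 (.nv (.dbl 33 3 49) (.rp 49 (.str 37 (.nv (.thr 3 33 (.thr 5 53 (.thr 7 52 (.thr 6 4 (.dbl 9 12 13))))) (.nv (.thr 53 5 (.thr 63 58 (.dbl 15 26 47))) (.nv (.thr 7 52 (.thr 3 33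 (.dbl 15 11 26))) .nd)))) (.rp 33 (.str 37 (.nv (.thr 53 5 (.thr 63 58 (.dbl 15 26 47))) (.rp 63 (.thr 7 52 (.thr 5 53 (.thr 6 4 (.thr 15 26 (.thr 9 13 (.dbl 3 11 12)))))) (.rp 58 (.thr 7 52 (.thr 5 53 (.thr 6 4 (.thr 15 26 (.thr 9 13 (.dbl 3 11 12)))))) (.rp 53 (.str 6 (.nv (.thr 7 52 (.thr 5 4 (.thr 9 13 (.thr 15 26 (.dbl 3 11 12))))) (.nv (.thr 7 52 (.thr 4 5 (.dbl 38 54 55))) (.rp 55 (.thr 54 38 (.thr 7 52 (.thr 5 4 (.thr 15 26 (.thr 9 13 (.dbl 3 11 12)))))) (.rp 54 (.thr 15 26 (.thr 47 63 (.thr 42 32 (.thr 2 62 (.thr 14 10 (.thr 12 13 (.thr 3 9 (.dbl 7 11 52)))))))) (.rp 52 (.thr 38 54 (.thr 55 4 (.thr 15 26 (.thr 63 47 (.thr 51 59 (.dbl 39 27 36)))))) (.rp 15 (.thr 38 54 (.thr 36 39 (.thr 12 24 (.thr 9 3 (.thr 5 13 (.dbl 7 4 52)))))) (.rp 7 (.thr 38 54 (.thr 55 4 (.thr 39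 36 (.thr 15 26 (.thr 63 47 (.dbl 51 27 59)))))) (.rp 5 (.thr 38 54 (.thr 55 4 (.thr 39 36 (.thr 15 26 (.thr 63 47 (.dbl 51 27 59)))))) (.rp 4 (.thr 38 54 (.thr 39 36 (.thr 15 26 (.thr 51 27 (.thr 49 50 (.dbl 25 12 13)))))) .nd)))))))))) (.rp 47 (.thr 7 52 (.thr 5 53 (.thr 6 4 (.thr 15 26 (.thr 9 13 (.dbl 3 11 12)))))) (.rp 26 (.thr 7 52 (.thr 5 53 (.thr 6 4 (.thr 9 13 (.thr 12 3 (.thr 36 24 (.dbl 38 39 54))))))) (.rp 15 (.thr 7 52 (.thr 5 53 (.thr 6 4 (.thr 9 13 (.thr 12 3 (.thr 36 24 (.dbl 38 39 54))))))) (.rp 10 (.thr 53 5 (.thr 15 26 (.dbl 63 47 58))) (.rp 5 (.thr 52 7 (.thr 15 26 (.thr 63 47 (.thr 53 58 (.thr 55 54 (.thr 51 59 (.thr 39 27 (.dbl 38 4 36)))))))) .nd)))))))))) (.rp 3 (.thr 49 33 (.thr 50 51 (.thr 2 34 (.thr 62 42 (.thr 58 54 (.thr 63 53 (.thr 60 61 (.thr 52 56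 (.thr 37 7 (.dbl 15 26 47)))))))))) .nd))))) .nd))))) (.rp 33 (.str 5 (.nv (.thr 37 53 (.thr 7 52 (.thr 6 4 (.thr 41 61 (.thr 3 60 (.dbl 9 12 13)))))) (.nv (.thr 19 16 (.thr 13 9 (.thr 37 53 (.dbl 25 28 49)))) (.rp 53 (.thr 19 16 (.thr 41 61 (.thr 3 60 (.thr 35 51 (.thr 38 44 (.thr 4 55 (.dbl 6 7 54))))))) (.rp 49 (.thr 19 16 (.thr 41 61 (.thr 3 60 (.thr 35 51 (.thr 38 44 (.thr 4 55 (.dbl 6 7 54))))))) (.rp 48 (.thr 13 9 (.thr 37 53 (.thr 25 49 (.dbl 19 16 28)))) (.rp 37 (.thr 19 16 (.thr 41 61 (.thr 3 60 (.thr 35 51 (.thr 38 44 (.thr 4 55 (.dbl 6 7 54))))))) (.rp 31 (.str 28 (.nv (.dbl 19 16 25) (.rp 25 (.thr 37 53 (.thr 7 52 (.thr 6 4 (.thr 41 61 (.thr 3 60 (.dbl 9 12 13)))))) (.rp 19 (.str 27 (.nv (.thr 13 9 (.thr 37 53 (.thr 25 49 (.thr 61 41 (.thr 26 24 (.thr 15 48 (.thr 51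 39 (.dbl 12 14 38)))))))) (.nv (.thr 37 53 (.thr 7 52 (.thr 4 6 (.thr 41 61 (.thr 3 60 (.thr 15 11 (.thr 39 51 (.dbl 38 36 55)))))))) (.nv (.thr 13 9 (.thr 41 61 (.thr 60 3 (.thr 12 44 (.thr 15 14 (.thr 51 39 (.thr 38 25 (.dbl 54 6 57)))))))) (.nv (.thr 37 53 (.thr 7 52 (.thr 6 4 (.thr 41 61 (.thr 3 60 (.dbl 9 12 13)))))) (.nv (.thr 13 9 (.thr 37 53 (.thr 25 49 (.thr 26 24 (.thr 15 48 (.thr 12 14 (.dbl 51 38 39))))))) (.rp 63 (.thr 13 9 (.thr 37 53 (.thr 25 49 (.thr 24 26 (.thr 20 16 (.thr 52 7 (.thr 36 4 (.thr 39 38 (.thr 15 51 (.dbl 12 14 48)))))))))) (.rp 61 (.thr 13 9 (.str 4 (.nv (.thr 7 6 (.dbl 37 52 53)) (.nv (.thr 6 7 (.dbl 38 54 55)) (.rp 7 (.thr 37 53 (.thr 38 55 (.thr 39 36 (.thr 51 15 (.dbl 25 12 49))))) (.rp 6 (.thr 37 53 (.thr 52 7 (.thr 36 20 (.dbl 38 39 55)))) .nd))))))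 (.rp 15 (.thr 13 9 (.thr 37 53 (.thr 49 25 (.thr 7 52 (.thr 6 4 (.thr 41 61 (.thr 60 3 (.thr 54 38 (.thr 51 57 (.thr 50 48 (.thr 2 34 (.dbl 62 42 58)))))))))))) (.rp 13 (.str 4 (.nv (.thr 6 7 (.dbl 38 54 55)) (.nv (.thr 7 6 (.dbl 37 52 53)) (.rp 61 (.str 45 (.nv (.thr 6 7 (.dbl 38 54 55)) (.nv (.thr 7 6 (.dbl 37 52 53)) (.rp 7 (.thr 37 53 (.thr 38 55 (.thr 39 36 (.thr 54 6 (.thr 51 15 (.thr 12 25 (.dbl 60 44 57))))))) (.rp 6 (.thr 37 53 (.thr 52 7 (.thr 36 20 (.dbl 38 39 55)))) .nd))))) (.rp 45 (.thr 61 41 (.thr 37 53 (.dbl 7 6 52))) (.rp 7 (.thr 37 53 (.thr 38 55 (.thr 39 36 (.thr 51 15 (.thr 12 25 (.thr 60 44 (.dbl 54 6 57))))))) (.rp 6 (.thr 37 53 (.thr 52 7 (.thr 36 20 (.dbl 38 39 55)))) .nd))))))) .nd)))))))))) (.rp 16 (.thr 13 9 (.thr 37 53 (.dbl 25 19 49))) .nd))))) (.rp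 28 (.str 31 (.nv (.dbl 16 19 26) (.rp 26 (.thr 37 53 (.thr 7 52 (.thr 6 4 (.thr 41 61 (.thr 3 60 (.dbl 9 12 13)))))) (.rp 19 (.thr 26 16 (.thr 37 53 (.thr 7 52 (.thr 41 61 (.thr 3 60 (.dbl 15 11 48)))))) (.rp 16 (.thr 37 53 (.thr 7 52 (.thr 6 4 (.thr 41 61 (.thr 3 60 (.dbl 9 12 13)))))) .nd))))) (.rp 13 (.thr 61 41 (.thr 37 53 (.str 2 (.nv (.thr 50 34 (.thr 62 42 (.thr 7 52 (.thr 54 58 (.dbl 6 4 38))))) (.nv (.thr 7 52 (.thr 6 4 (.thr 14 10 (.thr 50 34 (.dbl 38 26 54))))) (.nv (.thr 7 52 (.thr 4 6 (.thr 34 50 (.thr 42 62 (.dbl 38 46 55))))) (.rp 54 (.thr 52 7 (.thr 16 19 (.thr 62 42 (.thr 60 63 (.thr 48 56 (.dbl 26 15 31)))))) (.rp 52 (.thr 16 19 (.thr 50 34 (.thr 62 42 (.thr 54 58 (.thr 38 6 (.dbl 26 14 31)))))) (.rp 50 (.thr 52 7 (.thr 16 19 (.thr 62 42 (.thr 60 63 (.thr 48 56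 (.dbl 26 15 31)))))) (.rp 38 (.thr 52 7 (.thr 16 19 (.thr 62 42 (.thr 60 63 (.thr 48 56 (.dbl 26 15 31)))))) (.rp 34 (.thr 52 7 (.thr 16 19 (.thr 62 42 (.thr 60 63 (.thr 48 56 (.dbl 26 15 31)))))) (.rp 31 (.str 28 (.nv (.dbl 19 16 25) (.rp 25 (.thr 7 52 (.thr 4 6 (.thr 34 50 (.thr 42 62 (.dbl 38 46 55))))) (.rp 19 (.str 27 (.nv (.thr 50 34 (.thr 62 42 (.thr 7 52 (.thr 54 58 (.dbl 6 4 38))))) (.nv (.thr 7 52 (.thr 6 4 (.thr 14 10 (.thr 50 34 (.dbl 38 26 54))))) (.nv (.thr 7 52 (.thr 4 6 (.thr 34 50 (.thr 42 62 (.dbl 38 46 55))))) (.rp 54 (.thr 52 7 (.thr 50 34 (.thr 62 42 (.thr 60 63 (.thr 48 56 (.thr 51 49 (.dbl 15 26 39))))))) (.rp 52 (.thr 50 34 (.thr 62 42 (.thr 54 58 (.thr 38 6 (.thr 26 14 (.thr 39 36 (.dbl 15 48 51))))))) (.rp 50 (.thr 52 7 (.thr 62 42 (.thr 60 63 (.thr 48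 56 (.thr 12 44 (.thr 24 36 (.dbl 26 15 25))))))) (.rp 38 (.str 60 (.nv (.dbl 62 42 63) (.rp 63 (.thr 52 7 (.thr 48 56 (.thr 50 34 (.thr 51 49 (.dbl 15 26 39))))) (.rp 62 (.thr 52 7 (.thr 48 56 (.thr 26 15 (.thr 24 25 (.dbl 12 36 44))))) (.rp 44 (.str 35 (.nv (.dbl 62 42 63) (.rp 63 (.thr 52 7 (.thr 50 34 (.thr 48 56 (.thr 51 49 (.dbl 15 26 39))))) (.rp 62 (.thr 52 7 (.thr 50 34 (.thr 48 56 (.thr 51 49 (.dbl 15 26 39))))) (.rp 42 (.thr 52 7 (.thr 48 56 (.thr 26 15 (.thr 24 25 (.thr 20 16 (.dbl 36 4 12)))))) .nd))))) (.rp 42 (.thr 52 7 (.thr 48 56 (.thr 26 15 (.thr 24 25 (.dbl 12 36 44))))) (.rp 35 (.thr 44 12 (.dbl 62 42 63)) .nd))))))) (.rp 34 (.thr 52 7 (.thr 62 42 (.thr 60 63 (.thr 48 56 (.thr 12 44 (.thr 24 36 (.dbl 26 15 25))))))) (.rp 7 (.thr 50 34 (.thr 62 42 (.thr 54 58 (.thr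 38 6 (.thr 26 14 (.thr 39 36 (.dbl 15 48 51))))))) (.rp 6 (.thr 52 7 (.thr 50 34 (.thr 62 42 (.thr 60 63 (.thr 48 56 (.thr 51 49 (.dbl 54 57 58))))))) (.rp 4 (.thr 52 7 (.thr 50 34 (.thr 62 42 (.thr 60 63 (.thr 48 56 (.thr 51 49 (.dbl 54 57 58))))))) .nd)))))))))))) (.rp 16 (.thr 7 52 (.thr 4 6 (.thr 34 50 (.thr 42 62 (.dbl 38 46 55))))) .nd))))) (.rp 28 (.str 31 (.nv (.dbl 16 19 26) (.rp 26 (.thr 7 52 (.thr 4 6 (.thr 34 50 (.thr 42 62 (.dbl 38 46 55))))) (.rp 19 (.thr 26 16 (.thr 62 42 (.thr 63 60 (.dbl 15 47 48)))) (.rp 16 (.thr 7 52 (.thr 4 6 (.thr 34 50 (.thr 42 62 (.dbl 38 46 55))))) .nd))))) (.rp 7 (.thr 16 19 (.thr 50 34 (.thr 62 42 (.thr 54 58 (.thr 38 6 (.dbl 26 14 31)))))) (.rp 6 (.thr 52 7 (.thr 16 19 (.thr 62 42 (.thr 60 63 (.thr 48 56 (.dbl 26 15 31)))))) (.rp 4 (.thr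 52 7 (.thr 16 19 (.thr 62 42 (.thr 60 63 (.thr 48 56 (.dbl 26 15 31)))))) .nd)))))))))))))))) (.rp 9 (.thr 16 19 (.thr 37 53 (.thr 7 52 (.thr 41 61 (.thr 3 60 (.thr 15 11 (.dbl 26 31 48))))))) .nd))))))))))) (.rp 31 (.str 28 (.nv (.thr 33 49 (.thr 41 61 (.dbl 3 48 60))) (.nv (.dbl 19 16 25) (.rp 19 (.str 27 (.nv (.thr 33 49 (.thr 41 61 (.dbl 3 48 60))) (.nv (.thr 33 49 (.thr 3 48 (.dbl 41 60 61))) (.rp 61 (.thr 33 49 (.thr 3 48 (.thr 60 41 (.thr 12 44 (.thr 6 9 (.thr 38 54 (.thr 4 55 (.thr 7 5 (.thr 15 11 (.dbl 51 25 39)))))))))) (.rp 60 (.thr 49 33 (.thr 61 41 (.thr 53 57 (.thr 37 5 (.thr 25 13 (.thr 24 26 (.thr 20 16 (.thr 52 7 (.thr 4 36 (.dbl 55 38 54)))))))))) (.rp 49 (.str 3 (.nv (.dbl 41 60 61) (.rp 61 (.thr 48 33 (.thr 60 41 (.thr 52 56 (.thr 37 7 (.thr 26 15 (.thr 24 25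 (.dbl 12 36 44))))))) (.rp 60 (.str 15 (.nv (.thr 7 11 (.thr 37 52 (.thr 5 53 (.thr 6 4 (.dbl 9 12 13))))) (.nv (.thr 7 11 (.thr 37 52 (.dbl 48 26 33))) (.rp 52 (.thr 11 7 (.thr 48 33 (.thr 26 37 (.dbl 41 56 61)))) (.rp 48 (.thr 11 7 (.thr 59 43 (.thr 51 39 (.thr 55 63 (.thr 38 4 (.thr 6 54 (.dbl 12 9 25))))))) (.rp 40 (.str 20 (.nv (.thr 7 11 (.thr 52 37 (.thr 4 36 (.thr 6 5 (.dbl 38 54 55))))) (.nv (.thr 24 16 (.thr 48 33 (.dbl 26 25 37))) (.rp 37 (.thr 24 16 (.thr 11 7 (.thr 41 61 (.dbl 26 25 56)))) (.rp 25 (.thr 7 11 (.thr 37 52 (.dbl 48 26 33))) .nd))))) (.rp 37 (.thr 11 7 (.thr 59 43 (.thr 51 39 (.thr 55 63 (.thr 38 4 (.thr 6 54 (.dbl 12 9 25))))))) (.rp 20 (.str 40 (.nv (.thr 11 7 (.thr 41 61 (.dbl 43 42 59))) (.nv (.thr 7 11 (.thr 48 33 (.dbl 37 26 52))) (.rp 11 (.thr 48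 33 (.thr 37 26 (.thr 7 52 (.thr 5 53 (.thr 9 13 (.dbl 6 4 12)))))) (.rp 7 (.thr 48 33 (.thr 26 37 (.thr 41 61 (.thr 43 42 (.dbl 11 56 59))))) .nd))))) (.rp 11 (.thr 48 33 (.thr 37 26 (.thr 7 52 (.thr 5 53 (.thr 6 4 (.dbl 9 12 13)))))) (.rp 7 (.thr 39 51 (.thr 48 33 (.thr 37 26 (.thr 5 53 (.thr 13 9 (.thr 12 14 (.dbl 36 24 38))))))) .nd)))))))))) (.rp 41 (.str 6 (.nv (.thr 9 12 (.thr 5 13 (.thr 37 53 (.dbl 7 4 52)))) (.nv (.thr 38 54 (.thr 4 55 (.thr 7 5 (.thr 15 11 (.thr 39 51 (.dbl 37 36 52)))))) (.nv (.thr 12 9 (.thr 48 33 (.thr 24 36 (.thr 38 54 (.dbl 25 26 51))))) (.nv (.thr 38 54 (.thr 4 55 (.thr 9 12 (.dbl 5 7 13)))) .nd))))) .nd))))) (.rp 48 (.thr 49 33 (.thr 61 41 (.thr 53 57 (.thr 37 5 (.thr 25 13 (.thr 24 26 (.thr 52 7 (.thr 55 54 (.thr 4 38 (.dbl 20 16 36)))))))))) (.rp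 41 (.str 52 (.nv (.thr 49 33 (.thr 37 7 (.thr 5 53 (.dbl 13 9 25)))) (.rp 55 (.thr 33 49 (.thr 48 3 (.thr 60 56 (.thr 12 44 (.thr 24 36 (.thr 26 25 (.dbl 37 7 15))))))) (.rp 53 (.thr 37 7 (.thr 33 49 (.thr 48 3 (.thr 60 56 (.thr 12 44 (.thr 24 36 (.dbl 26 15 25))))))) (.rp 49 (.str 4 (.nv (.thr 36 20 (.thr 37 7 (.dbl 38 39 55))) (.nv (.thr 38 55 (.thr 6 54 (.dbl 7 5 37))) (.rp 55 (.thr 36 20 (.thr 37 7 (.thr 39 38 (.thr 15 51 (.thr 48 26 (.thr 12 24 (.dbl 60 44 56))))))) (.rp 39 (.thr 7 37 (.thr 6 5 (.dbl 38 54 55))) (.rp 38 (.thr 37 7 (.thr 5 53 (.thr 9 13 (.thr 20 36 (.thr 24 16 (.thr 26 25 (.thr 48 15 (.thr 60 56 (.thr 3 33 (.dbl 12 6 44)))))))))) (.rp 37 (.thr 20 36 (.thr 24 16 (.thr 25 26 (.thr 38 55 (.thr 6 54 (.thr 12 51 (.thr 3 9 (.thr 60 44 (.dbl 48 33 56))))))))) (.rp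 7 (.thr 36 20 (.thr 38 55 (.thr 39 37 (.thr 51 15 (.thr 54 6 (.thr 60 57 (.dbl 12 25 44))))))) .nd)))))))) (.rp 39 (.thr 33 49 (.thr 48 3 (.thr 60 56 (.thr 12 44 (.thr 24 36 (.thr 26 25 (.dbl 37 7 15))))))) (.rp 37 (.thr 33 49 (.thr 48 3 (.thr 60 56 (.thr 12 44 (.thr 36 24 (.thr 4 20 (.thr 38 55 (.thr 54 6 (.dbl 51 25 57))))))))) (.rp 33 (.thr 37 7 (.thr 5 53 (.thr 13 9 (.thr 25 49 (.thr 26 24 (.thr 15 48 (.thr 12 14 (.dbl 51 38 39)))))))) (.rp 25 (.thr 37 7 (.thr 53 5 (.thr 55 54 (.thr 33 49 (.thr 48 3 (.thr 63 58 (.thr 51 59 (.dbl 15 26 39)))))))) (.rp 13 (.thr 37 7 (.thr 33 49 (.thr 48 3 (.thr 60 56 (.thr 12 44 (.thr 24 36 (.dbl 26 15 25))))))) (.rp 9 (.thr 37 7 (.thr 33 49 (.thr 48 3 (.thr 60 56 (.thr 12 44 (.thr 24 36 (.dbl 26 15 25))))))) (.rp 7 (.thr 33 49 (.thr 48 3 (.thr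 60 56 (.thr 12 44 (.thr 36 24 (.thr 4 20 (.thr 38 55 (.thr 39 37 (.dbl 51 15 25))))))))) (.rp 5 (.thr 37 7 (.thr 33 49 (.thr 48 3 (.thr 60 56 (.thr 12 44 (.thr 24 36 (.dbl 26 15 25))))))) .nd))))))))))))) (.rp 33 (.str 13 (.nv (.thr 41 61 (.thr 60 3 (.thr 12 44 (.thr 15 14 (.thr 51 39 (.thr 38 25 (.dbl 54 6 57))))))) (.nv (.thr 9 5 (.thr 41 61 (.thr 25 57 (.thr 26 24 (.thr 11 56 (.thr 59 43 (.dbl 8 10 42))))))) (.nv (.thr 5 9 (.thr 37 53 (.thr 25 49 (.thr 26 24 (.thr 15 48 (.thr 12 14 (.dbl 51 38 39))))))) (.nv (.thr 9 5 (.thr 41 61 (.thr 57 25 (.thr 60 3 (.thr 51 54 (.thr 12 44 (.dbl 15 14 39))))))) (.rp 63 (.thr 5 9 (.thr 37 53 (.thr 25 49 (.thr 24 26 (.thr 20 16 (.thr 52 7 (.thr 36 4 (.thr 39 38 (.thr 15 51 (.dbl 12 14 48)))))))))) (.rp 61 (.thr 5 9 (.str 4 (.nv (.thr 7 6 (.dbl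 37 52 53)) (.nv (.thr 6 7 (.dbl 38 54 55)) (.rp 7 (.thr 37 53 (.thr 38 55 (.thr 39 36 (.thr 51 15 (.dbl 25 12 49))))) (.rp 6 (.thr 37 53 (.thr 52 7 (.thr 36 20 (.dbl 38 39 55)))) .nd)))))) (.rp 57 (.thr 5 9 (.thr 37 53 (.thr 25 49 (.thr 61 41 (.thr 26 24 (.thr 15 48 (.thr 12 14 (.dbl 51 38 39)))))))) (.rp 25 (.thr 5 9 (.thr 37 53 (.thr 52 7 (.thr 41 61 (.thr 60 3 (.thr 48 56 (.thr 15 26 (.dbl 12 14 44)))))))) (.rp 15 (.thr 5 9 (.thr 37 53 (.thr 49 25 (.thr 7 52 (.thr 6 4 (.thr 41 61 (.thr 60 3 (.thr 54 38 (.thr 51 57 (.thr 50 48 (.thr 2 34 (.dbl 62 42 58)))))))))))) .nd)))))))))) (.rp 3 (.thr 49 33 (.thr 61 41 (.thr 53 57 (.thr 37 5 (.thr 25 13 (.thr 24 26 (.thr 20 16 (.thr 52 7 (.thr 55 54 (.dbl 4 36 38)))))))))) .nd)))))))))) .nd)))) (.rp 28 (.str 31 (.nv (.thr 33 49 (.thr 41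 61 (.dbl 3 48 60))) (.nv (.dbl 16 19 26) .nd))) (.rp 3 (.thr 19 16 (.thr 49 33 (.thr 61 41 (.thr 53 57 (.thr 37 5 (.dbl 25 13 28)))))) .nd))))))))))))

theorem w40 : WinAt (6684672, 1619001345) :=
  chF (K := []) kn c40 6684672 1619001345 30
    [4026531840] (by decide +kernel) (by decide +kernel)

/-- A certificate. -/
noncomputable def c41 : Ct := (.str 17 (.rp 63 (.str 26 (.nv (.thr 18 30 (.dbl 16 19 31)) (.rp 43 (.str 3 (.nv (.thr 18 30 (.thr 33 48 (.thr 1 49 (.dbl 41 60 61)))) (.nv (.thr 18 30 (.dbl 16 19 31)) (.rp 30 (.thr 16 31 (.thr 19 18 (.dbl 25 28 29))) (.rp 18 (.thr 25 29 (.thr 19 28 (.thr 51 35 (.thr 12 38 (.thr 9 6 (.dbl 41 57 60)))))) (.rp 16 (.thr 18 30 (.thr 48 33 (.thr 15 37 (.thr 11 7 (.dbl 41 56 60))))) .nd)))))) (.rp 31 (.thr 18 30 (.thr 19 16 (.dbl 25 28 29)))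 (.rp 30 (.thr 16 31 (.thr 19 18 (.dbl 25 28 29))) (.rp 19 (.thr 30 18 (.thr 31 16 (.dbl 29 25 28))) (.rp 18 (.str 3 (.nv (.thr 25 29 (.thr 27 24 (.thr 41 60 (.thr 9 57 (.thr 11 56 (.thr 8 10 (.dbl 59 42 43))))))) (.nv (.thr 25 29 (.thr 19 28 (.thr 27 24 (.thr 51 35 (.thr 15 39 (.thr 7 11 (.dbl 37 48 52))))))) (.nv (.thr 16 31 (.thr 29 25 (.thr 41 60 (.thr 11 56 (.thr 15 7 (.thr 61 1 (.thr 45 13 (.dbl 37 33 48)))))))) (.nv (.thr 25 29 (.thr 19 28 (.thr 51 35 (.thr 12 38 (.thr 9 6 (.dbl 41 57 60)))))) (.rp 29 (.str 12 (.nv (.thr 16 31 (.thr 60 41 (.thr 28 44 (.thr 24 20 (.dbl 25 19 27))))) (.nv (.thr 6 9 (.thr 38 54 (.thr 14 50 (.thr 15 13 (.thr 7 11 (.dbl 4 5 55)))))) (.nv (.thr 6 9 (.thr 38 54 (.thr 60 41 (.thr 28 44 (.dbl 25 19 51))))) (.rp 38 (.thr 6 9 (.thr 41 60 (.thr 11 56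 (.thr 7 15 (.thr 5 4 (.dbl 37 52 53)))))) .nd))))) (.rp 25 (.str 6 (.nv (.thr 41 60 (.thr 11 56 (.thr 7 15 (.thr 5 4 (.dbl 37 52 53))))) (.nv (.thr 12 9 (.thr 38 54 (.thr 14 50 (.thr 15 13 (.thr 11 7 (.dbl 41 56 60)))))) (.nv (.thr 9 12 (.thr 38 54 (.thr 14 50 (.thr 41 60 (.thr 11 56 (.dbl 10 2 8)))))) (.nv (.thr 38 54 (.thr 4 55 (.thr 7 5 (.thr 15 11 (.dbl 37 48 52))))) (.rp 11 (.thr 12 9 (.thr 38 54 (.thr 4 55 (.thr 14 50 (.thr 15 13 (.thr 37 48 (.dbl 7 5 52))))))) .nd)))))) .nd))))))) (.rp 16 (.str 48 (.nv (.thr 18 30 (.thr 3 33 (.thr 25 29 (.thr 24 27 (.thr 12 36 (.thr 6 9 (.dbl 38 51 54))))))) (.nv (.thr 25 29 (.thr 24 27 (.thr 12 36 (.thr 51 38 (.thr 49 50 (.dbl 37 13 15)))))) (.nv (.thr 15 37 (.thr 30 18 (.thr 60 45 (.thr 56 52 (.dbl 41 3 11))))) (.rp 43 (.str 3 (.nv (.thr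 15 37 (.thr 11 7 (.dbl 41 56 60))) (.nv (.dbl 18 30 33) .nd))) (.rp 3 (.str 43 (.nv (.thr 25 29 (.thr 37 15 (.thr 49 13 (.thr 1 33 (.thr 61 41 (.dbl 53 5 57)))))) (.nv (.thr 25 29 (.thr 27 24 (.thr 11 59 (.thr 56 41 (.thr 52 60 (.dbl 37 7 15)))))) (.nv (.thr 25 29 (.thr 24 27 (.thr 12 36 (.thr 51 38 (.thr 49 50 (.dbl 37 13 15)))))) (.rp 46 (.thr 30 18 (.thr 15 37 (.thr 60 45 (.thr 56 52 (.thr 41 11 (.thr 40 42 (.thr 24 8 (.dbl 25 27 29)))))))) (.rp 37 (.thr 25 29 (.thr 18 30 (.thr 27 24 (.thr 59 11 (.thr 42 8 (.thr 2 62 (.thr 50 34 (.thr 51 49 (.dbl 38 12 14))))))))) (.rp 29 (.thr 30 18 (.thr 15 37 (.thr 60 45 (.thr 56 52 (.thr 41 11 (.thr 40 42 (.thr 24 8 (.thr 25 27 (.thr 12 36 (.dbl 28 19 44)))))))))) (.rp 25 (.thr 30 18 (.thr 15 37 (.thr 60 45 (.thr 56 52 (.thr 41 11 (.thr 42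 40 (.thr 1 61 (.thr 49 33 (.thr 51 50 (.thr 57 54 (.dbl 58 10 59))))))))))) (.rp 15 (.thr 25 29 (.thr 27 24 (.thr 11 59 (.thr 41 56 (.thr 1 61 (.thr 49 33 (.thr 13 37 (.dbl 9 5 57)))))))) (.rp 12 (.thr 30 18 (.thr 15 37 (.thr 60 45 (.thr 56 52 (.thr 41 11 (.thr 42 40 (.thr 58 10 (.thr 59 57 (.dbl 25 8 29))))))))) (.rp 2 (.str 1 (.nv (.thr 33 49 (.thr 37 15 (.dbl 41 45 61))) (.nv (.thr 41 61 (.thr 11 56 (.thr 27 59 (.dbl 25 24 29)))) (.nv (.thr 49 33 (.thr 25 29 (.dbl 37 13 15))) .nd)))) (.rp 1 (.str 2 (.nv (.thr 18 30 (.thr 25 29 (.thr 37 15 (.thr 49 13 (.dbl 50 34 51))))) (.nv (.thr 25 29 (.thr 27 24 (.thr 59 11 (.dbl 42 8 62)))) (.nv (.thr 18 30 (.thr 50 34 (.thr 38 14 (.thr 62 42 (.dbl 54 6 58))))) .nd)))) .nd)))))))))))) .nd)))))) (.rp 3 .ext .nd))))))))) (.rp 62 (.str 16 (.nv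 (.thr 18 19 (.dbl 26 30 31)) (.nv (.thr 19 18 (.dbl 25 28 29)) (.rp 19 (.thr 25 29 (.thr 26 31 (.thr 27 24 (.thr 30 18 (.str 1 (.nv (.thr 41 61 (.thr 11 56 (.thr 59 43 (.thr 8 42 (.dbl 9 10 57))))) (.nv (.thr 49 33 (.thr 61 41 (.thr 37 13 (.dbl 53 5 57)))) (.rp 61 (.thr 49 33 (.thr 13 37 (.thr 9 5 (.thr 41 57 (.thr 11 56 (.thr 59 43 (.dbl 8 10 42))))))) (.rp 57 (.thr 41 61 (.thr 60 3 (.thr 45 15 (.dbl 33 37 49)))) (.rp 41 (.thr 49 33 (.thr 37 13 (.thr 5 53 (.thr 7 52 (.thr 4 6 (.thr 48 15 (.thr 51 50 (.dbl 38 12 55)))))))) (.rp 13 (.thr 33 49 (.thr 41 61 (.thr 45 37 (.dbl 60 3 15)))) (.rp 3 (.thr 41 61 (.thr 9 57 (.thr 13 5 (.dbl 49 33 37)))) .nd)))))))))))) (.rp 18 (.thr 25 29 (.thr 28 19 (.thr 24 20 (.dbl 26 27 31)))) .nd))))) (.rp 61 (.str 16 (.nv (.thr 18 19 (.dbl 26 30 31))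 (.nv (.thr 19 18 (.dbl 25 28 29)) (.rp 19 (.thr 25 29 (.thr 26 31 (.thr 27 24 (.thr 30 18 (.str 15 (.nv (.thr 45 60 (.thr 48 37 (.thr 51 39 (.thr 38 12 (.dbl 50 14 49))))) (.nv (.thr 37 48 (.thr 7 52 (.thr 3 11 (.dbl 60 41 45)))) (.nv (.thr 51 39 (.thr 12 38 (.thr 13 14 (.dbl 37 48 49)))) (.rp 48 (.thr 51 39 (.thr 12 38 (.thr 13 14 (.thr 60 45 (.thr 57 54 (.dbl 41 3 9)))))) (.rp 45 (.str 13 (.nv (.thr 12 14 (.dbl 51 38 39)) (.nv (.dbl 37 48 49) .nd))) (.rp 37 (.thr 51 39 (.thr 38 12 (.thr 54 6 (.dbl 60 45 57)))) (.rp 12 (.thr 45 60 (.thr 39 51 (.thr 37 48 (.thr 36 38 (.thr 49 13 (.dbl 33 1 41)))))) (.rp 7 (.thr 45 60 (.thr 37 48 (.thr 49 13 (.dbl 33 1 41)))) .nd))))))))))))) (.rp 18 (.thr 25 29 (.thr 28 19 (.thr 24 20 (.dbl 26 27 31)))) .nd))))) (.rp 60 (.str 26 (.nv (.thr 16 31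 (.thr 19 18 (.dbl 25 28 29))) (.nv (.thr 16 31 (.dbl 18 19 30)) (.rp 40 (.str 20 (.nv (.thr 18 30 (.thr 19 16 (.dbl 25 28 29))) (.nv (.thr 16 31 (.thr 25 29 (.dbl 28 19 24))) (.nv (.thr 16 31 (.dbl 18 19 30)) (.rp 19 (.thr 30 18 (.thr 31 16 (.dbl 29 25 28))) (.rp 16 (.str 48 (.nv (.thr 15 37 (.thr 25 29 (.thr 24 27 (.thr 12 36 (.thr 38 51 (.thr 54 6 (.dbl 14 13 50))))))) (.nv (.thr 18 30 (.thr 33 3 (.thr 1 49 (.thr 41 61 (.dbl 37 15 45))))) (.rp 37 (.thr 18 30 (.thr 25 29 (.thr 24 27 (.thr 12 36 (.thr 38 51 (.thr 3 33 (.dbl 6 9 54))))))) (.rp 15 (.thr 25 29 (.thr 24 27 (.thr 19 28 (.thr 12 36 (.thr 51 38 (.thr 3 35 (.dbl 18 30 33))))))) .nd))))) .nd)))))) (.rp 31 (.thr 18 30 (.thr 19 16 (.dbl 25 28 29))) (.rp 20 (.str 40 (.nv (.thr 16 31 (.thr 19 18 (.dbl 25 28 29))) (.nv (.thr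 16 31 (.dbl 18 19 30)) (.rp 31 (.thr 18 30 (.thr 19 16 (.dbl 25 28 29))) (.rp 19 (.thr 30 18 (.thr 29 25 (.dbl 31 16 28))) (.rp 18 (.thr 25 29 (.thr 24 27 (.thr 56 8 (.thr 41 11 (.thr 1 61 (.thr 49 33 (.thr 9 57 (.dbl 13 5 37)))))))) (.rp 16 (.thr 25 29 (.thr 24 27 (.thr 56 8 (.thr 41 11 (.thr 1 61 (.thr 49 33 (.thr 9 57 (.dbl 13 5 37)))))))) .nd))))))) (.rp 19 (.thr 30 18 (.thr 31 16 (.dbl 29 25 28))) (.rp 18 (.thr 25 29 (.thr 28 19 (.thr 24 27 (.thr 31 16 (.str 48 (.nv (.thr 12 36 (.thr 15 37 (.thr 38 51 (.dbl 14 13 50)))) (.nv (.thr 37 15 (.thr 49 13 (.thr 1 33 (.thr 61 41 (.dbl 53 5 57))))) (.nv (.thr 12 36 (.thr 51 38 (.thr 49 50 (.dbl 37 13 15)))) (.rp 51 (.thr 12 36 (.thr 15 37 (.thr 14 13 (.thr 63 47 (.thr 58 53 (.thr 42 10 (.thr 62 2 (.dbl 50 38 54)))))))) (.rp 40 (.str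 20 (.nv (.thr 37 15 (.thr 52 7 (.dbl 36 4 12))) (.nv (.thr 12 36 (.thr 51 38 (.thr 49 50 (.dbl 37 13 15)))) (.rp 51 (.thr 36 12 (.thr 4 52 (.thr 38 55 (.dbl 37 15 39)))) (.rp 39 (.thr 12 36 (.thr 51 38 (.thr 37 15 (.dbl 49 13 50)))) (.rp 37 (.thr 12 36 (.thr 38 51 (.thr 50 14 (.thr 54 6 (.thr 58 62 (.thr 55 4 (.dbl 53 52 63))))))) (.rp 36 (.thr 37 15 (.thr 49 13 (.thr 1 33 (.thr 61 41 (.dbl 53 5 57))))) (.rp 15 (.thr 12 36 (.thr 51 38 (.thr 49 50 (.thr 1 33 (.thr 61 41 (.thr 53 57 (.dbl 37 5 13))))))) (.rp 12 (.thr 37 15 (.thr 52 7 (.thr 4 36 (.thr 55 38 (.dbl 53 5 54))))) .nd))))))))) (.rp 37 (.thr 12 36 (.thr 38 51 (.thr 50 14 (.thr 54 6 (.thr 58 62 (.thr 55 4 (.dbl 53 52 63))))))) (.rp 20 (.str 40 (.nv (.thr 12 36 (.thr 51 38 (.thr 49 50 (.dbl 37 13 15)))) (.nv (.thr 8 56 (.thr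 15 37 (.thr 63 47 (.thr 58 53 (.dbl 42 10 59))))) (.rp 37 (.thr 56 8 (.thr 12 36 (.thr 41 11 (.thr 1 61 (.thr 49 33 (.dbl 51 38 50)))))) (.rp 15 (.thr 56 8 (.thr 12 36 (.thr 51 38 (.thr 49 50 (.thr 1 33 (.dbl 41 11 61)))))) .nd))))) (.rp 15 (.thr 12 36 (.thr 51 38 (.thr 49 50 (.thr 1 33 (.thr 61 41 (.thr 53 57 (.dbl 37 5 13))))))) (.rp 13 (.thr 12 36 (.thr 38 51 (.thr 54 6 (.thr 55 4 (.thr 52 53 (.dbl 37 7 15)))))) (.rp 12 (.thr 15 37 (.thr 63 47 (.thr 58 53 (.thr 42 10 (.thr 62 2 (.thr 50 54 (.thr 51 49 (.dbl 59 8 55)))))))) .nd))))))))))))))) (.rp 16 (.thr 25 29 (.thr 30 18 (.str 48 (.nv (.thr 24 27 (.thr 12 36 (.thr 15 37 (.thr 14 13 (.dbl 38 50 51))))) (.nv (.thr 37 15 (.thr 49 13 (.thr 1 33 (.thr 61 41 (.dbl 53 5 57))))) (.nv (.thr 24 27 (.thr 12 36 (.thr 51 38 (.thr 37 15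 (.dbl 49 13 50))))) (.rp 40 (.str 20 (.nv (.thr 37 15 (.thr 52 7 (.thr 4 36 (.thr 55 38 (.dbl 53 5 54))))) (.nv (.thr 37 15 (.thr 49 13 (.thr 1 33 (.thr 61 41 (.dbl 53 5 57))))) (.nv (.thr 27 24 (.thr 15 37 (.thr 51 39 (.thr 50 49 (.dbl 38 12 14))))) (.rp 37 (.thr 24 27 (.thr 12 36 (.thr 38 51 (.thr 14 50 (.thr 62 46 (.thr 2 42 (.dbl 6 10 54))))))) (.rp 15 (.thr 24 27 (.thr 12 36 (.thr 51 38 (.thr 49 50 (.thr 1 33 (.thr 61 41 (.thr 53 57 (.dbl 37 5 13)))))))) .nd)))))) (.rp 37 (.thr 24 27 (.thr 12 36 (.thr 38 51 (.thr 14 50 (.thr 62 46 (.thr 2 42 (.dbl 6 10 54))))))) (.rp 20 (.str 40 (.nv (.thr 24 27 (.thr 8 56 (.thr 37 15 (.thr 42 59 (.thr 32 47 (.dbl 36 12 44)))))) (.nv (.thr 37 15 (.thr 49 13 (.thr 1 33 (.thr 61 41 (.dbl 53 5 57))))) (.nv (.thr 15 37 (.thr 27 24 (.thr 28 19 (.thr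 51 39 (.thr 50 49 (.dbl 38 12 14)))))) (.rp 37 (.thr 24 27 (.thr 56 8 (.thr 12 36 (.thr 41 11 (.thr 1 61 (.thr 49 33 (.dbl 51 38 50))))))) (.rp 24 (.thr 28 19 (.thr 37 15 (.thr 49 13 (.thr 1 33 (.thr 61 41 (.dbl 53 5 57)))))) (.rp 15 (.thr 24 27 (.thr 56 8 (.thr 12 36 (.thr 51 38 (.thr 49 50 (.thr 1 33 (.dbl 41 11 61))))))) (.rp 12 (.thr 24 27 (.thr 8 56 (.thr 42 59 (.thr 62 2 (.thr 58 10 (.thr 50 54 (.dbl 14 38 46))))))) .nd)))))))) (.rp 15 (.thr 24 27 (.thr 12 36 (.thr 51 38 (.thr 49 50 (.thr 1 33 (.thr 61 41 (.thr 53 57 (.dbl 37 5 13)))))))) (.rp 13 (.thr 27 24 (.thr 15 37 (.thr 51 39 (.thr 50 49 (.dbl 38 12 14))))) (.rp 12 (.thr 27 24 (.thr 15 37 (.thr 51 39 (.thr 50 49 (.thr 38 14 (.thr 54 6 (.thr 58 62 (.thr 63 53 (.dbl 55 4 59))))))))) .nd)))))))))))) .nd))))))))) (.rp 59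 (.str 3 (.nv (.thr 41 60 (.thr 1 61 (.thr 33 49 (.thr 18 48 (.thr 16 19 (.dbl 26 30 31)))))) (.nv (.thr 25 29 (.thr 19 28 (.thr 18 16 (.thr 48 33 (.thr 51 35 (.thr 49 50 (.thr 37 13 (.dbl 26 15 30)))))))) (.nv (.thr 25 29 (.thr 41 60 (.thr 1 61 (.thr 49 33 (.thr 13 37 (.dbl 9 5 57)))))) (.nv (.thr 25 29 (.thr 19 28 (.thr 51 35 (.thr 12 38 (.thr 9 6 (.dbl 41 57 60)))))) .nd))))) (.rp 58 (.str 3 (.nv (.thr 41 60 (.thr 1 61 (.thr 33 49 (.thr 18 48 (.thr 16 19 (.dbl 26 30 31)))))) (.nv (.thr 25 29 (.thr 19 28 (.thr 18 16 (.thr 48 33 (.thr 51 35 (.thr 49 50 (.thr 37 13 (.dbl 26 15 30)))))))) (.nv (.thr 25 29 (.thr 41 60 (.thr 1 61 (.thr 49 33 (.thr 13 37 (.dbl 9 5 57)))))) (.nv (.thr 25 29 (.thr 28 19 (.thr 60 41 (.thr 12 44 (.thr 38 51 (.dbl 6 9 54)))))) .nd))))) (.rp 57 (.str 16 (.nv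 (.thr 18 19 (.dbl 26 30 31)) (.nv (.thr 19 18 (.dbl 25 28 29)) (.rp 19 (.thr 25 29 (.thr 26 31 (.thr 27 24 (.thr 30 18 (.str 15 (.nv (.thr 48 37 (.thr 51 39 (.thr 38 12 (.dbl 50 14 49)))) (.nv (.thr 60 45 (.thr 3 41 (.thr 7 11 (.dbl 37 48 52)))) (.rp 48 (.thr 60 45 (.thr 3 41 (.thr 11 7 (.thr 59 43 (.thr 51 39 (.thr 55 63 (.dbl 38 4 12))))))) (.rp 37 (.thr 51 39 (.thr 38 12 (.thr 14 50 (.thr 6 54 (.thr 2 10 (.dbl 62 42 46)))))) (.rp 7 (.thr 60 45 (.thr 41 3 (.thr 56 11 (.dbl 48 37 52)))) .nd)))))))))) (.rp 18 (.thr 25 29 (.thr 28 19 (.thr 24 20 (.dbl 26 27 31)))) .nd))))) (.rp 56 (.str 16 (.nv (.thr 18 19 (.dbl 26 30 31)) (.nv (.thr 19 18 (.dbl 25 28 29)) (.rp 19 (.str 1 (.nv (.thr 33 49 (.thr 41 61 (.thr 3 60 (.thr 37 45 (.thr 48 18 (.dbl 26 15 31)))))) (.nv (.thr 29 25 (.thr 31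 26 (.thr 30 28 (.thr 41 61 (.thr 60 3 (.thr 45 15 (.dbl 33 37 49))))))) (.nv (.thr 25 29 (.thr 49 33 (.thr 13 37 (.thr 41 61 (.dbl 9 5 57))))) (.rp 61 (.thr 25 29 (.thr 26 31 (.thr 27 24 (.thr 49 33 (.thr 13 37 (.thr 9 5 (.thr 41 57 (.thr 3 60 (.thr 12 6 (.thr 15 14 (.dbl 51 38 39))))))))))) (.rp 49 (.thr 25 29 (.thr 26 31 (.thr 27 24 (.thr 30 18 (.thr 41 61 (.thr 57 9 (.thr 60 3 (.thr 51 54 (.dbl 15 39 45))))))))) (.rp 41 (.thr 25 29 (.thr 49 33 (.thr 37 13 (.thr 53 5 (.thr 52 7 (.thr 55 54 (.thr 4 38 (.thr 20 36 (.thr 24 28 (.dbl 26 27 31)))))))))) (.rp 37 (.thr 25 29 (.thr 26 31 (.thr 27 24 (.thr 33 49 (.thr 41 61 (.thr 3 60 (.dbl 18 30 48))))))) (.rp 33 (.thr 25 29 (.thr 26 31 (.thr 27 24 (.thr 41 61 (.thr 57 9 (.thr 60 3 (.thr 51 54 (.thr 15 39 (.dbl 30 18 45))))))))) (.rp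 31 (.str 27 (.nv (.thr 49 33 (.thr 61 41 (.thr 53 57 (.thr 37 5 (.dbl 25 13 29))))) (.nv (.thr 25 29 (.thr 26 24 (.thr 33 49 (.thr 41 61 (.thr 3 60 (.dbl 18 30 48)))))) (.nv (.thr 25 29 (.thr 49 33 (.thr 13 37 (.thr 41 61 (.dbl 9 5 57))))) (.rp 61 (.thr 25 29 (.thr 49 33 (.thr 13 37 (.thr 9 5 (.thr 41 57 (.thr 3 60 (.thr 12 6 (.thr 15 14 (.dbl 51 38 39))))))))) (.rp 57 (.thr 25 29 (.thr 26 24 (.thr 30 18 (.thr 41 61 (.thr 60 3 (.thr 45 15 (.dbl 33 37 49))))))) (.rp 49 (.thr 25 29 (.thr 24 26 (.thr 28 20 (.thr 41 61 (.thr 57 9 (.thr 60 3 (.thr 51 54 (.dbl 12 38 44)))))))) (.rp 41 (.thr 25 29 (.thr 49 33 (.thr 37 13 (.thr 53 5 (.thr 52 7 (.thr 55 54 (.thr 4 38 (.thr 20 36 (.dbl 24 26 28))))))))) (.rp 33 (.thr 25 29 (.thr 24 26 (.thr 28 20 (.thr 41 61 (.thr 57 9 (.thr 60 3 (.thr 51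 54 (.dbl 12 38 44)))))))) (.rp 29 (.thr 49 33 (.thr 61 41 (.thr 53 57 (.thr 37 5 (.thr 25 13 (.thr 52 7 (.thr 55 54 (.thr 4 38 (.thr 20 36 (.dbl 24 26 28)))))))))) (.rp 25 (.thr 33 49 (.thr 41 61 (.thr 3 60 (.thr 48 18 (.thr 37 45 (.thr 7 52 (.dbl 15 11 26))))))) (.rp 13 (.thr 25 29 (.thr 26 24 (.thr 30 18 (.thr 33 49 (.thr 41 61 (.thr 45 37 (.dbl 60 3 15))))))) .nd)))))))))))) (.rp 29 (.thr 33 49 (.thr 41 61 (.thr 60 3 (.thr 45 37 (.thr 30 15 (.dbl 26 18 31)))))) (.rp 27 (.thr 31 26 (.thr 25 29 (.thr 49 33 (.thr 13 37 (.thr 9 5 (.dbl 41 57 61)))))) .nd)))))))))))) (.rp 18 (.thr 25 29 (.thr 28 19 (.thr 24 20 (.dbl 26 27 31)))) .nd))))) (.rp 55 (.thr 25 29 (.thr 19 28 (.thr 16 18 (.thr 31 26 (.str 41 (.nv (.thr 1 61 (.thr 9 57 (.thr 13 5 (.dbl 49 33 37)))) (.nv (.thr 3 60 (.thr 51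 35 (.thr 9 57 (.dbl 12 6 38)))) (.rp 57 (.thr 3 60 (.thr 51 35 (.thr 1 61 (.thr 49 33 (.thr 13 37 (.thr 9 5 (.dbl 12 6 38))))))) (.rp 39 (.str 7 (.nv (.thr 3 60 (.thr 9 57 (.thr 51 35 (.dbl 12 6 38)))) (.nv (.thr 37 52 (.thr 33 45 (.dbl 1 49 61))) .nd))) (.rp 9 (.thr 3 60 (.thr 35 51 (.thr 44 38 (.thr 1 61 (.thr 33 49 (.thr 32 34 (.thr 40 36 (.thr 42 43 (.dbl 37 45 47))))))))) (.rp 7 (.str 39 (.nv (.thr 1 61 (.thr 9 57 (.thr 13 5 (.dbl 49 33 37)))) (.nv (.thr 3 60 (.thr 51 35 (.thr 9 57 (.dbl 12 6 38)))) (.rp 57 (.thr 3 60 (.thr 51 35 (.thr 15 27 (.thr 1 61 (.thr 49 33 (.thr 13 37 (.dbl 12 14 38))))))) (.rp 9 (.thr 3 60 (.thr 51 35 (.thr 15 27 (.thr 1 61 (.thr 49 33 (.thr 13 37 (.dbl 12 14 38))))))) (.rp 6 (.thr 1 61 (.thr 49 33 (.thr 9 57 (.dbl 13 5 37)))) .nd)))))) .nd)))))))))))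 (.rp 54 (.str 3 (.nv (.thr 25 29 (.thr 19 28 (.thr 18 16 (.thr 48 33 (.thr 51 35 (.thr 49 50 (.thr 37 13 (.dbl 26 15 30)))))))) (.nv (.thr 41 60 (.thr 1 61 (.thr 33 49 (.thr 48 18 (.thr 37 45 (.thr 15 26 (.dbl 7 11 52))))))) (.nv (.thr 25 29 (.thr 19 28 (.thr 51 35 (.thr 12 38 (.thr 9 6 (.dbl 41 57 60)))))) (.rp 51 (.thr 25 29 (.thr 19 28 (.thr 18 16 (.thr 41 60 (.thr 57 9 (.thr 1 61 (.dbl 33 48 49))))))) (.rp 29 (.thr 41 60 (.thr 1 61 (.thr 33 49 (.thr 18 48 (.thr 16 19 (.dbl 26 30 31)))))) .nd)))))) (.rp 53 (.str 16 (.nv (.thr 18 19 (.dbl 26 30 31)) (.nv (.thr 19 18 (.dbl 25 28 29)) (.rp 19 (.thr 25 29 (.thr 26 31 (.thr 27 24 (.thr 30 18 (.str 59 (.nv (.thr 42 8 (.thr 58 10 (.thr 56 57 (.dbl 11 41 43)))) (.nv (.thr 11 43 (.thr 41 56 (.thr 1 61 (.thr 9 57 (.thr 49 33 (.dbl 13 5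 37)))))) (.nv (.thr 42 8 (.thr 62 2 (.thr 14 46 (.thr 50 38 (.dbl 58 10 54))))) (.nv (.thr 11 43 (.thr 8 42 (.thr 41 56 (.dbl 9 10 57)))) (.rp 56 (.thr 11 43 (.thr 8 42 (.thr 9 10 (.thr 41 57 (.thr 1 61 (.thr 49 33 (.dbl 13 5 37))))))) (.rp 8 (.thr 11 43 (.thr 56 41 (.thr 58 57 (.thr 42 10 (.thr 62 2 (.thr 50 54 (.dbl 14 38 46))))))) .nd))))))))))) (.rp 18 (.thr 25 29 (.thr 28 19 (.thr 24 20 (.dbl 26 27 31)))) .nd))))) (.rp 52 (.str 16 (.nv (.thr 18 19 (.dbl 26 30 31)) (.nv (.thr 19 18 (.dbl 25 28 29)) (.rp 19 (.thr 25 29 (.thr 26 31 (.thr 27 24 (.thr 30 18 (.str 59 (.nv (.thr 42 8 (.thr 58 10 (.thr 56 57 (.dbl 11 41 43)))) (.nv (.thr 11 43 (.thr 41 56 (.thr 1 61 (.thr 9 57 (.thr 49 33 (.dbl 13 5 37)))))) (.nv (.thr 42 8 (.thr 62 2 (.thr 14 46 (.thr 50 38 (.dbl 58 10 54))))) (.nv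 (.thr 11 43 (.thr 56 41 (.thr 58 57 (.dbl 42 8 10)))) (.rp 56 (.thr 11 43 (.thr 8 42 (.thr 9 10 (.thr 41 57 (.thr 1 61 (.thr 49 33 (.dbl 13 5 37))))))) (.rp 40 (.thr 11 43 (.thr 56 41 (.thr 42 8 (.dbl 58 10 57)))) (.rp 8 (.thr 11 43 (.thr 56 41 (.thr 58 57 (.thr 42 10 (.thr 62 2 (.thr 50 54 (.dbl 14 38 46))))))) .nd)))))))))))) (.rp 18 (.thr 25 29 (.thr 28 19 (.thr 24 20 (.dbl 26 27 31)))) .nd))))) (.rp 51 (.str 18 (.nv (.thr 19 16 (.dbl 25 28 29)) (.nv (.thr 26 30 (.dbl 16 19 31)) (.rp 19 (.thr 26 30 (.str 3 (.nv (.thr 31 16 (.thr 41 60 (.thr 1 61 (.dbl 33 48 49)))) (.nv (.thr 48 33 (.thr 60 41 (.thr 52 56 (.dbl 37 7 15)))) (.rp 60 (.thr 31 16 (.thr 25 29 (.thr 24 27 (.thr 48 33 (.thr 12 36 (.thr 6 9 (.thr 15 37 (.thr 14 13 (.dbl 38 50 54))))))))) (.rp 48 (.thr 25 29 (.thr 41 60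 (.thr 1 61 (.thr 49 33 (.thr 13 37 (.dbl 9 5 57)))))) (.rp 45 (.thr 48 33 (.thr 15 37 (.thr 41 60 (.dbl 11 7 56)))) (.rp 41 (.thr 25 29 (.thr 48 33 (.thr 37 15 (.thr 7 52 (.thr 5 53 (.thr 6 4 (.thr 12 9 (.dbl 24 27 36)))))))) (.rp 33 (.thr 25 29 (.thr 27 24 (.thr 41 60 (.thr 11 56 (.thr 59 43 (.thr 8 42 (.dbl 9 10 57))))))) (.rp 31 (.str 27 (.nv (.thr 33 48 (.thr 41 60 (.dbl 1 49 61))) (.nv (.dbl 25 24 29) (.rp 29 (.str 28 (.nv (.thr 33 48 (.thr 41 60 (.dbl 1 49 61))) (.nv (.thr 48 33 (.thr 24 25 (.thr 12 36 (.dbl 60 41 44)))) (.rp 60 (.thr 24 25 (.thr 48 33 (.thr 12 36 (.thr 6 9 (.thr 15 37 (.thr 7 11 (.thr 4 5 (.dbl 38 54 55)))))))) (.rp 48 (.thr 25 24 (.thr 41 60 (.thr 1 61 (.thr 49 33 (.thr 13 37 (.dbl 9 5 57)))))) (.rp 41 (.thr 24 25 (.thr 20 16 (.thr 48 33 (.thr 37 15 (.thr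 52 7 (.dbl 36 4 12)))))) (.rp 33 (.thr 24 25 (.thr 60 41 (.thr 12 44 (.thr 48 36 (.thr 52 56 (.dbl 37 7 15)))))) .nd))))))) (.rp 28 (.thr 29 25 (.thr 33 48 (.thr 41 60 (.dbl 1 49 61)))) .nd))))) (.rp 15 (.thr 33 48 (.thr 41 60 (.thr 45 37 (.dbl 1 49 61)))) .nd))))))))))) (.rp 16 (.str 48 (.nv (.thr 3 33 (.thr 25 29 (.thr 26 30 (.thr 24 27 (.thr 12 36 (.thr 9 6 (.dbl 41 57 60))))))) (.nv (.thr 3 33 (.thr 26 30 (.thr 60 41 (.thr 52 56 (.dbl 37 7 15))))) (.rp 60 (.thr 26 30 (.thr 33 3 (.thr 1 49 (.thr 41 61 (.dbl 37 15 45))))) (.rp 41 (.thr 26 30 (.thr 25 29 (.thr 33 3 (.thr 37 15 (.dbl 49 1 13))))) (.rp 33 (.thr 26 30 (.thr 25 29 (.thr 28 19 (.thr 37 15 (.thr 52 7 (.thr 60 56 (.thr 12 44 (.dbl 24 27 36)))))))) (.rp 30 (.thr 25 29 (.thr 28 19 (.thr 3 33 (.thr 60 41 (.thr 52 56 (.thr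 12 44 (.thr 24 36 (.thr 37 7 (.dbl 26 15 27))))))))) (.rp 26 (.thr 25 29 (.thr 28 19 (.thr 3 33 (.thr 60 41 (.thr 12 44 (.thr 6 9 (.thr 38 54 (.thr 4 55 (.thr 7 5 (.dbl 52 37 56)))))))))) (.rp 15 (.thr 26 30 (.thr 25 29 (.thr 28 19 (.thr 3 33 (.thr 60 41 (.thr 12 44 (.dbl 24 27 36))))))) (.rp 3 (.thr 26 30 (.thr 25 29 (.thr 37 15 (.thr 49 13 (.thr 1 33 (.thr 61 41 (.dbl 53 5 57))))))) .nd)))))))))) .nd))))) (.rp 50 (.str 16 (.nv (.thr 18 19 (.dbl 26 30 31)) (.nv (.thr 25 29 (.dbl 19 18 28)) (.rp 19 (.thr 25 29 (.thr 26 31 (.thr 27 24 (.str 49 (.nv (.thr 1 33 (.thr 41 61 (.thr 9 57 (.thr 11 56 (.thr 59 43 (.dbl 8 10 42)))))) (.nv (.thr 30 18 (.thr 33 1 (.thr 37 13 (.thr 45 41 (.dbl 15 48 60))))) (.nv (.thr 1 33 (.thr 61 41 (.thr 37 13 (.dbl 53 5 57)))) (.rp 41 (.thr 33 1 (.thr 37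 13 (.thr 48 15 (.dbl 18 3 30)))) (.rp 33 (.thr 30 18 (.thr 37 13 (.thr 7 52 (.thr 15 48 (.thr 3 11 (.dbl 60 41 45)))))) (.rp 30 (.str 28 (.nv (.thr 1 33 (.thr 41 61 (.thr 9 57 (.thr 11 56 (.thr 59 43 (.dbl 8 10 42)))))) (.nv (.thr 1 33 (.thr 61 41 (.thr 37 13 (.dbl 53 5 57)))) (.rp 61 (.thr 1 33 (.thr 13 37 (.thr 9 5 (.thr 41 57 (.thr 11 56 (.thr 59 43 (.dbl 8 10 42))))))) (.rp 57 (.thr 33 1 (.thr 37 13 (.thr 48 15 (.thr 3 18 (.dbl 41 45 60))))) (.rp 41 (.thr 37 13 (.thr 53 5 (.thr 15 48 (.thr 52 7 (.thr 55 54 (.thr 51 39 (.dbl 38 4 12))))))) (.rp 33 (.thr 37 13 (.thr 53 5 (.thr 61 57 (.thr 15 48 (.thr 7 52 (.thr 3 11 (.dbl 41 1 60))))))) (.rp 13 (.thr 1 33 (.thr 61 41 (.thr 53 57 (.thr 37 5 (.thr 15 48 (.thr 52 7 (.thr 55 54 (.thr 51 39 (.dbl 38 4 12))))))))) (.rp 1 (.thr 37 13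 (.thr 5 53 (.thr 15 48 (.thr 7 52 (.thr 4 6 (.thr 51 39 (.dbl 38 12 55))))))) .nd))))))))) (.rp 13 (.thr 1 33 (.thr 61 41 (.thr 53 57 (.thr 37 5 (.thr 15 48 (.thr 52 7 (.thr 55 54 (.thr 51 39 (.dbl 38 4 12))))))))) (.rp 1 (.thr 30 18 (.thr 37 13 (.thr 15 48 (.thr 7 52 (.thr 3 11 (.dbl 60 41 45)))))) .nd)))))))))))) (.rp 18 (.thr 25 29 (.thr 28 19 (.thr 24 20 (.dbl 26 27 31)))) .nd))))) (.rp 49 (.str 16 (.nv (.thr 18 19 (.dbl 26 30 31)) (.nv (.thr 19 18 (.dbl 25 28 29)) (.rp 19 (.thr 25 29 (.thr 26 31 (.thr 27 24 (.thr 30 18 (.str 59 (.nv (.thr 42 8 (.thr 58 10 (.thr 56 57 (.dbl 11 41 43)))) (.nv (.thr 42 8 (.thr 62 2 (.thr 14 46 (.thr 50 38 (.dbl 58 10 54))))) (.nv (.thr 11 43 (.thr 8 42 (.thr 41 56 (.dbl 9 10 57)))) (.rp 56 (.thr 43 11 (.thr 42 8 (.thr 40 41 (.thr 62 2 (.thr 14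 46 (.thr 50 38 (.dbl 58 10 54))))))) (.rp 42 (.thr 11 43 (.thr 41 56 (.thr 9 57 (.thr 3 60 (.thr 15 7 (.thr 12 6 (.dbl 51 38 39))))))) (.rp 10 (.thr 11 43 (.thr 56 41 (.thr 58 57 (.thr 42 8 (.thr 62 2 (.thr 50 54 (.dbl 14 38 46))))))) (.rp 8 (.thr 11 43 (.thr 56 41 (.thr 58 57 (.thr 42 10 (.thr 62 2 (.thr 50 54 (.dbl 14 38 46))))))) .nd)))))))))))) (.rp 18 (.thr 25 29 (.thr 28 19 (.thr 24 20 (.dbl 26 27 31)))) .nd))))) (.rp 48 (.thr 25 29 (.thr 19 28 (.thr 16 18 (.str 3 (.nv (.thr 31 26 (.thr 51 35 (.thr 38 12 (.thr 60 41 (.dbl 54 6 57))))) (.nv (.thr 41 60 (.thr 1 61 (.thr 49 33 (.thr 13 37 (.dbl 9 5 57))))) (.nv (.thr 51 35 (.thr 12 38 (.thr 9 6 (.dbl 41 57 60)))) (.rp 60 (.thr 51 35 (.thr 12 38 (.thr 9 6 (.thr 41 57 (.thr 1 61 (.thr 13 5 (.dbl 49 33 37))))))) (.rp 57 (.thr 51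 35 (.thr 12 38 (.thr 9 6 (.thr 41 60 (.thr 1 61 (.thr 13 5 (.dbl 49 33 37))))))) (.rp 41 (.thr 51 35 (.thr 38 12 (.thr 6 54 (.thr 4 55 (.thr 7 5 (.thr 15 11 (.thr 27 39 (.dbl 26 24 31)))))))) (.rp 31 (.str 30 (.nv (.thr 51 35 (.thr 38 12 (.thr 60 41 (.dbl 54 6 57)))) (.nv (.thr 41 60 (.thr 1 61 (.thr 49 33 (.thr 13 37 (.dbl 9 5 57))))) (.nv (.thr 51 35 (.thr 12 38 (.thr 9 6 (.dbl 41 57 60)))) (.rp 60 (.thr 51 35 (.thr 12 38 (.thr 9 6 (.thr 41 57 (.thr 1 61 (.thr 13 5 (.dbl 49 33 37))))))) (.rp 57 (.thr 51 35 (.thr 12 38 (.thr 9 6 (.thr 41 60 (.thr 1 61 (.thr 13 5 (.dbl 49 33 37))))))) (.rp 41 (.thr 51 35 (.thr 38 12 (.thr 6 54 (.thr 4 55 (.thr 7 5 (.thr 15 11 (.thr 39 27 (.dbl 37 36 52)))))))) (.rp 12 (.thr 35 51 (.thr 41 60 (.thr 44 38 (.thr 1 61 (.thr 49 33 (.thr 13 37 (.dbl 9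 5 57))))))) .nd)))))))) (.rp 12 (.thr 35 51 (.thr 41 60 (.thr 44 38 (.thr 1 61 (.thr 49 33 (.thr 13 37 (.dbl 9 5 57))))))) .nd)))))))))))) (.rp 47 (.str 3 (.nv (.thr 41 60 (.thr 1 61 (.thr 33 49 (.thr 18 48 (.thr 16 19 (.dbl 26 30 31)))))) (.nv (.thr 25 29 (.thr 41 60 (.thr 1 61 (.thr 49 33 (.thr 13 37 (.dbl 9 5 57)))))) (.nv (.thr 25 29 (.thr 19 28 (.thr 18 16 (.thr 48 33 (.thr 51 35 (.thr 49 50 (.thr 37 13 (.dbl 26 15 30)))))))) (.nv (.thr 25 29 (.thr 41 60 (.thr 9 57 (.thr 12 6 (.thr 51 38 (.dbl 19 28 35)))))) (.rp 20 (.thr 25 29 (.thr 19 28 (.thr 51 35 (.thr 12 38 (.thr 9 6 (.dbl 41 57 60)))))) .nd)))))) (.rp 46 (.str 16 (.nv (.thr 18 19 (.dbl 26 30 31)) (.nv (.thr 19 18 (.dbl 25 28 29)) (.rp 19 (.str 1 (.nv (.thr 31 26 (.thr 49 33 (.thr 61 41 (.thr 53 57 (.thr 37 5 (.dbl 25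 13 29)))))) (.nv (.thr 33 49 (.thr 41 61 (.thr 3 60 (.thr 18 48 (.dbl 26 30 31))))) (.nv (.thr 25 29 (.thr 49 33 (.thr 13 37 (.thr 41 61 (.dbl 9 5 57))))) (.rp 61 (.thr 25 29 (.thr 26 31 (.thr 27 24 (.thr 49 33 (.thr 13 37 (.thr 9 5 (.thr 41 57 (.thr 11 56 (.thr 59 43 (.dbl 8 10 42)))))))))) (.rp 57 (.thr 29 25 (.thr 31 26 (.thr 30 28 (.thr 41 61 (.thr 60 3 (.thr 45 15 (.dbl 33 37 49))))))) (.rp 49 (.thr 25 29 (.thr 26 31 (.thr 27 24 (.thr 41 61 (.thr 11 56 (.thr 59 43 (.thr 8 42 (.dbl 9 10 57)))))))) (.rp 41 (.thr 25 29 (.thr 49 33 (.thr 37 13 (.thr 53 5 (.thr 52 7 (.thr 55 54 (.thr 4 38 (.thr 20 36 (.thr 24 28 (.dbl 26 27 31)))))))))) (.rp 33 (.thr 25 29 (.thr 26 31 (.thr 27 24 (.thr 41 61 (.thr 9 57 (.thr 11 56 (.thr 8 10 (.dbl 59 42 43)))))))) (.rp 31 (.str 27 (.nv (.thr 25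 29 (.thr 26 24 (.thr 41 61 (.thr 11 56 (.thr 59 43 (.thr 8 42 (.dbl 9 10 57))))))) (.nv (.thr 49 33 (.thr 61 41 (.thr 53 57 (.thr 37 5 (.dbl 25 13 29))))) (.nv (.thr 33 49 (.thr 41 61 (.thr 3 60 (.thr 18 48 (.thr 26 30 (.dbl 25 24 29)))))) (.nv (.thr 25 29 (.thr 49 33 (.thr 13 37 (.thr 41 61 (.dbl 9 5 57))))) (.rp 61 (.thr 25 29 (.thr 26 24 (.thr 49 33 (.thr 13 37 (.thr 9 5 (.thr 41 57 (.thr 11 56 (.thr 59 43 (.dbl 8 10 42))))))))) (.rp 57 (.thr 25 29 (.thr 26 24 (.thr 30 18 (.thr 41 61 (.thr 60 3 (.thr 45 15 (.dbl 33 37 49))))))) (.rp 41 (.thr 25 29 (.thr 24 26 (.thr 49 33 (.thr 37 13 (.thr 53 5 (.thr 52 7 (.thr 55 54 (.thr 4 38 (.dbl 20 28 36))))))))) (.rp 29 (.thr 49 33 (.thr 61 41 (.thr 53 57 (.thr 37 5 (.thr 25 13 (.thr 24 26 (.thr 52 7 (.thr 55 54 (.thr 4 38 (.dbl 20 28 36))))))))))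 (.rp 25 (.thr 33 49 (.thr 41 61 (.thr 3 60 (.thr 48 18 (.thr 37 45 (.thr 7 52 (.dbl 15 11 26))))))) .nd)))))))))) .nd)))))))))) (.rp 18 (.thr 25 29 (.thr 28 19 (.thr 24 20 (.dbl 26 27 31)))) .nd))))) (.rp 45 (.str 16 (.nv (.thr 18 19 (.dbl 26 30 31)) (.nv (.thr 19 18 (.dbl 25 28 29)) (.rp 19 (.thr 25 29 (.thr 26 31 (.thr 27 24 (.thr 30 18 (.str 41 (.nv (.thr 11 56 (.thr 59 43 (.thr 9 57 (.dbl 8 10 42)))) (.nv (.thr 9 57 (.thr 1 61 (.thr 13 5 (.dbl 49 33 37)))) (.rp 61 (.str 13 (.nv (.thr 3 60 (.thr 11 56 (.thr 15 7 (.thr 12 14 (.dbl 51 38 39))))) (.nv (.thr 9 57 (.thr 49 37 (.dbl 1 5 33))) .nd))) (.rp 57 (.thr 60 3 (.thr 56 11 (.thr 48 52 (.thr 15 37 (.thr 51 39 (.thr 49 50 (.dbl 1 33 61))))))) (.rp 13 (.thr 61 1 (.thr 11 56 (.thr 59 43 (.thr 9 57 (.dbl 8 10 42))))) (.rp 10 (.thr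 60 3 (.thr 56 11 (.thr 48 52 (.thr 15 37 (.thr 51 39 (.dbl 57 9 54)))))) (.rp 9 (.thr 60 3 (.thr 56 11 (.thr 48 52 (.thr 15 37 (.thr 51 39 (.thr 49 50 (.dbl 1 33 61))))))) .nd)))))))))))) (.rp 18 (.thr 25 29 (.thr 28 19 (.thr 24 20 (.dbl 26 27 31)))) .nd))))) (.rp 44 (.str 41 (.nv (.thr 1 61 (.thr 3 60 (.thr 33 49 (.thr 18 48 (.thr 16 19 (.dbl 26 30 31)))))) (.nv (.thr 3 60 (.thr 25 29 (.thr 9 57 (.thr 12 6 (.thr 19 28 (.dbl 51 35 38)))))) (.nv (.thr 1 61 (.thr 49 33 (.thr 25 29 (.thr 13 37 (.dbl 9 5 57))))) (.rp 57 (.thr 25 29 (.thr 1 61 (.thr 60 3 (.thr 19 28 (.thr 18 16 (.thr 30 26 (.thr 45 15 (.dbl 33 37 49)))))))) .nd))))) (.rp 43 (.str 3 (.nv (.thr 41 60 (.thr 1 61 (.thr 33 49 (.thr 18 48 (.thr 16 19 (.dbl 26 30 31)))))) (.nv (.thr 25 29 (.thr 41 60 (.thr 1 61 (.thr 49 33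 (.thr 13 37 (.dbl 9 5 57)))))) (.nv (.thr 25 29 (.thr 19 28 (.thr 18 16 (.thr 48 33 (.thr 51 35 (.thr 49 50 (.thr 37 13 (.dbl 26 15 30)))))))) (.nv (.thr 25 29 (.thr 41 60 (.thr 9 57 (.thr 12 6 (.thr 51 38 (.dbl 19 28 35)))))) (.rp 20 (.thr 25 29 (.thr 19 28 (.thr 51 35 (.thr 12 38 (.thr 9 6 (.dbl 41 57 60)))))) .nd)))))) (.rp 42 (.str 3 (.nv (.thr 41 60 (.thr 1 61 (.thr 33 49 (.thr 18 48 (.thr 16 19 (.dbl 26 30 31)))))) (.nv (.thr 25 29 (.thr 41 60 (.thr 1 61 (.thr 49 33 (.thr 13 37 (.dbl 9 5 57)))))) (.nv (.thr 25 29 (.thr 19 28 (.thr 18 16 (.thr 48 33 (.thr 51 35 (.thr 49 50 (.thr 37 13 (.dbl 26 15 30)))))))) (.nv (.thr 25 29 (.thr 28 19 (.thr 60 41 (.thr 12 44 (.thr 38 51 (.dbl 6 9 54)))))) .nd))))) (.rp 41 (.str 16 (.nv (.thr 18 19 (.dbl 26 30 31)) (.nv (.thr 19 18 (.dbl 25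 28 29)) (.rp 19 (.thr 25 29 (.thr 26 31 (.thr 27 24 (.thr 30 18 (.str 51 (.nv (.thr 12 38 (.thr 15 39 (.thr 37 48 (.dbl 13 14 49)))) (.nv (.thr 38 12 (.thr 54 6 (.thr 60 57 (.dbl 15 39 45)))) (.nv (.thr 15 39 (.thr 48 37 (.thr 50 49 (.dbl 38 12 14)))) (.rp 48 (.thr 15 39 (.thr 60 45 (.thr 54 57 (.dbl 38 6 12)))) (.rp 39 (.thr 38 12 (.thr 14 50 (.thr 6 54 (.thr 2 10 (.dbl 62 42 46))))) (.rp 38 (.thr 15 39 (.thr 60 45 (.thr 57 54 (.thr 37 48 (.thr 53 5 (.dbl 49 13 61)))))) (.rp 15 (.thr 38 12 (.thr 14 50 (.thr 54 6 (.thr 60 57 (.thr 62 46 (.thr 63 61 (.dbl 55 4 59))))))) (.rp 12 (.thr 15 39 (.thr 60 45 (.thr 54 57 (.thr 38 6 (.thr 50 14 (.dbl 48 37 49)))))) .nd))))))))))))) (.rp 18 (.thr 25 29 (.thr 28 19 (.thr 24 20 (.dbl 26 27 31)))) .nd))))) (.rp 40 (.thr 25 29 (.str 60 (.nv (.thr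 3 41 (.thr 19 28 (.thr 18 16 (.thr 48 33 (.thr 52 56 (.thr 37 7 (.dbl 26 15 30))))))) (.nv (.thr 41 3 (.thr 1 61 (.thr 9 57 (.thr 13 5 (.dbl 49 33 37))))) (.nv (.thr 28 19 (.thr 12 44 (.thr 51 38 (.thr 57 54 (.dbl 41 3 9))))) (.rp 41 (.thr 28 19 (.thr 12 44 (.thr 38 51 (.thr 6 54 (.thr 4 55 (.thr 7 5 (.thr 52 37 (.thr 48 56 (.dbl 36 20 24))))))))) (.rp 3 (.thr 28 19 (.thr 12 44 (.thr 51 38 (.thr 57 54 (.thr 41 9 (.thr 1 61 (.thr 49 33 (.thr 48 50 (.thr 52 56 (.dbl 37 7 13)))))))))) .nd))))))) (.rp 39 (.thr 25 29 (.str 12 (.nv (.thr 38 51 (.thr 6 54 (.thr 3 9 (.thr 60 41 (.dbl 28 19 44))))) (.nv (.thr 19 28 (.thr 18 16 (.thr 51 38 (.thr 3 35 (.thr 41 60 (.thr 1 61 (.dbl 33 48 49))))))) (.nv (.thr 28 19 (.thr 60 44 (.thr 3 41 (.thr 6 9 (.dbl 38 51 54))))) (.rp 60 (.thr 19 28 (.thr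 18 16 (.thr 51 38 (.thr 3 35 (.thr 9 6 (.thr 41 57 (.thr 1 61 (.dbl 33 48 49)))))))) (.rp 55 (.str 7 (.nv (.thr 28 19 (.thr 38 51 (.thr 60 44 (.thr 3 41 (.dbl 6 9 54))))) (.nv (.thr 37 52 (.thr 49 13 (.thr 1 33 (.thr 61 41 (.dbl 53 5 57))))) (.rp 54 (.thr 19 28 (.thr 51 38 (.thr 3 35 (.thr 9 6 (.dbl 41 57 60))))) (.rp 41 (.thr 38 51 (.thr 6 54 (.thr 5 4 (.dbl 37 52 53)))) .nd))))) (.rp 51 (.thr 28 19 (.thr 60 44 (.thr 3 41 (.thr 6 9 (.thr 38 54 (.thr 4 55 (.thr 7 5 (.thr 15 11 (.thr 13 14 (.dbl 37 49 52)))))))))) (.rp 41 (.thr 19 28 (.thr 18 16 (.thr 38 51 (.thr 6 54 (.thr 3 9 (.thr 48 33 (.thr 24 36 (.dbl 26 27 30)))))))) (.rp 38 (.thr 28 19 (.thr 60 44 (.thr 41 3 (.thr 9 57 (.thr 1 61 (.thr 13 5 (.dbl 49 33 37))))))) (.rp 28 (.thr 38 51 (.thr 6 54 (.thr 3 9 (.thr 4 55 (.thr 7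 5 (.thr 15 11 (.thr 13 14 (.dbl 37 49 52)))))))) (.rp 19 (.thr 38 51 (.thr 6 54 (.thr 3 9 (.thr 4 55 (.thr 7 5 (.thr 15 11 (.thr 13 14 (.dbl 37 49 52)))))))) (.rp 7 (.str 55 (.nv (.dbl 38 4 51) (.rp 51 (.thr 28 19 (.thr 38 4 (.thr 6 54 (.thr 3 9 (.dbl 60 41 44))))) (.rp 38 (.thr 28 19 (.thr 60 44 (.thr 41 3 (.thr 1 61 (.thr 49 33 (.thr 9 57 (.dbl 13 5 37))))))) (.rp 4 (.thr 19 28 (.thr 51 38 (.thr 3 35 (.thr 41 60 (.dbl 9 6 57))))) .nd))))) (.rp 3 (.thr 38 51 (.thr 6 54 (.thr 4 55 (.thr 7 5 (.thr 52 37 (.thr 36 20 (.thr 48 24 (.thr 60 56 (.dbl 28 19 44))))))))) .nd)))))))))))))) (.rp 38 (.str 41 (.nv (.thr 1 61 (.thr 3 60 (.thr 33 49 (.thr 18 48 (.thr 16 19 (.dbl 26 30 31)))))) (.nv (.thr 25 29 (.thr 9 57 (.thr 1 61 (.thr 49 33 (.dbl 13 5 37))))) (.rp 61 (.thr 25 29 (.thr 9 57 (.thr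 3 60 (.thr 12 6 (.thr 19 28 (.thr 18 16 (.thr 48 33 (.thr 24 36 (.dbl 26 27 30))))))))) (.rp 57 (.thr 25 29 (.thr 1 61 (.thr 3 60 (.thr 19 28 (.thr 18 16 (.dbl 33 48 49)))))) (.rp 49 (.thr 25 29 (.thr 9 57 (.thr 3 60 (.thr 12 6 (.thr 19 28 (.thr 18 16 (.thr 48 33 (.thr 24 36 (.dbl 26 27 30))))))))) (.rp 33 (.thr 25 29 (.thr 9 57 (.thr 1 61 (.thr 13 5 (.thr 3 60 (.thr 12 6 (.thr 15 14 (.thr 7 11 (.dbl 37 49 52))))))))) (.rp 1 (.thr 25 29 (.thr 9 57 (.thr 3 60 (.thr 12 6 (.thr 19 28 (.thr 18 16 (.thr 48 33 (.thr 24 36 (.dbl 26 27 30))))))))) .nd)))))))) (.rp 37 (.str 16 (.nv (.thr 18 19 (.dbl 26 30 31)) (.nv (.thr 19 18 (.dbl 25 28 29)) (.rp 19 (.thr 25 29 (.thr 26 31 (.thr 27 24 (.thr 30 18 (.str 59 (.nv (.thr 42 8 (.thr 58 10 (.thr 56 57 (.dbl 11 41 43)))) (.nv (.thr 42 8 (.thr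 62 2 (.thr 14 46 (.thr 50 38 (.dbl 58 10 54))))) (.nv (.thr 11 43 (.thr 41 56 (.thr 9 57 (.dbl 8 10 42)))) (.rp 56 (.thr 43 11 (.thr 42 8 (.thr 40 41 (.thr 62 2 (.thr 14 46 (.thr 50 38 (.dbl 58 10 54))))))) (.rp 42 (.thr 11 43 (.thr 41 56 (.thr 9 57 (.thr 3 60 (.thr 15 7 (.thr 12 6 (.dbl 51 38 39))))))) (.rp 40 (.thr 11 43 (.thr 56 41 (.thr 42 8 (.dbl 58 10 57)))) (.rp 10 (.thr 11 43 (.thr 56 41 (.thr 58 57 (.thr 42 8 (.thr 62 2 (.thr 50 54 (.dbl 14 38 46))))))) (.rp 8 (.thr 11 43 (.thr 56 41 (.thr 58 57 (.thr 42 10 (.thr 62 2 (.thr 50 54 (.dbl 14 38 46))))))) .nd))))))))))))) (.rp 18 (.thr 25 29 (.thr 28 19 (.thr 24 20 (.dbl 26 27 31)))) .nd))))) (.rp 36 (.str 3 (.nv (.thr 41 60 (.thr 1 61 (.thr 33 49 (.thr 18 48 (.thr 16 19 (.dbl 26 30 31)))))) (.nv (.thr 25 29 (.thr 19 28 (.thr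 18 16 (.thr 48 33 (.thr 51 35 (.thr 49 50 (.thr 37 13 (.dbl 26 15 30)))))))) (.nv (.thr 25 29 (.thr 41 60 (.thr 1 61 (.thr 49 33 (.thr 13 37 (.dbl 9 5 57)))))) (.nv (.thr 25 29 (.thr 19 28 (.thr 51 35 (.thr 60 41 (.thr 54 57 (.dbl 38 6 12)))))) .nd))))) (.rp 35 (.str 41 (.nv (.thr 25 29 (.thr 28 19 (.thr 57 9 (.thr 60 3 (.thr 51 54 (.dbl 12 38 44)))))) (.nv (.thr 1 61 (.thr 3 60 (.thr 33 49 (.thr 18 48 (.thr 16 19 (.dbl 26 30 31)))))) (.nv (.thr 1 61 (.thr 49 33 (.thr 25 29 (.thr 13 37 (.dbl 9 5 57))))) (.rp 57 (.thr 25 29 (.thr 1 61 (.thr 3 60 (.thr 19 28 (.thr 18 16 (.dbl 33 48 49)))))) (.rp 1 (.thr 25 29 (.thr 9 57 (.thr 3 60 (.thr 12 6 (.thr 19 28 (.thr 18 16 (.thr 48 33 (.thr 24 36 (.dbl 26 27 30))))))))) .nd)))))) (.rp 34 (.str 3 (.nv (.thr 41 60 (.thr 1 61 (.thr 33 49 (.thr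 18 48 (.thr 16 19 (.dbl 26 30 31)))))) (.nv (.thr 25 29 (.thr 41 60 (.thr 1 61 (.thr 49 33 (.thr 13 37 (.dbl 9 5 57)))))) (.nv (.thr 25 29 (.thr 28 19 (.thr 60 41 (.thr 12 44 (.thr 38 51 (.dbl 6 9 54)))))) (.rp 60 (.thr 25 29 (.thr 19 28 (.thr 18 16 (.thr 51 35 (.thr 12 38 (.thr 9 6 (.thr 41 57 (.thr 1 61 (.dbl 33 48 49))))))))) (.rp 41 (.thr 25 29 (.thr 19 28 (.thr 51 35 (.thr 38 12 (.thr 6 54 (.thr 4 55 (.thr 7 5 (.thr 15 11 (.thr 39 27 (.dbl 37 36 52)))))))))) .nd)))))) (.rp 33 (.str 16 (.nv (.thr 18 19 (.dbl 26 30 31)) (.nv (.thr 25 29 (.dbl 19 18 28)) (.rp 19 (.thr 25 29 (.thr 26 31 (.thr 27 24 (.str 51 (.nv (.thr 15 39 (.thr 30 18 (.thr 60 45 (.thr 57 54 (.dbl 41 3 9))))) (.nv (.thr 30 18 (.thr 38 12 (.thr 54 6 (.thr 60 57 (.dbl 15 39 45))))) (.nv (.thr 15 39 (.thr 12 38 (.thr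 13 14 (.dbl 37 48 49)))) (.rp 48 (.thr 15 39 (.thr 12 38 (.thr 13 14 (.thr 37 49 (.thr 5 53 (.thr 9 1 (.thr 3 6 (.dbl 7 11 52)))))))) (.rp 39 (.thr 30 18 (.thr 38 12 (.thr 14 50 (.thr 6 54 (.thr 2 10 (.dbl 62 42 46)))))) (.rp 30 (.str 28 (.nv (.thr 12 38 (.thr 15 39 (.thr 13 14 (.dbl 37 48 49)))) (.nv (.thr 12 38 (.thr 60 44 (.thr 57 54 (.dbl 41 3 9)))) (.rp 38 (.thr 15 39 (.thr 37 48 (.thr 13 49 (.thr 12 14 (.thr 60 44 (.thr 57 54 (.dbl 41 3 9))))))) (.rp 12 (.thr 15 39 (.thr 48 37 (.thr 50 49 (.thr 38 14 (.thr 54 6 (.thr 60 57 (.thr 56 52 (.dbl 41 3 11)))))))) .nd))))) (.rp 15 (.thr 30 18 (.thr 38 12 (.thr 14 50 (.thr 54 6 (.thr 60 57 (.thr 62 46 (.thr 63 61 (.dbl 55 4 59)))))))) .nd))))))))))) (.rp 18 (.thr 25 29 (.thr 28 19 (.thr 24 20 (.dbl 26 27 31)))) .nd))))) (.rp 32 (.str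 16 (.nv (.thr 18 19 (.dbl 26 30 31)) (.nv (.thr 19 18 (.dbl 25 28 29)) (.rp 19 (.thr 25 29 (.thr 26 31 (.thr 27 24 (.thr 30 18 (.str 59 (.nv (.thr 42 8 (.thr 58 10 (.thr 56 57 (.dbl 11 41 43)))) (.nv (.thr 11 43 (.thr 41 56 (.thr 1 61 (.thr 9 57 (.thr 49 33 (.dbl 13 5 37)))))) (.nv (.thr 42 8 (.thr 62 2 (.thr 14 46 (.thr 50 38 (.dbl 58 10 54))))) (.nv (.thr 11 43 (.thr 56 41 (.thr 58 57 (.dbl 42 8 10)))) (.rp 56 (.thr 11 43 (.thr 8 42 (.thr 9 10 (.thr 41 57 (.thr 1 61 (.thr 49 33 (.dbl 13 5 37))))))) (.rp 40 (.thr 11 43 (.thr 56 41 (.thr 42 8 (.dbl 58 10 57)))) (.rp 8 (.thr 11 43 (.thr 56 41 (.thr 58 57 (.thr 42 10 (.thr 62 2 (.thr 50 54 (.dbl 14 38 46))))))) .nd)))))))))))) (.rp 18 (.thr 25 29 (.thr 28 19 (.thr 24 20 (.dbl 26 27 31)))) .nd))))) (.rp 31 (.thr 25 29 (.thr 19 28 (.str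 30 (.nv (.dbl 18 16 26) (.rp 26 (.str 3 (.nv (.thr 51 35 (.thr 38 12 (.thr 60 41 (.dbl 54 6 57)))) (.nv (.thr 18 16 (.thr 41 60 (.thr 1 61 (.dbl 33 48 49)))) (.nv (.thr 41 60 (.thr 9 57 (.thr 51 35 (.dbl 12 6 38)))) (.rp 60 (.thr 18 16 (.thr 51 35 (.thr 12 38 (.thr 9 6 (.thr 41 57 (.thr 1 61 (.dbl 33 48 49))))))) (.rp 41 (.thr 18 16 (.thr 51 35 (.thr 38 12 (.thr 54 6 (.thr 48 33 (.thr 50 49 (.thr 62 58 (.dbl 2 34 42)))))))) (.rp 12 (.thr 18 16 (.thr 35 51 (.thr 41 60 (.thr 44 38 (.thr 1 61 (.dbl 33 48 49)))))) .nd))))))) (.rp 18 (.str 3 (.nv (.thr 51 35 (.thr 38 12 (.thr 60 41 (.dbl 54 6 57)))) (.nv (.thr 41 60 (.thr 1 61 (.thr 49 33 (.thr 13 37 (.dbl 9 5 57))))) (.nv (.thr 51 35 (.thr 12 38 (.thr 9 6 (.dbl 41 57 60)))) (.rp 60 (.thr 51 35 (.thr 12 38 (.thr 9 6 (.thr 41 57 (.thr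 1 61 (.thr 13 5 (.dbl 49 33 37))))))) (.rp 57 (.thr 51 35 (.thr 12 38 (.thr 9 6 (.thr 41 60 (.thr 1 61 (.thr 13 5 (.dbl 49 33 37))))))) (.rp 41 (.thr 51 35 (.thr 38 12 (.thr 6 54 (.thr 4 55 (.thr 7 5 (.thr 15 11 (.thr 39 27 (.dbl 37 36 52)))))))) (.rp 12 (.thr 51 35 (.thr 60 41 (.thr 15 45 (.thr 7 11 (.thr 27 39 (.thr 26 24 (.dbl 37 48 52))))))) .nd)))))))) (.rp 16 (.thr 26 18 (.thr 24 27 (.str 48 (.nv (.thr 12 36 (.thr 51 38 (.thr 3 35 (.thr 9 6 (.dbl 41 57 60))))) (.nv (.thr 15 37 (.thr 60 45 (.thr 41 3 (.dbl 56 11 52)))) (.nv (.thr 12 36 (.thr 15 37 (.thr 38 51 (.dbl 14 13 50)))) (.rp 37 (.thr 12 36 (.thr 38 51 (.thr 14 50 (.thr 62 46 (.thr 2 42 (.dbl 6 10 54)))))) .nd))))))) .nd))))))) (.rp 30 (.str 60 (.nv (.thr 25 29 (.thr 41 3 (.thr 1 61 (.thr 9 57 (.thr 13 5 (.dbl 49 33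 37)))))) (.nv (.thr 25 29 (.thr 28 19 (.thr 12 44 (.thr 3 41 (.thr 38 51 (.dbl 6 9 54)))))) (.rp 41 (.thr 25 29 (.thr 28 19 (.thr 12 44 (.thr 38 51 (.thr 54 6 (.thr 55 4 (.thr 52 53 (.thr 48 56 (.thr 36 24 (.dbl 37 7 39)))))))))) (.rp 31 (.thr 29 25 (.thr 41 3 (.thr 1 61 (.thr 33 49 (.thr 37 45 (.thr 52 7 (.thr 48 56 (.thr 53 5 (.thr 55 54 (.thr 63 58 (.thr 4 38 (.thr 36 20 (.dbl 12 24 46))))))))))))) (.rp 29 (.str 28 (.nv (.thr 3 41 (.thr 12 44 (.thr 6 9 (.thr 38 54 (.dbl 25 19 51))))) (.nv (.thr 25 19 (.thr 41 3 (.thr 1 61 (.thr 9 57 (.thr 13 5 (.dbl 49 33 37)))))) (.nv (.thr 25 19 (.thr 12 44 (.thr 3 41 (.thr 38 51 (.dbl 6 9 54))))) (.rp 51 (.thr 19 25 (.thr 16 18 (.thr 26 31 (.thr 24 20 (.thr 12 44 (.thr 48 36 (.thr 52 56 (.dbl 37 7 15)))))))) (.rp 41 (.thr 19 25 (.thr 16 18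 (.thr 26 31 (.thr 24 20 (.thr 12 44 (.thr 48 36 (.thr 52 56 (.dbl 37 7 15)))))))) (.rp 25 (.thr 44 12 (.thr 41 3 (.thr 1 61 (.thr 33 49 (.thr 38 35 (.thr 6 54 (.thr 4 55 (.thr 7 5 (.dbl 37 45 52))))))))) (.rp 19 (.thr 12 44 (.thr 3 41 (.thr 6 9 (.thr 38 54 (.thr 4 55 (.thr 7 5 (.thr 52 37 (.thr 48 56 (.dbl 36 20 24))))))))) (.rp 9 (.thr 19 25 (.thr 16 18 (.thr 26 31 (.thr 24 20 (.thr 12 44 (.thr 48 36 (.thr 52 56 (.dbl 37 7 15)))))))) (.rp 3 (.thr 19 25 (.thr 16 18 (.thr 26 31 (.thr 24 20 (.thr 12 44 (.thr 48 36 (.thr 52 56 (.dbl 37 7 15)))))))) .nd)))))))))) (.rp 28 (.thr 29 25 (.thr 41 3 (.thr 1 61 (.thr 33 49 (.thr 37 45 (.thr 52 7 (.thr 48 56 (.thr 53 5 (.thr 55 54 (.thr 63 58 (.thr 4 38 (.thr 36 20 (.dbl 12 24 46))))))))))))) (.rp 25 (.thr 41 3 (.thr 1 61 (.thr 33 49 (.thr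 37 45 (.thr 52 7 (.thr 48 56 (.thr 53 5 (.thr 55 54 (.thr 63 58 (.thr 15 26 (.thr 47 31 (.thr 42 32 (.thr 43 40 (.thr 39 35 (.dbl 51 27 59))))))))))))))) (.rp 9 (.thr 25 29 (.thr 28 19 (.thr 12 44 (.thr 51 38 (.thr 41 3 (.thr 1 61 (.thr 49 33 (.thr 48 50 (.thr 52 56 (.dbl 37 7 13)))))))))) (.rp 3 (.thr 25 29 (.thr 28 19 (.thr 12 44 (.thr 51 38 (.thr 57 54 (.thr 41 9 (.thr 1 61 (.thr 49 33 (.thr 48 50 (.thr 52 56 (.dbl 37 7 13))))))))))) .nd)))))))))) (.rp 29 (.str 18 (.nv (.thr 16 19 (.dbl 26 30 31)) (.rp 31 (.thr 19 16 (.str 3 (.nv (.thr 51 35 (.thr 60 41 (.thr 54 57 (.thr 38 6 (.dbl 25 12 28))))) (.nv (.thr 41 60 (.thr 1 61 (.dbl 33 48 49))) (.rp 60 (.thr 30 26 (.thr 25 28 (.thr 51 35 (.thr 12 38 (.thr 9 6 (.thr 41 57 (.thr 1 61 (.dbl 33 48 49)))))))) (.rp 48 (.str 32 (.nv (.thr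 30 26 (.thr 41 60 (.thr 1 61 (.thr 33 49 (.dbl 35 34 51))))) (.nv (.thr 51 35 (.thr 60 41 (.thr 54 57 (.thr 38 6 (.dbl 25 12 28))))) (.rp 60 (.thr 51 35 (.thr 25 28 (.thr 30 26 (.thr 12 38 (.thr 9 6 (.thr 41 57 (.thr 1 61 (.thr 49 33 (.dbl 13 5 37))))))))) (.rp 57 (.thr 35 51 (.thr 33 34 (.thr 49 1 (.thr 25 28 (.thr 30 26 (.thr 37 13 (.dbl 41 45 60))))))) (.rp 51 (.thr 28 25 (.thr 30 26 (.thr 60 41 (.thr 12 44 (.thr 9 6 (.thr 15 45 (.thr 13 14 (.thr 5 1 (.thr 37 53 (.dbl 7 11 52)))))))))) (.rp 41 (.thr 35 51 (.thr 33 34 (.thr 49 1 (.thr 25 28 (.thr 30 26 (.thr 37 13 (.thr 7 52 (.thr 5 53 (.thr 6 4 (.thr 42 47 (.thr 8 59 (.thr 9 12 (.dbl 11 10 15))))))))))))) (.rp 35 (.thr 25 28 (.thr 30 26 (.thr 41 60 (.thr 9 57 (.thr 1 61 (.thr 49 33 (.dbl 13 5 37))))))) (.rp 30 (.thr 28 25 (.thr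 35 51 (.thr 33 34 (.thr 41 60 (.dbl 1 49 61))))) .nd))))))))) (.rp 41 (.thr 30 26 (.thr 25 28 (.thr 51 35 (.thr 38 12 (.thr 54 6 (.thr 48 33 (.thr 50 49 (.thr 62 58 (.dbl 2 34 42))))))))) (.rp 32 (.thr 48 33 (.thr 60 41 (.thr 52 56 (.thr 37 7 (.dbl 26 15 30))))) (.rp 30 (.thr 28 25 (.thr 41 60 (.thr 1 61 (.dbl 33 48 49)))) (.rp 28 (.thr 30 26 (.thr 41 60 (.thr 1 61 (.dbl 33 48 49)))) .nd)))))))))) (.rp 30 .ext (.rp 27 (.thr 26 30 (.dbl 16 19 31)) (.rp 26 (.str 41 (.nv (.thr 3 60 (.thr 33 48 (.dbl 1 49 61))) (.nv (.thr 1 61 (.thr 33 49 (.dbl 3 48 60))) (.rp 61 (.thr 19 16 (.thr 3 60 (.thr 51 35 (.thr 25 28 (.thr 9 57 (.dbl 12 6 38)))))) (.rp 60 (.thr 19 16 (.thr 25 28 (.thr 9 57 (.thr 1 61 (.thr 49 33 (.dbl 13 5 37)))))) (.rp 49 (.thr 19 16 (.thr 3 60 (.thr 51 35 (.thr 25 28 (.thr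 9 57 (.dbl 12 6 38)))))) (.rp 48 (.thr 19 16 (.str 32 (.nv (.thr 1 61 (.thr 25 28 (.thr 9 57 (.thr 13 5 (.dbl 49 33 37))))) (.nv (.thr 3 60 (.thr 25 28 (.thr 9 57 (.thr 12 6 (.dbl 51 35 38))))) (.nv (.thr 1 61 (.thr 33 49 (.thr 35 34 (.dbl 3 51 60)))) (.rp 57 (.thr 3 60 (.thr 51 35 (.thr 25 28 (.thr 12 38 (.thr 9 6 (.thr 1 61 (.thr 49 33 (.dbl 13 5 37)))))))) (.rp 37 (.str 15 (.nv (.thr 1 61 (.thr 25 28 (.thr 9 57 (.thr 13 5 (.thr 12 14 (.dbl 3 6 60)))))) (.nv (.thr 3 60 (.thr 25 28 (.thr 9 57 (.thr 12 6 (.dbl 51 35 38))))) (.nv (.thr 1 61 (.thr 33 49 (.thr 35 34 (.dbl 3 51 60)))) (.rp 60 (.thr 25 28 (.thr 1 61 (.thr 33 49 (.thr 35 34 (.thr 51 3 (.dbl 38 12 44)))))) (.rp 57 (.thr 28 25 (.thr 60 3 (.thr 44 12 (.thr 45 30 (.thr 47 46 (.thr 63 31 (.dbl 61 1 62))))))) (.rp 25 (.thr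 3 60 (.thr 1 61 (.thr 35 51 (.dbl 33 34 49)))) (.rp 3 (.thr 25 28 (.thr 1 61 (.thr 9 57 (.thr 13 5 (.thr 12 14 (.thr 38 51 (.thr 35 44 (.dbl 33 34 49)))))))) .nd)))))))) (.rp 15 (.str 37 (.nv (.thr 5 53 (.thr 1 61 (.thr 13 9 (.dbl 25 28 49)))) (.nv (.thr 5 53 (.thr 3 60 (.thr 35 51 (.dbl 33 34 45)))) (.nv (.thr 1 61 (.dbl 33 45 49)) (.rp 49 (.thr 33 45 (.thr 35 34 (.dbl 3 51 60))) (.rp 5 (.str 10 (.nv (.thr 25 28 (.thr 9 57 (.thr 8 11 (.dbl 42 47 59)))) (.nv (.thr 1 61 (.dbl 33 45 49)) .nd))) .nd)))))) .nd)))))))) (.rp 33 (.thr 19 16 (.thr 3 60 (.thr 51 35 (.thr 25 28 (.thr 9 57 (.dbl 12 6 38)))))) (.rp 3 (.thr 19 16 (.thr 25 28 (.thr 9 57 (.thr 1 61 (.thr 49 33 (.dbl 13 5 37)))))) (.rp 1 (.thr 19 16 (.thr 3 60 (.thr 51 35 (.thr 25 28 (.thr 9 57 (.dbl 12 6 38)))))) .nd))))))))))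 (.rp 19 (.thr 26 30 (.thr 31 16 (.str 48 (.nv (.thr 33 3 (.thr 1 49 (.thr 41 61 (.dbl 37 15 45)))) (.nv (.thr 3 33 (.thr 60 41 (.thr 52 56 (.dbl 37 7 15)))) (.rp 45 (.thr 3 33 (.thr 60 41 (.thr 37 15 (.dbl 52 7 56)))) (.rp 41 (.thr 3 33 (.thr 37 15 (.thr 7 52 (.thr 5 53 (.thr 6 4 (.thr 12 9 (.thr 36 24 (.dbl 38 39 54)))))))) (.rp 37 (.thr 3 33 (.thr 41 60 (.thr 11 56 (.thr 15 7 (.thr 61 1 (.thr 63 47 (.thr 53 58 (.thr 57 49 (.thr 25 9 (.thr 27 24 (.thr 59 43 (.dbl 51 39 55)))))))))))) (.rp 33 (.thr 15 37 (.thr 63 47 (.thr 58 53 (.thr 42 10 (.thr 62 2 (.thr 60 61 (.thr 56 52 (.dbl 41 3 11)))))))) (.rp 15 (.thr 3 33 (.thr 60 41 (.thr 52 56 (.thr 37 7 (.thr 5 53 (.str 38 (.nv (.thr 39 36 (.thr 54 6 (.thr 51 57 (.dbl 50 14 49)))) (.nv (.thr 50 14 (.thr 51 49 (.thr 12 25 (.dbl 36 24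 39)))) (.nv (.thr 50 14 (.thr 2 34 (.thr 54 6 (.dbl 62 42 58)))) (.nv (.thr 6 54 (.thr 12 9 (.dbl 36 24 39))) (.rp 39 (.thr 55 4 (.thr 54 6 (.thr 50 14 (.dbl 51 49 57)))) .nd))))))))))) (.rp 3 (.thr 15 37 (.thr 63 47 (.thr 58 53 (.thr 42 10 (.thr 2 62 (.thr 50 34 (.thr 51 49 (.thr 55 59 (.dbl 38 4 14))))))))) .nd))))))))))) (.rp 16 (.str 48 (.nv (.thr 3 33 (.thr 60 41 (.thr 52 56 (.thr 37 7 (.dbl 26 15 30))))) (.nv (.thr 26 30 (.thr 33 3 (.thr 1 49 (.thr 41 61 (.dbl 37 15 45))))) (.nv (.thr 26 30 (.thr 3 33 (.thr 60 41 (.thr 52 56 (.dbl 37 7 15))))) (.rp 45 (.thr 26 30 (.thr 3 33 (.thr 60 41 (.thr 37 15 (.dbl 52 7 56))))) (.rp 41 (.thr 26 30 (.thr 3 33 (.thr 37 15 (.thr 7 52 (.thr 5 53 (.thr 6 4 (.thr 12 9 (.thr 36 24 (.dbl 38 39 54))))))))) (.rp 37 (.str 24 (.nv (.thr 3 33 (.thr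 26 30 (.thr 25 27 (.thr 41 60 (.thr 9 57 (.dbl 12 6 36)))))) (.nv (.thr 26 30 (.thr 25 27 (.thr 3 33 (.thr 12 36 (.thr 9 6 (.dbl 41 57 60)))))) (.nv (.thr 3 33 (.thr 41 60 (.thr 12 36 (.thr 6 9 (.thr 38 54 (.thr 35 44 (.dbl 51 19 25))))))) (.nv (.thr 3 33 (.thr 12 36 (.thr 6 9 (.thr 26 30 (.thr 38 54 (.dbl 25 27 51)))))) (.rp 41 (.thr 26 30 (.thr 25 27 (.thr 12 36 (.thr 38 51 (.thr 6 54 (.dbl 3 9 33)))))) (.rp 36 (.thr 26 30 (.thr 25 27 (.thr 3 33 (.thr 41 60 (.thr 56 11 (.thr 57 9 (.thr 59 58 (.dbl 8 40 42)))))))) (.rp 33 (.thr 26 30 (.thr 25 27 (.thr 12 36 (.thr 38 51 (.thr 50 14 (.thr 2 34 (.thr 62 42 (.dbl 54 6 58)))))))) (.rp 25 (.thr 26 30 (.thr 3 33 (.thr 41 60 (.thr 11 56 (.thr 15 7 (.thr 1 61 (.thr 12 36 (.thr 13 14 (.dbl 9 5 6))))))))) (.rp 12 (.thr 26 30 (.thr 25 27 (.thr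 3 33 (.thr 41 60 (.thr 56 11 (.thr 57 9 (.thr 59 58 (.dbl 8 40 42)))))))) (.rp 9 (.thr 26 30 (.thr 25 27 (.thr 12 36 (.thr 38 51 (.thr 50 14 (.thr 2 34 (.thr 62 42 (.dbl 54 6 58)))))))) (.rp 6 (.thr 26 30 (.thr 25 27 (.thr 3 33 (.thr 41 60 (.thr 56 11 (.thr 57 9 (.thr 59 58 (.dbl 8 40 42)))))))) (.rp 3 (.thr 26 30 (.thr 25 27 (.thr 12 36 (.thr 38 51 (.thr 50 14 (.thr 2 34 (.thr 62 42 (.dbl 54 6 58)))))))) .nd))))))))))))) (.rp 33 (.str 58 (.nv (.thr 53 63 (.thr 37 5 (.dbl 26 15 30))) (.nv (.thr 26 30 (.thr 37 15 (.dbl 53 5 63))) (.rp 63 (.thr 26 30 (.thr 10 42 (.thr 37 15 (.thr 7 52 (.thr 5 53 (.thr 6 4 (.thr 14 2 (.dbl 38 50 54)))))))) (.rp 53 (.thr 26 30 (.thr 42 10 (.thr 62 2 (.thr 50 54 (.thr 51 49 (.thr 15 37 (.thr 27 39 (.thr 25 24 (.dbl 38 12 14))))))))) (.rp 37 (.thr 26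 30 (.thr 63 53 (.thr 42 10 (.thr 62 2 (.thr 60 61 (.thr 56 52 (.dbl 41 3 11))))))) (.rp 30 (.thr 53 63 (.thr 37 5 (.thr 52 7 (.thr 56 60 (.thr 57 59 (.thr 61 49 (.thr 41 1 (.dbl 26 11 15)))))))) (.rp 26 (.thr 53 63 (.thr 37 5 (.thr 52 7 (.thr 60 56 (.thr 55 54 (.thr 4 38 (.thr 36 20 (.thr 12 24 (.thr 28 44 (.thr 25 19 (.thr 49 13 (.thr 61 57 (.dbl 41 1 3))))))))))))) (.rp 15 (.thr 26 30 (.thr 53 63 (.thr 42 10 (.thr 5 37 (.thr 62 2 (.thr 54 50 (.thr 55 52 (.dbl 38 4 6)))))))) (.rp 10 (.thr 26 30 (.thr 53 63 (.dbl 37 5 15))) (.rp 5 (.thr 26 30 (.thr 63 53 (.thr 10 42 (.thr 37 15 (.thr 52 7 (.thr 60 56 (.thr 61 62 (.dbl 41 1 3)))))))) .nd))))))))))) (.rp 30 (.thr 3 33 (.thr 60 41 (.thr 52 56 (.thr 37 7 (.thr 53 5 (.thr 63 58 (.thr 61 62 (.thr 57 49 (.dbl 54 51 55))))))))) (.rp 26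 (.str 50 (.nv (.thr 49 51 (.dbl 33 1 3)) (.rp 51 (.thr 2 34 (.thr 62 42 (.thr 58 54 (.thr 63 53 (.thr 60 61 (.dbl 3 33 41)))))) (.rp 49 (.thr 2 34 (.thr 62 42 (.thr 58 54 (.thr 63 53 (.thr 3 33 (.dbl 60 41 61)))))) (.rp 33 (.thr 49 51 (.thr 2 34 (.thr 62 42 (.thr 58 54 (.thr 53 63 (.thr 57 61 (.thr 37 5 (.thr 52 7 (.dbl 56 59 60))))))))) (.rp 3 (.thr 49 51 (.thr 2 34 (.thr 62 42 (.thr 58 54 (.thr 63 53 (.thr 1 33 (.dbl 61 41 60))))))) (.rp 1 (.thr 51 49 (.thr 2 34 (.thr 62 42 (.thr 3 33 (.thr 60 41 (.dbl 54 57 58)))))) .nd))))))) (.rp 15 (.thr 3 33 (.thr 60 41 (.thr 52 56 (.thr 37 7 (.thr 5 53 (.str 38 (.nv (.thr 39 36 (.thr 26 30 (.thr 54 6 (.thr 51 57 (.dbl 50 14 49))))) (.nv (.thr 6 54 (.thr 36 39 (.thr 55 4 (.dbl 12 9 24)))) (.nv (.thr 26 30 (.thr 50 14 (.thr 51 49 (.thr 19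 35 (.dbl 25 12 28))))) (.nv (.thr 6 54 (.thr 12 9 (.dbl 36 24 39))) (.rp 39 (.thr 55 4 (.thr 54 6 (.thr 51 57 (.thr 19 35 (.dbl 25 12 28))))) (.rp 26 (.str 11 (.nv (.thr 55 4 (.thr 6 54 (.thr 12 9 (.thr 28 44 (.dbl 25 19 51))))) (.nv (.thr 36 39 (.thr 55 4 (.thr 12 24 (.thr 28 44 (.dbl 25 19 51))))) (.nv (.thr 6 54 (.thr 12 9 (.dbl 36 24 39))) (.rp 55 (.thr 39 36 (.thr 54 6 (.thr 51 57 (.thr 49 50 (.dbl 25 12 13))))) (.rp 25 (.thr 6 54 (.thr 55 4 (.thr 36 39 (.dbl 12 9 24)))) (.rp 12 (.thr 54 6 (.thr 51 57 (.thr 49 50 (.thr 19 35 (.dbl 25 13 28))))) .nd))))))) .nd)))))))))))) (.rp 3 (.str 63 (.nv (.thr 53 58 (.thr 37 5 (.dbl 26 15 30))) (.rp 58 (.thr 26 30 (.thr 37 15 (.thr 7 52 (.thr 5 53 (.thr 4 6 (.thr 55 38 (.thr 51 59 (.thr 49 50 (.thr 13 25 (.dbl 1 9 33)))))))))) (.rp 53 (.str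 2 (.nv (.thr 26 30 (.thr 50 34 (.thr 51 49 (.thr 55 59 (.dbl 38 4 14))))) (.nv (.thr 26 30 (.thr 37 15 (.thr 62 42 (.thr 60 61 (.dbl 52 7 56))))) (.nv (.thr 50 34 (.thr 49 51 (.thr 1 33 (.thr 61 41 (.dbl 62 42 60))))) (.nv (.thr 26 30 (.thr 50 34 (.thr 62 42 (.thr 38 14 (.dbl 54 6 58))))) .nd))))) (.rp 37 (.thr 26 30 (.thr 58 53 (.thr 42 10 (.thr 2 62 (.thr 50 34 (.thr 51 49 (.thr 55 59 (.dbl 38 4 14)))))))) (.rp 30 (.thr 53 58 (.thr 37 5 (.thr 52 7 (.thr 60 56 (.thr 61 62 (.thr 57 49 (.dbl 54 51 55))))))) (.rp 26 (.thr 53 58 (.thr 37 5 (.thr 52 7 (.thr 60 56 (.thr 61 62 (.thr 57 49 (.dbl 54 51 55))))))) (.rp 15 (.thr 53 58 (.thr 5 37 (.str 55 (.nv (.thr 51 59 (.thr 49 50 (.thr 1 33 (.dbl 61 41 57)))) (.nv (.thr 54 52 (.dbl 38 4 6)) (.rp 54 (.thr 26 30 (.thr 51 59 (.thr 50 49 (.dbl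 38 4 14)))) (.rp 11 (.str 7 (.nv (.dbl 4 6 38) (.rp 38 (.thr 54 52 (.thr 51 59 (.thr 49 50 (.dbl 57 60 61)))) (.rp 6 (.thr 26 30 (.thr 51 59 (.thr 50 49 (.dbl 38 4 14)))) (.rp 4 (.thr 54 52 (.thr 51 59 (.thr 49 50 (.dbl 57 60 61)))) (.rp 2 (.str 1 (.nv (.thr 49 33 (.dbl 51 50 59)) (.nv (.dbl 4 6 38) .nd))) (.rp 1 (.str 2 (.nv (.thr 50 34 (.dbl 51 49 59)) (.nv (.dbl 4 6 38) .nd))) .nd))))))) (.rp 7 (.str 11 (.nv (.thr 51 59 (.thr 49 50 (.thr 1 33 (.dbl 61 41 57)))) (.nv (.thr 54 52 (.dbl 38 4 6)) (.rp 54 (.thr 26 30 (.thr 51 59 (.thr 50 49 (.dbl 38 4 14)))) (.rp 2 (.str 1 (.nv (.thr 49 33 (.dbl 61 41 57)) (.nv (.thr 54 52 (.dbl 38 4 6)) .nd))) (.rp 1 (.str 2 (.nv (.thr 50 34 (.dbl 51 49 59)) (.nv (.thr 54 52 (.dbl 38 4 6)) .nd))) .nd)))))) (.rp 2 (.str 1 (.nv (.thr 61 41 (.dbl 49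 33 57)) (.nv (.thr 54 52 (.dbl 38 4 6)) (.rp 11 (.str 7 (.nv (.thr 49 33 (.dbl 51 50 59)) (.nv (.dbl 4 6 38) .nd))) (.rp 7 (.str 11 (.nv (.thr 49 33 (.dbl 61 41 57)) (.nv (.thr 54 52 (.dbl 38 4 6)) .nd))) .nd))))) (.rp 1 (.str 2 (.nv (.thr 50 34 (.dbl 51 49 59)) (.nv (.thr 54 52 (.dbl 38 4 6)) (.rp 11 (.str 7 (.nv (.thr 50 34 (.dbl 51 49 59)) (.nv (.dbl 4 6 38) .nd))) (.rp 7 (.str 11 (.nv (.thr 50 34 (.dbl 51 49 59)) (.nv (.thr 54 52 (.dbl 38 4 6)) .nd))) .nd))))) .nd)))))))))) (.rp 10 (.thr 26 30 (.thr 53 58 (.dbl 37 5 15))) (.rp 5 (.thr 26 30 (.thr 58 53 (.thr 15 37 (.thr 42 10 (.thr 2 62 (.thr 50 34 (.thr 51 49 (.thr 55 59 (.dbl 38 4 14))))))))) (.rp 2 (.str 1 (.nv (.thr 26 30 (.thr 33 49 (.thr 37 15 (.dbl 41 45 61)))) (.nv (.thr 26 30 (.thr 37 15 (.dbl 53 5 58))) (.nv (.thr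 49 33 (.thr 53 58 (.dbl 61 41 57))) .nd)))) (.rp 1 (.str 2 (.nv (.thr 26 30 (.thr 37 15 (.dbl 53 5 58))) (.nv (.thr 26 30 (.thr 37 15 (.thr 62 42 (.thr 60 61 (.dbl 52 7 56))))) (.nv (.thr 58 53 (.thr 50 34 (.dbl 62 42 54))) .nd)))) .nd)))))))))))) .nd)))))))))))) .nd)))))))) (.rp 28 (.str 41 (.nv (.thr 1 61 (.thr 3 60 (.thr 33 49 (.thr 48 18 (.thr 37 45 (.thr 15 26 (.dbl 7 11 52))))))) (.nv (.thr 1 61 (.thr 3 60 (.thr 33 49 (.thr 18 48 (.thr 16 19 (.dbl 26 30 31)))))) (.nv (.thr 1 61 (.thr 49 33 (.thr 25 29 (.thr 13 37 (.dbl 9 5 57))))) (.rp 61 (.thr 25 29 (.thr 9 57 (.thr 3 60 (.thr 12 6 (.thr 51 38 (.thr 19 35 (.thr 18 16 (.thr 48 33 (.thr 24 36 (.dbl 26 27 30)))))))))) (.rp 57 (.thr 29 25 (.thr 61 1 (.thr 45 13 (.thr 37 33 (.thr 5 53 (.thr 3 60 (.thr 7 52 (.thr 6 4 (.thr 12 9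 (.thr 46 63 (.thr 44 47 (.dbl 38 35 54)))))))))))) (.rp 49 (.thr 25 29 (.thr 9 57 (.thr 3 60 (.thr 12 6 (.thr 51 38 (.thr 19 35 (.thr 18 16 (.thr 48 33 (.thr 24 36 (.dbl 26 27 30)))))))))) (.rp 33 (.thr 25 29 (.thr 9 57 (.thr 1 61 (.thr 13 5 (.thr 3 60 (.thr 12 6 (.thr 15 14 (.thr 7 11 (.dbl 37 49 52))))))))) (.rp 1 (.thr 25 29 (.thr 9 57 (.thr 3 60 (.thr 12 6 (.thr 51 38 (.thr 19 35 (.thr 18 16 (.thr 48 33 (.thr 24 36 (.dbl 26 27 30)))))))))) .nd))))))))) (.rp 27 (.thr 25 29 (.thr 19 28 (.thr 16 18 (.thr 31 26 (.str 41 (.nv (.thr 1 61 (.thr 9 57 (.thr 13 5 (.dbl 49 33 37)))) (.nv (.thr 3 60 (.thr 51 35 (.thr 9 57 (.dbl 12 6 38)))) (.rp 57 (.thr 3 60 (.thr 51 35 (.thr 1 61 (.thr 49 33 (.thr 13 37 (.thr 9 5 (.dbl 12 6 38))))))) (.rp 9 (.thr 3 60 (.thr 35 51 (.thr 44 38 (.thr 1 61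 (.thr 33 49 (.thr 32 34 (.thr 40 36 (.thr 42 43 (.dbl 37 45 47))))))))) .nd))))))))) (.rp 26 (.thr 25 29 (.str 12 (.nv (.thr 38 51 (.thr 6 54 (.thr 3 9 (.thr 60 41 (.dbl 28 19 44))))) (.nv (.thr 19 28 (.thr 18 16 (.thr 51 38 (.thr 3 35 (.thr 41 60 (.thr 1 61 (.dbl 33 48 49))))))) (.nv (.thr 28 19 (.thr 60 44 (.thr 38 51 (.thr 6 54 (.dbl 3 9 41))))) (.rp 60 (.thr 19 28 (.thr 18 16 (.thr 51 38 (.thr 3 35 (.thr 9 6 (.thr 41 57 (.thr 1 61 (.dbl 33 48 49)))))))) (.rp 51 (.thr 28 19 (.thr 60 44 (.thr 3 41 (.thr 6 9 (.thr 38 54 (.thr 4 55 (.thr 7 5 (.thr 52 37 (.thr 36 20 (.dbl 48 24 56)))))))))) (.rp 41 (.thr 28 19 (.thr 60 44 (.thr 38 51 (.thr 4 55 (.thr 6 54 (.thr 7 5 (.thr 52 37 (.thr 36 20 (.dbl 48 24 56))))))))) (.rp 38 (.thr 28 19 (.thr 60 44 (.thr 41 3 (.thr 9 57 (.thr 1 61 (.thr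 13 5 (.dbl 49 33 37))))))) (.rp 28 (.thr 38 51 (.thr 4 55 (.thr 6 54 (.thr 3 9 (.thr 7 5 (.thr 15 11 (.thr 13 14 (.dbl 37 49 52)))))))) (.rp 19 (.thr 38 51 (.thr 4 55 (.thr 6 54 (.thr 3 9 (.thr 7 5 (.thr 15 11 (.thr 13 14 (.dbl 37 49 52)))))))) (.rp 3 (.thr 38 51 (.thr 4 55 (.thr 6 54 (.thr 7 5 (.thr 52 37 (.thr 36 20 (.thr 48 24 (.thr 60 56 (.dbl 28 19 44))))))))) .nd)))))))))))) (.rp 25 .ext (.rp 24 (.str 3 (.nv (.thr 41 60 (.thr 1 61 (.thr 33 49 (.thr 18 48 (.thr 16 19 (.dbl 26 30 31)))))) (.nv (.thr 25 29 (.thr 41 60 (.thr 1 61 (.thr 49 33 (.thr 13 37 (.dbl 9 5 57)))))) (.nv (.thr 25 29 (.thr 28 19 (.thr 60 41 (.thr 12 44 (.thr 38 51 (.dbl 6 9 54)))))) (.rp 60 (.thr 25 29 (.thr 19 28 (.thr 51 35 (.thr 12 38 (.thr 9 6 (.thr 41 57 (.thr 1 61 (.thr 13 5 (.dbl 49 33 37)))))))))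 (.rp 41 (.thr 25 29 (.thr 19 28 (.thr 51 35 (.thr 38 12 (.thr 6 54 (.thr 4 55 (.thr 7 5 (.thr 15 11 (.thr 39 27 (.dbl 37 36 52)))))))))) .nd)))))) (.rp 20 (.thr 25 29 (.str 60 (.nv (.thr 41 3 (.thr 1 61 (.thr 9 57 (.thr 13 5 (.dbl 49 33 37))))) (.nv (.thr 28 19 (.thr 12 44 (.thr 3 41 (.thr 38 51 (.dbl 6 9 54))))) (.rp 41 (.thr 28 19 (.thr 12 44 (.thr 38 51 (.thr 54 6 (.thr 55 4 (.thr 52 53 (.thr 48 56 (.thr 36 24 (.dbl 37 7 39))))))))) (.rp 9 (.thr 19 28 (.thr 3 41 (.thr 51 35 (.thr 54 57 (.dbl 38 6 12))))) (.rp 3 (.thr 28 19 (.thr 12 44 (.thr 51 38 (.thr 57 54 (.thr 41 9 (.thr 1 61 (.thr 49 33 (.thr 48 50 (.thr 52 56 (.dbl 37 7 13)))))))))) .nd))))))) (.rp 19 (.str 41 (.nv (.thr 1 61 (.thr 3 60 (.thr 33 49 (.thr 37 45 (.thr 7 52 (.thr 15 11 (.dbl 48 18 26))))))) (.nv (.thr 1 61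 (.thr 49 33 (.thr 25 29 (.thr 13 37 (.dbl 9 5 57))))) (.rp 61 (.str 26 (.nv (.thr 3 60 (.thr 11 56 (.thr 15 7 (.thr 18 30 (.dbl 48 33 37))))) (.nv (.thr 29 25 (.thr 30 18 (.dbl 31 16 28))) (.rp 31 (.str 27 (.nv (.dbl 25 24 29) (.rp 29 (.thr 25 24 (.thr 11 56 (.thr 59 43 (.thr 9 57 (.dbl 8 10 42))))) (.rp 25 (.thr 18 30 (.thr 3 60 (.thr 48 33 (.thr 11 56 (.dbl 15 7 37))))) (.rp 24 (.thr 25 29 (.thr 11 56 (.thr 59 43 (.thr 9 57 (.dbl 8 10 42))))) .nd))))) (.rp 30 (.thr 25 29 (.thr 27 24 (.thr 11 56 (.thr 59 43 (.thr 9 57 (.dbl 8 10 42)))))) (.rp 27 (.thr 31 16 (.thr 29 25 (.dbl 30 18 28))) (.rp 18 (.thr 25 29 (.thr 27 24 (.thr 11 56 (.thr 59 43 (.thr 9 57 (.dbl 8 10 42)))))) .nd))))))) (.rp 57 (.thr 29 25 (.thr 61 1 (.thr 45 13 (.thr 37 33 (.thr 5 53 (.thr 3 60 (.thr 7 52 (.thr 6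 4 (.thr 12 9 (.thr 46 63 (.thr 44 47 (.dbl 38 35 54)))))))))))) (.rp 49 (.thr 29 25 (.thr 61 1 (.thr 45 13 (.thr 37 33 (.thr 5 53 (.thr 3 60 (.thr 7 52 (.thr 6 4 (.thr 12 9 (.thr 46 63 (.thr 44 47 (.dbl 38 35 54)))))))))))) (.rp 37 (.thr 25 29 (.thr 57 9 (.thr 1 61 (.thr 33 49 (.thr 3 60 (.thr 18 48 (.thr 26 30 (.thr 56 11 (.thr 59 58 (.thr 8 42 (.dbl 24 27 40))))))))))) (.rp 33 (.thr 25 29 (.thr 9 57 (.thr 1 61 (.thr 13 5 (.thr 3 60 (.thr 12 6 (.thr 15 14 (.thr 7 11 (.dbl 37 49 52))))))))) (.rp 31 (.str 27 (.nv (.thr 1 61 (.thr 3 60 (.thr 33 49 (.thr 48 18 (.thr 37 45 (.thr 15 26 (.dbl 7 11 52))))))) (.nv (.thr 25 29 (.thr 9 57 (.thr 26 24 (.thr 11 56 (.thr 59 43 (.dbl 8 10 42)))))) (.nv (.thr 1 61 (.thr 49 33 (.thr 25 29 (.thr 13 37 (.dbl 9 5 57))))) (.rp 57 (.thr 25 29 (.thr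 26 24 (.thr 30 18 (.thr 60 3 (.thr 56 11 (.thr 48 52 (.dbl 15 37 45))))))) (.rp 29 (.thr 60 3 (.thr 1 61 (.thr 33 49 (.thr 45 37 (.thr 30 15 (.thr 26 18 (.thr 11 56 (.thr 43 59 (.thr 42 40 (.thr 62 2 (.thr 14 46 (.thr 50 38 (.dbl 58 10 54))))))))))))) .nd)))))) (.rp 29 (.str 52 (.nv (.thr 37 7 (.thr 45 33 (.thr 60 3 (.thr 15 30 (.dbl 48 26 56))))) (.nv (.thr 1 61 (.thr 33 49 (.dbl 37 7 45))) (.rp 45 (.thr 37 7 (.thr 5 53 (.thr 1 61 (.thr 13 9 (.dbl 49 25 33))))) (.rp 37 (.thr 1 61 (.thr 49 33 (.thr 60 3 (.thr 48 56 (.thr 51 50 (.thr 54 57 (.thr 38 6 (.dbl 55 4 53)))))))) (.rp 33 (.thr 60 3 (.thr 48 56 (.thr 37 7 (.thr 53 5 (.thr 63 58 (.dbl 61 1 62)))))) (.rp 31 (.str 27 (.nv (.thr 1 61 (.thr 33 49 (.dbl 37 7 45))) (.nv (.thr 37 7 (.thr 45 33 (.thr 60 3 (.thr 48 56 (.dbl 15 26 30)))))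 (.nv (.thr 37 7 (.thr 33 45 (.dbl 1 49 61))) (.rp 45 (.thr 37 7 (.thr 5 53 (.thr 1 61 (.thr 13 9 (.dbl 49 25 33))))) (.rp 37 (.thr 60 3 (.thr 48 56 (.thr 1 61 (.thr 49 33 (.thr 51 50 (.thr 54 57 (.thr 55 53 (.dbl 38 4 6)))))))) (.rp 33 (.thr 60 3 (.thr 48 56 (.thr 37 7 (.thr 53 5 (.thr 63 58 (.dbl 61 1 62)))))) (.rp 30 (.str 28 (.nv (.thr 1 61 (.thr 33 49 (.dbl 37 7 45))) (.nv (.thr 37 7 (.thr 1 61 (.dbl 33 45 49))) (.rp 61 (.thr 60 3 (.thr 48 56 (.thr 37 7 (.thr 12 44 (.thr 24 36 (.dbl 26 15 25)))))) (.rp 49 (.thr 60 3 (.thr 48 56 (.thr 37 7 (.thr 53 5 (.thr 63 58 (.dbl 61 1 62)))))) (.rp 45 (.thr 37 7 (.thr 5 53 (.thr 1 61 (.thr 13 9 (.dbl 49 25 33))))) (.rp 37 (.thr 60 3 (.thr 48 56 (.thr 12 44 (.thr 24 36 (.thr 25 26 (.thr 57 9 (.dbl 51 38 54))))))) (.rp 33 (.thr 60 3 (.thr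 48 56 (.thr 37 7 (.thr 53 5 (.thr 63 58 (.dbl 61 1 62)))))) (.rp 13 (.thr 60 3 (.thr 48 56 (.thr 37 7 (.thr 53 5 (.thr 63 58 (.dbl 61 1 62)))))) (.rp 7 (.thr 60 3 (.thr 48 56 (.thr 12 44 (.thr 24 36 (.thr 25 26 (.thr 57 9 (.dbl 51 38 54))))))) (.rp 1 (.thr 37 7 (.thr 53 5 (.thr 55 54 (.thr 4 38 (.thr 20 36 (.thr 24 16 (.thr 26 25 (.thr 56 11 (.dbl 48 15 60))))))))) .nd))))))))))) (.rp 28 (.str 30 (.nv (.thr 1 61 (.thr 33 49 (.dbl 37 7 45))) (.nv (.thr 26 18 (.thr 56 11 (.dbl 60 3 48))) .nd))) (.rp 7 (.thr 60 3 (.thr 48 56 (.thr 1 61 (.thr 49 33 (.thr 51 50 (.thr 54 57 (.thr 55 53 (.dbl 38 4 6)))))))) (.rp 1 (.thr 3 60 (.thr 7 37 (.thr 11 15 (.thr 59 43 (.thr 26 56 (.thr 25 24 (.thr 9 57 (.dbl 8 10 42)))))))) .nd))))))))))) (.rp 27 (.str 31 (.nv (.thr 1 61 (.thr 33 49 (.dbl 37 7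 45))) (.nv (.thr 26 16 (.thr 56 11 (.dbl 60 3 48))) .nd))) (.rp 7 (.thr 1 61 (.thr 49 33 (.thr 60 3 (.thr 48 56 (.thr 51 50 (.thr 54 57 (.thr 38 6 (.dbl 55 4 53)))))))) (.rp 1 (.thr 3 60 (.thr 37 7 (.thr 53 5 (.thr 33 45 (.thr 48 18 (.thr 55 54 (.thr 15 26 (.thr 63 58 (.thr 51 59 (.thr 39 27 (.thr 31 47 (.dbl 38 4 36)))))))))))) .nd)))))))))) (.rp 27 (.str 31 (.nv (.thr 1 61 (.thr 3 60 (.thr 26 16 (.thr 18 30 (.dbl 33 48 49))))) (.nv (.thr 1 61 (.thr 25 29 (.thr 9 57 (.thr 13 5 (.dbl 49 33 37))))) (.nv (.thr 29 25 (.thr 30 28 (.dbl 26 16 18))) .nd)))) (.rp 13 (.thr 29 25 (.thr 1 61 (.thr 33 49 (.thr 37 45 (.thr 3 60 (.thr 48 18 (.thr 7 52 (.dbl 15 11 26)))))))) (.rp 1 (.thr 25 29 (.thr 9 57 (.thr 3 60 (.thr 12 6 (.thr 51 38 (.str 26 (.nv (.thr 11 56 (.thr 27 24 (.thr 59 43 (.dbl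 8 10 42)))) (.nv (.thr 18 30 (.thr 48 33 (.thr 49 50 (.dbl 37 13 15)))) (.nv (.thr 27 24 (.thr 15 39 (.dbl 11 7 56))) (.rp 40 (.str 20 (.nv (.thr 18 30 (.thr 48 33 (.thr 49 50 (.dbl 37 13 15)))) (.nv (.thr 27 24 (.thr 15 39 (.dbl 11 7 56))) (.rp 37 (.thr 11 56 (.thr 15 7 (.dbl 27 24 39))) (.rp 27 (.thr 31 16 (.thr 11 56 (.thr 15 7 (.thr 48 37 (.dbl 18 30 33))))) (.rp 15 (.thr 24 27 (.thr 31 16 (.thr 48 36 (.dbl 18 30 33)))) .nd)))))) (.rp 27 (.thr 31 16 (.thr 11 56 (.thr 15 7 (.thr 48 37 (.dbl 18 30 33))))) (.rp 20 (.str 40 (.nv (.thr 18 30 (.thr 48 33 (.thr 49 50 (.dbl 37 13 15)))) (.nv (.thr 56 11 (.dbl 24 8 27)) (.rp 31 (.thr 27 24 (.thr 11 56 (.dbl 43 42 59))) (.rp 27 (.thr 31 16 (.thr 11 56 (.thr 8 10 (.dbl 42 43 59)))) .nd))))) .nd)))))))))))) .nd))))))))))))) (.rp 18 (.thr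 25 29 (.str 12 (.nv (.thr 28 19 (.thr 60 44 (.thr 41 3 (.thr 1 61 (.thr 9 57 (.thr 13 5 (.dbl 49 33 37))))))) (.nv (.thr 38 51 (.thr 6 54 (.thr 3 9 (.thr 60 41 (.dbl 28 19 44))))) (.rp 60 (.thr 19 28 (.thr 51 38 (.thr 3 35 (.thr 9 6 (.thr 41 57 (.thr 1 61 (.thr 13 5 (.dbl 49 33 37)))))))) (.rp 57 (.thr 28 19 (.thr 60 44 (.thr 3 41 (.thr 6 9 (.dbl 38 51 54))))) (.rp 51 (.thr 28 19 (.thr 60 44 (.thr 3 41 (.thr 6 9 (.thr 38 54 (.thr 4 55 (.thr 7 5 (.thr 15 11 (.thr 13 14 (.dbl 37 49 52)))))))))) (.rp 44 (.thr 19 28 (.thr 51 38 (.thr 3 35 (.thr 41 60 (.dbl 9 6 57))))) (.rp 41 (.thr 38 51 (.thr 4 55 (.thr 6 54 (.thr 3 9 (.thr 7 5 (.thr 15 11 (.thr 13 14 (.dbl 37 49 52)))))))) (.rp 28 (.thr 38 51 (.thr 4 55 (.thr 6 54 (.thr 3 9 (.thr 7 5 (.thr 15 11 (.thr 13 14 (.dbl 37 49 52))))))))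 (.rp 19 (.thr 38 51 (.thr 4 55 (.thr 6 54 (.thr 3 9 (.thr 7 5 (.thr 15 11 (.thr 13 14 (.dbl 37 49 52)))))))) (.rp 9 (.thr 28 19 (.thr 60 44 (.thr 41 3 (.thr 1 61 (.thr 51 38 (.thr 49 33 (.thr 48 50 (.thr 52 56 (.dbl 37 7 13))))))))) (.rp 3 (.thr 38 51 (.thr 4 55 (.thr 6 54 (.thr 7 5 (.thr 52 37 (.thr 36 20 (.thr 48 24 (.thr 60 56 (.dbl 28 19 44))))))))) .nd))))))))))))) (.rp 16 (.thr 25 29 (.str 3 (.nv (.thr 41 60 (.thr 1 61 (.thr 49 33 (.thr 13 37 (.dbl 9 5 57))))) (.nv (.thr 28 19 (.thr 60 41 (.thr 12 44 (.thr 38 51 (.dbl 6 9 54))))) (.rp 60 (.thr 19 28 (.thr 51 35 (.thr 12 38 (.thr 9 6 (.thr 41 57 (.thr 1 61 (.thr 13 5 (.dbl 49 33 37)))))))) (.rp 48 (.str 32 (.nv (.thr 41 60 (.thr 1 61 (.thr 49 33 (.thr 13 37 (.dbl 9 5 57))))) (.nv (.thr 28 19 (.thr 60 41 (.thr 12 44 (.thr 6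 9 (.dbl 38 51 54))))) (.rp 60 (.thr 19 28 (.thr 51 35 (.thr 12 38 (.thr 9 6 (.thr 41 57 (.thr 1 61 (.thr 13 5 (.dbl 49 33 37)))))))) (.rp 41 (.thr 19 28 (.thr 51 35 (.thr 38 12 (.thr 6 54 (.thr 4 55 (.thr 7 5 (.thr 15 11 (.thr 39 27 (.dbl 37 36 52))))))))) (.rp 9 (.thr 19 28 (.thr 35 51 (.thr 33 34 (.thr 41 60 (.dbl 1 49 61))))) .nd)))))) (.rp 41 (.thr 19 28 (.thr 51 35 (.thr 38 12 (.thr 6 54 (.thr 4 55 (.thr 7 5 (.thr 15 11 (.thr 39 27 (.dbl 37 36 52))))))))) (.rp 32 (.str 48 (.nv (.thr 19 28 (.thr 33 18 (.thr 49 1 (.dbl 51 35 50)))) (.nv (.thr 19 28 (.thr 41 60 (.thr 9 57 (.thr 12 6 (.dbl 51 35 38))))) (.nv (.thr 33 18 (.thr 1 49 (.dbl 41 60 61))) .nd)))) (.rp 9 (.thr 19 28 (.thr 51 35 (.thr 38 12 (.thr 54 6 (.dbl 60 41 57))))) .nd))))))))) (.rp 15 (.thr 25 29 (.str 3 (.nv (.thr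 19 28 (.thr 18 16 (.thr 48 33 (.thr 51 35 (.thr 12 38 (.thr 24 36 (.dbl 26 27 30))))))) (.nv (.thr 41 60 (.thr 1 61 (.thr 49 33 (.thr 13 37 (.dbl 9 5 57))))) (.nv (.thr 19 28 (.thr 51 35 (.thr 12 38 (.thr 9 6 (.dbl 41 57 60))))) (.rp 41 (.thr 19 28 (.thr 18 16 (.thr 51 35 (.thr 38 12 (.thr 48 33 (.thr 50 49 (.dbl 26 14 30))))))) (.rp 30 (.thr 28 19 (.thr 60 41 (.thr 12 44 (.thr 6 9 (.dbl 38 51 54))))) (.rp 10 (.str 5 (.nv (.thr 37 53 (.thr 7 52 (.thr 6 4 (.thr 12 9 (.dbl 38 51 54))))) (.nv (.thr 19 28 (.thr 51 35 (.thr 38 12 (.thr 4 55 (.dbl 6 7 54))))) (.nv (.thr 37 53 (.thr 13 49 (.thr 9 1 (.dbl 41 57 60)))) .nd)))) (.rp 5 (.str 10 (.nv (.thr 19 28 (.thr 18 16 (.thr 41 60 (.thr 1 61 (.dbl 33 48 49))))) (.nv (.thr 41 60 (.thr 9 57 (.thr 8 11 (.thr 42 59 (.thr 2 62 (.dbl 6 12 14))))))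 (.nv (.thr 41 60 (.thr 1 61 (.thr 33 49 (.thr 18 48 (.dbl 19 16 28))))) (.nv (.thr 19 28 (.thr 51 35 (.thr 60 41 (.thr 54 57 (.dbl 38 6 12))))) (.rp 60 (.thr 19 28 (.thr 18 16 (.thr 51 35 (.thr 12 38 (.thr 48 33 (.thr 24 36 (.dbl 26 27 30))))))) (.rp 41 (.thr 19 28 (.thr 18 16 (.thr 51 35 (.thr 38 12 (.thr 6 54 (.thr 14 2 (.dbl 26 30 50))))))) (.rp 30 (.thr 28 19 (.thr 60 41 (.thr 12 44 (.thr 6 9 (.dbl 38 51 54))))) .nd)))))))) .nd))))))))) (.rp 14 (.str 3 (.nv (.thr 41 60 (.thr 1 61 (.thr 33 49 (.thr 18 48 (.thr 16 19 (.dbl 26 30 31)))))) (.nv (.thr 25 29 (.thr 19 28 (.thr 18 16 (.thr 48 33 (.thr 51 35 (.thr 49 50 (.thr 37 13 (.dbl 26 15 30)))))))) (.nv (.thr 25 29 (.thr 41 60 (.thr 1 61 (.thr 49 33 (.thr 13 37 (.dbl 9 5 57)))))) (.nv (.thr 25 29 (.thr 28 19 (.thr 60 41 (.thr 12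 44 (.thr 38 51 (.dbl 6 9 54)))))) .nd))))) (.rp 13 (.str 16 (.nv (.thr 18 19 (.dbl 26 30 31)) (.nv (.thr 19 18 (.dbl 25 28 29)) (.rp 19 (.thr 25 29 (.thr 26 31 (.thr 27 24 (.thr 30 18 (.str 41 (.nv (.thr 57 9 (.thr 60 3 (.thr 51 54 (.dbl 15 39 45)))) (.nv (.thr 61 1 (.thr 9 57 (.thr 11 56 (.thr 59 43 (.dbl 8 10 42))))) (.nv (.thr 56 11 (.thr 60 3 (.thr 48 52 (.dbl 15 37 45)))) (.nv (.thr 9 57 (.thr 11 56 (.thr 8 10 (.dbl 59 42 43)))) (.rp 61 (.str 45 (.nv (.dbl 60 3 15) (.rp 60 (.thr 11 56 (.thr 9 57 (.thr 8 10 (.dbl 59 42 43)))) (.rp 15 (.thr 11 56 (.thr 9 57 (.thr 59 43 (.dbl 8 10 42)))) (.rp 3 (.thr 15 60 (.dbl 37 33 48)) .nd))))) (.rp 43 (.thr 3 60 (.thr 11 56 (.thr 15 7 (.thr 9 57 (.thr 12 6 (.dbl 51 38 39)))))) .nd))))))))))) (.rp 18 (.thr 25 29 (.thr 28 19 (.thr 24 20 (.dbl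 26 27 31)))) .nd))))) (.rp 12 (.str 16 (.nv (.thr 18 19 (.dbl 26 30 31)) (.nv (.thr 19 18 (.dbl 25 28 29)) (.rp 19 (.str 1 (.nv (.thr 31 26 (.thr 49 33 (.thr 61 41 (.thr 53 57 (.thr 37 5 (.dbl 25 13 29)))))) (.nv (.thr 33 49 (.thr 41 61 (.thr 3 60 (.thr 18 48 (.dbl 26 30 31))))) (.nv (.thr 25 29 (.thr 49 33 (.thr 13 37 (.thr 41 61 (.dbl 9 5 57))))) (.rp 61 (.thr 25 29 (.thr 26 31 (.thr 27 24 (.thr 49 33 (.thr 13 37 (.thr 9 5 (.thr 41 57 (.thr 11 56 (.thr 59 43 (.dbl 8 10 42)))))))))) (.rp 57 (.thr 29 25 (.thr 31 26 (.thr 30 28 (.thr 41 61 (.thr 60 3 (.thr 45 15 (.dbl 33 37 49))))))) (.rp 49 (.thr 25 29 (.thr 26 31 (.thr 27 24 (.thr 41 61 (.thr 11 56 (.thr 59 43 (.thr 8 42 (.dbl 9 10 57)))))))) (.rp 41 (.thr 25 29 (.thr 49 33 (.thr 37 13 (.thr 53 5 (.thr 52 7 (.thr 55 54 (.thr 4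 38 (.thr 20 36 (.thr 24 28 (.dbl 26 27 31)))))))))) (.rp 33 (.thr 25 29 (.thr 26 31 (.thr 27 24 (.thr 41 61 (.thr 9 57 (.thr 11 56 (.thr 8 10 (.dbl 59 42 43)))))))) (.rp 31 (.str 27 (.nv (.thr 25 29 (.thr 26 24 (.thr 41 61 (.thr 11 56 (.thr 59 43 (.thr 8 42 (.dbl 9 10 57))))))) (.nv (.thr 49 33 (.thr 61 41 (.thr 53 57 (.thr 37 5 (.dbl 25 13 29))))) (.nv (.thr 33 49 (.thr 41 61 (.thr 3 60 (.thr 18 48 (.thr 26 30 (.dbl 25 24 29)))))) (.nv (.thr 25 29 (.thr 49 33 (.thr 13 37 (.thr 41 61 (.dbl 9 5 57))))) (.rp 61 (.thr 25 29 (.thr 26 24 (.thr 49 33 (.thr 13 37 (.thr 9 5 (.thr 41 57 (.thr 11 56 (.thr 59 43 (.dbl 8 10 42))))))))) (.rp 57 (.thr 25 29 (.thr 26 24 (.thr 30 18 (.thr 41 61 (.thr 60 3 (.thr 45 15 (.dbl 33 37 49))))))) (.rp 41 (.thr 25 29 (.thr 24 26 (.thr 49 33 (.thr 37 13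 (.thr 53 5 (.thr 52 7 (.thr 55 54 (.thr 4 38 (.dbl 20 28 36))))))))) (.rp 29 (.thr 49 33 (.thr 61 41 (.thr 53 57 (.thr 37 5 (.thr 25 13 (.thr 24 26 (.thr 52 7 (.thr 55 54 (.thr 4 38 (.dbl 20 28 36)))))))))) (.rp 25 (.thr 33 49 (.thr 41 61 (.thr 3 60 (.thr 48 18 (.thr 37 45 (.thr 7 52 (.dbl 15 11 26))))))) (.rp 8 (.str 4 (.nv (.thr 25 29 (.thr 26 24 (.thr 33 49 (.thr 41 61 (.thr 57 9 (.thr 3 60 (.dbl 18 30 48))))))) (.nv (.thr 25 29 (.thr 24 26 (.thr 38 55 (.thr 6 54 (.thr 7 5 (.thr 52 37 (.dbl 20 28 36))))))) (.nv (.thr 33 49 (.thr 41 61 (.thr 37 45 (.thr 7 52 (.dbl 5 6 53))))) (.rp 29 (.thr 49 33 (.thr 61 41 (.thr 53 57 (.thr 37 5 (.thr 52 7 (.dbl 55 38 54)))))) .nd))))) (.rp 4 (.str 8 (.nv (.thr 49 33 (.thr 61 41 (.thr 53 57 (.thr 37 5 (.dbl 25 13 29))))) (.nv (.thr 25 29 (.thr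 26 24 (.thr 59 42 (.thr 11 43 (.dbl 41 56 61))))) (.nv (.thr 25 29 (.thr 49 33 (.thr 13 37 (.thr 41 61 (.dbl 9 5 57))))) (.rp 61 (.thr 25 29 (.thr 26 24 (.thr 59 42 (.thr 11 43 (.thr 9 10 (.dbl 41 56 57)))))) (.rp 41 (.thr 25 29 (.thr 26 24 (.thr 49 33 (.thr 42 59 (.thr 10 58 (.thr 9 11 (.dbl 13 5 37))))))) (.rp 29 (.thr 41 61 (.thr 60 3 (.thr 33 49 (.thr 45 37 (.thr 30 15 (.thr 26 18 (.thr 25 24 (.thr 11 56 (.dbl 9 10 57))))))))) (.rp 25 (.thr 41 61 (.thr 3 60 (.thr 33 49 (.thr 48 18 (.thr 37 45 (.thr 15 26 (.dbl 7 11 52))))))) .nd)))))))) .nd)))))))))))) (.rp 8 (.str 4 (.nv (.thr 29 25 (.thr 38 55 (.thr 6 54 (.thr 61 41 (.thr 13 45 (.dbl 5 7 9)))))) (.nv (.thr 25 29 (.thr 38 55 (.thr 6 54 (.thr 7 5 (.thr 49 33 (.dbl 37 13 52)))))) (.nv (.thr 33 49 (.thr 41 61 (.thr 3 60 (.thr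 18 48 (.dbl 26 30 31))))) (.nv (.thr 25 29 (.thr 49 33 (.thr 13 37 (.thr 41 61 (.dbl 9 5 57))))) (.rp 33 (.thr 25 29 (.thr 38 55 (.thr 6 54 (.thr 41 61 (.thr 9 57 (.dbl 5 7 13)))))) (.rp 31 (.str 27 (.nv (.thr 25 29 (.thr 26 24 (.thr 33 49 (.thr 41 61 (.thr 57 9 (.thr 3 60 (.dbl 18 30 48))))))) (.nv (.thr 25 29 (.thr 24 26 (.thr 38 55 (.thr 6 54 (.thr 7 5 (.thr 52 37 (.dbl 20 28 36))))))) (.nv (.thr 33 49 (.thr 41 61 (.thr 37 45 (.thr 7 52 (.dbl 5 6 53))))) (.rp 29 (.thr 49 33 (.thr 61 41 (.thr 53 57 (.thr 37 5 (.thr 52 7 (.dbl 55 38 54)))))) .nd))))) (.rp 27 (.thr 31 26 (.thr 25 29 (.thr 49 33 (.thr 13 37 (.thr 9 5 (.dbl 41 57 61)))))) .nd)))))))) (.rp 4 (.str 8 (.nv (.thr 31 26 (.thr 49 33 (.thr 61 41 (.thr 53 57 (.thr 37 5 (.dbl 25 13 29)))))) (.nv (.thr 33 49 (.thr 41 61 (.thr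 3 60 (.thr 18 48 (.dbl 26 30 31))))) (.nv (.thr 25 29 (.thr 26 31 (.thr 27 24 (.thr 59 42 (.thr 11 43 (.dbl 41 56 61)))))) (.nv (.thr 25 29 (.thr 49 33 (.thr 13 37 (.thr 41 61 (.dbl 9 5 57))))) (.rp 61 (.thr 25 29 (.thr 26 31 (.thr 27 24 (.thr 59 42 (.thr 11 43 (.thr 9 10 (.dbl 41 56 57))))))) (.rp 41 (.thr 25 29 (.thr 26 31 (.thr 27 24 (.thr 49 33 (.thr 42 59 (.thr 10 58 (.thr 9 11 (.dbl 13 5 37)))))))) (.rp 31 (.str 27 (.nv (.thr 49 33 (.thr 61 41 (.thr 53 57 (.thr 37 5 (.dbl 25 13 29))))) (.nv (.thr 25 29 (.thr 26 24 (.thr 59 42 (.thr 11 43 (.dbl 41 56 61))))) (.nv (.thr 25 29 (.thr 49 33 (.thr 13 37 (.thr 41 61 (.dbl 9 5 57))))) (.rp 61 (.thr 25 29 (.thr 26 24 (.thr 59 42 (.thr 11 43 (.thr 9 10 (.dbl 41 56 57)))))) (.rp 41 (.thr 25 29 (.thr 26 24 (.thr 49 33 (.thr 42 59 (.thr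 10 58 (.thr 9 11 (.dbl 13 5 37))))))) (.rp 29 (.thr 41 61 (.thr 60 3 (.thr 33 49 (.thr 45 37 (.thr 30 15 (.thr 26 18 (.thr 25 24 (.thr 11 56 (.dbl 9 10 57))))))))) (.rp 25 (.thr 41 61 (.thr 3 60 (.thr 33 49 (.thr 48 18 (.thr 37 45 (.thr 15 26 (.dbl 7 11 52))))))) .nd)))))))) .nd)))))))) .nd)))))))))))) (.rp 18 (.thr 25 29 (.thr 28 19 (.thr 24 20 (.dbl 26 27 31)))) (.rp 8 (.str 4 (.nv (.thr 18 19 (.dbl 26 30 31)) (.nv (.thr 19 18 (.dbl 25 28 29)) (.rp 19 (.thr 29 25 (.thr 31 26 (.thr 28 30 (.thr 38 55 (.thr 6 54 (.thr 7 5 (.thr 52 37 (.dbl 20 24 36)))))))) (.rp 18 (.thr 25 29 (.thr 28 19 (.thr 24 20 (.dbl 26 27 31)))) .nd))))) (.rp 4 (.str 8 (.nv (.thr 18 19 (.dbl 26 30 31)) (.nv (.thr 19 18 (.dbl 25 28 29)) (.rp 19 (.thr 25 29 (.thr 26 31 (.thr 27 24 (.thr 59 42 (.thr 11 43 (.thr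 9 10 (.dbl 41 56 57))))))) (.rp 18 (.thr 25 29 (.thr 28 19 (.thr 24 20 (.dbl 26 27 31)))) .nd))))) .nd))))))) (.rp 11 (.str 3 (.nv (.thr 41 60 (.thr 1 61 (.thr 33 49 (.thr 18 48 (.thr 16 19 (.dbl 26 30 31)))))) (.nv (.thr 25 29 (.thr 19 28 (.thr 18 16 (.thr 48 33 (.thr 51 35 (.thr 49 50 (.thr 37 13 (.dbl 26 15 30)))))))) (.nv (.thr 25 29 (.thr 41 60 (.thr 1 61 (.thr 49 33 (.thr 13 37 (.dbl 9 5 57)))))) (.nv (.thr 25 29 (.thr 19 28 (.thr 51 35 (.thr 12 38 (.thr 9 6 (.dbl 41 57 60)))))) .nd))))) (.rp 10 (.thr 25 29 (.str 3 (.nv (.thr 19 28 (.thr 18 16 (.thr 48 33 (.thr 51 35 (.thr 49 50 (.thr 37 13 (.dbl 26 15 30))))))) (.nv (.thr 41 60 (.thr 1 61 (.thr 49 33 (.thr 13 37 (.dbl 9 5 57))))) (.nv (.thr 28 19 (.thr 60 41 (.thr 12 44 (.thr 38 51 (.dbl 6 9 54))))) (.rp 15 (.str 5 (.nv (.thr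 37 53 (.thr 7 52 (.thr 6 4 (.thr 12 9 (.dbl 38 51 54))))) (.nv (.thr 19 28 (.thr 51 35 (.thr 38 12 (.thr 4 55 (.dbl 6 7 54))))) (.nv (.thr 37 53 (.thr 13 49 (.thr 9 1 (.dbl 41 57 60)))) .nd)))) (.rp 5 (.str 15 (.nv (.thr 19 28 (.thr 18 16 (.thr 30 26 (.dbl 60 41 45)))) (.nv (.thr 7 11 (.thr 37 52 (.thr 49 13 (.thr 1 33 (.dbl 41 60 61))))) (.nv (.thr 19 28 (.thr 18 16 (.thr 48 33 (.dbl 26 30 37)))) .nd)))) .nd))))))) (.rp 9 (.str 3 (.nv (.thr 25 29 (.thr 19 28 (.thr 18 16 (.thr 48 33 (.thr 51 35 (.thr 49 50 (.thr 37 13 (.dbl 26 15 30)))))))) (.nv (.thr 41 60 (.thr 1 61 (.thr 33 49 (.thr 48 18 (.thr 37 45 (.thr 15 26 (.dbl 7 11 52))))))) (.nv (.thr 25 29 (.thr 19 28 (.thr 51 35 (.thr 60 41 (.thr 54 57 (.dbl 38 6 12)))))) (.rp 29 (.thr 41 60 (.thr 1 61 (.thr 33 49 (.thr 18 48 (.thr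 16 19 (.dbl 26 30 31)))))) .nd))))) (.rp 8 (.thr 25 29 (.str 12 (.nv (.thr 19 28 (.thr 18 16 (.thr 51 38 (.thr 3 35 (.thr 41 60 (.thr 1 61 (.dbl 33 48 49))))))) (.nv (.thr 28 19 (.thr 60 44 (.thr 3 41 (.thr 38 51 (.dbl 6 9 54))))) (.rp 60 (.thr 19 28 (.thr 18 16 (.thr 51 38 (.thr 3 35 (.thr 48 33 (.thr 24 36 (.dbl 26 27 30))))))) (.rp 51 (.thr 28 19 (.thr 60 44 (.thr 3 41 (.thr 6 9 (.thr 38 54 (.thr 4 55 (.thr 7 5 (.thr 52 37 (.thr 48 56 (.dbl 36 20 24)))))))))) (.rp 41 (.thr 19 28 (.thr 18 16 (.thr 38 51 (.thr 6 54 (.thr 3 9 (.thr 48 33 (.thr 24 36 (.dbl 26 27 30)))))))) (.rp 38 (.thr 28 19 (.thr 60 44 (.thr 41 3 (.thr 9 57 (.thr 1 61 (.thr 13 5 (.dbl 49 33 37))))))) (.rp 31 (.thr 38 51 (.thr 6 54 (.thr 3 9 (.thr 60 41 (.dbl 28 19 44))))) (.rp 28 (.thr 38 51 (.thr 4 55 (.thr 6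 54 (.thr 3 9 (.thr 7 5 (.thr 60 41 (.thr 52 37 (.thr 48 56 (.dbl 36 20 24))))))))) (.rp 19 (.thr 38 51 (.thr 4 55 (.thr 6 54 (.thr 3 9 (.thr 7 5 (.thr 60 41 (.thr 52 37 (.thr 48 56 (.dbl 36 20 24))))))))) (.rp 3 (.thr 28 19 (.thr 60 44 (.thr 51 38 (.thr 57 54 (.thr 41 9 (.thr 1 61 (.thr 49 33 (.thr 48 50 (.thr 52 56 (.dbl 37 7 13)))))))))) .nd)))))))))))) (.rp 7 (.thr 25 29 (.thr 19 28 (.thr 16 18 (.thr 31 26 (.str 41 (.nv (.thr 1 61 (.thr 9 57 (.thr 13 5 (.dbl 49 33 37)))) (.nv (.thr 3 60 (.thr 51 35 (.thr 9 57 (.dbl 12 6 38)))) (.rp 57 (.thr 3 60 (.thr 51 35 (.thr 1 61 (.thr 49 33 (.thr 13 37 (.thr 9 5 (.dbl 12 6 38))))))) (.rp 55 (.str 39 (.nv (.thr 1 61 (.thr 9 57 (.thr 13 5 (.dbl 49 33 37)))) (.nv (.thr 3 60 (.thr 51 35 (.thr 9 57 (.dbl 12 6 38)))) (.rp 57 (.thr 3 60 (.thr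 51 35 (.thr 15 27 (.thr 1 61 (.thr 49 33 (.thr 13 37 (.dbl 12 14 38))))))) (.rp 9 (.thr 3 60 (.thr 51 35 (.thr 15 27 (.thr 1 61 (.thr 49 33 (.thr 13 37 (.dbl 12 14 38))))))) (.rp 6 (.thr 1 61 (.thr 49 33 (.thr 9 57 (.dbl 13 5 37)))) .nd)))))) (.rp 39 (.str 55 (.nv (.thr 1 61 (.thr 9 57 (.thr 49 33 (.dbl 13 5 37)))) (.nv (.thr 38 4 (.thr 35 44 (.dbl 51 3 12))) (.rp 5 (.thr 3 60 (.thr 51 35 (.dbl 38 4 12))) (.rp 3 (.thr 1 61 (.thr 9 57 (.thr 13 5 (.dbl 49 33 37)))) .nd))))) (.rp 9 (.thr 3 60 (.thr 35 51 (.thr 44 38 (.thr 1 61 (.thr 33 49 (.thr 32 34 (.thr 40 36 (.thr 42 43 (.dbl 37 45 47))))))))) (.rp 6 (.thr 1 61 (.thr 49 33 (.thr 9 57 (.dbl 13 5 37)))) .nd)))))))))))) (.rp 6 (.str 41 (.nv (.thr 25 29 (.thr 28 19 (.thr 57 9 (.thr 60 3 (.thr 12 44 (.dbl 51 38 54)))))) (.nv (.thr 1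 61 (.thr 3 60 (.thr 33 49 (.thr 18 48 (.thr 16 19 (.dbl 26 30 31)))))) (.nv (.thr 1 61 (.thr 49 33 (.thr 25 29 (.thr 13 37 (.dbl 9 5 57))))) (.rp 57 (.thr 25 29 (.thr 1 61 (.thr 3 60 (.thr 19 28 (.thr 18 16 (.dbl 33 48 49)))))) (.rp 1 (.thr 25 29 (.thr 3 60 (.thr 19 28 (.thr 18 16 (.thr 48 33 (.thr 51 35 (.thr 49 50 (.thr 37 13 (.dbl 26 15 30))))))))) .nd)))))) (.rp 5 (.thr 25 29 (.str 3 (.nv (.thr 19 28 (.thr 18 16 (.thr 41 60 (.thr 1 61 (.dbl 33 48 49))))) (.nv (.thr 19 28 (.thr 18 16 (.thr 48 33 (.thr 51 35 (.thr 49 50 (.thr 37 13 (.dbl 26 15 30))))))) (.nv (.thr 28 19 (.thr 60 41 (.thr 12 44 (.thr 38 51 (.dbl 6 9 54))))) (.rp 31 (.thr 41 60 (.thr 1 61 (.thr 33 49 (.thr 18 48 (.dbl 19 16 28))))) (.rp 28 (.thr 41 60 (.thr 1 61 (.thr 33 49 (.thr 18 48 (.thr 16 19 (.dbl 26 30 31))))))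 (.rp 19 (.thr 41 60 (.thr 1 61 (.thr 33 49 (.thr 18 48 (.thr 26 30 (.thr 56 11 (.thr 57 9 (.thr 59 58 (.thr 8 42 (.dbl 24 27 40)))))))))) (.rp 15 (.str 10 (.nv (.thr 19 28 (.thr 18 16 (.thr 41 60 (.thr 1 61 (.dbl 33 48 49))))) (.nv (.thr 41 60 (.thr 9 57 (.thr 8 11 (.thr 42 59 (.thr 2 62 (.dbl 6 12 14)))))) (.nv (.thr 41 60 (.thr 1 61 (.thr 33 49 (.thr 18 48 (.dbl 19 16 28))))) (.nv (.thr 19 28 (.thr 51 35 (.thr 60 41 (.thr 54 57 (.dbl 38 6 12))))) (.rp 60 (.thr 19 28 (.thr 18 16 (.thr 51 35 (.thr 12 38 (.thr 48 33 (.thr 24 36 (.dbl 26 27 30))))))) (.rp 41 (.thr 19 28 (.thr 18 16 (.thr 51 35 (.thr 38 12 (.thr 6 54 (.thr 14 2 (.dbl 26 30 50))))))) (.rp 30 (.thr 28 19 (.thr 60 41 (.thr 12 44 (.thr 6 9 (.dbl 38 51 54))))) .nd)))))))) (.rp 10 (.str 15 (.nv (.thr 19 28 (.thr 18 16 (.thr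 30 26 (.dbl 60 41 45)))) (.nv (.thr 7 11 (.thr 37 52 (.thr 49 13 (.thr 1 33 (.dbl 41 60 61))))) (.nv (.thr 19 28 (.thr 18 16 (.thr 48 33 (.dbl 26 30 37)))) .nd)))) .nd)))))))))) (.rp 4 (.str 41 (.nv (.thr 1 61 (.thr 3 60 (.thr 33 49 (.thr 18 48 (.thr 16 19 (.dbl 26 30 31)))))) (.nv (.thr 3 60 (.thr 25 29 (.thr 9 57 (.thr 19 28 (.thr 51 35 (.dbl 12 6 38)))))) (.nv (.thr 1 61 (.thr 49 33 (.thr 25 29 (.thr 13 37 (.dbl 9 5 57))))) (.rp 57 (.thr 25 29 (.thr 1 61 (.thr 3 60 (.thr 19 28 (.thr 18 16 (.dbl 33 48 49)))))) (.rp 12 (.str 8 (.nv (.thr 25 29 (.thr 9 57 (.thr 11 10 (.thr 19 28 (.thr 16 18 (.dbl 26 31 56)))))) (.nv (.thr 1 61 (.thr 3 60 (.thr 33 49 (.thr 18 48 (.thr 16 19 (.dbl 26 30 31)))))) (.nv (.thr 1 61 (.thr 49 33 (.thr 25 29 (.thr 13 37 (.dbl 9 5 57))))) (.rp 63 (.str 40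 (.nv (.thr 56 24 (.thr 26 11 (.thr 16 31 (.dbl 18 19 30)))) (.nv (.thr 3 60 (.thr 42 43 (.dbl 25 29 59))) (.rp 46 (.thr 29 25 (.thr 56 24 (.thr 26 11 (.thr 18 30 (.dbl 16 19 31))))) (.rp 43 (.thr 3 60 (.thr 56 24 (.thr 26 11 (.thr 18 30 (.dbl 16 19 31))))) (.rp 29 (.str 46 (.nv (.thr 1 61 (.thr 33 49 (.thr 45 37 (.thr 44 47 (.thr 38 35 (.dbl 42 34 43)))))) (.nv (.thr 56 24 (.thr 26 11 (.thr 18 30 (.dbl 16 19 31)))) (.rp 43 (.thr 3 60 (.thr 56 24 (.thr 26 11 (.thr 16 31 (.dbl 18 19 30))))) (.rp 31 (.thr 56 24 (.thr 11 26 (.thr 9 10 (.thr 25 57 (.dbl 42 43 59))))) (.rp 3 (.thr 43 42 (.thr 56 24 (.thr 26 11 (.thr 16 31 (.dbl 18 19 30))))) .nd)))))) (.rp 3 (.thr 43 42 (.thr 56 24 (.thr 26 11 (.thr 18 30 (.dbl 16 19 31))))) .nd))))))) (.rp 57 (.thr 25 29 (.thr 19 28 (.thr 16 18 (.thr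 42 59 (.thr 40 43 (.thr 56 24 (.dbl 26 11 31))))))) .nd)))))) (.rp 8 (.str 12 (.nv (.thr 25 29 (.thr 28 19 (.thr 44 60 (.dbl 38 35 51)))) (.nv (.thr 25 29 (.thr 9 57 (.dbl 3 6 60))) (.rp 60 (.thr 25 29 (.thr 9 57 (.thr 6 3 (.dbl 38 51 54)))) (.rp 29 (.thr 60 3 (.thr 28 44 (.thr 25 19 (.thr 57 9 (.dbl 51 38 54))))) (.rp 25 (.thr 1 61 (.thr 33 49 (.thr 37 45 (.thr 3 60 (.thr 9 6 (.dbl 5 13 53)))))) .nd)))))) .nd))))))) (.rp 3 (.str 26 (.nv (.thr 18 30 (.dbl 16 19 31)) (.rp 63 .ext (.rp 43 (.str 63 (.nv (.thr 18 30 (.dbl 16 19 31)) (.rp 31 (.thr 18 30 (.thr 19 16 (.dbl 25 28 29))) (.rp 30 (.thr 16 31 (.thr 19 18 (.dbl 25 28 29))) (.rp 19 (.thr 29 25 (.thr 31 16 (.dbl 30 18 28))) (.rp 18 (.thr 29 25 (.thr 31 16 (.thr 30 28 (.thr 15 47 (.thr 60 45 (.thr 62 61 (.dbl 46 12 14))))))) (.rp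 16 (.thr 29 25 (.thr 30 18 (.thr 31 28 (.thr 15 47 (.thr 60 45 (.thr 62 61 (.dbl 46 12 14))))))) (.rp 2 (.str 1 (.nv (.thr 18 30 (.dbl 16 19 31)) (.rp 31 (.thr 18 30 (.thr 19 16 (.dbl 25 28 29))) (.rp 30 (.thr 16 31 (.thr 19 18 (.dbl 25 28 29))) (.rp 19 (.thr 29 25 (.thr 31 16 (.dbl 30 18 28))) (.rp 18 (.thr 25 29 (.thr 41 61 (.thr 9 57 (.thr 13 5 (.dbl 49 33 37))))) (.rp 16 (.thr 25 29 (.thr 61 41 (.thr 49 33 (.thr 53 57 (.dbl 37 5 13))))) .nd))))))) (.rp 1 (.str 2 (.nv (.thr 29 25 (.thr 30 18 (.thr 46 12 (.dbl 62 14 42)))) (.nv (.thr 18 30 (.dbl 16 19 31)) (.rp 30 (.thr 16 31 (.thr 19 18 (.dbl 25 28 29))) (.rp 18 (.thr 31 16 (.thr 29 25 (.thr 30 28 (.thr 62 42 (.dbl 46 12 14))))) .nd))))) .nd))))))))) (.rp 31 (.thr 18 30 (.thr 19 16 (.dbl 25 28 29))) (.rp 30 (.thr 16 31 (.thr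 19 18 (.dbl 25 28 29))) (.rp 19 (.thr 30 18 (.thr 31 16 (.dbl 29 25 28))) (.rp 18 (.thr 31 16 (.str 48 (.nv (.thr 15 37 (.thr 25 29 (.thr 27 24 (.thr 51 39 (.thr 63 47 (.thr 58 53 (.thr 42 10 (.dbl 59 8 55)))))))) (.nv (.thr 25 29 (.thr 37 15 (.thr 49 13 (.thr 1 33 (.thr 61 41 (.dbl 53 5 57)))))) (.nv (.thr 25 29 (.thr 24 27 (.thr 12 36 (.thr 51 38 (.thr 49 50 (.dbl 37 13 15)))))) (.rp 63 (.str 43 (.nv (.thr 25 29 (.thr 27 24 (.thr 11 59 (.thr 37 15 (.thr 52 7 (.dbl 56 41 60)))))) (.nv (.thr 25 29 (.thr 37 15 (.thr 49 13 (.thr 1 33 (.thr 61 41 (.dbl 53 5 57)))))) (.nv (.thr 25 29 (.thr 24 27 (.thr 12 36 (.thr 51 38 (.thr 49 50 (.dbl 37 13 15)))))) (.rp 46 (.thr 29 25 (.thr 30 28 (.thr 15 37 (.thr 60 45 (.thr 56 52 (.thr 41 11 (.thr 42 40 (.thr 1 61 (.thr 49 33 (.thr 51 50 (.thr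 57 54 (.dbl 58 10 59)))))))))))) (.rp 37 (.thr 25 29 (.thr 24 27 (.thr 28 19 (.thr 12 36 (.thr 60 44 (.thr 56 52 (.thr 41 11 (.dbl 40 8 42)))))))) (.rp 29 (.str 12 (.nv (.thr 36 24 (.thr 37 15 (.thr 5 53 (.thr 7 52 (.thr 4 6 (.dbl 38 39 55)))))) (.nv (.thr 24 36 (.thr 25 27 (.thr 28 19 (.thr 60 44 (.thr 56 52 (.thr 40 8 (.dbl 41 11 42))))))) (.nv (.thr 24 36 (.thr 25 27 (.thr 51 38 (.thr 49 50 (.dbl 37 13 15))))) (.rp 36 (.thr 15 37 (.thr 14 13 (.thr 38 50 (.thr 55 4 (.thr 54 6 (.thr 52 53 (.thr 60 56 (.dbl 51 25 57)))))))) (.rp 24 (.thr 15 37 (.thr 14 13 (.thr 38 50 (.thr 55 4 (.thr 54 6 (.thr 52 53 (.thr 60 56 (.dbl 51 25 57)))))))) (.rp 2 (.str 1 (.nv (.thr 37 15 (.thr 33 49 (.dbl 41 45 61))) (.nv (.thr 24 36 (.thr 41 61 (.thr 40 42 (.dbl 56 8 11)))) (.nv (.thr 24 36 (.thr 25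 27 (.thr 49 33 (.dbl 51 38 50)))) (.rp 50 (.str 34 (.nv (.thr 37 15 (.thr 33 49 (.dbl 41 45 61))) (.nv (.thr 24 36 (.thr 41 61 (.thr 40 42 (.dbl 56 8 11)))) (.nv (.thr 24 36 (.thr 25 27 (.thr 49 33 (.dbl 37 13 15)))) .nd)))) (.rp 34 (.str 50 (.nv (.thr 14 38 (.dbl 15 13 37)) (.nv (.dbl 49 33 51) .nd))) .nd)))))) (.rp 1 (.str 2 (.nv (.thr 15 37 (.thr 42 62 (.thr 10 58 (.dbl 14 6 13)))) (.nv (.thr 24 36 (.thr 25 27 (.thr 42 62 (.thr 40 41 (.dbl 8 56 59))))) (.nv (.thr 24 36 (.thr 25 27 (.thr 51 38 (.thr 49 50 (.dbl 37 13 15))))) .nd)))) .nd)))))))) (.rp 25 (.str 1 (.nv (.thr 33 49 (.thr 41 61 (.dbl 37 15 45))) (.nv (.thr 33 49 (.thr 37 15 (.dbl 41 45 61))) (.rp 61 (.thr 49 33 (.thr 50 51 (.thr 38 14 (.thr 54 6 (.thr 37 15 (.thr 55 4 (.dbl 53 5 52))))))) (.rp 49 (.thr 41 61 (.thr 37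 15 (.thr 45 33 (.thr 42 40 (.thr 47 32 (.thr 35 39 (.dbl 44 38 46))))))) (.rp 45 (.thr 49 33 (.thr 61 41 (.thr 37 15 (.dbl 53 5 57)))) (.rp 41 (.thr 49 33 (.thr 50 51 (.thr 38 14 (.thr 54 6 (.thr 37 15 (.thr 55 4 (.dbl 53 5 52))))))) (.rp 37 (.thr 49 33 (.thr 41 61 (.thr 50 51 (.thr 42 40 (.thr 58 10 (.dbl 62 2 54)))))) (.rp 33 (.thr 41 61 (.thr 37 15 (.thr 5 53 (.thr 9 13 (.thr 11 56 (.thr 42 40 (.dbl 10 8 58))))))) (.rp 15 (.thr 49 33 (.thr 41 61 (.thr 50 51 (.thr 42 40 (.thr 62 2 (.dbl 58 10 54)))))) .nd)))))))))) (.rp 15 (.thr 25 29 (.thr 27 24 (.thr 11 59 (.thr 41 56 (.thr 1 61 (.thr 49 33 (.thr 13 37 (.dbl 9 5 57)))))))) (.rp 12 (.thr 29 25 (.thr 30 28 (.thr 15 37 (.thr 60 45 (.thr 56 52 (.thr 41 11 (.thr 42 40 (.thr 1 61 (.thr 49 33 (.thr 51 50 (.thr 57 54 (.dbl 58 10 59))))))))))))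 (.rp 2 (.str 1 (.nv (.thr 33 49 (.thr 37 15 (.dbl 41 45 61))) (.nv (.thr 41 61 (.thr 11 56 (.thr 27 59 (.dbl 25 24 29)))) (.nv (.thr 49 33 (.thr 25 29 (.dbl 37 13 15))) (.rp 50 (.str 34 (.nv (.thr 33 49 (.thr 37 15 (.dbl 41 45 61))) (.nv (.thr 41 61 (.thr 11 56 (.thr 27 59 (.dbl 25 24 29)))) (.nv (.thr 49 33 (.thr 25 29 (.dbl 37 13 15))) .nd)))) (.rp 34 (.str 50 (.nv (.dbl 49 33 51) (.rp 51 (.thr 49 33 (.thr 25 29 (.dbl 37 13 15))) (.rp 49 (.thr 38 14 (.thr 25 29 (.thr 24 27 (.dbl 12 36 51)))) (.rp 33 (.thr 38 14 (.thr 25 29 (.dbl 51 12 49))) .nd))))) .nd)))))) (.rp 1 (.str 2 (.nv (.thr 42 62 (.thr 41 40 (.thr 11 56 (.thr 27 59 (.dbl 25 24 29))))) (.nv (.thr 15 37 (.thr 25 29 (.thr 27 24 (.thr 51 39 (.thr 50 49 (.dbl 38 12 14)))))) (.nv (.thr 42 62 (.thr 25 29 (.thr 59 8 (.dbl 27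 11 24)))) (.rp 29 (.thr 42 62 (.thr 10 58 (.thr 6 14 (.thr 37 15 (.thr 5 53 (.dbl 7 4 52)))))) (.rp 27 (.thr 42 62 (.thr 58 10 (.thr 25 29 (.thr 41 40 (.thr 57 9 (.dbl 59 8 56)))))) (.rp 25 (.thr 42 62 (.thr 10 58 (.thr 6 14 (.thr 37 15 (.thr 5 53 (.dbl 7 4 52)))))) (.rp 24 (.thr 42 62 (.thr 25 29 (.thr 59 8 (.thr 11 27 (.dbl 41 40 56))))) .nd)))))))) .nd)))))))))))) (.rp 43 (.str 63 (.nv (.dbl 15 37 47) (.rp 47 (.thr 53 58 (.dbl 37 5 15)) (.rp 37 (.thr 29 25 (.thr 30 28 (.thr 58 53 (.thr 46 12 (.thr 62 14 (.dbl 42 2 10)))))) (.rp 15 (.thr 29 25 (.thr 30 28 (.thr 58 53 (.thr 46 12 (.thr 14 62 (.thr 38 50 (.dbl 42 10 34))))))) (.rp 2 (.str 1 (.nv (.thr 49 33 (.thr 53 58 (.dbl 61 41 57))) (.nv (.dbl 15 37 47) (.rp 50 (.str 34 (.nv (.thr 49 33 (.thr 53 58 (.dbl 61 41 57))) (.nv (.dbl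 15 37 47) .nd))) (.rp 34 (.str 50 (.nv (.dbl 15 37 47) (.nv (.dbl 49 33 51) .nd))) .nd))))) (.rp 1 (.str 2 (.nv (.thr 42 62 (.dbl 58 10 53)) (.nv (.dbl 15 37 47) .nd))) .nd))))))) (.rp 37 (.thr 25 29 (.thr 24 27 (.thr 28 19 (.thr 12 36 (.thr 60 44 (.thr 56 52 (.thr 41 11 (.thr 57 9 (.dbl 51 38 54))))))))) (.rp 29 (.thr 15 37 (.thr 63 47 (.thr 58 53 (.thr 42 10 (.str 49 (.nv (.thr 1 33 (.thr 62 2 (.dbl 61 41 60))) (.nv (.thr 50 51 (.dbl 62 2 54)) (.rp 62 (.thr 51 50 (.thr 59 55 (.thr 25 8 (.dbl 27 24 39)))) (.rp 50 (.thr 1 33 (.thr 41 61 (.thr 56 11 (.thr 59 57 (.thr 40 43 (.dbl 8 24 25)))))) (.rp 2 (.thr 1 33 (.thr 50 51 (.thr 54 62 (.dbl 38 6 14)))) (.rp 1 (.thr 2 62 (.thr 51 50 (.thr 59 55 (.thr 25 8 (.dbl 27 24 39))))) .nd))))))))))) (.rp 25 (.thr 15 37 (.thr 63 47 (.thr 58 53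 (.thr 42 10 (.str 49 (.nv (.thr 1 33 (.thr 62 2 (.dbl 61 41 60))) (.nv (.thr 50 51 (.dbl 62 2 54)) (.rp 62 (.thr 1 33 (.thr 41 61 (.thr 51 50 (.thr 59 55 (.dbl 56 11 57))))) (.rp 50 (.thr 1 33 (.thr 41 61 (.thr 56 11 (.thr 60 52 (.thr 30 45 (.thr 29 28 (.thr 46 12 (.dbl 62 2 14)))))))) (.rp 2 (.thr 1 33 (.thr 50 51 (.thr 54 62 (.dbl 38 6 14)))) (.rp 1 (.thr 2 62 (.thr 51 50 (.thr 55 59 (.thr 38 4 (.thr 54 6 (.thr 46 34 (.thr 60 57 (.thr 30 45 (.dbl 29 12 28))))))))) .nd))))))))))) (.rp 15 (.thr 25 29 (.thr 24 27 (.thr 28 19 (.thr 12 36 (.thr 60 44 (.thr 56 52 (.thr 51 38 (.thr 57 54 (.dbl 41 9 11))))))))) (.rp 2 (.str 1 (.nv (.thr 25 29 (.thr 24 27 (.thr 12 36 (.thr 49 33 (.dbl 51 38 50))))) (.nv (.thr 41 61 (.thr 56 11 (.thr 52 60 (.dbl 37 7 15)))) (.nv (.thr 25 29 (.thr 49 33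 (.dbl 37 13 15))) (.rp 63 (.str 43 (.nv (.thr 33 49 (.thr 37 15 (.dbl 41 45 61))) (.nv (.thr 41 61 (.thr 11 56 (.thr 27 59 (.dbl 25 24 29)))) (.nv (.thr 49 33 (.thr 25 29 (.dbl 37 13 15))) (.rp 50 (.str 34 (.nv (.thr 33 49 (.thr 37 15 (.dbl 41 45 61))) (.nv (.thr 41 61 (.thr 11 56 (.thr 27 59 (.dbl 25 24 29)))) (.nv (.thr 49 33 (.thr 25 29 (.dbl 37 13 15))) .nd)))) (.rp 34 (.str 50 (.nv (.dbl 49 33 51) (.rp 51 (.thr 49 33 (.thr 25 29 (.dbl 37 13 15))) (.rp 49 (.thr 38 14 (.thr 25 29 (.thr 24 27 (.dbl 12 36 51)))) (.rp 33 (.thr 38 14 (.thr 25 29 (.dbl 51 12 49))) .nd))))) .nd)))))) (.rp 50 (.str 34 (.nv (.thr 41 61 (.thr 56 11 (.thr 52 60 (.dbl 37 7 15)))) (.nv (.thr 25 29 (.thr 49 33 (.dbl 37 13 15))) (.rp 63 (.str 43 (.nv (.thr 33 49 (.thr 37 15 (.dbl 41 45 61))) (.nv (.thr 41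 61 (.thr 11 56 (.thr 27 59 (.dbl 25 24 29)))) (.nv (.thr 49 33 (.thr 25 29 (.dbl 37 13 15))) .nd)))) (.rp 43 (.str 63 (.nv (.thr 49 33 (.thr 53 58 (.dbl 61 41 57))) (.nv (.dbl 15 37 47) .nd))) (.rp 37 (.thr 33 49 (.thr 35 32 (.thr 25 29 (.thr 24 27 (.thr 12 36 (.thr 38 51 (.dbl 41 44 61))))))) (.rp 15 (.thr 49 33 (.thr 25 29 (.thr 37 13 (.thr 61 41 (.dbl 53 5 57))))) .nd))))))) (.rp 43 (.str 63 (.nv (.thr 49 33 (.thr 53 58 (.dbl 61 41 57))) (.nv (.dbl 15 37 47) (.rp 50 (.str 34 (.nv (.thr 49 33 (.thr 53 58 (.dbl 61 41 57))) (.nv (.dbl 15 37 47) .nd))) (.rp 34 (.str 50 (.nv (.dbl 15 37 47) (.nv (.dbl 49 33 51) .nd))) .nd))))) (.rp 34 (.str 50 (.nv (.dbl 49 33 51) (.rp 63 (.str 43 (.nv (.dbl 49 33 51) (.rp 51 (.thr 49 33 (.thr 25 29 (.dbl 37 13 15))) (.rp 49 (.thr 38 14 (.thr 25 29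 (.thr 24 27 (.dbl 12 36 51)))) (.rp 33 (.thr 38 14 (.thr 25 29 (.dbl 51 12 49))) .nd))))) (.rp 51 (.thr 25 29 (.thr 49 33 (.dbl 37 13 15))) (.rp 49 (.thr 25 29 (.thr 24 27 (.thr 12 36 (.dbl 38 14 51)))) (.rp 43 (.str 63 (.nv (.dbl 15 37 47) (.nv (.dbl 49 33 51) .nd))) (.rp 33 (.thr 25 29 (.thr 49 51 (.dbl 37 13 15))) .nd))))))) .nd)))))))) (.rp 1 (.str 2 (.nv (.thr 15 37 (.thr 25 29 (.thr 24 27 (.thr 12 36 (.thr 14 13 (.dbl 38 50 51)))))) (.nv (.thr 15 37 (.thr 63 47 (.thr 42 62 (.dbl 58 10 53)))) (.rp 63 (.str 43 (.nv (.thr 42 62 (.thr 41 40 (.thr 11 56 (.thr 27 59 (.dbl 25 24 29))))) (.nv (.thr 15 37 (.thr 25 29 (.thr 27 24 (.thr 51 39 (.thr 50 49 (.dbl 38 12 14)))))) (.nv (.thr 42 62 (.thr 25 29 (.thr 59 8 (.dbl 27 11 24)))) (.rp 29 (.thr 42 62 (.thr 10 58 (.thr 6 14 (.thr 37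 15 (.thr 5 53 (.dbl 7 4 52)))))) (.rp 27 (.thr 42 62 (.thr 58 10 (.thr 25 29 (.thr 41 40 (.thr 57 9 (.dbl 59 8 56)))))) (.rp 25 (.thr 42 62 (.thr 10 58 (.thr 6 14 (.thr 37 15 (.thr 5 53 (.dbl 7 4 52)))))) (.rp 24 (.thr 42 62 (.thr 25 29 (.thr 59 8 (.thr 11 27 (.dbl 41 40 56))))) .nd)))))))) (.rp 43 (.str 63 (.nv (.thr 42 62 (.dbl 58 10 53)) (.nv (.dbl 15 37 47) .nd))) (.rp 37 (.thr 25 29 (.thr 24 27 (.thr 12 36 (.thr 38 51 (.thr 14 50 (.dbl 6 10 54)))))) (.rp 15 (.thr 29 25 (.thr 30 28 (.thr 62 42 (.thr 14 46 (.thr 38 50 (.dbl 6 10 54)))))) .nd))))))) .nd))))))))))))) (.rp 16 (.thr 18 30 (.str 2 (.nv (.thr 50 34 (.thr 14 38 (.thr 42 62 (.dbl 10 6 58)))) (.rp 63 (.str 43 (.nv (.thr 25 29 (.thr 27 24 (.thr 59 11 (.dbl 42 8 62)))) (.nv (.thr 50 34 (.thr 38 14 (.thr 62 42 (.dbl 54 6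 58)))) (.rp 62 (.thr 25 29 (.thr 27 24 (.thr 59 11 (.thr 42 8 (.thr 10 58 (.thr 14 6 (.dbl 50 34 38))))))) (.rp 48 (.str 32 (.nv (.thr 25 29 (.thr 27 24 (.thr 59 11 (.dbl 42 8 62)))) (.nv (.thr 50 34 (.thr 38 14 (.thr 62 42 (.dbl 54 6 58)))) (.rp 62 (.thr 34 50 (.thr 35 33 (.thr 47 39 (.thr 42 37 (.thr 41 40 (.dbl 38 44 46)))))) (.rp 58 (.str 53 (.nv (.thr 50 34 (.thr 38 14 (.thr 54 6 (.dbl 55 4 52)))) (.nv (.thr 37 5 (.dbl 42 47 62)) (.rp 62 (.thr 37 5 (.thr 47 42 (.thr 35 39 (.dbl 34 33 50)))) .nd)))) (.rp 53 (.str 58 (.nv (.thr 50 34 (.thr 38 14 (.dbl 54 6 62))) (.nv (.dbl 42 10 62) (.rp 62 (.thr 50 34 (.thr 10 42 (.dbl 14 6 38))) .nd)))) (.rp 42 (.thr 34 50 (.thr 33 35 (.thr 25 29 (.thr 27 24 (.thr 11 59 (.thr 41 56 (.dbl 1 49 61))))))) .nd))))))) (.rp 42 (.thr 25 29 (.thr 27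 24 (.thr 11 59 (.thr 41 56 (.thr 1 61 (.thr 49 33 (.thr 13 37 (.dbl 9 5 57)))))))) (.rp 32 (.str 48 (.nv (.thr 50 34 (.thr 14 38 (.thr 42 62 (.dbl 10 6 58)))) (.nv (.thr 25 29 (.thr 27 24 (.thr 59 11 (.dbl 42 8 62)))) (.nv (.thr 50 34 (.thr 51 49 (.thr 38 14 (.dbl 25 12 29)))) (.rp 62 (.thr 50 34 (.thr 51 49 (.thr 25 29 (.dbl 38 12 14)))) .nd))))) .nd))))))) (.rp 62 (.thr 25 29 (.thr 24 27 (.thr 50 34 (.thr 14 38 (.thr 10 6 (.thr 42 58 (.thr 8 59 (.thr 56 40 (.dbl 11 9 41))))))))) (.rp 58 (.thr 25 29 (.thr 27 24 (.thr 50 34 (.thr 38 14 (.thr 51 12 (.thr 48 49 (.dbl 15 37 39))))))) (.rp 50 (.thr 25 29 (.thr 27 24 (.thr 42 62 (.thr 58 10 (.thr 59 8 (.thr 56 57 (.dbl 11 41 43))))))) (.rp 48 (.str 32 (.nv (.thr 25 29 (.thr 34 50 (.thr 33 35 (.thr 49 1 (.thr 37 13 (.dbl 42 47 62))))))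 (.nv (.thr 50 34 (.thr 14 38 (.thr 42 62 (.dbl 10 6 58)))) (.rp 63 (.str 43 (.nv (.thr 25 29 (.thr 27 24 (.thr 59 11 (.dbl 42 8 62)))) (.nv (.thr 50 34 (.thr 38 14 (.thr 62 42 (.dbl 54 6 58)))) (.rp 62 (.thr 34 50 (.thr 35 33 (.thr 47 39 (.thr 42 37 (.thr 41 40 (.dbl 38 44 46)))))) (.rp 58 (.str 53 (.nv (.thr 50 34 (.thr 38 14 (.thr 54 6 (.dbl 55 4 52)))) (.nv (.thr 37 5 (.dbl 42 47 62)) (.rp 62 (.thr 37 5 (.thr 47 42 (.thr 35 39 (.dbl 34 33 50)))) .nd)))) (.rp 53 (.str 58 (.nv (.thr 50 34 (.thr 38 14 (.dbl 54 6 62))) (.nv (.dbl 42 10 62) (.rp 62 (.thr 50 34 (.thr 10 42 (.dbl 14 6 38))) .nd)))) (.rp 42 (.thr 34 50 (.thr 33 35 (.thr 25 29 (.thr 27 24 (.thr 11 59 (.thr 41 56 (.dbl 1 49 61))))))) .nd))))))) (.rp 62 (.thr 25 29 (.thr 24 27 (.thr 50 34 (.thr 14 38 (.thr 10 6 (.thr 42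 58 (.thr 8 59 (.thr 56 40 (.dbl 11 9 41))))))))) (.rp 50 (.thr 42 62 (.thr 37 47 (.thr 7 52 (.thr 5 53 (.thr 6 4 (.dbl 10 14 58)))))) (.rp 43 (.str 63 (.nv (.thr 34 50 (.thr 33 35 (.thr 62 42 (.thr 61 60 (.dbl 1 41 49))))) (.nv (.thr 50 34 (.thr 42 62 (.thr 14 38 (.dbl 10 6 58)))) (.rp 62 (.thr 50 34 (.thr 14 38 (.thr 10 6 (.thr 42 58 (.thr 47 37 (.thr 15 31 (.thr 29 25 (.dbl 12 13 46)))))))) (.rp 50 (.thr 42 62 (.thr 37 47 (.thr 5 53 (.thr 7 52 (.thr 6 4 (.dbl 10 14 58)))))) (.rp 42 (.thr 50 34 (.thr 38 14 (.thr 55 4 (.thr 51 59 (.dbl 25 12 29))))) (.rp 34 (.thr 42 62 (.thr 10 58 (.thr 37 47 (.thr 5 53 (.thr 7 52 (.dbl 6 4 14)))))) .nd))))))) (.rp 42 (.str 1 (.nv (.thr 33 49 (.dbl 34 35 50)) (.rp 63 (.str 43 (.nv (.thr 25 29 (.thr 27 24 (.thr 41 61 (.dbl 11 56 59)))) (.nv (.thr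 34 50 (.dbl 33 35 49)) (.rp 58 (.str 53 (.nv (.thr 33 49 (.dbl 34 35 50)) (.nv (.thr 25 29 (.thr 27 24 (.thr 41 61 (.dbl 11 56 59)))) (.nv (.thr 49 33 (.dbl 61 41 57)) .nd)))) (.rp 53 (.str 58 (.nv (.thr 25 29 (.thr 41 61 (.thr 57 9 (.dbl 56 11 59)))) (.nv (.thr 34 50 (.dbl 33 35 49)) .nd))) .nd))))) (.rp 51 (.thr 25 29 (.thr 49 33 (.thr 13 37 (.thr 9 5 (.dbl 41 57 61))))) (.rp 50 (.thr 25 29 (.thr 49 33 (.thr 13 37 (.thr 9 5 (.dbl 41 57 61))))) (.rp 49 (.thr 25 29 (.thr 24 27 (.thr 50 34 (.thr 38 14 (.thr 41 61 (.thr 44 35 (.thr 40 36 (.dbl 56 8 11)))))))) (.rp 43 (.str 63 (.nv (.thr 34 50 (.dbl 33 35 49)) (.rp 51 (.thr 50 34 (.thr 38 14 (.thr 54 6 (.thr 62 58 (.dbl 61 41 60))))) (.rp 50 (.thr 49 33 (.thr 41 61 (.thr 25 29 (.thr 9 57 (.dbl 13 5 37))))) (.rp 49 (.thr 50 34 (.thr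 38 14 (.thr 54 6 (.thr 62 58 (.dbl 61 41 60))))) (.rp 41 (.str 40 (.nv (.thr 33 49 (.dbl 34 35 50)) (.rp 51 (.thr 49 33 (.thr 50 34 (.thr 25 29 (.thr 36 44 (.thr 37 13 (.dbl 38 14 39)))))) (.rp 50 (.thr 49 33 (.thr 25 29 (.thr 36 44 (.thr 37 13 (.thr 38 39 (.thr 55 4 (.dbl 51 12 59))))))) (.rp 49 (.thr 50 34 (.thr 25 29 (.thr 38 14 (.thr 55 4 (.dbl 51 12 59))))) (.rp 35 (.thr 50 34 (.thr 25 29 (.thr 38 14 (.thr 55 4 (.dbl 51 12 59))))) (.rp 34 (.thr 49 33 (.thr 25 29 (.thr 36 44 (.thr 37 13 (.thr 38 39 (.thr 6 54 (.dbl 14 10 50))))))) (.rp 33 (.thr 50 34 (.thr 25 29 (.thr 38 14 (.thr 55 4 (.dbl 51 12 59))))) .nd)))))))) (.rp 40 (.thr 41 61 (.thr 34 50 (.dbl 33 35 49))) (.rp 35 (.thr 50 34 (.thr 38 14 (.thr 54 6 (.thr 62 58 (.dbl 61 41 60))))) (.rp 34 (.thr 49 33 (.thr 41 61 (.thr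 25 29 (.thr 9 57 (.dbl 13 5 37))))) (.rp 33 (.thr 50 34 (.thr 38 14 (.thr 54 6 (.thr 62 58 (.dbl 61 41 60))))) .nd)))))))))) (.rp 35 (.thr 25 29 (.thr 49 33 (.thr 13 37 (.thr 9 5 (.dbl 41 57 61))))) (.rp 34 (.thr 25 29 (.thr 49 33 (.thr 13 37 (.thr 9 5 (.dbl 41 57 61))))) (.rp 33 (.thr 25 29 (.thr 50 34 (.thr 41 61 (.thr 11 56 (.thr 9 57 (.thr 10 8 (.dbl 14 6 38))))))) .nd)))))))))) (.rp 34 (.thr 42 62 (.thr 37 47 (.thr 7 52 (.thr 5 53 (.thr 6 4 (.dbl 10 14 58)))))) .nd))))))))) (.rp 43 (.str 63 (.nv (.thr 25 29 (.thr 50 34 (.thr 38 14 (.thr 55 4 (.dbl 51 12 59))))) (.nv (.thr 50 34 (.thr 14 38 (.thr 42 62 (.dbl 10 6 58)))) (.rp 62 (.thr 29 25 (.thr 50 34 (.thr 14 38 (.thr 10 6 (.thr 42 58 (.thr 12 46 (.thr 15 13 (.thr 47 31 (.dbl 37 32 48))))))))) (.rp 50 (.thr 25 29 (.thr 24 27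 (.thr 42 62 (.thr 58 10 (.thr 48 53 (.thr 59 8 (.thr 51 55 (.dbl 12 36 38)))))))) (.rp 48 (.str 32 (.nv (.thr 34 50 (.thr 33 35 (.thr 62 42 (.thr 61 60 (.dbl 1 41 49))))) (.nv (.thr 50 34 (.thr 42 62 (.thr 14 38 (.dbl 10 6 58)))) (.rp 62 (.thr 50 34 (.thr 14 38 (.thr 10 6 (.thr 42 58 (.thr 47 37 (.thr 15 31 (.thr 29 25 (.dbl 12 13 46)))))))) (.rp 50 (.thr 42 62 (.thr 37 47 (.thr 5 53 (.thr 7 52 (.thr 6 4 (.dbl 10 14 58)))))) (.rp 42 (.thr 50 34 (.thr 38 14 (.thr 55 4 (.thr 51 59 (.dbl 25 12 29))))) (.rp 34 (.thr 42 62 (.thr 10 58 (.thr 37 47 (.thr 5 53 (.thr 7 52 (.dbl 6 4 14)))))) .nd))))))) (.rp 38 (.thr 25 29 (.thr 24 27 (.thr 42 62 (.thr 10 58 (.thr 8 59 (.thr 11 9 (.dbl 56 40 41))))))) (.rp 34 (.thr 25 29 (.thr 24 27 (.thr 42 62 (.thr 10 58 (.thr 8 59 (.thr 11 9 (.dbl 56 40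 41))))))) (.rp 32 (.str 48 (.nv (.thr 25 29 (.thr 50 34 (.thr 49 51 (.dbl 37 13 15)))) (.nv (.thr 58 53 (.dbl 42 10 62)) .nd))) (.rp 14 (.thr 29 25 (.thr 42 62 (.thr 46 12 (.dbl 34 38 50)))) .nd)))))))))) (.rp 42 (.thr 25 29 (.thr 27 24 (.thr 50 34 (.thr 38 14 (.thr 51 12 (.thr 48 49 (.dbl 15 37 39))))))) (.rp 38 (.thr 25 29 (.thr 27 24 (.thr 42 62 (.thr 58 10 (.thr 59 8 (.thr 56 57 (.dbl 11 41 43))))))) (.rp 34 (.thr 25 29 (.thr 27 24 (.thr 42 62 (.thr 58 10 (.thr 59 8 (.thr 56 57 (.dbl 11 41 43))))))) (.rp 32 (.str 48 (.nv (.thr 25 29 (.thr 24 27 (.thr 12 36 (.thr 51 38 (.dbl 50 34 49))))) (.nv (.thr 50 34 (.thr 14 38 (.thr 42 62 (.dbl 10 6 58)))) (.rp 63 (.str 43 (.nv (.thr 50 34 (.thr 14 38 (.thr 42 62 (.dbl 10 6 58)))) (.nv (.thr 25 29 (.thr 27 24 (.thr 59 11 (.dbl 42 8 62))))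 (.nv (.thr 50 34 (.thr 51 49 (.thr 38 14 (.dbl 25 12 29)))) (.rp 62 (.thr 50 34 (.thr 51 49 (.thr 25 29 (.dbl 38 12 14)))) .nd))))) (.rp 50 (.thr 25 29 (.thr 37 15 (.thr 49 13 (.thr 1 33 (.thr 61 41 (.dbl 53 5 57)))))) (.rp 43 (.str 63 (.nv (.thr 25 29 (.thr 50 34 (.thr 49 51 (.dbl 37 13 15)))) (.nv (.thr 58 53 (.dbl 42 10 62)) .nd))) (.rp 38 (.thr 25 29 (.thr 50 34 (.thr 49 51 (.dbl 37 13 15)))) (.rp 34 (.thr 25 29 (.thr 24 27 (.thr 12 36 (.thr 51 38 (.thr 49 50 (.dbl 37 13 15)))))) .nd)))))))) (.rp 14 (.thr 25 29 (.thr 27 24 (.thr 34 50 (.thr 42 62 (.thr 46 38 (.thr 58 10 (.thr 59 8 (.thr 56 57 (.dbl 11 41 43))))))))) (.rp 10 (.thr 50 34 (.thr 38 14 (.thr 54 6 (.dbl 62 42 58)))) (.rp 6 (.thr 25 29 (.thr 27 24 (.thr 42 62 (.thr 58 10 (.thr 59 8 (.thr 56 57 (.dbl 11 41 43)))))))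 .nd)))))))))))))))) (.rp 2 (.str 1 (.nv (.thr 18 30 (.dbl 16 19 31)) (.rp 63 (.str 43 (.nv (.thr 25 29 (.thr 27 24 (.thr 11 59 (.dbl 41 56 61)))) (.nv (.thr 18 30 (.dbl 16 19 31)) .nd))) (.rp 43 (.str 63 (.nv (.thr 18 30 (.dbl 16 19 31)) (.rp 31 (.thr 18 30 (.thr 19 16 (.dbl 25 28 29))) (.rp 30 (.thr 16 31 (.thr 19 18 (.dbl 25 28 29))) (.rp 19 (.thr 29 25 (.thr 31 16 (.dbl 30 18 28))) (.rp 18 (.thr 25 29 (.thr 41 61 (.thr 9 57 (.thr 13 5 (.dbl 49 33 37))))) (.rp 16 (.thr 25 29 (.thr 61 41 (.thr 49 33 (.thr 53 57 (.dbl 37 5 13))))) .nd))))))) (.rp 31 (.thr 18 30 (.thr 19 16 (.dbl 25 28 29))) (.rp 30 (.thr 16 31 (.thr 19 18 (.dbl 25 28 29))) (.rp 19 (.thr 29 25 (.thr 31 16 (.dbl 30 18 28))) (.rp 18 (.thr 25 29 (.thr 41 61 (.thr 9 57 (.thr 13 5 (.dbl 49 33 37))))) (.rp 16 (.thr 25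 29 (.thr 49 33 (.thr 13 37 (.thr 9 5 (.dbl 41 57 61))))) .nd))))))))) (.rp 1 (.str 2 (.nv (.thr 18 30 (.dbl 16 19 31)) (.rp 63 (.str 43 (.nv (.thr 25 29 (.thr 27 24 (.thr 42 62 (.dbl 59 8 11)))) (.nv (.thr 18 30 (.dbl 16 19 31)) .nd))) (.rp 43 (.str 63 (.nv (.thr 29 25 (.thr 30 18 (.thr 46 12 (.dbl 62 14 42)))) (.nv (.thr 18 30 (.dbl 16 19 31)) (.rp 30 (.thr 16 31 (.thr 19 18 (.dbl 25 28 29))) (.rp 18 (.thr 31 16 (.thr 29 25 (.thr 30 28 (.thr 62 42 (.dbl 46 12 14))))) .nd))))) (.rp 31 (.thr 18 30 (.thr 19 16 (.dbl 25 28 29))) (.rp 30 (.thr 16 31 (.thr 19 18 (.dbl 25 28 29))) (.rp 19 (.thr 30 18 (.thr 31 16 (.dbl 29 25 28))) (.rp 18 (.thr 31 16 (.thr 29 25 (.thr 30 28 (.thr 62 42 (.thr 14 46 (.thr 6 10 (.dbl 38 50 54))))))) (.rp 16 (.thr 18 30 (.thr 50 34 (.thr 14 38 (.thr 10 6 (.dbl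 42 58 62))))) .nd))))))))) .nd))))))))))) (.rp 2 (.str 3 (.nv (.thr 41 60 (.thr 1 61 (.thr 33 49 (.thr 18 48 (.thr 16 19 (.dbl 26 30 31)))))) (.nv (.thr 25 29 (.thr 19 28 (.thr 18 16 (.thr 48 33 (.thr 51 35 (.thr 49 50 (.thr 37 13 (.dbl 26 15 30)))))))) (.nv (.thr 25 29 (.thr 41 60 (.thr 1 61 (.thr 49 33 (.thr 13 37 (.dbl 9 5 57)))))) (.nv (.thr 25 29 (.thr 28 19 (.thr 60 41 (.thr 12 44 (.thr 38 51 (.dbl 6 9 54)))))) .nd))))) (.rp 1 (.thr 25 29 (.str 3 (.nv (.thr 19 28 (.thr 18 16 (.thr 48 33 (.thr 60 41 (.thr 52 56 (.thr 37 7 (.dbl 26 15 30))))))) (.nv (.thr 19 28 (.thr 18 16 (.thr 48 33 (.thr 51 35 (.thr 49 50 (.thr 37 13 (.dbl 26 15 30))))))) (.nv (.thr 28 19 (.thr 60 41 (.thr 12 44 (.thr 38 51 (.dbl 6 9 54))))) (.rp 31 (.thr 41 60 (.thr 9 57 (.thr 12 6 (.thr 51 38 (.dbl 19 28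 35))))) (.rp 28 (.thr 41 60 (.thr 9 57 (.thr 12 6 (.thr 51 38 (.thr 19 35 (.thr 18 16 (.thr 48 33 (.thr 24 36 (.dbl 26 27 30))))))))) (.rp 19 (.str 26 (.nv (.thr 18 30 (.thr 24 27 (.thr 31 16 (.thr 48 33 (.thr 12 36 (.thr 6 9 (.dbl 38 51 54))))))) (.nv (.thr 27 24 (.thr 41 60 (.thr 9 57 (.thr 11 56 (.thr 59 43 (.dbl 8 10 42)))))) (.nv (.thr 18 30 (.thr 48 33 (.thr 60 41 (.thr 52 56 (.dbl 37 7 15))))) (.rp 48 (.thr 41 60 (.thr 56 11 (.thr 57 9 (.thr 59 58 (.thr 8 42 (.dbl 24 27 40)))))) (.rp 27 (.thr 31 16 (.thr 18 30 (.thr 48 33 (.thr 15 37 (.thr 11 7 (.dbl 41 56 60)))))) .nd)))))) .nd)))))))) .nd))))))))))))))))))))))))))))))))))))))))))))))))))))))))))))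

theorem w41 : WinAt (6291456, 8388609) :=
  chF (K := [(6422528, 41943041), (6684672, 1619001345), (73531392, 9223372036863164425)]) (kc w39 (kc w40 (kc w38 kn))) c41 6291456 8388609 23
    [] (by decide +kernel) (by decide +kernel)

/-- A certificate. -/
noncomputable def c42 : Ct := (.str 52 (.nv (.thr 7 37 (.thr 23 20 (.thr 55 39 (.thr 38 4 (.dbl 54 6 53))))) (.nv (.thr 20 23 (.thr 4 36 (.thr 55 38 (.thr 37 7 (.dbl 53 5 54))))) (.rp 55 (.str 60 (.nv (.thr 3 41 (.thr 23 20 (.thr 37 7 (.thr 53 5 (.thr 63 43 (.dbl 48 56 58)))))) (.nv (.thr 3 41 (.thr 48 56 (.thr 18 33 (.thr 26 30 (.dbl 37 7 15))))) (.rp 56 (.thr 37 7 (.thr 5 53 (.thr 41 3 (.thr 1 61 (.thr 13 9 (.thr 49 25 (.dbl 33 17 45))))))) (.rp 48 (.thr 37 7 (.thr 5 53 (.thr 41 3 (.thr 1 61 (.thr 13 9 (.thr 49 25 (.dbl 33 17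 45))))))) (.rp 41 (.thr 23 20 (.thr 37 7 (.thr 53 5 (.thr 48 56 (.thr 63 58 (.thr 3 43 (.thr 18 33 (.dbl 26 15 30)))))))) (.rp 40 (.thr 37 7 (.thr 41 3 (.thr 45 33 (.thr 15 30 (.dbl 48 26 56))))) (.rp 37 (.thr 23 20 (.thr 48 56 (.thr 3 41 (.thr 63 43 (.thr 62 61 (.thr 58 53 (.thr 42 2 (.thr 26 10 (.dbl 18 30 33))))))))) (.rp 15 (.thr 23 20 (.thr 37 7 (.thr 48 56 (.thr 3 41 (.thr 63 43 (.dbl 53 5 58)))))) (.rp 7 (.thr 23 20 (.thr 48 56 (.thr 3 41 (.thr 18 33 (.thr 26 30 (.thr 37 15 (.thr 63 43 (.dbl 53 5 58)))))))) (.rp 3 (.thr 37 7 (.thr 53 5 (.thr 48 56 (.thr 15 26 (.thr 45 30 (.thr 63 58 (.thr 61 62 (.dbl 41 1 33)))))))) .nd))))))))))) (.rp 54 (.str 60 (.nv (.thr 3 41 (.thr 23 20 (.thr 37 7 (.thr 53 5 (.thr 63 43 (.dbl 48 56 58)))))) (.nv (.thr 37 7 (.thr 3 41 (.thr 48 56 (.thr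 18 33 (.dbl 26 15 30))))) (.rp 56 (.thr 37 7 (.thr 5 53 (.thr 41 3 (.thr 1 61 (.thr 13 9 (.thr 49 25 (.dbl 33 17 45))))))) (.rp 48 (.thr 37 7 (.thr 5 53 (.thr 41 3 (.thr 1 61 (.thr 13 9 (.thr 49 25 (.dbl 33 17 45))))))) (.rp 41 (.thr 23 20 (.thr 37 7 (.thr 53 5 (.thr 48 56 (.thr 63 58 (.thr 3 43 (.thr 18 33 (.dbl 26 15 30)))))))) (.rp 40 (.thr 37 7 (.thr 41 3 (.thr 45 33 (.thr 15 30 (.dbl 48 26 56))))) (.rp 37 (.thr 23 20 (.thr 48 56 (.thr 3 41 (.thr 63 43 (.thr 62 61 (.thr 58 53 (.thr 42 2 (.thr 26 10 (.dbl 18 30 33))))))))) (.rp 15 (.thr 23 20 (.thr 37 7 (.thr 48 56 (.thr 3 41 (.thr 63 43 (.dbl 53 5 58)))))) (.rp 7 (.thr 23 20 (.thr 48 56 (.thr 3 41 (.thr 18 33 (.thr 26 30 (.thr 37 15 (.thr 63 43 (.dbl 53 5 58)))))))) (.rp 3 (.thr 37 7 (.thr 53 5 (.thr 48 56 (.thr 15 26 (.thr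 45 30 (.thr 63 58 (.thr 41 33 (.dbl 61 1 62)))))))) .nd))))))))))) (.rp 53 (.thr 20 23 (.thr 4 36 (.thr 38 55 (.thr 6 54 (.dbl 7 5 37))))) (.rp 38 (.str 60 (.nv (.thr 37 7 (.thr 41 3 (.thr 53 5 (.thr 54 55 (.thr 57 51 (.dbl 61 1 49)))))) (.nv (.thr 3 41 (.thr 23 20 (.thr 37 7 (.thr 53 5 (.thr 63 43 (.dbl 48 56 58)))))) (.nv (.thr 37 7 (.thr 41 3 (.thr 45 33 (.thr 15 30 (.dbl 48 26 56))))) (.rp 41 (.thr 37 7 (.thr 53 5 (.thr 54 55 (.thr 48 56 (.thr 63 58 (.thr 61 62 (.dbl 57 49 51))))))) (.rp 37 (.thr 23 20 (.thr 48 56 (.thr 3 41 (.thr 63 43 (.thr 61 62 (.thr 53 58 (.thr 54 55 (.dbl 57 49 51)))))))) (.rp 15 (.thr 23 20 (.thr 37 7 (.thr 48 56 (.thr 3 41 (.thr 63 43 (.dbl 53 5 58)))))) (.rp 7 (.thr 23 20 (.thr 48 56 (.thr 3 41 (.thr 18 33 (.thr 26 30 (.thr 37 15 (.thr 63 43 (.dbl 53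 5 58)))))))) (.rp 3 (.thr 37 7 (.thr 53 5 (.thr 54 55 (.thr 48 56 (.thr 63 58 (.thr 61 62 (.dbl 57 49 51))))))) .nd))))))))) (.rp 37 (.str 38 (.nv (.thr 54 6 (.dbl 55 4 53)) (.nv (.thr 20 23 (.dbl 4 36 55)) (.rp 55 (.str 60 (.nv (.thr 41 3 (.thr 44 35 (.thr 12 28 (.thr 51 25 (.dbl 54 6 57))))) (.nv (.thr 3 41 (.thr 23 20 (.thr 48 56 (.thr 54 6 (.thr 63 43 (.thr 58 53 (.dbl 62 50 61))))))) (.nv (.thr 3 41 (.thr 6 54 (.thr 12 9 (.thr 28 44 (.dbl 25 19 51))))) (.rp 54 (.thr 23 20 (.thr 41 3 (.thr 44 35 (.thr 28 12 (.thr 19 25 (.thr 31 27 (.thr 26 16 (.dbl 30 18 29)))))))) (.rp 41 (.thr 23 20 (.thr 54 6 (.thr 51 57 (.thr 25 12 (.thr 17 29 (.thr 19 28 (.thr 16 18 (.dbl 31 26 27)))))))) (.rp 28 (.thr 54 6 (.thr 48 56 (.thr 51 57 (.thr 50 49 (.thr 26 14 (.thr 18 30 (.dbl 3 33 41)))))))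 (.rp 6 (.thr 48 56 (.thr 41 3 (.thr 44 35 (.thr 12 28 (.thr 51 25 (.thr 49 50 (.thr 57 54 (.dbl 61 1 53)))))))) (.rp 3 (.thr 54 6 (.thr 48 56 (.thr 51 57 (.thr 50 49 (.thr 26 14 (.thr 18 30 (.thr 2 34 (.dbl 62 42 58)))))))) .nd))))))))) (.rp 4 (.str 12 (.nv (.thr 25 51 (.thr 17 29 (.thr 19 28 (.thr 16 18 (.thr 31 26 (.dbl 23 20 27)))))) (.nv (.thr 6 54 (.thr 3 9 (.thr 60 41 (.thr 28 44 (.dbl 25 19 51))))) (.rp 51 (.thr 6 54 (.thr 23 20 (.thr 3 9 (.thr 63 43 (.thr 46 29 (.thr 60 41 (.thr 62 61 (.dbl 42 2 34)))))))) (.rp 28 (.thr 6 54 (.thr 3 9 (.thr 41 60 (.thr 35 44 (.dbl 51 19 25))))) (.rp 25 (.thr 6 54 (.thr 23 20 (.thr 3 9 (.thr 63 43 (.thr 46 29 (.thr 42 34 (.thr 62 2 (.dbl 60 41 61)))))))) (.rp 19 (.thr 54 6 (.thr 51 25 (.thr 60 57 (.thr 44 28 (.dbl 41 3 35))))) .nd)))))))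 .nd))))) (.rp 23 (.str 54 (.nv (.thr 37 7 (.dbl 53 5 55)) (.nv (.thr 55 53 (.dbl 38 4 6)) (.rp 55 (.thr 7 37 (.str 60 (.nv (.thr 38 6 (.thr 51 57 (.thr 12 25 (.thr 41 3 (.dbl 44 28 35))))) (.nv (.thr 3 41 (.thr 38 6 (.thr 48 56 (.thr 51 57 (.thr 50 49 (.thr 26 14 (.dbl 18 30 33))))))) (.nv (.thr 38 6 (.thr 51 57 (.thr 3 41 (.thr 19 35 (.dbl 25 12 28))))) (.rp 57 (.thr 38 6 (.thr 56 48 (.thr 41 3 (.thr 26 11 (.thr 50 14 (.thr 62 58 (.dbl 61 1 63))))))) (.rp 51 (.thr 38 6 (.thr 56 48 (.thr 41 3 (.thr 26 11 (.thr 50 14 (.thr 62 58 (.dbl 61 1 63))))))) (.rp 41 (.thr 38 6 (.thr 48 56 (.thr 51 57 (.thr 50 49 (.thr 26 14 (.thr 18 30 (.thr 2 34 (.dbl 62 42 58)))))))) (.rp 38 (.thr 48 56 (.thr 51 57 (.thr 49 50 (.thr 3 41 (.thr 33 18 (.thr 17 1 (.thr 25 29 (.dbl 19 28 35)))))))) (.rp 25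 (.thr 38 6 (.thr 56 48 (.thr 57 51 (.thr 41 3 (.thr 26 11 (.thr 50 14 (.dbl 58 59 62))))))) (.rp 6 (.thr 48 56 (.thr 51 57 (.thr 3 41 (.thr 19 35 (.thr 25 28 (.thr 17 29 (.dbl 18 16 33))))))) (.rp 3 (.thr 38 6 (.thr 48 56 (.thr 51 57 (.thr 50 49 (.thr 26 14 (.thr 18 30 (.thr 2 34 (.dbl 62 42 58)))))))) .nd)))))))))))) (.rp 53 (.thr 38 6 (.thr 4 55 (.thr 36 20 (.dbl 37 7 39)))) .nd))))) (.rp 20 (.thr 37 7 (.str 60 (.nv (.thr 41 3 (.thr 53 5 (.thr 54 55 (.thr 57 51 (.dbl 61 1 49))))) (.nv (.thr 3 41 (.thr 48 56 (.thr 18 33 (.dbl 26 15 30)))) (.rp 41 (.thr 53 5 (.thr 54 55 (.thr 48 56 (.thr 63 58 (.thr 61 62 (.dbl 57 49 51)))))) (.rp 28 (.str 16 (.nv (.thr 26 31 (.thr 30 18 (.thr 45 15 (.dbl 41 3 33)))) (.nv (.thr 26 31 (.dbl 48 15 56)) (.rp 31 (.thr 48 56 (.thr 15 26 (.thr 41 3 (.dbl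 45 30 33)))) (.rp 30 (.thr 48 56 (.dbl 26 15 31)) (.rp 26 (.thr 53 5 (.thr 54 55 (.thr 57 51 (.thr 61 49 (.dbl 41 1 3))))) (.rp 15 (.thr 26 31 (.thr 56 48 (.dbl 41 3 11))) .nd))))))) (.rp 16 (.str 28 (.nv (.thr 12 44 (.thr 53 5 (.thr 54 55 (.thr 51 57 (.dbl 25 19 38))))) (.nv (.thr 48 56 (.thr 3 41 (.thr 18 33 (.dbl 26 15 30)))) (.rp 48 (.str 32 (.nv (.thr 12 44 (.thr 25 19 (.thr 53 5 (.thr 54 55 (.dbl 38 6 51))))) (.nv (.thr 42 47 (.thr 62 2 (.thr 61 63 (.dbl 41 1 3)))) (.nv (.thr 12 44 (.thr 3 41 (.thr 6 9 (.thr 38 54 (.dbl 25 19 51))))) (.rp 12 (.str 36 (.nv (.thr 38 39 (.thr 53 5 (.dbl 54 6 55))) (.nv (.thr 40 44 (.thr 42 47 (.dbl 41 3 43))) (.rp 8 (.str 4 (.nv (.thr 40 44 (.thr 41 3 (.dbl 42 43 47))) (.nv (.dbl 38 39 55) (.rp 40 (.str 56 (.nv (.dbl 38 39 55) (.rp 55 (.thr 41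 3 (.thr 33 45 (.thr 35 34 (.dbl 38 39 44)))) (.rp 39 (.thr 53 5 (.dbl 55 38 54)) (.rp 38 (.thr 42 47 (.thr 62 2 (.thr 61 63 (.dbl 41 1 3)))) .nd))))) .nd)))) (.rp 4 (.str 8 (.nv (.thr 5 53 (.thr 38 39 (.thr 44 40 (.dbl 41 3 35)))) (.nv (.thr 42 47 (.dbl 25 19 59)) (.rp 5 (.str 6 (.nv (.thr 25 19 (.dbl 42 47 59)) (.nv (.dbl 38 39 54) (.rp 15 (.str 10 (.nv (.thr 3 41 (.thr 25 19 (.dbl 42 47 59))) (.nv (.dbl 38 39 54) (.rp 14 (.str 13 (.nv (.thr 3 41 (.dbl 38 39 54)) (.nv (.dbl 25 19 49) (.rp 3 (.thr 11 9 (.dbl 25 19 49)) .nd)))) (.rp 13 (.thr 14 2 (.dbl 38 39 54)) (.rp 3 (.thr 11 9 (.dbl 38 39 54)) .nd)))))) (.rp 10 (.str 15 (.nv (.thr 25 19 (.dbl 42 47 59)) (.nv (.dbl 38 39 54) .nd))) .nd))))) .nd)))) .nd))))) .nd))))) (.rp 15 (.thr 5 53 (.thr 25 19 (.thr 13 49 (.thr 1 9 (.dbl 41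 3 61))))) .nd))))) (.rp 15 (.thr 5 53 (.thr 56 48 (.thr 41 3 (.thr 11 26 (.thr 1 61 (.thr 13 9 (.thr 33 45 (.dbl 49 17 25)))))))) (.rp 11 (.thr 48 56 (.thr 15 26 (.thr 41 3 (.dbl 45 30 33)))) (.rp 3 (.thr 53 5 (.thr 54 55 (.thr 48 56 (.thr 63 58 (.thr 61 62 (.dbl 57 49 51)))))) .nd)))))))))) (.rp 12 (.thr 20 23 (.thr 37 7 (.thr 53 5 (.thr 55 54 (.dbl 4 36 38))))) (.rp 7 (.str 48 (.nv (.thr 23 20 (.thr 60 56 (.thr 3 41 (.thr 63 43 (.thr 53 58 (.thr 54 55 (.thr 57 51 (.dbl 61 49 62)))))))) (.nv (.thr 20 23 (.thr 4 36 (.thr 55 38 (.thr 53 54 (.thr 37 5 (.thr 60 56 (.thr 3 41 (.thr 18 33 (.dbl 26 15 30))))))))) (.nv (.thr 20 23 (.thr 4 36 (.thr 55 38 (.thr 53 54 (.thr 60 56 (.thr 41 3 (.thr 63 58 (.dbl 61 1 62)))))))) (.nv (.thr 23 20 (.thr 60 56 (.thr 3 41 (.thr 18 33 (.thr 26 30 (.thr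 37 15 (.thr 63 43 (.dbl 53 5 58)))))))) (.rp 60 (.thr 20 23 (.str 17 (.nv (.thr 25 29 (.thr 19 28 (.thr 18 16 (.thr 3 33 (.thr 51 35 (.thr 49 50 (.thr 37 13 (.dbl 26 15 30)))))))) (.nv (.thr 4 36 (.thr 25 29 (.thr 55 38 (.thr 53 54 (.thr 37 5 (.thr 49 13 (.thr 51 50 (.dbl 63 58 59)))))))) (.nv (.thr 4 36 (.thr 25 29 (.thr 19 28 (.thr 18 16 (.thr 3 33 (.thr 51 35 (.dbl 38 12 55))))))) (.rp 55 (.str 39 (.nv (.thr 36 4 (.thr 37 38 (.thr 26 15 (.thr 16 31 (.dbl 18 19 30))))) (.nv (.thr 25 29 (.thr 19 28 (.thr 18 16 (.thr 3 33 (.thr 51 35 (.thr 15 27 (.dbl 26 30 37))))))) (.nv (.thr 25 29 (.thr 36 4 (.thr 37 38 (.thr 49 13 (.thr 1 33 (.thr 61 41 (.dbl 53 5 57))))))) (.nv (.thr 36 4 (.thr 37 38 (.thr 25 29 (.thr 19 28 (.thr 16 18 (.dbl 26 15 31)))))) (.rp 37 (.thr 25 29 (.thr 19 28 (.thr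 18 16 (.thr 3 33 (.thr 51 35 (.thr 50 49 (.thr 12 38 (.thr 6 9 (.thr 15 27 (.thr 14 13 (.dbl 2 10 34))))))))))) (.rp 12 (.thr 4 36 (.str 19 (.nv (.dbl 25 28 29) (.rp 44 (.thr 28 25 (.thr 18 16 (.thr 3 33 (.thr 51 35 (.thr 15 27 (.dbl 26 30 37)))))) (.rp 29 (.thr 18 16 (.thr 3 33 (.thr 51 35 (.thr 15 27 (.dbl 26 30 37))))) (.rp 28 (.str 44 (.nv (.thr 18 16 (.thr 33 3 (.thr 1 49 (.thr 41 61 (.thr 45 37 (.thr 47 46 (.dbl 35 38 43))))))) (.nv (.thr 18 16 (.thr 3 33 (.thr 51 35 (.thr 15 27 (.dbl 26 30 37))))) (.rp 37 (.thr 18 16 (.thr 33 3 (.thr 1 49 (.thr 41 61 (.thr 35 38 (.thr 34 32 (.thr 2 50 (.thr 43 47 (.dbl 42 40 62))))))))) (.rp 35 (.thr 18 16 (.thr 33 3 (.thr 1 49 (.thr 41 61 (.thr 37 45 (.dbl 26 15 30)))))) (.rp 33 (.thr 16 18 (.thr 26 31 (.thr 15 37 (.thr 51 27 (.thr 50 49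 (.thr 35 3 (.dbl 38 14 41))))))) (.rp 18 (.str 35 (.nv (.thr 25 29 (.thr 41 38 (.thr 1 61 (.thr 33 49 (.thr 45 37 (.dbl 47 43 46)))))) (.nv (.thr 51 3 (.thr 15 27 (.thr 26 37 (.thr 31 16 (.dbl 47 43 63))))) (.nv (.thr 41 38 (.thr 1 61 (.thr 49 33 (.dbl 51 3 50)))) (.rp 63 (.thr 51 3 (.thr 43 47 (.thr 49 50 (.thr 1 33 (.dbl 41 38 61))))) (.rp 1 (.thr 41 38 (.thr 47 43 (.thr 45 46 (.thr 37 33 (.thr 15 26 (.dbl 51 3 27)))))) .nd)))))) (.rp 16 (.str 33 (.nv (.thr 3 18 (.thr 35 51 (.thr 47 43 (.thr 45 46 (.dbl 41 37 38))))) (.nv (.thr 1 49 (.thr 41 61 (.thr 45 37 (.thr 47 46 (.dbl 35 38 43))))) (.nv (.thr 49 1 (.thr 3 18 (.dbl 51 35 50))) (.rp 35 (.thr 49 1 (.thr 51 50 (.thr 25 29 (.thr 37 13 (.dbl 15 26 27))))) .nd))))) (.rp 15 (.thr 18 16 (.thr 3 33 (.thr 35 51 (.thr 41 38 (.thr 25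 29 (.thr 43 47 (.thr 42 40 (.thr 57 9 (.thr 59 8 (.thr 56 58 (.dbl 11 26 27))))))))))) (.rp 3 (.thr 18 16 (.thr 26 30 (.thr 15 37 (.thr 51 27 (.thr 50 49 (.thr 2 34 (.thr 62 42 (.thr 54 58 (.dbl 38 6 14))))))))) .nd)))))))))) (.rp 25 (.thr 18 16 (.thr 3 33 (.thr 51 35 (.thr 15 27 (.dbl 26 30 37))))) .nd))))))) .nd))))))) (.rp 51 (.thr 4 36 (.thr 55 38 (.thr 25 29 (.thr 19 28 (.thr 18 16 (.thr 33 3 (.thr 1 49 (.thr 41 61 (.thr 53 54 (.thr 57 9 (.dbl 37 5 45))))))))))) (.rp 39 (.str 55 (.nv (.dbl 4 36 38) (.rp 38 (.thr 53 54 (.thr 37 5 (.thr 25 29 (.thr 49 13 (.thr 1 33 (.dbl 61 41 57)))))) (.rp 36 (.thr 38 4 (.dbl 54 6 53)) (.rp 4 (.thr 53 54 (.thr 25 29 (.thr 19 28 (.thr 18 16 (.thr 3 33 (.thr 51 35 (.dbl 63 58 59))))))) .nd))))) (.rp 29 (.thr 4 36 (.thr 55 38 (.thr 53 54 (.thr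 37 5 (.thr 63 58 (.thr 51 59 (.thr 50 49 (.thr 15 26 (.thr 47 31 (.thr 42 32 (.thr 2 62 (.thr 18 34 (.thr 19 16 (.dbl 3 33 35)))))))))))))) (.rp 25 (.thr 4 36 (.thr 55 38 (.thr 53 54 (.thr 37 5 (.thr 63 58 (.thr 51 59 (.thr 50 49 (.thr 15 26 (.thr 27 39 (.thr 47 31 (.thr 42 32 (.thr 2 62 (.thr 18 34 (.thr 19 16 (.dbl 3 33 35))))))))))))))) .nd)))))))))) (.rp 56 (.thr 20 23 (.thr 4 36 (.thr 55 38 (.thr 53 54 (.thr 37 5 (.thr 63 58 (.thr 15 26 (.thr 47 31 (.thr 42 32 (.thr 62 2 (.thr 60 61 (.thr 45 30 (.dbl 41 3 33))))))))))))) (.rp 53 (.thr 60 56 (.thr 3 41 (.thr 18 33 (.thr 26 30 (.thr 37 15 (.thr 16 31 (.thr 19 17 (.thr 51 35 (.thr 49 50 (.dbl 25 13 28)))))))))) (.rp 41 (.thr 20 23 (.thr 4 36 (.thr 55 38 (.thr 53 54 (.thr 37 5 (.thr 60 56 (.thr 63 58 (.thr 62 61 (.thr 42 2 (.thr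 47 32 (.dbl 15 26 31))))))))))) (.rp 40 (.thr 20 23 (.thr 4 36 (.thr 55 38 (.thr 53 54 (.thr 37 5 (.thr 56 60 (.thr 58 63 (.thr 57 59 (.thr 61 49 (.thr 41 1 (.dbl 26 11 15))))))))))) (.rp 23 (.thr 60 56 (.thr 3 41 (.thr 18 33 (.thr 26 30 (.thr 37 15 (.thr 16 31 (.thr 19 17 (.thr 51 35 (.thr 49 50 (.dbl 25 13 28)))))))))) (.rp 20 (.thr 60 56 (.thr 3 41 (.thr 18 33 (.thr 26 30 (.thr 37 15 (.thr 16 31 (.thr 19 17 (.thr 51 35 (.thr 49 50 (.dbl 25 13 28)))))))))) (.rp 11 (.thr 20 23 (.thr 4 36 (.thr 55 38 (.thr 53 54 (.thr 37 5 (.thr 60 56 (.thr 41 3 (.thr 15 26 (.dbl 45 30 33))))))))) (.rp 8 (.thr 20 23 (.thr 4 36 (.thr 55 38 (.thr 53 54 (.thr 37 5 (.thr 56 60 (.thr 58 63 (.thr 57 59 (.thr 61 49 (.thr 41 1 (.dbl 26 11 15))))))))))) (.rp 3 (.thr 20 23 (.thr 4 36 (.thr 55 38 (.thr 53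 54 (.thr 37 5 (.thr 60 56 (.thr 63 58 (.thr 62 61 (.thr 15 26 (.thr 47 31 (.dbl 42 2 32))))))))))) .nd))))))))))))))) (.rp 4 (.str 48 (.nv (.thr 23 20 (.thr 37 7 (.thr 26 15 (.thr 18 30 (.thr 3 33 (.thr 63 43 (.dbl 53 5 58))))))) (.nv (.thr 7 37 (.thr 23 20 (.thr 55 39 (.thr 53 54 (.thr 60 56 (.thr 63 58 (.dbl 3 41 43))))))) (.nv (.thr 60 56 (.thr 3 41 (.thr 18 33 (.thr 26 30 (.dbl 37 7 15))))) (.rp 60 (.thr 37 7 (.thr 26 15 (.thr 31 16 (.thr 30 18 (.thr 28 29 (.thr 19 25 (.dbl 23 20 27))))))) (.rp 40 (.thr 37 7 (.thr 26 15 (.thr 18 30 (.thr 3 33 (.dbl 60 41 56))))) (.rp 37 (.thr 23 20 (.thr 60 56 (.thr 3 41 (.thr 63 43 (.thr 61 62 (.thr 53 58 (.thr 54 55 (.dbl 57 49 51)))))))) (.rp 12 (.str 8 (.nv (.thr 23 20 (.thr 37 7 (.thr 26 15 (.thr 18 30 (.thr 3 33 (.thr 63 43 (.dbl 53 5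 58))))))) (.nv (.thr 7 37 (.thr 23 20 (.thr 55 39 (.thr 53 54 (.thr 60 56 (.thr 63 58 (.dbl 3 41 43))))))) (.nv (.thr 60 56 (.thr 3 41 (.thr 18 33 (.thr 26 30 (.dbl 37 7 15))))) (.rp 60 (.thr 37 7 (.thr 26 15 (.thr 30 18 (.thr 31 16 (.thr 28 29 (.thr 19 25 (.dbl 23 20 27))))))) (.rp 37 (.thr 23 20 (.thr 60 56 (.thr 3 41 (.thr 63 43 (.thr 53 58 (.thr 54 55 (.thr 57 51 (.dbl 61 49 62)))))))) (.rp 7 (.thr 23 20 (.thr 60 56 (.thr 3 41 (.thr 18 33 (.thr 26 30 (.thr 37 15 (.thr 63 43 (.dbl 53 5 58)))))))) (.rp 3 (.thr 37 7 (.thr 56 60 (.thr 26 15 (.thr 11 41 (.thr 30 18 (.thr 31 16 (.thr 28 29 (.thr 19 25 (.dbl 23 20 27))))))))) .nd)))))))) (.rp 8 (.str 12 (.nv (.thr 37 7 (.thr 26 15 (.thr 30 18 (.thr 31 16 (.thr 28 29 (.thr 19 25 (.dbl 23 20 27))))))) (.nv (.thr 7 37 (.thr 23 20 (.thr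 55 39 (.thr 54 53 (.thr 38 6 (.thr 51 25 (.dbl 60 56 57))))))) (.nv (.thr 37 7 (.thr 5 53 (.thr 26 15 (.thr 18 30 (.thr 3 33 (.dbl 60 41 56)))))) (.rp 56 (.str 40 (.nv (.thr 23 20 (.thr 37 7 (.thr 26 15 (.thr 30 18 (.thr 31 16 (.thr 28 29 (.dbl 19 25 27))))))) (.nv (.thr 7 37 (.thr 23 20 (.thr 55 39 (.thr 53 54 (.thr 63 58 (.thr 29 46 (.thr 25 17 (.dbl 51 38 59)))))))) (.nv (.thr 37 7 (.thr 26 15 (.thr 18 30 (.thr 3 33 (.thr 6 9 (.thr 54 38 (.dbl 53 5 55))))))) (.rp 37 (.str 60 (.nv (.thr 3 41 (.thr 23 20 (.thr 63 43 (.thr 53 58 (.thr 54 55 (.dbl 6 9 38)))))) (.nv (.thr 23 20 (.thr 28 44 (.thr 19 25 (.thr 31 27 (.thr 26 16 (.dbl 30 18 29)))))) (.nv (.thr 28 44 (.thr 25 19 (.thr 38 51 (.thr 6 54 (.dbl 3 9 41))))) (.rp 28 (.thr 3 41 (.thr 6 9 (.thr 54 38 (.thr 53 55 (.thr 63 58 (.dbl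 23 20 43)))))) .nd))))) (.rp 7 (.str 6 (.nv (.thr 23 20 (.thr 54 38 (.thr 53 55 (.thr 63 58 (.dbl 3 9 43))))) (.nv (.thr 3 9 (.thr 18 33 (.thr 26 30 (.thr 38 54 (.thr 14 50 (.dbl 15 13 37)))))) (.nv (.thr 23 20 (.thr 3 9 (.thr 41 60 (.dbl 43 42 63)))) (.rp 9 (.thr 54 38 (.thr 53 55 (.thr 37 5 (.thr 58 63 (.thr 62 50 (.thr 42 2 (.dbl 26 10 15))))))) (.rp 3 (.thr 38 54 (.thr 23 20 (.thr 25 51 (.thr 17 29 (.thr 19 28 (.thr 16 18 (.dbl 31 26 27))))))) .nd)))))) .nd)))))) (.rp 40 (.thr 56 60 (.thr 20 23 (.thr 37 7 (.thr 26 15 (.thr 30 18 (.thr 31 16 (.thr 29 28 (.thr 63 46 (.dbl 53 5 58))))))))) (.rp 37 (.thr 60 56 (.str 40 (.nv (.thr 3 41 (.thr 23 20 (.thr 63 43 (.thr 53 58 (.thr 54 55 (.dbl 6 9 38)))))) (.nv (.thr 23 20 (.thr 28 44 (.thr 19 25 (.thr 31 27 (.thr 26 16 (.dbl 30 18 29))))))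 (.nv (.thr 28 44 (.thr 25 19 (.thr 38 51 (.thr 6 54 (.dbl 3 9 41))))) (.rp 28 (.thr 3 41 (.thr 6 9 (.thr 54 38 (.thr 53 55 (.thr 63 58 (.dbl 23 20 43)))))) .nd)))))) (.rp 26 (.thr 23 20 (.thr 7 37 (.thr 55 39 (.thr 53 54 (.thr 63 58 (.thr 3 43 (.dbl 60 41 56))))))) (.rp 7 (.str 6 (.nv (.thr 38 54 (.thr 25 51 (.thr 28 19 (.dbl 60 44 56)))) (.nv (.thr 3 9 (.dbl 60 41 56)) (.rp 60 (.thr 54 38 (.thr 53 55 (.thr 63 58 (.thr 3 9 (.dbl 23 20 43))))) (.rp 56 (.str 40 (.nv (.thr 23 20 (.thr 54 38 (.thr 53 55 (.thr 63 58 (.dbl 3 9 43))))) (.nv (.thr 3 9 (.thr 18 33 (.thr 26 30 (.thr 38 54 (.thr 14 50 (.dbl 15 13 37)))))) (.nv (.thr 23 20 (.thr 3 9 (.thr 41 60 (.dbl 43 42 63)))) (.rp 9 (.thr 54 38 (.thr 53 55 (.thr 37 5 (.thr 58 63 (.thr 62 50 (.thr 42 2 (.dbl 26 10 15))))))) (.rp 3 (.thr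 38 54 (.thr 23 20 (.thr 25 51 (.thr 17 29 (.thr 19 28 (.thr 16 18 (.dbl 31 26 27))))))) .nd)))))) (.rp 40 (.thr 56 60 (.thr 20 23 (.thr 38 54 (.thr 51 25 (.thr 50 49 (.thr 26 14 (.thr 18 30 (.dbl 3 9 33)))))))) (.rp 3 (.thr 54 38 (.thr 53 55 (.thr 58 63 (.thr 50 62 (.thr 51 49 (.dbl 60 56 57)))))) .nd))))))) .nd))))))))) (.rp 7 (.thr 23 20 (.thr 60 56 (.thr 3 41 (.thr 18 33 (.thr 63 43 (.thr 53 58 (.thr 26 30 (.dbl 37 5 15)))))))) (.rp 3 (.thr 37 7 (.thr 56 60 (.thr 26 15 (.thr 11 41 (.thr 31 16 (.thr 30 18 (.thr 28 29 (.thr 19 25 (.dbl 23 20 27))))))))) .nd))))))))))) .nd)))))))))))))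

theorem w42 : WinAt (6291456, 16777217) :=
  chF (K := []) kn c42 6291456 16777217 24
    [] (by decide +kernel) (by decide +kernel)

end Pool.Agent.TTT.B43
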