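import Pool.Agent.TTT.B43

/-!
Certified forced wins in positions of the 4 x 4 x 4 board.
-/

set_option autoImplicit false
set_option maxRecDepth 1000000
set_option linter.all false

namespace Pool.Agent.TTT.B43

/-- A certificate. -/
noncomputable def c43 : Ct := (.str 7 (.nv (.thr 23 20 (.thr 55 39 (.thr 4 38 (.thr 37 52 (.dbl 5 6 53))))) (.nv (.thr 20 23 (.thr 52 37 (.thr 4 36 (.thr 38 55 (.dbl 6 5 54))))) (.rp 55 (.str 3 (.nv (.thr 15 11 (.thr 23 20 (.thr 60 41 (.thr 30 45 (.thr 26 18 (.thr 63 43 (.dbl 31 16 47))))))) (.nv (.thr 15 11 (.thr 23 20 (.thr 37 52 (.thr 53 5 (.thr 63 43 (.dbl 48 26 58)))))) (.nv (.thr 15 11 (.thr 60 41 (.thr 30 45 (.thr 26 18 (.dbl 37 48 52))))) (.rp 60 (.thr 37 52 (.thr 53 5 (.thr 15 11 (.thr 48 26 (.thr 63 58 (.dbl 23 20 43)))))) (.rp 37 (.thr 23 20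 (.thr 15 11 (.thr 63 43 (.thr 31 47 (.thr 26 16 (.thr 30 18 (.dbl 60 41 45))))))) (.rp 26 (.thr 23 20 (.thr 37 52 (.thr 53 5 (.thr 63 43 (.thr 48 58 (.thr 33 18 (.dbl 41 45 60))))))) (.rp 15 (.thr 23 20 (.thr 52 37 (.thr 63 43 (.thr 60 41 (.thr 62 61 (.thr 48 56 (.thr 58 53 (.thr 54 50 (.thr 6 38 (.thr 5 4 (.thr 42 2 (.thr 26 10 (.dbl 18 30 33))))))))))))) (.rp 11 (.thr 23 20 (.thr 37 52 (.thr 53 5 (.thr 63 43 (.thr 48 58 (.thr 18 33 (.dbl 26 15 30))))))) .nd))))))))) (.rp 52 (.str 60 (.nv (.thr 3 41 (.thr 15 11 (.thr 23 20 (.thr 30 45 (.thr 26 18 (.thr 31 16 (.thr 39 55 (.dbl 27 19 51)))))))) (.nv (.thr 3 41 (.thr 15 11 (.thr 30 45 (.thr 26 18 (.thr 31 16 (.thr 63 47 (.dbl 23 20 43))))))) (.nv (.thr 3 41 (.thr 23 20 (.thr 39 55 (.thr 43 63 (.thr 35 47 (.thr 51 19 (.dbl 15 11 27)))))))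 (.rp 57 (.thr 20 23 (.str 12 (.nv (.thr 28 44 (.thr 16 24 (.thr 26 31 (.thr 30 18 (.thr 15 45 (.dbl 3 11 41)))))) (.nv (.thr 41 3 (.thr 44 28 (.thr 38 35 (.thr 6 54 (.dbl 4 5 55))))) (.rp 44 (.thr 3 41 (.thr 9 6 (.thr 15 11 (.thr 13 14 (.thr 30 45 (.thr 26 18 (.thr 37 48 (.dbl 5 1 53)))))))) (.rp 41 (.str 9 (.nv (.thr 6 3 (.thr 38 54 (.dbl 4 5 55))) (.rp 63 (.thr 28 44 (.thr 3 6 (.thr 15 11 (.thr 30 45 (.thr 31 29 (.dbl 26 16 18)))))) (.rp 55 (.thr 28 44 (.thr 3 6 (.thr 15 11 (.thr 30 45 (.thr 31 29 (.dbl 26 16 18)))))) (.rp 54 (.thr 28 44 (.thr 3 6 (.thr 15 11 (.thr 30 45 (.thr 31 29 (.dbl 26 16 18)))))) (.rp 53 (.thr 6 3 (.thr 4 5 (.dbl 38 54 55))) (.rp 43 (.thr 28 44 (.thr 3 6 (.thr 15 11 (.thr 30 45 (.thr 31 29 (.dbl 26 16 18)))))) (.rp 38 (.thr 3 6 (.thr 15 11 (.thr 30 45 (.thr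 26 18 (.thr 31 16 (.dbl 28 29 44)))))) (.rp 6 (.thr 28 44 (.thr 16 24 (.thr 26 31 (.thr 30 18 (.thr 15 45 (.thr 13 14 (.thr 5 1 (.dbl 37 48 53)))))))) (.rp 5 (.thr 28 44 (.thr 3 6 (.thr 15 11 (.thr 30 45 (.thr 31 29 (.dbl 26 16 18)))))) (.rp 4 (.thr 28 44 (.thr 3 6 (.thr 15 11 (.thr 30 45 (.thr 31 29 (.dbl 26 16 18)))))) (.rp 3 (.thr 28 44 (.thr 16 24 (.thr 26 31 (.thr 30 18 (.thr 15 45 (.thr 14 13 (.thr 38 50 (.thr 4 55 (.dbl 6 5 54))))))))) (.rp 2 (.thr 28 44 (.thr 3 6 (.thr 15 11 (.thr 30 45 (.thr 31 29 (.dbl 26 16 18)))))) (.rp 1 (.thr 28 44 (.thr 3 6 (.thr 15 11 (.thr 30 45 (.thr 31 29 (.dbl 26 16 18)))))) .nd)))))))))))))) (.rp 28 (.thr 3 41 (.thr 9 6 (.thr 15 11 (.thr 13 14 (.thr 30 45 (.thr 26 18 (.thr 37 48 (.dbl 5 1 53)))))))) (.rp 19 (.thr 28 44 (.thr 16 24 (.thr 3 41 (.thr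 9 6 (.thr 15 11 (.thr 30 45 (.dbl 31 26 29))))))) (.rp 3 (.thr 28 44 (.thr 16 24 (.thr 26 31 (.thr 30 18 (.thr 15 45 (.thr 14 13 (.thr 38 50 (.thr 6 54 (.dbl 4 5 55))))))))) .nd))))))))) (.rp 41 (.str 15 (.nv (.thr 30 45 (.thr 23 20 (.thr 55 39 (.thr 4 38 (.thr 5 6 (.thr 37 53 (.dbl 26 18 48))))))) (.nv (.thr 30 45 (.thr 3 11 (.thr 26 18 (.thr 31 16 (.thr 63 47 (.dbl 23 20 43)))))) (.nv (.thr 3 11 (.thr 23 20 (.thr 39 55 (.thr 43 63 (.thr 35 47 (.dbl 51 19 27)))))) (.rp 57 (.str 9 (.nv (.thr 23 20 (.thr 55 39 (.thr 4 38 (.thr 6 5 (.dbl 3 11 12))))) (.nv (.thr 3 11 (.thr 30 45 (.thr 26 18 (.thr 31 16 (.thr 63 47 (.dbl 23 20 43)))))) (.nv (.thr 3 11 (.thr 6 12 (.thr 4 5 (.dbl 38 54 55)))) (.rp 11 (.thr 30 45 (.thr 23 20 (.thr 39 55 (.thr 26 18 (.thr 31 16 (.dbl 27 19 51)))))) (.rp 3 (.thr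 30 45 (.thr 23 20 (.thr 39 55 (.thr 26 18 (.thr 31 16 (.dbl 27 19 51)))))) .nd)))))) (.rp 26 (.thr 23 20 (.thr 39 55 (.thr 27 51 (.thr 31 19 (.thr 63 47 (.dbl 3 11 43)))))) (.rp 23 (.thr 30 45 (.thr 26 18 (.thr 31 16 (.thr 63 47 (.thr 62 61 (.thr 46 14 (.dbl 29 12 28))))))) (.rp 20 (.thr 30 45 (.thr 26 18 (.thr 31 16 (.thr 63 47 (.thr 62 61 (.thr 46 14 (.dbl 29 12 28))))))) (.rp 9 (.str 57 (.nv (.thr 51 54 (.thr 39 27 (.dbl 23 20 55))) (.nv (.thr 23 20 (.thr 54 51 (.thr 38 6 (.dbl 55 4 39)))) (.nv (.thr 23 20 (.thr 39 55 (.dbl 51 27 54))) (.rp 55 (.thr 30 45 (.thr 23 20 (.thr 26 18 (.thr 31 16 (.thr 63 47 (.dbl 3 11 43)))))) (.rp 54 (.thr 30 45 (.thr 23 20 (.thr 26 18 (.thr 31 16 (.thr 63 47 (.dbl 3 11 43)))))) (.rp 51 (.thr 30 45 (.thr 23 20 (.thr 26 18 (.thr 31 16 (.thr 63 47 (.dbl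 3 11 43)))))) (.rp 39 (.thr 30 45 (.thr 23 20 (.thr 26 18 (.thr 31 16 (.thr 63 47 (.dbl 3 11 43)))))) (.rp 23 (.thr 30 45 (.thr 54 51 (.thr 26 18 (.thr 37 48 (.thr 5 53 (.dbl 6 4 38)))))) (.rp 20 (.thr 30 45 (.thr 54 51 (.thr 26 18 (.thr 37 48 (.thr 5 53 (.dbl 6 4 38)))))) .nd)))))))))) .nd))))))))) (.rp 31 (.thr 23 20 (.thr 39 55 (.thr 3 41 (.thr 15 11 (.thr 51 27 (.thr 35 19 (.dbl 43 47 63))))))) (.rp 23 (.thr 3 41 (.thr 15 11 (.thr 30 45 (.thr 26 18 (.thr 31 16 (.thr 29 28 (.thr 63 47 (.thr 62 61 (.dbl 46 12 14))))))))) (.rp 20 (.thr 3 41 (.thr 15 11 (.thr 30 45 (.thr 26 18 (.thr 31 16 (.thr 63 47 (.thr 62 61 (.thr 46 14 (.dbl 29 12 28))))))))) (.rp 19 (.thr 23 20 (.thr 3 41 (.thr 15 11 (.thr 30 45 (.thr 26 18 (.thr 63 43 (.dbl 31 16 47))))))) (.rp 15 (.thr 23 20 (.thr 55 39 (.thr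 4 38 (.thr 5 6 (.thr 3 41 (.thr 63 43 (.thr 61 62 (.thr 51 59 (.thr 57 54 (.dbl 53 37 49)))))))))) (.rp 11 (.thr 23 20 (.thr 55 39 (.thr 4 38 (.thr 5 6 (.thr 37 53 (.thr 3 41 (.thr 63 43 (.thr 62 61 (.thr 42 2 (.thr 47 32 (.thr 15 31 (.thr 30 45 (.dbl 26 18 48))))))))))))) (.rp 9 (.str 54 (.nv (.thr 23 20 (.thr 55 39 (.dbl 38 4 6))) (.rp 57 (.thr 41 3 (.thr 23 20 (.thr 55 39 (.dbl 38 4 6)))) (.rp 55 (.thr 23 20 (.thr 57 51 (.thr 3 41 (.thr 15 11 (.thr 30 45 (.thr 26 18 (.thr 31 16 (.dbl 63 43 47)))))))) (.rp 41 (.thr 57 51 (.thr 23 20 (.thr 38 6 (.dbl 55 4 39)))) (.rp 39 (.thr 23 20 (.thr 57 51 (.thr 3 41 (.thr 15 11 (.thr 30 45 (.thr 26 18 (.thr 31 16 (.dbl 63 43 47)))))))) (.rp 38 (.thr 23 20 (.thr 55 39 (.thr 51 57 (.thr 41 3 (.thr 63 59 (.dbl 61 1 62)))))) (.rp 36 (.thr 57 51 (.thr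 3 41 (.thr 15 11 (.thr 30 45 (.thr 26 18 (.thr 31 16 (.thr 63 47 (.dbl 23 20 43)))))))) (.rp 23 (.thr 57 51 (.thr 3 41 (.thr 15 11 (.thr 30 45 (.thr 26 18 (.thr 37 48 (.thr 5 53 (.dbl 6 4 38)))))))) (.rp 20 (.thr 57 51 (.thr 3 41 (.thr 15 11 (.thr 30 45 (.thr 26 18 (.thr 37 48 (.thr 5 53 (.dbl 6 4 38)))))))) (.rp 6 (.thr 23 20 (.thr 57 51 (.thr 3 41 (.thr 15 11 (.thr 30 45 (.thr 26 18 (.thr 31 16 (.dbl 63 43 47)))))))) (.rp 4 (.thr 57 51 (.thr 3 41 (.thr 15 11 (.thr 30 45 (.thr 26 18 (.thr 31 16 (.thr 63 47 (.dbl 23 20 43)))))))) .nd)))))))))))) (.rp 3 (.str 55 (.nv (.dbl 23 20 39) (.rp 39 (.str 30 (.nv (.thr 26 18 (.thr 38 4 (.thr 6 54 (.thr 14 50 (.thr 62 46 (.dbl 2 10 42)))))) (.nv (.thr 4 38 (.thr 5 6 (.thr 37 53 (.thr 15 45 (.dbl 26 18 48))))) (.rp 48 (.thr 38 4 (.thr 54 6 (.thr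 15 45 (.thr 51 57 (.thr 63 59 (.thr 31 47 (.dbl 26 16 18))))))) (.rp 38 (.thr 15 45 (.thr 26 18 (.thr 31 16 (.thr 29 28 (.thr 63 47 (.thr 62 61 (.dbl 46 12 14))))))) (.rp 36 (.thr 20 23 (.thr 38 4 (.thr 6 54 (.thr 26 18 (.thr 14 50 (.thr 62 46 (.dbl 2 10 42))))))) (.rp 26 (.thr 38 4 (.thr 54 6 (.thr 51 57 (.thr 63 59 (.thr 62 61 (.thr 46 14 (.dbl 42 2 34))))))) (.rp 18 (.thr 38 4 (.thr 54 6 (.thr 51 57 (.thr 63 59 (.thr 62 61 (.thr 14 46 (.dbl 50 26 58))))))) (.rp 12 (.thr 15 45 (.thr 26 18 (.thr 31 16 (.thr 63 47 (.thr 51 59 (.thr 54 57 (.dbl 38 4 6))))))) (.rp 6 (.thr 38 4 (.thr 15 45 (.thr 26 18 (.thr 31 16 (.thr 28 29 (.thr 12 44 (.dbl 14 13 50))))))) (.rp 4 (.thr 15 45 (.thr 26 18 (.thr 31 16 (.thr 29 28 (.thr 63 47 (.thr 62 61 (.dbl 46 12 14))))))) (.rp 2 (.str 1 (.nv (.thr 38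 4 (.thr 54 6 (.thr 51 57 (.thr 63 59 (.dbl 61 41 62))))) (.nv (.thr 15 45 (.thr 26 18 (.thr 31 16 (.thr 63 47 (.dbl 61 41 62))))) (.nv (.thr 4 38 (.thr 5 6 (.thr 15 45 (.thr 37 53 (.dbl 26 18 48))))) .nd)))) (.rp 1 (.str 2 (.nv (.thr 26 18 (.thr 38 4 (.thr 6 54 (.dbl 14 10 50)))) (.nv (.thr 38 4 (.thr 6 54 (.thr 62 42 (.dbl 14 10 46)))) (.nv (.thr 15 45 (.thr 26 18 (.thr 31 16 (.thr 62 42 (.dbl 63 47 61))))) (.nv (.thr 18 26 (.thr 42 62 (.thr 34 50 (.dbl 38 4 46)))) .nd))))) .nd))))))))))))) (.rp 23 (.str 63 (.nv (.thr 51 59 (.thr 54 57 (.dbl 38 4 6))) (.nv (.thr 38 4 (.thr 54 6 (.dbl 51 57 59))) (.rp 59 (.thr 38 4 (.thr 54 6 (.thr 62 61 (.thr 50 58 (.thr 14 26 (.thr 46 30 (.dbl 42 2 34))))))) (.rp 57 (.thr 38 4 (.thr 54 6 (.thr 62 61 (.thr 50 58 (.thr 14 26 (.thr 46 30 (.dbl 42 2 34)))))))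 (.rp 54 (.thr 4 38 (.thr 5 6 (.thr 53 37 (.thr 61 62 (.thr 49 57 (.thr 51 59 (.dbl 48 50 58))))))) (.rp 51 (.thr 38 4 (.thr 54 6 (.thr 62 61 (.thr 50 58 (.thr 14 26 (.thr 46 30 (.dbl 42 2 34))))))) (.rp 38 (.thr 61 62 (.str 29 (.nv (.thr 12 46 (.thr 28 44 (.thr 30 31 (.dbl 45 13 15)))) (.nv (.thr 1 41 (.thr 13 45 (.thr 51 59 (.thr 5 9 (.thr 57 54 (.dbl 53 37 49)))))) (.nv (.thr 45 13 (.thr 15 30 (.thr 47 31 (.dbl 46 12 44)))) (.rp 45 (.str 31 (.nv (.thr 51 59 (.thr 26 16 (.dbl 30 18 28))) (.nv (.thr 28 30 (.dbl 12 44 46)) (.rp 51 (.thr 12 46 (.dbl 28 30 44)) (.rp 30 (.thr 15 47 (.thr 26 16 (.thr 48 37 (.thr 51 59 (.thr 49 50 (.dbl 53 57 58)))))) (.rp 28 (.thr 15 47 (.thr 26 16 (.thr 48 37 (.thr 51 59 (.thr 49 50 (.dbl 53 57 58)))))) (.rp 2 (.thr 1 41 (.thr 28 30 (.dbl 12 44 46))) (.rp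 1 (.str 2 (.nv (.thr 12 46 (.dbl 28 30 44)) (.nv (.thr 30 28 (.dbl 26 16 18)) (.rp 30 (.thr 15 47 (.thr 26 16 (.thr 48 37 (.thr 53 58 (.thr 51 59 (.dbl 49 50 57)))))) (.rp 28 (.thr 15 47 (.thr 26 16 (.thr 18 30 (.thr 50 34 (.thr 48 37 (.dbl 51 49 59)))))) (.rp 12 (.thr 51 59 (.thr 30 28 (.dbl 26 16 18))) .nd)))))) .nd)))))))) (.rp 44 (.thr 45 13 (.thr 30 15 (.thr 31 28 (.dbl 26 16 18)))) (.rp 13 (.thr 12 46 (.thr 28 44 (.thr 30 31 (.thr 26 18 (.thr 51 59 (.thr 57 54 (.thr 53 49 (.thr 37 5 (.dbl 15 45 48))))))))) (.rp 12 (.thr 51 59 (.thr 13 45 (.thr 57 54 (.thr 53 49 (.thr 5 37 (.dbl 1 9 41)))))) (.rp 1 (.str 2 (.nv (.thr 45 13 (.thr 15 30 (.thr 46 12 (.thr 51 59 (.dbl 47 31 44))))) (.nv (.thr 45 13 (.thr 30 15 (.thr 26 18 (.dbl 31 16 28)))) (.nv (.thr 12 46 (.thr 28 44 (.thr 30 31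 (.dbl 45 13 15)))) (.rp 45 (.thr 51 59 (.thr 57 54 (.thr 49 53 (.thr 50 48 (.thr 18 34 (.thr 30 26 (.thr 28 31 (.dbl 12 44 46)))))))) (.rp 31 (.thr 45 13 (.thr 30 15 (.thr 18 26 (.thr 50 34 (.thr 51 59 (.thr 57 54 (.dbl 49 48 53))))))) (.rp 30 (.thr 13 45 (.thr 12 46 (.thr 14 15 (.thr 6 10 (.thr 5 4 (.thr 53 37 (.thr 51 59 (.dbl 57 49 54)))))))) (.rp 15 (.thr 12 46 (.thr 28 44 (.thr 30 31 (.thr 18 26 (.thr 51 59 (.thr 57 54 (.thr 49 53 (.dbl 50 34 48)))))))) (.rp 13 (.thr 12 46 (.thr 28 44 (.thr 30 31 (.thr 18 26 (.thr 51 59 (.thr 57 54 (.thr 49 53 (.dbl 50 34 48)))))))) (.rp 12 (.thr 51 59 (.thr 45 13 (.thr 57 54 (.thr 49 53 (.thr 50 48 (.thr 18 34 (.dbl 30 15 26))))))) .nd)))))))))) .nd)))))))))) (.rp 9 (.thr 38 4 (.thr 51 59 (.dbl 54 6 57))) (.rp 8 (.thr 4 38 (.thr 5 6 (.thr 53 37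 (.thr 61 62 (.thr 49 57 (.thr 48 58 (.dbl 51 50 59))))))) (.rp 6 (.thr 38 4 (.thr 61 62 (.thr 51 59 (.thr 57 54 (.thr 49 53 (.thr 50 48 (.thr 26 14 (.thr 16 31 (.thr 1 41 (.thr 17 33 (.dbl 18 19 30))))))))))) (.rp 4 (.thr 61 62 (.str 12 (.nv (.thr 1 41 (.thr 29 46 (.thr 45 13 (.thr 30 15 (.thr 26 18 (.dbl 31 16 28)))))) (.nv (.thr 44 28 (.thr 51 59 (.thr 54 57 (.thr 38 6 (.dbl 41 1 35))))) (.nv (.thr 29 46 (.thr 45 13 (.thr 28 44 (.dbl 30 15 31)))) (.rp 36 (.str 20 (.nv (.thr 1 41 (.thr 29 46 (.thr 45 13 (.thr 30 15 (.thr 26 18 (.dbl 31 16 28)))))) (.nv (.thr 44 28 (.thr 51 59 (.thr 54 57 (.thr 38 6 (.dbl 41 1 35))))) (.nv (.thr 28 44 (.thr 29 46 (.thr 30 31 (.dbl 45 13 15)))) (.rp 28 (.thr 29 46 (.thr 13 45 (.thr 51 59 (.thr 57 54 (.thr 53 49 (.thr 5 37 (.dbl 1 9 41))))))) (.rp 1 (.str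 2 (.nv (.thr 29 46 (.thr 45 13 (.thr 30 15 (.thr 26 18 (.dbl 31 16 28))))) (.nv (.thr 28 44 (.thr 16 24 (.thr 29 46 (.dbl 31 26 30)))) (.nv (.thr 29 46 (.thr 13 45 (.thr 14 15 (.thr 51 59 (.thr 54 57 (.dbl 6 10 38)))))) (.nv (.thr 28 44 (.thr 29 46 (.thr 30 31 (.dbl 45 13 15)))) (.rp 46 (.thr 28 44 (.thr 16 24 (.thr 26 31 (.thr 51 59 (.thr 57 54 (.thr 53 49 (.thr 37 5 (.dbl 48 15 58)))))))) (.rp 45 (.thr 28 44 (.thr 16 24 (.thr 26 31 (.thr 18 30 (.thr 50 34 (.thr 51 59 (.thr 49 48 (.dbl 57 53 54)))))))) (.rp 30 (.thr 51 59 (.thr 54 57 (.thr 6 38 (.thr 29 46 (.thr 14 10 (.dbl 13 15 45)))))) (.rp 29 (.thr 28 44 (.thr 16 24 (.thr 26 31 (.thr 30 18 (.thr 15 45 (.thr 14 13 (.thr 6 10 (.dbl 38 50 54)))))))) .nd))))))))) .nd)))))) (.rp 28 (.thr 29 46 (.thr 45 13 (.thr 51 59 (.thr 57 54 (.thr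 53 49 (.thr 37 5 (.dbl 41 1 33))))))) (.rp 20 (.str 36 (.nv (.thr 1 41 (.thr 51 59 (.thr 57 54 (.thr 49 53 (.dbl 48 24 50))))) (.nv (.thr 28 44 (.thr 29 46 (.thr 30 31 (.dbl 45 13 15)))) (.rp 1 (.str 2 (.nv (.thr 51 59 (.thr 57 54 (.thr 49 53 (.dbl 48 24 50)))) (.nv (.thr 28 44 (.thr 29 46 (.thr 30 31 (.dbl 45 13 15)))) .nd))) .nd)))) (.rp 1 (.str 2 (.nv (.thr 51 59 (.thr 54 57 (.thr 6 38 (.thr 14 10 (.thr 29 46 (.dbl 13 15 45)))))) (.nv (.thr 28 44 (.thr 29 46 (.thr 30 31 (.dbl 45 13 15)))) (.rp 46 (.thr 51 59 (.thr 54 57 (.thr 6 38 (.thr 14 10 (.thr 15 13 (.thr 31 47 (.thr 26 16 (.dbl 30 18 45)))))))) (.rp 45 (.thr 28 44 (.thr 51 59 (.thr 57 54 (.thr 49 53 (.thr 50 48 (.thr 18 34 (.thr 30 26 (.dbl 29 31 46)))))))) (.rp 36 (.str 20 (.nv (.thr 29 46 (.thr 45 13 (.thr 30 15 (.thr 26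 18 (.dbl 31 16 28))))) (.nv (.thr 28 44 (.thr 16 24 (.thr 29 46 (.dbl 31 26 30)))) (.nv (.thr 29 46 (.thr 13 45 (.thr 14 15 (.thr 51 59 (.thr 54 57 (.dbl 6 10 38)))))) (.nv (.thr 28 44 (.thr 29 46 (.thr 30 31 (.dbl 45 13 15)))) (.rp 46 (.thr 28 44 (.thr 16 24 (.thr 26 31 (.thr 51 59 (.thr 57 54 (.thr 53 49 (.thr 37 5 (.dbl 48 15 58)))))))) (.rp 45 (.thr 28 44 (.thr 16 24 (.thr 26 31 (.thr 18 30 (.thr 50 34 (.thr 51 59 (.thr 49 48 (.dbl 57 53 54)))))))) (.rp 30 (.thr 51 59 (.thr 54 57 (.thr 6 38 (.thr 29 46 (.thr 14 10 (.dbl 13 15 45)))))) (.rp 29 (.thr 28 44 (.thr 16 24 (.thr 26 31 (.thr 30 18 (.thr 15 45 (.thr 14 13 (.thr 6 10 (.dbl 38 50 54)))))))) .nd))))))))) (.rp 29 (.thr 51 59 (.thr 54 57 (.thr 6 38 (.thr 14 10 (.thr 15 13 (.thr 31 47 (.thr 30 45 (.dbl 26 16 18)))))))) (.rp 20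 (.str 36 (.nv (.thr 51 59 (.thr 57 54 (.thr 49 53 (.dbl 48 24 50)))) (.nv (.thr 28 44 (.thr 29 46 (.thr 30 31 (.dbl 45 13 15)))) .nd))) (.rp 15 (.thr 28 44 (.thr 29 46 (.thr 30 31 (.thr 18 26 (.thr 50 34 (.thr 51 59 (.thr 57 54 (.dbl 49 48 53)))))))) (.rp 13 (.thr 28 44 (.thr 29 46 (.thr 30 31 (.thr 18 26 (.thr 50 34 (.thr 51 59 (.thr 49 48 (.dbl 57 53 54)))))))) .nd)))))))))) .nd))))))))) (.rp 2 (.str 1 (.nv (.thr 38 4 (.thr 51 59 (.dbl 54 6 57))) (.nv (.dbl 61 41 62) .nd))) (.rp 1 (.str 2 (.nv (.thr 38 4 (.thr 54 6 (.dbl 51 57 59))) (.nv (.dbl 62 42 61) .nd))) .nd)))))))))))))) (.rp 20 (.thr 39 23 (.thr 38 4 (.thr 36 37 (.thr 54 6 (.thr 51 57 (.thr 15 27 (.thr 30 45 (.thr 26 18 (.thr 31 16 (.dbl 63 47 59)))))))))) (.rp 2 (.str 1 (.nv (.dbl 23 20 39) (.rp 39 (.thr 38 4 (.thr 54 6 (.thr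 61 41 (.thr 63 62 (.dbl 51 57 59))))) (.rp 23 (.thr 38 4 (.thr 54 6 (.thr 61 41 (.thr 63 62 (.dbl 51 57 59))))) (.rp 20 (.thr 39 23 (.thr 38 4 (.thr 36 37 (.thr 54 6 (.thr 61 41 (.thr 63 62 (.dbl 51 57 59))))))) .nd))))) (.rp 1 (.str 2 (.nv (.dbl 23 20 39) (.rp 39 (.thr 38 4 (.thr 54 6 (.thr 62 42 (.thr 63 61 (.dbl 51 57 59))))) (.rp 23 (.thr 38 4 (.thr 54 6 (.thr 62 42 (.thr 63 61 (.dbl 51 57 59))))) (.rp 20 (.thr 39 23 (.thr 38 4 (.thr 36 37 (.thr 54 6 (.thr 62 42 (.thr 63 61 (.dbl 51 57 59))))))) .nd))))) .nd))))))) .nd)))))))))))))) (.rp 38 (.str 3 (.nv (.thr 37 52 (.thr 5 53 (.thr 6 4 (.thr 41 60 (.thr 1 61 (.dbl 9 12 13)))))) (.nv (.thr 23 20 (.thr 39 55 (.thr 15 11 (.thr 63 43 (.thr 31 47 (.dbl 27 19 51)))))) (.nv (.thr 15 11 (.thr 37 52 (.thr 26 48 (.thr 30 18 (.dbl 60 41 45)))))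 (.rp 60 (.thr 37 52 (.thr 53 5 (.thr 15 11 (.thr 48 26 (.thr 63 58 (.dbl 23 20 43)))))) (.rp 51 (.str 12 (.nv (.thr 9 6 (.thr 15 11 (.thr 13 14 (.thr 1 5 (.dbl 41 60 61))))) (.nv (.thr 15 11 (.thr 37 52 (.thr 26 48 (.thr 30 18 (.dbl 60 41 45))))) (.nv (.thr 6 9 (.thr 5 4 (.dbl 37 52 53))) (.rp 41 (.thr 37 52 (.thr 5 53 (.dbl 6 4 9))) (.rp 34 (.str 17 (.nv (.thr 9 6 (.thr 15 11 (.thr 13 14 (.thr 1 5 (.dbl 41 60 61))))) (.nv (.thr 15 11 (.thr 37 52 (.thr 26 48 (.thr 16 31 (.dbl 18 19 30))))) (.nv (.thr 6 9 (.thr 5 4 (.dbl 37 52 53))) (.rp 46 (.str 42 (.nv (.thr 23 20 (.thr 43 63 (.dbl 41 40 60))) (.nv (.thr 6 9 (.thr 5 4 (.dbl 37 52 53))) (.rp 41 (.thr 37 52 (.thr 5 53 (.dbl 6 4 9))) .nd)))) (.rp 42 (.str 46 (.nv (.thr 6 9 (.thr 5 4 (.dbl 37 52 53))) (.nv (.thr 63 29 (.dbl 23 20 43))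 (.rp 59 (.str 8 (.nv (.thr 9 6 (.dbl 11 10 15)) (.nv (.thr 63 29 (.dbl 23 20 43)) (.rp 63 (.str 55 (.nv (.thr 9 6 (.dbl 11 10 15)) (.nv (.dbl 23 20 39) .nd))) .nd)))) (.rp 8 (.str 59 (.nv (.thr 6 9 (.thr 5 4 (.dbl 37 52 53))) (.nv (.thr 63 29 (.dbl 23 20 43)) .nd))) .nd))))) .nd)))))) (.rp 17 (.str 34 (.nv (.thr 9 6 (.thr 15 11 (.thr 13 14 (.thr 1 5 (.dbl 41 60 61))))) (.nv (.thr 15 11 (.thr 37 52 (.thr 26 48 (.thr 30 18 (.dbl 60 41 45))))) (.nv (.thr 6 9 (.thr 5 4 (.dbl 37 52 53))) (.rp 41 (.thr 37 52 (.thr 5 53 (.dbl 6 4 9))) .nd))))) .nd))))))) (.rp 12 (.str 51 (.nv (.thr 23 20 (.thr 55 39 (.dbl 63 43 59))) (.nv (.thr 15 11 (.thr 37 52 (.thr 26 48 (.thr 30 18 (.dbl 60 41 45))))) (.nv (.thr 23 20 (.thr 39 55 (.dbl 15 11 27))) (.rp 60 (.thr 15 11 (.thr 39 27 (.dbl 23 20 55))) (.rp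 8 (.str 4 (.nv (.thr 5 6 (.dbl 37 52 53)) (.nv (.thr 15 11 (.thr 23 20 (.dbl 39 27 55))) (.nv (.thr 20 23 (.dbl 52 36 37)) (.rp 59 (.str 42 (.nv (.thr 15 11 (.thr 23 20 (.dbl 39 27 55))) (.nv (.thr 37 52 (.dbl 5 6 53)) .nd))) (.rp 42 (.str 59 (.nv (.thr 23 20 (.dbl 55 39 63)) (.nv (.thr 37 52 (.dbl 5 6 53)) (.rp 46 (.str 34 (.nv (.thr 37 52 (.dbl 5 6 53)) (.nv (.thr 63 55 (.dbl 23 20 43)) (.rp 63 (.str 29 (.nv (.thr 15 11 (.thr 23 20 (.dbl 39 27 55))) (.nv (.thr 5 6 (.dbl 37 52 53)) .nd))) .nd)))) (.rp 34 (.str 46 (.nv (.thr 5 6 (.dbl 37 52 53)) (.nv (.thr 55 63 (.dbl 23 20 39)) .nd))) .nd))))) .nd)))))) (.rp 4 (.str 8 (.nv (.thr 23 20 (.thr 55 39 (.dbl 63 43 59))) (.nv (.thr 15 11 (.thr 39 27 (.dbl 23 20 55))) (.nv (.thr 15 11 (.thr 60 41 (.thr 30 45 (.thr 26 18 (.dbl 37 48 52)))))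 (.nv (.thr 23 20 (.thr 39 55 (.dbl 15 11 27))) .nd))))) .nd))))))) .nd))))))) (.rp 37 (.thr 23 20 (.str 3 (.nv (.thr 15 11 (.thr 39 55 (.thr 27 51 (.thr 31 19 (.thr 26 16 (.thr 60 41 (.dbl 30 18 45))))))) (.nv (.thr 11 15 (.thr 43 63 (.thr 41 60 (.thr 40 42 (.thr 26 56 (.thr 31 16 (.dbl 27 19 59))))))) (.nv (.thr 55 39 (.thr 38 4 (.thr 54 6 (.thr 60 41 (.thr 63 43 (.dbl 51 57 59)))))) (.nv (.thr 39 55 (.thr 15 11 (.thr 51 27 (.thr 43 63 (.dbl 35 19 47))))) (.rp 63 (.thr 55 39 (.thr 38 4 (.thr 54 6 (.thr 52 53 (.thr 15 11 (.thr 60 41 (.thr 57 51 (.thr 56 48 (.thr 58 59 (.thr 50 62 (.thr 26 14 (.dbl 30 18 45)))))))))))) (.rp 60 (.str 40 (.nv (.thr 11 15 (.thr 43 63 (.thr 41 42 (.thr 26 56 (.thr 31 16 (.dbl 27 19 59)))))) (.nv (.thr 15 11 (.thr 39 55 (.thr 43 63 (.thr 51 27 (.dbl 35 19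 47))))) (.nv (.thr 15 11 (.thr 39 55 (.thr 63 43 (.thr 31 47 (.dbl 27 19 51))))) (.rp 63 (.str 62 (.nv (.thr 42 2 (.thr 55 39 (.thr 38 4 (.thr 46 34 (.thr 54 6 (.thr 50 58 (.dbl 14 26 30))))))) (.nv (.thr 15 11 (.thr 42 2 (.thr 39 55 (.thr 51 27 (.thr 35 19 (.dbl 43 41 47)))))) (.rp 55 (.thr 11 15 (.thr 42 2 (.thr 41 43 (.thr 26 56 (.thr 30 18 (.thr 14 46 (.thr 50 38 (.dbl 58 10 54)))))))) (.rp 51 (.thr 55 39 (.thr 38 4 (.thr 54 6 (.thr 42 2 (.thr 50 58 (.thr 14 26 (.dbl 46 30 34))))))) (.rp 49 (.str 13 (.nv (.thr 15 11 (.thr 12 14 (.thr 9 6 (.thr 1 5 (.thr 41 61 (.dbl 42 2 43)))))) (.nv (.thr 42 2 (.thr 41 43 (.thr 1 61 (.thr 5 9 (.thr 4 6 (.dbl 55 38 39)))))) (.nv (.thr 15 11 (.thr 39 55 (.thr 42 2 (.thr 51 27 (.thr 35 19 (.dbl 43 41 47)))))) (.nv (.thr 15 11 (.thr 12 14 (.thr 55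 39 (.thr 38 4 (.dbl 6 9 54))))) .nd))))) (.rp 42 (.thr 55 39 (.thr 38 4 (.thr 54 6 (.thr 11 15 (.thr 50 58 (.thr 26 14 (.thr 41 56 (.thr 31 16 (.thr 35 44 (.dbl 19 27 51)))))))))) (.rp 39 (.thr 11 15 (.thr 42 2 (.thr 41 43 (.thr 26 56 (.thr 10 58 (.thr 9 8 (.thr 6 12 (.thr 4 5 (.dbl 38 54 55))))))))) (.rp 26 (.thr 39 55 (.thr 42 2 (.thr 43 41 (.thr 35 47 (.thr 51 19 (.dbl 15 11 27)))))) (.rp 13 (.str 49 (.nv (.thr 42 2 (.thr 41 43 (.thr 55 39 (.thr 38 4 (.thr 54 6 (.thr 61 1 (.dbl 53 52 57))))))) (.nv (.thr 55 39 (.thr 38 4 (.thr 54 6 (.thr 50 58 (.thr 48 51 (.thr 18 33 (.dbl 26 14 30))))))) (.nv (.thr 11 15 (.thr 42 2 (.thr 41 43 (.thr 1 61 (.thr 26 56 (.thr 33 17 (.dbl 18 30 48))))))) (.nv (.thr 42 2 (.thr 55 39 (.thr 38 4 (.thr 46 34 (.thr 54 6 (.thr 50 58 (.dbl 14 26 30))))))) (.nv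 (.thr 39 55 (.thr 15 11 (.thr 51 27 (.thr 35 19 (.thr 43 47 (.dbl 42 2 41)))))) .nd)))))) (.rp 2 (.thr 55 39 (.thr 38 4 (.thr 54 6 (.thr 15 11 (.thr 50 58 (.thr 14 26 (.thr 46 30 (.thr 42 34 (.thr 41 43 (.thr 61 1 (.thr 35 44 (.thr 51 19 (.thr 49 48 (.dbl 53 52 57)))))))))))))) .nd))))))))))) (.rp 49 (.str 13 (.nv (.thr 11 15 (.thr 43 63 (.thr 41 42 (.thr 26 56 (.thr 31 16 (.dbl 27 19 59)))))) (.nv (.thr 15 11 (.thr 12 14 (.thr 55 39 (.thr 38 4 (.dbl 6 9 54))))) (.rp 52 (.thr 15 11 (.thr 12 14 (.thr 6 9 (.thr 4 5 (.dbl 38 54 55))))) (.rp 15 (.thr 43 63 (.thr 42 41 (.thr 62 2 (.thr 55 39 (.thr 38 4 (.thr 46 34 (.thr 54 6 (.thr 50 58 (.dbl 14 26 30))))))))) (.rp 11 (.thr 43 63 (.thr 42 41 (.thr 62 2 (.thr 55 39 (.thr 38 4 (.thr 46 34 (.thr 14 30 (.thr 6 54 (.dbl 12 9 15))))))))) .nd))))))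 (.rp 47 (.thr 43 63 (.thr 42 41 (.thr 62 2 (.thr 55 39 (.thr 38 4 (.thr 46 34 (.thr 14 30 (.thr 54 6 (.dbl 50 26 58))))))))) (.rp 43 (.str 6 (.nv (.thr 38 54 (.dbl 55 4 39)) (.nv (.thr 4 5 (.dbl 38 54 55)) (.rp 55 (.thr 4 5 (.thr 9 12 (.thr 11 15 (.thr 10 8 (.thr 14 2 (.thr 38 54 (.thr 26 50 (.thr 31 16 (.thr 19 27 (.thr 41 56 (.dbl 35 44 51))))))))))) (.rp 54 (.thr 4 5 (.dbl 55 38 39)) (.rp 49 (.str 13 (.nv (.thr 12 9 (.dbl 15 11 14)) (.nv (.thr 4 5 (.dbl 38 54 55)) (.rp 15 (.thr 5 4 (.dbl 9 1 12)) .nd)))) (.rp 38 (.thr 12 9 (.thr 15 11 (.thr 39 55 (.thr 27 51 (.thr 31 19 (.thr 26 16 (.thr 63 47 (.thr 29 46 (.dbl 30 18 28))))))))) (.rp 13 (.str 49 (.nv (.thr 4 5 (.dbl 55 38 39)) (.nv (.thr 38 54 (.dbl 4 5 55)) (.rp 55 (.str 48 (.nv (.thr 18 33 (.thr 26 30 (.thr 38 54 (.dbl 50 14 51))))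 (.nv (.thr 51 50 (.thr 19 35 (.thr 15 11 (.dbl 27 31 39)))) (.rp 51 (.thr 18 33 (.thr 12 9 (.thr 24 36 (.thr 56 8 (.thr 26 30 (.dbl 11 15 41)))))) (.rp 50 (.thr 18 33 (.thr 12 9 (.thr 24 36 (.thr 56 8 (.thr 26 30 (.dbl 11 15 41)))))) (.rp 15 (.thr 51 50 (.thr 18 33 (.thr 19 35 (.thr 16 17 (.dbl 26 30 31))))) .nd)))))) (.rp 38 (.thr 39 55 (.thr 12 9 (.thr 15 11 (.thr 27 51 (.thr 31 19 (.thr 26 16 (.thr 63 47 (.thr 29 46 (.dbl 30 18 28))))))))) (.rp 5 (.thr 38 54 (.dbl 55 4 39)) (.rp 4 (.thr 39 55 (.thr 12 9 (.thr 15 11 (.thr 27 51 (.thr 31 19 (.thr 26 16 (.thr 63 47 (.thr 29 46 (.dbl 30 18 28))))))))) .nd))))))) (.rp 4 (.thr 12 9 (.thr 15 11 (.thr 39 55 (.thr 27 51 (.thr 31 19 (.thr 26 16 (.thr 63 47 (.thr 29 46 (.dbl 30 18 28))))))))) .nd))))))))) (.rp 27 (.thr 43 63 (.thr 42 41 (.thr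 62 2 (.thr 55 39 (.thr 38 4 (.thr 46 34 (.thr 14 30 (.thr 54 6 (.dbl 50 26 58))))))))) (.rp 19 (.thr 43 63 (.thr 42 41 (.thr 62 2 (.thr 55 39 (.thr 38 4 (.thr 46 34 (.thr 14 30 (.thr 54 6 (.dbl 50 26 58))))))))) (.rp 15 (.thr 43 63 (.thr 42 41 (.thr 62 2 (.thr 55 39 (.thr 38 4 (.thr 46 34 (.thr 54 6 (.thr 50 58 (.dbl 14 26 30))))))))) (.rp 13 (.str 49 (.nv (.thr 11 15 (.thr 43 63 (.thr 41 42 (.thr 26 56 (.thr 31 16 (.dbl 27 19 59)))))) (.nv (.thr 15 11 (.thr 39 55 (.thr 43 63 (.thr 51 27 (.dbl 35 19 47))))) (.nv (.thr 39 55 (.thr 63 43 (.thr 15 11 (.thr 31 47 (.dbl 27 19 51))))) (.rp 63 (.thr 39 55 (.thr 15 11 (.thr 51 27 (.thr 48 50 (.thr 18 33 (.thr 19 35 (.thr 16 17 (.dbl 26 30 31)))))))) (.rp 47 (.thr 39 55 (.thr 43 63 (.thr 15 11 (.thr 51 27 (.thr 48 50 (.thr 33 18 (.thr 1 17 (.dbl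 41 42 61)))))))) (.rp 43 (.str 48 (.nv (.thr 18 33 (.thr 26 30 (.thr 16 31 (.thr 19 17 (.dbl 51 35 50))))) (.nv (.thr 51 50 (.thr 39 55 (.dbl 15 11 27))) (.rp 51 (.thr 18 33 (.thr 55 39 (.thr 38 4 (.thr 54 6 (.thr 26 30 (.thr 50 14 (.thr 62 58 (.dbl 2 34 42)))))))) (.rp 50 (.thr 18 33 (.thr 39 55 (.thr 26 30 (.thr 31 16 (.thr 27 19 (.dbl 15 11 51)))))) (.rp 15 (.thr 51 50 (.thr 18 33 (.thr 19 35 (.thr 16 17 (.dbl 26 30 31))))) .nd)))))) (.rp 27 (.thr 55 39 (.thr 38 4 (.thr 54 6 (.thr 43 63 (.thr 41 42 (.thr 61 1 (.dbl 53 52 57))))))) (.rp 19 (.thr 55 39 (.thr 38 4 (.thr 54 6 (.thr 43 63 (.thr 41 42 (.thr 61 1 (.dbl 53 52 57))))))) (.rp 15 (.thr 55 39 (.thr 38 4 (.thr 54 6 (.thr 43 63 (.thr 41 42 (.thr 61 1 (.dbl 53 52 57))))))) (.rp 11 (.thr 55 39 (.thr 38 4 (.thr 54 6 (.thr 43 63 (.thr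 41 42 (.thr 61 1 (.dbl 53 52 57))))))) .nd))))))))))) (.rp 11 (.thr 43 63 (.thr 42 41 (.thr 62 2 (.thr 55 39 (.thr 38 4 (.thr 46 34 (.thr 14 30 (.thr 54 6 (.dbl 50 26 58))))))))) .nd))))))))))))) (.rp 49 (.str 13 (.nv (.thr 15 11 (.thr 39 55 (.thr 43 63 (.thr 35 47 (.dbl 51 19 27))))) (.nv (.thr 15 11 (.thr 12 14 (.thr 9 6 (.thr 1 5 (.dbl 41 60 61))))) (.rp 60 (.str 40 (.nv (.thr 11 15 (.thr 43 63 (.thr 41 42 (.thr 26 56 (.thr 31 16 (.dbl 27 19 59)))))) (.nv (.thr 15 11 (.thr 12 14 (.thr 55 39 (.thr 38 4 (.dbl 6 9 54))))) (.rp 52 (.thr 15 11 (.thr 12 14 (.thr 6 9 (.thr 4 5 (.dbl 38 54 55))))) (.rp 15 (.thr 43 63 (.thr 42 41 (.thr 62 2 (.thr 55 39 (.thr 38 4 (.thr 46 34 (.thr 54 6 (.thr 50 58 (.dbl 14 26 30))))))))) (.rp 11 (.thr 43 63 (.thr 42 41 (.thr 62 2 (.thr 55 39 (.thr 38 4 (.thr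 46 34 (.thr 14 30 (.thr 6 54 (.dbl 12 9 15))))))))) .nd)))))) (.rp 40 (.thr 60 41 (.thr 15 11 (.thr 45 30 (.thr 61 29 (.dbl 63 43 62))))) (.rp 15 (.thr 55 39 (.thr 38 4 (.thr 54 6 (.thr 63 43 (.thr 51 59 (.dbl 60 41 57)))))) (.rp 11 (.thr 55 39 (.thr 38 4 (.thr 54 6 (.thr 63 43 (.thr 60 41 (.dbl 51 57 59)))))) .nd))))))) (.rp 40 (.thr 60 41 (.thr 39 55 (.thr 15 11 (.thr 51 27 (.thr 35 19 (.dbl 43 47 63)))))) (.rp 13 (.str 49 (.nv (.thr 55 39 (.thr 38 4 (.thr 54 6 (.thr 60 41 (.thr 63 43 (.dbl 51 57 59)))))) (.nv (.thr 11 15 (.thr 43 63 (.thr 41 60 (.thr 40 42 (.thr 26 56 (.thr 31 16 (.dbl 27 19 59))))))) (.nv (.thr 60 41 (.thr 55 39 (.thr 38 4 (.thr 54 6 (.thr 57 51 (.dbl 53 52 61)))))) (.nv (.thr 39 55 (.thr 15 11 (.thr 51 27 (.thr 43 63 (.dbl 35 19 47))))) (.rp 60 (.str 40 (.nv (.thr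 11 15 (.thr 43 63 (.thr 41 42 (.thr 26 56 (.thr 31 16 (.dbl 27 19 59)))))) (.nv (.thr 15 11 (.thr 39 55 (.thr 43 63 (.thr 51 27 (.dbl 35 19 47))))) (.nv (.thr 39 55 (.thr 63 43 (.thr 15 11 (.thr 31 47 (.dbl 27 19 51))))) (.rp 63 (.thr 39 55 (.thr 15 11 (.thr 51 27 (.thr 48 50 (.thr 18 33 (.thr 19 35 (.thr 16 17 (.dbl 26 30 31)))))))) (.rp 47 (.thr 39 55 (.thr 43 63 (.thr 15 11 (.thr 51 27 (.thr 48 50 (.thr 33 18 (.thr 1 17 (.dbl 41 42 61)))))))) (.rp 43 (.str 48 (.nv (.thr 18 33 (.thr 26 30 (.thr 16 31 (.thr 19 17 (.dbl 51 35 50))))) (.nv (.thr 51 50 (.thr 39 55 (.dbl 15 11 27))) (.rp 51 (.thr 18 33 (.thr 55 39 (.thr 38 4 (.thr 54 6 (.thr 26 30 (.thr 50 14 (.thr 62 58 (.dbl 2 34 42)))))))) (.rp 50 (.thr 18 33 (.thr 39 55 (.thr 26 30 (.thr 31 16 (.thr 27 19 (.dbl 15 11 51)))))) (.rp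 15 (.thr 51 50 (.thr 18 33 (.thr 19 35 (.thr 16 17 (.dbl 26 30 31))))) .nd)))))) (.rp 27 (.thr 55 39 (.thr 38 4 (.thr 54 6 (.thr 43 63 (.thr 41 42 (.thr 61 1 (.dbl 53 52 57))))))) (.rp 19 (.thr 55 39 (.thr 38 4 (.thr 54 6 (.thr 43 63 (.thr 41 42 (.thr 61 1 (.dbl 53 52 57))))))) (.rp 15 (.thr 55 39 (.thr 38 4 (.thr 54 6 (.thr 43 63 (.thr 41 42 (.thr 61 1 (.dbl 53 52 57))))))) (.rp 11 (.thr 55 39 (.thr 38 4 (.thr 54 6 (.thr 43 63 (.thr 41 42 (.thr 61 1 (.dbl 53 52 57))))))) .nd))))))))))) .nd)))))) .nd))))))))))) (.rp 23 (.thr 37 52 (.str 3 (.nv (.thr 5 53 (.thr 6 4 (.thr 41 60 (.thr 1 61 (.dbl 9 12 13))))) (.nv (.thr 15 11 (.thr 48 26 (.thr 33 18 (.dbl 41 45 60)))) (.rp 60 (.thr 5 53 (.thr 6 4 (.thr 15 11 (.thr 48 26 (.thr 33 18 (.thr 41 45 (.thr 1 61 (.dbl 9 12 13)))))))) (.rp 56 (.thr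 15 11 (.thr 48 26 (.thr 41 60 (.dbl 33 18 45)))) (.rp 48 (.thr 5 53 (.thr 6 4 (.thr 11 15 (.thr 41 60 (.thr 56 26 (.thr 1 61 (.dbl 9 12 13))))))) (.rp 41 (.thr 5 53 (.thr 6 4 (.thr 15 11 (.thr 26 48 (.thr 18 30 (.thr 16 31 (.thr 19 17 (.thr 51 35 (.thr 39 27 (.dbl 38 36 54)))))))))) .nd)))))))) (.rp 20 (.str 38 (.nv (.thr 55 4 (.thr 39 23 (.dbl 37 36 52))) (.nv (.thr 6 54 (.dbl 4 5 55)) (.rp 60 (.str 40 (.nv (.thr 55 4 (.thr 39 23 (.dbl 37 36 52))) (.nv (.thr 4 55 (.dbl 6 5 54)) (.rp 55 (.thr 6 54 (.thr 5 4 (.dbl 37 52 53))) (.rp 4 (.thr 6 54 (.thr 37 52 (.thr 36 39 (.thr 32 44 (.thr 42 47 (.thr 2 62 (.thr 14 10 (.thr 50 26 (.dbl 34 18 46))))))))) .nd))))) (.rp 55 (.thr 6 54 (.thr 5 4 (.dbl 37 52 53))) (.rp 40 (.str 60 (.nv (.thr 55 4 (.thr 39 23 (.dbl 37 36 52))) (.nv (.thr 6 54 (.dbl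 4 5 55)) (.rp 55 (.thr 6 54 (.thr 5 4 (.dbl 37 52 53))) (.rp 4 (.thr 3 41 (.thr 15 11 (.thr 30 45 (.thr 26 18 (.dbl 37 48 52))))) .nd))))) (.rp 4 (.thr 37 52 (.thr 36 39 (.str 60 (.nv (.thr 41 3 (.thr 44 35 (.thr 32 40 (.thr 47 42 (.dbl 45 33 46))))) (.nv (.thr 3 41 (.thr 15 11 (.thr 30 45 (.dbl 26 18 48)))) (.rp 45 (.thr 54 6 (.thr 53 5 (.thr 57 51 (.thr 61 49 (.dbl 41 1 3))))) (.rp 41 (.thr 54 6 (.thr 53 5 (.thr 57 51 (.thr 61 49 (.thr 62 63 (.thr 50 58 (.thr 14 26 (.thr 46 30 (.dbl 42 2 34))))))))) (.rp 12 (.str 8 (.nv (.thr 6 54 (.thr 41 3 (.thr 44 35 (.thr 32 40 (.thr 47 42 (.dbl 45 33 46)))))) (.nv (.thr 3 41 (.thr 15 11 (.thr 30 45 (.dbl 26 18 48)))) (.rp 45 (.thr 54 6 (.thr 53 5 (.thr 57 51 (.thr 61 49 (.dbl 41 1 3))))) (.rp 41 (.thr 54 6 (.thr 53 5 (.thr 57 51 (.thr 61 49 (.thr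 62 63 (.thr 42 2 (.thr 50 58 (.thr 14 26 (.dbl 46 30 34))))))))) (.rp 3 (.thr 6 54 (.str 2 (.nv (.thr 14 10 (.thr 26 50 (.thr 30 18 (.dbl 15 45 48)))) (.nv (.thr 42 62 (.thr 32 47 (.thr 44 40 (.thr 35 41 (.dbl 34 33 46))))) (.nv (.thr 62 42 (.thr 14 10 (.thr 26 50 (.dbl 30 18 46)))) (.rp 62 (.thr 14 10 (.thr 50 26 (.thr 34 18 (.thr 42 46 (.thr 32 47 (.thr 44 40 (.dbl 35 33 41))))))) (.rp 55 (.thr 53 5 (.thr 42 62 (.thr 34 46 (.thr 50 18 (.dbl 14 10 26))))) (.rp 53 (.str 55 (.nv (.thr 14 10 (.thr 26 50 (.thr 30 18 (.dbl 15 45 48)))) (.nv (.thr 42 62 (.thr 32 47 (.thr 44 40 (.thr 35 41 (.dbl 34 33 46))))) (.nv (.thr 62 42 (.thr 14 10 (.thr 26 50 (.dbl 30 18 46)))) (.rp 62 (.thr 14 10 (.thr 50 26 (.thr 34 18 (.thr 42 46 (.thr 32 47 (.thr 44 40 (.dbl 35 33 41))))))) (.rp 50 (.thr 62 42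 (.thr 14 10 (.thr 30 46 (.thr 26 18 (.dbl 15 45 48))))) .nd)))))) (.rp 50 (.thr 62 42 (.thr 14 10 (.thr 30 46 (.thr 26 18 (.dbl 15 45 48))))) .nd))))))))) .nd)))))) (.rp 8 (.str 12 (.nv (.thr 41 3 (.dbl 44 28 35)) (.nv (.thr 3 41 (.dbl 6 9 54)) (.rp 59 (.str 42 (.nv (.thr 32 47 (.dbl 44 28 40)) (.nv (.thr 3 41 (.dbl 6 9 54)) .nd))) (.rp 42 (.str 59 (.nv (.thr 6 54 (.dbl 3 9 41)) (.nv (.thr 44 28 (.dbl 41 3 35)) (.rp 41 (.thr 28 44 (.thr 48 24 (.thr 26 15 (.thr 30 18 (.dbl 31 16 29))))) (.rp 3 (.thr 28 44 (.thr 48 24 (.thr 26 15 (.thr 30 18 (.dbl 31 16 29))))) .nd))))) (.rp 41 (.thr 6 54 (.thr 48 24 (.thr 26 15 (.thr 18 30 (.dbl 3 9 33))))) (.rp 3 (.thr 54 6 (.thr 48 24 (.thr 26 15 (.thr 50 14 (.dbl 51 49 57))))) .nd))))))) (.rp 3 (.thr 54 6 (.thr 53 5 (.thr 57 51 (.thr 61 49 (.thr 62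 63 (.thr 50 58 (.thr 14 26 (.thr 46 30 (.dbl 42 2 34))))))))) .nd)))))))))) .nd))))))) (.rp 6 (.str 3 (.nv (.thr 15 11 (.thr 23 20 (.thr 39 55 (.thr 27 51 (.thr 31 19 (.dbl 63 43 47)))))) (.nv (.thr 37 52 (.thr 15 11 (.thr 48 26 (.thr 33 18 (.dbl 41 45 60))))) (.rp 60 (.thr 37 52 (.thr 53 5 (.thr 15 11 (.thr 48 26 (.thr 63 58 (.dbl 23 20 43)))))) (.rp 27 (.thr 37 52 (.thr 15 11 (.thr 26 48 (.thr 30 18 (.dbl 60 41 45))))) (.rp 15 (.thr 23 20 (.thr 55 39 (.thr 38 4 (.thr 63 43 (.thr 51 59 (.thr 35 19 (.dbl 41 44 60))))))) (.rp 11 (.thr 23 20 (.thr 55 39 (.thr 52 37 (.thr 54 53 (.thr 63 43 (.thr 60 41 (.dbl 51 57 59))))))) .nd))))))) (.rp 5 (.thr 23 20 (.thr 55 39 (.thr 38 4 (.thr 54 6 (.dbl 52 37 53))))) (.rp 4 (.str 15 (.nv (.thr 3 11 (.thr 60 41 (.thr 30 45 (.thr 26 18 (.dbl 37 48 52)))))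 (.nv (.thr 3 11 (.thr 23 20 (.thr 39 55 (.thr 27 51 (.thr 31 19 (.dbl 63 43 47)))))) (.nv (.thr 37 52 (.thr 20 23 (.thr 3 11 (.thr 41 60 (.thr 33 45 (.dbl 48 18 26)))))) (.rp 60 (.thr 37 52 (.thr 53 5 (.thr 3 11 (.thr 48 26 (.thr 63 58 (.dbl 23 20 43)))))) (.rp 52 (.thr 3 11 (.thr 60 41 (.thr 30 45 (.thr 26 18 (.thr 31 16 (.thr 63 47 (.dbl 23 20 43))))))) (.rp 12 (.str 8 (.nv (.thr 3 11 (.thr 23 20 (.thr 39 55 (.thr 43 63 (.thr 35 47 (.dbl 51 19 27)))))) (.nv (.thr 3 11 (.thr 60 41 (.thr 30 45 (.thr 26 18 (.dbl 37 48 52))))) (.rp 60 (.thr 3 11 (.thr 37 52 (.thr 48 26 (.thr 53 5 (.thr 63 58 (.dbl 23 20 43)))))) (.rp 52 (.thr 3 11 (.thr 60 41 (.thr 30 45 (.thr 26 18 (.thr 31 16 (.thr 63 47 (.dbl 23 20 43))))))) (.rp 51 (.str 38 (.nv (.thr 3 11 (.thr 60 41 (.thr 30 45 (.thr 26 18 (.dbl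 37 48 52))))) (.nv (.thr 23 20 (.thr 39 55 (.dbl 37 36 52))) (.rp 60 (.thr 52 37 (.thr 54 6 (.thr 55 53 (.dbl 23 20 39)))) (.rp 52 (.thr 3 11 (.thr 60 41 (.thr 30 45 (.thr 26 18 (.thr 31 16 (.thr 63 47 (.dbl 23 20 43))))))) (.rp 37 (.thr 23 20 (.thr 3 11 (.thr 60 41 (.thr 63 43 (.thr 31 47 (.thr 26 16 (.dbl 30 18 45))))))) (.rp 34 (.str 17 (.nv (.thr 3 11 (.thr 60 41 (.thr 30 45 (.thr 26 18 (.dbl 37 48 52))))) (.nv (.thr 23 20 (.thr 39 55 (.dbl 37 36 52))) (.rp 60 (.thr 54 6 (.thr 52 37 (.thr 55 53 (.dbl 23 20 39)))) (.rp 52 (.thr 3 11 (.thr 41 60 (.thr 1 61 (.thr 33 49 (.thr 37 45 (.dbl 48 18 26)))))) (.rp 37 (.thr 3 11 (.thr 23 20 (.thr 63 43 (.thr 31 47 (.thr 16 26 (.dbl 19 18 27)))))) .nd)))))) (.rp 17 (.str 34 (.nv (.thr 6 54 (.thr 11 3 (.thr 10 9 (.thr 2 14 (.dbl 42 46 62)))))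 (.nv (.thr 23 20 (.thr 39 55 (.dbl 37 36 52))) (.rp 60 (.thr 54 6 (.thr 52 37 (.thr 55 53 (.dbl 23 20 39)))) .nd)))) .nd)))))))) (.rp 38 (.str 51 (.nv (.thr 3 11 (.thr 19 35 (.thr 23 20 (.dbl 27 31 39)))) (.nv (.thr 39 27 (.dbl 23 20 55)) (.rp 39 (.thr 23 20 (.thr 3 11 (.thr 19 35 (.thr 31 27 (.dbl 63 43 47))))) (.rp 27 (.thr 23 20 (.thr 3 11 (.thr 55 39 (.dbl 63 43 59)))) (.rp 23 (.thr 3 11 (.thr 37 52 (.thr 26 48 (.thr 30 18 (.dbl 60 41 45))))) (.rp 20 (.thr 3 11 (.thr 39 27 (.thr 23 55 (.thr 35 19 (.dbl 43 47 63))))) .nd))))))) (.rp 11 (.thr 37 52 (.thr 48 26 (.thr 53 5 (.thr 63 58 (.thr 47 31 (.thr 42 32 (.thr 62 2 (.thr 60 61 (.thr 45 30 (.dbl 41 3 33)))))))))) (.rp 3 (.thr 20 23 (.thr 37 52 (.thr 26 48 (.thr 16 31 (.thr 24 28 (.thr 56 40 (.thr 41 11 (.thr 33 45 (.thr 1 61 (.thr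 17 49 (.dbl 18 19 30))))))))))) .nd))))))))) (.rp 11 (.thr 23 20 (.thr 39 55 (.thr 27 51 (.thr 31 19 (.thr 26 16 (.dbl 37 48 52)))))) (.rp 8 (.str 12 (.nv (.thr 23 20 (.thr 39 55 (.thr 37 52 (.thr 36 38 (.dbl 48 24 26))))) (.nv (.thr 3 11 (.thr 9 6 (.thr 13 14 (.thr 1 5 (.dbl 41 60 61))))) (.rp 60 (.thr 3 11 (.thr 9 6 (.thr 13 14 (.thr 5 1 (.dbl 37 52 53))))) (.rp 59 (.str 42 (.nv (.thr 37 52 (.thr 47 32 (.thr 31 63 (.dbl 26 16 48)))) (.nv (.thr 2 62 (.thr 14 13 (.thr 6 10 (.dbl 3 9 11)))) (.rp 37 (.thr 3 11 (.thr 23 20 (.thr 43 63 (.dbl 41 40 60)))) .nd)))) (.rp 42 (.str 59 (.nv (.thr 11 3 (.thr 27 43 (.thr 39 51 (.dbl 23 20 55)))) (.nv (.thr 23 20 (.thr 39 55 (.thr 37 52 (.thr 36 38 (.dbl 48 24 26))))) (.nv (.thr 13 14 (.thr 3 11 (.thr 9 6 (.thr 5 1 (.dbl 37 52 53))))) .nd)))) .nd))))))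 (.rp 3 (.thr 23 20 (.thr 39 55 (.thr 37 52 (.thr 36 38 (.thr 53 5 (.thr 48 26 (.thr 63 58 (.thr 31 47 (.dbl 27 19 51))))))))) .nd)))))))))) .nd))))))))))))

theorem w43 : WinAt (6291456, 33554433) :=
  chF (K := []) kn c43 6291456 33554433 25
    [] (by decide +kernel) (by decide +kernel)

/-- A certificate. -/
noncomputable def c44 : Ct := (.str 12 (.nv (.thr 20 23 (.thr 25 51 (.thr 36 39 (.thr 24 48 (.dbl 28 16 19))))) (.nv (.thr 3 9 (.thr 23 20 (.thr 63 43 (.dbl 51 25 59)))) (.nv (.thr 25 51 (.thr 28 19 (.thr 60 44 (.dbl 3 9 41)))) (.rp 60 (.thr 3 9 (.thr 51 25 (.thr 63 59 (.dbl 23 20 43)))) (.rp 51 (.thr 36 39 (.thr 48 24 (.thr 3 9 (.thr 33 18 (.dbl 41 45 60))))) (.rp 25 (.thr 36 39 (.thr 3 9 (.thr 41 60 (.thr 33 45 (.dbl 48 18 24))))) (.rp 15 (.str 10 (.nv (.thr 2 14 (.thr 3 9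 (.thr 23 20 (.thr 42 62 (.thr 43 63 (.dbl 41 40 60)))))) (.nv (.thr 2 14 (.thr 42 62 (.thr 46 34 (.thr 63 29 (.dbl 51 25 59))))) (.nv (.thr 3 9 (.thr 51 25 (.thr 35 19 (.dbl 41 44 60)))) (.rp 3 (.str 11 (.nv (.thr 8 9 (.thr 2 14 (.thr 42 62 (.dbl 25 51 59)))) (.nv (.thr 8 9 (.thr 2 14 (.thr 25 51 (.dbl 42 59 62)))) (.nv (.thr 2 14 (.thr 42 62 (.thr 46 34 (.thr 63 29 (.dbl 51 25 59))))) (.rp 62 (.thr 23 20 (.thr 8 9 (.thr 25 51 (.thr 59 42 (.thr 27 43 (.dbl 19 28 31)))))) (.rp 59 (.thr 2 14 (.thr 42 62 (.thr 46 34 (.thr 29 63 (.dbl 25 17 51))))) (.rp 51 (.thr 39 36 (.thr 8 9 (.thr 2 14 (.thr 42 62 (.thr 59 25 (.thr 47 32 (.dbl 43 27 35))))))) (.rp 42 (.thr 9 8 (.thr 25 51 (.thr 17 29 (.thr 49 13 (.thr 1 33 (.dbl 41 57 61)))))) (.rp 25 (.thr 39 36 (.thr 2 14 (.thr 42 62 (.thr 46 34 (.thr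 47 32 (.thr 44 45 (.dbl 35 41 43))))))) (.rp 14 (.thr 23 20 (.thr 8 9 (.thr 25 51 (.thr 59 42 (.thr 27 43 (.dbl 19 28 31)))))) (.rp 2 (.str 1 (.nv (.thr 25 51 (.thr 17 29 (.dbl 49 13 33))) (.nv (.thr 9 8 (.thr 41 61 (.dbl 25 51 57))) (.rp 57 (.thr 41 61 (.thr 33 45 (.thr 49 17 (.dbl 25 13 51)))) (.rp 51 (.thr 9 8 (.thr 41 61 (.thr 33 45 (.thr 17 49 (.dbl 25 29 57))))) (.rp 25 (.thr 20 23 (.thr 36 39 (.thr 24 48 (.thr 41 61 (.thr 44 35 (.dbl 28 16 60)))))) .nd)))))) .nd))))))))))) .nd))))) (.rp 10 (.str 15 (.nv (.thr 39 36 (.dbl 51 25 27)) (.nv (.thr 13 14 (.dbl 25 49 51)) (.rp 58 (.str 42 (.nv (.thr 47 32 (.thr 63 31 (.dbl 46 29 34))) (.nv (.thr 13 14 (.dbl 25 49 51)) (.rp 62 (.str 50 (.nv (.thr 47 32 (.thr 63 31 (.dbl 46 29 34))) (.nv (.thr 51 25 (.dbl 39 27 36)) .nd))) (.rp 50 (.thr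 62 2 (.thr 14 13 (.dbl 46 30 34))) .nd))))) (.rp 51 (.thr 36 39 (.thr 3 9 (.thr 48 24 (.thr 33 18 (.dbl 41 45 60))))) (.rp 42 (.str 58 (.nv (.thr 39 36 (.dbl 51 25 27)) (.nv (.thr 13 14 (.dbl 25 49 51)) (.rp 51 (.thr 13 14 (.thr 25 49 (.thr 28 19 (.thr 60 44 (.dbl 3 9 41))))) (.rp 25 (.thr 13 14 (.thr 3 9 (.thr 41 60 (.thr 45 33 (.dbl 61 1 29))))) .nd))))) (.rp 25 (.thr 39 36 (.thr 3 9 (.thr 41 60 (.thr 35 44 (.dbl 51 19 27))))) .nd))))))) .nd)))))))))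

theorem w44 : WinAt (36029209342115904, 18014398576591025) :=
  chF (K := []) kn c44 36029209342115904 18014398576591025 54
    [4369, 33825] (by decide +kernel) (by decide +kernel)

/-- A certificate. -/
noncomputable def c45 : Ct := (.thr 6 54 .ext)

theorem w45 : WinAt (36029209342115840, 67109041) :=
  chF (K := [(36029209342115904, 18014398576591025)]) (kc w44 kn) c45 36029209342115840 67109041 4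
    [4369, 33825] (by decide +kernel) (by decide +kernel)

/-- A certificate. -/
noncomputable def c46 : Ct := (.thr 38 4 .ext)

theorem w46 : WinAt (36028934464208896, 67109025) :=
  chF (K := [(36029209342115840, 67109041)]) (kc w45 kn) c46 36028934464208896 67109025 7
    [240, 33825] (by decide +kernel) (by decide +kernel)

/-- A certificate. -/
noncomputable def c47 : Ct := (.str 55 (.nv (.thr 52 7 (.thr 54 53 (.dbl 38 4 6))) (.nv (.thr 7 52 (.dbl 23 20 39)) (.rp 52 (.thr 23 20 (.thr 39 7 (.dbl 38 4 36))) (.rp 15 (.str 10 (.nv (.thr 52 7 (.thr 54 53 (.dbl 38 4 6))) (.nv (.thr 7 52 (.dbl 23 20 39)) (.rp 52 (.thr 23 20 (.thr 39 7 (.dbl 38 4 36))) (.rp 7 (.thr 38 4 (.thr 6 54 (.thr 39 36 (.thr 2 14 (.thr 42 62 (.thr 47 32 (.thr 35 43 (.thr 46 34 (.dbl 44 41 45))))))))) .nd))))) (.rp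 10 (.str 15 (.nv (.thr 52 7 (.thr 54 53 (.dbl 38 4 6))) (.nv (.thr 7 52 (.dbl 23 20 39)) (.rp 58 (.str 42 (.nv (.thr 52 7 (.thr 54 53 (.dbl 38 4 6))) (.nv (.thr 7 52 (.dbl 23 20 39)) (.rp 52 (.thr 23 20 (.thr 39 7 (.dbl 38 4 36))) (.rp 7 (.thr 47 32 (.thr 63 31 (.thr 51 59 (.thr 39 27 (.dbl 38 4 36))))) .nd))))) (.rp 52 (.thr 23 20 (.thr 39 7 (.dbl 38 4 36))) (.rp 42 (.str 58 (.nv (.thr 52 7 (.thr 54 53 (.dbl 38 4 6))) (.nv (.thr 7 52 (.dbl 23 20 39)) (.rp 52 (.thr 23 20 (.thr 39 7 (.dbl 38 4 36))) (.rp 7 (.thr 20 23 (.thr 4 38 (.thr 52 36 (.thr 53 54 (.thr 48 63 (.thr 60 56 (.thr 45 30 (.dbl 41 3 33)))))))) .nd))))) (.rp 7 (.thr 38 4 (.thr 6 54 (.thr 39 36 (.thr 51 27 (.thr 63 59 (.thr 47 31 (.thr 43 35 (.dbl 23 3 20)))))))) .nd))))))) (.rp 7 .ext .nd)))))))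

theorem w47 : WinAt (137445244928, 67108897) :=
  chF (K := [(36028934464208896, 67109025)]) (kc w46 kn) c47 137445244928 67108897 5
    [33825] (by decide +kernel) (by decide +kernel)

/-- A certificate. -/
noncomputable def c48 : Ct := (.str 37 (.nv (.thr 5 53 (.thr 7 52 (.thr 4 6 (.thr 23 20 (.dbl 55 38 39))))) (.nv (.thr 20 23 (.thr 53 5 (.thr 52 7 (.thr 55 54 (.dbl 4 36 38))))) (.rp 55 (.str 41 (.nv (.thr 3 60 (.thr 33 45 (.thr 48 18 (.thr 53 5 (.thr 63 58 (.dbl 23 20 43)))))) (.nv (.thr 33 45 (.thr 5 53 (.thr 1 61 (.thr 13 9 (.dbl 49 17 25))))) (.rp 53 (.thr 3 60 (.thr 1 61 (.thr 33 45 (.thr 49 17 (.thr 48 18 (.thr 51 50 (.thr 19 35 (.dbl 25 13 28)))))))) (.rp 45 (.thr 53 5 (.thr 52 7 (.thr 60 3 (.thr 48 56 (.thr 63 58 (.dbl 61 1 62)))))) (.rp 33 (.thr 53 5 (.thr 52 7 (.thr 60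 3 (.thr 48 56 (.thr 63 58 (.dbl 61 1 62)))))) (.rp 5 (.thr 3 60 (.thr 1 61 (.thr 33 45 (.thr 49 17 (.thr 48 18 (.thr 51 50 (.thr 19 35 (.dbl 25 13 28)))))))) .nd))))))) (.rp 54 (.thr 23 20 (.thr 5 53 (.thr 7 52 (.thr 55 39 (.dbl 4 6 38))))) (.rp 53 (.str 41 (.nv (.thr 20 23 (.thr 52 7 (.thr 36 4 (.thr 60 3 (.thr 48 56 (.thr 12 24 (.thr 44 28 (.dbl 38 35 39)))))))) (.nv (.thr 1 61 (.thr 3 60 (.thr 33 45 (.thr 48 18 (.thr 49 17 (.thr 51 50 (.thr 19 35 (.dbl 25 13 28)))))))) (.nv (.thr 20 23 (.thr 52 7 (.thr 36 4 (.thr 33 45 (.thr 3 60 (.thr 48 18 (.thr 12 24 (.thr 6 9 (.dbl 38 39 54))))))))) (.rp 60 (.thr 33 45 (.thr 1 61 (.thr 49 17 (.thr 13 25 (.thr 5 9 (.thr 7 52 (.thr 4 6 (.thr 55 38 (.dbl 23 20 39))))))))) (.rp 48 (.thr 33 45 (.thr 1 61 (.thr 49 17 (.thr 13 25 (.thr 5 9 (.thr 7 52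 (.thr 4 6 (.thr 23 20 (.dbl 55 38 39))))))))) (.rp 38 (.thr 33 45 (.thr 1 61 (.thr 49 17 (.thr 13 25 (.thr 9 5 (.thr 3 60 (.thr 12 6 (.thr 7 52 (.dbl 15 11 14))))))))) (.rp 25 (.thr 45 33 (.thr 61 1 (.thr 13 29 (.thr 3 60 (.thr 7 52 (.thr 15 11 (.thr 12 14 (.thr 6 9 (.thr 4 5 (.dbl 38 54 55)))))))))) (.rp 20 (.thr 33 45 (.thr 1 61 (.thr 49 17 (.thr 60 3 (.thr 52 7 (.thr 48 56 (.thr 51 50 (.thr 57 54 (.dbl 25 9 13))))))))) (.rp 15 (.thr 33 45 (.thr 1 61 (.thr 49 17 (.thr 13 25 (.thr 5 9 (.thr 7 52 (.thr 4 6 (.thr 23 20 (.dbl 55 38 39))))))))) (.rp 3 (.thr 33 45 (.thr 1 61 (.thr 49 17 (.thr 13 25 (.thr 5 9 (.thr 7 52 (.thr 23 20 (.thr 55 39 (.dbl 4 6 38))))))))) .nd))))))))))) (.rp 52 (.str 41 (.nv (.thr 3 60 (.thr 33 45 (.thr 48 18 (.thr 53 5 (.thr 63 58 (.dbl 23 20 43)))))) (.nv (.thr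 33 45 (.thr 5 53 (.thr 1 61 (.thr 13 9 (.dbl 49 17 25))))) (.rp 53 (.thr 33 45 (.thr 1 61 (.thr 49 17 (.thr 3 60 (.thr 48 18 (.thr 51 50 (.thr 19 35 (.dbl 25 13 28)))))))) (.rp 45 (.thr 53 5 (.thr 61 1 (.thr 57 49 (.thr 9 25 (.thr 3 60 (.thr 6 12 (.thr 38 54 (.thr 44 35 (.thr 36 39 (.thr 40 32 (.thr 23 20 (.dbl 43 42 63)))))))))))) (.rp 33 (.thr 5 53 (.thr 1 61 (.thr 9 13 (.thr 3 60 (.thr 6 12 (.thr 4 7 (.dbl 38 54 55))))))) (.rp 5 (.thr 33 45 (.thr 1 61 (.thr 49 17 (.thr 3 60 (.thr 48 18 (.thr 51 50 (.thr 19 35 (.dbl 25 13 28)))))))) .nd))))))) (.rp 38 (.thr 7 52 (.str 41 (.nv (.thr 1 61 (.thr 3 60 (.thr 5 53 (.thr 6 4 (.dbl 9 12 13))))) (.nv (.thr 3 60 (.thr 33 45 (.thr 48 18 (.thr 53 5 (.thr 63 58 (.dbl 23 20 43)))))) (.nv (.thr 33 45 (.thr 5 53 (.thr 1 61 (.thr 13 9 (.dbl 49 17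 25))))) (.rp 53 (.thr 33 45 (.thr 1 61 (.thr 49 17 (.thr 13 25 (.thr 9 5 (.thr 3 60 (.thr 15 11 (.dbl 12 6 14)))))))) (.rp 50 (.str 14 (.nv (.thr 3 60 (.thr 15 11 (.thr 13 12 (.thr 45 33 (.dbl 61 1 29))))) (.nv (.thr 3 60 (.thr 15 11 (.thr 12 13 (.thr 6 9 (.dbl 5 4 53))))) (.nv (.thr 33 45 (.thr 5 53 (.thr 1 61 (.thr 13 9 (.dbl 49 17 25))))) (.rp 13 (.thr 60 3 (.thr 45 33 (.thr 30 15 (.thr 62 46 (.dbl 61 1 63))))) .nd))))) (.rp 14 (.str 50 (.nv (.thr 1 61 (.thr 3 60 (.thr 5 53 (.thr 6 4 (.dbl 9 12 13))))) (.nv (.thr 1 61 (.thr 3 60 (.thr 33 45 (.thr 48 18 (.dbl 49 17 51))))) (.nv (.thr 33 45 (.thr 5 53 (.thr 1 61 (.thr 13 9 (.dbl 49 17 25))))) (.rp 61 (.thr 53 5 (.thr 3 60 (.thr 33 45 (.thr 48 18 (.thr 63 58 (.dbl 23 20 43)))))) (.rp 49 (.thr 53 5 (.thr 3 60 (.thr 33 45 (.thr 48 18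 (.thr 63 58 (.dbl 23 20 43)))))) (.rp 13 (.thr 3 60 (.thr 33 45 (.thr 48 18 (.thr 49 51 (.dbl 1 17 61))))) (.rp 1 (.thr 53 5 (.thr 3 60 (.thr 33 45 (.thr 48 18 (.thr 63 58 (.dbl 23 20 43)))))) .nd)))))))) (.rp 5 (.thr 33 45 (.thr 1 61 (.thr 49 17 (.thr 13 25 (.thr 3 60 (.thr 15 11 (.thr 48 18 (.thr 14 12 (.thr 51 50 (.thr 27 39 (.thr 19 35 (.dbl 23 20 31)))))))))))) .nd))))))))) (.rp 23 (.str 41 (.nv (.thr 1 61 (.thr 3 60 (.thr 5 53 (.thr 7 52 (.thr 6 4 (.dbl 9 12 13)))))) (.nv (.thr 33 45 (.thr 5 53 (.thr 1 61 (.thr 13 9 (.dbl 49 17 25))))) (.rp 61 (.thr 5 53 (.thr 7 52 (.thr 6 4 (.thr 3 60 (.thr 12 9 (.thr 33 45 (.thr 48 18 (.thr 36 24 (.dbl 38 39 54))))))))) (.rp 57 (.thr 5 53 (.thr 33 45 (.thr 1 61 (.thr 49 17 (.dbl 13 9 25))))) (.rp 53 (.thr 3 60 (.thr 1 61 (.thr 33 45 (.thr 49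 17 (.thr 48 18 (.thr 51 50 (.thr 19 35 (.dbl 25 13 28)))))))) (.rp 49 (.thr 53 5 (.thr 52 7 (.thr 60 3 (.thr 48 56 (.thr 63 58 (.dbl 61 1 62)))))) (.rp 13 (.thr 53 5 (.thr 52 7 (.thr 60 3 (.thr 48 56 (.thr 63 58 (.dbl 61 1 62)))))) (.rp 9 (.thr 53 5 (.thr 45 33 (.thr 61 1 (.thr 13 29 (.dbl 49 25 57))))) (.rp 5 (.thr 3 60 (.thr 1 61 (.thr 33 45 (.thr 49 17 (.thr 48 18 (.thr 51 50 (.thr 19 35 (.dbl 25 13 28)))))))) (.rp 1 (.thr 5 53 (.thr 7 52 (.thr 6 4 (.thr 3 60 (.thr 12 9 (.thr 33 45 (.thr 48 18 (.thr 36 24 (.dbl 38 39 54))))))))) .nd))))))))))) (.rp 20 (.str 60 (.nv (.thr 5 53 (.thr 41 3 (.thr 33 45 (.thr 1 61 (.thr 49 17 (.dbl 13 9 25)))))) (.nv (.thr 52 7 (.thr 53 5 (.thr 54 55 (.thr 48 56 (.thr 51 57 (.thr 58 63 (.dbl 50 49 62))))))) (.nv (.thr 5 53 (.thr 41 3 (.thr 1 61 (.thr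 13 9 (.thr 33 45 (.dbl 49 17 25)))))) (.rp 53 (.thr 52 7 (.thr 48 56 (.thr 41 3 (.thr 1 61 (.thr 33 45 (.thr 49 17 (.thr 51 50 (.thr 57 54 (.dbl 25 9 13))))))))) (.rp 49 (.thr 52 7 (.thr 53 5 (.thr 48 56 (.thr 63 58 (.thr 61 62 (.dbl 41 1 3)))))) (.rp 41 (.thr 52 7 (.thr 53 5 (.thr 54 55 (.thr 57 51 (.thr 61 49 (.thr 63 62 (.dbl 48 56 58))))))) (.rp 5 (.thr 52 7 (.thr 48 56 (.thr 41 3 (.thr 1 61 (.thr 33 45 (.thr 49 17 (.thr 51 50 (.thr 57 54 (.dbl 25 9 13))))))))) .nd)))))))) (.rp 7 (.str 41 (.nv (.thr 3 60 (.thr 33 45 (.thr 48 18 (.thr 53 5 (.thr 63 58 (.dbl 23 20 43)))))) (.nv (.thr 33 45 (.thr 5 53 (.thr 1 61 (.thr 13 9 (.dbl 49 17 25))))) (.rp 53 (.thr 3 60 (.thr 1 61 (.thr 33 45 (.thr 49 17 (.thr 48 18 (.thr 51 50 (.thr 19 35 (.dbl 25 13 28)))))))) (.rp 45 (.thr 53 5 (.thr 3 60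 (.thr 61 1 (.thr 57 49 (.thr 9 25 (.thr 6 12 (.thr 38 54 (.thr 36 39 (.thr 44 35 (.thr 23 20 (.thr 40 32 (.dbl 43 42 63)))))))))))) (.rp 33 (.str 49 (.nv (.thr 1 61 (.thr 5 53 (.dbl 13 9 25))) (.nv (.thr 61 1 (.dbl 53 5 57)) (.rp 61 (.thr 3 60 (.thr 25 13 (.thr 9 57 (.thr 19 28 (.thr 51 35 (.dbl 12 6 38)))))) (.rp 53 (.thr 3 60 (.thr 25 13 (.thr 9 57 (.thr 19 28 (.thr 51 35 (.dbl 12 6 38)))))) (.rp 5 (.thr 61 1 (.thr 57 53 (.dbl 25 9 13))) (.rp 1 (.thr 53 5 (.thr 57 61 (.dbl 25 9 13))) .nd))))))) (.rp 5 (.thr 3 60 (.thr 1 61 (.thr 33 45 (.thr 49 17 (.thr 48 18 (.thr 51 50 (.thr 19 35 (.dbl 25 13 28)))))))) .nd))))))) (.rp 6 (.thr 20 23 (.thr 53 5 (.thr 52 7 (.thr 4 36 (.dbl 55 38 54))))) (.rp 5 .ext (.rp 4 (.str 41 (.nv (.thr 3 60 (.thr 33 45 (.thr 48 18 (.thr 53 5 (.thr 63 58 (.dbl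 23 20 43)))))) (.nv (.thr 33 45 (.thr 5 53 (.thr 1 61 (.thr 13 9 (.dbl 49 17 25))))) (.rp 53 (.thr 33 45 (.thr 1 61 (.thr 49 17 (.thr 3 60 (.thr 48 18 (.thr 51 50 (.thr 19 35 (.dbl 25 13 28)))))))) (.rp 45 (.thr 5 53 (.thr 1 61 (.thr 13 9 (.thr 49 25 (.thr 33 17 (.thr 3 60 (.thr 48 18 (.thr 51 50 (.thr 19 35 (.thr 7 52 (.thr 15 11 (.thr 27 39 (.dbl 23 20 31))))))))))))) (.rp 33 (.thr 53 5 (.thr 61 1 (.thr 49 57 (.thr 13 25 (.thr 29 45 (.thr 3 60 (.thr 7 52 (.thr 15 11 (.thr 12 14 (.thr 63 46 (.dbl 23 20 43))))))))))) (.rp 12 (.str 8 (.nv (.thr 3 60 (.thr 33 45 (.thr 48 18 (.thr 53 5 (.thr 63 58 (.dbl 23 20 43)))))) (.nv (.thr 5 53 (.thr 33 45 (.thr 1 61 (.thr 49 17 (.dbl 13 9 25))))) (.rp 53 (.thr 33 45 (.thr 1 61 (.thr 49 17 (.thr 13 25 (.thr 9 5 (.thr 3 60 (.thr 7 52 (.dbl 11 10 15))))))))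 (.rp 45 (.thr 53 5 (.thr 61 1 (.thr 57 49 (.thr 9 25 (.thr 3 60 (.thr 7 52 (.dbl 11 10 15))))))) (.rp 33 (.thr 5 53 (.thr 1 61 (.thr 9 13 (.thr 3 60 (.thr 7 52 (.dbl 11 10 15)))))) (.rp 5 (.thr 33 45 (.thr 1 61 (.thr 49 17 (.thr 3 60 (.thr 48 18 (.thr 51 50 (.thr 19 35 (.dbl 25 13 28)))))))) .nd))))))) (.rp 8 (.str 12 (.nv (.thr 1 61 (.thr 5 53 (.thr 13 9 (.thr 33 45 (.dbl 49 17 25))))) (.nv (.thr 60 3 (.thr 28 44 (.thr 25 19 (.thr 51 38 (.dbl 57 9 54))))) (.nv (.thr 5 53 (.thr 3 60 (.thr 9 6 (.dbl 1 13 61)))) (.rp 9 (.thr 53 5 (.thr 45 33 (.thr 61 1 (.thr 13 29 (.dbl 49 25 57))))) (.rp 1 (.thr 3 60 (.thr 9 6 (.thr 25 57 (.thr 19 28 (.dbl 51 35 38))))) .nd)))))) (.rp 5 (.thr 33 45 (.thr 1 61 (.thr 49 17 (.thr 3 60 (.thr 48 18 (.thr 51 50 (.thr 19 35 (.dbl 25 13 28)))))))) .nd)))))))))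 .nd))))))))))))))

theorem w48 : WinAt (6291456, 67108865) :=
  chF (K := [(137445244928, 67108897)]) (kc w47 kn) c48 6291456 67108865 26
    [] (by decide +kernel) (by decide +kernel)

/-- A certificate. -/
noncomputable def c49 : Ct := (.str 7 (.nv (.thr 20 23 (.thr 52 37 (.thr 4 36 (.thr 38 55 (.dbl 6 5 54))))) (.nv (.thr 37 52 (.thr 5 53 (.thr 4 6 (.thr 55 38 (.dbl 23 20 39))))) (.rp 55 (.str 25 (.nv (.thr 17 29 (.thr 37 52 (.thr 49 13 (.thr 1 33 (.thr 53 5 (.dbl 61 41 57)))))) (.nv (.thr 20 23 (.thr 29 17 (.thr 28 19 (.thr 31 30 (.dbl 16 24 26))))) (.rp 29 (.thr 20 23 (.thr 52 37 (.thr 4 36 (.thr 6 5 (.thr 38 54 (.thr 12 51 (.thr 3 9 (.thr 60 41 (.dbl 28 19 44))))))))) (.rp 17 (.thr 20 23 (.thr 19 28 (.thr 52 37 (.thr 4 36 (.thr 6 5 (.thr 38 54 (.thr 51 12 (.thr 3 35 (.thr 60 41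 (.thr 48 56 (.thr 50 49 (.thr 26 14 (.dbl 18 30 33))))))))))))) .nd))))) (.rp 54 (.thr 23 20 (.thr 55 39 (.thr 4 38 (.thr 5 6 (.dbl 37 52 53))))) (.rp 52 (.str 4 (.nv (.thr 6 5 (.dbl 38 54 55)) (.nv (.thr 55 38 (.dbl 23 20 39)) (.rp 55 (.thr 5 6 (.thr 53 37 (.str 3 (.nv (.thr 23 20 (.thr 63 43 (.thr 48 58 (.thr 18 33 (.thr 26 30 (.thr 31 16 (.dbl 15 11 47))))))) (.nv (.thr 23 20 (.thr 11 15 (.thr 63 43 (.thr 48 58 (.thr 18 33 (.thr 26 30 (.dbl 41 56 60))))))) (.rp 63 (.thr 11 15 (.thr 41 60 (.thr 61 1 (.thr 57 49 (.thr 25 9 (.thr 19 28 (.thr 17 29 (.thr 18 16 (.dbl 26 30 56))))))))) (.rp 60 (.str 48 (.nv (.thr 63 58 (.dbl 23 20 43)) (.rp 63 (.thr 20 23 (.thr 18 33 (.thr 26 30 (.thr 16 31 (.thr 19 17 (.dbl 28 24 25)))))) (.rp 58 (.thr 20 23 (.thr 18 33 (.thr 26 30 (.thr 16 31 (.thr 19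 17 (.dbl 28 24 25)))))) (.rp 43 (.thr 18 33 (.thr 26 30 (.thr 31 16 (.thr 63 58 (.dbl 15 11 47))))) (.rp 40 (.thr 20 23 (.thr 18 33 (.thr 26 30 (.thr 16 31 (.thr 19 17 (.dbl 28 24 25)))))) (.rp 23 (.thr 18 33 (.thr 26 30 (.thr 31 16 (.thr 15 11 (.dbl 63 47 58))))) (.rp 20 (.str 40 (.nv (.thr 15 11 (.thr 63 58 (.thr 31 47 (.thr 26 16 (.dbl 18 30 33))))) (.nv (.thr 18 33 (.thr 26 30 (.thr 58 63 (.thr 42 10 (.thr 41 43 (.dbl 11 15 56)))))) (.nv (.thr 18 33 (.thr 26 30 (.thr 63 58 (.thr 31 16 (.dbl 15 11 47))))) (.rp 63 (.thr 18 33 (.thr 26 30 (.thr 16 31 (.thr 19 17 (.thr 51 35 (.thr 49 50 (.thr 61 57 (.thr 41 1 (.dbl 11 15 56))))))))) (.rp 58 (.thr 18 33 (.thr 26 30 (.thr 16 31 (.thr 19 17 (.thr 51 35 (.thr 49 50 (.thr 61 57 (.thr 41 1 (.dbl 11 15 56))))))))) (.rp 33 (.thr 63 58 (.thr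 43 23 (.thr 41 42 (.thr 1 61 (.thr 9 13 (.thr 25 57 (.thr 19 28 (.thr 51 35 (.thr 12 38 (.dbl 29 17 46)))))))))) (.rp 30 (.thr 33 18 (.thr 63 58 (.thr 43 23 (.thr 41 42 (.thr 1 61 (.thr 17 49 (.thr 25 29 (.dbl 9 13 57)))))))) (.rp 26 (.str 25 (.nv (.thr 17 29 (.thr 33 18 (.thr 1 49 (.thr 9 13 (.dbl 41 57 61))))) (.nv (.thr 15 11 (.thr 28 19 (.thr 63 58 (.thr 31 47 (.dbl 29 17 30))))) (.nv (.thr 17 29 (.thr 18 33 (.dbl 19 16 28))) (.rp 41 (.thr 19 28 (.thr 17 29 (.dbl 18 16 33))) (.rp 29 (.thr 33 18 (.thr 19 28 (.thr 51 35 (.thr 49 50 (.thr 1 17 (.dbl 61 41 57)))))) (.rp 17 (.thr 19 28 (.thr 15 11 (.thr 63 58 (.thr 43 23 (.thr 47 31 (.dbl 35 39 51)))))) .nd))))))) (.rp 18 (.thr 63 58 (.thr 43 23 (.thr 41 42 (.thr 1 61 (.thr 9 13 (.thr 25 57 (.thr 19 28 (.thr 51 35 (.thr 49 50 (.dbl 17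 29 33)))))))))) (.rp 15 (.thr 33 18 (.thr 63 58 (.thr 43 23 (.thr 41 42 (.thr 1 61 (.thr 17 49 (.thr 25 29 (.dbl 9 13 57)))))))) (.rp 11 (.thr 33 18 (.thr 63 58 (.thr 43 23 (.thr 41 42 (.thr 1 61 (.thr 17 49 (.thr 25 29 (.dbl 9 13 57)))))))) .nd)))))))))))) .nd)))))))) (.rp 58 (.thr 20 23 (.thr 41 60 (.thr 1 61 (.thr 9 13 (.thr 25 57 (.thr 29 17 (.thr 28 19 (.thr 31 30 (.dbl 16 24 26))))))))) (.rp 48 (.thr 23 20 (.thr 63 43 (.thr 60 41 (.thr 61 62 (.thr 57 49 (.thr 51 54 (.thr 19 35 (.thr 25 28 (.thr 29 17 (.dbl 12 38 46)))))))))) (.rp 45 (.thr 41 60 (.thr 61 1 (.thr 57 49 (.thr 25 9 (.thr 19 28 (.thr 17 29 (.thr 18 16 (.thr 48 33 (.thr 63 58 (.dbl 23 20 43)))))))))) (.rp 43 (.thr 20 23 (.thr 41 60 (.thr 1 61 (.thr 9 13 (.thr 25 57 (.thr 29 17 (.thr 28 19 (.thr 31 30 (.dbl 16 24 26)))))))))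 (.rp 41 (.str 26 (.nv (.thr 15 11 (.thr 23 20 (.thr 31 16 (.dbl 63 43 47)))) (.nv (.thr 15 11 (.thr 18 30 (.thr 31 16 (.thr 63 47 (.dbl 48 33 58))))) (.nv (.thr 16 31 (.thr 18 30 (.thr 19 17 (.thr 20 23 (.dbl 28 24 25))))) (.nv (.thr 23 20 (.thr 18 30 (.thr 63 43 (.dbl 48 33 58)))) (.rp 45 (.str 33 (.nv (.dbl 18 30 48) (.rp 48 (.thr 20 23 (.thr 18 30 (.thr 16 31 (.thr 19 17 (.dbl 28 24 25))))) (.rp 30 (.thr 48 18 (.thr 23 20 (.dbl 63 43 58))) (.rp 18 (.thr 23 20 (.thr 15 11 (.thr 31 16 (.dbl 63 43 47)))) .nd))))) (.rp 33 (.str 45 (.nv (.thr 15 11 (.thr 31 16 (.thr 63 47 (.dbl 23 20 43)))) (.nv (.thr 30 18 (.dbl 15 11 60)) (.rp 15 (.thr 20 23 (.thr 18 30 (.thr 16 31 (.thr 19 17 (.dbl 28 24 25))))) (.rp 11 (.thr 20 23 (.thr 18 30 (.thr 16 31 (.thr 19 17 (.dbl 28 24 25))))) .nd))))) .nd)))))))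 (.rp 40 (.thr 20 23 (.thr 41 60 (.thr 1 61 (.thr 9 13 (.thr 25 57 (.thr 29 17 (.thr 28 19 (.thr 31 30 (.dbl 16 24 26))))))))) (.rp 33 (.thr 20 23 (.thr 41 60 (.thr 1 61 (.thr 9 13 (.thr 25 57 (.thr 29 17 (.thr 28 19 (.thr 31 30 (.dbl 16 24 26))))))))) (.rp 30 (.thr 23 20 (.thr 63 43 (.thr 60 41 (.thr 61 62 (.thr 57 49 (.thr 51 54 (.thr 19 35 (.thr 25 28 (.thr 29 17 (.dbl 12 38 46)))))))))) (.rp 26 (.thr 23 20 (.thr 63 43 (.thr 60 41 (.thr 61 62 (.thr 57 49 (.thr 51 54 (.thr 19 35 (.thr 25 28 (.thr 29 17 (.dbl 12 38 46)))))))))) (.rp 23 (.thr 11 15 (.thr 41 60 (.thr 1 61 (.thr 9 13 (.thr 8 10 (.thr 25 57 (.thr 42 59 (.thr 40 43 (.dbl 56 24 26))))))))) (.rp 20 (.str 48 (.nv (.thr 15 11 (.thr 63 58 (.thr 31 47 (.thr 26 16 (.dbl 18 30 33))))) (.nv (.thr 18 33 (.thr 26 30 (.thr 11 15 (.dbl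 41 56 60)))) (.rp 60 (.str 40 (.nv (.thr 15 11 (.thr 63 58 (.thr 31 47 (.thr 26 16 (.dbl 18 30 33))))) (.nv (.thr 18 33 (.thr 26 30 (.thr 58 63 (.thr 42 10 (.thr 41 43 (.dbl 11 15 56)))))) (.nv (.thr 18 33 (.thr 26 30 (.thr 63 58 (.thr 31 16 (.dbl 15 11 47))))) (.rp 63 (.thr 18 33 (.thr 26 30 (.thr 16 31 (.thr 19 17 (.thr 51 35 (.thr 49 50 (.thr 61 57 (.thr 41 1 (.dbl 11 15 56))))))))) (.rp 58 (.thr 18 33 (.thr 26 30 (.thr 16 31 (.thr 19 17 (.thr 51 35 (.thr 49 50 (.thr 61 57 (.thr 41 1 (.dbl 11 15 56))))))))) (.rp 33 (.thr 63 58 (.thr 43 23 (.thr 41 42 (.thr 1 61 (.thr 9 13 (.thr 25 57 (.thr 19 28 (.thr 51 35 (.thr 12 38 (.dbl 29 17 46)))))))))) (.rp 30 (.thr 33 18 (.thr 63 58 (.thr 43 23 (.thr 41 42 (.thr 1 61 (.thr 17 49 (.thr 25 29 (.dbl 9 13 57)))))))) (.rp 26 (.str 25 (.nv (.thr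 17 29 (.thr 33 18 (.thr 1 49 (.thr 9 13 (.dbl 41 57 61))))) (.nv (.thr 15 11 (.thr 28 19 (.thr 63 58 (.thr 31 47 (.dbl 29 17 30))))) (.nv (.thr 17 29 (.thr 18 33 (.dbl 19 16 28))) (.rp 41 (.thr 19 28 (.thr 17 29 (.dbl 18 16 33))) (.rp 29 (.thr 33 18 (.thr 19 28 (.thr 51 35 (.thr 49 50 (.thr 1 17 (.dbl 61 41 57)))))) (.rp 17 (.thr 19 28 (.thr 15 11 (.thr 63 58 (.thr 43 23 (.thr 47 31 (.dbl 35 39 51)))))) .nd))))))) (.rp 18 (.thr 63 58 (.thr 43 23 (.thr 41 42 (.thr 1 61 (.thr 9 13 (.thr 25 57 (.thr 19 28 (.thr 51 35 (.thr 49 50 (.dbl 17 29 33)))))))))) (.rp 15 (.thr 33 18 (.thr 63 58 (.thr 43 23 (.thr 41 42 (.thr 1 61 (.thr 17 49 (.thr 25 29 (.dbl 9 13 57)))))))) (.rp 11 (.thr 33 18 (.thr 63 58 (.thr 43 23 (.thr 41 42 (.thr 1 61 (.thr 17 49 (.thr 25 29 (.dbl 9 13 57)))))))) .nd))))))))))))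 (.rp 40 (.thr 60 41 (.thr 15 11 (.thr 63 58 (.thr 31 47 (.thr 26 16 (.dbl 18 30 33)))))) (.rp 33 (.thr 15 11 (.thr 63 58 (.thr 31 47 (.thr 26 16 (.thr 30 18 (.dbl 60 41 45)))))) (.rp 30 (.thr 33 18 (.thr 63 58 (.thr 43 23 (.thr 41 60 (.thr 40 42 (.thr 1 61 (.thr 17 49 (.thr 25 29 (.dbl 9 13 57))))))))) (.rp 26 (.thr 33 18 (.thr 63 58 (.thr 60 41 (.thr 61 62 (.thr 49 57 (.thr 17 1 (.thr 25 29 (.thr 19 28 (.dbl 51 35 50))))))))) (.rp 18 (.thr 15 11 (.thr 63 58 (.thr 47 31 (.thr 60 41 (.thr 61 62 (.thr 45 30 (.thr 29 13 (.dbl 46 12 44)))))))) (.rp 15 (.thr 18 33 (.thr 26 30 (.thr 16 31 (.thr 19 17 (.thr 51 35 (.thr 49 50 (.thr 61 57 (.dbl 41 1 60)))))))) (.rp 11 (.thr 18 33 (.thr 26 30 (.thr 16 31 (.thr 19 17 (.thr 51 35 (.thr 49 50 (.thr 61 57 (.dbl 41 1 60)))))))) .nd))))))))))) (.rp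 18 (.thr 11 15 (.thr 41 60 (.thr 1 61 (.thr 9 13 (.thr 8 10 (.thr 25 57 (.thr 42 59 (.thr 40 43 (.dbl 56 24 26))))))))) (.rp 15 (.thr 23 20 (.thr 63 43 (.thr 60 41 (.thr 61 62 (.thr 57 49 (.thr 51 54 (.thr 19 35 (.thr 25 28 (.thr 29 17 (.dbl 12 38 46)))))))))) (.rp 11 (.thr 20 23 (.thr 41 60 (.thr 1 61 (.thr 9 13 (.thr 25 57 (.thr 29 17 (.thr 28 19 (.thr 31 30 (.dbl 16 24 26))))))))) .nd))))))))))))))))))))) (.rp 38 (.str 3 (.nv (.thr 5 6 (.thr 15 11 (.thr 37 53 (.thr 26 48 (.thr 60 41 (.dbl 30 18 45)))))) (.nv (.thr 5 6 (.thr 37 53 (.thr 41 60 (.thr 1 61 (.thr 13 9 (.thr 49 25 (.dbl 33 17 45))))))) (.nv (.thr 5 6 (.thr 15 11 (.thr 60 41 (.thr 30 45 (.thr 26 18 (.dbl 37 48 53)))))) (.rp 60 (.thr 5 6 (.thr 37 53 (.thr 15 11 (.thr 48 26 (.thr 33 18 (.thr 41 45 (.thr 1 61 (.thr 49 17 (.dbl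 13 9 25))))))))) (.rp 53 (.thr 23 20 (.thr 15 11 (.thr 60 41 (.thr 30 45 (.thr 26 18 (.thr 31 16 (.dbl 63 43 47))))))) (.rp 48 (.thr 23 20 (.thr 6 5 (.thr 12 9 (.thr 63 43 (.thr 29 46 (.thr 25 17 (.thr 28 19 (.dbl 60 41 44)))))))) (.rp 45 (.thr 23 20 (.thr 6 5 (.thr 12 9 (.thr 63 43 (.thr 29 46 (.thr 25 17 (.thr 28 19 (.dbl 60 41 44)))))))) (.rp 41 (.thr 23 20 (.thr 6 5 (.thr 55 39 (.thr 12 9 (.thr 63 43 (.thr 29 46 (.thr 25 17 (.thr 19 28 (.dbl 51 35 59))))))))) (.rp 37 (.thr 23 20 (.thr 6 5 (.thr 12 9 (.thr 63 43 (.thr 29 46 (.thr 25 17 (.thr 28 19 (.dbl 60 41 44)))))))) (.rp 26 (.thr 5 6 (.thr 37 53 (.thr 41 60 (.thr 1 61 (.thr 13 9 (.thr 33 45 (.dbl 49 17 25))))))) (.rp 6 (.thr 23 20 (.thr 15 11 (.thr 60 41 (.thr 30 45 (.thr 26 18 (.thr 31 16 (.dbl 63 43 47))))))) (.rp 5 (.thr 23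 20 (.thr 15 11 (.thr 60 41 (.thr 30 45 (.thr 26 18 (.thr 31 16 (.dbl 63 43 47))))))) .nd))))))))))))) .nd))))) (.rp 38 (.str 3 (.nv (.thr 15 11 (.thr 37 52 (.thr 26 48 (.thr 60 41 (.dbl 30 18 45))))) (.nv (.thr 37 52 (.thr 5 53 (.thr 6 4 (.thr 41 60 (.thr 1 61 (.dbl 9 12 13)))))) (.nv (.thr 37 52 (.thr 41 60 (.thr 33 45 (.thr 48 18 (.dbl 15 11 26))))) (.rp 60 (.thr 37 52 (.thr 53 5 (.thr 15 11 (.thr 48 26 (.thr 63 58 (.dbl 23 20 43)))))) (.rp 52 (.thr 23 20 (.thr 15 11 (.thr 60 41 (.thr 30 45 (.thr 26 18 (.thr 31 16 (.dbl 63 43 47))))))) (.rp 48 (.thr 23 20 (.thr 55 39 (.thr 63 43 (.thr 11 15 (.thr 51 59 (.thr 60 41 (.thr 54 57 (.dbl 52 37 53)))))))) (.rp 41 (.thr 23 20 (.thr 37 52 (.thr 53 5 (.thr 63 43 (.thr 48 58 (.dbl 15 11 26)))))) (.rp 37 (.thr 23 20 (.thr 39 55 (.thr 11 15 (.thr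 43 63 (.thr 41 60 (.thr 40 42 (.thr 26 56 (.thr 30 18 (.thr 31 16 (.thr 28 29 (.thr 19 25 (.dbl 35 47 51)))))))))))) .nd))))))))) (.rp 37 (.str 38 (.nv (.thr 23 20 (.dbl 55 4 39)) (.nv (.thr 6 54 (.dbl 4 5 55)) (.rp 55 (.str 3 (.nv (.thr 6 54 (.thr 12 9 (.thr 23 20 (.thr 63 43 (.thr 29 46 (.dbl 25 17 51)))))) (.nv (.thr 54 6 (.thr 60 41 (.thr 51 57 (.thr 19 35 (.dbl 25 12 28))))) (.rp 60 (.thr 6 54 (.thr 15 11 (.thr 12 9 (.thr 14 13 (.thr 26 50 (.thr 30 18 (.thr 62 46 (.dbl 2 10 42)))))))) (.rp 54 (.thr 23 20 (.thr 63 43 (.thr 60 41 (.thr 62 61 (.thr 42 2 (.thr 46 34 (.thr 30 14 (.dbl 15 11 45)))))))) (.rp 51 (.thr 6 54 (.thr 9 12 (.thr 41 60 (.thr 57 25 (.thr 1 61 (.dbl 5 4 13)))))) (.rp 25 (.thr 6 54 (.thr 5 4 (.thr 41 60 (.thr 1 61 (.dbl 9 12 13))))) (.rp 12 (.thr 23 20 (.thr 63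 43 (.thr 60 41 (.thr 62 61 (.thr 42 2 (.thr 46 34 (.thr 30 14 (.dbl 15 11 45)))))))) (.rp 9 (.thr 54 6 (.thr 60 41 (.thr 51 57 (.thr 25 12 (.dbl 19 28 35))))) (.rp 6 (.thr 20 23 (.thr 41 60 (.thr 35 44 (.thr 19 51 (.thr 28 25 (.thr 16 24 (.thr 26 31 (.dbl 18 17 30)))))))) .nd)))))))))) (.rp 4 (.str 12 (.nv (.thr 6 54 (.thr 3 9 (.thr 23 20 (.thr 55 39 (.thr 63 43 (.dbl 51 25 59)))))) (.nv (.thr 6 54 (.thr 3 9 (.thr 60 41 (.thr 28 44 (.dbl 25 19 51))))) (.rp 60 (.thr 6 54 (.thr 3 9 (.thr 15 11 (.thr 14 13 (.thr 26 50 (.thr 30 18 (.thr 62 46 (.dbl 2 10 42)))))))) (.rp 54 (.thr 23 20 (.thr 25 51 (.thr 28 19 (.thr 60 44 (.thr 3 41 (.thr 63 43 (.dbl 29 17 46))))))) (.rp 51 (.thr 6 54 (.thr 3 9 (.thr 15 11 (.thr 14 13 (.thr 26 50 (.thr 30 18 (.dbl 60 41 45))))))) (.rp 25 (.thr 6 54 (.thr 23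 20 (.thr 39 55 (.thr 3 9 (.thr 43 63 (.thr 35 47 (.dbl 41 44 60))))))) (.rp 9 (.thr 54 6 (.thr 51 25 (.thr 60 57 (.thr 41 3 (.dbl 44 28 35))))) (.rp 6 (.thr 23 20 (.thr 25 51 (.thr 28 19 (.thr 60 44 (.thr 3 41 (.thr 63 43 (.dbl 29 17 46))))))) (.rp 3 (.thr 54 6 (.thr 23 20 (.thr 55 39 (.thr 51 25 (.thr 63 59 (.thr 46 29 (.thr 42 34 (.thr 60 57 (.dbl 62 2 61))))))))) .nd)))))))))) .nd))))) (.rp 23 (.thr 37 52 (.str 3 (.nv (.thr 5 53 (.thr 6 4 (.thr 41 60 (.thr 1 61 (.dbl 9 12 13))))) (.nv (.thr 15 11 (.thr 60 41 (.thr 30 45 (.dbl 26 18 48)))) (.rp 60 (.thr 5 53 (.thr 6 4 (.thr 15 11 (.thr 12 9 (.thr 13 14 (.thr 25 49 (.dbl 38 51 54))))))) (.rp 56 (.thr 15 11 (.thr 48 26 (.thr 41 60 (.dbl 33 18 45)))) (.rp 48 (.thr 5 53 (.thr 6 4 (.thr 15 11 (.thr 12 9 (.thr 13 14 (.thr 25 49 (.dbl 38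 51 54))))))) (.rp 41 (.thr 5 53 (.thr 6 4 (.thr 15 11 (.thr 26 48 (.thr 12 9 (.thr 14 13 (.dbl 38 50 54))))))) (.rp 31 (.str 19 (.nv (.thr 5 53 (.thr 6 4 (.thr 12 9 (.thr 51 35 (.dbl 25 28 38))))) (.nv (.thr 15 11 (.thr 60 41 (.thr 30 45 (.dbl 26 18 48)))) .nd))) (.rp 19 (.str 31 (.nv (.thr 26 16 (.thr 18 30 (.dbl 48 15 33))) (.nv (.thr 15 11 (.dbl 26 16 48)) (.rp 48 (.thr 15 11 (.thr 60 41 (.thr 30 45 (.dbl 26 16 18)))) (.rp 26 (.thr 5 53 (.thr 6 4 (.thr 41 60 (.thr 1 61 (.dbl 9 12 13))))) (.rp 16 (.thr 53 5 (.thr 15 11 (.thr 63 47 (.dbl 48 26 58)))) (.rp 15 (.thr 5 53 (.thr 6 4 (.thr 41 60 (.thr 1 61 (.dbl 9 12 13))))) .nd))))))) .nd)))))))))) (.rp 20 (.str 6 (.nv (.thr 5 4 (.dbl 37 52 53)) (.nv (.thr 38 54 (.dbl 4 5 55)) (.rp 60 (.str 40 (.nv (.thr 5 4 (.dbl 37 52 53)) (.nv (.thr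 4 5 (.dbl 38 54 55)) (.rp 5 (.thr 38 54 (.thr 55 4 (.thr 39 23 (.dbl 37 36 52)))) (.rp 4 (.thr 38 54 (.thr 37 52 (.thr 36 39 (.thr 32 44 (.thr 42 47 (.thr 2 62 (.thr 14 10 (.thr 50 26 (.dbl 34 18 46))))))))) .nd))))) (.rp 40 (.str 60 (.nv (.thr 5 4 (.dbl 37 52 53)) (.nv (.thr 38 54 (.dbl 4 5 55)) (.rp 5 (.thr 38 54 (.thr 55 4 (.thr 39 23 (.dbl 37 36 52)))) (.rp 4 (.thr 38 54 (.thr 3 41 (.thr 12 9 (.thr 28 44 (.dbl 25 19 51))))) .nd))))) (.rp 5 (.thr 38 54 (.thr 55 4 (.thr 39 23 (.dbl 37 36 52)))) (.rp 4 (.thr 52 37 (.str 60 (.nv (.thr 54 38 (.thr 53 55 (.thr 48 56 (.thr 51 57 (.thr 58 63 (.dbl 50 49 62)))))) (.nv (.thr 3 41 (.thr 12 9 (.thr 28 44 (.thr 38 54 (.dbl 25 19 51))))) (.rp 57 (.thr 38 54 (.thr 3 41 (.thr 12 9 (.thr 25 51 (.dbl 28 19 44))))) (.rp 54 (.thr 3 41 (.thr 15 11 (.thr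 12 9 (.thr 28 44 (.thr 25 19 (.thr 29 17 (.dbl 30 31 45))))))) (.rp 51 (.thr 54 38 (.thr 53 55 (.thr 48 56 (.thr 63 58 (.thr 61 62 (.dbl 41 1 3)))))) (.rp 38 (.thr 3 41 (.thr 15 11 (.thr 45 30 (.thr 12 9 (.thr 13 14 (.thr 44 28 (.thr 29 61 (.dbl 46 47 63)))))))) (.rp 12 (.str 8 (.nv (.thr 41 3 (.thr 54 38 (.thr 53 55 (.thr 57 51 (.thr 25 9 (.dbl 61 1 49)))))) (.nv (.thr 3 41 (.thr 11 15 (.thr 10 9 (.thr 14 2 (.thr 38 54 (.thr 26 50 (.thr 18 30 (.dbl 48 33 56)))))))) (.nv (.thr 54 38 (.thr 53 55 (.thr 48 56 (.thr 63 58 (.thr 61 62 (.dbl 57 49 51)))))) (.rp 57 (.thr 38 54 (.thr 56 48 (.thr 41 3 (.thr 26 11 (.thr 14 50 (.thr 2 10 (.thr 62 42 (.dbl 30 18 46)))))))) (.rp 54 (.str 14 (.nv (.thr 2 10 (.thr 41 3 (.thr 42 62 (.thr 56 48 (.dbl 40 24 43))))) (.nv (.thr 10 2 (.thr 11 9 (.dbl 3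 15 41))) (.rp 41 (.thr 2 10 (.thr 62 42 (.thr 30 46 (.thr 63 61 (.thr 26 18 (.thr 31 16 (.dbl 15 45 47))))))) (.rp 15 (.thr 10 2 (.thr 11 9 (.thr 41 3 (.thr 1 61 (.dbl 56 26 48))))) (.rp 10 (.thr 56 48 (.thr 41 3 (.thr 26 11 (.thr 18 30 (.thr 50 38 (.thr 2 34 (.thr 42 62 (.dbl 40 24 43)))))))) (.rp 3 (.thr 56 48 (.thr 2 10 (.thr 62 42 (.thr 61 63 (.thr 41 1 (.thr 26 11 (.dbl 30 18 46))))))) (.rp 2 (.thr 56 48 (.thr 41 3 (.thr 1 61 (.thr 26 11 (.thr 16 31 (.thr 38 50 (.thr 44 35 (.thr 40 24 (.thr 36 32 (.thr 42 43 (.thr 59 25 (.dbl 58 10 57)))))))))))) .nd)))))))) (.rp 51 (.thr 38 54 (.thr 56 48 (.thr 41 3 (.thr 26 11 (.thr 16 31 (.thr 18 30 (.thr 50 14 (.thr 34 2 (.thr 1 61 (.thr 35 44 (.thr 33 32 (.dbl 17 19 49)))))))))))) (.rp 39 (.thr 38 54 (.thr 56 48 (.thr 41 3 (.thr 26 11 (.thr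 14 50 (.thr 2 10 (.thr 62 42 (.dbl 30 18 46)))))))) (.rp 38 (.thr 48 56 (.str 51 (.nv (.thr 49 50 (.thr 41 3 (.thr 57 54 (.dbl 61 1 53)))) (.nv (.thr 41 3 (.thr 57 54 (.thr 25 9 (.thr 59 42 (.thr 63 55 (.dbl 61 1 62)))))) (.nv (.thr 3 41 (.thr 33 18 (.thr 49 50 (.thr 17 1 (.thr 25 29 (.dbl 19 28 35)))))) (.nv (.thr 50 49 (.thr 54 57 (.thr 58 62 (.dbl 53 55 63)))) (.rp 39 (.str 36 (.nv (.thr 49 50 (.thr 41 3 (.thr 57 54 (.dbl 61 1 53)))) (.nv (.thr 41 3 (.thr 57 54 (.thr 25 9 (.thr 59 42 (.thr 63 55 (.dbl 61 1 62)))))) (.nv (.thr 3 41 (.thr 33 18 (.thr 49 50 (.thr 17 1 (.thr 25 29 (.dbl 19 28 35)))))) (.nv (.thr 50 49 (.thr 54 57 (.thr 53 55 (.dbl 58 62 63)))) .nd))))) (.rp 36 (.str 39 (.nv (.thr 41 3 (.thr 49 50 (.thr 57 54 (.dbl 61 1 53)))) (.nv (.thr 3 41 (.thr 23 55 (.thr 35 19 (.dbl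 43 47 63)))) (.nv (.thr 55 23 (.dbl 54 53 57)) .nd)))) .nd)))))))) (.rp 25 (.thr 54 38 (.thr 51 57 (.thr 53 55 (.thr 48 56 (.thr 58 63 (.dbl 50 49 62)))))) .nd)))))))))) (.rp 8 (.str 12 (.nv (.thr 28 44 (.thr 25 19 (.dbl 38 51 54))) (.nv (.dbl 3 9 41) .nd))) .nd)))))))))) .nd))))))) (.rp 6 (.str 3 (.nv (.thr 37 52 (.thr 41 60 (.thr 33 45 (.thr 48 18 (.dbl 15 11 26))))) (.nv (.thr 23 20 (.thr 37 52 (.thr 53 5 (.thr 63 43 (.thr 48 58 (.dbl 15 11 26)))))) (.nv (.thr 15 11 (.thr 37 52 (.thr 60 41 (.thr 30 45 (.dbl 26 18 48))))) (.rp 60 (.thr 37 52 (.thr 53 5 (.thr 15 11 (.thr 48 26 (.thr 63 58 (.dbl 23 20 43)))))) (.rp 52 (.thr 23 20 (.thr 15 11 (.thr 60 41 (.thr 30 45 (.thr 26 18 (.thr 31 16 (.dbl 63 43 47))))))) (.rp 48 (.thr 23 20 (.thr 55 39 (.thr 52 37 (.thr 54 53 (.thr 63 43 (.thr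 60 41 (.dbl 51 57 59))))))) (.rp 37 (.thr 23 20 (.thr 55 39 (.thr 38 4 (.thr 63 43 (.thr 11 15 (.thr 51 59 (.thr 35 19 (.dbl 41 44 60)))))))) (.rp 26 (.thr 23 20 (.thr 55 39 (.thr 52 37 (.thr 54 53 (.thr 63 43 (.thr 60 41 (.dbl 51 57 59))))))) (.rp 15 (.thr 23 20 (.thr 39 55 (.thr 37 52 (.thr 43 63 (.thr 47 35 (.thr 42 32 (.dbl 41 40 60))))))) (.rp 11 (.thr 23 20 (.thr 55 39 (.thr 52 37 (.thr 54 53 (.thr 60 41 (.thr 51 57 (.dbl 63 43 59))))))) .nd))))))))))) (.rp 5 (.thr 23 20 (.thr 55 39 (.thr 38 4 (.thr 54 6 (.dbl 52 37 53))))) (.rp 4 (.str 3 (.nv (.thr 37 52 (.thr 41 60 (.thr 33 45 (.thr 48 18 (.dbl 15 11 26))))) (.nv (.thr 15 11 (.thr 37 52 (.thr 48 26 (.thr 53 5 (.thr 63 58 (.dbl 23 20 43)))))) (.nv (.thr 15 11 (.thr 60 41 (.thr 30 45 (.thr 26 18 (.dbl 37 48 52))))) (.rp 56 (.thr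 37 52 (.thr 15 11 (.thr 48 26 (.thr 41 60 (.dbl 33 18 45))))) (.rp 52 (.thr 15 11 (.thr 60 41 (.thr 30 45 (.thr 26 18 (.thr 31 16 (.thr 63 47 (.dbl 23 20 43))))))) (.rp 48 (.thr 23 20 (.thr 55 39 (.thr 52 37 (.thr 54 53 (.thr 63 43 (.thr 60 41 (.dbl 51 57 59))))))) (.rp 41 (.thr 23 20 (.thr 39 55 (.thr 37 52 (.thr 36 38 (.thr 53 5 (.thr 63 43 (.thr 48 58 (.dbl 15 11 26)))))))) (.rp 37 (.thr 23 20 (.thr 55 39 (.thr 63 43 (.thr 11 15 (.thr 51 59 (.thr 60 41 (.thr 62 61 (.thr 54 57 (.thr 58 50 (.dbl 53 48 52)))))))))) (.rp 26 (.thr 23 20 (.thr 55 39 (.thr 52 37 (.thr 54 53 (.thr 63 43 (.thr 60 41 (.dbl 51 57 59))))))) (.rp 15 (.thr 23 20 (.thr 52 37 (.thr 63 43 (.thr 60 41 (.thr 48 56 (.thr 53 58 (.dbl 55 39 54))))))) (.rp 12 (.str 8 (.nv (.thr 11 15 (.thr 23 20 (.thr 43 63 (.thr 41 60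 (.thr 40 42 (.dbl 56 24 26)))))) (.nv (.thr 11 15 (.thr 37 52 (.thr 5 53 (.thr 9 10 (.thr 13 1 (.thr 25 49 (.dbl 41 57 60))))))) (.nv (.thr 15 11 (.thr 60 41 (.thr 30 45 (.thr 26 18 (.dbl 37 48 52))))) (.rp 60 (.thr 15 11 (.thr 37 52 (.thr 48 26 (.thr 53 5 (.thr 63 58 (.dbl 23 20 43)))))) (.rp 52 (.thr 15 11 (.thr 60 41 (.thr 30 45 (.thr 26 18 (.thr 31 16 (.thr 63 47 (.dbl 23 20 43))))))) (.rp 41 (.thr 15 11 (.thr 20 23 (.thr 37 52 (.thr 26 48 (.thr 18 30 (.thr 16 31 (.thr 19 17 (.dbl 28 24 25)))))))) (.rp 15 (.thr 23 20 (.thr 52 37 (.thr 60 41 (.thr 48 56 (.thr 63 43 (.thr 53 58 (.dbl 55 39 54))))))) (.rp 11 (.thr 23 20 (.thr 52 37 (.thr 55 39 (.thr 54 53 (.thr 60 41 (.thr 51 57 (.dbl 63 43 59))))))) .nd))))))))) (.rp 11 (.thr 23 20 (.thr 55 39 (.thr 52 37 (.thr 54 53 (.thr 60 41 (.thr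 51 57 (.dbl 63 43 59))))))) (.rp 8 (.str 12 (.nv (.thr 37 52 (.thr 41 60 (.thr 33 45 (.thr 48 18 (.dbl 15 11 26))))) (.nv (.thr 9 6 (.thr 15 11 (.thr 13 14 (.thr 5 1 (.dbl 37 52 53))))) (.nv (.thr 9 6 (.thr 41 60 (.thr 25 57 (.thr 51 38 (.dbl 19 28 35))))) .nd)))) .nd)))))))))))))) .nd)))))))))))))

theorem w49 : WinAt (6291456, 134217729) :=
  chF (K := []) kn c49 6291456 134217729 27
    [] (by decide +kernel) (by decide +kernel)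

/-- A certificate. -/
noncomputable def c50 : Ct := (.str 52 (.nv (.thr 7 37 (.thr 23 20 (.thr 55 39 (.thr 38 4 (.dbl 54 6 53))))) (.nv (.thr 20 23 (.thr 4 36 (.thr 55 38 (.thr 37 7 (.dbl 53 5 54))))) (.rp 55 (.str 60 (.nv (.thr 3 41 (.thr 23 20 (.thr 37 7 (.thr 53 5 (.thr 63 43 (.dbl 48 56 58)))))) (.nv (.thr 37 7 (.thr 3 41 (.thr 48 56 (.thr 18 33 (.dbl 26 15 30))))) (.rp 56 (.thr 37 7 (.thr 5 53 (.thr 41 3 (.thr 1 61 (.thr 13 9 (.thr 49 25 (.dbl 33 17 45))))))) (.rp 48 (.thr 37 7 (.thr 5 53 (.thr 41 3 (.thr 1 61 (.thr 13 9 (.thr 49 25 (.dbl 33 17 45))))))) (.rp 41 (.thr 23 20 (.thr 37 7 (.thr 53 5 (.thr 48 56 (.thr 63 58 (.thr 3 43 (.thr 18 33 (.dbl 26 15 30)))))))) (.rp 37 (.thr 23 20 (.thr 48 56 (.thr 3 41 (.thr 63 43 (.thr 62 61 (.thr 58 53 (.thr 42 2 (.thr 26 10 (.dbl 18 30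 33))))))))) (.rp 23 (.thr 48 56 (.thr 3 41 (.thr 18 33 (.thr 26 30 (.dbl 37 7 15))))) (.rp 15 (.thr 23 20 (.thr 37 7 (.thr 48 56 (.thr 3 41 (.thr 63 43 (.dbl 53 5 58)))))) (.rp 7 (.thr 23 20 (.thr 48 56 (.thr 3 41 (.thr 18 33 (.thr 26 30 (.thr 37 15 (.thr 63 43 (.dbl 53 5 58)))))))) (.rp 3 (.thr 37 7 (.thr 53 5 (.thr 48 56 (.thr 15 26 (.thr 45 30 (.thr 63 58 (.thr 61 62 (.dbl 41 1 33)))))))) .nd))))))))))) (.rp 54 (.str 60 (.nv (.thr 3 41 (.thr 23 20 (.thr 37 7 (.thr 53 5 (.thr 63 43 (.dbl 48 56 58)))))) (.nv (.thr 37 7 (.thr 3 41 (.thr 48 56 (.thr 18 33 (.dbl 26 15 30))))) (.rp 56 (.thr 37 7 (.thr 5 53 (.thr 41 3 (.thr 1 61 (.thr 13 9 (.thr 49 25 (.dbl 33 17 45))))))) (.rp 48 (.thr 37 7 (.thr 5 53 (.thr 41 3 (.thr 1 61 (.thr 13 9 (.thr 49 25 (.dbl 33 17 45))))))) (.rp 41 (.thr 23 20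 (.thr 37 7 (.thr 53 5 (.thr 48 56 (.thr 63 58 (.thr 3 43 (.thr 18 33 (.dbl 26 15 30)))))))) (.rp 37 (.thr 23 20 (.thr 48 56 (.thr 3 41 (.thr 63 43 (.thr 62 61 (.thr 58 53 (.thr 42 2 (.thr 26 10 (.dbl 18 30 33))))))))) (.rp 15 (.thr 23 20 (.thr 37 7 (.thr 48 56 (.thr 3 41 (.thr 63 43 (.dbl 53 5 58)))))) (.rp 7 (.thr 23 20 (.thr 48 56 (.thr 3 41 (.thr 18 33 (.thr 26 30 (.thr 37 15 (.thr 63 43 (.dbl 53 5 58)))))))) (.rp 3 (.thr 37 7 (.thr 53 5 (.thr 48 56 (.thr 15 26 (.thr 45 30 (.thr 63 58 (.thr 41 33 (.dbl 61 1 62)))))))) .nd)))))))))) (.rp 53 (.thr 20 23 (.thr 4 36 (.thr 38 55 (.thr 6 54 (.dbl 7 5 37))))) (.rp 38 (.str 60 (.nv (.thr 37 7 (.thr 48 56 (.thr 15 26 (.thr 41 3 (.dbl 45 30 33))))) (.nv (.thr 37 7 (.thr 41 3 (.thr 53 5 (.thr 54 55 (.thr 57 51 (.dbl 61 1 49)))))) (.nv (.thr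 37 7 (.thr 3 41 (.thr 48 56 (.thr 18 33 (.dbl 26 15 30))))) (.rp 41 (.thr 37 7 (.thr 53 5 (.thr 54 55 (.thr 48 56 (.thr 63 58 (.thr 61 62 (.dbl 57 49 51))))))) (.rp 37 (.thr 23 20 (.thr 48 56 (.thr 3 41 (.thr 63 43 (.thr 61 62 (.thr 53 58 (.thr 54 55 (.dbl 57 49 51)))))))) (.rp 15 (.thr 23 20 (.thr 37 7 (.thr 48 56 (.thr 3 41 (.thr 63 43 (.dbl 53 5 58)))))) (.rp 7 (.thr 23 20 (.thr 48 56 (.thr 3 41 (.thr 18 33 (.thr 26 30 (.thr 37 15 (.thr 63 43 (.dbl 53 5 58)))))))) (.rp 3 (.thr 37 7 (.thr 53 5 (.thr 54 55 (.thr 48 56 (.thr 63 58 (.thr 61 62 (.dbl 57 49 51))))))) .nd))))))))) (.rp 37 (.str 38 (.nv (.thr 20 23 (.dbl 4 36 55)) (.nv (.thr 54 6 (.dbl 55 4 53)) (.rp 55 (.str 60 (.nv (.thr 3 41 (.thr 6 54 (.thr 12 9 (.thr 23 20 (.thr 25 51 (.thr 63 43 (.dbl 29 17 46))))))) (.nv (.thr 54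 6 (.thr 20 23 (.thr 36 4 (.thr 48 56 (.thr 12 24 (.dbl 51 25 57)))))) (.nv (.thr 3 41 (.thr 48 56 (.thr 54 6 (.thr 51 57 (.thr 50 49 (.thr 26 14 (.dbl 18 30 33))))))) (.nv (.thr 6 54 (.thr 20 23 (.thr 36 4 (.thr 48 56 (.thr 12 24 (.dbl 3 9 41)))))) (.rp 54 (.thr 56 48 (.thr 41 3 (.thr 26 11 (.thr 18 30 (.thr 50 14 (.thr 2 34 (.thr 62 42 (.dbl 61 1 63)))))))) (.rp 6 (.thr 56 48 (.thr 41 3 (.thr 26 11 (.thr 18 30 (.thr 50 14 (.thr 2 34 (.thr 62 42 (.dbl 61 1 63)))))))) .nd))))))) (.rp 4 (.str 12 (.nv (.thr 6 54 (.thr 3 9 (.thr 23 20 (.thr 63 43 (.thr 29 46 (.dbl 25 17 51)))))) (.nv (.thr 51 25 (.thr 54 6 (.thr 53 55 (.thr 60 57 (.thr 48 56 (.thr 58 63 (.dbl 50 49 62))))))) (.nv (.thr 6 54 (.thr 3 9 (.thr 41 60 (.thr 35 44 (.dbl 51 19 25))))) (.rp 60 (.thr 54 6 (.thr 55 53 (.thr 51 25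 (.thr 63 59 (.thr 46 29 (.thr 42 34 (.thr 62 2 (.thr 50 58 (.dbl 14 26 30))))))))) (.rp 54 (.str 60 (.nv (.thr 25 51 (.thr 48 56 (.thr 24 36 (.thr 26 27 (.thr 18 30 (.dbl 3 33 41)))))) (.nv (.thr 3 41 (.thr 23 20 (.thr 63 43 (.thr 46 29 (.thr 62 61 (.dbl 42 2 34)))))) (.nv (.thr 41 3 (.thr 56 48 (.thr 26 11 (.thr 14 50 (.thr 15 13 (.dbl 30 18 45)))))) (.nv (.thr 23 20 (.thr 3 41 (.thr 63 43 (.thr 29 46 (.dbl 25 17 51))))) (.rp 41 (.thr 48 56 (.thr 24 36 (.thr 25 51 (.thr 26 27 (.thr 30 18 (.thr 14 50 (.dbl 15 13 45))))))) (.rp 33 (.thr 48 56 (.thr 24 36 (.thr 25 51 (.thr 26 27 (.thr 30 18 (.thr 14 50 (.dbl 15 13 45))))))) (.rp 3 (.thr 48 56 (.thr 24 36 (.thr 25 51 (.thr 26 27 (.thr 30 18 (.thr 15 45 (.dbl 14 13 50))))))) .nd)))))))) (.rp 51 (.thr 6 54 (.thr 23 20 (.thr 3 9 (.thr 63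 43 (.thr 46 29 (.thr 60 41 (.thr 62 61 (.dbl 42 2 34)))))))) (.rp 25 (.thr 6 54 (.thr 23 20 (.thr 3 9 (.thr 63 43 (.thr 46 29 (.thr 42 34 (.thr 62 2 (.dbl 60 41 61)))))))) (.rp 9 (.thr 54 6 (.thr 55 53 (.thr 23 20 (.thr 51 25 (.thr 63 59 (.thr 3 43 (.dbl 60 41 57))))))) (.rp 6 (.str 60 (.nv (.thr 23 20 (.thr 3 41 (.thr 63 43 (.thr 29 46 (.dbl 25 17 51))))) (.nv (.thr 3 41 (.thr 23 20 (.thr 63 43 (.thr 46 29 (.thr 62 61 (.dbl 42 2 34)))))) (.nv (.thr 48 56 (.thr 51 25 (.thr 49 50 (.thr 57 54 (.thr 61 53 (.dbl 41 1 3)))))) (.rp 41 (.thr 48 56 (.thr 24 36 (.thr 25 51 (.thr 26 27 (.thr 30 18 (.thr 14 50 (.dbl 15 13 45))))))) (.rp 7 (.str 5 (.nv (.thr 25 51 (.thr 41 3 (.thr 1 61 (.dbl 9 13 57)))) (.nv (.thr 3 41 (.thr 23 20 (.thr 63 43 (.thr 62 61 (.thr 42 2 (.dbl 46 29 34)))))) (.nv (.thr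 41 3 (.thr 1 61 (.thr 9 13 (.dbl 25 51 57)))) (.rp 61 (.thr 23 20 (.thr 25 51 (.thr 3 41 (.thr 63 43 (.dbl 29 17 46))))) (.rp 41 (.thr 48 56 (.thr 24 36 (.thr 25 51 (.thr 26 27 (.thr 30 18 (.thr 14 50 (.dbl 15 13 45))))))) (.rp 3 (.thr 48 56 (.thr 51 25 (.thr 54 57 (.thr 53 55 (.thr 58 63 (.dbl 50 49 62)))))) .nd))))))) (.rp 5 (.str 7 (.nv (.thr 3 41 (.thr 15 11 (.thr 14 13 (.thr 26 50 (.dbl 30 18 45))))) (.nv (.thr 23 20 (.thr 55 39 (.thr 54 53 (.dbl 51 25 57)))) (.rp 25 (.thr 23 20 (.thr 55 39 (.thr 54 53 (.thr 51 57 (.thr 63 59 (.dbl 3 41 43)))))) (.rp 15 (.str 10 (.nv (.thr 25 51 (.thr 41 3 (.thr 9 57 (.thr 11 8 (.dbl 56 26 48))))) (.nv (.thr 3 41 (.thr 23 20 (.thr 63 43 (.thr 46 29 (.thr 62 61 (.dbl 42 2 34)))))) (.nv (.thr 23 20 (.thr 55 39 (.thr 54 53 (.dbl 51 25 57)))) (.rp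 48 (.str 26 (.nv (.thr 18 30 (.thr 50 14 (.thr 34 2 (.dbl 42 46 58)))) (.nv (.thr 23 20 (.thr 51 25 (.thr 55 39 (.dbl 54 53 57)))) (.rp 32 (.thr 16 31 (.thr 23 20 (.thr 55 39 (.thr 54 53 (.dbl 51 25 57))))) (.rp 16 (.str 32 (.nv (.thr 25 51 (.thr 41 3 (.thr 9 57 (.dbl 11 8 56)))) (.nv (.thr 41 3 (.thr 42 58 (.thr 40 43 (.dbl 44 35 36)))) (.nv (.thr 50 14 (.thr 58 42 (.thr 54 62 (.dbl 51 25 57)))) (.rp 24 (.thr 20 23 (.thr 30 18 (.thr 14 50 (.thr 62 46 (.dbl 42 2 58))))) (.rp 20 (.str 24 (.nv (.dbl 25 27 51) (.rp 51 (.thr 30 18 (.thr 42 58 (.thr 62 2 (.dbl 14 46 50)))) (.rp 27 (.thr 30 18 (.thr 14 50 (.thr 62 46 (.dbl 42 2 58)))) (.rp 25 (.thr 30 18 (.thr 14 50 (.thr 62 46 (.dbl 42 2 58)))) .nd))))) .nd)))))) .nd))))) (.rp 26 (.thr 48 56 (.thr 23 20 (.thr 55 39 (.thr 54 53 (.dbl 51 25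 57))))) .nd)))))) (.rp 10 (.str 15 (.nv (.thr 14 13 (.thr 26 50 (.dbl 30 18 45))) (.nv (.dbl 3 11 41) (.rp 14 (.str 2 (.nv (.thr 23 20 (.thr 39 55 (.dbl 51 25 27))) (.nv (.dbl 3 11 41) .nd))) .nd)))) .nd)))))) (.rp 3 (.thr 48 56 (.thr 51 25 (.thr 54 57 (.thr 53 55 (.thr 58 63 (.dbl 50 49 62)))))) .nd)))))))) .nd)))))))))) .nd))))) (.rp 23 (.str 54 (.nv (.thr 37 7 (.dbl 53 5 55)) (.nv (.thr 55 53 (.dbl 38 4 6)) (.rp 55 (.thr 7 37 (.thr 38 6 (.str 60 (.nv (.thr 41 3 (.thr 56 48 (.thr 26 11 (.thr 50 14 (.thr 62 58 (.dbl 61 1 63)))))) (.nv (.thr 3 41 (.thr 15 11 (.thr 51 57 (.thr 25 12 (.thr 27 39 (.thr 26 24 (.dbl 30 18 45))))))) (.nv (.thr 41 3 (.thr 1 61 (.thr 48 56 (.thr 51 57 (.thr 49 50 (.thr 17 33 (.dbl 25 12 29))))))) (.rp 56 (.str 30 (.nv (.thr 15 45 (.dbl 3 11 41)) (.rp 45 (.thr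 26 18 (.thr 14 50 (.thr 62 46 (.thr 61 63 (.dbl 41 1 3))))) (.rp 41 (.thr 26 18 (.thr 51 57 (.thr 25 12 (.thr 27 24 (.dbl 15 39 45))))) (.rp 33 (.thr 26 18 (.thr 14 50 (.thr 62 46 (.thr 61 63 (.dbl 41 1 3))))) (.rp 15 (.thr 26 18 (.thr 14 50 (.thr 62 46 (.thr 61 63 (.dbl 41 1 3))))) (.rp 11 (.thr 15 45 (.thr 26 18 (.thr 14 50 (.thr 12 13 (.dbl 51 25 57))))) (.rp 3 (.thr 15 45 (.thr 26 18 (.thr 14 50 (.thr 12 13 (.dbl 51 25 57))))) .nd)))))))) (.rp 48 (.thr 51 57 (.thr 25 12 (.thr 17 29 (.thr 3 41 (.thr 19 35 (.thr 16 18 (.thr 15 11 (.thr 27 39 (.dbl 26 24 31))))))))) (.rp 41 (.thr 48 56 (.thr 51 57 (.thr 50 49 (.thr 26 14 (.thr 18 30 (.thr 2 34 (.dbl 62 42 58))))))) (.rp 33 (.thr 48 56 (.thr 51 57 (.thr 50 49 (.thr 26 14 (.thr 18 30 (.thr 2 34 (.dbl 62 42 58))))))) (.rp 12 (.thr 48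 56 (.thr 51 57 (.thr 50 49 (.thr 26 14 (.thr 18 30 (.dbl 3 33 41)))))) (.rp 3 (.thr 48 56 (.thr 51 57 (.thr 50 49 (.thr 26 14 (.thr 18 30 (.thr 2 34 (.dbl 62 42 58))))))) .nd)))))))))))) (.rp 53 (.thr 38 6 (.thr 4 55 (.thr 36 20 (.dbl 37 7 39)))) .nd))))) (.rp 20 (.thr 37 7 (.str 60 (.nv (.thr 41 3 (.thr 53 5 (.thr 54 55 (.thr 57 51 (.dbl 61 1 49))))) (.nv (.thr 3 41 (.thr 48 56 (.thr 18 33 (.dbl 26 15 30)))) (.rp 41 (.thr 53 5 (.thr 54 55 (.thr 48 56 (.thr 63 58 (.thr 61 62 (.dbl 57 49 51)))))) (.rp 24 (.str 16 (.nv (.thr 26 31 (.thr 30 18 (.thr 45 15 (.dbl 41 3 33)))) (.nv (.thr 26 31 (.dbl 48 15 56)) (.rp 31 (.thr 48 56 (.thr 15 26 (.thr 41 3 (.dbl 45 30 33)))) (.rp 30 (.thr 48 56 (.dbl 26 15 31)) (.rp 26 (.thr 53 5 (.thr 54 55 (.thr 57 51 (.thr 61 49 (.dbl 41 1 3))))) (.rp 15 (.thr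 26 31 (.thr 56 48 (.dbl 41 3 11))) .nd))))))) (.rp 16 (.str 24 (.nv (.thr 48 56 (.thr 36 12 (.thr 38 39 (.thr 53 5 (.dbl 54 6 55))))) (.nv (.thr 48 56 (.thr 3 41 (.thr 18 33 (.dbl 26 15 30)))) (.rp 56 (.thr 53 5 (.thr 54 55 (.thr 57 51 (.thr 61 49 (.dbl 41 1 3))))) (.rp 48 (.str 32 (.nv (.thr 41 3 (.thr 33 45 (.thr 35 34 (.thr 38 44 (.thr 39 36 (.dbl 47 42 43)))))) (.nv (.thr 41 3 (.thr 1 61 (.thr 33 45 (.thr 49 17 (.thr 13 25 (.dbl 5 9 53)))))) (.nv (.thr 42 47 (.thr 62 2 (.thr 61 63 (.dbl 41 1 3)))) (.rp 41 (.thr 53 5 (.thr 54 55 (.thr 57 51 (.thr 42 47 (.thr 62 2 (.dbl 61 49 63)))))) (.rp 15 (.thr 5 53 (.thr 42 47 (.thr 62 2 (.thr 63 61 (.thr 3 41 (.str 51 (.nv (.thr 57 54 (.thr 59 55 (.thr 8 25 (.dbl 56 40 58)))) (.nv (.thr 35 19 (.thr 34 33 (.thr 38 46 (.dbl 54 6 57)))) (.nv (.thr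 55 59 (.thr 38 4 (.dbl 54 6 57))) (.rp 57 (.str 49 (.nv (.thr 25 13 (.thr 12 38 (.dbl 29 17 46))) (.nv (.thr 59 55 (.dbl 25 8 13)) (.rp 25 (.str 9 (.nv (.thr 55 59 (.thr 38 4 (.dbl 6 12 54))) (.nv (.thr 35 19 (.thr 33 34 (.dbl 1 13 17))) .nd))) (.rp 13 (.thr 35 19 (.thr 34 33 (.thr 55 59 (.dbl 38 4 46)))) .nd))))) (.rp 54 (.thr 35 19 (.thr 55 59 (.thr 38 4 (.dbl 34 33 46)))) .nd))))))))))) (.rp 3 (.thr 53 5 (.thr 54 55 (.thr 57 51 (.thr 49 61 (.thr 25 13 (.thr 26 27 (.thr 42 47 (.thr 59 8 (.dbl 58 10 56))))))))) (.rp 1 (.thr 53 5 (.thr 3 41 (.thr 54 55 (.thr 57 51 (.thr 42 47 (.thr 62 2 (.dbl 61 49 63))))))) .nd)))))))) (.rp 15 (.thr 48 56 (.thr 36 12 (.thr 38 39 (.thr 54 6 (.dbl 53 5 55))))) .nd)))))) (.rp 15 (.thr 5 53 (.thr 56 48 (.thr 41 3 (.thr 11 26 (.thr 1 61 (.thr 13 9 (.thr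 49 25 (.dbl 33 17 45)))))))) (.rp 11 (.thr 48 56 (.thr 15 26 (.thr 41 3 (.dbl 45 30 33)))) (.rp 3 (.thr 53 5 (.thr 54 55 (.thr 48 56 (.thr 63 58 (.thr 61 62 (.dbl 57 49 51)))))) .nd)))))))))) (.rp 7 (.str 60 (.nv (.thr 3 41 (.thr 23 20 (.thr 48 56 (.thr 18 33 (.thr 26 30 (.thr 37 15 (.thr 63 43 (.dbl 53 5 58)))))))) (.nv (.thr 20 23 (.thr 4 36 (.thr 55 38 (.thr 54 53 (.thr 51 57 (.thr 63 59 (.thr 61 62 (.dbl 41 1 3)))))))) (.rp 63 (.thr 20 23 (.thr 4 36 (.thr 55 38 (.thr 53 54 (.thr 37 5 (.thr 48 56 (.thr 15 26 (.thr 45 30 (.dbl 41 3 33))))))))) (.rp 58 (.thr 20 23 (.thr 4 36 (.thr 55 38 (.thr 54 53 (.thr 51 57 (.thr 56 48 (.thr 63 59 (.thr 61 62 (.dbl 41 1 3))))))))) (.rp 56 (.thr 20 23 (.thr 4 36 (.thr 55 38 (.thr 53 54 (.thr 37 5 (.thr 41 3 (.thr 45 33 (.thr 15 30 (.thr 48 26 (.thr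 63 58 (.dbl 61 1 62))))))))))) (.rp 53 (.thr 20 23 (.thr 36 4 (.thr 48 56 (.thr 12 24 (.thr 3 41 (.thr 18 33 (.thr 26 30 (.thr 37 15 (.thr 6 9 (.dbl 38 39 54)))))))))) (.rp 41 (.thr 20 23 (.thr 4 36 (.thr 55 38 (.thr 53 54 (.thr 37 5 (.thr 48 56 (.thr 63 58 (.thr 62 61 (.thr 42 2 (.thr 47 32 (.dbl 15 26 31))))))))))) (.rp 37 (.thr 23 20 (.thr 48 56 (.thr 3 41 (.thr 63 43 (.thr 61 62 (.thr 53 58 (.thr 54 55 (.dbl 57 49 51)))))))) (.rp 23 (.str 55 (.nv (.thr 54 53 (.dbl 38 4 6)) (.rp 54 (.thr 38 4 (.thr 48 56 (.thr 3 41 (.thr 18 33 (.thr 26 30 (.thr 50 14 (.thr 51 49 (.thr 19 35 (.dbl 16 17 31))))))))) (.rp 53 (.thr 38 4 (.thr 48 56 (.thr 3 41 (.thr 18 33 (.thr 26 30 (.thr 50 14 (.thr 51 49 (.dbl 54 6 57)))))))) (.rp 38 (.thr 54 53 (.thr 51 57 (.thr 63 59 (.thr 61 62 (.dbl 41 1 3)))))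 (.rp 6 (.thr 54 53 (.thr 51 57 (.thr 63 59 (.thr 61 62 (.dbl 41 1 3))))) (.rp 4 (.thr 54 53 (.thr 51 57 (.thr 63 59 (.thr 61 62 (.dbl 41 1 3))))) .nd))))))) (.rp 20 (.str 37 (.nv (.thr 41 3 (.thr 53 5 (.thr 54 55 (.thr 57 51 (.dbl 61 1 49))))) (.nv (.thr 3 41 (.thr 48 56 (.thr 18 33 (.dbl 26 15 30)))) (.rp 41 (.thr 53 5 (.thr 54 55 (.thr 48 56 (.thr 63 58 (.thr 61 62 (.dbl 57 49 51)))))) (.rp 24 (.str 16 (.nv (.thr 26 31 (.thr 30 18 (.thr 45 15 (.dbl 41 3 33)))) (.nv (.thr 26 31 (.dbl 48 15 56)) (.rp 31 (.thr 48 56 (.thr 15 26 (.thr 41 3 (.dbl 45 30 33)))) (.rp 30 (.thr 48 56 (.dbl 26 15 31)) (.rp 26 (.thr 53 5 (.thr 54 55 (.thr 57 51 (.thr 61 49 (.dbl 41 1 3))))) (.rp 15 (.thr 26 31 (.thr 56 48 (.dbl 41 3 11))) .nd))))))) (.rp 16 (.str 24 (.nv (.thr 48 56 (.thr 36 12 (.thr 38 39 (.thr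 53 5 (.dbl 54 6 55))))) (.nv (.thr 48 56 (.thr 3 41 (.thr 18 33 (.dbl 26 15 30)))) (.rp 56 (.thr 53 5 (.thr 54 55 (.thr 57 51 (.thr 61 49 (.dbl 41 1 3))))) (.rp 48 (.str 32 (.nv (.thr 41 3 (.thr 33 45 (.thr 35 34 (.thr 38 44 (.thr 39 36 (.dbl 47 42 43)))))) (.nv (.thr 41 3 (.thr 1 61 (.thr 33 45 (.thr 49 17 (.thr 13 25 (.dbl 5 9 53)))))) (.nv (.thr 42 47 (.thr 62 2 (.thr 61 63 (.dbl 41 1 3)))) (.rp 41 (.thr 53 5 (.thr 54 55 (.thr 57 51 (.thr 42 47 (.thr 62 2 (.dbl 61 49 63)))))) (.rp 15 (.thr 5 53 (.thr 42 47 (.thr 62 2 (.thr 63 61 (.thr 3 41 (.str 51 (.nv (.thr 57 54 (.thr 59 55 (.thr 8 25 (.dbl 56 40 58)))) (.nv (.thr 35 19 (.thr 34 33 (.thr 38 46 (.dbl 54 6 57)))) (.nv (.thr 55 59 (.thr 38 4 (.dbl 54 6 57))) (.rp 57 (.str 49 (.nv (.thr 25 13 (.thr 12 38 (.dbl 29 17 46))) (.nv (.thr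 59 55 (.dbl 25 8 13)) (.rp 25 (.str 9 (.nv (.thr 55 59 (.thr 38 4 (.dbl 6 12 54))) (.nv (.thr 35 19 (.thr 33 34 (.dbl 1 13 17))) .nd))) (.rp 13 (.thr 35 19 (.thr 34 33 (.thr 55 59 (.dbl 38 4 46)))) .nd))))) (.rp 54 (.thr 35 19 (.thr 55 59 (.thr 38 4 (.dbl 34 33 46)))) .nd))))))))))) (.rp 3 (.thr 53 5 (.thr 54 55 (.thr 57 51 (.thr 49 61 (.thr 25 13 (.thr 26 27 (.thr 42 47 (.thr 59 8 (.dbl 58 10 56))))))))) (.rp 1 (.thr 53 5 (.thr 3 41 (.thr 54 55 (.thr 57 51 (.thr 42 47 (.thr 62 2 (.dbl 61 49 63))))))) .nd)))))))) (.rp 15 (.thr 48 56 (.thr 36 12 (.thr 38 39 (.thr 54 6 (.dbl 53 5 55))))) .nd)))))) (.rp 15 (.thr 5 53 (.thr 56 48 (.thr 41 3 (.thr 11 26 (.thr 1 61 (.thr 13 9 (.thr 49 25 (.dbl 33 17 45)))))))) (.rp 11 (.thr 48 56 (.thr 15 26 (.thr 41 3 (.dbl 45 30 33)))) (.rp 3 (.thr 53 5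 (.thr 54 55 (.thr 48 56 (.thr 63 58 (.thr 61 62 (.dbl 57 49 51)))))) .nd))))))))) (.rp 3 (.thr 20 23 (.thr 4 36 (.thr 55 38 (.thr 53 54 (.thr 37 5 (.thr 48 56 (.thr 15 26 (.thr 45 30 (.thr 63 58 (.thr 41 33 (.dbl 61 1 62))))))))))) .nd)))))))))))) (.rp 4 (.thr 37 7 (.thr 5 53 (.str 60 (.nv (.thr 41 3 (.thr 1 61 (.thr 13 9 (.thr 33 45 (.dbl 49 17 25))))) (.nv (.thr 3 41 (.thr 48 56 (.thr 26 15 (.dbl 18 30 33)))) (.rp 41 (.thr 23 20 (.thr 48 56 (.thr 26 15 (.thr 18 30 (.thr 3 33 (.thr 63 43 (.thr 62 61 (.thr 42 2 (.thr 58 10 (.thr 54 50 (.thr 6 38 (.thr 12 9 (.thr 29 46 (.thr 16 31 (.dbl 17 19 25))))))))))))))) (.rp 33 (.thr 23 20 (.thr 48 56 (.thr 3 41 (.thr 63 43 (.thr 62 61 (.thr 42 2 (.thr 47 32 (.dbl 15 26 31)))))))) (.rp 15 (.thr 56 48 (.thr 41 3 (.thr 11 26 (.thr 1 61 (.thr 13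 9 (.thr 49 25 (.dbl 33 17 45))))))) (.rp 12 (.str 8 (.nv (.thr 41 3 (.thr 1 61 (.thr 33 45 (.thr 49 17 (.dbl 13 9 25))))) (.nv (.thr 3 41 (.thr 48 56 (.thr 18 33 (.dbl 26 15 30)))) (.rp 41 (.thr 23 20 (.thr 48 56 (.thr 26 15 (.thr 18 30 (.thr 3 33 (.thr 63 43 (.thr 62 61 (.thr 42 2 (.thr 10 58 (.thr 9 11 (.thr 13 1 (.dbl 25 49 59)))))))))))) (.rp 33 (.thr 41 3 (.thr 1 61 (.thr 9 13 (.thr 11 10 (.dbl 56 26 48))))) (.rp 15 (.thr 56 48 (.thr 41 3 (.thr 11 26 (.thr 9 10 (.dbl 1 13 61))))) (.rp 11 (.thr 48 56 (.thr 15 26 (.thr 41 3 (.dbl 45 30 33)))) (.rp 3 (.thr 23 20 (.thr 48 56 (.thr 15 26 (.thr 45 30 (.thr 41 33 (.thr 1 61 (.thr 9 13 (.thr 57 25 (.thr 11 10 (.thr 51 54 (.thr 27 39 (.thr 59 43 (.thr 31 19 (.dbl 63 47 55)))))))))))))) .nd)))))))) (.rp 8 (.str 12 (.nv (.thr 3 41 (.thr 6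 9 (.thr 38 54 (.thr 36 39 (.dbl 48 24 56))))) (.nv (.thr 41 3 (.thr 1 61 (.thr 13 9 (.thr 33 45 (.dbl 49 17 25))))) (.nv (.thr 3 41 (.thr 48 56 (.thr 26 15 (.dbl 18 30 33)))) (.rp 41 (.thr 23 20 (.thr 48 56 (.thr 26 15 (.thr 31 16 (.thr 24 36 (.dbl 27 19 25)))))) (.rp 3 (.thr 48 56 (.thr 15 26 (.thr 45 30 (.thr 13 14 (.thr 29 61 (.dbl 25 17 49)))))) .nd)))))) (.rp 3 (.thr 48 56 (.thr 15 26 (.thr 45 30 (.thr 41 33 (.thr 1 61 (.thr 13 9 (.thr 12 14 (.thr 36 24 (.thr 38 39 (.dbl 25 49 51)))))))))) .nd))))))))))) .nd))))))))))))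

theorem w50 : WinAt (6291456, 268435457) :=
  chF (K := []) kn c50 6291456 268435457 28
    [] (by decide +kernel) (by decide +kernel)

/-- A certificate. -/
noncomputable def c51 : Ct := (.str 4 (.nv (.thr 52 36 (.thr 7 37 (.thr 38 55 (.dbl 6 5 54)))) (.rp 55 (.str 26 (.nv (.thr 16 31 (.thr 28 24 (.thr 19 25 (.dbl 18 17 30)))) (.rp 39 (.str 7 (.nv (.dbl 52 36 37) (.rp 52 (.thr 18 30 (.thr 16 31 (.thr 28 24 (.dbl 19 17 25)))) (.rp 37 (.thr 18 30 (.thr 16 31 (.thr 28 24 (.dbl 19 17 25)))) (.rp 36 (.thr 5 6 (.dbl 37 52 53)) .nd))))) (.rp 31 (.thr 30 18 (.thr 52 36 (.thr 7 37 (.thr 6 5 (.thr 38 54 (.thr 14 50 (.thr 62 46 (.dbl 2 10 42)))))))) (.rp 30 (.thr 16 31 (.thr 28 24 (.thr 19 25 (.str 37 (.nv (.thr 7 52 (.dbl 5 6 53)) (.nv (.dbl 52 7 36) (.rp 52 (.thr 18 17 (.thr 48 15 (.thr 3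 33 (.thr 51 35 (.thr 49 50 (.thr 60 41 (.thr 57 54 (.dbl 53 5 61)))))))) (.rp 7 (.str 39 (.nv (.dbl 36 38 52) (.rp 52 (.thr 18 17 (.thr 38 36 (.thr 50 14 (.thr 48 15 (.thr 3 33 (.dbl 51 35 49)))))) (.rp 38 (.thr 18 17 (.thr 48 15 (.thr 3 33 (.thr 52 36 (.dbl 60 41 56))))) (.rp 36 (.thr 18 17 (.thr 48 15 (.thr 3 33 (.thr 51 35 (.thr 49 50 (.thr 60 41 (.thr 57 54 (.dbl 53 5 61)))))))) .nd))))) .nd)))))))) (.rp 28 (.thr 30 18 (.thr 52 36 (.thr 7 37 (.thr 6 5 (.thr 38 54 (.thr 14 50 (.thr 62 46 (.dbl 2 10 42)))))))) (.rp 27 (.thr 30 18 (.thr 52 36 (.thr 7 37 (.thr 6 5 (.thr 38 54 (.thr 14 50 (.thr 62 46 (.dbl 2 10 42)))))))) (.rp 25 (.thr 30 18 (.thr 52 36 (.thr 7 37 (.thr 6 5 (.thr 38 54 (.thr 14 50 (.thr 62 46 (.dbl 2 10 42)))))))) (.rp 24 (.thr 30 18 (.thr 52 36 (.thr 7 37 (.thr 6 5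 (.thr 38 54 (.thr 14 50 (.thr 62 46 (.dbl 2 10 42)))))))) (.rp 19 (.thr 30 18 (.thr 52 36 (.thr 7 37 (.thr 6 5 (.thr 38 54 (.thr 14 50 (.thr 62 46 (.dbl 2 10 42)))))))) (.rp 18 (.thr 52 36 (.thr 7 37 (.thr 6 5 (.str 15 (.nv (.thr 3 11 (.thr 16 31 (.thr 28 24 (.thr 60 41 (.dbl 12 9 44))))) (.nv (.thr 38 54 (.thr 3 11 (.thr 12 9 (.dbl 14 13 50)))) (.rp 38 (.str 39 (.nv (.thr 3 11 (.thr 27 51 (.thr 25 24 (.thr 41 60 (.dbl 9 12 57))))) (.nv (.thr 3 11 (.thr 12 9 (.thr 16 31 (.thr 28 24 (.dbl 60 41 44))))) (.nv (.thr 27 51 (.thr 16 31 (.dbl 24 25 28))) (.rp 27 (.thr 31 16 (.thr 47 63 (.thr 3 11 (.thr 60 41 (.thr 45 30 (.thr 44 46 (.dbl 12 9 28))))))) (.rp 24 (.thr 51 27 (.thr 31 16 (.thr 47 63 (.thr 35 43 (.dbl 3 11 19))))) (.rp 12 (.thr 51 27 (.thr 3 11 (.thr 16 31 (.thr 19 35 (.dbl 28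 24 25))))) .nd))))))) (.rp 12 (.thr 3 11 (.thr 38 54 (.thr 14 50 (.thr 2 10 (.thr 60 41 (.thr 62 42 (.dbl 30 45 46))))))) (.rp 11 (.thr 16 31 (.thr 28 24 (.thr 38 54 (.thr 14 50 (.thr 12 13 (.dbl 25 19 51)))))) (.rp 9 (.thr 16 31 (.thr 28 24 (.thr 19 25 (.thr 3 11 (.thr 38 54 (.thr 35 51 (.dbl 41 44 60))))))) (.rp 3 (.thr 16 31 (.thr 28 24 (.thr 38 54 (.thr 14 50 (.thr 12 13 (.dbl 25 19 51)))))) .nd))))))))))) (.rp 17 (.thr 30 18 (.thr 52 36 (.thr 7 37 (.thr 6 5 (.thr 38 54 (.thr 14 50 (.thr 62 46 (.dbl 2 10 42)))))))) (.rp 16 (.thr 30 18 (.thr 52 36 (.thr 7 37 (.thr 6 5 (.thr 38 54 (.thr 14 50 (.thr 62 46 (.dbl 2 10 42)))))))) (.rp 7 (.str 39 (.nv (.thr 36 52 (.thr 37 38 (.thr 48 15 (.thr 24 12 (.dbl 16 28 31))))) (.nv (.thr 18 30 (.thr 16 31 (.thr 28 24 (.dbl 19 17 25)))) (.rp 31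 (.thr 36 52 (.thr 37 38 (.thr 48 15 (.thr 24 12 (.thr 28 16 (.dbl 25 19 27)))))) (.rp 28 (.thr 30 18 (.thr 36 52 (.thr 38 37 (.thr 14 50 (.thr 62 46 (.thr 2 42 (.dbl 6 10 54))))))) (.rp 25 (.thr 16 31 (.thr 36 52 (.thr 37 38 (.thr 48 15 (.dbl 24 12 28))))) (.rp 24 (.thr 18 30 (.thr 36 52 (.thr 38 37 (.thr 50 14 (.thr 2 34 (.thr 54 6 (.dbl 62 42 58))))))) (.rp 16 (.thr 18 30 (.thr 36 52 (.thr 38 37 (.thr 50 14 (.thr 2 34 (.thr 54 6 (.dbl 62 42 58))))))) .nd)))))))) .nd)))))))))))))) (.rp 54 (.str 26 (.nv (.thr 52 36 (.thr 37 7 (.thr 48 15 (.thr 60 56 (.thr 3 41 (.dbl 18 30 33)))))) (.nv (.thr 16 31 (.thr 28 24 (.thr 19 25 (.dbl 18 17 30)))) (.rp 30 (.thr 16 31 (.thr 28 24 (.thr 19 25 (.thr 18 17 (.thr 52 36 (.thr 37 7 (.thr 48 15 (.thr 60 56 (.dbl 3 33 41))))))))) (.rp 18 (.thr 16 31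 (.thr 28 24 (.thr 19 25 (.thr 52 36 (.thr 37 7 (.thr 48 15 (.thr 60 56 (.thr 3 41 (.thr 51 35 (.thr 50 49 (.dbl 38 14 55))))))))))) .nd))))) (.rp 52 (.str 16 (.nv (.thr 28 24 (.thr 19 25 (.thr 26 31 (.dbl 18 17 30)))) (.rp 31 (.thr 38 55 (.thr 54 6 (.thr 28 24 (.thr 19 25 (.thr 18 17 (.thr 26 30 (.thr 50 14 (.thr 62 58 (.dbl 2 34 42))))))))) (.rp 30 (.thr 38 55 (.thr 28 24 (.thr 25 19 (.thr 12 51 (.thr 60 44 (.thr 3 41 (.dbl 6 9 54))))))) (.rp 28 (.thr 38 55 (.thr 26 31 (.thr 30 18 (.thr 14 50 (.thr 62 46 (.thr 2 42 (.dbl 6 10 54))))))) (.rp 26 (.thr 38 55 (.thr 28 24 (.thr 25 19 (.thr 12 51 (.thr 60 44 (.thr 3 41 (.dbl 6 9 54))))))) (.rp 25 (.thr 38 55 (.thr 54 6 (.thr 26 31 (.thr 50 14 (.thr 62 58 (.thr 2 42 (.dbl 18 30 34))))))) (.rp 24 (.thr 38 55 (.thr 54 6 (.thr 26 31 (.thr 50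 14 (.thr 62 58 (.thr 2 42 (.dbl 18 30 34))))))) (.rp 19 (.thr 26 31 (.str 27 (.nv (.dbl 24 25 28) (.rp 30 (.thr 28 24 (.str 3 (.nv (.thr 38 55 (.thr 14 50 (.thr 60 41 (.thr 12 44 (.thr 15 13 (.dbl 51 25 39)))))) (.nv (.thr 60 41 (.thr 12 44 (.thr 6 9 (.dbl 38 54 55)))) (.nv (.thr 38 55 (.thr 60 41 (.thr 12 44 (.dbl 6 9 54)))) (.rp 60 (.thr 38 55 (.thr 54 6 (.thr 50 14 (.thr 62 58 (.thr 2 42 (.thr 18 34 (.thr 48 33 (.thr 51 49 (.dbl 15 37 39))))))))) (.rp 55 (.thr 60 41 (.thr 12 44 (.thr 6 9 (.thr 7 5 (.thr 15 11 (.thr 51 39 (.dbl 54 38 57))))))) (.rp 54 (.thr 60 41 (.thr 12 44 (.thr 6 9 (.thr 7 5 (.thr 15 11 (.thr 51 39 (.dbl 38 25 55))))))) (.rp 44 (.thr 38 55 (.thr 54 6 (.thr 50 14 (.thr 60 41 (.thr 51 57 (.thr 48 49 (.dbl 15 37 39))))))) (.rp 41 (.thr 38 55 (.thr 54 6 (.thr 50 14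 (.thr 62 58 (.thr 2 42 (.thr 18 34 (.thr 48 33 (.thr 51 49 (.dbl 15 37 39))))))))) (.rp 38 (.str 5 (.nv (.thr 37 53 (.thr 48 15 (.thr 33 18 (.dbl 41 45 60)))) (.nv (.thr 6 7 (.thr 12 9 (.dbl 60 41 44))) (.nv (.thr 7 6 (.thr 15 11 (.dbl 37 48 53))) .nd)))) (.rp 12 (.thr 38 55 (.thr 54 6 (.thr 50 14 (.thr 60 41 (.thr 51 57 (.thr 48 49 (.dbl 15 37 39))))))) .nd)))))))))))) (.rp 28 (.thr 30 18 (.thr 38 55 (.thr 14 50 (.thr 62 46 (.thr 2 42 (.dbl 6 10 54)))))) (.rp 25 (.thr 30 18 (.thr 38 55 (.thr 14 50 (.thr 62 46 (.thr 2 42 (.dbl 6 10 54)))))) (.rp 24 (.thr 30 18 (.thr 38 55 (.thr 14 50 (.thr 62 46 (.thr 2 42 (.dbl 6 10 54)))))) .nd))))))) (.rp 18 (.thr 38 55 (.thr 28 24 (.thr 25 19 (.thr 12 51 (.thr 60 44 (.thr 3 41 (.dbl 6 9 54))))))) (.rp 17 (.thr 38 55 (.thr 54 6 (.thr 26 31 (.thr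 50 14 (.thr 62 58 (.thr 2 42 (.dbl 18 30 34))))))) .nd))))))))))) (.rp 38 (.str 26 (.nv (.thr 52 36 (.thr 37 7 (.thr 48 15 (.thr 60 56 (.thr 3 41 (.dbl 18 30 33)))))) (.nv (.thr 16 31 (.thr 18 30 (.thr 28 24 (.dbl 19 17 25)))) (.rp 30 (.thr 16 31 (.thr 28 24 (.thr 19 25 (.thr 18 17 (.thr 52 36 (.thr 37 7 (.thr 48 15 (.thr 60 56 (.dbl 3 33 41))))))))) (.rp 18 (.thr 16 31 (.thr 28 24 (.thr 19 25 (.thr 52 36 (.thr 37 7 (.thr 48 15 (.thr 60 56 (.thr 3 41 (.thr 51 35 (.thr 44 12 (.thr 49 50 (.thr 57 54 (.dbl 53 5 61))))))))))))) .nd))))) (.rp 37 (.str 16 (.nv (.thr 24 28 (.thr 36 52 (.thr 12 48 (.thr 38 55 (.thr 25 51 (.dbl 26 27 31)))))) (.nv (.thr 26 31 (.thr 18 30 (.thr 28 24 (.dbl 19 17 25)))) (.rp 31 (.thr 38 55 (.thr 54 6 (.thr 28 24 (.thr 19 25 (.thr 18 17 (.thr 26 30 (.thr 50 14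 (.thr 62 58 (.dbl 2 34 42))))))))) (.rp 30 (.thr 38 55 (.thr 6 54 (.thr 28 24 (.thr 25 19 (.thr 12 51 (.thr 60 44 (.dbl 3 9 41))))))) (.rp 28 (.thr 38 55 (.thr 6 54 (.thr 26 31 (.thr 30 18 (.thr 14 50 (.thr 62 46 (.dbl 2 10 42))))))) (.rp 27 (.thr 28 24 (.thr 19 25 (.thr 26 31 (.dbl 18 17 30)))) (.rp 26 (.thr 38 55 (.thr 6 54 (.thr 28 24 (.thr 25 19 (.thr 12 51 (.thr 60 44 (.dbl 3 9 41))))))) (.rp 25 (.thr 38 55 (.thr 6 54 (.thr 26 31 (.thr 30 18 (.thr 14 50 (.thr 62 46 (.dbl 2 10 42))))))) (.rp 24 (.thr 38 55 (.thr 6 54 (.thr 26 31 (.thr 30 18 (.thr 14 50 (.thr 62 46 (.dbl 2 10 42))))))) (.rp 17 (.thr 36 52 (.thr 38 55 (.thr 24 28 (.thr 12 48 (.thr 26 31 (.thr 30 18 (.dbl 25 27 51))))))) .nd))))))))))) (.rp 36 (.str 16 (.nv (.thr 28 24 (.thr 19 25 (.thr 26 31 (.dbl 18 17 30)))) (.rp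 48 (.thr 38 55 (.thr 6 54 (.thr 26 31 (.thr 30 18 (.thr 14 50 (.thr 62 46 (.dbl 2 10 42))))))) (.rp 31 (.thr 38 55 (.thr 54 6 (.thr 28 24 (.thr 19 25 (.thr 18 17 (.thr 26 30 (.thr 50 14 (.thr 62 58 (.dbl 2 34 42))))))))) (.rp 30 (.thr 38 55 (.thr 6 54 (.thr 28 24 (.thr 25 19 (.thr 12 51 (.thr 60 44 (.dbl 3 9 41))))))) (.rp 28 (.thr 38 55 (.thr 6 54 (.thr 26 31 (.thr 30 18 (.thr 14 50 (.thr 62 46 (.dbl 2 10 42))))))) (.rp 26 (.thr 38 55 (.thr 6 54 (.thr 28 24 (.thr 25 19 (.thr 12 51 (.thr 60 44 (.dbl 3 9 41))))))) (.rp 25 (.thr 38 55 (.thr 6 54 (.thr 26 31 (.thr 30 18 (.thr 14 50 (.thr 62 46 (.dbl 2 10 42))))))) (.rp 24 (.thr 38 55 (.thr 6 54 (.thr 26 31 (.thr 30 18 (.thr 14 50 (.thr 62 46 (.dbl 2 10 42))))))) (.rp 19 (.thr 26 31 (.str 27 (.nv (.dbl 24 25 28) (.rp 30 (.thr 28 24 (.str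 48 (.nv (.thr 15 37 (.thr 38 55 (.thr 50 14 (.dbl 51 39 49)))) (.nv (.thr 37 15 (.thr 5 53 (.dbl 7 6 52))) (.rp 37 (.thr 38 55 (.thr 54 6 (.thr 50 14 (.thr 51 49 (.thr 60 57 (.dbl 12 25 44)))))) (.rp 15 (.thr 38 55 (.thr 54 6 (.thr 50 14 (.thr 51 49 (.thr 60 57 (.dbl 12 25 44)))))) (.rp 7 (.thr 15 37 (.thr 38 55 (.thr 39 51 (.thr 6 54 (.thr 14 50 (.thr 12 13 (.thr 3 9 (.dbl 60 41 44)))))))) .nd))))))) (.rp 28 (.thr 30 18 (.thr 38 55 (.thr 6 54 (.thr 14 50 (.thr 2 10 (.dbl 62 42 46)))))) (.rp 25 (.thr 30 18 (.thr 38 55 (.thr 6 54 (.thr 14 50 (.thr 2 10 (.dbl 62 42 46)))))) (.rp 24 (.thr 30 18 (.thr 38 55 (.thr 6 54 (.thr 14 50 (.thr 2 10 (.dbl 62 42 46)))))) .nd))))))) (.rp 18 (.thr 38 55 (.thr 6 54 (.thr 28 24 (.thr 25 19 (.thr 12 51 (.thr 60 44 (.dbl 3 9 41))))))) (.rp 17 (.thr 38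 55 (.thr 6 54 (.thr 26 31 (.thr 30 18 (.thr 14 50 (.thr 62 46 (.dbl 2 10 42))))))) (.rp 12 (.thr 38 55 (.thr 6 54 (.thr 26 31 (.thr 30 18 (.thr 14 50 (.thr 2 10 (.dbl 62 42 46))))))) .nd))))))))))))) (.rp 7 (.thr 36 52 (.thr 38 55 (.thr 39 37 (.thr 54 6 (.str 60 (.nv (.thr 51 57 (.thr 12 25 (.thr 24 48 (.dbl 28 16 44)))) (.nv (.thr 51 57 (.thr 3 41 (.thr 19 35 (.dbl 25 12 28)))) (.rp 57 (.thr 41 3 (.thr 44 35 (.thr 12 28 (.thr 51 25 (.thr 15 27 (.thr 30 45 (.thr 26 18 (.dbl 14 13 50)))))))) (.rp 51 (.thr 41 3 (.thr 35 44 (.thr 43 47 (.thr 1 61 (.thr 42 40 (.thr 62 2 (.thr 50 58 (.thr 14 26 (.dbl 46 30 34))))))))) (.rp 41 (.thr 51 57 (.thr 27 15 (.thr 25 12 (.thr 28 19 (.dbl 24 16 26))))) (.rp 28 (.thr 51 57 (.thr 15 27 (.thr 30 45 (.thr 26 18 (.thr 14 50 (.dbl 12 13 25)))))) (.rp 25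 (.thr 51 57 (.thr 15 27 (.thr 30 45 (.thr 26 18 (.thr 14 50 (.thr 62 46 (.thr 31 16 (.dbl 63 47 61)))))))) (.rp 12 (.thr 51 57 (.thr 15 27 (.thr 30 45 (.thr 26 18 (.thr 14 50 (.thr 31 16 (.thr 62 46 (.dbl 63 47 61)))))))) (.rp 9 (.thr 51 57 (.thr 12 25 (.thr 41 3 (.dbl 44 28 35)))) .nd)))))))))))))) (.rp 6 (.thr 52 36 (.thr 37 7 (.thr 53 5 (.dbl 55 38 54)))) (.rp 5 (.thr 52 36 (.str 60 (.nv (.thr 3 41 (.thr 48 56 (.thr 18 33 (.thr 26 30 (.thr 16 31 (.thr 28 24 (.dbl 19 17 25))))))) (.nv (.thr 3 41 (.thr 38 55 (.thr 6 54 (.thr 12 9 (.thr 25 51 (.dbl 28 19 44)))))) (.nv (.thr 37 7 (.thr 3 41 (.thr 48 56 (.thr 18 33 (.dbl 26 15 30))))) (.rp 41 (.thr 38 55 (.thr 54 6 (.thr 48 56 (.thr 51 57 (.thr 50 49 (.thr 26 14 (.dbl 37 7 15))))))) (.rp 15 (.str 10 (.nv (.thr 38 55 (.thr 6 54 (.thr 2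 14 (.thr 41 3 (.thr 61 1 (.dbl 62 42 63)))))) (.nv (.thr 3 41 (.thr 48 56 (.thr 18 33 (.thr 26 30 (.thr 16 31 (.thr 28 24 (.dbl 19 17 25))))))) (.nv (.thr 3 41 (.thr 38 55 (.thr 54 6 (.thr 51 57 (.thr 19 35 (.dbl 25 12 28)))))) (.rp 41 (.thr 38 55 (.thr 54 6 (.thr 48 56 (.thr 51 57 (.thr 25 12 (.thr 49 50 (.dbl 37 7 13))))))) (.rp 3 (.thr 38 55 (.thr 54 6 (.thr 48 56 (.thr 51 57 (.thr 50 49 (.thr 26 14 (.dbl 58 42 62))))))) .nd)))))) (.rp 10 (.str 15 (.nv (.thr 30 45 (.thr 18 26 (.thr 48 56 (.dbl 3 33 41)))) (.nv (.thr 7 37 (.dbl 3 11 41)) (.nv (.thr 48 56 (.dbl 37 7 26)) .nd)))) (.rp 3 (.thr 38 55 (.thr 54 6 (.thr 48 56 (.thr 51 57 (.thr 50 49 (.thr 26 14 (.dbl 37 7 15))))))) .nd))))))))) .nd)))))))))))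

theorem w51 : WinAt (7340032, 545259521) :=
  chF (K := []) kn c51 7340032 545259521 23
    [] (by decide +kernel) (by decide +kernel)

/-- A certificate. -/
noncomputable def c52 : Ct := (.str 7 (.nv (.thr 23 20 (.thr 52 37 (.thr 55 39 (.thr 38 4 (.dbl 54 6 53))))) (.nv (.thr 20 23 (.thr 52 37 (.thr 4 36 (.thr 38 55 (.dbl 6 5 54))))) (.rp 55 (.str 3 (.nv (.thr 15 11 (.thr 23 20 (.thr 63 43 (.thr 31 47 (.thr 26 16 (.dbl 37 48 52)))))) (.nv (.thr 37 52 (.thr 15 11 (.thr 48 26 (.thr 33 18 (.dbl 41 45 60))))) (.rp 60 (.thr 37 52 (.thr 53 5 (.thr 15 11 (.thr 48 26 (.thr 63 58 (.dbl 23 20 43)))))) (.rp 52 (.thr 23 20 (.thr 15 11 (.thr 63 43 (.thr 31 47 (.thr 26 16 (.thr 48 37 (.thr 60 41 (.thr 62 61 (.thr 42 2 (.dbl 58 10 53)))))))))) (.rp 48 (.thr 23 20 (.thr 37 52 (.thr 15 11 (.thr 63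 43 (.thr 47 31 (.thr 60 41 (.thr 62 61 (.dbl 42 2 32)))))))) (.rp 37 (.thr 23 20 (.thr 15 11 (.thr 63 43 (.thr 31 47 (.thr 26 16 (.thr 27 19 (.thr 60 41 (.thr 62 61 (.thr 42 2 (.thr 58 10 (.thr 54 50 (.dbl 51 39 57)))))))))))) (.rp 26 (.thr 23 20 (.thr 37 52 (.thr 53 5 (.thr 63 43 (.thr 48 58 (.thr 33 18 (.dbl 41 45 60))))))) (.rp 15 (.thr 37 52 (.thr 41 60 (.thr 45 33 (.thr 61 1 (.thr 13 29 (.thr 49 25 (.dbl 53 5 57))))))) (.rp 11 (.thr 23 20 (.thr 37 52 (.thr 53 5 (.thr 63 43 (.thr 48 58 (.thr 33 18 (.dbl 41 45 60))))))) .nd)))))))))) (.rp 54 (.thr 23 20 (.thr 55 39 (.thr 4 38 (.thr 5 6 (.dbl 37 52 53))))) (.rp 52 (.str 38 (.nv (.thr 23 20 (.dbl 55 4 39)) (.nv (.thr 6 54 (.dbl 4 5 55)) (.rp 55 (.thr 54 6 (.str 60 (.nv (.thr 51 57 (.thr 12 25 (.thr 41 3 (.dbl 44 28 35)))) (.nv (.thr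 3 41 (.thr 15 11 (.thr 23 20 (.thr 51 57 (.thr 19 35 (.dbl 27 31 39)))))) (.nv (.thr 3 41 (.thr 51 57 (.thr 19 35 (.dbl 25 12 28)))) (.rp 57 (.thr 23 20 (.thr 3 41 (.thr 15 11 (.thr 63 43 (.thr 31 47 (.thr 62 61 (.thr 26 16 (.dbl 50 14 58)))))))) (.rp 51 (.thr 23 20 (.thr 3 41 (.thr 15 11 (.thr 63 43 (.thr 31 47 (.thr 62 61 (.thr 26 16 (.dbl 50 14 58)))))))) (.rp 41 (.thr 23 20 (.thr 51 57 (.thr 25 12 (.thr 19 28 (.thr 3 35 (.thr 15 11 (.dbl 27 31 39))))))) (.rp 35 (.thr 23 20 (.thr 51 57 (.thr 25 12 (.thr 19 28 (.thr 31 27 (.thr 16 26 (.dbl 17 18 29))))))) (.rp 25 (.thr 23 20 (.thr 3 41 (.thr 15 11 (.thr 63 43 (.thr 31 47 (.thr 27 19 (.dbl 51 39 57))))))) (.rp 3 (.thr 20 23 (.thr 51 57 (.thr 12 25 (.thr 28 44 (.thr 16 24 (.thr 26 31 (.thr 14 50 (.thr 15 13 (.thr 37 48 (.dbl 39 27 36))))))))))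 .nd))))))))))) (.rp 4 (.thr 20 23 (.str 12 (.nv (.thr 6 54 (.thr 3 9 (.thr 41 60 (.thr 51 25 (.dbl 35 19 44))))) (.nv (.thr 51 25 (.thr 54 6 (.thr 60 57 (.thr 41 3 (.dbl 44 28 35))))) (.nv (.thr 6 54 (.thr 3 9 (.thr 60 41 (.thr 28 44 (.dbl 25 19 51))))) (.rp 60 (.thr 6 54 (.thr 3 9 (.thr 15 11 (.thr 14 13 (.thr 26 50 (.thr 48 37 (.thr 16 31 (.dbl 24 28 36)))))))) (.rp 54 (.thr 25 51 (.thr 28 19 (.thr 60 44 (.thr 16 24 (.thr 3 41 (.thr 15 11 (.thr 14 13 (.dbl 26 31 50)))))))) (.rp 51 (.thr 6 54 (.thr 3 9 (.thr 15 11 (.thr 14 13 (.thr 26 50 (.thr 48 37 (.thr 16 31 (.dbl 24 28 36)))))))) (.rp 44 (.thr 6 54 (.thr 3 9 (.thr 15 11 (.thr 14 13 (.thr 26 50 (.thr 37 48 (.thr 39 36 (.dbl 51 25 27)))))))) (.rp 41 (.thr 6 54 (.thr 3 9 (.thr 15 11 (.thr 14 13 (.thr 26 50 (.thr 37 48 (.thr 39 36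 (.dbl 51 25 27)))))))) (.rp 25 (.thr 6 54 (.thr 3 9 (.thr 15 11 (.thr 14 13 (.thr 26 50 (.thr 16 31 (.thr 28 24 (.dbl 60 41 44)))))))) (.rp 6 (.thr 25 51 (.thr 28 19 (.thr 60 44 (.thr 16 24 (.thr 3 41 (.thr 15 11 (.thr 14 13 (.dbl 26 31 50)))))))) (.rp 3 (.thr 54 6 (.thr 51 25 (.thr 60 57 (.thr 28 44 (.thr 16 24 (.thr 26 31 (.thr 14 50 (.thr 15 13 (.thr 37 48 (.dbl 39 27 36)))))))))) .nd))))))))))))) .nd))))) (.rp 38 (.str 3 (.nv (.thr 15 11 (.thr 23 20 (.thr 39 55 (.thr 27 51 (.thr 31 19 (.dbl 63 43 47)))))) (.nv (.thr 37 52 (.thr 15 11 (.thr 48 26 (.thr 33 18 (.dbl 41 45 60))))) (.rp 60 (.thr 37 52 (.thr 53 5 (.thr 15 11 (.thr 48 26 (.thr 63 58 (.dbl 23 20 43)))))) (.rp 15 (.thr 23 20 (.thr 55 39 (.thr 63 43 (.thr 51 59 (.thr 60 41 (.thr 54 57 (.dbl 52 37 53))))))) (.rp 11 (.thr 37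 52 (.thr 5 53 (.thr 6 4 (.thr 41 60 (.thr 1 61 (.dbl 9 12 13)))))) .nd)))))) (.rp 37 (.thr 23 20 (.str 60 (.nv (.thr 55 39 (.thr 38 4 (.thr 54 6 (.thr 51 57 (.thr 63 59 (.dbl 3 41 43)))))) (.nv (.thr 3 41 (.thr 55 39 (.thr 38 4 (.thr 6 54 (.thr 12 9 (.thr 28 44 (.dbl 25 19 51))))))) (.nv (.thr 3 41 (.thr 15 11 (.thr 39 55 (.thr 43 63 (.thr 51 27 (.dbl 35 19 47)))))) (.rp 55 (.thr 3 41 (.thr 15 11 (.thr 63 43 (.thr 62 61 (.thr 31 47 (.thr 26 16 (.thr 27 19 (.thr 42 2 (.thr 58 10 (.thr 54 50 (.dbl 51 39 57))))))))))) (.rp 51 (.thr 55 39 (.thr 38 4 (.thr 54 6 (.thr 3 41 (.thr 63 43 (.thr 62 61 (.thr 58 50 (.dbl 53 48 52)))))))) (.rp 41 (.thr 55 39 (.thr 38 4 (.thr 54 6 (.thr 51 57 (.thr 63 59 (.thr 62 61 (.thr 58 50 (.dbl 53 48 52)))))))) (.rp 39 (.str 38 (.nv (.thr 6 54 (.dbl 4 5 55))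 (.rp 55 (.thr 54 6 (.thr 51 57 (.thr 12 25 (.thr 44 28 (.dbl 41 3 35))))) (.rp 54 (.thr 4 55 (.thr 6 5 (.thr 3 41 (.thr 12 9 (.thr 28 44 (.dbl 25 19 51)))))) (.rp 6 (.thr 55 4 (.thr 41 3 (.thr 44 35 (.thr 12 28 (.thr 51 25 (.thr 63 59 (.dbl 61 1 62))))))) (.rp 5 (.thr 54 6 (.thr 55 4 (.thr 51 57 (.thr 63 59 (.dbl 3 41 43))))) (.rp 4 (.thr 54 6 (.thr 51 57 (.thr 12 25 (.thr 44 28 (.dbl 41 3 35))))) .nd))))))) (.rp 3 (.thr 55 39 (.thr 38 4 (.thr 54 6 (.thr 51 57 (.thr 63 59 (.thr 62 61 (.thr 58 50 (.dbl 53 48 52)))))))) .nd)))))))))) (.rp 23 (.thr 37 52 (.str 3 (.nv (.thr 5 53 (.thr 6 4 (.thr 41 60 (.thr 1 61 (.dbl 9 12 13))))) (.nv (.thr 15 11 (.thr 48 26 (.thr 33 18 (.dbl 41 45 60)))) (.rp 60 (.thr 5 53 (.thr 6 4 (.thr 15 11 (.thr 48 26 (.thr 12 9 (.thr 36 24 (.dbl 38 39 54))))))) (.rp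 56 (.thr 15 11 (.thr 48 26 (.thr 41 60 (.dbl 33 18 45)))) (.rp 48 (.thr 5 53 (.thr 6 4 (.thr 15 11 (.thr 12 9 (.thr 13 14 (.thr 25 49 (.dbl 38 51 54))))))) (.rp 45 (.thr 5 53 (.thr 6 4 (.thr 15 11 (.thr 41 60 (.thr 1 61 (.dbl 9 12 13)))))) (.rp 41 (.thr 5 53 (.thr 6 4 (.thr 15 11 (.thr 26 48 (.thr 12 9 (.thr 14 13 (.dbl 38 50 54))))))) (.rp 15 (.thr 5 53 (.thr 6 4 (.thr 41 60 (.thr 45 33 (.thr 1 61 (.dbl 9 12 13)))))) .nd)))))))))) (.rp 20 (.str 38 (.nv (.thr 55 4 (.thr 39 23 (.dbl 37 36 52))) (.nv (.thr 6 54 (.dbl 4 5 55)) (.rp 60 (.str 40 (.nv (.thr 55 4 (.thr 39 23 (.dbl 37 36 52))) (.nv (.thr 4 55 (.dbl 6 5 54)) (.rp 55 (.thr 6 54 (.thr 5 4 (.dbl 37 52 53))) (.rp 45 (.str 15 (.nv (.thr 55 4 (.thr 39 23 (.dbl 37 36 52))) (.nv (.thr 4 55 (.dbl 6 5 54)) (.rp 55 (.thr 6 54 (.thr 5 4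 (.dbl 37 52 53))) (.rp 4 (.thr 6 54 (.thr 37 52 (.thr 36 39 (.thr 48 26 (.thr 12 24 (.dbl 3 9 11)))))) .nd))))) (.rp 15 (.str 45 (.nv (.thr 37 52 (.thr 36 39 (.thr 41 33 (.dbl 44 32 35)))) (.nv (.thr 4 55 (.dbl 6 5 54)) (.rp 10 (.str 5 (.nv (.dbl 37 52 53) (.nv (.dbl 6 4 54) .nd))) (.rp 5 (.str 10 (.nv (.thr 37 52 (.thr 36 39 (.thr 41 33 (.dbl 44 32 35)))) (.nv (.thr 52 37 (.thr 54 6 (.dbl 55 4 53))) (.rp 52 (.thr 6 54 (.thr 2 14 (.thr 42 62 (.thr 46 34 (.thr 44 47 (.dbl 41 35 43)))))) (.rp 48 (.thr 54 6 (.thr 55 4 (.dbl 52 37 53))) (.rp 37 (.thr 6 54 (.thr 2 14 (.thr 42 62 (.thr 46 34 (.thr 44 47 (.dbl 41 35 43)))))) .nd)))))) .nd))))) (.rp 4 (.thr 6 54 (.thr 37 52 (.thr 36 39 (.thr 32 44 (.thr 42 47 (.thr 2 62 (.thr 14 10 (.thr 50 26 (.dbl 34 18 46))))))))) .nd))))))) (.rp 55 (.thr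 6 54 (.thr 5 4 (.dbl 37 52 53))) (.rp 40 (.str 60 (.nv (.thr 55 4 (.thr 39 23 (.dbl 37 36 52))) (.nv (.thr 6 54 (.dbl 4 5 55)) (.rp 55 (.thr 6 54 (.thr 5 4 (.dbl 37 52 53))) (.rp 4 (.thr 54 6 (.thr 51 57 (.thr 12 25 (.thr 44 28 (.dbl 41 3 35))))) .nd))))) (.rp 4 (.thr 37 52 (.thr 36 39 (.str 60 (.nv (.thr 41 3 (.thr 44 35 (.thr 32 40 (.thr 45 33 (.dbl 47 42 46))))) (.nv (.thr 3 41 (.thr 6 54 (.thr 15 11 (.thr 26 48 (.thr 14 50 (.dbl 12 9 13)))))) (.nv (.thr 54 6 (.thr 51 57 (.thr 12 25 (.thr 41 3 (.dbl 44 28 35))))) (.rp 51 (.thr 6 54 (.thr 3 41 (.thr 15 11 (.thr 12 9 (.dbl 48 24 26))))) (.rp 41 (.thr 54 6 (.thr 53 5 (.thr 57 51 (.thr 61 49 (.thr 63 62 (.thr 48 58 (.thr 12 24 (.thr 28 44 (.thr 25 19 (.dbl 29 17 46)))))))))) (.rp 12 (.str 8 (.nv (.thr 54 6 (.thr 53 5 (.thr 57 51 (.thr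 61 49 (.dbl 41 1 3))))) (.nv (.thr 41 3 (.thr 44 35 (.thr 32 40 (.thr 45 33 (.dbl 47 42 46))))) (.nv (.thr 41 3 (.thr 1 61 (.thr 33 45 (.thr 49 17 (.thr 13 25 (.dbl 5 9 53)))))) (.rp 51 (.thr 54 6 (.thr 3 41 (.thr 15 11 (.thr 26 48 (.thr 50 14 (.thr 62 58 (.thr 63 61 (.dbl 31 16 47)))))))) (.rp 41 (.thr 54 6 (.thr 53 5 (.thr 57 51 (.thr 61 49 (.thr 62 63 (.thr 42 2 (.thr 59 25 (.dbl 58 50 56)))))))) (.rp 9 (.thr 6 54 (.thr 41 3 (.thr 45 33 (.thr 44 35 (.thr 47 46 (.dbl 32 40 42)))))) (.rp 6 (.thr 5 53 (.thr 3 41 (.thr 11 15 (.thr 9 10 (.thr 13 1 (.thr 25 49 (.thr 42 59 (.thr 47 32 (.thr 46 34 (.thr 45 44 (.dbl 29 17 61))))))))))) (.rp 3 (.str 61 (.nv (.thr 1 41 (.thr 53 5 (.thr 49 57 (.thr 17 33 (.dbl 25 13 29))))) (.nv (.thr 53 5 (.thr 57 49 (.dbl 54 6 51))) (.rp 57 (.thr 62 63 (.thr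 5 53 (.thr 42 2 (.thr 1 41 (.thr 25 59 (.dbl 13 9 49)))))) (.rp 53 (.thr 62 63 (.thr 42 2 (.thr 1 41 (.thr 25 59 (.thr 29 17 (.dbl 13 45 49)))))) (.rp 49 (.thr 62 63 (.thr 6 54 (.thr 2 42 (.thr 10 14 (.thr 9 11 (.thr 1 41 (.dbl 5 13 53))))))) (.rp 15 (.thr 62 63 (.thr 5 53 (.thr 42 2 (.thr 1 41 (.thr 25 59 (.dbl 13 9 49)))))) (.rp 10 (.thr 62 63 (.thr 5 53 (.thr 42 2 (.thr 1 41 (.thr 25 59 (.dbl 13 9 49)))))) (.rp 9 (.thr 6 54 (.thr 53 5 (.thr 1 41 (.thr 49 57 (.thr 25 13 (.dbl 17 29 33)))))) (.rp 6 (.str 9 (.nv (.thr 1 41 (.dbl 5 13 53)) (.rp 53 (.thr 1 41 (.thr 13 5 (.thr 29 45 (.dbl 25 17 49)))) (.rp 41 (.thr 62 63 (.thr 53 5 (.thr 49 57 (.thr 25 13 (.dbl 42 2 59))))) (.rp 13 (.thr 53 5 (.thr 57 49 (.dbl 41 1 25))) (.rp 5 (.thr 62 63 (.thr 42 2 (.thr 1 41 (.thr 25 59 (.thr 29 17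 (.dbl 13 45 49)))))) (.rp 1 (.str 2 (.nv (.dbl 62 42 63) (.rp 63 (.thr 53 5 (.thr 42 62 (.thr 25 59 (.dbl 57 41 49)))) (.rp 62 (.thr 53 5 (.thr 57 49 (.thr 41 25 (.thr 44 35 (.thr 40 32 (.thr 56 24 (.dbl 11 10 26))))))) (.rp 42 (.thr 63 62 (.thr 53 5 (.thr 58 48 (.thr 57 49 (.thr 59 56 (.dbl 51 54 55)))))) .nd))))) .nd))))))) (.rp 5 (.thr 62 63 (.thr 42 2 (.thr 1 41 (.thr 25 59 (.thr 29 17 (.dbl 13 45 49)))))) (.rp 1 (.str 2 (.nv (.thr 53 5 (.thr 57 49 (.dbl 54 6 51))) (.nv (.dbl 62 42 63) (.rp 9 (.thr 6 54 (.dbl 62 42 63)) (.rp 6 (.str 9 (.nv (.dbl 62 42 63) (.rp 63 (.thr 53 5 (.thr 42 62 (.thr 25 59 (.dbl 57 41 49)))) (.rp 62 (.thr 53 5 (.thr 57 49 (.thr 41 25 (.thr 44 35 (.thr 40 32 (.thr 56 24 (.dbl 11 10 26))))))) (.rp 42 (.thr 63 62 (.thr 53 5 (.thr 58 48 (.thr 57 49 (.thr 59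 56 (.dbl 51 54 55)))))) .nd))))) .nd))))) .nd)))))))))))) (.rp 1 (.thr 54 6 (.thr 53 5 (.thr 3 41 (.thr 15 11 (.thr 57 51 (.thr 61 49 (.thr 63 62 (.dbl 48 26 58)))))))) .nd)))))))))) (.rp 8 (.str 12 (.nv (.thr 41 3 (.dbl 44 28 35)) (.nv (.thr 54 6 (.dbl 51 25 57)) .nd))) (.rp 3 (.thr 54 6 (.thr 51 57 (.thr 12 25 (.thr 48 24 (.thr 50 49 (.dbl 26 14 15)))))) .nd))))))))))) .nd))))))) (.rp 6 (.str 19 (.nv (.thr 23 20 (.thr 31 27 (.thr 16 26 (.thr 25 28 (.dbl 17 18 29))))) (.rp 60 (.thr 25 28 (.thr 29 17 (.thr 37 52 (.thr 5 53 (.thr 13 49 (.thr 1 9 (.dbl 61 41 45))))))) (.rp 40 (.thr 25 28 (.thr 29 17 (.thr 37 52 (.thr 5 53 (.thr 13 49 (.thr 1 9 (.dbl 61 41 45))))))) (.rp 31 (.thr 25 28 (.thr 29 17 (.thr 37 52 (.thr 5 53 (.thr 13 49 (.thr 1 9 (.dbl 61 41 45))))))) (.rp 29 (.thr 23 20 (.thr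 31 27 (.thr 16 26 (.thr 17 18 (.thr 25 28 (.thr 37 52 (.thr 53 5 (.thr 49 13 (.thr 61 57 (.dbl 1 33 41)))))))))) (.rp 28 (.thr 23 20 (.thr 31 27 (.thr 16 26 (.thr 17 18 (.thr 25 29 (.thr 37 52 (.thr 53 5 (.thr 49 13 (.thr 61 57 (.dbl 1 33 41)))))))))) (.rp 27 (.thr 25 28 (.thr 29 17 (.thr 37 52 (.thr 5 53 (.thr 13 49 (.thr 1 9 (.dbl 61 41 45))))))) (.rp 26 (.thr 25 28 (.thr 29 17 (.thr 37 52 (.thr 5 53 (.thr 13 49 (.thr 1 9 (.dbl 61 41 45))))))) (.rp 25 (.thr 23 20 (.thr 27 31 (.thr 39 55 (.thr 15 51 (.thr 3 11 (.thr 37 52 (.thr 53 5 (.thr 48 26 (.dbl 63 43 58))))))))) (.rp 23 (.thr 25 28 (.thr 29 17 (.thr 37 52 (.thr 5 53 (.thr 13 49 (.thr 1 9 (.dbl 61 41 45))))))) (.rp 20 (.thr 25 28 (.thr 29 17 (.thr 37 52 (.thr 5 53 (.thr 13 49 (.thr 1 9 (.dbl 61 41 45))))))) (.rp 18 (.thr 23 20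 (.thr 27 31 (.thr 39 55 (.thr 15 51 (.thr 37 52 (.thr 26 48 (.dbl 25 24 28))))))) (.rp 17 (.thr 23 20 (.thr 27 31 (.thr 39 55 (.thr 51 15 (.thr 37 52 (.thr 3 35 (.thr 63 43 (.thr 60 41 (.thr 61 62 (.thr 57 54 (.dbl 53 5 49))))))))))) (.rp 16 (.thr 25 28 (.thr 29 17 (.thr 37 52 (.thr 5 53 (.thr 13 49 (.thr 1 9 (.dbl 61 41 45))))))) .nd))))))))))))))) (.rp 4 (.thr 37 52 (.thr 20 23 (.str 41 (.nv (.thr 1 61 (.thr 5 53 (.thr 13 9 (.thr 49 25 (.dbl 33 17 45))))) (.nv (.thr 3 60 (.thr 15 11 (.thr 33 45 (.dbl 48 18 26)))) (.rp 45 (.thr 5 53 (.thr 3 60 (.thr 15 11 (.thr 1 61 (.thr 13 9 (.thr 49 25 (.thr 33 17 (.dbl 48 18 26)))))))) (.rp 33 (.thr 53 5 (.thr 3 60 (.thr 15 11 (.thr 61 1 (.thr 49 57 (.thr 48 26 (.thr 51 50 (.thr 19 35 (.dbl 25 13 28))))))))) (.rp 12 (.str 8 (.nv (.thr 1 61 (.thr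 5 53 (.thr 13 9 (.thr 49 25 (.dbl 33 17 45))))) (.nv (.thr 3 60 (.thr 15 11 (.thr 33 45 (.dbl 48 18 26)))) (.rp 45 (.thr 5 53 (.thr 3 60 (.thr 15 11 (.thr 1 61 (.thr 13 9 (.thr 49 25 (.thr 33 17 (.dbl 48 18 26)))))))) (.rp 33 (.thr 5 53 (.thr 3 60 (.thr 1 61 (.thr 9 13 (.dbl 11 10 15))))) (.rp 3 (.thr 5 53 (.thr 1 61 (.thr 33 45 (.thr 49 17 (.dbl 13 9 25))))) .nd)))))) (.rp 8 (.str 12 (.nv (.thr 1 61 (.thr 5 53 (.thr 13 9 (.thr 49 25 (.dbl 33 17 45))))) (.nv (.thr 60 3 (.thr 44 28 (.thr 38 35 (.thr 51 25 (.dbl 54 6 57))))) (.nv (.thr 33 45 (.thr 3 60 (.thr 15 11 (.dbl 48 18 26)))) .nd)))) .nd))))))))) .nd))))))))))))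

theorem w52 : WinAt (6291456, 1073741825) :=
  chF (K := []) kn c52 6291456 1073741825 30
    [] (by decide +kernel) (by decide +kernel)

/-- A certificate. -/
noncomputable def c53 : Ct := (.str 7 (.nv (.thr 20 23 (.thr 52 37 (.thr 4 36 (.thr 38 55 (.dbl 6 5 54))))) (.nv (.thr 37 52 (.thr 5 53 (.thr 4 6 (.thr 55 38 (.dbl 23 20 39))))) (.rp 55 (.str 3 (.nv (.thr 15 11 (.thr 23 20 (.thr 37 52 (.thr 53 5 (.thr 63 43 (.dbl 48 26 58)))))) (.nv (.thr 15 11 (.thr 60 41 (.thr 30 45 (.thr 26 18 (.dbl 37 48 52))))) (.rp 60 (.thr 37 52 (.thr 53 5 (.thr 15 11 (.thr 48 26 (.thr 63 58 (.dbl 23 20 43)))))) (.rp 52 (.thr 23 20 (.thr 15 11 (.thr 63 43 (.thr 60 41 (.thr 62 61 (.thr 30 45 (.thr 26 18 (.thr 42 2 (.thr 58 10 (.dbl 48 37 53)))))))))) (.rp 48 (.thr 20 23 (.thr 52 37 (.thr 4 36 (.thr 6 5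 (.thr 38 54 (.thr 12 9 (.thr 51 25 (.thr 41 60 (.dbl 35 19 44))))))))) (.rp 37 (.thr 23 20 (.thr 15 11 (.thr 63 43 (.thr 60 41 (.thr 61 62 (.thr 45 30 (.thr 29 13 (.thr 25 17 (.thr 28 19 (.dbl 12 44 46)))))))))) (.rp 26 (.thr 23 20 (.thr 37 52 (.thr 53 5 (.thr 63 43 (.thr 48 58 (.thr 33 18 (.dbl 41 45 60))))))) (.rp 15 (.thr 37 52 (.thr 41 60 (.thr 61 1 (.thr 45 33 (.thr 13 29 (.thr 49 25 (.dbl 53 5 57))))))) (.rp 11 (.thr 23 20 (.thr 37 52 (.thr 53 5 (.thr 63 43 (.thr 48 58 (.thr 18 33 (.dbl 26 15 30))))))) .nd)))))))))) (.rp 54 (.thr 23 20 (.thr 55 39 (.thr 4 38 (.thr 5 6 (.dbl 37 52 53))))) (.rp 52 (.str 4 (.nv (.thr 6 5 (.dbl 38 54 55)) (.nv (.thr 55 38 (.dbl 23 20 39)) (.rp 55 (.str 3 (.nv (.thr 6 5 (.thr 12 9 (.thr 23 20 (.thr 63 43 (.thr 29 46 (.thr 25 17 (.dbl 38 51 54)))))))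 (.nv (.thr 5 6 (.thr 15 11 (.thr 60 41 (.thr 30 45 (.thr 26 18 (.dbl 37 48 53)))))) (.rp 60 (.thr 6 5 (.thr 54 38 (.thr 15 11 (.str 48 (.nv (.thr 18 33 (.dbl 26 30 37)) (.rp 40 (.thr 20 23 (.thr 18 33 (.dbl 26 30 37))) (.rp 37 (.thr 20 23 (.str 19 (.nv (.thr 28 25 (.thr 24 16 (.dbl 12 9 36))) (.nv (.thr 18 33 (.thr 17 16 (.dbl 25 28 29))) (.rp 39 (.str 36 (.nv (.thr 18 33 (.thr 17 16 (.dbl 25 28 29))) (.nv (.dbl 12 9 24) .nd))) (.rp 36 (.str 39 (.nv (.thr 18 33 (.thr 17 16 (.dbl 25 28 29))) (.nv (.dbl 51 27 35) .nd))) (.rp 28 (.thr 51 35 (.thr 50 49 (.thr 18 33 (.thr 62 58 (.dbl 2 34 42))))) (.rp 25 (.thr 18 33 (.thr 16 17 (.thr 24 28 (.dbl 12 9 36)))) (.rp 16 (.thr 51 35 (.thr 50 49 (.thr 18 33 (.thr 62 58 (.dbl 2 34 42))))) .nd))))))))) (.rp 33 (.thr 20 23 (.thr 12 9 (.thr 24 36 (.thr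 28 16 (.thr 19 25 (.thr 51 35 (.thr 50 49 (.thr 62 58 (.thr 2 42 (.dbl 14 10 13)))))))))) (.rp 30 (.thr 33 18 (.thr 37 26 (.thr 12 9 (.thr 41 45 (.thr 1 61 (.thr 49 17 (.dbl 13 14 25))))))) (.rp 26 (.thr 20 23 (.thr 18 33 (.thr 12 9 (.thr 24 36 (.thr 28 16 (.thr 19 25 (.thr 51 35 (.thr 50 49 (.thr 62 58 (.dbl 2 34 42)))))))))) (.rp 20 (.str 40 (.nv (.thr 18 33 (.dbl 26 30 37)) (.rp 37 (.thr 33 18 (.thr 12 9 (.thr 36 24 (.thr 32 44 (.thr 35 34 (.thr 51 19 (.thr 50 49 (.thr 62 58 (.thr 42 2 (.thr 43 41 (.dbl 39 27 47))))))))))) (.rp 33 (.thr 37 26 (.thr 12 9 (.thr 36 24 (.thr 32 44 (.thr 42 47 (.thr 2 62 (.dbl 14 10 13))))))) (.rp 30 (.thr 37 26 (.thr 33 18 (.thr 12 9 (.thr 36 24 (.thr 32 44 (.thr 42 47 (.dbl 41 43 45))))))) (.rp 26 (.thr 33 18 (.thr 12 9 (.thr 36 24 (.thr 32 44 (.thr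 35 34 (.thr 51 19 (.thr 50 49 (.thr 62 58 (.thr 42 2 (.thr 47 37 (.dbl 39 27 43))))))))))) (.rp 18 (.thr 37 26 (.thr 12 9 (.thr 36 24 (.thr 32 44 (.thr 42 47 (.thr 2 62 (.dbl 14 10 13))))))) .nd))))))) (.rp 18 (.thr 20 23 (.thr 12 9 (.thr 24 36 (.thr 28 16 (.thr 19 25 (.thr 51 35 (.thr 50 49 (.thr 62 58 (.thr 2 42 (.dbl 14 10 13)))))))))) .nd)))))))))))) (.rp 54 (.str 53 (.nv (.dbl 5 6 37) (.rp 37 (.thr 6 5 (.thr 9 12 (.thr 41 60 (.thr 61 1 (.dbl 57 25 49))))) (.rp 6 (.thr 23 20 (.thr 37 5 (.thr 15 11 (.thr 48 26 (.dbl 63 43 58))))) (.rp 5 (.thr 23 20 (.thr 15 11 (.thr 63 43 (.thr 48 58 (.thr 18 33 (.dbl 26 30 37)))))) .nd))))) (.rp 53 (.str 54 (.nv (.dbl 6 5 38) (.rp 38 (.thr 23 20 (.thr 15 11 (.thr 43 63 (.thr 60 41 (.thr 51 57 (.thr 35 19 (.dbl 39 27 47))))))) (.rp 6 (.thr 23 20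 (.thr 15 11 (.thr 43 63 (.thr 60 41 (.thr 51 57 (.thr 35 19 (.dbl 39 27 47))))))) (.rp 5 (.thr 38 6 (.thr 60 41 (.thr 51 57 (.thr 19 35 (.dbl 25 12 28))))) .nd))))) (.rp 15 (.thr 5 6 (.thr 41 60 (.thr 1 61 (.thr 9 13 (.thr 25 57 (.thr 19 28 (.thr 51 35 (.thr 29 17 (.thr 12 38 (.thr 63 46 (.dbl 23 20 43))))))))))) (.rp 6 (.thr 23 20 (.thr 15 11 (.thr 63 43 (.thr 60 41 (.thr 61 62 (.thr 45 30 (.thr 29 13 (.thr 25 17 (.thr 28 19 (.dbl 12 44 46)))))))))) (.rp 5 (.thr 23 20 (.thr 15 11 (.thr 63 43 (.thr 60 41 (.thr 62 61 (.thr 30 45 (.thr 26 18 (.thr 42 2 (.thr 58 10 (.dbl 48 37 53)))))))))) .nd))))))))) (.rp 38 (.str 3 (.nv (.thr 5 6 (.thr 37 53 (.thr 41 60 (.thr 1 61 (.thr 13 9 (.thr 49 25 (.dbl 33 17 45))))))) (.nv (.thr 23 20 (.thr 39 55 (.thr 15 11 (.thr 51 27 (.thr 35 19 (.dbl 43 47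 63)))))) (.nv (.thr 5 6 (.thr 15 11 (.thr 60 41 (.thr 30 45 (.thr 26 18 (.dbl 37 48 53)))))) (.rp 60 (.thr 5 6 (.thr 37 53 (.thr 15 11 (.thr 48 26 (.thr 33 18 (.thr 41 45 (.thr 1 61 (.thr 49 17 (.dbl 13 9 25))))))))) (.rp 53 (.thr 23 20 (.thr 6 5 (.thr 12 9 (.thr 63 43 (.thr 29 46 (.thr 25 17 (.thr 28 19 (.dbl 60 41 44)))))))) .nd)))))) .nd))))) (.rp 38 (.str 3 (.nv (.thr 37 52 (.thr 5 53 (.thr 6 4 (.thr 41 60 (.thr 1 61 (.dbl 9 12 13)))))) (.nv (.thr 15 11 (.thr 23 20 (.thr 39 55 (.thr 43 63 (.thr 35 47 (.dbl 51 19 27)))))) (.nv (.thr 37 52 (.thr 15 11 (.thr 48 26 (.thr 33 18 (.dbl 41 45 60))))) (.rp 60 (.thr 37 52 (.thr 53 5 (.thr 15 11 (.thr 48 26 (.thr 63 58 (.dbl 23 20 43)))))) .nd))))) (.rp 37 (.thr 23 20 (.str 60 (.nv (.thr 41 3 (.thr 55 39 (.thr 38 4 (.thr 54 6 (.thr 51 57 (.thr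 12 25 (.dbl 44 28 35))))))) (.nv (.thr 3 41 (.thr 15 11 (.thr 39 55 (.thr 43 63 (.thr 51 27 (.dbl 35 19 47)))))) (.rp 55 (.thr 3 41 (.thr 15 11 (.thr 45 30 (.thr 63 43 (.thr 61 62 (.thr 29 13 (.thr 25 17 (.thr 28 19 (.dbl 12 44 46))))))))) (.rp 51 (.thr 55 39 (.thr 38 4 (.thr 54 6 (.thr 3 41 (.thr 63 43 (.thr 62 61 (.thr 58 50 (.dbl 53 48 52)))))))) (.rp 41 (.thr 55 39 (.thr 38 4 (.thr 54 6 (.thr 51 57 (.thr 63 59 (.thr 62 61 (.thr 58 50 (.dbl 53 48 52)))))))) (.rp 39 (.thr 3 41 (.thr 15 11 (.thr 45 30 (.thr 63 43 (.thr 61 62 (.thr 29 13 (.thr 25 17 (.thr 28 19 (.dbl 12 44 46))))))))) (.rp 35 (.thr 55 39 (.thr 38 4 (.thr 54 6 (.thr 51 57 (.thr 63 59 (.dbl 3 41 43)))))) (.rp 3 (.thr 55 39 (.thr 38 4 (.thr 54 6 (.thr 51 57 (.thr 63 59 (.thr 62 61 (.thr 58 50 (.dbl 53 48 52)))))))) .nd))))))))))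 (.rp 23 (.thr 37 52 (.thr 5 53 (.thr 4 6 (.thr 55 38 (.str 41 (.nv (.thr 1 61 (.thr 33 45 (.thr 49 17 (.dbl 13 9 25)))) (.nv (.thr 3 60 (.thr 15 11 (.thr 33 45 (.dbl 48 18 26)))) (.rp 45 (.thr 3 60 (.thr 15 11 (.thr 1 61 (.thr 13 9 (.thr 49 25 (.thr 33 17 (.dbl 48 18 26))))))) (.rp 33 (.thr 3 60 (.thr 11 15 (.thr 56 26 (.thr 1 61 (.thr 9 13 (.thr 8 10 (.thr 40 24 (.thr 42 43 (.dbl 25 57 59))))))))) (.rp 27 (.str 19 (.nv (.thr 3 60 (.thr 15 11 (.thr 33 45 (.dbl 48 18 26)))) (.nv (.thr 25 28 (.thr 9 57 (.dbl 1 13 61))) .nd))) (.rp 19 (.str 27 (.nv (.thr 1 61 (.thr 13 9 (.thr 33 45 (.dbl 49 17 25)))) (.nv (.thr 3 60 (.thr 15 11 (.thr 33 45 (.dbl 48 18 26)))) (.rp 45 (.thr 3 60 (.thr 15 11 (.thr 51 39 (.thr 1 61 (.thr 13 9 (.thr 49 25 (.dbl 48 26 50))))))) (.rp 33 (.thr 3 60 (.thr 15 11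 (.thr 51 39 (.thr 1 61 (.thr 13 9 (.thr 49 25 (.dbl 48 26 50))))))) (.rp 3 (.thr 1 61 (.thr 33 45 (.thr 49 17 (.dbl 13 9 25)))) .nd)))))) .nd))))))))))) (.rp 20 (.str 6 (.nv (.thr 5 4 (.dbl 37 52 53)) (.nv (.thr 38 54 (.dbl 4 5 55)) (.rp 60 (.str 40 (.nv (.thr 5 4 (.dbl 37 52 53)) (.nv (.thr 4 5 (.dbl 38 54 55)) (.rp 5 (.thr 38 54 (.thr 55 4 (.thr 39 23 (.dbl 37 36 52)))) (.rp 4 (.thr 38 54 (.thr 37 52 (.thr 36 39 (.thr 32 44 (.thr 42 47 (.thr 2 62 (.thr 14 10 (.thr 50 26 (.dbl 34 18 46))))))))) .nd))))) (.rp 40 (.str 60 (.nv (.thr 5 4 (.dbl 37 52 53)) (.nv (.thr 38 54 (.dbl 4 5 55)) (.rp 5 (.thr 38 54 (.thr 55 4 (.thr 39 23 (.dbl 37 36 52)))) (.rp 4 (.thr 38 54 (.thr 3 41 (.thr 12 9 (.thr 28 44 (.dbl 25 19 51))))) .nd))))) (.rp 5 (.thr 38 54 (.thr 55 4 (.thr 39 23 (.dbl 37 36 52))))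 (.rp 4 (.thr 52 37 (.str 60 (.nv (.thr 54 38 (.thr 53 55 (.thr 48 56 (.thr 63 58 (.thr 61 62 (.dbl 57 49 51)))))) (.nv (.thr 3 41 (.thr 12 9 (.thr 28 44 (.thr 38 54 (.dbl 25 19 51))))) (.rp 57 (.thr 38 54 (.thr 3 41 (.thr 12 9 (.thr 25 51 (.dbl 28 19 44))))) (.rp 54 (.thr 3 41 (.thr 15 11 (.thr 45 30 (.thr 12 9 (.thr 13 14 (.thr 28 44 (.thr 29 61 (.dbl 25 17 19)))))))) (.rp 51 (.thr 54 38 (.thr 53 55 (.thr 48 56 (.thr 63 58 (.thr 61 62 (.dbl 41 1 3)))))) (.rp 38 (.thr 3 41 (.thr 15 11 (.thr 45 30 (.thr 12 9 (.thr 13 14 (.thr 44 28 (.thr 29 61 (.dbl 46 47 63)))))))) (.rp 12 (.str 8 (.nv (.thr 3 41 (.thr 54 38 (.thr 51 57 (.thr 55 53 (.thr 39 23 (.dbl 15 11 27)))))) (.nv (.thr 3 41 (.thr 11 15 (.thr 10 9 (.thr 14 2 (.thr 38 54 (.thr 26 50 (.thr 18 30 (.dbl 48 33 56)))))))) (.nv (.thr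 54 38 (.thr 53 55 (.thr 48 56 (.thr 63 58 (.thr 61 62 (.dbl 57 49 51)))))) (.rp 57 (.thr 38 54 (.thr 56 48 (.thr 41 3 (.thr 26 11 (.thr 14 50 (.thr 2 10 (.thr 62 42 (.dbl 30 18 46)))))))) (.rp 54 (.thr 56 48 (.thr 24 40 (.thr 41 3 (.thr 26 11 (.thr 25 27 (.thr 57 9 (.dbl 59 42 58))))))) (.rp 38 (.thr 56 48 (.thr 24 40 (.thr 41 3 (.thr 26 11 (.thr 25 27 (.thr 57 9 (.dbl 59 42 58))))))) (.rp 25 (.thr 54 38 (.thr 51 57 (.thr 53 55 (.thr 48 56 (.thr 58 63 (.dbl 50 49 62)))))) .nd)))))))) (.rp 8 (.str 12 (.nv (.thr 28 44 (.thr 25 19 (.dbl 38 51 54))) (.nv (.dbl 3 9 41) .nd))) .nd)))))))))) .nd))))))) (.rp 6 (.str 3 (.nv (.thr 15 11 (.thr 23 20 (.thr 39 55 (.thr 43 63 (.thr 35 47 (.dbl 51 19 27)))))) (.nv (.thr 37 52 (.thr 15 11 (.thr 48 26 (.thr 33 18 (.dbl 41 45 60))))) (.rp 60 (.thr 37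 52 (.thr 53 5 (.thr 15 11 (.thr 48 26 (.thr 63 58 (.dbl 23 20 43)))))) (.rp 15 (.thr 23 20 (.thr 55 39 (.thr 38 4 (.thr 63 43 (.thr 51 59 (.thr 35 19 (.dbl 41 44 60))))))) (.rp 11 (.thr 23 20 (.thr 55 39 (.thr 52 37 (.thr 54 53 (.thr 63 43 (.thr 60 41 (.dbl 51 57 59))))))) .nd)))))) (.rp 5 (.thr 23 20 (.thr 55 39 (.thr 38 4 (.thr 54 6 (.dbl 52 37 53))))) (.rp 4 (.thr 23 20 (.thr 52 37 (.str 60 (.nv (.thr 41 3 (.thr 48 56 (.thr 55 39 (.thr 53 54 (.thr 63 58 (.dbl 61 1 62)))))) (.nv (.thr 3 41 (.thr 15 11 (.thr 39 55 (.thr 43 63 (.thr 51 27 (.dbl 35 19 47)))))) (.nv (.thr 55 39 (.thr 54 53 (.thr 51 57 (.thr 63 59 (.dbl 3 41 43))))) (.rp 63 (.thr 55 39 (.thr 54 53 (.thr 38 6 (.thr 51 57 (.thr 12 25 (.thr 44 28 (.dbl 41 3 35))))))) (.rp 56 (.thr 55 39 (.thr 54 53 (.thr 51 57 (.thr 3 41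 (.dbl 63 43 59))))) (.rp 55 (.thr 48 56 (.thr 3 41 (.thr 63 43 (.thr 62 61 (.thr 58 53 (.thr 42 2 (.thr 26 10 (.dbl 18 30 33)))))))) (.rp 41 (.thr 55 39 (.thr 54 53 (.thr 38 6 (.thr 48 56 (.thr 51 57 (.thr 49 50 (.thr 59 63 (.thr 25 12 (.thr 8 42 (.thr 19 28 (.thr 3 35 (.thr 33 18 (.dbl 17 1 29))))))))))))) (.rp 39 (.thr 48 56 (.thr 3 41 (.thr 63 43 (.thr 61 62 (.thr 53 58 (.thr 54 55 (.dbl 57 49 51))))))) (.rp 12 (.str 8 (.nv (.thr 41 3 (.thr 48 56 (.thr 55 39 (.thr 53 54 (.thr 63 58 (.dbl 61 1 62)))))) (.nv (.thr 3 41 (.thr 15 11 (.thr 39 55 (.thr 43 63 (.thr 51 27 (.dbl 35 19 47)))))) (.nv (.thr 55 39 (.thr 54 53 (.thr 51 57 (.thr 63 59 (.dbl 3 41 43))))) (.rp 63 (.thr 41 3 (.thr 56 48 (.thr 24 40 (.thr 26 11 (.thr 25 27 (.thr 59 42 (.dbl 57 9 58))))))) (.rp 56 (.thr 55 39 (.thr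 54 53 (.thr 3 41 (.thr 63 43 (.dbl 51 57 59))))) (.rp 55 (.thr 41 3 (.thr 56 48 (.thr 24 40 (.thr 26 11 (.thr 25 27 (.thr 59 42 (.dbl 57 9 58))))))) (.rp 41 (.thr 55 39 (.thr 53 54 (.thr 48 56 (.thr 63 58 (.thr 62 61 (.thr 42 2 (.dbl 59 25 51))))))) (.rp 39 (.thr 41 3 (.thr 56 48 (.thr 24 40 (.thr 26 11 (.thr 25 27 (.thr 59 42 (.dbl 57 9 58))))))) (.rp 3 (.thr 55 39 (.thr 53 54 (.thr 48 56 (.thr 63 58 (.thr 62 61 (.thr 59 51 (.dbl 42 2 25))))))) .nd)))))))))) (.rp 8 (.str 12 (.nv (.thr 3 41 (.thr 55 39 (.thr 54 53 (.dbl 6 9 38)))) (.nv (.thr 3 41 (.thr 63 43 (.thr 29 46 (.thr 25 17 (.dbl 28 19 44))))) (.nv (.thr 55 39 (.thr 54 53 (.thr 38 6 (.dbl 51 25 57)))) .nd)))) (.rp 3 (.thr 55 39 (.thr 54 53 (.thr 38 6 (.thr 51 57 (.thr 12 25 (.thr 44 28 (.thr 63 59 (.thr 61 62 (.dbl 41 1 35)))))))))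 .nd)))))))))))))) .nd)))))))))))))

theorem w53 : WinAt (6291456, 2147483649) :=
  chF (K := []) kn c53 6291456 2147483649 31
    [] (by decide +kernel) (by decide +kernel)

/-- A certificate. -/
noncomputable def c54 : Ct := (.str 37 (.nv (.thr 52 7 (.thr 4 36 (.thr 55 38 (.dbl 53 5 54)))) (.nv (.thr 48 15 (.thr 3 33 (.thr 60 41 (.dbl 52 7 56)))) (.nv (.thr 53 5 (.thr 52 7 (.thr 55 54 (.dbl 4 36 38)))) (.rp 52 (.str 50 (.nv (.thr 48 15 (.thr 3 33 (.dbl 51 35 49))) (.nv (.thr 38 14 (.thr 54 6 (.thr 62 58 (.dbl 2 34 42)))) (.rp 51 (.thr 34 2 (.thr 48 15 (.thr 3 33 (.thr 60 41 (.thr 38 14 (.thr 6 54 (.dbl 12 9 44))))))) (.rp 34 (.str 51 (.nv (.thr 3 35 (.thr 33 48 (.dbl 41 45 60))) (.nv (.dbl 48 15 49) (.rp 48 (.thr 38 14 (.thr 54 6 (.thr 60 57 (.dbl 3 35 41)))) (.rp 35 (.str 33 (.nv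 (.thr 3 48 (.dbl 41 45 60)) (.nv (.dbl 48 3 15) (.rp 48 (.thr 41 45 (.thr 60 3 (.thr 54 57 (.dbl 38 6 14)))) (.rp 3 (.dbl 48 15 49) .nd))))) (.rp 33 (.thr 35 3 (.dbl 48 15 49)) .nd)))))) (.rp 10 (.thr 48 15 (.thr 5 53 (.thr 51 49 (.dbl 3 33 35)))) .nd)))))) (.rp 51 (.str 34 (.nv (.thr 48 15 (.thr 3 33 (.thr 60 41 (.dbl 52 7 56)))) (.nv (.thr 50 2 (.thr 52 7 (.thr 4 36 (.dbl 38 14 55)))) (.nv (.thr 53 5 (.thr 52 7 (.thr 55 54 (.dbl 4 36 38)))) (.rp 52 (.thr 48 15 (.thr 3 33 (.thr 2 50 (.thr 60 41 (.thr 62 42 (.thr 63 61 (.dbl 53 5 58))))))) (.rp 38 (.str 12 (.nv (.thr 2 50 (.thr 60 44 (.thr 41 3 (.thr 61 1 (.dbl 62 42 63))))) (.nv (.thr 5 53 (.thr 7 52 (.thr 6 4 (.thr 3 9 (.dbl 48 15 33))))) (.nv (.thr 7 52 (.thr 15 48 (.thr 3 11 (.dbl 60 41 44)))) (.rp 48 (.thr 7 52 (.thr 5 53 (.thr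 6 4 (.thr 3 9 (.dbl 60 41 44))))) (.rp 41 (.thr 48 15 (.thr 52 7 (.dbl 60 44 56))) (.rp 3 (.thr 48 15 (.thr 60 44 (.dbl 52 7 56))) .nd))))))) (.rp 12 (.str 38 (.nv (.thr 4 55 (.dbl 36 39 52)) (.nv (.dbl 50 2 14) (.rp 48 (.thr 36 39 (.dbl 50 2 14)) (.rp 36 (.thr 48 15 (.dbl 50 2 14)) (.rp 4 (.str 8 (.nv (.dbl 50 2 14) (.rp 50 (.thr 48 15 (.thr 3 33 (.thr 52 7 (.dbl 60 41 56)))) (.rp 48 (.thr 36 39 (.dbl 50 2 14)) (.rp 36 (.thr 48 15 (.dbl 50 2 14)) (.rp 14 (.thr 2 50 (.dbl 42 46 62)) (.rp 2 (.thr 48 15 (.thr 3 33 (.thr 52 7 (.dbl 60 41 56)))) .nd))))))) .nd)))))) (.rp 7 (.thr 48 15 (.thr 3 33 (.thr 2 50 (.thr 60 41 (.thr 62 42 (.thr 63 61 (.dbl 53 5 58))))))) .nd)))))))) (.rp 34 (.str 51 (.nv (.thr 52 7 (.thr 53 5 (.thr 55 54 (.dbl 4 36 38)))) (.nv (.thr 3 35 (.thr 33 48 (.dbl 41 45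 60))) (.rp 36 (.thr 48 15 (.dbl 3 33 35)) (.rp 35 (.str 33 (.nv (.dbl 48 3 15) (.rp 48 (.thr 52 7 (.thr 53 5 (.thr 55 54 (.dbl 4 36 38)))) (.rp 15 (.thr 3 48 (.dbl 41 45 60)) (.rp 3 (.thr 52 7 (.thr 15 48 (.thr 39 27 (.dbl 36 4 38)))) .nd))))) (.rp 33 (.thr 35 3 (.thr 15 48 (.thr 39 27 (.thr 36 38 (.dbl 52 4 7))))) .nd)))))) (.rp 7 (.thr 48 15 (.thr 3 33 (.thr 60 41 (.thr 52 56 (.thr 4 36 (.thr 55 38 (.dbl 53 5 54))))))) (.rp 5 (.thr 15 48 (.thr 7 52 (.thr 3 11 (.thr 60 41 (.thr 12 44 (.thr 14 13 (.thr 38 50 (.dbl 6 9 54)))))))) .nd)))))))))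

theorem w54 : WinAt (343736320, 7575044097) :=
  chF (K := []) kn c54 343736320 7575044097 30
    [2251816993685505] (by decide +kernel) (by decide +kernel)

/-- A certificate. -/
noncomputable def c55 : Ct := (.str 16 (.nv (.thr 28 24 (.thr 19 25 (.thr 26 31 (.dbl 18 17 30)))) (.rp 31 (.thr 28 24 (.thr 19 25 (.thr 18 17 (.thr 26 30 .ext)))) (.rp 30 (.str 4 (.nv (.thr 24 28 (.thr 36 52 (.thr 12 48 (.thr 38 55 (.thr 25 51 (.dbl 26 27 31)))))) (.nv (.thr 52 36 (.thr 55 38 (.thr 37 7 (.dbl 53 5 54)))) (.rp 55 (.thr 52 36 (.thr 7 37 (.thr 6 5 (.thr 38 54 (.thr 28 24 (.thr 25 19 (.thr 12 51 (.thr 3 9 (.dbl 60 41 44))))))))) (.rp 54 (.thr 52 36 (.thr 7 37 (.thr 6 5 (.thr 38 55 (.thr 28 24 (.thr 25 19 (.thr 12 51 (.thr 3 9 (.dbl 60 41 44))))))))) (.rp 53 (.thr 52 36 (.thr 7 37 (.thr 6 5 (.dbl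 38 54 55)))) (.rp 52 (.thr 38 55 (.thr 28 24 (.thr 25 19 (.thr 12 51 (.thr 60 44 (.thr 3 41 (.dbl 6 9 54))))))) (.rp 38 (.thr 52 36 (.thr 37 7 (.thr 5 53 (.thr 28 24 (.thr 25 19 (.thr 29 17 (.thr 13 49 (.thr 61 45 (.dbl 1 9 41))))))))) (.rp 36 (.thr 38 55 (.thr 6 54 (.thr 28 24 (.thr 25 19 (.thr 12 51 (.thr 3 9 (.dbl 60 41 44))))))) (.rp 7 (.thr 36 52 (.thr 38 55 (.thr 39 37 (.thr 24 28 (.thr 12 48 (.thr 25 51 (.dbl 26 27 31))))))) .nd)))))))))) (.rp 28 (.str 4 (.nv (.thr 38 55 (.thr 6 54 (.thr 7 5 (.dbl 52 36 37)))) (.nv (.thr 52 36 (.thr 55 38 (.thr 37 7 (.dbl 53 5 54)))) (.rp 55 (.thr 52 36 (.thr 7 37 (.thr 6 5 (.thr 38 54 (.thr 26 31 (.thr 30 18 (.thr 14 50 (.thr 62 46 (.dbl 2 10 42))))))))) (.rp 54 (.thr 52 36 (.thr 37 7 (.thr 26 31 (.thr 48 15 (.thr 60 56 (.thr 3 41 (.dbl 18 30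 33))))))) (.rp 53 (.thr 52 36 (.thr 7 37 (.thr 6 5 (.dbl 38 54 55)))) (.rp 52 (.thr 38 55 (.thr 54 6 (.thr 26 31 (.thr 50 14 (.thr 62 58 (.thr 2 42 (.dbl 18 30 34))))))) (.rp 38 (.thr 52 36 (.thr 37 7 (.thr 26 31 (.thr 48 15 (.thr 60 56 (.thr 3 41 (.dbl 18 30 33))))))) (.rp 37 (.thr 38 55 (.thr 6 54 (.thr 26 31 (.thr 30 18 (.thr 14 50 (.thr 62 46 (.dbl 2 10 42))))))) (.rp 36 (.thr 38 55 (.thr 6 54 (.thr 26 31 (.thr 30 18 (.thr 14 50 (.thr 62 46 (.dbl 2 10 42))))))) (.rp 7 (.thr 55 38 (.str 60 (.nv (.thr 26 31 (.thr 30 18 (.thr 15 45 (.thr 41 3 (.thr 56 11 (.dbl 48 37 52)))))) (.nv (.thr 52 36 (.thr 53 54 (.thr 37 5 (.thr 48 56 (.dbl 26 15 31))))) (.rp 56 (.thr 52 36 (.thr 53 54 (.thr 37 5 (.thr 26 31 (.thr 30 18 (.dbl 15 45 48)))))) (.rp 52 (.thr 26 31 (.thr 30 18 (.thr 45 15 (.thr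 41 3 (.thr 11 56 (.thr 1 61 (.thr 33 37 (.thr 17 49 (.thr 25 29 (.thr 27 24 (.thr 57 9 (.thr 51 54 (.dbl 59 43 63))))))))))))) (.rp 48 (.thr 52 36 (.thr 54 53 (.thr 51 57 (.thr 63 59 (.thr 61 62 (.dbl 41 1 3)))))) (.rp 37 (.thr 26 31 (.thr 30 18 (.thr 15 45 (.thr 41 3 (.thr 56 11 (.dbl 52 36 48)))))) (.rp 31 (.thr 52 36 (.thr 54 53 (.thr 51 57 (.thr 63 59 (.thr 61 62 (.dbl 41 1 3)))))) (.rp 26 (.thr 52 36 (.thr 54 53 (.thr 51 57 (.thr 63 59 (.thr 61 62 (.dbl 41 1 3)))))) (.rp 15 (.thr 52 36 (.thr 26 31 (.thr 56 48 (.dbl 41 3 11)))) .nd))))))))))) (.rp 5 (.thr 38 55 (.thr 6 54 (.thr 26 31 (.thr 30 18 (.thr 14 50 (.thr 62 46 (.dbl 2 10 42))))))) .nd)))))))))))) (.rp 26 (.str 4 (.nv (.thr 52 36 (.thr 37 7 (.thr 55 38 (.dbl 53 5 54)))) (.nv (.thr 38 55 (.thr 6 54 (.thr 7 5 (.dbl 52 36 37))))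 (.nv (.thr 52 36 (.thr 38 55 (.thr 6 54 (.dbl 7 5 37)))) (.rp 55 (.thr 52 36 (.thr 7 37 (.thr 6 5 (.thr 38 54 (.thr 28 24 (.thr 25 19 (.thr 12 51 (.thr 3 9 (.dbl 60 41 44))))))))) (.rp 54 (.thr 52 36 (.thr 7 37 (.thr 6 5 (.thr 38 55 (.thr 28 24 (.thr 25 19 (.thr 12 51 (.thr 3 9 (.dbl 60 41 44))))))))) (.rp 52 (.thr 38 55 (.thr 28 24 (.thr 25 19 (.thr 12 51 (.thr 60 44 (.thr 3 41 (.dbl 6 9 54))))))) (.rp 38 (.thr 52 36 (.thr 37 7 (.thr 5 53 (.thr 28 24 (.thr 25 19 (.thr 29 17 (.thr 13 49 (.thr 61 45 (.dbl 1 9 41))))))))) (.rp 37 (.thr 38 55 (.thr 6 54 (.thr 28 24 (.thr 25 19 (.thr 12 51 (.thr 60 44 (.dbl 3 9 41))))))) (.rp 36 (.thr 38 55 (.thr 6 54 (.thr 28 24 (.thr 25 19 (.thr 12 51 (.thr 3 9 (.dbl 60 41 44))))))) (.rp 7 (.thr 36 52 (.thr 38 55 (.thr 39 37 (.thr 28 24 (.thr 25 19 (.thr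 12 51 (.thr 60 44 (.thr 3 41 (.dbl 6 9 54))))))))) (.rp 5 (.thr 38 55 (.thr 6 54 (.thr 28 24 (.thr 25 19 (.thr 12 51 (.thr 60 44 (.dbl 3 9 41))))))) .nd)))))))))))) (.rp 25 (.str 4 (.nv (.thr 24 28 (.thr 26 31 (.thr 36 52 (.thr 48 12 (.thr 37 15 (.dbl 38 39 55)))))) (.nv (.thr 38 55 (.thr 6 54 (.thr 52 36 (.dbl 7 5 37)))) (.rp 55 (.thr 52 36 (.thr 7 37 (.thr 6 5 (.thr 38 54 (.thr 26 31 (.thr 30 18 (.thr 14 50 (.thr 62 46 (.dbl 2 10 42))))))))) (.rp 52 (.thr 38 55 (.thr 54 6 (.thr 26 31 (.thr 18 30 (.thr 50 14 (.thr 2 34 (.dbl 62 42 58))))))) (.rp 44 (.thr 38 55 (.thr 6 54 (.thr 7 5 (.dbl 52 36 37)))) (.rp 39 (.thr 52 36 (.thr 7 37 (.thr 38 55 (.dbl 6 5 54)))) (.rp 38 (.thr 52 36 (.thr 37 7 (.thr 26 31 (.thr 18 30 (.thr 48 15 (.thr 3 33 (.dbl 60 41 56))))))) (.rp 37 (.thr 38 55 (.thr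 6 54 (.thr 26 31 (.thr 30 18 (.thr 14 50 (.thr 62 46 (.dbl 2 10 42))))))) (.rp 36 (.thr 38 55 (.thr 6 54 (.thr 26 31 (.thr 30 18 (.thr 14 50 (.thr 62 46 (.dbl 2 10 42))))))) (.rp 5 (.thr 36 52 (.thr 38 55 (.thr 24 28 (.thr 48 12 (.thr 26 31 (.dbl 37 15 39)))))) .nd))))))))))) (.rp 24 (.str 4 (.nv (.thr 38 55 (.thr 6 54 (.thr 7 5 (.dbl 52 36 37)))) (.nv (.thr 52 36 (.thr 55 38 (.thr 37 7 (.dbl 53 5 54)))) (.rp 55 (.thr 52 36 (.thr 7 37 (.thr 6 5 (.thr 38 54 (.thr 26 31 (.thr 30 18 (.thr 14 50 (.thr 62 46 (.dbl 2 10 42))))))))) (.rp 54 (.thr 52 36 (.thr 37 7 (.thr 26 31 (.thr 18 30 (.thr 48 15 (.thr 3 33 (.dbl 60 41 56))))))) (.rp 53 (.thr 52 36 (.thr 7 37 (.thr 6 5 (.dbl 38 54 55)))) (.rp 52 (.thr 38 55 (.thr 54 6 (.thr 26 31 (.thr 18 30 (.thr 50 14 (.thr 2 34 (.dbl 62 42 58))))))) (.rp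 38 (.thr 52 36 (.thr 37 7 (.thr 26 31 (.thr 18 30 (.thr 48 15 (.thr 3 33 (.dbl 60 41 56))))))) (.rp 37 (.thr 38 55 (.thr 6 54 (.thr 26 31 (.thr 30 18 (.thr 14 50 (.thr 62 46 (.dbl 2 10 42))))))) (.rp 36 (.thr 38 55 (.thr 6 54 (.thr 26 31 (.thr 30 18 (.thr 14 50 (.thr 62 46 (.dbl 2 10 42))))))) (.rp 7 (.thr 36 52 (.thr 38 55 (.thr 39 37 (.thr 54 6 (.thr 26 31 (.thr 18 30 (.thr 50 14 (.thr 2 34 (.dbl 62 42 58))))))))) (.rp 5 (.thr 38 55 (.thr 6 54 (.thr 26 31 (.thr 30 18 (.thr 14 50 (.thr 62 46 (.dbl 2 10 42))))))) .nd)))))))))))) (.rp 19 (.thr 24 28 (.thr 26 31 (.thr 27 25 (.thr 30 18 (.str 60 (.nv (.thr 15 45 (.thr 48 37 (.thr 36 12 (.dbl 52 4 56)))) (.nv (.thr 15 45 (.thr 37 48 (.thr 7 52 (.dbl 3 11 41)))) (.rp 52 (.thr 15 45 (.thr 51 39 (.thr 54 57 (.thr 38 6 (.thr 50 14 (.dbl 48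 37 49)))))) (.rp 48 (.thr 15 45 (.thr 51 39 (.thr 54 57 (.thr 38 6 (.thr 50 14 (.thr 62 58 (.thr 63 61 (.dbl 55 4 59)))))))) (.rp 45 (.thr 41 3 (.thr 56 11 (.thr 48 52 (.thr 15 37 (.thr 51 39 (.thr 49 50 (.thr 57 54 (.dbl 61 1 53)))))))) (.rp 41 (.thr 15 45 (.thr 39 51 (.thr 37 48 (.thr 52 7 (.dbl 36 4 38))))) (.rp 37 (.thr 15 45 (.thr 51 39 (.thr 54 57 (.thr 38 6 (.thr 50 14 (.thr 62 58 (.thr 63 61 (.dbl 55 4 59)))))))) (.rp 33 (.thr 15 45 (.thr 48 37 (.thr 41 3 (.dbl 56 11 52)))) (.rp 15 (.thr 41 3 (.thr 11 56 (.thr 43 59 (.thr 1 61 (.thr 42 40 (.thr 62 2 (.thr 14 46 (.thr 50 38 (.dbl 58 10 54))))))))) .nd)))))))))))))) (.rp 18 (.thr 28 24 (.thr 25 19 (.thr 29 17 (.dbl 31 26 30)))) (.rp 17 (.thr 26 31 (.thr 28 24 (.thr 19 25 (.thr 18 30 .ext)))) .nd)))))))))))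

theorem w55 : WinAt (7340032, 4303355905) :=
  chF (K := [(343736320, 7575044097)]) (kc w54 kn) c55 7340032 4303355905 23
    [281479271743489] (by decide +kernel) (by decide +kernel)

/-- A certificate. -/
noncomputable def c56 : Ct := (.str 4 (.nv (.thr 52 36 (.thr 55 38 (.thr 37 7 (.dbl 53 5 54)))) (.rp 55 (.str 25 (.nv (.thr 28 19 (.thr 16 24 (.thr 31 26 (.dbl 29 17 30)))) (.rp 39 (.str 7 (.nv (.dbl 52 36 37) (.rp 52 (.thr 29 17 (.thr 28 19 (.thr 31 30 (.dbl 16 24 26)))) (.rp 37 (.thr 29 17 (.thr 28 19 (.thr 31 30 (.dbl 16 24 26)))) (.rp 36 (.thr 5 6 (.dbl 37 52 53)) .nd))))) (.rp 31 (.thr 52 36 (.thr 7 37 (.thr 6 5 (.thr 38 54 (.thr 12 51 (.thr 3 9 (.thr 15 11 (.thr 60 41 (.thr 45 30 (.dbl 28 19 44)))))))))) (.rp 30 (.thr 28 19 (.thr 52 36 (.thr 7 37 (.thr 6 5 (.thr 38 54 (.thr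 12 51 (.thr 3 9 (.dbl 60 41 44)))))))) (.rp 29 (.thr 28 19 (.thr 52 36 (.thr 7 37 (.thr 6 5 (.thr 38 54 (.thr 12 51 (.thr 3 9 (.dbl 60 41 44)))))))) (.rp 28 (.thr 52 36 (.thr 7 37 (.thr 6 5 (.thr 38 54 (.thr 12 51 (.thr 3 9 (.thr 15 11 (.thr 13 14 (.thr 60 41 (.thr 45 30 (.dbl 29 17 61))))))))))) (.rp 27 (.thr 29 17 (.thr 28 19 (.thr 31 30 (.dbl 16 24 26)))) (.rp 26 (.thr 28 19 (.thr 52 36 (.thr 7 37 (.thr 6 5 (.thr 38 54 (.thr 12 51 (.thr 3 9 (.dbl 60 41 44)))))))) (.rp 24 (.thr 28 19 (.thr 52 36 (.thr 7 37 (.thr 6 5 (.thr 38 54 (.thr 12 51 (.thr 3 9 (.dbl 60 41 44)))))))) (.rp 19 (.thr 52 36 (.thr 7 37 (.thr 6 5 (.thr 38 54 (.thr 12 51 (.thr 3 9 (.thr 15 11 (.thr 13 14 (.thr 60 41 (.thr 45 30 (.dbl 29 17 61))))))))))) (.rp 17 (.thr 19 28 (.thr 52 36 (.thr 7 37 (.thr 6 5 (.thr 38 54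 (.thr 51 12 (.thr 3 35 (.thr 15 11 (.thr 27 39 (.thr 60 41 (.thr 45 30 (.thr 26 24 (.thr 48 56 (.dbl 50 14 49)))))))))))))) (.rp 16 (.thr 28 19 (.thr 52 36 (.thr 7 37 (.thr 6 5 (.thr 38 54 (.thr 12 51 (.thr 3 9 (.dbl 60 41 44)))))))) (.rp 7 (.str 39 (.nv (.thr 36 52 (.thr 38 37 (.thr 51 12 (.thr 27 15 (.thr 28 19 (.dbl 24 16 26)))))) (.nv (.thr 28 19 (.thr 16 24 (.thr 31 26 (.dbl 29 17 30)))) (.rp 28 (.thr 29 17 (.thr 36 52 (.thr 38 37 (.thr 51 12 (.thr 15 27 (.thr 54 6 (.thr 60 57 (.thr 45 30 (.thr 61 13 (.dbl 41 1 3)))))))))) (.rp 27 (.thr 29 17 (.thr 28 19 (.thr 31 30 (.dbl 16 24 26)))) (.rp 26 (.thr 28 19 (.thr 24 16 (.thr 36 52 (.thr 38 37 (.dbl 12 48 51))))) (.rp 24 (.thr 19 28 (.thr 36 52 (.thr 38 37 (.thr 51 12 (.thr 3 35 (.thr 54 6 (.dbl 60 41 57))))))) (.rp 19 (.thr 36 52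 (.thr 38 37 (.thr 12 51 (.thr 24 48 (.thr 16 28 (.dbl 26 27 31)))))) (.rp 16 (.thr 19 28 (.thr 36 52 (.thr 38 37 (.thr 51 12 (.thr 3 35 (.thr 54 6 (.dbl 60 41 57))))))) .nd))))))))) .nd)))))))))))))) (.rp 54 (.str 16 (.nv (.thr 24 28 (.thr 26 31 (.thr 36 52 (.thr 48 12 (.thr 37 15 (.dbl 38 39 55)))))) (.nv (.thr 28 24 (.thr 19 25 (.thr 26 31 (.dbl 18 17 30)))) (.rp 31 (.thr 52 36 (.thr 37 7 (.thr 55 38 (.thr 28 24 (.thr 19 25 (.thr 18 17 (.thr 26 30 (.thr 48 15 (.thr 60 56 (.thr 3 41 (.thr 51 35 (.thr 44 12 (.thr 63 59 (.dbl 53 5 58)))))))))))))) (.rp 30 (.thr 52 36 (.thr 7 37 (.thr 6 5 (.thr 38 55 (.thr 28 24 (.thr 25 19 (.thr 12 51 (.thr 60 44 (.dbl 3 9 41))))))))) (.rp 28 (.thr 52 36 (.thr 7 37 (.thr 6 5 (.thr 38 55 (.thr 26 31 (.thr 30 18 (.thr 14 50 (.thr 62 46 (.dbl 2 10 42)))))))))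 (.rp 26 (.thr 52 36 (.thr 7 37 (.thr 6 5 (.thr 38 55 (.thr 28 24 (.thr 25 19 (.thr 12 51 (.thr 60 44 (.dbl 3 9 41))))))))) (.rp 24 (.thr 52 36 (.thr 7 37 (.thr 6 5 (.thr 38 55 (.thr 26 31 (.thr 30 18 (.thr 14 50 (.thr 62 46 (.dbl 2 10 42))))))))) (.rp 19 (.thr 36 52 (.thr 24 28 (.thr 48 12 (.thr 26 31 (.thr 27 25 (.thr 37 15 (.dbl 38 39 55))))))) .nd))))))))) (.rp 53 (.thr 52 36 (.thr 7 37 (.thr 6 5 (.dbl 38 54 55)))) (.rp 52 (.str 16 (.nv (.thr 28 24 (.thr 19 25 (.thr 26 31 (.dbl 18 17 30)))) (.rp 31 (.thr 38 55 (.thr 54 6 (.thr 28 24 (.thr 19 25 (.thr 18 17 (.thr 26 30 (.thr 50 14 (.thr 62 58 (.dbl 2 34 42))))))))) (.rp 30 (.thr 38 55 (.thr 28 24 (.thr 25 19 (.thr 12 51 (.thr 60 44 (.thr 3 41 (.dbl 6 9 54))))))) (.rp 28 (.thr 38 55 (.thr 54 6 (.thr 26 31 (.thr 50 14 (.thr 62 58 (.thr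 2 42 (.dbl 18 30 34))))))) (.rp 26 (.thr 38 55 (.thr 28 24 (.thr 25 19 (.thr 12 51 (.thr 60 44 (.thr 3 41 (.dbl 6 9 54))))))) (.rp 25 (.thr 38 55 (.thr 54 6 (.thr 26 31 (.thr 18 30 (.thr 50 14 (.thr 2 34 (.dbl 62 42 58))))))) (.rp 24 (.thr 38 55 (.thr 54 6 (.thr 26 31 (.thr 18 30 (.thr 50 14 (.thr 2 34 (.dbl 62 42 58))))))) (.rp 19 (.thr 38 55 (.thr 54 6 (.thr 24 28 (.thr 26 31 (.thr 27 25 (.thr 50 14 (.thr 62 58 (.thr 2 42 (.dbl 18 30 34))))))))) (.rp 18 (.thr 28 24 (.thr 25 19 (.thr 29 17 (.dbl 31 26 30)))) (.rp 17 (.thr 38 55 (.thr 54 6 (.thr 26 31 (.thr 18 30 (.thr 50 14 (.thr 62 58 (.dbl 2 34 42))))))) .nd))))))))))) (.rp 38 (.str 28 (.nv (.thr 16 24 (.thr 31 26 (.thr 25 19 (.dbl 29 17 30)))) (.nv (.thr 16 24 (.thr 26 31 (.thr 18 30 (.dbl 19 17 25)))) (.rp 31 (.thr 52 36 (.thr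 37 7 (.thr 5 53 (.thr 24 16 (.thr 25 19 (.thr 27 26 (.thr 13 49 (.thr 1 9 (.thr 61 41 (.dbl 29 17 45)))))))))) (.rp 30 (.thr 52 36 (.thr 37 7 (.thr 5 53 (.thr 25 19 (.thr 29 17 (.thr 13 49 (.thr 1 9 (.dbl 61 41 45)))))))) (.rp 26 (.thr 52 36 (.thr 37 7 (.thr 5 53 (.thr 25 19 (.thr 29 17 (.thr 13 49 (.thr 1 9 (.dbl 61 41 45)))))))) (.rp 25 (.thr 52 36 (.thr 37 7 (.thr 16 24 (.thr 26 31 (.thr 18 30 (.thr 19 17 (.thr 48 15 (.thr 60 56 (.thr 3 41 (.thr 44 12 (.thr 51 35 (.thr 49 50 (.thr 57 54 (.dbl 53 5 61)))))))))))))) (.rp 24 (.thr 52 36 (.thr 37 7 (.thr 5 53 (.thr 25 19 (.thr 29 17 (.thr 13 49 (.thr 1 9 (.dbl 61 41 45)))))))) (.rp 19 (.thr 52 36 (.thr 37 7 (.thr 5 53 (.thr 16 24 (.thr 31 26 (.thr 29 30 (.thr 25 17 (.thr 13 49 (.thr 1 9 (.dbl 61 41 45)))))))))) (.rp 17 (.thr 52 36 (.thr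 37 7 (.thr 5 53 (.thr 16 24 (.thr 31 26 (.thr 29 30 (.thr 25 19 (.thr 13 49 (.thr 1 9 (.dbl 61 41 45)))))))))) (.rp 16 (.thr 52 36 (.thr 37 7 (.thr 5 53 (.thr 25 19 (.thr 13 49 (.thr 1 9 (.thr 61 41 (.dbl 29 17 45)))))))) .nd))))))))))) (.rp 37 (.thr 36 52 (.str 25 (.nv (.thr 19 28 (.thr 38 55 (.thr 51 12 (.thr 3 35 (.thr 54 6 (.dbl 60 41 57)))))) (.nv (.thr 28 19 (.thr 16 24 (.thr 31 26 (.dbl 29 17 30)))) (.rp 45 (.str 41 (.nv (.thr 38 55 (.thr 51 12 (.thr 54 6 (.dbl 57 9 60)))) (.nv (.thr 28 19 (.thr 16 24 (.thr 31 26 (.dbl 29 17 30)))) .nd))) (.rp 41 (.str 45 (.nv (.thr 28 19 (.thr 16 24 (.thr 31 26 (.dbl 29 17 30)))) (.nv (.thr 38 55 (.thr 12 51 (.thr 24 48 (.dbl 28 16 19)))) (.nv (.thr 28 19 (.thr 38 55 (.thr 12 51 (.thr 44 60 (.thr 46 47 (.dbl 29 17 63)))))) (.nv (.thr 29 17 (.thr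 28 19 (.thr 16 24 (.dbl 31 26 30)))) (.rp 28 (.thr 38 55 (.thr 54 6 (.thr 12 51 (.thr 24 48 (.thr 26 27 (.thr 18 30 (.thr 50 14 (.thr 62 58 (.dbl 2 34 42))))))))) (.rp 19 (.thr 38 55 (.thr 12 51 (.thr 24 48 (.thr 16 28 (.dbl 26 27 31))))) (.rp 17 (.thr 28 19 (.thr 16 24 (.thr 31 26 (.thr 30 29 (.thr 38 55 (.thr 54 6 (.thr 51 12 (.dbl 60 15 57)))))))) .nd)))))))) (.rp 28 (.thr 38 55 (.thr 54 6 (.thr 12 51 (.thr 24 48 (.thr 26 27 (.thr 18 30 (.thr 50 14 (.thr 62 58 (.dbl 2 34 42))))))))) (.rp 19 (.thr 38 55 (.thr 12 51 (.thr 24 48 (.thr 16 28 (.dbl 26 27 31))))) .nd)))))))) (.rp 36 (.str 16 (.nv (.thr 26 31 (.thr 18 30 (.thr 19 17 (.dbl 28 24 25)))) (.nv (.thr 28 24 (.thr 19 25 (.thr 26 31 (.dbl 18 17 30)))) (.rp 31 (.thr 38 55 (.thr 54 6 (.thr 28 24 (.thr 19 25 (.thr 18 17 (.thr 26 30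 (.thr 50 14 (.thr 62 58 (.dbl 2 34 42))))))))) (.rp 30 (.thr 38 55 (.thr 6 54 (.thr 28 24 (.thr 25 19 (.thr 12 51 (.thr 60 44 (.dbl 3 9 41))))))) (.rp 28 (.thr 38 55 (.thr 6 54 (.thr 26 31 (.thr 30 18 (.thr 14 50 (.thr 62 46 (.dbl 2 10 42))))))) (.rp 26 (.thr 38 55 (.thr 6 54 (.thr 28 24 (.thr 25 19 (.thr 12 51 (.thr 60 44 (.dbl 3 9 41))))))) (.rp 25 (.thr 38 55 (.thr 6 54 (.thr 26 31 (.thr 30 18 (.thr 14 50 (.thr 62 46 (.dbl 2 10 42))))))) (.rp 24 (.thr 38 55 (.thr 6 54 (.thr 26 31 (.thr 30 18 (.thr 14 50 (.thr 62 46 (.dbl 2 10 42))))))) (.rp 19 (.thr 38 55 (.thr 6 54 (.thr 24 28 (.thr 26 31 (.thr 27 25 (.thr 30 18 (.thr 14 50 (.thr 62 46 (.dbl 2 10 42))))))))) (.rp 18 (.thr 28 24 (.thr 25 19 (.thr 29 17 (.dbl 31 26 30)))) (.rp 17 (.thr 38 55 (.thr 6 54 (.thr 26 31 (.thr 30 18 (.thr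 14 50 (.thr 62 46 (.dbl 2 10 42))))))) .nd)))))))))))) (.rp 7 (.thr 36 52 (.thr 38 55 (.thr 39 37 (.thr 54 6 (.str 41 (.nv (.thr 1 61 (.thr 60 3 (.thr 51 57 (.thr 12 25 (.thr 28 44 (.dbl 24 16 48)))))) (.nv (.thr 60 3 (.thr 51 57 (.thr 44 35 (.dbl 12 25 28)))) (.rp 63 (.thr 35 44 (.thr 43 47 (.thr 42 40 (.thr 62 2 (.thr 50 58 (.thr 46 34 (.dbl 14 26 30))))))) (.rp 60 (.thr 35 44 (.thr 43 47 (.thr 42 40 (.thr 62 2 (.thr 50 58 (.thr 46 34 (.dbl 14 26 30))))))) (.rp 57 (.thr 3 60 (.thr 35 44 (.thr 19 51 (.thr 28 25 (.thr 16 24 (.thr 26 31 (.dbl 18 17 30))))))) (.rp 51 (.thr 35 44 (.thr 43 47 (.thr 42 40 (.thr 62 2 (.thr 50 58 (.thr 14 26 (.dbl 46 30 34))))))) (.rp 48 (.thr 35 44 (.thr 43 47 (.thr 42 40 (.thr 62 2 (.thr 50 58 (.thr 46 34 (.dbl 14 26 30))))))) (.rp 44 (.thr 60 3 (.thr 51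 57 (.thr 12 25 (.thr 15 27 (.thr 45 30 (.thr 13 14 (.dbl 61 1 29))))))) (.rp 43 (.thr 3 60 (.thr 35 44 (.thr 19 51 (.thr 28 25 (.thr 16 24 (.thr 26 31 (.dbl 18 17 30))))))) (.rp 28 (.thr 60 3 (.thr 51 57 (.thr 12 25 (.thr 15 27 (.thr 45 30 (.thr 13 14 (.dbl 61 1 29))))))) (.rp 25 (.thr 35 44 (.thr 43 47 (.thr 42 40 (.thr 62 2 (.thr 50 58 (.thr 46 34 (.dbl 14 26 30))))))) (.rp 18 (.thr 35 44 (.thr 43 47 (.thr 42 40 (.thr 62 2 (.thr 50 58 (.thr 46 34 (.dbl 14 26 30))))))) (.rp 15 (.thr 3 60 (.thr 35 44 (.thr 19 51 (.thr 28 25 (.thr 16 24 (.thr 26 31 (.dbl 18 17 30))))))) (.rp 12 (.thr 35 44 (.thr 43 47 (.thr 42 40 (.thr 62 2 (.thr 50 58 (.thr 46 34 (.dbl 14 26 30))))))) (.rp 11 (.thr 3 60 (.thr 35 44 (.thr 19 51 (.thr 28 25 (.thr 16 24 (.thr 26 31 (.dbl 18 17 30))))))) (.rp 9 (.thr 44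 35 (.thr 60 3 (.thr 12 28 (.dbl 51 25 57)))) (.rp 3 (.thr 1 61 (.thr 35 44 (.thr 43 47 (.thr 42 40 (.thr 62 2 (.thr 50 58 (.thr 46 34 (.dbl 14 26 30)))))))) (.rp 1 (.thr 3 60 (.thr 35 44 (.thr 19 51 (.thr 28 25 (.thr 16 24 (.thr 26 31 (.dbl 18 17 30))))))) .nd))))))))))))))))))))))) (.rp 5 (.thr 52 36 (.str 16 (.nv (.thr 26 31 (.thr 18 30 (.thr 19 17 (.dbl 28 24 25)))) (.nv (.thr 28 24 (.thr 19 25 (.thr 26 31 (.dbl 18 17 30)))) (.rp 31 (.thr 38 55 (.thr 54 6 (.thr 28 24 (.thr 19 25 (.thr 18 17 (.thr 26 30 (.thr 50 14 (.thr 62 58 (.dbl 2 34 42))))))))) (.rp 30 (.thr 38 55 (.thr 6 54 (.thr 28 24 (.thr 25 19 (.thr 12 51 (.thr 60 44 (.dbl 3 9 41))))))) (.rp 28 (.thr 38 55 (.thr 6 54 (.thr 26 31 (.thr 30 18 (.thr 14 50 (.thr 62 46 (.dbl 2 10 42))))))) (.rp 26 (.thr 38 55 (.thr 6 54 (.thr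 28 24 (.thr 25 19 (.thr 12 51 (.thr 60 44 (.dbl 3 9 41))))))) (.rp 25 (.thr 38 55 (.thr 6 54 (.thr 26 31 (.thr 30 18 (.thr 14 50 (.thr 62 46 (.dbl 2 10 42))))))) (.rp 24 (.thr 38 55 (.thr 6 54 (.thr 26 31 (.thr 30 18 (.thr 14 50 (.thr 62 46 (.dbl 2 10 42))))))) (.rp 19 (.thr 38 55 (.thr 6 54 (.thr 24 28 (.thr 26 31 (.thr 27 25 (.thr 30 18 (.thr 14 50 (.thr 62 46 (.dbl 2 10 42))))))))) (.rp 18 (.thr 28 24 (.thr 25 19 (.thr 29 17 (.dbl 31 26 30)))) (.rp 17 (.thr 38 55 (.thr 6 54 (.thr 26 31 (.thr 30 18 (.thr 14 50 (.thr 62 46 (.dbl 2 10 42))))))) (.rp 15 (.str 10 (.nv (.thr 38 55 (.thr 6 54 (.thr 14 2 (.dbl 26 31 50)))) (.nv (.thr 28 24 (.thr 31 26 (.thr 25 19 (.dbl 29 17 30)))) (.rp 31 (.thr 28 24 (.thr 19 25 (.thr 18 17 (.thr 26 30 (.thr 38 55 (.thr 6 54 (.dbl 14 2 50))))))) (.rp 26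 (.thr 28 24 (.thr 25 19 (.thr 38 55 (.thr 6 54 (.thr 12 51 (.thr 3 9 (.dbl 60 41 44))))))) .nd))))) (.rp 10 (.str 15 (.nv (.thr 26 31 (.thr 18 30 (.thr 19 17 (.dbl 28 24 25)))) (.nv (.thr 37 7 (.dbl 26 31 48)) (.rp 31 (.thr 37 7 (.thr 26 48 (.thr 18 30 (.thr 19 17 (.dbl 28 24 25))))) (.rp 26 (.thr 38 55 (.thr 28 24 (.thr 25 19 (.thr 12 51 (.thr 13 14 (.dbl 37 7 49)))))) .nd))))) .nd))))))))))))))) .nd)))))))))))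

theorem w56 : WinAt (7340032, 8598323201) :=
  chF (K := []) kn c56 7340032 8598323201 23
    [] (by decide +kernel) (by decide +kernel)

/-- A certificate. -/
noncomputable def c57 : Ct := (.str 25 (.nv (.thr 17 29 (.thr 19 28 (.thr 16 18 (.thr 23 20 (.dbl 31 26 27))))) (.nv (.thr 20 23 (.thr 28 19 (.thr 16 24 (.thr 31 26 (.dbl 29 17 30))))) (.rp 31 (.str 51 (.nv (.thr 12 38 (.thr 19 28 (.thr 3 35 (.thr 23 20 (.thr 29 17 (.dbl 63 43 46)))))) (.nv (.thr 20 23 (.thr 38 12 (.thr 4 55 (.thr 6 54 (.thr 7 5 (.dbl 52 36 37)))))) (.nv (.thr 38 12 (.thr 54 6 (.thr 60 57 (.thr 3 41 (.dbl 19 28 35))))) (.rp 38 (.thr 29 17 (.thr 19 28 (.thr 3 35 (.thr 41 60 (.thr 57 9 (.thr 61 1 (.thr 49 53 (.dbl 13 37 45)))))))) (.rp 19 (.thr 38 12 (.thr 4 55 (.thr 6 54 (.thr 7 5 (.thr 52 37 (.dbl 20 23 36))))))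 (.rp 12 (.thr 19 28 (.thr 23 20 (.thr 3 35 (.thr 60 41 (.thr 54 57 (.thr 63 43 (.thr 55 59 (.dbl 38 4 6)))))))) .nd))))))) (.rp 30 (.thr 23 20 (.thr 17 29 (.thr 19 28 (.thr 31 27 (.dbl 16 18 26))))) (.rp 29 (.thr 20 23 (.str 51 (.nv (.thr 12 38 (.thr 28 19 (.thr 24 16 (.thr 48 36 (.thr 49 50 (.thr 37 13 (.dbl 26 15 27))))))) (.nv (.thr 38 12 (.thr 4 55 (.thr 6 54 (.thr 7 5 (.dbl 52 36 37))))) (.nv (.thr 19 28 (.thr 3 35 (.thr 60 41 (.thr 54 57 (.dbl 38 6 12))))) (.rp 38 (.thr 19 28 (.thr 3 35 (.thr 41 60 (.thr 9 57 (.thr 1 61 (.thr 13 5 (.thr 49 37 (.thr 48 50 (.dbl 33 17 18))))))))) (.rp 12 (.thr 19 28 (.thr 3 35 (.thr 60 41 (.thr 54 57 (.thr 38 6 (.thr 4 55 (.thr 52 36 (.thr 48 56 (.thr 49 50 (.dbl 37 7 13)))))))))) .nd))))))) (.rp 28 (.thr 20 23 (.str 52 (.nv (.thr 17 29 (.thr 37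 7 (.thr 49 13 (.thr 1 33 (.thr 61 41 (.dbl 53 5 57)))))) (.nv (.thr 4 36 (.thr 7 37 (.thr 38 55 (.dbl 6 5 54)))) (.rp 55 (.thr 17 29 (.thr 36 4 (.thr 37 7 (.thr 39 38 (.thr 49 13 (.thr 1 33 (.thr 61 41 (.dbl 53 5 57)))))))) (.rp 37 (.thr 17 29 (.thr 4 36 (.thr 38 55 (.thr 54 6 (.thr 51 12 (.thr 60 57 (.thr 48 56 (.thr 49 50 (.thr 1 33 (.dbl 41 3 61)))))))))) (.rp 17 (.str 51 (.nv (.thr 4 36 (.dbl 38 12 55)) (.rp 55 (.thr 7 37 (.thr 4 36 (.thr 6 5 (.dbl 38 12 54)))) (.rp 38 (.thr 37 7 (.thr 53 5 (.thr 49 13 (.thr 57 61 (.dbl 54 55 60))))) (.rp 36 (.thr 38 12 (.thr 54 6 (.dbl 55 4 53))) (.rp 12 (.thr 7 37 (.thr 4 36 (.thr 6 5 (.dbl 38 54 55)))) (.rp 4 (.thr 37 7 (.thr 49 13 (.thr 48 50 (.thr 60 56 (.thr 57 54 (.dbl 53 5 61)))))) .nd))))))) (.rp 7 (.thr 17 29 (.thr 4 36 (.thr 55 38 (.thr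 53 54 (.thr 37 5 (.thr 49 13 (.thr 61 57 (.dbl 1 33 41)))))))) (.rp 5 (.thr 17 29 (.thr 4 36 (.thr 55 38 (.thr 53 54 (.thr 37 7 (.thr 49 13 (.thr 61 57 (.dbl 1 33 41)))))))) .nd))))))))) (.rp 27 (.str 12 (.nv (.thr 51 38 (.thr 19 28 (.thr 3 35 (.thr 9 6 (.dbl 41 57 60))))) (.nv (.thr 17 29 (.thr 38 51 (.thr 54 6 (.thr 55 4 (.thr 52 53 (.thr 7 37 (.dbl 23 20 39))))))) (.nv (.thr 28 19 (.thr 60 44 (.thr 3 41 (.thr 6 9 (.dbl 38 51 54))))) (.rp 51 (.thr 17 29 (.thr 28 19 (.thr 60 44 (.thr 3 41 (.thr 6 9 (.thr 38 54 (.thr 4 55 (.thr 7 5 (.thr 52 37 (.dbl 20 23 36)))))))))) (.rp 38 (.thr 17 29 (.thr 28 19 (.thr 60 44 (.thr 41 3 (.thr 9 57 (.thr 1 61 (.thr 13 5 (.dbl 49 33 37)))))))) (.rp 6 (.thr 28 19 (.thr 60 44 (.thr 41 3 (.thr 57 9 (.dbl 51 38 54))))) .nd))))))) (.rp 26 (.str 12 (.nv (.thr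 51 38 (.thr 19 28 (.thr 3 35 (.thr 9 6 (.dbl 41 57 60))))) (.nv (.thr 17 29 (.thr 20 23 (.thr 38 51 (.thr 4 55 (.thr 52 36 (.thr 7 37 (.dbl 6 5 54))))))) (.nv (.thr 17 29 (.thr 28 19 (.thr 60 44 (.thr 38 51 (.thr 6 54 (.dbl 3 9 41)))))) (.rp 51 (.thr 17 29 (.thr 28 19 (.thr 20 23 (.thr 24 16 (.thr 60 44 (.thr 3 41 (.thr 6 9 (.thr 38 54 (.thr 4 55 (.dbl 36 48 52)))))))))) (.rp 38 (.thr 17 29 (.thr 28 19 (.thr 60 44 (.thr 41 3 (.thr 9 57 (.thr 1 61 (.thr 13 5 (.dbl 49 33 37)))))))) (.rp 6 (.thr 28 19 (.thr 60 44 (.thr 41 3 (.thr 57 9 (.dbl 51 38 54))))) .nd))))))) (.rp 23 (.thr 19 28 (.str 3 (.nv (.thr 41 60 (.thr 9 57 (.thr 12 6 (.dbl 51 35 38)))) (.nv (.thr 17 29 (.thr 18 16 (.thr 41 60 (.thr 1 61 (.dbl 33 48 49))))) (.nv (.thr 51 35 (.thr 60 41 (.thr 54 57 (.dbl 38 6 12)))) (.rp 60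 (.thr 17 29 (.thr 18 16 (.thr 51 35 (.thr 12 38 (.thr 9 6 (.thr 41 57 (.thr 1 61 (.dbl 33 48 49)))))))) (.rp 44 (.thr 51 35 (.thr 12 38 (.thr 41 60 (.dbl 9 6 57)))) (.rp 41 (.thr 51 35 (.thr 38 12 (.thr 6 54 (.thr 4 55 (.thr 7 5 (.thr 15 11 (.thr 39 27 (.dbl 37 36 52)))))))) (.rp 12 (.thr 17 29 (.thr 18 16 (.thr 35 51 (.thr 41 60 (.thr 44 38 (.thr 1 61 (.dbl 33 48 49))))))) .nd))))))))) (.rp 20 (.thr 17 29 (.str 60 (.nv (.thr 41 3 (.thr 1 61 (.thr 9 57 (.thr 13 5 (.dbl 49 33 37))))) (.nv (.thr 28 19 (.thr 12 44 (.thr 3 41 (.thr 38 51 (.dbl 6 9 54))))) (.rp 41 (.thr 28 19 (.thr 12 44 (.thr 38 51 (.thr 54 6 (.thr 55 4 (.thr 52 53 (.thr 48 56 (.thr 36 24 (.dbl 37 7 39))))))))) (.rp 9 (.thr 19 28 (.thr 3 41 (.thr 51 35 (.thr 54 57 (.dbl 38 6 12))))) (.rp 3 (.thr 28 19 (.thr 12 44 (.thr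 51 38 (.thr 57 54 (.thr 41 9 (.thr 1 61 (.thr 49 33 (.thr 48 50 (.thr 52 56 (.dbl 37 7 13)))))))))) .nd))))))) (.rp 19 (.thr 17 29 (.str 1 (.nv (.thr 41 61 (.thr 9 57 (.thr 13 5 (.dbl 49 33 37)))) (.nv (.thr 49 33 (.thr 13 37 (.thr 41 61 (.dbl 9 5 57)))) (.rp 61 (.thr 49 33 (.thr 13 37 (.thr 9 5 (.thr 41 57 (.thr 3 60 (.thr 12 6 (.thr 15 14 (.thr 7 11 (.thr 51 38 (.thr 39 27 (.dbl 23 20 55))))))))))) (.rp 57 (.thr 20 23 (.thr 49 33 (.thr 37 13 (.thr 53 5 (.thr 52 7 (.thr 55 54 (.dbl 4 36 38))))))) (.rp 49 (.thr 20 23 (.thr 41 61 (.thr 57 9 (.thr 60 3 (.thr 51 54 (.thr 12 38 (.thr 28 44 (.thr 24 16 (.thr 48 36 (.thr 56 52 (.dbl 26 11 27))))))))))) (.rp 41 (.thr 20 23 (.thr 49 33 (.thr 37 13 (.thr 53 5 (.thr 52 7 (.thr 55 54 (.dbl 4 36 38))))))) (.rp 37 (.thr 20 23 (.thr 49 33 (.thr 41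 61 (.thr 57 9 (.thr 60 3 (.thr 51 54 (.thr 48 50 (.thr 52 56 (.thr 4 36 (.dbl 38 12 55)))))))))) (.rp 33 (.thr 41 61 (.thr 9 57 (.thr 13 5 (.thr 3 60 (.thr 12 6 (.thr 15 14 (.thr 7 11 (.dbl 37 49 52)))))))) (.rp 13 (.thr 20 23 (.thr 49 33 (.thr 61 41 (.thr 53 57 (.thr 37 5 (.thr 52 7 (.thr 55 54 (.dbl 4 36 38)))))))) (.rp 9 (.thr 49 33 (.thr 37 13 (.thr 53 5 (.dbl 61 41 57)))) (.rp 5 (.thr 20 23 (.thr 49 33 (.thr 37 13 (.thr 52 7 (.thr 61 41 (.thr 53 57 (.thr 55 54 (.dbl 4 36 38)))))))) .nd))))))))))))) (.rp 17 (.str 51 (.nv (.thr 19 28 (.thr 3 35 (.thr 23 20 (.thr 27 31 (.thr 15 39 (.thr 11 7 (.dbl 43 59 63))))))) (.nv (.thr 20 23 (.thr 38 12 (.thr 4 55 (.thr 6 54 (.thr 7 5 (.dbl 52 36 37)))))) (.nv (.thr 19 28 (.thr 3 35 (.thr 60 41 (.thr 54 57 (.dbl 38 6 12))))) .nd)))) (.rp 16 (.thr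 28 19 (.thr 17 29 (.thr 23 20 (.str 60 (.nv (.thr 12 44 (.thr 38 51 (.thr 54 6 (.thr 55 4 (.thr 7 39 (.dbl 52 37 53)))))) (.nv (.thr 41 3 (.thr 1 61 (.thr 9 57 (.thr 13 5 (.dbl 49 33 37))))) (.nv (.thr 12 44 (.thr 3 41 (.thr 38 51 (.dbl 6 9 54)))) (.rp 51 (.thr 44 12 (.thr 41 3 (.thr 35 38 (.thr 1 61 (.thr 49 33 (.thr 13 37 (.dbl 9 5 57))))))) (.rp 48 (.str 32 (.nv (.thr 12 44 (.thr 38 51 (.thr 54 6 (.thr 55 4 (.thr 7 39 (.dbl 52 37 53)))))) (.nv (.thr 41 3 (.thr 1 61 (.thr 9 57 (.thr 13 5 (.dbl 49 33 37))))) (.nv (.thr 3 41 (.thr 12 44 (.thr 6 9 (.dbl 38 51 54)))) (.rp 51 (.thr 44 12 (.thr 41 3 (.thr 35 38 (.thr 1 61 (.thr 9 57 (.thr 13 5 (.dbl 49 33 37))))))) (.rp 35 (.thr 3 41 (.thr 12 44 (.thr 38 51 (.dbl 6 9 54)))) (.rp 3 (.thr 12 44 (.thr 51 38 (.thr 57 54 (.thr 41 9 (.thr 1 61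 (.thr 33 49 (.thr 45 37 (.thr 15 30 (.thr 39 27 (.thr 55 7 (.thr 59 63 (.thr 58 56 (.thr 42 8 (.thr 2 62 (.thr 10 26 (.dbl 14 6 13)))))))))))))))) .nd))))))) (.rp 32 (.str 48 (.nv (.thr 12 44 (.thr 36 24 (.thr 52 56 (.thr 37 7 (.dbl 38 39 51))))) (.nv (.thr 3 41 (.thr 33 18 (.thr 49 1 (.thr 52 56 (.dbl 37 7 13))))) (.nv (.thr 3 41 (.thr 12 44 (.thr 6 9 (.dbl 38 51 54)))) (.rp 35 (.str 33 (.nv (.thr 49 1 (.thr 37 13 (.dbl 52 7 56))) (.nv (.dbl 3 18 41) (.rp 3 (.str 51 (.nv (.dbl 12 38 44) (.nv (.dbl 49 1 50) (.rp 2 (.thr 1 49 (.dbl 12 38 44)) (.rp 1 (.str 2 (.nv (.thr 49 50 (.thr 37 13 (.dbl 52 7 56))) (.nv (.dbl 12 38 44) .nd))) .nd))))) .nd)))) (.rp 33 (.str 35 (.nv (.thr 44 12 (.dbl 41 3 38)) (.nv (.thr 41 3 (.dbl 44 12 38)) (.rp 44 (.thr 56 52 (.thr 41 3 (.thr 26 11 (.thr 30 18 (.dbl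 15 37 45))))) (.rp 41 (.thr 52 56 (.thr 37 7 (.thr 26 15 (.thr 24 27 (.dbl 12 36 44))))) (.rp 38 (.thr 56 52 (.thr 41 3 (.thr 26 11 (.thr 30 18 (.dbl 15 37 45))))) (.rp 12 (.thr 56 52 (.thr 41 3 (.thr 26 11 (.thr 30 18 (.dbl 15 37 45))))) (.rp 3 (.thr 52 56 (.thr 37 7 (.thr 15 26 (.thr 13 49 (.dbl 12 14 44))))) .nd)))))))) .nd)))))) (.rp 3 (.thr 12 44 (.thr 51 38 (.thr 57 54 (.thr 41 9 (.thr 1 61 (.thr 49 33 (.thr 48 50 (.thr 52 56 (.dbl 37 7 13))))))))) .nd))))))))))) .nd))))))))))))))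

theorem w57 : WinAt (6291456, 17179869185) :=
  chF (K := []) kn c57 6291456 17179869185 34
    [2251816993685505] (by decide +kernel) (by decide +kernel)

/-- A certificate. -/
noncomputable def c58 : Ct := (.str 4 (.nv (.thr 52 36 (.thr 7 37 (.thr 38 55 (.dbl 6 5 54)))) (.rp 55 (.thr 52 36 (.thr 7 37 (.thr 6 5 (.thr 38 54 (.str 26 (.nv (.thr 16 31 (.thr 18 30 (.thr 28 24 (.dbl 19 17 25)))) (.nv (.thr 30 18 (.thr 14 50 (.thr 62 46 (.dbl 2 10 42)))) (.rp 30 (.str 15 (.nv (.thr 14 50 (.thr 12 13 (.thr 16 31 (.thr 28 24 (.dbl 25 19 51))))) (.nv (.thr 3 11 (.thr 16 31 (.thr 28 24 (.thr 60 41 (.dbl 12 9 44))))) (.nv (.thr 14 50 (.thr 3 11 (.dbl 12 9 13))) (.rp 12 (.thr 31 16 (.thr 63 47 (.thr 14 50 (.thr 2 10 (.thr 3 11 (.thr 60 41 (.dbl 62 42 61))))))) (.rp 9 (.thr 16 31 (.thr 28 24 (.thr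 14 50 (.thr 3 11 (.thr 60 41 (.dbl 12 13 44)))))) .nd)))))) (.rp 18 (.str 15 (.nv (.thr 14 50 (.thr 12 13 (.thr 16 31 (.thr 24 28 (.dbl 25 27 51))))) (.nv (.thr 3 11 (.thr 16 31 (.thr 28 24 (.thr 60 41 (.dbl 12 9 44))))) (.nv (.thr 3 11 (.thr 12 9 (.dbl 14 13 50))) (.rp 12 (.thr 14 50 (.thr 2 10 (.thr 62 42 (.thr 30 46 (.thr 60 45 (.dbl 3 11 41)))))) (.rp 9 (.thr 16 31 (.thr 28 24 (.thr 14 50 (.thr 3 11 (.thr 60 41 (.dbl 12 13 44)))))) .nd)))))) (.rp 15 (.str 10 (.nv (.dbl 14 2 50) (.rp 50 (.thr 2 14 (.dbl 42 58 62)) (.rp 14 (.thr 16 31 (.thr 18 30 (.thr 19 17 (.dbl 28 24 25)))) (.rp 2 (.thr 16 31 (.thr 18 30 (.thr 19 17 (.dbl 28 24 25)))) .nd))))) (.rp 10 (.str 15 (.nv (.thr 3 11 (.thr 14 50 (.dbl 12 9 13))) (.nv (.thr 16 31 (.thr 18 30 (.thr 19 17 (.dbl 28 24 25)))) (.nv (.thr 30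 18 (.thr 60 45 (.dbl 3 11 41))) .nd)))) .nd))))))))))) (.rp 54 (.str 16 (.nv (.thr 24 28 (.thr 26 31 (.thr 36 52 (.thr 48 12 (.thr 37 15 (.dbl 38 39 55)))))) (.nv (.thr 28 24 (.thr 19 25 (.thr 26 31 (.dbl 18 17 30)))) (.rp 31 (.thr 52 36 (.thr 37 7 (.thr 28 24 (.thr 19 25 (.thr 18 17 (.thr 26 30 (.thr 48 15 (.thr 3 33 (.dbl 60 41 56))))))))) (.rp 30 (.thr 52 36 (.thr 7 37 (.thr 6 5 (.thr 38 55 (.thr 28 24 (.thr 25 19 (.thr 12 51 (.thr 3 9 (.dbl 60 41 44))))))))) (.rp 28 (.thr 52 36 (.thr 37 7 (.thr 26 31 (.thr 48 15 (.thr 60 56 (.thr 3 41 (.dbl 18 30 33))))))) (.rp 26 (.thr 52 36 (.thr 7 37 (.thr 6 5 (.thr 38 55 (.thr 28 24 (.thr 25 19 (.thr 12 51 (.thr 3 9 (.dbl 60 41 44))))))))) (.rp 24 (.thr 52 36 (.thr 37 7 (.thr 26 31 (.thr 18 30 (.thr 48 15 (.thr 3 33 (.dbl 60 41 56))))))) (.rp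 19 (.thr 36 52 (.thr 24 28 (.thr 48 12 (.thr 26 31 (.thr 27 25 (.thr 37 15 (.dbl 38 39 55))))))) .nd))))))))) (.rp 52 (.str 16 (.nv (.thr 28 24 (.thr 19 25 (.thr 26 31 (.dbl 18 17 30)))) (.rp 31 (.thr 38 55 (.thr 54 6 (.thr 28 24 (.thr 19 25 (.thr 18 17 (.thr 26 30 (.thr 50 14 (.thr 62 58 (.dbl 2 34 42))))))))) (.rp 30 (.thr 38 55 (.thr 54 6 (.thr 28 24 (.thr 19 25 (.thr 18 17 (.thr 26 31 (.thr 50 14 (.thr 62 58 (.dbl 2 34 42))))))))) (.rp 28 (.thr 38 55 (.thr 54 6 (.thr 26 31 (.thr 50 14 (.thr 62 58 (.thr 2 42 (.dbl 18 30 34))))))) (.rp 26 (.str 53 (.nv (.thr 38 55 (.thr 6 54 (.dbl 5 7 37))) (.rp 55 (.thr 37 5 (.thr 28 24 (.thr 25 19 (.thr 17 29 (.thr 49 13 (.thr 1 33 (.dbl 61 41 57))))))) (.rp 54 (.thr 37 5 (.thr 28 24 (.thr 25 19 (.thr 17 29 (.thr 49 13 (.thr 1 33 (.dbl 61 41 57)))))))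 (.rp 39 (.thr 37 5 (.thr 28 24 (.thr 25 19 (.thr 17 29 (.thr 49 13 (.thr 1 33 (.dbl 61 41 57))))))) (.rp 38 (.thr 37 5 (.thr 28 24 (.thr 25 19 (.thr 17 29 (.thr 49 13 (.thr 1 33 (.dbl 61 41 57))))))) (.rp 37 (.thr 38 55 (.thr 6 54 (.thr 28 24 (.thr 25 19 (.thr 12 51 (.thr 3 9 (.dbl 60 41 44))))))) (.rp 7 (.thr 37 5 (.thr 28 24 (.thr 25 19 (.thr 17 29 (.thr 49 13 (.thr 1 33 (.dbl 61 41 57))))))) (.rp 6 (.thr 37 5 (.thr 28 24 (.thr 25 19 (.thr 17 29 (.thr 49 13 (.thr 1 33 (.dbl 61 41 57))))))) (.rp 5 (.thr 38 55 (.thr 6 54 (.thr 28 24 (.thr 25 19 (.thr 12 51 (.thr 3 9 (.dbl 60 41 44))))))) .nd)))))))))) (.rp 25 (.thr 38 55 (.thr 54 6 (.thr 26 31 (.thr 18 30 (.thr 50 14 (.thr 2 34 (.dbl 62 42 58))))))) (.rp 24 (.thr 38 55 (.thr 54 6 (.thr 26 31 (.thr 18 30 (.thr 50 14 (.thr 2 34 (.dbl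 62 42 58))))))) (.rp 19 (.thr 38 55 (.thr 54 6 (.thr 24 28 (.thr 26 31 (.thr 27 25 (.thr 50 14 (.thr 62 58 (.thr 2 42 (.dbl 18 30 34))))))))) (.rp 18 (.thr 28 24 (.thr 25 19 (.thr 29 17 (.dbl 31 26 30)))) (.rp 17 (.thr 38 55 (.thr 54 6 (.thr 26 31 (.thr 18 30 (.thr 50 14 (.thr 62 58 (.dbl 2 34 42))))))) .nd))))))))))) (.rp 38 (.str 28 (.nv (.thr 16 24 (.thr 25 19 (.thr 31 26 (.dbl 29 17 30)))) (.nv (.thr 16 24 (.thr 26 31 (.thr 18 30 (.dbl 19 17 25)))) (.rp 44 (.str 41 (.nv (.thr 1 61 (.thr 52 36 (.thr 37 7 (.thr 5 53 (.thr 9 13 (.dbl 25 19 57)))))) (.nv (.thr 16 24 (.thr 26 31 (.thr 18 30 (.dbl 19 17 25)))) (.rp 25 (.thr 16 24 (.thr 52 36 (.thr 60 3 (.thr 26 31 (.dbl 56 11 48))))) (.rp 19 (.thr 16 24 (.thr 52 36 (.thr 61 1 (.thr 37 7 (.thr 45 33 (.thr 29 13 (.dbl 31 26 30))))))) .nd)))))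 (.rp 41 (.str 44 (.nv (.thr 16 24 (.thr 25 19 (.thr 29 17 (.dbl 31 26 30)))) (.nv (.thr 36 52 (.thr 12 60 (.dbl 24 16 48))) (.rp 24 (.thr 52 36 (.thr 37 7 (.thr 60 12 (.thr 48 56 (.thr 26 15 (.thr 30 18 (.dbl 31 16 29))))))) (.rp 16 (.thr 52 36 (.thr 37 7 (.thr 53 5 (.thr 60 12 (.thr 25 19 (.thr 49 13 (.thr 57 61 (.dbl 54 51 55)))))))) .nd))))) (.rp 31 (.thr 52 36 (.thr 37 7 (.thr 16 24 (.thr 19 25 (.thr 18 17 (.thr 26 30 (.thr 48 15 (.thr 3 33 (.dbl 60 41 56))))))))) (.rp 30 (.thr 52 36 (.thr 37 7 (.thr 53 5 (.thr 25 19 (.thr 17 29 (.thr 49 13 (.thr 1 33 (.dbl 61 41 57)))))))) (.rp 26 (.thr 52 36 (.thr 37 7 (.thr 53 5 (.thr 25 19 (.thr 17 29 (.thr 49 13 (.thr 1 33 (.dbl 61 41 57)))))))) (.rp 25 (.thr 52 36 (.thr 37 7 (.thr 16 24 (.thr 26 31 (.thr 18 30 (.thr 48 15 (.thr 3 33 (.dbl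 60 41 56)))))))) (.rp 24 (.thr 52 36 (.thr 37 7 (.thr 53 5 (.thr 25 19 (.thr 17 29 (.thr 49 13 (.thr 1 33 (.dbl 61 41 57)))))))) (.rp 19 (.thr 52 36 (.thr 37 7 (.thr 5 53 (.thr 16 24 (.thr 31 26 (.thr 29 30 (.thr 25 17 (.thr 13 49 (.thr 61 45 (.dbl 1 9 41)))))))))) (.rp 17 (.thr 52 36 (.thr 37 7 (.thr 16 24 (.thr 26 31 (.thr 18 30 (.thr 48 15 (.thr 3 33 (.dbl 60 41 56)))))))) (.rp 16 (.thr 52 36 (.thr 37 7 (.thr 53 5 (.thr 25 19 (.thr 17 29 (.thr 49 13 (.thr 1 33 (.dbl 61 41 57)))))))) .nd))))))))))))) (.rp 37 (.str 16 (.nv (.thr 28 24 (.thr 25 19 (.thr 31 26 (.dbl 29 17 30)))) (.nv (.thr 26 31 (.thr 18 30 (.thr 28 24 (.dbl 19 17 25)))) (.rp 31 (.thr 38 55 (.thr 54 6 (.thr 28 24 (.thr 19 25 (.thr 18 17 (.thr 26 30 (.thr 50 14 (.thr 62 58 (.dbl 2 34 42))))))))) (.rp 30 (.thr 36 52 (.thr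 38 55 (.thr 24 28 (.thr 12 48 (.thr 25 51 (.dbl 26 27 31)))))) (.rp 28 (.thr 38 55 (.thr 6 54 (.thr 26 31 (.thr 30 18 (.thr 14 50 (.thr 62 46 (.dbl 2 10 42))))))) (.rp 26 (.thr 38 55 (.thr 6 54 (.thr 28 24 (.thr 25 19 (.thr 12 51 (.thr 3 9 (.dbl 60 41 44))))))) (.rp 25 (.thr 38 55 (.thr 6 54 (.thr 26 31 (.thr 30 18 (.thr 14 50 (.thr 62 46 (.dbl 2 10 42))))))) (.rp 24 (.thr 38 55 (.thr 6 54 (.thr 26 31 (.thr 30 18 (.thr 14 50 (.thr 62 46 (.dbl 2 10 42))))))) (.rp 19 (.thr 38 55 (.thr 6 54 (.thr 24 28 (.thr 26 31 (.thr 27 25 (.thr 30 18 (.thr 14 50 (.thr 62 46 (.dbl 2 10 42))))))))) (.rp 17 (.thr 36 52 (.thr 38 55 (.thr 24 28 (.thr 12 48 (.thr 26 31 (.dbl 25 27 51)))))) .nd))))))))))) (.rp 36 (.str 16 (.nv (.thr 26 31 (.thr 18 30 (.thr 19 17 (.dbl 28 24 25)))) (.nv (.thr 28 24 (.thr 19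 25 (.thr 26 31 (.dbl 18 17 30)))) (.rp 31 (.thr 38 55 (.thr 54 6 (.thr 28 24 (.thr 19 25 (.thr 18 17 (.thr 26 30 (.thr 50 14 (.thr 62 58 (.dbl 2 34 42))))))))) (.rp 30 (.thr 38 55 (.thr 6 54 (.thr 28 24 (.thr 25 19 (.thr 12 51 (.thr 3 9 (.dbl 60 41 44))))))) (.rp 28 (.thr 38 55 (.thr 6 54 (.thr 26 31 (.thr 30 18 (.thr 14 50 (.thr 62 46 (.dbl 2 10 42))))))) (.rp 26 (.thr 38 55 (.thr 6 54 (.thr 28 24 (.thr 25 19 (.thr 12 51 (.thr 3 9 (.dbl 60 41 44))))))) (.rp 25 (.thr 38 55 (.thr 6 54 (.thr 26 31 (.thr 30 18 (.thr 14 50 (.thr 62 46 (.dbl 2 10 42))))))) (.rp 24 (.thr 38 55 (.thr 6 54 (.thr 26 31 (.thr 30 18 (.thr 14 50 (.thr 62 46 (.dbl 2 10 42))))))) (.rp 19 (.thr 38 55 (.thr 6 54 (.thr 24 28 (.thr 26 31 (.thr 27 25 (.thr 30 18 (.thr 14 50 (.thr 62 46 (.dbl 2 10 42))))))))) (.rp 18 (.thr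 28 24 (.thr 25 19 (.thr 29 17 (.dbl 31 26 30)))) (.rp 17 (.thr 38 55 (.thr 6 54 (.thr 26 31 (.thr 30 18 (.thr 14 50 (.thr 62 46 (.dbl 2 10 42))))))) .nd)))))))))))) (.rp 7 (.thr 36 52 (.thr 38 55 (.thr 39 37 (.thr 54 6 (.str 16 (.nv (.thr 24 28 (.thr 12 48 (.thr 25 51 (.dbl 26 27 31)))) (.nv (.thr 26 31 (.thr 50 14 (.thr 62 58 (.thr 2 42 (.dbl 18 30 34))))) (.nv (.thr 28 24 (.thr 26 31 (.thr 18 30 (.dbl 19 17 25)))) (.rp 31 (.thr 28 24 (.thr 19 25 (.thr 18 17 (.thr 26 30 (.thr 50 14 (.thr 62 58 (.dbl 2 34 42))))))) (.rp 27 (.thr 28 24 (.thr 19 25 (.thr 26 31 (.dbl 18 17 30)))) (.rp 26 (.thr 28 24 (.thr 25 19 (.thr 29 17 (.thr 31 30 (.thr 51 12 (.thr 15 27 (.thr 63 47 (.thr 60 57 (.thr 61 62 (.dbl 41 1 3)))))))))) (.rp 19 (.thr 24 28 (.thr 48 12 (.thr 26 31 (.thr 27 25 (.thr 51 15 (.dbl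 50 14 49)))))) .nd)))))))))))) (.rp 6 (.thr 52 36 (.thr 37 7 (.thr 53 5 (.dbl 55 38 54)))) (.rp 5 (.thr 38 55 (.thr 36 52 (.thr 54 6 (.thr 39 37 (.str 26 (.nv (.thr 16 31 (.thr 24 28 (.thr 12 48 (.dbl 25 27 51)))) (.nv (.thr 50 14 (.thr 62 58 (.thr 18 30 (.dbl 2 34 42)))) (.rp 30 (.thr 50 14 (.thr 62 58 (.thr 16 31 (.thr 28 24 (.thr 19 25 (.thr 18 17 (.dbl 2 34 42))))))) (.rp 15 (.str 10 (.nv (.thr 16 31 (.thr 18 30 (.thr 19 17 (.dbl 28 24 25)))) (.nv (.thr 58 42 (.dbl 50 14 62)) (.rp 47 (.thr 50 14 (.dbl 58 42 62)) .nd)))) (.rp 10 (.str 15 (.nv (.thr 30 18 (.thr 60 45 (.dbl 51 27 57))) (.nv (.thr 14 50 (.thr 51 27 (.dbl 12 13 25))) (.rp 51 (.thr 14 50 (.thr 12 13 (.thr 16 31 (.dbl 24 28 48)))) (.rp 27 (.thr 14 50 (.thr 12 13 (.thr 24 48 (.dbl 16 28 31)))) (.rp 14 (.str 2 (.nv (.thr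 51 27 (.thr 12 25 (.thr 24 48 (.dbl 16 28 31)))) (.nv (.thr 18 30 (.thr 34 50 (.dbl 42 46 62))) .nd))) .nd)))))) .nd)))))))))) .nd)))))))))))

theorem w58 : WinAt (7340032, 34368126977) :=
  chF (K := []) kn c58 7340032 34368126977 23
    [] (by decide +kernel) (by decide +kernel)

/-- A certificate. -/
noncomputable def c59 : Ct := (.str 28 (.nv (.thr 19 25 (.thr 23 20 (.thr 31 27 (.thr 26 16 (.dbl 30 18 29))))) (.nv (.thr 20 23 (.thr 16 24 (.thr 31 26 (.thr 25 19 (.dbl 29 17 30))))) (.rp 48 (.thr 20 23 (.thr 25 19 (.thr 29 17 (.thr 31 30 (.dbl 16 24 26))))) (.rp 31 (.str 60 (.nv (.thr 3 41 (.thr 23 20 (.thr 25 19 (.thr 29 17 (.thr 63 43 (.dbl 12 44 46)))))) (.nv (.thr 3 41 (.thr 12 44 (.thr 6 9 (.thr 38 54 (.dbl 25 19 51))))) (.rp 51 (.thr 23 20 (.thr 25 19 (.thr 12 44 (.thr 3 41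 (.thr 63 43 (.dbl 29 17 46)))))) (.rp 44 (.thr 25 19 (.thr 17 29 (.thr 41 3 (.thr 1 61 (.thr 49 33 (.thr 13 37 (.dbl 9 5 57))))))) (.rp 41 (.thr 23 20 (.thr 25 19 (.thr 29 17 (.thr 12 44 (.thr 63 46 (.thr 3 43 (.thr 6 9 (.dbl 38 51 54)))))))) (.rp 40 (.thr 25 19 (.thr 41 3 (.thr 57 9 (.thr 51 54 (.dbl 12 38 44))))) (.rp 25 (.thr 23 20 (.thr 12 44 (.thr 3 41 (.thr 63 43 (.thr 62 61 (.thr 46 29 (.thr 42 2 (.thr 38 34 (.dbl 6 9 54))))))))) (.rp 19 (.thr 23 20 (.thr 12 44 (.thr 3 41 (.thr 6 9 (.thr 38 54 (.thr 25 51 (.thr 63 43 (.dbl 29 17 46)))))))) (.rp 12 (.thr 25 19 (.thr 17 29 (.thr 41 3 (.thr 1 61 (.thr 49 33 (.thr 13 37 (.dbl 9 5 57))))))) (.rp 3 (.thr 25 19 (.thr 29 17 (.thr 12 44 (.thr 51 38 (.thr 57 54 (.thr 63 46 (.thr 61 62 (.dbl 41 1 9)))))))) .nd))))))))))) (.rp 30 (.str 60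 (.nv (.thr 3 41 (.thr 23 20 (.thr 25 19 (.thr 29 17 (.thr 63 43 (.dbl 12 44 46)))))) (.nv (.thr 25 19 (.thr 3 41 (.thr 12 44 (.thr 6 9 (.dbl 38 51 54))))) (.rp 51 (.thr 23 20 (.thr 25 19 (.thr 12 44 (.thr 3 41 (.thr 63 43 (.dbl 29 17 46)))))) (.rp 44 (.thr 25 19 (.thr 17 29 (.thr 41 3 (.thr 1 61 (.thr 49 33 (.thr 13 37 (.dbl 9 5 57))))))) (.rp 41 (.thr 23 20 (.thr 25 19 (.thr 29 17 (.thr 12 44 (.thr 63 46 (.thr 3 43 (.thr 6 9 (.dbl 38 51 54)))))))) (.rp 40 (.thr 25 19 (.thr 41 3 (.thr 57 9 (.thr 51 54 (.dbl 12 38 44))))) (.rp 25 (.thr 23 20 (.thr 12 44 (.thr 3 41 (.thr 63 43 (.thr 62 61 (.thr 46 29 (.thr 42 2 (.thr 38 34 (.dbl 6 9 54))))))))) (.rp 19 (.thr 23 20 (.thr 12 44 (.thr 3 41 (.thr 6 9 (.thr 38 54 (.thr 25 51 (.thr 63 43 (.dbl 29 17 46)))))))) (.rp 12 (.thr 25 19 (.thr 17 29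 (.thr 41 3 (.thr 1 61 (.thr 49 33 (.thr 13 37 (.dbl 9 5 57))))))) (.rp 3 (.thr 25 19 (.thr 29 17 (.thr 12 44 (.thr 51 38 (.thr 57 54 (.thr 63 46 (.thr 41 9 (.dbl 61 1 62)))))))) .nd))))))))))) (.rp 29 (.thr 20 23 (.thr 16 24 (.thr 26 31 (.thr 18 30 (.dbl 19 17 25))))) (.rp 26 (.str 60 (.nv (.thr 3 41 (.thr 23 20 (.thr 25 19 (.thr 29 17 (.thr 63 43 (.dbl 12 44 46)))))) (.nv (.thr 25 19 (.thr 41 3 (.thr 57 9 (.thr 51 54 (.dbl 12 38 44))))) (.rp 51 (.thr 23 20 (.thr 25 19 (.thr 12 44 (.thr 3 41 (.thr 63 43 (.dbl 29 17 46)))))) (.rp 44 (.thr 25 19 (.thr 29 17 (.thr 30 31 (.thr 45 15 (.thr 61 13 (.dbl 41 1 3)))))) (.rp 41 (.thr 25 19 (.thr 29 17 (.thr 30 31 (.thr 12 44 (.thr 63 46 (.thr 61 62 (.dbl 45 13 15))))))) (.rp 25 (.thr 23 20 (.thr 12 44 (.thr 3 41 (.thr 63 43 (.thr 61 62 (.thr 29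 46 (.thr 30 31 (.dbl 45 13 15)))))))) (.rp 19 (.thr 23 20 (.thr 12 44 (.thr 3 41 (.thr 6 9 (.thr 38 54 (.thr 25 51 (.thr 63 43 (.dbl 29 17 46)))))))) (.rp 12 (.thr 25 19 (.thr 29 17 (.thr 30 31 (.thr 45 15 (.thr 41 3 (.dbl 61 1 13)))))) (.rp 3 (.thr 25 19 (.thr 29 17 (.thr 30 31 (.thr 12 44 (.thr 63 46 (.thr 61 62 (.dbl 45 13 15))))))) .nd)))))))))) (.rp 25 (.str 26 (.nv (.thr 30 18 (.dbl 31 16 29)) (.nv (.thr 20 23 (.dbl 16 24 31)) (.rp 31 (.str 60 (.nv (.thr 30 18 (.thr 15 45 (.thr 37 48 (.thr 7 52 (.dbl 3 11 41))))) (.nv (.thr 3 41 (.thr 12 44 (.thr 23 20 (.thr 30 18 (.thr 63 43 (.thr 46 29 (.dbl 62 14 61))))))) (.nv (.thr 3 41 (.thr 18 30 (.thr 48 33 (.thr 52 56 (.dbl 37 7 15))))) (.rp 52 (.thr 30 18 (.thr 12 44 (.thr 15 45 (.thr 14 13 (.thr 38 50 (.thr 6 54 (.dbl 3 9 41)))))))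 (.rp 41 (.thr 23 20 (.thr 30 18 (.thr 15 45 (.thr 37 48 (.thr 5 53 (.thr 7 52 (.thr 4 6 (.dbl 55 38 39)))))))) (.rp 30 (.thr 23 20 (.thr 41 3 (.thr 56 11 (.thr 52 48 (.thr 7 37 (.thr 55 39 (.thr 38 4 (.dbl 54 6 53)))))))) (.rp 18 (.thr 12 44 (.thr 41 3 (.thr 56 11 (.thr 48 52 (.thr 15 37 (.thr 13 14 (.thr 45 30 (.dbl 61 1 29)))))))) (.rp 3 (.thr 30 18 (.thr 12 44 (.thr 15 45 (.thr 14 13 (.thr 38 50 (.thr 6 54 (.thr 2 10 (.dbl 62 42 46)))))))) .nd))))))))) (.rp 16 (.str 48 (.nv (.thr 15 37 (.thr 30 18 (.thr 29 31 (.thr 60 45 (.thr 12 44 (.thr 46 63 (.dbl 14 13 62))))))) (.nv (.thr 37 15 (.thr 5 53 (.thr 7 52 (.thr 4 6 (.thr 55 38 (.dbl 23 20 39)))))) (.nv (.thr 18 30 (.thr 3 33 (.thr 60 41 (.thr 52 56 (.dbl 37 7 15))))) (.rp 37 (.thr 18 30 (.thr 23 20 (.thr 3 33 (.thr 63 43 (.thr 58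 53 (.thr 42 10 (.thr 62 2 (.dbl 60 41 61)))))))) (.rp 15 (.thr 18 30 (.thr 23 20 (.thr 3 33 (.thr 63 43 (.thr 58 53 (.thr 60 41 (.thr 62 61 (.dbl 42 2 10)))))))) .nd)))))) .nd))))) (.rp 23 (.str 30 (.nv (.thr 25 19 (.dbl 29 17 31)) (.nv (.thr 31 29 (.dbl 26 16 18)) (.rp 31 (.thr 19 25 (.str 60 (.nv (.thr 15 45 (.thr 26 18 (.thr 41 3 (.thr 48 37 (.dbl 56 11 52))))) (.nv (.thr 3 41 (.thr 12 44 (.thr 15 45 (.thr 14 13 (.thr 26 18 (.thr 38 50 (.dbl 6 9 54))))))) (.nv (.thr 26 18 (.thr 15 45 (.thr 3 41 (.thr 7 11 (.dbl 37 48 52))))) (.rp 45 (.thr 26 18 (.thr 44 12 (.thr 41 3 (.thr 38 35 (.thr 14 50 (.thr 62 46 (.dbl 61 1 63))))))) (.rp 41 (.thr 26 18 (.thr 12 44 (.thr 15 45 (.thr 14 13 (.thr 38 50 (.thr 6 54 (.thr 2 10 (.dbl 62 42 46)))))))) (.rp 37 (.thr 26 18 (.thr 44 12 (.thr 45 15 (.thr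 41 3 (.thr 38 35 (.thr 14 50 (.dbl 46 47 62))))))) (.rp 26 (.thr 12 44 (.thr 15 45 (.thr 13 14 (.thr 3 41 (.thr 9 6 (.thr 5 1 (.thr 37 53 (.dbl 7 11 52)))))))) (.rp 18 (.thr 12 44 (.thr 15 45 (.thr 3 41 (.thr 7 11 (.thr 37 52 (.thr 5 53 (.dbl 6 4 9))))))) (.rp 15 (.thr 26 18 (.thr 44 12 (.thr 41 3 (.thr 38 35 (.thr 14 50 (.thr 62 46 (.dbl 61 1 63))))))) (.rp 3 (.thr 26 18 (.thr 12 44 (.thr 15 45 (.thr 14 13 (.thr 38 50 (.thr 6 54 (.thr 2 10 (.dbl 62 42 46)))))))) .nd)))))))))))) (.rp 29 (.thr 26 18 (.thr 16 31 (.thr 24 20 (.dbl 25 19 27)))) .nd))))) (.rp 20 (.thr 25 19 (.str 60 (.nv (.thr 12 44 (.thr 29 17 (.thr 30 31 (.thr 15 45 (.thr 14 13 (.dbl 46 62 63)))))) (.nv (.thr 29 17 (.thr 30 31 (.thr 41 3 (.thr 45 15 (.dbl 61 1 13))))) (.nv (.thr 3 41 (.thr 12 44 (.thr 6 9 (.dbl 38 51 54))))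 (.rp 52 (.str 4 (.nv (.thr 38 55 (.thr 54 6 (.thr 57 51 (.dbl 41 3 9)))) (.nv (.thr 38 55 (.dbl 12 44 51)) (.rp 55 (.thr 12 44 (.thr 51 38 (.thr 41 3 (.dbl 57 9 54)))) (.rp 54 (.thr 12 44 (.dbl 38 51 55)) (.rp 51 (.thr 38 55 (.thr 44 12 (.dbl 41 3 35))) (.rp 38 (.thr 29 17 (.thr 30 31 (.thr 45 15 (.thr 61 13 (.dbl 41 1 3))))) .nd))))))) (.rp 51 (.thr 17 29 (.thr 44 12 (.thr 41 3 (.thr 35 38 (.thr 1 61 (.thr 49 33 (.thr 9 57 (.dbl 13 5 37)))))))) (.rp 4 (.str 52 (.nv (.thr 29 17 (.thr 30 31 (.thr 15 45 (.thr 48 56 (.dbl 26 18 37))))) (.nv (.thr 12 44 (.thr 3 41 (.thr 6 9 (.dbl 38 51 54)))) (.rp 51 (.thr 17 29 (.thr 37 7 (.thr 49 13 (.thr 1 33 (.dbl 41 3 61))))) (.rp 12 (.str 8 (.nv (.thr 42 59 (.thr 41 3 (.thr 40 43 (.dbl 56 24 48)))) (.nv (.thr 29 17 (.thr 37 7 (.thr 13 49 (.thr 45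 61 (.dbl 30 15 31))))) (.nv (.thr 56 48 (.thr 24 40 (.thr 26 27 (.dbl 41 3 11)))) (.rp 48 (.str 24 (.nv (.thr 40 56 (.thr 42 59 (.dbl 41 3 43))) (.nv (.thr 29 17 (.thr 26 27 (.dbl 31 16 30))) (.rp 32 (.str 16 (.nv (.thr 40 56 (.thr 41 3 (.dbl 42 43 59))) (.nv (.dbl 26 27 31) (.rp 40 (.str 44 (.nv (.dbl 26 27 31) (.rp 31 (.thr 41 3 (.thr 9 57 (.thr 11 10 (.dbl 26 27 56)))) (.rp 27 (.thr 29 17 (.dbl 31 26 30)) (.rp 26 (.thr 42 59 (.thr 62 2 (.thr 61 63 (.dbl 41 1 3)))) .nd))))) .nd)))) (.rp 16 (.str 32 (.nv (.thr 17 29 (.thr 26 27 (.thr 56 40 (.dbl 41 3 11)))) (.nv (.thr 42 59 (.dbl 37 7 47)) (.rp 17 (.str 18 (.nv (.thr 37 7 (.dbl 42 47 59)) (.nv (.dbl 26 27 30) (.rp 51 (.str 34 (.nv (.thr 3 41 (.thr 37 7 (.dbl 42 47 59))) (.nv (.dbl 26 27 30) (.rp 50 (.str 49 (.nv (.thr 3 41 (.dbl 26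 27 30)) (.nv (.dbl 37 7 13) (.rp 3 (.thr 35 33 (.dbl 37 7 13)) .nd)))) (.rp 49 (.thr 50 2 (.dbl 26 27 30)) (.rp 3 (.thr 35 33 (.dbl 26 27 30)) .nd)))))) (.rp 34 (.str 51 (.nv (.thr 37 7 (.dbl 42 47 59)) (.nv (.dbl 26 27 30) .nd))) .nd))))) .nd)))) .nd))))) (.rp 24 (.thr 48 56 (.thr 29 17 (.thr 30 31 (.thr 18 26 (.dbl 3 33 41))))) .nd)))))) .nd))))) .nd)))))))) (.rp 19 (.str 12 (.nv (.thr 23 20 (.thr 60 44 (.thr 3 41 (.thr 63 43 (.thr 29 46 (.thr 30 31 (.thr 45 15 (.dbl 61 13 62)))))))) (.nv (.thr 20 23 (.thr 16 24 (.thr 31 26 (.thr 29 30 (.thr 25 17 (.thr 60 44 (.thr 3 41 (.thr 6 9 (.dbl 38 51 54))))))))) (.nv (.thr 20 23 (.thr 16 24 (.thr 31 26 (.thr 29 30 (.thr 60 44 (.thr 41 3 (.thr 63 46 (.dbl 61 1 62)))))))) (.nv (.thr 23 20 (.thr 60 44 (.thr 3 41 (.thr 6 9 (.thr 38 54 (.thr 25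 51 (.thr 63 43 (.dbl 29 17 46)))))))) (.rp 60 (.thr 20 23 (.str 5 (.nv (.thr 37 53 (.thr 7 52 (.thr 6 4 (.thr 3 9 (.thr 15 11 (.thr 13 14 (.thr 25 49 (.dbl 38 51 54)))))))) (.nv (.thr 16 24 (.thr 31 26 (.thr 29 30 (.thr 25 17 (.thr 37 53 (.thr 13 49 (.thr 15 14 (.dbl 63 46 47)))))))) (.nv (.thr 16 24 (.thr 37 53 (.thr 7 52 (.thr 6 4 (.thr 3 9 (.thr 15 11 (.dbl 26 31 48))))))) (.rp 53 (.thr 16 24 (.thr 31 26 (.thr 29 30 (.thr 25 17 (.thr 63 46 (.thr 15 47 (.thr 14 13 (.thr 51 38 (.thr 59 55 (.thr 42 8 (.thr 2 62 (.thr 6 10 (.thr 7 4 (.dbl 3 9 11)))))))))))))) (.rp 37 (.thr 16 24 (.thr 31 26 (.thr 29 30 (.thr 25 17 (.thr 63 46 (.thr 15 47 (.thr 14 13 (.thr 51 38 (.thr 39 27 (.thr 59 55 (.thr 42 8 (.thr 2 62 (.thr 6 10 (.thr 7 4 (.dbl 3 9 11))))))))))))))) (.rp 31 (.str 27 (.nv (.thr 24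 16 (.thr 25 26 (.thr 38 51 (.thr 4 55 (.dbl 6 7 54))))) (.nv (.thr 24 16 (.thr 25 26 (.thr 37 53 (.thr 13 49 (.thr 1 9 (.thr 61 41 (.dbl 29 17 45))))))) (.nv (.thr 24 16 (.thr 25 26 (.thr 37 53 (.thr 7 52 (.thr 4 6 (.dbl 38 51 55)))))) (.rp 48 (.thr 16 24 (.str 7 (.nv (.dbl 37 52 53) (.rp 56 (.thr 52 37 (.thr 6 4 (.thr 3 9 (.thr 15 11 (.thr 51 39 (.dbl 38 25 54)))))) (.rp 53 (.thr 6 4 (.thr 3 9 (.thr 15 11 (.thr 51 39 (.dbl 38 25 54))))) (.rp 52 (.str 56 (.nv (.thr 6 4 (.thr 9 3 (.thr 1 13 (.thr 41 61 (.thr 57 25 (.thr 59 58 (.dbl 11 26 43))))))) (.nv (.thr 6 4 (.thr 3 9 (.thr 15 11 (.thr 51 39 (.dbl 38 25 54))))) (.rp 51 (.thr 6 4 (.thr 3 9 (.thr 11 15 (.thr 41 26 (.thr 37 53 (.thr 43 59 (.thr 42 40 (.thr 45 33 (.thr 47 32 (.thr 44 46 (.dbl 35 38 39))))))))))) (.rp 25 (.thr 6 4 (.thr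 9 3 (.thr 1 13 (.thr 41 61 (.thr 11 26 (.thr 10 8 (.thr 2 14 (.thr 43 59 (.dbl 42 40 62))))))))) (.rp 11 (.thr 6 4 (.thr 9 3 (.thr 1 13 (.thr 41 61 (.thr 25 57 (.dbl 38 51 54)))))) (.rp 9 (.thr 4 6 (.thr 38 55 (.thr 51 25 (.thr 15 39 (.thr 14 13 (.thr 11 3 (.dbl 26 41 50))))))) (.rp 6 (.str 11 (.nv (.thr 15 3 (.thr 51 39 (.thr 38 25 (.thr 55 4 (.dbl 59 43 63))))) (.nv (.thr 41 26 (.thr 1 61 (.thr 13 9 (.dbl 15 3 14)))) (.rp 63 (.thr 15 3 (.thr 43 59 (.thr 13 14 (.thr 1 9 (.dbl 41 26 61))))) (.rp 15 (.thr 41 26 (.thr 37 53 (.thr 1 61 (.thr 9 13 (.thr 57 25 (.dbl 59 43 58)))))) (.rp 3 (.thr 41 26 (.thr 1 61 (.thr 9 13 (.thr 57 25 (.dbl 59 43 58))))) (.rp 1 (.thr 41 26 (.thr 59 43 (.thr 57 58 (.thr 25 9 (.thr 51 38 (.dbl 15 3 39)))))) .nd))))))) (.rp 4 (.str 9 (.nv (.thr 3 6 (.thr 11 15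 (.thr 59 43 (.thr 57 58 (.dbl 41 25 26))))) (.nv (.thr 1 13 (.thr 41 61 (.thr 57 25 (.thr 59 58 (.dbl 11 26 43))))) (.nv (.thr 13 1 (.thr 3 6 (.dbl 15 11 14))) (.rp 11 (.thr 13 1 (.thr 15 14 (.thr 37 53 (.thr 25 49 (.dbl 51 38 39))))) .nd))))) (.rp 3 (.thr 6 4 (.thr 38 54 (.thr 51 25 (.thr 15 39 (.thr 14 13 (.thr 2 10 (.thr 62 42 (.thr 30 46 (.dbl 26 18 50))))))))) .nd)))))))))) (.rp 37 (.thr 6 4 (.thr 3 9 (.thr 15 11 (.thr 51 39 (.dbl 38 25 54))))) .nd))))))) (.rp 32 (.thr 37 53 (.thr 7 52 (.thr 6 4 (.thr 3 9 (.thr 15 11 (.thr 51 39 (.dbl 38 25 54))))))) (.rp 26 (.thr 37 53 (.thr 7 52 (.thr 6 4 (.thr 3 9 (.thr 15 11 (.thr 51 39 (.dbl 38 25 54))))))) (.rp 25 (.thr 37 53 (.thr 7 52 (.thr 6 4 (.thr 3 9 (.thr 15 11 (.thr 14 13 (.thr 48 26 (.thr 18 33 (.thr 51 39 (.thr 50 49 (.dbl 2 10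 34))))))))))) (.rp 24 (.thr 37 53 (.thr 7 52 (.thr 6 4 (.thr 3 9 (.thr 15 11 (.thr 51 39 (.dbl 38 25 54))))))) (.rp 18 (.thr 37 53 (.thr 7 52 (.thr 6 4 (.thr 3 9 (.thr 15 11 (.thr 51 39 (.dbl 38 25 54))))))) (.rp 17 (.thr 37 53 (.thr 7 52 (.thr 6 4 (.thr 3 9 (.thr 15 11 (.thr 51 39 (.dbl 38 25 54))))))) (.rp 16 (.thr 37 53 (.thr 7 52 (.thr 6 4 (.thr 3 9 (.thr 15 11 (.thr 51 39 (.dbl 38 25 54))))))) .nd)))))))))))) (.rp 27 (.str 31 (.nv (.dbl 16 24 26) (.rp 26 (.thr 29 30 (.thr 25 17 (.thr 37 53 (.thr 13 49 (.thr 1 9 (.dbl 61 41 45)))))) (.rp 24 (.thr 26 16 (.dbl 30 18 29)) (.rp 16 (.thr 29 30 (.thr 37 53 (.thr 7 52 (.thr 6 4 (.thr 3 9 (.thr 15 11 (.dbl 63 46 47))))))) .nd))))) (.rp 15 (.thr 16 24 (.thr 31 26 (.thr 37 53 (.thr 7 52 (.thr 6 4 (.thr 9 3 (.thr 1 13 (.thr 41 61 (.thr 29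 30 (.thr 45 33 (.dbl 25 17 57))))))))))) .nd)))))))))) (.rp 44 (.thr 20 23 (.thr 16 24 (.thr 31 26 (.thr 29 30 (.thr 25 17 (.thr 63 46 (.thr 51 38 (.thr 59 55 (.thr 42 8 (.thr 62 2 (.thr 60 61 (.thr 57 54 (.dbl 41 3 9))))))))))))) (.rp 41 (.thr 20 23 (.thr 16 24 (.thr 31 26 (.thr 29 30 (.thr 25 17 (.thr 60 44 (.thr 63 46 (.thr 62 61 (.thr 42 2 (.thr 59 8 (.dbl 51 38 55))))))))))) (.rp 40 (.thr 20 23 (.thr 16 24 (.thr 31 26 (.thr 29 30 (.thr 25 17 (.thr 44 60 (.thr 46 63 (.thr 45 47 (.thr 61 13 (.thr 41 1 (.dbl 38 35 51))))))))))) (.rp 35 (.thr 20 23 (.thr 16 24 (.thr 31 26 (.thr 29 30 (.thr 25 17 (.thr 60 44 (.thr 41 3 (.thr 51 38 (.dbl 57 9 54))))))))) (.rp 32 (.thr 20 23 (.thr 16 24 (.thr 31 26 (.thr 29 30 (.thr 25 17 (.thr 44 60 (.thr 46 63 (.thr 45 47 (.thr 61 13 (.thr 41 1 (.dbl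 38 35 51))))))))))) (.rp 29 (.thr 60 44 (.thr 3 41 (.thr 6 9 (.thr 38 54 (.thr 25 51 (.thr 4 55 (.thr 7 5 (.thr 15 11 (.thr 13 14 (.dbl 37 49 52)))))))))) (.rp 23 (.thr 60 44 (.thr 3 41 (.thr 6 9 (.thr 38 54 (.thr 25 51 (.thr 4 55 (.thr 7 5 (.thr 15 11 (.thr 13 14 (.dbl 37 49 52)))))))))) (.rp 20 (.thr 60 44 (.thr 3 41 (.thr 6 9 (.thr 38 54 (.thr 25 51 (.thr 4 55 (.thr 7 5 (.thr 15 11 (.thr 13 14 (.dbl 37 49 52)))))))))) (.rp 3 (.thr 20 23 (.thr 16 24 (.thr 31 26 (.thr 29 30 (.thr 25 17 (.thr 60 44 (.thr 63 46 (.thr 62 61 (.thr 51 38 (.thr 59 55 (.dbl 42 2 8))))))))))) .nd))))))))))))))) (.rp 16 (.str 12 (.nv (.thr 23 20 (.thr 25 19 (.thr 38 51 (.thr 6 54 (.thr 3 9 (.thr 63 43 (.dbl 29 17 46))))))) (.nv (.thr 19 25 (.thr 23 20 (.thr 31 27 (.thr 29 30 (.thr 60 44 (.thr 63 46 (.dbl 3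 41 43))))))) (.nv (.thr 60 44 (.thr 3 41 (.thr 6 9 (.thr 38 54 (.dbl 25 19 51))))) (.rp 60 (.thr 25 19 (.thr 38 51 (.thr 55 4 (.thr 54 6 (.thr 52 53 (.thr 7 37 (.dbl 23 20 39))))))) (.rp 48 (.str 32 (.nv (.thr 23 20 (.thr 25 19 (.thr 38 51 (.thr 6 54 (.thr 3 9 (.thr 63 43 (.dbl 29 17 46))))))) (.nv (.thr 19 25 (.thr 23 20 (.thr 31 27 (.thr 29 30 (.thr 60 44 (.thr 63 46 (.dbl 3 41 43))))))) (.nv (.thr 60 44 (.thr 3 41 (.thr 6 9 (.thr 38 54 (.dbl 25 19 51))))) (.rp 60 (.thr 25 19 (.thr 38 51 (.thr 54 6 (.thr 55 4 (.thr 52 53 (.thr 7 37 (.dbl 23 20 39))))))) (.rp 25 (.thr 23 20 (.thr 60 44 (.thr 3 41 (.thr 63 43 (.thr 29 46 (.thr 30 31 (.thr 45 15 (.dbl 61 13 62)))))))) (.rp 19 (.thr 23 20 (.thr 60 44 (.thr 3 41 (.thr 6 9 (.thr 38 54 (.thr 25 51 (.thr 63 43 (.dbl 29 17 46)))))))) (.rp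 3 (.thr 25 19 (.thr 44 60 (.thr 38 51 (.thr 35 41 (.thr 54 6 (.thr 55 4 (.thr 52 53 (.thr 7 37 (.dbl 23 20 39))))))))) .nd)))))))) (.rp 40 (.thr 25 19 (.thr 38 51 (.thr 6 54 (.thr 3 9 (.dbl 60 41 44))))) (.rp 32 (.str 48 (.nv (.thr 25 19 (.thr 38 51 (.thr 54 6 (.thr 55 4 (.thr 52 53 (.thr 7 37 (.dbl 23 20 39))))))) (.nv (.thr 19 25 (.thr 23 20 (.thr 31 27 (.thr 30 29 (.thr 26 18 (.thr 15 37 (.dbl 60 44 45))))))) (.nv (.thr 25 19 (.thr 17 29 (.thr 38 51 (.thr 6 54 (.thr 3 9 (.dbl 60 41 44)))))) (.rp 44 (.str 40 (.nv (.thr 23 20 (.thr 25 19 (.thr 38 51 (.thr 54 6 (.thr 55 4 (.thr 52 53 (.dbl 7 37 39))))))) (.nv (.thr 19 25 (.thr 23 20 (.thr 31 27 (.thr 29 30 (.thr 63 46 (.thr 53 58 (.thr 37 5 (.dbl 15 26 47)))))))) (.nv (.thr 25 19 (.thr 38 51 (.thr 6 54 (.thr 3 9 (.thr 18 33 (.thr 30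 26 (.dbl 29 17 31))))))) (.rp 25 (.str 60 (.nv (.thr 3 41 (.thr 23 20 (.thr 63 43 (.thr 29 46 (.thr 30 31 (.dbl 18 26 33)))))) (.nv (.thr 23 20 (.thr 52 56 (.thr 7 37 (.thr 55 39 (.thr 38 4 (.dbl 54 6 53)))))) (.nv (.thr 52 56 (.thr 37 7 (.thr 26 15 (.thr 18 30 (.dbl 3 33 41))))) (.rp 52 (.thr 3 41 (.thr 18 33 (.thr 30 26 (.thr 29 31 (.thr 63 46 (.dbl 23 20 43)))))) .nd))))) (.rp 19 (.str 18 (.nv (.thr 23 20 (.thr 30 26 (.thr 29 31 (.thr 63 46 (.dbl 3 33 43))))) (.nv (.thr 3 33 (.thr 6 9 (.thr 26 30 (.thr 38 54 (.thr 14 50 (.dbl 15 13 37)))))) (.nv (.thr 23 20 (.thr 3 33 (.thr 41 60 (.dbl 43 42 63)))) (.rp 33 (.thr 30 26 (.thr 29 31 (.thr 25 17 (.thr 46 63 (.thr 62 14 (.thr 42 2 (.dbl 38 34 51))))))) (.rp 3 (.thr 26 30 (.thr 23 20 (.thr 37 15 (.thr 5 53 (.thr 7 52 (.thr 4 6 (.dbl 55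 38 39))))))) .nd)))))) .nd)))))) (.rp 40 (.thr 44 60 (.thr 20 23 (.thr 25 19 (.thr 38 51 (.thr 54 6 (.thr 55 4 (.thr 53 52 (.thr 63 58 (.dbl 29 17 46))))))))) (.rp 38 (.thr 23 20 (.thr 19 25 (.thr 31 27 (.thr 29 30 (.thr 63 46 (.thr 3 43 (.dbl 60 41 44))))))) (.rp 25 (.thr 60 44 (.str 40 (.nv (.thr 3 41 (.thr 23 20 (.thr 63 43 (.thr 29 46 (.thr 30 31 (.dbl 18 26 33)))))) (.nv (.thr 23 20 (.thr 52 56 (.thr 7 37 (.thr 55 39 (.thr 38 4 (.dbl 54 6 53)))))) (.nv (.thr 52 56 (.thr 37 7 (.thr 26 15 (.thr 18 30 (.dbl 3 33 41))))) (.rp 52 (.thr 3 41 (.thr 18 33 (.thr 30 26 (.thr 29 31 (.thr 63 46 (.dbl 23 20 43)))))) .nd)))))) (.rp 19 (.str 18 (.nv (.thr 26 30 (.thr 37 15 (.thr 52 7 (.dbl 60 44 56)))) (.nv (.thr 3 33 (.dbl 60 41 44)) (.rp 60 (.thr 30 26 (.thr 29 31 (.thr 63 46 (.thr 3 33 (.dbl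 23 20 43))))) (.rp 44 (.str 40 (.nv (.thr 23 20 (.thr 30 26 (.thr 29 31 (.thr 63 46 (.dbl 3 33 43))))) (.nv (.thr 3 33 (.thr 6 9 (.thr 26 30 (.thr 38 54 (.thr 14 50 (.dbl 15 13 37)))))) (.nv (.thr 23 20 (.thr 3 33 (.thr 41 60 (.dbl 43 42 63)))) (.rp 33 (.thr 30 26 (.thr 29 31 (.thr 25 17 (.thr 46 63 (.thr 62 14 (.thr 42 2 (.dbl 38 34 51))))))) (.rp 3 (.thr 26 30 (.thr 23 20 (.thr 37 15 (.thr 5 53 (.thr 7 52 (.thr 4 6 (.dbl 55 38 39))))))) .nd)))))) (.rp 40 (.thr 44 60 (.thr 20 23 (.thr 26 30 (.thr 15 37 (.thr 14 13 (.thr 38 50 (.thr 6 54 (.dbl 3 9 33)))))))) (.rp 3 (.thr 30 26 (.thr 29 31 (.thr 46 63 (.thr 14 62 (.thr 15 13 (.dbl 60 44 45)))))) .nd))))))) .nd))))))))) (.rp 25 (.thr 23 20 (.thr 60 44 (.thr 3 41 (.thr 63 43 (.thr 61 62 (.thr 29 46 (.thr 30 31 (.dbl 45 13 15)))))))) (.rp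 19 (.thr 23 20 (.thr 60 44 (.thr 3 41 (.thr 6 9 (.thr 63 43 (.thr 29 46 (.thr 38 54 (.dbl 25 17 51)))))))) (.rp 3 (.thr 25 19 (.thr 44 60 (.thr 38 51 (.thr 35 41 (.thr 55 4 (.thr 54 6 (.thr 52 53 (.thr 7 37 (.dbl 23 20 39))))))))) .nd))))))))))) .nd)))))))))))))

theorem w59 : WinAt (6291456, 68719476737) :=
  chF (K := []) kn c59 6291456 68719476737 36
    [] (by decide +kernel) (by decide +kernel)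

/-- A certificate. -/
noncomputable def c60 : Ct := (.str 19 (.nv (.thr 23 20 (.thr 31 27 (.thr 16 26 (.thr 25 28 (.dbl 17 18 29))))) (.nv (.thr 20 23 (.thr 28 25 (.thr 16 24 (.thr 26 31 (.dbl 18 17 30))))) (.rp 31 (.str 3 (.nv (.thr 23 20 (.thr 25 28 (.thr 29 17 (.thr 63 43 (.thr 12 46 (.thr 9 6 (.dbl 41 57 60))))))) (.nv (.thr 23 20 (.thr 25 28 (.thr 29 17 (.thr 51 35 (.thr 63 43 (.dbl 12 38 46)))))) (.nv (.thr 51 35 (.thr 60 41 (.thr 54 57 (.thr 38 6 (.dbl 25 12 28))))) (.rp 60 (.thr 25 28 (.thr 29 17 (.thr 51 35 (.thr 12 38 (.thr 63 46 (.dbl 23 20 43)))))) (.rp 51 (.thr 23 20 (.thr 28 25 (.thr 63 43 (.thr 60 41 (.thr 62 61 (.thr 12 44 (.thr 46 29 (.thr 30 14 (.thr 18 26 (.thr 17 16 (.thr 42 2 (.thr 38 34 (.dbl 6 9 54))))))))))))) (.rp 28 (.thr 23 20 (.thr 51 35 (.thr 63 43 (.thr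 55 59 (.thr 38 4 (.thr 6 54 (.dbl 12 9 25))))))) (.rp 25 (.thr 23 20 (.thr 51 35 (.thr 63 43 (.thr 55 59 (.thr 38 4 (.thr 54 6 (.dbl 60 41 57))))))) (.rp 12 (.thr 23 20 (.thr 51 35 (.thr 63 43 (.thr 55 59 (.thr 60 41 (.thr 54 57 (.dbl 38 4 6))))))) .nd))))))))) (.rp 28 (.str 60 (.nv (.thr 3 41 (.thr 23 20 (.thr 27 31 (.thr 51 35 (.thr 54 57 (.thr 38 6 (.thr 55 4 (.dbl 39 7 15)))))))) (.nv (.thr 3 41 (.thr 51 35 (.thr 54 57 (.thr 38 6 (.thr 55 4 (.thr 63 59 (.dbl 23 20 43))))))) (.nv (.thr 3 41 (.thr 23 20 (.thr 27 31 (.thr 43 63 (.thr 11 59 (.thr 15 7 (.dbl 51 35 39))))))) (.rp 55 (.thr 23 20 (.thr 27 31 (.thr 3 41 (.thr 51 35 (.thr 15 39 (.thr 11 7 (.dbl 43 59 63))))))) (.rp 51 (.thr 23 20 (.thr 31 27 (.thr 16 26 (.thr 17 18 (.thr 3 41 (.thr 63 43 (.thr 61 62 (.thr 15 47 (.thr 45 30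 (.dbl 29 13 25)))))))))) (.rp 45 (.thr 20 23 (.str 48 (.nv (.thr 52 56 (.thr 4 36 (.thr 38 55 (.thr 54 6 (.thr 51 57 (.dbl 3 35 41)))))) (.nv (.thr 41 3 (.thr 56 52 (.thr 26 11 (.thr 18 30 (.dbl 16 17 31))))) (.rp 56 (.thr 3 41 (.thr 33 18 (.thr 51 35 (.thr 49 50 (.thr 54 57 (.thr 38 6 (.thr 25 12 (.dbl 17 1 29)))))))) (.rp 52 (.thr 3 41 (.thr 33 18 (.thr 51 35 (.thr 49 50 (.thr 54 57 (.thr 38 6 (.thr 25 12 (.dbl 17 1 29)))))))) (.rp 41 (.str 33 (.nv (.thr 18 3 (.thr 26 30 (.dbl 16 17 31))) (.rp 63 (.thr 52 56 (.thr 3 18 (.thr 51 35 (.thr 54 57 (.thr 55 53 (.dbl 38 4 6)))))) (.rp 43 (.thr 52 56 (.thr 3 18 (.thr 51 35 (.thr 54 57 (.thr 55 53 (.dbl 38 4 6)))))) (.rp 31 (.thr 52 56 (.thr 3 18 (.thr 51 35 (.thr 54 57 (.thr 55 53 (.dbl 38 4 6)))))) (.rp 30 (.thr 52 56 (.thr 3 18 (.thr 51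 35 (.thr 54 57 (.thr 55 53 (.dbl 38 4 6)))))) (.rp 29 (.thr 18 3 (.thr 16 17 (.dbl 26 30 31))) (.rp 26 (.thr 3 18 (.thr 51 35 (.thr 54 57 (.thr 38 6 (.thr 55 4 (.dbl 52 53 56)))))) (.rp 18 (.thr 52 56 (.thr 4 36 (.thr 38 55 (.thr 54 6 (.thr 51 57 (.thr 49 50 (.thr 17 1 (.dbl 25 12 29)))))))) (.rp 17 (.thr 52 56 (.thr 3 18 (.thr 51 35 (.thr 54 57 (.thr 55 53 (.dbl 38 4 6)))))) (.rp 16 (.thr 52 56 (.thr 3 18 (.thr 51 35 (.thr 54 57 (.thr 55 53 (.dbl 38 4 6)))))) (.rp 3 (.thr 52 56 (.thr 4 36 (.thr 38 55 (.thr 54 6 (.thr 51 57 (.thr 50 49 (.thr 26 14 (.thr 16 31 (.dbl 18 17 30))))))))) (.rp 2 (.thr 52 56 (.thr 3 18 (.thr 51 35 (.thr 54 57 (.thr 55 53 (.dbl 38 4 6)))))) (.rp 1 (.thr 52 56 (.thr 3 18 (.thr 51 35 (.thr 54 57 (.thr 55 53 (.dbl 38 4 6)))))) .nd)))))))))))))) (.rp 7 (.thr 52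 56 (.thr 4 36 (.thr 3 41 (.thr 33 18 (.thr 51 35 (.thr 54 57 (.dbl 55 38 53))))))) (.rp 3 (.thr 52 56 (.thr 4 36 (.thr 38 55 (.thr 54 6 (.thr 51 57 (.thr 50 49 (.thr 26 14 (.thr 18 30 (.dbl 16 17 31))))))))) .nd))))))))) (.rp 41 (.str 51 (.nv (.thr 54 57 (.thr 23 20 (.thr 31 27 (.thr 16 26 (.thr 17 18 (.thr 25 29 (.dbl 38 6 12))))))) (.nv (.thr 54 57 (.thr 3 35 (.thr 38 6 (.thr 55 4 (.thr 63 59 (.dbl 23 20 43)))))) (.nv (.thr 3 35 (.thr 23 20 (.thr 27 31 (.thr 15 39 (.thr 43 63 (.dbl 11 7 59)))))) (.rp 45 (.str 33 (.nv (.thr 23 20 (.thr 31 27 (.thr 16 26 (.thr 18 17 (.dbl 3 35 48))))) (.nv (.thr 3 35 (.thr 54 57 (.thr 38 6 (.thr 55 4 (.thr 63 59 (.dbl 23 20 43)))))) (.nv (.thr 3 35 (.thr 18 48 (.thr 16 17 (.dbl 26 30 31)))) (.rp 35 (.thr 54 57 (.thr 23 20 (.thr 27 31 (.thr 38 6 (.thr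 55 4 (.dbl 39 7 15)))))) (.rp 3 (.thr 54 57 (.thr 23 20 (.thr 27 31 (.thr 38 6 (.thr 55 4 (.dbl 39 7 15)))))) .nd)))))) (.rp 38 (.thr 23 20 (.thr 27 31 (.thr 39 15 (.thr 55 7 (.thr 63 59 (.dbl 3 35 43)))))) (.rp 33 (.str 45 (.nv (.thr 15 30 (.thr 27 39 (.dbl 23 20 31))) (.nv (.thr 23 20 (.thr 30 15 (.thr 26 18 (.dbl 31 16 27)))) (.nv (.thr 23 20 (.thr 27 31 (.dbl 15 30 39))) (.rp 31 (.thr 54 57 (.thr 23 20 (.thr 38 6 (.thr 55 4 (.thr 63 59 (.dbl 3 35 43)))))) (.rp 30 (.thr 54 57 (.thr 23 20 (.thr 38 6 (.thr 55 4 (.thr 63 59 (.dbl 3 35 43)))))) (.rp 27 (.thr 54 57 (.thr 23 20 (.thr 38 6 (.thr 55 4 (.thr 63 59 (.dbl 3 35 43)))))) (.rp 23 (.thr 54 57 (.thr 30 15 (.thr 38 6 (.thr 25 12 (.thr 17 29 (.dbl 18 16 26)))))) (.rp 20 (.thr 54 57 (.thr 30 15 (.thr 38 6 (.thr 25 12 (.thr 17 29 (.dbl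 18 16 26)))))) (.rp 15 (.thr 54 57 (.thr 23 20 (.thr 38 6 (.thr 55 4 (.thr 63 59 (.dbl 3 35 43)))))) .nd)))))))))) (.rp 23 (.thr 54 57 (.thr 38 6 (.thr 55 4 (.thr 63 59 (.thr 62 61 (.thr 58 50 (.dbl 53 48 52))))))) (.rp 20 (.thr 54 57 (.thr 38 6 (.thr 55 4 (.thr 63 59 (.thr 62 61 (.thr 58 50 (.dbl 53 48 52))))))) .nd))))))))) (.rp 35 (.thr 23 20 (.thr 31 27 (.thr 16 26 (.thr 17 18 (.thr 25 29 (.thr 3 41 (.thr 63 43 (.thr 62 61 (.thr 42 2 (.thr 59 8 (.thr 51 55 (.thr 54 57 (.dbl 38 6 12))))))))))))) (.rp 33 (.str 30 (.nv (.thr 23 20 (.thr 31 27 (.dbl 26 16 18))) (.rp 45 (.thr 41 3 (.thr 23 20 (.thr 31 27 (.dbl 26 16 18)))) (.rp 41 (.thr 45 15 (.thr 23 20 (.thr 26 18 (.dbl 31 16 27)))) (.rp 31 (.thr 23 20 (.thr 45 15 (.thr 3 41 (.thr 51 35 (.thr 54 57 (.thr 38 6 (.thr 55 4 (.dbl 63 43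 59)))))))) (.rp 27 (.thr 23 20 (.thr 45 15 (.thr 3 41 (.thr 51 35 (.thr 54 57 (.thr 38 6 (.thr 55 4 (.dbl 63 43 59)))))))) (.rp 26 (.thr 23 20 (.thr 31 27 (.thr 15 45 (.thr 41 3 (.thr 63 47 (.dbl 61 1 62)))))) (.rp 24 (.thr 45 15 (.thr 3 41 (.thr 51 35 (.thr 54 57 (.thr 38 6 (.thr 55 4 (.thr 63 59 (.dbl 23 20 43)))))))) (.rp 23 (.thr 45 15 (.thr 3 41 (.thr 51 35 (.thr 54 57 (.thr 38 6 (.thr 25 12 (.thr 17 29 (.dbl 18 16 26)))))))) (.rp 20 (.thr 45 15 (.thr 3 41 (.thr 51 35 (.thr 54 57 (.thr 38 6 (.thr 25 12 (.thr 17 29 (.dbl 18 16 26)))))))) (.rp 18 (.thr 23 20 (.thr 45 15 (.thr 3 41 (.thr 51 35 (.thr 54 57 (.thr 38 6 (.thr 55 4 (.dbl 63 43 59)))))))) (.rp 16 (.thr 45 15 (.thr 3 41 (.thr 51 35 (.thr 54 57 (.thr 38 6 (.thr 55 4 (.thr 63 59 (.dbl 23 20 43)))))))) .nd)))))))))))) (.rp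 23 (.thr 3 41 (.thr 51 35 (.thr 54 57 (.thr 38 6 (.thr 55 4 (.thr 53 52 (.thr 63 59 (.thr 62 61 (.dbl 58 48 50))))))))) (.rp 20 (.thr 3 41 (.thr 51 35 (.thr 54 57 (.thr 38 6 (.thr 55 4 (.thr 63 59 (.thr 62 61 (.thr 58 50 (.dbl 53 48 52))))))))) (.rp 7 (.thr 23 20 (.thr 3 41 (.thr 51 35 (.thr 54 57 (.thr 38 6 (.thr 63 43 (.dbl 55 4 59))))))) (.rp 3 (.str 31 (.nv (.dbl 23 20 27) (.rp 27 (.str 54 (.nv (.thr 26 16 (.thr 18 30 (.thr 38 6 (.thr 50 14 (.thr 62 58 (.dbl 2 34 42)))))) (.nv (.thr 16 26 (.thr 17 18 (.thr 25 29 (.thr 51 57 (.dbl 38 6 12))))) (.rp 48 (.thr 51 57 (.thr 38 6 (.thr 55 4 (.thr 63 59 (.thr 15 47 (.thr 30 45 (.dbl 26 16 18))))))) (.rp 38 (.thr 26 16 (.thr 30 18 (.thr 15 45 (.thr 63 47 (.thr 62 61 (.thr 58 50 (.dbl 42 2 10))))))) (.rp 26 (.thr 51 57 (.thr 38 6 (.thr 55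 4 (.thr 53 52 (.thr 63 59 (.thr 62 61 (.dbl 58 48 50))))))) (.rp 24 (.thr 20 23 (.thr 26 16 (.thr 18 30 (.thr 38 6 (.thr 50 14 (.thr 62 58 (.dbl 2 34 42))))))) (.rp 18 (.thr 26 16 (.thr 51 57 (.thr 38 6 (.thr 55 4 (.thr 52 53 (.thr 48 56 (.dbl 50 14 49))))))) (.rp 16 (.thr 51 57 (.thr 38 6 (.thr 55 4 (.thr 53 52 (.thr 63 59 (.thr 62 61 (.dbl 58 48 50))))))) (.rp 12 (.thr 26 16 (.thr 30 18 (.thr 51 57 (.thr 15 45 (.thr 63 47 (.thr 55 59 (.dbl 38 4 6))))))) (.rp 6 (.thr 26 16 (.thr 30 18 (.thr 15 45 (.thr 63 47 (.thr 62 61 (.thr 50 58 (.dbl 14 38 46))))))) (.rp 2 (.str 1 (.nv (.thr 26 16 (.thr 30 18 (.thr 15 45 (.thr 63 47 (.dbl 61 41 62))))) (.nv (.thr 38 6 (.thr 51 57 (.thr 55 4 (.thr 63 59 (.dbl 61 41 62))))) (.nv (.thr 16 26 (.thr 17 18 (.thr 25 29 (.thr 51 57 (.dbl 38 6 12))))) .nd))))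 (.rp 1 (.str 2 (.nv (.thr 26 16 (.thr 18 30 (.thr 62 42 (.dbl 50 34 58)))) (.nv (.thr 16 26 (.thr 17 18 (.thr 25 29 (.thr 38 6 (.dbl 51 12 57))))) (.nv (.thr 6 38 (.thr 42 62 (.thr 10 14 (.dbl 26 16 58)))) (.rp 26 (.thr 51 57 (.thr 62 42 (.thr 63 61 (.thr 55 59 (.dbl 38 4 6))))) (.rp 16 (.thr 51 57 (.thr 62 42 (.thr 63 61 (.thr 55 59 (.dbl 38 4 6))))) .nd)))))) .nd))))))))))))) (.rp 23 (.str 63 (.nv (.thr 15 47 (.thr 30 45 (.dbl 26 16 18))) (.nv (.thr 26 16 (.thr 30 18 (.dbl 15 45 47))) (.rp 47 (.thr 26 16 (.thr 30 18 (.thr 62 61 (.thr 14 46 (.thr 50 38 (.thr 58 54 (.dbl 42 2 10))))))) (.rp 45 (.thr 26 16 (.thr 30 18 (.thr 62 61 (.thr 14 46 (.thr 50 38 (.thr 58 54 (.dbl 42 2 10))))))) (.rp 33 (.thr 26 16 (.thr 15 47 (.dbl 30 18 45))) (.rp 32 (.thr 16 26 (.thr 17 18 (.thr 29 25 (.thr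 61 62 (.thr 13 45 (.thr 12 46 (.dbl 15 14 47))))))) (.rp 30 (.thr 16 26 (.thr 17 18 (.thr 29 25 (.thr 61 62 (.thr 13 45 (.thr 15 47 (.dbl 12 14 46))))))) (.rp 26 (.thr 61 62 (.str 53 (.nv (.thr 48 58 (.thr 52 56 (.thr 54 55 (.dbl 57 49 51)))) (.nv (.thr 15 47 (.thr 45 30 (.thr 29 13 (.thr 17 25 (.thr 49 57 (.dbl 1 33 41)))))) (.nv (.thr 57 49 (.thr 51 54 (.thr 59 55 (.dbl 58 48 56)))) (.rp 57 (.str 55 (.nv (.thr 15 47 (.thr 38 4 (.dbl 54 6 52))) (.nv (.thr 52 54 (.dbl 48 56 58)) (.rp 54 (.thr 51 59 (.thr 38 4 (.thr 12 25 (.thr 15 47 (.thr 13 14 (.dbl 29 45 46)))))) (.rp 52 (.thr 51 59 (.thr 38 4 (.thr 12 25 (.thr 15 47 (.thr 13 14 (.dbl 29 45 46)))))) (.rp 15 (.thr 48 58 (.dbl 52 54 56)) (.rp 2 (.thr 1 41 (.thr 52 54 (.dbl 48 56 58))) (.rp 1 (.str 2 (.nv (.thr 48 58 (.dbl 52 54 56))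 (.nv (.thr 54 52 (.dbl 38 4 6)) (.rp 54 (.thr 51 59 (.thr 38 4 (.thr 12 25 (.thr 29 46 (.thr 15 47 (.dbl 13 14 45)))))) (.rp 52 (.thr 51 59 (.thr 38 4 (.thr 6 54 (.thr 14 10 (.thr 12 25 (.dbl 15 13 47)))))) (.rp 48 (.thr 15 47 (.thr 54 52 (.dbl 38 4 6))) .nd)))))) .nd)))))))) (.rp 49 (.thr 48 58 (.thr 52 56 (.thr 54 55 (.thr 38 6 (.thr 15 47 (.thr 45 30 (.thr 29 13 (.thr 25 17 (.dbl 51 12 57))))))))) (.rp 2 (.thr 1 41 (.thr 57 49 (.thr 54 51 (.thr 55 52 (.dbl 38 4 6))))) (.rp 1 (.str 2 (.nv (.thr 15 47 (.thr 57 49 (.thr 51 54 (.thr 58 48 (.dbl 59 55 56))))) (.nv (.thr 57 49 (.thr 54 51 (.thr 38 6 (.dbl 55 4 52)))) (.nv (.thr 48 58 (.thr 52 56 (.thr 54 55 (.dbl 57 49 51)))) (.rp 57 (.thr 15 47 (.thr 45 30 (.thr 13 29 (.thr 14 12 (.thr 6 10 (.thr 54 38 (.thr 52 55 (.dbl 48 56 58))))))))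 (.rp 55 (.thr 57 49 (.thr 54 51 (.thr 6 38 (.thr 14 10 (.thr 15 47 (.thr 45 30 (.dbl 13 12 29))))))) (.rp 54 (.thr 49 57 (.thr 48 58 (.thr 50 51 (.thr 18 34 (.thr 17 16 (.thr 29 25 (.thr 15 47 (.dbl 45 13 30)))))))) (.rp 51 (.thr 48 58 (.thr 52 56 (.thr 54 55 (.thr 6 38 (.thr 15 47 (.thr 45 30 (.thr 13 29 (.dbl 14 10 12)))))))) (.rp 49 (.thr 48 58 (.thr 52 56 (.thr 54 55 (.thr 6 38 (.thr 15 47 (.thr 45 30 (.thr 13 29 (.dbl 14 10 12)))))))) (.rp 48 (.thr 15 47 (.thr 57 49 (.thr 45 30 (.thr 13 29 (.thr 14 12 (.thr 6 10 (.dbl 54 38 51))))))) .nd)))))))))) .nd))))))))) (.rp 18 (.thr 26 16 (.thr 61 62 (.thr 15 47 (.thr 45 30 (.thr 13 29 (.thr 14 12 (.thr 38 50 (.thr 4 55 (.thr 1 41 (.thr 5 9 (.dbl 6 7 54))))))))))) (.rp 16 (.thr 61 62 (.str 48 (.nv (.thr 1 41 (.thr 53 58 (.thr 57 49 (.thr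 54 51 (.thr 38 6 (.dbl 55 4 52)))))) (.nv (.thr 15 47 (.thr 30 45 (.thr 26 18 (.thr 56 52 (.dbl 41 1 11))))) (.nv (.thr 53 58 (.thr 57 49 (.thr 52 56 (.dbl 54 51 55)))) (.rp 52 (.thr 53 58 (.thr 57 49 (.thr 15 47 (.thr 45 30 (.thr 29 13 (.thr 25 17 (.dbl 41 1 9))))))) (.rp 24 (.str 20 (.nv (.thr 1 41 (.thr 53 58 (.thr 57 49 (.thr 54 51 (.thr 38 6 (.dbl 55 4 52)))))) (.nv (.thr 15 47 (.thr 30 45 (.thr 26 18 (.thr 56 52 (.dbl 41 1 11))))) (.nv (.thr 52 56 (.thr 53 58 (.thr 54 55 (.dbl 57 49 51)))) (.rp 52 (.thr 53 58 (.thr 49 57 (.thr 15 47 (.thr 45 30 (.thr 29 13 (.thr 17 25 (.dbl 1 33 41))))))) (.rp 1 (.str 2 (.nv (.thr 52 56 (.thr 4 36 (.thr 53 58 (.dbl 55 38 54)))) (.nv (.thr 15 47 (.thr 30 45 (.thr 18 26 (.thr 50 34 (.thr 53 58 (.dbl 49 51 57)))))) (.nv (.thr 52 56 (.thr 53 58 (.thr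 54 55 (.dbl 57 49 51)))) (.rp 58 (.thr 52 56 (.thr 4 36 (.thr 38 55 (.thr 15 47 (.thr 45 30 (.thr 29 13 (.thr 25 17 (.dbl 12 46 51)))))))) (.rp 57 (.thr 52 56 (.thr 4 36 (.thr 38 55 (.thr 6 54 (.thr 14 10 (.thr 15 47 (.thr 13 12 (.dbl 45 29 30)))))))) (.rp 53 (.thr 52 56 (.thr 4 36 (.thr 38 55 (.thr 54 6 (.thr 51 57 (.thr 50 49 (.thr 18 34 (.dbl 26 14 30)))))))) .nd))))))) .nd)))))) (.rp 20 (.str 24 (.nv (.thr 1 41 (.thr 15 47 (.thr 45 30 (.thr 13 29 (.dbl 12 14 36))))) (.nv (.thr 52 56 (.thr 53 58 (.thr 54 55 (.dbl 57 49 51)))) (.rp 1 (.str 2 (.nv (.thr 15 47 (.thr 45 30 (.thr 13 29 (.dbl 12 14 36)))) (.nv (.thr 52 56 (.thr 53 58 (.thr 54 55 (.dbl 57 49 51)))) .nd))) .nd)))) (.rp 1 (.str 2 (.nv (.thr 15 47 (.thr 30 45 (.thr 18 26 (.thr 50 34 (.thr 53 58 (.dbl 49 51 57)))))) (.nv (.thr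 52 56 (.thr 53 58 (.thr 54 55 (.dbl 57 49 51)))) (.rp 58 (.thr 15 47 (.thr 30 45 (.thr 18 26 (.thr 50 34 (.thr 51 49 (.thr 55 59 (.thr 38 4 (.dbl 54 6 57)))))))) (.rp 57 (.thr 52 56 (.thr 15 47 (.thr 45 30 (.thr 13 29 (.thr 14 12 (.thr 6 10 (.thr 54 38 (.dbl 53 55 58)))))))) (.rp 53 (.thr 15 47 (.thr 30 45 (.thr 18 26 (.thr 50 34 (.thr 51 49 (.thr 55 59 (.thr 54 57 (.dbl 38 4 6)))))))) (.rp 51 (.thr 52 56 (.thr 53 58 (.thr 54 55 (.thr 6 38 (.thr 14 10 (.thr 15 47 (.thr 45 30 (.dbl 13 12 29)))))))) (.rp 49 (.thr 52 56 (.thr 53 58 (.thr 54 55 (.thr 6 38 (.thr 14 10 (.thr 15 47 (.thr 13 12 (.dbl 45 29 30)))))))) (.rp 24 (.str 20 (.nv (.thr 52 56 (.thr 4 36 (.thr 53 58 (.dbl 55 38 54)))) (.nv (.thr 15 47 (.thr 30 45 (.thr 18 26 (.thr 50 34 (.thr 53 58 (.dbl 49 51 57)))))) (.nv (.thr 52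 56 (.thr 53 58 (.thr 54 55 (.dbl 57 49 51)))) (.rp 58 (.thr 52 56 (.thr 4 36 (.thr 38 55 (.thr 15 47 (.thr 45 30 (.thr 29 13 (.thr 25 17 (.dbl 12 46 51)))))))) (.rp 57 (.thr 52 56 (.thr 4 36 (.thr 38 55 (.thr 6 54 (.thr 14 10 (.thr 15 47 (.thr 13 12 (.dbl 45 29 30)))))))) (.rp 53 (.thr 52 56 (.thr 4 36 (.thr 38 55 (.thr 54 6 (.thr 51 57 (.thr 50 49 (.thr 18 34 (.dbl 26 14 30)))))))) .nd))))))) (.rp 20 (.str 24 (.nv (.thr 15 47 (.thr 45 30 (.thr 13 29 (.dbl 12 14 36)))) (.nv (.thr 52 56 (.thr 53 58 (.thr 54 55 (.dbl 57 49 51)))) .nd))) .nd)))))))))) .nd))))))))) (.rp 15 (.thr 26 16 (.thr 30 18 (.thr 62 61 (.thr 14 46 (.thr 50 38 (.thr 58 54 (.dbl 42 2 10))))))) (.rp 2 (.str 1 (.nv (.thr 15 47 (.thr 26 16 (.dbl 30 18 45))) (.nv (.dbl 61 41 62) .nd))) (.rp 1 (.str 2 (.nv (.thr 26 16 (.thr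 30 18 (.dbl 15 45 47))) (.nv (.dbl 62 42 61) .nd))) .nd)))))))))))))) (.rp 20 (.thr 27 23 (.thr 26 16 (.thr 24 25 (.thr 30 18 (.thr 15 45 (.thr 51 39 (.thr 54 57 (.thr 38 6 (.thr 55 4 (.dbl 63 47 59)))))))))) (.rp 2 (.str 1 (.nv (.dbl 23 20 27) (.rp 27 (.thr 26 16 (.thr 30 18 (.thr 61 41 (.thr 63 62 (.dbl 15 45 47))))) (.rp 23 (.thr 26 16 (.thr 30 18 (.thr 61 41 (.thr 63 62 (.dbl 15 45 47))))) (.rp 20 (.thr 27 23 (.thr 26 16 (.thr 24 25 (.thr 30 18 (.thr 61 41 (.thr 63 62 (.dbl 15 45 47))))))) .nd))))) (.rp 1 (.str 2 (.nv (.dbl 23 20 27) (.rp 27 (.thr 26 16 (.thr 30 18 (.thr 62 42 (.thr 63 61 (.dbl 15 45 47))))) (.rp 23 (.thr 26 16 (.thr 30 18 (.thr 62 42 (.thr 63 61 (.dbl 15 45 47))))) (.rp 20 (.thr 27 23 (.thr 26 16 (.thr 24 25 (.thr 30 18 (.thr 62 42 (.thr 63 61 (.dbl 15 45 47)))))))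 .nd))))) .nd))))))) .nd)))))))))))))) (.rp 26 (.str 3 (.nv (.thr 20 23 (.thr 25 28 (.thr 17 29 (.thr 18 16 (.thr 41 60 (.thr 1 61 (.dbl 33 48 49))))))) (.nv (.thr 23 20 (.thr 27 31 (.thr 51 35 (.thr 63 43 (.thr 55 59 (.dbl 39 7 15)))))) (.nv (.thr 25 28 (.thr 41 60 (.thr 9 57 (.thr 51 35 (.dbl 12 6 38))))) (.rp 60 (.thr 25 28 (.thr 29 17 (.thr 51 35 (.thr 12 38 (.thr 63 46 (.dbl 23 20 43)))))) (.rp 48 (.str 15 (.nv (.thr 7 11 (.thr 23 20 (.thr 35 51 (.thr 39 55 (.dbl 43 47 63))))) (.nv (.thr 23 20 (.thr 60 41 (.thr 31 27 (.dbl 63 43 47)))) (.nv (.thr 23 20 (.thr 27 31 (.dbl 51 35 39))) (.rp 60 (.thr 51 35 (.thr 27 39 (.dbl 23 20 31))) (.rp 32 (.str 16 (.nv (.thr 17 18 (.dbl 25 28 29)) (.nv (.thr 23 20 (.thr 27 31 (.dbl 51 35 39))) (.nv (.thr 20 23 (.dbl 28 24 25)) (.rp 47 (.str 42 (.nv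 (.thr 23 20 (.thr 27 31 (.dbl 51 35 39))) (.nv (.thr 25 28 (.dbl 17 18 29)) .nd))) (.rp 42 (.str 47 (.nv (.thr 23 20 (.dbl 31 27 63)) (.nv (.thr 25 28 (.dbl 17 18 29)) (.rp 58 (.str 10 (.nv (.thr 25 28 (.dbl 17 18 29)) (.nv (.thr 63 31 (.dbl 23 20 43)) (.rp 63 (.str 53 (.nv (.thr 23 20 (.thr 27 31 (.dbl 51 35 39))) (.nv (.thr 17 18 (.dbl 25 28 29)) .nd))) .nd)))) (.rp 10 (.str 58 (.nv (.thr 17 18 (.dbl 25 28 29)) (.nv (.thr 31 63 (.dbl 23 20 27)) .nd))) .nd))))) .nd)))))) (.rp 23 (.thr 25 28 (.thr 51 35 (.thr 12 38 (.thr 9 6 (.dbl 41 57 60))))) (.rp 20 (.thr 25 28 (.thr 51 35 (.thr 12 38 (.thr 9 6 (.dbl 41 57 60))))) (.rp 16 (.str 32 (.nv (.thr 7 11 (.thr 23 20 (.thr 35 51 (.thr 39 55 (.dbl 43 47 63))))) (.nv (.thr 23 20 (.thr 31 27 (.dbl 63 43 47))) (.nv (.thr 51 35 (.thr 27 39 (.dbl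 23 20 31))) (.nv (.thr 23 20 (.thr 27 31 (.dbl 51 35 39))) (.rp 23 (.thr 25 28 (.thr 51 35 (.thr 12 38 (.thr 9 6 (.dbl 41 57 60))))) (.rp 20 (.thr 11 7 (.thr 51 35 (.thr 27 39 (.thr 23 31 (.dbl 43 59 63))))) .nd))))))) .nd))))))))) (.rp 20 (.thr 25 28 (.thr 51 35 (.thr 12 38 (.thr 9 6 (.dbl 41 57 60))))) (.rp 15 (.str 48 (.nv (.thr 25 28 (.thr 17 29 (.thr 33 18 (.thr 49 1 (.dbl 51 35 50))))) (.nv (.thr 20 23 (.thr 28 25 (.thr 24 16 (.thr 12 36 (.dbl 60 41 44))))) (.nv (.thr 18 33 (.thr 17 16 (.dbl 25 28 29))) (.rp 28 (.thr 33 18 (.thr 51 35 (.thr 49 50 (.thr 1 17 (.dbl 41 60 61))))) (.rp 25 (.thr 33 18 (.thr 51 35 (.thr 49 50 (.thr 1 17 (.dbl 41 60 61))))) (.rp 10 (.str 5 (.nv (.thr 25 28 (.thr 17 29 (.dbl 18 16 33))) (.nv (.thr 25 28 (.thr 41 60 (.thr 1 61 (.dbl 9 13 57)))) (.nv (.thr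 18 33 (.thr 17 16 (.dbl 25 28 29))) (.rp 58 (.str 42 (.nv (.thr 23 20 (.thr 43 63 (.dbl 41 40 60))) (.nv (.thr 18 33 (.thr 17 16 (.dbl 25 28 29))) (.rp 41 (.thr 25 28 (.thr 17 29 (.dbl 18 16 33))) .nd)))) (.rp 42 (.str 58 (.nv (.thr 18 33 (.thr 17 16 (.dbl 25 28 29))) (.nv (.thr 63 53 (.dbl 23 20 43)) (.rp 47 (.str 32 (.nv (.thr 33 18 (.dbl 35 34 51)) (.nv (.thr 63 53 (.dbl 23 20 43)) (.rp 63 (.str 31 (.nv (.thr 33 18 (.dbl 35 34 51)) (.nv (.dbl 23 20 27) .nd))) .nd)))) (.rp 32 (.str 47 (.nv (.thr 18 33 (.thr 17 16 (.dbl 25 28 29))) (.nv (.thr 63 53 (.dbl 23 20 43)) .nd))) .nd))))) (.rp 28 (.thr 33 18 (.thr 51 35 (.thr 49 50 (.thr 1 17 (.dbl 41 60 61))))) (.rp 25 (.thr 33 18 (.thr 51 35 (.thr 49 50 (.thr 1 17 (.dbl 41 60 61))))) .nd)))))))) (.rp 5 (.str 10 (.nv (.thr 25 28 (.thr 17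 29 (.thr 33 18 (.thr 49 1 (.dbl 51 35 50))))) (.nv (.thr 20 23 (.thr 28 25 (.thr 24 16 (.thr 12 36 (.dbl 60 41 44))))) (.nv (.thr 18 33 (.thr 17 16 (.dbl 25 28 29))) (.rp 28 (.thr 51 35 (.thr 33 18 (.thr 49 50 (.thr 1 17 (.dbl 41 60 61))))) (.rp 25 (.thr 51 35 (.thr 33 18 (.thr 49 50 (.thr 1 17 (.dbl 41 60 61))))) .nd)))))) .nd)))))))) .nd)))))))) (.rp 25 (.thr 23 20 (.str 3 (.nv (.thr 51 35 (.thr 60 41 (.thr 63 43 (.thr 55 59 (.thr 38 4 (.dbl 54 6 57)))))) (.nv (.thr 27 31 (.thr 51 35 (.thr 39 15 (.thr 55 7 (.thr 38 4 (.thr 60 41 (.dbl 54 6 57))))))) (.nv (.thr 31 27 (.thr 26 16 (.thr 30 18 (.thr 60 41 (.thr 63 43 (.dbl 15 45 47)))))) (.nv (.thr 27 31 (.thr 51 35 (.thr 15 39 (.thr 43 63 (.dbl 11 7 59))))) (.rp 63 (.thr 31 27 (.thr 26 16 (.thr 30 18 (.thr 28 29 (.thr 51 35 (.thr 60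 41 (.thr 45 15 (.thr 44 12 (.thr 46 47 (.thr 14 62 (.thr 38 50 (.dbl 54 6 57)))))))))))) (.rp 60 (.str 40 (.nv (.thr 35 51 (.thr 43 63 (.thr 41 42 (.thr 38 44 (.thr 55 4 (.dbl 39 7 47)))))) (.nv (.thr 27 31 (.thr 51 35 (.thr 15 39 (.thr 43 63 (.dbl 11 7 59))))) (.nv (.thr 51 35 (.thr 27 31 (.thr 63 43 (.thr 55 59 (.dbl 39 7 15))))) (.rp 63 (.str 62 (.nv (.thr 31 27 (.thr 26 16 (.thr 30 18 (.thr 14 46 (.thr 38 50 (.thr 6 54 (.dbl 2 10 42))))))) (.nv (.thr 51 35 (.thr 42 2 (.thr 27 31 (.thr 15 39 (.thr 11 7 (.dbl 43 41 59)))))) (.rp 51 (.thr 31 27 (.thr 26 16 (.thr 30 18 (.thr 42 2 (.thr 58 10 (.thr 14 46 (.dbl 50 38 54))))))) (.rp 49 (.str 13 (.nv (.thr 31 27 (.thr 26 16 (.thr 30 18 (.thr 42 2 (.thr 41 43 (.thr 61 1 (.dbl 29 28 45))))))) (.nv (.thr 35 51 (.thr 42 2 (.thr 41 43 (.thr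 1 61 (.thr 9 5 (.thr 6 12 (.dbl 38 44 54))))))) (.nv (.thr 31 27 (.thr 26 16 (.thr 30 18 (.thr 14 46 (.thr 12 15 (.thr 6 9 (.dbl 38 50 54))))))) (.nv (.thr 31 27 (.thr 26 16 (.thr 30 18 (.thr 14 46 (.thr 38 50 (.thr 6 54 (.dbl 2 10 42))))))) (.nv (.thr 27 31 (.thr 51 35 (.thr 15 39 (.thr 11 7 (.thr 43 59 (.dbl 42 2 41)))))) .nd)))))) (.rp 42 (.thr 31 27 (.thr 26 16 (.thr 30 18 (.thr 35 51 (.thr 14 46 (.thr 38 50 (.thr 41 44 (.thr 55 4 (.thr 11 56 (.dbl 7 15 39)))))))))) (.rp 38 (.thr 27 31 (.thr 42 2 (.thr 43 41 (.thr 11 59 (.thr 15 7 (.dbl 51 35 39)))))) (.rp 31 (.thr 35 51 (.thr 42 2 (.thr 41 43 (.thr 38 44 (.thr 54 6 (.thr 50 58 (.thr 14 26 (.dbl 46 30 34)))))))) (.rp 27 (.thr 35 51 (.thr 42 2 (.thr 41 43 (.thr 38 44 (.thr 34 46 (.thr 33 32 (.thr 18 48 (.thr 16 17 (.dbl 26 30 31)))))))))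 (.rp 13 (.str 49 (.nv (.thr 42 2 (.thr 41 43 (.thr 1 61 (.thr 33 17 (.thr 48 18 (.dbl 51 35 50)))))) (.nv (.thr 31 27 (.thr 42 2 (.thr 41 43 (.thr 1 61 (.thr 17 33 (.dbl 16 18 26)))))) (.nv (.thr 27 31 (.thr 42 2 (.thr 51 35 (.thr 15 39 (.thr 11 7 (.dbl 43 41 59)))))) (.nv (.thr 31 27 (.thr 51 35 (.thr 26 16 (.thr 48 50 (.dbl 18 30 33))))) .nd))))) (.rp 2 (.thr 31 27 (.thr 26 16 (.thr 30 18 (.thr 51 35 (.thr 14 46 (.thr 50 38 (.thr 58 54 (.thr 42 10 (.thr 41 43 (.thr 61 1 (.thr 11 56 (.thr 15 7 (.thr 13 12 (.dbl 29 28 45)))))))))))))) .nd))))))))))) (.rp 59 (.thr 43 63 (.thr 42 41 (.thr 62 2 (.thr 31 27 (.thr 26 16 (.thr 58 10 (.thr 50 54 (.thr 30 18 (.dbl 14 38 46))))))))) (.rp 51 (.thr 43 63 (.thr 42 41 (.thr 62 2 (.thr 31 27 (.thr 26 16 (.thr 58 10 (.thr 30 18 (.thr 14 46 (.dbl 50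 38 54))))))))) (.rp 49 (.str 13 (.nv (.thr 35 51 (.thr 43 63 (.thr 41 42 (.thr 38 44 (.thr 55 4 (.dbl 39 7 47)))))) (.nv (.thr 27 31 (.thr 51 35 (.thr 15 39 (.thr 43 63 (.dbl 11 7 59))))) (.nv (.thr 31 27 (.thr 26 16 (.thr 30 18 (.thr 43 63 (.thr 41 42 (.thr 61 1 (.dbl 29 28 45))))))) (.nv (.thr 27 31 (.thr 63 43 (.thr 51 35 (.thr 55 59 (.dbl 39 7 15))))) (.rp 63 (.thr 27 31 (.thr 51 35 (.thr 15 39 (.thr 12 14 (.thr 6 9 (.thr 7 11 (.thr 4 5 (.dbl 38 54 55)))))))) (.rp 59 (.thr 27 31 (.thr 43 63 (.thr 51 35 (.thr 15 39 (.thr 12 14 (.thr 9 6 (.thr 1 5 (.dbl 41 42 61)))))))) (.rp 43 (.str 12 (.nv (.thr 6 9 (.thr 15 14 (.thr 7 11 (.thr 4 5 (.dbl 38 54 55))))) (.nv (.thr 15 14 (.thr 27 31 (.dbl 51 35 39))) (.rp 27 (.thr 15 14 (.thr 6 9 (.thr 38 54 (.thr 4 55 (.dbl 7 5 11))))) (.rp 15 (.thr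 6 9 (.thr 31 27 (.thr 26 16 (.thr 30 18 (.thr 38 54 (.thr 14 50 (.thr 62 46 (.dbl 2 10 42)))))))) (.rp 14 (.thr 6 9 (.thr 27 31 (.thr 38 54 (.thr 55 4 (.thr 39 7 (.dbl 51 15 35)))))) .nd)))))) .nd)))))))) (.rp 43 (.str 18 (.nv (.thr 26 30 (.dbl 31 16 27)) (.nv (.thr 16 17 (.dbl 26 30 31)) (.rp 49 (.str 13 (.nv (.thr 16 17 (.dbl 31 26 27)) (.nv (.thr 26 30 (.dbl 16 17 31)) (.rp 31 (.str 12 (.nv (.thr 6 9 (.thr 14 15 (.thr 38 54 (.dbl 26 30 50)))) (.nv (.thr 15 14 (.thr 7 11 (.thr 39 55 (.dbl 51 27 35)))) (.rp 51 (.thr 15 14 (.thr 6 9 (.thr 7 11 (.thr 4 5 (.dbl 38 54 55))))) (.rp 15 (.thr 6 9 (.thr 48 33 (.thr 36 24 (.thr 44 32 (.thr 38 54 (.dbl 35 41 51)))))) (.rp 14 (.thr 6 9 (.thr 48 33 (.thr 36 24 (.thr 44 32 (.thr 38 54 (.dbl 35 41 51)))))) .nd)))))) (.rp 26 (.thr 27 31 (.thr 48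 33 (.thr 51 35 (.thr 39 15 (.thr 55 7 (.thr 38 4 (.thr 63 59 (.thr 53 58 (.dbl 54 6 52))))))))) (.rp 17 (.thr 26 30 (.dbl 31 16 27)) (.rp 16 (.thr 27 31 (.thr 48 33 (.thr 51 35 (.thr 39 15 (.thr 55 7 (.thr 38 4 (.thr 63 59 (.thr 53 58 (.dbl 54 6 52))))))))) .nd))))))) (.rp 31 (.thr 16 17 (.thr 33 48 (.thr 35 51 (.thr 34 32 (.thr 50 2 (.thr 26 30 (.thr 38 14 (.thr 55 4 (.thr 7 39 (.thr 41 44 (.dbl 11 15 56))))))))))) (.rp 30 (.thr 16 17 (.dbl 31 26 27)) (.rp 26 (.thr 48 33 (.thr 51 35 (.thr 27 31 (.thr 39 15 (.thr 55 7 (.thr 38 4 (.thr 63 59 (.thr 53 58 (.dbl 54 6 52))))))))) (.rp 16 (.thr 48 33 (.thr 51 35 (.thr 27 31 (.thr 39 15 (.thr 55 7 (.thr 38 4 (.thr 63 59 (.thr 53 58 (.dbl 54 6 52))))))))) (.rp 13 (.str 49 (.nv (.thr 48 33 (.dbl 51 35 50)) (.nv (.thr 16 17 (.dbl 26 30 31)) (.rp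 51 (.thr 17 16 (.dbl 33 1 48)) .nd)))) .nd))))))))) (.rp 39 (.thr 43 63 (.thr 42 41 (.thr 62 2 (.thr 31 27 (.thr 26 16 (.thr 58 10 (.thr 50 54 (.thr 30 18 (.dbl 14 38 46))))))))) (.rp 35 (.thr 43 63 (.thr 42 41 (.thr 62 2 (.thr 31 27 (.thr 26 16 (.thr 58 10 (.thr 50 54 (.thr 30 18 (.dbl 14 38 46))))))))) (.rp 13 (.str 49 (.nv (.thr 35 51 (.thr 43 63 (.thr 41 42 (.thr 38 44 (.thr 55 4 (.dbl 39 7 47)))))) (.nv (.thr 31 27 (.thr 51 35 (.thr 26 16 (.thr 48 50 (.dbl 18 30 33))))) (.rp 51 (.thr 43 63 (.thr 42 41 (.thr 62 2 (.thr 31 27 (.thr 26 16 (.thr 58 10 (.thr 30 18 (.thr 14 46 (.dbl 50 38 54))))))))) (.rp 35 (.thr 43 63 (.thr 42 41 (.thr 62 2 (.thr 31 27 (.thr 26 16 (.thr 58 10 (.thr 50 54 (.thr 18 30 (.dbl 48 33 51))))))))) (.rp 28 (.thr 51 35 (.thr 48 50 (.thr 18 33 (.thr 16 17 (.dbl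 26 30 31))))) .nd)))))) (.rp 7 (.thr 43 63 (.thr 42 41 (.thr 62 2 (.thr 31 27 (.thr 26 16 (.thr 58 10 (.thr 50 54 (.thr 30 18 (.dbl 14 38 46))))))))) .nd))))))))))))) (.rp 49 (.str 13 (.nv (.thr 51 35 (.thr 60 41 (.thr 63 43 (.thr 55 59 (.thr 38 4 (.dbl 54 6 57)))))) (.nv (.thr 31 27 (.thr 26 16 (.thr 30 18 (.thr 60 41 (.thr 63 43 (.dbl 15 45 47)))))) (.nv (.thr 60 41 (.thr 31 27 (.thr 26 16 (.thr 30 18 (.thr 45 15 (.dbl 29 28 61)))))) (.nv (.thr 27 31 (.thr 51 35 (.thr 15 39 (.thr 43 63 (.dbl 11 7 59))))) (.rp 60 (.str 40 (.nv (.thr 35 51 (.thr 43 63 (.thr 41 42 (.thr 38 44 (.thr 55 4 (.dbl 39 7 47)))))) (.nv (.thr 27 31 (.thr 51 35 (.thr 15 39 (.thr 43 63 (.dbl 11 7 59))))) (.nv (.thr 31 27 (.thr 26 16 (.thr 30 18 (.thr 43 63 (.thr 41 42 (.thr 61 1 (.dbl 29 28 45))))))) (.nv (.thr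 27 31 (.thr 63 43 (.thr 51 35 (.thr 55 59 (.dbl 39 7 15))))) (.rp 63 (.thr 27 31 (.thr 51 35 (.thr 15 39 (.thr 12 14 (.thr 6 9 (.thr 7 11 (.thr 4 5 (.dbl 38 54 55)))))))) (.rp 59 (.thr 27 31 (.thr 43 63 (.thr 51 35 (.thr 15 39 (.thr 12 14 (.thr 9 6 (.thr 1 5 (.dbl 41 42 61)))))))) (.rp 43 (.str 12 (.nv (.thr 6 9 (.thr 15 14 (.thr 7 11 (.thr 4 5 (.dbl 38 54 55))))) (.nv (.thr 15 14 (.thr 27 31 (.dbl 51 35 39))) (.rp 27 (.thr 15 14 (.thr 6 9 (.thr 38 54 (.thr 4 55 (.dbl 7 5 11))))) (.rp 15 (.thr 6 9 (.thr 31 27 (.thr 26 16 (.thr 30 18 (.thr 38 54 (.thr 14 50 (.thr 62 46 (.dbl 2 10 42)))))))) (.rp 14 (.thr 6 9 (.thr 27 31 (.thr 38 54 (.thr 55 4 (.thr 39 7 (.dbl 51 15 35)))))) .nd)))))) .nd)))))))) (.rp 27 (.thr 35 51 (.thr 43 63 (.thr 39 47 (.thr 55 7 (.thr 38 4 (.dbl 41 44 60)))))) .nd)))))))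 (.rp 40 (.thr 60 41 (.thr 27 31 (.thr 51 35 (.thr 15 39 (.thr 11 7 (.dbl 43 59 63)))))) (.rp 27 (.thr 35 51 (.thr 43 63 (.thr 39 47 (.thr 55 7 (.thr 38 4 (.dbl 41 44 60)))))) (.rp 13 (.str 49 (.nv (.thr 31 27 (.thr 26 16 (.thr 30 18 (.thr 60 41 (.thr 63 43 (.dbl 15 45 47)))))) (.nv (.thr 27 31 (.thr 51 35 (.thr 15 39 (.thr 11 7 (.dbl 43 59 63))))) (.nv (.thr 51 35 (.thr 48 50 (.thr 33 18 (.thr 1 17 (.dbl 41 60 61))))) (.rp 60 (.str 40 (.nv (.thr 35 51 (.thr 43 63 (.thr 41 42 (.thr 38 44 (.thr 55 4 (.dbl 39 7 47)))))) (.nv (.thr 31 27 (.thr 51 35 (.thr 26 16 (.thr 48 50 (.dbl 18 30 33))))) (.rp 51 (.thr 43 63 (.thr 42 41 (.thr 62 2 (.thr 31 27 (.thr 26 16 (.thr 58 10 (.thr 30 18 (.thr 14 46 (.dbl 50 38 54))))))))) (.rp 35 (.thr 43 63 (.thr 42 41 (.thr 62 2 (.thr 31 27 (.thr 26 16 (.thr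 58 10 (.thr 50 54 (.thr 18 30 (.dbl 48 33 51))))))))) (.rp 28 (.thr 51 35 (.thr 48 50 (.thr 18 33 (.thr 16 17 (.dbl 26 30 31))))) .nd)))))) (.rp 40 (.thr 60 41 (.thr 51 35 (.thr 57 54 (.thr 61 53 (.dbl 63 43 62))))) .nd)))))) .nd)))))))))))) (.rp 23 (.thr 25 28 (.str 3 (.nv (.thr 17 29 (.thr 18 16 (.thr 41 60 (.thr 1 61 (.dbl 33 48 49))))) (.nv (.thr 51 35 (.thr 12 38 (.thr 9 6 (.dbl 41 57 60)))) (.rp 60 (.thr 17 29 (.thr 18 16 (.thr 51 35 (.thr 12 38 (.thr 9 6 (.thr 41 57 (.thr 1 61 (.dbl 33 48 49)))))))) (.rp 44 (.thr 51 35 (.thr 12 38 (.thr 41 60 (.dbl 9 6 57)))) (.rp 41 (.thr 17 29 (.thr 18 16 (.thr 51 35 (.thr 38 12 (.thr 6 54 (.thr 4 55 (.thr 7 5 (.thr 15 11 (.thr 27 39 (.dbl 26 24 30)))))))))) (.rp 12 (.thr 17 29 (.thr 18 16 (.thr 35 51 (.thr 41 60 (.thr 44 38 (.thr 1 61 (.dbl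 33 48 49))))))) .nd)))))))) (.rp 20 (.str 26 (.nv (.thr 31 16 (.thr 27 23 (.dbl 25 24 28))) (.nv (.thr 18 30 (.dbl 16 17 31)) (.rp 60 (.str 40 (.nv (.thr 31 16 (.thr 27 23 (.dbl 25 24 28))) (.nv (.thr 16 31 (.dbl 18 17 30)) (.rp 31 (.thr 18 30 (.thr 17 16 (.dbl 25 28 29))) (.rp 16 (.thr 18 30 (.thr 25 28 (.thr 24 27 (.thr 8 56 (.thr 42 59 (.thr 2 62 (.thr 50 34 (.thr 14 38 (.dbl 10 6 58))))))))) .nd))))) (.rp 40 (.str 60 (.nv (.thr 31 16 (.thr 27 23 (.dbl 25 24 28))) (.nv (.thr 18 30 (.dbl 16 17 31)) (.rp 31 (.thr 18 30 (.thr 17 16 (.dbl 25 28 29))) (.rp 16 (.thr 3 41 (.thr 51 35 (.thr 54 57 (.thr 38 6 (.dbl 25 12 28))))) .nd))))) (.rp 31 (.thr 18 30 (.thr 17 16 (.dbl 25 28 29))) (.rp 16 (.thr 25 28 (.thr 24 27 (.str 60 (.nv (.thr 41 3 (.thr 56 11 (.thr 8 40 (.thr 59 42 (.dbl 57 9 58)))))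 (.nv (.thr 3 41 (.thr 51 35 (.thr 54 57 (.dbl 38 6 12)))) (.rp 57 (.thr 30 18 (.thr 29 17 (.thr 45 15 (.thr 61 13 (.dbl 41 1 3))))) (.rp 48 (.str 32 (.nv (.thr 18 30 (.thr 41 3 (.thr 56 11 (.thr 8 40 (.thr 59 42 (.dbl 57 9 58)))))) (.nv (.thr 3 41 (.thr 51 35 (.thr 54 57 (.dbl 38 6 12)))) (.rp 57 (.thr 30 18 (.thr 29 17 (.thr 45 15 (.thr 61 13 (.dbl 41 1 3))))) (.rp 41 (.thr 30 18 (.thr 29 17 (.thr 45 15 (.thr 61 13 (.thr 62 63 (.thr 42 2 (.thr 14 46 (.thr 50 38 (.dbl 58 10 54))))))))) (.rp 3 (.thr 18 30 (.str 2 (.nv (.thr 50 34 (.thr 38 14 (.thr 51 12 (.dbl 54 6 57)))) (.nv (.thr 42 62 (.thr 8 59 (.thr 56 40 (.thr 11 41 (.dbl 10 9 58))))) (.nv (.thr 62 42 (.thr 50 34 (.thr 38 14 (.dbl 54 6 58)))) (.rp 62 (.thr 50 34 (.thr 14 38 (.thr 10 6 (.thr 42 58 (.thr 8 59 (.thr 56 40 (.dbl 11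 9 41))))))) (.rp 31 (.thr 29 17 (.thr 42 62 (.thr 10 58 (.thr 14 6 (.dbl 50 34 38))))) (.rp 29 (.str 31 (.nv (.thr 50 34 (.thr 38 14 (.thr 51 12 (.dbl 54 6 57)))) (.nv (.thr 42 62 (.thr 8 59 (.thr 56 40 (.thr 11 41 (.dbl 10 9 58))))) (.nv (.thr 62 42 (.thr 50 34 (.thr 38 14 (.dbl 54 6 58)))) (.rp 62 (.thr 50 34 (.thr 14 38 (.thr 10 6 (.thr 42 58 (.thr 8 59 (.thr 56 40 (.dbl 11 9 41))))))) (.rp 14 (.thr 62 42 (.thr 50 34 (.thr 54 58 (.thr 38 6 (.dbl 51 12 57))))) .nd)))))) (.rp 14 (.thr 62 42 (.thr 50 34 (.thr 54 58 (.thr 38 6 (.dbl 51 12 57))))) .nd))))))))) .nd)))))) (.rp 41 (.thr 30 18 (.thr 29 17 (.thr 45 15 (.thr 61 13 (.thr 62 63 (.thr 14 46 (.thr 50 38 (.thr 58 54 (.dbl 42 2 10))))))))) (.rp 32 (.str 48 (.nv (.thr 41 3 (.dbl 56 11 52)) (.nv (.thr 3 41 (.dbl 18 30 33)) (.rp 47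 (.str 42 (.nv (.thr 8 59 (.dbl 56 40 52)) (.nv (.thr 3 41 (.dbl 18 30 33)) .nd))) (.rp 42 (.str 47 (.nv (.thr 18 30 (.dbl 3 33 41)) (.nv (.thr 56 52 (.dbl 41 3 11)) (.rp 41 (.thr 52 56 (.thr 12 36 (.thr 38 51 (.thr 54 6 (.dbl 55 4 53))))) (.rp 3 (.thr 52 56 (.thr 12 36 (.thr 38 51 (.thr 54 6 (.dbl 55 4 53))))) .nd))))) (.rp 41 (.thr 18 30 (.thr 12 36 (.thr 38 51 (.thr 6 54 (.dbl 3 9 33))))) (.rp 3 (.thr 30 18 (.thr 12 36 (.thr 38 51 (.thr 14 50 (.dbl 15 13 45))))) .nd))))))) (.rp 3 (.thr 30 18 (.thr 29 17 (.thr 45 15 (.thr 61 13 (.thr 62 63 (.thr 14 46 (.thr 50 38 (.thr 58 54 (.dbl 42 2 10))))))))) .nd)))))))))) .nd))))))) (.rp 18 (.str 3 (.nv (.thr 23 20 (.thr 27 31 (.thr 43 63 (.thr 11 59 (.thr 15 7 (.dbl 51 35 39)))))) (.nv (.thr 25 28 (.thr 51 35 (.thr 12 38 (.thr 9 6 (.dbl 41 57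 60))))) (.rp 60 (.thr 25 28 (.thr 29 17 (.thr 51 35 (.thr 12 38 (.thr 63 46 (.dbl 23 20 43)))))) (.rp 51 (.thr 23 20 (.thr 31 27 (.thr 26 16 (.thr 63 43 (.thr 15 47 (.thr 11 7 (.dbl 41 56 60))))))) (.rp 39 (.thr 25 28 (.thr 51 35 (.thr 38 12 (.thr 54 6 (.dbl 60 41 57))))) (.rp 35 (.thr 23 20 (.thr 31 27 (.thr 28 25 (.thr 30 29 (.thr 63 43 (.thr 60 41 (.dbl 15 45 47))))))) .nd))))))) (.rp 17 (.thr 23 20 (.thr 31 27 (.thr 26 16 (.thr 30 18 (.dbl 28 25 29))))) (.rp 16 (.str 51 (.nv (.thr 3 35 (.thr 60 41 (.thr 54 57 (.thr 38 6 (.dbl 25 12 28))))) (.nv (.thr 3 35 (.thr 23 20 (.thr 27 31 (.thr 39 15 (.thr 55 7 (.dbl 63 43 59)))))) (.nv (.thr 25 28 (.thr 20 23 (.thr 3 35 (.thr 41 60 (.thr 9 57 (.dbl 12 6 38)))))) (.rp 60 (.thr 25 28 (.thr 29 17 (.thr 3 35 (.thr 12 38 (.thr 63 46 (.dbl 23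 20 43)))))) (.rp 48 (.str 32 (.nv (.thr 3 35 (.thr 23 20 (.thr 27 31 (.thr 43 63 (.thr 11 59 (.dbl 15 7 39)))))) (.nv (.thr 3 35 (.thr 60 41 (.thr 54 57 (.thr 38 6 (.dbl 25 12 28))))) (.rp 60 (.thr 3 35 (.thr 25 28 (.thr 12 38 (.thr 29 17 (.thr 63 46 (.dbl 23 20 43)))))) (.rp 35 (.thr 25 28 (.thr 12 38 (.thr 29 17 (.thr 63 46 (.thr 59 55 (.thr 42 8 (.thr 62 2 (.thr 60 61 (.thr 57 54 (.dbl 41 3 9)))))))))) (.rp 28 (.thr 3 35 (.thr 60 41 (.thr 54 57 (.thr 38 6 (.thr 55 4 (.thr 63 59 (.dbl 23 20 43))))))) (.rp 26 (.str 15 (.nv (.thr 3 35 (.thr 7 11 (.thr 23 20 (.dbl 39 27 55)))) (.nv (.thr 27 39 (.dbl 23 20 31)) (.rp 39 (.thr 23 20 (.thr 3 35 (.thr 31 27 (.dbl 63 43 47)))) (.rp 27 (.thr 23 20 (.thr 3 35 (.thr 7 11 (.thr 55 39 (.dbl 63 43 59))))) (.rp 23 (.thr 3 35 (.thr 25 28 (.thr 38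 12 (.thr 54 6 (.dbl 60 41 57))))) (.rp 20 (.thr 3 35 (.thr 27 39 (.thr 23 31 (.thr 11 7 (.dbl 43 59 63))))) .nd))))))) (.rp 15 (.str 26 (.nv (.thr 3 35 (.thr 60 41 (.thr 54 57 (.thr 38 6 (.dbl 25 12 28))))) (.nv (.thr 23 20 (.thr 27 31 (.dbl 25 24 28))) (.rp 60 (.thr 28 25 (.thr 30 18 (.thr 31 29 (.dbl 23 20 27)))) (.rp 28 (.thr 3 35 (.thr 60 41 (.thr 54 57 (.thr 38 6 (.thr 55 4 (.thr 63 59 (.dbl 23 20 43))))))) (.rp 25 (.thr 23 20 (.thr 3 35 (.thr 60 41 (.thr 63 43 (.thr 55 59 (.thr 38 4 (.dbl 54 6 57))))))) (.rp 10 (.str 5 (.nv (.thr 3 35 (.thr 60 41 (.thr 54 57 (.thr 38 6 (.dbl 25 12 28))))) (.nv (.thr 23 20 (.thr 27 31 (.dbl 25 24 28))) (.rp 60 (.thr 30 18 (.thr 28 25 (.thr 31 29 (.dbl 23 20 27)))) (.rp 28 (.thr 3 35 (.thr 41 60 (.thr 1 61 (.thr 9 13 (.thr 25 57 (.dbl 12 6 38))))))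 (.rp 25 (.thr 3 35 (.thr 23 20 (.thr 63 43 (.thr 55 59 (.thr 4 38 (.dbl 7 6 39)))))) .nd)))))) (.rp 5 (.str 10 (.nv (.thr 18 30 (.thr 35 3 (.thr 34 33 (.thr 2 50 (.dbl 42 58 62))))) (.nv (.thr 23 20 (.thr 27 31 (.dbl 25 24 28))) (.rp 60 (.thr 30 18 (.thr 28 25 (.thr 31 29 (.dbl 23 20 27)))) .nd)))) .nd)))))))) (.rp 3 (.thr 20 23 (.thr 25 28 (.thr 38 12 (.thr 4 55 (.thr 36 52 (.thr 44 40 (.thr 41 35 (.thr 9 57 (.thr 1 61 (.thr 5 13 (.dbl 6 7 54))))))))))) .nd))))))))) (.rp 35 (.thr 23 20 (.thr 27 31 (.thr 39 15 (.thr 55 7 (.thr 38 4 (.dbl 25 12 28)))))) (.rp 32 (.str 48 (.nv (.thr 23 20 (.thr 27 31 (.thr 25 28 (.thr 24 26 (.dbl 12 36 38))))) (.nv (.thr 3 35 (.thr 33 18 (.thr 49 50 (.thr 1 17 (.dbl 41 60 61))))) (.rp 60 (.thr 3 35 (.thr 33 18 (.thr 49 50 (.thr 17 1 (.dbl 25 28 29)))))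 (.rp 47 (.str 42 (.nv (.thr 25 28 (.thr 59 8 (.thr 55 63 (.dbl 38 4 12)))) (.nv (.thr 2 62 (.thr 50 49 (.thr 18 34 (.dbl 3 33 35)))) (.rp 25 (.thr 3 35 (.thr 23 20 (.thr 43 63 (.dbl 41 40 60)))) .nd)))) (.rp 42 (.str 47 (.nv (.thr 35 3 (.thr 39 43 (.thr 27 15 (.dbl 23 20 31)))) (.nv (.thr 23 20 (.thr 27 31 (.thr 25 28 (.thr 24 26 (.dbl 12 36 38))))) (.nv (.thr 49 50 (.thr 3 35 (.thr 33 18 (.thr 17 1 (.dbl 25 28 29))))) .nd)))) .nd)))))) (.rp 28 (.thr 3 35 (.thr 60 41 (.thr 54 57 (.thr 38 6 (.thr 55 4 (.thr 63 59 (.dbl 23 20 43))))))) (.rp 3 (.thr 23 20 (.thr 27 31 (.thr 25 28 (.thr 24 26 (.thr 29 17 (.thr 12 38 (.thr 63 46 (.thr 55 59 (.dbl 39 7 15))))))))) .nd)))))))))) .nd))))))))))))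

theorem w60 : WinAt (6291456, 137438953473) :=
  chF (K := []) kn c60 6291456 137438953473 37
    [] (by decide +kernel) (by decide +kernel)

/-- A certificate. -/
noncomputable def c61 : Ct := (.str 25 (.nv (.thr 17 29 (.thr 19 28 (.thr 16 18 (.thr 23 20 (.dbl 31 26 27))))) (.nv (.thr 20 23 (.thr 29 17 (.thr 28 19 (.thr 31 30 (.dbl 16 24 26))))) (.rp 31 (.str 41 (.nv (.thr 3 60 (.thr 9 57 (.thr 12 6 (.thr 29 17 (.thr 63 46 (.dbl 23 20 43)))))) (.nv (.thr 1 61 (.thr 17 29 (.thr 9 57 (.thr 49 33 (.dbl 13 5 37))))) (.rp 57 (.thr 29 17 (.thr 28 19 (.thr 60 3 (.thr 12 44 (.thr 63 46 (.dbl 61 1 62)))))) (.rp 29 (.thr 3 60 (.thr 1 61 (.thr 9 57 (.thr 13 5 (.thr 12 6 (.thr 15 14 (.thr 7 11 (.dbl 37 49 52)))))))) (.rp 17 (.thr 3 60 (.thr 1 61 (.thr 9 57 (.thr 13 5 (.thr 12 6 (.thr 15 14 (.thr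 7 11 (.dbl 37 49 52)))))))) (.rp 9 (.thr 29 17 (.thr 28 19 (.thr 60 3 (.thr 12 44 (.thr 63 46 (.dbl 61 1 62)))))) .nd))))))) (.rp 30 (.thr 23 20 (.thr 17 29 (.thr 19 28 (.thr 31 27 (.dbl 16 18 26))))) (.rp 29 (.str 41 (.nv (.thr 20 23 (.thr 28 19 (.thr 24 16 (.thr 60 3 (.thr 12 44 (.thr 48 36 (.thr 56 52 (.dbl 26 11 27)))))))) (.nv (.thr 1 61 (.thr 3 60 (.thr 9 57 (.thr 12 6 (.thr 13 5 (.thr 15 14 (.thr 7 11 (.dbl 37 49 52)))))))) (.nv (.thr 20 23 (.thr 28 19 (.thr 24 16 (.thr 9 57 (.thr 3 60 (.thr 12 6 (.thr 48 36 (.thr 18 33 (.dbl 26 27 30))))))))) (.rp 60 (.thr 9 57 (.thr 1 61 (.thr 13 5 (.thr 49 37 (.thr 17 33 (.thr 19 28 (.thr 16 18 (.thr 31 26 (.dbl 23 20 27))))))))) (.rp 51 (.thr 9 57 (.thr 1 61 (.thr 13 5 (.thr 49 37 (.thr 17 33 (.thr 19 28 (.thr 16 18 (.thr 23 20 (.dbl 31 26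 27))))))))) (.rp 37 (.thr 57 9 (.thr 61 1 (.thr 49 53 (.thr 3 60 (.thr 19 28 (.thr 51 35 (.thr 48 50 (.thr 18 33 (.thr 16 17 (.dbl 26 30 31)))))))))) (.rp 26 (.thr 9 57 (.thr 1 61 (.thr 13 5 (.thr 49 37 (.thr 33 17 (.thr 3 60 (.thr 48 18 (.thr 19 28 (.dbl 51 35 50))))))))) (.rp 20 (.thr 9 57 (.thr 1 61 (.thr 13 5 (.thr 60 3 (.thr 28 19 (.thr 12 44 (.thr 15 14 (.thr 45 30 (.dbl 37 33 49))))))))) (.rp 12 (.thr 9 57 (.thr 1 61 (.thr 13 5 (.thr 49 37 (.thr 17 33 (.thr 19 28 (.thr 16 18 (.thr 23 20 (.dbl 31 26 27))))))))) (.rp 3 (.thr 9 57 (.thr 1 61 (.thr 13 5 (.thr 49 37 (.thr 17 33 (.thr 19 28 (.thr 23 20 (.thr 31 27 (.dbl 16 18 26))))))))) .nd))))))))))) (.rp 28 (.str 41 (.nv (.thr 3 60 (.thr 9 57 (.thr 12 6 (.thr 29 17 (.thr 63 46 (.dbl 23 20 43)))))) (.nv (.thr 1 61 (.thr 17 29 (.thr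 9 57 (.thr 49 33 (.dbl 13 5 37))))) (.rp 57 (.thr 29 17 (.thr 61 1 (.thr 45 13 (.thr 33 37 (.thr 3 60 (.thr 18 48 (.thr 26 30 (.thr 56 11 (.thr 24 27 (.thr 40 8 (.thr 23 20 (.dbl 43 42 63)))))))))))) (.rp 29 (.thr 9 57 (.thr 1 61 (.thr 13 5 (.thr 3 60 (.thr 12 6 (.thr 15 14 (.thr 7 11 (.dbl 37 49 52)))))))) (.rp 17 (.thr 9 57 (.thr 1 61 (.thr 13 5 (.thr 3 60 (.thr 12 6 (.thr 15 14 (.thr 7 11 (.dbl 37 49 52)))))))) (.rp 9 (.thr 17 29 (.thr 1 61 (.thr 33 49 (.thr 3 60 (.thr 18 48 (.thr 16 19 (.dbl 26 30 31))))))) .nd))))))) (.rp 26 (.thr 19 28 (.str 41 (.nv (.thr 17 29 (.thr 18 16 (.thr 3 60 (.thr 1 61 (.dbl 33 48 49))))) (.nv (.thr 3 60 (.thr 9 57 (.thr 12 6 (.thr 29 17 (.thr 63 46 (.dbl 23 20 43)))))) (.nv (.thr 1 61 (.thr 17 29 (.thr 9 57 (.thr 49 33 (.dbl 13 5 37))))) (.rp 50 (.str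 14 (.nv (.thr 17 29 (.thr 18 16 (.thr 3 60 (.thr 1 61 (.dbl 33 48 49))))) (.nv (.thr 1 61 (.thr 3 60 (.thr 9 57 (.thr 12 6 (.dbl 13 5 15))))) (.nv (.thr 1 61 (.thr 17 29 (.thr 9 57 (.thr 49 33 (.dbl 13 5 37))))) (.rp 61 (.thr 29 17 (.thr 3 60 (.thr 9 57 (.thr 12 6 (.thr 63 46 (.dbl 23 20 43)))))) (.rp 49 (.thr 3 60 (.thr 9 57 (.thr 12 6 (.thr 13 15 (.dbl 1 5 61))))) (.rp 13 (.thr 29 17 (.thr 3 60 (.thr 9 57 (.thr 12 6 (.thr 63 46 (.dbl 23 20 43)))))) (.rp 1 (.thr 29 17 (.thr 3 60 (.thr 9 57 (.thr 12 6 (.thr 63 46 (.dbl 23 20 43)))))) .nd)))))))) (.rp 29 (.thr 9 57 (.thr 1 61 (.thr 13 5 (.thr 49 37 (.thr 33 17 (.thr 3 60 (.thr 51 35 (.dbl 48 18 50)))))))) (.rp 17 (.thr 9 57 (.thr 1 61 (.thr 13 5 (.thr 49 37 (.thr 3 60 (.thr 51 35 (.thr 12 6 (.thr 50 48 (.thr 15 14 (.thr 39 27 (.thr 7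 11 (.dbl 23 20 55)))))))))))) (.rp 14 (.str 50 (.nv (.thr 3 60 (.thr 51 35 (.thr 49 48 (.thr 57 9 (.dbl 61 1 53))))) (.nv (.thr 3 60 (.thr 51 35 (.thr 48 49 (.thr 18 33 (.dbl 17 16 29))))) (.nv (.thr 1 61 (.thr 17 29 (.thr 9 57 (.thr 49 33 (.dbl 13 5 37))))) (.rp 49 (.thr 60 3 (.thr 57 9 (.thr 54 51 (.thr 62 58 (.dbl 61 1 63))))) .nd))))) .nd))))))))) (.rp 23 (.str 41 (.nv (.thr 1 61 (.thr 3 60 (.thr 17 29 (.thr 19 28 (.thr 18 16 (.dbl 33 48 49)))))) (.nv (.thr 1 61 (.thr 17 29 (.thr 9 57 (.thr 49 33 (.dbl 13 5 37))))) (.rp 61 (.thr 17 29 (.thr 19 28 (.thr 18 16 (.thr 3 60 (.thr 48 33 (.thr 9 57 (.thr 12 6 (.thr 24 36 (.dbl 26 27 30))))))))) (.rp 49 (.thr 29 17 (.thr 28 19 (.thr 60 3 (.thr 12 44 (.thr 63 46 (.dbl 61 1 62)))))) (.rp 45 (.thr 17 29 (.thr 9 57 (.thr 1 61 (.thr 13 5 (.dbl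 49 33 37))))) (.rp 33 (.thr 29 17 (.thr 57 9 (.thr 61 1 (.thr 49 53 (.dbl 13 37 45))))) (.rp 29 (.thr 3 60 (.thr 1 61 (.thr 9 57 (.thr 13 5 (.thr 12 6 (.thr 15 14 (.thr 7 11 (.dbl 37 49 52)))))))) (.rp 17 (.thr 3 60 (.thr 1 61 (.thr 9 57 (.thr 13 5 (.thr 12 6 (.thr 15 14 (.thr 7 11 (.dbl 37 49 52)))))))) (.rp 13 (.thr 29 17 (.thr 28 19 (.thr 60 3 (.thr 12 44 (.thr 63 46 (.dbl 61 1 62)))))) (.rp 1 (.thr 17 29 (.thr 19 28 (.thr 18 16 (.thr 3 60 (.thr 48 33 (.thr 9 57 (.thr 12 6 (.thr 24 36 (.dbl 26 27 30))))))))) .nd))))))))))) (.rp 20 (.str 60 (.nv (.thr 17 29 (.thr 41 3 (.thr 9 57 (.thr 1 61 (.thr 13 5 (.dbl 49 33 37)))))) (.nv (.thr 28 19 (.thr 29 17 (.thr 30 31 (.thr 12 44 (.thr 15 45 (.thr 46 63 (.dbl 14 13 62))))))) (.nv (.thr 17 29 (.thr 41 3 (.thr 1 61 (.thr 9 57 (.thr 49 33 (.dbl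 13 5 37)))))) (.rp 41 (.thr 28 19 (.thr 29 17 (.thr 30 31 (.thr 45 15 (.thr 61 13 (.thr 63 62 (.dbl 12 44 46))))))) (.rp 29 (.thr 28 19 (.thr 12 44 (.thr 41 3 (.thr 1 61 (.thr 9 57 (.thr 13 5 (.thr 15 14 (.thr 45 30 (.dbl 37 33 49))))))))) (.rp 17 (.thr 28 19 (.thr 12 44 (.thr 41 3 (.thr 1 61 (.thr 9 57 (.thr 13 5 (.thr 15 14 (.thr 45 30 (.dbl 37 33 49))))))))) (.rp 13 (.thr 28 19 (.thr 29 17 (.thr 12 44 (.thr 63 46 (.thr 61 62 (.dbl 41 1 3)))))) .nd)))))))) (.rp 19 (.str 41 (.nv (.thr 3 60 (.thr 9 57 (.thr 12 6 (.thr 29 17 (.thr 63 46 (.dbl 23 20 43)))))) (.nv (.thr 1 61 (.thr 17 29 (.thr 9 57 (.thr 49 33 (.dbl 13 5 37))))) (.rp 57 (.thr 29 17 (.thr 3 60 (.thr 61 1 (.thr 45 13 (.thr 33 37 (.thr 18 48 (.thr 26 30 (.thr 24 27 (.thr 56 11 (.thr 23 20 (.thr 40 8 (.dbl 43 42 63))))))))))))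 (.rp 29 (.thr 3 60 (.thr 1 61 (.thr 9 57 (.thr 13 5 (.thr 12 6 (.thr 15 14 (.thr 7 11 (.dbl 37 49 52)))))))) (.rp 17 (.thr 3 60 (.thr 1 61 (.thr 9 57 (.thr 13 5 (.thr 12 6 (.thr 15 14 (.thr 7 11 (.dbl 37 49 52)))))))) (.rp 9 (.str 13 (.nv (.thr 1 61 (.thr 17 29 (.dbl 49 33 37))) (.nv (.thr 61 1 (.dbl 29 17 45)) (.rp 61 (.thr 3 60 (.thr 37 49 (.thr 33 45 (.thr 7 52 (.thr 15 11 (.dbl 48 18 26)))))) (.rp 29 (.thr 3 60 (.thr 37 49 (.thr 33 45 (.thr 7 52 (.thr 15 11 (.dbl 48 18 26)))))) (.rp 17 (.thr 61 1 (.thr 45 29 (.dbl 37 33 49))) (.rp 1 (.thr 29 17 (.thr 45 61 (.dbl 37 33 49))) .nd))))))) .nd))))))) (.rp 18 (.thr 20 23 (.thr 29 17 (.thr 28 19 (.thr 16 24 (.dbl 31 26 30))))) (.rp 17 (.str 31 (.nv (.thr 28 19 (.thr 30 29 (.dbl 26 16 18))) (.nv (.thr 19 28 (.dbl 23 20 27)) (.rp 51 (.str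 34 (.nv (.thr 28 19 (.thr 30 29 (.dbl 26 16 18))) (.nv (.thr 19 28 (.dbl 23 20 27)) (.rp 28 (.thr 23 20 (.thr 27 19 (.dbl 26 16 24))) (.rp 19 (.thr 26 16 (.thr 18 30 (.thr 27 24 (.thr 2 50 (.thr 42 62 (.thr 59 8 (.thr 11 43 (.thr 58 10 (.dbl 56 41 57))))))))) .nd))))) (.rp 34 (.str 51 (.nv (.thr 28 19 (.thr 30 29 (.dbl 26 16 18))) (.nv (.thr 19 28 (.dbl 23 20 27)) (.rp 46 (.str 42 (.nv (.thr 28 19 (.thr 30 29 (.dbl 26 16 18))) (.nv (.thr 19 28 (.dbl 23 20 27)) (.rp 28 (.thr 23 20 (.thr 27 19 (.dbl 26 16 24))) (.rp 19 (.thr 59 8 (.thr 63 55 (.thr 15 47 (.thr 27 39 (.dbl 26 16 24))))) .nd))))) (.rp 42 (.str 46 (.nv (.thr 28 19 (.thr 30 29 (.dbl 26 16 18))) (.nv (.thr 19 28 (.dbl 23 20 27)) (.rp 28 (.thr 23 20 (.thr 27 19 (.dbl 26 16 24))) (.rp 19 (.thr 20 23 (.thr 16 26 (.thr 28 24 (.thr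 29 30 (.thr 12 63 (.thr 60 44 (.thr 57 54 (.dbl 41 3 9)))))))) .nd))))) (.rp 28 (.thr 23 20 (.thr 27 19 (.dbl 26 16 24))) (.rp 19 (.thr 26 16 (.thr 18 30 (.thr 27 24 (.thr 15 39 (.thr 63 47 (.thr 59 55 (.thr 43 11 (.dbl 23 3 20)))))))) .nd))))))) (.rp 28 (.thr 23 20 (.thr 27 19 (.dbl 26 16 24))) (.rp 19 (.thr 26 16 (.thr 18 30 (.str 48 (.nv (.thr 20 23 (.thr 24 27 (.thr 36 12 (.thr 37 15 (.dbl 52 4 7))))) (.nv (.thr 3 33 (.thr 23 20 (.thr 63 43 (.dbl 15 37 47)))) (.nv (.thr 37 15 (.thr 52 7 (.thr 60 56 (.dbl 3 33 41)))) (.rp 60 (.thr 3 33 (.thr 15 37 (.thr 63 47 (.dbl 23 20 43)))) (.rp 51 (.str 34 (.nv (.thr 2 50 (.thr 3 33 (.thr 23 20 (.thr 42 62 (.thr 43 63 (.dbl 41 40 60)))))) (.nv (.thr 2 50 (.thr 42 62 (.thr 58 10 (.thr 63 53 (.dbl 15 37 47))))) (.nv (.thr 3 33 (.thr 15 37 (.thr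 11 7 (.dbl 41 56 60)))) (.rp 3 (.str 35 (.nv (.thr 2 50 (.thr 42 62 (.thr 58 10 (.thr 53 63 (.dbl 37 5 15))))) (.nv (.thr 32 33 (.thr 2 50 (.thr 42 62 (.dbl 37 15 47)))) (.nv (.thr 2 50 (.thr 15 37 (.thr 63 47 (.thr 58 53 (.dbl 42 10 62))))) (.rp 62 (.thr 23 20 (.thr 32 33 (.thr 37 15 (.thr 47 42 (.thr 39 43 (.dbl 7 52 55)))))) (.rp 58 (.thr 32 33 (.thr 2 50 (.thr 37 15 (.dbl 42 47 62)))) (.rp 50 (.thr 23 20 (.thr 32 33 (.thr 37 15 (.thr 47 42 (.thr 39 43 (.dbl 7 52 55)))))) (.rp 42 (.thr 33 32 (.thr 37 15 (.thr 5 53 (.thr 13 49 (.thr 1 9 (.dbl 41 45 61)))))) (.rp 37 (.thr 27 24 (.thr 2 50 (.thr 42 62 (.thr 58 10 (.thr 59 8 (.thr 56 57 (.dbl 11 41 43))))))) (.rp 15 (.thr 27 24 (.thr 32 33 (.thr 2 50 (.thr 42 62 (.thr 47 37 (.thr 59 8 (.dbl 43 11 39))))))) (.rp 2 (.str 1 (.nv (.thr 37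 15 (.thr 5 53 (.dbl 13 9 49))) (.nv (.thr 33 32 (.thr 41 61 (.dbl 37 15 45))) (.rp 45 (.thr 41 61 (.thr 9 57 (.thr 13 5 (.dbl 37 15 49)))) (.rp 37 (.thr 20 23 (.thr 24 27 (.thr 36 12 (.thr 41 61 (.thr 56 11 (.dbl 52 4 60)))))) (.rp 15 (.thr 33 32 (.thr 41 61 (.thr 9 57 (.thr 5 13 (.dbl 37 45 53))))) .nd)))))) .nd))))))))))) .nd))))) (.rp 37 (.thr 24 27 (.thr 3 33 (.thr 41 60 (.thr 9 57 (.dbl 12 6 36))))) (.rp 34 (.str 51 (.nv (.thr 27 24 (.dbl 15 37 39)) (.nv (.thr 49 50 (.dbl 37 13 15)) (.rp 46 (.str 42 (.nv (.thr 59 8 (.thr 63 55 (.dbl 58 10 53))) (.nv (.thr 49 50 (.dbl 37 13 15)) (.rp 62 (.str 14 (.nv (.thr 59 8 (.thr 63 55 (.dbl 58 10 53))) (.nv (.thr 15 37 (.dbl 27 24 39)) .nd))) (.rp 14 (.thr 62 2 (.thr 50 49 (.dbl 58 10 54))) .nd))))) (.rp 42 (.str 46 (.nv (.thr 27 24 (.dbl 15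 37 39)) (.nv (.thr 49 50 (.dbl 37 13 15)) (.rp 37 (.thr 49 50 (.thr 3 33 (.thr 41 60 (.thr 57 9 (.dbl 61 1 53))))) (.rp 15 (.thr 49 50 (.thr 37 13 (.thr 52 7 (.thr 60 56 (.dbl 3 33 41))))) .nd))))) (.rp 37 (.thr 27 24 (.thr 3 33 (.thr 41 60 (.thr 11 56 (.dbl 15 7 39))))) (.rp 15 (.thr 24 27 (.thr 3 33 (.thr 12 36 (.thr 9 6 (.dbl 41 57 60))))) .nd))))))) (.rp 15 (.thr 24 27 (.thr 12 36 (.thr 3 33 (.thr 9 6 (.dbl 41 57 60))))) .nd))))))))))) .nd))))))) (.rp 16 (.str 41 (.nv (.thr 3 60 (.thr 9 57 (.thr 12 6 (.thr 29 17 (.thr 63 46 (.dbl 23 20 43)))))) (.nv (.thr 1 61 (.thr 17 29 (.thr 9 57 (.thr 49 33 (.dbl 13 5 37))))) (.rp 57 (.thr 17 29 (.thr 1 61 (.thr 49 33 (.thr 13 37 (.thr 9 5 (.thr 3 60 (.thr 12 6 (.thr 15 14 (.thr 7 11 (.thr 19 28 (.thr 51 35 (.thr 39 27 (.dbl 23 20 55)))))))))))))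 (.rp 48 (.str 32 (.nv (.thr 3 60 (.thr 9 57 (.thr 12 6 (.thr 29 17 (.thr 63 46 (.dbl 23 20 43)))))) (.nv (.thr 17 29 (.thr 9 57 (.thr 1 61 (.thr 13 5 (.dbl 49 33 37))))) (.rp 57 (.thr 29 17 (.thr 61 1 (.thr 45 13 (.thr 33 37 (.thr 3 60 (.thr 19 28 (.dbl 35 34 51))))))) (.rp 29 (.thr 9 57 (.thr 1 61 (.thr 13 5 (.thr 49 37 (.thr 33 17 (.thr 3 60 (.thr 19 28 (.dbl 35 34 51)))))))) (.rp 17 (.thr 9 57 (.thr 1 61 (.thr 13 5 (.thr 3 60 (.thr 12 6 (.thr 15 14 (.thr 7 11 (.dbl 37 49 52)))))))) (.rp 9 (.thr 17 29 (.thr 1 61 (.thr 33 49 (.thr 3 60 (.thr 19 28 (.dbl 35 34 51)))))) .nd))))))) (.rp 32 (.str 48 (.nv (.thr 1 61 (.thr 9 57 (.thr 13 5 (.thr 17 29 (.dbl 49 33 37))))) (.nv (.thr 60 3 (.thr 52 56 (.thr 37 7 (.thr 15 26 (.dbl 45 30 33))))) (.nv (.thr 17 29 (.thr 3 60 (.thr 33 18 (.dbl 1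 49 61)))) (.rp 33 (.thr 29 17 (.thr 57 9 (.thr 61 1 (.thr 49 53 (.dbl 13 37 45))))) (.rp 1 (.thr 3 60 (.thr 33 18 (.thr 37 45 (.thr 7 52 (.dbl 15 11 26))))) .nd)))))) (.rp 29 (.thr 9 57 (.thr 1 61 (.thr 13 5 (.thr 3 60 (.thr 12 6 (.thr 15 14 (.thr 7 11 (.dbl 37 49 52)))))))) (.rp 17 (.thr 9 57 (.thr 1 61 (.thr 13 5 (.thr 3 60 (.thr 12 6 (.thr 15 14 (.thr 7 11 (.dbl 37 49 52)))))))) (.rp 9 (.thr 29 17 (.thr 61 1 (.thr 13 45 (.thr 49 37 (.thr 53 57 (.thr 3 60 (.thr 19 28 (.thr 51 35 (.thr 48 50 (.thr 63 58 (.dbl 23 20 43))))))))))) .nd))))))))) .nd))))))))))))))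

theorem w61 : WinAt (6291456, 274877906945) :=
  chF (K := []) kn c61 6291456 274877906945 38
    [] (by decide +kernel) (by decide +kernel)

/-- A certificate. -/
noncomputable def c62 : Ct := (.str 19 (.nv (.thr 20 23 (.thr 28 25 (.thr 16 24 (.thr 26 31 (.dbl 18 17 30))))) (.nv (.thr 25 28 (.thr 17 29 (.thr 16 18 (.thr 31 26 (.dbl 23 20 27))))) (.rp 31 (.str 37 (.nv (.thr 5 53 (.thr 25 28 (.thr 13 49 (.thr 1 9 (.thr 29 17 (.dbl 61 41 45)))))) (.nv (.thr 20 23 (.thr 53 5 (.thr 52 7 (.thr 55 54 (.dbl 4 36 38))))) (.rp 53 (.thr 20 23 (.thr 28 25 (.thr 16 24 (.thr 18 17 (.thr 26 30 (.thr 48 15 (.thr 3 33 (.thr 60 41 (.dbl 52 7 56))))))))) (.rp 5 (.thr 20 23 (.thr 7 52 (.thr 28 25 (.thr 16 24 (.thr 18 17 (.thr 26 30 (.thr 15 48 (.thr 3 11 (.thr 60 41 (.thr 12 44 (.thr 14 13 (.thr 38 50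 (.dbl 6 9 54))))))))))))) .nd))))) (.rp 30 (.thr 23 20 (.thr 31 27 (.thr 16 26 (.thr 17 18 (.dbl 25 28 29))))) (.rp 28 (.str 16 (.nv (.thr 18 17 (.dbl 26 30 31)) (.nv (.thr 31 26 (.dbl 23 20 27)) (.rp 31 (.thr 17 18 (.thr 29 25 (.str 3 (.nv (.thr 23 20 (.thr 63 43 (.thr 12 46 (.thr 6 9 (.thr 38 54 (.thr 55 4 (.dbl 51 35 59))))))) (.nv (.thr 23 20 (.thr 35 51 (.thr 63 43 (.thr 12 46 (.thr 6 9 (.thr 38 54 (.dbl 41 44 60))))))) (.rp 63 (.thr 35 51 (.thr 41 60 (.thr 61 1 (.thr 45 13 (.thr 37 33 (.thr 7 52 (.thr 5 53 (.thr 6 4 (.dbl 38 44 54))))))))) (.rp 60 (.str 12 (.nv (.thr 63 46 (.dbl 23 20 43)) (.rp 63 (.thr 20 23 (.thr 6 9 (.thr 38 54 (.thr 4 55 (.thr 7 5 (.dbl 52 36 37)))))) (.rp 46 (.thr 20 23 (.thr 6 9 (.thr 38 54 (.thr 4 55 (.thr 7 5 (.dbl 52 36 37)))))) (.rp 43 (.thr 6 9 (.thr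 38 54 (.thr 55 4 (.thr 63 46 (.dbl 51 35 59))))) (.rp 40 (.thr 20 23 (.thr 6 9 (.thr 38 54 (.thr 4 55 (.thr 7 5 (.dbl 52 36 37)))))) (.rp 23 (.thr 6 9 (.thr 38 54 (.thr 55 4 (.thr 51 35 (.dbl 63 46 59))))) (.rp 20 (.str 40 (.nv (.thr 51 35 (.thr 63 46 (.thr 55 59 (.thr 38 4 (.dbl 6 9 54))))) (.nv (.thr 6 9 (.thr 38 54 (.thr 46 63 (.thr 42 34 (.thr 41 43 (.dbl 35 44 51)))))) (.nv (.thr 6 9 (.thr 38 54 (.thr 63 46 (.thr 55 4 (.dbl 51 35 59))))) (.rp 63 (.thr 6 9 (.thr 38 54 (.thr 4 55 (.thr 7 5 (.thr 15 11 (.thr 13 14 (.thr 61 45 (.thr 41 1 (.dbl 35 44 51))))))))) (.rp 54 (.thr 9 6 (.thr 63 46 (.thr 43 23 (.thr 41 42 (.thr 1 61 (.thr 5 13 (.thr 37 53 (.dbl 33 45 49)))))))) (.rp 51 (.thr 9 6 (.thr 63 46 (.thr 43 23 (.thr 41 42 (.thr 1 61 (.thr 5 13 (.thr 37 53 (.dbl 33 45 49)))))))) (.rp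 46 (.thr 6 9 (.thr 38 54 (.thr 4 55 (.thr 7 5 (.thr 15 11 (.thr 13 14 (.thr 61 45 (.thr 41 1 (.dbl 35 44 51))))))))) (.rp 38 (.str 37 (.nv (.thr 5 53 (.thr 9 6 (.thr 1 13 (.thr 33 49 (.dbl 41 45 61))))) (.nv (.thr 7 52 (.thr 15 11 (.thr 53 5 (.thr 63 46 (.dbl 48 26 58))))) (.nv (.thr 5 53 (.thr 6 9 (.dbl 7 4 52))) (.rp 53 (.thr 9 6 (.thr 7 52 (.thr 15 11 (.thr 13 14 (.thr 1 5 (.dbl 61 41 45)))))) (.rp 5 (.thr 7 52 (.thr 51 35 (.thr 63 46 (.thr 43 23 (.thr 59 55 (.dbl 11 15 27)))))) .nd)))))) (.rp 35 (.thr 9 6 (.thr 63 46 (.thr 43 23 (.thr 41 42 (.thr 1 61 (.thr 5 13 (.thr 37 53 (.dbl 33 45 49)))))))) (.rp 9 (.thr 63 46 (.thr 43 23 (.thr 41 42 (.thr 1 61 (.thr 33 49 (.thr 37 45 (.thr 7 52 (.thr 15 11 (.thr 48 26 (.dbl 53 5 58)))))))))) (.rp 6 (.thr 63 46 (.thr 43 23 (.thr 41 42 (.thr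 1 61 (.thr 33 49 (.thr 37 45 (.thr 7 52 (.thr 15 11 (.thr 13 14 (.dbl 5 9 53)))))))))) .nd)))))))))))) .nd)))))))) (.rp 57 (.thr 41 60 (.thr 61 1 (.thr 45 13 (.thr 37 33 (.thr 7 52 (.thr 5 53 (.thr 6 4 (.thr 12 9 (.thr 63 46 (.dbl 23 20 43)))))))))) (.rp 54 (.thr 23 20 (.thr 63 43 (.thr 60 41 (.thr 61 62 (.thr 45 13 (.thr 15 30 (.thr 7 11 (.thr 37 52 (.thr 53 5 (.dbl 48 26 58)))))))))) (.rp 51 (.thr 23 20 (.thr 63 43 (.thr 60 41 (.thr 61 62 (.thr 45 13 (.thr 15 30 (.thr 7 11 (.thr 37 52 (.thr 53 5 (.dbl 48 26 58)))))))))) (.rp 46 (.thr 20 23 (.thr 41 60 (.thr 1 61 (.thr 33 49 (.thr 37 45 (.thr 53 5 (.thr 52 7 (.thr 55 54 (.dbl 4 36 38))))))))) (.rp 43 (.thr 20 23 (.thr 41 60 (.thr 1 61 (.thr 33 49 (.thr 37 45 (.thr 53 5 (.thr 52 7 (.thr 55 54 (.dbl 4 36 38))))))))) (.rp 41 (.str 38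 (.nv (.thr 23 20 (.thr 51 35 (.thr 55 4 (.dbl 63 43 59)))) (.nv (.thr 6 54 (.thr 51 35 (.thr 55 4 (.thr 63 59 (.dbl 12 9 46))))) (.nv (.thr 4 55 (.thr 6 54 (.thr 7 5 (.thr 20 23 (.dbl 52 36 37))))) (.nv (.thr 23 20 (.thr 6 54 (.thr 63 43 (.dbl 12 9 46)))) (.rp 57 (.str 9 (.nv (.dbl 6 12 54) (.rp 54 (.thr 12 6 (.thr 23 20 (.dbl 63 43 46))) (.rp 12 (.thr 20 23 (.thr 6 54 (.thr 4 55 (.thr 7 5 (.dbl 52 36 37))))) (.rp 6 (.thr 23 20 (.thr 51 35 (.thr 55 4 (.dbl 63 43 59)))) .nd))))) (.rp 9 (.str 57 (.nv (.thr 51 35 (.thr 55 4 (.thr 63 59 (.dbl 23 20 43)))) (.nv (.thr 54 6 (.dbl 51 35 60)) (.rp 51 (.thr 20 23 (.thr 6 54 (.thr 4 55 (.thr 7 5 (.dbl 52 36 37))))) (.rp 35 (.thr 20 23 (.thr 6 54 (.thr 4 55 (.thr 7 5 (.dbl 52 36 37))))) .nd))))) .nd))))))) (.rp 40 (.thr 20 23 (.thr 41 60 (.thr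 1 61 (.thr 33 49 (.thr 37 45 (.thr 53 5 (.thr 52 7 (.thr 55 54 (.dbl 4 36 38))))))))) (.rp 38 (.thr 23 20 (.thr 63 43 (.thr 60 41 (.thr 61 62 (.thr 45 13 (.thr 15 30 (.thr 7 11 (.thr 37 52 (.thr 53 5 (.dbl 48 26 58)))))))))) (.rp 35 (.thr 20 23 (.thr 41 60 (.thr 1 61 (.thr 33 49 (.thr 37 45 (.thr 53 5 (.thr 52 7 (.thr 55 54 (.dbl 4 36 38))))))))) (.rp 23 (.thr 35 51 (.thr 41 60 (.thr 1 61 (.thr 33 49 (.thr 32 34 (.thr 37 45 (.thr 42 47 (.thr 40 43 (.dbl 44 36 38))))))))) (.rp 20 (.str 12 (.nv (.thr 51 35 (.thr 63 46 (.thr 55 59 (.thr 38 4 (.dbl 6 9 54))))) (.nv (.thr 6 9 (.thr 38 54 (.thr 35 51 (.dbl 41 44 60)))) (.rp 60 (.str 40 (.nv (.thr 51 35 (.thr 63 46 (.thr 55 59 (.thr 38 4 (.dbl 6 9 54))))) (.nv (.thr 6 9 (.thr 38 54 (.thr 46 63 (.thr 42 34 (.thr 41 43 (.dbl 35 44 51)))))) (.nv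 (.thr 6 9 (.thr 38 54 (.thr 63 46 (.thr 55 4 (.dbl 51 35 59))))) (.rp 63 (.thr 6 9 (.thr 38 54 (.thr 4 55 (.thr 7 5 (.thr 15 11 (.thr 13 14 (.thr 61 45 (.thr 41 1 (.dbl 35 44 51))))))))) (.rp 54 (.thr 9 6 (.thr 63 46 (.thr 43 23 (.thr 41 42 (.thr 1 61 (.thr 5 13 (.thr 37 53 (.dbl 33 45 49)))))))) (.rp 51 (.thr 9 6 (.thr 63 46 (.thr 43 23 (.thr 41 42 (.thr 1 61 (.thr 5 13 (.thr 37 53 (.dbl 33 45 49)))))))) (.rp 46 (.thr 6 9 (.thr 38 54 (.thr 4 55 (.thr 7 5 (.thr 15 11 (.thr 13 14 (.thr 61 45 (.thr 41 1 (.dbl 35 44 51))))))))) (.rp 38 (.str 37 (.nv (.thr 5 53 (.thr 9 6 (.thr 1 13 (.thr 33 49 (.dbl 41 45 61))))) (.nv (.thr 7 52 (.thr 15 11 (.thr 53 5 (.thr 63 46 (.dbl 48 26 58))))) (.nv (.thr 5 53 (.thr 6 9 (.dbl 7 4 52))) (.rp 53 (.thr 9 6 (.thr 7 52 (.thr 15 11 (.thr 13 14 (.thr 1 5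 (.dbl 61 41 45)))))) (.rp 5 (.thr 7 52 (.thr 51 35 (.thr 63 46 (.thr 43 23 (.thr 59 55 (.dbl 11 15 27)))))) .nd)))))) (.rp 35 (.thr 9 6 (.thr 63 46 (.thr 43 23 (.thr 41 42 (.thr 1 61 (.thr 5 13 (.thr 37 53 (.dbl 33 45 49)))))))) (.rp 9 (.thr 63 46 (.thr 43 23 (.thr 41 42 (.thr 1 61 (.thr 33 49 (.thr 37 45 (.thr 7 52 (.thr 15 11 (.thr 48 26 (.dbl 53 5 58)))))))))) (.rp 6 (.thr 63 46 (.thr 43 23 (.thr 41 42 (.thr 1 61 (.thr 33 49 (.thr 37 45 (.thr 7 52 (.thr 15 11 (.thr 13 14 (.dbl 5 9 53)))))))))) .nd)))))))))))) (.rp 54 (.thr 9 6 (.thr 63 46 (.thr 43 23 (.thr 41 60 (.thr 40 42 (.thr 1 61 (.thr 5 13 (.thr 37 53 (.dbl 33 45 49))))))))) (.rp 51 (.thr 6 9 (.thr 38 54 (.thr 4 55 (.thr 7 5 (.thr 15 11 (.thr 13 14 (.thr 61 45 (.dbl 41 1 60)))))))) (.rp 40 (.thr 60 41 (.thr 51 35 (.thr 63 46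 (.thr 55 59 (.thr 38 4 (.dbl 6 9 54)))))) (.rp 38 (.thr 9 6 (.thr 63 46 (.thr 60 41 (.thr 61 62 (.thr 13 45 (.thr 5 1 (.thr 37 53 (.thr 7 52 (.dbl 15 11 14))))))))) (.rp 35 (.thr 6 9 (.thr 38 54 (.thr 4 55 (.thr 7 5 (.thr 15 11 (.thr 13 14 (.thr 61 45 (.dbl 41 1 60)))))))) (.rp 9 (.thr 51 35 (.thr 63 46 (.thr 55 59 (.thr 38 4 (.thr 54 6 (.dbl 60 41 57)))))) (.rp 6 (.thr 51 35 (.thr 63 46 (.thr 59 55 (.thr 60 41 (.thr 61 62 (.thr 57 54 (.thr 53 49 (.dbl 58 48 56)))))))) .nd))))))))))) (.rp 12 (.thr 23 20 (.thr 63 43 (.thr 60 41 (.thr 61 62 (.thr 45 13 (.thr 15 30 (.thr 7 11 (.thr 37 52 (.thr 53 5 (.dbl 48 26 58)))))))))) (.rp 9 (.thr 20 23 (.thr 41 60 (.thr 1 61 (.thr 33 49 (.thr 37 45 (.thr 53 5 (.thr 52 7 (.thr 55 54 (.dbl 4 36 38))))))))) (.rp 6 (.thr 35 51 (.thr 41 60 (.thr 1 61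 (.thr 33 49 (.thr 32 34 (.thr 37 45 (.thr 42 47 (.thr 40 43 (.dbl 44 36 38))))))))) .nd))))))))))))))))))))) (.rp 26 (.str 3 (.nv (.thr 17 18 (.thr 23 20 (.thr 51 35 (.thr 60 41 (.thr 54 57 (.thr 38 6 (.thr 55 4 (.dbl 63 43 59)))))))) (.nv (.thr 17 18 (.thr 25 29 (.thr 51 35 (.thr 38 12 (.thr 60 41 (.dbl 54 6 57)))))) (.nv (.thr 17 18 (.thr 20 23 (.thr 25 29 (.thr 41 60 (.thr 1 61 (.thr 49 33 (.thr 13 37 (.dbl 9 5 57)))))))) (.nv (.thr 17 18 (.thr 25 29 (.thr 41 60 (.thr 9 57 (.thr 12 6 (.dbl 51 35 38)))))) (.rp 60 (.thr 17 18 (.thr 25 29 (.thr 51 35 (.thr 12 38 (.thr 9 6 (.thr 41 57 (.thr 1 61 (.thr 13 5 (.dbl 49 33 37))))))))) (.rp 57 (.thr 23 20 (.thr 18 17 (.thr 48 33 (.thr 63 43 (.thr 53 58 (.thr 37 5 (.thr 52 7 (.dbl 60 41 56)))))))) (.rp 41 (.thr 23 20 (.thr 18 17 (.thr 31 27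 (.thr 48 33 (.thr 63 43 (.thr 53 58 (.thr 37 5 (.thr 7 52 (.dbl 15 11 47))))))))) (.rp 38 (.thr 17 18 (.thr 25 29 (.thr 41 60 (.thr 1 61 (.thr 49 33 (.thr 9 57 (.dbl 13 5 37))))))) (.rp 25 (.thr 23 20 (.thr 18 17 (.thr 48 33 (.thr 63 43 (.thr 53 58 (.thr 37 5 (.thr 52 7 (.dbl 60 41 56)))))))) (.rp 18 (.thr 23 20 (.thr 51 35 (.thr 60 41 (.thr 54 57 (.thr 38 6 (.thr 55 4 (.dbl 63 43 59))))))) (.rp 17 (.thr 23 20 (.thr 51 35 (.thr 60 41 (.thr 54 57 (.thr 38 6 (.thr 55 4 (.dbl 63 43 59))))))) (.rp 12 (.thr 23 20 (.thr 18 17 (.thr 48 33 (.thr 63 43 (.thr 53 58 (.thr 37 5 (.thr 52 7 (.dbl 60 41 56)))))))) .nd))))))))))))) .nd))))) (.rp 26 (.str 3 (.nv (.thr 25 28 (.thr 51 35 (.thr 38 12 (.thr 60 41 (.dbl 54 6 57))))) (.nv (.thr 20 23 (.thr 25 28 (.thr 17 29 (.thr 18 16 (.thr 41 60 (.thr 1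 61 (.dbl 33 48 49))))))) (.nv (.thr 25 28 (.thr 41 60 (.thr 9 57 (.thr 12 6 (.dbl 51 35 38))))) (.rp 60 (.thr 25 28 (.thr 29 17 (.thr 51 35 (.thr 12 38 (.thr 63 46 (.dbl 23 20 43)))))) (.rp 41 (.thr 23 20 (.thr 25 28 (.thr 29 17 (.thr 63 43 (.thr 12 46 (.dbl 51 35 38)))))) (.rp 28 (.thr 23 20 (.thr 51 35 (.thr 60 41 (.thr 54 57 (.thr 38 6 (.thr 55 4 (.dbl 63 43 59))))))) (.rp 25 (.thr 23 20 (.thr 27 31 (.thr 35 51 (.thr 43 63 (.thr 41 60 (.thr 40 42 (.thr 38 44 (.thr 54 6 (.thr 55 4 (.thr 52 53 (.thr 7 37 (.dbl 11 15 59)))))))))))) (.rp 12 (.thr 23 20 (.thr 31 27 (.thr 63 43 (.thr 35 51 (.thr 15 47 (.thr 60 41 (.thr 30 45 (.dbl 28 25 29)))))))) .nd))))))))) (.rp 25 (.str 26 (.nv (.thr 23 20 (.dbl 31 16 27)) (.nv (.thr 18 30 (.dbl 16 17 31)) (.rp 31 (.str 3 (.nv (.thr 18 30 (.thr 23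 20 (.thr 48 33 (.thr 63 43 (.thr 53 58 (.dbl 37 5 15)))))) (.nv (.thr 30 18 (.thr 60 41 (.thr 15 45 (.thr 7 11 (.dbl 37 48 52))))) (.rp 60 (.thr 18 30 (.thr 51 35 (.thr 48 33 (.thr 50 49 (.thr 38 14 (.thr 54 6 (.thr 62 58 (.dbl 2 34 42)))))))) (.rp 48 (.thr 23 20 (.thr 63 43 (.thr 60 41 (.thr 62 61 (.thr 42 2 (.thr 58 10 (.thr 54 50 (.dbl 51 35 57)))))))) (.rp 37 (.thr 18 30 (.thr 17 16 (.thr 41 60 (.thr 1 61 (.dbl 33 48 49))))) (.rp 33 (.thr 30 18 (.thr 60 41 (.thr 15 45 (.thr 37 48 (.dbl 7 11 52))))) (.rp 30 (.thr 23 20 (.thr 63 43 (.thr 60 41 (.thr 62 61 (.thr 42 2 (.thr 58 10 (.thr 54 50 (.dbl 51 35 57)))))))) (.rp 18 (.thr 20 23 (.thr 41 60 (.thr 11 56 (.thr 7 15 (.thr 52 37 (.thr 4 36 (.thr 38 55 (.dbl 6 5 54)))))))) (.rp 15 (.thr 18 30 (.thr 33 48 (.thr 41 60 (.thr 45 37 (.thr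 1 61 (.dbl 17 16 49)))))) .nd)))))))))) (.rp 16 (.str 48 (.nv (.thr 15 37 (.thr 18 30 (.thr 23 20 (.thr 31 27 (.thr 63 47 (.dbl 3 33 43)))))) (.nv (.thr 18 30 (.thr 3 33 (.thr 60 41 (.thr 52 56 (.dbl 37 7 15))))) (.rp 60 (.thr 18 30 (.thr 3 33 (.thr 51 35 (.thr 50 49 (.thr 38 14 (.thr 54 6 (.thr 62 58 (.dbl 2 34 42)))))))) (.rp 37 (.thr 18 30 (.thr 23 20 (.thr 27 31 (.thr 3 33 (.thr 43 63 (.thr 11 59 (.dbl 41 56 60))))))) (.rp 33 (.thr 30 18 (.thr 15 37 (.thr 60 45 (.thr 41 3 (.dbl 56 11 52))))) (.rp 30 (.thr 23 20 (.thr 37 15 (.thr 52 7 (.thr 60 56 (.thr 3 41 (.thr 63 43 (.dbl 53 5 58))))))) (.rp 18 (.thr 23 20 (.thr 37 15 (.thr 52 7 (.thr 60 56 (.thr 3 41 (.thr 63 43 (.dbl 53 5 58))))))) (.rp 15 (.thr 18 30 (.thr 3 33 (.thr 51 35 (.thr 50 49 (.thr 38 14 (.thr 54 6 (.dbl 60 41 57)))))))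 (.rp 3 (.thr 30 18 (.thr 23 20 (.thr 31 27 (.thr 15 37 (.thr 63 47 (.thr 58 53 (.thr 42 10 (.thr 60 45 (.dbl 62 2 61))))))))) .nd)))))))))) .nd))))) (.rp 23 (.thr 25 28 (.str 3 (.nv (.thr 17 29 (.thr 18 16 (.thr 41 60 (.thr 1 61 (.dbl 33 48 49))))) (.nv (.thr 51 35 (.thr 60 41 (.thr 54 57 (.dbl 38 6 12)))) (.rp 60 (.thr 17 29 (.thr 18 16 (.thr 51 35 (.thr 48 33 (.thr 49 50 (.thr 37 13 (.dbl 26 15 30))))))) (.rp 55 (.str 7 (.nv (.thr 15 11 (.thr 17 29 (.thr 18 16 (.thr 48 33 (.dbl 26 30 37))))) (.nv (.thr 51 35 (.thr 60 41 (.thr 54 57 (.dbl 38 6 12)))) .nd))) (.rp 44 (.thr 51 35 (.thr 12 38 (.thr 41 60 (.dbl 9 6 57)))) (.rp 41 (.thr 17 29 (.thr 18 16 (.thr 51 35 (.thr 38 12 (.thr 48 33 (.thr 50 49 (.dbl 26 14 30))))))) (.rp 12 (.thr 17 29 (.thr 18 16 (.thr 51 35 (.thr 48 33 (.thr 49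 50 (.thr 37 13 (.dbl 26 15 30))))))) (.rp 7 (.str 55 (.nv (.thr 38 4 (.thr 6 54 (.dbl 12 9 51))) (.nv (.thr 51 35 (.dbl 38 4 12)) (.rp 51 (.thr 17 29 (.thr 18 16 (.thr 41 60 (.thr 1 61 (.dbl 33 48 49))))) (.rp 38 (.thr 17 29 (.thr 18 16 (.thr 41 60 (.thr 1 61 (.dbl 33 48 49))))) (.rp 12 (.thr 51 35 (.thr 60 41 (.thr 54 57 (.dbl 38 4 6)))) (.rp 4 (.thr 29 17 (.thr 51 35 (.thr 63 59 (.dbl 12 38 46)))) .nd))))))) .nd)))))))))) (.rp 20 (.str 18 (.nv (.thr 17 16 (.dbl 25 28 29)) (.nv (.thr 26 30 (.dbl 16 17 31)) (.rp 60 (.str 40 (.nv (.thr 17 16 (.dbl 25 28 29)) (.nv (.thr 16 17 (.dbl 26 30 31)) (.rp 17 (.thr 26 30 (.thr 31 16 (.thr 27 23 (.dbl 25 24 28)))) (.rp 16 (.thr 26 30 (.thr 25 28 (.thr 24 27 (.thr 8 56 (.thr 42 59 (.thr 2 62 (.thr 50 34 (.thr 14 38 (.dbl 10 6 58))))))))) .nd)))))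 (.rp 40 (.str 60 (.nv (.thr 17 16 (.dbl 25 28 29)) (.nv (.thr 26 30 (.dbl 16 17 31)) (.rp 17 (.thr 26 30 (.thr 31 16 (.thr 27 23 (.dbl 25 24 28)))) (.rp 16 (.thr 26 30 (.thr 3 41 (.thr 48 33 (.thr 52 56 (.dbl 37 7 15))))) .nd))))) (.rp 17 (.thr 26 30 (.thr 31 16 (.thr 27 23 (.dbl 25 24 28)))) (.rp 16 (.thr 28 25 (.str 60 (.nv (.thr 30 26 (.thr 29 31 (.thr 12 44 (.thr 15 45 (.thr 46 63 (.dbl 14 13 62)))))) (.nv (.thr 3 41 (.thr 26 30 (.thr 48 33 (.thr 52 56 (.dbl 37 7 15))))) (.rp 48 (.str 32 (.nv (.thr 30 26 (.thr 29 31 (.thr 41 3 (.thr 45 15 (.thr 37 33 (.dbl 61 1 13)))))) (.nv (.thr 3 41 (.thr 12 44 (.thr 26 30 (.thr 35 51 (.thr 34 33 (.thr 50 2 (.thr 38 14 (.dbl 6 9 54)))))))) (.nv (.thr 30 26 (.thr 29 31 (.thr 12 44 (.thr 63 46 (.thr 61 62 (.dbl 45 13 15)))))) (.rp 45 (.thr 26 30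 (.thr 44 12 (.thr 41 3 (.thr 38 35 (.thr 50 14 (.thr 2 34 (.thr 62 42 (.dbl 54 6 58)))))))) (.rp 37 (.thr 30 26 (.thr 15 45 (.thr 29 31 (.thr 12 44 (.thr 46 63 (.dbl 14 13 62)))))) (.rp 30 (.str 50 (.nv (.thr 2 34 (.thr 41 3 (.thr 42 62 (.thr 44 12 (.dbl 40 36 43))))) (.nv (.thr 34 2 (.thr 35 33 (.dbl 3 41 51))) (.rp 51 (.thr 34 2 (.thr 35 33 (.thr 41 3 (.thr 1 61 (.dbl 44 12 38))))) (.rp 41 (.thr 2 34 (.thr 62 42 (.thr 54 58 (.thr 63 61 (.thr 38 6 (.thr 55 4 (.dbl 51 57 59))))))) (.rp 34 (.thr 44 12 (.thr 41 3 (.thr 38 35 (.thr 6 54 (.thr 14 26 (.thr 2 10 (.thr 42 62 (.dbl 40 36 43)))))))) (.rp 3 (.thr 44 12 (.thr 2 34 (.thr 62 42 (.thr 61 63 (.thr 41 1 (.thr 38 35 (.dbl 54 6 58))))))) (.rp 2 (.thr 44 12 (.thr 41 3 (.thr 1 61 (.thr 38 35 (.thr 4 55 (.thr 26 14 (.thr 56 11 (.thr 40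 36 (.thr 24 8 (.thr 42 43 (.thr 47 37 (.dbl 46 34 45)))))))))))) .nd)))))))) (.rp 27 (.thr 26 30 (.thr 44 12 (.thr 41 3 (.thr 38 35 (.thr 50 14 (.thr 2 34 (.thr 62 42 (.dbl 54 6 58)))))))) (.rp 26 (.thr 12 44 (.str 15 (.nv (.thr 13 14 (.thr 41 3 (.thr 45 30 (.dbl 61 1 29)))) (.nv (.thr 41 3 (.thr 45 30 (.thr 37 33 (.thr 47 42 (.thr 63 31 (.dbl 61 1 62)))))) (.nv (.thr 3 41 (.thr 9 6 (.thr 13 14 (.thr 5 1 (.thr 37 53 (.dbl 7 11 52)))))) (.nv (.thr 14 13 (.thr 30 45 (.thr 46 62 (.dbl 29 31 63)))) (.rp 27 (.str 24 (.nv (.thr 13 14 (.thr 41 3 (.thr 45 30 (.dbl 61 1 29)))) (.nv (.thr 41 3 (.thr 45 30 (.thr 37 33 (.thr 47 42 (.thr 63 31 (.dbl 61 1 62)))))) (.nv (.thr 3 41 (.thr 9 6 (.thr 13 14 (.thr 5 1 (.thr 37 53 (.dbl 7 11 52)))))) (.nv (.thr 14 13 (.thr 30 45 (.thr 29 31 (.dbl 46 62 63))))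 .nd))))) (.rp 24 (.str 27 (.nv (.thr 13 14 (.thr 41 3 (.thr 45 30 (.dbl 61 1 29)))) (.nv (.thr 3 41 (.thr 11 7 (.thr 23 31 (.dbl 43 59 63)))) (.nv (.thr 31 23 (.dbl 30 29 45)) .nd)))) .nd)))))))) (.rp 15 (.thr 26 30 (.thr 44 12 (.thr 41 3 (.thr 38 35 (.thr 4 55 (.thr 6 54 (.thr 14 50 (.thr 10 2 (.thr 1 61 (.thr 11 56 (.thr 9 8 (.dbl 5 7 13)))))))))))) .nd)))))))))) (.rp 45 (.thr 26 30 (.thr 3 41 (.thr 48 33 (.thr 37 15 (.dbl 52 7 56))))) (.rp 32 (.str 48 (.nv (.thr 26 30 (.thr 37 15 (.dbl 52 7 56))) (.nv (.dbl 3 33 41) .nd))) (.rp 30 (.thr 3 41 (.thr 51 35 (.thr 48 33 (.thr 52 56 (.thr 37 7 (.thr 53 5 (.dbl 54 55 57))))))) (.rp 26 (.thr 3 41 (.thr 51 35 (.thr 57 54 (.thr 48 33 (.thr 49 50 (.thr 56 52 (.thr 53 61 (.dbl 58 59 63)))))))) (.rp 15 (.thr 30 26 (.thr 29 31 (.thr 12 44 (.thr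 63 46 (.thr 61 62 (.dbl 41 1 3)))))) .nd)))))))))) .nd))))))) (.rp 18 (.str 3 (.nv (.thr 25 28 (.thr 41 60 (.thr 9 57 (.thr 12 6 (.dbl 51 35 38))))) (.nv (.thr 23 20 (.thr 25 28 (.thr 27 31 (.thr 43 63 (.thr 59 11 (.thr 42 8 (.dbl 41 40 60))))))) (.nv (.thr 25 28 (.thr 51 35 (.thr 60 41 (.thr 54 57 (.dbl 38 6 12))))) (.rp 60 (.thr 25 28 (.thr 29 17 (.thr 51 35 (.thr 12 38 (.thr 63 46 (.dbl 23 20 43)))))) (.rp 41 (.thr 23 20 (.thr 25 28 (.thr 29 17 (.thr 63 43 (.thr 12 46 (.dbl 51 35 38)))))) (.rp 28 (.thr 23 20 (.thr 51 35 (.thr 60 41 (.thr 54 57 (.thr 38 6 (.thr 55 4 (.dbl 63 43 59))))))) (.rp 25 (.thr 23 20 (.thr 31 27 (.thr 26 16 (.thr 63 43 (.thr 35 51 (.thr 15 47 (.thr 11 7 (.dbl 41 56 60)))))))) (.rp 12 (.thr 23 20 (.thr 31 27 (.thr 28 25 (.thr 30 29 (.thr 63 43 (.thr 60 41 (.dbl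 15 45 47))))))) .nd))))))))) (.rp 17 (.thr 23 20 (.thr 31 27 (.thr 26 16 (.thr 30 18 (.dbl 28 25 29))))) (.rp 16 (.str 3 (.nv (.thr 25 28 (.thr 41 60 (.thr 9 57 (.thr 12 6 (.dbl 51 35 38))))) (.nv (.thr 25 28 (.thr 29 17 (.thr 51 35 (.thr 12 38 (.thr 63 46 (.dbl 23 20 43)))))) (.nv (.thr 23 20 (.thr 28 25 (.thr 31 27 (.thr 30 29 (.thr 60 41 (.thr 15 45 (.dbl 63 43 47))))))) (.nv (.thr 51 35 (.thr 60 41 (.thr 54 57 (.thr 38 6 (.dbl 25 12 28))))) (.rp 51 (.thr 23 20 (.thr 28 25 (.thr 63 43 (.thr 60 41 (.thr 12 44 (.thr 29 46 (.dbl 31 27 30))))))) (.rp 48 (.str 32 (.nv (.thr 25 28 (.thr 17 29 (.thr 35 51 (.thr 33 34 (.thr 41 60 (.dbl 1 49 61)))))) (.nv (.thr 23 20 (.thr 43 63 (.thr 41 60 (.thr 40 42 (.thr 44 36 (.dbl 35 38 51)))))) (.nv (.thr 51 35 (.thr 60 41 (.thr 54 57 (.thr 38 6 (.dbl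 25 12 28))))) (.rp 60 (.thr 51 35 (.thr 25 28 (.thr 12 38 (.thr 29 17 (.thr 63 46 (.dbl 23 20 43)))))) (.rp 51 (.thr 23 20 (.thr 28 25 (.thr 60 41 (.thr 12 44 (.thr 63 43 (.thr 29 46 (.dbl 31 27 30))))))) (.rp 44 (.thr 51 35 (.thr 25 28 (.thr 38 12 (.thr 60 41 (.dbl 54 6 57))))) (.rp 41 (.thr 51 35 (.thr 20 23 (.thr 25 28 (.thr 38 12 (.thr 6 54 (.thr 4 55 (.thr 7 5 (.dbl 52 36 37)))))))) (.rp 35 (.thr 23 20 (.thr 28 25 (.thr 31 27 (.thr 30 29 (.thr 60 41 (.thr 15 45 (.dbl 63 43 47))))))) (.rp 28 (.thr 51 35 (.thr 60 41 (.thr 54 57 (.thr 38 6 (.thr 55 4 (.thr 63 59 (.dbl 23 20 43))))))) (.rp 12 (.thr 35 51 (.thr 23 20 (.thr 43 63 (.thr 41 60 (.thr 40 42 (.dbl 44 36 38)))))) .nd))))))))))) (.rp 41 (.thr 23 20 (.thr 27 31 (.thr 25 28 (.thr 24 26 (.thr 29 17 (.thr 63 43 (.thr 12 46 (.dbl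 51 35 38)))))))) (.rp 32 (.str 48 (.nv (.thr 25 28 (.thr 41 60 (.thr 9 57 (.thr 12 6 (.dbl 51 35 38))))) (.nv (.thr 33 18 (.thr 51 35 (.thr 49 50 (.thr 17 1 (.dbl 25 28 29))))) (.nv (.thr 33 18 (.thr 41 60 (.thr 37 45 (.thr 15 26 (.dbl 7 11 52))))) .nd)))) (.rp 28 (.thr 51 35 (.thr 60 41 (.thr 54 57 (.thr 38 6 (.thr 55 4 (.thr 63 59 (.dbl 23 20 43))))))) (.rp 25 (.thr 23 20 (.thr 31 27 (.thr 63 43 (.thr 35 51 (.thr 15 47 (.thr 60 41 (.thr 62 61 (.thr 30 45 (.thr 46 14 (.dbl 29 12 28)))))))))) .nd))))))))))) .nd)))))))))))))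

theorem w62 : WinAt (6291456, 549755813889) :=
  chF (K := []) kn c62 6291456 549755813889 39
    [] (by decide +kernel) (by decide +kernel)

/-- A certificate. -/
noncomputable def c63 : Ct := (.str 16 (.nv (.thr 26 31 (.thr 18 30 (.thr 19 17 (.dbl 28 24 25)))) (.nv (.thr 28 24 (.thr 19 25 (.thr 26 31 (.dbl 18 17 30)))) (.rp 31 (.str 37 (.nv (.thr 52 7 (.thr 4 36 (.thr 55 38 (.dbl 53 5 54)))) (.nv (.thr 53 5 (.thr 52 7 (.thr 55 54 (.dbl 4 36 38)))) (.rp 55 (.thr 28 24 (.thr 19 25 (.thr 18 17 (.thr 26 30 (.thr 48 15 (.thr 3 33 (.thr 60 41 (.dbl 52 7 56)))))))) (.rp 54 (.thr 52 7 (.thr 28 24 (.thr 19 25 (.thr 18 17 (.thr 26 30 (.thr 48 15 (.thr 3 33 (.dbl 60 41 56)))))))) (.rp 53 (.thr 52 7 (.thr 28 24 (.thr 19 25 (.thr 18 17 (.thr 26 30 (.thr 48 15 (.thr 3 33 (.dbl 60 41 56))))))))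 (.rp 52 (.thr 28 24 (.thr 19 25 (.thr 18 17 (.thr 26 30 (.thr 48 15 (.thr 3 33 (.thr 51 35 (.thr 49 50 (.thr 60 41 (.thr 57 54 (.dbl 53 5 61))))))))))) (.rp 38 (.thr 52 7 (.thr 28 24 (.thr 19 25 (.thr 18 17 (.thr 26 30 (.thr 48 15 (.thr 3 33 (.dbl 60 41 56)))))))) (.rp 36 (.thr 52 7 (.thr 28 24 (.thr 19 25 (.thr 18 17 (.thr 26 30 (.thr 48 15 (.thr 3 33 (.dbl 60 41 56)))))))) (.rp 27 (.str 19 (.nv (.dbl 28 24 25) (.rp 28 (.thr 53 5 (.thr 52 7 (.thr 55 54 (.dbl 4 36 38)))) (.rp 25 (.thr 53 5 (.thr 52 7 (.thr 55 54 (.dbl 4 36 38)))) (.rp 24 (.thr 17 18 (.dbl 25 28 29)) .nd))))) (.rp 19 (.str 27 (.nv (.thr 24 28 (.thr 26 25 (.thr 15 48 (.thr 39 51 (.thr 52 7 (.dbl 36 4 38)))))) (.nv (.thr 53 5 (.thr 52 7 (.thr 55 54 (.dbl 4 36 38)))) (.rp 52 (.thr 5 53 (.thr 24 28 (.thr 25 26 (.thr 13 49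 (.thr 1 9 (.thr 29 17 (.dbl 61 41 45))))))) (.rp 38 (.thr 52 7 (.thr 36 4 (.thr 24 28 (.thr 26 25 (.dbl 48 12 15))))) (.rp 36 (.thr 5 53 (.thr 24 28 (.thr 25 26 (.thr 13 49 (.thr 1 9 (.thr 29 17 (.dbl 61 41 45))))))) (.rp 15 (.thr 52 7 (.thr 4 36 (.thr 55 38 (.dbl 53 5 54)))) (.rp 7 (.thr 24 28 (.thr 26 25 (.thr 48 15 (.thr 36 12 (.thr 4 52 (.dbl 38 39 55)))))) (.rp 4 (.thr 5 53 (.thr 24 28 (.thr 25 26 (.thr 13 49 (.thr 1 9 (.thr 29 17 (.dbl 61 41 45))))))) .nd))))))))) (.rp 7 (.thr 28 24 (.thr 19 25 (.thr 18 17 (.thr 26 30 (.thr 48 15 (.thr 3 33 (.thr 51 35 (.thr 49 50 (.thr 60 41 (.thr 57 54 (.dbl 53 5 61))))))))))) (.rp 5 (.thr 7 52 (.thr 28 24 (.thr 19 25 (.thr 18 17 (.thr 26 30 (.thr 15 48 (.thr 3 11 (.thr 60 41 (.thr 12 44 (.thr 14 13 (.thr 38 50 (.dbl 6 9 54)))))))))))) (.rp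 4 (.thr 52 7 (.thr 28 24 (.thr 19 25 (.thr 18 17 (.thr 26 30 (.thr 48 15 (.thr 3 33 (.dbl 60 41 56)))))))) .nd)))))))))))))) (.rp 30 (.str 4 (.nv (.thr 24 28 (.thr 36 52 (.thr 12 48 (.thr 38 55 (.thr 25 51 (.dbl 26 27 31)))))) (.nv (.thr 52 36 (.thr 7 37 (.thr 38 55 (.dbl 6 5 54)))) (.rp 55 (.thr 28 24 (.thr 25 19 (.thr 52 36 (.thr 7 37 (.thr 6 5 (.thr 38 54 (.thr 12 51 (.thr 3 9 (.dbl 60 41 44))))))))) (.rp 54 (.thr 28 24 (.thr 19 25 (.thr 18 17 (.thr 26 31 (.thr 52 36 (.thr 37 7 (.thr 48 15 (.thr 3 33 (.dbl 60 41 56))))))))) (.rp 52 (.thr 28 24 (.thr 25 19 (.thr 38 55 (.thr 12 51 (.thr 60 44 (.thr 3 41 (.dbl 6 9 54))))))) (.rp 38 (.thr 28 24 (.thr 19 25 (.thr 18 17 (.thr 26 31 (.thr 52 36 (.thr 37 7 (.thr 48 15 (.thr 3 33 (.dbl 60 41 56))))))))) (.rp 36 (.thr 28 24 (.thr 25 19 (.thr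 38 55 (.thr 6 54 (.thr 12 51 (.thr 3 9 (.dbl 60 41 44))))))) (.rp 7 (.thr 24 28 (.thr 36 52 (.thr 12 48 (.thr 38 55 (.thr 39 37 (.thr 25 51 (.dbl 26 27 31))))))) .nd))))))))) (.rp 28 (.str 4 (.nv (.thr 38 55 (.thr 6 54 (.thr 7 5 (.dbl 52 36 37)))) (.nv (.thr 52 36 (.thr 7 37 (.thr 38 55 (.dbl 6 5 54)))) (.rp 55 (.thr 26 31 (.thr 30 18 (.thr 52 36 (.thr 7 37 (.thr 6 5 (.thr 38 54 (.thr 14 50 (.thr 62 46 (.dbl 2 10 42))))))))) (.rp 54 (.thr 26 31 (.thr 52 36 (.thr 37 7 (.thr 48 15 (.thr 60 56 (.thr 3 41 (.dbl 18 30 33))))))) (.rp 52 (.thr 26 31 (.thr 30 18 (.thr 38 55 (.thr 14 50 (.thr 62 46 (.thr 2 42 (.dbl 6 10 54))))))) (.rp 38 (.thr 26 31 (.thr 52 36 (.thr 37 7 (.thr 48 15 (.thr 60 56 (.thr 3 41 (.dbl 18 30 33))))))) (.rp 37 (.thr 26 31 (.thr 30 18 (.thr 38 55 (.thr 6 54 (.thr 14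 50 (.thr 2 10 (.dbl 62 42 46))))))) (.rp 36 (.thr 26 31 (.thr 30 18 (.thr 38 55 (.thr 6 54 (.thr 14 50 (.thr 2 10 (.dbl 62 42 46))))))) (.rp 7 (.thr 26 31 (.thr 30 18 (.thr 36 52 (.thr 38 55 (.thr 39 37 (.thr 14 50 (.thr 62 46 (.thr 2 42 (.dbl 6 10 54))))))))) (.rp 6 (.thr 52 36 (.thr 37 7 (.thr 53 5 (.dbl 55 38 54)))) (.rp 5 (.thr 26 31 (.thr 30 18 (.thr 38 55 (.thr 6 54 (.thr 14 50 (.thr 62 46 (.dbl 2 10 42))))))) .nd)))))))))))) (.rp 26 (.str 4 (.nv (.thr 52 36 (.thr 37 7 (.thr 55 38 (.dbl 53 5 54)))) (.nv (.thr 38 55 (.thr 6 54 (.thr 7 5 (.dbl 52 36 37)))) (.nv (.thr 38 55 (.thr 6 54 (.thr 52 36 (.dbl 7 5 37)))) (.rp 55 (.thr 28 24 (.thr 25 19 (.thr 52 36 (.thr 7 37 (.thr 6 5 (.thr 38 54 (.thr 12 51 (.thr 3 9 (.dbl 60 41 44))))))))) (.rp 54 (.thr 28 24 (.thr 25 19 (.thr 17 29 (.thr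 52 36 (.thr 37 7 (.thr 53 5 (.thr 49 13 (.thr 61 57 (.dbl 1 33 41))))))))) (.rp 52 (.thr 28 24 (.thr 25 19 (.thr 38 55 (.thr 12 51 (.thr 60 44 (.thr 3 41 (.dbl 6 9 54))))))) (.rp 38 (.thr 28 24 (.thr 25 19 (.thr 17 29 (.thr 52 36 (.thr 37 7 (.thr 53 5 (.thr 49 13 (.thr 61 57 (.dbl 1 33 41))))))))) (.rp 37 (.thr 28 24 (.thr 25 19 (.thr 38 55 (.thr 6 54 (.thr 12 51 (.thr 3 9 (.dbl 60 41 44))))))) (.rp 36 (.thr 28 24 (.thr 25 19 (.thr 38 55 (.thr 6 54 (.thr 12 51 (.thr 3 9 (.dbl 60 41 44))))))) (.rp 7 (.thr 28 24 (.thr 25 19 (.thr 36 52 (.thr 38 55 (.thr 39 37 (.thr 12 51 (.thr 60 44 (.thr 3 41 (.dbl 6 9 54))))))))) (.rp 5 (.thr 28 24 (.thr 25 19 (.thr 38 55 (.thr 6 54 (.thr 12 51 (.thr 3 9 (.dbl 60 41 44))))))) .nd)))))))))))) (.rp 25 (.str 4 (.nv (.thr 24 28 (.thr 26 31 (.thr 36 52 (.thr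 48 12 (.thr 37 15 (.dbl 38 39 55)))))) (.nv (.thr 38 55 (.thr 6 54 (.thr 52 36 (.dbl 7 5 37)))) (.rp 55 (.thr 26 31 (.thr 30 18 (.thr 52 36 (.thr 7 37 (.thr 6 5 (.thr 38 54 (.thr 14 50 (.thr 62 46 (.dbl 2 10 42))))))))) (.rp 52 (.thr 26 31 (.thr 18 30 (.thr 38 55 (.thr 54 6 (.thr 50 14 (.thr 62 58 (.dbl 2 34 42))))))) (.rp 44 (.thr 38 55 (.thr 6 54 (.thr 7 5 (.dbl 52 36 37)))) (.rp 39 (.thr 52 36 (.thr 7 37 (.thr 38 55 (.dbl 6 5 54)))) (.rp 38 (.thr 26 31 (.thr 18 30 (.thr 52 36 (.thr 37 7 (.thr 48 15 (.thr 60 56 (.dbl 3 33 41))))))) (.rp 37 (.thr 26 31 (.thr 18 30 (.thr 38 55 (.thr 54 6 (.thr 50 14 (.thr 62 58 (.dbl 2 34 42))))))) (.rp 36 (.thr 26 31 (.thr 18 30 (.thr 38 55 (.thr 54 6 (.thr 50 14 (.thr 62 58 (.dbl 2 34 42))))))) (.rp 5 (.thr 24 28 (.thr 26 31 (.thr 36 52 (.thr 48 12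 (.thr 38 55 (.dbl 37 15 39)))))) .nd))))))))))) (.rp 24 (.str 4 (.nv (.thr 38 55 (.thr 6 54 (.thr 7 5 (.dbl 52 36 37)))) (.nv (.thr 52 36 (.thr 7 37 (.thr 38 55 (.dbl 6 5 54)))) (.rp 56 (.str 8 (.nv (.thr 52 36 (.thr 7 37 (.thr 38 55 (.dbl 6 5 54)))) (.nv (.thr 38 55 (.thr 6 54 (.thr 7 5 (.dbl 52 36 37)))) (.rp 55 (.thr 26 31 (.thr 30 18 (.thr 52 36 (.thr 7 37 (.thr 6 5 (.thr 38 54 (.thr 14 50 (.thr 62 46 (.dbl 2 10 42))))))))) (.rp 54 (.thr 26 31 (.thr 30 18 (.thr 52 36 (.thr 7 37 (.thr 6 5 (.thr 38 55 (.thr 14 50 (.thr 62 46 (.dbl 2 10 42))))))))) (.rp 52 (.thr 26 31 (.thr 18 30 (.thr 38 55 (.thr 50 14 (.thr 2 34 (.thr 54 6 (.dbl 62 42 58))))))) (.rp 38 (.thr 26 31 (.thr 18 30 (.thr 19 17 (.thr 52 36 (.thr 37 7 (.thr 48 15 (.thr 3 33 (.thr 51 35 (.thr 49 50 (.dbl 25 13 28))))))))))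 (.rp 37 (.thr 26 31 (.thr 18 30 (.thr 38 55 (.thr 50 14 (.thr 2 34 (.thr 54 6 (.dbl 62 42 58))))))) (.rp 36 (.thr 26 31 (.thr 18 30 (.thr 38 55 (.thr 50 14 (.thr 2 34 (.thr 54 6 (.dbl 62 42 58))))))) (.rp 7 (.thr 26 31 (.thr 18 30 (.thr 36 52 (.thr 38 55 (.thr 39 37 (.thr 50 14 (.thr 2 34 (.thr 54 6 (.dbl 62 42 58))))))))) (.rp 6 (.thr 52 36 (.thr 37 7 (.thr 53 5 (.dbl 55 38 54)))) (.rp 5 (.thr 26 31 (.thr 18 30 (.thr 38 55 (.thr 50 14 (.thr 2 34 (.thr 54 6 (.dbl 62 42 58))))))) .nd)))))))))))) (.rp 55 (.thr 26 31 (.thr 30 18 (.thr 52 36 (.thr 7 37 (.thr 6 5 (.thr 38 54 (.thr 14 50 (.thr 62 46 (.dbl 2 10 42))))))))) (.rp 54 (.thr 26 31 (.thr 18 30 (.thr 52 36 (.thr 37 7 (.thr 48 15 (.thr 3 33 (.dbl 60 41 56))))))) (.rp 52 (.thr 26 31 (.thr 18 30 (.thr 38 55 (.thr 54 6 (.thr 50 14 (.thr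 62 58 (.dbl 2 34 42))))))) (.rp 38 (.thr 26 31 (.thr 18 30 (.thr 52 36 (.thr 37 7 (.thr 48 15 (.thr 3 33 (.dbl 60 41 56))))))) (.rp 37 (.thr 26 31 (.thr 18 30 (.thr 38 55 (.thr 54 6 (.thr 50 14 (.thr 62 58 (.dbl 2 34 42))))))) (.rp 36 (.thr 26 31 (.thr 18 30 (.thr 38 55 (.thr 54 6 (.thr 50 14 (.thr 62 58 (.dbl 2 34 42))))))) (.rp 8 (.str 56 (.nv (.thr 26 31 (.thr 41 11 (.thr 52 36 (.dbl 60 3 48)))) (.nv (.thr 38 55 (.thr 6 54 (.thr 7 5 (.dbl 52 36 37)))) (.nv (.thr 52 36 (.thr 48 60 (.thr 37 7 (.dbl 26 15 31)))) (.rp 52 (.thr 38 55 (.thr 54 6 (.thr 26 31 (.thr 18 30 (.thr 50 14 (.thr 2 34 (.dbl 62 42 58))))))) (.rp 36 (.thr 26 31 (.thr 41 11 (.thr 60 3 (.thr 48 52 (.thr 30 18 (.dbl 15 37 45)))))) .nd)))))) (.rp 7 (.thr 26 31 (.thr 18 30 (.thr 36 52 (.thr 38 55 (.thr 39 37 (.thr 54 6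 (.thr 50 14 (.thr 62 58 (.dbl 2 34 42))))))))) (.rp 6 (.thr 52 36 (.thr 37 7 (.thr 53 5 (.dbl 55 38 54)))) (.rp 5 (.thr 26 31 (.thr 18 30 (.thr 38 55 (.thr 54 6 (.thr 50 14 (.thr 62 58 (.dbl 2 34 42))))))) .nd)))))))))))))) (.rp 19 (.thr 24 28 (.thr 26 31 (.thr 27 25 (.thr 30 18 (.str 48 (.nv (.thr 36 12 (.thr 4 52 (.thr 38 55 (.dbl 37 15 39)))) (.nv (.thr 15 37 (.thr 60 45 (.thr 56 52 (.dbl 41 3 11)))) (.rp 60 (.thr 37 15 (.thr 52 7 (.dbl 36 4 12))) (.rp 52 (.thr 15 37 (.thr 51 39 (.thr 60 45 (.thr 54 57 (.thr 38 6 (.dbl 50 14 49)))))) (.rp 37 (.thr 36 12 (.thr 4 52 (.thr 38 55 (.thr 14 50 (.thr 62 46 (.thr 2 42 (.dbl 6 10 54))))))) (.rp 15 (.thr 36 12 (.thr 4 52 (.thr 38 55 (.thr 14 50 (.thr 62 46 (.thr 2 42 (.dbl 6 10 54))))))) .nd))))))))))) (.rp 18 (.thr 28 24 (.thr 25 19 (.thr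 29 17 (.dbl 31 26 30)))) (.rp 17 (.thr 24 28 (.thr 26 31 (.thr 30 18 (.thr 27 25 (.str 38 (.nv (.thr 4 55 (.thr 36 52 (.thr 48 12 (.dbl 37 15 39)))) (.nv (.thr 14 50 (.thr 62 46 (.thr 6 54 (.dbl 2 10 42)))) (.rp 54 (.thr 14 50 (.thr 62 46 (.thr 4 55 (.thr 52 36 (.thr 7 37 (.thr 6 5 (.dbl 2 10 42))))))) (.rp 51 (.str 34 (.nv (.thr 4 55 (.thr 6 54 (.thr 7 5 (.dbl 52 36 37)))) (.nv (.thr 14 50 (.dbl 46 42 62)) .nd))) (.rp 34 (.str 51 (.nv (.thr 54 6 (.thr 60 57 (.dbl 15 39 45))) (.nv (.thr 50 14 (.thr 15 39 (.dbl 48 37 49))) (.rp 50 (.str 2 (.nv (.thr 15 39 (.thr 48 37 (.thr 36 12 (.dbl 4 52 55)))) (.nv (.thr 6 54 (.thr 10 14 (.dbl 42 58 62))) .nd))) (.rp 39 (.thr 50 14 (.thr 48 49 (.thr 36 12 (.dbl 4 52 55)))) (.rp 15 (.thr 50 14 (.thr 48 49 (.thr 4 55 (.dbl 36 12 52)))) .nd)))))) .nd))))))))))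 .nd))))))))))))

theorem w63 : WinAt (7340032, 1099520016385) :=
  chF (K := []) kn c63 7340032 1099520016385 23
    [] (by decide +kernel) (by decide +kernel)

/-- A certificate. -/
noncomputable def c64 : Ct := (.str 25 (.nv (.thr 20 23 (.thr 28 19 (.thr 16 24 (.thr 29 17 (.dbl 31 26 30))))) (.nv (.thr 17 29 (.thr 23 20 (.thr 19 28 (.thr 31 27 (.dbl 16 18 26))))) (.rp 31 (.str 38 (.nv (.thr 6 54 (.thr 12 51 (.thr 3 9 (.thr 23 20 (.thr 63 43 (.dbl 29 17 46)))))) (.nv (.thr 4 55 (.thr 20 23 (.thr 6 54 (.thr 52 36 (.dbl 7 5 37))))) (.rp 54 (.thr 23 20 (.thr 19 28 (.thr 51 12 (.thr 3 35 (.thr 63 43 (.dbl 55 4 59)))))) (.rp 23 (.thr 12 51 (.thr 4 55 (.thr 6 54 (.thr 7 5 (.thr 3 9 (.thr 15 11 (.thr 13 14 (.dbl 37 49 52)))))))) (.rp 20 (.thr 12 51 (.thr 4 55 (.thr 6 54 (.thr 7 5 (.thr 3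 9 (.thr 15 11 (.thr 13 14 (.dbl 37 49 52)))))))) (.rp 6 (.thr 23 20 (.thr 19 28 (.thr 51 12 (.thr 3 35 (.thr 63 43 (.dbl 55 4 59)))))) .nd))))))) (.rp 29 (.str 38 (.nv (.thr 19 28 (.thr 23 20 (.thr 51 12 (.thr 3 35 (.thr 63 43 (.dbl 55 4 59)))))) (.nv (.thr 4 55 (.thr 20 23 (.thr 6 54 (.thr 52 36 (.dbl 7 5 37))))) (.rp 55 (.thr 20 23 (.thr 28 19 (.thr 24 16 (.thr 12 51 (.thr 48 36 (.thr 6 54 (.thr 3 9 (.thr 18 33 (.dbl 26 27 30))))))))) (.rp 39 (.thr 20 23 (.thr 6 54 (.thr 4 55 (.thr 7 5 (.dbl 52 36 37))))) (.rp 23 (.thr 12 51 (.thr 4 55 (.thr 6 54 (.thr 7 5 (.thr 3 9 (.thr 15 11 (.thr 13 14 (.dbl 37 49 52)))))))) (.rp 20 (.thr 12 51 (.thr 4 55 (.thr 6 54 (.thr 7 5 (.thr 3 9 (.thr 15 11 (.thr 13 14 (.dbl 37 49 52)))))))) (.rp 4 (.thr 20 23 (.thr 28 19 (.thr 24 16 (.thr 12 51 (.thr 48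 36 (.thr 6 54 (.thr 3 9 (.thr 18 33 (.dbl 26 27 30))))))))) .nd)))))))) (.rp 28 (.str 38 (.nv (.thr 6 54 (.thr 12 51 (.thr 3 9 (.thr 23 20 (.thr 63 43 (.dbl 29 17 46)))))) (.nv (.thr 4 55 (.thr 20 23 (.thr 6 54 (.thr 52 36 (.dbl 7 5 37))))) (.rp 54 (.thr 23 20 (.thr 12 51 (.thr 55 4 (.thr 39 7 (.thr 36 37 (.thr 24 48 (.thr 26 27 (.thr 18 30 (.thr 50 14 (.thr 29 17 (.thr 34 2 (.dbl 46 42 63)))))))))))) (.rp 23 (.thr 12 51 (.thr 4 55 (.thr 6 54 (.thr 7 5 (.thr 3 9 (.thr 15 11 (.thr 13 14 (.dbl 37 49 52)))))))) (.rp 20 (.thr 12 51 (.thr 4 55 (.thr 6 54 (.thr 7 5 (.thr 3 9 (.thr 15 11 (.thr 13 14 (.dbl 37 49 52)))))))) (.rp 6 (.str 7 (.nv (.thr 4 55 (.thr 20 23 (.dbl 52 36 37))) (.nv (.thr 55 4 (.dbl 23 20 39)) (.rp 55 (.thr 12 51 (.thr 37 52 (.thr 36 39 (.thr 13 49 (.thr 15 14 (.dbl 48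 24 26)))))) (.rp 23 (.thr 12 51 (.thr 37 52 (.thr 36 39 (.thr 13 49 (.thr 15 14 (.dbl 48 24 26)))))) (.rp 20 (.thr 55 4 (.thr 39 23 (.dbl 37 36 52))) (.rp 4 (.thr 23 20 (.thr 39 55 (.dbl 37 36 52))) .nd))))))) .nd))))))) (.rp 27 (.thr 29 17 (.thr 20 23 (.thr 28 19 (.thr 31 30 (.dbl 16 24 26))))) (.rp 26 (.thr 28 19 (.str 38 (.nv (.thr 20 23 (.thr 24 16 (.thr 12 51 (.thr 4 55 (.dbl 36 48 52))))) (.nv (.thr 6 54 (.thr 12 51 (.thr 3 9 (.thr 23 20 (.thr 63 43 (.dbl 29 17 46)))))) (.nv (.thr 4 55 (.thr 20 23 (.thr 6 54 (.thr 52 36 (.dbl 7 5 37))))) (.rp 56 (.str 11 (.nv (.thr 20 23 (.thr 24 16 (.thr 12 51 (.thr 4 55 (.dbl 36 48 52))))) (.nv (.thr 4 55 (.thr 6 54 (.thr 7 5 (.thr 12 51 (.dbl 3 9 15))))) (.nv (.thr 4 55 (.thr 20 23 (.thr 6 54 (.thr 52 36 (.dbl 7 5 37))))) (.rp 55 (.thr 23 20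 (.thr 12 51 (.thr 6 54 (.thr 3 9 (.thr 63 43 (.dbl 29 17 46)))))) (.rp 52 (.thr 12 51 (.thr 6 54 (.thr 3 9 (.thr 7 15 (.dbl 4 5 55))))) (.rp 7 (.thr 23 20 (.thr 12 51 (.thr 6 54 (.thr 3 9 (.thr 63 43 (.dbl 29 17 46)))))) (.rp 4 (.thr 23 20 (.thr 12 51 (.thr 6 54 (.thr 3 9 (.thr 63 43 (.dbl 29 17 46)))))) .nd)))))))) (.rp 23 (.thr 6 54 (.thr 4 55 (.thr 7 5 (.thr 52 37 (.thr 36 20 (.thr 12 51 (.thr 60 44 (.dbl 48 24 56)))))))) (.rp 20 (.thr 6 54 (.thr 4 55 (.thr 7 5 (.thr 52 37 (.thr 12 51 (.thr 60 44 (.thr 3 9 (.thr 56 48 (.thr 15 11 (.thr 45 30 (.thr 13 14 (.dbl 29 17 61)))))))))))) (.rp 11 (.str 56 (.nv (.thr 12 51 (.thr 54 6 (.thr 55 4 (.thr 52 53 (.dbl 60 44 48))))) (.nv (.thr 12 51 (.thr 60 44 (.thr 48 52 (.thr 24 36 (.dbl 20 16 23))))) (.nv (.thr 4 55 (.thr 20 23 (.thr 6 54 (.thr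 52 36 (.dbl 7 5 37))))) (.rp 52 (.thr 51 12 (.thr 54 6 (.thr 57 60 (.thr 59 58 (.dbl 55 4 63))))) .nd))))) .nd))))))))) (.rp 24 (.thr 17 29 (.thr 23 20 (.thr 19 28 (.thr 16 18 (.dbl 31 26 27))))) (.rp 23 (.str 38 (.nv (.thr 19 28 (.thr 17 29 (.thr 18 16 (.thr 51 12 (.thr 3 35 (.thr 48 33 (.thr 50 49 (.dbl 26 14 30)))))))) (.nv (.thr 4 55 (.thr 6 54 (.thr 7 5 (.thr 12 51 (.thr 3 9 (.thr 15 11 (.thr 13 14 (.dbl 37 49 52)))))))) (.nv (.thr 17 29 (.thr 19 28 (.thr 18 16 (.thr 6 54 (.thr 12 51 (.thr 3 9 (.thr 48 33 (.thr 24 36 (.dbl 26 27 30))))))))) (.rp 60 (.thr 6 54 (.thr 4 55 (.thr 7 5 (.thr 52 37 (.thr 20 36 (.thr 28 19 (.thr 16 24 (.thr 29 17 (.dbl 31 26 30))))))))) (.rp 51 (.thr 6 54 (.thr 4 55 (.thr 7 5 (.thr 52 37 (.thr 20 36 (.thr 28 19 (.thr 16 24 (.thr 31 26 (.dbl 29 17 30)))))))))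 (.rp 37 (.thr 54 6 (.thr 55 4 (.thr 52 53 (.thr 12 51 (.thr 28 19 (.thr 60 44 (.thr 48 56 (.thr 24 36 (.thr 16 20 (.dbl 26 27 31)))))))))) (.rp 26 (.thr 6 54 (.thr 4 55 (.thr 7 5 (.thr 52 37 (.thr 36 20 (.thr 12 51 (.thr 48 24 (.thr 28 19 (.dbl 60 44 56))))))))) (.rp 17 (.thr 6 54 (.thr 4 55 (.thr 7 5 (.thr 51 12 (.thr 19 28 (.thr 3 35 (.thr 15 11 (.thr 39 27 (.dbl 37 36 52))))))))) (.rp 12 (.thr 6 54 (.thr 4 55 (.thr 7 5 (.thr 52 37 (.thr 20 36 (.thr 28 19 (.thr 29 17 (.thr 31 30 (.dbl 16 24 26))))))))) (.rp 3 (.thr 6 54 (.thr 4 55 (.thr 7 5 (.thr 52 37 (.thr 20 36 (.thr 28 19 (.thr 16 24 (.thr 29 17 (.dbl 31 26 30))))))))) .nd))))))))))) (.rp 20 (.str 31 (.nv (.thr 19 28 (.thr 27 23 (.dbl 26 16 24))) (.nv (.thr 28 19 (.dbl 29 17 30)) (.rp 60 (.str 40 (.nv (.thr 19 28 (.thr 27 23 (.dbl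 26 16 24))) (.nv (.thr 28 19 (.dbl 29 17 30)) (.rp 28 (.thr 26 16 (.thr 24 27 (.thr 30 18 (.thr 8 56 (.thr 42 59 (.thr 62 2 (.thr 14 46 (.thr 58 10 (.dbl 50 38 54))))))))) (.rp 19 (.thr 29 17 (.thr 30 28 (.dbl 26 16 18))) .nd))))) (.rp 40 (.str 60 (.nv (.thr 19 28 (.thr 27 23 (.dbl 26 16 24))) (.nv (.thr 28 19 (.dbl 29 17 30)) (.rp 43 (.str 42 (.nv (.thr 19 28 (.thr 27 23 (.dbl 26 16 24))) (.nv (.thr 28 19 (.dbl 29 17 30)) (.rp 28 (.thr 62 2 (.thr 63 61 (.thr 15 47 (.thr 30 45 (.dbl 26 16 18))))) (.rp 19 (.thr 29 17 (.thr 30 28 (.dbl 26 16 18))) .nd))))) (.rp 42 (.str 43 (.nv (.thr 19 28 (.thr 27 23 (.dbl 26 16 24))) (.nv (.thr 28 19 (.dbl 29 17 30)) (.rp 28 (.thr 17 29 (.thr 16 26 (.thr 19 18 (.thr 23 27 (.thr 3 63 (.thr 51 35 (.thr 54 57 (.dbl 38 6 12)))))))) (.rp 19 (.thr 29 17 (.thr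 30 28 (.dbl 26 16 18))) .nd))))) (.rp 28 (.thr 26 16 (.thr 24 27 (.thr 30 18 (.thr 15 45 (.thr 63 47 (.thr 62 61 (.thr 46 14 (.dbl 29 12 17)))))))) (.rp 19 (.thr 29 17 (.thr 30 28 (.dbl 26 16 18))) .nd))))))) (.rp 28 (.thr 26 16 (.thr 24 27 (.str 48 (.nv (.thr 17 29 (.thr 18 30 (.thr 33 3 (.thr 37 15 (.dbl 49 1 13))))) (.nv (.thr 12 36 (.thr 29 17 (.thr 63 46 (.dbl 15 37 47)))) (.nv (.thr 37 15 (.thr 49 13 (.thr 51 50 (.dbl 12 36 38)))) (.rp 60 (.str 40 (.nv (.thr 8 56 (.thr 12 36 (.thr 29 17 (.thr 42 59 (.thr 46 63 (.dbl 38 34 51)))))) (.nv (.thr 8 56 (.thr 42 59 (.thr 58 10 (.thr 63 53 (.dbl 15 37 47))))) (.nv (.thr 12 36 (.thr 15 37 (.thr 14 13 (.dbl 38 50 51)))) (.rp 12 (.str 44 (.nv (.thr 8 56 (.thr 42 59 (.thr 58 10 (.thr 53 63 (.dbl 37 5 15))))) (.nv (.thr 32 36 (.thr 8 56 (.thr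 42 59 (.dbl 37 15 47)))) (.nv (.thr 8 56 (.thr 15 37 (.thr 63 47 (.thr 58 53 (.dbl 42 10 59))))) (.rp 59 (.thr 29 17 (.thr 32 36 (.thr 37 15 (.thr 47 42 (.thr 45 46 (.dbl 13 49 61)))))) (.rp 58 (.thr 32 36 (.thr 8 56 (.thr 37 15 (.dbl 42 47 59)))) (.rp 56 (.thr 29 17 (.thr 32 36 (.thr 37 15 (.thr 47 42 (.thr 45 46 (.dbl 13 49 61)))))) (.rp 42 (.thr 36 32 (.thr 37 15 (.thr 5 53 (.thr 7 52 (.thr 4 6 (.dbl 38 39 55)))))) (.rp 37 (.thr 30 18 (.thr 8 56 (.thr 42 59 (.thr 58 10 (.thr 62 2 (.thr 50 54 (.dbl 14 38 46))))))) (.rp 15 (.thr 30 18 (.thr 32 36 (.thr 8 56 (.thr 42 59 (.thr 47 37 (.thr 62 2 (.dbl 46 14 45))))))) (.rp 8 (.str 4 (.nv (.thr 37 15 (.thr 5 53 (.dbl 7 6 52))) (.nv (.thr 36 32 (.thr 38 55 (.dbl 37 15 39))) (.rp 39 (.thr 38 55 (.thr 6 54 (.thr 7 5 (.dbl 37 15 52)))) (.rp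 37 (.thr 17 29 (.thr 18 30 (.thr 33 3 (.thr 38 55 (.thr 50 14 (.dbl 49 1 51)))))) (.rp 15 (.thr 36 32 (.thr 38 55 (.thr 6 54 (.thr 5 7 (.dbl 37 39 53))))) .nd)))))) .nd))))))))))) .nd))))) (.rp 51 (.thr 12 36 (.thr 15 37 (.thr 63 47 (.dbl 29 17 46)))) (.rp 40 (.str 60 (.nv (.thr 30 18 (.dbl 15 37 45)) (.nv (.thr 52 56 (.dbl 37 7 15)) (.rp 43 (.str 42 (.nv (.thr 62 2 (.thr 63 61 (.dbl 58 10 53))) (.nv (.thr 52 56 (.dbl 37 7 15)) (.rp 59 (.str 11 (.nv (.thr 62 2 (.thr 63 61 (.dbl 58 10 53))) (.nv (.thr 15 37 (.dbl 30 18 45)) .nd))) (.rp 11 (.thr 59 8 (.thr 56 52 (.dbl 58 10 57))) .nd))))) (.rp 42 (.str 43 (.nv (.thr 30 18 (.dbl 15 37 45)) (.nv (.thr 52 56 (.dbl 37 7 15)) (.rp 37 (.thr 52 56 (.thr 12 36 (.thr 38 51 (.thr 54 6 (.dbl 55 4 53))))) (.rp 15 (.thr 52 56 (.thr 37 7 (.thr 49 13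 (.thr 51 50 (.dbl 12 36 38))))) .nd))))) (.rp 37 (.thr 30 18 (.thr 12 36 (.thr 38 51 (.thr 14 50 (.dbl 15 13 45))))) (.rp 15 (.thr 18 30 (.thr 12 36 (.thr 3 33 (.thr 6 9 (.dbl 38 51 54))))) .nd))))))) (.rp 37 (.thr 18 30 (.thr 12 36 (.thr 38 51 (.thr 6 54 (.dbl 3 9 33))))) (.rp 15 (.thr 18 30 (.thr 3 33 (.thr 12 36 (.thr 6 9 (.dbl 38 51 54))))) .nd))))))))))) (.rp 19 (.thr 29 17 (.thr 30 28 (.dbl 26 16 18))) .nd))))))) (.rp 19 (.str 38 (.nv (.thr 6 54 (.thr 12 51 (.thr 3 9 (.thr 23 20 (.thr 63 43 (.dbl 29 17 46)))))) (.nv (.thr 4 55 (.thr 20 23 (.thr 6 54 (.thr 52 36 (.dbl 7 5 37))))) (.rp 54 (.thr 23 20 (.thr 55 4 (.thr 39 7 (.thr 36 37 (.thr 12 51 (.thr 24 48 (.thr 26 27 (.thr 50 14 (.thr 18 30 (.thr 34 2 (.thr 29 17 (.dbl 46 42 63)))))))))))) (.rp 23 (.thr 6 54 (.thr 4 55 (.thr 7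 5 (.thr 12 51 (.thr 3 9 (.thr 15 11 (.thr 13 14 (.dbl 37 49 52)))))))) (.rp 20 (.thr 6 54 (.thr 4 55 (.thr 7 5 (.thr 12 51 (.thr 3 9 (.thr 15 11 (.thr 13 14 (.dbl 37 49 52)))))))) (.rp 6 (.thr 20 23 (.thr 4 55 (.thr 36 52 (.thr 12 51 (.thr 24 48 (.thr 16 28 (.dbl 26 27 31))))))) .nd))))))) (.rp 17 (.str 51 (.nv (.thr 20 23 (.thr 38 12 (.thr 6 54 (.thr 4 55 (.thr 7 5 (.dbl 52 36 37)))))) (.nv (.thr 19 28 (.thr 23 20 (.thr 27 31 (.thr 3 35 (.thr 15 39 (.thr 43 63 (.dbl 11 7 59))))))) (.nv (.thr 20 23 (.thr 38 12 (.thr 4 55 (.thr 6 54 (.thr 52 36 (.dbl 7 5 37)))))) (.rp 38 (.thr 19 28 (.thr 23 20 (.thr 27 31 (.thr 39 15 (.thr 55 7 (.thr 63 59 (.dbl 3 35 43))))))) (.rp 23 (.thr 19 28 (.thr 3 35 (.thr 38 12 (.thr 4 55 (.thr 6 54 (.thr 7 5 (.thr 15 11 (.thr 39 27 (.dbl 37 36 52))))))))) (.rp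 20 (.thr 19 28 (.thr 3 35 (.thr 38 12 (.thr 4 55 (.thr 6 54 (.thr 7 5 (.thr 15 11 (.thr 39 27 (.dbl 37 36 52))))))))) (.rp 7 (.thr 19 28 (.thr 23 20 (.thr 3 35 (.thr 63 43 (.thr 55 59 (.dbl 38 4 12)))))) .nd)))))))) (.rp 16 (.str 38 (.nv (.thr 6 54 (.thr 12 51 (.thr 3 9 (.thr 23 20 (.thr 63 43 (.dbl 29 17 46)))))) (.nv (.thr 4 55 (.thr 20 23 (.thr 6 54 (.thr 52 36 (.dbl 7 5 37))))) (.rp 54 (.thr 20 23 (.thr 4 55 (.thr 52 36 (.thr 7 37 (.thr 6 5 (.thr 12 51 (.thr 3 9 (.thr 15 11 (.thr 13 14 (.thr 28 19 (.thr 60 44 (.thr 45 30 (.dbl 29 17 61))))))))))))) (.rp 48 (.str 32 (.nv (.thr 6 54 (.thr 12 51 (.thr 3 9 (.thr 23 20 (.thr 63 43 (.dbl 29 17 46)))))) (.nv (.thr 20 23 (.thr 6 54 (.thr 4 55 (.thr 7 5 (.dbl 52 36 37))))) (.rp 54 (.thr 23 20 (.thr 55 4 (.thr 39 7 (.thr 36 37 (.thr 12 51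 (.thr 28 19 (.dbl 44 40 60))))))) (.rp 23 (.thr 6 54 (.thr 4 55 (.thr 7 5 (.thr 52 37 (.thr 36 20 (.thr 12 51 (.thr 28 19 (.dbl 44 40 60)))))))) (.rp 20 (.thr 6 54 (.thr 4 55 (.thr 7 5 (.thr 12 51 (.thr 3 9 (.thr 15 11 (.thr 13 14 (.dbl 37 49 52)))))))) (.rp 6 (.thr 20 23 (.thr 4 55 (.thr 36 52 (.thr 12 51 (.thr 28 19 (.dbl 44 40 60)))))) .nd))))))) (.rp 32 (.str 48 (.nv (.thr 4 55 (.thr 6 54 (.thr 7 5 (.thr 20 23 (.dbl 52 36 37))))) (.nv (.thr 51 12 (.thr 49 50 (.thr 37 13 (.thr 15 26 (.dbl 39 27 36))))) (.nv (.thr 20 23 (.thr 12 51 (.thr 36 24 (.dbl 4 52 55)))) (.rp 36 (.thr 23 20 (.thr 54 6 (.thr 55 4 (.thr 52 53 (.dbl 7 37 39))))) (.rp 4 (.thr 12 51 (.thr 36 24 (.thr 37 39 (.thr 13 49 (.dbl 15 14 26))))) .nd)))))) (.rp 23 (.thr 6 54 (.thr 4 55 (.thr 7 5 (.thr 12 51 (.thr 3 9 (.thr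 15 11 (.thr 13 14 (.dbl 37 49 52)))))))) (.rp 20 (.thr 6 54 (.thr 4 55 (.thr 7 5 (.thr 12 51 (.thr 3 9 (.thr 15 11 (.thr 13 14 (.dbl 37 49 52)))))))) (.rp 6 (.thr 23 20 (.thr 55 4 (.thr 7 39 (.thr 52 37 (.thr 53 54 (.thr 12 51 (.thr 28 19 (.thr 60 44 (.thr 48 56 (.thr 63 58 (.dbl 29 17 46))))))))))) .nd))))))))) .nd))))))))))))))

theorem w64 : WinAt (6291456, 2199023255553) :=
  chF (K := []) kn c64 6291456 2199023255553 41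
    [] (by decide +kernel) (by decide +kernel)

/-- A certificate. -/
noncomputable def c65 : Ct := (.str 26 (.nv (.thr 18 30 (.thr 16 31 (.thr 28 24 (.dbl 19 17 25)))) (.rp 31 (.str 37 (.nv (.thr 7 52 (.thr 15 48 (.thr 3 11 (.thr 30 18 (.dbl 60 41 45))))) (.nv (.thr 52 7 (.thr 4 36 (.thr 53 5 (.dbl 55 38 54)))) (.rp 52 (.thr 30 18 (.thr 15 48 (.thr 5 53 (.thr 60 45 (.thr 3 41 (.thr 7 11 (.thr 6 4 (.thr 12 9 (.thr 14 13 (.dbl 38 50 54)))))))))) (.rp 27 (.str 19 (.nv (.thr 52 7 (.thr 4 36 (.thr 53 5 (.dbl 55 38 54)))) (.nv (.thr 28 25 (.thr 16 24 (.dbl 18 17 30))) .nd))) (.rp 19 (.str 27 (.nv (.thr 5 53 (.thr 25 24 (.thr 13 49 (.thr 1 9 (.thr 29 17 (.dbl 61 41 45)))))) (.nv (.thr 25 24 (.thr 13 49 (.thr 15 48 (.thr 12 14 (.dbl 51 38 39))))) (.nv (.thr 53 5 (.thr 52 7 (.thr 55 54 (.dbl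 4 36 38)))) .nd)))) (.rp 15 (.thr 52 7 (.thr 4 36 (.thr 55 38 (.dbl 53 5 54)))) (.rp 7 (.thr 18 30 (.thr 48 15 (.thr 3 33 (.thr 60 41 (.thr 52 56 (.thr 4 36 (.thr 55 38 (.dbl 53 5 54)))))))) .nd)))))))) (.rp 30 (.str 37 (.nv (.thr 52 7 (.thr 4 36 (.thr 55 38 (.dbl 53 5 54)))) (.nv (.thr 16 31 (.thr 48 15 (.thr 52 7 (.thr 36 4 (.dbl 24 12 28))))) (.nv (.thr 52 7 (.thr 4 36 (.thr 53 5 (.dbl 55 38 54)))) (.rp 55 (.thr 16 31 (.thr 28 24 (.thr 19 25 (.thr 18 17 (.thr 48 15 (.thr 3 33 (.thr 60 41 (.dbl 52 7 56)))))))) (.rp 52 (.thr 16 31 (.thr 28 24 (.thr 19 25 (.thr 18 17 (.thr 48 15 (.thr 3 33 (.thr 51 35 (.thr 49 50 (.thr 60 41 (.thr 57 54 (.dbl 53 5 61))))))))))) (.rp 39 (.thr 53 5 (.thr 52 7 (.thr 55 54 (.dbl 4 36 38)))) (.rp 36 (.thr 16 31 (.thr 28 24 (.thr 19 25 (.thr 18 17 (.thr 48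 15 (.thr 3 33 (.thr 52 7 (.dbl 60 41 56)))))))) (.rp 7 (.thr 16 31 (.thr 28 24 (.thr 19 25 (.thr 18 17 (.thr 48 15 (.thr 3 33 (.thr 51 35 (.thr 49 50 (.thr 60 41 (.thr 57 54 (.dbl 53 5 61))))))))))) (.rp 5 (.thr 16 31 (.thr 28 24 (.thr 15 48 (.thr 7 52 (.thr 3 11 (.thr 60 41 (.thr 12 44 (.thr 13 14 (.dbl 25 19 49))))))))) (.rp 4 (.thr 16 31 (.thr 28 24 (.thr 19 25 (.thr 18 17 (.thr 48 15 (.thr 3 33 (.thr 52 7 (.dbl 60 41 56)))))))) .nd))))))))))) (.rp 28 (.str 37 (.nv (.thr 7 52 (.thr 15 48 (.thr 3 11 (.thr 30 18 (.dbl 60 41 45))))) (.nv (.thr 52 7 (.thr 4 36 (.thr 53 5 (.dbl 55 38 54)))) (.rp 52 (.thr 30 18 (.thr 15 48 (.thr 5 53 (.thr 60 45 (.thr 3 41 (.thr 7 11 (.thr 6 4 (.thr 12 9 (.thr 14 13 (.dbl 38 50 54)))))))))) (.rp 15 (.thr 52 7 (.thr 4 36 (.thr 55 38 (.dbl 53 5 54)))) (.rp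 7 (.thr 18 30 (.thr 48 15 (.thr 3 33 (.thr 60 41 (.thr 52 56 (.thr 4 36 (.thr 55 38 (.dbl 53 5 54)))))))) .nd)))))) (.rp 27 (.thr 18 30 (.thr 16 31 (.thr 19 17 (.dbl 28 24 25)))) (.rp 25 (.str 38 (.nv (.thr 4 55 (.thr 16 31 (.thr 24 28 (.thr 36 52 (.thr 48 12 (.dbl 37 15 39)))))) (.nv (.thr 6 54 (.thr 4 55 (.thr 52 36 (.dbl 7 5 37)))) (.rp 59 (.str 8 (.nv (.thr 4 55 (.thr 16 31 (.thr 24 28 (.thr 36 52 (.thr 48 12 (.dbl 37 15 39)))))) (.nv (.thr 6 54 (.thr 4 55 (.thr 52 36 (.dbl 7 5 37)))) (.rp 63 (.thr 6 54 (.thr 14 50 (.thr 10 2 (.thr 16 31 (.thr 24 28 (.thr 56 40 (.dbl 11 9 41))))))) (.rp 55 (.thr 6 54 (.thr 14 50 (.thr 10 2 (.thr 16 31 (.thr 24 28 (.thr 56 40 (.dbl 11 9 41))))))) (.rp 54 (.thr 16 31 (.thr 24 28 (.thr 56 40 (.thr 4 55 (.thr 52 36 (.thr 60 48 (.dbl 41 3 11))))))) (.rp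 52 (.thr 6 54 (.thr 14 50 (.thr 10 2 (.thr 16 31 (.thr 24 28 (.thr 56 40 (.dbl 11 9 41))))))) (.rp 51 (.thr 54 6 (.thr 50 14 (.thr 58 62 (.thr 55 4 (.thr 53 52 (.thr 48 63 (.dbl 37 5 15))))))) (.rp 39 (.thr 6 54 (.thr 4 55 (.thr 7 5 (.dbl 52 36 37)))) (.rp 37 (.thr 6 54 (.thr 14 50 (.thr 10 2 (.thr 16 31 (.thr 24 28 (.thr 56 40 (.dbl 11 9 41))))))) (.rp 36 (.thr 54 6 (.thr 50 14 (.thr 58 62 (.thr 55 4 (.thr 53 52 (.thr 48 63 (.dbl 37 5 15))))))) (.rp 7 (.thr 6 54 (.thr 14 50 (.thr 10 2 (.thr 16 31 (.thr 24 28 (.thr 56 40 (.dbl 11 9 41))))))) (.rp 4 (.thr 6 54 (.thr 14 50 (.thr 10 2 (.thr 16 31 (.thr 24 28 (.thr 56 40 (.dbl 11 9 41))))))) .nd))))))))))))) (.rp 55 (.thr 30 18 (.thr 14 50 (.thr 46 62 (.thr 31 16 (.thr 29 28 (.thr 12 63 (.thr 15 13 (.thr 60 45 (.thr 3 41 (.dbl 6 9 54))))))))))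 (.rp 54 (.thr 31 16 (.thr 18 30 (.str 48 (.nv (.thr 3 33 (.thr 41 60 (.thr 35 44 (.thr 50 14 (.dbl 51 19 49))))) (.nv (.thr 4 55 (.thr 52 36 (.dbl 37 7 15))) (.rp 59 (.str 8 (.nv (.thr 3 33 (.thr 60 41 (.thr 52 56 (.dbl 4 36 55)))) (.nv (.thr 3 33 (.thr 41 60 (.thr 35 44 (.thr 50 14 (.dbl 51 19 49))))) (.nv (.thr 4 55 (.thr 52 36 (.dbl 37 7 15))) .nd)))) (.rp 15 (.thr 4 55 (.thr 52 36 (.thr 60 56 (.dbl 3 33 41)))) (.rp 8 (.str 59 (.nv (.thr 3 33 (.thr 41 60 (.thr 35 44 (.thr 50 14 (.dbl 51 19 49))))) (.nv (.thr 4 55 (.thr 52 36 (.dbl 37 7 15))) (.rp 15 (.thr 50 14 (.thr 51 49 (.dbl 55 4 63))) (.rp 4 (.str 12 (.nv (.thr 36 24 (.dbl 37 15 39)) (.nv (.thr 14 50 (.dbl 15 13 37)) (.rp 37 (.thr 50 14 (.thr 3 33 (.thr 41 60 (.thr 35 44 (.dbl 51 19 49))))) (.rp 15 (.thr 50 14 (.thr 51 49 (.thr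 3 33 (.thr 35 19 (.dbl 41 44 60))))) .nd))))) .nd))))) .nd)))))))) (.rp 52 (.thr 30 18 (.thr 14 50 (.thr 46 62 (.thr 31 16 (.thr 29 28 (.thr 12 63 (.thr 15 13 (.thr 60 45 (.thr 3 41 (.dbl 6 9 54)))))))))) (.rp 39 (.thr 6 54 (.thr 4 55 (.thr 7 5 (.dbl 52 36 37)))) (.rp 37 (.thr 30 18 (.thr 50 14 (.thr 54 6 (.thr 58 62 (.thr 55 4 (.thr 53 52 (.thr 48 63 (.thr 49 51 (.thr 61 57 (.thr 41 1 (.thr 16 31 (.thr 28 24 (.thr 44 35 (.dbl 60 3 12)))))))))))))) (.rp 36 (.thr 50 14 (.thr 54 6 (.thr 58 62 (.thr 55 4 (.thr 53 52 (.thr 48 63 (.dbl 37 5 15))))))) (.rp 8 (.str 59 (.nv (.thr 4 55 (.thr 16 31 (.thr 24 28 (.thr 36 52 (.thr 48 12 (.dbl 37 15 39)))))) (.nv (.thr 4 55 (.thr 52 36 (.thr 6 54 (.dbl 7 5 37)))) (.rp 55 (.thr 50 14 (.thr 54 6 (.thr 58 62 (.thr 57 56 (.thr 51 60 (.thr 48 49 (.thr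 37 15 (.dbl 53 5 63)))))))) (.rp 54 (.str 60 (.nv (.thr 14 50 (.thr 30 18 (.thr 62 46 (.thr 61 63 (.dbl 41 1 3))))) (.nv (.thr 4 55 (.thr 52 36 (.thr 48 56 (.dbl 37 7 15)))) (.rp 4 (.str 12 (.nv (.thr 14 50 (.thr 15 13 (.dbl 30 18 45))) (.nv (.thr 28 44 (.dbl 16 24 31)) .nd))) .nd)))) (.rp 52 (.thr 50 14 (.thr 54 6 (.thr 58 62 (.thr 57 56 (.thr 51 60 (.thr 48 49 (.dbl 63 53 55))))))) (.rp 39 (.thr 6 54 (.thr 4 55 (.thr 7 5 (.dbl 52 36 37)))) (.rp 37 (.thr 50 14 (.thr 54 6 (.thr 58 62 (.thr 57 56 (.thr 51 60 (.dbl 55 4 63)))))) (.rp 36 (.thr 50 14 (.thr 54 6 (.thr 58 62 (.thr 57 56 (.thr 51 60 (.dbl 55 4 63)))))) (.rp 7 (.thr 50 14 (.thr 54 6 (.thr 58 62 (.thr 57 56 (.thr 51 60 (.dbl 55 4 63)))))) (.rp 4 (.str 12 (.nv (.thr 6 54 (.thr 3 9 (.thr 14 50 (.thr 15 13 (.thr 11 7 (.dbl 41 56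 60)))))) (.nv (.thr 14 50 (.thr 15 13 (.thr 31 16 (.thr 63 47 (.thr 46 29 (.dbl 30 18 62)))))) (.nv (.thr 6 54 (.thr 16 31 (.thr 28 24 (.thr 60 44 (.dbl 3 9 41))))) .nd)))) .nd))))))))))) (.rp 7 (.thr 30 18 (.thr 14 50 (.thr 46 62 (.thr 31 16 (.thr 29 28 (.thr 12 63 (.thr 15 13 (.thr 60 45 (.thr 3 41 (.dbl 6 9 54)))))))))) (.rp 4 (.thr 30 18 (.thr 14 50 (.thr 46 62 (.thr 31 16 (.thr 29 28 (.thr 12 63 (.thr 15 13 (.thr 60 45 (.thr 3 41 (.dbl 6 9 54)))))))))) .nd))))))))))))) (.rp 24 (.str 48 (.nv (.thr 37 15 (.thr 52 7 (.thr 4 36 (.thr 55 38 (.dbl 53 5 54))))) (.nv (.thr 15 37 (.thr 18 30 (.thr 3 33 (.thr 41 60 (.dbl 11 7 56))))) (.rp 37 (.thr 18 30 (.thr 16 31 (.thr 19 17 (.thr 3 33 (.thr 51 35 (.thr 49 50 (.thr 41 60 (.thr 61 1 (.thr 57 53 (.dbl 25 9 28)))))))))) (.rp 15 (.thr 18 30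 (.thr 3 33 (.thr 60 41 (.thr 52 56 (.thr 4 36 (.thr 55 38 (.thr 53 54 (.dbl 37 5 7)))))))) (.rp 11 (.thr 18 30 (.thr 3 33 (.thr 60 41 (.thr 52 56 (.dbl 37 7 15))))) (.rp 7 (.thr 30 18 (.thr 15 37 (.thr 60 45 (.thr 56 52 (.dbl 41 3 11))))) (.rp 3 (.thr 30 18 (.thr 31 16 (.thr 29 28 (.thr 15 37 (.thr 45 60 (.thr 13 61 (.thr 12 14 (.dbl 63 46 47)))))))) .nd)))))))) (.rp 19 (.str 37 (.nv (.thr 31 16 (.thr 52 7 (.thr 4 36 (.thr 55 38 (.dbl 53 5 54))))) (.nv (.thr 7 52 (.thr 15 48 (.thr 3 11 (.thr 30 18 (.dbl 60 41 45))))) (.nv (.thr 52 7 (.thr 4 36 (.thr 53 5 (.dbl 55 38 54)))) (.rp 52 (.thr 30 18 (.thr 15 48 (.thr 5 53 (.thr 60 45 (.thr 3 41 (.thr 7 11 (.thr 6 4 (.thr 12 9 (.thr 14 13 (.dbl 38 50 54)))))))))) (.rp 31 (.str 27 (.nv (.thr 5 53 (.thr 25 24 (.thr 13 49 (.thr 1 9 (.thr 29 17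 (.dbl 61 41 45)))))) (.nv (.thr 25 24 (.thr 13 49 (.thr 15 48 (.thr 12 14 (.dbl 51 38 39))))) (.nv (.thr 53 5 (.thr 52 7 (.thr 55 54 (.dbl 4 36 38)))) .nd)))) (.rp 7 (.thr 18 30 (.thr 48 15 (.thr 3 33 (.thr 60 41 (.thr 52 56 (.thr 4 36 (.thr 55 38 (.dbl 53 5 54)))))))) .nd))))))) (.rp 18 (.str 48 (.nv (.thr 16 31 (.thr 24 28 (.thr 36 12 (.thr 37 15 (.dbl 52 4 7))))) (.nv (.thr 15 37 (.thr 16 31 (.thr 24 28 (.thr 12 36 (.thr 14 13 (.thr 38 50 (.dbl 25 27 51))))))) (.nv (.thr 37 15 (.thr 52 7 (.thr 4 36 (.thr 55 38 (.dbl 53 5 54))))) (.rp 37 (.thr 16 31 (.thr 24 28 (.thr 36 12 (.thr 4 52 (.thr 38 55 (.thr 50 14 (.thr 51 49 (.thr 54 6 (.thr 62 58 (.thr 60 57 (.thr 61 63 (.dbl 41 1 3)))))))))))) (.rp 36 (.thr 16 31 (.thr 28 24 (.thr 37 15 (.thr 52 7 (.thr 60 56 (.thr 12 44 (.thr 3 41 (.thr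 6 9 (.thr 38 54 (.dbl 25 19 51)))))))))) (.rp 15 (.str 5 (.nv (.thr 16 31 (.thr 24 28 (.thr 36 12 (.thr 4 52 (.thr 6 7 (.dbl 38 54 55)))))) (.nv (.thr 37 53 (.thr 52 7 (.thr 36 4 (.thr 56 60 (.thr 24 12 (.thr 8 40 (.dbl 16 28 31))))))) (.nv (.thr 16 31 (.thr 24 28 (.thr 12 36 (.thr 53 37 (.thr 63 58 (.thr 29 46 (.dbl 25 17 27))))))) (.nv (.thr 16 31 (.thr 37 53 (.thr 52 7 (.thr 36 4 (.dbl 24 12 28))))) (.rp 39 (.thr 16 31 (.thr 24 28 (.thr 37 53 (.thr 36 12 (.dbl 52 4 7))))) (.rp 36 (.thr 16 31 (.thr 28 24 (.thr 37 53 (.thr 52 7 (.thr 60 56 (.thr 12 44 (.thr 3 41 (.thr 6 9 (.thr 38 54 (.dbl 25 19 51)))))))))) (.rp 31 (.thr 37 53 (.thr 52 7 (.thr 60 56 (.thr 36 4 (.thr 12 24 (.thr 3 41 (.thr 6 9 (.dbl 38 39 54)))))))) (.rp 28 (.thr 37 53 (.thr 52 7 (.thr 60 56 (.thr 36 4 (.thr 12 24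 (.thr 3 41 (.thr 6 9 (.dbl 38 39 54)))))))) (.rp 24 (.str 28 (.nv (.thr 31 16 (.thr 29 30 (.dbl 25 17 19))) (.rp 60 (.thr 25 19 (.thr 37 53 (.thr 13 49 (.thr 1 9 (.thr 61 41 (.dbl 29 17 45)))))) (.rp 45 (.thr 31 16 (.thr 37 53 (.thr 52 7 (.thr 29 30 (.thr 60 56 (.dbl 25 17 19)))))) (.rp 31 (.thr 37 53 (.thr 52 7 (.thr 60 56 (.thr 4 36 (.thr 12 44 (.thr 3 41 (.thr 6 9 (.dbl 38 54 55)))))))) (.rp 30 (.thr 25 19 (.thr 37 53 (.thr 13 49 (.thr 1 9 (.thr 61 41 (.dbl 29 17 45)))))) (.rp 29 (.thr 25 19 (.thr 37 53 (.thr 52 7 (.thr 60 56 (.thr 49 13 (.thr 51 50 (.dbl 12 38 44))))))) (.rp 25 (.thr 31 16 (.thr 29 30 (.thr 53 37 (.thr 63 58 (.thr 12 46 (.thr 60 44 (.thr 56 52 (.dbl 41 3 11)))))))) (.rp 19 (.thr 37 53 (.thr 52 7 (.thr 60 56 (.thr 4 36 (.thr 12 44 (.thr 3 41 (.thr 6 9 (.dbl 38 54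 55)))))))) (.rp 17 (.thr 37 53 (.thr 52 7 (.thr 60 56 (.thr 4 36 (.thr 12 44 (.thr 3 41 (.thr 6 9 (.dbl 38 54 55)))))))) (.rp 16 (.thr 25 19 (.thr 17 29 (.thr 37 53 (.thr 52 7 (.thr 60 56 (.thr 49 13 (.thr 51 50 (.dbl 12 38 44)))))))) .nd))))))))))) (.rp 16 (.thr 37 53 (.thr 52 7 (.thr 60 56 (.thr 36 4 (.thr 12 24 (.thr 3 41 (.thr 6 9 (.dbl 38 39 54)))))))) (.rp 12 (.thr 16 31 (.thr 28 24 (.thr 19 25 (.thr 37 53 (.thr 52 7 (.thr 60 56 (.thr 4 36 (.thr 3 41 (.thr 51 35 (.thr 50 49 (.dbl 38 14 55))))))))))) .nd)))))))))))) .nd))))))) (.rp 17 (.thr 18 30 (.str 3 (.nv (.thr 41 60 (.thr 11 56 (.thr 15 7 (.dbl 48 33 37)))) (.nv (.thr 16 31 (.thr 48 33 (.thr 60 41 (.thr 52 56 (.thr 36 4 (.dbl 24 12 28)))))) (.nv (.thr 16 31 (.thr 48 33 (.thr 37 15 (.thr 52 7 (.thr 36 4 (.dbl 24 12 28))))))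 (.nv (.thr 41 60 (.thr 11 56 (.thr 48 33 (.dbl 15 7 37)))) (.rp 60 (.thr 16 31 (.thr 28 24 (.thr 19 25 (.thr 33 48 (.thr 35 51 (.thr 34 32 (.thr 50 2 (.thr 38 14 (.thr 4 55 (.thr 41 44 (.thr 36 52 (.thr 56 11 (.dbl 37 39 45))))))))))))) (.rp 51 (.str 34 (.nv (.thr 16 31 (.thr 33 48 (.thr 50 2 (.thr 35 32 (.thr 38 14 (.dbl 41 44 60)))))) (.nv (.thr 41 60 (.thr 11 56 (.thr 48 33 (.dbl 15 7 37)))) (.rp 60 (.thr 50 2 (.thr 38 14 (.thr 48 33 (.thr 4 55 (.thr 36 52 (.dbl 37 15 39)))))) (.rp 48 (.thr 50 2 (.thr 38 14 (.thr 4 55 (.thr 6 54 (.thr 7 5 (.dbl 52 36 37)))))) (.rp 41 (.thr 16 31 (.thr 48 33 (.thr 37 15 (.thr 52 7 (.thr 36 4 (.dbl 24 12 28)))))) (.rp 37 (.thr 50 2 (.thr 38 14 (.thr 33 48 (.thr 41 60 (.dbl 35 32 44))))) (.rp 33 (.thr 50 2 (.thr 38 14 (.thr 4 55 (.thr 6 54 (.thr 7 5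 (.dbl 52 36 37)))))) .nd)))))))) (.rp 48 (.thr 16 31 (.thr 28 24 (.thr 60 41 (.thr 12 44 (.thr 6 9 (.thr 38 54 (.dbl 25 19 51))))))) (.rp 45 (.thr 48 33 (.thr 15 37 (.thr 41 60 (.dbl 11 7 56)))) (.rp 37 (.thr 16 31 (.thr 28 24 (.thr 60 41 (.thr 12 44 (.thr 6 9 (.thr 38 54 (.dbl 25 19 51))))))) (.rp 34 (.str 51 (.nv (.thr 41 60 (.thr 11 56 (.thr 15 7 (.dbl 48 33 37)))) (.nv (.thr 16 31 (.thr 28 24 (.dbl 19 25 35))) (.rp 46 (.str 38 (.nv (.thr 14 50 (.thr 35 19 (.dbl 41 44 60))) (.nv (.thr 6 54 (.dbl 12 9 25)) (.rp 14 (.str 62 (.nv (.thr 35 19 (.dbl 41 44 60)) (.nv (.thr 6 54 (.dbl 12 9 25)) .nd))) .nd)))) (.rp 38 (.str 46 (.nv (.thr 41 60 (.thr 11 56 (.thr 15 7 (.dbl 48 33 37)))) (.nv (.thr 16 31 (.thr 28 24 (.dbl 19 25 35))) .nd))) .nd))))) (.rp 33 (.thr 16 31 (.thr 28 24 (.thr 60 41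 (.thr 12 44 (.thr 6 9 (.thr 38 54 (.dbl 25 19 51))))))) .nd))))))))))))) (.rp 16 (.str 48 (.nv (.thr 37 15 (.thr 52 7 (.thr 4 36 (.thr 55 38 (.dbl 53 5 54))))) (.nv (.thr 18 30 (.thr 3 33 (.thr 41 60 (.thr 11 56 (.dbl 15 7 37))))) (.rp 37 (.thr 18 30 (.str 24 (.nv (.thr 12 36 (.thr 25 27 (.thr 38 51 (.thr 6 54 (.dbl 3 9 33))))) (.nv (.thr 3 33 (.thr 25 27 (.thr 19 28 (.thr 51 35 (.thr 38 12 (.dbl 50 14 49)))))) (.nv (.thr 3 33 (.thr 12 36 (.thr 6 9 (.thr 38 54 (.dbl 25 27 51))))) (.rp 51 (.thr 25 27 (.thr 12 36 (.thr 3 33 (.thr 9 6 (.dbl 41 57 60))))) (.rp 47 (.str 32 (.nv (.thr 12 36 (.thr 25 27 (.thr 38 51 (.thr 6 54 (.dbl 3 9 33))))) (.nv (.thr 3 33 (.thr 36 12 (.thr 41 60 (.thr 56 11 (.dbl 40 8 44))))) (.nv (.thr 3 33 (.thr 12 36 (.thr 6 9 (.thr 38 54 (.dbl 25 27 51))))) (.rp 36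 (.thr 25 27 (.thr 19 28 (.thr 3 33 (.thr 51 35 (.thr 50 49 (.dbl 38 12 14)))))) (.rp 33 (.thr 25 27 (.thr 12 36 (.thr 38 51 (.thr 55 4 (.thr 54 6 (.thr 52 53 (.thr 60 56 (.dbl 28 19 44)))))))) (.rp 12 (.thr 25 27 (.thr 19 28 (.thr 3 33 (.thr 51 35 (.thr 50 49 (.thr 38 14 (.thr 54 6 (.dbl 60 41 57)))))))) (.rp 3 (.thr 25 27 (.thr 12 36 (.thr 38 51 (.thr 55 4 (.thr 54 6 (.thr 52 53 (.thr 60 56 (.dbl 28 19 44)))))))) .nd)))))))) (.rp 38 (.thr 25 27 (.thr 3 33 (.thr 41 60 (.thr 9 57 (.dbl 12 6 36))))) (.rp 33 (.thr 25 27 (.thr 12 36 (.thr 38 51 (.thr 50 14 (.thr 54 6 (.thr 55 4 (.thr 53 52 (.dbl 58 62 63)))))))) (.rp 32 (.str 47 (.nv (.thr 12 36 (.thr 25 27 (.thr 38 51 (.thr 6 54 (.dbl 3 9 33))))) (.nv (.thr 25 27 (.thr 19 28 (.thr 12 36 (.thr 3 33 (.dbl 51 35 38))))) (.nv (.thr 3 33 (.thr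 25 27 (.thr 41 60 (.thr 9 57 (.dbl 12 6 36))))) (.nv (.thr 3 33 (.thr 12 36 (.thr 6 9 (.thr 38 54 (.dbl 25 27 51))))) (.rp 51 (.thr 25 27 (.thr 12 36 (.thr 3 33 (.thr 41 60 (.dbl 9 6 57))))) (.rp 36 (.thr 27 25 (.thr 3 33 (.thr 41 60 (.thr 11 56 (.thr 15 7 (.thr 39 51 (.dbl 43 35 59))))))) (.rp 34 (.thr 25 27 (.thr 17 29 (.thr 12 36 (.thr 38 51 (.thr 6 54 (.dbl 3 9 33)))))) (.rp 33 (.thr 25 27 (.thr 19 28 (.thr 29 17 (.thr 12 36 (.thr 63 46 (.thr 15 31 (.thr 14 13 (.dbl 38 50 51)))))))) (.rp 27 (.thr 12 36 (.thr 3 33 (.thr 6 9 (.thr 38 54 (.thr 50 14 (.dbl 51 25 49)))))) (.rp 25 (.thr 12 36 (.thr 3 33 (.thr 41 60 (.thr 11 56 (.thr 15 7 (.thr 13 14 (.thr 9 6 (.dbl 1 5 61)))))))) (.rp 12 (.thr 27 25 (.thr 3 33 (.thr 41 60 (.thr 11 56 (.thr 59 43 (.thr 15 7 (.thr 63 31 (.dbl 51 39 55))))))))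 (.rp 3 (.thr 25 27 (.thr 19 28 (.thr 29 17 (.thr 12 36 (.thr 63 46 (.thr 15 31 (.thr 14 13 (.dbl 38 50 51)))))))) .nd))))))))))))) (.rp 27 (.thr 12 36 (.thr 3 33 (.thr 6 9 (.thr 38 54 (.thr 50 14 (.dbl 51 25 49)))))) (.rp 25 (.thr 12 36 (.thr 3 33 (.thr 6 9 (.thr 38 54 (.thr 50 14 (.thr 41 60 (.thr 35 44 (.dbl 51 19 49)))))))) (.rp 12 (.thr 25 27 (.thr 19 28 (.thr 3 33 (.thr 51 35 (.thr 50 49 (.thr 38 14 (.thr 54 6 (.dbl 60 41 57)))))))) (.rp 3 (.thr 25 27 (.thr 12 36 (.thr 38 51 (.thr 50 14 (.thr 54 6 (.thr 55 4 (.thr 53 52 (.dbl 58 62 63)))))))) .nd)))))))))))))) (.rp 15 (.thr 18 30 (.thr 3 33 (.thr 60 41 (.thr 52 56 (.thr 4 36 (.thr 55 38 (.thr 53 54 (.dbl 37 5 7)))))))) (.rp 11 (.thr 18 30 (.thr 3 33 (.thr 60 41 (.thr 52 56 (.dbl 37 7 15))))) (.rp 7 (.thr 30 18 (.thr 15 37 (.thr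 60 45 (.thr 56 52 (.dbl 41 3 11))))) (.rp 3 (.thr 30 18 (.thr 15 37 (.thr 60 45 (.thr 52 56 (.thr 4 36 (.thr 38 55 (.thr 50 14 (.thr 51 49 (.dbl 54 6 57))))))))) .nd)))))))) .nd))))))))))))

theorem w65 : WinAt (7340032, 4398054899713) :=
  chF (K := []) kn c65 7340032 4398054899713 23
    [] (by decide +kernel) (by decide +kernel)

end Pool.Agent.TTT.B43
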