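import Pool.Agent.TTT.Q1

/-!
Certified forced wins in positions of the 4 x 4 x 4 board.
-/

set_option autoImplicit false
set_option maxRecDepth 1000000
set_option linter.all false

namespace Pool.Agent.TTT.B43

/-- A certificate. -/
noncomputable def c66 : Ct := (.str 19 (.nv (.thr 20 23 (.thr 28 25 (.thr 16 24 (.thr 26 31 (.dbl 18 17 30))))) (.nv (.thr 25 28 (.thr 17 29 (.thr 16 18 (.thr 31 26 (.dbl 23 20 27))))) (.rp 31 (.str 7 (.nv (.thr 20 23 (.thr 52 37 (.thr 4 36 (.thr 38 55 (.dbl 6 5 54))))) (.nv (.thr 37 52 (.thr 5 53 (.thr 4 6 (.thr 55 38 (.dbl 23 20 39))))) (.rp 55 (.thr 25 28 (.thr 29 17 (.thr 37 52 (.thr 13 49 (.thr 61 45 (.thr 1 41 (.dbl 5 9 53))))))) (.rp 54 (.thr 23 20 (.thr 55 39 (.thr 4 38 (.thr 5 6 (.dbl 37 52 53))))) (.rp 52 (.thr 23 20 (.thr 25 28 (.thr 29 17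 (.thr 55 39 (.thr 4 38 (.thr 5 6 (.thr 37 53 (.thr 13 49 (.thr 1 9 (.dbl 61 41 45)))))))))) (.rp 38 (.thr 25 28 (.thr 29 17 (.thr 37 52 (.thr 5 53 (.thr 13 49 (.thr 1 9 (.dbl 61 41 45))))))) (.rp 37 (.thr 23 20 (.thr 25 28 (.thr 55 39 (.thr 38 4 (.thr 6 54 (.thr 12 51 (.thr 3 9 (.thr 15 11 (.thr 14 13 (.thr 26 50 (.thr 30 18 (.dbl 60 41 45)))))))))))) (.rp 23 (.thr 25 28 (.thr 29 17 (.thr 37 52 (.thr 5 53 (.thr 13 49 (.thr 1 9 (.dbl 61 41 45))))))) (.rp 20 (.thr 25 28 (.thr 29 17 (.thr 37 52 (.thr 5 53 (.thr 13 49 (.thr 1 9 (.dbl 61 41 45))))))) (.rp 6 (.thr 25 28 (.thr 29 17 (.thr 37 52 (.thr 5 53 (.thr 13 49 (.thr 1 9 (.dbl 61 41 45))))))) (.rp 5 (.thr 23 20 (.thr 55 39 (.thr 38 4 (.thr 54 6 (.dbl 52 37 53))))) (.rp 4 (.thr 25 28 (.thr 29 17 (.thr 37 52 (.thr 5 53 (.thr 13 49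 (.thr 1 9 (.dbl 61 41 45))))))) .nd))))))))))))) (.rp 30 (.thr 23 20 (.thr 31 27 (.thr 16 26 (.thr 17 18 (.dbl 25 28 29))))) (.rp 28 (.str 26 (.nv (.thr 23 20 (.dbl 31 16 27)) (.nv (.thr 18 30 (.dbl 16 17 31)) (.rp 31 (.thr 30 18 (.str 7 (.nv (.thr 37 52 (.thr 5 53 (.thr 4 6 (.thr 55 38 (.dbl 23 20 39))))) (.nv (.thr 37 52 (.thr 15 48 (.thr 60 45 (.dbl 3 11 41)))) (.rp 52 (.thr 23 20 (.thr 55 39 (.thr 4 38 (.thr 5 6 (.thr 37 53 (.thr 15 48 (.thr 3 11 (.dbl 60 41 45)))))))) (.rp 37 (.thr 23 20 (.thr 55 39 (.thr 38 4 (.thr 6 54 (.thr 14 50 (.thr 2 10 (.dbl 62 42 46))))))) .nd)))))) (.rp 16 (.thr 20 23 (.str 3 (.nv (.thr 30 18 (.thr 60 41 (.thr 15 45 (.thr 7 11 (.dbl 37 48 52))))) (.nv (.thr 18 30 (.thr 48 33 (.thr 15 37 (.thr 41 60 (.dbl 11 7 56))))) (.rp 60 (.thr 18 30 (.thr 51 35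 (.thr 48 33 (.thr 50 49 (.thr 38 14 (.thr 6 54 (.dbl 12 9 25))))))) (.rp 48 (.str 32 (.nv (.thr 30 18 (.thr 51 35 (.thr 60 41 (.thr 15 45 (.thr 54 57 (.thr 38 6 (.thr 25 12 (.dbl 27 24 39)))))))) (.nv (.thr 35 51 (.thr 41 60 (.thr 44 38 (.thr 36 40 (.thr 11 56 (.thr 52 4 (.dbl 7 15 37))))))) (.nv (.thr 18 30 (.thr 35 51 (.thr 34 33 (.thr 50 2 (.thr 38 14 (.dbl 41 44 60)))))) (.rp 60 (.thr 18 30 (.thr 35 51 (.thr 34 33 (.thr 50 2 (.thr 38 14 (.thr 44 41 (.thr 4 55 (.dbl 36 40 52)))))))) (.rp 51 (.thr 30 18 (.thr 60 41 (.thr 15 45 (.thr 7 11 (.thr 37 52 (.thr 42 47 (.thr 5 53 (.thr 6 4 (.thr 2 62 (.dbl 10 14 58)))))))))) (.rp 44 (.thr 18 30 (.thr 35 51 (.thr 34 33 (.thr 50 2 (.thr 38 14 (.thr 6 54 (.thr 4 55 (.thr 7 5 (.dbl 52 36 37))))))))) (.rp 41 (.thr 18 30 (.thr 35 51 (.thr 34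 33 (.thr 50 2 (.thr 38 14 (.thr 6 54 (.thr 4 55 (.thr 7 5 (.dbl 52 36 37))))))))) (.rp 38 (.thr 30 18 (.thr 60 41 (.thr 15 45 (.thr 7 11 (.thr 37 52 (.thr 42 47 (.thr 5 53 (.thr 6 4 (.thr 2 62 (.dbl 10 14 58)))))))))) (.rp 35 (.thr 30 18 (.thr 60 41 (.thr 15 45 (.thr 7 11 (.thr 37 52 (.thr 5 53 (.thr 6 4 (.thr 12 9 (.thr 14 13 (.dbl 38 50 54)))))))))) .nd)))))))))) (.rp 41 (.thr 18 30 (.thr 51 35 (.thr 48 33 (.thr 50 49 (.thr 38 14 (.thr 6 54 (.dbl 12 9 25))))))) (.rp 37 (.thr 18 30 (.thr 51 35 (.thr 48 33 (.thr 50 49 (.thr 38 14 (.thr 6 54 (.dbl 12 9 25))))))) (.rp 33 (.thr 35 51 (.thr 41 60 (.thr 11 56 (.thr 7 15 (.thr 52 37 (.thr 4 36 (.dbl 38 44 55))))))) (.rp 32 (.str 48 (.nv (.thr 15 37 (.thr 11 7 (.dbl 41 56 60))) (.nv (.dbl 18 30 33) .nd))) (.rp 30 (.thr 51 35 (.thr 60 41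 (.thr 54 57 (.thr 38 6 (.thr 4 55 (.thr 50 14 (.thr 48 49 (.dbl 52 36 56)))))))) (.rp 18 (.thr 35 51 (.thr 41 60 (.thr 11 56 (.thr 7 15 (.thr 52 37 (.thr 4 36 (.dbl 38 44 55))))))) (.rp 15 (.thr 18 30 (.thr 51 35 (.thr 48 33 (.thr 50 49 (.thr 38 14 (.thr 6 54 (.dbl 12 9 25))))))) (.rp 11 (.thr 18 30 (.thr 48 33 (.thr 37 15 (.thr 52 7 (.dbl 60 41 56))))) (.rp 7 (.thr 18 30 (.thr 51 35 (.thr 48 33 (.thr 50 49 (.thr 38 14 (.thr 6 54 (.dbl 12 9 25))))))) .nd))))))))))))))) .nd))))) (.rp 26 (.str 4 (.nv (.thr 23 20 (.thr 55 38 (.thr 7 39 (.thr 5 6 (.dbl 37 52 53))))) (.nv (.thr 25 28 (.thr 38 55 (.thr 51 12 (.thr 54 6 (.thr 60 57 (.dbl 3 35 41)))))) (.nv (.thr 20 23 (.thr 38 55 (.thr 6 54 (.thr 52 36 (.dbl 7 5 37))))) (.rp 55 (.thr 20 23 (.thr 52 36 (.thr 7 37 (.thr 6 5 (.thr 38 54 (.thr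 25 28 (.thr 17 29 (.thr 18 16 (.thr 51 12 (.thr 3 35 (.thr 48 33 (.dbl 60 41 56)))))))))))) (.rp 38 (.thr 20 23 (.thr 52 36 (.thr 37 7 (.thr 5 53 (.thr 25 28 (.thr 29 17 (.thr 13 49 (.thr 61 45 (.dbl 1 9 41))))))))) (.rp 6 (.thr 20 23 (.thr 55 38 (.thr 52 36 (.thr 53 54 (.dbl 37 5 7))))) .nd))))))) (.rp 25 (.str 38 (.nv (.thr 4 55 (.thr 6 54 (.thr 7 5 (.thr 52 37 (.dbl 20 23 36))))) (.nv (.thr 20 23 (.thr 6 54 (.thr 4 55 (.thr 52 36 (.dbl 7 5 37))))) (.rp 55 (.thr 23 20 (.thr 6 54 (.thr 31 27 (.thr 26 16 (.thr 30 18 (.thr 14 50 (.thr 62 46 (.dbl 2 10 42)))))))) (.rp 54 (.thr 23 20 (.thr 55 4 (.thr 39 7 (.thr 36 37 (.thr 27 31 (.thr 51 15 (.thr 3 35 (.thr 63 59 (.thr 60 41 (.thr 62 61 (.thr 42 2 (.thr 46 34 (.thr 30 14 (.thr 12 29 (.thr 18 26 (.dbl 48 24 33)))))))))))))))) (.rp 52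 (.thr 23 20 (.thr 6 54 (.thr 31 27 (.thr 26 16 (.thr 30 18 (.thr 14 50 (.thr 62 46 (.dbl 2 10 42)))))))) (.rp 37 (.thr 23 20 (.thr 6 54 (.thr 31 27 (.thr 26 16 (.thr 30 18 (.thr 14 50 (.thr 62 46 (.dbl 2 10 42)))))))) (.rp 36 (.thr 23 20 (.thr 54 6 (.thr 55 4 (.thr 52 53 (.dbl 7 37 39))))) (.rp 23 (.str 3 (.nv (.thr 51 35 (.thr 54 6 (.dbl 60 41 57))) (.nv (.thr 35 51 (.dbl 41 44 60)) (.rp 60 (.thr 54 6 (.thr 55 4 (.thr 53 52 (.thr 51 35 (.thr 63 59 (.thr 48 58 (.thr 50 49 (.thr 18 33 (.dbl 26 14 30))))))))) (.rp 51 (.thr 6 54 (.thr 4 55 (.thr 7 5 (.thr 52 37 (.thr 36 20 (.thr 12 9 (.thr 48 24 (.dbl 60 41 56)))))))) (.rp 41 (.thr 54 6 (.thr 55 4 (.thr 53 52 (.thr 51 35 (.thr 63 59 (.thr 48 58 (.thr 49 50 (.dbl 57 60 61)))))))) (.rp 35 (.thr 6 54 (.thr 4 55 (.thr 9 12 (.thr 41 60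 (.thr 1 61 (.dbl 5 7 13)))))) .nd))))))) (.rp 20 (.thr 54 6 (.thr 55 4 (.thr 52 53 (.thr 7 37 (.thr 23 39 (.thr 31 27 (.thr 26 16 (.thr 18 30 (.thr 50 14 (.thr 2 34 (.dbl 62 42 58))))))))))) (.rp 7 (.thr 23 20 (.thr 6 54 (.thr 31 27 (.thr 26 16 (.thr 30 18 (.thr 14 50 (.thr 62 46 (.dbl 2 10 42)))))))) (.rp 6 (.thr 23 20 (.thr 55 4 (.thr 7 39 (.thr 52 37 (.thr 54 53 (.thr 31 27 (.thr 26 16 (.thr 18 30 (.thr 50 14 (.thr 2 34 (.dbl 62 42 58))))))))))) (.rp 5 (.thr 23 20 (.thr 54 6 (.thr 55 4 (.thr 7 39 (.dbl 52 37 53))))) (.rp 4 (.thr 23 20 (.thr 6 54 (.thr 31 27 (.thr 26 16 (.thr 30 18 (.thr 14 50 (.thr 62 46 (.dbl 2 10 42)))))))) .nd)))))))))))))) (.rp 23 (.str 3 (.nv (.thr 25 28 (.thr 17 29 (.thr 18 16 (.thr 41 60 (.thr 1 61 (.dbl 33 48 49)))))) (.nv (.thr 25 28 (.thr 51 35 (.thr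 12 38 (.thr 9 6 (.dbl 41 57 60))))) (.rp 60 (.thr 25 28 (.thr 17 29 (.thr 18 16 (.thr 51 35 (.thr 12 38 (.thr 48 33 (.thr 24 36 (.dbl 26 27 30)))))))) (.rp 44 (.thr 25 28 (.thr 51 35 (.thr 12 38 (.thr 41 60 (.dbl 9 6 57))))) (.rp 41 (.thr 25 28 (.thr 17 29 (.thr 18 16 (.thr 51 35 (.thr 38 12 (.thr 48 33 (.thr 50 49 (.dbl 26 14 30)))))))) (.rp 28 (.thr 51 35 (.thr 60 41 (.thr 54 57 (.thr 38 6 (.thr 55 4 (.thr 53 52 (.thr 63 59 (.thr 62 61 (.dbl 58 48 50))))))))) (.rp 25 (.thr 35 51 (.thr 41 60 (.thr 38 44 (.thr 54 6 (.thr 55 4 (.thr 52 53 (.thr 7 37 (.thr 11 15 (.thr 26 56 (.thr 16 31 (.dbl 18 17 30))))))))))) (.rp 12 (.thr 25 28 (.thr 17 29 (.thr 18 16 (.thr 51 35 (.thr 48 33 (.thr 49 50 (.thr 37 13 (.dbl 26 15 30)))))))) .nd))))))))) (.rp 20 (.str 18 (.nv (.thr 17 16 (.dbl 25 28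 29)) (.nv (.thr 26 30 (.dbl 16 17 31)) (.rp 60 (.str 40 (.nv (.thr 17 16 (.dbl 25 28 29)) (.nv (.thr 16 17 (.dbl 26 30 31)) (.rp 17 (.thr 26 30 (.thr 31 16 (.thr 27 23 (.dbl 25 24 28)))) (.rp 16 (.str 48 (.nv (.thr 26 30 (.thr 15 37 (.thr 25 28 (.thr 24 27 (.thr 12 36 (.thr 14 13 (.dbl 38 50 51))))))) (.nv (.thr 3 33 (.thr 51 35 (.thr 50 49 (.thr 26 30 (.thr 38 14 (.dbl 25 12 28)))))) (.nv (.thr 3 33 (.thr 26 30 (.thr 15 37 (.thr 11 7 (.thr 25 28 (.thr 24 27 (.dbl 56 8 41))))))) (.rp 30 (.thr 3 33 (.str 12 (.nv (.thr 51 35 (.dbl 25 28 38)) (.nv (.thr 6 9 (.thr 38 54 (.dbl 51 25 35))) (.rp 51 (.thr 24 36 (.thr 56 8 (.thr 9 6 (.thr 25 28 (.thr 26 27 (.dbl 41 11 57)))))) (.rp 45 (.str 15 (.nv (.thr 51 35 (.dbl 25 28 38)) (.nv (.thr 37 26 (.dbl 7 11 52)) (.rp 37 (.str 41 (.nv (.thr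 24 36 (.thr 11 7 (.dbl 56 8 26))) (.nv (.thr 9 6 (.dbl 25 28 57)) (.rp 24 (.thr 28 25 (.thr 9 6 (.thr 13 14 (.dbl 1 5 61)))) .nd)))) (.rp 28 (.thr 24 36 (.thr 7 11 (.dbl 37 26 52))) (.rp 24 (.thr 28 25 (.thr 7 11 (.dbl 37 26 52))) .nd)))))) (.rp 38 (.thr 51 35 (.thr 49 50 (.thr 24 36 (.thr 25 28 (.thr 26 27 (.dbl 37 13 15)))))) (.rp 35 (.thr 6 9 (.thr 38 54 (.dbl 25 28 51))) (.rp 28 (.thr 24 36 (.thr 51 35 (.thr 6 9 (.dbl 38 25 54)))) (.rp 25 (.thr 51 35 (.thr 50 49 (.thr 6 9 (.thr 38 54 (.thr 14 26 (.dbl 2 10 34)))))) (.rp 24 (.thr 28 25 (.thr 51 35 (.thr 50 49 (.thr 6 9 (.thr 54 38 (.thr 62 58 (.dbl 2 34 42))))))) (.rp 15 (.str 45 (.nv (.thr 51 35 (.dbl 25 28 38)) (.nv (.thr 6 9 (.thr 38 54 (.dbl 25 28 51))) (.rp 51 (.thr 9 6 (.thr 25 28 (.thr 24 36 (.thr 56 8 (.thr 57 41 (.thr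 58 59 (.thr 63 53 (.dbl 29 17 46)))))))) (.rp 38 (.thr 9 6 (.thr 25 28 (.thr 24 36 (.thr 29 17 (.thr 41 57 (.dbl 61 1 13)))))) (.rp 28 (.thr 24 36 (.thr 6 9 (.thr 38 54 (.dbl 51 25 35)))) (.rp 25 (.thr 6 9 (.thr 38 54 (.thr 51 35 (.thr 50 49 (.thr 14 26 (.dbl 2 10 34)))))) (.rp 24 (.thr 28 25 (.thr 6 9 (.thr 54 38 (.thr 51 35 (.thr 50 49 (.thr 62 58 (.dbl 2 34 42))))))) (.rp 10 (.str 5 (.nv (.thr 24 36 (.thr 6 9 (.thr 37 53 (.dbl 7 4 52)))) (.nv (.thr 51 35 (.dbl 25 28 38)) (.rp 24 (.thr 28 25 (.thr 6 9 (.thr 4 7 (.dbl 38 54 55)))) .nd)))) (.rp 5 (.str 10 (.nv (.thr 51 35 (.dbl 25 28 38)) (.nv (.thr 24 36 (.thr 8 56 (.dbl 9 6 11))) (.rp 24 (.thr 28 25 (.thr 6 9 (.thr 2 14 (.thr 50 34 (.dbl 51 35 49))))) .nd)))) .nd)))))))))) .nd)))))))))))) (.rp 28 (.str 24 (.nv (.thr 3 33 (.thr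 26 30 (.thr 15 37 (.thr 11 7 (.dbl 56 8 41))))) (.nv (.thr 12 36 (.thr 3 33 (.thr 6 9 (.thr 38 54 (.dbl 51 25 35))))) (.rp 33 (.thr 26 30 (.thr 25 27 (.thr 12 36 (.thr 51 38 (.thr 49 50 (.dbl 37 13 15)))))) (.rp 12 (.str 44 (.nv (.thr 8 56 (.thr 3 33 (.thr 26 30 (.thr 27 25 (.thr 51 35 (.dbl 15 37 39)))))) (.nv (.thr 3 33 (.thr 35 51 (.thr 36 32 (.thr 38 41 (.thr 37 39 (.dbl 26 15 30)))))) (.nv (.thr 3 33 (.thr 26 30 (.thr 15 37 (.thr 11 7 (.dbl 56 8 41))))) (.rp 37 (.thr 26 30 (.thr 25 27 (.thr 3 33 (.thr 35 51 (.thr 41 38 (.dbl 56 8 11)))))) (.rp 33 (.thr 26 30 (.thr 27 25 (.thr 36 32 (.thr 15 37 (.thr 51 39 (.thr 35 3 (.thr 41 38 (.dbl 56 8 11)))))))) (.rp 30 (.thr 36 32 (.thr 3 33 (.thr 35 51 (.thr 38 41 (.thr 37 39 (.thr 15 26 (.dbl 7 11 52))))))) (.rp 26 (.thr 32 36 (.thr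 33 3 (.thr 34 35 (.thr 2 50 (.thr 42 62 (.thr 47 37 (.dbl 46 38 45))))))) (.rp 15 (.thr 32 36 (.thr 33 3 (.thr 34 35 (.thr 2 50 (.thr 42 62 (.thr 46 38 (.dbl 47 37 45))))))) (.rp 8 (.str 4 (.nv (.thr 3 33 (.thr 26 30 (.thr 15 37 (.thr 27 25 (.dbl 51 35 39))))) (.nv (.thr 26 30 (.thr 36 32 (.thr 38 55 (.dbl 37 15 39)))) (.nv (.thr 38 55 (.thr 3 33 (.dbl 35 41 51))) .nd)))) (.rp 3 (.thr 26 30 (.thr 27 25 (.thr 15 37 (.thr 31 23 (.thr 63 47 (.thr 58 53 (.thr 42 10 (.thr 2 62 (.thr 50 34 (.dbl 51 39 49)))))))))) .nd))))))))))) (.rp 3 (.thr 26 30 (.thr 25 27 (.thr 12 36 (.thr 51 38 (.thr 49 50 (.dbl 37 13 15)))))) .nd)))))) (.rp 26 (.thr 3 33 (.str 12 (.nv (.thr 51 35 (.dbl 25 28 38)) (.nv (.thr 6 9 (.thr 38 54 (.dbl 51 25 35))) (.rp 51 (.thr 24 36 (.thr 8 56 (.thr 6 9 (.thr 25 28 (.thr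 42 59 (.thr 2 62 (.thr 34 50 (.dbl 38 46 54)))))))) (.rp 38 (.thr 51 35 (.thr 50 49 (.thr 24 36 (.thr 8 56 (.thr 25 28 (.thr 42 59 (.dbl 2 34 62))))))) (.rp 35 (.thr 6 9 (.thr 38 54 (.dbl 25 28 51))) (.rp 28 (.thr 24 36 (.thr 51 35 (.thr 6 9 (.dbl 38 25 54)))) (.rp 25 (.thr 51 35 (.thr 50 49 (.thr 6 9 (.thr 54 38 (.thr 62 58 (.dbl 2 34 42)))))) (.rp 24 (.thr 28 25 (.str 27 (.nv (.thr 6 9 (.thr 38 54 (.thr 4 55 (.thr 7 5 (.thr 15 11 (.dbl 51 35 39)))))) (.nv (.thr 31 23 (.thr 29 30 (.thr 63 46 (.thr 15 47 (.dbl 51 35 39))))) (.rp 51 (.thr 31 23 (.thr 29 30 (.thr 63 46 (.thr 15 47 (.thr 7 11 (.thr 37 52 (.dbl 53 5 58))))))) (.rp 39 (.thr 6 9 (.thr 31 23 (.thr 29 30 (.thr 38 54 (.thr 55 4 (.thr 63 46 (.dbl 51 35 59))))))) (.rp 35 (.thr 31 23 (.thr 29 30 (.thr 63 46 (.thr 53 58 (.thr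 37 5 (.thr 7 52 (.dbl 15 11 47))))))) (.rp 15 (.thr 6 9 (.thr 54 38 (.thr 51 35 (.thr 50 49 (.thr 62 58 (.dbl 2 34 42)))))) .nd)))))))) .nd)))))))))) (.rp 25 (.thr 3 33 (.thr 51 35 (.thr 50 49 (.thr 26 30 (.thr 38 14 (.thr 54 6 (.thr 62 58 (.dbl 2 34 42)))))))) (.rp 24 (.thr 28 25 (.thr 3 33 (.thr 51 35 (.thr 50 49 (.thr 26 30 (.thr 38 14 (.thr 54 6 (.thr 62 58 (.dbl 2 34 42))))))))) (.rp 15 (.thr 3 33 (.str 12 (.nv (.thr 51 35 (.dbl 25 28 38)) (.nv (.thr 24 36 (.thr 25 28 (.dbl 26 27 30))) (.rp 45 (.thr 30 26 (.thr 51 35 (.dbl 25 28 38))) (.rp 30 (.str 45 (.nv (.thr 51 35 (.dbl 25 28 38)) (.nv (.thr 6 9 (.thr 38 54 (.dbl 25 28 51))) (.rp 51 (.thr 9 6 (.thr 25 28 (.thr 24 36 (.thr 56 8 (.thr 57 41 (.thr 58 59 (.thr 63 53 (.dbl 29 17 46)))))))) (.rp 38 (.thr 9 6 (.thr 25 28 (.thr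 24 36 (.thr 29 17 (.thr 41 57 (.dbl 61 1 13)))))) (.rp 28 (.thr 24 36 (.thr 6 9 (.thr 38 54 (.dbl 51 25 35)))) (.rp 25 (.thr 6 9 (.thr 38 54 (.thr 51 35 (.thr 50 49 (.thr 14 26 (.dbl 2 10 34)))))) (.rp 24 (.thr 28 25 (.thr 6 9 (.thr 54 38 (.thr 51 35 (.thr 50 49 (.thr 62 58 (.dbl 2 34 42))))))) (.rp 10 (.str 5 (.nv (.thr 24 36 (.thr 6 9 (.thr 37 53 (.dbl 7 4 52)))) (.nv (.thr 51 35 (.dbl 25 28 38)) (.rp 24 (.thr 28 25 (.thr 6 9 (.thr 4 7 (.dbl 38 54 55)))) .nd)))) (.rp 5 (.str 10 (.nv (.thr 51 35 (.dbl 25 28 38)) (.nv (.thr 24 36 (.thr 8 56 (.dbl 9 6 11))) (.rp 24 (.thr 28 25 (.thr 6 9 (.thr 2 14 (.thr 50 34 (.dbl 51 35 49))))) .nd)))) .nd)))))))))) (.rp 28 (.thr 24 36 (.thr 51 35 (.thr 6 9 (.dbl 38 25 54)))) (.rp 25 (.thr 51 35 (.thr 50 49 (.thr 6 9 (.thr 38 54 (.dbl 26 14 30)))))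 (.rp 24 (.thr 28 25 (.thr 51 35 (.thr 50 49 (.thr 6 9 (.thr 38 54 (.dbl 26 14 30)))))) (.rp 10 (.str 5 (.nv (.thr 24 36 (.thr 6 9 (.thr 4 7 (.dbl 38 54 55)))) (.nv (.thr 51 35 (.dbl 25 28 38)) (.nv (.thr 24 36 (.thr 25 28 (.dbl 26 27 30))) (.rp 45 (.thr 30 26 (.thr 51 35 (.dbl 25 28 38))) (.rp 30 (.str 45 (.nv (.thr 24 36 (.thr 6 9 (.thr 37 53 (.dbl 7 4 52)))) (.nv (.thr 51 35 (.dbl 25 28 38)) (.rp 24 (.thr 28 25 (.thr 6 9 (.thr 4 7 (.dbl 38 54 55)))) .nd)))) (.rp 24 (.thr 28 25 (.thr 37 53 (.thr 7 52 (.dbl 6 4 9)))) .nd))))))) (.rp 5 (.str 10 (.nv (.thr 6 9 (.thr 2 14 (.thr 50 34 (.dbl 51 35 49)))) (.nv (.thr 24 36 (.thr 25 28 (.dbl 26 27 30))) (.rp 45 (.thr 30 26 (.thr 51 35 (.dbl 25 28 38))) (.rp 30 (.str 45 (.nv (.thr 51 35 (.dbl 25 28 38)) (.nv (.thr 24 36 (.thr 8 56 (.dbl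 9 6 11))) (.rp 24 (.thr 28 25 (.thr 6 9 (.thr 2 14 (.thr 50 34 (.dbl 51 35 49))))) .nd)))) (.rp 28 (.thr 24 36 (.thr 9 6 (.dbl 8 11 56))) (.rp 24 (.thr 28 25 (.thr 6 9 (.thr 2 14 (.thr 50 34 (.dbl 51 35 49))))) .nd))))))) .nd))))))))))) (.rp 12 (.thr 3 33 (.thr 51 35 (.thr 50 49 (.thr 26 30 (.thr 38 14 (.thr 54 6 (.thr 62 58 (.dbl 2 34 42)))))))) .nd))))))))))) .nd))))) (.rp 40 (.str 60 (.nv (.thr 41 3 (.thr 17 16 (.dbl 25 28 29))) (.nv (.thr 26 30 (.dbl 16 17 31)) (.rp 41 (.str 42 (.nv (.thr 17 16 (.dbl 25 28 29)) (.nv (.thr 26 30 (.dbl 16 17 31)) (.rp 17 (.thr 26 30 (.thr 31 16 (.thr 27 23 (.dbl 25 24 28)))) (.rp 16 (.thr 26 30 (.thr 2 62 (.thr 50 34 (.thr 10 58 (.dbl 14 6 38))))) .nd))))) (.rp 17 (.thr 26 30 (.thr 31 16 (.thr 27 23 (.dbl 25 24 28)))) (.rp 16 (.thr 30 26 (.thr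 28 25 (.thr 29 31 (.thr 45 15 (.thr 61 13 (.dbl 41 1 3)))))) .nd)))))) (.rp 17 (.thr 26 30 (.thr 31 16 (.thr 27 23 (.dbl 25 24 28)))) (.rp 16 (.thr 28 25 (.str 60 (.nv (.thr 30 26 (.thr 29 31 (.thr 12 44 (.thr 63 46 (.thr 61 62 (.dbl 45 13 15)))))) (.nv (.thr 3 41 (.thr 26 30 (.thr 48 33 (.thr 52 56 (.dbl 37 7 15))))) (.rp 48 (.str 32 (.nv (.thr 30 26 (.thr 15 45 (.thr 31 29 (.thr 27 23 (.thr 51 39 (.dbl 3 35 41)))))) (.nv (.thr 3 41 (.thr 12 44 (.thr 26 30 (.thr 35 51 (.thr 34 33 (.thr 50 2 (.thr 38 14 (.dbl 6 9 54)))))))) (.nv (.thr 30 26 (.thr 29 31 (.thr 12 44 (.thr 63 46 (.thr 61 62 (.dbl 45 13 15)))))) (.rp 45 (.thr 26 30 (.thr 44 12 (.thr 41 3 (.thr 38 35 (.thr 50 14 (.thr 2 34 (.thr 62 42 (.dbl 54 6 58)))))))) (.rp 30 (.thr 44 12 (.thr 36 40 (.thr 41 3 (.thr 38 35 (.thr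 37 39 (.thr 47 42 (.dbl 45 33 46))))))) (.rp 26 (.thr 44 12 (.thr 36 40 (.thr 41 3 (.thr 38 35 (.thr 37 39 (.thr 47 42 (.dbl 45 33 46))))))) .nd))))))) (.rp 45 (.thr 26 30 (.thr 3 41 (.thr 48 33 (.thr 37 15 (.dbl 52 7 56))))) (.rp 32 (.str 48 (.nv (.thr 26 30 (.thr 37 15 (.dbl 52 7 56))) (.nv (.dbl 3 33 41) .nd))) (.rp 30 (.thr 3 41 (.thr 51 35 (.thr 48 33 (.thr 52 56 (.thr 37 7 (.thr 53 5 (.dbl 54 55 57))))))) (.rp 26 (.thr 3 41 (.thr 51 35 (.thr 57 54 (.thr 48 33 (.thr 49 50 (.thr 56 52 (.thr 53 61 (.dbl 58 59 63)))))))) (.rp 15 (.thr 30 26 (.thr 29 31 (.thr 12 44 (.thr 63 46 (.thr 61 62 (.dbl 41 1 3)))))) .nd)))))))))) .nd))))))) (.rp 18 (.str 7 (.nv (.thr 20 23 (.thr 52 37 (.thr 4 36 (.thr 38 55 (.dbl 6 5 54))))) (.nv (.thr 23 20 (.thr 25 28 (.thr 27 31 (.thr 37 52 (.thr 39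 55 (.thr 15 51 (.dbl 26 24 48))))))) (.nv (.thr 37 52 (.thr 5 53 (.thr 4 6 (.thr 55 38 (.dbl 23 20 39))))) (.rp 55 (.thr 25 28 (.thr 17 29 (.thr 37 52 (.thr 53 5 (.thr 49 13 (.thr 61 57 (.dbl 1 33 41))))))) (.rp 54 (.thr 23 20 (.thr 55 39 (.thr 4 38 (.thr 5 6 (.dbl 37 52 53))))) (.rp 52 (.thr 23 20 (.thr 27 31 (.thr 25 28 (.thr 39 55 (.thr 51 15 (.thr 12 38 (.thr 3 35 (.thr 9 6 (.dbl 41 57 60))))))))) (.rp 37 (.thr 23 20 (.thr 27 31 (.thr 25 28 (.thr 39 55 (.thr 51 15 (.thr 12 38 (.thr 3 35 (.thr 9 6 (.dbl 41 57 60))))))))) (.rp 23 (.thr 25 28 (.thr 17 29 (.thr 37 52 (.thr 53 5 (.thr 49 13 (.thr 61 57 (.dbl 1 33 41))))))) (.rp 20 (.thr 25 28 (.thr 17 29 (.thr 37 52 (.thr 53 5 (.thr 49 13 (.thr 61 57 (.dbl 1 33 41))))))) (.rp 4 (.thr 25 28 (.thr 17 29 (.thr 37 52 (.thr 53 5 (.thr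 49 13 (.thr 61 57 (.dbl 1 33 41))))))) .nd))))))))))) (.rp 17 (.thr 23 20 (.thr 31 27 (.thr 26 16 (.thr 30 18 (.dbl 28 25 29))))) (.rp 16 (.thr 20 23 (.thr 25 28 (.str 3 (.nv (.thr 17 29 (.thr 41 60 (.thr 1 61 (.thr 49 33 (.thr 13 37 (.dbl 9 5 57)))))) (.nv (.thr 51 35 (.thr 12 38 (.thr 41 60 (.dbl 9 6 57)))) (.rp 60 (.thr 17 29 (.thr 51 35 (.thr 12 38 (.thr 9 6 (.thr 41 57 (.thr 1 61 (.thr 13 5 (.dbl 49 33 37)))))))) (.rp 57 (.thr 51 35 (.thr 38 12 (.thr 6 54 (.thr 4 55 (.thr 7 5 (.dbl 52 36 37)))))) (.rp 48 (.str 32 (.nv (.thr 17 29 (.thr 41 60 (.thr 1 61 (.thr 49 33 (.thr 13 37 (.dbl 9 5 57)))))) (.nv (.thr 17 29 (.thr 35 51 (.thr 33 34 (.thr 49 1 (.thr 37 13 (.dbl 41 45 60)))))) (.nv (.thr 51 35 (.thr 12 38 (.thr 9 6 (.dbl 41 57 60)))) (.rp 60 (.thr 17 29 (.thr 51 35 (.thr 12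 38 (.thr 9 6 (.thr 41 57 (.thr 1 61 (.thr 13 5 (.dbl 49 33 37)))))))) (.rp 41 (.thr 51 35 (.thr 38 12 (.thr 6 54 (.thr 4 55 (.thr 7 5 (.dbl 52 36 37)))))) (.rp 9 (.thr 51 35 (.thr 38 12 (.thr 54 6 (.dbl 60 41 57)))) .nd))))))) (.rp 41 (.thr 51 35 (.thr 38 12 (.thr 6 54 (.thr 4 55 (.thr 7 5 (.dbl 52 36 37)))))) (.rp 32 (.str 48 (.nv (.thr 17 29 (.thr 33 18 (.thr 49 1 (.dbl 51 35 50)))) (.nv (.thr 41 60 (.thr 9 57 (.thr 12 6 (.dbl 51 35 38)))) (.nv (.thr 17 29 (.thr 33 18 (.thr 1 49 (.dbl 41 60 61)))) .nd)))) (.rp 12 (.thr 17 29 (.thr 35 51 (.thr 41 60 (.thr 44 38 (.thr 1 61 (.thr 49 33 (.thr 13 37 (.dbl 9 5 57)))))))) (.rp 9 (.thr 51 35 (.thr 38 12 (.thr 54 6 (.dbl 60 41 57)))) .nd)))))))))))) .nd)))))))))))))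

theorem w66 : WinAt (6291456, 8796093022209) :=
  chF (K := []) kn c66 6291456 8796093022209 43
    [] (by decide +kernel) (by decide +kernel)

/-- A certificate. -/
noncomputable def c67 : Ct := (.str 4 (.nv (.thr 38 55 (.thr 6 54 (.thr 7 5 (.dbl 52 36 37)))) (.nv (.thr 52 36 (.thr 7 37 (.thr 38 55 (.dbl 6 5 54)))) (.rp 55 (.str 16 (.nv (.thr 28 24 (.thr 19 25 (.thr 26 31 (.dbl 18 17 30)))) (.rp 39 (.str 7 (.nv (.dbl 52 36 37) (.rp 52 (.thr 28 24 (.thr 19 25 (.thr 18 17 (.dbl 26 30 31)))) (.rp 37 (.thr 28 24 (.thr 19 25 (.thr 18 17 (.dbl 26 30 31)))) (.rp 36 (.thr 5 6 (.dbl 37 52 53)) .nd))))) (.rp 31 (.str 25 (.nv (.thr 19 28 (.dbl 17 18 29)) (.nv (.dbl 28 19 24) (.rp 39 (.str 7 (.nv (.dbl 52 36 37) (.nv (.dbl 28 19 24) (.rp 27 (.thr 19 28 (.dbl 17 18 29)) (.rp 19 (.str 27 (.nv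 (.dbl 52 36 37) (.nv (.dbl 24 26 28) .nd))) .nd))))) (.rp 28 (.thr 52 36 (.thr 7 37 (.thr 6 5 (.thr 38 54 (.thr 12 51 (.thr 3 9 (.thr 15 11 (.thr 13 14 (.thr 60 41 (.thr 45 30 (.dbl 29 17 61))))))))))) (.rp 19 (.str 27 (.nv (.dbl 24 26 28) (.rp 39 (.str 7 (.nv (.dbl 52 36 37) (.nv (.dbl 24 26 28) .nd))) (.rp 28 (.thr 26 24 (.thr 30 18 (.thr 52 36 (.thr 7 37 (.thr 6 5 (.thr 38 54 (.thr 14 50 (.thr 62 46 (.dbl 2 10 42))))))))) (.rp 26 (.thr 52 36 (.thr 7 37 (.thr 6 5 (.thr 38 54 (.thr 12 51 (.thr 3 9 (.thr 15 11 (.thr 13 14 (.thr 60 41 (.thr 56 48 (.thr 45 30 (.dbl 29 17 61)))))))))))) (.rp 24 (.thr 52 36 (.thr 7 37 (.thr 6 5 (.thr 38 54 (.thr 12 51 (.thr 3 9 (.thr 15 11 (.thr 13 14 (.thr 60 41 (.thr 45 30 (.dbl 29 17 61))))))))))) (.rp 7 (.str 39 (.nv (.thr 36 52 (.thr 38 37 (.dbl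 51 12 15))) (.nv (.dbl 24 26 28) .nd))) .nd))))))) (.rp 7 (.str 39 (.nv (.thr 19 28 (.dbl 17 18 29)) (.nv (.dbl 28 19 24) (.rp 28 (.thr 36 52 (.thr 38 37 (.thr 54 6 (.thr 51 12 (.thr 60 57 (.thr 3 41 (.thr 19 35 (.dbl 17 18 29)))))))) (.rp 19 (.str 27 (.nv (.thr 36 52 (.thr 38 37 (.dbl 51 12 15))) (.nv (.dbl 24 26 28) .nd))) .nd))))) .nd))))))) (.rp 30 (.thr 52 36 (.thr 7 37 (.thr 6 5 (.thr 38 54 (.thr 28 24 (.thr 25 19 (.thr 12 51 (.thr 31 26 (.thr 3 9 (.thr 15 11 (.thr 63 47 (.dbl 29 17 46)))))))))))) (.rp 28 (.thr 52 36 (.thr 7 37 (.thr 6 5 (.thr 38 54 (.thr 26 31 (.thr 30 18 (.thr 14 50 (.thr 62 46 (.dbl 2 10 42))))))))) (.rp 26 (.thr 52 36 (.thr 7 37 (.thr 6 5 (.thr 38 54 (.thr 28 24 (.thr 25 19 (.thr 12 51 (.thr 3 9 (.thr 15 11 (.thr 13 14 (.thr 60 41 (.thr 56 48 (.thr 45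 30 (.dbl 29 17 61)))))))))))))) (.rp 25 (.thr 52 36 (.thr 7 37 (.thr 6 5 (.thr 38 54 (.thr 26 31 (.thr 30 18 (.thr 14 50 (.thr 62 46 (.dbl 2 10 42))))))))) (.rp 24 (.thr 52 36 (.thr 7 37 (.thr 6 5 (.thr 38 54 (.thr 26 31 (.thr 30 18 (.thr 14 50 (.thr 62 46 (.dbl 2 10 42))))))))) (.rp 19 (.thr 52 36 (.thr 7 37 (.thr 6 5 (.thr 38 54 (.thr 24 28 (.thr 26 31 (.thr 27 25 (.thr 30 18 (.thr 14 50 (.thr 62 46 (.dbl 2 10 42))))))))))) (.rp 18 (.thr 28 24 (.thr 25 19 (.thr 29 17 (.dbl 31 26 30)))) (.rp 17 (.thr 52 36 (.thr 7 37 (.thr 6 5 (.thr 38 54 (.thr 26 31 (.thr 30 18 (.thr 14 50 (.thr 62 46 (.dbl 2 10 42))))))))) (.rp 7 (.str 39 (.nv (.thr 26 31 (.thr 36 52 (.thr 37 38 (.thr 48 15 (.dbl 24 12 28))))) (.nv (.thr 28 24 (.thr 19 25 (.thr 26 31 (.dbl 18 17 30)))) (.rp 31 (.thr 36 52 (.thr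 38 37 (.thr 54 6 (.thr 28 24 (.thr 19 25 (.thr 18 17 (.thr 26 30 (.thr 50 14 (.thr 62 58 (.dbl 2 34 42)))))))))) (.rp 28 (.thr 36 52 (.thr 38 37 (.thr 54 6 (.thr 26 31 (.thr 50 14 (.thr 62 58 (.thr 2 42 (.dbl 18 30 34)))))))) (.rp 26 (.thr 36 52 (.thr 37 38 (.thr 53 5 (.thr 28 24 (.thr 25 19 (.thr 17 29 (.thr 49 13 (.thr 1 33 (.dbl 61 41 57))))))))) (.rp 24 (.thr 36 52 (.thr 38 37 (.thr 54 6 (.thr 26 31 (.thr 18 30 (.thr 50 14 (.thr 2 34 (.dbl 62 42 58)))))))) (.rp 19 (.thr 36 52 (.thr 37 38 (.thr 24 28 (.thr 26 31 (.thr 27 25 (.dbl 48 12 15)))))) .nd)))))))) .nd))))))))))))) (.rp 54 (.str 16 (.nv (.thr 28 24 (.thr 19 25 (.thr 26 31 (.dbl 18 17 30)))) (.rp 31 (.thr 52 36 (.thr 37 7 (.thr 28 24 (.thr 19 25 (.thr 18 17 (.thr 26 30 (.thr 48 15 (.thr 3 33 (.dbl 60 41 56))))))))) (.rp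 30 (.thr 52 36 (.thr 37 7 (.thr 5 53 (.thr 28 24 (.thr 25 19 (.thr 29 17 (.thr 13 49 (.thr 61 45 (.dbl 1 9 41))))))))) (.rp 28 (.thr 52 36 (.thr 37 7 (.thr 26 31 (.thr 48 15 (.thr 60 56 (.thr 3 41 (.dbl 18 30 33))))))) (.rp 26 (.thr 52 36 (.thr 37 7 (.thr 5 53 (.thr 28 24 (.thr 25 19 (.thr 29 17 (.thr 13 49 (.thr 61 45 (.dbl 1 9 41))))))))) (.rp 25 (.thr 52 36 (.thr 37 7 (.thr 26 31 (.thr 18 30 (.thr 48 15 (.thr 3 33 (.dbl 60 41 56))))))) (.rp 24 (.thr 52 36 (.thr 37 7 (.thr 26 31 (.thr 18 30 (.thr 48 15 (.thr 3 33 (.dbl 60 41 56))))))) (.rp 19 (.thr 52 36 (.thr 37 7 (.thr 24 28 (.thr 26 31 (.thr 27 25 (.thr 48 15 (.thr 60 56 (.thr 3 41 (.dbl 18 30 33))))))))) (.rp 18 (.thr 28 24 (.thr 25 19 (.thr 29 17 (.dbl 31 26 30)))) (.rp 17 (.thr 52 36 (.thr 37 7 (.thr 26 31 (.thr 18 30 (.thr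 48 15 (.thr 3 33 (.dbl 60 41 56))))))) .nd))))))))))) (.rp 52 (.str 16 (.nv (.thr 28 24 (.thr 19 25 (.thr 26 31 (.dbl 18 17 30)))) (.rp 31 (.thr 38 55 (.thr 54 6 (.thr 28 24 (.thr 19 25 (.thr 18 17 (.thr 26 30 (.thr 50 14 (.thr 62 58 (.dbl 2 34 42))))))))) (.rp 30 (.thr 38 55 (.thr 54 6 (.thr 28 24 (.thr 19 25 (.thr 18 17 (.thr 26 31 (.thr 50 14 (.thr 62 58 (.dbl 2 34 42))))))))) (.rp 28 (.thr 38 55 (.thr 54 6 (.thr 26 31 (.thr 50 14 (.thr 62 58 (.thr 2 42 (.dbl 18 30 34))))))) (.rp 26 (.str 53 (.nv (.thr 38 55 (.thr 6 54 (.dbl 5 7 37))) (.rp 55 (.thr 37 5 (.thr 28 24 (.thr 25 19 (.thr 17 29 (.thr 49 13 (.thr 1 33 (.dbl 61 41 57))))))) (.rp 54 (.thr 37 5 (.thr 28 24 (.thr 25 19 (.thr 17 29 (.thr 49 13 (.thr 1 33 (.dbl 61 41 57))))))) (.rp 39 (.thr 37 5 (.thr 28 24 (.thr 25 19 (.thr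 17 29 (.thr 49 13 (.thr 1 33 (.dbl 61 41 57))))))) (.rp 38 (.thr 37 5 (.thr 28 24 (.thr 25 19 (.thr 17 29 (.thr 49 13 (.thr 1 33 (.dbl 61 41 57))))))) (.rp 37 (.thr 38 55 (.thr 54 6 (.thr 28 24 (.thr 25 19 (.thr 51 12 (.thr 57 60 (.thr 61 49 (.dbl 41 1 9)))))))) (.rp 7 (.thr 37 5 (.thr 28 24 (.thr 25 19 (.thr 17 29 (.thr 49 13 (.thr 1 33 (.dbl 61 41 57))))))) (.rp 6 (.thr 37 5 (.thr 28 24 (.thr 25 19 (.thr 17 29 (.thr 49 13 (.thr 1 33 (.dbl 61 41 57))))))) (.rp 5 (.thr 38 55 (.thr 54 6 (.thr 28 24 (.thr 25 19 (.thr 51 12 (.thr 57 60 (.thr 61 49 (.dbl 41 1 9)))))))) .nd)))))))))) (.rp 25 (.thr 38 55 (.thr 54 6 (.thr 26 31 (.thr 18 30 (.thr 50 14 (.thr 2 34 (.dbl 62 42 58))))))) (.rp 24 (.thr 38 55 (.thr 54 6 (.thr 26 31 (.thr 18 30 (.thr 50 14 (.thr 2 34 (.dbl 62 42 58))))))) (.rp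 19 (.thr 38 55 (.thr 54 6 (.thr 24 28 (.thr 26 31 (.thr 27 25 (.thr 50 14 (.thr 62 58 (.thr 2 42 (.dbl 18 30 34))))))))) (.rp 18 (.thr 28 24 (.thr 25 19 (.thr 29 17 (.dbl 31 26 30)))) (.rp 17 (.thr 38 55 (.thr 54 6 (.thr 26 31 (.thr 18 30 (.thr 50 14 (.thr 62 58 (.dbl 2 34 42))))))) .nd))))))))))) (.rp 38 (.str 25 (.nv (.thr 28 19 (.thr 16 24 (.thr 31 26 (.dbl 29 17 30)))) (.nv (.thr 29 17 (.thr 28 19 (.thr 31 30 (.dbl 16 24 26)))) (.rp 41 (.str 35 (.nv (.thr 28 19 (.thr 16 24 (.thr 31 26 (.dbl 29 17 30)))) (.nv (.thr 29 17 (.thr 28 19 (.thr 16 24 (.dbl 31 26 30)))) (.rp 31 (.thr 19 28 (.thr 51 3 (.thr 52 36 (.thr 37 7 (.thr 49 13 (.thr 53 5 (.thr 57 61 (.dbl 54 55 60)))))))) (.rp 30 (.thr 19 28 (.thr 51 3 (.thr 52 36 (.thr 37 7 (.thr 49 13 (.thr 53 5 (.thr 57 61 (.dbl 54 55 60))))))))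 (.rp 29 (.thr 19 28 (.thr 51 3 (.thr 52 36 (.thr 37 7 (.thr 49 13 (.thr 48 50 (.thr 53 5 (.thr 55 54 (.dbl 63 58 59))))))))) (.rp 28 (.str 37 (.nv (.dbl 52 7 36) (.rp 60 (.str 12 (.nv (.dbl 52 7 36) (.rp 52 (.thr 13 49 (.thr 5 53 (.thr 6 7 (.dbl 9 1 3)))) (.rp 36 (.thr 7 52 (.dbl 5 6 53)) (.rp 7 (.thr 13 49 (.thr 15 14 (.thr 36 52 (.dbl 48 24 26)))) .nd))))) (.rp 52 (.thr 5 53 (.thr 6 7 (.thr 49 13 (.thr 17 29 (.thr 33 1 (.thr 32 34 (.thr 42 47 (.thr 2 62 (.thr 10 14 (.thr 26 58 (.thr 24 27 (.thr 48 15 (.thr 12 36 (.dbl 18 3 30)))))))))))))) (.rp 36 (.thr 5 53 (.dbl 7 6 52)) (.rp 12 (.str 60 (.nv (.dbl 52 7 36) (.rp 52 (.thr 53 5 (.thr 49 13 (.thr 61 57 (.thr 62 63 (.thr 42 2 (.thr 32 47 (.thr 33 34 (.dbl 17 1 29)))))))) (.rp 36 (.thr 5 53 (.dbl 7 6 52)) (.rp 7 (.thr 53 5 (.thr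 49 13 (.thr 57 61 (.thr 52 36 (.dbl 54 51 55))))) .nd))))) (.rp 7 (.thr 36 52 (.str 12 (.nv (.thr 29 17 (.thr 48 24 (.thr 63 46 (.dbl 53 5 58)))) (.nv (.thr 13 49 (.thr 48 24 (.dbl 15 14 26))) (.rp 55 (.str 39 (.nv (.thr 53 5 (.thr 29 17 (.thr 48 24 (.dbl 63 46 58)))) (.nv (.thr 17 29 (.thr 47 43 (.thr 49 13 (.thr 33 1 (.dbl 32 34 42))))) (.nv (.thr 13 49 (.thr 48 24 (.dbl 15 14 26))) (.rp 53 (.str 54 (.nv (.thr 29 17 (.thr 47 43 (.thr 48 24 (.thr 15 26 (.dbl 63 31 46))))) (.nv (.thr 17 29 (.thr 47 43 (.thr 49 13 (.thr 33 1 (.dbl 32 34 42))))) (.nv (.thr 48 24 (.thr 13 49 (.dbl 15 14 26))) .nd)))) .nd))))) (.rp 48 (.thr 29 17 (.thr 13 49 (.thr 15 14 (.thr 63 46 (.thr 47 31 (.thr 39 43 (.thr 51 27 (.thr 19 3 (.thr 59 55 (.dbl 42 8 32)))))))))) (.rp 39 (.str 55 (.nv (.thr 29 17 (.thr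 48 24 (.thr 63 46 (.dbl 53 5 58)))) (.nv (.thr 48 24 (.thr 13 49 (.dbl 15 14 26))) (.rp 48 (.thr 5 53 (.thr 29 17 (.thr 63 46 (.thr 13 49 (.thr 51 59 (.thr 3 19 (.dbl 9 1 6))))))) (.rp 24 (.thr 53 5 (.thr 29 17 (.thr 63 46 (.thr 49 13 (.thr 51 59 (.dbl 48 50 58)))))) .nd))))) (.rp 24 (.thr 29 17 (.thr 13 49 (.thr 15 14 (.thr 26 48 (.thr 30 18 (.dbl 45 60 61)))))) .nd)))))))) .nd))))))) (.rp 27 (.thr 29 17 (.thr 28 19 (.thr 31 30 (.dbl 16 24 26)))) (.rp 26 (.thr 17 29 (.thr 19 28 (.thr 18 16 (.thr 3 51 (.thr 52 36 (.thr 37 7 (.thr 49 13 (.dbl 33 1 48)))))))) (.rp 24 (.thr 17 29 (.thr 19 28 (.thr 18 16 (.thr 3 51 (.thr 48 33 (.thr 52 36 (.thr 37 7 (.dbl 26 15 30)))))))) (.rp 19 (.thr 17 29 (.str 24 (.nv (.thr 16 28 (.dbl 26 27 31)) (.rp 60 (.thr 26 27 (.thr 31 16 (.thr 18 30 (.thr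 52 36 (.thr 37 7 (.thr 49 13 (.thr 33 1 (.dbl 48 3 15)))))))) (.rp 31 (.thr 27 26 (.thr 52 36 (.thr 37 7 (.thr 49 13 (.thr 33 1 (.thr 32 34 (.thr 42 47 (.thr 8 59 (.thr 56 40 (.thr 48 60 (.thr 3 18 (.thr 50 51 (.thr 62 2 (.thr 54 58 (.dbl 53 5 55))))))))))))))) (.rp 30 (.thr 26 27 (.thr 31 16 (.thr 52 36 (.thr 37 7 (.thr 49 13 (.thr 33 1 (.thr 32 34 (.thr 15 48 (.dbl 47 42 63))))))))) (.rp 28 (.thr 26 27 (.thr 31 16 (.thr 18 30 (.thr 52 36 (.thr 37 7 (.thr 49 13 (.thr 33 1 (.dbl 48 3 15)))))))) (.rp 27 (.str 31 (.nv (.dbl 16 26 28) (.rp 28 (.thr 26 16 (.thr 18 30 (.thr 52 36 (.thr 37 7 (.thr 49 13 (.thr 33 1 (.dbl 48 3 15))))))) (.rp 26 (.thr 52 36 (.thr 37 7 (.thr 49 13 (.thr 33 1 (.thr 32 34 (.thr 42 47 (.thr 8 59 (.thr 56 40 (.thr 48 60 (.thr 3 18 (.thr 50 51 (.thr 62 2 (.thr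 54 58 (.dbl 53 5 55)))))))))))))) (.rp 16 (.thr 52 36 (.thr 37 7 (.thr 49 13 (.thr 33 1 (.thr 32 34 (.thr 42 47 (.thr 8 59 (.thr 56 40 (.thr 48 60 (.thr 26 15 (.dbl 18 3 30))))))))))) .nd))))) (.rp 26 (.thr 52 36 (.thr 37 7 (.thr 49 13 (.thr 33 1 (.thr 32 34 (.thr 42 47 (.thr 8 59 (.thr 56 40 (.thr 48 60 (.thr 3 18 (.thr 50 51 (.thr 62 2 (.thr 54 58 (.dbl 53 5 55)))))))))))))) (.rp 16 (.thr 52 36 (.thr 37 7 (.thr 49 13 (.thr 33 1 (.thr 32 34 (.thr 42 47 (.thr 8 59 (.thr 56 40 (.thr 48 60 (.dbl 26 15 27)))))))))) (.rp 12 (.thr 26 27 (.thr 31 16 (.thr 18 30 (.thr 52 36 (.thr 37 7 (.thr 49 13 (.thr 33 1 (.dbl 48 3 15)))))))) .nd))))))))))) (.rp 17 (.thr 19 28 (.thr 51 3 (.thr 52 36 (.thr 37 7 (.thr 49 13 (.thr 53 5 (.thr 57 61 (.dbl 54 55 60)))))))) (.rp 16 (.thr 19 28 (.thr 51 3 (.thr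 52 36 (.thr 37 7 (.thr 49 13 (.thr 53 5 (.thr 57 61 (.dbl 54 55 60)))))))) .nd))))))))))))) (.rp 35 (.str 41 (.nv (.thr 1 61 (.thr 9 57 (.thr 13 5 (.thr 52 36 (.dbl 37 7 49))))) (.nv (.thr 29 17 (.thr 28 19 (.thr 16 24 (.dbl 31 26 30)))) .nd))) (.rp 31 (.thr 17 29 (.thr 52 36 (.thr 37 7 (.thr 53 5 (.thr 49 13 (.thr 61 57 (.dbl 1 33 41))))))) (.rp 30 (.thr 17 29 (.thr 52 36 (.thr 37 7 (.thr 53 5 (.thr 49 13 (.thr 61 57 (.dbl 1 33 41))))))) (.rp 29 (.str 41 (.nv (.thr 1 61 (.thr 3 60 (.thr 9 57 (.thr 6 12 (.thr 28 19 (.dbl 5 7 13)))))) (.nv (.thr 3 60 (.thr 9 57 (.thr 12 6 (.thr 28 19 (.thr 36 52 (.dbl 24 16 48)))))) (.nv (.thr 52 36 (.thr 37 7 (.thr 13 49 (.thr 5 53 (.dbl 1 9 61))))) (.rp 57 (.thr 52 36 (.thr 60 3 (.thr 48 56 (.thr 37 7 (.thr 45 33 (.dbl 15 26 30)))))) (.rp 9 (.thr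 52 36 (.thr 60 3 (.thr 48 56 (.thr 37 7 (.thr 45 33 (.dbl 15 26 30)))))) .nd)))))) (.rp 28 (.thr 17 29 (.thr 52 36 (.thr 37 7 (.thr 53 5 (.thr 49 13 (.thr 61 57 (.dbl 1 33 41))))))) (.rp 26 (.thr 17 29 (.thr 52 36 (.thr 37 7 (.thr 53 5 (.thr 49 13 (.thr 61 57 (.dbl 1 33 41))))))) (.rp 24 (.thr 17 29 (.thr 52 36 (.thr 37 7 (.thr 53 5 (.thr 49 13 (.thr 61 57 (.dbl 1 33 41))))))) (.rp 19 (.thr 17 29 (.thr 52 36 (.thr 37 7 (.thr 53 5 (.thr 49 13 (.thr 61 57 (.dbl 1 33 41))))))) (.rp 17 (.thr 28 19 (.thr 16 24 (.thr 31 26 (.thr 29 30 (.thr 52 36 (.thr 37 7 (.thr 5 53 (.thr 13 49 (.thr 1 9 (.dbl 61 41 45)))))))))) (.rp 16 (.thr 17 29 (.thr 52 36 (.thr 37 7 (.thr 53 5 (.thr 49 13 (.thr 61 57 (.dbl 1 33 41))))))) .nd)))))))))))))) (.rp 37 (.str 16 (.nv (.thr 24 28 (.thr 36 52 (.thr 12 48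 (.thr 38 55 (.thr 25 51 (.dbl 26 27 31)))))) (.nv (.thr 26 31 (.thr 18 30 (.thr 28 24 (.dbl 19 17 25)))) (.rp 31 (.thr 38 55 (.thr 54 6 (.thr 28 24 (.thr 19 25 (.thr 18 17 (.thr 26 30 (.thr 50 14 (.thr 62 58 (.dbl 2 34 42))))))))) (.rp 28 (.thr 38 55 (.thr 6 54 (.thr 26 31 (.thr 30 18 (.thr 14 50 (.thr 62 46 (.dbl 2 10 42))))))) (.rp 27 (.thr 28 24 (.thr 19 25 (.thr 26 31 (.dbl 18 17 30)))) (.rp 26 (.thr 38 55 (.thr 54 6 (.thr 28 24 (.thr 25 19 (.thr 17 29 (.thr 51 12 (.thr 60 57 (.thr 52 36 (.thr 48 56 (.thr 49 50 (.thr 1 33 (.dbl 41 3 61)))))))))))) (.rp 25 (.thr 38 55 (.thr 6 54 (.thr 26 31 (.thr 30 18 (.thr 14 50 (.thr 62 46 (.dbl 2 10 42))))))) (.rp 24 (.thr 38 55 (.thr 6 54 (.thr 26 31 (.thr 30 18 (.thr 14 50 (.thr 62 46 (.dbl 2 10 42))))))) (.rp 17 (.thr 36 52 (.thr 38 55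 (.thr 24 28 (.thr 12 48 (.thr 26 31 (.dbl 25 27 51)))))) .nd)))))))))) (.rp 36 (.str 16 (.nv (.thr 26 31 (.thr 18 30 (.thr 19 17 (.dbl 28 24 25)))) (.nv (.thr 28 24 (.thr 19 25 (.thr 26 31 (.dbl 18 17 30)))) (.rp 40 (.str 32 (.nv (.thr 28 24 (.thr 19 25 (.thr 26 31 (.dbl 18 17 30)))) (.nv (.thr 26 31 (.thr 18 30 (.thr 19 17 (.dbl 28 24 25)))) (.rp 31 (.thr 38 55 (.thr 54 6 (.thr 28 24 (.thr 19 25 (.thr 18 17 (.thr 26 30 (.thr 50 14 (.thr 62 58 (.dbl 2 34 42))))))))) (.rp 30 (.thr 38 55 (.thr 54 6 (.thr 28 24 (.thr 19 25 (.thr 18 17 (.thr 26 31 (.thr 50 14 (.thr 62 58 (.dbl 2 34 42))))))))) (.rp 28 (.thr 38 55 (.thr 6 54 (.thr 26 31 (.thr 14 50 (.thr 2 10 (.thr 30 18 (.dbl 62 42 46))))))) (.rp 26 (.thr 38 55 (.thr 6 54 (.thr 7 5 (.thr 28 24 (.thr 25 19 (.thr 12 51 (.thr 3 9 (.thr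 15 11 (.thr 13 14 (.dbl 37 49 52)))))))))) (.rp 25 (.thr 38 55 (.thr 6 54 (.thr 26 31 (.thr 14 50 (.thr 2 10 (.thr 30 18 (.dbl 62 42 46))))))) (.rp 24 (.thr 38 55 (.thr 6 54 (.thr 26 31 (.thr 14 50 (.thr 2 10 (.thr 30 18 (.dbl 62 42 46))))))) (.rp 19 (.thr 38 55 (.thr 6 54 (.thr 24 28 (.thr 26 31 (.thr 27 25 (.thr 14 50 (.thr 2 10 (.thr 30 18 (.dbl 62 42 46))))))))) (.rp 18 (.thr 28 24 (.thr 25 19 (.thr 29 17 (.dbl 31 26 30)))) (.rp 17 (.thr 38 55 (.thr 6 54 (.thr 26 31 (.thr 14 50 (.thr 2 10 (.thr 30 18 (.dbl 62 42 46))))))) .nd)))))))))))) (.rp 32 (.str 40 (.nv (.thr 26 31 (.thr 18 30 (.thr 19 17 (.dbl 28 24 25)))) (.nv (.thr 28 24 (.thr 25 19 (.thr 31 26 (.dbl 29 17 30)))) (.rp 31 (.thr 28 24 (.thr 19 25 (.thr 18 17 (.thr 26 30 (.thr 38 55 (.thr 54 6 (.thr 50 14 (.thr 62 58 (.dbl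 2 34 42))))))))) (.rp 30 (.thr 28 24 (.thr 26 31 (.thr 19 25 (.thr 18 17 (.thr 38 55 (.thr 54 6 (.thr 50 14 (.thr 62 58 (.dbl 2 34 42))))))))) (.rp 29 (.thr 28 24 (.thr 26 31 (.thr 18 30 (.dbl 19 17 25)))) (.rp 28 (.thr 26 31 (.thr 30 18 (.thr 38 55 (.thr 6 54 (.thr 14 50 (.thr 2 10 (.dbl 62 42 46))))))) (.rp 26 (.thr 28 24 (.thr 25 19 (.thr 38 55 (.thr 6 54 (.thr 7 5 (.thr 12 51 (.thr 3 9 (.thr 15 11 (.thr 13 14 (.dbl 37 49 52)))))))))) (.rp 25 (.thr 26 31 (.thr 30 18 (.thr 38 55 (.thr 6 54 (.thr 14 50 (.thr 2 10 (.dbl 62 42 46))))))) (.rp 24 (.thr 26 31 (.thr 30 18 (.thr 38 55 (.thr 6 54 (.thr 14 50 (.thr 2 10 (.dbl 62 42 46))))))) (.rp 19 (.thr 24 28 (.thr 26 31 (.thr 27 25 (.thr 30 18 (.thr 56 8 (.thr 41 11 (.thr 60 3 (.thr 15 45 (.dbl 48 37 52))))))))) (.rp 17 (.thr 26 31 (.thr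 30 18 (.thr 38 55 (.thr 6 54 (.thr 14 50 (.thr 2 10 (.dbl 62 42 46))))))) .nd)))))))))))) (.rp 31 (.thr 38 55 (.thr 54 6 (.thr 28 24 (.thr 19 25 (.thr 18 17 (.thr 26 30 (.thr 50 14 (.thr 62 58 (.dbl 2 34 42))))))))) (.rp 30 (.thr 38 55 (.thr 54 6 (.thr 28 24 (.thr 19 25 (.thr 18 17 (.thr 26 31 (.thr 50 14 (.thr 62 58 (.dbl 2 34 42))))))))) (.rp 28 (.thr 38 55 (.thr 6 54 (.thr 26 31 (.thr 30 18 (.thr 14 50 (.thr 62 46 (.dbl 2 10 42))))))) (.rp 26 (.thr 38 55 (.thr 6 54 (.thr 7 5 (.thr 28 24 (.thr 25 19 (.thr 12 51 (.thr 3 9 (.thr 15 11 (.thr 13 14 (.dbl 37 49 52)))))))))) (.rp 25 (.thr 38 55 (.thr 6 54 (.thr 26 31 (.thr 30 18 (.thr 14 50 (.thr 62 46 (.dbl 2 10 42))))))) (.rp 24 (.thr 38 55 (.thr 6 54 (.thr 26 31 (.thr 30 18 (.thr 14 50 (.thr 62 46 (.dbl 2 10 42))))))) (.rp 19 (.thr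 38 55 (.thr 6 54 (.thr 24 28 (.thr 26 31 (.thr 27 25 (.thr 30 18 (.thr 14 50 (.thr 62 46 (.dbl 2 10 42))))))))) (.rp 18 (.thr 28 24 (.thr 25 19 (.thr 29 17 (.dbl 31 26 30)))) (.rp 17 (.thr 38 55 (.thr 6 54 (.thr 26 31 (.thr 30 18 (.thr 14 50 (.thr 62 46 (.dbl 2 10 42))))))) .nd)))))))))))))) (.rp 7 (.thr 36 52 (.thr 38 55 (.thr 39 37 (.thr 54 6 (.str 16 (.nv (.thr 24 28 (.thr 12 48 (.thr 25 51 (.dbl 26 27 31)))) (.nv (.thr 26 31 (.thr 50 14 (.thr 62 58 (.thr 2 42 (.dbl 18 30 34))))) (.nv (.thr 28 24 (.thr 26 31 (.thr 18 30 (.dbl 19 17 25)))) (.rp 31 (.thr 28 24 (.thr 19 25 (.thr 18 17 (.thr 26 30 (.thr 50 14 (.thr 62 58 (.dbl 2 34 42))))))) (.rp 27 (.thr 28 24 (.thr 19 25 (.thr 26 31 (.dbl 18 17 30)))) (.rp 26 (.thr 28 24 (.thr 25 19 (.thr 29 17 (.thr 31 30 (.thr 51 12 (.thr 15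 27 (.thr 63 47 (.thr 60 57 (.thr 61 62 (.dbl 41 1 3)))))))))) .nd))))))))))) (.rp 6 (.thr 52 36 (.thr 37 7 (.thr 53 5 (.dbl 55 38 54)))) (.rp 5 (.thr 36 52 (.thr 38 55 (.thr 54 6 (.thr 39 37 (.str 26 (.nv (.thr 16 31 (.thr 24 28 (.thr 12 48 (.dbl 25 27 51)))) (.nv (.thr 50 14 (.thr 62 58 (.thr 18 30 (.dbl 2 34 42)))) (.rp 30 (.thr 50 14 (.thr 62 58 (.thr 16 31 (.thr 28 24 (.thr 19 25 (.thr 18 17 (.dbl 2 34 42))))))) (.rp 15 (.str 10 (.nv (.thr 16 31 (.thr 18 30 (.thr 19 17 (.dbl 28 24 25)))) (.nv (.thr 58 42 (.dbl 50 14 62)) (.rp 47 (.thr 50 14 (.dbl 58 42 62)) .nd)))) (.rp 10 (.str 15 (.nv (.thr 30 18 (.thr 60 45 (.dbl 51 27 57))) (.nv (.thr 14 50 (.thr 51 27 (.dbl 12 13 25))) (.rp 51 (.thr 14 50 (.thr 12 13 (.thr 16 31 (.dbl 24 28 48)))) (.rp 27 (.thr 14 50 (.thr 12 13 (.thr 24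 48 (.dbl 16 28 31)))) (.rp 14 (.str 2 (.nv (.thr 51 27 (.thr 12 25 (.thr 24 48 (.dbl 16 28 31)))) (.nv (.thr 18 30 (.thr 34 50 (.dbl 42 46 62))) .nd))) .nd)))))) .nd)))))))))) .nd))))))))))))

theorem w67 : WinAt (7340032, 17592194433025) :=
  chF (K := []) kn c67 7340032 17592194433025 23
    [] (by decide +kernel) (by decide +kernel)

/-- A certificate. -/
noncomputable def c68 : Ct := (.str 52 (.nv (.thr 4 36 (.thr 55 38 (.thr 37 7 (.dbl 53 5 54)))) (.rp 55 (.str 16 (.nv (.thr 24 28 (.thr 26 31 (.thr 36 4 (.thr 37 7 (.thr 39 38 (.dbl 48 12 15)))))) (.nv (.thr 28 24 (.thr 19 25 (.thr 26 31 (.dbl 18 17 30)))) (.rp 39 (.thr 7 37 (.thr 28 24 (.thr 19 25 (.thr 18 17 (.dbl 26 30 31))))) (.rp 31 (.thr 36 4 (.thr 37 7 (.thr 39 38 (.thr 28 24 (.thr 19 25 (.thr 18 17 (.thr 26 30 (.thr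 48 15 (.thr 60 56 (.dbl 3 33 41)))))))))) (.rp 30 (.thr 36 4 (.thr 37 7 (.thr 39 38 (.thr 26 31 (.thr 48 15 (.thr 60 56 (.dbl 24 12 28))))))) (.rp 28 (.thr 36 4 (.thr 37 7 (.thr 39 38 (.thr 26 31 (.thr 48 15 (.thr 60 56 (.thr 3 41 (.dbl 18 30 33)))))))) (.rp 26 (.thr 7 37 (.thr 4 36 (.thr 6 5 (.thr 38 54 (.thr 28 24 (.thr 25 19 (.thr 12 51 (.thr 60 44 (.dbl 3 9 41))))))))) (.rp 24 (.thr 36 4 (.thr 37 7 (.thr 39 38 (.thr 26 31 (.thr 18 30 (.thr 48 15 (.thr 60 56 (.dbl 3 33 41)))))))) (.rp 19 (.thr 36 4 (.thr 37 7 (.thr 39 38 (.thr 24 28 (.thr 26 31 (.thr 27 25 (.dbl 48 12 15))))))) (.rp 7 (.str 39 (.nv (.thr 26 31 (.thr 36 4 (.thr 37 38 (.thr 48 15 (.thr 60 56 (.dbl 24 12 28)))))) (.nv (.thr 28 24 (.thr 19 25 (.thr 26 31 (.dbl 18 17 30)))) (.rp 31 (.thr 36 4 (.thr 37 38 (.thr 28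 24 (.thr 19 25 (.thr 18 17 (.thr 26 30 (.thr 48 15 (.thr 60 56 (.dbl 3 33 41))))))))) (.rp 28 (.thr 36 4 (.thr 37 38 (.thr 26 31 (.thr 48 15 (.thr 60 56 (.thr 3 41 (.dbl 18 30 33))))))) (.rp 26 (.thr 36 4 (.thr 38 37 (.thr 6 54 (.thr 28 24 (.thr 25 19 (.thr 12 51 (.thr 60 44 (.dbl 3 9 41)))))))) (.rp 24 (.thr 36 4 (.thr 37 38 (.thr 26 31 (.thr 18 30 (.thr 48 15 (.thr 60 56 (.dbl 3 33 41))))))) (.rp 19 (.thr 36 4 (.thr 37 38 (.thr 24 28 (.thr 26 31 (.thr 27 25 (.dbl 48 12 15)))))) .nd)))))))) .nd))))))))))) (.rp 54 (.str 16 (.nv (.thr 24 28 (.thr 26 31 (.thr 36 4 (.thr 37 7 (.dbl 48 12 15))))) (.nv (.thr 28 24 (.thr 19 25 (.thr 26 31 (.dbl 18 17 30)))) (.rp 31 (.thr 37 7 (.thr 28 24 (.thr 19 25 (.thr 18 17 (.thr 26 30 (.thr 48 15 (.thr 60 56 (.dbl 3 33 41)))))))) (.rp 30 (.thr 37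 7 (.thr 36 4 (.thr 26 31 (.thr 48 15 (.thr 60 56 (.dbl 24 12 28)))))) (.rp 28 (.thr 37 7 (.thr 26 31 (.thr 48 15 (.thr 60 56 (.thr 3 41 (.dbl 18 30 33)))))) (.rp 26 (.thr 37 7 (.thr 53 5 (.thr 28 24 (.thr 25 19 (.thr 17 29 (.thr 49 13 (.thr 61 57 (.dbl 1 33 41)))))))) (.rp 24 (.thr 37 7 (.thr 26 31 (.thr 18 30 (.thr 48 15 (.thr 60 56 (.dbl 3 33 41)))))) (.rp 19 (.thr 37 7 (.thr 36 4 (.thr 24 28 (.thr 26 31 (.thr 27 25 (.dbl 48 12 15)))))) .nd))))))))) (.rp 53 (.thr 4 36 (.thr 38 55 (.thr 6 54 (.dbl 7 5 37)))) (.rp 38 (.str 16 (.nv (.thr 24 28 (.thr 26 31 (.thr 27 25 (.thr 36 4 (.thr 37 7 (.dbl 48 12 15)))))) (.nv (.thr 26 31 (.thr 18 30 (.thr 37 7 (.thr 48 15 (.thr 60 56 (.dbl 3 33 41)))))) (.nv (.thr 28 24 (.thr 19 25 (.thr 26 31 (.dbl 18 17 30)))) (.rp 31 (.thr 37 7 (.thr 28 24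 (.thr 19 25 (.thr 18 17 (.thr 26 30 (.thr 48 15 (.thr 60 56 (.dbl 3 33 41)))))))) (.rp 30 (.thr 37 7 (.thr 36 4 (.thr 26 31 (.thr 48 15 (.thr 60 56 (.dbl 24 12 28)))))) (.rp 28 (.thr 37 7 (.thr 26 31 (.thr 48 15 (.thr 60 56 (.thr 3 41 (.dbl 18 30 33)))))) (.rp 26 (.thr 37 7 (.thr 53 5 (.thr 28 24 (.thr 25 19 (.thr 17 29 (.thr 49 13 (.thr 61 57 (.dbl 1 33 41)))))))) .nd)))))))) (.rp 37 (.str 16 (.nv (.thr 28 24 (.thr 25 19 (.thr 29 17 (.dbl 31 26 30)))) (.nv (.thr 28 24 (.thr 19 25 (.thr 26 31 (.dbl 18 17 30)))) (.rp 41 (.str 33 (.nv (.thr 26 31 (.thr 18 30 (.thr 36 4 (.thr 48 3 (.dbl 24 12 28))))) (.nv (.thr 28 24 (.thr 19 25 (.thr 26 31 (.dbl 18 17 30)))) (.nv (.thr 26 31 (.thr 18 30 (.thr 28 24 (.dbl 19 17 25)))) (.rp 31 (.thr 4 36 (.thr 38 55 (.thr 54 6 (.thr 28 24 (.thr 19 25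 (.thr 18 17 (.thr 26 30 (.thr 50 14 (.thr 62 58 (.dbl 2 34 42)))))))))) (.rp 30 (.thr 4 36 (.thr 38 55 (.thr 6 54 (.thr 28 24 (.thr 25 19 (.thr 12 51 (.thr 60 44 (.thr 3 9 (.dbl 48 18 56))))))))) (.rp 28 (.thr 4 36 (.thr 38 55 (.thr 6 54 (.thr 26 31 (.thr 30 18 (.thr 14 50 (.thr 62 46 (.dbl 2 10 42)))))))) (.rp 26 (.thr 4 36 (.thr 38 55 (.thr 6 54 (.thr 28 24 (.thr 25 19 (.thr 12 51 (.thr 60 44 (.thr 3 9 (.dbl 48 18 56))))))))) (.rp 24 (.thr 4 36 (.thr 38 55 (.thr 6 54 (.thr 26 31 (.thr 30 18 (.thr 14 50 (.thr 62 46 (.dbl 2 10 42)))))))) (.rp 19 (.thr 4 36 (.thr 38 55 (.thr 6 54 (.thr 24 28 (.thr 26 31 (.thr 27 25 (.thr 30 18 (.thr 14 50 (.thr 62 46 (.dbl 2 10 42)))))))))) (.rp 18 (.thr 28 24 (.thr 25 19 (.thr 29 17 (.dbl 31 26 30)))) .nd))))))))))) (.rp 33 (.str 41 (.nv (.thr 24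 28 (.thr 36 4 (.thr 60 3 (.dbl 48 12 56)))) (.nv (.thr 28 24 (.thr 19 25 (.thr 26 31 (.dbl 18 17 30)))) (.nv (.thr 26 31 (.thr 56 11 (.dbl 60 3 48))) .nd)))) (.rp 31 (.thr 4 36 (.thr 38 55 (.thr 54 6 (.thr 28 24 (.thr 19 25 (.thr 18 17 (.thr 26 30 (.thr 50 14 (.thr 62 58 (.dbl 2 34 42)))))))))) (.rp 30 (.thr 4 36 (.thr 38 55 (.thr 6 54 (.thr 28 24 (.thr 25 19 (.thr 12 51 (.thr 60 44 (.dbl 3 9 41)))))))) (.rp 28 (.thr 4 36 (.thr 38 55 (.thr 6 54 (.thr 26 31 (.thr 30 18 (.thr 14 50 (.thr 62 46 (.dbl 2 10 42)))))))) (.rp 26 (.thr 4 36 (.thr 38 55 (.thr 6 54 (.thr 28 24 (.thr 25 19 (.thr 12 51 (.thr 60 44 (.dbl 3 9 41)))))))) (.rp 25 (.thr 4 36 (.thr 38 55 (.thr 6 54 (.thr 26 31 (.thr 30 18 (.thr 14 50 (.thr 62 46 (.dbl 2 10 42)))))))) (.rp 24 (.thr 4 36 (.thr 38 55 (.thr 6 54 (.thr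 26 31 (.thr 30 18 (.thr 14 50 (.thr 62 46 (.dbl 2 10 42)))))))) (.rp 19 (.thr 4 36 (.thr 38 55 (.thr 6 54 (.thr 24 28 (.thr 26 31 (.thr 27 25 (.thr 30 18 (.thr 14 50 (.thr 62 46 (.dbl 2 10 42)))))))))) (.rp 17 (.thr 4 36 (.thr 38 55 (.thr 6 54 (.thr 26 31 (.thr 30 18 (.thr 14 50 (.thr 62 46 (.dbl 2 10 42)))))))) .nd))))))))))))) (.rp 36 (.str 16 (.nv (.thr 26 31 (.thr 37 7 (.thr 48 15 (.thr 60 56 (.thr 3 41 (.dbl 18 30 33)))))) (.nv (.thr 28 24 (.thr 19 25 (.thr 26 31 (.dbl 18 17 30)))) (.rp 48 (.thr 26 31 (.thr 18 30 (.thr 19 17 (.dbl 28 24 25)))) (.rp 31 (.thr 37 7 (.thr 28 24 (.thr 19 25 (.thr 18 17 (.thr 26 30 (.thr 48 15 (.thr 60 56 (.dbl 3 33 41)))))))) (.rp 30 (.thr 37 7 (.thr 53 5 (.thr 28 24 (.thr 25 19 (.thr 17 29 (.thr 49 13 (.thr 61 57 (.dbl 1 33 41)))))))) (.rp 26 (.thr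 37 7 (.thr 53 5 (.thr 28 24 (.thr 25 19 (.thr 17 29 (.thr 49 13 (.thr 61 57 (.dbl 1 33 41)))))))) (.rp 19 (.thr 37 7 (.thr 24 28 (.thr 26 31 (.thr 27 25 (.thr 48 15 (.thr 60 56 (.thr 3 41 (.dbl 18 30 33)))))))) (.rp 18 (.thr 28 24 (.thr 25 19 (.thr 29 17 (.dbl 31 26 30)))) .nd))))))))) (.rp 7 (.str 25 (.nv (.thr 28 19 (.thr 16 24 (.thr 31 26 (.dbl 29 17 30)))) (.rp 55 (.str 39 (.nv (.thr 36 4 (.thr 38 37 (.thr 12 51 (.thr 48 24 (.thr 60 56 (.dbl 28 19 44)))))) (.nv (.thr 28 19 (.thr 16 24 (.thr 31 26 (.dbl 29 17 30)))) (.rp 28 (.thr 36 4 (.thr 38 37 (.thr 6 54 (.thr 12 51 (.thr 48 24 (.thr 60 56 (.dbl 3 9 41))))))) (.rp 24 (.thr 28 19 (.thr 36 4 (.thr 38 37 (.thr 6 54 (.thr 12 51 (.thr 60 44 (.dbl 3 9 41))))))) (.rp 19 (.thr 36 4 (.thr 38 37 (.thr 12 51 (.thr 24 48 (.thr 16 28 (.dbl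 26 27 31)))))) (.rp 17 (.str 51 (.nv (.thr 27 15 (.thr 28 19 (.dbl 24 16 26))) (.nv (.thr 38 12 (.dbl 36 4 37)) .nd))) .nd))))))) (.rp 39 (.str 55 (.nv (.dbl 4 36 38) (.rp 38 (.thr 29 17 (.thr 28 19 (.thr 31 30 (.dbl 16 24 26)))) (.rp 36 (.thr 54 53 (.dbl 38 4 6)) (.rp 4 (.thr 29 17 (.thr 28 19 (.thr 31 30 (.dbl 16 24 26)))) .nd))))) (.rp 31 (.thr 17 29 (.thr 4 36 (.thr 55 38 (.thr 53 54 (.thr 37 5 (.thr 49 13 (.thr 61 57 (.dbl 1 33 41)))))))) (.rp 30 (.thr 17 29 (.thr 4 36 (.thr 55 38 (.thr 53 54 (.thr 37 5 (.thr 49 13 (.thr 61 57 (.dbl 1 33 41)))))))) (.rp 29 (.str 61 (.nv (.thr 4 36 (.thr 55 38 (.thr 53 54 (.thr 49 57 (.dbl 37 5 13))))) (.nv (.thr 19 28 (.thr 41 1 (.thr 3 60 (.thr 9 57 (.thr 51 35 (.dbl 12 6 38)))))) (.nv (.thr 4 36 (.thr 55 38 (.thr 53 54 (.thr 57 49 (.dbl 41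 1 9))))) (.rp 57 (.thr 19 28 (.thr 4 36 (.thr 41 1 (.thr 3 60 (.thr 51 35 (.dbl 38 12 55)))))) (.rp 55 (.str 39 (.nv (.thr 28 19 (.thr 24 16 (.thr 27 26 (.thr 51 15 (.thr 12 38 (.dbl 36 4 48)))))) (.nv (.thr 19 28 (.thr 41 1 (.thr 3 60 (.thr 9 57 (.thr 51 35 (.dbl 12 6 38)))))) (.nv (.thr 36 4 (.thr 37 38 (.thr 49 13 (.dbl 53 5 57)))) (.rp 38 (.thr 28 19 (.thr 24 16 (.thr 27 26 (.thr 51 15 (.thr 41 1 (.thr 57 9 (.dbl 60 3 54))))))) (.rp 12 (.thr 28 19 (.thr 24 16 (.thr 27 26 (.thr 51 15 (.thr 41 1 (.thr 57 9 (.dbl 60 3 54))))))) .nd)))))) (.rp 39 (.str 55 (.nv (.thr 41 1 (.thr 53 54 (.dbl 57 9 49))) (.nv (.dbl 4 36 38) .nd))) (.rp 38 (.thr 28 19 (.thr 24 16 (.thr 36 4 (.thr 41 1 (.thr 3 60 (.thr 9 57 (.dbl 12 6 48))))))) .nd)))))))) (.rp 28 (.thr 17 29 (.thr 4 36 (.thr 55 38 (.thr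 53 54 (.thr 37 5 (.thr 49 13 (.thr 61 57 (.dbl 1 33 41)))))))) (.rp 27 (.thr 29 17 (.thr 28 19 (.thr 31 30 (.dbl 16 24 26)))) (.rp 26 (.thr 17 29 (.thr 4 36 (.thr 55 38 (.thr 53 54 (.thr 37 5 (.thr 49 13 (.thr 61 57 (.dbl 1 33 41)))))))) (.rp 24 (.thr 17 29 (.thr 4 36 (.thr 55 38 (.thr 53 54 (.thr 37 5 (.thr 49 13 (.thr 61 57 (.dbl 1 33 41)))))))) (.rp 19 (.thr 17 29 (.thr 4 36 (.thr 55 38 (.thr 53 54 (.thr 37 5 (.thr 49 13 (.thr 61 57 (.dbl 1 33 41)))))))) (.rp 17 (.thr 19 28 (.str 51 (.nv (.thr 3 35 (.thr 12 38 (.thr 41 60 (.dbl 9 6 57)))) (.nv (.thr 4 36 (.dbl 38 12 55)) (.rp 55 (.str 39 (.nv (.thr 3 35 (.thr 12 38 (.thr 41 60 (.dbl 9 6 57)))) (.nv (.thr 38 12 (.dbl 36 4 37)) (.rp 60 (.thr 36 4 (.dbl 38 12 37)) (.rp 38 (.thr 15 27 (.thr 3 35 (.thr 41 60 (.thr 9 57 (.thr 1 61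 (.thr 13 5 (.dbl 12 6 14))))))) (.rp 12 (.thr 3 35 (.thr 60 41 (.thr 54 57 (.thr 38 6 (.dbl 36 4 37))))) .nd)))))) (.rp 39 (.str 55 (.nv (.thr 3 35 (.thr 54 53 (.dbl 60 41 57))) (.nv (.dbl 4 36 38) .nd))) (.rp 38 (.thr 3 35 (.thr 41 60 (.thr 61 1 (.thr 57 9 (.thr 49 53 (.thr 48 50 (.thr 18 33 (.thr 26 30 (.thr 15 37 (.dbl 27 24 39)))))))))) (.rp 12 (.thr 3 35 (.thr 60 41 (.thr 54 57 (.thr 55 53 (.dbl 4 36 38))))) .nd)))))))) (.rp 16 (.thr 17 29 (.thr 4 36 (.thr 55 38 (.thr 53 54 (.thr 37 5 (.thr 49 13 (.thr 61 57 (.dbl 1 33 41)))))))) .nd)))))))))))))) (.rp 5 (.thr 4 36 (.str 60 (.nv (.thr 38 55 (.thr 41 3 (.thr 44 35 (.thr 12 28 (.thr 51 25 (.dbl 54 6 57)))))) (.nv (.thr 37 7 (.thr 48 56 (.thr 3 41 (.thr 18 33 (.dbl 26 15 30))))) (.rp 55 (.thr 56 48 (.thr 41 3 (.thr 26 11 (.thr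 18 30 (.thr 16 31 (.thr 19 17 (.dbl 28 24 25))))))) (.rp 41 (.thr 38 55 (.thr 54 6 (.thr 48 56 (.thr 51 57 (.thr 50 49 (.thr 26 14 (.dbl 37 7 15))))))) (.rp 39 (.thr 55 38 (.thr 37 7 (.thr 48 56 (.thr 3 41 (.thr 18 33 (.dbl 26 15 30)))))) (.rp 15 (.str 10 (.nv (.thr 55 38 (.thr 54 53 (.thr 51 57 (.thr 63 59 (.thr 61 62 (.dbl 41 1 3)))))) (.nv (.thr 3 41 (.thr 37 7 (.thr 48 56 (.thr 18 33 (.thr 26 30 (.thr 16 31 (.thr 28 24 (.dbl 19 17 25)))))))) (.nv (.thr 38 55 (.thr 54 6 (.thr 51 57 (.thr 12 25 (.thr 44 28 (.dbl 41 3 35)))))) (.rp 55 (.thr 7 37 (.thr 41 3 (.thr 56 48 (.thr 26 11 (.thr 42 58 (.thr 16 31 (.thr 24 28 (.dbl 40 8 43)))))))) (.rp 41 (.thr 38 55 (.thr 54 6 (.thr 48 56 (.thr 51 57 (.thr 25 12 (.thr 49 50 (.dbl 37 7 13))))))) (.rp 39 (.thr 7 37 (.thr 38 55 (.thr 6 54 (.thr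 14 2 (.thr 56 48 (.thr 26 50 (.dbl 41 3 11))))))) (.rp 3 (.thr 38 55 (.thr 54 6 (.thr 48 56 (.thr 51 57 (.thr 50 49 (.thr 26 14 (.dbl 58 42 62))))))) .nd)))))))) (.rp 10 (.str 15 (.nv (.thr 7 37 (.dbl 3 11 41)) (.nv (.thr 48 56 (.dbl 37 7 26)) (.rp 37 (.thr 38 55 (.thr 54 6 (.thr 51 57 (.thr 12 25 (.thr 44 28 (.dbl 41 3 35)))))) (.rp 7 (.thr 48 56 (.thr 26 37 (.thr 18 30 (.dbl 3 33 41)))) .nd))))) (.rp 7 (.thr 55 38 (.thr 54 53 (.thr 51 57 (.thr 63 59 (.thr 61 62 (.dbl 41 1 3)))))) (.rp 3 (.thr 38 55 (.thr 54 6 (.thr 48 56 (.thr 51 57 (.thr 50 49 (.thr 26 14 (.dbl 37 7 15))))))) .nd))))))))))) (.rp 4 (.str 26 (.nv (.thr 18 30 (.thr 37 7 (.thr 48 15 (.thr 60 56 (.dbl 3 33 41))))) (.nv (.thr 16 31 (.thr 28 24 (.thr 19 25 (.dbl 18 17 30)))) (.rp 30 (.thr 16 31 (.thr 28 24 (.thr 19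 25 (.thr 18 17 (.thr 37 7 (.thr 48 15 (.thr 60 56 (.dbl 3 33 41)))))))) (.rp 18 (.thr 16 31 (.thr 28 24 (.thr 37 7 (.thr 48 15 (.thr 60 56 (.thr 12 44 (.thr 3 41 (.thr 6 9 (.thr 38 54 (.dbl 25 19 51)))))))))) (.rp 12 (.str 8 (.nv (.thr 18 30 (.thr 37 7 (.thr 48 15 (.thr 60 56 (.dbl 3 33 41))))) (.nv (.thr 16 31 (.thr 28 24 (.thr 19 25 (.dbl 18 17 30)))) (.rp 48 (.thr 16 31 (.thr 18 30 (.thr 19 17 (.dbl 28 24 25)))) (.rp 30 (.thr 16 31 (.thr 28 24 (.thr 19 25 (.thr 18 17 (.thr 37 7 (.thr 48 15 (.thr 60 56 (.dbl 3 33 41)))))))) (.rp 18 (.thr 16 31 (.thr 24 28 (.thr 37 7 (.thr 48 15 (.dbl 56 40 60))))) .nd)))))) (.rp 8 (.str 12 (.nv (.thr 16 31 (.thr 28 24 (.thr 19 25 (.dbl 18 17 30)))) (.nv (.thr 18 30 (.thr 37 7 (.thr 48 15 (.thr 60 56 (.dbl 3 33 41))))) (.nv (.thr 16 31 (.thr 24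 28 (.thr 48 36 (.dbl 37 7 15)))) (.rp 30 (.thr 16 31 (.thr 28 24 (.thr 37 7 (.thr 48 15 (.dbl 60 44 56))))) (.rp 24 (.thr 31 16 (.thr 30 18 (.thr 29 28 (.thr 37 7 (.thr 63 46 (.dbl 15 47 48)))))) .nd)))))) .nd))))))) .nd)))))))))))

theorem w68 : WinAt (7340032, 35184380477441) :=
  chF (K := []) kn c68 7340032 35184380477441 23
    [] (by decide +kernel) (by decide +kernel)

/-- A certificate. -/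
noncomputable def c69 : Ct := (.str 52 (.nv (.thr 4 36 (.thr 7 37 (.thr 38 55 (.dbl 6 5 54)))) (.rp 55 (.thr 7 37 (.str 3 (.nv (.thr 4 36 (.thr 6 5 (.thr 15 11 (.thr 38 54 (.thr 41 60 (.thr 35 44 (.thr 51 19 (.dbl 12 9 25)))))))) (.nv (.thr 11 15 (.thr 41 60 (.thr 26 56 (.thr 16 31 (.thr 28 24 (.thr 19 25 (.dbl 18 17 30))))))) (.nv (.thr 4 36 (.thr 6 5 (.thr 38 54 (.thr 12 9 (.thr 51 25 (.thr 41 60 (.dbl 35 19 44))))))) (.rp 60 (.thr 4 36 (.thr 6 5 (.thr 38 54 (.thr 9 12 (.thr 11 15 (.thr 10 8 (.thr 14 2 (.thr 26 50 (.thr 16 31 (.thr 41 56 (.thr 24 28 (.thr 44 35 (.dbl 25 27 57))))))))))))) (.rp 41 (.thr 4 36 (.thr 6 5 (.thr 38 54 (.thr 12 9 (.thr 25 51 (.thr 28 19 (.thr 16 24 (.thr 31 26 (.dbl 29 17 30))))))))) (.rp 25 (.thr 4 36 (.thr 6 5 (.thr 38 54 (.thr 9 12 (.thr 11 15 (.thr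 10 8 (.thr 14 2 (.thr 26 50 (.dbl 41 56 60))))))))) (.rp 19 (.thr 4 36 (.thr 6 5 (.thr 38 54 (.thr 9 12 (.thr 11 15 (.thr 10 8 (.thr 14 2 (.thr 26 50 (.dbl 41 56 60))))))))) (.rp 15 (.thr 36 4 (.thr 60 41 (.thr 48 56 (.thr 12 24 (.thr 28 44 (.thr 25 19 (.thr 38 51 (.dbl 6 9 54)))))))) (.rp 5 (.thr 36 4 (.thr 60 41 (.thr 48 56 (.thr 12 24 (.thr 28 44 (.thr 25 19 (.thr 38 51 (.dbl 6 9 54)))))))) .nd))))))))))) (.rp 54 (.str 28 (.nv (.thr 16 24 (.thr 19 25 (.thr 26 31 (.dbl 18 17 30)))) (.rp 31 (.thr 37 7 (.thr 16 24 (.thr 19 25 (.thr 18 17 (.thr 26 30 (.thr 48 15 (.thr 3 33 (.dbl 60 41 56)))))))) (.rp 30 (.thr 37 7 (.thr 53 5 (.thr 25 19 (.thr 17 29 (.thr 49 13 (.thr 1 33 (.dbl 61 41 57))))))) (.rp 26 (.thr 37 7 (.thr 53 5 (.thr 25 19 (.thr 17 29 (.thr 49 13 (.thr 1 33 (.dbl 61 41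 57))))))) (.rp 25 (.thr 37 7 (.thr 16 24 (.thr 26 31 (.thr 18 30 (.thr 48 15 (.thr 3 33 (.dbl 60 41 56))))))) (.rp 24 (.thr 37 7 (.thr 53 5 (.thr 25 19 (.thr 17 29 (.thr 49 13 (.thr 1 33 (.dbl 61 41 57))))))) (.rp 19 (.thr 37 7 (.thr 5 53 (.thr 16 24 (.thr 31 26 (.thr 29 30 (.thr 25 17 (.thr 13 49 (.thr 61 45 (.dbl 1 9 41))))))))) (.rp 18 (.thr 16 24 (.thr 31 26 (.thr 29 30 (.dbl 25 17 19)))) (.rp 17 (.thr 37 7 (.thr 16 24 (.thr 26 31 (.thr 18 30 (.thr 48 15 (.thr 3 33 (.dbl 60 41 56))))))) (.rp 16 (.thr 37 7 (.thr 53 5 (.thr 25 19 (.thr 17 29 (.thr 49 13 (.thr 1 33 (.dbl 61 41 57))))))) .nd))))))))))) (.rp 38 (.str 26 (.nv (.thr 16 31 (.thr 36 4 (.thr 37 7 (.thr 48 15 (.dbl 24 12 28))))) (.nv (.thr 37 7 (.thr 48 15 (.thr 60 56 (.thr 3 41 (.dbl 18 30 33))))) (.nv (.thr 18 30 (.thr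 16 31 (.thr 28 24 (.dbl 19 17 25)))) (.rp 42 (.str 34 (.nv (.thr 16 31 (.thr 36 4 (.thr 37 7 (.thr 48 15 (.dbl 24 12 28))))) (.nv (.thr 37 7 (.thr 48 15 (.thr 60 56 (.thr 3 41 (.dbl 18 30 33))))) (.nv (.thr 18 30 (.thr 16 31 (.thr 19 17 (.dbl 28 24 25)))) .nd)))) (.rp 34 (.str 42 (.nv (.thr 16 31 (.thr 36 4 (.thr 37 7 (.thr 48 15 (.dbl 24 12 28))))) (.nv (.thr 18 30 (.thr 37 7 (.thr 48 15 (.thr 3 33 (.dbl 60 41 56))))) (.nv (.thr 16 31 (.thr 28 24 (.thr 19 25 (.dbl 18 17 30)))) (.rp 51 (.str 17 (.nv (.thr 18 30 (.thr 19 16 (.dbl 25 28 29))) (.nv (.thr 16 31 (.thr 25 29 (.dbl 28 19 24))) (.nv (.thr 16 31 (.dbl 18 19 30)) (.rp 25 (.str 12 (.nv (.thr 36 4 (.thr 37 7 (.dbl 48 15 24))) (.nv (.thr 16 31 (.dbl 18 19 30)) .nd))) (.rp 19 (.thr 30 18 (.thr 31 16 (.dbl 29 25 28))) (.rp 16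 (.thr 18 30 (.thr 37 7 (.thr 48 15 (.thr 60 56 (.dbl 3 33 41))))) (.rp 12 (.thr 25 29 (.str 63 (.nv (.thr 37 7 (.thr 53 5 (.dbl 48 15 58))) (.nv (.thr 16 31 (.dbl 28 19 24)) (.rp 8 (.thr 4 36 (.thr 18 30 (.dbl 16 19 31))) (.rp 4 (.thr 8 59 (.thr 18 30 (.dbl 16 19 31))) .nd)))))) .nd)))))))) (.rp 17 (.str 51 (.nv (.thr 2 62 (.thr 4 36 (.thr 10 58 (.thr 6 14 (.thr 30 18 (.dbl 7 5 37)))))) (.nv (.thr 58 10 (.thr 62 2 (.thr 50 54 (.thr 48 49 (.dbl 37 7 15))))) (.nv (.thr 16 31 (.thr 24 28 (.thr 27 25 (.thr 15 39 (.dbl 37 7 48))))) (.rp 37 (.thr 62 2 (.thr 58 10 (.thr 50 54 (.thr 48 49 (.thr 60 56 (.dbl 63 53 61)))))) (.rp 7 (.thr 62 2 (.thr 58 10 (.thr 50 54 (.thr 48 49 (.thr 60 56 (.dbl 63 53 61)))))) .nd)))))) .nd)))))) .nd)))))) (.rp 37 (.str 60 (.nv (.thr 41 3 (.thr 56 48 (.thr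 26 11 (.thr 16 31 (.thr 18 30 (.thr 19 17 (.dbl 28 24 25))))))) (.nv (.thr 4 36 (.thr 38 55 (.thr 54 6 (.thr 51 57 (.thr 12 25 (.thr 44 28 (.dbl 41 3 35))))))) (.rp 51 (.thr 56 48 (.thr 41 3 (.thr 26 11 (.thr 18 30 (.thr 16 31 (.thr 28 24 (.dbl 19 17 25))))))) (.rp 41 (.thr 4 36 (.thr 38 55 (.thr 54 6 (.thr 51 57 (.thr 25 12 (.thr 28 19 (.thr 29 17 (.thr 31 30 (.dbl 16 24 26))))))))) (.rp 28 (.thr 4 36 (.thr 38 55 (.thr 54 6 (.thr 48 56 (.thr 51 57 (.thr 50 49 (.thr 26 14 (.thr 3 41 (.dbl 18 30 33))))))))) (.rp 25 (.thr 4 36 (.thr 38 55 (.thr 56 48 (.thr 41 3 (.thr 44 35 (.thr 26 11 (.thr 16 31 (.dbl 28 12 24)))))))) (.rp 7 (.thr 36 4 (.thr 48 56 (.thr 12 24 (.thr 28 44 (.thr 25 19 (.thr 38 51 (.thr 6 54 (.dbl 3 9 41)))))))) (.rp 3 (.thr 4 36 (.thr 38 55 (.thr 54 6 (.thr 48 56 (.thr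 51 57 (.thr 50 49 (.thr 26 14 (.thr 16 31 (.thr 28 24 (.dbl 12 25 44)))))))))) .nd))))))))) (.rp 36 (.str 28 (.nv (.thr 25 19 (.thr 29 17 (.thr 31 30 (.dbl 16 24 26)))) (.nv (.thr 16 24 (.thr 31 26 (.thr 25 19 (.dbl 29 17 30)))) (.rp 31 (.thr 37 7 (.thr 16 24 (.thr 19 25 (.thr 18 17 (.thr 26 30 (.thr 48 15 (.thr 3 33 (.dbl 60 41 56)))))))) (.rp 30 (.thr 37 7 (.thr 53 5 (.thr 25 19 (.thr 17 29 (.thr 49 13 (.thr 1 33 (.dbl 61 41 57))))))) (.rp 29 (.thr 16 24 (.thr 26 31 (.thr 18 30 (.dbl 19 17 25)))) (.rp 26 (.thr 37 7 (.thr 53 5 (.thr 25 19 (.thr 17 29 (.thr 49 13 (.thr 1 33 (.dbl 61 41 57))))))) (.rp 25 (.thr 37 7 (.thr 16 24 (.thr 26 31 (.thr 18 30 (.thr 48 15 (.thr 3 33 (.dbl 60 41 56))))))) (.rp 24 (.thr 37 7 (.thr 53 5 (.thr 25 19 (.thr 17 29 (.thr 49 13 (.thr 1 33 (.dbl 61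 41 57))))))) (.rp 19 (.thr 37 7 (.thr 5 53 (.thr 16 24 (.thr 31 26 (.thr 29 30 (.thr 25 17 (.thr 13 49 (.thr 61 45 (.dbl 1 9 41))))))))) (.rp 17 (.thr 37 7 (.thr 16 24 (.thr 26 31 (.thr 18 30 (.thr 48 15 (.thr 3 33 (.dbl 60 41 56))))))) (.rp 16 (.thr 37 7 (.thr 53 5 (.thr 25 19 (.thr 17 29 (.thr 49 13 (.thr 1 33 (.dbl 61 41 57))))))) .nd)))))))))))) (.rp 7 (.str 60 (.nv (.thr 3 41 (.thr 36 4 (.thr 48 56 (.thr 12 24 (.thr 6 9 (.thr 28 44 (.thr 25 19 (.dbl 38 51 54)))))))) (.nv (.thr 3 41 (.thr 48 56 (.thr 18 33 (.thr 26 30 (.thr 16 31 (.thr 28 24 (.dbl 19 17 25))))))) (.nv (.thr 4 36 (.thr 55 38 (.thr 54 53 (.thr 51 57 (.thr 63 59 (.thr 61 62 (.dbl 41 1 3))))))) (.rp 56 (.thr 4 36 (.thr 55 38 (.thr 53 54 (.thr 37 5 (.thr 41 3 (.thr 45 33 (.thr 15 30 (.thr 48 26 (.thr 63 58 (.dbl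 61 1 62)))))))))) (.rp 55 (.str 39 (.nv (.thr 36 4 (.thr 38 37 (.thr 48 56 (.thr 12 24 (.thr 25 51 (.dbl 28 19 44)))))) (.nv (.thr 3 41 (.thr 36 4 (.thr 38 37 (.thr 6 54 (.thr 12 9 (.thr 25 51 (.dbl 28 19 44))))))) (.nv (.thr 3 41 (.thr 48 56 (.thr 18 33 (.thr 26 30 (.thr 16 31 (.thr 19 17 (.dbl 28 24 25))))))) (.nv (.thr 36 4 (.thr 38 37 (.thr 6 54 (.thr 48 56 (.thr 12 24 (.dbl 3 9 41)))))) (.rp 37 (.thr 36 4 (.thr 48 56 (.thr 12 24 (.thr 28 44 (.thr 25 19 (.thr 38 51 (.thr 6 54 (.dbl 3 9 41)))))))) .nd)))))) (.rp 41 (.thr 4 36 (.thr 55 38 (.thr 53 54 (.thr 37 5 (.thr 48 56 (.thr 63 58 (.thr 62 61 (.thr 42 2 (.thr 47 32 (.dbl 15 26 31)))))))))) (.rp 39 (.str 55 (.nv (.dbl 4 36 38) (.rp 38 (.thr 54 53 (.thr 51 57 (.thr 63 59 (.thr 61 62 (.dbl 41 1 3))))) (.rp 36 (.thr 54 53 (.dbl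 38 4 6)) (.rp 4 (.thr 54 53 (.thr 51 57 (.thr 63 59 (.thr 61 62 (.dbl 41 1 3))))) .nd))))) (.rp 3 (.thr 4 36 (.thr 55 38 (.thr 53 54 (.thr 37 5 (.thr 48 56 (.thr 15 26 (.thr 45 30 (.thr 63 58 (.thr 41 33 (.dbl 61 1 62)))))))))) .nd))))))))) (.rp 6 (.thr 4 36 (.thr 55 38 (.thr 53 54 (.dbl 37 5 7)))) (.rp 5 (.thr 4 36 (.thr 7 37 (.thr 38 55 (.str 25 (.nv (.thr 6 54 (.thr 12 51 (.thr 3 9 (.thr 60 41 (.dbl 28 19 44))))) (.nv (.thr 28 19 (.thr 16 24 (.thr 31 26 (.dbl 29 17 30)))) (.rp 28 (.thr 54 6 (.thr 51 12 (.thr 60 57 (.thr 3 41 (.thr 48 56 (.thr 33 18 (.thr 49 50 (.dbl 17 1 29)))))))) (.rp 19 (.thr 6 54 (.thr 12 51 (.thr 3 9 (.thr 60 41 (.thr 28 44 (.thr 16 24 (.thr 31 26 (.dbl 29 17 30)))))))) (.rp 17 (.thr 54 6 (.thr 51 12 (.thr 19 28 (.thr 3 35 (.dbl 60 41 57))))) (.rp 15 (.str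 10 (.nv (.thr 6 54 (.thr 14 2 (.thr 26 50 (.thr 16 31 (.dbl 24 27 28))))) (.nv (.thr 6 54 (.thr 2 14 (.thr 12 51 (.thr 9 3 (.thr 8 11 (.dbl 42 59 62)))))) (.nv (.thr 19 28 (.thr 51 12 (.thr 3 35 (.thr 54 6 (.dbl 60 41 57))))) (.nv (.thr 28 19 (.thr 16 24 (.thr 29 17 (.dbl 31 26 30)))) (.rp 48 (.str 26 (.nv (.thr 6 54 (.dbl 14 2 50)) (.nv (.thr 28 19 (.dbl 16 24 31)) (.rp 32 (.thr 16 31 (.dbl 24 27 28)) (.rp 24 (.thr 12 51 (.thr 6 54 (.dbl 14 2 50))) (.rp 16 (.str 32 (.nv (.thr 24 27 (.thr 14 50 (.thr 2 6 (.dbl 42 58 62)))) (.nv (.thr 12 51 (.thr 50 14 (.thr 54 6 (.dbl 58 42 62)))) (.nv (.thr 6 54 (.dbl 14 2 50)) (.rp 50 (.thr 6 54 (.thr 2 14 (.dbl 42 58 62))) (.rp 14 (.thr 6 54 (.thr 42 58 (.thr 8 59 (.thr 9 11 (.dbl 12 3 51))))) (.rp 6 (.thr 24 27 (.thr 42 58 (.thr 8 59 (.thr 11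 9 (.dbl 56 40 41))))) .nd))))))) (.rp 12 (.thr 24 27 (.dbl 16 28 31)) .nd))))))) (.rp 26 (.str 48 (.nv (.thr 17 29 (.thr 19 28 (.thr 18 16 (.thr 3 33 (.dbl 51 12 35))))) (.nv (.thr 54 6 (.thr 60 56 (.dbl 51 12 57))) (.rp 51 (.thr 28 19 (.thr 60 56 (.thr 44 12 (.dbl 41 3 35)))) (.rp 41 (.thr 54 6 (.thr 51 12 (.dbl 60 56 57))) (.rp 12 (.thr 54 6 (.thr 60 56 (.thr 57 51 (.dbl 41 3 9)))) .nd)))))) (.rp 19 (.thr 54 6 (.thr 51 12 (.thr 60 57 (.thr 48 56 (.thr 50 49 (.thr 58 62 (.dbl 26 14 42))))))) .nd)))))))) (.rp 12 (.thr 28 19 (.thr 29 17 (.thr 31 30 (.dbl 16 24 26)))) (.rp 10 (.str 15 (.nv (.thr 28 19 (.thr 16 24 (.thr 31 26 (.dbl 29 17 30)))) (.nv (.thr 3 11 (.thr 6 54 (.dbl 12 9 51))) (.rp 12 (.thr 28 19 (.thr 29 17 (.thr 31 30 (.dbl 16 24 26)))) .nd)))) .nd)))))))))))) (.rp 4 (.str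 25 (.nv (.thr 17 29 (.thr 37 7 (.thr 49 13 (.thr 1 33 (.thr 61 41 (.dbl 53 5 57)))))) (.nv (.thr 28 19 (.thr 16 24 (.thr 31 26 (.dbl 29 17 30)))) (.rp 29 (.str 12 (.nv (.thr 38 51 (.thr 54 6 (.thr 53 55 (.dbl 37 5 7)))) (.nv (.thr 28 19 (.thr 24 16 (.thr 48 36 (.dbl 60 44 56)))) (.rp 17 (.thr 28 19 (.thr 60 44 (.thr 48 56 (.dbl 24 16 36)))) .nd)))) (.rp 17 (.thr 28 19 (.thr 16 24 (.thr 31 26 (.thr 29 30 (.thr 37 7 (.thr 5 53 (.thr 13 49 (.thr 1 9 (.dbl 61 41 45))))))))) (.rp 12 (.str 8 (.nv (.thr 29 17 (.thr 28 19 (.thr 31 30 (.dbl 16 24 26)))) (.nv (.thr 28 19 (.thr 16 24 (.thr 31 26 (.dbl 29 17 30)))) (.rp 31 (.thr 29 17 (.thr 37 7 (.thr 5 53 (.thr 13 49 (.thr 1 9 (.dbl 61 41 45)))))) (.rp 30 (.thr 29 17 (.thr 37 7 (.thr 5 53 (.thr 13 49 (.thr 1 9 (.dbl 61 41 45)))))) (.rp 29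 (.str 63 (.nv (.thr 28 19 (.thr 24 16 (.thr 37 7 (.thr 56 40 (.thr 48 60 (.dbl 26 15 27)))))) (.nv (.thr 28 19 (.thr 42 59 (.thr 62 2 (.thr 60 61 (.thr 56 48 (.dbl 24 16 40)))))) (.nv (.thr 59 42 (.thr 55 51 (.thr 37 7 (.dbl 53 5 54)))) .nd)))) (.rp 28 (.thr 29 17 (.thr 37 7 (.thr 5 53 (.thr 13 49 (.thr 1 9 (.dbl 61 41 45)))))) (.rp 26 (.thr 29 17 (.thr 37 7 (.thr 5 53 (.thr 13 49 (.thr 1 9 (.dbl 61 41 45)))))) (.rp 24 (.thr 29 17 (.thr 37 7 (.thr 5 53 (.thr 13 49 (.thr 1 9 (.dbl 61 41 45)))))) (.rp 19 (.thr 29 17 (.thr 37 7 (.thr 5 53 (.thr 13 49 (.thr 1 9 (.dbl 61 41 45)))))) (.rp 17 (.thr 28 19 (.thr 16 24 (.thr 31 26 (.thr 29 30 (.thr 37 7 (.thr 5 53 (.thr 13 49 (.thr 1 9 (.dbl 61 41 45))))))))) (.rp 16 (.thr 29 17 (.thr 37 7 (.thr 5 53 (.thr 13 49 (.thr 1 9 (.dbl 61 41 45))))))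 .nd)))))))))))) (.rp 8 (.str 12 (.nv (.thr 38 51 (.thr 54 6 (.thr 53 55 (.dbl 37 5 7)))) (.nv (.thr 28 19 (.thr 16 24 (.thr 31 26 (.dbl 29 17 30)))) (.rp 17 (.thr 28 19 (.thr 60 44 (.thr 48 56 (.dbl 24 16 36)))) .nd)))) .nd))))))) .nd)))))))))))

theorem w69 : WinAt (7340032, 70368752566273) :=
  chF (K := []) kn c69 7340032 70368752566273 23
    [] (by decide +kernel) (by decide +kernel)

/-- A certificate. -/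
noncomputable def c70 : Ct := (.str 26 (.nv (.thr 23 20 (.thr 30 18 (.thr 31 16 (.thr 19 27 (.dbl 28 25 29))))) (.nv (.thr 18 30 (.thr 20 23 (.thr 16 31 (.thr 28 24 (.dbl 19 17 25))))) (.rp 31 (.str 15 (.nv (.thr 20 23 (.thr 37 48 (.thr 52 7 (.thr 4 36 (.thr 53 5 (.dbl 55 38 54)))))) (.nv (.thr 30 18 (.thr 60 45 (.thr 3 41 (.thr 7 11 (.dbl 37 48 52))))) (.rp 52 (.thr 18 30 (.thr 48 37 (.thr 3 33 (.thr 11 7 (.dbl 41 56 60))))) (.rp 48 (.thr 30 18 (.thr 23 20 (.thr 60 45 (.thr 3 41 (.thr 7 11 (.thr 55 39 (.thr 4 38 (.thr 5 6 (.dbl 37 52 53))))))))) (.rp 37 (.str 42 (.nv (.thr 30 18 (.thr 60 45 (.thr 62 2 (.thr 61 63 (.dbl 41 1 3))))) (.nv (.thr 10 58 (.thr 2 62 (.thr 14 6 (.thr 18 30 (.dbl 50 34 38))))) (.rp 62 (.thr 30 18 (.thr 10 58 (.thr 60 45 (.thr 41 3 (.thr 43 40 (.thr 11 56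 (.thr 8 9 (.dbl 59 25 27)))))))) (.rp 50 (.thr 30 18 (.thr 10 58 (.thr 60 45 (.thr 41 3 (.thr 43 40 (.thr 11 56 (.thr 8 9 (.dbl 59 25 27)))))))) (.rp 34 (.thr 30 18 (.thr 58 10 (.thr 62 2 (.thr 50 54 (.dbl 14 38 46))))) (.rp 30 (.str 29 (.nv (.thr 2 62 (.thr 10 58 (.thr 14 6 (.thr 13 12 (.thr 61 45 (.thr 41 1 (.thr 3 60 (.dbl 11 7 56)))))))) (.nv (.thr 25 17 (.thr 27 24 (.thr 59 8 (.thr 11 43 (.thr 3 7 (.dbl 41 56 60)))))) (.nv (.thr 10 58 (.thr 2 62 (.thr 14 6 (.thr 12 13 (.thr 25 17 (.dbl 38 50 51)))))) (.rp 12 (.thr 25 17 (.thr 24 27 (.thr 8 59 (.thr 10 58 (.thr 11 9 (.dbl 56 40 41)))))) .nd))))) (.rp 18 (.thr 62 2 (.thr 58 10 (.thr 50 54 (.thr 14 38 (.thr 12 13 (.thr 30 46 (.thr 60 45 (.thr 44 28 (.thr 61 63 (.dbl 41 1 3)))))))))) (.rp 2 (.thr 30 18 (.thr 10 58 (.thr 60 45 (.thr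 41 3 (.thr 1 61 (.thr 43 40 (.thr 11 56 (.thr 8 9 (.dbl 59 25 27))))))))) .nd))))))))) (.rp 7 (.thr 30 18 (.thr 60 45 (.thr 41 3 (.thr 56 11 (.dbl 48 37 52))))) .nd))))))) (.rp 30 (.str 7 (.nv (.thr 23 20 (.thr 31 16 (.thr 27 19 (.thr 39 55 (.thr 15 51 (.dbl 37 48 52)))))) (.nv (.thr 37 52 (.thr 5 53 (.thr 4 6 (.thr 55 38 (.dbl 23 20 39))))) (.rp 55 (.thr 20 23 (.thr 16 31 (.thr 28 24 (.thr 37 52 (.thr 15 48 (.thr 3 11 (.thr 60 41 (.thr 12 44 (.thr 13 14 (.dbl 25 19 49)))))))))) (.rp 52 (.thr 23 20 (.thr 31 16 (.thr 27 19 (.thr 39 55 (.thr 15 51 (.thr 3 11 (.thr 48 37 (.thr 63 43 (.thr 60 41 (.thr 62 61 (.thr 42 2 (.dbl 58 10 53)))))))))))) (.rp 39 (.thr 20 23 (.thr 52 37 (.thr 4 36 (.thr 38 55 (.dbl 6 5 54))))) (.rp 37 (.thr 23 20 (.thr 31 16 (.thr 27 19 (.thr 24 25 (.thr 39 55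 (.thr 15 51 (.thr 3 11 (.thr 63 43 (.thr 60 41 (.thr 62 61 (.thr 42 2 (.thr 58 10 (.thr 54 50 (.thr 48 53 (.thr 6 38 (.dbl 12 9 36)))))))))))))))) (.rp 23 (.thr 37 52 (.thr 5 53 (.thr 6 4 (.thr 15 48 (.thr 3 11 (.thr 12 9 (.thr 14 13 (.dbl 38 50 54)))))))) (.rp 20 (.thr 16 31 (.thr 37 52 (.thr 5 53 (.thr 4 6 (.thr 55 38 (.thr 39 23 (.thr 15 48 (.thr 3 11 (.thr 51 27 (.thr 19 35 (.thr 17 18 (.dbl 25 28 29)))))))))))) .nd))))))))) (.rp 28 (.str 48 (.nv (.thr 15 37 (.thr 30 18 (.thr 60 45 (.thr 41 3 (.dbl 56 11 52))))) (.nv (.thr 37 15 (.thr 5 53 (.thr 7 52 (.thr 4 6 (.thr 55 38 (.dbl 23 20 39)))))) (.nv (.thr 18 30 (.thr 3 33 (.thr 60 41 (.thr 52 56 (.dbl 37 7 15))))) (.rp 52 (.thr 18 30 (.thr 3 33 (.thr 41 60 (.thr 11 56 (.dbl 15 7 37))))) (.rp 37 (.thr 18 30 (.thr 23 20 (.thr 3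 33 (.thr 63 43 (.thr 58 53 (.thr 42 10 (.thr 62 2 (.dbl 60 41 61)))))))) (.rp 15 (.thr 18 30 (.thr 23 20 (.thr 3 33 (.thr 63 43 (.thr 58 53 (.thr 60 41 (.thr 62 61 (.dbl 42 2 10)))))))) .nd))))))) (.rp 27 (.thr 18 30 (.thr 20 23 (.thr 16 31 (.thr 19 17 (.dbl 28 24 25))))) (.rp 25 (.str 14 (.nv (.thr 30 18 (.thr 62 46 (.thr 42 2 (.thr 58 10 (.dbl 50 38 54))))) (.nv (.thr 23 20 (.thr 38 50 (.thr 54 6 (.thr 55 4 (.thr 7 39 (.dbl 52 37 53)))))) (.nv (.thr 18 30 (.thr 50 38 (.thr 2 34 (.thr 42 62 (.dbl 10 6 58))))) (.rp 50 (.thr 30 18 (.thr 20 23 (.thr 62 46 (.thr 2 42 (.thr 6 10 (.thr 38 54 (.thr 4 55 (.thr 52 36 (.dbl 7 5 37))))))))) (.rp 38 (.thr 30 18 (.thr 31 16 (.thr 29 28 (.thr 46 62 (.thr 12 63 (.thr 15 13 (.thr 60 45 (.thr 3 41 (.thr 7 11 (.dbl 37 48 52)))))))))) .nd)))))) (.rp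 24 (.thr 30 18 (.thr 23 20 (.thr 31 16 (.thr 28 29 (.dbl 19 25 27))))) (.rp 23 (.str 15 (.nv (.thr 30 18 (.thr 48 37 (.thr 60 45 (.thr 41 3 (.dbl 56 11 52))))) (.nv (.thr 18 30 (.thr 48 37 (.thr 3 33 (.thr 41 60 (.dbl 11 7 56))))) (.nv (.thr 30 18 (.thr 60 45 (.thr 3 41 (.thr 7 11 (.dbl 37 48 52))))) (.rp 60 (.thr 18 30 (.thr 16 31 (.thr 19 17 (.thr 28 25 (.thr 20 24 (.thr 37 48 (.thr 52 7 (.thr 53 5 (.thr 55 54 (.dbl 4 36 38)))))))))) (.rp 48 (.thr 30 18 (.thr 60 45 (.thr 3 41 (.thr 7 11 (.thr 37 52 (.thr 5 53 (.thr 6 4 (.thr 12 9 (.thr 14 13 (.dbl 38 50 54)))))))))) (.rp 41 (.thr 37 48 (.thr 7 52 (.thr 3 11 (.thr 5 53 (.thr 6 4 (.thr 12 9 (.thr 14 13 (.dbl 38 50 54)))))))) (.rp 37 (.thr 30 18 (.thr 31 16 (.thr 28 29 (.thr 60 45 (.thr 44 12 (.thr 41 3 (.thr 38 35 (.thr 14 50 (.thr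 6 54 (.thr 2 10 (.dbl 62 42 46))))))))))) (.rp 30 (.thr 37 48 (.thr 7 52 (.thr 3 11 (.thr 5 53 (.thr 6 4 (.thr 12 9 (.thr 14 13 (.dbl 38 50 54)))))))) (.rp 18 (.thr 37 48 (.thr 7 52 (.thr 3 11 (.thr 5 53 (.thr 6 4 (.thr 12 9 (.thr 14 13 (.dbl 38 50 54)))))))) (.rp 11 (.thr 30 18 (.thr 31 16 (.thr 29 28 (.thr 45 60 (.thr 61 13 (.thr 41 1 (.dbl 37 33 48))))))) (.rp 3 (.thr 30 18 (.thr 31 16 (.thr 29 28 (.thr 45 60 (.thr 13 61 (.thr 12 14 (.thr 48 37 (.thr 24 36 (.dbl 25 17 27))))))))) .nd)))))))))))) (.rp 20 (.thr 30 18 (.str 60 (.nv (.thr 41 3 (.thr 56 11 (.thr 48 52 (.dbl 15 37 45)))) (.nv (.thr 15 45 (.thr 41 3 (.thr 48 37 (.dbl 56 11 52)))) (.nv (.thr 15 45 (.thr 3 41 (.thr 7 11 (.dbl 37 48 52)))) (.rp 52 (.thr 31 16 (.thr 28 29 (.thr 19 25 (.thr 27 23 (.thr 15 45 (.thr 51 39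 (.dbl 3 35 41))))))) (.rp 48 (.thr 45 15 (.thr 41 3 (.thr 33 37 (.thr 1 61 (.thr 17 49 (.thr 25 29 (.thr 28 19 (.thr 12 44 (.thr 51 38 (.dbl 57 9 54)))))))))) (.rp 45 (.thr 31 16 (.thr 28 29 (.thr 44 12 (.thr 41 3 (.thr 38 35 (.thr 6 54 (.thr 14 50 (.thr 2 10 (.dbl 62 42 46))))))))) (.rp 41 (.thr 15 45 (.thr 37 48 (.thr 52 7 (.thr 53 5 (.thr 54 55 (.thr 51 57 (.thr 39 27 (.dbl 38 6 36)))))))) (.rp 37 (.thr 31 16 (.thr 28 29 (.thr 19 25 (.thr 27 23 (.thr 15 45 (.thr 51 39 (.dbl 3 35 41))))))) (.rp 15 (.thr 31 16 (.thr 28 29 (.thr 12 44 (.thr 3 41 (.thr 6 9 (.thr 38 54 (.dbl 25 19 51))))))) (.rp 11 (.thr 31 16 (.thr 28 29 (.thr 19 25 (.thr 27 23 (.thr 15 45 (.thr 51 39 (.dbl 3 35 41))))))) (.rp 3 (.thr 31 16 (.thr 28 29 (.thr 19 25 (.thr 27 23 (.thr 15 45 (.thr 51 39 (.thr 54 57 (.thr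 38 6 (.thr 50 14 (.dbl 48 37 49)))))))))) .nd))))))))))))) (.rp 19 (.str 7 (.nv (.thr 30 18 (.thr 37 52 (.thr 15 48 (.thr 3 11 (.dbl 60 41 45))))) (.nv (.thr 37 52 (.thr 5 53 (.thr 4 6 (.thr 55 38 (.dbl 23 20 39))))) (.rp 52 (.thr 23 20 (.thr 30 18 (.thr 55 39 (.thr 4 38 (.thr 5 6 (.thr 37 53 (.thr 15 48 (.thr 3 11 (.dbl 60 41 45))))))))) (.rp 37 (.thr 23 20 (.thr 18 30 (.thr 55 39 (.thr 38 4 (.thr 54 6 (.thr 50 14 (.thr 62 58 (.dbl 2 34 42)))))))) .nd))))) (.rp 18 (.thr 23 20 (.str 60 (.nv (.thr 3 41 (.thr 31 16 (.thr 19 27 (.thr 28 25 (.thr 30 29 (.thr 15 45 (.thr 7 11 (.dbl 37 48 52)))))))) (.nv (.thr 3 41 (.thr 63 43 (.thr 62 61 (.thr 42 2 (.thr 58 10 (.thr 48 53 (.thr 52 56 (.dbl 37 7 15)))))))) (.nv (.thr 3 41 (.thr 31 16 (.thr 19 27 (.thr 51 35 (.thr 54 57 (.thr 38 6 (.dbl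 25 12 28))))))) (.rp 57 (.thr 31 16 (.thr 19 27 (.thr 28 25 (.thr 30 29 (.thr 15 45 (.thr 48 37 (.thr 56 52 (.dbl 41 3 11)))))))) (.rp 48 (.thr 3 41 (.thr 63 43 (.thr 62 61 (.thr 42 2 (.thr 58 10 (.thr 50 54 (.thr 14 38 (.thr 46 30 (.thr 29 12 (.thr 25 17 (.thr 19 28 (.dbl 31 16 27)))))))))))) (.rp 43 (.thr 31 16 (.thr 19 27 (.thr 28 25 (.thr 30 29 (.thr 15 45 (.thr 48 37 (.thr 56 52 (.dbl 41 3 11)))))))) (.rp 41 (.str 55 (.nv (.thr 38 4 (.thr 54 6 (.thr 52 53 (.thr 48 56 (.dbl 37 7 15))))) (.nv (.thr 4 38 (.thr 7 39 (.thr 37 52 (.dbl 5 6 53)))) (.rp 53 (.thr 31 16 (.thr 19 27 (.thr 38 4 (.thr 54 6 (.thr 51 57 (.dbl 25 12 28)))))) (.rp 52 (.thr 31 16 (.thr 19 27 (.thr 28 25 (.thr 30 29 (.thr 4 38 (.thr 7 39 (.thr 5 6 (.thr 37 53 (.dbl 15 45 48))))))))) (.rp 38 (.thr 31 16 (.thr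 19 27 (.thr 28 25 (.thr 30 29 (.thr 7 39 (.thr 37 52 (.dbl 15 45 48))))))) (.rp 37 (.thr 31 16 (.thr 19 27 (.thr 38 4 (.thr 54 6 (.thr 51 57 (.dbl 25 12 28)))))) (.rp 7 (.thr 31 16 (.thr 19 27 (.thr 28 25 (.thr 30 29 (.thr 38 4 (.thr 14 50 (.thr 12 44 (.dbl 15 13 45)))))))) (.rp 6 (.thr 31 16 (.thr 19 27 (.thr 28 25 (.thr 30 29 (.thr 7 39 (.thr 37 52 (.dbl 15 45 48))))))) (.rp 5 (.thr 38 4 (.thr 54 6 (.thr 7 39 (.dbl 52 37 53)))) (.rp 4 (.thr 31 16 (.thr 19 27 (.thr 28 25 (.thr 30 29 (.thr 7 39 (.thr 15 45 (.dbl 37 48 52))))))) .nd))))))))))) (.rp 3 (.thr 31 16 (.thr 19 27 (.thr 28 25 (.thr 30 29 (.thr 44 12 (.thr 15 45 (.thr 48 37 (.thr 56 52 (.thr 41 11 (.thr 38 35 (.thr 6 54 (.thr 14 50 (.thr 2 10 (.dbl 62 42 46)))))))))))))) .nd)))))))))) (.rp 16 (.str 48 (.nv (.thr 18 30 (.thr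 3 33 (.thr 23 20 (.thr 37 15 (.thr 63 43 (.dbl 53 5 58)))))) (.nv (.thr 37 15 (.thr 5 53 (.thr 7 52 (.thr 4 6 (.thr 55 38 (.dbl 23 20 39)))))) (.nv (.thr 18 30 (.thr 3 33 (.thr 60 41 (.thr 52 56 (.dbl 37 7 15))))) (.rp 37 (.thr 18 30 (.thr 23 20 (.thr 3 33 (.thr 63 43 (.thr 58 53 (.thr 42 10 (.thr 62 2 (.dbl 60 41 61)))))))) (.rp 15 (.thr 18 30 (.thr 23 20 (.thr 3 33 (.thr 63 43 (.thr 58 53 (.thr 60 41 (.thr 62 61 (.dbl 42 2 10)))))))) .nd)))))) .nd))))))))))))))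

theorem w70 : WinAt (6291456, 140737488355329) :=
  chF (K := []) kn c70 6291456 140737488355329 47
    [] (by decide +kernel) (by decide +kernel)

/-- A certificate. -/
noncomputable def c71 : Ct := (.str 36 (.nv (.thr 20 23 (.dbl 52 4 7)) (.rp 52 (.thr 20 23 (.str 16 (.nv (.thr 28 24 (.thr 19 25 (.thr 26 31 (.dbl 18 17 30)))) (.rp 60 (.str 56 (.nv (.thr 24 28 (.thr 38 39 (.thr 40 8 (.thr 44 32 (.thr 41 35 (.dbl 26 11 31)))))) (.nv (.thr 28 24 (.thr 19 25 (.thr 26 31 (.dbl 18 17 30)))) (.rp 31 (.thr 38 39 (.thr 54 6 (.thr 28 24 (.thr 19 25 (.thr 18 17 (.thr 26 30 (.thr 50 14 (.thr 62 58 (.dbl 2 34 42))))))))) (.rp 28 (.thr 26 31 (.thr 41 11 (.thr 1 61 (.thr 33 45 (.thr 17 49 (.dbl 18 19 30)))))) (.rp 26 (.str 32 (.nv (.thr 40 44 (.dbl 24 8 28)) (.rp 44 (.thr 38 39 (.thr 54 6 (.thr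 28 24 (.thr 25 19 (.thr 42 47 (.thr 59 8 (.thr 58 57 (.dbl 62 2 50)))))))) (.rp 40 (.thr 38 39 (.thr 28 24 (.thr 42 47 (.thr 2 62 (.thr 34 46 (.thr 18 50 (.dbl 19 17 25))))))) (.rp 28 (.thr 38 39 (.thr 44 40 (.thr 35 41 (.thr 34 33 (.dbl 42 46 47))))) (.rp 24 (.thr 38 39 (.thr 44 40 (.thr 35 41 (.thr 34 33 (.dbl 42 46 47))))) (.rp 15 (.str 10 (.nv (.thr 38 39 (.thr 6 54 (.thr 42 47 (.dbl 2 14 62)))) (.nv (.thr 24 28 (.dbl 40 8 44)) (.rp 45 (.str 30 (.nv (.thr 38 39 (.thr 42 47 (.thr 46 34 (.dbl 62 2 14)))) (.nv (.thr 24 28 (.dbl 40 8 44)) .nd))) (.rp 30 (.str 45 (.nv (.thr 28 24 (.thr 25 19 (.thr 13 49 (.dbl 29 17 61)))) (.nv (.thr 44 40 (.dbl 47 42 46)) .nd))) .nd))))) (.rp 12 (.thr 38 39 (.thr 44 40 (.thr 35 41 (.thr 34 33 (.dbl 42 46 47))))) (.rp 10 (.str 15 (.nv (.thr 24 28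 (.dbl 40 8 44)) (.rp 58 (.thr 42 47 (.thr 24 28 (.dbl 40 8 44))) (.rp 44 (.thr 28 24 (.thr 25 19 (.thr 29 17 (.thr 31 30 (.dbl 47 42 63))))) (.rp 42 (.str 58 (.nv (.thr 40 44 (.dbl 24 8 28)) (.rp 44 (.thr 28 24 (.thr 38 39 (.thr 25 19 (.thr 13 49 (.dbl 12 14 51))))) (.rp 40 (.thr 28 24 (.thr 38 39 (.thr 25 19 (.thr 13 49 (.dbl 12 14 51))))) (.rp 28 (.thr 44 40 (.thr 38 39 (.thr 57 59 (.thr 41 35 (.thr 25 9 (.thr 13 49 (.dbl 12 14 51))))))) (.rp 24 (.thr 44 40 (.thr 38 39 (.thr 57 59 (.thr 41 35 (.thr 25 9 (.thr 17 29 (.dbl 19 18 28))))))) (.rp 12 (.thr 44 40 (.thr 28 24 (.thr 38 39 (.thr 57 59 (.thr 41 35 (.dbl 25 9 19)))))) (.rp 8 (.thr 28 24 (.thr 38 39 (.thr 25 19 (.thr 13 49 (.dbl 12 14 51))))) .nd)))))))) (.rp 40 (.thr 28 24 (.thr 25 19 (.thr 29 17 (.thr 31 30 (.dbl 47 42 63)))))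 (.rp 28 (.thr 44 40 (.thr 42 47 (.thr 38 39 (.thr 34 46 (.dbl 35 33 41))))) (.rp 24 (.thr 44 40 (.thr 42 47 (.thr 38 39 (.thr 34 46 (.dbl 35 33 41))))) (.rp 12 (.thr 28 24 (.thr 25 19 (.thr 29 17 (.thr 31 30 (.dbl 47 42 63))))) (.rp 8 (.thr 28 24 (.thr 25 19 (.thr 29 17 (.thr 31 30 (.dbl 47 42 63))))) .nd)))))))))) (.rp 8 (.thr 38 39 (.thr 44 40 (.thr 35 41 (.thr 34 33 (.dbl 42 46 47))))) .nd)))))))))) (.rp 24 (.thr 26 31 (.thr 41 11 (.thr 1 61 (.thr 33 45 (.thr 17 49 (.dbl 18 19 30)))))) (.rp 15 (.str 10 (.nv (.thr 38 39 (.thr 6 54 (.thr 14 2 (.dbl 26 31 50)))) (.nv (.thr 28 24 (.thr 25 19 (.thr 31 26 (.dbl 29 17 30)))) (.rp 45 (.str 30 (.nv (.thr 28 24 (.thr 25 19 (.dbl 29 17 31))) (.nv (.dbl 26 18 31) (.rp 31 (.thr 28 24 (.thr 18 26 (.dbl 19 17 25))) .nd)))) (.rp 31 (.thr 24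 28 (.thr 8 40 (.thr 11 9 (.thr 26 41 (.thr 42 58 (.dbl 25 27 59)))))) (.rp 30 (.str 45 (.nv (.thr 28 24 (.thr 25 19 (.thr 13 49 (.dbl 29 17 61)))) (.nv (.thr 41 33 (.dbl 26 11 31)) (.rp 31 (.thr 41 33 (.thr 11 26 (.thr 8 9 (.dbl 24 28 40)))) .nd)))) (.rp 26 (.thr 24 28 (.thr 40 8 (.thr 38 39 (.thr 6 54 (.thr 2 14 (.thr 42 62 (.dbl 32 44 47))))))) .nd))))))) (.rp 10 (.str 15 (.nv (.thr 24 28 (.thr 31 26 (.thr 40 8 (.thr 47 63 (.dbl 32 42 44))))) (.nv (.thr 28 24 (.thr 26 31 (.thr 19 25 (.dbl 18 17 30)))) (.rp 31 (.thr 28 24 (.thr 19 25 (.thr 18 17 (.thr 26 30 (.thr 11 41 (.thr 3 7 (.thr 39 38 (.dbl 51 27 35)))))))) (.rp 28 (.thr 26 31 (.thr 41 11 (.thr 33 45 (.thr 1 61 (.thr 17 49 (.dbl 18 19 30)))))) (.rp 26 (.thr 28 24 (.thr 25 19 (.thr 13 49 (.thr 12 14 (.dbl 38 39 51))))) (.rp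 24 (.thr 26 31 (.thr 18 30 (.thr 41 11 (.thr 33 45 (.thr 1 61 (.dbl 17 19 49)))))) .nd))))))) .nd))))))))) (.rp 56 (.str 60 (.nv (.thr 3 41 (.thr 38 39 (.thr 54 6 (.thr 51 57 (.thr 19 35 (.dbl 25 12 28)))))) (.nv (.thr 28 24 (.thr 38 39 (.thr 44 12 (.dbl 41 3 35)))) (.nv (.thr 28 24 (.thr 19 25 (.thr 26 31 (.dbl 18 17 30)))) (.rp 28 (.thr 38 39 (.thr 41 3 (.thr 44 35 (.thr 32 40 (.thr 47 42 (.dbl 45 33 46)))))) (.rp 15 (.str 10 (.nv (.thr 28 24 (.thr 19 25 (.thr 26 31 (.dbl 18 17 30)))) (.nv (.thr 38 39 (.thr 6 54 (.thr 14 2 (.dbl 26 31 50)))) (.nv (.thr 28 24 (.thr 12 44 (.thr 25 19 (.dbl 38 39 51)))) (.rp 31 (.thr 28 24 (.thr 12 44 (.thr 38 39 (.dbl 25 19 51)))) .nd))))) (.rp 10 (.str 15 (.nv (.thr 28 24 (.thr 12 44 (.thr 13 14 (.dbl 25 19 49)))) (.nv (.thr 30 45 (.dbl 26 18 31))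 .nd))) .nd))))))) (.rp 31 (.thr 38 39 (.thr 54 6 (.thr 28 24 (.thr 19 25 (.thr 18 17 (.thr 26 30 (.thr 50 14 (.thr 62 58 (.dbl 2 34 42))))))))) (.rp 30 (.thr 38 39 (.thr 6 54 (.thr 28 24 (.thr 25 19 (.thr 12 51 (.thr 60 44 (.dbl 3 9 41))))))) (.rp 28 (.thr 38 39 (.thr 6 54 (.thr 26 31 (.thr 30 18 (.thr 14 50 (.thr 62 46 (.dbl 2 10 42))))))) (.rp 26 (.thr 38 39 (.thr 6 54 (.thr 28 24 (.thr 25 19 (.thr 12 51 (.thr 60 44 (.dbl 3 9 41))))))) (.rp 25 (.thr 38 39 (.thr 6 54 (.thr 26 31 (.thr 30 18 (.thr 14 50 (.thr 62 46 (.dbl 2 10 42))))))) (.rp 24 (.thr 38 39 (.thr 6 54 (.thr 26 31 (.thr 30 18 (.thr 14 50 (.thr 62 46 (.dbl 2 10 42))))))) (.rp 19 (.thr 38 39 (.thr 6 54 (.thr 24 28 (.thr 26 31 (.thr 27 25 (.thr 30 18 (.thr 14 50 (.thr 62 46 (.dbl 2 10 42))))))))) (.rp 18 (.thr 28 24 (.thr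 25 19 (.thr 29 17 (.dbl 31 26 30)))) (.rp 17 (.thr 38 39 (.thr 6 54 (.thr 26 31 (.thr 30 18 (.thr 14 50 (.thr 62 46 (.dbl 2 10 42))))))) (.rp 15 (.str 10 (.nv (.thr 38 39 (.thr 6 54 (.thr 14 2 (.dbl 26 31 50)))) (.nv (.thr 28 24 (.thr 25 19 (.thr 31 26 (.dbl 29 17 30)))) (.rp 60 (.str 56 (.nv (.thr 38 39 (.thr 6 54 (.thr 14 2 (.dbl 26 31 50)))) (.nv (.thr 28 24 (.thr 25 19 (.thr 31 26 (.dbl 29 17 30)))) (.rp 45 (.str 30 (.nv (.thr 28 24 (.thr 25 19 (.dbl 29 17 31))) (.nv (.dbl 26 18 31) (.rp 31 (.thr 28 24 (.thr 18 26 (.dbl 19 17 25))) .nd)))) (.rp 31 (.thr 24 28 (.thr 8 40 (.thr 11 9 (.thr 26 41 (.thr 42 58 (.dbl 25 27 59)))))) (.rp 30 (.str 45 (.nv (.thr 28 24 (.thr 25 19 (.thr 13 49 (.dbl 29 17 61)))) (.nv (.thr 41 33 (.dbl 26 11 31)) (.rp 31 (.thr 41 33 (.thr 11 26 (.thr 8 9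 (.dbl 24 28 40)))) .nd)))) (.rp 26 (.thr 24 28 (.thr 40 8 (.thr 38 39 (.thr 6 54 (.thr 2 14 (.thr 42 62 (.dbl 32 44 47))))))) .nd))))))) (.rp 56 (.str 60 (.nv (.thr 28 24 (.thr 19 25 (.thr 26 31 (.dbl 18 17 30)))) (.nv (.thr 38 39 (.thr 6 54 (.thr 14 2 (.dbl 26 31 50)))) (.nv (.thr 28 24 (.thr 12 44 (.thr 25 19 (.dbl 38 39 51)))) (.rp 31 (.thr 28 24 (.thr 12 44 (.thr 38 39 (.dbl 25 19 51)))) .nd))))) (.rp 31 (.thr 38 39 (.thr 6 54 (.thr 14 2 (.thr 26 50 (.thr 18 30 (.thr 19 17 (.dbl 28 24 25))))))) (.rp 26 (.thr 38 39 (.thr 6 54 (.thr 2 14 (.thr 42 62 (.thr 32 47 (.thr 44 40 (.thr 35 41 (.dbl 34 33 46)))))))) .nd))))))) (.rp 10 (.str 15 (.nv (.thr 28 24 (.thr 25 19 (.thr 13 49 (.thr 12 14 (.dbl 38 39 51))))) (.nv (.thr 28 24 (.thr 19 25 (.thr 26 31 (.dbl 18 17 30)))) (.rp 60 (.str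 56 (.nv (.thr 24 28 (.thr 31 26 (.thr 40 8 (.thr 47 63 (.dbl 32 42 44))))) (.nv (.thr 28 24 (.thr 26 31 (.thr 19 25 (.dbl 18 17 30)))) (.rp 31 (.thr 28 24 (.thr 19 25 (.thr 18 17 (.thr 26 30 (.thr 11 41 (.thr 3 7 (.thr 39 38 (.dbl 51 27 35)))))))) (.rp 28 (.thr 26 31 (.thr 41 11 (.thr 33 45 (.thr 1 61 (.thr 17 49 (.dbl 18 19 30)))))) (.rp 26 (.thr 28 24 (.thr 25 19 (.thr 13 49 (.thr 12 14 (.dbl 38 39 51))))) (.rp 24 (.thr 26 31 (.thr 18 30 (.thr 41 11 (.thr 33 45 (.thr 1 61 (.dbl 17 19 49)))))) .nd))))))) (.rp 56 (.str 60 (.nv (.thr 28 24 (.thr 12 44 (.thr 13 14 (.dbl 25 19 49)))) (.nv (.thr 30 45 (.dbl 26 18 31)) .nd))) (.rp 31 (.thr 39 38 (.thr 28 24 (.thr 19 25 (.thr 18 17 (.thr 26 30 (.thr 51 27 (.thr 3 35 (.thr 11 7 (.dbl 41 56 60))))))))) (.rp 28 (.thr 38 39 (.thr 54 6 (.thr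 26 31 (.thr 30 18 (.thr 60 45 (.thr 14 50 (.thr 12 13 (.dbl 51 25 57)))))))) (.rp 25 (.thr 38 39 (.thr 54 6 (.thr 26 31 (.thr 18 30 (.thr 50 14 (.thr 2 34 (.dbl 62 42 58))))))) (.rp 24 (.thr 38 39 (.thr 54 6 (.thr 26 31 (.thr 18 30 (.thr 50 14 (.thr 2 34 (.dbl 62 42 58))))))) (.rp 19 (.thr 39 38 (.thr 26 31 (.thr 27 51 (.dbl 24 25 28)))) .nd)))))))))) .nd)))))))))))))))) (.rp 32 (.str 16 (.nv (.thr 20 23 (.dbl 52 4 7)) (.rp 52 (.thr 20 23 (.thr 28 24 (.thr 19 25 (.thr 18 17 (.dbl 26 30 31))))) (.rp 23 (.thr 52 7 (.thr 4 20 (.dbl 38 39 55))) (.rp 20 (.thr 7 52 (.thr 39 38 (.thr 23 55 (.thr 31 26 (.thr 19 27 (.thr 17 18 (.dbl 25 28 29))))))) (.rp 15 (.str 10 (.nv (.thr 26 31 (.thr 38 39 (.thr 6 54 (.dbl 14 2 50)))) (.nv (.thr 20 23 (.dbl 52 4 7)) .nd))) (.rp 10 (.str 15 (.nv (.thr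 23 20 (.thr 31 26 (.thr 27 19 (.dbl 39 38 51)))) (.nv (.thr 20 23 (.dbl 52 4 7)) (.rp 23 (.thr 52 7 (.thr 4 20 (.dbl 38 39 55))) (.rp 20 (.thr 7 52 (.thr 39 38 (.thr 23 55 (.thr 31 26 (.dbl 27 19 51))))) .nd))))) (.rp 7 (.thr 20 23 (.thr 4 52 (.dbl 38 39 55))) (.rp 4 (.thr 23 20 (.thr 7 52 (.dbl 39 38 55))) .nd))))))))) (.rp 23 (.thr 52 7 (.thr 4 20 (.dbl 38 39 55))) (.rp 20 (.thr 7 52 (.str 60 (.nv (.thr 3 41 (.thr 15 11 (.thr 30 45 (.thr 26 18 (.thr 38 39 (.thr 6 54 (.thr 12 9 (.dbl 14 13 50)))))))) (.nv (.thr 38 39 (.thr 41 3 (.thr 44 35 (.thr 32 40 (.thr 47 42 (.dbl 45 33 46)))))) (.nv (.thr 38 39 (.thr 54 6 (.thr 51 57 (.thr 12 25 (.thr 44 28 (.dbl 41 3 35)))))) (.rp 41 (.thr 38 39 (.thr 54 6 (.thr 55 4 (.thr 51 57 (.thr 63 59 (.thr 62 61 (.thr 42 2 (.thr 46 34 (.dbl 12 25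 29))))))))) (.rp 39 (.thr 3 41 (.thr 15 11 (.thr 30 45 (.thr 26 18 (.str 44 (.nv (.thr 31 16 (.thr 32 40 (.dbl 47 42 63))) (.nv (.thr 28 12 (.dbl 31 16 29)) (.rp 32 (.thr 16 31 (.thr 12 28 (.thr 14 13 (.thr 38 50 (.dbl 6 9 54))))) (.rp 31 (.thr 12 28 (.thr 14 13 (.thr 38 50 (.dbl 6 9 54)))) (.rp 28 (.thr 32 40 (.thr 42 47 (.thr 62 2 (.thr 14 46 (.thr 58 10 (.dbl 50 38 54)))))) (.rp 16 (.thr 32 40 (.thr 28 12 (.thr 29 31 (.dbl 25 17 19)))) .nd))))))))))) (.rp 38 (.thr 3 41 (.thr 15 11 (.thr 30 45 (.thr 26 18 (.str 44 (.nv (.thr 31 16 (.thr 32 40 (.dbl 47 42 63))) (.nv (.thr 28 12 (.dbl 31 16 29)) (.rp 32 (.thr 16 31 (.thr 12 28 (.thr 13 14 (.thr 25 49 (.thr 29 17 (.thr 27 24 (.thr 63 46 (.thr 23 43 (.dbl 39 51 55))))))))) (.rp 31 (.thr 32 40 (.thr 42 47 (.thr 12 28 (.thr 14 13 (.dbl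 62 2 46))))) (.rp 28 (.thr 32 40 (.thr 42 47 (.thr 62 2 (.thr 63 61 (.thr 23 43 (.thr 39 55 (.thr 27 51 (.dbl 31 16 19)))))))) (.rp 16 (.thr 32 40 (.thr 28 12 (.thr 29 31 (.dbl 25 17 19)))) .nd))))))))))) (.rp 32 (.str 16 (.nv (.thr 3 41 (.thr 38 39 (.thr 6 54 (.thr 12 9 (.thr 25 51 (.dbl 28 19 44)))))) (.nv (.thr 3 41 (.thr 15 11 (.thr 26 31 (.dbl 30 18 45)))) (.rp 41 (.thr 38 39 (.thr 54 6 (.thr 51 57 (.thr 25 12 (.thr 19 28 (.dbl 17 18 29)))))) (.rp 15 (.str 10 (.nv (.thr 3 41 (.thr 38 39 (.thr 6 54 (.thr 12 9 (.thr 28 44 (.dbl 25 19 51)))))) (.nv (.thr 26 31 (.thr 18 30 (.thr 41 3 (.thr 1 61 (.thr 33 45 (.dbl 17 19 49)))))) (.nv (.thr 26 31 (.thr 38 39 (.thr 14 50 (.dbl 6 2 54)))) .nd)))) (.rp 10 (.str 15 (.nv (.thr 26 31 (.dbl 30 18 45)) (.nv (.dbl 3 11 41) .nd))) (.rp 3 (.thr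 39 38 (.thr 23 55 (.thr 31 26 (.thr 19 27 (.thr 25 28 (.dbl 17 18 29)))))) .nd))))))) (.rp 16 (.str 32 (.nv (.thr 38 39 (.thr 44 40 (.thr 54 6 (.thr 51 57 (.dbl 12 25 28))))) (.nv (.thr 42 47 (.thr 62 2 (.thr 61 63 (.dbl 41 1 3)))) (.nv (.thr 38 39 (.thr 44 40 (.dbl 41 3 35))) (.rp 28 (.str 24 (.nv (.thr 42 47 (.thr 62 2 (.thr 61 63 (.dbl 41 1 3)))) (.nv (.thr 38 39 (.thr 44 40 (.dbl 41 3 35))) (.rp 41 (.thr 40 44 (.thr 8 56 (.thr 38 39 (.thr 54 6 (.thr 51 57 (.thr 25 12 (.dbl 42 47 59))))))) (.rp 15 (.str 10 (.nv (.thr 40 44 (.thr 41 3 (.dbl 42 43 47))) (.nv (.thr 42 47 (.thr 2 62 (.thr 6 14 (.dbl 38 39 54)))) (.nv (.thr 44 40 (.thr 38 39 (.dbl 41 3 35))) .nd)))) (.rp 10 (.str 15 (.nv (.thr 44 40 (.thr 45 30 (.dbl 47 42 46))) (.nv (.dbl 3 11 41) .nd))) (.rp 3 (.thr 44 40 (.thr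 38 39 (.thr 41 35 (.thr 47 42 (.dbl 45 33 46))))) .nd))))))) (.rp 24 (.str 28 (.nv (.dbl 44 12 40) (.rp 44 (.thr 38 39 (.thr 54 6 (.thr 51 57 (.dbl 25 12 19)))) (.rp 40 (.thr 38 39 (.thr 44 12 (.dbl 41 3 35))) (.rp 15 (.str 10 (.nv (.dbl 44 12 40) (.rp 44 (.thr 25 19 (.thr 38 39 (.thr 54 6 (.dbl 51 12 57)))) (.rp 40 (.thr 25 19 (.thr 38 39 (.dbl 12 44 51))) (.rp 12 (.thr 44 40 (.thr 38 39 (.dbl 41 3 35))) .nd))))) (.rp 12 (.thr 38 39 (.thr 44 40 (.dbl 41 3 35))) (.rp 10 (.str 15 (.nv (.dbl 3 11 41) (.nv (.dbl 44 12 40) .nd))) .nd))))))) (.rp 15 (.str 10 (.nv (.thr 40 44 (.thr 41 3 (.dbl 42 43 47))) (.nv (.thr 42 47 (.thr 2 62 (.thr 6 14 (.dbl 38 39 54)))) (.nv (.thr 44 40 (.thr 38 39 (.dbl 41 3 35))) (.rp 28 (.str 24 (.nv (.thr 40 44 (.thr 41 3 (.dbl 42 43 47))) (.nv (.thr 42 47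 (.thr 2 62 (.thr 6 14 (.dbl 38 39 54)))) (.nv (.thr 44 40 (.thr 38 39 (.dbl 41 3 35))) .nd)))) (.rp 24 (.str 28 (.nv (.dbl 44 12 40) (.rp 44 (.thr 25 19 (.thr 38 39 (.thr 54 6 (.dbl 51 12 57)))) (.rp 40 (.thr 25 19 (.thr 38 39 (.dbl 12 44 51))) (.rp 12 (.thr 44 40 (.thr 38 39 (.dbl 41 3 35))) .nd))))) .nd)))))) (.rp 10 (.str 15 (.nv (.thr 44 40 (.thr 45 30 (.dbl 47 42 46))) (.nv (.dbl 3 11 41) (.rp 28 (.str 24 (.nv (.thr 44 40 (.thr 45 30 (.dbl 47 42 46))) (.nv (.dbl 3 11 41) .nd))) (.rp 24 (.str 28 (.nv (.dbl 3 11 41) (.nv (.dbl 44 12 40) .nd))) .nd))))) .nd)))))))) (.rp 15 (.str 10 (.nv (.thr 38 39 (.thr 6 54 (.thr 2 14 (.thr 41 3 (.thr 61 1 (.dbl 62 42 63)))))) (.nv (.thr 38 39 (.thr 41 3 (.thr 44 35 (.thr 32 40 (.thr 47 42 (.dbl 45 33 46)))))) (.nv (.thr 38 39 (.thr 54 6 (.thr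 51 57 (.thr 12 25 (.thr 44 28 (.dbl 41 3 35)))))) (.rp 51 (.thr 39 38 (.thr 23 55 (.thr 3 41 (.thr 63 43 (.thr 62 61 (.thr 42 2 (.thr 26 58 (.thr 32 47 (.thr 44 40 (.thr 12 28 (.thr 46 29 (.dbl 30 14 18)))))))))))) (.rp 41 (.thr 38 39 (.thr 54 6 (.thr 55 4 (.thr 51 57 (.thr 63 59 (.thr 62 61 (.thr 42 2 (.dbl 58 26 50)))))))) (.rp 39 (.str 51 (.nv (.thr 41 3 (.thr 54 57 (.thr 6 38 (.thr 2 14 (.thr 62 42 (.dbl 61 1 63)))))) (.nv (.thr 41 3 (.thr 1 61 (.thr 33 45 (.thr 17 49 (.thr 57 54 (.dbl 25 9 29)))))) (.nv (.thr 54 57 (.thr 38 6 (.thr 12 25 (.thr 44 28 (.dbl 41 3 35))))) (.rp 57 (.thr 3 41 (.thr 19 35 (.thr 25 28 (.thr 13 49 (.thr 29 17 (.thr 61 45 (.thr 63 62 (.dbl 12 38 46)))))))) (.rp 54 (.thr 3 41 (.thr 19 35 (.thr 25 28 (.thr 13 49 (.thr 29 17 (.thr 61 45 (.thr 63 62 (.dbl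 12 38 46)))))))) (.rp 41 (.thr 54 57 (.thr 38 6 (.thr 55 4 (.thr 63 59 (.thr 62 61 (.thr 58 50 (.dbl 42 2 26))))))) (.rp 32 (.str 16 (.nv (.thr 26 31 (.thr 18 30 (.thr 19 17 (.dbl 3 35 41)))) (.nv (.thr 26 31 (.thr 42 58 (.thr 2 62 (.thr 54 57 (.dbl 6 14 38))))) (.nv (.thr 54 57 (.thr 38 6 (.thr 12 25 (.thr 44 28 (.dbl 41 3 35))))) .nd)))) (.rp 16 (.str 32 (.nv (.thr 40 44 (.thr 42 47 (.dbl 41 3 43))) (.nv (.thr 42 47 (.thr 54 57 (.thr 58 26 (.dbl 62 2 50)))) (.nv (.thr 54 57 (.thr 38 6 (.thr 44 40 (.dbl 12 25 28)))) (.rp 28 (.str 24 (.nv (.thr 40 44 (.thr 41 3 (.dbl 42 43 47))) (.nv (.thr 42 47 (.thr 54 57 (.thr 58 26 (.dbl 62 2 50)))) (.nv (.thr 54 57 (.thr 38 6 (.thr 44 40 (.dbl 41 3 35)))) .nd)))) (.rp 24 (.str 28 (.nv (.thr 3 41 (.dbl 19 25 35)) (.nv (.dbl 44 12 40) .nd)))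 .nd)))))) (.rp 3 (.thr 54 57 (.thr 38 6 (.thr 55 4 (.thr 63 59 (.thr 62 61 (.thr 58 50 (.dbl 42 2 26))))))) .nd)))))))))) (.rp 38 (.str 32 (.nv (.thr 40 44 (.thr 42 47 (.dbl 41 3 43))) (.nv (.thr 40 44 (.thr 41 3 (.dbl 42 43 47))) (.rp 47 (.thr 44 40 (.thr 28 12 (.thr 25 19 (.thr 29 17 (.thr 41 3 (.thr 13 49 (.dbl 45 33 61))))))) (.rp 44 (.thr 42 47 (.thr 41 3 (.thr 43 40 (.thr 26 58 (.thr 11 56 (.thr 8 9 (.dbl 59 25 27))))))) (.rp 43 (.thr 44 40 (.thr 47 42 (.thr 41 3 (.dbl 45 33 46)))) (.rp 42 (.thr 44 40 (.thr 28 12 (.thr 25 19 (.thr 29 17 (.thr 41 3 (.thr 13 49 (.dbl 45 33 61))))))) (.rp 41 (.thr 44 40 (.thr 42 47 (.thr 28 12 (.thr 26 58 (.thr 30 18 (.dbl 31 16 29)))))) (.rp 40 (.thr 42 47 (.thr 41 3 (.thr 33 45 (.thr 34 35 (.thr 2 62 (.thr 26 58 (.dbl 18 30 50))))))) (.rp 3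 (.thr 44 40 (.thr 42 47 (.thr 28 12 (.thr 26 58 (.thr 31 16 (.dbl 30 18 29)))))) .nd)))))))))) (.rp 32 (.str 16 (.nv (.thr 3 41 (.thr 38 39 (.thr 6 54 (.thr 12 9 (.thr 28 44 (.dbl 25 19 51)))))) (.nv (.thr 26 31 (.thr 18 30 (.thr 41 3 (.thr 1 61 (.thr 33 45 (.dbl 17 19 49)))))) (.nv (.thr 26 31 (.thr 38 39 (.thr 14 50 (.dbl 6 2 54)))) .nd)))) (.rp 27 (.thr 39 38 (.thr 23 55 (.thr 3 41 (.thr 63 43 (.thr 62 61 (.thr 42 2 (.thr 26 58 (.thr 32 47 (.thr 44 40 (.thr 12 28 (.thr 46 29 (.dbl 30 14 18)))))))))))) (.rp 16 (.str 32 (.nv (.thr 40 44 (.thr 41 3 (.dbl 42 43 47))) (.nv (.thr 42 47 (.thr 2 62 (.thr 6 14 (.dbl 38 39 54)))) (.nv (.thr 44 40 (.thr 38 39 (.dbl 41 3 35))) (.rp 28 (.str 24 (.nv (.thr 40 44 (.thr 41 3 (.dbl 42 43 47))) (.nv (.thr 42 47 (.thr 2 62 (.thr 6 14 (.dbl 38 39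 54)))) (.nv (.thr 44 40 (.thr 38 39 (.dbl 41 3 35))) .nd)))) (.rp 24 (.str 28 (.nv (.dbl 44 12 40) (.rp 44 (.thr 25 19 (.thr 38 39 (.thr 54 6 (.dbl 51 12 57)))) (.rp 40 (.thr 25 19 (.thr 38 39 (.dbl 12 44 51))) (.rp 12 (.thr 44 40 (.thr 38 39 (.dbl 41 3 35))) .nd))))) .nd)))))) (.rp 3 (.thr 38 39 (.thr 6 54 (.thr 2 14 (.thr 42 62 (.thr 32 47 (.thr 44 40 (.thr 35 41 (.dbl 34 33 46)))))))) .nd)))))))))))) (.rp 10 (.str 15 (.nv (.dbl 3 11 41) (.rp 41 (.thr 39 38 (.thr 23 55 (.thr 30 45 (.thr 27 51 (.thr 31 19 (.dbl 26 16 18)))))) (.rp 32 (.str 16 (.nv (.thr 26 31 (.dbl 30 18 45)) (.nv (.dbl 3 11 41) .nd))) (.rp 16 (.str 32 (.nv (.thr 44 40 (.thr 45 30 (.dbl 47 42 46))) (.nv (.dbl 3 11 41) (.rp 28 (.str 24 (.nv (.thr 44 40 (.thr 45 30 (.dbl 47 42 46))) (.nv (.dbl 3 11 41) .nd))) (.rp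 24 (.str 28 (.nv (.dbl 3 11 41) (.nv (.dbl 44 12 40) .nd))) .nd))))) (.rp 11 (.thr 45 30 (.dbl 41 3 33)) (.rp 3 (.thr 39 38 (.thr 23 55 (.thr 30 45 (.thr 27 51 (.thr 19 31 (.thr 25 28 (.dbl 26 18 24))))))) .nd))))))) (.rp 3 (.thr 38 39 (.thr 54 6 (.thr 55 4 (.thr 51 57 (.thr 63 59 (.thr 62 61 (.thr 12 25 (.thr 46 29 (.dbl 42 2 34))))))))) .nd))))))))))))) (.rp 16 (.str 32 (.nv (.thr 20 23 (.dbl 52 4 7)) (.rp 52 (.thr 38 39 (.thr 44 40 (.thr 35 41 (.thr 34 33 (.dbl 42 46 47))))) (.rp 23 (.thr 52 7 (.thr 4 20 (.dbl 38 39 55))) (.rp 20 (.thr 38 39 (.thr 42 47 (.thr 34 46 (.thr 35 33 (.dbl 44 40 41))))) (.rp 15 (.str 10 (.nv (.thr 38 39 (.thr 6 54 (.thr 2 14 (.dbl 42 47 62)))) (.nv (.thr 20 23 (.dbl 52 4 7)) .nd))) (.rp 10 (.str 15 (.nv (.thr 20 23 (.dbl 52 4 7)) (.rp 52 (.thr 38 39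 (.thr 47 42 (.thr 44 40 (.thr 45 46 (.dbl 41 33 35))))) (.rp 23 (.thr 52 7 (.thr 4 20 (.dbl 38 39 55))) (.rp 20 (.thr 38 39 (.thr 42 47 (.thr 34 46 (.thr 35 33 (.dbl 44 40 41))))) (.rp 7 (.thr 20 23 (.thr 4 52 (.dbl 38 39 55))) (.rp 4 (.thr 39 38 (.thr 7 52 (.dbl 23 20 55))) .nd))))))) (.rp 7 (.thr 20 23 (.thr 4 52 (.dbl 38 39 55))) (.rp 4 (.thr 39 38 (.thr 7 52 (.dbl 23 20 55))) .nd))))))))) (.rp 15 (.str 10 (.nv (.thr 20 23 (.dbl 52 4 7)) (.rp 52 (.thr 38 39 (.thr 6 54 (.thr 2 14 (.thr 42 62 (.thr 32 47 (.thr 44 40 (.thr 35 41 (.dbl 34 33 46)))))))) (.rp 32 (.str 16 (.nv (.thr 26 31 (.thr 38 39 (.thr 6 54 (.dbl 14 2 50)))) (.nv (.thr 20 23 (.dbl 52 4 7)) .nd))) (.rp 23 (.thr 52 7 (.thr 4 20 (.dbl 38 39 55))) (.rp 20 (.thr 7 52 (.str 60 (.nv (.thr 38 39 (.thr 6 54 (.thr 2 14 (.thr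 41 3 (.thr 61 1 (.dbl 62 42 63)))))) (.nv (.thr 38 39 (.thr 41 3 (.thr 44 35 (.thr 32 40 (.thr 47 42 (.dbl 45 33 46)))))) (.nv (.thr 38 39 (.thr 54 6 (.thr 51 57 (.thr 12 25 (.thr 44 28 (.dbl 41 3 35)))))) (.rp 51 (.thr 39 38 (.thr 23 55 (.thr 3 41 (.thr 63 43 (.thr 62 61 (.thr 42 2 (.thr 26 58 (.thr 32 47 (.thr 44 40 (.thr 12 28 (.thr 46 29 (.dbl 30 14 18)))))))))))) (.rp 41 (.thr 38 39 (.thr 54 6 (.thr 55 4 (.thr 51 57 (.thr 63 59 (.thr 62 61 (.thr 42 2 (.dbl 58 26 50)))))))) (.rp 39 (.str 51 (.nv (.thr 41 3 (.thr 54 57 (.thr 6 38 (.thr 2 14 (.thr 62 42 (.dbl 61 1 63)))))) (.nv (.thr 41 3 (.thr 1 61 (.thr 33 45 (.thr 17 49 (.thr 57 54 (.dbl 25 9 29)))))) (.nv (.thr 54 57 (.thr 38 6 (.thr 12 25 (.thr 44 28 (.dbl 41 3 35))))) (.rp 57 (.thr 3 41 (.thr 19 35 (.thr 25 28 (.thr 13 49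 (.thr 29 17 (.thr 61 45 (.thr 63 62 (.dbl 12 38 46)))))))) (.rp 54 (.thr 3 41 (.thr 19 35 (.thr 25 28 (.thr 13 49 (.thr 29 17 (.thr 61 45 (.thr 63 62 (.dbl 12 38 46)))))))) (.rp 41 (.thr 54 57 (.thr 38 6 (.thr 55 4 (.thr 63 59 (.thr 62 61 (.thr 58 50 (.dbl 42 2 26))))))) (.rp 32 (.str 16 (.nv (.thr 26 31 (.thr 18 30 (.thr 19 17 (.dbl 3 35 41)))) (.nv (.thr 26 31 (.thr 42 58 (.thr 2 62 (.thr 54 57 (.dbl 6 14 38))))) (.nv (.thr 54 57 (.thr 38 6 (.thr 12 25 (.thr 44 28 (.dbl 41 3 35))))) .nd)))) (.rp 16 (.str 32 (.nv (.thr 40 44 (.thr 42 47 (.dbl 41 3 43))) (.nv (.thr 42 47 (.thr 54 57 (.thr 58 26 (.dbl 62 2 50)))) (.nv (.thr 54 57 (.thr 38 6 (.thr 44 40 (.dbl 12 25 28)))) (.rp 28 (.str 24 (.nv (.thr 40 44 (.thr 41 3 (.dbl 42 43 47))) (.nv (.thr 42 47 (.thr 54 57 (.thr 58 26 (.dbl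 62 2 50)))) (.nv (.thr 54 57 (.thr 38 6 (.thr 44 40 (.dbl 41 3 35)))) .nd)))) (.rp 24 (.str 28 (.nv (.thr 3 41 (.dbl 19 25 35)) (.nv (.dbl 44 12 40) .nd))) .nd)))))) (.rp 3 (.thr 54 57 (.thr 38 6 (.thr 55 4 (.thr 63 59 (.thr 62 61 (.thr 58 50 (.dbl 42 2 26))))))) .nd)))))))))) (.rp 38 (.str 32 (.nv (.thr 40 44 (.thr 42 47 (.dbl 41 3 43))) (.nv (.thr 40 44 (.thr 41 3 (.dbl 42 43 47))) (.rp 47 (.thr 44 40 (.thr 28 12 (.thr 25 19 (.thr 29 17 (.thr 41 3 (.thr 13 49 (.dbl 45 33 61))))))) (.rp 44 (.thr 42 47 (.thr 41 3 (.thr 43 40 (.thr 26 58 (.thr 11 56 (.thr 8 9 (.dbl 59 25 27))))))) (.rp 43 (.thr 44 40 (.thr 47 42 (.thr 41 3 (.dbl 45 33 46)))) (.rp 42 (.thr 44 40 (.thr 28 12 (.thr 25 19 (.thr 29 17 (.thr 41 3 (.thr 13 49 (.dbl 45 33 61))))))) (.rp 41 (.thr 44 40 (.thr 42 47 (.thr 28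 12 (.thr 26 58 (.thr 30 18 (.dbl 31 16 29)))))) (.rp 40 (.thr 42 47 (.thr 41 3 (.thr 33 45 (.thr 34 35 (.thr 2 62 (.thr 26 58 (.dbl 18 30 50))))))) (.rp 3 (.thr 44 40 (.thr 42 47 (.thr 28 12 (.thr 26 58 (.thr 31 16 (.dbl 30 18 29)))))) .nd)))))))))) (.rp 32 (.str 16 (.nv (.thr 3 41 (.thr 38 39 (.thr 6 54 (.thr 12 9 (.thr 28 44 (.dbl 25 19 51)))))) (.nv (.thr 26 31 (.thr 18 30 (.thr 41 3 (.thr 1 61 (.thr 33 45 (.dbl 17 19 49)))))) (.nv (.thr 26 31 (.thr 38 39 (.thr 14 50 (.dbl 6 2 54)))) .nd)))) (.rp 27 (.thr 39 38 (.thr 23 55 (.thr 3 41 (.thr 63 43 (.thr 62 61 (.thr 42 2 (.thr 26 58 (.thr 32 47 (.thr 44 40 (.thr 12 28 (.thr 46 29 (.dbl 30 14 18)))))))))))) (.rp 16 (.str 32 (.nv (.thr 40 44 (.thr 41 3 (.dbl 42 43 47))) (.nv (.thr 42 47 (.thr 2 62 (.thr 6 14 (.dbl 38 39 54)))) (.nv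 (.thr 44 40 (.thr 38 39 (.dbl 41 3 35))) (.rp 28 (.str 24 (.nv (.thr 40 44 (.thr 41 3 (.dbl 42 43 47))) (.nv (.thr 42 47 (.thr 2 62 (.thr 6 14 (.dbl 38 39 54)))) (.nv (.thr 44 40 (.thr 38 39 (.dbl 41 3 35))) .nd)))) (.rp 24 (.str 28 (.nv (.dbl 44 12 40) (.rp 44 (.thr 25 19 (.thr 38 39 (.thr 54 6 (.dbl 51 12 57)))) (.rp 40 (.thr 25 19 (.thr 38 39 (.dbl 12 44 51))) (.rp 12 (.thr 44 40 (.thr 38 39 (.dbl 41 3 35))) .nd))))) .nd)))))) (.rp 3 (.thr 38 39 (.thr 6 54 (.thr 2 14 (.thr 42 62 (.thr 32 47 (.thr 44 40 (.thr 35 41 (.dbl 34 33 46)))))))) .nd))))))))))))) (.rp 16 (.str 32 (.nv (.thr 38 39 (.thr 6 54 (.thr 2 14 (.dbl 42 47 62)))) (.nv (.thr 20 23 (.dbl 52 4 7)) .nd))) (.rp 7 (.thr 20 23 (.thr 4 52 (.dbl 38 39 55))) (.rp 4 (.thr 39 38 (.thr 23 20 (.dbl 7 52 55))) .nd))))))))) (.rp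 10 (.str 15 (.nv (.thr 20 23 (.dbl 52 4 7)) (.rp 52 (.thr 39 38 (.thr 23 20 (.thr 7 55 (.thr 3 11 (.thr 63 43 (.thr 31 47 (.dbl 27 19 51))))))) (.rp 32 (.str 16 (.nv (.thr 23 20 (.thr 31 26 (.thr 27 19 (.dbl 39 38 51)))) (.nv (.thr 20 23 (.dbl 52 4 7)) (.rp 23 (.thr 52 7 (.thr 4 20 (.dbl 38 39 55))) (.rp 20 (.thr 7 52 (.thr 39 38 (.thr 23 55 (.thr 31 26 (.dbl 27 19 51))))) .nd))))) (.rp 23 (.thr 52 7 (.thr 4 20 (.dbl 38 39 55))) (.rp 20 (.thr 39 38 (.thr 7 52 (.thr 23 55 (.thr 3 11 (.thr 63 43 (.thr 31 47 (.dbl 27 19 51))))))) (.rp 16 (.str 32 (.nv (.thr 20 23 (.dbl 52 4 7)) (.rp 52 (.thr 38 39 (.thr 47 42 (.thr 44 40 (.thr 45 46 (.dbl 41 33 35))))) (.rp 23 (.thr 52 7 (.thr 4 20 (.dbl 38 39 55))) (.rp 20 (.thr 38 39 (.thr 42 47 (.thr 34 46 (.thr 35 33 (.dbl 44 40 41))))) (.rp 7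 (.thr 20 23 (.thr 4 52 (.dbl 38 39 55))) (.rp 4 (.thr 39 38 (.thr 7 52 (.dbl 23 20 55))) .nd))))))) (.rp 7 (.thr 20 23 (.thr 4 52 (.dbl 38 39 55))) (.rp 4 (.thr 39 38 (.thr 7 52 (.dbl 23 20 55))) .nd))))))))) (.rp 7 (.thr 20 23 (.thr 4 52 (.dbl 38 39 55))) (.rp 4 (.thr 23 20 (.thr 7 52 (.dbl 39 38 55))) .nd)))))))))))

theorem w71 : WinAt (137445244928, 281474976710689) :=
  chF (K := []) kn c71 137445244928 281474976710689 5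
    [33825, 281479271743489] (by decide +kernel) (by decide +kernel)

/-- A certificate. -/
noncomputable def c72 : Ct := (.str 4 (.nv (.thr 5 53 (.thr 6 7 (.dbl 38 54 55))) (.nv (.thr 7 52 (.dbl 5 6 53)) (.rp 60 (.str 40 (.nv (.thr 5 53 (.dbl 7 6 52)) (.nv (.thr 52 7 (.thr 55 38 (.dbl 53 5 54))) (.rp 53 (.thr 38 55 (.thr 54 6 (.thr 36 39 (.thr 32 44 (.thr 42 47 (.thr 62 2 (.thr 46 34 (.thr 14 30 (.dbl 50 26 58))))))))) (.rp 52 (.str 56 (.nv (.thr 5 53 (.thr 6 7 (.dbl 38 54 55))) (.rp 63 (.thr 38 55 (.thr 54 6 (.thr 36 39 (.thr 8 24 (.thr 32 44 (.thr 42 47 (.thr 59 25 (.thr 58 57 (.dbl 62 2 50))))))))) (.rp 58 (.thr 53 5 (.thr 38 55 (.thr 36 39 (.thr 8 24 (.thr 32 44 (.thr 42 47 (.thr 25 59 (.thr 49 13 (.thr 57 61 (.dbl 41 9 43)))))))))) (.rp 55 (.str 32 (.nv (.thr 53 5 (.thr 42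 47 (.thr 41 43 (.thr 33 45 (.thr 35 34 (.dbl 44 36 38)))))) (.nv (.thr 42 47 (.thr 41 43 (.thr 26 11 (.thr 58 10 (.thr 59 57 (.dbl 8 24 25)))))) (.nv (.thr 44 36 (.thr 42 47 (.thr 41 43 (.thr 35 38 (.dbl 33 34 45))))) (.rp 53 (.str 54 (.nv (.thr 38 6 (.dbl 36 39 44)) (.rp 63 (.str 58 (.nv (.thr 36 44 (.dbl 38 6 39)) (.nv (.thr 62 50 (.dbl 42 2 47)) (.rp 62 (.str 61 (.nv (.thr 59 57 (.thr 41 1 (.dbl 42 43 47))) (.nv (.thr 38 6 (.dbl 36 39 44)) (.rp 59 (.str 51 (.nv (.thr 41 1 (.dbl 42 43 47)) (.nv (.thr 38 6 (.dbl 36 39 44)) .nd))) .nd)))) (.rp 59 (.str 51 (.nv (.thr 36 44 (.dbl 38 6 39)) (.nv (.thr 62 50 (.dbl 42 2 47)) (.rp 62 (.str 61 (.nv (.thr 41 1 (.dbl 42 43 47)) (.nv (.thr 38 6 (.dbl 36 39 44)) .nd))) .nd)))) (.rp 51 (.thr 59 57 (.thr 38 6 (.dbl 36 39 44))) .nd)))))) (.rp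 58 (.str 63 (.nv (.thr 38 6 (.dbl 36 39 44)) (.rp 44 (.thr 8 24 (.thr 38 6 (.thr 42 47 (.thr 46 34 (.thr 12 29 (.dbl 25 51 59)))))) (.rp 39 (.thr 44 36 (.thr 38 6 (.thr 42 47 (.dbl 41 35 43)))) (.rp 38 (.thr 8 24 (.thr 42 47 (.thr 25 59 (.thr 41 43 (.thr 9 57 (.dbl 11 10 26)))))) (.rp 36 (.thr 38 6 (.thr 42 47 (.thr 34 46 (.thr 41 43 (.dbl 33 35 45))))) (.rp 6 (.thr 44 36 (.thr 42 47 (.thr 41 43 (.thr 33 45 (.dbl 35 34 38))))) .nd))))))) (.rp 44 (.thr 8 24 (.thr 42 47 (.thr 59 25 (.thr 58 57 (.dbl 62 2 50))))) (.rp 39 (.thr 38 6 (.thr 44 36 (.thr 41 35 (.dbl 42 43 47)))) (.rp 38 (.thr 8 24 (.thr 42 47 (.thr 59 25 (.thr 58 57 (.dbl 62 2 50))))) (.rp 36 (.thr 38 6 (.thr 42 47 (.thr 41 43 (.thr 35 44 (.dbl 33 34 45))))) (.rp 6 (.thr 8 24 (.thr 42 47 (.thr 59 25 (.thr 58 57 (.dbl 62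 2 50))))) .nd))))))))) (.rp 47 (.str 58 (.nv (.thr 8 24 (.thr 53 5 (.thr 57 59 (.thr 61 49 (.thr 41 1 (.thr 9 25 (.dbl 11 10 26))))))) (.nv (.thr 36 44 (.thr 38 39 (.thr 54 6 (.thr 50 62 (.thr 26 14 (.thr 41 11 (.dbl 42 10 43))))))) (.nv (.thr 8 24 (.thr 36 44 (.thr 38 39 (.thr 54 6 (.thr 59 57 (.thr 62 50 (.dbl 42 2 25))))))) (.nv (.thr 53 5 (.thr 57 59 (.thr 61 49 (.thr 41 1 (.thr 26 11 (.dbl 42 10 43)))))) (.nv (.thr 59 57 (.thr 8 24 (.thr 42 25 (.thr 41 43 (.dbl 26 10 11))))) (.rp 53 (.str 54 (.nv (.thr 59 57 (.thr 62 50 (.thr 42 2 (.dbl 8 24 25)))) (.nv (.thr 38 6 (.dbl 36 39 44)) .nd))) .nd))))))) (.rp 43 (.thr 53 5 (.thr 8 24 (.thr 42 47 (.thr 25 59 (.thr 17 29 (.thr 49 13 (.thr 1 33 (.dbl 61 41 57)))))))) (.rp 42 (.thr 36 44 (.thr 38 39 (.thr 54 6 (.thr 24 8 (.str 25 (.nv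 (.thr 5 53 (.thr 13 49 (.thr 1 9 (.thr 26 27 (.dbl 41 11 61))))) (.nv (.thr 17 29 (.thr 49 13 (.thr 53 5 (.thr 61 57 (.dbl 1 33 41))))) (.nv (.thr 28 19 (.thr 26 27 (.thr 31 16 (.dbl 29 17 30)))) (.rp 28 (.thr 12 51 (.thr 53 5 (.thr 49 13 (.thr 17 29 (.thr 1 33 (.dbl 61 41 57)))))) (.rp 23 (.str 7 (.nv (.thr 5 53 (.thr 13 49 (.thr 1 9 (.thr 26 27 (.dbl 41 11 61))))) (.nv (.thr 5 53 (.thr 13 49 (.thr 1 9 (.thr 29 17 (.dbl 61 41 45))))) (.nv (.thr 28 19 (.thr 26 27 (.thr 31 16 (.dbl 29 17 30)))) (.rp 51 (.thr 53 5 (.thr 49 13 (.thr 17 29 (.thr 1 33 (.dbl 61 41 57))))) (.rp 28 (.thr 12 51 (.thr 53 5 (.thr 49 13 (.thr 17 29 (.thr 1 33 (.dbl 61 41 57)))))) .nd)))))) (.rp 15 (.thr 28 19 (.thr 29 17 (.thr 30 31 (.dbl 26 18 27)))) (.rp 7 (.str 23 (.nv (.thr 28 19 (.thr 26 27 (.thr 29 17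 (.dbl 30 18 31)))) (.nv (.thr 27 26 (.dbl 19 28 31)) (.rp 31 (.thr 5 53 (.thr 26 27 (.thr 41 11 (.thr 9 57 (.dbl 1 13 61))))) (.rp 28 (.thr 12 51 (.thr 53 5 (.thr 49 13 (.thr 17 29 (.thr 1 33 (.dbl 61 41 57)))))) (.rp 27 (.thr 5 53 (.thr 13 49 (.thr 1 9 (.thr 29 17 (.dbl 61 41 45))))) (.rp 26 (.thr 5 53 (.thr 13 49 (.thr 1 9 (.thr 29 17 (.dbl 61 41 45))))) (.rp 19 (.thr 5 53 (.thr 26 27 (.thr 41 11 (.thr 9 57 (.dbl 1 13 61))))) .nd)))))))) .nd)))))))))))) (.rp 41 (.thr 8 24 (.thr 36 44 (.thr 38 39 (.thr 54 6 (.thr 42 47 (.thr 59 25 (.thr 62 2 (.dbl 58 50 57)))))))) (.rp 35 (.thr 8 24 (.thr 42 47 (.thr 59 25 (.thr 58 57 (.thr 26 10 (.dbl 41 11 43)))))) .nd)))))))))) (.rp 54 (.thr 53 5 (.thr 38 55 (.thr 36 39 (.thr 8 24 (.thr 32 44 (.thr 42 47 (.thr 25 59 (.thr 49 13 (.thr 57 61 (.dbl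 41 9 43)))))))))) (.rp 53 (.thr 38 55 (.thr 54 6 (.thr 36 39 (.thr 8 24 (.thr 32 44 (.thr 42 47 (.thr 59 25 (.thr 58 57 (.dbl 62 2 50))))))))) (.rp 38 (.str 42 (.nv (.thr 2 62 (.thr 5 53 (.thr 6 7 (.thr 8 24 (.thr 10 14 (.thr 11 9 (.dbl 26 41 58))))))) (.nv (.thr 5 53 (.thr 41 43 (.thr 33 45 (.thr 1 61 (.thr 49 17 (.dbl 13 9 25)))))) (.nv (.thr 8 24 (.thr 41 43 (.thr 26 11 (.thr 59 25 (.dbl 58 10 57))))) (.rp 58 (.thr 8 24 (.thr 41 43 (.thr 11 26 (.thr 9 10 (.dbl 25 57 59))))) (.rp 41 (.thr 5 53 (.thr 6 7 (.thr 8 24 (.thr 59 25 (.thr 2 62 (.thr 10 14 (.dbl 58 26 57))))))) (.rp 32 (.str 16 (.nv (.thr 8 24 (.thr 25 59 (.thr 17 29 (.dbl 19 18 28)))) (.nv (.thr 41 43 (.dbl 26 11 31)) .nd))) (.rp 16 (.thr 32 47 (.thr 41 43 (.thr 26 11 (.thr 58 10 (.thr 59 57 (.dbl 8 24 25)))))) .nd))))))))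 (.rp 32 (.str 16 (.nv (.thr 24 8 (.thr 26 31 (.thr 18 30 (.thr 17 19 (.dbl 25 27 29))))) (.nv (.thr 5 53 (.thr 6 7 (.dbl 38 54 55))) .nd))) (.rp 16 (.str 32 (.nv (.thr 24 8 (.thr 5 53 (.thr 6 7 (.dbl 38 54 55)))) (.nv (.thr 36 44 (.dbl 38 39 55)) (.rp 55 (.thr 44 36 (.thr 42 47 (.thr 41 43 (.thr 35 38 (.dbl 33 34 45))))) (.rp 38 (.thr 42 47 (.thr 41 43 (.thr 26 11 (.thr 58 10 (.thr 59 57 (.dbl 8 24 25)))))) (.rp 24 (.str 28 (.nv (.thr 5 53 (.thr 6 7 (.dbl 38 54 55))) (.nv (.thr 36 44 (.dbl 38 39 55)) (.rp 55 (.thr 25 19 (.thr 42 47 (.thr 41 43 (.thr 57 9 (.dbl 59 8 58))))) (.rp 38 (.thr 25 19 (.thr 42 47 (.thr 41 43 (.thr 57 9 (.dbl 59 8 58))))) (.rp 36 (.str 12 (.nv (.thr 5 53 (.thr 6 7 (.dbl 38 54 55))) (.nv (.thr 25 19 (.dbl 38 51 55)) (.rp 55 (.thr 25 19 (.thr 42 47 (.thr 41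 43 (.thr 57 9 (.dbl 59 8 58))))) (.rp 38 (.thr 5 53 (.thr 25 19 (.thr 13 49 (.thr 9 1 (.dbl 6 3 7))))) .nd))))) .nd)))))) .nd)))))) (.rp 7 (.str 32 (.nv (.thr 38 55 (.dbl 36 39 44)) (.nv (.thr 36 44 (.dbl 38 39 55)) (.rp 55 (.thr 44 36 (.thr 42 47 (.thr 41 43 (.thr 35 38 (.dbl 33 34 45))))) (.rp 44 (.thr 8 24 (.thr 42 47 (.thr 25 59 (.thr 41 43 (.thr 9 57 (.dbl 11 10 26)))))) (.rp 39 (.thr 44 36 (.thr 42 47 (.thr 41 43 (.thr 35 38 (.dbl 33 34 45))))) (.rp 38 (.thr 8 24 (.thr 42 47 (.thr 25 59 (.thr 41 43 (.thr 9 57 (.dbl 11 10 26)))))) (.rp 36 (.thr 38 55 (.thr 42 47 (.thr 41 43 (.thr 35 44 (.dbl 33 34 45))))) .nd)))))))) (.rp 6 (.thr 38 55 (.thr 36 39 (.thr 8 24 (.thr 32 44 (.thr 42 47 (.thr 59 25 (.thr 58 57 (.thr 26 10 (.dbl 41 11 43))))))))) (.rp 5 (.thr 38 55 (.thr 54 6 (.thr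 36 39 (.thr 8 24 (.thr 32 44 (.thr 42 47 (.thr 59 25 (.thr 58 57 (.dbl 62 2 50))))))))) .nd))))))))))))) (.rp 32 (.str 16 (.nv (.thr 5 53 (.dbl 7 6 52)) (.nv (.thr 52 7 (.thr 55 38 (.dbl 53 5 54))) (.rp 53 (.thr 38 55 (.thr 54 6 (.thr 26 31 (.thr 18 30 (.thr 50 14 (.thr 2 34 (.dbl 62 42 58))))))) (.rp 52 (.str 56 (.nv (.thr 24 8 (.thr 26 31 (.thr 18 30 (.thr 17 19 (.dbl 25 27 29))))) (.nv (.thr 5 53 (.thr 6 7 (.dbl 38 54 55))) .nd))) (.rp 7 (.thr 38 55 (.thr 54 6 (.thr 26 31 (.thr 18 30 (.thr 50 14 (.thr 2 34 (.dbl 62 42 58))))))) (.rp 5 (.thr 38 55 (.thr 54 6 (.thr 26 31 (.thr 18 30 (.thr 50 14 (.thr 2 34 (.dbl 62 42 58))))))) .nd))))))) (.rp 16 (.str 32 (.nv (.thr 5 53 (.dbl 7 6 52)) (.nv (.thr 38 55 (.dbl 36 39 44)) (.rp 56 (.thr 52 7 (.thr 53 5 (.dbl 55 38 54))) (.rp 52 (.str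 56 (.nv (.thr 24 8 (.thr 5 53 (.thr 6 7 (.dbl 38 54 55)))) (.nv (.thr 36 44 (.dbl 38 39 55)) (.rp 55 (.thr 44 36 (.thr 42 47 (.thr 41 43 (.thr 35 38 (.dbl 33 34 45))))) (.rp 38 (.thr 42 47 (.thr 41 43 (.thr 26 11 (.thr 58 10 (.thr 59 57 (.dbl 8 24 25)))))) (.rp 24 (.str 28 (.nv (.thr 5 53 (.thr 6 7 (.dbl 38 54 55))) (.nv (.thr 36 44 (.dbl 38 39 55)) (.rp 55 (.thr 25 19 (.thr 42 47 (.thr 41 43 (.thr 57 9 (.dbl 59 8 58))))) (.rp 38 (.thr 25 19 (.thr 42 47 (.thr 41 43 (.thr 57 9 (.dbl 59 8 58))))) (.rp 36 (.str 12 (.nv (.thr 5 53 (.thr 6 7 (.dbl 38 54 55))) (.nv (.thr 25 19 (.dbl 38 51 55)) (.rp 55 (.thr 25 19 (.thr 42 47 (.thr 41 43 (.thr 57 9 (.dbl 59 8 58))))) (.rp 38 (.thr 5 53 (.thr 25 19 (.thr 13 49 (.thr 9 1 (.dbl 6 3 7))))) .nd))))) .nd)))))) .nd)))))) (.rp 28 (.str 24 (.nv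 (.thr 5 53 (.dbl 7 6 52)) (.nv (.thr 38 55 (.dbl 36 39 44)) (.rp 56 (.thr 52 7 (.thr 53 5 (.dbl 55 38 54))) (.rp 52 (.thr 56 8 (.thr 38 55 (.dbl 36 39 44))) (.rp 44 (.str 12 (.nv (.thr 52 7 (.thr 53 5 (.dbl 55 38 54))) (.nv (.thr 38 55 (.thr 25 51 (.thr 42 47 (.dbl 8 56 59)))) (.nv (.thr 56 8 (.thr 7 52 (.dbl 5 6 53))) (.rp 52 (.thr 56 8 (.thr 5 53 (.thr 6 7 (.dbl 38 54 55)))) .nd))))) (.rp 12 (.thr 44 36 (.thr 5 53 (.dbl 7 6 52))) .nd))))))) (.rp 24 (.str 28 (.nv (.thr 5 53 (.dbl 7 6 52)) (.nv (.thr 36 44 (.dbl 38 39 55)) (.rp 56 (.thr 52 7 (.thr 36 44 (.dbl 38 39 55))) (.rp 52 (.str 56 (.nv (.thr 5 53 (.thr 6 7 (.dbl 38 54 55))) (.nv (.thr 36 44 (.dbl 38 39 55)) (.rp 55 (.thr 25 19 (.thr 42 47 (.thr 41 43 (.thr 57 9 (.dbl 59 8 58))))) (.rp 38 (.thr 25 19 (.thr 42 47 (.thr 41 43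 (.thr 57 9 (.dbl 59 8 58))))) (.rp 36 (.str 12 (.nv (.thr 5 53 (.thr 6 7 (.dbl 38 54 55))) (.nv (.thr 25 19 (.dbl 38 51 55)) (.rp 55 (.thr 25 19 (.thr 42 47 (.thr 41 43 (.thr 57 9 (.dbl 59 8 58))))) (.rp 38 (.thr 5 53 (.thr 25 19 (.thr 13 49 (.thr 9 1 (.dbl 6 3 7))))) .nd))))) .nd)))))) (.rp 36 (.str 12 (.nv (.thr 5 53 (.dbl 7 6 52)) (.nv (.thr 38 55 (.dbl 25 19 51)) (.rp 56 (.thr 52 7 (.thr 53 5 (.dbl 55 38 54))) (.rp 52 (.str 56 (.nv (.thr 5 53 (.thr 6 7 (.dbl 38 54 55))) (.nv (.thr 25 19 (.dbl 38 51 55)) (.rp 55 (.thr 25 19 (.thr 42 47 (.thr 41 43 (.thr 57 9 (.dbl 59 8 58))))) (.rp 38 (.thr 5 53 (.thr 25 19 (.thr 13 49 (.thr 9 1 (.dbl 6 3 7))))) .nd))))) .nd))))) .nd)))))) .nd))))))) (.rp 7 (.str 32 (.nv (.thr 38 55 (.dbl 36 39 44)) (.rp 56 (.str 52 (.nv (.thr 36 44 (.dbl 38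 39 55)) (.nv (.thr 55 38 (.dbl 53 5 54)) (.rp 55 (.thr 44 36 (.thr 42 47 (.thr 41 43 (.thr 35 38 (.dbl 33 34 45))))) (.rp 38 (.thr 53 5 (.thr 42 47 (.thr 41 43 (.thr 61 1 (.thr 49 57 (.thr 45 33 (.dbl 13 25 29))))))) .nd))))) (.rp 55 (.thr 44 36 (.thr 42 47 (.thr 41 43 (.thr 35 38 (.dbl 33 34 45))))) (.rp 52 (.str 56 (.nv (.thr 38 55 (.dbl 36 39 44)) (.nv (.thr 36 44 (.dbl 38 39 55)) (.rp 55 (.thr 44 36 (.thr 42 47 (.thr 41 43 (.thr 35 38 (.dbl 33 34 45))))) (.rp 44 (.thr 8 24 (.thr 42 47 (.thr 25 59 (.thr 41 43 (.thr 9 57 (.dbl 11 10 26)))))) (.rp 39 (.thr 44 36 (.thr 42 47 (.thr 41 43 (.thr 35 38 (.dbl 33 34 45))))) (.rp 38 (.thr 8 24 (.thr 42 47 (.thr 25 59 (.thr 41 43 (.thr 9 57 (.dbl 11 10 26)))))) (.rp 36 (.thr 38 55 (.thr 42 47 (.thr 41 43 (.thr 35 44 (.dbl 33 34 45)))))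 .nd)))))))) (.rp 44 (.thr 53 5 (.thr 42 47 (.thr 41 43 (.thr 61 1 (.thr 49 57 (.thr 45 33 (.dbl 13 25 29))))))) (.rp 39 (.thr 44 36 (.thr 42 47 (.thr 41 43 (.thr 35 38 (.dbl 33 34 45))))) (.rp 38 (.thr 53 5 (.thr 42 47 (.thr 41 43 (.thr 61 1 (.thr 49 57 (.thr 45 33 (.dbl 13 25 29))))))) (.rp 36 (.thr 38 55 (.thr 42 47 (.thr 41 43 (.thr 35 44 (.dbl 33 34 45))))) (.rp 23 (.thr 36 44 (.dbl 38 39 55)) .nd)))))))))) (.rp 5 (.thr 38 55 (.thr 54 6 (.thr 36 39 (.thr 32 44 (.thr 42 47 (.thr 62 2 (.thr 50 58 (.thr 46 34 (.dbl 14 26 30))))))))) .nd))))))))) (.rp 53 (.thr 7 52 (.thr 6 5 (.dbl 38 54 55))) (.rp 40 (.str 60 (.nv (.thr 7 52 (.dbl 5 6 53)) (.rp 53 (.thr 7 52 (.thr 6 5 (.dbl 38 54 55))) (.rp 52 (.thr 5 53 (.thr 6 7 (.dbl 38 54 55))) (.rp 32 (.str 16 (.nv (.thr 26 31 (.thr 30 18 (.thr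 45 15 (.dbl 41 3 33)))) (.nv (.thr 7 52 (.dbl 5 6 53)) (.rp 44 (.str 36 (.nv (.thr 5 53 (.dbl 7 6 52)) (.nv (.dbl 38 39 55) .nd))) (.rp 36 (.str 44 (.nv (.thr 12 28 (.thr 5 53 (.dbl 7 6 52))) (.nv (.thr 38 55 (.dbl 41 3 35)) (.rp 12 (.str 24 (.nv (.thr 7 52 (.dbl 5 6 53)) (.nv (.thr 38 55 (.dbl 41 3 35)) .nd))) .nd)))) (.rp 5 (.thr 7 52 (.thr 26 31 (.thr 30 18 (.thr 15 45 (.dbl 3 11 41))))) .nd)))))) (.rp 16 (.str 32 (.nv (.thr 38 55 (.thr 41 3 (.thr 33 45 (.dbl 35 34 44)))) (.nv (.thr 7 52 (.dbl 5 6 53)) (.rp 28 (.str 24 (.nv (.thr 38 55 (.thr 41 3 (.thr 33 45 (.dbl 35 34 44)))) (.nv (.thr 7 52 (.dbl 5 6 53)) .nd))) (.rp 24 (.str 28 (.nv (.thr 12 44 (.thr 25 19 (.dbl 38 51 55))) (.nv (.thr 7 52 (.dbl 5 6 53)) (.rp 56 (.str 8 (.nv (.thr 12 44 (.thr 38 55 (.dbl 25 19 51))) (.nv (.thr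 7 52 (.dbl 5 6 53)) (.rp 12 (.str 36 (.nv (.thr 5 53 (.dbl 7 6 52)) (.nv (.dbl 38 39 55) .nd))) .nd)))) (.rp 12 (.str 36 (.nv (.thr 5 53 (.dbl 7 6 52)) (.nv (.dbl 38 39 55) (.rp 56 (.str 8 (.nv (.thr 5 53 (.dbl 7 6 52)) (.nv (.dbl 38 39 55) .nd))) (.rp 8 (.str 56 (.nv (.thr 5 53 (.dbl 7 6 52)) (.nv (.dbl 38 39 55) .nd))) .nd))))) (.rp 8 (.str 56 (.nv (.thr 12 44 (.thr 25 19 (.dbl 38 51 55))) (.nv (.thr 7 52 (.dbl 5 6 53)) (.rp 12 (.str 36 (.nv (.thr 5 53 (.dbl 7 6 52)) (.nv (.dbl 38 39 55) .nd))) .nd)))) .nd)))))) .nd))))) (.rp 7 (.thr 55 38 (.thr 53 5 (.thr 54 52 (.thr 57 51 (.thr 41 3 (.dbl 61 1 49)))))) (.rp 6 (.thr 55 38 (.thr 52 7 (.dbl 53 5 54))) (.rp 5 (.thr 38 55 (.thr 54 6 (.thr 51 57 (.thr 12 25 (.thr 44 28 (.dbl 41 3 35)))))) .nd))))))))) (.rp 32 (.str 16 (.nv (.thr 5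 53 (.thr 6 7 (.dbl 38 54 55))) (.nv (.thr 7 52 (.dbl 5 6 53)) (.rp 60 (.str 40 (.nv (.thr 5 53 (.dbl 7 6 52)) (.nv (.thr 52 7 (.thr 55 38 (.dbl 53 5 54))) (.rp 53 (.thr 38 55 (.thr 54 6 (.thr 26 31 (.thr 18 30 (.thr 50 14 (.thr 2 34 (.dbl 62 42 58))))))) (.rp 52 (.str 56 (.nv (.thr 24 8 (.thr 26 31 (.thr 18 30 (.thr 17 19 (.dbl 25 27 29))))) (.nv (.thr 5 53 (.thr 6 7 (.dbl 38 54 55))) .nd))) (.rp 7 (.thr 38 55 (.thr 54 6 (.thr 26 31 (.thr 18 30 (.thr 50 14 (.thr 2 34 (.dbl 62 42 58))))))) (.rp 5 (.thr 38 55 (.thr 54 6 (.thr 26 31 (.thr 18 30 (.thr 50 14 (.thr 2 34 (.dbl 62 42 58))))))) .nd))))))) (.rp 53 (.thr 7 52 (.thr 6 5 (.dbl 38 54 55))) (.rp 40 (.str 60 (.nv (.thr 26 31 (.thr 30 18 (.thr 45 15 (.dbl 41 3 33)))) (.nv (.thr 7 52 (.dbl 5 6 53)) (.rp 44 (.str 36 (.nv (.thr 5 53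 (.dbl 7 6 52)) (.nv (.dbl 38 39 55) .nd))) (.rp 36 (.str 44 (.nv (.thr 12 28 (.thr 5 53 (.dbl 7 6 52))) (.nv (.thr 38 55 (.dbl 41 3 35)) (.rp 12 (.str 24 (.nv (.thr 7 52 (.dbl 5 6 53)) (.nv (.thr 38 55 (.dbl 41 3 35)) .nd))) .nd)))) (.rp 5 (.thr 7 52 (.thr 26 31 (.thr 30 18 (.thr 15 45 (.dbl 3 11 41))))) .nd)))))) (.rp 7 (.thr 38 55 (.thr 6 54 (.thr 26 31 (.thr 30 18 (.thr 14 50 (.thr 62 46 (.dbl 2 10 42))))))) (.rp 6 (.thr 53 5 (.thr 52 7 (.dbl 55 38 54))) (.rp 5 (.thr 7 52 (.thr 55 38 (.thr 23 39 (.thr 31 26 (.thr 19 27 (.thr 17 18 (.dbl 25 28 29))))))) .nd))))))))) (.rp 16 (.str 32 (.nv (.thr 5 53 (.thr 6 7 (.dbl 38 54 55))) (.nv (.thr 7 52 (.dbl 5 6 53)) (.rp 60 (.str 40 (.nv (.thr 5 53 (.dbl 7 6 52)) (.nv (.thr 38 55 (.dbl 36 39 44)) (.rp 56 (.thr 52 7 (.thr 53 5 (.dbl 55 38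 54))) (.rp 52 (.str 56 (.nv (.thr 24 8 (.thr 5 53 (.thr 6 7 (.dbl 38 54 55)))) (.nv (.thr 36 44 (.dbl 38 39 55)) (.rp 55 (.thr 44 36 (.thr 42 47 (.thr 41 43 (.thr 35 38 (.dbl 33 34 45))))) (.rp 38 (.thr 42 47 (.thr 41 43 (.thr 26 11 (.thr 58 10 (.thr 59 57 (.dbl 8 24 25)))))) (.rp 24 (.str 28 (.nv (.thr 5 53 (.thr 6 7 (.dbl 38 54 55))) (.nv (.thr 36 44 (.dbl 38 39 55)) (.rp 55 (.thr 25 19 (.thr 42 47 (.thr 41 43 (.thr 57 9 (.dbl 59 8 58))))) (.rp 38 (.thr 25 19 (.thr 42 47 (.thr 41 43 (.thr 57 9 (.dbl 59 8 58))))) (.rp 36 (.str 12 (.nv (.thr 5 53 (.thr 6 7 (.dbl 38 54 55))) (.nv (.thr 25 19 (.dbl 38 51 55)) (.rp 55 (.thr 25 19 (.thr 42 47 (.thr 41 43 (.thr 57 9 (.dbl 59 8 58))))) (.rp 38 (.thr 5 53 (.thr 25 19 (.thr 13 49 (.thr 9 1 (.dbl 6 3 7))))) .nd))))) .nd)))))) .nd)))))) (.rp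 28 (.str 24 (.nv (.thr 5 53 (.dbl 7 6 52)) (.nv (.thr 38 55 (.dbl 36 39 44)) (.rp 56 (.thr 52 7 (.thr 53 5 (.dbl 55 38 54))) (.rp 52 (.thr 56 8 (.thr 38 55 (.dbl 36 39 44))) (.rp 44 (.str 12 (.nv (.thr 52 7 (.thr 53 5 (.dbl 55 38 54))) (.nv (.thr 38 55 (.thr 25 51 (.thr 42 47 (.dbl 8 56 59)))) (.nv (.thr 56 8 (.thr 7 52 (.dbl 5 6 53))) (.rp 52 (.thr 56 8 (.thr 5 53 (.thr 6 7 (.dbl 38 54 55)))) .nd))))) (.rp 12 (.thr 44 36 (.thr 5 53 (.dbl 7 6 52))) .nd))))))) (.rp 24 (.str 28 (.nv (.thr 5 53 (.dbl 7 6 52)) (.nv (.thr 36 44 (.dbl 38 39 55)) (.rp 56 (.thr 52 7 (.thr 36 44 (.dbl 38 39 55))) (.rp 52 (.str 56 (.nv (.thr 5 53 (.thr 6 7 (.dbl 38 54 55))) (.nv (.thr 36 44 (.dbl 38 39 55)) (.rp 55 (.thr 25 19 (.thr 42 47 (.thr 41 43 (.thr 57 9 (.dbl 59 8 58))))) (.rp 38 (.thr 25 19 (.thr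 42 47 (.thr 41 43 (.thr 57 9 (.dbl 59 8 58))))) (.rp 36 (.str 12 (.nv (.thr 5 53 (.thr 6 7 (.dbl 38 54 55))) (.nv (.thr 25 19 (.dbl 38 51 55)) (.rp 55 (.thr 25 19 (.thr 42 47 (.thr 41 43 (.thr 57 9 (.dbl 59 8 58))))) (.rp 38 (.thr 5 53 (.thr 25 19 (.thr 13 49 (.thr 9 1 (.dbl 6 3 7))))) .nd))))) .nd)))))) (.rp 36 (.str 12 (.nv (.thr 5 53 (.dbl 7 6 52)) (.nv (.thr 38 55 (.dbl 25 19 51)) (.rp 56 (.thr 52 7 (.thr 53 5 (.dbl 55 38 54))) (.rp 52 (.str 56 (.nv (.thr 5 53 (.thr 6 7 (.dbl 38 54 55))) (.nv (.thr 25 19 (.dbl 38 51 55)) (.rp 55 (.thr 25 19 (.thr 42 47 (.thr 41 43 (.thr 57 9 (.dbl 59 8 58))))) (.rp 38 (.thr 5 53 (.thr 25 19 (.thr 13 49 (.thr 9 1 (.dbl 6 3 7))))) .nd))))) .nd))))) .nd)))))) .nd))))))) (.rp 53 (.thr 7 52 (.thr 6 5 (.dbl 38 54 55))) (.rp 40 (.str 60 (.nv (.thr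 38 55 (.thr 41 3 (.thr 33 45 (.dbl 35 34 44)))) (.nv (.thr 7 52 (.dbl 5 6 53)) (.rp 28 (.str 24 (.nv (.thr 38 55 (.thr 41 3 (.thr 33 45 (.dbl 35 34 44)))) (.nv (.thr 7 52 (.dbl 5 6 53)) .nd))) (.rp 24 (.str 28 (.nv (.thr 12 44 (.thr 25 19 (.dbl 38 51 55))) (.nv (.thr 7 52 (.dbl 5 6 53)) (.rp 56 (.str 8 (.nv (.thr 12 44 (.thr 38 55 (.dbl 25 19 51))) (.nv (.thr 7 52 (.dbl 5 6 53)) (.rp 12 (.str 36 (.nv (.thr 5 53 (.dbl 7 6 52)) (.nv (.dbl 38 39 55) .nd))) .nd)))) (.rp 12 (.str 36 (.nv (.thr 5 53 (.dbl 7 6 52)) (.nv (.dbl 38 39 55) (.rp 56 (.str 8 (.nv (.thr 5 53 (.dbl 7 6 52)) (.nv (.dbl 38 39 55) .nd))) (.rp 8 (.str 56 (.nv (.thr 5 53 (.dbl 7 6 52)) (.nv (.dbl 38 39 55) .nd))) .nd))))) (.rp 8 (.str 56 (.nv (.thr 12 44 (.thr 25 19 (.dbl 38 51 55))) (.nv (.thr 7 52 (.dbl 5 6 53)) (.rp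 12 (.str 36 (.nv (.thr 5 53 (.dbl 7 6 52)) (.nv (.dbl 38 39 55) .nd))) .nd)))) .nd)))))) .nd))))) (.rp 28 (.str 24 (.nv (.thr 5 53 (.thr 6 7 (.dbl 38 54 55))) (.nv (.thr 7 52 (.dbl 5 6 53)) (.rp 60 (.str 40 (.nv (.thr 5 53 (.dbl 7 6 52)) (.nv (.thr 38 55 (.dbl 36 39 44)) (.rp 56 (.thr 52 7 (.thr 53 5 (.dbl 55 38 54))) (.rp 52 (.thr 56 8 (.thr 38 55 (.dbl 36 39 44))) (.rp 44 (.str 12 (.nv (.thr 52 7 (.thr 53 5 (.dbl 55 38 54))) (.nv (.thr 38 55 (.thr 25 51 (.thr 42 47 (.dbl 8 56 59)))) (.nv (.thr 56 8 (.thr 7 52 (.dbl 5 6 53))) (.rp 52 (.thr 56 8 (.thr 5 53 (.thr 6 7 (.dbl 38 54 55)))) .nd))))) (.rp 12 (.thr 44 36 (.thr 5 53 (.dbl 7 6 52))) .nd))))))) (.rp 53 (.thr 7 52 (.thr 6 5 (.dbl 38 54 55))) (.rp 40 (.str 60 (.nv (.thr 38 55 (.thr 41 3 (.thr 33 45 (.dbl 35 34 44)))) (.nv (.thr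 7 52 (.dbl 5 6 53)) .nd))) (.rp 7 (.thr 38 55 (.thr 39 36 (.thr 47 42 (.thr 35 43 (.thr 33 34 (.dbl 41 44 45)))))) (.rp 6 (.thr 53 5 (.thr 52 7 (.dbl 55 38 54))) (.rp 5 (.thr 38 55 (.thr 36 39 (.thr 42 47 (.thr 34 46 (.thr 35 33 (.dbl 44 40 41)))))) .nd))))))))) (.rp 24 (.str 28 (.nv (.thr 5 53 (.thr 6 7 (.dbl 38 54 55))) (.nv (.thr 7 52 (.dbl 5 6 53)) (.rp 60 (.str 40 (.nv (.thr 5 53 (.dbl 7 6 52)) (.nv (.thr 36 44 (.dbl 38 39 55)) (.rp 56 (.thr 52 7 (.thr 36 44 (.dbl 38 39 55))) (.rp 52 (.str 56 (.nv (.thr 5 53 (.thr 6 7 (.dbl 38 54 55))) (.nv (.thr 36 44 (.dbl 38 39 55)) (.rp 55 (.thr 25 19 (.thr 42 47 (.thr 41 43 (.thr 57 9 (.dbl 59 8 58))))) (.rp 38 (.thr 25 19 (.thr 42 47 (.thr 41 43 (.thr 57 9 (.dbl 59 8 58))))) (.rp 36 (.str 12 (.nv (.thr 5 53 (.thr 6 7 (.dbl 38 54 55)))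 (.nv (.thr 25 19 (.dbl 38 51 55)) (.rp 55 (.thr 25 19 (.thr 42 47 (.thr 41 43 (.thr 57 9 (.dbl 59 8 58))))) (.rp 38 (.thr 5 53 (.thr 25 19 (.thr 13 49 (.thr 9 1 (.dbl 6 3 7))))) .nd))))) .nd)))))) (.rp 36 (.str 12 (.nv (.thr 5 53 (.dbl 7 6 52)) (.nv (.thr 38 55 (.dbl 25 19 51)) (.rp 56 (.thr 52 7 (.thr 53 5 (.dbl 55 38 54))) (.rp 52 (.str 56 (.nv (.thr 5 53 (.thr 6 7 (.dbl 38 54 55))) (.nv (.thr 25 19 (.dbl 38 51 55)) (.rp 55 (.thr 25 19 (.thr 42 47 (.thr 41 43 (.thr 57 9 (.dbl 59 8 58))))) (.rp 38 (.thr 5 53 (.thr 25 19 (.thr 13 49 (.thr 9 1 (.dbl 6 3 7))))) .nd))))) .nd))))) .nd)))))) (.rp 53 (.thr 7 52 (.thr 6 5 (.dbl 38 54 55))) (.rp 40 (.str 60 (.nv (.thr 12 44 (.thr 25 19 (.dbl 38 51 55))) (.nv (.thr 7 52 (.dbl 5 6 53)) (.rp 56 (.str 8 (.nv (.thr 12 44 (.thr 38 55 (.dbl 25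 19 51))) (.nv (.thr 7 52 (.dbl 5 6 53)) (.rp 12 (.str 36 (.nv (.thr 5 53 (.dbl 7 6 52)) (.nv (.dbl 38 39 55) .nd))) .nd)))) (.rp 12 (.str 36 (.nv (.thr 5 53 (.dbl 7 6 52)) (.nv (.dbl 38 39 55) (.rp 56 (.str 8 (.nv (.thr 5 53 (.dbl 7 6 52)) (.nv (.dbl 38 39 55) .nd))) (.rp 8 (.str 56 (.nv (.thr 5 53 (.dbl 7 6 52)) (.nv (.dbl 38 39 55) .nd))) .nd))))) (.rp 8 (.str 56 (.nv (.thr 12 44 (.thr 25 19 (.dbl 38 51 55))) (.nv (.thr 7 52 (.dbl 5 6 53)) (.rp 12 (.str 36 (.nv (.thr 5 53 (.dbl 7 6 52)) (.nv (.dbl 38 39 55) .nd))) .nd)))) .nd)))))) (.rp 36 (.str 12 (.nv (.thr 60 44 (.thr 5 53 (.dbl 7 6 52))) (.nv (.thr 38 55 (.dbl 25 19 51)) (.rp 60 (.str 40 (.nv (.thr 5 53 (.dbl 7 6 52)) (.nv (.thr 38 55 (.dbl 25 19 51)) (.rp 56 (.thr 52 7 (.thr 53 5 (.dbl 55 38 54))) (.rp 52 (.str 56 (.nv (.thr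 5 53 (.thr 6 7 (.dbl 38 54 55))) (.nv (.thr 25 19 (.dbl 38 51 55)) (.rp 55 (.thr 25 19 (.thr 42 47 (.thr 41 43 (.thr 57 9 (.dbl 59 8 58))))) (.rp 38 (.thr 5 53 (.thr 25 19 (.thr 13 49 (.thr 9 1 (.dbl 6 3 7))))) .nd))))) .nd))))) .nd)))) (.rp 12 (.str 36 (.nv (.thr 40 44 (.thr 5 53 (.dbl 7 6 52))) (.nv (.dbl 38 39 55) (.rp 40 (.str 60 (.nv (.thr 5 53 (.dbl 7 6 52)) (.nv (.dbl 38 39 55) (.rp 56 (.str 8 (.nv (.thr 5 53 (.dbl 7 6 52)) (.nv (.dbl 38 39 55) .nd))) (.rp 8 (.str 56 (.nv (.thr 5 53 (.dbl 7 6 52)) (.nv (.dbl 38 39 55) .nd))) .nd))))) .nd)))) (.rp 7 (.thr 5 53 (.thr 25 19 (.thr 13 49 (.thr 1 9 (.thr 61 41 (.dbl 29 17 45)))))) (.rp 6 (.thr 53 5 (.thr 52 7 (.dbl 55 38 54))) (.rp 5 (.thr 38 55 (.thr 36 39 (.thr 25 19 (.thr 12 51 (.dbl 44 40 60))))) .nd))))))))))) (.rp 7 (.thr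 38 55 (.thr 39 36 (.thr 47 42 (.thr 35 43 (.thr 33 34 (.dbl 41 44 45)))))) (.rp 6 (.thr 53 5 (.thr 55 38 (.dbl 52 7 54))) (.rp 5 (.thr 38 55 (.thr 36 39 (.thr 42 47 (.thr 34 46 (.thr 35 33 (.dbl 44 40 41)))))) .nd))))))))))) (.rp 7 (.str 60 (.nv (.thr 38 55 (.thr 39 36 (.thr 41 3 (.thr 33 45 (.thr 35 44 (.thr 47 43 (.dbl 32 34 42))))))) (.nv (.thr 5 53 (.thr 41 3 (.thr 33 45 (.thr 1 61 (.thr 49 17 (.dbl 13 9 25)))))) (.nv (.thr 3 41 (.thr 38 55 (.thr 54 6 (.thr 51 57 (.thr 19 35 (.dbl 25 12 28)))))) (.rp 41 (.thr 38 55 (.thr 54 6 (.thr 39 36 (.thr 51 57 (.thr 15 27 (.thr 30 45 (.thr 26 18 (.thr 14 50 (.dbl 12 13 25))))))))) (.rp 32 (.str 16 (.nv (.thr 3 41 (.thr 38 55 (.thr 6 54 (.thr 12 9 (.thr 28 44 (.dbl 25 19 51)))))) (.nv (.thr 26 31 (.thr 30 18 (.thr 45 15 (.dbl 41 3 33))))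 (.rp 41 (.thr 38 55 (.thr 54 6 (.thr 51 57 (.thr 25 12 (.thr 19 28 (.dbl 17 18 29)))))) (.rp 3 (.thr 38 55 (.thr 54 6 (.thr 39 36 (.thr 26 31 (.thr 51 57 (.thr 15 27 (.dbl 30 18 45))))))) .nd))))) (.rp 16 (.str 32 (.nv (.thr 5 53 (.thr 41 3 (.thr 1 61 (.thr 33 45 (.thr 49 17 (.dbl 13 9 25)))))) (.nv (.thr 38 55 (.thr 39 36 (.thr 47 42 (.thr 35 43 (.dbl 41 3 44))))) (.rp 41 (.thr 38 55 (.thr 6 54 (.thr 42 47 (.thr 34 46 (.thr 2 62 (.thr 50 18 (.dbl 14 10 26))))))) (.rp 28 (.str 24 (.nv (.thr 5 53 (.thr 41 3 (.thr 1 61 (.thr 13 9 (.thr 33 45 (.dbl 49 17 25)))))) (.nv (.thr 38 55 (.thr 39 36 (.thr 47 42 (.thr 35 43 (.dbl 41 3 44))))) (.rp 41 (.thr 38 55 (.thr 54 6 (.thr 51 57 (.thr 25 12 (.thr 39 36 (.dbl 27 15 26)))))) (.rp 3 (.thr 38 55 (.thr 39 36 (.thr 47 42 (.thr 35 43 (.thr 33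 34 (.dbl 41 44 45)))))) .nd))))) (.rp 24 (.str 28 (.nv (.thr 42 47 (.thr 62 2 (.thr 61 63 (.dbl 41 1 3)))) (.nv (.thr 38 55 (.thr 44 12 (.dbl 36 39 40))) (.rp 36 (.thr 12 44 (.thr 38 55 (.dbl 25 19 51))) (.rp 12 (.str 36 (.nv (.thr 40 44 (.thr 41 3 (.dbl 42 43 47))) (.nv (.dbl 38 39 55) .nd))) .nd))))) (.rp 3 (.thr 38 55 (.thr 39 36 (.thr 47 42 (.thr 35 43 (.thr 33 34 (.dbl 41 44 45)))))) .nd))))))) (.rp 3 (.thr 38 55 (.thr 54 6 (.thr 39 36 (.thr 51 57 (.thr 15 27 (.thr 30 45 (.thr 12 25 (.thr 14 13 (.dbl 26 18 50))))))))) .nd)))))))) (.rp 6 (.thr 53 5 (.thr 52 7 (.dbl 55 38 54))) (.rp 5 (.thr 38 55 (.str 60 (.nv (.thr 3 41 (.thr 7 52 (.thr 15 11 (.thr 54 6 (.thr 51 57 (.dbl 39 27 36)))))) (.nv (.thr 39 36 (.thr 41 3 (.thr 33 45 (.thr 35 44 (.thr 47 43 (.dbl 32 34 42)))))) (.nv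 (.thr 3 41 (.thr 54 6 (.thr 51 57 (.thr 19 35 (.dbl 25 12 28))))) (.rp 41 (.thr 54 6 (.thr 7 52 (.thr 39 36 (.thr 51 57 (.thr 15 27 (.thr 3 11 (.thr 19 35 (.dbl 25 12 28)))))))) (.rp 32 (.str 16 (.nv (.thr 54 6 (.thr 51 57 (.thr 12 25 (.thr 44 28 (.dbl 41 3 35))))) (.nv (.thr 3 41 (.thr 26 31 (.thr 30 18 (.thr 15 45 (.dbl 7 11 52))))) (.rp 41 (.thr 54 6 (.thr 51 57 (.thr 25 12 (.thr 19 28 (.dbl 17 18 29))))) (.rp 15 (.str 10 (.nv (.thr 26 31 (.thr 14 50 (.thr 2 6 (.dbl 42 58 62)))) (.nv (.thr 3 41 (.thr 54 6 (.thr 51 57 (.thr 19 35 (.dbl 25 12 28))))) (.nv (.thr 6 54 (.thr 14 2 (.dbl 26 31 50))) (.rp 6 (.thr 26 31 (.thr 42 58 (.thr 62 2 (.thr 46 34 (.dbl 14 30 50))))) .nd))))) (.rp 10 (.str 15 (.nv (.thr 3 41 (.dbl 7 11 52)) (.nv (.thr 30 45 (.dbl 26 18 31)) .nd))) (.rp 3 (.thr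 54 6 (.thr 39 36 (.thr 26 31 (.thr 51 57 (.thr 15 27 (.dbl 30 18 45)))))) .nd))))))) (.rp 16 (.str 32 (.nv (.thr 42 47 (.thr 62 2 (.thr 61 63 (.dbl 41 1 3)))) (.nv (.thr 36 39 (.thr 44 40 (.dbl 41 3 35))) (.rp 41 (.thr 36 39 (.thr 54 6 (.thr 44 40 (.thr 51 57 (.dbl 12 25 28))))) (.rp 28 (.str 24 (.nv (.thr 36 39 (.thr 44 40 (.dbl 41 3 35))) (.nv (.thr 42 47 (.thr 62 2 (.thr 61 63 (.dbl 41 1 3)))) (.nv (.thr 41 3 (.thr 33 45 (.dbl 35 34 44))) (.rp 41 (.thr 54 6 (.thr 51 57 (.thr 25 12 (.thr 39 36 (.dbl 27 15 26))))) (.rp 15 (.str 10 (.nv (.thr 36 39 (.thr 44 40 (.dbl 41 3 35))) (.nv (.thr 42 47 (.thr 2 62 (.dbl 6 14 54))) .nd))) (.rp 10 (.str 15 (.nv (.thr 39 36 (.thr 51 27 (.dbl 54 6 57))) (.nv (.thr 3 41 (.dbl 7 11 52)) .nd))) (.rp 3 (.thr 36 39 (.thr 44 40 (.thr 41 35 (.thr 47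 42 (.dbl 45 33 46))))) .nd)))))))) (.rp 24 (.str 28 (.nv (.thr 12 44 (.dbl 25 19 51)) (.nv (.thr 44 12 (.dbl 36 39 40)) (.rp 44 (.thr 54 6 (.thr 51 57 (.dbl 25 12 19))) (.rp 15 (.str 10 (.nv (.thr 6 54 (.thr 2 14 (.dbl 42 47 62))) (.nv (.thr 12 44 (.dbl 25 19 51)) (.rp 12 (.thr 36 39 (.thr 44 40 (.dbl 41 3 35))) .nd)))) (.rp 12 (.thr 36 39 (.thr 44 40 (.dbl 41 3 35))) (.rp 10 (.str 15 (.nv (.thr 36 39 (.thr 3 41 (.dbl 7 11 52))) (.nv (.thr 12 44 (.dbl 25 19 51)) .nd))) .nd))))))) (.rp 15 (.str 10 (.nv (.thr 36 39 (.thr 44 40 (.dbl 41 3 35))) (.nv (.thr 42 47 (.thr 2 62 (.dbl 6 14 54))) (.rp 28 (.str 24 (.nv (.thr 36 39 (.thr 44 40 (.dbl 41 3 35))) (.nv (.thr 42 47 (.thr 2 62 (.dbl 6 14 54))) .nd))) (.rp 24 (.str 28 (.nv (.thr 6 54 (.thr 2 14 (.dbl 42 47 62))) (.nv (.thr 12 44 (.dbl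 25 19 51)) (.rp 12 (.thr 36 39 (.thr 44 40 (.dbl 41 3 35))) .nd)))) .nd))))) (.rp 10 (.str 15 (.nv (.thr 39 36 (.thr 51 27 (.dbl 54 6 57))) (.nv (.thr 45 30 (.dbl 41 3 33)) (.rp 28 (.str 24 (.nv (.thr 39 36 (.thr 51 27 (.dbl 54 6 57))) (.nv (.thr 3 41 (.dbl 7 11 52)) .nd))) (.rp 24 (.str 28 (.nv (.thr 36 39 (.thr 3 41 (.dbl 7 11 52))) (.nv (.thr 12 44 (.dbl 25 19 51)) .nd))) .nd))))) (.rp 3 (.thr 36 39 (.thr 54 6 (.thr 44 40 (.thr 51 57 (.dbl 12 25 28))))) .nd))))))))) (.rp 15 (.str 10 (.nv (.thr 6 54 (.thr 2 14 (.thr 41 3 (.thr 61 1 (.dbl 62 42 63))))) (.nv (.thr 41 3 (.thr 33 45 (.thr 35 44 (.thr 32 34 (.thr 47 42 (.dbl 39 36 43)))))) (.nv (.thr 3 41 (.thr 54 6 (.thr 51 57 (.thr 19 35 (.dbl 25 12 28))))) (.rp 41 (.thr 54 6 (.thr 51 57 (.thr 25 12 (.thr 29 17 (.thr 13 49 (.thr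 61 45 (.thr 62 63 (.thr 42 2 (.dbl 58 26 50))))))))) (.rp 32 (.str 16 (.nv (.thr 26 31 (.thr 14 50 (.thr 2 6 (.dbl 42 58 62)))) (.nv (.thr 3 41 (.thr 54 6 (.thr 51 57 (.thr 19 35 (.dbl 25 12 28))))) (.nv (.thr 6 54 (.thr 14 2 (.dbl 26 31 50))) (.rp 6 (.thr 26 31 (.thr 42 58 (.thr 62 2 (.thr 46 34 (.dbl 14 30 50))))) .nd))))) (.rp 16 (.str 32 (.nv (.thr 36 39 (.thr 44 40 (.dbl 41 3 35))) (.nv (.thr 42 47 (.thr 2 62 (.dbl 6 14 54))) (.rp 28 (.str 24 (.nv (.thr 36 39 (.thr 44 40 (.dbl 41 3 35))) (.nv (.thr 42 47 (.thr 2 62 (.dbl 6 14 54))) .nd))) (.rp 24 (.str 28 (.nv (.thr 6 54 (.thr 2 14 (.dbl 42 47 62))) (.nv (.thr 12 44 (.dbl 25 19 51)) (.rp 12 (.thr 36 39 (.thr 44 40 (.dbl 41 3 35))) .nd)))) .nd))))) (.rp 3 (.thr 36 39 (.thr 6 54 (.thr 2 14 (.thr 42 62 (.thr 32 47 (.thr 44 40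 (.thr 35 41 (.dbl 34 33 46)))))))) .nd)))))))) (.rp 10 (.str 15 (.nv (.thr 39 36 (.thr 51 27 (.dbl 54 6 57))) (.nv (.thr 45 30 (.dbl 41 3 33)) (.rp 32 (.str 16 (.nv (.thr 3 41 (.dbl 7 11 52)) (.nv (.thr 30 45 (.dbl 26 18 31)) .nd))) (.rp 16 (.str 32 (.nv (.thr 39 36 (.thr 51 27 (.dbl 54 6 57))) (.nv (.thr 45 30 (.dbl 41 3 33)) (.rp 28 (.str 24 (.nv (.thr 39 36 (.thr 51 27 (.dbl 54 6 57))) (.nv (.thr 3 41 (.dbl 7 11 52)) .nd))) (.rp 24 (.str 28 (.nv (.thr 36 39 (.thr 3 41 (.dbl 7 11 52))) (.nv (.thr 12 44 (.dbl 25 19 51)) .nd))) .nd))))) .nd))))) (.rp 3 (.thr 54 6 (.thr 39 36 (.thr 51 57 (.thr 15 27 (.thr 30 45 (.thr 12 25 (.thr 14 13 (.dbl 26 18 50)))))))) .nd))))))))))) .nd)))))))))))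

theorem w72 : WinAt (137445244928, 281474977759233) :=
  chF (K := []) kn c72 137445244928 281474977759233 20
    [281479271743489, 1152922604119523329] (by decide +kernel) (by decide +kernel)

/-- A certificate. -/
noncomputable def c73 : Ct := (.str 37 (.nv (.thr 5 53 (.thr 7 52 (.thr 4 6 (.thr 23 20 (.dbl 55 38 39))))) (.nv (.thr 53 5 (.thr 20 23 (.thr 52 7 (.thr 55 54 (.dbl 4 36 38))))) (.rp 55 (.str 13 (.nv (.thr 20 23 (.thr 25 49 (.thr 28 19 (.thr 16 24 (.thr 31 26 (.dbl 29 17 30)))))) (.nv (.thr 49 25 (.thr 53 5 (.thr 61 57 (.thr 45 29 (.dbl 41 1 33))))) (.rp 49 (.thr 5 53 (.thr 20 23 (.thr 1 9 (.thr 61 41 (.thr 29 45 (.thr 25 17 (.thr 28 19 (.thr 31 30 (.dbl 16 24 26))))))))) (.rp 32 (.str 16 (.nv (.thr 5 53 (.thr 1 9 (.thr 41 61 (.thr 33 45 (.dbl 49 17 25))))) (.nv (.thr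 25 49 (.thr 17 29 (.dbl 19 18 28))) (.rp 49 (.thr 20 23 (.thr 28 24 (.thr 19 25 (.thr 18 17 (.dbl 26 30 31))))) (.rp 25 (.thr 5 53 (.thr 1 9 (.thr 41 61 (.thr 33 45 (.thr 26 31 (.thr 18 30 (.dbl 17 19 49))))))) (.rp 17 (.thr 20 23 (.thr 25 49 (.dbl 28 19 24))) .nd)))))) (.rp 29 (.thr 5 53 (.thr 1 9 (.thr 41 61 (.thr 33 45 (.dbl 49 17 25))))) (.rp 25 (.str 3 (.nv (.thr 5 53 (.thr 9 1 (.thr 6 12 (.dbl 7 4 52)))) (.nv (.thr 41 60 (.thr 45 33 (.dbl 61 1 29))) (.nv (.thr 5 53 (.thr 1 9 (.dbl 41 60 61))) (.rp 52 (.thr 23 20 (.thr 60 41 (.thr 63 43 (.thr 61 62 (.thr 29 45 (.thr 12 46 (.thr 9 6 (.dbl 5 1 53)))))))) (.rp 32 (.str 16 (.nv (.thr 23 20 (.thr 31 26 (.thr 63 43 (.thr 15 47 (.dbl 7 11 52))))) (.nv (.thr 5 53 (.thr 1 9 (.dbl 41 60 61))) (.rp 63 (.thr 41 60 (.thr 61 1 (.dbl 45 29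 33))) (.rp 60 (.thr 5 53 (.thr 9 1 (.thr 6 12 (.dbl 7 4 52)))) (.rp 52 (.thr 26 31 (.thr 41 60 (.thr 56 11 (.thr 1 61 (.dbl 5 9 53))))) .nd)))))) (.rp 16 (.str 32 (.nv (.thr 5 53 (.thr 9 1 (.thr 6 12 (.dbl 7 4 52)))) (.nv (.thr 23 20 (.thr 42 47 (.thr 62 2 (.thr 63 43 (.dbl 60 41 61))))) (.nv (.thr 5 53 (.thr 1 9 (.dbl 41 60 61))) (.rp 63 (.thr 41 60 (.thr 61 1 (.dbl 45 29 33))) .nd))))) (.rp 1 (.thr 7 52 (.thr 15 11 (.thr 12 14 (.thr 6 9 (.dbl 5 4 53))))) .nd)))))))) (.rp 16 (.str 32 (.nv (.thr 5 53 (.thr 1 9 (.thr 25 49 (.thr 61 41 (.dbl 29 17 45))))) (.nv (.thr 49 25 (.thr 53 5 (.thr 61 57 (.thr 45 29 (.dbl 41 1 33))))) (.rp 61 (.thr 5 53 (.thr 49 25 (.thr 1 9 (.thr 33 17 (.thr 41 45 (.thr 42 47 (.thr 40 43 (.thr 44 36 (.dbl 35 34 38))))))))) (.rp 53 (.thr 25 49 (.thr 29 17 (.thr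 61 45 (.thr 42 47 (.thr 62 2 (.thr 63 60 (.thr 46 12 (.thr 30 14 (.dbl 28 19 31))))))))) (.rp 49 (.thr 5 53 (.thr 1 9 (.thr 61 41 (.thr 29 45 (.thr 25 17 (.thr 42 47 (.thr 62 2 (.thr 63 60 (.thr 46 12 (.thr 30 14 (.dbl 28 19 31))))))))))) (.rp 45 (.thr 53 5 (.thr 49 25 (.thr 61 57 (.thr 42 47 (.thr 62 2 (.thr 60 63 (.dbl 41 1 3))))))) (.rp 41 (.thr 5 53 (.thr 20 23 (.thr 25 49 (.thr 17 29 (.thr 19 28 (.thr 9 1 (.thr 42 47 (.thr 2 62 (.thr 8 59 (.thr 10 11 (.thr 6 14 (.dbl 7 4 52)))))))))))) (.rp 29 (.thr 5 53 (.thr 49 25 (.thr 1 9 (.thr 33 17 (.dbl 41 45 61))))) (.rp 25 (.thr 5 53 (.thr 20 23 (.thr 1 9 (.thr 41 61 (.thr 42 47 (.thr 40 43 (.thr 36 44 (.dbl 52 4 7)))))))) (.rp 9 (.thr 53 5 (.thr 49 25 (.thr 61 57 (.thr 41 1 (.dbl 45 29 33))))) (.rp 5 (.thr 25 49 (.thr 29 17 (.thr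 61 45 (.thr 42 47 (.thr 62 2 (.thr 60 63 (.dbl 41 1 3))))))) (.rp 1 (.thr 53 5 (.thr 20 23 (.thr 49 25 (.thr 61 57 (.thr 45 29 (.thr 47 42 (.thr 44 46 (.thr 36 40 (.dbl 52 4 7))))))))) .nd))))))))))))) .nd)))))))) (.rp 54 (.thr 5 53 (.thr 23 20 (.thr 7 52 (.thr 55 39 (.dbl 4 6 38))))) (.rp 53 (.str 36 (.nv (.thr 20 23 (.dbl 52 4 7)) (.rp 63 (.str 58 (.nv (.thr 52 7 (.dbl 20 4 23)) (.rp 52 (.thr 38 39 (.thr 54 6 (.thr 62 50 (.thr 42 2 (.thr 32 47 (.thr 44 40 (.thr 34 46 (.dbl 35 33 41)))))))) (.rp 32 (.str 16 (.nv (.thr 26 31 (.thr 38 39 (.thr 50 14 (.dbl 54 6 62)))) (.nv (.thr 52 7 (.dbl 20 4 23)) .nd))) (.rp 23 (.thr 52 7 (.thr 4 20 (.dbl 38 39 55))) (.rp 20 (.thr 38 39 (.thr 54 6 (.thr 62 50 (.thr 42 2 (.thr 32 47 (.thr 34 46 (.thr 35 33 (.dbl 44 40 41)))))))) (.rp 16 (.str 32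 (.nv (.thr 38 39 (.thr 42 47 (.thr 54 6 (.dbl 62 2 50)))) (.nv (.thr 52 7 (.dbl 20 4 23)) .nd))) (.rp 7 (.thr 20 23 (.thr 4 52 (.dbl 38 39 55))) (.rp 4 (.thr 23 20 (.thr 39 38 (.dbl 7 52 55))) .nd))))))))) (.rp 58 (.str 63 (.nv (.thr 20 23 (.dbl 52 4 7)) (.rp 52 (.thr 23 20 (.thr 39 38 (.thr 55 7 (.thr 51 59 (.thr 15 27 (.thr 47 31 (.dbl 43 3 35))))))) (.rp 32 (.str 16 (.nv (.thr 20 23 (.dbl 52 4 7)) (.rp 52 (.thr 20 23 (.thr 31 26 (.thr 28 24 (.thr 29 30 (.dbl 25 17 19))))) (.rp 23 (.thr 52 7 (.thr 4 20 (.dbl 38 39 55))) (.rp 20 (.thr 7 52 (.thr 39 38 (.thr 55 23 (.thr 31 26 (.thr 15 47 (.dbl 51 27 59)))))) (.rp 7 (.thr 20 23 (.thr 4 52 (.dbl 38 39 55))) (.rp 4 (.thr 23 20 (.thr 7 52 (.dbl 39 38 55))) .nd))))))) (.rp 23 (.thr 52 7 (.thr 4 20 (.dbl 38 39 55))) (.rp 20 (.thr 38 39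 (.thr 55 4 (.thr 6 54 (.thr 51 59 (.thr 12 25 (.thr 3 9 (.thr 35 19 (.dbl 41 44 60)))))))) (.rp 16 (.str 32 (.nv (.thr 23 20 (.thr 39 38 (.thr 43 3 (.dbl 47 35 42)))) (.nv (.thr 52 7 (.dbl 20 4 23)) (.rp 23 (.thr 52 7 (.thr 4 20 (.dbl 38 39 55))) (.rp 20 (.thr 38 39 (.thr 42 47 (.thr 34 46 (.thr 35 33 (.dbl 44 40 41))))) .nd))))) (.rp 7 (.thr 20 23 (.thr 4 52 (.dbl 38 39 55))) (.rp 4 (.thr 23 20 (.thr 7 52 (.dbl 39 38 55))) .nd))))))))) (.rp 52 (.thr 38 39 (.thr 54 6 (.str 60 (.nv (.thr 3 41 (.thr 23 20 (.thr 55 4 (.thr 63 43 (.dbl 51 57 59))))) (.nv (.thr 51 57 (.thr 12 25 (.thr 44 28 (.dbl 41 3 35)))) (.rp 63 (.str 58 (.nv (.thr 50 62 (.thr 26 14 (.thr 30 18 (.thr 45 15 (.dbl 41 3 33))))) (.nv (.thr 51 57 (.thr 12 25 (.thr 44 28 (.dbl 41 3 35)))) (.rp 51 (.thr 20 23 (.thr 50 62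 (.thr 26 14 (.thr 16 31 (.thr 28 24 (.thr 44 12 (.dbl 41 3 35))))))) (.rp 41 (.thr 62 50 (.thr 51 57 (.thr 42 2 (.thr 32 47 (.thr 44 40 (.dbl 12 25 28)))))) (.rp 32 (.str 16 (.nv (.thr 3 41 (.thr 51 57 (.thr 19 35 (.dbl 25 12 28)))) (.nv (.thr 50 62 (.dbl 26 14 31)) .nd))) (.rp 16 (.str 32 (.nv (.thr 62 50 (.dbl 42 2 47)) (.nv (.thr 44 40 (.dbl 41 3 35)) .nd))) (.rp 12 (.thr 62 50 (.thr 42 2 (.thr 32 47 (.thr 44 40 (.dbl 41 3 35))))) (.rp 3 (.thr 62 50 (.thr 51 57 (.thr 12 25 (.thr 44 28 (.thr 32 40 (.dbl 42 2 47)))))) .nd))))))))) (.rp 58 (.str 63 (.nv (.thr 51 57 (.dbl 55 4 59)) (.nv (.thr 23 20 (.dbl 3 41 43)) (.rp 32 (.str 16 (.nv (.thr 51 57 (.dbl 55 4 59)) (.nv (.thr 23 20 (.dbl 3 41 43)) .nd))) (.rp 16 (.str 32 (.nv (.thr 51 57 (.dbl 55 4 59)) (.nv (.thr 44 40 (.dbl 41 3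 35)) .nd))) .nd))))) (.rp 57 (.thr 41 3 (.thr 44 35 (.thr 32 40 (.thr 47 42 (.dbl 45 33 46))))) (.rp 51 (.thr 23 20 (.thr 3 41 (.thr 63 43 (.thr 62 61 (.thr 50 58 (.thr 14 26 (.thr 46 30 (.dbl 42 2 34)))))))) (.rp 41 (.thr 20 23 (.thr 51 57 (.thr 25 12 (.thr 28 19 (.thr 16 24 (.thr 31 26 (.dbl 29 17 30))))))) (.rp 35 (.thr 23 20 (.thr 55 4 (.thr 51 57 (.thr 63 59 (.dbl 3 41 43))))) (.rp 32 (.str 16 (.nv (.thr 26 31 (.thr 30 18 (.thr 45 15 (.dbl 41 3 33)))) (.nv (.thr 20 23 (.thr 28 24 (.thr 12 44 (.dbl 25 19 51)))) (.rp 63 (.str 58 (.nv (.thr 3 41 (.thr 51 57 (.thr 19 35 (.dbl 25 12 28)))) (.nv (.thr 50 62 (.dbl 26 14 31)) .nd))) (.rp 58 (.str 63 (.nv (.thr 51 57 (.dbl 55 4 59)) (.nv (.thr 23 20 (.dbl 3 41 43)) .nd))) (.rp 51 (.thr 20 23 (.thr 28 24 (.thr 44 12 (.dbl 41 3 35))))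 .nd)))))) (.rp 16 (.str 32 (.nv (.thr 3 41 (.thr 51 57 (.thr 19 35 (.dbl 25 12 28)))) (.nv (.thr 44 40 (.thr 12 28 (.dbl 51 25 57))) (.nv (.thr 44 40 (.dbl 41 3 35)) (.rp 63 (.str 58 (.nv (.thr 62 50 (.dbl 42 2 47)) (.nv (.thr 44 40 (.dbl 41 3 35)) .nd))) (.rp 58 (.str 63 (.nv (.thr 51 57 (.dbl 55 4 59)) (.nv (.thr 44 40 (.dbl 41 3 35)) .nd))) .nd)))))) (.rp 12 (.thr 23 20 (.thr 51 57 (.thr 3 41 (.thr 63 43 (.dbl 55 4 59))))) (.rp 3 (.thr 55 4 (.thr 51 57 (.thr 63 59 (.thr 61 62 (.thr 12 25 (.thr 44 28 (.dbl 41 1 35))))))) .nd))))))))))))))) (.rp 32 (.str 16 (.nv (.thr 20 23 (.dbl 52 4 7)) (.rp 63 (.str 58 (.nv (.thr 26 31 (.thr 38 39 (.thr 50 14 (.dbl 54 6 62)))) (.nv (.thr 52 7 (.dbl 20 4 23)) .nd))) (.rp 58 (.str 63 (.nv (.thr 20 23 (.dbl 52 4 7)) (.rp 52 (.thr 20 23 (.thr 31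 26 (.thr 28 24 (.thr 29 30 (.dbl 25 17 19))))) (.rp 23 (.thr 52 7 (.thr 4 20 (.dbl 38 39 55))) (.rp 20 (.thr 7 52 (.thr 39 38 (.thr 55 23 (.thr 31 26 (.thr 15 47 (.dbl 51 27 59)))))) (.rp 7 (.thr 20 23 (.thr 4 52 (.dbl 38 39 55))) (.rp 4 (.thr 23 20 (.thr 7 52 (.dbl 39 38 55))) .nd))))))) (.rp 52 (.thr 20 23 (.thr 28 24 (.thr 19 25 (.thr 18 17 (.dbl 26 30 31))))) (.rp 23 (.thr 52 7 (.thr 4 20 (.dbl 38 39 55))) (.rp 20 (.thr 38 39 (.thr 6 54 (.thr 26 31 (.thr 30 18 (.thr 14 50 (.thr 62 46 (.dbl 2 10 42))))))) (.rp 7 (.thr 20 23 (.thr 4 52 (.dbl 38 39 55))) (.rp 4 (.thr 23 20 (.thr 7 52 (.dbl 39 38 55))) .nd))))))))) (.rp 23 (.thr 52 7 (.thr 4 20 (.dbl 38 39 55))) (.rp 20 (.thr 38 39 (.thr 54 6 (.thr 7 52 (.str 60 (.nv (.thr 51 57 (.thr 55 4 (.thr 63 59 (.thr 61 62 (.dbl 41 1 3)))))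 (.nv (.thr 41 3 (.thr 44 35 (.thr 32 40 (.thr 47 42 (.dbl 45 33 46))))) (.nv (.thr 51 57 (.thr 12 25 (.thr 44 28 (.dbl 41 3 35)))) (.rp 63 (.str 58 (.nv (.thr 51 57 (.thr 12 25 (.thr 44 28 (.dbl 41 3 35)))) (.nv (.thr 3 41 (.thr 15 11 (.thr 30 45 (.thr 26 18 (.dbl 50 14 62))))) (.rp 41 (.thr 62 50 (.thr 51 57 (.thr 42 2 (.thr 32 47 (.thr 44 40 (.dbl 12 25 28)))))) (.rp 32 (.str 16 (.nv (.thr 3 41 (.thr 51 57 (.thr 19 35 (.dbl 25 12 28)))) (.nv (.thr 50 62 (.dbl 26 14 31)) .nd))) (.rp 16 (.str 32 (.nv (.thr 62 50 (.dbl 42 2 47)) (.nv (.thr 44 40 (.dbl 41 3 35)) (.rp 28 (.str 24 (.nv (.thr 62 50 (.dbl 42 2 47)) (.nv (.thr 44 40 (.dbl 41 3 35)) .nd))) (.rp 24 (.str 28 (.nv (.thr 42 47 (.dbl 62 2 50)) (.nv (.dbl 44 12 40) .nd))) .nd))))) (.rp 3 (.thr 62 50 (.thr 51 57 (.thr 12 25 (.thr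 44 28 (.thr 32 40 (.dbl 42 2 47)))))) .nd))))))) (.rp 58 (.str 63 (.nv (.thr 55 4 (.dbl 51 57 59)) (.nv (.thr 61 62 (.dbl 41 1 3)) (.rp 32 (.str 16 (.nv (.thr 55 4 (.dbl 51 57 59)) (.nv (.thr 61 62 (.dbl 41 1 3)) .nd))) (.rp 16 (.str 32 (.nv (.thr 51 57 (.dbl 55 4 59)) (.nv (.thr 44 40 (.dbl 41 3 35)) (.rp 28 (.str 24 (.nv (.thr 51 57 (.dbl 55 4 59)) (.nv (.thr 44 40 (.dbl 41 3 35)) .nd))) (.rp 24 (.str 28 (.nv (.thr 42 47 (.dbl 62 2 61)) (.nv (.dbl 44 12 40) .nd))) .nd))))) .nd))))) (.rp 51 (.thr 3 41 (.thr 15 11 (.thr 30 45 (.thr 26 18 (.thr 50 14 (.thr 62 58 (.thr 63 61 (.dbl 31 16 47)))))))) (.rp 41 (.thr 51 57 (.thr 25 12 (.thr 28 19 (.thr 29 17 (.thr 30 31 (.thr 45 15 (.dbl 13 49 61))))))) (.rp 32 (.str 16 (.nv (.thr 26 31 (.thr 18 30 (.thr 17 19 (.thr 51 57 (.dbl 25 12 29)))))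 (.nv (.thr 3 41 (.thr 51 57 (.thr 19 35 (.dbl 25 12 28)))) (.nv (.thr 26 31 (.thr 30 18 (.thr 3 41 (.dbl 15 11 45)))) (.rp 63 (.str 58 (.nv (.thr 3 41 (.thr 51 57 (.thr 19 35 (.dbl 25 12 28)))) (.nv (.thr 50 62 (.dbl 26 14 31)) .nd))) (.rp 58 (.str 63 (.nv (.thr 55 4 (.dbl 51 57 59)) (.nv (.thr 61 62 (.dbl 41 1 3)) .nd))) .nd)))))) (.rp 16 (.str 32 (.nv (.thr 3 41 (.thr 51 57 (.thr 19 35 (.dbl 25 12 28)))) (.nv (.thr 44 40 (.thr 51 57 (.dbl 12 25 28))) (.nv (.thr 44 40 (.dbl 41 3 35)) (.rp 63 (.str 58 (.nv (.thr 62 50 (.dbl 42 2 47)) (.nv (.thr 44 40 (.dbl 41 3 35)) (.rp 28 (.str 24 (.nv (.thr 62 50 (.dbl 42 2 47)) (.nv (.thr 44 40 (.dbl 41 3 35)) .nd))) (.rp 24 (.str 28 (.nv (.thr 42 47 (.dbl 62 2 50)) (.nv (.dbl 44 12 40) .nd))) .nd))))) (.rp 58 (.str 63 (.nv (.thr 51 57 (.dbl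 55 4 59)) (.nv (.thr 44 40 (.dbl 41 3 35)) (.rp 28 (.str 24 (.nv (.thr 51 57 (.dbl 55 4 59)) (.nv (.thr 44 40 (.dbl 41 3 35)) .nd))) (.rp 24 (.str 28 (.nv (.thr 42 47 (.dbl 62 2 61)) (.nv (.dbl 44 12 40) .nd))) .nd))))) (.rp 28 (.str 24 (.nv (.thr 41 3 (.thr 33 45 (.thr 34 35 (.dbl 42 46 47)))) (.nv (.thr 44 40 (.dbl 41 3 35)) (.rp 63 (.str 58 (.nv (.thr 62 50 (.dbl 42 2 47)) (.nv (.thr 44 40 (.dbl 41 3 35)) .nd))) (.rp 58 (.str 63 (.nv (.thr 51 57 (.dbl 55 4 59)) (.nv (.thr 44 40 (.dbl 41 3 35)) .nd))) (.rp 41 (.thr 55 4 (.thr 51 57 (.thr 63 59 (.thr 42 47 (.dbl 62 2 61))))) (.rp 35 (.thr 41 3 (.thr 40 44 (.dbl 42 43 47))) (.rp 3 (.thr 44 40 (.thr 35 41 (.thr 42 47 (.dbl 34 33 46)))) .nd)))))))) (.rp 24 (.str 28 (.nv (.thr 3 41 (.thr 19 25 (.dbl 51 35 57))) (.nv (.dbl 44 12 40)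 (.rp 63 (.str 58 (.nv (.thr 42 47 (.dbl 62 2 50)) (.nv (.dbl 44 12 40) .nd))) (.rp 58 (.str 63 (.nv (.thr 42 47 (.dbl 62 2 61)) (.nv (.dbl 44 12 40) .nd))) .nd))))) .nd)))))))) (.rp 12 (.thr 51 57 (.thr 3 41 (.thr 19 35 (.thr 15 11 (.thr 30 45 (.thr 25 28 (.thr 17 29 (.dbl 18 16 26)))))))) (.rp 3 (.thr 55 4 (.thr 51 57 (.thr 63 59 (.thr 61 62 (.thr 12 25 (.thr 44 28 (.dbl 41 1 35))))))) .nd))))))))))))))) (.rp 16 (.str 32 (.nv (.thr 52 7 (.dbl 20 4 23)) (.rp 63 (.str 58 (.nv (.thr 38 39 (.thr 42 47 (.thr 54 6 (.dbl 62 2 50)))) (.nv (.thr 52 7 (.dbl 20 4 23)) .nd))) (.rp 58 (.str 63 (.nv (.thr 23 20 (.thr 39 38 (.thr 43 3 (.dbl 47 35 42)))) (.nv (.thr 52 7 (.dbl 20 4 23)) (.rp 23 (.thr 52 7 (.thr 4 20 (.dbl 38 39 55))) (.rp 20 (.thr 38 39 (.thr 42 47 (.thr 34 46 (.thr 35 33 (.dbl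 44 40 41))))) .nd))))) (.rp 52 (.thr 38 39 (.thr 44 40 (.thr 35 41 (.thr 34 33 (.dbl 42 46 47))))) (.rp 23 (.thr 52 7 (.thr 4 20 (.dbl 38 39 55))) (.rp 20 (.thr 38 39 (.thr 42 47 (.thr 34 46 (.thr 35 33 (.dbl 44 40 41))))) (.rp 7 (.thr 20 23 (.thr 4 52 (.dbl 38 39 55))) (.rp 4 (.thr 39 38 (.thr 7 52 (.dbl 23 20 55))) .nd))))))))) (.rp 7 (.thr 20 23 (.thr 4 52 (.dbl 38 39 55))) (.rp 4 (.thr 23 20 (.thr 7 52 (.dbl 39 38 55))) .nd))))))))))) (.rp 52 (.thr 20 23 (.str 49 (.nv (.thr 25 13 (.thr 28 19 (.thr 16 24 (.thr 29 17 (.dbl 31 26 30))))) (.nv (.thr 53 5 (.thr 61 57 (.thr 1 41 (.thr 25 13 (.dbl 17 29 33))))) (.rp 60 (.str 56 (.nv (.thr 13 25 (.thr 5 53 (.thr 1 9 (.thr 33 17 (.dbl 41 45 61))))) (.nv (.thr 25 13 (.thr 28 19 (.thr 16 24 (.thr 31 26 (.dbl 29 17 30))))) (.rp 32 (.str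 16 (.nv (.thr 26 31 (.thr 41 11 (.thr 1 61 (.dbl 33 17 45)))) (.nv (.thr 25 13 (.dbl 28 19 24)) (.rp 19 (.thr 24 28 (.thr 25 13 (.dbl 26 27 31))) .nd)))) (.rp 25 (.thr 53 5 (.thr 61 57 (.thr 41 1 (.thr 26 11 (.thr 33 45 (.thr 16 31 (.thr 24 28 (.thr 40 8 (.thr 42 43 (.thr 32 47 (.thr 35 34 (.dbl 44 36 38)))))))))))) (.rp 17 (.thr 53 5 (.thr 61 57 (.thr 41 1 (.thr 45 33 (.dbl 13 25 29))))) (.rp 16 (.str 32 (.nv (.thr 25 13 (.thr 17 29 (.thr 1 33 (.thr 42 47 (.thr 8 59 (.thr 40 24 (.dbl 41 43 61))))))) (.nv (.thr 5 53 (.thr 13 25 (.thr 1 9 (.thr 41 61 (.dbl 33 17 45))))) (.nv (.thr 25 13 (.thr 42 47 (.thr 59 8 (.thr 57 58 (.dbl 53 5 61))))) (.rp 61 (.thr 25 13 (.thr 42 47 (.thr 8 59 (.thr 40 24 (.thr 41 43 (.thr 9 57 (.dbl 11 10 26))))))) (.rp 25 (.thr 53 5 (.thr 61 57 (.thr 41 1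 (.thr 33 45 (.thr 35 34 (.thr 38 44 (.thr 39 36 (.dbl 47 42 43)))))))) (.rp 13 (.thr 53 5 (.thr 57 61 (.thr 58 59 (.thr 42 47 (.thr 62 2 (.thr 54 50 (.thr 38 6 (.thr 36 39 (.thr 44 40 (.thr 35 41 (.dbl 34 33 46))))))))))) .nd))))))) (.rp 13 (.str 16 (.nv (.thr 53 5 (.thr 26 31 (.thr 41 11 (.dbl 61 1 57)))) (.nv (.thr 28 24 (.thr 19 25 (.thr 26 31 (.dbl 18 17 30)))) (.rp 31 (.thr 53 5 (.thr 28 24 (.thr 19 25 (.thr 17 18 (.thr 61 57 (.dbl 1 33 41)))))) (.rp 26 (.thr 53 5 (.thr 28 24 (.thr 25 19 (.thr 61 57 (.thr 1 41 (.dbl 17 29 33)))))) (.rp 19 (.thr 53 5 (.thr 24 28 (.thr 61 57 (.thr 26 31 (.thr 27 25 (.dbl 41 1 11)))))) .nd)))))) .nd)))))))) (.rp 56 (.str 60 (.nv (.thr 25 13 (.thr 28 19 (.thr 16 24 (.thr 29 17 (.dbl 31 26 30))))) (.nv (.thr 41 3 (.thr 1 61 (.dbl 33 17 45))) (.rp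 32 (.str 16 (.nv (.thr 41 3 (.thr 1 61 (.dbl 33 17 45))) (.nv (.thr 25 13 (.dbl 28 19 24)) .nd))) (.rp 17 (.thr 53 5 (.thr 61 57 (.dbl 41 1 3))) (.rp 16 (.str 32 (.nv (.thr 42 47 (.thr 53 5 (.thr 61 57 (.dbl 62 2 63)))) (.nv (.thr 41 3 (.thr 1 61 (.dbl 33 17 45))) (.rp 63 (.thr 53 5 (.thr 61 57 (.dbl 41 1 3))) (.rp 61 (.thr 5 53 (.thr 41 3 (.thr 33 45 (.thr 1 17 (.dbl 13 9 25))))) .nd))))) .nd)))))) (.rp 32 (.str 16 (.nv (.thr 25 13 (.thr 17 29 (.thr 18 19 (.dbl 26 30 31)))) (.nv (.thr 25 13 (.dbl 28 19 24)) (.rp 60 (.str 56 (.nv (.thr 26 31 (.thr 41 11 (.thr 1 61 (.dbl 33 17 45)))) (.nv (.thr 25 13 (.dbl 28 19 24)) (.rp 19 (.thr 24 28 (.thr 25 13 (.dbl 26 27 31))) .nd)))) (.rp 56 (.str 60 (.nv (.thr 41 3 (.thr 1 61 (.dbl 33 17 45))) (.nv (.thr 25 13 (.dbl 28 19 24)) .nd))) (.rp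 25 (.thr 53 5 (.thr 61 57 (.thr 41 1 (.thr 24 28 (.thr 26 31 (.thr 56 11 (.thr 40 8 (.thr 42 43 (.thr 2 62 (.thr 10 58 (.thr 14 6 (.thr 50 38 (.dbl 18 30 34))))))))))))) (.rp 19 (.thr 25 13 (.thr 24 28 (.dbl 26 27 31))) (.rp 13 (.thr 28 24 (.thr 19 25 (.thr 18 17 (.dbl 26 30 31)))) .nd)))))))) (.rp 29 (.thr 5 53 (.thr 13 25 (.thr 1 9 (.thr 33 17 (.dbl 41 45 61))))) (.rp 25 (.str 41 (.nv (.thr 53 5 (.dbl 61 1 57)) (.nv (.thr 33 45 (.dbl 1 17 61)) (.rp 61 (.str 26 (.nv (.thr 18 30 (.thr 16 31 (.thr 33 45 (.dbl 17 1 19)))) (.nv (.thr 16 31 (.thr 33 45 (.thr 17 1 (.dbl 18 19 30)))) (.rp 60 (.thr 56 11 (.thr 33 45 (.thr 17 1 (.thr 16 31 (.dbl 18 19 30))))) (.rp 56 (.thr 60 3 (.thr 33 45 (.thr 18 30 (.thr 16 31 (.dbl 17 1 19))))) (.rp 45 (.thr 30 18 (.thr 56 11 (.thr 16 31 (.thr 24 28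 (.thr 40 8 (.thr 42 43 (.thr 62 2 (.thr 14 46 (.thr 50 38 (.dbl 58 10 54)))))))))) (.rp 33 (.thr 56 11 (.thr 16 31 (.thr 24 28 (.thr 40 8 (.thr 42 43 (.thr 10 58 (.thr 2 62 (.thr 14 6 (.thr 50 38 (.dbl 18 30 34)))))))))) (.rp 31 (.str 32 (.nv (.thr 18 30 (.thr 42 47 (.thr 2 62 (.thr 10 58 (.thr 14 6 (.dbl 50 34 38)))))) (.nv (.thr 45 33 (.thr 47 42 (.thr 44 46 (.thr 38 35 (.dbl 36 39 40))))) (.nv (.thr 33 45 (.thr 18 30 (.thr 34 35 (.thr 2 50 (.dbl 42 47 62))))) (.rp 60 (.thr 56 11 (.thr 33 45 (.thr 35 34 (.thr 44 38 (.thr 40 36 (.dbl 42 43 47)))))) (.rp 56 (.thr 60 3 (.thr 33 45 (.thr 18 30 (.thr 34 35 (.thr 2 50 (.dbl 42 47 62)))))) (.rp 47 (.thr 56 11 (.thr 33 45 (.thr 17 1 (.thr 18 30 (.thr 19 16 (.thr 35 34 (.dbl 3 51 60))))))) (.rp 42 (.thr 56 11 (.thr 33 45 (.thr 17 1 (.thr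 18 30 (.thr 19 16 (.thr 35 34 (.dbl 3 51 60))))))) (.rp 27 (.str 19 (.nv (.thr 3 60 (.thr 56 11 (.thr 35 51 (.dbl 33 34 45)))) (.nv (.thr 18 30 (.thr 17 16 (.dbl 33 1 45))) (.rp 60 (.thr 56 11 (.thr 18 30 (.thr 17 16 (.dbl 33 1 45)))) (.rp 56 (.thr 60 3 (.thr 18 30 (.thr 17 16 (.dbl 33 1 45)))) (.rp 45 (.thr 18 30 (.thr 17 16 (.thr 33 1 (.thr 35 34 (.dbl 3 51 60))))) (.rp 33 (.thr 42 47 (.thr 40 43 (.thr 44 36 (.thr 35 38 (.dbl 3 51 60))))) (.rp 17 (.thr 33 45 (.thr 3 60 (.thr 56 11 (.dbl 35 34 51)))) .nd)))))))) (.rp 19 (.str 27 (.nv (.thr 18 30 (.thr 33 45 (.thr 34 35 (.thr 2 50 (.dbl 42 47 62))))) (.nv (.thr 42 47 (.thr 43 40 (.dbl 11 56 59))) (.rp 60 (.thr 56 11 (.thr 42 47 (.thr 40 43 (.thr 33 45 (.thr 35 34 (.dbl 44 36 38)))))) (.rp 56 (.thr 60 3 (.thr 18 30 (.thr 42 47 (.thr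 33 45 (.thr 2 62 (.dbl 34 35 50)))))) (.rp 47 (.thr 18 30 (.thr 33 45 (.thr 34 35 (.thr 2 50 (.thr 42 62 (.thr 43 40 (.dbl 11 56 59))))))) (.rp 42 (.thr 33 45 (.thr 35 34 (.thr 38 44 (.thr 39 36 (.thr 60 3 (.thr 11 56 (.dbl 43 47 59))))))) (.rp 15 (.thr 60 3 (.thr 11 56 (.thr 43 59 (.dbl 42 40 47)))) .nd)))))))) (.rp 18 (.thr 33 45 (.thr 35 34 (.thr 44 38 (.thr 40 36 (.dbl 42 43 47))))) .nd))))))))))) (.rp 30 (.str 42 (.nv (.thr 56 11 (.thr 40 43 (.thr 24 8 (.dbl 16 28 31)))) (.nv (.thr 32 47 (.thr 33 45 (.thr 35 34 (.thr 44 38 (.dbl 40 36 43))))) (.nv (.thr 16 31 (.thr 40 43 (.thr 56 11 (.dbl 24 8 28)))) (.rp 56 (.thr 60 3 (.thr 32 47 (.thr 33 45 (.thr 35 34 (.thr 44 38 (.dbl 40 36 43)))))) (.rp 43 (.thr 16 31 (.thr 28 24 (.thr 47 32 (.thr 45 33 (.thr 44 46 (.dbl 60 3 12))))))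 (.rp 40 (.thr 16 31 (.thr 28 24 (.thr 47 32 (.thr 45 33 (.thr 44 46 (.dbl 60 3 12)))))) .nd))))))) (.rp 29 (.thr 30 18 (.thr 56 11 (.thr 16 31 (.thr 24 28 (.thr 40 8 (.thr 42 43 (.thr 62 2 (.thr 14 46 (.thr 50 38 (.dbl 58 10 54)))))))))) (.rp 27 (.thr 33 45 (.thr 17 1 (.thr 18 30 (.dbl 16 19 31)))) (.rp 19 (.thr 56 11 (.str 32 (.nv (.thr 31 16 (.thr 45 33 (.thr 47 42 (.thr 15 63 (.dbl 30 18 60))))) (.nv (.thr 18 30 (.thr 42 47 (.thr 2 62 (.thr 10 58 (.thr 14 6 (.dbl 50 34 38)))))) (.nv (.thr 33 45 (.thr 35 34 (.thr 44 38 (.thr 42 47 (.dbl 40 36 43))))) (.rp 47 (.thr 33 45 (.thr 35 34 (.thr 44 38 (.thr 40 36 (.thr 24 8 (.dbl 16 28 31)))))) (.rp 42 (.thr 33 45 (.thr 60 3 (.thr 35 34 (.thr 38 44 (.thr 50 14 (.thr 54 6 (.thr 58 62 (.dbl 57 51 59)))))))) (.rp 31 (.str 27 (.nv (.thr 3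 60 (.thr 45 33 (.thr 47 42 (.thr 44 46 (.thr 38 35 (.dbl 36 39 40)))))) (.nv (.thr 18 30 (.thr 42 47 (.thr 10 58 (.thr 2 62 (.thr 14 6 (.dbl 50 34 38)))))) (.nv (.thr 45 33 (.thr 47 42 (.thr 44 46 (.thr 36 40 (.dbl 38 35 39))))) (.rp 47 (.thr 33 45 (.thr 35 34 (.thr 44 38 (.thr 40 36 (.thr 60 3 (.thr 24 8 (.dbl 28 12 16))))))) (.rp 42 (.thr 33 45 (.thr 35 34 (.thr 38 44 (.thr 39 36 (.thr 60 3 (.thr 54 6 (.dbl 51 15 57))))))) (.rp 38 (.thr 18 30 (.thr 42 47 (.thr 33 45 (.thr 34 35 (.dbl 2 50 62))))) .nd))))))) .nd)))))))) (.rp 18 (.thr 33 45 (.thr 56 11 (.thr 16 31 (.thr 24 28 (.thr 40 8 (.thr 42 43 (.thr 32 47 (.thr 44 36 (.dbl 35 34 38))))))))) (.rp 17 (.thr 33 45 (.thr 56 11 (.thr 16 31 (.thr 24 28 (.thr 40 8 (.thr 42 43 (.thr 32 47 (.thr 44 36 (.dbl 35 34 38))))))))) (.rp 16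 (.str 32 (.nv (.thr 18 30 (.thr 42 47 (.thr 2 62 (.thr 10 58 (.thr 14 6 (.dbl 50 34 38)))))) (.nv (.thr 42 47 (.thr 40 43 (.thr 44 36 (.thr 35 38 (.dbl 33 34 45))))) (.nv (.thr 33 45 (.thr 18 30 (.thr 34 35 (.thr 2 50 (.dbl 42 47 62))))) (.rp 60 (.thr 56 11 (.thr 33 45 (.thr 35 34 (.thr 44 38 (.thr 40 36 (.dbl 42 43 47)))))) (.rp 56 (.thr 60 3 (.thr 33 45 (.thr 18 30 (.thr 34 35 (.thr 2 50 (.dbl 42 47 62)))))) (.rp 47 (.str 44 (.nv (.thr 56 11 (.thr 33 45 (.dbl 35 34 38))) (.nv (.thr 36 40 (.dbl 38 35 39)) (.rp 56 (.thr 60 3 (.thr 36 40 (.dbl 38 35 39))) (.rp 38 (.thr 40 36 (.thr 33 45 (.thr 18 30 (.thr 34 35 (.thr 2 50 (.dbl 42 43 62)))))) (.rp 35 (.thr 36 40 (.thr 33 45 (.thr 1 17 (.thr 5 53 (.thr 13 9 (.thr 18 30 (.thr 60 3 (.thr 12 28 (.thr 11 56 (.thr 14 15 (.dbl 38 39 50)))))))))))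 .nd)))))) (.rp 42 (.thr 60 3 (.thr 33 45 (.thr 56 11 (.thr 35 34 (.thr 38 44 (.thr 50 14 (.thr 54 6 (.thr 58 62 (.dbl 57 51 59))))))))) (.rp 34 (.thr 45 33 (.thr 47 42 (.thr 44 46 (.thr 38 35 (.dbl 36 39 40))))) .nd))))))))) (.rp 13 (.thr 56 11 (.thr 16 31 (.thr 24 28 (.thr 40 8 (.thr 42 43 (.thr 32 47 (.thr 44 36 (.thr 35 38 (.dbl 33 34 45))))))))) (.rp 1 (.thr 33 45 (.thr 56 11 (.thr 16 31 (.thr 24 28 (.thr 40 8 (.thr 42 43 (.thr 32 47 (.thr 44 36 (.dbl 35 34 38))))))))) .nd))))))))))))))))) (.rp 60 (.str 56 (.nv (.thr 1 61 (.dbl 33 17 45)) (.nv (.thr 53 5 (.dbl 61 1 57)) (.rp 61 (.thr 33 45 (.thr 17 1 (.thr 26 11 (.thr 16 31 (.dbl 18 19 30))))) (.rp 32 (.str 16 (.nv (.thr 1 61 (.dbl 33 17 45)) (.nv (.dbl 26 11 31) .nd))) (.rp 16 (.str 32 (.nv (.thr 1 61 (.dbl 33 17 45)) (.nv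 (.thr 53 5 (.dbl 61 1 57)) (.rp 61 (.thr 33 45 (.thr 35 34 (.thr 44 38 (.thr 40 36 (.dbl 42 43 47))))) (.rp 1 (.thr 53 5 (.thr 57 61 (.thr 26 11 (.thr 58 59 (.dbl 42 10 47))))) .nd))))) (.rp 1 (.thr 53 5 (.thr 57 61 (.thr 26 11 (.thr 58 59 (.thr 16 31 (.thr 24 28 (.thr 40 8 (.dbl 42 10 43)))))))) .nd))))))) (.rp 56 (.thr 60 3 (.thr 53 5 (.dbl 61 1 57))) (.rp 32 (.str 16 (.nv (.thr 53 5 (.dbl 61 1 57)) (.nv (.thr 33 45 (.dbl 1 17 61)) (.rp 61 (.thr 33 45 (.thr 17 1 (.thr 18 19 (.dbl 26 30 31)))) (.rp 60 (.str 56 (.nv (.thr 1 61 (.dbl 33 17 45)) (.nv (.dbl 26 11 31) .nd))) (.rp 56 (.thr 60 3 (.thr 53 5 (.dbl 61 1 57))) (.rp 1 (.thr 53 5 (.thr 24 28 (.thr 57 61 (.thr 26 31 (.thr 56 11 (.thr 40 8 (.thr 58 59 (.dbl 42 10 43)))))))) .nd))))))) (.rp 16 (.str 32 (.nv (.thr 53 5 (.dbl 61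 1 57)) (.nv (.thr 33 45 (.dbl 1 17 61)) (.rp 61 (.thr 33 45 (.thr 35 34 (.thr 38 44 (.thr 39 36 (.dbl 47 42 43))))) (.rp 60 (.str 56 (.nv (.thr 1 61 (.dbl 33 17 45)) (.nv (.thr 53 5 (.dbl 61 1 57)) (.rp 61 (.thr 33 45 (.thr 35 34 (.thr 44 38 (.thr 40 36 (.dbl 42 43 47))))) (.rp 1 (.thr 53 5 (.thr 57 61 (.thr 26 11 (.thr 58 59 (.dbl 42 10 47))))) .nd))))) (.rp 56 (.thr 60 3 (.thr 53 5 (.dbl 61 1 57))) (.rp 1 (.thr 33 45 (.thr 35 34 (.thr 38 44 (.thr 39 36 (.dbl 47 42 43))))) .nd))))))) (.rp 1 (.str 42 (.nv (.thr 2 62 (.thr 32 47 (.thr 33 45 (.thr 35 34 (.thr 44 38 (.dbl 40 36 43)))))) (.nv (.thr 32 47 (.thr 40 43 (.thr 33 45 (.thr 44 36 (.dbl 35 34 38))))) (.nv (.thr 32 47 (.thr 33 45 (.thr 35 34 (.thr 40 43 (.dbl 44 36 38))))) (.rp 60 (.str 56 (.nv (.thr 32 47 (.thr 33 45 (.thr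 35 34 (.thr 44 38 (.dbl 40 36 43))))) (.nv (.thr 32 47 (.thr 26 11 (.thr 53 5 (.thr 57 61 (.dbl 58 10 59))))) (.nv (.thr 40 43 (.thr 24 8 (.thr 16 28 (.dbl 26 11 31)))) (.rp 32 (.str 16 (.nv (.thr 2 62 (.thr 24 28 (.dbl 40 8 43))) (.nv (.dbl 26 11 31) (.rp 2 (.str 3 (.nv (.thr 24 28 (.dbl 40 8 43)) (.nv (.dbl 26 11 31) .nd))) .nd)))) (.rp 3 (.thr 2 62 (.thr 26 11 (.thr 58 10 (.thr 57 59 (.dbl 53 5 61))))) (.rp 2 (.str 3 (.nv (.thr 32 47 (.thr 40 43 (.thr 44 36 (.thr 35 38 (.dbl 33 34 45))))) (.nv (.thr 32 47 (.thr 26 11 (.thr 53 5 (.thr 57 61 (.dbl 58 10 59))))) (.nv (.thr 40 43 (.thr 24 8 (.thr 16 28 (.dbl 26 11 31)))) (.rp 32 (.str 16 (.nv (.thr 24 28 (.dbl 40 8 43)) (.nv (.dbl 26 11 31) .nd))) .nd))))) .nd))))))) (.rp 56 (.thr 60 3 (.thr 2 62 (.thr 33 45 (.thr 32 47 (.thr 35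 34 (.thr 44 38 (.dbl 40 36 43))))))) (.rp 47 (.thr 53 5 (.thr 60 3 (.thr 2 62 (.thr 57 61 (.thr 54 51 (.thr 38 6 (.thr 34 46 (.thr 18 50 (.thr 45 33 (.dbl 30 15 26)))))))))) (.rp 45 (.thr 53 5 (.thr 43 40 (.thr 60 3 (.thr 2 62 (.thr 57 61 (.thr 54 51 (.thr 38 6 (.thr 39 36 (.dbl 35 44 47))))))))) (.rp 44 (.thr 53 5 (.thr 60 3 (.thr 2 62 (.thr 57 61 (.thr 54 51 (.thr 38 6 (.thr 34 46 (.thr 18 50 (.thr 45 33 (.dbl 30 15 26)))))))))) (.rp 43 (.thr 3 60 (.str 56 (.nv (.thr 26 11 (.thr 30 18 (.thr 45 33 (.thr 62 2 (.thr 46 14 (.dbl 47 32 44)))))) (.nv (.thr 53 5 (.thr 26 11 (.thr 57 61 (.dbl 58 10 59)))) (.rp 62 (.thr 53 5 (.thr 26 11 (.thr 61 57 (.thr 45 33 (.thr 32 47 (.thr 30 18 (.thr 31 16 (.dbl 29 13 28)))))))) (.rp 59 (.thr 5 53 (.thr 11 26 (.thr 2 62 (.thr 7 15 (.thr 6 4 (.thr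 10 14 (.dbl 9 8 12))))))) (.rp 32 (.str 16 (.nv (.dbl 26 11 31) (.rp 31 (.thr 53 5 (.thr 26 11 (.thr 57 61 (.dbl 58 10 59)))) (.rp 26 (.str 38 (.nv (.thr 35 44 (.thr 34 46 (.thr 19 51 (.thr 18 17 (.dbl 2 50 62))))) (.nv (.thr 53 5 (.thr 54 6 (.thr 57 61 (.thr 58 59 (.dbl 62 2 50))))) (.nv (.thr 2 62 (.thr 34 46 (.thr 18 50 (.thr 19 17 (.dbl 35 44 51))))) (.rp 62 (.thr 36 39 (.thr 55 4 (.thr 53 5 (.thr 6 54 (.thr 35 44 (.thr 51 19 (.thr 57 61 (.thr 63 59 (.thr 33 45 (.thr 46 34 (.dbl 12 9 29))))))))))) (.rp 54 (.thr 55 4 (.thr 53 5 (.thr 57 61 (.thr 59 58 (.thr 35 44 (.dbl 51 19 63)))))) (.rp 50 (.thr 36 39 (.thr 55 4 (.thr 53 5 (.thr 6 54 (.thr 57 61 (.thr 59 58 (.thr 62 2 (.thr 51 63 (.dbl 35 19 44))))))))) (.rp 27 (.thr 24 28 (.thr 53 5 (.thr 54 6 (.thr 57 61 (.thr 62 2 (.dbl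 58 50 59)))))) (.rp 24 (.str 27 (.nv (.thr 2 62 (.thr 34 46 (.thr 18 50 (.thr 19 17 (.dbl 35 44 51))))) (.nv (.thr 35 44 (.thr 51 19 (.dbl 39 15 36))) (.rp 51 (.thr 54 6 (.thr 53 5 (.thr 62 2 (.thr 58 50 (.dbl 57 59 61))))) (.rp 44 (.thr 54 6 (.thr 53 5 (.thr 62 2 (.thr 58 50 (.dbl 57 59 61))))) (.rp 36 (.str 12 (.nv (.dbl 6 9 54) (.rp 54 (.thr 55 4 (.thr 46 34 (.thr 63 29 (.thr 51 59 (.dbl 35 19 44))))) (.rp 44 (.str 40 (.nv (.dbl 6 9 54) (.rp 54 (.thr 53 5 (.thr 55 4 (.thr 46 34 (.thr 57 61 (.thr 59 58 (.dbl 63 29 51)))))) (.rp 9 (.thr 54 6 (.thr 62 2 (.thr 58 50 (.thr 57 59 (.dbl 53 5 61))))) (.rp 6 (.thr 53 5 (.thr 46 34 (.thr 61 57 (.thr 29 63 (.dbl 45 13 33))))) .nd))))) (.rp 40 (.thr 44 35 (.dbl 6 9 54)) (.rp 9 (.thr 54 6 (.thr 62 2 (.thr 58 50 (.thr 57 59 (.dbl 53 5 61)))))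 (.rp 6 (.thr 53 5 (.thr 46 34 (.thr 61 57 (.thr 29 63 (.dbl 45 13 33))))) .nd))))))) (.rp 35 (.thr 54 6 (.thr 53 5 (.thr 62 2 (.thr 58 50 (.dbl 57 59 61))))) (.rp 19 (.thr 54 6 (.thr 53 5 (.thr 62 2 (.thr 58 50 (.dbl 57 59 61))))) (.rp 12 (.thr 36 39 (.thr 54 6 (.thr 53 5 (.thr 62 2 (.thr 58 50 (.dbl 57 59 61)))))) .nd))))))))) (.rp 2 (.thr 55 4 (.thr 53 5 (.thr 57 61 (.thr 59 58 (.thr 35 44 (.dbl 51 19 63)))))) .nd)))))))))) (.rp 11 (.thr 53 5 (.thr 57 61 (.thr 26 31 (.dbl 58 10 59)))) .nd))))) (.rp 27 (.thr 33 45 (.thr 32 47 (.thr 35 34 (.thr 44 38 (.thr 40 36 (.thr 24 8 (.thr 16 28 (.dbl 26 11 31)))))))) (.rp 26 (.thr 53 5 (.thr 57 61 (.thr 58 59 (.thr 62 2 (.thr 54 50 (.thr 38 6 (.thr 35 44 (.thr 33 45 (.dbl 32 34 47))))))))) (.rp 16 (.thr 32 47 (.thr 53 5 (.thr 26 11 (.thr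 57 61 (.dbl 58 10 59))))) (.rp 11 (.thr 53 5 (.thr 57 61 (.thr 59 58 (.thr 62 2 (.thr 33 45 (.thr 32 47 (.thr 35 34 (.thr 51 19 (.thr 55 63 (.dbl 38 4 44)))))))))) (.rp 10 (.thr 26 11 (.thr 2 62 (.thr 32 47 (.thr 18 30 (.thr 34 50 (.dbl 33 35 45)))))) .nd)))))))))))) (.rp 40 (.thr 53 5 (.thr 60 3 (.thr 2 62 (.thr 57 61 (.thr 54 51 (.thr 38 6 (.thr 35 44 (.thr 33 45 (.dbl 32 34 47))))))))) (.rp 38 (.thr 53 5 (.thr 57 61 (.thr 2 62 (.thr 33 45 (.thr 32 47 (.thr 34 35 (.thr 18 50 (.thr 26 30 (.thr 56 11 (.dbl 58 10 59)))))))))) (.rp 36 (.thr 53 5 (.thr 60 3 (.thr 2 62 (.thr 57 61 (.thr 54 51 (.thr 38 6 (.thr 35 44 (.thr 33 45 (.dbl 32 34 47))))))))) (.rp 35 (.str 26 (.nv (.thr 56 11 (.thr 58 10 (.thr 57 59 (.dbl 53 5 61)))) (.nv (.thr 2 62 (.thr 10 58 (.thr 14 6 (.thr 18 30 (.dbl 50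 34 38))))) (.nv (.thr 16 31 (.thr 24 28 (.thr 56 11 (.dbl 40 8 43)))) (.rp 56 (.thr 60 3 (.thr 2 62 (.thr 18 30 (.thr 50 34 (.thr 10 58 (.dbl 14 6 38)))))) (.rp 16 (.thr 32 47 (.thr 56 11 (.thr 58 10 (.thr 57 59 (.dbl 53 5 61))))) (.rp 2 (.thr 3 60 (.thr 56 11 (.thr 16 31 (.thr 24 28 (.dbl 40 8 43))))) .nd))))))) (.rp 34 (.thr 32 47 (.thr 2 62 (.str 56 (.nv (.thr 26 11 (.thr 58 10 (.thr 57 59 (.dbl 53 5 61)))) (.nv (.thr 40 43 (.thr 24 8 (.thr 28 16 (.thr 44 36 (.dbl 60 3 12))))) (.nv (.thr 53 5 (.thr 26 11 (.thr 57 61 (.dbl 58 10 59)))) (.rp 51 (.str 17 (.nv (.thr 26 11 (.thr 53 5 (.thr 57 61 (.dbl 58 10 59)))) (.nv (.thr 26 11 (.thr 18 30 (.dbl 16 19 31))) (.rp 38 (.str 12 (.nv (.thr 40 43 (.thr 44 36 (.dbl 60 3 28))) (.nv (.thr 26 11 (.thr 18 30 (.dbl 16 19 31))) .nd))) (.rp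 26 (.thr 40 43 (.thr 24 8 (.thr 44 36 (.thr 28 16 (.dbl 60 3 12))))) (.rp 12 (.str 38 (.nv (.thr 6 54 (.thr 10 14 (.dbl 26 11 58))) (.nv (.thr 40 43 (.dbl 36 39 44)) (.rp 36 (.str 24 (.nv (.thr 4 55 (.thr 16 28 (.dbl 26 11 31))) (.nv (.dbl 40 8 43) (.rp 4 (.thr 8 40 (.thr 26 11 (.dbl 16 28 31))) .nd)))) (.rp 24 (.thr 36 39 (.dbl 40 43 44)) (.rp 8 (.thr 4 55 (.thr 40 43 (.dbl 36 39 44))) (.rp 4 (.str 8 (.nv (.thr 6 54 (.thr 10 14 (.dbl 11 9 26))) (.nv (.dbl 40 24 43) (.rp 36 (.thr 24 40 (.thr 26 11 (.dbl 16 28 31))) (.rp 24 (.thr 36 39 (.dbl 40 43 44)) .nd))))) .nd))))))) (.rp 11 (.thr 40 43 (.thr 24 8 (.thr 44 36 (.thr 28 16 (.dbl 60 3 12))))) .nd))))))) (.rp 17 (.str 51 (.nv (.thr 26 11 (.thr 16 31 (.thr 24 28 (.dbl 40 8 43)))) (.nv (.thr 53 5 (.thr 57 61 (.dbl 60 3 54))) (.rp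 15 (.thr 60 3 (.thr 57 54 (.dbl 53 5 61))) .nd)))) .nd)))))))) (.rp 33 (.thr 32 47 (.thr 2 62 (.str 26 (.nv (.thr 56 11 (.thr 16 31 (.thr 40 43 (.dbl 24 8 28)))) (.nv (.thr 18 30 (.thr 50 34 (.thr 14 38 (.dbl 10 6 58)))) (.rp 56 (.thr 60 3 (.thr 18 30 (.thr 50 34 (.thr 10 58 (.dbl 14 6 38))))) (.rp 18 (.thr 3 60 (.thr 56 11 (.thr 40 43 (.thr 24 8 (.dbl 16 28 31))))) .nd))))))) (.rp 32 (.str 16 (.nv (.thr 24 28 (.thr 26 31 (.thr 56 11 (.dbl 40 8 43)))) (.nv (.thr 2 62 (.thr 26 31 (.thr 10 58 (.thr 14 6 (.thr 50 38 (.dbl 18 30 34)))))) (.nv (.thr 40 43 (.thr 24 28 (.thr 56 8 (.dbl 26 11 31)))) (.rp 60 (.str 56 (.nv (.thr 2 62 (.thr 24 28 (.dbl 40 8 43))) (.nv (.dbl 26 11 31) (.rp 2 (.str 3 (.nv (.thr 24 28 (.dbl 40 8 43)) (.nv (.dbl 26 11 31) .nd))) .nd)))) (.rp 56 (.thr 60 3 (.thr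 2 62 (.thr 26 31 (.thr 10 58 (.thr 18 30 (.thr 50 34 (.dbl 14 6 38))))))) (.rp 31 (.thr 53 5 (.thr 40 43 (.thr 57 61 (.thr 24 28 (.thr 56 8 (.thr 58 59 (.dbl 26 10 11))))))) (.rp 26 (.thr 53 5 (.thr 60 3 (.thr 2 62 (.thr 57 61 (.thr 54 51 (.thr 38 6 (.thr 34 46 (.thr 18 50 (.thr 19 17 (.thr 44 35 (.dbl 28 12 24))))))))))) (.rp 2 (.thr 3 60 (.str 56 (.nv (.thr 24 28 (.dbl 40 8 43)) (.nv (.dbl 26 11 31) .nd)))) .nd))))))))) (.rp 2 (.thr 3 60 (.str 56 (.nv (.thr 32 47 (.thr 40 43 (.thr 44 36 (.thr 35 38 (.dbl 33 34 45))))) (.nv (.thr 32 47 (.thr 26 11 (.thr 53 5 (.thr 57 61 (.dbl 58 10 59))))) (.nv (.thr 40 43 (.thr 24 8 (.thr 16 28 (.dbl 26 11 31)))) (.rp 32 (.str 16 (.nv (.thr 24 28 (.dbl 40 8 43)) (.nv (.dbl 26 11 31) .nd))) .nd)))))) .nd)))))))))))))))))) .nd))))))))) (.rp 17 (.thr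 53 5 (.thr 61 57 (.thr 41 1 (.thr 45 33 (.dbl 13 25 29))))) (.rp 16 (.str 32 (.nv (.thr 25 13 (.thr 17 29 (.thr 19 28 (.thr 33 1 (.thr 35 34 (.thr 3 51 (.dbl 41 45 60))))))) (.nv (.thr 42 47 (.thr 53 5 (.thr 61 57 (.thr 62 2 (.thr 60 63 (.dbl 41 1 3)))))) (.nv (.thr 53 5 (.thr 61 57 (.thr 1 41 (.thr 25 13 (.dbl 17 29 33))))) (.rp 61 (.thr 5 53 (.thr 13 25 (.thr 1 9 (.thr 33 17 (.thr 41 45 (.thr 42 47 (.thr 40 43 (.thr 44 36 (.dbl 35 34 38))))))))) (.rp 60 (.str 56 (.nv (.thr 25 13 (.thr 17 29 (.thr 1 33 (.thr 42 47 (.thr 8 59 (.thr 40 24 (.dbl 41 43 61))))))) (.nv (.thr 5 53 (.thr 13 25 (.thr 1 9 (.thr 41 61 (.dbl 33 17 45))))) (.nv (.thr 25 13 (.thr 42 47 (.thr 59 8 (.thr 57 58 (.dbl 53 5 61))))) (.rp 61 (.thr 25 13 (.thr 42 47 (.thr 8 59 (.thr 40 24 (.thr 41 43 (.thr 9 57 (.dbl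 11 10 26))))))) (.rp 25 (.thr 53 5 (.thr 61 57 (.thr 41 1 (.thr 33 45 (.thr 35 34 (.thr 38 44 (.thr 39 36 (.dbl 47 42 43)))))))) (.rp 13 (.thr 53 5 (.thr 57 61 (.thr 58 59 (.thr 42 47 (.thr 62 2 (.thr 54 50 (.thr 38 6 (.thr 36 39 (.thr 44 40 (.thr 35 41 (.dbl 34 33 46))))))))))) .nd))))))) (.rp 56 (.str 60 (.nv (.thr 42 47 (.thr 53 5 (.thr 61 57 (.dbl 62 2 63)))) (.nv (.thr 41 3 (.thr 1 61 (.dbl 33 17 45))) (.rp 63 (.thr 53 5 (.thr 61 57 (.dbl 41 1 3))) (.rp 61 (.thr 5 53 (.thr 41 3 (.thr 33 45 (.thr 1 17 (.dbl 13 9 25))))) .nd))))) (.rp 41 (.thr 25 13 (.thr 17 29 (.thr 33 1 (.thr 34 35 (.thr 42 47 (.thr 38 46 (.thr 6 54 (.thr 2 62 (.thr 50 18 (.dbl 14 10 26)))))))))) (.rp 5 (.thr 25 13 (.thr 17 29 (.thr 1 33 (.thr 61 41 (.thr 57 53 (.thr 42 47 (.thr 62 2 (.thr 59 8 (.thr 60 63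 (.thr 58 56 (.dbl 54 50 51))))))))))) (.rp 1 (.thr 53 5 (.thr 61 57 (.thr 13 25 (.thr 45 29 (.thr 41 33 (.thr 47 42 (.thr 44 46 (.thr 38 35 (.dbl 36 39 40))))))))) .nd)))))))))) (.rp 13 (.str 16 (.nv (.thr 28 24 (.thr 53 5 (.thr 61 57 (.thr 1 41 (.thr 17 33 (.dbl 19 18 25)))))) (.nv (.thr 26 31 (.thr 53 5 (.thr 61 57 (.thr 1 41 (.thr 17 33 (.dbl 18 19 30)))))) (.nv (.thr 28 24 (.thr 19 25 (.thr 26 31 (.dbl 18 17 30)))) (.rp 60 (.str 56 (.nv (.thr 53 5 (.thr 26 31 (.thr 41 11 (.dbl 61 1 57)))) (.nv (.thr 28 24 (.thr 19 25 (.thr 26 31 (.dbl 18 17 30)))) (.rp 31 (.thr 53 5 (.thr 28 24 (.thr 19 25 (.thr 17 18 (.thr 61 57 (.dbl 1 33 41)))))) (.rp 26 (.thr 53 5 (.thr 28 24 (.thr 25 19 (.thr 61 57 (.thr 1 41 (.dbl 17 29 33)))))) (.rp 19 (.thr 53 5 (.thr 24 28 (.thr 61 57 (.thr 26 31 (.thr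 27 25 (.dbl 41 1 11)))))) .nd)))))) (.rp 56 (.str 60 (.nv (.thr 53 5 (.thr 61 57 (.dbl 41 1 3))) (.nv (.thr 26 31 (.thr 18 30 (.thr 28 24 (.dbl 19 17 25)))) (.nv (.thr 41 3 (.thr 1 61 (.dbl 33 17 45))) .nd)))) (.rp 25 (.str 60 (.nv (.thr 26 31 (.thr 30 18 (.thr 45 15 (.dbl 41 3 33)))) (.nv (.thr 41 3 (.thr 1 61 (.dbl 33 17 45))) (.nv (.thr 53 5 (.thr 61 57 (.dbl 41 1 3))) (.rp 41 (.thr 53 5 (.thr 26 31 (.thr 18 30 (.thr 57 61 (.thr 54 51 (.thr 38 6 (.thr 50 14 (.thr 62 58 (.dbl 2 34 42))))))))) (.rp 3 (.thr 53 5 (.thr 28 24 (.thr 12 44 (.thr 61 57 (.thr 63 62 (.thr 29 46 (.dbl 31 26 30))))))) .nd)))))) (.rp 19 (.thr 53 5 (.thr 61 57 (.thr 1 41 (.thr 17 33 (.thr 25 29 (.thr 24 28 (.dbl 26 27 31))))))) (.rp 18 (.thr 28 24 (.thr 25 19 (.thr 29 17 (.dbl 31 26 30)))) (.rp 17 (.str 60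 (.nv (.thr 28 24 (.thr 31 26 (.thr 41 3 (.thr 30 29 (.dbl 45 15 33))))) (.nv (.thr 53 5 (.thr 61 57 (.dbl 41 1 3))) (.rp 51 (.str 34 (.nv (.thr 26 31 (.thr 30 18 (.thr 45 15 (.dbl 41 3 33)))) (.nv (.thr 28 24 (.thr 41 3 (.thr 33 45 (.thr 35 32 (.dbl 44 12 38))))) (.nv (.thr 53 5 (.thr 61 57 (.dbl 41 1 3))) (.rp 41 (.thr 53 5 (.thr 61 57 (.thr 62 63 (.thr 2 42 (.thr 18 50 (.dbl 26 30 31)))))) (.rp 3 (.thr 53 5 (.thr 61 57 (.thr 26 31 (.thr 18 30 (.thr 2 50 (.dbl 62 42 63)))))) .nd)))))) (.rp 41 (.thr 53 5 (.thr 28 24 (.thr 12 44 (.thr 25 19 (.thr 57 61 (.dbl 51 38 54)))))) (.rp 34 (.str 51 (.nv (.thr 3 41 (.thr 19 35 (.dbl 28 24 25))) (.nv (.thr 57 54 (.dbl 53 5 61)) .nd))) (.rp 15 (.thr 28 24 (.thr 25 19 (.thr 41 3 (.thr 57 9 (.dbl 53 5 61))))) (.rp 3 (.thr 53 5 (.thr 28 24 (.thr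 12 44 (.thr 25 19 (.thr 51 38 (.dbl 57 54 61)))))) (.rp 1 (.thr 26 31 (.thr 30 18 (.thr 45 15 (.dbl 41 3 33)))) .nd))))))))) .nd)))))))))) .nd)))))))))))) (.rp 38 (.thr 52 7 (.str 25 (.nv (.thr 5 53 (.thr 13 49 (.thr 1 9 (.thr 29 17 (.dbl 61 41 45))))) (.nv (.thr 17 29 (.thr 23 20 (.thr 19 28 (.thr 31 27 (.dbl 16 18 26))))) (.rp 32 (.str 16 (.nv (.thr 20 23 (.thr 24 28 (.dbl 26 27 31))) (.nv (.thr 17 29 (.dbl 19 18 28)) (.rp 28 (.thr 17 29 (.thr 18 19 (.dbl 26 30 31))) .nd)))) (.rp 29 (.thr 53 5 (.thr 49 13 (.thr 61 57 (.thr 1 41 (.thr 17 33 (.thr 19 28 (.thr 23 20 (.thr 31 27 (.dbl 16 18 26))))))))) (.rp 17 (.thr 5 53 (.thr 13 49 (.thr 1 9 (.thr 61 41 (.thr 29 45 (.thr 28 19 (.thr 20 23 (.thr 16 24 (.dbl 31 26 30))))))))) (.rp 16 (.str 32 (.nv (.thr 17 29 (.thr 53 5 (.thr 49 13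 (.thr 61 57 (.dbl 1 33 41))))) (.nv (.thr 17 29 (.thr 49 13 (.thr 1 33 (.thr 61 41 (.dbl 53 5 57))))) (.rp 61 (.thr 5 53 (.thr 49 13 (.thr 29 17 (.thr 19 28 (.thr 20 23 (.thr 36 4 (.thr 40 44 (.thr 42 47 (.thr 2 62 (.thr 41 43 (.thr 9 57 (.thr 45 33 (.thr 8 59 (.thr 56 24 (.dbl 11 10 26))))))))))))))) (.rp 57 (.thr 5 53 (.thr 29 17 (.thr 13 49 (.thr 61 45 (.dbl 1 9 41))))) (.rp 53 (.thr 49 13 (.thr 17 29 (.thr 33 1 (.thr 19 28 (.thr 35 34 (.thr 3 51 (.dbl 41 45 60))))))) (.rp 49 (.thr 29 17 (.thr 20 23 (.thr 36 4 (.thr 44 40 (.thr 47 42 (.thr 46 45 (.thr 12 63 (.dbl 28 19 60)))))))) (.rp 41 (.thr 20 23 (.thr 36 4 (.thr 44 40 (.thr 13 49 (.thr 29 17 (.thr 45 61 (.dbl 47 42 46))))))) (.rp 33 (.thr 5 53 (.thr 13 49 (.thr 1 9 (.thr 29 17 (.dbl 61 41 45))))) (.rp 29 (.thr 53 5 (.thr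 49 13 (.thr 61 57 (.thr 42 47 (.thr 62 2 (.thr 60 63 (.dbl 41 1 3))))))) (.rp 17 (.thr 53 5 (.thr 49 13 (.thr 61 57 (.thr 42 47 (.thr 62 2 (.thr 60 63 (.dbl 41 1 3))))))) (.rp 13 (.thr 29 17 (.thr 20 23 (.thr 36 4 (.thr 44 40 (.thr 47 42 (.thr 46 45 (.thr 12 63 (.dbl 28 19 60)))))))) (.rp 5 (.thr 13 49 (.thr 29 17 (.thr 61 45 (.thr 42 47 (.thr 62 2 (.thr 60 63 (.dbl 41 1 3))))))) (.rp 1 (.thr 5 53 (.thr 49 13 (.thr 17 29 (.thr 28 19 (.thr 20 23 (.thr 36 4 (.thr 40 44 (.thr 42 47 (.thr 2 62 (.thr 41 43 (.thr 9 57 (.thr 45 33 (.thr 3 60 (.thr 12 6 (.thr 8 59 (.thr 56 24 (.dbl 11 10 26))))))))))))))))) .nd)))))))))))))) .nd)))))))) (.rp 32 (.str 16 (.nv (.thr 5 53 (.thr 7 52 (.thr 4 6 (.thr 23 20 (.dbl 55 38 39))))) (.nv (.thr 20 23 (.thr 28 24 (.thr 19 25 (.thr 26 31 (.dbl 18 17 30)))))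 (.rp 23 (.thr 53 5 (.thr 52 7 (.thr 55 54 (.thr 4 38 (.thr 20 36 (.thr 26 31 (.thr 18 30 (.thr 19 17 (.dbl 28 24 25))))))))) (.rp 20 (.thr 5 53 (.thr 7 52 (.thr 4 6 (.thr 55 38 (.thr 23 39 (.thr 31 26 (.thr 19 27 (.thr 17 18 (.dbl 25 28 29))))))))) .nd))))) (.rp 23 (.str 4 (.nv (.thr 52 7 (.thr 36 20 (.dbl 38 39 55))) (.nv (.thr 5 53 (.dbl 7 6 52)) (.rp 52 (.thr 5 53 (.thr 6 7 (.dbl 38 54 55))) (.rp 32 (.str 16 (.nv (.thr 52 7 (.thr 36 20 (.dbl 38 39 55))) (.nv (.thr 5 53 (.dbl 7 6 52)) (.rp 52 (.thr 5 53 (.thr 6 7 (.dbl 38 54 55))) (.rp 7 (.thr 26 31 (.thr 18 30 (.thr 19 17 (.thr 28 25 (.thr 20 24 (.thr 36 52 (.dbl 38 39 55))))))) .nd))))) (.rp 16 (.str 32 (.nv (.thr 52 7 (.thr 36 20 (.dbl 38 39 55))) (.nv (.thr 5 53 (.dbl 7 6 52)) (.rp 52 (.thr 5 53 (.thr 6 7 (.dbl 38 54 55)))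 (.rp 7 (.thr 38 55 (.thr 39 36 (.thr 47 42 (.thr 35 43 (.thr 33 34 (.dbl 41 44 45)))))) .nd))))) (.rp 7 (.str 41 (.nv (.thr 1 61 (.thr 3 60 (.thr 5 53 (.thr 9 13 (.thr 6 12 (.dbl 38 54 55)))))) (.nv (.thr 33 45 (.thr 38 55 (.thr 39 36 (.thr 35 44 (.thr 47 43 (.dbl 32 34 42)))))) (.nv (.thr 1 61 (.thr 33 45 (.thr 49 17 (.thr 13 25 (.dbl 5 9 53))))) (.rp 55 (.str 39 (.nv (.thr 38 36 (.thr 35 44 (.thr 47 43 (.thr 33 45 (.dbl 32 34 42))))) (.nv (.thr 3 60 (.thr 38 36 (.thr 35 44 (.thr 51 19 (.thr 12 25 (.dbl 6 9 54)))))) (.nv (.thr 1 61 (.thr 33 45 (.thr 49 17 (.thr 13 25 (.dbl 5 9 53))))) (.rp 32 (.str 16 (.nv (.thr 26 31 (.thr 18 30 (.thr 33 45 (.thr 1 61 (.dbl 17 19 49))))) (.nv (.thr 1 61 (.thr 3 60 (.thr 38 36 (.thr 6 54 (.thr 12 9 (.thr 51 25 (.dbl 35 19 44))))))) (.nv (.thr 33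 45 (.thr 1 61 (.thr 49 17 (.thr 13 25 (.dbl 5 9 53))))) (.rp 61 (.thr 36 38 (.thr 20 52 (.thr 28 24 (.thr 19 25 (.thr 18 17 (.dbl 26 30 31)))))) (.rp 1 (.thr 36 38 (.thr 20 52 (.thr 28 24 (.thr 19 25 (.thr 18 17 (.dbl 26 30 31)))))) .nd)))))) (.rp 16 (.str 32 (.nv (.thr 1 61 (.thr 5 53 (.thr 13 9 (.thr 33 45 (.dbl 49 17 25))))) (.nv (.thr 36 38 (.thr 40 44 (.dbl 42 43 47))) .nd))) .nd)))))) (.rp 45 (.thr 53 5 (.thr 61 1 (.thr 57 49 (.thr 55 38 (.thr 54 52 (.dbl 60 3 51)))))) (.rp 39 (.thr 55 38 (.thr 5 53 (.thr 33 45 (.thr 1 61 (.thr 49 17 (.dbl 13 9 25)))))) (.rp 32 (.str 16 (.nv (.thr 1 61 (.thr 3 60 (.thr 5 53 (.thr 9 13 (.thr 6 12 (.dbl 38 54 55)))))) (.nv (.thr 26 31 (.thr 18 30 (.thr 33 45 (.thr 1 61 (.dbl 17 19 49))))) (.nv (.thr 1 61 (.thr 5 53 (.thr 13 9 (.thr 33 45 (.dbl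 49 17 25))))) (.rp 61 (.thr 60 3 (.thr 38 55 (.thr 39 36 (.thr 54 6 (.thr 44 35 (.thr 12 28 (.dbl 51 25 57))))))) (.rp 55 (.str 39 (.nv (.thr 26 31 (.thr 18 30 (.thr 33 45 (.thr 1 61 (.dbl 17 19 49))))) (.nv (.thr 1 61 (.thr 3 60 (.thr 38 36 (.thr 6 54 (.thr 12 9 (.thr 51 25 (.dbl 35 19 44))))))) (.nv (.thr 33 45 (.thr 1 61 (.thr 49 17 (.thr 13 25 (.dbl 5 9 53))))) (.rp 61 (.thr 36 38 (.thr 20 52 (.thr 28 24 (.thr 19 25 (.thr 18 17 (.dbl 26 30 31)))))) (.rp 1 (.thr 36 38 (.thr 20 52 (.thr 28 24 (.thr 19 25 (.thr 18 17 (.dbl 26 30 31)))))) .nd)))))) (.rp 49 (.thr 53 5 (.thr 60 3 (.thr 55 38 (.thr 54 52 (.thr 51 57 (.thr 63 59 (.dbl 61 1 62))))))) (.rp 45 (.thr 53 5 (.thr 61 1 (.thr 57 49 (.thr 55 38 (.thr 54 52 (.dbl 60 3 51)))))) (.rp 39 (.thr 55 38 (.thr 5 53 (.thr 33 45 (.thr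 1 61 (.thr 49 17 (.dbl 13 9 25)))))) (.rp 13 (.thr 53 5 (.thr 60 3 (.thr 55 38 (.thr 54 52 (.thr 57 51 (.dbl 61 1 49)))))) (.rp 1 (.thr 3 60 (.thr 38 55 (.thr 39 36 (.thr 6 54 (.thr 12 9 (.thr 51 25 (.dbl 35 19 44))))))) .nd))))))))))) (.rp 16 (.str 32 (.nv (.thr 38 55 (.thr 39 36 (.thr 35 44 (.dbl 47 42 43)))) (.nv (.thr 1 61 (.thr 5 53 (.thr 13 9 (.thr 33 45 (.dbl 49 17 25))))) (.nv (.thr 33 45 (.thr 35 34 (.dbl 38 44 55))) (.rp 55 (.str 39 (.nv (.thr 1 61 (.thr 5 53 (.thr 13 9 (.thr 33 45 (.dbl 49 17 25))))) (.nv (.thr 36 38 (.thr 40 44 (.dbl 42 43 47))) .nd))) (.rp 39 (.thr 55 38 (.thr 5 53 (.thr 33 45 (.thr 1 61 (.thr 49 17 (.dbl 13 9 25)))))) .nd)))))) .nd))))))))) .nd))))))) (.rp 20 .ext (.rp 16 .ext (.rp 7 (.str 49 (.nv (.thr 20 23 (.thr 25 13 (.thr 28 19 (.thr 16 24 (.thr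 29 17 (.dbl 31 26 30)))))) (.nv (.thr 5 53 (.thr 13 25 (.thr 1 9 (.thr 41 61 (.dbl 33 17 45))))) (.rp 32 (.str 16 (.nv (.thr 20 23 (.thr 24 28 (.thr 25 13 (.dbl 26 27 31)))) (.nv (.thr 25 13 (.thr 19 28 (.dbl 17 18 29))) (.rp 28 (.thr 25 13 (.thr 17 29 (.thr 18 19 (.dbl 26 30 31)))) (.rp 25 (.thr 53 5 (.thr 61 57 (.thr 26 31 (.thr 18 30 (.thr 17 19 (.dbl 1 33 41)))))) (.rp 13 (.thr 20 23 (.thr 28 24 (.thr 19 25 (.thr 18 17 (.dbl 26 30 31))))) .nd)))))) (.rp 25 (.str 60 (.nv (.thr 3 41 (.thr 23 20 (.thr 63 43 (.thr 61 62 (.dbl 53 5 57))))) (.nv (.thr 53 5 (.thr 57 61 (.thr 54 51 (.thr 55 52 (.dbl 38 4 6))))) (.nv (.thr 41 3 (.thr 1 61 (.dbl 33 17 45))) (.rp 61 (.str 54 (.nv (.thr 53 5 (.thr 55 52 (.dbl 38 4 6))) (.rp 55 (.thr 38 6 (.thr 39 36 (.thr 51 57 (.thr 41 3 (.thr 15 27 (.dbl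 45 30 33)))))) (.rp 53 (.thr 38 6 (.thr 39 36 (.thr 51 57 (.thr 41 3 (.thr 15 27 (.dbl 45 30 33)))))) (.rp 52 (.thr 38 6 (.thr 39 36 (.thr 51 57 (.thr 41 3 (.thr 15 27 (.dbl 45 30 33)))))) (.rp 38 (.thr 53 5 (.thr 23 20 (.thr 55 52 (.thr 51 57 (.thr 63 59 (.dbl 3 41 43)))))) (.rp 32 (.str 16 (.nv (.thr 3 41 (.thr 26 31 (.thr 18 30 (.thr 19 17 (.dbl 51 35 57))))) (.nv (.thr 53 5 (.thr 55 52 (.dbl 38 4 6))) .nd))) (.rp 16 (.str 32 (.nv (.thr 41 3 (.thr 33 45 (.thr 35 34 (.dbl 38 6 44)))) (.nv (.thr 53 5 (.thr 55 52 (.dbl 38 4 6))) (.rp 38 (.thr 53 5 (.thr 55 52 (.thr 23 20 (.thr 3 41 (.thr 63 43 (.dbl 51 57 59)))))) (.rp 15 (.thr 38 6 (.thr 36 39 (.thr 44 40 (.dbl 41 3 35)))) (.rp 6 (.thr 23 20 (.thr 3 41 (.thr 43 63 (.thr 47 42 (.thr 35 39 (.dbl 51 19 57)))))) .nd)))))) (.rp 15 (.thr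 5 53 (.thr 23 20 (.thr 38 6 (.thr 55 4 (.thr 51 57 (.thr 63 59 (.dbl 3 41 43))))))) (.rp 10 (.thr 38 6 (.thr 39 36 (.thr 51 57 (.thr 41 3 (.thr 15 27 (.dbl 45 30 33)))))) (.rp 6 (.str 55 (.nv (.dbl 53 5 52) (.rp 53 (.thr 23 20 (.thr 51 57 (.thr 63 59 (.dbl 3 41 43)))) (.rp 52 (.thr 23 20 (.thr 51 57 (.thr 63 59 (.dbl 3 41 43)))) (.rp 32 (.str 16 (.nv (.dbl 53 5 52) (.rp 53 (.thr 23 20 (.thr 51 57 (.thr 63 59 (.dbl 3 41 43)))) (.rp 52 (.thr 23 20 (.thr 51 57 (.thr 63 59 (.dbl 3 41 43)))) (.rp 5 (.thr 4 38 (.thr 20 23 (.dbl 52 36 53))) (.rp 4 (.thr 5 53 (.thr 23 20 (.thr 51 57 (.thr 63 59 (.dbl 3 41 43))))) .nd)))))) (.rp 16 (.str 32 (.nv (.dbl 53 5 52) (.rp 53 (.thr 23 20 (.thr 3 41 (.thr 63 43 (.dbl 51 57 59)))) (.rp 52 (.thr 23 20 (.thr 3 41 (.thr 63 43 (.dbl 51 57 59)))) (.rp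 5 (.thr 4 38 (.thr 52 53 (.dbl 20 23 36))) (.rp 4 (.thr 5 53 (.thr 23 20 (.thr 3 41 (.thr 63 43 (.dbl 51 57 59))))) .nd)))))) (.rp 5 (.thr 4 38 (.thr 20 23 (.dbl 52 36 53))) (.rp 4 (.thr 5 53 (.thr 23 20 (.thr 51 57 (.thr 63 59 (.dbl 3 41 43))))) .nd)))))))) (.rp 5 (.thr 38 6 (.thr 4 55 (.thr 39 36 (.thr 51 57 (.thr 41 3 (.thr 15 27 (.dbl 45 30 33))))))) (.rp 4 (.thr 5 53 (.thr 38 6 (.thr 39 36 (.thr 51 57 (.thr 41 3 (.thr 15 27 (.dbl 45 30 33))))))) .nd))))))))))))) (.rp 32 (.str 16 (.nv (.thr 3 41 (.thr 23 20 (.thr 63 43 (.thr 61 62 (.dbl 53 5 57))))) (.nv (.thr 41 3 (.thr 1 61 (.dbl 33 17 45))) (.rp 61 (.thr 26 31 (.thr 30 18 (.thr 45 15 (.dbl 41 3 33)))) (.rp 41 (.thr 53 5 (.thr 57 61 (.thr 54 51 (.thr 55 52 (.dbl 38 4 6))))) (.rp 3 (.thr 53 5 (.thr 57 61 (.thr 54 51 (.thr 55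 52 (.dbl 38 4 6))))) .nd)))))) (.rp 16 (.str 32 (.nv (.thr 42 47 (.thr 53 5 (.thr 61 57 (.dbl 62 2 63)))) (.nv (.thr 41 3 (.thr 1 61 (.dbl 33 17 45))) (.rp 61 (.thr 41 3 (.thr 33 45 (.thr 35 34 (.thr 38 44 (.thr 39 36 (.dbl 47 42 43)))))) (.rp 41 (.thr 53 5 (.thr 42 47 (.thr 62 2 (.dbl 61 57 63)))) (.rp 15 (.thr 23 20 (.thr 3 41 (.thr 63 43 (.thr 61 62 (.dbl 53 5 57))))) .nd)))))) .nd))))))) (.rp 17 (.thr 53 5 (.thr 61 57 (.thr 41 1 (.thr 45 33 (.dbl 13 25 29))))) (.rp 16 (.str 32 (.nv (.thr 42 47 (.thr 53 5 (.thr 61 57 (.thr 62 2 (.thr 60 63 (.dbl 41 1 3)))))) (.nv (.thr 5 53 (.thr 13 25 (.thr 1 9 (.thr 41 61 (.dbl 33 17 45))))) (.rp 63 (.thr 53 5 (.thr 61 57 (.thr 1 41 (.thr 17 33 (.dbl 25 13 29))))) (.rp 61 (.thr 5 53 (.thr 13 25 (.thr 1 9 (.thr 33 17 (.thr 41 45 (.thr 42 47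 (.thr 40 43 (.thr 44 36 (.dbl 35 34 38))))))))) (.rp 53 (.thr 25 13 (.thr 17 29 (.thr 33 1 (.thr 35 34 (.thr 19 28 (.thr 3 51 (.dbl 41 45 60))))))) (.rp 41 (.thr 23 20 (.thr 25 13 (.thr 17 29 (.thr 33 1 (.thr 35 34 (.thr 47 42 (.thr 43 39 (.thr 3 63 (.dbl 19 28 51))))))))) (.rp 5 (.thr 25 13 (.thr 17 29 (.thr 1 33 (.thr 61 41 (.thr 57 53 (.thr 42 47 (.thr 62 2 (.thr 59 8 (.thr 60 63 (.thr 58 56 (.dbl 54 50 51))))))))))) (.rp 1 (.thr 53 5 (.thr 61 57 (.thr 13 25 (.thr 45 29 (.thr 41 33 (.thr 47 42 (.thr 44 46 (.thr 38 35 (.dbl 36 39 40))))))))) .nd))))))))) (.rp 13 (.thr 53 5 (.thr 23 20 (.thr 61 57 (.thr 1 41 (.thr 17 33 (.thr 25 29 (.thr 19 28 (.thr 31 27 (.dbl 16 18 26))))))))) .nd)))))))) (.rp 6 (.thr 53 5 (.thr 20 23 (.thr 52 7 (.thr 4 36 (.dbl 55 38 54))))) (.rp 5 .ext (.rp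 4 (.thr 20 23 (.str 25 (.nv (.thr 5 53 (.thr 13 49 (.thr 1 9 (.thr 29 17 (.dbl 61 41 45))))) (.nv (.thr 28 19 (.thr 16 24 (.thr 31 26 (.dbl 29 17 30)))) (.rp 32 (.str 16 (.nv (.thr 17 29 (.thr 18 19 (.dbl 26 30 31))) (.nv (.dbl 28 19 24) (.rp 19 (.thr 24 28 (.dbl 26 27 31)) (.rp 12 (.str 8 (.nv (.thr 24 28 (.dbl 26 27 31)) (.nv (.dbl 28 19 24) (.rp 28 (.thr 17 29 (.thr 18 19 (.dbl 26 30 31))) (.rp 24 (.str 36 (.nv (.thr 19 28 (.thr 18 17 (.dbl 26 30 31))) (.nv (.thr 17 29 (.dbl 19 18 28)) (.rp 28 (.thr 17 29 (.thr 18 19 (.dbl 26 30 31))) (.rp 19 (.thr 5 53 (.thr 13 49 (.thr 1 9 (.thr 29 17 (.dbl 61 41 45))))) (.rp 18 (.thr 29 17 (.thr 28 19 (.dbl 31 26 30))) (.rp 17 (.thr 13 49 (.thr 42 59 (.thr 26 31 (.thr 10 58 (.thr 9 11 (.dbl 5 1 53)))))) .nd))))))) .nd))))) (.rp 8 (.str 12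 (.nv (.thr 17 29 (.thr 18 19 (.dbl 26 30 31))) (.nv (.dbl 28 19 24) (.rp 19 (.thr 24 28 (.dbl 26 27 31)) .nd)))) .nd)))))) (.rp 29 (.thr 28 19 (.thr 16 24 (.str 12 (.nv (.thr 5 53 (.thr 13 49 (.thr 9 1 (.thr 3 6 (.thr 15 14 (.dbl 7 11 52)))))) (.nv (.thr 13 49 (.thr 15 14 (.thr 60 44 (.thr 30 45 (.dbl 26 18 31))))) (.nv (.thr 51 38 (.thr 60 44 (.thr 57 54 (.dbl 41 3 9)))) (.rp 51 (.thr 60 44 (.thr 49 13 (.thr 53 5 (.thr 61 57 (.dbl 41 1 3))))) (.rp 31 (.str 27 (.nv (.thr 51 38 (.thr 60 44 (.thr 41 3 (.dbl 57 9 54)))) (.nv (.thr 13 49 (.thr 51 38 (.dbl 15 14 39))) (.rp 51 (.thr 49 13 (.thr 53 5 (.thr 60 44 (.thr 61 57 (.dbl 41 1 3))))) (.rp 38 (.thr 13 49 (.thr 15 14 (.thr 7 52 (.thr 3 11 (.dbl 60 41 44))))) .nd))))) (.rp 27 (.thr 31 26 (.thr 60 44 (.thr 41 3 (.thr 57 9 (.dbl 51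 38 54))))) .nd))))))))) (.rp 17 (.thr 5 53 (.thr 13 49 (.thr 1 9 (.thr 61 41 (.thr 29 45 (.thr 28 19 (.thr 16 24 (.dbl 31 26 30)))))))) (.rp 16 (.str 32 (.nv (.thr 5 53 (.thr 13 49 (.thr 1 9 (.thr 61 41 (.dbl 29 17 45))))) (.nv (.thr 17 29 (.thr 49 13 (.thr 1 33 (.thr 61 41 (.dbl 53 5 57))))) (.rp 61 (.str 12 (.nv (.thr 7 52 (.thr 13 49 (.thr 15 14 (.thr 3 11 (.thr 9 6 (.dbl 5 1 53)))))) (.nv (.thr 29 17 (.thr 51 38 (.thr 42 47 (.thr 59 8 (.dbl 63 46 55))))) (.rp 51 (.thr 28 19 (.thr 44 60 (.thr 47 42 (.thr 46 45 (.dbl 29 17 63))))) .nd)))) (.rp 57 (.thr 5 53 (.thr 29 17 (.thr 13 49 (.thr 61 45 (.dbl 1 9 41))))) (.rp 53 (.thr 49 13 (.thr 17 29 (.thr 33 1 (.thr 19 28 (.thr 35 34 (.thr 3 51 (.dbl 41 45 60))))))) (.rp 49 (.thr 17 29 (.thr 42 47 (.str 51 (.nv (.thr 19 28 (.thr 3 35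 (.thr 12 38 (.thr 9 6 (.dbl 41 57 60))))) (.nv (.thr 2 62 (.thr 8 59 (.thr 38 12 (.thr 6 54 (.thr 14 10 (.thr 50 26 (.dbl 34 18 46))))))) (.nv (.thr 12 38 (.thr 28 19 (.thr 60 44 (.thr 57 54 (.dbl 41 3 9))))) (.rp 38 (.thr 8 59 (.thr 19 28 (.thr 3 35 (.thr 41 60 (.thr 9 57 (.thr 11 10 (.dbl 7 15 52))))))) (.rp 12 (.thr 8 59 (.thr 53 5 (.thr 19 28 (.thr 3 35 (.thr 60 41 (.thr 54 57 (.dbl 52 7 55))))))) .nd)))))))) (.rp 45 (.thr 53 5 (.thr 49 13 (.thr 17 29 (.thr 61 57 (.dbl 1 33 41))))) (.rp 41 (.thr 5 53 (.thr 49 13 (.thr 17 29 (.thr 33 1 (.thr 28 19 (.thr 34 35 (.thr 52 7 (.thr 42 47 (.thr 38 46 (.thr 6 54 (.thr 2 62 (.thr 50 18 (.dbl 14 10 26))))))))))))) (.rp 29 (.thr 53 5 (.thr 49 13 (.thr 61 57 (.thr 42 47 (.thr 62 2 (.thr 60 63 (.dbl 41 1 3))))))) (.rp 17 (.thr 53 5 (.thr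 49 13 (.thr 61 57 (.thr 42 47 (.thr 62 2 (.thr 60 63 (.dbl 41 1 3))))))) (.rp 13 (.str 12 (.nv (.thr 28 19 (.thr 44 60 (.thr 47 42 (.thr 46 45 (.dbl 29 17 63))))) (.nv (.thr 42 47 (.thr 51 38 (.thr 59 8 (.thr 63 55 (.dbl 29 17 46))))) (.nv (.thr 19 28 (.thr 51 38 (.thr 3 35 (.thr 41 60 (.dbl 9 6 57))))) .nd)))) (.rp 12 (.str 8 (.nv (.dbl 42 47 59) (.rp 59 (.thr 17 29 (.thr 49 13 (.thr 1 33 (.thr 53 5 (.dbl 61 41 57))))) (.rp 47 (.thr 17 29 (.thr 49 13 (.thr 1 33 (.thr 53 5 (.dbl 61 41 57))))) (.rp 42 (.thr 17 29 (.thr 49 13 (.thr 1 33 (.thr 53 5 (.dbl 61 41 57))))) (.rp 36 (.str 24 (.nv (.dbl 42 47 59) (.rp 59 (.thr 56 40 (.thr 26 27 (.thr 11 41 (.thr 10 9 (.dbl 42 47 58))))) (.rp 47 (.thr 56 40 (.thr 49 13 (.thr 53 5 (.thr 57 61 (.dbl 59 42 58))))) (.rp 42 (.thr 17 29 (.thr 49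 13 (.thr 1 33 (.thr 53 5 (.dbl 61 41 57))))) .nd))))) (.rp 24 (.str 36 (.nv (.dbl 42 47 59) (.rp 59 (.thr 44 40 (.thr 13 49 (.thr 29 17 (.thr 45 61 (.dbl 47 42 46))))) (.rp 47 (.thr 44 40 (.thr 38 39 (.thr 35 41 (.thr 34 33 (.dbl 42 46 59))))) (.rp 42 (.thr 5 53 (.thr 13 49 (.thr 1 9 (.thr 29 17 (.dbl 61 41 45))))) .nd))))) .nd))))))) (.rp 8 (.str 12 (.nv (.thr 17 29 (.thr 49 13 (.thr 1 33 (.thr 53 5 (.dbl 61 41 57))))) (.nv (.thr 13 49 (.thr 15 14 (.thr 29 17 (.thr 47 42 (.dbl 63 31 46))))) (.nv (.thr 19 28 (.thr 51 38 (.thr 3 35 (.thr 41 60 (.dbl 9 6 57))))) .nd)))) (.rp 5 (.thr 13 49 (.thr 29 17 (.thr 61 45 (.thr 42 47 (.thr 62 2 (.thr 60 63 (.dbl 41 1 3))))))) (.rp 1 (.thr 17 29 (.thr 53 5 (.thr 42 47 (.thr 2 62 (.thr 8 59 (.str 10 (.nv (.thr 9 11 (.thr 49 13 (.dbl 57 41 61)))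 (.nv (.thr 52 7 (.thr 6 14 (.dbl 54 38 55))) (.rp 13 (.thr 9 11 (.thr 52 7 (.thr 6 14 (.dbl 54 38 55)))) (.rp 9 (.thr 13 49 (.thr 52 7 (.thr 6 14 (.dbl 54 38 55)))) (.rp 7 (.thr 6 14 (.thr 38 54 (.thr 9 11 (.dbl 12 3 51)))) (.rp 6 (.thr 7 52 (.thr 9 11 (.thr 57 41 (.dbl 49 13 61)))) .nd)))))))))))) .nd)))))))))))))))) (.rp 12 (.str 8 (.nv (.thr 17 29 (.thr 49 13 (.thr 53 5 (.thr 61 57 (.dbl 1 33 41))))) (.nv (.thr 29 17 (.thr 28 19 (.thr 31 30 (.dbl 16 24 26)))) (.rp 36 (.str 24 (.nv (.thr 16 28 (.dbl 26 27 31)) (.nv (.dbl 28 16 19) (.rp 28 (.thr 56 40 (.thr 49 13 (.thr 53 5 (.thr 57 61 (.dbl 59 42 58))))) (.rp 16 (.str 32 (.nv (.dbl 42 47 59) (.rp 59 (.thr 56 40 (.thr 26 27 (.thr 11 41 (.thr 10 9 (.dbl 42 47 58))))) (.rp 47 (.thr 56 40 (.thr 49 13 (.thr 53 5 (.thr 57 61 (.dbl 59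 42 58))))) (.rp 42 (.thr 17 29 (.thr 49 13 (.thr 1 33 (.thr 53 5 (.dbl 61 41 57))))) .nd))))) .nd))))) (.rp 32 (.str 16 (.nv (.thr 24 28 (.dbl 26 27 31)) (.nv (.dbl 28 19 24) (.rp 28 (.thr 17 29 (.thr 18 19 (.dbl 26 30 31))) (.rp 24 (.str 36 (.nv (.thr 19 28 (.thr 18 17 (.dbl 26 30 31))) (.nv (.thr 17 29 (.dbl 19 18 28)) (.rp 28 (.thr 17 29 (.thr 18 19 (.dbl 26 30 31))) (.rp 19 (.thr 5 53 (.thr 13 49 (.thr 1 9 (.thr 29 17 (.dbl 61 41 45))))) (.rp 18 (.thr 29 17 (.thr 28 19 (.dbl 31 26 30))) (.rp 17 (.thr 13 49 (.thr 42 59 (.thr 26 31 (.thr 10 58 (.thr 9 11 (.dbl 5 1 53)))))) .nd))))))) .nd))))) (.rp 29 (.thr 13 49 (.thr 5 53 (.thr 9 1 (.thr 7 52 (.thr 11 10 (.thr 3 15 (.dbl 41 57 60))))))) (.rp 24 (.str 36 (.nv (.thr 5 53 (.thr 13 49 (.thr 1 9 (.thr 42 59 (.thr 32 47 (.thr 40 44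 (.dbl 41 43 61))))))) (.nv (.thr 17 29 (.thr 49 13 (.thr 1 33 (.thr 53 5 (.dbl 61 41 57))))) (.nv (.thr 13 49 (.thr 29 17 (.thr 61 45 (.thr 1 41 (.dbl 5 9 53))))) (.rp 61 (.thr 38 39 (.thr 42 59 (.thr 34 46 (.thr 32 47 (.thr 44 40 (.dbl 35 33 41)))))) (.rp 53 (.thr 38 39 (.thr 42 59 (.thr 34 46 (.thr 32 47 (.thr 44 40 (.dbl 35 33 41)))))) (.rp 49 (.thr 38 39 (.thr 42 59 (.thr 34 46 (.thr 32 47 (.thr 44 40 (.dbl 35 33 41)))))) (.rp 45 (.thr 53 5 (.thr 49 13 (.thr 17 29 (.thr 61 57 (.dbl 1 33 41))))) (.rp 41 (.thr 5 53 (.thr 49 13 (.thr 17 29 (.thr 1 33 (.thr 28 19 (.thr 7 52 (.thr 38 39 (.thr 54 6 (.thr 42 59 (.thr 46 34 (.thr 62 2 (.thr 14 30 (.dbl 50 26 58))))))))))))) (.rp 32 (.str 16 (.nv (.thr 19 28 (.thr 18 17 (.dbl 26 30 31))) (.nv (.thr 17 29 (.dbl 19 18 28)) (.rp 28 (.thr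 17 29 (.thr 18 19 (.dbl 26 30 31))) (.rp 19 (.thr 5 53 (.thr 13 49 (.thr 1 9 (.thr 29 17 (.dbl 61 41 45))))) (.rp 18 (.thr 29 17 (.thr 28 19 (.dbl 31 26 30))) (.rp 17 (.thr 13 49 (.thr 42 59 (.thr 26 31 (.thr 10 58 (.thr 9 11 (.dbl 5 1 53)))))) .nd))))))) (.rp 16 (.str 32 (.nv (.dbl 42 47 59) (.rp 59 (.thr 44 40 (.thr 13 49 (.thr 29 17 (.thr 45 61 (.dbl 47 42 46))))) (.rp 47 (.thr 44 40 (.thr 38 39 (.thr 35 41 (.thr 34 33 (.dbl 42 46 59))))) (.rp 42 (.thr 5 53 (.thr 13 49 (.thr 1 9 (.thr 29 17 (.dbl 61 41 45))))) .nd))))) (.rp 13 (.thr 38 39 (.thr 42 59 (.thr 34 46 (.thr 32 47 (.thr 44 40 (.dbl 35 33 41)))))) (.rp 5 (.thr 38 39 (.thr 42 59 (.thr 34 46 (.thr 32 47 (.thr 44 40 (.dbl 35 33 41)))))) (.rp 1 (.thr 38 39 (.thr 42 59 (.thr 34 46 (.thr 32 47 (.thr 44 40 (.dbl 35 33 41))))))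 .nd)))))))))))))) (.rp 17 (.thr 49 13 (.thr 53 5 (.thr 57 61 (.thr 28 19 (.thr 59 42 (.thr 56 58 (.dbl 24 16 40))))))) (.rp 16 (.str 32 (.nv (.dbl 42 47 59) (.rp 59 (.thr 17 29 (.thr 49 13 (.thr 1 33 (.thr 53 5 (.dbl 61 41 57))))) (.rp 47 (.thr 17 29 (.thr 49 13 (.thr 1 33 (.thr 53 5 (.dbl 61 41 57))))) (.rp 42 (.thr 17 29 (.thr 49 13 (.thr 1 33 (.thr 53 5 (.dbl 61 41 57))))) (.rp 36 (.str 24 (.nv (.dbl 42 47 59) (.rp 59 (.thr 56 40 (.thr 26 27 (.thr 11 41 (.thr 10 9 (.dbl 42 47 58))))) (.rp 47 (.thr 56 40 (.thr 49 13 (.thr 53 5 (.thr 57 61 (.dbl 59 42 58))))) (.rp 42 (.thr 17 29 (.thr 49 13 (.thr 1 33 (.thr 53 5 (.dbl 61 41 57))))) .nd))))) (.rp 24 (.str 36 (.nv (.dbl 42 47 59) (.rp 59 (.thr 44 40 (.thr 13 49 (.thr 29 17 (.thr 45 61 (.dbl 47 42 46))))) (.rp 47 (.thr 44 40 (.thr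 38 39 (.thr 35 41 (.thr 34 33 (.dbl 42 46 59))))) (.rp 42 (.thr 5 53 (.thr 13 49 (.thr 1 9 (.thr 29 17 (.dbl 61 41 45))))) .nd))))) .nd))))))) .nd))))))))) (.rp 8 (.str 12 (.nv (.thr 5 53 (.thr 13 49 (.thr 9 1 (.thr 3 6 (.dbl 41 57 60))))) (.nv (.thr 28 19 (.thr 16 24 (.thr 31 26 (.dbl 29 17 30)))) (.rp 32 (.str 16 (.nv (.thr 17 29 (.thr 18 19 (.dbl 26 30 31))) (.nv (.dbl 28 19 24) (.rp 19 (.thr 24 28 (.dbl 26 27 31)) .nd)))) (.rp 17 (.thr 28 19 (.thr 60 44 (.thr 41 3 (.thr 57 9 (.dbl 51 38 54))))) (.rp 16 (.str 32 (.nv (.thr 17 29 (.thr 49 13 (.thr 1 33 (.thr 53 5 (.dbl 61 41 57))))) (.nv (.thr 13 49 (.thr 15 14 (.thr 29 17 (.thr 47 42 (.dbl 63 31 46))))) (.nv (.thr 19 28 (.thr 51 38 (.thr 3 35 (.thr 41 60 (.dbl 9 6 57))))) .nd)))) .nd)))))) .nd)))))))))) .nd))))))))))))))))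

theorem w73 : WinAt (6291456, 281474976710657) :=
  chF (K := [(137445244928, 281474976710689), (137445244928, 281474976776193), (137445244928, 281474977759233)]) (kc w71 (kc w30 (kc w72 kn))) c73 6291456 281474976710657 48
    [281479271743489] (by decide +kernel) (by decide +kernel)

/-- A certificate. -/
noncomputable def c74 : Ct := (.str 4 (.nv (.thr 52 36 (.thr 55 38 (.thr 37 7 (.dbl 53 5 54)))) (.rp 55 (.thr 52 36 (.thr 7 37 (.thr 6 5 (.thr 38 54 (.str 25 (.nv (.thr 28 19 (.thr 29 17 (.thr 31 30 (.dbl 16 24 26)))) (.nv (.thr 12 51 (.thr 3 9 (.thr 60 41 (.dbl 28 19 44)))) (.nv (.thr 28 19 (.thr 16 24 (.thr 31 26 (.dbl 29 17 30)))) (.rp 28 (.thr 12 51 (.thr 3 9 (.thr 15 11 (.thr 13 14 (.thr 60 41 (.thr 45 30 (.dbl 29 17 61))))))) (.rp 19 (.thr 12 51 (.thr 3 9 (.thr 15 11 (.thr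 13 14 (.thr 60 41 (.thr 45 30 (.dbl 29 17 61))))))) (.rp 17 (.thr 51 12 (.thr 19 28 (.thr 3 35 (.thr 15 11 (.thr 27 39 (.thr 60 41 (.thr 26 24 (.thr 48 56 (.dbl 18 30 33))))))))) (.rp 15 (.str 10 (.nv (.thr 29 17 (.thr 28 19 (.thr 31 30 (.dbl 16 24 26)))) (.nv (.thr 2 14 (.thr 42 62 (.thr 8 59 (.thr 9 11 (.dbl 12 3 51))))) (.nv (.thr 14 2 (.thr 28 19 (.thr 16 24 (.dbl 26 31 50)))) (.rp 48 (.str 26 (.nv (.thr 16 31 (.dbl 24 27 28)) (.nv (.dbl 14 2 50) (.rp 51 (.thr 50 14 (.thr 16 31 (.dbl 24 27 28))) (.rp 50 (.thr 51 12 (.thr 24 27 (.dbl 16 28 31))) (.rp 24 (.thr 12 51 (.thr 50 14 (.thr 42 58 (.thr 9 3 (.dbl 8 11 59))))) (.rp 16 (.str 32 (.nv (.dbl 14 2 50) (.rp 51 (.thr 50 14 (.thr 42 58 (.thr 18 30 (.dbl 2 34 62)))) (.rp 50 (.thr 51 12 (.thr 24 27 (.thr 42 58 (.thr 62 2 (.thr 8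 59 (.thr 11 9 (.dbl 56 40 41))))))) (.rp 24 (.thr 12 51 (.thr 50 14 (.thr 42 58 (.thr 9 3 (.dbl 8 11 59))))) (.rp 14 (.thr 42 58 (.thr 8 59 (.thr 9 11 (.dbl 12 3 51)))) (.rp 12 (.thr 24 27 (.dbl 14 2 50)) (.rp 2 (.thr 42 58 (.thr 8 59 (.thr 9 11 (.dbl 12 3 51)))) .nd)))))))) (.rp 12 (.thr 24 27 (.dbl 14 2 50)) .nd)))))))) (.rp 26 (.str 48 (.nv (.thr 2 14 (.thr 12 51 (.thr 9 3 (.thr 42 62 (.dbl 8 11 59))))) (.nv (.thr 2 14 (.thr 60 56 (.thr 41 3 (.thr 61 1 (.dbl 62 42 63))))) (.nv (.thr 28 19 (.thr 60 56 (.dbl 12 44 51))) (.rp 60 (.thr 2 14 (.thr 42 62 (.thr 8 59 (.thr 9 11 (.dbl 12 3 51))))) (.rp 12 (.thr 19 28 (.thr 17 29 (.thr 18 16 (.thr 3 33 (.dbl 60 41 56))))) .nd)))))) .nd)))))) (.rp 10 (.str 15 (.nv (.thr 28 19 (.thr 29 17 (.thr 31 30 (.dbl 16 24 26)))) (.nv (.thr 3 11 (.dbl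 12 9 51)) (.rp 51 (.thr 3 11 (.thr 9 12 (.dbl 41 57 60))) .nd)))) .nd))))))))))))) (.rp 54 (.str 16 (.nv (.thr 24 28 (.thr 26 31 (.thr 36 52 (.thr 48 12 (.thr 37 15 (.dbl 38 39 55)))))) (.nv (.thr 28 24 (.thr 25 19 (.thr 31 26 (.dbl 29 17 30)))) (.rp 31 (.thr 52 36 (.thr 37 7 (.thr 28 24 (.thr 19 25 (.thr 18 17 (.thr 26 30 (.thr 48 15 (.thr 60 56 (.dbl 3 33 41))))))))) (.rp 30 (.thr 52 36 (.thr 7 37 (.thr 6 5 (.thr 38 55 (.thr 28 24 (.thr 25 19 (.thr 12 51 (.thr 60 44 (.dbl 3 9 41))))))))) (.rp 29 (.thr 28 24 (.thr 19 25 (.thr 18 17 (.dbl 26 30 31)))) (.rp 28 (.thr 52 36 (.thr 37 7 (.thr 26 31 (.thr 48 15 (.thr 60 56 (.thr 3 41 (.dbl 18 30 33))))))) (.rp 26 (.thr 52 36 (.thr 7 37 (.thr 6 5 (.thr 38 55 (.thr 28 24 (.thr 25 19 (.thr 12 51 (.thr 60 44 (.dbl 3 9 41))))))))) (.rp 24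 (.thr 52 36 (.thr 37 7 (.thr 26 31 (.thr 18 30 (.thr 48 15 (.thr 3 33 (.dbl 60 41 56))))))) (.rp 19 (.thr 36 52 (.thr 24 28 (.thr 48 12 (.thr 26 31 (.thr 27 25 (.thr 37 15 (.dbl 38 39 55))))))) .nd)))))))))) (.rp 53 (.thr 52 36 (.thr 7 37 (.thr 6 5 (.dbl 38 54 55)))) (.rp 52 (.str 16 (.nv (.thr 28 24 (.thr 25 19 (.thr 31 26 (.dbl 29 17 30)))) (.rp 31 (.thr 38 55 (.thr 54 6 (.thr 28 24 (.thr 19 25 (.thr 18 17 (.thr 26 30 (.thr 50 14 (.thr 62 58 (.dbl 2 34 42))))))))) (.rp 30 (.thr 38 55 (.thr 28 24 (.thr 25 19 (.thr 12 51 (.thr 60 44 (.thr 3 41 (.dbl 6 9 54))))))) (.rp 29 (.thr 28 24 (.thr 19 25 (.thr 18 17 (.dbl 26 30 31)))) (.rp 28 (.thr 38 55 (.thr 54 6 (.thr 26 31 (.thr 50 14 (.thr 62 58 (.thr 2 42 (.dbl 18 30 34))))))) (.rp 26 (.thr 38 55 (.thr 28 24 (.thr 25 19 (.thr 12 51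 (.thr 60 44 (.thr 3 41 (.dbl 6 9 54))))))) (.rp 25 (.thr 38 55 (.thr 54 6 (.thr 26 31 (.thr 18 30 (.thr 50 14 (.thr 2 34 (.dbl 62 42 58))))))) (.rp 24 (.thr 38 55 (.thr 54 6 (.thr 26 31 (.thr 18 30 (.thr 50 14 (.thr 2 34 (.dbl 62 42 58))))))) (.rp 19 (.thr 38 55 (.thr 54 6 (.thr 24 28 (.thr 26 31 (.thr 27 25 (.thr 50 14 (.thr 62 58 (.thr 2 42 (.dbl 18 30 34))))))))) (.rp 17 (.thr 38 55 (.thr 54 6 (.thr 26 31 (.thr 18 30 (.thr 50 14 (.thr 62 58 (.dbl 2 34 42))))))) .nd))))))))))) (.rp 38 (.str 26 (.nv (.thr 18 30 (.thr 52 36 (.thr 37 7 (.thr 48 15 (.thr 60 56 (.dbl 3 33 41)))))) (.nv (.thr 16 31 (.thr 18 30 (.thr 28 24 (.dbl 19 17 25)))) (.rp 30 (.thr 16 31 (.thr 28 24 (.thr 19 25 (.thr 18 17 (.thr 52 36 (.thr 37 7 (.thr 48 15 (.thr 60 56 (.dbl 3 33 41))))))))) (.rp 18 (.thr 16 31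 (.thr 24 28 (.thr 52 36 (.thr 37 7 (.thr 48 15 (.thr 56 60 (.thr 11 41 (.thr 8 40 (.thr 10 9 (.thr 53 5 (.dbl 58 42 63))))))))))) .nd))))) (.rp 37 (.str 25 (.nv (.thr 19 28 (.thr 38 55 (.thr 51 12 (.thr 3 35 (.thr 54 6 (.dbl 60 41 57)))))) (.nv (.thr 28 19 (.thr 16 24 (.thr 31 26 (.dbl 29 17 30)))) (.rp 28 (.thr 17 29 (.thr 52 36 (.thr 38 55 (.thr 54 6 (.thr 51 12 (.thr 60 57 (.thr 48 56 (.thr 3 41 (.thr 19 35 (.dbl 18 16 33)))))))))) (.rp 19 (.thr 38 55 (.thr 6 54 (.thr 12 51 (.thr 3 9 (.thr 60 41 (.thr 28 44 (.thr 24 16 (.dbl 36 48 52)))))))) .nd))))) (.rp 36 (.str 16 (.nv (.thr 26 31 (.thr 18 30 (.thr 19 17 (.dbl 28 24 25)))) (.nv (.thr 28 24 (.thr 25 19 (.thr 31 26 (.dbl 29 17 30)))) (.rp 31 (.thr 38 55 (.thr 54 6 (.thr 28 24 (.thr 19 25 (.thr 18 17 (.thr 26 30 (.thr 50 14 (.thr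 62 58 (.dbl 2 34 42))))))))) (.rp 30 (.thr 38 55 (.thr 6 54 (.thr 28 24 (.thr 25 19 (.thr 12 51 (.thr 60 44 (.dbl 3 9 41))))))) (.rp 29 (.thr 28 24 (.thr 19 25 (.thr 18 17 (.dbl 26 30 31)))) (.rp 28 (.thr 38 55 (.thr 6 54 (.thr 26 31 (.thr 30 18 (.thr 14 50 (.thr 62 46 (.dbl 2 10 42))))))) (.rp 26 (.thr 38 55 (.thr 6 54 (.thr 28 24 (.thr 25 19 (.thr 12 51 (.thr 60 44 (.dbl 3 9 41))))))) (.rp 25 (.thr 38 55 (.thr 6 54 (.thr 26 31 (.thr 30 18 (.thr 14 50 (.thr 62 46 (.dbl 2 10 42))))))) (.rp 24 (.thr 38 55 (.thr 6 54 (.thr 26 31 (.thr 30 18 (.thr 14 50 (.thr 62 46 (.dbl 2 10 42))))))) (.rp 19 (.thr 38 55 (.thr 6 54 (.thr 24 28 (.thr 26 31 (.thr 27 25 (.thr 30 18 (.thr 14 50 (.thr 62 46 (.dbl 2 10 42))))))))) (.rp 17 (.thr 38 55 (.thr 6 54 (.thr 26 31 (.thr 30 18 (.thr 14 50 (.thr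 62 46 (.dbl 2 10 42))))))) .nd)))))))))))) (.rp 7 (.thr 36 52 (.thr 38 55 (.thr 39 37 (.thr 54 6 (.str 25 (.nv (.thr 28 19 (.thr 16 24 (.thr 31 26 (.dbl 29 17 30)))) (.nv (.thr 19 28 (.thr 51 12 (.thr 3 35 (.dbl 60 41 57)))) (.rp 28 (.thr 51 12 (.thr 15 27 (.thr 29 17 (.thr 60 57 (.thr 45 30 (.thr 61 13 (.dbl 41 1 3))))))) (.rp 19 (.str 26 (.nv (.thr 18 30 (.thr 50 14 (.thr 62 58 (.dbl 2 34 42)))) (.nv (.thr 27 24 (.dbl 51 12 15)) (.rp 27 (.thr 31 16 (.thr 50 14 (.thr 62 58 (.thr 18 30 (.dbl 2 34 42))))) .nd)))) .nd))))))))) (.rp 5 (.thr 38 55 (.thr 6 54 (.thr 52 36 (.thr 7 37 (.str 25 (.nv (.thr 28 19 (.thr 29 17 (.thr 31 30 (.dbl 16 24 26)))) (.nv (.thr 12 51 (.thr 3 9 (.thr 60 41 (.dbl 28 19 44)))) (.nv (.thr 28 19 (.thr 16 24 (.thr 31 26 (.dbl 29 17 30)))) (.rp 28 (.thr 12 51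 (.thr 3 9 (.thr 15 11 (.thr 13 14 (.thr 60 41 (.thr 45 30 (.dbl 29 17 61))))))) (.rp 19 (.thr 12 51 (.thr 3 9 (.thr 15 11 (.thr 13 14 (.thr 60 41 (.thr 45 30 (.dbl 29 17 61))))))) (.rp 17 (.thr 51 12 (.thr 19 28 (.thr 3 35 (.thr 15 11 (.thr 27 39 (.thr 60 41 (.thr 26 24 (.thr 48 56 (.dbl 18 30 33))))))))) (.rp 15 (.str 10 (.nv (.thr 29 17 (.thr 28 19 (.thr 31 30 (.dbl 16 24 26)))) (.nv (.thr 2 14 (.thr 42 62 (.thr 8 59 (.thr 9 11 (.dbl 12 3 51))))) (.nv (.thr 14 2 (.thr 28 19 (.thr 16 24 (.dbl 26 31 50)))) (.rp 48 (.str 26 (.nv (.thr 16 31 (.dbl 24 27 28)) (.nv (.dbl 14 2 50) (.rp 51 (.thr 50 14 (.thr 16 31 (.dbl 24 27 28))) (.rp 50 (.thr 51 12 (.thr 24 27 (.dbl 16 28 31))) (.rp 24 (.thr 12 51 (.thr 50 14 (.thr 42 58 (.thr 9 3 (.dbl 8 11 59))))) (.rp 16 (.str 32 (.nv (.dbl 14 2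 50) (.rp 51 (.thr 50 14 (.thr 42 58 (.thr 18 30 (.dbl 2 34 62)))) (.rp 50 (.thr 51 12 (.thr 24 27 (.thr 42 58 (.thr 62 2 (.thr 8 59 (.thr 11 9 (.dbl 56 40 41))))))) (.rp 24 (.thr 12 51 (.thr 50 14 (.thr 42 58 (.thr 9 3 (.dbl 8 11 59))))) (.rp 14 (.thr 42 58 (.thr 8 59 (.thr 9 11 (.dbl 12 3 51)))) (.rp 12 (.thr 24 27 (.dbl 14 2 50)) (.rp 2 (.thr 42 58 (.thr 8 59 (.thr 9 11 (.dbl 12 3 51)))) .nd)))))))) (.rp 12 (.thr 24 27 (.dbl 14 2 50)) .nd)))))))) (.rp 26 (.str 48 (.nv (.thr 2 14 (.thr 12 51 (.thr 9 3 (.thr 42 62 (.dbl 8 11 59))))) (.nv (.thr 2 14 (.thr 60 56 (.thr 41 3 (.thr 61 1 (.dbl 62 42 63))))) (.nv (.thr 28 19 (.thr 60 56 (.dbl 12 44 51))) (.rp 60 (.thr 2 14 (.thr 42 62 (.thr 8 59 (.thr 9 11 (.dbl 12 3 51))))) (.rp 12 (.thr 19 28 (.thr 17 29 (.thr 18 16 (.thr 3 33 (.dbl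 60 41 56))))) .nd)))))) .nd)))))) (.rp 10 (.str 15 (.nv (.thr 28 19 (.thr 29 17 (.thr 31 30 (.dbl 16 24 26)))) (.nv (.thr 3 11 (.dbl 12 9 51)) (.rp 51 (.thr 3 11 (.thr 9 12 (.dbl 41 57 60))) .nd)))) .nd))))))))))))) .nd)))))))))))

theorem w74 : WinAt (7340032, 562949961809921) :=
  chF (K := []) kn c74 7340032 562949961809921 23
    [] (by decide +kernel) (by decide +kernel)

/-- A certificate. -/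
noncomputable def c75 : Ct := (.str 4 (.nv (.thr 52 36 (.thr 7 37 (.thr 38 55 (.dbl 6 5 54)))) (.rp 55 (.str 25 (.nv (.thr 28 19 (.thr 16 24 (.thr 31 26 (.dbl 29 17 30)))) (.nv (.thr 29 17 (.thr 28 19 (.thr 31 30 (.dbl 16 24 26)))) (.rp 39 (.str 7 (.nv (.dbl 52 36 37) (.rp 52 (.thr 29 17 (.thr 28 19 (.thr 31 30 (.dbl 16 24 26)))) (.rp 37 (.thr 29 17 (.thr 28 19 (.thr 31 30 (.dbl 16 24 26)))) (.rp 36 (.thr 5 6 (.dbl 37 52 53)) .nd))))) (.rp 31 (.thr 52 36 (.thr 7 37 (.thr 6 5 (.thr 38 54 (.thr 12 51 (.thr 3 9 (.thr 60 41 (.dbl 28 19 44)))))))) (.rp 30 (.thr 28 19 (.thr 52 36 (.thr 7 37 (.thr 6 5 (.thr 38 54 (.thr 12 51 (.thr 3 9 (.dbl 60 41 44)))))))) (.rp 29 (.thr 28 19 (.thr 52 36 (.thr 7 37 (.thr 6 5 (.thr 38 54 (.thr 12 51 (.thr 3 9 (.dbl 60 41 44)))))))) (.rp 28 (.thr 52 36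 (.thr 7 37 (.thr 6 5 (.thr 38 54 (.thr 12 51 (.thr 3 9 (.thr 15 11 (.thr 13 14 (.thr 60 41 (.thr 45 30 (.dbl 29 17 61))))))))))) (.rp 26 (.thr 28 19 (.thr 52 36 (.thr 7 37 (.thr 6 5 (.thr 38 54 (.thr 12 51 (.thr 3 9 (.dbl 60 41 44)))))))) (.rp 24 (.thr 28 19 (.thr 52 36 (.thr 7 37 (.thr 6 5 (.thr 38 54 (.thr 12 51 (.thr 3 9 (.dbl 60 41 44)))))))) (.rp 19 (.thr 52 36 (.thr 7 37 (.thr 6 5 (.thr 38 54 (.thr 12 51 (.thr 3 9 (.thr 15 11 (.thr 13 14 (.thr 60 41 (.thr 45 30 (.dbl 29 17 61))))))))))) (.rp 17 (.thr 19 28 (.thr 52 36 (.thr 7 37 (.thr 6 5 (.thr 38 54 (.thr 51 12 (.thr 3 35 (.thr 15 11 (.thr 27 39 (.thr 60 41 (.thr 26 24 (.thr 48 56 (.dbl 18 30 33))))))))))))) (.rp 16 (.thr 28 19 (.thr 52 36 (.thr 7 37 (.thr 6 5 (.thr 38 54 (.thr 12 51 (.thr 3 9 (.dbl 60 41 44)))))))) (.rp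 7 (.str 39 (.nv (.thr 36 52 (.thr 38 37 (.thr 51 12 (.thr 27 15 (.thr 28 19 (.dbl 24 16 26)))))) (.nv (.thr 29 17 (.thr 28 19 (.thr 31 30 (.dbl 16 24 26)))) (.rp 51 (.thr 28 19 (.thr 16 24 (.thr 31 26 (.dbl 29 17 30)))) (.rp 28 (.thr 17 29 (.thr 36 52 (.thr 37 38 (.thr 49 13 (.thr 1 33 (.thr 53 5 (.dbl 61 41 57))))))) (.rp 26 (.thr 28 19 (.thr 24 16 (.thr 36 52 (.thr 38 37 (.dbl 12 48 51))))) (.rp 24 (.thr 17 29 (.thr 36 52 (.thr 37 38 (.thr 49 13 (.thr 1 33 (.thr 53 5 (.dbl 61 41 57))))))) (.rp 19 (.thr 17 29 (.thr 36 52 (.thr 37 38 (.thr 49 13 (.thr 1 33 (.thr 53 5 (.dbl 61 41 57))))))) (.rp 16 (.thr 17 29 (.thr 36 52 (.thr 37 38 (.thr 49 13 (.thr 1 33 (.thr 53 5 (.dbl 61 41 57))))))) .nd))))))))) .nd)))))))))))))) (.rp 54 (.thr 38 55 (.thr 52 36 (.thr 7 37 (.thr 5 6 (.str 41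 (.nv (.thr 44 35 (.thr 60 3 (.thr 56 48 (.thr 26 11 (.thr 16 31 (.dbl 28 12 24)))))) (.nv (.thr 1 61 (.thr 9 13 (.thr 25 57 (.thr 28 19 (.thr 29 17 (.thr 31 30 (.dbl 16 24 26))))))) (.nv (.thr 1 61 (.thr 44 35 (.thr 60 3 (.thr 12 28 (.thr 9 13 (.dbl 25 51 57)))))) (.rp 62 (.str 58 (.nv (.thr 44 35 (.thr 60 3 (.thr 56 48 (.thr 26 11 (.thr 16 31 (.dbl 28 12 24)))))) (.nv (.thr 3 60 (.thr 11 15 (.thr 26 56 (.thr 10 42 (.thr 9 8 (.dbl 1 13 61)))))) (.nv (.thr 1 61 (.thr 44 35 (.thr 60 3 (.thr 12 28 (.thr 9 13 (.dbl 25 51 57)))))) (.rp 63 (.thr 3 60 (.thr 61 1 (.thr 35 44 (.thr 51 19 (.thr 11 15 (.thr 26 56 (.thr 10 42 (.thr 9 8 (.dbl 25 12 57))))))))) (.rp 60 (.str 57 (.nv (.thr 9 25 (.dbl 1 13 61)) (.rp 63 (.thr 61 1 (.thr 25 9 (.thr 28 19 (.thr 16 24 (.thr 29 17 (.dbl 31 26 30))))))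 (.rp 61 (.str 63 (.nv (.thr 25 9 (.thr 28 19 (.thr 16 24 (.thr 56 59 (.dbl 26 11 31))))) (.nv (.thr 25 9 (.thr 29 17 (.dbl 12 46 51))) (.rp 25 (.thr 56 59 (.thr 26 11 (.thr 42 10 (.thr 16 31 (.thr 24 28 (.dbl 40 8 43)))))) (.rp 12 (.thr 56 59 (.thr 26 11 (.thr 44 35 (.thr 16 31 (.thr 24 28 (.dbl 25 9 27)))))) (.rp 9 (.thr 56 59 (.thr 26 11 (.thr 18 30 (.thr 16 31 (.thr 28 24 (.dbl 19 17 25)))))) (.rp 3 (.thr 25 9 (.thr 12 51 (.dbl 29 17 46))) .nd))))))) (.rp 49 (.thr 56 59 (.thr 25 9 (.thr 26 11 (.thr 28 19 (.dbl 24 16 27))))) (.rp 25 (.thr 56 59 (.thr 26 11 (.thr 42 10 (.thr 16 31 (.thr 24 28 (.dbl 40 8 43)))))) (.rp 13 (.thr 56 59 (.thr 25 9 (.thr 26 11 (.thr 28 19 (.dbl 24 16 27))))) (.rp 9 (.thr 56 59 (.thr 26 11 (.thr 18 30 (.thr 16 31 (.thr 19 17 (.dbl 28 24 25)))))) (.rp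 1 (.thr 56 59 (.thr 25 9 (.thr 26 11 (.thr 28 19 (.dbl 24 16 27))))) .nd))))))))) (.rp 51 (.thr 60 3 (.thr 1 61 (.thr 35 44 (.thr 9 13 (.thr 25 57 (.thr 28 19 (.thr 16 24 (.thr 31 26 (.dbl 29 17 30))))))))) (.rp 9 (.thr 3 60 (.thr 35 44 (.thr 11 15 (.thr 26 56 (.thr 16 31 (.thr 28 24 (.dbl 19 25 51))))))) (.rp 3 (.thr 1 61 (.thr 9 13 (.thr 25 57 (.thr 28 19 (.thr 16 24 (.thr 29 17 (.dbl 31 26 30))))))) (.rp 1 (.thr 3 60 (.thr 35 44 (.thr 11 15 (.thr 26 56 (.thr 16 31 (.thr 28 24 (.dbl 19 25 51))))))) .nd)))))))))) (.rp 60 (.thr 1 61 (.thr 9 13 (.thr 25 57 (.thr 51 12 (.thr 28 19 (.thr 29 17 (.thr 31 30 (.dbl 16 24 26)))))))) (.rp 58 (.str 62 (.nv (.thr 61 1 (.dbl 60 3 63)) (.rp 63 (.thr 3 60 (.thr 11 15 (.thr 26 56 (.thr 30 18 (.thr 46 14 (.dbl 42 2 34)))))) (.rp 61 (.thr 60 3 (.thr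 44 35 (.thr 56 48 (.thr 26 11 (.thr 16 31 (.dbl 28 12 24)))))) (.rp 60 (.thr 1 61 (.thr 9 13 (.thr 25 57 (.thr 51 12 (.thr 28 19 (.thr 29 17 (.thr 31 30 (.dbl 16 24 26)))))))) (.rp 3 (.thr 1 61 (.thr 9 13 (.thr 25 57 (.thr 28 19 (.thr 29 17 (.thr 31 30 (.dbl 16 24 26))))))) (.rp 2 (.thr 60 3 (.thr 1 61 (.thr 9 13 (.thr 25 57 (.thr 44 35 (.dbl 12 28 51)))))) (.rp 1 (.thr 3 60 (.thr 11 15 (.thr 26 56 (.thr 30 18 (.thr 46 14 (.dbl 42 2 34)))))) .nd)))))))) (.rp 51 (.thr 60 3 (.thr 35 44 (.thr 1 61 (.thr 9 13 (.thr 25 57 (.thr 28 19 (.thr 16 24 (.thr 31 26 (.dbl 29 17 30))))))))) (.rp 28 (.thr 3 60 (.thr 1 61 (.thr 13 9 (.thr 15 11 (.thr 35 44 (.thr 12 14 (.dbl 51 19 25))))))) (.rp 19 (.thr 3 60 (.thr 35 44 (.thr 1 61 (.thr 9 13 (.thr 11 15 (.thr 26 56 (.thr 10 8 (.thr 42 58 (.thr 62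 2 (.thr 40 43 (.thr 34 46 (.thr 33 32 (.dbl 18 30 48))))))))))))) (.rp 9 (.thr 3 60 (.thr 35 44 (.thr 11 15 (.thr 26 56 (.thr 16 31 (.thr 28 24 (.dbl 19 25 51))))))) (.rp 1 (.thr 3 60 (.thr 35 44 (.thr 11 15 (.thr 26 56 (.thr 16 31 (.thr 28 24 (.dbl 19 25 51))))))) .nd)))))))))))))))) (.rp 52 (.str 25 (.nv (.thr 19 28 (.thr 38 55 (.thr 51 12 (.thr 3 35 (.thr 54 6 (.dbl 60 41 57)))))) (.nv (.thr 29 17 (.thr 28 19 (.thr 31 30 (.dbl 16 24 26)))) (.rp 51 (.thr 28 19 (.thr 16 24 (.thr 31 26 (.dbl 29 17 30)))) (.rp 28 (.thr 17 29 (.thr 38 55 (.thr 54 6 (.thr 51 12 (.thr 60 57 (.thr 3 41 (.thr 19 35 (.thr 18 16 (.thr 30 26 (.thr 15 45 (.thr 39 27 (.thr 37 36 (.thr 53 5 (.thr 13 49 (.thr 48 33 (.thr 63 58 (.thr 62 61 (.thr 47 31 (.dbl 42 2 32))))))))))))))))))) (.rp 19 (.str 16 (.nv (.thr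 24 28 (.dbl 26 27 31)) (.rp 31 (.str 27 (.nv (.dbl 24 26 28) (.rp 28 (.thr 26 24 (.thr 30 18 (.thr 38 55 (.thr 54 6 (.thr 51 12 (.thr 60 57 (.dbl 15 39 45))))))) (.rp 26 (.thr 28 24 (.thr 38 55 (.thr 12 51 (.thr 60 44 (.thr 3 41 (.dbl 6 9 54)))))) (.rp 24 (.str 1 (.nv (.thr 17 29 (.thr 38 55 (.thr 49 33 (.thr 51 12 (.thr 39 15 (.dbl 37 13 36)))))) (.nv (.thr 38 55 (.thr 41 61 (.thr 51 12 (.thr 54 6 (.dbl 57 9 60))))) (.nv (.thr 17 29 (.thr 49 33 (.thr 13 37 (.thr 41 61 (.dbl 9 5 57))))) .nd)))) .nd))))) (.rp 28 (.thr 26 31 (.thr 27 24 (.thr 30 18 (.thr 38 55 (.thr 54 6 (.thr 51 12 (.thr 60 57 (.dbl 15 39 45)))))))) (.rp 27 (.thr 31 26 (.thr 29 17 (.dbl 28 24 30))) (.rp 26 (.thr 28 24 (.thr 38 55 (.thr 12 51 (.thr 60 44 (.thr 3 41 (.dbl 6 9 54)))))) (.rp 24 (.thr 29 17 (.thr 31 26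 (.thr 30 28 (.thr 38 55 (.thr 54 6 (.thr 51 12 (.thr 60 57 (.thr 15 45 (.thr 63 47 (.thr 61 62 (.dbl 41 1 3))))))))))) .nd))))))) .nd)))))) (.rp 38 (.str 26 (.nv (.thr 18 30 (.thr 52 36 (.thr 37 7 (.thr 48 15 (.thr 3 33 (.dbl 60 41 56)))))) (.nv (.thr 16 31 (.thr 18 30 (.thr 28 24 (.dbl 19 17 25)))) (.rp 30 (.thr 16 31 (.thr 28 24 (.thr 19 25 (.thr 18 17 (.thr 52 36 (.thr 37 7 (.thr 48 15 (.thr 60 56 (.dbl 3 33 41))))))))) (.rp 18 (.thr 16 31 (.thr 24 28 (.thr 52 36 (.thr 37 7 (.thr 48 15 (.thr 56 60 (.thr 11 41 (.thr 8 40 (.thr 10 9 (.thr 53 5 (.dbl 58 42 63))))))))))) .nd))))) (.rp 37 (.str 25 (.nv (.thr 19 28 (.thr 38 55 (.thr 51 12 (.thr 3 35 (.thr 54 6 (.dbl 60 41 57)))))) (.nv (.thr 29 17 (.thr 28 19 (.thr 31 30 (.dbl 16 24 26)))) (.rp 51 (.thr 28 19 (.thr 16 24 (.thr 31 26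 (.dbl 29 17 30)))) (.rp 28 (.thr 17 29 (.thr 52 36 (.thr 38 55 (.thr 54 6 (.thr 51 12 (.thr 60 57 (.thr 48 56 (.thr 3 41 (.thr 19 35 (.dbl 18 16 33)))))))))) (.rp 19 (.thr 38 55 (.thr 6 54 (.thr 12 51 (.thr 3 9 (.thr 60 41 (.thr 28 44 (.thr 24 16 (.dbl 36 48 52)))))))) .nd)))))) (.rp 36 (.str 25 (.nv (.thr 19 28 (.thr 38 55 (.thr 51 12 (.thr 3 35 (.thr 54 6 (.dbl 60 41 57)))))) (.nv (.thr 29 17 (.thr 28 19 (.thr 31 30 (.dbl 16 24 26)))) (.rp 51 (.thr 28 19 (.thr 16 24 (.thr 31 26 (.dbl 29 17 30)))) (.rp 28 (.thr 38 55 (.thr 6 54 (.thr 7 5 (.thr 12 51 (.thr 3 9 (.thr 15 11 (.thr 13 14 (.dbl 37 49 52)))))))) (.rp 24 (.thr 28 19 (.thr 38 55 (.thr 6 54 (.thr 12 51 (.thr 3 9 (.dbl 60 41 44)))))) (.rp 19 (.thr 38 55 (.thr 6 54 (.thr 7 5 (.thr 12 51 (.thr 3 9 (.thr 15 11 (.thr 13 14 (.dbl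 37 49 52)))))))) .nd))))))) (.rp 7 (.thr 36 52 (.thr 38 55 (.thr 39 37 (.thr 54 6 (.str 51 (.nv (.thr 12 25 (.thr 24 48 (.thr 60 57 (.dbl 28 16 44)))) (.nv (.thr 25 12 (.thr 27 15 (.thr 28 19 (.dbl 24 16 26)))) (.nv (.thr 25 12 (.thr 19 28 (.thr 60 57 (.dbl 3 35 41)))) (.rp 28 (.thr 15 27 (.thr 60 57 (.thr 45 30 (.thr 41 3 (.thr 12 25 (.thr 13 14 (.dbl 61 1 29))))))) (.rp 25 (.thr 15 27 (.thr 60 57 (.thr 30 45 (.thr 26 18 (.thr 31 16 (.thr 47 63 (.thr 35 43 (.dbl 3 19 41)))))))) (.rp 12 (.thr 15 27 (.thr 60 57 (.thr 30 45 (.thr 26 18 (.thr 31 16 (.thr 47 63 (.thr 35 43 (.dbl 3 19 41)))))))) (.rp 9 (.thr 60 57 (.thr 3 41 (.thr 25 12 (.dbl 19 28 35)))) .nd)))))))))))) (.rp 6 (.thr 52 36 (.thr 37 7 (.thr 53 5 (.dbl 55 38 54)))) (.rp 5 (.thr 52 36 (.str 60 (.nv (.thr 3 41 (.thr 38 55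 (.thr 6 54 (.thr 12 9 (.thr 28 44 (.dbl 25 19 51)))))) (.nv (.thr 3 41 (.thr 48 56 (.thr 18 33 (.thr 26 30 (.dbl 37 7 15))))) (.rp 41 (.thr 38 55 (.thr 54 6 (.thr 51 57 (.thr 25 12 (.thr 28 19 (.thr 29 17 (.thr 31 30 (.dbl 16 24 26)))))))) (.rp 15 (.str 10 (.nv (.thr 38 55 (.thr 6 54 (.thr 2 14 (.thr 41 3 (.thr 61 1 (.dbl 62 42 63)))))) (.nv (.thr 3 41 (.thr 48 56 (.thr 18 33 (.thr 26 30 (.thr 16 31 (.thr 28 24 (.dbl 19 17 25))))))) (.nv (.thr 3 41 (.thr 38 55 (.thr 54 6 (.thr 51 57 (.thr 19 35 (.dbl 25 12 28)))))) (.rp 41 (.thr 38 55 (.thr 54 6 (.thr 51 57 (.thr 25 12 (.thr 29 17 (.thr 28 19 (.thr 31 30 (.dbl 16 24 26)))))))) (.rp 3 (.thr 38 55 (.thr 6 54 (.thr 2 14 (.thr 42 62 (.thr 58 26 (.thr 46 34 (.thr 48 56 (.thr 63 53 (.thr 12 29 (.thr 28 44 (.dbl 25 19 51))))))))))) .nd))))))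 (.rp 10 (.str 15 (.nv (.thr 30 45 (.thr 18 26 (.thr 48 56 (.dbl 3 33 41)))) (.nv (.thr 7 37 (.dbl 3 11 41)) (.nv (.thr 48 56 (.dbl 37 7 26)) .nd)))) (.rp 7 (.thr 55 38 (.thr 54 53 (.thr 51 57 (.thr 63 59 (.thr 61 62 (.dbl 41 1 3)))))) (.rp 3 (.thr 38 55 (.thr 54 6 (.thr 48 56 (.thr 51 57 (.thr 12 25 (.thr 28 44 (.thr 16 24 (.thr 26 31 (.dbl 37 7 15))))))))) .nd))))))))) .nd)))))))))))

theorem w75 : WinAt (7340032, 1125899915231233) :=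
  chF (K := []) kn c75 7340032 1125899915231233 23
    [] (by decide +kernel) (by decide +kernel)

/-- A certificate. -/
noncomputable def c76 : Ct := (.str 38 (.nv (.thr 23 20 (.thr 54 6 (.thr 55 4 (.thr 7 39 (.dbl 52 37 53))))) (.nv (.thr 20 23 (.thr 4 55 (.thr 52 36 (.thr 7 37 (.dbl 6 5 54))))) (.rp 55 (.str 26 (.nv (.thr 20 23 (.thr 18 30 (.thr 16 31 (.thr 28 24 (.dbl 19 17 25))))) (.nv (.thr 18 30 (.thr 54 6 (.thr 50 14 (.thr 62 58 (.dbl 2 34 42))))) (.rp 63 (.str 59 (.nv (.thr 20 23 (.thr 18 30 (.thr 16 31 (.thr 28 24 (.dbl 19 17 25))))) (.nv (.thr 18 30 (.thr 54 6 (.thr 50 14 (.thr 62 58 (.dbl 2 34 42))))) (.rp 34 (.str 17 (.nv (.thr 16 31 (.thr 20 23 (.thr 25 29 (.dbl 28 19 24)))) (.nv (.thr 18 30 (.dbl 16 19 31)) (.rp 31 (.thr 18 30 (.thr 19 16 (.dbl 25 28 29))) (.rp 19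 (.thr 30 18 (.thr 29 25 (.dbl 31 16 28))) (.rp 16 (.thr 30 18 (.thr 6 54 (.thr 14 50 (.thr 2 10 (.dbl 62 42 46))))) .nd)))))) (.rp 30 (.thr 54 6 (.thr 50 14 (.thr 31 16 (.thr 23 20 (.thr 27 19 (.thr 11 43 (.thr 56 41 (.dbl 58 57 62)))))))) (.rp 18 (.thr 54 6 (.thr 50 14 (.thr 58 62 (.thr 31 16 (.thr 23 20 (.thr 56 57 (.thr 11 41 (.dbl 27 19 43)))))))) (.rp 17 (.str 34 (.nv (.thr 6 54 (.thr 14 50 (.thr 2 10 (.dbl 42 46 62)))) (.nv (.thr 50 14 (.dbl 18 2 30)) (.rp 50 (.thr 30 18 (.thr 23 20 (.thr 31 16 (.thr 19 27 (.dbl 28 25 29))))) (.rp 14 (.thr 18 30 (.thr 2 50 (.dbl 42 46 62))) (.rp 2 (.thr 14 50 (.thr 30 18 (.dbl 46 42 62))) .nd)))))) .nd))))))) (.rp 59 (.str 63 (.nv (.thr 6 54 (.thr 14 50 (.thr 2 10 (.thr 23 20 (.thr 3 43 (.thr 60 41 (.dbl 62 42 61))))))) (.nv (.thr 6 54 (.thr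 14 50 (.thr 2 10 (.thr 30 18 (.dbl 62 42 46))))) (.nv (.thr 20 23 (.thr 16 31 (.thr 28 24 (.thr 18 30 (.dbl 19 17 25))))) (.rp 34 (.str 17 (.nv (.thr 16 31 (.thr 20 23 (.thr 25 29 (.dbl 28 19 24)))) (.nv (.thr 14 50 (.thr 29 25 (.thr 46 12 (.dbl 30 18 62)))) (.nv (.thr 18 30 (.dbl 16 19 31)) .nd)))) (.rp 17 (.str 34 (.nv (.thr 6 54 (.thr 14 50 (.thr 2 10 (.dbl 42 46 62)))) (.nv (.thr 30 18 (.thr 46 42 (.thr 29 12 (.dbl 31 16 28)))) (.nv (.thr 50 14 (.dbl 18 2 30)) .nd)))) .nd)))))) (.rp 34 (.str 17 (.nv (.thr 16 31 (.thr 20 23 (.thr 25 29 (.dbl 28 19 24)))) (.nv (.thr 16 31 (.dbl 18 19 30)) (.rp 63 (.str 59 (.nv (.thr 16 31 (.thr 20 23 (.thr 25 29 (.dbl 28 19 24)))) (.nv (.thr 18 30 (.dbl 16 19 31)) (.rp 31 (.thr 18 30 (.thr 19 16 (.dbl 25 28 29))) (.rp 19 (.thr 30 18 (.thr 29 25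 (.dbl 31 16 28))) (.rp 16 (.thr 30 18 (.thr 6 54 (.thr 14 50 (.thr 2 10 (.dbl 62 42 46))))) .nd)))))) (.rp 59 (.str 63 (.nv (.thr 16 31 (.thr 20 23 (.thr 25 29 (.dbl 28 19 24)))) (.nv (.thr 14 50 (.thr 29 25 (.thr 46 12 (.dbl 30 18 62)))) (.nv (.thr 18 30 (.dbl 16 19 31)) .nd)))) (.rp 31 (.thr 18 30 (.thr 19 16 (.dbl 25 28 29))) (.rp 19 (.thr 31 16 (.thr 30 18 (.dbl 29 25 28))) (.rp 16 (.thr 6 54 (.thr 14 50 (.thr 2 10 (.thr 30 18 (.dbl 62 42 46))))) .nd)))))))) (.rp 30 (.thr 54 6 (.thr 20 23 (.thr 16 31 (.thr 50 14 (.thr 62 58 (.thr 2 42 (.thr 28 24 (.thr 19 25 (.dbl 18 17 34))))))))) (.rp 18 (.thr 6 54 (.thr 23 20 (.thr 31 16 (.thr 19 27 (.thr 14 50 (.thr 2 10 (.thr 62 42 (.thr 30 46 (.dbl 28 25 29))))))))) (.rp 17 (.str 34 (.nv (.thr 6 54 (.thr 14 50 (.thr 2 10 (.dbl 42 46 62))))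 (.nv (.thr 50 14 (.dbl 18 2 30)) (.rp 63 (.str 59 (.nv (.thr 6 54 (.thr 14 50 (.thr 2 10 (.dbl 42 46 62)))) (.nv (.thr 50 14 (.dbl 18 2 30)) (.rp 50 (.thr 30 18 (.thr 23 20 (.thr 31 16 (.thr 19 27 (.dbl 28 25 29))))) (.rp 14 (.thr 18 30 (.thr 2 50 (.dbl 42 46 62))) (.rp 2 (.thr 14 50 (.thr 30 18 (.dbl 46 42 62))) .nd)))))) (.rp 59 (.str 63 (.nv (.thr 6 54 (.thr 14 50 (.thr 2 10 (.dbl 42 46 62)))) (.nv (.thr 30 18 (.thr 46 42 (.thr 29 12 (.dbl 31 16 28)))) (.nv (.thr 50 14 (.dbl 18 2 30)) .nd)))) (.rp 50 (.thr 23 20 (.thr 31 16 (.thr 19 27 (.thr 30 18 (.dbl 28 25 29))))) (.rp 14 (.thr 18 30 (.thr 2 50 (.dbl 42 46 62))) (.rp 2 (.thr 14 50 (.thr 30 18 (.dbl 46 42 62))) .nd)))))))) .nd))))))))) (.rp 54 (.thr 20 23 (.str 52 (.nv (.dbl 4 36 55) (.rp 60 (.str 57 (.nv (.dbl 4 36 55) (.rp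 55 (.thr 36 4 (.dbl 37 7 39)) (.rp 36 (.thr 37 7 (.thr 53 5 (.thr 49 61 (.thr 25 13 (.thr 28 19 (.thr 16 24 (.thr 31 26 (.dbl 29 17 30)))))))) (.rp 34 (.str 17 (.nv (.dbl 4 36 55) (.rp 55 (.thr 36 4 (.dbl 37 7 39)) (.rp 36 (.thr 37 7 (.thr 53 5 (.thr 49 61 (.dbl 25 13 29)))) (.rp 4 (.thr 37 7 (.thr 25 29 (.thr 49 13 (.dbl 53 5 61)))) .nd))))) (.rp 17 (.str 34 (.nv (.dbl 4 36 55) (.rp 55 (.thr 36 4 (.dbl 37 7 39)) (.rp 36 (.thr 37 7 (.thr 53 5 (.thr 61 49 (.thr 41 1 (.thr 33 45 (.dbl 35 32 44)))))) (.rp 4 (.thr 37 7 (.thr 42 46 (.thr 32 47 (.thr 35 33 (.thr 44 41 (.dbl 36 39 40)))))) .nd))))) (.rp 4 (.str 1 (.nv (.thr 41 61 (.thr 25 9 (.thr 17 29 (.thr 49 33 (.dbl 37 7 13))))) (.nv (.thr 61 41 (.thr 53 49 (.dbl 37 5 7))) (.rp 61 (.thr 37 7 (.thr 5 53 (.thr 9 13 (.thr 25 41 (.thr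 28 19 (.thr 16 24 (.thr 31 26 (.dbl 29 17 30)))))))) (.rp 49 (.thr 37 7 (.thr 5 53 (.thr 41 61 (.dbl 9 13 25)))) (.rp 41 (.thr 37 7 (.thr 5 53 (.thr 13 9 (.thr 25 49 (.thr 28 19 (.thr 16 24 (.thr 31 26 (.dbl 29 17 30)))))))) (.rp 37 (.thr 41 61 (.thr 25 9 (.thr 28 19 (.thr 16 24 (.thr 31 26 (.dbl 29 17 30)))))) (.rp 34 (.str 17 (.nv (.thr 37 7 (.thr 49 33 (.dbl 53 5 61))) (.nv (.thr 25 29 (.dbl 41 9 61)) (.rp 61 (.thr 49 33 (.thr 37 7 (.dbl 25 13 29))) (.rp 12 (.str 8 (.nv (.thr 25 29 (.dbl 41 9 61)) (.nv (.thr 25 29 (.thr 37 7 (.dbl 49 13 33))) (.nv (.thr 61 41 (.dbl 49 33 53)) (.rp 44 (.str 28 (.nv (.thr 49 33 (.dbl 61 41 53)) (.nv (.dbl 25 19 29) .nd))) (.rp 28 (.str 44 (.nv (.thr 25 29 (.thr 37 7 (.dbl 49 13 33))) (.nv (.dbl 41 35 61) .nd))) .nd)))))) (.rp 8 (.str 12 (.nv (.thr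 37 7 (.thr 49 33 (.dbl 53 5 61))) (.nv (.thr 25 29 (.dbl 41 9 61)) (.rp 61 (.thr 49 33 (.thr 25 29 (.dbl 37 7 13))) .nd)))) .nd)))))) (.rp 17 (.str 34 (.nv (.thr 41 61 (.thr 35 44 (.thr 32 33 (.thr 42 46 (.dbl 37 7 47))))) (.nv (.thr 61 41 (.thr 53 49 (.dbl 37 5 7))) (.rp 61 (.thr 37 7 (.thr 5 53 (.thr 9 13 (.thr 41 25 (.thr 35 44 (.dbl 33 32 45)))))) (.rp 41 (.thr 37 7 (.thr 5 53 (.thr 42 46 (.thr 2 62 (.thr 50 18 (.thr 13 9 (.thr 25 49 (.thr 28 19 (.thr 16 24 (.dbl 26 14 31)))))))))) (.rp 37 (.thr 41 61 (.thr 25 9 (.thr 42 46 (.thr 40 43 (.thr 8 59 (.thr 24 56 (.dbl 28 16 19))))))) (.rp 12 (.str 8 (.nv (.thr 37 7 (.thr 5 53 (.thr 13 9 (.thr 25 49 (.dbl 42 46 59))))) (.nv (.thr 42 46 (.thr 25 59 (.dbl 41 9 61))) (.nv (.thr 61 41 (.thr 53 49 (.dbl 37 5 7))) (.rp 44 (.str 28 (.nv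 (.thr 16 24 (.thr 26 31 (.thr 18 30 (.dbl 50 2 14)))) (.nv (.thr 41 61 (.dbl 25 9 19)) (.rp 19 (.thr 41 61 (.thr 25 9 (.dbl 42 46 59))) .nd)))) (.rp 28 (.str 44 (.nv (.dbl 41 35 61) (.rp 61 (.thr 42 46 (.thr 41 35 (.dbl 25 9 59))) (.rp 41 (.thr 42 46 (.thr 37 7 (.thr 32 47 (.dbl 36 39 40)))) (.rp 35 (.thr 41 61 (.thr 25 9 (.dbl 42 46 59))) .nd))))) .nd)))))) (.rp 8 (.str 12 (.nv (.thr 41 61 (.thr 35 44 (.thr 32 33 (.thr 42 46 (.dbl 37 7 47))))) (.nv (.thr 61 41 (.thr 53 49 (.dbl 37 5 7))) (.rp 61 (.thr 42 46 (.thr 37 7 (.thr 32 47 (.thr 35 33 (.thr 44 41 (.dbl 36 39 40)))))) (.rp 41 (.thr 37 7 (.thr 5 53 (.thr 13 9 (.thr 15 14 (.thr 48 26 (.dbl 36 24 39)))))) (.rp 37 (.thr 41 61 (.thr 25 9 (.thr 46 42 (.thr 28 19 (.thr 16 24 (.thr 31 26 (.dbl 29 30 63))))))) (.rp 7 (.thr 41 61 (.thr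 9 25 (.thr 5 13 (.thr 37 53 (.thr 35 44 (.dbl 33 32 45)))))) .nd))))))) (.rp 7 (.thr 41 61 (.thr 9 25 (.thr 35 44 (.thr 33 32 (.thr 37 45 (.dbl 5 13 53)))))) .nd))))))))) (.rp 12 (.str 8 (.nv (.thr 41 61 (.thr 25 9 (.thr 17 29 (.thr 49 33 (.dbl 37 7 13))))) (.nv (.thr 61 41 (.thr 53 49 (.dbl 37 5 7))) (.rp 61 (.thr 37 7 (.thr 5 53 (.thr 9 13 (.thr 25 41 (.thr 59 42 (.thr 56 58 (.thr 28 19 (.dbl 24 16 40)))))))) (.rp 49 (.thr 37 7 (.thr 5 53 (.thr 41 61 (.dbl 9 13 25)))) (.rp 44 (.str 28 (.nv (.thr 37 7 (.thr 61 41 (.dbl 53 5 49))) (.nv (.thr 16 24 (.thr 19 25 (.thr 26 31 (.dbl 18 17 30)))) (.nv (.thr 41 61 (.dbl 25 9 19)) (.rp 34 (.str 17 (.nv (.thr 49 33 (.dbl 61 41 53)) (.nv (.dbl 25 19 29) .nd))) (.rp 17 (.str 34 (.nv (.thr 16 24 (.thr 26 31 (.thr 18 30 (.dbl 50 2 14)))) (.nv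 (.thr 41 61 (.dbl 25 9 19)) (.rp 19 (.thr 41 61 (.thr 25 9 (.dbl 42 46 59))) .nd)))) .nd)))))) (.rp 41 (.thr 37 7 (.thr 5 53 (.thr 13 9 (.thr 25 49 (.thr 59 42 (.thr 56 58 (.thr 28 19 (.dbl 24 16 40)))))))) (.rp 37 (.thr 41 61 (.thr 25 9 (.thr 42 59 (.thr 40 43 (.thr 24 56 (.dbl 28 16 19)))))) (.rp 34 (.str 17 (.nv (.thr 25 29 (.dbl 41 9 61)) (.nv (.thr 25 29 (.thr 37 7 (.dbl 49 13 33))) (.nv (.thr 61 41 (.dbl 49 33 53)) (.rp 44 (.str 28 (.nv (.thr 49 33 (.dbl 61 41 53)) (.nv (.dbl 25 19 29) .nd))) (.rp 28 (.str 44 (.nv (.thr 25 29 (.thr 37 7 (.dbl 49 13 33))) (.nv (.dbl 41 35 61) .nd))) .nd)))))) (.rp 28 (.str 44 (.nv (.dbl 41 35 61) (.rp 61 (.thr 41 35 (.thr 9 25 (.thr 5 13 (.dbl 37 7 53)))) (.rp 41 (.thr 37 7 (.thr 5 53 (.thr 13 9 (.thr 25 49 (.thr 42 59 (.thr 32 47 (.dbl 36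 39 40))))))) (.rp 35 (.thr 61 41 (.thr 53 49 (.dbl 37 5 7))) (.rp 34 (.str 17 (.nv (.thr 25 29 (.thr 37 7 (.dbl 49 13 33))) (.nv (.dbl 41 35 61) .nd))) (.rp 17 (.str 34 (.nv (.dbl 41 35 61) (.rp 61 (.thr 42 46 (.thr 41 35 (.dbl 25 9 59))) (.rp 41 (.thr 42 46 (.thr 37 7 (.thr 32 47 (.dbl 36 39 40)))) (.rp 35 (.thr 41 61 (.thr 25 9 (.dbl 42 46 59))) .nd))))) .nd))))))) (.rp 17 (.str 34 (.nv (.thr 37 7 (.thr 5 53 (.thr 13 9 (.thr 25 49 (.dbl 42 46 59))))) (.nv (.thr 42 46 (.thr 25 59 (.dbl 41 9 61))) (.nv (.thr 61 41 (.thr 53 49 (.dbl 37 5 7))) (.rp 44 (.str 28 (.nv (.thr 16 24 (.thr 26 31 (.thr 18 30 (.dbl 50 2 14)))) (.nv (.thr 41 61 (.dbl 25 9 19)) (.rp 19 (.thr 41 61 (.thr 25 9 (.dbl 42 46 59))) .nd)))) (.rp 28 (.str 44 (.nv (.dbl 41 35 61) (.rp 61 (.thr 42 46 (.thr 41 35 (.dbl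 25 9 59))) (.rp 41 (.thr 42 46 (.thr 37 7 (.thr 32 47 (.dbl 36 39 40)))) (.rp 35 (.thr 41 61 (.thr 25 9 (.dbl 42 46 59))) .nd))))) .nd)))))) (.rp 7 (.thr 41 61 (.thr 25 9 (.thr 42 59 (.thr 40 43 (.thr 24 56 (.dbl 28 16 19)))))) .nd)))))))))))) (.rp 8 (.str 12 (.nv (.thr 41 61 (.thr 25 9 (.thr 17 29 (.thr 49 33 (.dbl 37 7 13))))) (.nv (.thr 61 41 (.thr 53 49 (.dbl 37 5 7))) (.rp 61 (.thr 37 7 (.thr 5 53 (.thr 13 9 (.thr 15 14 (.thr 48 26 (.dbl 36 24 39)))))) (.rp 49 (.thr 41 61 (.thr 9 25 (.thr 5 13 (.dbl 37 7 53)))) (.rp 41 (.thr 37 7 (.thr 5 53 (.thr 13 9 (.thr 15 14 (.thr 48 26 (.dbl 36 24 39)))))) (.rp 37 (.thr 41 61 (.thr 25 9 (.thr 28 19 (.thr 16 24 (.thr 31 26 (.dbl 29 17 30)))))) (.rp 34 (.str 17 (.nv (.thr 37 7 (.thr 49 33 (.dbl 53 5 61))) (.nv (.thr 25 29 (.dbl 41 9 61))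 (.rp 61 (.thr 49 33 (.thr 25 29 (.dbl 37 7 13))) .nd)))) (.rp 17 (.str 34 (.nv (.thr 41 61 (.thr 35 44 (.thr 32 33 (.thr 42 46 (.dbl 37 7 47))))) (.nv (.thr 61 41 (.thr 53 49 (.dbl 37 5 7))) (.rp 61 (.thr 42 46 (.thr 37 7 (.thr 32 47 (.thr 35 33 (.thr 44 41 (.dbl 36 39 40)))))) (.rp 41 (.thr 37 7 (.thr 5 53 (.thr 13 9 (.thr 15 14 (.thr 48 26 (.dbl 36 24 39)))))) (.rp 37 (.thr 41 61 (.thr 25 9 (.thr 46 42 (.thr 28 19 (.thr 16 24 (.thr 31 26 (.dbl 29 30 63))))))) (.rp 7 (.thr 41 61 (.thr 9 25 (.thr 5 13 (.thr 37 53 (.thr 35 44 (.dbl 33 32 45)))))) .nd))))))) (.rp 7 (.thr 41 61 (.thr 25 9 (.thr 28 19 (.thr 16 24 (.thr 31 26 (.dbl 29 17 30)))))) .nd)))))))))) (.rp 7 (.thr 41 61 (.thr 25 9 (.thr 28 19 (.thr 16 24 (.thr 31 26 (.dbl 29 17 30)))))) .nd)))))))))))) .nd))))))) (.rp 57 (.str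 60 (.nv (.dbl 4 36 55) (.rp 55 (.thr 36 4 (.dbl 37 7 39)) (.rp 36 (.thr 37 7 (.thr 48 56 (.thr 15 26 (.thr 45 30 (.dbl 41 3 33))))) (.rp 34 (.str 17 (.nv (.dbl 4 36 55) (.rp 55 (.thr 36 4 (.dbl 37 7 39)) (.rp 36 (.thr 37 7 (.thr 41 3 (.thr 1 61 (.dbl 33 45 49)))) (.rp 4 (.thr 37 7 (.thr 41 3 (.thr 1 61 (.dbl 33 45 49)))) .nd))))) (.rp 17 (.str 34 (.nv (.dbl 4 36 55) (.rp 55 (.thr 36 4 (.dbl 37 7 39)) (.rp 36 (.thr 37 7 (.thr 41 3 (.thr 35 44 (.dbl 33 32 45)))) (.rp 4 (.thr 37 7 (.thr 41 3 (.thr 35 44 (.dbl 33 32 45)))) .nd))))) (.rp 4 (.thr 37 7 (.thr 48 56 (.thr 15 26 (.thr 45 30 (.dbl 41 3 33))))) .nd))))))) (.rp 55 (.thr 36 4 (.dbl 37 7 39)) (.rp 36 (.str 60 (.nv (.thr 3 41 (.thr 37 7 (.thr 48 56 (.thr 26 15 (.dbl 18 30 33))))) (.nv (.thr 3 41 (.thr 48 56 (.thr 18 33 (.thr 26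 30 (.thr 16 31 (.thr 28 24 (.dbl 19 17 25))))))) (.nv (.thr 37 7 (.thr 5 53 (.thr 41 3 (.thr 1 61 (.thr 13 9 (.thr 33 45 (.dbl 49 17 25))))))) (.nv (.thr 3 41 (.thr 48 56 (.thr 18 33 (.thr 26 30 (.dbl 37 7 15))))) (.rp 41 (.thr 37 7 (.thr 48 56 (.thr 26 15 (.thr 18 30 (.thr 16 31 (.thr 28 24 (.dbl 19 17 25))))))) (.rp 37 (.thr 56 48 (.thr 41 3 (.thr 26 11 (.thr 18 30 (.thr 16 31 (.thr 28 24 (.thr 12 44 (.dbl 19 17 25)))))))) (.rp 34 (.str 17 (.nv (.thr 37 7 (.thr 48 56 (.thr 26 15 (.thr 16 31 (.dbl 18 19 30))))) (.nv (.thr 37 7 (.thr 41 3 (.thr 35 44 (.thr 1 61 (.dbl 33 45 49))))) (.nv (.thr 3 41 (.thr 25 29 (.thr 19 28 (.thr 18 16 (.dbl 48 33 56))))) (.rp 3 (.thr 37 7 (.thr 53 5 (.thr 25 29 (.thr 49 13 (.thr 1 33 (.dbl 61 41 57)))))) .nd))))) (.rp 33 (.thr 37 7 (.thr 53 5 (.thr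 48 56 (.thr 63 58 (.thr 41 3 (.dbl 61 1 62)))))) (.rp 17 (.str 34 (.nv (.thr 37 7 (.thr 48 56 (.thr 15 26 (.thr 45 30 (.dbl 41 3 33))))) (.nv (.thr 42 46 (.thr 62 2 (.thr 61 63 (.dbl 41 1 3)))) (.rp 55 (.thr 42 46 (.thr 2 62 (.thr 48 56 (.thr 3 41 (.dbl 18 33 50))))) (.rp 41 (.thr 37 7 (.thr 48 56 (.thr 26 15 (.thr 50 14 (.dbl 18 2 30))))) (.rp 3 (.thr 37 7 (.thr 53 5 (.thr 42 46 (.thr 48 56 (.thr 63 58 (.dbl 62 2 61)))))) .nd)))))) (.rp 3 (.thr 37 7 (.thr 53 5 (.thr 48 56 (.thr 15 26 (.thr 45 30 (.thr 63 58 (.thr 41 33 (.dbl 61 1 62)))))))) .nd))))))))))) (.rp 34 (.str 17 (.nv (.dbl 4 36 55) (.rp 60 (.str 57 (.nv (.dbl 4 36 55) (.rp 55 (.thr 36 4 (.dbl 37 7 39)) (.rp 36 (.thr 37 7 (.thr 53 5 (.thr 49 61 (.dbl 25 13 29)))) (.rp 4 (.thr 37 7 (.thr 25 29 (.thr 49 13 (.dbl 53 5 61))))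 .nd))))) (.rp 57 (.str 60 (.nv (.dbl 4 36 55) (.rp 55 (.thr 36 4 (.dbl 37 7 39)) (.rp 36 (.thr 37 7 (.thr 41 3 (.thr 1 61 (.dbl 33 45 49)))) (.rp 4 (.thr 37 7 (.thr 41 3 (.thr 1 61 (.dbl 33 45 49)))) .nd))))) (.rp 55 (.thr 36 4 (.dbl 37 7 39)) (.rp 36 (.thr 37 7 (.thr 53 5 (.thr 25 29 (.thr 49 13 (.thr 1 33 (.dbl 61 41 57)))))) (.rp 4 (.thr 37 7 (.thr 25 29 (.thr 49 13 (.thr 1 33 (.thr 61 41 (.dbl 53 5 57)))))) .nd))))))) (.rp 17 (.str 34 (.nv (.dbl 4 36 55) (.rp 60 (.str 57 (.nv (.dbl 4 36 55) (.rp 55 (.thr 36 4 (.dbl 37 7 39)) (.rp 36 (.thr 37 7 (.thr 53 5 (.thr 61 49 (.thr 41 1 (.thr 33 45 (.dbl 35 32 44)))))) (.rp 4 (.thr 37 7 (.thr 42 46 (.thr 32 47 (.thr 35 33 (.thr 44 41 (.dbl 36 39 40)))))) .nd))))) (.rp 57 (.str 60 (.nv (.dbl 4 36 55) (.rp 55 (.thr 36 4 (.dbl 37 7 39))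 (.rp 36 (.thr 37 7 (.thr 41 3 (.thr 35 44 (.dbl 33 32 45)))) (.rp 4 (.thr 37 7 (.thr 41 3 (.thr 35 44 (.dbl 33 32 45)))) .nd))))) (.rp 55 (.thr 36 4 (.dbl 37 7 39)) (.rp 36 (.thr 7 37 (.thr 4 55 (.thr 6 5 (.thr 42 46 (.thr 2 62 (.thr 50 18 (.dbl 14 10 26))))))) (.rp 4 (.thr 37 7 (.thr 42 46 (.thr 32 47 (.thr 35 33 (.thr 44 41 (.dbl 36 39 40)))))) .nd))))))) (.rp 4 (.str 60 (.nv (.thr 3 41 (.thr 48 56 (.thr 18 33 (.thr 26 30 (.thr 16 31 (.thr 28 24 (.dbl 19 17 25))))))) (.nv (.thr 37 7 (.thr 48 56 (.thr 26 15 (.thr 16 31 (.thr 24 28 (.dbl 36 12 39)))))) (.nv (.thr 37 7 (.thr 5 53 (.thr 41 3 (.thr 1 61 (.thr 13 9 (.thr 33 45 (.dbl 49 17 25))))))) (.nv (.thr 3 41 (.thr 48 56 (.thr 18 33 (.thr 26 30 (.dbl 37 7 15))))) (.rp 37 (.thr 56 48 (.thr 41 3 (.thr 26 11 (.thr 16 31 (.thr 28 24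 (.dbl 44 12 35)))))) (.rp 34 (.str 17 (.nv (.thr 25 29 (.thr 19 28 (.thr 16 18 (.thr 37 7 (.thr 48 56 (.dbl 26 15 31)))))) (.nv (.thr 37 7 (.thr 41 3 (.thr 35 44 (.thr 1 61 (.dbl 33 45 49))))) (.nv (.thr 3 41 (.thr 25 29 (.thr 19 28 (.thr 18 16 (.dbl 48 33 56))))) (.rp 12 (.str 8 (.nv (.thr 37 7 (.thr 41 3 (.thr 1 61 (.dbl 33 45 49)))) (.nv (.thr 3 41 (.thr 37 7 (.thr 48 56 (.thr 26 15 (.dbl 18 30 33))))) (.nv (.thr 56 48 (.thr 24 40 (.thr 25 29 (.dbl 28 16 19)))) .nd)))) (.rp 8 (.str 12 (.nv (.thr 37 7 (.thr 48 56 (.dbl 36 24 39))) (.nv (.thr 28 44 (.dbl 25 19 29)) .nd))) .nd)))))) (.rp 17 (.str 34 (.nv (.thr 3 41 (.thr 37 7 (.thr 39 36 (.thr 48 56 (.thr 26 15 (.dbl 18 30 33)))))) (.nv (.thr 42 46 (.thr 62 2 (.thr 61 63 (.dbl 41 1 3)))) (.rp 41 (.thr 37 7 (.thr 48 56 (.thr 26 15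 (.thr 50 14 (.dbl 18 2 30))))) (.rp 12 (.str 8 (.nv (.thr 37 7 (.thr 41 3 (.thr 33 45 (.dbl 35 32 44)))) (.nv (.thr 56 48 (.thr 24 40 (.thr 42 46 (.thr 25 59 (.dbl 28 16 19))))) (.nv (.thr 3 41 (.thr 48 56 (.thr 18 33 (.thr 26 30 (.dbl 37 7 15))))) .nd)))) (.rp 8 (.str 12 (.nv (.thr 37 7 (.thr 48 56 (.dbl 36 24 39))) (.nv (.thr 44 28 (.dbl 41 3 35)) .nd))) (.rp 3 (.thr 37 7 (.thr 42 46 (.thr 2 62 (.thr 50 18 (.thr 48 56 (.dbl 26 14 15)))))) .nd))))))) (.rp 12 (.str 8 (.nv (.thr 56 48 (.thr 24 40 (.thr 16 28 (.thr 26 31 (.dbl 41 3 11))))) (.nv (.thr 3 41 (.thr 48 56 (.thr 18 33 (.thr 26 30 (.dbl 37 7 15))))) (.rp 56 (.thr 37 7 (.thr 5 53 (.thr 41 3 (.thr 1 61 (.thr 33 45 (.thr 35 44 (.thr 49 17 (.thr 34 32 (.dbl 13 9 25))))))))) (.rp 48 (.thr 37 7 (.thr 5 53 (.thr 41 3 (.thr 1 61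 (.thr 9 13 (.thr 11 10 (.thr 26 56 (.thr 16 31 (.thr 24 28 (.dbl 25 27 57)))))))))) (.rp 41 (.thr 37 7 (.thr 48 56 (.thr 26 15 (.thr 16 31 (.thr 28 24 (.thr 18 30 (.dbl 19 17 25))))))) (.rp 34 (.str 17 (.nv (.thr 37 7 (.thr 41 3 (.thr 1 61 (.dbl 33 45 49)))) (.nv (.thr 3 41 (.thr 37 7 (.thr 48 56 (.thr 26 15 (.dbl 18 30 33))))) (.nv (.thr 56 48 (.thr 24 40 (.thr 25 29 (.dbl 28 16 19)))) .nd)))) (.rp 30 (.thr 56 48 (.thr 24 40 (.thr 16 28 (.thr 41 3 (.dbl 26 11 31))))) (.rp 26 (.thr 37 7 (.thr 39 36 (.thr 41 3 (.thr 35 44 (.thr 43 47 (.thr 40 42 (.dbl 56 24 48))))))) (.rp 17 (.str 34 (.nv (.thr 37 7 (.thr 41 3 (.thr 33 45 (.dbl 35 32 44)))) (.nv (.thr 56 48 (.thr 24 40 (.thr 42 46 (.thr 25 59 (.dbl 28 16 19))))) (.nv (.thr 3 41 (.thr 48 56 (.thr 18 33 (.thr 26 30 (.dbl 37 7 15)))))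 .nd)))) (.rp 11 (.thr 37 7 (.thr 48 56 (.thr 15 26 (.thr 41 3 (.dbl 45 30 33))))) (.rp 3 (.thr 37 7 (.thr 39 36 (.thr 48 56 (.thr 15 26 (.thr 45 30 (.thr 41 33 (.thr 35 44 (.thr 47 43 (.thr 63 31 (.dbl 61 1 62)))))))))) .nd)))))))))))) (.rp 11 (.thr 37 7 (.thr 48 56 (.thr 15 26 (.thr 41 3 (.dbl 45 30 33))))) (.rp 8 (.str 12 (.nv (.thr 37 7 (.thr 48 56 (.dbl 36 24 39))) (.nv (.thr 44 28 (.dbl 41 3 35)) (.rp 34 (.str 17 (.nv (.thr 37 7 (.thr 48 56 (.dbl 36 24 39))) (.nv (.thr 28 44 (.dbl 25 19 29)) .nd))) (.rp 17 (.str 34 (.nv (.thr 37 7 (.thr 48 56 (.dbl 36 24 39))) (.nv (.thr 44 28 (.dbl 41 3 35)) .nd))) .nd))))) (.rp 3 (.thr 37 7 (.thr 5 53 (.thr 48 56 (.thr 15 26 (.thr 45 30 (.thr 41 33 (.thr 1 61 (.thr 13 9 (.thr 12 14 (.dbl 36 24 39)))))))))) .nd)))))))))))) .nd)))))))))) (.rp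 52 (.str 26 (.nv (.thr 6 54 (.thr 14 50 (.thr 2 10 (.thr 30 18 (.dbl 62 42 46))))) (.nv (.thr 18 30 (.thr 20 23 (.thr 16 31 (.thr 28 24 (.dbl 19 17 25))))) (.rp 34 (.str 17 (.nv (.thr 16 31 (.thr 20 23 (.thr 25 29 (.dbl 28 19 24)))) (.nv (.thr 16 31 (.dbl 18 19 30)) (.rp 31 (.thr 18 30 (.thr 19 16 (.dbl 25 28 29))) (.rp 19 (.thr 31 16 (.thr 30 18 (.dbl 29 25 28))) (.rp 16 (.thr 6 54 (.thr 14 50 (.thr 2 10 (.thr 30 18 (.dbl 62 42 46))))) .nd)))))) (.rp 30 (.thr 20 23 (.thr 54 6 (.thr 50 14 (.thr 16 31 (.thr 28 24 (.thr 19 25 (.thr 62 58 (.thr 2 42 (.dbl 18 17 34))))))))) (.rp 18 (.thr 23 20 (.thr 6 54 (.thr 14 50 (.thr 2 10 (.thr 31 16 (.thr 19 27 (.thr 28 25 (.thr 30 29 (.dbl 62 42 46))))))))) (.rp 17 (.str 34 (.nv (.thr 6 54 (.thr 14 50 (.thr 2 10 (.dbl 42 46 62)))) (.nv (.thr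 50 14 (.dbl 18 2 30)) (.rp 50 (.thr 23 20 (.thr 31 16 (.thr 19 27 (.thr 30 18 (.dbl 28 25 29))))) (.rp 14 (.thr 18 30 (.thr 2 50 (.dbl 42 46 62))) (.rp 2 (.thr 14 50 (.thr 30 18 (.dbl 46 42 62))) .nd)))))) .nd))))))) (.rp 39 (.thr 20 23 (.thr 6 54 (.thr 4 55 (.thr 7 5 (.dbl 52 36 37))))) (.rp 37 (.thr 20 23 (.thr 54 6 (.str 26 (.nv (.thr 18 30 (.thr 50 14 (.thr 62 58 (.dbl 2 34 42)))) (.nv (.thr 18 30 (.thr 16 31 (.thr 28 24 (.dbl 19 17 25)))) (.rp 34 (.str 17 (.nv (.thr 16 31 (.thr 25 29 (.dbl 28 19 24))) (.nv (.thr 18 30 (.dbl 16 19 31)) (.rp 31 (.thr 18 30 (.thr 19 16 (.dbl 25 28 29))) (.rp 19 (.thr 30 18 (.thr 29 25 (.dbl 31 16 28))) (.rp 16 (.thr 18 30 (.thr 25 29 (.thr 24 27 (.thr 4 55 (.thr 36 52 (.thr 48 12 (.thr 50 14 (.thr 62 58 (.thr 2 42 (.thr 3 33 (.thr 41 60 (.thr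 9 57 (.thr 61 1 (.thr 56 11 (.thr 40 8 (.dbl 44 32 35)))))))))))))))) .nd)))))) (.rp 30 (.thr 16 31 (.thr 28 24 (.thr 19 25 (.thr 50 14 (.thr 62 58 (.thr 2 42 (.dbl 18 17 34))))))) (.rp 18 (.str 41 (.nv (.thr 4 55 (.thr 52 36 (.thr 56 11 (.dbl 60 3 48)))) (.nv (.thr 16 31 (.thr 28 24 (.thr 44 35 (.dbl 60 3 12)))) (.rp 60 (.thr 16 31 (.thr 24 28 (.thr 44 35 (.thr 4 55 (.thr 36 52 (.thr 40 32 (.dbl 56 8 11))))))) (.rp 34 (.str 17 (.nv (.thr 50 14 (.thr 62 58 (.thr 61 1 (.dbl 60 3 63)))) (.nv (.thr 16 31 (.thr 25 29 (.dbl 28 19 24))) (.rp 50 (.str 2 (.nv (.thr 61 1 (.thr 62 42 (.dbl 60 3 63))) (.nv (.thr 16 31 (.thr 25 29 (.dbl 28 19 24))) (.rp 49 (.str 48 (.nv (.thr 25 29 (.thr 16 31 (.dbl 24 27 28))) (.nv (.thr 56 11 (.dbl 60 3 52)) (.rp 25 (.str 13 (.nv (.thr 4 55 (.thr 16 31 (.thr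 24 28 (.dbl 36 12 52)))) (.nv (.thr 56 11 (.dbl 60 3 52)) (.rp 52 (.thr 61 1 (.thr 62 42 (.dbl 60 3 63))) .nd)))) .nd)))) (.rp 48 (.str 49 (.nv (.thr 16 31 (.thr 24 28 (.dbl 25 27 29))) (.nv (.dbl 1 33 61) (.rp 33 (.thr 3 60 (.thr 55 4 (.thr 61 1 (.dbl 53 52 57)))) (.rp 16 (.str 32 (.nv (.thr 4 55 (.thr 36 52 (.dbl 44 35 40))) (.nv (.dbl 1 33 61) (.rp 33 (.thr 3 60 (.thr 4 55 (.thr 44 35 (.dbl 36 40 52)))) (.rp 3 (.thr 33 1 (.thr 4 55 (.thr 36 52 (.dbl 44 35 40)))) .nd))))) (.rp 3 (.thr 33 1 (.thr 25 29 (.thr 24 27 (.dbl 16 28 31)))) .nd)))))) .nd))))) (.rp 2 (.thr 50 14 (.str 10 (.nv (.thr 11 56 (.thr 9 8 (.dbl 25 29 57))) (.nv (.dbl 58 42 62) (.rp 3 (.thr 1 61 (.dbl 58 42 62)) (.rp 1 (.thr 3 60 (.dbl 58 42 62)) .nd)))))) .nd))))) (.rp 17 (.str 34 (.nv (.thr 16 31 (.thr 28 24 (.thr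 44 35 (.dbl 60 3 12)))) (.nv (.thr 42 46 (.thr 50 14 (.dbl 62 2 58))) (.rp 19 (.thr 16 31 (.str 27 (.nv (.thr 11 56 (.thr 42 46 (.dbl 43 40 59))) (.nv (.dbl 24 25 28) (.rp 35 (.thr 3 60 (.dbl 24 25 28)) (.rp 3 (.thr 35 44 (.dbl 24 25 28)) .nd)))))) (.rp 16 (.str 19 (.nv (.thr 28 25 (.thr 44 35 (.dbl 60 3 12))) (.nv (.thr 50 14 (.thr 42 46 (.dbl 62 2 58))) (.rp 48 (.str 32 (.nv (.thr 50 14 (.thr 42 46 (.dbl 58 10 62))) (.nv (.dbl 35 33 44) (.rp 50 (.str 49 (.nv (.thr 25 28 (.thr 57 9 (.dbl 61 1 53))) (.nv (.dbl 35 33 44) (.rp 33 (.thr 3 60 (.thr 55 4 (.thr 61 1 (.dbl 53 52 57)))) (.rp 3 (.thr 33 35 (.thr 55 4 (.thr 53 52 (.dbl 61 1 57)))) .nd))))) (.rp 33 (.thr 3 60 (.thr 4 55 (.thr 44 35 (.dbl 36 40 52)))) (.rp 3 (.thr 33 35 (.thr 42 46 (.thr 58 10 (.dbl 50 14 62)))) .nd)))))) (.rp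 32 (.str 48 (.nv (.thr 42 46 (.thr 50 14 (.dbl 58 10 62))) (.nv (.thr 56 11 (.dbl 60 3 52)) (.rp 42 (.str 47 (.nv (.thr 4 55 (.thr 25 28 (.thr 24 27 (.dbl 36 12 52)))) (.nv (.thr 56 11 (.dbl 60 3 52)) (.rp 52 (.thr 44 35 (.thr 28 25 (.dbl 60 3 12))) .nd)))) .nd)))) .nd))))) .nd))))) (.rp 3 (.thr 16 31 (.thr 24 28 (.thr 4 55 (.thr 36 52 (.thr 56 11 (.thr 40 8 (.dbl 44 32 35))))))) .nd))))))) (.rp 17 (.str 34 (.nv (.thr 42 46 (.thr 50 14 (.dbl 62 2 58))) (.nv (.thr 18 30 (.dbl 50 2 14)) (.rp 50 (.thr 18 30 (.thr 42 46 (.thr 58 10 (.thr 55 4 (.thr 53 52 (.thr 48 63 (.thr 16 31 (.thr 28 24 (.thr 19 25 (.thr 3 33 (.thr 41 60 (.thr 43 40 (.thr 44 35 (.thr 56 11 (.thr 57 59 (.dbl 61 1 49)))))))))))))))) (.rp 14 (.thr 18 30 (.thr 2 50 (.dbl 42 46 62))) (.rp 2 (.thr 30 18 (.thr 46 42 (.dbl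 14 50 62))) .nd)))))) .nd))))))))) (.rp 36 (.thr 23 20 (.thr 54 6 (.thr 55 4 (.thr 52 53 (.dbl 7 37 39))))) (.rp 34 (.str 17 (.nv (.thr 23 20 (.thr 25 29 (.thr 19 28 (.thr 16 18 (.dbl 31 26 27))))) (.nv (.thr 20 23 (.thr 4 55 (.thr 52 36 (.thr 7 37 (.dbl 6 5 54))))) (.rp 23 (.str 52 (.nv (.thr 4 55 (.thr 36 20 (.dbl 37 7 39))) (.nv (.thr 54 6 (.dbl 55 4 53)) (.rp 55 (.thr 37 7 (.thr 39 36 (.thr 53 5 (.thr 25 29 (.thr 49 13 (.thr 1 33 (.dbl 61 41 57))))))) (.rp 4 (.thr 54 6 (.thr 53 55 (.dbl 37 5 7))) .nd))))) (.rp 20 (.thr 55 4 (.thr 54 6 (.thr 52 53 (.thr 7 37 (.thr 23 39 (.thr 25 29 (.thr 19 28 (.thr 16 18 (.dbl 31 26 27))))))))) .nd))))) (.rp 23 (.str 7 (.nv (.thr 4 55 (.thr 5 6 (.dbl 37 52 53))) (.nv (.thr 6 54 (.dbl 4 5 55)) (.rp 55 (.thr 6 54 (.thr 5 4 (.dbl 37 52 53))) (.rp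 34 (.str 17 (.nv (.thr 6 54 (.thr 5 4 (.dbl 37 52 53))) (.nv (.thr 4 55 (.dbl 6 5 54)) (.rp 54 (.thr 4 55 (.thr 5 6 (.dbl 37 52 53))) (.rp 6 (.thr 37 52 (.thr 53 5 (.thr 25 29 (.thr 49 13 (.thr 1 33 (.dbl 61 41 57)))))) (.rp 5 (.thr 52 37 (.thr 55 4 (.dbl 54 6 53))) (.rp 4 (.thr 37 52 (.thr 53 5 (.thr 25 29 (.thr 49 13 (.thr 1 33 (.dbl 61 41 57)))))) .nd))))))) (.rp 17 (.str 34 (.nv (.thr 4 55 (.thr 5 6 (.dbl 37 52 53))) (.nv (.thr 6 54 (.dbl 4 5 55)) (.rp 55 (.thr 6 54 (.thr 5 4 (.dbl 37 52 53))) (.rp 6 (.thr 37 52 (.thr 36 39 (.thr 42 46 (.thr 32 47 (.thr 35 33 (.dbl 44 40 41)))))) (.rp 5 (.thr 54 6 (.thr 52 37 (.dbl 55 4 53))) (.rp 4 (.thr 6 54 (.thr 42 46 (.thr 2 62 (.thr 50 18 (.dbl 14 10 26))))) .nd))))))) (.rp 6 (.thr 37 52 (.str 41 (.nv (.thr 1 61 (.thr 5 53 (.thr 13 9 (.thr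 33 45 (.dbl 49 17 25))))) (.nv (.thr 45 33 (.thr 44 35 (.thr 47 46 (.thr 32 42 (.dbl 36 39 40))))) (.rp 45 (.thr 39 36 (.thr 3 60 (.thr 15 11 (.thr 35 44 (.thr 47 43 (.thr 31 63 (.dbl 26 16 48))))))) (.rp 34 (.str 17 (.nv (.thr 1 61 (.thr 5 53 (.thr 13 9 (.dbl 25 29 49)))) (.nv (.thr 3 60 (.thr 15 11 (.thr 33 45 (.dbl 48 18 26)))) (.nv (.thr 1 61 (.dbl 33 45 49)) .nd)))) (.rp 33 (.thr 39 36 (.thr 3 60 (.thr 15 11 (.thr 35 44 (.thr 47 43 (.thr 31 63 (.dbl 26 16 48))))))) (.rp 17 (.str 34 (.nv (.thr 3 60 (.thr 15 11 (.thr 33 45 (.dbl 48 18 26)))) (.nv (.thr 35 44 (.dbl 33 32 45)) (.rp 45 (.thr 35 44 (.thr 32 33 (.dbl 42 46 47))) (.rp 33 (.thr 36 39 (.thr 44 35 (.thr 32 40 (.dbl 42 46 47)))) .nd))))) (.rp 3 (.thr 39 36 (.thr 1 61 (.thr 35 44 (.thr 33 45 (.thr 32 34 (.thr 17 49 (.dbl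 47 42 43))))))) .nd))))))))) (.rp 5 (.thr 54 6 (.thr 55 4 (.dbl 52 37 53))) (.rp 4 (.str 42 (.nv (.thr 34 46 (.thr 37 52 (.thr 32 47 (.thr 35 33 (.thr 36 39 (.dbl 44 40 41)))))) (.nv (.thr 34 46 (.thr 2 62 (.thr 50 18 (.thr 14 26 (.dbl 6 10 54))))) (.rp 46 (.thr 54 6 (.thr 62 2 (.thr 58 50 (.thr 37 52 (.thr 53 5 (.thr 48 63 (.dbl 26 10 15))))))) (.rp 34 (.str 17 (.nv (.thr 2 62 (.thr 6 54 (.thr 10 14 (.thr 25 29 (.thr 19 28 (.thr 16 18 (.dbl 26 31 58))))))) (.nv (.thr 25 29 (.thr 37 52 (.thr 49 13 (.thr 1 33 (.thr 61 41 (.dbl 53 5 57)))))) (.rp 57 (.thr 54 6 (.thr 62 2 (.thr 50 58 (.thr 25 29 (.thr 19 28 (.thr 18 16 (.dbl 26 14 30))))))) (.rp 29 (.thr 54 6 (.thr 37 52 (.thr 47 32 (.thr 62 2 (.thr 50 58 (.thr 14 26 (.thr 46 30 (.thr 44 45 (.thr 35 41 (.dbl 39 36 43)))))))))) (.rp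 25 (.thr 54 6 (.thr 37 52 (.thr 47 32 (.thr 62 2 (.thr 50 58 (.thr 14 26 (.thr 46 30 (.thr 44 45 (.thr 35 41 (.dbl 39 36 43)))))))))) (.rp 12 (.str 8 (.nv (.dbl 25 29 59) (.rp 59 (.thr 25 29 (.thr 37 52 (.thr 49 13 (.thr 1 33 (.thr 53 5 (.dbl 61 41 57)))))) (.rp 29 (.thr 25 59 (.thr 37 52 (.thr 49 13 (.thr 1 33 (.thr 53 5 (.dbl 61 41 57)))))) (.rp 25 (.thr 6 54 (.thr 2 62 (.thr 10 14 (.thr 11 9 (.thr 15 3 (.thr 37 52 (.dbl 26 48 58))))))) .nd))))) (.rp 8 (.str 12 (.nv (.thr 2 62 (.thr 6 54 (.thr 14 10 (.thr 15 13 (.dbl 3 9 11))))) (.nv (.thr 2 62 (.thr 25 29 (.thr 37 52 (.thr 13 49 (.thr 14 15 (.dbl 6 10 54)))))) (.nv (.thr 6 54 (.thr 3 9 (.thr 25 29 (.thr 60 41 (.dbl 28 19 44))))) (.rp 54 (.thr 25 29 (.thr 28 19 (.thr 62 2 (.thr 60 44 (.thr 61 63 (.dbl 41 1 3)))))) (.rp 10 (.thr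 25 29 (.thr 28 19 (.thr 6 54 (.thr 60 44 (.dbl 3 9 41))))) (.rp 6 (.thr 25 29 (.thr 28 19 (.thr 62 2 (.thr 60 44 (.thr 61 63 (.dbl 41 1 3)))))) .nd))))))) .nd)))))))) (.rp 12 (.str 8 (.nv (.thr 62 2 (.thr 54 6 (.thr 50 58 (.thr 14 26 (.dbl 46 30 34))))) (.nv (.thr 34 46 (.thr 37 52 (.thr 32 47 (.thr 35 33 (.thr 36 39 (.dbl 44 40 41)))))) (.nv (.thr 34 46 (.thr 2 62 (.thr 50 18 (.thr 14 26 (.dbl 6 10 54))))) (.rp 46 (.thr 37 52 (.thr 5 53 (.thr 25 59 (.thr 13 49 (.thr 1 9 (.thr 61 41 (.dbl 29 17 45))))))) (.rp 34 (.str 17 (.nv (.dbl 25 29 59) (.rp 59 (.thr 25 29 (.thr 37 52 (.thr 49 13 (.thr 1 33 (.thr 53 5 (.dbl 61 41 57)))))) (.rp 29 (.thr 25 59 (.thr 37 52 (.thr 49 13 (.thr 1 33 (.thr 53 5 (.dbl 61 41 57)))))) (.rp 25 (.thr 6 54 (.thr 2 62 (.thr 10 14 (.thr 11 9 (.thr 15 3 (.thr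 37 52 (.dbl 26 48 58))))))) .nd))))) .nd)))))) (.rp 8 (.str 12 (.nv (.thr 37 52 (.thr 32 47 (.thr 36 39 (.thr 44 40 (.thr 60 28 (.dbl 41 3 35)))))) (.nv (.thr 34 46 (.thr 2 62 (.thr 50 18 (.thr 14 26 (.dbl 6 10 54))))) (.rp 34 (.str 17 (.nv (.thr 2 62 (.thr 6 54 (.thr 14 10 (.thr 15 13 (.dbl 3 9 11))))) (.nv (.thr 2 62 (.thr 25 29 (.thr 37 52 (.thr 13 49 (.thr 14 15 (.dbl 6 10 54)))))) (.nv (.thr 6 54 (.thr 3 9 (.thr 25 29 (.thr 60 41 (.dbl 28 19 44))))) (.rp 54 (.thr 25 29 (.thr 28 19 (.thr 62 2 (.thr 60 44 (.thr 61 63 (.dbl 41 1 3)))))) (.rp 10 (.thr 25 29 (.thr 28 19 (.thr 6 54 (.thr 60 44 (.dbl 3 9 41))))) (.rp 6 (.thr 25 29 (.thr 28 19 (.thr 62 2 (.thr 60 44 (.thr 61 63 (.dbl 41 1 3)))))) .nd))))))) .nd)))) .nd))))))) .nd))))))))) (.rp 20 (.thr 54 6 (.str 52 (.nv (.dbl 55 4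 53) (.rp 60 (.str 40 (.nv (.dbl 55 4 53) (.rp 55 (.str 35 (.nv (.thr 41 44 (.thr 42 43 (.thr 34 46 (.thr 32 33 (.dbl 37 7 47))))) (.nv (.thr 44 41 (.thr 36 32 (.dbl 37 7 39))) (.rp 63 (.str 59 (.nv (.thr 41 44 (.thr 42 43 (.thr 34 46 (.thr 32 33 (.dbl 37 7 47))))) (.nv (.thr 44 41 (.thr 36 32 (.dbl 37 7 39))) (.rp 62 (.str 61 (.nv (.dbl 41 1 44) (.rp 44 (.thr 41 1 (.thr 43 42 (.thr 39 47 (.dbl 37 7 36)))) (.rp 41 (.thr 37 7 (.thr 39 36 (.thr 47 43 (.thr 42 32 (.thr 25 8 (.thr 49 13 (.dbl 53 5 57))))))) (.rp 34 (.str 17 (.nv (.dbl 41 1 44) (.rp 44 (.thr 25 29 (.thr 41 1 (.dbl 42 8 43))) (.rp 41 (.thr 25 29 (.thr 37 7 (.thr 49 13 (.dbl 53 5 57)))) (.rp 1 (.thr 41 44 (.thr 42 43 (.dbl 25 8 29))) .nd))))) (.rp 17 (.str 34 (.nv (.thr 37 7 (.thr 42 46 (.dbl 32 33 47))) (.nv (.dbl 41 1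 44) .nd))) (.rp 1 (.thr 44 41 (.thr 36 32 (.dbl 37 7 39))) .nd))))))) (.rp 61 (.str 62 (.nv (.thr 37 7 (.thr 44 41 (.dbl 36 32 39))) (.nv (.thr 2 42 (.thr 50 58 (.thr 26 14 (.dbl 18 30 34)))) (.nv (.thr 41 44 (.dbl 42 2 43)) (.rp 34 (.str 17 (.nv (.thr 25 29 (.dbl 42 2 8)) (.nv (.thr 37 7 (.thr 44 41 (.dbl 36 32 39))) (.nv (.thr 41 44 (.dbl 42 2 43)) .nd)))) (.rp 17 (.str 34 (.nv (.thr 32 33 (.dbl 44 36 41)) (.nv (.dbl 42 2 46) .nd))) .nd)))))) (.rp 44 (.thr 37 7 (.thr 39 36 (.thr 43 47 (.thr 42 41 (.thr 8 25 (.thr 56 24 (.thr 62 2 (.dbl 58 50 57)))))))) (.rp 41 (.thr 37 7 (.thr 39 36 (.thr 47 43 (.thr 42 32 (.thr 8 25 (.thr 56 24 (.thr 62 2 (.dbl 58 50 57)))))))) (.rp 37 (.thr 41 44 (.thr 42 43 (.thr 25 8 (.thr 57 9 (.thr 58 56 (.dbl 62 2 50)))))) (.rp 34 (.str 17 (.nv (.thr 25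 29 (.thr 37 7 (.thr 39 36 (.thr 42 8 (.dbl 47 32 43))))) (.nv (.thr 25 29 (.thr 41 44 (.dbl 42 8 43))) (.nv (.thr 44 41 (.thr 36 32 (.dbl 37 7 39))) (.rp 62 (.str 61 (.nv (.dbl 41 1 44) (.rp 44 (.thr 25 29 (.thr 41 1 (.dbl 42 8 43))) (.rp 41 (.thr 25 29 (.thr 37 7 (.thr 49 13 (.dbl 53 5 57)))) (.rp 1 (.thr 41 44 (.thr 42 43 (.dbl 25 8 29))) .nd))))) (.rp 61 (.str 62 (.nv (.thr 25 29 (.dbl 42 2 8)) (.nv (.thr 37 7 (.thr 44 41 (.dbl 36 32 39))) (.nv (.thr 41 44 (.dbl 42 2 43)) .nd)))) .nd)))))) (.rp 32 (.thr 37 7 (.thr 39 36 (.thr 41 44 (.dbl 43 42 47)))) (.rp 17 (.str 34 (.nv (.thr 41 44 (.dbl 42 43 46)) (.nv (.thr 32 33 (.thr 37 7 (.dbl 42 46 47))) (.nv (.thr 44 41 (.dbl 32 33 36)) (.rp 62 (.str 61 (.nv (.thr 37 7 (.thr 42 46 (.dbl 32 33 47))) (.nv (.dbl 41 1 44) .nd))) (.rp 61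 (.str 62 (.nv (.thr 32 33 (.dbl 44 36 41)) (.nv (.dbl 42 2 46) .nd))) .nd)))))) (.rp 7 (.thr 41 44 (.thr 42 43 (.thr 25 8 (.thr 57 9 (.thr 58 56 (.dbl 62 2 50)))))) .nd)))))))))))) (.rp 59 (.str 63 (.nv (.thr 41 44 (.thr 42 43 (.thr 34 46 (.thr 32 33 (.dbl 37 7 47))))) (.nv (.thr 44 41 (.thr 36 32 (.dbl 37 7 39))) (.rp 44 (.thr 37 7 (.thr 39 36 (.thr 47 43 (.thr 15 31 (.thr 48 26 (.dbl 53 5 58)))))) (.rp 41 (.thr 37 7 (.thr 39 36 (.thr 47 43 (.thr 15 31 (.thr 48 26 (.dbl 53 5 58)))))) (.rp 37 (.thr 41 44 (.thr 42 43 (.thr 62 2 (.thr 50 58 (.thr 14 26 (.dbl 46 30 34)))))) (.rp 34 (.str 17 (.nv (.thr 25 29 (.thr 41 44 (.thr 1 61 (.thr 49 33 (.dbl 37 7 13))))) (.nv (.thr 44 41 (.thr 36 32 (.dbl 37 7 39))) (.rp 44 (.thr 25 29 (.thr 37 7 (.thr 49 13 (.thr 1 33 (.thr 61 41 (.dbl 53 5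 57)))))) (.rp 41 (.thr 37 7 (.thr 39 36 (.thr 47 43 (.thr 15 31 (.thr 48 26 (.dbl 53 5 58)))))) (.rp 37 (.thr 41 44 (.thr 42 43 (.thr 29 25 (.thr 62 2 (.thr 50 58 (.thr 14 26 (.dbl 46 12 30))))))) (.rp 7 (.thr 41 44 (.thr 43 42 (.thr 39 47 (.thr 37 36 (.thr 1 61 (.dbl 33 45 49)))))) .nd))))))) (.rp 32 (.thr 41 44 (.thr 43 42 (.thr 39 47 (.dbl 37 7 36)))) (.rp 17 (.str 34 (.nv (.thr 32 33 (.thr 36 44 (.dbl 37 7 39))) (.nv (.thr 42 46 (.dbl 41 43 44)) (.rp 44 (.thr 32 33 (.thr 42 46 (.dbl 37 7 47))) .nd)))) (.rp 7 (.thr 41 44 (.thr 42 43 (.thr 62 2 (.thr 50 58 (.thr 14 26 (.dbl 46 30 34)))))) .nd)))))))))) (.rp 44 (.thr 37 7 (.thr 39 36 (.thr 43 47 (.thr 42 41 (.thr 62 2 (.thr 50 58 (.thr 14 26 (.dbl 46 30 34)))))))) (.rp 41 (.thr 37 7 (.thr 39 36 (.thr 47 43 (.thr 42 32 (.thr 62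 2 (.thr 50 58 (.thr 14 26 (.dbl 46 30 34)))))))) (.rp 37 (.thr 41 44 (.thr 42 43 (.thr 62 2 (.thr 50 58 (.thr 14 26 (.dbl 46 30 34)))))) (.rp 34 (.str 17 (.nv (.thr 25 29 (.thr 41 44 (.thr 1 61 (.thr 49 33 (.dbl 37 7 13))))) (.nv (.thr 44 41 (.thr 36 32 (.dbl 37 7 39))) (.rp 63 (.str 59 (.nv (.thr 25 29 (.thr 37 7 (.thr 39 36 (.thr 42 8 (.dbl 47 32 43))))) (.nv (.thr 25 29 (.thr 41 44 (.dbl 42 8 43))) (.nv (.thr 44 41 (.thr 36 32 (.dbl 37 7 39))) (.rp 62 (.str 61 (.nv (.dbl 41 1 44) (.rp 44 (.thr 25 29 (.thr 41 1 (.dbl 42 8 43))) (.rp 41 (.thr 25 29 (.thr 37 7 (.thr 49 13 (.dbl 53 5 57)))) (.rp 1 (.thr 41 44 (.thr 42 43 (.dbl 25 8 29))) .nd))))) (.rp 61 (.str 62 (.nv (.thr 25 29 (.dbl 42 2 8)) (.nv (.thr 37 7 (.thr 44 41 (.dbl 36 32 39))) (.nv (.thr 41 44 (.dbl 42 2 43)) .nd))))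 .nd)))))) (.rp 59 (.str 63 (.nv (.thr 25 29 (.thr 41 44 (.thr 1 61 (.thr 49 33 (.dbl 37 7 13))))) (.nv (.thr 44 41 (.thr 36 32 (.dbl 37 7 39))) (.rp 44 (.thr 25 29 (.thr 37 7 (.thr 49 13 (.thr 1 33 (.thr 61 41 (.dbl 53 5 57)))))) (.rp 41 (.thr 37 7 (.thr 39 36 (.thr 47 43 (.thr 15 31 (.thr 48 26 (.dbl 53 5 58)))))) (.rp 37 (.thr 41 44 (.thr 42 43 (.thr 29 25 (.thr 62 2 (.thr 50 58 (.thr 14 26 (.dbl 46 12 30))))))) (.rp 7 (.thr 41 44 (.thr 43 42 (.thr 39 47 (.thr 37 36 (.thr 1 61 (.dbl 33 45 49)))))) .nd))))))) (.rp 44 (.thr 37 7 (.thr 39 36 (.thr 43 47 (.thr 41 42 (.thr 1 61 (.dbl 33 45 49)))))) (.rp 41 (.thr 37 7 (.thr 39 36 (.thr 25 29 (.thr 19 28 (.thr 16 18 (.thr 47 43 (.thr 42 32 (.thr 62 2 (.thr 50 58 (.dbl 26 14 31)))))))))) (.rp 37 (.thr 41 44 (.thr 42 43 (.thr 25 29 (.thr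 57 9 (.thr 59 8 (.thr 58 56 (.dbl 62 2 50))))))) (.rp 7 (.thr 41 44 (.thr 43 42 (.thr 1 61 (.thr 33 49 (.thr 37 45 (.dbl 39 36 47)))))) .nd))))))))) (.rp 32 (.thr 37 7 (.thr 39 36 (.thr 41 44 (.dbl 43 42 47)))) (.rp 17 (.str 34 (.nv (.thr 32 33 (.thr 36 44 (.dbl 37 7 39))) (.nv (.thr 42 46 (.dbl 41 43 44)) (.rp 63 (.str 59 (.nv (.thr 41 44 (.dbl 42 43 46)) (.nv (.thr 32 33 (.thr 37 7 (.dbl 42 46 47))) (.nv (.thr 44 41 (.dbl 32 33 36)) (.rp 62 (.str 61 (.nv (.thr 37 7 (.thr 42 46 (.dbl 32 33 47))) (.nv (.dbl 41 1 44) .nd))) (.rp 61 (.str 62 (.nv (.thr 32 33 (.dbl 44 36 41)) (.nv (.dbl 42 2 46) .nd))) .nd)))))) (.rp 59 (.str 63 (.nv (.thr 32 33 (.thr 36 44 (.dbl 37 7 39))) (.nv (.thr 42 46 (.dbl 41 43 44)) (.rp 44 (.thr 32 33 (.thr 42 46 (.dbl 37 7 47))) .nd)))) (.rp 44 (.thr 32 33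 (.thr 37 7 (.dbl 42 46 47))) .nd)))))) (.rp 7 (.thr 41 44 (.thr 42 43 (.thr 62 2 (.thr 50 58 (.thr 14 26 (.dbl 46 30 34)))))) .nd)))))))))))) (.rp 53 (.thr 37 7 (.thr 36 39 (.thr 32 44 (.thr 42 47 (.thr 62 2 (.thr 50 58 (.thr 14 26 (.dbl 46 30 34)))))))) (.rp 34 (.str 17 (.nv (.dbl 55 4 53) (.rp 55 (.thr 37 7 (.thr 25 29 (.thr 49 13 (.thr 1 33 (.thr 61 41 (.dbl 53 5 57)))))) (.rp 53 (.thr 37 7 (.thr 36 39 (.thr 44 32 (.thr 41 35 (.thr 33 45 (.dbl 1 49 61)))))) (.rp 4 (.thr 53 55 (.dbl 37 5 7)) .nd))))) (.rp 17 (.str 34 (.nv (.dbl 55 4 53) (.rp 55 (.thr 37 7 (.thr 42 46 (.thr 32 47 (.dbl 36 39 44)))) (.rp 53 (.thr 37 7 (.thr 36 39 (.thr 32 44 (.dbl 42 46 47)))) (.rp 4 (.thr 53 55 (.dbl 37 5 7)) .nd))))) (.rp 4 (.thr 53 55 (.dbl 37 5 7)) .nd))))))) (.rp 55 (.str 60 (.nv (.thr 41 3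 (.thr 56 48 (.thr 26 11 (.thr 50 14 (.thr 62 58 (.dbl 61 1 63)))))) (.nv (.thr 3 41 (.thr 48 56 (.thr 18 33 (.thr 26 30 (.thr 50 14 (.thr 62 58 (.dbl 2 34 42))))))) (.nv (.thr 37 7 (.thr 48 56 (.thr 26 15 (.thr 50 14 (.thr 58 62 (.dbl 53 5 63)))))) (.nv (.thr 3 41 (.thr 48 56 (.thr 18 33 (.thr 26 30 (.dbl 37 7 15))))) (.rp 63 (.str 59 (.nv (.thr 37 7 (.thr 5 53 (.thr 41 3 (.thr 1 61 (.thr 9 13 (.thr 57 25 (.dbl 56 48 58))))))) (.nv (.thr 56 48 (.thr 58 57 (.thr 50 62 (.thr 26 14 (.dbl 41 3 11))))) (.nv (.thr 3 41 (.thr 48 56 (.thr 18 33 (.thr 26 30 (.dbl 37 7 15))))) (.rp 56 (.thr 37 7 (.thr 39 36 (.thr 41 3 (.thr 35 44 (.thr 33 45 (.thr 1 61 (.thr 32 34 (.thr 17 49 (.dbl 47 42 43))))))))) (.rp 48 (.thr 37 7 (.thr 39 36 (.thr 41 3 (.thr 35 44 (.thr 43 47 (.thr 11 27 (.thr 26 56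 (.thr 50 14 (.thr 58 62 (.dbl 42 10 40)))))))))) (.rp 41 (.thr 37 7 (.thr 48 56 (.thr 26 15 (.thr 50 14 (.thr 62 58 (.thr 18 30 (.dbl 2 34 42))))))) (.rp 34 (.str 17 (.nv (.thr 37 7 (.thr 41 3 (.thr 1 61 (.dbl 33 45 49)))) (.nv (.thr 56 48 (.thr 58 57 (.thr 25 29 (.thr 42 8 (.dbl 62 2 50))))) (.nv (.thr 3 41 (.thr 48 56 (.thr 18 33 (.thr 26 30 (.dbl 37 7 15))))) .nd)))) (.rp 17 (.str 34 (.nv (.thr 37 7 (.thr 41 3 (.thr 33 45 (.dbl 35 32 44)))) (.nv (.thr 3 41 (.thr 37 7 (.thr 48 56 (.thr 26 15 (.dbl 18 30 33))))) (.nv (.thr 56 48 (.thr 58 57 (.thr 42 46 (.dbl 62 2 50)))) .nd)))) (.rp 11 (.thr 37 7 (.thr 48 56 (.thr 15 26 (.thr 41 3 (.dbl 45 30 33))))) (.rp 3 (.thr 37 7 (.thr 5 53 (.thr 48 56 (.thr 15 26 (.thr 45 30 (.thr 41 33 (.thr 1 61 (.thr 13 9 (.thr 12 14 (.dbl 44 28 35))))))))))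 .nd))))))))))) (.rp 59 (.str 63 (.nv (.thr 37 7 (.thr 48 56 (.dbl 53 5 58))) (.nv (.thr 61 62 (.dbl 41 1 3)) (.rp 34 (.str 17 (.nv (.thr 37 7 (.thr 48 56 (.dbl 53 5 58))) (.nv (.thr 61 62 (.dbl 41 1 3)) .nd))) (.rp 17 (.str 34 (.nv (.thr 37 7 (.thr 48 56 (.dbl 53 5 58))) (.nv (.thr 62 61 (.dbl 42 2 46)) .nd))) .nd))))) (.rp 56 (.thr 37 7 (.thr 39 36 (.thr 41 3 (.thr 35 44 (.thr 47 43 (.thr 32 42 (.dbl 33 34 45))))))) (.rp 48 (.thr 37 7 (.thr 39 36 (.thr 41 3 (.thr 35 44 (.thr 47 43 (.thr 32 42 (.dbl 33 34 45))))))) (.rp 34 (.str 17 (.nv (.thr 25 29 (.thr 19 28 (.thr 16 18 (.thr 37 7 (.thr 48 56 (.dbl 26 15 31)))))) (.nv (.thr 3 41 (.thr 37 7 (.thr 5 53 (.thr 48 56 (.thr 26 15 (.dbl 18 30 33)))))) (.nv (.thr 25 29 (.thr 28 19 (.thr 44 12 (.dbl 41 3 35)))) (.rp 63 (.str 59 (.nv (.thr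 37 7 (.thr 41 3 (.thr 1 61 (.dbl 33 45 49)))) (.nv (.thr 56 48 (.thr 58 57 (.thr 25 29 (.thr 42 8 (.dbl 62 2 50))))) (.nv (.thr 3 41 (.thr 48 56 (.thr 18 33 (.thr 26 30 (.dbl 37 7 15))))) .nd)))) (.rp 59 (.str 63 (.nv (.thr 37 7 (.thr 48 56 (.dbl 53 5 58))) (.nv (.thr 61 62 (.dbl 41 1 3)) .nd))) .nd)))))) (.rp 26 (.thr 37 7 (.thr 39 36 (.thr 41 3 (.thr 35 44 (.thr 47 43 (.thr 32 42 (.dbl 33 34 45))))))) (.rp 17 (.str 34 (.nv (.thr 37 7 (.thr 48 56 (.thr 26 15 (.thr 18 30 (.dbl 50 2 14))))) (.nv (.thr 37 7 (.thr 41 3 (.thr 1 61 (.thr 33 45 (.dbl 35 32 44))))) (.nv (.thr 3 41 (.thr 42 46 (.thr 2 62 (.thr 18 50 (.dbl 48 33 56))))) (.rp 63 (.str 59 (.nv (.thr 37 7 (.thr 41 3 (.thr 33 45 (.dbl 35 32 44)))) (.nv (.thr 3 41 (.thr 37 7 (.thr 48 56 (.thr 26 15 (.dbl 18 30 33))))) (.nv (.thr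 56 48 (.thr 58 57 (.thr 42 46 (.dbl 62 2 50)))) .nd)))) (.rp 59 (.str 63 (.nv (.thr 37 7 (.thr 48 56 (.dbl 53 5 58))) (.nv (.thr 62 61 (.dbl 42 2 46)) .nd))) (.rp 3 (.thr 37 7 (.thr 42 46 (.thr 2 62 (.thr 50 18 (.thr 48 56 (.dbl 26 14 15)))))) .nd))))))) (.rp 11 (.thr 37 7 (.thr 48 56 (.thr 15 26 (.thr 41 3 (.dbl 45 30 33))))) (.rp 3 (.thr 37 7 (.thr 39 36 (.thr 48 56 (.thr 15 26 (.thr 45 30 (.thr 41 33 (.thr 35 44 (.thr 47 43 (.thr 63 31 (.dbl 53 5 58)))))))))) .nd)))))))))))))) (.rp 53 (.str 60 (.nv (.thr 3 41 (.thr 48 56 (.thr 18 33 (.thr 26 30 (.thr 50 14 (.thr 62 58 (.dbl 2 34 42))))))) (.nv (.thr 37 7 (.thr 36 39 (.thr 41 3 (.thr 48 56 (.thr 12 24 (.dbl 44 28 35)))))) (.nv (.thr 3 41 (.thr 48 56 (.thr 18 33 (.thr 26 30 (.dbl 37 7 15))))) (.rp 56 (.thr 37 7 (.thr 39 36 (.thr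 41 3 (.thr 35 44 (.thr 47 43 (.thr 32 42 (.dbl 33 34 45))))))) (.rp 48 (.thr 37 7 (.thr 39 36 (.thr 41 3 (.thr 35 44 (.thr 47 43 (.thr 32 42 (.dbl 33 34 45))))))) (.rp 41 (.thr 37 7 (.thr 48 56 (.thr 26 15 (.thr 18 30 (.thr 50 14 (.thr 62 58 (.dbl 2 34 42))))))) (.rp 37 (.thr 56 48 (.thr 41 3 (.thr 26 11 (.thr 18 30 (.thr 50 14 (.thr 62 58 (.thr 63 61 (.dbl 2 34 42)))))))) (.rp 34 (.str 17 (.nv (.thr 37 7 (.thr 48 56 (.thr 15 26 (.thr 45 30 (.dbl 41 3 33))))) (.nv (.thr 25 29 (.thr 28 19 (.thr 44 12 (.dbl 41 3 35)))) (.rp 41 (.thr 37 7 (.thr 48 56 (.thr 26 15 (.thr 16 31 (.dbl 18 19 30))))) (.rp 4 (.thr 25 29 (.thr 19 28 (.thr 48 56 (.thr 3 41 (.dbl 18 16 33))))) (.rp 3 (.thr 37 7 (.thr 36 39 (.thr 25 29 (.thr 48 56 (.thr 12 24 (.dbl 28 19 44)))))) .nd)))))) (.rp 17 (.str 34 (.nv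 (.thr 37 7 (.thr 48 56 (.thr 26 15 (.thr 18 30 (.dbl 50 2 14))))) (.nv (.thr 37 7 (.thr 41 3 (.thr 1 61 (.thr 33 45 (.dbl 35 32 44))))) (.nv (.thr 3 41 (.thr 42 46 (.thr 2 62 (.thr 18 50 (.dbl 48 33 56))))) (.rp 3 (.thr 37 7 (.thr 36 39 (.thr 42 46 (.thr 32 47 (.thr 35 33 (.dbl 44 40 41)))))) .nd))))) (.rp 11 (.thr 37 7 (.thr 48 56 (.thr 15 26 (.thr 41 3 (.dbl 45 30 33))))) (.rp 3 (.thr 37 7 (.thr 36 39 (.thr 48 56 (.thr 15 26 (.thr 45 30 (.thr 12 24 (.thr 41 33 (.dbl 44 28 35)))))))) .nd)))))))))))) (.rp 40 (.str 60 (.nv (.dbl 55 4 53) (.rp 55 (.thr 37 7 (.thr 48 56 (.thr 15 26 (.thr 45 30 (.dbl 41 3 33))))) (.rp 53 (.thr 37 7 (.thr 48 56 (.thr 15 26 (.thr 45 30 (.dbl 41 3 33))))) (.rp 34 (.str 17 (.nv (.dbl 55 4 53) (.rp 55 (.thr 37 7 (.thr 41 3 (.thr 1 61 (.dbl 33 45 49)))) (.rp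 53 (.thr 37 7 (.thr 41 3 (.thr 1 61 (.dbl 33 45 49)))) (.rp 4 (.thr 53 55 (.dbl 37 5 7)) .nd))))) (.rp 17 (.str 34 (.nv (.dbl 55 4 53) (.rp 55 (.thr 37 7 (.thr 41 3 (.thr 35 44 (.dbl 33 32 45)))) (.rp 53 (.thr 37 7 (.thr 41 3 (.thr 35 44 (.dbl 33 32 45)))) (.rp 4 (.thr 53 55 (.dbl 37 5 7)) .nd))))) (.rp 4 (.thr 53 55 (.dbl 37 5 7)) .nd))))))) (.rp 34 (.str 17 (.nv (.dbl 55 4 53) (.rp 60 (.str 40 (.nv (.dbl 55 4 53) (.rp 55 (.thr 37 7 (.thr 25 29 (.thr 49 13 (.thr 1 33 (.thr 61 41 (.dbl 53 5 57)))))) (.rp 53 (.thr 37 7 (.thr 36 39 (.thr 44 32 (.thr 41 35 (.thr 33 45 (.dbl 1 49 61)))))) (.rp 4 (.thr 53 55 (.dbl 37 5 7)) .nd))))) (.rp 55 (.thr 37 7 (.thr 25 29 (.thr 49 13 (.thr 1 33 (.thr 61 41 (.dbl 53 5 57)))))) (.rp 53 (.thr 7 37 (.thr 55 4 (.thr 23 39 (.thr 25 29 (.thr 19 28 (.thr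 16 18 (.dbl 31 26 27))))))) (.rp 40 (.str 60 (.nv (.dbl 55 4 53) (.rp 55 (.thr 37 7 (.thr 41 3 (.thr 1 61 (.dbl 33 45 49)))) (.rp 53 (.thr 37 7 (.thr 41 3 (.thr 1 61 (.dbl 33 45 49)))) (.rp 4 (.thr 53 55 (.dbl 37 5 7)) .nd))))) (.rp 4 (.thr 53 55 (.dbl 37 5 7)) .nd))))))) (.rp 17 (.str 34 (.nv (.dbl 55 4 53) (.rp 60 (.str 40 (.nv (.dbl 55 4 53) (.rp 55 (.thr 37 7 (.thr 42 46 (.thr 32 47 (.dbl 36 39 44)))) (.rp 53 (.thr 37 7 (.thr 36 39 (.thr 32 44 (.dbl 42 46 47)))) (.rp 4 (.thr 53 55 (.dbl 37 5 7)) .nd))))) (.rp 55 (.thr 37 7 (.thr 42 46 (.thr 32 47 (.thr 35 33 (.thr 44 41 (.dbl 36 39 40)))))) (.rp 53 (.thr 37 7 (.thr 36 39 (.thr 42 46 (.thr 32 47 (.thr 35 33 (.dbl 44 40 41)))))) (.rp 40 (.str 60 (.nv (.dbl 55 4 53) (.rp 55 (.thr 37 7 (.thr 41 3 (.thr 35 44 (.dbl 33 32 45)))) (.rp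 53 (.thr 37 7 (.thr 41 3 (.thr 35 44 (.dbl 33 32 45)))) (.rp 4 (.thr 53 55 (.dbl 37 5 7)) .nd))))) (.rp 4 (.thr 53 55 (.dbl 37 5 7)) .nd))))))) (.rp 4 (.thr 53 55 (.dbl 37 5 7)) .nd)))))))))) (.rp 17 (.str 34 (.nv (.thr 6 54 (.thr 42 46 (.thr 2 62 (.thr 50 18 (.dbl 14 10 26))))) (.nv (.thr 54 6 (.thr 55 4 (.thr 52 53 (.thr 7 37 (.dbl 23 20 39))))) (.rp 54 (.thr 4 55 (.thr 20 23 (.thr 52 36 (.thr 7 37 (.thr 6 5 (.thr 42 46 (.thr 2 62 (.thr 50 18 (.dbl 14 10 26))))))))) (.rp 6 (.str 52 (.nv (.thr 55 4 (.thr 53 54 (.dbl 37 5 7))) (.nv (.thr 20 23 (.dbl 4 36 55)) (.rp 55 (.thr 20 23 (.thr 36 4 (.dbl 37 7 39))) (.rp 4 (.thr 37 7 (.thr 5 53 (.thr 36 39 (.thr 42 46 (.thr 32 47 (.thr 35 33 (.dbl 44 40 41))))))) .nd))))) .nd))))) (.rp 7 (.str 26 (.nv (.thr 6 54 (.thr 14 50 (.thr 2 10 (.thr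 30 18 (.dbl 62 42 46))))) (.nv (.thr 18 30 (.thr 20 23 (.thr 16 31 (.thr 28 24 (.dbl 19 17 25))))) (.rp 34 (.str 17 (.nv (.thr 16 31 (.thr 20 23 (.thr 25 29 (.dbl 28 19 24)))) (.nv (.thr 16 31 (.dbl 18 19 30)) (.rp 31 (.thr 18 30 (.thr 19 16 (.dbl 25 28 29))) (.rp 19 (.thr 31 16 (.thr 30 18 (.dbl 29 25 28))) (.rp 16 (.thr 6 54 (.thr 14 50 (.thr 2 10 (.thr 30 18 (.dbl 62 42 46))))) .nd)))))) (.rp 30 (.thr 20 23 (.thr 54 6 (.thr 50 14 (.thr 16 31 (.thr 28 24 (.thr 19 25 (.thr 62 58 (.thr 2 42 (.dbl 18 17 34))))))))) (.rp 18 (.thr 23 20 (.thr 6 54 (.thr 14 50 (.thr 2 10 (.thr 31 16 (.thr 19 27 (.thr 28 25 (.thr 30 29 (.dbl 62 42 46))))))))) (.rp 17 (.str 34 (.nv (.thr 6 54 (.thr 14 50 (.thr 2 10 (.dbl 42 46 62)))) (.nv (.thr 50 14 (.dbl 18 2 30)) (.rp 50 (.thr 23 20 (.thr 31 16 (.thr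 19 27 (.thr 30 18 (.dbl 28 25 29))))) (.rp 14 (.thr 18 30 (.thr 2 50 (.dbl 42 46 62))) (.rp 2 (.thr 14 50 (.thr 30 18 (.dbl 46 42 62))) .nd)))))) .nd))))))) (.rp 6 (.str 7 (.nv (.thr 4 55 (.thr 20 23 (.dbl 52 36 37))) (.nv (.thr 23 20 (.dbl 55 4 39)) (.rp 55 (.str 25 (.nv (.thr 17 29 (.thr 37 52 (.thr 49 13 (.thr 1 33 (.thr 53 5 (.dbl 61 41 57)))))) (.nv (.thr 17 29 (.thr 19 28 (.thr 16 18 (.thr 31 26 (.dbl 23 20 27))))) (.rp 63 (.str 59 (.nv (.thr 8 42 (.thr 37 52 (.thr 49 13 (.thr 53 5 (.thr 61 57 (.thr 1 41 (.dbl 17 29 33))))))) (.nv (.thr 17 29 (.thr 19 28 (.thr 16 18 (.thr 31 26 (.dbl 23 20 27))))) (.rp 29 (.thr 37 52 (.thr 39 36 (.thr 42 8 (.thr 47 32 (.thr 35 43 (.thr 44 41 (.dbl 46 34 45))))))) (.rp 17 (.str 34 (.nv (.dbl 42 8 46) (.rp 46 (.thr 42 8 (.thr 37 52 (.thr 32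 47 (.thr 35 33 (.thr 36 39 (.dbl 44 40 41)))))) (.rp 42 (.thr 23 20 (.thr 19 28 (.thr 27 31 (.thr 11 43 (.thr 15 3 (.thr 37 52 (.dbl 26 24 48))))))) (.rp 8 (.thr 42 46 (.thr 37 52 (.thr 32 47 (.thr 35 33 (.thr 36 39 (.dbl 44 40 41)))))) .nd))))) .nd))))) (.rp 59 (.str 63 (.nv (.thr 37 52 (.thr 49 13 (.thr 53 5 (.thr 61 57 (.thr 60 62 (.dbl 41 1 3)))))) (.nv (.thr 17 29 (.thr 19 28 (.thr 16 18 (.thr 31 26 (.dbl 23 20 27))))) (.rp 17 (.str 34 (.nv (.thr 42 46 (.thr 62 2 (.thr 23 20 (.thr 60 61 (.dbl 3 41 43))))) (.nv (.thr 19 28 (.thr 23 20 (.thr 31 27 (.thr 15 47 (.dbl 3 11 43))))) (.nv (.thr 37 52 (.thr 36 39 (.thr 42 46 (.thr 32 47 (.thr 35 33 (.dbl 44 40 41)))))) (.nv (.thr 23 20 (.thr 3 43 (.thr 42 46 (.thr 60 41 (.dbl 62 2 61))))) .nd))))) .nd)))) (.rp 29 (.thr 20 23 (.thr 28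 19 (.thr 24 16 (.thr 37 52 (.thr 36 39 (.thr 48 12 (.dbl 26 15 27))))))) (.rp 17 (.str 34 (.nv (.thr 19 28 (.thr 23 20 (.thr 27 31 (.thr 42 46 (.thr 2 62 (.thr 50 18 (.dbl 26 14 24))))))) (.nv (.thr 37 52 (.thr 42 46 (.thr 32 47 (.thr 35 33 (.thr 44 41 (.dbl 36 39 40)))))) (.rp 63 (.str 59 (.nv (.dbl 42 8 46) (.rp 46 (.thr 42 8 (.thr 37 52 (.thr 32 47 (.thr 35 33 (.thr 36 39 (.dbl 44 40 41)))))) (.rp 42 (.thr 23 20 (.thr 19 28 (.thr 27 31 (.thr 11 43 (.thr 15 3 (.thr 37 52 (.dbl 26 24 48))))))) (.rp 8 (.thr 42 46 (.thr 37 52 (.thr 32 47 (.thr 35 33 (.thr 36 39 (.dbl 44 40 41)))))) .nd))))) (.rp 59 (.str 63 (.nv (.thr 42 46 (.thr 62 2 (.thr 23 20 (.thr 60 61 (.dbl 3 41 43))))) (.nv (.thr 19 28 (.thr 23 20 (.thr 31 27 (.thr 15 47 (.dbl 3 11 43))))) (.nv (.thr 37 52 (.thr 36 39 (.thr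 42 46 (.thr 32 47 (.thr 35 33 (.dbl 44 40 41)))))) (.nv (.thr 23 20 (.thr 3 43 (.thr 42 46 (.thr 60 41 (.dbl 62 2 61))))) .nd))))) (.rp 46 (.thr 20 23 (.thr 37 52 (.thr 13 49 (.thr 28 19 (.thr 16 24 (.thr 31 26 (.thr 29 30 (.thr 61 45 (.thr 1 41 (.dbl 5 9 53)))))))))) (.rp 42 (.thr 20 23 (.thr 37 52 (.thr 13 49 (.thr 28 19 (.thr 16 24 (.thr 31 26 (.thr 29 30 (.thr 61 45 (.thr 1 41 (.dbl 5 9 53)))))))))) (.rp 40 (.thr 20 23 (.thr 28 19 (.thr 16 24 (.thr 42 46 (.thr 2 62 (.thr 18 50 (.dbl 26 30 31))))))) .nd)))))))) .nd))))))) (.rp 34 (.str 17 (.nv (.thr 4 55 (.thr 20 23 (.dbl 52 36 37))) (.nv (.thr 23 20 (.dbl 55 4 39)) (.rp 55 (.thr 23 20 (.thr 25 29 (.thr 19 28 (.thr 16 18 (.dbl 31 26 27))))) (.rp 23 (.thr 37 52 (.thr 53 5 (.thr 25 29 (.thr 49 13 (.thr 1 33 (.dbl 61 41 57))))))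 (.rp 20 (.thr 55 4 (.thr 39 23 (.dbl 37 36 52))) (.rp 4 (.thr 23 20 (.thr 39 55 (.dbl 37 36 52))) .nd))))))) (.rp 23 (.thr 37 52 (.str 41 (.nv (.thr 1 61 (.thr 5 53 (.thr 13 9 (.thr 33 45 (.dbl 49 17 25))))) (.nv (.thr 45 33 (.thr 44 35 (.thr 47 46 (.thr 32 42 (.dbl 36 39 40))))) (.rp 45 (.thr 39 36 (.thr 3 60 (.thr 15 11 (.thr 35 44 (.thr 47 43 (.thr 31 63 (.dbl 26 16 48))))))) (.rp 34 (.str 17 (.nv (.thr 1 61 (.thr 5 53 (.thr 13 9 (.dbl 25 29 49)))) (.nv (.thr 3 60 (.thr 15 11 (.thr 33 45 (.dbl 48 18 26)))) (.nv (.thr 1 61 (.dbl 33 45 49)) .nd)))) (.rp 33 (.thr 39 36 (.thr 3 60 (.thr 15 11 (.thr 35 44 (.thr 47 43 (.thr 31 63 (.dbl 26 16 48))))))) (.rp 17 (.str 34 (.nv (.thr 3 60 (.thr 15 11 (.thr 33 45 (.dbl 48 18 26)))) (.nv (.thr 35 44 (.dbl 33 32 45)) (.rp 45 (.thr 35 44 (.thr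 32 33 (.dbl 42 46 47))) (.rp 33 (.thr 36 39 (.thr 44 35 (.thr 32 40 (.dbl 42 46 47)))) .nd))))) (.rp 3 (.thr 39 36 (.thr 1 61 (.thr 35 44 (.thr 33 45 (.thr 32 34 (.thr 17 49 (.dbl 47 42 43))))))) .nd))))))))) (.rp 20 (.thr 55 4 (.thr 39 23 (.dbl 37 36 52))) (.rp 17 (.str 34 (.nv (.thr 4 55 (.thr 20 23 (.dbl 52 36 37))) (.nv (.thr 55 4 (.dbl 23 20 39)) (.rp 55 (.thr 37 52 (.thr 36 39 (.thr 42 46 (.thr 32 47 (.thr 35 33 (.dbl 44 40 41)))))) (.rp 23 (.thr 37 52 (.thr 36 39 (.thr 42 46 (.thr 32 47 (.thr 35 33 (.dbl 44 40 41)))))) (.rp 20 (.thr 55 4 (.thr 39 23 (.dbl 37 36 52))) (.rp 4 (.thr 23 20 (.thr 39 55 (.dbl 37 36 52))) .nd))))))) (.rp 4 (.thr 23 20 (.thr 39 55 (.dbl 37 36 52))) .nd))))))))) (.rp 4 (.str 26 (.nv (.thr 6 54 (.thr 14 50 (.thr 2 10 (.thr 30 18 (.dbl 62 42 46)))))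 (.nv (.thr 18 30 (.thr 20 23 (.thr 16 31 (.thr 28 24 (.dbl 19 17 25))))) (.rp 34 (.str 17 (.nv (.thr 16 31 (.thr 20 23 (.thr 25 29 (.dbl 28 19 24)))) (.nv (.thr 16 31 (.dbl 18 19 30)) (.rp 31 (.thr 18 30 (.thr 19 16 (.dbl 25 28 29))) (.rp 19 (.thr 31 16 (.thr 30 18 (.dbl 29 25 28))) (.rp 16 (.thr 6 54 (.thr 14 50 (.thr 2 10 (.thr 30 18 (.dbl 62 42 46))))) (.rp 12 (.str 8 (.nv (.thr 16 31 (.thr 20 23 (.thr 25 29 (.dbl 28 19 24)))) (.nv (.thr 16 31 (.dbl 18 19 30)) (.rp 31 (.thr 18 30 (.thr 19 16 (.dbl 25 28 29))) (.rp 19 (.thr 31 16 (.thr 30 18 (.dbl 29 25 28))) (.rp 16 (.thr 30 18 (.thr 6 54 (.thr 14 50 (.thr 2 10 (.dbl 62 42 46))))) .nd)))))) (.rp 8 (.str 12 (.nv (.thr 16 31 (.thr 20 23 (.thr 25 29 (.dbl 28 19 24)))) (.nv (.thr 14 50 (.thr 29 25 (.thr 46 63 (.dbl 30 18 62)))) (.nv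 (.thr 16 31 (.dbl 18 19 30)) .nd)))) .nd)))))))) (.rp 30 (.thr 20 23 (.thr 54 6 (.thr 50 14 (.thr 16 31 (.thr 28 24 (.thr 19 25 (.thr 62 58 (.thr 2 42 (.dbl 18 17 34))))))))) (.rp 18 (.thr 23 20 (.thr 6 54 (.thr 14 50 (.thr 2 10 (.thr 31 16 (.thr 19 27 (.thr 28 25 (.thr 30 29 (.dbl 62 42 46))))))))) (.rp 17 (.str 34 (.nv (.thr 6 54 (.thr 14 50 (.thr 2 10 (.dbl 42 46 62)))) (.nv (.thr 50 14 (.dbl 18 2 30)) (.rp 50 (.thr 23 20 (.thr 31 16 (.thr 19 27 (.thr 30 18 (.dbl 28 25 29))))) (.rp 14 (.thr 18 30 (.thr 2 50 (.dbl 42 46 62))) (.rp 12 (.str 8 (.nv (.thr 6 54 (.thr 14 50 (.thr 2 10 (.dbl 42 46 62)))) (.nv (.thr 18 30 (.dbl 50 2 14)) (.rp 50 (.thr 30 18 (.thr 23 20 (.thr 31 16 (.thr 19 27 (.dbl 28 25 29))))) (.rp 14 (.thr 18 30 (.thr 2 50 (.dbl 42 46 62))) (.rp 2 (.thr 30 18 (.thr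 46 42 (.dbl 14 50 62))) .nd)))))) (.rp 8 (.str 12 (.nv (.thr 6 54 (.thr 14 50 (.thr 2 10 (.dbl 42 46 62)))) (.nv (.thr 30 18 (.thr 46 42 (.thr 29 63 (.dbl 31 16 28)))) (.nv (.thr 18 30 (.dbl 50 2 14)) .nd)))) (.rp 2 (.thr 14 50 (.thr 30 18 (.dbl 46 42 62))) .nd)))))))) (.rp 12 (.str 8 (.nv (.thr 18 30 (.thr 50 14 (.thr 54 6 (.thr 62 58 (.dbl 2 34 42))))) (.nv (.thr 20 23 (.thr 18 30 (.thr 16 31 (.thr 28 24 (.dbl 19 17 25))))) (.rp 34 (.str 17 (.nv (.thr 16 31 (.thr 20 23 (.thr 25 29 (.dbl 28 19 24)))) (.nv (.thr 16 31 (.dbl 18 19 30)) (.rp 31 (.thr 18 30 (.thr 19 16 (.dbl 25 28 29))) (.rp 19 (.thr 31 16 (.thr 30 18 (.dbl 29 25 28))) (.rp 16 (.thr 30 18 (.thr 6 54 (.thr 14 50 (.thr 2 10 (.dbl 62 42 46))))) .nd)))))) (.rp 30 (.thr 20 23 (.thr 16 31 (.thr 14 50 (.thr 6 54 (.thr 10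 2 (.thr 11 9 (.thr 56 41 (.dbl 24 28 40)))))))) (.rp 18 (.thr 20 23 (.thr 16 31 (.thr 24 28 (.thr 14 50 (.thr 6 54 (.thr 56 40 (.thr 11 41 (.dbl 10 2 9)))))))) (.rp 17 (.str 34 (.nv (.thr 6 54 (.thr 14 50 (.thr 2 10 (.dbl 42 46 62)))) (.nv (.thr 18 30 (.dbl 50 2 14)) (.rp 50 (.thr 30 18 (.thr 23 20 (.thr 31 16 (.thr 19 27 (.dbl 28 25 29))))) (.rp 14 (.thr 18 30 (.thr 2 50 (.dbl 42 46 62))) (.rp 2 (.thr 30 18 (.thr 46 42 (.dbl 14 50 62))) .nd)))))) .nd))))))) (.rp 8 (.str 12 (.nv (.thr 20 23 (.thr 18 30 (.thr 16 31 (.thr 28 24 (.dbl 19 17 25))))) (.nv (.thr 6 54 (.thr 16 31 (.thr 20 23 (.thr 28 24 (.thr 60 44 (.dbl 3 9 41)))))) (.nv (.thr 54 6 (.thr 50 14 (.thr 62 58 (.thr 18 30 (.dbl 2 34 42))))) (.rp 34 (.str 17 (.nv (.thr 16 31 (.thr 20 23 (.thr 25 29 (.dbl 28 19 24)))) (.nv (.thr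 14 50 (.thr 29 25 (.thr 46 63 (.dbl 30 18 62)))) (.nv (.thr 16 31 (.dbl 18 19 30)) .nd)))) (.rp 17 (.str 34 (.nv (.thr 6 54 (.thr 14 50 (.thr 2 10 (.dbl 42 46 62)))) (.nv (.thr 30 18 (.thr 46 42 (.thr 29 63 (.dbl 31 16 28)))) (.nv (.thr 18 30 (.dbl 50 2 14)) .nd)))) .nd)))))) .nd))))))))) .nd))))))))))))))))

theorem w76 : WinAt (6291456, 2251799813685249) :=
  chF (K := []) kn c76 6291456 2251799813685249 51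
    [2251816993685505] (by decide +kernel) (by decide +kernel)

/-- A certificate. -/
noncomputable def c77 : Ct := (.str 28 (.nv (.thr 19 25 (.thr 23 20 (.thr 31 27 (.thr 26 16 (.dbl 30 18 29))))) (.nv (.thr 20 23 (.thr 16 24 (.thr 31 26 (.thr 25 19 (.dbl 29 17 30))))) (.rp 31 (.str 60 (.nv (.thr 3 41 (.thr 23 20 (.thr 25 19 (.thr 29 17 (.thr 63 43 (.dbl 12 44 46)))))) (.nv (.thr 25 19 (.thr 3 41 (.thr 12 44 (.thr 6 9 (.dbl 38 51 54))))) (.rp 51 (.thr 23 20 (.thr 25 19 (.thr 12 44 (.thr 3 41 (.thr 63 43 (.dbl 29 17 46)))))) (.rp 44 (.thr 25 19 (.thr 17 29 (.thr 41 3 (.thr 1 61 (.thr 49 33 (.thr 13 37 (.dbl 9 5 57))))))) (.rp 41 (.thr 23 20 (.thr 25 19 (.thr 29 17 (.thr 12 44 (.thr 63 46 (.thr 3 43 (.thr 6 9 (.dbl 38 51 54)))))))) (.rp 25 (.thr 23 20 (.thr 12 44 (.thr 3 41 (.thr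 63 43 (.thr 62 61 (.thr 46 29 (.thr 42 2 (.thr 38 34 (.dbl 6 9 54))))))))) (.rp 23 (.thr 12 44 (.thr 3 41 (.thr 6 9 (.thr 38 54 (.dbl 25 19 51))))) (.rp 19 (.thr 23 20 (.thr 12 44 (.thr 3 41 (.thr 6 9 (.thr 38 54 (.thr 25 51 (.thr 63 43 (.dbl 29 17 46)))))))) (.rp 12 (.thr 25 19 (.thr 17 29 (.thr 41 3 (.thr 1 61 (.thr 49 33 (.thr 13 37 (.dbl 9 5 57))))))) (.rp 3 (.thr 25 19 (.thr 29 17 (.thr 12 44 (.thr 51 38 (.thr 57 54 (.thr 63 46 (.thr 61 62 (.dbl 41 1 9)))))))) .nd))))))))))) (.rp 30 (.str 60 (.nv (.thr 3 41 (.thr 23 20 (.thr 25 19 (.thr 29 17 (.thr 63 43 (.dbl 12 44 46)))))) (.nv (.thr 25 19 (.thr 3 41 (.thr 12 44 (.thr 6 9 (.dbl 38 51 54))))) (.rp 51 (.thr 23 20 (.thr 25 19 (.thr 12 44 (.thr 3 41 (.thr 63 43 (.dbl 29 17 46)))))) (.rp 44 (.thr 25 19 (.thr 17 29 (.thr 41 3 (.thr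 1 61 (.thr 49 33 (.thr 13 37 (.dbl 9 5 57))))))) (.rp 41 (.thr 23 20 (.thr 25 19 (.thr 29 17 (.thr 12 44 (.thr 63 46 (.thr 3 43 (.thr 6 9 (.dbl 38 51 54)))))))) (.rp 25 (.thr 23 20 (.thr 12 44 (.thr 3 41 (.thr 63 43 (.thr 62 61 (.thr 46 29 (.thr 42 2 (.thr 38 34 (.dbl 6 9 54))))))))) (.rp 19 (.thr 23 20 (.thr 12 44 (.thr 3 41 (.thr 6 9 (.thr 38 54 (.thr 25 51 (.thr 63 43 (.dbl 29 17 46)))))))) (.rp 12 (.thr 25 19 (.thr 17 29 (.thr 41 3 (.thr 1 61 (.thr 49 33 (.thr 13 37 (.dbl 9 5 57))))))) (.rp 3 (.thr 25 19 (.thr 29 17 (.thr 12 44 (.thr 51 38 (.thr 57 54 (.thr 63 46 (.thr 41 9 (.dbl 61 1 62)))))))) .nd)))))))))) (.rp 29 (.thr 20 23 (.thr 16 24 (.thr 26 31 (.thr 18 30 (.dbl 19 17 25))))) (.rp 26 (.str 60 (.nv (.thr 12 44 (.thr 23 20 (.thr 25 19 (.thr 29 17 (.thr 63 46 (.dbl 3 41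 43)))))) (.nv (.thr 25 19 (.thr 3 41 (.thr 12 44 (.thr 6 9 (.dbl 38 51 54))))) (.rp 51 (.thr 23 20 (.thr 25 19 (.thr 12 44 (.thr 3 41 (.thr 63 43 (.dbl 29 17 46)))))) (.rp 44 (.thr 25 19 (.thr 29 17 (.thr 30 31 (.thr 45 15 (.thr 61 13 (.dbl 41 1 3)))))) (.rp 41 (.thr 25 19 (.thr 29 17 (.thr 30 31 (.thr 12 44 (.thr 63 46 (.thr 61 62 (.dbl 45 13 15))))))) (.rp 25 (.thr 23 20 (.thr 12 44 (.thr 3 41 (.thr 63 43 (.thr 61 62 (.thr 29 46 (.thr 30 31 (.dbl 45 13 15)))))))) (.rp 19 (.thr 23 20 (.thr 12 44 (.thr 3 41 (.thr 6 9 (.thr 38 54 (.thr 25 51 (.thr 63 43 (.dbl 29 17 46)))))))) (.rp 12 (.thr 25 19 (.thr 29 17 (.thr 30 31 (.thr 45 15 (.thr 41 3 (.dbl 61 1 13)))))) (.rp 3 (.thr 25 19 (.thr 29 17 (.thr 30 31 (.thr 12 44 (.thr 63 46 (.thr 61 62 (.dbl 45 13 15))))))) .nd)))))))))) (.rp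 25 (.str 26 (.nv (.thr 20 23 (.dbl 16 24 31)) (.nv (.thr 30 18 (.dbl 31 16 29)) (.rp 31 (.str 60 (.nv (.thr 3 41 (.thr 18 30 (.thr 23 20 (.thr 48 33 (.thr 37 15 (.thr 63 43 (.dbl 53 5 58))))))) (.nv (.thr 30 18 (.thr 20 23 (.thr 24 16 (.thr 12 44 (.thr 48 36 (.dbl 15 37 45)))))) (.nv (.thr 3 41 (.thr 12 44 (.thr 30 18 (.thr 15 45 (.thr 14 13 (.thr 38 50 (.dbl 6 9 54))))))) (.nv (.thr 12 44 (.thr 18 30 (.thr 20 23 (.thr 24 16 (.thr 48 36 (.dbl 3 33 41)))))) (.rp 30 (.thr 44 12 (.thr 41 3 (.thr 38 35 (.thr 6 54 (.thr 14 50 (.thr 2 10 (.thr 62 42 (.dbl 61 1 63)))))))) (.rp 18 (.thr 44 12 (.thr 41 3 (.thr 38 35 (.thr 6 54 (.thr 14 50 (.thr 2 10 (.thr 62 42 (.dbl 61 1 63)))))))) .nd))))))) (.rp 16 (.str 48 (.nv (.thr 18 30 (.thr 3 33 (.thr 23 20 (.thr 63 43 (.thr 53 58 (.dbl 37 5 15))))))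 (.nv (.thr 15 37 (.thr 30 18 (.thr 29 31 (.thr 60 45 (.thr 12 44 (.thr 46 63 (.dbl 14 13 62))))))) (.nv (.thr 18 30 (.thr 3 33 (.thr 41 60 (.thr 11 56 (.dbl 15 7 37))))) (.rp 60 (.thr 30 18 (.thr 31 29 (.thr 15 37 (.thr 63 47 (.thr 58 53 (.thr 42 10 (.thr 62 2 (.thr 14 46 (.dbl 50 38 54))))))))) (.rp 37 (.thr 18 30 (.thr 23 20 (.thr 3 33 (.thr 63 43 (.thr 58 53 (.thr 42 10 (.thr 62 2 (.dbl 60 41 61)))))))) (.rp 33 (.thr 30 18 (.thr 31 29 (.thr 23 20 (.thr 15 37 (.thr 63 47 (.thr 3 43 (.dbl 60 41 45))))))) (.rp 30 (.str 60 (.nv (.thr 12 44 (.thr 36 24 (.thr 37 15 (.thr 38 39 (.thr 6 54 (.dbl 3 9 41)))))) (.nv (.thr 3 41 (.thr 23 20 (.thr 63 43 (.thr 58 53 (.thr 62 61 (.dbl 42 2 10)))))) (.nv (.thr 41 3 (.thr 44 12 (.thr 38 35 (.thr 50 14 (.thr 51 49 (.dbl 54 6 57)))))) (.nv (.thr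 23 20 (.thr 3 41 (.thr 63 43 (.thr 53 58 (.dbl 37 5 15))))) (.rp 41 (.thr 12 44 (.thr 36 24 (.thr 37 15 (.thr 38 39 (.thr 54 6 (.thr 50 14 (.dbl 51 49 57))))))) (.rp 9 (.thr 12 44 (.thr 36 24 (.thr 37 15 (.thr 38 39 (.thr 54 6 (.thr 50 14 (.dbl 51 49 57))))))) (.rp 3 (.thr 12 44 (.thr 36 24 (.thr 37 15 (.thr 38 39 (.thr 54 6 (.thr 51 57 (.dbl 50 14 49))))))) .nd)))))))) (.rp 18 (.str 60 (.nv (.thr 23 20 (.thr 3 41 (.thr 63 43 (.thr 53 58 (.dbl 37 5 15))))) (.nv (.thr 3 41 (.thr 23 20 (.thr 63 43 (.thr 58 53 (.thr 62 61 (.dbl 42 2 10)))))) (.nv (.thr 12 44 (.thr 15 37 (.thr 13 14 (.thr 45 30 (.thr 61 29 (.dbl 41 1 3)))))) (.rp 41 (.thr 12 44 (.thr 36 24 (.thr 37 15 (.thr 38 39 (.thr 54 6 (.thr 50 14 (.dbl 51 49 57))))))) (.rp 19 (.str 17 (.nv (.thr 12 44 (.thr 15 37 (.thr 30 45 (.thr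 29 31 (.thr 46 63 (.dbl 14 13 62)))))) (.nv (.thr 3 41 (.thr 23 20 (.thr 63 43 (.thr 62 61 (.thr 42 2 (.dbl 58 10 53)))))) (.nv (.thr 41 3 (.thr 1 61 (.thr 33 49 (.dbl 37 15 45)))) (.rp 41 (.thr 12 44 (.thr 36 24 (.thr 37 15 (.thr 38 39 (.thr 54 6 (.thr 50 14 (.dbl 51 49 57))))))) .nd))))) (.rp 17 (.str 19 (.nv (.thr 3 41 (.thr 51 35 (.thr 50 49 (.thr 38 14 (.dbl 54 6 57))))) (.nv (.thr 23 20 (.thr 31 27 (.thr 30 29 (.dbl 15 37 45)))) (.rp 51 (.str 34 (.nv (.thr 12 44 (.thr 15 37 (.thr 13 14 (.thr 41 3 (.thr 45 30 (.dbl 61 1 29)))))) (.nv (.thr 3 41 (.thr 23 20 (.thr 63 43 (.thr 58 53 (.thr 62 61 (.dbl 42 2 10)))))) (.nv (.thr 23 20 (.thr 31 27 (.thr 30 29 (.dbl 15 37 45)))) (.rp 12 (.str 38 (.nv (.thr 3 41 (.thr 15 37 (.thr 7 11 (.thr 23 20 (.dbl 55 4 39))))) (.nv (.thr 14 50 (.thr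 42 46 (.thr 2 62 (.dbl 6 10 54)))) (.rp 8 (.thr 4 55 (.thr 23 20 (.thr 31 27 (.thr 30 29 (.dbl 15 37 45))))) (.rp 4 (.str 8 (.nv (.thr 37 15 (.thr 41 3 (.thr 33 45 (.dbl 35 32 44)))) (.nv (.thr 41 3 (.thr 42 46 (.thr 40 43 (.dbl 56 11 24)))) (.nv (.thr 14 50 (.thr 46 42 (.thr 30 62 (.dbl 15 37 45)))) (.rp 36 (.thr 20 23 (.thr 54 6 (.thr 50 14 (.thr 62 58 (.dbl 42 2 46))))) (.rp 20 (.str 36 (.nv (.dbl 37 15 39) (.rp 39 (.thr 54 6 (.thr 50 14 (.thr 62 58 (.dbl 42 2 46)))) (.rp 37 (.thr 54 6 (.thr 50 14 (.thr 62 58 (.dbl 42 2 46)))) (.rp 15 (.thr 54 6 (.thr 42 46 (.thr 62 2 (.dbl 50 14 58)))) .nd))))) .nd)))))) .nd))))) .nd))))) (.rp 37 (.thr 23 20 (.thr 31 27 (.thr 30 29 (.thr 15 45 (.thr 63 47 (.dbl 3 41 43)))))) (.rp 34 (.str 51 (.nv (.thr 50 49 (.thr 38 14 (.dbl 54 6 57))) (.nv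 (.dbl 3 35 41) (.rp 50 (.str 2 (.nv (.thr 15 37 (.thr 23 20 (.dbl 27 31 39))) (.nv (.dbl 3 35 41) .nd))) .nd)))) .nd)))))) (.rp 3 (.thr 12 44 (.thr 15 37 (.thr 30 45 (.thr 29 31 (.thr 46 63 (.dbl 14 13 62)))))) .nd)))))))) (.rp 15 (.thr 18 30 (.thr 23 20 (.thr 3 33 (.thr 63 43 (.thr 58 53 (.thr 60 41 (.thr 62 61 (.dbl 42 2 10)))))))) .nd)))))))))) .nd))))) (.rp 23 (.str 30 (.nv (.thr 25 19 (.dbl 29 17 31)) (.nv (.thr 31 29 (.dbl 26 16 18)) (.rp 31 (.thr 19 25 (.thr 26 18 (.str 60 (.nv (.thr 41 3 (.thr 44 12 (.thr 38 35 (.thr 14 50 (.thr 62 46 (.dbl 61 1 63)))))) (.nv (.thr 12 44 (.thr 15 45 (.thr 14 13 (.thr 38 50 (.thr 6 54 (.thr 2 10 (.dbl 62 42 46))))))) (.nv (.thr 3 41 (.thr 15 45 (.thr 37 48 (.thr 51 35 (.thr 39 27 (.thr 38 36 (.dbl 54 6 57))))))) (.nv (.thr 12 44 (.thr 15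 45 (.thr 13 14 (.thr 41 3 (.thr 1 61 (.thr 5 9 (.dbl 37 48 53))))))) (.rp 44 (.str 54 (.nv (.thr 51 57 (.dbl 3 35 41)) (.rp 57 (.thr 38 6 (.thr 50 14 (.thr 62 58 (.thr 61 63 (.dbl 41 1 3))))) (.rp 51 (.thr 38 6 (.thr 50 14 (.thr 62 58 (.thr 61 63 (.dbl 41 1 3))))) (.rp 41 (.thr 38 6 (.thr 15 45 (.thr 37 48 (.thr 39 36 (.dbl 51 27 57))))) (.rp 35 (.thr 51 57 (.thr 38 6 (.thr 50 14 (.thr 48 49 (.dbl 15 37 45))))) (.rp 9 (.thr 38 6 (.thr 50 14 (.thr 62 58 (.thr 61 63 (.dbl 41 1 3))))) (.rp 3 (.thr 51 57 (.thr 38 6 (.thr 50 14 (.thr 48 49 (.dbl 15 37 45))))) .nd)))))))) (.rp 12 (.thr 15 45 (.thr 37 48 (.thr 5 53 (.thr 3 41 (.thr 7 11 (.thr 4 6 (.thr 51 35 (.thr 39 27 (.dbl 38 36 55))))))))) .nd))))))))) (.rp 29 (.thr 26 18 (.thr 16 31 (.thr 24 20 (.dbl 25 19 27)))) .nd))))) (.rp 20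 (.thr 25 19 (.str 60 (.nv (.thr 29 17 (.thr 30 31 (.thr 41 3 (.thr 45 15 (.dbl 61 1 13))))) (.nv (.thr 12 44 (.thr 29 17 (.thr 30 31 (.thr 15 45 (.thr 14 13 (.dbl 46 62 63)))))) (.nv (.thr 3 41 (.thr 12 44 (.thr 6 9 (.dbl 38 51 54)))) (.rp 51 (.thr 17 29 (.thr 44 12 (.thr 41 3 (.thr 35 38 (.thr 1 61 (.thr 49 33 (.thr 13 37 (.dbl 9 5 57)))))))) (.rp 36 (.str 4 (.nv (.thr 38 55 (.thr 54 6 (.thr 57 51 (.dbl 41 3 9)))) (.nv (.thr 38 55 (.dbl 12 44 51)) (.rp 55 (.thr 12 44 (.thr 51 38 (.thr 41 3 (.dbl 57 9 54)))) (.rp 54 (.thr 12 44 (.dbl 38 51 55)) (.rp 51 (.thr 38 55 (.thr 44 12 (.dbl 41 3 35))) (.rp 38 (.thr 29 17 (.thr 30 31 (.thr 45 15 (.thr 61 13 (.dbl 41 1 3))))) .nd))))))) (.rp 4 (.str 36 (.nv (.thr 12 44 (.thr 24 48 (.thr 26 27 (.thr 29 17 (.dbl 30 18 31))))) (.nv (.thr 12 44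 (.thr 3 41 (.thr 6 9 (.dbl 38 51 54)))) (.rp 51 (.thr 12 44 (.thr 24 48 (.thr 26 27 (.thr 30 18 (.dbl 29 17 31))))) (.rp 44 (.thr 29 17 (.thr 30 31 (.thr 45 15 (.thr 61 13 (.dbl 41 1 3))))) (.rp 12 (.str 8 (.nv (.thr 29 17 (.thr 30 31 (.thr 41 3 (.thr 9 57 (.thr 11 10 (.dbl 26 18 56)))))) (.nv (.thr 42 59 (.thr 62 2 (.thr 61 63 (.dbl 41 1 3)))) (.rp 51 (.thr 17 29 (.thr 42 59 (.thr 62 2 (.thr 63 61 (.thr 3 41 (.str 15 (.nv (.thr 45 30 (.thr 47 31 (.thr 32 37 (.dbl 44 40 46)))) (.nv (.thr 11 7 (.thr 10 9 (.thr 26 58 (.dbl 30 18 45)))) (.nv (.thr 31 47 (.thr 26 16 (.dbl 30 18 45))) (.rp 45 (.str 13 (.nv (.thr 37 49 (.thr 48 26 (.dbl 53 5 58))) (.nv (.thr 47 31 (.dbl 37 32 49)) (.rp 49 (.thr 11 7 (.thr 10 9 (.thr 31 47 (.dbl 26 16 58)))) (.rp 37 (.str 33 (.nv (.thr 31 47 (.thr 26 16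 (.dbl 18 30 48))) (.nv (.thr 11 7 (.thr 9 10 (.dbl 1 5 49))) .nd))) .nd))))) (.rp 30 (.thr 11 7 (.thr 31 47 (.thr 26 16 (.dbl 10 9 58)))) .nd))))))))))) (.rp 41 (.thr 29 17 (.thr 30 31 (.thr 45 15 (.thr 42 59 (.thr 62 2 (.dbl 61 13 63)))))) (.rp 29 (.thr 41 3 (.thr 9 57 (.thr 11 10 (.thr 56 26 (.thr 40 24 (.dbl 42 43 59)))))) (.rp 3 (.thr 29 17 (.thr 30 31 (.thr 45 15 (.thr 13 61 (.thr 37 49 (.thr 38 39 (.thr 42 59 (.thr 47 32 (.dbl 46 34 44))))))))) (.rp 2 (.thr 17 29 (.thr 41 3 (.thr 1 61 (.thr 49 33 (.thr 13 37 (.dbl 9 5 57)))))) (.rp 1 (.thr 29 17 (.thr 3 41 (.thr 30 31 (.thr 45 15 (.thr 42 59 (.thr 62 2 (.dbl 61 13 63))))))) .nd))))))))) .nd)))))) .nd)))))))) (.rp 19 (.str 60 (.nv (.thr 3 41 (.thr 12 44 (.thr 6 9 (.thr 23 20 (.thr 38 54 (.thr 25 51 (.thr 63 43 (.dbl 29 17 46))))))))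 (.nv (.thr 20 23 (.thr 16 24 (.thr 31 26 (.thr 30 29 (.thr 15 45 (.thr 63 47 (.thr 61 62 (.dbl 41 1 3)))))))) (.rp 63 (.thr 20 23 (.thr 16 24 (.thr 31 26 (.thr 29 30 (.thr 25 17 (.thr 12 44 (.thr 51 38 (.thr 57 54 (.dbl 41 3 9))))))))) (.rp 46 (.thr 20 23 (.thr 16 24 (.thr 31 26 (.thr 30 29 (.thr 15 45 (.thr 44 12 (.thr 63 47 (.thr 61 62 (.dbl 41 1 3))))))))) (.rp 44 (.thr 20 23 (.thr 16 24 (.thr 31 26 (.thr 29 30 (.thr 25 17 (.thr 41 3 (.thr 57 9 (.thr 51 54 (.thr 12 38 (.thr 63 46 (.dbl 61 1 62))))))))))) (.rp 41 (.thr 20 23 (.thr 16 24 (.thr 31 26 (.thr 29 30 (.thr 25 17 (.thr 12 44 (.thr 63 46 (.thr 62 61 (.thr 42 2 (.thr 59 8 (.dbl 51 38 55))))))))))) (.rp 29 (.thr 20 23 (.thr 24 16 (.thr 12 44 (.thr 48 36 (.thr 3 41 (.thr 6 9 (.thr 38 54 (.thr 25 51 (.thr 18 33 (.dbl 26 27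 30)))))))))) (.rp 25 (.thr 23 20 (.thr 12 44 (.thr 3 41 (.thr 63 43 (.thr 61 62 (.thr 29 46 (.thr 30 31 (.dbl 45 13 15)))))))) (.rp 23 (.str 31 (.nv (.thr 30 29 (.dbl 26 16 18)) (.rp 30 (.thr 26 16 (.thr 12 44 (.thr 3 41 (.thr 6 9 (.thr 38 54 (.thr 14 50 (.thr 15 13 (.thr 7 11 (.dbl 4 5 55))))))))) (.rp 29 (.thr 26 16 (.thr 12 44 (.thr 3 41 (.thr 6 9 (.thr 38 54 (.thr 14 50 (.thr 15 13 (.dbl 30 18 45)))))))) (.rp 26 (.thr 30 29 (.thr 15 45 (.thr 63 47 (.thr 61 62 (.dbl 41 1 3))))) (.rp 18 (.thr 30 29 (.thr 15 45 (.thr 63 47 (.thr 61 62 (.dbl 41 1 3))))) (.rp 16 (.thr 30 29 (.thr 15 45 (.thr 63 47 (.thr 61 62 (.dbl 41 1 3))))) .nd))))))) (.rp 20 (.str 25 (.nv (.thr 29 17 (.thr 30 31 (.thr 41 3 (.thr 45 15 (.dbl 61 1 13))))) (.nv (.thr 12 44 (.thr 29 17 (.thr 30 31 (.thr 15 45 (.thr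 14 13 (.dbl 46 62 63)))))) (.nv (.thr 3 41 (.thr 12 44 (.thr 6 9 (.dbl 38 51 54)))) (.rp 51 (.thr 17 29 (.thr 44 12 (.thr 41 3 (.thr 35 38 (.thr 1 61 (.thr 49 33 (.thr 13 37 (.dbl 9 5 57)))))))) (.rp 36 (.str 4 (.nv (.thr 38 55 (.thr 54 6 (.thr 57 51 (.dbl 41 3 9)))) (.nv (.thr 38 55 (.dbl 12 44 51)) (.rp 55 (.thr 12 44 (.thr 51 38 (.thr 41 3 (.dbl 57 9 54)))) (.rp 54 (.thr 12 44 (.dbl 38 51 55)) (.rp 51 (.thr 38 55 (.thr 44 12 (.dbl 41 3 35))) (.rp 38 (.thr 29 17 (.thr 30 31 (.thr 45 15 (.thr 61 13 (.dbl 41 1 3))))) .nd))))))) (.rp 4 (.str 36 (.nv (.thr 12 44 (.thr 24 48 (.thr 26 27 (.thr 29 17 (.dbl 30 18 31))))) (.nv (.thr 12 44 (.thr 3 41 (.thr 6 9 (.dbl 38 51 54)))) (.rp 51 (.thr 12 44 (.thr 24 48 (.thr 26 27 (.thr 30 18 (.dbl 29 17 31))))) (.rp 44 (.thr 29 17 (.thr 30 31 (.thr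 45 15 (.thr 61 13 (.dbl 41 1 3))))) (.rp 12 (.str 8 (.nv (.thr 29 17 (.thr 30 31 (.thr 41 3 (.thr 9 57 (.thr 11 10 (.dbl 26 18 56)))))) (.nv (.thr 42 59 (.thr 62 2 (.thr 61 63 (.dbl 41 1 3)))) (.rp 51 (.thr 17 29 (.thr 42 59 (.thr 62 2 (.thr 63 61 (.thr 3 41 (.str 15 (.nv (.thr 45 30 (.thr 47 31 (.thr 32 37 (.dbl 44 40 46)))) (.nv (.thr 11 7 (.thr 10 9 (.thr 26 58 (.dbl 30 18 45)))) (.nv (.thr 31 47 (.thr 26 16 (.dbl 30 18 45))) (.rp 45 (.str 13 (.nv (.thr 37 49 (.thr 48 26 (.dbl 53 5 58))) (.nv (.thr 47 31 (.dbl 37 32 49)) (.rp 49 (.thr 11 7 (.thr 10 9 (.thr 31 47 (.dbl 26 16 58)))) (.rp 37 (.str 33 (.nv (.thr 31 47 (.thr 26 16 (.dbl 18 30 48))) (.nv (.thr 11 7 (.thr 9 10 (.dbl 1 5 49))) .nd))) .nd))))) (.rp 30 (.thr 11 7 (.thr 31 47 (.thr 26 16 (.dbl 10 9 58)))) .nd)))))))))))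 (.rp 41 (.thr 29 17 (.thr 30 31 (.thr 45 15 (.thr 42 59 (.thr 62 2 (.dbl 61 13 63)))))) (.rp 29 (.thr 41 3 (.thr 9 57 (.thr 11 10 (.thr 56 26 (.thr 40 24 (.dbl 42 43 59)))))) (.rp 3 (.thr 29 17 (.thr 30 31 (.thr 45 15 (.thr 13 61 (.thr 37 49 (.thr 38 39 (.thr 42 59 (.thr 47 32 (.dbl 46 34 44))))))))) (.rp 2 (.thr 17 29 (.thr 41 3 (.thr 1 61 (.thr 49 33 (.thr 13 37 (.dbl 9 5 57)))))) (.rp 1 (.thr 29 17 (.thr 3 41 (.thr 30 31 (.thr 45 15 (.thr 42 59 (.thr 62 2 (.dbl 61 13 63))))))) .nd))))))))) .nd)))))) .nd))))))) (.rp 3 (.thr 20 23 (.thr 16 24 (.thr 31 26 (.thr 29 30 (.thr 25 17 (.thr 12 44 (.thr 51 38 (.thr 57 54 (.thr 63 46 (.thr 41 9 (.dbl 61 1 62))))))))))) .nd)))))))))))) (.rp 16 (.thr 25 19 (.thr 17 29 (.str 60 (.nv (.thr 41 3 (.thr 1 61 (.thr 9 57 (.thr 13 5 (.dbl 49 33 37)))))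 (.nv (.thr 3 41 (.thr 12 44 (.thr 38 51 (.dbl 6 9 54)))) (.rp 51 (.thr 44 12 (.thr 41 3 (.thr 35 38 (.thr 1 61 (.thr 49 33 (.thr 13 37 (.dbl 9 5 57))))))) (.rp 48 (.str 32 (.nv (.thr 41 3 (.thr 1 61 (.thr 9 57 (.thr 13 5 (.dbl 49 33 37))))) (.nv (.thr 3 41 (.thr 12 44 (.thr 6 9 (.dbl 38 51 54)))) (.rp 51 (.thr 44 12 (.thr 41 3 (.thr 35 38 (.thr 33 34 (.dbl 1 49 61))))) (.rp 41 (.thr 23 20 (.thr 12 44 (.thr 38 51 (.thr 6 54 (.thr 3 9 (.thr 63 43 (.thr 62 61 (.thr 42 2 (.thr 34 46 (.thr 33 35 (.thr 49 1 (.dbl 37 13 47)))))))))))) (.rp 35 (.thr 12 44 (.thr 51 38 (.thr 41 3 (.dbl 57 9 54)))) (.rp 9 (.thr 41 3 (.thr 1 61 (.thr 33 49 (.thr 35 34 (.dbl 44 12 38))))) (.rp 3 (.thr 23 20 (.thr 12 44 (.thr 51 38 (.thr 57 54 (.thr 41 9 (.thr 1 61 (.thr 33 49 (.thr 45 37 (.thr 35 34 (.thr 15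 30 (.thr 39 27 (.thr 47 43 (.thr 55 7 (.dbl 63 31 59)))))))))))))) .nd)))))))) (.rp 41 (.thr 23 20 (.thr 12 44 (.thr 38 51 (.thr 6 54 (.thr 3 9 (.thr 63 43 (.thr 62 61 (.thr 42 2 (.thr 46 34 (.thr 30 14 (.thr 18 26 (.thr 48 33 (.thr 53 58 (.thr 4 55 (.dbl 5 7 37))))))))))))))) (.rp 32 (.str 48 (.nv (.thr 3 41 (.thr 12 44 (.thr 18 33 (.thr 26 30 (.dbl 24 27 36))))) (.nv (.thr 41 3 (.thr 1 61 (.thr 9 57 (.thr 13 5 (.dbl 49 33 37))))) (.nv (.thr 3 41 (.thr 12 44 (.thr 38 51 (.dbl 6 9 54)))) (.rp 41 (.thr 23 20 (.thr 12 44 (.thr 38 51 (.thr 55 4 (.thr 36 24 (.dbl 39 7 37)))))) (.rp 3 (.thr 12 44 (.thr 51 38 (.thr 57 54 (.thr 49 50 (.thr 53 61 (.dbl 37 5 13)))))) .nd)))))) (.rp 9 (.thr 23 20 (.thr 12 44 (.thr 3 41 (.thr 63 43 (.thr 62 61 (.thr 42 2 (.thr 59 8 (.dbl 51 38 55)))))))) (.rp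 3 (.thr 12 44 (.thr 51 38 (.thr 57 54 (.thr 41 9 (.thr 1 61 (.thr 49 33 (.thr 48 50 (.thr 24 36 (.thr 26 27 (.dbl 37 13 15)))))))))) .nd))))))))))) .nd))))))))))))

theorem w77 : WinAt (6291456, 4503599627370497) :=
  chF (K := []) kn c77 6291456 4503599627370497 52
    [] (by decide +kernel) (by decide +kernel)

/-- A certificate. -/
noncomputable def c78 : Ct := (.str 16 (.nv (.thr 28 24 (.thr 19 25 (.thr 26 31 (.dbl 18 17 30)))) (.rp 31 (.str 38 (.nv (.thr 4 55 (.thr 52 36 (.thr 7 37 (.dbl 6 5 54)))) (.rp 55 (.thr 54 6 (.thr 28 24 (.thr 19 25 (.thr 18 17 (.thr 26 30 (.thr 50 14 (.thr 62 58 (.dbl 2 34 42)))))))) (.rp 54 (.thr 4 55 (.thr 52 36 (.thr 7 37 (.str 25 (.nv (.thr 19 28 (.dbl 17 18 29)) (.nv (.dbl 28 19 24) (.rp 28 (.thr 6 5 (.thr 12 51 (.thr 3 9 (.thr 15 11 (.thr 13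 14 (.thr 60 41 (.thr 45 30 (.dbl 29 17 61)))))))) (.rp 19 (.str 27 (.nv (.dbl 24 26 28) (.rp 28 (.thr 6 5 (.thr 26 24 (.thr 14 50 (.thr 12 51 (.thr 3 9 (.dbl 15 11 13)))))) (.rp 26 (.thr 6 5 (.thr 12 51 (.thr 3 9 (.thr 28 24 (.dbl 60 41 44))))) (.rp 24 (.thr 6 5 (.thr 12 51 (.thr 3 9 (.thr 15 11 (.thr 13 14 (.thr 60 41 (.thr 45 30 (.dbl 29 17 61)))))))) .nd))))) .nd)))))))) (.rp 52 (.thr 54 6 (.thr 28 24 (.thr 19 25 (.thr 18 17 (.thr 26 30 (.thr 50 14 (.thr 62 58 (.dbl 2 34 42)))))))) (.rp 39 (.thr 54 6 (.thr 28 24 (.thr 19 25 (.thr 18 17 (.thr 26 30 (.thr 50 14 (.thr 62 58 (.dbl 2 34 42)))))))) (.rp 37 (.thr 54 6 (.thr 28 24 (.thr 19 25 (.thr 18 17 (.thr 26 30 (.thr 50 14 (.thr 62 58 (.dbl 2 34 42)))))))) (.rp 36 (.thr 54 6 (.thr 28 24 (.thr 19 25 (.thr 18 17 (.thr 26 30 (.thr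 50 14 (.thr 62 58 (.dbl 2 34 42)))))))) (.rp 27 (.str 19 (.nv (.dbl 28 24 25) (.rp 28 (.thr 6 54 (.thr 4 55 (.thr 52 36 (.dbl 7 5 37)))) (.rp 25 (.thr 6 54 (.thr 4 55 (.thr 52 36 (.dbl 7 5 37)))) (.rp 24 (.thr 17 18 (.dbl 25 28 29)) .nd))))) (.rp 19 (.str 27 (.nv (.thr 24 28 (.thr 25 26 (.thr 12 51 (.thr 36 48 (.dbl 4 52 55))))) (.nv (.thr 6 54 (.thr 4 55 (.thr 52 36 (.dbl 7 5 37)))) (.rp 55 (.thr 24 28 (.thr 25 26 (.thr 12 51 (.thr 36 48 (.thr 52 4 (.dbl 37 7 39)))))) (.rp 52 (.thr 54 6 (.thr 24 28 (.thr 26 25 (.thr 50 14 (.thr 62 58 (.thr 2 42 (.dbl 18 30 34))))))) (.rp 37 (.thr 4 55 (.thr 24 28 (.thr 25 26 (.thr 12 51 (.dbl 36 48 52))))) (.rp 36 (.thr 6 54 (.thr 24 28 (.thr 26 25 (.thr 14 50 (.thr 2 10 (.thr 30 18 (.dbl 62 42 46))))))) (.rp 4 (.thr 6 54 (.thr 24 28 (.thr 26 25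 (.thr 14 50 (.thr 2 10 (.thr 30 18 (.dbl 62 42 46))))))) .nd)))))))) (.rp 7 (.thr 54 6 (.thr 28 24 (.thr 19 25 (.thr 18 17 (.thr 26 30 (.thr 50 14 (.thr 62 58 (.dbl 2 34 42)))))))) (.rp 6 (.thr 28 24 (.thr 19 25 (.thr 18 17 (.str 51 (.nv (.thr 3 35 (.thr 4 55 (.thr 52 36 (.thr 60 41 (.dbl 48 33 56))))) (.nv (.thr 26 30 (.thr 3 35 (.thr 48 33 (.dbl 50 14 49)))) (.rp 48 (.thr 3 35 (.thr 26 30 (.thr 50 14 (.thr 2 34 (.thr 60 41 (.thr 62 42 (.dbl 54 57 58))))))) (.rp 35 (.thr 4 55 (.thr 52 36 (.thr 26 30 (.thr 50 14 (.thr 48 49 (.dbl 37 7 15)))))) (.rp 33 (.thr 4 55 (.thr 52 36 (.thr 7 37 (.thr 3 35 (.thr 26 30 (.thr 11 15 (.dbl 41 56 60))))))) (.rp 26 (.str 27 (.nv (.thr 3 35 (.thr 39 15 (.thr 37 36 (.thr 41 60 (.dbl 33 45 48))))) (.nv (.thr 3 35 (.thr 4 55 (.thr 52 36 (.thr 48 33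 (.dbl 60 41 56))))) (.nv (.thr 39 15 (.thr 4 55 (.dbl 36 37 52))) (.rp 48 (.thr 15 39 (.thr 3 35 (.thr 4 55 (.thr 7 11 (.dbl 52 36 37))))) (.rp 39 (.thr 55 4 (.thr 59 63 (.thr 3 35 (.thr 60 41 (.thr 57 54 (.thr 56 58 (.dbl 48 33 52))))))) (.rp 36 (.thr 15 39 (.thr 55 4 (.thr 59 63 (.thr 11 43 (.dbl 3 7 35))))) .nd))))))) (.rp 3 (.thr 4 55 (.thr 52 36 (.thr 26 30 (.thr 50 14 (.thr 48 49 (.dbl 37 7 15)))))) .nd))))))))))) (.rp 5 (.thr 54 6 (.thr 28 24 (.thr 19 25 (.thr 18 17 (.thr 26 30 (.thr 50 14 (.thr 62 58 (.dbl 2 34 42)))))))) (.rp 4 (.thr 54 6 (.thr 28 24 (.thr 19 25 (.thr 18 17 (.thr 26 30 (.thr 50 14 (.thr 62 58 (.dbl 2 34 42)))))))) .nd)))))))))))))) (.rp 30 (.str 38 (.nv (.thr 28 24 (.thr 25 19 (.thr 12 51 (.thr 60 44 (.thr 3 41 (.dbl 6 9 54)))))) (.nv (.thr 4 55 (.thr 52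 36 (.thr 7 37 (.dbl 6 5 54)))) (.rp 54 (.thr 4 55 (.thr 52 36 (.thr 7 37 (.thr 6 5 (.thr 28 24 (.thr 25 19 (.thr 12 51 (.thr 60 44 (.dbl 3 9 41))))))))) (.rp 6 (.thr 4 55 (.thr 52 36 (.thr 7 37 (.thr 28 24 (.thr 25 19 (.thr 12 51 (.thr 60 44 (.thr 3 41 (.thr 15 11 (.thr 14 13 (.dbl 26 31 50))))))))))) .nd))))) (.rp 28 (.str 4 (.nv (.thr 52 36 (.thr 7 37 (.thr 38 55 (.dbl 6 5 54)))) (.rp 55 (.thr 26 31 (.thr 30 18 (.thr 52 36 (.thr 7 37 (.thr 6 5 (.thr 38 54 (.thr 14 50 (.thr 62 46 (.dbl 2 10 42))))))))) (.rp 54 (.thr 26 31 (.thr 52 36 (.thr 37 7 (.thr 48 15 (.thr 60 56 (.thr 3 41 (.dbl 18 30 33))))))) (.rp 52 (.thr 26 31 (.thr 38 55 (.thr 54 6 (.thr 50 14 (.thr 62 58 (.thr 2 42 (.dbl 18 30 34))))))) (.rp 38 (.thr 26 31 (.thr 52 36 (.thr 37 7 (.thr 48 15 (.thr 60 56 (.thr 3 41 (.dbl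 18 30 33))))))) (.rp 37 (.thr 26 31 (.thr 30 18 (.thr 38 55 (.thr 14 50 (.thr 62 46 (.thr 2 42 (.dbl 6 10 54))))))) (.rp 36 (.thr 26 31 (.thr 30 18 (.thr 38 55 (.thr 14 50 (.thr 62 46 (.thr 2 42 (.dbl 6 10 54))))))) (.rp 7 (.thr 38 55 (.str 39 (.nv (.dbl 36 37 52) (.rp 54 (.thr 52 36 (.str 3 (.nv (.thr 26 31 (.thr 50 14 (.thr 60 41 (.thr 48 56 (.thr 51 49 (.dbl 15 27 37)))))) (.nv (.thr 60 41 (.thr 48 56 (.thr 18 33 (.dbl 26 30 31)))) (.nv (.thr 26 31 (.thr 60 41 (.thr 48 56 (.dbl 18 30 33)))) (.rp 60 (.thr 26 31 (.thr 30 18 (.thr 14 50 (.thr 62 46 (.thr 2 42 (.thr 6 10 (.thr 12 9 (.thr 15 13 (.dbl 51 25 27))))))))) (.rp 56 (.thr 26 31 (.thr 30 18 (.thr 14 50 (.thr 60 41 (.thr 15 45 (.thr 12 13 (.dbl 51 25 27))))))) (.rp 48 (.thr 26 31 (.thr 30 18 (.thr 14 50 (.thr 60 41 (.thr 15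 45 (.thr 12 13 (.dbl 51 25 27))))))) (.rp 41 (.thr 26 31 (.thr 30 18 (.thr 14 50 (.thr 62 46 (.thr 2 42 (.thr 6 10 (.thr 12 9 (.thr 15 13 (.dbl 51 25 27))))))))) (.rp 31 (.thr 60 41 (.thr 48 56 (.thr 18 33 (.thr 19 17 (.thr 51 35 (.thr 15 27 (.dbl 30 26 45))))))) (.rp 30 (.thr 60 41 (.thr 48 56 (.thr 18 33 (.thr 19 17 (.thr 51 35 (.thr 15 27 (.dbl 26 31 37))))))) (.rp 26 (.str 17 (.nv (.thr 25 29 (.thr 12 51 (.thr 9 6 (.dbl 41 57 60)))) (.nv (.thr 18 19 (.thr 48 33 (.dbl 60 41 56))) (.nv (.thr 19 18 (.thr 51 35 (.dbl 25 12 29))) .nd)))) .nd)))))))))))) (.rp 52 (.thr 54 6 (.thr 26 31 (.thr 50 14 (.thr 62 58 (.thr 2 42 (.dbl 18 30 34)))))) (.rp 37 (.thr 54 6 (.thr 26 31 (.thr 50 14 (.thr 62 58 (.thr 2 42 (.dbl 18 30 34)))))) (.rp 36 (.thr 54 6 (.thr 26 31 (.thr 50 14 (.thr 62 58 (.thr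 2 42 (.dbl 18 30 34)))))) .nd))))))) (.rp 6 (.thr 26 31 (.thr 52 36 (.thr 37 7 (.thr 48 15 (.thr 60 56 (.thr 3 41 (.dbl 18 30 33))))))) (.rp 5 (.thr 26 31 (.thr 30 18 (.thr 38 55 (.thr 14 50 (.thr 62 46 (.thr 2 42 (.dbl 6 10 54))))))) .nd))))))))))) (.rp 26 (.str 38 (.nv (.thr 28 24 (.thr 25 19 (.thr 12 51 (.thr 60 44 (.thr 3 41 (.dbl 6 9 54)))))) (.nv (.thr 4 55 (.thr 6 54 (.thr 52 36 (.dbl 7 5 37)))) (.rp 54 (.thr 4 55 (.thr 52 36 (.thr 7 37 (.thr 6 5 (.thr 28 24 (.thr 25 19 (.thr 12 51 (.thr 60 44 (.dbl 3 9 41))))))))) (.rp 6 (.thr 4 55 (.thr 52 36 (.thr 7 37 (.thr 28 24 (.thr 25 19 (.thr 12 51 (.thr 60 44 (.thr 3 41 (.thr 15 11 (.thr 56 48 (.thr 13 14 (.thr 45 30 (.dbl 29 17 61))))))))))))) .nd))))) (.rp 25 (.str 4 (.nv (.thr 24 28 (.thr 26 31 (.thr 36 52 (.thr 48 12 (.thr 37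 15 (.dbl 38 39 55)))))) (.nv (.thr 38 55 (.thr 6 54 (.thr 52 36 (.dbl 7 5 37)))) (.rp 55 (.thr 26 31 (.thr 30 18 (.thr 52 36 (.thr 7 37 (.thr 6 5 (.thr 38 54 (.thr 14 50 (.thr 62 46 (.dbl 2 10 42))))))))) (.rp 54 (.thr 26 31 (.thr 18 30 (.thr 52 36 (.thr 37 7 (.thr 48 15 (.thr 60 56 (.dbl 3 33 41))))))) (.rp 52 (.thr 26 31 (.thr 18 30 (.thr 38 55 (.thr 54 6 (.thr 50 14 (.thr 62 58 (.dbl 2 34 42))))))) (.rp 39 (.thr 52 36 (.thr 7 37 (.thr 38 55 (.dbl 6 5 54)))) (.rp 38 (.thr 26 31 (.thr 18 30 (.thr 52 36 (.thr 37 7 (.thr 48 15 (.thr 60 56 (.dbl 3 33 41))))))) (.rp 37 (.thr 26 31 (.thr 18 30 (.thr 38 55 (.thr 54 6 (.thr 50 14 (.thr 62 58 (.dbl 2 34 42))))))) (.rp 36 (.thr 26 31 (.thr 18 30 (.thr 38 55 (.thr 54 6 (.thr 50 14 (.thr 62 58 (.dbl 2 34 42))))))) (.rp 5 (.thr 24 28 (.thr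 26 31 (.thr 36 52 (.thr 48 12 (.thr 38 55 (.thr 54 6 (.dbl 37 15 39))))))) .nd))))))))))) (.rp 24 (.str 4 (.nv (.thr 52 36 (.thr 7 37 (.thr 38 55 (.dbl 6 5 54)))) (.rp 55 (.thr 26 31 (.thr 30 18 (.thr 52 36 (.thr 7 37 (.thr 6 5 (.thr 38 54 (.thr 14 50 (.thr 62 46 (.dbl 2 10 42))))))))) (.rp 54 (.thr 26 31 (.thr 18 30 (.thr 52 36 (.thr 37 7 (.thr 48 15 (.thr 60 56 (.dbl 3 33 41))))))) (.rp 52 (.thr 26 31 (.thr 18 30 (.thr 38 55 (.thr 54 6 (.thr 50 14 (.thr 62 58 (.dbl 2 34 42))))))) (.rp 48 (.thr 26 31 (.thr 18 30 (.thr 38 55 (.thr 54 6 (.thr 50 14 (.thr 2 34 (.dbl 62 42 58))))))) (.rp 38 (.thr 26 31 (.thr 18 30 (.thr 52 36 (.thr 37 7 (.thr 48 15 (.thr 60 56 (.dbl 3 33 41))))))) (.rp 37 (.thr 26 31 (.thr 18 30 (.thr 38 55 (.thr 54 6 (.thr 50 14 (.thr 62 58 (.dbl 2 34 42))))))) (.rp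 36 (.thr 26 31 (.thr 18 30 (.thr 38 55 (.thr 54 6 (.thr 50 14 (.thr 62 58 (.dbl 2 34 42))))))) (.rp 12 (.thr 26 31 (.thr 18 30 (.thr 38 55 (.thr 54 6 (.thr 50 14 (.thr 62 58 (.dbl 2 34 42))))))) (.rp 7 (.thr 38 55 (.str 39 (.nv (.dbl 36 37 52) (.rp 54 (.thr 52 36 (.str 12 (.nv (.thr 26 31 (.thr 14 50 (.thr 15 13 (.dbl 51 25 27)))) (.nv (.thr 25 51 (.thr 17 29 (.dbl 19 18 28))) (.rp 51 (.thr 26 31 (.thr 30 18 (.thr 14 50 (.thr 15 13 (.thr 60 45 (.dbl 48 37 56)))))) (.rp 25 (.thr 26 31 (.thr 30 18 (.thr 14 50 (.thr 15 13 (.thr 60 45 (.dbl 48 37 56)))))) (.rp 19 (.thr 51 25 (.thr 26 31 (.thr 27 15 (.thr 18 30 (.thr 50 14 (.thr 48 49 (.thr 3 33 (.dbl 60 41 56)))))))) .nd))))))) (.rp 52 (.thr 54 6 (.thr 26 31 (.thr 18 30 (.thr 50 14 (.thr 2 34 (.dbl 62 42 58)))))) (.rp 37 (.thr 54 6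 (.thr 26 31 (.thr 18 30 (.thr 50 14 (.thr 2 34 (.dbl 62 42 58)))))) (.rp 36 (.thr 54 6 (.thr 26 31 (.thr 18 30 (.thr 50 14 (.thr 2 34 (.dbl 62 42 58)))))) .nd))))))) (.rp 6 (.thr 26 31 (.thr 18 30 (.thr 52 36 (.thr 37 7 (.thr 48 15 (.thr 60 56 (.dbl 3 33 41))))))) (.rp 5 (.thr 26 31 (.thr 18 30 (.thr 38 55 (.thr 54 6 (.thr 50 14 (.thr 62 58 (.dbl 2 34 42))))))) .nd))))))))))))) (.rp 19 (.thr 24 28 (.thr 26 31 (.thr 27 25 (.thr 30 18 (.str 60 (.nv (.thr 15 45 (.thr 51 39 (.thr 54 57 (.thr 38 6 (.thr 50 14 (.dbl 48 37 49)))))) (.nv (.thr 15 45 (.thr 48 37 (.thr 36 12 (.dbl 52 4 56)))) (.nv (.thr 15 45 (.thr 3 41 (.thr 7 11 (.dbl 37 48 52)))) (.rp 48 (.thr 15 45 (.thr 51 39 (.thr 54 57 (.thr 38 6 (.thr 50 14 (.thr 55 4 (.thr 62 58 (.dbl 63 59 61)))))))) (.rp 45 (.thr 41 3 (.thr 56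 11 (.thr 48 52 (.thr 15 37 (.thr 51 39 (.thr 54 57 (.thr 38 6 (.dbl 50 14 49)))))))) (.rp 41 (.thr 15 45 (.thr 39 51 (.thr 37 48 (.thr 52 7 (.dbl 36 4 38))))) (.rp 37 (.thr 15 45 (.thr 51 39 (.thr 54 57 (.thr 38 6 (.thr 50 14 (.thr 62 58 (.thr 55 4 (.dbl 63 59 61)))))))) (.rp 15 (.thr 41 3 (.thr 11 56 (.thr 43 59 (.thr 1 61 (.thr 42 40 (.thr 62 2 (.thr 14 46 (.thr 50 38 (.dbl 58 10 54))))))))) .nd))))))))))))) (.rp 18 (.thr 28 24 (.thr 25 19 (.thr 29 17 (.dbl 31 26 30)))) (.rp 17 (.thr 28 24 (.str 60 (.nv (.thr 3 41 (.thr 12 44 (.thr 6 9 (.thr 38 54 (.thr 4 55 (.thr 52 36 (.dbl 7 5 37))))))) (.nv (.thr 3 41 (.thr 26 31 (.thr 18 30 (.thr 48 33 (.thr 37 15 (.dbl 52 7 56)))))) (.nv (.thr 25 19 (.thr 3 41 (.thr 12 44 (.thr 6 9 (.dbl 38 51 54))))) (.rp 51 (.str 34 (.nv (.thr 12 44 (.thr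 26 31 (.thr 30 18 (.thr 15 45 (.thr 14 13 (.thr 38 50 (.dbl 46 42 62))))))) (.nv (.thr 3 41 (.thr 12 44 (.thr 6 9 (.thr 38 54 (.thr 4 55 (.thr 52 36 (.dbl 7 5 37))))))) (.nv (.thr 3 41 (.thr 26 31 (.thr 30 18 (.thr 15 45 (.thr 7 11 (.dbl 37 48 52)))))) .nd)))) (.rp 41 (.thr 26 31 (.thr 30 18 (.thr 12 44 (.thr 15 45 (.thr 14 13 (.thr 38 50 (.dbl 25 19 51))))))) (.rp 34 (.str 51 (.nv (.thr 12 44 (.thr 54 57 (.thr 6 38 (.dbl 3 9 41)))) (.nv (.thr 19 25 (.dbl 3 35 41)) (.nv (.thr 12 44 (.dbl 25 19 38)) .nd)))) (.rp 3 (.thr 26 31 (.thr 30 18 (.thr 12 44 (.thr 15 45 (.thr 14 13 (.thr 38 50 (.dbl 25 19 51))))))) .nd))))))))) .nd)))))))))))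

theorem w78 : WinAt (7340032, 9007199263129601) :=
  chF (K := []) kn c78 7340032 9007199263129601 23
    [] (by decide +kernel) (by decide +kernel)

/-- A certificate. -/
noncomputable def c79 : Ct := (.str 19 (.nv (.thr 23 20 (.thr 28 25 (.thr 31 27 (.thr 26 16 (.dbl 30 18 29))))) (.nv (.thr 20 23 (.thr 28 25 (.thr 16 24 (.thr 26 31 (.dbl 18 17 30))))) (.rp 31 (.str 3 (.nv (.thr 23 20 (.thr 25 28 (.thr 29 17 (.thr 63 43 (.thr 12 46 (.thr 9 6 (.dbl 41 57 60))))))) (.nv (.thr 23 20 (.thr 51 35 (.thr 63 43 (.thr 55 59 (.thr 38 4 (.dbl 25 12 28)))))) (.nv (.thr 25 28 (.thr 51 35 (.thr 12 38 (.thr 9 6 (.dbl 41 57 60))))) (.rp 60 (.thr 25 28 (.thr 29 17 (.thr 51 35 (.thr 12 38 (.thr 63 46 (.dbl 23 20 43)))))) (.rp 51 (.thr 25 28 (.thr 41 60 (.thr 57 9 (.thr 61 1 (.thr 49 53 (.thr 13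 37 (.dbl 29 17 45))))))) (.rp 28 (.thr 23 20 (.thr 51 35 (.thr 63 43 (.thr 55 59 (.thr 38 4 (.thr 12 25 (.thr 60 41 (.thr 62 61 (.thr 42 2 (.dbl 46 29 34)))))))))) (.rp 25 (.thr 23 20 (.thr 51 35 (.thr 63 43 (.thr 55 59 (.thr 38 4 (.thr 39 7 (.thr 60 41 (.thr 62 61 (.thr 42 2 (.thr 46 34 (.thr 30 14 (.dbl 15 27 45)))))))))))) (.rp 12 (.thr 23 20 (.thr 25 28 (.thr 51 35 (.thr 63 43 (.thr 59 55 (.thr 60 41 (.thr 62 61 (.dbl 42 2 8)))))))) .nd))))))))) (.rp 30 (.thr 23 20 (.thr 31 27 (.thr 16 26 (.thr 17 18 (.dbl 25 28 29))))) (.rp 28 (.str 26 (.nv (.thr 23 20 (.dbl 31 16 27)) (.nv (.thr 18 30 (.dbl 16 17 31)) (.rp 31 (.thr 30 18 (.str 60 (.nv (.thr 15 45 (.thr 48 37 (.thr 41 3 (.dbl 56 11 52)))) (.nv (.thr 3 41 (.thr 15 45 (.thr 7 11 (.thr 23 20 (.thr 51 35 (.dbl 39 27 55)))))) (.nv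 (.thr 3 41 (.thr 15 45 (.thr 7 11 (.dbl 37 48 52)))) (.rp 45 (.thr 23 20 (.thr 3 41 (.thr 51 35 (.thr 63 43 (.thr 55 59 (.thr 62 61 (.thr 38 4 (.dbl 14 46 50)))))))) (.rp 41 (.thr 23 20 (.thr 15 45 (.thr 37 48 (.thr 7 52 (.thr 3 11 (.thr 51 35 (.dbl 39 27 55))))))) (.rp 37 (.thr 23 20 (.thr 3 41 (.thr 51 35 (.thr 63 43 (.thr 55 59 (.thr 39 7 (.dbl 15 27 45))))))) (.rp 15 (.thr 23 20 (.thr 3 41 (.thr 51 35 (.thr 63 43 (.thr 55 59 (.thr 62 61 (.thr 38 4 (.dbl 14 46 50)))))))) (.rp 11 (.thr 23 20 (.thr 15 45 (.thr 37 48 (.thr 7 52 (.thr 55 39 (.thr 4 38 (.dbl 5 6 53))))))) (.rp 3 (.thr 20 23 (.thr 15 45 (.thr 48 37 (.thr 52 56 (.thr 4 36 (.thr 38 55 (.thr 50 14 (.thr 51 49 (.thr 25 12 (.dbl 27 24 39)))))))))) .nd))))))))))) (.rp 16 (.thr 20 23 (.str 48 (.nv (.thr 15 37 (.thr 18 30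 (.thr 3 33 (.thr 41 60 (.dbl 11 7 56))))) (.nv (.thr 15 37 (.thr 30 18 (.thr 60 45 (.thr 41 3 (.dbl 56 11 52))))) (.nv (.thr 18 30 (.thr 3 33 (.thr 60 41 (.thr 52 56 (.dbl 37 7 15))))) (.rp 60 (.thr 18 30 (.thr 3 33 (.thr 51 35 (.thr 50 49 (.thr 38 14 (.thr 12 25 (.thr 4 55 (.dbl 36 24 52)))))))) (.rp 56 (.thr 18 30 (.thr 3 33 (.thr 51 35 (.thr 50 49 (.thr 38 14 (.thr 25 12 (.thr 27 24 (.dbl 15 37 39)))))))) (.rp 41 (.thr 18 30 (.thr 3 33 (.thr 51 35 (.thr 50 49 (.thr 38 14 (.thr 25 12 (.thr 27 24 (.dbl 15 37 39)))))))) (.rp 37 (.thr 18 30 (.thr 3 33 (.thr 51 35 (.thr 50 49 (.thr 38 14 (.thr 4 55 (.thr 52 36 (.dbl 60 41 56)))))))) (.rp 30 (.thr 37 15 (.thr 52 7 (.thr 60 56 (.thr 4 36 (.thr 3 41 (.thr 51 35 (.thr 50 49 (.dbl 38 14 55)))))))) (.rp 18 (.thr 37 15 (.thr 52 7 (.thr 60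 56 (.thr 4 36 (.thr 3 41 (.thr 51 35 (.thr 50 49 (.dbl 38 14 55)))))))) (.rp 15 (.thr 18 30 (.thr 3 33 (.thr 51 35 (.thr 50 49 (.thr 38 14 (.thr 12 25 (.thr 4 55 (.dbl 36 24 52)))))))) (.rp 3 (.thr 30 18 (.thr 15 37 (.thr 60 45 (.thr 52 56 (.thr 4 36 (.thr 38 55 (.thr 50 14 (.thr 51 49 (.thr 25 12 (.dbl 27 24 39)))))))))) .nd))))))))))))) .nd))))) (.rp 26 (.str 3 (.nv (.thr 23 20 (.thr 25 28 (.thr 27 31 (.thr 43 63 (.thr 59 11 (.thr 42 8 (.dbl 41 40 60))))))) (.nv (.thr 23 20 (.thr 27 31 (.thr 43 63 (.thr 11 59 (.thr 15 7 (.dbl 51 35 39)))))) (.nv (.thr 25 28 (.thr 51 35 (.thr 12 38 (.thr 9 6 (.dbl 41 57 60))))) (.rp 60 (.thr 25 28 (.thr 29 17 (.thr 51 35 (.thr 12 38 (.thr 63 46 (.dbl 23 20 43)))))) .nd))))) (.rp 25 (.thr 23 20 (.str 60 (.nv (.thr 31 27 (.thr 26 16 (.thr 30 18 (.thr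 15 45 (.thr 63 47 (.dbl 3 41 43)))))) (.nv (.thr 3 41 (.thr 31 27 (.thr 26 16 (.thr 18 30 (.thr 48 33 (.thr 52 56 (.dbl 37 7 15))))))) (.nv (.thr 3 41 (.thr 27 31 (.thr 51 35 (.thr 15 39 (.thr 43 63 (.dbl 11 7 59)))))) (.rp 41 (.thr 31 27 (.thr 26 16 (.thr 30 18 (.thr 15 45 (.thr 63 47 (.thr 62 61 (.thr 46 14 (.dbl 29 12 28)))))))) (.rp 31 (.thr 3 41 (.thr 51 35 (.thr 63 43 (.thr 62 61 (.thr 55 59 (.thr 38 4 (.thr 39 7 (.thr 42 2 (.thr 46 34 (.thr 30 14 (.dbl 15 27 45))))))))))) (.rp 27 (.str 26 (.nv (.thr 18 30 (.dbl 16 17 31)) (.rp 31 (.thr 30 18 (.thr 15 45 (.thr 48 37 (.thr 56 52 (.dbl 41 3 11))))) (.rp 30 (.thr 16 31 (.thr 18 17 (.thr 3 41 (.thr 48 33 (.thr 52 56 (.dbl 37 7 15)))))) (.rp 18 (.thr 31 16 (.thr 41 3 (.thr 56 11 (.thr 48 52 (.thr 15 37 (.thr 63 47 (.dbl 61 1 62)))))))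 (.rp 17 (.thr 30 18 (.thr 31 16 (.thr 15 45 (.thr 63 47 (.dbl 3 41 43))))) (.rp 16 (.thr 30 18 (.thr 15 45 (.thr 48 37 (.thr 56 52 (.dbl 41 3 11))))) .nd))))))) (.rp 15 (.thr 31 27 (.thr 26 16 (.thr 30 18 (.thr 3 41 (.thr 63 43 (.thr 62 61 (.thr 46 14 (.dbl 29 12 28)))))))) (.rp 3 (.thr 31 27 (.thr 26 16 (.thr 30 18 (.thr 15 45 (.thr 63 47 (.thr 62 61 (.thr 46 14 (.dbl 29 12 28)))))))) .nd)))))))))) (.rp 23 (.thr 25 28 (.str 3 (.nv (.thr 17 29 (.thr 18 16 (.thr 41 60 (.thr 1 61 (.dbl 33 48 49))))) (.nv (.thr 51 35 (.thr 12 38 (.thr 9 6 (.dbl 41 57 60)))) (.rp 60 (.thr 17 29 (.thr 18 16 (.thr 51 35 (.thr 12 38 (.thr 48 33 (.thr 24 36 (.dbl 26 27 30))))))) (.rp 57 (.thr 17 29 (.thr 18 16 (.thr 51 35 (.thr 41 60 (.thr 1 61 (.dbl 33 48 49)))))) (.rp 51 (.thr 17 29 (.thr 18 16 (.thr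 41 60 (.thr 57 9 (.thr 1 61 (.dbl 33 48 49)))))) (.rp 44 (.thr 51 35 (.thr 12 38 (.thr 41 60 (.dbl 9 6 57)))) (.rp 41 (.thr 17 29 (.thr 18 16 (.thr 51 35 (.thr 38 12 (.thr 48 33 (.thr 50 49 (.dbl 26 14 30))))))) (.rp 12 (.thr 17 29 (.thr 18 16 (.thr 51 35 (.thr 48 33 (.thr 49 50 (.thr 37 13 (.dbl 26 15 30))))))) .nd)))))))))) (.rp 20 (.str 26 (.nv (.thr 31 16 (.thr 27 23 (.dbl 25 24 28))) (.nv (.thr 18 30 (.dbl 16 17 31)) (.rp 60 (.str 40 (.nv (.thr 31 16 (.thr 27 23 (.dbl 25 24 28))) (.nv (.thr 16 31 (.dbl 18 17 30)) (.rp 57 (.str 51 (.nv (.thr 31 16 (.thr 27 23 (.dbl 25 24 28))) (.nv (.thr 16 31 (.dbl 18 17 30)) (.rp 31 (.thr 18 30 (.thr 17 16 (.dbl 25 28 29))) (.rp 16 (.thr 18 30 (.thr 25 28 (.thr 24 27 (.thr 12 38 (.thr 48 36 (.dbl 3 33 35)))))) .nd))))) (.rp 51 (.str 57 (.nv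 (.thr 25 28 (.thr 24 27 (.thr 41 9 (.dbl 56 8 11)))) (.nv (.thr 16 31 (.dbl 18 17 30)) (.rp 34 (.str 17 (.nv (.dbl 25 28 29) (.nv (.dbl 18 16 30) .nd))) (.rp 17 (.str 34 (.nv (.thr 25 28 (.thr 24 27 (.thr 41 9 (.dbl 56 8 11)))) (.nv (.thr 28 25 (.thr 30 18 (.dbl 31 16 29))) (.rp 28 (.thr 18 30 (.thr 2 50 (.thr 42 62 (.thr 58 10 (.thr 56 59 (.dbl 41 11 43)))))) (.rp 25 (.thr 18 30 (.thr 2 50 (.thr 42 62 (.thr 58 10 (.thr 56 59 (.dbl 41 11 43)))))) (.rp 12 (.thr 30 18 (.thr 31 16 (.dbl 28 25 29))) .nd)))))) .nd))))) (.rp 31 (.thr 18 30 (.thr 17 16 (.dbl 25 28 29))) (.rp 16 (.thr 18 30 (.thr 25 28 (.thr 24 27 (.thr 8 56 (.thr 42 59 (.thr 2 62 (.thr 50 34 (.thr 14 38 (.dbl 10 6 58))))))))) .nd))))))) (.rp 40 (.str 60 (.nv (.thr 31 16 (.thr 27 23 (.dbl 25 24 28))) (.nv (.thr 18 30 (.dbl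 16 17 31)) (.rp 31 (.thr 18 30 (.thr 17 16 (.dbl 25 28 29))) (.rp 16 (.thr 30 18 (.thr 15 45 (.thr 48 37 (.thr 56 52 (.dbl 41 3 11))))) .nd))))) (.rp 31 (.thr 18 30 (.thr 17 16 (.dbl 25 28 29))) (.rp 16 (.thr 25 28 (.thr 24 27 (.str 60 (.nv (.thr 41 3 (.thr 56 11 (.thr 8 40 (.thr 57 9 (.dbl 59 42 58))))) (.nv (.thr 3 41 (.thr 18 30 (.thr 51 35 (.thr 38 12 (.thr 50 14 (.dbl 48 33 49)))))) (.nv (.thr 30 18 (.thr 15 45 (.thr 41 3 (.thr 48 37 (.dbl 56 11 52))))) (.rp 48 (.str 32 (.nv (.thr 30 18 (.thr 29 17 (.thr 45 15 (.thr 61 13 (.dbl 41 1 3))))) (.nv (.thr 41 3 (.thr 56 11 (.thr 8 40 (.thr 57 9 (.dbl 59 42 58))))) (.nv (.thr 41 3 (.thr 1 61 (.thr 9 57 (.thr 13 5 (.thr 49 37 (.dbl 17 29 33)))))) (.rp 41 (.thr 30 18 (.thr 29 17 (.thr 45 15 (.thr 61 13 (.thr 62 63 (.thr 42 2 (.thr 47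 37 (.dbl 46 14 44)))))))) (.rp 33 (.thr 18 30 (.thr 41 3 (.thr 57 9 (.thr 56 11 (.thr 59 58 (.dbl 8 40 42)))))) (.rp 18 (.thr 17 29 (.thr 3 41 (.thr 35 51 (.thr 33 34 (.thr 49 1 (.thr 37 13 (.thr 42 47 (.thr 59 8 (.thr 58 10 (.thr 57 56 (.dbl 53 5 61))))))))))) (.rp 15 (.thr 30 18 (.thr 3 41 (.thr 51 35 (.thr 38 12 (.thr 14 50 (.thr 62 46 (.thr 63 61 (.dbl 55 4 59)))))))) (.rp 3 (.str 61 (.nv (.thr 1 41 (.thr 29 17 (.thr 13 45 (.thr 5 9 (.dbl 37 49 53))))) (.nv (.thr 29 17 (.thr 45 13 (.dbl 30 15 18))) (.rp 51 (.thr 62 63 (.thr 17 29 (.thr 42 2 (.thr 1 41 (.thr 37 47 (.dbl 49 13 33)))))) (.rp 45 (.thr 62 63 (.thr 17 29 (.thr 42 2 (.thr 1 41 (.thr 37 47 (.dbl 49 13 33)))))) (.rp 34 (.thr 62 63 (.thr 17 29 (.thr 42 2 (.thr 1 41 (.thr 37 47 (.dbl 49 13 33)))))) (.rp 33 (.thr 18 30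 (.thr 29 17 (.thr 1 41 (.thr 13 45 (.thr 37 49 (.dbl 5 9 53)))))) (.rp 29 (.thr 62 63 (.thr 42 2 (.thr 1 41 (.thr 37 47 (.thr 53 5 (.dbl 49 13 57)))))) (.rp 18 (.str 33 (.nv (.thr 1 41 (.dbl 17 29 49)) (.rp 49 (.thr 29 17 (.thr 45 13 (.dbl 41 1 37))) (.rp 41 (.thr 62 63 (.thr 29 17 (.thr 13 45 (.thr 37 49 (.dbl 42 2 47))))) (.rp 29 (.thr 1 41 (.thr 49 17 (.thr 53 57 (.dbl 37 5 13)))) (.rp 17 (.thr 62 63 (.thr 42 2 (.thr 1 41 (.thr 37 47 (.thr 53 5 (.dbl 49 13 57)))))) (.rp 1 (.str 2 (.nv (.dbl 62 42 63) (.rp 63 (.thr 29 17 (.thr 42 62 (.thr 37 47 (.dbl 45 13 41)))) (.rp 62 (.thr 29 17 (.thr 45 13 (.thr 41 37 (.thr 56 11 (.thr 40 8 (.thr 44 36 (.dbl 35 34 38))))))) (.rp 42 (.thr 63 62 (.thr 29 17 (.thr 46 12 (.thr 45 13 (.thr 47 44 (.dbl 15 30 31)))))) .nd))))) .nd))))))) (.rp 17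 (.thr 62 63 (.thr 42 2 (.thr 1 41 (.thr 37 47 (.thr 53 5 (.dbl 49 13 57)))))) (.rp 13 (.thr 62 63 (.thr 18 30 (.thr 2 42 (.thr 34 50 (.thr 33 35 (.thr 1 41 (.dbl 17 29 49))))))) (.rp 1 (.str 2 (.nv (.thr 29 17 (.thr 45 13 (.dbl 30 15 18))) (.nv (.dbl 62 42 63) (.rp 33 (.thr 18 30 (.dbl 62 42 63)) (.rp 18 (.str 33 (.nv (.dbl 62 42 63) (.rp 63 (.thr 29 17 (.thr 42 62 (.thr 37 47 (.dbl 45 13 41)))) (.rp 62 (.thr 29 17 (.thr 45 13 (.thr 41 37 (.thr 56 11 (.thr 40 8 (.thr 44 36 (.dbl 35 34 38))))))) (.rp 42 (.thr 63 62 (.thr 29 17 (.thr 46 12 (.thr 45 13 (.thr 47 44 (.dbl 15 30 31)))))) .nd))))) .nd))))) .nd)))))))))))) (.rp 1 (.thr 30 18 (.thr 29 17 (.thr 3 41 (.thr 51 35 (.thr 45 15 (.thr 61 13 (.thr 63 62 (.dbl 12 38 46)))))))) .nd)))))))))) (.rp 41 (.thr 30 18 (.thr 29 17 (.thr 45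 15 (.thr 61 13 (.thr 63 62 (.thr 12 46 (.thr 48 36 (.thr 52 56 (.thr 37 7 (.dbl 53 5 58)))))))))) (.rp 32 (.str 48 (.nv (.thr 41 3 (.dbl 56 11 52)) (.nv (.thr 30 18 (.dbl 15 37 45)) .nd))) (.rp 15 (.thr 18 30 (.thr 3 41 (.thr 51 35 (.thr 48 33 (.dbl 12 36 38))))) (.rp 3 (.thr 30 18 (.thr 15 45 (.thr 48 37 (.thr 12 36 (.thr 14 13 (.dbl 38 50 51)))))) .nd))))))))))) .nd))))))) (.rp 18 (.str 7 (.nv (.thr 23 20 (.thr 55 39 (.thr 4 38 (.thr 37 52 (.dbl 5 6 53))))) (.rp 60 (.thr 37 52 (.thr 53 5 (.thr 25 28 (.thr 17 29 (.thr 49 13 (.thr 1 33 (.dbl 61 41 57))))))) (.rp 55 (.thr 37 52 (.thr 53 5 (.thr 25 28 (.thr 17 29 (.thr 49 13 (.thr 1 33 (.dbl 61 41 57))))))) (.rp 53 (.thr 23 20 (.thr 55 39 (.thr 4 38 (.thr 5 6 (.thr 37 52 (.thr 25 28 (.thr 29 17 (.thr 13 49 (.thr 61 45 (.dbl 1 9 41))))))))))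 (.rp 52 (.thr 23 20 (.thr 55 39 (.thr 4 38 (.thr 5 6 (.thr 37 53 (.thr 25 28 (.thr 29 17 (.thr 13 49 (.thr 61 45 (.dbl 1 9 41)))))))))) (.rp 40 (.thr 37 52 (.thr 53 5 (.thr 25 28 (.thr 17 29 (.thr 49 13 (.thr 1 33 (.dbl 61 41 57))))))) (.rp 39 (.thr 37 52 (.thr 53 5 (.thr 25 28 (.thr 17 29 (.thr 49 13 (.thr 1 33 (.dbl 61 41 57))))))) (.rp 38 (.thr 37 52 (.thr 53 5 (.thr 25 28 (.thr 17 29 (.thr 49 13 (.thr 1 33 (.dbl 61 41 57))))))) (.rp 37 (.thr 23 20 (.thr 39 55 (.thr 27 31 (.thr 51 15 (.thr 3 35 (.thr 25 28 (.thr 29 17 (.thr 12 38 (.dbl 63 43 46))))))))) (.rp 23 (.thr 37 52 (.thr 53 5 (.thr 25 28 (.thr 17 29 (.thr 49 13 (.thr 1 33 (.dbl 61 41 57))))))) (.rp 20 (.thr 37 52 (.thr 53 5 (.thr 25 28 (.thr 17 29 (.thr 49 13 (.thr 1 33 (.dbl 61 41 57))))))) (.rp 6 (.thr 23 20 (.thr 39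 55 (.thr 27 31 (.thr 51 15 (.thr 25 28 (.thr 38 12 (.dbl 37 36 52))))))) (.rp 5 (.thr 23 20 (.thr 39 55 (.thr 27 31 (.thr 15 51 (.thr 25 28 (.thr 3 11 (.thr 63 43 (.thr 60 41 (.thr 61 62 (.thr 45 30 (.dbl 29 13 17))))))))))) (.rp 4 (.thr 37 52 (.thr 53 5 (.thr 25 28 (.thr 17 29 (.thr 49 13 (.thr 1 33 (.dbl 61 41 57))))))) .nd))))))))))))))) (.rp 16 (.thr 25 28 (.thr 20 23 (.str 41 (.nv (.thr 1 61 (.thr 17 29 (.thr 49 33 (.thr 13 37 (.dbl 9 5 57))))) (.nv (.thr 3 60 (.thr 51 35 (.thr 9 57 (.dbl 12 6 38)))) (.rp 57 (.thr 17 29 (.thr 3 60 (.thr 51 35 (.thr 1 61 (.thr 49 33 (.thr 13 37 (.thr 9 5 (.dbl 12 6 38)))))))) (.rp 48 (.str 32 (.nv (.thr 1 61 (.thr 17 29 (.thr 49 33 (.thr 13 37 (.dbl 9 5 57))))) (.nv (.thr 3 60 (.thr 51 35 (.thr 9 57 (.dbl 12 6 38)))) (.rp 57 (.thr 17 29 (.thr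 3 60 (.thr 51 35 (.thr 1 61 (.thr 49 33 (.thr 13 37 (.thr 9 5 (.dbl 12 6 38)))))))) (.rp 9 (.thr 17 29 (.thr 3 60 (.thr 1 61 (.thr 33 49 (.dbl 35 34 51))))) (.rp 3 (.thr 17 29 (.thr 1 61 (.thr 9 57 (.thr 13 5 (.dbl 49 33 37))))) .nd)))))) (.rp 32 (.str 48 (.nv (.thr 1 61 (.thr 17 29 (.thr 49 33 (.thr 13 37 (.dbl 9 5 57))))) (.nv (.thr 60 3 (.thr 56 52 (.thr 26 11 (.thr 15 37 (.dbl 30 18 45))))) (.nv (.thr 3 60 (.thr 9 57 (.thr 51 35 (.dbl 12 6 38)))) .nd)))) (.rp 9 (.thr 29 17 (.thr 3 60 (.thr 51 35 (.thr 61 1 (.thr 13 45 (.thr 12 38 (.thr 15 14 (.thr 7 11 (.dbl 37 49 52))))))))) .nd))))))))) .nd))))))))))))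

theorem w79 : WinAt (6291456, 18014398509481985) :=
  chF (K := []) kn c79 6291456 18014398509481985 54
    [] (by decide +kernel) (by decide +kernel)

end Pool.Agent.TTT.B43
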