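import Pool.Agent.TTT.B43

/-!
Certified forced wins in positions of the 4 x 4 x 4 board.
-/

set_option autoImplicit false
set_option maxRecDepth 1000000
set_option linter.all false

namespace Pool.Agent.TTT.B43

/-- A certificate. -/
noncomputable def c80 : Ct := (.str 19 (.nv (.thr 20 23 (.thr 28 25 (.thr 16 24 (.thr 26 31 (.dbl 18 17 30))))) (.nv (.thr 25 28 (.thr 17 29 (.thr 16 18 (.thr 31 26 (.dbl 23 20 27))))) (.rp 31 (.str 3 (.nv (.thr 23 20 (.thr 25 28 (.thr 29 17 (.thr 63 43 (.thr 12 46 (.thr 9 6 (.dbl 41 57 60))))))) (.nv (.thr 23 20 (.thr 25 28 (.thr 29 17 (.thr 51 35 (.thr 63 43 (.dbl 12 38 46)))))) (.nv (.thr 51 35 (.thr 60 41 (.thr 54 57 (.thr 38 6 (.dbl 25 12 28))))) (.rp 60 (.thr 25 28 (.thr 29 17 (.thr 51 35 (.thr 12 38 (.thr 63 46 (.dbl 23 20 43)))))) (.rp 51 (.thr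 25 28 (.thr 41 60 (.thr 61 1 (.thr 57 9 (.thr 49 53 (.thr 13 37 (.dbl 29 17 45))))))) (.rp 28 (.thr 23 20 (.thr 51 35 (.thr 63 43 (.thr 60 41 (.thr 62 61 (.thr 54 57 (.thr 38 6 (.thr 42 2 (.thr 46 34 (.dbl 12 25 29)))))))))) (.rp 25 (.thr 23 20 (.thr 51 35 (.thr 63 43 (.thr 60 41 (.thr 61 62 (.thr 57 54 (.thr 53 49 (.thr 37 5 (.thr 52 7 (.dbl 48 56 58)))))))))) (.rp 12 (.thr 20 23 (.thr 28 25 (.thr 16 24 (.thr 18 17 (.thr 26 30 (.thr 48 33 (.thr 15 37 (.thr 41 60 (.dbl 11 7 56))))))))) .nd))))))))) (.rp 30 (.thr 23 20 (.thr 31 27 (.thr 16 26 (.thr 17 18 (.dbl 25 28 29))))) (.rp 28 (.str 16 (.nv (.thr 18 17 (.dbl 26 30 31)) (.nv (.thr 31 26 (.dbl 23 20 27)) (.rp 31 (.str 3 (.nv (.thr 18 17 (.thr 23 20 (.thr 48 33 (.thr 63 43 (.thr 53 58 (.thr 37 5 (.dbl 26 15 30))))))) (.nv (.thr 17 18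 (.thr 51 35 (.thr 60 41 (.thr 54 57 (.thr 38 6 (.dbl 25 12 29)))))) (.rp 60 (.thr 18 17 (.thr 30 26 (.thr 51 35 (.str 12 (.nv (.thr 6 9 (.dbl 38 25 54)) (.rp 54 (.thr 9 6 (.thr 25 38 (.thr 48 33 (.thr 41 57 (.thr 1 61 (.thr 13 5 (.dbl 49 37 50))))))) (.rp 40 (.thr 20 23 (.thr 6 9 (.dbl 38 25 54))) (.rp 38 (.thr 20 23 (.thr 6 9 (.thr 48 33 (.thr 36 24 (.thr 52 4 (.thr 7 37 (.thr 15 11 (.thr 14 13 (.thr 62 46 (.dbl 2 10 42)))))))))) (.rp 25 (.thr 20 23 (.str 7 (.nv (.thr 6 9 (.thr 15 11 (.thr 14 13 (.thr 62 46 (.dbl 2 10 42))))) (.nv (.thr 52 37 (.thr 36 4 (.dbl 48 24 33))) (.nv (.thr 6 9 (.thr 5 4 (.dbl 37 52 53))) (.rp 37 (.thr 6 9 (.thr 4 5 (.thr 36 52 (.dbl 48 24 33)))) (.rp 27 (.str 24 (.nv (.thr 6 9 (.thr 5 4 (.dbl 37 52 53))) (.nv (.dbl 48 33 36) .nd))) (.rp 24 (.str 27 (.nv (.thr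 6 9 (.thr 5 4 (.dbl 37 52 53))) (.nv (.dbl 15 11 39) .nd))) .nd)))))))) (.rp 20 (.str 40 (.nv (.thr 6 9 (.dbl 38 25 54)) (.rp 54 (.thr 25 38 (.thr 9 6 (.thr 48 33 (.thr 24 36 (.thr 8 56 (.thr 42 59 (.dbl 41 43 57))))))) (.rp 38 (.thr 9 6 (.thr 48 33 (.thr 24 36 (.thr 8 56 (.thr 11 10 (.thr 15 7 (.thr 14 13 (.thr 62 46 (.thr 42 2 (.thr 59 25 (.dbl 27 39 43))))))))))) (.rp 25 (.thr 9 6 (.thr 48 33 (.thr 24 36 (.thr 8 56 (.thr 11 10 (.thr 15 7 (.thr 14 13 (.thr 62 46 (.thr 42 2 (.thr 43 41 (.dbl 27 39 59))))))))))) (.rp 9 (.thr 25 38 (.thr 48 33 (.thr 24 36 (.thr 8 56 (.thr 42 59 (.thr 2 62 (.dbl 50 34 49))))))) (.rp 6 (.thr 25 38 (.thr 48 33 (.thr 24 36 (.thr 8 56 (.thr 42 59 (.thr 2 62 (.dbl 50 34 49))))))) .nd))))))) (.rp 9 (.thr 20 23 (.thr 48 33 (.thr 36 24 (.thr 52 4 (.thr 7 37 (.thr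 15 11 (.thr 14 13 (.thr 62 46 (.thr 2 42 (.dbl 50 34 49)))))))))) (.rp 6 (.thr 20 23 (.thr 48 33 (.thr 36 24 (.thr 52 4 (.thr 7 37 (.thr 15 11 (.thr 14 13 (.thr 62 46 (.thr 2 42 (.dbl 50 34 49)))))))))) .nd)))))))))))) (.rp 51 (.thr 17 18 (.thr 41 60 (.thr 1 61 (.thr 33 49 (.thr 37 45 (.thr 7 52 (.thr 15 11 (.thr 53 5 (.thr 48 26 (.thr 63 58 (.dbl 23 20 43))))))))))) (.rp 30 (.str 29 (.nv (.dbl 17 18 25) (.rp 25 (.thr 18 17 (.thr 33 48 (.thr 41 60 (.thr 61 1 (.dbl 45 13 37))))) (.rp 18 (.thr 23 20 (.thr 25 17 (.thr 51 35 (.thr 12 38 (.dbl 63 43 46))))) (.rp 17 (.thr 23 20 (.thr 51 35 (.thr 63 43 (.thr 12 46 (.thr 6 9 (.dbl 38 25 54)))))) .nd))))) (.rp 29 (.str 30 (.nv (.dbl 18 17 26) (.rp 26 (.thr 23 20 (.thr 51 35 (.thr 43 63 (.thr 60 41 (.thr 15 45 (.thr 11 7 (.dbl 27 39 59)))))))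 (.rp 18 (.thr 23 20 (.thr 51 35 (.thr 43 63 (.thr 60 41 (.thr 15 45 (.thr 11 7 (.dbl 27 39 59))))))) (.rp 17 (.thr 26 18 (.thr 60 41 (.thr 15 45 (.thr 7 11 (.dbl 37 48 52))))) .nd))))) (.rp 18 (.thr 23 20 (.thr 51 35 (.thr 63 43 (.thr 60 41 (.thr 61 62 (.thr 57 54 (.thr 53 49 (.thr 37 5 (.thr 52 7 (.dbl 48 56 58)))))))))) (.rp 17 (.thr 23 20 (.thr 51 35 (.thr 63 43 (.thr 60 41 (.thr 62 61 (.thr 54 57 (.thr 38 6 (.thr 42 2 (.thr 46 34 (.dbl 12 25 29)))))))))) .nd))))))))) (.rp 26 (.str 3 (.nv (.thr 17 18 (.thr 25 29 (.thr 41 60 (.thr 1 61 (.thr 49 33 (.thr 13 37 (.dbl 9 5 57))))))) (.nv (.thr 23 20 (.thr 27 31 (.thr 51 35 (.thr 15 39 (.thr 11 7 (.dbl 43 59 63)))))) (.nv (.thr 17 18 (.thr 51 35 (.thr 60 41 (.thr 54 57 (.thr 38 6 (.dbl 25 12 29)))))) (.rp 60 (.thr 17 18 (.thr 25 29 (.thr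 51 35 (.thr 12 38 (.thr 9 6 (.thr 41 57 (.thr 1 61 (.thr 13 5 (.dbl 49 33 37))))))))) (.rp 29 (.thr 23 20 (.thr 18 17 (.thr 48 33 (.thr 63 43 (.thr 53 58 (.thr 37 5 (.thr 52 7 (.dbl 60 41 56)))))))) .nd)))))) .nd))))) (.rp 26 (.str 3 (.nv (.thr 25 28 (.thr 17 29 (.thr 18 16 (.thr 41 60 (.thr 1 61 (.dbl 33 48 49)))))) (.nv (.thr 23 20 (.thr 27 31 (.thr 43 63 (.thr 11 59 (.thr 51 35 (.dbl 15 7 39)))))) (.nv (.thr 25 28 (.thr 51 35 (.thr 12 38 (.thr 9 6 (.dbl 41 57 60))))) (.rp 60 (.thr 25 28 (.thr 29 17 (.thr 51 35 (.thr 12 38 (.thr 63 46 (.dbl 23 20 43)))))) .nd))))) (.rp 25 (.thr 23 20 (.str 60 (.nv (.thr 31 27 (.thr 26 16 (.thr 30 18 (.thr 15 45 (.thr 63 47 (.dbl 3 41 43)))))) (.nv (.thr 3 41 (.thr 31 27 (.thr 26 16 (.thr 18 30 (.thr 48 33 (.thr 52 56 (.dbl 37 7 15))))))) (.nv (.thr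 3 41 (.thr 27 31 (.thr 51 35 (.thr 15 39 (.thr 43 63 (.dbl 11 7 59)))))) (.rp 41 (.thr 31 27 (.thr 26 16 (.thr 30 18 (.thr 15 45 (.thr 63 47 (.thr 62 61 (.thr 46 14 (.dbl 29 12 28)))))))) (.rp 31 (.thr 3 41 (.thr 51 35 (.thr 57 54 (.thr 63 43 (.thr 61 62 (.thr 53 49 (.thr 37 5 (.thr 52 7 (.dbl 48 56 58))))))))) (.rp 27 (.thr 3 41 (.thr 51 35 (.thr 57 54 (.thr 63 43 (.thr 61 62 (.thr 53 49 (.thr 37 5 (.thr 52 7 (.dbl 48 56 58))))))))) (.rp 15 (.thr 31 27 (.thr 26 16 (.thr 30 18 (.thr 3 41 (.thr 63 43 (.thr 62 61 (.thr 46 14 (.dbl 29 12 28)))))))) (.rp 3 (.thr 31 27 (.thr 26 16 (.thr 30 18 (.thr 15 45 (.thr 63 47 (.thr 62 61 (.thr 46 14 (.dbl 29 12 28)))))))) .nd)))))))))) (.rp 23 (.thr 25 28 (.thr 17 29 (.thr 16 18 (.thr 31 26 (.str 41 (.nv (.thr 1 61 (.thr 9 57 (.thr 13 5 (.dbl 49 33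 37)))) (.nv (.thr 3 60 (.thr 51 35 (.thr 9 57 (.dbl 12 6 38)))) (.rp 57 (.thr 3 60 (.thr 51 35 (.thr 1 61 (.thr 49 33 (.thr 13 37 (.thr 9 5 (.dbl 12 6 38))))))) (.rp 39 (.str 7 (.nv (.thr 3 60 (.thr 9 57 (.thr 51 35 (.dbl 12 6 38)))) (.nv (.thr 37 52 (.thr 33 45 (.dbl 1 49 61))) .nd))) (.rp 9 (.thr 3 60 (.thr 35 51 (.thr 44 38 (.thr 1 61 (.thr 33 49 (.thr 32 34 (.thr 40 36 (.thr 42 43 (.dbl 37 45 47))))))))) (.rp 7 (.str 39 (.nv (.thr 1 61 (.thr 9 57 (.thr 13 5 (.dbl 49 33 37)))) (.nv (.thr 3 60 (.thr 51 35 (.thr 9 57 (.dbl 12 6 38)))) (.rp 57 (.thr 3 60 (.thr 51 35 (.thr 15 27 (.thr 1 61 (.thr 49 33 (.thr 13 37 (.dbl 12 14 38))))))) (.rp 9 (.thr 3 60 (.thr 51 35 (.thr 15 27 (.thr 1 61 (.thr 49 33 (.thr 13 37 (.dbl 12 14 38))))))) (.rp 6 (.thr 1 61 (.thr 49 33 (.thr 9 57 (.dbl 13 5 37))))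 .nd)))))) .nd))))))))))) (.rp 20 (.str 18 (.nv (.thr 17 16 (.dbl 25 28 29)) (.nv (.thr 26 30 (.dbl 16 17 31)) (.rp 60 (.str 40 (.nv (.thr 17 16 (.dbl 25 28 29)) (.nv (.thr 16 17 (.dbl 26 30 31)) (.rp 17 (.thr 26 30 (.thr 31 16 (.thr 27 23 (.dbl 25 24 28)))) (.rp 16 (.thr 26 30 (.thr 25 28 (.thr 24 27 (.thr 8 56 (.thr 42 59 (.thr 2 62 (.thr 50 34 (.thr 14 38 (.dbl 10 6 58))))))))) .nd))))) (.rp 40 (.str 60 (.nv (.thr 17 16 (.dbl 25 28 29)) (.nv (.thr 26 30 (.dbl 16 17 31)) (.rp 17 (.thr 26 30 (.thr 31 16 (.thr 27 23 (.dbl 25 24 28)))) (.rp 16 (.thr 26 30 (.thr 3 41 (.thr 48 33 (.thr 52 56 (.dbl 37 7 15))))) .nd))))) (.rp 17 (.thr 26 30 (.thr 31 16 (.thr 27 23 (.dbl 25 24 28)))) (.rp 16 (.thr 28 25 (.str 60 (.nv (.thr 30 26 (.thr 29 31 (.thr 12 44 (.thr 63 46 (.thr 61 62 (.dbl 45 13 15))))))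 (.nv (.thr 3 41 (.thr 26 30 (.thr 48 33 (.thr 52 56 (.dbl 37 7 15))))) (.rp 48 (.str 32 (.nv (.thr 3 41 (.thr 30 26 (.thr 15 45 (.thr 31 29 (.thr 27 23 (.dbl 51 35 39)))))) (.nv (.thr 3 41 (.thr 12 44 (.thr 26 30 (.thr 35 51 (.thr 34 33 (.thr 50 2 (.thr 38 14 (.dbl 6 9 54)))))))) (.nv (.thr 30 26 (.thr 29 31 (.thr 12 44 (.thr 63 46 (.thr 61 62 (.dbl 45 13 15)))))) (.rp 45 (.thr 26 30 (.thr 44 12 (.thr 41 3 (.thr 38 35 (.thr 50 14 (.thr 2 34 (.thr 62 42 (.dbl 54 6 58)))))))) (.rp 37 (.thr 30 26 (.thr 15 45 (.thr 29 31 (.thr 12 44 (.thr 46 63 (.dbl 14 13 62)))))) (.rp 30 (.thr 44 12 (.thr 36 40 (.thr 41 3 (.thr 38 35 (.thr 37 39 (.thr 45 33 (.dbl 47 42 46))))))) (.rp 26 (.thr 44 12 (.thr 36 40 (.thr 41 3 (.thr 38 35 (.thr 37 39 (.thr 45 33 (.dbl 47 42 46))))))) .nd)))))))) (.rp 45 (.thr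 26 30 (.thr 3 41 (.thr 48 33 (.thr 37 15 (.dbl 52 7 56))))) (.rp 32 (.str 48 (.nv (.thr 26 30 (.thr 37 15 (.dbl 52 7 56))) (.nv (.dbl 3 33 41) .nd))) (.rp 30 (.thr 3 41 (.thr 51 35 (.thr 57 54 (.thr 48 33 (.thr 49 50 (.thr 52 56 (.thr 53 61 (.dbl 37 5 7)))))))) (.rp 26 (.thr 3 41 (.thr 51 35 (.thr 57 54 (.thr 48 33 (.thr 49 50 (.thr 56 52 (.thr 53 61 (.dbl 58 59 63)))))))) (.rp 15 (.thr 30 26 (.thr 29 31 (.thr 12 44 (.thr 63 46 (.thr 61 62 (.dbl 41 1 3)))))) .nd)))))))))) .nd))))))) (.rp 18 (.str 3 (.nv (.thr 23 20 (.thr 25 28 (.thr 27 31 (.thr 43 63 (.thr 59 11 (.thr 42 8 (.dbl 41 40 60))))))) (.nv (.thr 23 20 (.thr 27 31 (.thr 43 63 (.thr 11 59 (.thr 51 35 (.dbl 15 7 39)))))) (.nv (.thr 25 28 (.thr 51 35 (.thr 12 38 (.thr 9 6 (.dbl 41 57 60))))) (.rp 60 (.thr 25 28 (.thr 29 17 (.thr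 51 35 (.thr 12 38 (.thr 63 46 (.dbl 23 20 43)))))) .nd))))) (.rp 17 (.thr 23 20 (.thr 31 27 (.thr 26 16 (.thr 30 18 (.dbl 28 25 29))))) (.rp 16 (.thr 23 20 (.thr 28 25 (.str 60 (.nv (.thr 12 44 (.thr 31 27 (.thr 29 30 (.thr 41 3 (.thr 63 46 (.dbl 61 1 62)))))) (.nv (.thr 3 41 (.thr 27 31 (.thr 51 35 (.thr 15 39 (.thr 43 63 (.dbl 11 7 59)))))) (.nv (.thr 31 27 (.thr 30 29 (.thr 15 45 (.thr 63 47 (.dbl 3 41 43))))) (.rp 63 (.thr 31 27 (.thr 30 29 (.thr 26 18 (.thr 15 45 (.thr 48 37 (.thr 56 52 (.dbl 41 3 11))))))) (.rp 48 (.str 32 (.nv (.thr 3 41 (.thr 27 31 (.thr 51 35 (.thr 15 39 (.thr 43 63 (.dbl 11 7 59)))))) (.nv (.thr 31 27 (.thr 30 29 (.thr 15 45 (.thr 63 47 (.dbl 3 41 43))))) (.rp 63 (.thr 41 3 (.thr 44 12 (.thr 36 40 (.thr 38 35 (.thr 37 39 (.thr 47 42 (.dbl 45 33 46))))))) (.rp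 44 (.thr 31 27 (.thr 30 29 (.thr 3 41 (.thr 63 43 (.dbl 15 45 47))))) (.rp 43 (.thr 31 27 (.thr 30 29 (.thr 41 3 (.thr 15 45 (.thr 63 47 (.dbl 61 1 62)))))) (.rp 41 (.thr 31 27 (.thr 29 30 (.thr 12 44 (.thr 63 46 (.thr 62 61 (.thr 42 2 (.dbl 47 15 37))))))) (.rp 31 (.thr 41 3 (.thr 44 12 (.thr 36 40 (.thr 38 35 (.thr 37 39 (.thr 47 42 (.dbl 45 33 46))))))) (.rp 27 (.thr 41 3 (.thr 44 12 (.thr 36 40 (.thr 38 35 (.thr 37 39 (.thr 47 42 (.dbl 45 33 46))))))) (.rp 15 (.thr 31 27 (.thr 29 30 (.thr 3 41 (.thr 63 43 (.dbl 12 44 46))))) (.rp 3 (.thr 31 27 (.thr 29 30 (.thr 12 44 (.thr 63 46 (.thr 62 61 (.thr 47 15 (.dbl 42 2 37))))))) .nd))))))))))) (.rp 44 (.thr 31 27 (.thr 30 29 (.thr 15 45 (.thr 3 41 (.dbl 63 43 47))))) (.rp 41 (.thr 31 27 (.thr 30 29 (.thr 26 18 (.thr 12 44 (.thr 15 45 (.thr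 13 14 (.thr 47 63 (.thr 37 48 (.thr 32 42 (.thr 7 52 (.thr 3 11 (.thr 9 6 (.dbl 5 1 53))))))))))))) (.rp 32 (.str 48 (.nv (.thr 3 41 (.thr 31 27 (.thr 30 29 (.dbl 18 26 33)))) (.nv (.thr 3 41 (.thr 63 43 (.thr 53 58 (.thr 37 5 (.dbl 52 7 56))))) (.nv (.thr 31 27 (.thr 30 29 (.thr 26 18 (.dbl 15 37 45)))) .nd)))) (.rp 31 (.thr 12 44 (.thr 3 41 (.thr 63 43 (.thr 62 61 (.thr 46 29 (.thr 42 2 (.thr 38 34 (.dbl 6 9 54)))))))) (.rp 27 (.thr 12 44 (.thr 3 41 (.thr 63 43 (.thr 61 62 (.thr 29 46 (.thr 30 31 (.dbl 45 13 15))))))) (.rp 3 (.thr 31 27 (.thr 30 29 (.thr 26 18 (.thr 15 45 (.thr 48 37 (.thr 56 52 (.thr 63 47 (.thr 61 62 (.dbl 41 1 11))))))))) .nd)))))))))))))) .nd)))))))))))))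

theorem w80 : WinAt (6291456, 36028797018963969) :=
  chF (K := []) kn c80 6291456 36028797018963969 55
    [] (by decide +kernel) (by decide +kernel)

/-- A certificate. -/
noncomputable def c81 : Ct := (.str 16 (.nv (.thr 26 31 (.thr 18 30 (.thr 19 17 (.dbl 28 24 25)))) (.nv (.thr 28 24 (.thr 19 25 (.thr 26 31 (.dbl 18 17 30)))) (.rp 31 (.str 4 (.nv (.thr 52 36 (.thr 7 37 (.thr 38 55 (.dbl 6 5 54)))) (.rp 55 (.str 37 (.nv (.thr 7 52 (.dbl 5 6 53)) (.nv (.dbl 52 7 36) (.rp 52 (.thr 28 24 (.thr 19 25 (.thr 18 17 (.thr 26 30 (.thr 48 15 (.thr 3 33 (.thr 51 35 (.thr 49 50 (.thr 60 41 (.thr 57 54 (.dbl 53 5 61))))))))))) (.rp 27 (.str 19 (.nv (.dbl 28 24 25) (.nv (.dbl 52 7 36) (.rp 39 (.thr 7 52 (.dbl 5 6 53)) (.rp 7 (.str 39 (.nv (.dbl 28 24 25) (.nv (.dbl 36 38 52) .nd))) .nd))))) (.rp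 19 (.str 27 (.nv (.thr 7 52 (.dbl 5 6 53)) (.nv (.dbl 52 7 36) (.rp 52 (.thr 24 28 (.thr 26 25 (.thr 30 18 (.thr 15 48 (.thr 60 45 (.thr 3 41 (.thr 7 11 (.dbl 5 6 53)))))))) (.rp 7 (.str 39 (.nv (.thr 15 51 (.thr 24 28 (.dbl 26 25 48))) (.nv (.dbl 36 38 52) .nd))) .nd))))) (.rp 7 (.str 39 (.nv (.dbl 36 38 52) (.rp 52 (.thr 38 36 (.thr 54 6 (.thr 28 24 (.thr 19 25 (.thr 18 17 (.thr 26 30 (.thr 50 14 (.thr 62 58 (.dbl 2 34 42))))))))) (.rp 38 (.thr 28 24 (.thr 19 25 (.thr 18 17 (.thr 26 30 (.thr 48 15 (.thr 3 33 (.thr 51 35 (.thr 49 50 (.thr 60 41 (.thr 44 12 (.thr 57 54 (.dbl 53 5 61)))))))))))) (.rp 36 (.thr 28 24 (.thr 19 25 (.thr 18 17 (.thr 26 30 (.thr 48 15 (.thr 3 33 (.thr 51 35 (.thr 49 50 (.thr 60 41 (.thr 57 54 (.dbl 53 5 61))))))))))) (.rp 27 (.str 19 (.nv (.dbl 28 24 25) (.nv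 (.dbl 36 38 52) .nd))) (.rp 19 (.str 27 (.nv (.thr 15 51 (.thr 24 28 (.dbl 26 25 48))) (.nv (.dbl 36 38 52) .nd))) .nd))))))) .nd))))))) (.rp 54 (.thr 28 24 (.thr 19 25 (.thr 18 17 (.thr 26 30 (.thr 52 36 (.thr 37 7 (.thr 48 15 (.thr 55 38 (.thr 3 33 (.thr 51 35 (.thr 63 59 (.dbl 53 5 58)))))))))))) (.rp 52 (.thr 28 24 (.thr 19 25 (.thr 18 17 (.thr 26 30 (.thr 38 55 (.thr 54 6 (.thr 50 14 (.thr 62 58 (.dbl 2 34 42))))))))) (.rp 38 (.thr 28 24 (.thr 19 25 (.thr 18 17 (.thr 26 30 (.thr 52 36 (.thr 37 7 (.thr 48 15 (.thr 3 33 (.thr 51 35 (.thr 49 50 (.thr 60 41 (.thr 44 12 (.thr 57 54 (.dbl 53 5 61)))))))))))))) (.rp 37 (.thr 28 24 (.thr 19 25 (.thr 18 17 (.thr 26 30 (.thr 38 55 (.thr 54 6 (.thr 50 14 (.thr 62 58 (.dbl 2 34 42))))))))) (.rp 36 (.thr 28 24 (.thr 19 25 (.thr 18 17 (.thr 26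 30 (.thr 38 55 (.thr 54 6 (.thr 50 14 (.thr 62 58 (.dbl 2 34 42))))))))) (.rp 27 (.str 19 (.nv (.dbl 28 24 25) (.rp 28 (.thr 52 36 (.thr 7 37 (.thr 6 5 (.dbl 38 54 55)))) (.rp 25 (.thr 52 36 (.thr 7 37 (.thr 6 5 (.dbl 38 54 55)))) (.rp 24 (.thr 17 18 (.dbl 25 28 29)) .nd))))) (.rp 19 (.str 27 (.nv (.thr 24 28 (.thr 25 26 (.thr 38 55 (.thr 12 51 (.dbl 36 48 52))))) (.nv (.thr 52 36 (.thr 7 37 (.thr 38 55 (.dbl 6 5 54)))) (.rp 55 (.thr 24 28 (.thr 26 25 (.thr 30 18 (.thr 52 36 (.thr 7 37 (.thr 6 5 (.thr 38 54 (.thr 14 50 (.thr 62 46 (.dbl 2 10 42)))))))))) (.rp 52 (.thr 24 28 (.thr 26 25 (.thr 30 18 (.thr 38 55 (.thr 14 50 (.thr 62 46 (.thr 2 42 (.dbl 6 10 54)))))))) (.rp 38 (.thr 24 28 (.thr 25 26 (.thr 29 17 (.thr 52 36 (.thr 37 7 (.thr 5 53 (.thr 13 49 (.thr 1 9 (.dbl 61 41 45)))))))))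 (.rp 36 (.thr 24 28 (.thr 26 25 (.thr 30 18 (.thr 38 55 (.thr 6 54 (.thr 14 50 (.thr 2 10 (.dbl 62 42 46)))))))) (.rp 7 (.thr 24 28 (.thr 25 26 (.thr 36 52 (.thr 38 55 (.thr 39 37 (.dbl 12 48 51)))))) .nd)))))))) (.rp 7 (.thr 28 24 (.thr 19 25 (.thr 18 17 (.thr 26 30 (.thr 36 52 (.thr 38 55 (.thr 39 37 (.thr 54 6 (.thr 50 14 (.thr 62 58 (.dbl 2 34 42))))))))))) (.rp 6 (.thr 52 36 (.thr 37 7 (.thr 53 5 (.dbl 55 38 54)))) (.rp 5 (.thr 28 24 (.thr 19 25 (.thr 18 17 (.thr 26 30 (.thr 38 55 (.thr 54 6 (.thr 50 14 (.thr 62 58 (.dbl 2 34 42))))))))) .nd))))))))))))) (.rp 30 (.str 4 (.nv (.thr 52 36 (.thr 7 37 (.thr 38 55 (.dbl 6 5 54)))) (.rp 55 (.thr 28 24 (.thr 25 19 (.thr 52 36 (.thr 7 37 (.thr 6 5 (.thr 38 54 (.thr 12 51 (.thr 3 9 (.dbl 60 41 44))))))))) (.rp 54 (.thr 28 24 (.thr 25 19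 (.thr 17 29 (.thr 52 36 (.thr 37 7 (.thr 53 5 (.thr 49 13 (.thr 61 57 (.dbl 1 33 41))))))))) (.rp 52 (.thr 28 24 (.thr 25 19 (.thr 38 55 (.thr 12 51 (.thr 60 44 (.thr 3 41 (.dbl 6 9 54))))))) (.rp 38 (.thr 28 24 (.thr 25 19 (.thr 17 29 (.thr 52 36 (.thr 37 7 (.thr 53 5 (.thr 49 13 (.thr 61 57 (.dbl 1 33 41))))))))) (.rp 37 (.thr 28 24 (.thr 25 19 (.thr 38 55 (.thr 6 54 (.thr 12 51 (.thr 3 9 (.dbl 60 41 44))))))) (.rp 36 (.thr 28 24 (.thr 25 19 (.thr 38 55 (.thr 6 54 (.thr 12 51 (.thr 3 9 (.dbl 60 41 44))))))) (.rp 7 (.thr 28 24 (.thr 25 19 (.thr 36 52 (.thr 38 55 (.thr 39 37 (.thr 12 51 (.thr 60 44 (.thr 3 41 (.dbl 6 9 54))))))))) (.rp 6 (.thr 52 36 (.thr 37 7 (.thr 53 5 (.dbl 55 38 54)))) (.rp 5 (.thr 28 24 (.thr 25 19 (.thr 38 55 (.thr 6 54 (.thr 12 51 (.thr 3 9 (.dbl 60 41 44)))))))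 .nd))))))))))) (.rp 28 (.str 4 (.nv (.thr 52 36 (.thr 7 37 (.thr 38 55 (.dbl 6 5 54)))) (.rp 55 (.thr 26 31 (.thr 30 18 (.thr 52 36 (.thr 7 37 (.thr 6 5 (.thr 38 54 (.thr 14 50 (.thr 62 46 (.dbl 2 10 42))))))))) (.rp 54 (.thr 26 31 (.thr 30 18 (.thr 52 36 (.thr 7 37 (.thr 6 5 (.thr 38 55 (.thr 14 50 (.thr 62 46 (.dbl 2 10 42))))))))) (.rp 52 (.thr 26 31 (.thr 30 18 (.thr 38 55 (.thr 14 50 (.thr 62 46 (.thr 2 42 (.dbl 6 10 54))))))) (.rp 38 (.str 29 (.nv (.thr 26 31 (.thr 18 30 (.dbl 17 19 25))) (.rp 31 (.thr 25 17 (.thr 52 36 (.thr 37 7 (.thr 5 53 (.thr 13 49 (.thr 1 9 (.dbl 61 41 45))))))) (.rp 30 (.thr 25 17 (.thr 52 36 (.thr 37 7 (.thr 5 53 (.thr 13 49 (.thr 1 9 (.dbl 61 41 45))))))) (.rp 27 (.thr 25 17 (.thr 52 36 (.thr 37 7 (.thr 5 53 (.thr 13 49 (.thr 1 9 (.dbl 61 41 45)))))))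 (.rp 26 (.thr 25 17 (.thr 52 36 (.thr 37 7 (.thr 5 53 (.thr 13 49 (.thr 1 9 (.dbl 61 41 45))))))) (.rp 25 (.thr 26 31 (.thr 30 18 (.thr 52 36 (.thr 37 7 (.thr 15 48 (.thr 45 60 (.thr 61 13 (.dbl 41 1 33)))))))) (.rp 19 (.thr 25 17 (.thr 52 36 (.thr 37 7 (.thr 5 53 (.thr 13 49 (.thr 1 9 (.dbl 61 41 45))))))) (.rp 18 (.thr 25 17 (.thr 52 36 (.thr 37 7 (.thr 5 53 (.thr 13 49 (.thr 1 9 (.dbl 61 41 45))))))) (.rp 17 (.thr 26 31 (.thr 30 18 (.thr 52 36 (.thr 37 7 (.thr 15 48 (.thr 45 60 (.thr 61 13 (.dbl 41 1 33)))))))) .nd)))))))))) (.rp 37 (.thr 26 31 (.thr 30 18 (.thr 38 55 (.thr 6 54 (.thr 14 50 (.thr 2 10 (.dbl 62 42 46))))))) (.rp 36 (.thr 26 31 (.thr 30 18 (.thr 38 55 (.thr 6 54 (.thr 14 50 (.thr 2 10 (.dbl 62 42 46))))))) (.rp 7 (.thr 26 31 (.thr 30 18 (.thr 36 52 (.thr 38 55 (.thr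 39 37 (.thr 14 50 (.thr 62 46 (.thr 2 42 (.dbl 6 10 54))))))))) (.rp 6 (.thr 52 36 (.thr 37 7 (.thr 53 5 (.dbl 55 38 54)))) (.rp 5 (.thr 26 31 (.thr 30 18 (.thr 38 55 (.thr 6 54 (.thr 14 50 (.thr 62 46 (.dbl 2 10 42))))))) .nd))))))))))) (.rp 26 (.str 37 (.nv (.thr 52 7 (.thr 4 36 (.thr 55 38 (.dbl 53 5 54)))) (.nv (.thr 53 5 (.thr 52 7 (.thr 55 54 (.dbl 4 36 38)))) (.rp 55 (.thr 5 53 (.thr 28 24 (.thr 25 19 (.thr 29 17 (.thr 13 49 (.thr 61 45 (.dbl 1 9 41))))))) (.rp 54 (.thr 5 53 (.thr 28 24 (.thr 25 19 (.thr 29 17 (.thr 13 49 (.thr 61 45 (.dbl 1 9 41))))))) (.rp 53 (.str 41 (.nv (.thr 1 61 (.thr 3 60 (.thr 33 45 (.thr 18 48 (.thr 52 7 (.dbl 17 19 49)))))) (.nv (.thr 3 60 (.thr 24 28 (.thr 33 45 (.thr 48 18 (.thr 52 7 (.dbl 36 4 12)))))) (.nv (.thr 28 24 (.thr 25 19 (.thr 17 29 (.thr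 33 45 (.dbl 1 49 61))))) (.rp 45 (.thr 28 24 (.thr 60 3 (.thr 12 44 (.thr 25 19 (.thr 57 9 (.dbl 51 38 54)))))) (.rp 33 (.thr 28 24 (.thr 60 3 (.thr 12 44 (.thr 25 19 (.thr 57 9 (.dbl 51 38 54)))))) .nd)))))) (.rp 52 (.thr 5 53 (.thr 28 24 (.thr 25 19 (.thr 29 17 (.thr 13 49 (.thr 61 45 (.dbl 1 9 41))))))) (.rp 41 (.str 11 (.nv (.thr 52 7 (.thr 4 36 (.thr 55 38 (.dbl 53 5 54)))) (.nv (.thr 53 5 (.thr 52 7 (.thr 4 36 (.dbl 55 38 54)))) (.rp 55 (.thr 7 52 (.thr 15 3 (.thr 28 24 (.thr 25 19 (.thr 13 49 (.thr 29 17 (.thr 45 61 (.dbl 30 31 60)))))))) (.rp 54 (.thr 7 52 (.thr 15 3 (.thr 28 24 (.thr 25 19 (.thr 13 49 (.thr 29 17 (.thr 45 61 (.dbl 30 31 60)))))))) (.rp 53 (.thr 7 52 (.thr 15 3 (.thr 28 24 (.thr 25 19 (.thr 13 49 (.thr 12 14 (.thr 29 17 (.thr 31 30 (.dbl 63 46 47))))))))) (.rp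 52 (.str 25 (.nv (.dbl 28 19 24) (.rp 60 (.str 48 (.nv (.dbl 28 19 24) (.rp 28 (.thr 49 13 (.thr 17 29 (.thr 18 19 (.dbl 33 1 3)))) (.rp 24 (.thr 19 28 (.dbl 17 18 29)) (.rp 19 (.thr 49 13 (.thr 51 50 (.thr 24 28 (.dbl 12 36 38)))) .nd))))) (.rp 48 (.str 60 (.nv (.dbl 28 19 24) (.rp 28 (.thr 29 17 (.thr 13 49 (.thr 61 45 (.thr 62 63 (.thr 42 2 (.thr 8 59 (.thr 9 10 (.dbl 5 1 53)))))))) (.rp 24 (.thr 17 29 (.dbl 19 18 28)) (.rp 19 (.thr 29 17 (.thr 13 49 (.thr 45 61 (.thr 28 24 (.dbl 30 15 31))))) .nd))))) (.rp 28 (.thr 17 29 (.thr 18 19 (.thr 13 49 (.thr 5 53 (.thr 9 1 (.thr 8 10 (.thr 42 59 (.thr 2 62 (.thr 34 50 (.thr 38 46 (.thr 36 39 (.thr 12 51 (.thr 48 24 (.dbl 6 3 54)))))))))))))) (.rp 24 (.thr 17 29 (.dbl 19 18 28)) (.rp 19 (.thr 24 28 (.str 48 (.nv (.thr 12 36 (.thr 53 5 (.thr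 63 58 (.dbl 29 17 46)))) (.nv (.thr 49 13 (.thr 12 36 (.dbl 51 38 50))) (.rp 36 (.thr 53 5 (.thr 49 13 (.thr 51 50 (.thr 38 12 (.thr 54 6 (.dbl 57 60 61)))))) (.rp 31 (.str 27 (.nv (.thr 29 17 (.thr 12 36 (.thr 53 5 (.dbl 63 46 58)))) (.nv (.thr 5 53 (.thr 13 49 (.thr 9 1 (.thr 8 10 (.dbl 59 42 43))))) (.nv (.thr 49 13 (.thr 12 36 (.dbl 51 38 50))) (.rp 29 (.str 30 (.nv (.thr 12 36 (.thr 51 38 (.thr 53 5 (.thr 59 43 (.dbl 63 55 58))))) (.nv (.thr 5 53 (.thr 13 49 (.thr 9 1 (.thr 8 10 (.dbl 59 42 43))))) (.nv (.thr 12 36 (.thr 49 13 (.dbl 51 38 50))) .nd)))) .nd))))) (.rp 27 (.str 31 (.nv (.thr 12 36 (.thr 53 5 (.thr 63 58 (.dbl 29 17 46)))) (.nv (.thr 12 36 (.thr 49 13 (.dbl 51 38 50))) (.rp 36 (.thr 29 17 (.thr 53 5 (.thr 63 58 (.thr 13 49 (.thr 15 47 (.dbl 12 14 46)))))) (.rp 12 (.thr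 17 29 (.thr 53 5 (.thr 63 58 (.thr 49 13 (.thr 15 47 (.thr 3 7 (.dbl 33 1 18))))))) .nd))))) (.rp 12 (.thr 53 5 (.thr 49 13 (.thr 51 50 (.thr 63 58 (.thr 59 55 (.thr 27 43 (.thr 15 39 (.thr 7 3 (.thr 47 31 (.dbl 42 8 32)))))))))) .nd)))))))) .nd))))))) (.rp 39 (.thr 53 5 (.thr 52 7 (.thr 55 54 (.dbl 4 36 38)))) (.rp 38 (.thr 5 53 (.thr 7 52 (.thr 6 4 (.thr 3 15 (.thr 28 24 (.thr 25 19 (.thr 13 49 (.dbl 9 1 12)))))))) (.rp 36 (.thr 5 53 (.thr 7 52 (.thr 6 4 (.thr 3 15 (.thr 12 9 (.thr 28 24 (.thr 25 19 (.dbl 38 51 54)))))))) (.rp 7 (.thr 5 53 (.str 36 (.nv (.thr 4 52 (.dbl 38 39 55)) (.rp 60 (.thr 38 39 (.thr 55 4 (.thr 6 54 (.thr 28 24 (.thr 25 19 (.thr 13 49 (.thr 9 1 (.dbl 12 3 51)))))))) (.rp 55 (.thr 39 38 (.thr 28 24 (.thr 25 19 (.thr 13 49 (.thr 9 1 (.thr 8 10 (.thr 42 59 (.thr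 32 47 (.thr 44 40 (.thr 12 60 (.thr 3 6 (.thr 14 15 (.thr 62 2 (.thr 30 46 (.dbl 29 17 31))))))))))))))) (.rp 54 (.thr 38 39 (.thr 55 4 (.thr 28 24 (.thr 25 19 (.thr 13 49 (.thr 9 1 (.thr 8 10 (.thr 51 12 (.dbl 59 42 63))))))))) (.rp 52 (.thr 38 39 (.thr 55 4 (.thr 6 54 (.thr 28 24 (.thr 25 19 (.thr 13 49 (.thr 9 1 (.dbl 12 3 51)))))))) (.rp 48 (.thr 38 39 (.thr 55 4 (.thr 6 54 (.thr 28 24 (.thr 25 19 (.thr 13 49 (.thr 9 1 (.dbl 12 3 51)))))))) (.rp 39 (.str 55 (.nv (.dbl 4 38 52) (.rp 52 (.thr 38 4 (.thr 6 54 (.thr 28 24 (.thr 25 19 (.thr 13 49 (.thr 9 1 (.dbl 12 3 51))))))) (.rp 38 (.thr 28 24 (.thr 25 19 (.thr 13 49 (.thr 9 1 (.thr 8 10 (.thr 42 59 (.thr 32 47 (.thr 44 40 (.thr 12 60 (.thr 3 6 (.thr 14 15 (.thr 62 2 (.thr 30 46 (.dbl 29 17 31)))))))))))))) (.rp 4 (.thr 28 24 (.thr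 25 19 (.thr 13 49 (.thr 9 1 (.thr 8 10 (.thr 42 59 (.thr 32 47 (.thr 44 40 (.thr 12 60 (.thr 38 51 (.dbl 6 3 54))))))))))) .nd))))) (.rp 38 (.thr 28 24 (.thr 25 19 (.thr 13 49 (.thr 9 1 (.thr 8 10 (.thr 42 59 (.thr 32 47 (.thr 44 40 (.thr 12 60 (.thr 3 6 (.thr 14 15 (.thr 62 2 (.thr 30 46 (.dbl 29 17 31)))))))))))))) (.rp 4 (.thr 28 24 (.thr 25 19 (.thr 13 49 (.thr 9 1 (.thr 8 10 (.thr 42 59 (.thr 32 47 (.thr 44 40 (.thr 12 60 (.dbl 38 39 51)))))))))) .nd))))))))))) (.rp 5 (.thr 7 52 (.thr 15 3 (.thr 28 24 (.thr 25 19 (.thr 13 49 (.thr 29 17 (.thr 45 61 (.dbl 30 31 60)))))))) (.rp 4 (.thr 7 52 (.thr 15 3 (.thr 28 24 (.thr 25 19 (.thr 13 49 (.thr 29 17 (.thr 45 61 (.dbl 30 31 60)))))))) .nd))))))))))))) (.rp 38 (.thr 5 53 (.thr 28 24 (.thr 25 19 (.thr 29 17 (.thr 13 49 (.thr 61 45 (.dbl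 1 9 41))))))) (.rp 36 (.thr 5 53 (.thr 28 24 (.thr 25 19 (.thr 29 17 (.thr 13 49 (.thr 61 45 (.dbl 1 9 41))))))) (.rp 11 (.str 41 (.nv (.thr 1 61 (.thr 28 24 (.thr 25 19 (.thr 17 29 (.dbl 33 45 49))))) (.nv (.thr 53 5 (.thr 52 7 (.thr 4 36 (.dbl 55 38 54)))) .nd))) (.rp 7 (.thr 5 53 (.thr 28 24 (.thr 25 19 (.thr 29 17 (.thr 13 49 (.thr 61 45 (.dbl 1 9 41))))))) (.rp 5 (.thr 52 7 (.thr 4 36 (.thr 55 38 (.thr 53 54 (.thr 28 24 (.thr 25 19 (.thr 17 29 (.thr 49 13 (.thr 1 33 (.dbl 61 41 57)))))))))) (.rp 4 (.thr 5 53 (.thr 28 24 (.thr 25 19 (.thr 29 17 (.thr 13 49 (.thr 61 45 (.dbl 1 9 41))))))) .nd)))))))))))))) (.rp 25 (.str 4 (.nv (.thr 24 28 (.thr 26 31 (.thr 36 52 (.thr 48 12 (.thr 37 15 (.dbl 38 39 55)))))) (.nv (.thr 38 55 (.thr 6 54 (.thr 52 36 (.dbl 7 5 37)))) (.rp 55 (.thr 26 31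 (.thr 30 18 (.thr 52 36 (.thr 7 37 (.thr 6 5 (.thr 38 54 (.thr 14 50 (.thr 62 46 (.dbl 2 10 42))))))))) (.rp 52 (.thr 26 31 (.thr 18 30 (.thr 38 55 (.thr 54 6 (.thr 50 14 (.thr 62 58 (.dbl 2 34 42))))))) (.rp 39 (.thr 52 36 (.thr 7 37 (.thr 38 55 (.dbl 6 5 54)))) (.rp 38 (.thr 26 31 (.thr 30 18 (.thr 52 36 (.thr 37 7 (.thr 5 53 (.thr 15 48 (.thr 60 45 (.thr 28 24 (.thr 12 44 (.thr 13 14 (.thr 1 9 (.dbl 41 3 61)))))))))))) (.rp 37 (.thr 26 31 (.thr 18 30 (.thr 38 55 (.thr 54 6 (.thr 50 14 (.thr 62 58 (.dbl 2 34 42))))))) (.rp 36 (.thr 26 31 (.thr 18 30 (.thr 38 55 (.thr 54 6 (.thr 50 14 (.thr 62 58 (.dbl 2 34 42))))))) (.rp 5 (.thr 24 28 (.thr 26 31 (.thr 36 52 (.thr 48 12 (.thr 38 55 (.dbl 37 15 39)))))) .nd)))))))))) (.rp 24 (.str 4 (.nv (.thr 38 55 (.thr 6 54 (.thr 7 5 (.dbl 52 36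 37)))) (.nv (.thr 52 36 (.thr 7 37 (.thr 38 55 (.dbl 6 5 54)))) (.rp 55 (.thr 26 31 (.thr 30 18 (.thr 52 36 (.thr 7 37 (.thr 6 5 (.thr 38 54 (.thr 14 50 (.thr 62 46 (.dbl 2 10 42))))))))) (.rp 54 (.thr 26 31 (.thr 30 18 (.thr 52 36 (.thr 7 37 (.thr 6 5 (.thr 38 55 (.thr 14 50 (.thr 62 46 (.dbl 2 10 42))))))))) (.rp 52 (.thr 26 31 (.thr 18 30 (.thr 38 55 (.thr 54 6 (.thr 50 14 (.thr 62 58 (.dbl 2 34 42))))))) (.rp 40 (.str 8 (.nv (.thr 52 36 (.thr 7 37 (.thr 38 55 (.dbl 6 5 54)))) (.nv (.thr 38 55 (.thr 6 54 (.thr 7 5 (.dbl 52 36 37)))) (.rp 55 (.thr 26 31 (.thr 30 18 (.thr 52 36 (.thr 7 37 (.thr 6 5 (.thr 38 54 (.thr 14 50 (.thr 62 46 (.dbl 2 10 42))))))))) (.rp 54 (.thr 26 31 (.thr 30 18 (.thr 52 36 (.thr 7 37 (.thr 6 5 (.thr 38 55 (.thr 14 50 (.thr 62 46 (.dbl 2 10 42))))))))) (.rp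 52 (.thr 26 31 (.thr 18 30 (.thr 38 55 (.thr 50 14 (.thr 2 34 (.thr 54 6 (.dbl 62 42 58))))))) (.rp 38 (.thr 26 31 (.thr 18 30 (.thr 19 17 (.thr 52 36 (.thr 37 7 (.thr 48 15 (.thr 3 33 (.thr 51 35 (.thr 49 50 (.dbl 25 13 28)))))))))) (.rp 37 (.thr 26 31 (.thr 18 30 (.thr 38 55 (.thr 50 14 (.thr 2 34 (.thr 54 6 (.dbl 62 42 58))))))) (.rp 36 (.thr 26 31 (.thr 18 30 (.thr 38 55 (.thr 50 14 (.thr 2 34 (.thr 54 6 (.dbl 62 42 58))))))) (.rp 7 (.thr 26 31 (.thr 18 30 (.thr 36 52 (.thr 38 55 (.thr 39 37 (.thr 50 14 (.thr 2 34 (.thr 54 6 (.dbl 62 42 58))))))))) (.rp 6 (.thr 52 36 (.thr 37 7 (.thr 53 5 (.dbl 55 38 54)))) (.rp 5 (.thr 26 31 (.thr 18 30 (.thr 38 55 (.thr 50 14 (.thr 2 34 (.thr 54 6 (.dbl 62 42 58))))))) .nd)))))))))))) (.rp 38 (.thr 26 31 (.thr 18 30 (.thr 19 17 (.thr 52 36 (.thr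 37 7 (.thr 48 15 (.thr 3 33 (.thr 51 35 (.thr 49 50 (.dbl 25 13 28)))))))))) (.rp 37 (.thr 26 31 (.thr 18 30 (.thr 38 55 (.thr 54 6 (.thr 50 14 (.thr 62 58 (.dbl 2 34 42))))))) (.rp 36 (.thr 26 31 (.thr 18 30 (.thr 38 55 (.thr 54 6 (.thr 50 14 (.thr 62 58 (.dbl 2 34 42))))))) (.rp 8 (.str 40 (.nv (.thr 38 55 (.thr 6 54 (.thr 7 5 (.dbl 52 36 37)))) (.nv (.thr 52 36 (.thr 37 7 (.thr 55 38 (.dbl 53 5 54)))) (.rp 55 (.thr 52 36 (.thr 7 37 (.thr 6 5 (.thr 38 54 (.thr 26 31 (.thr 30 18 (.thr 14 50 (.thr 62 46 (.dbl 2 10 42))))))))) (.rp 54 (.thr 52 36 (.thr 38 55 (.thr 7 37 (.thr 6 5 (.thr 26 31 (.thr 30 18 (.thr 14 50 (.thr 62 46 (.dbl 2 10 42))))))))) (.rp 53 (.thr 52 36 (.thr 38 55 (.thr 6 54 (.dbl 7 5 37)))) (.rp 52 (.thr 38 55 (.thr 54 6 (.thr 26 31 (.thr 18 30 (.thr 50 14 (.thr 2 34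 (.dbl 62 42 58))))))) (.rp 38 (.thr 52 36 (.thr 37 7 (.thr 26 31 (.thr 18 30 (.thr 19 17 (.thr 48 15 (.thr 3 33 (.thr 51 35 (.thr 49 50 (.dbl 25 13 28)))))))))) (.rp 37 (.thr 38 55 (.thr 54 6 (.thr 26 31 (.thr 18 30 (.thr 50 14 (.thr 2 34 (.dbl 62 42 58))))))) (.rp 36 (.thr 38 55 (.thr 54 6 (.thr 26 31 (.thr 18 30 (.thr 50 14 (.thr 2 34 (.dbl 62 42 58))))))) (.rp 7 (.thr 36 52 (.thr 38 55 (.thr 39 37 (.thr 54 6 (.thr 44 32 (.thr 41 35 (.thr 60 3 (.thr 51 57 (.dbl 12 25 28))))))))) (.rp 5 (.thr 38 55 (.thr 54 6 (.thr 26 31 (.thr 18 30 (.thr 50 14 (.thr 2 34 (.dbl 62 42 58))))))) .nd)))))))))))) (.rp 7 (.thr 26 31 (.thr 18 30 (.thr 36 52 (.thr 38 55 (.thr 39 37 (.thr 54 6 (.thr 50 14 (.thr 62 58 (.dbl 2 34 42))))))))) (.rp 6 (.thr 52 36 (.thr 37 7 (.thr 53 5 (.dbl 55 38 54)))) (.rp 5 (.thr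 26 31 (.thr 18 30 (.thr 38 55 (.thr 54 6 (.thr 50 14 (.thr 62 58 (.dbl 2 34 42))))))) .nd)))))))))))))) (.rp 19 (.thr 24 28 (.thr 26 31 (.thr 27 25 (.thr 30 18 (.str 4 (.nv (.thr 36 52 (.thr 48 12 (.thr 37 15 (.dbl 38 39 55)))) (.nv (.thr 38 55 (.thr 14 50 (.thr 62 46 (.thr 2 42 (.dbl 6 10 54))))) (.nv (.thr 52 36 (.thr 38 55 (.thr 6 54 (.dbl 7 5 37)))) (.rp 55 (.thr 52 36 (.thr 7 37 (.thr 6 5 (.thr 38 54 (.thr 14 50 (.thr 62 46 (.dbl 2 10 42))))))) (.rp 39 (.thr 52 36 (.thr 7 37 (.thr 38 55 (.dbl 6 5 54)))) (.rp 38 (.thr 52 36 (.thr 37 7 (.thr 53 5 (.thr 55 54 (.thr 15 48 (.thr 51 39 (.thr 63 59 (.thr 60 45 (.thr 61 62 (.dbl 41 1 3)))))))))) .nd))))))))))) (.rp 18 (.thr 28 24 (.thr 25 19 (.thr 29 17 (.dbl 31 26 30)))) (.rp 17 (.thr 24 28 (.thr 26 31 (.thr 30 18 (.thr 27 25 (.str 38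 (.nv (.thr 4 55 (.thr 36 52 (.thr 48 12 (.dbl 37 15 39)))) (.nv (.thr 14 50 (.thr 62 46 (.thr 6 54 (.dbl 2 10 42)))) (.rp 54 (.thr 14 50 (.thr 62 46 (.thr 4 55 (.thr 52 36 (.thr 7 37 (.thr 6 5 (.dbl 2 10 42))))))) (.rp 51 (.str 34 (.nv (.thr 4 55 (.thr 6 54 (.thr 7 5 (.dbl 52 36 37)))) (.nv (.thr 46 42 (.dbl 14 50 62)) (.rp 59 (.thr 14 50 (.dbl 46 42 62)) .nd)))) (.rp 34 (.str 51 (.nv (.thr 54 6 (.thr 60 57 (.dbl 15 39 45))) (.nv (.thr 50 14 (.thr 15 39 (.dbl 48 37 49))) (.rp 50 (.str 2 (.nv (.thr 15 39 (.thr 48 37 (.thr 36 12 (.dbl 4 52 55)))) (.nv (.thr 6 54 (.thr 10 14 (.dbl 42 58 62))) .nd))) (.rp 39 (.thr 50 14 (.thr 48 49 (.thr 36 12 (.dbl 4 52 55)))) (.rp 15 (.thr 50 14 (.thr 48 49 (.thr 4 55 (.dbl 36 12 52)))) .nd)))))) .nd)))))))))) .nd))))))))))))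

theorem w81 : WinAt (7340032, 72057594046316545) :=
  chF (K := []) kn c81 7340032 72057594046316545 23
    [] (by decide +kernel) (by decide +kernel)

/-- A certificate. -/
noncomputable def c82 : Ct := (.str 28 (.nv (.thr 16 24 (.thr 31 26 (.thr 25 19 (.dbl 29 17 30)))) (.rp 31 (.str 4 (.nv (.thr 24 16 (.thr 25 19 (.thr 27 26 (.thr 36 52 (.thr 38 55 (.dbl 12 48 51)))))) (.nv (.thr 52 36 (.thr 7 37 (.thr 38 55 (.dbl 6 5 54)))) (.rp 55 (.thr 24 16 (.thr 25 19 (.thr 27 26 (.thr 52 36 (.thr 7 37 (.thr 6 5 (.thr 38 54 (.thr 12 51 (.thr 60 44 (.dbl 3 9 41)))))))))) (.rp 54 (.thr 24 16 (.thr 25 19 (.thr 27 26 (.thr 38 55 (.thr 12 51 (.thr 60 44 (.dbl 36 48 52))))))) (.rp 52 (.thr 24 16 (.thr 25 19 (.thr 27 26 (.thr 38 55 (.thr 12 51 (.thr 60 44 (.thr 3 41 (.dbl 6 9 54)))))))) (.rp 38 (.thr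 19 25 (.thr 16 24 (.thr 18 17 (.thr 26 30 (.thr 52 36 (.thr 37 7 (.thr 48 15 (.thr 60 56 (.dbl 3 33 41))))))))) (.rp 36 (.thr 24 16 (.thr 25 19 (.thr 27 26 (.thr 38 55 (.thr 6 54 (.thr 12 51 (.thr 60 44 (.dbl 3 9 41)))))))) (.rp 27 (.thr 19 25 (.thr 52 36 (.thr 7 37 (.thr 6 5 (.dbl 38 54 55))))) (.rp 19 (.str 27 (.nv (.thr 24 16 (.thr 25 26 (.thr 38 55 (.thr 12 51 (.thr 60 44 (.dbl 36 48 52)))))) (.nv (.thr 52 36 (.thr 7 37 (.thr 38 55 (.dbl 6 5 54)))) (.rp 55 (.thr 24 16 (.thr 25 26 (.thr 52 36 (.thr 7 37 (.thr 6 5 (.thr 38 54 (.thr 12 51 (.thr 60 44 (.dbl 3 9 41))))))))) (.rp 52 (.thr 24 16 (.thr 25 26 (.thr 38 55 (.thr 12 51 (.thr 60 44 (.thr 3 41 (.dbl 6 9 54))))))) (.rp 38 (.thr 24 16 (.thr 26 25 (.thr 18 30 (.thr 52 36 (.thr 37 7 (.thr 48 15 (.thr 60 56 (.dbl 3 33 41)))))))) (.rp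 36 (.thr 24 16 (.thr 25 26 (.thr 38 55 (.thr 6 54 (.thr 12 51 (.thr 60 44 (.dbl 3 9 41))))))) (.rp 7 (.thr 24 16 (.thr 25 26 (.thr 36 52 (.thr 38 55 (.thr 39 37 (.dbl 12 48 51)))))) .nd)))))))) (.rp 7 (.thr 24 16 (.thr 25 19 (.thr 27 26 (.thr 36 52 (.thr 38 55 (.thr 39 37 (.dbl 12 48 51))))))) .nd))))))))))) (.rp 30 (.str 4 (.nv (.thr 24 16 (.thr 25 19 (.thr 38 55 (.thr 12 51 (.thr 60 44 (.dbl 36 48 52)))))) (.nv (.thr 52 36 (.thr 7 37 (.thr 38 55 (.dbl 6 5 54)))) (.rp 55 (.thr 25 19 (.thr 52 36 (.thr 7 37 (.thr 6 5 (.thr 38 54 (.thr 12 51 (.thr 60 44 (.dbl 3 9 41)))))))) (.rp 52 (.thr 25 19 (.thr 38 55 (.thr 12 51 (.thr 60 44 (.thr 3 41 (.dbl 6 9 54)))))) (.rp 38 (.thr 25 19 (.thr 29 17 (.thr 52 36 (.thr 37 7 (.thr 5 53 (.thr 13 49 (.thr 61 45 (.dbl 1 9 41)))))))) (.rp 36 (.thr 25 19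 (.thr 38 55 (.thr 6 54 (.thr 12 51 (.thr 60 44 (.dbl 3 9 41)))))) (.rp 7 (.thr 25 19 (.thr 24 16 (.thr 36 52 (.thr 38 55 (.thr 39 37 (.dbl 12 48 51)))))) .nd)))))))) (.rp 29 (.thr 16 24 (.thr 26 31 (.thr 18 30 (.dbl 19 17 25)))) (.rp 26 (.str 4 (.nv (.thr 24 16 (.thr 25 19 (.thr 38 55 (.thr 12 51 (.thr 60 44 (.dbl 36 48 52)))))) (.nv (.thr 52 36 (.thr 7 37 (.thr 38 55 (.dbl 6 5 54)))) (.rp 55 (.thr 25 19 (.thr 52 36 (.thr 7 37 (.thr 6 5 (.thr 38 54 (.thr 12 51 (.thr 60 44 (.dbl 3 9 41)))))))) (.rp 52 (.thr 25 19 (.thr 38 55 (.thr 12 51 (.thr 60 44 (.thr 3 41 (.dbl 6 9 54)))))) (.rp 48 (.thr 52 36 (.thr 37 7 (.thr 53 5 (.dbl 55 38 54)))) (.rp 38 (.thr 25 19 (.thr 29 17 (.thr 52 36 (.thr 37 7 (.thr 5 53 (.thr 13 49 (.thr 61 45 (.dbl 1 9 41)))))))) (.rp 36 (.thr 25 19 (.thr 38 55 (.thr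 6 54 (.thr 12 51 (.thr 60 44 (.dbl 3 9 41)))))) (.rp 7 (.thr 25 19 (.thr 24 16 (.thr 36 52 (.thr 38 55 (.thr 39 37 (.dbl 12 48 51)))))) .nd))))))))) (.rp 25 (.str 4 (.nv (.thr 52 36 (.thr 37 7 (.thr 53 5 (.dbl 55 38 54)))) (.nv (.thr 52 36 (.thr 7 37 (.thr 38 55 (.dbl 6 5 54)))) (.rp 55 (.thr 16 24 (.thr 26 31 (.thr 30 18 (.thr 52 36 (.thr 7 37 (.thr 6 5 (.thr 38 54 (.thr 14 50 (.thr 62 46 (.dbl 2 10 42)))))))))) (.rp 54 (.thr 16 24 (.thr 26 31 (.thr 18 30 (.thr 52 36 (.thr 37 7 (.thr 48 15 (.thr 60 56 (.dbl 3 33 41)))))))) (.rp 52 (.thr 16 24 (.thr 26 31 (.thr 18 30 (.thr 38 55 (.thr 54 6 (.thr 50 14 (.thr 62 58 (.dbl 2 34 42)))))))) (.rp 41 (.str 9 (.nv (.thr 24 16 (.thr 38 55 (.thr 6 54 (.thr 12 3 (.dbl 36 48 52))))) (.nv (.thr 52 36 (.thr 7 37 (.thr 38 55 (.dbl 6 5 54)))) (.nv (.thr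 38 55 (.thr 6 54 (.thr 52 36 (.dbl 7 5 37)))) (.rp 55 (.thr 16 24 (.thr 26 31 (.thr 30 18 (.thr 52 36 (.thr 7 37 (.thr 6 5 (.thr 38 54 (.thr 14 50 (.thr 62 46 (.dbl 2 10 42)))))))))) (.rp 54 (.thr 16 24 (.thr 26 31 (.thr 18 30 (.thr 52 36 (.thr 37 7 (.thr 48 15 (.thr 60 56 (.thr 3 33 (.dbl 12 6 44))))))))) (.rp 52 (.thr 16 24 (.thr 26 31 (.thr 18 30 (.thr 38 55 (.thr 54 6 (.thr 50 14 (.thr 62 58 (.dbl 2 34 42)))))))) (.rp 38 (.thr 16 24 (.thr 26 31 (.thr 18 30 (.thr 52 36 (.thr 37 7 (.thr 48 15 (.thr 60 56 (.thr 3 33 (.dbl 12 6 44))))))))) (.rp 36 (.thr 16 24 (.thr 26 31 (.thr 18 30 (.thr 38 55 (.thr 54 6 (.thr 50 14 (.thr 62 58 (.dbl 2 34 42)))))))) (.rp 7 (.thr 16 24 (.thr 26 31 (.thr 18 30 (.thr 36 52 (.thr 38 55 (.thr 39 37 (.thr 54 6 (.thr 50 14 (.thr 62 58 (.dbl 2 34 42))))))))))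 (.rp 6 (.thr 52 36 (.thr 37 7 (.thr 53 5 (.dbl 55 38 54)))) .nd))))))))))) (.rp 38 (.thr 16 24 (.thr 26 31 (.thr 18 30 (.thr 52 36 (.thr 37 7 (.thr 48 15 (.thr 60 56 (.dbl 3 33 41)))))))) (.rp 37 (.thr 16 24 (.thr 26 31 (.thr 18 30 (.thr 38 55 (.thr 54 6 (.thr 50 14 (.thr 62 58 (.dbl 2 34 42)))))))) (.rp 36 (.thr 16 24 (.thr 26 31 (.thr 18 30 (.thr 38 55 (.thr 54 6 (.thr 50 14 (.thr 62 58 (.dbl 2 34 42)))))))) (.rp 9 (.str 41 (.nv (.thr 24 16 (.thr 36 52 (.thr 60 3 (.dbl 12 44 48)))) (.nv (.thr 52 36 (.thr 7 37 (.thr 38 55 (.dbl 6 5 54)))) (.nv (.thr 38 55 (.thr 44 35 (.dbl 60 3 12))) .nd)))) (.rp 7 (.thr 16 24 (.thr 26 31 (.thr 18 30 (.thr 36 52 (.thr 38 55 (.thr 39 37 (.thr 54 6 (.thr 50 14 (.thr 62 58 (.dbl 2 34 42)))))))))) (.rp 5 (.thr 16 24 (.thr 26 31 (.thr 18 30 (.thr 38 55 (.thr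 54 6 (.thr 50 14 (.thr 62 58 (.dbl 2 34 42)))))))) .nd))))))))))))) (.rp 24 (.str 4 (.nv (.thr 25 19 (.thr 38 55 (.thr 12 51 (.thr 60 44 (.thr 3 41 (.dbl 6 9 54)))))) (.nv (.thr 52 36 (.thr 7 37 (.thr 38 55 (.dbl 6 5 54)))) (.rp 55 (.thr 25 19 (.thr 52 36 (.thr 7 37 (.thr 6 5 (.thr 38 54 (.thr 12 51 (.thr 60 44 (.dbl 3 9 41)))))))) (.rp 54 (.thr 25 19 (.thr 29 17 (.thr 52 36 (.thr 37 7 (.thr 5 53 (.thr 13 49 (.thr 61 45 (.dbl 1 9 41)))))))) (.rp 38 (.thr 25 19 (.thr 29 17 (.thr 52 36 (.thr 37 7 (.thr 5 53 (.thr 13 49 (.thr 61 45 (.dbl 1 9 41)))))))) (.rp 12 (.thr 38 55 (.thr 6 54 (.thr 7 5 (.dbl 52 36 37)))) (.rp 7 (.thr 25 19 (.thr 36 52 (.thr 38 55 (.thr 39 37 (.thr 12 51 (.thr 60 44 (.thr 3 41 (.dbl 6 9 54)))))))) (.rp 6 (.thr 52 36 (.thr 37 7 (.thr 53 5 (.dbl 55 38 54)))) .nd)))))))))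 (.rp 19 (.str 37 (.nv (.thr 52 7 (.thr 4 36 (.thr 55 38 (.dbl 53 5 54)))) (.rp 55 (.thr 5 53 (.thr 16 24 (.thr 31 26 (.thr 29 30 (.thr 25 17 (.thr 13 49 (.thr 61 45 (.dbl 1 9 41)))))))) (.rp 54 (.thr 5 53 (.thr 16 24 (.thr 31 26 (.thr 29 30 (.thr 25 17 (.thr 13 49 (.thr 61 45 (.dbl 1 9 41)))))))) (.rp 53 (.str 61 (.nv (.thr 16 24 (.thr 31 26 (.thr 29 30 (.thr 13 45 (.dbl 25 17 49))))) (.nv (.thr 7 52 (.thr 41 1 (.thr 3 60 (.thr 15 11 (.thr 33 45 (.dbl 48 18 26)))))) (.nv (.thr 16 24 (.thr 31 26 (.thr 29 30 (.thr 45 13 (.dbl 41 1 33))))) (.rp 45 (.thr 7 52 (.thr 16 24 (.thr 41 1 (.thr 3 60 (.thr 15 11 (.dbl 26 31 48)))))) (.rp 31 (.str 27 (.nv (.thr 7 52 (.thr 41 1 (.thr 3 60 (.thr 15 11 (.thr 33 45 (.dbl 48 18 26)))))) (.nv (.thr 24 16 (.thr 25 26 (.thr 13 49 (.dbl 29 17 45)))) (.rp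 48 (.thr 52 7 (.thr 36 4 (.thr 39 38 (.thr 15 51 (.thr 41 1 (.thr 45 33 (.dbl 60 3 30))))))) (.rp 45 (.thr 52 7 (.thr 36 4 (.thr 24 16 (.thr 26 25 (.dbl 48 12 15))))) (.rp 26 (.thr 52 7 (.thr 36 4 (.thr 39 38 (.thr 15 51 (.thr 41 1 (.thr 45 33 (.dbl 60 3 30))))))) (.rp 18 (.thr 52 7 (.thr 36 4 (.thr 39 38 (.thr 15 51 (.thr 26 48 (.dbl 24 16 25)))))) .nd))))))) (.rp 27 (.str 31 (.nv (.thr 29 30 (.thr 13 45 (.dbl 25 17 49))) (.nv (.dbl 16 24 26) .nd))) (.rp 26 (.thr 52 7 (.thr 36 4 (.thr 24 16 (.thr 41 1 (.thr 3 60 (.thr 33 45 (.dbl 48 12 18))))))) .nd)))))))) (.rp 52 (.thr 5 53 (.thr 16 24 (.thr 31 26 (.thr 29 30 (.thr 25 17 (.thr 13 49 (.thr 61 45 (.dbl 1 9 41)))))))) (.rp 39 (.thr 53 5 (.thr 52 7 (.thr 55 54 (.dbl 4 36 38)))) (.rp 38 (.thr 5 53 (.thr 16 24 (.thr 31 26 (.thr 29 30 (.thr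 25 17 (.thr 13 49 (.thr 61 45 (.dbl 1 9 41)))))))) (.rp 36 (.thr 5 53 (.thr 16 24 (.thr 31 26 (.thr 29 30 (.thr 25 17 (.thr 13 49 (.thr 61 45 (.dbl 1 9 41)))))))) (.rp 31 (.str 27 (.nv (.thr 24 16 (.thr 26 25 (.thr 48 15 (.thr 12 36 (.thr 60 44 (.dbl 52 7 56)))))) (.nv (.thr 52 7 (.thr 4 36 (.thr 55 38 (.dbl 53 5 54)))) (.rp 52 (.thr 24 16 (.thr 26 25 (.thr 18 30 (.thr 48 15 (.thr 12 36 (.thr 60 44 (.dbl 3 33 41))))))) (.rp 36 (.thr 52 7 (.thr 24 16 (.thr 26 25 (.thr 18 30 (.thr 48 15 (.thr 60 56 (.dbl 3 33 41))))))) (.rp 7 (.thr 24 16 (.thr 26 25 (.thr 48 15 (.thr 36 12 (.thr 4 52 (.dbl 38 39 55)))))) (.rp 5 (.str 15 (.nv (.thr 39 51 (.thr 52 7 (.dbl 36 4 38))) (.nv (.thr 26 48 (.dbl 24 16 25)) .nd))) .nd))))))) (.rp 27 (.str 31 (.nv (.dbl 16 24 26) (.rp 26 (.thr 53 5 (.thr 52 7 (.thr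 55 54 (.dbl 4 36 38)))) (.rp 24 (.thr 30 29 (.dbl 26 16 18)) (.rp 16 (.thr 53 5 (.thr 52 7 (.thr 55 54 (.dbl 4 36 38)))) .nd))))) (.rp 7 (.thr 5 53 (.thr 16 24 (.thr 31 26 (.thr 29 30 (.thr 25 17 (.thr 13 49 (.thr 61 45 (.dbl 1 9 41)))))))) (.rp 5 (.thr 7 52 (.str 15 (.nv (.thr 3 11 (.thr 41 60 (.thr 33 45 (.dbl 48 18 26)))) (.nv (.thr 16 24 (.dbl 26 31 48)) (.rp 48 (.thr 3 11 (.thr 60 41 (.thr 30 45 (.thr 31 29 (.dbl 16 24 26))))) (.rp 31 (.str 27 (.nv (.thr 3 11 (.thr 41 60 (.thr 48 26 (.dbl 33 18 45)))) (.nv (.thr 26 48 (.dbl 24 16 25)) (.rp 60 (.thr 24 16 (.dbl 26 25 48)) (.rp 48 (.thr 3 11 (.thr 60 41 (.thr 30 45 (.thr 26 18 (.dbl 24 16 25))))) (.rp 26 (.thr 51 39 (.thr 3 11 (.thr 41 60 (.thr 33 45 (.thr 1 61 (.thr 49 17 (.dbl 48 18 50))))))) .nd)))))) (.rp 27 (.str 31 (.nv (.thr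 3 11 (.thr 30 29 (.dbl 60 41 45))) (.nv (.dbl 16 24 26) .nd))) (.rp 26 (.thr 3 11 (.thr 41 60 (.thr 61 1 (.thr 45 33 (.thr 13 29 (.thr 12 14 (.thr 6 9 (.thr 38 54 (.thr 51 25 (.dbl 39 27 36)))))))))) .nd)))))))) (.rp 4 (.thr 5 53 (.thr 16 24 (.thr 31 26 (.thr 29 30 (.thr 25 17 (.thr 13 49 (.thr 61 45 (.dbl 1 9 41)))))))) .nd)))))))))))))) (.rp 17 (.thr 16 24 (.str 60 (.nv (.thr 12 44 (.thr 26 31 (.thr 30 18 (.thr 15 45 (.thr 14 13 (.thr 38 50 (.dbl 25 19 51))))))) (.nv (.thr 26 31 (.thr 30 18 (.thr 15 45 (.thr 41 3 (.thr 48 37 (.dbl 56 11 52)))))) (.nv (.thr 25 19 (.thr 12 44 (.thr 3 41 (.thr 6 9 (.dbl 38 51 54))))) (.rp 51 (.str 34 (.nv (.thr 12 44 (.thr 26 31 (.thr 30 18 (.thr 15 45 (.thr 14 13 (.thr 38 50 (.dbl 46 42 62))))))) (.nv (.thr 3 41 (.thr 12 44 (.thr 6 9 (.thr 25 19 (.thr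 38 54 (.thr 4 55 (.thr 7 5 (.dbl 52 36 37)))))))) (.nv (.thr 12 44 (.thr 31 26 (.thr 29 30 (.thr 46 63 (.thr 38 42 (.thr 6 54 (.dbl 3 9 41))))))) (.nv (.thr 26 31 (.thr 30 18 (.thr 15 45 (.thr 48 37 (.thr 56 52 (.dbl 41 3 11)))))) (.rp 31 (.thr 19 25 (.thr 41 3 (.thr 44 12 (.thr 38 35 (.thr 42 46 (.thr 4 55 (.thr 36 52 (.dbl 40 32 43)))))))) (.rp 27 (.thr 19 25 (.thr 26 31 (.thr 18 30 (.thr 50 2 (.thr 44 12 (.thr 38 14 (.dbl 41 3 35))))))) .nd))))))) (.rp 34 (.str 51 (.nv (.thr 19 25 (.dbl 3 35 41)) (.nv (.thr 12 44 (.dbl 25 19 38)) (.rp 25 (.thr 26 31 (.thr 30 18 (.thr 15 45 (.thr 48 37 (.thr 56 52 (.dbl 41 3 11)))))) (.rp 19 (.thr 12 44 (.thr 38 25 (.thr 6 54 (.dbl 3 9 41)))) .nd))))) (.rp 31 (.thr 44 12 (.thr 41 3 (.thr 38 35 (.thr 6 54 (.thr 4 55 (.thr 7 5 (.dbl 52 36 37))))))) (.rp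 27 (.thr 31 26 (.thr 25 19 (.thr 12 44 (.thr 3 41 (.thr 6 9 (.dbl 38 51 54)))))) (.rp 19 (.thr 31 26 (.thr 30 29 (.thr 15 45 (.thr 63 47 (.thr 61 62 (.dbl 41 1 3)))))) .nd)))))))))) (.rp 16 (.str 38 (.nv (.thr 6 54 (.thr 25 19 (.thr 12 51 (.thr 60 44 (.dbl 3 9 41))))) (.nv (.thr 4 55 (.thr 52 36 (.thr 7 37 (.dbl 6 5 54)))) (.rp 54 (.thr 4 55 (.thr 52 36 (.thr 7 37 (.thr 6 5 (.thr 25 19 (.thr 12 51 (.thr 60 44 (.dbl 3 9 41)))))))) (.rp 48 (.str 32 (.nv (.thr 6 54 (.thr 25 19 (.thr 12 51 (.thr 60 44 (.dbl 3 9 41))))) (.nv (.thr 4 55 (.thr 52 36 (.thr 7 37 (.dbl 6 5 54)))) (.rp 54 (.thr 4 55 (.thr 52 36 (.thr 7 37 (.thr 6 5 (.thr 25 19 (.thr 12 51 (.thr 60 44 (.dbl 3 9 41)))))))) (.rp 12 (.thr 4 55 (.thr 6 54 (.thr 7 5 (.dbl 52 36 37)))) (.rp 6 (.thr 4 55 (.thr 36 52 (.thr 25 19 (.thr 12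 51 (.dbl 44 40 60))))) .nd)))))) (.rp 32 (.str 48 (.nv (.thr 4 55 (.thr 52 36 (.thr 7 37 (.dbl 6 5 54)))) (.nv (.thr 6 54 (.thr 25 19 (.thr 12 51 (.thr 60 44 (.dbl 3 9 41))))) (.nv (.thr 4 55 (.thr 36 52 (.thr 12 24 (.dbl 25 19 51)))) (.rp 54 (.thr 4 55 (.thr 52 36 (.thr 25 19 (.thr 12 51 (.dbl 60 44 56))))) (.rp 36 (.thr 55 4 (.thr 54 6 (.thr 53 52 (.thr 25 19 (.thr 63 58 (.dbl 51 12 59)))))) .nd)))))) (.rp 6 (.thr 4 55 (.thr 52 36 (.thr 25 19 (.thr 12 51 (.thr 60 44 (.thr 48 56 (.thr 3 41 (.thr 18 33 (.thr 26 30 (.dbl 37 7 15)))))))))) .nd))))))) .nd)))))))))))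

theorem w82 : WinAt (7340032, 144115188084244481) :=
  chF (K := []) kn c82 7340032 144115188084244481 23
    [] (by decide +kernel) (by decide +kernel)

/-- A certificate. -/
noncomputable def c83 : Ct := (.str 28 (.nv (.thr 16 24 (.thr 19 25 (.thr 26 31 (.dbl 18 17 30)))) (.rp 31 (.thr 19 25 (.str 3 (.nv (.thr 16 24 (.thr 18 17 (.thr 51 35 (.thr 26 30 (.thr 41 60 (.thr 11 56 (.thr 15 7 (.dbl 48 33 37)))))))) (.nv (.thr 35 51 (.thr 41 60 (.thr 38 44 (.thr 4 55 (.thr 52 36 (.thr 7 37 (.dbl 6 5 54))))))) (.nv (.thr 16 24 (.thr 18 17 (.thr 26 30 (.thr 48 33 (.thr 15 37 (.thr 41 60 (.dbl 11 7 56))))))) (.rp 60 (.thr 16 24 (.thr 18 17 (.thr 26 30 (.thr 33 48 (.thr 35 51 (.thr 34 32 (.thr 50 2 (.thr 38 14 (.thr 4 55 (.thr 41 44 (.thr 36 52 (.thr 56 11 (.dbl 37 39 45))))))))))))) (.rp 51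 (.thr 24 16 (.thr 60 41 (.thr 12 44 (.thr 48 36 (.thr 52 56 (.thr 37 7 (.thr 26 15 (.dbl 18 30 33)))))))) (.rp 41 (.thr 16 24 (.thr 18 17 (.thr 26 30 (.thr 48 33 (.thr 37 15 (.thr 52 7 (.thr 4 36 (.thr 55 38 (.dbl 53 5 54))))))))) (.rp 37 (.thr 16 24 (.thr 18 17 (.thr 26 30 (.thr 33 48 (.thr 35 51 (.thr 34 32 (.thr 50 2 (.thr 38 14 (.dbl 41 44 60))))))))) (.rp 17 (.thr 24 16 (.thr 60 41 (.thr 12 44 (.thr 48 36 (.thr 52 56 (.thr 37 7 (.thr 26 15 (.dbl 18 30 33)))))))) (.rp 7 (.thr 16 24 (.thr 18 17 (.thr 26 30 (.thr 33 48 (.thr 35 51 (.thr 34 32 (.thr 50 2 (.thr 38 14 (.dbl 41 44 60))))))))) .nd))))))))))) (.rp 30 (.str 52 (.nv (.thr 4 36 (.thr 7 37 (.thr 38 55 (.dbl 6 5 54)))) (.rp 55 (.thr 25 19 (.thr 4 36 (.thr 7 37 (.thr 6 5 (.thr 38 54 (.thr 12 51 (.thr 3 9 (.dbl 60 41 44))))))))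 (.rp 54 (.thr 25 19 (.thr 29 17 (.thr 37 7 (.thr 5 53 (.thr 13 49 (.thr 1 9 (.dbl 61 41 45))))))) (.rp 38 (.thr 25 19 (.thr 29 17 (.thr 37 7 (.thr 5 53 (.thr 13 49 (.thr 1 9 (.dbl 61 41 45))))))) (.rp 37 (.thr 25 19 (.thr 4 36 (.thr 38 55 (.thr 6 54 (.thr 12 51 (.thr 3 9 (.dbl 60 41 44))))))) (.rp 36 (.thr 25 19 (.thr 29 17 (.thr 37 7 (.thr 5 53 (.thr 13 49 (.thr 1 9 (.dbl 61 41 45))))))) (.rp 7 (.thr 25 19 (.thr 17 29 (.thr 4 36 (.thr 55 38 (.thr 53 54 (.thr 37 5 (.thr 49 13 (.thr 61 57 (.dbl 1 33 41))))))))) (.rp 6 (.thr 4 36 (.thr 55 38 (.thr 53 54 (.dbl 37 5 7)))) (.rp 5 (.thr 25 19 (.thr 4 36 (.thr 38 55 (.thr 6 54 (.thr 12 51 (.thr 3 9 (.dbl 60 41 44))))))) (.rp 4 (.thr 25 19 (.thr 29 17 (.thr 37 7 (.thr 5 53 (.thr 13 49 (.thr 1 9 (.dbl 61 41 45))))))) .nd))))))))))) (.rp 26 (.str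 38 (.nv (.thr 4 55 (.thr 24 16 (.thr 25 19 (.thr 12 51 (.dbl 36 48 52))))) (.nv (.thr 25 19 (.thr 12 51 (.thr 60 44 (.thr 3 41 (.dbl 6 9 54))))) (.nv (.thr 6 54 (.thr 4 55 (.thr 52 36 (.dbl 7 5 37)))) (.rp 42 (.str 10 (.nv (.thr 4 55 (.thr 24 16 (.thr 25 19 (.thr 12 51 (.dbl 36 48 52))))) (.nv (.thr 25 19 (.thr 12 51 (.thr 60 44 (.thr 3 41 (.dbl 6 9 54))))) (.nv (.thr 6 54 (.thr 4 55 (.thr 7 5 (.dbl 52 36 37)))) .nd)))) (.rp 10 (.str 42 (.nv (.thr 4 55 (.thr 24 16 (.thr 25 19 (.thr 12 51 (.dbl 36 48 52))))) (.nv (.thr 6 54 (.thr 25 19 (.thr 12 51 (.thr 3 9 (.dbl 60 41 44))))) (.nv (.thr 4 55 (.thr 52 36 (.thr 7 37 (.dbl 6 5 54)))) (.rp 15 (.str 5 (.nv (.thr 6 54 (.thr 7 4 (.dbl 37 52 53))) (.nv (.thr 4 55 (.thr 37 53 (.dbl 52 7 36))) (.nv (.thr 4 55 (.dbl 6 7 54)) (.rp 48 (.thr 37 53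 (.str 63 (.nv (.thr 25 19 (.thr 29 17 (.dbl 12 46 51))) (.nv (.thr 4 55 (.dbl 52 7 36)) (.rp 32 (.thr 16 24 (.thr 6 54 (.dbl 4 7 55))) (.rp 16 (.thr 32 47 (.thr 6 54 (.dbl 4 7 55))) .nd)))))) (.rp 37 (.str 48 (.nv (.thr 24 16 (.thr 12 36 (.dbl 25 19 51))) (.nv (.thr 4 55 (.dbl 6 7 54)) .nd))) (.rp 7 (.thr 54 6 (.thr 55 4 (.dbl 53 37 52))) (.rp 4 (.thr 6 54 (.thr 25 19 (.thr 12 51 (.thr 60 44 (.dbl 3 9 41))))) .nd)))))))) (.rp 5 (.str 15 (.nv (.thr 2 62 (.thr 16 24 (.thr 34 46 (.thr 18 50 (.thr 54 6 (.dbl 19 17 25)))))) (.nv (.thr 46 34 (.thr 62 2 (.thr 14 30 (.thr 12 13 (.dbl 25 19 51))))) (.nv (.thr 4 55 (.thr 25 19 (.thr 36 52 (.thr 39 37 (.dbl 51 12 27))))) (.rp 25 (.thr 62 2 (.thr 46 34 (.thr 14 30 (.thr 12 13 (.thr 60 44 (.dbl 63 29 61)))))) (.rp 19 (.thr 62 2 (.thr 46 34 (.thr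 14 30 (.thr 12 13 (.thr 60 44 (.dbl 63 29 61)))))) .nd)))))) .nd)))))) .nd)))))) (.rp 25 (.str 60 (.nv (.thr 41 3 (.thr 44 12 (.thr 38 35 (.thr 4 55 (.thr 6 54 (.thr 7 5 (.dbl 52 36 37))))))) (.nv (.thr 16 24 (.thr 26 31 (.thr 30 18 (.thr 15 45 (.thr 48 37 (.thr 56 52 (.dbl 41 3 11))))))) (.rp 52 (.thr 16 24 (.thr 26 31 (.thr 30 18 (.thr 12 44 (.thr 15 45 (.thr 14 13 (.thr 38 50 (.thr 3 41 (.dbl 6 9 54))))))))) (.rp 41 (.thr 16 24 (.thr 26 31 (.thr 30 18 (.thr 15 45 (.thr 37 48 (.thr 52 7 (.thr 53 5 (.thr 55 54 (.dbl 4 36 38))))))))) (.rp 37 (.thr 16 24 (.thr 26 31 (.thr 44 12 (.thr 41 3 (.thr 56 11 (.thr 38 35 (.thr 4 55 (.dbl 52 36 48)))))))) (.rp 19 (.thr 24 16 (.thr 12 44 (.thr 48 36 (.thr 52 56 (.thr 37 7 (.thr 26 15 (.thr 18 30 (.dbl 3 33 41)))))))) (.rp 15 (.thr 44 12 (.thr 41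 3 (.thr 38 35 (.thr 6 54 (.thr 4 55 (.thr 52 36 (.dbl 7 5 37))))))) (.rp 3 (.thr 16 24 (.thr 26 31 (.thr 30 18 (.thr 12 44 (.thr 15 45 (.thr 14 13 (.thr 38 50 (.thr 4 55 (.thr 52 36 (.dbl 48 37 56)))))))))) .nd))))))))) (.rp 24 (.str 52 (.nv (.thr 37 7 (.thr 53 5 (.thr 55 54 (.dbl 4 36 38)))) (.nv (.thr 4 36 (.thr 55 38 (.thr 37 7 (.dbl 53 5 54)))) (.rp 55 (.thr 25 19 (.thr 4 36 (.thr 7 37 (.thr 6 5 (.thr 38 54 (.thr 12 51 (.thr 3 9 (.dbl 60 41 44)))))))) (.rp 54 (.thr 25 19 (.thr 29 17 (.thr 37 7 (.thr 5 53 (.thr 13 49 (.thr 1 9 (.dbl 61 41 45))))))) (.rp 53 (.thr 4 36 (.thr 38 55 (.thr 6 54 (.dbl 7 5 37)))) (.rp 38 (.thr 25 19 (.thr 29 17 (.thr 37 7 (.thr 5 53 (.thr 13 49 (.thr 1 9 (.dbl 61 41 45))))))) (.rp 37 (.thr 25 19 (.thr 4 36 (.thr 38 55 (.thr 6 54 (.thr 12 51 (.thr 3 9 (.dbl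 60 41 44))))))) (.rp 36 (.thr 25 19 (.thr 29 17 (.thr 37 7 (.thr 5 53 (.thr 13 49 (.thr 1 9 (.dbl 61 41 45))))))) (.rp 7 (.thr 25 19 (.thr 17 29 (.thr 4 36 (.thr 55 38 (.thr 53 54 (.thr 37 5 (.thr 49 13 (.thr 61 57 (.dbl 1 33 41))))))))) (.rp 5 (.thr 25 19 (.thr 4 36 (.thr 38 55 (.thr 6 54 (.thr 12 51 (.thr 3 9 (.dbl 60 41 44))))))) (.rp 4 (.thr 25 19 (.thr 29 17 (.thr 37 7 (.thr 5 53 (.thr 13 49 (.thr 1 9 (.dbl 61 41 45))))))) .nd)))))))))))) (.rp 19 (.str 60 (.nv (.thr 3 41 (.thr 12 44 (.thr 24 16 (.thr 48 36 (.thr 18 33 (.thr 26 30 (.thr 37 15 (.dbl 52 7 56)))))))) (.nv (.thr 3 41 (.thr 12 44 (.thr 6 9 (.thr 38 54 (.thr 4 55 (.thr 52 36 (.dbl 7 5 37))))))) (.nv (.thr 16 24 (.thr 31 26 (.thr 30 29 (.thr 15 45 (.thr 63 47 (.thr 61 62 (.dbl 41 1 3))))))) (.rp 44 (.thr 16 24 (.thr 31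 26 (.thr 29 30 (.thr 25 17 (.thr 41 3 (.thr 57 9 (.thr 51 54 (.thr 12 38 (.thr 63 46 (.dbl 61 1 62)))))))))) (.rp 41 (.thr 16 24 (.thr 31 26 (.thr 29 30 (.thr 25 17 (.thr 12 44 (.thr 63 46 (.thr 62 61 (.thr 42 2 (.thr 59 8 (.dbl 51 38 55)))))))))) (.rp 31 (.str 27 (.nv (.thr 12 44 (.thr 24 16 (.thr 26 25 (.thr 48 36 (.thr 15 37 (.dbl 30 18 45)))))) (.nv (.thr 3 41 (.thr 24 16 (.thr 26 25 (.thr 18 30 (.thr 48 33 (.thr 37 15 (.dbl 52 7 56))))))) (.nv (.thr 3 41 (.thr 12 44 (.thr 6 9 (.thr 38 54 (.thr 4 55 (.thr 7 5 (.dbl 52 36 37))))))) (.nv (.thr 24 16 (.thr 26 25 (.thr 18 30 (.thr 12 44 (.thr 48 36 (.dbl 3 33 41)))))) (.rp 25 (.thr 24 16 (.thr 12 44 (.thr 48 36 (.thr 52 56 (.thr 37 7 (.thr 26 15 (.thr 18 30 (.dbl 3 33 41)))))))) .nd)))))) (.rp 27 (.str 31 (.nv (.dbl 16 24 26) (.rp 26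 (.thr 30 29 (.thr 15 45 (.thr 63 47 (.thr 61 62 (.dbl 41 1 3))))) (.rp 24 (.thr 30 29 (.dbl 26 16 18)) (.rp 16 (.thr 30 29 (.thr 15 45 (.thr 63 47 (.thr 61 62 (.dbl 41 1 3))))) .nd))))) (.rp 3 (.thr 16 24 (.thr 31 26 (.thr 29 30 (.thr 25 17 (.thr 12 44 (.thr 51 38 (.thr 57 54 (.thr 63 46 (.thr 41 9 (.dbl 61 1 62)))))))))) .nd))))))))) (.rp 18 (.thr 16 24 (.thr 31 26 (.thr 29 30 (.dbl 25 17 19)))) (.rp 17 (.thr 16 24 (.thr 19 25 (.thr 26 31 (.str 37 (.nv (.thr 18 30 (.thr 48 15 (.thr 3 33 (.thr 60 41 (.dbl 52 7 56))))) (.nv (.thr 52 7 (.thr 4 36 (.thr 55 38 (.dbl 53 5 54)))) (.rp 52 (.thr 30 18 (.thr 15 48 (.thr 60 45 (.thr 3 41 (.thr 12 44 (.thr 9 6 (.thr 13 14 (.dbl 5 1 53)))))))) (.rp 51 (.str 34 (.nv (.thr 18 30 (.thr 50 2 (.thr 38 14 (.thr 4 55 (.dbl 36 39 52))))) (.nv (.thr 18 30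 (.thr 2 50 (.thr 48 15 (.thr 33 3 (.thr 32 35 (.dbl 42 47 62)))))) (.nv (.thr 7 52 (.thr 15 48 (.thr 3 11 (.thr 30 18 (.dbl 60 41 45))))) (.nv (.thr 52 7 (.thr 4 36 (.thr 53 5 (.dbl 55 38 54)))) (.rp 38 (.str 12 (.nv (.thr 5 53 (.thr 7 52 (.thr 6 4 (.thr 3 9 (.dbl 15 11 48))))) (.nv (.thr 30 18 (.thr 60 44 (.dbl 15 45 48))) (.rp 48 (.thr 30 18 (.thr 60 44 (.thr 45 15 (.dbl 41 3 33)))) (.rp 41 (.thr 30 18 (.thr 15 48 (.dbl 60 44 45))) (.rp 15 (.thr 52 7 (.thr 60 44 (.thr 56 48 (.dbl 41 3 11)))) .nd)))))) (.rp 12 (.str 38 (.nv (.thr 18 30 (.dbl 50 2 14)) (.nv (.thr 52 7 (.dbl 4 36 55)) (.rp 48 (.thr 36 39 (.dbl 4 52 55)) (.rp 36 (.thr 48 15 (.thr 18 30 (.dbl 50 2 14))) (.rp 8 (.thr 4 55 (.dbl 36 39 52)) (.rp 4 (.str 8 (.nv (.thr 36 39 (.thr 30 18 (.thr 46 42 (.dbl 14 50 62)))) (.nv (.thr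 18 30 (.dbl 50 2 14)) (.rp 50 (.thr 18 30 (.thr 42 46 (.thr 32 47 (.thr 33 35 (.dbl 48 3 15))))) (.rp 36 (.thr 48 15 (.thr 18 30 (.dbl 50 2 14))) (.rp 30 (.thr 50 14 (.thr 2 18 (.dbl 42 46 62))) (.rp 18 (.thr 36 39 (.thr 42 46 (.thr 32 47 (.thr 35 33 (.dbl 44 40 41))))) (.rp 14 (.thr 18 30 (.thr 2 50 (.dbl 42 46 62))) .nd)))))))) .nd))))))) (.rp 7 (.thr 30 18 (.thr 15 48 (.thr 60 45 (.thr 12 44 (.thr 14 13 (.thr 46 62 (.dbl 38 42 50))))))) .nd)))))))) (.rp 48 (.thr 52 7 (.thr 53 5 (.thr 55 54 (.dbl 4 36 38)))) (.rp 34 (.str 51 (.nv (.thr 52 7 (.thr 4 36 (.thr 55 38 (.dbl 53 5 54)))) (.nv (.thr 3 35 (.thr 18 30 (.dbl 48 15 33))) (.rp 48 (.thr 52 7 (.thr 53 5 (.thr 55 54 (.dbl 4 36 38)))) .nd)))) (.rp 7 (.thr 18 30 (.thr 48 15 (.thr 3 33 (.thr 60 41 (.thr 52 56 (.thr 4 36 (.thr 55 38 (.dbl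 53 5 54)))))))) (.rp 5 (.thr 30 18 (.thr 15 48 (.thr 7 52 (.thr 3 11 (.dbl 60 41 45))))) .nd)))))))))))) (.rp 16 (.str 37 (.nv (.thr 5 53 (.thr 25 19 (.thr 13 49 (.thr 1 9 (.thr 61 41 (.dbl 29 17 45)))))) (.nv (.thr 52 7 (.thr 4 36 (.thr 55 38 (.dbl 53 5 54)))) (.rp 53 (.str 48 (.nv (.thr 26 15 (.thr 30 18 (.thr 29 31 (.dbl 25 17 19)))) (.nv (.thr 52 7 (.thr 36 4 (.thr 12 24 (.dbl 60 44 56)))) (.rp 5 (.thr 52 7 (.thr 60 56 (.thr 12 44 (.dbl 36 4 24)))) .nd)))) (.rp 48 (.str 32 (.nv (.thr 25 19 (.thr 17 29 (.thr 49 13 (.thr 1 33 (.thr 53 5 (.dbl 61 41 57)))))) (.nv (.thr 52 7 (.thr 4 36 (.thr 55 38 (.dbl 53 5 54)))) (.rp 63 (.thr 53 5 (.thr 52 7 (.thr 55 54 (.dbl 4 36 38)))) (.rp 53 (.str 63 (.nv (.thr 25 19 (.thr 52 7 (.thr 36 4 (.thr 44 40 (.thr 12 60 (.dbl 29 17 46)))))) (.nv (.thr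 42 47 (.thr 52 7 (.thr 62 2 (.thr 60 61 (.thr 44 12 (.dbl 36 4 40)))))) (.nv (.thr 47 42 (.thr 31 15 (.thr 25 19 (.dbl 29 17 30)))) .nd)))) (.rp 5 (.thr 52 7 (.thr 4 36 (.thr 55 38 (.thr 53 54 (.thr 25 19 (.thr 17 29 (.thr 49 13 (.thr 1 33 (.dbl 61 41 57))))))))) .nd)))))) (.rp 32 (.str 48 (.nv (.thr 26 15 (.thr 30 18 (.thr 29 31 (.dbl 25 17 19)))) (.nv (.thr 52 7 (.thr 4 36 (.thr 55 38 (.dbl 53 5 54)))) (.rp 5 (.thr 52 7 (.thr 60 56 (.thr 12 44 (.dbl 36 4 24)))) .nd)))) (.rp 5 (.thr 52 7 (.thr 4 36 (.thr 55 38 (.thr 53 54 (.thr 25 19 (.thr 17 29 (.thr 49 13 (.thr 1 33 (.dbl 61 41 57))))))))) .nd))))))) .nd)))))))))))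

theorem w83 : WinAt (7340032, 288230376160100353) :=
  chF (K := []) kn c83 7340032 288230376160100353 23
    [] (by decide +kernel) (by decide +kernel)

/-- A certificate. -/
noncomputable def c84 : Ct := (.str 38 (.nv (.thr 23 20 (.thr 54 6 (.thr 55 4 (.thr 7 39 (.dbl 52 37 53))))) (.nv (.thr 6 54 (.thr 20 23 (.thr 4 55 (.thr 52 36 (.dbl 7 5 37))))) (.rp 55 (.str 51 (.nv (.thr 20 23 (.thr 25 12 (.thr 28 19 (.thr 16 24 (.thr 29 17 (.dbl 31 26 30)))))) (.nv (.thr 54 6 (.thr 60 57 (.thr 3 41 (.thr 19 35 (.dbl 25 12 28))))) (.rp 28 (.thr 6 54 (.thr 12 25 (.thr 3 9 (.thr 35 19 (.dbl 41 44 60))))) (.rp 25 (.str 42 (.nv (.thr 54 6 (.thr 60 57 (.thr 62 2 (.thr 61 63 (.dbl 41 1 3))))) (.nv (.thr 34 46 (.thr 2 62 (.thr 50 18 (.thr 6 54 (.dbl 14 10 26))))) (.rp 62 (.thr 54 6 (.thr 34 46 (.thr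 60 57 (.thr 41 3 (.thr 43 40 (.thr 35 44 (.thr 32 33 (.dbl 47 37 39)))))))) (.rp 54 (.str 53 (.nv (.thr 2 62 (.thr 34 46 (.thr 50 18 (.thr 48 49 (.thr 58 63 (.dbl 26 10 14)))))) (.nv (.thr 37 5 (.thr 39 36 (.thr 47 32 (.thr 35 43 (.thr 3 19 (.dbl 41 44 60)))))) (.nv (.thr 34 46 (.thr 2 62 (.thr 50 18 (.thr 48 49 (.thr 37 5 (.dbl 26 14 15)))))) (.rp 48 (.thr 37 5 (.thr 36 39 (.thr 32 47 (.thr 34 46 (.thr 35 33 (.dbl 44 40 41)))))) (.rp 37 (.thr 2 62 (.thr 34 46 (.thr 50 18 (.thr 49 48 (.thr 61 57 (.thr 41 1 (.thr 3 60 (.dbl 35 19 44)))))))) (.rp 10 (.thr 2 62 (.thr 34 46 (.thr 50 18 (.thr 48 49 (.thr 37 5 (.thr 15 26 (.dbl 39 27 36))))))) .nd))))))) (.rp 14 (.thr 54 6 (.thr 34 46 (.thr 60 57 (.thr 41 3 (.thr 43 40 (.thr 35 44 (.thr 32 33 (.dbl 47 37 39)))))))) (.rp 10 (.thr 54 6 (.thr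 46 34 (.thr 62 2 (.thr 14 30 (.dbl 50 26 58))))) (.rp 6 (.thr 62 2 (.thr 46 34 (.thr 14 30 (.thr 50 26 (.thr 48 49 (.thr 54 58 (.thr 60 57 (.thr 56 52 (.thr 61 63 (.dbl 41 1 3)))))))))) (.rp 2 (.thr 54 6 (.thr 34 46 (.thr 60 57 (.thr 41 3 (.thr 1 61 (.thr 43 40 (.thr 35 44 (.thr 32 33 (.dbl 47 37 39))))))))) .nd))))))))) (.rp 19 (.thr 54 6 (.thr 60 57 (.thr 41 3 (.thr 44 35 (.dbl 12 25 28))))) (.rp 12 (.thr 54 6 (.thr 23 20 (.thr 60 57 (.thr 3 41 (.thr 19 35 (.thr 31 27 (.thr 16 26 (.thr 17 18 (.dbl 25 28 29))))))))) .nd))))))) (.rp 54 (.str 19 (.nv (.thr 23 20 (.thr 27 31 (.thr 55 4 (.thr 39 7 (.thr 51 15 (.dbl 25 12 28)))))) (.nv (.thr 25 28 (.thr 17 29 (.thr 16 18 (.thr 31 26 (.dbl 23 20 27))))) (.rp 31 (.thr 20 23 (.thr 4 55 (.thr 52 36 (.thr 25 28 (.thr 51 12 (.thr 3 35 (.thr 60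 41 (.thr 48 56 (.thr 49 50 (.dbl 37 7 13)))))))))) (.rp 28 (.thr 23 20 (.thr 55 4 (.thr 39 7 (.thr 27 31 (.thr 51 15 (.thr 3 35 (.thr 12 25 (.thr 63 43 (.thr 60 41 (.thr 62 61 (.thr 42 2 (.dbl 46 29 34)))))))))))) (.rp 27 (.thr 20 23 (.thr 28 25 (.thr 16 24 (.thr 26 31 (.dbl 18 17 30))))) (.rp 25 (.thr 23 20 (.thr 55 4 (.thr 39 7 (.thr 36 37 (.thr 27 31 (.thr 51 15 (.thr 3 35 (.thr 63 43 (.thr 60 41 (.thr 62 61 (.thr 42 2 (.thr 46 34 (.thr 30 14 (.thr 12 29 (.thr 18 26 (.dbl 48 24 33)))))))))))))))) (.rp 23 (.thr 25 28 (.thr 17 29 (.thr 18 16 (.thr 51 12 (.thr 3 35 (.thr 48 33 (.thr 50 49 (.dbl 26 14 30)))))))) (.rp 20 (.thr 4 55 (.thr 25 28 (.thr 17 29 (.thr 16 18 (.thr 31 26 (.thr 27 23 (.thr 51 12 (.thr 3 35 (.thr 15 39 (.thr 7 11 (.thr 5 6 (.dbl 37 52 53)))))))))))) .nd)))))))))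 (.rp 52 (.str 12 (.nv (.thr 51 25 (.thr 54 6 (.thr 60 57 (.thr 41 3 (.dbl 44 28 35))))) (.nv (.thr 25 51 (.thr 17 29 (.thr 19 28 (.thr 16 18 (.thr 31 26 (.dbl 23 20 27)))))) (.nv (.thr 6 54 (.thr 3 9 (.thr 60 41 (.thr 28 44 (.dbl 25 19 51))))) (.rp 51 (.thr 6 54 (.thr 23 20 (.thr 3 9 (.thr 63 43 (.thr 46 29 (.thr 60 41 (.thr 62 61 (.dbl 42 2 34)))))))) (.rp 28 (.thr 6 54 (.thr 3 9 (.thr 41 60 (.thr 35 44 (.dbl 51 19 25))))) (.rp 25 (.thr 6 54 (.thr 23 20 (.thr 3 9 (.thr 63 43 (.thr 46 29 (.thr 42 34 (.thr 62 2 (.dbl 60 41 61)))))))) .nd))))))) (.rp 39 (.thr 6 54 (.thr 20 23 (.thr 4 55 (.thr 7 5 (.dbl 52 36 37))))) (.rp 37 (.str 50 (.nv (.thr 54 6 (.thr 62 58 (.thr 42 2 (.thr 46 34 (.dbl 14 26 30))))) (.nv (.thr 23 20 (.thr 26 14 (.thr 30 18 (.thr 31 16 (.thr 19 27 (.dbl 28 25 29))))))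 (.nv (.thr 6 54 (.thr 14 26 (.thr 2 10 (.thr 42 62 (.dbl 34 18 46))))) (.rp 26 (.thr 54 6 (.thr 55 4 (.thr 53 52 (.thr 58 62 (.thr 48 63 (.thr 51 49 (.thr 60 57 (.thr 3 41 (.thr 19 35 (.dbl 25 12 28)))))))))) (.rp 14 (.thr 54 6 (.thr 20 23 (.thr 62 58 (.thr 2 42 (.thr 18 34 (.thr 26 30 (.thr 16 31 (.thr 28 24 (.dbl 19 17 25))))))))) .nd)))))) (.rp 36 (.thr 54 6 (.thr 23 20 (.thr 55 4 (.thr 52 53 (.dbl 7 37 39))))) (.rp 23 (.str 51 (.nv (.thr 12 25 (.thr 54 6 (.thr 60 57 (.thr 41 3 (.dbl 44 28 35))))) (.nv (.thr 6 54 (.thr 12 25 (.thr 3 9 (.thr 41 60 (.dbl 35 19 44))))) (.nv (.thr 54 6 (.thr 60 57 (.thr 3 41 (.thr 19 35 (.dbl 25 12 28))))) (.rp 60 (.thr 6 54 (.thr 4 55 (.thr 7 5 (.thr 52 37 (.thr 20 36 (.thr 25 12 (.thr 28 19 (.thr 29 17 (.thr 31 30 (.dbl 16 24 26)))))))))) (.rp 54 (.thr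 25 12 (.thr 19 28 (.thr 3 35 (.thr 17 29 (.thr 18 16 (.thr 48 33 (.thr 50 49 (.dbl 26 14 30)))))))) (.rp 41 (.thr 25 12 (.thr 19 28 (.thr 3 35 (.thr 17 29 (.thr 18 16 (.thr 48 33 (.thr 50 49 (.dbl 26 14 30)))))))) (.rp 35 (.thr 54 6 (.thr 55 4 (.thr 53 52 (.thr 57 60 (.thr 61 49 (.thr 41 1 (.dbl 25 9 12))))))) (.rp 25 (.thr 54 6 (.thr 55 4 (.thr 52 53 (.thr 60 57 (.thr 56 48 (.thr 41 3 (.thr 26 11 (.thr 50 14 (.thr 18 30 (.thr 2 34 (.dbl 62 42 58))))))))))) (.rp 12 (.thr 54 6 (.thr 60 57 (.thr 3 41 (.thr 19 35 (.thr 25 28 (.thr 17 29 (.thr 18 16 (.thr 48 33 (.thr 50 49 (.dbl 26 14 30)))))))))) (.rp 6 (.thr 25 12 (.thr 19 28 (.thr 3 35 (.thr 17 29 (.thr 18 16 (.thr 48 33 (.thr 50 49 (.dbl 26 14 30)))))))) (.rp 3 (.thr 54 6 (.thr 55 4 (.thr 53 52 (.thr 57 60 (.thr 49 61 (.thr 48 50 (.thr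 12 25 (.thr 36 24 (.dbl 37 5 39))))))))) .nd)))))))))))) (.rp 20 (.thr 54 6 (.str 60 (.nv (.thr 51 57 (.thr 12 25 (.thr 41 3 (.dbl 44 28 35)))) (.nv (.thr 41 3 (.thr 44 35 (.thr 12 28 (.dbl 51 25 57)))) (.nv (.thr 51 57 (.thr 3 41 (.thr 19 35 (.dbl 25 12 28)))) (.rp 57 (.thr 55 4 (.thr 52 53 (.thr 56 48 (.thr 41 3 (.thr 26 11 (.thr 18 30 (.thr 50 14 (.thr 2 34 (.dbl 62 42 58))))))))) (.rp 51 (.thr 55 4 (.thr 52 53 (.thr 48 56 (.thr 3 41 (.thr 18 33 (.thr 26 30 (.dbl 37 7 15))))))) (.rp 41 (.thr 51 57 (.thr 25 12 (.thr 28 19 (.thr 29 17 (.thr 30 31 (.thr 15 45 (.thr 27 39 (.dbl 26 18 24)))))))) (.rp 35 (.thr 55 4 (.thr 52 53 (.thr 7 37 (.thr 39 23 (.thr 51 57 (.thr 15 27 (.dbl 3 11 41))))))) (.rp 28 (.thr 55 4 (.thr 52 53 (.thr 7 37 (.thr 39 23 (.thr 51 57 (.thr 15 27 (.dbl 3 11 41)))))))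 (.rp 25 (.thr 55 4 (.thr 52 53 (.thr 7 37 (.thr 39 23 (.thr 51 57 (.thr 15 27 (.dbl 3 11 41))))))) (.rp 12 (.thr 57 51 (.thr 41 3 (.thr 9 25 (.thr 1 61 (.thr 5 13 (.thr 37 53 (.thr 52 7 (.thr 48 56 (.thr 15 26 (.dbl 45 30 33)))))))))) (.rp 3 (.thr 55 4 (.thr 52 53 (.thr 7 37 (.thr 39 23 (.thr 51 57 (.thr 15 27 (.thr 30 45 (.thr 26 18 (.thr 14 50 (.dbl 12 13 25)))))))))) .nd))))))))))))) (.rp 7 (.str 19 (.nv (.thr 25 28 (.thr 51 12 (.thr 3 35 (.thr 54 6 (.dbl 60 41 57))))) (.nv (.thr 25 28 (.thr 17 29 (.thr 16 18 (.thr 31 26 (.dbl 23 20 27))))) (.rp 28 (.thr 23 20 (.thr 54 6 (.thr 31 27 (.thr 16 26 (.thr 17 18 (.thr 25 29 (.thr 51 12 (.thr 3 35 (.dbl 60 41 57))))))))) (.rp 25 (.thr 23 20 (.thr 6 54 (.thr 31 27 (.thr 26 16 (.thr 30 18 (.thr 14 50 (.thr 62 46 (.dbl 2 10 42)))))))) .nd)))))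 (.rp 6 (.thr 23 20 (.str 60 (.nv (.thr 41 3 (.thr 44 35 (.thr 12 28 (.thr 51 25 (.thr 54 57 (.thr 55 4 (.thr 52 53 (.dbl 7 37 39)))))))) (.nv (.thr 3 41 (.thr 63 43 (.thr 62 61 (.thr 42 2 (.thr 46 34 (.thr 12 29 (.thr 28 44 (.dbl 25 19 51)))))))) (.nv (.thr 3 41 (.thr 55 4 (.thr 7 39 (.thr 15 11 (.thr 30 45 (.thr 26 18 (.dbl 37 48 52))))))) (.rp 41 (.str 31 (.nv (.thr 26 16 (.thr 30 18 (.thr 28 29 (.thr 12 44 (.dbl 25 19 51))))) (.nv (.thr 16 26 (.thr 19 27 (.thr 25 28 (.dbl 17 18 29)))) (.rp 29 (.thr 55 4 (.thr 7 39 (.thr 26 16 (.thr 30 18 (.thr 15 45 (.dbl 37 48 52)))))) (.rp 28 (.thr 55 4 (.thr 7 39 (.thr 52 37 (.thr 54 53 (.thr 16 26 (.thr 19 27 (.thr 17 18 (.thr 25 29 (.dbl 51 12 57))))))))) (.rp 26 (.thr 55 4 (.thr 7 39 (.thr 52 37 (.thr 54 53 (.thr 19 27 (.thr 25 28 (.dbl 51 12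 57))))))) (.rp 25 (.thr 55 4 (.thr 7 39 (.thr 26 16 (.thr 30 18 (.thr 15 45 (.dbl 37 48 52)))))) (.rp 19 (.thr 55 4 (.thr 7 39 (.thr 52 37 (.thr 54 53 (.thr 26 16 (.thr 50 14 (.thr 48 56 (.dbl 51 49 57)))))))) (.rp 18 (.thr 55 4 (.thr 7 39 (.thr 52 37 (.thr 54 53 (.thr 19 27 (.thr 25 28 (.dbl 51 12 57))))))) (.rp 17 (.thr 26 16 (.thr 30 18 (.thr 19 27 (.dbl 28 25 29)))) (.rp 16 (.thr 55 4 (.thr 7 39 (.thr 52 37 (.thr 54 53 (.thr 19 27 (.thr 51 57 (.dbl 25 12 28))))))) .nd))))))))))) (.rp 12 (.thr 3 41 (.thr 63 43 (.thr 62 61 (.thr 42 2 (.thr 46 34 (.thr 14 30 (.thr 50 26 (.thr 58 54 (.thr 53 48 (.thr 37 5 (.thr 7 52 (.dbl 55 4 39)))))))))))) (.rp 3 (.thr 55 4 (.thr 7 39 (.thr 52 37 (.thr 54 53 (.thr 56 48 (.thr 51 57 (.thr 12 25 (.thr 44 28 (.thr 41 35 (.thr 26 11 (.thr 18 30 (.thr 50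 14 (.thr 2 34 (.dbl 62 42 58)))))))))))))) .nd)))))))) (.rp 4 (.str 12 (.nv (.thr 6 54 (.thr 3 9 (.thr 23 20 (.thr 25 51 (.thr 63 43 (.dbl 29 17 46)))))) (.nv (.thr 25 51 (.thr 17 29 (.thr 19 28 (.thr 16 18 (.thr 31 26 (.dbl 23 20 27)))))) (.nv (.thr 6 54 (.thr 3 9 (.thr 60 41 (.thr 28 44 (.dbl 25 19 51))))) (.rp 51 (.thr 6 54 (.thr 23 20 (.thr 3 9 (.thr 63 43 (.thr 46 29 (.thr 60 41 (.thr 62 61 (.dbl 42 2 34)))))))) (.rp 25 (.thr 6 54 (.thr 23 20 (.thr 3 9 (.thr 63 43 (.thr 46 29 (.thr 42 34 (.thr 62 2 (.dbl 60 41 61)))))))) .nd)))))) .nd))))))))))))))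

theorem w84 : WinAt (6291456, 576460752303423489) :=
  chF (K := []) kn c84 6291456 576460752303423489 59
    [] (by decide +kernel) (by decide +kernel)

/-- A certificate. -/
noncomputable def c85 : Ct := (.str 16 (.nv (.thr 28 24 (.thr 19 25 (.thr 26 31 (.dbl 18 17 30)))) (.rp 31 (.str 38 (.nv (.thr 4 55 (.thr 52 36 (.thr 7 37 (.dbl 6 5 54)))) (.rp 55 (.thr 54 6 (.thr 28 24 (.thr 19 25 (.thr 18 17 (.thr 26 30 (.thr 50 14 (.thr 62 58 (.dbl 2 34 42)))))))) (.rp 54 (.thr 28 24 (.thr 19 25 (.str 51 (.nv (.thr 4 55 (.thr 18 17 (.thr 26 30 (.thr 50 14 (.thr 48 49 (.thr 52 36 (.dbl 37 7 15))))))) (.nv (.thr 3 35 (.thr 4 55 (.thr 18 17 (.thr 26 30 (.thr 48 33 (.thr 52 36 (.dbl 37 7 15))))))) (.nv (.thr 18 17 (.thr 3 35 (.thr 26 30 (.thr 50 14 (.dbl 48 33 49))))) (.rp 49 (.thr 55 4 (.thr 18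 17 (.thr 35 3 (.thr 26 30 (.thr 50 14 (.thr 2 34 (.thr 41 44 (.thr 11 56 (.thr 59 63 (.thr 43 27 (.dbl 42 40 62))))))))))) (.rp 48 (.thr 4 55 (.thr 35 3 (.thr 41 44 (.thr 1 61 (.thr 17 18 (.thr 33 49 (.thr 37 45 (.dbl 52 7 36)))))))) (.rp 45 (.thr 55 4 (.thr 18 17 (.thr 3 35 (.thr 48 33 (.thr 63 59 (.thr 53 58 (.thr 37 5 (.dbl 26 15 30)))))))) (.rp 33 (.thr 4 55 (.thr 52 36 (.thr 7 37 (.thr 6 5 (.thr 18 17 (.thr 3 35 (.thr 26 30 (.thr 14 50 (.thr 12 9 (.dbl 15 11 13)))))))))) (.rp 30 (.thr 4 55 (.thr 52 36 (.thr 17 18 (.thr 35 3 (.thr 41 44 (.thr 1 61 (.thr 33 49 (.dbl 37 7 45)))))))) (.rp 27 (.str 26 (.nv (.dbl 18 17 30) (.rp 30 (.thr 18 17 (.thr 50 14 (.thr 48 49 (.dbl 3 33 35)))) (.rp 18 (.thr 4 55 (.thr 52 36 (.thr 50 14 (.thr 48 49 (.dbl 37 7 15))))) (.rp 17 (.thr 18 30 (.thr 50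 14 (.thr 48 49 (.dbl 3 33 35)))) .nd))))) (.rp 26 (.str 27 (.nv (.thr 3 35 (.thr 4 55 (.thr 52 36 (.thr 7 37 (.dbl 15 11 39))))) (.nv (.thr 3 35 (.thr 15 39 (.thr 55 4 (.thr 59 63 (.dbl 11 7 43))))) (.nv (.thr 39 15 (.thr 4 55 (.dbl 36 37 52))) (.rp 55 (.thr 17 18 (.thr 39 15 (.thr 37 36 (.thr 35 3 (.thr 41 44 (.thr 1 61 (.dbl 33 45 49))))))) (.rp 39 (.thr 18 17 (.thr 55 4 (.thr 59 63 (.thr 43 11 (.thr 35 3 (.thr 41 44 (.thr 42 40 (.thr 34 46 (.dbl 2 50 62))))))))) (.rp 15 (.thr 17 18 (.thr 4 55 (.thr 52 36 (.thr 35 3 (.thr 41 44 (.thr 1 61 (.thr 33 49 (.dbl 37 7 45)))))))) (.rp 4 (.thr 17 18 (.thr 39 15 (.thr 37 36 (.thr 35 3 (.thr 41 44 (.thr 1 61 (.dbl 33 45 49))))))) .nd)))))))) (.rp 18 (.str 52 (.nv (.dbl 4 36 55) (.rp 55 (.thr 36 4 (.dbl 37 7 39)) (.rp 36 (.thr 37 7 (.thr 55 4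 (.thr 35 3 (.thr 63 59 (.thr 41 44 (.thr 1 61 (.thr 33 45 (.thr 49 17 (.thr 48 50 (.dbl 53 5 58)))))))))) (.rp 27 (.str 26 (.nv (.thr 50 14 (.thr 48 49 (.dbl 37 7 15))) (.nv (.dbl 4 36 55) .nd))) (.rp 26 (.str 27 (.nv (.thr 3 35 (.thr 7 37 (.dbl 15 11 39))) (.nv (.dbl 4 36 55) .nd))) (.rp 4 (.thr 37 7 (.thr 39 36 (.thr 35 3 (.thr 41 44 (.thr 33 45 (.thr 32 34 (.dbl 47 42 43))))))) .nd))))))) (.rp 17 (.str 26 (.nv (.thr 18 30 (.thr 50 14 (.thr 3 35 (.dbl 48 33 49)))) (.nv (.thr 3 35 (.thr 4 55 (.thr 18 30 (.thr 48 33 (.thr 52 36 (.dbl 37 7 15)))))) (.nv (.thr 4 55 (.thr 50 14 (.thr 52 36 (.thr 48 49 (.dbl 37 7 15))))) (.nv (.thr 50 14 (.thr 48 49 (.thr 3 35 (.dbl 18 30 33)))) (.rp 49 (.thr 30 18 (.thr 4 55 (.thr 52 36 (.thr 14 50 (.thr 62 46 (.thr 2 42 (.thr 6 10 (.dbl 7 5 37))))))))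 (.rp 48 (.thr 30 18 (.thr 4 55 (.thr 14 50 (.thr 62 46 (.thr 2 42 (.thr 6 10 (.thr 3 35 (.thr 52 36 (.thr 12 9 (.dbl 7 5 37)))))))))) (.rp 33 (.thr 30 18 (.thr 4 55 (.thr 52 36 (.thr 14 50 (.thr 62 46 (.thr 2 42 (.thr 6 10 (.dbl 7 5 37)))))))) .nd)))))))) (.rp 15 (.thr 4 55 (.thr 52 36 (.thr 17 18 (.thr 35 3 (.thr 41 44 (.thr 1 61 (.thr 33 49 (.dbl 37 7 45)))))))) .nd)))))))))))))))) (.rp 52 (.thr 54 6 (.thr 28 24 (.thr 19 25 (.thr 18 17 (.thr 26 30 (.thr 50 14 (.thr 62 58 (.dbl 2 34 42)))))))) (.rp 39 (.thr 6 54 (.thr 4 55 (.thr 7 5 (.dbl 52 36 37)))) (.rp 37 (.thr 54 6 (.thr 28 24 (.thr 19 25 (.thr 18 17 (.thr 26 30 (.thr 50 14 (.thr 62 58 (.dbl 2 34 42)))))))) (.rp 36 (.thr 54 6 (.thr 28 24 (.thr 19 25 (.thr 18 17 (.thr 26 30 (.thr 50 14 (.thr 62 58 (.dbl 2 34 42)))))))) (.rp 27 (.str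 19 (.nv (.dbl 28 24 25) (.rp 28 (.thr 6 54 (.thr 4 55 (.thr 7 5 (.dbl 52 36 37)))) (.rp 25 (.thr 6 54 (.thr 4 55 (.thr 7 5 (.dbl 52 36 37)))) (.rp 24 (.thr 17 18 (.dbl 25 28 29)) .nd))))) (.rp 19 (.str 27 (.nv (.thr 24 28 (.thr 25 26 (.thr 12 51 (.thr 36 48 (.dbl 4 52 55))))) (.nv (.thr 4 55 (.thr 52 36 (.thr 7 37 (.dbl 6 5 54)))) (.rp 55 (.thr 24 28 (.thr 25 26 (.thr 12 51 (.thr 36 48 (.thr 52 4 (.dbl 37 7 39)))))) (.rp 54 (.thr 4 55 (.thr 52 36 (.thr 7 37 (.thr 6 5 (.thr 24 28 (.thr 26 25 (.thr 14 50 (.thr 30 18 (.thr 62 46 (.dbl 2 10 42)))))))))) (.rp 52 (.thr 6 54 (.thr 24 28 (.thr 26 25 (.thr 14 50 (.thr 2 10 (.thr 30 18 (.dbl 62 42 46))))))) (.rp 37 (.thr 4 55 (.thr 36 52 (.thr 24 28 (.thr 25 26 (.dbl 12 48 51))))) (.rp 36 (.thr 6 54 (.thr 24 28 (.thr 26 25 (.thr 14 50 (.thr 2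 10 (.thr 30 18 (.dbl 62 42 46))))))) (.rp 4 (.thr 6 54 (.thr 24 28 (.thr 26 25 (.thr 14 50 (.thr 2 10 (.thr 30 18 (.dbl 62 42 46))))))) .nd))))))))) (.rp 7 (.thr 54 6 (.thr 28 24 (.thr 19 25 (.thr 18 17 (.thr 26 30 (.thr 50 14 (.thr 62 58 (.dbl 2 34 42)))))))) (.rp 6 (.str 52 (.nv (.dbl 4 36 55) (.rp 55 (.thr 36 4 (.dbl 37 7 39)) (.rp 36 (.thr 55 4 (.thr 53 54 (.dbl 37 5 7))) (.rp 27 (.str 19 (.nv (.dbl 28 24 25) (.nv (.dbl 4 36 55) .nd))) (.rp 19 (.str 27 (.nv (.dbl 4 36 55) (.rp 55 (.thr 36 4 (.dbl 37 7 39)) (.rp 36 (.thr 55 4 (.thr 53 54 (.dbl 37 5 7))) (.rp 4 (.thr 24 28 (.thr 25 26 (.thr 12 51 (.thr 36 48 (.dbl 37 7 39))))) .nd))))) (.rp 4 (.thr 37 7 (.thr 5 53 (.thr 39 36 (.thr 28 24 (.thr 19 25 (.thr 18 17 (.thr 26 30 (.thr 14 50 (.thr 15 48 (.thr 12 13 (.thr 51 27 (.thr 35 3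 (.thr 41 44 (.thr 33 45 (.thr 32 34 (.dbl 47 42 43)))))))))))))))) .nd))))))) (.rp 5 (.thr 54 6 (.thr 28 24 (.thr 19 25 (.thr 18 17 (.thr 26 30 (.thr 50 14 (.thr 62 58 (.dbl 2 34 42)))))))) (.rp 4 (.thr 54 6 (.thr 28 24 (.thr 19 25 (.thr 18 17 (.thr 26 30 (.thr 50 14 (.thr 62 58 (.dbl 2 34 42)))))))) .nd)))))))))))))) (.rp 30 (.str 37 (.nv (.thr 52 7 (.thr 4 36 (.thr 55 38 (.dbl 53 5 54)))) (.rp 55 (.thr 5 53 (.thr 28 24 (.thr 25 19 (.thr 29 17 (.thr 13 49 (.thr 1 9 (.dbl 61 41 45))))))) (.rp 54 (.thr 5 53 (.thr 28 24 (.thr 25 19 (.thr 29 17 (.thr 13 49 (.thr 1 9 (.dbl 61 41 45))))))) (.rp 53 (.thr 52 7 (.thr 36 4 (.thr 39 38 (.thr 26 31 (.thr 15 48 (.thr 27 51 (.dbl 24 25 28))))))) (.rp 52 (.thr 5 53 (.thr 28 24 (.thr 25 19 (.thr 29 17 (.thr 13 49 (.thr 1 9 (.dbl 61 41 45))))))) (.rp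 45 (.str 15 (.nv (.dbl 26 31 48) (.rp 48 (.thr 52 7 (.thr 4 36 (.thr 55 38 (.dbl 53 5 54)))) (.rp 31 (.thr 52 7 (.thr 4 36 (.thr 55 38 (.dbl 53 5 54)))) (.rp 26 (.thr 52 7 (.thr 4 36 (.thr 55 38 (.dbl 53 5 54)))) .nd))))) (.rp 39 (.thr 53 5 (.thr 52 7 (.thr 55 54 (.dbl 4 36 38)))) (.rp 38 (.thr 5 53 (.thr 28 24 (.thr 25 19 (.thr 29 17 (.thr 13 49 (.thr 1 9 (.dbl 61 41 45))))))) (.rp 36 (.thr 5 53 (.thr 28 24 (.thr 25 19 (.thr 29 17 (.thr 13 49 (.thr 1 9 (.dbl 61 41 45))))))) (.rp 15 (.str 45 (.nv (.thr 28 24 (.thr 25 19 (.thr 29 17 (.dbl 13 49 61)))) (.nv (.thr 52 7 (.thr 4 36 (.thr 55 38 (.dbl 53 5 54)))) (.rp 10 (.thr 5 53 (.thr 28 24 (.thr 25 19 (.thr 13 49 (.dbl 29 17 61))))) (.rp 5 (.str 10 (.nv (.thr 28 24 (.thr 41 33 (.thr 61 1 (.thr 13 29 (.dbl 25 19 49))))) (.nv (.thr 26 31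 (.thr 41 33 (.thr 42 58 (.thr 40 43 (.thr 56 11 (.dbl 24 8 28)))))) (.nv (.thr 28 24 (.thr 25 19 (.thr 13 49 (.dbl 29 17 61)))) (.rp 29 (.thr 28 24 (.thr 41 33 (.thr 25 19 (.thr 9 57 (.thr 11 8 (.dbl 26 31 56)))))) (.rp 28 (.thr 41 33 (.thr 61 1 (.thr 13 29 (.thr 31 26 (.thr 49 25 (.thr 53 57 (.thr 52 7 (.thr 4 36 (.dbl 55 38 54))))))))) (.rp 24 (.thr 41 33 (.thr 26 31 (.thr 42 58 (.thr 11 56 (.thr 8 9 (.thr 43 40 (.dbl 59 25 27))))))) (.rp 19 (.thr 41 33 (.thr 61 1 (.thr 13 29 (.thr 49 25 (.thr 53 57 (.thr 52 7 (.thr 4 36 (.dbl 55 38 54)))))))) .nd)))))))) .nd))))) (.rp 7 (.thr 5 53 (.thr 28 24 (.thr 25 19 (.thr 29 17 (.thr 13 49 (.thr 1 9 (.dbl 61 41 45))))))) (.rp 5 (.thr 52 7 (.thr 4 36 (.thr 55 38 (.thr 53 54 (.thr 28 24 (.thr 25 19 (.thr 17 29 (.thr 49 13 (.thr 1 33 (.dbl 61 41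 57)))))))))) (.rp 4 (.thr 5 53 (.thr 28 24 (.thr 25 19 (.thr 29 17 (.thr 13 49 (.thr 1 9 (.dbl 61 41 45))))))) .nd)))))))))))))) (.rp 28 (.str 4 (.nv (.thr 52 36 (.thr 7 37 (.thr 38 55 (.dbl 6 5 54)))) (.rp 55 (.thr 26 31 (.thr 30 18 (.thr 52 36 (.thr 7 37 (.thr 6 5 (.thr 38 54 (.thr 14 50 (.thr 62 46 (.dbl 2 10 42))))))))) (.rp 54 (.thr 26 31 (.thr 30 18 (.thr 52 36 (.thr 7 37 (.thr 6 5 (.thr 38 55 (.thr 14 50 (.thr 62 46 (.dbl 2 10 42))))))))) (.rp 52 (.thr 26 31 (.thr 30 18 (.thr 38 55 (.thr 14 50 (.thr 62 46 (.thr 2 42 (.dbl 6 10 54))))))) (.rp 44 (.str 12 (.nv (.thr 26 31 (.thr 36 52 (.thr 48 24 (.thr 37 15 (.dbl 38 39 55))))) (.nv (.thr 38 55 (.thr 25 51 (.thr 17 29 (.thr 18 19 (.dbl 26 30 31))))) (.nv (.thr 52 36 (.thr 7 37 (.thr 38 55 (.dbl 6 5 54)))) (.rp 55 (.thr 26 31 (.thr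 52 36 (.thr 7 37 (.thr 6 5 (.thr 3 9 (.thr 15 11 (.thr 38 54 (.dbl 14 13 50)))))))) (.rp 38 (.thr 26 31 (.thr 36 52 (.thr 48 24 (.thr 37 15 (.thr 5 53 (.thr 6 7 (.thr 3 9 (.dbl 18 30 33)))))))) .nd)))))) (.rp 38 (.str 25 (.nv (.thr 17 29 (.thr 18 19 (.dbl 26 30 31))) (.rp 44 (.str 12 (.nv (.thr 52 36 (.thr 37 7 (.thr 13 49 (.thr 15 14 (.dbl 26 31 48))))) (.nv (.thr 17 29 (.thr 18 19 (.dbl 26 30 31))) (.rp 41 (.str 35 (.nv (.thr 52 36 (.thr 37 7 (.thr 13 49 (.thr 15 14 (.dbl 26 31 48))))) (.nv (.thr 17 29 (.thr 18 19 (.dbl 26 30 31))) (.rp 31 (.thr 29 17 (.thr 36 52 (.thr 48 24 (.thr 63 46 (.thr 53 58 (.thr 37 5 (.thr 13 49 (.dbl 15 14 26)))))))) (.rp 26 (.thr 17 29 (.thr 19 18 (.thr 3 51 (.thr 6 9 (.thr 7 5 (.dbl 52 36 37)))))) .nd))))) (.rp 35 (.str 41 (.nv (.thr 1 61 (.thr 52 36 (.thr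 37 7 (.thr 5 53 (.dbl 9 13 57))))) (.nv (.thr 17 29 (.thr 18 19 (.dbl 26 30 31))) .nd))) (.rp 31 (.thr 29 17 (.thr 52 36 (.thr 37 7 (.thr 5 53 (.thr 13 49 (.thr 1 9 (.dbl 61 41 45))))))) (.rp 26 (.thr 17 29 (.thr 52 36 (.thr 37 7 (.thr 53 5 (.thr 49 13 (.thr 61 57 (.dbl 1 33 41))))))) .nd))))))) (.rp 31 (.thr 29 17 (.thr 52 36 (.thr 37 7 (.thr 5 53 (.thr 13 49 (.thr 1 9 (.dbl 61 41 45))))))) (.rp 30 (.thr 29 17 (.thr 52 36 (.thr 37 7 (.thr 5 53 (.thr 13 49 (.thr 1 9 (.dbl 61 41 45))))))) (.rp 29 (.thr 52 36 (.thr 37 7 (.thr 53 5 (.thr 49 13 (.thr 61 57 (.thr 1 41 (.thr 17 33 (.thr 18 19 (.dbl 26 30 31))))))))) (.rp 27 (.thr 17 29 (.thr 52 36 (.thr 37 7 (.thr 53 5 (.thr 49 13 (.thr 61 57 (.dbl 1 33 41))))))) (.rp 26 (.thr 17 29 (.thr 52 36 (.thr 37 7 (.thr 53 5 (.thr 49 13 (.thr 61 57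 (.dbl 1 33 41))))))) (.rp 19 (.thr 17 29 (.thr 52 36 (.thr 37 7 (.thr 53 5 (.thr 49 13 (.thr 61 57 (.dbl 1 33 41))))))) (.rp 18 (.thr 17 29 (.thr 52 36 (.thr 37 7 (.thr 53 5 (.thr 49 13 (.thr 61 57 (.dbl 1 33 41))))))) (.rp 17 (.thr 26 31 (.thr 27 24 (.thr 52 36 (.thr 37 7 (.thr 53 5 (.thr 55 54 (.thr 13 49 (.thr 15 48 (.thr 12 14 (.thr 51 39 (.thr 59 63 (.thr 42 8 (.thr 58 10 (.thr 56 57 (.dbl 11 41 43))))))))))))))) (.rp 12 (.str 44 (.nv (.thr 17 29 (.thr 18 19 (.dbl 26 30 31))) (.rp 63 (.thr 29 17 (.thr 52 36 (.thr 37 7 (.thr 5 53 (.thr 13 49 (.thr 1 9 (.dbl 61 41 45))))))) (.rp 46 (.thr 29 17 (.thr 52 36 (.thr 37 7 (.thr 5 53 (.thr 13 49 (.thr 1 9 (.dbl 61 41 45))))))) (.rp 31 (.thr 29 17 (.thr 52 36 (.thr 37 7 (.thr 5 53 (.thr 13 49 (.thr 1 9 (.dbl 61 41 45))))))) (.rp 30 (.thr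 29 17 (.thr 52 36 (.thr 37 7 (.thr 5 53 (.thr 13 49 (.thr 1 9 (.dbl 61 41 45))))))) (.rp 29 (.thr 52 36 (.thr 37 7 (.thr 53 5 (.thr 49 13 (.thr 61 57 (.thr 1 41 (.thr 17 33 (.thr 18 19 (.dbl 26 30 31))))))))) (.rp 27 (.thr 29 17 (.thr 52 36 (.thr 37 7 (.thr 5 53 (.thr 13 49 (.thr 1 9 (.dbl 61 41 45))))))) (.rp 26 (.thr 29 17 (.thr 52 36 (.thr 37 7 (.thr 5 53 (.thr 13 49 (.thr 1 9 (.dbl 61 41 45))))))) (.rp 19 (.thr 29 17 (.thr 52 36 (.thr 37 7 (.thr 5 53 (.thr 13 49 (.thr 1 9 (.dbl 61 41 45))))))) (.rp 18 (.thr 29 17 (.thr 52 36 (.thr 37 7 (.thr 5 53 (.thr 13 49 (.thr 1 9 (.dbl 61 41 45))))))) (.rp 17 (.str 42 (.nv (.thr 8 59 (.thr 36 52 (.thr 40 32 (.thr 41 43 (.thr 56 24 (.dbl 26 11 31)))))) (.nv (.thr 8 59 (.thr 26 31 (.thr 10 58 (.thr 11 9 (.thr 56 41 (.dbl 24 27 40)))))) (.nv (.thr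 2 62 (.thr 26 31 (.thr 30 18 (.thr 10 58 (.thr 6 14 (.thr 7 5 (.dbl 52 36 37))))))) (.nv (.thr 26 31 (.thr 8 59 (.thr 36 52 (.thr 40 32 (.dbl 24 27 56))))) (.rp 51 (.str 34 (.nv (.thr 8 59 (.thr 26 31 (.thr 36 52 (.thr 40 32 (.dbl 24 27 56))))) (.nv (.thr 2 62 (.thr 18 50 (.dbl 26 30 31))) (.rp 63 (.thr 36 52 (.thr 40 32 (.thr 59 8 (.thr 26 31 (.thr 27 24 (.dbl 43 11 41)))))) (.rp 57 (.str 54 (.nv (.thr 2 62 (.thr 26 31 (.dbl 18 30 50))) (.nv (.thr 52 36 (.thr 37 7 (.dbl 53 5 55))) .nd))) (.rp 54 (.str 57 (.nv (.thr 26 31 (.thr 58 10 (.dbl 59 8 56))) (.nv (.thr 41 9 (.thr 40 43 (.dbl 36 32 52))) .nd))) (.rp 48 (.thr 2 62 (.thr 26 31 (.dbl 18 30 50))) (.rp 31 (.thr 36 52 (.thr 40 32 (.thr 8 59 (.thr 56 24 (.thr 41 43 (.thr 11 26 (.dbl 9 10 57))))))) (.rp 30 (.thr 36 52 (.thr 40 32 (.thr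 8 59 (.thr 56 24 (.thr 41 43 (.dbl 26 11 31)))))) (.rp 26 (.thr 52 36 (.thr 37 7 (.thr 53 5 (.thr 49 13 (.thr 57 61 (.thr 32 47 (.thr 33 35 (.dbl 41 9 45)))))))) .nd)))))))))) (.rp 34 (.str 51 (.nv (.thr 26 31 (.thr 36 52 (.thr 32 40 (.thr 37 47 (.thr 49 13 (.dbl 48 15 50)))))) (.nv (.thr 8 59 (.thr 26 31 (.thr 10 58 (.thr 11 9 (.thr 56 41 (.dbl 24 27 40)))))) (.nv (.thr 52 36 (.thr 37 7 (.thr 53 5 (.thr 55 54 (.dbl 59 8 63))))) .nd)))) (.rp 31 (.thr 8 59 (.thr 36 52 (.thr 40 32 (.thr 41 43 (.thr 9 57 (.thr 11 10 (.dbl 56 24 26))))))) (.rp 27 (.thr 62 2 (.thr 36 52 (.thr 32 40 (.thr 47 37 (.thr 46 45 (.thr 30 14 (.dbl 26 18 31))))))) (.rp 26 (.thr 52 36 (.thr 37 7 (.thr 47 32 (.thr 45 46 (.thr 41 33 (.thr 1 61 (.thr 9 57 (.dbl 13 5 49)))))))) .nd)))))))))) .nd)))))))))))) .nd))))))))))))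 (.rp 37 (.thr 26 31 (.thr 30 18 (.thr 38 55 (.thr 6 54 (.thr 14 50 (.thr 2 10 (.dbl 62 42 46))))))) (.rp 36 (.thr 26 31 (.thr 30 18 (.thr 38 55 (.thr 6 54 (.thr 14 50 (.thr 2 10 (.dbl 62 42 46))))))) (.rp 12 (.str 44 (.nv (.thr 38 55 (.thr 6 54 (.thr 7 5 (.dbl 52 36 37)))) (.nv (.thr 52 36 (.thr 7 37 (.thr 38 55 (.dbl 6 5 54)))) (.rp 55 (.thr 26 31 (.thr 30 18 (.thr 52 36 (.thr 7 37 (.thr 6 5 (.thr 38 54 (.thr 14 50 (.thr 62 46 (.dbl 2 10 42))))))))) (.rp 54 (.thr 26 31 (.thr 30 18 (.thr 52 36 (.thr 7 37 (.thr 6 5 (.thr 38 55 (.thr 14 50 (.thr 62 46 (.dbl 2 10 42))))))))) (.rp 52 (.thr 26 31 (.thr 30 18 (.thr 38 55 (.thr 14 50 (.thr 62 46 (.thr 2 42 (.dbl 6 10 54))))))) (.rp 38 (.str 25 (.nv (.thr 17 29 (.thr 18 19 (.dbl 26 30 31))) (.rp 63 (.thr 29 17 (.thr 52 36 (.thr 37 7 (.thr 5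 53 (.thr 13 49 (.thr 1 9 (.dbl 61 41 45))))))) (.rp 46 (.thr 29 17 (.thr 52 36 (.thr 37 7 (.thr 5 53 (.thr 13 49 (.thr 1 9 (.dbl 61 41 45))))))) (.rp 31 (.thr 29 17 (.thr 52 36 (.thr 37 7 (.thr 5 53 (.thr 13 49 (.thr 1 9 (.dbl 61 41 45))))))) (.rp 30 (.thr 29 17 (.thr 52 36 (.thr 37 7 (.thr 5 53 (.thr 13 49 (.thr 1 9 (.dbl 61 41 45))))))) (.rp 29 (.thr 52 36 (.thr 37 7 (.thr 53 5 (.thr 49 13 (.thr 61 57 (.thr 1 41 (.thr 17 33 (.thr 18 19 (.dbl 26 30 31))))))))) (.rp 27 (.thr 29 17 (.thr 52 36 (.thr 37 7 (.thr 5 53 (.thr 13 49 (.thr 1 9 (.dbl 61 41 45))))))) (.rp 26 (.thr 29 17 (.thr 52 36 (.thr 37 7 (.thr 5 53 (.thr 13 49 (.thr 1 9 (.dbl 61 41 45))))))) (.rp 19 (.thr 29 17 (.thr 52 36 (.thr 37 7 (.thr 5 53 (.thr 13 49 (.thr 1 9 (.dbl 61 41 45))))))) (.rp 18 (.thr 29 17 (.thr 52 36 (.thr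 37 7 (.thr 5 53 (.thr 13 49 (.thr 1 9 (.dbl 61 41 45))))))) (.rp 17 (.str 42 (.nv (.thr 8 59 (.thr 36 52 (.thr 40 32 (.thr 41 43 (.thr 56 24 (.dbl 26 11 31)))))) (.nv (.thr 8 59 (.thr 26 31 (.thr 10 58 (.thr 11 9 (.thr 56 41 (.dbl 24 27 40)))))) (.nv (.thr 2 62 (.thr 26 31 (.thr 30 18 (.thr 10 58 (.thr 6 14 (.thr 7 5 (.dbl 52 36 37))))))) (.nv (.thr 26 31 (.thr 8 59 (.thr 36 52 (.thr 40 32 (.dbl 24 27 56))))) (.rp 51 (.str 34 (.nv (.thr 8 59 (.thr 26 31 (.thr 36 52 (.thr 40 32 (.dbl 24 27 56))))) (.nv (.thr 2 62 (.thr 18 50 (.dbl 26 30 31))) (.rp 63 (.thr 36 52 (.thr 40 32 (.thr 59 8 (.thr 26 31 (.thr 27 24 (.dbl 43 11 41)))))) (.rp 57 (.str 54 (.nv (.thr 2 62 (.thr 26 31 (.dbl 18 30 50))) (.nv (.thr 52 36 (.thr 37 7 (.dbl 53 5 55))) .nd))) (.rp 54 (.str 57 (.nv (.thr 26 31 (.thr 58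 10 (.dbl 59 8 56))) (.nv (.thr 41 9 (.thr 40 43 (.dbl 36 32 52))) .nd))) (.rp 48 (.thr 2 62 (.thr 26 31 (.dbl 18 30 50))) (.rp 31 (.thr 36 52 (.thr 40 32 (.thr 8 59 (.thr 56 24 (.thr 41 43 (.thr 11 26 (.dbl 9 10 57))))))) (.rp 30 (.thr 36 52 (.thr 40 32 (.thr 8 59 (.thr 56 24 (.thr 41 43 (.dbl 26 11 31)))))) (.rp 26 (.thr 52 36 (.thr 37 7 (.thr 53 5 (.thr 49 13 (.thr 57 61 (.thr 32 47 (.thr 33 35 (.dbl 41 9 45)))))))) .nd)))))))))) (.rp 34 (.str 51 (.nv (.thr 26 31 (.thr 36 52 (.thr 32 40 (.thr 37 47 (.thr 49 13 (.dbl 48 15 50)))))) (.nv (.thr 8 59 (.thr 26 31 (.thr 10 58 (.thr 11 9 (.thr 56 41 (.dbl 24 27 40)))))) (.nv (.thr 52 36 (.thr 37 7 (.thr 53 5 (.thr 55 54 (.dbl 59 8 63))))) .nd)))) (.rp 31 (.thr 8 59 (.thr 36 52 (.thr 40 32 (.thr 41 43 (.thr 9 57 (.thr 11 10 (.dbl 56 24 26)))))))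 (.rp 27 (.thr 62 2 (.thr 36 52 (.thr 32 40 (.thr 47 37 (.thr 46 45 (.thr 30 14 (.dbl 26 18 31))))))) (.rp 26 (.thr 52 36 (.thr 37 7 (.thr 47 32 (.thr 45 46 (.thr 41 33 (.thr 1 61 (.thr 9 57 (.dbl 13 5 49)))))))) .nd)))))))))) .nd)))))))))))) (.rp 37 (.thr 26 31 (.thr 30 18 (.thr 38 55 (.thr 6 54 (.thr 14 50 (.thr 2 10 (.dbl 62 42 46))))))) (.rp 36 (.thr 26 31 (.thr 30 18 (.thr 38 55 (.thr 6 54 (.thr 14 50 (.thr 2 10 (.dbl 62 42 46))))))) (.rp 7 (.thr 26 31 (.thr 30 18 (.thr 36 52 (.thr 38 55 (.thr 39 37 (.thr 35 41 (.thr 47 43 (.thr 14 50 (.dbl 46 45 62))))))))) (.rp 6 (.thr 52 36 (.thr 37 7 (.thr 53 5 (.dbl 55 38 54)))) (.rp 5 (.thr 26 31 (.thr 30 18 (.thr 38 55 (.thr 6 54 (.thr 14 50 (.thr 62 46 (.dbl 2 10 42))))))) .nd)))))))))))) (.rp 7 (.thr 26 31 (.thr 30 18 (.thr 36 52 (.thr 38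 55 (.thr 39 37 (.thr 14 50 (.thr 62 46 (.thr 2 42 (.dbl 6 10 54))))))))) (.rp 6 (.thr 52 36 (.thr 37 7 (.thr 53 5 (.dbl 55 38 54)))) (.rp 5 (.thr 26 31 (.thr 30 18 (.thr 38 55 (.thr 6 54 (.thr 14 50 (.thr 62 46 (.dbl 2 10 42))))))) .nd))))))))))))) (.rp 26 (.str 37 (.nv (.thr 52 7 (.thr 4 36 (.thr 55 38 (.dbl 53 5 54)))) (.nv (.thr 53 5 (.thr 52 7 (.thr 4 36 (.dbl 55 38 54)))) (.rp 55 (.thr 5 53 (.thr 28 24 (.thr 25 19 (.thr 29 17 (.thr 13 49 (.thr 61 45 (.dbl 1 9 41))))))) (.rp 54 (.thr 5 53 (.thr 28 24 (.thr 25 19 (.thr 29 17 (.thr 13 49 (.thr 61 45 (.dbl 1 9 41))))))) (.rp 53 (.str 4 (.nv (.dbl 52 7 36) (.rp 52 (.thr 28 24 (.thr 25 19 (.thr 29 17 (.thr 13 49 (.thr 61 45 (.thr 1 41 (.thr 5 9 (.thr 6 7 (.dbl 38 54 55))))))))) (.rp 36 (.thr 7 52 (.thr 6 5 (.dbl 38 54 55))) (.rp 7 (.thr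 36 52 (.dbl 38 39 55)) .nd))))) (.rp 52 (.thr 5 53 (.thr 28 24 (.thr 25 19 (.thr 29 17 (.thr 13 49 (.thr 61 45 (.dbl 1 9 41))))))) (.rp 39 (.thr 53 5 (.thr 52 7 (.thr 55 54 (.dbl 4 36 38)))) (.rp 38 (.thr 5 53 (.thr 28 24 (.thr 25 19 (.thr 29 17 (.thr 13 49 (.thr 61 45 (.dbl 1 9 41))))))) (.rp 36 (.thr 5 53 (.thr 28 24 (.thr 25 19 (.thr 29 17 (.thr 13 49 (.thr 61 45 (.dbl 1 9 41))))))) (.rp 7 (.thr 5 53 (.thr 28 24 (.thr 25 19 (.thr 29 17 (.thr 13 49 (.thr 61 45 (.dbl 1 9 41))))))) (.rp 5 (.thr 52 7 (.thr 4 36 (.thr 55 38 (.thr 53 54 (.thr 28 24 (.thr 25 19 (.thr 17 29 (.thr 49 13 (.thr 1 33 (.dbl 61 41 57)))))))))) (.rp 4 (.thr 5 53 (.thr 28 24 (.thr 25 19 (.thr 29 17 (.thr 13 49 (.thr 61 45 (.dbl 1 9 41))))))) .nd))))))))))))) (.rp 25 (.str 38 (.nv (.thr 6 54 (.thr 4 55 (.thr 7 5 (.dbl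 52 36 37)))) (.nv (.thr 4 55 (.thr 52 36 (.thr 7 37 (.dbl 6 5 54)))) (.rp 55 (.thr 6 54 (.thr 26 31 (.thr 30 18 (.thr 14 50 (.thr 62 46 (.dbl 2 10 42)))))) (.rp 54 (.thr 4 55 (.thr 52 36 (.thr 7 37 (.thr 6 5 (.thr 26 31 (.thr 30 18 (.thr 14 50 (.thr 62 46 (.dbl 2 10 42))))))))) (.rp 52 (.thr 6 54 (.thr 26 31 (.thr 30 18 (.thr 14 50 (.thr 62 46 (.dbl 2 10 42)))))) (.rp 37 (.thr 6 54 (.thr 26 31 (.thr 30 18 (.thr 14 50 (.thr 62 46 (.dbl 2 10 42)))))) (.rp 36 (.thr 6 54 (.thr 26 31 (.thr 30 18 (.thr 14 50 (.thr 62 46 (.dbl 2 10 42)))))) (.rp 7 (.thr 6 54 (.thr 26 31 (.thr 30 18 (.thr 14 50 (.thr 62 46 (.dbl 2 10 42)))))) (.rp 6 (.str 53 (.nv (.thr 55 4 (.thr 52 54 (.dbl 37 5 7))) (.nv (.thr 4 55 (.thr 52 36 (.dbl 37 5 7))) (.rp 55 (.thr 37 5 (.thr 7 52 (.thr 36 39 (.thr 24 28 (.thr 26 31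 (.dbl 48 12 15)))))) (.rp 52 (.thr 37 5 (.thr 36 39 (.thr 24 28 (.thr 26 31 (.dbl 48 12 15))))) (.rp 37 (.thr 55 4 (.thr 54 52 (.thr 26 31 (.thr 18 30 (.thr 50 14 (.thr 2 34 (.dbl 62 42 58))))))) (.rp 7 (.thr 26 31 (.thr 18 30 (.thr 50 14 (.thr 2 34 (.thr 62 42 (.thr 54 58 (.dbl 55 4 52))))))) (.rp 5 (.thr 26 31 (.thr 18 30 (.thr 50 14 (.thr 2 34 (.thr 62 42 (.thr 54 58 (.dbl 55 4 52))))))) (.rp 4 (.thr 37 5 (.thr 7 52 (.thr 36 39 (.thr 24 28 (.thr 26 31 (.dbl 48 12 15)))))) .nd))))))))) (.rp 5 (.thr 6 54 (.thr 26 31 (.thr 30 18 (.thr 14 50 (.thr 62 46 (.dbl 2 10 42)))))) (.rp 4 (.thr 6 54 (.thr 26 31 (.thr 30 18 (.thr 14 50 (.thr 62 46 (.dbl 2 10 42)))))) .nd)))))))))))) (.rp 24 (.str 4 (.nv (.thr 38 55 (.thr 6 54 (.thr 7 5 (.dbl 52 36 37)))) (.nv (.thr 52 36 (.thr 7 37 (.thr 38 55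 (.dbl 6 5 54)))) (.rp 55 (.thr 26 31 (.thr 30 18 (.thr 52 36 (.thr 7 37 (.thr 6 5 (.thr 38 54 (.thr 14 50 (.thr 62 46 (.dbl 2 10 42))))))))) (.rp 54 (.thr 26 31 (.thr 30 18 (.thr 52 36 (.thr 7 37 (.thr 6 5 (.thr 38 55 (.thr 14 50 (.thr 62 46 (.dbl 2 10 42))))))))) (.rp 52 (.thr 26 31 (.thr 18 30 (.thr 38 55 (.thr 54 6 (.thr 50 14 (.thr 62 58 (.dbl 2 34 42))))))) (.rp 38 (.str 17 (.nv (.thr 18 19 (.dbl 26 30 31)) (.nv (.thr 19 18 (.dbl 25 28 29)) (.rp 19 (.thr 25 29 (.thr 52 36 (.thr 37 7 (.thr 53 5 (.thr 49 13 (.thr 61 57 (.dbl 1 33 41))))))) (.rp 18 (.thr 25 29 (.thr 52 36 (.thr 37 7 (.thr 53 5 (.thr 49 13 (.thr 61 57 (.dbl 1 33 41))))))) .nd))))) (.rp 37 (.thr 26 31 (.thr 18 30 (.thr 38 55 (.thr 54 6 (.thr 50 14 (.thr 62 58 (.dbl 2 34 42))))))) (.rp 36 (.thr 26 31 (.thr 18 30 (.thr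 38 55 (.thr 54 6 (.thr 50 14 (.thr 62 58 (.dbl 2 34 42))))))) (.rp 7 (.thr 26 31 (.thr 18 30 (.thr 36 52 (.thr 38 55 (.thr 39 37 (.thr 54 6 (.thr 50 14 (.thr 62 58 (.dbl 2 34 42))))))))) (.rp 6 (.thr 52 36 (.thr 37 7 (.thr 53 5 (.dbl 55 38 54)))) (.rp 5 (.thr 26 31 (.thr 18 30 (.thr 38 55 (.thr 54 6 (.thr 50 14 (.thr 62 58 (.dbl 2 34 42))))))) .nd)))))))))))) (.rp 19 (.str 4 (.nv (.thr 31 26 (.thr 52 36 (.thr 37 7 (.thr 53 5 (.dbl 55 38 54))))) (.nv (.thr 52 36 (.thr 7 37 (.thr 38 55 (.dbl 6 5 54)))) (.rp 55 (.thr 24 28 (.thr 26 31 (.thr 27 25 (.thr 30 18 (.thr 52 36 (.thr 7 37 (.thr 6 5 (.thr 38 54 (.thr 14 50 (.thr 62 46 (.dbl 2 10 42))))))))))) (.rp 54 (.thr 28 24 (.thr 31 26 (.thr 29 30 (.thr 25 17 (.thr 52 36 (.thr 37 7 (.thr 5 53 (.thr 13 49 (.thr 1 9 (.dbl 61 41 45)))))))))) (.rp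 52 (.thr 24 28 (.thr 26 31 (.thr 27 25 (.thr 30 18 (.thr 38 55 (.thr 14 50 (.thr 62 46 (.thr 2 42 (.dbl 6 10 54))))))))) (.rp 38 (.thr 28 24 (.thr 31 26 (.thr 29 30 (.thr 25 17 (.thr 52 36 (.thr 37 7 (.thr 5 53 (.thr 13 49 (.thr 1 9 (.dbl 61 41 45)))))))))) (.rp 37 (.thr 24 28 (.thr 26 31 (.thr 27 25 (.thr 30 18 (.thr 38 55 (.thr 6 54 (.thr 14 50 (.thr 2 10 (.dbl 62 42 46))))))))) (.rp 36 (.thr 24 28 (.thr 26 31 (.thr 27 25 (.thr 30 18 (.thr 38 55 (.thr 6 54 (.thr 14 50 (.thr 2 10 (.dbl 62 42 46))))))))) (.rp 31 (.str 27 (.nv (.thr 24 28 (.thr 25 26 (.thr 36 52 (.thr 38 55 (.dbl 12 48 51))))) (.nv (.thr 52 36 (.thr 7 37 (.thr 38 55 (.dbl 6 5 54)))) (.rp 55 (.thr 24 28 (.thr 26 25 (.thr 30 18 (.thr 52 36 (.thr 7 37 (.thr 6 5 (.thr 38 54 (.thr 14 50 (.thr 62 46 (.dbl 2 10 42))))))))))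 (.rp 54 (.thr 24 28 (.thr 25 26 (.thr 29 17 (.thr 52 36 (.thr 37 7 (.thr 5 53 (.thr 13 49 (.thr 1 9 (.dbl 61 41 45))))))))) (.rp 52 (.thr 24 28 (.thr 26 25 (.thr 30 18 (.thr 38 55 (.thr 14 50 (.thr 62 46 (.thr 2 42 (.dbl 6 10 54)))))))) (.rp 38 (.thr 24 28 (.thr 25 26 (.thr 29 17 (.thr 52 36 (.thr 37 7 (.thr 5 53 (.thr 13 49 (.thr 1 9 (.dbl 61 41 45))))))))) (.rp 36 (.thr 24 28 (.thr 26 25 (.thr 30 18 (.thr 38 55 (.thr 6 54 (.thr 14 50 (.thr 2 10 (.dbl 62 42 46)))))))) (.rp 7 (.thr 24 28 (.thr 25 26 (.thr 36 52 (.thr 38 55 (.thr 39 37 (.dbl 12 48 51)))))) .nd))))))))) (.rp 7 (.thr 24 28 (.thr 26 31 (.thr 27 25 (.thr 36 52 (.thr 38 55 (.thr 39 37 (.thr 15 51 (.thr 14 50 (.dbl 12 13 48))))))))) (.rp 5 (.thr 24 28 (.thr 26 31 (.thr 27 25 (.thr 30 18 (.thr 38 55 (.thr 6 54 (.thr 14 50 (.thr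 62 46 (.dbl 2 10 42))))))))) .nd)))))))))))) (.rp 18 (.thr 28 24 (.thr 25 19 (.thr 29 17 (.dbl 31 26 30)))) (.rp 17 (.str 38 (.nv (.thr 4 55 (.thr 52 36 (.thr 7 37 (.dbl 6 5 54)))) (.rp 55 (.thr 6 54 (.thr 26 31 (.thr 30 18 (.thr 14 50 (.thr 62 46 (.dbl 2 10 42)))))) (.rp 54 (.thr 4 55 (.thr 52 36 (.thr 7 37 (.thr 6 5 (.thr 26 31 (.thr 30 18 (.thr 14 50 (.thr 62 46 (.dbl 2 10 42))))))))) (.rp 52 (.thr 6 54 (.thr 26 31 (.thr 30 18 (.thr 14 50 (.thr 62 46 (.dbl 2 10 42)))))) (.rp 51 (.str 34 (.nv (.thr 4 55 (.thr 52 36 (.thr 7 37 (.dbl 6 5 54)))) (.nv (.thr 26 31 (.thr 50 14 (.dbl 18 2 30))) (.rp 57 (.thr 54 6 (.thr 26 31 (.thr 18 30 (.dbl 50 2 14)))) (.rp 54 (.str 57 (.nv (.thr 42 46 (.thr 2 62 (.thr 50 18 (.dbl 26 14 31)))) (.nv (.thr 26 31 (.thr 50 14 (.dbl 18 2 30))) (.rp 50 (.thr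 42 46 (.thr 24 28 (.thr 26 31 (.thr 58 10 (.thr 59 56 (.dbl 25 8 27)))))) (.rp 31 (.thr 4 55 (.thr 52 36 (.thr 7 37 (.thr 6 5 (.thr 42 46 (.thr 2 62 (.thr 50 18 (.dbl 14 10 26)))))))) (.rp 30 (.thr 26 31 (.thr 50 14 (.thr 2 18 (.dbl 42 46 62)))) (.rp 26 (.thr 4 55 (.thr 52 36 (.thr 28 24 (.thr 25 19 (.thr 41 9 (.thr 61 1 (.thr 49 53 (.dbl 37 7 13)))))))) (.rp 18 (.thr 42 46 (.thr 24 28 (.thr 26 31 (.thr 58 10 (.thr 59 56 (.dbl 25 8 27)))))) (.rp 14 (.thr 26 31 (.thr 18 30 (.thr 2 50 (.dbl 42 46 62)))) (.rp 2 (.thr 46 42 (.thr 26 31 (.thr 30 18 (.dbl 14 50 62)))) .nd)))))))))) .nd))))) (.rp 39 (.thr 6 54 (.thr 4 55 (.thr 7 5 (.dbl 52 36 37)))) (.rp 37 (.thr 6 54 (.thr 26 31 (.thr 30 18 (.thr 14 50 (.thr 62 46 (.dbl 2 10 42)))))) (.rp 36 (.thr 6 54 (.thr 26 31 (.thr 30 18 (.thr 14 50 (.thr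 62 46 (.dbl 2 10 42)))))) (.rp 34 (.str 51 (.nv (.thr 4 55 (.thr 6 54 (.thr 7 5 (.dbl 52 36 37)))) (.nv (.thr 28 24 (.dbl 25 12 19)) .nd))) (.rp 7 (.thr 6 54 (.thr 26 31 (.thr 30 18 (.thr 14 50 (.thr 62 46 (.dbl 2 10 42)))))) (.rp 6 (.thr 4 55 (.thr 36 52 (.thr 39 37 (.thr 24 28 (.thr 26 31 (.thr 50 14 (.thr 27 25 (.thr 51 15 (.dbl 48 12 49))))))))) (.rp 5 (.thr 6 54 (.thr 26 31 (.thr 30 18 (.thr 14 50 (.thr 62 46 (.dbl 2 10 42)))))) (.rp 4 (.thr 6 54 (.thr 26 31 (.thr 30 18 (.thr 14 50 (.thr 62 46 (.dbl 2 10 42)))))) .nd)))))))))))))) .nd)))))))))))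

theorem w85 : WinAt (7340032, 1152921504615235585) :=
  chF (K := []) kn c85 7340032 1152921504615235585 23
    [] (by decide +kernel) (by decide +kernel)

/-- A certificate. -/
noncomputable def c86 : Ct := (.str 16 (.nv (.thr 28 24 (.thr 19 25 (.thr 26 31 (.dbl 18 17 30)))) (.rp 31 (.thr 28 24 (.thr 19 25 (.thr 18 17 (.thr 26 30 (.str 37 (.nv (.thr 48 15 (.thr 3 33 (.thr 60 41 (.dbl 52 7 56)))) (.nv (.thr 52 7 (.thr 4 36 (.thr 55 38 (.dbl 53 5 54)))) (.rp 52 (.str 50 (.nv (.thr 48 15 (.thr 3 33 (.dbl 51 35 49))) (.nv (.thr 38 14 (.thr 54 6 (.thr 62 58 (.dbl 2 34 42)))) (.rp 51 (.thr 34 2 (.thr 48 15 (.thr 3 33 (.thr 60 41 (.thr 38 14 (.thr 6 54 (.dbl 12 9 44))))))) (.rp 34 (.str 51 (.nv (.thr 3 35 (.thr 33 48 (.dbl 41 45 60))) (.nv (.dbl 48 15 49) (.rp 48 (.thr 3 35 (.thr 60 41 (.thr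 38 14 (.dbl 54 6 57)))) .nd)))) (.rp 10 (.thr 48 15 (.thr 5 53 (.thr 3 33 (.dbl 51 35 49)))) .nd)))))) (.rp 51 (.str 34 (.nv (.thr 2 50 (.thr 42 62 (.thr 32 47 (.thr 33 35 (.dbl 48 3 15))))) (.nv (.thr 53 5 (.thr 52 7 (.thr 55 54 (.dbl 4 36 38)))) (.nv (.thr 50 2 (.thr 52 7 (.thr 4 36 (.dbl 38 14 55)))) (.rp 38 (.str 12 (.nv (.thr 5 53 (.thr 7 52 (.thr 6 4 (.thr 3 9 (.dbl 60 41 44))))) (.nv (.thr 48 15 (.thr 3 33 (.dbl 60 41 44))) (.nv (.thr 5 53 (.thr 7 52 (.thr 6 4 (.thr 3 9 (.dbl 15 11 48))))) (.nv (.thr 52 7 (.thr 60 44 (.dbl 48 15 56))) (.rp 41 (.thr 48 15 (.thr 52 7 (.dbl 60 44 56))) .nd)))))) (.rp 12 (.str 38 (.nv (.thr 4 55 (.dbl 36 39 52)) (.nv (.dbl 50 2 14) (.rp 48 (.thr 36 39 (.dbl 50 2 14)) (.rp 36 (.thr 48 15 (.dbl 50 2 14)) (.rp 4 (.str 8 (.nv (.dbl 50 2 14) (.rp 50 (.thr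 42 46 (.thr 32 47 (.thr 33 35 (.dbl 48 3 15)))) (.rp 48 (.thr 36 39 (.dbl 50 2 14)) (.rp 36 (.thr 48 15 (.dbl 50 2 14)) (.rp 14 (.thr 2 50 (.dbl 42 46 62)) (.rp 2 (.thr 42 46 (.thr 32 47 (.thr 33 35 (.dbl 48 3 15)))) .nd))))))) .nd)))))) .nd)))))) (.rp 48 (.thr 52 7 (.thr 53 5 (.thr 55 54 (.dbl 4 36 38)))) (.rp 34 (.str 51 (.nv (.thr 52 7 (.thr 53 5 (.thr 55 54 (.dbl 4 36 38)))) (.nv (.thr 3 35 (.dbl 48 15 33)) (.rp 15 (.thr 3 35 (.thr 33 48 (.dbl 41 45 60))) .nd)))) (.rp 7 (.thr 48 15 (.thr 3 33 (.thr 60 41 (.thr 52 56 (.thr 4 36 (.thr 55 38 (.dbl 53 5 54))))))) (.rp 5 (.thr 15 48 (.thr 7 52 (.thr 3 11 (.thr 60 41 (.thr 12 44 (.thr 14 13 (.thr 38 50 (.dbl 6 9 54)))))))) .nd))))))))))))) (.rp 30 (.str 4 (.nv (.thr 24 28 (.thr 36 52 (.thr 12 48 (.thr 38 55 (.thr 25 51 (.dbl 26 27 31))))))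 (.nv (.thr 52 36 (.thr 7 37 (.thr 38 55 (.dbl 6 5 54)))) (.rp 55 (.thr 28 24 (.thr 25 19 (.thr 52 36 (.thr 7 37 (.thr 6 5 (.thr 38 54 (.thr 12 51 (.thr 3 9 (.dbl 60 41 44))))))))) (.rp 54 (.thr 28 24 (.thr 19 25 (.thr 18 17 (.thr 26 31 (.thr 52 36 (.thr 37 7 (.thr 48 15 (.thr 60 56 (.dbl 3 33 41))))))))) (.rp 52 (.thr 28 24 (.thr 25 19 (.thr 38 55 (.thr 12 51 (.thr 60 44 (.thr 3 41 (.dbl 6 9 54))))))) (.rp 38 (.thr 28 24 (.thr 19 25 (.thr 18 17 (.thr 26 31 (.thr 52 36 (.thr 37 7 (.thr 48 15 (.thr 60 56 (.dbl 3 33 41))))))))) (.rp 36 (.thr 28 24 (.thr 25 19 (.thr 38 55 (.thr 6 54 (.thr 12 51 (.thr 3 9 (.dbl 60 41 44))))))) (.rp 7 (.thr 24 28 (.thr 36 52 (.thr 12 48 (.thr 38 55 (.thr 39 37 (.thr 25 51 (.dbl 26 27 31))))))) .nd))))))))) (.rp 28 (.str 4 (.nv (.thr 52 36 (.thr 7 37 (.thr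 38 55 (.dbl 6 5 54)))) (.rp 55 (.thr 26 31 (.thr 30 18 (.thr 52 36 (.thr 7 37 (.thr 6 5 (.thr 38 54 (.thr 14 50 (.thr 62 46 (.dbl 2 10 42))))))))) (.rp 54 (.thr 26 31 (.thr 52 36 (.thr 37 7 (.thr 48 15 (.thr 60 56 (.thr 3 41 (.dbl 18 30 33))))))) (.rp 52 (.thr 26 31 (.thr 30 18 (.thr 38 55 (.thr 14 50 (.thr 62 46 (.thr 2 42 (.dbl 6 10 54))))))) (.rp 38 (.thr 26 31 (.thr 52 36 (.thr 37 7 (.thr 48 15 (.thr 60 56 (.thr 3 41 (.dbl 18 30 33))))))) (.rp 37 (.thr 26 31 (.thr 30 18 (.thr 38 55 (.thr 6 54 (.thr 14 50 (.thr 2 10 (.dbl 62 42 46))))))) (.rp 36 (.thr 26 31 (.thr 30 18 (.thr 38 55 (.thr 6 54 (.thr 14 50 (.thr 2 10 (.dbl 62 42 46))))))) (.rp 7 (.thr 26 31 (.thr 30 18 (.thr 36 52 (.thr 38 55 (.thr 39 37 (.thr 14 50 (.thr 62 46 (.thr 2 42 (.dbl 6 10 54))))))))) (.rp 6 (.thr 52 36 (.thr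 37 7 (.thr 53 5 (.dbl 55 38 54)))) (.rp 5 (.thr 26 31 (.thr 30 18 (.thr 38 55 (.thr 6 54 (.thr 14 50 (.thr 62 46 (.dbl 2 10 42))))))) .nd))))))))))) (.rp 26 (.str 38 (.nv (.thr 6 54 (.thr 28 24 (.thr 25 19 (.thr 12 51 (.thr 3 9 (.dbl 60 41 44)))))) (.nv (.thr 4 55 (.thr 6 54 (.thr 52 36 (.dbl 7 5 37)))) (.rp 54 (.thr 4 55 (.thr 52 36 (.thr 7 37 (.thr 6 5 (.thr 28 24 (.thr 25 19 (.thr 12 51 (.thr 60 44 (.dbl 3 9 41))))))))) (.rp 6 (.thr 4 55 (.thr 36 52 (.thr 28 24 (.thr 25 19 (.thr 12 51 (.thr 44 60 (.thr 35 41 (.thr 32 40 (.thr 34 33 (.thr 29 17 (.dbl 46 42 63))))))))))) .nd))))) (.rp 25 (.str 4 (.nv (.thr 24 28 (.thr 26 31 (.thr 36 52 (.thr 48 12 (.thr 37 15 (.dbl 38 39 55)))))) (.nv (.thr 38 55 (.thr 6 54 (.thr 52 36 (.dbl 7 5 37)))) (.rp 55 (.thr 26 31 (.thr 30 18 (.thr 52 36 (.thr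 7 37 (.thr 6 5 (.thr 38 54 (.thr 14 50 (.thr 62 46 (.dbl 2 10 42))))))))) (.rp 52 (.thr 26 31 (.thr 18 30 (.thr 38 55 (.thr 54 6 (.thr 50 14 (.thr 62 58 (.dbl 2 34 42))))))) (.rp 39 (.thr 52 36 (.thr 7 37 (.thr 38 55 (.dbl 6 5 54)))) (.rp 38 (.thr 26 31 (.thr 18 30 (.thr 52 36 (.thr 37 7 (.thr 48 15 (.thr 60 56 (.dbl 3 33 41))))))) (.rp 37 (.thr 26 31 (.thr 18 30 (.thr 38 55 (.thr 54 6 (.thr 50 14 (.thr 62 58 (.dbl 2 34 42))))))) (.rp 36 (.thr 26 31 (.thr 18 30 (.thr 38 55 (.thr 54 6 (.thr 50 14 (.thr 62 58 (.dbl 2 34 42))))))) (.rp 5 (.thr 24 28 (.thr 26 31 (.thr 36 52 (.thr 48 12 (.thr 38 55 (.dbl 37 15 39)))))) .nd)))))))))) (.rp 24 (.str 4 (.nv (.thr 38 55 (.thr 6 54 (.thr 7 5 (.dbl 52 36 37)))) (.nv (.thr 52 36 (.thr 7 37 (.thr 38 55 (.dbl 6 5 54)))) (.rp 55 (.thr 26 31 (.thr 30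 18 (.thr 52 36 (.thr 7 37 (.thr 6 5 (.thr 38 54 (.thr 14 50 (.thr 62 46 (.dbl 2 10 42))))))))) (.rp 54 (.thr 26 31 (.thr 18 30 (.thr 52 36 (.thr 37 7 (.thr 48 15 (.thr 60 56 (.dbl 3 33 41))))))) (.rp 52 (.thr 26 31 (.thr 18 30 (.thr 38 55 (.thr 54 6 (.thr 50 14 (.thr 62 58 (.dbl 2 34 42))))))) (.rp 38 (.thr 26 31 (.thr 18 30 (.thr 52 36 (.thr 37 7 (.thr 48 15 (.thr 60 56 (.dbl 3 33 41))))))) (.rp 37 (.thr 26 31 (.thr 18 30 (.thr 38 55 (.thr 54 6 (.thr 50 14 (.thr 62 58 (.dbl 2 34 42))))))) (.rp 36 (.thr 26 31 (.thr 18 30 (.thr 38 55 (.thr 54 6 (.thr 50 14 (.thr 62 58 (.dbl 2 34 42))))))) (.rp 7 (.thr 26 31 (.thr 18 30 (.thr 36 52 (.thr 38 55 (.thr 39 37 (.thr 54 6 (.thr 50 14 (.thr 62 58 (.dbl 2 34 42))))))))) (.rp 6 (.thr 52 36 (.thr 37 7 (.thr 53 5 (.dbl 55 38 54)))) (.rp 5 (.thr 26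 31 (.thr 18 30 (.thr 38 55 (.thr 54 6 (.thr 50 14 (.thr 62 58 (.dbl 2 34 42))))))) .nd)))))))))))) (.rp 19 (.thr 24 28 (.thr 26 31 (.thr 27 25 (.thr 30 18 (.str 48 (.nv (.thr 36 12 (.thr 4 52 (.thr 38 55 (.dbl 37 15 39)))) (.nv (.thr 15 37 (.thr 60 45 (.thr 56 52 (.dbl 41 3 11)))) (.rp 60 (.thr 37 15 (.thr 52 7 (.dbl 36 4 12))) (.rp 52 (.thr 15 37 (.thr 51 39 (.thr 60 45 (.thr 54 57 (.thr 38 6 (.dbl 50 14 49)))))) (.rp 37 (.thr 36 12 (.thr 4 52 (.thr 38 55 (.thr 14 50 (.thr 62 46 (.thr 2 42 (.dbl 6 10 54))))))) (.rp 15 (.thr 36 12 (.thr 4 52 (.thr 38 55 (.thr 14 50 (.thr 62 46 (.thr 2 42 (.dbl 6 10 54))))))) .nd))))))))))) (.rp 18 (.thr 28 24 (.thr 25 19 (.thr 29 17 (.dbl 31 26 30)))) (.rp 17 (.thr 26 31 (.thr 24 28 (.thr 30 18 (.thr 27 25 (.str 38 (.nv (.thr 4 55 (.thr 36 52 (.thr 48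 12 (.dbl 37 15 39)))) (.nv (.thr 14 50 (.thr 62 46 (.thr 6 54 (.dbl 2 10 42)))) (.rp 54 (.thr 14 50 (.thr 62 46 (.thr 4 55 (.thr 52 36 (.thr 7 37 (.thr 6 5 (.dbl 2 10 42))))))) (.rp 51 (.str 34 (.nv (.thr 4 55 (.thr 6 54 (.thr 7 5 (.dbl 52 36 37)))) (.nv (.thr 46 42 (.dbl 14 50 62)) (.rp 59 (.thr 14 50 (.dbl 46 42 62)) .nd)))) (.rp 34 (.str 51 (.nv (.thr 4 55 (.thr 6 54 (.thr 52 36 (.dbl 7 5 37)))) (.nv (.thr 6 54 (.thr 14 50 (.thr 2 10 (.dbl 62 42 46)))) (.nv (.thr 50 14 (.thr 15 39 (.dbl 48 37 49))) (.rp 50 (.str 2 (.nv (.thr 15 39 (.thr 48 37 (.thr 36 12 (.dbl 4 52 55)))) (.nv (.thr 6 54 (.thr 10 14 (.dbl 42 58 62))) .nd))) .nd))))) .nd)))))))))) .nd)))))))))))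

theorem w86 : WinAt (7340032, 2305843009222082561) :=
  chF (K := []) kn c86 7340032 2305843009222082561 23
    [] (by decide +kernel) (by decide +kernel)

/-- A certificate. -/
noncomputable def c87 : Ct := (.str 28 (.nv (.thr 16 24 (.thr 31 26 (.thr 25 19 (.dbl 29 17 30)))) (.rp 31 (.thr 19 25 (.str 3 (.nv (.thr 16 24 (.thr 18 17 (.thr 26 30 (.thr 48 33 (.thr 15 37 (.thr 11 7 (.dbl 41 56 60))))))) (.nv (.thr 16 24 (.thr 18 17 (.thr 51 35 (.thr 26 30 (.thr 41 60 (.thr 11 56 (.thr 15 7 (.dbl 48 33 37)))))))) (.nv (.thr 35 51 (.thr 41 60 (.thr 38 44 (.thr 4 55 (.thr 52 36 (.thr 7 37 (.dbl 6 5 54))))))) (.nv (.thr 16 24 (.thr 18 17 (.thr 26 30 (.thr 48 33 (.thr 15 37 (.thr 41 60 (.dbl 11 7 56))))))) (.rp 60 (.thr 16 24 (.thr 18 17 (.thr 26 30 (.thr 33 48 (.thr 35 51 (.thr 34 32 (.thr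 50 2 (.thr 38 14 (.thr 46 42 (.thr 4 55 (.thr 41 44 (.thr 36 52 (.thr 56 11 (.dbl 37 39 45)))))))))))))) (.rp 51 (.thr 24 16 (.thr 60 41 (.thr 12 44 (.thr 48 36 (.thr 52 56 (.thr 37 7 (.thr 26 15 (.dbl 18 30 33)))))))) (.rp 41 (.thr 16 24 (.thr 18 17 (.thr 26 30 (.thr 48 33 (.thr 37 15 (.thr 52 7 (.thr 4 36 (.thr 55 38 (.dbl 53 5 54))))))))) (.rp 37 (.thr 16 24 (.thr 18 17 (.thr 26 30 (.thr 33 48 (.thr 35 51 (.thr 34 32 (.thr 50 2 (.thr 41 60 (.dbl 38 14 44))))))))) (.rp 17 (.thr 24 16 (.thr 60 41 (.thr 12 44 (.thr 48 36 (.thr 52 56 (.thr 37 7 (.thr 26 15 (.dbl 18 30 33)))))))) (.rp 7 (.thr 16 24 (.thr 18 17 (.thr 26 30 (.thr 33 48 (.thr 35 51 (.thr 34 32 (.thr 50 2 (.thr 41 60 (.dbl 38 14 44))))))))) .nd)))))))))))) (.rp 30 (.thr 25 19 (.thr 16 24 (.thr 31 26 (.str 38 (.nv (.thr 12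 51 (.thr 60 44 (.thr 6 54 (.dbl 3 9 41)))) (.nv (.thr 4 55 (.thr 52 36 (.thr 7 37 (.dbl 6 5 54)))) (.rp 54 (.thr 12 51 (.thr 60 44 (.thr 4 55 (.thr 52 36 (.thr 7 37 (.thr 6 5 (.dbl 3 9 41))))))) (.rp 46 (.str 14 (.nv (.thr 4 55 (.thr 12 51 (.thr 13 15 (.thr 37 49 (.dbl 36 39 52))))) (.nv (.thr 12 51 (.thr 6 54 (.thr 3 9 (.dbl 60 41 44)))) (.nv (.thr 4 55 (.thr 52 36 (.thr 7 37 (.dbl 6 5 54)))) (.rp 12 (.thr 4 55 (.thr 6 54 (.thr 7 5 (.dbl 52 36 37)))) .nd))))) (.rp 14 (.str 46 (.nv (.thr 4 55 (.thr 6 54 (.thr 7 5 (.dbl 52 36 37)))) (.nv (.thr 29 17 (.dbl 12 51 63)) .nd))) (.rp 12 (.thr 4 55 (.thr 6 54 (.thr 7 5 (.dbl 52 36 37)))) (.rp 6 (.thr 12 51 (.thr 44 60 (.thr 35 41 (.thr 4 55 (.thr 36 52 (.thr 32 40 (.thr 29 17 (.thr 34 33 (.dbl 46 42 63))))))))) .nd))))))))))) (.rp 29 (.thr 16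 24 (.thr 26 31 (.thr 18 30 (.dbl 19 17 25)))) (.rp 26 (.str 52 (.nv (.thr 4 36 (.thr 55 38 (.thr 53 54 (.dbl 37 5 7)))) (.nv (.thr 4 36 (.thr 7 37 (.thr 38 55 (.dbl 6 5 54)))) (.rp 55 (.thr 25 19 (.thr 4 36 (.thr 7 37 (.thr 6 5 (.thr 38 54 (.thr 12 51 (.thr 3 9 (.dbl 60 41 44)))))))) (.rp 54 (.thr 25 19 (.thr 29 17 (.thr 37 7 (.thr 5 53 (.thr 13 49 (.thr 1 9 (.dbl 61 41 45))))))) (.rp 38 (.thr 25 19 (.thr 29 17 (.thr 37 7 (.thr 5 53 (.thr 13 49 (.thr 1 9 (.dbl 61 41 45))))))) (.rp 37 (.thr 25 19 (.thr 4 36 (.thr 38 55 (.thr 6 54 (.thr 12 51 (.thr 3 9 (.dbl 60 41 44))))))) (.rp 36 (.thr 25 19 (.thr 29 17 (.thr 37 7 (.thr 5 53 (.thr 13 49 (.thr 1 9 (.dbl 61 41 45))))))) (.rp 7 (.thr 25 19 (.thr 17 29 (.thr 4 36 (.thr 55 38 (.thr 53 54 (.thr 37 5 (.thr 49 13 (.thr 61 57 (.dbl 1 33 41)))))))))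 (.rp 5 (.thr 25 19 (.thr 4 36 (.thr 38 55 (.thr 6 54 (.thr 12 51 (.thr 3 9 (.dbl 60 41 44))))))) (.rp 4 (.thr 25 19 (.thr 29 17 (.thr 37 7 (.thr 5 53 (.thr 13 49 (.thr 1 9 (.dbl 61 41 45))))))) .nd))))))))))) (.rp 25 (.str 60 (.nv (.thr 41 3 (.thr 44 12 (.thr 38 35 (.thr 4 55 (.thr 6 54 (.thr 7 5 (.dbl 52 36 37))))))) (.nv (.thr 16 24 (.thr 26 31 (.thr 30 18 (.thr 15 45 (.thr 48 37 (.thr 56 52 (.dbl 41 3 11))))))) (.rp 52 (.thr 16 24 (.thr 26 31 (.thr 30 18 (.thr 12 44 (.thr 15 45 (.thr 14 13 (.thr 38 50 (.thr 3 41 (.dbl 6 9 54))))))))) (.rp 41 (.thr 16 24 (.thr 26 31 (.thr 30 18 (.thr 15 45 (.thr 37 48 (.thr 52 7 (.thr 53 5 (.thr 55 54 (.dbl 4 36 38))))))))) (.rp 37 (.thr 16 24 (.thr 26 31 (.thr 44 12 (.thr 41 3 (.thr 56 11 (.thr 38 35 (.thr 4 55 (.dbl 52 36 48)))))))) (.rp 19 (.thr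 24 16 (.thr 12 44 (.thr 48 36 (.thr 52 56 (.thr 37 7 (.thr 26 15 (.thr 18 30 (.dbl 3 33 41)))))))) (.rp 15 (.thr 44 12 (.thr 41 3 (.thr 38 35 (.thr 6 54 (.thr 4 55 (.thr 52 36 (.dbl 7 5 37))))))) (.rp 3 (.thr 16 24 (.thr 26 31 (.thr 30 18 (.thr 12 44 (.thr 15 45 (.thr 14 13 (.thr 38 50 (.thr 4 55 (.thr 52 36 (.dbl 48 37 56)))))))))) .nd))))))))) (.rp 24 (.str 52 (.nv (.thr 37 7 (.thr 53 5 (.thr 55 54 (.dbl 4 36 38)))) (.nv (.thr 4 36 (.thr 55 38 (.thr 37 7 (.dbl 53 5 54)))) (.rp 55 (.thr 25 19 (.thr 4 36 (.thr 7 37 (.thr 6 5 (.thr 38 54 (.thr 12 51 (.thr 3 9 (.dbl 60 41 44)))))))) (.rp 54 (.thr 25 19 (.thr 29 17 (.thr 37 7 (.thr 5 53 (.thr 13 49 (.thr 1 9 (.dbl 61 41 45))))))) (.rp 53 (.thr 4 36 (.thr 38 55 (.thr 6 54 (.dbl 7 5 37)))) (.rp 38 (.thr 25 19 (.thr 29 17 (.thr 37 7 (.thr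 5 53 (.thr 13 49 (.thr 1 9 (.dbl 61 41 45))))))) (.rp 37 (.thr 25 19 (.thr 4 36 (.thr 38 55 (.thr 6 54 (.thr 12 51 (.thr 3 9 (.dbl 60 41 44))))))) (.rp 36 (.thr 25 19 (.thr 29 17 (.thr 37 7 (.thr 5 53 (.thr 13 49 (.thr 1 9 (.dbl 61 41 45))))))) (.rp 7 (.thr 25 19 (.thr 17 29 (.thr 4 36 (.thr 55 38 (.thr 53 54 (.thr 37 5 (.thr 49 13 (.thr 61 57 (.dbl 1 33 41))))))))) (.rp 5 (.thr 25 19 (.thr 4 36 (.thr 38 55 (.thr 6 54 (.thr 12 51 (.thr 3 9 (.dbl 60 41 44))))))) (.rp 4 (.thr 25 19 (.thr 29 17 (.thr 37 7 (.thr 5 53 (.thr 13 49 (.thr 1 9 (.dbl 61 41 45))))))) .nd)))))))))))) (.rp 19 (.str 60 (.nv (.thr 3 41 (.thr 12 44 (.thr 6 9 (.thr 38 54 (.thr 4 55 (.thr 7 5 (.dbl 52 36 37))))))) (.nv (.thr 12 44 (.thr 24 16 (.thr 48 36 (.thr 52 56 (.thr 37 7 (.thr 15 26 (.thr 45 30 (.dbl 41 3 33))))))))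 (.nv (.thr 16 24 (.thr 31 26 (.thr 29 30 (.thr 12 44 (.thr 25 17 (.thr 51 38 (.thr 57 54 (.dbl 41 3 9)))))))) (.rp 44 (.thr 16 24 (.thr 31 26 (.thr 30 29 (.thr 45 15 (.thr 41 3 (.thr 1 61 (.thr 37 33 (.thr 7 52 (.thr 5 53 (.thr 6 4 (.thr 9 13 (.thr 54 38 (.dbl 57 25 51))))))))))))) (.rp 41 (.thr 24 16 (.thr 12 44 (.thr 48 36 (.thr 52 56 (.thr 37 7 (.thr 26 15 (.thr 18 30 (.thr 3 33 (.thr 6 9 (.thr 38 54 (.dbl 25 27 51))))))))))) (.rp 31 (.str 27 (.nv (.thr 3 41 (.thr 24 16 (.thr 26 25 (.thr 18 30 (.thr 48 33 (.thr 37 15 (.dbl 52 7 56))))))) (.nv (.thr 3 41 (.thr 12 44 (.thr 6 9 (.thr 38 54 (.thr 4 55 (.thr 7 5 (.dbl 52 36 37))))))) (.nv (.thr 3 41 (.thr 12 44 (.thr 6 9 (.thr 38 54 (.thr 25 51 (.dbl 24 16 26)))))) (.nv (.thr 24 16 (.thr 26 25 (.thr 12 44 (.thr 48 36 (.thr 52 56 (.dbl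 37 7 15)))))) (.rp 25 (.thr 24 16 (.thr 12 44 (.thr 48 36 (.thr 52 56 (.thr 37 7 (.thr 26 15 (.thr 18 30 (.dbl 3 33 41)))))))) .nd)))))) (.rp 27 (.str 31 (.nv (.dbl 16 24 26) (.rp 26 (.thr 29 30 (.thr 25 17 (.thr 12 44 (.thr 51 38 (.thr 57 54 (.dbl 41 3 9)))))) (.rp 24 (.thr 30 29 (.dbl 26 16 18)) (.rp 16 (.thr 30 29 (.thr 15 45 (.thr 3 41 (.thr 7 11 (.thr 37 52 (.dbl 26 18 48)))))) .nd))))) (.rp 12 (.str 31 (.nv (.dbl 16 24 26) (.rp 26 (.thr 29 30 (.thr 17 25 (.thr 41 3 (.thr 1 61 (.thr 33 49 (.thr 37 45 (.thr 52 7 (.thr 4 36 (.thr 53 5 (.dbl 55 38 54)))))))))) (.rp 24 (.thr 30 29 (.dbl 26 16 18)) (.rp 16 (.thr 30 29 (.thr 15 45 (.thr 3 41 (.thr 7 11 (.thr 37 52 (.dbl 26 18 48)))))) (.rp 8 (.str 4 (.nv (.dbl 16 24 26) (.rp 26 (.thr 55 38 (.thr 52 36 (.thr 53 54 (.dbl 37 5 7)))) (.rp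 24 (.thr 30 29 (.dbl 26 16 18)) (.rp 16 (.thr 55 38 (.thr 52 36 (.thr 53 54 (.dbl 37 5 7)))) .nd))))) (.rp 4 (.str 8 (.nv (.dbl 16 24 26) (.rp 26 (.thr 30 29 (.thr 45 15 (.thr 24 16 (.thr 56 40 (.thr 41 3 (.thr 37 33 (.dbl 52 7 48))))))) (.rp 24 (.thr 30 29 (.dbl 26 16 18)) (.rp 16 (.thr 30 29 (.thr 15 45 (.thr 3 41 (.thr 7 11 (.thr 37 52 (.dbl 26 18 48)))))) .nd))))) .nd))))))) (.rp 3 (.thr 24 16 (.thr 12 44 (.thr 48 36 (.thr 52 56 (.thr 37 7 (.thr 53 5 (.thr 63 58 (.thr 15 26 (.thr 29 46 (.dbl 30 31 45)))))))))) .nd)))))))))) (.rp 17 (.thr 16 24 (.thr 19 25 (.thr 26 31 (.str 37 (.nv (.thr 18 30 (.thr 48 15 (.thr 3 33 (.thr 60 41 (.dbl 52 7 56))))) (.nv (.thr 52 7 (.thr 4 36 (.thr 55 38 (.dbl 53 5 54)))) (.rp 52 (.thr 30 18 (.thr 15 48 (.thr 5 53 (.thr 60 45 (.thr 3 41 (.thr 7 11 (.thr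 6 4 (.dbl 12 9 44)))))))) (.rp 51 (.str 34 (.nv (.thr 5 53 (.thr 7 52 (.thr 4 6 (.thr 18 30 (.thr 50 2 (.dbl 38 14 55)))))) (.nv (.thr 7 52 (.thr 15 48 (.thr 3 11 (.thr 30 18 (.dbl 60 41 45))))) (.nv (.thr 52 7 (.thr 4 36 (.thr 53 5 (.dbl 55 38 54)))) (.rp 52 (.thr 30 18 (.thr 15 48 (.thr 5 53 (.thr 60 45 (.thr 3 41 (.thr 7 11 (.thr 6 4 (.dbl 12 9 44)))))))) (.rp 38 (.str 12 (.nv (.thr 5 53 (.thr 7 52 (.thr 6 4 (.thr 3 9 (.dbl 60 41 44))))) (.nv (.thr 5 53 (.thr 7 52 (.thr 6 4 (.thr 3 9 (.dbl 15 11 48))))) (.nv (.thr 30 18 (.thr 60 44 (.dbl 15 45 48))) (.rp 41 (.thr 30 18 (.thr 15 48 (.dbl 60 44 45))) .nd))))) (.rp 12 (.str 38 (.nv (.thr 18 30 (.dbl 50 2 14)) (.nv (.thr 52 7 (.dbl 4 36 55)) (.rp 48 (.thr 36 39 (.dbl 4 52 55)) (.rp 36 (.thr 48 15 (.thr 18 30 (.dbl 50 2 14))) (.rp 8 (.thr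 4 55 (.dbl 36 39 52)) (.rp 4 (.str 8 (.nv (.thr 18 30 (.dbl 50 2 14)) (.rp 50 (.thr 18 30 (.thr 48 15 (.thr 3 33 (.thr 52 7 (.dbl 60 41 56))))) (.rp 48 (.thr 36 39 (.thr 18 30 (.dbl 50 2 14))) (.rp 46 (.thr 48 15 (.thr 52 7 (.thr 60 56 (.thr 3 41 (.dbl 18 30 33))))) (.rp 36 (.thr 48 15 (.thr 18 30 (.dbl 50 2 14))) (.rp 30 (.thr 36 39 (.thr 42 46 (.thr 14 50 (.thr 32 47 (.thr 35 33 (.dbl 44 40 41)))))) (.rp 18 (.thr 36 39 (.thr 42 46 (.thr 32 47 (.thr 35 33 (.dbl 44 40 41))))) (.rp 14 (.thr 30 18 (.thr 36 39 (.thr 42 46 (.thr 32 47 (.thr 35 33 (.dbl 44 40 41)))))) (.rp 2 (.thr 18 30 (.thr 48 15 (.thr 3 33 (.thr 52 7 (.dbl 60 41 56))))) .nd)))))))))) .nd))))))) (.rp 7 (.thr 18 30 (.thr 48 15 (.thr 3 33 (.thr 50 2 (.thr 60 41 (.thr 52 56 (.thr 4 36 (.dbl 38 14 55)))))))) .nd)))))))) (.rp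 48 (.thr 52 7 (.thr 53 5 (.thr 55 54 (.dbl 4 36 38)))) (.rp 34 (.str 51 (.nv (.thr 18 30 (.thr 48 15 (.dbl 3 33 35))) (.nv (.thr 52 7 (.thr 4 36 (.thr 55 38 (.dbl 53 5 54)))) (.nv (.thr 3 35 (.thr 7 52 (.dbl 15 11 48))) (.rp 48 (.thr 52 7 (.thr 53 5 (.thr 55 54 (.dbl 4 36 38)))) .nd))))) (.rp 7 (.thr 18 30 (.thr 48 15 (.thr 3 33 (.thr 60 41 (.thr 52 56 (.thr 4 36 (.thr 55 38 (.dbl 53 5 54)))))))) (.rp 5 (.thr 30 18 (.thr 15 48 (.thr 7 52 (.thr 3 11 (.dbl 60 41 45))))) .nd)))))))))))) (.rp 16 (.str 52 (.nv (.thr 4 36 (.thr 55 38 (.thr 37 7 (.dbl 53 5 54)))) (.rp 55 (.thr 25 19 (.thr 4 36 (.thr 7 37 (.thr 6 5 (.thr 38 54 (.thr 12 51 (.thr 3 9 (.dbl 60 41 44)))))))) (.rp 54 (.thr 25 19 (.thr 17 29 (.thr 37 7 (.thr 53 5 (.thr 49 13 (.thr 61 57 (.dbl 1 33 41))))))) (.rp 53 (.thr 4 36 (.thr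 38 55 (.thr 6 54 (.dbl 7 5 37)))) (.rp 48 (.str 32 (.nv (.thr 25 19 (.thr 36 4 (.thr 44 40 (.thr 12 60 (.thr 38 51 (.dbl 37 7 39)))))) (.nv (.thr 4 36 (.thr 37 7 (.thr 55 38 (.dbl 53 5 54)))) (.rp 54 (.thr 25 19 (.thr 36 4 (.thr 44 40 (.thr 12 60 (.thr 37 7 (.dbl 38 39 51)))))) (.rp 38 (.thr 25 19 (.thr 17 29 (.thr 37 7 (.thr 53 5 (.thr 49 13 (.thr 61 57 (.dbl 1 33 41))))))) (.rp 37 (.thr 25 19 (.thr 4 36 (.thr 38 55 (.thr 12 51 (.thr 60 44 (.thr 6 54 (.dbl 3 9 41))))))) (.rp 36 (.thr 25 19 (.thr 17 29 (.thr 37 7 (.thr 53 5 (.thr 49 13 (.thr 61 57 (.dbl 1 33 41))))))) (.rp 12 (.thr 37 7 (.thr 53 5 (.thr 55 54 (.dbl 4 36 38)))) (.rp 7 (.thr 25 19 (.thr 17 29 (.thr 4 36 (.thr 55 38 (.thr 53 54 (.thr 37 5 (.thr 49 13 (.thr 61 57 (.dbl 1 33 41))))))))) (.rp 4 (.thr 25 19 (.thr 17 29 (.thr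 37 7 (.thr 49 13 (.thr 1 33 (.thr 61 41 (.dbl 53 5 57))))))) .nd)))))))))) (.rp 38 (.thr 25 19 (.thr 17 29 (.thr 37 7 (.thr 53 5 (.thr 49 13 (.thr 61 57 (.dbl 1 33 41))))))) (.rp 37 (.thr 25 19 (.thr 4 36 (.thr 38 55 (.thr 6 54 (.thr 12 51 (.thr 3 9 (.dbl 60 41 44))))))) (.rp 36 (.thr 25 19 (.thr 17 29 (.thr 37 7 (.thr 53 5 (.thr 49 13 (.thr 61 57 (.dbl 1 33 41))))))) (.rp 32 (.str 48 (.nv (.thr 37 7 (.thr 53 5 (.thr 55 54 (.dbl 4 36 38)))) (.nv (.thr 60 56 (.thr 36 4 (.dbl 12 24 44))) (.rp 36 (.thr 60 56 (.thr 37 7 (.thr 26 15 (.thr 18 30 (.dbl 3 33 41))))) (.rp 4 (.thr 60 56 (.thr 37 7 (.thr 26 15 (.thr 18 30 (.dbl 3 33 41))))) .nd))))) (.rp 7 (.thr 25 19 (.thr 17 29 (.thr 4 36 (.thr 55 38 (.thr 53 54 (.thr 37 5 (.thr 49 13 (.thr 61 57 (.dbl 1 33 41))))))))) (.rp 5 (.thr 25 19 (.thr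 4 36 (.thr 38 55 (.thr 6 54 (.thr 12 51 (.thr 3 9 (.dbl 60 41 44))))))) (.rp 4 (.thr 25 19 (.thr 17 29 (.thr 37 7 (.thr 49 13 (.thr 1 33 (.thr 61 41 (.dbl 53 5 57))))))) .nd))))))))))))) .nd)))))))))))

theorem w87 : WinAt (7340032, 4611686018435776513) :=
  chF (K := []) kn c87 7340032 4611686018435776513 23
    [] (by decide +kernel) (by decide +kernel)

/-- A certificate. -/
noncomputable def c88 : Ct := (.str 26 (.nv (.thr 23 20 (.thr 30 18 (.thr 31 16 (.thr 19 27 (.dbl 28 25 29))))) (.nv (.thr 18 30 (.thr 20 23 (.thr 16 31 (.thr 28 24 (.dbl 19 17 25))))) (.rp 31 (.str 15 (.nv (.thr 37 48 (.thr 52 7 (.thr 53 5 (.thr 55 54 (.thr 4 38 (.dbl 20 23 36)))))) (.nv (.thr 30 18 (.thr 60 45 (.thr 3 41 (.thr 7 11 (.dbl 37 48 52))))) (.rp 52 (.thr 18 30 (.thr 48 37 (.thr 3 33 (.thr 11 7 (.dbl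 41 56 60))))) (.rp 48 (.thr 30 18 (.thr 23 20 (.thr 60 45 (.thr 3 41 (.thr 7 11 (.thr 55 39 (.thr 4 38 (.thr 5 6 (.dbl 37 52 53))))))))) (.rp 37 (.str 27 (.nv (.thr 25 24 (.thr 30 18 (.thr 60 45 (.thr 41 3 (.thr 57 9 (.dbl 51 39 54)))))) (.nv (.thr 18 30 (.thr 25 24 (.thr 51 39 (.thr 38 12 (.thr 50 14 (.thr 2 34 (.thr 54 6 (.dbl 62 42 58)))))))) (.nv (.thr 25 24 (.thr 19 28 (.thr 29 17 (.thr 51 39 (.thr 3 35 (.thr 11 7 (.dbl 41 56 60))))))) (.nv (.thr 25 24 (.thr 30 18 (.thr 51 39 (.thr 60 45 (.thr 54 57 (.dbl 38 6 12)))))) (.rp 51 (.thr 30 18 (.thr 25 24 (.thr 60 45 (.thr 41 3 (.thr 11 56 (.thr 9 57 (.thr 8 10 (.dbl 59 42 43)))))))) (.rp 39 (.thr 30 18 (.thr 25 24 (.thr 28 19 (.thr 60 45 (.thr 12 44 (.thr 14 13 (.dbl 38 50 51))))))) (.rp 25 (.thr 30 18 (.thr 23 20 (.thr 39 51 (.thr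 55 7 (.thr 38 4 (.thr 14 50 (.thr 62 46 (.thr 2 42 (.dbl 6 10 54))))))))) (.rp 24 (.thr 30 18 (.thr 51 39 (.thr 60 45 (.thr 54 57 (.thr 38 6 (.thr 14 50 (.dbl 12 13 25))))))) .nd))))))))) (.rp 7 (.thr 30 18 (.thr 60 45 (.thr 41 3 (.thr 56 11 (.dbl 48 37 52))))) .nd))))))) (.rp 30 (.str 19 (.nv (.thr 16 31 (.thr 17 18 (.dbl 25 28 29))) (.nv (.thr 23 20 (.dbl 31 16 27)) (.rp 31 (.str 15 (.nv (.thr 25 28 (.thr 29 17 (.thr 27 24 (.thr 51 39 (.thr 3 35 (.thr 11 7 (.dbl 41 56 60))))))) (.nv (.thr 20 23 (.thr 37 48 (.thr 53 5 (.thr 52 7 (.thr 55 54 (.dbl 4 36 38)))))) (.nv (.thr 25 28 (.thr 29 17 (.thr 24 27 (.thr 48 37 (.thr 12 36 (.thr 14 13 (.dbl 38 50 51))))))) (.rp 29 (.thr 28 25 (.thr 23 20 (.thr 37 48 (.thr 7 52 (.thr 3 11 (.thr 51 35 (.dbl 39 27 55))))))) (.rp 28 (.str 29 (.nv (.thr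 25 17 (.thr 27 24 (.thr 51 39 (.thr 3 35 (.thr 11 7 (.dbl 41 56 60)))))) (.nv (.thr 20 23 (.thr 37 48 (.thr 53 5 (.thr 52 7 (.thr 55 54 (.dbl 4 36 38)))))) (.nv (.thr 25 17 (.thr 24 27 (.thr 48 37 (.thr 12 36 (.thr 14 13 (.dbl 38 50 51)))))) .nd)))) .nd)))))) (.rp 16 (.thr 23 20 (.thr 27 31 (.dbl 25 24 28))) .nd))))) (.rp 28 (.str 55 (.nv (.thr 18 30 (.thr 38 4 (.thr 50 14 (.thr 2 34 (.thr 62 42 (.dbl 54 6 58)))))) (.nv (.thr 20 23 (.thr 4 38 (.thr 52 36 (.thr 37 7 (.dbl 53 5 54))))) (.rp 54 (.thr 23 20 (.thr 7 39 (.thr 37 52 (.thr 5 53 (.dbl 4 6 38))))) (.rp 38 (.thr 23 20 (.thr 30 18 (.thr 7 39 (.thr 37 52 (.thr 15 48 (.thr 3 11 (.dbl 60 41 45))))))) (.rp 4 (.thr 23 20 (.thr 18 30 (.thr 7 39 (.thr 52 37 (.thr 54 53 (.thr 38 6 (.thr 50 14 (.thr 2 34 (.dbl 62 42 58))))))))) .nd))))))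 (.rp 27 (.thr 18 30 (.thr 20 23 (.thr 16 31 (.thr 19 17 (.dbl 28 24 25))))) (.rp 25 (.str 15 (.nv (.thr 16 31 (.thr 37 48 (.thr 52 7 (.thr 53 5 (.thr 55 54 (.thr 4 38 (.dbl 20 23 36))))))) (.nv (.thr 30 18 (.thr 60 45 (.thr 3 41 (.thr 7 11 (.dbl 37 48 52))))) (.rp 52 (.thr 18 30 (.thr 48 37 (.thr 3 33 (.thr 11 7 (.dbl 41 56 60))))) (.rp 48 (.thr 30 18 (.thr 23 20 (.thr 60 45 (.thr 3 41 (.thr 7 11 (.thr 55 39 (.thr 4 38 (.thr 5 6 (.dbl 37 52 53))))))))) (.rp 37 (.thr 31 16 (.thr 23 20 (.thr 27 19 (.thr 39 51 (.thr 55 7 (.thr 38 4 (.thr 14 50 (.thr 6 54 (.thr 2 10 (.thr 62 42 (.dbl 30 18 46))))))))))) (.rp 7 (.thr 30 18 (.thr 60 45 (.thr 41 3 (.thr 56 11 (.dbl 48 37 52))))) .nd))))))) (.rp 24 (.thr 30 18 (.thr 23 20 (.thr 31 16 (.thr 28 29 (.dbl 19 25 27))))) (.rp 23 (.thr 18 30 (.str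 3 (.nv (.thr 48 33 (.thr 15 37 (.thr 41 60 (.dbl 11 7 56)))) (.nv (.thr 48 33 (.thr 60 41 (.thr 52 56 (.dbl 37 7 15)))) (.rp 60 (.thr 16 31 (.thr 19 17 (.thr 51 35 (.thr 48 33 (.thr 15 37 (.thr 27 39 (.dbl 25 24 28))))))) (.rp 56 (.thr 16 31 (.thr 19 17 (.thr 28 25 (.thr 24 20 (.thr 48 33 (.thr 12 36 (.dbl 60 41 44))))))) (.rp 48 (.thr 16 31 (.thr 19 17 (.thr 51 35 (.thr 60 41 (.thr 54 57 (.thr 38 6 (.dbl 25 12 28))))))) (.rp 41 (.thr 48 33 (.thr 37 15 (.thr 7 52 (.thr 5 53 (.thr 6 4 (.thr 12 9 (.thr 36 24 (.dbl 38 39 54)))))))) (.rp 37 (.thr 16 31 (.thr 19 17 (.thr 28 25 (.thr 24 20 (.thr 48 33 (.thr 12 36 (.dbl 60 41 44))))))) (.rp 33 (.thr 16 31 (.thr 19 17 (.thr 51 35 (.thr 60 41 (.thr 54 57 (.thr 38 6 (.dbl 25 12 28))))))) (.rp 15 (.thr 33 48 (.thr 41 60 (.thr 45 37 (.thr 61 1 (.thr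 29 13 (.thr 25 17 (.thr 19 28 (.thr 51 35 (.thr 12 38 (.dbl 9 6 57)))))))))) (.rp 7 (.thr 16 31 (.thr 19 17 (.thr 28 25 (.thr 24 20 (.thr 48 33 (.thr 12 36 (.dbl 60 41 44))))))) .nd)))))))))))) (.rp 20 (.thr 30 18 (.str 60 (.nv (.thr 15 45 (.thr 41 3 (.thr 48 37 (.dbl 56 11 52)))) (.nv (.thr 15 45 (.thr 3 41 (.thr 7 11 (.dbl 37 48 52)))) (.rp 52 (.thr 31 16 (.thr 28 29 (.thr 19 25 (.thr 27 23 (.thr 15 45 (.thr 51 39 (.dbl 3 35 41))))))) (.rp 48 (.thr 45 15 (.thr 41 3 (.thr 33 37 (.thr 1 61 (.thr 17 49 (.thr 25 29 (.thr 28 19 (.thr 12 44 (.thr 51 38 (.dbl 57 9 54)))))))))) (.rp 45 (.thr 31 16 (.thr 28 29 (.thr 12 44 (.thr 3 41 (.thr 6 9 (.thr 38 54 (.dbl 25 19 51))))))) (.rp 41 (.thr 15 45 (.thr 37 48 (.thr 52 7 (.thr 53 5 (.thr 54 55 (.thr 51 57 (.thr 39 27 (.dbl 38 6 36)))))))) (.rp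 37 (.thr 31 16 (.thr 28 29 (.thr 19 25 (.thr 27 23 (.thr 15 45 (.thr 51 39 (.dbl 3 35 41))))))) (.rp 15 (.thr 31 16 (.thr 28 29 (.thr 12 44 (.thr 3 41 (.thr 6 9 (.thr 38 54 (.dbl 25 19 51))))))) (.rp 11 (.thr 31 16 (.thr 28 29 (.thr 19 25 (.thr 27 23 (.thr 15 45 (.thr 51 39 (.dbl 3 35 41))))))) (.rp 3 (.thr 31 16 (.thr 28 29 (.thr 12 44 (.thr 15 45 (.thr 48 37 (.thr 24 36 (.dbl 25 19 27))))))) .nd)))))))))))) (.rp 19 (.str 4 (.nv (.thr 18 30 (.thr 20 23 (.thr 52 36 (.thr 37 7 (.thr 48 15 (.thr 3 33 (.dbl 60 41 56))))))) (.nv (.thr 18 30 (.thr 38 55 (.thr 50 14 (.thr 2 34 (.thr 54 6 (.dbl 62 42 58)))))) (.nv (.thr 23 20 (.thr 55 38 (.thr 7 39 (.thr 37 52 (.dbl 5 6 53))))) (.rp 55 (.thr 20 23 (.thr 30 18 (.thr 52 36 (.thr 7 37 (.thr 6 5 (.thr 38 54 (.thr 14 50 (.thr 62 46 (.dbl 2 10 42)))))))))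 .nd))))) (.rp 18 (.str 28 (.nv (.thr 31 16 (.thr 29 30 (.dbl 25 17 19))) (.nv (.thr 20 23 (.dbl 16 24 31)) (.rp 31 (.thr 20 23 (.thr 24 16 (.dbl 25 19 27))) (.rp 16 (.str 48 (.nv (.thr 25 19 (.thr 17 29 (.thr 24 27 (.thr 12 36 (.thr 60 44 (.thr 41 3 (.dbl 56 11 52))))))) (.nv (.thr 23 20 (.thr 37 15 (.thr 5 53 (.thr 7 52 (.thr 4 6 (.dbl 55 38 39)))))) (.nv (.thr 15 37 (.thr 25 19 (.thr 17 29 (.thr 27 24 (.thr 51 39 (.thr 50 49 (.dbl 38 12 14))))))) (.rp 19 (.str 17 (.nv (.thr 25 29 (.thr 24 27 (.thr 12 36 (.thr 60 44 (.thr 41 3 (.dbl 56 11 52)))))) (.nv (.thr 23 20 (.thr 37 15 (.thr 5 53 (.thr 7 52 (.thr 4 6 (.dbl 55 38 39)))))) (.nv (.thr 15 37 (.thr 25 29 (.thr 27 24 (.thr 51 39 (.thr 50 49 (.dbl 38 12 14)))))) .nd)))) (.rp 17 (.thr 19 25 (.thr 20 23 (.thr 37 15 (.thr 52 7 (.thr 60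 56 (.thr 12 44 (.dbl 36 4 24))))))) .nd)))))) .nd))))) (.rp 16 (.str 48 (.nv (.thr 37 15 (.thr 5 53 (.thr 7 52 (.thr 4 6 (.thr 55 38 (.dbl 23 20 39)))))) (.nv (.thr 18 30 (.thr 3 33 (.thr 60 41 (.thr 52 56 (.dbl 37 7 15))))) (.rp 52 (.thr 18 30 (.thr 3 33 (.thr 41 60 (.thr 11 56 (.dbl 15 7 37))))) (.rp 37 (.str 24 (.nv (.thr 18 30 (.thr 3 33 (.thr 25 27 (.thr 41 60 (.thr 9 57 (.dbl 12 6 36)))))) (.nv (.thr 12 36 (.thr 25 27 (.thr 28 19 (.thr 60 44 (.thr 56 52 (.dbl 41 3 11)))))) (.nv (.thr 12 36 (.thr 18 30 (.thr 3 33 (.thr 6 9 (.thr 25 27 (.dbl 38 51 54)))))) (.rp 41 (.thr 18 30 (.thr 25 27 (.thr 12 36 (.thr 38 51 (.thr 6 54 (.dbl 3 9 33)))))) (.rp 36 (.thr 18 30 (.thr 25 27 (.thr 19 28 (.thr 3 33 (.thr 51 35 (.thr 50 49 (.dbl 38 12 14))))))) (.rp 27 (.thr 18 30 (.thr 12 36 (.thr 3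 33 (.thr 6 9 (.thr 38 54 (.thr 50 14 (.dbl 51 25 49))))))) (.rp 25 (.thr 18 30 (.thr 20 23 (.thr 36 12 (.thr 4 52 (.thr 38 55 (.thr 50 14 (.thr 2 34 (.thr 62 42 (.dbl 54 6 58))))))))) (.rp 18 (.thr 25 27 (.thr 28 19 (.thr 17 29 (.thr 12 36 (.thr 60 44 (.thr 56 52 (.dbl 41 3 11))))))) (.rp 12 (.thr 18 30 (.thr 25 27 (.thr 3 33 (.thr 41 60 (.thr 56 11 (.thr 57 9 (.thr 59 58 (.dbl 8 40 42)))))))) (.rp 3 (.thr 18 30 (.thr 25 27 (.thr 12 36 (.thr 38 51 (.thr 50 14 (.thr 54 6 (.thr 62 58 (.dbl 2 34 42)))))))) .nd))))))))))) (.rp 15 (.thr 18 30 (.thr 20 23 (.thr 3 33 (.thr 60 41 (.thr 52 56 (.thr 4 36 (.thr 55 38 (.thr 53 54 (.dbl 37 5 7))))))))) (.rp 7 (.thr 30 18 (.thr 15 37 (.thr 60 45 (.thr 56 52 (.dbl 41 3 11))))) .nd))))))) .nd))))))))))))))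

theorem w88 : WinAt (6291456, 9223372036854775809) :=
  chF (K := []) kn c88 6291456 9223372036854775809 63
    [] (by decide +kernel) (by decide +kernel)

/-- A certificate. -/
noncomputable def c89 : Ct := (.str 15 (.nv (.thr 5 10 (.thr 37 53 (.thr 48 26 (.dbl 32 16 47)))) (.nv (.thr 10 5 (.thr 26 58 (.thr 48 37 (.dbl 16 31 32)))) (.rp 48 (.str 12 (.nv (.thr 4 8 (.thr 5 10 (.thr 38 55 (.thr 51 25 (.thr 39 27 (.dbl 37 36 53)))))) (.nv (.thr 8 4 (.thr 25 59 (.thr 51 38 (.dbl 17 29 34)))) (.rp 58 (.str 53 (.nv (.dbl 5 10 37) (.rp 37 (.thr 4 8 (.thr 38 55 (.thr 34 46 (.dbl 51 17 25)))) (.rp 10 (.thr 4 8 (.thr 38 55 (.thr 34 46 (.dbl 51 17 25)))) (.rp 5 (.thr 4 8 (.thr 38 55 (.thr 34 46 (.dbl 51 17 25)))) .nd))))) (.rp 53 (.str 58 (.nv (.dbl 10 5 26) (.rp 26 (.thr 8 4 (.thr 25 59 (.thr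 17 29 (.dbl 51 34 38)))) (.rp 10 (.thr 8 4 (.thr 25 59 (.thr 17 29 (.dbl 51 34 38)))) (.rp 5 (.thr 8 4 (.thr 25 59 (.thr 17 29 (.dbl 51 34 38)))) .nd))))) (.rp 51 (.thr 14 13 (.thr 5 10 (.thr 4 8 (.thr 7 6 (.thr 55 38 (.thr 23 39 (.thr 22 20 (.dbl 37 52 53)))))))) (.rp 38 (.thr 13 14 (.thr 8 4 (.thr 25 59 (.thr 37 49 (.dbl 5 10 53))))) (.rp 25 (.thr 14 13 (.thr 4 8 (.thr 38 55 (.thr 26 50 (.dbl 10 5 58))))) (.rp 8 (.thr 13 14 (.thr 10 5 (.str 29 (.nv (.thr 17 25 (.thr 34 51 (.thr 45 61 (.thr 46 38 (.thr 44 47 (.dbl 60 28 30)))))) (.nv (.thr 45 61 (.thr 60 30 (.thr 40 20 (.thr 44 28 (.thr 32 36 (.dbl 47 37 46)))))) (.nv (.thr 25 17 (.thr 51 38 (.thr 27 39 (.dbl 26 24 58)))) (.rp 58 (.str 53 (.nv (.thr 61 45 (.thr 25 17 (.dbl 49 37 57))) (.rp 61 (.thr 25 17 (.thr 51 38 (.thr 27 39 (.thr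 26 24 (.thr 31 16 (.thr 28 30 (.dbl 19 22 23))))))) (.rp 57 (.thr 45 61 (.thr 60 30 (.thr 44 28 (.thr 46 47 (.thr 38 34 (.dbl 25 17 51)))))) (.rp 49 (.thr 45 61 (.thr 60 30 (.thr 44 28 (.thr 46 47 (.thr 38 34 (.dbl 25 17 51)))))) (.rp 45 (.thr 25 17 (.thr 49 37 (.thr 57 61 (.thr 41 9 (.thr 40 43 (.thr 60 20 (.dbl 51 38 54))))))) (.rp 37 (.thr 45 61 (.thr 60 30 (.thr 44 28 (.thr 46 47 (.thr 38 34 (.dbl 25 17 51)))))) (.rp 25 (.thr 45 61 (.thr 60 30 (.thr 44 28 (.thr 40 20 (.thr 32 36 (.dbl 47 37 46)))))) (.rp 17 (.thr 45 61 (.thr 60 30 (.thr 44 28 (.thr 40 20 (.thr 32 36 (.dbl 47 37 46)))))) .nd))))))))) (.rp 53 (.thr 58 26 (.thr 25 17 (.thr 45 61 (.thr 60 30 (.thr 28 44 (.thr 22 19 (.dbl 20 23 40))))))) .nd)))))))) (.rp 4 (.thr 14 13 (.thr 5 10 (.str 46 (.nv (.thr 30 62 (.thr 34 38 (.thr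 17 51 (.thr 29 25 (.thr 28 31 (.dbl 60 44 45)))))) (.nv (.thr 30 62 (.thr 60 45 (.thr 20 40 (.thr 28 44 (.thr 16 24 (.dbl 31 26 29)))))) (.nv (.thr 38 34 (.thr 51 25 (.thr 39 27 (.dbl 37 36 53)))) (.rp 58 (.thr 53 37 (.thr 38 34 (.thr 30 62 (.thr 60 45 (.thr 44 28 (.thr 41 35 (.dbl 40 20 43))))))) (.rp 53 (.str 58 (.nv (.thr 62 30 (.thr 38 34 (.dbl 50 26 54))) (.rp 62 (.thr 38 34 (.thr 51 25 (.thr 39 27 (.thr 37 36 (.thr 47 32 (.thr 44 45 (.dbl 35 41 43))))))) (.rp 54 (.thr 30 62 (.thr 60 45 (.thr 28 44 (.thr 29 31 (.thr 25 17 (.dbl 38 34 51)))))) (.rp 50 (.thr 30 62 (.thr 60 45 (.thr 28 44 (.thr 29 31 (.thr 25 17 (.dbl 38 34 51)))))) (.rp 38 (.thr 30 62 (.thr 60 45 (.thr 28 44 (.thr 20 40 (.thr 16 24 (.dbl 31 26 29)))))) (.rp 34 (.thr 30 62 (.thr 60 45 (.thr 28 44 (.thr 20 40 (.thr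 16 24 (.dbl 31 26 29)))))) (.rp 30 (.thr 38 34 (.thr 50 26 (.thr 54 62 (.thr 22 6 (.thr 20 23 (.thr 60 40 (.dbl 51 25 57))))))) (.rp 26 (.thr 30 62 (.thr 60 45 (.thr 28 44 (.thr 29 31 (.thr 25 17 (.dbl 38 34 51)))))) .nd))))))))) .nd)))))))) .nd)))))))))) (.rp 37 (.str 12 (.nv (.thr 4 8 (.thr 10 5 (.thr 26 58 (.thr 38 55 (.dbl 14 13 50))))) (.nv (.thr 4 8 (.thr 38 55 (.thr 34 46 (.dbl 51 17 25)))) (.rp 59 (.thr 4 8 (.thr 38 55 (.thr 51 25 (.dbl 34 17 46)))) (.rp 55 (.thr 8 4 (.thr 25 59 (.thr 51 38 (.dbl 17 29 34)))) (.rp 51 (.thr 10 5 (.thr 8 4 (.thr 26 58 (.thr 16 31 (.thr 48 32 (.thr 24 36 (.dbl 25 27 59))))))) (.rp 38 (.thr 10 5 (.thr 8 4 (.thr 25 59 (.thr 17 29 (.thr 26 58 (.thr 27 24 (.dbl 51 34 39))))))) (.rp 8 (.thr 10 5 (.thr 26 58 (.thr 16 31 (.thr 48 32 (.thr 24 36 (.thr 25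 27 (.thr 17 29 (.dbl 51 34 38)))))))) (.rp 4 (.thr 10 5 (.thr 26 58 (.thr 16 31 (.thr 48 32 (.thr 24 36 (.thr 25 27 (.thr 17 29 (.dbl 51 34 38)))))))) .nd))))))))) (.rp 32 (.str 12 (.nv (.thr 4 8 (.thr 10 5 (.thr 26 58 (.thr 38 55 (.dbl 14 13 50))))) (.nv (.thr 4 8 (.thr 38 55 (.thr 51 25 (.dbl 34 17 46)))) (.rp 55 (.thr 8 4 (.thr 25 59 (.thr 51 38 (.dbl 17 29 34)))) (.rp 51 (.thr 5 10 (.thr 4 8 (.thr 37 53 (.thr 48 26 (.thr 36 24 (.dbl 38 39 55)))))) (.rp 38 (.thr 13 14 (.thr 8 4 (.thr 25 59 (.thr 37 49 (.dbl 5 10 53))))) (.rp 8 (.thr 5 10 (.thr 37 53 (.thr 48 26 (.thr 36 24 (.thr 38 39 (.thr 34 46 (.dbl 51 17 25))))))) (.rp 4 (.thr 5 10 (.thr 37 53 (.thr 48 26 (.thr 36 24 (.thr 38 39 (.thr 34 46 (.dbl 51 17 25))))))) .nd)))))))) (.rp 26 (.str 12 (.nv (.thr 5 10 (.thr 8 4 (.thr 25 59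 (.thr 37 53 (.dbl 13 14 49))))) (.nv (.thr 8 4 (.thr 25 59 (.thr 17 29 (.dbl 51 34 38)))) (.rp 59 (.thr 4 8 (.thr 38 55 (.thr 51 25 (.dbl 34 17 46)))) (.rp 55 (.thr 8 4 (.thr 25 59 (.thr 51 38 (.dbl 17 29 34)))) (.rp 51 (.thr 5 10 (.thr 4 8 (.thr 37 53 (.thr 32 47 (.thr 48 16 (.thr 36 24 (.dbl 38 39 55))))))) (.rp 25 (.thr 5 10 (.thr 4 8 (.thr 38 55 (.thr 34 46 (.thr 37 53 (.thr 39 36 (.dbl 51 17 27))))))) (.rp 8 (.thr 5 10 (.thr 37 53 (.thr 32 47 (.thr 48 16 (.thr 36 24 (.thr 38 39 (.thr 34 46 (.dbl 51 17 25)))))))) (.rp 4 (.thr 5 10 (.thr 37 53 (.thr 32 47 (.thr 48 16 (.thr 36 24 (.thr 38 39 (.thr 34 46 (.dbl 51 17 25)))))))) .nd))))))))) (.rp 16 (.str 12 (.nv (.thr 4 8 (.thr 5 10 (.thr 37 53 (.thr 48 26 (.thr 36 24 (.dbl 38 39 55)))))) (.nv (.thr 8 4 (.thr 25 59 (.thr 51 38 (.dbl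 17 29 34)))) (.rp 38 (.thr 13 14 (.thr 8 4 (.thr 25 59 (.thr 37 49 (.dbl 5 10 53))))) (.rp 25 (.thr 14 13 (.thr 4 8 (.thr 38 55 (.thr 26 50 (.dbl 10 5 58))))) (.rp 8 (.thr 10 5 (.thr 26 58 (.thr 48 37 (.thr 24 36 (.thr 25 27 (.thr 17 29 (.dbl 51 34 38))))))) (.rp 4 (.thr 10 5 (.thr 26 58 (.thr 48 37 (.thr 24 36 (.thr 25 27 (.thr 17 29 (.dbl 51 34 38))))))) .nd))))))) (.rp 10 (.str 38 (.nv (.thr 4 55 (.thr 12 8 (.thr 14 13 (.thr 26 50 (.thr 16 31 (.dbl 48 32 37)))))) (.nv (.thr 34 46 (.thr 51 17 (.thr 39 27 (.thr 37 36 (.thr 32 47 (.dbl 48 16 26)))))) (.nv (.thr 4 55 (.thr 12 8 (.thr 34 46 (.dbl 51 17 25)))) (.rp 51 (.str 14 (.nv (.thr 26 50 (.thr 16 31 (.dbl 48 32 37))) (.nv (.thr 12 13 (.dbl 4 8 55)) (.rp 59 (.thr 55 4 (.thr 26 50 (.thr 16 31 (.dbl 48 32 37)))) (.rp 55 (.str 59 (.nv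 (.thr 26 50 (.thr 16 31 (.dbl 48 32 37))) (.nv (.thr 8 25 (.dbl 12 4 13)) .nd))) .nd))))) (.rp 34 (.thr 4 55 (.thr 12 8 (.thr 14 13 (.thr 51 25 (.thr 39 27 (.thr 37 36 (.dbl 26 48 50))))))) (.rp 14 (.str 6 (.nv (.thr 4 55 (.thr 5 7 (.thr 37 53 (.thr 32 47 (.dbl 48 16 26))))) (.nv (.thr 34 46 (.thr 51 17 (.thr 12 25 (.dbl 4 8 55)))) (.nv (.thr 4 55 (.thr 12 8 (.thr 7 5 (.dbl 3 9 11)))) (.rp 55 (.thr 34 46 (.thr 51 17 (.thr 39 27 (.thr 37 36 (.thr 32 47 (.dbl 48 16 26)))))) (.rp 51 (.thr 55 4 (.thr 54 22 (.thr 53 52 (.thr 37 5 (.thr 32 47 (.dbl 48 16 26)))))) (.rp 4 (.thr 34 46 (.thr 51 17 (.thr 39 27 (.thr 37 36 (.thr 32 47 (.dbl 48 16 26)))))) .nd))))))) (.rp 12 (.str 6 (.nv (.thr 46 34 (.thr 4 55 (.thr 5 7 (.thr 37 53 (.thr 32 47 (.dbl 48 16 26)))))) (.nv (.thr 54 22 (.thr 55 4 (.thr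 53 52 (.thr 37 5 (.thr 32 47 (.dbl 48 16 26)))))) (.nv (.thr 22 54 (.thr 23 20 (.thr 55 4 (.thr 39 7 (.thr 51 27 (.dbl 34 17 46)))))) (.rp 55 (.thr 46 34 (.thr 22 54 (.thr 20 23 (.thr 60 40 (.thr 45 30 (.thr 44 47 (.dbl 41 3 35))))))) (.rp 54 (.str 5 (.nv (.thr 37 53 (.thr 32 47 (.dbl 48 16 26))) (.nv (.dbl 4 7 55) (.rp 55 (.thr 7 4 (.thr 37 53 (.thr 52 22 (.thr 32 47 (.dbl 48 16 26))))) (.rp 46 (.str 29 (.nv (.thr 37 53 (.thr 32 47 (.dbl 48 16 26))) (.nv (.dbl 4 7 55) (.rp 55 (.thr 17 25 (.thr 51 34 (.thr 39 27 (.dbl 37 36 53)))) .nd)))) (.rp 29 (.thr 46 34 (.dbl 4 7 55)) .nd)))))) (.rp 52 (.thr 4 55 (.thr 5 7 (.thr 37 53 (.thr 54 22 (.thr 32 47 (.dbl 48 16 26)))))) (.rp 46 (.str 29 (.nv (.thr 22 54 (.thr 20 23 (.thr 25 17 (.thr 28 19 (.thr 31 30 (.dbl 16 24 26)))))) (.nv (.thr 17 25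 (.thr 51 34 (.thr 39 27 (.thr 37 36 (.thr 32 47 (.dbl 48 16 26)))))) (.nv (.thr 4 55 (.thr 7 5 (.thr 22 54 (.thr 52 37 (.dbl 20 23 36))))) .nd)))) (.rp 4 (.thr 46 34 (.thr 22 54 (.thr 20 23 (.thr 60 40 (.thr 45 30 (.thr 44 47 (.dbl 41 3 35))))))) .nd))))))))) (.rp 6 (.str 14 (.nv (.thr 26 50 (.thr 16 31 (.dbl 48 32 37))) (.nv (.thr 12 13 (.dbl 4 8 55)) .nd))) .nd))))))))) (.rp 5 (.str 25 (.nv (.thr 8 59 (.thr 12 4 (.thr 13 14 (.thr 37 49 (.thr 32 47 (.dbl 48 16 26)))))) (.nv (.thr 17 29 (.thr 51 34 (.thr 27 39 (.thr 26 24 (.thr 16 31 (.dbl 48 32 37)))))) (.nv (.thr 8 59 (.thr 12 4 (.thr 17 29 (.dbl 51 34 38)))) (.rp 51 (.str 13 (.nv (.thr 37 49 (.thr 32 47 (.dbl 48 16 26))) (.nv (.thr 12 14 (.dbl 8 4 59)) (.rp 59 (.str 55 (.nv (.thr 37 49 (.thr 32 47 (.dbl 48 16 26))) (.nv (.thr 4 38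 (.dbl 12 8 14)) .nd))) (.rp 55 (.thr 59 8 (.thr 37 49 (.thr 32 47 (.dbl 48 16 26)))) .nd))))) (.rp 17 (.thr 8 59 (.thr 12 4 (.thr 13 14 (.thr 51 38 (.thr 27 39 (.thr 26 24 (.dbl 37 48 49))))))) (.rp 13 (.str 9 (.nv (.thr 8 59 (.thr 10 11 (.thr 26 58 (.thr 16 31 (.dbl 48 32 37))))) (.nv (.thr 17 29 (.thr 51 34 (.thr 12 38 (.dbl 8 4 59)))) (.nv (.thr 8 59 (.thr 12 4 (.thr 11 10 (.dbl 3 6 7)))) (.rp 59 (.thr 17 29 (.thr 51 34 (.thr 27 39 (.thr 26 24 (.thr 16 31 (.dbl 48 32 37)))))) (.rp 51 (.thr 59 8 (.thr 57 41 (.thr 58 56 (.thr 26 10 (.thr 16 31 (.dbl 48 32 37)))))) (.rp 8 (.thr 17 29 (.thr 51 34 (.thr 27 39 (.thr 26 24 (.thr 16 31 (.dbl 48 32 37)))))) .nd))))))) (.rp 12 (.str 9 (.nv (.thr 29 17 (.thr 8 59 (.thr 10 11 (.thr 26 58 (.thr 16 31 (.dbl 48 32 37)))))) (.nv (.thr 57 41 (.thr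 59 8 (.thr 58 56 (.thr 26 10 (.thr 16 31 (.dbl 48 32 37)))))) (.nv (.thr 41 57 (.thr 43 40 (.thr 59 8 (.thr 27 11 (.thr 51 39 (.dbl 17 29 34)))))) (.rp 59 (.thr 29 17 (.thr 41 57 (.thr 40 43 (.thr 60 20 (.thr 30 45 (.thr 28 31 (.dbl 22 3 19))))))) (.rp 57 (.str 10 (.nv (.thr 26 58 (.thr 16 31 (.dbl 48 32 37))) (.nv (.dbl 8 11 59) (.rp 59 (.thr 11 8 (.thr 26 58 (.thr 56 41 (.thr 16 31 (.dbl 48 32 37))))) (.rp 46 (.thr 29 17 (.dbl 8 11 59)) (.rp 29 (.str 46 (.nv (.thr 26 58 (.thr 16 31 (.dbl 48 32 37))) (.nv (.dbl 8 11 59) (.rp 59 (.thr 34 38 (.thr 51 17 (.thr 27 39 (.dbl 26 24 58)))) .nd)))) .nd)))))) (.rp 56 (.thr 8 59 (.thr 10 11 (.thr 26 58 (.thr 57 41 (.thr 16 31 (.dbl 48 32 37)))))) (.rp 29 (.str 46 (.nv (.thr 38 34 (.thr 41 57 (.thr 40 43 (.thr 44 35 (.thr 47 45 (.dbl 32 36 37))))))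 (.nv (.thr 34 38 (.thr 51 17 (.thr 27 39 (.thr 26 24 (.thr 16 31 (.dbl 48 32 37)))))) (.nv (.thr 8 59 (.thr 11 10 (.thr 41 57 (.thr 56 26 (.dbl 40 24 43))))) .nd)))) (.rp 8 (.thr 29 17 (.thr 41 57 (.thr 40 43 (.thr 60 20 (.thr 30 45 (.thr 28 31 (.dbl 22 3 19))))))) .nd))))))))) (.rp 9 (.str 13 (.nv (.thr 37 49 (.thr 32 47 (.dbl 48 16 26))) (.nv (.thr 12 14 (.dbl 8 4 59)) .nd))) .nd))))))))) .nd))))))))))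

theorem w89 : WinAt (4398048608257, 9223372036854775814) :=
  chF (K := []) kn c89 4398048608257 9223372036854775814 63
    [] (by decide +kernel) (by decide +kernel)

/-- A certificate. -/
noncomputable def c90 : Ct := (.str 12 (.nv (.thr 8 4 (.thr 42 63 (.thr 25 59 (.thr 51 38 (.dbl 17 29 34))))) (.nv (.thr 4 8 (.thr 38 55 (.thr 42 63 (.thr 51 25 (.dbl 34 17 46))))) (.nv (.thr 4 8 (.thr 38 55 (.thr 63 42 (.thr 29 46 (.dbl 25 17 51))))) (.rp 63 (.thr 4 8 (.str 20 (.nv (.thr 38 55 (.thr 51 25 (.thr 60 40 (.thr 54 57 (.dbl 22 6 23))))) (.nv (.thr 52 36 (.thr 55 38 (.thr 53 54 (.thr 37 5 (.dbl 22 7 23))))) (.nv (.thr 36 52 (.thr 48 24 (.thr 32 16 (.dbl 40 44 60)))) (.rp 43 (.thr 23 22 (.thr 36 52 (.thr 24 48 (.thr 28 16 (.dbl 60 40 44))))) (.rp 23 (.str 43 (.nv (.thr 38 55 (.thr 40 60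 (.thr 51 25 (.thr 34 17 (.dbl 42 41 46))))) (.nv (.thr 36 52 (.thr 60 40 (.thr 28 44 (.dbl 24 16 48)))) (.rp 60 (.thr 36 52 (.thr 48 24 (.thr 16 32 (.thr 38 55 (.thr 26 31 (.dbl 37 15 39)))))) (.rp 40 (.thr 36 52 (.thr 24 48 (.thr 16 28 (.thr 38 55 (.thr 26 31 (.dbl 25 27 51)))))) .nd))))) .nd))))))) (.rp 51 (.thr 63 42 (.thr 8 4 (.str 24 (.nv (.thr 29 46 (.thr 25 17 (.thr 26 27 (.thr 16 31 (.thr 20 28 (.dbl 40 56 60)))))) (.nv (.thr 29 46 (.thr 25 17 (.thr 26 27 (.thr 16 31 (.dbl 48 32 36))))) (.nv (.thr 40 56 (.thr 60 20 (.thr 44 28 (.dbl 36 32 48)))) (.rp 35 (.str 19 (.nv (.thr 29 46 (.thr 25 17 (.thr 26 27 (.thr 31 16 (.dbl 28 22 30))))) (.nv (.thr 40 56 (.thr 60 20 (.thr 44 28 (.dbl 36 32 48)))) (.rp 28 (.thr 29 46 (.thr 17 25 (.thr 16 18 (.dbl 48 32 36)))) .nd)))) (.rp 19 (.str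 35 (.nv (.thr 36 48 (.thr 40 56 (.thr 60 20 (.dbl 44 28 32)))) (.nv (.thr 29 46 (.thr 25 17 (.thr 26 27 (.thr 48 36 (.thr 53 58 (.dbl 37 5 15)))))) (.nv (.thr 40 56 (.thr 60 20 (.thr 44 28 (.dbl 36 32 48)))) (.rp 48 (.thr 40 56 (.thr 60 20 (.thr 44 28 (.thr 46 29 (.thr 45 47 (.thr 62 61 (.dbl 30 14 15))))))) (.rp 36 (.thr 40 56 (.thr 20 60 (.thr 16 28 (.thr 29 46 (.thr 25 17 (.dbl 26 27 31)))))) (.rp 20 (.thr 40 56 (.thr 36 48 (.thr 44 32 (.thr 46 29 (.thr 47 45 (.thr 39 43 (.dbl 38 37 41))))))) .nd))))))) .nd)))))))) (.rp 42 (.str 5 (.nv (.thr 15 10 (.thr 14 13 (.thr 37 53 (.thr 26 48 (.thr 38 50 (.dbl 4 8 55)))))) (.nv (.thr 15 10 (.thr 13 14 (.thr 37 53 (.thr 25 49 (.thr 17 29 (.dbl 51 34 38)))))) (.nv (.thr 4 8 (.thr 7 6 (.thr 37 53 (.thr 22 52 (.thr 23 20 (.dbl 55 38 39)))))) (.rp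 53 (.thr 4 8 (.thr 15 10 (.thr 14 13 (.thr 38 55 (.thr 26 50 (.thr 16 31 (.dbl 48 32 37))))))) (.rp 38 (.thr 15 10 (.thr 13 14 (.thr 37 53 (.thr 26 48 (.thr 31 16 (.thr 25 49 (.thr 63 47 (.dbl 29 17 46)))))))) (.rp 37 (.thr 4 8 (.thr 15 10 (.thr 14 13 (.thr 38 55 (.thr 26 50 (.thr 16 31 (.thr 25 51 (.thr 24 27 (.dbl 48 32 36))))))))) .nd))))))) (.rp 38 (.str 5 (.nv (.thr 8 4 (.thr 15 10 (.thr 13 14 (.thr 42 63 (.thr 25 59 (.dbl 37 49 53)))))) (.nv (.thr 15 10 (.thr 37 53 (.thr 26 48 (.thr 31 16 (.dbl 63 42 47))))) (.rp 63 (.thr 4 8 (.thr 7 6 (.thr 15 10 (.thr 37 53 (.thr 48 26 (.thr 36 24 (.dbl 52 20 22))))))) (.rp 53 (.thr 15 10 (.thr 14 13 (.thr 63 42 (.thr 46 29 (.thr 30 62 (.thr 45 60 (.dbl 47 31 44))))))) (.rp 42 (.thr 15 10 (.thr 13 14 (.thr 37 53 (.thr 26 48 (.thr 31 16 (.thr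 25 49 (.thr 63 47 (.dbl 29 17 46)))))))) (.rp 37 (.thr 15 10 (.thr 14 13 (.thr 63 42 (.thr 46 29 (.thr 30 62 (.thr 45 60 (.dbl 47 31 44))))))) (.rp 26 (.thr 8 4 (.thr 15 10 (.thr 37 53 (.thr 42 63 (.thr 25 59 (.dbl 13 14 49)))))) (.rp 15 (.thr 4 8 (.thr 53 37 (.thr 63 42 (.thr 48 58 (.thr 32 16 (.thr 36 24 (.thr 40 44 (.dbl 20 52 60)))))))) (.rp 10 (.thr 4 8 (.thr 7 6 (.thr 37 53 (.thr 42 63 (.thr 32 47 (.thr 48 16 (.thr 36 24 (.dbl 52 20 22)))))))) .nd)))))))))) (.rp 25 (.str 5 (.nv (.thr 4 8 (.thr 7 6 (.thr 15 10 (.thr 55 38 (.thr 39 23 (.thr 51 27 (.dbl 63 42 59))))))) (.nv (.thr 4 8 (.thr 7 6 (.thr 37 53 (.thr 22 52 (.thr 23 20 (.dbl 55 38 39)))))) (.nv (.thr 15 10 (.thr 37 53 (.thr 26 48 (.thr 31 16 (.dbl 63 42 47))))) (.rp 42 (.thr 15 10 (.thr 14 13 (.thr 37 53 (.thr 26 48 (.thr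 38 50 (.dbl 4 8 55)))))) .nd))))) (.rp 17 (.thr 63 42 (.thr 8 4 (.str 31 (.nv (.thr 16 26 (.thr 29 46 (.thr 28 30 (.thr 20 24 (.dbl 60 40 44))))) (.nv (.thr 15 47 (.thr 13 14 (.thr 29 46 (.thr 30 28 (.dbl 45 60 61))))) (.nv (.thr 26 16 (.thr 15 47 (.thr 37 48 (.dbl 5 10 53)))) (.rp 49 (.str 33 (.nv (.thr 16 26 (.thr 29 46 (.thr 28 30 (.thr 20 24 (.dbl 60 40 44))))) (.nv (.thr 15 47 (.thr 13 14 (.thr 29 46 (.thr 30 28 (.dbl 45 60 61))))) (.nv (.thr 26 16 (.thr 15 47 (.thr 5 10 (.dbl 37 48 53)))) .nd)))) (.rp 33 (.str 49 (.nv (.thr 15 47 (.thr 13 14 (.thr 29 46 (.thr 30 28 (.dbl 45 60 61))))) (.nv (.thr 16 26 (.thr 29 46 (.thr 28 30 (.thr 20 24 (.dbl 60 40 44))))) (.nv (.thr 15 47 (.thr 13 14 (.thr 37 25 (.dbl 26 16 48)))) (.rp 48 (.str 18 (.nv (.thr 15 47 (.thr 13 14 (.thr 37 25 (.dbl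 5 10 53)))) (.nv (.thr 26 16 (.thr 29 46 (.dbl 30 22 28))) .nd))) (.rp 18 (.str 48 (.nv (.dbl 16 26 32) (.rp 32 (.thr 15 47 (.thr 37 26 (.dbl 13 14 25))) (.rp 26 (.thr 16 32 (.thr 24 36 (.thr 40 56 (.dbl 20 28 60)))) (.rp 16 (.str 19 (.nv (.thr 23 27 (.thr 24 36 (.thr 40 56 (.dbl 20 22 60)))) (.nv (.thr 15 47 (.thr 13 14 (.dbl 37 25 26))) .nd))) .nd))))) (.rp 14 (.thr 15 47 (.thr 26 16 (.thr 5 10 (.dbl 37 48 53)))) .nd))))))) .nd)))))))) (.rp 8 (.str 48 (.nv (.thr 16 32 (.thr 24 36 (.thr 26 31 (.thr 28 20 (.thr 25 27 (.thr 19 22 (.dbl 17 18 29))))))) (.nv (.thr 16 32 (.thr 26 31 (.thr 15 37 (.thr 42 63 (.dbl 10 5 58))))) (.rp 32 (.thr 24 36 (.thr 63 42 (.thr 29 46 (.thr 25 17 (.thr 26 27 (.thr 37 15 (.dbl 53 5 58))))))) (.rp 31 (.thr 32 16 (.thr 42 63 (.thr 37 47 (.thr 15 26 (.dbl 5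 10 53))))) (.rp 26 (.thr 32 16 (.thr 36 24 (.thr 42 63 (.thr 37 47 (.thr 38 39 (.thr 34 46 (.dbl 51 17 25))))))) (.rp 16 (.thr 24 36 (.thr 63 42 (.thr 29 46 (.thr 25 17 (.thr 26 27 (.thr 37 15 (.dbl 53 5 58))))))) .nd))))))) (.rp 4 (.str 48 (.nv (.thr 16 32 (.thr 24 36 (.thr 26 31 (.thr 25 27 (.thr 17 29 (.dbl 51 34 38)))))) (.nv (.thr 16 32 (.thr 26 31 (.thr 63 42 (.thr 53 58 (.dbl 37 5 15))))) (.rp 32 (.thr 24 36 (.thr 63 42 (.thr 29 46 (.thr 25 17 (.thr 26 27 (.thr 37 15 (.dbl 53 5 58))))))) (.rp 31 (.thr 32 16 (.thr 42 63 (.thr 37 47 (.thr 15 26 (.dbl 5 10 53))))) (.rp 26 (.thr 32 16 (.thr 36 24 (.thr 42 63 (.thr 37 47 (.thr 38 39 (.thr 34 46 (.dbl 51 17 25))))))) (.rp 16 (.thr 24 36 (.thr 63 42 (.thr 29 46 (.thr 25 17 (.thr 26 27 (.thr 37 15 (.dbl 53 5 58))))))) .nd))))))) .nd))))))))))))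

theorem w90 : WinAt (2097153, 10) :=
  chF (K := []) kn c90 2097153 10 3
    [] (by decide +kernel) (by decide +kernel)

/-- A certificate. -/
noncomputable def c91 : Ct := (.str 15 (.nv (.thr 10 5 (.thr 42 63 (.thr 26 58 (.thr 48 37 (.dbl 16 31 32))))) (.nv (.thr 5 10 (.thr 37 53 (.thr 26 48 (.thr 63 42 (.dbl 31 16 47))))) (.rp 63 (.str 17 (.nv (.thr 25 29 (.thr 51 34 (.thr 27 39 (.thr 26 24 (.thr 16 31 (.dbl 48 32 37)))))) (.nv (.thr 5 10 (.thr 37 53 (.thr 48 26 (.thr 51 34 (.thr 49 50 (.dbl 25 13 29)))))) (.nv (.thr 5 10 (.thr 25 29 (.thr 51 34 (.thr 27 39 (.thr 26 24 (.dbl 37 48 53)))))) (.rp 51 (.thr 5 10 (.thr 25 29 (.thr 37 53 (.thr 48 26 (.thr 16 32 (.thr 19 18 (.thr 22 28 (.thr 20 23 (.thr 52 7 (.dbl 60 40 56)))))))))) (.rp 48 (.thr 5 10 (.thr 25 29 (.thr 51 34 (.thr 12 38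 (.thr 13 14 (.dbl 37 49 53)))))) (.rp 37 (.thr 25 29 (.thr 51 34 (.thr 27 39 (.thr 26 24 (.thr 16 31 (.thr 48 32 (.thr 50 49 (.dbl 38 12 14)))))))) (.rp 34 (.thr 5 10 (.thr 25 29 (.thr 37 53 (.thr 48 26 (.thr 13 49 (.thr 12 14 (.thr 36 24 (.dbl 38 39 51)))))))) (.rp 29 (.thr 5 10 (.thr 51 34 (.thr 39 27 (.thr 37 53 (.thr 38 36 (.thr 48 26 (.thr 49 50 (.dbl 25 12 13)))))))) (.rp 26 (.thr 5 10 (.thr 25 29 (.thr 51 34 (.thr 12 38 (.thr 37 53 (.dbl 13 14 49)))))) (.rp 25 (.thr 5 10 (.thr 34 51 (.thr 37 53 (.thr 48 26 (.thr 32 16 (.thr 33 35 (.thr 41 45 (.thr 3 18 (.thr 7 11 (.dbl 22 52 60)))))))))) .nd))))))))))) (.rp 48 (.str 17 (.nv (.thr 10 5 (.thr 25 29 (.thr 42 63 (.thr 51 34 (.thr 27 39 (.dbl 26 24 58)))))) (.nv (.thr 5 10 (.thr 25 29 (.thr 51 34 (.thr 12 38 (.thr 13 14 (.dbl 37 49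 53)))))) (.nv (.thr 51 34 (.thr 27 39 (.thr 63 42 (.thr 31 47 (.thr 19 23 (.dbl 16 18 26)))))) (.nv (.thr 5 10 (.thr 25 29 (.thr 37 53 (.thr 51 34 (.thr 39 27 (.dbl 38 12 36)))))) (.rp 51 (.thr 25 29 (.thr 63 42 (.thr 31 47 (.thr 16 26 (.thr 19 18 (.thr 22 28 (.dbl 23 20 27))))))) (.rp 34 (.thr 25 29 (.thr 63 42 (.thr 31 47 (.thr 16 26 (.thr 19 18 (.thr 22 28 (.dbl 23 20 27))))))) .nd))))))) (.rp 42 (.str 17 (.nv (.thr 25 29 (.thr 51 34 (.thr 27 39 (.thr 26 24 (.thr 16 31 (.dbl 48 32 37)))))) (.nv (.thr 5 10 (.thr 25 29 (.thr 37 53 (.thr 13 49 (.thr 12 14 (.dbl 51 34 38)))))) (.nv (.thr 5 10 (.thr 25 29 (.thr 37 53 (.thr 26 48 (.thr 16 31 (.thr 19 18 (.thr 24 27 (.dbl 28 20 22)))))))) (.nv (.thr 25 29 (.thr 51 34 (.thr 27 39 (.thr 5 10 (.thr 26 24 (.dbl 37 48 53)))))) (.rp 37 (.thr 25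 29 (.thr 51 34 (.thr 38 12 (.thr 27 39 (.thr 26 24 (.thr 16 31 (.thr 50 14 (.dbl 48 32 49)))))))) (.rp 29 (.thr 5 10 (.thr 51 34 (.thr 27 39 (.thr 37 53 (.thr 26 48 (.thr 25 24 (.thr 13 49 (.dbl 12 14 38)))))))) (.rp 26 (.thr 25 29 (.thr 51 34 (.thr 38 12 (.thr 39 27 (.thr 37 36 (.dbl 5 10 53)))))) (.rp 25 (.thr 5 10 (.thr 51 34 (.thr 27 39 (.thr 37 53 (.thr 26 48 (.thr 31 16 (.thr 23 19 (.thr 63 47 (.thr 43 3 (.dbl 59 11 55)))))))))) .nd))))))))) (.rp 37 (.str 17 (.nv (.thr 10 5 (.thr 25 29 (.thr 42 63 (.thr 8 59 (.thr 26 58 (.thr 24 27 (.thr 56 40 (.dbl 11 9 41)))))))) (.nv (.thr 5 10 (.thr 51 34 (.thr 27 39 (.thr 63 42 (.thr 59 55 (.thr 43 11 (.thr 23 3 (.dbl 31 19 47)))))))) (.nv (.thr 25 29 (.thr 51 34 (.thr 27 39 (.thr 26 24 (.thr 31 16 (.dbl 63 42 47)))))) (.nv (.thr 5 10 (.thr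 29 25 (.thr 63 42 (.thr 12 46 (.thr 13 14 (.thr 45 61 (.thr 30 60 (.dbl 31 28 47)))))))) (.nv (.thr 25 29 (.thr 42 63 (.thr 51 34 (.thr 27 39 (.thr 26 24 (.dbl 10 5 58)))))) (.rp 63 (.thr 25 29 (.thr 51 34 (.thr 27 39 (.thr 26 24 (.thr 16 31 (.thr 48 32 (.thr 50 49 (.dbl 38 12 14)))))))) (.rp 42 (.thr 25 29 (.thr 51 34 (.thr 38 12 (.thr 27 39 (.thr 26 24 (.thr 16 31 (.thr 50 14 (.dbl 48 32 49)))))))) (.rp 26 (.thr 29 25 (.thr 63 42 (.thr 12 46 (.thr 13 14 (.thr 45 61 (.thr 30 60 (.dbl 31 28 47))))))) .nd))))))))) (.rp 31 (.thr 5 10 (.thr 37 53 (.thr 48 26 (.thr 32 16 (.dbl 42 47 63))))) (.rp 26 (.str 17 (.nv (.thr 25 29 (.thr 51 34 (.thr 38 12 (.thr 39 27 (.thr 37 36 (.dbl 5 10 53)))))) (.nv (.thr 5 10 (.thr 25 29 (.thr 37 53 (.thr 42 63 (.thr 32 47 (.thr 48 16 (.thr 49 13 (.dbl 51 34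 50)))))))) (.nv (.thr 5 10 (.thr 25 29 (.thr 37 53 (.thr 51 34 (.thr 39 27 (.dbl 38 12 36)))))) (.rp 53 (.thr 29 25 (.thr 63 42 (.thr 12 46 (.thr 13 14 (.thr 45 61 (.thr 30 60 (.dbl 31 28 47))))))) (.rp 51 (.thr 29 25 (.thr 63 42 (.thr 12 46 (.thr 13 14 (.thr 45 61 (.thr 30 60 (.dbl 31 28 47))))))) (.rp 37 (.thr 29 25 (.thr 63 42 (.thr 12 46 (.thr 13 14 (.thr 45 61 (.thr 30 60 (.dbl 31 28 47))))))) (.rp 34 (.thr 29 25 (.thr 63 42 (.thr 46 12 (.thr 31 47 (.thr 30 28 (.thr 60 45 (.dbl 62 14 61))))))) (.rp 29 (.thr 51 34 (.thr 27 39 (.thr 63 42 (.thr 31 47 (.thr 23 19 (.thr 43 3 (.dbl 59 11 55))))))) (.rp 25 (.thr 51 34 (.thr 27 39 (.thr 63 42 (.thr 31 47 (.thr 23 19 (.thr 43 3 (.dbl 59 11 55))))))) (.rp 12 (.thr 51 34 (.thr 27 39 (.thr 63 42 (.thr 31 47 (.thr 23 19 (.thr 43 3 (.dbl 59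 11 55))))))) (.rp 10 (.thr 25 29 (.thr 51 34 (.thr 38 12 (.thr 39 27 (.thr 37 36 (.thr 49 13 (.thr 48 50 (.thr 32 16 (.dbl 42 47 63))))))))) (.rp 5 (.thr 29 25 (.thr 63 42 (.thr 12 46 (.thr 13 14 (.thr 45 61 (.thr 30 60 (.dbl 31 28 47))))))) .nd))))))))))))) (.rp 16 (.str 3 (.nv (.thr 5 10 (.thr 7 11 (.thr 37 53 (.thr 22 52 (.thr 41 60 (.thr 33 45 (.dbl 48 18 26))))))) (.nv (.thr 63 42 (.thr 43 23 (.thr 47 31 (.thr 39 35 (.thr 27 51 (.dbl 11 7 59)))))) (.rp 11 (.thr 5 10 (.thr 37 53 (.thr 26 48 (.thr 63 42 (.thr 23 43 (.thr 22 20 (.thr 30 18 (.dbl 60 41 45)))))))) (.rp 7 (.thr 5 10 (.thr 37 53 (.thr 26 48 (.thr 63 42 (.thr 23 43 (.thr 22 20 (.thr 30 18 (.dbl 60 41 45)))))))) .nd))))) (.rp 10 (.str 17 (.nv (.thr 51 34 (.thr 27 39 (.thr 63 42 (.thr 31 47 (.thr 19 23 (.dbl 16 18 26))))))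 (.nv (.thr 29 25 (.thr 63 42 (.thr 46 12 (.thr 47 31 (.thr 45 44 (.thr 60 30 (.dbl 61 13 62))))))) (.nv (.thr 25 29 (.thr 51 34 (.thr 27 39 (.thr 26 24 (.thr 16 31 (.dbl 48 32 37)))))) (.rp 51 (.thr 29 25 (.thr 63 42 (.thr 12 46 (.thr 13 14 (.thr 45 61 (.thr 30 60 (.dbl 31 28 47))))))) (.rp 31 (.thr 25 29 (.thr 51 34 (.thr 12 38 (.thr 13 14 (.thr 37 49 (.thr 26 48 (.dbl 27 24 39))))))) (.rp 26 (.thr 25 29 (.thr 51 34 (.thr 38 12 (.thr 39 27 (.thr 37 36 (.thr 49 13 (.thr 48 50 (.thr 32 16 (.dbl 42 47 63))))))))) .nd))))))) (.rp 5 (.thr 63 42 (.thr 31 47 (.thr 26 16 (.thr 37 48 (.str 13 (.nv (.thr 25 49 (.thr 17 29 (.thr 51 34 (.dbl 27 24 39)))) (.nv (.thr 12 14 (.thr 25 49 (.thr 27 24 (.dbl 51 38 39)))) (.nv (.thr 12 14 (.thr 29 46 (.thr 30 28 (.dbl 45 60 61)))) (.nv (.thr 12 14 (.thr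 25 49 (.dbl 29 17 46))) (.rp 7 (.str 6 (.nv (.thr 25 49 (.thr 17 29 (.thr 51 34 (.dbl 27 24 39)))) (.nv (.thr 12 14 (.thr 25 49 (.thr 27 24 (.dbl 51 38 39)))) (.nv (.thr 12 14 (.thr 29 46 (.thr 30 28 (.dbl 45 60 61)))) (.nv (.thr 12 14 (.thr 25 49 (.dbl 29 17 46))) .nd))))) (.rp 6 (.str 7 (.nv (.thr 12 14 (.thr 25 49 (.dbl 29 17 46))) (.nv (.thr 3 11 (.thr 22 52 (.dbl 23 20 43))) .nd))) .nd))))))))))) .nd))))))))))))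

theorem w91 : WinAt (2097153, 18) :=
  chF (K := []) kn c91 2097153 18 4
    [] (by decide +kernel) (by decide +kernel)

/-- A certificate. -/
noncomputable def c92 : Ct := (.str 25 (.nv (.thr 17 29 (.thr 51 34 (.thr 8 59 (.dbl 12 4 38)))) (.rp 59 (.thr 17 29 (.thr 51 34 (.thr 12 38 (.str 9 (.nv (.thr 8 4 (.thr 11 10 (.thr 41 57 (.thr 56 26 (.dbl 40 24 43))))) (.nv (.thr 3 6 (.thr 19 35 (.thr 22 28 (.dbl 41 57 60)))) (.nv (.thr 41 57 (.thr 40 43 (.thr 60 20 (.dbl 3 6 22)))) (.rp 57 (.thr 3 6 (.thr 19 35 (.thr 22 28 (.thr 20 23 (.dbl 60 40 41))))) (.rp 41 (.thr 8 4 (.thr 10 11 (.thr 26 58 (.thr 16 31 (.thr 48 32 (.dbl 24 27 36)))))) (.rp 6 (.thr 41 57 (.thr 40 43 (.thr 60 20 (.thr 28 44 (.dbl 22 3 19))))) .nd)))))))))) (.rp 51 (.thr 59 8 (.str 26 (.nv (.thr 16 31 (.thr 17 29 (.thr 19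 18 (.thr 24 27 (.dbl 28 20 22))))) (.nv (.thr 58 10 (.thr 56 57 (.thr 27 24 (.dbl 11 41 43)))) (.rp 27 (.thr 58 10 (.thr 56 57 (.thr 16 31 (.thr 48 32 (.thr 60 52 (.thr 40 20 (.dbl 41 11 43))))))) (.rp 24 (.thr 58 10 (.thr 56 57 (.thr 16 31 (.thr 48 32 (.thr 60 52 (.thr 40 20 (.dbl 41 11 43))))))) (.rp 13 (.str 9 (.nv (.thr 27 24 (.thr 11 43 (.dbl 41 56 57))) (.nv (.thr 57 41 (.dbl 58 10 56)) (.rp 57 (.thr 27 24 (.thr 31 16 (.thr 19 23 (.thr 29 17 (.dbl 28 22 30))))) (.rp 56 (.thr 41 57 (.thr 24 27 (.thr 40 43 (.thr 16 31 (.dbl 20 28 60))))) (.rp 41 (.thr 27 24 (.thr 31 16 (.thr 19 23 (.thr 29 17 (.dbl 28 22 30))))) .nd)))))) (.rp 9 (.str 13 (.nv (.thr 27 24 (.thr 11 43 (.thr 56 41 (.dbl 58 10 57)))) (.nv (.thr 16 31 (.thr 48 32 (.dbl 37 15 49))) (.rp 11 (.thr 10 58 (.thr 16 31 (.thr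 48 32 (.dbl 37 15 49)))) (.rp 10 (.str 11 (.nv (.thr 16 31 (.thr 32 48 (.dbl 37 47 49))) (.nv (.dbl 27 24 43) .nd))) .nd))))) .nd)))))))) (.rp 46 (.thr 8 59 (.thr 17 29 (.thr 12 4 (.dbl 51 34 38)))) (.rp 38 (.str 9 (.nv (.thr 8 59 (.thr 10 11 (.thr 12 4 (.thr 26 58 (.thr 16 31 (.thr 48 32 (.dbl 24 27 36))))))) (.nv (.thr 8 59 (.thr 12 4 (.thr 41 57 (.thr 40 43 (.thr 60 20 (.dbl 3 6 22)))))) (.nv (.thr 8 59 (.thr 11 10 (.thr 41 57 (.thr 56 26 (.dbl 40 24 43))))) (.rp 59 (.thr 17 29 (.thr 41 57 (.thr 40 43 (.thr 60 20 (.thr 3 22 (.thr 51 34 (.thr 19 35 (.thr 16 18 (.thr 32 48 (.thr 44 36 (.dbl 12 6 28))))))))))) (.rp 57 (.thr 8 59 (.thr 10 11 (.thr 12 4 (.thr 6 3 (.thr 2 14 (.thr 22 62 (.thr 28 19 (.thr 60 44 (.dbl 20 23 40))))))))) (.rp 56 (.thr 8 59 (.thr 10 11 (.thr 12 4 (.thr 26 58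 (.thr 57 41 (.thr 16 31 (.thr 48 32 (.dbl 24 27 36)))))))) (.rp 55 (.thr 17 29 (.thr 8 59 (.thr 51 34 (.thr 11 10 (.thr 41 57 (.thr 40 43 (.dbl 56 24 26))))))) (.rp 51 (.thr 29 17 (.thr 59 8 (.thr 57 41 (.thr 58 56 (.thr 26 10 (.thr 31 16 (.thr 28 30 (.thr 19 22 (.dbl 27 23 24))))))))) (.rp 43 (.thr 8 59 (.thr 11 10 (.thr 12 4 (.thr 41 57 (.thr 56 26 (.thr 40 24 (.thr 60 20 (.dbl 3 6 22)))))))) (.rp 11 (.thr 29 17 (.thr 59 8 (.thr 57 41 (.thr 58 56 (.thr 26 10 (.thr 31 16 (.thr 28 30 (.thr 19 22 (.dbl 27 23 24))))))))) (.rp 8 (.thr 17 29 (.thr 41 57 (.thr 40 43 (.thr 60 20 (.thr 3 22 (.thr 51 34 (.thr 19 35 (.thr 16 18 (.thr 26 31 (.thr 56 11 (.dbl 48 32 52))))))))))) .nd)))))))))))) (.rp 34 (.str 9 (.nv (.thr 8 59 (.thr 10 11 (.thr 12 4 (.thr 6 3 (.thr 2 14 (.thr 22 62 (.dbl 38 51 54)))))))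 (.nv (.thr 41 57 (.thr 40 43 (.thr 60 20 (.thr 3 22 (.thr 12 6 (.dbl 8 4 59)))))) (.nv (.thr 8 59 (.thr 11 10 (.thr 41 57 (.thr 56 26 (.dbl 40 24 43))))) (.rp 59 (.thr 41 57 (.thr 40 43 (.thr 60 20 (.thr 3 22 (.thr 12 6 (.thr 4 8 (.dbl 38 51 55))))))) (.rp 43 (.thr 8 59 (.thr 11 10 (.thr 12 4 (.thr 41 57 (.thr 56 26 (.thr 40 24 (.thr 60 20 (.dbl 3 6 22)))))))) (.rp 8 (.thr 41 57 (.thr 40 43 (.thr 60 20 (.thr 3 22 (.thr 12 6 (.thr 44 28 (.dbl 38 35 51))))))) .nd))))))) (.rp 29 (.str 9 (.nv (.thr 8 59 (.thr 10 11 (.thr 12 4 (.thr 6 3 (.thr 2 14 (.thr 22 62 (.dbl 38 51 54))))))) (.nv (.thr 41 57 (.thr 40 43 (.thr 60 20 (.thr 3 22 (.thr 12 6 (.dbl 8 4 59)))))) (.nv (.thr 8 59 (.thr 11 10 (.thr 41 57 (.thr 56 26 (.dbl 40 24 43))))) (.rp 59 (.thr 41 57 (.thr 40 43 (.thr 60 20 (.thr 3 22 (.thr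 12 6 (.thr 4 8 (.dbl 38 51 55))))))) (.rp 46 (.str 12 (.nv (.dbl 8 4 59) (.rp 59 (.thr 4 8 (.dbl 38 51 55)) (.rp 8 (.thr 3 6 (.thr 41 57 (.thr 40 43 (.dbl 60 20 22)))) (.rp 4 (.thr 41 57 (.thr 40 43 (.thr 60 20 (.dbl 3 6 22)))) .nd))))) (.rp 43 (.thr 8 59 (.thr 11 10 (.thr 12 4 (.thr 41 57 (.thr 56 26 (.thr 40 24 (.thr 60 20 (.dbl 3 6 22)))))))) (.rp 12 (.str 46 (.nv (.thr 8 59 (.thr 10 11 (.thr 26 58 (.thr 38 34 (.thr 14 50 (.thr 2 6 (.dbl 62 22 30))))))) (.nv (.thr 38 34 (.thr 41 57 (.thr 40 43 (.thr 44 35 (.thr 47 45 (.dbl 32 36 37)))))) (.nv (.thr 8 59 (.thr 11 10 (.thr 41 57 (.thr 56 26 (.dbl 40 24 43))))) (.rp 57 (.str 10 (.nv (.dbl 8 11 59) (.rp 59 (.thr 11 8 (.thr 38 34 (.thr 26 58 (.thr 56 41 (.thr 14 50 (.thr 2 6 (.dbl 62 22 30))))))) (.rp 11 (.thr 38 34 (.thr 26 58 (.thr 14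 50 (.thr 2 6 (.dbl 62 22 30))))) (.rp 8 (.thr 38 34 (.thr 26 58 (.thr 14 50 (.thr 2 6 (.dbl 62 22 30))))) .nd))))) (.rp 43 (.thr 38 34 (.thr 8 59 (.thr 11 10 (.thr 41 57 (.thr 44 35 (.thr 47 45 (.thr 32 37 (.thr 40 36 (.dbl 56 24 26))))))))) .nd)))))) (.rp 8 (.thr 41 57 (.thr 40 43 (.thr 60 20 (.thr 3 22 (.thr 12 6 (.thr 44 28 (.dbl 38 35 51))))))) .nd))))))))) (.rp 17 (.str 9 (.nv (.thr 8 59 (.thr 10 11 (.thr 12 4 (.thr 6 3 (.thr 2 14 (.thr 22 62 (.dbl 38 51 54))))))) (.nv (.thr 41 57 (.thr 40 43 (.thr 60 20 (.thr 3 22 (.thr 12 6 (.dbl 8 4 59)))))) (.nv (.thr 8 59 (.thr 11 10 (.thr 41 57 (.thr 56 26 (.dbl 40 24 43))))) (.rp 59 (.thr 41 57 (.thr 40 43 (.thr 60 20 (.thr 3 22 (.thr 12 6 (.thr 4 8 (.dbl 38 51 55))))))) (.rp 49 (.str 33 (.nv (.thr 8 59 (.thr 10 11 (.thr 12 4 (.thr 6 3 (.thr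 2 14 (.thr 22 62 (.dbl 38 51 54))))))) (.nv (.thr 41 57 (.thr 37 45 (.thr 32 47 (.thr 35 34 (.thr 40 43 (.dbl 44 36 38)))))) (.nv (.thr 8 59 (.thr 11 10 (.thr 41 57 (.thr 56 26 (.dbl 40 24 43))))) (.rp 61 (.thr 8 59 (.thr 10 11 (.thr 26 58 (.thr 16 31 (.thr 48 32 (.thr 3 18 (.dbl 12 4 6))))))) (.rp 43 (.thr 41 57 (.thr 8 59 (.thr 11 10 (.thr 37 45 (.thr 32 47 (.thr 48 16 (.dbl 26 15 56))))))) .nd)))))) (.rp 43 (.thr 8 59 (.thr 11 10 (.thr 12 4 (.thr 41 57 (.thr 56 26 (.thr 40 24 (.thr 60 20 (.dbl 3 6 22)))))))) (.rp 33 (.str 49 (.nv (.thr 37 13 (.thr 32 47 (.thr 48 16 (.thr 8 59 (.thr 51 50 (.dbl 12 4 38)))))) (.nv (.thr 8 59 (.thr 11 10 (.thr 41 57 (.thr 56 26 (.dbl 40 24 43))))) (.rp 59 (.thr 41 57 (.thr 40 43 (.thr 60 20 (.thr 3 22 (.thr 12 6 (.thr 4 8 (.dbl 38 51 55))))))) (.rp 51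 (.thr 41 57 (.thr 40 43 (.thr 60 20 (.thr 3 22 (.thr 12 6 (.dbl 8 4 59)))))) (.rp 8 (.thr 41 57 (.thr 40 43 (.thr 60 20 (.thr 3 22 (.thr 12 6 (.thr 38 51 (.dbl 44 28 35))))))) .nd)))))) (.rp 8 (.thr 41 57 (.thr 40 43 (.thr 60 20 (.thr 3 22 (.thr 12 6 (.thr 44 28 (.dbl 38 35 51))))))) .nd))))))))) (.rp 13 (.str 9 (.nv (.thr 8 59 (.thr 11 10 (.thr 41 57 (.thr 40 43 (.dbl 56 24 26))))) (.nv (.thr 8 59 (.thr 12 4 (.thr 51 38 (.dbl 17 29 34)))) (.rp 59 (.thr 17 29 (.thr 41 57 (.thr 40 43 (.thr 60 20 (.thr 3 22 (.thr 12 6 (.dbl 51 34 38))))))) (.rp 55 (.thr 17 29 (.thr 8 59 (.thr 51 34 (.dbl 12 4 38)))) (.rp 51 (.thr 41 57 (.thr 40 43 (.thr 60 20 (.thr 3 22 (.thr 12 6 (.dbl 8 4 59)))))) (.rp 8 (.thr 17 29 (.thr 41 57 (.thr 40 43 (.thr 60 20 (.thr 3 22 (.thr 12 6 (.dbl 51 34 38))))))) .nd)))))))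 (.rp 12 (.str 9 (.nv (.thr 8 59 (.thr 11 10 (.thr 41 57 (.thr 56 26 (.dbl 40 24 43))))) (.rp 59 (.thr 57 41 (.str 51 (.nv (.dbl 17 29 34) (.rp 46 (.thr 29 17 (.thr 60 54 (.thr 20 40 (.thr 22 23 (.thr 28 19 (.thr 16 24 (.dbl 31 26 30))))))) (.rp 34 (.thr 29 17 (.thr 60 54 (.thr 20 40 (.thr 22 23 (.thr 28 19 (.thr 16 24 (.dbl 31 26 30))))))) (.rp 29 (.str 46 (.nv (.dbl 34 17 38) (.rp 38 (.thr 17 34 (.thr 60 54 (.thr 20 40 (.thr 22 23 (.thr 62 2 (.thr 30 14 (.thr 19 28 (.dbl 18 16 26)))))))) (.rp 34 (.thr 60 54 (.thr 20 40 (.thr 22 23 (.thr 62 2 (.thr 30 14 (.thr 28 19 (.thr 16 24 (.dbl 26 18 31)))))))) (.rp 17 (.thr 38 34 (.thr 54 60 (.thr 22 6 (.thr 62 2 (.thr 14 30 (.dbl 50 26 58)))))) .nd))))) (.rp 17 (.thr 60 54 (.thr 20 40 (.thr 22 23 (.thr 28 19 (.thr 16 24 (.thr 48 32 (.thr 49 50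 (.thr 37 13 (.dbl 52 7 56))))))))) .nd))))))) (.rp 57 (.str 10 (.nv (.dbl 8 11 59) (.rp 59 (.thr 11 8 (.thr 29 17 (.thr 26 58 (.thr 56 41 (.thr 27 24 (.thr 31 16 (.thr 28 30 (.dbl 19 22 23)))))))) (.rp 46 (.thr 29 17 (.dbl 8 11 59)) (.rp 29 (.str 46 (.nv (.dbl 8 11 59) (.rp 59 (.thr 11 8 (.thr 38 34 (.thr 26 58 (.thr 56 41 (.thr 14 50 (.thr 2 6 (.dbl 62 22 30))))))) (.rp 11 (.thr 38 34 (.thr 26 58 (.thr 14 50 (.thr 2 6 (.dbl 62 22 30))))) (.rp 8 (.thr 38 34 (.thr 26 58 (.thr 14 50 (.thr 2 6 (.dbl 62 22 30))))) .nd))))) (.rp 11 (.thr 29 17 (.thr 26 58 (.thr 27 24 (.thr 31 16 (.thr 28 30 (.dbl 19 22 23)))))) (.rp 8 (.thr 29 17 (.thr 26 58 (.thr 27 24 (.thr 31 16 (.thr 28 30 (.dbl 19 22 23)))))) .nd))))))) (.rp 56 (.thr 29 17 (.thr 8 59 (.thr 10 11 (.thr 26 58 (.thr 57 41 (.thr 27 24 (.thr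 31 16 (.thr 28 30 (.dbl 19 22 23))))))))) (.rp 55 (.thr 29 17 (.thr 59 8 (.thr 57 41 (.thr 58 56 (.thr 26 10 (.thr 31 16 (.thr 28 30 (.thr 19 22 (.dbl 27 23 24))))))))) (.rp 51 (.thr 29 17 (.thr 59 8 (.thr 57 41 (.thr 58 56 (.thr 26 10 (.thr 31 16 (.thr 28 30 (.thr 19 22 (.dbl 27 23 24))))))))) (.rp 46 (.thr 29 17 (.thr 8 59 (.thr 11 10 (.thr 41 57 (.thr 40 43 (.dbl 56 24 26)))))) (.rp 43 (.thr 29 17 (.thr 59 8 (.thr 57 41 (.thr 58 56 (.thr 26 10 (.thr 31 16 (.thr 28 30 (.thr 19 22 (.dbl 27 23 24))))))))) (.rp 41 (.thr 29 17 (.thr 8 59 (.thr 10 11 (.thr 26 58 (.thr 27 24 (.thr 31 16 (.thr 28 30 (.dbl 19 22 23)))))))) (.rp 40 (.thr 29 17 (.thr 8 59 (.thr 10 11 (.thr 26 58 (.thr 27 24 (.thr 31 16 (.thr 28 30 (.dbl 19 22 23)))))))) (.rp 29 (.str 46 (.nv (.thr 8 59 (.thr 10 11 (.thr 26 58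 (.thr 38 34 (.thr 14 50 (.thr 2 6 (.dbl 62 22 30))))))) (.nv (.thr 38 34 (.thr 41 57 (.thr 40 43 (.thr 44 35 (.thr 47 45 (.dbl 32 36 37)))))) (.nv (.thr 8 59 (.thr 11 10 (.thr 41 57 (.thr 56 26 (.dbl 40 24 43))))) (.rp 57 (.str 10 (.nv (.dbl 8 11 59) (.rp 59 (.thr 11 8 (.thr 38 34 (.thr 26 58 (.thr 56 41 (.thr 14 50 (.thr 2 6 (.dbl 62 22 30))))))) (.rp 11 (.thr 38 34 (.thr 26 58 (.thr 14 50 (.thr 2 6 (.dbl 62 22 30))))) (.rp 8 (.thr 38 34 (.thr 26 58 (.thr 14 50 (.thr 2 6 (.dbl 62 22 30))))) .nd))))) (.rp 43 (.thr 38 34 (.thr 8 59 (.thr 11 10 (.thr 41 57 (.thr 44 35 (.thr 47 45 (.thr 32 37 (.thr 40 36 (.dbl 56 24 26))))))))) .nd)))))) (.rp 26 (.thr 8 59 (.thr 41 57 (.thr 40 43 (.thr 60 20 (.thr 3 22 (.thr 56 24 (.thr 48 52 (.thr 18 33 (.thr 16 32 (.dbl 17 19 29)))))))))) (.rp 24 (.thr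 8 59 (.thr 11 10 (.thr 41 57 (.thr 40 43 (.thr 60 20 (.thr 3 22 (.thr 15 7 (.thr 45 30 (.thr 37 33 (.dbl 26 48 56)))))))))) (.rp 11 (.thr 29 17 (.thr 59 8 (.thr 57 41 (.thr 58 56 (.thr 26 10 (.thr 31 16 (.thr 28 30 (.thr 19 22 (.dbl 27 23 24))))))))) (.rp 10 (.thr 8 59 (.thr 41 57 (.thr 40 43 (.thr 60 20 (.thr 56 24 (.thr 48 52 (.thr 16 32 (.dbl 26 11 31)))))))) (.rp 8 (.str 31 (.nv (.thr 16 26 (.thr 41 57 (.thr 40 43 (.thr 20 60 (.thr 28 24 (.dbl 22 19 23)))))) (.nv (.thr 29 17 (.thr 28 30 (.thr 41 57 (.thr 40 43 (.thr 20 60 (.dbl 22 19 23)))))) (.nv (.thr 16 26 (.thr 32 48 (.thr 37 47 (.thr 41 57 (.thr 33 45 (.thr 34 35 (.dbl 17 29 51))))))) (.nv (.thr 29 17 (.thr 28 30 (.thr 26 16 (.thr 19 22 (.dbl 27 23 24))))) (.rp 29 (.str 46 (.nv (.thr 16 26 (.thr 41 57 (.thr 40 43 (.thr 20 60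 (.thr 28 24 (.dbl 22 19 23)))))) (.nv (.thr 38 34 (.thr 41 57 (.thr 40 43 (.thr 44 35 (.thr 32 36 (.dbl 47 37 45)))))) (.nv (.thr 26 16 (.thr 38 34 (.thr 14 50 (.thr 62 30 (.thr 2 22 (.dbl 10 6 58)))))) .nd)))) .nd)))))) .nd))))))))))))))))) (.rp 9 (.str 13 (.nv (.thr 8 59 (.thr 12 4 (.thr 15 14 (.thr 37 49 (.thr 32 47 (.dbl 48 16 26)))))) (.nv (.thr 17 29 (.thr 8 59 (.thr 51 34 (.dbl 12 4 38)))) (.rp 59 (.thr 17 29 (.thr 51 34 (.thr 12 38 (.thr 15 14 (.thr 27 39 (.thr 26 24 (.dbl 37 48 49))))))) (.rp 51 (.thr 37 49 (.thr 32 47 (.thr 48 16 (.thr 15 26 (.thr 12 14 (.dbl 8 4 59)))))) (.rp 17 (.thr 8 59 (.thr 12 4 (.thr 15 14 (.thr 51 38 (.thr 27 39 (.thr 26 24 (.dbl 37 48 49))))))) (.rp 12 (.thr 29 17 (.thr 45 61 (.thr 37 49 (.thr 33 41 (.thr 32 47 (.thr 16 48 (.thr 31 26 (.thr 28 30 (.thr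 22 19 (.dbl 20 23 24)))))))))) (.rp 8 (.thr 17 29 (.thr 51 34 (.thr 12 38 (.thr 15 14 (.thr 27 39 (.thr 26 24 (.dbl 37 48 49))))))) (.rp 4 (.thr 17 29 (.thr 51 34 (.thr 12 38 (.thr 15 14 (.thr 27 39 (.thr 26 24 (.dbl 37 48 49))))))) .nd))))))))) (.rp 8 (.thr 17 29 (.thr 51 34 (.thr 12 38 (.str 9 (.nv (.thr 3 6 (.thr 19 35 (.thr 16 18 (.thr 26 31 (.thr 24 27 (.dbl 48 32 36)))))) (.nv (.thr 41 57 (.thr 40 43 (.thr 60 20 (.dbl 3 6 22)))) (.rp 41 (.str 44 (.nv (.thr 3 6 (.thr 19 35 (.dbl 28 22 60))) (.nv (.thr 28 60 (.thr 19 22 (.dbl 3 6 35))) (.rp 60 (.thr 3 6 (.thr 19 35 (.thr 16 18 (.thr 31 26 (.thr 23 27 (.dbl 22 20 28)))))) (.rp 54 (.thr 60 28 (.thr 40 20 (.thr 32 36 (.thr 16 48 (.thr 19 18 (.dbl 3 6 35)))))) (.rp 35 (.thr 60 28 (.thr 40 20 (.thr 32 36 (.thr 37 47 (.thr 49 13 (.dbl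 48 16 50)))))) (.rp 28 (.thr 3 6 (.thr 19 35 (.thr 16 18 (.thr 32 48 (.thr 40 36 (.thr 20 60 (.thr 31 26 (.dbl 23 22 27)))))))) (.rp 22 (.thr 60 28 (.thr 40 20 (.thr 32 36 (.thr 16 48 (.thr 19 18 (.dbl 3 6 35)))))) (.rp 19 (.thr 60 28 (.thr 40 20 (.thr 32 36 (.thr 37 47 (.thr 49 13 (.dbl 48 16 50)))))) (.rp 6 (.thr 60 28 (.thr 40 20 (.thr 32 36 (.thr 37 47 (.thr 49 13 (.dbl 48 16 50)))))) (.rp 3 (.thr 60 28 (.thr 40 20 (.thr 32 36 (.thr 37 47 (.thr 49 13 (.dbl 48 16 50)))))) .nd))))))))))) (.rp 22 (.thr 41 57 (.thr 40 43 (.thr 60 20 (.thr 44 28 (.thr 32 36 (.thr 16 48 (.thr 19 18 (.dbl 3 6 35)))))))) (.rp 6 (.thr 41 57 (.thr 40 43 (.thr 60 20 (.thr 28 44 (.dbl 22 3 19))))) (.rp 3 (.thr 57 41 (.thr 60 54 (.thr 44 28 (.thr 40 20 (.thr 32 36 (.thr 37 47 (.thr 49 13 (.dbl 48 16 50))))))))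 .nd)))))))))) (.rp 4 (.thr 17 29 (.thr 51 34 (.thr 12 38 (.str 9 (.nv (.thr 8 59 (.thr 10 11 (.thr 26 58 (.thr 16 31 (.thr 19 18 (.dbl 3 6 35)))))) (.nv (.thr 41 57 (.thr 40 43 (.thr 60 20 (.dbl 3 6 22)))) (.rp 57 (.thr 8 59 (.thr 10 11 (.thr 6 3 (.thr 14 2 (.thr 15 13 (.thr 27 39 (.dbl 26 24 58))))))) (.rp 43 (.thr 41 57 (.thr 8 59 (.thr 11 10 (.thr 3 6 (.thr 7 15 (.thr 19 35 (.dbl 22 28 60))))))) (.rp 7 (.thr 6 3 (.thr 41 57 (.thr 8 59 (.thr 11 10 (.thr 56 26 (.dbl 40 24 43)))))) (.rp 6 (.str 7 (.nv (.thr 8 59 (.thr 11 10 (.thr 3 15 (.thr 19 35 (.thr 22 28 (.thr 20 23 (.dbl 60 40 41))))))) (.nv (.thr 8 59 (.thr 10 11 (.thr 26 58 (.thr 16 31 (.thr 27 24 (.thr 48 32 (.dbl 15 37 39))))))) (.nv (.thr 41 57 (.thr 40 43 (.thr 60 20 (.thr 28 44 (.dbl 22 3 19))))) (.rp 54 (.str 22 (.nv (.thr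 37 52 (.thr 32 47 (.thr 48 16 (.dbl 49 13 50)))) (.nv (.thr 28 19 (.thr 41 57 (.dbl 60 3 44))) .nd))) (.rp 28 (.thr 8 59 (.thr 11 10 (.thr 41 57 (.thr 40 43 (.dbl 56 24 26))))) (.rp 22 (.str 54 (.nv (.dbl 57 41 60) (.rp 60 (.thr 8 59 (.thr 11 10 (.thr 41 57 (.thr 56 26 (.dbl 40 24 43))))) (.rp 57 (.thr 8 59 (.thr 11 10 (.thr 15 3 (.thr 27 39 (.thr 26 24 (.thr 16 31 (.dbl 48 32 37))))))) (.rp 41 (.thr 60 57 (.thr 8 59 (.thr 40 20 (.thr 44 28 (.thr 36 32 (.dbl 24 48 56)))))) .nd))))) .nd))))))) (.rp 3 (.thr 41 57 (.thr 8 59 (.thr 11 10 (.thr 56 26 (.dbl 40 24 43))))) .nd))))))))))) .nd))))))))))))))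

theorem w92 : WinAt (4398048608257, 9223372036854775842) :=
  chF (K := []) kn c92 4398048608257 9223372036854775842 63
    [8738] (by decide +kernel) (by decide +kernel)

/-- A certificate. -/
noncomputable def c93 : Ct := (.str 25 (.nv (.thr 29 17 (.thr 12 46 (.thr 38 51 (.dbl 4 8 55)))) (.nv (.thr 17 29 (.thr 51 34 (.thr 55 59 (.dbl 38 4 12)))) (.rp 55 (.str 26 (.nv (.thr 16 31 (.thr 17 29 (.thr 19 18 (.thr 24 27 (.dbl 28 20 22))))) (.nv (.thr 16 31 (.thr 48 32 (.thr 37 15 (.dbl 53 5 58)))) (.rp 31 (.thr 24 27 (.thr 29 17 (.thr 12 46 (.thr 48 36 (.thr 53 58 (.dbl 37 5 15)))))) (.rp 16 (.thr 24 27 (.thr 29 17 (.thr 12 46 (.thr 48 36 (.thr 53 58 (.dbl 37 5 15)))))) .nd))))) (.rp 51 (.str 26 (.nv (.thr 16 31 (.thr 17 29 (.thr 19 18 (.thr 28 22 (.dbl 24 20 27))))) (.nv (.thr 16 31 (.thr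 48 32 (.thr 53 58 (.dbl 37 5 15)))) (.rp 31 (.thr 24 27 (.thr 29 17 (.thr 12 46 (.thr 48 36 (.thr 53 58 (.dbl 37 5 15)))))) (.rp 16 (.thr 24 27 (.thr 29 17 (.thr 12 46 (.thr 48 36 (.thr 53 58 (.dbl 37 5 15)))))) .nd))))) (.rp 46 (.thr 17 29 (.thr 51 34 (.thr 38 12 (.dbl 55 4 59)))) (.rp 38 (.str 22 (.nv (.thr 19 28 (.thr 23 20 (.thr 3 43 (.thr 51 35 (.dbl 17 29 34))))) (.nv (.thr 17 29 (.thr 19 28 (.thr 16 18 (.thr 48 32 (.thr 53 58 (.thr 37 5 (.dbl 26 15 31))))))) (.nv (.thr 19 28 (.thr 23 20 (.thr 31 27 (.thr 17 29 (.dbl 16 18 26))))) (.rp 46 (.str 34 (.nv (.dbl 17 29 51) (.rp 51 (.thr 20 23 (.thr 28 19 (.thr 16 24 (.thr 29 17 (.dbl 31 26 30))))) (.rp 29 (.thr 23 20 (.thr 19 28 (.thr 51 17 (.dbl 3 35 43)))) (.rp 17 (.thr 20 23 (.thr 28 19 (.thr 16 24 (.thr 31 26 (.thr 30 29 (.thr 60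 40 (.dbl 15 45 47))))))) .nd))))) (.rp 34 (.str 46 (.nv (.dbl 29 12 17) (.rp 29 (.thr 23 20 (.thr 19 28 (.thr 31 27 (.thr 16 26 (.thr 18 17 (.thr 3 43 (.dbl 48 32 33))))))) (.rp 17 (.thr 20 23 (.thr 28 19 (.thr 12 29 (.dbl 60 40 44)))) (.rp 12 (.thr 23 20 (.thr 19 28 (.thr 31 27 (.thr 17 29 (.dbl 16 18 26))))) .nd))))) (.rp 29 (.thr 19 28 (.thr 23 20 (.thr 31 27 (.thr 16 26 (.thr 18 17 (.thr 3 43 (.dbl 48 32 33))))))) (.rp 28 (.thr 20 23 (.thr 29 17 (.thr 46 12 (.thr 60 40 (.thr 61 62 (.thr 45 13 (.thr 15 30 (.dbl 47 31 44)))))))) (.rp 19 (.thr 20 23 (.thr 29 17 (.thr 46 12 (.thr 60 40 (.thr 62 61 (.thr 30 14 (.thr 31 28 (.dbl 26 16 18)))))))) (.rp 17 (.thr 19 28 (.thr 23 20 (.thr 27 31 (.thr 3 43 (.thr 51 35 (.thr 55 59 (.dbl 39 7 15))))))) (.rp 16 (.thr 28 19 (.thr 20 23 (.thr 60 40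 (.thr 12 44 (.dbl 29 17 46))))) .nd))))))))))) (.rp 29 (.str 16 (.nv (.thr 48 32 (.thr 53 58 (.thr 37 5 (.dbl 26 15 31)))) (.nv (.thr 26 31 (.thr 24 27 (.thr 48 32 (.thr 12 36 (.thr 4 8 (.dbl 38 51 55)))))) (.nv (.thr 26 31 (.thr 48 32 (.thr 37 15 (.dbl 53 5 58)))) (.rp 48 (.thr 26 31 (.thr 24 27 (.thr 28 20 (.thr 19 22 (.thr 17 18 (.thr 51 34 (.thr 55 59 (.dbl 38 4 12)))))))) (.rp 37 (.thr 26 31 (.thr 24 27 (.thr 28 20 (.thr 19 22 (.thr 17 18 (.thr 51 34 (.thr 55 59 (.dbl 38 4 12)))))))) (.rp 32 (.thr 26 31 (.thr 24 27 (.thr 28 20 (.thr 19 22 (.thr 17 18 (.thr 51 34 (.thr 55 59 (.dbl 38 4 12)))))))) (.rp 31 (.thr 48 32 (.thr 53 58 (.thr 37 5 (.thr 26 15 (.thr 24 27 (.thr 12 36 (.thr 4 8 (.dbl 38 51 55)))))))) (.rp 26 (.str 22 (.nv (.thr 28 19 (.dbl 20 23 24)) (.rp 58 (.str 10 (.nv (.thr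 28 19 (.dbl 20 23 24)) (.rp 28 (.thr 23 20 (.thr 15 5 (.thr 3 43 (.thr 41 60 (.thr 9 57 (.dbl 11 7 8)))))) (.rp 24 (.thr 19 28 (.thr 23 20 (.thr 31 27 (.dbl 15 5 47)))) (.rp 23 (.thr 19 28 (.thr 17 18 (.thr 51 34 (.thr 55 59 (.dbl 38 4 12))))) (.rp 20 (.thr 19 28 (.thr 17 18 (.thr 51 34 (.thr 55 59 (.dbl 38 4 12))))) (.rp 19 (.thr 23 20 (.thr 15 5 (.thr 3 43 (.thr 41 60 (.thr 9 57 (.dbl 11 7 8)))))) .nd))))))) (.rp 28 (.thr 20 23 (.thr 60 40 (.thr 48 32 (.thr 52 56 (.thr 37 7 (.dbl 53 5 58)))))) (.rp 24 (.thr 19 28 (.thr 18 17 (.thr 23 20 (.thr 3 43 (.dbl 48 32 33))))) (.rp 23 (.thr 19 28 (.thr 17 18 (.thr 51 34 (.thr 55 59 (.dbl 38 4 12))))) (.rp 20 (.thr 19 28 (.thr 17 18 (.thr 51 34 (.thr 55 59 (.dbl 38 4 12))))) (.rp 19 (.thr 20 23 (.thr 24 28 (.thr 60 40 (.thr 48 32 (.thr 52 56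 (.dbl 36 4 12)))))) (.rp 10 (.str 58 (.nv (.thr 20 23 (.dbl 28 19 24)) (.nv (.dbl 48 32 53) (.rp 14 (.str 2 (.nv (.thr 20 23 (.dbl 28 19 24)) (.nv (.dbl 48 32 53) (.rp 50 (.str 38 (.nv (.thr 4 55 (.dbl 12 8 51)) (.nv (.dbl 48 32 53) .nd))) (.rp 38 (.str 50 (.nv (.thr 34 18 (.thr 20 23 (.dbl 28 19 24))) (.nv (.dbl 48 32 53) (.rp 34 (.str 46 (.nv (.thr 20 23 (.dbl 28 19 24)) (.nv (.dbl 48 32 53) .nd))) .nd)))) .nd))))) (.rp 2 (.str 14 (.nv (.thr 20 23 (.dbl 28 19 24)) (.nv (.dbl 48 32 53) .nd))) .nd))))) .nd))))))))) .nd))))))))) (.rp 17 (.str 16 (.nv (.thr 26 31 (.thr 24 27 (.thr 48 32 (.thr 12 36 (.thr 4 8 (.dbl 38 51 55)))))) (.nv (.thr 26 31 (.thr 48 32 (.thr 37 15 (.dbl 53 5 58)))) (.rp 49 (.str 33 (.nv (.thr 26 31 (.thr 24 27 (.thr 20 28 (.thr 23 22 (.thr 3 43 (.dbl 48 18 32))))))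 (.nv (.thr 26 31 (.thr 48 32 (.thr 37 15 (.dbl 53 5 58)))) (.rp 48 (.thr 26 31 (.thr 24 27 (.thr 20 28 (.thr 40 60 (.thr 56 8 (.thr 11 41 (.thr 23 22 (.thr 3 43 (.thr 7 15 (.thr 55 39 (.thr 51 59 (.dbl 38 4 12)))))))))))) (.rp 32 (.thr 26 31 (.thr 24 27 (.thr 20 28 (.thr 23 22 (.thr 3 43 (.thr 48 18 (.thr 53 58 (.dbl 37 5 15)))))))) (.rp 31 (.thr 48 32 (.thr 53 58 (.thr 37 5 (.thr 41 45 (.thr 3 18 (.thr 23 43 (.dbl 22 20 60))))))) (.rp 26 (.thr 48 32 (.thr 3 18 (.thr 23 43 (.thr 22 20 (.thr 41 60 (.thr 37 45 (.dbl 53 5 58))))))) .nd))))))) (.rp 48 (.thr 26 31 (.thr 24 27 (.thr 20 28 (.thr 23 22 (.thr 40 60 (.thr 56 8 (.thr 3 43 (.thr 11 41 (.thr 7 15 (.thr 55 39 (.thr 51 59 (.dbl 38 4 12)))))))))))) (.rp 37 (.thr 26 31 (.thr 24 27 (.thr 20 28 (.thr 40 60 (.thr 8 56 (.thr 12 4 (.dbl 48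 32 36))))))) (.rp 33 (.str 49 (.nv (.thr 48 32 (.thr 51 50 (.thr 38 12 (.dbl 55 4 59)))) (.nv (.thr 31 26 (.thr 15 47 (.thr 37 13 (.dbl 5 10 53)))) (.nv (.thr 26 31 (.thr 48 32 (.dbl 37 13 15))) (.rp 37 (.thr 31 26 (.thr 48 32 (.thr 47 15 (.thr 51 50 (.thr 55 59 (.dbl 38 4 12)))))) .nd))))) (.rp 32 (.thr 26 31 (.thr 24 27 (.thr 20 28 (.thr 40 60 (.thr 8 56 (.thr 12 4 (.thr 48 36 (.thr 53 58 (.dbl 37 5 15))))))))) (.rp 31 (.thr 48 32 (.thr 53 58 (.thr 37 5 (.thr 26 15 (.thr 24 27 (.thr 12 36 (.thr 4 8 (.dbl 38 51 55)))))))) (.rp 26 (.thr 48 32 (.str 49 (.nv (.thr 51 50 (.thr 55 59 (.dbl 38 4 12))) (.nv (.thr 37 13 (.dbl 53 5 58)) (.rp 58 (.str 10 (.nv (.thr 51 50 (.thr 38 12 (.dbl 55 4 59))) (.nv (.thr 37 13 (.dbl 5 15 53)) (.rp 37 (.str 47 (.nv (.thr 51 50 (.thr 38 12 (.dbl 55 4 59)))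 (.nv (.dbl 15 5 31) .nd))) .nd)))) (.rp 37 (.str 47 (.nv (.thr 58 53 (.thr 51 50 (.thr 38 12 (.dbl 55 4 59)))) (.nv (.thr 51 50 (.thr 55 59 (.dbl 38 4 12))) (.rp 59 (.thr 15 31 (.thr 51 50 (.thr 39 27 (.thr 43 35 (.thr 23 3 (.thr 55 7 (.dbl 38 4 12))))))) (.rp 58 (.str 10 (.nv (.thr 51 50 (.thr 38 12 (.dbl 55 4 59))) (.nv (.dbl 15 5 31) .nd))) (.rp 55 (.thr 15 31 (.thr 51 50 (.thr 12 38 (.thr 14 13 (.thr 46 29 (.thr 45 44 (.dbl 30 60 62))))))) (.rp 51 (.thr 15 31 (.thr 53 58 (.thr 10 5 (.thr 61 57 (.thr 60 62 (.thr 20 40 (.thr 28 24 (.dbl 22 19 23)))))))) (.rp 50 (.thr 15 31 (.str 12 (.nv (.thr 14 13 (.thr 46 29 (.thr 30 62 (.dbl 45 44 60)))) (.nv (.thr 38 51 (.dbl 4 8 55)) (.rp 58 (.thr 10 5 (.thr 4 8 (.dbl 38 51 55))) (.rp 10 (.thr 58 53 (.thr 4 8 (.dbl 38 51 55))) .nd)))))) (.rp 38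 (.thr 15 31 (.thr 53 58 (.thr 10 5 (.thr 61 57 (.thr 60 62 (.thr 20 40 (.thr 28 24 (.dbl 22 19 23)))))))) (.rp 12 (.thr 15 31 (.thr 51 50 (.thr 55 59 (.thr 39 27 (.thr 43 35 (.dbl 23 3 7)))))) (.rp 4 (.thr 15 31 (.thr 51 50 (.thr 55 59 (.thr 39 27 (.thr 43 35 (.dbl 23 3 7)))))) .nd))))))))))) (.rp 10 (.thr 58 53 (.thr 51 50 (.thr 55 59 (.dbl 38 4 12)))) .nd))))))) .nd)))))))))) (.rp 12 (.str 3 (.nv (.thr 17 29 (.thr 51 34 (.thr 19 35 (.thr 16 18 (.thr 26 31 (.thr 24 27 (.dbl 28 20 22))))))) (.nv (.thr 17 29 (.thr 43 23 (.thr 51 34 (.thr 35 19 (.thr 39 47 (.thr 27 15 (.dbl 59 11 55))))))) (.nv (.thr 17 29 (.thr 23 43 (.thr 22 20 (.thr 19 28 (.thr 16 18 (.dbl 31 26 27)))))) (.nv (.thr 17 29 (.thr 51 34 (.thr 23 43 (.thr 22 20 (.dbl 19 28 35))))) (.rp 29 (.thr 23 43 (.thr 22 20 (.thr 19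 28 (.thr 51 35 (.thr 55 59 (.thr 39 7 (.dbl 27 15 31))))))) (.rp 19 (.thr 17 29 (.thr 43 23 (.thr 51 34 (.thr 59 55 (.thr 27 11 (.thr 26 24 (.thr 31 16 (.dbl 15 39 47)))))))) (.rp 17 (.thr 23 43 (.thr 22 20 (.thr 19 28 (.thr 51 35 (.thr 55 59 (.thr 27 31 (.dbl 39 7 15))))))) .nd)))))))) (.rp 4 (.str 5 (.nv (.thr 15 10 (.thr 17 29 (.thr 51 34 (.thr 27 39 (.thr 26 24 (.dbl 31 16 47)))))) (.nv (.thr 15 10 (.thr 29 17 (.thr 12 46 (.thr 37 53 (.dbl 13 14 49))))) (.nv (.thr 37 53 (.thr 15 10 (.thr 26 48 (.dbl 31 16 47)))) (.rp 26 (.thr 37 53 (.thr 17 29 (.thr 51 34 (.thr 38 12 (.thr 39 36 (.dbl 15 10 27)))))) (.rp 15 (.thr 53 37 (.thr 29 17 (.thr 12 46 (.thr 48 58 (.thr 24 36 (.thr 26 27 (.dbl 16 31 32))))))) (.rp 14 (.thr 37 53 (.thr 49 13 (.thr 17 29 (.thr 51 34 (.thr 48 50 (.dbl 15 10 26))))))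 (.rp 10 (.thr 37 53 (.thr 49 13 (.thr 17 29 (.thr 51 34 (.thr 48 50 (.thr 16 32 (.dbl 26 15 31))))))) (.rp 2 (.thr 37 53 (.thr 13 49 (.thr 15 10 (.thr 14 12 (.thr 31 47 (.dbl 26 16 48)))))) .nd))))))))) .nd)))))))))))

theorem w93 : WinAt (9223372036856872961, 4398046511170) :=
  chF (K := []) kn c93 9223372036856872961 4398046511170 42
    [] (by decide +kernel) (by decide +kernel)

/-- A certificate. -/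
noncomputable def c94 : Ct := (.str 48 (.nv (.thr 16 32 (.thr 26 31 (.thr 15 37 (.dbl 10 5 58)))) (.nv (.thr 32 16 (.thr 37 47 (.thr 15 26 (.dbl 5 10 53)))) (.rp 37 (.str 22 (.nv (.thr 2 62 (.thr 16 32 (.thr 26 31 (.thr 18 30 (.thr 34 50 (.dbl 17 19 51)))))) (.nv (.thr 20 23 (.thr 32 16 (.thr 40 60 (.thr 36 44 (.thr 12 24 (.dbl 4 8 52)))))) (.nv (.thr 16 32 (.thr 23 20 (.thr 31 26 (.thr 19 27 (.thr 25 28 (.dbl 17 18 29)))))) (.rp 32 (.thr 20 23 (.thr 60 40 (.thr 52 56 (.thr 36 4 (.thr 24 12 (.thr 16 28 (.thr 26 31 (.thr 3 41 (.dbl 18 30 33))))))))) (.rp 16 (.thr 20 23 (.thr 60 40 (.thr 52 56 (.thr 4 36 (.thr 8 12 (.thr 25 59 (.thr 19 28 (.thr 3 41 (.thr 51 35 (.dbl 17 29 34)))))))))) .nd)))))) (.rp 32 (.str 8 (.nv (.thr 25 59 (.thr 17 29 (.thr 51 34 (.dbl 12 4 38)))) (.nv (.thr 12 4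 (.thr 24 36 (.thr 25 59 (.thr 26 27 (.thr 10 58 (.dbl 15 5 37)))))) (.nv (.thr 12 4 (.thr 25 59 (.thr 51 38 (.dbl 17 29 34)))) (.rp 59 (.thr 12 4 (.thr 24 36 (.thr 40 56 (.thr 20 60 (.thr 16 28 (.thr 26 31 (.thr 15 37 (.dbl 10 5 58)))))))) (.rp 51 (.thr 12 4 (.thr 24 36 (.thr 40 56 (.thr 20 60 (.thr 28 16 (.thr 22 23 (.dbl 25 19 59))))))) (.rp 25 (.thr 12 4 (.thr 24 36 (.thr 40 56 (.thr 20 60 (.thr 16 28 (.thr 26 31 (.thr 10 58 (.dbl 15 5 37)))))))) (.rp 12 (.thr 25 59 (.str 51 (.nv (.dbl 17 29 34) (.rp 46 (.thr 29 17 (.thr 49 50 (.thr 37 13 (.thr 5 53 (.dbl 15 10 26))))) (.rp 34 (.thr 49 50 (.thr 37 13 (.thr 5 53 (.dbl 15 10 26)))) (.rp 29 (.str 46 (.nv (.dbl 34 17 38) (.rp 38 (.thr 49 50 (.thr 37 13 (.thr 5 53 (.dbl 15 10 26)))) (.rp 34 (.thr 49 50 (.thr 37 13 (.thr 5 53 (.dbl 15 10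 26)))) (.rp 17 (.thr 49 50 (.thr 37 13 (.thr 5 53 (.dbl 15 10 26)))) .nd))))) (.rp 17 (.thr 49 50 (.thr 37 13 (.thr 5 53 (.dbl 15 10 26)))) .nd))))))) (.rp 4 (.thr 25 59 (.thr 17 29 (.thr 51 34 (.thr 49 50 (.thr 37 13 (.thr 5 53 (.dbl 15 10 26))))))) .nd))))))))) (.rp 26 (.str 51 (.nv (.thr 32 16 (.thr 34 17 (.thr 33 35 (.thr 18 3 (.dbl 50 2 49))))) (.nv (.thr 17 34 (.thr 25 29 (.thr 8 59 (.dbl 12 4 38)))) (.rp 34 (.thr 49 50 (.thr 32 16 (.thr 37 47 (.thr 25 13 (.thr 8 59 (.dbl 12 4 38)))))) (.rp 17 (.thr 49 50 (.thr 32 16 (.thr 37 47 (.thr 25 13 (.thr 8 59 (.dbl 12 4 38)))))) .nd))))) (.rp 16 (.str 38 (.nv (.thr 34 46 (.thr 51 17 (.thr 12 25 (.dbl 4 8 55)))) (.nv (.thr 4 55 (.thr 34 46 (.thr 12 8 (.dbl 51 17 25)))) (.rp 55 (.thr 34 46 (.thr 51 17 (.thr 12 25 (.thr 36 24 (.thr 4 8 (.thr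 20 52 (.thr 40 60 (.thr 41 43 (.dbl 44 32 35))))))))) (.rp 51 (.thr 55 4 (.str 5 (.nv (.thr 37 53 (.dbl 15 10 26)) (.rp 53 (.thr 10 15 (.thr 26 58 (.thr 46 34 (.thr 14 50 (.thr 2 6 (.dbl 62 22 30)))))) (.rp 37 (.thr 10 15 (.thr 26 58 (.thr 46 34 (.thr 14 50 (.thr 2 6 (.dbl 62 22 30)))))) (.rp 26 (.thr 37 53 (.thr 39 36 (.thr 47 32 (.thr 35 43 (.thr 46 34 (.dbl 44 41 45)))))) (.rp 15 (.thr 37 53 (.thr 39 36 (.thr 47 32 (.thr 35 43 (.thr 46 34 (.dbl 44 41 45)))))) (.rp 10 (.thr 37 53 (.thr 39 36 (.thr 47 32 (.thr 35 43 (.thr 46 34 (.dbl 44 41 45)))))) .nd)))))))) (.rp 46 (.thr 4 55 (.thr 12 8 (.thr 51 25 (.thr 50 49 (.thr 26 14 (.thr 10 58 (.dbl 15 5 37))))))) (.rp 34 (.thr 4 55 (.thr 12 8 (.thr 51 25 (.thr 50 49 (.thr 26 14 (.thr 10 58 (.dbl 15 5 37))))))) (.rp 25 (.thr 4 55 (.thr 12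 8 (.thr 36 24 (.thr 20 52 (.thr 40 60 (.thr 41 43 (.dbl 44 32 35))))))) (.rp 17 (.thr 4 55 (.thr 12 8 (.thr 36 24 (.thr 20 52 (.thr 40 60 (.thr 41 43 (.dbl 44 32 35))))))) (.rp 12 (.str 50 (.nv (.thr 26 14 (.thr 10 58 (.dbl 15 5 37))) (.nv (.thr 51 49 (.dbl 34 17 46)) (.rp 46 (.str 29 (.nv (.thr 26 14 (.thr 10 58 (.dbl 15 5 37))) (.nv (.thr 17 25 (.dbl 51 34 49)) .nd))) (.rp 29 (.thr 46 34 (.thr 26 14 (.thr 10 58 (.dbl 15 5 37)))) .nd))))) (.rp 8 (.thr 34 46 (.thr 51 17 (.thr 12 25 (.thr 36 24 (.thr 37 39 (.thr 5 53 (.dbl 15 10 26))))))) (.rp 4 (.thr 34 46 (.thr 51 17 (.thr 12 25 (.thr 36 24 (.thr 37 39 (.thr 5 53 (.dbl 15 10 26))))))) .nd)))))))))))) (.rp 15 (.thr 16 32 (.thr 31 26 (.str 20 (.nv (.thr 22 23 (.thr 28 24 (.thr 25 19 (.dbl 29 17 30)))) (.nv (.thr 24 28 (.thr 60 40 (.thr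 52 56 (.dbl 36 4 12)))) (.rp 28 (.thr 60 40 (.thr 22 23 (.thr 2 62 (.thr 3 41 (.thr 18 33 (.thr 34 50 (.dbl 17 19 51))))))) (.rp 24 (.thr 60 40 (.thr 22 23 (.thr 2 62 (.thr 3 41 (.thr 18 33 (.thr 34 50 (.dbl 17 19 51))))))) (.rp 11 (.str 3 (.nv (.thr 18 33 (.thr 17 19 (.thr 28 24 (.dbl 29 25 30)))) (.nv (.thr 22 23 (.dbl 60 40 41)) (.rp 56 (.str 41 (.nv (.dbl 40 43 60) (.nv (.dbl 22 23 60) (.rp 60 (.thr 23 22 (.thr 19 27 (.dbl 18 17 33))) .nd)))) (.rp 41 (.str 56 (.nv (.thr 18 33 (.thr 23 22 (.dbl 19 17 27))) (.nv (.dbl 60 40 52) (.rp 52 (.thr 24 28 (.dbl 40 8 60)) .nd)))) .nd))))) (.rp 3 (.str 11 (.nv (.thr 28 24 (.thr 29 30 (.thr 25 17 (.dbl 22 19 23)))) (.nv (.thr 24 28 (.thr 60 40 (.thr 52 56 (.dbl 36 4 12)))) (.rp 60 (.thr 24 28 (.thr 12 36 (.thr 8 4 (.thr 25 59 (.thr 17 29 (.dbl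 51 34 38)))))) (.rp 43 (.thr 23 22 (.thr 24 28 (.thr 60 40 (.thr 52 56 (.dbl 36 4 12))))) (.rp 28 (.thr 40 60 (.thr 22 23 (.thr 43 41 (.thr 59 27 (.thr 8 25 (.thr 24 56 (.dbl 12 4 36))))))) (.rp 24 (.thr 23 22 (.thr 27 19 (.thr 43 59 (.dbl 40 41 60)))) (.rp 23 (.str 43 (.nv (.dbl 40 41 60) (.rp 60 (.thr 59 27 (.thr 28 24 (.thr 25 8 (.dbl 29 17 30)))) (.rp 55 (.str 39 (.nv (.dbl 40 41 60) (.rp 60 (.thr 59 27 (.thr 28 24 (.thr 25 8 (.dbl 29 17 30)))) (.rp 59 (.str 51 (.nv (.thr 17 34 (.thr 28 24 (.dbl 29 25 30))) (.nv (.dbl 40 41 60) .nd))) (.rp 51 (.thr 59 27 (.dbl 40 41 60)) (.rp 41 (.thr 59 27 (.thr 28 24 (.thr 25 8 (.dbl 29 17 30)))) (.rp 40 (.thr 59 27 (.thr 24 28 (.thr 8 25 (.dbl 12 4 36)))) .nd))))))) (.rp 41 (.thr 59 27 (.thr 28 24 (.thr 25 8 (.dbl 29 17 30)))) (.rp 40 (.thr 59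 27 (.thr 24 28 (.thr 8 25 (.dbl 12 4 36)))) (.rp 39 (.str 55 (.nv (.thr 4 38 (.thr 8 12 (.dbl 59 25 27))) (.nv (.dbl 40 41 60) (.rp 51 (.thr 27 59 (.dbl 40 41 60)) (.rp 27 (.str 51 (.nv (.thr 24 28 (.thr 4 38 (.dbl 12 8 36))) (.nv (.dbl 40 41 60) (.rp 24 (.str 25 (.nv (.dbl 38 4 12) (.nv (.dbl 17 29 34) .nd))) .nd)))) .nd))))) .nd))))))) .nd)))))))) .nd))))))))) (.rp 10 (.str 51 (.nv (.thr 32 16 (.thr 34 17 (.thr 33 35 (.thr 18 3 (.dbl 50 2 49))))) (.nv (.thr 17 34 (.thr 25 29 (.thr 12 38 (.dbl 8 4 59)))) (.rp 34 (.thr 49 50 (.thr 32 16 (.thr 37 47 (.thr 25 13 (.thr 8 59 (.dbl 12 4 38)))))) (.rp 17 (.thr 49 50 (.thr 32 16 (.thr 37 47 (.thr 25 13 (.thr 8 59 (.dbl 12 4 38)))))) .nd))))) (.rp 5 (.thr 32 16 (.thr 37 47 (.thr 15 26 (.str 4 (.nv (.thr 38 55 (.thr 34 46 (.thr 51 17 (.thr 49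 50 (.dbl 25 12 13))))) (.nv (.thr 12 8 (.thr 36 24 (.thr 20 52 (.dbl 40 44 60)))) (.nv (.thr 12 8 (.thr 38 55 (.dbl 36 24 39))) (.rp 13 (.str 9 (.nv (.thr 38 55 (.thr 39 36 (.thr 51 27 (.dbl 34 17 46)))) (.nv (.thr 12 8 (.thr 38 55 (.thr 34 46 (.dbl 51 17 25)))) (.nv (.thr 12 8 (.thr 36 24 (.thr 20 52 (.dbl 40 44 60)))) (.nv (.thr 12 8 (.thr 38 55 (.dbl 36 24 39))) .nd))))) (.rp 12 (.thr 38 55 (.thr 39 36 (.thr 51 27 (.dbl 34 17 46)))) (.rp 9 (.str 13 (.nv (.dbl 12 8 14) (.rp 14 (.thr 8 12 (.dbl 25 49 59)) (.rp 12 (.thr 49 25 (.thr 38 55 (.thr 39 36 (.dbl 51 27 50)))) (.rp 8 (.thr 25 49 (.thr 12 14 (.dbl 38 51 55))) .nd))))) .nd)))))))))) .nd))))))))))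

theorem w94 : WinAt (4398048608257, 9223372036854775938) :=
  chF (K := []) kn c94 4398048608257 9223372036854775938 63
    [] (by decide +kernel) (by decide +kernel)

/-- A certificate. -/
noncomputable def c95 : Ct := (.str 48 (.nv (.thr 16 32 (.thr 26 31 (.thr 15 37 (.dbl 10 5 58)))) (.nv (.thr 32 16 (.thr 37 47 (.thr 15 26 (.dbl 5 10 53)))) (.rp 37 (.str 60 (.nv (.thr 16 32 (.thr 20 40 (.thr 24 28 (.thr 22 23 (.thr 3 41 (.thr 26 31 (.dbl 18 30 33))))))) (.nv (.thr 16 32 (.thr 26 31 (.thr 40 20 (.thr 41 43 (.dbl 56 11 52))))) (.nv (.thr 52 56 (.thr 16 32 (.thr 20 40 (.thr 24 28 (.dbl 36 4 12))))) (.rp 40 (.thr 56 52 (.thr 16 32 (.thr 26 31 (.thr 10 58 (.thr 15 5 (.thr 30 45 (.thr 22 18 (.dbl 41 3 11)))))))) (.rp 32 (.thr 56 52 (.thr 40 20 (.thr 41 43 (.thr 26 11 (.thr 10 58 (.thr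 15 5 (.thr 30 45 (.dbl 22 3 18)))))))) (.rp 20 (.thr 56 52 (.thr 16 32 (.thr 26 31 (.thr 10 58 (.thr 15 5 (.thr 30 45 (.thr 22 18 (.dbl 41 3 11)))))))) (.rp 16 (.thr 56 52 (.thr 40 20 (.thr 41 43 (.thr 26 11 (.thr 10 58 (.thr 15 5 (.thr 30 45 (.dbl 22 3 18)))))))) .nd)))))))) (.rp 32 (.str 60 (.nv (.thr 20 40 (.thr 22 23 (.thr 3 41 (.thr 18 33 (.thr 26 30 (.thr 37 15 (.dbl 52 7 56))))))) (.nv (.thr 56 52 (.thr 40 20 (.thr 41 43 (.thr 26 11 (.thr 10 58 (.dbl 15 5 37)))))) (.nv (.thr 40 20 (.thr 41 43 (.thr 3 22 (.thr 33 18 (.thr 37 45 (.thr 5 53 (.dbl 15 10 26))))))) (.rp 41 (.str 16 (.nv (.thr 20 40 (.thr 24 28 (.thr 36 12 (.dbl 52 4 56)))) (.nv (.thr 26 31 (.thr 10 58 (.dbl 15 5 37))) .nd))) (.rp 40 (.thr 56 52 (.str 58 (.nv (.thr 26 10 (.thr 57 59 (.thr 51 54 (.thr 17 34 (.thr 25 29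 (.dbl 41 9 11)))))) (.nv (.thr 10 26 (.thr 5 15 (.thr 57 59 (.thr 51 54 (.thr 49 50 (.dbl 53 37 61)))))) (.nv (.thr 26 10 (.thr 15 37 (.thr 30 45 (.thr 22 18 (.dbl 41 3 11))))) (.rp 44 (.str 36 (.nv (.thr 26 10 (.thr 15 37 (.thr 30 45 (.thr 22 18 (.dbl 41 3 11))))) (.nv (.thr 12 24 (.thr 57 59 (.thr 51 54 (.thr 17 34 (.dbl 25 29 38))))) (.rp 33 (.thr 24 12 (.thr 26 10 (.thr 57 59 (.thr 25 27 (.dbl 41 9 11))))) .nd)))) (.rp 36 (.str 44 (.nv (.thr 12 28 (.thr 26 10 (.thr 57 59 (.thr 41 11 (.thr 9 25 (.dbl 3 6 22)))))) (.nv (.thr 26 10 (.thr 15 37 (.thr 30 45 (.thr 22 18 (.dbl 41 3 11))))) (.nv (.thr 12 28 (.thr 57 59 (.thr 51 54 (.thr 17 34 (.dbl 25 29 38))))) (.rp 20 (.str 4 (.nv (.thr 12 28 (.thr 38 55 (.thr 34 46 (.dbl 51 17 25)))) (.nv (.thr 26 10 (.thr 15 37 (.thr 28 12 (.thr 31 16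 (.dbl 30 29 45))))) (.nv (.thr 26 10 (.thr 38 55 (.dbl 41 11 35))) (.rp 38 (.thr 12 28 (.thr 26 10 (.thr 57 59 (.thr 41 11 (.thr 9 25 (.dbl 3 6 22)))))) .nd))))) (.rp 4 (.str 20 (.nv (.thr 22 23 (.thr 57 59 (.thr 62 2 (.dbl 54 50 51)))) (.nv (.thr 28 12 (.thr 16 24 (.dbl 26 10 31))) .nd))) .nd)))))) (.rp 26 (.thr 57 59 (.thr 51 54 (.thr 49 50 (.thr 53 61 (.thr 37 5 (.thr 17 34 (.dbl 25 13 29))))))) (.rp 10 (.thr 57 59 (.thr 51 54 (.thr 49 50 (.thr 53 61 (.thr 37 5 (.thr 17 34 (.dbl 25 13 29))))))) .nd))))))))) (.rp 37 (.thr 56 52 (.thr 40 20 (.thr 41 43 (.thr 26 11 (.thr 10 58 (.thr 15 5 (.thr 30 45 (.dbl 22 3 18)))))))) (.rp 26 (.thr 20 40 (.thr 22 23 (.thr 2 62 (.thr 3 41 (.thr 18 33 (.thr 34 50 (.thr 38 46 (.thr 54 6 (.dbl 51 17 57))))))))) (.rp 20 (.str 41 (.nv (.thr 3 22 (.thr 33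 18 (.thr 37 45 (.thr 26 15 (.dbl 56 11 52))))) (.nv (.thr 3 22 (.thr 33 18 (.thr 37 45 (.thr 5 53 (.dbl 15 10 26))))) (.nv (.thr 56 52 (.thr 26 11 (.thr 10 58 (.dbl 15 5 37)))) (.rp 37 (.thr 56 52 (.thr 26 11 (.thr 10 58 (.thr 15 5 (.thr 30 45 (.dbl 22 3 18)))))) (.rp 26 (.thr 52 56 (.thr 22 3 (.thr 37 7 (.thr 45 33 (.thr 5 53 (.dbl 15 10 30)))))) (.rp 15 (.thr 56 52 (.thr 43 40 (.thr 11 26 (.thr 59 27 (.thr 57 58 (.thr 25 9 (.thr 17 29 (.dbl 51 34 54)))))))) .nd))))))) (.rp 15 (.thr 20 40 (.thr 22 23 (.thr 2 62 (.thr 3 41 (.thr 18 33 (.thr 26 30 (.thr 10 58 (.thr 14 6 (.dbl 50 34 38))))))))) (.rp 3 (.thr 56 52 (.str 41 (.nv (.thr 26 11 (.thr 10 58 (.dbl 15 5 37))) (.nv (.dbl 40 20 43) (.rp 43 (.str 23 (.nv (.thr 26 11 (.thr 10 58 (.dbl 15 5 37))) (.nv (.dbl 20 22 40) .nd))) (.rp 23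 (.thr 43 40 (.thr 26 11 (.thr 10 58 (.dbl 15 5 37)))) .nd)))))) .nd))))))))))) (.rp 26 (.str 51 (.nv (.thr 32 16 (.thr 34 17 (.thr 33 35 (.thr 37 47 (.thr 38 46 (.thr 12 25 (.dbl 36 24 39))))))) (.nv (.thr 32 16 (.thr 37 47 (.thr 17 34 (.thr 25 29 (.dbl 49 13 50))))) (.nv (.thr 50 49 (.thr 32 16 (.thr 34 17 (.thr 33 35 (.dbl 18 2 3))))) (.rp 34 (.thr 49 50 (.thr 32 16 (.thr 37 47 (.thr 5 53 (.thr 15 10 (.thr 39 27 (.thr 38 36 (.dbl 25 12 13)))))))) (.rp 32 (.thr 49 50 (.thr 17 34 (.thr 25 29 (.thr 37 13 (.thr 5 53 (.thr 15 10 (.thr 39 27 (.dbl 38 12 36)))))))) (.rp 17 (.thr 49 50 (.thr 32 16 (.thr 37 47 (.thr 5 53 (.thr 15 10 (.thr 39 27 (.thr 38 36 (.dbl 25 12 13)))))))) (.rp 16 (.thr 49 50 (.thr 17 34 (.thr 25 29 (.thr 37 13 (.thr 5 53 (.thr 15 10 (.thr 39 27 (.dbl 38 12 36))))))))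 .nd)))))))) (.rp 16 (.str 51 (.nv (.thr 34 17 (.thr 38 46 (.thr 12 25 (.thr 36 24 (.thr 37 39 (.thr 26 15 (.dbl 50 14 49))))))) (.nv (.thr 49 50 (.thr 17 34 (.thr 25 29 (.thr 37 13 (.thr 5 53 (.dbl 15 10 26)))))) (.nv (.thr 17 34 (.thr 25 29 (.thr 12 38 (.thr 24 36 (.thr 26 27 (.thr 10 58 (.dbl 15 5 37))))))) (.rp 37 (.thr 34 17 (.thr 38 46 (.thr 4 55 (.thr 12 25 (.thr 36 24 (.thr 20 52 (.thr 22 23 (.thr 54 6 (.dbl 60 40 57))))))))) (.rp 34 (.str 25 (.nv (.thr 12 38 (.thr 24 36 (.thr 26 27 (.thr 37 15 (.dbl 49 13 50))))) (.nv (.thr 12 38 (.thr 24 36 (.thr 26 27 (.thr 10 58 (.dbl 15 5 37))))) (.nv (.thr 49 50 (.thr 37 13 (.thr 5 53 (.dbl 15 10 26)))) (.rp 37 (.thr 50 49 (.thr 38 12 (.thr 26 14 (.thr 27 24 (.thr 10 58 (.dbl 15 5 39)))))) (.rp 26 (.thr 49 50 (.thr 37 13 (.thr 5 53 (.thr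 15 10 (.thr 39 27 (.dbl 38 12 36)))))) (.rp 15 (.thr 49 50 (.thr 29 17 (.thr 13 37 (.thr 61 45 (.thr 57 53 (.thr 41 9 (.thr 40 43 (.dbl 60 20 54)))))))) .nd))))))) (.rp 26 (.thr 49 50 (.thr 17 34 (.thr 25 29 (.thr 37 13 (.thr 5 53 (.thr 15 10 (.thr 39 27 (.dbl 38 12 36)))))))) (.rp 25 (.str 32 (.nv (.thr 34 17 (.thr 33 35 (.thr 18 3 (.dbl 50 2 49)))) (.nv (.thr 37 47 (.thr 5 53 (.dbl 15 10 26))) .nd))) (.rp 17 (.thr 49 50 (.str 53 (.nv (.thr 37 5 (.thr 57 61 (.thr 60 54 (.thr 20 40 (.thr 22 23 (.dbl 52 7 56)))))) (.nv (.thr 5 37 (.thr 10 15 (.thr 57 61 (.thr 60 54 (.thr 56 52 (.dbl 58 26 59)))))) (.nv (.thr 37 5 (.thr 15 26 (.thr 39 27 (.thr 38 36 (.dbl 25 12 13))))) (.rp 37 (.thr 57 61 (.thr 60 54 (.thr 56 52 (.thr 58 59 (.thr 26 10 (.thr 40 20 (.dbl 41 11 43))))))) (.rp 19 (.str 18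 (.nv (.thr 3 33 (.thr 57 61 (.thr 60 54 (.thr 41 22 (.dbl 40 20 43))))) (.nv (.thr 37 5 (.thr 15 26 (.thr 39 27 (.thr 38 36 (.dbl 25 12 13))))) (.nv (.thr 3 33 (.thr 57 61 (.thr 60 54 (.thr 20 40 (.dbl 22 23 41))))) .nd)))) (.rp 18 (.str 19 (.nv (.thr 3 35 (.thr 37 5 (.thr 57 61 (.thr 25 13 (.thr 9 41 (.dbl 12 6 38)))))) (.nv (.thr 37 5 (.thr 15 26 (.thr 39 27 (.thr 38 36 (.dbl 25 12 13))))) (.nv (.thr 3 35 (.thr 57 61 (.thr 60 54 (.thr 20 40 (.dbl 22 23 41))))) (.rp 34 (.str 2 (.nv (.thr 3 35 (.thr 22 62 (.thr 20 23 (.dbl 60 40 41)))) (.nv (.thr 5 37 (.thr 15 10 (.thr 27 39 (.thr 23 31 (.dbl 22 20 62))))) (.nv (.thr 37 5 (.thr 22 62 (.dbl 25 13 28))) (.rp 62 (.thr 35 3 (.thr 37 5 (.thr 47 32 (.thr 15 26 (.dbl 39 27 43))))) (.rp 22 (.thr 3 35 (.thr 37 5 (.thr 57 61 (.thr 25 13 (.thr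 9 41 (.dbl 12 6 38)))))) .nd)))))) (.rp 2 (.str 34 (.nv (.thr 38 46 (.thr 55 4 (.thr 54 52 (.dbl 57 60 61)))) (.nv (.thr 35 3 (.thr 32 33 (.dbl 37 5 47))) .nd))) .nd)))))) (.rp 5 (.thr 57 61 (.thr 60 54 (.thr 56 52 (.thr 58 59 (.thr 26 10 (.thr 40 20 (.dbl 41 11 43))))))) .nd))))))))) (.rp 15 (.thr 34 17 (.thr 38 46 (.thr 4 55 (.thr 12 25 (.thr 36 24 (.thr 37 39 (.thr 5 53 (.thr 7 6 (.dbl 52 20 22))))))))) (.rp 12 (.thr 49 50 (.str 25 (.nv (.thr 37 13 (.thr 5 53 (.dbl 15 10 26))) (.nv (.dbl 17 29 34) (.rp 46 (.thr 29 17 (.thr 37 13 (.thr 5 53 (.dbl 15 10 26)))) (.rp 29 (.str 46 (.nv (.thr 37 13 (.thr 5 53 (.dbl 15 10 26))) (.nv (.dbl 34 17 38) .nd))) .nd)))))) .nd))))))))))) (.rp 15 (.thr 32 16 (.str 34 (.nv (.thr 47 37 (.thr 35 33 (.thr 38 46 (.thr 41 44 (.dbl 43 39 40))))) (.nv (.thr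 51 17 (.thr 50 49 (.thr 33 35 (.dbl 18 2 3)))) (.rp 49 (.thr 35 33 (.thr 17 51 (.thr 47 37 (.thr 38 46 (.thr 41 44 (.dbl 43 39 40)))))) (.rp 47 (.str 31 (.nv (.thr 51 17 (.thr 50 49 (.thr 33 35 (.dbl 18 2 3)))) (.rp 51 (.thr 38 46 (.thr 55 4 (.thr 35 33 (.thr 44 41 (.thr 40 36 (.thr 60 20 (.thr 52 56 (.thr 28 12 (.thr 29 30 (.thr 54 53 (.thr 22 6 (.dbl 25 17 19)))))))))))) (.rp 50 (.thr 38 46 (.thr 4 55 (.thr 51 17 (.thr 12 25 (.thr 36 24 (.thr 20 52 (.dbl 40 44 60))))))) (.rp 49 (.thr 33 35 (.thr 18 3 (.thr 2 50 (.thr 22 62 (.thr 30 26 (.thr 29 28 (.dbl 17 25 51))))))) (.rp 43 (.thr 38 46 (.thr 4 55 (.thr 51 17 (.thr 12 25 (.thr 36 24 (.thr 20 52 (.dbl 40 44 60))))))) (.rp 39 (.thr 38 46 (.thr 4 55 (.thr 51 17 (.thr 12 25 (.thr 36 24 (.thr 20 52 (.dbl 40 44 60))))))) (.rp 35 (.thr 38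 46 (.thr 4 55 (.thr 51 17 (.thr 12 25 (.thr 36 24 (.thr 20 52 (.dbl 40 44 60))))))) (.rp 33 (.thr 38 46 (.thr 4 55 (.thr 51 17 (.thr 49 50 (.thr 12 25 (.thr 36 24 (.thr 20 52 (.dbl 40 44 60)))))))) (.rp 19 (.thr 33 35 (.thr 51 17 (.thr 18 3 (.dbl 50 2 49)))) (.rp 18 (.thr 38 46 (.thr 17 51 (.thr 29 25 (.thr 28 30 (.thr 35 33 (.thr 44 41 (.thr 60 12 (.dbl 40 20 36)))))))) (.rp 17 (.thr 33 35 (.thr 18 3 (.thr 2 50 (.thr 22 62 (.thr 30 26 (.thr 23 20 (.thr 19 27 (.dbl 28 25 29)))))))) (.rp 3 (.thr 38 46 (.thr 4 55 (.thr 51 17 (.thr 12 25 (.thr 36 24 (.thr 20 52 (.dbl 40 44 60))))))) (.rp 2 (.thr 38 46 (.thr 4 55 (.thr 51 17 (.thr 12 25 (.thr 36 24 (.thr 20 52 (.dbl 40 44 60))))))) .nd)))))))))))))) (.rp 35 (.thr 51 17 (.thr 38 46 (.thr 12 25 (.thr 36 24 (.dbl 37 39 47))))) (.rp 33 (.thr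 51 17 (.thr 49 50 (.thr 38 46 (.thr 12 25 (.thr 36 24 (.dbl 37 39 47)))))) (.rp 17 (.thr 33 35 (.thr 18 3 (.thr 50 2 (.thr 51 49 (.thr 38 46 (.thr 12 25 (.thr 36 24 (.dbl 37 39 47)))))))) .nd))))))))) (.rp 10 (.thr 16 32 (.thr 26 31 (.thr 15 37 (.str 11 (.nv (.thr 41 56 (.thr 40 43 (.thr 60 20 (.thr 30 45 (.dbl 22 3 18))))) (.nv (.thr 3 7 (.thr 18 33 (.thr 17 19 (.thr 22 30 (.thr 34 51 (.dbl 2 50 62)))))) (.nv (.thr 41 56 (.thr 40 43 (.thr 3 7 (.dbl 60 20 22)))) (.rp 41 (.str 45 (.nv (.thr 3 7 (.thr 18 33 (.dbl 30 22 60))) (.nv (.thr 30 60 (.thr 3 7 (.dbl 18 22 33))) (.rp 60 (.thr 3 7 (.thr 18 33 (.thr 17 19 (.thr 34 51 (.thr 50 2 (.dbl 38 14 46)))))) (.rp 52 (.thr 30 60 (.thr 22 18 (.thr 62 2 (.thr 14 46 (.thr 12 13 (.thr 24 36 (.dbl 20 23 28))))))) (.rp 33 (.thr 30 60 (.thr 22 18 (.thr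 62 2 (.thr 14 46 (.thr 12 13 (.thr 24 36 (.dbl 20 23 28))))))) (.rp 30 (.thr 3 7 (.thr 18 33 (.thr 17 19 (.thr 34 51 (.thr 50 2 (.dbl 38 14 46)))))) (.rp 22 (.thr 60 30 (.thr 3 7 (.thr 52 56 (.thr 18 33 (.thr 17 19 (.thr 34 51 (.thr 50 2 (.dbl 38 14 46)))))))) (.rp 18 (.thr 60 30 (.thr 7 3 (.thr 20 40 (.thr 23 22 (.thr 55 39 (.thr 4 38 (.thr 36 52 (.dbl 24 12 28)))))))) (.rp 7 (.thr 30 60 (.thr 22 18 (.thr 62 2 (.thr 14 46 (.thr 12 13 (.thr 24 36 (.dbl 20 23 28))))))) (.rp 3 (.thr 30 60 (.thr 22 18 (.thr 62 2 (.thr 14 46 (.thr 12 13 (.thr 24 36 (.dbl 20 23 28))))))) .nd))))))))))) (.rp 22 (.thr 41 56 (.thr 40 43 (.thr 20 60 (.thr 24 28 (.thr 25 27 (.thr 9 57 (.thr 12 36 (.dbl 3 6 7)))))))) (.rp 3 (.thr 56 41 (.thr 60 52 (.thr 20 40 (.thr 24 28 (.thr 27 25 (.thr 43 59 (.thr 22 23 (.dbl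 30 18 45)))))))) .nd)))))))))) (.rp 5 (.thr 32 16 (.thr 37 47 (.thr 15 26 (.str 13 (.nv (.thr 25 49 (.thr 17 29 (.thr 51 34 (.thr 39 27 (.dbl 38 12 36))))) (.nv (.thr 12 14 (.thr 36 24 (.thr 38 39 (.thr 40 44 (.thr 20 60 (.dbl 4 52 55)))))) (.nv (.thr 25 49 (.thr 17 29 (.thr 12 14 (.dbl 51 34 38)))) (.rp 38 (.thr 25 49 (.thr 17 29 (.thr 34 51 (.thr 33 35 (.thr 41 45 (.thr 9 57 (.thr 3 18 (.dbl 12 6 14)))))))) (.rp 25 (.str 27 (.nv (.thr 12 14 (.thr 36 24 (.dbl 39 38 51))) (.nv (.thr 39 51 (.thr 12 14 (.dbl 36 24 38))) (.rp 51 (.thr 12 14 (.thr 36 24 (.thr 40 44 (.thr 20 60 (.thr 52 4 (.dbl 22 7 23)))))) (.rp 50 (.thr 39 51 (.thr 38 36 (.thr 55 4 (.thr 7 23 (.thr 3 11 (.thr 33 18 (.dbl 34 35 46))))))) (.rp 39 (.thr 12 14 (.thr 36 24 (.thr 40 44 (.thr 20 60 (.thr 52 4 (.dbl 22 7 23))))))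 (.rp 38 (.thr 51 39 (.thr 12 14 (.thr 50 49 (.thr 36 24 (.thr 40 44 (.thr 20 60 (.thr 52 4 (.dbl 22 7 23)))))))) (.rp 36 (.thr 51 39 (.thr 14 12 (.thr 34 17 (.thr 46 38 (.thr 62 30 (.thr 2 22 (.thr 18 50 (.dbl 33 3 35)))))))) (.rp 24 (.thr 39 51 (.thr 38 36 (.thr 55 4 (.thr 7 23 (.thr 3 11 (.thr 33 18 (.dbl 34 35 46))))))) (.rp 14 (.thr 39 51 (.thr 38 36 (.thr 55 4 (.thr 7 23 (.thr 3 11 (.thr 33 18 (.dbl 34 35 46))))))) (.rp 12 (.thr 39 51 (.thr 38 36 (.thr 55 4 (.thr 7 23 (.thr 3 11 (.thr 33 18 (.dbl 34 35 46))))))) .nd))))))))))) (.rp 12 (.thr 49 25 (.thr 51 50 (.thr 34 17 (.thr 33 35 (.thr 45 41 (.thr 29 61 (.thr 38 46 (.dbl 39 27 36)))))))) .nd)))))))))) .nd))))))))))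

theorem w95 : WinAt (4398048608257, 9223372036854776066) :=
  chF (K := []) kn c95 4398048608257 9223372036854776066 63
    [] (by decide +kernel) (by decide +kernel)

/-- A certificate. -/
noncomputable def c96 : Ct := (.str 5 (.nv (.thr 37 53 (.thr 32 47 (.thr 48 16 (.dbl 15 10 26)))) (.nv (.thr 15 10 (.thr 37 53 (.thr 48 26 (.dbl 32 16 47)))) (.rp 53 (.str 6 (.nv (.thr 4 7 (.thr 38 55 (.thr 34 46 (.thr 51 17 (.dbl 12 8 25))))) (.nv (.thr 4 7 (.thr 10 15 (.thr 14 2 (.thr 38 55 (.dbl 26 50 58))))) (.nv (.thr 4 7 (.thr 10 15 (.thr 2 14 (.thr 22 62 (.dbl 38 54 55))))) (.nv (.thr 4 7 (.thr 12 8 (.thr 38 55 (.thr 34 46 (.dbl 51 17 25))))) (.rp 58 (.str 48 (.nv (.thr 4 7 (.thr 38 55 (.thr 34 46 (.thr 51 17 (.dbl 12 8 25))))) (.nv (.thr 32 16 (.thr 37 47 (.dbl 15 10 26))) .nd))) (.rp 55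 (.thr 7 4 (.thr 10 15 (.thr 2 14 (.thr 22 62 (.thr 20 23 (.thr 60 40 (.thr 52 37 (.thr 26 58 (.thr 48 56 (.dbl 16 31 32)))))))))) (.rp 54 (.thr 7 4 (.thr 10 15 (.thr 2 14 (.thr 22 62 (.thr 20 23 (.thr 60 40 (.thr 52 37 (.thr 48 56 (.thr 16 32 (.dbl 26 31 58)))))))))) (.rp 48 (.str 58 (.nv (.dbl 10 15 26) (.rp 26 (.thr 4 7 (.thr 38 55 (.thr 34 46 (.thr 51 17 (.dbl 12 8 25))))) (.rp 15 (.thr 4 7 (.thr 38 55 (.thr 54 22 (.thr 26 10 (.dbl 50 14 62))))) (.rp 10 (.thr 4 7 (.thr 38 55 (.thr 34 46 (.thr 51 17 (.dbl 12 8 25))))) .nd))))) (.rp 38 (.thr 7 4 (.thr 10 15 (.thr 2 14 (.thr 22 62 (.thr 20 23 (.thr 60 40 (.thr 52 37 (.thr 26 58 (.thr 48 56 (.dbl 16 31 32)))))))))) (.rp 7 (.thr 10 15 (.thr 2 14 (.thr 22 62 (.thr 20 23 (.thr 60 40 (.thr 54 38 (.thr 51 57 (.thr 34 17 (.thr 18 50 (.dbl 26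 30 58)))))))))) (.rp 4 (.thr 10 15 (.thr 2 14 (.thr 22 62 (.thr 20 23 (.thr 60 40 (.thr 54 38 (.thr 51 57 (.thr 34 17 (.thr 18 50 (.dbl 26 30 58)))))))))) .nd)))))))))))) (.rp 48 (.str 7 (.nv (.thr 53 37 (.thr 4 6 (.thr 38 55 (.thr 34 46 (.thr 51 17 (.dbl 12 8 25)))))) (.nv (.thr 6 4 (.thr 10 15 (.thr 37 53 (.thr 58 26 (.thr 22 52 (.dbl 2 14 62)))))) (.nv (.thr 4 6 (.thr 12 8 (.thr 38 55 (.thr 34 46 (.dbl 51 17 25))))) (.rp 55 (.thr 6 4 (.thr 10 15 (.thr 2 14 (.thr 22 62 (.dbl 37 52 53))))) (.rp 53 (.str 58 (.nv (.dbl 10 15 26) (.rp 26 (.thr 4 6 (.thr 38 55 (.thr 34 46 (.thr 51 17 (.dbl 12 8 25))))) (.rp 15 (.thr 4 6 (.thr 38 55 (.thr 34 46 (.thr 51 17 (.dbl 12 8 25))))) (.rp 10 (.thr 4 6 (.thr 38 55 (.thr 34 46 (.thr 51 17 (.dbl 12 8 25))))) .nd))))) (.rp 6 (.thr 10 15 (.thr 37 53 (.thr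 58 26 (.thr 22 52 (.thr 20 23 (.thr 62 2 (.thr 54 50 (.thr 60 40 (.thr 51 57 (.thr 34 17 (.thr 38 46 (.thr 4 55 (.dbl 12 8 25))))))))))))) (.rp 4 (.thr 10 15 (.thr 37 53 (.thr 58 26 (.thr 22 52 (.thr 20 23 (.thr 62 2 (.thr 54 50 (.thr 38 6 (.thr 34 46 (.thr 51 17 (.dbl 60 40 57))))))))))) .nd)))))))) (.rp 47 (.thr 15 10 (.str 8 (.nv (.thr 12 4 (.thr 13 14 (.thr 37 53 (.dbl 25 49 59)))) (.nv (.thr 12 4 (.thr 25 59 (.thr 51 38 (.dbl 17 29 34)))) (.rp 59 (.thr 12 4 (.thr 13 14 (.thr 37 53 (.thr 25 49 (.thr 17 29 (.dbl 51 34 38)))))) (.rp 25 (.thr 4 12 (.thr 38 55 (.thr 37 53 (.thr 39 36 (.thr 51 27 (.dbl 34 17 46)))))) (.rp 12 (.thr 25 59 (.thr 37 53 (.thr 49 13 (.thr 48 26 (.thr 51 50 (.dbl 17 29 34)))))) (.rp 4 (.thr 25 59 (.thr 17 29 (.thr 37 53 (.thr 51 34 (.thr 27 39 (.dbl 26 24 48))))))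 .nd)))))))) (.rp 37 (.str 6 (.nv (.thr 10 15 (.thr 14 2 (.thr 26 58 (.thr 38 50 (.dbl 4 7 55))))) (.nv (.thr 4 7 (.thr 12 8 (.thr 38 55 (.thr 34 46 (.dbl 51 17 25))))) (.rp 55 (.thr 4 7 (.thr 10 15 (.thr 14 2 (.thr 12 8 (.thr 26 58 (.thr 38 50 (.thr 34 46 (.dbl 51 17 25)))))))) (.rp 38 (.thr 10 15 (.thr 2 14 (.thr 22 62 (.thr 23 20 (.thr 26 58 (.thr 30 18 (.thr 31 16 (.thr 28 29 (.dbl 19 25 27))))))))) (.rp 34 (.thr 4 7 (.thr 10 15 (.thr 14 2 (.thr 38 55 (.dbl 26 50 58))))) (.rp 10 (.thr 4 7 (.thr 38 55 (.thr 34 46 (.thr 51 17 (.dbl 12 8 25))))) (.rp 7 (.thr 10 15 (.thr 14 2 (.thr 26 58 (.thr 38 50 (.thr 34 46 (.thr 4 55 (.thr 12 8 (.dbl 51 17 25)))))))) (.rp 4 (.thr 10 15 (.thr 2 14 (.thr 22 62 (.thr 23 20 (.thr 26 58 (.thr 30 18 (.thr 31 16 (.thr 28 29 (.dbl 19 25 27))))))))) .nd)))))))))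 (.rp 32 (.str 7 (.nv (.thr 37 53 (.thr 22 52 (.thr 23 20 (.thr 55 39 (.dbl 4 6 38))))) (.nv (.thr 6 4 (.thr 10 15 (.thr 2 14 (.thr 37 53 (.dbl 22 52 62))))) (.nv (.thr 4 6 (.thr 12 8 (.thr 38 55 (.thr 34 46 (.dbl 51 17 25))))) (.rp 6 (.thr 15 10 (.thr 37 53 (.thr 22 52 (.thr 20 23 (.thr 60 40 (.dbl 3 11 41)))))) (.rp 4 (.thr 15 10 (.thr 37 53 (.thr 22 52 (.thr 20 23 (.thr 60 40 (.dbl 3 11 41)))))) .nd)))))) (.rp 26 (.str 7 (.nv (.thr 6 4 (.thr 10 15 (.thr 37 53 (.thr 22 52 (.dbl 2 14 62))))) (.nv (.thr 4 6 (.thr 12 8 (.thr 38 55 (.thr 34 46 (.dbl 51 17 25))))) (.rp 55 (.thr 6 4 (.thr 10 15 (.thr 2 14 (.thr 37 53 (.dbl 22 52 62))))) (.rp 10 (.thr 4 6 (.thr 38 55 (.thr 34 46 (.thr 51 17 (.dbl 12 8 25))))) (.rp 6 (.thr 15 10 (.thr 37 53 (.thr 22 52 (.thr 20 23 (.thr 60 40 (.dbl 3 11 41))))))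 (.rp 4 (.thr 15 10 (.thr 37 53 (.thr 22 52 (.thr 20 23 (.thr 60 40 (.dbl 3 11 41)))))) .nd))))))) (.rp 16 (.str 7 (.nv (.thr 37 53 (.thr 22 52 (.thr 23 20 (.thr 55 39 (.dbl 4 6 38))))) (.nv (.thr 6 4 (.thr 10 15 (.thr 2 14 (.thr 37 53 (.dbl 22 52 62))))) (.nv (.thr 4 6 (.thr 12 8 (.thr 38 55 (.thr 34 46 (.dbl 51 17 25))))) (.rp 6 (.thr 15 10 (.thr 37 53 (.thr 22 52 (.thr 20 23 (.thr 60 40 (.dbl 3 11 41)))))) (.rp 4 (.thr 15 10 (.thr 37 53 (.thr 22 52 (.thr 20 23 (.thr 60 40 (.dbl 3 11 41)))))) .nd)))))) (.rp 15 (.str 4 (.nv (.thr 7 6 (.thr 37 53 (.thr 22 52 (.thr 23 20 (.dbl 55 38 39))))) (.nv (.thr 12 8 (.thr 38 55 (.thr 34 46 (.dbl 51 17 25)))) (.rp 55 (.thr 7 6 (.thr 12 8 (.thr 37 53 (.thr 52 22 (.thr 36 20 (.thr 48 24 (.dbl 32 16 47))))))) (.rp 47 (.str 31 (.nv (.thr 7 6 (.thr 37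 53 (.thr 22 52 (.thr 23 20 (.dbl 55 38 39))))) (.nv (.thr 12 8 (.thr 38 55 (.thr 51 25 (.dbl 34 17 46)))) (.rp 55 (.thr 7 6 (.thr 12 8 (.thr 16 26 (.thr 37 53 (.thr 52 22 (.thr 36 20 (.dbl 48 24 32))))))) (.rp 38 (.thr 7 6 (.thr 12 8 (.thr 16 26 (.thr 37 53 (.thr 48 32 (.thr 36 24 (.dbl 52 20 22))))))) (.rp 12 (.thr 6 7 (.thr 26 16 (.thr 10 58 (.thr 14 2 (.dbl 38 50 55))))) .nd)))))) (.rp 38 (.thr 7 6 (.thr 12 8 (.thr 37 53 (.thr 47 32 (.thr 22 52 (.thr 20 23 (.thr 60 40 (.thr 44 28 (.thr 45 46 (.dbl 41 3 33)))))))))) (.rp 31 (.str 47 (.nv (.dbl 37 32 53) (.rp 53 (.thr 12 8 (.thr 38 55 (.thr 34 46 (.dbl 51 17 25)))) (.rp 37 (.thr 12 8 (.thr 38 55 (.thr 34 46 (.dbl 51 17 25)))) (.rp 32 (.thr 12 8 (.thr 38 55 (.thr 34 46 (.dbl 51 17 25)))) .nd))))) (.rp 12 (.thr 38 55 (.thr 37 53 (.thr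 36 39 (.thr 52 20 (.dbl 7 6 22))))) .nd)))))))) (.rp 10 (.str 8 (.nv (.thr 4 12 (.thr 37 53 (.thr 38 55 (.thr 36 39 (.thr 52 20 (.dbl 7 6 22)))))) (.nv (.thr 12 4 (.thr 25 59 (.thr 51 38 (.dbl 17 29 34)))) (.rp 59 (.thr 12 4 (.thr 37 53 (.thr 32 47 (.thr 48 16 (.thr 36 24 (.thr 38 39 (.thr 34 46 (.dbl 51 17 25)))))))) (.rp 51 (.thr 12 4 (.thr 37 53 (.thr 32 47 (.thr 48 16 (.thr 15 26 (.thr 13 14 (.dbl 25 49 59))))))) (.rp 38 (.thr 12 4 (.thr 25 59 (.thr 37 53 (.thr 32 47 (.thr 13 49 (.thr 15 14 (.dbl 48 16 26))))))) (.rp 29 (.thr 12 4 (.thr 25 59 (.thr 37 53 (.thr 32 47 (.thr 51 38 (.thr 49 13 (.dbl 48 16 50))))))) (.rp 12 (.thr 25 59 (.thr 37 53 (.thr 32 47 (.thr 49 13 (.thr 48 16 (.thr 51 50 (.dbl 17 29 34))))))) (.rp 4 (.thr 25 59 (.thr 17 29 (.thr 37 53 (.thr 32 47 (.thr 51 34 (.thr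 49 13 (.dbl 48 16 50))))))) .nd))))))))) .nd))))))))))))

theorem w96 : WinAt (4398048608257, 9223372036854776322) :=
  chF (K := []) kn c96 4398048608257 9223372036854776322 63
    [8738] (by decide +kernel) (by decide +kernel)

/-- A certificate. -/
noncomputable def c97 : Ct := (.str 4 (.nv (.thr 38 55 (.thr 34 46 (.thr 51 17 (.dbl 12 8 25)))) (.nv (.thr 12 8 (.thr 38 55 (.thr 51 25 (.dbl 34 17 46)))) (.rp 55 (.str 20 (.nv (.thr 12 8 (.thr 36 52 (.thr 40 60 (.thr 48 24 (.dbl 32 16 44))))) (.nv (.thr 12 8 (.thr 22 23 (.thr 60 40 (.thr 28 44 (.thr 25 19 (.thr 17 29 (.dbl 51 34 38))))))) (.nv (.thr 8 12 (.thr 22 23 (.thr 40 60 (.thr 24 56 (.thr 28 16 (.dbl 25 19 59)))))) (.nv (.thr 60 40 (.thr 12 8 (.thr 28 44 (.thr 24 16 (.dbl 36 48 52))))) (.rp 60 (.thr 52 36 (.thr 12 8 (.thr 22 23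 (.thr 7 37 (.thr 6 5 (.thr 38 54 (.thr 34 46 (.dbl 51 17 25)))))))) (.rp 59 (.str 51 (.nv (.thr 12 8 (.thr 36 52 (.thr 24 48 (.thr 28 16 (.dbl 60 40 44))))) (.nv (.thr 17 34 (.thr 25 29 (.dbl 12 8 38))) (.rp 12 (.thr 34 17 (.thr 22 23 (.thr 60 40 (.thr 54 57 (.dbl 38 6 46))))) (.rp 8 (.thr 34 17 (.thr 22 23 (.thr 60 40 (.thr 54 57 (.dbl 38 6 46))))) .nd))))) (.rp 51 (.str 59 (.nv (.dbl 8 12 25) (.rp 25 (.thr 36 52 (.thr 40 60 (.thr 32 44 (.thr 48 16 (.dbl 12 8 24))))) (.rp 12 (.thr 22 23 (.thr 52 36 (.thr 60 40 (.thr 48 56 (.thr 32 16 (.dbl 37 7 47)))))) (.rp 8 (.thr 22 23 (.thr 52 36 (.thr 7 37 (.thr 6 5 (.thr 62 2 (.thr 60 40 (.thr 56 48 (.thr 58 57 (.dbl 54 38 50))))))))) .nd))))) (.rp 44 (.thr 52 36 (.thr 12 8 (.thr 22 23 (.thr 7 37 (.thr 6 5 (.thr 38 54 (.thr 34 46 (.dbl 51 17 25))))))))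 (.rp 40 (.thr 52 36 (.thr 12 8 (.thr 22 23 (.thr 7 37 (.thr 6 5 (.thr 38 54 (.thr 34 46 (.dbl 51 17 25)))))))) (.rp 24 (.thr 52 36 (.thr 60 40 (.thr 48 56 (.thr 8 12 (.thr 32 16 (.thr 37 47 (.dbl 22 7 23))))))) (.rp 12 (.thr 52 36 (.thr 60 40 (.thr 48 56 (.thr 32 16 (.thr 37 47 (.dbl 22 7 23)))))) (.rp 8 (.thr 36 52 (.thr 40 60 (.thr 32 44 (.thr 48 16 (.thr 12 24 (.thr 37 47 (.thr 38 39 (.thr 51 25 (.dbl 34 17 46))))))))) .nd))))))))))))) (.rp 51 (.str 7 (.nv (.thr 5 6 (.thr 12 8 (.thr 37 53 (.thr 32 47 (.thr 48 16 (.thr 36 24 (.dbl 52 20 22))))))) (.nv (.thr 5 6 (.thr 37 53 (.thr 22 52 (.thr 23 20 (.dbl 55 38 39))))) (.nv (.thr 5 6 (.thr 12 8 (.thr 37 53 (.thr 32 47 (.thr 48 16 (.thr 36 24 (.dbl 38 39 55))))))) (.nv (.thr 55 38 (.thr 23 39 (.thr 22 20 (.thr 37 52 (.dbl 5 6 53))))) (.rp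 55 (.str 59 (.nv (.dbl 8 12 25) (.rp 25 (.thr 5 6 (.thr 37 53 (.thr 52 22 (.thr 36 20 (.thr 32 47 (.thr 48 16 (.dbl 12 8 24))))))) (.rp 12 (.thr 5 6 (.thr 37 53 (.thr 52 22 (.thr 20 36 (.thr 32 47 (.thr 48 16 (.dbl 60 40 56))))))) (.rp 8 (.thr 5 6 (.thr 37 53 (.thr 52 22 (.thr 20 36 (.thr 32 47 (.thr 48 16 (.dbl 60 40 56))))))) .nd))))) (.rp 53 (.thr 6 5 (.thr 8 12 (.thr 38 55 (.thr 59 25 (.thr 22 54 (.thr 52 37 (.dbl 20 23 36))))))) (.rp 37 (.thr 6 5 (.thr 8 12 (.thr 38 55 (.thr 59 25 (.thr 46 34 (.thr 22 54 (.thr 20 23 (.thr 62 2 (.thr 30 14 (.thr 60 40 (.thr 15 45 (.dbl 3 11 41)))))))))))) (.rp 20 (.thr 5 6 (.thr 37 53 (.thr 32 47 (.thr 22 52 (.thr 48 16 (.thr 15 26 (.thr 3 11 (.thr 41 60 (.dbl 33 18 45))))))))) (.rp 6 (.thr 8 12 (.thr 55 38 (.thr 25 59 (.thr 23 39 (.thr 22 20 (.thr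 19 28 (.thr 37 52 (.thr 32 47 (.thr 16 48 (.dbl 31 26 27)))))))))) (.rp 5 (.thr 12 8 (.thr 55 38 (.thr 23 39 (.thr 20 22 (.thr 40 60 (.thr 36 52 (.thr 32 44 (.dbl 48 16 24)))))))) .nd))))))))))) (.rp 46 (.str 7 (.nv (.thr 12 8 (.thr 5 6 (.thr 37 53 (.thr 22 52 (.thr 23 20 (.dbl 55 38 39)))))) (.nv (.thr 5 6 (.thr 12 8 (.thr 37 53 (.thr 32 47 (.thr 38 55 (.thr 36 39 (.dbl 48 16 24))))))) (.nv (.thr 5 6 (.thr 12 8 (.thr 37 53 (.thr 32 47 (.thr 48 16 (.thr 36 24 (.dbl 52 20 22))))))) (.nv (.thr 55 38 (.thr 23 39 (.thr 22 20 (.thr 37 52 (.dbl 5 6 53))))) (.rp 53 (.thr 6 5 (.thr 38 55 (.thr 22 54 (.thr 52 37 (.dbl 20 23 36))))) (.rp 52 (.thr 5 6 (.thr 12 8 (.thr 37 53 (.thr 32 47 (.thr 48 16 (.thr 36 24 (.dbl 38 39 55))))))) (.rp 37 (.thr 6 5 (.thr 12 8 (.thr 38 55 (.thr 22 54 (.thr 20 23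 (.thr 60 40 (.dbl 3 9 41))))))) (.rp 12 (.str 29 (.nv (.thr 5 6 (.thr 37 53 (.thr 22 52 (.thr 23 20 (.dbl 55 38 39))))) (.nv (.thr 6 5 (.thr 38 55 (.thr 22 54 (.thr 52 37 (.dbl 20 23 36))))) (.nv (.thr 55 38 (.thr 23 39 (.thr 22 20 (.thr 37 52 (.dbl 5 6 53))))) (.rp 55 (.thr 5 6 (.thr 37 53 (.thr 32 47 (.thr 52 22 (.thr 20 36 (.thr 60 40 (.dbl 48 16 56))))))) (.rp 52 (.thr 5 6 (.thr 17 25 (.thr 55 38 (.thr 51 34 (.thr 39 23 (.thr 37 53 (.thr 32 47 (.thr 15 27 (.dbl 48 16 26))))))))) (.rp 38 (.thr 5 6 (.thr 25 17 (.thr 37 53 (.thr 32 47 (.thr 22 52 (.thr 20 23 (.thr 28 19 (.dbl 16 24 48)))))))) (.rp 37 (.thr 6 5 (.thr 25 17 (.thr 38 55 (.thr 22 54 (.thr 20 23 (.thr 28 19 (.thr 31 30 (.dbl 16 24 26)))))))) (.rp 23 (.thr 5 6 (.thr 38 55 (.thr 37 53 (.thr 36 39 (.dbl 52 20 22))))) (.rp 22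 (.thr 5 6 (.thr 17 25 (.thr 38 55 (.thr 37 53 (.thr 39 36 (.thr 32 47 (.thr 51 34 (.thr 15 27 (.dbl 48 16 26))))))))) (.rp 20 (.thr 5 6 (.thr 25 17 (.thr 37 53 (.thr 32 47 (.thr 22 52 (.thr 28 19 (.thr 31 30 (.dbl 16 26 48)))))))) (.rp 6 (.thr 25 17 (.thr 55 38 (.thr 23 39 (.thr 22 20 (.thr 28 19 (.thr 31 30 (.thr 16 26 (.thr 37 52 (.dbl 32 47 48))))))))) (.rp 5 (.thr 17 25 (.thr 55 38 (.thr 51 34 (.thr 23 39 (.thr 20 22 (.thr 60 40 (.thr 54 57 (.dbl 52 36 53)))))))) .nd))))))))))))) (.rp 6 (.thr 55 38 (.thr 23 39 (.thr 22 20 (.thr 37 52 (.thr 32 47 (.thr 16 48 (.thr 31 26 (.thr 19 27 (.thr 25 28 (.dbl 8 12 59)))))))))) (.rp 5 (.thr 12 8 (.thr 55 38 (.thr 23 39 (.thr 20 22 (.thr 40 60 (.thr 36 52 (.thr 32 44 (.dbl 48 16 24)))))))) .nd))))))))))) (.rp 38 (.str 22 (.nv (.thr 20 23 (.thr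 52 36 (.thr 37 7 (.thr 32 47 (.thr 48 16 (.dbl 60 40 56)))))) (.nv (.thr 8 12 (.thr 25 59 (.thr 28 19 (.thr 29 17 (.thr 31 30 (.thr 16 26 (.dbl 20 23 24))))))) (.nv (.thr 12 8 (.thr 20 23 (.thr 36 52 (.thr 48 24 (.thr 32 16 (.dbl 40 44 60)))))) (.rp 23 (.thr 8 12 (.thr 25 59 (.thr 29 17 (.thr 28 19 (.thr 31 30 (.thr 16 26 (.thr 20 24 (.thr 52 36 (.thr 48 32 (.dbl 60 40 56)))))))))) (.rp 20 (.thr 8 12 (.thr 25 59 (.thr 29 17 (.thr 28 19 (.thr 31 30 (.thr 16 26 (.thr 32 48 (.thr 37 47 (.thr 7 52 (.dbl 5 6 53)))))))))) (.rp 16 (.thr 20 23 (.thr 52 36 (.thr 60 40 (.thr 48 56 (.thr 37 7 (.thr 26 15 (.thr 18 30 (.dbl 3 33 41)))))))) .nd))))))) (.rp 34 (.str 7 (.nv (.thr 5 6 (.thr 12 8 (.thr 37 53 (.thr 32 47 (.thr 38 55 (.thr 36 39 (.dbl 48 16 24))))))) (.nv (.thr 5 6 (.thr 12 8 (.thr 37 53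 (.thr 32 47 (.thr 48 16 (.thr 36 24 (.dbl 52 20 22))))))) (.nv (.thr 55 38 (.thr 23 39 (.thr 22 20 (.thr 37 52 (.dbl 5 6 53))))) (.rp 53 (.thr 6 5 (.thr 38 55 (.thr 22 54 (.thr 52 37 (.dbl 20 23 36))))) (.rp 52 (.thr 5 6 (.thr 12 8 (.thr 37 53 (.thr 32 47 (.thr 48 16 (.thr 36 24 (.dbl 38 39 55))))))) (.rp 37 (.thr 6 5 (.thr 12 8 (.thr 38 55 (.thr 22 54 (.thr 20 23 (.thr 60 40 (.dbl 3 9 41))))))) (.rp 36 (.thr 5 6 (.thr 55 38 (.thr 23 39 (.thr 37 53 (.dbl 22 20 52))))) (.rp 6 (.thr 8 12 (.thr 55 38 (.thr 23 39 (.thr 22 20 (.thr 25 59 (.thr 19 28 (.thr 31 27 (.thr 16 26 (.dbl 17 18 29))))))))) (.rp 5 (.thr 12 8 (.thr 55 38 (.thr 23 39 (.thr 20 22 (.thr 40 60 (.thr 36 52 (.thr 32 44 (.dbl 48 16 24)))))))) .nd)))))))))) (.rp 25 (.str 7 (.nv (.thr 5 6 (.thr 37 53 (.thr 22 52 (.thr 23 20 (.dbl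 55 38 39))))) (.nv (.thr 5 6 (.thr 12 8 (.thr 37 53 (.thr 32 47 (.thr 38 55 (.thr 36 39 (.dbl 48 16 24))))))) (.nv (.thr 5 6 (.thr 12 8 (.thr 37 53 (.thr 32 47 (.thr 48 16 (.thr 36 24 (.dbl 52 20 22))))))) (.nv (.thr 55 38 (.thr 23 39 (.thr 22 20 (.thr 37 52 (.dbl 5 6 53))))) (.rp 53 (.thr 6 5 (.thr 38 55 (.thr 22 54 (.thr 52 37 (.dbl 20 23 36))))) (.rp 52 (.thr 5 6 (.thr 12 8 (.thr 37 53 (.thr 32 47 (.thr 48 16 (.thr 36 24 (.dbl 38 39 55))))))) (.rp 37 (.thr 6 5 (.thr 12 8 (.thr 38 55 (.thr 22 54 (.thr 20 23 (.thr 60 40 (.dbl 3 9 41))))))) (.rp 6 (.thr 55 38 (.thr 23 39 (.thr 22 20 (.thr 37 52 (.thr 32 47 (.thr 48 16 (.thr 15 26 (.thr 3 11 (.thr 41 60 (.dbl 33 18 45)))))))))) (.rp 5 (.thr 12 8 (.thr 55 38 (.thr 23 39 (.thr 20 22 (.thr 40 60 (.thr 36 52 (.thr 32 44 (.dbl 48 16 24))))))))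 .nd)))))))))) (.rp 17 (.str 7 (.nv (.thr 5 6 (.thr 12 8 (.thr 37 53 (.thr 32 47 (.thr 38 55 (.thr 36 39 (.dbl 48 16 24))))))) (.nv (.thr 5 6 (.thr 12 8 (.thr 37 53 (.thr 32 47 (.thr 48 16 (.thr 36 24 (.dbl 52 20 22))))))) (.nv (.thr 55 38 (.thr 23 39 (.thr 22 20 (.thr 37 52 (.dbl 5 6 53))))) (.rp 53 (.thr 6 5 (.thr 38 55 (.thr 22 54 (.thr 52 37 (.dbl 20 23 36))))) (.rp 52 (.thr 5 6 (.thr 12 8 (.thr 37 53 (.thr 32 47 (.thr 48 16 (.thr 36 24 (.dbl 38 39 55))))))) (.rp 49 (.str 33 (.nv (.thr 5 6 (.thr 37 53 (.thr 32 47 (.thr 48 16 (.thr 15 26 (.dbl 3 11 18)))))) (.nv (.thr 55 38 (.thr 23 39 (.thr 22 20 (.thr 37 52 (.dbl 5 6 53))))) (.rp 53 (.thr 6 5 (.thr 38 55 (.thr 22 54 (.thr 52 37 (.dbl 20 23 36))))) (.rp 37 (.thr 6 5 (.thr 12 8 (.thr 38 55 (.thr 34 46 (.thr 32 35 (.thr 48 16 (.dbl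 3 9 18))))))) (.rp 6 (.thr 38 55 (.thr 34 46 (.thr 32 35 (.thr 37 47 (.thr 52 22 (.dbl 36 20 39)))))) (.rp 5 (.thr 38 55 (.thr 34 46 (.thr 32 35 (.thr 37 47 (.thr 52 22 (.dbl 36 20 39)))))) .nd))))))) (.rp 37 (.thr 6 5 (.thr 12 8 (.thr 38 55 (.thr 22 54 (.thr 20 23 (.thr 60 40 (.dbl 3 9 41))))))) (.rp 36 (.thr 5 6 (.thr 55 38 (.thr 23 39 (.thr 37 53 (.dbl 22 20 52))))) (.rp 33 (.str 49 (.nv (.thr 5 6 (.thr 8 12 (.thr 37 53 (.dbl 25 13 59)))) (.nv (.thr 55 38 (.thr 23 39 (.thr 22 20 (.thr 37 52 (.dbl 5 6 53))))) (.rp 53 (.thr 38 55 (.thr 6 5 (.thr 22 54 (.thr 52 37 (.dbl 20 23 36))))) (.rp 37 (.thr 38 55 (.thr 6 5 (.thr 22 54 (.thr 20 23 (.thr 60 40 (.thr 12 8 (.dbl 3 9 41))))))) (.rp 6 (.thr 55 38 (.thr 23 39 (.thr 22 20 (.thr 37 52 (.thr 25 13 (.dbl 8 12 59)))))) (.rp 5 (.thr 55 38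 (.thr 23 39 (.thr 22 20 (.thr 37 52 (.thr 8 12 (.dbl 25 13 59)))))) .nd))))))) (.rp 6 (.thr 8 12 (.thr 55 38 (.thr 23 39 (.thr 22 20 (.thr 37 52 (.thr 32 47 (.thr 25 59 (.thr 19 28 (.thr 31 27 (.dbl 16 26 48)))))))))) (.rp 5 (.thr 12 8 (.thr 55 38 (.thr 23 39 (.thr 20 22 (.thr 40 60 (.thr 36 52 (.thr 32 44 (.dbl 48 16 24)))))))) .nd)))))))))))) (.rp 12 (.str 7 (.nv (.thr 5 6 (.thr 37 53 (.thr 32 47 (.thr 48 16 (.thr 52 22 (.thr 20 36 (.dbl 60 40 56))))))) (.nv (.thr 55 38 (.thr 23 39 (.thr 22 20 (.thr 37 52 (.dbl 5 6 53))))) (.rp 53 (.thr 6 5 (.thr 38 55 (.thr 22 54 (.thr 52 37 (.dbl 20 23 36))))) (.rp 52 (.thr 5 6 (.thr 37 53 (.thr 32 47 (.thr 48 16 (.thr 15 26 (.thr 3 11 (.thr 33 18 (.thr 34 35 (.dbl 38 46 55))))))))) (.rp 46 (.str 29 (.nv (.thr 5 6 (.thr 37 53 (.thr 22 52 (.thr 23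 20 (.dbl 55 38 39))))) (.nv (.thr 6 5 (.thr 38 55 (.thr 22 54 (.thr 52 37 (.dbl 20 23 36))))) (.nv (.thr 55 38 (.thr 23 39 (.thr 22 20 (.thr 37 52 (.dbl 5 6 53))))) (.rp 55 (.thr 5 6 (.thr 37 53 (.thr 32 47 (.thr 52 22 (.thr 20 36 (.thr 60 40 (.dbl 48 16 56))))))) (.rp 52 (.thr 5 6 (.thr 17 25 (.thr 55 38 (.thr 51 34 (.thr 39 23 (.thr 37 53 (.thr 32 47 (.thr 15 27 (.dbl 48 16 26))))))))) (.rp 38 (.thr 5 6 (.thr 25 17 (.thr 37 53 (.thr 32 47 (.thr 22 52 (.thr 20 23 (.thr 28 19 (.dbl 16 24 48)))))))) (.rp 37 (.thr 6 5 (.thr 25 17 (.thr 38 55 (.thr 22 54 (.thr 20 23 (.thr 28 19 (.thr 31 30 (.dbl 16 24 26)))))))) (.rp 23 (.thr 5 6 (.thr 38 55 (.thr 37 53 (.thr 36 39 (.dbl 52 20 22))))) (.rp 22 (.thr 5 6 (.thr 17 25 (.thr 38 55 (.thr 37 53 (.thr 39 36 (.thr 32 47 (.thr 51 34 (.thr 15 27 (.dbl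 48 16 26))))))))) (.rp 20 (.thr 5 6 (.thr 25 17 (.thr 37 53 (.thr 32 47 (.thr 22 52 (.thr 28 19 (.thr 31 30 (.dbl 16 26 48)))))))) (.rp 6 (.thr 25 17 (.thr 55 38 (.thr 23 39 (.thr 22 20 (.thr 28 19 (.thr 31 30 (.thr 16 26 (.thr 37 52 (.dbl 32 47 48))))))))) (.rp 5 (.thr 17 25 (.thr 55 38 (.thr 51 34 (.thr 23 39 (.thr 20 22 (.thr 60 40 (.thr 54 57 (.dbl 52 36 53)))))))) .nd))))))))))))) (.rp 38 (.thr 5 6 (.thr 37 53 (.thr 32 47 (.thr 22 52 (.thr 20 23 (.thr 60 40 (.thr 3 41 (.thr 15 11 (.dbl 48 16 26))))))))) (.rp 37 (.thr 6 5 (.thr 38 55 (.thr 46 34 (.thr 22 54 (.thr 20 23 (.thr 62 2 (.thr 30 14 (.thr 60 40 (.thr 15 45 (.dbl 3 11 41)))))))))) (.rp 36 (.thr 5 6 (.thr 55 38 (.thr 23 39 (.thr 37 53 (.dbl 22 20 52))))) (.rp 29 (.str 46 (.nv (.dbl 38 34 55) (.rp 55 (.thr 5 6 (.thr 38 34 (.thr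 37 53 (.thr 36 39 (.dbl 52 20 22))))) (.rp 38 (.thr 5 6 (.thr 37 53 (.thr 47 32 (.thr 45 44 (.thr 41 33 (.thr 40 43 (.thr 60 20 (.dbl 22 3 52)))))))) (.rp 34 (.thr 5 6 (.thr 38 55 (.thr 37 53 (.thr 36 39 (.dbl 52 20 22))))) .nd))))) (.rp 22 (.thr 5 6 (.thr 38 55 (.thr 37 53 (.thr 36 39 (.thr 32 47 (.thr 40 44 (.dbl 20 52 60))))))) (.rp 20 (.thr 5 6 (.thr 38 55 (.thr 46 34 (.thr 37 53 (.thr 39 36 (.thr 47 32 (.thr 44 45 (.dbl 35 41 43)))))))) (.rp 6 (.thr 55 38 (.thr 23 39 (.thr 22 20 (.thr 37 52 (.thr 32 47 (.thr 16 48 (.thr 31 26 (.thr 19 27 (.thr 25 28 (.dbl 17 18 29)))))))))) (.rp 5 (.thr 55 38 (.thr 23 39 (.thr 22 20 (.thr 37 52 (.thr 32 47 (.thr 16 48 (.thr 31 26 (.thr 19 27 (.thr 25 28 (.dbl 17 18 29)))))))))) .nd)))))))))))))) (.rp 8 (.str 7 (.nv (.thr 5 6 (.thr 37 53 (.thr 32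 47 (.thr 48 16 (.thr 52 22 (.thr 20 36 (.dbl 60 40 56))))))) (.nv (.thr 55 38 (.thr 23 39 (.thr 22 20 (.thr 37 52 (.dbl 5 6 53))))) (.rp 53 (.thr 6 5 (.thr 38 55 (.thr 22 54 (.thr 52 37 (.dbl 20 23 36))))) (.rp 52 (.thr 6 5 (.thr 38 55 (.thr 34 46 (.thr 54 22 (.thr 51 17 (.thr 12 25 (.thr 60 57 (.thr 40 20 (.thr 41 43 (.dbl 44 28 35)))))))))) (.rp 38 (.thr 5 6 (.thr 37 53 (.thr 32 47 (.thr 22 52 (.thr 20 23 (.thr 60 40 (.thr 3 41 (.thr 48 16 (.dbl 15 11 26))))))))) (.rp 37 (.thr 6 5 (.thr 38 55 (.thr 34 46 (.thr 22 54 (.thr 20 23 (.thr 60 40 (.thr 3 41 (.thr 51 17 (.dbl 12 9 25))))))))) (.rp 36 (.thr 5 6 (.thr 55 38 (.thr 23 39 (.thr 37 53 (.dbl 22 20 52))))) (.rp 22 (.thr 5 6 (.thr 38 55 (.thr 37 53 (.thr 36 39 (.thr 32 47 (.thr 40 44 (.dbl 20 52 60))))))) (.rp 20 (.thr 5 6 (.thr 38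 55 (.thr 46 34 (.thr 37 53 (.thr 39 36 (.thr 47 32 (.thr 44 45 (.dbl 35 41 43)))))))) (.rp 11 (.str 9 (.nv (.thr 6 5 (.thr 38 55 (.thr 34 46 (.thr 51 17 (.dbl 12 3 25))))) (.nv (.thr 55 38 (.thr 23 39 (.thr 22 20 (.thr 37 52 (.dbl 5 6 53))))) (.rp 55 (.thr 5 6 (.thr 37 53 (.thr 32 47 (.thr 52 22 (.thr 20 36 (.thr 60 40 (.dbl 48 16 56))))))) (.rp 38 (.thr 5 6 (.thr 37 53 (.thr 32 47 (.thr 22 52 (.thr 20 23 (.thr 60 40 (.thr 3 41 (.thr 48 16 (.thr 18 33 (.dbl 26 15 30)))))))))) (.rp 6 (.thr 55 38 (.thr 23 39 (.thr 22 20 (.thr 37 52 (.thr 32 47 (.thr 16 48 (.thr 31 26 (.thr 19 27 (.thr 25 28 (.dbl 17 18 29)))))))))) (.rp 5 (.thr 38 55 (.thr 34 46 (.thr 51 17 (.thr 12 25 (.thr 6 3 (.thr 22 54 (.thr 52 37 (.dbl 20 23 36)))))))) .nd))))))) (.rp 9 (.str 11 (.nv (.thr 5 6 (.thr 37 53 (.thr 32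 47 (.thr 48 16 (.dbl 15 3 26))))) (.nv (.thr 55 38 (.thr 23 39 (.thr 22 20 (.thr 37 52 (.dbl 5 6 53))))) (.rp 53 (.thr 15 3 (.thr 55 38 (.thr 23 39 (.thr 22 20 (.thr 37 52 (.thr 32 47 (.dbl 48 16 26))))))) (.rp 37 (.thr 3 15 (.thr 38 55 (.thr 34 46 (.thr 51 17 (.thr 35 19 (.thr 41 44 (.thr 40 43 (.dbl 60 20 22)))))))) (.rp 6 (.thr 55 38 (.thr 23 39 (.thr 22 20 (.thr 37 52 (.thr 32 47 (.thr 48 16 (.dbl 15 3 26))))))) (.rp 5 (.str 13 (.nv (.thr 38 55 (.thr 34 46 (.thr 51 17 (.thr 12 25 (.dbl 15 3 14))))) (.nv (.thr 55 38 (.thr 23 39 (.thr 22 20 (.thr 37 52 (.thr 32 47 (.thr 48 16 (.dbl 15 3 26))))))) (.nv (.thr 15 3 (.thr 12 14 (.thr 38 55 (.thr 51 25 (.dbl 34 17 46))))) (.rp 55 (.str 51 (.nv (.thr 15 3 (.thr 12 14 (.thr 25 38 (.thr 27 39 (.thr 26 24 (.dbl 37 48 49)))))) (.nv (.thr 17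 34 (.thr 25 29 (.thr 37 49 (.thr 52 22 (.thr 36 20 (.dbl 38 12 39)))))) (.nv (.thr 17 34 (.thr 25 29 (.thr 12 38 (.dbl 15 3 14)))) (.rp 38 (.thr 3 15 (.thr 19 35 (.thr 17 34 (.thr 25 29 (.thr 22 28 (.dbl 37 49 52)))))) (.rp 25 (.thr 3 15 (.thr 35 19 (.thr 34 17 (.thr 38 46 (.thr 41 44 (.thr 40 43 (.dbl 60 20 22))))))) (.rp 12 (.thr 3 15 (.thr 19 35 (.thr 17 34 (.thr 16 18 (.thr 31 26 (.thr 23 27 (.thr 22 20 (.dbl 25 28 29)))))))) .nd))))))) (.rp 38 (.str 37 (.nv (.thr 22 52 (.thr 20 23 (.thr 60 40 (.dbl 3 15 41)))) (.nv (.thr 32 47 (.thr 48 16 (.dbl 15 3 26))) (.rp 15 (.thr 22 52 (.thr 20 23 (.thr 25 49 (.thr 28 19 (.thr 16 24 (.dbl 32 47 48)))))) (.rp 3 (.thr 32 47 (.thr 52 22 (.thr 20 36 (.thr 60 40 (.dbl 48 16 56))))) .nd))))) (.rp 15 (.thr 55 38 (.thr 23 39 (.thr 22 20 (.thr 37 52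 (.thr 25 49 (.thr 19 28 (.thr 17 29 (.thr 16 18 (.dbl 32 47 48))))))))) (.rp 3 (.thr 38 55 (.thr 34 46 (.thr 51 17 (.thr 12 25 (.thr 15 14 (.thr 39 27 (.thr 37 36 (.thr 32 47 (.dbl 48 16 26))))))))) .nd)))))))) .nd))))))) (.rp 6 (.thr 55 38 (.thr 23 39 (.thr 22 20 (.thr 37 52 (.thr 32 47 (.thr 16 48 (.thr 31 26 (.thr 19 27 (.thr 25 28 (.dbl 17 18 29)))))))))) (.rp 5 (.thr 55 38 (.thr 23 39 (.thr 22 20 (.thr 37 52 (.thr 32 47 (.thr 16 48 (.thr 31 26 (.thr 19 27 (.thr 25 28 (.dbl 17 18 29)))))))))) .nd)))))))))))))) .nd))))))))))))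

theorem w97 : WinAt (4398048608257, 9223372036854776834) :=
  chF (K := []) kn c97 4398048608257 9223372036854776834 63
    [] (by decide +kernel) (by decide +kernel)

/-- A certificate. -/
noncomputable def c98 : Ct := (.str 48 (.nv (.thr 32 16 (.thr 37 47 (.thr 15 26 (.dbl 5 10 53)))) (.nv (.thr 16 32 (.thr 26 31 (.thr 15 37 (.dbl 10 5 58)))) (.rp 37 (.str 51 (.nv (.thr 32 16 (.thr 34 17 (.thr 33 35 (.thr 18 3 (.dbl 50 2 49))))) (.nv (.thr 17 34 (.thr 25 29 (.thr 12 38 (.dbl 8 4 59)))) (.rp 34 (.thr 50 49 (.thr 16 32 (.thr 26 31 (.thr 38 14 (.thr 4 55 (.dbl 12 8 25)))))) (.rp 17 (.thr 16 32 (.thr 26 31 (.thr 10 58 (.thr 15 5 (.thr 27 39 (.thr 25 24 (.thr 8 59 (.dbl 12 4 38)))))))) .nd))))) (.rp 32 (.str 25 (.nv (.thr 8 59 (.thr 12 4 (.thr 17 29 (.dbl 51 34 38)))) (.nv (.thr 17 29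 (.thr 51 34 (.thr 49 50 (.thr 37 13 (.thr 5 53 (.dbl 15 10 26)))))) (.nv (.thr 17 29 (.thr 51 34 (.thr 12 38 (.dbl 8 4 59)))) (.rp 51 (.thr 59 8 (.str 26 (.nv (.thr 10 58 (.dbl 15 5 37)) (.rp 58 (.thr 27 24 (.thr 31 16 (.thr 19 23 (.thr 29 17 (.dbl 28 22 30))))) (.rp 37 (.thr 27 24 (.thr 31 16 (.thr 19 23 (.thr 29 17 (.dbl 28 22 30))))) (.rp 15 (.thr 27 24 (.thr 31 16 (.thr 19 23 (.thr 29 17 (.dbl 28 22 30))))) (.rp 10 (.str 9 (.nv (.thr 15 37 (.thr 41 57 (.thr 40 43 (.thr 60 20 (.thr 30 45 (.dbl 22 3 18)))))) (.nv (.thr 57 41 (.thr 37 15 (.thr 53 5 (.dbl 49 13 61)))) (.nv (.thr 29 17 (.thr 31 16 (.thr 28 30 (.thr 19 22 (.dbl 27 23 24))))) .nd)))) (.rp 5 (.thr 27 24 (.thr 31 16 (.thr 19 23 (.thr 29 17 (.dbl 28 22 30))))) .nd)))))))) (.rp 34 (.thr 8 59 (.thr 12 4 (.thr 51 38 (.thr 49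 50 (.thr 37 13 (.thr 5 53 (.dbl 15 10 26))))))) (.rp 29 (.thr 8 59 (.thr 12 4 (.thr 51 38 (.thr 49 50 (.thr 37 13 (.thr 5 53 (.dbl 15 10 26))))))) (.rp 17 (.thr 8 59 (.thr 12 4 (.thr 51 38 (.thr 49 50 (.thr 37 13 (.thr 5 53 (.dbl 15 10 26))))))) (.rp 12 (.str 51 (.nv (.dbl 17 29 34) (.rp 46 (.thr 29 17 (.thr 49 50 (.thr 37 13 (.thr 5 53 (.dbl 15 10 26))))) (.rp 34 (.thr 49 50 (.thr 37 13 (.thr 5 53 (.dbl 15 10 26)))) (.rp 29 (.str 46 (.nv (.dbl 34 17 38) (.rp 38 (.thr 49 50 (.thr 37 13 (.thr 5 53 (.dbl 15 10 26)))) (.rp 34 (.thr 49 50 (.thr 37 13 (.thr 5 53 (.dbl 15 10 26)))) (.rp 17 (.thr 49 50 (.thr 37 13 (.thr 5 53 (.dbl 15 10 26)))) .nd))))) (.rp 17 (.thr 49 50 (.thr 37 13 (.thr 5 53 (.dbl 15 10 26)))) .nd)))))) .nd))))))))) (.rp 26 (.str 41 (.nv (.thr 32 16 (.thr 37 47 (.thr 5 53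 (.thr 15 10 (.thr 45 33 (.thr 60 30 (.thr 52 56 (.dbl 22 3 7)))))))) (.nv (.thr 40 43 (.thr 16 32 (.thr 20 60 (.thr 24 28 (.thr 12 36 (.dbl 8 4 56)))))) (.nv (.thr 32 16 (.thr 43 40 (.thr 47 37 (.thr 35 39 (.thr 38 44 (.dbl 34 33 46)))))) (.rp 32 (.thr 40 43 (.thr 60 20 (.thr 56 52 (.thr 8 24 (.thr 4 12 (.thr 38 55 (.thr 35 44 (.thr 3 22 (.thr 51 19 (.dbl 34 17 46)))))))))) (.rp 16 (.thr 40 43 (.thr 60 20 (.thr 56 52 (.thr 24 8 (.thr 36 12 (.thr 32 44 (.thr 37 47 (.thr 3 22 (.dbl 33 18 45))))))))) .nd)))))) (.rp 16 (.str 25 (.nv (.thr 17 29 (.thr 51 34 (.thr 49 50 (.thr 37 13 (.thr 5 53 (.dbl 15 10 26)))))) (.nv (.thr 17 29 (.thr 51 34 (.thr 12 38 (.dbl 8 4 59)))) (.rp 51 (.thr 59 8 (.str 10 (.nv (.thr 26 58 (.dbl 15 5 37)) (.rp 58 (.thr 15 5 (.thr 37 26 (.thr 13 49 (.thr 14 12 (.thr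 2 6 (.thr 22 62 (.thr 20 23 (.thr 60 40 (.dbl 52 7 56))))))))) (.rp 37 (.thr 58 26 (.thr 56 57 (.thr 15 5 (.thr 29 17 (.thr 60 52 (.thr 20 40 (.thr 22 23 (.thr 30 45 (.dbl 28 19 31))))))))) (.rp 26 (.str 57 (.nv (.thr 56 58 (.thr 60 52 (.thr 40 20 (.dbl 41 9 43)))) (.nv (.thr 41 9 (.thr 56 58 (.thr 60 52 (.dbl 40 20 43)))) (.rp 60 (.thr 41 9 (.thr 43 40 (.thr 5 15 (.thr 37 53 (.thr 47 32 (.thr 45 33 (.thr 44 46 (.dbl 35 38 39)))))))) (.rp 58 (.thr 41 9 (.thr 40 43 (.thr 5 15 (.thr 37 53 (.thr 33 45 (.thr 3 18 (.dbl 60 20 22))))))) (.rp 56 (.thr 41 9 (.thr 40 43 (.thr 5 15 (.thr 37 53 (.thr 33 45 (.thr 3 18 (.dbl 60 20 22))))))) (.rp 52 (.thr 41 9 (.thr 40 43 (.thr 5 15 (.thr 37 53 (.thr 33 45 (.thr 3 18 (.dbl 60 20 22))))))) (.rp 43 (.thr 41 9 (.thr 56 58 (.thr 60 52 (.thr 20 40 (.dbl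 22 3 23))))) (.rp 41 (.thr 56 58 (.thr 15 5 (.thr 29 17 (.thr 60 52 (.thr 20 40 (.thr 22 23 (.thr 30 45 (.dbl 28 19 31)))))))) (.rp 40 (.thr 41 9 (.thr 56 58 (.thr 5 15 (.thr 37 53 (.thr 33 45 (.thr 3 18 (.dbl 60 22 52))))))) (.rp 20 (.thr 41 9 (.thr 56 58 (.thr 5 15 (.thr 37 53 (.thr 33 45 (.thr 3 18 (.dbl 60 22 52))))))) (.rp 9 (.thr 56 58 (.thr 5 15 (.thr 37 53 (.thr 52 60 (.thr 7 22 (.thr 4 6 (.thr 38 55 (.dbl 36 20 39)))))))) .nd)))))))))))) (.rp 15 (.thr 58 26 (.thr 56 57 (.thr 60 52 (.thr 20 40 (.thr 22 23 (.thr 2 62 (.thr 6 14 (.thr 3 41 (.thr 28 19 (.dbl 12 9 44)))))))))) (.rp 5 (.thr 58 26 (.thr 56 57 (.thr 60 52 (.thr 20 40 (.thr 22 23 (.thr 2 62 (.thr 6 14 (.thr 3 41 (.thr 28 19 (.dbl 12 9 44)))))))))) .nd)))))))) (.rp 46 (.thr 8 59 (.thr 17 29 (.thr 12 4 (.dbl 51 34 38))))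 (.rp 34 (.thr 8 59 (.thr 12 4 (.thr 51 38 (.thr 49 50 (.thr 37 13 (.thr 5 53 (.dbl 15 10 26))))))) (.rp 29 (.thr 8 59 (.thr 12 4 (.thr 51 38 (.thr 49 50 (.thr 37 13 (.thr 5 53 (.dbl 15 10 26))))))) (.rp 17 (.thr 8 59 (.thr 12 4 (.thr 51 38 (.thr 49 50 (.thr 37 13 (.thr 5 53 (.dbl 15 10 26))))))) (.rp 12 (.str 51 (.nv (.dbl 17 29 34) (.rp 46 (.thr 29 17 (.thr 49 50 (.thr 37 13 (.thr 5 53 (.dbl 15 10 26))))) (.rp 34 (.thr 49 50 (.thr 37 13 (.thr 5 53 (.dbl 15 10 26)))) (.rp 29 (.str 46 (.nv (.dbl 34 17 38) (.rp 38 (.thr 49 50 (.thr 37 13 (.thr 5 53 (.dbl 15 10 26)))) (.rp 34 (.thr 49 50 (.thr 37 13 (.thr 5 53 (.dbl 15 10 26)))) (.rp 17 (.thr 49 50 (.thr 37 13 (.thr 5 53 (.dbl 15 10 26)))) .nd))))) (.rp 17 (.thr 49 50 (.thr 37 13 (.thr 5 53 (.dbl 15 10 26)))) .nd)))))) .nd))))))))) (.rp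 15 (.thr 32 16 (.thr 47 37 (.str 38 (.nv (.thr 4 55 (.thr 12 8 (.thr 36 24 (.thr 20 52 (.dbl 40 44 60))))) (.nv (.thr 4 55 (.thr 34 46 (.thr 12 8 (.dbl 51 17 25)))) (.nv (.thr 46 34 (.thr 44 45 (.thr 41 35 (.dbl 40 36 43)))) (.rp 7 (.str 3 (.nv (.thr 4 55 (.thr 12 8 (.thr 34 46 (.dbl 51 17 25)))) (.nv (.thr 33 18 (.dbl 34 35 46)) (.rp 52 (.str 22 (.nv (.thr 33 18 (.dbl 34 35 46)) (.nv (.thr 20 23 (.dbl 60 40 41)) .nd))) (.rp 46 (.thr 33 18 (.thr 35 34 (.thr 43 39 (.dbl 41 40 44)))) (.rp 34 (.thr 4 55 (.thr 12 8 (.thr 36 24 (.thr 40 44 (.dbl 20 52 60))))) (.rp 22 (.str 52 (.nv (.thr 4 55 (.thr 20 36 (.dbl 60 40 56))) (.nv (.thr 34 46 (.dbl 33 18 35)) .nd))) (.rp 17 (.thr 34 46 (.dbl 33 18 35)) .nd)))))))) (.rp 3 (.str 7 (.nv (.thr 4 55 (.thr 12 8 (.thr 36 24 (.thr 20 52 (.dbl 40 44 60)))))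 (.nv (.thr 4 55 (.thr 34 46 (.thr 12 8 (.dbl 51 17 25)))) (.nv (.thr 46 34 (.thr 44 45 (.thr 40 36 (.dbl 41 35 43)))) (.rp 43 (.str 23 (.nv (.dbl 55 4 39) (.rp 59 (.str 27 (.nv (.dbl 55 4 39) (.rp 55 (.str 51 (.nv (.thr 19 31 (.thr 22 20 (.dbl 25 12 28))) (.nv (.dbl 34 17 46) .nd))) (.rp 39 (.thr 22 20 (.thr 6 54 (.dbl 4 5 55))) (.rp 4 (.thr 46 34 (.thr 20 22 (.thr 44 45 (.dbl 40 36 60)))) .nd))))) (.rp 55 (.thr 20 22 (.thr 46 34 (.thr 44 45 (.dbl 40 36 60)))) (.rp 39 (.thr 4 55 (.thr 6 5 (.dbl 22 20 54))) (.rp 27 (.str 59 (.nv (.thr 25 8 (.thr 17 29 (.dbl 34 46 51))) (.nv (.dbl 55 4 39) (.rp 51 (.thr 39 55 (.thr 46 34 (.thr 20 22 (.thr 44 45 (.dbl 40 36 60))))) (.rp 39 (.str 51 (.nv (.dbl 25 8 12) (.nv (.dbl 34 17 46) .nd))) .nd))))) (.rp 4 (.thr 20 22 (.thr 46 34 (.thr 44 45 (.dbl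 40 36 60)))) .nd))))))) (.rp 23 (.str 43 (.nv (.thr 4 55 (.thr 12 8 (.thr 34 46 (.dbl 51 17 25)))) (.nv (.thr 41 40 (.dbl 35 39 44)) .nd))) .nd)))))) .nd)))))))) (.rp 10 (.str 8 (.nv (.thr 12 4 (.thr 16 32 (.thr 24 36 (.thr 20 28 (.dbl 40 56 60))))) (.nv (.thr 12 4 (.thr 25 59 (.thr 51 38 (.dbl 17 29 34)))) (.rp 12 (.thr 32 16 (.thr 37 47 (.thr 25 59 (.thr 49 13 (.thr 51 50 (.dbl 17 29 34)))))) (.rp 4 (.thr 32 16 (.thr 37 47 (.thr 25 59 (.thr 49 13 (.thr 17 29 (.dbl 51 34 50)))))) .nd))))) (.rp 5 (.thr 16 32 (.str 56 (.nv (.thr 60 52 (.thr 20 40 (.thr 28 24 (.thr 22 23 (.thr 25 19 (.thr 31 26 (.dbl 29 17 30))))))) (.nv (.thr 26 31 (.thr 58 10 (.thr 59 57 (.thr 8 25 (.thr 24 40 (.dbl 12 4 36)))))) (.nv (.thr 26 31 (.thr 15 37 (.thr 60 52 (.thr 30 45 (.thr 22 18 (.dbl 20 23 40)))))) (.rp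 40 (.thr 60 52 (.thr 26 31 (.thr 58 10 (.thr 57 59 (.thr 51 54 (.thr 50 49 (.thr 38 14 (.dbl 34 17 46)))))))) (.rp 31 (.thr 60 52 (.thr 20 40 (.thr 28 24 (.thr 22 23 (.thr 19 25 (.thr 18 17 (.dbl 3 33 41))))))) (.rp 26 (.thr 60 52 (.thr 20 40 (.thr 28 24 (.thr 22 23 (.thr 25 19 (.thr 8 59 (.dbl 12 4 44))))))) (.rp 13 (.str 9 (.nv (.thr 26 31 (.thr 58 10 (.thr 59 57 (.thr 8 25 (.thr 12 4 (.dbl 24 36 40)))))) (.nv (.thr 26 31 (.thr 58 10 (.thr 57 59 (.thr 25 41 (.thr 60 52 (.thr 51 54 (.dbl 17 29 34))))))) (.nv (.thr 60 52 (.thr 20 40 (.thr 22 23 (.thr 3 41 (.thr 24 28 (.dbl 12 6 36)))))) .nd)))) (.rp 9 (.str 13 (.nv (.thr 26 31 (.thr 15 37 (.thr 12 14 (.thr 8 4 (.thr 58 10 (.dbl 59 25 57)))))) (.nv (.thr 26 31 (.thr 60 52 (.thr 20 40 (.thr 22 23 (.thr 3 41 (.dbl 18 30 33)))))) (.nv (.thr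 26 31 (.thr 15 37 (.thr 12 14 (.thr 8 4 (.dbl 24 36 40))))) (.rp 31 (.thr 60 52 (.thr 40 20 (.thr 8 24 (.thr 25 59 (.thr 37 49 (.thr 15 26 (.dbl 12 4 14))))))) (.rp 26 (.thr 60 52 (.thr 40 20 (.thr 8 24 (.thr 25 59 (.thr 49 37 (.thr 17 29 (.dbl 51 34 50))))))) (.rp 15 (.thr 60 52 (.thr 20 40 (.thr 22 23 (.thr 3 41 (.thr 18 33 (.dbl 26 30 31)))))) (.rp 10 (.str 8 (.nv (.thr 12 4 (.thr 15 14 (.dbl 26 31 37))) (.nv (.thr 40 24 (.dbl 60 20 52)) .nd))) (.rp 8 (.str 10 (.nv (.dbl 26 31 58) (.rp 58 (.thr 60 52 (.thr 20 40 (.thr 28 24 (.thr 26 31 (.thr 15 37 (.dbl 12 14 44)))))) (.rp 31 (.thr 60 52 (.thr 20 40 (.thr 28 24 (.thr 26 58 (.thr 15 37 (.dbl 12 14 44)))))) (.rp 26 (.thr 60 52 (.thr 20 40 (.thr 28 24 (.thr 22 23 (.thr 2 62 (.thr 14 6 (.dbl 12 15 44))))))) .nd))))) .nd))))))))) .nd))))))))))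 .nd))))))))))

theorem w98 : WinAt (4398048608257, 9223372036854777858) :=
  chF (K := []) kn c98 4398048608257 9223372036854777858 63
    [] (by decide +kernel) (by decide +kernel)

/-- A certificate. -/
noncomputable def c99 : Ct := (.str 53 (.nv (.thr 37 5 (.thr 48 58 (.thr 26 15 (.dbl 16 31 32)))) (.nv (.thr 48 58 (.thr 16 32 (.thr 26 31 (.dbl 37 5 15)))) (.rp 58 (.str 55 (.nv (.thr 38 4 (.thr 51 59 (.thr 54 52 (.thr 22 6 (.thr 20 23 (.dbl 60 40 57)))))) (.nv (.thr 37 5 (.thr 38 4 (.thr 39 36 (.thr 51 59 (.thr 15 27 (.thr 31 47 (.dbl 26 16 48))))))) (.nv (.thr 38 4 (.thr 52 54 (.thr 37 5 (.thr 7 22 (.dbl 39 23 36))))) (.rp 52 (.thr 4 38 (.thr 5 37 (.thr 7 6 (.thr 39 23 (.thr 51 59 (.dbl 15 10 27)))))) (.rp 38 (.thr 54 52 (.thr 37 5 (.thr 51 59 (.thr 57 60 (.thr 49 61 (.thr 48 50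 (.thr 16 32 (.dbl 26 15 31)))))))) (.rp 36 (.thr 54 52 (.thr 37 5 (.thr 51 59 (.thr 17 34 (.thr 57 60 (.thr 49 61 (.dbl 25 13 29))))))) (.rp 26 (.str 10 (.nv (.dbl 5 15 37) (.rp 37 (.thr 51 59 (.thr 54 52 (.thr 38 4 (.thr 22 6 (.thr 20 23 (.dbl 60 40 57)))))) (.rp 15 (.thr 52 54 (.thr 4 38 (.thr 20 36 (.thr 22 23 (.dbl 37 5 7))))) (.rp 5 (.thr 51 59 (.thr 54 52 (.thr 57 60 (.thr 49 61 (.thr 34 17 (.thr 38 4 (.thr 6 22 (.thr 2 14 (.dbl 50 18 48))))))))) .nd))))) (.rp 10 (.str 26 (.nv (.thr 16 31 (.thr 38 4 (.thr 50 14 (.thr 51 59 (.dbl 48 32 49))))) (.nv (.thr 4 38 (.thr 37 5 (.thr 52 54 (.thr 22 7 (.dbl 20 23 36))))) (.nv (.thr 16 31 (.thr 48 32 (.dbl 37 5 15))) .nd)))) (.rp 9 (.thr 52 54 (.thr 4 38 (.thr 20 36 (.thr 22 23 (.dbl 37 5 7))))) (.rp 7 (.thr 54 52 (.thr 38 4 (.thr 22 6 (.thr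 5 37 (.thr 20 23 (.thr 60 40 (.dbl 51 57 59))))))) (.rp 5 (.thr 52 54 (.thr 4 38 (.thr 20 36 (.thr 22 23 (.thr 37 7 (.thr 60 40 (.thr 48 56 (.thr 26 15 (.dbl 16 31 32))))))))) (.rp 4 (.thr 54 52 (.thr 37 5 (.thr 51 59 (.thr 17 34 (.thr 57 60 (.thr 49 61 (.dbl 25 13 29))))))) .nd))))))))))))) (.rp 48 (.str 51 (.nv (.thr 55 59 (.thr 38 4 (.thr 54 52 (.thr 60 57 (.thr 20 40 (.dbl 22 6 23)))))) (.nv (.thr 5 37 (.thr 15 10 (.thr 39 27 (.thr 47 31 (.thr 43 35 (.thr 23 3 (.dbl 55 7 59))))))) (.nv (.thr 37 5 (.thr 55 59 (.thr 52 54 (.thr 22 7 (.thr 20 23 (.dbl 4 36 38)))))) (.rp 59 (.thr 5 37 (.thr 15 10 (.thr 47 31 (.thr 39 27 (.thr 43 35 (.thr 23 3 (.thr 55 7 (.thr 54 52 (.thr 22 20 (.dbl 38 4 6)))))))))) (.rp 55 (.thr 5 37 (.thr 15 10 (.thr 47 31 (.thr 39 27 (.thr 43 35 (.thr 23 3 (.thr 20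 22 (.thr 60 40 (.thr 57 54 (.dbl 61 49 62)))))))))) (.rp 36 (.str 24 (.nv (.thr 55 59 (.thr 54 52 (.thr 60 57 (.thr 20 40 (.thr 22 23 (.dbl 38 4 6)))))) (.nv (.thr 17 34 (.thr 25 29 (.thr 27 26 (.thr 15 39 (.dbl 5 10 37))))) (.rp 58 (.thr 17 34 (.thr 25 29 (.thr 26 27 (.thr 16 31 (.thr 19 18 (.dbl 28 20 22)))))) (.rp 38 (.thr 55 59 (.thr 54 52 (.thr 60 57 (.thr 20 40 (.thr 16 28 (.thr 26 31 (.thr 25 27 (.dbl 17 29 34)))))))) (.rp 25 (.thr 5 37 (.thr 15 10 (.thr 47 31 (.thr 39 27 (.thr 43 35 (.thr 23 3 (.dbl 55 7 59))))))) .nd)))))) (.rp 24 (.str 36 (.nv (.thr 55 59 (.thr 4 38 (.dbl 52 20 54))) (.nv (.thr 37 5 (.thr 38 39 (.dbl 55 4 59))) (.rp 59 (.thr 37 5 (.thr 38 39 (.thr 55 4 (.thr 54 52 (.thr 60 57 (.thr 20 40 (.dbl 22 6 23))))))) (.rp 55 (.thr 5 37 (.thr 15 10 (.thr 47 31 (.thr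 39 27 (.thr 43 35 (.thr 23 3 (.thr 20 22 (.thr 60 40 (.thr 57 54 (.dbl 61 49 62)))))))))) (.rp 38 (.thr 37 5 (.thr 55 59 (.thr 52 54 (.thr 22 7 (.dbl 20 4 23))))) (.rp 4 (.thr 37 5 (.thr 39 38 (.thr 55 59 (.thr 52 54 (.dbl 7 22 23))))) .nd))))))) (.rp 23 (.thr 5 37 (.thr 17 34 (.thr 55 59 (.thr 54 52 (.thr 60 57 (.thr 61 62 (.thr 15 10 (.thr 45 30 (.dbl 29 13 25))))))))) (.rp 6 (.thr 37 5 (.thr 55 59 (.thr 52 54 (.thr 7 22 (.thr 38 4 (.dbl 39 23 36)))))) .nd)))))))))) (.rp 37 (.str 57 (.nv (.thr 48 58 (.thr 61 49 (.thr 60 62 (.thr 54 51 (.dbl 52 55 56))))) (.nv (.thr 61 49 (.thr 60 62 (.thr 51 54 (.thr 59 55 (.dbl 58 48 56))))) (.nv (.thr 49 61 (.thr 48 58 (.thr 51 50 (.thr 54 60 (.dbl 55 52 59))))) (.rp 61 (.thr 58 48 (.thr 59 56 (.thr 51 55 (.thr 17 34 (.thr 25 29 (.thr 41 9 (.thr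 60 54 (.thr 20 40 (.dbl 22 3 23))))))))) (.rp 60 (.thr 49 61 (.thr 48 58 (.thr 51 50 (.thr 55 59 (.thr 17 34 (.thr 25 29 (.thr 38 4 (.thr 54 52 (.thr 22 6 (.thr 28 19 (.thr 20 23 (.dbl 16 24 32)))))))))))) (.rp 58 (.thr 61 49 (.thr 60 62 (.thr 20 40 (.thr 54 51 (.thr 55 52 (.thr 38 4 (.dbl 22 6 23))))))) (.rp 55 (.thr 61 49 (.thr 60 62 (.thr 20 40 (.thr 51 54 (.thr 17 34 (.thr 25 29 (.thr 41 9 (.dbl 22 3 23)))))))) (.rp 54 (.thr 61 49 (.thr 58 48 (.thr 59 56 (.thr 51 55 (.thr 17 34 (.thr 25 29 (.thr 41 9 (.thr 60 62 (.thr 20 40 (.dbl 22 3 23)))))))))) (.rp 51 (.thr 61 49 (.thr 48 58 (.thr 60 62 (.thr 52 56 (.thr 20 40 (.thr 4 36 (.dbl 55 38 54))))))) (.rp 49 (.thr 58 48 (.thr 59 56 (.thr 51 55 (.thr 17 34 (.thr 25 29 (.thr 41 9 (.thr 60 54 (.thr 20 40 (.dbl 22 3 23))))))))) (.rp 48 (.thr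 61 49 (.thr 60 62 (.thr 20 40 (.thr 51 54 (.thr 17 34 (.thr 25 29 (.thr 41 9 (.dbl 22 3 23)))))))) (.rp 47 (.str 32 (.nv (.dbl 48 16 58) (.rp 58 (.thr 61 49 (.thr 48 16 (.thr 60 62 (.thr 52 56 (.dbl 54 51 55))))) (.rp 48 (.thr 61 49 (.thr 60 62 (.thr 20 40 (.thr 51 54 (.thr 17 34 (.thr 25 29 (.thr 41 9 (.dbl 22 3 23)))))))) (.rp 16 (.thr 61 49 (.thr 48 58 (.thr 60 62 (.thr 52 56 (.dbl 54 51 55))))) .nd))))) (.rp 32 (.str 47 (.nv (.thr 48 58 (.thr 61 49 (.thr 60 62 (.thr 54 51 (.dbl 52 55 56))))) (.nv (.thr 15 31 (.thr 61 49 (.thr 60 62 (.thr 45 30 (.thr 51 54 (.thr 17 34 (.dbl 29 13 25))))))) (.nv (.thr 49 61 (.thr 48 58 (.thr 51 50 (.thr 54 60 (.dbl 55 52 59))))) (.rp 61 (.thr 15 31 (.thr 58 48 (.thr 59 56 (.thr 51 55 (.thr 39 27 (.thr 43 35 (.thr 23 3 (.thr 60 54 (.dbl 20 22 40)))))))))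 (.rp 60 (.thr 49 61 (.thr 15 31 (.thr 48 58 (.thr 51 50 (.thr 55 59 (.thr 39 27 (.thr 43 35 (.dbl 23 3 7)))))))) (.rp 58 (.thr 61 49 (.thr 60 62 (.thr 20 40 (.thr 54 51 (.thr 55 52 (.thr 38 4 (.dbl 22 6 23))))))) (.rp 54 (.thr 61 49 (.thr 15 31 (.thr 58 48 (.thr 59 56 (.thr 51 55 (.thr 17 34 (.thr 60 62 (.thr 45 30 (.dbl 29 13 25))))))))) (.rp 51 (.thr 61 49 (.thr 15 31 (.thr 60 62 (.thr 20 40 (.thr 45 30 (.thr 22 23 (.thr 41 3 (.thr 29 13 (.dbl 25 9 17))))))))) (.rp 49 (.thr 15 31 (.thr 58 48 (.thr 59 56 (.thr 51 55 (.thr 39 27 (.thr 43 35 (.thr 23 3 (.thr 60 54 (.dbl 20 22 40))))))))) .nd)))))))))) .nd)))))))))))))) (.rp 32 (.str 57 (.nv (.thr 37 5 (.thr 61 49 (.thr 60 62 (.thr 20 40 (.thr 22 23 (.thr 52 7 (.dbl 54 51 55))))))) (.nv (.thr 37 5 (.thr 61 49 (.thr 60 62 (.thr 20 40 (.thr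 22 23 (.thr 52 7 (.dbl 48 56 58))))))) (.nv (.thr 37 5 (.thr 48 58 (.thr 49 61 (.thr 51 50 (.thr 17 34 (.dbl 25 13 29)))))) (.nv (.thr 58 48 (.thr 59 56 (.thr 51 55 (.thr 60 54 (.dbl 61 49 62))))) (.rp 62 (.thr 49 61 (.thr 48 58 (.thr 51 50 (.thr 54 60 (.dbl 55 52 59))))) (.rp 61 (.thr 37 5 (.thr 58 48 (.thr 59 56 (.thr 55 51 (.thr 38 4 (.thr 52 54 (.thr 7 22 (.dbl 39 23 36)))))))) (.rp 49 (.thr 58 48 (.thr 59 56 (.thr 51 55 (.thr 17 34 (.thr 25 29 (.thr 41 9 (.thr 60 54 (.thr 20 40 (.dbl 22 3 23))))))))) (.rp 37 (.str 47 (.nv (.thr 48 58 (.thr 61 49 (.thr 60 62 (.thr 54 51 (.dbl 52 55 56))))) (.nv (.thr 15 31 (.thr 61 49 (.thr 60 62 (.thr 45 30 (.thr 51 54 (.thr 17 34 (.dbl 29 13 25))))))) (.nv (.thr 49 61 (.thr 48 58 (.thr 51 50 (.thr 54 60 (.dbl 55 52 59))))) (.rp 61 (.thr 15 31 (.thr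 58 48 (.thr 59 56 (.thr 51 55 (.thr 39 27 (.thr 43 35 (.thr 23 3 (.thr 60 54 (.dbl 20 22 40))))))))) (.rp 60 (.thr 49 61 (.thr 15 31 (.thr 48 58 (.thr 51 50 (.thr 55 59 (.thr 39 27 (.thr 43 35 (.dbl 23 3 7)))))))) (.rp 58 (.thr 61 49 (.thr 60 62 (.thr 20 40 (.thr 54 51 (.thr 55 52 (.thr 38 4 (.dbl 22 6 23))))))) (.rp 54 (.thr 61 49 (.thr 15 31 (.thr 58 48 (.thr 59 56 (.thr 51 55 (.thr 17 34 (.thr 60 62 (.thr 45 30 (.dbl 29 13 25))))))))) (.rp 51 (.thr 61 49 (.thr 15 31 (.thr 60 62 (.thr 20 40 (.thr 45 30 (.thr 22 23 (.thr 41 3 (.thr 29 13 (.dbl 25 9 17))))))))) (.rp 49 (.thr 15 31 (.thr 58 48 (.thr 59 56 (.thr 51 55 (.thr 39 27 (.thr 43 35 (.thr 23 3 (.thr 60 54 (.dbl 20 22 40))))))))) .nd)))))))))) .nd))))))))) (.rp 31 (.str 57 (.nv (.thr 37 5 (.thr 48 58 (.thr 49 61 (.thr 51 50 (.thr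 17 34 (.dbl 25 13 29)))))) (.nv (.thr 58 48 (.thr 59 56 (.thr 51 55 (.thr 60 54 (.dbl 61 49 62))))) (.rp 62 (.thr 49 61 (.thr 48 58 (.thr 51 50 (.thr 54 60 (.dbl 55 52 59))))) (.rp 61 (.thr 37 5 (.thr 58 48 (.thr 59 56 (.thr 55 51 (.thr 38 4 (.thr 52 54 (.thr 7 22 (.dbl 39 23 36)))))))) (.rp 58 (.thr 61 49 (.thr 37 5 (.thr 60 62 (.thr 20 40 (.thr 54 51 (.thr 52 55 (.dbl 22 7 23))))))) (.rp 54 (.thr 61 49 (.thr 37 5 (.thr 60 62 (.thr 20 40 (.thr 22 23 (.thr 52 7 (.dbl 48 56 58))))))) (.rp 51 (.thr 61 49 (.thr 37 5 (.thr 48 58 (.thr 60 62 (.thr 52 56 (.thr 20 40 (.dbl 22 7 23))))))) (.rp 49 (.thr 58 48 (.thr 59 56 (.thr 51 55 (.thr 17 34 (.thr 25 29 (.thr 41 9 (.thr 60 54 (.thr 20 40 (.dbl 22 3 23))))))))) (.rp 48 (.thr 61 49 (.thr 37 5 (.thr 60 62 (.thr 20 40 (.thr 22 23 (.thr 52 7 (.dbl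 54 51 55))))))) .nd)))))))))) (.rp 26 (.str 57 (.nv (.thr 37 5 (.thr 61 49 (.thr 60 62 (.thr 20 40 (.thr 22 23 (.thr 52 7 (.dbl 54 51 55))))))) (.nv (.thr 58 48 (.thr 37 5 (.thr 49 61 (.thr 59 56 (.thr 51 55 (.thr 17 34 (.dbl 25 13 29))))))) (.nv (.thr 61 49 (.thr 60 62 (.thr 51 54 (.thr 59 55 (.dbl 58 48 56))))) (.rp 61 (.thr 37 5 (.thr 58 48 (.thr 59 56 (.thr 55 51 (.thr 38 4 (.thr 52 54 (.thr 7 22 (.dbl 39 23 36)))))))) (.rp 60 (.thr 49 61 (.thr 5 37 (.thr 48 58 (.thr 10 15 (.thr 51 50 (.thr 59 55 (.thr 17 34 (.thr 25 29 (.thr 9 41 (.thr 11 8 (.thr 43 27 (.thr 3 23 (.thr 19 35 (.dbl 16 18 32)))))))))))))) (.rp 58 (.str 10 (.nv (.dbl 5 15 37) (.rp 37 (.thr 61 49 (.thr 60 62 (.thr 54 51 (.thr 55 52 (.thr 20 40 (.thr 22 23 (.dbl 38 4 6))))))) (.rp 15 (.thr 61 49 (.thr 60 62 (.thr 54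 51 (.thr 52 55 (.thr 20 40 (.thr 22 23 (.dbl 37 5 7))))))) (.rp 5 (.thr 61 49 (.thr 60 62 (.thr 54 51 (.thr 55 52 (.thr 20 40 (.thr 22 23 (.dbl 38 4 6))))))) .nd))))) (.rp 55 (.thr 61 49 (.thr 60 62 (.thr 20 40 (.thr 51 54 (.thr 17 34 (.thr 25 29 (.thr 41 9 (.dbl 22 3 23)))))))) (.rp 51 (.thr 61 49 (.thr 37 5 (.thr 60 62 (.thr 20 40 (.thr 22 23 (.thr 52 7 (.dbl 48 56 58))))))) (.rp 49 (.thr 58 48 (.thr 59 56 (.thr 51 55 (.thr 17 34 (.thr 25 29 (.thr 41 9 (.thr 60 54 (.thr 20 40 (.dbl 22 3 23))))))))) (.rp 17 (.thr 58 48 (.thr 59 56 (.thr 51 55 (.thr 60 54 (.dbl 61 49 62))))) .nd))))))))))) (.rp 16 (.str 57 (.nv (.thr 37 5 (.thr 49 61 (.thr 58 48 (.thr 59 56 (.thr 51 55 (.thr 17 34 (.dbl 25 13 29))))))) (.nv (.thr 37 5 (.thr 48 58 (.thr 49 61 (.thr 51 50 (.thr 17 34 (.dbl 25 13 29))))))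 (.nv (.thr 58 48 (.thr 59 56 (.thr 51 55 (.thr 60 54 (.dbl 61 49 62))))) (.rp 61 (.thr 37 5 (.thr 58 48 (.thr 59 56 (.thr 55 51 (.thr 38 4 (.thr 52 54 (.thr 7 22 (.dbl 39 23 36)))))))) (.rp 58 (.thr 61 49 (.thr 37 5 (.thr 60 62 (.thr 20 40 (.thr 54 51 (.thr 52 55 (.dbl 22 7 23))))))) (.rp 51 (.thr 61 49 (.thr 37 5 (.thr 48 58 (.thr 60 62 (.thr 52 56 (.thr 20 40 (.dbl 22 7 23))))))) (.rp 49 (.thr 5 37 (.thr 58 48 (.thr 59 56 (.thr 51 55 (.thr 15 10 (.thr 27 39 (.thr 43 11 (.thr 23 3 (.dbl 31 19 47))))))))) (.rp 48 (.thr 61 49 (.thr 37 5 (.thr 60 62 (.thr 20 40 (.thr 22 23 (.thr 52 7 (.dbl 54 51 55))))))) .nd))))))))) (.rp 15 (.thr 37 5 (.str 13 (.nv (.thr 49 25 (.thr 57 61 (.thr 48 58 (.thr 51 50 (.thr 54 60 (.dbl 55 52 59)))))) (.nv (.thr 25 49 (.thr 17 29 (.thr 51 34 (.thr 55 59 (.thr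 52 54 (.thr 22 7 (.thr 20 23 (.dbl 4 36 38)))))))) (.nv (.thr 25 49 (.thr 17 29 (.thr 48 58 (.thr 16 32 (.thr 19 18 (.thr 26 31 (.thr 28 22 (.dbl 24 20 27)))))))) (.rp 49 (.str 17 (.nv (.thr 29 25 (.thr 45 61 (.thr 33 41 (.thr 48 58 (.thr 16 32 (.dbl 18 3 19)))))) (.nv (.thr 48 58 (.thr 16 32 (.thr 18 19 (.thr 26 31 (.thr 22 30 (.thr 23 20 (.dbl 3 33 43))))))) (.nv (.thr 51 34 (.thr 55 59 (.thr 52 54 (.thr 7 22 (.thr 38 4 (.dbl 39 23 36)))))) .nd)))) (.rp 25 (.thr 48 58 (.thr 16 32 (.thr 26 31 (.str 38 (.nv (.thr 39 36 (.thr 55 4 (.thr 7 23 (.dbl 52 22 54)))) (.nv (.thr 55 4 (.thr 50 14 (.dbl 51 49 59))) (.rp 59 (.str 8 (.nv (.thr 55 4 (.thr 52 54 (.thr 7 22 (.dbl 39 23 36)))) (.nv (.thr 4 55 (.thr 36 39 (.thr 20 52 (.thr 40 60 (.dbl 24 28 56))))) (.nv (.thr 55 4 (.thr 52 54 (.thr 39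 36 (.dbl 7 22 23)))) (.rp 57 (.str 56 (.nv (.thr 41 11 (.thr 52 60 (.dbl 55 4 54))) (.nv (.thr 40 24 (.dbl 60 20 52)) (.rp 60 (.thr 24 40 (.thr 4 55 (.thr 36 39 (.dbl 20 28 52)))) (.rp 52 (.thr 40 24 (.thr 60 20 (.thr 61 62 (.thr 45 29 (.dbl 41 11 33))))) (.rp 41 (.str 9 (.nv (.thr 55 4 (.dbl 52 54 60)) (.nv (.thr 40 24 (.dbl 60 20 52)) (.rp 60 (.thr 4 55 (.thr 36 39 (.thr 20 52 (.dbl 24 28 40)))) (.rp 52 (.thr 40 24 (.thr 20 60 (.thr 55 4 (.thr 39 36 (.dbl 23 7 22))))) (.rp 40 (.str 43 (.nv (.thr 36 39 (.thr 23 3 (.thr 22 20 (.dbl 52 7 60)))) (.nv (.thr 55 4 (.dbl 52 54 60)) (.rp 60 (.thr 36 39 (.thr 4 55 (.thr 20 52 (.dbl 23 3 22)))) (.rp 52 (.thr 55 4 (.thr 23 3 (.dbl 39 7 36))) (.rp 36 (.str 44 (.nv (.thr 23 3 (.thr 22 20 (.dbl 52 7 60))) (.nv (.thr 55 4 (.dbl 52 54 60)) (.rp 60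 (.thr 55 4 (.thr 23 3 (.thr 22 20 (.dbl 52 7 54)))) (.rp 52 (.thr 50 14 (.thr 3 23 (.thr 18 33 (.thr 34 2 (.dbl 17 19 51))))) (.rp 7 (.thr 52 60 (.dbl 55 4 54)) .nd)))))) (.rp 7 (.thr 52 60 (.dbl 55 4 54)) .nd))))))) .nd)))))) .nd)))))) (.rp 56 (.str 57 (.nv (.thr 39 36 (.thr 55 4 (.thr 7 23 (.dbl 52 22 54)))) (.nv (.thr 50 14 (.dbl 49 51 61)) .nd))) (.rp 55 (.thr 50 14 (.thr 51 49 (.thr 17 34 (.thr 18 19 (.thr 22 30 (.thr 23 20 (.dbl 3 33 43))))))) (.rp 52 (.thr 50 14 (.thr 51 49 (.thr 17 34 (.thr 18 19 (.thr 22 30 (.thr 23 20 (.dbl 3 33 43))))))) (.rp 39 (.thr 50 14 (.thr 55 4 (.thr 52 54 (.thr 51 49 (.thr 17 34 (.thr 18 19 (.dbl 22 7 30))))))) (.rp 36 (.thr 50 14 (.thr 55 4 (.thr 52 54 (.thr 51 49 (.thr 17 34 (.thr 18 19 (.dbl 22 7 30))))))) (.rp 23 (.thr 50 14 (.thr 55 4 (.thr 52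 54 (.thr 56 60 (.thr 41 11 (.thr 45 33 (.thr 61 29 (.dbl 49 51 57)))))))) (.rp 7 (.thr 50 14 (.thr 51 49 (.thr 17 34 (.thr 18 19 (.thr 22 30 (.thr 23 20 (.dbl 3 33 43))))))) (.rp 4 (.thr 50 14 (.thr 51 49 (.thr 17 34 (.thr 18 19 (.thr 22 30 (.thr 23 20 (.dbl 3 33 43))))))) .nd))))))))))))) (.rp 55 (.thr 50 14 (.thr 51 49 (.thr 17 34 (.thr 18 19 (.thr 22 30 (.thr 23 20 (.dbl 3 33 43))))))) (.rp 8 (.str 59 (.nv (.dbl 55 4 51) (.rp 55 (.thr 50 14 (.thr 49 51 (.thr 61 57 (.thr 45 29 (.thr 41 33 (.thr 60 62 (.dbl 56 11 52))))))) (.rp 51 (.thr 55 4 (.thr 52 54 (.thr 39 36 (.dbl 7 22 23)))) (.rp 4 (.thr 50 14 (.dbl 51 49 55)) .nd))))) (.rp 7 (.thr 50 14 (.thr 51 49 (.dbl 55 4 59))) (.rp 4 (.thr 50 14 (.thr 51 49 (.thr 17 34 (.thr 18 19 (.thr 22 30 (.thr 23 20 (.dbl 3 33 43))))))) .nd)))))))))))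 .nd))))))) (.rp 5 (.str 22 (.nv (.thr 20 23 (.thr 48 58 (.thr 16 32 (.thr 26 31 (.thr 18 30 (.thr 19 17 (.dbl 28 24 25))))))) (.nv (.thr 20 23 (.thr 58 48 (.thr 60 40 (.thr 62 61 (.thr 54 50 (.thr 51 57 (.dbl 55 52 59))))))) (.nv (.thr 23 20 (.thr 48 58 (.thr 3 43 (.thr 18 33 (.thr 26 30 (.dbl 16 31 32)))))) (.rp 58 (.thr 20 23 (.thr 60 40 (.thr 61 62 (.thr 57 49 (.thr 54 51 (.thr 55 52 (.dbl 38 4 6))))))) (.rp 48 (.thr 20 23 (.thr 60 40 (.thr 61 62 (.thr 41 3 (.thr 57 49 (.thr 51 54 (.thr 17 34 (.dbl 25 9 29)))))))) (.rp 23 (.thr 48 58 (.thr 16 32 (.thr 26 31 (.thr 37 15 (.thr 52 7 (.thr 60 56 (.thr 3 41 (.dbl 18 30 33)))))))) (.rp 20 (.thr 48 58 (.thr 16 32 (.thr 26 31 (.thr 37 15 (.thr 52 7 (.thr 60 56 (.thr 3 41 (.dbl 18 30 33)))))))) (.rp 13 (.str 9 (.nv (.thr 23 20 (.thr 48 58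 (.thr 16 32 (.thr 26 31 (.thr 18 30 (.dbl 3 33 43)))))) (.nv (.thr 20 23 (.thr 60 40 (.thr 41 3 (.thr 61 62 (.dbl 57 25 49))))) (.rp 23 (.thr 48 58 (.thr 16 32 (.thr 26 31 (.thr 18 30 (.thr 3 33 (.thr 60 41 (.thr 52 56 (.dbl 37 7 15)))))))) (.rp 20 (.thr 48 58 (.thr 16 32 (.thr 26 31 (.thr 18 30 (.thr 17 19 (.thr 3 33 (.thr 41 60 (.dbl 25 29 57)))))))) (.rp 15 (.str 14 (.nv (.thr 48 58 (.thr 16 32 (.thr 26 31 (.thr 38 50 (.thr 54 6 (.dbl 55 4 52)))))) (.nv (.thr 20 23 (.thr 60 40 (.thr 41 3 (.thr 61 62 (.dbl 57 25 49))))) (.rp 7 (.thr 20 23 (.thr 60 40 (.thr 61 62 (.thr 57 49 (.dbl 41 3 25))))) .nd)))) (.rp 14 (.str 15 (.nv (.thr 20 23 (.thr 60 40 (.thr 41 3 (.thr 61 62 (.dbl 57 25 49))))) (.nv (.thr 31 47 (.thr 26 16 (.dbl 48 37 58))) .nd))) (.rp 3 (.thr 20 23 (.thr 48 58 (.thr 60 40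 (.thr 52 56 (.thr 55 54 (.dbl 4 36 38)))))) .nd)))))))) (.rp 9 (.str 13 (.nv (.thr 48 58 (.thr 16 32 (.thr 26 31 (.thr 18 30 (.thr 19 17 (.thr 37 15 (.dbl 25 28 49))))))) (.nv (.thr 20 23 (.thr 48 58 (.thr 16 32 (.thr 26 31 (.thr 37 15 (.thr 52 7 (.thr 4 36 (.dbl 55 38 54)))))))) (.nv (.thr 20 23 (.thr 60 40 (.thr 61 62 (.thr 29 45 (.thr 49 57 (.dbl 25 17 37)))))) (.rp 37 (.thr 20 23 (.thr 60 40 (.thr 48 58 (.thr 52 56 (.thr 55 54 (.dbl 4 36 38)))))) (.rp 6 (.str 3 (.nv (.dbl 23 20 43) (.rp 43 (.thr 20 23 (.dbl 60 40 41)) (.rp 23 (.thr 48 58 (.thr 16 32 (.thr 18 33 (.dbl 26 30 31)))) (.rp 20 (.thr 48 58 (.thr 16 32 (.thr 18 33 (.dbl 26 30 31)))) (.rp 7 (.str 4 (.nv (.dbl 23 20 43) (.rp 43 (.thr 20 23 (.dbl 60 40 41)) (.rp 23 (.thr 55 38 (.thr 52 54 (.thr 20 36 (.dbl 60 40 41)))) (.rp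 20 (.thr 55 38 (.thr 52 54 (.thr 60 41 (.dbl 48 56 58)))) .nd))))) (.rp 4 (.str 7 (.nv (.thr 15 11 (.thr 48 58 (.dbl 37 26 52))) (.nv (.dbl 23 20 43) .nd))) .nd))))))) (.rp 3 (.str 6 (.nv (.thr 20 23 (.thr 48 58 (.thr 16 32 (.thr 26 31 (.thr 18 30 (.thr 19 17 (.dbl 28 24 25))))))) (.nv (.thr 20 23 (.thr 54 38 (.thr 55 52 (.thr 51 59 (.dbl 60 40 57))))) (.rp 25 (.thr 20 23 (.thr 60 40 (.thr 62 61 (.thr 58 48 (.dbl 54 38 50))))) (.rp 23 (.thr 54 38 (.thr 52 55 (.thr 48 58 (.thr 16 32 (.thr 26 31 (.dbl 37 7 15)))))) (.rp 20 (.thr 54 38 (.thr 52 55 (.thr 37 7 (.thr 48 58 (.thr 16 32 (.dbl 26 15 31)))))) .nd)))))) .nd))))))) .nd)))))))))) .nd))))))))))))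

theorem w99 : WinAt (9223372036856872961, 4398046515202) :=
  chF (K := []) kn c99 9223372036856872961 4398046515202 42
    [] (by decide +kernel) (by decide +kernel)

/-- A certificate. -/
noncomputable def c100 : Ct := (.str 5 (.nv (.thr 15 10 (.thr 37 53 (.thr 48 26 (.dbl 32 16 47)))) (.rp 53 (.str 4 (.nv (.thr 6 7 (.thr 10 15 (.thr 2 14 (.thr 12 8 (.thr 22 62 (.dbl 38 54 55)))))) (.nv (.thr 6 7 (.thr 10 15 (.thr 14 2 (.thr 38 55 (.dbl 26 50 58))))) (.nv (.thr 12 8 (.thr 38 55 (.thr 34 46 (.dbl 51 17 25)))) (.rp 58 (.str 48 (.nv (.thr 12 8 (.thr 38 55 (.thr 34 46 (.dbl 51 17 25)))) (.nv (.thr 32 16 (.thr 37 47 (.dbl 15 10 26))) .nd))) (.rp 55 (.thr 6 7 (.thr 10 15 (.thr 2 14 (.thr 12 8 (.thr 3 9 (.thr 22 62 (.thr 60 41 (.dbl 20 23 40)))))))) (.rp 54 (.thr 6 7 (.thr 10 15 (.thr 2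 14 (.thr 12 8 (.thr 3 9 (.thr 22 62 (.thr 20 23 (.dbl 60 40 41)))))))) (.rp 48 (.str 58 (.nv (.dbl 10 15 26) (.rp 26 (.thr 12 8 (.thr 38 55 (.thr 34 46 (.dbl 51 17 25)))) (.rp 15 (.thr 12 8 (.thr 38 55 (.thr 34 46 (.dbl 51 17 25)))) (.rp 10 (.thr 12 8 (.thr 38 55 (.thr 34 46 (.dbl 51 17 25)))) .nd))))) (.rp 38 (.thr 6 7 (.thr 10 15 (.thr 2 14 (.thr 12 8 (.thr 3 9 (.thr 22 62 (.thr 20 23 (.dbl 60 40 41)))))))) .nd))))))))) (.rp 48 (.thr 15 10 (.str 38 (.nv (.thr 4 55 (.thr 12 8 (.thr 51 25 (.thr 39 27 (.dbl 37 36 53))))) (.nv (.thr 34 46 (.thr 51 17 (.thr 39 27 (.dbl 37 36 53)))) (.nv (.thr 4 55 (.thr 12 8 (.thr 34 46 (.dbl 51 17 25)))) (.rp 58 (.thr 53 37 (.thr 34 46 (.thr 4 55 (.thr 12 8 (.dbl 51 17 25))))) (.rp 53 (.str 58 (.nv (.thr 4 55 (.thr 12 8 (.thr 34 46 (.dbl 51 17 25)))) (.nv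 (.thr 34 46 (.thr 51 17 (.thr 12 25 (.dbl 4 8 55)))) (.rp 55 (.thr 34 46 (.thr 51 17 (.thr 39 27 (.thr 12 25 (.thr 4 8 (.thr 7 6 (.thr 37 36 (.thr 47 32 (.thr 35 43 (.dbl 3 11 19)))))))))) (.rp 51 (.thr 55 4 (.str 50 (.nv (.thr 34 46 (.thr 2 18 (.dbl 62 22 54))) (.nv (.thr 14 26 (.thr 46 34 (.dbl 62 30 54))) (.rp 62 (.str 60 (.nv (.thr 40 20 (.thr 41 43 (.thr 44 35 (.thr 45 30 (.dbl 46 34 47))))) (.nv (.thr 40 20 (.thr 41 43 (.thr 3 22 (.thr 11 7 (.dbl 26 14 56))))) (.nv (.thr 26 14 (.thr 30 45 (.thr 18 22 (.dbl 34 2 46)))) .nd)))) (.rp 54 (.thr 46 34 (.thr 14 26 (.thr 30 62 (.thr 60 45 (.thr 40 20 (.thr 41 43 (.thr 44 35 (.thr 3 22 (.thr 7 11 (.thr 39 23 (.dbl 36 32 37))))))))))) (.rp 46 (.thr 54 62 (.thr 22 6 (.thr 20 23 (.thr 60 40 (.thr 30 45 (.dbl 26 14 18)))))) (.rp 34 (.thr 14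 26 (.thr 62 54 (.thr 22 2 (.thr 30 46 (.thr 20 23 (.dbl 60 40 45)))))) .nd)))))))) (.rp 46 (.thr 4 55 (.thr 7 6 (.thr 12 8 (.thr 51 25 (.thr 39 27 (.thr 37 36 (.thr 47 32 (.thr 35 43 (.dbl 3 11 19))))))))) (.rp 34 (.thr 4 55 (.thr 7 6 (.thr 12 8 (.thr 51 25 (.thr 39 27 (.thr 37 36 (.thr 47 32 (.thr 35 43 (.dbl 3 11 19))))))))) (.rp 25 (.thr 34 46 (.thr 51 17 (.thr 39 27 (.thr 55 4 (.thr 23 7 (.thr 22 20 (.thr 54 6 (.dbl 62 2 50)))))))) (.rp 17 (.thr 46 34 (.thr 4 55 (.thr 6 7 (.thr 54 22 (.thr 62 50 (.thr 30 14 (.thr 12 8 (.thr 51 25 (.dbl 60 45 57))))))))) (.rp 12 (.thr 46 34 (.thr 4 55 (.thr 6 7 (.thr 54 22 (.thr 62 50 (.thr 30 14 (.thr 60 45 (.thr 51 57 (.thr 39 27 (.thr 20 40 (.dbl 36 37 52))))))))))) (.rp 8 (.thr 34 46 (.thr 51 17 (.thr 39 27 (.thr 55 4 (.thr 23 7 (.thr 22 20 (.thr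 54 6 (.dbl 62 2 50)))))))) (.rp 4 (.thr 34 46 (.thr 51 17 (.thr 39 27 (.thr 12 25 (.thr 37 36 (.thr 47 32 (.thr 35 43 (.thr 3 19 (.thr 6 9 (.thr 22 54 (.dbl 7 11 52))))))))))) .nd)))))))))))) (.rp 51 (.thr 46 34 (.thr 55 4 (.thr 53 37 (.thr 54 52 (.thr 22 6 (.thr 62 2 (.thr 14 30 (.dbl 50 26 58)))))))) (.rp 12 (.thr 46 34 (.thr 4 55 (.thr 6 7 (.thr 22 54 (.thr 62 2 (.thr 30 14 (.thr 60 45 (.dbl 20 23 40)))))))) .nd))))))))) (.rp 47 (.thr 15 10 (.str 7 (.nv (.thr 4 6 (.thr 12 8 (.thr 38 55 (.thr 34 46 (.dbl 51 17 25))))) (.nv (.thr 3 11 (.thr 37 53 (.thr 48 26 (.thr 33 18 (.thr 41 45 (.dbl 22 52 60)))))) (.nv (.thr 4 6 (.thr 37 53 (.thr 22 52 (.thr 55 38 (.dbl 23 20 39))))) .nd))))) (.rp 37 (.str 6 (.nv (.thr 10 15 (.thr 14 2 (.thr 26 58 (.thr 38 50 (.dbl 4 7 55))))) (.nv (.thr 4 7 (.thr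 12 8 (.thr 38 55 (.thr 34 46 (.dbl 51 17 25))))) (.rp 55 (.thr 4 7 (.thr 10 15 (.thr 14 2 (.thr 12 8 (.thr 26 58 (.thr 38 50 (.thr 34 46 (.dbl 51 17 25)))))))) (.rp 49 (.str 25 (.nv (.thr 4 7 (.thr 17 29 (.thr 38 55 (.dbl 51 12 34)))) (.nv (.thr 17 29 (.thr 8 59 (.thr 12 4 (.dbl 51 34 38)))) (.nv (.thr 4 7 (.dbl 8 12 59)) (.rp 17 (.str 33 (.nv (.thr 8 59 (.thr 10 15 (.thr 12 4 (.dbl 9 3 11)))) (.nv (.thr 4 7 (.dbl 8 12 59)) (.rp 59 (.thr 4 7 (.thr 12 8 (.dbl 38 51 55))) (.rp 12 (.thr 10 15 (.thr 14 2 (.thr 4 7 (.thr 38 55 (.dbl 26 50 58))))) (.rp 8 (.thr 10 15 (.thr 14 2 (.thr 4 7 (.thr 38 55 (.dbl 26 50 58))))) (.rp 4 (.thr 10 15 (.thr 8 59 (.thr 11 9 (.thr 26 58 (.thr 24 27 (.dbl 56 40 41)))))) .nd))))))) (.rp 12 (.thr 4 7 (.thr 10 15 (.thr 14 2 (.thr 26 58 (.dbl 38 50 55))))) (.rp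 4 (.thr 10 15 (.thr 14 2 (.thr 17 29 (.thr 26 58 (.thr 34 51 (.dbl 38 46 50)))))) .nd))))))) (.rp 38 (.thr 4 7 (.thr 10 15 (.thr 2 14 (.thr 12 8 (.thr 3 9 (.thr 22 62 (.thr 20 23 (.dbl 60 40 41)))))))) (.rp 34 (.thr 4 7 (.thr 10 15 (.thr 14 2 (.thr 38 55 (.dbl 26 50 58))))) (.rp 25 (.str 49 (.nv (.thr 10 15 (.thr 14 2 (.thr 26 58 (.thr 38 50 (.dbl 4 7 55))))) (.nv (.thr 4 7 (.thr 10 15 (.thr 2 14 (.thr 12 8 (.thr 22 62 (.dbl 38 54 55)))))) (.nv (.thr 4 7 (.thr 38 55 (.thr 22 54 (.thr 2 62 (.dbl 10 14 15))))) (.nv (.thr 4 7 (.thr 10 15 (.thr 14 2 (.thr 26 58 (.dbl 38 50 55))))) (.rp 55 (.thr 4 7 (.thr 10 15 (.thr 26 58 (.thr 31 16 (.thr 2 14 (.thr 12 8 (.thr 22 62 (.thr 30 18 (.thr 28 29 (.thr 3 9 (.dbl 60 41 44))))))))))) (.rp 38 (.thr 4 7 (.thr 10 15 (.thr 2 14 (.thr 12 8 (.thr 22 62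 (.thr 20 23 (.thr 60 40 (.dbl 3 9 41)))))))) (.rp 15 (.thr 4 7 (.thr 38 55 (.thr 22 54 (.thr 2 62 (.thr 34 46 (.thr 50 18 (.dbl 51 17 48))))))) (.rp 14 (.thr 4 7 (.thr 38 55 (.thr 22 54 (.thr 34 46 (.thr 51 17 (.thr 50 48 (.dbl 2 18 62))))))) (.rp 10 (.thr 4 7 (.thr 38 55 (.thr 22 54 (.thr 2 62 (.thr 34 46 (.thr 50 18 (.dbl 51 17 48))))))) (.rp 7 (.thr 10 15 (.thr 26 58 (.thr 14 2 (.thr 38 50 (.thr 4 55 (.thr 8 12 (.thr 11 9 (.thr 41 56 (.thr 40 43 (.thr 20 60 (.dbl 22 23 54))))))))))) (.rp 4 (.thr 10 15 (.thr 26 58 (.thr 14 2 (.thr 38 50 (.thr 54 22 (.thr 34 46 (.thr 51 17 (.thr 60 57 (.thr 40 20 (.thr 41 43 (.thr 35 44 (.thr 32 33 (.dbl 16 31 48))))))))))))) (.rp 2 (.thr 4 7 (.thr 38 55 (.thr 10 15 (.thr 26 58 (.thr 34 46 (.thr 51 17 (.dbl 50 14 48))))))) .nd))))))))))))) (.rp 7 (.thr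 10 15 (.thr 14 2 (.thr 26 58 (.thr 38 50 (.thr 34 46 (.thr 4 55 (.thr 12 8 (.dbl 51 17 25)))))))) (.rp 4 (.thr 10 15 (.thr 14 2 (.thr 26 58 (.thr 38 50 (.thr 34 46 (.thr 54 22 (.thr 51 17 (.thr 60 57 (.thr 40 20 (.thr 41 43 (.thr 44 35 (.dbl 12 25 28)))))))))))) .nd)))))))))) (.rp 32 (.str 7 (.nv (.thr 6 4 (.thr 37 53 (.thr 22 52 (.thr 2 62 (.dbl 10 14 15))))) (.nv (.thr 4 6 (.thr 12 8 (.thr 38 55 (.thr 34 46 (.dbl 51 17 25))))) (.rp 55 (.thr 6 4 (.thr 10 15 (.thr 37 53 (.thr 22 52 (.thr 54 38 (.dbl 2 14 62)))))) (.rp 6 (.thr 15 10 (.thr 3 11 (.thr 37 53 (.thr 22 52 (.thr 20 23 (.dbl 60 40 41)))))) (.rp 4 (.thr 15 10 (.thr 3 11 (.thr 37 53 (.thr 22 52 (.thr 20 23 (.dbl 60 40 41)))))) .nd)))))) (.rp 26 (.str 7 (.nv (.thr 6 4 (.thr 37 53 (.thr 22 52 (.thr 2 62 (.dbl 10 14 15))))) (.nv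 (.thr 4 6 (.thr 12 8 (.thr 38 55 (.thr 34 46 (.dbl 51 17 25))))) (.rp 55 (.thr 6 4 (.thr 10 15 (.thr 37 53 (.thr 22 52 (.thr 54 38 (.dbl 2 14 62)))))) (.rp 6 (.thr 15 10 (.thr 3 11 (.thr 37 53 (.thr 22 52 (.thr 20 23 (.dbl 60 40 41)))))) (.rp 4 (.thr 15 10 (.thr 3 11 (.thr 37 53 (.thr 22 52 (.thr 20 23 (.dbl 60 40 41)))))) .nd)))))) (.rp 16 (.str 7 (.nv (.thr 6 4 (.thr 37 53 (.thr 22 52 (.thr 2 62 (.dbl 10 14 15))))) (.nv (.thr 4 6 (.thr 12 8 (.thr 38 55 (.thr 34 46 (.dbl 51 17 25))))) (.rp 55 (.thr 6 4 (.thr 10 15 (.thr 37 53 (.thr 22 52 (.thr 54 38 (.dbl 2 14 62)))))) (.rp 6 (.thr 15 10 (.thr 3 11 (.thr 37 53 (.thr 22 52 (.thr 20 23 (.dbl 60 40 41)))))) (.rp 4 (.thr 15 10 (.thr 3 11 (.thr 37 53 (.thr 22 52 (.thr 20 23 (.dbl 60 40 41)))))) .nd)))))) (.rp 15 (.str 12 (.nv (.thr 4 8 (.thr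 7 6 (.thr 37 53 (.thr 22 52 (.thr 23 20 (.dbl 55 38 39)))))) (.nv (.thr 8 4 (.thr 25 59 (.thr 51 38 (.dbl 17 29 34)))) (.rp 47 (.str 31 (.nv (.thr 4 8 (.thr 6 7 (.thr 26 16 (.thr 10 58 (.thr 14 2 (.dbl 38 50 55)))))) (.nv (.thr 8 4 (.thr 25 59 (.thr 51 38 (.dbl 17 29 34)))) (.rp 38 (.thr 8 4 (.thr 16 26 (.thr 48 32 (.thr 24 36 (.thr 20 28 (.dbl 40 56 60)))))) (.rp 8 (.thr 16 26 (.thr 37 53 (.thr 48 32 (.thr 36 24 (.thr 38 39 (.thr 34 46 (.dbl 51 17 25))))))) (.rp 4 (.thr 16 26 (.thr 37 53 (.thr 48 32 (.thr 36 24 (.thr 38 39 (.thr 34 46 (.dbl 51 17 25))))))) .nd)))))) (.rp 38 (.thr 4 8 (.thr 7 6 (.thr 37 53 (.thr 47 32 (.thr 22 52 (.thr 20 23 (.thr 60 40 (.thr 44 28 (.thr 45 46 (.dbl 41 3 33)))))))))) (.rp 31 (.str 47 (.nv (.dbl 37 32 53) (.rp 53 (.thr 4 8 (.thr 38 55 (.thr 34 46 (.dbl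 51 17 25)))) (.rp 37 (.thr 4 8 (.thr 38 55 (.thr 34 46 (.dbl 51 17 25)))) (.rp 32 (.thr 4 8 (.thr 38 55 (.thr 34 46 (.dbl 51 17 25)))) .nd))))) (.rp 8 (.thr 37 53 (.str 48 (.nv (.dbl 32 16 47) (.rp 47 (.str 31 (.nv (.dbl 16 26 32) (.rp 32 (.thr 36 24 (.thr 38 39 (.thr 34 46 (.dbl 51 17 25)))) (.rp 26 (.thr 36 24 (.thr 38 39 (.thr 34 46 (.dbl 51 17 25)))) (.rp 16 (.thr 36 24 (.thr 38 39 (.thr 34 46 (.dbl 51 17 25)))) .nd))))) (.rp 32 (.thr 36 24 (.thr 38 39 (.thr 34 46 (.dbl 51 17 25)))) (.rp 31 (.thr 47 32 (.thr 36 24 (.thr 38 39 (.thr 34 46 (.dbl 51 17 25))))) (.rp 16 (.thr 36 24 (.thr 38 39 (.thr 34 46 (.dbl 51 17 25)))) .nd))))))) (.rp 4 (.thr 37 53 (.str 48 (.nv (.dbl 32 16 47) (.rp 47 (.str 31 (.nv (.dbl 16 26 32) (.rp 32 (.thr 36 24 (.thr 38 39 (.thr 34 46 (.dbl 51 17 25)))) (.rp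 26 (.thr 36 24 (.thr 38 39 (.thr 34 46 (.dbl 51 17 25)))) (.rp 16 (.thr 36 24 (.thr 38 39 (.thr 34 46 (.dbl 51 17 25)))) .nd))))) (.rp 32 (.thr 36 24 (.thr 38 39 (.thr 34 46 (.dbl 51 17 25)))) (.rp 31 (.thr 47 32 (.thr 36 24 (.thr 38 39 (.thr 34 46 (.dbl 51 17 25))))) (.rp 16 (.thr 36 24 (.thr 38 39 (.thr 34 46 (.dbl 51 17 25)))) .nd))))))) .nd)))))))) (.rp 10 (.str 7 (.nv (.thr 37 53 (.thr 22 52 (.thr 23 20 (.thr 55 39 (.dbl 4 6 38))))) (.nv (.thr 4 6 (.thr 12 8 (.thr 37 53 (.thr 32 47 (.thr 48 16 (.thr 36 24 (.dbl 52 20 22))))))) (.nv (.thr 4 6 (.thr 12 8 (.thr 38 55 (.thr 34 46 (.dbl 51 17 25))))) (.nv (.thr 4 6 (.thr 37 53 (.thr 22 52 (.thr 55 38 (.dbl 23 20 39))))) (.rp 6 (.thr 37 53 (.thr 32 47 (.thr 22 52 (.thr 20 23 (.thr 60 40 (.thr 3 41 (.thr 15 11 (.dbl 48 16 26)))))))) (.rp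 4 (.thr 37 53 (.thr 32 47 (.thr 22 52 (.thr 20 23 (.thr 60 40 (.thr 3 41 (.thr 15 11 (.dbl 48 16 26)))))))) .nd))))))) .nd)))))))))))

theorem w100 : WinAt (4398048608257, 9223372036854784002) :=
  chF (K := []) kn c100 4398048608257 9223372036854784002 63
    [8738] (by decide +kernel) (by decide +kernel)

/-- A certificate. -/
noncomputable def c101 : Ct := (.str 12 (.nv (.thr 8 4 (.thr 25 59 (.thr 51 38 (.dbl 17 29 34)))) (.nv (.thr 4 8 (.thr 38 55 (.thr 51 25 (.dbl 34 17 46)))) (.rp 51 (.thr 4 8 (.str 36 (.nv (.thr 55 38 (.thr 20 52 (.thr 24 48 (.thr 60 40 (.dbl 28 16 44))))) (.nv (.thr 20 52 (.thr 40 60 (.thr 32 44 (.thr 37 47 (.dbl 38 39 55))))) (.nv (.thr 48 24 (.thr 16 32 (.thr 26 31 (.thr 10 58 (.dbl 15 5 37))))) (.nv (.thr 20 52 (.thr 60 40 (.thr 28 44 (.dbl 24 16 48)))) (.rp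 55 (.str 59 (.nv (.thr 20 52 (.thr 24 48 (.thr 60 40 (.dbl 28 16 44)))) (.nv (.thr 48 24 (.thr 16 32 (.thr 26 31 (.thr 10 58 (.dbl 15 5 37))))) (.nv (.thr 48 24 (.thr 32 16 (.thr 40 44 (.dbl 20 52 60)))) (.rp 48 (.thr 20 52 (.thr 60 40 (.thr 28 44 (.thr 22 23 (.thr 25 19 (.thr 29 17 (.thr 31 30 (.dbl 16 24 26)))))))) (.rp 40 (.thr 52 20 (.thr 48 24 (.thr 56 60 (.thr 16 32 (.thr 26 31 (.dbl 58 10 57)))))) (.rp 24 (.thr 20 52 (.thr 40 60 (.thr 32 44 (.thr 48 16 (.thr 37 47 (.thr 15 26 (.dbl 5 10 53))))))) (.rp 16 (.thr 48 24 (.thr 20 52 (.thr 40 60 (.thr 32 44 (.thr 37 47 (.thr 15 26 (.dbl 5 10 53))))))) .nd)))))))) (.rp 48 (.thr 20 52 (.thr 60 40 (.thr 22 23 (.thr 3 41 (.thr 6 9 (.dbl 38 54 55)))))) (.rp 40 (.thr 52 20 (.thr 55 38 (.thr 53 54 (.thr 37 5 (.thr 32 47 (.dbl 48 16 24))))))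 .nd))))))))) (.rp 38 (.str 26 (.nv (.thr 8 4 (.thr 16 31 (.thr 25 59 (.thr 24 27 (.dbl 48 32 36))))) (.nv (.thr 8 4 (.thr 25 59 (.thr 24 27 (.thr 56 40 (.thr 11 41 (.dbl 10 9 58)))))) (.nv (.thr 16 31 (.thr 10 58 (.thr 48 32 (.dbl 15 5 37)))) .nd)))) (.rp 34 (.str 15 (.nv (.thr 4 8 (.thr 38 55 (.thr 51 25 (.thr 39 27 (.thr 37 36 (.dbl 5 10 53)))))) (.nv (.thr 10 5 (.thr 26 58 (.thr 48 37 (.dbl 16 31 32)))) (.rp 37 (.thr 10 5 (.thr 8 4 (.thr 25 59 (.thr 26 58 (.thr 27 24 (.dbl 51 38 39)))))) (.rp 26 (.thr 5 10 (.thr 4 8 (.thr 38 55 (.thr 37 53 (.thr 39 36 (.dbl 51 25 27)))))) (.rp 10 (.thr 4 8 (.thr 38 55 (.thr 51 25 (.thr 39 27 (.thr 37 36 (.thr 32 47 (.dbl 48 16 26))))))) (.rp 5 (.thr 4 8 (.thr 38 55 (.thr 51 25 (.thr 39 27 (.thr 37 36 (.thr 32 47 (.dbl 48 16 26))))))) .nd))))))) (.rp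 25 (.str 15 (.nv (.thr 4 8 (.thr 5 10 (.thr 37 53 (.thr 48 26 (.thr 38 55 (.dbl 36 24 39)))))) (.nv (.thr 10 5 (.thr 26 58 (.thr 16 31 (.dbl 48 32 37)))) (.rp 53 (.thr 10 5 (.thr 26 58 (.thr 48 37 (.dbl 16 31 32)))) (.rp 48 (.thr 5 10 (.thr 4 8 (.thr 38 55 (.thr 34 46 (.thr 51 17 (.thr 39 27 (.dbl 37 36 53))))))) (.rp 37 (.thr 10 5 (.thr 8 4 (.thr 26 58 (.thr 16 31 (.thr 48 32 (.thr 24 36 (.thr 20 28 (.dbl 40 56 60)))))))) (.rp 26 (.thr 5 10 (.thr 4 8 (.thr 38 55 (.thr 34 46 (.thr 37 53 (.thr 39 36 (.dbl 51 17 27))))))) (.rp 10 (.thr 4 8 (.thr 38 55 (.thr 34 46 (.thr 51 17 (.thr 39 27 (.thr 37 36 (.thr 32 47 (.dbl 48 16 26)))))))) (.rp 9 (.thr 5 10 (.thr 37 53 (.thr 32 47 (.dbl 48 16 26)))) (.rp 5 (.thr 4 8 (.thr 38 55 (.thr 34 46 (.thr 51 17 (.thr 39 27 (.thr 37 36 (.thr 32 47 (.dbl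 48 16 26)))))))) .nd)))))))))) (.rp 17 (.str 15 (.nv (.thr 4 8 (.thr 38 55 (.thr 51 25 (.thr 39 27 (.thr 37 36 (.dbl 5 10 53)))))) (.nv (.thr 10 5 (.thr 26 58 (.thr 48 37 (.dbl 16 31 32)))) (.rp 49 (.str 33 (.nv (.thr 4 8 (.thr 38 55 (.thr 34 46 (.thr 32 35 (.thr 37 47 (.dbl 48 16 26)))))) (.nv (.thr 4 8 (.thr 38 55 (.thr 34 46 (.thr 32 35 (.thr 37 47 (.dbl 5 10 53)))))) (.nv (.thr 10 5 (.thr 26 58 (.thr 16 31 (.dbl 48 32 37)))) (.rp 37 (.thr 10 5 (.thr 8 4 (.thr 25 59 (.thr 51 38 (.thr 26 58 (.dbl 27 24 39)))))) (.rp 32 (.thr 5 10 (.thr 4 8 (.thr 6 7 (.thr 37 53 (.thr 48 26 (.dbl 3 9 18)))))) .nd)))))) (.rp 37 (.thr 10 5 (.thr 8 4 (.thr 25 59 (.thr 26 58 (.thr 27 24 (.dbl 51 38 39)))))) (.rp 33 (.str 49 (.nv (.thr 4 8 (.thr 38 55 (.thr 51 25 (.thr 39 27 (.thr 36 37 (.dbl 48 24 50))))))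 (.nv (.thr 5 10 (.thr 37 53 (.thr 32 47 (.dbl 48 16 26)))) (.nv (.thr 8 4 (.thr 25 59 (.thr 37 13 (.dbl 5 10 53)))) (.rp 37 (.thr 8 4 (.thr 10 5 (.thr 25 59 (.thr 51 38 (.thr 26 58 (.dbl 27 24 39)))))) .nd))))) (.rp 26 (.thr 5 10 (.thr 4 8 (.thr 38 55 (.thr 37 53 (.thr 39 36 (.dbl 51 25 27)))))) (.rp 10 (.thr 8 4 (.thr 25 59 (.thr 51 38 (.thr 27 39 (.thr 26 24 (.thr 16 31 (.dbl 48 32 37))))))) (.rp 5 (.thr 8 4 (.thr 25 59 (.thr 51 38 (.thr 27 39 (.thr 26 24 (.thr 16 31 (.dbl 48 32 37))))))) .nd))))))))) (.rp 8 (.str 32 (.nv (.thr 37 47 (.thr 48 16 (.thr 36 24 (.thr 38 39 (.thr 34 46 (.dbl 51 17 25)))))) (.nv (.thr 48 16 (.thr 37 47 (.thr 5 53 (.dbl 15 10 26)))) (.rp 48 (.str 60 (.nv (.thr 44 28 (.dbl 40 20 36)) (.rp 58 (.str 53 (.nv (.thr 40 20 (.dbl 44 28 36)) (.nv (.dbl 37 5 47) .nd)))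 (.rp 53 (.str 58 (.nv (.thr 44 28 (.dbl 40 20 36)) (.rp 44 (.thr 20 40 (.thr 22 23 (.thr 62 2 (.thr 54 50 (.thr 51 57 (.dbl 38 6 25)))))) (.rp 40 (.thr 44 28 (.thr 10 26 (.thr 47 37 (.thr 15 5 (.dbl 45 30 46))))) (.rp 36 (.thr 28 44 (.thr 20 40 (.thr 26 10 (.dbl 16 24 31)))) (.rp 28 (.thr 20 40 (.thr 22 23 (.thr 62 2 (.thr 54 50 (.thr 51 57 (.dbl 38 6 25)))))) (.rp 20 (.thr 44 28 (.thr 10 26 (.thr 47 37 (.thr 15 5 (.dbl 45 30 46))))) .nd))))))) (.rp 44 (.thr 40 20 (.thr 37 47 (.thr 41 43 (.thr 45 33 (.thr 15 30 (.dbl 5 10 53)))))) (.rp 40 (.thr 44 28 (.thr 47 37 (.thr 46 45 (.thr 38 34 (.thr 25 51 (.thr 41 35 (.thr 9 57 (.dbl 3 6 22)))))))) (.rp 36 (.thr 44 28 (.thr 40 20 (.thr 37 47 (.thr 41 43 (.thr 33 45 (.dbl 35 34 38)))))) (.rp 28 (.thr 40 20 (.thr 44 36 (.thr 37 47 (.thr 41 43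 (.thr 33 45 (.dbl 35 34 38)))))) (.rp 20 (.thr 44 28 (.thr 40 36 (.thr 37 47 (.thr 41 43 (.thr 33 45 (.dbl 35 34 38)))))) .nd))))))))) (.rp 47 (.thr 48 16 (.thr 36 24 (.thr 40 44 (.thr 20 60 (.thr 4 52 (.thr 38 55 (.thr 51 25 (.dbl 34 17 46)))))))) (.rp 37 (.thr 48 16 (.thr 36 24 (.thr 40 44 (.thr 20 60 (.thr 4 52 (.thr 38 55 (.thr 34 46 (.dbl 51 17 25)))))))) (.rp 31 (.thr 48 16 (.thr 37 47 (.thr 15 26 (.dbl 5 10 53)))) (.rp 16 (.thr 37 47 (.thr 5 53 (.thr 15 10 (.thr 48 26 (.thr 36 24 (.thr 38 39 (.thr 34 46 (.dbl 51 17 25)))))))) (.rp 15 (.thr 48 16 (.thr 36 24 (.thr 40 44 (.thr 20 60 (.thr 52 4 (.thr 22 23 (.dbl 37 7 47))))))) .nd))))))))) (.rp 4 (.str 16 (.nv (.thr 26 31 (.thr 48 32 (.thr 24 36 (.thr 25 27 (.thr 17 29 (.dbl 51 34 38)))))) (.nv (.thr 48 32 (.thr 26 31 (.thr 15 37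 (.dbl 10 5 58)))) (.rp 48 (.str 60 (.nv (.thr 28 44 (.dbl 20 24 40)) (.rp 58 (.str 53 (.nv (.thr 28 44 (.dbl 20 24 40)) (.rp 44 (.thr 20 40 (.thr 28 24 (.thr 5 37 (.thr 31 26 (.thr 15 10 (.dbl 30 29 45)))))) (.rp 40 (.thr 28 44 (.thr 5 37 (.thr 31 26 (.thr 15 10 (.dbl 30 29 45))))) (.rp 28 (.thr 20 40 (.thr 5 37 (.thr 26 31 (.thr 22 23 (.thr 30 18 (.dbl 15 10 45)))))) (.rp 24 (.thr 44 28 (.thr 40 20 (.thr 37 5 (.dbl 32 36 47)))) (.rp 20 (.thr 28 44 (.thr 5 37 (.thr 31 26 (.thr 15 10 (.dbl 30 29 45))))) .nd))))))) (.rp 53 (.str 58 (.nv (.thr 20 40 (.dbl 28 24 44)) (.nv (.dbl 26 10 31) .nd))) (.rp 44 (.thr 20 40 (.thr 28 24 (.thr 26 31 (.thr 22 23 (.thr 18 30 (.dbl 19 17 25)))))) (.rp 40 (.thr 28 44 (.thr 20 24 (.thr 26 31 (.thr 22 23 (.thr 18 30 (.dbl 19 17 25)))))) (.rp 28 (.thr 20 40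 (.thr 26 31 (.thr 22 23 (.thr 30 18 (.thr 15 45 (.dbl 10 5 58)))))) (.rp 24 (.thr 28 44 (.thr 20 40 (.thr 26 31 (.thr 22 23 (.thr 18 30 (.dbl 19 17 25)))))) (.rp 20 (.thr 28 44 (.thr 31 26 (.thr 29 30 (.thr 25 17 (.thr 38 51 (.thr 22 19 (.thr 6 54 (.dbl 3 9 41)))))))) .nd))))))))) (.rp 32 (.thr 26 31 (.thr 10 58 (.thr 15 5 (.thr 48 37 (.thr 24 36 (.thr 25 27 (.thr 17 29 (.dbl 51 34 38)))))))) (.rp 31 (.thr 48 32 (.thr 24 36 (.thr 20 28 (.thr 40 60 (.thr 8 56 (.thr 25 59 (.thr 51 38 (.dbl 17 29 34)))))))) (.rp 26 (.thr 48 32 (.thr 24 36 (.thr 20 28 (.thr 40 60 (.thr 8 56 (.thr 25 59 (.thr 17 29 (.dbl 51 34 38)))))))) (.rp 15 (.thr 48 32 (.thr 24 36 (.thr 20 28 (.thr 40 60 (.thr 56 8 (.thr 41 43 (.dbl 26 11 31))))))) .nd)))))))) .nd))))))))))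

theorem w101 : WinAt (4398048608257, 9223372036854792194) :=
  chF (K := []) kn c101 4398048608257 9223372036854792194 63
    [] (by decide +kernel) (by decide +kernel)

/-- A certificate. -/
noncomputable def c102 : Ct := (.str 17 (.nv (.thr 25 29 (.thr 51 34 (.thr 55 59 (.dbl 38 4 12)))) (.rp 59 (.thr 25 29 (.str 53 (.nv (.thr 48 58 (.thr 16 32 (.thr 19 18 (.thr 22 28 (.thr 23 20 (.dbl 31 26 27)))))) (.nv (.thr 37 5 (.thr 48 58 (.thr 51 34 (.dbl 49 13 50)))) (.rp 58 (.thr 37 5 (.thr 51 34 (.thr 38 12 (.thr 39 36 (.thr 55 4 (.thr 7 23 (.dbl 52 22 54))))))) (.rp 57 (.thr 37 5 (.thr 51 34 (.thr 38 12 (.thr 39 36 (.thr 55 4 (.thr 7 23 (.dbl 52 22 54))))))) (.rp 56 (.thr 37 5 (.thr 51 34 (.thr 38 12 (.thr 39 36 (.thr 55 4 (.thr 7 23 (.dbl 52 22 54))))))) (.rp 48 (.thr 37 5 (.thr 51 34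 (.thr 38 12 (.thr 55 4 (.thr 52 54 (.thr 7 22 (.dbl 39 23 36))))))) (.rp 37 (.thr 48 58 (.thr 51 34 (.thr 49 50 (.thr 57 61 (.thr 38 12 (.thr 55 4 (.dbl 54 52 60))))))) (.rp 26 (.thr 37 5 (.thr 51 34 (.thr 38 12 (.thr 39 36 (.thr 55 4 (.thr 7 23 (.dbl 52 22 54))))))) (.rp 10 (.thr 37 5 (.thr 51 34 (.thr 38 12 (.thr 39 36 (.thr 55 4 (.thr 7 23 (.dbl 52 22 54))))))) .nd))))))))))) (.rp 55 (.str 3 (.nv (.thr 23 43 (.thr 22 20 (.thr 25 29 (.thr 19 28 (.thr 16 18 (.dbl 31 26 27)))))) (.nv (.thr 51 34 (.thr 19 35 (.thr 16 18 (.thr 31 26 (.dbl 23 27 43))))) (.nv (.thr 25 29 (.thr 51 34 (.thr 23 43 (.thr 22 20 (.dbl 19 28 35))))) (.rp 43 (.thr 25 29 (.thr 51 34 (.thr 19 35 (.thr 22 28 (.thr 20 23 (.dbl 60 40 41)))))) (.rp 23 (.thr 25 29 (.thr 51 34 (.thr 35 19 (.thr 38 12 (.thr 41 44 (.thr 57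 9 (.dbl 60 22 54))))))) (.rp 22 (.thr 23 43 (.thr 51 34 (.thr 19 35 (.thr 31 27 (.dbl 16 18 26))))) (.rp 19 (.thr 25 29 (.thr 23 43 (.thr 51 34 (.thr 38 12 (.thr 22 20 (.thr 54 6 (.dbl 60 41 57))))))) .nd)))))))) (.rp 51 (.str 16 (.nv (.thr 18 19 (.thr 26 31 (.thr 48 32 (.thr 3 33 (.thr 23 43 (.dbl 22 20 30)))))) (.nv (.thr 29 25 (.thr 12 46 (.thr 31 26 (.thr 48 32 (.thr 24 36 (.dbl 28 20 30)))))) (.nv (.thr 25 29 (.thr 19 18 (.thr 22 28 (.thr 23 20 (.dbl 31 26 27))))) (.rp 39 (.str 27 (.nv (.thr 25 29 (.dbl 26 24 31)) (.nv (.thr 19 18 (.dbl 31 23 26)) (.rp 31 (.thr 19 18 (.thr 25 29 (.thr 24 26 (.dbl 28 20 22)))) (.rp 26 (.thr 19 18 (.thr 23 31 (.thr 25 29 (.dbl 22 20 28)))) .nd))))) (.rp 31 (.thr 29 25 (.thr 48 32 (.thr 12 46 (.thr 8 4 (.thr 24 36 (.thr 20 28 (.dbl 40 56 60)))))))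 (.rp 30 (.thr 19 18 (.thr 26 31 (.thr 25 29 (.thr 28 22 (.dbl 24 20 27))))) (.rp 27 (.str 39 (.nv (.thr 48 32 (.thr 18 19 (.thr 3 33 (.thr 26 31 (.thr 23 43 (.dbl 22 20 30)))))) (.nv (.thr 48 32 (.thr 53 58 (.thr 37 5 (.thr 36 38 (.thr 12 24 (.dbl 29 25 46)))))) (.rp 48 (.thr 19 18 (.thr 25 29 (.thr 22 28 (.thr 23 20 (.thr 55 7 (.thr 38 4 (.thr 6 54 (.thr 3 43 (.thr 9 12 (.dbl 41 57 60)))))))))) (.rp 47 (.thr 19 18 (.thr 25 29 (.thr 22 28 (.thr 23 20 (.thr 7 55 (.thr 37 52 (.thr 53 5 (.dbl 48 32 58)))))))) (.rp 37 (.thr 19 18 (.thr 25 29 (.thr 22 28 (.thr 23 20 (.thr 55 7 (.thr 38 4 (.thr 6 54 (.thr 3 43 (.thr 9 12 (.dbl 41 57 60)))))))))) (.rp 34 (.thr 48 32 (.thr 53 58 (.thr 37 5 (.thr 38 36 (.thr 55 4 (.thr 7 23 (.dbl 52 22 54))))))) (.rp 32 (.thr 19 18 (.thr 25 29 (.thr 22 28 (.thr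 23 20 (.thr 55 7 (.thr 38 4 (.thr 6 54 (.thr 3 43 (.thr 9 12 (.dbl 41 57 60)))))))))) (.rp 26 (.thr 48 32 (.thr 18 19 (.thr 3 33 (.thr 23 43 (.thr 55 7 (.thr 38 4 (.thr 37 36 (.dbl 53 5 58)))))))) .nd))))))))) (.rp 26 (.thr 29 25 (.thr 48 32 (.thr 12 46 (.thr 8 4 (.thr 24 36 (.thr 20 28 (.dbl 40 56 60))))))) (.rp 20 (.thr 18 19 (.thr 26 31 (.thr 22 30 (.thr 48 32 (.thr 53 58 (.thr 3 33 (.thr 60 41 (.thr 52 56 (.dbl 37 5 7))))))))) .nd)))))))))) (.rp 46 (.thr 25 29 (.thr 51 34 (.thr 38 12 (.dbl 55 4 59)))) (.rp 38 (.thr 25 29 (.str 19 (.nv (.thr 16 18 (.thr 31 26 (.thr 23 27 (.thr 3 43 (.dbl 51 34 35))))) (.nv (.thr 34 51 (.thr 16 18 (.thr 26 31 (.thr 28 22 (.dbl 24 20 27))))) (.nv (.thr 22 28 (.thr 20 23 (.thr 60 40 (.thr 41 3 (.thr 57 9 (.dbl 51 34 54)))))) (.nv (.thr 16 18 (.thr 22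 28 (.thr 23 20 (.dbl 31 26 27)))) (.rp 34 (.str 46 (.nv (.thr 16 18 (.thr 26 31 (.thr 28 22 (.dbl 24 20 27)))) (.nv (.thr 18 16 (.thr 22 28 (.thr 30 26 (.thr 20 23 (.thr 60 40 (.dbl 62 14 61)))))) (.nv (.thr 22 28 (.thr 23 20 (.thr 16 18 (.dbl 31 26 27)))) (.rp 50 (.thr 22 28 (.thr 23 20 (.thr 31 27 (.dbl 16 18 26)))) (.rp 28 (.thr 16 18 (.thr 31 26 (.thr 23 27 (.thr 22 20 (.thr 3 43 (.thr 41 60 (.thr 57 9 (.thr 51 35 (.thr 59 55 (.thr 58 56 (.dbl 48 32 53))))))))))) (.rp 26 (.thr 22 28 (.thr 20 23 (.thr 16 18 (.thr 60 40 (.thr 48 32 (.thr 52 56 (.thr 37 7 (.dbl 53 5 58)))))))) (.rp 22 (.thr 16 18 (.thr 26 31 (.thr 24 27 (.thr 48 32 (.thr 12 36 (.thr 8 4 (.thr 40 56 (.dbl 20 28 60)))))))) (.rp 20 (.thr 22 28 (.thr 16 18 (.thr 48 32 (.thr 53 58 (.thr 37 5 (.thr 52 7 (.thr 55 54 (.thr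 51 59 (.dbl 49 13 50))))))))) (.rp 18 (.thr 22 28 (.thr 23 20 (.thr 31 27 (.thr 3 43 (.thr 41 60 (.thr 9 57 (.thr 12 6 (.thr 8 4 (.thr 11 10 (.dbl 26 16 56)))))))))) (.rp 16 (.thr 22 28 (.thr 20 23 (.thr 60 40 (.thr 41 3 (.thr 62 61 (.thr 57 9 (.thr 54 51 (.thr 58 50 (.thr 56 59 (.dbl 48 52 53)))))))))) .nd))))))))))) (.rp 31 (.thr 18 16 (.thr 22 28 (.thr 30 26 (.thr 20 23 (.thr 60 40 (.thr 41 3 (.thr 57 9 (.dbl 51 34 54)))))))) (.rp 22 (.thr 16 18 (.thr 26 31 (.thr 24 27 (.thr 48 32 (.thr 12 36 (.thr 8 4 (.thr 40 56 (.dbl 20 28 60)))))))) .nd))))))))) (.rp 34 (.thr 25 29 (.str 19 (.nv (.thr 22 28 (.thr 23 20 (.thr 3 43 (.thr 51 35 (.thr 38 12 (.dbl 55 4 59)))))) (.nv (.thr 16 18 (.thr 26 31 (.thr 28 22 (.dbl 24 20 27)))) (.rp 46 (.str 38 (.nv (.thr 16 18 (.thr 22 28 (.thr 23 20 (.dbl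 31 26 27)))) (.nv (.thr 4 55 (.dbl 12 8 51)) .nd))) (.rp 38 (.str 46 (.nv (.thr 16 18 (.thr 26 31 (.thr 28 22 (.dbl 24 20 27)))) (.nv (.thr 18 16 (.thr 22 28 (.thr 30 26 (.thr 20 23 (.thr 60 40 (.dbl 62 14 61)))))) (.nv (.thr 22 28 (.thr 23 20 (.thr 16 18 (.dbl 31 26 27)))) (.rp 50 (.thr 22 28 (.thr 23 20 (.thr 31 27 (.dbl 16 18 26)))) (.rp 28 (.thr 16 18 (.thr 31 26 (.thr 23 27 (.thr 22 20 (.thr 3 43 (.thr 41 60 (.thr 57 9 (.thr 51 35 (.thr 59 55 (.thr 58 56 (.dbl 48 32 53))))))))))) (.rp 26 (.thr 22 28 (.thr 20 23 (.thr 16 18 (.thr 60 40 (.thr 48 32 (.thr 52 56 (.thr 37 7 (.dbl 53 5 58)))))))) (.rp 22 (.thr 16 18 (.thr 26 31 (.thr 24 27 (.thr 48 32 (.thr 12 36 (.thr 8 4 (.thr 40 56 (.dbl 20 28 60)))))))) (.rp 20 (.thr 22 28 (.thr 16 18 (.thr 48 32 (.thr 53 58 (.thr 37 5 (.thr 52 7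 (.thr 55 54 (.thr 51 59 (.dbl 49 13 50))))))))) (.rp 18 (.thr 22 28 (.thr 23 20 (.thr 31 27 (.thr 3 43 (.thr 41 60 (.thr 9 57 (.thr 12 6 (.thr 8 4 (.thr 11 10 (.dbl 26 16 56)))))))))) (.rp 16 (.thr 22 28 (.thr 20 23 (.thr 60 40 (.thr 41 3 (.thr 62 61 (.thr 57 9 (.thr 54 51 (.thr 58 50 (.thr 56 59 (.dbl 48 52 53)))))))))) .nd))))))))))) (.rp 31 (.thr 16 18 (.thr 28 22 (.thr 24 20 (.thr 48 32 (.thr 12 36 (.thr 4 8 (.dbl 38 51 55))))))) (.rp 28 (.thr 16 18 (.thr 31 26 (.thr 23 27 (.thr 3 43 (.thr 51 35 (.thr 38 12 (.dbl 55 4 59))))))) (.rp 24 (.thr 16 18 (.thr 22 28 (.thr 31 26 (.dbl 23 20 27)))) (.rp 22 (.thr 16 18 (.thr 26 31 (.thr 24 27 (.thr 48 32 (.thr 12 36 (.thr 4 8 (.dbl 38 51 55))))))) (.rp 20 (.thr 16 18 (.thr 26 31 (.thr 24 27 (.thr 48 32 (.thr 12 36 (.thr 4 8 (.dbl 38 51 55)))))))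 (.rp 16 (.thr 22 28 (.thr 20 23 (.thr 60 40 (.thr 41 3 (.thr 57 9 (.thr 51 54 (.thr 55 59 (.dbl 38 4 12)))))))) .nd)))))))))))) (.rp 29 (.str 48 (.nv (.thr 16 32 (.thr 18 19 (.thr 26 31 (.thr 3 33 (.thr 23 43 (.dbl 22 20 30)))))) (.nv (.thr 51 34 (.thr 50 49 (.thr 59 55 (.thr 58 53 (.thr 57 56 (.dbl 54 60 62)))))) (.rp 34 (.thr 16 32 (.thr 19 18 (.thr 31 26 (.thr 23 27 (.thr 22 20 (.thr 25 28 (.thr 3 43 (.thr 41 60 (.thr 9 57 (.thr 12 6 (.dbl 51 35 38))))))))))) .nd)))) (.rp 25 (.thr 51 34 (.thr 59 55 (.str 48 (.nv (.thr 16 32 (.thr 18 19 (.thr 26 31 (.thr 22 30 (.thr 23 20 (.dbl 3 33 43)))))) (.nv (.thr 50 49 (.thr 58 53 (.thr 57 56 (.dbl 54 60 62)))) (.rp 60 (.thr 50 49 (.thr 58 53 (.thr 54 62 (.thr 16 32 (.thr 18 19 (.thr 26 31 (.thr 38 14 (.dbl 22 6 30)))))))) (.rp 46 (.str 38 (.nv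 (.thr 58 53 (.thr 57 56 (.thr 54 60 (.dbl 50 49 62)))) (.nv (.thr 16 32 (.thr 26 31 (.dbl 50 14 49))) (.rp 50 (.thr 16 32 (.thr 18 19 (.thr 26 31 (.thr 22 30 (.thr 23 20 (.dbl 3 33 43)))))) (.rp 49 (.thr 16 32 (.thr 18 19 (.thr 26 31 (.thr 22 30 (.thr 23 20 (.dbl 3 33 43)))))) .nd))))) (.rp 38 (.str 46 (.nv (.thr 12 29 (.thr 4 8 (.thr 32 16 (.thr 36 24 (.thr 40 44 (.dbl 20 52 60)))))) (.nv (.thr 50 49 (.thr 58 53 (.thr 57 56 (.dbl 54 60 62)))) (.rp 60 (.thr 58 53 (.thr 56 57 (.thr 12 29 (.thr 24 36 (.dbl 8 4 40))))) (.rp 52 (.thr 50 49 (.thr 58 53 (.thr 54 62 (.dbl 57 56 60)))) .nd))))) (.rp 37 (.thr 58 53 (.thr 57 56 (.thr 54 60 (.dbl 50 49 62)))) .nd))))))))) (.rp 12 (.thr 25 29 (.str 13 (.nv (.thr 49 37 (.thr 51 34 (.thr 55 59 (.thr 48 50 (.thr 53 58 (.thr 57 61 (.dbl 54 52 60)))))))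 (.nv (.thr 37 49 (.thr 53 5 (.thr 48 58 (.thr 16 32 (.thr 19 18 (.thr 22 28 (.thr 23 20 (.dbl 31 26 27)))))))) (.nv (.thr 37 49 (.thr 51 34 (.thr 53 5 (.thr 55 59 (.thr 52 54 (.thr 7 22 (.thr 38 4 (.dbl 39 23 36)))))))) (.rp 53 (.thr 37 49 (.thr 51 34 (.thr 55 59 (.thr 38 4 (.thr 39 36 (.thr 23 7 (.thr 3 43 (.thr 19 35 (.dbl 22 20 28))))))))) (.rp 49 (.str 37 (.nv (.thr 51 34 (.thr 53 5 (.thr 58 48 (.thr 55 59 (.thr 54 52 (.thr 60 57 (.dbl 62 50 61))))))) (.nv (.thr 53 5 (.thr 48 58 (.thr 16 32 (.thr 19 18 (.thr 22 28 (.thr 23 20 (.dbl 31 26 27))))))) (.nv (.thr 53 5 (.thr 51 34 (.thr 55 59 (.thr 52 54 (.thr 7 22 (.thr 38 4 (.dbl 39 23 36))))))) (.rp 53 (.thr 51 34 (.thr 55 59 (.thr 38 4 (.thr 39 36 (.thr 23 7 (.thr 3 43 (.thr 19 35 (.dbl 22 20 28)))))))) (.rp 5 (.thr 51 34 (.thr 55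 59 (.thr 38 4 (.thr 39 36 (.thr 7 23 (.thr 52 22 (.thr 53 54 (.thr 48 58 (.thr 16 32 (.thr 56 60 (.thr 26 31 (.thr 41 11 (.thr 19 18 (.dbl 35 3 44)))))))))))))) .nd)))))) (.rp 37 (.thr 51 34 (.thr 55 59 (.thr 38 4 (.str 26 (.nv (.thr 16 31 (.thr 24 27 (.thr 28 20 (.dbl 19 18 22)))) (.nv (.thr 50 14 (.thr 48 49 (.dbl 16 31 32))) (.rp 47 (.str 32 (.nv (.dbl 16 31 48) (.rp 48 (.thr 16 31 (.thr 19 18 (.thr 24 27 (.dbl 28 20 22)))) (.rp 31 (.thr 50 14 (.dbl 48 16 49)) (.rp 16 (.thr 50 14 (.thr 48 49 (.thr 53 58 (.thr 54 52 (.thr 22 6 (.thr 20 23 (.dbl 60 40 57))))))) .nd))))) (.rp 32 (.str 47 (.nv (.thr 16 31 (.thr 19 18 (.thr 28 22 (.dbl 24 20 27)))) (.nv (.thr 27 24 (.thr 31 16 (.thr 23 19 (.thr 43 3 (.dbl 39 7 35))))) (.nv (.thr 16 31 (.thr 19 18 (.thr 24 27 (.dbl 28 20 22)))) (.rp 35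 (.str 33 (.nv (.thr 24 27 (.thr 16 31 (.thr 28 20 (.dbl 19 18 22)))) (.nv (.thr 50 14 (.thr 16 31 (.thr 48 49 (.dbl 18 3 19)))) (.rp 31 (.thr 50 14 (.thr 48 49 (.thr 18 3 (.thr 19 16 (.dbl 22 28 30))))) (.rp 28 (.thr 50 14 (.thr 48 49 (.thr 18 3 (.dbl 16 19 31)))) (.rp 19 (.thr 50 14 (.thr 48 49 (.thr 18 3 (.thr 22 30 (.thr 58 53 (.dbl 54 6 62)))))) (.rp 18 (.thr 50 14 (.thr 48 49 (.thr 58 53 (.thr 54 62 (.thr 22 6 (.thr 20 23 (.dbl 60 40 57))))))) (.rp 16 (.thr 50 14 (.thr 48 49 (.thr 18 3 (.thr 22 30 (.thr 58 53 (.dbl 54 6 62)))))) .nd)))))))) (.rp 33 (.str 35 (.nv (.thr 41 44 (.thr 16 31 (.dbl 19 3 18))) (.nv (.thr 43 39 (.dbl 3 19 23)) (.rp 41 (.str 45 (.nv (.thr 16 31 (.dbl 19 3 18)) (.nv (.thr 43 39 (.dbl 3 19 23)) (.rp 43 (.str 40 (.nv (.thr 27 24 (.thr 31 16 (.dbl 19 3 23)))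 (.nv (.thr 14 50 (.thr 46 44 (.thr 60 20 (.dbl 62 30 61)))) (.nv (.thr 16 31 (.dbl 19 3 18)) (.rp 27 (.str 11 (.nv (.thr 50 14 (.thr 60 20 (.thr 54 57 (.dbl 62 58 61)))) (.nv (.thr 16 31 (.dbl 19 3 18)) .nd))) .nd))))) (.rp 19 (.thr 43 39 (.thr 23 3 (.thr 16 31 (.thr 24 27 (.dbl 20 22 28))))) (.rp 3 (.thr 31 16 (.thr 27 24 (.thr 23 19 (.dbl 39 7 43)))) .nd)))))) (.rp 19 (.thr 43 39 (.thr 3 23 (.thr 41 44 (.thr 57 9 (.dbl 60 22 54))))) (.rp 3 (.thr 39 43 (.thr 31 16 (.thr 27 24 (.dbl 23 7 19)))) .nd)))))) (.rp 31 (.thr 50 14 (.thr 48 49 (.thr 58 53 (.thr 54 62 (.thr 22 6 (.thr 20 23 (.dbl 60 40 57))))))) (.rp 28 (.thr 50 14 (.thr 48 49 (.thr 58 53 (.thr 54 62 (.thr 22 6 (.thr 20 23 (.dbl 60 40 57))))))) (.rp 27 (.thr 50 14 (.thr 16 31 (.thr 19 18 (.thr 48 49 (.thr 58 53 (.thr 54 62 (.dbl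 22 6 28))))))) (.rp 24 (.thr 50 14 (.thr 16 31 (.thr 19 18 (.thr 48 49 (.thr 58 53 (.thr 54 62 (.dbl 22 6 28))))))) (.rp 20 (.thr 50 14 (.thr 16 31 (.thr 19 18 (.thr 48 49 (.thr 58 53 (.thr 54 62 (.dbl 22 6 28))))))) (.rp 19 (.thr 50 14 (.thr 48 49 (.thr 58 53 (.thr 54 62 (.thr 22 6 (.thr 20 23 (.dbl 60 40 57))))))) (.rp 16 (.thr 50 14 (.thr 48 49 (.thr 58 53 (.thr 54 62 (.thr 22 6 (.thr 20 23 (.dbl 60 40 57))))))) .nd))))))))))))) (.rp 31 (.thr 50 14 (.thr 48 49 (.thr 58 53 (.thr 54 62 (.thr 22 6 (.thr 20 23 (.dbl 60 40 57))))))) (.rp 16 (.thr 50 14 (.thr 48 49 (.thr 58 53 (.thr 54 62 (.thr 22 6 (.thr 20 23 (.dbl 60 40 57))))))) .nd)))))))))) .nd)))))))) (.rp 4 (.str 53 (.nv (.thr 25 29 (.thr 37 5 (.thr 51 34 (.thr 55 59 (.thr 54 52 (.thr 57 60 (.dbl 49 13 61))))))) (.nv (.thr 48 58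 (.thr 51 34 (.thr 49 50 (.thr 57 61 (.thr 54 60 (.dbl 55 52 59)))))) (.nv (.thr 25 29 (.thr 48 58 (.thr 16 32 (.thr 19 18 (.thr 22 28 (.thr 23 20 (.dbl 31 26 27))))))) (.nv (.thr 25 29 (.thr 37 5 (.thr 48 58 (.thr 51 34 (.dbl 49 13 50))))) (.rp 48 (.thr 25 29 (.thr 37 5 (.thr 51 34 (.thr 55 59 (.thr 38 12 (.thr 52 54 (.thr 7 22 (.dbl 39 23 36)))))))) .nd)))))) .nd))))))))))))

theorem w102 : WinAt (9223372036856872961, 4398046543874) :=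
  chF (K := []) kn c102 9223372036856872961 4398046543874 42
    [] (by decide +kernel) (by decide +kernel)

/-- A certificate. -/
noncomputable def c103 : Ct := (.str 51 (.nv (.thr 34 17 (.thr 42 63 (.thr 38 46 (.thr 12 25 (.dbl 4 8 55))))) (.nv (.thr 17 34 (.thr 25 29 (.thr 38 12 (.thr 63 42 (.dbl 55 4 59))))) (.rp 63 (.str 5 (.nv (.thr 15 10 (.thr 37 53 (.thr 39 27 (.thr 38 36 (.thr 4 55 (.dbl 12 8 25)))))) (.nv (.thr 15 10 (.thr 17 34 (.thr 25 29 (.thr 12 38 (.thr 13 14 (.dbl 37 49 53)))))) (.nv (.thr 15 10 (.thr 17 34 (.thr 37 53 (.thr 39 27 (.thr 38 36 (.dbl 25 12 29)))))) (.rp 53 (.thr 17 34 (.thr 15 10 (.thr 27 39 (.thr 25 29 (.thr 26 24 (.thr 12 38 (.thr 13 14 (.dbl 37 48 49)))))))) (.rp 38 (.thr 17 34 (.thr 37 53 (.thr 15 10 (.thr 48 26 (.thr 25 29 (.dbl 49 13 50)))))) (.rp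 37 (.thr 17 34 (.thr 10 15 (.thr 25 29 (.thr 12 38 (.thr 8 4 (.thr 9 11 (.thr 41 57 (.thr 3 6 (.thr 19 35 (.dbl 22 28 60)))))))))) (.rp 25 (.thr 37 53 (.thr 15 10 (.thr 39 27 (.thr 38 36 (.thr 4 55 (.thr 12 8 (.thr 14 13 (.dbl 26 48 50)))))))) (.rp 15 (.thr 17 34 (.thr 37 53 (.thr 25 29 (.thr 12 38 (.thr 4 8 (.thr 7 6 (.thr 22 52 (.thr 20 23 (.thr 28 19 (.dbl 60 40 44)))))))))) (.rp 12 (.thr 17 34 (.thr 37 53 (.thr 15 10 (.thr 48 26 (.thr 49 50 (.dbl 25 13 29)))))) (.rp 10 (.thr 17 34 (.thr 37 53 (.thr 25 29 (.thr 12 38 (.thr 49 13 (.thr 48 50 (.thr 24 36 (.dbl 26 15 27)))))))) .nd))))))))))) (.rp 55 (.thr 17 34 (.thr 25 29 (.thr 12 38 (.thr 8 4 (.dbl 42 59 63))))) (.rp 42 (.str 5 (.nv (.thr 15 10 (.thr 37 53 (.thr 39 27 (.thr 38 36 (.thr 4 55 (.dbl 12 8 25)))))) (.nv (.thr 17 34 (.thr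 25 29 (.thr 37 53 (.thr 49 13 (.thr 48 50 (.dbl 15 10 26)))))) (.nv (.thr 15 10 (.thr 37 53 (.thr 39 27 (.thr 17 34 (.thr 38 36 (.dbl 25 12 29)))))) (.rp 53 (.thr 17 34 (.thr 15 10 (.thr 39 27 (.thr 25 29 (.thr 38 12 (.thr 37 36 (.thr 49 13 (.dbl 48 26 50)))))))) (.rp 38 (.thr 37 53 (.thr 15 10 (.thr 26 48 (.thr 27 39 (.thr 25 24 (.dbl 17 29 34)))))) (.rp 37 (.thr 17 34 (.thr 15 10 (.thr 39 27 (.thr 25 29 (.thr 38 12 (.thr 55 4 (.thr 23 7 (.thr 63 59 (.thr 43 3 (.dbl 47 31 35)))))))))) (.rp 26 (.thr 17 34 (.thr 37 53 (.thr 25 29 (.thr 38 12 (.thr 39 36 (.dbl 15 10 27)))))) (.rp 25 (.thr 37 53 (.thr 15 10 (.thr 26 48 (.thr 39 27 (.thr 38 36 (.thr 4 55 (.thr 14 50 (.dbl 12 8 13)))))))) (.rp 15 (.thr 17 34 (.thr 37 53 (.thr 25 29 (.thr 38 12 (.thr 36 39 (.thr 4 55 (.thr 7 6 (.dbl 52 20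 22)))))))) (.rp 10 (.thr 17 34 (.thr 37 53 (.thr 25 29 (.thr 38 12 (.thr 36 39 (.thr 4 55 (.thr 7 6 (.dbl 52 20 22)))))))) .nd))))))))))) (.rp 38 (.str 5 (.nv (.thr 15 10 (.thr 27 39 (.thr 37 53 (.thr 26 48 (.thr 25 24 (.dbl 17 29 34)))))) (.nv (.thr 15 10 (.thr 17 34 (.thr 25 29 (.thr 37 53 (.thr 13 49 (.thr 42 63 (.thr 8 59 (.dbl 12 4 14)))))))) (.nv (.thr 15 10 (.thr 39 27 (.thr 63 42 (.thr 47 31 (.thr 43 35 (.thr 23 3 (.dbl 55 7 59))))))) (.nv (.thr 17 34 (.thr 37 53 (.thr 25 29 (.thr 15 10 (.thr 27 39 (.dbl 26 24 48)))))) (.rp 34 (.thr 37 53 (.thr 15 10 (.thr 26 48 (.thr 27 39 (.thr 25 24 (.thr 13 49 (.thr 12 14 (.thr 8 4 (.dbl 42 59 63))))))))) (.rp 15 (.thr 53 37 (.thr 63 42 (.thr 48 58 (.thr 49 50 (.thr 57 61 (.thr 54 60 (.dbl 55 52 59))))))) (.rp 10 (.thr 53 37 (.thr 63 42 (.thr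 58 48 (.thr 55 59 (.thr 54 52 (.thr 60 57 (.dbl 62 50 61))))))) .nd)))))))) (.rp 34 (.str 5 (.nv (.thr 10 15 (.thr 53 37 (.thr 63 42 (.thr 48 58 (.thr 49 50 (.thr 55 59 (.thr 54 52 (.dbl 57 60 61)))))))) (.nv (.thr 15 10 (.thr 39 27 (.thr 63 42 (.thr 47 31 (.thr 43 35 (.thr 23 3 (.dbl 55 7 59))))))) (.nv (.thr 37 53 (.thr 15 10 (.thr 39 27 (.thr 38 36 (.thr 4 55 (.dbl 12 8 25)))))) (.rp 55 (.thr 37 53 (.thr 15 10 (.thr 48 26 (.thr 49 50 (.thr 25 13 (.thr 38 12 (.dbl 39 27 36))))))) (.rp 38 (.thr 37 53 (.thr 15 10 (.thr 26 48 (.thr 27 39 (.thr 25 24 (.thr 13 49 (.thr 12 14 (.thr 8 4 (.dbl 42 59 63))))))))) (.rp 15 (.thr 53 37 (.thr 63 42 (.thr 48 58 (.thr 49 50 (.thr 57 61 (.thr 54 60 (.dbl 55 52 59))))))) (.rp 10 (.thr 53 37 (.thr 63 42 (.thr 58 48 (.thr 55 59 (.thr 54 52 (.thr 60 57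 (.dbl 62 50 61))))))) .nd)))))))) (.rp 25 (.str 5 (.nv (.thr 10 15 (.thr 63 42 (.thr 53 37 (.thr 48 58 (.thr 49 50 (.thr 57 61 (.thr 54 60 (.dbl 55 52 59)))))))) (.nv (.thr 15 10 (.thr 27 39 (.thr 63 42 (.thr 59 55 (.thr 43 11 (.thr 23 3 (.dbl 31 19 47))))))) (.nv (.thr 15 10 (.thr 37 53 (.thr 39 27 (.thr 38 36 (.thr 42 63 (.dbl 34 17 46)))))) (.rp 63 (.thr 37 53 (.thr 15 10 (.thr 39 27 (.thr 38 36 (.thr 4 55 (.thr 12 8 (.thr 14 13 (.dbl 26 48 50)))))))) (.rp 58 (.thr 34 17 (.thr 37 53 (.thr 15 10 (.thr 39 27 (.thr 38 36 (.dbl 42 46 63)))))) (.rp 42 (.thr 37 53 (.thr 15 10 (.thr 26 48 (.thr 39 27 (.thr 38 36 (.thr 4 55 (.thr 14 50 (.dbl 12 8 13)))))))) (.rp 15 (.thr 53 37 (.thr 63 42 (.thr 48 58 (.thr 49 50 (.thr 57 61 (.thr 54 60 (.dbl 55 52 59))))))) (.rp 10 (.thr 53 37 (.thr 63 42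 (.thr 58 48 (.thr 59 55 (.thr 57 56 (.thr 60 54 (.dbl 61 49 62))))))) .nd))))))))) (.rp 17 (.thr 63 42 (.thr 55 59 (.thr 38 4 (.thr 25 12 (.str 49 (.nv (.thr 37 13 (.thr 39 36 (.thr 15 27 (.dbl 48 26 50)))) (.nv (.thr 37 13 (.thr 5 53 (.thr 15 10 (.dbl 39 27 36)))) (.nv (.thr 48 50 (.thr 53 58 (.thr 54 52 (.dbl 57 60 61)))) (.nv (.thr 48 50 (.thr 37 13 (.dbl 53 5 58))) (.rp 19 (.str 18 (.nv (.thr 37 13 (.thr 39 36 (.thr 15 27 (.dbl 48 26 50)))) (.nv (.thr 37 13 (.thr 5 53 (.thr 15 10 (.dbl 39 27 36)))) (.nv (.thr 48 50 (.thr 53 58 (.thr 54 52 (.dbl 57 60 61)))) (.nv (.thr 48 50 (.thr 37 13 (.dbl 53 5 58))) .nd))))) (.rp 18 (.str 19 (.nv (.thr 48 50 (.thr 37 13 (.dbl 53 5 58))) (.nv (.thr 22 28 (.thr 3 35 (.dbl 23 20 43))) .nd))) .nd))))))))))) (.rp 12 (.str 5 (.nv (.thr 15 10 (.thr 17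 34 (.thr 37 53 (.thr 48 26 (.thr 49 50 (.dbl 25 13 29)))))) (.nv (.thr 15 10 (.thr 27 39 (.thr 63 42 (.thr 59 55 (.thr 43 11 (.thr 23 3 (.dbl 31 19 47))))))) (.nv (.thr 17 34 (.thr 37 53 (.thr 25 29 (.thr 15 10 (.thr 27 39 (.dbl 26 24 48)))))) (.rp 26 (.thr 34 17 (.thr 37 53 (.thr 15 10 (.thr 39 27 (.thr 38 36 (.dbl 42 46 63)))))) (.rp 15 (.thr 37 53 (.thr 63 42 (.thr 55 59 (.thr 4 38 (.thr 7 6 (.thr 22 52 (.dbl 23 20 39))))))) (.rp 10 (.thr 37 53 (.thr 63 42 (.thr 55 59 (.thr 4 38 (.thr 7 6 (.thr 22 52 (.dbl 23 20 39))))))) .nd))))))) (.rp 4 (.str 3 (.nv (.thr 17 34 (.thr 19 35 (.thr 25 29 (.thr 22 28 (.thr 41 60 (.thr 9 57 (.dbl 12 6 38))))))) (.nv (.thr 63 42 (.thr 43 23 (.thr 59 55 (.thr 27 11 (.thr 39 15 (.dbl 35 19 47)))))) (.rp 35 (.thr 17 34 (.thr 25 29 (.thr 38 12 (.thr 63 42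 (.thr 23 43 (.thr 22 20 (.thr 54 6 (.dbl 60 41 57)))))))) (.rp 19 (.thr 17 34 (.thr 25 29 (.thr 38 12 (.thr 63 42 (.thr 23 43 (.thr 22 20 (.thr 54 6 (.dbl 60 41 57)))))))) .nd))))) .nd))))))))))))

theorem w103 : WinAt (2097153, 65538) :=
  chF (K := []) kn c103 2097153 65538 16
    [] (by decide +kernel) (by decide +kernel)

/-- A certificate. -/
noncomputable def c104 : Ct := (.str 37 (.nv (.thr 5 53 (.thr 15 10 (.thr 32 47 (.dbl 48 16 26)))) (.rp 58 (.thr 32 47 (.thr 5 53 (.thr 48 16 (.dbl 15 10 26)))) (.rp 53 (.str 33 (.nv (.thr 32 47 (.thr 34 35 (.thr 48 16 (.thr 18 3 (.thr 2 50 (.thr 22 62 (.dbl 26 15 30))))))) (.nv (.thr 41 45 (.thr 40 43 (.thr 60 20 (.thr 3 22 (.thr 48 18 (.dbl 32 16 47)))))) (.nv (.thr 32 47 (.thr 35 34 (.thr 41 45 (.thr 44 38 (.dbl 40 36 43))))) (.rp 58 (.str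 48 (.nv (.dbl 32 16 47) (.rp 47 (.thr 16 32 (.dbl 26 15 31)) (.rp 32 (.thr 3 18 (.thr 41 45 (.thr 40 43 (.dbl 60 20 22)))) (.rp 16 (.thr 41 45 (.thr 40 43 (.thr 60 20 (.dbl 3 18 22)))) .nd))))) (.rp 48 (.str 58 (.nv (.thr 26 10 (.thr 32 47 (.thr 34 35 (.thr 38 46 (.thr 50 14 (.thr 2 18 (.dbl 62 22 54))))))) (.nv (.thr 26 10 (.thr 41 45 (.thr 40 43 (.thr 56 11 (.thr 59 57 (.dbl 8 24 25)))))) (.nv (.thr 32 47 (.thr 35 34 (.thr 41 45 (.thr 44 38 (.dbl 40 36 43))))) (.rp 45 (.str 34 (.nv (.dbl 32 35 47) (.rp 47 (.thr 35 32 (.thr 26 10 (.thr 38 46 (.thr 44 41 (.thr 50 14 (.thr 2 18 (.dbl 62 22 54))))))) (.rp 35 (.thr 26 10 (.thr 38 46 (.thr 50 14 (.thr 2 18 (.dbl 62 22 54))))) (.rp 32 (.thr 26 10 (.thr 38 46 (.thr 50 14 (.thr 2 18 (.dbl 62 22 54))))) .nd))))) (.rp 43 (.thr 26 10 (.thr 32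 47 (.thr 35 34 (.thr 41 45 (.thr 56 11 (.thr 59 57 (.thr 8 25 (.thr 40 24 (.dbl 44 36 38))))))))) .nd)))))) (.rp 47 (.thr 41 45 (.thr 40 43 (.thr 60 20 (.thr 3 22 (.thr 48 18 (.thr 16 32 (.dbl 26 15 31))))))) (.rp 43 (.thr 32 47 (.thr 35 34 (.thr 48 16 (.thr 41 45 (.thr 44 38 (.thr 40 36 (.thr 60 20 (.dbl 3 18 22)))))))) (.rp 32 (.thr 41 45 (.thr 40 43 (.thr 60 20 (.thr 3 22 (.thr 48 18 (.thr 56 52 (.dbl 26 11 15))))))) .nd))))))))) (.rp 49 (.str 33 (.nv (.thr 32 47 (.thr 35 34 (.thr 41 45 (.thr 40 43 (.dbl 44 36 38))))) (.nv (.thr 32 47 (.thr 48 16 (.thr 15 26 (.dbl 5 10 53)))) (.rp 47 (.thr 5 53 (.thr 41 45 (.thr 40 43 (.thr 60 20 (.thr 3 22 (.thr 48 18 (.dbl 15 10 26))))))) (.rp 32 (.thr 5 53 (.thr 41 45 (.thr 40 43 (.thr 60 20 (.thr 3 22 (.thr 48 18 (.dbl 15 10 26))))))) (.rp 31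 (.thr 5 53 (.thr 32 47 (.thr 15 10 (.dbl 48 16 26)))) (.rp 15 (.thr 41 45 (.thr 40 43 (.thr 60 20 (.thr 3 22 (.thr 48 18 (.dbl 32 16 47)))))) .nd))))))) (.rp 48 (.str 33 (.nv (.thr 32 47 (.thr 35 34 (.thr 41 45 (.thr 44 38 (.dbl 40 36 43))))) (.rp 58 (.thr 53 5 (.thr 32 47 (.thr 35 34 (.thr 41 45 (.thr 40 43 (.dbl 44 36 38)))))) (.rp 53 (.str 58 (.nv (.thr 26 10 (.thr 32 47 (.thr 34 35 (.thr 38 46 (.thr 50 14 (.thr 2 18 (.dbl 62 22 54))))))) (.nv (.thr 26 10 (.thr 41 45 (.thr 40 43 (.thr 56 11 (.thr 59 57 (.dbl 8 24 25)))))) (.nv (.thr 32 47 (.thr 35 34 (.thr 41 45 (.thr 44 38 (.dbl 40 36 43))))) (.rp 45 (.str 34 (.nv (.dbl 32 35 47) (.rp 47 (.thr 35 32 (.thr 26 10 (.thr 38 46 (.thr 44 41 (.thr 50 14 (.thr 2 18 (.dbl 62 22 54))))))) (.rp 35 (.thr 26 10 (.thr 38 46 (.thr 50 14 (.thr 2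 18 (.dbl 62 22 54))))) (.rp 32 (.thr 26 10 (.thr 38 46 (.thr 50 14 (.thr 2 18 (.dbl 62 22 54))))) .nd))))) (.rp 43 (.thr 26 10 (.thr 32 47 (.thr 35 34 (.thr 41 45 (.thr 56 11 (.thr 59 57 (.thr 8 25 (.thr 40 24 (.dbl 44 36 38))))))))) .nd)))))) (.rp 47 (.thr 45 41 (.str 15 (.nv (.dbl 5 10 53) (.rp 58 (.thr 53 5 (.thr 60 30 (.thr 20 40 (.thr 22 23 (.thr 52 7 (.thr 4 36 (.dbl 55 38 54))))))) (.rp 53 (.str 58 (.nv (.dbl 10 5 26) (.rp 26 (.thr 5 10 (.thr 60 30 (.thr 20 40 (.thr 22 23 (.thr 62 2 (.thr 54 50 (.thr 7 52 (.dbl 6 4 38)))))))) (.rp 10 (.thr 60 30 (.thr 20 40 (.thr 22 23 (.thr 62 2 (.thr 54 50 (.thr 52 7 (.thr 4 36 (.dbl 38 6 55)))))))) (.rp 5 (.thr 26 10 (.thr 30 60 (.thr 22 18 (.thr 62 2 (.thr 50 54 (.dbl 14 38 46)))))) .nd))))) (.rp 10 (.thr 53 5 (.thr 60 30 (.thr 20 40 (.thr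 22 23 (.thr 52 7 (.thr 4 36 (.dbl 55 38 54))))))) (.rp 5 (.thr 60 30 (.thr 20 40 (.thr 22 23 (.thr 52 7 (.thr 4 36 (.thr 12 8 (.thr 13 14 (.thr 25 49 (.dbl 28 19 44))))))))) .nd))))))) (.rp 45 (.str 34 (.nv (.dbl 32 35 47) (.rp 58 (.thr 53 5 (.dbl 32 35 47)) (.rp 53 (.str 58 (.nv (.dbl 32 35 47) (.rp 47 (.thr 35 32 (.thr 26 10 (.thr 38 46 (.thr 44 41 (.thr 50 14 (.thr 2 18 (.dbl 62 22 54))))))) (.rp 35 (.thr 26 10 (.thr 38 46 (.thr 50 14 (.thr 2 18 (.dbl 62 22 54))))) (.rp 32 (.thr 26 10 (.thr 38 46 (.thr 50 14 (.thr 2 18 (.dbl 62 22 54))))) .nd))))) (.rp 47 (.thr 35 32 (.thr 53 5 (.thr 38 46 (.thr 44 41 (.thr 39 36 (.thr 55 4 (.thr 52 54 (.dbl 7 22 23)))))))) (.rp 35 (.thr 53 5 (.thr 38 46 (.thr 39 36 (.thr 55 4 (.thr 52 54 (.dbl 7 22 23)))))) (.rp 32 (.thr 53 5 (.thr 38 46 (.thr 39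 36 (.thr 55 4 (.thr 52 54 (.dbl 7 22 23)))))) .nd))))))) (.rp 44 (.thr 53 5 (.thr 32 47 (.thr 34 35 (.thr 38 46 (.thr 45 41 (.thr 39 36 (.thr 55 4 (.thr 52 54 (.dbl 7 22 23))))))))) (.rp 43 (.thr 53 5 (.thr 47 32 (.thr 45 41 (.thr 46 44 (.thr 38 34 (.thr 55 4 (.thr 52 54 (.thr 7 22 (.dbl 39 23 36))))))))) (.rp 41 (.thr 53 5 (.thr 32 47 (.thr 34 35 (.thr 38 46 (.thr 39 36 (.thr 55 4 (.thr 52 54 (.dbl 7 22 23)))))))) (.rp 40 (.thr 53 5 (.thr 32 47 (.thr 34 35 (.thr 38 46 (.thr 39 36 (.thr 55 4 (.thr 52 54 (.dbl 7 22 23)))))))) (.rp 38 (.thr 32 47 (.thr 41 45 (.thr 40 43 (.thr 60 20 (.thr 3 22 (.thr 44 36 (.thr 12 28 (.thr 6 9 (.thr 4 8 (.dbl 5 7 53)))))))))) (.rp 36 (.thr 32 47 (.thr 35 34 (.thr 41 45 (.thr 40 43 (.thr 60 20 (.thr 3 22 (.thr 51 19 (.thr 57 54 (.thr 25 9 (.dbl 38 12 44))))))))))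 (.rp 35 (.thr 53 5 (.thr 47 32 (.thr 45 41 (.thr 46 44 (.thr 38 34 (.thr 55 4 (.thr 52 54 (.thr 7 22 (.dbl 39 23 36))))))))) (.rp 34 (.thr 32 47 (.thr 41 45 (.thr 40 43 (.thr 60 20 (.thr 44 36 (.thr 12 28 (.thr 4 8 (.dbl 38 35 55)))))))) (.rp 32 (.str 55 (.nv (.thr 4 38 (.thr 41 45 (.thr 40 43 (.thr 20 60 (.thr 52 36 (.dbl 22 7 23)))))) (.nv (.thr 41 45 (.thr 40 43 (.thr 20 60 (.thr 53 5 (.thr 52 54 (.dbl 22 7 23)))))) (.nv (.thr 4 38 (.thr 8 12 (.thr 25 59 (.thr 41 45 (.thr 9 57 (.thr 10 11 (.dbl 5 15 53))))))) (.nv (.thr 53 5 (.thr 52 54 (.thr 38 4 (.thr 7 22 (.dbl 39 23 36))))) (.rp 53 (.str 58 (.nv (.thr 4 38 (.thr 41 45 (.thr 40 43 (.thr 20 60 (.thr 52 36 (.dbl 22 7 23)))))) (.nv (.thr 26 10 (.thr 41 45 (.thr 40 43 (.thr 56 11 (.thr 8 24 (.dbl 59 25 57)))))) (.nv (.thr 26 10 (.thr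 38 4 (.thr 50 14 (.thr 62 54 (.thr 2 22 (.dbl 34 18 46)))))) .nd)))) .nd)))))) (.rp 31 (.thr 53 5 (.thr 47 32 (.thr 45 41 (.thr 46 44 (.thr 38 34 (.thr 55 4 (.thr 52 54 (.thr 7 22 (.dbl 39 23 36))))))))) (.rp 15 (.thr 53 5 (.thr 47 32 (.thr 45 41 (.thr 46 44 (.thr 38 34 (.thr 55 4 (.thr 52 54 (.thr 7 22 (.dbl 39 23 36))))))))) .nd))))))))))))))))) (.rp 47 (.thr 5 53 (.thr 15 10 (.thr 48 26 (.str 33 (.nv (.thr 32 16 (.thr 35 34 (.thr 41 45 (.thr 44 38 (.dbl 40 36 43))))) (.nv (.thr 3 18 (.thr 7 11 (.thr 22 52 (.dbl 41 45 60)))) (.nv (.thr 41 45 (.thr 40 43 (.thr 60 20 (.dbl 3 18 22)))) (.rp 45 (.thr 3 18 (.thr 7 11 (.thr 22 52 (.thr 20 23 (.dbl 60 40 41))))) (.rp 41 (.thr 32 16 (.thr 34 35 (.thr 38 46 (.thr 4 55 (.thr 12 8 (.dbl 36 24 39)))))) (.rp 18 (.thr 41 45 (.thr 40 43 (.thr 60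 20 (.thr 52 56 (.dbl 22 3 7))))) .nd)))))))))) (.rp 33 (.str 49 (.nv (.thr 25 13 (.thr 8 59 (.thr 12 4 (.thr 32 47 (.thr 48 16 (.dbl 51 38 50)))))) (.nv (.thr 5 53 (.thr 32 47 (.thr 15 10 (.dbl 48 16 26)))) (.rp 48 (.thr 53 5 (.thr 57 61 (.thr 25 13 (.thr 9 41 (.thr 8 59 (.thr 4 12 (.thr 55 38 (.thr 52 54 (.thr 22 7 (.dbl 20 23 36)))))))))) (.rp 47 (.thr 5 53 (.thr 15 10 (.thr 48 26 (.thr 51 50 (.thr 39 27 (.thr 38 36 (.dbl 25 12 13))))))) (.rp 32 (.thr 5 53 (.thr 15 10 (.thr 48 26 (.thr 51 50 (.thr 39 27 (.thr 38 36 (.dbl 25 12 13))))))) (.rp 16 (.thr 5 53 (.thr 15 10 (.thr 48 26 (.thr 51 50 (.thr 39 27 (.thr 38 36 (.dbl 25 12 13))))))) (.rp 15 (.thr 25 13 (.thr 8 59 (.thr 12 4 (.thr 51 38 (.thr 48 50 (.dbl 32 16 47)))))) (.rp 5 (.thr 32 47 (.thr 48 16 (.thr 51 50 (.thr 15 26 (.thr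 39 27 (.thr 38 36 (.dbl 25 12 13))))))) .nd))))))))) (.rp 32 (.thr 5 53 (.thr 15 10 (.thr 48 26 (.str 33 (.nv (.thr 3 18 (.thr 7 11 (.thr 4 6 (.thr 38 55 (.thr 36 39 (.dbl 12 8 24)))))) (.nv (.thr 41 45 (.thr 40 43 (.thr 60 20 (.dbl 3 18 22)))) (.rp 41 (.str 56 (.nv (.thr 3 18 (.thr 7 11 (.dbl 52 22 60))) (.nv (.thr 52 60 (.thr 7 22 (.dbl 3 11 18))) (.rp 60 (.thr 3 18 (.thr 7 11 (.thr 4 6 (.thr 55 38 (.thr 23 39 (.dbl 22 20 52)))))) (.rp 52 (.thr 3 18 (.thr 7 11 (.thr 4 6 (.thr 8 12 (.thr 40 24 (.thr 20 60 (.thr 55 38 (.dbl 23 22 39)))))))) (.rp 30 (.thr 60 52 (.thr 40 20 (.thr 8 24 (.thr 4 12 (.thr 7 6 (.dbl 3 11 18)))))) (.rp 22 (.thr 60 52 (.thr 40 20 (.thr 8 24 (.thr 4 12 (.thr 7 6 (.dbl 3 11 18)))))) (.rp 18 (.thr 60 52 (.thr 40 20 (.thr 8 24 (.thr 25 59 (.thr 13 49 (.dbl 12 4 14))))))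 (.rp 11 (.thr 60 52 (.thr 40 20 (.thr 8 24 (.thr 25 59 (.thr 13 49 (.dbl 12 4 14)))))) (.rp 7 (.thr 60 52 (.thr 40 20 (.thr 8 24 (.thr 25 59 (.thr 13 49 (.dbl 12 4 14)))))) (.rp 3 (.thr 60 52 (.thr 40 20 (.thr 8 24 (.thr 25 59 (.thr 13 49 (.dbl 12 4 14)))))) .nd))))))))))) (.rp 22 (.thr 41 45 (.thr 40 43 (.thr 60 20 (.thr 56 52 (.thr 8 24 (.thr 4 12 (.thr 7 6 (.dbl 3 11 18)))))))) (.rp 18 (.thr 41 45 (.thr 40 43 (.thr 60 20 (.thr 52 56 (.dbl 22 3 7))))) (.rp 3 (.thr 45 41 (.thr 60 30 (.thr 56 52 (.thr 40 20 (.thr 8 24 (.thr 25 59 (.thr 13 49 (.dbl 12 4 14)))))))) .nd)))))))))) (.rp 26 (.str 33 (.nv (.thr 32 47 (.thr 34 35 (.thr 38 46 (.thr 4 55 (.thr 12 8 (.thr 48 16 (.dbl 36 24 39))))))) (.nv (.thr 32 47 (.thr 41 45 (.thr 40 43 (.thr 48 16 (.thr 60 20 (.dbl 3 18 22)))))) (.nv (.thr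 32 47 (.thr 35 34 (.thr 41 45 (.thr 44 38 (.dbl 40 36 43))))) (.rp 47 (.thr 5 53 (.thr 41 45 (.thr 40 43 (.thr 60 20 (.thr 3 22 (.thr 15 10 (.thr 7 11 (.thr 4 6 (.thr 8 12 (.thr 56 24 (.dbl 48 18 52))))))))))) (.rp 45 (.thr 32 47 (.thr 34 35 (.thr 48 16 (.thr 18 3 (.thr 2 50 (.thr 22 62 (.thr 52 7 (.thr 60 56 (.dbl 20 23 40))))))))) (.rp 44 (.thr 32 47 (.thr 34 35 (.thr 48 16 (.thr 38 46 (.thr 45 41 (.thr 4 55 (.thr 12 8 (.dbl 36 24 39)))))))) (.rp 43 (.thr 32 47 (.thr 35 34 (.thr 48 16 (.thr 41 45 (.thr 44 38 (.thr 40 36 (.thr 60 20 (.dbl 3 18 22)))))))) (.rp 35 (.thr 53 5 (.thr 47 32 (.thr 45 41 (.thr 46 44 (.thr 38 34 (.thr 55 4 (.thr 52 54 (.thr 7 22 (.dbl 39 23 36))))))))) (.rp 32 (.thr 5 53 (.thr 41 45 (.thr 40 43 (.thr 60 20 (.thr 3 22 (.thr 15 10 (.thr 7 11 (.thr 4 6 (.thr 38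 55 (.thr 44 35 (.dbl 12 8 28))))))))))) (.rp 31 (.thr 5 53 (.thr 32 47 (.thr 15 10 (.thr 35 34 (.thr 41 45 (.thr 40 43 (.dbl 44 36 38))))))) (.rp 15 (.thr 53 5 (.thr 47 32 (.thr 45 41 (.thr 46 44 (.thr 38 34 (.thr 55 4 (.thr 52 54 (.thr 7 22 (.dbl 39 23 36))))))))) .nd)))))))))))) (.rp 16 (.thr 5 53 (.thr 15 10 (.thr 48 26 (.str 33 (.nv (.thr 32 47 (.thr 34 35 (.thr 38 46 (.thr 4 55 (.thr 7 6 (.dbl 3 11 18)))))) (.nv (.thr 41 45 (.thr 40 43 (.thr 60 20 (.dbl 3 18 22)))) (.rp 45 (.thr 32 47 (.thr 34 35 (.thr 18 3 (.thr 50 2 (.thr 51 49 (.thr 39 27 (.dbl 38 36 46))))))) (.rp 43 (.thr 41 45 (.thr 32 47 (.thr 35 34 (.thr 3 18 (.thr 19 51 (.thr 7 11 (.dbl 22 52 60))))))) (.rp 19 (.thr 18 3 (.thr 41 45 (.thr 32 47 (.thr 35 34 (.thr 44 38 (.dbl 40 36 43)))))) (.rp 18 (.str 19 (.nv (.thr 32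 47 (.thr 35 34 (.thr 3 51 (.thr 7 11 (.thr 22 52 (.thr 20 23 (.dbl 60 40 41))))))) (.nv (.thr 32 47 (.thr 34 35 (.thr 38 46 (.thr 4 55 (.thr 12 8 (.thr 13 14 (.dbl 25 49 51))))))) (.nv (.thr 41 45 (.thr 40 43 (.thr 60 20 (.thr 52 56 (.dbl 22 3 7))))) (.rp 52 (.thr 32 47 (.thr 35 34 (.thr 41 45 (.thr 40 43 (.dbl 44 36 38))))) (.rp 30 (.str 22 (.nv (.thr 25 28 (.thr 8 59 (.thr 12 4 (.dbl 13 14 49)))) (.nv (.thr 41 45 (.thr 52 7 (.dbl 60 3 56))) .nd))) (.rp 22 (.str 30 (.nv (.dbl 45 41 60) (.rp 60 (.thr 32 47 (.thr 35 34 (.thr 41 45 (.thr 44 38 (.dbl 40 36 43))))) (.rp 45 (.thr 32 47 (.thr 35 34 (.thr 51 3 (.thr 39 27 (.thr 38 36 (.thr 4 55 (.dbl 12 8 25))))))) (.rp 41 (.thr 60 45 (.thr 32 47 (.thr 40 20 (.thr 56 52 (.thr 24 8 (.dbl 36 12 44)))))) .nd))))) .nd))))))) (.rp 3 (.thr 41 45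 (.thr 32 47 (.thr 35 34 (.thr 44 38 (.dbl 40 36 43))))) .nd))))))))))) (.rp 15 (.thr 47 32 (.str 38 (.nv (.thr 4 55 (.thr 5 53 (.thr 7 6 (.thr 36 39 (.dbl 52 20 22))))) (.nv (.thr 46 34 (.thr 44 45 (.thr 39 36 (.dbl 35 41 43)))) (.rp 49 (.str 33 (.nv (.thr 39 36 (.thr 35 43 (.dbl 41 44 45))) (.nv (.thr 45 41 (.dbl 46 34 44)) (.rp 45 (.thr 39 36 (.thr 55 4 (.thr 7 23 (.thr 53 5 (.dbl 52 22 54))))) (.rp 44 (.thr 41 45 (.thr 36 39 (.thr 40 43 (.thr 4 55 (.dbl 20 52 60))))) (.rp 41 (.thr 39 36 (.thr 55 4 (.thr 7 23 (.thr 53 5 (.dbl 52 22 54))))) .nd)))))) (.rp 39 (.thr 46 34 (.thr 44 45 (.thr 4 55 (.thr 12 8 (.thr 60 28 (.thr 40 20 (.dbl 41 35 43))))))) (.rp 36 (.thr 46 34 (.thr 44 45 (.thr 4 55 (.thr 12 8 (.thr 60 28 (.thr 40 20 (.dbl 41 35 43))))))) (.rp 33 (.str 49 (.nv (.thr 39 36 (.thr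 35 43 (.thr 44 41 (.dbl 46 34 45)))) (.nv (.thr 4 55 (.thr 12 8 (.dbl 25 13 51))) (.rp 35 (.thr 34 46 (.thr 4 55 (.thr 12 8 (.dbl 25 13 51)))) (.rp 34 (.str 35 (.nv (.thr 4 55 (.thr 8 12 (.dbl 25 13 59))) (.nv (.dbl 39 36 43) .nd))) .nd))))) .nd)))))))) (.rp 10 (.str 33 (.nv (.thr 32 47 (.thr 34 35 (.thr 48 16 (.thr 18 3 (.thr 2 50 (.thr 22 62 (.dbl 26 15 30))))))) (.nv (.thr 41 45 (.thr 40 43 (.thr 60 20 (.thr 3 22 (.thr 48 18 (.dbl 32 16 47)))))) (.nv (.thr 32 47 (.thr 35 34 (.thr 41 45 (.thr 44 38 (.dbl 40 36 43))))) (.rp 47 (.thr 41 45 (.thr 40 43 (.thr 60 20 (.thr 3 22 (.thr 48 18 (.thr 16 32 (.dbl 26 15 31))))))) (.rp 43 (.thr 32 47 (.thr 35 34 (.thr 48 16 (.thr 41 45 (.thr 44 38 (.thr 40 36 (.thr 60 20 (.dbl 3 18 22)))))))) (.rp 32 (.thr 41 45 (.thr 40 43 (.thr 60 20 (.thr 3 22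 (.thr 48 18 (.thr 56 52 (.dbl 26 11 15))))))) .nd))))))) (.rp 5 (.str 33 (.nv (.thr 32 47 (.thr 34 35 (.thr 48 16 (.thr 18 3 (.thr 2 50 (.thr 22 62 (.dbl 26 15 30))))))) (.nv (.thr 41 45 (.thr 40 43 (.thr 60 20 (.thr 3 22 (.thr 48 18 (.dbl 32 16 47)))))) (.nv (.thr 32 47 (.thr 35 34 (.thr 41 45 (.thr 44 38 (.dbl 40 36 43))))) (.rp 47 (.thr 41 45 (.thr 40 43 (.thr 60 20 (.thr 3 22 (.thr 48 18 (.thr 16 32 (.dbl 26 15 31))))))) (.rp 43 (.thr 32 47 (.thr 35 34 (.thr 48 16 (.thr 41 45 (.thr 44 38 (.thr 40 36 (.thr 60 20 (.dbl 3 18 22)))))))) (.rp 32 (.thr 41 45 (.thr 40 43 (.thr 60 20 (.thr 3 22 (.thr 48 18 (.thr 56 52 (.dbl 26 11 15))))))) (.rp 13 (.str 9 (.nv (.thr 32 47 (.thr 34 35 (.thr 48 16 (.thr 18 3 (.thr 2 50 (.thr 22 62 (.dbl 26 15 30))))))) (.nv (.thr 41 45 (.thr 25 57 (.thr 8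 59 (.thr 11 10 (.thr 40 43 (.dbl 56 24 26)))))) (.nv (.thr 32 47 (.thr 35 34 (.thr 41 45 (.thr 44 38 (.dbl 40 36 43))))) (.rp 61 (.thr 32 47 (.thr 34 35 (.thr 38 46 (.thr 4 55 (.thr 12 8 (.thr 3 6 (.dbl 48 16 18))))))) (.rp 43 (.thr 41 45 (.thr 32 47 (.thr 35 34 (.thr 25 57 (.thr 8 59 (.thr 12 4 (.dbl 38 44 51))))))) .nd)))))) (.rp 9 (.str 13 (.nv (.thr 41 45 (.thr 40 43 (.thr 60 20 (.thr 3 22 (.thr 48 18 (.dbl 32 16 47)))))) (.nv (.thr 25 49 (.thr 8 59 (.thr 12 4 (.thr 15 14 (.thr 26 48 (.thr 27 24 (.dbl 51 38 39))))))) (.nv (.thr 32 47 (.thr 35 34 (.thr 41 45 (.thr 44 38 (.dbl 40 36 43))))) .nd)))) .nd))))))))) .nd))))))))))))))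

theorem w104 : WinAt (4398048608257, 9223372036854906882) :=
  chF (K := []) kn c104 4398048608257 9223372036854906882 63
    [562958543486978] (by decide +kernel) (by decide +kernel)

/-- A certificate. -/
noncomputable def c105 : Ct := (.str 37 (.nv (.thr 53 5 (.thr 48 58 (.thr 26 15 (.dbl 16 31 32)))) (.nv (.thr 5 53 (.thr 15 10 (.thr 31 47 (.dbl 26 16 48)))) (.rp 58 (.thr 5 53 (.thr 15 10 (.thr 26 48 (.dbl 31 16 47)))) (.rp 53 (.str 4 (.nv (.thr 12 8 (.thr 29 46 (.thr 25 17 (.dbl 38 51 55)))) (.nv (.thr 12 8 (.thr 38 55 (.thr 36 39 (.thr 48 24 (.thr 16 32 (.dbl 26 15 31)))))) (.nv (.thr 38 55 (.thr 12 8 (.thr 25 51 (.dbl 29 17 46)))) (.rp 55 (.thr 12 8 (.thr 29 46 (.thr 25 17 (.thr 38 51 (.thr 36 39 (.thr 48 24 (.thr 16 32 (.dbl 26 15 31)))))))) (.rp 38 (.str 22 (.nv (.thr 52 7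 (.dbl 20 23 36)) (.rp 52 (.thr 20 23 (.thr 60 40 (.thr 12 8 (.thr 28 44 (.thr 25 19 (.dbl 29 17 46)))))) (.rp 46 (.str 34 (.nv (.thr 52 7 (.dbl 20 23 36)) (.rp 52 (.thr 23 20 (.thr 51 17 (.thr 3 43 (.thr 41 60 (.thr 33 45 (.dbl 35 19 32)))))) (.rp 36 (.thr 7 52 (.thr 23 20 (.thr 55 39 (.dbl 51 17 59)))) (.rp 23 (.thr 7 52 (.thr 5 6 (.thr 15 10 (.thr 31 47 (.dbl 26 16 48))))) (.rp 20 (.thr 7 52 (.thr 5 6 (.thr 15 10 (.thr 31 47 (.dbl 26 16 48))))) (.rp 7 (.thr 23 20 (.thr 51 17 (.thr 3 43 (.thr 41 60 (.thr 33 45 (.dbl 35 19 32)))))) .nd))))))) (.rp 36 (.thr 7 52 (.thr 6 5 (.thr 23 20 (.thr 3 43 (.dbl 12 8 9))))) (.rp 34 (.str 46 (.nv (.thr 20 23 (.dbl 52 7 36)) (.nv (.dbl 12 8 29) (.rp 50 (.str 2 (.nv (.thr 20 23 (.dbl 52 7 36)) (.nv (.dbl 12 8 29) (.rp 26 (.str 14 (.nv (.thr 10 6 (.thr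 20 23 (.dbl 52 7 36))) (.nv (.dbl 12 8 29) (.rp 10 (.str 58 (.nv (.thr 20 23 (.dbl 52 7 36)) (.nv (.dbl 12 8 29) .nd))) .nd)))) (.rp 14 (.str 26 (.nv (.thr 15 48 (.dbl 31 16 47)) (.nv (.dbl 12 8 29) .nd))) .nd))))) (.rp 2 (.str 50 (.nv (.thr 20 23 (.dbl 52 7 36)) (.nv (.dbl 12 8 29) .nd))) .nd))))) (.rp 23 (.thr 7 52 (.thr 5 6 (.thr 15 10 (.thr 31 47 (.dbl 26 16 48))))) (.rp 20 (.thr 7 52 (.thr 5 6 (.thr 15 10 (.thr 31 47 (.dbl 26 16 48))))) (.rp 7 (.thr 20 23 (.thr 36 52 (.thr 60 40 (.thr 12 8 (.thr 28 44 (.dbl 24 16 48)))))) .nd))))))))) (.rp 25 (.thr 38 55 (.thr 36 39 (.thr 52 20 (.thr 7 22 (.thr 5 6 (.thr 15 10 (.thr 31 47 (.dbl 26 16 48)))))))) (.rp 12 (.thr 38 55 (.thr 36 39 (.thr 52 20 (.thr 7 22 (.thr 5 6 (.thr 15 10 (.thr 31 47 (.dbl 26 16 48)))))))) (.rp 8 (.thr 38 55 (.thr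 36 39 (.thr 52 20 (.thr 7 22 (.thr 5 6 (.thr 15 10 (.thr 31 47 (.dbl 26 16 48)))))))) .nd))))))))) (.rp 48 (.str 3 (.nv (.thr 5 53 (.thr 15 10 (.thr 7 11 (.thr 4 6 (.thr 55 38 (.thr 39 23 (.dbl 51 27 59))))))) (.nv (.thr 5 53 (.thr 23 43 (.thr 22 20 (.thr 7 52 (.thr 4 6 (.dbl 55 38 39)))))) (.nv (.thr 5 53 (.thr 15 10 (.thr 23 43 (.thr 22 20 (.dbl 7 11 52))))) (.rp 53 (.thr 23 43 (.thr 22 20 (.thr 7 52 (.thr 15 11 (.thr 31 47 (.thr 27 19 (.dbl 39 51 55))))))) (.rp 23 (.thr 5 53 (.thr 15 10 (.thr 7 11 (.thr 4 6 (.thr 38 55 (.thr 36 39 (.dbl 52 20 22))))))) (.rp 22 (.thr 5 53 (.thr 23 43 (.thr 15 10 (.thr 7 11 (.thr 55 39 (.dbl 4 6 38)))))) (.rp 7 (.thr 5 53 (.thr 43 23 (.thr 15 10 (.thr 47 31 (.thr 39 35 (.thr 38 36 (.thr 55 4 (.dbl 51 27 59)))))))) (.rp 5 (.thr 23 43 (.thr 22 20 (.thr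 7 52 (.thr 15 11 (.thr 31 47 (.thr 39 55 (.dbl 27 19 51))))))) .nd))))))))) (.rp 31 (.str 38 (.nv (.thr 4 55 (.thr 5 53 (.thr 7 6 (.thr 36 39 (.dbl 52 20 22))))) (.nv (.thr 4 55 (.thr 12 8 (.thr 25 51 (.dbl 29 17 46)))) (.rp 55 (.thr 36 39 (.thr 53 5 (.thr 48 58 (.thr 12 24 (.thr 29 46 (.dbl 25 17 51)))))) (.rp 4 (.thr 36 39 (.thr 53 5 (.thr 48 58 (.thr 12 24 (.thr 29 46 (.dbl 25 17 51)))))) .nd))))) (.rp 26 (.str 22 (.nv (.thr 7 52 (.thr 23 20 (.thr 3 43 (.thr 15 11 (.dbl 5 10 53))))) (.nv (.thr 5 53 (.thr 7 52 (.thr 4 6 (.thr 12 8 (.thr 29 46 (.thr 25 17 (.dbl 38 51 55))))))) (.nv (.thr 7 52 (.thr 23 20 (.thr 55 39 (.thr 5 53 (.dbl 4 6 38))))) (.rp 58 (.str 10 (.nv (.dbl 5 15 53) (.rp 53 (.thr 23 20 (.thr 7 52 (.thr 15 5 (.dbl 3 11 43)))) (.rp 15 (.thr 20 23 (.thr 52 7 (.thr 4 36 (.thr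 53 5 (.dbl 55 38 54))))) (.rp 5 (.thr 20 23 (.thr 52 7 (.thr 4 36 (.thr 55 38 (.thr 54 53 (.thr 60 40 (.dbl 51 57 59))))))) .nd))))) (.rp 53 (.thr 7 52 (.thr 23 20 (.thr 55 39 (.thr 4 38 (.thr 6 5 (.thr 3 43 (.dbl 12 8 9))))))) (.rp 52 (.thr 20 23 (.thr 53 5 (.thr 58 48 (.thr 60 40 (.thr 61 62 (.thr 57 49 (.thr 51 54 (.dbl 59 55 56)))))))) (.rp 10 (.str 58 (.nv (.dbl 53 5 48) (.rp 53 (.thr 23 20 (.thr 7 52 (.thr 55 39 (.thr 4 38 (.thr 6 5 (.thr 3 43 (.dbl 12 8 9))))))) (.rp 48 (.thr 23 20 (.thr 7 52 (.thr 55 39 (.thr 5 53 (.dbl 4 6 38))))) (.rp 5 (.thr 20 23 (.thr 52 7 (.thr 48 53 (.dbl 60 40 56)))) .nd))))) (.rp 7 (.thr 20 23 (.thr 53 5 (.thr 58 48 (.thr 60 40 (.thr 62 61 (.thr 54 50 (.thr 55 52 (.dbl 38 4 6)))))))) (.rp 5 (.thr 7 52 (.thr 23 20 (.thr 39 55 (.thr 3 43 (.thr 15 11 (.thr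 31 47 (.dbl 27 19 51))))))) (.rp 4 (.thr 52 7 (.thr 20 23 (.thr 60 40 (.thr 48 56 (.dbl 53 5 58))))) .nd))))))))))) (.rp 16 (.str 17 (.nv (.thr 5 53 (.thr 15 10 (.thr 51 34 (.thr 39 27 (.thr 38 36 (.dbl 55 4 59)))))) (.nv (.thr 5 53 (.thr 15 10 (.thr 25 29 (.thr 26 48 (.thr 27 24 (.dbl 51 34 39)))))) (.nv (.thr 25 29 (.thr 51 34 (.thr 38 12 (.dbl 55 4 59)))) (.rp 51 (.thr 29 25 (.thr 53 5 (.thr 48 58 (.thr 12 46 (.thr 36 24 (.thr 38 39 (.dbl 4 8 55))))))) (.rp 34 (.thr 25 29 (.thr 13 49 (.thr 5 53 (.thr 15 10 (.thr 12 14 (.thr 4 8 (.dbl 38 51 55))))))) .nd)))))) (.rp 15 (.str 38 (.nv (.thr 4 55 (.thr 5 53 (.thr 7 6 (.thr 52 22 (.dbl 36 20 39))))) (.nv (.thr 4 55 (.thr 12 8 (.thr 29 46 (.dbl 25 17 51)))) (.rp 55 (.thr 36 39 (.thr 53 5 (.thr 48 58 (.thr 12 24 (.thr 29 46 (.dbl 25 17 51))))))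 (.rp 4 (.thr 36 39 (.thr 53 5 (.thr 48 58 (.thr 12 24 (.thr 29 46 (.dbl 25 17 51)))))) .nd))))) (.rp 5 (.str 4 (.nv (.thr 12 8 (.thr 38 55 (.thr 36 39 (.thr 48 24 (.thr 16 32 (.dbl 26 15 31)))))) (.nv (.thr 38 55 (.thr 12 8 (.thr 25 51 (.dbl 29 17 46)))) (.rp 55 (.thr 12 8 (.thr 29 46 (.thr 25 17 (.thr 38 51 (.thr 36 39 (.thr 48 24 (.thr 16 32 (.dbl 26 15 31)))))))) (.rp 38 (.thr 12 8 (.str 13 (.nv (.thr 15 14 (.thr 31 47 (.dbl 26 16 48))) (.nv (.thr 25 49 (.dbl 29 17 46)) (.rp 46 (.str 34 (.nv (.thr 15 14 (.thr 26 48 (.dbl 31 16 47))) (.nv (.thr 25 49 (.dbl 17 29 51)) (.rp 25 (.str 59 (.nv (.thr 15 14 (.thr 26 48 (.dbl 31 16 47))) (.nv (.dbl 51 17 55) .nd))) .nd)))) (.rp 34 (.thr 46 29 (.thr 15 14 (.thr 31 47 (.dbl 26 16 48)))) (.rp 25 (.str 59 (.nv (.thr 46 29 (.thr 15 14 (.thr 26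 48 (.dbl 31 16 47)))) (.nv (.thr 15 14 (.thr 31 47 (.dbl 26 16 48))) (.rp 48 (.thr 51 55 (.thr 15 14 (.thr 31 47 (.thr 27 39 (.thr 43 11 (.dbl 23 3 19)))))) (.rp 47 (.thr 51 55 (.thr 15 14 (.thr 27 39 (.thr 43 11 (.thr 23 3 (.thr 31 19 (.dbl 26 16 48))))))) (.rp 46 (.str 34 (.nv (.thr 15 14 (.thr 26 48 (.dbl 31 16 47))) (.nv (.dbl 51 17 55) .nd))) (.rp 31 (.thr 51 55 (.thr 15 14 (.thr 48 26 (.thr 50 49 (.thr 58 53 (.thr 57 56 (.dbl 54 60 62))))))) (.rp 26 (.thr 51 55 (.thr 29 46 (.thr 34 17 (.thr 61 45 (.thr 60 62 (.thr 20 40 (.thr 52 36 (.dbl 22 7 23)))))))) (.rp 16 (.thr 51 55 (.thr 15 14 (.thr 31 47 (.thr 27 39 (.thr 43 11 (.dbl 23 3 19)))))) (.rp 15 (.thr 51 55 (.thr 29 46 (.thr 34 17 (.thr 61 45 (.thr 60 62 (.thr 20 40 (.thr 52 36 (.dbl 22 7 23)))))))) (.rp 14 (.thr 51 55 (.str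 48 (.nv (.thr 50 49 (.thr 58 53 (.thr 54 62 (.dbl 57 56 60)))) (.nv (.thr 26 15 (.dbl 16 31 32)) (.rp 46 (.thr 34 17 (.thr 16 32 (.dbl 26 15 31))) (.rp 34 (.thr 46 29 (.thr 16 32 (.dbl 26 15 31))) .nd)))))) .nd))))))))))) .nd))))))) (.rp 25 (.thr 38 55 (.thr 36 39 (.thr 20 52 (.thr 40 60 (.thr 32 44 (.thr 48 16 (.dbl 12 8 24))))))) (.rp 13 (.str 9 (.nv (.thr 12 8 (.thr 3 6 (.thr 23 43 (.thr 20 22 (.thr 36 52 (.dbl 38 39 55)))))) (.nv (.thr 38 55 (.thr 12 8 (.thr 25 51 (.dbl 29 17 46)))) (.rp 55 (.thr 12 8 (.thr 29 46 (.thr 25 17 (.thr 41 57 (.thr 3 6 (.thr 23 43 (.dbl 22 20 60))))))) (.rp 38 (.thr 12 8 (.thr 3 6 (.thr 23 43 (.thr 22 20 (.thr 41 60 (.thr 25 57 (.dbl 29 17 46))))))) (.rp 25 (.thr 38 55 (.thr 36 39 (.thr 20 52 (.thr 23 22 (.thr 3 43 (.dbl 12 6 8)))))) (.rp 12 (.thr 38 55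 (.thr 36 39 (.thr 20 52 (.thr 40 60 (.thr 44 32 (.thr 35 41 (.thr 23 22 (.thr 3 43 (.thr 19 51 (.thr 31 27 (.thr 15 47 (.dbl 26 16 48)))))))))))) (.rp 8 (.thr 38 55 (.thr 36 39 (.thr 20 52 (.thr 23 22 (.thr 3 43 (.thr 12 6 (.thr 29 46 (.dbl 25 17 51)))))))) .nd)))))))) (.rp 12 (.thr 38 55 (.thr 36 39 (.thr 20 52 (.thr 23 22 (.thr 40 60 (.thr 44 32 (.thr 3 43 (.thr 35 41 (.thr 19 51 (.thr 31 27 (.thr 15 47 (.dbl 26 16 48)))))))))))) (.rp 9 (.str 13 (.nv (.thr 12 8 (.thr 15 14 (.thr 26 48 (.dbl 31 16 47)))) (.nv (.thr 25 49 (.thr 17 29 (.thr 51 34 (.dbl 55 38 59)))) (.nv (.thr 38 55 (.thr 12 8 (.dbl 25 49 51))) (.rp 25 (.thr 55 38 (.thr 12 8 (.thr 59 51 (.thr 15 14 (.thr 31 47 (.dbl 26 16 48)))))) .nd))))) (.rp 8 (.thr 38 55 (.thr 36 39 (.thr 20 52 (.thr 40 60 (.thr 32 44 (.thr 48 16 (.thr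 12 24 (.thr 29 46 (.dbl 25 17 51))))))))) .nd)))))))))) .nd)))))))))))

theorem w105 : WinAt (9223372036856872961, 4398046773250) :=
  chF (K := []) kn c105 9223372036856872961 4398046773250 42
    [] (by decide +kernel) (by decide +kernel)

end Pool.Agent.TTT.B43
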