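import Pool.Agent.TTT.Q0
import Pool.Agent.TTT.Q1
import Pool.Agent.TTT.Q2
import Pool.Agent.TTT.Q3
import Pool.Agent.TTT.Q4
import Pool.Agent.TTT.Q5

/-!
Certified forced wins after the first three cells on the 4 x 4 x 4 board.
-/

set_option autoImplicit false
set_option maxRecDepth 1000000
set_option linter.all false

namespace Pool.Agent.TTT.B43

/-- A certificate. -/
noncomputable def r0 : Rt := (.rp 63 .ext (.rp 62 (.thr 20 23 .ext) (.rp 61 (.thr 20 23 .ext) (.rp 60 (.thr 20 23 .ext) (.rp 59 .ext (.rp 58 (.thr 20 23 .ext) (.rp 57 (.thr 20 23 .ext) (.rp 56 (.thr 20 23 .ext) (.rp 55 .ext (.rp 54 .ext (.rp 53 (.thr 20 23 .ext) (.rp 52 .ext (.rp 51 .ext (.rp 50 (.thr 20 23 .ext) (.rp 49 (.thr 20 23 .ext) (.rp 48 .ext (.rp 47 .ext (.rp 46 (.thr 20 23 .ext) (.rp 45 (.thr 20 23 .ext) (.rp 44 (.thr 20 23 .ext) (.rp 43 .ext (.rp 42 (.thr 20 23 .ext) (.rp 41 .ext (.rp 40 (.thr 20 23 .ext) (.rp 39 .ext (.rp 38 .ext (.rp 37 .ext (.rp 36 .ext (.rp 35 (.thr 20 23 .ext) (.rp 34 .ext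 (.rp 33 (.thr 20 23 .ext) (.rp 32 (.thr 20 23 .ext) (.rp 31 .ext (.rp 30 .ext (.rp 29 (.thr 20 23 .ext) (.rp 28 .ext (.rp 27 .ext (.rp 26 .ext (.rp 25 .ext (.rp 24 .ext (.rp 23 .ext (.rp 20 .ext (.rp 19 .ext (.rp 18 .ext (.rp 17 .ext (.rp 16 .ext (.rp 15 .ext (.rp 14 (.thr 20 23 .ext) (.rp 13 (.thr 20 23 .ext) (.rp 12 .ext (.rp 11 (.thr 20 23 .ext) (.rp 10 .ext (.rp 9 (.thr 20 23 .ext) (.rp 8 (.thr 20 23 .ext) (.rp 7 .ext (.rp 6 .ext (.rp 5 .ext (.rp 4 .ext (.rp 3 .ext (.rp 2 (.thr 20 23 .ext) (.rp 1 .ext .nd)))))))))))))))))))))))))))))))))))))))))))))))))))))))))))))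

theorem f0 : FR (cellsN 64) (Won lines) (bs 6291456) (bs 1) :=
  chunkR_sound bok full_eq (K := [(6291456, 3), (6291456, 9), (6291456, 17), (6291456, 33), (6291456, 65), (6291456, 129), (6291456, 1025), (6291456, 4097), (6291456, 32769), (6291456, 65537), (6291456, 131073), (6291456, 262145), (6291456, 524289), (6291456, 1048577), (6291456, 8388609), (6291456, 16777217), (6291456, 33554433), (6291456, 67108865), (6291456, 134217729), (6291456, 268435457), (6291456, 1073741825), (6291456, 2147483649), (6291456, 17179869185), (6291456, 68719476737), (6291456, 137438953473), (6291456, 274877906945), (6291456, 549755813889), (6291456, 2199023255553), (6291456, 8796093022209), (6291456, 140737488355329), (6291456, 281474976710657), (6291456, 2251799813685249), (6291456, 4503599627370497), (6291456, 18014398509481985), (6291456, 36028797018963969), (6291456, 576460752303423489), (6291456, 9223372036854775809), (7340032, 8388613), (7340032, 8388865), (7340032, 8389121), (7340032,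 8390657), (7340032, 8396801), (7340032, 8404993), (7340032, 545259521), (7340032, 4303355905), (7340032, 8598323201), (7340032, 34368126977), (7340032, 1099520016385), (7340032, 4398054899713), (7340032, 17592194433025), (7340032, 35184380477441), (7340032, 70368752566273), (7340032, 562949961809921), (7340032, 1125899915231233), (7340032, 9007199263129601), (7340032, 72057594046316545), (7340032, 144115188084244481), (7340032, 288230376160100353), (7340032, 1152921504615235585), (7340032, 2305843009222082561), (7340032, 4611686018435776513)]) (kc w3 (kc w8 (kc w12 (kc w13 (kc w14 (kc w15 (kc w19 (kc w24 (kc w27 (kc w31 (kc w32 (kc w33 (kc w34 (kc w35 (kc w41 (kc w42 (kc w43 (kc w48 (kc w49 (kc w50 (kc w52 (kc w53 (kc w57 (kc w59 (kc w60 (kc w61 (kc w62 (kc w64 (kc w66 (kc w70 (kc w73 (kc w76 (kc w77 (kc w79 (kc w80 (kc w84 (kc w88 (kc w4 (kc w17 (kc w18 (kc w20 (kc w25 (kc w26 (kc w51 (kc w55 (kc w56 (kc w58 (kc w63 (kc w65 (kc w67 (kc w68 (kc w69 (kc w74 (kc w75 (kc w78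 (kc w81 (kc w82 (kc w83 (kc w85 (kc w86 (kc w87 kn))))))))))))))))))))))))))))))))))))))))))))))))))))))))))))) r0 6291456 1 [] (by decide +kernel) (by decide +kernel)

end Pool.Agent.TTT.B43
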