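import Pool.Agent.TTT.B43

/-!
Certified forced wins in positions of the 4 x 4 x 4 board.
-/

set_option autoImplicit false
set_option maxRecDepth 1000000
set_option linter.all false

namespace Pool.Agent.TTT.B43

/-- A certificate. -/
noncomputable def c204 : Ct := (.str 25 (.nv (.thr 17 29 (.thr 49 33 (.thr 13 37 (.dbl 9 5 57)))) (.rp 57 (.thr 17 29 (.thr 49 33 (.thr 13 37 (.thr 9 5 (.str 22 (.nv (.thr 3 60 (.thr 12 6 (.thr 23 20 (.thr 51 38 (.thr 0 34 (.dbl 63 42 43)))))) (.nv (.thr 3 60 (.thr 12 6 (.thr 51 38 (.dbl 19 28 35)))) (.nv (.thr 23 20 (.thr 19 28 (.thr 31 27 (.dbl 16 18 26)))) (.rp 58 (.str 56 (.nv (.thr 3 60 (.thr 12 6 (.thr 19 28 (.dbl 51 35 38)))) (.nv (.thr 3 60 (.thr 11 26 (.thr 12 6 (.dbl 15 7 14)))) (.nv (.thr 26 11 (.thr 18 30 (.dbl 16 19 31))) .nd)))) (.rp 56 (.str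 58 (.nv (.thr 3 60 (.thr 12 6 (.thr 19 28 (.dbl 51 35 38)))) (.nv (.thr 3 60 (.thr 12 6 (.thr 51 38 (.thr 48 50 (.thr 63 53 (.dbl 0 34 42)))))) (.nv (.thr 23 20 (.thr 19 28 (.thr 31 27 (.dbl 16 18 26)))) .nd)))) .nd)))))))))) (.rp 49 (.thr 57 9 (.str 63 (.nv (.thr 42 0 (.thr 43 40 (.thr 3 23 (.thr 60 22 (.thr 51 54 (.thr 35 19 (.dbl 38 12 44))))))) (.nv (.thr 29 17 (.thr 12 46 (.thr 38 51 (.thr 4 55 (.dbl 0 8 42))))) (.rp 51 (.thr 29 17 (.thr 12 46 (.thr 0 42 (.thr 4 8 (.thr 38 55 (.thr 44 35 (.thr 60 28 (.thr 20 40 (.dbl 22 3 23))))))))) (.rp 42 (.thr 29 17 (.thr 12 46 (.thr 38 51 (.thr 4 55 (.thr 0 8 (.thr 44 35 (.thr 60 28 (.thr 20 40 (.dbl 22 3 23))))))))) (.rp 38 (.thr 29 17 (.thr 12 46 (.thr 42 0 (.thr 43 40 (.thr 3 23 (.thr 60 22 (.thr 28 44 (.thr 31 30 (.thr 47 15 (.thr 35 39 (.dbl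 51 19 54))))))))))) (.rp 12 (.thr 17 29 (.thr 0 42 (.thr 51 34 (.thr 60 54 (.thr 20 40 (.dbl 22 3 23)))))) (.rp 0 (.thr 29 17 (.thr 12 46 (.thr 51 38 (.thr 60 54 (.thr 28 44 (.dbl 22 3 19)))))) .nd))))))))) (.rp 45 (.thr 9 57 (.thr 17 29 (.thr 13 5 (.dbl 49 33 37)))) (.rp 37 (.str 51 (.nv (.thr 17 29 (.thr 33 49 (.thr 34 0 (.thr 35 32 (.dbl 38 12 44))))) (.nv (.thr 17 29 (.thr 0 34 (.thr 57 9 (.thr 60 54 (.thr 40 20 (.dbl 42 43 63)))))) (.nv (.thr 38 12 (.thr 35 44 (.thr 3 19 (.thr 57 9 (.dbl 60 22 54))))) (.rp 57 (.thr 17 29 (.thr 34 0 (.thr 38 12 (.thr 35 44 (.dbl 33 32 49))))) .nd))))) (.rp 33 (.str 51 (.nv (.thr 9 57 (.thr 5 13 (.thr 12 38 (.thr 6 3 (.thr 4 7 (.thr 0 8 (.dbl 17 29 34))))))) (.nv (.thr 17 29 (.thr 0 34 (.thr 57 9 (.thr 60 54 (.thr 40 20 (.dbl 42 43 63)))))) (.nv (.thr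 12 38 (.thr 57 9 (.thr 60 54 (.thr 28 44 (.dbl 22 3 19))))) (.rp 57 (.thr 17 29 (.thr 0 34 (.thr 63 42 (.thr 38 12 (.thr 35 44 (.thr 3 19 (.thr 23 43 (.dbl 22 20 60)))))))) (.rp 9 (.thr 17 29 (.thr 0 34 (.thr 63 42 (.thr 38 12 (.thr 35 44 (.thr 3 19 (.thr 23 43 (.dbl 22 20 60)))))))) .nd)))))) (.rp 29 (.thr 9 57 (.thr 13 5 (.thr 49 37 (.thr 17 33 (.str 22 (.nv (.thr 3 60 (.thr 12 6 (.thr 23 20 (.thr 51 38 (.thr 0 34 (.dbl 63 42 43)))))) (.nv (.thr 3 60 (.thr 12 6 (.thr 51 38 (.dbl 19 28 35)))) (.nv (.thr 23 20 (.thr 19 28 (.thr 31 27 (.dbl 16 18 26)))) (.rp 58 (.str 56 (.nv (.thr 3 60 (.thr 12 6 (.thr 19 28 (.dbl 51 35 38)))) (.nv (.thr 3 60 (.thr 11 26 (.thr 12 6 (.dbl 15 7 14)))) (.nv (.thr 26 11 (.thr 18 30 (.dbl 16 19 31))) .nd)))) (.rp 56 (.str 58 (.nv (.thr 3 60 (.thr 12 6 (.thr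 19 28 (.dbl 51 35 38)))) (.nv (.thr 3 60 (.thr 12 6 (.thr 51 38 (.thr 48 50 (.thr 63 53 (.dbl 0 34 42)))))) (.nv (.thr 23 20 (.thr 19 28 (.thr 31 27 (.dbl 16 18 26)))) .nd)))) .nd)))))))))) (.rp 17 (.str 3 (.nv (.thr 9 57 (.thr 5 13 (.thr 6 12 (.thr 4 7 (.thr 38 55 (.dbl 22 54 60)))))) (.nv (.thr 57 9 (.thr 60 22 (.thr 51 54 (.thr 38 12 (.dbl 35 19 44))))) (.rp 60 (.thr 9 57 (.thr 13 5 (.thr 12 6 (.thr 51 38 (.thr 19 35 (.thr 22 28 (.thr 23 20 (.thr 27 31 (.dbl 15 14 39))))))))) (.rp 57 (.thr 22 60 (.thr 19 28 (.thr 51 35 (.thr 23 20 (.thr 27 31 (.thr 15 39 (.thr 11 7 (.dbl 26 24 56)))))))) (.rp 54 (.thr 9 57 (.thr 12 6 (.thr 51 38 (.thr 22 60 (.dbl 19 28 35))))) (.rp 51 (.thr 9 57 (.thr 5 13 (.thr 6 12 (.thr 7 4 (.thr 22 60 (.thr 54 38 (.dbl 37 52 53))))))) (.rp 38 (.thr 9 57 (.thr 5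 13 (.thr 6 12 (.thr 7 4 (.thr 22 60 (.dbl 37 52 53)))))) (.rp 22 (.thr 9 57 (.thr 13 5 (.thr 12 6 (.thr 14 15 (.thr 38 51 (.thr 44 35 (.thr 60 28 (.thr 26 50 (.thr 56 11 (.thr 48 52 (.dbl 24 27 36))))))))))) (.rp 12 (.thr 9 57 (.thr 5 13 (.thr 22 60 (.thr 23 20 (.thr 63 43 (.thr 0 42 (.thr 15 10 (.thr 31 47 (.dbl 19 27 28))))))))) (.rp 9 (.thr 22 60 (.thr 19 28 (.thr 51 35 (.thr 23 20 (.thr 27 31 (.thr 15 39 (.thr 11 7 (.dbl 26 24 56)))))))) .nd))))))))))) (.rp 13 (.thr 57 9 (.thr 29 17 (.str 63 (.nv (.thr 12 46 (.thr 51 38 (.thr 60 54 (.thr 22 3 (.dbl 28 19 44))))) (.nv (.thr 12 46 (.thr 38 51 (.thr 4 55 (.dbl 0 8 42)))) (.rp 51 (.thr 12 46 (.thr 0 42 (.thr 4 8 (.thr 38 55 (.thr 44 35 (.thr 60 28 (.thr 20 40 (.dbl 22 3 23)))))))) (.rp 46 (.thr 42 0 (.thr 43 40 (.thr 3 23 (.thr 60 22 (.thr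 51 54 (.thr 35 19 (.dbl 38 12 44))))))) (.rp 42 (.thr 12 46 (.thr 38 51 (.thr 4 55 (.thr 0 8 (.thr 44 35 (.thr 60 28 (.thr 20 40 (.dbl 22 3 23)))))))) (.rp 38 (.thr 12 46 (.thr 42 0 (.thr 43 40 (.thr 3 23 (.thr 60 22 (.thr 28 44 (.thr 31 30 (.thr 47 15 (.thr 35 39 (.dbl 51 19 54)))))))))) (.rp 34 (.thr 12 46 (.thr 38 51 (.thr 0 42 (.dbl 4 8 55)))) (.rp 12 (.thr 42 0 (.thr 43 40 (.thr 3 23 (.thr 60 22 (.thr 51 54 (.thr 35 19 (.thr 47 39 (.thr 38 44 (.thr 32 37 (.dbl 34 33 46)))))))))) .nd))))))))))) (.rp 9 (.str 19 (.nv (.thr 17 29 (.thr 33 49 (.thr 18 16 (.thr 3 48 (.dbl 22 28 60))))) (.nv (.thr 28 22 (.thr 29 17 (.thr 31 30 (.thr 26 16 (.dbl 27 23 24))))) (.rp 29 (.thr 22 28 (.thr 23 20 (.thr 31 27 (.thr 16 26 (.thr 18 17 (.thr 3 60 (.thr 48 33 (.thr 0 32 (.dbl 63 42 43))))))))) (.rp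 28 (.thr 17 29 (.thr 33 49 (.thr 18 16 (.thr 3 48 (.thr 51 35 (.thr 60 22 (.thr 0 34 (.thr 42 63 (.dbl 40 20 43))))))))) (.rp 22 (.thr 17 29 (.thr 33 49 (.thr 45 37 (.thr 18 16 (.thr 3 48 (.thr 51 35 (.thr 0 34 (.thr 42 63 (.thr 40 43 (.thr 60 20 (.thr 15 30 (.thr 12 38 (.thr 8 4 (.thr 24 56 (.dbl 27 26 39))))))))))))))) (.rp 17 (.thr 22 28 (.thr 23 20 (.thr 27 31 (.thr 3 60 (.thr 51 35 (.thr 15 39 (.thr 11 7 (.dbl 26 24 56)))))))) (.rp 16 (.thr 17 29 (.thr 22 28 (.thr 3 60 (.thr 51 35 (.thr 0 34 (.thr 63 42 (.dbl 23 20 43))))))) .nd)))))))) (.rp 5 (.str 19 (.nv (.thr 9 57 (.thr 22 28 (.thr 3 60 (.thr 12 6 (.dbl 51 35 38))))) (.nv (.thr 28 22 (.thr 29 17 (.thr 31 30 (.thr 26 16 (.dbl 27 23 24))))) (.rp 62 (.thr 17 29 (.thr 33 49 (.thr 18 16 (.thr 3 48 (.dbl 22 28 60))))) (.rp 28 (.thr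 17 29 (.thr 57 9 (.thr 33 49 (.thr 18 16 (.thr 3 48 (.thr 51 35 (.dbl 60 22 54))))))) (.rp 22 (.thr 17 29 (.thr 33 49 (.thr 18 16 (.thr 3 48 (.thr 51 35 (.thr 12 38 (.dbl 9 6 57))))))) .nd)))))) .nd))))))))))))

theorem w204 : WinAt (2199025352706, 2882303761517117444) :=
  chF (K := []) kn c204 2199025352706 2882303761517117444 61
    [] (by decide +kernel) (by decide +kernel)

/-- A certificate. -/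
noncomputable def c205 : Ct := (.str 25 (.nv (.thr 17 29 (.thr 9 57 (.thr 1 61 (.thr 13 5 (.dbl 49 33 37))))) (.nv (.thr 29 17 (.thr 57 9 (.thr 61 1 (.thr 49 53 (.dbl 13 37 45))))) (.rp 61 (.str 63 (.nv (.thr 9 57 (.thr 29 17 (.thr 12 46 (.thr 3 6 (.thr 42 0 (.dbl 43 23 40)))))) (.nv (.thr 42 0 (.thr 8 59 (.thr 40 43 (.thr 56 24 (.thr 11 26 (.dbl 9 10 57)))))) (.nv (.thr 29 17 (.thr 12 46 (.thr 51 38 (.thr 59 55 (.dbl 42 0 8))))) (.rp 42 (.thr 29 17 (.thr 9 57 (.thr 12 46 (.thr 3 6 (.thr 23 43 (.thr 22 20 (.thr 19 28 (.dbl 51 35 38)))))))) (.rp 0 (.thr 29 17 (.thr 9 57 (.thr 12 46 (.thr 3 6 (.thr 23 43 (.thr 51 38 (.thr 19 35 (.dbl 22 20 28)))))))) .nd)))))) (.rp 57 (.thr 17 29 (.str 51 (.nv (.thr 38 12 (.thr 55 4 (.thr 63 59 (.dbl 0 34 42)))) (.nv (.thr 0 34 (.thr 38 12 (.thr 63 42 (.dbl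 55 4 59)))) (.nv (.thr 0 34 (.thr 12 38 (.thr 8 4 (.dbl 42 59 63)))) (.rp 63 (.thr 34 0 (.thr 38 12 (.thr 46 42 (.thr 44 35 (.thr 45 47 (.thr 37 33 (.thr 49 13 (.thr 48 50 (.thr 15 26 (.dbl 39 27 36)))))))))) (.rp 59 (.thr 1 61 (.thr 49 33 (.thr 13 37 (.thr 5 9 (.thr 0 34 (.thr 15 10 (.dbl 12 14 38))))))) (.rp 42 (.thr 1 61 (.thr 49 33 (.thr 13 37 (.thr 5 9 (.thr 0 34 (.thr 15 10 (.dbl 12 14 38))))))) (.rp 38 (.thr 0 34 (.thr 42 63 (.thr 59 8 (.thr 43 40 (.thr 27 11 (.thr 15 39 (.thr 10 5 (.dbl 26 24 58)))))))) (.rp 34 (.thr 1 61 (.thr 49 33 (.thr 50 48 (.thr 38 12 (.thr 26 14 (.thr 24 27 (.thr 16 31 (.thr 28 20 (.dbl 19 18 22))))))))) (.rp 12 (.thr 1 61 (.thr 49 33 (.thr 13 37 (.thr 5 9 (.thr 0 34 (.thr 15 10 (.thr 27 39 (.thr 26 24 (.thr 31 16 (.dbl 63 42 47)))))))))) (.rp 4 (.thr 1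 61 (.thr 49 33 (.thr 13 37 (.thr 5 9 (.thr 0 34 (.thr 15 10 (.dbl 12 14 38))))))) (.rp 0 (.thr 1 61 (.thr 49 33 (.thr 48 50 (.thr 12 38 (.thr 24 36 (.thr 26 27 (.dbl 37 13 15))))))) .nd))))))))))))) (.rp 53 (.thr 17 29 (.thr 9 57 (.thr 1 61 (.thr 49 33 (.dbl 13 5 37))))) (.rp 49 (.str 63 (.nv (.thr 17 29 (.thr 0 42 (.thr 51 34 (.thr 38 12 (.dbl 55 4 59))))) (.nv (.thr 42 0 (.thr 8 59 (.thr 40 43 (.thr 56 24 (.thr 11 26 (.dbl 9 10 57)))))) (.nv (.thr 29 17 (.thr 12 46 (.thr 51 38 (.thr 59 55 (.dbl 42 0 8))))) (.rp 59 (.thr 29 17 (.thr 12 46 (.thr 38 51 (.thr 4 55 (.dbl 0 8 42))))) (.rp 42 (.thr 29 17 (.thr 9 57 (.thr 12 46 (.thr 3 6 (.thr 23 43 (.thr 22 20 (.thr 19 28 (.dbl 51 35 38)))))))) (.rp 0 (.thr 29 17 (.thr 9 57 (.thr 12 46 (.thr 3 6 (.thr 23 43 (.thr 51 38 (.thr 19 35 (.dbl 22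 20 28)))))))) .nd))))))) (.rp 37 (.str 16 (.nv (.thr 9 57 (.thr 26 31 (.thr 11 56 (.thr 8 10 (.thr 27 24 (.dbl 59 42 43)))))) (.nv (.thr 17 29 (.thr 19 18 (.thr 26 31 (.thr 24 27 (.dbl 28 20 22))))) (.rp 31 (.thr 17 29 (.thr 57 9 (.thr 19 18 (.thr 28 22 (.thr 24 20 (.thr 26 27 (.thr 56 11 (.thr 59 58 (.dbl 8 40 42))))))))) (.rp 27 (.thr 29 17 (.thr 31 26 (.thr 28 30 (.thr 20 24 (.dbl 22 19 23))))) (.rp 26 (.thr 17 29 (.thr 1 61 (.thr 33 49 (.thr 18 19 (.thr 48 3 (.thr 0 32 (.thr 51 34 (.thr 12 38 (.thr 8 4 (.dbl 42 59 63)))))))))) (.rp 24 (.thr 17 29 (.thr 19 18 (.thr 22 28 (.thr 23 20 (.dbl 31 26 27))))) .nd))))))) (.rp 29 (.thr 9 57 (.str 51 (.nv (.thr 1 61 (.thr 13 5 (.thr 38 12 (.thr 49 37 (.thr 17 33 (.thr 0 34 (.thr 63 42 (.dbl 55 4 59)))))))) (.nv (.thr 1 61 (.thr 13 5 (.thr 12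 38 (.thr 15 14 (.thr 27 39 (.thr 26 24 (.dbl 37 48 49))))))) (.rp 63 (.thr 12 38 (.thr 3 6 (.thr 19 35 (.thr 22 28 (.thr 23 20 (.thr 31 27 (.thr 16 26 (.thr 18 17 (.thr 33 48 (.thr 37 45 (.thr 13 49 (.dbl 1 5 61)))))))))))) (.rp 62 (.thr 12 38 (.thr 3 6 (.thr 19 35 (.thr 22 28 (.thr 23 20 (.thr 63 43 (.thr 59 55 (.dbl 42 0 8)))))))) (.rp 61 (.thr 12 38 (.thr 3 6 (.thr 19 35 (.thr 22 28 (.thr 23 20 (.thr 63 43 (.thr 59 55 (.dbl 42 0 8)))))))) (.rp 53 (.thr 12 38 (.thr 3 6 (.thr 19 35 (.thr 22 28 (.thr 23 20 (.thr 63 43 (.thr 59 55 (.dbl 42 0 8)))))))) (.rp 50 (.thr 1 61 (.thr 13 5 (.thr 49 37 (.thr 17 33 (.thr 38 12 (.thr 55 4 (.thr 63 59 (.dbl 0 34 42)))))))) (.rp 49 (.thr 12 38 (.thr 3 6 (.thr 19 35 (.thr 22 28 (.thr 23 20 (.thr 63 43 (.thr 59 55 (.dbl 42 0 8)))))))) (.rp 38 (.str 11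 (.nv (.thr 1 61 (.thr 13 5 (.thr 26 56 (.thr 27 24 (.thr 15 39 (.dbl 37 48 49)))))) (.nv (.thr 56 26 (.thr 8 10 (.thr 42 59 (.dbl 40 24 43)))) (.rp 59 (.thr 1 61 (.thr 13 5 (.thr 49 37 (.thr 17 33 (.thr 56 26 (.thr 8 10 (.thr 40 24 (.thr 42 43 (.dbl 0 34 63))))))))) (.rp 56 (.thr 1 61 (.thr 13 5 (.thr 49 37 (.thr 17 33 (.thr 8 10 (.thr 0 34 (.dbl 42 59 63))))))) (.rp 40 (.thr 26 56 (.thr 27 24 (.thr 8 10 (.dbl 59 42 43)))) (.rp 26 (.thr 1 61 (.thr 13 5 (.thr 49 37 (.thr 17 33 (.thr 8 10 (.thr 42 59 (.dbl 0 34 63))))))) (.rp 24 (.thr 1 61 (.thr 13 5 (.thr 49 37 (.thr 17 33 (.thr 8 10 (.thr 42 59 (.dbl 0 34 63))))))) (.rp 8 (.thr 1 61 (.thr 13 5 (.thr 49 37 (.thr 17 33 (.thr 26 56 (.thr 16 31 (.thr 48 50 (.dbl 0 32 34)))))))) .nd))))))))) (.rp 37 (.thr 12 38 (.thr 3 6 (.thr 19 35 (.thr 22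 28 (.thr 23 20 (.thr 63 43 (.thr 59 55 (.dbl 42 0 8)))))))) (.rp 13 (.thr 12 38 (.thr 3 6 (.thr 19 35 (.thr 22 28 (.thr 23 20 (.thr 63 43 (.thr 59 55 (.dbl 42 0 8)))))))) (.rp 12 (.thr 1 61 (.thr 13 5 (.thr 49 37 (.thr 17 33 (.thr 50 48 (.thr 0 34 (.thr 63 42 (.thr 55 59 (.thr 38 4 (.thr 26 14 (.thr 24 27 (.thr 16 31 (.thr 28 20 (.dbl 19 18 22)))))))))))))) (.rp 5 (.thr 12 38 (.thr 3 6 (.thr 19 35 (.thr 22 28 (.thr 23 20 (.thr 63 43 (.thr 59 55 (.dbl 42 0 8)))))))) (.rp 1 (.thr 12 38 (.thr 3 6 (.thr 19 35 (.thr 22 28 (.thr 23 20 (.thr 63 43 (.thr 59 55 (.dbl 42 0 8)))))))) .nd)))))))))))))))) (.rp 17 (.str 8 (.nv (.thr 1 61 (.thr 9 57 (.thr 5 13 (.thr 10 11 (.thr 0 15 (.dbl 42 59 63)))))) (.nv (.thr 42 59 (.thr 40 43 (.thr 56 24 (.thr 11 26 (.dbl 9 10 57))))) (.rp 59 (.thr 9 57 (.thr 1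 61 (.thr 5 13 (.thr 10 11 (.thr 0 15 (.thr 12 4 (.thr 63 42 (.thr 3 6 (.thr 51 38 (.thr 19 35 (.thr 22 28 (.dbl 23 20 43)))))))))))) (.rp 57 (.thr 61 1 (.thr 42 59 (.thr 40 43 (.thr 56 24 (.thr 11 26 (.thr 10 9 (.thr 0 63 (.thr 12 4 (.thr 15 5 (.thr 13 14 (.thr 45 29 (.dbl 37 33 49)))))))))))) (.rp 42 (.thr 9 57 (.thr 1 61 (.thr 5 13 (.thr 53 37 (.thr 10 11 (.thr 0 15 (.thr 12 4 (.thr 3 6 (.thr 51 38 (.thr 19 35 (.thr 22 28 (.thr 23 20 (.thr 27 31 (.thr 63 43 (.thr 24 26 (.dbl 48 36 58)))))))))))))))) (.rp 11 (.thr 57 9 (.thr 61 1 (.thr 49 53 (.thr 42 59 (.thr 0 63 (.thr 12 4 (.thr 51 38 (.thr 48 50 (.thr 32 16 (.dbl 37 13 47)))))))))) (.rp 10 (.thr 57 9 (.thr 59 42 (.thr 56 58 (.thr 26 11 (.dbl 24 27 40))))) (.rp 9 (.thr 42 59 (.thr 40 43 (.thr 24 56 (.thr 0 63 (.thr 12 4 (.thr 48 36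 (.thr 16 32 (.dbl 26 27 31)))))))) .nd))))))))) (.rp 13 (.str 8 (.nv (.thr 17 29 (.thr 42 59 (.thr 0 63 (.thr 12 4 (.dbl 51 34 38))))) (.nv (.thr 42 59 (.thr 40 43 (.thr 56 24 (.thr 11 26 (.dbl 9 10 57))))) (.rp 59 (.thr 9 57 (.thr 17 29 (.thr 11 10 (.thr 56 26 (.thr 40 24 (.thr 42 43 (.thr 0 63 (.thr 12 4 (.dbl 51 34 38))))))))) (.rp 42 (.thr 9 57 (.thr 29 17 (.thr 11 10 (.thr 26 56 (.thr 27 24 (.thr 31 16 (.thr 19 23 (.dbl 28 22 30)))))))) .nd))))) (.rp 9 (.str 0 (.nv (.thr 17 29 (.thr 51 34 (.thr 38 12 (.thr 63 42 (.dbl 55 4 59))))) (.nv (.thr 29 17 (.thr 63 42 (.thr 12 46 (.thr 38 51 (.dbl 4 8 55))))) (.nv (.thr 17 29 (.thr 51 34 (.thr 12 38 (.thr 8 4 (.dbl 42 59 63))))) (.rp 63 (.thr 17 29 (.thr 51 34 (.thr 12 38 (.thr 8 4 (.thr 42 59 (.thr 40 43 (.thr 24 56 (.thr 48 36 (.thr 16 32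 (.dbl 26 27 31)))))))))) (.rp 51 (.thr 29 17 (.thr 61 1 (.thr 13 45 (.thr 49 37 (.thr 57 53 (.thr 42 63 (.thr 59 8 (.thr 43 40 (.thr 11 27 (.dbl 56 26 58)))))))))) (.rp 42 (.thr 17 29 (.thr 1 61 (.thr 49 33 (.thr 51 34 (.thr 50 48 (.thr 38 12 (.thr 26 14 (.thr 16 31 (.thr 24 27 (.thr 28 20 (.dbl 19 18 22))))))))))) (.rp 38 (.thr 42 63 (.thr 8 59 (.thr 12 4 (.thr 40 43 (.thr 24 56 (.thr 48 36 (.thr 16 32 (.dbl 26 27 31)))))))) (.rp 29 (.thr 42 63 (.thr 8 59 (.thr 12 4 (.thr 40 43 (.thr 24 56 (.thr 48 36 (.thr 16 32 (.dbl 26 27 31)))))))) (.rp 17 (.thr 42 63 (.thr 8 59 (.thr 12 4 (.thr 40 43 (.thr 24 56 (.thr 48 36 (.thr 16 32 (.dbl 26 27 31)))))))) (.rp 12 (.thr 17 29 (.thr 1 61 (.thr 33 49 (.thr 34 51 (.thr 32 35 (.thr 48 16 (.thr 63 42 (.thr 53 58 (.dbl 37 5 45))))))))) (.rp 4 (.thr 17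 29 (.thr 1 61 (.thr 33 49 (.thr 34 51 (.thr 35 32 (.thr 38 44 (.dbl 42 46 63))))))) .nd)))))))))))) (.rp 5 (.thr 29 17 (.thr 57 9 (.thr 61 1 (.thr 13 45 (.dbl 49 37 53))))) (.rp 1 (.str 0 (.nv (.thr 42 63 (.thr 43 40 (.thr 57 9 (.thr 59 8 (.thr 11 27 (.dbl 56 26 58)))))) (.nv (.thr 17 29 (.thr 51 34 (.thr 12 38 (.thr 8 4 (.dbl 42 59 63))))) (.rp 63 (.thr 17 29 (.thr 9 57 (.thr 51 34 (.thr 12 38 (.thr 8 4 (.thr 11 10 (.thr 56 26 (.thr 40 24 (.dbl 42 43 59))))))))) (.rp 59 (.thr 29 17 (.thr 63 42 (.thr 12 46 (.thr 4 8 (.dbl 38 51 55))))) (.rp 42 (.str 22 (.nv (.thr 17 29 (.thr 19 28 (.thr 51 34 (.thr 35 3 (.dbl 38 12 44))))) (.nv (.thr 20 23 (.thr 28 19 (.thr 16 24 (.thr 29 17 (.dbl 31 26 30))))) (.rp 31 (.thr 17 29 (.thr 20 23 (.thr 51 34 (.thr 38 12 (.thr 6 54 (.thr 4 55 (.thr 52 36 (.dbl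 7 5 37)))))))) (.rp 30 (.thr 17 29 (.thr 23 20 (.thr 19 28 (.thr 31 27 (.dbl 16 18 26))))) (.rp 29 (.thr 19 28 (.thr 23 20 (.thr 31 27 (.thr 16 26 (.thr 48 32 (.thr 17 18 (.thr 51 34 (.thr 50 49 (.thr 35 3 (.dbl 38 12 44)))))))))) (.rp 28 (.thr 17 29 (.thr 20 23 (.thr 51 34 (.thr 38 12 (.thr 44 35 (.thr 6 54 (.thr 4 55 (.thr 52 36 (.dbl 7 5 37))))))))) (.rp 19 (.thr 17 29 (.thr 20 23 (.thr 51 34 (.thr 38 12 (.thr 6 54 (.thr 4 55 (.thr 52 36 (.dbl 7 5 37)))))))) (.rp 17 (.str 33 (.nv (.thr 20 23 (.thr 28 19 (.thr 16 24 (.thr 48 32 (.thr 18 3 (.dbl 26 30 31)))))) (.nv (.thr 37 45 (.thr 5 53 (.thr 7 52 (.thr 4 6 (.thr 12 8 (.dbl 38 51 55)))))) (.nv (.thr 20 23 (.thr 28 19 (.thr 16 24 (.thr 48 32 (.thr 37 45 (.dbl 26 15 31)))))) (.rp 48 (.thr 37 45 (.thr 53 5 (.thr 52 7 (.thr 20 23 (.thr 4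 36 (.dbl 55 38 54)))))) (.rp 37 (.thr 28 19 (.thr 20 23 (.thr 16 24 (.thr 32 48 (.thr 35 34 (.thr 38 44 (.thr 12 51 (.dbl 4 8 55)))))))) (.rp 30 (.thr 28 19 (.thr 20 23 (.thr 16 24 (.thr 48 32 (.thr 37 45 (.thr 15 26 (.dbl 5 10 53))))))) .nd))))))) .nd))))))))) (.rp 8 (.thr 17 29 (.thr 51 34 (.thr 38 12 (.thr 55 4 (.dbl 63 42 59))))) .nd))))))) .nd))))))))))))))

theorem w205 : WinAt (2199025352704, 1152921504606846980) :=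
  chF (K := []) kn c205 2199025352704 1152921504606846980 60
    [] (by decide +kernel) (by decide +kernel)

/-- A certificate. -/
noncomputable def c206 : Ct := (.str 25 (.rp 63 (.str 60 (.nv (.thr 17 29 (.thr 22 3 (.thr 57 9 (.thr 51 54 (.thr 0 34 (.dbl 20 23 40)))))) (.nv (.thr 22 3 (.thr 19 28 (.thr 23 20 (.thr 31 27 (.thr 16 26 (.dbl 17 18 29)))))) (.nv (.thr 57 9 (.thr 51 54 (.thr 12 38 (.thr 28 44 (.dbl 22 3 19))))) (.rp 22 (.thr 57 9 (.thr 17 29 (.thr 51 54 (.thr 0 34 (.thr 40 20 (.thr 42 43 (.thr 8 59 (.dbl 12 4 38)))))))) (.rp 3 (.thr 57 9 (.thr 17 29 (.thr 51 54 (.thr 0 34 (.thr 40 20 (.thr 12 38 (.thr 8 4 (.dbl 42 43 59)))))))) .nd)))))) (.rp 62 (.thr 57 9 (.thr 29 17 (.str 42 (.nv (.thr 43 40 (.thr 63 0 (.thr 3 23 (.thr 12 46 (.thr 51 38 (.dbl 60 22 54)))))) (.nv (.thr 63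 0 (.thr 12 46 (.thr 51 38 (.dbl 59 8 55)))) (.nv (.thr 43 40 (.thr 59 8 (.thr 11 27 (.dbl 56 26 58)))) (.rp 63 (.str 60 (.nv (.thr 3 22 (.thr 51 54 (.thr 35 19 (.dbl 38 12 44)))) (.nv (.thr 43 40 (.thr 59 8 (.thr 11 27 (.dbl 56 26 58)))) (.nv (.thr 40 43 (.thr 20 0 (.dbl 22 3 23))) .nd)))) .nd))))))) (.rp 60 (.str 63 (.nv (.thr 9 57 (.thr 29 17 (.thr 12 46 (.thr 3 6 (.thr 42 0 (.dbl 43 23 40)))))) (.nv (.thr 42 0 (.thr 8 59 (.thr 40 43 (.thr 56 24 (.thr 11 26 (.dbl 9 10 57)))))) (.nv (.thr 29 17 (.thr 12 46 (.thr 51 38 (.thr 59 55 (.dbl 42 0 8))))) (.rp 42 (.thr 29 17 (.thr 9 57 (.thr 12 46 (.thr 3 6 (.thr 23 43 (.thr 22 20 (.thr 19 28 (.dbl 51 35 38)))))))) (.rp 0 (.thr 29 17 (.thr 9 57 (.thr 12 46 (.thr 3 6 (.thr 23 43 (.thr 51 38 (.thr 19 35 (.dbl 22 20 28)))))))) .nd)))))) (.rp 59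 (.str 51 (.nv (.thr 17 29 (.thr 0 34 (.thr 57 9 (.thr 60 54 (.thr 40 20 (.dbl 42 43 63)))))) (.nv (.thr 12 38 (.thr 57 9 (.thr 60 54 (.thr 28 44 (.dbl 22 3 19))))) (.rp 60 (.thr 9 57 (.thr 29 17 (.thr 12 38 (.thr 63 46 (.thr 42 0 (.thr 3 6 (.dbl 43 23 40))))))) (.rp 57 (.thr 17 29 (.thr 0 34 (.thr 63 42 (.thr 38 12 (.thr 35 44 (.thr 3 19 (.thr 23 43 (.dbl 22 20 60)))))))) (.rp 54 (.thr 9 57 (.thr 12 38 (.thr 3 6 (.thr 22 60 (.dbl 19 28 35))))) (.rp 9 (.thr 17 29 (.thr 0 34 (.thr 63 42 (.thr 38 12 (.thr 35 44 (.thr 3 19 (.thr 23 43 (.dbl 22 20 60)))))))) .nd))))))) (.rp 58 (.str 19 (.nv (.thr 9 57 (.thr 22 28 (.thr 3 60 (.thr 12 6 (.dbl 51 35 38))))) (.nv (.thr 28 22 (.thr 29 17 (.thr 31 30 (.thr 26 16 (.dbl 27 23 24))))) (.rp 62 (.thr 17 29 (.thr 16 18 (.thr 31 26 (.thr 23 27 (.dbl 22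 20 28))))) (.rp 28 (.thr 17 29 (.thr 9 57 (.thr 16 18 (.thr 31 26 (.thr 23 27 (.thr 22 20 (.thr 3 60 (.thr 51 35 (.dbl 12 6 38))))))))) (.rp 22 (.thr 17 29 (.thr 9 57 (.thr 16 18 (.thr 26 31 (.thr 27 24 (.thr 11 56 (.thr 59 43 (.dbl 8 10 42)))))))) .nd)))))) (.rp 57 (.thr 29 17 (.str 22 (.nv (.thr 3 60 (.thr 23 20 (.thr 63 43 (.thr 12 46 (.thr 6 9 (.dbl 38 51 54)))))) (.nv (.thr 28 19 (.thr 31 30 (.thr 20 23 (.dbl 16 24 26)))) (.rp 53 (.str 49 (.nv (.thr 3 60 (.thr 19 28 (.thr 23 20 (.thr 51 35 (.thr 12 38 (.dbl 63 43 46)))))) (.nv (.thr 3 60 (.thr 37 13 (.thr 7 52 (.thr 15 11 (.thr 33 45 (.dbl 48 18 26)))))) (.nv (.thr 28 19 (.thr 31 30 (.thr 20 23 (.dbl 16 24 26)))) .nd)))) (.rp 49 (.str 53 (.nv (.thr 20 23 (.thr 37 5 (.thr 52 7 (.thr 4 36 (.dbl 55 38 54))))) (.nv (.thr 3 60 (.thr 37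 5 (.thr 7 52 (.thr 15 11 (.thr 33 45 (.dbl 48 18 26)))))) (.nv (.thr 28 19 (.thr 31 30 (.thr 20 23 (.dbl 16 24 26)))) (.rp 33 (.str 1 (.nv (.thr 3 60 (.thr 5 37 (.thr 9 13 (.thr 6 12 (.thr 4 7 (.dbl 38 54 55)))))) (.nv (.thr 20 23 (.thr 28 19 (.thr 16 24 (.dbl 31 26 30)))) (.rp 28 (.thr 37 5 (.thr 52 7 (.thr 20 23 (.thr 4 36 (.dbl 55 38 54))))) .nd)))) (.rp 1 (.str 33 (.nv (.dbl 37 5 45) (.rp 45 (.thr 3 60 (.thr 18 48 (.thr 30 26 (.dbl 28 19 31)))) (.rp 37 (.thr 3 60 (.thr 18 48 (.thr 28 19 (.dbl 30 26 31)))) (.rp 5 (.thr 45 37 (.thr 28 19 (.thr 30 31 (.dbl 60 3 15)))) (.rp 3 (.str 0 (.nv (.thr 20 23 (.thr 40 60 (.dbl 42 43 63))) (.nv (.dbl 37 5 45) .nd))) (.rp 0 (.thr 3 60 (.dbl 37 5 45)) .nd))))))) .nd)))))) (.rp 23 (.thr 3 60 (.thr 19 28 (.thr 51 35 (.thr 12 38 (.thr 63 46 (.thr 59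 55 (.dbl 42 0 8))))))) (.rp 20 (.thr 3 60 (.thr 19 28 (.thr 51 35 (.thr 12 38 (.thr 63 46 (.thr 59 55 (.dbl 42 0 8))))))) .nd)))))))) (.rp 56 (.str 12 (.nv (.thr 9 57 (.thr 3 6 (.thr 29 17 (.thr 63 46 (.thr 23 43 (.dbl 22 20 60)))))) (.nv (.thr 9 57 (.thr 3 6 (.thr 38 51 (.thr 44 35 (.dbl 60 22 28))))) (.nv (.thr 29 17 (.thr 38 51 (.thr 4 55 (.thr 63 46 (.dbl 0 8 42))))) .nd)))) (.rp 55 (.str 59 (.nv (.thr 9 57 (.thr 29 17 (.thr 42 8 (.thr 63 0 (.thr 12 46 (.thr 3 6 (.dbl 43 23 40))))))) (.nv (.thr 57 9 (.thr 56 58 (.thr 11 26 (.thr 42 8 (.dbl 43 27 40))))) (.rp 57 (.thr 17 29 (.thr 42 8 (.thr 43 40 (.thr 27 11 (.thr 0 63 (.thr 51 34 (.thr 15 39 (.thr 10 5 (.dbl 26 24 58))))))))) (.rp 43 (.thr 57 9 (.thr 56 58 (.thr 26 11 (.thr 24 27 (.dbl 8 40 42))))) (.rp 42 (.thr 57 9 (.thr 17 29 (.thr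 56 58 (.thr 26 11 (.thr 24 27 (.thr 16 31 (.thr 28 20 (.dbl 19 18 22)))))))) (.rp 40 (.thr 9 57 (.thr 8 42 (.thr 11 10 (.thr 27 43 (.dbl 26 24 56))))) (.rp 9 (.thr 17 29 (.thr 42 8 (.thr 40 43 (.thr 0 63 (.thr 60 20 (.thr 51 34 (.thr 3 22 (.thr 35 19 (.dbl 38 12 44))))))))) (.rp 8 (.thr 57 9 (.thr 29 17 (.thr 56 58 (.thr 11 26 (.thr 43 27 (.thr 42 40 (.thr 63 0 (.thr 3 23 (.thr 12 46 (.thr 60 22 (.dbl 51 38 54))))))))))) .nd))))))))) (.rp 54 (.str 19 (.nv (.thr 9 57 (.thr 22 28 (.thr 3 60 (.thr 51 35 (.dbl 12 6 38))))) (.nv (.thr 22 28 (.thr 23 20 (.thr 31 27 (.thr 16 26 (.dbl 17 18 29))))) (.rp 28 (.thr 17 29 (.thr 9 57 (.thr 16 18 (.thr 31 26 (.thr 23 27 (.thr 22 20 (.thr 3 60 (.thr 51 35 (.dbl 12 6 38))))))))) (.rp 22 (.thr 17 29 (.thr 57 9 (.thr 16 18 (.thr 26 31 (.thr 24 27 (.thr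 56 11 (.thr 8 40 (.dbl 59 42 58)))))))) .nd))))) (.rp 53 (.thr 29 17 (.thr 57 9 (.str 59 (.nv (.thr 42 8 (.thr 63 0 (.thr 12 46 (.dbl 51 38 55)))) (.nv (.thr 56 58 (.thr 11 26 (.thr 42 8 (.dbl 43 27 40)))) (.rp 63 (.thr 42 8 (.thr 43 40 (.thr 11 27 (.dbl 56 26 58)))) (.rp 42 (.thr 56 58 (.thr 26 11 (.thr 27 24 (.thr 31 16 (.thr 19 23 (.dbl 28 22 30)))))) (.rp 11 (.thr 58 56 (.thr 42 8 (.thr 10 26 (.thr 63 0 (.thr 51 55 (.dbl 12 38 46)))))) (.rp 8 (.thr 56 58 (.thr 11 26 (.thr 43 27 (.thr 42 40 (.thr 63 0 (.thr 51 55 (.dbl 12 38 46))))))) .nd))))))))) (.rp 52 (.str 28 (.nv (.thr 22 19 (.thr 57 9 (.thr 60 3 (.thr 12 44 (.dbl 51 38 54))))) (.nv (.thr 29 17 (.thr 31 30 (.thr 16 26 (.thr 22 19 (.dbl 20 23 24))))) (.rp 22 (.thr 29 17 (.thr 9 57 (.thr 31 30 (.thr 26 16 (.thr 27 24 (.thr 11 56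 (.thr 59 43 (.dbl 8 10 42)))))))) (.rp 19 (.thr 29 17 (.thr 57 9 (.thr 31 30 (.thr 16 26 (.thr 20 24 (.thr 22 23 (.thr 60 3 (.thr 12 44 (.dbl 51 38 54))))))))) .nd))))) (.rp 51 (.str 59 (.nv (.thr 9 57 (.thr 42 8 (.thr 43 40 (.thr 63 0 (.thr 3 23 (.thr 12 6 (.dbl 29 17 46))))))) (.nv (.thr 57 9 (.thr 56 58 (.thr 11 26 (.thr 42 8 (.dbl 43 27 40))))) (.rp 57 (.thr 42 8 (.thr 43 40 (.thr 11 27 (.thr 63 0 (.thr 3 23 (.thr 15 7 (.thr 31 47 (.dbl 26 16 56)))))))) (.rp 56 (.thr 9 57 (.thr 29 17 (.thr 8 42 (.thr 11 10 (.thr 27 43 (.thr 26 24 (.thr 31 16 (.thr 19 23 (.dbl 28 22 30))))))))) (.rp 43 (.thr 57 9 (.thr 56 58 (.thr 26 11 (.thr 24 27 (.dbl 8 40 42))))) (.rp 42 (.thr 57 9 (.thr 17 29 (.thr 56 58 (.thr 26 11 (.thr 24 27 (.thr 16 31 (.thr 28 20 (.dbl 19 18 22)))))))) (.rp 40 (.thr 9 57 (.thr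 8 42 (.thr 11 10 (.thr 27 43 (.dbl 26 24 56))))) (.rp 9 (.thr 42 8 (.thr 43 40 (.thr 11 27 (.thr 63 0 (.thr 3 23 (.thr 15 7 (.thr 31 47 (.dbl 26 16 56)))))))) (.rp 8 (.thr 57 9 (.thr 56 58 (.thr 11 26 (.thr 43 27 (.thr 42 40 (.thr 63 0 (.thr 3 23 (.thr 15 7 (.thr 31 47 (.thr 60 22 (.thr 30 45 (.dbl 29 17 28)))))))))))) .nd)))))))))) (.rp 50 (.thr 57 9 (.str 59 (.nv (.thr 29 17 (.thr 42 8 (.thr 63 0 (.thr 12 46 (.dbl 51 38 55))))) (.nv (.thr 42 8 (.thr 43 40 (.thr 11 27 (.dbl 56 26 58)))) (.rp 42 (.thr 17 29 (.thr 56 58 (.thr 26 11 (.thr 24 27 (.thr 16 31 (.thr 28 20 (.dbl 19 18 22))))))) (.rp 34 (.str 18 (.nv (.thr 17 29 (.thr 16 19 (.thr 56 58 (.dbl 26 11 31)))) (.nv (.thr 29 17 (.thr 42 8 (.thr 63 0 (.thr 51 55 (.dbl 12 38 46))))) (.nv (.thr 42 8 (.thr 43 40 (.thr 11 27 (.dbl 56 26 58))))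 (.rp 11 (.thr 17 29 (.thr 16 19 (.thr 26 31 (.thr 58 56 (.dbl 42 8 10))))) .nd))))) (.rp 18 (.str 34 (.nv (.thr 17 29 (.thr 51 0 (.thr 55 63 (.dbl 38 4 12)))) (.nv (.thr 8 42 (.thr 56 58 (.thr 24 40 (.dbl 26 11 27)))) (.nv (.thr 17 29 (.thr 0 51 (.dbl 42 8 63))) .nd)))) (.rp 11 (.thr 29 17 (.thr 58 56 (.thr 42 8 (.thr 10 26 (.thr 63 0 (.thr 51 55 (.dbl 12 38 46))))))) (.rp 10 (.thr 56 58 (.thr 11 26 (.thr 42 8 (.dbl 43 27 40)))) (.rp 8 (.thr 29 17 (.thr 56 58 (.thr 11 26 (.thr 43 27 (.thr 42 40 (.thr 63 0 (.thr 51 55 (.dbl 12 38 46)))))))) .nd)))))))))) (.rp 49 (.thr 57 9 (.str 59 (.nv (.thr 29 17 (.thr 42 8 (.thr 63 0 (.thr 12 46 (.dbl 51 38 55))))) (.nv (.thr 56 58 (.thr 11 26 (.thr 42 8 (.dbl 43 27 40)))) (.rp 42 (.thr 17 29 (.thr 56 58 (.thr 26 11 (.thr 24 27 (.thr 16 31 (.thr 28 20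 (.dbl 19 18 22))))))) (.rp 11 (.thr 29 17 (.thr 58 56 (.thr 42 8 (.thr 10 26 (.thr 63 0 (.thr 51 55 (.dbl 12 38 46))))))) (.rp 8 (.thr 29 17 (.thr 56 58 (.thr 11 26 (.thr 43 27 (.thr 42 40 (.thr 63 0 (.thr 51 55 (.dbl 12 38 46)))))))) .nd))))))) (.rp 48 (.str 28 (.nv (.thr 22 19 (.thr 57 9 (.thr 60 3 (.thr 12 44 (.dbl 51 38 54))))) (.nv (.thr 22 19 (.thr 29 17 (.thr 20 23 (.thr 31 30 (.dbl 16 24 26))))) (.rp 22 (.thr 29 17 (.thr 9 57 (.thr 31 30 (.thr 26 16 (.thr 27 24 (.thr 11 56 (.thr 59 43 (.dbl 8 10 42)))))))) (.rp 19 (.thr 29 17 (.thr 57 9 (.thr 31 30 (.thr 16 26 (.thr 20 24 (.thr 22 23 (.thr 60 3 (.thr 12 44 (.dbl 51 38 54))))))))) (.rp 18 (.thr 29 17 (.thr 31 30 (.thr 16 26 (.thr 22 19 (.dbl 20 23 24))))) .nd)))))) (.rp 47 (.str 59 (.nv (.thr 29 17 (.thr 42 8 (.thr 63 0 (.thr 12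 46 (.dbl 51 38 55))))) (.nv (.thr 57 9 (.thr 56 58 (.thr 11 26 (.thr 42 8 (.dbl 43 27 40))))) (.rp 42 (.thr 57 9 (.thr 17 29 (.thr 56 58 (.thr 26 11 (.thr 24 27 (.thr 16 31 (.thr 28 20 (.dbl 19 18 22)))))))) (.rp 8 (.thr 57 9 (.thr 29 17 (.thr 56 58 (.thr 11 26 (.thr 43 27 (.thr 42 40 (.thr 63 0 (.thr 51 55 (.dbl 12 38 46))))))))) .nd))))) (.rp 46 (.str 8 (.nv (.thr 17 29 (.thr 42 59 (.thr 0 63 (.thr 12 4 (.dbl 51 34 38))))) (.nv (.thr 42 59 (.thr 40 43 (.thr 56 24 (.thr 11 26 (.dbl 9 10 57))))) (.rp 59 (.thr 9 57 (.thr 17 29 (.thr 11 10 (.thr 56 26 (.thr 40 24 (.thr 42 43 (.thr 0 63 (.thr 12 4 (.dbl 51 34 38))))))))) (.rp 42 (.thr 9 57 (.thr 29 17 (.thr 11 10 (.thr 26 56 (.thr 27 24 (.thr 31 16 (.thr 19 23 (.dbl 28 22 30)))))))) .nd))))) (.rp 45 (.thr 57 9 (.thr 29 17 (.str 28 (.nv (.thr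 22 19 (.thr 60 3 (.thr 12 44 (.dbl 51 38 54)))) (.nv (.thr 31 30 (.thr 16 26 (.thr 22 19 (.dbl 20 23 24)))) (.rp 60 (.thr 22 19 (.thr 20 23 (.thr 16 24 (.dbl 31 26 30)))) (.rp 22 (.thr 31 30 (.thr 26 16 (.thr 24 27 (.thr 56 11 (.thr 8 40 (.dbl 59 42 58)))))) (.rp 19 (.thr 31 30 (.thr 16 26 (.thr 20 24 (.thr 22 23 (.thr 60 3 (.thr 12 44 (.dbl 51 38 54))))))) (.rp 16 (.thr 30 31 (.thr 22 19 (.thr 18 26 (.thr 60 3 (.thr 12 44 (.dbl 51 38 54)))))) .nd))))))))) (.rp 44 (.str 28 (.nv (.thr 9 57 (.thr 22 19 (.thr 3 60 (.thr 12 6 (.thr 23 20 (.thr 63 43 (.dbl 29 17 46))))))) (.nv (.thr 29 17 (.thr 31 30 (.thr 16 26 (.thr 22 19 (.dbl 20 23 24))))) (.rp 29 (.thr 9 57 (.thr 22 19 (.thr 20 23 (.thr 24 16 (.thr 3 60 (.thr 12 6 (.thr 48 36 (.thr 18 33 (.dbl 26 27 30))))))))) (.rp 23 (.thr 17 29 (.thr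 19 22 (.thr 16 18 (.thr 24 20 (.dbl 26 27 31))))) (.rp 22 (.thr 29 17 (.thr 9 57 (.thr 31 30 (.thr 26 16 (.thr 27 24 (.thr 11 56 (.thr 59 43 (.dbl 8 10 42)))))))) (.rp 20 (.thr 29 17 (.thr 31 30 (.thr 26 16 (.thr 27 24 (.dbl 19 22 23))))) (.rp 19 (.thr 29 17 (.thr 57 9 (.thr 31 30 (.thr 16 26 (.thr 20 24 (.thr 22 23 (.thr 60 3 (.thr 0 40 (.thr 51 54 (.thr 63 42 (.dbl 12 38 46))))))))))) (.rp 17 (.thr 9 57 (.thr 22 19 (.thr 23 20 (.thr 3 60 (.thr 63 43 (.thr 12 6 (.thr 0 42 (.thr 4 8 (.dbl 38 51 55))))))))) .nd))))))))) (.rp 43 (.str 19 (.nv (.thr 9 57 (.thr 22 28 (.thr 3 60 (.thr 12 6 (.dbl 51 35 38))))) (.nv (.thr 28 22 (.thr 29 17 (.thr 31 30 (.thr 26 16 (.dbl 27 23 24))))) (.rp 62 (.thr 17 29 (.thr 16 18 (.thr 31 26 (.thr 23 27 (.dbl 22 20 28))))) (.rp 28 (.thr 17 29 (.thr 9 57 (.thr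 16 18 (.thr 31 26 (.thr 23 27 (.thr 22 20 (.thr 3 60 (.thr 51 35 (.dbl 12 6 38))))))))) (.rp 22 (.thr 17 29 (.thr 57 9 (.thr 16 18 (.thr 26 31 (.thr 24 27 (.thr 56 11 (.thr 59 58 (.dbl 8 40 42)))))))) .nd)))))) (.rp 42 (.str 22 (.nv (.thr 3 60 (.thr 9 57 (.thr 12 6 (.thr 23 20 (.thr 29 17 (.dbl 63 43 46)))))) (.nv (.thr 3 60 (.thr 9 57 (.thr 12 6 (.thr 19 28 (.dbl 51 35 38))))) (.nv (.thr 20 23 (.thr 28 19 (.thr 16 24 (.thr 29 17 (.dbl 31 26 30))))) .nd)))) (.rp 40 (.str 28 (.nv (.thr 22 19 (.thr 57 9 (.thr 60 3 (.thr 12 44 (.dbl 51 38 54))))) (.nv (.thr 29 17 (.thr 31 30 (.thr 16 26 (.thr 22 19 (.dbl 20 23 24))))) (.rp 22 (.thr 29 17 (.thr 9 57 (.thr 31 30 (.thr 26 16 (.thr 27 24 (.thr 11 56 (.thr 8 10 (.dbl 59 42 43)))))))) (.rp 19 (.thr 29 17 (.thr 57 9 (.thr 31 30 (.thr 16 26 (.thr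 20 24 (.thr 22 23 (.thr 60 3 (.thr 12 44 (.dbl 51 38 54))))))))) .nd))))) (.rp 39 (.str 59 (.nv (.thr 29 17 (.thr 42 8 (.thr 63 0 (.thr 12 46 (.dbl 51 38 55))))) (.nv (.thr 57 9 (.thr 56 58 (.thr 11 26 (.thr 42 8 (.dbl 43 27 40))))) (.rp 42 (.thr 57 9 (.thr 17 29 (.thr 56 58 (.thr 26 11 (.thr 24 27 (.thr 16 31 (.thr 28 20 (.dbl 19 18 22)))))))) (.rp 8 (.thr 57 9 (.thr 29 17 (.thr 56 58 (.thr 11 26 (.thr 43 27 (.thr 42 40 (.thr 63 0 (.thr 51 55 (.dbl 12 38 46))))))))) .nd))))) (.rp 38 (.str 28 (.nv (.thr 9 57 (.thr 22 19 (.thr 3 60 (.thr 12 6 (.thr 23 20 (.thr 63 43 (.dbl 29 17 46))))))) (.nv (.thr 22 19 (.thr 20 23 (.thr 16 24 (.thr 29 17 (.dbl 31 26 30))))) (.rp 29 (.thr 22 19 (.thr 20 23 (.thr 60 3 (.thr 0 40 (.thr 12 44 (.thr 8 4 (.dbl 42 59 63))))))) (.rp 23 (.thr 17 29 (.thr 19 22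 (.thr 16 18 (.thr 24 20 (.dbl 26 27 31))))) (.rp 22 (.thr 29 17 (.thr 9 57 (.thr 31 30 (.thr 26 16 (.thr 27 24 (.thr 11 56 (.thr 59 43 (.dbl 8 10 42)))))))) (.rp 20 (.thr 29 17 (.thr 31 30 (.thr 26 16 (.thr 27 24 (.dbl 19 22 23))))) (.rp 19 (.thr 29 17 (.thr 31 30 (.thr 16 26 (.thr 20 24 (.thr 22 23 (.thr 60 3 (.thr 0 40 (.thr 12 44 (.dbl 63 42 46))))))))) (.rp 17 (.thr 22 19 (.thr 20 23 (.thr 60 3 (.thr 0 40 (.thr 12 44 (.thr 8 4 (.dbl 42 59 63))))))) .nd))))))))) (.rp 37 (.str 28 (.nv (.thr 22 19 (.thr 57 9 (.thr 60 3 (.thr 12 44 (.dbl 51 38 54))))) (.nv (.thr 22 19 (.thr 20 23 (.thr 16 24 (.thr 29 17 (.dbl 31 26 30))))) (.rp 22 (.thr 29 17 (.thr 9 57 (.thr 31 30 (.thr 26 16 (.thr 27 24 (.thr 11 56 (.thr 59 43 (.dbl 8 10 42)))))))) (.rp 19 (.thr 29 17 (.thr 57 9 (.thr 31 30 (.thr 16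 26 (.thr 20 24 (.thr 22 23 (.thr 60 3 (.thr 12 44 (.dbl 51 38 54))))))))) .nd))))) (.rp 36 (.str 28 (.nv (.thr 22 19 (.thr 57 9 (.thr 60 3 (.thr 12 44 (.dbl 51 38 54))))) (.nv (.thr 29 17 (.thr 31 30 (.thr 16 26 (.thr 22 19 (.dbl 20 23 24))))) (.rp 22 (.thr 29 17 (.thr 9 57 (.thr 31 30 (.thr 26 16 (.thr 27 24 (.thr 11 56 (.thr 59 43 (.dbl 8 10 42)))))))) (.rp 19 (.thr 29 17 (.thr 57 9 (.thr 31 30 (.thr 16 26 (.thr 20 24 (.thr 22 23 (.thr 60 3 (.thr 12 44 (.dbl 51 38 54))))))))) .nd))))) (.rp 35 (.str 59 (.nv (.thr 29 17 (.thr 42 8 (.thr 63 0 (.thr 12 46 (.dbl 51 38 55))))) (.nv (.thr 57 9 (.thr 56 58 (.thr 11 26 (.thr 42 8 (.dbl 43 27 40))))) (.rp 42 (.thr 57 9 (.thr 17 29 (.thr 56 58 (.thr 26 11 (.thr 24 27 (.thr 16 31 (.thr 28 20 (.dbl 19 18 22)))))))) (.rp 8 (.thr 57 9 (.thr 29 17 (.thr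 56 58 (.thr 11 26 (.thr 43 27 (.thr 42 40 (.thr 63 0 (.thr 51 55 (.dbl 12 38 46))))))))) .nd))))) (.rp 34 (.thr 57 9 (.str 59 (.nv (.thr 29 17 (.thr 42 8 (.thr 63 0 (.thr 51 55 (.dbl 12 38 46))))) (.nv (.thr 56 58 (.thr 11 26 (.thr 42 8 (.dbl 43 27 40)))) (.rp 50 (.str 18 (.nv (.thr 17 29 (.thr 16 19 (.thr 56 58 (.dbl 26 11 31)))) (.nv (.thr 29 17 (.thr 42 8 (.thr 63 0 (.thr 51 55 (.dbl 12 38 46))))) (.nv (.thr 42 8 (.thr 43 40 (.thr 11 27 (.dbl 56 26 58)))) (.rp 11 (.thr 17 29 (.thr 16 19 (.thr 26 31 (.thr 58 56 (.dbl 42 8 10))))) .nd))))) (.rp 42 (.thr 17 29 (.thr 56 58 (.thr 26 11 (.thr 24 27 (.thr 16 31 (.thr 28 20 (.dbl 19 18 22))))))) (.rp 18 (.str 50 (.nv (.thr 29 17 (.thr 42 8 (.thr 63 0 (.thr 51 55 (.dbl 12 38 46))))) (.nv (.thr 58 56 (.thr 54 62 (.thr 51 60 (.thr 63 55 (.dbl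 48 49 53))))) (.nv (.thr 42 8 (.thr 43 40 (.thr 56 58 (.dbl 11 26 27)))) (.rp 42 (.thr 56 58 (.thr 26 11 (.thr 38 14 (.thr 55 4 (.dbl 51 12 63))))) .nd))))) (.rp 11 (.thr 29 17 (.thr 58 56 (.thr 42 8 (.thr 10 26 (.thr 63 0 (.thr 51 55 (.dbl 12 38 46))))))) (.rp 8 (.thr 29 17 (.thr 56 58 (.thr 11 26 (.thr 43 27 (.thr 42 40 (.thr 63 0 (.thr 51 55 (.dbl 12 38 46)))))))) .nd))))))))) (.rp 33 (.str 59 (.nv (.thr 29 17 (.thr 42 8 (.thr 63 0 (.thr 12 46 (.dbl 51 38 55))))) (.nv (.thr 57 9 (.thr 56 58 (.thr 11 26 (.thr 42 8 (.dbl 43 27 40))))) (.rp 42 (.thr 57 9 (.thr 17 29 (.thr 56 58 (.thr 26 11 (.thr 24 27 (.thr 16 31 (.thr 28 20 (.dbl 19 18 22)))))))) (.rp 8 (.thr 57 9 (.thr 29 17 (.thr 56 58 (.thr 11 26 (.thr 43 27 (.thr 42 40 (.thr 63 0 (.thr 51 55 (.dbl 12 38 46))))))))) .nd))))) (.rp 32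 (.str 28 (.nv (.thr 22 19 (.thr 57 9 (.thr 60 3 (.thr 12 44 (.dbl 51 38 54))))) (.nv (.thr 29 17 (.thr 31 30 (.thr 16 26 (.thr 22 19 (.dbl 20 23 24))))) (.rp 22 (.thr 29 17 (.thr 9 57 (.thr 31 30 (.thr 26 16 (.thr 27 24 (.thr 11 56 (.thr 59 43 (.dbl 8 10 42)))))))) (.rp 19 (.thr 29 17 (.thr 57 9 (.thr 31 30 (.thr 16 26 (.thr 20 24 (.thr 22 23 (.thr 60 3 (.thr 12 44 (.dbl 51 38 54))))))))) .nd))))) (.rp 31 (.str 51 (.nv (.thr 17 29 (.thr 0 34 (.thr 57 9 (.thr 60 54 (.thr 20 40 (.dbl 22 3 23)))))) (.nv (.thr 9 57 (.thr 12 38 (.thr 3 6 (.thr 19 35 (.dbl 22 28 60))))) (.nv (.thr 12 38 (.thr 29 17 (.thr 63 46 (.thr 59 55 (.dbl 42 0 8))))) .nd)))) (.rp 30 (.str 8 (.nv (.thr 17 29 (.thr 42 59 (.thr 0 63 (.thr 12 4 (.dbl 51 34 38))))) (.nv (.thr 57 9 (.thr 59 42 (.thr 56 58 (.thr 26 11 (.dbl 24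 27 40))))) (.rp 62 (.thr 9 57 (.thr 11 10 (.thr 56 26 (.thr 40 24 (.dbl 42 43 59))))) (.rp 59 (.thr 9 57 (.thr 17 29 (.thr 11 10 (.thr 56 26 (.thr 40 24 (.thr 42 43 (.thr 0 63 (.thr 12 4 (.dbl 51 34 38))))))))) (.rp 42 (.thr 9 57 (.thr 17 29 (.thr 11 10 (.thr 26 56 (.thr 24 27 (.thr 16 31 (.thr 28 20 (.dbl 19 18 22)))))))) .nd)))))) (.rp 29 (.thr 57 9 (.str 42 (.nv (.thr 0 63 (.thr 40 43 (.thr 60 20 (.thr 51 54 (.thr 34 17 (.dbl 38 12 46)))))) (.nv (.thr 59 8 (.thr 56 58 (.thr 43 40 (.dbl 11 26 27)))) (.rp 45 (.str 13 (.nv (.thr 0 63 (.thr 8 59 (.thr 12 4 (.thr 40 43 (.thr 51 38 (.dbl 60 20 54)))))) (.nv (.thr 0 63 (.thr 37 49 (.thr 32 47 (.thr 5 53 (.thr 48 16 (.dbl 15 10 26)))))) (.nv (.thr 59 8 (.thr 56 58 (.thr 43 40 (.dbl 11 26 27)))) .nd)))) (.rp 43 (.thr 0 63 (.thr 8 59 (.thr 12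 4 (.thr 51 38 (.thr 60 54 (.thr 28 44 (.dbl 22 3 19))))))) (.rp 40 (.thr 0 63 (.thr 8 59 (.thr 12 4 (.thr 51 38 (.thr 60 54 (.thr 28 44 (.dbl 22 3 19))))))) (.rp 13 (.str 45 (.nv (.thr 37 33 (.thr 43 40 (.thr 47 32 (.thr 35 39 (.dbl 44 38 46))))) (.nv (.thr 0 63 (.thr 37 33 (.thr 32 47 (.thr 5 53 (.thr 48 16 (.dbl 15 10 26)))))) (.nv (.thr 59 8 (.thr 56 58 (.thr 43 40 (.dbl 11 26 27)))) (.rp 5 (.str 1 (.nv (.thr 0 63 (.thr 33 37 (.thr 17 49 (.thr 34 51 (.thr 35 32 (.dbl 38 44 46)))))) (.nv (.thr 43 40 (.thr 59 8 (.thr 11 27 (.dbl 56 26 58)))) (.rp 59 (.thr 37 33 (.thr 47 32 (.thr 43 40 (.thr 35 39 (.dbl 44 38 46))))) .nd)))) (.rp 1 (.str 5 (.nv (.dbl 37 33 53) (.rp 53 (.thr 0 63 (.thr 10 15 (.thr 58 26 (.dbl 59 8 56)))) (.rp 37 (.thr 0 63 (.thr 10 15 (.thr 59 8 (.dbl 58 26 56)))) (.rp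 33 (.thr 53 37 (.thr 59 8 (.thr 58 56 (.dbl 63 0 48)))) (.rp 3 (.thr 0 63 (.dbl 37 33 53)) (.rp 0 (.str 3 (.nv (.thr 43 40 (.thr 23 63 (.dbl 22 20 60))) (.nv (.dbl 37 33 53) .nd))) .nd))))))) .nd)))))) .nd)))))))) (.rp 28 (.str 12 (.nv (.thr 9 57 (.thr 3 6 (.thr 29 17 (.thr 63 46 (.thr 23 43 (.dbl 22 20 60)))))) (.nv (.thr 29 17 (.thr 38 51 (.thr 4 55 (.thr 63 46 (.dbl 0 8 42))))) (.rp 63 (.thr 17 29 (.thr 57 9 (.thr 51 38 (.thr 60 54 (.thr 22 3 (.thr 0 34 (.dbl 20 23 40))))))) (.rp 46 (.thr 17 29 (.thr 51 38 (.thr 0 34 (.thr 42 63 (.dbl 8 4 59))))) (.rp 29 (.thr 9 57 (.thr 3 6 (.thr 60 22 (.thr 38 51 (.thr 4 55 (.thr 0 8 (.thr 40 20 (.dbl 42 43 63)))))))) (.rp 17 (.thr 9 57 (.thr 3 6 (.thr 60 22 (.thr 38 51 (.thr 4 55 (.thr 0 8 (.thr 40 20 (.dbl 42 43 63)))))))) .nd))))))) (.rp 27 (.str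 51 (.nv (.thr 17 29 (.thr 0 34 (.thr 57 9 (.thr 60 54 (.thr 20 40 (.dbl 22 3 23)))))) (.nv (.thr 9 57 (.thr 12 38 (.thr 3 6 (.thr 19 35 (.dbl 22 28 60))))) (.nv (.thr 12 38 (.thr 29 17 (.thr 63 46 (.thr 59 55 (.dbl 42 0 8))))) .nd)))) (.rp 26 (.str 12 (.nv (.thr 9 57 (.thr 3 6 (.thr 29 17 (.thr 63 46 (.thr 23 43 (.dbl 22 20 60)))))) (.nv (.thr 9 57 (.thr 3 6 (.thr 38 51 (.thr 44 35 (.dbl 60 22 28))))) (.nv (.thr 29 17 (.thr 38 51 (.thr 4 55 (.thr 63 46 (.dbl 0 8 42))))) .nd)))) (.rp 24 (.str 12 (.nv (.thr 9 57 (.thr 3 6 (.thr 29 17 (.thr 63 46 (.thr 23 43 (.dbl 22 20 60)))))) (.nv (.thr 9 57 (.thr 3 6 (.thr 38 51 (.thr 44 35 (.dbl 60 22 28))))) (.nv (.thr 29 17 (.thr 38 51 (.thr 4 55 (.thr 63 46 (.dbl 0 8 42))))) .nd)))) (.rp 23 (.str 59 (.nv (.thr 29 17 (.thr 42 8 (.thr 63 0 (.thr 12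 46 (.dbl 51 38 55))))) (.nv (.thr 57 9 (.thr 56 58 (.thr 11 26 (.thr 42 8 (.dbl 43 27 40))))) (.rp 42 (.thr 57 9 (.thr 17 29 (.thr 56 58 (.thr 26 11 (.thr 24 27 (.thr 16 31 (.thr 19 18 (.dbl 28 20 22)))))))) (.rp 8 (.thr 57 9 (.thr 29 17 (.thr 56 58 (.thr 11 26 (.thr 43 27 (.thr 42 40 (.thr 63 0 (.thr 51 55 (.dbl 12 38 46))))))))) .nd))))) (.rp 22 (.str 42 (.nv (.thr 0 63 (.thr 17 29 (.thr 40 43 (.thr 51 34 (.thr 57 9 (.dbl 60 20 54)))))) (.nv (.thr 17 29 (.thr 8 59 (.thr 0 63 (.thr 12 4 (.dbl 51 34 38))))) (.nv (.thr 43 40 (.thr 59 8 (.thr 11 27 (.thr 57 9 (.dbl 56 26 58))))) .nd)))) (.rp 20 (.str 8 (.nv (.thr 17 29 (.thr 42 59 (.thr 0 63 (.thr 12 4 (.dbl 51 34 38))))) (.nv (.thr 57 9 (.thr 59 42 (.thr 56 58 (.thr 26 11 (.dbl 24 27 40))))) (.rp 62 (.thr 9 57 (.thr 11 10 (.thr 56 26 (.thr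 40 24 (.dbl 42 43 59))))) (.rp 59 (.thr 9 57 (.thr 17 29 (.thr 11 10 (.thr 56 26 (.thr 40 24 (.thr 42 43 (.thr 0 63 (.thr 12 4 (.dbl 51 34 38))))))))) (.rp 42 (.thr 9 57 (.thr 29 17 (.thr 11 10 (.thr 26 56 (.thr 27 24 (.thr 31 16 (.thr 28 30 (.dbl 19 22 23)))))))) .nd)))))) (.rp 19 (.str 51 (.nv (.thr 9 57 (.thr 12 38 (.thr 3 6 (.thr 22 60 (.thr 23 20 (.thr 63 43 (.dbl 29 17 46))))))) (.nv (.thr 17 29 (.thr 0 34 (.thr 57 9 (.thr 60 54 (.thr 20 40 (.dbl 22 3 23)))))) (.nv (.thr 12 38 (.thr 29 17 (.thr 63 46 (.thr 59 55 (.dbl 42 0 8))))) (.rp 29 (.thr 57 9 (.thr 60 54 (.thr 3 22 (.thr 38 12 (.thr 55 4 (.thr 63 59 (.thr 43 23 (.dbl 42 0 40)))))))) (.rp 17 (.thr 57 9 (.thr 60 54 (.thr 3 22 (.thr 38 12 (.thr 55 4 (.thr 63 59 (.thr 43 23 (.dbl 42 0 40)))))))) (.rp 0 (.thr 9 57 (.thr 29 17 (.thr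 12 38 (.thr 63 46 (.thr 3 6 (.thr 23 43 (.dbl 22 20 60))))))) .nd))))))) (.rp 18 (.thr 57 9 (.str 59 (.nv (.thr 29 17 (.thr 42 8 (.thr 63 0 (.thr 12 46 (.dbl 51 38 55))))) (.nv (.thr 42 8 (.thr 43 40 (.thr 56 58 (.dbl 11 26 27)))) (.rp 50 (.str 34 (.nv (.thr 17 29 (.thr 51 0 (.thr 55 63 (.dbl 38 4 12)))) (.nv (.thr 8 42 (.thr 56 58 (.thr 24 40 (.dbl 26 11 27)))) (.nv (.thr 17 29 (.thr 0 51 (.dbl 42 8 63))) .nd)))) (.rp 42 (.thr 29 17 (.thr 56 58 (.thr 26 11 (.thr 27 24 (.thr 31 16 (.thr 19 23 (.dbl 28 22 30))))))) (.rp 34 (.str 50 (.nv (.thr 29 17 (.thr 42 8 (.thr 63 0 (.thr 51 55 (.dbl 12 38 46))))) (.nv (.thr 58 56 (.thr 54 62 (.thr 51 60 (.thr 63 55 (.dbl 48 49 53))))) (.nv (.thr 42 8 (.thr 43 40 (.thr 56 58 (.dbl 11 26 27)))) (.rp 42 (.thr 56 58 (.thr 26 11 (.thr 38 14 (.thr 55 4 (.dbl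 51 12 63))))) .nd))))) (.rp 11 (.thr 29 17 (.thr 58 56 (.thr 42 8 (.thr 10 26 (.thr 63 0 (.thr 51 55 (.dbl 12 38 46))))))) (.rp 10 (.thr 56 58 (.thr 11 26 (.thr 42 8 (.dbl 43 27 40)))) (.rp 8 (.thr 29 17 (.thr 56 58 (.thr 11 26 (.thr 43 27 (.thr 42 40 (.thr 63 0 (.thr 51 55 (.dbl 12 38 46)))))))) .nd)))))))))) (.rp 17 (.str 60 (.nv (.thr 22 3 (.thr 20 23 (.thr 0 40 (.thr 28 19 (.thr 12 44 (.thr 8 4 (.dbl 42 59 63))))))) (.nv (.thr 57 9 (.thr 51 54 (.thr 12 38 (.thr 28 44 (.dbl 22 3 19))))) (.rp 51 (.thr 9 57 (.thr 3 22 (.thr 12 6 (.thr 44 28 (.thr 38 35 (.thr 4 55 (.thr 0 8 (.thr 40 20 (.dbl 42 43 63))))))))) (.rp 44 (.thr 57 9 (.thr 51 54 (.thr 12 38 (.thr 22 3 (.thr 20 23 (.thr 0 40 (.thr 8 4 (.dbl 42 59 63)))))))) (.rp 28 (.thr 57 9 (.thr 51 54 (.thr 38 12 (.thr 35 44 (.dbl 3 19 22)))))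 (.rp 22 (.thr 57 9 (.thr 51 54 (.thr 38 12 (.thr 35 44 (.thr 3 19 (.thr 55 4 (.thr 63 59 (.thr 43 23 (.dbl 42 0 40))))))))) (.rp 19 (.thr 9 57 (.thr 3 22 (.thr 12 6 (.thr 44 28 (.dbl 38 35 51))))) (.rp 12 (.thr 22 3 (.thr 28 19 (.thr 20 23 (.thr 0 40 (.thr 16 24 (.thr 48 32 (.thr 56 52 (.dbl 26 11 31)))))))) (.rp 3 (.thr 57 9 (.thr 51 54 (.thr 12 38 (.thr 28 44 (.thr 22 19 (.thr 20 23 (.thr 0 40 (.thr 8 4 (.dbl 42 59 63))))))))) .nd)))))))))) (.rp 16 (.str 12 (.nv (.thr 9 57 (.thr 3 6 (.thr 29 17 (.thr 63 46 (.thr 23 43 (.dbl 22 20 60)))))) (.nv (.thr 17 29 (.thr 51 38 (.thr 0 34 (.thr 8 4 (.dbl 42 59 63))))) (.nv (.thr 51 38 (.thr 57 9 (.thr 60 54 (.thr 28 44 (.dbl 22 3 19))))) .nd)))) (.rp 15 (.str 59 (.nv (.thr 29 17 (.thr 42 8 (.thr 63 0 (.thr 12 46 (.dbl 51 38 55))))) (.nv (.thr 42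 8 (.thr 57 9 (.thr 43 40 (.thr 56 58 (.dbl 11 26 27))))) (.rp 42 (.thr 57 9 (.thr 17 29 (.thr 56 58 (.thr 26 11 (.thr 24 27 (.thr 16 31 (.thr 28 20 (.dbl 19 18 22)))))))) (.rp 10 (.thr 57 9 (.thr 56 58 (.thr 11 26 (.thr 42 8 (.dbl 43 27 40))))) (.rp 8 (.thr 57 9 (.thr 29 17 (.thr 56 58 (.thr 11 26 (.thr 43 27 (.thr 42 40 (.thr 63 0 (.thr 51 55 (.dbl 12 38 46))))))))) .nd)))))) (.rp 14 (.thr 29 17 (.str 28 (.nv (.thr 22 19 (.thr 57 9 (.thr 60 3 (.thr 12 44 (.dbl 51 38 54))))) (.nv (.thr 22 19 (.thr 20 23 (.thr 16 24 (.dbl 31 26 30)))) (.rp 22 (.thr 9 57 (.thr 31 30 (.thr 26 16 (.thr 27 24 (.thr 11 56 (.thr 59 43 (.dbl 8 10 42))))))) (.rp 19 (.thr 57 9 (.thr 31 30 (.thr 16 26 (.thr 20 24 (.thr 22 23 (.thr 60 3 (.thr 12 44 (.dbl 51 38 54)))))))) (.rp 18 (.thr 31 30 (.thr 16 26 (.thr 22 19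 (.dbl 20 23 24)))) (.rp 16 (.thr 57 9 (.thr 30 31 (.thr 22 19 (.thr 18 26 (.thr 60 3 (.thr 12 44 (.dbl 51 38 54))))))) (.rp 10 (.str 6 (.nv (.thr 9 57 (.thr 12 3 (.thr 44 60 (.dbl 38 35 51)))) (.nv (.thr 19 22 (.thr 31 30 (.thr 26 16 (.dbl 27 23 24)))) (.nv (.thr 9 57 (.thr 3 12 (.dbl 22 19 60))) .nd)))) (.rp 6 (.str 10 (.nv (.thr 9 57 (.thr 11 8 (.thr 31 30 (.dbl 26 16 56)))) (.nv (.thr 22 19 (.thr 57 9 (.thr 60 3 (.thr 12 44 (.dbl 51 38 54))))) (.nv (.thr 22 19 (.thr 20 23 (.thr 16 24 (.dbl 31 26 30)))) (.rp 16 (.thr 9 57 (.thr 11 8 (.thr 26 56 (.thr 30 31 (.dbl 22 18 19))))) .nd))))) .nd)))))))))) (.rp 13 (.thr 29 17 (.str 28 (.nv (.thr 22 19 (.thr 57 9 (.thr 60 3 (.thr 12 44 (.dbl 51 38 54))))) (.nv (.thr 31 30 (.thr 16 26 (.thr 22 19 (.dbl 20 23 24)))) (.rp 22 (.thr 9 57 (.thr 31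 30 (.thr 26 16 (.thr 27 24 (.thr 11 56 (.thr 59 43 (.dbl 8 10 42))))))) (.rp 19 (.thr 57 9 (.thr 31 30 (.thr 16 26 (.thr 20 24 (.thr 22 23 (.thr 60 3 (.thr 12 44 (.dbl 51 38 54)))))))) (.rp 16 (.thr 57 9 (.thr 30 31 (.thr 22 19 (.thr 18 26 (.thr 60 3 (.thr 12 44 (.dbl 51 38 54))))))) .nd))))))) (.rp 12 (.str 28 (.nv (.thr 17 29 (.thr 22 19 (.thr 20 23 (.thr 60 3 (.thr 0 40 (.thr 51 34 (.dbl 57 9 54))))))) (.nv (.thr 29 17 (.thr 31 30 (.thr 16 26 (.thr 22 19 (.dbl 20 23 24))))) (.rp 31 (.thr 17 29 (.thr 57 9 (.thr 19 22 (.thr 16 18 (.thr 24 20 (.thr 26 27 (.thr 56 11 (.thr 8 40 (.dbl 59 42 58))))))))) (.rp 29 (.thr 22 19 (.thr 20 23 (.thr 16 24 (.thr 60 3 (.thr 0 40 (.thr 48 32 (.thr 56 52 (.dbl 26 11 31)))))))) (.rp 23 (.thr 17 29 (.thr 19 22 (.thr 16 18 (.thr 24 20 (.dbl 26 27 31)))))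 (.rp 22 (.thr 29 17 (.thr 9 57 (.thr 31 30 (.thr 26 16 (.thr 27 24 (.thr 11 56 (.thr 59 43 (.dbl 8 10 42)))))))) (.rp 20 (.thr 29 17 (.thr 31 30 (.thr 26 16 (.thr 27 24 (.dbl 19 22 23))))) (.rp 19 (.thr 29 17 (.thr 31 30 (.thr 16 26 (.thr 20 24 (.thr 22 23 (.thr 60 3 (.thr 0 40 (.thr 48 32 (.thr 56 52 (.thr 63 42 (.thr 58 53 (.dbl 57 9 59)))))))))))) (.rp 17 (.thr 22 19 (.thr 20 23 (.thr 16 24 (.thr 60 3 (.thr 0 40 (.thr 48 32 (.thr 56 52 (.dbl 26 11 31)))))))) .nd)))))))))) (.rp 11 (.str 51 (.nv (.thr 17 29 (.thr 0 34 (.thr 57 9 (.thr 60 54 (.thr 20 40 (.dbl 22 3 23)))))) (.nv (.thr 9 57 (.thr 12 38 (.thr 3 6 (.thr 19 35 (.dbl 22 28 60))))) (.nv (.thr 12 38 (.thr 29 17 (.thr 63 46 (.thr 59 55 (.dbl 42 0 8))))) .nd)))) (.rp 10 (.thr 29 17 (.str 28 (.nv (.thr 22 19 (.thr 57 9 (.thr 60 3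 (.thr 12 44 (.dbl 51 38 54))))) (.nv (.thr 22 19 (.thr 20 23 (.thr 31 30 (.dbl 16 24 26)))) (.rp 22 (.thr 57 9 (.thr 31 30 (.thr 26 16 (.thr 24 27 (.thr 56 11 (.thr 8 40 (.dbl 59 42 58))))))) (.rp 19 (.thr 57 9 (.thr 31 30 (.thr 16 26 (.thr 20 24 (.thr 22 23 (.thr 60 3 (.thr 12 44 (.dbl 51 38 54)))))))) (.rp 18 (.thr 31 30 (.thr 16 26 (.thr 22 19 (.dbl 20 23 24)))) (.rp 16 (.thr 57 9 (.thr 30 31 (.thr 22 19 (.thr 18 26 (.thr 60 3 (.thr 12 44 (.dbl 51 38 54))))))) (.rp 14 (.str 6 (.nv (.thr 9 57 (.thr 12 3 (.thr 44 60 (.dbl 38 35 51)))) (.nv (.thr 19 22 (.thr 31 30 (.thr 26 16 (.dbl 27 23 24)))) (.nv (.thr 9 57 (.thr 3 12 (.dbl 22 19 60))) .nd)))) (.rp 6 (.str 14 (.nv (.thr 22 19 (.thr 57 9 (.thr 60 3 (.thr 12 44 (.dbl 51 38 54))))) (.nv (.thr 30 31 (.thr 46 62 (.thr 12 63 (.thr 60 44 (.dbl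 15 13 45))))) (.nv (.thr 22 19 (.thr 20 23 (.thr 31 30 (.dbl 16 24 26)))) (.rp 22 (.thr 31 30 (.thr 26 16 (.thr 38 50 (.thr 44 35 (.dbl 12 51 60))))) .nd))))) .nd)))))))))) (.rp 9 (.str 63 (.nv (.thr 42 0 (.thr 43 40 (.thr 3 23 (.thr 59 8 (.thr 51 55 (.thr 19 35 (.dbl 22 28 60))))))) (.nv (.thr 29 17 (.thr 12 46 (.thr 51 38 (.thr 59 55 (.dbl 42 0 8))))) (.rp 59 (.thr 29 17 (.thr 12 46 (.thr 38 51 (.thr 4 55 (.dbl 0 8 42))))) (.rp 55 (.thr 29 17 (.thr 12 46 (.thr 51 38 (.thr 42 0 (.thr 43 40 (.thr 3 23 (.thr 19 35 (.dbl 22 28 60)))))))) (.rp 51 (.thr 42 0 (.thr 59 8 (.thr 43 40 (.thr 3 23 (.thr 11 27 (.thr 15 7 (.thr 31 47 (.dbl 26 16 56)))))))) (.rp 42 (.thr 29 17 (.thr 12 46 (.thr 38 51 (.thr 4 55 (.thr 0 8 (.thr 44 35 (.thr 60 28 (.thr 20 40 (.dbl 22 3 23))))))))) (.rp 12 (.thr 17 29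 (.thr 0 42 (.thr 51 34 (.thr 55 59 (.thr 38 4 (.thr 35 44 (.thr 3 19 (.thr 23 43 (.dbl 22 20 60))))))))) (.rp 8 (.thr 17 29 (.thr 0 42 (.thr 51 34 (.thr 55 59 (.dbl 38 4 12))))) (.rp 0 (.thr 29 17 (.thr 12 46 (.thr 51 38 (.thr 59 55 (.thr 42 8 (.thr 43 40 (.thr 3 23 (.thr 19 35 (.dbl 22 28 60))))))))) .nd)))))))))) (.rp 8 (.str 12 (.nv (.thr 51 38 (.thr 57 9 (.thr 60 54 (.thr 22 3 (.dbl 28 19 44))))) (.nv (.thr 9 57 (.thr 3 6 (.thr 29 17 (.thr 63 46 (.thr 43 23 (.dbl 42 0 40)))))) (.nv (.thr 38 51 (.thr 44 35 (.thr 9 57 (.thr 60 28 (.dbl 3 6 22))))) (.rp 57 (.thr 29 17 (.thr 63 46 (.thr 0 42 (.thr 38 51 (.thr 44 35 (.thr 60 28 (.thr 20 40 (.dbl 22 3 23)))))))) (.rp 9 (.thr 29 17 (.thr 63 46 (.thr 0 42 (.thr 38 51 (.thr 44 35 (.thr 60 28 (.thr 20 40 (.dbl 22 3 23)))))))) (.rp 3 (.thr 17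 29 (.thr 57 9 (.thr 51 38 (.thr 60 54 (.thr 0 34 (.thr 40 20 (.dbl 42 43 63))))))) .nd))))))) (.rp 7 (.str 59 (.nv (.thr 29 17 (.thr 42 8 (.thr 63 0 (.thr 12 46 (.dbl 51 38 55))))) (.nv (.thr 57 9 (.thr 56 58 (.thr 11 26 (.thr 42 8 (.dbl 43 27 40))))) (.rp 42 (.thr 57 9 (.thr 17 29 (.thr 56 58 (.thr 26 11 (.thr 24 27 (.thr 16 31 (.thr 28 20 (.dbl 19 18 22)))))))) (.rp 8 (.thr 57 9 (.thr 29 17 (.thr 56 58 (.thr 11 26 (.thr 43 27 (.thr 42 40 (.thr 63 0 (.thr 51 55 (.dbl 12 38 46))))))))) .nd))))) (.rp 6 (.thr 29 17 (.str 28 (.nv (.thr 22 19 (.thr 57 9 (.thr 60 3 (.thr 12 44 (.dbl 51 38 54))))) (.nv (.thr 31 30 (.thr 16 26 (.thr 22 19 (.dbl 20 23 24)))) (.rp 22 (.thr 9 57 (.thr 31 30 (.thr 26 16 (.thr 27 24 (.thr 11 56 (.thr 59 43 (.dbl 8 10 42))))))) (.rp 19 (.thr 57 9 (.thr 31 30 (.thr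 16 26 (.thr 20 24 (.thr 22 23 (.thr 60 3 (.thr 12 44 (.dbl 51 38 54)))))))) (.rp 16 (.thr 57 9 (.thr 30 31 (.thr 22 19 (.thr 18 26 (.thr 60 3 (.thr 12 44 (.dbl 51 38 54))))))) (.rp 14 (.str 10 (.nv (.thr 9 57 (.thr 11 8 (.thr 31 30 (.dbl 26 16 56)))) (.nv (.thr 22 19 (.thr 57 9 (.thr 60 3 (.thr 12 44 (.dbl 51 38 54))))) (.nv (.thr 22 19 (.thr 20 23 (.thr 16 24 (.dbl 31 26 30)))) (.rp 16 (.thr 9 57 (.thr 11 8 (.thr 26 56 (.thr 30 31 (.dbl 22 18 19))))) .nd))))) (.rp 10 (.str 14 (.nv (.thr 22 19 (.thr 57 9 (.thr 60 3 (.thr 12 44 (.dbl 51 38 54))))) (.nv (.thr 30 31 (.thr 46 62 (.thr 12 63 (.thr 60 44 (.dbl 15 13 45))))) (.nv (.thr 22 19 (.thr 20 23 (.thr 31 30 (.dbl 16 24 26)))) (.rp 22 (.thr 31 30 (.thr 26 16 (.thr 38 50 (.thr 44 35 (.dbl 12 51 60))))) .nd))))) .nd))))))))) (.rp 5 (.str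 28 (.nv (.thr 22 19 (.thr 57 9 (.thr 60 3 (.thr 12 44 (.dbl 51 38 54))))) (.nv (.thr 29 17 (.thr 31 30 (.thr 16 26 (.thr 22 19 (.dbl 20 23 24))))) (.rp 22 (.thr 29 17 (.thr 9 57 (.thr 31 30 (.thr 26 16 (.thr 27 24 (.thr 11 56 (.thr 59 43 (.dbl 8 10 42)))))))) (.rp 19 (.thr 29 17 (.thr 57 9 (.thr 31 30 (.thr 16 26 (.thr 20 24 (.thr 22 23 (.thr 60 3 (.thr 12 44 (.dbl 51 38 54))))))))) .nd))))) (.rp 4 (.str 28 (.nv (.thr 22 19 (.thr 57 9 (.thr 60 3 (.thr 12 44 (.dbl 51 38 54))))) (.nv (.thr 29 17 (.thr 31 30 (.thr 16 26 (.thr 22 19 (.dbl 20 23 24))))) (.rp 22 (.thr 29 17 (.thr 9 57 (.thr 31 30 (.thr 26 16 (.thr 27 24 (.thr 11 56 (.thr 59 43 (.dbl 8 10 42)))))))) (.rp 19 (.thr 29 17 (.thr 57 9 (.thr 31 30 (.thr 16 26 (.thr 20 24 (.thr 22 23 (.thr 60 3 (.thr 12 44 (.dbl 51 38 54))))))))) .nd)))))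 (.rp 3 (.str 0 (.nv (.thr 17 29 (.thr 51 34 (.thr 38 12 (.thr 55 4 (.dbl 63 42 59))))) (.nv (.thr 42 63 (.thr 43 40 (.thr 59 8 (.thr 11 27 (.thr 56 26 (.dbl 57 9 58)))))) (.nv (.thr 29 17 (.thr 63 42 (.thr 12 46 (.thr 4 8 (.dbl 38 51 55))))) (.rp 63 (.thr 17 29 (.thr 57 9 (.thr 51 34 (.thr 60 54 (.thr 20 40 (.thr 12 38 (.thr 28 44 (.dbl 22 19 23)))))))) (.rp 42 (.thr 17 29 (.thr 57 9 (.thr 51 34 (.thr 60 54 (.thr 20 40 (.thr 22 23 (.thr 28 19 (.dbl 12 38 44)))))))) .nd)))))) (.rp 1 (.str 0 (.nv (.thr 9 57 (.thr 42 63 (.thr 40 43 (.thr 60 20 (.thr 3 22 (.thr 12 6 (.dbl 8 4 59))))))) (.nv (.thr 17 29 (.thr 51 34 (.thr 57 9 (.thr 60 54 (.thr 20 40 (.dbl 22 3 23)))))) (.nv (.thr 42 63 (.thr 8 59 (.thr 12 4 (.thr 51 38 (.dbl 17 29 34))))) (.rp 60 (.thr 17 29 (.thr 51 34 (.thr 12 38 (.thr 8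 4 (.dbl 42 59 63))))) .nd))))) (.rp 0 (.str 3 (.nv (.thr 9 57 (.thr 12 6 (.thr 38 51 (.thr 44 35 (.dbl 60 22 28))))) (.nv (.thr 22 60 (.thr 20 23 (.thr 28 19 (.thr 16 24 (.thr 31 26 (.dbl 29 17 30)))))) (.nv (.thr 57 9 (.thr 60 22 (.thr 51 54 (.thr 35 19 (.dbl 38 12 44))))) (.rp 60 (.thr 9 57 (.thr 29 17 (.thr 12 6 (.thr 63 46 (.thr 43 23 (.thr 51 38 (.thr 59 55 (.dbl 42 8 40)))))))) (.rp 22 (.thr 9 57 (.thr 29 17 (.thr 12 6 (.thr 63 46 (.thr 43 23 (.thr 42 40 (.thr 59 8 (.dbl 51 38 55)))))))) .nd)))))) .nd))))))))))))))))))))))))))))))))))))))))))))))))))))))))))))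

theorem w206 : WinAt (2199025352704, 2305843009213693956) :=
  chF (K := []) kn c206 2199025352704 2305843009213693956 61
    [] (by decide +kernel) (by decide +kernel)

/-- A certificate. -/
noncomputable def c207 : Ct := (.str 37 (.nv (.thr 45 33 (.thr 53 5 (.thr 61 1 (.thr 13 29 (.dbl 49 25 57))))) (.nv (.thr 33 45 (.thr 5 53 (.thr 1 61 (.thr 13 9 (.dbl 49 17 25))))) (.rp 61 (.thr 45 33 (.thr 53 5 (.str 42 (.nv (.thr 43 40 (.thr 63 0 (.thr 3 23 (.thr 48 58 (.thr 15 26 (.dbl 60 22 30)))))) (.nv (.thr 63 0 (.thr 48 58 (.thr 15 26 (.dbl 47 31 32)))) (.nv (.thr 43 40 (.thr 47 32 (.thr 35 39 (.dbl 44 38 46)))) (.rp 63 (.str 60 (.nv (.thr 3 22 (.thr 15 30 (.thr 11 7 (.dbl 26 48 56)))) (.nv (.thr 43 40 (.thr 47 32 (.thr 35 39 (.dbl 44 38 46)))) (.nv (.thr 40 43 (.thr 20 0 (.dbl 22 3 23)))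 .nd)))) .nd))))))) (.rp 57 (.thr 33 45 (.thr 5 53 (.thr 1 61 (.thr 49 17 (.dbl 13 9 25))))) (.rp 53 (.str 42 (.nv (.thr 0 63 (.thr 32 47 (.thr 40 43 (.thr 48 16 (.thr 60 20 (.thr 52 56 (.dbl 22 3 7))))))) (.nv (.thr 0 63 (.thr 40 43 (.thr 45 33 (.thr 60 20 (.thr 15 30 (.thr 10 5 (.dbl 26 48 58))))))) (.nv (.thr 40 43 (.thr 32 47 (.thr 44 36 (.thr 33 45 (.dbl 35 34 38))))) (.rp 43 (.thr 45 33 (.thr 61 1 (.thr 29 13 (.thr 47 32 (.thr 46 44 (.dbl 63 0 12)))))) (.rp 40 (.thr 33 45 (.thr 0 63 (.thr 32 47 (.thr 34 35 (.thr 17 51 (.dbl 1 49 61)))))) .nd)))))) (.rp 49 (.str 42 (.nv (.thr 0 63 (.thr 5 53 (.thr 15 10 (.thr 40 43 (.thr 45 33 (.dbl 60 20 30)))))) (.nv (.thr 0 63 (.thr 5 53 (.thr 15 10 (.thr 32 47 (.dbl 48 16 26))))) (.nv (.thr 40 43 (.thr 32 47 (.thr 44 36 (.thr 33 45 (.dbl 35 34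 38))))) .nd)))) (.rp 45 (.str 22 (.nv (.thr 3 60 (.thr 5 53 (.thr 23 20 (.thr 63 43 (.thr 0 42 (.thr 15 10 (.dbl 7 11 52))))))) (.nv (.thr 23 20 (.thr 7 52 (.thr 55 39 (.thr 5 53 (.dbl 4 6 38))))) (.rp 53 (.thr 3 60 (.thr 7 52 (.thr 15 11 (.thr 23 20 (.thr 63 43 (.thr 31 47 (.dbl 26 16 48))))))) (.rp 52 (.thr 53 5 (.thr 3 60 (.thr 23 20 (.thr 63 43 (.thr 48 58 (.thr 18 33 (.dbl 26 15 30))))))) (.rp 23 (.thr 5 53 (.thr 3 60 (.thr 7 52 (.thr 6 4 (.thr 9 12 (.dbl 1 13 61)))))) (.rp 20 (.thr 53 5 (.thr 61 1 (.thr 57 49 (.thr 52 7 (.thr 54 55 (.dbl 60 3 51)))))) (.rp 7 (.thr 53 5 (.thr 3 60 (.thr 23 20 (.thr 63 43 (.thr 48 58 (.thr 18 33 (.dbl 26 15 30))))))) (.rp 6 (.thr 53 5 (.thr 20 23 (.thr 52 7 (.thr 4 36 (.dbl 55 38 54))))) (.rp 5 (.thr 3 60 (.thr 7 52 (.thr 15 11 (.thr 23 20 (.thr 63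 43 (.thr 31 47 (.dbl 26 16 48))))))) .nd)))))))))) (.rp 42 (.str 22 (.nv (.thr 3 60 (.thr 7 52 (.thr 15 11 (.thr 33 45 (.dbl 48 18 26))))) (.nv (.thr 1 61 (.thr 5 53 (.thr 13 9 (.thr 33 45 (.dbl 49 17 25))))) (.nv (.thr 20 23 (.thr 52 7 (.thr 4 36 (.thr 53 5 (.dbl 55 38 54))))) .nd)))) (.rp 33 (.str 22 (.nv (.thr 1 61 (.thr 5 53 (.thr 7 52 (.thr 6 4 (.thr 9 13 (.dbl 3 12 60)))))) (.nv (.thr 20 23 (.thr 52 7 (.thr 4 36 (.thr 53 5 (.dbl 55 38 54))))) (.rp 55 (.thr 5 53 (.thr 60 3 (.thr 52 7 (.thr 48 56 (.thr 15 26 (.thr 0 10 (.dbl 20 23 40))))))) (.rp 54 (.thr 5 53 (.thr 23 20 (.thr 7 52 (.thr 55 39 (.dbl 4 6 38))))) (.rp 53 (.thr 60 3 (.thr 52 7 (.thr 48 56 (.thr 20 23 (.thr 0 40 (.thr 16 32 (.dbl 26 15 31))))))) (.rp 52 (.thr 5 53 (.thr 60 3 (.thr 20 23 (.thr 0 40 (.thr 15 10 (.thr 30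 45 (.dbl 26 18 48))))))) (.rp 36 (.thr 5 53 (.thr 7 52 (.thr 4 6 (.thr 23 20 (.dbl 55 38 39))))) (.rp 20 (.thr 53 5 (.thr 60 3 (.thr 52 7 (.thr 54 55 (.thr 57 51 (.dbl 61 1 49)))))) (.rp 7 (.thr 5 53 (.thr 60 3 (.thr 20 23 (.thr 0 40 (.thr 15 10 (.thr 30 45 (.dbl 26 18 48))))))) (.rp 5 (.thr 60 3 (.thr 52 7 (.thr 48 56 (.thr 20 23 (.thr 0 40 (.thr 16 32 (.dbl 26 15 31))))))) (.rp 4 (.thr 5 53 (.thr 60 3 (.thr 52 7 (.thr 48 56 (.thr 20 23 (.thr 0 40 (.dbl 15 10 26))))))) .nd)))))))))))) (.rp 25 (.str 42 (.nv (.thr 0 63 (.thr 5 53 (.thr 15 10 (.thr 40 43 (.thr 45 33 (.dbl 60 20 30)))))) (.nv (.thr 0 63 (.thr 5 53 (.thr 15 10 (.thr 32 47 (.dbl 48 16 26))))) (.nv (.thr 40 43 (.thr 32 47 (.thr 44 36 (.thr 33 45 (.dbl 35 34 38))))) .nd)))) (.rp 22 (.str 42 (.nv (.thr 1 61 (.thr 5 53 (.thr 13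 9 (.thr 33 45 (.dbl 49 17 25))))) (.nv (.thr 0 63 (.thr 5 53 (.thr 15 10 (.thr 32 47 (.dbl 48 16 26))))) (.nv (.thr 40 43 (.thr 32 47 (.thr 44 36 (.thr 33 45 (.dbl 35 34 38))))) .nd)))) (.rp 17 (.thr 45 33 (.thr 53 5 (.thr 61 1 (.thr 49 57 (.dbl 13 25 29))))) (.rp 13 (.str 42 (.nv (.thr 0 63 (.thr 5 53 (.thr 15 10 (.thr 40 43 (.thr 45 33 (.dbl 60 20 30)))))) (.nv (.thr 0 63 (.thr 5 53 (.thr 15 10 (.thr 32 47 (.dbl 48 16 26))))) (.nv (.thr 43 40 (.thr 47 32 (.thr 35 39 (.thr 45 33 (.dbl 44 38 46))))) .nd)))) (.rp 5 (.str 42 (.nv (.thr 0 63 (.thr 32 47 (.thr 33 45 (.thr 48 16 (.thr 3 18 (.thr 60 22 (.dbl 40 20 43))))))) (.nv (.thr 0 63 (.thr 32 47 (.thr 40 43 (.thr 48 16 (.thr 60 20 (.thr 52 56 (.dbl 22 3 7))))))) (.nv (.thr 43 40 (.thr 47 32 (.thr 35 39 (.thr 45 33 (.dbl 44 38 46))))) (.rp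 47 (.thr 33 45 (.thr 63 0 (.thr 43 40 (.thr 3 23 (.thr 48 18 (.thr 58 53 (.dbl 26 10 15))))))) (.rp 43 (.thr 45 33 (.thr 63 0 (.thr 47 32 (.thr 46 44 (.thr 29 12 (.dbl 61 1 13)))))) (.rp 40 (.thr 33 45 (.thr 1 61 (.thr 17 49 (.thr 32 47 (.thr 34 35 (.dbl 0 51 63)))))) (.rp 32 (.thr 33 45 (.thr 63 0 (.thr 43 40 (.thr 3 23 (.thr 48 18 (.thr 58 53 (.dbl 26 10 15))))))) .nd)))))))) (.rp 1 (.thr 5 53 (.thr 33 45 (.str 22 (.nv (.thr 3 60 (.thr 48 18 (.thr 15 26 (.dbl 7 11 52)))) (.nv (.thr 3 60 (.thr 48 18 (.thr 15 26 (.thr 0 10 (.thr 32 16 (.dbl 42 47 63)))))) (.nv (.thr 23 20 (.thr 7 52 (.thr 55 39 (.dbl 4 6 38)))) (.rp 3 (.str 0 (.nv (.thr 15 10 (.thr 26 48 (.thr 31 16 (.dbl 63 42 47)))) (.nv (.thr 7 52 (.thr 4 6 (.thr 23 20 (.dbl 55 38 39)))) (.nv (.thr 20 23 (.thr 40 60 (.dbl 42 43 63)))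 .nd)))) .nd))))))) .nd))))))))))))))))

theorem w207 : WinAt (2199025352704, 4611686018427387908) :=
  chF (K := []) kn c207 2199025352704 4611686018427387908 62
    [4611690416478093316] (by decide +kernel) (by decide +kernel)

/-- A certificate. -/
noncomputable def c208 : Ct := (.str 37 (.nv (.thr 33 45 (.thr 5 53 (.thr 1 61 (.thr 13 9 (.dbl 49 17 25))))) (.nv (.thr 45 33 (.thr 53 5 (.thr 61 1 (.thr 49 57 (.dbl 13 25 29))))) (.rp 61 (.str 60 (.nv (.thr 5 53 (.thr 22 3 (.thr 45 33 (.thr 15 30 (.thr 0 10 (.dbl 20 23 40)))))) (.nv (.thr 22 3 (.thr 7 52 (.thr 23 20 (.thr 55 39 (.thr 4 38 (.dbl 5 6 53)))))) (.nv (.thr 45 33 (.thr 15 30 (.thr 48 26 (.thr 52 56 (.dbl 22 3 7))))) (.rp 22 (.thr 45 33 (.thr 5 53 (.thr 15 30 (.thr 0 10 (.thr 40 20 (.thr 42 43 (.thr 32 47 (.dbl 48 16 26))))))))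 (.rp 3 (.thr 45 33 (.thr 5 53 (.thr 15 30 (.thr 0 10 (.thr 40 20 (.thr 48 26 (.thr 32 16 (.dbl 42 43 47)))))))) .nd)))))) (.rp 57 (.thr 33 45 (.thr 5 53 (.thr 1 61 (.thr 49 17 (.dbl 13 9 25))))) (.rp 53 (.thr 33 45 (.str 48 (.nv (.thr 26 15 (.thr 56 11 (.thr 60 52 (.dbl 3 18 22)))) (.nv (.thr 3 18 (.thr 26 15 (.thr 60 22 (.dbl 56 11 52)))) (.nv (.thr 3 18 (.thr 15 26 (.thr 7 11 (.dbl 22 52 60)))) (.rp 60 (.thr 18 3 (.thr 26 15 (.thr 30 22 (.thr 31 16 (.thr 29 28 (.thr 25 17 (.thr 49 13 (.thr 51 50 (.thr 12 38 (.dbl 24 27 36)))))))))) (.rp 52 (.thr 1 61 (.thr 49 17 (.thr 13 25 (.thr 9 5 (.thr 3 18 (.thr 12 6 (.dbl 15 14 26))))))) (.rp 26 (.thr 3 18 (.thr 22 60 (.thr 52 7 (.thr 20 23 (.thr 36 4 (.thr 12 24 (.thr 6 9 (.dbl 38 39 54)))))))) (.rp 22 (.thr 1 61 (.thr 49 17 (.thr 13 25 (.thr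 9 5 (.thr 3 18 (.thr 12 6 (.dbl 15 14 26))))))) (.rp 18 (.thr 1 61 (.thr 49 17 (.thr 50 51 (.thr 26 15 (.thr 38 14 (.thr 39 36 (.thr 35 44 (.thr 47 43 (.dbl 32 34 42))))))))) (.rp 15 (.thr 1 61 (.thr 49 17 (.thr 13 25 (.thr 9 5 (.thr 3 18 (.thr 12 6 (.thr 36 24 (.thr 38 39 (.thr 44 35 (.dbl 60 22 28)))))))))) (.rp 11 (.thr 1 61 (.thr 49 17 (.thr 13 25 (.thr 9 5 (.thr 3 18 (.thr 12 6 (.dbl 15 14 26))))))) (.rp 3 (.thr 1 61 (.thr 49 17 (.thr 51 50 (.thr 15 26 (.thr 39 27 (.thr 38 36 (.dbl 25 12 13))))))) .nd))))))))))))) (.rp 49 (.str 60 (.nv (.thr 33 45 (.thr 3 22 (.thr 48 18 (.thr 26 15 (.dbl 56 11 52))))) (.nv (.thr 22 3 (.thr 7 52 (.thr 23 20 (.thr 55 39 (.thr 4 38 (.dbl 5 6 53)))))) (.nv (.thr 45 33 (.thr 15 30 (.thr 48 26 (.thr 52 56 (.dbl 22 3 7))))) (.rp 52 (.thr 45 33 (.thr 15 30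 (.thr 26 48 (.thr 11 56 (.dbl 3 7 22))))) (.rp 22 (.thr 45 33 (.thr 5 53 (.thr 15 30 (.thr 0 10 (.thr 40 20 (.thr 42 43 (.thr 32 47 (.dbl 48 16 26)))))))) (.rp 3 (.thr 45 33 (.thr 5 53 (.thr 15 30 (.thr 0 10 (.thr 40 20 (.thr 48 26 (.thr 32 16 (.dbl 42 43 47)))))))) .nd))))))) (.rp 45 (.thr 5 53 (.str 48 (.nv (.thr 1 61 (.thr 13 9 (.thr 26 15 (.thr 49 25 (.thr 33 17 (.thr 3 18 (.thr 60 22 (.dbl 56 11 52)))))))) (.nv (.thr 15 26 (.thr 0 10 (.thr 32 16 (.thr 42 47 (.thr 40 43 (.thr 60 20 (.thr 52 56 (.dbl 22 3 7)))))))) (.nv (.thr 1 61 (.thr 13 9 (.thr 15 26 (.thr 12 14 (.thr 36 24 (.thr 38 39 (.dbl 25 49 51))))))) (.rp 60 (.thr 15 26 (.thr 0 10 (.thr 32 16 (.thr 42 47 (.thr 40 43 (.thr 44 36 (.thr 35 38 (.thr 34 33 (.thr 17 51 (.thr 25 29 (.thr 13 49 (.dbl 1 9 61)))))))))))) (.rp 26 (.str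 4 (.nv (.thr 1 61 (.thr 13 9 (.thr 38 55 (.thr 36 39 (.thr 12 24 (.dbl 25 49 51)))))) (.nv (.thr 55 38 (.thr 7 6 (.thr 22 52 (.dbl 23 20 39)))) (.rp 55 (.thr 1 61 (.thr 13 9 (.thr 49 25 (.thr 33 17 (.thr 7 6 (.thr 3 18 (.dbl 22 52 60))))))) (.rp 52 (.thr 1 61 (.thr 13 9 (.thr 49 25 (.thr 33 17 (.thr 55 38 (.thr 7 6 (.thr 23 39 (.thr 22 20 (.dbl 3 18 60))))))))) (.rp 39 (.thr 1 61 (.thr 13 9 (.thr 49 25 (.thr 33 17 (.thr 7 6 (.thr 22 52 (.dbl 3 18 60))))))) (.rp 38 (.thr 1 61 (.thr 13 9 (.thr 49 25 (.thr 33 17 (.thr 7 6 (.thr 22 52 (.dbl 3 18 60))))))) (.rp 23 (.thr 38 55 (.thr 36 39 (.thr 7 6 (.dbl 52 20 22)))) (.rp 7 (.thr 1 61 (.thr 13 9 (.thr 49 25 (.thr 33 17 (.thr 38 55 (.thr 35 44 (.thr 51 50 (.dbl 3 18 19)))))))) .nd))))))))) (.rp 15 (.thr 1 61 (.thr 13 9 (.thr 49 25 (.thr 33 17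 (.thr 50 51 (.thr 3 18 (.thr 60 22 (.thr 56 52 (.thr 26 11 (.thr 38 14 (.thr 39 36 (.thr 35 44 (.thr 47 43 (.dbl 32 34 42)))))))))))))) .nd)))))))) (.rp 33 (.str 7 (.nv (.thr 1 61 (.thr 5 53 (.thr 6 4 (.thr 9 13 (.thr 3 12 (.dbl 22 52 60)))))) (.nv (.thr 22 52 (.thr 23 20 (.thr 55 39 (.thr 4 38 (.dbl 5 6 53))))) (.rp 53 (.thr 61 1 (.thr 22 52 (.thr 23 20 (.thr 55 39 (.thr 4 38 (.thr 6 5 (.thr 3 60 (.thr 15 11 (.thr 12 9 (.thr 13 14 (.thr 29 45 (.dbl 25 17 49)))))))))))) (.rp 52 (.thr 5 53 (.thr 1 61 (.thr 9 13 (.thr 6 4 (.thr 3 12 (.thr 15 11 (.thr 60 22 (.thr 0 10 (.thr 48 26 (.thr 32 16 (.thr 42 47 (.dbl 40 20 43)))))))))))) (.rp 22 (.thr 5 53 (.thr 1 61 (.thr 9 13 (.thr 57 25 (.thr 6 4 (.thr 3 12 (.thr 15 11 (.thr 0 10 (.thr 48 26 (.thr 32 16 (.thr 42 47 (.thr 40 43 (.thr 36 44 (.thr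 60 20 (.thr 39 38 (.dbl 51 27 54)))))))))))))))) (.rp 6 (.thr 53 5 (.thr 52 22 (.thr 55 54 (.thr 38 4 (.dbl 39 23 36))))) (.rp 5 (.thr 22 52 (.thr 23 20 (.thr 39 55 (.thr 3 60 (.thr 15 11 (.thr 51 27 (.thr 35 19 (.dbl 38 36 44)))))))) (.rp 4 (.thr 53 5 (.thr 61 1 (.thr 49 57 (.thr 22 52 (.thr 3 60 (.thr 15 11 (.thr 48 26 (.thr 51 50 (.thr 19 35 (.dbl 25 13 28)))))))))) .nd))))))))) (.rp 25 (.str 35 (.nv (.thr 5 53 (.thr 38 44 (.thr 4 55 (.thr 7 6 (.thr 36 39 (.dbl 52 20 22)))))) (.nv (.thr 33 45 (.thr 32 34 (.thr 38 44 (.thr 39 36 (.dbl 47 42 43))))) (.rp 44 (.thr 33 45 (.thr 53 5 (.thr 32 34 (.thr 47 42 (.thr 39 43 (.thr 38 36 (.thr 55 4 (.thr 52 54 (.dbl 7 22 23))))))))) (.rp 39 (.thr 33 45 (.thr 32 34 (.thr 42 47 (.thr 40 43 (.dbl 44 36 38))))) (.rp 38 (.thr 33 45 (.thr 1 61 (.thr 17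 49 (.thr 34 32 (.thr 51 0 (.thr 3 19 (.thr 48 18 (.thr 15 26 (.thr 7 11 (.dbl 22 52 60)))))))))) (.rp 36 (.thr 45 33 (.thr 44 38 (.thr 47 46 (.thr 43 39 (.dbl 42 32 40))))) .nd))))))) (.rp 13 (.str 7 (.nv (.thr 33 45 (.thr 22 52 (.thr 3 60 (.thr 15 11 (.dbl 48 18 26))))) (.nv (.thr 22 52 (.thr 23 20 (.thr 55 39 (.thr 4 38 (.dbl 5 6 53))))) (.rp 52 (.thr 5 53 (.thr 33 45 (.thr 4 6 (.thr 55 38 (.thr 23 39 (.thr 22 20 (.thr 3 60 (.thr 15 11 (.dbl 48 18 26))))))))) (.rp 22 (.thr 5 53 (.thr 45 33 (.thr 4 6 (.thr 38 55 (.thr 36 39 (.thr 44 35 (.thr 32 40 (.dbl 47 42 46)))))))) .nd))))) (.rp 9 (.thr 45 33 (.thr 53 5 (.thr 61 1 (.thr 13 29 (.dbl 49 25 57))))) (.rp 5 (.str 3 (.nv (.thr 33 45 (.thr 48 18 (.thr 26 15 (.thr 60 22 (.dbl 56 11 52))))) (.nv (.thr 45 33 (.thr 60 22 (.thr 15 30 (.thr 26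 48 (.dbl 11 7 56))))) (.nv (.thr 33 45 (.thr 48 18 (.thr 15 26 (.thr 7 11 (.dbl 22 52 60))))) (.rp 60 (.thr 33 45 (.thr 48 18 (.thr 15 26 (.thr 7 11 (.thr 22 52 (.thr 23 20 (.thr 39 55 (.thr 51 27 (.thr 35 19 (.dbl 38 36 44)))))))))) (.rp 48 (.thr 45 33 (.thr 61 1 (.thr 13 29 (.thr 49 25 (.thr 53 57 (.thr 22 60 (.thr 52 7 (.thr 20 23 (.thr 4 36 (.dbl 55 38 54)))))))))) (.rp 45 (.thr 22 60 (.thr 7 52 (.thr 15 11 (.thr 23 20 (.thr 39 55 (.thr 51 27 (.thr 35 19 (.dbl 38 36 44)))))))) (.rp 33 (.thr 22 60 (.thr 7 52 (.thr 15 11 (.thr 23 20 (.thr 39 55 (.thr 51 27 (.thr 35 19 (.dbl 38 36 44)))))))) (.rp 26 (.thr 22 60 (.thr 7 52 (.thr 15 11 (.thr 23 20 (.thr 39 55 (.thr 51 27 (.thr 35 19 (.dbl 38 36 44)))))))) (.rp 22 (.thr 33 45 (.thr 1 61 (.thr 49 17 (.thr 48 18 (.thr 50 51 (.thr 26 15 (.thr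 38 14 (.thr 35 44 (.thr 39 36 (.thr 47 43 (.dbl 32 34 42))))))))))) (.rp 15 (.thr 33 45 (.thr 1 61 (.thr 17 49 (.thr 18 48 (.thr 19 16 (.thr 51 35 (.thr 60 22 (.thr 57 54 (.dbl 25 9 29))))))))) (.rp 11 (.thr 33 45 (.thr 1 61 (.thr 17 49 (.thr 18 48 (.thr 16 19 (.thr 26 31 (.dbl 22 30 60))))))) .nd)))))))))))) (.rp 1 (.str 3 (.nv (.thr 22 60 (.thr 20 23 (.thr 52 7 (.thr 4 36 (.thr 53 5 (.dbl 55 38 54)))))) (.nv (.thr 33 45 (.thr 48 18 (.thr 15 26 (.thr 7 11 (.dbl 22 52 60))))) (.rp 60 (.thr 33 45 (.thr 5 53 (.thr 48 18 (.thr 15 26 (.thr 7 11 (.thr 4 6 (.thr 55 38 (.thr 23 39 (.dbl 22 20 52))))))))) (.rp 52 (.thr 45 33 (.thr 60 22 (.thr 15 30 (.thr 11 7 (.dbl 26 48 56))))) (.rp 22 (.str 42 (.nv (.thr 32 47 (.thr 33 45 (.thr 48 18 (.thr 16 0 (.dbl 26 15 31))))) (.nv (.thr 43 40 (.thr 47 32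 (.thr 35 39 (.thr 45 33 (.dbl 44 38 46))))) (.rp 47 (.thr 33 45 (.thr 43 40 (.thr 48 18 (.thr 26 15 (.thr 31 16 (.thr 10 58 (.thr 11 56 (.thr 59 27 (.dbl 8 9 25))))))))) (.rp 46 (.thr 33 45 (.thr 40 43 (.thr 32 47 (.thr 44 36 (.dbl 35 34 38))))) (.rp 45 (.thr 32 47 (.thr 40 43 (.thr 44 36 (.thr 35 38 (.thr 51 19 (.thr 33 34 (.thr 48 18 (.thr 50 49 (.thr 16 0 (.dbl 26 15 31)))))))))) (.rp 44 (.thr 33 45 (.thr 43 40 (.thr 48 18 (.thr 26 15 (.thr 10 58 (.thr 11 56 (.thr 59 27 (.dbl 8 9 25)))))))) (.rp 33 (.str 17 (.nv (.thr 43 40 (.thr 47 32 (.thr 35 39 (.thr 51 19 (.thr 34 0 (.dbl 38 44 46)))))) (.nv (.thr 25 29 (.thr 8 59 (.thr 9 57 (.thr 11 10 (.thr 15 7 (.dbl 26 48 56)))))) (.nv (.thr 43 40 (.thr 47 32 (.thr 35 39 (.thr 51 19 (.thr 25 29 (.dbl 38 12 44)))))) (.rp 51 (.thr 25 29 (.thr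 57 9 (.thr 59 8 (.thr 43 40 (.thr 11 27 (.dbl 56 26 58)))))) (.rp 46 (.thr 47 32 (.thr 43 40 (.thr 35 39 (.thr 51 19 (.thr 25 29 (.thr 12 38 (.dbl 9 6 57))))))) (.rp 25 (.thr 47 32 (.thr 43 40 (.thr 35 39 (.thr 19 51 (.thr 16 18 (.thr 26 31 (.thr 15 48 (.dbl 11 7 56)))))))) .nd))))))) (.rp 32 (.thr 33 45 (.thr 43 40 (.thr 48 18 (.thr 26 15 (.thr 10 58 (.thr 11 56 (.thr 59 27 (.dbl 8 9 25)))))))) .nd))))))))) (.rp 7 (.thr 33 45 (.thr 48 18 (.thr 26 15 (.thr 56 11 (.dbl 60 22 52))))) .nd))))))) .nd))))))))))))))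

theorem w208 : WinAt (2199025352704, 9223372036854775812) :=
  chF (K := []) kn c208 2199025352704 9223372036854775812 63
    [] (by decide +kernel) (by decide +kernel)

/-- A certificate. -/
noncomputable def c209 : Ct := (.str 22 (.nv (.thr 20 23 (.thr 18 30 (.thr 16 31 (.thr 28 24 (.dbl 19 17 25))))) (.rp 31 (.str 48 (.nv (.thr 18 30 (.thr 3 33 (.thr 23 20 (.thr 37 15 (.thr 63 43 (.dbl 53 5 58)))))) (.nv (.thr 20 23 (.thr 37 15 (.thr 52 7 (.thr 4 36 (.thr 55 38 (.dbl 53 5 54)))))) (.nv (.thr 15 37 (.thr 30 18 (.thr 60 45 (.thr 56 52 (.dbl 41 3 11))))) (.rp 37 (.thr 18 30 (.thr 23 20 (.thr 3 33 (.thr 63 43 (.thr 58 53 (.thr 42 10 (.thr 2 62 (.thr 50 34 (.thr 51 49 (.thr 55 59 (.dbl 38 4 14))))))))))) (.rp 15 (.thr 18 30 (.thr 23 20 (.thr 3 33 (.thr 63 43 (.thr 58 53 (.thr 60 41 (.thr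 62 61 (.dbl 42 2 10)))))))) (.rp 3 (.thr 30 18 (.thr 20 23 (.thr 15 37 (.thr 60 45 (.thr 52 56 (.thr 4 36 (.thr 38 55 (.thr 14 50 (.thr 12 13 (.thr 25 51 (.dbl 28 19 44))))))))))) .nd))))))) (.rp 30 (.str 37 (.nv (.thr 7 52 (.thr 15 48 (.thr 3 11 (.thr 23 20 (.thr 63 43 (.dbl 31 16 47)))))) (.nv (.thr 20 23 (.thr 52 7 (.thr 4 36 (.thr 55 38 (.dbl 53 5 54))))) (.rp 52 (.thr 20 23 (.thr 16 31 (.thr 28 24 (.thr 19 25 (.thr 18 17 (.thr 48 15 (.thr 3 33 (.thr 51 35 (.thr 49 50 (.thr 60 41 (.thr 57 54 (.dbl 53 5 61)))))))))))) (.rp 36 (.thr 23 20 (.thr 48 15 (.thr 52 7 (.thr 60 56 (.thr 3 41 (.thr 63 43 (.dbl 53 5 58))))))) (.rp 23 (.thr 16 31 (.thr 48 15 (.thr 52 7 (.thr 60 56 (.thr 3 41 (.thr 18 33 (.thr 19 17 (.thr 28 25 (.thr 24 20 (.dbl 12 36 44)))))))))) (.rp 20 (.thr 16 31 (.thr 48 15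 (.thr 52 7 (.thr 60 56 (.thr 3 41 (.thr 18 33 (.thr 19 17 (.thr 51 35 (.thr 49 50 (.dbl 25 13 28)))))))))) (.rp 7 (.thr 20 23 (.thr 16 31 (.thr 28 24 (.thr 19 25 (.thr 18 17 (.thr 48 15 (.thr 3 33 (.thr 51 35 (.thr 49 50 (.thr 60 41 (.thr 57 54 (.dbl 53 5 61)))))))))))) (.rp 4 (.thr 20 23 (.thr 16 31 (.thr 28 24 (.thr 19 25 (.thr 18 17 (.thr 48 15 (.thr 3 33 (.thr 60 41 (.dbl 52 7 56))))))))) .nd))))))))) (.rp 28 (.str 3 (.nv (.thr 18 30 (.thr 23 20 (.thr 48 33 (.thr 37 15 (.thr 63 43 (.dbl 53 5 58)))))) (.nv (.thr 31 16 (.thr 41 60 (.thr 11 56 (.thr 15 7 (.thr 63 47 (.dbl 23 20 43)))))) (.nv (.thr 30 18 (.thr 60 41 (.thr 15 45 (.thr 7 11 (.dbl 37 48 52))))) (.rp 60 (.thr 18 30 (.thr 31 16 (.thr 48 33 (.thr 15 37 (.thr 63 47 (.dbl 23 20 43)))))) (.rp 48 (.thr 23 20 (.thr 30 18 (.thr 63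 43 (.thr 60 41 (.thr 15 45 (.dbl 31 16 47)))))) (.rp 15 (.thr 23 20 (.thr 43 63 (.thr 41 60 (.thr 40 42 (.thr 11 56 (.thr 27 59 (.dbl 31 16 19))))))) .nd))))))) (.rp 27 (.thr 20 23 (.thr 18 30 (.thr 16 31 (.thr 19 17 (.dbl 28 24 25))))) (.rp 25 (.str 3 (.nv (.thr 16 31 (.thr 18 30 (.thr 17 19 (.thr 33 48 (.thr 1 49 (.dbl 41 60 61)))))) (.nv (.thr 18 30 (.thr 41 60 (.thr 11 56 (.thr 48 33 (.dbl 15 7 37))))) (.rp 60 (.thr 18 30 (.thr 31 16 (.thr 48 33 (.thr 15 37 (.thr 63 47 (.dbl 23 20 43)))))) (.rp 48 (.thr 23 20 (.thr 30 18 (.thr 63 43 (.thr 60 41 (.thr 15 45 (.dbl 31 16 47)))))) (.rp 41 (.thr 23 20 (.thr 18 30 (.thr 31 16 (.thr 48 33 (.thr 63 43 (.dbl 15 37 47)))))) (.rp 37 (.thr 23 20 (.thr 30 18 (.thr 31 16 (.thr 63 43 (.thr 15 47 (.dbl 60 41 45)))))) (.rp 33 (.thr 30 18 (.thr 60 41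 (.thr 15 45 (.thr 37 48 (.dbl 7 11 52))))) (.rp 30 (.thr 23 20 (.thr 31 16 (.thr 27 19 (.thr 43 63 (.thr 11 59 (.dbl 41 56 60)))))) (.rp 18 (.thr 23 20 (.thr 31 16 (.thr 63 43 (.thr 15 47 (.thr 7 11 (.dbl 37 48 52)))))) .nd)))))))))) (.rp 24 (.thr 23 20 (.thr 30 18 (.thr 31 16 (.thr 28 29 (.dbl 19 25 27))))) (.rp 23 (.str 60 (.nv (.thr 30 18 (.thr 15 45 (.thr 31 16 (.thr 29 28 (.thr 63 47 (.thr 62 61 (.dbl 46 12 14))))))) (.nv (.thr 30 18 (.thr 15 45 (.thr 48 37 (.thr 56 52 (.dbl 41 3 11))))) (.rp 48 (.thr 30 18 (.thr 45 15 (.thr 41 3 (.thr 33 37 (.thr 1 61 (.thr 17 49 (.thr 25 29 (.thr 28 19 (.thr 12 44 (.thr 51 38 (.dbl 57 9 54))))))))))) (.rp 45 (.thr 18 30 (.thr 3 41 (.thr 48 33 (.thr 37 15 (.dbl 52 7 56))))) (.rp 30 (.thr 31 16 (.thr 41 3 (.thr 56 11 (.thr 48 52 (.thr 15 37 (.thr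 63 47 (.dbl 61 1 62))))))) (.rp 18 (.thr 31 16 (.thr 41 3 (.thr 56 11 (.thr 48 52 (.thr 15 37 (.thr 63 47 (.dbl 61 1 62))))))) (.rp 15 (.thr 18 30 (.thr 16 31 (.thr 19 17 (.thr 28 25 (.thr 24 20 (.thr 12 44 (.thr 48 36 (.dbl 3 33 41)))))))) .nd)))))))) (.rp 20 (.str 60 (.nv (.thr 30 18 (.thr 15 45 (.thr 31 16 (.thr 63 47 (.thr 61 62 (.dbl 41 1 3)))))) (.nv (.thr 30 18 (.thr 15 45 (.thr 3 41 (.thr 7 11 (.dbl 37 48 52))))) (.rp 48 (.thr 30 18 (.thr 45 15 (.thr 41 3 (.thr 33 37 (.thr 1 61 (.thr 17 49 (.thr 25 29 (.thr 28 19 (.thr 12 44 (.thr 51 38 (.dbl 57 9 54))))))))))) (.rp 45 (.thr 18 30 (.thr 3 41 (.thr 48 33 (.thr 37 15 (.dbl 52 7 56))))) (.rp 41 (.thr 30 18 (.thr 31 16 (.thr 15 45 (.thr 63 47 (.thr 62 61 (.thr 46 14 (.dbl 29 12 28))))))) (.rp 30 (.thr 31 16 (.thr 41 3 (.thr 56 11 (.thr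 48 52 (.thr 15 37 (.thr 63 47 (.dbl 61 1 62))))))) (.rp 18 (.thr 31 16 (.thr 41 3 (.thr 56 11 (.thr 48 52 (.thr 15 37 (.thr 63 47 (.dbl 61 1 62))))))) (.rp 15 (.thr 18 30 (.thr 16 31 (.thr 19 17 (.thr 3 41 (.thr 51 35 (.thr 54 57 (.thr 48 33 (.thr 52 56 (.thr 53 55 (.dbl 37 5 7)))))))))) (.rp 3 (.thr 30 18 (.thr 31 16 (.thr 15 45 (.thr 63 47 (.thr 62 61 (.thr 46 14 (.dbl 29 12 28))))))) .nd)))))))))) (.rp 19 (.str 3 (.nv (.thr 23 20 (.thr 31 16 (.thr 63 43 (.thr 15 47 (.thr 11 7 (.dbl 41 56 60)))))) (.nv (.thr 18 30 (.thr 23 20 (.thr 31 16 (.thr 48 33 (.thr 63 43 (.dbl 15 37 47)))))) (.nv (.thr 18 30 (.thr 48 33 (.thr 60 41 (.thr 52 56 (.dbl 37 7 15))))) (.rp 60 (.thr 18 30 (.thr 31 16 (.thr 48 33 (.thr 15 37 (.thr 63 47 (.dbl 23 20 43)))))) (.rp 48 (.thr 23 20 (.thr 30 18 (.thr 63 43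 (.thr 60 41 (.thr 15 45 (.dbl 31 16 47)))))) (.rp 18 (.thr 23 20 (.thr 43 63 (.thr 41 60 (.thr 40 42 (.thr 61 1 (.thr 11 56 (.thr 7 15 (.thr 27 59 (.thr 25 24 (.thr 57 9 (.thr 53 49 (.dbl 37 5 52)))))))))))) (.rp 15 (.thr 23 20 (.thr 18 30 (.thr 48 33 (.thr 63 43 (.thr 53 58 (.thr 60 41 (.thr 52 56 (.dbl 37 5 7)))))))) .nd)))))))) (.rp 18 (.thr 20 23 (.str 37 (.nv (.thr 16 31 (.thr 24 28 (.thr 48 15 (.thr 36 12 (.dbl 52 4 7))))) (.nv (.thr 52 7 (.thr 4 36 (.thr 55 38 (.dbl 53 5 54)))) (.rp 52 (.str 1 (.nv (.thr 5 53 (.thr 13 9 (.thr 16 31 (.thr 28 24 (.dbl 25 19 49))))) (.nv (.thr 53 5 (.thr 61 41 (.thr 49 57 (.thr 25 13 (.dbl 17 29 33))))) (.nv (.thr 5 53 (.thr 13 9 (.thr 25 49 (.thr 61 41 (.dbl 29 17 45))))) (.rp 53 (.thr 16 31 (.thr 24 28 (.thr 41 61 (.thr 33 45 (.thr 49 17 (.dbl 25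 13 27)))))) (.rp 49 (.thr 16 31 (.thr 24 28 (.thr 5 53 (.thr 13 9 (.thr 61 41 (.thr 29 45 (.dbl 25 17 27))))))) (.rp 25 (.thr 16 31 (.thr 28 24 (.thr 15 48 (.thr 5 53 (.thr 13 9 (.thr 12 14 (.thr 60 44 (.dbl 41 3 61)))))))) (.rp 13 (.thr 16 31 (.thr 24 28 (.thr 53 5 (.thr 61 41 (.thr 49 57 (.thr 17 33 (.dbl 25 27 29))))))) (.rp 5 (.thr 16 31 (.thr 24 28 (.thr 41 61 (.thr 33 45 (.thr 17 49 (.dbl 25 27 29)))))) .nd))))))))) (.rp 36 (.thr 16 31 (.thr 15 48 (.thr 7 52 (.thr 3 11 (.thr 60 41 (.thr 28 24 (.thr 12 44 (.thr 13 14 (.dbl 25 19 49))))))))) (.rp 7 (.thr 16 31 (.thr 24 28 (.thr 48 15 (.thr 36 12 (.thr 4 52 (.dbl 38 39 55)))))) (.rp 5 (.thr 16 31 (.thr 28 24 (.thr 15 48 (.thr 7 52 (.thr 3 11 (.thr 60 41 (.thr 12 44 (.thr 13 14 (.dbl 25 19 49))))))))) (.rp 4 (.thr 16 31 (.thr 28 24 (.thr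 15 48 (.thr 7 52 (.thr 3 11 (.thr 60 41 (.thr 12 44 (.thr 13 14 (.dbl 25 19 49))))))))) .nd))))))))) (.rp 17 (.thr 23 20 (.thr 30 18 (.thr 31 16 (.thr 19 27 (.dbl 28 25 29))))) (.rp 16 (.str 48 (.nv (.thr 18 30 (.thr 3 33 (.thr 23 20 (.thr 37 15 (.thr 63 43 (.dbl 53 5 58)))))) (.nv (.thr 20 23 (.thr 37 15 (.thr 52 7 (.thr 4 36 (.thr 55 38 (.dbl 53 5 54)))))) (.nv (.thr 18 30 (.thr 3 33 (.thr 60 41 (.thr 52 56 (.dbl 37 7 15))))) (.rp 37 (.thr 18 30 (.thr 23 20 (.thr 3 33 (.thr 43 63 (.thr 41 60 (.thr 40 42 (.thr 11 56 (.thr 27 59 (.thr 19 31 (.dbl 25 24 28)))))))))) (.rp 15 (.thr 18 30 (.thr 23 20 (.thr 3 33 (.thr 63 43 (.thr 58 53 (.thr 60 41 (.thr 62 61 (.dbl 42 2 10)))))))) (.rp 3 (.thr 30 18 (.thr 20 23 (.thr 15 37 (.thr 60 45 (.thr 52 56 (.thr 36 4 (.thr 12 24 (.thr 28 44 (.thr 29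 31 (.dbl 25 17 19)))))))))) .nd))))))) .nd))))))))))))))

theorem w209 : WinAt (69206016, 65) :=
  chF (K := []) kn c209 69206016 65 0
    [] (by decide +kernel) (by decide +kernel)

/-- A certificate. -/
noncomputable def c210 : Ct := (.str 15 (.nv (.thr 63 47 (.thr 0 42 (.thr 37 48 (.dbl 5 10 53)))) (.nv (.thr 63 47 (.thr 48 37 (.thr 58 53 (.dbl 42 0 10)))) (.rp 63 (.str 14 (.nv (.thr 12 13 (.thr 38 50 (.thr 4 55 (.thr 0 8 (.thr 5 10 (.dbl 37 48 53)))))) (.nv (.thr 12 13 (.thr 48 37 (.thr 24 36 (.thr 25 27 (.dbl 38 50 51))))) (.rp 51 (.thr 13 12 (.thr 37 48 (.thr 50 38 (.thr 25 49 (.thr 29 17 (.thr 30 28 (.dbl 45 60 61))))))) (.rp 50 (.thr 13 12 (.thr 37 48 (.thr 49 25 (.thr 53 5 (.thr 61 57 (.thr 41 1 (.dbl 45 29 33))))))) (.rp 48 (.thr 12 13 (.thr 38 50 (.thr 51 25 (.thr 4 55 (.thr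 0 8 (.thr 10 5 (.thr 34 17 (.dbl 42 46 58)))))))) (.rp 38 (.thr 13 12 (.thr 37 48 (.thr 25 49 (.thr 29 17 (.thr 30 28 (.dbl 45 60 61)))))) (.rp 37 (.thr 12 13 (.thr 38 50 (.thr 25 51 (.thr 27 24 (.thr 19 23 (.thr 28 22 (.dbl 29 17 30))))))) (.rp 13 (.thr 38 50 (.thr 55 4 (.thr 37 48 (.thr 39 36 (.thr 7 23 (.thr 52 22 (.dbl 53 5 54))))))) (.rp 12 (.thr 38 50 (.thr 4 55 (.thr 37 48 (.thr 53 5 (.thr 36 39 (.thr 20 52 (.thr 23 22 (.thr 27 19 (.thr 25 24 (.thr 49 13 (.thr 61 57 (.thr 1 41 (.dbl 17 29 33))))))))))))) .nd)))))))))) (.rp 53 (.str 14 (.nv (.thr 12 13 (.thr 48 37 (.thr 24 36 (.thr 25 27 (.thr 63 47 (.dbl 29 17 46)))))) (.nv (.thr 12 13 (.thr 38 50 (.thr 4 55 (.thr 0 8 (.dbl 63 42 47))))) (.nv (.thr 12 13 (.thr 38 50 (.thr 25 51 (.thr 48 37 (.dbl 24 27 36))))) (.rp 38 (.thr 12 13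 (.thr 63 47 (.thr 29 46 (.thr 25 17 (.thr 24 27 (.dbl 48 36 37)))))) (.rp 13 (.thr 38 50 (.thr 55 4 (.thr 63 47 (.thr 51 59 (.thr 25 12 (.dbl 27 24 39)))))) (.rp 12 (.thr 38 50 (.thr 55 4 (.thr 63 47 (.thr 51 59 (.thr 39 27 (.dbl 37 36 48)))))) .nd))))))) (.rp 48 (.str 0 (.nv (.thr 10 5 (.dbl 42 58 63)) (.nv (.dbl 63 42 47) (.rp 63 (.thr 10 5 (.thr 58 42 (.str 22 (.nv (.thr 23 20 (.thr 27 19 (.thr 51 39 (.thr 17 34 (.dbl 25 24 29))))) (.nv (.thr 20 23 (.thr 60 40 (.dbl 30 18 45))) (.rp 23 (.thr 30 18 (.thr 28 29 (.thr 60 45 (.thr 12 44 (.thr 4 8 (.thr 38 55 (.dbl 25 19 51))))))) (.rp 20 (.thr 30 18 (.thr 28 29 (.thr 19 25 (.thr 27 23 (.thr 51 39 (.thr 3 35 (.dbl 60 41 45))))))) (.rp 18 (.thr 20 23 (.thr 60 40 (.thr 30 45 (.thr 28 29 (.thr 12 44 (.thr 4 8 (.thr 38 55 (.dbl 25 19 51))))))))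 (.rp 7 (.str 4 (.nv (.thr 20 23 (.thr 60 40 (.dbl 30 18 45))) (.nv (.thr 12 8 (.thr 14 13 (.dbl 38 50 55))) (.rp 55 (.thr 30 18 (.thr 60 45 (.dbl 20 23 40))) .nd)))) (.rp 4 (.str 7 (.nv (.thr 3 11 (.thr 30 18 (.dbl 60 41 45))) (.nv (.thr 23 20 (.thr 27 19 (.dbl 39 51 55))) (.nv (.thr 3 11 (.thr 20 23 (.dbl 60 40 41))) .nd)))) .nd)))))))))) (.rp 42 (.str 22 (.nv (.thr 30 18 (.thr 60 45 (.thr 63 47 (.thr 61 62 (.dbl 41 1 3))))) (.nv (.thr 23 20 (.thr 27 19 (.thr 51 39 (.thr 17 34 (.dbl 25 24 29))))) (.nv (.thr 20 23 (.thr 60 40 (.dbl 30 18 45))) (.rp 18 (.thr 23 20 (.thr 63 47 (.thr 3 43 (.thr 11 7 (.dbl 41 56 60))))) (.rp 14 (.thr 10 5 (.thr 30 18 (.thr 20 23 (.dbl 60 40 45)))) (.rp 10 (.str 14 (.nv (.thr 12 13 (.thr 4 8 (.dbl 38 50 55))) (.nv (.thr 20 23 (.thr 60 40 (.dbl 30 18 45))) .nd)))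 .nd))))))) (.rp 10 (.str 14 (.nv (.thr 12 13 (.thr 4 8 (.dbl 38 50 55))) (.nv (.dbl 63 42 47) .nd))) .nd)))))) (.rp 47 (.str 14 (.nv (.thr 12 13 (.thr 48 37 (.thr 24 36 (.thr 25 27 (.dbl 38 50 51))))) (.nv (.thr 12 13 (.thr 38 50 (.thr 4 55 (.thr 0 8 (.thr 10 5 (.dbl 42 58 63)))))) (.nv (.thr 12 13 (.thr 38 50 (.thr 25 51 (.thr 24 27 (.dbl 48 36 37))))) (.rp 50 (.thr 12 13 (.thr 48 37 (.thr 24 36 (.thr 25 27 (.thr 29 17 (.thr 30 28 (.dbl 46 62 63))))))) (.rp 38 (.thr 13 12 (.thr 37 48 (.thr 25 49 (.thr 29 17 (.thr 30 28 (.dbl 45 60 61)))))) (.rp 13 (.thr 38 50 (.thr 55 4 (.thr 37 48 (.thr 5 53 (.thr 39 36 (.thr 23 7 (.dbl 27 19 51))))))) (.rp 12 (.thr 38 50 (.thr 55 4 (.thr 37 48 (.thr 5 53 (.thr 0 10 (.thr 63 42 (.thr 51 59 (.dbl 39 27 36)))))))) .nd)))))))) (.rp 42 (.str 22 (.nv (.thr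 23 20 (.thr 37 48 (.thr 7 52 (.thr 3 11 (.dbl 63 43 47))))) (.nv (.thr 18 30 (.thr 48 37 (.thr 3 33 (.thr 11 7 (.dbl 41 56 60))))) (.nv (.thr 30 18 (.thr 23 20 (.thr 28 29 (.dbl 19 25 27)))) (.rp 14 (.str 10 (.nv (.thr 23 20 (.thr 19 27 (.thr 28 25 (.dbl 30 18 29)))) (.nv (.thr 37 48 (.dbl 5 0 53)) .nd))) (.rp 10 (.str 14 (.nv (.thr 12 13 (.thr 63 47 (.thr 29 46 (.dbl 30 18 28)))) (.nv (.thr 12 13 (.thr 48 37 (.thr 24 36 (.thr 25 27 (.dbl 38 50 51))))) (.nv (.thr 30 18 (.thr 23 20 (.thr 28 29 (.dbl 19 25 27)))) .nd)))) .nd)))))) (.rp 37 (.str 14 (.nv (.thr 38 50 (.thr 55 4 (.thr 63 47 (.thr 51 59 (.thr 25 12 (.dbl 27 24 39)))))) (.nv (.thr 12 13 (.thr 63 47 (.thr 29 46 (.thr 25 17 (.thr 27 24 (.dbl 51 38 39)))))) (.nv (.thr 12 13 (.thr 38 50 (.thr 25 51 (.thr 27 24 (.thr 19 23 (.thr 28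 22 (.dbl 29 17 30))))))) (.nv (.thr 12 13 (.thr 38 50 (.thr 4 55 (.thr 0 8 (.dbl 63 42 47))))) (.rp 42 (.thr 12 13 (.thr 38 50 (.thr 25 51 (.thr 29 17 (.dbl 63 46 47))))) (.rp 38 (.thr 12 13 (.thr 63 47 (.thr 29 46 (.thr 28 30 (.thr 25 17 (.thr 27 24 (.dbl 19 22 23))))))) (.rp 25 (.thr 50 38 (.thr 63 47 (.thr 42 0 (.thr 58 10 (.thr 48 53 (.thr 12 13 (.thr 49 51 (.thr 46 29 (.dbl 62 30 54))))))))) (.rp 18 (.thr 12 13 (.thr 63 47 (.thr 42 0 (.thr 46 29 (.dbl 38 34 50))))) (.rp 12 (.thr 38 50 (.thr 55 4 (.thr 63 47 (.thr 51 59 (.thr 27 39 (.thr 25 24 (.thr 17 29 (.dbl 0 34 42)))))))) .nd)))))))))) (.rp 14 (.str 10 (.nv (.thr 42 58 (.thr 47 63 (.dbl 37 32 48))) (.nv (.thr 5 0 (.dbl 37 48 53)) (.nv (.thr 63 47 (.dbl 0 5 42)) .nd)))) (.rp 10 (.str 14 (.nv (.thr 12 13 (.thr 48 37 (.thr 24 36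 (.thr 25 27 (.dbl 38 50 51))))) (.nv (.thr 12 13 (.thr 38 50 (.thr 4 55 (.thr 63 47 (.dbl 0 8 42))))) (.rp 50 (.thr 12 13 (.thr 63 47 (.thr 29 46 (.thr 25 17 (.thr 27 24 (.dbl 51 38 39)))))) (.rp 38 (.thr 12 13 (.thr 63 47 (.thr 29 46 (.thr 25 17 (.thr 24 27 (.dbl 48 36 37)))))) (.rp 13 (.thr 38 50 (.thr 55 4 (.thr 63 47 (.thr 51 59 (.thr 25 12 (.dbl 27 24 39)))))) (.rp 12 (.thr 38 50 (.thr 55 4 (.thr 63 47 (.thr 51 59 (.thr 39 27 (.dbl 37 36 48)))))) .nd))))))) (.rp 0 (.thr 48 37 (.str 14 (.nv (.thr 12 13 (.thr 24 36 (.thr 25 27 (.thr 63 47 (.dbl 29 17 46))))) (.nv (.thr 38 50 (.thr 12 13 (.thr 25 51 (.thr 63 47 (.dbl 29 17 46))))) (.nv (.thr 12 13 (.thr 24 36 (.thr 25 27 (.dbl 38 50 51)))) (.rp 38 (.thr 12 13 (.thr 63 47 (.thr 29 46 (.thr 25 17 (.dbl 24 27 36))))) (.rp 25 (.thr 50 38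 (.thr 12 13 (.thr 49 51 (.thr 63 47 (.thr 58 53 (.thr 46 29 (.dbl 62 30 54))))))) (.rp 13 (.thr 38 50 (.thr 55 4 (.thr 63 47 (.thr 51 59 (.thr 27 39 (.dbl 25 12 24)))))) (.rp 12 (.thr 50 38 (.thr 51 49 (.thr 63 47 (.thr 59 55 (.thr 58 53 (.thr 54 62 (.dbl 57 56 60))))))) (.rp 3 (.str 1 (.nv (.thr 61 41 (.thr 63 47 (.thr 60 62 (.thr 45 30 (.dbl 13 12 29))))) (.nv (.thr 12 13 (.thr 24 36 (.thr 25 27 (.dbl 38 50 51)))) (.rp 13 (.thr 50 38 (.thr 49 51 (.thr 63 47 (.thr 53 58 (.dbl 61 41 57))))) (.rp 12 (.str 9 (.nv (.thr 41 61 (.thr 25 57 (.thr 27 24 (.thr 50 38 (.dbl 51 39 49))))) (.nv (.thr 13 5 (.thr 61 41 (.thr 45 29 (.thr 60 30 (.dbl 63 47 62))))) (.nv (.thr 41 61 (.thr 11 56 (.thr 63 47 (.thr 58 53 (.dbl 10 8 42))))) (.rp 61 (.thr 50 38 (.thr 51 49 (.thr 63 47 (.thr 59 55 (.thr 58 53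 (.thr 57 56 (.dbl 54 60 62))))))) (.rp 41 (.thr 50 38 (.thr 51 49 (.thr 63 47 (.thr 59 55 (.thr 58 53 (.thr 54 62 (.dbl 57 56 60))))))) (.rp 8 (.str 4 (.nv (.dbl 38 50 55) (.rp 55 (.thr 13 5 (.thr 63 47 (.thr 61 41 (.thr 60 62 (.dbl 45 29 30))))) (.rp 50 (.thr 13 5 (.thr 63 47 (.thr 61 41 (.thr 60 62 (.dbl 45 29 30))))) (.rp 38 (.thr 13 5 (.thr 63 47 (.thr 61 41 (.thr 60 62 (.dbl 45 29 30))))) .nd))))) (.rp 4 (.str 8 (.nv (.thr 5 13 (.thr 10 11 (.thr 58 42 (.dbl 63 47 53)))) (.nv (.thr 11 10 (.dbl 41 56 61)) (.rp 11 (.thr 50 38 (.thr 63 47 (.thr 53 58 (.thr 61 41 (.dbl 49 51 57))))) (.rp 10 (.thr 41 61 (.thr 25 57 (.thr 24 27 (.dbl 56 11 40)))) (.rp 5 (.str 7 (.nv (.thr 10 11 (.thr 58 42 (.dbl 63 47 53))) (.nv (.thr 11 10 (.dbl 41 56 61)) (.rp 11 (.thr 50 38 (.thr 51 49 (.thr 39 27 (.thr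 55 23 (.dbl 63 47 59))))) (.rp 10 (.thr 41 61 (.thr 25 57 (.thr 24 27 (.dbl 56 11 40)))) .nd))))) .nd)))))) .nd)))))))) .nd))))) (.rp 1 (.str 3 (.nv (.thr 11 7 (.thr 41 56 (.thr 22 60 (.dbl 18 30 33)))) (.nv (.thr 12 13 (.thr 24 36 (.thr 25 27 (.dbl 38 50 51)))) (.rp 5 (.thr 50 38 (.thr 51 49 (.thr 19 35 (.dbl 27 23 39)))) .nd)))) .nd))))))))))) .nd))))))))))))

theorem w210 : WinAt (2216689664, 65604) :=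
  chF (K := []) kn c210 2216689664 65604 16
    [17476] (by decide +kernel) (by decide +kernel)

/-- A certificate. -/
noncomputable def c211 : Ct := (.str 25 (.nv (.thr 24 27 (.thr 17 29 (.thr 28 20 (.dbl 19 18 22)))) (.rp 29 (.str 12 (.nv (.thr 38 51 (.thr 4 55 (.thr 0 8 (.thr 14 50 (.thr 15 13 (.dbl 48 32 37)))))) (.nv (.thr 24 27 (.thr 48 36 (.thr 0 32 (.thr 8 4 (.dbl 42 59 63))))) (.nv (.thr 24 27 (.thr 48 36 (.thr 15 37 (.thr 38 51 (.dbl 14 13 50))))) (.rp 48 (.thr 24 27 (.thr 38 51 (.thr 4 55 (.thr 8 0 (.thr 56 40 (.thr 11 41 (.thr 10 9 (.dbl 42 58 59)))))))) (.rp 30 (.str 28 (.nv (.dbl 24 20 27) (.rp 27 (.thr 20 24 (.dbl 22 19 23)) (.rp 24 (.thr 38 51 (.thr 4 55 (.thr 0 8 (.thr 48 32 (.thr 15 37 (.dbl 14 13 50)))))) (.rp 20 (.thr 24 27 (.thr 48 36 (.thr 15 37 (.thr 14 13 (.dbl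 38 50 51))))) .nd))))) (.rp 28 (.str 30 (.nv (.thr 18 22 (.thr 38 51 (.thr 4 55 (.thr 0 8 (.thr 14 50 (.thr 15 13 (.dbl 48 32 37))))))) (.nv (.thr 24 27 (.thr 48 36 (.thr 0 32 (.thr 8 4 (.dbl 42 59 63))))) (.nv (.thr 24 27 (.thr 48 36 (.thr 15 37 (.thr 38 51 (.dbl 14 13 50))))) (.rp 48 (.thr 24 27 (.thr 38 51 (.thr 4 55 (.thr 8 0 (.thr 56 40 (.thr 11 41 (.thr 10 9 (.dbl 42 58 59)))))))) (.rp 19 (.thr 27 24 (.thr 51 38 (.thr 15 39 (.thr 13 14 (.dbl 37 48 49))))) .nd)))))) (.rp 19 (.thr 27 24 (.thr 51 38 (.thr 15 39 (.thr 13 14 (.dbl 37 48 49))))) .nd)))))))) (.rp 28 (.thr 29 17 (.str 12 (.nv (.thr 24 27 (.thr 48 36 (.thr 63 46 (.dbl 0 32 42)))) (.nv (.thr 24 27 (.thr 48 36 (.thr 15 37 (.thr 14 13 (.dbl 38 50 51))))) (.nv (.thr 63 46 (.thr 0 42 (.thr 4 8 (.dbl 38 51 55)))) .nd))))) (.rp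 27 (.str 19 (.nv (.dbl 17 18 29) (.rp 29 (.thr 18 17 (.dbl 22 28 30)) (.rp 18 (.thr 22 28 (.thr 29 17 (.str 48 (.nv (.thr 37 15 (.thr 5 53 (.thr 13 49 (.thr 61 45 (.dbl 1 9 41))))) (.nv (.thr 0 32 (.thr 20 23 (.thr 60 40 (.thr 52 56 (.dbl 37 7 15))))) (.nv (.thr 0 32 (.thr 63 42 (.thr 53 58 (.dbl 37 5 15)))) (.rp 63 (.thr 32 0 (.thr 37 15 (.thr 47 42 (.thr 13 49 (.thr 61 45 (.thr 1 41 (.dbl 5 9 53))))))) (.rp 37 (.thr 20 23 (.thr 0 32 (.thr 60 40 (.thr 56 52 (.thr 41 11 (.thr 61 1 (.dbl 63 42 62))))))) (.rp 15 (.thr 0 32 (.thr 63 42 (.thr 12 46 (.thr 4 8 (.dbl 38 51 55))))) (.rp 12 (.str 9 (.nv (.thr 41 57 (.thr 1 61 (.thr 5 13 (.dbl 37 15 53)))) (.nv (.thr 0 32 (.thr 20 23 (.thr 41 57 (.thr 60 40 (.dbl 56 11 52))))) (.nv (.thr 0 32 (.thr 63 42 (.thr 53 58 (.dbl 37 5 15)))) (.rp 60 (.str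 44 (.nv (.thr 0 32 (.thr 41 57 (.thr 11 56 (.thr 8 10 (.dbl 42 59 63))))) (.nv (.thr 41 57 (.thr 61 1 (.thr 13 45 (.dbl 37 15 49)))) (.nv (.thr 0 32 (.thr 63 42 (.thr 53 58 (.dbl 37 5 15)))) (.rp 0 (.thr 37 15 (.thr 13 49 (.dbl 5 1 53))) .nd))))) (.rp 44 (.str 60 (.nv (.thr 20 23 (.dbl 0 32 40)) (.nv (.thr 56 52 (.dbl 41 11 57)) .nd))) .nd)))))) (.rp 9 (.str 12 (.nv (.thr 15 37 (.thr 14 13 (.dbl 38 50 51))) (.nv (.thr 0 32 (.dbl 63 42 46)) .nd))) .nd))))))))))) (.rp 17 (.str 12 (.nv (.thr 28 22 (.thr 24 20 (.thr 38 51 (.thr 14 50 (.thr 15 13 (.dbl 48 36 37)))))) (.nv (.thr 28 22 (.thr 20 24 (.thr 60 44 (.thr 0 40 (.thr 8 4 (.dbl 42 59 63)))))) (.nv (.thr 38 51 (.thr 4 55 (.thr 0 8 (.thr 14 50 (.thr 48 32 (.dbl 15 13 37)))))) (.rp 38 (.thr 22 28 (.str 63 (.nv (.thr 0 42 (.thr 48 32 (.thr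 37 15 (.dbl 53 5 58)))) (.nv (.thr 30 18 (.thr 46 29 (.thr 62 14 (.dbl 42 0 2)))) (.rp 48 (.thr 20 23 (.thr 0 42 (.thr 60 40 (.thr 62 61 (.thr 46 29 (.dbl 30 14 18)))))) (.rp 46 (.thr 20 23 (.thr 42 0 (.thr 58 10 (.thr 48 53 (.thr 36 24 (.thr 52 4 (.dbl 37 7 15))))))) (.rp 42 (.thr 20 23 (.thr 30 18 (.thr 46 29 (.thr 62 14 (.thr 60 61 (.thr 0 40 (.thr 48 32 (.dbl 15 37 45)))))))) (.rp 30 (.thr 29 46 (.thr 20 23 (.thr 42 0 (.thr 58 10 (.thr 48 53 (.thr 36 24 (.thr 52 4 (.dbl 37 7 15)))))))) (.rp 29 (.thr 30 18 (.thr 0 42 (.thr 48 32 (.thr 53 58 (.dbl 37 5 15))))) (.rp 0 (.thr 20 23 (.thr 30 18 (.thr 46 29 (.thr 14 62 (.thr 15 13 (.thr 48 37 (.thr 36 24 (.thr 52 4 (.dbl 60 45 56))))))))) .nd)))))))))) (.rp 0 (.thr 28 22 (.thr 24 20 (.thr 48 36 (.thr 15 37 (.thr 14 13 (.dbl 38 50 51))))))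 .nd)))))) (.rp 12 (.str 9 (.nv (.dbl 17 18 29) (.rp 29 (.thr 18 17 (.dbl 22 28 30)) (.rp 18 (.thr 17 29 (.thr 41 57 (.thr 1 61 (.thr 13 5 (.dbl 49 33 37))))) (.rp 17 (.thr 41 57 (.thr 1 61 (.thr 5 13 (.thr 11 56 (.thr 10 8 (.thr 53 37 (.thr 58 42 (.thr 48 63 (.dbl 0 15 32))))))))) .nd))))) (.rp 9 (.str 12 (.nv (.dbl 17 18 29) (.rp 29 (.thr 18 17 (.dbl 22 28 30)) (.rp 18 (.thr 29 17 (.thr 63 46 (.thr 0 42 (.thr 4 8 (.dbl 38 51 55))))) (.rp 17 (.thr 28 22 (.thr 24 20 (.thr 48 36 (.thr 15 37 (.thr 14 13 (.dbl 38 50 51)))))) .nd))))) .nd))))))) (.rp 24 (.str 12 (.nv (.thr 38 51 (.thr 4 55 (.thr 0 8 (.thr 14 50 (.thr 15 13 (.dbl 48 32 37)))))) (.nv (.thr 29 17 (.thr 63 46 (.thr 0 42 (.thr 48 32 (.thr 37 15 (.dbl 53 5 58)))))) (.nv (.thr 29 17 (.thr 63 46 (.thr 0 42 (.thr 38 51 (.dbl 4 8 55)))))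 (.rp 63 (.thr 17 29 (.thr 51 38 (.thr 0 34 (.thr 48 32 (.thr 49 50 (.dbl 37 13 15)))))) (.rp 38 (.thr 29 17 (.thr 63 46 (.thr 42 0 (.thr 59 8 (.thr 51 55 (.thr 58 10 (.thr 48 53 (.thr 49 50 (.dbl 37 13 15))))))))) (.rp 0 (.thr 17 29 (.thr 38 51 (.thr 14 50 (.thr 13 15 (.thr 49 37 (.thr 1 33 (.thr 41 61 (.dbl 9 5 57)))))))) .nd))))))) (.rp 23 (.thr 17 29 (.thr 24 27 (.thr 19 18 (.dbl 28 20 22)))) (.rp 22 (.thr 27 24 (.str 41 (.nv (.thr 1 61 (.thr 9 57 (.thr 13 5 (.thr 17 29 (.dbl 49 33 37))))) (.nv (.thr 9 57 (.thr 11 56 (.thr 59 43 (.dbl 8 10 42)))) (.rp 57 (.thr 11 56 (.thr 59 43 (.thr 8 42 (.thr 9 10 (.thr 1 61 (.thr 17 29 (.thr 49 33 (.dbl 13 5 37)))))))) (.rp 54 (.str 38 (.nv (.thr 1 61 (.thr 17 29 (.thr 49 33 (.thr 13 37 (.dbl 9 5 57))))) (.nv (.thr 9 57 (.thr 11 56 (.thr 59 43 (.dbl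 8 10 42)))) (.rp 57 (.thr 11 56 (.thr 59 43 (.thr 55 4 (.dbl 51 12 63)))) (.rp 9 (.thr 12 51 (.thr 11 56 (.thr 59 43 (.thr 8 42 (.dbl 4 0 55))))) .nd))))) (.rp 38 (.str 54 (.nv (.thr 1 61 (.thr 9 57 (.thr 13 5 (.thr 17 29 (.dbl 49 33 37))))) (.nv (.thr 9 57 (.thr 11 56 (.thr 8 10 (.dbl 59 42 43)))) (.rp 57 (.thr 17 29 (.thr 1 61 (.thr 49 33 (.thr 11 56 (.thr 59 43 (.thr 8 42 (.thr 9 10 (.dbl 13 5 37)))))))) (.rp 9 (.str 12 (.nv (.thr 29 17 (.thr 61 1 (.thr 13 45 (.thr 15 14 (.dbl 37 48 49))))) (.nv (.thr 11 56 (.thr 29 17 (.thr 59 43 (.thr 63 46 (.dbl 42 0 8))))) (.rp 29 (.thr 11 56 (.thr 59 43 (.thr 8 42 (.thr 0 4 (.thr 48 32 (.thr 37 15 (.thr 49 13 (.thr 51 50 (.thr 57 60 (.dbl 53 5 61)))))))))) (.rp 17 (.thr 11 56 (.thr 59 43 (.thr 8 42 (.thr 0 4 (.thr 48 32 (.thr 37 15 (.thr 49 13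 (.thr 51 50 (.thr 57 60 (.dbl 53 5 61)))))))))) (.rp 0 (.thr 11 56 (.thr 59 43 (.thr 29 17 (.thr 63 46 (.thr 51 55 (.thr 60 57 (.dbl 61 1 62))))))) .nd)))))) .nd))))) (.rp 9 (.str 12 (.nv (.thr 11 56 (.thr 38 51 (.thr 4 55 (.thr 59 43 (.dbl 8 0 42))))) (.nv (.thr 38 51 (.thr 14 50 (.thr 29 17 (.thr 61 1 (.dbl 13 15 45))))) (.nv (.thr 11 56 (.thr 29 17 (.thr 59 43 (.thr 63 46 (.dbl 42 0 8))))) (.rp 38 (.str 54 (.nv (.thr 29 17 (.thr 61 1 (.thr 13 45 (.thr 15 14 (.dbl 37 48 49))))) (.nv (.thr 11 56 (.thr 29 17 (.thr 59 43 (.thr 63 46 (.dbl 42 0 8))))) (.rp 29 (.thr 11 56 (.thr 59 43 (.thr 8 42 (.thr 0 4 (.thr 48 32 (.thr 37 15 (.thr 49 13 (.thr 51 50 (.thr 57 60 (.dbl 53 5 61)))))))))) (.rp 17 (.thr 11 56 (.thr 59 43 (.thr 8 42 (.thr 0 4 (.thr 48 32 (.thr 37 15 (.thr 49 13 (.thr 51 50 (.thr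 57 60 (.dbl 53 5 61)))))))))) (.rp 0 (.thr 11 56 (.thr 59 43 (.thr 29 17 (.thr 63 46 (.thr 51 55 (.thr 60 57 (.dbl 61 1 62))))))) .nd)))))) (.rp 0 (.thr 29 17 (.thr 63 46 (.thr 11 56 (.thr 59 43 (.dbl 51 38 55))))) .nd)))))) .nd)))))))) (.rp 20 (.str 12 (.nv (.thr 29 17 (.thr 24 27 (.thr 48 36 (.thr 63 46 (.dbl 0 32 42))))) (.nv (.thr 24 27 (.thr 38 51 (.thr 14 50 (.thr 15 13 (.dbl 48 36 37))))) (.nv (.thr 29 17 (.thr 63 46 (.thr 0 42 (.thr 4 8 (.dbl 38 51 55))))) .nd)))) (.rp 19 (.thr 27 24 (.str 51 (.nv (.thr 12 38 (.thr 17 29 (.thr 0 34 (.thr 8 4 (.dbl 42 59 63))))) (.nv (.thr 15 39 (.thr 48 37 (.thr 50 49 (.dbl 38 12 14)))) (.rp 38 (.thr 17 29 (.thr 0 34 (.thr 48 32 (.dbl 15 37 39)))) (.rp 12 (.str 9 (.nv (.thr 41 57 (.thr 11 56 (.thr 8 10 (.dbl 59 42 43)))) (.nv (.thr 15 39 (.thr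 48 37 (.thr 0 32 (.dbl 17 29 34)))) (.rp 48 (.str 36 (.nv (.thr 39 15 (.thr 37 38 (.thr 13 49 (.dbl 5 1 53)))) (.nv (.thr 41 57 (.thr 11 56 (.thr 8 10 (.dbl 59 42 43)))) (.nv (.thr 41 57 (.thr 1 61 (.thr 13 5 (.thr 49 37 (.dbl 17 29 33))))) (.rp 33 (.str 18 (.nv (.thr 39 15 (.thr 37 38 (.thr 5 53 (.dbl 13 1 49)))) (.nv (.thr 41 57 (.thr 11 56 (.thr 8 10 (.dbl 59 42 43)))) (.nv (.thr 30 22 (.thr 15 39 (.thr 57 41 (.dbl 60 45 54)))) .nd)))) (.rp 18 (.str 33 (.nv (.thr 17 29 (.thr 39 15 (.thr 37 38 (.dbl 49 1 13)))) (.nv (.thr 17 29 (.thr 1 49 (.dbl 41 57 61))) (.nv (.thr 41 57 (.thr 37 45 (.dbl 39 15 38))) .nd)))) .nd)))))) (.rp 42 (.thr 17 29 (.thr 0 34 (.thr 48 32 (.dbl 15 37 39)))) (.rp 36 (.str 48 (.nv (.thr 0 32 (.dbl 17 29 34)) (.nv (.dbl 15 37 39) .nd))) .nd)))))) .nd)))))) (.rp 18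 (.thr 27 24 (.thr 29 17 (.str 48 (.nv (.thr 15 37 (.thr 51 39 (.thr 50 49 (.dbl 38 12 14)))) (.nv (.thr 0 32 (.thr 63 42 (.thr 53 58 (.dbl 37 5 15)))) (.rp 37 (.thr 0 32 (.thr 42 63 (.thr 58 10 (.thr 59 8 (.thr 56 57 (.dbl 11 41 43)))))) (.rp 15 (.thr 0 32 (.thr 63 42 (.thr 12 46 (.thr 4 8 (.dbl 38 51 55))))) (.rp 12 (.str 9 (.nv (.thr 37 15 (.thr 13 49 (.dbl 5 1 53))) (.nv (.thr 41 57 (.thr 11 56 (.thr 8 10 (.dbl 59 42 43)))) (.nv (.thr 0 32 (.thr 63 42 (.thr 53 58 (.dbl 37 5 15)))) .nd)))) (.rp 9 (.str 12 (.nv (.thr 0 32 (.dbl 63 42 46)) (.nv (.thr 15 37 (.dbl 51 38 39)) .nd))) .nd))))))))) (.rp 17 (.str 12 (.nv (.thr 27 24 (.thr 51 38 (.thr 15 39 (.thr 37 48 (.dbl 13 14 49))))) (.nv (.thr 24 27 (.thr 48 36 (.thr 0 32 (.thr 8 4 (.dbl 42 59 63))))) (.nv (.thr 24 27 (.thr 48 36 (.thr 15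 37 (.thr 14 13 (.dbl 38 50 51))))) (.rp 48 (.thr 24 27 (.thr 28 20 (.thr 19 22 (.thr 38 51 (.thr 44 60 (.thr 41 35 (.thr 56 11 (.thr 4 55 (.dbl 8 0 40))))))))) (.rp 27 (.thr 38 51 (.thr 4 55 (.thr 0 8 (.thr 48 32 (.thr 15 37 (.dbl 14 13 50)))))) (.rp 24 (.thr 38 51 (.thr 4 55 (.thr 0 8 (.thr 48 32 (.thr 15 37 (.dbl 14 13 50)))))) .nd))))))) (.rp 12 (.str 9 (.nv (.thr 17 29 (.thr 41 57 (.thr 1 61 (.thr 13 5 (.dbl 49 33 37))))) (.nv (.thr 27 24 (.thr 41 57 (.thr 11 56 (.thr 8 10 (.dbl 59 42 43))))) (.nv (.thr 24 27 (.thr 17 29 (.thr 28 20 (.dbl 19 18 22)))) .nd)))) (.rp 9 (.str 12 (.nv (.thr 24 27 (.thr 36 48 (.thr 38 51 (.thr 4 55 (.dbl 20 28 52))))) (.nv (.thr 29 17 (.thr 63 46 (.thr 0 42 (.thr 4 8 (.dbl 38 51 55))))) (.nv (.thr 24 27 (.thr 17 29 (.thr 28 20 (.dbl 19 18 22)))) .nd))))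 .nd))))))))))))))

theorem w211 : WinAt (69271552, 2147483720) :=
  chF (K := []) kn c211 69271552 2147483720 31
    [4680] (by decide +kernel) (by decide +kernel)

/-- A certificate. -/
noncomputable def c212 : Ct := (.str 48 (.nv (.thr 0 32 (.thr 63 42 (.thr 37 15 (.dbl 53 5 58)))) (.rp 63 (.thr 0 32 (.thr 15 37 (.str 3 (.nv (.thr 18 33 (.thr 17 19 (.thr 25 29 (.thr 27 24 (.dbl 51 34 39))))) (.nv (.thr 1 2 (.thr 41 61 (.dbl 11 7 56))) (.rp 47 (.str 42 (.nv (.thr 2 1 (.thr 18 33 (.dbl 22 30 62))) (.nv (.dbl 10 5 58) (.rp 7 (.thr 5 10 (.thr 2 1 (.thr 18 33 (.dbl 22 30 62)))) (.rp 5 (.thr 7 11 (.thr 2 1 (.thr 18 33 (.dbl 22 30 62)))) .nd))))) (.rp 42 (.str 47 (.nv (.thr 18 33 (.thr 17 19 (.thr 25 29 (.thr 27 24 (.dbl 51 34 39))))) (.nv (.thr 11 7 (.thr 5 10 (.thr 41 56 (.dbl 1 2 61))))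 (.rp 41 (.thr 1 2 (.thr 33 18 (.thr 17 49 (.thr 25 29 (.thr 27 24 (.dbl 51 34 39)))))) (.rp 7 (.thr 5 10 (.thr 2 1 (.thr 18 33 (.thr 34 50 (.dbl 17 19 51))))) (.rp 5 (.thr 7 11 (.thr 2 1 (.thr 18 33 (.thr 34 50 (.dbl 17 19 51))))) .nd)))))) (.rp 41 (.thr 1 2 (.thr 33 18 (.thr 17 49 (.thr 25 29 (.thr 27 24 (.dbl 51 34 39)))))) (.rp 7 (.thr 5 10 (.thr 2 1 (.thr 18 33 (.thr 17 19 (.dbl 34 50 51))))) (.rp 5 (.thr 7 11 (.thr 1 2 (.thr 18 33 (.thr 22 30 (.dbl 41 60 61))))) .nd)))))))))) (.rp 58 (.thr 0 32 (.thr 63 42 (.thr 37 15 (.str 22 (.nv (.thr 5 53 (.thr 20 23 (.thr 28 24 (.thr 19 25 (.dbl 18 17 30))))) (.nv (.thr 18 30 (.thr 3 33 (.thr 2 1 (.thr 34 50 (.dbl 17 19 51))))) (.nv (.thr 5 53 (.thr 23 20 (.thr 52 7 (.thr 3 43 (.dbl 60 41 56))))) (.rp 5 (.thr 7 52 (.thr 18 30 (.thr 3 33 (.dbl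 23 20 43)))) .nd)))))))) (.rp 53 (.thr 0 32 (.thr 42 63 (.thr 10 58 (.dbl 15 5 37)))) (.rp 42 (.thr 37 15 (.thr 0 32 (.str 63 (.nv (.dbl 53 5 58) (.rp 58 (.str 22 (.nv (.thr 5 53 (.thr 20 23 (.thr 28 24 (.thr 19 25 (.dbl 18 17 30))))) (.nv (.thr 18 30 (.thr 3 33 (.thr 2 1 (.thr 34 50 (.dbl 17 19 51))))) (.nv (.thr 5 53 (.thr 23 20 (.thr 52 7 (.thr 3 43 (.dbl 60 41 56))))) (.rp 5 (.thr 7 52 (.thr 18 30 (.thr 3 33 (.dbl 23 20 43)))) .nd))))) (.rp 53 (.str 3 (.nv (.thr 1 2 (.thr 23 43 (.thr 22 20 (.dbl 41 60 61)))) (.nv (.thr 18 33 (.thr 23 43 (.dbl 22 20 30))) (.nv (.thr 33 18 (.thr 41 45 (.dbl 1 2 61))) (.rp 41 (.thr 18 33 (.thr 22 30 (.dbl 23 20 43))) (.rp 7 (.str 5 (.nv (.thr 1 2 (.thr 23 43 (.thr 22 20 (.dbl 41 60 61)))) (.nv (.thr 18 33 (.thr 23 43 (.dbl 22 20 30))) (.nv (.thr 33 18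 (.thr 41 45 (.dbl 1 2 61))) (.rp 41 (.thr 18 33 (.thr 22 30 (.dbl 23 20 43))) .nd))))) (.rp 5 (.str 7 (.nv (.thr 33 18 (.thr 41 45 (.dbl 1 2 61))) (.nv (.thr 22 52 (.dbl 23 20 43)) (.nv (.thr 18 33 (.dbl 22 30 52)) .nd)))) .nd))))))) (.rp 7 (.thr 5 53 (.str 3 (.nv (.thr 1 2 (.thr 23 43 (.thr 22 20 (.dbl 41 60 61)))) (.nv (.thr 18 33 (.thr 23 43 (.dbl 22 20 30))) (.nv (.thr 33 18 (.thr 41 45 (.dbl 1 2 61))) (.rp 41 (.thr 18 33 (.thr 22 30 (.dbl 23 20 43))) .nd)))))) (.rp 5 (.str 7 (.nv (.thr 22 52 (.thr 18 30 (.thr 3 33 (.thr 1 2 (.dbl 41 60 61))))) (.nv (.thr 22 52 (.thr 20 23 (.thr 60 40 (.thr 41 3 (.dbl 61 1 62))))) (.nv (.thr 22 52 (.thr 20 23 (.thr 18 30 (.thr 28 24 (.dbl 19 17 25))))) (.rp 60 (.thr 22 52 (.thr 20 23 (.thr 28 24 (.thr 19 25 (.dbl 18 17 30))))) (.rp 52 (.str 36 (.nv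 (.thr 24 12 (.thr 20 28 (.thr 22 23 (.thr 60 40 (.thr 61 62 (.dbl 41 1 3)))))) (.nv (.thr 39 38 (.thr 23 55 (.thr 3 43 (.thr 18 33 (.dbl 22 20 30))))) (.nv (.thr 38 39 (.thr 12 24 (.thr 29 46 (.dbl 25 17 51)))) .nd)))) (.rp 22 (.thr 58 53 (.str 62 (.nv (.thr 50 54 (.thr 38 14 (.thr 36 39 (.thr 12 24 (.dbl 51 25 49))))) (.nv (.thr 61 60 (.thr 1 41 (.thr 3 2 (.thr 33 18 (.thr 49 17 (.dbl 50 51 54)))))) (.nv (.thr 54 50 (.thr 60 61 (.thr 57 51 (.dbl 56 52 59)))) (.rp 54 (.str 38 (.nv (.thr 14 50 (.thr 46 30 (.thr 29 12 (.thr 25 17 (.thr 13 49 (.dbl 61 45 60)))))) (.nv (.thr 39 36 (.thr 61 60 (.thr 1 41 (.thr 3 2 (.dbl 23 43 55))))) (.nv (.thr 36 39 (.thr 12 24 (.thr 29 46 (.dbl 25 17 51)))) (.rp 55 (.str 52 (.nv (.dbl 60 56 61) (.rp 61 (.thr 36 39 (.thr 14 50 (.thr 46 30 (.dbl 12 24 29))))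 (.rp 60 (.thr 36 39 (.thr 14 50 (.thr 12 24 (.dbl 46 29 30)))) (.rp 56 (.thr 36 39 (.thr 60 61 (.thr 24 12 (.dbl 20 28 40)))) .nd))))) (.rp 52 (.str 55 (.nv (.thr 50 14 (.dbl 51 49 59)) (.nv (.dbl 39 23 36) (.rp 36 (.str 20 (.nv (.thr 50 14 (.dbl 51 49 59)) (.nv (.dbl 60 40 61) (.rp 44 (.thr 40 60 (.thr 50 14 (.dbl 51 49 59))) (.rp 40 (.str 44 (.nv (.thr 50 14 (.dbl 51 49 59)) (.nv (.thr 41 35 (.dbl 61 1 60)) (.rp 41 (.str 43 (.nv (.thr 60 61 (.dbl 28 12 24)) (.nv (.dbl 23 3 39) (.rp 60 (.thr 3 23 (.thr 50 14 (.dbl 51 49 59))) .nd)))) .nd)))) .nd))))) (.rp 20 (.thr 36 39 (.thr 50 14 (.dbl 51 49 59))) .nd))))) .nd)))))) (.rp 51 (.thr 60 61 (.thr 50 54 (.thr 38 14 (.thr 20 40 (.thr 24 28 (.dbl 36 12 39)))))) (.rp 50 (.thr 60 61 (.thr 20 40 (.thr 24 28 (.thr 25 27 (.thr 29 17 (.dbl 12 36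 46)))))) .nd)))))))) (.rp 20 (.thr 52 22 (.thr 53 58 (.thr 54 55 (.thr 60 56 (.thr 57 51 (.dbl 61 49 62)))))) .nd)))))))) .nd)))))))) (.rp 37 (.str 22 (.nv (.thr 0 32 (.thr 20 23 (.thr 60 40 (.thr 41 3 (.dbl 56 11 52))))) (.nv (.thr 0 32 (.thr 42 63 (.thr 2 62 (.thr 3 1 (.dbl 18 30 33))))) (.nv (.thr 18 30 (.thr 20 23 (.thr 19 17 (.dbl 28 24 25)))) (.rp 7 (.str 5 (.nv (.thr 18 30 (.thr 19 17 (.thr 20 23 (.dbl 28 24 25)))) (.nv (.thr 0 32 (.thr 42 63 (.dbl 10 15 58))) .nd))) (.rp 5 (.str 7 (.nv (.thr 0 32 (.thr 20 23 (.thr 60 40 (.thr 41 3 (.dbl 56 11 52))))) (.nv (.thr 0 32 (.thr 42 63 (.thr 2 62 (.thr 3 1 (.dbl 18 30 33))))) (.nv (.thr 20 23 (.thr 28 24 (.thr 18 30 (.dbl 19 17 25)))) .nd)))) .nd)))))) (.rp 32 (.thr 37 15 (.thr 5 53 (.str 1 (.nv (.thr 13 9 (.thr 25 49 (.thr 17 29 (.thr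 19 18 (.thr 24 27 (.dbl 28 20 22)))))) (.nv (.thr 41 61 (.thr 56 11 (.thr 60 52 (.thr 3 22 (.dbl 33 18 45))))) (.nv (.thr 13 9 (.thr 25 49 (.thr 61 41 (.dbl 29 17 45)))) (.rp 63 (.str 47 (.nv (.thr 13 9 (.thr 25 49 (.thr 17 29 (.thr 19 18 (.thr 24 27 (.dbl 28 20 22)))))) (.nv (.thr 41 61 (.thr 56 11 (.thr 60 52 (.thr 3 22 (.dbl 33 18 45))))) (.nv (.thr 61 41 (.thr 13 9 (.thr 25 49 (.dbl 29 17 45)))) (.rp 61 (.thr 13 9 (.thr 49 25 (.thr 33 17 (.thr 41 45 (.thr 56 11 (.thr 60 52 (.dbl 3 18 22))))))) (.rp 49 (.thr 9 13 (.thr 41 61 (.thr 57 25 (.thr 56 11 (.thr 60 52 (.thr 3 22 (.dbl 33 18 45))))))) (.rp 3 (.thr 41 61 (.thr 33 45 (.thr 49 17 (.dbl 13 9 25)))) .nd))))))) (.rp 61 (.thr 13 9 (.thr 49 25 (.thr 33 17 (.thr 3 18 (.thr 41 45 (.thr 56 11 (.dbl 60 22 52))))))) (.rp 49 (.thr 9 13 (.thr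 41 61 (.thr 57 25 (.thr 56 11 (.thr 60 52 (.thr 3 22 (.dbl 33 18 45))))))) (.rp 47 (.str 63 (.nv (.thr 0 42 (.thr 3 2 (.thr 18 33 (.thr 23 43 (.dbl 22 20 30))))) (.nv (.thr 61 41 (.thr 13 9 (.thr 25 49 (.dbl 29 17 45)))) (.rp 41 (.thr 13 9 (.thr 25 49 (.thr 29 17 (.thr 24 27 (.dbl 12 36 46))))) (.rp 3 (.thr 41 61 (.thr 33 45 (.thr 49 17 (.dbl 13 9 25)))) .nd))))) (.rp 3 (.thr 41 61 (.thr 33 45 (.thr 49 17 (.dbl 13 9 25)))) .nd))))))))))) (.rp 15 (.thr 0 32 (.thr 63 42 (.str 37 (.nv (.dbl 53 5 58) (.rp 58 (.str 22 (.nv (.thr 5 53 (.thr 20 23 (.thr 28 24 (.thr 19 25 (.dbl 18 17 30))))) (.nv (.thr 18 30 (.thr 3 33 (.thr 2 1 (.thr 34 50 (.dbl 17 19 51))))) (.nv (.thr 5 53 (.thr 23 20 (.thr 52 7 (.thr 3 43 (.dbl 60 41 56))))) (.rp 5 (.thr 7 52 (.thr 18 30 (.thr 3 33 (.dbl 23 20 43)))) .nd)))))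 (.rp 53 (.str 3 (.nv (.thr 1 2 (.thr 23 43 (.thr 22 20 (.dbl 41 60 61)))) (.nv (.thr 18 33 (.thr 23 43 (.dbl 22 20 30))) (.nv (.thr 33 18 (.thr 41 45 (.dbl 1 2 61))) (.rp 41 (.thr 18 33 (.thr 22 30 (.dbl 23 20 43))) (.rp 7 (.str 5 (.nv (.thr 1 2 (.thr 23 43 (.thr 22 20 (.dbl 41 60 61)))) (.nv (.thr 18 33 (.thr 23 43 (.dbl 22 20 30))) (.nv (.thr 33 18 (.thr 41 45 (.dbl 1 2 61))) (.rp 41 (.thr 18 33 (.thr 22 30 (.dbl 23 20 43))) .nd))))) (.rp 5 (.str 7 (.nv (.thr 33 18 (.thr 41 45 (.dbl 1 2 61))) (.nv (.thr 22 52 (.dbl 23 20 43)) (.nv (.thr 18 33 (.dbl 22 30 52)) .nd)))) .nd))))))) (.rp 7 (.thr 5 53 (.str 3 (.nv (.thr 1 2 (.thr 23 43 (.thr 22 20 (.dbl 41 60 61)))) (.nv (.thr 18 33 (.thr 23 43 (.dbl 22 20 30))) (.nv (.thr 33 18 (.thr 41 45 (.dbl 1 2 61))) (.rp 41 (.thr 18 33 (.thr 22 30 (.dbl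 23 20 43))) .nd)))))) (.rp 5 (.str 7 (.nv (.thr 22 52 (.thr 18 30 (.thr 3 33 (.thr 1 2 (.dbl 41 60 61))))) (.nv (.thr 22 52 (.thr 20 23 (.thr 60 40 (.thr 41 3 (.dbl 61 1 62))))) (.nv (.thr 22 52 (.thr 20 23 (.thr 18 30 (.thr 28 24 (.dbl 19 17 25))))) (.rp 60 (.thr 22 52 (.thr 20 23 (.thr 28 24 (.thr 19 25 (.dbl 18 17 30))))) (.rp 52 (.str 36 (.nv (.thr 24 12 (.thr 20 28 (.thr 22 23 (.thr 60 40 (.thr 61 62 (.dbl 41 1 3)))))) (.nv (.thr 39 38 (.thr 23 55 (.thr 3 43 (.thr 18 33 (.dbl 22 20 30))))) (.nv (.thr 38 39 (.thr 12 24 (.thr 29 46 (.dbl 25 17 51)))) .nd)))) (.rp 22 (.thr 58 53 (.str 62 (.nv (.thr 50 54 (.thr 38 14 (.thr 36 39 (.thr 12 24 (.dbl 51 25 49))))) (.nv (.thr 61 60 (.thr 1 41 (.thr 3 2 (.thr 33 18 (.thr 49 17 (.dbl 50 51 54)))))) (.nv (.thr 54 50 (.thr 60 61 (.thr 57 51 (.dbl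 56 52 59)))) (.rp 54 (.str 38 (.nv (.thr 14 50 (.thr 46 30 (.thr 29 12 (.thr 25 17 (.thr 13 49 (.dbl 61 45 60)))))) (.nv (.thr 39 36 (.thr 61 60 (.thr 1 41 (.thr 3 2 (.dbl 23 43 55))))) (.nv (.thr 36 39 (.thr 12 24 (.thr 29 46 (.dbl 25 17 51)))) (.rp 55 (.str 52 (.nv (.dbl 60 56 61) (.rp 61 (.thr 36 39 (.thr 14 50 (.thr 46 30 (.dbl 12 24 29)))) (.rp 60 (.thr 36 39 (.thr 14 50 (.thr 12 24 (.dbl 46 29 30)))) (.rp 56 (.thr 36 39 (.thr 60 61 (.thr 24 12 (.dbl 20 28 40)))) .nd))))) (.rp 52 (.str 55 (.nv (.thr 50 14 (.dbl 51 49 59)) (.nv (.dbl 39 23 36) (.rp 36 (.str 20 (.nv (.thr 50 14 (.dbl 51 49 59)) (.nv (.dbl 60 40 61) (.rp 44 (.thr 40 60 (.thr 50 14 (.dbl 51 49 59))) (.rp 40 (.str 44 (.nv (.thr 50 14 (.dbl 51 49 59)) (.nv (.thr 41 35 (.dbl 61 1 60)) (.rp 41 (.str 43 (.nv (.thr 60 61 (.dbl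 28 12 24)) (.nv (.dbl 23 3 39) (.rp 60 (.thr 3 23 (.thr 50 14 (.dbl 51 49 59))) .nd)))) .nd)))) .nd))))) (.rp 20 (.thr 36 39 (.thr 50 14 (.dbl 51 49 59))) .nd))))) .nd)))))) (.rp 51 (.thr 60 61 (.thr 50 54 (.thr 38 14 (.thr 20 40 (.thr 24 28 (.dbl 36 12 39)))))) (.rp 50 (.thr 60 61 (.thr 20 40 (.thr 24 28 (.thr 25 27 (.thr 29 17 (.dbl 12 36 46)))))) .nd)))))))) (.rp 20 (.thr 52 22 (.thr 53 58 (.thr 54 55 (.thr 60 56 (.thr 57 51 (.dbl 61 49 62)))))) .nd)))))))) .nd)))))))) (.rp 7 (.str 5 (.nv (.thr 0 32 (.thr 10 15 (.dbl 42 58 63))) (.nv (.dbl 37 15 53) (.rp 15 (.thr 53 37 (.thr 63 58 (.dbl 0 32 42))) .nd)))) (.rp 5 (.str 7 (.nv (.thr 0 32 (.thr 15 37 (.thr 42 63 (.thr 3 11 (.thr 1 2 (.thr 41 61 (.thr 40 43 (.dbl 60 20 22)))))))) (.nv (.thr 0 32 (.thr 15 37 (.thr 3 11 (.thr 2 1 (.thr 18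 33 (.thr 34 50 (.dbl 17 19 51))))))) (.nv (.thr 37 15 (.thr 22 52 (.thr 20 23 (.thr 28 24 (.thr 19 25 (.dbl 18 17 30)))))) (.rp 37 (.str 22 (.nv (.thr 0 32 (.thr 20 23 (.thr 60 40 (.thr 41 3 (.dbl 56 11 52))))) (.nv (.thr 0 32 (.thr 42 63 (.thr 2 62 (.thr 3 1 (.dbl 18 30 33))))) (.nv (.thr 20 23 (.thr 28 24 (.thr 18 30 (.dbl 19 17 25)))) .nd)))) (.rp 15 (.thr 0 32 (.str 22 (.nv (.thr 18 30 (.thr 3 33 (.thr 1 2 (.dbl 41 60 61)))) (.nv (.thr 52 37 (.thr 60 56 (.dbl 20 23 40))) (.rp 63 (.str 47 (.nv (.thr 18 30 (.thr 3 33 (.thr 1 2 (.dbl 41 60 61)))) (.nv (.thr 52 37 (.thr 60 56 (.dbl 20 23 40))) (.rp 60 (.thr 20 23 (.thr 28 24 (.thr 19 25 (.dbl 18 17 30)))) .nd)))) (.rp 60 (.thr 20 23 (.thr 28 24 (.thr 19 25 (.dbl 18 17 30)))) (.rp 47 (.thr 63 42 (.thr 37 52 (.thr 18 30 (.thr 3 33 (.dbl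 23 20 43))))) .nd))))))) (.rp 0 (.thr 15 37 (.thr 3 11 (.thr 18 33 (.thr 19 17 (.thr 22 30 (.thr 20 23 (.dbl 28 24 25))))))) .nd))))))) (.rp 0 (.str 12 (.nv (.thr 36 24 (.thr 37 15 (.thr 38 39 (.thr 51 25 (.dbl 50 14 49))))) (.nv (.thr 24 36 (.thr 25 27 (.thr 17 29 (.thr 19 18 (.dbl 28 20 22))))) (.rp 36 (.thr 15 37 (.thr 14 13 (.thr 38 50 (.thr 25 51 (.thr 24 27 (.thr 17 29 (.thr 19 18 (.dbl 28 20 22)))))))) (.rp 25 (.thr 24 36 (.thr 20 28 (.thr 22 23 (.thr 30 18 (.thr 15 37 (.thr 60 45 (.thr 56 52 (.dbl 41 3 11)))))))) (.rp 24 (.thr 15 37 (.thr 14 13 (.thr 38 50 (.thr 25 51 (.thr 17 29 (.thr 18 19 (.thr 30 22 (.thr 62 46 (.thr 60 45 (.thr 61 63 (.thr 44 28 (.dbl 41 1 35)))))))))))) (.rp 7 (.str 5 (.nv (.dbl 37 15 53) (.rp 53 (.thr 15 37 (.thr 14 13 (.thr 24 36 (.thr 25 27 (.dbl 38 50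 51))))) (.rp 37 (.thr 24 36 (.thr 25 27 (.thr 17 29 (.thr 19 18 (.dbl 28 20 22))))) (.rp 15 (.thr 53 37 (.thr 63 58 (.thr 24 36 (.thr 25 27 (.dbl 29 17 46))))) .nd))))) (.rp 5 (.str 7 (.nv (.thr 15 37 (.thr 14 13 (.thr 38 50 (.thr 25 51 (.dbl 24 27 36))))) (.nv (.thr 24 36 (.thr 20 28 (.thr 22 23 (.dbl 37 15 52)))) (.rp 37 (.thr 24 36 (.thr 25 27 (.thr 17 29 (.thr 19 18 (.dbl 28 20 22))))) (.rp 36 (.thr 15 37 (.thr 3 11 (.thr 14 13 (.thr 18 33 (.thr 17 19 (.thr 25 29 (.dbl 38 50 51))))))) (.rp 27 (.thr 15 37 (.thr 3 11 (.thr 18 33 (.thr 22 30 (.thr 24 36 (.dbl 20 23 28)))))) (.rp 24 (.thr 15 37 (.thr 3 11 (.thr 14 13 (.thr 18 33 (.thr 17 19 (.thr 25 29 (.dbl 38 50 51))))))) (.rp 15 (.str 10 (.nv (.thr 24 36 (.thr 25 27 (.thr 42 58 (.thr 8 59 (.thr 11 9 (.dbl 56 40 41)))))) (.nv (.thr 24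 36 (.thr 20 28 (.thr 22 23 (.thr 52 37 (.thr 56 60 (.thr 8 40 (.dbl 11 9 41))))))) (.nv (.thr 58 42 (.thr 63 53 (.thr 29 46 (.thr 25 17 (.dbl 24 27 36))))) (.rp 63 (.str 47 (.nv (.thr 24 36 (.thr 25 27 (.thr 17 29 (.thr 19 18 (.dbl 28 20 22))))) (.nv (.thr 36 24 (.thr 42 58 (.thr 37 32 (.thr 38 39 (.thr 50 14 (.dbl 51 25 49)))))) (.nv (.thr 42 58 (.thr 24 36 (.thr 37 32 (.thr 22 52 (.dbl 20 23 28))))) (.rp 36 (.thr 42 58 (.thr 37 32 (.thr 22 52 (.thr 20 23 (.thr 18 30 (.thr 28 24 (.dbl 19 17 25))))))) (.rp 24 (.thr 42 58 (.thr 37 32 (.thr 22 52 (.thr 18 30 (.thr 2 62 (.thr 50 34 (.thr 51 49 (.dbl 38 14 25)))))))) .nd)))))) (.rp 47 (.str 63 (.nv (.thr 24 36 (.thr 25 27 (.dbl 29 17 46))) (.nv (.dbl 58 42 53) .nd))) (.rp 36 (.thr 58 42 (.thr 63 53 (.thr 29 46 (.thr 17 25 (.thr 18 19 (.thr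 22 30 (.thr 3 33 (.dbl 23 20 43)))))))) (.rp 27 (.thr 24 36 (.thr 20 28 (.thr 23 22 (.thr 58 42 (.thr 63 53 (.thr 55 39 (.thr 51 59 (.thr 50 49 (.dbl 38 14 25))))))))) (.rp 24 (.thr 58 42 (.thr 63 53 (.thr 29 46 (.thr 17 25 (.thr 18 19 (.thr 22 30 (.thr 23 20 (.dbl 3 33 43)))))))) .nd))))))))) .nd)))))))) .nd)))))))) .nd))))))))))))

theorem w212 : WinAt (69271552, 2147483728) :=
  chF (K := []) kn c212 69271552 2147483728 31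
    [240] (by decide +kernel) (by decide +kernel)

/-- A certificate. -/
noncomputable def c213 : Ct := (.str 20 (.nv (.thr 28 24 (.thr 22 23 (.thr 19 25 (.dbl 18 17 30)))) (.rp 30 (.thr 22 23 (.thr 28 24 (.thr 19 25 (.thr 18 17 (.str 3 (.nv (.thr 48 33 (.thr 0 32 (.thr 42 63 (.dbl 2 1 62)))) (.nv (.thr 60 41 (.thr 0 40 (.thr 42 63 (.dbl 2 1 62)))) (.nv (.thr 48 33 (.thr 0 32 (.dbl 60 40 41))) (.rp 7 (.str 4 (.nv (.thr 48 33 (.thr 0 32 (.thr 42 63 (.dbl 2 1 62)))) (.nv (.thr 35 51 (.thr 41 60 (.dbl 38 44 55))) (.nv (.thr 52 36 (.thr 48 33 (.dbl 60 41 56))) (.rp 55 (.str 39 (.nv (.thr 60 41 (.thr 0 40 (.dbl 12 8 44))) (.nv (.thr 51 35 (.thr 15 27 (.dbl 48 33 37))) .nd))) (.rp 39 (.thr 55 38 (.thr 48 33 (.thr 0 32 (.dbl 60 40 41)))) .nd)))))) (.rp 4 (.str 7 (.nv (.thr 48 33 (.thr 0 32 (.dbl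 60 40 41))) (.nv (.thr 15 11 (.dbl 37 48 52)) (.rp 48 (.thr 11 15 (.dbl 41 56 60)) .nd)))) (.rp 1 (.thr 60 41 (.thr 0 40 (.dbl 48 32 33))) (.rp 0 (.thr 48 33 (.thr 15 37 (.thr 41 60 (.dbl 11 7 56)))) .nd)))))))))))) (.rp 28 (.str 42 (.nv (.thr 0 63 (.thr 48 32 (.thr 15 37 (.thr 60 40 (.thr 30 45 (.dbl 22 18 23)))))) (.nv (.thr 22 23 (.thr 62 2 (.thr 30 18 (.thr 14 46 (.thr 50 38 (.dbl 58 10 54)))))) (.nv (.thr 0 63 (.thr 60 40 (.thr 22 23 (.thr 3 41 (.dbl 2 1 62))))) (.rp 30 (.str 29 (.nv (.thr 0 63 (.thr 22 23 (.thr 60 40 (.thr 3 41 (.dbl 2 1 62))))) (.nv (.thr 25 17 (.thr 59 8 (.thr 63 0 (.thr 51 55 (.dbl 12 38 46))))) (.rp 63 (.thr 25 17 (.thr 24 27 (.thr 8 59 (.thr 56 40 (.thr 10 58 (.dbl 11 9 41)))))) (.rp 15 (.thr 25 17 (.thr 24 27 (.thr 8 59 (.thr 40 56 (.dbl 0 60 63))))) (.rp 7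 (.str 4 (.nv (.thr 0 63 (.thr 32 48 (.thr 36 52 (.dbl 40 44 60)))) (.nv (.thr 25 17 (.thr 8 59 (.dbl 0 12 63))) (.rp 63 (.thr 25 17 (.thr 8 59 (.thr 12 0 (.dbl 38 51 55)))) (.rp 0 (.thr 38 55 (.thr 46 34 (.thr 12 63 (.dbl 25 17 51)))) .nd))))) (.rp 4 (.str 7 (.nv (.thr 0 63 (.thr 25 17 (.thr 8 59 (.thr 40 60 (.dbl 24 27 56))))) (.nv (.thr 22 23 (.thr 37 52 (.thr 32 47 (.dbl 0 48 63)))) (.rp 63 (.thr 25 17 (.thr 27 24 (.thr 59 8 (.thr 11 43 (.thr 58 10 (.dbl 56 41 57)))))) (.rp 47 (.thr 23 22 (.thr 25 17 (.thr 63 0 (.thr 55 39 (.dbl 59 8 51))))) (.rp 27 (.thr 23 22 (.thr 25 17 (.thr 63 0 (.thr 55 39 (.dbl 59 8 51))))) (.rp 15 (.thr 23 22 (.thr 25 17 (.thr 59 8 (.thr 55 39 (.dbl 63 0 51))))) (.rp 0 (.thr 25 17 (.thr 24 27 (.thr 8 59 (.thr 10 58 (.thr 11 9 (.dbl 56 40 41)))))) .nd))))))))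 (.rp 0 (.thr 25 17 (.thr 24 27 (.thr 8 59 (.thr 56 40 (.thr 10 58 (.dbl 11 9 41)))))) .nd)))))))) (.rp 29 (.str 30 (.nv (.dbl 22 18 23) (.rp 23 (.thr 0 63 (.thr 60 40 (.thr 48 32 (.dbl 15 37 45)))) (.rp 22 (.thr 0 63 (.thr 60 40 (.thr 48 32 (.dbl 15 37 45)))) (.rp 18 (.thr 0 63 (.thr 60 40 (.thr 48 32 (.dbl 15 37 45)))) (.rp 7 (.str 4 (.nv (.thr 38 55 (.thr 14 50 (.dbl 46 34 62))) (.nv (.dbl 22 18 23) (.rp 23 (.thr 52 36 (.thr 0 63 (.thr 60 40 (.dbl 48 32 56)))) .nd)))) (.rp 4 (.str 7 (.nv (.dbl 22 18 23) (.rp 23 (.thr 22 18 (.thr 0 63 (.thr 37 52 (.dbl 32 47 48)))) (.rp 22 (.thr 0 63 (.thr 60 40 (.thr 15 45 (.dbl 48 32 37)))) (.rp 18 (.thr 22 23 (.thr 0 63 (.thr 37 52 (.dbl 32 47 48)))) .nd))))) .nd))))))) (.rp 23 (.thr 0 63 (.thr 48 32 (.thr 60 40 (.thr 56 52 (.thr 41 11 (.thr 1 61 (.dbl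 3 2 22))))))) (.rp 22 (.thr 0 63 (.thr 40 60 (.thr 41 43 (.thr 58 10 (.thr 56 11 (.thr 59 57 (.dbl 8 24 25))))))) (.rp 7 (.str 4 (.nv (.thr 0 63 (.thr 22 23 (.thr 2 62 (.thr 3 1 (.dbl 60 40 41))))) (.nv (.thr 0 63 (.thr 12 8 (.thr 48 32 (.dbl 36 24 52)))) (.rp 63 (.thr 38 55 (.thr 46 34 (.thr 14 50 (.thr 30 62 (.dbl 22 18 23))))) (.rp 47 (.thr 38 55 (.thr 46 34 (.thr 14 50 (.thr 30 62 (.dbl 22 18 23))))) (.rp 30 (.str 29 (.nv (.thr 0 63 (.thr 32 48 (.thr 36 52 (.dbl 40 44 60)))) (.nv (.thr 25 17 (.thr 8 59 (.dbl 0 12 63))) (.rp 63 (.thr 25 17 (.thr 8 59 (.thr 12 0 (.dbl 38 51 55)))) (.rp 0 (.thr 38 55 (.thr 46 34 (.thr 12 63 (.dbl 25 17 51)))) .nd))))) (.rp 29 (.str 30 (.nv (.thr 38 55 (.thr 14 50 (.dbl 46 34 62))) (.nv (.dbl 22 18 23) (.rp 23 (.thr 52 36 (.thr 0 63 (.thr 60 40 (.dbl 48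 32 56)))) .nd)))) (.rp 15 (.thr 38 55 (.thr 46 34 (.thr 14 50 (.thr 30 62 (.dbl 22 18 23))))) (.rp 0 (.thr 38 55 (.thr 46 34 (.thr 14 50 (.thr 30 62 (.dbl 22 18 23))))) .nd))))))))) (.rp 4 (.str 7 (.nv (.thr 0 63 (.thr 48 32 (.thr 60 40 (.thr 52 56 (.dbl 37 15 22))))) (.nv (.thr 0 63 (.thr 22 23 (.thr 2 62 (.thr 3 1 (.dbl 60 40 41))))) (.nv (.thr 22 23 (.thr 37 52 (.thr 32 47 (.dbl 0 48 63)))) (.rp 63 (.thr 22 23 (.thr 30 18 (.thr 62 2 (.thr 14 46 (.thr 58 10 (.dbl 50 38 54)))))) (.rp 47 (.thr 23 22 (.thr 63 0 (.thr 3 43 (.thr 15 11 (.thr 58 10 (.dbl 48 37 53)))))) (.rp 30 (.str 29 (.nv (.thr 0 63 (.thr 25 17 (.thr 8 59 (.thr 40 60 (.dbl 24 27 56))))) (.nv (.thr 22 23 (.thr 37 52 (.thr 32 47 (.dbl 0 48 63)))) (.rp 63 (.thr 25 17 (.thr 27 24 (.thr 59 8 (.thr 11 43 (.thr 58 10 (.dbl 56 41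 57)))))) (.rp 47 (.thr 23 22 (.thr 25 17 (.thr 63 0 (.thr 55 39 (.dbl 59 8 51))))) (.rp 27 (.thr 23 22 (.thr 25 17 (.thr 63 0 (.thr 55 39 (.dbl 59 8 51))))) (.rp 15 (.thr 23 22 (.thr 25 17 (.thr 59 8 (.thr 55 39 (.dbl 63 0 51))))) (.rp 0 (.thr 25 17 (.thr 24 27 (.thr 8 59 (.thr 10 58 (.thr 11 9 (.dbl 56 40 41)))))) .nd)))))))) (.rp 29 (.str 30 (.nv (.dbl 22 18 23) (.rp 23 (.thr 22 18 (.thr 0 63 (.thr 37 52 (.dbl 32 47 48)))) (.rp 22 (.thr 0 63 (.thr 60 40 (.thr 15 45 (.dbl 48 32 37)))) (.rp 18 (.thr 22 23 (.thr 0 63 (.thr 37 52 (.dbl 32 47 48)))) .nd))))) (.rp 22 (.thr 0 63 (.thr 40 60 (.thr 41 43 (.thr 11 56 (.thr 48 32 (.dbl 15 3 37)))))) (.rp 15 (.thr 22 23 (.thr 30 18 (.thr 62 2 (.thr 14 46 (.thr 50 38 (.dbl 58 10 54)))))) (.rp 0 (.thr 22 23 (.thr 30 18 (.thr 62 2 (.thr 14 46 (.thr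 50 38 (.dbl 58 10 54)))))) .nd))))))))))) .nd)))))))))) (.rp 25 (.thr 22 23 (.thr 18 30 (.thr 19 17 (.thr 28 24 (.str 3 (.nv (.thr 48 33 (.thr 0 32 (.thr 42 63 (.dbl 2 1 62)))) (.nv (.thr 60 41 (.thr 0 40 (.thr 42 63 (.dbl 2 1 62)))) (.nv (.thr 48 33 (.thr 0 32 (.dbl 60 40 41))) (.rp 7 (.str 4 (.nv (.thr 48 33 (.thr 0 32 (.thr 42 63 (.dbl 2 1 62)))) (.nv (.thr 35 51 (.thr 41 60 (.dbl 38 44 55))) (.nv (.thr 52 36 (.thr 48 33 (.dbl 60 41 56))) (.rp 55 (.str 39 (.nv (.thr 60 41 (.thr 0 40 (.dbl 12 8 44))) (.nv (.thr 51 35 (.thr 15 27 (.dbl 48 33 37))) .nd))) (.rp 39 (.thr 55 38 (.thr 48 33 (.thr 0 32 (.dbl 60 40 41)))) .nd)))))) (.rp 4 (.str 7 (.nv (.thr 48 33 (.thr 0 32 (.dbl 60 40 41))) (.nv (.thr 15 11 (.dbl 37 48 52)) (.rp 48 (.thr 11 15 (.dbl 41 56 60)) .nd)))) (.rp 1 (.thr 60 41 (.thr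 0 40 (.dbl 48 32 33))) (.rp 0 (.thr 48 33 (.thr 15 37 (.thr 41 60 (.dbl 11 7 56)))) .nd)))))))))))) (.rp 24 (.thr 22 23 (.thr 18 30 (.thr 19 17 (.thr 28 25 (.str 3 (.nv (.thr 48 33 (.thr 0 32 (.thr 42 63 (.dbl 2 1 62)))) (.nv (.thr 60 41 (.thr 0 40 (.thr 42 63 (.dbl 2 1 62)))) (.nv (.thr 48 33 (.thr 0 32 (.dbl 60 40 41))) (.rp 7 (.str 4 (.nv (.thr 48 33 (.thr 0 32 (.thr 42 63 (.dbl 2 1 62)))) (.nv (.thr 35 51 (.thr 41 60 (.dbl 38 44 55))) (.nv (.thr 52 36 (.thr 48 33 (.dbl 60 41 56))) (.rp 55 (.str 39 (.nv (.thr 60 41 (.thr 0 40 (.dbl 12 8 44))) (.nv (.thr 51 35 (.thr 15 27 (.dbl 48 33 37))) .nd))) (.rp 39 (.thr 55 38 (.thr 48 33 (.thr 0 32 (.dbl 60 40 41)))) .nd)))))) (.rp 4 (.str 7 (.nv (.thr 48 33 (.thr 0 32 (.dbl 60 40 41))) (.nv (.thr 15 11 (.dbl 37 48 52)) (.rp 48 (.thr 11 15 (.dbl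 41 56 60)) .nd)))) (.rp 1 (.thr 60 41 (.thr 0 40 (.dbl 48 32 33))) (.rp 0 (.thr 48 33 (.thr 15 37 (.thr 41 60 (.dbl 11 7 56)))) .nd)))))))))))) (.rp 23 (.str 48 (.nv (.thr 15 37 (.thr 24 28 (.thr 12 36 (.thr 14 13 (.thr 38 50 (.dbl 25 27 51)))))) (.nv (.thr 0 32 (.thr 60 40 (.thr 56 52 (.thr 41 11 (.thr 1 61 (.dbl 3 2 22)))))) (.nv (.thr 24 28 (.thr 0 32 (.thr 12 36 (.thr 40 60 (.dbl 8 4 56))))) (.rp 36 (.thr 24 28 (.thr 0 32 (.thr 42 63 (.thr 40 60 (.thr 56 8 (.dbl 41 11 43)))))) (.rp 27 (.str 19 (.nv (.thr 0 32 (.thr 15 37 (.thr 18 17 (.thr 30 22 (.dbl 60 40 45))))) (.nv (.thr 0 32 (.thr 24 28 (.thr 12 36 (.thr 40 60 (.dbl 8 4 56))))) (.nv (.thr 28 24 (.thr 22 25 (.dbl 18 17 30))) (.rp 30 (.thr 28 24 (.thr 25 22 (.dbl 17 18 29))) (.rp 7 (.str 4 (.nv (.thr 17 18 (.thr 25 29 (.dbl 28 22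 24))) (.nv (.thr 0 32 (.thr 52 36 (.dbl 60 40 56))) (.nv (.thr 24 28 (.dbl 36 12 52)) (.rp 55 (.str 39 (.nv (.thr 17 18 (.thr 25 29 (.dbl 28 22 24))) (.nv (.thr 36 52 (.dbl 37 15 38)) .nd))) (.rp 39 (.thr 55 38 (.thr 24 28 (.dbl 36 12 52))) .nd)))))) (.rp 4 (.str 7 (.nv (.thr 0 32 (.thr 15 37 (.thr 11 3 (.thr 56 41 (.dbl 60 40 52))))) (.nv (.thr 17 18 (.thr 25 29 (.dbl 28 22 24))) .nd))) .nd))))))) (.rp 19 (.str 27 (.nv (.dbl 24 25 28) (.rp 28 (.thr 25 24 (.thr 0 32 (.thr 15 37 (.thr 51 39 (.dbl 17 29 34))))) (.rp 25 (.thr 0 32 (.thr 63 42 (.thr 60 40 (.thr 56 52 (.thr 61 62 (.dbl 41 1 11)))))) (.rp 24 (.thr 0 32 (.thr 63 42 (.thr 60 40 (.thr 56 52 (.thr 61 62 (.dbl 41 1 11)))))) (.rp 7 (.str 4 (.nv (.thr 0 32 (.thr 52 36 (.dbl 60 40 56))) (.nv (.dbl 24 25 28) (.rp 55 (.str 39 (.nv (.dbl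 15 37 51) (.nv (.dbl 24 25 28) .nd))) (.rp 39 (.thr 55 38 (.dbl 24 25 28)) .nd))))) (.rp 4 (.str 7 (.nv (.dbl 24 25 28) (.rp 28 (.thr 37 15 (.thr 0 32 (.thr 60 40 (.dbl 52 22 56)))) (.rp 25 (.thr 37 15 (.thr 0 32 (.thr 60 40 (.dbl 52 22 56)))) (.rp 24 (.thr 37 15 (.thr 52 22 (.thr 60 56 (.dbl 0 32 40)))) .nd))))) .nd))))))) (.rp 7 (.str 4 (.nv (.thr 0 32 (.thr 8 12 (.thr 24 28 (.dbl 40 56 60)))) (.nv (.thr 55 38 (.thr 0 32 (.thr 60 40 (.dbl 52 36 56)))) (.nv (.thr 24 28 (.dbl 36 12 52)) (.rp 55 (.str 39 (.nv (.thr 0 32 (.thr 8 12 (.thr 24 28 (.dbl 40 56 60)))) (.nv (.thr 36 52 (.dbl 37 15 38)) (.rp 27 (.str 19 (.nv (.thr 17 18 (.thr 25 29 (.dbl 28 22 24))) (.nv (.thr 36 52 (.dbl 37 15 38)) .nd))) (.rp 19 (.str 27 (.nv (.dbl 15 37 51) (.nv (.dbl 24 25 28) .nd))) .nd))))) (.rp 27 (.str 19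 (.nv (.thr 17 18 (.thr 25 29 (.dbl 28 22 24))) (.nv (.thr 0 32 (.thr 52 36 (.dbl 60 40 56))) (.nv (.thr 24 28 (.dbl 36 12 52)) (.rp 55 (.str 39 (.nv (.thr 17 18 (.thr 25 29 (.dbl 28 22 24))) (.nv (.thr 36 52 (.dbl 37 15 38)) .nd))) (.rp 39 (.thr 55 38 (.thr 24 28 (.dbl 36 12 52))) .nd)))))) (.rp 19 (.str 27 (.nv (.thr 0 32 (.thr 52 36 (.dbl 60 40 56))) (.nv (.dbl 24 25 28) (.rp 55 (.str 39 (.nv (.dbl 15 37 51) (.nv (.dbl 24 25 28) .nd))) (.rp 39 (.thr 55 38 (.dbl 24 25 28)) .nd))))) .nd))))))) (.rp 4 (.str 7 (.nv (.thr 0 32 (.thr 24 28 (.thr 40 60 (.thr 56 8 (.thr 41 11 (.dbl 42 43 63)))))) (.nv (.thr 28 24 (.thr 37 15 (.thr 22 52 (.thr 19 25 (.dbl 18 17 30))))) (.nv (.thr 0 32 (.thr 60 40 (.thr 52 56 (.dbl 37 15 22)))) (.rp 27 (.str 19 (.nv (.thr 0 32 (.thr 15 37 (.thr 11 3 (.thr 56 41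 (.dbl 60 40 52))))) (.nv (.thr 17 18 (.thr 25 29 (.dbl 28 22 24))) .nd))) (.rp 24 (.thr 37 15 (.thr 52 22 (.thr 60 56 (.dbl 0 32 40)))) (.rp 19 (.str 27 (.nv (.dbl 24 25 28) (.rp 28 (.thr 37 15 (.thr 0 32 (.thr 60 40 (.dbl 52 22 56)))) (.rp 25 (.thr 37 15 (.thr 0 32 (.thr 60 40 (.dbl 52 22 56)))) (.rp 24 (.thr 37 15 (.thr 52 22 (.thr 60 56 (.dbl 0 32 40)))) .nd))))) (.rp 0 (.thr 28 24 (.thr 15 37 (.thr 3 11 (.thr 18 33 (.thr 19 17 (.dbl 22 25 30)))))) .nd)))))))) .nd))))))))) (.rp 22 (.str 48 (.nv (.thr 0 32 (.thr 60 40 (.thr 56 52 (.thr 41 11 (.thr 61 1 (.dbl 63 42 62)))))) (.nv (.thr 15 37 (.thr 24 28 (.thr 12 36 (.thr 14 13 (.thr 25 27 (.dbl 38 50 51)))))) (.nv (.thr 0 32 (.thr 40 60 (.thr 42 63 (.thr 41 43 (.thr 56 11 (.dbl 24 8 28)))))) (.nv (.thr 24 28 (.thr 0 32 (.thr 60 40 (.thr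 52 56 (.dbl 36 4 12))))) (.rp 54 (.str 38 (.nv (.thr 24 28 (.thr 25 27 (.thr 50 14 (.dbl 51 12 49)))) (.nv (.thr 4 55 (.thr 52 36 (.thr 60 56 (.dbl 0 32 40)))) (.rp 4 (.str 7 (.nv (.thr 0 32 (.thr 42 63 (.thr 50 14 (.thr 51 49 (.dbl 34 17 46))))) (.nv (.thr 24 28 (.thr 12 36 (.dbl 25 27 51))) (.rp 51 (.thr 37 15 (.thr 24 28 (.dbl 36 12 39))) .nd)))) .nd)))) (.rp 38 (.str 54 (.nv (.thr 0 32 (.thr 24 28 (.thr 25 27 (.thr 29 17 (.thr 63 42 (.dbl 12 36 46)))))) (.nv (.thr 0 32 (.thr 63 42 (.thr 58 53 (.thr 62 50 (.dbl 60 40 61))))) (.nv (.thr 24 28 (.thr 0 32 (.thr 60 40 (.thr 52 56 (.dbl 36 4 12))))) (.rp 32 (.thr 24 28 (.thr 25 27 (.thr 29 17 (.thr 12 36 (.thr 63 46 (.thr 58 53 (.dbl 42 0 10))))))) (.rp 7 (.str 4 (.nv (.thr 24 28 (.dbl 36 12 52)) (.nv (.thr 0 32 (.thr 52 36 (.dbl 60 40 56)))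 (.nv (.thr 0 32 (.thr 12 8 (.dbl 36 24 52))) (.rp 52 (.thr 37 15 (.thr 24 28 (.thr 12 36 (.dbl 0 8 32)))) (.rp 37 (.thr 52 36 (.str 39 (.nv (.thr 0 32 (.thr 53 55 (.dbl 63 42 58))) (.nv (.thr 24 28 (.thr 60 56 (.thr 51 57 (.dbl 27 15 25)))) (.nv (.thr 60 56 (.dbl 0 32 40)) .nd))))) (.rp 36 (.thr 28 24 (.thr 0 32 (.thr 12 8 (.dbl 60 40 44)))) .nd))))))) (.rp 4 (.str 7 (.nv (.thr 0 32 (.thr 15 37 (.thr 3 11 (.thr 2 1 (.thr 18 33 (.thr 17 19 (.dbl 34 50 51))))))) (.nv (.thr 0 32 (.thr 60 40 (.thr 52 56 (.thr 53 55 (.dbl 63 42 58))))) (.rp 42 (.thr 15 37 (.thr 11 3 (.thr 56 41 (.thr 60 52 (.dbl 0 32 40))))) (.rp 36 (.thr 0 32 (.thr 63 42 (.thr 53 58 (.thr 52 55 (.dbl 60 40 56))))) (.rp 32 (.thr 24 28 (.thr 25 27 (.thr 15 37 (.thr 3 11 (.thr 18 33 (.dbl 17 19 29)))))) (.rp 0 (.thr 24 28 (.thr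 25 27 (.thr 15 37 (.thr 3 11 (.thr 18 33 (.dbl 17 19 29)))))) .nd))))))) (.rp 0 (.thr 24 28 (.thr 25 27 (.thr 29 17 (.thr 12 36 (.thr 63 46 (.thr 58 53 (.thr 50 62 (.thr 51 49 (.thr 59 55 (.dbl 57 56 60)))))))))) .nd)))))))) (.rp 7 (.str 4 (.nv (.thr 38 55 (.thr 24 28 (.dbl 36 12 52))) (.nv (.thr 52 36 (.thr 60 56 (.dbl 0 32 40))) (.rp 52 (.thr 37 15 (.thr 24 28 (.thr 38 55 (.dbl 36 12 39)))) (.rp 38 (.str 54 (.nv (.thr 24 28 (.dbl 36 12 52)) (.nv (.thr 0 32 (.thr 52 36 (.dbl 60 40 56))) (.nv (.thr 0 32 (.thr 12 8 (.dbl 36 24 52))) (.rp 52 (.thr 37 15 (.thr 24 28 (.thr 12 36 (.dbl 0 8 32)))) (.rp 37 (.thr 52 36 (.str 39 (.nv (.thr 0 32 (.thr 53 55 (.dbl 63 42 58))) (.nv (.thr 24 28 (.thr 60 56 (.thr 51 57 (.dbl 27 15 25)))) (.nv (.thr 60 56 (.dbl 0 32 40)) .nd))))) (.rp 36 (.thr 28 24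 (.thr 0 32 (.thr 12 8 (.dbl 60 40 44)))) .nd))))))) (.rp 36 (.thr 28 24 (.thr 0 32 (.thr 12 8 (.dbl 60 40 44)))) .nd)))))) (.rp 4 (.str 7 (.nv (.thr 0 32 (.thr 24 28 (.thr 25 27 (.thr 40 60 (.thr 8 56 (.dbl 42 59 63)))))) (.nv (.thr 15 37 (.thr 24 28 (.thr 12 36 (.thr 14 13 (.thr 25 27 (.dbl 38 50 51)))))) (.nv (.thr 0 32 (.thr 15 37 (.thr 60 40 (.thr 56 52 (.dbl 11 3 41))))) (.rp 54 (.str 38 (.nv (.thr 0 32 (.thr 42 63 (.thr 50 14 (.thr 51 49 (.dbl 34 17 46))))) (.nv (.thr 24 28 (.thr 12 36 (.dbl 25 27 51))) (.rp 51 (.thr 37 15 (.thr 24 28 (.dbl 36 12 39))) .nd)))) (.rp 38 (.str 54 (.nv (.thr 0 32 (.thr 15 37 (.thr 3 11 (.thr 2 1 (.thr 18 33 (.thr 17 19 (.dbl 34 50 51))))))) (.nv (.thr 0 32 (.thr 60 40 (.thr 52 56 (.thr 53 55 (.dbl 63 42 58))))) (.rp 42 (.thr 15 37 (.thr 11 3 (.thr 56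 41 (.thr 60 52 (.dbl 0 32 40))))) (.rp 36 (.thr 0 32 (.thr 63 42 (.thr 53 58 (.thr 52 55 (.dbl 60 40 56))))) (.rp 32 (.thr 24 28 (.thr 25 27 (.thr 15 37 (.thr 3 11 (.thr 18 33 (.dbl 17 19 29)))))) (.rp 0 (.thr 24 28 (.thr 25 27 (.thr 15 37 (.thr 3 11 (.thr 18 33 (.dbl 17 19 29)))))) .nd))))))) .nd)))))) .nd))))))))) (.rp 19 (.thr 23 22 (.thr 24 28 (.thr 25 27 (.thr 29 17 (.str 38 (.nv (.thr 4 55 (.thr 12 51 (.thr 0 8 (.dbl 63 42 46)))) (.nv (.thr 4 55 (.thr 36 52 (.dbl 12 48 51))) (.rp 55 (.thr 12 51 (.thr 63 46 (.thr 48 36 (.dbl 0 32 42)))) (.rp 51 (.thr 4 55 (.thr 36 52 (.thr 48 12 (.dbl 37 15 39)))) (.rp 12 (.thr 4 55 (.thr 36 52 (.thr 37 39 (.thr 13 49 (.thr 45 61 (.thr 15 48 (.thr 60 30 (.thr 40 0 (.thr 44 32 (.dbl 41 33 35)))))))))) (.rp 4 (.str 7 (.nv (.thr 14 50 (.thr 12 51 (.thr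 15 13 (.thr 3 11 (.dbl 63 43 46))))) (.nv (.thr 39 55 (.thr 36 37 (.dbl 12 48 51))) (.rp 51 (.thr 39 55 (.thr 37 36 (.thr 48 15 (.thr 0 32 (.thr 40 60 (.thr 8 56 (.dbl 42 59 63))))))) (.rp 48 (.thr 12 51 (.thr 63 46 (.thr 3 43 (.thr 0 42 (.thr 40 60 (.thr 56 8 (.dbl 11 15 41))))))) (.rp 12 (.thr 39 55 (.thr 37 36 (.thr 13 49 (.thr 48 15 (.thr 0 32 (.thr 63 42 (.thr 61 45 (.dbl 60 40 62)))))))) .nd)))))) .nd))))))))))) (.rp 18 (.str 4 (.nv (.thr 24 28 (.thr 36 52 (.thr 38 55 (.thr 48 12 (.dbl 37 15 39))))) (.nv (.thr 22 23 (.thr 52 36 (.thr 37 7 (.thr 48 15 (.thr 0 32 (.dbl 60 40 56)))))) (.nv (.thr 24 28 (.thr 25 27 (.thr 36 52 (.thr 38 55 (.dbl 12 48 51))))) (.rp 55 (.thr 24 28 (.thr 25 27 (.thr 29 17 (.thr 36 52 (.thr 12 48 (.thr 0 8 (.dbl 63 42 46))))))) (.rp 52 (.thr 24 28 (.thr 25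 27 (.thr 38 55 (.thr 12 51 (.thr 0 8 (.dbl 48 32 36)))))) (.rp 48 (.thr 24 28 (.thr 25 27 (.thr 29 17 (.thr 38 55 (.thr 12 51 (.thr 0 8 (.dbl 63 42 46))))))) (.rp 36 (.thr 24 28 (.thr 25 27 (.thr 29 17 (.thr 38 55 (.thr 12 51 (.thr 0 8 (.dbl 63 42 46))))))) .nd)))))))) (.rp 17 (.str 4 (.nv (.thr 24 28 (.thr 36 52 (.thr 38 55 (.thr 37 39 (.dbl 48 12 15))))) (.nv (.thr 22 23 (.thr 52 36 (.thr 37 7 (.thr 48 15 (.thr 0 32 (.dbl 60 40 56)))))) (.nv (.thr 24 28 (.thr 25 27 (.thr 36 52 (.thr 12 48 (.dbl 38 51 55))))) (.rp 55 (.thr 22 23 (.thr 24 28 (.thr 30 18 (.thr 36 52 (.thr 48 12 (.thr 15 37 (.thr 0 32 (.dbl 60 40 45)))))))) (.rp 52 (.thr 24 28 (.thr 25 27 (.thr 38 55 (.thr 12 51 (.thr 0 8 (.dbl 48 32 36)))))) (.rp 48 (.thr 24 28 (.thr 25 27 (.thr 38 55 (.thr 12 51 (.thr 0 8 (.thr 60 40 (.thr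 63 42 (.thr 61 62 (.thr 41 1 (.dbl 22 3 23)))))))))) (.rp 36 (.thr 24 28 (.thr 25 27 (.thr 38 55 (.thr 12 51 (.thr 0 8 (.thr 14 50 (.thr 15 13 (.dbl 48 32 37)))))))) (.rp 23 (.thr 24 28 (.thr 36 52 (.thr 12 48 (.thr 38 55 (.dbl 25 27 51))))) .nd))))))))) (.rp 7 (.str 4 (.nv (.thr 24 28 (.thr 36 52 (.thr 48 12 (.thr 37 15 (.dbl 38 39 55))))) (.nv (.thr 28 24 (.thr 22 23 (.thr 19 25 (.dbl 18 17 30)))) (.rp 55 (.thr 24 28 (.thr 25 27 (.thr 29 17 (.thr 36 52 (.thr 12 48 (.thr 0 8 (.dbl 63 42 46))))))) (.rp 39 (.thr 22 23 (.thr 55 38 (.thr 28 24 (.thr 19 25 (.dbl 18 17 30))))) (.rp 30 (.thr 23 22 (.thr 38 55 (.thr 36 52 (.thr 37 39 (.thr 48 15 (.dbl 24 12 28)))))) (.rp 28 (.thr 23 22 (.thr 38 55 (.thr 36 52 (.thr 37 39 (.thr 48 15 (.thr 12 24 (.dbl 0 8 32))))))) (.rp 24 (.thr 23 22 (.thr 38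 55 (.thr 36 52 (.thr 37 39 (.thr 48 15 (.thr 50 14 (.thr 51 49 (.thr 12 25 (.dbl 0 8 32))))))))) (.rp 22 (.thr 24 28 (.thr 25 27 (.thr 38 55 (.thr 12 51 (.dbl 36 48 52))))) .nd))))))))) (.rp 4 (.str 7 (.nv (.thr 22 23 (.thr 30 18 (.thr 37 52 (.thr 15 48 (.thr 3 11 (.dbl 60 41 45)))))) (.nv (.thr 28 24 (.thr 22 23 (.thr 19 25 (.dbl 18 17 30)))) (.rp 30 (.thr 22 23 (.thr 37 52 (.thr 15 48 (.thr 3 11 (.thr 60 41 (.thr 0 40 (.thr 2 1 (.dbl 42 62 63)))))))) (.rp 23 (.str 19 (.nv (.thr 18 17 (.thr 22 30 (.dbl 28 24 25))) (.rp 30 (.thr 17 18 (.thr 28 24 (.dbl 25 22 29))) (.rp 28 (.str 22 (.nv (.dbl 18 17 30) (.rp 30 (.str 29 (.nv (.dbl 17 18 25) (.rp 25 (.thr 18 17 (.thr 37 52 (.thr 48 15 (.thr 0 32 (.thr 3 33 (.dbl 60 40 41)))))) (.rp 18 (.thr 25 17 (.thr 27 24 (.thr 37 52 (.thr 15 48 (.thr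 3 11 (.dbl 51 35 39)))))) (.rp 17 (.thr 37 52 (.thr 15 48 (.thr 3 11 (.thr 60 41 (.thr 0 40 (.thr 2 1 (.dbl 42 62 63))))))) .nd))))) (.rp 29 (.thr 30 18 (.thr 37 52 (.thr 15 48 (.thr 3 11 (.dbl 60 41 45))))) (.rp 18 (.thr 37 52 (.thr 15 48 (.thr 3 11 (.thr 60 41 (.thr 0 40 (.thr 2 1 (.dbl 42 62 63))))))) (.rp 17 (.thr 30 18 (.thr 37 52 (.thr 15 48 (.thr 3 11 (.dbl 60 41 45))))) .nd)))))) (.rp 25 (.thr 18 17 (.thr 22 30 (.thr 37 52 (.thr 48 15 (.thr 0 32 (.thr 3 33 (.dbl 60 40 41))))))) (.rp 24 (.thr 18 17 (.thr 22 30 (.thr 37 52 (.thr 48 15 (.thr 0 32 (.thr 3 33 (.dbl 60 40 41))))))) (.rp 22 (.thr 17 18 (.thr 24 28 (.dbl 25 27 29))) (.rp 18 (.thr 28 24 (.thr 22 25 (.thr 37 52 (.thr 15 48 (.thr 3 11 (.thr 60 41 (.thr 0 40 (.thr 2 1 (.dbl 42 62 63))))))))) (.rp 17 (.thr 28 24 (.thr 22 25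 (.thr 30 18 (.thr 37 52 (.thr 15 48 (.thr 3 11 (.dbl 60 41 45))))))) .nd))))))))) (.rp 22 (.str 48 (.nv (.thr 0 32 (.thr 24 28 (.thr 25 27 (.thr 40 60 (.thr 8 56 (.dbl 42 59 63)))))) (.nv (.thr 15 37 (.thr 24 28 (.thr 12 36 (.thr 14 13 (.thr 25 27 (.dbl 38 50 51)))))) (.nv (.thr 0 32 (.thr 15 37 (.thr 60 40 (.thr 56 52 (.dbl 11 3 41))))) (.rp 54 (.str 38 (.nv (.thr 0 32 (.thr 42 63 (.thr 50 14 (.thr 51 49 (.dbl 34 17 46))))) (.nv (.thr 24 28 (.thr 12 36 (.dbl 25 27 51))) (.rp 51 (.thr 37 15 (.thr 24 28 (.dbl 36 12 39))) .nd)))) (.rp 38 (.str 54 (.nv (.thr 0 32 (.thr 15 37 (.thr 3 11 (.thr 2 1 (.thr 18 33 (.thr 17 19 (.dbl 34 50 51))))))) (.nv (.thr 0 32 (.thr 60 40 (.thr 52 56 (.thr 53 55 (.dbl 63 42 58))))) (.rp 42 (.thr 15 37 (.thr 11 3 (.thr 56 41 (.thr 60 52 (.dbl 0 32 40))))) (.rp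 36 (.thr 0 32 (.thr 63 42 (.thr 53 58 (.thr 52 55 (.dbl 60 40 56))))) (.rp 32 (.thr 24 28 (.thr 25 27 (.thr 15 37 (.thr 3 11 (.thr 18 33 (.dbl 17 19 29)))))) (.rp 0 (.thr 24 28 (.thr 25 27 (.thr 15 37 (.thr 3 11 (.thr 18 33 (.dbl 17 19 29)))))) .nd))))))) .nd)))))) (.rp 19 (.thr 24 28 (.thr 22 23 (.thr 27 25 (.thr 30 18 (.thr 37 52 (.thr 15 48 (.thr 3 11 (.dbl 60 41 45)))))))) (.rp 18 (.thr 22 23 (.thr 37 52 (.thr 15 48 (.thr 3 11 (.thr 60 41 (.thr 0 40 (.thr 2 1 (.dbl 42 62 63)))))))) .nd)))))))) .nd)))))))))))))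

theorem w213 : WinAt (69271552, 2147483744) :=
  chF (K := []) kn c213 69271552 2147483744 31
    [240] (by decide +kernel) (by decide +kernel)

/-- A certificate. -/
noncomputable def c214 : Ct := (.str 0 (.nv (.thr 48 32 (.thr 15 37 (.thr 42 63 (.dbl 10 5 58)))) (.nv (.thr 48 32 (.thr 63 42 (.thr 53 58 (.dbl 37 5 15)))) (.rp 63 (.str 15 (.nv (.thr 5 10 (.dbl 37 48 53)) (.nv (.dbl 48 32 37) (.rp 48 (.thr 5 10 (.thr 53 37 (.str 22 (.nv (.thr 18 30 (.thr 17 19 (.thr 51 34 (.thr 27 39 (.dbl 25 24 29))))) (.nv (.thr 30 18 (.thr 60 45 (.dbl 20 23 40))) (.rp 30 (.thr 20 23 (.thr 28 24 (.thr 19 25 (.thr 17 18 (.thr 51 34 (.thr 3 35 (.dbl 60 40 41))))))) (.rp 23 (.thr 30 18 (.thr 60 45 (.thr 20 40 (.thr 28 24 (.thr 12 44 (.thr 14 13 (.thr 38 50 (.dbl 25 19 51)))))))) (.rp 18 (.thr 20 23 (.thr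 28 24 (.thr 60 40 (.thr 12 44 (.thr 14 13 (.thr 38 50 (.dbl 25 19 51))))))) (.rp 14 (.str 2 (.nv (.thr 3 1 (.thr 20 23 (.dbl 60 40 41))) (.nv (.thr 18 30 (.thr 17 19 (.dbl 34 50 51))) (.nv (.thr 3 1 (.thr 30 18 (.dbl 60 41 45))) .nd)))) (.rp 2 (.str 14 (.nv (.thr 20 23 (.thr 60 40 (.dbl 30 18 45))) (.nv (.thr 12 13 (.thr 4 8 (.dbl 38 50 55))) (.rp 55 (.thr 30 18 (.thr 60 45 (.dbl 20 23 40))) .nd)))) .nd)))))))))) (.rp 37 (.str 22 (.nv (.thr 20 23 (.thr 48 32 (.thr 60 40 (.thr 56 52 (.dbl 41 3 11))))) (.nv (.thr 18 30 (.thr 17 19 (.thr 51 34 (.thr 27 39 (.dbl 25 24 29))))) (.nv (.thr 30 18 (.thr 60 45 (.dbl 20 23 40))) (.rp 23 (.thr 18 30 (.thr 48 32 (.thr 3 33 (.thr 1 2 (.dbl 41 60 61))))) (.rp 5 (.str 4 (.nv (.thr 12 8 (.thr 14 13 (.dbl 38 50 55))) (.nv (.thr 30 18 (.thr 60 45 (.dbl 20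 23 40))) .nd))) (.rp 4 (.thr 5 10 (.thr 20 23 (.thr 30 18 (.dbl 60 40 45)))) .nd))))))) (.rp 5 (.str 4 (.nv (.thr 12 8 (.thr 14 13 (.dbl 38 50 55))) (.nv (.dbl 48 32 37) .nd))) .nd)))))) (.rp 58 (.str 4 (.nv (.thr 12 8 (.thr 48 32 (.thr 15 37 (.thr 14 13 (.dbl 38 50 55))))) (.nv (.thr 12 8 (.thr 38 55 (.thr 14 50 (.thr 15 13 (.dbl 48 32 37))))) (.nv (.thr 12 8 (.thr 38 55 (.thr 25 51 (.thr 63 42 (.dbl 29 17 46))))) (.rp 55 (.thr 12 8 (.thr 48 32 (.thr 24 36 (.thr 25 27 (.thr 17 29 (.dbl 51 34 38)))))) (.rp 38 (.thr 12 8 (.thr 48 32 (.thr 24 36 (.thr 25 27 (.thr 29 17 (.dbl 63 42 46)))))) (.rp 12 (.thr 38 55 (.thr 50 14 (.thr 48 32 (.thr 51 49 (.thr 34 17 (.dbl 42 46 63)))))) (.rp 8 (.thr 38 55 (.thr 50 14 (.thr 48 32 (.thr 51 49 (.thr 25 12 (.dbl 17 29 34)))))) .nd)))))))) (.rp 48 (.str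 4 (.nv (.thr 12 8 (.thr 38 55 (.thr 14 50 (.thr 15 13 (.thr 10 5 (.dbl 42 58 63)))))) (.nv (.thr 12 8 (.thr 63 42 (.thr 29 46 (.thr 25 17 (.dbl 38 51 55))))) (.rp 63 (.thr 12 8 (.thr 38 55 (.thr 51 25 (.thr 14 50 (.thr 15 13 (.thr 5 10 (.thr 39 27 (.dbl 37 36 53)))))))) (.rp 55 (.thr 8 12 (.thr 42 63 (.thr 59 25 (.thr 58 10 (.thr 56 57 (.thr 41 11 (.dbl 40 24 43))))))) (.rp 51 (.thr 8 12 (.thr 42 63 (.thr 55 38 (.thr 25 59 (.thr 24 27 (.thr 20 28 (.dbl 40 56 60))))))) (.rp 42 (.thr 12 8 (.thr 38 55 (.thr 25 51 (.thr 17 29 (.thr 19 18 (.thr 28 22 (.dbl 24 20 27))))))) (.rp 38 (.thr 8 12 (.thr 42 63 (.thr 25 59 (.thr 24 27 (.thr 20 28 (.dbl 40 56 60)))))) (.rp 12 (.thr 38 55 (.thr 14 50 (.thr 42 63 (.thr 58 10 (.thr 46 34 (.thr 30 62 (.thr 18 22 (.thr 17 19 (.thr 25 29 (.thr 59 8 (.thr 56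 57 (.thr 11 41 (.dbl 27 24 43))))))))))))) (.rp 8 (.thr 38 55 (.thr 50 14 (.thr 42 63 (.thr 34 46 (.thr 2 18 (.thr 62 22 (.dbl 58 10 54))))))) .nd)))))))))) (.rp 42 (.str 4 (.nv (.thr 12 8 (.thr 48 32 (.thr 24 36 (.thr 25 27 (.thr 17 29 (.dbl 51 34 38)))))) (.nv (.thr 12 8 (.thr 38 55 (.thr 25 51 (.thr 17 29 (.thr 19 18 (.thr 24 27 (.dbl 28 20 22))))))) (.nv (.thr 12 8 (.thr 38 55 (.thr 14 50 (.thr 15 13 (.dbl 48 32 37))))) (.rp 59 (.thr 38 55 (.thr 50 14 (.thr 48 32 (.thr 51 49 (.dbl 12 8 25))))) (.rp 38 (.thr 12 8 (.thr 48 32 (.thr 24 36 (.thr 28 20 (.thr 25 27 (.thr 17 29 (.dbl 19 18 22))))))) (.rp 25 (.thr 55 38 (.thr 48 32 (.thr 37 15 (.thr 53 5 (.thr 63 58 (.thr 12 8 (.thr 59 51 (.thr 36 24 (.dbl 52 20 54))))))))) (.rp 23 (.thr 12 8 (.thr 48 32 (.thr 37 15 (.thr 36 24 (.dbl 38 39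 55))))) (.rp 12 (.thr 38 55 (.thr 50 14 (.thr 48 32 (.thr 51 49 (.thr 17 34 (.thr 25 29 (.thr 27 24 (.dbl 15 37 39)))))))) (.rp 8 (.thr 38 55 (.thr 50 14 (.thr 48 32 (.thr 51 49 (.thr 25 12 (.dbl 17 29 34)))))) .nd)))))))))) (.rp 37 (.str 22 (.nv (.thr 18 30 (.thr 42 63 (.thr 2 62 (.thr 3 1 (.dbl 48 32 33))))) (.nv (.thr 23 20 (.thr 63 42 (.thr 3 43 (.thr 1 2 (.dbl 41 60 61))))) (.nv (.thr 20 23 (.thr 18 30 (.thr 28 24 (.dbl 19 17 25)))) (.rp 5 (.str 4 (.nv (.thr 8 12 (.thr 18 30 (.thr 19 17 (.thr 42 63 (.dbl 25 28 59))))) (.nv (.thr 12 8 (.thr 48 32 (.thr 36 24 (.dbl 20 23 52)))) (.nv (.thr 20 23 (.thr 18 30 (.thr 28 24 (.dbl 19 17 25)))) .nd)))) (.rp 4 (.str 5 (.nv (.thr 18 30 (.thr 19 17 (.thr 20 23 (.dbl 28 24 25)))) (.nv (.thr 42 63 (.dbl 10 15 58)) .nd))) .nd)))))) (.rp 32 (.str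 4 (.nv (.thr 8 12 (.thr 42 63 (.thr 58 10 (.thr 59 25 (.thr 56 57 (.thr 40 24 (.dbl 41 11 43))))))) (.nv (.thr 12 8 (.thr 38 55 (.thr 14 50 (.thr 15 13 (.thr 5 10 (.dbl 37 48 53)))))) (.nv (.thr 12 8 (.thr 38 55 (.thr 25 51 (.thr 29 17 (.dbl 63 42 46))))) (.rp 38 (.thr 8 12 (.thr 42 63 (.thr 25 59 (.thr 24 27 (.thr 20 28 (.dbl 40 56 60)))))) (.rp 12 (.thr 38 55 (.thr 50 14 (.thr 42 63 (.thr 10 58 (.thr 15 5 (.thr 48 37 (.thr 51 49 (.dbl 34 17 46)))))))) (.rp 8 (.thr 38 55 (.thr 50 14 (.thr 42 63 (.thr 10 58 (.thr 34 46 (.thr 18 2 (.dbl 17 19 51))))))) .nd))))))) (.rp 15 (.thr 63 42 (.str 4 (.nv (.thr 12 8 (.thr 29 46 (.thr 25 17 (.thr 48 32 (.dbl 24 27 36))))) (.nv (.thr 38 55 (.thr 12 8 (.thr 25 51 (.thr 48 32 (.dbl 24 27 36))))) (.nv (.thr 12 8 (.thr 29 46 (.thr 25 17 (.dbl 38 51 55))))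 (.rp 38 (.thr 12 8 (.thr 48 32 (.thr 24 36 (.thr 25 27 (.dbl 29 17 46))))) (.rp 25 (.thr 55 38 (.thr 12 8 (.thr 59 51 (.thr 48 32 (.thr 53 58 (.thr 36 24 (.dbl 52 20 54))))))) (.rp 12 (.thr 55 38 (.thr 51 59 (.thr 48 32 (.thr 49 50 (.thr 53 58 (.thr 54 52 (.dbl 57 60 61))))))) (.rp 11 (.str 3 (.nv (.thr 1 2 (.thr 41 61 (.thr 22 60 (.dbl 23 20 43)))) (.nv (.thr 12 8 (.thr 29 46 (.thr 25 17 (.dbl 38 51 55)))) (.rp 10 (.thr 55 38 (.thr 51 59 (.thr 19 35 (.dbl 17 18 34)))) .nd)))) (.rp 8 (.thr 38 55 (.thr 50 14 (.thr 48 32 (.thr 51 49 (.thr 17 34 (.dbl 25 12 29)))))) (.rp 3 (.str 11 (.nv (.thr 48 32 (.thr 56 41 (.thr 60 52 (.thr 40 20 (.dbl 8 12 24))))) (.nv (.thr 12 8 (.thr 29 46 (.thr 25 17 (.dbl 38 51 55)))) (.rp 12 (.str 9 (.nv (.thr 41 56 (.thr 25 57 (.thr 17 29 (.thr 51 34 (.dbl 55 38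 59))))) (.nv (.thr 8 10 (.thr 56 41 (.thr 40 24 (.thr 60 20 (.dbl 48 32 52))))) (.nv (.thr 41 56 (.thr 1 61 (.thr 48 32 (.thr 53 58 (.dbl 5 13 37))))) (.rp 56 (.thr 55 38 (.thr 51 59 (.thr 48 32 (.thr 49 50 (.thr 53 58 (.thr 57 61 (.dbl 54 52 60))))))) (.rp 41 (.thr 55 38 (.thr 51 59 (.thr 48 32 (.thr 49 50 (.thr 53 58 (.thr 54 52 (.dbl 57 60 61))))))) (.rp 14 (.str 13 (.nv (.thr 10 8 (.thr 5 1 (.thr 48 32 (.dbl 53 37 58)))) (.nv (.thr 1 5 (.dbl 41 56 61)) (.rp 10 (.str 2 (.nv (.thr 5 1 (.thr 48 32 (.dbl 53 37 58))) (.nv (.thr 1 5 (.dbl 41 56 61)) (.rp 5 (.thr 41 56 (.thr 25 57 (.thr 29 17 (.dbl 61 1 45)))) (.rp 1 (.thr 55 38 (.thr 51 59 (.thr 34 17 (.thr 50 18 (.dbl 48 32 49))))) .nd))))) (.rp 5 (.thr 41 56 (.thr 25 57 (.thr 29 17 (.dbl 61 1 45)))) (.rp 1 (.thr 55 38 (.thr 48 32 (.thr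 58 53 (.thr 56 41 (.dbl 59 51 57))))) .nd)))))) (.rp 13 (.str 14 (.nv (.dbl 38 50 55) (.rp 55 (.thr 8 10 (.thr 48 32 (.thr 56 41 (.thr 60 52 (.dbl 40 20 24))))) (.rp 50 (.thr 8 10 (.thr 48 32 (.thr 56 41 (.thr 60 52 (.dbl 40 20 24))))) (.rp 38 (.thr 8 10 (.thr 48 32 (.thr 56 41 (.thr 60 52 (.dbl 40 20 24))))) .nd))))) .nd)))))))) (.rp 8 (.thr 55 38 (.thr 59 51 (.thr 48 32 (.thr 58 53 (.dbl 56 41 57))))) .nd))))) .nd))))))))))) (.rp 5 (.str 4 (.nv (.thr 12 8 (.thr 63 42 (.thr 29 46 (.thr 25 17 (.dbl 38 51 55))))) (.nv (.thr 12 8 (.thr 38 55 (.thr 14 50 (.thr 48 32 (.dbl 15 13 37))))) (.rp 55 (.thr 12 8 (.thr 48 32 (.thr 24 36 (.thr 25 27 (.thr 17 29 (.dbl 51 34 38)))))) (.rp 38 (.thr 12 8 (.thr 48 32 (.thr 24 36 (.thr 25 27 (.thr 29 17 (.dbl 63 42 46)))))) (.rp 12 (.thr 38 55 (.thr 50 14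 (.thr 48 32 (.thr 51 49 (.thr 34 17 (.dbl 42 46 63)))))) (.rp 8 (.thr 38 55 (.thr 50 14 (.thr 48 32 (.thr 51 49 (.thr 25 12 (.dbl 17 29 34)))))) .nd))))))) (.rp 4 (.str 5 (.nv (.thr 32 48 (.thr 37 53 (.dbl 42 47 63))) (.nv (.thr 10 15 (.dbl 42 58 63)) (.nv (.thr 48 32 (.dbl 15 10 37)) .nd)))) .nd))))))))))))

theorem w214 : WinAt (69271552, 2147483840) :=
  chF (K := []) kn c214 69271552 2147483840 31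
    [240] (by decide +kernel) (by decide +kernel)

/-- A certificate. -/
noncomputable def c215 : Ct := (.str 15 (.nv (.thr 63 47 (.thr 0 42 (.thr 37 48 (.dbl 5 10 53)))) (.rp 63 (.str 12 (.nv (.thr 48 37 (.thr 24 36 (.thr 25 27 (.thr 38 51 (.dbl 14 13 50))))) (.nv (.thr 13 14 (.thr 37 48 (.thr 49 25 (.thr 53 5 (.thr 61 57 (.thr 41 1 (.dbl 45 29 33))))))) (.nv (.thr 14 13 (.thr 48 37 (.thr 24 36 (.thr 38 50 (.dbl 25 27 51))))) (.rp 48 (.thr 14 13 (.thr 38 50 (.thr 51 25 (.thr 39 27 (.thr 4 55 (.thr 0 8 (.thr 37 36 (.dbl 5 10 53)))))))) (.rp 37 (.thr 14 13 (.thr 38 50 (.thr 25 51 (.thr 27 24 (.thr 29 17 (.thr 28 30 (.dbl 19 22 23))))))) (.rp 25 (.thr 14 13 (.thr 37 48 (.thr 38 50 (.thr 4 55 (.thr 0 8 (.dbl 5 10 53)))))) (.rp 14 (.thr 48 37 (.thr 24 36 (.thr 25 27 (.thr 29 17 (.thr 28 30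 (.thr 60 44 (.thr 56 52 (.thr 41 11 (.dbl 22 3 19))))))))) (.rp 13 (.thr 48 37 (.thr 24 36 (.thr 25 27 (.thr 29 17 (.thr 28 30 (.thr 60 44 (.thr 56 52 (.thr 41 11 (.dbl 22 3 19))))))))) .nd))))))))) (.rp 53 (.str 12 (.nv (.thr 48 37 (.thr 24 36 (.thr 25 27 (.thr 29 17 (.dbl 63 46 47))))) (.nv (.thr 13 14 (.thr 63 47 (.thr 29 46 (.thr 45 61 (.dbl 30 28 60))))) (.nv (.thr 48 37 (.thr 24 36 (.thr 25 27 (.thr 38 51 (.dbl 14 13 50))))) .nd)))) (.rp 48 (.str 12 (.nv (.thr 63 47 (.thr 29 46 (.thr 25 17 (.thr 27 24 (.dbl 51 38 39))))) (.nv (.thr 14 13 (.thr 38 50 (.thr 4 55 (.thr 63 47 (.dbl 0 8 42))))) (.nv (.thr 13 14 (.thr 63 47 (.thr 29 46 (.thr 45 61 (.dbl 30 28 60))))) (.rp 63 (.thr 14 13 (.thr 38 50 (.thr 51 25 (.thr 39 27 (.thr 4 55 (.thr 0 8 (.thr 37 36 (.dbl 5 10 53)))))))) (.rp 47 (.thr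 14 13 (.thr 38 50 (.thr 4 55 (.thr 0 8 (.thr 42 63 (.dbl 10 5 58)))))) (.rp 32 (.str 0 (.nv (.thr 4 8 (.thr 14 13 (.dbl 38 50 55))) (.nv (.dbl 63 42 47) .nd))) (.rp 0 (.str 32 (.nv (.thr 63 47 (.thr 29 46 (.thr 25 17 (.thr 27 24 (.dbl 51 38 39))))) (.nv (.thr 14 13 (.thr 38 50 (.thr 51 25 (.thr 55 4 (.dbl 63 47 59))))) (.nv (.thr 13 14 (.thr 63 47 (.thr 29 46 (.thr 45 61 (.dbl 30 28 60))))) (.rp 63 (.thr 14 13 (.thr 38 50 (.thr 51 25 (.thr 39 27 (.thr 37 36 (.thr 47 42 (.thr 35 43 (.thr 33 34 (.dbl 41 44 45))))))))) (.rp 47 (.thr 14 13 (.thr 38 50 (.thr 51 25 (.thr 39 27 (.thr 37 36 (.thr 55 4 (.thr 7 23 (.thr 52 22 (.dbl 53 5 54))))))))) .nd)))))) .nd)))))))) (.rp 47 (.str 12 (.nv (.thr 13 14 (.thr 48 37 (.thr 24 36 (.thr 25 27 (.thr 29 17 (.thr 30 28 (.dbl 45 60 61))))))) (.nv (.thr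 14 13 (.thr 38 50 (.thr 4 55 (.thr 0 8 (.thr 42 63 (.dbl 10 5 58)))))) (.nv (.thr 14 13 (.thr 38 50 (.thr 25 51 (.thr 24 27 (.dbl 48 36 37))))) (.rp 38 (.thr 13 14 (.thr 37 48 (.thr 25 49 (.thr 29 17 (.thr 30 28 (.dbl 45 60 61)))))) (.rp 14 (.thr 48 37 (.thr 24 36 (.thr 25 27 (.thr 29 17 (.thr 63 46 (.thr 58 53 (.dbl 42 0 10))))))) (.rp 13 (.thr 48 37 (.thr 24 36 (.thr 25 27 (.thr 29 17 (.thr 63 46 (.thr 58 53 (.dbl 42 0 10))))))) .nd))))))) (.rp 42 (.str 12 (.nv (.thr 48 37 (.thr 24 36 (.thr 25 27 (.thr 29 17 (.dbl 63 46 47))))) (.nv (.thr 13 14 (.thr 63 47 (.thr 29 46 (.thr 45 61 (.dbl 30 28 60))))) (.nv (.thr 14 13 (.thr 38 50 (.thr 25 51 (.thr 24 27 (.dbl 48 36 37))))) (.rp 38 (.thr 13 14 (.thr 63 47 (.thr 37 48 (.thr 25 49 (.dbl 29 17 46))))) (.rp 37 (.thr 14 13 (.thr 38 50 (.thr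 25 51 (.thr 29 17 (.dbl 63 46 47))))) .nd)))))) (.rp 37 (.str 12 (.nv (.thr 63 47 (.thr 29 46 (.thr 25 17 (.thr 27 24 (.dbl 51 38 39))))) (.nv (.thr 13 14 (.thr 63 47 (.thr 29 46 (.thr 45 61 (.dbl 30 28 60))))) (.nv (.thr 14 13 (.thr 38 50 (.thr 25 51 (.thr 27 24 (.thr 19 23 (.thr 28 22 (.dbl 29 17 30))))))) (.nv (.thr 63 47 (.thr 42 0 (.thr 46 29 (.thr 38 34 (.dbl 14 13 50))))) (.rp 29 (.thr 14 13 (.thr 63 47 (.thr 38 50 (.thr 4 55 (.dbl 0 8 42))))) .nd)))))) (.rp 12 (.str 3 (.nv (.thr 7 11 (.thr 63 47 (.thr 23 43 (.thr 27 19 (.dbl 39 51 55))))) (.nv (.thr 11 7 (.thr 41 56 (.thr 22 60 (.thr 18 30 (.dbl 48 33 37))))) (.nv (.thr 48 37 (.thr 63 47 (.thr 58 53 (.dbl 42 0 10)))) .nd)))) (.rp 10 (.str 11 (.nv (.thr 37 48 (.thr 41 56 (.thr 45 33 (.thr 60 30 (.dbl 3 7 22))))) (.nv (.thr 3 7 (.thr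 41 56 (.thr 1 61 (.thr 63 47 (.dbl 0 2 42))))) (.rp 56 (.thr 3 7 (.thr 63 47 (.thr 23 43 (.thr 22 20 (.thr 30 18 (.dbl 60 41 45)))))) (.rp 41 (.thr 3 7 (.thr 63 47 (.thr 23 43 (.thr 22 20 (.thr 18 30 (.dbl 48 33 37)))))) (.rp 14 (.str 2 (.nv (.thr 3 7 (.thr 63 47 (.thr 23 43 (.thr 22 20 (.dbl 42 0 62))))) (.nv (.thr 41 56 (.thr 1 61 (.dbl 3 0 7))) (.rp 7 (.thr 63 47 (.thr 0 42 (.thr 41 56 (.dbl 1 3 61)))) (.rp 3 (.str 12 (.nv (.thr 56 41 (.thr 48 37 (.thr 60 52 (.thr 28 44 (.dbl 30 29 45))))) (.nv (.thr 41 56 (.thr 61 1 (.thr 63 47 (.thr 42 0 (.dbl 62 22 60))))) (.nv (.thr 48 37 (.thr 24 36 (.thr 25 27 (.thr 29 17 (.dbl 63 46 47))))) (.rp 48 (.thr 63 47 (.thr 29 46 (.thr 25 17 (.thr 27 24 (.dbl 51 38 39))))) .nd))))) (.rp 0 (.thr 3 7 (.thr 63 47 (.thr 23 43 (.thr 22 20 (.dbl 41 56 60)))))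 .nd)))))) (.rp 7 (.thr 41 56 (.thr 61 1 (.thr 63 47 (.thr 60 62 (.thr 30 45 (.dbl 22 3 18)))))) (.rp 3 (.str 12 (.nv (.thr 48 37 (.thr 56 41 (.thr 60 52 (.thr 28 44 (.dbl 30 29 45))))) (.nv (.thr 14 13 (.thr 38 50 (.thr 4 55 (.thr 0 8 (.dbl 63 42 47))))) (.rp 38 (.thr 41 56 (.thr 61 1 (.thr 63 47 (.thr 29 46 (.dbl 13 14 45))))) (.rp 14 (.str 2 (.nv (.thr 56 41 (.thr 48 37 (.thr 60 52 (.thr 28 44 (.dbl 30 29 45))))) (.nv (.thr 41 56 (.thr 61 1 (.thr 63 47 (.thr 42 0 (.dbl 62 22 60))))) (.nv (.thr 48 37 (.thr 24 36 (.thr 25 27 (.thr 29 17 (.dbl 63 46 47))))) (.rp 48 (.thr 63 47 (.thr 29 46 (.thr 25 17 (.thr 27 24 (.dbl 51 38 39))))) .nd))))) .nd))))) (.rp 2 (.str 14 (.nv (.thr 41 56 (.thr 63 47 (.thr 42 0 (.thr 43 40 (.dbl 3 7 23))))) (.nv (.thr 12 13 (.thr 38 50 (.thr 63 47 (.thr 29 46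 (.dbl 25 17 51))))) (.nv (.thr 3 7 (.thr 41 56 (.thr 22 60 (.thr 48 37 (.dbl 18 30 33))))) .nd)))) (.rp 0 (.thr 3 7 (.thr 41 56 (.thr 22 60 (.thr 18 30 (.dbl 48 33 37))))) .nd)))))))))) (.rp 5 (.thr 63 47 (.thr 42 0 (.thr 58 10 (.dbl 48 37 53)))) (.rp 3 (.str 12 (.nv (.thr 13 14 (.thr 63 47 (.thr 29 46 (.thr 30 28 (.dbl 45 60 61))))) (.nv (.thr 14 13 (.thr 38 50 (.thr 25 51 (.thr 24 27 (.dbl 48 36 37))))) (.nv (.thr 48 37 (.thr 63 47 (.thr 58 53 (.dbl 42 0 10)))) .nd)))) (.rp 0 (.str 12 (.nv (.thr 48 37 (.thr 24 36 (.thr 25 27 (.thr 29 17 (.dbl 63 46 47))))) (.nv (.thr 13 14 (.thr 63 47 (.thr 29 46 (.thr 45 61 (.dbl 30 28 60))))) (.nv (.thr 48 37 (.thr 14 13 (.thr 24 36 (.thr 38 50 (.dbl 25 27 51))))) (.rp 48 (.str 32 (.nv (.thr 63 47 (.thr 29 46 (.thr 25 17 (.thr 27 24 (.dbl 51 38 39)))))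 (.nv (.thr 14 13 (.thr 38 50 (.thr 51 25 (.thr 55 4 (.dbl 63 47 59))))) (.nv (.thr 13 14 (.thr 63 47 (.thr 29 46 (.thr 45 61 (.dbl 30 28 60))))) (.rp 63 (.thr 14 13 (.thr 38 50 (.thr 51 25 (.thr 39 27 (.thr 37 36 (.thr 47 42 (.thr 35 43 (.thr 33 34 (.dbl 41 44 45))))))))) (.rp 47 (.thr 14 13 (.thr 38 50 (.thr 51 25 (.thr 39 27 (.thr 37 36 (.thr 55 4 (.thr 7 23 (.thr 52 22 (.dbl 53 5 54))))))))) .nd)))))) .nd))))) .nd)))))))))))))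

theorem w215 : WinAt (2216689664, 66112) :=
  chF (K := []) kn c215 2216689664 66112 16
    [4680] (by decide +kernel) (by decide +kernel)

/-- A certificate. -/
noncomputable def c216 : Ct := (.str 30 (.nv (.thr 28 29 (.thr 22 18 (.thr 19 25 (.dbl 23 20 27)))) (.rp 29 (.thr 22 18 (.thr 23 20 (.thr 19 27 (.thr 28 25 (.str 3 (.nv (.thr 63 43 (.thr 15 47 (.thr 37 48 (.dbl 7 11 52)))) (.nv (.thr 60 41 (.thr 15 45 (.thr 37 48 (.dbl 7 11 52)))) (.nv (.thr 63 43 (.thr 15 47 (.dbl 60 41 45))) (.rp 15 (.thr 63 43 (.thr 0 42 (.thr 41 60 (.dbl 1 2 61)))) (.rp 14 (.str 2 (.nv (.thr 60 41 (.thr 15 45 (.dbl 63 43 47))) (.nv (.thr 0 1 (.dbl 42 62 63)) (.rp 63 (.thr 1 0 (.dbl 41 60 61)) .nd)))) (.rp 11 (.thr 60 41 (.thr 15 45 (.dbl 63 43 47))) (.rp 2 (.str 14 (.nv (.thr 63 43 (.thr 15 47 (.thr 37 48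 (.dbl 7 11 52)))) (.nv (.thr 35 51 (.thr 41 60 (.dbl 38 44 50))) (.nv (.thr 62 46 (.thr 63 43 (.dbl 60 41 61))) (.rp 50 (.str 34 (.nv (.thr 60 41 (.thr 15 45 (.dbl 12 13 44))) (.nv (.thr 51 35 (.thr 0 17 (.dbl 63 42 43))) .nd))) (.rp 34 (.thr 50 38 (.thr 63 43 (.thr 15 47 (.dbl 60 41 45)))) .nd)))))) .nd)))))))))))) (.rp 28 (.str 37 (.nv (.thr 15 48 (.thr 60 45 (.thr 63 47 (.thr 0 42 (.thr 20 40 (.dbl 22 18 23)))))) (.nv (.thr 22 18 (.thr 52 7 (.thr 20 23 (.thr 4 36 (.thr 55 38 (.dbl 53 5 54)))))) (.nv (.thr 15 48 (.thr 60 45 (.thr 22 18 (.thr 3 41 (.dbl 7 11 52))))) (.rp 24 (.str 20 (.nv (.dbl 22 18 23) (.rp 23 (.thr 15 48 (.thr 60 45 (.thr 63 47 (.dbl 0 40 42)))) (.rp 22 (.thr 15 48 (.thr 60 45 (.thr 63 47 (.dbl 0 40 42)))) (.rp 18 (.thr 15 48 (.thr 60 45 (.thr 63 47 (.dbl 0 40 42))))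 (.rp 14 (.str 2 (.nv (.dbl 22 18 23) (.rp 23 (.thr 22 18 (.thr 15 48 (.thr 42 62 (.dbl 47 32 63)))) (.rp 22 (.thr 15 48 (.thr 60 45 (.thr 0 40 (.dbl 63 42 47)))) (.rp 18 (.thr 22 23 (.thr 15 48 (.thr 42 62 (.dbl 47 32 63)))) .nd))))) (.rp 2 (.str 14 (.nv (.thr 38 50 (.thr 4 55 (.dbl 36 39 52))) (.nv (.dbl 22 18 23) (.rp 18 (.thr 62 46 (.thr 15 48 (.thr 60 45 (.dbl 63 47 61)))) .nd)))) .nd))))))) (.rp 22 (.thr 15 48 (.thr 45 60 (.thr 41 33 (.thr 53 5 (.thr 61 1 (.thr 49 57 (.dbl 13 25 29))))))) (.rp 20 (.str 24 (.nv (.thr 5 53 (.thr 25 27 (.thr 13 49 (.thr 1 9 (.thr 29 17 (.dbl 61 41 45)))))) (.nv (.thr 15 48 (.thr 22 18 (.thr 60 45 (.thr 3 41 (.dbl 7 11 52))))) (.nv (.thr 25 27 (.thr 49 13 (.thr 48 15 (.thr 51 50 (.dbl 12 36 38))))) (.rp 14 (.str 2 (.nv (.thr 5 53 (.thr 25 27 (.thr 13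 49 (.thr 1 9 (.thr 61 41 (.dbl 29 17 45)))))) (.nv (.thr 22 18 (.thr 42 62 (.thr 47 32 (.dbl 15 48 63)))) (.rp 17 (.thr 18 22 (.thr 25 27 (.thr 48 15 (.thr 50 34 (.dbl 49 13 51))))) .nd)))) (.rp 2 (.str 14 (.nv (.thr 15 48 (.thr 46 62 (.thr 47 63 (.dbl 45 44 60)))) (.nv (.thr 25 27 (.thr 13 49 (.dbl 15 12 48))) (.rp 48 (.thr 25 27 (.thr 13 49 (.thr 12 15 (.dbl 38 50 51)))) (.rp 15 (.thr 38 50 (.thr 36 39 (.thr 12 48 (.dbl 25 27 51)))) .nd))))) .nd)))))) (.rp 18 (.thr 15 48 (.thr 63 47 (.thr 60 45 (.thr 61 62 (.thr 41 1 (.thr 11 56 (.dbl 3 7 22))))))) (.rp 14 (.str 2 (.nv (.thr 15 48 (.thr 60 45 (.thr 63 47 (.thr 62 61 (.dbl 42 0 22))))) (.nv (.thr 15 48 (.thr 22 18 (.thr 7 52 (.thr 3 11 (.dbl 60 41 45))))) (.nv (.thr 22 18 (.thr 42 62 (.thr 47 32 (.dbl 15 48 63)))) (.rp 48 (.thr 22 18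 (.thr 20 23 (.thr 52 7 (.thr 4 36 (.thr 53 5 (.dbl 55 38 54)))))) (.rp 32 (.thr 18 22 (.thr 48 15 (.thr 3 33 (.thr 0 1 (.thr 53 5 (.dbl 63 42 58)))))) (.rp 24 (.str 20 (.nv (.dbl 22 18 23) (.rp 23 (.thr 22 18 (.thr 15 48 (.thr 42 62 (.dbl 47 32 63)))) (.rp 22 (.thr 15 48 (.thr 60 45 (.thr 0 40 (.dbl 63 42 47)))) (.rp 18 (.thr 22 23 (.thr 15 48 (.thr 42 62 (.dbl 47 32 63)))) .nd))))) (.rp 22 (.thr 15 48 (.thr 45 60 (.thr 41 33 (.thr 1 61 (.thr 63 47 (.dbl 0 3 42)))))) (.rp 20 (.str 24 (.nv (.thr 5 53 (.thr 25 27 (.thr 13 49 (.thr 1 9 (.thr 61 41 (.dbl 29 17 45)))))) (.nv (.thr 22 18 (.thr 42 62 (.thr 47 32 (.dbl 15 48 63)))) (.rp 17 (.thr 18 22 (.thr 25 27 (.thr 48 15 (.thr 50 34 (.dbl 49 13 51))))) .nd)))) (.rp 15 (.thr 22 18 (.thr 20 23 (.thr 52 7 (.thr 4 36 (.thr 55 38 (.dbl 53 5 54))))))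 (.rp 0 (.thr 22 18 (.thr 20 23 (.thr 52 7 (.thr 4 36 (.thr 55 38 (.dbl 53 5 54)))))) .nd))))))))))) (.rp 2 (.str 14 (.nv (.thr 5 53 (.thr 22 18 (.thr 20 23 (.thr 52 7 (.thr 4 36 (.dbl 38 50 55)))))) (.nv (.thr 15 48 (.thr 12 13 (.thr 63 47 (.dbl 46 29 62)))) (.rp 24 (.str 20 (.nv (.thr 38 50 (.thr 4 55 (.dbl 36 39 52))) (.nv (.dbl 22 18 23) (.rp 18 (.thr 62 46 (.thr 15 48 (.thr 60 45 (.dbl 63 47 61)))) .nd)))) (.rp 20 (.str 24 (.nv (.thr 15 48 (.thr 46 62 (.thr 47 63 (.dbl 45 44 60)))) (.nv (.thr 25 27 (.thr 13 49 (.dbl 15 12 48))) (.rp 48 (.thr 25 27 (.thr 13 49 (.thr 12 15 (.dbl 38 50 51)))) (.rp 15 (.thr 38 50 (.thr 36 39 (.thr 12 48 (.dbl 25 27 51)))) .nd))))) .nd))))) .nd)))))))))) (.rp 27 (.str 14 (.nv (.thr 29 28 (.thr 38 50 (.thr 46 62 (.thr 42 34 (.dbl 63 0 12))))) (.nv (.thr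 22 18 (.thr 62 46 (.thr 42 2 (.thr 63 0 (.thr 15 47 (.dbl 60 45 61)))))) (.nv (.thr 29 28 (.thr 25 17 (.thr 46 62 (.thr 12 63 (.dbl 38 50 51))))) (.rp 63 (.thr 29 28 (.thr 25 17 (.thr 38 50 (.thr 12 51 (.thr 15 13 (.thr 60 45 (.thr 48 37 (.thr 56 52 (.thr 41 11 (.dbl 22 3 18)))))))))) (.rp 62 (.thr 29 28 (.thr 25 17 (.thr 38 50 (.thr 12 51 (.thr 15 13 (.dbl 63 46 47)))))) (.rp 50 (.thr 22 18 (.thr 29 28 (.thr 20 23 (.thr 46 62 (.thr 63 12 (.thr 0 42 (.thr 15 47 (.dbl 60 40 45)))))))) (.rp 46 (.thr 29 28 (.thr 25 17 (.thr 38 50 (.thr 12 51 (.thr 15 13 (.thr 4 55 (.thr 0 8 (.dbl 63 42 47)))))))) (.rp 18 (.thr 29 28 (.thr 46 62 (.thr 12 63 (.thr 38 50 (.dbl 25 17 51))))) .nd))))))))) (.rp 25 (.thr 22 18 (.thr 23 20 (.thr 19 27 (.thr 28 29 (.str 3 (.nv (.thr 63 43 (.thr 15 47 (.thr 37 48 (.dbl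 7 11 52)))) (.nv (.thr 60 41 (.thr 15 45 (.thr 37 48 (.dbl 7 11 52)))) (.nv (.thr 63 43 (.thr 15 47 (.dbl 60 41 45))) (.rp 15 (.thr 63 43 (.thr 0 42 (.thr 41 60 (.dbl 1 2 61)))) (.rp 14 (.str 2 (.nv (.thr 60 41 (.thr 15 45 (.dbl 63 43 47))) (.nv (.thr 0 1 (.dbl 42 62 63)) (.rp 63 (.thr 1 0 (.dbl 41 60 61)) .nd)))) (.rp 11 (.thr 60 41 (.thr 15 45 (.dbl 63 43 47))) (.rp 2 (.str 14 (.nv (.thr 63 43 (.thr 15 47 (.thr 37 48 (.dbl 7 11 52)))) (.nv (.thr 35 51 (.thr 41 60 (.dbl 38 44 50))) (.nv (.thr 62 46 (.thr 63 43 (.dbl 60 41 61))) (.rp 50 (.str 34 (.nv (.thr 60 41 (.thr 15 45 (.dbl 12 13 44))) (.nv (.thr 51 35 (.thr 0 17 (.dbl 63 42 43))) .nd))) (.rp 34 (.thr 50 38 (.thr 63 43 (.thr 15 47 (.dbl 60 41 45)))) .nd)))))) .nd)))))))))))) (.rp 23 (.str 14 (.nv (.thr 29 28 (.thr 38 50 (.thr 46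 62 (.thr 63 12 (.dbl 42 0 34))))) (.nv (.thr 22 18 (.thr 62 46 (.thr 42 2 (.thr 63 0 (.thr 15 47 (.dbl 60 45 61)))))) (.nv (.thr 29 28 (.thr 25 17 (.thr 38 50 (.thr 46 62 (.dbl 12 51 63))))) (.rp 63 (.thr 29 28 (.thr 25 17 (.thr 24 27 (.thr 38 50 (.thr 12 51 (.thr 15 13 (.dbl 48 36 37))))))) (.rp 62 (.thr 29 28 (.thr 25 17 (.thr 38 50 (.thr 12 51 (.thr 15 13 (.dbl 63 46 47)))))) (.rp 50 (.thr 29 28 (.thr 25 17 (.thr 24 27 (.thr 46 62 (.thr 12 63 (.thr 15 13 (.dbl 48 36 37))))))) (.rp 46 (.thr 29 28 (.thr 25 17 (.thr 24 27 (.thr 38 50 (.thr 12 51 (.thr 15 13 (.dbl 48 36 37))))))) .nd)))))))) (.rp 22 (.str 63 (.nv (.thr 15 47 (.thr 48 37 (.thr 60 45 (.thr 61 62 (.thr 41 1 (.dbl 56 11 52)))))) (.nv (.thr 0 42 (.thr 29 28 (.thr 12 46 (.thr 4 8 (.thr 25 17 (.dbl 38 51 55)))))) (.nv (.thr 15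 47 (.thr 37 48 (.thr 45 60 (.thr 41 33 (.thr 61 1 (.dbl 29 13 28)))))) (.nv (.thr 29 28 (.thr 15 47 (.thr 60 45 (.thr 62 61 (.dbl 46 12 14))))) (.rp 54 (.str 38 (.nv (.thr 29 28 (.thr 25 17 (.thr 55 4 (.dbl 51 12 59)))) (.nv (.thr 14 50 (.thr 62 46 (.thr 60 61 (.dbl 15 45 47)))) (.rp 14 (.str 2 (.nv (.thr 15 47 (.thr 37 48 (.thr 55 4 (.thr 51 59 (.dbl 39 27 36))))) (.nv (.thr 29 28 (.thr 12 46 (.dbl 25 17 51))) (.rp 51 (.thr 42 0 (.thr 29 28 (.dbl 46 12 34))) .nd)))) .nd)))) (.rp 38 (.str 54 (.nv (.thr 15 47 (.thr 29 28 (.thr 25 17 (.thr 24 27 (.thr 48 37 (.dbl 12 36 46)))))) (.nv (.thr 15 47 (.thr 48 37 (.thr 53 58 (.thr 52 55 (.dbl 60 45 56))))) (.nv (.thr 29 28 (.thr 15 47 (.thr 60 45 (.thr 62 61 (.dbl 46 12 14))))) (.rp 47 (.thr 29 28 (.thr 25 17 (.thr 24 27 (.thr 12 46 (.thr 48 36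 (.thr 53 58 (.dbl 37 5 15))))))) (.rp 15 (.thr 29 28 (.thr 25 17 (.thr 24 27 (.thr 12 46 (.thr 48 36 (.thr 53 58 (.thr 55 52 (.thr 51 59 (.thr 49 50 (.dbl 57 60 61)))))))))) (.rp 14 (.str 2 (.nv (.thr 15 47 (.thr 48 37 (.thr 53 58 (.thr 52 55 (.dbl 60 45 56))))) (.nv (.thr 0 42 (.thr 3 1 (.thr 23 43 (.thr 27 19 (.thr 25 24 (.dbl 29 17 28)))))) (.nv (.thr 15 47 (.thr 60 45 (.thr 62 61 (.thr 58 50 (.dbl 48 37 53))))) .nd)))) (.rp 2 (.str 14 (.nv (.thr 29 28 (.dbl 46 12 62)) (.nv (.thr 15 47 (.thr 60 45 (.dbl 62 46 61))) (.nv (.thr 15 47 (.thr 12 13 (.dbl 46 29 62))) (.rp 62 (.thr 42 0 (.thr 29 28 (.thr 12 46 (.dbl 15 13 47)))) (.rp 46 (.thr 28 29 (.thr 15 47 (.thr 12 13 (.dbl 60 44 45)))) (.rp 42 (.thr 62 46 (.str 34 (.nv (.thr 15 47 (.thr 58 50 (.dbl 48 37 53))) (.nv (.thr 29 28 (.thr 60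 61 (.thr 51 57 (.dbl 17 0 25)))) (.nv (.thr 60 61 (.dbl 15 45 47)) .nd))))) .nd))))))) .nd)))))))) (.rp 14 (.str 2 (.nv (.thr 0 42 (.thr 3 1 (.thr 23 43 (.thr 27 19 (.thr 25 24 (.dbl 29 17 28)))))) (.nv (.thr 29 28 (.thr 25 17 (.thr 24 27 (.thr 12 46 (.thr 48 36 (.dbl 15 37 47)))))) (.nv (.thr 0 42 (.thr 1 3 (.thr 61 41 (.thr 60 62 (.dbl 15 45 47))))) (.rp 54 (.str 38 (.nv (.thr 15 47 (.thr 37 48 (.thr 55 4 (.thr 51 59 (.dbl 39 27 36))))) (.nv (.thr 29 28 (.thr 12 46 (.dbl 25 17 51))) (.rp 51 (.thr 42 0 (.thr 29 28 (.dbl 46 12 34))) .nd)))) (.rp 38 (.str 54 (.nv (.thr 15 47 (.thr 48 37 (.thr 53 58 (.thr 52 55 (.dbl 60 45 56))))) (.nv (.thr 0 42 (.thr 3 1 (.thr 23 43 (.thr 27 19 (.thr 25 24 (.dbl 29 17 28)))))) (.nv (.thr 15 47 (.thr 60 45 (.thr 62 61 (.thr 58 50 (.dbl 48 37 53))))) .nd))))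 .nd)))))) (.rp 2 (.str 14 (.nv (.thr 38 50 (.thr 29 28 (.dbl 46 12 62))) (.nv (.thr 62 46 (.thr 60 61 (.dbl 15 45 47))) (.rp 62 (.thr 42 0 (.thr 29 28 (.thr 38 50 (.dbl 46 12 34)))) (.rp 46 (.thr 28 29 (.thr 15 47 (.thr 12 13 (.dbl 60 44 45)))) (.rp 38 (.str 54 (.nv (.thr 29 28 (.dbl 46 12 62)) (.nv (.thr 15 47 (.thr 60 45 (.dbl 62 46 61))) (.nv (.thr 15 47 (.thr 12 13 (.dbl 46 29 62))) (.rp 62 (.thr 42 0 (.thr 29 28 (.thr 12 46 (.dbl 15 13 47)))) (.rp 46 (.thr 28 29 (.thr 15 47 (.thr 12 13 (.dbl 60 44 45)))) (.rp 42 (.thr 62 46 (.str 34 (.nv (.thr 15 47 (.thr 58 50 (.dbl 48 37 53))) (.nv (.thr 29 28 (.thr 60 61 (.thr 51 57 (.dbl 17 0 25)))) (.nv (.thr 60 61 (.dbl 15 45 47)) .nd))))) .nd))))))) .nd)))))) .nd))))))))) (.rp 20 (.thr 22 18 (.thr 28 29 (.thr 19 25 (.thr 23 27 (.str 3 (.nv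 (.thr 63 43 (.thr 15 47 (.thr 37 48 (.dbl 7 11 52)))) (.nv (.thr 60 41 (.thr 15 45 (.thr 37 48 (.dbl 7 11 52)))) (.nv (.thr 63 43 (.thr 15 47 (.dbl 60 41 45))) (.rp 15 (.thr 63 43 (.thr 0 42 (.thr 41 60 (.dbl 1 2 61)))) (.rp 14 (.str 2 (.nv (.thr 60 41 (.thr 15 45 (.dbl 63 43 47))) (.nv (.thr 0 1 (.dbl 42 62 63)) (.rp 63 (.thr 1 0 (.dbl 41 60 61)) .nd)))) (.rp 11 (.thr 60 41 (.thr 15 45 (.dbl 63 43 47))) (.rp 2 (.str 14 (.nv (.thr 63 43 (.thr 15 47 (.thr 37 48 (.dbl 7 11 52)))) (.nv (.thr 35 51 (.thr 41 60 (.dbl 38 44 50))) (.nv (.thr 62 46 (.thr 63 43 (.dbl 60 41 61))) (.rp 50 (.str 34 (.nv (.thr 60 41 (.thr 15 45 (.dbl 12 13 44))) (.nv (.thr 51 35 (.thr 0 17 (.dbl 63 42 43))) .nd))) (.rp 34 (.thr 50 38 (.thr 63 43 (.thr 15 47 (.dbl 60 41 45)))) .nd)))))) .nd)))))))))))) (.rp 19 (.thr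 18 22 (.thr 29 28 (.thr 25 17 (.thr 24 27 (.str 38 (.nv (.thr 14 50 (.thr 12 51 (.thr 15 13 (.dbl 48 36 37)))) (.nv (.thr 14 50 (.thr 46 62 (.dbl 12 51 63))) (.rp 51 (.thr 14 50 (.thr 46 62 (.thr 63 12 (.dbl 42 0 34)))) (.rp 50 (.thr 12 51 (.thr 48 36 (.thr 63 46 (.dbl 15 37 47)))) (.rp 14 (.str 2 (.nv (.thr 4 55 (.thr 12 51 (.thr 0 8 (.thr 3 1 (.dbl 48 33 36))))) (.nv (.thr 34 50 (.thr 46 42 (.dbl 12 51 63))) (.rp 63 (.thr 12 51 (.thr 48 36 (.thr 3 33 (.thr 15 37 (.thr 45 60 (.thr 61 13 (.dbl 1 0 41))))))) (.rp 51 (.thr 34 50 (.thr 42 46 (.thr 63 0 (.thr 15 47 (.thr 45 60 (.thr 13 61 (.dbl 37 48 49))))))) (.rp 12 (.thr 34 50 (.thr 42 46 (.thr 8 59 (.thr 63 0 (.thr 15 47 (.thr 48 37 (.thr 56 40 (.dbl 60 45 52)))))))) .nd)))))) (.rp 12 (.thr 14 50 (.thr 46 62 (.thr 42 34 (.thr 8 59 (.thr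 40 56 (.thr 0 63 (.thr 60 20 (.thr 45 15 (.thr 44 47 (.dbl 41 35 43)))))))))) .nd))))))))))) (.rp 18 (.str 63 (.nv (.thr 0 42 (.thr 29 28 (.thr 12 46 (.thr 4 8 (.thr 38 55 (.dbl 25 17 51)))))) (.nv (.thr 15 47 (.thr 48 37 (.thr 60 45 (.thr 56 52 (.thr 41 11 (.dbl 61 1 62)))))) (.nv (.thr 29 28 (.thr 15 47 (.thr 12 46 (.thr 45 60 (.dbl 13 14 61))))) (.rp 46 (.thr 29 28 (.thr 15 47 (.thr 37 48 (.thr 45 60 (.thr 61 13 (.dbl 41 1 33)))))) (.rp 19 (.str 17 (.nv (.dbl 29 25 28) (.rp 29 (.thr 15 47 (.thr 48 37 (.thr 60 45 (.thr 61 62 (.thr 56 52 (.dbl 41 1 11)))))) (.rp 28 (.thr 25 29 (.thr 15 47 (.thr 0 42 (.thr 51 34 (.dbl 27 24 39))))) (.rp 25 (.thr 15 47 (.thr 48 37 (.thr 60 45 (.thr 61 62 (.thr 56 52 (.dbl 41 1 11)))))) (.rp 14 (.str 2 (.nv (.dbl 29 25 28) (.rp 29 (.thr 42 0 (.thr 62 22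 (.thr 60 61 (.dbl 15 45 47)))) (.rp 28 (.thr 42 0 (.thr 15 47 (.thr 60 45 (.dbl 62 22 61)))) (.rp 25 (.thr 42 0 (.thr 15 47 (.thr 60 45 (.dbl 62 22 61)))) .nd))))) (.rp 2 (.str 14 (.nv (.thr 15 47 (.thr 60 45 (.dbl 62 46 61))) (.nv (.dbl 29 25 28) (.rp 50 (.str 34 (.nv (.dbl 0 42 51) (.nv (.dbl 29 25 28) .nd))) (.rp 34 (.thr 50 38 (.dbl 29 25 28)) .nd))))) .nd))))))) (.rp 17 (.str 19 (.nv (.thr 0 42 (.thr 15 47 (.thr 23 27 (.thr 20 22 (.dbl 60 40 45))))) (.nv (.thr 15 47 (.thr 29 28 (.thr 12 46 (.thr 45 60 (.dbl 13 14 61))))) (.nv (.thr 28 29 (.thr 22 25 (.dbl 23 20 27))) (.rp 20 (.thr 28 29 (.thr 25 22 (.dbl 27 23 24))) (.rp 14 (.str 2 (.nv (.thr 0 42 (.thr 1 3 (.thr 15 47 (.thr 60 45 (.dbl 61 41 62))))) (.nv (.thr 27 23 (.thr 25 24 (.dbl 28 22 29))) .nd))) (.rp 2 (.str 14 (.nv (.thr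 23 27 (.thr 22 20 (.dbl 28 25 29))) (.nv (.thr 15 47 (.thr 60 45 (.dbl 62 46 61))) (.nv (.thr 29 28 (.dbl 46 12 62)) (.rp 50 (.str 34 (.nv (.thr 23 27 (.thr 22 20 (.dbl 28 25 29))) (.nv (.thr 46 62 (.dbl 42 0 38)) .nd))) (.rp 34 (.thr 50 38 (.thr 29 28 (.dbl 46 12 62))) .nd)))))) .nd))))))) (.rp 14 (.str 2 (.nv (.thr 15 47 (.thr 29 28 (.thr 45 60 (.thr 61 13 (.thr 41 1 (.dbl 37 33 48)))))) (.nv (.thr 0 42 (.thr 29 28 (.thr 12 46 (.thr 4 8 (.thr 38 55 (.dbl 25 17 51)))))) (.nv (.thr 15 47 (.thr 60 45 (.thr 62 61 (.dbl 42 0 22)))) (.rp 29 (.thr 42 0 (.thr 62 22 (.thr 60 61 (.dbl 15 45 47)))) (.rp 19 (.str 17 (.nv (.dbl 29 25 28) (.rp 29 (.thr 42 0 (.thr 62 22 (.thr 60 61 (.dbl 15 45 47)))) (.rp 28 (.thr 42 0 (.thr 15 47 (.thr 60 45 (.dbl 62 22 61)))) (.rp 25 (.thr 42 0 (.thr 15 47 (.thr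 60 45 (.dbl 62 22 61)))) .nd))))) (.rp 17 (.str 19 (.nv (.thr 0 42 (.thr 1 3 (.thr 15 47 (.thr 60 45 (.dbl 61 41 62))))) (.nv (.thr 27 23 (.thr 25 24 (.dbl 28 22 29))) .nd))) .nd))))))) (.rp 2 (.str 14 (.nv (.thr 15 47 (.thr 12 13 (.thr 28 29 (.dbl 60 44 45)))) (.nv (.thr 50 38 (.thr 15 47 (.thr 60 45 (.dbl 62 46 61)))) (.nv (.thr 29 28 (.dbl 46 12 62)) (.rp 50 (.str 34 (.nv (.thr 15 47 (.thr 12 13 (.thr 28 29 (.dbl 60 44 45)))) (.nv (.thr 46 62 (.dbl 42 0 38)) (.rp 19 (.str 17 (.nv (.dbl 0 42 51) (.nv (.dbl 29 25 28) .nd))) (.rp 17 (.str 19 (.nv (.thr 23 27 (.thr 22 20 (.dbl 28 25 29))) (.nv (.thr 46 62 (.dbl 42 0 38)) .nd))) .nd))))) (.rp 19 (.str 17 (.nv (.thr 15 47 (.thr 60 45 (.dbl 62 46 61))) (.nv (.dbl 29 25 28) (.rp 50 (.str 34 (.nv (.dbl 0 42 51) (.nv (.dbl 29 25 28) .nd))) (.rp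 34 (.thr 50 38 (.dbl 29 25 28)) .nd))))) (.rp 17 (.str 19 (.nv (.thr 23 27 (.thr 22 20 (.dbl 28 25 29))) (.nv (.thr 15 47 (.thr 60 45 (.dbl 62 46 61))) (.nv (.thr 29 28 (.dbl 46 12 62)) (.rp 50 (.str 34 (.nv (.thr 23 27 (.thr 22 20 (.dbl 28 25 29))) (.nv (.thr 46 62 (.dbl 42 0 38)) .nd))) (.rp 34 (.thr 50 38 (.thr 29 28 (.dbl 46 12 62))) .nd)))))) .nd))))))) .nd))))))))) (.rp 14 (.str 2 (.nv (.thr 22 18 (.thr 20 23 (.thr 42 62 (.thr 0 63 (.thr 3 1 (.dbl 60 40 41)))))) (.nv (.thr 28 29 (.thr 22 18 (.thr 19 25 (.dbl 23 20 27)))) (.rp 23 (.thr 22 18 (.thr 42 62 (.thr 0 63 (.thr 3 1 (.thr 60 41 (.thr 15 45 (.thr 7 11 (.dbl 37 48 52)))))))) (.rp 22 (.str 63 (.nv (.thr 0 42 (.thr 3 1 (.thr 23 43 (.thr 27 19 (.thr 25 24 (.dbl 29 17 28)))))) (.nv (.thr 29 28 (.thr 25 17 (.thr 24 27 (.thr 12 46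 (.thr 48 36 (.dbl 15 37 47)))))) (.nv (.thr 0 42 (.thr 1 3 (.thr 61 41 (.thr 60 62 (.dbl 15 45 47))))) (.rp 54 (.str 38 (.nv (.thr 15 47 (.thr 37 48 (.thr 55 4 (.thr 51 59 (.dbl 39 27 36))))) (.nv (.thr 29 28 (.thr 12 46 (.dbl 25 17 51))) (.rp 51 (.thr 42 0 (.thr 29 28 (.dbl 46 12 34))) .nd)))) (.rp 38 (.str 54 (.nv (.thr 15 47 (.thr 48 37 (.thr 53 58 (.thr 52 55 (.dbl 60 45 56))))) (.nv (.thr 0 42 (.thr 3 1 (.thr 23 43 (.thr 27 19 (.thr 25 24 (.dbl 29 17 28)))))) (.nv (.thr 15 47 (.thr 60 45 (.thr 62 61 (.thr 58 50 (.dbl 48 37 53))))) .nd)))) .nd)))))) (.rp 20 (.thr 22 18 (.thr 42 62 (.thr 0 63 (.thr 3 1 (.thr 60 41 (.thr 15 45 (.thr 7 11 (.dbl 37 48 52)))))))) (.rp 19 (.thr 29 28 (.thr 22 18 (.thr 17 25 (.thr 20 23 (.thr 42 62 (.thr 0 63 (.thr 3 1 (.dbl 60 40 41)))))))) (.rp 18 (.str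 19 (.nv (.thr 23 27 (.thr 22 20 (.dbl 28 25 29))) (.rp 29 (.thr 23 27 (.thr 22 20 (.thr 42 62 (.thr 63 0 (.thr 15 47 (.thr 3 43 (.dbl 60 41 45))))))) (.rp 28 (.str 22 (.nv (.dbl 23 20 27) (.rp 27 (.thr 20 23 (.thr 42 62 (.thr 0 63 (.thr 3 1 (.dbl 60 40 41))))) (.rp 24 (.thr 20 23 (.thr 42 62 (.thr 0 63 (.thr 3 1 (.dbl 60 40 41))))) (.rp 23 (.thr 42 62 (.thr 0 63 (.thr 3 1 (.thr 60 41 (.thr 15 45 (.thr 7 11 (.dbl 37 48 52))))))) (.rp 20 (.str 24 (.nv (.dbl 27 23 25) (.rp 27 (.thr 42 62 (.thr 0 63 (.thr 3 1 (.thr 60 41 (.thr 15 45 (.thr 7 11 (.dbl 37 48 52))))))) (.rp 25 (.thr 23 27 (.thr 42 62 (.thr 63 0 (.thr 15 47 (.thr 3 43 (.dbl 60 41 45)))))) (.rp 23 (.thr 25 27 (.thr 17 29 (.thr 42 62 (.thr 0 63 (.thr 3 1 (.dbl 51 34 35)))))) .nd))))) .nd)))))) (.rp 27 (.thr 28 29 (.thr 22 25 (.thr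 20 23 (.thr 42 62 (.thr 0 63 (.thr 3 1 (.dbl 60 40 41))))))) (.rp 25 (.thr 23 27 (.thr 22 20 (.thr 42 62 (.thr 63 0 (.thr 15 47 (.thr 3 43 (.dbl 60 41 45))))))) (.rp 23 (.thr 28 29 (.thr 22 25 (.thr 42 62 (.thr 0 63 (.thr 3 1 (.thr 60 41 (.thr 15 45 (.thr 7 11 (.dbl 37 48 52))))))))) (.rp 22 (.thr 27 23 (.thr 29 28 (.dbl 25 17 24))) (.rp 20 (.thr 27 23 (.thr 28 29 (.dbl 25 22 24))) .nd))))))))) .nd)))))))) (.rp 2 (.str 14 (.nv (.thr 29 28 (.thr 46 62 (.thr 63 12 (.thr 42 0 (.dbl 38 34 50))))) (.nv (.thr 28 29 (.thr 22 18 (.thr 19 25 (.dbl 23 20 27)))) (.rp 50 (.thr 29 28 (.thr 25 17 (.thr 24 27 (.thr 46 62 (.thr 12 63 (.thr 15 13 (.dbl 48 36 37))))))) (.rp 34 (.thr 22 18 (.thr 50 38 (.thr 28 29 (.thr 19 25 (.dbl 23 20 27))))) (.rp 29 (.thr 18 22 (.thr 38 50 (.thr 46 62 (.thr 42 34 (.thr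 63 0 (.thr 55 4 (.thr 51 59 (.thr 12 25 (.dbl 15 13 47))))))))) (.rp 28 (.thr 18 22 (.thr 38 50 (.thr 46 62 (.thr 42 34 (.thr 63 0 (.thr 12 29 (.dbl 15 13 47))))))) (.rp 22 (.thr 29 28 (.thr 25 17 (.thr 38 50 (.thr 12 51 (.dbl 46 62 63))))) (.rp 20 (.thr 18 22 (.thr 38 50 (.thr 46 62 (.thr 42 34 (.thr 63 0 (.dbl 29 12 28)))))) .nd))))))))) .nd)))))))))))))

theorem w216 : WinAt (2216689664, 66624) :=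
  chF (K := []) kn c216 2216689664 66624 16
    [17476] (by decide +kernel) (by decide +kernel)

/-- A certificate. -/
noncomputable def c217 : Ct := (.str 0 (.nv (.thr 31 16 (.thr 63 42 (.thr 15 47 (.thr 37 48 (.dbl 5 10 53))))) (.nv (.thr 16 31 (.thr 48 32 (.thr 15 37 (.thr 42 63 (.dbl 10 5 58))))) (.nv (.thr 16 31 (.thr 48 32 (.thr 63 42 (.thr 53 58 (.dbl 37 5 15))))) (.rp 63 (.str 3 (.nv (.thr 16 31 (.thr 48 32 (.thr 18 33 (.thr 22 30 (.thr 20 23 (.dbl 60 40 41)))))) (.nv (.thr 1 2 (.thr 41 61 (.thr 11 56 (.thr 15 7 (.thr 37 48 (.dbl 5 10 53)))))) (.nv (.thr 16 31 (.thr 2 1 (.thr 48 32 (.thr 18 33 (.thr 34 50 (.dbl 17 19 51)))))) (.rp 48 (.thr 1 2 (.thr 41 61 (.thr 60 22 (.thr 40 20 (.thr 11 56 (.thr 15 7 (.thr 42 43 (.dbl 10 5 58)))))))) (.rp 46 (.str 29 (.nv (.thr 1 2 (.thr 31 16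 (.thr 30 28 (.thr 41 61 (.dbl 22 18 60))))) (.nv (.thr 1 2 (.thr 25 17 (.thr 61 41 (.thr 13 45 (.thr 5 9 (.dbl 37 49 53)))))) (.nv (.thr 16 31 (.thr 17 25 (.thr 19 18 (.dbl 51 34 35)))) .nd)))) (.rp 29 (.str 46 (.nv (.thr 1 2 (.thr 41 61 (.thr 11 56 (.thr 15 7 (.thr 37 48 (.dbl 5 10 53)))))) (.nv (.thr 2 1 (.thr 16 31 (.thr 48 32 (.thr 18 33 (.thr 34 50 (.dbl 17 19 51)))))) (.rp 48 (.thr 1 2 (.thr 41 61 (.thr 60 22 (.thr 40 20 (.thr 42 43 (.thr 11 56 (.thr 15 7 (.dbl 10 5 58)))))))) (.rp 15 (.thr 1 2 (.thr 41 61 (.thr 60 22 (.thr 56 11 (.thr 48 52 (.dbl 16 31 32)))))) (.rp 2 (.thr 16 31 (.thr 48 32 (.thr 15 37 (.thr 11 7 (.thr 41 56 (.thr 22 60 (.dbl 18 30 33))))))) (.rp 1 (.thr 16 31 (.thr 48 32 (.thr 15 37 (.thr 11 7 (.thr 41 56 (.thr 22 60 (.dbl 18 30 33))))))) .nd))))))) (.rp 15 (.thr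 1 2 (.thr 41 61 (.thr 60 22 (.thr 56 11 (.thr 48 52 (.dbl 16 31 32)))))) .nd)))))))) (.rp 48 (.thr 16 31 (.str 3 (.nv (.thr 63 42 (.thr 23 43 (.thr 22 20 (.thr 41 60 (.dbl 1 2 61))))) (.nv (.thr 2 1 (.thr 42 63 (.thr 58 10 (.thr 62 22 (.thr 50 54 (.thr 38 14 (.dbl 34 18 46))))))) (.nv (.thr 1 2 (.thr 63 42 (.thr 23 43 (.thr 41 61 (.dbl 22 20 60))))) (.rp 63 (.thr 1 2 (.thr 41 61 (.thr 60 22 (.thr 40 20 (.thr 11 56 (.thr 15 7 (.thr 42 43 (.dbl 10 5 58)))))))) (.rp 42 (.thr 1 2 (.thr 41 61 (.thr 22 60 (.thr 20 23 (.thr 18 30 (.thr 19 17 (.dbl 28 24 25))))))) (.rp 36 (.str 24 (.nv (.thr 1 2 (.thr 41 61 (.thr 56 11 (.thr 40 8 (.dbl 60 20 22))))) (.nv (.thr 25 27 (.thr 17 29 (.thr 19 18 (.dbl 51 34 35)))) (.nv (.thr 63 42 (.thr 23 43 (.dbl 20 22 28))) .nd)))) (.rp 24 (.str 36 (.nv (.thr 2 1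 (.thr 42 63 (.thr 22 62 (.thr 60 41 (.dbl 20 23 40))))) (.nv (.thr 2 1 (.thr 42 63 (.thr 22 62 (.thr 18 30 (.thr 34 50 (.dbl 17 19 51)))))) (.nv (.thr 1 2 (.thr 41 61 (.thr 63 42 (.thr 23 43 (.dbl 22 20 60))))) (.rp 63 (.thr 1 2 (.thr 41 61 (.thr 11 56 (.thr 15 7 (.thr 60 22 (.thr 40 20 (.thr 42 43 (.dbl 10 5 58)))))))) (.rp 62 (.thr 1 2 (.thr 41 61 (.thr 22 60 (.thr 63 42 (.dbl 23 20 43))))) (.rp 60 (.thr 2 1 (.thr 42 63 (.thr 58 10 (.thr 62 22 (.thr 50 54 (.thr 38 14 (.dbl 34 18 46))))))) (.rp 42 (.thr 1 2 (.thr 41 61 (.thr 11 56 (.thr 7 15 (.thr 22 60 (.thr 52 37 (.dbl 20 4 23))))))) (.rp 22 (.thr 1 2 (.thr 41 61 (.thr 11 56 (.thr 15 7 (.thr 42 63 (.dbl 10 5 58)))))) (.rp 2 (.thr 63 42 (.thr 23 43 (.thr 22 20 (.thr 18 30 (.thr 17 19 (.thr 51 34 (.thr 55 59 (.thr 38 4 (.dbl 39 7 37)))))))))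 (.rp 1 (.thr 63 42 (.thr 23 43 (.thr 22 20 (.thr 18 30 (.thr 17 19 (.thr 51 34 (.thr 55 59 (.thr 38 4 (.dbl 39 7 37))))))))) .nd))))))))))) (.rp 22 (.thr 1 2 (.thr 42 63 (.thr 41 61 (.thr 11 56 (.thr 15 7 (.dbl 10 5 58)))))) (.rp 2 (.thr 63 42 (.thr 23 43 (.thr 22 20 (.thr 18 30 (.thr 19 17 (.thr 51 35 (.thr 55 59 (.thr 39 7 (.thr 27 15 (.dbl 25 24 28)))))))))) (.rp 1 (.thr 63 42 (.thr 23 43 (.thr 22 20 (.thr 18 30 (.thr 19 17 (.thr 51 35 (.thr 55 59 (.thr 39 7 (.thr 27 15 (.dbl 25 24 28)))))))))) .nd)))))))))))) (.rp 42 (.str 3 (.nv (.thr 16 31 (.thr 48 32 (.thr 18 33 (.thr 22 30 (.thr 20 23 (.dbl 60 40 41)))))) (.nv (.thr 1 2 (.thr 16 31 (.thr 41 61 (.thr 22 60 (.thr 18 30 (.thr 19 17 (.thr 20 23 (.dbl 28 24 25)))))))) (.nv (.thr 1 2 (.thr 41 61 (.thr 11 56 (.thr 15 7 (.thr 37 48 (.dbl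 5 10 53)))))) (.nv (.thr 16 31 (.thr 2 1 (.thr 48 32 (.thr 18 33 (.thr 34 50 (.dbl 17 19 51)))))) .nd))))) (.rp 37 (.str 3 (.nv (.thr 2 1 (.thr 16 31 (.thr 48 32 (.thr 18 33 (.thr 34 50 (.dbl 17 19 51)))))) (.nv (.thr 2 1 (.thr 42 63 (.thr 22 62 (.thr 20 23 (.dbl 60 40 41))))) (.rp 42 (.thr 16 31 (.thr 1 2 (.thr 41 61 (.thr 22 60 (.thr 18 30 (.dbl 48 32 33)))))) (.rp 41 (.thr 16 31 (.thr 2 1 (.thr 48 32 (.thr 42 63 (.thr 22 62 (.dbl 18 30 33)))))) (.rp 2 (.thr 16 31 (.thr 48 32 (.thr 18 33 (.thr 22 30 (.thr 23 20 (.dbl 63 42 43)))))) (.rp 1 (.thr 16 31 (.thr 48 32 (.thr 18 33 (.thr 22 30 (.thr 23 20 (.dbl 63 42 43)))))) .nd))))))) (.rp 31 (.str 3 (.nv (.thr 2 1 (.thr 42 63 (.thr 22 62 (.thr 60 41 (.dbl 20 23 40))))) (.nv (.thr 1 2 (.thr 41 61 (.thr 11 56 (.thr 15 7 (.thr 37 48 (.dbl 5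 10 53)))))) (.nv (.thr 1 2 (.thr 63 42 (.thr 23 43 (.thr 41 61 (.dbl 22 20 60))))) (.rp 60 (.thr 2 1 (.thr 42 63 (.thr 62 22 (.thr 58 10 (.thr 50 54 (.thr 38 14 (.dbl 34 18 46))))))) (.rp 41 (.thr 2 1 (.thr 42 63 (.thr 22 62 (.thr 18 30 (.thr 48 33 (.thr 32 16 (.dbl 37 15 47))))))) (.rp 2 (.thr 63 42 (.thr 23 43 (.thr 22 20 (.thr 18 30 (.thr 48 33 (.thr 53 58 (.dbl 37 5 15))))))) (.rp 1 (.thr 63 42 (.thr 23 43 (.thr 22 20 (.thr 18 30 (.thr 48 33 (.thr 53 58 (.dbl 37 5 15))))))) .nd)))))))) (.rp 16 (.str 3 (.nv (.thr 1 2 (.thr 41 61 (.thr 11 56 (.thr 15 7 (.thr 37 48 (.dbl 5 10 53)))))) (.nv (.thr 2 1 (.thr 42 63 (.thr 22 62 (.thr 60 41 (.dbl 20 23 40))))) (.rp 60 (.thr 2 1 (.thr 42 63 (.thr 62 22 (.thr 58 10 (.thr 50 54 (.thr 38 14 (.dbl 34 18 46))))))) (.rp 41 (.thr 2 1 (.thr 42 63 (.thr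 22 62 (.thr 18 30 (.thr 48 33 (.thr 10 58 (.dbl 15 5 37))))))) (.rp 2 (.thr 63 42 (.thr 23 43 (.thr 22 20 (.thr 18 30 (.thr 48 33 (.thr 53 58 (.dbl 37 5 15))))))) (.rp 1 (.thr 63 42 (.thr 23 43 (.thr 22 20 (.thr 18 30 (.thr 48 33 (.thr 53 58 (.dbl 37 5 15))))))) .nd))))))) (.rp 15 (.str 3 (.nv (.thr 16 31 (.thr 48 32 (.thr 18 33 (.thr 22 30 (.thr 20 23 (.dbl 60 40 41)))))) (.nv (.thr 2 1 (.thr 16 31 (.thr 48 32 (.thr 18 33 (.thr 34 50 (.dbl 17 19 51)))))) (.nv (.thr 1 2 (.thr 41 61 (.thr 63 42 (.thr 23 43 (.dbl 22 20 60))))) (.rp 63 (.thr 1 2 (.thr 41 61 (.thr 60 22 (.thr 56 11 (.thr 48 52 (.dbl 16 31 32)))))) (.rp 14 (.str 13 (.nv (.thr 63 42 (.thr 23 43 (.thr 22 20 (.thr 41 60 (.dbl 1 2 61))))) (.nv (.thr 2 1 (.thr 16 31 (.thr 48 32 (.thr 18 33 (.thr 34 50 (.dbl 17 19 51)))))) (.nv (.thr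 2 1 (.thr 42 63 (.thr 22 62 (.thr 60 41 (.dbl 20 23 40))))) (.rp 63 (.thr 31 16 (.str 29 (.nv (.thr 25 17 (.thr 27 24 (.thr 19 23 (.dbl 28 22 30)))) (.nv (.thr 61 45 (.dbl 1 2 41)) (.rp 30 (.thr 25 17 (.thr 37 49 (.thr 5 53 (.dbl 1 2 9)))) (.rp 10 (.thr 2 1 (.thr 28 30 (.thr 25 17 (.thr 19 22 (.dbl 27 23 24))))) (.rp 2 (.str 10 (.nv (.thr 28 30 (.thr 25 17 (.thr 19 22 (.dbl 27 23 24)))) (.nv (.thr 25 17 (.thr 24 27 (.thr 42 58 (.thr 8 59 (.thr 11 9 (.dbl 56 40 41)))))) (.nv (.thr 61 45 (.thr 41 1 (.thr 22 60 (.dbl 30 18 28)))) .nd)))) .nd))))))) (.rp 2 (.str 10 (.nv (.dbl 42 58 63) (.rp 63 (.thr 31 16 (.str 29 (.nv (.thr 28 30 (.thr 25 17 (.thr 19 22 (.dbl 27 23 24)))) (.nv (.thr 25 17 (.thr 24 27 (.thr 42 58 (.thr 8 59 (.thr 11 9 (.dbl 56 40 41)))))) (.nv (.thr 61 45 (.thr 41 1 (.thr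 22 60 (.dbl 30 18 28)))) .nd))))) (.rp 58 (.thr 16 31 (.thr 63 42 (.thr 23 43 (.thr 22 20 (.thr 18 30 (.dbl 48 32 33)))))) (.rp 42 (.thr 16 31 (.thr 48 32 (.thr 18 33 (.thr 22 30 (.thr 20 23 (.dbl 60 40 41)))))) .nd))))) (.rp 1 (.thr 16 31 (.thr 48 32 (.thr 18 33 (.thr 22 30 (.thr 20 23 (.dbl 60 40 41)))))) .nd))))))) (.rp 13 (.str 14 (.nv (.thr 2 1 (.thr 16 31 (.thr 48 32 (.thr 18 33 (.dbl 50 34 38))))) (.nv (.thr 63 42 (.thr 23 43 (.thr 1 2 (.thr 22 20 (.dbl 41 60 61))))) (.rp 63 (.thr 2 1 (.thr 50 38 (.thr 18 34 (.thr 48 33 (.dbl 16 31 32))))) (.rp 2 (.thr 16 31 (.thr 50 38 (.thr 48 32 (.thr 51 49 (.thr 17 34 (.dbl 18 19 33)))))) (.rp 1 (.thr 16 31 (.thr 50 38 (.thr 48 32 (.thr 51 49 (.thr 17 34 (.dbl 18 19 33)))))) .nd)))))) .nd))))))) (.rp 9 (.str 3 (.nv (.thr 1 2 (.thr 16 31 (.thr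 41 61 (.thr 11 56 (.thr 15 7 (.dbl 48 32 37)))))) (.nv (.thr 1 2 (.thr 41 61 (.thr 22 60 (.thr 23 20 (.dbl 63 42 43))))) (.nv (.thr 16 31 (.thr 48 32 (.thr 63 42 (.thr 53 58 (.dbl 37 5 15))))) .nd)))) (.rp 5 (.thr 16 31 (.str 3 (.nv (.thr 1 2 (.thr 41 61 (.thr 22 60 (.thr 23 20 (.dbl 63 42 43))))) (.nv (.thr 48 32 (.thr 18 33 (.thr 22 30 (.thr 23 20 (.dbl 63 42 43))))) (.nv (.thr 1 2 (.thr 41 61 (.thr 11 56 (.thr 48 32 (.dbl 15 7 37))))) (.rp 7 (.str 4 (.nv (.thr 2 1 (.thr 38 55 (.thr 42 63 (.thr 50 14 (.dbl 34 18 46))))) (.nv (.thr 55 38 (.thr 63 42 (.thr 51 59 (.thr 19 35 (.dbl 17 18 34))))) (.nv (.thr 1 2 (.thr 41 61 (.thr 48 32 (.thr 56 11 (.dbl 60 22 52))))) .nd)))) (.rp 4 (.str 7 (.nv (.thr 1 2 (.thr 11 15 (.dbl 41 56 61))) (.nv (.thr 15 11 (.dbl 48 32 37)) (.rp 15 (.thr 2 1 (.thr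 48 32 (.thr 18 33 (.thr 17 19 (.dbl 34 50 51))))) (.rp 11 (.thr 48 32 (.thr 37 15 (.thr 22 52 (.dbl 18 30 33)))) .nd))))) .nd))))))) (.rp 3 (.str 9 (.nv (.thr 42 63 (.thr 10 58 (.thr 11 8 (.thr 41 56 (.thr 1 61 (.dbl 5 13 15)))))) (.nv (.thr 16 31 (.thr 48 32 (.thr 63 42 (.thr 53 58 (.dbl 37 5 15))))) (.rp 63 (.thr 16 31 (.thr 48 32 (.thr 15 37 (.thr 5 10 (.thr 1 13 (.thr 41 61 (.thr 25 57 (.thr 27 24 (.thr 51 39 (.dbl 17 29 34)))))))))) (.rp 58 (.thr 31 16 (.thr 63 42 (.thr 15 47 (.thr 5 10 (.dbl 37 48 53))))) (.rp 53 (.thr 16 31 (.thr 48 32 (.thr 15 37 (.thr 10 5 (.dbl 42 58 63))))) (.rp 48 (.thr 31 16 (.thr 63 42 (.thr 15 47 (.thr 5 10 (.thr 13 1 (.thr 37 53 (.thr 25 49 (.thr 17 29 (.thr 51 34 (.dbl 27 24 39)))))))))) (.rp 42 (.thr 16 31 (.thr 48 32 (.thr 37 15 (.thr 5 53 (.thr 13 1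 (.thr 25 49 (.thr 17 29 (.thr 19 18 (.thr 28 22 (.dbl 24 20 27)))))))))) (.rp 15 (.thr 31 16 (.thr 42 63 (.thr 10 58 (.thr 11 8 (.thr 41 56 (.thr 61 1 (.thr 57 25 (.thr 53 49 (.thr 37 5 (.thr 33 45 (.thr 32 47 (.thr 34 35 (.thr 51 17 (.thr 60 54 (.dbl 40 20 43))))))))))))))) (.rp 5 (.thr 31 16 (.thr 42 63 (.thr 10 58 (.thr 8 11 (.thr 25 59 (.thr 29 17 (.thr 28 30 (.thr 19 22 (.dbl 27 23 24))))))))) .nd)))))))))) .nd))))))))))))))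

theorem w217 : WinAt (69206016, 4160) :=
  chF (K := []) kn c217 69206016 4160 12
    [4680] (by decide +kernel) (by decide +kernel)

/-- A certificate. -/
noncomputable def c218 : Ct := (.str 2 (.nv (.thr 22 62 (.thr 23 20 (.thr 3 43 (.thr 11 7 (.dbl 41 56 60))))) (.nv (.thr 22 62 (.thr 30 18 (.thr 60 45 (.thr 41 3 (.dbl 56 11 52))))) (.nv (.thr 22 62 (.thr 30 18 (.thr 23 20 (.thr 28 29 (.dbl 19 25 27))))) (.rp 62 (.str 46 (.nv (.thr 38 34 (.thr 12 29 (.thr 24 36 (.dbl 25 27 51)))) (.rp 51 (.thr 29 12 (.thr 30 28 (.thr 18 22 (.dbl 34 38 50)))) (.rp 38 (.thr 29 12 (.thr 28 30 (.thr 25 17 (.thr 27 24 (.dbl 19 22 23))))) (.rp 36 (.thr 38 34 (.thr 55 4 (.thr 51 59 (.dbl 12 25 29)))) (.rp 34 (.thr 12 29 (.thr 24 36 (.thr 25 27 (.thr 59 8 (.dbl 51 38 55))))) (.rp 29 (.thr 38 34 (.thr 55 4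 (.thr 51 59 (.thr 27 39 (.dbl 25 12 24))))) (.rp 27 (.thr 38 34 (.thr 55 4 (.thr 51 59 (.dbl 12 25 29)))) (.rp 25 (.thr 34 38 (.thr 18 50 (.thr 22 30 (.thr 23 20 (.dbl 3 33 43))))) (.rp 24 (.thr 38 34 (.thr 55 4 (.thr 51 59 (.dbl 12 25 29)))) (.rp 17 (.thr 34 38 (.thr 18 50 (.thr 29 12 (.dbl 30 22 28)))) (.rp 12 (.thr 34 38 (.thr 18 50 (.thr 22 30 (.thr 23 20 (.dbl 3 33 43))))) .nd)))))))))))) (.rp 60 (.thr 22 62 (.thr 30 18 (.thr 28 29 (.thr 19 25 (.dbl 23 20 27))))) (.rp 30 (.thr 62 22 (.thr 58 53 (.thr 54 50 (.thr 60 61 (.thr 57 51 (.dbl 56 52 59)))))) (.rp 22 (.thr 53 58 (.str 52 (.nv (.thr 55 54 (.thr 38 4 (.thr 34 46 (.thr 50 18 (.dbl 51 49 59))))) (.nv (.thr 56 60 (.thr 11 41 (.thr 3 7 (.thr 43 23 (.thr 59 27 (.dbl 55 51 54)))))) (.nv (.thr 54 55 (.thr 60 56 (.thr 57 51 (.dbl 61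 49 62)))) (.rp 55 (.thr 60 56 (.thr 30 45 (.thr 29 28 (.thr 25 17 (.thr 24 27 (.dbl 12 36 46)))))) (.rp 54 (.str 38 (.nv (.thr 4 55 (.thr 36 20 (.thr 24 12 (.thr 25 27 (.thr 8 59 (.dbl 56 40 60)))))) (.nv (.thr 34 46 (.thr 56 60 (.thr 11 41 (.thr 3 7 (.dbl 18 33 50))))) (.nv (.thr 46 34 (.thr 12 29 (.thr 24 36 (.dbl 25 27 51)))) (.rp 62 (.str 50 (.nv (.thr 51 49 (.dbl 55 4 59)) (.nv (.dbl 34 18 46) (.rp 46 (.str 30 (.nv (.thr 51 49 (.dbl 55 4 59)) (.nv (.dbl 60 45 56) (.rp 45 (.str 44 (.nv (.thr 51 49 (.dbl 55 4 59)) (.nv (.thr 41 35 (.dbl 56 11 60)) (.rp 41 (.str 33 (.nv (.thr 60 56 (.dbl 28 12 29)) (.nv (.dbl 18 3 34) (.rp 60 (.thr 3 18 (.thr 55 4 (.dbl 51 49 59))) .nd)))) .nd)))) (.rp 44 (.thr 45 60 (.thr 55 4 (.dbl 51 49 59))) .nd))))) (.rp 30 (.thr 46 34 (.thr 55 4 (.dbl 51 49 59)))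 .nd))))) (.rp 50 (.str 62 (.nv (.dbl 60 56 61) (.rp 61 (.thr 46 34 (.thr 60 56 (.thr 29 12 (.dbl 30 28 45)))) (.rp 60 (.thr 46 34 (.thr 4 55 (.thr 12 29 (.dbl 36 20 24)))) (.rp 56 (.thr 46 34 (.thr 4 55 (.thr 36 20 (.dbl 12 24 29)))) .nd))))) .nd)))))) (.rp 51 (.thr 60 56 (.thr 55 54 (.thr 38 4 (.thr 30 45 (.thr 29 28 (.dbl 46 12 34)))))) .nd)))))))) .nd))))))))

theorem w218 : WinAt (9223657912094720000, 140874927391809) :=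
  chF (K := []) kn c218 9223657912094720000 140874927391809 10
    [] (by decide +kernel) (by decide +kernel)

/-- A certificate. -/
noncomputable def c219 : Ct := (.str 63 (.nv (.thr 15 47 (.thr 48 37 (.thr 42 0 (.dbl 58 10 53)))) (.rp 58 (.thr 15 47 (.thr 37 48 (.thr 5 53 (.dbl 0 10 42)))) (.rp 53 (.thr 15 47 (.thr 48 37 (.thr 42 0 (.str 22 (.nv (.thr 2 62 (.thr 30 18 (.thr 28 29 (.thr 19 25 (.dbl 23 20 27))))) (.nv (.thr 23 20 (.thr 3 43 (.thr 7 11 (.thr 39 55 (.dbl 27 19 51))))) (.nv (.thr 10 58 (.thr 18 30 (.thr 62 2 (.thr 3 33 (.dbl 60 41 61))))) (.rp 2 (.thr 10 58 (.thr 18 30 (.thr 3 33 (.dbl 23 20 43)))) .nd)))))))) (.rp 48 (.thr 15 47 (.thr 0 42 (.str 3 (.nv (.thr 23 43 (.thr 22 20 (.thr 30 18 (.thr 28 29 (.dbl 19 25 27))))) (.nv (.thr 11 7 (.thr 41 56 (.dbl 1 2 61))) (.rp 41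 (.thr 11 7 (.thr 43 23 (.thr 27 59 (.thr 25 24 (.thr 17 29 (.dbl 51 34 39)))))) (.rp 37 (.str 32 (.nv (.thr 23 43 (.thr 27 19 (.thr 25 24 (.thr 17 29 (.dbl 51 34 39))))) (.nv (.thr 1 2 (.thr 10 5 (.thr 41 61 (.dbl 11 7 56)))) (.rp 41 (.thr 11 7 (.thr 43 23 (.thr 27 59 (.thr 25 24 (.thr 17 29 (.dbl 51 34 39)))))) (.rp 10 (.thr 2 1 (.thr 7 11 (.thr 23 43 (.thr 39 55 (.dbl 27 19 51))))) (.rp 2 (.thr 10 5 (.thr 7 11 (.thr 23 43 (.thr 39 55 (.dbl 27 19 51))))) .nd)))))) (.rp 32 (.str 37 (.nv (.thr 7 11 (.thr 22 52 (.dbl 23 20 43))) (.nv (.dbl 5 10 53) (.rp 10 (.thr 2 1 (.thr 7 11 (.thr 23 43 (.dbl 22 20 52)))) (.rp 2 (.thr 10 5 (.thr 7 11 (.thr 23 43 (.dbl 22 20 52)))) .nd))))) (.rp 10 (.thr 2 1 (.thr 11 7 (.thr 23 43 (.thr 22 20 (.dbl 41 56 60))))) (.rp 2 (.thr 10 5 (.thr 7 11 (.thr 23 43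 (.thr 27 19 (.dbl 39 51 55))))) .nd)))))))))) (.rp 47 (.thr 42 0 (.thr 10 58 (.str 11 (.nv (.thr 8 9 (.thr 25 59 (.thr 27 24 (.thr 19 23 (.thr 28 22 (.dbl 29 17 30)))))) (.nv (.thr 41 56 (.thr 61 1 (.thr 60 62 (.thr 3 22 (.dbl 43 23 40))))) (.nv (.thr 8 9 (.thr 25 59 (.thr 56 41 (.dbl 24 27 40)))) (.rp 59 (.thr 9 8 (.thr 41 56 (.thr 57 25 (.thr 61 1 (.thr 60 62 (.thr 3 22 (.dbl 43 23 40))))))) (.rp 56 (.thr 8 9 (.thr 59 25 (.thr 43 27 (.thr 3 23 (.thr 41 40 (.thr 61 1 (.dbl 60 22 62))))))) (.rp 48 (.str 32 (.nv (.thr 8 9 (.thr 25 59 (.thr 27 24 (.thr 19 23 (.thr 28 22 (.dbl 29 17 30)))))) (.nv (.thr 41 56 (.thr 61 1 (.thr 60 62 (.thr 3 22 (.dbl 43 23 40))))) (.nv (.thr 56 41 (.thr 8 9 (.thr 25 59 (.dbl 24 27 40)))) (.rp 59 (.thr 9 8 (.thr 41 56 (.thr 57 25 (.thr 61 1 (.thr 60 62 (.thr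 3 22 (.dbl 43 23 40))))))) (.rp 56 (.thr 8 9 (.thr 59 25 (.thr 43 27 (.thr 41 40 (.thr 61 1 (.thr 60 62 (.dbl 3 22 23))))))) (.rp 3 (.thr 41 56 (.thr 43 40 (.thr 59 27 (.dbl 8 9 25)))) .nd))))))) (.rp 32 (.str 48 (.nv (.thr 15 37 (.thr 3 7 (.thr 18 33 (.thr 22 30 (.dbl 23 20 43))))) (.nv (.thr 56 41 (.thr 8 9 (.thr 25 59 (.dbl 24 27 40)))) (.rp 41 (.thr 8 9 (.thr 25 59 (.thr 24 27 (.thr 29 17 (.dbl 12 36 46))))) (.rp 3 (.thr 41 56 (.thr 43 40 (.thr 59 27 (.dbl 8 9 25)))) .nd))))) (.rp 3 (.thr 41 56 (.thr 43 40 (.thr 59 27 (.dbl 8 9 25)))) .nd))))))))))) (.rp 42 (.str 22 (.nv (.thr 15 47 (.thr 30 18 (.thr 60 45 (.thr 41 3 (.dbl 61 1 62))))) (.nv (.thr 15 47 (.thr 37 48 (.thr 7 52 (.thr 3 11 (.dbl 23 20 43))))) (.nv (.thr 23 20 (.thr 30 18 (.thr 19 27 (.dbl 28 25 29)))) (.rp 10 (.str 2 (.nv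 (.thr 15 47 (.thr 30 18 (.thr 60 45 (.thr 41 3 (.dbl 61 1 62))))) (.nv (.thr 15 47 (.thr 37 48 (.thr 7 52 (.thr 3 11 (.dbl 23 20 43))))) (.nv (.thr 30 18 (.thr 28 29 (.thr 23 20 (.dbl 19 25 27)))) .nd)))) (.rp 2 (.str 10 (.nv (.thr 23 20 (.thr 19 27 (.thr 28 25 (.dbl 30 18 29)))) (.nv (.thr 15 47 (.thr 37 48 (.dbl 5 0 53))) .nd))) .nd)))))) (.rp 37 (.thr 42 0 (.thr 15 47 (.str 48 (.nv (.dbl 58 10 53) (.rp 58 (.str 3 (.nv (.thr 11 7 (.thr 18 33 (.thr 22 30 (.dbl 41 56 60)))) (.nv (.thr 18 33 (.thr 22 30 (.dbl 23 20 43))) (.nv (.thr 43 23 (.thr 41 40 (.dbl 11 7 56))) (.rp 41 (.thr 23 43 (.thr 22 20 (.dbl 18 30 33))) (.rp 10 (.str 2 (.nv (.thr 43 23 (.thr 41 40 (.dbl 11 7 56))) (.nv (.thr 18 33 (.dbl 22 30 62)) (.nv (.thr 23 43 (.dbl 22 20 62)) .nd)))) (.rp 2 (.str 10 (.nv (.thr 11 7 (.thr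 18 33 (.thr 22 30 (.dbl 41 56 60)))) (.nv (.thr 18 33 (.thr 22 30 (.dbl 23 20 43))) (.nv (.thr 43 23 (.thr 41 40 (.dbl 11 7 56))) (.rp 41 (.thr 23 43 (.thr 22 20 (.dbl 18 30 33))) .nd))))) .nd))))))) (.rp 53 (.str 22 (.nv (.thr 2 62 (.thr 30 18 (.thr 28 29 (.thr 19 25 (.dbl 23 20 27))))) (.nv (.thr 23 20 (.thr 3 43 (.thr 7 11 (.thr 39 55 (.dbl 27 19 51))))) (.nv (.thr 10 58 (.thr 18 30 (.thr 62 2 (.thr 3 33 (.dbl 60 41 61))))) (.rp 2 (.thr 10 58 (.thr 18 30 (.thr 3 33 (.dbl 23 20 43)))) .nd))))) (.rp 10 .ext (.rp 2 (.thr 10 58 (.str 3 (.nv (.thr 11 7 (.thr 18 33 (.thr 22 30 (.dbl 41 56 60)))) (.nv (.thr 18 33 (.thr 22 30 (.dbl 23 20 43))) (.nv (.thr 43 23 (.thr 41 40 (.dbl 11 7 56))) (.rp 41 (.thr 23 43 (.thr 22 20 (.dbl 18 30 33))) .nd)))))) .nd)))))))) (.rp 15 (.str 12 (.nv (.thr 42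 0 (.thr 46 29 (.thr 38 34 (.thr 51 25 (.dbl 55 4 59))))) (.nv (.thr 29 46 (.thr 25 17 (.thr 27 24 (.thr 19 23 (.dbl 28 22 30))))) (.rp 46 (.thr 0 42 (.thr 4 8 (.thr 38 55 (.thr 25 51 (.thr 29 17 (.thr 27 24 (.thr 19 23 (.dbl 28 22 30)))))))) (.rp 29 (.thr 0 42 (.thr 4 8 (.thr 38 55 (.thr 25 51 (.thr 27 24 (.thr 23 19 (.thr 20 22 (.thr 52 36 (.thr 60 40 (.thr 56 48 (.thr 44 28 (.dbl 41 11 35)))))))))))) (.rp 25 (.thr 29 46 (.thr 30 28 (.thr 22 18 (.thr 20 23 (.thr 0 42 (.thr 60 40 (.thr 61 62 (.dbl 41 1 3)))))))) (.rp 10 (.str 2 (.nv (.thr 0 42 (.thr 4 8 (.thr 38 55 (.thr 25 51 (.dbl 29 17 46))))) (.nv (.thr 29 46 (.thr 30 28 (.thr 22 18 (.dbl 42 0 62)))) (.rp 46 (.thr 0 42 (.thr 3 1 (.thr 4 8 (.thr 23 43 (.thr 27 19 (.thr 25 24 (.dbl 38 51 55))))))) (.rp 42 (.thr 29 46 (.thr 25 17 (.thr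 27 24 (.thr 19 23 (.dbl 28 22 30))))) (.rp 29 (.thr 0 42 (.thr 3 1 (.thr 4 8 (.thr 23 43 (.thr 27 19 (.thr 25 24 (.dbl 38 51 55))))))) (.rp 17 (.thr 0 42 (.thr 3 1 (.thr 23 43 (.thr 22 20 (.thr 29 46 (.dbl 30 18 28)))))) (.rp 0 (.str 5 (.nv (.thr 29 46 (.thr 25 17 (.thr 37 53 (.thr 13 49 (.thr 1 9 (.dbl 61 41 45)))))) (.nv (.thr 29 46 (.thr 30 28 (.thr 22 18 (.thr 62 42 (.thr 60 61 (.thr 3 41 (.dbl 23 20 43))))))) (.nv (.thr 53 37 (.thr 48 58 (.thr 24 36 (.thr 25 27 (.dbl 29 17 46))))) (.rp 48 (.str 32 (.nv (.thr 29 46 (.thr 25 17 (.thr 27 24 (.thr 19 23 (.dbl 28 22 30))))) (.nv (.thr 37 53 (.thr 42 47 (.thr 46 29 (.thr 38 34 (.thr 51 25 (.dbl 55 4 59)))))) (.nv (.thr 37 53 (.thr 29 46 (.thr 42 47 (.thr 22 62 (.dbl 30 18 28))))) (.rp 46 (.thr 37 53 (.thr 42 47 (.thr 22 62 (.thr 30 18 (.thr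 23 20 (.thr 28 29 (.dbl 19 25 27))))))) (.rp 29 (.thr 37 53 (.thr 42 47 (.thr 22 62 (.thr 23 20 (.thr 7 52 (.thr 55 39 (.thr 51 59 (.dbl 38 4 25)))))))) .nd)))))) (.rp 46 (.thr 53 37 (.thr 48 58 (.thr 24 36 (.thr 27 25 (.thr 23 19 (.thr 22 20 (.thr 3 43 (.dbl 18 30 33)))))))) (.rp 32 (.str 48 (.nv (.thr 24 36 (.thr 25 27 (.dbl 29 17 46))) (.nv (.dbl 53 37 58) .nd))) (.rp 29 (.thr 53 37 (.thr 48 58 (.thr 24 36 (.thr 27 25 (.thr 23 19 (.thr 22 20 (.thr 18 30 (.dbl 3 33 43)))))))) (.rp 17 (.thr 29 46 (.thr 30 28 (.thr 18 22 (.thr 53 37 (.thr 48 58 (.thr 50 34 (.thr 51 49 (.thr 55 59 (.dbl 38 4 25))))))))) .nd))))))))) .nd)))))))) (.rp 2 (.str 10 (.nv (.dbl 42 0 58) (.rp 58 (.thr 0 42 (.thr 4 8 (.thr 29 46 (.thr 25 17 (.dbl 38 51 55))))) (.rp 42 (.thr 29 46 (.thr 25 17 (.thr 27 24 (.thr 19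 23 (.dbl 28 22 30))))) (.rp 0 (.thr 58 42 (.thr 48 53 (.thr 29 46 (.thr 25 17 (.dbl 24 27 36))))) .nd))))) .nd)))))))) (.rp 10 (.str 2 (.nv (.thr 0 42 (.thr 3 1 (.thr 15 47 (.thr 37 48 (.thr 7 11 (.thr 22 52 (.thr 60 41 (.dbl 30 18 45)))))))) (.nv (.thr 0 42 (.thr 3 1 (.thr 15 47 (.thr 7 11 (.thr 23 43 (.thr 39 55 (.dbl 27 19 51))))))) (.nv (.thr 42 0 (.thr 22 62 (.thr 30 18 (.thr 28 29 (.thr 19 25 (.dbl 23 20 27)))))) (.rp 42 (.str 22 (.nv (.thr 15 47 (.thr 30 18 (.thr 60 45 (.thr 41 3 (.dbl 61 1 62))))) (.nv (.thr 15 47 (.thr 37 48 (.thr 7 52 (.thr 3 11 (.dbl 23 20 43))))) (.nv (.thr 30 18 (.thr 28 29 (.thr 23 20 (.dbl 19 25 27)))) .nd)))) (.rp 15 (.thr 0 42 (.thr 3 1 (.thr 23 43 (.thr 19 27 (.thr 22 20 (.thr 30 18 (.dbl 28 25 29))))))) (.rp 0 (.thr 15 47 (.str 22 (.nv (.thr 23 20 (.thr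 3 43 (.thr 11 7 (.dbl 41 56 60)))) (.nv (.thr 62 42 (.thr 60 61 (.dbl 30 18 45))) (.rp 60 (.thr 30 18 (.thr 28 29 (.thr 19 25 (.dbl 23 20 27)))) (.rp 48 (.str 32 (.nv (.thr 23 20 (.thr 3 43 (.thr 11 7 (.dbl 41 56 60)))) (.nv (.thr 62 42 (.thr 60 61 (.dbl 30 18 45))) (.rp 60 (.thr 30 18 (.thr 28 29 (.thr 19 25 (.dbl 23 20 27)))) .nd)))) (.rp 32 (.thr 48 37 (.thr 42 62 (.thr 23 20 (.thr 3 43 (.dbl 18 30 33))))) .nd))))))) .nd))))))) (.rp 2 (.str 10 (.nv (.thr 15 47 (.thr 5 0 (.dbl 37 48 53))) (.nv (.dbl 42 0 58) (.rp 0 (.thr 58 42 (.thr 48 53 (.dbl 15 37 47))) .nd)))) (.rp 0 (.thr 15 47 (.thr 48 37 (.str 42 (.nv (.dbl 58 10 53) (.rp 58 (.str 3 (.nv (.thr 11 7 (.thr 18 33 (.thr 22 30 (.dbl 41 56 60)))) (.nv (.thr 18 33 (.thr 22 30 (.dbl 23 20 43))) (.nv (.thr 43 23 (.thr 41 40 (.dbl 11 7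 56))) (.rp 41 (.thr 23 43 (.thr 22 20 (.dbl 18 30 33))) (.rp 10 (.str 2 (.nv (.thr 43 23 (.thr 41 40 (.dbl 11 7 56))) (.nv (.thr 18 33 (.dbl 22 30 62)) (.nv (.thr 23 43 (.dbl 22 20 62)) .nd)))) (.rp 2 (.str 10 (.nv (.thr 11 7 (.thr 18 33 (.thr 22 30 (.dbl 41 56 60)))) (.nv (.thr 18 33 (.thr 22 30 (.dbl 23 20 43))) (.nv (.thr 43 23 (.thr 41 40 (.dbl 11 7 56))) (.rp 41 (.thr 23 43 (.thr 22 20 (.dbl 18 30 33))) .nd))))) .nd))))))) (.rp 53 (.str 22 (.nv (.thr 2 62 (.thr 30 18 (.thr 28 29 (.thr 19 25 (.dbl 23 20 27))))) (.nv (.thr 23 20 (.thr 3 43 (.thr 7 11 (.thr 39 55 (.dbl 27 19 51))))) (.nv (.thr 10 58 (.thr 18 30 (.thr 62 2 (.thr 3 33 (.dbl 60 41 61))))) (.rp 2 (.thr 10 58 (.thr 18 30 (.thr 3 33 (.dbl 23 20 43)))) .nd))))) (.rp 10 .ext (.rp 2 (.thr 10 58 (.str 3 (.nv (.thr 11 7 (.thr 18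 33 (.thr 22 30 (.dbl 41 56 60)))) (.nv (.thr 18 33 (.thr 22 30 (.dbl 23 20 43))) (.nv (.thr 43 23 (.thr 41 40 (.dbl 11 7 56))) (.rp 41 (.thr 23 43 (.thr 22 20 (.dbl 18 30 33))) .nd)))))) .nd)))))))) .nd))))))))))))

theorem w219 : WinAt (2216689664, 81984) :=
  chF (K := [(9223657912094720000, 140874927391809)]) (kc w218 kn) c219 2216689664 81984 16
    [17476] (by decide +kernel) (by decide +kernel)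

/-- A certificate. -/
noncomputable def c220 : Ct := (.str 22 (.nv (.thr 30 18 (.thr 23 20 (.thr 31 16 (.thr 28 29 (.dbl 19 25 27))))) (.rp 31 (.str 63 (.nv (.thr 18 30 (.thr 23 20 (.thr 3 43 (.thr 42 0 (.thr 48 33 (.dbl 58 10 53)))))) (.nv (.thr 30 18 (.thr 42 0 (.thr 62 2 (.thr 14 46 (.thr 50 38 (.dbl 58 10 54)))))) (.nv (.thr 23 20 (.thr 3 43 (.thr 60 41 (.thr 62 61 (.dbl 42 0 2))))) (.rp 42 (.thr 23 20 (.thr 18 30 (.thr 3 43 (.thr 33 48 (.thr 41 60 (.thr 45 37 (.thr 1 61 (.thr 17 49 (.thr 19 16 (.dbl 25 28 29)))))))))) (.rp 3 (.thr 20 23 (.thr 30 18 (.thr 0 42 (.thr 60 40 (.thr 62 61 (.thr 46 14 (.thr 12 29 (.thr 28 44 (.thr 24 16 (.dbl 25 19 27)))))))))) (.rp 0 (.thr 23 20 (.thr 18 30 (.thr 3 43 (.thr 48 33 (.thr 53 58 (.thr 60 41 (.thr 52 56 (.dbl 37 5 7)))))))) .nd))))))) (.rp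 30 (.str 60 (.nv (.thr 16 31 (.thr 41 3 (.thr 61 1 (.thr 63 62 (.thr 0 42 (.thr 48 32 (.dbl 56 11 52))))))) (.nv (.thr 16 31 (.thr 20 23 (.thr 0 40 (.thr 48 32 (.thr 52 56 (.thr 36 4 (.dbl 24 12 28))))))) (.nv (.thr 20 23 (.thr 0 40 (.thr 3 41 (.thr 2 1 (.dbl 42 62 63))))) (.rp 63 (.thr 20 23 (.thr 40 0 (.thr 41 3 (.thr 43 42 (.thr 11 56 (.thr 27 59 (.thr 25 24 (.thr 28 19 (.thr 12 44 (.thr 51 38 (.dbl 57 9 54))))))))))) (.rp 0 (.thr 23 20 (.thr 31 16 (.thr 19 27 (.thr 3 41 (.thr 51 35 (.thr 54 57 (.thr 63 43 (.thr 62 61 (.thr 58 50 (.dbl 42 2 10)))))))))) .nd)))))) (.rp 29 (.thr 18 30 (.thr 20 23 (.thr 16 31 (.thr 28 24 (.dbl 19 17 25))))) (.rp 28 (.str 3 (.nv (.thr 16 31 (.thr 23 20 (.thr 63 43 (.thr 0 42 (.thr 48 32 (.dbl 18 30 33)))))) (.nv (.thr 16 31 (.thr 41 60 (.thr 1 61 (.thr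 0 2 (.thr 48 32 (.dbl 18 30 33)))))) (.nv (.thr 20 23 (.thr 60 41 (.thr 0 40 (.thr 2 1 (.dbl 42 62 63))))) (.rp 63 (.thr 18 30 (.thr 20 23 (.thr 48 33 (.thr 60 41 (.thr 0 40 (.dbl 16 31 32)))))) (.rp 41 (.thr 18 30 (.thr 23 20 (.thr 63 43 (.thr 42 0 (.thr 48 33 (.dbl 58 10 53)))))) (.rp 0 (.thr 18 30 (.thr 33 48 (.thr 41 60 (.thr 45 37 (.thr 1 61 (.thr 17 49 (.dbl 16 19 31))))))) .nd))))))) (.rp 27 (.thr 18 30 (.thr 20 23 (.thr 16 31 (.thr 19 17 (.dbl 28 24 25))))) (.rp 25 (.str 3 (.nv (.thr 16 31 (.thr 23 20 (.thr 63 43 (.thr 0 42 (.thr 48 32 (.dbl 18 30 33)))))) (.nv (.thr 16 31 (.thr 18 30 (.thr 48 33 (.thr 0 32 (.thr 2 1 (.dbl 42 62 63)))))) (.nv (.thr 16 31 (.thr 18 30 (.thr 17 19 (.thr 33 48 (.thr 1 49 (.dbl 41 60 61)))))) (.nv (.thr 20 23 (.thr 60 41 (.thr 0 40 (.thr 2 1 (.dbl 42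 62 63))))) (.rp 63 (.thr 18 30 (.thr 20 23 (.thr 48 33 (.thr 60 41 (.thr 0 40 (.dbl 16 31 32)))))) .nd)))))) (.rp 23 (.thr 30 18 (.str 42 (.nv (.thr 31 16 (.thr 29 28 (.thr 63 0 (.thr 46 12 (.dbl 62 2 14))))) (.nv (.thr 62 2 (.thr 14 46 (.thr 50 38 (.dbl 58 10 54)))) (.rp 62 (.str 11 (.nv (.thr 10 58 (.thr 8 9 (.thr 31 16 (.thr 28 29 (.dbl 25 19 59))))) (.nv (.thr 56 41 (.thr 58 10 (.thr 59 57 (.thr 25 8 (.dbl 27 24 43))))) (.nv (.thr 10 58 (.thr 8 9 (.thr 25 59 (.thr 56 41 (.dbl 24 27 40))))) (.rp 59 (.thr 31 16 (.thr 29 28 (.thr 10 58 (.thr 8 9 (.thr 56 41 (.thr 24 40 (.dbl 25 17 27))))))) (.rp 58 (.thr 31 16 (.thr 29 28 (.thr 41 56 (.thr 43 40 (.thr 59 27 (.dbl 25 8 17)))))) (.rp 25 (.thr 31 16 (.thr 28 29 (.thr 0 63 (.thr 10 58 (.thr 8 9 (.thr 12 4 (.thr 60 44 (.dbl 41 3 56))))))))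 (.rp 10 (.thr 31 16 (.thr 29 28 (.thr 41 56 (.thr 43 40 (.thr 27 59 (.dbl 25 17 24)))))) (.rp 8 (.thr 31 16 (.thr 29 28 (.thr 58 10 (.thr 56 41 (.thr 59 57 (.thr 27 43 (.dbl 25 17 24))))))) .nd))))))))) (.rp 46 (.thr 31 16 (.thr 0 63 (.thr 2 62 (.thr 3 1 (.thr 60 41 (.thr 28 29 (.thr 12 44 (.thr 8 4 (.dbl 25 19 59))))))))) (.rp 14 (.thr 31 16 (.thr 28 29 (.thr 0 63 (.thr 2 62 (.thr 3 1 (.thr 60 41 (.thr 12 44 (.thr 8 4 (.dbl 25 19 59))))))))) (.rp 10 (.thr 31 16 (.thr 28 29 (.thr 0 63 (.thr 2 62 (.thr 3 1 (.thr 60 41 (.thr 12 44 (.thr 8 4 (.dbl 25 19 59))))))))) (.rp 2 (.thr 31 16 (.thr 29 28 (.thr 63 0 (.thr 46 12 (.thr 14 62 (.dbl 38 34 50)))))) .nd))))))))) (.rp 20 (.str 42 (.nv (.thr 0 63 (.thr 2 62 (.thr 3 1 (.thr 18 30 (.thr 48 33 (.dbl 16 31 32)))))) (.nv (.thr 30 18 (.thr 62 2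 (.thr 14 46 (.thr 50 38 (.dbl 58 10 54))))) (.rp 62 (.thr 30 18 (.thr 31 16 (.thr 28 29 (.thr 19 25 (.thr 23 27 (.thr 63 0 (.thr 3 43 (.thr 51 35 (.thr 59 55 (.thr 60 41 (.thr 57 54 (.dbl 58 10 56)))))))))))) (.rp 46 (.thr 18 30 (.thr 63 0 (.thr 62 2 (.thr 60 61 (.thr 3 41 (.thr 48 33 (.dbl 58 10 53))))))) (.rp 30 (.thr 31 16 (.thr 63 0 (.thr 62 2 (.thr 60 61 (.thr 3 41 (.thr 23 43 (.thr 19 27 (.thr 51 35 (.thr 59 55 (.dbl 25 8 28)))))))))) (.rp 18 (.thr 31 16 (.thr 63 0 (.thr 62 2 (.thr 60 61 (.thr 3 41 (.thr 23 43 (.thr 19 27 (.thr 28 25 (.thr 29 30 (.dbl 12 44 46)))))))))) (.rp 14 (.thr 30 18 (.thr 31 16 (.thr 28 29 (.thr 19 25 (.thr 23 27 (.thr 63 0 (.thr 3 43 (.thr 60 41 (.dbl 62 2 61))))))))) (.rp 2 (.thr 30 18 (.thr 31 16 (.thr 28 29 (.thr 19 25 (.thr 23 27 (.thr 63 0 (.thr 3 43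 (.thr 51 35 (.thr 59 55 (.thr 60 41 (.thr 57 54 (.dbl 58 10 56)))))))))))) .nd))))))))) (.rp 19 (.str 3 (.nv (.thr 16 31 (.thr 18 30 (.thr 48 33 (.thr 0 32 (.thr 1 2 (.dbl 41 60 61)))))) (.nv (.thr 16 31 (.thr 18 30 (.thr 23 20 (.thr 48 33 (.thr 0 32 (.dbl 63 42 43)))))) (.nv (.thr 23 20 (.thr 60 41 (.thr 63 43 (.thr 62 61 (.dbl 42 0 2))))) (.rp 63 (.thr 18 30 (.thr 20 23 (.thr 48 33 (.thr 60 41 (.thr 0 40 (.dbl 16 31 32)))))) (.rp 60 (.thr 23 20 (.thr 16 31 (.thr 63 43 (.thr 0 42 (.thr 48 32 (.dbl 18 30 33)))))) (.rp 23 (.thr 18 30 (.thr 33 48 (.thr 41 60 (.thr 45 37 (.thr 56 11 (.thr 1 61 (.thr 2 0 (.thr 17 49 (.thr 25 29 (.thr 57 9 (.thr 58 59 (.dbl 42 10 62)))))))))))) (.rp 0 (.thr 18 30 (.thr 23 20 (.thr 63 43 (.thr 48 33 (.thr 58 53 (.thr 60 41 (.thr 62 61 (.dbl 42 2 10)))))))) .nd))))))))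 (.rp 18 (.str 60 (.nv (.thr 16 31 (.thr 20 23 (.thr 0 40 (.thr 24 28 (.thr 48 32 (.thr 52 56 (.dbl 36 4 12))))))) (.nv (.thr 20 23 (.thr 0 40 (.thr 63 42 (.thr 61 62 (.dbl 41 1 3))))) (.rp 63 (.thr 20 23 (.thr 40 0 (.thr 41 3 (.thr 43 42 (.thr 11 56 (.thr 27 59 (.thr 25 24 (.thr 28 19 (.thr 12 44 (.thr 51 38 (.dbl 57 9 54))))))))))) (.rp 40 (.thr 23 20 (.thr 3 41 (.thr 63 43 (.thr 42 0 (.dbl 62 2 61))))) (.rp 23 (.thr 16 31 (.thr 41 3 (.thr 61 1 (.thr 63 62 (.thr 0 42 (.thr 48 32 (.dbl 56 11 52))))))) (.rp 20 (.thr 16 31 (.thr 41 3 (.thr 61 1 (.thr 63 62 (.thr 0 42 (.thr 48 32 (.dbl 56 11 52))))))) (.rp 0 (.thr 23 20 (.thr 31 16 (.thr 19 27 (.thr 28 25 (.thr 29 30 (.thr 12 44 (.thr 63 46 (.dbl 3 41 43)))))))) .nd)))))))) (.rp 17 (.thr 30 18 (.thr 23 20 (.thr 31 16 (.thr 19 27 (.dbl 28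 25 29))))) (.rp 16 (.str 63 (.nv (.thr 18 30 (.thr 23 20 (.thr 3 43 (.thr 42 0 (.thr 48 33 (.dbl 58 10 53)))))) (.nv (.thr 30 18 (.thr 42 0 (.thr 62 2 (.thr 14 46 (.thr 50 38 (.dbl 58 10 54)))))) (.nv (.thr 0 42 (.thr 20 23 (.thr 60 40 (.thr 61 62 (.dbl 41 1 3))))) (.rp 42 (.thr 23 20 (.thr 18 30 (.thr 3 43 (.thr 48 33 (.thr 53 58 (.thr 37 5 (.thr 7 52 (.thr 55 39 (.thr 51 59 (.thr 50 49 (.dbl 38 4 14))))))))))) (.rp 3 (.thr 20 23 (.thr 30 18 (.thr 0 42 (.thr 60 40 (.thr 62 61 (.thr 14 46 (.thr 38 50 (.thr 4 55 (.thr 12 8 (.thr 25 51 (.dbl 28 19 44))))))))))) (.rp 0 (.thr 23 20 (.thr 18 30 (.thr 3 43 (.thr 48 33 (.thr 53 58 (.thr 60 41 (.thr 52 56 (.dbl 37 5 7)))))))) .nd))))))) .nd))))))))))))))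

theorem w220 : WinAt (69206016, 32832) :=
  chF (K := []) kn c220 69206016 32832 15
    [] (by decide +kernel) (by decide +kernel)

/-- A certificate. -/
noncomputable def c221 : Ct := (.str 22 (.rp 63 (.str 3 (.nv (.thr 30 18 (.thr 60 41 (.thr 15 45 (.thr 37 48 (.dbl 7 11 52))))) (.nv (.thr 18 30 (.thr 48 33 (.thr 15 37 (.thr 41 60 (.dbl 11 7 56))))) (.nv (.thr 18 30 (.thr 48 33 (.thr 60 41 (.thr 52 56 (.dbl 37 7 15))))) (.rp 60 (.thr 18 30 (.thr 23 20 (.thr 48 33 (.thr 15 37 (.thr 7 11 (.thr 55 39 (.thr 38 4 (.thr 14 50 (.thr 12 13 (.thr 25 51 (.dbl 24 27 36))))))))))) (.rp 48 (.thr 30 18 (.thr 20 23 (.thr 60 41 (.thr 0 40 (.thr 2 1 (.thr 42 62 (.thr 15 45 (.dbl 10 5 58)))))))) (.rp 41 (.thr 18 30 (.thr 20 23 (.thr 48 33 (.thr 37 15 (.thr 52 7 (.thr 4 36 (.thr 55 38 (.dbl 53 5 54))))))))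 (.rp 37 (.thr 30 18 (.thr 20 23 (.thr 60 41 (.thr 0 40 (.thr 2 1 (.thr 42 62 (.thr 10 58 (.dbl 15 5 45)))))))) (.rp 30 (.thr 20 23 (.thr 60 41 (.thr 0 40 (.thr 2 1 (.thr 42 62 (.thr 10 58 (.thr 15 5 (.thr 7 11 (.dbl 37 48 52))))))))) (.rp 18 (.thr 20 23 (.thr 60 41 (.thr 0 40 (.thr 2 1 (.thr 42 62 (.thr 10 58 (.thr 15 5 (.thr 7 11 (.dbl 37 48 52))))))))) (.rp 15 (.thr 18 30 (.thr 20 23 (.thr 48 33 (.thr 60 41 (.thr 52 56 (.thr 4 36 (.thr 55 38 (.thr 53 54 (.dbl 37 5 7))))))))) (.rp 7 (.thr 30 18 (.thr 20 23 (.thr 60 41 (.thr 0 40 (.thr 15 45 (.thr 5 10 (.dbl 37 48 53))))))) .nd)))))))))))) (.rp 62 (.str 60 (.nv (.thr 3 41 (.thr 18 30 (.thr 23 20 (.thr 48 33 (.thr 63 43 (.thr 42 0 (.dbl 58 10 53))))))) (.nv (.thr 20 23 (.thr 0 40 (.thr 30 18 (.thr 15 45 (.thr 10 5 (.dbl 42 58 63)))))) (.nv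 (.thr 18 30 (.thr 3 41 (.thr 48 33 (.thr 37 15 (.dbl 52 7 56))))) (.rp 30 (.thr 20 23 (.thr 0 40 (.thr 63 42 (.thr 41 3 (.thr 56 11 (.thr 48 52 (.thr 53 58 (.dbl 37 5 15)))))))) (.rp 18 (.thr 20 23 (.thr 0 40 (.thr 63 42 (.thr 41 3 (.thr 56 11 (.thr 48 52 (.thr 53 58 (.dbl 37 5 15)))))))) .nd)))))) (.rp 61 (.str 60 (.nv (.thr 20 23 (.thr 0 40 (.thr 30 18 (.thr 15 45 (.thr 5 10 (.dbl 37 48 53)))))) (.nv (.thr 20 23 (.thr 0 40 (.thr 42 63 (.thr 2 62 (.dbl 3 1 41))))) (.nv (.thr 3 41 (.thr 18 30 (.thr 48 33 (.thr 37 15 (.dbl 52 7 56))))) .nd)))) (.rp 60 (.str 37 (.nv (.thr 23 20 (.thr 48 15 (.thr 53 5 (.thr 63 58 (.thr 3 43 (.dbl 18 30 33)))))) (.nv (.thr 20 23 (.thr 53 5 (.thr 52 7 (.thr 4 36 (.dbl 55 38 54))))) (.rp 53 (.str 62 (.nv (.thr 7 52 (.thr 23 20 (.thr 30 18 (.thr 14 46 (.thr 55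 39 (.dbl 38 4 50)))))) (.nv (.thr 2 42 (.thr 18 30 (.thr 20 23 (.thr 50 34 (.thr 38 14 (.thr 4 55 (.dbl 52 7 36))))))) (.nv (.thr 30 18 (.thr 14 46 (.thr 42 2 (.thr 50 38 (.dbl 58 10 54))))) (.rp 50 (.thr 20 23 (.thr 52 7 (.thr 4 36 (.thr 15 48 (.thr 30 18 (.thr 14 46 (.thr 12 13 (.thr 0 8 (.dbl 42 2 63))))))))) (.rp 38 (.thr 30 18 (.thr 46 14 (.thr 42 2 (.thr 10 58 (.thr 63 0 (.thr 29 12 (.thr 28 31 (.dbl 25 17 19)))))))) (.rp 30 (.thr 20 23 (.thr 52 7 (.thr 4 36 (.thr 42 2 (.thr 0 63 (.thr 12 8 (.thr 15 48 (.thr 58 10 (.thr 14 13 (.dbl 38 50 55)))))))))) (.rp 18 (.thr 20 23 (.thr 52 7 (.thr 4 36 (.thr 55 38 (.thr 48 15 (.thr 42 2 (.thr 63 0 (.thr 51 59 (.thr 50 49 (.dbl 58 10 54)))))))))) (.rp 14 (.thr 20 23 (.thr 52 7 (.thr 4 36 (.thr 55 38 (.thr 30 18 (.thr 42 2 (.thr 10 58 (.thr 32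 47 (.thr 63 0 (.thr 59 51 (.thr 25 8 (.thr 27 24 (.thr 43 11 (.thr 49 13 (.thr 17 29 (.thr 28 19 (.thr 1 33 (.dbl 41 40 61)))))))))))))))))) .nd))))))))) (.rp 23 (.thr 5 53 (.thr 15 48 (.thr 30 18 (.thr 0 10 (.thr 63 42 (.thr 31 47 (.thr 29 28 (.thr 12 46 (.thr 14 13 (.thr 38 50 (.dbl 4 8 55))))))))))) (.rp 20 (.thr 5 53 (.thr 15 48 (.thr 30 18 (.thr 0 10 (.thr 63 42 (.thr 31 47 (.thr 28 29 (.thr 19 25 (.thr 23 27 (.thr 3 43 (.dbl 7 11 52))))))))))) (.rp 7 (.thr 23 20 (.thr 5 53 (.thr 15 48 (.thr 30 18 (.thr 0 10 (.thr 63 42 (.thr 31 47 (.thr 28 29 (.dbl 19 25 27))))))))) (.rp 5 (.thr 20 23 (.thr 52 7 (.thr 4 36 (.thr 55 38 (.thr 53 54 (.thr 48 15 (.thr 63 58 (.thr 51 59 (.thr 50 49 (.thr 0 42 (.thr 34 17 (.dbl 18 2 30)))))))))))) (.rp 4 (.thr 23 20 (.thr 5 53 (.thr 15 48 (.thr 0 10 (.thr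 63 42 (.thr 3 43 (.dbl 7 11 52))))))) .nd))))))))) (.rp 59 (.str 60 (.nv (.thr 20 23 (.thr 0 40 (.thr 30 18 (.thr 15 45 (.thr 5 10 (.dbl 37 48 53)))))) (.nv (.thr 20 23 (.thr 0 40 (.thr 3 41 (.thr 2 1 (.dbl 42 62 63))))) (.nv (.thr 3 41 (.thr 18 30 (.thr 48 33 (.thr 37 15 (.dbl 52 7 56))))) .nd)))) (.rp 58 (.str 60 (.nv (.thr 20 23 (.thr 0 40 (.thr 30 18 (.thr 15 45 (.thr 5 10 (.dbl 37 48 53)))))) (.nv (.thr 20 23 (.thr 0 40 (.thr 3 41 (.thr 2 1 (.dbl 42 62 63))))) (.nv (.thr 3 41 (.thr 18 30 (.thr 48 33 (.thr 37 15 (.dbl 52 7 56))))) .nd)))) (.rp 57 (.str 60 (.nv (.thr 20 23 (.thr 0 40 (.thr 30 18 (.thr 15 45 (.thr 5 10 (.dbl 37 48 53)))))) (.nv (.thr 30 18 (.thr 15 45 (.thr 48 37 (.thr 56 52 (.dbl 41 3 11))))) (.nv (.thr 20 23 (.thr 0 40 (.thr 42 63 (.thr 2 62 (.dbl 3 1 41))))) .nd))))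 (.rp 56 (.str 60 (.nv (.thr 20 23 (.thr 0 40 (.thr 30 18 (.thr 15 45 (.thr 5 10 (.dbl 37 48 53)))))) (.nv (.thr 30 18 (.thr 15 45 (.thr 3 41 (.thr 7 11 (.dbl 37 48 52))))) (.nv (.thr 3 41 (.thr 20 23 (.thr 0 40 (.thr 42 63 (.dbl 2 1 62))))) .nd)))) (.rp 55 (.str 60 (.nv (.thr 20 23 (.thr 0 40 (.thr 30 18 (.thr 15 45 (.thr 5 10 (.dbl 37 48 53)))))) (.nv (.thr 3 41 (.thr 23 20 (.thr 63 43 (.thr 62 61 (.dbl 42 0 2))))) (.nv (.thr 3 41 (.thr 18 30 (.thr 48 33 (.thr 37 15 (.dbl 52 7 56))))) .nd)))) (.rp 54 (.str 3 (.nv (.thr 18 30 (.thr 23 20 (.thr 48 33 (.thr 63 43 (.thr 53 58 (.dbl 37 5 15)))))) (.nv (.thr 20 23 (.thr 60 41 (.thr 0 40 (.thr 2 1 (.dbl 42 62 63))))) (.nv (.thr 18 30 (.thr 48 33 (.thr 37 15 (.thr 60 41 (.dbl 52 7 56))))) .nd)))) (.rp 53 (.str 60 (.nv (.thr 20 23 (.thr 0 40 (.thr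 30 18 (.thr 15 45 (.thr 10 5 (.dbl 42 58 63)))))) (.nv (.thr 20 23 (.thr 0 40 (.thr 63 42 (.thr 61 62 (.dbl 41 1 3))))) (.nv (.thr 3 41 (.thr 18 30 (.thr 48 33 (.thr 37 15 (.dbl 52 7 56))))) .nd)))) (.rp 52 (.str 60 (.nv (.thr 3 41 (.thr 18 30 (.thr 23 20 (.thr 48 33 (.thr 37 15 (.thr 63 43 (.dbl 53 5 58))))))) (.nv (.thr 20 23 (.thr 0 40 (.thr 30 18 (.thr 15 45 (.thr 5 10 (.dbl 37 48 53)))))) (.nv (.thr 3 41 (.thr 20 23 (.thr 0 40 (.thr 42 63 (.dbl 2 1 62))))) (.rp 40 (.thr 23 20 (.thr 3 41 (.thr 63 43 (.thr 42 0 (.dbl 62 2 61))))) (.rp 23 (.thr 30 18 (.thr 45 15 (.thr 41 3 (.thr 61 1 (.thr 29 13 (.thr 28 31 (.dbl 25 17 19))))))) (.rp 20 (.thr 30 18 (.thr 45 15 (.thr 41 3 (.thr 61 1 (.thr 29 13 (.thr 28 31 (.dbl 25 17 19))))))) .nd))))))) (.rp 51 (.str 60 (.nv (.thr 20 23 (.thr 0 40 (.thr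 30 18 (.thr 15 45 (.thr 5 10 (.dbl 37 48 53)))))) (.nv (.thr 30 18 (.thr 15 45 (.thr 48 37 (.thr 56 52 (.dbl 41 3 11))))) (.nv (.thr 20 23 (.thr 0 40 (.thr 3 41 (.thr 2 1 (.dbl 42 62 63))))) .nd)))) (.rp 50 (.str 60 (.nv (.thr 20 23 (.thr 0 40 (.thr 30 18 (.thr 15 45 (.thr 5 10 (.dbl 37 48 53)))))) (.nv (.thr 20 23 (.thr 0 40 (.thr 3 41 (.thr 2 1 (.dbl 42 62 63))))) (.nv (.thr 3 41 (.thr 18 30 (.thr 48 33 (.thr 37 15 (.dbl 52 7 56))))) .nd)))) (.rp 49 (.str 60 (.nv (.thr 20 23 (.thr 0 40 (.thr 30 18 (.thr 15 45 (.thr 5 10 (.dbl 37 48 53)))))) (.nv (.thr 3 41 (.thr 30 18 (.thr 15 45 (.thr 7 11 (.dbl 37 48 52))))) (.nv (.thr 3 41 (.thr 20 23 (.thr 0 40 (.thr 42 63 (.dbl 2 1 62))))) .nd)))) (.rp 48 (.thr 20 23 (.str 0 (.nv (.thr 30 18 (.thr 42 63 (.thr 58 10 (.thr 62 2 (.thr 14 46 (.dbl 50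 38 54)))))) (.nv (.thr 30 18 (.thr 60 40 (.thr 15 45 (.thr 10 5 (.dbl 42 58 63))))) (.nv (.thr 60 40 (.thr 3 41 (.thr 2 1 (.dbl 42 62 63)))) (.rp 63 (.thr 30 18 (.thr 60 40 (.thr 15 45 (.thr 5 10 (.thr 3 41 (.thr 7 11 (.dbl 37 52 53))))))) (.rp 42 (.thr 30 18 (.thr 60 40 (.thr 15 45 (.thr 5 10 (.thr 37 53 (.thr 7 52 (.dbl 3 11 41))))))) (.rp 3 (.thr 18 30 (.thr 60 40 (.thr 63 42 (.thr 61 62 (.thr 41 1 (.str 12 (.nv (.thr 28 44 (.thr 25 19 (.thr 51 38 (.dbl 57 9 54)))) (.nv (.thr 8 4 (.thr 11 56 (.thr 9 10 (.thr 25 57 (.dbl 29 17 46))))) (.nv (.thr 44 28 (.thr 38 35 (.dbl 4 8 55))) (.rp 46 (.str 14 (.nv (.thr 38 50 (.dbl 4 8 55)) (.nv (.thr 44 28 (.dbl 38 35 50)) (.rp 50 (.thr 4 8 (.thr 44 28 (.dbl 38 35 55))) (.rp 38 (.str 34 (.nv (.thr 8 4 (.thr 11 56 (.thr 10 9 (.dbl 15 5 13)))) (.nv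 (.thr 17 51 (.thr 25 29 (.dbl 28 19 44))) .nd))) .nd))))) (.rp 14 (.thr 46 29 (.thr 4 8 (.thr 38 55 (.dbl 44 28 35)))) .nd))))))))))) .nd)))))))) (.rp 47 (.str 3 (.nv (.thr 18 30 (.thr 23 20 (.thr 48 33 (.thr 63 43 (.thr 53 58 (.dbl 37 5 15)))))) (.nv (.thr 18 30 (.thr 41 60 (.thr 11 56 (.thr 15 7 (.dbl 48 33 37))))) (.nv (.thr 20 23 (.thr 60 41 (.thr 0 40 (.thr 2 1 (.dbl 42 62 63))))) .nd)))) (.rp 46 (.str 60 (.nv (.thr 20 23 (.thr 0 40 (.thr 30 18 (.thr 15 45 (.thr 5 10 (.dbl 37 48 53)))))) (.nv (.thr 30 18 (.thr 15 45 (.thr 48 37 (.thr 56 52 (.dbl 41 3 11))))) (.nv (.thr 20 23 (.thr 0 40 (.thr 3 41 (.thr 2 1 (.dbl 42 62 63))))) .nd)))) (.rp 45 (.str 60 (.nv (.thr 20 23 (.thr 0 40 (.thr 63 42 (.thr 61 62 (.dbl 41 1 3))))) (.nv (.thr 3 41 (.thr 18 30 (.thr 48 33 (.thr 37 15 (.dbl 52 7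 56))))) (.rp 41 (.thr 20 23 (.thr 30 18 (.thr 0 40 (.thr 42 63 (.thr 62 2 (.thr 14 46 (.thr 50 38 (.dbl 58 10 54)))))))) (.rp 3 (.thr 20 23 (.thr 0 40 (.thr 63 42 (.thr 61 62 (.thr 41 1 (.thr 56 11 (.thr 48 52 (.thr 53 58 (.dbl 37 5 15))))))))) .nd))))) (.rp 44 (.str 60 (.nv (.thr 20 23 (.thr 0 40 (.thr 30 18 (.thr 15 45 (.thr 5 10 (.dbl 37 48 53)))))) (.nv (.thr 20 23 (.thr 0 40 (.thr 41 3 (.thr 61 1 (.dbl 63 42 62))))) (.nv (.thr 3 41 (.thr 18 30 (.thr 48 33 (.thr 37 15 (.dbl 52 7 56))))) .nd)))) (.rp 43 (.str 3 (.nv (.thr 20 23 (.thr 60 41 (.thr 0 40 (.thr 42 63 (.dbl 2 1 62))))) (.nv (.thr 18 30 (.thr 48 33 (.thr 15 37 (.thr 41 60 (.dbl 11 7 56))))) (.rp 60 (.thr 18 30 (.thr 23 20 (.thr 48 33 (.thr 15 37 (.thr 7 11 (.thr 39 55 (.thr 27 51 (.thr 19 31 (.dbl 25 24 28))))))))) (.rp 41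 (.thr 18 30 (.thr 20 23 (.thr 48 33 (.thr 37 15 (.thr 52 7 (.thr 4 36 (.thr 55 38 (.dbl 53 5 54)))))))) .nd))))) (.rp 42 (.str 3 (.nv (.thr 18 30 (.thr 23 20 (.thr 48 33 (.thr 63 43 (.thr 53 58 (.dbl 37 5 15)))))) (.nv (.thr 18 30 (.thr 41 60 (.thr 11 56 (.thr 48 33 (.dbl 15 7 37))))) (.rp 48 (.thr 30 18 (.thr 20 23 (.thr 60 41 (.thr 15 45 (.thr 7 11 (.thr 37 52 (.thr 5 53 (.dbl 0 10 40)))))))) (.rp 41 (.thr 18 30 (.thr 23 20 (.thr 48 33 (.thr 37 15 (.thr 53 5 (.dbl 63 43 58)))))) (.rp 37 (.thr 23 20 (.thr 43 63 (.thr 41 60 (.thr 11 56 (.thr 27 59 (.thr 19 31 (.dbl 25 24 28))))))) (.rp 33 (.thr 30 18 (.thr 60 41 (.thr 15 45 (.thr 37 48 (.dbl 7 11 52))))) (.rp 30 (.thr 23 20 (.thr 43 63 (.thr 41 60 (.thr 11 56 (.thr 27 59 (.thr 19 31 (.dbl 25 24 28))))))) (.rp 18 (.thr 23 20 (.thr 43 63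 (.thr 41 60 (.thr 11 56 (.thr 27 59 (.thr 19 31 (.dbl 25 24 28))))))) (.rp 15 (.thr 18 30 (.thr 20 23 (.thr 48 33 (.thr 60 41 (.thr 52 56 (.thr 4 36 (.thr 55 38 (.thr 53 54 (.dbl 37 5 7))))))))) .nd)))))))))) (.rp 41 (.str 37 (.nv (.thr 5 53 (.thr 7 52 (.thr 15 48 (.thr 0 10 (.thr 3 11 (.thr 2 1 (.dbl 42 62 63))))))) (.nv (.thr 5 53 (.thr 15 48 (.thr 0 10 (.thr 20 23 (.thr 30 18 (.dbl 60 40 45)))))) (.nv (.thr 20 23 (.thr 52 7 (.thr 4 36 (.thr 53 5 (.dbl 55 38 54))))) (.rp 53 (.thr 20 23 (.thr 30 18 (.thr 15 48 (.thr 60 45 (.thr 0 40 (.thr 10 5 (.dbl 42 58 63))))))) (.rp 5 (.thr 23 20 (.thr 18 30 (.thr 48 15 (.thr 3 33 (.thr 63 43 (.thr 58 53 (.dbl 42 0 10))))))) .nd)))))) (.rp 40 (.str 60 (.nv (.thr 30 18 (.thr 15 45 (.thr 48 37 (.thr 56 52 (.dbl 41 3 11))))) (.nv (.thr 23 20 (.thr 3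 41 (.thr 63 43 (.thr 42 0 (.dbl 62 2 61))))) (.nv (.thr 3 41 (.thr 18 30 (.thr 48 33 (.thr 37 15 (.dbl 52 7 56))))) (.rp 48 (.thr 30 18 (.thr 45 15 (.thr 41 3 (.thr 33 37 (.thr 61 1 (.thr 29 13 (.thr 28 31 (.dbl 25 17 19)))))))) (.rp 41 (.thr 30 18 (.thr 20 23 (.thr 15 45 (.thr 37 48 (.thr 52 7 (.thr 4 36 (.thr 55 38 (.dbl 53 5 54)))))))) (.rp 3 (.thr 30 18 (.thr 15 45 (.thr 48 37 (.thr 56 52 (.thr 41 11 (.thr 61 1 (.thr 63 62 (.thr 58 53 (.dbl 42 0 10))))))))) .nd))))))) (.rp 39 (.str 3 (.nv (.thr 18 30 (.thr 23 20 (.thr 48 33 (.thr 63 43 (.thr 53 58 (.dbl 37 5 15)))))) (.nv (.thr 23 20 (.thr 41 60 (.thr 1 61 (.thr 0 2 (.dbl 63 42 43))))) (.nv (.thr 18 30 (.thr 41 60 (.thr 11 56 (.thr 48 33 (.dbl 15 7 37))))) .nd)))) (.rp 38 (.str 3 (.nv (.thr 23 20 (.thr 18 30 (.thr 48 33 (.thr 63 43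 (.thr 53 58 (.dbl 37 5 15)))))) (.nv (.thr 20 23 (.thr 60 41 (.thr 0 40 (.thr 2 1 (.dbl 42 62 63))))) (.nv (.thr 18 30 (.thr 41 60 (.thr 11 56 (.thr 48 33 (.dbl 15 7 37))))) .nd)))) (.rp 37 (.str 3 (.nv (.thr 23 20 (.thr 41 60 (.thr 1 61 (.thr 0 2 (.dbl 63 42 43))))) (.nv (.thr 23 20 (.thr 18 30 (.thr 48 33 (.thr 63 43 (.thr 58 53 (.dbl 42 0 10)))))) (.nv (.thr 20 23 (.thr 60 41 (.thr 0 40 (.thr 42 63 (.dbl 2 1 62))))) (.rp 63 (.thr 20 23 (.thr 30 18 (.thr 60 41 (.thr 0 40 (.thr 2 1 (.thr 42 62 (.thr 10 58 (.dbl 15 5 45)))))))) (.rp 42 (.thr 23 20 (.thr 43 63 (.thr 41 60 (.thr 11 56 (.thr 27 59 (.thr 19 31 (.dbl 25 24 28))))))) (.rp 41 (.thr 23 20 (.thr 18 30 (.thr 63 43 (.thr 42 0 (.thr 58 10 (.dbl 48 33 53)))))) (.rp 23 (.thr 18 30 (.thr 48 33 (.thr 41 60 (.thr 1 61 (.thr 2 0 (.thr 50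 34 (.thr 51 49 (.thr 38 14 (.dbl 35 19 44))))))))) (.rp 20 (.thr 18 30 (.thr 33 48 (.thr 41 60 (.thr 1 61 (.thr 0 2 (.thr 17 49 (.thr 25 29 (.thr 51 34 (.dbl 19 28 35))))))))) (.rp 0 (.thr 23 20 (.thr 43 63 (.thr 41 60 (.thr 40 42 (.thr 11 56 (.thr 27 59 (.thr 19 31 (.dbl 25 24 28)))))))) .nd)))))))))) (.rp 36 (.str 60 (.nv (.thr 20 23 (.thr 0 40 (.thr 30 18 (.thr 15 45 (.thr 5 10 (.dbl 37 48 53)))))) (.nv (.thr 20 23 (.thr 0 40 (.thr 3 41 (.thr 2 1 (.dbl 42 62 63))))) (.nv (.thr 3 41 (.thr 18 30 (.thr 48 33 (.thr 37 15 (.dbl 52 7 56))))) .nd)))) (.rp 35 (.str 3 (.nv (.thr 18 30 (.thr 23 20 (.thr 48 33 (.thr 63 43 (.thr 53 58 (.dbl 37 5 15)))))) (.nv (.thr 23 20 (.thr 63 43 (.thr 0 42 (.thr 1 2 (.dbl 41 60 61))))) (.nv (.thr 18 30 (.thr 48 33 (.thr 15 37 (.thr 41 60 (.dbl 11 7 56)))))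 .nd)))) (.rp 34 (.str 3 (.nv (.thr 18 30 (.thr 23 20 (.thr 48 33 (.thr 63 43 (.thr 53 58 (.dbl 37 5 15)))))) (.nv (.thr 18 30 (.thr 41 60 (.thr 11 56 (.thr 15 7 (.dbl 48 33 37))))) (.nv (.thr 20 23 (.thr 60 41 (.thr 0 40 (.thr 42 63 (.dbl 2 1 62))))) .nd)))) (.rp 33 (.str 3 (.nv (.thr 30 18 (.thr 60 41 (.thr 15 45 (.thr 37 48 (.dbl 7 11 52))))) (.nv (.thr 23 20 (.thr 63 43 (.thr 0 42 (.thr 41 60 (.dbl 1 2 61))))) (.rp 60 (.thr 23 20 (.thr 18 30 (.thr 63 43 (.thr 0 42 (.thr 2 1 (.thr 50 34 (.thr 38 14 (.thr 4 55 (.thr 12 8 (.thr 25 51 (.dbl 29 17 46))))))))))) (.rp 41 (.thr 23 20 (.thr 30 18 (.thr 63 43 (.thr 42 0 (.thr 62 2 (.thr 14 46 (.thr 50 38 (.dbl 58 10 54)))))))) (.rp 0 (.thr 23 20 (.thr 43 63 (.thr 41 60 (.thr 40 42 (.thr 11 56 (.thr 27 59 (.thr 19 31 (.dbl 25 24 28)))))))) .nd))))))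 (.rp 32 (.str 0 (.nv (.thr 20 23 (.thr 30 18 (.thr 60 40 (.thr 15 45 (.thr 37 48 (.dbl 5 10 53)))))) (.nv (.thr 30 18 (.thr 42 63 (.thr 58 10 (.thr 62 2 (.thr 14 46 (.dbl 50 38 54)))))) (.nv (.thr 42 63 (.thr 2 62 (.thr 3 1 (.thr 20 23 (.dbl 60 40 41))))) .nd)))) (.rp 31 (.str 3 (.nv (.thr 18 30 (.thr 23 20 (.thr 48 33 (.thr 63 43 (.thr 53 58 (.dbl 37 5 15)))))) (.nv (.thr 20 23 (.thr 60 41 (.thr 0 40 (.thr 2 1 (.dbl 42 62 63))))) (.nv (.thr 18 30 (.thr 48 33 (.thr 15 37 (.thr 41 60 (.dbl 11 7 56))))) .nd)))) (.rp 30 (.str 3 (.nv (.thr 23 20 (.thr 63 43 (.thr 0 42 (.thr 41 60 (.dbl 1 2 61))))) (.nv (.thr 23 20 (.thr 41 60 (.thr 11 56 (.thr 43 63 (.thr 27 59 (.thr 19 31 (.dbl 25 24 28))))))) (.nv (.thr 20 23 (.thr 60 41 (.thr 0 40 (.thr 42 63 (.dbl 2 1 62))))) (.rp 63 (.thr 20 23 (.thr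 60 41 (.thr 0 40 (.thr 2 1 (.thr 42 62 (.thr 10 58 (.thr 15 5 (.thr 7 11 (.dbl 37 48 52))))))))) (.rp 60 (.thr 23 20 (.thr 63 43 (.thr 0 42 (.thr 1 2 (.thr 41 61 (.thr 11 56 (.thr 15 7 (.thr 48 37 (.thr 33 18 (.thr 17 49 (.thr 25 29 (.thr 28 19 (.thr 27 24 (.dbl 51 34 39)))))))))))))) (.rp 41 (.thr 23 20 (.thr 63 43 (.thr 42 0 (.thr 58 10 (.thr 48 53 (.thr 15 37 (.thr 7 11 (.thr 39 55 (.thr 27 51 (.dbl 31 19 47)))))))))) (.rp 23 (.thr 41 60 (.thr 1 61 (.thr 2 0 (.thr 11 56 (.thr 15 7 (.thr 48 37 (.thr 18 33 (.thr 50 34 (.thr 51 49 (.thr 38 14 (.dbl 35 19 44))))))))))) (.rp 20 (.thr 41 60 (.thr 1 61 (.thr 0 2 (.thr 63 42 (.thr 43 23 (.thr 11 56 (.thr 15 7 (.thr 47 31 (.thr 27 59 (.dbl 39 35 51)))))))))) (.rp 0 (.thr 23 20 (.thr 43 63 (.thr 41 60 (.thr 40 42 (.thr 11 56 (.thr 27 59 (.thr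 19 31 (.dbl 25 24 28)))))))) .nd)))))))))) (.rp 29 (.str 3 (.nv (.thr 18 30 (.thr 23 20 (.thr 48 33 (.thr 63 43 (.thr 53 58 (.dbl 37 5 15)))))) (.nv (.thr 18 30 (.thr 41 60 (.thr 11 56 (.thr 15 7 (.dbl 48 33 37))))) (.nv (.thr 20 23 (.thr 60 41 (.thr 0 40 (.thr 2 1 (.dbl 42 62 63))))) .nd)))) (.rp 28 (.thr 20 23 (.str 60 (.nv (.thr 0 40 (.thr 30 18 (.thr 15 45 (.thr 5 10 (.dbl 37 48 53))))) (.nv (.thr 3 41 (.thr 18 30 (.thr 48 33 (.thr 37 15 (.dbl 52 7 56))))) (.nv (.thr 0 40 (.thr 3 41 (.thr 42 63 (.dbl 2 1 62)))) .nd))))) (.rp 27 (.str 3 (.nv (.thr 18 30 (.thr 23 20 (.thr 48 33 (.thr 63 43 (.thr 53 58 (.dbl 37 5 15)))))) (.nv (.thr 20 23 (.thr 60 41 (.thr 0 40 (.thr 2 1 (.dbl 42 62 63))))) (.nv (.thr 18 30 (.thr 48 33 (.thr 15 37 (.thr 41 60 (.dbl 11 7 56))))) .nd)))) (.rp 25 (.str 3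 (.nv (.thr 23 20 (.thr 18 30 (.thr 48 33 (.thr 63 43 (.thr 53 58 (.dbl 37 5 15)))))) (.nv (.thr 20 23 (.thr 60 41 (.thr 0 40 (.thr 2 1 (.dbl 42 62 63))))) (.nv (.thr 18 30 (.thr 41 60 (.thr 11 56 (.thr 48 33 (.dbl 15 7 37))))) .nd)))) (.rp 24 (.thr 18 30 (.thr 20 23 (.str 3 (.nv (.thr 48 33 (.thr 37 15 (.thr 52 7 (.thr 4 36 (.thr 53 5 (.dbl 55 38 54)))))) (.nv (.thr 60 41 (.thr 0 40 (.thr 2 1 (.dbl 42 62 63)))) (.nv (.thr 48 33 (.thr 15 37 (.thr 41 60 (.dbl 11 7 56)))) (.rp 60 (.thr 48 33 (.thr 15 37 (.thr 11 7 (.thr 41 56 (.thr 1 61 (.thr 2 0 (.thr 50 34 (.thr 51 49 (.thr 38 14 (.dbl 35 19 44)))))))))) .nd))))))) (.rp 23 (.str 15 (.nv (.thr 37 48 (.thr 5 53 (.thr 0 10 (.thr 7 52 (.thr 3 11 (.thr 2 1 (.dbl 42 62 63))))))) (.nv (.thr 18 30 (.thr 48 37 (.thr 3 33 (.thr 41 60 (.dbl 11 7 56)))))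 (.rp 60 (.thr 30 18 (.thr 37 48 (.thr 5 53 (.thr 0 10 (.thr 63 42 (.thr 31 47 (.thr 29 28 (.thr 12 46 (.thr 4 8 (.thr 14 13 (.dbl 38 50 55))))))))))) (.rp 56 (.thr 30 18 (.thr 60 45 (.thr 3 41 (.thr 7 11 (.dbl 37 48 52))))) (.rp 48 (.thr 30 18 (.thr 60 45 (.thr 3 41 (.thr 7 11 (.thr 37 52 (.thr 5 53 (.thr 0 10 (.thr 2 1 (.dbl 42 62 63))))))))) (.rp 37 (.thr 30 18 (.thr 60 45 (.thr 41 3 (.thr 56 11 (.thr 48 52 (.thr 61 1 (.thr 63 62 (.thr 58 53 (.dbl 42 0 10))))))))) (.rp 11 (.thr 30 18 (.thr 60 45 (.thr 3 41 (.thr 37 48 (.thr 5 53 (.thr 0 10 (.thr 2 1 (.dbl 42 62 63)))))))) (.rp 7 (.thr 30 18 (.thr 60 45 (.thr 41 3 (.thr 56 11 (.dbl 48 37 52))))) (.rp 3 (.thr 30 18 (.thr 60 45 (.thr 48 37 (.thr 56 52 (.thr 41 11 (.thr 61 1 (.thr 63 62 (.thr 58 53 (.dbl 42 0 10))))))))) .nd)))))))))) (.rp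 20 (.str 3 (.nv (.thr 30 18 (.thr 60 41 (.thr 15 45 (.thr 37 48 (.dbl 7 11 52))))) (.nv (.thr 18 30 (.thr 48 33 (.thr 60 41 (.thr 37 15 (.dbl 52 7 56))))) (.rp 60 (.thr 18 30 (.thr 48 33 (.thr 15 37 (.thr 11 7 (.thr 41 56 (.thr 1 61 (.thr 0 2 (.thr 63 42 (.thr 47 31 (.thr 43 23 (.thr 27 59 (.dbl 39 35 51)))))))))))) (.rp 52 (.thr 18 30 (.thr 48 33 (.thr 15 37 (.thr 11 7 (.dbl 41 56 60))))) (.rp 48 (.thr 30 18 (.thr 60 41 (.thr 15 45 (.thr 7 11 (.thr 37 52 (.thr 5 53 (.thr 0 10 (.thr 2 1 (.dbl 42 62 63))))))))) (.rp 41 (.thr 18 30 (.thr 48 33 (.thr 37 15 (.thr 7 52 (.thr 53 5 (.thr 63 58 (.thr 23 43 (.thr 55 39 (.thr 51 59 (.thr 50 49 (.dbl 38 4 14))))))))))) (.rp 37 (.thr 18 30 (.thr 33 48 (.thr 41 60 (.thr 1 61 (.thr 0 2 (.thr 17 49 (.thr 25 29 (.thr 51 34 (.dbl 19 28 35))))))))) (.rp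 30 (.thr 41 60 (.thr 1 61 (.thr 0 2 (.thr 63 42 (.thr 43 23 (.thr 11 56 (.thr 15 7 (.thr 47 31 (.thr 27 59 (.dbl 39 35 51)))))))))) (.rp 28 (.str 24 (.nv (.thr 18 30 (.thr 25 27 (.thr 48 33 (.thr 12 36 (.thr 38 51 (.thr 14 50 (.dbl 15 13 37))))))) (.nv (.thr 25 27 (.thr 41 60 (.thr 56 11 (.thr 57 9 (.thr 59 58 (.dbl 8 40 42)))))) (.nv (.thr 18 30 (.thr 48 33 (.thr 37 15 (.thr 60 41 (.dbl 52 7 56))))) .nd)))) (.rp 24 (.str 28 (.nv (.thr 18 30 (.thr 41 60 (.thr 11 56 (.thr 15 7 (.dbl 48 33 37))))) (.nv (.thr 30 18 (.thr 29 31 (.dbl 25 17 19))) (.rp 30 (.thr 25 19 (.thr 17 29 (.thr 41 60 (.thr 1 61 (.thr 49 33 (.thr 13 37 (.dbl 9 5 57))))))) (.rp 18 (.thr 25 19 (.thr 17 29 (.thr 41 60 (.thr 1 61 (.thr 49 33 (.thr 13 37 (.dbl 9 5 57))))))) .nd))))) (.rp 18 (.thr 41 60 (.thr 1 61 (.thr 0 2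 (.thr 63 42 (.thr 43 23 (.thr 11 56 (.thr 15 7 (.thr 47 31 (.thr 27 59 (.dbl 39 35 51)))))))))) (.rp 15 (.thr 18 30 (.thr 33 48 (.thr 41 60 (.thr 45 37 (.thr 1 61 (.thr 0 2 (.thr 17 49 (.thr 25 29 (.thr 51 34 (.dbl 19 28 35)))))))))) (.rp 7 (.thr 18 30 (.thr 48 33 (.thr 41 60 (.thr 1 61 (.thr 0 2 (.thr 63 42 (.thr 53 58 (.dbl 37 5 15)))))))) .nd)))))))))))))) (.rp 19 (.thr 18 30 (.str 3 (.nv (.thr 23 20 (.thr 48 33 (.thr 63 43 (.thr 53 58 (.dbl 37 5 15))))) (.nv (.thr 20 23 (.thr 60 41 (.thr 0 40 (.thr 2 1 (.dbl 42 62 63))))) (.nv (.thr 48 33 (.thr 15 37 (.thr 41 60 (.dbl 11 7 56)))) .nd))))) (.rp 18 (.thr 20 23 (.str 37 (.nv (.thr 5 53 (.thr 15 48 (.thr 0 10 (.thr 60 40 (.thr 45 30 (.dbl 41 3 33)))))) (.nv (.thr 52 7 (.thr 4 36 (.thr 53 5 (.dbl 55 38 54)))) (.rp 53 (.thr 15 48 (.thr 7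 52 (.thr 3 11 (.thr 60 41 (.thr 0 40 (.thr 2 1 (.dbl 42 62 63))))))) (.rp 19 (.str 17 (.nv (.thr 25 29 (.thr 49 13 (.thr 1 33 (.thr 53 5 (.dbl 61 41 57))))) (.nv (.thr 15 48 (.thr 25 29 (.thr 13 49 (.thr 12 14 (.thr 27 24 (.dbl 51 38 39)))))) (.nv (.thr 52 7 (.thr 4 36 (.thr 53 5 (.dbl 55 38 54)))) (.rp 31 (.str 27 (.nv (.dbl 25 24 29) (.rp 29 (.thr 24 25 (.thr 48 15 (.thr 36 12 (.dbl 52 4 7)))) (.rp 25 (.thr 15 48 (.thr 39 51 (.thr 52 7 (.dbl 36 4 38)))) (.rp 24 (.thr 15 48 (.thr 39 51 (.thr 36 38 (.dbl 52 4 7)))) .nd))))) (.rp 27 (.str 31 (.nv (.thr 15 48 (.thr 5 53 (.thr 0 10 (.dbl 63 42 47)))) (.nv (.thr 7 52 (.thr 15 48 (.thr 3 11 (.thr 29 25 (.thr 30 28 (.dbl 60 41 45)))))) (.nv (.thr 53 5 (.thr 52 7 (.thr 4 36 (.dbl 55 38 54)))) .nd)))) .nd)))))) (.rp 17 (.str 19 (.nv (.thr 25 28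 (.thr 24 27 (.thr 48 15 (.thr 36 12 (.dbl 52 4 7))))) (.nv (.thr 5 53 (.thr 15 48 (.thr 0 10 (.thr 60 40 (.thr 45 30 (.dbl 41 3 33)))))) (.nv (.thr 52 7 (.thr 4 36 (.thr 53 5 (.dbl 55 38 54)))) .nd)))) (.rp 5 (.thr 15 48 (.thr 7 52 (.thr 3 11 (.thr 60 41 (.thr 0 40 (.thr 2 1 (.dbl 42 62 63))))))) .nd)))))))) (.rp 17 (.thr 20 23 (.thr 18 30 (.str 3 (.nv (.thr 41 60 (.thr 11 56 (.thr 15 7 (.dbl 48 33 37)))) (.nv (.thr 60 41 (.thr 0 40 (.thr 42 63 (.dbl 2 1 62)))) (.rp 60 (.thr 48 33 (.thr 15 37 (.thr 11 7 (.thr 41 56 (.thr 1 61 (.thr 2 0 (.thr 50 34 (.thr 51 49 (.thr 38 14 (.dbl 35 19 44)))))))))) (.rp 41 (.thr 48 33 (.thr 37 15 (.thr 52 7 (.thr 4 36 (.thr 55 38 (.dbl 53 5 54)))))) .nd))))))) (.rp 15 (.str 63 (.nv (.thr 18 30 (.thr 23 20 (.thr 3 43 (.thr 42 0 (.thr 48 33 (.dbl 58 10 53))))))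 (.nv (.thr 30 18 (.thr 42 0 (.thr 62 2 (.thr 14 46 (.thr 50 38 (.dbl 58 10 54)))))) (.nv (.thr 0 42 (.thr 20 23 (.thr 60 40 (.thr 61 62 (.dbl 41 1 3))))) (.rp 42 (.thr 23 20 (.thr 18 30 (.thr 3 43 (.thr 48 33 (.thr 53 58 (.thr 37 5 (.thr 7 52 (.thr 55 39 (.thr 51 59 (.thr 50 49 (.dbl 38 4 14))))))))))) (.rp 3 (.thr 20 23 (.thr 30 18 (.thr 0 42 (.thr 60 40 (.thr 62 61 (.thr 14 46 (.thr 38 50 (.thr 4 55 (.thr 12 8 (.thr 25 51 (.dbl 28 19 44))))))))))) (.rp 0 (.thr 23 20 (.thr 18 30 (.thr 3 43 (.thr 48 33 (.thr 53 58 (.thr 60 41 (.thr 52 56 (.dbl 37 5 7)))))))) .nd))))))) (.rp 14 (.thr 20 23 (.str 60 (.nv (.thr 0 40 (.thr 30 18 (.thr 15 45 (.thr 10 5 (.dbl 42 58 63))))) (.nv (.thr 3 41 (.thr 30 18 (.thr 15 45 (.thr 7 11 (.dbl 37 48 52))))) (.nv (.thr 0 40 (.thr 3 41 (.thr 42 63 (.dbl 2 1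 62)))) (.rp 10 (.str 2 (.nv (.thr 41 3 (.thr 61 1 (.dbl 62 42 63))) (.nv (.thr 0 40 (.dbl 42 62 63)) (.nv (.thr 0 40 (.dbl 3 1 41)) .nd)))) (.rp 2 (.str 10 (.nv (.thr 30 18 (.thr 15 45 (.thr 5 0 (.dbl 37 48 53)))) (.nv (.thr 42 58 (.dbl 0 40 63)) (.rp 0 (.thr 18 30 (.thr 3 41 (.thr 48 33 (.thr 52 56 (.dbl 37 7 15))))) .nd)))) .nd))))))) (.rp 13 (.str 3 (.nv (.thr 23 20 (.thr 18 30 (.thr 48 33 (.thr 63 43 (.thr 53 58 (.dbl 37 5 15)))))) (.nv (.thr 18 30 (.thr 41 60 (.thr 11 56 (.thr 15 7 (.dbl 48 33 37))))) (.nv (.thr 20 23 (.thr 60 41 (.thr 0 40 (.thr 42 63 (.dbl 2 1 62))))) .nd)))) (.rp 12 (.str 3 (.nv (.thr 23 20 (.thr 18 30 (.thr 48 33 (.thr 63 43 (.thr 53 58 (.dbl 37 5 15)))))) (.nv (.thr 18 30 (.thr 41 60 (.thr 11 56 (.thr 15 7 (.dbl 48 33 37))))) (.nv (.thr 20 23 (.thr 60 41 (.thr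 0 40 (.thr 2 1 (.dbl 42 62 63))))) .nd)))) (.rp 11 (.str 3 (.nv (.thr 18 30 (.thr 23 20 (.thr 48 33 (.thr 63 43 (.thr 53 58 (.dbl 37 5 15)))))) (.nv (.thr 20 23 (.thr 60 41 (.thr 0 40 (.thr 2 1 (.dbl 42 62 63))))) (.nv (.thr 18 30 (.thr 48 33 (.thr 37 15 (.thr 60 41 (.dbl 52 7 56))))) .nd)))) (.rp 10 (.thr 18 30 (.thr 20 23 (.str 3 (.nv (.thr 48 33 (.thr 15 37 (.thr 11 7 (.dbl 41 56 60)))) (.nv (.thr 60 41 (.thr 0 40 (.thr 42 63 (.dbl 2 1 62)))) (.rp 60 (.thr 48 33 (.thr 15 37 (.thr 11 7 (.thr 41 56 (.thr 1 61 (.thr 2 0 (.thr 50 34 (.thr 51 49 (.thr 38 14 (.dbl 35 19 44)))))))))) (.rp 41 (.thr 48 33 (.thr 37 15 (.thr 52 7 (.thr 4 36 (.thr 55 38 (.dbl 53 5 54)))))) (.rp 14 (.str 2 (.nv (.thr 41 60 (.thr 11 56 (.thr 15 7 (.dbl 48 33 37)))) (.nv (.thr 0 1 (.dbl 42 62 63)) (.rp 62 (.str 46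 (.nv (.thr 0 1 (.thr 34 50 (.dbl 42 38 63))) (.nv (.thr 41 60 (.thr 11 56 (.thr 15 7 (.dbl 48 33 37)))) (.nv (.thr 0 1 (.dbl 60 40 41)) .nd)))) (.rp 46 (.thr 62 42 (.thr 0 1 (.dbl 60 40 41))) .nd))))) (.rp 2 (.str 14 (.nv (.thr 38 50 (.thr 4 55 (.thr 48 33 (.thr 52 36 (.dbl 60 41 56))))) (.nv (.thr 38 50 (.thr 4 55 (.thr 41 60 (.thr 11 56 (.thr 52 36 (.dbl 7 15 37)))))) (.nv (.thr 38 50 (.thr 4 55 (.thr 36 52 (.thr 48 33 (.dbl 37 15 39))))) (.nv (.thr 48 33 (.thr 15 37 (.thr 41 60 (.dbl 11 7 56)))) (.rp 7 (.thr 38 50 (.thr 48 33 (.thr 60 41 (.thr 52 56 (.dbl 4 36 55))))) .nd)))))) .nd))))))))) (.rp 9 (.str 3 (.nv (.thr 23 20 (.thr 18 30 (.thr 48 33 (.thr 63 43 (.thr 53 58 (.dbl 37 5 15)))))) (.nv (.thr 20 23 (.thr 60 41 (.thr 0 40 (.thr 2 1 (.dbl 42 62 63))))) (.nv (.thr 18 30 (.thr 48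 33 (.thr 15 37 (.thr 41 60 (.dbl 11 7 56))))) .nd)))) (.rp 8 (.str 3 (.nv (.thr 18 30 (.thr 23 20 (.thr 48 33 (.thr 63 43 (.thr 53 58 (.dbl 37 5 15)))))) (.nv (.thr 23 20 (.thr 41 60 (.thr 1 61 (.thr 0 2 (.dbl 63 42 43))))) (.nv (.thr 18 30 (.thr 48 33 (.thr 15 37 (.thr 41 60 (.dbl 11 7 56))))) .nd)))) (.rp 7 (.thr 18 30 (.str 3 (.nv (.thr 20 23 (.thr 60 41 (.thr 0 40 (.thr 42 63 (.dbl 2 1 62))))) (.nv (.thr 23 20 (.thr 63 43 (.thr 48 33 (.thr 53 58 (.dbl 37 5 15))))) (.rp 63 (.thr 20 23 (.thr 48 33 (.thr 37 15 (.thr 60 41 (.thr 52 56 (.thr 4 36 (.thr 55 38 (.dbl 53 5 54)))))))) (.rp 23 (.thr 48 33 (.thr 41 60 (.thr 1 61 (.thr 0 2 (.thr 63 42 (.thr 53 58 (.dbl 37 5 15))))))) (.rp 20 (.thr 48 33 (.thr 41 60 (.thr 1 61 (.thr 0 2 (.thr 63 42 (.thr 53 58 (.dbl 37 5 15))))))) (.rp 5 (.str 4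 (.nv (.thr 48 33 (.thr 60 41 (.thr 52 56 (.dbl 20 23 36)))) (.nv (.thr 38 55 (.thr 50 14 (.thr 2 34 (.thr 0 1 (.dbl 42 62 63))))) (.nv (.thr 20 23 (.thr 52 36 (.thr 48 33 (.dbl 60 41 56)))) (.rp 23 (.thr 41 60 (.thr 1 61 (.thr 2 0 (.thr 50 34 (.dbl 38 14 55))))) .nd))))) (.rp 4 (.str 5 (.nv (.thr 37 53 (.dbl 48 15 33)) (.rp 53 (.thr 23 20 (.thr 48 33 (.thr 15 37 (.thr 0 10 (.dbl 63 42 43))))) (.rp 48 (.thr 23 20 (.thr 63 43 (.thr 0 42 (.thr 1 2 (.dbl 41 60 61))))) (.rp 37 (.thr 23 20 (.thr 48 33 (.thr 63 43 (.thr 58 53 (.dbl 42 0 10))))) (.rp 33 (.thr 23 20 (.thr 53 37 (.thr 63 43 (.thr 58 48 (.dbl 42 0 10))))) (.rp 15 (.thr 37 53 (.thr 33 48 (.dbl 41 45 60))) .nd))))))) .nd))))))))) (.rp 5 (.thr 20 23 (.thr 18 30 (.str 60 (.nv (.thr 3 41 (.thr 48 33 (.thr 52 56 (.dbl 37 7 15)))) (.nv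 (.thr 0 40 (.thr 3 41 (.thr 42 63 (.dbl 2 1 62)))) (.rp 41 (.thr 0 40 (.thr 42 63 (.thr 2 62 (.thr 3 1 (.thr 48 33 (.thr 52 56 (.dbl 37 7 15))))))) (.rp 7 (.str 4 (.nv (.thr 0 40 (.thr 42 63 (.thr 2 62 (.thr 34 50 (.dbl 38 46 55))))) (.nv (.thr 52 36 (.thr 48 56 (.dbl 3 33 41))) (.rp 55 (.str 39 (.nv (.thr 0 40 (.thr 12 8 (.thr 36 52 (.thr 37 38 (.dbl 48 15 24))))) (.nv (.thr 0 40 (.thr 3 41 (.thr 2 1 (.dbl 42 62 63)))) (.nv (.thr 52 36 (.thr 48 56 (.dbl 3 33 41))) .nd)))) (.rp 39 (.thr 55 38 (.thr 3 41 (.thr 48 33 (.dbl 52 36 56)))) (.rp 3 (.thr 0 40 (.thr 12 8 (.thr 28 44 (.thr 25 19 (.dbl 38 51 55))))) .nd)))))) (.rp 4 (.str 7 (.nv (.thr 0 40 (.thr 3 41 (.thr 2 1 (.dbl 42 62 63)))) (.nv (.thr 52 37 (.thr 48 56 (.dbl 3 33 41))) (.rp 41 (.thr 52 37 (.thr 48 56 (.thr 0 40 (.thr 42 63 (.thr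 2 62 (.dbl 3 1 33)))))) (.rp 3 (.thr 52 37 (.thr 56 48 (.thr 41 11 (.thr 61 1 (.thr 63 62 (.dbl 0 40 42)))))) .nd))))) (.rp 3 (.thr 0 40 (.thr 63 42 (.thr 61 62 (.thr 41 1 (.thr 56 11 (.thr 52 48 (.thr 4 36 (.thr 12 8 (.thr 38 55 (.dbl 44 28 35)))))))))) .nd))))))))) (.rp 4 (.thr 20 23 (.str 0 (.nv (.thr 30 18 (.thr 42 63 (.thr 58 10 (.thr 62 2 (.thr 14 46 (.dbl 50 38 54)))))) (.nv (.thr 30 18 (.thr 60 40 (.thr 15 45 (.thr 5 10 (.dbl 37 48 53))))) (.nv (.thr 60 40 (.thr 3 41 (.thr 42 63 (.dbl 2 1 62)))) (.rp 7 (.str 5 (.nv (.thr 42 63 (.thr 2 62 (.thr 3 1 (.dbl 60 40 41)))) (.nv (.thr 37 53 (.dbl 15 10 48)) (.rp 55 (.str 39 (.nv (.thr 42 63 (.thr 2 62 (.thr 3 1 (.dbl 60 40 41)))) (.nv (.thr 15 10 (.dbl 37 48 53)) (.rp 2 (.thr 10 15 (.dbl 42 58 63)) .nd)))) (.rp 39 (.str 55 (.nv (.thr 42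 63 (.thr 2 62 (.thr 3 1 (.dbl 60 40 41)))) (.nv (.thr 37 53 (.dbl 15 10 48)) .nd))) .nd))))) (.rp 5 (.str 7 (.nv (.thr 30 18 (.thr 37 52 (.thr 60 40 (.dbl 15 45 48)))) (.nv (.thr 42 63 (.thr 2 62 (.thr 3 1 (.dbl 60 40 41)))) (.nv (.thr 37 52 (.thr 15 48 (.thr 60 40 (.dbl 3 11 41)))) (.rp 60 (.thr 30 18 (.thr 42 63 (.thr 62 2 (.thr 14 46 (.thr 50 38 (.dbl 58 10 54)))))) (.rp 40 (.thr 30 18 (.thr 37 52 (.thr 15 48 (.thr 3 11 (.dbl 60 41 45))))) .nd)))))) (.rp 2 (.thr 60 40 (.thr 41 3 (.thr 61 1 (.dbl 63 42 62)))) .nd)))))))) (.rp 3 (.str 0 (.nv (.thr 20 23 (.thr 30 18 (.thr 60 40 (.thr 15 45 (.thr 10 5 (.dbl 42 58 63)))))) (.nv (.thr 30 18 (.thr 42 63 (.thr 58 10 (.thr 62 2 (.thr 14 46 (.dbl 50 38 54)))))) (.nv (.thr 20 23 (.thr 30 18 (.thr 60 40 (.thr 15 45 (.thr 5 10 (.dbl 37 48 53))))))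 (.rp 63 (.str 60 (.nv (.dbl 20 23 40) (.rp 43 (.thr 23 20 (.thr 30 18 (.thr 15 45 (.thr 5 10 (.dbl 37 48 53))))) (.rp 40 (.thr 30 18 (.thr 15 45 (.thr 5 10 (.dbl 37 48 53)))) (.rp 23 (.str 43 (.nv (.thr 40 20 (.thr 41 42 (.thr 56 11 (.thr 48 52 (.thr 15 37 (.dbl 30 18 45)))))) (.nv (.thr 30 18 (.thr 15 45 (.thr 5 10 (.dbl 37 48 53)))) (.rp 48 (.thr 40 20 (.thr 41 42 (.thr 56 11 (.thr 24 8 (.thr 25 27 (.thr 17 29 (.thr 51 34 (.dbl 57 9 54)))))))) (.rp 45 (.thr 40 20 (.thr 42 41 (.thr 58 10 (.thr 30 18 (.thr 62 2 (.thr 14 46 (.dbl 50 38 54))))))) (.rp 37 (.thr 40 20 (.thr 42 41 (.thr 10 58 (.thr 30 18 (.dbl 15 5 45))))) (.rp 30 (.thr 40 20 (.thr 41 42 (.thr 56 11 (.thr 24 8 (.thr 25 27 (.thr 17 29 (.thr 51 34 (.dbl 57 9 54)))))))) (.rp 18 (.thr 40 20 (.thr 41 42 (.thr 56 11 (.thr 24 8 (.thr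 25 27 (.thr 17 29 (.thr 51 34 (.dbl 57 9 54)))))))) (.rp 15 (.thr 40 20 (.thr 42 41 (.thr 58 10 (.thr 30 18 (.thr 62 2 (.thr 14 46 (.dbl 50 38 54))))))) (.rp 12 (.str 9 (.nv (.thr 30 18 (.thr 15 45 (.thr 5 10 (.dbl 37 48 53)))) (.nv (.thr 40 20 (.thr 41 42 (.thr 11 56 (.thr 25 57 (.dbl 27 24 59))))) (.rp 46 (.str 29 (.nv (.thr 40 20 (.thr 41 42 (.dbl 25 17 57))) (.nv (.thr 30 18 (.thr 15 45 (.thr 5 10 (.dbl 37 48 53)))) (.nv (.thr 25 17 (.thr 41 57 (.dbl 40 20 42))) (.rp 17 (.thr 40 20 (.thr 41 42 (.thr 11 56 (.thr 25 57 (.dbl 27 24 59))))) .nd))))) (.rp 29 (.str 46 (.nv (.thr 40 20 (.thr 41 42 (.thr 11 56 (.thr 25 57 (.dbl 27 24 59))))) (.nv (.thr 30 18 (.thr 15 45 (.thr 10 5 (.thr 11 8 (.thr 48 37 (.dbl 56 41 52)))))) (.nv (.thr 40 20 (.thr 42 41 (.thr 62 2 (.dbl 30 14 18)))) (.rp 41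 (.thr 30 18 (.thr 15 45 (.thr 5 10 (.dbl 37 48 53)))) .nd))))) .nd))))) (.rp 9 (.str 12 (.nv (.thr 8 4 (.thr 40 20 (.thr 41 42 (.dbl 56 11 24)))) (.nv (.thr 28 44 (.thr 25 19 (.thr 17 29 (.dbl 51 34 38)))) (.rp 28 (.thr 30 18 (.thr 15 45 (.thr 5 10 (.dbl 37 48 53)))) .nd)))) .nd))))))))))) (.rp 20 (.thr 30 18 (.thr 15 45 (.thr 5 10 (.dbl 37 48 53)))) (.rp 12 (.str 9 (.nv (.dbl 20 23 40) (.rp 46 (.str 29 (.nv (.thr 30 18 (.thr 28 31 (.dbl 25 17 19))) (.nv (.dbl 20 23 40) (.rp 43 (.thr 23 20 (.thr 30 18 (.thr 28 31 (.dbl 25 17 19)))) (.rp 23 (.str 43 (.nv (.thr 40 20 (.thr 41 42 (.dbl 25 17 57))) (.nv (.thr 30 18 (.thr 15 45 (.thr 5 10 (.dbl 37 48 53)))) (.nv (.thr 25 17 (.thr 41 57 (.dbl 40 20 42))) (.rp 17 (.thr 40 20 (.thr 41 42 (.thr 11 56 (.thr 25 57 (.dbl 27 24 59))))) .nd))))) .nd)))))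 (.rp 43 (.thr 23 20 (.thr 30 18 (.thr 15 45 (.thr 5 10 (.dbl 37 48 53))))) (.rp 40 (.thr 30 18 (.thr 15 45 (.thr 5 10 (.dbl 37 48 53)))) (.rp 29 (.str 46 (.nv (.dbl 20 23 40) (.rp 43 (.thr 23 20 (.thr 30 18 (.thr 15 45 (.thr 5 10 (.dbl 37 48 53))))) (.rp 40 (.thr 30 18 (.thr 15 45 (.thr 5 10 (.dbl 37 48 53)))) (.rp 23 (.str 43 (.nv (.thr 40 20 (.thr 41 42 (.thr 11 56 (.thr 25 57 (.dbl 27 24 59))))) (.nv (.thr 30 18 (.thr 15 45 (.thr 10 5 (.thr 11 8 (.thr 48 37 (.dbl 56 41 52)))))) (.nv (.thr 40 20 (.thr 42 41 (.thr 62 2 (.dbl 30 14 18)))) (.rp 41 (.thr 30 18 (.thr 15 45 (.thr 5 10 (.dbl 37 48 53)))) .nd))))) (.rp 20 (.thr 30 18 (.thr 15 45 (.thr 5 10 (.dbl 37 48 53)))) .nd)))))) (.rp 23 (.str 43 (.nv (.thr 30 18 (.thr 15 45 (.thr 5 10 (.dbl 37 48 53)))) (.nv (.thr 40 20 (.thr 41 42 (.thr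 11 56 (.thr 25 57 (.dbl 27 24 59))))) (.rp 46 (.str 29 (.nv (.thr 40 20 (.thr 41 42 (.dbl 25 17 57))) (.nv (.thr 30 18 (.thr 15 45 (.thr 5 10 (.dbl 37 48 53)))) (.nv (.thr 25 17 (.thr 41 57 (.dbl 40 20 42))) (.rp 17 (.thr 40 20 (.thr 41 42 (.thr 11 56 (.thr 25 57 (.dbl 27 24 59))))) .nd))))) (.rp 29 (.str 46 (.nv (.thr 40 20 (.thr 41 42 (.thr 11 56 (.thr 25 57 (.dbl 27 24 59))))) (.nv (.thr 30 18 (.thr 15 45 (.thr 10 5 (.thr 11 8 (.thr 48 37 (.dbl 56 41 52)))))) (.nv (.thr 40 20 (.thr 42 41 (.thr 62 2 (.dbl 30 14 18)))) (.rp 41 (.thr 30 18 (.thr 15 45 (.thr 5 10 (.dbl 37 48 53)))) .nd))))) .nd))))) (.rp 20 (.thr 30 18 (.thr 15 45 (.thr 5 10 (.dbl 37 48 53)))) .nd)))))))) (.rp 9 (.str 12 (.nv (.dbl 20 23 40) (.rp 43 (.thr 23 20 (.thr 28 44 (.thr 4 8 (.thr 38 55 (.dbl 25 19 51))))) (.rp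 40 (.thr 28 44 (.thr 4 8 (.thr 38 55 (.dbl 25 19 51)))) (.rp 23 (.str 43 (.nv (.thr 8 4 (.thr 40 20 (.thr 41 42 (.dbl 56 11 24)))) (.nv (.thr 28 44 (.thr 25 19 (.thr 17 29 (.dbl 51 34 38)))) (.rp 28 (.thr 30 18 (.thr 15 45 (.thr 5 10 (.dbl 37 48 53)))) .nd)))) (.rp 20 (.thr 28 44 (.thr 4 8 (.thr 38 55 (.dbl 25 19 51)))) .nd)))))) .nd)))))))) (.rp 48 (.thr 20 23 (.thr 18 30 (.thr 60 40 (.thr 63 42 (.thr 61 62 (.thr 41 1 (.str 12 (.nv (.thr 28 44 (.thr 25 19 (.thr 51 38 (.dbl 57 9 54)))) (.nv (.thr 8 4 (.thr 11 56 (.thr 9 10 (.thr 25 57 (.dbl 29 17 46))))) (.nv (.thr 44 28 (.thr 38 35 (.dbl 4 8 55))) (.rp 46 (.str 14 (.nv (.thr 38 50 (.dbl 4 8 55)) (.nv (.thr 44 28 (.dbl 38 35 50)) (.rp 50 (.thr 4 8 (.thr 44 28 (.dbl 38 35 55))) (.rp 38 (.str 34 (.nv (.thr 8 4 (.thr 11 56 (.thr 10 9 (.dbl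 15 5 13)))) (.nv (.thr 17 51 (.thr 25 29 (.dbl 28 19 44))) .nd))) .nd))))) (.rp 14 (.thr 46 29 (.thr 4 8 (.thr 38 55 (.dbl 44 28 35)))) .nd)))))))))))) (.rp 43 (.thr 23 20 (.thr 30 18 (.thr 42 63 (.thr 62 2 (.thr 14 46 (.thr 50 38 (.dbl 58 10 54))))))) (.rp 33 (.thr 20 23 (.thr 60 40 (.thr 63 42 (.thr 61 62 (.thr 41 1 (.thr 56 11 (.thr 30 18 (.thr 48 52 (.dbl 15 37 45))))))))) (.rp 30 (.thr 20 23 (.thr 60 40 (.thr 63 42 (.thr 61 62 (.thr 41 1 (.thr 56 11 (.thr 48 52 (.thr 53 58 (.dbl 37 5 15))))))))) (.rp 23 (.thr 63 42 (.str 12 (.nv (.thr 29 46 (.thr 30 18 (.thr 28 31 (.dbl 25 17 19)))) (.nv (.thr 4 8 (.thr 38 55 (.thr 14 50 (.thr 15 13 (.thr 5 10 (.dbl 37 48 53)))))) (.nv (.thr 29 46 (.thr 25 17 (.thr 4 8 (.dbl 38 51 55)))) (.rp 38 (.thr 30 18 (.thr 46 29 (.thr 14 62 (.thr 15 13 (.thr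 5 10 (.dbl 37 48 53)))))) (.rp 25 (.thr 30 18 (.thr 46 29 (.thr 14 62 (.thr 38 50 (.dbl 4 8 55))))) .nd))))))) (.rp 19 (.thr 20 23 (.thr 60 40 (.thr 63 42 (.thr 61 62 (.thr 41 1 (.thr 56 11 (.thr 48 52 (.thr 53 58 (.dbl 37 5 15))))))))) (.rp 18 (.thr 20 23 (.thr 60 40 (.thr 63 42 (.thr 61 62 (.thr 41 1 (.thr 56 11 (.thr 48 52 (.thr 53 58 (.dbl 37 5 15))))))))) (.rp 17 (.thr 20 23 (.thr 60 40 (.thr 63 42 (.thr 61 62 (.thr 41 1 (.thr 56 11 (.thr 48 52 (.thr 53 58 (.dbl 37 5 15))))))))) (.rp 12 (.str 9 (.nv (.thr 20 23 (.thr 30 18 (.thr 60 40 (.thr 63 42 (.thr 61 62 (.thr 45 15 (.thr 13 29 (.dbl 1 5 41)))))))) (.nv (.thr 42 63 (.thr 10 58 (.thr 5 15 (.thr 11 8 (.thr 41 56 (.dbl 1 13 61)))))) (.nv (.thr 20 23 (.thr 30 18 (.thr 60 40 (.thr 15 45 (.thr 5 10 (.dbl 37 48 53)))))) (.rp 63 (.str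 15 (.nv (.thr 30 18 (.thr 60 45 (.dbl 20 23 40))) (.nv (.thr 5 10 (.dbl 37 48 53)) (.rp 48 (.thr 10 5 (.thr 11 8 (.thr 41 56 (.thr 25 57 (.thr 29 17 (.thr 61 1 (.thr 45 13 (.dbl 30 18 60)))))))) (.rp 46 (.str 29 (.nv (.thr 23 20 (.thr 30 18 (.thr 28 31 (.dbl 25 17 19)))) (.nv (.thr 5 10 (.dbl 37 48 53)) (.rp 48 (.thr 25 17 (.thr 5 10 (.thr 13 1 (.dbl 37 49 53)))) (.rp 23 (.str 43 (.nv (.thr 25 17 (.thr 41 57 (.thr 11 56 (.dbl 27 24 59)))) (.nv (.thr 5 10 (.dbl 37 48 53)) .nd))) .nd))))) (.rp 43 (.thr 23 20 (.thr 5 10 (.dbl 37 48 53))) (.rp 29 (.str 46 (.nv (.thr 30 18 (.thr 60 45 (.dbl 20 23 40))) (.nv (.thr 5 10 (.dbl 37 48 53)) (.rp 48 (.thr 10 5 (.thr 11 8 (.thr 58 42 (.thr 56 41 (.thr 59 57 (.thr 20 23 (.thr 43 27 (.thr 60 40 (.dbl 30 18 45))))))))) (.rp 43 (.thr 23 20 (.thr 5 10 (.dbl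 37 48 53))) (.rp 23 (.str 43 (.nv (.thr 10 5 (.thr 11 8 (.thr 41 56 (.dbl 42 40 58)))) (.nv (.thr 5 10 (.dbl 37 48 53)) (.rp 10 (.thr 30 18 (.thr 60 45 (.thr 40 20 (.thr 42 41 (.dbl 62 2 14))))) (.rp 5 (.thr 30 18 (.thr 62 14 (.thr 60 45 (.thr 40 20 (.dbl 42 2 41))))) .nd))))) .nd)))))) (.rp 23 (.str 43 (.nv (.thr 10 5 (.thr 11 8 (.thr 41 56 (.dbl 42 40 58)))) (.nv (.thr 5 10 (.dbl 37 48 53)) (.rp 46 (.str 29 (.nv (.thr 25 17 (.thr 41 57 (.thr 11 56 (.dbl 27 24 59)))) (.nv (.thr 5 10 (.dbl 37 48 53)) .nd))) (.rp 29 (.str 46 (.nv (.thr 10 5 (.thr 11 8 (.thr 41 56 (.dbl 42 40 58)))) (.nv (.thr 5 10 (.dbl 37 48 53)) (.rp 10 (.thr 30 18 (.thr 60 45 (.thr 40 20 (.thr 42 41 (.dbl 62 2 14))))) (.rp 5 (.thr 30 18 (.thr 62 14 (.thr 60 45 (.thr 40 20 (.dbl 42 2 41))))) .nd))))) (.rp 10 (.thr 30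 18 (.thr 60 45 (.thr 40 20 (.thr 41 42 (.thr 56 11 (.dbl 48 37 52)))))) (.rp 5 (.thr 30 18 (.thr 60 45 (.thr 40 20 (.thr 41 42 (.thr 56 11 (.dbl 48 37 52)))))) .nd))))))) .nd)))))))) (.rp 48 (.thr 20 23 (.thr 60 40 (.thr 63 42 (.thr 61 62 (.thr 41 1 (.thr 25 57 (.thr 29 17 (.thr 45 13 (.dbl 30 15 18))))))))) (.rp 43 (.thr 23 20 (.thr 42 63 (.thr 10 58 (.thr 5 15 (.thr 11 8 (.thr 41 56 (.dbl 1 13 61))))))) (.rp 40 (.thr 30 18 (.thr 42 63 (.thr 10 58 (.thr 15 5 (.thr 11 8 (.thr 48 37 (.thr 60 45 (.dbl 56 41 52)))))))) (.rp 23 (.str 25 (.nv (.thr 17 29 (.thr 41 57 (.thr 1 61 (.thr 13 5 (.dbl 49 33 37))))) (.nv (.thr 17 29 (.thr 18 30 (.thr 34 51 (.thr 2 50 (.dbl 42 62 63))))) (.nv (.thr 41 57 (.thr 11 56 (.thr 8 10 (.dbl 42 59 63)))) (.rp 63 (.str 43 (.nv (.thr 24 27 (.thr 41 57 (.thr 40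 42 (.dbl 56 8 11)))) (.nv (.thr 41 57 (.thr 11 56 (.thr 8 10 (.dbl 42 40 59)))) (.nv (.thr 41 57 (.thr 11 56 (.dbl 27 24 59))) (.rp 57 (.thr 27 24 (.thr 11 59 (.thr 10 8 (.thr 15 5 (.thr 51 39 (.dbl 17 29 34)))))) (.rp 56 (.thr 27 24 (.thr 59 11 (.thr 41 57 (.dbl 42 8 40)))) (.rp 46 (.thr 29 17 (.thr 27 24 (.thr 11 59 (.dbl 41 56 57)))) (.rp 41 (.thr 27 24 (.thr 11 59 (.thr 10 8 (.thr 15 5 (.thr 51 39 (.dbl 17 29 34)))))) (.rp 29 (.str 46 (.nv (.thr 27 24 (.thr 30 18 (.thr 59 11 (.thr 42 8 (.dbl 62 2 14))))) (.nv (.thr 30 18 (.thr 41 57 (.thr 42 40 (.dbl 62 2 14)))) (.nv (.thr 41 57 (.thr 11 56 (.dbl 27 24 59))) .nd)))) (.rp 11 (.thr 41 57 (.thr 42 40 (.thr 10 58 (.thr 1 61 (.dbl 5 13 15))))) .nd)))))))))) (.rp 43 (.thr 63 42 (.thr 17 29 (.thr 41 57 (.thr 1 61 (.thr 13 5 (.dbl 49 33 37))))))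 .nd)))))) (.rp 15 (.thr 20 23 (.thr 60 40 (.thr 63 42 (.thr 61 62 (.thr 41 1 (.thr 57 25 (.thr 53 49 (.thr 48 58 (.dbl 56 11 52))))))))) (.rp 5 (.thr 20 23 (.thr 40 60 (.thr 42 63 (.thr 43 41 (.thr 10 58 (.thr 8 11 (.thr 24 56 (.dbl 25 27 59)))))))) .nd))))))))))) (.rp 10 (.thr 20 23 (.thr 30 18 (.thr 60 40 (.thr 15 45 (.thr 48 37 (.thr 56 52 (.thr 41 11 (.thr 61 1 (.dbl 63 42 62))))))))) (.rp 9 (.str 12 (.nv (.thr 30 18 (.thr 63 42 (.thr 29 46 (.thr 28 31 (.dbl 25 17 19))))) (.nv (.thr 4 8 (.thr 20 23 (.thr 52 36 (.thr 37 7 (.thr 5 53 (.dbl 15 10 48)))))) (.nv (.thr 4 8 (.thr 38 55 (.thr 63 42 (.thr 29 46 (.dbl 25 17 51))))) (.rp 63 (.thr 18 30 (.thr 4 8 (.thr 38 55 (.thr 51 25 (.thr 50 14 (.dbl 34 2 17)))))) .nd))))) .nd)))))))))))))))) (.rp 2 (.thr 20 23 (.thr 18 30 (.str 37 (.nv (.thr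 52 7 (.thr 4 36 (.thr 53 5 (.dbl 55 38 54)))) (.nv (.thr 48 15 (.thr 3 33 (.thr 60 41 (.dbl 52 7 56)))) (.rp 52 (.thr 48 15 (.thr 3 33 (.thr 53 5 (.thr 60 41 (.thr 0 40 (.dbl 63 42 58)))))) (.rp 14 (.str 10 (.nv (.thr 52 7 (.thr 4 36 (.thr 53 5 (.dbl 55 38 54)))) (.nv (.thr 48 15 (.thr 3 33 (.thr 60 41 (.dbl 52 7 56)))) (.nv (.thr 5 53 (.dbl 15 0 48)) (.rp 62 (.str 46 (.nv (.thr 42 58 (.thr 38 34 (.thr 4 55 (.dbl 36 39 52)))) (.nv (.thr 5 53 (.dbl 15 0 48)) .nd))) (.rp 46 (.str 62 (.nv (.thr 52 7 (.thr 4 36 (.thr 53 5 (.dbl 55 38 54)))) (.nv (.thr 48 15 (.thr 3 33 (.thr 60 41 (.dbl 52 7 56)))) (.nv (.thr 5 53 (.dbl 15 0 48)) .nd)))) .nd)))))) (.rp 10 (.str 14 (.nv (.thr 15 48 (.thr 12 13 (.thr 38 50 (.thr 39 36 (.dbl 51 25 27))))) (.nv (.thr 48 15 (.thr 3 33 (.thr 60 41 (.dbl 52 7 56))))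 (.nv (.thr 38 50 (.thr 36 39 (.dbl 4 52 55))) .nd)))) (.rp 7 (.thr 48 15 (.thr 3 33 (.thr 60 41 (.thr 52 56 (.thr 4 36 (.thr 53 5 (.dbl 55 38 54))))))) .nd))))))))) (.rp 1 (.str 3 (.nv (.thr 18 30 (.thr 23 20 (.thr 48 33 (.thr 63 43 (.thr 53 58 (.dbl 37 5 15)))))) (.nv (.thr 23 20 (.thr 63 43 (.thr 60 41 (.thr 62 61 (.dbl 42 0 2))))) (.nv (.thr 18 30 (.thr 48 33 (.thr 15 37 (.thr 41 60 (.dbl 11 7 56))))) .nd)))) (.rp 0 (.str 48 (.nv (.thr 18 30 (.thr 3 33 (.thr 23 20 (.thr 37 15 (.thr 63 43 (.dbl 53 5 58)))))) (.nv (.thr 20 23 (.thr 37 15 (.thr 52 7 (.thr 4 36 (.thr 55 38 (.dbl 53 5 54)))))) (.nv (.thr 18 30 (.thr 3 33 (.thr 60 41 (.thr 52 56 (.dbl 37 7 15))))) (.rp 37 (.thr 18 30 (.thr 23 20 (.thr 3 33 (.thr 43 63 (.thr 41 60 (.thr 40 42 (.thr 11 56 (.thr 27 59 (.thr 19 31 (.dbl 25 24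 28)))))))))) (.rp 15 (.thr 18 30 (.thr 23 20 (.thr 3 33 (.thr 63 43 (.thr 58 53 (.thr 60 41 (.thr 62 61 (.dbl 42 2 10)))))))) (.rp 3 (.thr 30 18 (.thr 20 23 (.thr 15 37 (.thr 60 45 (.thr 52 56 (.thr 36 4 (.thr 12 24 (.thr 28 44 (.thr 29 31 (.dbl 25 17 19)))))))))) .nd))))))) .nd))))))))))))))))))))))))))))))))))))))))))))))))))))))))))))

theorem w221 : WinAt (69206016, 65600) :=
  chF (K := []) kn c221 69206016 65600 16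
    [] (by decide +kernel) (by decide +kernel)

/-- A certificate. -/
noncomputable def c222 : Ct := (.str 0 (.nv (.thr 48 32 (.thr 15 37 (.thr 42 63 (.dbl 10 5 58)))) (.rp 63 (.thr 48 32 (.thr 15 37 (.thr 10 5 (.str 4 (.nv (.thr 38 55 (.thr 50 14 (.thr 51 49 (.thr 25 12 (.dbl 27 24 39))))) (.nv (.thr 8 12 (.thr 11 9 (.thr 3 7 (.thr 1 2 (.dbl 41 56 61))))) (.nv (.thr 12 8 (.thr 38 55 (.dbl 14 13 50))) (.rp 47 (.thr 42 58 (.thr 12 8 (.thr 14 13 (.dbl 38 50 55)))) (.rp 42 (.str 47 (.nv (.thr 38 55 (.thr 50 14 (.thr 51 49 (.thr 25 12 (.dbl 27 24 39))))) (.nv (.thr 8 12 (.thr 11 9 (.thr 3 7 (.thr 1 2 (.dbl 41 56 61))))) (.nv (.thr 38 55 (.thr 14 50 (.dbl 12 8 13))) (.rp 12 (.thr 38 55 (.thr 50 14 (.thr 51 49 (.thr 39 27 (.thr 35 43 (.thr 41 44 (.thr 11 56 (.dbl 3 7 19)))))))) .nd))))) (.rp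 12 (.thr 38 55 (.thr 50 14 (.thr 51 49 (.thr 27 39 (.thr 25 24 (.thr 42 58 (.thr 8 59 (.thr 9 11 (.thr 57 41 (.thr 60 54 (.thr 52 56 (.dbl 20 36 40)))))))))))) .nd)))))))))) (.rp 58 (.str 20 (.nv (.thr 22 23 (.thr 18 30 (.thr 42 63 (.thr 48 32 (.thr 3 33 (.dbl 2 1 62)))))) (.nv (.thr 24 28 (.thr 40 60 (.thr 56 8 (.thr 41 11 (.dbl 42 43 63))))) (.nv (.thr 22 23 (.thr 30 18 (.thr 60 40 (.thr 15 45 (.dbl 48 32 37))))) (.rp 30 (.thr 22 23 (.thr 48 32 (.thr 37 15 (.thr 52 7 (.dbl 60 40 56))))) .nd))))) (.rp 48 (.str 20 (.nv (.thr 24 28 (.thr 25 27 (.thr 40 60 (.thr 42 63 (.dbl 8 56 59))))) (.nv (.thr 24 28 (.thr 40 60 (.thr 56 8 (.thr 41 11 (.dbl 42 43 63))))) (.nv (.thr 22 23 (.thr 60 40 (.thr 63 42 (.thr 61 62 (.dbl 41 1 3))))) (.rp 63 (.thr 22 23 (.thr 30 18 (.thr 60 40 (.thr 15 45 (.thr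 5 10 (.thr 3 41 (.thr 7 11 (.dbl 37 52 53)))))))) (.rp 60 (.thr 22 23 (.thr 30 18 (.thr 42 63 (.thr 62 2 (.thr 14 46 (.thr 50 38 (.dbl 58 10 54))))))) (.rp 42 (.thr 22 23 (.thr 30 18 (.thr 60 40 (.thr 15 45 (.thr 5 10 (.thr 37 53 (.thr 7 52 (.dbl 3 11 41)))))))) (.rp 40 (.thr 22 23 (.thr 30 18 (.thr 42 63 (.thr 62 2 (.thr 14 46 (.thr 50 38 (.dbl 58 10 54))))))) .nd)))))))) (.rp 42 (.str 20 (.nv (.thr 22 23 (.thr 24 28 (.thr 48 32 (.thr 37 15 (.thr 52 7 (.dbl 36 4 12)))))) (.nv (.thr 24 28 (.thr 40 60 (.thr 8 56 (.thr 12 4 (.dbl 48 32 36))))) (.nv (.thr 22 23 (.thr 30 18 (.thr 60 40 (.thr 15 45 (.dbl 48 32 37))))) (.rp 48 (.thr 22 23 (.thr 30 18 (.thr 60 40 (.thr 15 45 (.thr 5 10 (.thr 37 53 (.thr 7 52 (.dbl 3 11 41)))))))) (.rp 32 (.thr 22 23 (.thr 30 18 (.thr 60 40 (.thr 15 45 (.thr 5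 10 (.dbl 37 48 53)))))) (.rp 30 (.thr 22 23 (.thr 48 32 (.thr 37 15 (.thr 52 7 (.dbl 60 40 56))))) .nd))))))) (.rp 37 (.str 20 (.nv (.thr 22 23 (.thr 18 30 (.thr 42 63 (.thr 48 32 (.thr 3 33 (.dbl 2 1 62)))))) (.nv (.thr 24 28 (.thr 40 60 (.thr 8 56 (.thr 12 4 (.dbl 48 32 36))))) (.nv (.thr 22 23 (.thr 42 63 (.thr 2 62 (.thr 60 40 (.dbl 3 1 41))))) .nd)))) (.rp 32 (.str 20 (.nv (.thr 22 23 (.thr 30 18 (.thr 60 40 (.thr 15 45 (.thr 5 10 (.dbl 37 48 53)))))) (.nv (.thr 24 28 (.thr 40 60 (.thr 56 8 (.thr 41 11 (.dbl 42 43 63))))) (.nv (.thr 22 23 (.thr 60 40 (.thr 3 41 (.thr 42 63 (.dbl 2 1 62))))) (.rp 60 (.thr 22 23 (.thr 30 18 (.thr 42 63 (.thr 62 2 (.thr 14 46 (.thr 50 38 (.dbl 58 10 54))))))) (.rp 44 (.thr 22 23 (.thr 42 63 (.thr 2 62 (.thr 3 1 (.dbl 60 40 41))))) (.rp 40 (.thr 22 23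 (.thr 30 18 (.thr 42 63 (.thr 62 2 (.thr 14 46 (.thr 50 38 (.dbl 58 10 54))))))) .nd))))))) (.rp 15 (.str 20 (.nv (.thr 24 28 (.thr 40 60 (.thr 8 56 (.thr 12 4 (.dbl 48 32 36))))) (.nv (.thr 63 42 (.thr 22 23 (.thr 60 40 (.thr 61 62 (.dbl 41 1 3))))) (.rp 63 (.str 47 (.nv (.thr 22 23 (.thr 32 48 (.thr 42 37 (.thr 2 62 (.thr 3 1 (.dbl 60 40 41)))))) (.nv (.thr 24 28 (.thr 48 32 (.thr 60 40 (.thr 52 56 (.dbl 36 4 12))))) (.rp 60 (.thr 24 28 (.thr 25 27 (.thr 48 32 (.thr 12 36 (.thr 4 8 (.dbl 38 51 55)))))) (.rp 48 (.thr 22 23 (.thr 28 24 (.thr 60 40 (.thr 12 44 (.thr 8 4 (.thr 3 41 (.thr 2 1 (.thr 42 62 (.dbl 25 19 59))))))))) (.rp 40 (.thr 22 23 (.thr 18 30 (.thr 48 32 (.thr 3 33 (.thr 1 2 (.dbl 41 60 61)))))) (.rp 32 (.thr 22 23 (.thr 18 30 (.thr 60 40 (.thr 3 41 (.thr 48 33 (.thr 52 56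 (.thr 36 4 (.dbl 24 12 28)))))))) .nd))))))) (.rp 60 (.thr 24 28 (.thr 25 27 (.thr 48 32 (.thr 12 36 (.thr 4 8 (.dbl 38 51 55)))))) (.rp 40 (.thr 22 23 (.thr 18 30 (.thr 48 32 (.thr 3 33 (.thr 1 2 (.dbl 41 60 61)))))) .nd)))))) (.rp 10 (.thr 48 32 (.thr 37 15 (.thr 53 5 (.dbl 63 42 58)))) (.rp 5 (.str 4 (.nv (.thr 8 12 (.thr 42 63 (.thr 25 59 (.thr 24 27 (.thr 20 28 (.dbl 40 56 60)))))) (.nv (.thr 12 8 (.thr 38 55 (.thr 14 50 (.thr 48 32 (.dbl 15 13 37))))) (.rp 55 (.thr 12 8 (.thr 48 32 (.thr 15 37 (.thr 14 13 (.thr 24 36 (.thr 25 27 (.dbl 38 50 51))))))) (.rp 15 (.thr 12 8 (.thr 38 55 (.thr 25 51 (.thr 48 32 (.dbl 24 27 36))))) (.rp 12 (.thr 55 38 (.thr 48 32 (.thr 37 15 (.thr 63 42 (.thr 53 58 (.thr 52 54 (.thr 22 7 (.dbl 20 23 36)))))))) (.rp 8 (.thr 38 55 (.thr 48 32 (.thr 37 15 (.thr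 36 39 (.thr 20 52 (.dbl 24 12 28)))))) .nd))))))) .nd)))))))))))

theorem w222 : WinAt (69271552, 2147614784) :=
  chF (K := []) kn c222 69271552 2147614784 31
    [] (by decide +kernel) (by decide +kernel)

/-- A certificate. -/
noncomputable def c223 : Ct := (.str 0 (.nv (.thr 48 32 (.thr 15 37 (.thr 42 63 (.dbl 10 5 58)))) (.rp 63 (.thr 48 32 (.thr 15 37 (.thr 10 5 (.str 4 (.nv (.thr 42 58 (.thr 38 55 (.thr 50 14 (.thr 51 49 (.dbl 34 17 46))))) (.nv (.thr 8 12 (.thr 11 9 (.thr 3 7 (.thr 41 56 (.dbl 1 2 61))))) (.nv (.thr 12 8 (.thr 38 55 (.dbl 14 13 50))) (.rp 42 (.str 47 (.nv (.thr 38 55 (.thr 50 14 (.thr 51 49 (.thr 25 12 (.dbl 17 29 34))))) (.nv (.thr 8 12 (.thr 11 9 (.thr 3 7 (.thr 41 56 (.dbl 1 2 61))))) (.nv (.thr 12 8 (.thr 38 55 (.dbl 14 13 50))) (.rp 12 (.thr 38 55 (.thr 50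 14 (.thr 51 49 (.thr 27 39 (.thr 17 34 (.dbl 25 24 29)))))) .nd))))) (.rp 13 (.thr 12 8 (.thr 24 36 (.thr 25 27 (.dbl 38 51 55)))) .nd))))))))) (.rp 58 (.str 20 (.nv (.thr 22 23 (.thr 24 28 (.thr 48 32 (.thr 37 15 (.thr 52 7 (.dbl 36 4 12)))))) (.nv (.thr 22 23 (.thr 60 40 (.thr 3 41 (.thr 2 1 (.dbl 42 62 63))))) (.nv (.thr 24 28 (.thr 48 32 (.thr 12 36 (.thr 40 60 (.dbl 8 4 56))))) .nd)))) (.rp 48 (.str 12 (.nv (.thr 4 8 (.thr 38 55 (.thr 14 50 (.thr 15 13 (.thr 10 5 (.dbl 42 58 63)))))) (.nv (.thr 8 4 (.thr 42 63 (.thr 58 10 (.thr 59 25 (.thr 56 57 (.thr 40 24 (.dbl 41 11 43))))))) (.nv (.thr 4 8 (.thr 63 42 (.thr 29 46 (.thr 38 55 (.dbl 25 17 51))))) (.rp 63 (.thr 4 8 (.thr 38 55 (.thr 51 25 (.thr 34 17 (.thr 14 50 (.thr 15 13 (.thr 10 5 (.dbl 42 46 58)))))))) (.rp 42 (.thr 4 8 (.thr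 38 55 (.thr 14 50 (.thr 15 13 (.thr 5 10 (.thr 37 53 (.thr 39 36 (.dbl 51 25 27)))))))) (.rp 33 (.str 3 (.nv (.thr 1 2 (.thr 4 8 (.thr 38 55 (.thr 41 61 (.thr 35 44 (.dbl 51 19 25)))))) (.nv (.thr 1 2 (.thr 41 61 (.thr 22 60 (.thr 23 20 (.dbl 63 42 43))))) (.nv (.thr 4 8 (.thr 38 55 (.thr 63 42 (.thr 29 46 (.dbl 25 17 51))))) .nd)))) (.rp 8 (.thr 63 42 (.thr 29 46 (.thr 25 17 (.thr 24 27 (.thr 28 20 (.thr 60 44 (.thr 61 62 (.thr 41 1 (.dbl 22 3 19))))))))) (.rp 4 (.thr 63 42 (.thr 29 46 (.thr 25 17 (.thr 24 27 (.thr 28 20 (.thr 60 44 (.thr 61 62 (.thr 41 1 (.dbl 22 3 19))))))))) (.rp 3 (.str 33 (.nv (.thr 8 4 (.thr 42 63 (.thr 25 59 (.thr 24 27 (.thr 20 28 (.dbl 40 56 60)))))) (.nv (.thr 4 8 (.thr 38 55 (.thr 14 50 (.thr 15 13 (.thr 10 5 (.dbl 42 58 63)))))) (.nv (.thr 4 8 (.thr 38 55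 (.thr 51 25 (.thr 34 17 (.dbl 42 46 63))))) (.rp 63 (.thr 4 8 (.thr 38 55 (.thr 14 50 (.thr 15 13 (.thr 5 10 (.thr 51 25 (.thr 39 27 (.dbl 37 36 53)))))))) (.rp 55 (.thr 8 4 (.thr 42 63 (.thr 25 59 (.thr 51 38 (.dbl 17 29 34))))) (.rp 51 (.thr 8 4 (.thr 42 63 (.thr 58 10 (.thr 59 25 (.thr 56 57 (.thr 40 24 (.dbl 41 11 43))))))) (.rp 42 (.thr 4 8 (.thr 38 55 (.thr 14 50 (.thr 13 15 (.thr 25 51 (.thr 49 37 (.dbl 17 1 29))))))) (.rp 8 (.thr 63 42 (.thr 29 46 (.thr 25 17 (.thr 24 27 (.thr 20 28 (.thr 60 40 (.thr 61 62 (.thr 41 1 (.dbl 45 13 37))))))))) (.rp 4 (.thr 63 42 (.thr 29 46 (.thr 17 25 (.thr 1 49 (.thr 61 41 (.thr 13 45 (.thr 15 14 (.dbl 5 9 10)))))))) .nd)))))))))) .nd)))))))))) (.rp 42 (.str 20 (.nv (.thr 22 23 (.thr 24 28 (.thr 48 32 (.thr 37 15 (.thr 52 7 (.dbl 36 4 12)))))) (.nv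 (.thr 22 23 (.thr 60 40 (.thr 41 3 (.thr 56 11 (.dbl 48 32 52))))) (.nv (.thr 24 28 (.thr 48 32 (.thr 12 36 (.thr 40 60 (.dbl 8 4 56))))) (.rp 48 (.thr 24 28 (.thr 25 27 (.thr 29 17 (.thr 40 60 (.thr 56 8 (.thr 41 11 (.thr 61 1 (.thr 13 45 (.thr 49 37 (.dbl 57 9 53)))))))))) (.rp 32 (.thr 24 28 (.thr 25 27 (.thr 40 60 (.thr 8 56 (.thr 12 4 (.thr 51 38 (.dbl 17 29 34))))))) (.rp 12 (.thr 22 23 (.thr 48 32 (.thr 37 15 (.thr 52 7 (.dbl 60 40 56))))) .nd))))))) (.rp 37 (.str 20 (.nv (.thr 24 28 (.thr 40 60 (.thr 8 56 (.thr 12 4 (.dbl 48 32 36))))) (.nv (.thr 60 40 (.thr 63 42 (.thr 61 62 (.thr 41 1 (.dbl 22 3 23))))) (.rp 60 (.thr 24 28 (.thr 25 27 (.thr 29 17 (.thr 48 32 (.thr 12 36 (.dbl 63 42 46)))))) (.rp 40 (.thr 24 28 (.thr 25 27 (.thr 29 17 (.thr 63 42 (.thr 12 46 (.dbl 48 32 36))))))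 (.rp 32 (.thr 22 23 (.thr 60 40 (.thr 3 41 (.thr 2 1 (.dbl 42 62 63))))) .nd)))))) (.rp 32 (.str 20 (.nv (.thr 24 28 (.thr 25 27 (.thr 42 63 (.thr 8 59 (.dbl 40 56 60))))) (.nv (.thr 24 28 (.thr 40 60 (.thr 8 56 (.thr 42 63 (.dbl 25 27 59))))) (.nv (.thr 22 23 (.thr 60 40 (.thr 3 41 (.thr 2 1 (.dbl 42 62 63))))) (.rp 63 (.thr 24 28 (.thr 25 27 (.thr 40 60 (.thr 8 56 (.thr 12 4 (.thr 51 38 (.dbl 17 29 34))))))) (.rp 60 (.thr 24 28 (.thr 25 27 (.thr 29 17 (.thr 63 42 (.thr 12 46 (.thr 4 8 (.dbl 36 48 52))))))) (.rp 42 (.thr 24 28 (.thr 25 27 (.thr 40 60 (.thr 8 56 (.thr 12 4 (.thr 51 38 (.dbl 17 29 34))))))) (.rp 40 (.thr 24 28 (.thr 25 27 (.thr 29 17 (.thr 63 42 (.thr 12 46 (.thr 4 8 (.dbl 36 48 52))))))) (.rp 27 (.thr 24 28 (.thr 40 60 (.thr 56 8 (.thr 41 11 (.dbl 42 43 63))))) .nd)))))))))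 (.rp 15 (.str 20 (.nv (.thr 24 28 (.thr 40 60 (.thr 8 56 (.thr 12 4 (.dbl 48 32 36))))) (.nv (.thr 24 28 (.thr 25 27 (.thr 29 17 (.thr 48 32 (.thr 63 42 (.dbl 12 36 46)))))) (.nv (.thr 63 42 (.thr 60 40 (.thr 61 62 (.thr 41 1 (.dbl 22 3 23))))) (.rp 63 (.str 47 (.nv (.thr 22 23 (.thr 32 48 (.thr 37 42 (.thr 52 7 (.thr 4 36 (.thr 53 5 (.dbl 55 38 54))))))) (.nv (.thr 22 23 (.thr 32 48 (.thr 42 37 (.thr 2 62 (.thr 3 1 (.dbl 60 40 41)))))) (.nv (.thr 24 28 (.thr 48 32 (.thr 60 40 (.thr 52 56 (.dbl 36 4 12))))) (.rp 48 (.thr 22 23 (.thr 28 24 (.thr 60 40 (.thr 12 44 (.thr 8 4 (.thr 3 41 (.thr 2 1 (.thr 42 62 (.dbl 25 19 59))))))))) (.rp 32 (.thr 24 28 (.thr 25 27 (.thr 40 60 (.thr 8 56 (.thr 12 4 (.thr 51 38 (.dbl 17 29 34))))))) .nd)))))) .nd))))) (.rp 10 (.thr 48 32 (.thr 37 15 (.thr 53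 5 (.dbl 63 42 58)))) (.rp 5 (.str 4 (.nv (.thr 12 8 (.thr 38 55 (.thr 14 50 (.thr 15 13 (.dbl 48 32 37))))) (.nv (.thr 12 8 (.thr 38 55 (.thr 25 51 (.thr 63 42 (.dbl 29 17 46))))) (.rp 55 (.thr 12 8 (.thr 48 32 (.thr 24 36 (.thr 25 27 (.thr 17 29 (.dbl 51 34 38)))))) (.rp 38 (.thr 12 8 (.thr 48 32 (.thr 24 36 (.thr 25 27 (.thr 29 17 (.dbl 63 42 46)))))) (.rp 12 (.thr 38 55 (.thr 50 14 (.thr 48 32 (.thr 51 49 (.thr 34 17 (.dbl 42 46 63)))))) (.rp 8 (.thr 38 55 (.thr 50 14 (.thr 48 32 (.thr 51 49 (.thr 25 12 (.dbl 17 29 34)))))) .nd))))))) .nd)))))))))))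

theorem w223 : WinAt (69271552, 2147745856) :=
  chF (K := []) kn c223 69271552 2147745856 31
    [] (by decide +kernel) (by decide +kernel)

/-- A certificate. -/
noncomputable def c224 : Ct := (.str 0 (.nv (.thr 31 16 (.thr 63 42 (.thr 15 47 (.thr 37 48 (.dbl 5 10 53))))) (.nv (.thr 16 31 (.thr 48 32 (.thr 15 37 (.thr 42 63 (.dbl 10 5 58))))) (.rp 63 (.str 17 (.nv (.thr 16 31 (.thr 48 32 (.thr 51 34 (.thr 50 49 (.thr 38 14 (.thr 4 55 (.dbl 12 8 25))))))) (.nv (.thr 16 31 (.thr 25 29 (.thr 48 32 (.thr 51 34 (.thr 12 38 (.dbl 24 27 36)))))) (.nv (.thr 25 29 (.thr 27 24 (.thr 51 34 (.thr 15 39 (.thr 5 10 (.dbl 37 48 53)))))) (.rp 51 (.thr 29 25 (.thr 31 16 (.thr 30 28 (.thr 22 18 (.thr 20 23 (.thr 60 40 (.thr 15 45 (.thr 5 10 (.dbl 37 48 53))))))))) (.rp 48 (.thr 25 29 (.thr 27 24 (.thr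 51 34 (.thr 15 39 (.thr 12 38 (.thr 8 4 (.thr 42 59 (.dbl 10 5 58)))))))) (.rp 34 (.thr 25 29 (.thr 16 31 (.thr 27 24 (.thr 48 32 (.thr 15 37 (.thr 51 39 (.thr 50 49 (.dbl 38 12 14)))))))) (.rp 27 (.thr 29 25 (.thr 31 16 (.thr 30 28 (.thr 22 18 (.thr 20 23 (.thr 60 40 (.thr 15 45 (.thr 5 10 (.dbl 37 48 53))))))))) (.rp 25 (.thr 16 31 (.thr 48 32 (.thr 51 34 (.thr 50 49 (.thr 38 14 (.thr 4 55 (.thr 12 8 (.thr 36 24 (.dbl 37 15 39))))))))) (.rp 15 (.thr 25 29 (.thr 24 27 (.thr 51 34 (.thr 12 38 (.thr 48 36 (.dbl 16 31 32)))))) (.rp 12 (.thr 16 31 (.thr 48 32 (.thr 15 37 (.thr 51 34 (.thr 27 39 (.dbl 25 24 29)))))) .nd))))))))))) (.rp 48 (.str 20 (.nv (.thr 22 23 (.thr 30 18 (.thr 42 63 (.thr 58 10 (.thr 62 2 (.thr 14 46 (.dbl 50 38 54))))))) (.nv (.thr 22 23 (.thr 30 18 (.thr 60 40 (.thr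 15 45 (.thr 10 5 (.dbl 42 58 63)))))) (.nv (.thr 60 40 (.thr 63 42 (.thr 61 62 (.thr 41 1 (.dbl 22 3 23))))) (.rp 63 (.thr 22 23 (.thr 30 18 (.thr 60 40 (.thr 15 45 (.thr 5 10 (.thr 3 41 (.thr 7 11 (.dbl 37 52 53)))))))) (.rp 42 (.thr 22 23 (.thr 31 16 (.thr 60 40 (.thr 41 3 (.thr 61 1 (.thr 63 62 (.thr 15 47 (.dbl 30 18 45)))))))) (.rp 23 (.thr 31 16 (.thr 60 40 (.thr 63 42 (.thr 61 62 (.thr 15 47 (.thr 30 45 (.thr 41 1 (.dbl 22 3 18)))))))) (.rp 22 (.thr 16 31 (.thr 40 60 (.thr 42 63 (.thr 41 43 (.thr 56 11 (.dbl 24 8 28)))))) (.rp 3 (.thr 22 23 (.thr 31 16 (.thr 60 40 (.thr 63 42 (.thr 15 47 (.dbl 30 18 45)))))) .nd))))))))) (.rp 42 (.str 17 (.nv (.thr 16 31 (.thr 48 32 (.thr 51 34 (.thr 50 49 (.thr 38 14 (.thr 4 55 (.dbl 12 8 25))))))) (.nv (.thr 25 29 (.thr 51 34 (.thr 38 12 (.thr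 50 14 (.thr 48 49 (.dbl 16 31 32)))))) (.nv (.thr 25 29 (.thr 27 24 (.thr 51 34 (.thr 15 39 (.thr 5 10 (.dbl 37 48 53)))))) (.nv (.thr 16 31 (.thr 25 29 (.thr 48 32 (.thr 37 15 (.thr 49 13 (.thr 53 5 (.thr 61 57 (.dbl 1 33 41)))))))) (.nv (.thr 25 29 (.thr 16 31 (.thr 27 24 (.thr 51 34 (.thr 15 39 (.dbl 48 32 37)))))) (.rp 48 (.thr 25 29 (.thr 31 16 (.thr 27 24 (.thr 51 34 (.thr 15 39 (.thr 63 47 (.thr 55 59 (.dbl 38 4 12)))))))) (.rp 25 (.thr 16 31 (.thr 48 32 (.thr 37 15 (.thr 53 5 (.thr 51 34 (.thr 49 50 (.thr 61 57 (.dbl 1 33 41)))))))) .nd)))))))) (.rp 37 (.str 20 (.nv (.thr 60 40 (.thr 63 42 (.thr 61 62 (.thr 41 1 (.dbl 22 3 23))))) (.nv (.thr 16 31 (.thr 24 28 (.thr 40 60 (.thr 8 56 (.thr 12 4 (.dbl 48 32 36)))))) (.nv (.thr 22 23 (.thr 42 63 (.thr 2 62 (.thr 60 40 (.dbl 3 1 41)))))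 (.rp 60 (.thr 22 23 (.thr 30 18 (.thr 42 63 (.thr 62 2 (.thr 14 46 (.thr 50 38 (.dbl 58 10 54))))))) (.rp 40 (.thr 22 23 (.thr 18 30 (.thr 42 63 (.thr 2 62 (.thr 3 1 (.thr 48 33 (.dbl 16 31 32))))))) (.rp 23 (.thr 60 40 (.thr 63 42 (.thr 61 62 (.thr 41 1 (.thr 56 11 (.thr 48 52 (.dbl 16 31 32))))))) (.rp 22 (.thr 16 31 (.thr 48 32 (.thr 60 40 (.thr 52 56 (.thr 36 4 (.dbl 24 12 28)))))) .nd)))))))) (.rp 31 (.str 27 (.nv (.thr 25 24 (.thr 17 29 (.thr 51 34 (.thr 15 39 (.thr 5 10 (.dbl 37 48 53)))))) (.nv (.thr 25 24 (.thr 42 63 (.thr 58 10 (.thr 59 8 (.thr 11 43 (.dbl 56 41 57)))))) (.nv (.thr 25 24 (.thr 17 29 (.thr 51 34 (.thr 63 42 (.thr 55 59 (.dbl 38 4 12)))))) (.rp 25 (.thr 42 63 (.thr 10 58 (.thr 15 5 (.thr 48 37 (.thr 51 39 (.thr 34 17 (.thr 38 46 (.dbl 50 14 49)))))))) (.rp 24 (.thr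 42 63 (.thr 10 58 (.thr 15 5 (.thr 48 37 (.thr 51 39 (.thr 50 49 (.thr 38 14 (.dbl 34 17 46)))))))) .nd)))))) (.rp 16 (.str 17 (.nv (.thr 25 29 (.thr 27 24 (.thr 42 63 (.thr 58 10 (.thr 59 8 (.thr 11 43 (.dbl 56 41 57))))))) (.nv (.thr 25 29 (.thr 27 24 (.thr 51 34 (.thr 15 39 (.thr 5 10 (.dbl 37 48 53)))))) (.nv (.thr 25 29 (.thr 42 63 (.thr 8 59 (.thr 51 34 (.dbl 12 4 38))))) (.rp 29 (.thr 51 34 (.thr 63 42 (.thr 55 59 (.thr 38 4 (.thr 50 14 (.thr 48 49 (.thr 53 58 (.dbl 37 5 15)))))))) (.rp 25 (.thr 34 51 (.thr 42 63 (.thr 58 10 (.thr 38 46 (.thr 50 14 (.thr 2 18 (.dbl 62 22 54))))))) .nd)))))) (.rp 15 (.str 20 (.nv (.thr 16 31 (.thr 48 32 (.thr 60 40 (.thr 52 56 (.thr 36 4 (.dbl 24 12 28)))))) (.nv (.thr 60 40 (.thr 63 42 (.thr 61 62 (.thr 41 1 (.dbl 22 3 23))))) (.rp 63 (.thr 22 23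 (.thr 18 30 (.thr 60 40 (.thr 3 41 (.thr 48 33 (.dbl 16 31 32)))))) (.rp 60 (.thr 22 23 (.thr 30 18 (.thr 42 63 (.thr 62 2 (.thr 14 46 (.thr 50 38 (.dbl 58 10 54))))))) (.rp 40 (.thr 22 23 (.thr 18 30 (.thr 42 63 (.thr 2 62 (.thr 3 1 (.thr 48 33 (.dbl 16 31 32))))))) (.rp 23 (.thr 60 40 (.thr 63 42 (.thr 61 62 (.thr 41 1 (.thr 56 11 (.thr 48 52 (.dbl 16 31 32))))))) .nd))))))) (.rp 10 (.thr 16 31 (.thr 48 32 (.thr 37 15 (.thr 53 5 (.dbl 63 42 58))))) (.rp 5 (.str 4 (.nv (.thr 16 31 (.thr 12 8 (.thr 48 32 (.thr 38 55 (.thr 14 50 (.dbl 15 13 37)))))) (.nv (.thr 12 8 (.thr 38 55 (.thr 42 63 (.thr 34 46 (.dbl 51 17 25))))) (.rp 55 (.thr 16 31 (.thr 12 8 (.thr 48 32 (.thr 24 36 (.thr 63 42 (.thr 29 46 (.dbl 25 17 27))))))) (.rp 38 (.thr 8 12 (.thr 42 63 (.thr 25 59 (.thr 24 27 (.thr 56 40 (.thr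 11 41 (.dbl 10 9 58))))))) (.rp 12 (.thr 16 31 (.thr 38 55 (.thr 50 14 (.thr 48 32 (.thr 51 49 (.thr 34 17 (.dbl 42 46 63))))))) (.rp 8 (.thr 16 31 (.thr 38 55 (.thr 50 14 (.thr 48 32 (.thr 51 49 (.thr 25 12 (.dbl 17 29 34))))))) .nd))))))) .nd))))))))))))

theorem w224 : WinAt (69206016, 524352) :=
  chF (K := []) kn c224 69206016 524352 19
    [] (by decide +kernel) (by decide +kernel)

/-- A certificate. -/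
noncomputable def c225 : Ct := (.str 0 (.nv (.thr 48 32 (.thr 15 37 (.thr 42 63 (.dbl 10 5 58)))) (.rp 63 (.thr 48 32 (.thr 15 37 (.thr 10 5 (.str 4 (.nv (.thr 42 58 (.thr 38 55 (.thr 50 14 (.thr 51 49 (.dbl 34 17 46))))) (.nv (.thr 8 12 (.thr 11 9 (.thr 3 7 (.thr 1 2 (.dbl 41 56 61))))) (.nv (.thr 12 8 (.thr 38 55 (.dbl 14 13 50))) (.rp 42 (.str 47 (.nv (.thr 38 55 (.thr 50 14 (.thr 51 49 (.thr 25 12 (.dbl 17 29 34))))) (.nv (.thr 8 12 (.thr 11 9 (.thr 3 7 (.thr 1 2 (.dbl 41 56 61))))) (.nv (.thr 38 55 (.thr 14 50 (.dbl 12 8 13))) (.rp 12 (.thr 38 55 (.thr 50 14 (.thr 51 49 (.thr 27 39 (.thr 17 34 (.dbl 25 24 29)))))) .nd))))) (.rp 13 (.thr 12 8 (.thr 24 36 (.thr 25 27 (.dbl 38 51 55)))) .nd))))))))) (.rp 58 (.str 22 (.nv (.thr 18 30 (.thr 17 19 (.thr 34 51 (.thr 2 50 (.dbl 42 62 63)))))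 (.nv (.thr 30 18 (.thr 48 32 (.thr 15 37 (.thr 60 45 (.thr 41 3 (.dbl 56 11 52)))))) (.nv (.thr 18 30 (.thr 42 63 (.thr 48 32 (.thr 3 33 (.dbl 2 1 62))))) (.rp 48 (.thr 18 30 (.thr 17 19 (.thr 51 34 (.thr 63 42 (.thr 55 59 (.thr 38 4 (.dbl 25 12 29))))))) (.rp 42 (.thr 18 30 (.thr 48 32 (.thr 3 33 (.thr 1 2 (.dbl 41 60 61))))) (.rp 30 (.thr 48 32 (.thr 15 37 (.thr 42 63 (.thr 2 62 (.thr 3 1 (.thr 11 7 (.dbl 41 56 60))))))) (.rp 18 (.thr 48 32 (.thr 15 37 (.thr 42 63 (.thr 2 62 (.thr 3 1 (.thr 11 7 (.dbl 41 56 60))))))) (.rp 3 (.thr 18 30 (.thr 17 19 (.thr 42 63 (.thr 2 62 (.dbl 34 50 51))))) .nd))))))))) (.rp 48 (.str 17 (.nv (.thr 18 19 (.thr 34 51 (.thr 42 63 (.thr 50 2 (.dbl 38 14 46))))) (.nv (.thr 18 19 (.thr 22 30 (.thr 42 63 (.thr 2 62 (.dbl 34 50 51))))) (.nv (.thr 25 29 (.thr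 51 34 (.thr 63 42 (.thr 55 59 (.dbl 38 4 12))))) (.rp 63 (.thr 25 29 (.thr 27 24 (.thr 51 34 (.thr 15 39 (.thr 12 38 (.thr 8 4 (.thr 42 59 (.dbl 10 5 58)))))))) (.rp 51 (.thr 25 29 (.thr 27 24 (.thr 42 63 (.thr 59 8 (.thr 11 43 (.thr 56 41 (.dbl 58 10 57))))))) (.rp 46 (.thr 25 29 (.thr 51 34 (.thr 12 38 (.thr 42 63 (.dbl 8 4 59))))) (.rp 42 (.thr 25 29 (.thr 27 24 (.thr 51 34 (.thr 15 39 (.thr 5 10 (.thr 37 53 (.thr 13 49 (.dbl 12 14 38)))))))) (.rp 34 (.thr 25 29 (.thr 24 27 (.thr 42 63 (.thr 8 59 (.thr 56 40 (.thr 11 41 (.dbl 10 9 58))))))) .nd))))))))) (.rp 42 (.str 17 (.nv (.thr 18 19 (.thr 25 29 (.thr 48 32 (.thr 37 15 (.thr 49 13 (.dbl 33 1 3)))))) (.nv (.thr 25 29 (.thr 27 24 (.thr 51 34 (.thr 15 39 (.dbl 48 32 37))))) (.nv (.thr 18 19 (.thr 34 51 (.thr 2 50 (.thr 3 1 (.dbl 48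 32 33))))) (.rp 48 (.thr 25 29 (.thr 27 24 (.thr 51 34 (.thr 15 39 (.thr 5 10 (.thr 37 53 (.thr 13 49 (.dbl 12 14 38)))))))) (.rp 32 (.thr 25 29 (.thr 27 24 (.thr 51 34 (.thr 15 39 (.thr 5 10 (.dbl 37 48 53)))))) (.rp 27 (.thr 25 29 (.thr 48 32 (.thr 37 15 (.thr 49 13 (.dbl 51 34 50))))) .nd))))))) (.rp 37 (.str 22 (.nv (.thr 18 30 (.thr 17 19 (.thr 42 63 (.thr 2 62 (.dbl 34 50 51))))) (.nv (.thr 18 30 (.thr 17 19 (.thr 34 51 (.thr 2 50 (.thr 3 1 (.dbl 48 32 33)))))) (.nv (.thr 18 30 (.thr 17 19 (.thr 34 51 (.thr 2 50 (.dbl 42 62 63))))) (.nv (.thr 42 63 (.thr 2 62 (.thr 3 1 (.thr 48 32 (.dbl 18 30 33))))) (.rp 30 (.thr 48 32 (.thr 42 63 (.thr 2 62 (.thr 3 1 (.thr 18 33 (.thr 17 19 (.dbl 34 50 51))))))) (.rp 18 (.thr 48 32 (.thr 42 63 (.thr 2 62 (.thr 3 1 (.thr 60 41 (.thr 56 52 (.thr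 58 10 (.thr 57 59 (.thr 51 54 (.thr 50 49 (.thr 38 14 (.dbl 34 17 46)))))))))))) (.rp 2 (.thr 18 30 (.thr 17 19 (.thr 48 32 (.thr 33 3 (.thr 49 1 (.dbl 51 34 50)))))) .nd)))))))) (.rp 32 (.str 22 (.nv (.thr 18 30 (.thr 17 19 (.thr 51 34 (.thr 63 42 (.thr 55 59 (.thr 38 4 (.dbl 25 12 29))))))) (.nv (.thr 18 30 (.thr 17 19 (.thr 34 51 (.thr 2 50 (.dbl 42 62 63))))) (.nv (.thr 30 18 (.thr 42 63 (.thr 58 10 (.thr 62 2 (.thr 14 46 (.dbl 50 38 54)))))) (.rp 63 (.thr 18 30 (.thr 17 19 (.thr 34 51 (.thr 2 50 (.thr 3 1 (.thr 48 33 (.thr 15 37 (.thr 11 7 (.dbl 41 56 60))))))))) (.rp 42 (.thr 18 30 (.thr 17 19 (.thr 34 51 (.thr 2 50 (.thr 3 1 (.thr 48 33 (.thr 37 15 (.thr 52 7 (.dbl 60 41 56))))))))) (.rp 34 (.thr 18 30 (.thr 42 63 (.thr 2 62 (.thr 3 1 (.thr 10 58 (.thr 15 5 (.dbl 48 33 37)))))))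 (.rp 30 (.thr 42 63 (.thr 2 62 (.thr 3 1 (.thr 10 58 (.thr 15 5 (.thr 7 11 (.dbl 37 48 52))))))) (.rp 29 (.thr 30 18 (.thr 42 63 (.thr 2 62 (.thr 3 1 (.thr 60 41 (.thr 15 45 (.dbl 10 5 58))))))) (.rp 18 (.thr 42 63 (.thr 2 62 (.thr 3 1 (.thr 10 58 (.thr 15 5 (.thr 7 11 (.dbl 37 48 52))))))) .nd)))))))))) (.rp 15 (.str 17 (.nv (.thr 18 19 (.thr 34 51 (.thr 2 50 (.thr 3 1 (.dbl 48 32 33))))) (.nv (.thr 63 42 (.thr 25 29 (.thr 51 34 (.thr 55 59 (.dbl 38 4 12))))) (.rp 63 (.str 47 (.nv (.thr 25 29 (.thr 24 27 (.thr 48 32 (.thr 12 36 (.thr 4 8 (.dbl 38 51 55)))))) (.nv (.thr 48 32 (.thr 51 34 (.thr 49 50 (.thr 33 1 (.dbl 18 3 19))))) (.rp 51 (.thr 18 19 (.thr 22 30 (.thr 48 32 (.thr 3 33 (.thr 1 2 (.dbl 41 60 61)))))) (.rp 48 (.thr 25 29 (.thr 24 27 (.thr 51 34 (.thr 12 38 (.thr 8 4 (.thr 42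 59 (.thr 56 40 (.thr 11 41 (.dbl 10 9 58))))))))) (.rp 32 (.thr 25 29 (.thr 24 27 (.thr 51 34 (.thr 12 38 (.thr 48 36 (.thr 49 50 (.thr 33 1 (.dbl 18 3 19)))))))) (.rp 19 (.thr 25 29 (.thr 51 34 (.thr 12 38 (.thr 48 32 (.dbl 24 27 36))))) .nd))))))) (.rp 51 (.thr 18 19 (.thr 22 30 (.thr 48 32 (.thr 3 33 (.thr 1 2 (.dbl 41 60 61)))))) (.rp 34 (.thr 25 29 (.thr 24 27 (.thr 48 32 (.thr 12 36 (.thr 4 8 (.dbl 38 51 55)))))) .nd)))))) (.rp 10 (.thr 48 32 (.thr 37 15 (.thr 53 5 (.dbl 63 42 58)))) (.rp 5 (.str 4 (.nv (.thr 12 8 (.thr 38 55 (.thr 25 51 (.thr 29 17 (.dbl 63 42 46))))) (.nv (.thr 12 8 (.thr 38 55 (.thr 14 50 (.thr 48 32 (.dbl 15 13 37))))) (.rp 55 (.thr 12 8 (.thr 48 32 (.thr 24 36 (.thr 25 27 (.thr 17 29 (.dbl 51 34 38)))))) (.rp 38 (.thr 12 8 (.thr 48 32 (.thr 24 36 (.thr 25 27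 (.thr 29 17 (.dbl 63 42 46)))))) (.rp 12 (.thr 38 55 (.thr 50 14 (.thr 48 32 (.thr 51 49 (.thr 34 17 (.dbl 42 46 63)))))) (.rp 8 (.thr 38 55 (.thr 50 14 (.thr 48 32 (.thr 51 49 (.thr 25 12 (.dbl 17 29 34)))))) .nd))))))) .nd)))))))))))

theorem w225 : WinAt (69271552, 2148532288) :=
  chF (K := []) kn c225 69271552 2148532288 31
    [] (by decide +kernel) (by decide +kernel)

/-- A certificate. -/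
noncomputable def c226 : Ct := (.str 0 (.nv (.thr 48 32 (.thr 37 15 (.thr 63 42 (.dbl 53 5 58)))) (.nv (.thr 48 32 (.thr 42 63 (.thr 10 58 (.dbl 15 5 37)))) (.rp 63 (.str 38 (.nv (.thr 4 55 (.thr 12 8 (.thr 48 32 (.thr 24 36 (.dbl 25 27 51))))) (.nv (.thr 48 32 (.thr 50 14 (.thr 51 49 (.thr 17 34 (.dbl 25 12 29))))) (.nv (.thr 4 55 (.thr 12 8 (.thr 14 50 (.thr 15 13 (.dbl 48 32 37))))) (.rp 51 (.thr 48 32 (.thr 15 37 (.thr 14 50 (.thr 12 13 (.dbl 4 8 55))))) (.rp 48 (.thr 4 55 (.thr 14 50 (.thr 12 8 (.thr 51 25 (.thr 34 17 (.thr 15 13 (.thr 10 5 (.dbl 42 46 58)))))))) (.rp 47 (.str 15 (.nv (.thr 4 55 (.thr 12 8 (.dbl 14 13 50))) (.nv (.dbl 48 32 37) .nd))) (.rp 32 (.thr 4 55 (.thr 14 50 (.thr 12 8 (.thr 15 13 (.thr 5 10 (.dbl 37 48 53)))))) (.rp 15 (.str 47 (.nv (.thr 32 48 (.thr 42 37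 (.thr 46 34 (.thr 44 45 (.thr 41 35 (.dbl 40 36 43)))))) (.nv (.thr 4 55 (.thr 12 8 (.thr 50 14 (.thr 48 32 (.dbl 51 25 49))))) (.rp 48 (.thr 4 55 (.thr 12 8 (.thr 51 25 (.thr 34 17 (.thr 42 46 (.thr 32 37 (.thr 35 33 (.thr 43 39 (.dbl 41 40 44))))))))) (.rp 32 (.thr 4 55 (.thr 12 8 (.thr 51 25 (.thr 17 34 (.thr 19 18 (.thr 35 3 (.thr 41 44 (.thr 50 14 (.thr 1 61 (.dbl 49 33 48)))))))))) .nd))))) (.rp 12 (.thr 48 32 (.thr 15 37 (.thr 10 5 (.thr 42 58 (.thr 50 14 (.thr 51 49 (.dbl 34 17 46))))))) .nd)))))))))) (.rp 58 (.str 38 (.nv (.thr 42 63 (.thr 48 32 (.thr 50 14 (.thr 51 49 (.dbl 34 17 46))))) (.nv (.thr 4 55 (.thr 12 8 (.thr 14 50 (.thr 15 13 (.dbl 48 32 37))))) (.nv (.thr 4 55 (.thr 12 8 (.thr 25 51 (.thr 29 17 (.dbl 63 42 46))))) .nd)))) (.rp 54 (.str 38 (.nv (.thr 48 32 (.thr 50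 14 (.thr 51 49 (.thr 12 25 (.dbl 4 8 55))))) (.nv (.thr 4 55 (.thr 12 8 (.thr 25 51 (.thr 29 17 (.dbl 63 42 46))))) (.nv (.thr 48 32 (.thr 15 37 (.thr 42 63 (.dbl 10 5 58)))) .nd)))) (.rp 48 (.str 38 (.nv (.thr 50 14 (.thr 42 63 (.thr 34 46 (.thr 17 51 (.dbl 18 2 19))))) (.nv (.thr 4 55 (.thr 12 8 (.thr 14 50 (.thr 15 13 (.thr 10 5 (.dbl 42 58 63)))))) (.nv (.thr 4 55 (.thr 12 8 (.thr 51 25 (.thr 34 17 (.dbl 42 46 63))))) (.rp 63 (.thr 4 55 (.thr 14 50 (.thr 12 8 (.thr 51 25 (.thr 34 17 (.thr 15 13 (.thr 10 5 (.dbl 42 46 58)))))))) (.rp 55 (.thr 14 50 (.thr 42 63 (.thr 34 46 (.thr 51 17 (.thr 12 25 (.thr 15 13 (.dbl 10 5 58))))))) (.rp 51 (.thr 4 55 (.thr 8 12 (.thr 42 63 (.thr 59 25 (.thr 58 10 (.thr 56 57 (.thr 41 11 (.dbl 40 24 43)))))))) (.rp 42 (.thr 4 55 (.thr 14 50 (.thr 12 8 (.thr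 15 13 (.thr 5 10 (.thr 37 53 (.thr 39 36 (.dbl 51 25 27)))))))) (.rp 12 (.thr 55 4 (.thr 50 14 (.thr 63 42 (.thr 51 59 (.thr 34 17 (.thr 2 18 (.thr 3 1 (.thr 35 19 (.thr 41 44 (.thr 11 56 (.thr 23 43 (.dbl 7 15 39)))))))))))) .nd))))))))) (.rp 42 (.str 38 (.nv (.thr 4 55 (.thr 12 8 (.thr 25 51 (.thr 24 27 (.thr 20 28 (.dbl 36 48 52)))))) (.nv (.thr 48 32 (.thr 50 14 (.thr 51 49 (.thr 17 34 (.dbl 25 12 29))))) (.nv (.thr 4 55 (.thr 12 8 (.thr 14 50 (.thr 15 13 (.dbl 48 32 37))))) (.rp 62 (.str 2 (.nv (.thr 4 55 (.thr 12 8 (.thr 50 14 (.thr 34 18 (.dbl 51 17 25))))) (.nv (.thr 4 55 (.thr 12 8 (.thr 25 51 (.thr 24 27 (.dbl 48 32 36))))) (.nv (.thr 3 1 (.thr 50 14 (.thr 18 34 (.dbl 48 32 33)))) .nd)))) (.rp 48 (.thr 4 55 (.thr 14 50 (.thr 12 8 (.thr 15 13 (.thr 5 10 (.thr 37 53 (.thr 39 36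 (.dbl 51 25 27)))))))) (.rp 25 (.thr 48 32 (.thr 4 55 (.thr 37 15 (.thr 36 39 (.dbl 12 8 24))))) (.rp 12 (.thr 48 32 (.thr 55 4 (.thr 50 14 (.thr 51 49 (.thr 63 59 (.thr 53 58 (.dbl 37 5 15))))))) (.rp 2 (.str 62 (.nv (.thr 4 55 (.thr 12 8 (.thr 14 50 (.thr 46 30 (.thr 29 63 (.dbl 25 17 51)))))) (.nv (.thr 4 55 (.thr 48 32 (.thr 37 15 (.thr 36 39 (.thr 20 52 (.dbl 24 12 28)))))) (.nv (.thr 14 50 (.thr 4 55 (.thr 12 8 (.thr 15 13 (.dbl 48 32 37))))) (.rp 55 (.thr 48 32 (.thr 37 15 (.thr 36 39 (.thr 12 24 (.thr 51 25 (.dbl 50 14 49)))))) (.rp 15 (.thr 48 32 (.thr 4 55 (.thr 12 8 (.thr 24 36 (.dbl 25 27 51))))) (.rp 14 (.str 10 (.nv (.thr 48 32 (.dbl 15 5 37)) (.rp 48 (.thr 4 55 (.thr 12 8 (.thr 25 51 (.thr 29 17 (.thr 63 46 (.thr 60 61 (.thr 28 44 (.dbl 20 24 40)))))))) (.rp 47 (.thr 15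 5 (.dbl 48 32 37)) (.rp 37 (.thr 4 55 (.thr 12 8 (.thr 25 51 (.thr 24 27 (.dbl 48 32 36))))) (.rp 32 (.thr 15 5 (.thr 37 48 (.thr 4 55 (.thr 12 8 (.thr 39 36 (.dbl 51 25 27)))))) (.rp 15 (.thr 48 32 (.thr 4 55 (.thr 12 8 (.thr 24 36 (.dbl 25 27 51))))) (.rp 5 (.thr 48 32 (.thr 37 15 (.thr 4 55 (.thr 12 8 (.dbl 36 24 39))))) .nd)))))))) (.rp 12 (.thr 48 32 (.thr 37 15 (.thr 53 5 (.thr 63 58 (.thr 60 61 (.thr 52 56 (.dbl 55 4 54))))))) (.rp 4 (.thr 48 32 (.thr 37 15 (.thr 36 39 (.thr 12 24 (.thr 51 25 (.dbl 50 14 49)))))) .nd))))))))) .nd))))))))) (.rp 38 (.str 54 (.nv (.thr 48 32 (.thr 37 15 (.thr 63 42 (.dbl 53 5 58)))) (.nv (.thr 48 32 (.thr 42 63 (.thr 10 58 (.dbl 15 5 37)))) (.rp 63 (.str 20 (.nv (.thr 48 32 (.thr 60 40 (.thr 52 56 (.thr 36 4 (.dbl 24 12 28))))) (.nv (.thr 24 28 (.thr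 25 27 (.thr 60 40 (.thr 51 57 (.dbl 17 29 34))))) (.rp 60 (.thr 24 28 (.thr 25 27 (.thr 48 32 (.thr 12 36 (.thr 8 4 (.thr 42 59 (.thr 10 58 (.dbl 15 5 37)))))))) (.rp 47 (.str 15 (.nv (.dbl 48 32 37) (.rp 48 (.thr 24 28 (.thr 60 40 (.thr 51 57 (.dbl 27 25 39)))) (.rp 37 (.thr 24 28 (.thr 60 40 (.thr 51 57 (.dbl 27 25 39)))) (.rp 32 (.thr 5 10 (.dbl 37 48 53)) .nd))))) (.rp 40 (.thr 24 28 (.thr 48 32 (.thr 36 12 (.thr 52 4 (.thr 53 55 (.dbl 37 5 15)))))) (.rp 28 (.thr 48 32 (.thr 60 40 (.thr 52 56 (.thr 53 55 (.dbl 37 5 15))))) (.rp 24 (.thr 48 32 (.thr 15 37 (.thr 10 5 (.thr 60 40 (.thr 51 57 (.thr 50 49 (.dbl 58 42 62))))))) (.rp 15 (.str 47 (.nv (.thr 32 48 (.thr 37 42 (.thr 40 60 (.thr 53 5 (.thr 52 55 (.dbl 36 4 44)))))) (.nv (.thr 48 32 (.thr 60 40 (.thr 52 56 (.thr 36 4 (.dbl 24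 12 28))))) (.nv (.thr 24 28 (.thr 60 40 (.thr 51 57 (.thr 25 27 (.dbl 17 29 34))))) (.rp 60 (.thr 24 28 (.thr 48 32 (.thr 12 36 (.thr 8 4 (.thr 25 27 (.thr 42 59 (.thr 10 58 (.thr 11 9 (.dbl 56 40 41))))))))) (.rp 40 (.thr 24 28 (.thr 48 32 (.thr 36 12 (.thr 52 4 (.thr 60 56 (.thr 25 27 (.thr 51 57 (.dbl 17 29 34)))))))) .nd)))))) .nd))))))))) (.rp 58 (.thr 48 32 (.thr 37 15 (.thr 53 5 (.thr 55 52 (.thr 63 42 (.thr 51 59 (.thr 49 50 (.dbl 57 60 61)))))))) (.rp 48 (.str 25 (.nv (.thr 17 29 (.thr 34 51 (.thr 42 63 (.thr 58 10 (.thr 50 62 (.dbl 18 2 19)))))) (.nv (.thr 27 24 (.thr 42 63 (.thr 58 10 (.thr 59 8 (.thr 56 57 (.dbl 11 41 43)))))) (.nv (.thr 17 29 (.thr 51 34 (.thr 60 57 (.thr 20 40 (.dbl 24 27 28))))) (.rp 42 (.thr 24 27 (.thr 20 28 (.thr 60 40 (.thr 51 57 (.dbl 17 29 34)))))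 .nd))))) (.rp 42 (.thr 48 32 (.thr 37 15 (.thr 53 5 (.thr 55 52 (.thr 63 58 (.thr 51 59 (.thr 49 50 (.dbl 57 60 61)))))))) (.rp 37 (.thr 48 32 (.thr 42 63 (.thr 58 10 (.thr 50 62 (.thr 51 49 (.thr 60 57 (.thr 40 20 (.thr 41 43 (.dbl 56 11 52))))))))) (.rp 32 (.str 20 (.nv (.thr 24 28 (.thr 40 60 (.thr 42 63 (.thr 56 8 (.dbl 41 11 43))))) (.nv (.thr 40 60 (.thr 42 63 (.thr 41 43 (.thr 56 11 (.dbl 24 8 28))))) (.nv (.thr 24 28 (.thr 25 27 (.thr 60 40 (.thr 51 57 (.dbl 17 29 34))))) (.rp 60 (.thr 24 28 (.thr 25 27 (.thr 42 63 (.thr 10 58 (.thr 8 59 (.thr 11 9 (.dbl 56 40 41))))))) (.rp 40 (.thr 24 28 (.thr 25 27 (.thr 42 63 (.thr 10 58 (.thr 15 5 (.thr 48 37 (.thr 8 59 (.dbl 12 4 36)))))))) (.rp 28 (.thr 63 42 (.thr 60 40 (.thr 62 61 (.thr 58 50 (.thr 53 48 (.thr 55 52 (.dbl 51 57 59)))))))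 (.rp 24 (.thr 63 42 (.thr 60 40 (.thr 62 61 (.thr 58 50 (.thr 53 48 (.thr 55 52 (.dbl 51 57 59))))))) .nd)))))))) (.rp 15 (.thr 48 32 (.thr 63 42 (.thr 53 58 (.thr 55 52 (.thr 51 59 (.thr 49 50 (.dbl 57 60 61))))))) (.rp 5 (.thr 48 32 (.thr 63 42 (.thr 53 58 (.thr 55 52 (.thr 51 59 (.thr 49 50 (.dbl 57 60 61))))))) .nd))))))))))) (.rp 37 (.str 38 (.nv (.thr 4 55 (.thr 12 8 (.thr 25 51 (.thr 24 27 (.dbl 48 32 36))))) (.nv (.thr 48 32 (.thr 50 14 (.thr 51 49 (.thr 17 34 (.dbl 25 12 29))))) (.nv (.thr 4 55 (.thr 12 8 (.thr 25 51 (.thr 29 17 (.dbl 63 42 46))))) (.rp 52 (.str 7 (.nv (.thr 4 55 (.thr 12 8 (.thr 25 51 (.thr 24 27 (.dbl 48 32 36))))) (.nv (.thr 48 32 (.thr 50 14 (.thr 51 49 (.thr 17 34 (.dbl 25 12 29))))) (.nv (.thr 4 55 (.thr 12 8 (.thr 25 51 (.thr 29 17 (.dbl 63 42 46))))) (.rp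 51 (.thr 4 55 (.thr 14 50 (.thr 12 8 (.thr 15 13 (.thr 10 5 (.dbl 42 58 63)))))) (.rp 25 (.thr 48 32 (.thr 50 14 (.thr 42 63 (.thr 34 46 (.dbl 51 17 49))))) (.rp 12 (.thr 48 32 (.thr 55 4 (.thr 50 14 (.thr 51 49 (.dbl 63 42 59))))) .nd))))))) (.rp 51 (.thr 4 55 (.thr 14 50 (.thr 12 8 (.thr 15 13 (.thr 10 5 (.dbl 42 58 63)))))) (.rp 25 (.thr 48 32 (.thr 50 14 (.thr 42 63 (.thr 34 46 (.dbl 51 17 49))))) (.rp 12 (.thr 48 32 (.thr 55 4 (.thr 50 14 (.thr 51 49 (.dbl 63 42 59))))) (.rp 7 (.str 52 (.nv (.thr 42 63 (.thr 48 32 (.thr 50 14 (.thr 51 49 (.dbl 34 17 46))))) (.nv (.thr 42 63 (.thr 34 46 (.thr 17 51 (.thr 50 14 (.dbl 18 2 19))))) (.nv (.thr 4 55 (.thr 12 8 (.thr 36 20 (.dbl 48 24 32)))) (.rp 4 (.str 5 (.nv (.thr 42 63 (.dbl 10 15 58)) (.rp 63 (.thr 48 32 (.thr 50 14 (.thr 51 49 (.thr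 17 34 (.dbl 25 12 29))))) (.rp 58 (.thr 48 32 (.thr 50 14 (.thr 51 49 (.thr 17 34 (.dbl 25 12 29))))) (.rp 47 (.thr 48 32 (.thr 42 63 (.thr 15 10 (.thr 34 46 (.thr 51 17 (.dbl 50 14 49)))))) (.rp 42 (.thr 15 10 (.thr 14 50 (.thr 12 13 (.thr 25 51 (.thr 24 27 (.dbl 48 32 36)))))) (.rp 15 (.thr 48 32 (.thr 50 14 (.thr 51 49 (.thr 17 34 (.dbl 25 12 29))))) (.rp 10 (.thr 48 32 (.thr 42 63 (.thr 34 46 (.thr 51 17 (.dbl 50 14 49))))) .nd)))))))) .nd))))) .nd))))))))) (.rp 32 (.str 38 (.nv (.thr 42 63 (.thr 10 58 (.thr 34 46 (.thr 50 14 (.thr 18 2 (.dbl 17 19 51)))))) (.nv (.thr 4 55 (.thr 12 8 (.thr 14 50 (.thr 15 13 (.thr 5 10 (.dbl 37 48 53)))))) (.nv (.thr 4 55 (.thr 12 8 (.thr 25 51 (.thr 29 17 (.dbl 63 42 46))))) (.rp 12 (.thr 55 4 (.thr 50 14 (.thr 63 42 (.thr 51 59 (.thr 48 49 (.thr 53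 58 (.dbl 37 5 15))))))) .nd))))) (.rp 15 (.str 38 (.nv (.thr 4 55 (.thr 12 8 (.thr 48 32 (.thr 36 24 (.thr 37 39 (.thr 53 5 (.dbl 63 42 58))))))) (.nv (.thr 48 32 (.thr 50 14 (.thr 51 49 (.thr 17 34 (.dbl 25 12 29))))) (.nv (.thr 63 42 (.thr 4 55 (.thr 12 8 (.thr 29 46 (.dbl 25 17 51))))) (.rp 63 (.str 47 (.nv (.thr 32 48 (.thr 42 37 (.thr 46 34 (.thr 44 45 (.thr 41 35 (.dbl 40 36 43)))))) (.nv (.thr 4 55 (.thr 12 8 (.thr 50 14 (.thr 48 32 (.dbl 51 25 49))))) (.rp 48 (.thr 4 55 (.thr 12 8 (.thr 51 25 (.thr 34 17 (.thr 42 46 (.thr 32 37 (.thr 35 33 (.thr 43 39 (.dbl 41 40 44))))))))) (.rp 32 (.thr 4 55 (.thr 12 8 (.thr 51 25 (.thr 17 34 (.thr 19 18 (.thr 35 3 (.thr 41 44 (.thr 50 14 (.thr 1 61 (.dbl 49 33 48)))))))))) .nd))))) (.rp 51 (.thr 32 48 (.thr 42 63 (.thr 47 37 (.thr 34 46 (.thr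 35 33 (.thr 41 44 (.dbl 43 39 40))))))) (.rp 12 (.thr 48 32 (.thr 55 4 (.thr 63 42 (.thr 51 59 (.dbl 50 14 49))))) .nd))))))) (.rp 5 (.str 4 (.nv (.thr 12 8 (.thr 38 55 (.thr 25 51 (.thr 29 17 (.dbl 63 42 46))))) (.nv (.thr 38 55 (.thr 12 8 (.thr 14 50 (.thr 48 32 (.dbl 15 13 37))))) (.rp 55 (.thr 12 8 (.thr 48 32 (.thr 24 36 (.thr 25 27 (.thr 17 29 (.dbl 51 34 38)))))) (.rp 38 (.str 54 (.nv (.thr 48 32 (.thr 63 42 (.thr 53 58 (.thr 52 55 (.thr 20 36 (.dbl 60 40 56)))))) (.nv (.thr 8 12 (.thr 42 63 (.thr 25 59 (.thr 24 27 (.thr 20 28 (.dbl 40 56 60)))))) (.nv (.thr 8 12 (.thr 42 63 (.thr 25 59 (.thr 48 32 (.thr 58 10 (.thr 50 62 (.thr 51 49 (.dbl 17 29 34)))))))) (.nv (.thr 12 8 (.thr 48 32 (.thr 36 24 (.thr 52 20 (.thr 53 55 (.dbl 63 42 58)))))) (.rp 63 (.thr 12 8 (.thr 48 32 (.thr 24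 36 (.thr 28 20 (.thr 25 27 (.thr 17 29 (.thr 51 34 (.dbl 60 44 57)))))))) (.rp 55 (.thr 12 8 (.thr 48 32 (.thr 24 36 (.thr 25 27 (.thr 29 17 (.dbl 63 42 46)))))) (.rp 42 (.thr 12 8 (.thr 48 32 (.thr 24 36 (.thr 25 27 (.thr 17 29 (.thr 37 15 (.thr 49 13 (.dbl 51 34 50)))))))) .nd)))))))) (.rp 12 (.thr 38 55 (.thr 50 14 (.thr 48 32 (.thr 51 49 (.thr 34 17 (.dbl 42 46 63)))))) (.rp 8 (.thr 38 55 (.thr 50 14 (.thr 48 32 (.thr 51 49 (.thr 25 12 (.dbl 17 29 34)))))) .nd))))))) .nd)))))))))))))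

theorem w226 : WinAt (69271552, 2151678016) :=
  chF (K := []) kn c226 69271552 2151678016 31
    [18014673391583296] (by decide +kernel) (by decide +kernel)

/-- A certificate. -/
noncomputable def c227 : Ct := (.str 15 (.nv (.thr 63 47 (.thr 0 42 (.thr 37 48 (.dbl 5 10 53)))) (.rp 63 (.str 12 (.nv (.thr 14 13 (.thr 38 50 (.thr 4 55 (.thr 0 8 (.thr 5 10 (.dbl 37 48 53)))))) (.nv (.thr 13 14 (.thr 37 48 (.thr 49 25 (.thr 53 5 (.thr 61 57 (.thr 41 1 (.dbl 45 29 33))))))) (.nv (.thr 14 13 (.thr 48 37 (.thr 24 36 (.thr 38 50 (.dbl 25 27 51))))) (.rp 48 (.thr 14 13 (.thr 38 50 (.thr 51 25 (.thr 39 27 (.thr 4 55 (.thr 0 8 (.thr 5 10 (.dbl 37 36 53)))))))) (.rp 43 (.str 3 (.nv (.thr 11 7 (.thr 13 14 (.thr 41 56 (.thr 1 61 (.thr 5 9 (.dbl 0 2 10)))))) (.nv (.thr 11 7 (.thr 37 48 (.thr 41 56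 (.thr 45 33 (.dbl 60 22 30))))) (.nv (.thr 14 13 (.thr 38 50 (.thr 48 37 (.thr 24 36 (.dbl 25 27 51))))) .nd)))) (.rp 37 (.thr 14 13 (.thr 38 50 (.thr 4 55 (.thr 0 8 (.thr 10 5 (.thr 42 58 (.thr 34 46 (.dbl 51 17 25)))))))) (.rp 14 (.thr 48 37 (.thr 24 36 (.thr 25 27 (.thr 29 17 (.thr 28 30 (.thr 60 44 (.thr 56 52 (.thr 41 11 (.dbl 22 3 19))))))))) (.rp 13 (.thr 48 37 (.thr 24 36 (.thr 25 27 (.thr 29 17 (.thr 28 30 (.thr 60 44 (.thr 56 52 (.thr 41 11 (.dbl 22 3 19))))))))) (.rp 3 (.str 43 (.nv (.thr 14 13 (.thr 38 50 (.thr 4 55 (.thr 0 8 (.thr 5 10 (.dbl 37 48 53)))))) (.nv (.thr 13 14 (.thr 37 48 (.thr 49 25 (.thr 53 5 (.thr 61 57 (.thr 41 1 (.dbl 45 29 33))))))) (.nv (.thr 14 13 (.thr 38 50 (.thr 51 25 (.thr 39 27 (.dbl 37 36 48))))) (.rp 48 (.thr 14 13 (.thr 38 50 (.thr 4 55 (.thr 0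 8 (.thr 10 5 (.thr 51 25 (.thr 34 17 (.dbl 42 46 58)))))))) (.rp 37 (.thr 14 13 (.thr 38 50 (.thr 4 55 (.thr 8 0 (.thr 25 51 (.thr 59 42 (.dbl 27 11 24))))))) (.rp 14 (.thr 48 37 (.thr 24 36 (.thr 27 25 (.thr 11 59 (.thr 56 41 (.thr 8 40 (.thr 0 4 (.dbl 10 5 9)))))))) (.rp 13 (.thr 48 37 (.thr 24 36 (.thr 25 27 (.thr 29 17 (.thr 30 28 (.thr 60 45 (.thr 56 52 (.thr 41 11 (.dbl 40 8 42))))))))) .nd)))))))) .nd)))))))))) (.rp 53 (.str 30 (.nv (.thr 22 18 (.thr 29 28 (.thr 63 47 (.thr 42 0 (.thr 62 2 (.dbl 46 12 14)))))) (.nv (.thr 22 18 (.thr 48 37 (.thr 60 45 (.thr 56 52 (.dbl 41 3 11))))) (.nv (.thr 29 28 (.thr 63 47 (.thr 12 46 (.thr 45 60 (.dbl 13 14 61))))) .nd)))) (.rp 48 (.thr 63 47 (.thr 0 42 (.thr 5 10 (.str 14 (.nv (.thr 37 53 (.thr 38 50 (.thr 55 4 (.thr 51 59 (.dbl 39 27 36)))))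 (.nv (.thr 13 12 (.thr 1 9 (.thr 3 2 (.thr 41 61 (.dbl 11 7 56))))) (.nv (.thr 12 13 (.thr 38 50 (.dbl 4 8 55))) (.rp 37 (.str 32 (.nv (.thr 38 50 (.thr 55 4 (.thr 51 59 (.thr 25 12 (.dbl 17 29 34))))) (.nv (.thr 13 12 (.thr 1 9 (.thr 3 2 (.thr 41 61 (.dbl 11 7 56))))) (.nv (.thr 12 13 (.thr 38 50 (.dbl 4 8 55))) (.rp 12 (.thr 38 50 (.thr 55 4 (.thr 51 59 (.thr 17 34 (.thr 27 39 (.dbl 25 24 29)))))) .nd))))) (.rp 8 (.thr 12 13 (.thr 29 46 (.thr 25 17 (.dbl 38 50 51)))) .nd))))))))) (.rp 47 (.str 30 (.nv (.thr 29 28 (.thr 25 17 (.thr 37 48 (.thr 13 49 (.dbl 45 60 61))))) (.nv (.thr 29 28 (.thr 37 48 (.thr 45 60 (.thr 13 61 (.dbl 25 17 49))))) (.nv (.thr 22 18 (.thr 60 45 (.thr 3 41 (.thr 7 11 (.dbl 37 48 52))))) (.rp 60 (.thr 29 28 (.thr 25 17 (.thr 24 27 (.thr 48 37 (.thr 12 36 (.thr 14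 13 (.dbl 46 62 63))))))) (.rp 48 (.thr 29 28 (.thr 25 17 (.thr 45 60 (.thr 13 61 (.thr 12 14 (.thr 51 38 (.dbl 27 24 39))))))) (.rp 45 (.thr 29 28 (.thr 25 17 (.thr 24 27 (.thr 48 37 (.thr 12 36 (.thr 14 13 (.dbl 46 62 63))))))) (.rp 37 (.thr 29 28 (.thr 25 17 (.thr 45 60 (.thr 13 61 (.thr 12 14 (.thr 51 38 (.dbl 27 24 39))))))) (.rp 17 (.thr 29 28 (.thr 45 60 (.thr 61 13 (.thr 41 1 (.dbl 37 33 48))))) .nd))))))))) (.rp 42 (.str 30 (.nv (.thr 18 22 (.thr 29 28 (.thr 25 17 (.thr 24 27 (.thr 48 37 (.thr 12 36 (.dbl 63 46 47))))))) (.nv (.thr 29 28 (.thr 45 60 (.thr 13 61 (.thr 12 14 (.dbl 63 46 47))))) (.nv (.thr 48 37 (.thr 60 45 (.thr 56 52 (.thr 41 11 (.dbl 22 3 18))))) (.rp 47 (.thr 22 18 (.thr 60 45 (.thr 3 41 (.thr 7 11 (.dbl 37 48 52))))) .nd))))) (.rp 37 (.str 30 (.nv (.thr 22 18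 (.thr 29 28 (.thr 63 47 (.thr 42 0 (.thr 62 2 (.dbl 46 12 14)))))) (.nv (.thr 22 18 (.thr 60 45 (.thr 41 3 (.thr 61 1 (.dbl 63 47 62))))) (.nv (.thr 29 28 (.thr 63 47 (.thr 12 46 (.thr 45 60 (.dbl 13 14 61))))) (.rp 63 (.thr 29 28 (.thr 25 17 (.thr 24 27 (.thr 45 60 (.thr 61 13 (.thr 41 1 (.thr 56 11 (.thr 8 40 (.thr 59 42 (.dbl 57 9 58)))))))))) (.rp 47 (.thr 29 28 (.thr 25 17 (.thr 45 60 (.thr 13 61 (.thr 12 14 (.thr 51 38 (.dbl 27 24 39))))))) (.rp 12 (.thr 22 18 (.thr 63 47 (.thr 42 0 (.thr 62 2 (.dbl 60 45 61))))) .nd))))))) (.rp 10 (.str 14 (.nv (.thr 12 13 (.thr 38 50 (.thr 4 55 (.thr 0 8 (.dbl 63 42 47))))) (.nv (.thr 12 13 (.thr 38 50 (.thr 25 51 (.thr 48 37 (.dbl 24 27 36))))) (.rp 50 (.thr 12 13 (.thr 63 47 (.thr 29 46 (.thr 25 17 (.thr 27 24 (.dbl 51 38 39)))))) (.rp 38 (.thr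 12 13 (.thr 63 47 (.thr 29 46 (.thr 25 17 (.thr 24 27 (.dbl 48 36 37)))))) (.rp 13 (.thr 38 50 (.thr 55 4 (.thr 63 47 (.thr 51 59 (.thr 25 12 (.dbl 27 24 39)))))) (.rp 12 (.thr 38 50 (.thr 55 4 (.thr 63 47 (.thr 51 59 (.thr 39 27 (.dbl 37 36 48)))))) .nd))))))) (.rp 5 (.thr 63 47 (.thr 42 0 (.thr 58 10 (.dbl 48 37 53)))) (.rp 0 (.str 30 (.nv (.thr 29 28 (.thr 45 60 (.thr 13 61 (.thr 12 14 (.dbl 63 46 47))))) (.nv (.thr 29 28 (.thr 25 17 (.thr 24 27 (.thr 48 37 (.thr 12 36 (.dbl 63 46 47)))))) (.nv (.thr 48 37 (.thr 60 45 (.thr 56 52 (.thr 41 11 (.dbl 22 3 18))))) (.rp 48 (.str 32 (.nv (.thr 22 18 (.thr 47 63 (.thr 37 42 (.thr 7 52 (.thr 3 11 (.dbl 60 41 45)))))) (.nv (.thr 29 28 (.thr 60 45 (.thr 63 47 (.thr 62 61 (.dbl 46 12 14))))) (.rp 63 (.thr 22 18 (.thr 28 29 (.thr 60 45 (.thr 12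 44 (.thr 13 14 (.thr 3 41 (.thr 7 11 (.thr 37 52 (.dbl 25 19 49))))))))) (.rp 60 (.thr 29 28 (.thr 25 17 (.thr 63 47 (.thr 12 46 (.thr 14 13 (.dbl 38 50 51)))))) (.rp 47 (.thr 29 28 (.thr 25 17 (.thr 45 60 (.thr 13 61 (.thr 12 14 (.thr 51 38 (.dbl 27 24 39))))))) (.rp 45 (.thr 22 18 (.thr 47 63 (.thr 42 37 (.thr 58 10 (.thr 62 2 (.thr 14 46 (.dbl 50 38 54))))))) .nd))))))) .nd))))) .nd)))))))))))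

theorem w227 : WinAt (2216689664, 8454208) :=
  chF (K := []) kn c227 2216689664 8454208 16
    [] (by decide +kernel) (by decide +kernel)

/-- A certificate. -/
noncomputable def c228 : Ct := (.str 0 (.nv (.thr 48 32 (.thr 15 37 (.thr 42 63 (.dbl 10 5 58)))) (.rp 63 (.thr 48 32 (.thr 15 37 (.thr 10 5 (.str 4 (.nv (.thr 42 58 (.thr 38 55 (.thr 50 14 (.thr 51 49 (.dbl 34 17 46))))) (.nv (.thr 8 12 (.thr 11 9 (.thr 3 7 (.thr 1 2 (.dbl 41 56 61))))) (.nv (.thr 38 55 (.thr 14 50 (.dbl 12 8 13))) (.rp 42 (.str 47 (.nv (.thr 38 55 (.thr 50 14 (.thr 51 49 (.thr 25 12 (.dbl 17 29 34))))) (.nv (.thr 8 12 (.thr 11 9 (.thr 3 7 (.thr 1 2 (.dbl 41 56 61))))) (.nv (.thr 38 55 (.thr 14 50 (.dbl 12 8 13))) (.rp 12 (.thr 38 55 (.thr 50 14 (.thr 51 49 (.thr 39 27 (.thr 35 43 (.thr 17 34 (.dbl 19 3 18)))))))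 .nd))))) (.rp 13 (.thr 12 8 (.thr 38 55 (.thr 50 14 (.dbl 51 25 49)))) .nd))))))))) (.rp 58 (.str 20 (.nv (.thr 22 23 (.thr 60 40 (.thr 3 41 (.thr 2 1 (.dbl 42 62 63))))) (.nv (.thr 22 23 (.thr 18 30 (.thr 42 63 (.thr 48 32 (.thr 3 33 (.dbl 2 1 62)))))) (.nv (.thr 48 32 (.thr 60 40 (.thr 56 52 (.thr 41 11 (.dbl 22 3 23))))) (.rp 23 (.thr 48 32 (.thr 60 40 (.thr 56 52 (.thr 41 11 (.thr 1 61 (.dbl 3 2 22)))))) (.rp 22 (.thr 48 32 (.thr 60 40 (.thr 56 52 (.thr 41 11 (.thr 61 1 (.dbl 63 42 62)))))) (.rp 3 (.thr 22 23 (.thr 30 18 (.thr 48 32 (.thr 15 37 (.dbl 60 40 45))))) .nd))))))) (.rp 48 (.str 3 (.nv (.thr 63 42 (.thr 23 43 (.thr 22 20 (.thr 41 60 (.dbl 1 2 61))))) (.nv (.thr 2 1 (.thr 42 63 (.thr 58 10 (.thr 62 22 (.thr 50 54 (.thr 38 14 (.dbl 34 18 46))))))) (.nv (.thr 1 2 (.thr 63 42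 (.thr 23 43 (.thr 41 61 (.dbl 22 20 60))))) (.rp 63 (.thr 1 2 (.thr 41 61 (.thr 60 22 (.thr 40 20 (.thr 11 56 (.thr 15 7 (.thr 42 43 (.dbl 10 5 58)))))))) (.rp 42 (.thr 1 2 (.thr 41 61 (.thr 22 60 (.thr 23 20 (.thr 18 30 (.thr 19 17 (.thr 51 35 (.thr 63 43 (.thr 55 59 (.thr 38 4 (.dbl 25 12 28))))))))))) (.rp 36 (.str 12 (.nv (.thr 4 8 (.thr 38 55 (.thr 51 25 (.thr 17 34 (.dbl 19 18 35))))) (.nv (.thr 1 2 (.thr 41 61 (.thr 63 42 (.thr 23 43 (.dbl 22 20 60))))) (.rp 42 (.thr 8 4 (.thr 1 2 (.thr 41 61 (.thr 11 56 (.thr 10 9 (.dbl 15 5 7)))))) .nd)))) (.rp 22 (.thr 1 2 (.thr 42 63 (.thr 41 61 (.thr 11 56 (.thr 15 7 (.dbl 10 5 58)))))) (.rp 12 (.str 36 (.nv (.thr 2 1 (.thr 42 63 (.thr 22 62 (.thr 60 41 (.dbl 20 23 40))))) (.nv (.thr 2 1 (.thr 42 63 (.thr 22 62 (.thr 18 30 (.thr 34 50 (.dbl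 17 19 51)))))) (.nv (.thr 1 2 (.thr 41 61 (.thr 63 42 (.thr 23 43 (.dbl 22 20 60))))) (.rp 63 (.thr 1 2 (.thr 41 61 (.thr 11 56 (.thr 15 7 (.thr 60 22 (.thr 40 20 (.thr 42 43 (.dbl 10 5 58)))))))) (.rp 62 (.thr 1 2 (.thr 41 61 (.thr 22 60 (.thr 63 42 (.dbl 23 20 43))))) (.rp 60 (.thr 2 1 (.thr 42 63 (.thr 58 10 (.thr 62 22 (.thr 50 54 (.thr 38 14 (.dbl 34 18 46))))))) (.rp 42 (.thr 1 2 (.thr 41 61 (.thr 11 56 (.thr 7 15 (.thr 22 60 (.thr 52 37 (.dbl 20 4 23))))))) (.rp 22 (.thr 1 2 (.thr 41 61 (.thr 11 56 (.thr 15 7 (.thr 42 63 (.dbl 10 5 58)))))) (.rp 2 (.thr 63 42 (.thr 23 43 (.thr 22 20 (.thr 18 30 (.thr 17 19 (.thr 51 34 (.thr 55 59 (.thr 38 4 (.dbl 39 7 37))))))))) (.rp 1 (.thr 63 42 (.thr 23 43 (.thr 22 20 (.thr 18 30 (.thr 17 19 (.thr 51 34 (.thr 55 59 (.thr 38 4 (.dbl 39 7 37)))))))))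 .nd))))))))))) (.rp 2 (.thr 63 42 (.thr 23 43 (.thr 22 20 (.thr 18 30 (.thr 19 17 (.thr 51 35 (.thr 55 59 (.thr 38 4 (.dbl 25 12 28))))))))) (.rp 1 (.thr 63 42 (.thr 23 43 (.thr 22 20 (.thr 18 30 (.thr 19 17 (.thr 51 35 (.thr 55 59 (.thr 38 4 (.dbl 25 12 28))))))))) .nd))))))))))) (.rp 42 (.str 20 (.nv (.thr 22 23 (.thr 30 18 (.thr 60 40 (.thr 15 45 (.thr 5 10 (.dbl 37 48 53)))))) (.nv (.thr 22 23 (.thr 18 30 (.thr 48 32 (.thr 3 33 (.thr 2 1 (.thr 34 50 (.dbl 17 19 51))))))) (.nv (.thr 48 32 (.thr 60 40 (.thr 56 52 (.thr 41 11 (.dbl 22 3 23))))) (.rp 48 (.thr 22 23 (.thr 30 18 (.thr 60 40 (.thr 15 45 (.thr 5 10 (.thr 37 53 (.thr 7 52 (.dbl 3 11 41)))))))) (.rp 37 (.thr 22 23 (.thr 60 40 (.thr 41 3 (.thr 56 11 (.dbl 48 32 52))))) (.rp 23 (.thr 48 32 (.thr 60 40 (.thr 56 52 (.thr 41 11 (.thr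 1 61 (.dbl 3 2 22)))))) (.rp 22 (.thr 48 32 (.thr 37 15 (.thr 53 5 (.thr 63 58 (.thr 60 40 (.thr 56 52 (.thr 41 11 (.dbl 61 1 62)))))))) .nd)))))))) (.rp 37 (.str 20 (.nv (.thr 22 23 (.thr 60 40 (.thr 41 3 (.thr 56 11 (.dbl 48 32 52))))) (.nv (.thr 22 23 (.thr 18 30 (.thr 42 63 (.thr 2 62 (.thr 34 50 (.dbl 17 19 51)))))) (.nv (.thr 48 32 (.thr 60 40 (.thr 56 52 (.thr 41 11 (.dbl 22 3 23))))) (.rp 60 (.thr 22 23 (.thr 18 30 (.thr 48 32 (.thr 3 33 (.thr 2 1 (.dbl 42 62 63)))))) (.rp 23 (.thr 48 32 (.thr 60 40 (.thr 56 52 (.thr 41 11 (.thr 1 61 (.dbl 3 2 22)))))) (.rp 22 (.thr 32 48 (.thr 40 60 (.thr 36 44 (.thr 42 63 (.thr 58 10 (.thr 41 43 (.thr 56 11 (.thr 59 57 (.thr 8 25 (.dbl 4 12 52)))))))))) (.rp 3 (.thr 22 23 (.thr 30 18 (.thr 60 40 (.thr 15 45 (.thr 10 5 (.dbl 42 58 63)))))) .nd))))))))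 (.rp 32 (.str 20 (.nv (.thr 22 23 (.thr 30 18 (.thr 42 63 (.thr 58 10 (.thr 62 2 (.thr 14 46 (.dbl 50 38 54))))))) (.nv (.thr 60 40 (.thr 63 42 (.thr 61 62 (.thr 41 1 (.dbl 22 3 23))))) (.nv (.thr 22 23 (.thr 30 18 (.thr 60 40 (.thr 15 45 (.thr 5 10 (.dbl 37 48 53)))))) (.nv (.thr 22 23 (.thr 42 63 (.thr 2 62 (.thr 3 1 (.dbl 60 40 41))))) (.rp 23 (.thr 60 40 (.thr 63 42 (.thr 61 62 (.thr 41 1 (.thr 56 11 (.thr 48 52 (.thr 53 58 (.dbl 37 5 15)))))))) (.rp 22 (.thr 40 60 (.thr 42 63 (.thr 10 58 (.thr 15 5 (.thr 41 43 (.thr 11 56 (.thr 8 9 (.thr 4 12 (.thr 3 7 (.dbl 1 2 61)))))))))) (.rp 2 (.thr 22 23 (.thr 60 40 (.thr 41 3 (.thr 61 1 (.dbl 63 42 62))))) .nd)))))))) (.rp 15 (.str 20 (.nv (.thr 22 23 (.thr 18 30 (.thr 48 32 (.thr 3 33 (.thr 2 1 (.dbl 42 62 63)))))) (.nv (.thr 22 23 (.thr 18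 30 (.thr 48 32 (.thr 3 33 (.dbl 60 40 41))))) (.nv (.thr 63 42 (.thr 60 40 (.thr 61 62 (.thr 41 1 (.dbl 22 3 23))))) (.rp 63 (.str 47 (.nv (.thr 22 23 (.thr 18 30 (.thr 60 40 (.thr 3 41 (.thr 2 1 (.thr 34 50 (.dbl 17 19 51))))))) (.nv (.thr 32 48 (.thr 37 42 (.thr 40 60 (.thr 36 44 (.thr 38 39 (.dbl 4 52 55)))))) (.nv (.thr 22 23 (.thr 18 30 (.thr 48 32 (.thr 3 33 (.thr 2 1 (.thr 34 50 (.dbl 17 19 51))))))) (.nv (.thr 48 32 (.thr 60 40 (.thr 56 52 (.thr 41 11 (.dbl 22 3 23))))) (.rp 60 (.thr 22 23 (.thr 30 18 (.thr 32 48 (.thr 42 37 (.thr 62 2 (.thr 14 46 (.thr 58 10 (.dbl 50 38 54)))))))) .nd)))))) (.rp 60 (.thr 23 22 (.thr 48 32 (.thr 63 42 (.thr 3 43 (.thr 2 1 (.thr 18 33 (.thr 17 19 (.dbl 34 50 51)))))))) (.rp 23 (.thr 48 32 (.thr 60 40 (.thr 56 52 (.thr 41 11 (.thr 1 61 (.dbl 3 2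 22)))))) (.rp 22 (.thr 48 32 (.thr 60 40 (.thr 56 52 (.thr 41 11 (.thr 61 1 (.dbl 63 42 62)))))) (.rp 3 (.thr 48 32 (.thr 60 40 (.thr 56 52 (.thr 63 42 (.thr 61 62 (.dbl 41 1 11)))))) .nd))))))))) (.rp 10 (.thr 48 32 (.thr 37 15 (.thr 53 5 (.dbl 63 42 58)))) (.rp 5 (.str 4 (.nv (.thr 38 55 (.thr 42 63 (.thr 34 46 (.thr 51 17 (.dbl 12 8 25))))) (.nv (.thr 12 8 (.thr 48 32 (.thr 38 55 (.thr 14 50 (.dbl 15 13 37))))) (.rp 55 (.thr 12 8 (.thr 48 32 (.thr 15 37 (.thr 14 13 (.thr 38 50 (.thr 25 51 (.thr 29 17 (.dbl 63 42 46)))))))) (.rp 38 (.thr 8 12 (.thr 48 32 (.thr 15 37 (.thr 42 63 (.thr 10 58 (.thr 11 9 (.thr 3 7 (.thr 1 2 (.dbl 41 56 61))))))))) (.rp 15 (.thr 12 8 (.thr 38 55 (.thr 25 51 (.thr 29 17 (.dbl 63 42 46))))) (.rp 12 (.thr 38 55 (.thr 50 14 (.thr 48 32 (.thr 51 49 (.thr 34 17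 (.dbl 42 46 63)))))) (.rp 8 (.thr 38 55 (.thr 50 14 (.thr 48 32 (.thr 51 49 (.thr 25 12 (.dbl 17 29 34)))))) .nd)))))))) .nd)))))))))))

theorem w228 : WinAt (69271552, 2164260928) :=
  chF (K := []) kn c228 69271552 2164260928 31
    [] (by decide +kernel) (by decide +kernel)

/-- A certificate. -/
noncomputable def c229 : Ct := (.str 0 (.nv (.thr 48 32 (.thr 37 15 (.thr 63 42 (.dbl 53 5 58)))) (.nv (.thr 48 32 (.thr 42 63 (.thr 10 58 (.dbl 15 5 37)))) (.rp 63 (.str 20 (.nv (.thr 22 23 (.thr 18 30 (.thr 60 40 (.thr 3 41 (.thr 2 1 (.thr 34 50 (.dbl 17 19 51))))))) (.nv (.thr 48 32 (.thr 60 40 (.thr 52 56 (.thr 36 4 (.dbl 24 12 28))))) (.nv (.thr 22 23 (.thr 18 30 (.thr 48 32 (.thr 3 33 (.thr 2 1 (.thr 34 50 (.dbl 17 19 51))))))) (.nv (.thr 48 32 (.thr 60 40 (.thr 56 52 (.thr 41 11 (.dbl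 22 3 23))))) (.rp 47 (.str 15 (.nv (.thr 22 23 (.thr 30 18 (.dbl 60 40 45))) (.nv (.dbl 48 32 37) .nd))) (.rp 15 (.str 47 (.nv (.thr 48 32 (.thr 60 40 (.thr 52 56 (.thr 36 4 (.dbl 24 12 28))))) (.nv (.thr 22 23 (.thr 18 30 (.thr 60 40 (.thr 3 41 (.thr 2 1 (.thr 34 50 (.dbl 17 19 51))))))) (.nv (.thr 48 32 (.thr 60 40 (.thr 56 52 (.thr 41 11 (.dbl 22 3 23))))) (.rp 60 (.thr 22 23 (.thr 32 48 (.thr 37 42 (.thr 53 5 (.thr 52 7 (.thr 4 36 (.dbl 55 38 54))))))) (.rp 40 (.thr 22 23 (.thr 18 30 (.thr 48 32 (.thr 3 33 (.thr 1 2 (.dbl 41 60 61)))))) .nd)))))) .nd))))))) (.rp 58 (.str 20 (.nv (.thr 22 23 (.thr 60 40 (.thr 3 41 (.thr 2 1 (.dbl 42 62 63))))) (.nv (.thr 22 23 (.thr 18 30 (.thr 42 63 (.thr 48 32 (.thr 3 33 (.dbl 2 1 62)))))) (.nv (.thr 48 32 (.thr 60 40 (.thr 52 56 (.thr 36 4 (.dbl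 24 12 28))))) (.nv (.thr 22 23 (.thr 30 18 (.thr 60 40 (.thr 15 45 (.dbl 48 32 37))))) .nd))))) (.rp 48 (.str 20 (.nv (.thr 24 28 (.thr 40 60 (.thr 42 63 (.thr 56 8 (.dbl 41 11 43))))) (.nv (.thr 22 23 (.thr 30 18 (.thr 60 40 (.thr 15 45 (.thr 10 5 (.dbl 42 58 63)))))) (.nv (.thr 60 40 (.thr 63 42 (.thr 61 62 (.thr 41 1 (.dbl 22 3 23))))) (.rp 63 (.thr 22 23 (.thr 18 30 (.thr 60 40 (.thr 3 41 (.thr 2 1 (.thr 34 50 (.dbl 17 19 51))))))) (.rp 60 (.thr 22 23 (.thr 30 18 (.thr 42 63 (.thr 62 2 (.thr 14 46 (.thr 50 38 (.dbl 58 10 54))))))) (.rp 42 (.thr 22 23 (.thr 30 18 (.thr 60 40 (.thr 15 45 (.thr 5 10 (.thr 37 53 (.thr 7 52 (.dbl 3 11 41)))))))) (.rp 40 (.thr 22 23 (.thr 18 30 (.thr 42 63 (.thr 2 62 (.thr 34 50 (.dbl 17 19 51)))))) (.rp 22 (.thr 40 60 (.thr 42 63 (.thr 41 43 (.thr 56 11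 (.dbl 24 8 28))))) .nd))))))))) (.rp 42 (.str 20 (.nv (.thr 22 23 (.thr 24 28 (.thr 48 32 (.thr 37 15 (.thr 52 7 (.dbl 36 4 12)))))) (.nv (.thr 48 32 (.thr 60 40 (.thr 52 56 (.thr 36 4 (.dbl 24 12 28))))) (.nv (.thr 24 28 (.thr 40 60 (.thr 8 56 (.thr 12 4 (.dbl 48 32 36))))) (.nv (.thr 22 23 (.thr 30 18 (.thr 60 40 (.thr 15 45 (.dbl 48 32 37))))) (.rp 59 (.str 8 (.nv (.thr 4 12 (.thr 32 48 (.thr 36 52 (.dbl 40 44 60)))) (.nv (.thr 12 4 (.thr 24 28 (.dbl 48 32 36))) (.nv (.thr 40 60 (.dbl 24 28 56)) .nd)))) (.rp 48 (.thr 22 23 (.thr 30 18 (.thr 60 40 (.thr 15 45 (.thr 5 10 (.thr 37 53 (.thr 7 52 (.dbl 3 11 41)))))))) (.rp 32 (.thr 22 23 (.thr 30 18 (.thr 60 40 (.thr 15 45 (.thr 5 10 (.dbl 37 48 53)))))) (.rp 8 (.str 59 (.nv (.thr 48 32 (.thr 60 40 (.thr 56 52 (.thr 41 11 (.dbl 22 3 23)))))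 (.nv (.thr 22 23 (.thr 18 30 (.thr 48 32 (.thr 3 33 (.thr 2 1 (.thr 34 50 (.dbl 17 19 51))))))) (.nv (.thr 22 23 (.thr 30 18 (.thr 60 40 (.thr 15 45 (.dbl 48 32 37))))) (.rp 48 (.thr 22 23 (.thr 30 18 (.thr 60 40 (.thr 15 45 (.thr 5 10 (.thr 37 53 (.thr 7 52 (.dbl 3 11 41)))))))) (.rp 37 (.thr 22 23 (.thr 60 40 (.thr 41 3 (.thr 56 11 (.dbl 48 32 52))))) (.rp 32 (.thr 22 23 (.thr 30 18 (.thr 60 40 (.thr 15 45 (.thr 5 10 (.dbl 37 48 53)))))) (.rp 23 (.thr 24 28 (.thr 60 40 (.thr 48 32 (.thr 52 56 (.dbl 36 4 12))))) (.rp 22 (.thr 60 40 (.thr 48 32 (.thr 56 52 (.thr 58 57 (.thr 53 63 (.dbl 37 5 15)))))) .nd))))))))) .nd))))))))) (.rp 37 (.str 20 (.nv (.thr 40 60 (.thr 42 63 (.thr 41 43 (.thr 56 11 (.dbl 24 8 28))))) (.nv (.thr 22 23 (.thr 18 30 (.thr 42 63 (.thr 48 32 (.thr 3 33 (.dbl 2 1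 62)))))) (.nv (.thr 24 28 (.thr 40 60 (.thr 8 56 (.thr 12 4 (.dbl 48 32 36))))) (.nv (.thr 22 23 (.thr 42 63 (.thr 2 62 (.thr 60 40 (.dbl 3 1 41))))) (.rp 49 (.str 13 (.nv (.thr 40 60 (.thr 42 63 (.thr 41 43 (.thr 56 11 (.dbl 24 8 28))))) (.nv (.thr 22 23 (.thr 18 30 (.thr 42 63 (.thr 48 32 (.thr 3 33 (.dbl 2 1 62)))))) (.nv (.thr 24 28 (.thr 40 60 (.thr 8 56 (.thr 12 4 (.dbl 48 32 36))))) (.nv (.thr 22 23 (.thr 42 63 (.thr 2 62 (.thr 60 40 (.dbl 3 1 41))))) .nd))))) (.rp 13 (.str 49 (.nv (.thr 48 32 (.thr 60 40 (.thr 52 56 (.thr 36 4 (.dbl 24 12 28))))) (.nv (.thr 22 23 (.thr 60 40 (.thr 3 41 (.thr 2 1 (.dbl 42 62 63))))) (.nv (.thr 22 23 (.thr 18 30 (.thr 48 32 (.thr 51 50 (.dbl 17 19 34))))) (.rp 42 (.thr 24 28 (.thr 40 60 (.thr 8 56 (.thr 12 4 (.dbl 48 32 36))))) .nd))))) .nd)))))))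 (.rp 32 (.str 20 (.nv (.thr 40 60 (.thr 42 63 (.thr 41 43 (.thr 56 11 (.dbl 24 8 28))))) (.nv (.thr 24 28 (.thr 40 60 (.thr 56 8 (.thr 41 11 (.dbl 42 43 63))))) (.nv (.thr 22 23 (.thr 30 18 (.thr 60 40 (.thr 15 45 (.thr 5 10 (.dbl 37 48 53)))))) (.nv (.thr 22 23 (.thr 42 63 (.thr 2 62 (.thr 3 1 (.dbl 60 40 41))))) (.rp 60 (.thr 22 23 (.thr 30 18 (.thr 42 63 (.thr 62 2 (.thr 14 46 (.thr 50 38 (.dbl 58 10 54))))))) (.rp 40 (.thr 22 23 (.thr 18 30 (.thr 42 63 (.thr 2 62 (.thr 34 50 (.dbl 17 19 51)))))) .nd))))))) (.rp 15 (.str 20 (.nv (.thr 24 28 (.thr 48 32 (.thr 60 40 (.thr 52 56 (.dbl 36 4 12))))) (.nv (.thr 63 42 (.thr 60 40 (.thr 61 62 (.thr 41 1 (.dbl 22 3 23))))) (.rp 63 (.str 47 (.nv (.thr 48 32 (.thr 60 40 (.thr 52 56 (.thr 36 4 (.dbl 24 12 28))))) (.nv (.thr 22 23 (.thr 18 30 (.thr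 60 40 (.thr 3 41 (.thr 2 1 (.thr 34 50 (.dbl 17 19 51))))))) (.nv (.thr 48 32 (.thr 60 40 (.thr 56 52 (.thr 41 11 (.dbl 22 3 23))))) (.rp 60 (.thr 22 23 (.thr 32 48 (.thr 37 42 (.thr 53 5 (.thr 52 7 (.thr 4 36 (.dbl 55 38 54))))))) (.rp 40 (.thr 22 23 (.thr 18 30 (.thr 48 32 (.thr 3 33 (.thr 1 2 (.dbl 41 60 61)))))) .nd)))))) (.rp 60 (.thr 23 22 (.thr 48 32 (.thr 63 42 (.thr 3 43 (.thr 2 1 (.thr 18 33 (.thr 34 50 (.dbl 17 19 51)))))))) (.rp 40 (.thr 22 23 (.thr 18 30 (.thr 48 32 (.thr 3 33 (.thr 1 2 (.dbl 41 60 61)))))) (.rp 22 (.thr 48 32 (.thr 60 40 (.thr 52 56 (.thr 36 4 (.dbl 24 12 28))))) .nd))))))) (.rp 5 (.str 4 (.nv (.thr 38 55 (.thr 48 32 (.thr 50 14 (.thr 51 49 (.thr 34 17 (.dbl 42 46 63)))))) (.nv (.thr 38 55 (.thr 48 32 (.thr 37 15 (.thr 36 39 (.thr 20 52 (.dbl 24 12 28))))))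 (.nv (.thr 12 8 (.thr 48 32 (.thr 38 55 (.thr 14 50 (.dbl 15 13 37))))) (.rp 55 (.thr 12 8 (.thr 48 32 (.thr 15 37 (.thr 24 36 (.thr 20 28 (.thr 22 23 (.thr 30 18 (.dbl 60 40 45)))))))) (.rp 48 (.thr 38 55 (.thr 50 14 (.thr 42 63 (.thr 34 46 (.thr 2 18 (.thr 62 22 (.dbl 58 10 54))))))) (.rp 38 (.thr 12 8 (.thr 48 32 (.thr 15 37 (.thr 36 24 (.thr 20 52 (.thr 22 23 (.thr 30 18 (.dbl 60 40 45)))))))) (.rp 37 (.thr 38 55 (.thr 50 14 (.thr 48 32 (.thr 42 63 (.thr 34 46 (.dbl 51 17 49)))))) (.rp 32 (.thr 38 55 (.thr 50 14 (.thr 42 63 (.thr 10 58 (.thr 34 46 (.thr 18 2 (.dbl 17 19 51))))))) .nd))))))))) .nd)))))))))))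

theorem w229 : WinAt (69271552, 2181038144) :=
  chF (K := []) kn c229 69271552 2181038144 31
    [] (by decide +kernel) (by decide +kernel)

/-- A certificate. -/
noncomputable def c230 : Ct := (.str 15 (.nv (.thr 63 47 (.thr 0 42 (.thr 37 48 (.dbl 5 10 53)))) (.rp 63 (.str 30 (.nv (.thr 22 18 (.thr 20 23 (.thr 37 48 (.thr 52 7 (.thr 4 36 (.thr 53 5 (.dbl 55 38 54))))))) (.nv (.thr 29 28 (.thr 45 60 (.thr 61 13 (.thr 41 1 (.dbl 37 33 48))))) (.nv (.thr 22 18 (.thr 48 37 (.thr 60 45 (.thr 56 52 (.dbl 41 3 11))))) (.rp 48 (.thr 22 18 (.thr 20 23 (.thr 60 45 (.thr 0 40 (.thr 10 5 (.thr 3 41 (.thr 2 1 (.dbl 42 58 62)))))))) (.rp 37 (.thr 22 18 (.thr 20 23 (.thr 60 45 (.thr 0 40 (.thr 10 5 (.thr 42 58 (.thr 2 62 (.dbl 3 1 41)))))))) (.rp 33 (.thr 22 18 (.thr 60 45 (.thr 3 41 (.thr 37 48 (.dbl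 7 11 52))))) .nd))))))) (.rp 53 (.str 30 (.nv (.thr 22 18 (.thr 23 20 (.thr 37 48 (.thr 63 47 (.thr 3 43 (.dbl 7 11 52)))))) (.nv (.thr 29 28 (.thr 45 60 (.thr 61 13 (.thr 41 1 (.dbl 37 33 48))))) (.nv (.thr 22 18 (.thr 20 23 (.thr 60 45 (.thr 0 40 (.dbl 63 42 47))))) (.rp 20 (.thr 22 18 (.thr 63 47 (.thr 42 0 (.thr 62 2 (.dbl 60 45 61))))) .nd))))) (.rp 48 (.thr 63 47 (.thr 0 42 (.thr 5 10 (.str 14 (.nv (.thr 38 50 (.thr 55 4 (.thr 51 59 (.thr 25 12 (.dbl 17 29 34))))) (.nv (.thr 13 12 (.thr 1 9 (.thr 3 2 (.thr 11 7 (.dbl 41 56 61))))) (.nv (.thr 12 13 (.thr 38 50 (.dbl 4 8 55))) (.rp 37 (.str 32 (.nv (.thr 38 50 (.thr 55 4 (.thr 51 59 (.thr 25 12 (.dbl 17 29 34))))) (.nv (.thr 13 12 (.thr 1 9 (.thr 3 2 (.thr 11 7 (.dbl 41 56 61))))) (.nv (.thr 38 50 (.thr 4 55 (.dbl 12 8 13))) (.rp 12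 (.thr 38 50 (.thr 55 4 (.thr 51 59 (.thr 34 17 (.thr 35 33 (.thr 41 44 (.thr 1 61 (.dbl 3 2 19)))))))) .nd))))) (.rp 32 (.thr 37 53 (.thr 12 13 (.thr 4 8 (.dbl 38 50 55)))) (.rp 12 (.thr 38 50 (.thr 55 4 (.thr 51 59 (.thr 17 34 (.thr 25 29 (.thr 37 53 (.thr 13 49 (.thr 9 1 (.thr 57 41 (.thr 60 54 (.thr 62 61 (.dbl 30 45 46)))))))))))) .nd)))))))))) (.rp 47 (.str 30 (.nv (.thr 22 18 (.thr 20 23 (.thr 60 45 (.thr 0 40 (.thr 10 5 (.dbl 42 58 63)))))) (.nv (.thr 29 28 (.thr 45 60 (.thr 61 13 (.thr 41 1 (.dbl 37 33 48))))) (.nv (.thr 22 18 (.thr 60 45 (.thr 3 41 (.thr 37 48 (.dbl 7 11 52))))) (.rp 60 (.thr 22 18 (.thr 20 23 (.thr 37 48 (.thr 52 7 (.thr 4 36 (.thr 55 38 (.dbl 53 5 54))))))) (.rp 45 (.thr 22 18 (.thr 20 23 (.thr 37 48 (.thr 52 7 (.thr 4 36 (.thr 55 38 (.dbl 53 5 54))))))) (.rp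 44 (.thr 22 18 (.thr 37 48 (.thr 7 52 (.thr 3 11 (.dbl 60 41 45))))) .nd))))))) (.rp 42 (.str 30 (.nv (.thr 22 18 (.thr 23 20 (.thr 37 48 (.thr 63 47 (.thr 3 43 (.dbl 7 11 52)))))) (.nv (.thr 29 28 (.thr 45 60 (.thr 13 61 (.thr 12 14 (.dbl 63 46 47))))) (.nv (.thr 22 18 (.thr 37 48 (.thr 7 52 (.thr 60 45 (.dbl 3 11 41))))) .nd)))) (.rp 37 (.str 30 (.nv (.thr 22 18 (.thr 29 28 (.thr 63 47 (.thr 42 0 (.thr 62 2 (.dbl 46 12 14)))))) (.nv (.thr 29 28 (.thr 45 60 (.thr 13 61 (.thr 12 14 (.dbl 63 46 47))))) (.nv (.thr 22 18 (.thr 20 23 (.thr 60 45 (.thr 0 40 (.dbl 63 42 47))))) (.rp 63 (.thr 22 18 (.thr 20 23 (.thr 60 45 (.thr 0 40 (.thr 10 5 (.thr 42 58 (.thr 2 62 (.dbl 3 1 41)))))))) (.rp 47 (.thr 22 18 (.thr 20 23 (.thr 60 45 (.thr 0 40 (.thr 10 5 (.dbl 42 58 63)))))) (.rp 20 (.thr 22 18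 (.thr 63 47 (.thr 42 0 (.thr 62 2 (.dbl 60 45 61))))) .nd))))))) (.rp 10 (.str 14 (.nv (.thr 12 13 (.thr 63 47 (.thr 29 46 (.thr 38 50 (.dbl 25 17 51))))) (.nv (.thr 12 13 (.thr 38 50 (.thr 4 55 (.thr 63 47 (.dbl 0 8 42))))) (.rp 63 (.thr 13 12 (.thr 37 48 (.thr 25 49 (.thr 29 17 (.thr 30 28 (.dbl 45 60 61)))))) (.rp 50 (.thr 12 13 (.thr 63 47 (.thr 0 42 (.thr 4 8 (.thr 29 46 (.thr 25 17 (.dbl 38 51 55))))))) (.rp 47 (.thr 12 13 (.thr 38 50 (.thr 25 51 (.thr 29 17 (.thr 30 28 (.dbl 46 62 63)))))) (.rp 38 (.thr 13 12 (.thr 37 48 (.thr 25 49 (.thr 29 17 (.thr 30 28 (.dbl 45 60 61)))))) (.rp 13 (.thr 38 50 (.thr 63 47 (.thr 42 0 (.thr 46 34 (.thr 30 62 (.dbl 29 12 28)))))) (.rp 12 (.thr 50 38 (.thr 63 47 (.thr 42 0 (.thr 48 37 (.thr 58 53 (.thr 62 54 (.thr 22 2 (.dbl 30 18 46)))))))) .nd)))))))))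 (.rp 5 (.thr 63 47 (.thr 42 0 (.thr 58 10 (.dbl 48 37 53)))) (.rp 0 (.str 30 (.nv (.thr 29 28 (.thr 45 60 (.thr 13 61 (.thr 12 14 (.dbl 63 46 47))))) (.nv (.thr 48 37 (.thr 22 18 (.thr 60 45 (.thr 56 52 (.dbl 41 3 11))))) (.rp 60 (.thr 29 28 (.thr 25 17 (.thr 63 47 (.thr 12 46 (.thr 14 13 (.dbl 38 50 51)))))) (.rp 48 (.str 32 (.nv (.thr 22 18 (.thr 47 63 (.thr 37 42 (.thr 7 52 (.thr 3 11 (.dbl 60 41 45)))))) (.nv (.thr 29 28 (.thr 60 45 (.thr 63 47 (.thr 62 61 (.dbl 46 12 14))))) (.rp 63 (.thr 22 18 (.thr 28 29 (.thr 60 45 (.thr 12 44 (.thr 13 14 (.thr 3 41 (.thr 7 11 (.thr 37 52 (.dbl 25 19 49))))))))) (.rp 60 (.thr 29 28 (.thr 25 17 (.thr 63 47 (.thr 12 46 (.thr 14 13 (.dbl 38 50 51)))))) (.rp 47 (.thr 22 18 (.thr 23 20 (.thr 60 45 (.thr 3 41 (.thr 63 43 (.thr 62 61 (.thr 46 14 (.dbl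 29 12 28)))))))) (.rp 45 (.thr 22 18 (.thr 23 20 (.thr 63 47 (.thr 3 43 (.thr 11 7 (.dbl 41 56 60)))))) .nd))))))) (.rp 45 (.thr 22 18 (.thr 23 20 (.thr 63 47 (.thr 3 43 (.thr 11 7 (.dbl 41 56 60)))))) .nd)))))) .nd)))))))))))

theorem w230 : WinAt (2216689664, 134283328) :=
  chF (K := []) kn c230 2216689664 134283328 16
    [] (by decide +kernel) (by decide +kernel)

/-- A certificate. -/
noncomputable def c231 : Ct := (.str 0 (.nv (.thr 31 16 (.thr 63 42 (.thr 15 47 (.thr 37 48 (.dbl 5 10 53))))) (.nv (.thr 16 31 (.thr 48 32 (.thr 15 37 (.thr 42 63 (.dbl 10 5 58))))) (.rp 63 (.str 20 (.nv (.thr 16 31 (.thr 48 32 (.thr 60 40 (.thr 56 52 (.thr 41 11 (.dbl 22 3 23)))))) (.nv (.thr 22 23 (.thr 30 18 (.thr 60 40 (.thr 15 45 (.thr 5 10 (.dbl 37 48 53)))))) (.rp 60 (.thr 23 22 (.thr 31 16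 (.thr 27 19 (.thr 25 24 (.thr 17 29 (.thr 51 34 (.thr 15 39 (.thr 5 10 (.dbl 37 48 53))))))))) (.rp 48 (.thr 22 23 (.thr 30 18 (.thr 60 40 (.thr 15 45 (.thr 5 10 (.thr 3 41 (.thr 7 11 (.dbl 37 52 53)))))))) (.rp 40 (.thr 22 23 (.thr 16 31 (.thr 30 18 (.thr 48 32 (.thr 15 37 (.thr 60 45 (.thr 56 52 (.dbl 41 3 11)))))))) (.rp 30 (.thr 23 22 (.thr 31 16 (.thr 27 19 (.thr 25 24 (.thr 17 29 (.thr 51 34 (.thr 15 39 (.thr 5 10 (.dbl 37 48 53))))))))) (.rp 23 (.thr 16 31 (.thr 48 32 (.thr 60 40 (.thr 56 52 (.thr 41 11 (.thr 1 61 (.dbl 3 2 22))))))) (.rp 22 (.thr 16 31 (.thr 48 32 (.thr 60 40 (.thr 56 52 (.thr 41 11 (.thr 1 61 (.thr 3 2 (.thr 33 18 (.dbl 37 15 45))))))))) (.rp 15 (.thr 22 23 (.thr 18 30 (.thr 60 40 (.thr 3 41 (.thr 48 33 (.dbl 16 31 32)))))) (.rp 3 (.thr 16 31 (.thr 48 32 (.thr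 15 37 (.thr 60 40 (.thr 30 45 (.dbl 22 18 23)))))) .nd))))))))))) (.rp 48 (.str 20 (.nv (.thr 22 23 (.thr 30 18 (.thr 31 16 (.thr 60 40 (.thr 15 45 (.dbl 63 42 47)))))) (.nv (.thr 22 23 (.thr 60 40 (.thr 3 41 (.thr 2 1 (.dbl 42 62 63))))) (.rp 63 (.thr 22 23 (.thr 30 18 (.thr 60 40 (.thr 15 45 (.thr 5 10 (.thr 3 41 (.thr 7 11 (.dbl 37 52 53)))))))) (.rp 60 (.thr 22 23 (.thr 30 18 (.thr 42 63 (.thr 62 2 (.thr 14 46 (.thr 50 38 (.dbl 58 10 54))))))) (.rp 42 (.thr 22 23 (.thr 31 16 (.thr 30 18 (.thr 60 40 (.thr 15 45 (.thr 63 47 (.thr 61 62 (.dbl 41 1 3)))))))) (.rp 40 (.thr 22 23 (.thr 30 18 (.thr 42 63 (.thr 62 2 (.thr 14 46 (.thr 50 38 (.dbl 58 10 54))))))) (.rp 23 (.thr 31 16 (.thr 60 40 (.thr 63 42 (.thr 61 62 (.thr 15 47 (.thr 30 45 (.thr 22 18 (.dbl 41 1 3)))))))) (.rp 22 (.thr 40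 60 (.thr 42 63 (.thr 58 10 (.thr 41 43 (.thr 56 11 (.thr 59 57 (.dbl 8 24 25))))))) (.rp 3 (.thr 22 23 (.thr 31 16 (.thr 60 40 (.thr 63 42 (.thr 15 47 (.dbl 30 18 45)))))) .nd)))))))))) (.rp 42 (.str 20 (.nv (.thr 16 31 (.thr 48 32 (.thr 60 40 (.thr 56 52 (.thr 41 11 (.thr 1 61 (.dbl 3 2 22))))))) (.nv (.thr 22 23 (.thr 30 18 (.thr 60 40 (.thr 15 45 (.thr 5 10 (.dbl 37 48 53)))))) (.nv (.thr 16 31 (.thr 22 23 (.thr 48 32 (.thr 37 15 (.thr 52 7 (.thr 4 36 (.thr 53 5 (.dbl 55 38 54)))))))) (.nv (.thr 22 23 (.thr 60 40 (.thr 41 3 (.thr 56 11 (.thr 48 52 (.dbl 16 31 32)))))) (.nv (.thr 22 23 (.thr 16 31 (.thr 30 18 (.thr 60 40 (.thr 15 45 (.dbl 48 32 37)))))) (.rp 48 (.thr 22 23 (.thr 31 16 (.thr 30 18 (.thr 60 40 (.thr 15 45 (.thr 63 47 (.thr 61 62 (.dbl 41 1 3)))))))) (.rp 40 (.thr 23 22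 (.thr 31 16 (.thr 27 19 (.thr 25 24 (.thr 17 29 (.thr 51 34 (.thr 15 39 (.thr 5 10 (.dbl 37 48 53))))))))) (.rp 22 (.thr 16 31 (.thr 48 32 (.thr 37 15 (.thr 53 5 (.thr 63 58 (.thr 60 40 (.thr 56 52 (.thr 41 11 (.dbl 61 1 62))))))))) .nd))))))))) (.rp 37 (.str 20 (.nv (.thr 16 31 (.thr 22 23 (.thr 42 63 (.thr 2 62 (.thr 3 1 (.thr 48 32 (.dbl 18 30 33))))))) (.nv (.thr 16 31 (.thr 22 23 (.thr 48 32 (.thr 60 40 (.thr 56 52 (.dbl 41 3 11)))))) (.nv (.thr 22 23 (.thr 42 63 (.thr 2 62 (.thr 60 40 (.dbl 3 1 41))))) (.rp 60 (.thr 22 23 (.thr 30 18 (.thr 42 63 (.thr 62 2 (.thr 14 46 (.thr 50 38 (.dbl 58 10 54))))))) (.rp 42 (.thr 22 23 (.thr 16 31 (.thr 60 40 (.thr 41 3 (.thr 56 11 (.dbl 48 32 52)))))) (.rp 23 (.thr 16 31 (.thr 48 32 (.thr 60 40 (.thr 56 52 (.thr 41 11 (.thr 1 61 (.dbl 3 2 22)))))))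 (.rp 22 (.thr 40 60 (.thr 42 63 (.thr 58 10 (.thr 41 43 (.thr 56 11 (.thr 59 57 (.dbl 8 24 25))))))) (.rp 3 (.thr 22 23 (.thr 31 16 (.thr 30 18 (.thr 60 40 (.thr 15 45 (.dbl 63 42 47)))))) .nd))))))))) (.rp 31 (.str 30 (.nv (.thr 22 18 (.thr 20 23 (.thr 60 40 (.thr 15 45 (.thr 37 48 (.dbl 5 10 53)))))) (.nv (.thr 22 18 (.thr 42 63 (.thr 58 10 (.thr 62 2 (.thr 14 46 (.dbl 50 38 54)))))) (.nv (.thr 22 18 (.thr 20 23 (.thr 60 40 (.thr 3 41 (.thr 2 1 (.dbl 42 62 63)))))) (.rp 22 (.thr 42 63 (.thr 10 58 (.thr 15 5 (.thr 48 37 (.thr 60 45 (.thr 40 20 (.thr 41 43 (.dbl 56 11 52)))))))) (.rp 18 (.thr 42 63 (.thr 10 58 (.thr 15 5 (.thr 48 37 (.thr 60 45 (.thr 56 52 (.thr 41 11 (.dbl 40 20 43)))))))) .nd)))))) (.rp 16 (.str 20 (.nv (.thr 22 23 (.thr 30 18 (.thr 42 63 (.thr 58 10 (.thr 62 2 (.thr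 14 46 (.dbl 50 38 54))))))) (.nv (.thr 22 23 (.thr 30 18 (.thr 60 40 (.thr 15 45 (.thr 5 10 (.dbl 37 48 53)))))) (.nv (.thr 22 23 (.thr 60 40 (.thr 3 41 (.thr 42 63 (.dbl 2 1 62))))) (.rp 23 (.thr 60 40 (.thr 63 42 (.thr 61 62 (.thr 41 1 (.thr 56 11 (.thr 48 52 (.thr 53 58 (.dbl 37 5 15)))))))) (.rp 22 (.thr 40 60 (.thr 42 63 (.thr 58 10 (.thr 41 43 (.thr 56 11 (.thr 59 57 (.dbl 8 24 25))))))) (.rp 2 (.thr 22 23 (.thr 60 40 (.thr 41 3 (.thr 61 1 (.dbl 63 42 62))))) .nd))))))) (.rp 15 (.str 20 (.nv (.thr 16 31 (.thr 48 32 (.thr 60 40 (.thr 56 52 (.thr 41 11 (.thr 61 1 (.dbl 63 42 62))))))) (.nv (.thr 16 31 (.thr 22 23 (.thr 48 32 (.thr 60 40 (.thr 56 52 (.dbl 41 3 11)))))) (.nv (.thr 22 23 (.thr 60 40 (.thr 3 41 (.thr 2 1 (.dbl 42 62 63))))) (.rp 63 (.thr 22 23 (.thr 18 30 (.thr 60 40 (.thr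 3 41 (.thr 48 33 (.dbl 16 31 32)))))) (.rp 60 (.thr 22 23 (.thr 30 18 (.thr 42 63 (.thr 62 2 (.thr 14 46 (.thr 50 38 (.dbl 58 10 54))))))) (.rp 41 (.thr 22 23 (.thr 18 30 (.thr 42 63 (.thr 2 62 (.thr 3 1 (.thr 48 33 (.dbl 16 31 32))))))) (.rp 40 (.thr 22 23 (.thr 18 30 (.thr 42 63 (.thr 2 62 (.thr 3 1 (.thr 48 33 (.dbl 16 31 32))))))) (.rp 3 (.thr 16 31 (.thr 48 32 (.thr 60 40 (.thr 56 52 (.thr 63 42 (.thr 61 62 (.dbl 41 1 11))))))) .nd))))))))) (.rp 10 (.thr 16 31 (.thr 48 32 (.thr 37 15 (.thr 53 5 (.dbl 63 42 58))))) (.rp 5 (.str 4 (.nv (.thr 12 8 (.thr 16 31 (.thr 38 55 (.thr 14 50 (.thr 15 13 (.dbl 48 32 37)))))) (.nv (.thr 12 8 (.thr 38 55 (.thr 25 51 (.thr 63 42 (.dbl 29 17 46))))) (.rp 55 (.thr 16 31 (.thr 12 8 (.thr 48 32 (.thr 24 36 (.thr 25 27 (.thr 29 17 (.dbl 63 42 46)))))))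 (.rp 38 (.thr 16 31 (.thr 12 8 (.thr 48 32 (.thr 24 36 (.thr 25 27 (.thr 29 17 (.dbl 63 42 46))))))) (.rp 29 (.thr 12 8 (.thr 38 55 (.thr 51 25 (.thr 34 17 (.dbl 42 46 63))))) (.rp 12 (.thr 16 31 (.thr 38 55 (.thr 50 14 (.thr 48 32 (.thr 51 49 (.thr 34 17 (.dbl 42 46 63))))))) (.rp 8 (.thr 16 31 (.thr 38 55 (.thr 50 14 (.thr 48 32 (.thr 51 49 (.thr 25 12 (.dbl 17 29 34))))))) .nd)))))))) .nd))))))))))))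

theorem w231 : WinAt (69206016, 268435520) :=
  chF (K := []) kn c231 69206016 268435520 28
    [] (by decide +kernel) (by decide +kernel)

end Pool.Agent.TTT.B43
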