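import Pool.Agent.TTT.B43

/-!
Certified forced wins in positions of the 4 x 4 x 4 board.
-/

set_option autoImplicit false
set_option maxRecDepth 1000000
set_option linter.all false

namespace Pool.Agent.TTT.B43

/-- A certificate. -/
noncomputable def c152 : Ct := (.str 25 (.rp 63 (.str 3 (.nv (.thr 22 60 (.thr 20 23 (.thr 28 19 (.thr 16 24 (.thr 29 17 (.dbl 31 26 30)))))) (.nv (.thr 9 57 (.thr 12 6 (.thr 51 38 (.thr 19 35 (.dbl 22 28 60))))) (.rp 60 (.thr 9 57 (.thr 17 29 (.thr 12 6 (.thr 51 38 (.thr 19 35 (.thr 16 18 (.thr 31 26 (.thr 23 27 (.dbl 22 20 28))))))))) (.rp 28 (.thr 57 9 (.thr 60 22 (.thr 51 54 (.thr 35 19 (.dbl 38 12 44))))) (.rp 22 (.str 42 (.nv (.thr 8 59 (.thr 9 57 (.thr 12 6 (.thr 4 0 (.dbl 38 51 55))))) (.nv (.thr 43 40 (.thr 59 8 (.thr 11 27 (.thr 57 9 (.dbl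 56 26 58))))) (.rp 59 (.thr 9 57 (.thr 43 40 (.thr 12 6 (.thr 38 51 (.thr 55 4 (.thr 34 46 (.thr 35 44 (.thr 47 39 (.dbl 32 33 37))))))))) (.rp 58 (.thr 9 57 (.thr 40 43 (.thr 8 59 (.thr 56 24 (.dbl 11 10 26))))) (.rp 57 (.thr 8 59 (.thr 40 43 (.thr 56 24 (.thr 11 26 (.thr 15 7 (.thr 9 10 (.thr 12 6 (.thr 14 13 (.thr 4 0 (.dbl 38 51 55)))))))))) (.rp 56 (.thr 9 57 (.thr 43 40 (.thr 12 6 (.thr 38 51 (.thr 34 46 (.thr 35 44 (.thr 47 39 (.dbl 32 33 37)))))))) (.rp 9 (.str 5 (.nv (.thr 43 40 (.thr 59 8 (.thr 11 27 (.thr 15 7 (.thr 10 0 (.dbl 26 56 58)))))) (.nv (.thr 37 53 (.thr 32 47 (.thr 33 45 (.thr 35 34 (.thr 51 19 (.dbl 38 12 44)))))) (.nv (.thr 43 40 (.thr 59 8 (.thr 11 27 (.thr 15 7 (.thr 37 53 (.dbl 26 48 56)))))) (.rp 58 (.thr 59 8 (.thr 43 40 (.thr 11 27 (.thr 15 7 (.thr 37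 53 (.thr 48 26 (.dbl 33 18 45))))))) (.rp 37 (.thr 59 8 (.thr 43 40 (.thr 11 27 (.thr 7 15 (.thr 4 6 (.thr 38 55 (.thr 51 12 (.dbl 35 19 44)))))))) (.rp 15 (.thr 37 53 (.thr 45 33 (.thr 47 32 (.thr 43 40 (.thr 35 39 (.dbl 44 38 46)))))) .nd))))))) (.rp 8 (.thr 9 57 (.thr 43 40 (.thr 12 6 (.thr 38 51 (.thr 34 46 (.thr 35 44 (.thr 47 39 (.dbl 32 33 37)))))))) .nd))))))))) (.rp 19 (.thr 9 57 (.thr 12 6 (.thr 38 51 (.thr 44 35 (.dbl 60 22 28))))) .nd))))))) (.rp 62 (.thr 17 29 (.thr 9 57 (.str 22 (.nv (.thr 3 60 (.thr 12 6 (.thr 51 38 (.dbl 19 28 35)))) (.nv (.thr 3 60 (.thr 12 6 (.thr 51 38 (.thr 0 34 (.thr 8 4 (.dbl 42 59 63)))))) (.nv (.thr 23 20 (.thr 19 28 (.thr 31 27 (.dbl 16 18 26)))) (.rp 3 (.str 0 (.nv (.thr 51 34 (.thr 12 38 (.thr 8 4 (.dbl 42 59 63)))) (.nv (.thr 19 28 (.thr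 16 18 (.thr 23 20 (.dbl 31 26 27)))) (.nv (.thr 20 23 (.thr 40 60 (.dbl 42 43 63))) .nd)))) .nd))))))) (.rp 61 (.str 0 (.nv (.thr 9 57 (.thr 42 63 (.thr 40 43 (.thr 60 20 (.thr 3 22 (.thr 12 6 (.dbl 8 4 59))))))) (.nv (.thr 17 29 (.thr 51 34 (.thr 57 9 (.thr 60 54 (.thr 20 40 (.dbl 22 3 23)))))) (.nv (.thr 42 63 (.thr 8 59 (.thr 12 4 (.thr 51 38 (.dbl 17 29 34))))) (.rp 60 (.thr 17 29 (.thr 51 34 (.thr 12 38 (.thr 8 4 (.dbl 42 59 63))))) .nd))))) (.rp 60 (.str 0 (.nv (.thr 42 63 (.thr 43 40 (.thr 57 9 (.thr 59 8 (.thr 11 27 (.dbl 56 26 58)))))) (.nv (.thr 17 29 (.thr 51 34 (.thr 12 38 (.thr 8 4 (.dbl 42 59 63))))) (.rp 63 (.thr 17 29 (.thr 9 57 (.thr 51 34 (.thr 12 38 (.thr 8 4 (.thr 11 10 (.thr 56 26 (.thr 40 24 (.dbl 42 43 59))))))))) (.rp 59 (.thr 29 17 (.thr 63 42 (.thr 12 46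 (.thr 4 8 (.dbl 38 51 55))))) (.rp 42 (.str 22 (.nv (.thr 17 29 (.thr 19 28 (.thr 51 34 (.thr 35 3 (.dbl 38 12 44))))) (.nv (.thr 20 23 (.thr 28 19 (.thr 16 24 (.thr 29 17 (.dbl 31 26 30))))) (.rp 31 (.thr 17 29 (.thr 20 23 (.thr 51 34 (.thr 38 12 (.thr 6 54 (.thr 4 55 (.thr 52 36 (.dbl 7 5 37)))))))) (.rp 30 (.thr 17 29 (.thr 23 20 (.thr 19 28 (.thr 31 27 (.dbl 16 18 26))))) (.rp 29 (.thr 19 28 (.thr 23 20 (.thr 31 27 (.thr 16 26 (.thr 48 32 (.thr 17 18 (.thr 51 34 (.thr 50 49 (.thr 35 3 (.dbl 38 12 44)))))))))) (.rp 28 (.thr 17 29 (.thr 20 23 (.thr 51 34 (.thr 38 12 (.thr 44 35 (.thr 6 54 (.thr 4 55 (.thr 52 36 (.dbl 7 5 37))))))))) (.rp 19 (.thr 17 29 (.thr 20 23 (.thr 51 34 (.thr 38 12 (.thr 6 54 (.thr 4 55 (.thr 52 36 (.dbl 7 5 37)))))))) (.rp 17 (.str 33 (.nv (.thr 20 23 (.thr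 28 19 (.thr 16 24 (.thr 48 32 (.thr 18 3 (.dbl 26 30 31)))))) (.nv (.thr 37 45 (.thr 5 53 (.thr 7 52 (.thr 4 6 (.thr 12 8 (.dbl 38 51 55)))))) (.nv (.thr 20 23 (.thr 28 19 (.thr 16 24 (.thr 48 32 (.thr 37 45 (.dbl 26 15 31)))))) (.rp 48 (.thr 37 45 (.thr 53 5 (.thr 52 7 (.thr 20 23 (.thr 4 36 (.dbl 55 38 54)))))) (.rp 37 (.thr 28 19 (.thr 20 23 (.thr 16 24 (.thr 32 48 (.thr 35 34 (.thr 38 44 (.thr 12 51 (.dbl 4 8 55)))))))) (.rp 30 (.thr 28 19 (.thr 20 23 (.thr 16 24 (.thr 48 32 (.thr 37 45 (.thr 15 26 (.dbl 5 10 53))))))) .nd))))))) .nd))))))))) (.rp 8 (.thr 17 29 (.thr 51 34 (.thr 38 12 (.thr 55 4 (.dbl 63 42 59))))) .nd))))))) (.rp 59 (.str 3 (.nv (.thr 9 57 (.thr 12 6 (.thr 29 17 (.thr 63 46 (.thr 42 0 (.dbl 43 23 40)))))) (.nv (.thr 22 60 (.thr 20 23 (.thr 28 19 (.thr 16 24 (.thr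 29 17 (.dbl 31 26 30)))))) (.nv (.thr 22 60 (.thr 19 28 (.thr 51 35 (.thr 12 38 (.dbl 9 6 57))))) .nd)))) (.rp 58 (.str 3 (.nv (.thr 9 57 (.thr 12 6 (.thr 29 17 (.thr 63 46 (.thr 42 0 (.dbl 43 23 40)))))) (.nv (.thr 22 60 (.thr 20 23 (.thr 28 19 (.thr 16 24 (.thr 29 17 (.dbl 31 26 30)))))) (.nv (.thr 22 60 (.thr 19 28 (.thr 51 35 (.thr 12 38 (.dbl 9 6 57))))) .nd)))) (.rp 57 (.str 0 (.nv (.thr 42 63 (.thr 8 59 (.thr 12 4 (.thr 40 43 (.thr 60 20 (.thr 28 44 (.dbl 22 3 19))))))) (.nv (.thr 17 29 (.thr 51 34 (.thr 12 38 (.thr 42 63 (.dbl 8 4 59))))) (.rp 63 (.thr 17 29 (.thr 51 34 (.thr 12 38 (.thr 8 4 (.thr 42 59 (.thr 40 43 (.thr 60 20 (.thr 28 44 (.dbl 22 3 19))))))))) (.rp 59 (.thr 29 17 (.thr 63 42 (.thr 12 46 (.thr 4 8 (.dbl 38 51 55))))) (.rp 51 (.thr 29 17 (.thr 63 42 (.thr 12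 46 (.thr 4 8 (.thr 38 55 (.thr 44 35 (.thr 60 28 (.thr 20 40 (.dbl 22 3 23))))))))) (.rp 42 (.thr 17 29 (.thr 51 34 (.thr 38 12 (.thr 55 4 (.thr 63 59 (.thr 35 44 (.thr 3 19 (.thr 23 43 (.dbl 22 20 60))))))))) (.rp 12 (.thr 42 63 (.thr 8 59 (.thr 40 43 (.thr 60 20 (.thr 56 24 (.thr 48 52 (.thr 16 32 (.dbl 26 11 31)))))))) (.rp 8 (.thr 17 29 (.thr 51 34 (.thr 38 12 (.thr 55 4 (.dbl 63 42 59))))) (.rp 4 (.thr 17 29 (.thr 51 34 (.thr 12 38 (.thr 42 63 (.thr 40 43 (.thr 60 20 (.thr 28 44 (.dbl 22 3 19)))))))) .nd)))))))))) (.rp 56 (.str 0 (.nv (.thr 17 29 (.thr 51 34 (.thr 57 9 (.thr 60 54 (.thr 20 40 (.dbl 22 3 23)))))) (.nv (.thr 9 57 (.thr 42 63 (.thr 40 43 (.thr 60 20 (.thr 3 22 (.thr 12 6 (.dbl 8 4 59))))))) (.nv (.thr 42 63 (.thr 40 43 (.thr 57 9 (.thr 60 20 (.thr 51 54 (.dbl 17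 29 34)))))) (.nv (.thr 17 29 (.thr 51 34 (.thr 12 38 (.thr 42 63 (.dbl 8 4 59))))) .nd))))) (.rp 55 (.str 3 (.nv (.thr 9 57 (.thr 12 6 (.thr 29 17 (.thr 63 46 (.thr 42 0 (.dbl 43 23 40)))))) (.nv (.thr 22 60 (.thr 20 23 (.thr 28 19 (.thr 16 24 (.thr 29 17 (.dbl 31 26 30)))))) (.nv (.thr 22 60 (.thr 19 28 (.thr 9 57 (.thr 51 35 (.dbl 12 6 38))))) .nd)))) (.rp 54 (.str 0 (.nv (.thr 9 57 (.thr 17 29 (.thr 51 34 (.thr 12 38 (.thr 3 6 (.thr 22 60 (.dbl 19 28 35))))))) (.nv (.thr 42 63 (.thr 43 40 (.thr 57 9 (.thr 59 8 (.thr 11 27 (.dbl 56 26 58)))))) (.nv (.thr 42 63 (.thr 8 59 (.thr 12 4 (.thr 17 29 (.dbl 51 34 38))))) (.rp 42 (.thr 17 29 (.thr 51 34 (.thr 38 12 (.thr 55 4 (.thr 63 59 (.thr 35 44 (.thr 3 19 (.thr 23 43 (.dbl 22 20 60))))))))) .nd))))) (.rp 53 (.str 0 (.nv (.thr 17 29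 (.thr 51 34 (.thr 57 9 (.thr 60 54 (.thr 20 40 (.dbl 22 3 23)))))) (.nv (.thr 9 57 (.thr 42 63 (.thr 8 59 (.thr 11 10 (.thr 40 43 (.dbl 56 24 26)))))) (.nv (.thr 17 29 (.thr 51 34 (.thr 12 38 (.thr 8 4 (.dbl 42 59 63))))) (.rp 51 (.thr 57 9 (.thr 42 63 (.thr 59 8 (.thr 43 40 (.thr 11 27 (.dbl 56 26 58)))))) .nd))))) (.rp 52 (.str 0 (.nv (.thr 17 29 (.thr 51 34 (.thr 57 9 (.thr 60 54 (.thr 20 40 (.dbl 22 3 23)))))) (.nv (.thr 9 57 (.thr 42 63 (.thr 8 59 (.thr 11 10 (.thr 40 43 (.dbl 56 24 26)))))) (.nv (.thr 17 29 (.thr 51 34 (.thr 12 38 (.thr 42 63 (.dbl 8 4 59))))) (.rp 51 (.thr 57 9 (.thr 42 63 (.thr 59 8 (.thr 56 58 (.thr 11 26 (.dbl 43 27 40)))))) .nd))))) (.rp 51 (.thr 17 29 (.str 19 (.nv (.thr 22 28 (.thr 23 20 (.thr 31 27 (.dbl 16 18 26)))) (.nv (.thr 16 18 (.thr 31 26 (.thr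 22 28 (.dbl 23 20 27)))) (.rp 31 (.thr 57 9 (.thr 16 18 (.thr 28 22 (.thr 24 20 (.thr 26 27 (.thr 56 11 (.thr 8 40 (.dbl 59 42 58)))))))) (.rp 28 (.thr 16 18 (.thr 31 26 (.thr 23 27 (.thr 22 20 (.thr 3 60 (.thr 63 43 (.thr 15 47 (.thr 11 7 (.thr 0 42 (.thr 10 5 (.dbl 9 8 57))))))))))) (.rp 27 (.thr 57 9 (.thr 16 18 (.thr 26 31 (.thr 56 11 (.thr 28 22 (.thr 24 20 (.thr 8 40 (.dbl 59 42 58)))))))) (.rp 26 (.thr 57 9 (.thr 16 18 (.thr 22 28 (.thr 20 23 (.thr 60 3 (.thr 0 40 (.thr 48 32 (.thr 56 52 (.thr 59 58 (.dbl 42 8 63)))))))))) (.rp 23 (.thr 16 18 (.thr 26 31 (.thr 24 27 (.dbl 28 20 22)))) (.rp 22 (.thr 57 9 (.thr 16 18 (.thr 26 31 (.thr 24 27 (.thr 56 11 (.thr 8 40 (.dbl 59 42 58))))))) (.rp 20 (.thr 57 9 (.thr 16 18 (.thr 26 31 (.thr 24 27 (.thr 56 11 (.thr 8 40 (.dbl 59 42 58)))))))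 (.rp 18 (.thr 22 28 (.thr 23 20 (.thr 31 27 (.thr 3 60 (.thr 63 43 (.thr 15 47 (.thr 11 7 (.dbl 26 16 56)))))))) (.rp 16 (.thr 57 9 (.thr 22 28 (.thr 20 23 (.thr 60 3 (.thr 0 40 (.thr 63 42 (.thr 61 62 (.thr 53 49 (.thr 48 58 (.thr 52 56 (.dbl 37 5 7))))))))))) (.rp 3 (.str 0 (.nv (.thr 9 57 (.thr 16 18 (.thr 26 31 (.thr 11 56 (.thr 8 10 (.dbl 42 59 63)))))) (.nv (.thr 22 28 (.thr 20 23 (.thr 40 60 (.dbl 42 43 63)))) (.nv (.thr 16 18 (.thr 22 28 (.thr 31 26 (.dbl 23 20 27)))) (.rp 31 (.thr 28 22 (.thr 16 18 (.thr 20 24 (.thr 40 60 (.dbl 42 43 63))))) (.rp 28 (.thr 57 9 (.thr 16 18 (.thr 42 63 (.thr 59 8 (.thr 56 58 (.dbl 26 11 31)))))) .nd)))))) (.rp 0 (.str 3 (.nv (.dbl 22 28 60) (.rp 60 (.thr 16 18 (.thr 31 26 (.thr 23 27 (.dbl 22 20 28)))) (.rp 28 (.thr 16 18 (.thr 31 26 (.thr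 23 27 (.dbl 22 20 60)))) (.rp 22 (.thr 57 9 (.thr 16 18 (.thr 26 31 (.thr 24 27 (.thr 56 11 (.thr 8 40 (.dbl 59 42 58))))))) .nd))))) .nd))))))))))))))) (.rp 50 (.thr 9 57 (.str 3 (.nv (.thr 12 6 (.thr 29 17 (.thr 63 46 (.thr 43 23 (.dbl 42 0 40))))) (.nv (.thr 22 60 (.thr 19 28 (.thr 51 35 (.dbl 12 6 38)))) (.rp 34 (.str 18 (.nv (.thr 12 6 (.thr 17 29 (.thr 19 16 (.dbl 51 35 38)))) (.nv (.thr 12 6 (.thr 22 60 (.thr 26 30 (.thr 24 27 (.dbl 48 33 36))))) (.nv (.thr 17 29 (.thr 19 16 (.dbl 22 28 60))) .nd)))) (.rp 18 (.str 34 (.nv (.thr 17 29 (.thr 22 60 (.thr 51 0 (.dbl 19 28 35)))) (.nv (.thr 12 6 (.thr 22 60 (.thr 19 28 (.dbl 51 35 38)))) (.nv (.thr 17 29 (.thr 51 0 (.dbl 12 6 38))) (.rp 51 (.thr 29 17 (.thr 12 6 (.thr 63 46 (.thr 43 23 (.dbl 42 0 40))))) .nd))))) (.rp 12 (.thr 29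 17 (.thr 22 60 (.thr 28 19 (.thr 31 30 (.thr 16 26 (.dbl 20 23 24)))))) (.rp 6 (.thr 17 29 (.thr 22 60 (.thr 19 28 (.thr 23 20 (.thr 31 27 (.dbl 16 18 26)))))) .nd)))))))) (.rp 49 (.thr 17 29 (.str 3 (.nv (.thr 9 57 (.thr 12 6 (.thr 51 38 (.thr 0 34 (.thr 8 4 (.dbl 42 59 63)))))) (.nv (.thr 22 60 (.thr 23 20 (.thr 19 28 (.thr 31 27 (.dbl 16 18 26))))) (.nv (.thr 22 60 (.thr 19 28 (.thr 51 35 (.thr 12 38 (.dbl 9 6 57))))) (.rp 22 (.thr 9 57 (.thr 12 6 (.thr 38 51 (.thr 44 35 (.thr 60 28 (.thr 4 55 (.thr 0 8 (.thr 40 20 (.dbl 42 43 63))))))))) (.rp 12 (.thr 57 9 (.thr 60 22 (.thr 51 54 (.thr 0 34 (.thr 40 20 (.dbl 42 43 63)))))) .nd))))))) (.rp 48 (.str 0 (.nv (.thr 17 29 (.thr 51 34 (.thr 57 9 (.thr 60 54 (.thr 20 40 (.dbl 22 3 23)))))) (.nv (.thr 9 57 (.thr 42 63 (.thr 8 59 (.thr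 11 10 (.thr 40 43 (.dbl 56 24 26)))))) (.nv (.thr 17 29 (.thr 51 34 (.thr 12 38 (.thr 8 4 (.dbl 42 59 63))))) (.rp 51 (.thr 57 9 (.thr 42 63 (.thr 59 8 (.thr 43 40 (.thr 11 27 (.dbl 56 26 58)))))) .nd))))) (.rp 47 (.str 3 (.nv (.thr 9 57 (.thr 12 6 (.thr 29 17 (.thr 63 46 (.thr 42 0 (.dbl 43 23 40)))))) (.nv (.thr 22 60 (.thr 20 23 (.thr 28 19 (.thr 16 24 (.thr 29 17 (.dbl 31 26 30)))))) (.nv (.thr 9 57 (.thr 12 6 (.thr 22 60 (.thr 51 38 (.dbl 19 28 35))))) .nd)))) (.rp 46 (.str 3 (.nv (.thr 9 57 (.thr 12 6 (.thr 17 29 (.thr 51 38 (.thr 0 34 (.thr 42 63 (.dbl 8 4 59))))))) (.nv (.thr 22 60 (.thr 20 23 (.thr 28 19 (.thr 16 24 (.thr 29 17 (.dbl 31 26 30)))))) (.nv (.thr 22 60 (.thr 19 28 (.thr 9 57 (.thr 51 35 (.dbl 12 6 38))))) (.rp 22 (.thr 9 57 (.thr 12 6 (.thr 38 51 (.thr 44 35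 (.thr 60 28 (.thr 4 55 (.thr 0 8 (.thr 40 20 (.dbl 42 43 63))))))))) .nd))))) (.rp 45 (.str 3 (.nv (.thr 9 57 (.thr 12 6 (.thr 29 17 (.thr 63 46 (.thr 42 0 (.dbl 43 23 40)))))) (.nv (.thr 22 60 (.thr 20 23 (.thr 28 19 (.thr 16 24 (.thr 29 17 (.dbl 31 26 30)))))) (.nv (.thr 9 57 (.thr 12 6 (.thr 51 38 (.thr 19 35 (.dbl 22 28 60))))) .nd)))) (.rp 44 (.str 0 (.nv (.thr 9 57 (.thr 42 63 (.thr 40 43 (.thr 60 20 (.thr 3 22 (.thr 12 6 (.dbl 8 4 59))))))) (.nv (.thr 17 29 (.thr 51 34 (.thr 57 9 (.thr 60 54 (.thr 20 40 (.dbl 22 3 23)))))) (.nv (.thr 42 63 (.thr 8 59 (.thr 12 4 (.thr 17 29 (.dbl 51 34 38))))) .nd)))) (.rp 43 (.str 3 (.nv (.thr 9 57 (.thr 12 6 (.thr 29 17 (.thr 63 46 (.thr 42 0 (.thr 59 8 (.dbl 51 38 55))))))) (.nv (.thr 22 60 (.thr 20 23 (.thr 28 19 (.thr 16 24 (.thr 29 17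 (.dbl 31 26 30)))))) (.nv (.thr 9 57 (.thr 12 6 (.thr 51 38 (.thr 22 60 (.dbl 19 28 35))))) .nd)))) (.rp 42 (.thr 9 57 (.thr 17 29 (.str 22 (.nv (.thr 3 60 (.thr 12 6 (.thr 51 38 (.dbl 19 28 35)))) (.nv (.thr 23 20 (.thr 19 28 (.thr 31 27 (.dbl 16 18 26)))) (.rp 28 (.thr 3 60 (.thr 12 6 (.thr 23 20 (.thr 51 38 (.thr 19 35 (.thr 16 18 (.dbl 31 26 27))))))) (.rp 19 (.thr 20 23 (.thr 60 3 (.thr 0 40 (.thr 51 34 (.thr 38 12 (.thr 6 54 (.thr 4 55 (.thr 52 36 (.dbl 7 5 37))))))))) (.rp 3 (.str 0 (.nv (.thr 20 23 (.thr 28 19 (.thr 60 40 (.thr 12 44 (.dbl 51 34 38))))) (.nv (.thr 23 20 (.thr 19 28 (.thr 31 27 (.dbl 16 18 26)))) (.rp 31 (.thr 20 23 (.thr 40 60 (.thr 51 34 (.thr 38 12 (.thr 44 35 (.thr 4 55 (.dbl 36 32 52))))))) (.rp 28 (.thr 20 23 (.thr 40 60 (.thr 51 34 (.thr 38 12 (.thr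 44 35 (.thr 4 55 (.dbl 36 32 52))))))) (.rp 27 (.thr 19 28 (.thr 16 18 (.thr 48 32 (.thr 20 23 (.thr 60 40 (.thr 56 52 (.dbl 26 11 31))))))) (.rp 23 (.thr 19 28 (.thr 16 18 (.thr 48 32 (.thr 51 34 (.thr 50 49 (.thr 38 12 (.dbl 26 14 31))))))) (.rp 20 (.thr 19 28 (.thr 16 18 (.thr 48 32 (.thr 51 34 (.thr 50 49 (.thr 38 12 (.dbl 26 14 31))))))) (.rp 19 (.thr 20 23 (.thr 40 60 (.thr 51 34 (.thr 38 12 (.thr 44 35 (.thr 4 55 (.dbl 36 32 52))))))) .nd))))))))) .nd)))))))) (.rp 40 (.str 0 (.nv (.thr 9 57 (.thr 17 29 (.thr 51 34 (.thr 12 38 (.thr 3 6 (.thr 19 35 (.dbl 22 28 60))))))) (.nv (.thr 42 63 (.thr 8 59 (.thr 12 4 (.thr 17 29 (.dbl 51 34 38))))) (.rp 51 (.thr 29 17 (.thr 9 57 (.thr 63 42 (.thr 12 46 (.thr 3 6 (.thr 23 43 (.dbl 22 20 60))))))) (.rp 42 (.thr 17 29 (.thr 57 9 (.thr 51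 34 (.thr 60 54 (.thr 22 3 (.thr 28 19 (.dbl 12 38 44))))))) (.rp 38 (.thr 17 29 (.thr 9 57 (.thr 51 34 (.thr 42 63 (.thr 8 59 (.thr 12 4 (.thr 3 6 (.thr 19 35 (.dbl 22 28 60))))))))) (.rp 34 (.thr 29 17 (.thr 63 42 (.thr 12 46 (.thr 38 51 (.dbl 4 8 55))))) (.rp 29 (.thr 9 57 (.thr 42 63 (.thr 8 59 (.thr 12 4 (.thr 3 6 (.thr 60 22 (.thr 44 28 (.dbl 38 35 51)))))))) (.rp 17 (.thr 9 57 (.thr 42 63 (.thr 8 59 (.thr 12 4 (.thr 3 6 (.thr 60 22 (.thr 44 28 (.dbl 38 35 51)))))))) (.rp 12 (.thr 17 29 (.thr 57 9 (.thr 51 34 (.thr 60 54 (.thr 3 22 (.thr 35 19 (.thr 38 44 (.thr 55 4 (.dbl 63 42 59))))))))) .nd)))))))))) (.rp 39 (.str 3 (.nv (.thr 9 57 (.thr 12 6 (.thr 29 17 (.thr 63 46 (.thr 42 0 (.dbl 43 23 40)))))) (.nv (.thr 22 60 (.thr 20 23 (.thr 28 19 (.thr 16 24 (.thr 29 17 (.dbl 31 26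 30)))))) (.nv (.thr 9 57 (.thr 12 6 (.thr 22 60 (.thr 19 28 (.dbl 51 35 38))))) .nd)))) (.rp 38 (.thr 17 29 (.thr 9 57 (.str 22 (.nv (.thr 3 60 (.thr 19 28 (.thr 16 18 (.thr 31 26 (.dbl 23 20 27))))) (.nv (.thr 3 60 (.thr 19 28 (.thr 23 20 (.thr 51 35 (.thr 63 43 (.dbl 0 34 42)))))) (.nv (.thr 23 20 (.thr 19 28 (.thr 31 27 (.dbl 16 18 26)))) (.rp 31 (.thr 3 60 (.thr 12 6 (.thr 23 20 (.thr 63 43 (.thr 0 42 (.thr 8 4 (.thr 10 11 (.thr 5 15 (.thr 53 37 (.thr 48 58 (.thr 18 33 (.dbl 16 19 32)))))))))))) (.rp 28 (.thr 3 60 (.thr 12 6 (.thr 23 20 (.thr 63 43 (.thr 0 42 (.thr 8 4 (.thr 10 11 (.thr 5 15 (.thr 53 37 (.thr 48 58 (.thr 18 33 (.dbl 16 19 32)))))))))))) (.rp 23 (.thr 3 60 (.thr 12 6 (.thr 19 28 (.thr 18 16 (.thr 48 33 (.thr 24 36 (.dbl 26 27 30))))))) (.rp 20 (.thr 3 60 (.thr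 12 6 (.thr 19 28 (.thr 51 35 (.thr 0 34 (.thr 8 4 (.dbl 42 59 63))))))) (.rp 19 (.thr 3 60 (.thr 12 6 (.thr 23 20 (.thr 63 43 (.thr 0 42 (.thr 8 4 (.thr 10 11 (.thr 5 15 (.thr 53 37 (.thr 48 58 (.thr 32 16 (.thr 33 18 (.dbl 34 35 51))))))))))))) (.rp 16 (.thr 3 60 (.thr 12 6 (.thr 19 28 (.thr 51 35 (.thr 0 34 (.thr 8 4 (.dbl 42 59 63))))))) (.rp 3 (.str 0 (.nv (.thr 19 28 (.thr 16 18 (.thr 23 20 (.dbl 31 26 27)))) (.nv (.thr 20 23 (.thr 40 60 (.dbl 42 43 63))) (.rp 23 (.thr 19 28 (.thr 16 18 (.thr 48 32 (.thr 63 42 (.thr 53 58 (.thr 37 5 (.dbl 26 15 31))))))) (.rp 20 (.thr 42 63 (.thr 8 59 (.thr 11 10 (.thr 56 26 (.dbl 40 24 43))))) .nd))))) .nd))))))))))))) (.rp 37 (.str 0 (.nv (.thr 9 57 (.thr 42 63 (.thr 40 43 (.thr 60 20 (.thr 3 22 (.thr 12 6 (.dbl 8 4 59))))))) (.nv (.thr 17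 29 (.thr 51 34 (.thr 57 9 (.thr 60 54 (.thr 20 40 (.dbl 22 3 23)))))) (.nv (.thr 42 63 (.thr 8 59 (.thr 12 4 (.thr 17 29 (.dbl 51 34 38))))) .nd)))) (.rp 36 (.str 0 (.nv (.thr 17 29 (.thr 51 34 (.thr 57 9 (.thr 60 54 (.thr 20 40 (.dbl 22 3 23)))))) (.nv (.thr 9 57 (.thr 42 63 (.thr 8 59 (.thr 11 10 (.thr 40 43 (.dbl 56 24 26)))))) (.nv (.thr 17 29 (.thr 42 63 (.thr 8 59 (.thr 51 34 (.dbl 12 4 38))))) (.rp 51 (.thr 57 9 (.thr 42 63 (.thr 59 8 (.thr 56 58 (.thr 11 26 (.dbl 43 27 40)))))) .nd))))) (.rp 35 (.str 3 (.nv (.thr 9 57 (.thr 12 6 (.thr 22 60 (.thr 23 20 (.thr 51 38 (.thr 63 43 (.thr 59 55 (.dbl 42 0 8)))))))) (.nv (.thr 9 57 (.thr 12 6 (.thr 29 17 (.thr 63 46 (.thr 42 0 (.thr 59 8 (.dbl 51 38 55))))))) (.nv (.thr 22 60 (.thr 20 23 (.thr 28 19 (.thr 16 24 (.thr 31 26 (.dbl 29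 17 30)))))) .nd)))) (.rp 34 (.thr 9 57 (.str 3 (.nv (.thr 17 29 (.thr 22 60 (.thr 19 28 (.thr 23 20 (.thr 31 27 (.dbl 16 18 26)))))) (.nv (.thr 12 6 (.thr 29 17 (.thr 63 46 (.thr 43 23 (.dbl 42 0 40))))) (.nv (.thr 12 6 (.thr 22 60 (.thr 19 28 (.dbl 51 35 38)))) (.rp 51 (.thr 12 6 (.thr 60 22 (.thr 44 28 (.thr 38 35 (.thr 4 55 (.thr 29 17 (.thr 0 8 (.dbl 63 42 46)))))))) (.rp 50 (.str 18 (.nv (.thr 12 6 (.thr 17 29 (.thr 19 16 (.dbl 51 35 38)))) (.nv (.thr 12 6 (.thr 22 60 (.thr 26 30 (.thr 24 27 (.dbl 48 33 36))))) (.nv (.thr 17 29 (.thr 19 16 (.dbl 22 28 60))) .nd)))) (.rp 18 (.str 50 (.nv (.thr 22 60 (.thr 23 20 (.thr 29 17 (.thr 63 43 (.dbl 12 6 46))))) (.nv (.thr 12 6 (.thr 29 17 (.thr 63 46 (.thr 43 23 (.dbl 42 0 40))))) (.nv (.thr 22 60 (.thr 19 28 (.thr 12 6 (.dbl 51 35 38))))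 (.rp 51 (.thr 60 22 (.thr 12 6 (.thr 44 28 (.thr 38 35 (.thr 4 55 (.thr 29 17 (.thr 0 8 (.dbl 63 42 46)))))))) (.rp 19 (.thr 60 22 (.thr 12 6 (.thr 38 51 (.dbl 44 28 35)))) (.rp 12 (.thr 29 17 (.thr 22 60 (.thr 20 23 (.thr 28 19 (.thr 16 24 (.dbl 31 26 30)))))) (.rp 6 (.thr 29 17 (.thr 22 60 (.thr 20 23 (.thr 28 19 (.thr 16 24 (.dbl 31 26 30)))))) .nd)))))))) (.rp 12 (.thr 29 17 (.thr 22 60 (.thr 28 19 (.thr 31 30 (.thr 16 26 (.dbl 20 23 24)))))) .nd))))))))) (.rp 33 (.thr 9 57 (.thr 17 29 (.str 3 (.nv (.thr 12 6 (.thr 51 38 (.thr 0 34 (.thr 8 4 (.dbl 42 59 63))))) (.nv (.thr 22 60 (.thr 19 28 (.thr 16 18 (.thr 23 20 (.dbl 31 26 27))))) (.nv (.thr 12 6 (.thr 51 38 (.thr 22 60 (.dbl 19 28 35)))) (.rp 51 (.thr 12 6 (.thr 60 22 (.thr 44 28 (.thr 38 35 (.thr 4 55 (.thr 0 8 (.thr 40 20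 (.dbl 42 43 63)))))))) (.rp 22 (.thr 12 6 (.thr 38 51 (.thr 44 35 (.thr 60 28 (.thr 4 55 (.thr 0 8 (.thr 40 20 (.dbl 42 43 63)))))))) (.rp 12 (.thr 22 60 (.thr 23 20 (.thr 63 43 (.thr 0 42 (.thr 51 34 (.dbl 19 28 35)))))) .nd))))))))) (.rp 32 (.str 0 (.nv (.thr 9 57 (.thr 42 63 (.thr 40 43 (.thr 60 20 (.thr 3 22 (.thr 12 6 (.dbl 8 4 59))))))) (.nv (.thr 17 29 (.thr 51 34 (.thr 57 9 (.thr 60 54 (.thr 20 40 (.dbl 22 3 23)))))) (.nv (.thr 42 63 (.thr 8 59 (.thr 12 4 (.thr 17 29 (.dbl 51 34 38))))) .nd)))) (.rp 31 (.str 3 (.nv (.thr 9 57 (.thr 12 6 (.thr 29 17 (.thr 63 46 (.thr 42 0 (.dbl 43 23 40)))))) (.nv (.thr 22 60 (.thr 23 20 (.thr 29 17 (.thr 63 43 (.thr 12 46 (.dbl 9 6 57)))))) (.nv (.thr 9 57 (.thr 12 6 (.thr 22 60 (.thr 51 38 (.dbl 19 28 35))))) (.rp 57 (.thr 17 29 (.thr 22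 60 (.thr 23 20 (.thr 63 43 (.thr 0 42 (.thr 51 34 (.dbl 19 28 35))))))) (.rp 12 (.thr 57 9 (.thr 17 29 (.thr 60 22 (.thr 51 54 (.thr 0 34 (.thr 40 20 (.dbl 42 43 63))))))) (.rp 9 (.thr 17 29 (.thr 22 60 (.thr 23 20 (.thr 63 43 (.thr 0 42 (.thr 51 34 (.dbl 19 28 35))))))) (.rp 6 (.thr 57 9 (.thr 60 22 (.thr 51 54 (.thr 38 12 (.dbl 35 19 44))))) .nd)))))))) (.rp 30 (.str 0 (.nv (.thr 9 57 (.thr 42 63 (.thr 40 43 (.thr 60 20 (.thr 3 22 (.thr 12 6 (.dbl 8 4 59))))))) (.nv (.thr 17 29 (.thr 51 34 (.thr 57 9 (.thr 60 54 (.thr 20 40 (.dbl 22 3 23)))))) (.nv (.thr 42 63 (.thr 8 59 (.thr 12 4 (.thr 51 38 (.dbl 17 29 34))))) .nd)))) (.rp 29 (.str 3 (.nv (.thr 22 60 (.thr 19 28 (.thr 23 20 (.thr 51 35 (.thr 63 43 (.thr 59 55 (.dbl 42 0 8))))))) (.nv (.thr 9 57 (.thr 12 6 (.thr 51 38 (.thr 22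 60 (.dbl 19 28 35))))) (.rp 60 (.thr 9 57 (.thr 12 6 (.thr 51 38 (.thr 19 35 (.thr 22 28 (.thr 23 20 (.thr 63 43 (.thr 59 55 (.dbl 42 0 8))))))))) (.rp 51 (.thr 22 60 (.thr 19 28 (.thr 23 20 (.thr 63 43 (.thr 31 27 (.thr 15 47 (.thr 11 7 (.dbl 26 16 56)))))))) (.rp 35 (.thr 9 57 (.thr 12 6 (.thr 51 38 (.thr 22 60 (.thr 23 20 (.thr 63 43 (.thr 59 55 (.dbl 42 0 8)))))))) (.rp 28 (.thr 57 9 (.thr 60 22 (.thr 51 54 (.thr 35 19 (.dbl 38 12 44))))) (.rp 22 (.thr 9 57 (.thr 12 6 (.thr 38 51 (.thr 44 35 (.thr 60 28 (.thr 4 55 (.thr 0 8 (.thr 40 20 (.dbl 42 43 63))))))))) (.rp 19 (.thr 9 57 (.thr 12 6 (.thr 38 51 (.thr 44 35 (.dbl 60 22 28))))) (.rp 12 (.thr 57 9 (.thr 60 22 (.thr 51 54 (.thr 35 19 (.thr 38 44 (.thr 55 4 (.thr 63 59 (.thr 43 23 (.dbl 42 0 40))))))))) .nd)))))))))) (.rp 28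 (.str 0 (.nv (.thr 9 57 (.thr 42 63 (.thr 40 43 (.thr 60 20 (.thr 3 22 (.thr 12 6 (.dbl 8 4 59))))))) (.nv (.thr 17 29 (.thr 51 34 (.thr 57 9 (.thr 60 54 (.thr 20 40 (.dbl 22 3 23)))))) (.nv (.thr 42 63 (.thr 8 59 (.thr 12 4 (.thr 51 38 (.dbl 17 29 34))))) .nd)))) (.rp 27 (.str 3 (.nv (.thr 9 57 (.thr 12 6 (.thr 29 17 (.thr 63 46 (.thr 42 0 (.dbl 43 23 40)))))) (.nv (.thr 22 60 (.thr 20 23 (.thr 29 17 (.thr 28 19 (.thr 31 30 (.dbl 16 24 26)))))) (.nv (.thr 22 60 (.thr 19 28 (.thr 9 57 (.thr 51 35 (.dbl 12 6 38))))) .nd)))) (.rp 26 (.str 0 (.nv (.thr 9 57 (.thr 42 63 (.thr 40 43 (.thr 60 20 (.thr 3 22 (.thr 12 6 (.dbl 8 4 59))))))) (.nv (.thr 17 29 (.thr 51 34 (.thr 57 9 (.thr 60 54 (.thr 20 40 (.dbl 22 3 23)))))) (.nv (.thr 42 63 (.thr 8 59 (.thr 12 4 (.thr 17 29 (.dbl 51 34 38)))))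 .nd)))) (.rp 24 (.str 0 (.nv (.thr 9 57 (.thr 42 63 (.thr 40 43 (.thr 60 20 (.thr 3 22 (.thr 12 6 (.dbl 8 4 59))))))) (.nv (.thr 17 29 (.thr 51 34 (.thr 57 9 (.thr 60 54 (.thr 20 40 (.dbl 22 3 23)))))) (.nv (.thr 42 63 (.thr 8 59 (.thr 12 4 (.thr 17 29 (.dbl 51 34 38))))) (.rp 8 (.thr 17 29 (.thr 51 34 (.thr 38 12 (.thr 55 4 (.dbl 63 42 59))))) .nd))))) (.rp 23 (.str 3 (.nv (.thr 9 57 (.thr 12 6 (.thr 29 17 (.thr 63 46 (.thr 42 0 (.thr 59 8 (.dbl 51 38 55))))))) (.nv (.thr 22 60 (.thr 19 28 (.thr 9 57 (.thr 51 35 (.dbl 12 6 38))))) (.rp 57 (.thr 17 29 (.thr 22 60 (.thr 19 28 (.thr 51 35 (.thr 0 34 (.thr 63 42 (.thr 55 59 (.dbl 38 4 12)))))))) (.rp 51 (.thr 9 57 (.thr 29 17 (.thr 12 6 (.thr 63 46 (.thr 0 42 (.thr 4 8 (.thr 38 55 (.thr 44 35 (.dbl 60 22 28))))))))) (.rp 38 (.thr 9 57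 (.thr 17 29 (.thr 12 6 (.thr 22 60 (.thr 19 28 (.thr 51 35 (.thr 0 34 (.thr 8 4 (.dbl 42 59 63))))))))) (.rp 12 (.thr 57 9 (.thr 17 29 (.thr 60 22 (.thr 51 54 (.thr 0 34 (.thr 40 20 (.dbl 42 43 63))))))) (.rp 9 (.thr 17 29 (.thr 22 60 (.thr 19 28 (.thr 51 35 (.thr 0 34 (.thr 63 42 (.thr 55 59 (.dbl 38 4 12)))))))) (.rp 6 (.thr 57 9 (.thr 60 22 (.thr 51 54 (.thr 38 12 (.dbl 35 19 44))))) .nd))))))))) (.rp 22 (.thr 17 29 (.thr 9 57 (.str 42 (.nv (.thr 0 63 (.thr 51 34 (.thr 12 38 (.dbl 8 4 59)))) (.nv (.thr 40 43 (.thr 8 59 (.thr 56 24 (.dbl 11 10 26)))) (.rp 59 (.thr 0 63 (.thr 51 34 (.thr 40 43 (.thr 12 38 (.thr 8 4 (.thr 11 10 (.dbl 56 24 26))))))) (.rp 8 (.thr 43 40 (.thr 63 0 (.thr 3 23 (.thr 12 6 (.thr 38 51 (.thr 34 46 (.thr 35 44 (.thr 47 39 (.dbl 32 33 37))))))))) (.rp 0 (.str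 3 (.nv (.thr 43 40 (.thr 59 8 (.thr 63 23 (.thr 51 55 (.dbl 12 6 38))))) (.nv (.thr 40 43 (.thr 8 59 (.thr 56 24 (.dbl 11 10 26)))) (.rp 59 (.thr 43 40 (.thr 23 63 (.thr 12 6 (.thr 38 51 (.thr 55 4 (.thr 35 44 (.dbl 39 7 47))))))) (.rp 56 (.thr 43 40 (.thr 23 63 (.thr 12 6 (.thr 38 51 (.thr 55 4 (.thr 35 44 (.dbl 39 7 47))))))) (.rp 43 (.thr 8 59 (.thr 11 10 (.thr 15 7 (.thr 12 6 (.thr 14 13 (.thr 38 51 (.dbl 26 50 56))))))) (.rp 40 (.thr 8 59 (.thr 11 10 (.thr 15 7 (.thr 12 6 (.thr 14 13 (.thr 38 51 (.dbl 26 50 56))))))) (.rp 24 (.thr 8 59 (.thr 11 10 (.thr 15 7 (.thr 43 40 (.thr 63 23 (.thr 31 47 (.dbl 26 16 56))))))) (.rp 8 (.thr 43 40 (.thr 23 63 (.thr 12 6 (.thr 38 51 (.thr 55 4 (.thr 35 44 (.dbl 39 7 47))))))) .nd))))))))) .nd)))))))) (.rp 20 (.str 0 (.nv (.thr 9 57 (.thr 17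 29 (.thr 51 34 (.thr 12 38 (.thr 3 6 (.thr 19 35 (.dbl 22 28 60))))))) (.nv (.thr 42 63 (.thr 43 40 (.thr 57 9 (.thr 59 8 (.thr 11 27 (.dbl 56 26 58)))))) (.nv (.thr 17 29 (.thr 51 34 (.thr 12 38 (.thr 42 63 (.dbl 8 4 59))))) (.rp 42 (.thr 17 29 (.thr 57 9 (.thr 51 34 (.thr 60 54 (.thr 22 3 (.thr 28 19 (.dbl 12 38 44))))))) .nd))))) (.rp 19 (.str 3 (.nv (.thr 9 57 (.thr 22 60 (.thr 23 20 (.thr 29 17 (.thr 63 43 (.dbl 12 6 46)))))) (.nv (.thr 9 57 (.thr 12 6 (.thr 29 17 (.thr 63 46 (.thr 43 23 (.dbl 42 0 40)))))) (.nv (.thr 9 57 (.thr 12 6 (.thr 38 51 (.thr 44 35 (.dbl 60 22 28))))) (.rp 57 (.thr 29 17 (.thr 22 60 (.thr 23 20 (.thr 63 43 (.thr 12 46 (.thr 6 9 (.dbl 38 51 54))))))) (.rp 12 (.thr 57 9 (.thr 17 29 (.thr 60 22 (.thr 51 54 (.thr 0 34 (.thr 40 20 (.dbl 42 43 63))))))) (.rp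 9 (.thr 17 29 (.thr 22 60 (.thr 23 20 (.thr 63 43 (.thr 0 42 (.thr 51 34 (.thr 55 59 (.dbl 38 4 12)))))))) (.rp 6 (.thr 57 9 (.thr 17 29 (.thr 60 22 (.thr 51 54 (.thr 38 12 (.thr 0 34 (.thr 40 20 (.dbl 42 43 63)))))))) .nd)))))))) (.rp 18 (.thr 17 29 (.str 3 (.nv (.thr 9 57 (.thr 12 6 (.thr 22 60 (.thr 23 20 (.thr 51 38 (.thr 63 43 (.dbl 0 34 42))))))) (.nv (.thr 22 60 (.thr 19 28 (.thr 23 20 (.thr 51 35 (.thr 63 43 (.dbl 0 34 42)))))) (.nv (.thr 9 57 (.thr 12 6 (.thr 51 38 (.thr 22 60 (.dbl 19 28 35))))) (.rp 60 (.thr 9 57 (.thr 12 6 (.thr 51 38 (.thr 19 35 (.thr 22 28 (.thr 23 20 (.thr 63 43 (.dbl 0 34 42)))))))) (.rp 51 (.thr 22 60 (.thr 19 28 (.thr 23 20 (.thr 63 43 (.thr 31 27 (.thr 15 47 (.thr 11 7 (.dbl 26 16 56)))))))) (.rp 50 (.str 34 (.nv (.thr 51 0 (.thr 19 35 (.dbl 22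 28 60))) (.nv (.thr 9 57 (.thr 51 0 (.dbl 12 6 38))) (.rp 51 (.thr 9 57 (.thr 12 6 (.thr 60 22 (.thr 44 28 (.thr 38 35 (.thr 42 46 (.thr 63 0 (.dbl 43 23 40)))))))) (.rp 0 (.thr 9 57 (.thr 12 6 (.thr 51 38 (.thr 19 35 (.dbl 22 28 60))))) .nd))))) (.rp 34 (.str 50 (.nv (.thr 57 9 (.thr 60 22 (.thr 51 54 (.thr 49 48 (.thr 53 61 (.dbl 37 5 13)))))) (.nv (.thr 9 57 (.thr 12 6 (.thr 51 38 (.thr 22 60 (.dbl 19 28 35))))) (.rp 60 (.thr 9 57 (.thr 12 6 (.thr 51 38 (.thr 48 49 (.thr 24 36 (.thr 26 27 (.thr 11 56 (.dbl 15 7 37)))))))) (.rp 57 (.thr 22 60 (.thr 23 20 (.thr 63 43 (.thr 19 28 (.thr 51 35 (.thr 59 55 (.dbl 42 0 8))))))) (.rp 51 (.thr 22 60 (.thr 23 20 (.thr 63 43 (.thr 19 28 (.thr 31 27 (.thr 15 47 (.thr 11 7 (.dbl 26 16 56)))))))) (.rp 42 (.thr 9 57 (.thr 22 60 (.thr 19 28 (.thr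 51 35 (.dbl 12 6 38))))) (.rp 38 (.thr 57 9 (.thr 22 60 (.thr 19 28 (.thr 51 35 (.thr 49 48 (.thr 53 61 (.dbl 37 5 13))))))) (.rp 22 (.thr 9 57 (.thr 12 6 (.thr 38 51 (.thr 4 55 (.thr 8 0 (.thr 26 14 (.thr 10 11 (.dbl 42 58 59)))))))) (.rp 9 (.thr 22 60 (.thr 23 20 (.thr 63 43 (.thr 19 28 (.thr 51 35 (.thr 59 55 (.dbl 42 0 8))))))) (.rp 6 (.thr 57 9 (.thr 60 22 (.thr 51 54 (.thr 38 12 (.dbl 35 19 44))))) .nd))))))))))) (.rp 22 (.thr 9 57 (.thr 12 6 (.thr 38 51 (.thr 44 35 (.thr 60 28 (.thr 4 55 (.thr 0 8 (.thr 40 20 (.dbl 42 43 63))))))))) (.rp 12 (.thr 57 9 (.thr 60 22 (.thr 51 54 (.thr 35 19 (.thr 38 44 (.thr 55 4 (.thr 63 59 (.dbl 0 34 42)))))))) .nd))))))))))) (.rp 17 (.str 3 (.nv (.thr 22 60 (.thr 19 28 (.thr 23 20 (.thr 27 31 (.thr 43 63 (.thr 59 11 (.dbl 42 8 40))))))) (.nv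 (.thr 22 60 (.thr 19 28 (.thr 9 57 (.thr 51 35 (.dbl 12 6 38))))) (.rp 60 (.thr 9 57 (.thr 12 6 (.thr 51 38 (.thr 19 35 (.thr 22 28 (.thr 23 20 (.thr 63 43 (.thr 59 55 (.dbl 42 0 8))))))))) (.rp 49 (.str 33 (.nv (.thr 9 57 (.thr 12 6 (.thr 37 45 (.thr 48 18 (.thr 24 36 (.dbl 26 15 27)))))) (.nv (.thr 22 60 (.thr 37 45 (.thr 7 52 (.thr 15 11 (.dbl 48 18 26))))) (.nv (.thr 22 60 (.thr 19 28 (.thr 51 35 (.thr 12 38 (.dbl 9 6 57))))) .nd)))) (.rp 44 (.thr 9 57 (.thr 12 6 (.thr 51 38 (.thr 19 35 (.dbl 22 28 60))))) (.rp 33 (.str 49 (.nv (.thr 9 57 (.thr 12 6 (.thr 22 60 (.thr 19 28 (.dbl 51 35 38))))) (.nv (.thr 57 9 (.thr 53 61 (.dbl 37 5 13))) (.rp 57 (.thr 37 13 (.thr 5 53 (.thr 22 60 (.thr 7 52 (.thr 4 6 (.thr 55 38 (.dbl 23 20 39))))))) (.rp 9 (.thr 37 13 (.thr 5 53 (.thr 22 60 (.thr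 7 52 (.thr 4 6 (.thr 55 38 (.dbl 23 20 39))))))) .nd))))) (.rp 28 (.thr 57 9 (.thr 60 22 (.thr 51 54 (.thr 35 19 (.dbl 38 12 44))))) (.rp 22 (.thr 9 57 (.thr 12 6 (.thr 38 51 (.thr 44 35 (.thr 60 28 (.thr 4 55 (.thr 0 8 (.thr 40 20 (.dbl 42 43 63))))))))) (.rp 19 (.thr 9 57 (.thr 12 6 (.thr 38 51 (.thr 44 35 (.dbl 60 22 28))))) (.rp 12 (.thr 57 9 (.thr 60 22 (.thr 51 54 (.thr 35 19 (.thr 38 44 (.thr 55 4 (.thr 63 59 (.thr 43 23 (.dbl 42 0 40))))))))) .nd))))))))))) (.rp 16 (.str 0 (.nv (.thr 9 57 (.thr 42 63 (.thr 40 43 (.thr 60 20 (.thr 3 22 (.thr 12 6 (.dbl 8 4 59))))))) (.nv (.thr 17 29 (.thr 51 34 (.thr 57 9 (.thr 60 54 (.thr 20 40 (.dbl 22 3 23)))))) (.nv (.thr 42 63 (.thr 8 59 (.thr 12 4 (.thr 17 29 (.dbl 51 34 38))))) .nd)))) (.rp 15 (.str 3 (.nv (.thr 9 57 (.thr 12 6 (.thr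 29 17 (.thr 63 46 (.thr 42 0 (.dbl 43 23 40)))))) (.nv (.thr 22 60 (.thr 20 23 (.thr 28 19 (.thr 16 24 (.thr 29 17 (.dbl 31 26 30)))))) (.nv (.thr 9 57 (.thr 12 6 (.thr 51 38 (.thr 19 35 (.dbl 22 28 60))))) .nd)))) (.rp 14 (.thr 17 29 (.str 0 (.nv (.thr 42 63 (.thr 43 40 (.thr 57 9 (.thr 59 8 (.thr 11 27 (.dbl 56 26 58)))))) (.nv (.thr 51 34 (.thr 57 9 (.thr 60 54 (.thr 20 40 (.dbl 22 3 23))))) (.nv (.thr 42 63 (.thr 8 59 (.thr 12 4 (.dbl 51 34 38)))) (.rp 10 (.str 6 (.nv (.thr 42 63 (.thr 8 59 (.thr 12 4 (.dbl 51 34 38)))) (.nv (.thr 9 57 (.thr 12 3 (.thr 8 4 (.dbl 42 59 63)))) (.nv (.thr 9 57 (.thr 12 3 (.dbl 51 34 38))) (.rp 12 (.thr 57 9 (.thr 51 34 (.thr 60 54 (.thr 20 40 (.dbl 22 3 23))))) .nd))))) (.rp 6 (.str 10 (.nv (.thr 9 57 (.thr 8 11 (.thr 12 4 (.dbl 51 34 38)))) (.nv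 (.thr 51 34 (.thr 63 42 (.thr 55 59 (.dbl 38 4 12)))) (.nv (.thr 9 57 (.thr 8 11 (.dbl 42 59 63))) .nd)))) .nd))))))) (.rp 13 (.thr 9 57 (.str 0 (.nv (.thr 17 29 (.thr 51 34 (.thr 12 38 (.thr 3 6 (.thr 19 35 (.dbl 22 28 60)))))) (.nv (.thr 42 63 (.thr 40 43 (.thr 8 59 (.thr 56 24 (.dbl 11 10 26))))) (.nv (.thr 42 63 (.thr 8 59 (.thr 12 4 (.thr 51 38 (.dbl 17 29 34))))) (.rp 51 (.thr 29 17 (.thr 63 42 (.thr 12 46 (.thr 3 6 (.thr 23 43 (.dbl 22 20 60)))))) (.rp 42 (.thr 17 29 (.thr 51 34 (.thr 38 12 (.thr 55 4 (.thr 63 59 (.thr 35 44 (.thr 3 19 (.thr 23 43 (.dbl 22 20 60))))))))) .nd))))))) (.rp 12 (.thr 9 57 (.str 8 (.nv (.thr 42 59 (.thr 40 43 (.thr 56 24 (.dbl 11 10 26)))) (.nv (.thr 11 10 (.thr 56 26 (.thr 42 59 (.dbl 40 24 43)))) (.rp 59 (.thr 11 10 (.thr 56 26 (.thr 40 24 (.thr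 42 43 (.thr 0 63 (.thr 60 20 (.thr 48 52 (.thr 16 32 (.thr 3 22 (.thr 18 33 (.dbl 17 19 29))))))))))) (.rp 56 (.thr 29 17 (.thr 11 10 (.thr 59 42 (.thr 27 43 (.thr 26 24 (.thr 31 16 (.thr 19 23 (.dbl 28 22 30)))))))) (.rp 43 (.thr 29 17 (.thr 11 10 (.thr 26 56 (.thr 27 24 (.thr 31 16 (.thr 19 23 (.dbl 28 22 30))))))) (.rp 42 (.thr 29 17 (.thr 11 10 (.thr 26 56 (.thr 27 24 (.thr 31 16 (.thr 19 23 (.dbl 28 22 30))))))) (.rp 40 (.thr 11 10 (.thr 26 56 (.thr 27 24 (.dbl 59 42 43)))) (.rp 26 (.thr 29 17 (.thr 11 10 (.thr 42 59 (.thr 43 40 (.thr 63 0 (.thr 3 23 (.thr 15 7 (.thr 31 47 (.thr 28 30 (.dbl 22 19 60)))))))))) (.rp 24 (.thr 29 17 (.thr 11 10 (.thr 26 56 (.thr 31 16 (.thr 59 42 (.thr 27 43 (.thr 19 23 (.dbl 28 22 30)))))))) (.rp 11 (.thr 29 17 (.thr 42 59 (.thr 43 40 (.thr 63 0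 (.thr 3 23 (.thr 60 22 (.thr 61 62 (.thr 45 13 (.thr 15 30 (.thr 47 31 (.dbl 37 32 33))))))))))) (.rp 10 (.thr 42 59 (.thr 40 43 (.thr 56 24 (.thr 0 63 (.thr 60 20 (.thr 48 52 (.thr 16 32 (.dbl 26 11 31)))))))) (.rp 3 (.str 0 (.nv (.dbl 42 59 63) (.rp 63 (.thr 11 10 (.thr 56 26 (.thr 40 24 (.dbl 42 43 59)))) (.rp 59 (.thr 11 10 (.thr 56 26 (.thr 40 24 (.dbl 42 43 63)))) (.rp 42 (.thr 29 17 (.thr 11 10 (.thr 26 56 (.thr 27 24 (.thr 31 16 (.thr 19 23 (.dbl 28 22 30))))))) .nd))))) (.rp 0 (.str 3 (.nv (.thr 11 10 (.thr 22 60 (.thr 20 23 (.thr 28 19 (.thr 16 24 (.dbl 26 31 56)))))) (.nv (.thr 42 59 (.thr 43 40 (.thr 23 63 (.dbl 22 20 60)))) (.nv (.thr 11 10 (.thr 42 59 (.thr 56 26 (.dbl 40 24 43)))) (.rp 56 (.thr 59 42 (.thr 11 10 (.thr 43 27 (.thr 23 63 (.dbl 22 20 60))))) .nd))))) .nd)))))))))))))))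 (.rp 11 (.str 3 (.nv (.thr 9 57 (.thr 12 6 (.thr 29 17 (.thr 63 46 (.thr 42 0 (.dbl 43 23 40)))))) (.nv (.thr 22 60 (.thr 20 23 (.thr 28 19 (.thr 16 24 (.thr 29 17 (.dbl 31 26 30)))))) (.nv (.thr 22 60 (.thr 19 28 (.thr 9 57 (.thr 51 35 (.dbl 12 6 38))))) .nd)))) (.rp 10 (.thr 9 57 (.str 0 (.nv (.thr 17 29 (.thr 42 63 (.thr 40 43 (.thr 51 34 (.thr 12 38 (.thr 60 20 (.dbl 3 6 22))))))) (.nv (.thr 42 63 (.thr 8 59 (.thr 12 4 (.thr 40 43 (.thr 60 20 (.dbl 3 6 22)))))) (.nv (.thr 17 29 (.thr 51 34 (.thr 12 38 (.thr 42 63 (.dbl 8 4 59))))) (.rp 63 (.thr 17 29 (.thr 51 34 (.thr 12 38 (.thr 8 4 (.thr 42 59 (.thr 40 43 (.thr 60 20 (.dbl 3 6 22)))))))) (.rp 51 (.thr 29 17 (.thr 63 42 (.thr 12 46 (.thr 4 8 (.thr 38 55 (.thr 44 35 (.thr 60 28 (.dbl 3 6 22)))))))) (.rp 42 (.thr 17 29 (.thr 51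 34 (.thr 38 12 (.thr 55 4 (.thr 63 59 (.thr 35 44 (.thr 3 19 (.thr 23 43 (.dbl 22 20 60))))))))) (.rp 14 (.str 6 (.nv (.thr 12 3 (.thr 8 4 (.dbl 42 59 63))) (.nv (.thr 17 29 (.thr 12 3 (.dbl 51 34 38))) (.rp 12 (.thr 17 29 (.thr 51 34 (.thr 63 42 (.thr 55 59 (.thr 38 4 (.thr 22 54 (.thr 60 3 (.dbl 20 23 40)))))))) (.rp 3 (.thr 17 29 (.thr 51 34 (.thr 12 38 (.thr 8 4 (.dbl 42 59 63))))) .nd))))) (.rp 12 (.thr 42 63 (.thr 8 59 (.thr 40 43 (.thr 60 20 (.thr 56 24 (.thr 48 52 (.thr 16 32 (.dbl 26 11 31)))))))) (.rp 6 (.str 14 (.nv (.thr 29 17 (.thr 63 42 (.thr 46 12 (.thr 62 30 (.thr 60 61 (.thr 20 40 (.dbl 22 3 23))))))) (.nv (.thr 17 29 (.thr 51 34 (.thr 12 38 (.thr 42 63 (.dbl 8 4 59))))) (.rp 63 (.thr 17 29 (.thr 51 34 (.thr 12 38 (.thr 15 13 (.thr 27 39 (.thr 26 24 (.thr 16 31 (.dbl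 48 32 37)))))))) (.rp 42 (.thr 17 29 (.thr 51 34 (.thr 38 12 (.thr 35 44 (.thr 19 3 (.thr 26 50 (.thr 18 16 (.dbl 22 28 30)))))))) (.rp 29 (.thr 42 63 (.thr 40 43 (.thr 60 20 (.thr 8 59 (.thr 12 4 (.thr 28 44 (.dbl 22 3 19))))))) (.rp 22 (.thr 17 29 (.thr 42 63 (.thr 8 59 (.thr 12 4 (.dbl 51 34 38))))) (.rp 17 (.thr 42 63 (.thr 40 43 (.thr 60 20 (.thr 8 59 (.thr 12 4 (.thr 28 44 (.dbl 22 3 19))))))) (.rp 12 (.thr 42 63 (.thr 40 43 (.thr 60 20 (.thr 8 59 (.thr 56 24 (.thr 48 52 (.thr 16 32 (.dbl 26 11 31)))))))) .nd))))))))) .nd))))))))))) (.rp 9 (.str 0 (.nv (.thr 42 63 (.thr 8 59 (.thr 40 43 (.thr 20 60 (.thr 24 56 (.thr 28 16 (.dbl 22 19 23))))))) (.nv (.thr 42 63 (.thr 8 59 (.thr 12 4 (.thr 17 29 (.dbl 51 34 38))))) (.rp 63 (.thr 17 29 (.thr 51 34 (.thr 12 38 (.thr 8 4 (.thr 42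 59 (.thr 40 43 (.thr 60 20 (.thr 28 44 (.dbl 22 3 19))))))))) (.rp 59 (.thr 29 17 (.thr 63 42 (.thr 12 46 (.thr 4 8 (.dbl 38 51 55))))) (.rp 55 (.thr 17 29 (.thr 51 34 (.thr 12 38 (.thr 8 4 (.dbl 42 59 63))))) (.rp 51 (.thr 29 17 (.thr 63 42 (.thr 12 46 (.thr 4 8 (.thr 38 55 (.thr 44 35 (.thr 60 28 (.thr 20 40 (.dbl 22 3 23))))))))) (.rp 42 (.thr 17 29 (.thr 51 34 (.thr 38 12 (.thr 55 4 (.thr 63 59 (.thr 35 44 (.thr 3 19 (.thr 23 43 (.dbl 22 20 60))))))))) (.rp 13 (.str 5 (.nv (.thr 37 53 (.thr 42 63 (.thr 32 47 (.thr 48 16 (.dbl 15 10 26))))) (.nv (.thr 15 10 (.thr 37 53 (.thr 45 33 (.thr 60 30 (.thr 20 40 (.dbl 22 3 23)))))) (.nv (.thr 42 63 (.thr 8 59 (.thr 12 4 (.thr 51 38 (.dbl 17 29 34))))) .nd)))) (.rp 8 (.thr 17 29 (.thr 51 34 (.thr 38 12 (.thr 55 4 (.dbl 63 42 59))))) (.rp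 5 (.str 13 (.nv (.thr 17 29 (.thr 42 63 (.thr 8 59 (.thr 12 4 (.dbl 51 34 38))))) (.nv (.thr 29 17 (.thr 45 61 (.dbl 37 33 49))) (.rp 29 (.thr 37 49 (.thr 33 45 (.thr 42 63 (.thr 32 47 (.thr 35 34 (.thr 44 38 (.dbl 40 36 43))))))) (.rp 17 (.thr 37 49 (.thr 33 45 (.thr 42 63 (.thr 32 47 (.thr 35 34 (.thr 44 38 (.dbl 40 36 43))))))) .nd))))) .nd))))))))))) (.rp 8 (.str 0 (.nv (.thr 9 57 (.thr 29 17 (.thr 63 42 (.thr 12 46 (.thr 3 6 (.thr 23 43 (.dbl 22 20 60))))))) (.nv (.thr 17 29 (.thr 51 34 (.thr 57 9 (.thr 60 54 (.thr 20 40 (.dbl 22 3 23)))))) (.nv (.thr 17 29 (.thr 51 34 (.thr 38 12 (.thr 55 4 (.dbl 63 42 59))))) (.rp 34 (.thr 29 17 (.thr 9 57 (.thr 63 42 (.thr 12 46 (.thr 38 51 (.thr 3 6 (.thr 23 43 (.dbl 22 20 60)))))))) (.rp 29 (.thr 57 9 (.thr 42 63 (.thr 40 43 (.thr 60 20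 (.thr 51 54 (.thr 34 17 (.dbl 38 12 46))))))) (.rp 17 (.thr 9 57 (.thr 42 63 (.thr 40 43 (.thr 60 20 (.thr 3 22 (.thr 12 6 (.thr 44 28 (.dbl 38 35 51)))))))) .nd))))))) (.rp 7 (.str 3 (.nv (.thr 9 57 (.thr 12 6 (.thr 29 17 (.thr 63 46 (.thr 42 0 (.dbl 43 23 40)))))) (.nv (.thr 22 60 (.thr 20 23 (.thr 28 19 (.thr 16 24 (.thr 29 17 (.dbl 31 26 30)))))) (.nv (.thr 22 60 (.thr 19 28 (.thr 9 57 (.thr 51 35 (.dbl 12 6 38))))) .nd)))) (.rp 6 (.thr 17 29 (.str 0 (.nv (.thr 51 34 (.thr 57 9 (.thr 60 54 (.thr 20 40 (.dbl 22 3 23))))) (.nv (.thr 42 63 (.thr 43 40 (.thr 57 9 (.thr 59 8 (.thr 11 27 (.dbl 56 26 58)))))) (.nv (.thr 42 63 (.thr 8 59 (.thr 51 34 (.dbl 12 4 38)))) (.rp 14 (.str 10 (.nv (.thr 9 57 (.thr 8 11 (.thr 12 4 (.dbl 51 34 38)))) (.nv (.thr 51 34 (.thr 63 42 (.thr 55 59 (.dbl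 38 4 12)))) (.nv (.thr 9 57 (.thr 8 11 (.dbl 42 59 63))) .nd)))) (.rp 12 (.thr 51 34 (.thr 63 42 (.thr 55 59 (.thr 38 4 (.thr 35 44 (.thr 57 9 (.thr 3 19 (.dbl 60 22 54)))))))) (.rp 10 (.str 14 (.nv (.thr 51 34 (.thr 57 9 (.thr 60 54 (.thr 20 40 (.dbl 22 3 23))))) (.nv (.thr 42 63 (.thr 43 40 (.thr 57 9 (.thr 59 8 (.thr 11 27 (.dbl 56 26 58)))))) (.nv (.thr 42 63 (.thr 8 59 (.thr 51 34 (.dbl 12 4 38)))) (.rp 12 (.thr 63 42 (.thr 51 34 (.thr 55 59 (.thr 38 4 (.thr 35 44 (.thr 57 9 (.thr 3 19 (.dbl 60 22 54)))))))) (.rp 8 (.thr 63 42 (.thr 51 34 (.thr 38 12 (.dbl 55 4 59)))) .nd)))))) .nd)))))))) (.rp 5 (.thr 17 29 (.thr 9 57 (.str 0 (.nv (.thr 51 34 (.thr 12 38 (.thr 3 6 (.thr 19 35 (.dbl 22 28 60))))) (.nv (.thr 42 63 (.thr 8 59 (.thr 11 10 (.thr 40 43 (.dbl 56 24 26))))) (.nv (.thr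 51 34 (.thr 12 38 (.thr 42 63 (.dbl 8 4 59)))) (.rp 51 (.thr 42 63 (.thr 40 43 (.thr 60 20 (.thr 3 22 (.thr 12 6 (.dbl 8 4 59)))))) (.rp 42 (.thr 51 34 (.thr 38 12 (.thr 55 4 (.thr 63 59 (.thr 35 44 (.thr 3 19 (.thr 23 43 (.dbl 22 20 60)))))))) (.rp 12 (.thr 51 34 (.thr 63 42 (.thr 55 59 (.thr 38 4 (.thr 35 44 (.thr 3 19 (.thr 23 43 (.dbl 22 20 60)))))))) .nd))))))))) (.rp 4 (.str 0 (.nv (.thr 17 29 (.thr 57 9 (.thr 51 34 (.thr 60 54 (.thr 20 40 (.dbl 22 3 23)))))) (.nv (.thr 42 63 (.thr 43 40 (.thr 59 8 (.thr 11 27 (.thr 56 26 (.dbl 57 9 58)))))) (.rp 57 (.thr 17 29 (.thr 51 34 (.thr 12 38 (.thr 42 63 (.thr 40 43 (.thr 60 20 (.thr 28 44 (.dbl 22 3 19)))))))) (.rp 40 (.thr 17 29 (.thr 9 57 (.thr 51 34 (.thr 12 38 (.thr 3 6 (.thr 19 35 (.dbl 22 28 60))))))) (.rp 9 (.thr 42 63 (.thr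 8 59 (.thr 40 43 (.thr 20 60 (.thr 24 56 (.thr 16 28 (.dbl 26 27 31))))))) .nd)))))) (.rp 3 (.str 0 (.nv (.thr 17 29 (.thr 42 63 (.thr 51 34 (.thr 57 9 (.thr 60 54 (.dbl 40 20 43)))))) (.nv (.thr 42 63 (.thr 43 40 (.thr 59 8 (.thr 11 27 (.thr 56 26 (.dbl 57 9 58)))))) (.nv (.thr 17 29 (.thr 51 34 (.thr 12 38 (.thr 8 4 (.dbl 42 59 63))))) (.rp 63 (.thr 17 29 (.thr 57 9 (.thr 51 34 (.thr 60 54 (.thr 20 40 (.thr 12 38 (.thr 28 44 (.dbl 22 19 23)))))))) (.rp 42 (.thr 17 29 (.thr 57 9 (.thr 51 34 (.thr 60 54 (.thr 20 40 (.thr 22 23 (.thr 28 19 (.dbl 12 38 44)))))))) .nd)))))) (.rp 0 (.str 3 (.nv (.thr 9 57 (.thr 12 6 (.thr 22 60 (.thr 29 17 (.thr 63 46 (.dbl 23 20 43)))))) (.nv (.thr 22 60 (.thr 20 23 (.thr 28 19 (.thr 16 24 (.thr 31 26 (.dbl 29 17 30)))))) (.nv (.thr 9 57 (.thr 12 6 (.thr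 51 38 (.thr 19 35 (.dbl 22 28 60))))) (.rp 60 (.thr 9 57 (.thr 29 17 (.thr 12 6 (.thr 63 46 (.thr 43 23 (.thr 51 38 (.thr 59 55 (.dbl 42 8 40)))))))) (.rp 22 (.thr 9 57 (.thr 29 17 (.thr 12 6 (.thr 63 46 (.thr 43 23 (.thr 42 40 (.thr 59 8 (.dbl 51 38 55)))))))) .nd)))))) .nd))))))))))))))))))))))))))))))))))))))))))))))))))))))))))))

theorem w152 : WinAt (2199025352704, 6) :=
  chF (K := []) kn c152 2199025352704 6 1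
    [15] (by decide +kernel) (by decide +kernel)

/-- A certificate. -/
noncomputable def c153 : Ct := (.str 42 (.nv (.thr 32 47 (.thr 35 34 (.thr 44 38 (.dbl 40 36 43)))) (.nv (.thr 0 63 (.thr 15 10 (.thr 48 26 (.dbl 32 16 47)))) (.nv (.thr 40 43 (.thr 32 47 (.thr 44 36 (.dbl 35 34 38)))) (.rp 47 (.thr 0 63 (.thr 15 10 (.thr 48 26 (.thr 32 16 (.thr 35 34 (.thr 44 38 (.dbl 40 36 43))))))) (.rp 43 (.thr 63 0 (.thr 47 32 (.thr 15 31 (.thr 48 26 (.thr 51 50 (.thr 55 59 (.thr 38 4 (.dbl 39 27 36)))))))) (.rp 32 (.str 4 (.nv (.thr 0 63 (.thr 12 8 (.dbl 15 10 14))) (.nv (.thr 38 55 (.thr 36 39 (.thr 52 20 (.dbl 7 6 22)))) (.rp 23 (.thr 0 63 (.thr 43 40 (.thr 12 8 (.dbl 15 10 14)))) (.rp 12 (.thr 6 7 (.thr 0 63 (.thr 15 10 (.thr 48 26 (.thr 38 55 (.thr 39 36 (.dbl 51 27 50))))))) (.rp 6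 (.str 12 (.nv (.thr 15 14 (.thr 10 0 (.dbl 26 48 58))) (.nv (.dbl 0 8 63) (.rp 14 (.str 10 (.nv (.thr 15 0 (.dbl 26 48 58)) (.nv (.dbl 0 8 15) (.rp 15 (.dbl 0 8 63) (.rp 0 (.thr 26 58 (.thr 48 15 (.thr 36 24 (.dbl 38 39 55)))) .nd))))) (.rp 10 (.thr 14 15 (.dbl 0 8 63)) (.rp 0 (.thr 38 55 (.thr 36 39 (.thr 48 24 (.dbl 15 14 26)))) .nd)))))) .nd)))))) (.rp 12 (.str 6 (.nv (.thr 0 63 (.thr 15 10 (.thr 48 26 (.dbl 32 16 47)))) (.nv (.thr 4 7 (.thr 32 47 (.thr 35 34 (.dbl 38 44 55)))) (.nv (.thr 40 43 (.thr 32 47 (.thr 44 36 (.dbl 35 34 38)))) (.rp 51 (.str 38 (.nv (.thr 34 46 (.dbl 32 35 47)) (.nv (.dbl 4 7 55) (.rp 35 (.str 19 (.nv (.dbl 4 7 55) (.rp 55 (.thr 7 4 (.dbl 22 52 54)) (.rp 34 (.thr 0 63 (.dbl 4 7 55)) (.rp 7 (.thr 0 63 (.thr 15 10 (.thr 32 47 (.dbl 48 16 26)))) (.rp 4 (.thr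 0 63 (.thr 15 10 (.thr 32 47 (.dbl 48 16 26)))) (.rp 0 (.thr 34 46 (.dbl 4 7 55)) .nd))))))) (.rp 34 (.thr 0 63 (.dbl 4 7 55)) (.rp 19 (.thr 35 44 (.dbl 34 32 46)) .nd)))))) (.rp 47 (.thr 0 63 (.thr 15 10 (.thr 7 4 (.thr 48 26 (.thr 52 22 (.thr 60 56 (.dbl 40 20 43))))))) (.rp 38 (.str 51 (.nv (.thr 0 63 (.thr 15 10 (.thr 43 40 (.thr 47 32 (.dbl 39 27 35))))) (.nv (.thr 0 63 (.thr 48 50 (.dbl 15 10 26))) (.nv (.thr 47 32 (.thr 63 0 (.thr 15 31 (.dbl 48 26 50)))) (.rp 63 (.thr 32 47 (.thr 48 50 (.thr 0 16 (.dbl 15 10 26)))) (.rp 48 (.thr 47 32 (.thr 43 40 (.thr 39 35 (.thr 15 27 (.dbl 63 0 31))))) (.rp 15 (.thr 0 63 (.thr 48 50 (.dbl 32 16 47))) (.rp 0 (.thr 47 32 (.thr 43 40 (.thr 39 35 (.thr 15 27 (.dbl 48 26 50))))) .nd)))))))) (.rp 32 (.thr 0 63 (.thr 15 10 (.thr 7 4 (.thr 48 26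 (.thr 52 22 (.thr 60 56 (.dbl 40 20 43))))))) .nd)))))))) (.rp 6 (.str 12 (.nv (.thr 32 47 (.thr 40 43 (.thr 44 36 (.dbl 35 34 38)))) (.nv (.thr 15 14 (.thr 10 0 (.dbl 26 48 58))) (.rp 34 (.thr 0 63 (.dbl 15 10 14)) (.rp 14 (.str 10 (.nv (.dbl 0 15 63) (.rp 63 (.thr 15 0 (.dbl 26 48 58)) (.rp 15 (.thr 32 47 (.thr 63 0 (.thr 46 29 (.dbl 34 35 38)))) (.rp 0 (.thr 32 47 (.thr 40 43 (.thr 44 36 (.dbl 35 34 38)))) .nd))))) (.rp 10 (.thr 14 15 (.thr 63 0 (.thr 46 29 (.thr 34 38 (.dbl 32 35 47))))) .nd)))))) .nd)))))))))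

theorem w153 : WinAt (565295007670306, 2314885392874209804) :=
  chF (K := []) kn c153 565295007670306 2314885392874209804 53
    [4680] (by decide +kernel) (by decide +kernel)

/-- A certificate. -/
noncomputable def c154 : Ct := (.str 37 (.nv (.thr 33 45 (.thr 5 53 (.thr 49 17 (.dbl 13 9 25)))) (.rp 53 (.thr 33 45 (.thr 49 17 (.thr 13 25 (.str 26 (.nv (.thr 16 31 (.thr 48 15 (.thr 50 51 (.thr 38 14 (.thr 35 44 (.dbl 32 0 34)))))) (.nv (.thr 9 5 (.thr 11 56 (.thr 10 8 (.thr 16 31 (.thr 42 58 (.thr 0 63 (.dbl 48 15 32))))))) (.nv (.thr 31 16 (.thr 15 48 (.thr 63 47 (.thr 5 9 (.dbl 0 10 42))))) (.rp 63 (.thr 48 15 (.thr 50 51 (.thr 38 14 (.thr 39 36 (.thr 35 44 (.thr 32 34 (.thr 0 16 (.dbl 47 42 43)))))))) (.rp 48 (.thr 9 5 (.thr 11 56 (.thr 10 8 (.thr 42 58 (.thr 63 0 (.thr 32 47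 (.thr 40 43 (.thr 44 36 (.dbl 35 34 38))))))))) (.rp 47 (.thr 15 48 (.thr 14 12 (.thr 38 50 (.thr 36 39 (.thr 4 55 (.thr 52 20 (.thr 7 22 (.dbl 5 6 9)))))))) (.rp 32 (.thr 5 9 (.thr 15 48 (.thr 31 16 (.thr 0 10 (.dbl 63 42 47))))) (.rp 31 (.thr 48 15 (.thr 50 51 (.thr 38 14 (.thr 39 36 (.thr 35 44 (.thr 47 43 (.dbl 32 34 42))))))) (.rp 16 (.thr 48 15 (.thr 50 51 (.thr 38 14 (.thr 39 36 (.thr 35 44 (.thr 47 43 (.dbl 32 34 42))))))) (.rp 15 (.thr 9 5 (.thr 11 56 (.thr 10 8 (.thr 42 58 (.thr 32 47 (.thr 35 34 (.thr 40 43 (.dbl 44 36 38)))))))) (.rp 10 (.thr 15 48 (.thr 31 16 (.thr 63 47 (.thr 14 12 (.thr 38 50 (.thr 55 4 (.thr 51 59 (.dbl 39 27 36)))))))) (.rp 0 (.thr 9 5 (.thr 11 56 (.thr 10 8 (.thr 42 58 (.thr 32 47 (.thr 40 43 (.thr 44 36 (.dbl 35 34 38)))))))) .nd))))))))))))))))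 (.rp 49 (.thr 53 5 (.str 48 (.nv (.thr 15 26 (.thr 63 58 (.thr 42 0 (.dbl 47 31 32)))) (.rp 63 (.thr 45 33 (.thr 15 26 (.thr 60 30 (.thr 52 56 (.thr 55 54 (.thr 4 38 (.thr 20 36 (.dbl 22 7 23)))))))) (.rp 58 (.thr 45 33 (.thr 15 26 (.thr 60 30 (.thr 52 56 (.thr 55 54 (.thr 4 38 (.thr 20 36 (.dbl 22 7 23)))))))) (.rp 47 (.thr 63 58 (.thr 0 42 (.thr 16 32 (.dbl 26 15 31)))) (.rp 42 (.thr 45 33 (.thr 15 26 (.thr 60 30 (.thr 52 56 (.thr 55 54 (.thr 4 38 (.thr 20 36 (.dbl 22 7 23)))))))) (.rp 32 (.thr 45 33 (.thr 63 58 (.thr 42 0 (.thr 43 40 (.thr 15 26 (.thr 47 31 (.thr 35 39 (.dbl 44 38 46)))))))) (.rp 31 (.thr 33 45 (.thr 63 58 (.thr 42 0 (.thr 32 47 (.thr 35 34 (.thr 44 38 (.dbl 40 36 43))))))) (.rp 26 (.thr 33 45 (.thr 63 58 (.thr 42 0 (.thr 32 47 (.thr 35 34 (.thr 44 38 (.dbl 40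 36 43))))))) (.rp 15 (.thr 33 45 (.thr 63 58 (.thr 0 42 (.thr 32 16 (.thr 35 34 (.thr 38 44 (.thr 36 39 (.thr 12 24 (.dbl 4 8 55))))))))) (.rp 0 (.thr 45 33 (.thr 63 58 (.thr 15 26 (.thr 47 31 (.thr 44 46 (.thr 35 38 (.thr 43 39 (.dbl 42 32 40)))))))) .nd)))))))))))) (.rp 45 (.thr 5 53 (.thr 13 9 (.thr 49 25 (.thr 33 17 .ext)))) (.rp 33 (.str 48 (.nv (.thr 5 53 (.thr 13 9 (.thr 15 26 (.thr 12 14 (.thr 36 24 (.thr 38 39 (.dbl 25 49 51))))))) (.nv (.thr 53 5 (.thr 63 58 (.thr 15 26 (.thr 42 0 (.dbl 47 31 32))))) (.rp 53 (.str 49 (.nv (.thr 15 26 (.thr 25 13 (.thr 51 50 (.thr 38 12 (.dbl 39 27 36))))) (.nv (.thr 13 25 (.thr 5 9 (.thr 15 26 (.thr 0 10 (.thr 32 16 (.dbl 42 47 63)))))) (.nv (.thr 15 26 (.thr 51 50 (.thr 39 27 (.thr 38 36 (.dbl 25 12 13))))) (.rp 27 (.thr 25 13 (.thr 57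 9 (.thr 51 50 (.thr 60 54 (.thr 26 15 (.dbl 56 11 52)))))) (.rp 26 (.thr 25 13 (.thr 51 50 (.thr 38 12 (.thr 55 4 (.thr 63 59 (.thr 0 42 (.dbl 17 29 34))))))) (.rp 25 (.thr 50 51 (.thr 26 15 (.thr 16 31 (.thr 32 0 (.thr 47 42 (.thr 38 14 (.thr 39 36 (.dbl 35 43 44)))))))) (.rp 15 (.thr 25 13 (.thr 29 17 (.thr 51 50 (.thr 12 38 (.thr 63 46 (.thr 59 55 (.dbl 42 0 8))))))) (.rp 13 (.thr 51 50 (.thr 15 26 (.thr 39 27 (.thr 38 36 (.thr 55 4 (.thr 63 59 (.thr 47 31 (.dbl 35 43 44)))))))) (.rp 12 (.thr 13 25 (.thr 9 5 (.thr 26 15 (.thr 16 31 (.thr 0 32 (.thr 11 56 (.thr 10 8 (.dbl 42 58 63)))))))) .nd)))))))))) (.rp 26 (.thr 53 5 (.thr 63 58 (.thr 42 0 (.thr 32 47 (.thr 40 43 (.thr 36 44 (.thr 12 24 (.thr 46 29 (.dbl 38 34 39))))))))) (.rp 15 (.str 49 (.nv (.thr 5 53 (.dbl 13 9 25)) (.rp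 53 (.thr 25 13 (.thr 29 17 (.thr 51 50 (.thr 12 38 (.thr 63 46 (.thr 59 55 (.dbl 42 0 8))))))) (.rp 25 (.thr 53 5 (.thr 51 50 (.thr 63 58 (.thr 55 59 (.thr 38 4 (.thr 39 36 (.thr 7 23 (.dbl 52 22 54)))))))) (.rp 13 (.thr 53 5 (.thr 51 50 (.thr 63 58 (.thr 55 59 (.thr 38 4 (.thr 36 39 (.dbl 12 24 25))))))) (.rp 11 (.str 7 (.nv (.thr 5 53 (.dbl 13 9 25)) (.rp 53 (.thr 25 13 (.thr 57 9 (.thr 52 22 (.thr 60 56 (.dbl 51 50 54))))) (.rp 25 (.thr 5 53 (.thr 52 22 (.thr 4 6 (.thr 36 20 (.dbl 38 39 55))))) (.rp 13 (.thr 5 53 (.thr 52 22 (.thr 4 6 (.thr 36 20 (.dbl 38 39 55))))) (.rp 9 (.thr 5 53 (.thr 22 52 (.thr 23 20 (.thr 55 39 (.dbl 4 6 38))))) (.rp 5 (.thr 25 13 (.thr 57 9 (.thr 52 22 (.thr 60 56 (.dbl 51 50 54))))) .nd))))))) (.rp 9 (.thr 53 5 (.thr 25 13 (.thr 29 17 (.thr 51 50 (.thr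 12 38 (.dbl 63 46 58)))))) (.rp 7 (.str 11 (.nv (.thr 13 25 (.dbl 5 9 53)) (.rp 53 (.thr 25 13 (.thr 57 9 (.thr 56 26 (.thr 60 52 (.dbl 51 50 54))))) (.rp 25 (.thr 53 5 (.thr 26 56 (.thr 16 31 (.thr 0 32 (.dbl 63 42 58))))) (.rp 13 (.thr 53 5 (.thr 26 56 (.thr 16 31 (.thr 0 32 (.dbl 63 42 58))))) (.rp 9 (.thr 25 13 (.thr 26 56 (.thr 24 27 (.thr 12 36 (.dbl 51 38 50))))) (.rp 5 (.thr 25 13 (.thr 57 9 (.thr 56 26 (.thr 60 52 (.dbl 51 50 54))))) .nd))))))) (.rp 5 (.thr 25 13 (.thr 29 17 (.thr 51 50 (.thr 12 38 (.thr 63 46 (.thr 59 55 (.dbl 42 0 8))))))) .nd))))))))) (.rp 5 (.str 49 (.nv (.thr 25 13 (.thr 51 50 (.thr 57 9 (.thr 60 54 (.thr 56 52 (.dbl 26 11 15)))))) (.nv (.thr 25 13 (.thr 9 57 (.thr 26 15 (.thr 11 56 (.thr 27 24 (.thr 59 43 (.dbl 8 10 42))))))) (.nv (.thr 15 26 (.thr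 51 50 (.thr 39 27 (.thr 38 36 (.dbl 25 12 13))))) (.rp 26 (.thr 25 13 (.thr 51 50 (.thr 38 12 (.thr 55 4 (.thr 63 59 (.thr 0 42 (.dbl 17 29 34))))))) (.rp 25 (.thr 51 50 (.thr 26 15 (.thr 16 31 (.thr 0 32 (.thr 63 42 (.thr 59 55 (.thr 58 53 (.dbl 56 11 57)))))))) (.rp 15 (.thr 25 13 (.thr 29 17 (.thr 51 50 (.thr 12 38 (.thr 63 46 (.thr 59 55 (.dbl 42 0 8))))))) (.rp 13 (.thr 51 50 (.thr 15 26 (.thr 39 27 (.thr 38 36 (.thr 55 4 (.thr 63 59 (.thr 47 31 (.dbl 35 43 44)))))))) (.rp 12 (.thr 51 50 (.thr 15 26 (.thr 39 27 (.thr 38 36 (.thr 55 4 (.thr 63 59 (.thr 47 31 (.dbl 35 43 44)))))))) .nd))))))))) .nd))))))) (.rp 29 (.thr 5 53 (.thr 33 45 (.thr 13 9 (.dbl 49 17 25)))) (.rp 25 (.str 47 (.nv (.thr 33 45 (.thr 32 42 (.thr 35 34 (.thr 38 44 (.dbl 39 36 43))))) (.nv (.thr 42 32 (.thr 53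 5 (.thr 63 0 (.thr 15 31 (.dbl 48 26 58))))) (.rp 42 (.thr 45 33 (.thr 5 53 (.thr 44 46 (.thr 38 35 (.thr 36 39 (.thr 4 55 (.thr 52 20 (.dbl 7 6 22)))))))) (.rp 32 (.thr 45 33 (.thr 53 5 (.thr 44 46 (.thr 35 38 (.thr 43 39 (.thr 42 40 (.thr 63 0 (.thr 15 31 (.dbl 48 26 58))))))))) .nd))))) (.rp 17 (.str 47 (.nv (.thr 42 32 (.thr 53 5 (.thr 63 0 (.thr 15 31 (.dbl 48 26 58))))) (.nv (.thr 42 32 (.thr 43 40 (.thr 35 39 (.thr 44 38 (.dbl 45 33 46))))) (.rp 42 (.thr 45 33 (.thr 5 53 (.thr 44 46 (.thr 38 35 (.thr 36 39 (.thr 4 55 (.thr 52 20 (.dbl 7 6 22)))))))) (.rp 32 (.thr 45 33 (.thr 53 5 (.thr 44 46 (.thr 35 38 (.thr 43 39 (.thr 42 40 (.thr 63 0 (.thr 15 31 (.dbl 48 26 58))))))))) .nd))))) (.rp 13 (.thr 53 5 (.str 42 (.nv (.thr 43 40 (.thr 47 32 (.thr 35 39 (.thr 44 38 (.dbl 45 33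 46))))) (.nv (.thr 47 32 (.thr 63 0 (.thr 15 31 (.dbl 48 26 58)))) (.rp 47 (.thr 45 33 (.thr 63 0 (.thr 48 58 (.thr 15 26 (.thr 60 30 (.thr 52 56 (.thr 22 7 (.thr 20 23 (.thr 55 54 (.dbl 4 36 38)))))))))) (.rp 45 (.str 29 (.nv (.thr 25 17 (.thr 57 9 (.thr 59 8 (.thr 58 56 (.dbl 63 0 48))))) (.nv (.thr 17 25 (.thr 32 47 (.thr 33 49 (.thr 35 34 (.thr 44 38 (.dbl 40 36 43)))))) (.nv (.thr 47 32 (.thr 63 0 (.thr 15 31 (.dbl 48 26 58)))) .nd)))) (.rp 32 (.thr 45 33 (.thr 63 0 (.thr 48 58 (.thr 15 26 (.thr 47 31 (.thr 43 40 (.thr 35 39 (.dbl 44 38 46)))))))) (.rp 29 (.thr 45 33 (.thr 63 0 (.thr 47 32 (.thr 15 31 (.dbl 48 26 58))))) .nd)))))))) (.rp 9 (.thr 33 45 (.thr 49 17 (.thr 13 25 (.thr 5 53 .ext)))) (.rp 5 (.str 42 (.nv (.thr 0 63 (.thr 33 45 (.thr 17 49 (.thr 34 51 (.dbl 32 35 47)))))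 (.nv (.thr 43 40 (.thr 47 32 (.thr 35 39 (.thr 44 38 (.dbl 45 33 46))))) (.rp 47 (.thr 33 45 (.thr 0 63 (.thr 17 49 (.thr 34 51 (.thr 35 32 (.dbl 38 44 46)))))) (.rp 45 (.thr 43 40 (.thr 47 32 (.thr 39 35 (.thr 63 0 (.thr 15 31 (.thr 51 27 (.thr 55 59 (.dbl 38 4 36)))))))) (.rp 43 (.thr 33 45 (.thr 32 47 (.thr 63 0 (.thr 17 49 (.thr 29 25 (.thr 46 12 (.dbl 34 35 38))))))) (.rp 35 (.thr 45 33 (.thr 32 47 (.thr 0 63 (.thr 48 16 (.thr 15 26 (.thr 60 30 (.dbl 40 20 43))))))) (.rp 33 (.thr 43 40 (.thr 47 32 (.thr 35 39 (.thr 44 38 (.thr 46 45 (.thr 63 0 (.thr 15 31 (.thr 12 29 (.thr 13 14 (.thr 25 49 (.thr 59 8 (.thr 11 27 (.dbl 26 48 56))))))))))))) (.rp 32 (.str 15 (.nv (.thr 0 63 (.thr 45 33 (.thr 60 30 (.dbl 40 20 43)))) (.nv (.thr 63 0 (.thr 31 47 (.dbl 26 16 48))) (.rp 63 (.thr 43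 40 (.thr 26 48 (.thr 11 56 (.thr 59 27 (.thr 8 25 (.dbl 10 9 58)))))) (.rp 48 (.thr 33 45 (.thr 0 63 (.thr 17 49 (.thr 51 34 (.thr 39 27 (.thr 38 36 (.dbl 25 12 29))))))) (.rp 0 (.thr 33 45 (.thr 49 17 (.thr 48 26 (.thr 51 50 (.thr 39 27 (.thr 38 36 (.dbl 25 12 13))))))) .nd)))))) .nd))))))))) .nd))))))))))))

theorem w154 : WinAt (2199025352706, 2305843009213693964) :=
  chF (K := [(565295007670306, 2314885392874209804)]) (kc w153 kn) c154 2199025352706 2305843009213693964 61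
    [] (by decide +kernel) (by decide +kernel)

/-- A certificate. -/
noncomputable def c155 : Ct := (.str 37 (.nv (.thr 5 53 (.thr 33 45 (.thr 13 9 (.dbl 49 17 25)))) (.rp 57 (.thr 33 45 (.thr 5 53 (.thr 49 17 (.dbl 13 9 25)))) (.rp 53 (.thr 33 45 (.thr 49 17 (.thr 13 25 (.str 15 (.nv (.thr 48 26 (.thr 3 18 (.thr 7 11 (.dbl 22 52 60)))) (.nv (.thr 5 9 (.thr 26 48 (.thr 31 16 (.thr 63 47 (.dbl 0 10 42))))) (.nv (.thr 9 5 (.thr 12 14 (.thr 48 26 (.dbl 3 6 18)))) (.rp 48 (.thr 5 9 (.thr 0 10 (.thr 63 42 (.thr 31 47 (.thr 26 16 (.thr 11 56 (.thr 3 7 (.thr 23 43 (.dbl 22 20 60))))))))) (.rp 26 (.thr 5 9 (.thr 0 10 (.thr 42 63 (.thr 32 47 (.thr 35 34 (.thr 44 38 (.dbl 40 36 43))))))) (.rp 18 (.thr 5 9 (.thr 0 10 (.thr 63 42 (.thr 31 47 (.dbl 26 16 48))))) .nd)))))))))) (.rp 49 (.thr 45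 33 (.str 15 (.nv (.thr 60 30 (.thr 22 3 (.thr 20 23 (.thr 0 40 (.dbl 5 10 53))))) (.nv (.thr 53 5 (.thr 48 26 (.thr 63 58 (.thr 42 0 (.dbl 47 31 32))))) (.nv (.thr 60 30 (.thr 48 26 (.thr 22 3 (.dbl 52 7 56)))) (.rp 53 (.str 57 (.nv (.thr 9 25 (.thr 13 5 (.thr 12 14 (.thr 60 30 (.dbl 3 6 22))))) (.nv (.thr 9 25 (.thr 5 13 (.thr 0 10 (.thr 48 26 (.thr 32 16 (.dbl 42 47 63)))))) (.nv (.thr 48 26 (.thr 60 30 (.thr 22 3 (.dbl 52 7 56)))) .nd)))) (.rp 48 (.thr 60 30 (.thr 3 22 (.thr 11 7 (.thr 26 56 (.thr 31 16 (.thr 63 47 (.thr 43 23 (.dbl 42 0 40)))))))) .nd))))))) (.rp 45 (.thr 5 53 (.thr 13 9 (.thr 49 25 (.str 48 (.nv (.thr 15 26 (.thr 0 10 (.thr 32 16 (.dbl 42 47 63)))) (.nv (.thr 26 15 (.thr 33 17 (.thr 56 11 (.thr 60 52 (.dbl 3 18 22))))) (.nv (.thr 17 33 (.thr 51 50 (.thr 15 26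 (.dbl 0 10 34)))) (.rp 26 (.thr 33 17 (.thr 3 18 (.thr 22 60 (.thr 7 52 (.thr 15 11 (.thr 20 23 (.thr 12 14 (.thr 24 36 (.thr 16 28 (.dbl 0 10 32)))))))))) (.rp 15 (.thr 33 17 (.thr 50 51 (.thr 3 18 (.thr 60 22 (.thr 56 52 (.thr 26 11 (.thr 16 31 (.thr 38 14 (.thr 35 44 (.dbl 32 0 34)))))))))) (.rp 10 (.thr 33 17 (.thr 3 18 (.thr 60 22 (.thr 56 52 (.dbl 26 11 15))))) .nd)))))))))) (.rp 33 (.str 48 (.nv (.thr 26 15 (.thr 16 31 (.thr 0 32 (.thr 56 11 (.thr 60 52 (.thr 20 40 (.dbl 22 3 23))))))) (.nv (.thr 5 53 (.thr 13 9 (.thr 15 26 (.thr 12 14 (.thr 36 24 (.thr 38 39 (.dbl 25 49 51))))))) (.nv (.thr 53 5 (.thr 63 58 (.thr 15 26 (.thr 47 31 (.dbl 42 0 32))))) (.rp 26 (.thr 53 5 (.thr 63 58 (.thr 42 0 (.thr 32 47 (.thr 40 43 (.thr 36 44 (.thr 12 24 (.thr 46 29 (.dbl 38 34 39)))))))))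 (.rp 15 (.thr 53 5 (.thr 63 58 (.thr 0 42 (.thr 16 32 (.thr 26 31 (.thr 56 11 (.thr 60 52 (.thr 20 40 (.dbl 22 3 23))))))))) .nd)))))) (.rp 25 (.str 32 (.nv (.thr 5 53 (.thr 42 47 (.thr 0 63 (.thr 15 10 (.dbl 48 16 26))))) (.nv (.thr 45 33 (.thr 47 42 (.thr 44 46 (.thr 38 35 (.dbl 36 39 40))))) (.rp 62 (.thr 33 45 (.thr 17 49 (.thr 34 35 (.thr 0 51 (.dbl 42 47 63))))) (.rp 47 (.thr 33 45 (.thr 53 5 (.thr 17 49 (.thr 34 35 (.thr 0 51 (.thr 48 16 (.dbl 63 42 58))))))) (.rp 42 (.thr 33 45 (.thr 17 49 (.thr 34 35 (.thr 0 51 (.thr 48 16 (.thr 15 26 (.dbl 5 10 53))))))) .nd)))))) (.rp 17 (.str 48 (.nv (.thr 5 53 (.thr 15 26 (.thr 0 10 (.thr 32 16 (.dbl 42 47 63))))) (.nv (.thr 15 26 (.thr 45 33 (.thr 60 30 (.thr 22 3 (.dbl 52 7 56))))) (.rp 26 (.thr 53 5 (.thr 33 45 (.thr 3 18 (.thr 22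 60 (.thr 23 20 (.dbl 63 43 58)))))) (.rp 15 (.thr 53 5 (.thr 33 45 (.thr 3 18 (.thr 63 58 (.thr 23 43 (.dbl 22 20 60)))))) .nd))))) (.rp 13 (.thr 45 33 (.str 15 (.nv (.thr 5 53 (.thr 0 10 (.thr 60 30 (.thr 20 40 (.dbl 22 3 23))))) (.nv (.thr 5 53 (.thr 0 10 (.thr 48 26 (.thr 32 16 (.dbl 42 47 63))))) (.nv (.thr 48 26 (.thr 60 30 (.thr 22 3 (.dbl 52 7 56)))) .nd))))) (.rp 9 (.str 32 (.nv (.thr 5 53 (.thr 42 47 (.thr 0 63 (.thr 15 10 (.dbl 48 16 26))))) (.nv (.thr 45 33 (.thr 47 42 (.thr 44 46 (.thr 38 35 (.dbl 36 39 40))))) (.rp 62 (.thr 33 45 (.thr 17 49 (.thr 34 35 (.thr 0 51 (.dbl 42 47 63))))) (.rp 47 (.thr 33 45 (.thr 53 5 (.thr 17 49 (.thr 34 35 (.thr 0 51 (.thr 48 16 (.dbl 63 42 58))))))) (.rp 42 (.thr 33 45 (.thr 17 49 (.thr 34 35 (.thr 0 51 (.thr 48 16 (.thr 15 26 (.dbl 5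 10 53))))))) .nd)))))) (.rp 5 (.thr 33 45 (.thr 49 17 (.thr 13 25 (.str 48 (.nv (.thr 3 18 (.thr 15 26 (.thr 22 60 (.dbl 7 11 52)))) (.nv (.thr 26 15 (.thr 16 31 (.thr 50 51 (.thr 38 14 (.thr 35 44 (.dbl 32 0 34)))))) (.nv (.thr 26 15 (.thr 56 11 (.thr 60 52 (.dbl 3 18 22)))) (.rp 60 (.thr 50 51 (.thr 18 3 (.thr 26 15 (.thr 30 22 (.thr 16 31 (.thr 38 14 (.thr 35 44 (.dbl 32 0 34)))))))) (.rp 26 (.thr 3 18 (.thr 22 60 (.thr 7 52 (.thr 15 11 (.thr 12 14 (.thr 6 9 (.thr 38 54 (.dbl 36 24 39)))))))) (.rp 15 (.thr 50 51 (.thr 3 18 (.thr 60 22 (.thr 56 52 (.thr 26 11 (.thr 16 31 (.thr 38 14 (.thr 35 44 (.dbl 32 0 34))))))))) (.rp 7 (.str 6 (.nv (.thr 15 26 (.thr 12 14 (.dbl 3 9 18))) (.nv (.thr 26 15 (.thr 3 18 (.thr 16 31 (.thr 56 11 (.dbl 60 22 52))))) (.nv (.thr 3 18 (.thr 12 9 (.dbl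 15 14 26))) (.rp 50 (.str 32 (.nv (.thr 42 47 (.thr 40 43 (.thr 44 36 (.dbl 35 34 38)))) (.nv (.thr 34 35 (.thr 16 0 (.dbl 26 15 31))) (.nv (.thr 0 16 (.dbl 42 47 63)) (.rp 34 (.thr 18 3 (.thr 0 16 (.dbl 42 47 63))) .nd))))) (.rp 26 (.thr 3 18 (.thr 12 9 (.thr 22 60 (.thr 38 54 (.dbl 36 24 39))))) (.rp 18 (.thr 26 15 (.thr 16 31 (.thr 50 51 (.thr 38 14 (.thr 35 44 (.dbl 32 0 34)))))) (.rp 15 (.thr 3 18 (.thr 12 9 (.thr 36 24 (.thr 38 39 (.dbl 22 54 60))))) (.rp 3 (.thr 26 15 (.thr 11 56 (.thr 16 31 (.thr 50 51 (.thr 38 14 (.thr 35 44 (.dbl 32 0 34))))))) .nd))))))))) (.rp 6 (.str 7 (.nv (.thr 26 15 (.thr 52 22 (.dbl 56 11 60))) (.nv (.thr 3 18 (.dbl 15 11 26)) (.nv (.thr 22 52 (.dbl 3 18 60)) (.rp 14 (.str 10 (.nv (.thr 26 15 (.thr 16 31 (.thr 0 32 (.dbl 42 58 63)))) (.nv (.thr 22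 52 (.dbl 3 18 60)) (.rp 60 (.thr 3 18 (.dbl 15 11 26)) .nd)))) (.rp 10 (.str 14 (.nv (.thr 3 18 (.dbl 22 52 60)) (.nv (.dbl 15 12 26) (.rp 15 (.str 0 (.nv (.thr 42 63 (.dbl 32 16 47)) (.nv (.thr 22 52 (.dbl 3 18 60)) (.rp 60 (.str 30 (.nv (.thr 18 3 (.dbl 22 26 52)) (.nv (.thr 32 16 (.dbl 42 47 63)) (.rp 63 (.thr 62 46 (.thr 22 52 (.dbl 18 3 26))) (.rp 62 (.thr 63 42 (.thr 22 52 (.dbl 18 3 26))) (.rp 18 (.thr 62 46 (.thr 42 63 (.dbl 32 16 47))) .nd)))))) (.rp 30 (.str 60 (.nv (.thr 32 16 (.dbl 42 47 63)) (.nv (.dbl 52 22 56) .nd))) .nd))))) .nd)))) .nd)))))) .nd)))))))))))) .nd))))))))))))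

theorem w155 : WinAt (2199025352706, 2305843009213693972) :=
  chF (K := []) kn c155 2199025352706 2305843009213693972 61
    [] (by decide +kernel) (by decide +kernel)

/-- A certificate. -/
noncomputable def c156 : Ct := (.str 60 (.nv (.thr 22 3 (.thr 20 23 (.thr 0 40 (.thr 63 42 (.dbl 61 1 62))))) (.rp 63 (.str 45 (.nv (.thr 22 3 (.thr 30 15 (.thr 26 18 (.thr 31 16 (.thr 29 28 (.dbl 61 1 13)))))) (.nv (.thr 37 33 (.thr 15 30 (.thr 48 26 (.thr 52 56 (.dbl 22 3 7))))) (.rp 48 (.thr 33 37 (.thr 22 3 (.thr 30 15 (.thr 26 18 (.thr 31 16 (.thr 29 28 (.dbl 61 1 13))))))) (.rp 33 (.thr 61 1 (.thr 13 29 (.thr 15 30 (.thr 12 14 (.thr 28 44 (.thr 3 22 (.thr 11 7 (.thr 26 56 (.thr 16 31 (.thr 24 20 (.dbl 48 36 37))))))))))) (.rp 30 (.thr 33 37 (.thr 1 61 (.thr 17 49 (.thr 25 29 (.thr 57 9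 (.thr 51 54 (.thr 0 34 (.thr 20 40 (.dbl 22 3 23))))))))) (.rp 26 (.thr 33 37 (.thr 1 61 (.thr 17 49 (.thr 25 29 (.thr 57 9 (.thr 51 54 (.thr 0 34 (.thr 20 40 (.dbl 22 3 23))))))))) (.rp 22 (.thr 37 33 (.thr 61 1 (.thr 13 29 (.thr 49 25 (.thr 57 53 (.thr 51 54 (.thr 48 50 (.dbl 15 26 30)))))))) (.rp 18 (.thr 37 33 (.thr 15 30 (.thr 48 26 (.thr 22 3 (.dbl 52 7 56))))) (.rp 15 (.thr 33 37 (.thr 1 61 (.thr 17 49 (.thr 25 29 (.thr 57 9 (.thr 51 54 (.thr 0 34 (.thr 20 40 (.dbl 22 3 23))))))))) (.rp 7 (.thr 33 37 (.thr 1 61 (.thr 17 49 (.thr 25 29 (.thr 22 3 (.thr 19 28 (.thr 18 16 (.dbl 30 15 26)))))))) (.rp 3 (.thr 33 37 (.thr 1 61 (.thr 17 49 (.thr 25 29 (.thr 57 9 (.thr 51 54 (.thr 34 0 (.thr 35 32 (.dbl 38 12 44))))))))) .nd)))))))))))) (.rp 62 (.str 45 (.nv (.thr 22 3 (.thr 30 15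 (.thr 26 18 (.thr 31 16 (.thr 29 28 (.dbl 61 1 13)))))) (.nv (.thr 37 33 (.thr 15 30 (.thr 48 26 (.thr 52 56 (.dbl 22 3 7))))) (.rp 48 (.thr 33 37 (.thr 22 3 (.thr 30 15 (.thr 26 18 (.thr 31 16 (.thr 29 28 (.dbl 61 1 13))))))) (.rp 33 (.thr 15 30 (.thr 22 3 (.thr 20 23 (.thr 61 1 (.thr 0 40 (.thr 63 42 (.thr 47 31 (.thr 46 44 (.dbl 29 12 13))))))))) (.rp 30 (.thr 37 33 (.thr 22 3 (.thr 52 7 (.thr 48 56 (.thr 20 23 (.thr 0 40 (.thr 32 16 (.dbl 42 47 63)))))))) (.rp 26 (.thr 37 33 (.thr 22 3 (.thr 52 7 (.thr 48 56 (.thr 20 23 (.thr 0 40 (.thr 32 16 (.dbl 42 47 63)))))))) (.rp 22 (.str 42 (.nv (.thr 15 30 (.thr 37 33 (.thr 47 32 (.dbl 63 0 31)))) (.nv (.thr 0 63 (.dbl 40 20 43)) (.rp 63 (.thr 37 33 (.thr 47 32 (.thr 44 46 (.thr 43 40 (.dbl 35 38 39))))) (.rp 0 (.thr 37 33 (.thr 47 32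 (.thr 44 46 (.thr 43 40 (.dbl 35 38 39))))) .nd))))) (.rp 18 (.thr 37 33 (.thr 15 30 (.thr 48 26 (.thr 22 3 (.dbl 52 7 56))))) (.rp 15 (.thr 33 37 (.thr 1 61 (.thr 17 49 (.thr 25 29 (.thr 57 9 (.thr 51 54 (.thr 0 34 (.thr 40 20 (.dbl 42 43 63))))))))) (.rp 7 (.thr 33 37 (.thr 1 61 (.thr 17 49 (.thr 25 29 (.thr 22 3 (.thr 19 28 (.thr 18 16 (.dbl 30 15 26)))))))) (.rp 3 (.thr 33 37 (.thr 1 61 (.thr 17 49 (.thr 25 29 (.thr 57 9 (.thr 51 54 (.thr 0 34 (.thr 40 20 (.dbl 42 43 63))))))))) .nd)))))))))))) (.rp 61 (.str 37 (.nv (.thr 22 3 (.thr 20 23 (.thr 0 40 (.thr 52 7 (.thr 48 56 (.thr 32 16 (.dbl 42 47 63))))))) (.nv (.thr 45 33 (.thr 15 30 (.thr 48 26 (.thr 52 56 (.dbl 22 3 7))))) (.rp 56 (.thr 45 33 (.thr 15 30 (.thr 48 26 (.thr 22 3 (.thr 20 23 (.thr 0 40 (.thr 32 16 (.dbl 42 47 63))))))))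 (.rp 52 (.thr 45 33 (.thr 15 30 (.thr 26 48 (.thr 11 56 (.dbl 3 7 22))))) (.rp 48 (.thr 22 3 (.thr 52 7 (.thr 20 23 (.thr 0 40 (.thr 4 36 (.thr 12 8 (.thr 44 28 (.dbl 38 35 55)))))))) (.rp 22 (.thr 45 33 (.thr 15 30 (.thr 26 48 (.thr 11 56 (.thr 3 7 (.thr 31 16 (.thr 63 47 (.thr 43 23 (.dbl 42 0 40))))))))) (.rp 15 (.thr 33 45 (.thr 3 22 (.thr 48 18 (.thr 56 52 (.thr 26 11 (.thr 16 31 (.thr 0 32 (.thr 40 20 (.dbl 42 43 63))))))))) (.rp 7 (.thr 33 45 (.thr 3 22 (.thr 48 18 (.thr 56 52 (.dbl 26 11 15))))) (.rp 3 (.thr 45 33 (.thr 15 30 (.thr 48 26 (.thr 52 56 (.thr 22 7 (.thr 20 23 (.thr 0 40 (.thr 32 16 (.dbl 42 47 63))))))))) .nd)))))))))) (.rp 43 (.thr 61 1 (.thr 63 62 (.thr 0 42 (.thr 22 3 (.dbl 20 23 40))))) (.rp 42 (.str 45 (.nv (.thr 22 3 (.thr 15 30 (.thr 37 33 (.thr 48 26 (.dbl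 52 7 56))))) (.nv (.thr 15 30 (.thr 37 33 (.thr 26 48 (.thr 31 16 (.thr 61 1 (.dbl 63 47 62)))))) (.nv (.thr 37 33 (.thr 15 30 (.thr 26 48 (.thr 11 56 (.dbl 3 7 22))))) (.rp 48 (.thr 33 37 (.thr 22 3 (.thr 30 15 (.thr 26 18 (.thr 31 16 (.thr 29 28 (.dbl 61 1 13))))))) (.rp 37 (.thr 30 15 (.thr 22 3 (.thr 26 18 (.thr 31 16 (.thr 29 28 (.dbl 61 1 13)))))) (.rp 33 (.thr 15 30 (.thr 22 3 (.thr 20 23 (.thr 61 1 (.thr 0 40 (.thr 63 62 (.thr 47 31 (.thr 46 44 (.dbl 29 12 13))))))))) (.rp 30 (.thr 37 33 (.thr 22 3 (.thr 52 7 (.thr 48 56 (.thr 20 23 (.thr 0 40 (.thr 16 32 (.dbl 26 15 31)))))))) (.rp 26 (.thr 33 37 (.thr 1 61 (.thr 17 49 (.thr 25 29 (.thr 57 9 (.thr 51 54 (.thr 0 34 (.thr 20 40 (.dbl 22 3 23))))))))) (.rp 22 (.str 62 (.nv (.dbl 61 1 63) (.rp 63 (.thr 37 33 (.thr 61 1 (.thr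 13 29 (.thr 49 25 (.thr 57 53 (.thr 15 30 (.thr 51 54 (.dbl 48 26 50)))))))) (.rp 61 (.thr 30 15 (.thr 46 14 (.thr 44 47 (.thr 12 28 (.thr 38 35 (.thr 25 51 (.dbl 29 17 63))))))) (.rp 1 (.thr 37 33 (.thr 63 61 (.thr 15 30 (.thr 26 48 (.dbl 31 16 47))))) .nd))))) (.rp 15 (.thr 33 37 (.thr 1 61 (.thr 17 49 (.thr 25 29 (.thr 57 9 (.thr 51 54 (.thr 0 34 (.thr 20 40 (.dbl 22 3 23))))))))) (.rp 3 (.thr 37 33 (.thr 15 30 (.thr 48 26 (.thr 52 56 (.thr 22 7 (.thr 20 23 (.thr 0 40 (.thr 16 32 (.thr 24 28 (.dbl 36 4 12)))))))))) .nd)))))))))))) (.rp 40 (.str 45 (.nv (.thr 37 33 (.thr 3 22 (.thr 15 30 (.thr 11 7 (.dbl 26 48 56))))) (.nv (.thr 15 30 (.thr 61 1 (.thr 63 62 (.thr 47 31 (.thr 46 44 (.dbl 29 12 13)))))) (.nv (.thr 37 33 (.thr 15 30 (.thr 48 26 (.thr 22 3 (.dbl 52 7 56))))) (.rp 30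 (.thr 33 37 (.thr 1 61 (.thr 17 49 (.thr 25 29 (.thr 57 9 (.thr 51 54 (.thr 34 0 (.thr 35 32 (.dbl 3 19 22))))))))) (.rp 22 (.thr 37 33 (.thr 61 1 (.thr 15 30 (.thr 26 48 (.thr 31 16 (.dbl 63 47 62)))))) (.rp 15 (.thr 33 37 (.thr 1 61 (.thr 17 49 (.thr 25 29 (.thr 57 9 (.thr 51 54 (.thr 12 38 (.thr 28 44 (.dbl 22 3 19))))))))) (.rp 3 (.thr 33 37 (.thr 1 61 (.thr 17 49 (.thr 25 29 (.thr 57 9 (.thr 51 54 (.thr 34 0 (.thr 35 32 (.dbl 38 12 44))))))))) .nd)))))))) (.rp 23 (.str 45 (.nv (.thr 15 30 (.thr 61 1 (.thr 63 62 (.thr 47 31 (.thr 46 44 (.dbl 29 12 13)))))) (.nv (.thr 37 33 (.thr 15 30 (.thr 48 26 (.thr 52 56 (.dbl 22 3 7))))) (.rp 30 (.thr 37 33 (.thr 61 1 (.thr 63 62 (.thr 42 0 (.thr 3 22 (.thr 47 32 (.thr 46 44 (.dbl 29 12 13)))))))) (.rp 22 (.thr 37 33 (.thr 61 1 (.thr 15 30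 (.thr 26 48 (.thr 31 16 (.dbl 63 47 62)))))) (.rp 15 (.thr 33 37 (.thr 1 61 (.thr 17 49 (.thr 25 29 (.thr 57 9 (.thr 51 54 (.thr 0 34 (.thr 40 20 (.dbl 42 43 63))))))))) (.rp 3 (.thr 33 37 (.thr 1 61 (.thr 17 49 (.thr 25 29 (.thr 57 9 (.thr 51 54 (.thr 0 34 (.thr 40 20 (.dbl 42 43 63))))))))) .nd))))))) (.rp 22 (.str 42 (.nv (.thr 61 1 (.dbl 63 0 62)) (.nv (.thr 40 43 (.dbl 0 20 63)) (.rp 63 (.str 44 (.nv (.thr 12 28 (.thr 40 43 (.thr 0 20 (.thr 8 4 (.thr 24 56 (.dbl 36 32 48)))))) (.nv (.thr 12 28 (.thr 38 35 (.thr 4 55 (.thr 8 0 (.dbl 25 51 59))))) (.nv (.thr 35 38 (.thr 43 40 (.thr 47 39 (.thr 37 32 (.dbl 45 33 46))))) .nd)))) (.rp 0 (.thr 1 61 (.str 45 (.nv (.thr 43 40 (.thr 37 33 (.thr 47 32 (.thr 35 39 (.dbl 44 38 46))))) (.nv (.thr 15 30 (.thr 37 33 (.thr 47 32 (.thr 31 63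 (.dbl 26 16 48))))) (.rp 48 (.thr 33 37 (.thr 17 49 (.thr 25 29 (.thr 57 9 (.thr 59 8 (.thr 56 58 (.thr 43 40 (.dbl 11 26 27)))))))) (.rp 47 (.thr 37 33 (.thr 15 30 (.thr 26 48 (.thr 58 10 (.thr 40 43 (.thr 56 11 (.thr 8 24 (.dbl 59 25 57)))))))) (.rp 37 (.thr 15 30 (.str 26 (.nv (.thr 31 16 (.thr 56 11 (.thr 58 10 (.thr 63 47 (.dbl 48 52 53))))) (.nv (.thr 31 16 (.thr 43 40 (.thr 47 63 (.thr 35 39 (.dbl 44 38 46))))) (.nv (.thr 10 58 (.thr 11 56 (.thr 8 9 (.thr 43 40 (.dbl 59 25 27))))) (.rp 52 (.str 7 (.nv (.dbl 11 3 56) (.rp 56 (.thr 3 11 (.thr 31 16 (.thr 43 40 (.dbl 63 23 47)))) (.rp 11 (.thr 31 16 (.thr 43 40 (.thr 47 63 (.thr 44 46 (.dbl 35 38 39))))) (.rp 3 (.thr 31 16 (.thr 43 40 (.thr 47 63 (.thr 44 46 (.dbl 35 38 39))))) .nd))))) (.rp 7 (.str 52 (.nv (.dbl 56 11 48) (.rp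 56 (.thr 31 16 (.thr 47 63 (.thr 44 46 (.thr 43 40 (.dbl 35 38 39))))) (.rp 48 (.thr 10 58 (.thr 11 56 (.thr 8 9 (.thr 43 40 (.dbl 59 25 27))))) (.rp 11 (.thr 48 56 (.thr 58 10 (.thr 31 16 (.dbl 63 47 53)))) (.rp 6 (.str 4 (.nv (.thr 38 55 (.thr 44 35 (.dbl 46 34 47))) (.nv (.dbl 56 11 48) (.rp 38 (.str 54 (.nv (.dbl 56 11 48) (.rp 56 (.thr 31 16 (.thr 63 47 (.thr 53 55 (.dbl 58 10 48)))) (.rp 48 (.thr 56 11 (.thr 57 51 (.dbl 58 10 59))) (.rp 39 (.thr 36 20 (.dbl 56 11 48)) (.rp 36 (.str 39 (.nv (.thr 10 58 (.dbl 51 27 57)) (.nv (.dbl 56 11 48) (.rp 10 (.str 14 (.nv (.dbl 51 27 57) (.nv (.dbl 56 11 48) .nd))) .nd)))) (.rp 14 (.thr 10 58 (.dbl 56 11 48)) (.rp 11 (.thr 56 48 (.thr 57 51 (.dbl 58 10 59))) (.rp 10 (.str 14 (.nv (.thr 36 20 (.thr 12 13 (.dbl 48 24 56))) (.nv (.dbl 56 11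 48) (.rp 56 (.thr 36 20 (.thr 12 13 (.thr 44 28 (.dbl 40 32 43)))) (.rp 48 (.thr 36 20 (.thr 12 13 (.thr 44 28 (.dbl 40 32 43)))) (.rp 36 (.str 39 (.nv (.dbl 51 27 57) (.nv (.dbl 56 11 48) .nd))) .nd)))))) .nd))))))))) (.rp 14 (.thr 10 58 (.dbl 56 11 48)) (.rp 10 (.str 14 (.nv (.dbl 56 11 48) (.nv (.dbl 38 50 55) (.rp 38 (.str 54 (.nv (.thr 36 20 (.thr 12 13 (.dbl 48 24 56))) (.nv (.dbl 56 11 48) (.rp 56 (.thr 36 20 (.thr 12 13 (.thr 44 28 (.dbl 40 32 43)))) (.rp 48 (.thr 36 20 (.thr 12 13 (.thr 44 28 (.dbl 40 32 43)))) (.rp 36 (.str 39 (.nv (.dbl 51 27 57) (.nv (.dbl 56 11 48) .nd))) .nd)))))) .nd)))) .nd)))))) (.rp 4 (.str 6 (.nv (.dbl 56 11 48) (.rp 56 (.thr 31 16 (.thr 47 63 (.thr 44 46 (.thr 43 40 (.dbl 35 38 39))))) (.rp 48 (.thr 10 58 (.thr 11 56 (.thr 8 9 (.thr 43 40 (.dbl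 59 25 27))))) (.rp 12 (.str 8 (.nv (.thr 10 58 (.thr 9 11 (.dbl 25 57 59))) (.nv (.dbl 56 11 48) (.rp 11 (.thr 56 48 (.dbl 40 24 43)) .nd)))) (.rp 11 (.thr 48 56 (.thr 58 10 (.thr 31 16 (.dbl 63 47 53)))) (.rp 8 (.str 12 (.nv (.thr 14 13 (.thr 38 50 (.dbl 44 28 35))) (.nv (.dbl 56 11 48) .nd))) .nd))))))) .nd))))))) .nd))))))) (.rp 35 (.thr 37 33 (.thr 15 30 (.thr 26 48 (.thr 58 10 (.thr 40 43 (.thr 56 11 (.thr 8 24 (.dbl 59 25 57)))))))) (.rp 33 (.str 26 (.nv (.thr 15 30 (.thr 31 16 (.thr 47 63 (.dbl 37 32 48)))) (.nv (.thr 10 58 (.thr 11 56 (.thr 8 9 (.thr 43 40 (.dbl 59 25 27))))) (.nv (.thr 15 30 (.thr 56 11 (.dbl 48 37 52))) .nd)))) (.rp 32 (.thr 33 37 (.thr 17 49 (.thr 25 29 (.thr 57 9 (.thr 59 8 (.thr 56 58 (.thr 43 40 (.dbl 11 26 27)))))))) (.rp 16 (.thr 33 37 (.thr 17 49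 (.thr 25 29 (.thr 57 9 (.thr 59 8 (.thr 56 58 (.thr 43 40 (.dbl 11 26 27)))))))) (.rp 15 (.str 10 (.nv (.thr 33 37 (.thr 17 49 (.thr 25 29 (.thr 8 59 (.dbl 9 11 57))))) (.nv (.thr 37 33 (.thr 47 32 (.thr 44 46 (.thr 43 40 (.dbl 35 38 39))))) (.nv (.thr 26 58 (.thr 11 56 (.thr 8 9 (.thr 43 40 (.dbl 59 25 27))))) .nd)))) .nd)))))))))))) .nd))))) (.rp 20 (.thr 61 1 (.thr 63 62 (.thr 42 0 (.thr 3 22 (.dbl 43 23 40))))) (.rp 3 (.str 0 (.nv (.thr 61 1 (.dbl 63 42 62)) (.nv (.thr 40 20 (.dbl 42 43 63)) (.rp 63 (.thr 1 61 (.thr 20 40 (.str 52 (.nv (.thr 36 4 (.thr 48 56 (.thr 24 12 (.dbl 16 28 32)))) (.nv (.thr 48 56 (.thr 16 32 (.thr 26 31 (.thr 15 37 (.thr 30 45 (.dbl 22 18 23)))))) (.nv (.thr 23 22 (.thr 4 36 (.thr 38 55 (.thr 44 35 (.dbl 12 8 28))))) (.nv (.thr 48 56 (.thr 16 32 (.thr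 24 28 (.dbl 36 4 12)))) (.rp 36 (.thr 56 48 (.thr 26 11 (.thr 16 31 (.thr 24 28 (.thr 25 27 (.thr 57 9 (.thr 51 54 (.dbl 17 29 34)))))))) (.rp 32 (.thr 36 4 (.thr 48 56 (.thr 24 12 (.thr 16 28 (.thr 26 31 (.thr 15 37 (.thr 30 45 (.dbl 22 18 23)))))))) (.rp 23 (.str 43 (.nv (.thr 36 4 (.thr 48 56 (.thr 24 12 (.dbl 16 28 32)))) (.nv (.thr 4 36 (.thr 38 55 (.thr 44 35 (.dbl 12 8 28)))) (.nv (.thr 48 56 (.thr 16 32 (.thr 24 28 (.dbl 36 4 12)))) (.rp 36 (.str 44 (.nv (.thr 12 28 (.thr 38 35 (.thr 51 25 (.thr 54 57 (.dbl 55 4 53))))) (.nv (.thr 48 56 (.thr 16 32 (.dbl 28 12 24))) (.rp 28 (.thr 48 56 (.thr 32 16 (.thr 35 38 (.thr 47 39 (.thr 37 42 (.dbl 45 33 46)))))) (.rp 12 (.thr 48 56 (.thr 32 16 (.thr 35 38 (.thr 47 39 (.thr 37 42 (.dbl 45 33 46)))))) .nd))))) (.rp 32 (.thr 48 56 (.thr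 36 4 (.thr 24 12 (.thr 16 28 (.thr 26 31 (.thr 15 37 (.thr 27 25 (.thr 51 39 (.thr 17 34 (.dbl 49 33 50)))))))))) (.rp 28 (.thr 48 56 (.thr 4 36 (.thr 55 38 (.thr 54 53 (.thr 51 57 (.thr 49 50 (.dbl 17 33 34))))))) (.rp 12 (.thr 48 56 (.thr 4 36 (.thr 55 38 (.thr 54 53 (.thr 51 57 (.thr 49 50 (.dbl 17 33 34))))))) (.rp 4 (.thr 48 56 (.thr 16 32 (.thr 24 28 (.thr 26 31 (.thr 15 37 (.thr 27 25 (.thr 51 39 (.thr 17 34 (.dbl 49 33 50))))))))) .nd))))))))) .nd)))))))))) (.rp 42 (.thr 20 40 (.str 12 (.nv (.thr 22 23 (.thr 4 8 (.thr 38 55 (.thr 54 6 (.dbl 51 25 57))))) (.nv (.thr 28 44 (.thr 16 24 (.thr 26 31 (.thr 56 11 (.dbl 48 32 52))))) (.nv (.thr 44 28 (.thr 38 35 (.dbl 4 8 55))) (.rp 22 (.str 62 (.nv (.thr 4 8 (.thr 38 55 (.dbl 44 28 35))) (.nv (.dbl 61 1 63) .nd))) (.rp 8 (.thr 28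 44 (.thr 22 23 (.thr 25 19 (.thr 17 29 (.dbl 51 34 38))))) .nd))))))) .nd))))) (.rp 1 (.thr 22 3 (.str 0 (.nv (.dbl 20 23 40) (.rp 40 (.thr 20 23 (.thr 63 42 (.thr 61 62 (.str 45 (.nv (.thr 15 30 (.thr 47 31 (.thr 46 44 (.dbl 29 12 13)))) (.nv (.thr 13 29 (.thr 37 33 (.thr 49 25 (.thr 53 57 (.thr 48 58 (.dbl 52 7 56)))))) (.nv (.thr 15 30 (.thr 31 47 (.thr 26 16 (.dbl 37 33 48)))) (.rp 13 (.str 9 (.nv (.thr 25 57 (.thr 17 29 (.thr 51 34 (.thr 55 59 (.dbl 38 4 12))))) (.nv (.thr 15 30 (.thr 31 47 (.thr 26 16 (.dbl 37 33 48)))) (.rp 46 (.thr 30 15 (.thr 25 57 (.thr 29 17 (.dbl 28 19 31)))) .nd)))) .nd)))))))) (.rp 23 (.thr 40 20 (.dbl 42 43 63)) (.rp 20 (.thr 63 42 (.thr 61 62 (.str 45 (.nv (.thr 13 29 (.thr 37 33 (.thr 49 25 (.thr 53 57 (.thr 48 58 (.dbl 52 7 56)))))) (.nv (.thr 15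 30 (.thr 47 31 (.thr 46 44 (.dbl 29 12 13)))) (.rp 29 (.thr 15 30 (.thr 31 47 (.thr 37 33 (.dbl 26 16 48)))) (.rp 13 (.str 9 (.nv (.thr 37 33 (.thr 52 7 (.thr 48 56 (.dbl 15 26 30)))) (.nv (.thr 25 57 (.thr 28 19 (.thr 12 44 (.dbl 29 17 46)))) (.rp 17 (.thr 15 30 (.thr 31 47 (.thr 26 16 (.dbl 37 33 48)))) .nd)))) .nd))))))) (.rp 13 (.str 9 (.nv (.dbl 20 23 40) (.rp 40 (.thr 25 57 (.thr 17 29 (.thr 28 19 (.thr 12 44 (.dbl 51 34 38))))) (.rp 23 (.thr 40 20 (.dbl 42 43 63)) (.rp 20 (.thr 25 57 (.thr 17 29 (.thr 28 19 (.thr 12 44 (.dbl 51 34 38))))) .nd))))) (.rp 9 (.str 13 (.nv (.dbl 20 23 40) (.rp 40 (.thr 63 42 (.thr 61 62 (.thr 29 45 (.thr 25 17 (.thr 28 19 (.dbl 12 44 46)))))) (.rp 23 (.thr 40 20 (.dbl 42 43 63)) (.rp 20 (.thr 63 42 (.thr 61 62 (.thr 29 45 (.thr 25 17 (.thr 28 19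 (.dbl 12 44 46)))))) (.rp 12 (.str 6 (.nv (.dbl 20 23 40) (.rp 40 (.thr 54 38 (.thr 51 57 (.thr 17 34 (.thr 29 25 (.thr 61 45 (.dbl 63 42 62)))))) (.rp 23 (.thr 40 20 (.dbl 42 43 63)) (.rp 20 (.thr 54 38 (.thr 51 57 (.thr 17 34 (.thr 29 25 (.thr 61 45 (.dbl 63 42 62)))))) .nd))))) (.rp 6 (.str 12 (.nv (.thr 4 8 (.thr 38 55 (.dbl 44 28 35))) (.nv (.dbl 20 23 40) (.rp 14 (.str 10 (.nv (.thr 4 8 (.thr 38 55 (.dbl 44 28 35))) (.nv (.dbl 20 23 40) (.rp 4 (.str 7 (.nv (.thr 28 44 (.thr 25 19 (.dbl 37 49 52))) (.nv (.dbl 20 23 40) .nd))) .nd)))) (.rp 10 (.thr 14 15 (.dbl 20 23 40)) (.rp 4 (.str 7 (.nv (.thr 28 44 (.thr 25 19 (.dbl 37 49 52))) (.nv (.dbl 20 23 40) (.rp 14 (.str 10 (.nv (.thr 28 44 (.thr 25 19 (.dbl 37 49 52))) (.nv (.dbl 20 23 40) .nd))) (.rp 10 (.thr 14 15 (.dbl 20 23 40))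 .nd))))) .nd)))))) .nd))))))) .nd)))))))) (.rp 0 (.str 15 (.nv (.thr 3 22 (.thr 45 30 (.thr 11 7 (.thr 37 33 (.dbl 26 48 56))))) (.nv (.thr 3 22 (.thr 11 7 (.thr 26 56 (.thr 31 16 (.thr 61 1 (.dbl 63 47 62)))))) (.nv (.thr 45 30 (.thr 37 33 (.thr 48 26 (.thr 52 56 (.dbl 22 3 7))))) (.rp 56 (.thr 30 45 (.thr 1 61 (.thr 22 3 (.thr 23 20 (.thr 26 18 (.thr 31 16 (.thr 19 27 (.dbl 28 25 29)))))))) (.rp 48 (.thr 45 30 (.thr 1 61 (.thr 33 37 (.thr 17 49 (.thr 25 29 (.thr 57 9 (.thr 22 3 (.thr 28 19 (.thr 12 44 (.dbl 51 38 54)))))))))) (.rp 37 (.thr 30 45 (.thr 1 61 (.thr 22 3 (.thr 23 20 (.thr 26 18 (.thr 31 16 (.thr 19 27 (.dbl 28 25 29)))))))) (.rp 26 (.thr 45 30 (.thr 1 61 (.thr 37 33 (.thr 22 3 (.thr 7 52 (.thr 23 20 (.thr 39 55 (.thr 51 27 (.thr 54 57 (.dbl 38 6 36)))))))))) (.rp 22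 (.thr 45 30 (.thr 37 33 (.thr 26 48 (.thr 11 56 (.thr 61 1 (.thr 3 7 (.thr 13 29 (.thr 12 14 (.thr 28 44 (.thr 16 31 (.thr 24 20 (.dbl 25 27 49)))))))))))) (.rp 7 (.thr 30 45 (.thr 1 61 (.thr 22 3 (.thr 26 18 (.thr 56 11 (.dbl 48 37 52)))))) (.rp 3 (.thr 1 61 (.thr 45 30 (.thr 33 37 (.thr 17 49 (.thr 25 29 (.thr 57 9 (.thr 51 54 (.thr 12 38 (.thr 28 44 (.thr 22 19 (.thr 20 23 (.thr 24 16 (.dbl 27 26 39))))))))))))) .nd))))))))))) .nd))))))))))))))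

theorem w156 : WinAt (2199025352704, 36) :=
  chF (K := []) kn c156 2199025352704 36 5
    [] (by decide +kernel) (by decide +kernel)

/-- A certificate. -/
noncomputable def c157 : Ct := (.str 37 (.nv (.thr 5 53 (.thr 33 45 (.thr 1 61 (.thr 49 17 (.dbl 13 9 25))))) (.rp 61 (.thr 45 33 (.str 47 (.nv (.thr 42 32 (.thr 53 5 (.thr 63 0 (.thr 15 31 (.dbl 48 26 58))))) (.nv (.thr 42 32 (.thr 43 40 (.thr 44 46 (.dbl 35 38 39)))) (.rp 42 (.thr 53 5 (.thr 44 46 (.thr 38 35 (.thr 39 36 (.thr 55 4 (.thr 7 23 (.dbl 52 22 54))))))) (.rp 35 (.thr 53 5 (.thr 46 44 (.thr 42 32 (.thr 34 38 (.thr 63 0 (.thr 15 31 (.dbl 48 26 58))))))) (.rp 34 (.thr 44 46 (.thr 35 38 (.thr 42 32 (.dbl 43 39 40)))) (.rp 32 (.thr 53 5 (.thr 44 46 (.thr 35 38 (.thr 43 39 (.thr 42 40 (.thr 63 0 (.thr 15 31 (.dbl 48 26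 58)))))))) (.rp 14 (.str 10 (.nv (.thr 5 53 (.thr 15 0 (.thr 31 63 (.dbl 26 16 48)))) (.nv (.thr 32 42 (.thr 44 46 (.thr 36 40 (.dbl 38 35 39)))) (.nv (.thr 5 53 (.thr 0 15 (.dbl 42 32 63))) .nd)))) (.rp 10 (.str 14 (.nv (.thr 42 32 (.thr 53 5 (.thr 63 0 (.thr 15 31 (.dbl 48 26 58))))) (.nv (.thr 46 44 (.thr 30 62 (.thr 15 60 (.thr 63 31 (.dbl 12 13 29))))) (.nv (.thr 42 32 (.thr 43 40 (.thr 44 46 (.dbl 35 38 39)))) (.rp 42 (.thr 44 46 (.thr 38 35 (.thr 26 50 (.thr 31 16 (.dbl 15 48 63))))) .nd))))) .nd)))))))))) (.rp 53 (.thr 61 1 (.thr 33 45 (.str 3 (.nv (.thr 60 22 (.thr 63 62 (.thr 42 0 (.dbl 43 23 40)))) (.nv (.thr 48 18 (.thr 15 26 (.thr 22 60 (.dbl 7 11 52)))) (.rp 60 (.thr 48 18 (.thr 15 26 (.thr 7 11 (.thr 22 52 (.thr 23 20 (.thr 63 43 (.thr 47 31 (.dbl 42 0 32)))))))) (.rp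 22 (.thr 48 18 (.thr 26 15 (.thr 56 11 (.thr 60 52 (.thr 63 62 (.thr 42 0 (.dbl 43 23 40))))))) (.rp 14 (.str 10 (.nv (.thr 48 18 (.thr 26 15 (.thr 16 31 (.thr 0 32 (.dbl 42 58 63))))) (.nv (.thr 60 22 (.thr 63 62 (.thr 42 0 (.dbl 43 23 40)))) (.nv (.thr 48 18 (.thr 15 26 (.thr 22 60 (.dbl 7 11 52)))) (.rp 60 (.thr 48 18 (.thr 15 26 (.thr 0 5 (.thr 42 63 (.dbl 32 16 47))))) .nd))))) (.rp 10 (.str 14 (.nv (.thr 48 18 (.thr 15 26 (.thr 7 11 (.dbl 22 52 60)))) (.nv (.thr 60 22 (.thr 63 62 (.thr 42 0 (.dbl 43 23 40)))) (.rp 60 (.thr 48 18 (.thr 15 26 (.thr 12 13 (.thr 36 24 (.thr 38 39 (.thr 35 44 (.dbl 51 19 25))))))) (.rp 42 (.thr 22 60 (.thr 7 52 (.thr 15 11 (.dbl 48 18 26)))) (.rp 22 (.thr 48 18 (.thr 26 15 (.thr 16 31 (.thr 56 11 (.thr 0 32 (.thr 60 52 (.dbl 63 42 62))))))) (.rp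 15 (.thr 60 22 (.thr 48 18 (.thr 56 52 (.thr 26 11 (.thr 16 31 (.thr 0 32 (.dbl 63 42 62))))))) .nd))))))) .nd))))))))) (.rp 49 (.thr 5 53 (.thr 61 1 (.thr 33 45 (.str 3 (.nv (.thr 60 22 (.thr 63 62 (.thr 42 0 (.dbl 43 23 40)))) (.nv (.thr 48 18 (.thr 15 26 (.thr 22 60 (.dbl 7 11 52)))) (.rp 60 (.thr 48 18 (.thr 15 26 (.thr 7 11 (.thr 22 52 (.thr 23 20 (.thr 63 43 (.dbl 0 10 42))))))) (.rp 22 (.thr 48 18 (.thr 26 15 (.thr 56 11 (.thr 60 52 (.thr 63 62 (.thr 42 0 (.dbl 43 23 40))))))) (.rp 14 (.str 10 (.nv (.thr 60 22 (.thr 63 62 (.thr 42 0 (.dbl 43 23 40)))) (.nv (.thr 15 0 (.dbl 48 18 26)) (.rp 0 (.thr 48 18 (.thr 15 26 (.thr 7 11 (.dbl 22 52 60)))) .nd)))) (.rp 10 (.str 14 (.nv (.thr 48 18 (.thr 26 15 (.thr 56 11 (.dbl 60 22 52)))) (.nv (.thr 60 22 (.thr 63 62 (.thr 42 0 (.dbl 43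 23 40)))) (.rp 60 (.thr 48 18 (.thr 15 26 (.thr 12 13 (.thr 36 24 (.thr 38 39 (.thr 35 44 (.dbl 51 19 25))))))) (.rp 22 (.thr 48 18 (.thr 26 15 (.thr 16 31 (.thr 56 11 (.thr 0 32 (.thr 60 52 (.dbl 63 42 62))))))) .nd))))) .nd)))))))))) (.rp 45 (.thr 5 53 (.str 3 (.nv (.thr 22 60 (.thr 7 52 (.thr 15 11 (.thr 23 20 (.thr 63 43 (.thr 31 47 (.dbl 26 16 48))))))) (.nv (.thr 61 1 (.thr 60 22 (.thr 63 62 (.thr 42 0 (.dbl 43 23 40))))) (.rp 63 (.thr 1 61 (.thr 13 9 (.thr 49 25 (.thr 33 17 (.thr 48 18 (.thr 15 26 (.thr 7 11 (.dbl 22 52 60)))))))) (.rp 60 (.thr 1 61 (.thr 13 9 (.thr 49 25 (.thr 33 17 (.thr 48 18 (.thr 15 26 (.thr 7 11 (.thr 22 52 (.thr 23 20 (.thr 63 43 (.dbl 0 10 42))))))))))) (.rp 54 (.thr 22 60 (.thr 23 20 (.thr 63 43 (.thr 0 42 (.thr 7 52 (.thr 55 39 (.dbl 15 10 11)))))))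 (.rp 43 (.thr 1 61 (.thr 13 9 (.thr 49 25 (.thr 33 17 (.thr 48 18 (.thr 15 26 (.thr 7 11 (.dbl 22 52 60)))))))) (.rp 40 (.thr 1 61 (.thr 13 9 (.thr 49 25 (.thr 33 17 (.thr 48 18 (.thr 15 26 (.thr 7 11 (.dbl 22 52 60)))))))) (.rp 23 (.thr 1 61 (.thr 13 9 (.thr 49 25 (.thr 33 17 (.thr 48 18 (.thr 15 26 (.thr 7 11 (.dbl 22 52 60)))))))) (.rp 22 (.thr 1 61 (.thr 13 9 (.thr 49 25 (.thr 33 17 (.thr 48 18 (.thr 26 15 (.thr 56 11 (.thr 60 52 (.thr 16 31 (.thr 0 32 (.thr 40 20 (.dbl 42 43 63)))))))))))) (.rp 14 (.str 10 (.nv (.thr 0 15 (.thr 60 22 (.thr 40 20 (.dbl 42 43 63)))) (.nv (.thr 15 0 (.thr 11 7 (.dbl 26 48 56))) (.rp 15 (.thr 61 1 (.thr 60 22 (.thr 63 62 (.thr 42 0 (.dbl 43 23 40))))) (.rp 0 (.thr 1 61 (.thr 13 9 (.thr 49 25 (.thr 33 17 (.thr 48 18 (.thr 15 26 (.thr 7 11 (.dbl 22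 52 60)))))))) .nd))))) (.rp 10 (.str 14 (.nv (.thr 1 61 (.thr 13 9 (.thr 15 12 (.thr 11 7 (.dbl 26 48 56))))) (.nv (.thr 60 22 (.thr 61 1 (.thr 63 62 (.thr 42 0 (.dbl 43 23 40))))) (.rp 61 (.thr 22 60 (.thr 7 52 (.thr 15 11 (.thr 13 12 (.thr 9 1 (.dbl 25 49 57)))))) (.rp 1 (.thr 22 60 (.thr 23 20 (.thr 63 43 (.thr 7 52 (.thr 15 11 (.thr 47 31 (.dbl 42 0 32))))))) .nd))))) (.rp 0 (.thr 1 61 (.thr 13 9 (.thr 49 25 (.thr 33 17 (.thr 48 18 (.thr 15 26 (.thr 7 11 (.dbl 22 52 60)))))))) .nd)))))))))))))) (.rp 33 (.thr 1 61 (.str 48 (.nv (.thr 26 15 (.thr 16 31 (.thr 0 32 (.thr 56 11 (.thr 60 52 (.thr 20 40 (.dbl 22 3 23))))))) (.nv (.thr 53 5 (.thr 63 58 (.thr 15 26 (.thr 47 31 (.dbl 42 0 32))))) (.rp 63 (.thr 5 53 (.thr 13 9 (.thr 15 26 (.thr 12 14 (.thr 10 0 (.thr 36 24 (.thr 38 39 (.dbl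 25 49 51)))))))) (.rp 47 (.thr 53 5 (.thr 63 58 (.thr 0 42 (.thr 16 32 (.dbl 26 15 31))))) (.rp 32 (.thr 53 5 (.thr 63 58 (.thr 0 42 (.thr 26 15 (.thr 56 11 (.thr 60 52 (.thr 20 40 (.dbl 22 3 23)))))))) (.rp 31 (.thr 53 5 (.thr 63 58 (.thr 0 42 (.thr 26 15 (.thr 56 11 (.thr 60 52 (.thr 20 40 (.dbl 22 3 23)))))))) (.rp 26 (.thr 53 5 (.thr 63 58 (.thr 42 0 (.thr 32 47 (.thr 40 43 (.thr 36 44 (.thr 12 24 (.thr 46 29 (.dbl 38 34 39))))))))) (.rp 15 (.thr 53 5 (.thr 63 58 (.thr 0 42 (.thr 16 32 (.thr 26 31 (.thr 56 11 (.thr 60 52 (.thr 20 40 (.dbl 22 3 23))))))))) (.rp 14 (.str 10 (.nv (.thr 26 15 (.thr 16 31 (.thr 0 32 (.dbl 42 58 63)))) (.nv (.thr 5 53 (.dbl 15 0 26)) (.rp 26 (.thr 5 53 (.thr 0 15 (.thr 32 16 (.dbl 42 47 63)))) (.rp 15 (.thr 53 5 (.thr 58 63 (.thr 26 42 (.thr 56 11 (.thr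 60 52 (.thr 57 59 (.thr 25 9 (.thr 51 54 (.dbl 49 13 50))))))))) (.rp 0 (.thr 53 5 (.thr 26 15 (.dbl 58 42 63))) .nd)))))) (.rp 10 (.str 14 (.nv (.thr 5 53 (.thr 13 9 (.dbl 15 12 26))) (.nv (.thr 15 26 (.thr 53 5 (.thr 63 58 (.thr 42 0 (.dbl 47 31 32))))) (.nv (.thr 15 26 (.thr 13 12 (.dbl 5 9 53))) (.rp 53 (.thr 15 26 (.thr 13 12 (.thr 9 5 (.dbl 25 49 57)))) (.rp 26 (.thr 5 53 (.thr 13 9 (.thr 12 15 (.thr 36 24 (.thr 38 39 (.dbl 25 49 51)))))) (.rp 15 (.str 0 (.nv (.thr 53 5 (.dbl 63 42 58)) (.nv (.thr 32 16 (.dbl 42 47 63)) (.rp 63 (.thr 16 32 (.thr 5 53 (.thr 13 9 (.thr 49 25 (.thr 50 51 (.dbl 26 31 38)))))) (.rp 42 (.thr 16 32 (.thr 5 53 (.thr 13 9 (.thr 49 25 (.thr 26 31 (.dbl 50 38 51)))))) .nd))))) (.rp 5 (.thr 15 26 (.thr 12 13 (.thr 36 24 (.thr 38 39 (.thr 44 35 (.thr 32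 40 (.thr 0 16 (.dbl 4 8 55)))))))) .nd)))))))) (.rp 7 (.thr 26 15 (.thr 16 31 (.thr 0 32 (.thr 63 42 (.dbl 53 5 58))))) (.rp 0 (.thr 53 5 (.thr 63 58 (.thr 15 26 (.thr 47 31 (.thr 42 32 (.thr 43 40 (.thr 3 23 (.thr 7 11 (.dbl 22 52 60))))))))) .nd)))))))))))))) (.rp 29 (.thr 5 53 (.thr 33 45 (.thr 1 61 (.thr 13 9 (.dbl 49 17 25))))) (.rp 25 (.thr 5 53 (.str 10 (.nv (.thr 0 15 (.thr 61 1 (.thr 63 42 (.thr 60 62 (.thr 22 3 (.dbl 20 23 40)))))) (.nv (.thr 0 15 (.thr 42 63 (.thr 43 40 (.thr 45 33 (.thr 47 32 (.thr 44 46 (.dbl 35 38 39))))))) (.nv (.thr 15 0 (.thr 45 33 (.thr 48 26 (.thr 60 30 (.thr 52 56 (.dbl 22 3 7)))))) (.rp 15 (.thr 45 33 (.thr 1 61 (.thr 9 13 (.thr 11 8 (.thr 26 56 (.thr 42 58 (.thr 47 32 (.thr 44 46 (.thr 35 38 (.dbl 43 39 40)))))))))) (.rp 0 (.thr 45 33 (.thr 1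 61 (.thr 9 13 (.thr 11 8 (.thr 26 56 (.thr 15 48 (.thr 3 7 (.dbl 60 22 30)))))))) .nd))))))) (.rp 17 (.thr 53 5 (.thr 45 33 (.thr 61 1 (.thr 49 57 (.dbl 13 25 29))))) (.rp 14 (.str 10 (.nv (.thr 5 53 (.thr 15 0 (.thr 26 48 (.thr 11 56 (.thr 9 8 (.dbl 1 13 61)))))) (.nv (.thr 1 61 (.thr 33 45 (.thr 5 53 (.thr 49 17 (.dbl 13 9 25))))) (.rp 61 (.thr 33 45 (.thr 5 53 (.thr 15 0 (.thr 48 26 (.thr 3 18 (.thr 7 11 (.dbl 22 52 60))))))) (.rp 53 (.thr 33 45 (.thr 1 61 (.thr 49 17 (.thr 13 25 (.thr 5 9 (.thr 15 0 (.thr 48 26 (.thr 3 18 (.thr 7 11 (.dbl 22 52 60)))))))))) (.rp 13 (.thr 33 45 (.thr 5 53 (.thr 15 0 (.thr 48 26 (.thr 3 18 (.thr 7 11 (.dbl 22 52 60))))))) (.rp 9 (.thr 45 33 (.thr 53 5 (.thr 61 1 (.thr 13 29 (.dbl 49 25 57))))) (.rp 5 (.thr 1 61 (.str 26 (.nv (.thr 11 56 (.thr 9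 8 (.thr 33 45 (.thr 17 49 (.dbl 25 29 57))))) (.nv (.thr 15 48 (.thr 31 16 (.thr 42 58 (.dbl 63 0 47)))) (.rp 7 (.str 4 (.nv (.thr 11 56 (.thr 9 8 (.thr 33 45 (.thr 17 49 (.dbl 25 29 57))))) (.nv (.thr 15 48 (.thr 31 16 (.thr 42 58 (.dbl 63 0 47)))) .nd))) (.rp 4 (.str 7 (.nv (.thr 15 48 (.thr 31 16 (.thr 42 58 (.dbl 47 32 63)))) (.nv (.thr 15 48 (.dbl 11 3 56)) (.rp 48 (.thr 11 56 (.thr 3 15 (.dbl 22 52 60))) (.rp 15 (.thr 33 45 (.thr 17 49 (.thr 16 31 (.thr 18 19 (.dbl 22 30 52))))) .nd))))) .nd)))))) (.rp 1 (.thr 45 33 (.thr 5 53 (.thr 0 15 (.thr 42 63 (.thr 47 32 (.thr 43 40 (.thr 35 39 (.dbl 44 38 46)))))))) .nd))))))))) (.rp 13 (.thr 5 53 (.thr 45 33 (.str 15 (.nv (.thr 26 48 (.thr 31 16 (.thr 63 47 (.dbl 0 10 42)))) (.nv (.thr 61 1 (.thr 60 30 (.thr 63 62 (.dbl 0 10 42))))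 (.nv (.thr 48 26 (.thr 60 30 (.thr 52 56 (.dbl 22 3 7)))) (.rp 14 (.thr 10 0 (.thr 60 30 (.thr 3 22 (.thr 11 7 (.dbl 26 48 56))))) (.rp 10 (.str 14 (.nv (.thr 26 48 (.thr 31 16 (.thr 38 50 (.thr 44 35 (.dbl 47 46 63))))) (.nv (.thr 30 60 (.thr 46 62 (.thr 47 44 (.thr 42 32 (.dbl 63 0 31))))) (.nv (.thr 26 48 (.thr 11 56 (.thr 60 30 (.dbl 3 7 22)))) (.rp 63 (.thr 60 30 (.thr 3 22 (.thr 11 7 (.dbl 26 48 56)))) .nd))))) (.rp 3 (.thr 60 30 (.thr 48 26 (.thr 52 56 (.thr 22 7 (.thr 20 23 (.dbl 0 10 40)))))) .nd))))))))) (.rp 10 (.str 14 (.nv (.thr 5 53 (.thr 33 45 (.thr 1 61 (.thr 49 17 (.dbl 13 9 25))))) (.rp 61 (.str 15 (.nv (.thr 26 48 (.thr 11 56 (.thr 45 33 (.thr 60 30 (.dbl 3 7 22))))) (.nv (.thr 5 53 (.thr 13 12 (.thr 9 1 (.dbl 25 49 57)))) (.rp 3 (.thr 12 13 (.thr 26 48 (.thr 38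 50 (.thr 51 25 (.dbl 39 27 36))))) .nd)))) (.rp 53 (.thr 45 33 (.thr 61 1 (.thr 13 29 (.thr 15 12 (.thr 60 30 (.thr 3 22 (.thr 11 7 (.dbl 26 48 56)))))))) (.rp 49 (.str 15 (.nv (.thr 12 13 (.thr 26 48 (.thr 38 50 (.thr 51 25 (.dbl 39 27 36))))) (.nv (.thr 13 12 (.thr 5 53 (.dbl 1 9 61))) (.rp 13 (.thr 45 33 (.thr 60 30 (.thr 3 22 (.thr 11 7 (.dbl 26 48 56))))) (.rp 12 (.thr 45 33 (.thr 60 30 (.thr 3 22 (.thr 11 7 (.dbl 26 48 56))))) .nd))))) (.rp 45 (.thr 61 1 (.thr 53 5 (.thr 49 57 (.thr 13 25 (.thr 15 12 (.thr 26 48 (.thr 38 50 (.thr 35 44 (.thr 31 16 (.thr 47 63 (.dbl 39 36 43))))))))))) (.rp 33 (.thr 61 1 (.thr 53 5 (.thr 49 57 (.thr 13 25 (.thr 45 29 (.thr 15 12 (.thr 60 30 (.thr 63 62 (.dbl 48 26 58))))))))) (.rp 29 (.thr 33 45 (.thr 5 53 (.thr 1 61 (.thr 13 9 (.dbl 49 17 25)))))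 (.rp 25 (.thr 45 33 (.thr 61 1 (.thr 13 29 (.thr 53 5 (.thr 15 12 (.thr 60 30 (.thr 63 62 (.dbl 48 26 58)))))))) (.rp 17 (.thr 45 33 (.thr 53 5 (.thr 61 1 (.thr 49 57 (.dbl 13 25 29))))) (.rp 13 (.str 15 (.nv (.thr 26 48 (.thr 31 16 (.thr 38 50 (.thr 35 44 (.thr 39 36 (.dbl 47 43 63)))))) (.nv (.thr 26 48 (.thr 45 33 (.thr 11 56 (.thr 60 30 (.dbl 3 7 22))))) (.rp 48 (.thr 45 33 (.thr 61 1 (.thr 60 30 (.thr 63 62 (.thr 47 31 (.dbl 42 0 32)))))) (.rp 26 (.thr 45 33 (.thr 61 1 (.thr 60 30 (.thr 63 62 (.thr 47 31 (.dbl 42 0 32)))))) (.rp 18 (.thr 45 33 (.thr 60 30 (.thr 3 22 (.thr 26 48 (.dbl 11 7 56))))) .nd)))))) (.rp 9 (.thr 45 33 (.thr 61 1 (.thr 13 29 (.thr 53 5 (.dbl 49 25 57))))) (.rp 5 (.thr 45 33 (.thr 61 1 (.thr 13 29 (.thr 15 12 (.thr 60 30 (.thr 3 22 (.thr 26 48 (.dbl 11 7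 56)))))))) (.rp 1 (.str 3 (.nv (.thr 33 45 (.thr 48 18 (.thr 53 5 (.thr 63 58 (.thr 43 23 (.dbl 42 0 40)))))) (.nv (.thr 22 60 (.thr 20 23 (.thr 52 7 (.thr 4 36 (.thr 55 38 (.dbl 53 5 54)))))) (.nv (.thr 22 60 (.thr 7 52 (.thr 15 11 (.thr 33 45 (.dbl 48 18 26))))) (.rp 7 (.thr 33 45 (.thr 60 22 (.thr 48 18 (.thr 26 15 (.dbl 56 11 52))))) .nd))))) .nd)))))))))))))) (.rp 9 (.thr 53 5 (.thr 45 33 (.thr 61 1 (.thr 13 29 (.dbl 49 25 57))))) (.rp 5 (.thr 1 61 (.str 26 (.nv (.thr 16 31 (.thr 33 45 (.thr 17 49 (.thr 18 19 (.dbl 48 3 15))))) (.nv (.thr 45 33 (.thr 15 48 (.thr 60 30 (.thr 11 56 (.dbl 3 7 22))))) (.rp 48 (.thr 33 45 (.thr 17 49 (.thr 29 25 (.thr 31 16 (.thr 30 28 (.thr 22 18 (.thr 60 3 (.thr 20 23 (.thr 0 40 (.thr 52 7 (.thr 4 36 (.thr 12 8 (.dbl 63 42 46))))))))))))) (.rp 45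 (.thr 48 15 (.thr 56 11 (.thr 60 52 (.thr 16 31 (.thr 0 32 (.thr 20 40 (.dbl 22 3 23))))))) (.rp 33 (.thr 48 15 (.thr 56 11 (.thr 60 52 (.thr 16 31 (.thr 0 32 (.thr 20 40 (.dbl 22 3 23))))))) (.rp 18 (.thr 48 15 (.thr 56 11 (.thr 60 52 (.thr 16 31 (.thr 0 32 (.thr 20 40 (.dbl 22 3 23))))))) (.rp 15 (.thr 33 45 (.thr 17 49 (.thr 16 31 (.thr 18 19 (.thr 3 48 (.dbl 22 30 60)))))) (.rp 14 (.str 10 (.nv (.thr 11 56 (.thr 9 8 (.thr 33 45 (.thr 17 49 (.dbl 25 29 57))))) (.nv (.thr 15 48 (.thr 31 16 (.thr 42 58 (.dbl 63 0 47)))) (.rp 7 (.str 4 (.nv (.thr 11 56 (.thr 9 8 (.thr 33 45 (.thr 17 49 (.dbl 25 29 57))))) (.nv (.thr 15 48 (.thr 31 16 (.thr 42 58 (.dbl 63 0 47)))) .nd))) (.rp 4 (.str 7 (.nv (.thr 15 48 (.thr 31 16 (.thr 42 58 (.dbl 47 32 63)))) (.nv (.thr 15 48 (.dbl 11 3 56)) (.rp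 48 (.thr 11 56 (.thr 3 15 (.dbl 22 52 60))) (.rp 15 (.thr 33 45 (.thr 17 49 (.thr 16 31 (.thr 18 19 (.dbl 22 30 52))))) .nd))))) .nd))))) (.rp 10 (.str 14 (.nv (.thr 11 56 (.thr 38 50 (.thr 39 36 (.thr 55 4 (.thr 7 23 (.dbl 15 3 48)))))) (.nv (.thr 15 48 (.thr 33 45 (.thr 49 17 (.dbl 13 12 25)))) (.rp 48 (.thr 45 33 (.thr 38 50 (.thr 36 39 (.thr 44 35 (.thr 32 40 (.dbl 47 42 46)))))) (.rp 15 (.str 0 (.nv (.thr 33 45 (.thr 38 50 (.thr 42 63 (.thr 34 46 (.dbl 17 49 51))))) (.nv (.thr 33 45 (.thr 17 49 (.thr 34 51 (.thr 35 32 (.dbl 38 44 50))))) (.nv (.thr 16 31 (.thr 32 48 (.dbl 42 47 63))) (.rp 7 (.str 4 (.nv (.thr 16 31 (.thr 32 48 (.dbl 42 47 63))) (.nv (.dbl 38 50 55) (.rp 11 (.str 3 (.nv (.thr 16 31 (.thr 32 48 (.dbl 42 47 63))) (.nv (.dbl 38 50 55) (.rp 9 (.thr 8 12 (.dbl 38 50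 55)) (.rp 8 (.str 9 (.nv (.thr 16 31 (.thr 32 48 (.dbl 42 47 63))) (.nv (.dbl 38 50 55) .nd))) .nd))))) (.rp 3 (.thr 11 56 (.dbl 38 50 55)) .nd))))) (.rp 4 (.str 7 (.nv (.thr 22 52 (.thr 20 23 (.dbl 60 3 40))) (.nv (.thr 16 31 (.thr 32 48 (.dbl 42 47 63))) .nd))) .nd)))))) (.rp 7 (.str 4 (.nv (.dbl 38 50 55) (.rp 55 (.thr 33 45 (.thr 49 17 (.thr 13 25 (.dbl 15 12 48)))) (.rp 50 (.thr 33 45 (.thr 49 17 (.thr 13 25 (.dbl 15 12 48)))) (.rp 38 (.thr 33 45 (.thr 49 17 (.thr 13 25 (.dbl 15 12 48)))) (.rp 15 (.str 0 (.nv (.thr 16 31 (.thr 32 48 (.dbl 42 47 63))) (.nv (.dbl 38 50 55) (.rp 11 (.str 3 (.nv (.thr 16 31 (.thr 32 48 (.dbl 42 47 63))) (.nv (.dbl 38 50 55) (.rp 9 (.thr 8 12 (.dbl 38 50 55)) (.rp 8 (.str 9 (.nv (.thr 16 31 (.thr 32 48 (.dbl 42 47 63))) (.nv (.dbl 38 50 55) .nd)))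 .nd))))) (.rp 3 (.thr 11 56 (.dbl 38 50 55)) .nd))))) (.rp 0 (.thr 15 48 (.dbl 38 50 55)) .nd))))))) (.rp 4 (.str 7 (.nv (.thr 15 48 (.thr 33 45 (.thr 49 17 (.dbl 13 12 25)))) (.nv (.thr 15 48 (.dbl 11 3 56)) (.rp 48 (.thr 38 50 (.thr 39 36 (.thr 23 55 (.dbl 22 20 52)))) (.rp 15 (.str 0 (.nv (.thr 22 52 (.thr 20 23 (.dbl 60 3 40))) (.nv (.thr 16 31 (.thr 32 48 (.dbl 42 47 63))) .nd))) .nd))))) .nd))))))) (.rp 7 (.str 4 (.nv (.thr 16 31 (.thr 33 45 (.thr 48 15 (.thr 17 49 (.dbl 18 3 19))))) (.nv (.thr 15 48 (.thr 38 55 (.thr 39 36 (.thr 51 27 (.thr 12 25 (.dbl 14 13 50)))))) (.rp 48 (.thr 45 33 (.thr 38 55 (.thr 44 35 (.thr 47 46 (.thr 32 42 (.dbl 36 39 40)))))) (.rp 15 (.thr 45 33 (.thr 38 55 (.thr 44 35 (.thr 47 46 (.thr 32 42 (.dbl 36 39 40)))))) (.rp 14 (.str 10 (.nv (.thr 11 56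 (.thr 9 8 (.thr 33 45 (.thr 17 49 (.dbl 25 29 57))))) (.nv (.thr 15 48 (.thr 31 16 (.thr 42 58 (.dbl 63 0 47)))) .nd))) (.rp 13 (.thr 45 33 (.thr 15 48 (.thr 31 16 (.thr 47 63 (.thr 44 46 (.dbl 38 35 55)))))) (.rp 10 (.str 14 (.nv (.dbl 38 50 55) (.rp 55 (.thr 33 45 (.thr 49 17 (.thr 13 25 (.dbl 15 12 48)))) (.rp 50 (.thr 33 45 (.thr 49 17 (.thr 13 25 (.dbl 15 12 48)))) (.rp 38 (.thr 33 45 (.thr 49 17 (.thr 13 25 (.dbl 15 12 48)))) (.rp 15 (.str 0 (.nv (.thr 16 31 (.thr 32 48 (.dbl 42 47 63))) (.nv (.dbl 38 50 55) (.rp 11 (.str 3 (.nv (.thr 16 31 (.thr 32 48 (.dbl 42 47 63))) (.nv (.dbl 38 50 55) (.rp 9 (.thr 8 12 (.dbl 38 50 55)) (.rp 8 (.str 9 (.nv (.thr 16 31 (.thr 32 48 (.dbl 42 47 63))) (.nv (.dbl 38 50 55) .nd))) .nd))))) (.rp 3 (.thr 11 56 (.dbl 38 50 55)) .nd))))) (.rp 0 (.thr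 15 48 (.dbl 38 50 55)) .nd))))))) .nd)))))))) (.rp 4 (.str 7 (.nv (.thr 15 48 (.thr 22 52 (.thr 60 3 (.dbl 30 18 45)))) (.nv (.thr 15 48 (.dbl 11 3 56)) (.rp 48 (.thr 11 56 (.thr 3 15 (.dbl 22 52 60))) (.rp 15 (.thr 33 45 (.thr 17 49 (.thr 16 31 (.thr 18 19 (.dbl 22 30 52))))) (.rp 14 (.str 10 (.nv (.thr 15 48 (.thr 31 16 (.thr 42 58 (.dbl 47 32 63)))) (.nv (.thr 15 48 (.dbl 11 3 56)) (.rp 48 (.thr 11 56 (.thr 3 15 (.dbl 22 52 60))) (.rp 15 (.thr 33 45 (.thr 17 49 (.thr 16 31 (.thr 18 19 (.dbl 22 30 52))))) .nd))))) (.rp 10 (.str 14 (.nv (.thr 15 48 (.thr 33 45 (.thr 49 17 (.dbl 13 12 25)))) (.nv (.thr 15 48 (.dbl 11 3 56)) (.rp 48 (.thr 38 50 (.thr 39 36 (.thr 23 55 (.dbl 22 20 52)))) (.rp 15 (.str 0 (.nv (.thr 22 52 (.thr 20 23 (.dbl 60 3 40))) (.nv (.thr 16 31 (.thr 32 48 (.dbl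 42 47 63))) .nd))) .nd))))) (.rp 3 (.thr 48 15 (.thr 56 11 (.dbl 52 22 60))) .nd)))))))) (.rp 3 (.thr 33 45 (.thr 15 48 (.thr 31 16 (.thr 47 63 (.thr 32 42 (.thr 35 34 (.thr 38 44 (.dbl 39 36 43)))))))) .nd)))))))))))))) (.rp 1 (.thr 5 53 (.str 3 (.nv (.thr 22 60 (.thr 23 20 (.thr 33 45 (.thr 48 18 (.thr 15 26 (.thr 63 43 (.dbl 0 10 42))))))) (.nv (.thr 22 60 (.thr 7 52 (.thr 15 11 (.thr 23 20 (.thr 63 43 (.dbl 0 10 42)))))) (.nv (.thr 33 45 (.thr 48 18 (.thr 15 26 (.thr 22 60 (.dbl 7 11 52))))) (.rp 60 (.thr 33 45 (.thr 48 18 (.thr 15 26 (.thr 7 11 (.thr 22 52 (.thr 23 20 (.thr 63 43 (.dbl 0 10 42)))))))) (.rp 48 (.thr 45 33 (.thr 60 22 (.thr 15 30 (.thr 11 7 (.thr 26 56 (.thr 31 16 (.thr 63 47 (.dbl 0 10 42)))))))) (.rp 22 (.thr 33 45 (.thr 48 18 (.thr 26 15 (.thr 56 11 (.thr 60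 52 (.thr 16 31 (.thr 0 32 (.thr 40 20 (.dbl 42 43 63))))))))) (.rp 15 (.thr 22 60 (.thr 7 52 (.thr 23 20 (.thr 63 43 (.thr 55 39 (.thr 51 59 (.thr 35 19 (.dbl 38 4 44)))))))) (.rp 14 (.str 10 (.nv (.thr 15 0 (.thr 7 11 (.dbl 22 52 60))) (.nv (.thr 33 45 (.thr 15 0 (.dbl 48 18 26))) (.rp 15 (.thr 33 45 (.thr 48 18 (.thr 60 22 (.thr 56 52 (.thr 26 11 (.thr 42 58 (.thr 63 0 (.dbl 43 23 40)))))))) (.rp 0 (.thr 33 45 (.thr 48 18 (.thr 15 26 (.thr 7 11 (.dbl 22 52 60))))) .nd))))) (.rp 10 (.str 14 (.nv (.thr 45 33 (.thr 60 22 (.thr 15 30 (.thr 13 12 (.thr 29 61 (.dbl 25 17 49)))))) (.nv (.thr 22 60 (.thr 7 52 (.thr 15 11 (.thr 23 20 (.thr 63 43 (.thr 47 31 (.dbl 42 0 32))))))) (.nv (.thr 33 45 (.thr 48 18 (.thr 15 26 (.thr 22 60 (.dbl 7 11 52))))) (.rp 60 (.thr 33 45 (.thr 48 18 (.thr 15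 26 (.thr 12 13 (.thr 36 24 (.thr 38 39 (.thr 35 44 (.dbl 51 19 25)))))))) (.rp 42 (.thr 33 45 (.thr 22 60 (.thr 7 52 (.thr 15 11 (.dbl 48 18 26))))) (.rp 22 (.thr 33 45 (.thr 48 18 (.thr 26 15 (.thr 16 31 (.thr 32 0 (.thr 38 50 (.thr 34 35 (.dbl 42 46 47)))))))) (.rp 15 (.thr 22 60 (.thr 23 20 (.thr 63 43 (.thr 7 52 (.thr 55 39 (.thr 51 59 (.thr 35 19 (.dbl 38 4 44)))))))) .nd)))))))) .nd))))))))))) .nd))))))))))))))))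

theorem w157 : WinAt (2199025352704, 68) :=
  chF (K := []) kn c157 2199025352704 68 6
    [17476] (by decide +kernel) (by decide +kernel)

/-- A certificate. -/
noncomputable def c158 : Ct := (.str 37 (.nv (.thr 33 45 (.thr 5 53 (.thr 49 17 (.dbl 13 9 25)))) (.rp 53 (.thr 33 45 (.thr 49 17 (.thr 13 25 (.str 15 (.nv (.thr 5 9 (.thr 26 48 (.thr 31 16 (.thr 63 47 (.dbl 0 10 42))))) (.nv (.thr 9 5 (.thr 12 14 (.thr 48 26 (.dbl 3 6 18)))) (.rp 48 (.thr 5 9 (.thr 14 12 (.thr 0 10 (.thr 63 42 (.thr 31 47 (.thr 26 16 (.thr 11 56 (.thr 38 50 (.thr 36 39 (.thr 55 4 (.thr 59 51 (.thr 43 27 (.thr 3 23 (.thr 44 35 (.thr 40 32 (.dbl 60 20 22)))))))))))))))) (.rp 26 (.thr 5 9 (.thr 0 10 (.thr 42 63 (.thr 32 47 (.thr 35 34 (.thr 44 38 (.dbl 40 36 43))))))) (.rp 18 (.thr 5 9 (.thr 0 10 (.thr 63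 42 (.thr 31 47 (.dbl 26 16 48))))) (.rp 10 (.thr 9 5 (.thr 48 26 (.thr 3 18 (.dbl 12 6 14)))) (.rp 9 (.thr 48 26 (.thr 3 18 (.thr 22 60 (.thr 23 20 (.thr 63 43 (.thr 47 31 (.dbl 42 0 32))))))) (.rp 5 (.thr 12 14 (.thr 48 26 (.thr 3 18 (.thr 6 9 (.thr 22 60 (.thr 38 54 (.dbl 36 24 39))))))) .nd)))))))))))) (.rp 49 (.thr 45 33 (.str 42 (.nv (.thr 0 63 (.thr 40 43 (.thr 60 20 (.thr 15 30 (.dbl 5 10 53))))) (.nv (.thr 53 5 (.thr 63 0 (.thr 48 58 (.thr 15 26 (.dbl 47 31 32))))) (.nv (.thr 47 32 (.thr 43 40 (.thr 44 46 (.dbl 35 38 39)))) (.rp 53 (.str 57 (.nv (.thr 0 63 (.thr 9 25 (.thr 5 13 (.thr 10 15 (.thr 11 8 (.dbl 26 56 58)))))) (.nv (.thr 43 40 (.thr 47 32 (.thr 44 46 (.dbl 35 38 39)))) (.rp 47 (.thr 25 9 (.thr 59 8 (.thr 43 40 (.thr 11 27 (.dbl 56 26 58))))) .nd)))) .nd)))))) (.rp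 45 (.thr 5 53 (.thr 13 9 (.thr 49 25 (.str 0 (.nv (.thr 17 33 (.thr 51 34 (.thr 15 10 (.dbl 48 26 50)))) (.nv (.thr 17 33 (.thr 42 63 (.thr 32 47 (.thr 48 16 (.dbl 51 34 50))))) (.nv (.thr 15 10 (.thr 26 48 (.thr 31 16 (.dbl 63 42 47)))) (.rp 48 (.thr 17 33 (.thr 51 34 (.thr 15 10 (.thr 39 27 (.thr 38 36 (.thr 4 55 (.dbl 12 8 14))))))) (.rp 15 (.thr 17 33 (.thr 34 51 (.thr 42 63 (.thr 47 32 (.thr 43 40 (.thr 39 35 (.dbl 38 36 46))))))) .nd))))))))) (.rp 33 (.str 0 (.nv (.thr 5 53 (.thr 9 13 (.thr 10 15 (.thr 11 8 (.thr 26 56 (.dbl 42 58 63)))))) (.nv (.thr 42 63 (.thr 32 47 (.thr 48 16 (.thr 15 26 (.dbl 5 10 53))))) (.rp 63 (.thr 5 53 (.thr 13 9 (.thr 15 10 (.thr 48 26 (.thr 32 16 (.thr 42 47 (.thr 40 43 (.thr 36 44 (.dbl 12 14 24))))))))) (.rp 53 (.thr 42 63 (.thr 32 47 (.thr 48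 16 (.thr 40 43 (.thr 60 20 (.thr 56 52 (.dbl 26 11 15))))))) (.rp 42 (.thr 5 53 (.thr 13 9 (.thr 15 10 (.thr 14 12 (.thr 26 48 (.thr 31 16 (.thr 63 47 (.thr 38 50 (.thr 55 4 (.thr 51 59 (.dbl 39 27 36))))))))))) (.rp 26 (.thr 42 63 (.thr 32 47 (.thr 48 16 (.thr 40 43 (.thr 60 20 (.thr 56 52 (.thr 36 44 (.dbl 24 8 12)))))))) (.rp 15 (.thr 5 53 (.thr 9 13 (.thr 42 63 (.thr 40 43 (.thr 60 20 (.thr 3 22 (.thr 12 6 (.thr 44 28 (.dbl 32 36 47))))))))) (.rp 10 (.thr 53 5 (.thr 63 42 (.thr 48 58 (.thr 26 15 (.dbl 16 31 32))))) (.rp 5 (.thr 42 63 (.thr 32 47 (.thr 48 16 (.thr 40 43 (.thr 60 20 (.thr 56 52 (.dbl 26 11 15))))))) .nd)))))))))) (.rp 29 (.thr 5 53 (.thr 33 45 (.thr 13 9 (.dbl 49 17 25)))) (.rp 25 (.str 15 (.nv (.thr 48 26 (.thr 53 5 (.thr 63 58 (.thr 42 0 (.dbl 47 31 32))))) (.nv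 (.thr 5 53 (.thr 0 10 (.thr 45 33 (.thr 60 30 (.thr 20 40 (.dbl 22 3 23)))))) (.nv (.thr 26 48 (.thr 31 16 (.thr 5 53 (.thr 63 47 (.dbl 0 10 42))))) (.rp 53 (.thr 45 33 (.thr 60 30 (.thr 3 22 (.thr 26 48 (.thr 31 16 (.thr 63 47 (.thr 43 23 (.dbl 42 0 40)))))))) (.rp 5 (.thr 45 33 (.thr 60 30 (.thr 3 22 (.thr 26 48 (.thr 31 16 (.thr 63 47 (.thr 43 23 (.dbl 42 0 40)))))))) (.rp 0 (.thr 33 45 (.thr 53 5 (.thr 48 26 (.thr 63 58 (.thr 3 18 (.thr 23 43 (.dbl 22 20 60))))))) .nd))))))) (.rp 17 (.str 15 (.nv (.thr 5 53 (.thr 0 10 (.thr 45 33 (.thr 60 30 (.thr 20 40 (.dbl 22 3 23)))))) (.nv (.thr 48 26 (.thr 53 5 (.thr 63 58 (.thr 47 31 (.dbl 42 0 32))))) (.rp 53 (.thr 45 33 (.thr 60 30 (.thr 3 22 (.thr 26 48 (.thr 31 16 (.thr 63 47 (.thr 43 23 (.dbl 42 0 40)))))))) (.rp 10 (.thr 53 5 (.thr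 48 26 (.thr 63 58 (.thr 42 0 (.dbl 47 31 32))))) (.rp 6 (.thr 5 53 (.thr 9 13 (.thr 10 0 (.thr 11 8 (.dbl 26 48 56))))) (.rp 5 (.thr 45 33 (.thr 60 30 (.thr 3 22 (.thr 26 48 (.thr 31 16 (.thr 63 47 (.thr 43 23 (.dbl 42 0 40)))))))) (.rp 0 (.thr 33 45 (.thr 53 5 (.thr 48 26 (.thr 63 58 (.thr 3 18 (.thr 23 43 (.dbl 22 20 60))))))) .nd)))))))) (.rp 13 (.thr 45 33 (.str 15 (.nv (.thr 5 53 (.thr 0 10 (.thr 60 30 (.thr 20 40 (.dbl 22 3 23))))) (.nv (.thr 48 26 (.thr 53 5 (.thr 63 58 (.thr 42 0 (.dbl 47 31 32))))) (.rp 53 (.thr 60 30 (.thr 3 22 (.thr 26 48 (.thr 31 16 (.thr 63 47 (.thr 43 23 (.dbl 42 0 40))))))) (.rp 6 (.thr 5 53 (.thr 60 30 (.thr 22 3 (.thr 20 23 (.dbl 0 10 40))))) (.rp 5 (.thr 60 30 (.thr 3 22 (.thr 26 48 (.thr 31 16 (.thr 63 47 (.thr 43 23 (.dbl 42 0 40))))))) (.rp 0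 (.thr 53 5 (.thr 60 30 (.thr 22 3 (.thr 20 23 (.thr 48 26 (.thr 52 56 (.thr 4 36 (.dbl 55 38 54)))))))) .nd)))))))) (.rp 9 (.str 15 (.nv (.thr 5 53 (.thr 0 10 (.thr 45 33 (.thr 60 30 (.thr 20 40 (.dbl 22 3 23)))))) (.nv (.thr 48 26 (.thr 53 5 (.thr 63 58 (.thr 42 0 (.dbl 47 31 32))))) (.rp 53 (.thr 33 45 (.thr 49 17 (.thr 48 26 (.thr 51 50 (.thr 39 27 (.thr 38 36 (.dbl 25 12 13))))))) (.rp 6 (.thr 5 53 (.thr 26 48 (.thr 31 16 (.thr 63 47 (.dbl 0 10 42))))) (.rp 5 (.thr 33 45 (.thr 49 17 (.thr 48 26 (.thr 51 50 (.thr 39 27 (.thr 38 36 (.dbl 25 12 13))))))) (.rp 0 (.thr 33 45 (.thr 53 5 (.thr 48 26 (.thr 63 58 (.thr 3 18 (.thr 23 43 (.dbl 22 20 60))))))) .nd))))))) (.rp 5 (.str 32 (.nv (.thr 33 45 (.thr 17 49 (.thr 34 35 (.thr 0 51 (.dbl 42 47 63))))) (.nv (.thr 42 47 (.thr 40 43 (.thr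 44 36 (.thr 35 38 (.dbl 33 34 45))))) (.rp 47 (.thr 33 45 (.thr 17 49 (.thr 34 35 (.thr 0 51 (.thr 48 16 (.thr 63 42 (.thr 3 18 (.thr 22 60 (.dbl 23 20 43))))))))) (.rp 45 (.thr 42 47 (.thr 40 43 (.thr 0 63 (.thr 60 20 (.thr 48 16 (.thr 56 52 (.dbl 26 11 15))))))) (.rp 42 (.thr 33 45 (.thr 17 49 (.thr 34 35 (.thr 0 51 (.thr 48 16 (.thr 3 18 (.thr 26 15 (.thr 56 11 (.dbl 60 22 52))))))))) (.rp 35 (.thr 33 45 (.thr 42 47 (.thr 0 63 (.thr 48 16 (.thr 3 18 (.thr 60 22 (.dbl 40 20 43))))))) (.rp 34 (.thr 45 33 (.thr 47 42 (.thr 44 46 (.thr 38 35 (.dbl 36 39 40))))) (.rp 33 (.thr 42 47 (.thr 40 43 (.thr 0 63 (.thr 60 20 (.thr 48 16 (.thr 56 52 (.dbl 26 11 15))))))) (.rp 6 (.str 4 (.nv (.thr 33 45 (.thr 17 49 (.thr 34 35 (.thr 0 51 (.dbl 42 47 63))))) (.nv (.thr 38 55 (.thr 44 35 (.dbl 36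 39 40))) (.rp 35 (.thr 45 33 (.thr 38 55 (.thr 47 42 (.thr 44 46 (.dbl 36 39 40))))) (.rp 14 (.str 10 (.nv (.thr 42 47 (.thr 0 63 (.thr 16 48 (.dbl 26 31 58)))) (.nv (.thr 38 55 (.thr 44 35 (.dbl 36 39 40))) .nd))) (.rp 10 (.str 14 (.nv (.thr 33 45 (.thr 17 49 (.thr 34 35 (.thr 0 51 (.dbl 42 47 63))))) (.nv (.thr 38 55 (.thr 44 35 (.dbl 36 39 40))) (.rp 35 (.thr 38 55 (.thr 26 50 (.thr 16 31 (.dbl 48 0 15)))) (.rp 15 (.str 0 (.nv (.thr 16 48 (.thr 38 55 (.dbl 26 31 50))) (.nv (.dbl 42 47 63) (.rp 11 (.str 3 (.nv (.thr 8 12 (.thr 33 45 (.dbl 48 16 18))) (.nv (.dbl 42 47 63) (.rp 8 (.str 9 (.nv (.thr 33 45 (.dbl 48 16 18)) (.nv (.dbl 42 47 63) .nd))) .nd)))) (.rp 3 (.str 11 (.nv (.thr 12 8 (.thr 16 48 (.dbl 26 31 56))) (.nv (.dbl 42 47 63) (.rp 12 (.str 9 (.nv (.thr 16 48 (.dbl 26 31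 56)) (.nv (.dbl 42 47 63) .nd))) .nd)))) .nd))))) (.rp 0 (.str 15 (.nv (.thr 13 12 (.thr 33 45 (.dbl 49 17 25))) (.nv (.thr 26 48 (.dbl 38 50 55)) .nd))) .nd)))))) .nd)))))) (.rp 4 (.str 6 (.nv (.thr 33 45 (.thr 17 49 (.thr 34 35 (.thr 0 51 (.dbl 42 47 63))))) (.nv (.thr 45 33 (.thr 47 42 (.thr 44 46 (.thr 38 35 (.dbl 36 39 40))))) (.rp 47 (.thr 33 45 (.thr 17 49 (.thr 34 35 (.thr 0 51 (.thr 48 16 (.thr 3 18 (.thr 9 12 (.dbl 25 29 57)))))))) (.rp 45 (.thr 42 47 (.thr 40 43 (.thr 0 63 (.thr 60 20 (.thr 3 22 (.thr 12 9 (.dbl 44 28 36))))))) (.rp 42 (.thr 33 45 (.thr 35 34 (.thr 38 44 (.thr 22 54 (.thr 3 60 (.thr 12 9 (.dbl 51 19 25))))))) (.rp 35 (.thr 33 45 (.thr 42 47 (.thr 0 63 (.thr 48 16 (.thr 3 18 (.thr 60 22 (.dbl 40 20 43))))))) (.rp 33 (.thr 42 47 (.thr 40 43 (.thr 0 63 (.thr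 60 20 (.thr 3 22 (.thr 12 9 (.dbl 44 28 36))))))) .nd)))))))) .nd))))))))))) .nd))))))))))))

theorem w158 : WinAt (2199025352706, 2305843009213694084) :=
  chF (K := []) kn c158 2199025352706 2305843009213694084 61
    [] (by decide +kernel) (by decide +kernel)

/-- A certificate. -/
noncomputable def c159 : Ct := (.str 25 (.nv (.thr 17 29 (.thr 9 57 (.thr 49 33 (.dbl 13 5 37)))) (.rp 57 (.thr 17 29 (.thr 49 33 (.thr 13 37 (.str 12 (.nv (.thr 9 5 (.thr 38 51 (.thr 44 35 (.thr 60 28 (.dbl 3 6 22))))) (.nv (.thr 5 9 (.thr 15 14 (.thr 51 38 (.dbl 0 10 34)))) (.rp 51 (.thr 9 5 (.thr 14 15 (.thr 3 6 (.thr 60 22 (.thr 44 28 (.thr 38 35 (.thr 4 55 (.thr 26 50 (.thr 27 24 (.thr 56 11 (.thr 52 48 (.thr 20 36 (.thr 0 40 (.thr 31 16 (.thr 23 19 (.dbl 63 42 43)))))))))))))))) (.rp 38 (.thr 9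 5 (.thr 3 6 (.thr 22 60 (.thr 19 28 (.thr 16 18 (.thr 31 26 (.dbl 23 20 27))))))) (.rp 34 (.thr 9 5 (.thr 3 6 (.thr 60 22 (.thr 44 28 (.dbl 38 35 51))))) (.rp 9 (.thr 15 14 (.thr 51 38 (.thr 0 34 (.thr 10 5 (.thr 42 63 (.thr 26 58 (.dbl 27 24 39))))))) (.rp 6 (.thr 5 9 (.thr 51 38 (.thr 0 34 (.dbl 15 10 14)))) (.rp 5 (.thr 51 38 (.thr 0 34 (.thr 42 63 (.thr 40 43 (.thr 60 20 (.thr 28 44 (.dbl 22 3 19))))))) .nd)))))))))))) (.rp 49 (.thr 29 17 (.str 22 (.nv (.thr 3 60 (.thr 23 20 (.thr 63 43 (.thr 12 46 (.dbl 9 6 57))))) (.nv (.thr 57 9 (.thr 60 3 (.thr 51 54 (.thr 12 38 (.dbl 28 19 44))))) (.nv (.thr 28 19 (.thr 20 23 (.thr 31 30 (.dbl 16 24 26)))) (.rp 57 (.str 53 (.nv (.thr 3 60 (.thr 5 37 (.thr 9 13 (.thr 6 12 (.thr 4 7 (.dbl 38 54 55)))))) (.nv (.thr 20 23 (.thr 28 19 (.thr 31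 30 (.dbl 16 24 26)))) (.rp 28 (.thr 37 5 (.thr 52 7 (.thr 20 23 (.thr 4 36 (.dbl 55 38 54))))) .nd)))) .nd)))))) (.rp 45 (.thr 9 57 (.thr 17 29 (.thr 13 5 (.dbl 49 33 37)))) (.rp 37 (.str 12 (.nv (.thr 51 38 (.thr 57 9 (.thr 60 54 (.thr 22 3 (.dbl 28 19 44))))) (.nv (.thr 9 57 (.thr 3 6 (.thr 29 17 (.thr 63 46 (.thr 43 23 (.dbl 42 0 40)))))) (.nv (.thr 38 51 (.thr 44 35 (.thr 9 57 (.thr 60 28 (.dbl 3 6 22))))) (.rp 57 (.thr 29 17 (.thr 63 46 (.thr 0 42 (.thr 38 51 (.thr 44 35 (.thr 60 28 (.thr 20 40 (.dbl 22 3 23)))))))) (.rp 9 (.thr 29 17 (.thr 63 46 (.thr 0 42 (.thr 38 51 (.thr 44 35 (.thr 60 28 (.thr 20 40 (.dbl 22 3 23)))))))) (.rp 3 (.thr 17 29 (.thr 57 9 (.thr 51 38 (.thr 60 54 (.thr 0 34 (.thr 40 20 (.dbl 42 43 63))))))) .nd))))))) (.rp 33 (.str 12 (.nv (.thr 9 57 (.thr 3 6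 (.thr 29 17 (.thr 63 46 (.thr 43 23 (.dbl 42 0 40)))))) (.nv (.thr 51 38 (.thr 57 9 (.thr 60 54 (.thr 28 44 (.dbl 22 3 19))))) (.rp 57 (.thr 29 17 (.thr 63 46 (.thr 0 42 (.thr 38 51 (.thr 44 35 (.thr 60 28 (.thr 20 40 (.dbl 22 3 23)))))))) (.rp 10 (.thr 9 57 (.thr 5 13 (.thr 6 3 (.thr 4 7 (.dbl 38 51 55))))) (.rp 9 (.thr 29 17 (.thr 63 46 (.thr 0 42 (.thr 38 51 (.thr 44 35 (.thr 60 28 (.thr 20 40 (.dbl 22 3 23)))))))) (.rp 6 (.thr 57 9 (.thr 51 38 (.thr 60 54 (.thr 22 3 (.dbl 28 19 44))))) (.rp 3 (.thr 17 29 (.thr 57 9 (.thr 51 38 (.thr 60 54 (.thr 0 34 (.thr 40 20 (.dbl 42 43 63))))))) .nd)))))))) (.rp 29 (.thr 9 57 (.thr 13 5 (.thr 49 37 (.str 3 (.nv (.thr 33 17 (.thr 48 18 (.thr 12 6 (.dbl 51 38 50)))) (.nv (.thr 22 60 (.thr 19 28 (.thr 33 17 (.thr 48 18 (.dbl 51 35 50))))) (.nv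 (.thr 12 6 (.thr 38 51 (.thr 44 35 (.dbl 60 22 28)))) (.rp 51 (.thr 33 17 (.thr 48 18 (.thr 12 6 (.thr 24 36 (.thr 26 27 (.thr 11 56 (.dbl 15 7 14))))))) (.rp 12 (.thr 33 17 (.thr 18 48 (.thr 22 60 (.thr 28 19 (.thr 20 23 (.thr 24 16 (.dbl 26 27 30))))))) .nd))))))))) (.rp 17 (.str 3 (.nv (.thr 9 57 (.thr 5 13 (.thr 6 12 (.thr 4 7 (.thr 38 55 (.dbl 22 54 60)))))) (.nv (.thr 22 60 (.thr 19 28 (.thr 51 35 (.thr 12 38 (.dbl 9 6 57))))) (.rp 60 (.thr 9 57 (.thr 13 5 (.thr 12 6 (.thr 51 38 (.thr 19 35 (.thr 22 28 (.thr 23 20 (.thr 27 31 (.dbl 15 14 39))))))))) (.rp 57 (.thr 22 60 (.thr 19 28 (.thr 51 35 (.thr 23 20 (.thr 63 43 (.thr 55 59 (.dbl 38 4 12))))))) (.rp 38 (.thr 22 60 (.thr 19 28 (.thr 51 35 (.thr 23 20 (.thr 63 43 (.thr 55 59 (.thr 27 31 (.dbl 39 7 15)))))))) (.rp 22 (.thr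 9 57 (.thr 13 5 (.thr 12 6 (.thr 14 15 (.thr 38 51 (.thr 44 35 (.thr 60 28 (.thr 26 50 (.thr 56 11 (.thr 48 52 (.dbl 24 27 36))))))))))) (.rp 12 (.thr 9 57 (.thr 5 13 (.thr 22 60 (.thr 23 20 (.thr 63 43 (.thr 0 42 (.thr 15 10 (.thr 31 47 (.dbl 19 27 28))))))))) (.rp 9 (.thr 22 60 (.thr 19 28 (.thr 51 35 (.thr 23 20 (.thr 63 43 (.thr 55 59 (.dbl 38 4 12))))))) (.rp 6 (.thr 57 9 (.thr 60 22 (.thr 51 54 (.thr 38 12 (.dbl 35 19 44))))) .nd)))))))))) (.rp 13 (.thr 29 17 (.str 12 (.nv (.thr 9 57 (.thr 3 6 (.thr 63 46 (.thr 43 23 (.dbl 42 0 40))))) (.nv (.thr 51 38 (.thr 57 9 (.thr 60 54 (.thr 22 3 (.dbl 28 19 44))))) (.rp 57 (.thr 63 46 (.thr 0 42 (.thr 38 51 (.thr 44 35 (.thr 60 28 (.thr 20 40 (.dbl 22 3 23))))))) (.rp 10 (.thr 9 57 (.thr 63 46 (.thr 42 0 (.thr 43 40 (.dbl 3 6 23)))))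 (.rp 9 (.thr 63 46 (.thr 0 42 (.thr 38 51 (.thr 44 35 (.thr 60 28 (.thr 20 40 (.dbl 22 3 23))))))) (.rp 3 (.thr 57 9 (.thr 63 46 (.thr 42 0 (.thr 43 40 (.thr 51 38 (.thr 59 55 (.thr 11 27 (.dbl 56 26 58)))))))) .nd)))))))) (.rp 9 (.str 19 (.nv (.thr 17 29 (.thr 18 16 (.thr 33 49 (.thr 3 48 (.dbl 22 28 60))))) (.nv (.thr 22 28 (.thr 23 20 (.thr 31 27 (.thr 16 26 (.dbl 17 18 29))))) (.rp 29 (.thr 22 28 (.thr 23 20 (.thr 3 60 (.thr 63 43 (.thr 51 35 (.thr 55 59 (.dbl 38 4 12))))))) (.rp 28 (.thr 17 29 (.thr 33 49 (.thr 18 16 (.thr 3 48 (.thr 51 35 (.thr 60 22 (.thr 0 34 (.thr 42 63 (.dbl 40 20 43))))))))) (.rp 22 (.thr 17 29 (.thr 33 49 (.thr 18 16 (.thr 3 48 (.thr 51 35 (.thr 0 34 (.thr 38 12 (.thr 55 4 (.dbl 63 42 59))))))))) (.rp 18 (.thr 29 17 (.thr 28 22 (.thr 31 30 (.thr 26 16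 (.dbl 27 23 24))))) (.rp 17 (.thr 22 28 (.thr 23 20 (.thr 3 60 (.thr 63 43 (.thr 51 35 (.thr 55 59 (.dbl 38 4 12))))))) (.rp 16 (.thr 17 29 (.thr 22 28 (.thr 3 60 (.thr 51 35 (.thr 0 34 (.thr 63 42 (.dbl 23 20 43))))))) (.rp 11 (.str 10 (.nv (.thr 17 29 (.thr 18 16 (.thr 33 49 (.thr 3 48 (.dbl 22 28 60))))) (.nv (.thr 28 22 (.thr 29 17 (.thr 31 30 (.thr 26 16 (.dbl 27 23 24))))) (.rp 29 (.thr 22 28 (.thr 23 20 (.thr 3 60 (.thr 63 43 (.thr 0 42 (.thr 15 5 (.dbl 31 27 47))))))) (.rp 28 (.thr 17 29 (.thr 33 49 (.thr 18 16 (.thr 3 48 (.thr 51 35 (.thr 0 34 (.thr 5 15 (.dbl 37 45 53)))))))) (.rp 22 (.thr 17 29 (.thr 16 18 (.thr 26 31 (.thr 42 58 (.thr 0 63 (.thr 15 5 (.dbl 48 32 37))))))) (.rp 17 (.thr 22 28 (.thr 23 20 (.thr 3 60 (.thr 63 43 (.thr 0 42 (.thr 15 5 (.dbl 31 27 47)))))))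 (.rp 16 (.thr 17 29 (.thr 22 28 (.thr 3 60 (.thr 51 35 (.thr 0 34 (.thr 63 42 (.dbl 23 20 43))))))) .nd)))))))) (.rp 10 (.str 11 (.nv (.thr 17 29 (.thr 18 16 (.thr 33 49 (.thr 3 48 (.dbl 22 28 60))))) (.nv (.thr 26 56 (.thr 31 16 (.dbl 27 23 24))) (.rp 16 (.thr 29 17 (.thr 26 56 (.thr 28 22 (.thr 31 30 (.dbl 27 23 24))))) (.rp 14 (.str 6 (.nv (.thr 22 28 (.thr 3 60 (.thr 35 51 (.dbl 38 44 54)))) (.nv (.thr 26 56 (.thr 31 16 (.dbl 27 23 24))) .nd))) (.rp 6 (.str 14 (.nv (.thr 22 28 (.thr 3 60 (.thr 15 7 (.thr 12 13 (.dbl 51 35 38))))) (.nv (.thr 26 56 (.thr 31 16 (.dbl 27 23 24))) (.rp 12 (.str 3 (.nv (.thr 17 29 (.thr 16 18 (.dbl 26 31 56))) (.nv (.dbl 22 28 60) (.rp 4 (.str 0 (.nv (.thr 7 15 (.thr 17 29 (.dbl 51 34 35))) (.nv (.dbl 22 28 60) (.rp 7 (.str 5 (.nv (.thr 17 29 (.dbl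 51 34 35)) (.nv (.dbl 22 28 60) .nd))) .nd)))) (.rp 0 (.str 4 (.nv (.thr 15 7 (.thr 26 56 (.dbl 38 50 55))) (.nv (.dbl 22 28 60) (.rp 15 (.str 5 (.nv (.thr 26 56 (.dbl 38 50 55)) (.nv (.dbl 22 28 60) .nd))) .nd)))) .nd))))) (.rp 3 (.str 12 (.nv (.thr 13 15 (.thr 17 29 (.dbl 49 33 37))) (.nv (.thr 38 51 (.dbl 26 50 56)) .nd))) .nd))))) .nd)))))) .nd))))))))))) (.rp 5 (.str 12 (.nv (.thr 9 57 (.thr 3 6 (.thr 29 17 (.thr 63 46 (.thr 43 23 (.dbl 42 0 40)))))) (.nv (.thr 51 38 (.thr 57 9 (.thr 60 54 (.thr 22 3 (.dbl 28 19 44))))) (.rp 57 (.thr 17 29 (.thr 49 33 (.thr 51 38 (.thr 48 50 (.thr 24 36 (.thr 26 27 (.dbl 37 13 15))))))) (.rp 10 (.thr 9 57 (.thr 38 51 (.thr 44 35 (.thr 60 28 (.dbl 3 6 22))))) (.rp 9 (.thr 17 29 (.thr 49 33 (.thr 51 38 (.thr 48 50 (.thr 24 36 (.thr 26 27 (.dbl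 37 13 15))))))) (.rp 3 (.thr 17 29 (.thr 57 9 (.thr 51 38 (.thr 60 54 (.thr 0 34 (.thr 40 20 (.dbl 42 43 63))))))) .nd))))))) .nd))))))))))))

theorem w159 : WinAt (2199025352706, 2305843009213694212) :=
  chF (K := []) kn c159 2199025352706 2305843009213694212 61
    [] (by decide +kernel) (by decide +kernel)

/-- A certificate. -/
noncomputable def c160 : Ct := (.str 63 (.nv (.thr 42 0 (.thr 43 40 (.thr 3 23 (.thr 60 22 (.dbl 61 1 62))))) (.rp 62 (.str 29 (.nv (.thr 42 0 (.thr 46 12 (.thr 38 34 (.thr 44 35 (.thr 45 47 (.dbl 61 1 13)))))) (.nv (.thr 25 17 (.thr 12 46 (.thr 51 38 (.thr 59 55 (.dbl 42 0 8))))) (.rp 51 (.thr 17 25 (.thr 42 0 (.thr 46 12 (.thr 38 34 (.thr 44 35 (.thr 45 47 (.dbl 61 1 13))))))) (.rp 46 (.thr 25 17 (.thr 42 0 (.thr 59 8 (.thr 51 55 (.thr 43 40 (.thr 3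 23 (.thr 19 35 (.dbl 22 28 60)))))))) (.rp 42 (.str 22 (.nv (.thr 12 46 (.thr 25 17 (.thr 28 19 (.dbl 60 3 44)))) (.nv (.thr 3 60 (.dbl 23 20 43)) (.rp 60 (.thr 25 17 (.thr 28 19 (.thr 31 30 (.thr 20 23 (.dbl 16 24 26))))) (.rp 3 (.thr 25 17 (.thr 28 19 (.thr 31 30 (.thr 20 23 (.dbl 16 24 26))))) .nd))))) (.rp 38 (.thr 25 17 (.thr 42 0 (.thr 59 8 (.thr 51 55 (.thr 43 40 (.thr 3 23 (.thr 19 35 (.dbl 22 28 60)))))))) (.rp 34 (.thr 25 17 (.thr 12 46 (.thr 51 38 (.thr 42 0 (.dbl 59 8 55))))) (.rp 17 (.thr 12 46 (.thr 42 0 (.thr 43 40 (.thr 61 1 (.thr 3 23 (.thr 60 22 (.thr 28 44 (.thr 30 31 (.dbl 45 13 15))))))))) (.rp 12 (.thr 17 25 (.thr 1 61 (.thr 33 49 (.thr 37 45 (.thr 53 5 (.thr 48 58 (.thr 3 18 (.thr 23 43 (.dbl 22 20 60))))))))) (.rp 8 (.thr 17 25 (.thr 1 61 (.thr 33 49 (.thr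 37 45 (.thr 42 0 (.thr 32 47 (.thr 34 35 (.dbl 46 12 38)))))))) (.rp 0 (.thr 17 25 (.thr 1 61 (.thr 33 49 (.thr 37 45 (.thr 53 5 (.thr 48 58 (.thr 3 18 (.thr 23 43 (.dbl 22 20 60))))))))) .nd)))))))))))) (.rp 61 (.str 25 (.nv (.thr 42 0 (.thr 43 40 (.thr 3 23 (.thr 59 8 (.thr 51 55 (.thr 19 35 (.dbl 22 28 60))))))) (.nv (.thr 29 17 (.thr 12 46 (.thr 51 38 (.thr 59 55 (.dbl 42 0 8))))) (.rp 59 (.thr 29 17 (.thr 12 46 (.thr 38 51 (.thr 4 55 (.dbl 0 8 42))))) (.rp 55 (.thr 29 17 (.thr 12 46 (.thr 51 38 (.thr 42 0 (.thr 43 40 (.thr 3 23 (.thr 19 35 (.dbl 22 28 60)))))))) (.rp 51 (.thr 42 0 (.thr 59 8 (.thr 43 40 (.thr 3 23 (.thr 11 27 (.thr 15 7 (.thr 31 47 (.dbl 26 16 56)))))))) (.rp 42 (.thr 29 17 (.thr 12 46 (.thr 38 51 (.thr 4 55 (.thr 0 8 (.thr 44 35 (.thr 60 28 (.thr 20 40 (.dbl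 22 3 23))))))))) (.rp 12 (.thr 17 29 (.thr 0 42 (.thr 51 34 (.thr 55 59 (.thr 38 4 (.thr 35 44 (.thr 3 19 (.thr 23 43 (.dbl 22 20 60))))))))) (.rp 8 (.thr 17 29 (.thr 0 42 (.thr 51 34 (.thr 55 59 (.dbl 38 4 12))))) (.rp 0 (.thr 29 17 (.thr 12 46 (.thr 51 38 (.thr 59 55 (.thr 42 8 (.thr 43 40 (.thr 3 23 (.thr 19 35 (.dbl 22 28 60))))))))) .nd)))))))))) (.rp 60 (.str 29 (.nv (.thr 0 42 (.thr 25 17 (.thr 12 46 (.thr 38 51 (.dbl 4 8 55))))) (.nv (.thr 25 17 (.thr 12 46 (.thr 51 38 (.thr 59 55 (.dbl 42 0 8))))) (.rp 55 (.thr 46 12 (.thr 42 0 (.thr 38 34 (.thr 44 35 (.thr 45 47 (.dbl 61 1 13)))))) (.rp 51 (.thr 17 25 (.thr 42 0 (.thr 46 12 (.thr 38 34 (.thr 44 35 (.thr 45 47 (.dbl 61 1 13))))))) (.rp 46 (.thr 17 25 (.thr 1 61 (.thr 33 49 (.thr 37 45 (.thr 53 5 (.thr 48 58 (.thr 3 18 (.thr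 43 23 (.dbl 42 0 40))))))))) (.rp 42 (.thr 25 17 (.thr 61 1 (.thr 13 45 (.thr 49 37 (.thr 53 57 (.thr 48 58 (.thr 51 50 (.dbl 12 38 46)))))))) (.rp 38 (.thr 17 25 (.thr 1 61 (.thr 33 49 (.thr 37 45 (.thr 53 5 (.thr 48 58 (.thr 3 18 (.thr 43 23 (.dbl 42 0 40))))))))) (.rp 25 (.thr 46 12 (.thr 42 0 (.thr 38 34 (.thr 44 35 (.thr 45 47 (.dbl 61 1 13)))))) (.rp 17 (.thr 61 1 (.thr 13 45 (.thr 12 46 (.thr 15 14 (.thr 47 31 (.thr 0 42 (.thr 4 8 (.thr 38 55 (.thr 35 44 (.thr 39 43 (.dbl 51 25 27))))))))))) (.rp 12 (.thr 17 25 (.thr 1 61 (.thr 33 49 (.thr 37 45 (.thr 53 5 (.thr 48 58 (.thr 3 18 (.thr 43 23 (.dbl 42 0 40))))))))) (.rp 8 (.thr 17 25 (.thr 1 61 (.thr 33 49 (.thr 37 45 (.thr 42 0 (.thr 32 47 (.thr 34 35 (.dbl 46 12 38)))))))) (.rp 0 (.thr 17 25 (.thr 1 61 (.thr 33 49 (.thr 37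 45 (.thr 53 5 (.thr 48 58 (.thr 18 3 (.thr 16 19 (.dbl 26 15 31))))))))) .nd))))))))))))) (.rp 43 (.thr 61 1 (.thr 60 62 (.thr 22 3 (.thr 0 42 (.dbl 20 23 40))))) (.rp 42 (.str 22 (.nv (.thr 60 3 (.dbl 61 1 62)) (.nv (.thr 23 20 (.dbl 3 43 60)) (.rp 60 (.str 31 (.nv (.thr 15 47 (.thr 23 20 (.thr 3 43 (.thr 7 11 (.thr 27 19 (.dbl 39 51 55)))))) (.nv (.thr 15 47 (.thr 26 16 (.thr 11 56 (.thr 7 3 (.dbl 37 48 52))))) (.nv (.thr 20 23 (.thr 16 26 (.thr 28 24 (.thr 25 19 (.dbl 29 17 30))))) .nd)))) (.rp 3 (.thr 1 61 (.str 29 (.nv (.thr 20 23 (.thr 25 17 (.thr 28 19 (.thr 16 24 (.dbl 31 26 30))))) (.nv (.thr 12 46 (.thr 25 17 (.thr 28 19 (.thr 44 60 (.dbl 38 35 51))))) (.rp 51 (.thr 17 25 (.thr 33 49 (.thr 37 45 (.thr 53 5 (.thr 52 7 (.thr 55 54 (.thr 20 23 (.dbl 4 36 38)))))))) (.rp 35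 (.thr 17 25 (.thr 33 49 (.thr 37 45 (.thr 53 5 (.thr 52 7 (.thr 55 54 (.thr 20 23 (.dbl 4 36 38)))))))) (.rp 28 (.thr 25 17 (.thr 12 46 (.thr 38 51 (.thr 54 6 (.thr 23 20 (.thr 55 4 (.thr 7 39 (.dbl 52 37 53)))))))) (.rp 25 (.thr 12 46 (.str 38 (.nv (.thr 44 35 (.thr 54 6 (.thr 55 4 (.thr 60 28 (.dbl 51 57 59))))) (.nv (.thr 20 23 (.thr 44 35 (.thr 28 60 (.thr 16 24 (.dbl 31 26 30))))) (.nv (.thr 4 55 (.thr 6 54 (.thr 7 5 (.thr 20 23 (.dbl 52 36 37))))) (.rp 59 (.str 8 (.nv (.dbl 4 0 55) (.rp 55 (.thr 0 4 (.thr 44 35 (.thr 20 23 (.dbl 60 28 40)))) (.rp 4 (.thr 44 35 (.thr 20 23 (.thr 28 60 (.thr 31 30 (.dbl 16 24 26))))) (.rp 0 (.thr 44 35 (.thr 20 23 (.thr 28 60 (.thr 31 30 (.dbl 16 24 26))))) .nd))))) (.rp 8 (.str 59 (.nv (.dbl 55 4 51) (.rp 55 (.thr 44 35 (.thr 28 60 (.thr 31 30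 (.thr 20 23 (.dbl 16 24 26))))) (.rp 51 (.thr 6 54 (.thr 4 55 (.thr 7 5 (.thr 20 23 (.dbl 52 36 37))))) (.rp 11 (.str 10 (.nv (.dbl 55 4 51) (.rp 55 (.thr 44 35 (.thr 28 60 (.thr 31 30 (.thr 20 23 (.dbl 16 24 26))))) (.rp 51 (.thr 6 54 (.thr 4 55 (.thr 7 5 (.thr 20 23 (.dbl 52 36 37))))) (.rp 15 (.str 7 (.nv (.thr 6 54 (.thr 5 4 (.dbl 37 52 53))) (.nv (.dbl 55 4 51) (.rp 4 (.thr 55 51 (.dbl 23 20 39)) .nd)))) (.rp 7 (.str 15 (.nv (.thr 14 13 (.thr 26 50 (.dbl 31 16 47))) (.nv (.dbl 55 4 51) .nd))) (.rp 4 (.thr 51 55 (.thr 54 6 (.thr 44 35 (.dbl 60 28 57)))) .nd))))))) (.rp 10 (.str 11 (.nv (.thr 26 56 (.thr 30 18 (.dbl 31 16 28))) (.nv (.dbl 55 4 51) (.rp 26 (.str 58 (.nv (.dbl 55 4 51) (.rp 55 (.thr 44 35 (.thr 60 28 (.thr 57 56 (.dbl 54 6 51)))) (.rp 51 (.thr 55 4 (.thr 53 48 (.dbl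 54 6 52))) (.rp 27 (.str 24 (.nv (.thr 6 54 (.dbl 48 36 53)) (.nv (.dbl 55 4 51) (.rp 6 (.str 14 (.nv (.dbl 48 36 53) (.nv (.dbl 55 4 51) .nd))) .nd)))) (.rp 24 (.thr 27 43 (.dbl 55 4 51)) (.rp 14 (.thr 6 54 (.dbl 55 4 51)) (.rp 6 (.str 14 (.nv (.thr 27 43 (.thr 15 13 (.dbl 51 39 55))) (.nv (.dbl 55 4 51) (.rp 55 (.thr 27 43 (.thr 15 13 (.thr 31 47 (.dbl 23 19 20)))) (.rp 51 (.thr 27 43 (.thr 15 13 (.thr 31 47 (.dbl 23 19 20)))) (.rp 27 (.str 24 (.nv (.dbl 48 36 53) (.nv (.dbl 55 4 51) .nd))) .nd)))))) (.rp 4 (.thr 55 51 (.thr 53 48 (.dbl 54 6 52))) .nd))))))))) (.rp 14 (.thr 6 54 (.dbl 55 4 51)) (.rp 6 (.str 14 (.nv (.dbl 55 4 51) (.nv (.dbl 26 50 56) (.rp 26 (.str 58 (.nv (.thr 27 43 (.thr 15 13 (.dbl 51 39 55))) (.nv (.dbl 55 4 51) (.rp 55 (.thr 27 43 (.thr 15 13 (.thr 31 47 (.dbl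 23 19 20)))) (.rp 51 (.thr 27 43 (.thr 15 13 (.thr 31 47 (.dbl 23 19 20)))) (.rp 27 (.str 24 (.nv (.dbl 48 36 53) (.nv (.dbl 55 4 51) .nd))) .nd)))))) .nd)))) .nd)))))) (.rp 4 (.thr 51 55 (.thr 54 6 (.thr 44 35 (.dbl 60 28 57)))) .nd))))))) .nd))))))) (.rp 19 (.thr 17 25 (.thr 33 49 (.thr 37 45 (.thr 53 5 (.thr 52 7 (.thr 55 54 (.thr 20 23 (.dbl 4 36 38)))))))) (.rp 17 (.str 38 (.nv (.thr 12 46 (.thr 44 35 (.thr 28 60 (.dbl 25 19 51)))) (.nv (.thr 6 54 (.thr 4 55 (.thr 7 5 (.thr 20 23 (.dbl 52 36 37))))) (.nv (.thr 12 46 (.thr 55 4 (.dbl 51 25 59))) .nd)))) (.rp 16 (.thr 25 17 (.thr 12 46 (.thr 38 51 (.thr 54 6 (.thr 23 20 (.thr 55 4 (.thr 7 39 (.dbl 52 37 53)))))))) (.rp 12 (.str 6 (.nv (.thr 17 25 (.thr 33 49 (.thr 37 45 (.thr 7 52 (.dbl 5 4 53))))) (.nv (.thr 25 17 (.thr 28 19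 (.thr 31 30 (.thr 20 23 (.dbl 16 24 26))))) (.nv (.thr 20 23 (.thr 38 54 (.thr 4 55 (.thr 7 5 (.dbl 52 36 37))))) .nd)))) .nd)))))))))))) .nd))))) (.rp 40 (.str 29 (.nv (.thr 12 46 (.thr 61 1 (.thr 60 62 (.thr 28 44 (.thr 30 31 (.dbl 45 13 15)))))) (.nv (.thr 25 17 (.thr 12 46 (.thr 51 38 (.thr 59 55 (.dbl 42 0 8))))) (.rp 46 (.thr 25 17 (.thr 61 1 (.thr 60 62 (.thr 22 3 (.thr 0 42 (.thr 28 19 (.thr 30 31 (.dbl 45 13 15)))))))) (.rp 42 (.thr 25 17 (.thr 61 1 (.thr 12 46 (.thr 38 51 (.thr 44 35 (.dbl 60 28 62)))))) (.rp 12 (.thr 17 25 (.thr 1 61 (.thr 33 49 (.thr 37 45 (.thr 53 5 (.thr 48 58 (.thr 3 18 (.thr 23 43 (.dbl 22 20 60))))))))) (.rp 0 (.thr 17 25 (.thr 1 61 (.thr 33 49 (.thr 37 45 (.thr 53 5 (.thr 48 58 (.thr 3 18 (.thr 23 43 (.dbl 22 20 60))))))))) .nd))))))) (.rp 23 (.str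 29 (.nv (.thr 25 17 (.thr 0 42 (.thr 12 46 (.thr 4 8 (.dbl 38 51 55))))) (.nv (.thr 12 46 (.thr 61 1 (.thr 60 62 (.thr 28 44 (.thr 30 31 (.dbl 45 13 15)))))) (.nv (.thr 25 17 (.thr 12 46 (.thr 51 38 (.thr 42 0 (.dbl 59 8 55))))) (.rp 46 (.thr 17 25 (.thr 1 61 (.thr 33 49 (.thr 37 45 (.thr 53 5 (.thr 48 58 (.thr 18 3 (.thr 16 19 (.dbl 0 32 42))))))))) (.rp 42 (.thr 25 17 (.thr 61 1 (.thr 12 46 (.thr 38 51 (.thr 44 35 (.dbl 60 28 62)))))) (.rp 12 (.thr 17 25 (.thr 1 61 (.thr 33 49 (.thr 37 45 (.thr 53 5 (.thr 48 58 (.thr 15 26 (.thr 47 31 (.dbl 42 0 32))))))))) (.rp 0 (.thr 17 25 (.thr 1 61 (.thr 33 49 (.thr 37 45 (.thr 53 5 (.thr 48 58 (.thr 18 3 (.thr 16 19 (.dbl 26 15 31))))))))) .nd)))))))) (.rp 22 (.str 29 (.nv (.thr 42 0 (.thr 12 46 (.thr 25 17 (.thr 51 38 (.dbl 59 8 55))))) (.nv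 (.thr 12 46 (.thr 25 17 (.thr 38 51 (.thr 44 35 (.thr 60 28 (.dbl 61 1 62)))))) (.nv (.thr 25 17 (.thr 12 46 (.thr 38 51 (.thr 4 55 (.dbl 0 8 42))))) (.rp 51 (.thr 17 25 (.thr 42 0 (.thr 46 12 (.thr 38 34 (.thr 44 35 (.thr 45 47 (.dbl 61 1 13))))))) (.rp 46 (.thr 25 17 (.thr 42 0 (.thr 59 8 (.thr 51 55 (.thr 43 40 (.thr 3 23 (.thr 35 19 (.dbl 38 12 44)))))))) (.rp 42 (.str 62 (.nv (.dbl 61 1 60) (.rp 61 (.thr 46 12 (.thr 30 14 (.thr 31 28 (.thr 15 47 (.thr 26 16 (.thr 37 48 (.dbl 45 33 60))))))) (.rp 60 (.thr 25 17 (.thr 61 1 (.thr 13 45 (.thr 49 37 (.thr 53 57 (.thr 12 46 (.thr 48 58 (.dbl 51 38 50)))))))) (.rp 1 (.thr 25 17 (.thr 60 61 (.thr 12 46 (.thr 38 51 (.dbl 44 28 35))))) .nd))))) (.rp 38 (.thr 17 25 (.thr 1 61 (.thr 33 49 (.thr 37 45 (.thr 53 5 (.thr 48 58 (.thr 3 18 (.thr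 43 23 (.dbl 42 0 40))))))))) (.rp 25 (.thr 46 12 (.thr 42 0 (.thr 38 34 (.thr 44 35 (.thr 45 47 (.dbl 61 1 13)))))) (.rp 17 (.thr 12 46 (.thr 42 0 (.thr 43 40 (.thr 61 1 (.thr 3 23 (.thr 60 62 (.thr 28 44 (.thr 30 31 (.dbl 45 13 15))))))))) (.rp 12 (.thr 17 25 (.thr 1 61 (.thr 33 49 (.thr 37 45 (.thr 53 5 (.thr 48 58 (.thr 3 18 (.thr 43 23 (.dbl 42 0 40))))))))) (.rp 0 (.thr 25 17 (.thr 12 46 (.thr 51 38 (.thr 59 55 (.thr 42 8 (.thr 43 40 (.thr 3 23 (.thr 35 19 (.thr 39 47 (.dbl 27 11 15)))))))))) .nd)))))))))))) (.rp 20 (.thr 61 1 (.thr 60 62 (.thr 3 22 (.thr 42 0 (.dbl 43 23 40))))) (.rp 3 (.str 12 (.nv (.thr 0 42 (.thr 29 46 (.thr 4 8 (.thr 25 17 (.dbl 38 51 55))))) (.nv (.thr 0 42 (.thr 4 8 (.thr 38 55 (.thr 44 35 (.thr 60 28 (.dbl 61 1 62)))))) (.nv (.thr 29 46 (.thr 25 17 (.thr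 51 38 (.thr 59 55 (.dbl 42 0 8))))) (.rp 55 (.thr 46 29 (.thr 1 61 (.thr 42 0 (.thr 40 43 (.thr 38 34 (.thr 44 35 (.thr 32 36 (.dbl 47 37 45)))))))) (.rp 51 (.thr 29 46 (.thr 1 61 (.thr 17 25 (.thr 33 49 (.thr 37 45 (.thr 53 5 (.thr 42 0 (.thr 47 32 (.thr 15 31 (.dbl 48 26 58)))))))))) (.rp 42 (.thr 29 46 (.thr 25 17 (.thr 38 51 (.thr 4 55 (.thr 61 1 (.thr 0 8 (.thr 13 45 (.thr 15 14 (.thr 47 31 (.thr 35 44 (.thr 39 43 (.dbl 37 36 49)))))))))))) (.rp 38 (.thr 29 46 (.thr 1 61 (.thr 25 17 (.thr 42 0 (.thr 8 59 (.thr 40 43 (.thr 24 56 (.thr 48 36 (.thr 58 53 (.dbl 26 10 27)))))))))) (.rp 25 (.thr 46 29 (.thr 1 61 (.thr 42 0 (.thr 40 43 (.thr 38 34 (.thr 44 35 (.thr 32 36 (.dbl 47 37 45)))))))) (.rp 8 (.thr 46 29 (.thr 1 61 (.thr 42 0 (.thr 38 34 (.thr 55 4 (.dbl 51 25 59)))))) (.rp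 0 (.thr 1 61 (.thr 29 46 (.thr 17 25 (.thr 33 49 (.thr 37 45 (.thr 53 5 (.thr 48 58 (.thr 15 26 (.thr 47 31 (.thr 42 32 (.thr 43 40 (.thr 39 35 (.dbl 36 24 38))))))))))))) .nd))))))))))) (.rp 1 (.thr 42 0 (.str 3 (.nv (.dbl 43 23 40) (.rp 43 (.thr 60 22 (.thr 61 62 (.str 29 (.nv (.thr 13 45 (.thr 25 17 (.thr 49 37 (.thr 57 53 (.thr 51 54 (.dbl 59 8 55)))))) (.nv (.thr 12 46 (.thr 28 44 (.thr 30 31 (.dbl 45 13 15)))) (.rp 45 (.thr 12 46 (.thr 44 28 (.thr 25 17 (.dbl 38 35 51)))) (.rp 13 (.str 5 (.nv (.thr 25 17 (.thr 59 8 (.thr 51 55 (.dbl 12 38 46)))) (.nv (.thr 37 53 (.thr 47 32 (.thr 15 31 (.dbl 45 30 33)))) (.rp 33 (.thr 12 46 (.thr 44 28 (.thr 38 35 (.dbl 25 17 51)))) .nd)))) .nd))))))) (.rp 40 (.thr 23 43 (.dbl 22 20 60)) (.rp 23 (.thr 43 40 (.thr 60 22 (.thr 61 62 (.str 29 (.nv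 (.thr 12 46 (.thr 28 44 (.thr 30 31 (.dbl 45 13 15)))) (.nv (.thr 13 45 (.thr 25 17 (.thr 49 37 (.thr 57 53 (.thr 51 54 (.dbl 59 8 55)))))) (.nv (.thr 12 46 (.thr 44 28 (.thr 38 35 (.dbl 25 17 51)))) (.rp 13 (.str 5 (.nv (.thr 37 53 (.thr 33 45 (.thr 48 18 (.thr 56 52 (.dbl 26 11 15))))) (.nv (.thr 12 46 (.thr 44 28 (.thr 38 35 (.dbl 25 17 51)))) (.rp 30 (.thr 46 12 (.thr 37 53 (.thr 45 33 (.dbl 47 32 44)))) .nd)))) .nd)))))))) (.rp 13 (.str 5 (.nv (.dbl 43 23 40) (.rp 43 (.thr 37 53 (.thr 33 45 (.thr 47 32 (.thr 15 31 (.dbl 48 18 26))))) (.rp 40 (.thr 23 43 (.dbl 22 20 60)) (.rp 23 (.thr 37 53 (.thr 33 45 (.thr 47 32 (.thr 15 31 (.dbl 48 18 26))))) .nd))))) (.rp 5 (.str 13 (.nv (.dbl 43 23 40) (.rp 43 (.thr 60 22 (.thr 61 62 (.thr 45 29 (.thr 37 33 (.thr 47 32 (.dbl 15 30 31))))))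 (.rp 40 (.thr 23 43 (.dbl 22 20 60)) (.rp 23 (.thr 60 22 (.thr 61 62 (.thr 45 29 (.thr 37 33 (.thr 47 32 (.dbl 15 30 31)))))) (.rp 15 (.str 10 (.nv (.dbl 43 23 40) (.rp 43 (.thr 58 26 (.thr 48 53 (.thr 33 18 (.thr 45 37 (.thr 61 29 (.dbl 60 22 62)))))) (.rp 40 (.thr 23 43 (.dbl 22 20 60)) (.rp 23 (.thr 58 26 (.thr 48 53 (.thr 33 18 (.thr 45 37 (.thr 61 29 (.dbl 60 22 62)))))) .nd))))) (.rp 10 (.str 15 (.nv (.thr 11 7 (.thr 26 56 (.dbl 31 16 47))) (.nv (.dbl 43 23 40) (.rp 14 (.str 6 (.nv (.thr 11 7 (.thr 26 56 (.dbl 31 16 47))) (.nv (.dbl 43 23 40) (.rp 11 (.str 8 (.nv (.thr 47 31 (.thr 37 32 (.dbl 25 49 59))) (.nv (.dbl 43 23 40) .nd))) .nd)))) (.rp 11 (.str 8 (.nv (.thr 47 31 (.thr 37 32 (.dbl 25 49 59))) (.nv (.dbl 43 23 40) (.rp 14 (.str 6 (.nv (.thr 47 31 (.thr 37 32 (.dbl 25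 49 59))) (.nv (.dbl 43 23 40) .nd))) (.rp 6 (.thr 14 12 (.dbl 43 23 40)) .nd))))) (.rp 6 (.thr 14 12 (.dbl 43 23 40)) .nd)))))) .nd))))))) .nd)))))))) (.rp 0 (.str 3 (.nv (.thr 60 22 (.dbl 61 1 62)) (.nv (.thr 23 43 (.dbl 22 20 60)) (.rp 60 (.thr 1 61 (.thr 43 23 (.str 59 (.nv (.thr 27 11 (.thr 51 55 (.thr 39 15 (.dbl 35 19 47)))) (.nv (.thr 51 55 (.thr 35 19 (.thr 38 44 (.thr 12 25 (.thr 46 29 (.dbl 42 34 40)))))) (.nv (.thr 40 42 (.thr 11 27 (.thr 26 56 (.thr 31 16 (.dbl 15 7 47))))) (.nv (.thr 51 55 (.thr 35 19 (.thr 39 47 (.dbl 27 11 15)))) (.rp 40 (.str 20 (.nv (.thr 27 11 (.thr 51 55 (.thr 39 15 (.dbl 35 19 47)))) (.nv (.thr 11 27 (.thr 26 56 (.thr 31 16 (.dbl 15 7 47)))) (.nv (.thr 51 55 (.thr 35 19 (.thr 39 47 (.dbl 27 11 15)))) (.rp 47 (.thr 51 55 (.thr 11 27 (.thr 56 26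 (.thr 58 57 (.thr 48 53 (.thr 49 50 (.dbl 33 17 18))))))) (.rp 27 (.str 31 (.nv (.thr 15 47 (.thr 26 16 (.thr 48 37 (.thr 56 11 (.dbl 58 53 57))))) (.nv (.thr 51 55 (.thr 35 19 (.dbl 47 15 39))) (.rp 47 (.thr 51 55 (.thr 19 35 (.thr 16 26 (.thr 28 24 (.thr 25 22 (.dbl 29 17 30)))))) (.rp 15 (.thr 51 55 (.thr 19 35 (.thr 16 26 (.thr 28 24 (.thr 25 22 (.dbl 29 17 30)))))) .nd))))) (.rp 19 (.thr 51 55 (.thr 27 11 (.thr 39 15 (.thr 35 47 (.thr 38 44 (.thr 12 25 (.thr 36 37 (.thr 48 24 (.thr 33 18 (.dbl 49 17 50)))))))))) (.rp 15 (.thr 51 55 (.thr 11 27 (.thr 56 26 (.thr 58 57 (.thr 48 53 (.thr 49 50 (.dbl 33 17 18))))))) (.rp 11 (.thr 51 55 (.thr 35 19 (.thr 39 47 (.thr 38 44 (.thr 12 25 (.thr 36 37 (.thr 48 24 (.thr 33 18 (.dbl 49 17 50))))))))) .nd))))))))) (.rp 27 (.thr 55 51 (.thr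 38 4 (.thr 35 44 (.thr 39 47 (.thr 37 36 (.thr 53 5 (.thr 48 58 (.dbl 33 18 45)))))))) (.rp 19 (.thr 27 11 (.thr 51 55 (.thr 39 15 (.thr 35 47 (.thr 38 44 (.thr 12 25 (.thr 46 29 (.dbl 42 34 40)))))))) .nd)))))))))) (.rp 22 (.thr 43 23 (.str 15 (.nv (.thr 11 7 (.thr 26 56 (.thr 42 40 (.thr 58 10 (.dbl 48 37 53))))) (.nv (.thr 42 40 (.thr 11 7 (.thr 27 59 (.thr 39 51 (.dbl 47 31 35))))) (.nv (.thr 31 47 (.thr 26 16 (.dbl 11 7 56))) (.rp 42 (.str 62 (.nv (.thr 11 7 (.thr 26 56 (.dbl 31 16 47))) (.nv (.dbl 61 1 60) .nd))) (.rp 11 (.thr 47 31 (.thr 35 39 (.thr 38 44 (.thr 55 4 (.dbl 51 19 59))))) (.rp 7 (.thr 47 31 (.thr 42 40 (.thr 37 32 (.thr 33 45 (.dbl 48 18 26))))) .nd)))))))) .nd))))) .nd))))))))))))))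

theorem w160 : WinAt (2199025352704, 516) :=
  chF (K := []) kn c160 2199025352704 516 9
    [] (by decide +kernel) (by decide +kernel)

/-- A certificate. -/
noncomputable def c161 : Ct := (.str 25 (.nv (.thr 9 57 (.thr 17 29 (.thr 1 61 (.thr 49 33 (.dbl 13 5 37))))) (.rp 61 (.thr 29 17 (.str 28 (.nv (.thr 22 19 (.thr 57 9 (.thr 60 3 (.thr 12 44 (.dbl 51 38 54))))) (.nv (.thr 22 19 (.thr 20 23 (.thr 31 30 (.dbl 16 24 26)))) (.rp 22 (.thr 57 9 (.thr 31 30 (.thr 26 16 (.thr 24 27 (.thr 56 11 (.thr 8 40 (.dbl 59 42 58))))))) (.rp 19 (.thr 57 9 (.thr 31 30 (.thr 16 26 (.thr 20 24 (.thr 22 23 (.thr 60 3 (.thr 12 44 (.dbl 51 38 54)))))))) (.rp 18 (.thr 31 30 (.thr 16 26 (.thr 22 19 (.dbl 20 23 24)))) (.rp 16 (.thr 57 9 (.thr 30 31 (.thr 22 19 (.thr 18 26 (.thr 60 3 (.thr 12 44 (.dbl 51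 38 54))))))) (.rp 14 (.str 6 (.nv (.thr 9 57 (.thr 12 3 (.thr 44 60 (.dbl 38 35 51)))) (.nv (.thr 19 22 (.thr 31 30 (.thr 26 16 (.dbl 27 23 24)))) (.nv (.thr 9 57 (.thr 3 12 (.dbl 22 19 60))) .nd)))) (.rp 6 (.str 14 (.nv (.thr 22 19 (.thr 57 9 (.thr 60 3 (.thr 12 44 (.dbl 51 38 54))))) (.nv (.thr 30 31 (.thr 46 62 (.thr 12 63 (.thr 60 44 (.dbl 15 13 45))))) (.nv (.thr 22 19 (.thr 20 23 (.thr 31 30 (.dbl 16 24 26)))) (.rp 22 (.thr 31 30 (.thr 26 16 (.thr 38 50 (.thr 44 35 (.dbl 12 51 60))))) .nd))))) .nd)))))))))) (.rp 57 (.thr 61 1 (.thr 17 29 (.str 0 (.nv (.thr 63 42 (.thr 60 62 (.thr 22 3 (.dbl 20 23 40)))) (.nv (.thr 51 34 (.thr 12 38 (.thr 42 63 (.dbl 8 4 59)))) (.rp 63 (.thr 51 34 (.thr 12 38 (.thr 8 4 (.thr 42 59 (.thr 40 43 (.thr 60 20 (.thr 28 44 (.dbl 22 3 19)))))))) (.rp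 42 (.thr 51 34 (.thr 38 12 (.thr 55 4 (.thr 63 59 (.thr 60 62 (.thr 22 3 (.dbl 20 23 40))))))) (.rp 14 (.str 6 (.nv (.thr 51 34 (.thr 38 12 (.thr 22 54 (.thr 3 60 (.dbl 19 28 35))))) (.nv (.thr 63 42 (.thr 60 62 (.thr 22 3 (.dbl 20 23 40)))) (.nv (.thr 51 34 (.thr 12 38 (.thr 42 63 (.dbl 8 4 59)))) (.rp 63 (.thr 51 34 (.thr 12 38 (.thr 3 9 (.thr 22 60 (.dbl 19 28 35))))) .nd))))) (.rp 6 (.str 14 (.nv (.thr 51 34 (.thr 12 38 (.thr 8 4 (.dbl 42 59 63)))) (.nv (.thr 63 42 (.thr 60 62 (.thr 22 3 (.dbl 20 23 40)))) (.rp 63 (.thr 51 34 (.thr 12 38 (.thr 15 13 (.thr 27 39 (.thr 26 24 (.thr 16 31 (.dbl 48 32 37))))))) (.rp 42 (.thr 51 34 (.thr 38 12 (.thr 35 44 (.thr 55 4 (.thr 3 19 (.thr 63 59 (.dbl 60 22 62))))))) (.rp 22 (.thr 42 63 (.thr 8 59 (.thr 12 4 (.dbl 51 34 38)))) (.rp 12 (.thr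 63 42 (.thr 51 34 (.thr 55 59 (.thr 38 4 (.thr 35 44 (.thr 3 19 (.dbl 60 22 62))))))) .nd))))))) .nd))))))))) (.rp 49 (.thr 9 57 (.thr 61 1 (.thr 17 29 (.str 0 (.nv (.thr 63 42 (.thr 60 62 (.thr 22 3 (.dbl 20 23 40)))) (.nv (.thr 51 34 (.thr 12 38 (.thr 42 63 (.dbl 8 4 59)))) (.rp 63 (.thr 51 34 (.thr 12 38 (.thr 8 4 (.thr 42 59 (.thr 40 43 (.thr 60 20 (.dbl 3 6 22))))))) (.rp 42 (.thr 51 34 (.thr 38 12 (.thr 55 4 (.thr 63 59 (.thr 60 62 (.thr 22 3 (.dbl 20 23 40))))))) (.rp 14 (.str 6 (.nv (.thr 63 42 (.thr 60 62 (.thr 22 3 (.dbl 20 23 40)))) (.nv (.thr 12 3 (.dbl 51 34 38)) (.rp 3 (.thr 51 34 (.thr 12 38 (.thr 8 4 (.dbl 42 59 63)))) .nd)))) (.rp 6 (.str 14 (.nv (.thr 51 34 (.thr 38 12 (.thr 55 4 (.dbl 63 42 59)))) (.nv (.thr 63 42 (.thr 60 62 (.thr 22 3 (.dbl 20 23 40)))) (.rp 63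 (.thr 51 34 (.thr 12 38 (.thr 15 13 (.thr 27 39 (.thr 26 24 (.thr 16 31 (.dbl 48 32 37))))))) (.rp 42 (.thr 51 34 (.thr 38 12 (.thr 35 44 (.thr 55 4 (.thr 3 19 (.thr 63 59 (.dbl 60 22 62))))))) .nd))))) .nd)))))))))) (.rp 45 (.thr 9 57 (.thr 17 29 (.thr 1 61 (.thr 13 5 (.dbl 49 33 37))))) (.rp 37 (.thr 9 57 (.str 6 (.nv (.thr 1 61 (.thr 5 13 (.thr 4 7 (.thr 12 3 (.dbl 38 51 55))))) (.nv (.thr 3 12 (.thr 60 22 (.thr 61 1 (.thr 63 62 (.thr 42 0 (.dbl 43 23 40)))))) (.nv (.thr 12 3 (.thr 29 17 (.thr 51 38 (.thr 63 46 (.thr 59 55 (.dbl 42 0 8)))))) (.rp 12 (.thr 29 17 (.thr 1 61 (.thr 5 13 (.thr 4 7 (.thr 38 55 (.thr 22 54 (.thr 28 19 (.thr 31 30 (.thr 16 26 (.dbl 20 23 24)))))))))) (.rp 3 (.thr 29 17 (.thr 1 61 (.thr 5 13 (.thr 4 7 (.thr 38 55 (.thr 12 51 (.thr 0 8 (.dbl 63 42 46))))))))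 (.rp 1 (.thr 29 17 (.thr 3 12 (.thr 22 60 (.thr 28 19 (.thr 20 23 (.thr 16 24 (.dbl 31 26 30))))))) .nd)))))))) (.rp 33 (.thr 57 9 (.thr 29 17 (.thr 61 1 (.thr 49 53 (.dbl 13 37 45))))) (.rp 29 (.thr 9 57 (.str 0 (.nv (.thr 42 63 (.thr 8 59 (.thr 12 4 (.thr 40 43 (.thr 60 20 (.thr 44 28 (.dbl 38 35 51))))))) (.nv (.thr 61 1 (.thr 63 42 (.thr 60 62 (.thr 22 3 (.dbl 20 23 40))))) (.rp 63 (.thr 1 61 (.thr 13 5 (.thr 49 37 (.thr 17 33 (.thr 51 34 (.thr 12 38 (.thr 8 4 (.thr 42 59 (.thr 40 43 (.thr 60 20 (.dbl 3 6 22))))))))))) (.rp 60 (.thr 1 61 (.thr 13 5 (.thr 49 37 (.thr 17 33 (.thr 51 34 (.thr 12 38 (.thr 8 4 (.dbl 42 59 63)))))))) (.rp 58 (.thr 42 63 (.thr 40 43 (.thr 60 20 (.thr 3 22 (.thr 8 59 (.thr 56 24 (.dbl 12 4 6))))))) (.rp 42 (.thr 1 61 (.thr 13 5 (.thr 49 37 (.thr 17 33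 (.thr 51 34 (.thr 38 12 (.thr 55 4 (.thr 63 59 (.thr 35 44 (.thr 3 19 (.thr 23 43 (.dbl 22 20 60)))))))))))) (.rp 40 (.thr 1 61 (.thr 13 5 (.thr 49 37 (.thr 17 33 (.thr 51 34 (.thr 12 38 (.thr 8 4 (.dbl 42 59 63)))))))) (.rp 23 (.thr 1 61 (.thr 13 5 (.thr 49 37 (.thr 17 33 (.thr 51 34 (.thr 12 38 (.thr 8 4 (.dbl 42 59 63)))))))) (.rp 20 (.thr 1 61 (.thr 13 5 (.thr 49 37 (.thr 17 33 (.thr 51 34 (.thr 12 38 (.thr 8 4 (.dbl 42 59 63)))))))) (.rp 14 (.str 6 (.nv (.thr 3 12 (.thr 60 22 (.thr 40 20 (.dbl 42 43 63)))) (.nv (.thr 12 3 (.thr 4 8 (.dbl 38 51 55))) (.rp 12 (.thr 61 1 (.thr 63 42 (.thr 60 62 (.thr 22 3 (.dbl 20 23 40))))) (.rp 3 (.thr 1 61 (.thr 13 5 (.thr 49 37 (.thr 17 33 (.thr 51 34 (.thr 12 38 (.thr 8 4 (.dbl 42 59 63)))))))) .nd))))) (.rp 6 (.str 14 (.nv (.thr 1 61 (.thr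 13 5 (.thr 12 15 (.thr 4 8 (.dbl 38 51 55))))) (.nv (.thr 61 1 (.thr 63 42 (.thr 60 62 (.thr 22 3 (.dbl 20 23 40))))) (.rp 61 (.thr 42 63 (.thr 8 59 (.thr 12 4 (.thr 13 15 (.thr 5 1 (.dbl 37 49 53)))))) (.rp 1 (.thr 42 63 (.thr 40 43 (.thr 60 20 (.thr 8 59 (.thr 12 4 (.thr 28 44 (.dbl 22 3 19))))))) .nd))))) (.rp 3 (.thr 1 61 (.thr 13 5 (.thr 49 37 (.thr 17 33 (.thr 51 34 (.thr 12 38 (.thr 8 4 (.dbl 42 59 63)))))))) .nd)))))))))))))) (.rp 17 (.thr 1 61 (.str 51 (.nv (.thr 38 12 (.thr 35 44 (.thr 3 19 (.thr 55 4 (.thr 63 59 (.thr 43 23 (.dbl 42 0 40))))))) (.nv (.thr 57 9 (.thr 60 54 (.thr 12 38 (.thr 28 44 (.dbl 22 3 19))))) (.rp 60 (.thr 9 57 (.thr 13 5 (.thr 12 38 (.thr 15 14 (.thr 6 3 (.thr 27 39 (.thr 26 24 (.dbl 37 48 49)))))))) (.rp 44 (.thr 57 9 (.thr 60 54 (.thr 3 22 (.thr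 38 12 (.thr 55 4 (.thr 63 59 (.thr 43 23 (.dbl 42 0 40)))))))) (.rp 38 (.thr 57 9 (.thr 60 54 (.thr 22 3 (.thr 19 28 (.thr 23 20 (.thr 27 31 (.thr 15 39 (.thr 30 45 (.dbl 26 18 24))))))))) (.rp 28 (.thr 57 9 (.thr 60 54 (.thr 3 22 (.thr 35 19 (.dbl 38 12 44))))) (.rp 19 (.thr 57 9 (.thr 60 54 (.thr 3 22 (.thr 38 12 (.thr 55 4 (.thr 63 59 (.thr 43 23 (.dbl 42 0 40)))))))) (.rp 14 (.str 6 (.nv (.thr 38 12 (.thr 22 54 (.thr 3 60 (.dbl 19 28 35)))) (.nv (.thr 9 57 (.dbl 12 3 38)) (.rp 38 (.thr 9 57 (.thr 3 12 (.thr 19 35 (.dbl 22 28 60)))) (.rp 12 (.thr 57 9 (.thr 54 60 (.thr 38 22 (.thr 55 4 (.thr 63 59 (.thr 53 52 (.thr 37 5 (.thr 48 58 (.dbl 49 13 50))))))))) (.rp 3 (.thr 57 9 (.thr 38 12 (.dbl 54 22 60))) .nd)))))) (.rp 12 (.thr 57 9 (.thr 60 54 (.thr 3 22 (.thr 35 19 (.thr 38 44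 (.thr 55 4 (.thr 63 59 (.thr 43 23 (.dbl 42 0 40))))))))) (.rp 8 (.thr 38 12 (.thr 35 44 (.thr 3 19 (.thr 60 22 (.dbl 57 9 54))))) (.rp 6 (.str 14 (.nv (.thr 9 57 (.thr 13 5 (.dbl 12 15 38))) (.nv (.thr 12 38 (.thr 57 9 (.thr 60 54 (.thr 22 3 (.dbl 28 19 44))))) (.nv (.thr 12 38 (.thr 13 15 (.dbl 9 5 57))) (.rp 57 (.thr 12 38 (.thr 13 15 (.thr 5 9 (.dbl 37 49 53)))) (.rp 38 (.thr 9 57 (.thr 13 5 (.thr 15 12 (.thr 27 39 (.thr 26 24 (.dbl 37 48 49)))))) (.rp 12 (.str 3 (.nv (.thr 57 9 (.dbl 60 22 54)) (.nv (.thr 19 35 (.dbl 22 28 60)) (.rp 60 (.thr 35 19 (.thr 9 57 (.thr 13 5 (.thr 49 37 (.thr 50 48 (.dbl 38 26 44)))))) (.rp 22 (.thr 35 19 (.thr 9 57 (.thr 13 5 (.thr 49 37 (.thr 38 44 (.dbl 50 26 48)))))) .nd))))) (.rp 9 (.thr 12 38 (.thr 15 13 (.thr 27 39 (.thr 26 24 (.thr 31 16 (.thr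 19 23 (.thr 3 35 (.dbl 11 7 56)))))))) .nd)))))))) (.rp 3 (.thr 57 9 (.thr 60 54 (.thr 12 38 (.thr 28 44 (.thr 22 19 (.thr 20 23 (.thr 0 40 (.thr 8 4 (.dbl 42 59 63))))))))) .nd)))))))))))))) (.rp 14 (.str 6 (.nv (.thr 9 57 (.thr 12 3 (.thr 38 51 (.thr 4 55 (.thr 5 7 (.dbl 1 13 61)))))) (.nv (.thr 1 61 (.thr 17 29 (.thr 9 57 (.thr 49 33 (.dbl 13 5 37))))) (.rp 61 (.thr 17 29 (.thr 9 57 (.thr 12 3 (.thr 51 38 (.thr 0 34 (.thr 8 4 (.dbl 42 59 63))))))) (.rp 57 (.thr 17 29 (.thr 1 61 (.thr 49 33 (.thr 13 37 (.thr 9 5 (.thr 12 3 (.thr 51 38 (.thr 0 34 (.thr 8 4 (.dbl 42 59 63)))))))))) (.rp 13 (.thr 17 29 (.thr 9 57 (.thr 12 3 (.thr 51 38 (.thr 0 34 (.thr 8 4 (.dbl 42 59 63))))))) (.rp 9 (.thr 1 61 (.str 38 (.nv (.thr 4 55 (.thr 5 7 (.thr 17 29 (.thr 33 49 (.dbl 37 45 53))))) (.nv (.thr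 12 51 (.thr 22 54 (.thr 60 3 (.dbl 28 19 44)))) (.rp 11 (.str 8 (.nv (.thr 12 51 (.thr 22 54 (.thr 28 19 (.dbl 44 35 60)))) (.nv (.thr 12 51 (.dbl 4 0 55)) (.rp 51 (.thr 4 55 (.thr 0 12 (.dbl 42 59 63))) (.rp 12 (.thr 17 29 (.thr 33 49 (.thr 35 44 (.thr 34 32 (.dbl 42 46 59))))) .nd))))) (.rp 8 (.str 11 (.nv (.thr 4 55 (.thr 5 7 (.thr 17 29 (.thr 33 49 (.dbl 37 45 53))))) (.nv (.thr 12 51 (.thr 22 54 (.thr 60 3 (.dbl 28 19 44)))) .nd))) .nd)))))) (.rp 5 (.thr 29 17 (.thr 57 9 (.thr 61 1 (.thr 13 45 (.dbl 49 37 53))))) (.rp 1 (.thr 29 17 (.thr 9 57 (.thr 3 12 (.thr 22 60 (.thr 28 19 (.thr 20 23 (.thr 16 24 (.dbl 31 26 30)))))))) .nd))))))))) (.rp 13 (.thr 9 57 (.thr 29 17 (.str 12 (.nv (.thr 38 51 (.thr 44 35 (.thr 60 28 (.dbl 3 6 22)))) (.nv (.thr 61 1 (.thr 63 46 (.thr 60 62 (.dbl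 3 6 22)))) (.nv (.thr 51 38 (.thr 63 46 (.thr 59 55 (.dbl 42 0 8)))) (.rp 14 (.thr 6 3 (.thr 63 46 (.thr 0 42 (.thr 4 8 (.dbl 38 51 55))))) (.rp 6 (.str 14 (.nv (.thr 38 51 (.thr 26 50 (.thr 31 16 (.thr 28 30 (.dbl 44 35 60))))) (.nv (.thr 46 63 (.thr 30 62 (.thr 28 31 (.thr 22 19 (.dbl 60 3 44))))) (.nv (.thr 38 51 (.thr 4 55 (.thr 63 46 (.dbl 0 8 42)))) (.rp 60 (.thr 63 46 (.thr 0 42 (.thr 4 8 (.dbl 38 51 55)))) .nd))))) (.rp 0 (.thr 63 46 (.thr 51 38 (.thr 59 55 (.thr 42 8 (.thr 43 40 (.dbl 3 6 23)))))) .nd))))))))) (.rp 9 (.thr 1 61 (.str 38 (.nv (.thr 17 29 (.thr 35 44 (.thr 33 49 (.thr 34 32 (.dbl 51 0 12))))) (.nv (.thr 29 17 (.thr 12 51 (.thr 63 46 (.thr 4 55 (.dbl 0 8 42))))) (.rp 51 (.thr 17 29 (.thr 33 49 (.thr 45 37 (.thr 44 35 (.thr 46 47 (.thr 42 34 (.thr 63 0 (.thr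 43 40 (.thr 3 23 (.thr 59 8 (.thr 11 27 (.thr 15 7 (.dbl 60 22 30))))))))))))) (.rp 34 (.thr 51 12 (.thr 55 4 (.thr 63 59 (.thr 35 44 (.thr 3 19 (.thr 43 23 (.dbl 42 0 40))))))) (.rp 29 (.thr 51 12 (.thr 55 4 (.thr 63 59 (.thr 35 44 (.thr 3 19 (.thr 43 23 (.dbl 42 0 40))))))) (.rp 17 (.thr 51 12 (.thr 55 4 (.thr 63 59 (.thr 35 44 (.thr 3 19 (.thr 43 23 (.dbl 42 0 40))))))) (.rp 14 (.str 6 (.nv (.thr 4 55 (.thr 5 7 (.thr 17 29 (.thr 33 49 (.dbl 37 45 53))))) (.nv (.thr 12 51 (.thr 22 54 (.thr 60 3 (.dbl 28 19 44)))) (.rp 11 (.str 8 (.nv (.thr 12 51 (.thr 22 54 (.thr 28 19 (.dbl 44 35 60)))) (.nv (.thr 12 51 (.dbl 4 0 55)) (.rp 51 (.thr 4 55 (.thr 0 12 (.dbl 42 59 63))) (.rp 12 (.thr 17 29 (.thr 33 49 (.thr 35 44 (.thr 34 32 (.dbl 42 46 59))))) .nd))))) (.rp 8 (.str 11 (.nv (.thr 4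 55 (.thr 5 7 (.thr 17 29 (.thr 33 49 (.dbl 37 45 53))))) (.nv (.thr 12 51 (.thr 22 54 (.thr 60 3 (.dbl 28 19 44)))) .nd))) .nd))))) (.rp 12 (.thr 17 29 (.thr 33 49 (.thr 35 44 (.thr 34 32 (.thr 0 51 (.dbl 42 46 63)))))) (.rp 11 (.str 8 (.nv (.thr 12 51 (.thr 29 17 (.thr 42 59 (.dbl 63 0 46)))) (.nv (.thr 12 51 (.dbl 4 0 55)) (.rp 51 (.thr 4 55 (.thr 0 12 (.dbl 42 59 63))) (.rp 14 (.str 6 (.nv (.thr 12 51 (.thr 22 54 (.thr 28 19 (.dbl 44 35 60)))) (.nv (.thr 12 51 (.dbl 4 0 55)) (.rp 51 (.thr 4 55 (.thr 0 12 (.dbl 42 59 63))) (.rp 12 (.thr 17 29 (.thr 33 49 (.thr 35 44 (.thr 34 32 (.dbl 42 46 59))))) .nd))))) (.rp 12 (.thr 17 29 (.thr 33 49 (.thr 35 44 (.thr 34 32 (.dbl 42 46 59))))) (.rp 6 (.str 14 (.nv (.thr 26 50 (.thr 24 27 (.thr 40 56 (.dbl 42 43 59)))) (.nv (.thr 12 51 (.dbl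 4 0 55)) (.rp 12 (.str 3 (.nv (.thr 42 59 (.thr 43 40 (.dbl 63 0 23))) (.nv (.thr 35 44 (.thr 19 51 (.dbl 22 28 60))) .nd))) .nd)))) (.rp 0 (.thr 51 12 (.thr 55 4 (.dbl 59 42 63))) .nd)))))))) (.rp 8 (.str 11 (.nv (.thr 17 29 (.thr 26 56 (.thr 16 31 (.thr 19 18 (.thr 24 27 (.dbl 28 20 22)))))) (.nv (.thr 17 29 (.thr 33 49 (.thr 35 44 (.thr 51 12 (.dbl 34 0 32))))) (.nv (.thr 12 51 (.thr 26 56 (.thr 24 27 (.thr 48 36 (.thr 15 37 (.dbl 14 13 50)))))) (.rp 14 (.str 6 (.nv (.thr 4 55 (.thr 5 7 (.thr 17 29 (.thr 33 49 (.dbl 37 45 53))))) (.nv (.thr 12 51 (.thr 22 54 (.thr 60 3 (.dbl 28 19 44)))) .nd))) (.rp 13 (.thr 29 17 (.thr 12 51 (.thr 44 35 (.thr 28 60 (.thr 31 30 (.dbl 26 16 56)))))) (.rp 6 (.str 14 (.nv (.dbl 26 50 56) (.rp 56 (.thr 17 29 (.thr 49 33 (.thr 13 37 (.dbl 12 15 51))))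 (.rp 50 (.thr 17 29 (.thr 49 33 (.thr 13 37 (.dbl 12 15 51)))) (.rp 26 (.thr 17 29 (.thr 49 33 (.thr 13 37 (.dbl 12 15 51)))) (.rp 12 (.str 3 (.nv (.thr 35 44 (.thr 19 51 (.dbl 22 28 60))) (.nv (.dbl 26 50 56) (.rp 4 (.str 0 (.nv (.thr 17 29 (.thr 34 51 (.dbl 42 46 63))) (.nv (.dbl 26 50 56) (.rp 7 (.str 5 (.nv (.thr 17 29 (.thr 33 49 (.dbl 37 45 53))) (.nv (.dbl 26 50 56) .nd))) (.rp 5 (.thr 7 15 (.dbl 26 50 56)) .nd))))) (.rp 0 (.thr 4 55 (.dbl 26 50 56)) .nd))))) (.rp 3 (.thr 12 51 (.dbl 26 50 56)) .nd))))))) .nd))))))) (.rp 6 (.str 14 (.nv (.thr 4 55 (.thr 26 50 (.thr 24 27 (.thr 56 11 (.thr 8 40 (.dbl 12 0 51)))))) (.nv (.thr 12 51 (.thr 17 29 (.thr 49 33 (.dbl 13 15 37)))) (.rp 51 (.thr 29 17 (.thr 26 50 (.thr 27 24 (.thr 31 16 (.thr 19 23 (.dbl 28 22 30)))))) (.rp 12 (.str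 3 (.nv (.thr 17 29 (.thr 26 50 (.thr 16 31 (.thr 18 19 (.dbl 33 48 49))))) (.nv (.thr 35 44 (.thr 19 51 (.dbl 22 28 60))) (.rp 28 (.thr 17 29 (.thr 33 49 (.thr 18 48 (.thr 19 16 (.dbl 35 44 51))))) (.rp 19 (.thr 17 29 (.thr 33 49 (.thr 26 50 (.thr 22 60 (.dbl 18 30 48))))) (.rp 11 (.str 8 (.nv (.thr 42 59 (.thr 43 40 (.dbl 63 0 23))) (.nv (.thr 35 44 (.thr 19 51 (.dbl 22 28 60))) .nd))) (.rp 8 (.str 11 (.nv (.thr 35 44 (.thr 19 51 (.dbl 22 28 60))) (.nv (.dbl 26 50 56) (.rp 4 (.str 0 (.nv (.thr 17 29 (.thr 34 51 (.dbl 42 46 63))) (.nv (.dbl 26 50 56) (.rp 7 (.str 5 (.nv (.thr 17 29 (.thr 33 49 (.dbl 37 45 53))) (.nv (.dbl 26 50 56) .nd))) (.rp 5 (.thr 7 15 (.dbl 26 50 56)) .nd))))) (.rp 0 (.thr 4 55 (.dbl 26 50 56)) .nd))))) .nd))))))) (.rp 11 (.str 8 (.nv (.thr 26 50 (.thr 24 27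 (.thr 40 56 (.dbl 42 43 59)))) (.nv (.thr 12 51 (.dbl 4 0 55)) (.rp 12 (.str 3 (.nv (.thr 42 59 (.thr 43 40 (.dbl 63 0 23))) (.nv (.thr 35 44 (.thr 19 51 (.dbl 22 28 60))) .nd))) .nd)))) (.rp 8 (.str 11 (.nv (.dbl 26 50 56) (.rp 56 (.thr 17 29 (.thr 49 33 (.thr 13 37 (.dbl 12 15 51)))) (.rp 50 (.thr 17 29 (.thr 49 33 (.thr 13 37 (.dbl 12 15 51)))) (.rp 26 (.thr 17 29 (.thr 49 33 (.thr 13 37 (.dbl 12 15 51)))) (.rp 12 (.str 3 (.nv (.thr 35 44 (.thr 19 51 (.dbl 22 28 60))) (.nv (.dbl 26 50 56) (.rp 4 (.str 0 (.nv (.thr 17 29 (.thr 34 51 (.dbl 42 46 63))) (.nv (.dbl 26 50 56) (.rp 7 (.str 5 (.nv (.thr 17 29 (.thr 33 49 (.dbl 37 45 53))) (.nv (.dbl 26 50 56) .nd))) (.rp 5 (.thr 7 15 (.dbl 26 50 56)) .nd))))) (.rp 0 (.thr 4 55 (.dbl 26 50 56)) .nd))))) (.rp 3 (.thr 12 51 (.dbl 26 50 56))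 .nd))))))) .nd))))))) (.rp 0 (.thr 17 29 (.thr 12 51 (.thr 44 35 (.thr 28 60 (.thr 19 22 (.thr 16 18 (.thr 26 31 (.dbl 24 20 27)))))))) .nd)))))))))))))) (.rp 6 (.str 14 (.nv (.thr 9 57 (.thr 17 29 (.thr 1 61 (.thr 49 33 (.dbl 13 5 37))))) (.rp 61 (.str 12 (.nv (.thr 29 17 (.thr 38 51 (.thr 4 55 (.thr 63 46 (.dbl 0 8 42))))) (.nv (.thr 9 57 (.thr 13 15 (.thr 5 1 (.dbl 37 49 53)))) (.rp 0 (.thr 15 13 (.thr 38 51 (.thr 26 50 (.thr 48 37 (.dbl 24 27 36))))) .nd)))) (.rp 57 (.thr 29 17 (.thr 61 1 (.thr 13 45 (.thr 12 15 (.thr 63 46 (.thr 0 42 (.thr 4 8 (.dbl 38 51 55)))))))) (.rp 49 (.str 12 (.nv (.thr 15 13 (.thr 38 51 (.thr 26 50 (.thr 48 37 (.dbl 24 27 36))))) (.nv (.thr 13 15 (.thr 9 57 (.dbl 1 5 61))) (.rp 15 (.thr 29 17 (.thr 63 46 (.thr 0 42 (.thr 4 8 (.dbl 38 51 55))))) (.rp 13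 (.thr 29 17 (.thr 63 46 (.thr 0 42 (.thr 4 8 (.dbl 38 51 55))))) .nd))))) (.rp 45 (.thr 17 29 (.thr 9 57 (.thr 1 61 (.thr 13 5 (.dbl 49 33 37))))) (.rp 37 (.thr 29 17 (.thr 61 1 (.thr 13 45 (.thr 57 9 (.thr 12 15 (.thr 63 46 (.thr 60 62 (.dbl 51 38 54)))))))) (.rp 33 (.thr 29 17 (.thr 57 9 (.thr 61 1 (.thr 49 53 (.dbl 13 37 45))))) (.rp 29 (.thr 61 1 (.thr 57 9 (.thr 49 53 (.thr 13 37 (.thr 12 15 (.thr 38 51 (.thr 26 50 (.thr 16 31 (.thr 44 35 (.thr 28 60 (.dbl 24 20 27))))))))))) (.rp 17 (.thr 61 1 (.thr 57 9 (.thr 49 53 (.thr 13 37 (.thr 29 45 (.thr 12 15 (.thr 63 46 (.thr 60 62 (.dbl 51 38 54))))))))) (.rp 13 (.str 12 (.nv (.thr 29 17 (.thr 46 63 (.thr 30 62 (.thr 28 31 (.thr 22 19 (.dbl 60 3 44)))))) (.nv (.thr 51 38 (.thr 57 9 (.thr 60 54 (.thr 22 3 (.dbl 28 19 44))))) (.nv (.thr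 29 17 (.thr 38 51 (.thr 4 55 (.thr 63 46 (.dbl 0 8 42))))) .nd)))) (.rp 9 (.thr 29 17 (.thr 61 1 (.thr 13 45 (.thr 12 15 (.thr 63 46 (.thr 0 42 (.thr 38 51 (.dbl 4 8 55)))))))) (.rp 5 (.thr 29 17 (.thr 61 1 (.thr 13 45 (.thr 57 9 (.dbl 49 37 53))))) (.rp 1 (.str 0 (.nv (.thr 17 29 (.thr 51 34 (.thr 57 9 (.thr 60 54 (.thr 20 40 (.dbl 22 3 23)))))) (.nv (.thr 29 17 (.thr 63 42 (.thr 12 46 (.thr 13 15 (.thr 45 61 (.dbl 37 33 49)))))) (.nv (.thr 17 29 (.thr 42 63 (.thr 8 59 (.thr 51 34 (.dbl 12 4 38))))) (.rp 38 (.thr 17 29 (.thr 57 9 (.thr 42 63 (.thr 40 43 (.thr 60 20 (.dbl 51 34 54)))))) (.rp 34 (.thr 29 17 (.thr 63 42 (.thr 12 46 (.thr 38 51 (.dbl 4 8 55))))) (.rp 29 (.thr 57 9 (.thr 42 63 (.thr 43 40 (.thr 59 8 (.thr 11 27 (.dbl 56 26 58)))))) (.rp 17 (.thr 57 9 (.thr 42 63 (.thr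 43 40 (.thr 59 8 (.thr 11 27 (.dbl 56 26 58)))))) (.rp 12 (.thr 42 63 (.thr 43 40 (.thr 59 8 (.thr 11 27 (.thr 56 26 (.dbl 57 9 58)))))) .nd))))))))) .nd)))))))))))))) (.rp 5 (.thr 57 9 (.thr 29 17 (.thr 61 1 (.thr 13 45 (.dbl 49 37 53))))) (.rp 1 (.thr 9 57 (.str 0 (.nv (.thr 17 29 (.thr 42 63 (.thr 40 43 (.thr 51 34 (.thr 12 38 (.thr 60 20 (.dbl 3 6 22))))))) (.nv (.thr 42 63 (.thr 8 59 (.thr 12 4 (.thr 40 43 (.thr 60 20 (.dbl 3 6 22)))))) (.nv (.thr 17 29 (.thr 51 34 (.thr 12 38 (.thr 42 63 (.dbl 8 4 59))))) (.rp 63 (.thr 17 29 (.thr 51 34 (.thr 12 38 (.thr 8 4 (.thr 42 59 (.thr 40 43 (.thr 60 20 (.dbl 3 6 22)))))))) (.rp 51 (.thr 29 17 (.thr 63 42 (.thr 12 46 (.thr 4 8 (.thr 38 55 (.thr 44 35 (.thr 60 28 (.dbl 3 6 22)))))))) (.rp 42 (.thr 17 29 (.thr 51 34 (.thr 38 12 (.thr 55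 4 (.thr 63 59 (.thr 35 44 (.thr 3 19 (.thr 23 43 (.dbl 22 20 60))))))))) (.rp 14 (.str 6 (.nv (.thr 12 3 (.thr 8 4 (.dbl 42 59 63))) (.nv (.thr 17 29 (.thr 12 3 (.dbl 51 34 38))) (.rp 12 (.thr 17 29 (.thr 51 34 (.thr 63 42 (.thr 55 59 (.thr 38 4 (.thr 22 54 (.thr 60 3 (.dbl 20 23 40)))))))) (.rp 3 (.thr 17 29 (.thr 51 34 (.thr 12 38 (.thr 8 4 (.dbl 42 59 63))))) .nd))))) (.rp 12 (.thr 42 63 (.thr 8 59 (.thr 40 43 (.thr 60 20 (.thr 56 24 (.thr 48 52 (.thr 16 32 (.dbl 26 11 31)))))))) (.rp 6 (.str 14 (.nv (.thr 29 17 (.thr 63 42 (.thr 46 12 (.thr 62 30 (.thr 60 61 (.thr 20 40 (.dbl 22 3 23))))))) (.nv (.thr 17 29 (.thr 51 34 (.thr 12 38 (.thr 42 63 (.dbl 8 4 59))))) (.rp 63 (.thr 17 29 (.thr 51 34 (.thr 12 38 (.thr 15 13 (.thr 27 39 (.thr 26 24 (.thr 16 31 (.dbl 48 32 37)))))))) (.rp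 42 (.thr 17 29 (.thr 51 34 (.thr 38 12 (.thr 35 44 (.thr 19 3 (.thr 26 50 (.thr 18 16 (.dbl 22 28 30)))))))) (.rp 29 (.thr 42 63 (.thr 40 43 (.thr 60 20 (.thr 8 59 (.thr 12 4 (.thr 28 44 (.dbl 22 3 19))))))) (.rp 22 (.thr 17 29 (.thr 42 63 (.thr 8 59 (.thr 12 4 (.dbl 51 34 38))))) (.rp 17 (.thr 42 63 (.thr 40 43 (.thr 60 20 (.thr 8 59 (.thr 12 4 (.thr 28 44 (.dbl 22 3 19))))))) (.rp 12 (.thr 42 63 (.thr 40 43 (.thr 60 20 (.thr 8 59 (.thr 56 24 (.thr 48 52 (.thr 16 32 (.dbl 26 11 31)))))))) .nd))))))))) .nd))))))))))) .nd))))))))))))))))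

theorem w161 : WinAt (2199025352704, 1028) :=
  chF (K := []) kn c161 2199025352704 1028 10
    [17476] (by decide +kernel) (by decide +kernel)

/-- A certificate. -/
noncomputable def c162 : Ct := (.str 25 (.nv (.thr 9 57 (.thr 17 29 (.thr 13 5 (.dbl 49 33 37)))) (.rp 57 (.thr 17 29 (.thr 49 33 (.thr 13 37 (.str 12 (.nv (.thr 51 38 (.thr 0 34 (.thr 8 4 (.dbl 42 59 63)))) (.nv (.thr 9 5 (.thr 38 51 (.thr 44 35 (.thr 60 28 (.dbl 3 6 22))))) (.nv (.thr 5 9 (.thr 15 14 (.thr 51 38 (.dbl 0 10 34)))) (.rp 51 (.thr 9 5 (.thr 3 6 (.thr 60 22 (.thr 44 28 (.thr 38 35 (.thr 4 55 (.thr 0 8 (.thr 40 20 (.dbl 42 43 63))))))))) (.rp 38 (.thr 9 5 (.thr 3 6 (.thr 22 60 (.thr 19 28 (.thr 16 18 (.thr 31 26 (.dbl 23 20 27))))))) (.rp 34 (.thr 9 5 (.thr 3 6 (.thr 60 22 (.thr 44 28 (.dbl 38 35 51)))))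 .nd)))))))))) (.rp 53 (.thr 17 29 (.thr 9 57 (.thr 49 33 (.dbl 13 5 37)))) (.rp 49 (.thr 29 17 (.str 12 (.nv (.thr 63 46 (.thr 42 0 (.thr 43 40 (.thr 3 23 (.dbl 9 6 57))))) (.nv (.thr 57 9 (.thr 51 38 (.thr 60 54 (.thr 22 3 (.dbl 28 19 44))))) (.nv (.thr 63 46 (.thr 51 38 (.thr 42 0 (.dbl 59 8 55)))) (.rp 57 (.str 53 (.nv (.thr 5 37 (.thr 13 9 (.thr 15 14 (.thr 63 46 (.dbl 0 10 42))))) (.nv (.thr 5 37 (.thr 9 13 (.thr 3 6 (.thr 51 38 (.thr 19 35 (.dbl 22 28 60)))))) (.nv (.thr 51 38 (.thr 63 46 (.thr 42 0 (.dbl 59 8 55)))) .nd)))) (.rp 51 (.thr 63 46 (.thr 0 42 (.thr 4 8 (.thr 38 55 (.thr 44 35 (.thr 60 28 (.thr 20 40 (.dbl 22 3 23)))))))) .nd))))))) (.rp 37 (.str 19 (.nv (.thr 9 57 (.thr 22 28 (.thr 3 60 (.thr 12 6 (.dbl 51 35 38))))) (.nv (.thr 28 22 (.thr 29 17 (.thr 31 30 (.thr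 26 16 (.dbl 27 23 24))))) (.rp 62 (.thr 17 29 (.thr 33 49 (.thr 18 16 (.thr 3 48 (.dbl 22 28 60))))) (.rp 28 (.thr 17 29 (.thr 57 9 (.thr 33 49 (.thr 18 16 (.thr 3 48 (.thr 51 35 (.dbl 60 22 54))))))) (.rp 22 (.thr 17 29 (.thr 33 49 (.thr 18 16 (.thr 3 48 (.thr 51 35 (.thr 12 38 (.dbl 9 6 57))))))) .nd)))))) (.rp 33 (.str 51 (.nv (.thr 17 29 (.thr 0 34 (.thr 57 9 (.thr 60 54 (.thr 20 40 (.dbl 22 3 23)))))) (.nv (.thr 9 57 (.thr 12 38 (.thr 3 6 (.thr 19 35 (.dbl 22 28 60))))) (.nv (.thr 12 38 (.thr 29 17 (.thr 63 46 (.thr 42 0 (.dbl 59 8 55))))) .nd)))) (.rp 29 (.thr 9 57 (.thr 13 5 (.thr 49 37 (.str 51 (.nv (.thr 12 38 (.thr 3 6 (.thr 19 35 (.dbl 22 28 60)))) (.nv (.thr 17 33 (.thr 38 12 (.thr 55 4 (.thr 63 59 (.dbl 0 34 42))))) (.nv (.thr 33 17 (.thr 48 50 (.thr 12 38 (.dbl 3 6 18))))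 (.rp 38 (.thr 17 33 (.thr 0 34 (.thr 42 63 (.thr 8 59 (.thr 12 4 (.thr 43 40 (.thr 15 14 (.thr 39 27 (.thr 35 47 (.dbl 3 6 19)))))))))) (.rp 12 (.thr 17 33 (.thr 50 48 (.thr 0 34 (.thr 63 42 (.thr 55 59 (.thr 38 4 (.thr 35 44 (.thr 26 14 (.thr 16 31 (.dbl 19 3 18)))))))))) (.rp 6 (.thr 17 33 (.thr 0 34 (.thr 63 42 (.thr 55 59 (.dbl 38 4 12))))) .nd)))))))))) (.rp 17 (.str 51 (.nv (.thr 38 12 (.thr 35 44 (.thr 3 19 (.thr 55 4 (.thr 63 59 (.thr 43 23 (.dbl 42 0 40))))))) (.nv (.thr 9 57 (.thr 12 38 (.thr 13 5 (.thr 15 14 (.thr 27 39 (.thr 26 24 (.dbl 37 48 49))))))) (.nv (.thr 57 9 (.thr 60 54 (.thr 12 38 (.thr 28 44 (.dbl 22 3 19))))) (.rp 38 (.thr 57 9 (.thr 60 54 (.thr 22 3 (.thr 19 28 (.thr 23 20 (.thr 27 31 (.thr 15 39 (.thr 30 45 (.dbl 26 18 24))))))))) (.rp 12 (.thr 57 9 (.thr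 60 54 (.thr 3 22 (.thr 35 19 (.thr 38 44 (.thr 55 4 (.thr 63 59 (.thr 43 23 (.dbl 42 0 40))))))))) .nd)))))) (.rp 13 (.thr 29 17 (.str 12 (.nv (.thr 9 57 (.thr 3 6 (.thr 63 46 (.thr 23 43 (.dbl 22 20 60))))) (.nv (.thr 9 57 (.thr 3 6 (.thr 51 38 (.thr 19 35 (.dbl 22 28 60))))) (.nv (.thr 51 38 (.thr 63 46 (.thr 42 0 (.dbl 59 8 55)))) .nd))))) (.rp 9 (.thr 17 29 (.thr 49 33 (.thr 13 37 (.str 51 (.nv (.thr 0 34 (.thr 12 38 (.thr 42 63 (.dbl 8 4 59)))) (.nv (.thr 38 12 (.thr 35 44 (.thr 50 48 (.thr 26 14 (.thr 16 31 (.dbl 19 3 18)))))) (.nv (.thr 38 12 (.thr 55 4 (.thr 63 59 (.dbl 0 34 42)))) (.rp 63 (.thr 50 48 (.thr 34 0 (.thr 38 12 (.thr 46 42 (.thr 35 44 (.thr 26 14 (.thr 16 31 (.dbl 19 3 18)))))))) (.rp 38 (.thr 0 34 (.thr 42 63 (.thr 8 59 (.thr 12 4 (.thr 15 14 (.thr 10 5 (.thr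 26 58 (.dbl 27 24 39)))))))) (.rp 12 (.thr 50 48 (.thr 0 34 (.thr 63 42 (.thr 55 59 (.thr 38 4 (.thr 35 44 (.thr 26 14 (.thr 16 31 (.dbl 19 3 18))))))))) (.rp 10 (.str 8 (.nv (.thr 38 12 (.thr 55 4 (.dbl 59 42 63))) (.nv (.thr 0 34 (.dbl 12 4 38)) (.nv (.thr 42 59 (.dbl 0 34 63)) (.rp 14 (.str 6 (.nv (.thr 38 12 (.thr 22 54 (.thr 3 60 (.dbl 19 28 35)))) (.nv (.thr 42 59 (.dbl 0 34 63)) (.rp 63 (.thr 0 34 (.dbl 12 4 38)) .nd)))) (.rp 6 (.str 14 (.nv (.thr 0 34 (.dbl 42 59 63)) (.nv (.dbl 12 15 38) (.rp 12 (.str 3 (.nv (.thr 22 60 (.dbl 19 28 35)) (.nv (.thr 42 59 (.dbl 0 34 63)) (.rp 63 (.str 46 (.nv (.thr 34 0 (.dbl 42 38 59)) (.nv (.thr 19 35 (.dbl 22 28 60)) (.rp 62 (.thr 60 22 (.thr 42 59 (.dbl 34 0 38))) (.rp 60 (.thr 62 30 (.thr 42 59 (.dbl 34 0 38))) (.rp 34 (.thr 62 30 (.thr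 22 60 (.dbl 19 28 35))) .nd)))))) (.rp 46 (.str 63 (.nv (.thr 19 35 (.dbl 22 28 60)) (.nv (.dbl 59 42 55) .nd))) .nd))))) .nd)))) .nd)))))) (.rp 8 (.str 10 (.nv (.thr 12 38 (.thr 15 14 (.dbl 0 5 34))) (.nv (.thr 38 12 (.thr 0 34 (.thr 35 44 (.thr 55 4 (.dbl 63 42 59))))) (.nv (.thr 0 34 (.thr 15 5 (.dbl 12 14 38))) (.rp 50 (.str 19 (.nv (.thr 22 28 (.thr 23 20 (.thr 31 27 (.dbl 16 18 26)))) (.nv (.thr 18 16 (.thr 35 3 (.dbl 38 12 44))) (.nv (.thr 3 35 (.dbl 22 28 60)) (.rp 18 (.thr 34 0 (.thr 3 35 (.dbl 22 28 60))) .nd))))) (.rp 38 (.thr 0 34 (.thr 15 5 (.thr 42 63 (.thr 26 58 (.dbl 27 24 39))))) (.rp 34 (.thr 38 12 (.thr 35 44 (.thr 50 48 (.thr 26 14 (.thr 16 31 (.dbl 19 3 18)))))) (.rp 12 (.thr 0 34 (.thr 15 5 (.thr 27 39 (.thr 26 24 (.dbl 42 58 63))))) (.rp 0 (.thr 38 12 (.thr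 4 55 (.thr 35 44 (.thr 50 48 (.thr 26 14 (.thr 16 31 (.dbl 19 3 18))))))) .nd))))))))) .nd)))))))))))) (.rp 5 (.str 19 (.nv (.thr 9 57 (.thr 22 28 (.thr 3 60 (.thr 12 6 (.dbl 51 35 38))))) (.nv (.thr 28 22 (.thr 29 17 (.thr 31 30 (.thr 26 16 (.dbl 27 23 24))))) (.rp 62 (.thr 17 29 (.thr 33 49 (.thr 18 16 (.thr 3 48 (.dbl 22 28 60))))) (.rp 28 (.thr 17 29 (.thr 57 9 (.thr 33 49 (.thr 18 16 (.thr 3 48 (.thr 51 35 (.dbl 60 22 54))))))) (.rp 22 (.thr 17 29 (.thr 33 49 (.thr 18 16 (.thr 3 48 (.thr 51 35 (.thr 12 38 (.dbl 9 6 57))))))) .nd)))))) .nd))))))))))))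

theorem w162 : WinAt (2199025352706, 2305843009213696004) :=
  chF (K := []) kn c162 2199025352706 2305843009213696004 61
    [] (by decide +kernel) (by decide +kernel)

/-- A certificate. -/
noncomputable def c163 : Ct := (.str 25 (.nv (.thr 9 57 (.thr 13 5 (.thr 49 37 (.dbl 17 29 33)))) (.rp 57 (.str 49 (.nv (.dbl 17 29 33) (.rp 33 (.str 11 (.nv (.thr 13 37 (.thr 9 5 (.thr 8 10 (.thr 42 59 (.thr 56 26 (.dbl 40 24 43)))))) (.nv (.thr 17 29 (.thr 26 56 (.thr 16 31 (.thr 24 27 (.thr 28 20 (.dbl 19 18 22)))))) (.nv (.thr 13 37 (.thr 9 5 (.thr 26 56 (.thr 27 24 (.thr 59 43 (.dbl 8 10 42)))))) (.rp 59 (.thr 13 37 (.thr 9 5 (.thr 17 29 (.thr 10 8 (.thr 26 56 (.thr 58 42 (.thr 24 27 (.thr 16 31 (.thr 28 20 (.dbl 19 18 22)))))))))) (.rp 56 (.thr 13 37 (.thr 9 5 (.thr 29 17 (.thr 8 10 (.thr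 59 42 (.thr 27 43 (.thr 26 24 (.thr 31 16 (.thr 19 23 (.dbl 28 22 30)))))))))) (.rp 26 (.thr 13 37 (.thr 9 5 (.thr 8 10 (.thr 42 59 (.thr 40 43 (.thr 56 24 (.thr 0 63 (.thr 60 20 (.thr 48 52 (.thr 51 50 (.dbl 17 29 34))))))))))) (.rp 24 (.thr 13 37 (.thr 9 5 (.thr 29 17 (.thr 8 10 (.thr 59 42 (.thr 27 43 (.thr 26 56 (.thr 31 16 (.thr 19 23 (.dbl 28 22 30)))))))))) (.rp 13 (.thr 29 17 (.thr 26 56 (.thr 27 24 (.thr 31 16 (.thr 19 23 (.dbl 28 22 30)))))) .nd))))))))) (.rp 29 (.thr 33 17 (.dbl 37 13 45)) (.rp 17 (.str 0 (.nv (.thr 37 13 (.thr 42 63 (.thr 32 47 (.thr 40 43 (.thr 44 36 (.thr 35 38 (.dbl 33 34 45))))))) (.nv (.thr 37 13 (.thr 5 53 (.thr 15 10 (.thr 26 48 (.thr 31 16 (.dbl 63 42 47)))))) (.nv (.thr 13 37 (.thr 9 5 (.thr 42 63 (.thr 8 59 (.thr 40 43 (.thr 56 24 (.dbl 11 10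 26))))))) (.nv (.thr 37 13 (.thr 5 53 (.thr 45 33 (.thr 15 10 (.thr 60 30 (.thr 20 40 (.dbl 22 3 23))))))) (.rp 37 (.thr 42 63 (.thr 8 59 (.thr 40 43 (.thr 60 20 (.thr 56 24 (.thr 48 52 (.thr 16 32 (.dbl 26 11 31)))))))) (.rp 29 (.thr 37 13 (.thr 45 33 (.thr 5 53 (.thr 15 10 (.thr 60 30 (.thr 20 40 (.dbl 22 3 23))))))) (.rp 13 (.thr 42 63 (.thr 8 59 (.thr 40 43 (.thr 60 20 (.thr 56 24 (.thr 48 52 (.thr 16 32 (.dbl 26 11 31)))))))) .nd)))))))) .nd))))) (.rp 53 (.thr 17 29 (.thr 9 57 (.thr 49 33 (.dbl 13 5 37)))) (.rp 49 (.str 28 (.nv (.thr 57 9 (.thr 17 29 (.thr 19 22 (.thr 16 18 (.thr 24 20 (.dbl 26 27 31)))))) (.nv (.thr 17 29 (.thr 22 19 (.thr 20 23 (.thr 60 3 (.thr 0 40 (.thr 51 34 (.dbl 57 9 54))))))) (.nv (.thr 29 17 (.thr 31 30 (.thr 16 26 (.thr 22 19 (.dbl 20 23 24))))) (.rp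 57 (.str 53 (.nv (.thr 22 19 (.thr 29 17 (.thr 37 5 (.thr 45 33 (.thr 60 3 (.dbl 30 15 31)))))) (.nv (.thr 22 19 (.thr 37 5 (.thr 52 7 (.thr 55 54 (.thr 4 38 (.dbl 20 23 36)))))) (.nv (.thr 29 17 (.thr 31 30 (.thr 16 26 (.thr 22 19 (.dbl 20 23 24))))) (.rp 22 (.thr 29 17 (.thr 5 37 (.thr 9 13 (.thr 31 30 (.thr 26 16 (.thr 27 24 (.thr 11 56 (.thr 59 43 (.dbl 8 10 42))))))))) (.rp 19 (.thr 29 17 (.thr 37 5 (.thr 31 30 (.thr 16 26 (.thr 20 24 (.thr 22 23 (.thr 52 7 (.thr 55 54 (.dbl 4 36 38))))))))) .nd)))))) (.rp 31 (.thr 17 29 (.thr 57 9 (.thr 19 22 (.thr 16 18 (.thr 24 20 (.thr 26 27 (.thr 56 11 (.thr 8 40 (.dbl 59 42 58))))))))) (.rp 29 (.thr 22 19 (.thr 20 23 (.thr 24 16 (.thr 60 3 (.thr 40 0 (.thr 8 56 (.dbl 42 43 59))))))) (.rp 22 (.thr 29 17 (.thr 57 9 (.thr 31 30 (.thr 26 16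 (.thr 24 27 (.thr 56 11 (.thr 8 40 (.dbl 59 42 58)))))))) (.rp 20 (.thr 29 17 (.thr 31 30 (.thr 26 16 (.thr 27 24 (.dbl 19 22 23))))) (.rp 19 (.thr 29 17 (.thr 31 30 (.thr 16 26 (.thr 20 24 (.thr 22 23 (.thr 60 3 (.thr 0 40 (.thr 48 32 (.thr 56 52 (.thr 63 42 (.thr 58 53 (.dbl 57 9 59)))))))))))) (.rp 17 (.thr 22 19 (.thr 20 23 (.thr 16 24 (.thr 60 3 (.thr 0 40 (.thr 48 32 (.thr 56 52 (.dbl 26 11 31)))))))) .nd))))))))))) (.rp 37 (.str 28 (.nv (.thr 19 22 (.thr 29 17 (.thr 31 30 (.thr 26 16 (.dbl 27 23 24))))) (.nv (.thr 17 29 (.thr 19 22 (.thr 16 18 (.thr 26 31 (.dbl 24 20 27))))) (.nv (.thr 22 19 (.thr 29 17 (.thr 20 23 (.thr 31 30 (.dbl 16 24 26))))) (.rp 31 (.thr 17 29 (.thr 57 9 (.thr 19 22 (.thr 16 18 (.thr 24 20 (.thr 26 27 (.thr 56 11 (.thr 8 40 (.dbl 59 42 58))))))))) (.rp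 29 (.thr 22 19 (.thr 20 23 (.thr 24 16 (.thr 60 3 (.thr 40 0 (.thr 8 56 (.dbl 42 43 59))))))) (.rp 26 (.thr 17 29 (.thr 22 19 (.thr 20 23 (.thr 60 3 (.thr 0 40 (.thr 51 34 (.dbl 57 9 54))))))) (.rp 24 (.thr 17 29 (.thr 22 19 (.thr 20 23 (.thr 60 3 (.thr 0 40 (.thr 51 34 (.dbl 57 9 54))))))) (.rp 22 (.thr 29 17 (.thr 9 57 (.thr 31 30 (.thr 26 16 (.thr 27 24 (.thr 11 56 (.thr 59 43 (.dbl 8 10 42)))))))) (.rp 19 (.thr 29 17 (.thr 9 57 (.thr 5 13 (.thr 31 30 (.thr 16 26 (.thr 20 24 (.thr 22 23 (.thr 60 3 (.thr 0 40 (.thr 15 10 (.dbl 63 42 47))))))))))) (.rp 17 (.thr 22 19 (.thr 20 23 (.thr 16 24 (.thr 60 3 (.thr 0 40 (.thr 48 32 (.thr 56 52 (.dbl 26 11 31)))))))) (.rp 16 (.thr 17 29 (.thr 22 19 (.thr 20 23 (.thr 60 3 (.thr 0 40 (.thr 51 34 (.dbl 57 9 54))))))) .nd)))))))))))) (.rp 33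 (.str 28 (.nv (.thr 17 29 (.thr 19 22 (.thr 16 18 (.thr 26 31 (.dbl 24 20 27))))) (.nv (.thr 29 17 (.thr 31 30 (.thr 16 26 (.thr 22 19 (.dbl 20 23 24))))) (.rp 31 (.thr 17 29 (.thr 57 9 (.thr 19 22 (.thr 16 18 (.thr 24 20 (.thr 26 27 (.thr 56 11 (.thr 8 40 (.dbl 59 42 58))))))))) (.rp 29 (.thr 22 19 (.thr 20 23 (.thr 24 16 (.thr 60 3 (.thr 40 0 (.thr 8 56 (.dbl 42 43 59))))))) (.rp 26 (.thr 17 29 (.thr 22 19 (.thr 20 23 (.thr 60 3 (.thr 0 40 (.thr 51 34 (.dbl 57 9 54))))))) (.rp 24 (.thr 17 29 (.thr 22 19 (.thr 20 23 (.thr 60 3 (.thr 0 40 (.thr 51 34 (.dbl 57 9 54))))))) (.rp 22 (.thr 29 17 (.thr 9 57 (.thr 31 30 (.thr 26 16 (.thr 27 24 (.thr 11 56 (.thr 59 43 (.dbl 8 10 42)))))))) (.rp 20 (.thr 29 17 (.thr 31 30 (.thr 26 16 (.thr 27 24 (.dbl 19 22 23))))) (.rp 19 (.thr 29 17 (.thr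 9 57 (.thr 5 13 (.thr 31 30 (.thr 16 26 (.thr 20 24 (.thr 22 23 (.thr 60 3 (.thr 0 40 (.thr 15 10 (.dbl 63 42 47))))))))))) (.rp 17 (.thr 22 19 (.thr 20 23 (.thr 16 24 (.thr 60 3 (.thr 0 40 (.thr 48 32 (.thr 56 52 (.dbl 26 11 31)))))))) (.rp 16 (.thr 17 29 (.thr 22 19 (.thr 20 23 (.thr 60 3 (.thr 0 40 (.thr 51 34 (.dbl 57 9 54))))))) .nd)))))))))))) (.rp 29 (.str 13 (.nv (.dbl 9 5 57) (.rp 63 (.str 46 (.nv (.dbl 9 5 57) (.rp 62 (.str 60 (.nv (.dbl 9 5 57) (.rp 57 (.thr 5 9 (.dbl 37 49 53)) (.rp 42 (.thr 22 3 (.dbl 9 5 57)) (.rp 22 (.str 42 (.nv (.thr 37 49 (.thr 45 33 (.dbl 47 32 44))) (.nv (.dbl 9 5 57) (.rp 57 (.thr 5 9 (.dbl 37 49 53)) .nd)))) (.rp 9 (.thr 37 49 (.thr 45 33 (.thr 15 30 (.thr 48 26 (.thr 52 56 (.dbl 22 3 7)))))) (.rp 5 (.thr 37 49 (.thr 45 33 (.thr 15 30 (.thr 48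 26 (.thr 52 56 (.dbl 22 3 7)))))) .nd))))))) (.rp 60 (.str 62 (.nv (.dbl 9 5 57) (.rp 57 (.thr 5 9 (.dbl 37 49 53)) (.rp 44 (.str 28 (.nv (.dbl 9 5 57) (.rp 57 (.thr 5 9 (.dbl 37 49 53)) (.rp 9 (.thr 30 14 (.thr 22 19 (.thr 26 18 (.thr 16 31 (.dbl 24 20 27))))) (.rp 5 (.thr 30 14 (.thr 22 19 (.thr 26 18 (.thr 16 31 (.dbl 24 20 27))))) .nd))))) (.rp 28 (.str 44 (.nv (.thr 45 47 (.dbl 37 33 49)) (.nv (.dbl 9 5 57) (.rp 31 (.thr 30 14 (.dbl 9 5 57)) (.rp 30 (.str 31 (.nv (.thr 45 47 (.dbl 37 33 49)) (.nv (.dbl 9 5 57) (.rp 45 (.str 15 (.nv (.thr 26 16 (.dbl 37 48 49)) (.nv (.dbl 9 5 57) .nd))) .nd)))) .nd))))) (.rp 9 (.thr 37 49 (.thr 53 5 (.thr 45 33 (.thr 14 30 (.thr 44 47 (.thr 38 35 (.thr 50 26 (.thr 54 58 (.dbl 55 4 52))))))))) (.rp 5 (.thr 57 9 (.thr 37 49 (.thr 45 33 (.thr 14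 30 (.thr 44 47 (.thr 38 35 (.thr 26 50 (.thr 56 11 (.thr 58 59 (.dbl 42 10 34)))))))))) .nd))))))) (.rp 57 (.thr 5 9 (.dbl 37 49 53)) (.rp 9 (.thr 37 49 (.thr 53 5 (.thr 45 33 (.thr 44 47 (.thr 38 35 (.thr 55 4 (.thr 39 36 (.thr 7 23 (.dbl 52 22 54))))))))) (.rp 5 (.thr 57 9 (.thr 37 49 (.thr 45 33 (.thr 47 44 (.thr 42 32 (.thr 59 8 (.thr 56 58 (.thr 11 26 (.dbl 43 27 40))))))))) .nd))))))) (.rp 57 (.thr 5 9 (.dbl 37 49 53)) (.rp 46 (.str 63 (.nv (.dbl 9 5 57) (.rp 57 (.thr 5 9 (.dbl 37 49 53)) (.rp 9 (.thr 37 49 (.thr 53 5 (.thr 48 58 (.thr 15 26 (.thr 47 31 (.dbl 42 0 32)))))) (.rp 5 (.thr 9 57 (.thr 42 0 (.thr 8 59 (.thr 40 43 (.thr 56 24 (.dbl 11 10 26)))))) .nd))))) (.rp 9 (.str 63 (.nv (.thr 37 49 (.thr 33 45 (.thr 53 5 (.thr 48 58 (.thr 3 18 (.thr 22 60 (.dbl 23 20 43)))))))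 (.nv (.thr 37 49 (.thr 33 45 (.thr 42 0 (.thr 32 47 (.thr 35 34 (.thr 40 43 (.dbl 44 36 38))))))) (.nv (.thr 0 42 (.thr 37 49 (.thr 53 5 (.thr 48 58 (.thr 26 15 (.dbl 16 31 32)))))) (.rp 53 (.thr 49 37 (.thr 17 33 (.thr 0 42 (.thr 51 34 (.thr 55 59 (.thr 38 4 (.thr 35 44 (.thr 3 19 (.thr 23 43 (.dbl 22 20 60)))))))))) (.rp 49 (.thr 42 0 (.thr 43 40 (.thr 3 23 (.thr 8 59 (.thr 60 22 (.str 53 (.nv (.thr 37 5 (.thr 45 33 (.thr 15 30 (.dbl 47 31 32)))) (.nv (.thr 48 58 (.thr 56 52 (.thr 26 11 (.thr 31 16 (.dbl 15 37 47))))) (.nv (.thr 37 5 (.thr 33 45 (.dbl 48 18 58))) (.rp 37 (.str 52 (.nv (.dbl 48 56 58) (.rp 58 (.thr 56 48 (.thr 55 54 (.thr 38 4 (.thr 35 44 (.thr 47 39 (.thr 15 31 (.dbl 11 7 26))))))) (.rp 56 (.thr 58 48 (.thr 55 54 (.thr 38 4 (.thr 35 44 (.thr 47 39 (.thr 31 15 (.dbl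 26 10 16))))))) (.rp 48 (.thr 55 54 (.thr 38 4 (.thr 35 44 (.thr 47 39 (.thr 15 31 (.thr 11 7 (.thr 46 34 (.thr 26 56 (.thr 30 45 (.dbl 14 50 62)))))))))) .nd))))) (.rp 15 (.thr 48 58 (.thr 33 18 (.dbl 37 5 45))) .nd))))))))))) (.rp 37 (.str 3 (.nv (.thr 22 60 (.dbl 23 20 43)) (.nv (.thr 43 23 (.dbl 42 0 40)) (.rp 43 (.thr 42 0 (.thr 8 59 (.thr 22 60 (.thr 28 19 (.thr 20 23 (.thr 24 16 (.thr 56 40 (.dbl 26 11 27)))))))) (.rp 23 (.thr 42 0 (.thr 8 59 (.thr 40 43 (.thr 24 56 (.thr 22 60 (.thr 28 19 (.thr 16 20 (.dbl 26 27 31)))))))) .nd))))) (.rp 6 (.str 3 (.nv (.thr 37 49 (.thr 33 45 (.thr 48 18 (.dbl 53 5 58)))) (.nv (.thr 43 23 (.dbl 42 0 40)) (.rp 14 (.str 10 (.nv (.thr 37 49 (.thr 33 45 (.thr 48 18 (.dbl 53 5 58)))) (.nv (.thr 43 23 (.dbl 42 0 40)) .nd))) (.rp 10 (.str 14 (.nv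 (.thr 37 49 (.thr 33 45 (.thr 48 18 (.dbl 53 5 58)))) (.nv (.thr 43 23 (.dbl 42 0 40)) (.rp 11 (.str 8 (.nv (.thr 22 60 (.dbl 23 20 43)) (.nv (.dbl 42 0 59) .nd))) (.rp 8 (.str 11 (.nv (.thr 7 15 (.thr 22 60 (.dbl 37 49 52))) (.nv (.thr 43 23 (.dbl 42 0 40)) (.rp 4 (.thr 0 42 (.thr 23 43 (.dbl 22 20 60))) (.rp 0 (.str 4 (.nv (.thr 15 7 (.thr 26 56 (.dbl 31 16 47))) (.nv (.thr 23 43 (.dbl 22 20 60)) (.rp 15 (.str 5 (.nv (.thr 22 60 (.dbl 23 20 43)) (.nv (.dbl 37 49 53) .nd))) .nd)))) .nd))))) .nd))))) .nd))))) (.rp 3 (.str 6 (.nv (.thr 37 49 (.thr 53 5 (.thr 0 42 (.thr 48 58 (.thr 16 32 (.dbl 26 15 31)))))) (.nv (.thr 37 49 (.thr 33 45 (.thr 42 0 (.thr 8 59 (.thr 32 47 (.thr 35 34 (.thr 40 43 (.dbl 44 36 38)))))))) (.nv (.thr 37 49 (.thr 53 5 (.thr 48 58 (.thr 15 26 (.thr 42 0 (.dbl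 47 31 32)))))) (.rp 53 (.thr 49 37 (.thr 17 33 (.thr 0 42 (.thr 51 34 (.thr 55 59 (.thr 38 4 (.thr 22 54 (.thr 19 28 (.thr 23 20 (.thr 31 27 (.dbl 16 18 26))))))))))) (.rp 49 (.str 53 (.nv (.thr 5 37 (.thr 42 0 (.thr 59 8 (.thr 4 7 (.dbl 55 38 51))))) (.nv (.thr 42 0 (.thr 8 59 (.thr 40 43 (.thr 24 56 (.thr 58 48 (.dbl 26 10 27)))))) (.nv (.thr 37 5 (.thr 48 58 (.thr 15 26 (.thr 42 0 (.dbl 47 31 32))))) (.rp 42 (.thr 37 5 (.thr 48 58 (.thr 26 15 (.thr 27 24 (.thr 11 56 (.thr 59 43 (.thr 55 51 (.thr 38 4 (.dbl 54 22 52))))))))) (.rp 8 (.thr 37 5 (.thr 0 42 (.thr 48 58 (.thr 26 15 (.dbl 16 31 32))))) (.rp 0 (.thr 37 5 (.thr 45 33 (.thr 48 58 (.thr 15 26 (.thr 60 30 (.thr 52 56 (.thr 22 7 (.dbl 54 38 55)))))))) .nd))))))) (.rp 42 (.thr 37 49 (.thr 53 5 (.thr 48 58 (.thr 26 15 (.thr 27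 24 (.thr 11 56 (.thr 59 43 (.thr 55 51 (.thr 38 4 (.dbl 54 22 52)))))))))) (.rp 37 (.str 27 (.nv (.thr 42 0 (.thr 43 40 (.dbl 59 8 11))) (.nv (.thr 42 0 (.thr 8 59 (.thr 40 43 (.dbl 24 26 56)))) (.rp 59 (.thr 42 0 (.thr 43 40 (.thr 26 24 (.thr 31 16 (.thr 23 19 (.thr 47 15 (.thr 35 39 (.thr 38 44 (.dbl 22 20 54))))))))) (.rp 43 (.thr 42 0 (.thr 8 59 (.thr 26 24 (.thr 58 10 (.thr 31 16 (.thr 23 19 (.thr 15 47 (.thr 56 11 (.thr 48 53 (.thr 60 52 (.thr 30 45 (.dbl 22 18 20)))))))))))) (.rp 42 (.thr 26 24 (.thr 31 16 (.thr 11 56 (.thr 59 43 (.thr 51 55 (.dbl 15 39 47)))))) (.rp 40 (.thr 42 0 (.thr 26 24 (.thr 31 16 (.thr 15 47 (.thr 51 39 (.dbl 59 8 55)))))) (.rp 8 (.thr 26 24 (.thr 31 16 (.thr 15 47 (.thr 51 39 (.thr 59 55 (.dbl 11 43 56)))))) (.rp 0 (.thr 26 24 (.thr 31 16 (.thr 15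 47 (.thr 51 39 (.thr 59 55 (.dbl 11 43 56)))))) .nd))))))))) (.rp 32 (.thr 37 49 (.thr 53 5 (.thr 42 0 (.thr 8 59 (.thr 40 43 (.thr 56 24 (.thr 48 58 (.dbl 26 11 15)))))))) (.rp 0 (.thr 37 49 (.thr 45 33 (.thr 53 5 (.thr 48 58 (.thr 15 26 (.thr 60 30 (.thr 52 56 (.thr 22 7 (.dbl 54 38 55))))))))) .nd)))))))))) .nd))))))))) (.rp 5 (.str 60 (.nv (.thr 37 49 (.thr 33 45 (.thr 3 22 (.thr 48 18 (.thr 26 15 (.dbl 56 11 52)))))) (.nv (.thr 22 3 (.thr 20 23 (.thr 28 19 (.thr 24 16 (.thr 40 0 (.thr 8 56 (.dbl 42 43 59))))))) (.nv (.thr 57 9 (.thr 49 37 (.thr 33 17 (.thr 51 54 (.thr 48 50 (.dbl 3 18 22)))))) (.rp 63 (.str 46 (.nv (.thr 3 22 (.thr 37 49 (.thr 45 33 (.thr 44 47 (.thr 35 38 (.thr 51 19 (.dbl 57 9 54))))))) (.nv (.thr 37 49 (.thr 45 33 (.thr 15 30 (.thr 48 26 (.thr 52 56 (.dbl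 22 3 7)))))) (.nv (.thr 57 9 (.thr 49 37 (.thr 33 17 (.thr 51 54 (.thr 48 50 (.dbl 3 18 22)))))) (.rp 57 (.thr 49 37 (.thr 17 33 (.thr 22 3 (.thr 23 20 (.thr 19 28 (.thr 31 27 (.dbl 16 18 26))))))) (.rp 49 (.thr 57 9 (.thr 51 54 (.thr 3 22 (.thr 35 19 (.thr 38 44 (.thr 42 34 (.thr 59 8 (.thr 56 58 (.thr 43 40 (.dbl 11 26 27)))))))))) (.rp 37 (.thr 57 9 (.thr 51 54 (.thr 3 22 (.thr 35 19 (.thr 38 44 (.thr 42 34 (.thr 59 8 (.thr 56 58 (.thr 43 40 (.dbl 11 26 27)))))))))) (.rp 33 (.thr 37 49 (.thr 22 3 (.thr 23 20 (.thr 52 7 (.thr 48 56 (.thr 19 28 (.thr 31 27 (.dbl 26 15 16)))))))) (.rp 22 (.thr 57 9 (.thr 37 49 (.thr 45 33 (.thr 15 30 (.thr 26 48 (.thr 51 54 (.dbl 27 24 39))))))) (.rp 3 (.thr 37 49 (.thr 45 33 (.thr 44 47 (.thr 15 30 (.thr 38 35 (.thr 39 36 (.thr 51 27 (.dbl 57 9 54))))))))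 .nd)))))))))) (.rp 48 (.thr 57 9 (.thr 49 37 (.thr 17 33 (.thr 51 54 (.thr 0 34 (.thr 40 20 (.dbl 42 43 63))))))) (.rp 46 (.str 63 (.nv (.thr 42 0 (.thr 57 9 (.thr 51 54 (.dbl 59 8 55)))) (.nv (.thr 3 22 (.thr 43 23 (.dbl 42 0 40))) (.rp 42 (.thr 37 49 (.thr 45 33 (.thr 15 30 (.thr 31 47 (.dbl 26 16 48))))) (.rp 3 (.thr 37 49 (.thr 45 33 (.thr 42 0 (.thr 47 32 (.dbl 15 30 31))))) (.rp 0 (.thr 37 49 (.thr 45 33 (.thr 15 30 (.thr 31 47 (.dbl 26 16 48))))) .nd)))))) (.rp 22 (.thr 57 9 (.thr 49 37 (.thr 17 33 (.thr 51 54 (.thr 0 34 (.thr 40 20 (.dbl 42 43 63))))))) (.rp 18 (.thr 37 49 (.thr 45 33 (.thr 15 30 (.thr 48 26 (.thr 22 3 (.dbl 52 7 56)))))) (.rp 3 (.thr 37 49 (.thr 45 33 (.thr 15 30 (.thr 48 26 (.thr 52 56 (.thr 22 7 (.thr 28 19 (.thr 20 23 (.thr 0 40 (.dbl 16 24 32))))))))))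 .nd)))))))))) .nd))))))) (.rp 17 (.str 42 (.nv (.thr 0 63 (.thr 8 59 (.thr 9 57 (.thr 5 13 (.dbl 10 11 15))))) (.nv (.thr 8 59 (.thr 40 43 (.thr 56 24 (.thr 11 26 (.dbl 9 10 57))))) (.rp 59 (.thr 9 57 (.thr 40 43 (.thr 0 63 (.thr 5 13 (.thr 15 10 (.thr 60 20 (.thr 45 30 (.dbl 37 33 53)))))))) (.rp 57 (.thr 40 43 (.thr 8 59 (.thr 56 24 (.thr 0 63 (.thr 60 20 (.thr 48 52 (.thr 16 32 (.dbl 26 11 31)))))))) (.rp 56 (.thr 57 9 (.thr 43 40 (.thr 63 0 (.thr 3 23 (.thr 60 22 (.thr 51 54 (.dbl 59 8 55))))))) (.rp 11 (.thr 57 9 (.thr 43 40 (.thr 63 0 (.thr 3 23 (.thr 60 22 (.thr 51 54 (.dbl 59 8 55))))))) (.rp 10 (.thr 57 9 (.thr 43 40 (.thr 59 8 (.thr 11 27 (.dbl 56 26 58))))) (.rp 9 (.thr 40 43 (.thr 8 59 (.thr 56 24 (.thr 0 63 (.thr 60 20 (.thr 48 52 (.thr 16 32 (.dbl 26 11 31)))))))) (.rp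 8 (.thr 9 57 (.thr 40 43 (.thr 0 63 (.thr 5 13 (.thr 15 10 (.thr 60 20 (.thr 45 30 (.dbl 37 33 53)))))))) .nd)))))))))) (.rp 13 (.thr 29 17 (.str 31 (.nv (.thr 26 16 (.thr 24 27 (.thr 56 11 (.thr 8 40 (.thr 57 9 (.dbl 59 42 58)))))) (.nv (.thr 16 26 (.thr 28 30 (.thr 22 19 (.dbl 20 23 24)))) (.rp 26 (.thr 9 57 (.thr 28 30 (.thr 22 19 (.thr 23 20 (.thr 3 60 (.thr 63 43 (.thr 15 47 (.thr 11 7 (.thr 8 10 (.dbl 42 0 59)))))))))) (.rp 24 (.thr 9 57 (.thr 28 30 (.thr 19 22 (.thr 27 23 (.thr 26 16 (.thr 11 56 (.thr 59 43 (.dbl 8 10 42)))))))) (.rp 19 (.thr 57 9 (.thr 30 28 (.thr 26 16 (.thr 18 22 (.thr 24 27 (.thr 56 11 (.thr 8 40 (.dbl 59 42 58)))))))) (.rp 16 (.thr 9 57 (.thr 28 30 (.thr 19 22 (.thr 27 23 (.thr 26 24 (.thr 11 56 (.thr 59 43 (.dbl 8 10 42)))))))) (.rp 15 (.str 14 (.nv (.thr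 26 16 (.thr 24 27 (.thr 56 11 (.thr 8 40 (.thr 57 9 (.dbl 59 42 58)))))) (.nv (.thr 28 30 (.thr 22 19 (.thr 20 23 (.dbl 16 24 26)))) (.rp 26 (.thr 28 30 (.thr 22 19 (.thr 20 23 (.thr 16 24 (.thr 60 3 (.thr 0 40 (.thr 63 42 (.thr 48 32 (.thr 58 53 (.thr 56 52 (.dbl 57 9 59))))))))))) (.rp 24 (.thr 57 9 (.thr 26 16 (.thr 50 38 (.thr 56 11 (.thr 58 59 (.thr 62 54 (.dbl 30 28 46))))))) (.rp 19 (.thr 57 9 (.thr 30 28 (.thr 62 46 (.thr 26 16 (.thr 18 22 (.thr 50 38 (.thr 56 11 (.dbl 58 54 59)))))))) (.rp 18 (.thr 28 30 (.thr 19 22 (.thr 26 16 (.dbl 27 23 24)))) (.rp 16 (.thr 9 57 (.thr 28 30 (.thr 19 22 (.thr 27 23 (.thr 26 24 (.thr 11 56 (.thr 59 43 (.dbl 8 10 42)))))))) .nd)))))))) (.rp 14 (.str 15 (.nv (.thr 26 16 (.thr 37 48 (.thr 5 53 (.thr 63 47 (.dbl 0 10 42))))) (.nv (.thr 30 28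 (.thr 60 45 (.thr 22 3 (.dbl 26 16 18)))) (.rp 26 (.thr 63 47 (.thr 28 30 (.thr 22 19 (.thr 23 20 (.dbl 3 43 60))))) (.rp 18 (.thr 28 30 (.thr 19 22 (.thr 26 16 (.dbl 27 23 24)))) (.rp 16 (.thr 63 47 (.thr 28 30 (.thr 19 22 (.thr 23 27 (.thr 43 3 (.dbl 42 0 40)))))) (.rp 10 (.str 6 (.nv (.thr 16 26 (.thr 28 30 (.thr 22 19 (.dbl 20 23 24)))) (.nv (.thr 26 16 (.thr 11 56 (.thr 7 3 (.thr 5 4 (.dbl 37 48 53))))) (.nv (.thr 30 28 (.thr 60 45 (.thr 22 3 (.dbl 26 16 18)))) (.rp 26 (.thr 63 47 (.thr 28 30 (.thr 22 19 (.thr 23 20 (.dbl 3 43 60))))) (.rp 16 (.thr 57 9 (.thr 30 28 (.thr 60 45 (.thr 22 3 (.dbl 54 38 51))))) .nd)))))) (.rp 6 (.str 10 (.nv (.thr 9 57 (.thr 26 16 (.dbl 11 8 56))) (.nv (.thr 63 47 (.dbl 0 5 42)) (.rp 9 (.str 3 (.nv (.thr 26 16 (.dbl 11 7 56)) (.nv (.thr 63 47 (.dbl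 0 5 42)) .nd))) .nd)))) .nd)))))))) .nd)))))))))) (.rp 9 (.str 22 (.nv (.thr 3 60 (.thr 17 29 (.thr 23 20 (.thr 63 43 (.thr 0 42 (.thr 51 34 (.dbl 19 28 35))))))) (.nv (.thr 3 60 (.thr 17 29 (.thr 33 49 (.thr 18 48 (.dbl 19 16 28))))) (.nv (.thr 20 23 (.thr 29 17 (.thr 28 19 (.thr 31 30 (.dbl 16 24 26))))) (.rp 29 (.thr 3 60 (.thr 28 19 (.thr 23 20 (.thr 63 43 (.thr 0 42 (.str 37 (.nv (.thr 45 33 (.thr 5 53 (.thr 15 10 (.dbl 7 11 52)))) (.nv (.thr 13 49 (.thr 53 5 (.thr 33 45 (.dbl 48 18 58)))) (.nv (.thr 7 52 (.thr 15 11 (.thr 31 47 (.dbl 26 16 48)))) (.nv (.thr 53 5 (.thr 48 58 (.dbl 33 18 45))) (.rp 45 (.thr 13 49 (.thr 7 52 (.thr 15 11 (.dbl 5 10 53)))) .nd))))))))))) (.rp 28 (.str 38 (.nv (.thr 3 60 (.thr 44 35 (.thr 17 29 (.thr 33 49 (.thr 18 48 (.thr 16 19 (.dbl 26 30 31)))))))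 (.nv (.thr 6 54 (.thr 4 55 (.thr 7 5 (.thr 20 23 (.dbl 52 36 37))))) (.rp 60 (.thr 44 35 (.thr 6 54 (.thr 20 23 (.thr 4 55 (.thr 52 36 (.dbl 7 5 37)))))) (.rp 53 (.thr 6 54 (.thr 20 23 (.thr 4 55 (.thr 52 36 (.dbl 7 5 37))))) (.rp 52 (.thr 6 54 (.thr 20 23 (.thr 60 3 (.thr 0 40 (.thr 17 29 (.thr 34 51 (.dbl 42 46 63))))))) (.rp 44 (.thr 60 3 (.thr 6 54 (.thr 20 23 (.thr 4 55 (.thr 52 36 (.dbl 7 5 37)))))) (.rp 36 (.thr 6 54 (.thr 4 55 (.thr 5 7 (.thr 17 29 (.thr 33 49 (.dbl 37 45 53)))))) .nd)))))))) (.rp 19 (.thr 17 29 (.thr 23 20 (.thr 3 60 (.thr 33 49 (.thr 48 18 (.thr 63 43 (.thr 53 58 (.dbl 37 5 45)))))))) (.rp 18 (.thr 29 17 (.thr 20 23 (.thr 28 19 (.thr 16 24 (.dbl 31 26 30))))) (.rp 17 (.str 6 (.nv (.thr 3 60 (.thr 23 20 (.thr 38 54 (.thr 55 4 (.thr 63 43 (.thr 51 59 (.dbl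 19 28 35))))))) (.nv (.thr 20 23 (.thr 38 54 (.thr 4 55 (.thr 7 5 (.dbl 52 36 37))))) (.rp 55 (.thr 20 23 (.thr 28 19 (.thr 16 24 (.thr 60 3 (.thr 0 40 (.thr 48 32 (.thr 56 52 (.dbl 26 11 31)))))))) (.rp 54 (.thr 20 23 (.thr 28 19 (.thr 16 24 (.thr 60 3 (.thr 0 40 (.thr 48 32 (.thr 56 52 (.dbl 26 11 31)))))))) (.rp 52 (.thr 20 23 (.thr 28 19 (.thr 16 24 (.thr 31 26 (.thr 30 29 (.thr 60 3 (.thr 0 40 (.thr 63 42 (.dbl 15 45 47))))))))) (.rp 38 (.thr 20 23 (.thr 28 19 (.thr 16 24 (.thr 60 3 (.thr 0 40 (.thr 48 32 (.thr 56 52 (.dbl 26 11 31)))))))) (.rp 36 (.thr 20 23 (.thr 28 19 (.thr 3 60 (.thr 38 54 (.thr 4 55 (.thr 7 5 (.thr 11 15 (.thr 26 56 (.dbl 24 16 27))))))))) (.rp 23 (.thr 28 19 (.thr 3 60 (.thr 38 54 (.thr 4 55 (.thr 7 5 (.thr 11 15 (.thr 26 56 (.thr 52 37 (.thr 20 36 (.dbl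 24 16 27)))))))))) (.rp 20 (.thr 3 60 (.thr 38 54 (.thr 4 55 (.thr 7 5 (.thr 11 15 (.thr 26 56 (.thr 27 24 (.thr 43 59 (.thr 63 23 (.dbl 42 0 40)))))))))) (.rp 4 (.thr 20 23 (.thr 28 19 (.thr 16 24 (.thr 60 3 (.thr 0 40 (.thr 48 32 (.thr 56 52 (.dbl 26 11 31)))))))) .nd))))))))))) (.rp 3 (.str 6 (.nv (.thr 17 29 (.thr 33 49 (.thr 38 54 (.thr 4 55 (.thr 7 5 (.dbl 37 45 52)))))) (.nv (.thr 28 19 (.thr 29 17 (.thr 31 30 (.thr 16 26 (.dbl 20 23 24))))) (.nv (.thr 38 54 (.thr 4 55 (.thr 7 5 (.thr 52 37 (.dbl 20 23 36))))) .nd)))) .nd)))))))))) (.rp 5 (.str 28 (.nv (.thr 17 29 (.thr 22 19 (.thr 20 23 (.thr 60 3 (.thr 0 40 (.thr 51 34 (.dbl 57 9 54))))))) (.nv (.thr 29 17 (.thr 31 30 (.thr 16 26 (.thr 22 19 (.dbl 20 23 24))))) (.rp 31 (.thr 17 29 (.thr 57 9 (.thr 19 22 (.thr 16 18 (.thr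 24 20 (.thr 26 27 (.thr 56 11 (.thr 8 40 (.dbl 59 42 58))))))))) (.rp 29 (.thr 22 19 (.thr 20 23 (.thr 24 16 (.thr 60 3 (.thr 40 0 (.thr 8 56 (.dbl 42 43 59))))))) (.rp 23 (.thr 17 29 (.thr 19 22 (.thr 16 18 (.thr 24 20 (.dbl 26 27 31))))) (.rp 22 (.thr 29 17 (.thr 9 57 (.thr 31 30 (.thr 26 16 (.thr 27 24 (.thr 11 56 (.thr 59 43 (.dbl 8 10 42)))))))) (.rp 20 (.thr 29 17 (.thr 31 30 (.thr 26 16 (.thr 27 24 (.dbl 19 22 23))))) (.rp 19 (.thr 29 17 (.thr 31 30 (.thr 16 26 (.thr 20 24 (.thr 22 23 (.thr 60 3 (.thr 0 40 (.thr 48 32 (.thr 56 52 (.thr 63 42 (.thr 58 53 (.dbl 57 9 59)))))))))))) (.rp 17 (.thr 22 19 (.thr 20 23 (.thr 16 24 (.thr 60 3 (.thr 0 40 (.thr 48 32 (.thr 56 52 (.dbl 26 11 31)))))))) .nd)))))))))) .nd))))))))))))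

theorem w163 : WinAt (2199025352706, 2305843009213698052) :=
  chF (K := []) kn c163 2199025352706 2305843009213698052 61
    [] (by decide +kernel) (by decide +kernel)

/-- A certificate. -/
noncomputable def c164 : Ct := (.str 60 (.nv (.thr 22 3 (.thr 20 23 (.thr 0 40 (.thr 63 42 (.dbl 61 1 62))))) (.rp 63 (.str 25 (.nv (.thr 9 57 (.thr 3 22 (.thr 12 6 (.thr 38 51 (.dbl 44 28 35))))) (.nv (.thr 22 3 (.thr 19 28 (.thr 23 20 (.thr 31 27 (.thr 16 26 (.dbl 17 18 29)))))) (.nv (.thr 57 9 (.thr 51 54 (.thr 12 38 (.thr 28 44 (.dbl 22 3 19))))) (.rp 28 (.thr 57 9 (.thr 51 54 (.thr 38 12 (.thr 35 44 (.dbl 3 19 22))))) (.rp 22 (.thr 57 9 (.thr 17 29 (.thr 51 54 (.thr 0 34 (.thr 40 20 (.thr 42 43 (.thr 8 59 (.dbl 12 4 38)))))))) (.rp 3 (.thr 57 9 (.thr 17 29 (.thr 51 54 (.thr 0 34 (.thr 40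 20 (.thr 12 38 (.thr 8 4 (.dbl 42 43 59)))))))) .nd))))))) (.rp 62 (.str 45 (.nv (.thr 22 3 (.thr 37 33 (.thr 52 7 (.thr 48 56 (.dbl 15 26 30))))) (.nv (.thr 15 30 (.thr 37 33 (.thr 5 53 (.thr 0 10 (.thr 40 20 (.dbl 42 43 63)))))) (.nv (.thr 37 33 (.thr 15 30 (.thr 48 26 (.thr 52 56 (.dbl 22 3 7))))) (.rp 37 (.thr 30 15 (.thr 22 3 (.thr 23 20 (.thr 26 18 (.thr 31 16 (.thr 19 27 (.dbl 28 25 29))))))) (.rp 33 (.thr 15 30 (.thr 22 3 (.thr 20 23 (.thr 0 40 (.thr 5 10 (.thr 37 53 (.thr 48 26 (.dbl 52 7 56)))))))) (.rp 30 (.thr 37 33 (.thr 53 5 (.thr 22 3 (.thr 52 7 (.thr 55 54 (.thr 4 38 (.dbl 20 23 36))))))) (.rp 22 (.str 42 (.nv (.thr 0 63 (.thr 15 30 (.thr 5 10 (.dbl 37 33 53)))) (.nv (.thr 0 63 (.dbl 40 20 43)) (.rp 63 (.thr 37 33 (.thr 5 53 (.thr 15 30 (.thr 0 10 (.dbl 40 20 43)))))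 (.rp 0 (.thr 37 33 (.thr 47 32 (.thr 44 46 (.thr 43 40 (.dbl 35 38 39))))) .nd))))) (.rp 15 (.thr 37 33 (.thr 5 53 (.thr 22 3 (.thr 7 52 (.thr 4 6 (.thr 55 38 (.dbl 23 20 39))))))) .nd))))))))) (.rp 61 (.str 45 (.nv (.thr 15 30 (.thr 37 33 (.thr 5 53 (.thr 0 10 (.thr 40 20 (.dbl 42 43 63)))))) (.nv (.thr 37 33 (.thr 15 30 (.thr 48 26 (.thr 52 56 (.dbl 22 3 7))))) (.rp 37 (.thr 30 15 (.thr 22 3 (.thr 23 20 (.thr 26 18 (.thr 31 16 (.thr 19 27 (.dbl 28 25 29))))))) (.rp 33 (.thr 15 30 (.thr 3 22 (.thr 11 7 (.thr 26 56 (.thr 31 16 (.thr 63 47 (.thr 43 23 (.dbl 42 0 40)))))))) (.rp 30 (.thr 37 33 (.thr 53 5 (.thr 22 3 (.thr 52 7 (.thr 55 54 (.thr 4 38 (.dbl 20 23 36))))))) (.rp 15 (.thr 37 33 (.thr 5 53 (.thr 22 3 (.thr 7 52 (.thr 4 6 (.thr 55 38 (.dbl 23 20 39))))))) .nd))))))) (.rp 43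 (.thr 61 1 (.thr 63 62 (.thr 0 42 (.thr 22 3 (.dbl 20 23 40))))) (.rp 42 (.str 45 (.nv (.thr 22 3 (.thr 15 30 (.thr 20 23 (.thr 0 40 (.thr 5 10 (.dbl 37 33 53)))))) (.nv (.thr 15 30 (.thr 37 33 (.thr 26 48 (.thr 11 56 (.dbl 3 7 22))))) (.rp 37 (.thr 30 15 (.thr 22 3 (.thr 23 20 (.thr 26 18 (.thr 31 16 (.thr 19 27 (.dbl 28 25 29))))))) (.rp 33 (.thr 15 30 (.thr 22 3 (.thr 20 23 (.thr 0 40 (.thr 5 10 (.thr 37 53 (.thr 52 7 (.dbl 48 26 56)))))))) (.rp 30 (.thr 37 33 (.thr 53 5 (.thr 22 3 (.thr 52 7 (.thr 48 56 (.thr 63 58 (.dbl 61 1 62))))))) (.rp 26 (.thr 37 33 (.thr 5 53 (.thr 15 30 (.thr 22 3 (.thr 20 23 (.dbl 0 10 40)))))) (.rp 22 (.str 62 (.nv (.dbl 61 1 63) (.rp 63 (.thr 33 37 (.thr 1 61 (.thr 17 49 (.thr 25 29 (.thr 57 9 (.thr 15 30 (.thr 51 54 (.thr 34 0 (.thr 39 27 (.thr 35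 32 (.thr 47 43 (.dbl 44 38 46)))))))))))) (.rp 61 (.thr 37 33 (.thr 15 30 (.thr 26 48 (.thr 31 16 (.thr 47 63 (.thr 44 46 (.thr 12 28 (.thr 38 35 (.thr 39 36 (.dbl 51 25 27)))))))))) (.rp 1 (.thr 37 33 (.thr 63 61 (.thr 15 30 (.thr 26 48 (.dbl 31 16 47))))) .nd))))) (.rp 15 (.thr 37 33 (.thr 5 53 (.thr 22 3 (.thr 7 52 (.thr 4 6 (.thr 55 38 (.dbl 23 20 39))))))) (.rp 3 (.thr 37 33 (.thr 53 5 (.thr 15 30 (.thr 48 26 (.thr 56 52 (.thr 58 63 (.thr 57 59 (.dbl 61 1 49)))))))) .nd)))))))))) (.rp 40 (.str 57 (.nv (.thr 3 22 (.thr 51 54 (.thr 35 19 (.thr 38 44 (.dbl 25 9 12))))) (.nv (.thr 25 9 (.thr 17 29 (.thr 51 54 (.thr 0 34 (.thr 63 42 (.dbl 61 1 62)))))) (.nv (.thr 22 3 (.thr 51 54 (.thr 25 9 (.thr 12 38 (.dbl 28 19 44))))) (.rp 54 (.thr 25 9 (.thr 29 17 (.thr 22 3 (.thr 28 19 (.thr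 12 44 (.thr 63 46 (.dbl 61 1 62))))))) (.rp 51 (.thr 25 9 (.thr 17 29 (.thr 22 3 (.thr 19 28 (.thr 16 18 (.thr 31 26 (.dbl 23 20 27))))))) (.rp 38 (.thr 61 1 (.thr 53 49 (.thr 63 62 (.thr 48 58 (.thr 52 56 (.dbl 54 51 55)))))) (.rp 25 (.thr 61 1 (.thr 63 62 (.thr 51 54 (.thr 59 55 (.thr 58 56 (.dbl 53 48 49)))))) (.rp 22 (.thr 25 9 (.thr 51 54 (.thr 38 12 (.thr 55 4 (.thr 63 59 (.dbl 61 1 62)))))) (.rp 9 (.thr 51 54 (.thr 3 22 (.thr 35 19 (.thr 38 44 (.thr 55 4 (.thr 63 59 (.dbl 61 1 62))))))) .nd)))))))))) (.rp 23 (.str 57 (.nv (.thr 3 22 (.thr 51 54 (.thr 35 19 (.thr 38 44 (.dbl 25 9 12))))) (.nv (.thr 25 9 (.thr 17 29 (.thr 51 54 (.thr 0 34 (.thr 40 20 (.dbl 42 43 63)))))) (.nv (.thr 25 9 (.thr 51 54 (.thr 12 38 (.thr 28 44 (.dbl 22 3 19))))) (.rp 54 (.thr 25 9 (.thr 29 17 (.thr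 22 3 (.thr 28 19 (.thr 12 44 (.thr 63 46 (.dbl 61 1 62))))))) (.rp 51 (.thr 61 1 (.thr 53 49 (.thr 63 62 (.thr 48 58 (.thr 56 52 (.thr 26 11 (.dbl 37 5 15))))))) (.rp 25 (.thr 61 1 (.thr 63 62 (.thr 51 54 (.thr 59 55 (.thr 58 56 (.dbl 53 48 49)))))) (.rp 9 (.thr 51 54 (.thr 3 22 (.thr 35 19 (.thr 38 44 (.thr 55 4 (.thr 63 59 (.dbl 61 1 62))))))) .nd)))))))) (.rp 22 (.str 42 (.nv (.thr 61 1 (.dbl 63 0 62)) (.nv (.thr 40 43 (.dbl 0 20 63)) (.rp 63 (.str 44 (.nv (.thr 12 28 (.thr 40 43 (.thr 0 20 (.thr 8 4 (.thr 24 56 (.dbl 36 32 48)))))) (.nv (.thr 12 28 (.thr 38 35 (.thr 4 55 (.thr 8 0 (.dbl 25 51 59))))) (.nv (.thr 35 38 (.thr 43 40 (.thr 47 39 (.thr 37 32 (.dbl 45 33 46))))) .nd)))) (.rp 0 (.thr 1 61 (.str 37 (.nv (.thr 40 43 (.thr 32 47 (.thr 44 36 (.thr 35 38 (.dbl 33 34 45)))))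 (.nv (.thr 45 33 (.thr 15 30 (.thr 47 32 (.thr 31 63 (.dbl 26 16 48))))) (.nv (.thr 45 33 (.thr 47 32 (.thr 44 46 (.thr 43 40 (.dbl 35 38 39))))) (.rp 47 (.thr 45 33 (.thr 40 43 (.thr 15 30 (.thr 26 48 (.thr 58 10 (.thr 56 11 (.thr 8 24 (.dbl 59 25 57)))))))) (.rp 45 (.str 29 (.nv (.thr 17 25 (.thr 32 47 (.thr 33 49 (.thr 35 34 (.thr 40 43 (.dbl 44 36 38)))))) (.nv (.thr 25 17 (.thr 57 9 (.thr 59 8 (.thr 56 58 (.thr 48 52 (.dbl 26 11 15)))))) (.nv (.thr 40 43 (.thr 32 47 (.thr 44 36 (.thr 12 28 (.thr 25 17 (.dbl 38 35 51)))))) (.rp 34 (.thr 32 47 (.thr 40 43 (.thr 44 36 (.thr 12 28 (.thr 25 17 (.thr 51 38 (.dbl 57 9 54))))))) (.rp 25 (.thr 32 47 (.thr 40 43 (.thr 44 36 (.thr 28 12 (.thr 31 30 (.thr 26 16 (.thr 56 11 (.dbl 48 15 52)))))))) (.rp 17 (.thr 32 47 (.thr 40 43 (.thr 44 36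 (.thr 12 28 (.thr 46 63 (.dbl 38 34 35)))))) .nd))))))) (.rp 35 (.thr 45 33 (.thr 40 43 (.thr 15 30 (.thr 26 48 (.thr 58 10 (.thr 56 11 (.thr 8 24 (.dbl 59 25 57)))))))) (.rp 34 (.thr 45 33 (.thr 43 40 (.thr 47 32 (.thr 35 39 (.dbl 44 38 46))))) (.rp 33 (.thr 47 32 (.thr 43 40 (.thr 35 39 (.thr 44 38 (.thr 45 46 (.thr 15 30 (.thr 31 63 (.dbl 26 16 48)))))))) (.rp 32 (.thr 45 33 (.thr 40 43 (.thr 15 30 (.thr 26 48 (.thr 16 31 (.thr 58 10 (.thr 56 11 (.thr 8 24 (.dbl 59 25 57))))))))) .nd))))))))))) .nd))))) (.rp 20 (.thr 61 1 (.thr 63 62 (.thr 42 0 (.thr 3 22 (.dbl 43 23 40))))) (.rp 3 (.thr 61 1 (.str 0 (.nv (.dbl 63 42 62) (.rp 63 (.thr 20 40 (.str 5 (.nv (.thr 23 22 (.thr 37 53 (.thr 45 33 (.dbl 15 10 30)))) (.nv (.thr 53 37 (.thr 57 49 (.thr 25 9 (.thr 17 29 (.dbl 51 34 54)))))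 (.nv (.thr 15 10 (.thr 45 30 (.dbl 37 33 53))) (.rp 53 (.thr 15 10 (.thr 45 30 (.thr 37 33 (.thr 48 26 (.thr 52 56 (.dbl 22 7 23)))))) (.rp 37 (.str 57 (.nv (.thr 51 54 (.thr 17 34 (.dbl 25 9 29))) (.nv (.thr 25 9 (.thr 51 54 (.thr 12 38 (.thr 28 44 (.dbl 22 19 23))))) (.nv (.thr 25 9 (.thr 51 54 (.dbl 17 29 34))) (.rp 54 (.thr 25 9 (.thr 29 17 (.thr 15 10 (.thr 30 45 (.thr 28 31 (.dbl 22 19 23)))))) (.rp 51 (.thr 25 9 (.thr 29 17 (.thr 15 10 (.thr 30 45 (.thr 28 31 (.dbl 22 19 23)))))) (.rp 43 (.thr 23 22 (.thr 25 9 (.thr 17 29 (.dbl 51 34 54)))) (.rp 25 (.thr 49 53 (.thr 51 54 (.thr 48 50 (.thr 16 32 (.thr 26 31 (.dbl 56 11 52)))))) (.rp 23 (.str 43 (.nv (.thr 51 54 (.thr 17 34 (.dbl 25 9 29))) (.nv (.thr 25 9 (.thr 51 54 (.dbl 17 29 34))) (.rp 54 (.thr 49 53 (.thr 9 25 (.thr 10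 15 (.thr 11 8 (.thr 59 27 (.dbl 56 26 58)))))) (.rp 51 (.thr 49 53 (.thr 9 25 (.thr 10 15 (.thr 11 8 (.thr 56 26 (.thr 48 52 (.dbl 59 27 58))))))) (.rp 34 (.thr 49 53 (.thr 9 25 (.thr 10 15 (.thr 11 8 (.thr 59 27 (.dbl 56 26 58)))))) (.rp 29 (.thr 49 53 (.thr 9 25 (.thr 10 15 (.thr 11 8 (.thr 59 27 (.dbl 56 26 58)))))) (.rp 25 (.thr 49 53 (.thr 51 54 (.thr 48 50 (.thr 16 32 (.thr 26 31 (.dbl 56 11 52)))))) (.rp 17 (.thr 49 53 (.thr 9 25 (.thr 10 15 (.thr 11 8 (.thr 59 27 (.dbl 56 26 58)))))) (.rp 9 (.thr 49 53 (.thr 51 54 (.thr 48 50 (.thr 16 32 (.thr 26 31 (.dbl 56 11 52)))))) .nd)))))))))) (.rp 9 (.thr 49 53 (.thr 51 54 (.thr 48 50 (.thr 16 32 (.thr 26 31 (.dbl 56 11 52)))))) .nd)))))))))) (.rp 33 (.thr 37 53 (.thr 15 10 (.thr 48 26 (.thr 52 56 (.dbl 22 7 23))))) (.rp 23 (.str 43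 (.nv (.thr 53 37 (.thr 57 49 (.thr 25 9 (.thr 17 29 (.dbl 51 34 54))))) (.nv (.thr 15 10 (.thr 45 30 (.dbl 37 33 53))) (.rp 53 (.thr 15 10 (.thr 45 30 (.thr 37 33 (.thr 48 26 (.thr 52 56 (.thr 4 36 (.dbl 7 6 22))))))) (.rp 37 (.str 57 (.nv (.thr 51 54 (.thr 17 34 (.dbl 25 9 29))) (.nv (.thr 25 9 (.thr 51 54 (.dbl 17 29 34))) (.rp 54 (.thr 49 53 (.thr 9 25 (.thr 10 15 (.thr 11 8 (.thr 59 27 (.dbl 56 26 58)))))) (.rp 51 (.thr 49 53 (.thr 9 25 (.thr 10 15 (.thr 11 8 (.thr 56 26 (.thr 48 52 (.dbl 59 27 58))))))) (.rp 34 (.thr 49 53 (.thr 9 25 (.thr 10 15 (.thr 11 8 (.thr 59 27 (.dbl 56 26 58)))))) (.rp 29 (.thr 49 53 (.thr 9 25 (.thr 10 15 (.thr 11 8 (.thr 59 27 (.dbl 56 26 58)))))) (.rp 25 (.thr 49 53 (.thr 51 54 (.thr 48 50 (.thr 16 32 (.thr 26 31 (.dbl 56 11 52)))))) (.rp 17 (.thr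 49 53 (.thr 9 25 (.thr 10 15 (.thr 11 8 (.thr 59 27 (.dbl 56 26 58)))))) (.rp 9 (.thr 49 53 (.thr 51 54 (.thr 48 50 (.thr 16 32 (.thr 26 31 (.dbl 56 11 52)))))) .nd)))))))))) (.rp 33 (.thr 37 53 (.thr 15 10 (.thr 48 26 (.thr 52 56 (.thr 4 36 (.dbl 7 6 22)))))) (.rp 6 (.thr 37 53 (.thr 45 33 (.dbl 15 10 30))) .nd))))))) .nd))))))))) (.rp 62 (.thr 40 20 (.dbl 42 43 63)) (.rp 42 (.str 5 (.nv (.thr 62 63 (.thr 15 10 (.thr 37 53 (.dbl 45 30 33)))) (.nv (.thr 53 37 (.thr 57 49 (.thr 25 9 (.thr 17 29 (.dbl 51 34 54))))) (.nv (.thr 37 53 (.thr 45 33 (.dbl 15 10 30))) (.rp 62 (.str 22 (.nv (.thr 15 10 (.thr 37 53 (.dbl 45 30 33))) (.nv (.dbl 20 23 40) .nd))) (.rp 53 (.thr 20 40 (.thr 63 62 (.thr 22 23 (.thr 15 10 (.thr 31 47 (.thr 30 45 (.dbl 26 16 18))))))) (.rp 37 (.thr 20 40 (.thr 63 62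 (.thr 22 23 (.thr 15 10 (.thr 30 45 (.thr 26 18 (.dbl 31 16 47))))))) (.rp 33 (.thr 37 53 (.thr 20 40 (.thr 15 10 (.thr 22 23 (.thr 52 7 (.dbl 48 26 56)))))) .nd)))))))) (.rp 9 (.str 5 (.nv (.thr 15 10 (.thr 37 53 (.dbl 45 30 33))) (.nv (.dbl 63 42 62) (.rp 12 (.str 6 (.nv (.thr 15 10 (.thr 37 53 (.dbl 45 30 33))) (.nv (.dbl 63 42 62) (.rp 15 (.str 14 (.nv (.thr 7 4 (.thr 40 20 (.dbl 42 43 63))) (.nv (.dbl 63 42 62) (.rp 63 (.thr 20 40 (.thr 37 53 (.thr 7 4 (.dbl 22 23 52)))) (.rp 42 (.thr 20 40 (.thr 37 53 (.thr 7 4 (.dbl 22 23 52)))) (.rp 7 (.str 11 (.nv (.dbl 63 42 62) (.rp 63 (.thr 26 56 (.thr 20 40 (.thr 38 50 (.dbl 22 23 54)))) (.rp 62 (.thr 40 20 (.dbl 42 43 63)) (.rp 42 (.thr 26 56 (.thr 20 40 (.thr 22 23 (.dbl 38 50 54)))) .nd))))) .nd)))))) .nd)))) (.rp 6 (.str 12 (.nv (.thr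 4 8 (.thr 38 55 (.dbl 44 28 35))) (.nv (.dbl 63 42 62) (.rp 14 (.thr 10 15 (.dbl 63 42 62)) (.rp 10 (.str 14 (.nv (.thr 44 28 (.thr 38 35 (.dbl 4 8 55))) (.nv (.dbl 63 42 62) (.rp 11 (.thr 8 4 (.dbl 63 42 62)) (.rp 8 (.str 11 (.nv (.thr 26 56 (.thr 38 50 (.dbl 44 28 35))) (.nv (.dbl 63 42 62) .nd))) .nd))))) .nd))))) .nd))))) (.rp 5 (.str 9 (.nv (.dbl 63 42 62) (.rp 63 (.thr 25 57 (.thr 17 29 (.thr 40 20 (.thr 51 34 (.thr 12 38 (.thr 8 4 (.dbl 42 43 59))))))) (.rp 62 (.thr 40 20 (.dbl 42 43 63)) (.rp 42 (.thr 25 57 (.thr 17 29 (.thr 51 34 (.thr 38 12 (.thr 55 4 (.dbl 63 59 62)))))) .nd))))) .nd)))))))) (.rp 1 (.thr 22 3 (.str 0 (.nv (.dbl 20 23 40) (.rp 40 (.str 5 (.nv (.thr 15 10 (.thr 30 45 (.thr 26 18 (.thr 31 16 (.dbl 63 42 47))))) (.nv (.thr 23 20 (.thr 37 53 (.thr 7 52 (.thr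 55 39 (.dbl 4 6 38))))) (.nv (.thr 37 53 (.thr 15 10 (.dbl 45 30 33))) (.rp 6 (.thr 37 53 (.thr 45 33 (.dbl 15 10 30))) .nd))))) (.rp 23 (.thr 40 20 (.dbl 42 43 63)) (.rp 20 (.str 5 (.nv (.thr 15 10 (.thr 30 45 (.thr 26 18 (.thr 31 16 (.dbl 63 42 47))))) (.nv (.thr 37 53 (.thr 42 63 (.thr 32 47 (.thr 48 16 (.dbl 52 7 56))))) (.nv (.thr 37 53 (.thr 15 10 (.dbl 45 30 33))) (.rp 15 (.thr 37 53 (.thr 7 52 (.thr 4 6 (.thr 12 8 (.thr 44 28 (.dbl 38 35 55)))))) .nd))))) (.rp 9 (.str 5 (.nv (.thr 15 10 (.thr 37 53 (.dbl 45 30 33))) (.nv (.dbl 20 23 40) (.rp 12 (.str 6 (.nv (.thr 15 10 (.thr 4 7 (.dbl 38 54 55))) (.nv (.dbl 20 23 40) (.rp 15 (.str 14 (.nv (.thr 7 4 (.dbl 37 52 53)) (.nv (.dbl 20 23 40) (.rp 7 (.str 11 (.nv (.thr 26 56 (.dbl 38 50 54)) (.nv (.dbl 20 23 40) .nd))) .nd)))) .nd))))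 (.rp 6 (.str 12 (.nv (.thr 4 8 (.thr 38 55 (.dbl 44 28 35))) (.nv (.dbl 20 23 40) (.rp 14 (.thr 10 15 (.dbl 20 23 40)) (.rp 10 (.str 14 (.nv (.thr 44 28 (.thr 38 35 (.dbl 4 8 55))) (.nv (.dbl 20 23 40) (.rp 11 (.thr 8 4 (.dbl 20 23 40)) (.rp 8 (.str 11 (.nv (.thr 37 53 (.thr 52 7 (.dbl 56 26 48))) (.nv (.dbl 20 23 40) .nd))) .nd))))) .nd))))) .nd))))) (.rp 5 (.str 9 (.nv (.dbl 20 23 40) (.rp 40 (.thr 25 57 (.thr 17 29 (.thr 28 19 (.thr 12 44 (.dbl 51 34 38))))) (.rp 23 (.thr 40 20 (.dbl 42 43 63)) (.rp 20 (.thr 25 57 (.thr 17 29 (.thr 28 19 (.thr 12 44 (.dbl 51 34 38))))) .nd))))) .nd)))))))) (.rp 0 (.str 45 (.nv (.thr 3 22 (.thr 37 33 (.thr 15 30 (.thr 26 48 (.dbl 11 7 56))))) (.nv (.thr 15 30 (.thr 37 33 (.thr 48 26 (.thr 53 5 (.thr 63 58 (.dbl 61 1 62)))))) (.nv (.thr 37 33 (.thr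 15 30 (.thr 48 26 (.thr 52 56 (.dbl 22 3 7))))) (.rp 48 (.thr 33 37 (.thr 1 61 (.thr 17 49 (.thr 25 29 (.thr 57 9 (.thr 51 54 (.thr 12 38 (.thr 28 44 (.dbl 22 3 19))))))))) (.rp 37 (.thr 1 61 (.thr 30 15 (.thr 22 3 (.thr 23 20 (.thr 26 18 (.thr 31 16 (.thr 19 27 (.dbl 28 25 29)))))))) (.rp 33 (.thr 61 1 (.thr 3 22 (.thr 15 30 (.thr 11 7 (.thr 26 56 (.thr 31 16 (.dbl 63 47 62))))))) (.rp 30 (.thr 37 33 (.thr 1 61 (.thr 53 5 (.thr 22 3 (.thr 52 7 (.thr 55 54 (.thr 4 38 (.dbl 20 23 36)))))))) (.rp 26 (.thr 37 33 (.thr 1 61 (.thr 53 5 (.thr 22 3 (.thr 52 7 (.thr 55 54 (.thr 4 38 (.dbl 20 23 36)))))))) (.rp 22 (.thr 33 37 (.thr 1 61 (.thr 17 49 (.thr 25 29 (.thr 57 9 (.thr 51 54 (.thr 38 12 (.thr 44 35 (.thr 15 30 (.thr 27 39 (.thr 26 24 (.thr 31 16 (.dbl 47 46 63))))))))))))) (.rp 15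 (.thr 37 33 (.thr 1 61 (.thr 5 53 (.thr 22 3 (.thr 7 52 (.thr 4 6 (.thr 55 38 (.dbl 23 20 39)))))))) (.rp 3 (.thr 1 61 (.thr 37 33 (.thr 53 5 (.thr 15 30 (.thr 48 26 (.thr 52 56 (.thr 58 63 (.thr 54 55 (.thr 51 57 (.dbl 50 49 62)))))))))) .nd)))))))))))) .nd))))))))))))))

theorem w164 : WinAt (2199025352704, 8196) :=
  chF (K := []) kn c164 2199025352704 8196 13
    [] (by decide +kernel) (by decide +kernel)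

/-- A certificate. -/
noncomputable def c165 : Ct := (.str 25 (.nv (.thr 17 29 (.thr 9 57 (.thr 49 33 (.dbl 13 5 37)))) (.rp 57 (.thr 17 29 (.thr 49 33 (.thr 13 37 (.thr 5 9 (.str 0 (.nv (.thr 10 15 (.thr 42 63 (.thr 26 58 (.thr 11 56 (.thr 59 8 (.dbl 27 24 43)))))) (.nv (.thr 51 34 (.thr 38 12 (.thr 55 4 (.dbl 63 42 59)))) (.rp 63 (.thr 10 15 (.thr 51 34 (.thr 12 38 (.thr 8 4 (.thr 42 59 (.thr 40 43 (.thr 56 24 (.dbl 26 11 58)))))))) (.rp 59 (.thr 51 34 (.thr 12 38 (.thr 42 63 (.thr 40 43 (.thr 60 20 (.thr 28 44 (.dbl 22 3 19))))))) (.rp 46 (.thr 51 34 (.thr 12 38 (.thr 42 63 (.dbl 8 4 59)))) (.rp 42 (.thr 51 34 (.thr 38 12 (.thr 4 55 (.thr 6 7 (.thr 35 44 (.thr 19 3 (.dbl 22 28 54))))))) (.rp 12 (.thr 10 15 (.thr 34 51 (.thr 42 63 (.thr 46 38 (.thr 59 8 (.thr 43 40 (.thr 27 11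 (.dbl 26 24 58)))))))) (.rp 10 (.str 6 (.nv (.thr 42 63 (.thr 8 59 (.thr 12 4 (.dbl 51 34 38)))) (.nv (.thr 4 7 (.thr 38 55 (.thr 22 54 (.thr 60 3 (.dbl 20 23 40))))) (.nv (.thr 4 7 (.thr 8 12 (.dbl 42 59 63))) (.rp 11 (.str 8 (.nv (.dbl 42 59 63) (.nv (.dbl 4 7 12) .nd))) (.rp 8 (.str 11 (.nv (.thr 51 34 (.thr 38 12 (.dbl 4 7 55))) (.nv (.thr 26 56 (.thr 16 31 (.thr 24 27 (.thr 28 20 (.dbl 19 18 22))))) (.nv (.thr 4 7 (.thr 38 55 (.dbl 51 12 34))) .nd)))) (.rp 4 (.thr 51 34 (.thr 38 12 (.thr 22 54 (.thr 60 3 (.dbl 20 23 40))))) .nd))))))) .nd))))))))))))) (.rp 49 (.thr 29 17 (.thr 57 9 (.str 22 (.nv (.thr 28 19 (.thr 60 3 (.thr 12 44 (.dbl 51 38 54)))) (.nv (.thr 20 23 (.thr 60 3 (.thr 0 40 (.thr 51 54 (.thr 63 42 (.dbl 12 38 46)))))) (.nv (.thr 20 23 (.thr 28 19 (.thr 16 24 (.dbl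 31 26 30)))) (.rp 10 (.str 6 (.nv (.thr 20 23 (.thr 28 19 (.thr 16 24 (.dbl 31 26 30)))) (.nv (.thr 60 3 (.dbl 54 38 51)) (.rp 11 (.str 8 (.nv (.thr 20 23 (.thr 28 19 (.thr 16 24 (.dbl 31 26 30)))) (.nv (.thr 54 38 (.dbl 60 3 51)) (.rp 26 (.thr 60 3 (.dbl 54 38 51)) .nd)))) (.rp 8 (.str 11 (.nv (.thr 26 56 (.thr 28 19 (.dbl 30 18 31))) (.nv (.thr 60 3 (.dbl 54 38 51)) .nd))) .nd))))) (.rp 6 (.str 10 (.nv (.thr 20 23 (.thr 28 19 (.thr 16 24 (.dbl 31 26 30)))) (.nv (.thr 28 19 (.thr 60 3 (.thr 12 44 (.dbl 51 38 54)))) (.rp 28 (.thr 3 60 (.thr 23 20 (.thr 63 43 (.thr 0 42 (.thr 12 46 (.thr 4 8 (.dbl 38 51 55))))))) (.rp 19 (.thr 3 60 (.thr 23 20 (.thr 63 43 (.thr 0 42 (.thr 12 46 (.thr 4 8 (.dbl 38 51 55))))))) (.rp 16 (.thr 3 60 (.thr 19 28 (.thr 51 35 (.thr 12 38 (.thr 63 46 (.dbl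 23 20 43)))))) (.rp 12 (.thr 3 60 (.thr 28 19 (.thr 20 23 (.thr 16 24 (.dbl 31 26 30))))) (.rp 3 (.str 12 (.nv (.thr 20 23 (.thr 63 46 (.thr 0 42 (.thr 60 40 (.dbl 28 19 44))))) (.nv (.thr 63 46 (.thr 42 0 (.thr 59 8 (.dbl 58 26 56)))) (.nv (.thr 51 38 (.thr 60 54 (.dbl 28 19 44))) .nd)))) .nd)))))))) .nd)))))))) (.rp 45 (.thr 9 57 (.thr 17 29 (.thr 13 5 (.dbl 49 33 37)))) (.rp 37 (.thr 57 9 (.thr 29 17 (.str 22 (.nv (.thr 28 19 (.thr 60 3 (.thr 12 44 (.dbl 51 38 54)))) (.nv (.thr 20 23 (.thr 60 3 (.thr 0 40 (.thr 51 54 (.thr 63 42 (.dbl 12 38 46)))))) (.nv (.thr 20 23 (.thr 28 19 (.thr 16 24 (.dbl 31 26 30)))) (.rp 10 (.str 6 (.nv (.thr 20 23 (.thr 28 19 (.thr 16 24 (.dbl 31 26 30)))) (.nv (.thr 60 3 (.dbl 54 38 51)) (.rp 11 (.str 8 (.nv (.thr 20 23 (.thr 28 19 (.thr 16 24 (.dbl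 31 26 30)))) (.nv (.thr 60 3 (.dbl 54 38 51)) .nd))) (.rp 8 (.str 11 (.nv (.thr 26 56 (.thr 28 19 (.dbl 30 18 31))) (.nv (.thr 60 3 (.dbl 54 38 51)) .nd))) .nd))))) (.rp 6 (.str 10 (.nv (.thr 20 23 (.thr 28 19 (.thr 16 24 (.dbl 31 26 30)))) (.nv (.thr 28 19 (.thr 60 3 (.thr 12 44 (.dbl 51 38 54)))) (.rp 28 (.thr 3 60 (.thr 23 20 (.thr 63 43 (.thr 0 42 (.thr 12 46 (.thr 4 8 (.dbl 38 51 55))))))) (.rp 19 (.thr 3 60 (.thr 23 20 (.thr 63 43 (.thr 0 42 (.thr 12 46 (.thr 4 8 (.dbl 38 51 55))))))) (.rp 16 (.thr 3 60 (.thr 19 28 (.thr 51 35 (.thr 12 38 (.thr 63 46 (.dbl 23 20 43)))))) (.rp 12 (.thr 3 60 (.thr 28 19 (.thr 20 23 (.thr 16 24 (.dbl 31 26 30))))) (.rp 3 (.str 12 (.nv (.thr 63 46 (.thr 42 0 (.thr 59 8 (.dbl 58 26 56)))) (.nv (.thr 28 19 (.thr 60 44 (.dbl 51 38 54))) (.rp 51 (.thr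 20 23 (.thr 63 46 (.thr 0 42 (.thr 60 40 (.dbl 28 19 44))))) .nd)))) .nd)))))))) .nd)))))))) (.rp 33 (.thr 29 17 (.thr 9 57 (.thr 5 13 (.thr 53 37 (.str 12 (.nv (.thr 63 46 (.thr 0 42 (.thr 8 4 (.dbl 10 11 15)))) (.nv (.thr 63 46 (.thr 42 0 (.thr 43 40 (.dbl 3 6 23)))) (.nv (.thr 6 3 (.thr 4 7 (.dbl 38 51 55))) (.rp 6 (.str 10 (.nv (.thr 63 46 (.thr 42 0 (.dbl 58 26 48))) (.nv (.thr 8 11 (.dbl 0 4 15)) (.rp 0 (.thr 8 11 (.thr 46 63 (.thr 42 59 (.dbl 38 34 51)))) .nd)))) .nd))))))))) (.rp 29 (.thr 9 57 (.thr 13 5 (.thr 49 37 (.str 22 (.nv (.thr 19 28 (.thr 3 60 (.thr 51 35 (.dbl 12 6 38)))) (.nv (.thr 17 33 (.thr 23 20 (.thr 19 28 (.thr 31 27 (.dbl 16 18 26))))) (.rp 31 (.thr 17 33 (.thr 60 3 (.thr 28 19 (.thr 12 44 (.thr 51 38 (.thr 0 34 (.dbl 20 23 40))))))) (.rp 28 (.thr 17 33 (.thr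 3 60 (.thr 23 20 (.thr 63 43 (.thr 0 42 (.thr 51 34 (.dbl 12 6 38))))))) (.rp 19 (.thr 17 33 (.thr 3 60 (.thr 23 20 (.thr 63 43 (.thr 0 42 (.thr 51 34 (.dbl 12 6 38))))))) (.rp 10 (.str 6 (.nv (.dbl 3 12 60) (.rp 60 (.thr 12 3 (.dbl 38 51 54)) (.rp 15 (.str 0 (.nv (.thr 17 33 (.thr 38 54 (.dbl 51 12 34))) (.nv (.dbl 3 12 60) (.rp 48 (.str 26 (.nv (.thr 16 31 (.thr 17 33 (.dbl 18 19 30))) (.nv (.dbl 3 12 60) .nd))) (.rp 26 (.str 48 (.nv (.thr 17 33 (.dbl 51 34 50)) (.nv (.dbl 3 12 60) (.rp 58 (.thr 42 63 (.dbl 3 12 60)) (.rp 50 (.thr 38 54 (.dbl 12 3 51)) (.rp 42 (.str 58 (.nv (.thr 32 16 (.thr 17 33 (.dbl 51 34 50))) (.nv (.dbl 3 12 60) (.rp 50 (.thr 38 54 (.dbl 12 3 51)) (.rp 38 (.thr 50 51 (.dbl 3 12 60)) (.rp 32 (.str 47 (.nv (.thr 17 33 (.dbl 51 34 50)) (.nv (.dbl 3 12 60) (.rp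 50 (.thr 38 54 (.dbl 12 3 51)) (.rp 38 (.thr 50 51 (.dbl 3 12 60)) .nd))))) .nd)))))) (.rp 38 (.thr 50 51 (.dbl 3 12 60)) .nd))))))) (.rp 12 (.thr 60 3 (.dbl 20 23 40)) .nd)))))) (.rp 12 (.thr 17 33 (.thr 19 28 (.thr 16 18 (.thr 23 20 (.dbl 31 26 27))))) (.rp 3 (.thr 17 33 (.thr 19 28 (.thr 23 20 (.thr 31 27 (.dbl 16 18 26))))) (.rp 0 (.str 15 (.nv (.dbl 3 12 60) (.rp 60 (.thr 12 3 (.dbl 38 51 54)) (.rp 12 (.thr 33 17 (.thr 3 60 (.thr 11 7 (.thr 26 56 (.dbl 18 30 48))))) (.rp 3 (.thr 17 33 (.thr 19 28 (.thr 23 20 (.thr 31 27 (.dbl 16 18 26))))) .nd))))) .nd))))))) (.rp 6 (.str 10 (.nv (.thr 8 11 (.thr 20 23 (.thr 60 3 (.thr 0 40 (.dbl 42 59 63))))) (.nv (.thr 3 60 (.thr 19 28 (.thr 33 17 (.thr 48 18 (.dbl 51 35 50))))) (.nv (.thr 11 8 (.thr 23 20 (.thr 19 28 (.thr 31 27 (.dbl 26 16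 56))))) (.rp 7 (.str 4 (.nv (.thr 3 60 (.thr 19 28 (.thr 33 17 (.thr 48 18 (.dbl 51 35 50))))) (.nv (.thr 8 11 (.thr 12 0 (.dbl 38 51 55))) (.rp 51 (.thr 8 11 (.thr 0 12 (.dbl 42 59 63))) (.rp 12 (.thr 17 33 (.thr 11 8 (.thr 26 56 (.thr 18 30 (.dbl 16 19 31))))) (.rp 3 (.thr 38 55 (.thr 12 51 (.dbl 8 0 11))) .nd)))))) (.rp 4 (.str 7 (.nv (.thr 3 60 (.dbl 11 8 15)) (.nv (.thr 11 8 (.dbl 3 15 60)) (.rp 60 (.thr 33 17 (.thr 11 8 (.thr 3 15 (.thr 26 56 (.dbl 18 30 48))))) (.rp 15 (.thr 33 17 (.thr 19 28 (.thr 3 60 (.thr 51 35 (.dbl 48 18 50))))) (.rp 11 (.thr 33 17 (.thr 19 28 (.thr 3 60 (.thr 51 35 (.dbl 48 18 50))))) (.rp 8 (.thr 33 17 (.thr 19 28 (.thr 3 60 (.thr 51 35 (.dbl 48 18 50))))) (.rp 3 (.thr 17 33 (.thr 19 28 (.thr 23 20 (.thr 31 27 (.dbl 16 18 26))))) .nd)))))))) .nd))))))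 .nd))))))))))) (.rp 17 (.thr 57 9 (.str 42 (.nv (.thr 43 40 (.thr 63 0 (.thr 3 23 (.thr 60 22 (.thr 51 54 (.dbl 59 8 55)))))) (.nv (.thr 59 8 (.thr 43 40 (.thr 56 58 (.dbl 11 26 27)))) (.rp 59 (.thr 43 40 (.thr 63 0 (.thr 3 23 (.thr 60 22 (.thr 51 54 (.thr 35 19 (.dbl 38 12 44))))))) (.rp 43 (.thr 59 8 (.thr 58 56 (.thr 63 0 (.thr 51 55 (.thr 48 53 (.thr 50 49 (.dbl 54 60 62))))))) (.rp 40 (.thr 59 8 (.thr 63 0 (.thr 51 55 (.thr 60 54 (.thr 3 22 (.thr 35 19 (.dbl 38 12 44))))))) (.rp 10 (.str 6 (.nv (.thr 0 63 (.thr 40 43 (.thr 60 20 (.thr 54 51 (.dbl 22 3 38))))) (.nv (.thr 43 40 (.thr 59 8 (.thr 11 27 (.dbl 56 26 58)))) (.rp 59 (.thr 63 0 (.thr 43 40 (.thr 3 23 (.thr 60 22 (.thr 51 54 (.thr 35 19 (.dbl 38 12 44))))))) (.rp 43 (.thr 0 63 (.thr 8 59 (.thr 12 4 (.thr 51 38 (.thr 60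 54 (.thr 20 40 (.dbl 22 3 23))))))) (.rp 40 (.thr 0 63 (.thr 8 59 (.thr 12 4 (.thr 51 38 (.thr 60 54 (.thr 22 3 (.dbl 28 19 44))))))) (.rp 11 (.thr 8 59 (.thr 0 63 (.thr 12 4 (.thr 51 38 (.thr 60 54 (.dbl 40 20 43)))))) (.rp 8 (.str 11 (.nv (.thr 0 63 (.thr 40 43 (.thr 60 20 (.thr 54 51 (.dbl 22 3 38))))) (.nv (.thr 43 40 (.thr 27 59 (.dbl 26 24 56))) (.rp 59 (.thr 63 0 (.thr 43 40 (.thr 3 23 (.thr 15 7 (.thr 31 47 (.dbl 26 16 56)))))) (.rp 43 (.thr 63 0 (.thr 56 26 (.thr 59 58 (.thr 51 55 (.thr 54 60 (.dbl 38 12 22)))))) (.rp 40 (.thr 63 0 (.thr 56 26 (.thr 59 58 (.thr 43 27 (.thr 3 23 (.thr 51 55 (.dbl 60 22 54))))))) .nd)))))) .nd)))))))) (.rp 8 (.thr 43 40 (.thr 63 0 (.thr 3 23 (.thr 60 22 (.thr 51 54 (.thr 35 19 (.dbl 38 12 44))))))) (.rp 6 (.str 10 (.nv (.thr 59 8 (.dbl 58 26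 56)) (.rp 59 (.thr 26 58 (.thr 0 63 (.thr 16 31 (.thr 48 32 (.dbl 15 5 37))))) (.rp 58 (.thr 43 40 (.thr 59 8 (.thr 63 0 (.thr 51 55 (.thr 3 23 (.dbl 60 22 54)))))) (.rp 56 (.thr 26 58 (.thr 0 63 (.thr 16 31 (.thr 48 32 (.dbl 15 5 37))))) (.rp 26 (.thr 43 40 (.thr 59 8 (.thr 63 0 (.thr 51 55 (.thr 3 23 (.dbl 60 22 54)))))) (.rp 12 (.str 3 (.nv (.thr 58 26 (.dbl 59 8 56)) (.nv (.thr 43 40 (.dbl 63 0 23)) (.rp 15 (.str 13 (.nv (.thr 58 26 (.dbl 59 8 56)) (.nv (.thr 43 40 (.dbl 63 0 23)) .nd))) (.rp 13 (.str 15 (.nv (.thr 26 58 (.dbl 11 7 56)) (.nv (.dbl 0 5 63) (.rp 45 (.str 29 (.nv (.thr 26 58 (.dbl 11 7 56)) (.nv (.dbl 0 5 63) .nd))) (.rp 29 (.str 45 (.nv (.dbl 60 22 30) (.nv (.dbl 0 5 63) (.rp 63 (.str 46 (.nv (.thr 5 0 (.dbl 37 33 53)) (.nv (.dbl 60 22 30) (.rp 60 (.str 62 (.nv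 (.thr 11 7 (.dbl 26 56 58)) (.nv (.thr 44 47 (.dbl 38 34 35)) (.rp 44 (.str 28 (.nv (.thr 58 26 (.dbl 59 8 56)) (.nv (.thr 37 33 (.dbl 5 0 53)) .nd))) .nd)))) .nd)))) (.rp 46 (.thr 63 0 (.dbl 43 23 40)) .nd))))) .nd))))) .nd))))) (.rp 8 (.thr 26 58 (.thr 0 63 (.thr 16 31 (.thr 48 32 (.dbl 15 5 37))))) (.rp 3 (.str 12 (.nv (.thr 58 26 (.dbl 59 8 56)) (.nv (.thr 63 0 (.thr 46 29 (.dbl 38 34 51))) (.nv (.thr 8 59 (.dbl 0 4 63)) .nd)))) .nd))))))))) .nd)))))))))) (.rp 13 (.thr 29 17 (.str 12 (.nv (.thr 51 38 (.thr 57 9 (.thr 60 54 (.thr 22 3 (.dbl 28 19 44))))) (.nv (.thr 38 51 (.thr 4 55 (.thr 0 8 (.dbl 63 42 46)))) (.rp 51 (.thr 9 57 (.thr 63 46 (.thr 0 42 (.thr 8 4 (.thr 10 11 (.thr 3 6 (.thr 23 43 (.dbl 22 20 60)))))))) (.rp 38 (.thr 9 57 (.thr 63 46 (.thr 42 0 (.thr 43 40 (.dbl 3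 6 23))))) (.rp 10 (.str 6 (.nv (.dbl 9 3 57) (.rp 57 (.thr 3 9 (.thr 22 60 (.dbl 38 51 54))) (.rp 9 (.thr 38 51 (.thr 22 54 (.thr 60 3 (.dbl 28 19 44)))) (.rp 3 (.thr 38 51 (.thr 4 55 (.thr 0 8 (.dbl 63 42 46)))) .nd))))) (.rp 6 (.str 10 (.nv (.thr 9 57 (.thr 8 11 (.thr 0 4 (.dbl 42 59 63)))) (.nv (.thr 51 38 (.thr 57 9 (.thr 60 54 (.thr 22 3 (.dbl 28 19 44))))) (.nv (.thr 38 51 (.thr 4 55 (.thr 0 8 (.dbl 63 42 46)))) .nd)))) .nd)))))))) (.rp 10 (.str 6 (.nv (.thr 9 57 (.thr 12 3 (.thr 38 51 (.thr 4 55 (.dbl 5 7 13))))) (.nv (.thr 17 29 (.thr 49 33 (.thr 13 37 (.dbl 9 5 57)))) (.rp 57 (.thr 17 29 (.thr 49 33 (.thr 13 37 (.thr 9 5 (.thr 12 3 (.thr 51 38 (.thr 0 34 (.thr 8 4 (.dbl 42 59 63))))))))) (.rp 49 (.str 5 (.nv (.dbl 9 13 57) (.rp 57 (.thr 53 37 (.thr 9 13 (.thr 12 3 (.thr 4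 7 (.dbl 38 51 55))))) (.rp 53 (.thr 57 9 (.thr 4 7 (.thr 38 55 (.thr 54 22 (.dbl 51 12 60))))) (.rp 13 (.thr 4 7 (.thr 38 55 (.thr 12 51 (.dbl 9 3 57)))) (.rp 9 (.thr 29 17 (.thr 4 7 (.thr 38 55 (.thr 12 51 (.thr 63 46 (.dbl 0 8 42)))))) .nd)))))) (.rp 13 (.thr 29 17 (.thr 9 57 (.thr 12 3 (.thr 38 51 (.thr 4 55 (.thr 0 8 (.dbl 63 42 46))))))) (.rp 9 (.str 38 (.nv (.thr 4 55 (.thr 5 7 (.thr 17 29 (.thr 33 49 (.dbl 37 45 53))))) (.nv (.thr 12 51 (.thr 22 54 (.thr 60 3 (.dbl 28 19 44)))) (.rp 11 (.str 8 (.nv (.thr 12 51 (.thr 22 54 (.thr 28 19 (.dbl 44 35 60)))) (.nv (.thr 12 51 (.dbl 4 0 55)) (.rp 51 (.thr 4 55 (.thr 0 12 (.dbl 42 59 63))) (.rp 12 (.thr 17 29 (.thr 33 49 (.thr 35 44 (.thr 34 32 (.dbl 42 46 59))))) .nd))))) (.rp 8 (.str 11 (.nv (.thr 4 55 (.thr 5 7 (.thr 17 29 (.thr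 33 49 (.dbl 37 45 53))))) (.nv (.thr 12 51 (.thr 22 54 (.thr 60 3 (.dbl 28 19 44)))) .nd))) .nd))))) (.rp 5 (.thr 17 29 (.thr 9 57 (.thr 12 3 (.thr 51 38 (.thr 0 34 (.thr 8 4 (.dbl 42 59 63))))))) .nd)))))))) (.rp 9 (.str 38 (.nv (.thr 4 55 (.thr 12 51 (.thr 0 8 (.thr 44 35 (.thr 60 28 (.thr 20 40 (.dbl 22 3 23))))))) (.nv (.thr 17 29 (.thr 35 44 (.thr 33 49 (.thr 34 32 (.dbl 51 0 12))))) (.nv (.thr 4 55 (.thr 12 51 (.thr 0 8 (.thr 29 17 (.dbl 63 42 46))))) (.rp 51 (.thr 17 29 (.thr 33 49 (.thr 45 37 (.thr 44 35 (.thr 46 47 (.thr 42 34 (.thr 59 8 (.thr 63 0 (.thr 43 40 (.thr 3 23 (.thr 11 27 (.thr 15 7 (.dbl 60 22 30))))))))))))) (.rp 12 (.thr 17 29 (.thr 33 49 (.thr 35 44 (.thr 34 32 (.thr 0 51 (.dbl 42 46 63)))))) (.rp 10 (.str 6 (.nv (.thr 4 55 (.thr 5 7 (.thr 17 29 (.thr 33 49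 (.dbl 37 45 53))))) (.nv (.thr 12 51 (.thr 22 54 (.thr 60 3 (.dbl 28 19 44)))) (.rp 11 (.str 8 (.nv (.thr 12 51 (.thr 22 54 (.thr 28 19 (.dbl 44 35 60)))) (.nv (.thr 12 51 (.dbl 4 0 55)) (.rp 51 (.thr 4 55 (.thr 0 12 (.dbl 42 59 63))) (.rp 12 (.thr 17 29 (.thr 33 49 (.thr 35 44 (.thr 34 32 (.dbl 42 46 59))))) .nd))))) (.rp 8 (.str 11 (.nv (.thr 4 55 (.thr 5 7 (.thr 17 29 (.thr 33 49 (.dbl 37 45 53))))) (.nv (.thr 12 51 (.thr 22 54 (.thr 60 3 (.dbl 28 19 44)))) .nd))) .nd))))) (.rp 6 (.str 10 (.nv (.thr 4 55 (.thr 12 51 (.thr 0 8 (.thr 44 35 (.thr 60 28 (.thr 20 40 (.dbl 22 3 23))))))) (.nv (.thr 17 29 (.thr 35 44 (.thr 33 49 (.thr 34 32 (.dbl 51 0 12))))) (.nv (.thr 12 51 (.thr 4 55 (.thr 0 8 (.thr 29 17 (.dbl 63 42 46))))) (.rp 51 (.thr 17 29 (.thr 33 49 (.thr 35 44 (.thr 34 32 (.thr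 42 46 (.thr 26 58 (.thr 59 8 (.thr 27 24 (.dbl 11 43 56))))))))) (.rp 12 (.str 3 (.nv (.thr 17 29 (.thr 33 49 (.thr 18 48 (.thr 19 16 (.dbl 22 28 60))))) (.nv (.thr 17 29 (.thr 33 49 (.thr 18 48 (.thr 19 16 (.dbl 35 44 51))))) (.nv (.thr 35 44 (.thr 19 51 (.dbl 22 28 60))) (.rp 51 (.thr 29 17 (.thr 22 60 (.thr 28 19 (.thr 31 30 (.thr 20 23 (.dbl 16 24 26)))))) (.rp 19 (.thr 17 29 (.thr 33 49 (.thr 35 44 (.thr 34 32 (.thr 0 51 (.dbl 42 46 63)))))) (.rp 15 (.str 13 (.nv (.thr 35 44 (.thr 19 51 (.dbl 22 28 60))) (.nv (.thr 17 29 (.dbl 49 33 37)) .nd))) (.rp 13 (.str 15 (.nv (.thr 5 0 (.thr 11 7 (.thr 26 56 (.dbl 37 48 53)))) (.nv (.thr 35 44 (.thr 19 51 (.dbl 22 28 60))) (.rp 45 (.thr 29 17 (.thr 35 44 (.thr 19 51 (.dbl 22 28 60)))) (.rp 29 (.str 45 (.nv (.thr 5 0 (.dbl 37 33 53)) (.nv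 (.dbl 60 22 30) (.rp 63 (.str 46 (.nv (.dbl 44 35 47) (.nv (.dbl 60 22 30) (.rp 60 (.str 62 (.nv (.thr 5 0 (.dbl 37 33 53)) (.nv (.dbl 44 35 47) (.rp 44 (.str 28 (.nv (.thr 4 55 (.thr 11 7 (.thr 26 56 (.dbl 42 34 58)))) (.nv (.thr 37 33 (.dbl 5 0 53)) .nd))) .nd)))) .nd)))) (.rp 46 (.str 63 (.nv (.dbl 0 5 42) (.nv (.dbl 60 22 30) (.rp 62 (.thr 30 60 (.dbl 0 5 42)) (.rp 30 (.str 62 (.nv (.thr 31 47 (.thr 23 43 (.dbl 22 20 60))) (.nv (.dbl 0 5 42) (.rp 31 (.str 28 (.nv (.dbl 0 5 42) (.nv (.dbl 22 19 60) .nd))) .nd)))) .nd))))) .nd))))) .nd))))) .nd)))))))) (.rp 0 (.thr 17 29 (.thr 12 51 (.thr 44 35 (.thr 28 60 (.thr 19 22 (.thr 16 18 (.thr 26 31 (.dbl 24 20 27)))))))) .nd))))))) (.rp 0 (.thr 17 29 (.thr 12 51 (.thr 44 35 (.thr 28 60 (.thr 19 22 (.thr 16 18 (.thr 26 31 (.dbl 24 20 27))))))))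 .nd))))))))) (.rp 6 (.str 10 (.nv (.thr 9 57 (.thr 8 11 (.thr 42 59 (.thr 0 63 (.dbl 5 13 15))))) (.nv (.thr 17 29 (.thr 9 57 (.thr 49 33 (.dbl 13 5 37)))) (.rp 57 (.thr 17 29 (.thr 49 33 (.thr 13 37 (.thr 9 5 (.thr 8 11 (.thr 42 59 (.thr 0 63 (.thr 51 34 (.dbl 12 4 38))))))))) (.rp 49 (.str 5 (.nv (.dbl 9 13 57) (.rp 57 (.thr 53 37 (.thr 9 13 (.thr 8 11 (.thr 42 59 (.dbl 0 15 63))))) (.rp 53 (.thr 57 9 (.thr 0 15 (.thr 42 63 (.thr 58 26 (.dbl 59 8 56))))) (.rp 13 (.thr 9 57 (.thr 53 37 (.thr 8 11 (.thr 42 59 (.dbl 0 15 63))))) (.rp 9 (.thr 29 17 (.thr 0 15 (.thr 63 42 (.thr 12 46 (.thr 4 8 (.dbl 38 51 55)))))) .nd)))))) (.rp 13 (.thr 9 57 (.thr 8 11 (.thr 42 59 (.thr 0 63 (.thr 12 4 (.thr 51 38 (.dbl 17 29 34))))))) (.rp 9 (.str 12 (.nv (.thr 17 29 (.thr 33 49 (.thr 38 51 (.thr 4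 55 (.thr 0 8 (.thr 5 15 (.dbl 37 45 53))))))) (.nv (.thr 17 29 (.thr 33 49 (.thr 51 38 (.thr 0 34 (.thr 5 15 (.dbl 37 45 53)))))) (.nv (.thr 38 51 (.thr 4 55 (.thr 0 8 (.thr 29 17 (.dbl 63 42 46))))) (.rp 51 (.thr 29 17 (.thr 63 46 (.thr 0 42 (.thr 15 5 (.thr 31 47 (.thr 26 16 (.thr 24 27 (.dbl 48 36 37)))))))) (.rp 38 (.thr 29 17 (.thr 63 46 (.thr 42 0 (.thr 26 58 (.thr 56 11 (.thr 24 27 (.dbl 8 40 59))))))) (.rp 29 (.thr 38 51 (.thr 44 35 (.thr 60 28 (.thr 4 55 (.thr 0 8 (.thr 20 40 (.dbl 22 3 23))))))) (.rp 17 (.thr 38 51 (.thr 44 35 (.thr 60 28 (.thr 4 55 (.thr 0 8 (.thr 20 40 (.dbl 22 3 23))))))) (.rp 0 (.thr 29 17 (.thr 63 46 (.thr 51 38 (.thr 59 55 (.thr 42 8 (.thr 26 58 (.thr 11 56 (.dbl 27 24 43)))))))) .nd))))))))) (.rp 5 (.thr 17 29 (.thr 9 57 (.thr 8 11 (.thr 42 59 (.thr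 0 63 (.thr 51 34 (.dbl 12 4 38))))))) .nd)))))))) (.rp 5 (.str 42 (.nv (.thr 0 63 (.thr 17 29 (.thr 40 43 (.thr 51 34 (.thr 57 9 (.dbl 60 20 54)))))) (.nv (.thr 17 29 (.thr 8 59 (.thr 0 63 (.thr 12 4 (.dbl 51 34 38))))) (.nv (.thr 43 40 (.thr 57 9 (.thr 59 8 (.thr 56 58 (.dbl 11 26 27))))) (.rp 10 (.str 6 (.nv (.thr 0 63 (.thr 8 59 (.thr 9 57 (.dbl 12 3 4)))) (.nv (.thr 0 63 (.thr 8 59 (.thr 12 4 (.thr 17 29 (.dbl 51 34 38))))) (.nv (.thr 29 17 (.thr 9 57 (.thr 12 3 (.dbl 63 0 46)))) (.rp 63 (.thr 57 9 (.thr 43 40 (.thr 59 8 (.thr 11 27 (.dbl 56 26 58))))) (.rp 12 (.thr 57 9 (.thr 43 40 (.thr 59 8 (.thr 11 27 (.dbl 56 26 58))))) (.rp 0 (.str 15 (.nv (.thr 29 17 (.thr 9 57 (.thr 12 3 (.thr 46 63 (.dbl 38 34 51))))) (.nv (.thr 9 57 (.thr 12 3 (.thr 29 17 (.thr 51 38 (.thr 59 8 (.dbl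 63 46 55)))))) (.nv (.thr 43 40 (.thr 59 8 (.thr 11 27 (.thr 3 7 (.dbl 9 12 57))))) (.rp 57 (.thr 59 8 (.thr 43 40 (.thr 11 27 (.thr 3 7 (.thr 23 63 (.dbl 22 20 60)))))) (.rp 12 (.thr 17 29 (.thr 33 49 (.thr 45 37 (.thr 57 9 (.thr 60 30 (.thr 22 3 (.dbl 54 38 51))))))) (.rp 9 (.thr 43 40 (.thr 59 8 (.thr 11 27 (.thr 3 7 (.thr 23 63 (.dbl 22 20 60)))))) (.rp 3 (.thr 57 9 (.thr 43 40 (.thr 59 8 (.thr 11 27 (.dbl 56 26 58))))) .nd)))))))) .nd))))))) (.rp 6 (.str 10 (.nv (.thr 8 59 (.thr 26 58 (.thr 56 11 (.dbl 24 27 40)))) (.nv (.thr 8 59 (.dbl 9 11 57)) (.rp 59 (.thr 9 57 (.thr 11 8 (.dbl 26 56 58))) (.rp 11 (.thr 57 9 (.thr 58 26 (.dbl 59 8 56))) (.rp 8 (.thr 57 9 (.thr 40 43 (.thr 0 63 (.thr 17 29 (.thr 51 34 (.dbl 60 20 54)))))) (.rp 7 (.str 4 (.nv (.thr 9 57 (.thr 11 8 (.dbl 26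 56 58))) (.nv (.thr 8 59 (.dbl 0 12 63)) (.rp 8 (.thr 29 17 (.thr 63 0 (.thr 12 46 (.dbl 38 51 55)))) .nd)))) (.rp 4 (.str 7 (.nv (.thr 8 59 (.thr 26 58 (.thr 56 11 (.dbl 24 27 40)))) (.nv (.thr 8 59 (.dbl 9 11 57)) (.rp 59 (.thr 9 57 (.thr 11 8 (.dbl 26 56 58))) (.rp 11 (.thr 57 9 (.thr 58 26 (.dbl 59 8 56))) (.rp 8 (.thr 26 58 (.thr 31 16 (.thr 11 56 (.thr 15 3 (.dbl 63 0 47))))) .nd)))))) .nd)))))))) .nd)))))) .nd))))))))))))))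

theorem w165 : WinAt (2199025352706, 2305843009213710340) :=
  chF (K := []) kn c165 2199025352706 2305843009213710340 61
    [17476] (by decide +kernel) (by decide +kernel)

/-- A certificate. -/
noncomputable def c166 : Ct := (.str 37 (.nv (.thr 5 53 (.thr 13 9 (.thr 49 25 (.dbl 33 17 45)))) (.rp 57 (.thr 33 45 (.thr 5 53 (.thr 49 17 (.dbl 13 9 25)))) (.rp 53 (.str 49 (.nv (.dbl 33 17 45) (.rp 45 (.thr 17 33 (.dbl 25 13 29)) (.rp 33 (.str 3 (.nv (.thr 25 13 (.thr 9 57 (.thr 12 6 (.thr 38 51 (.thr 44 35 (.dbl 60 22 28)))))) (.nv (.thr 22 60 (.thr 20 23 (.thr 25 13 (.thr 28 19 (.thr 16 24 (.thr 29 17 (.dbl 31 26 30))))))) (.nv (.thr 13 25 (.thr 5 9 (.thr 22 60 (.thr 7 52 (.thr 23 20 (.thr 55 39 (.dbl 4 6 38))))))) (.nv (.thr 25 13 (.thr 9 57 (.thr 29 17 (.thr 12 6 (.thr 63 46 (.thr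 43 23 (.dbl 42 0 40))))))) (.rp 45 (.thr 25 13 (.thr 29 17 (.thr 9 57 (.thr 12 6 (.thr 63 46 (.thr 43 23 (.dbl 42 0 40))))))) (.rp 25 (.thr 22 60 (.thr 7 52 (.thr 23 20 (.thr 63 43 (.thr 55 39 (.thr 51 59 (.thr 35 19 (.dbl 38 4 44)))))))) (.rp 13 (.thr 22 60 (.thr 7 52 (.thr 23 20 (.thr 63 43 (.thr 55 39 (.thr 51 59 (.thr 35 19 (.dbl 38 4 44)))))))) .nd)))))))) (.rp 17 (.str 4 (.nv (.thr 13 25 (.thr 5 9 (.thr 7 6 (.thr 22 52 (.thr 55 38 (.dbl 23 20 39)))))) (.nv (.thr 33 45 (.thr 38 55 (.thr 35 44 (.thr 39 36 (.thr 47 43 (.dbl 32 34 42)))))) (.nv (.thr 13 25 (.thr 5 9 (.thr 38 55 (.thr 36 39 (.thr 52 20 (.dbl 7 6 22)))))) (.rp 55 (.thr 13 25 (.thr 5 9 (.thr 45 33 (.thr 7 6 (.thr 52 22 (.thr 36 20 (.thr 38 39 (.thr 44 35 (.thr 32 40 (.dbl 47 42 46)))))))))) (.rp 52 (.thr 13 25 (.thr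 5 9 (.thr 33 45 (.thr 6 7 (.thr 38 55 (.thr 54 22 (.thr 39 36 (.thr 35 44 (.thr 47 43 (.dbl 32 34 42)))))))))) (.rp 39 (.thr 13 25 (.thr 5 9 (.thr 45 33 (.thr 7 6 (.thr 52 22 (.thr 36 20 (.thr 38 55 (.thr 44 35 (.thr 32 40 (.dbl 47 42 46)))))))))) (.rp 38 (.thr 13 25 (.thr 5 9 (.thr 7 6 (.thr 22 52 (.thr 23 20 (.thr 55 39 (.thr 3 60 (.thr 63 43 (.thr 51 59 (.thr 48 50 (.dbl 33 18 45))))))))))) (.rp 13 (.thr 45 33 (.thr 38 55 (.thr 36 39 (.thr 44 35 (.thr 32 40 (.dbl 47 42 46)))))) .nd))))))))) .nd))))) (.rp 49 (.str 47 (.nv (.thr 53 5 (.thr 32 42 (.thr 33 45 (.thr 35 34 (.thr 38 44 (.dbl 39 36 43)))))) (.nv (.thr 33 45 (.thr 42 32 (.thr 43 40 (.thr 63 0 (.thr 3 23 (.thr 48 18 (.dbl 53 5 58))))))) (.nv (.thr 45 33 (.thr 44 46 (.thr 35 38 (.thr 42 32 (.dbl 43 39 40))))) (.rp 53 (.str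 57 (.nv (.thr 25 9 (.thr 29 17 (.thr 42 32 (.thr 45 33 (.thr 63 0 (.dbl 46 12 44)))))) (.nv (.thr 25 9 (.thr 42 32 (.thr 59 8 (.thr 56 58 (.thr 11 26 (.dbl 43 27 40)))))) (.nv (.thr 45 33 (.thr 44 46 (.thr 35 38 (.thr 42 32 (.dbl 43 39 40))))) (.rp 42 (.thr 45 33 (.thr 9 25 (.thr 5 13 (.thr 44 46 (.thr 38 35 (.thr 36 39 (.thr 4 55 (.thr 52 20 (.dbl 7 6 22))))))))) (.rp 32 (.thr 45 33 (.thr 25 9 (.thr 44 46 (.thr 35 38 (.thr 43 39 (.thr 42 40 (.thr 59 8 (.thr 56 58 (.dbl 11 26 27))))))))) .nd)))))) (.rp 45 (.thr 42 32 (.thr 43 40 (.thr 39 35 (.thr 63 0 (.thr 23 3 (.thr 7 55 (.dbl 22 20 52))))))) (.rp 44 (.thr 33 45 (.thr 53 5 (.thr 32 42 (.thr 35 34 (.thr 39 43 (.thr 38 36 (.thr 55 4 (.thr 7 23 (.dbl 52 22 54))))))))) (.rp 43 (.thr 45 33 (.thr 44 46 (.thr 38 35 (.thr 36 39 (.dbl 32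 40 42))))) (.rp 42 (.thr 45 33 (.thr 53 5 (.thr 44 46 (.thr 38 35 (.thr 39 36 (.thr 55 4 (.thr 7 23 (.dbl 52 22 54)))))))) (.rp 33 (.thr 42 32 (.thr 43 40 (.thr 35 39 (.thr 63 0 (.thr 3 23 (.thr 51 19 (.thr 55 59 (.dbl 38 4 44)))))))) (.rp 32 (.thr 45 33 (.thr 44 46 (.thr 35 38 (.thr 43 39 (.thr 42 40 (.thr 63 0 (.thr 3 23 (.thr 51 19 (.thr 55 59 (.thr 60 22 (.thr 54 57 (.dbl 53 5 52)))))))))))) .nd))))))))))) (.rp 45 (.str 13 (.nv (.dbl 5 9 53) (.rp 60 (.str 30 (.nv (.dbl 5 9 53) (.rp 63 (.str 62 (.nv (.dbl 5 9 53) (.rp 53 (.thr 9 5 (.dbl 25 49 57)) (.rp 47 (.str 31 (.nv (.thr 29 28 (.dbl 25 17 49)) (.nv (.dbl 5 9 53) (.rp 46 (.str 44 (.nv (.thr 29 28 (.dbl 25 17 49)) (.nv (.dbl 5 9 53) (.rp 29 (.str 12 (.nv (.thr 38 35 (.dbl 25 49 51)) (.nv (.dbl 5 9 53) .nd))) .nd)))) (.rp 44 (.thr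 46 14 (.dbl 5 9 53)) .nd))))) (.rp 31 (.str 47 (.nv (.dbl 5 9 53) (.rp 53 (.thr 9 5 (.dbl 25 49 57)) (.rp 9 (.thr 46 14 (.thr 42 32 (.thr 38 34 (.thr 35 44 (.dbl 39 36 43))))) (.rp 5 (.thr 46 14 (.thr 42 32 (.thr 38 34 (.thr 35 44 (.dbl 39 36 43))))) .nd))))) (.rp 9 (.thr 53 5 (.thr 25 49 (.thr 29 17 (.thr 14 46 (.thr 31 28 (.thr 26 16 (.thr 38 50 (.thr 55 4 (.thr 54 52 (.dbl 22 6 18)))))))))) (.rp 5 (.thr 25 49 (.thr 57 9 (.thr 29 17 (.thr 14 46 (.thr 31 28 (.thr 26 16 (.thr 50 38 (.thr 58 54 (.dbl 56 11 59))))))))) .nd))))))) (.rp 62 (.str 63 (.nv (.dbl 5 9 53) (.rp 53 (.thr 9 5 (.dbl 25 49 57)) (.rp 42 (.str 22 (.nv (.thr 25 49 (.thr 28 19 (.dbl 29 17 31))) (.nv (.dbl 5 9 53) (.rp 53 (.thr 9 5 (.dbl 25 49 57)) .nd)))) (.rp 22 (.thr 42 0 (.dbl 5 9 53)) (.rp 9 (.thr 25 49 (.thr 29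 17 (.thr 12 46 (.thr 51 38 (.thr 59 55 (.dbl 42 0 8)))))) (.rp 5 (.thr 25 49 (.thr 29 17 (.thr 12 46 (.thr 51 38 (.thr 59 55 (.dbl 42 0 8)))))) .nd))))))) (.rp 53 (.thr 9 5 (.dbl 25 49 57)) (.rp 9 (.thr 53 5 (.thr 25 49 (.thr 29 17 (.thr 28 31 (.thr 22 19 (.thr 52 7 (.thr 55 54 (.thr 4 38 (.dbl 20 23 36))))))))) (.rp 5 (.thr 25 49 (.thr 57 9 (.thr 29 17 (.thr 31 28 (.thr 26 16 (.thr 56 11 (.thr 24 27 (.thr 8 40 (.dbl 59 42 58))))))))) .nd))))))) (.rp 53 (.thr 9 5 (.dbl 25 49 57)) (.rp 30 (.str 60 (.nv (.dbl 5 9 53) (.rp 53 (.thr 9 5 (.dbl 25 49 57)) (.rp 9 (.thr 5 53 (.thr 22 3 (.thr 7 52 (.thr 23 20 (.thr 55 39 (.dbl 4 6 38)))))) (.rp 5 (.thr 25 49 (.thr 57 9 (.thr 51 54 (.thr 12 38 (.thr 28 44 (.dbl 22 3 19)))))) .nd))))) (.rp 9 (.str 63 (.nv (.thr 5 53 (.thr 42 0 (.thr 43 40 (.thr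 23 3 (.thr 47 32 (.thr 39 35 (.thr 7 55 (.dbl 22 20 52)))))))) (.nv (.thr 25 49 (.thr 29 17 (.thr 12 46 (.thr 53 5 (.thr 48 58 (.thr 36 24 (.dbl 38 39 51))))))) (.nv (.thr 25 49 (.thr 29 17 (.thr 12 46 (.thr 51 38 (.thr 59 55 (.dbl 42 0 8)))))) (.nv (.thr 53 5 (.thr 49 25 (.thr 17 33 (.thr 48 58 (.thr 51 50 (.dbl 0 34 42)))))) (.rp 60 (.str 30 (.nv (.thr 0 42 (.thr 25 49 (.thr 29 17 (.thr 31 28 (.thr 16 26 (.thr 48 32 (.dbl 53 5 58))))))) (.nv (.thr 25 49 (.thr 29 17 (.thr 12 46 (.thr 51 38 (.thr 59 55 (.dbl 42 0 8)))))) (.nv (.thr 53 5 (.thr 49 25 (.thr 17 33 (.thr 48 58 (.thr 51 50 (.dbl 0 34 42)))))) (.rp 53 (.thr 49 25 (.thr 33 17 (.thr 42 0 (.thr 40 43 (.thr 32 47 (.thr 44 36 (.dbl 35 34 38))))))) (.rp 49 (.thr 53 5 (.thr 48 58 (.thr 0 42 (.thr 16 32 (.thr 26 31 (.thr 22 18 (.thr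 52 7 (.thr 55 54 (.thr 20 23 (.dbl 4 36 38)))))))))) (.rp 42 (.thr 53 5 (.thr 25 49 (.thr 29 17 (.thr 12 46 (.thr 38 51 (.thr 48 58 (.dbl 36 24 39))))))) (.rp 25 (.thr 53 5 (.thr 48 58 (.thr 0 42 (.thr 16 32 (.thr 26 31 (.thr 22 18 (.thr 52 7 (.thr 55 54 (.thr 20 23 (.dbl 4 36 38)))))))))) (.rp 17 (.thr 25 49 (.thr 42 0 (.thr 40 43 (.thr 59 8 (.thr 51 55 (.thr 32 47 (.thr 44 36 (.dbl 38 12 35)))))))) (.rp 0 (.thr 25 49 (.thr 29 17 (.thr 31 28 (.thr 12 46 (.thr 26 16 (.thr 24 27 (.thr 48 36 (.dbl 53 5 58)))))))) .nd)))))))))) (.rp 53 (.thr 49 25 (.thr 33 17 (.thr 42 0 (.thr 32 47 (.thr 40 43 (.thr 44 36 (.dbl 35 34 38))))))) (.rp 51 (.thr 53 5 (.thr 49 25 (.thr 33 17 (.thr 48 58 (.thr 3 18 (.thr 23 43 (.dbl 22 20 60))))))) (.rp 49 (.thr 42 0 (.thr 47 32 (.thr 43 40 (.thr 23 3 (.thr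 39 35 (.thr 7 55 (.dbl 22 20 52))))))) (.rp 30 (.str 60 (.nv (.thr 22 3 (.thr 25 49 (.thr 28 19 (.thr 12 44 (.dbl 29 17 46))))) (.nv (.thr 0 42 (.thr 20 40 (.dbl 22 3 23))) (.rp 22 (.thr 25 49 (.thr 29 17 (.thr 12 46 (.thr 44 28 (.dbl 38 35 51))))) (.rp 3 (.thr 25 49 (.thr 29 17 (.thr 12 46 (.thr 44 28 (.dbl 38 35 51))))) .nd))))) (.rp 0 (.thr 25 49 (.thr 29 17 (.thr 12 46 (.thr 51 38 (.thr 59 55 (.thr 42 8 (.thr 47 32 (.thr 43 40 (.thr 3 23 (.dbl 35 19 39)))))))))) .nd))))))))))) (.rp 5 (.str 60 (.nv (.thr 25 49 (.thr 17 29 (.thr 57 9 (.thr 51 54 (.thr 0 34 (.thr 40 20 (.dbl 42 43 63))))))) (.nv (.thr 22 3 (.thr 23 20 (.thr 25 49 (.thr 17 29 (.thr 19 28 (.thr 16 18 (.dbl 31 26 27))))))) (.nv (.thr 3 22 (.thr 25 49 (.thr 57 9 (.thr 51 54 (.thr 38 12 (.dbl 35 19 44)))))) (.rp 57 (.thr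 49 25 (.thr 33 17 (.thr 3 22 (.thr 48 18 (.thr 56 52 (.thr 26 11 (.thr 16 31 (.thr 0 32 (.thr 40 20 (.dbl 42 43 63)))))))))) (.rp 49 (.thr 22 3 (.thr 20 23 (.thr 0 40 (.thr 7 52 (.thr 63 42 (.str 57 (.nv (.thr 25 9 (.thr 29 17 (.thr 12 46 (.dbl 28 19 44)))) (.nv (.thr 51 54 (.thr 55 59 (.thr 38 4 (.thr 44 35 (.dbl 12 25 28))))) (.nv (.thr 25 9 (.thr 17 29 (.dbl 51 34 54))) (.rp 25 (.str 59 (.nv (.dbl 51 54 55) (.rp 55 (.thr 54 51 (.thr 56 58 (.thr 26 11 (.thr 16 31 (.thr 28 24 (.thr 44 12 (.dbl 38 6 35))))))) (.rp 54 (.thr 55 51 (.thr 56 58 (.thr 26 11 (.thr 16 31 (.thr 28 24 (.thr 12 44 (.dbl 4 8 38))))))) (.rp 51 (.thr 56 58 (.thr 26 11 (.thr 16 31 (.thr 28 24 (.thr 12 44 (.thr 4 8 (.thr 30 18 (.thr 38 55 (.thr 46 29 (.dbl 14 50 62)))))))))) .nd))))) (.rp 12 (.thr 51 54 (.thr 17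 34 (.dbl 25 9 29))) .nd))))))))))) (.rp 25 (.str 0 (.nv (.thr 40 20 (.dbl 42 43 63)) (.nv (.thr 20 40 (.dbl 22 3 23)) (.rp 40 (.thr 22 3 (.thr 7 52 (.thr 23 20 (.thr 39 55 (.thr 42 63 (.thr 47 32 (.thr 35 43 (.dbl 38 36 44)))))))) (.rp 20 (.thr 22 3 (.thr 7 52 (.thr 42 63 (.thr 47 32 (.thr 43 40 (.thr 39 35 (.thr 55 23 (.dbl 38 4 36)))))))) .nd))))) (.rp 10 (.str 0 (.nv (.thr 25 49 (.thr 17 29 (.thr 51 34 (.dbl 57 9 54)))) (.nv (.thr 20 40 (.dbl 22 3 23)) (.rp 14 (.str 6 (.nv (.thr 25 49 (.thr 17 29 (.thr 51 34 (.dbl 57 9 54)))) (.nv (.thr 20 40 (.dbl 22 3 23)) .nd))) (.rp 6 (.str 14 (.nv (.thr 25 49 (.thr 17 29 (.thr 51 34 (.dbl 57 9 54)))) (.nv (.thr 20 40 (.dbl 22 3 23)) (.rp 7 (.str 4 (.nv (.thr 8 12 (.thr 25 49 (.dbl 42 59 63))) (.nv (.thr 20 40 (.dbl 22 3 23)) (.rp 11 (.thr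 3 22 (.thr 40 20 (.dbl 42 43 63))) (.rp 3 (.str 11 (.nv (.thr 12 8 (.thr 25 49 (.dbl 38 51 55))) (.nv (.thr 40 20 (.dbl 42 43 63)) (.rp 12 (.str 9 (.nv (.thr 26 56 (.dbl 38 50 55)) (.nv (.dbl 25 49 57) .nd))) .nd)))) .nd))))) (.rp 4 (.str 7 (.nv (.thr 42 63 (.dbl 40 20 43)) (.nv (.dbl 22 3 52) .nd))) .nd))))) .nd))))) (.rp 0 (.str 10 (.nv (.thr 22 3 (.thr 7 52 (.thr 23 20 (.thr 25 49 (.thr 55 39 (.thr 57 9 (.thr 51 54 (.dbl 38 4 12)))))))) (.nv (.thr 22 3 (.thr 7 52 (.thr 23 20 (.thr 25 49 (.thr 17 29 (.thr 19 28 (.thr 16 18 (.dbl 31 26 27)))))))) (.nv (.thr 25 49 (.thr 57 9 (.thr 51 54 (.thr 12 38 (.thr 22 3 (.dbl 28 19 44)))))) (.rp 57 (.thr 49 25 (.thr 33 17 (.thr 3 22 (.thr 48 18 (.thr 56 52 (.thr 26 11 (.thr 42 58 (.thr 32 47 (.thr 40 43 (.thr 44 36 (.dbl 35 34 38)))))))))))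 (.rp 49 (.str 57 (.nv (.thr 9 25 (.thr 22 3 (.thr 52 7 (.thr 11 8 (.dbl 56 26 48))))) (.nv (.thr 22 3 (.thr 7 52 (.thr 23 20 (.thr 39 55 (.thr 54 51 (.dbl 38 6 36)))))) (.nv (.thr 22 3 (.thr 51 54 (.thr 25 9 (.thr 12 38 (.dbl 28 19 44))))) (.rp 22 (.thr 25 9 (.thr 51 54 (.thr 38 12 (.thr 36 39 (.thr 4 55 (.thr 52 20 (.thr 56 48 (.thr 26 11 (.dbl 58 42 59))))))))) (.rp 7 (.thr 25 9 (.thr 3 22 (.thr 51 54 (.thr 38 12 (.dbl 35 19 44))))) (.rp 3 (.thr 25 9 (.thr 29 17 (.thr 51 54 (.thr 12 38 (.thr 63 46 (.thr 59 55 (.thr 42 8 (.dbl 58 26 56)))))))) .nd))))))) (.rp 25 (.str 36 (.nv (.thr 22 3 (.thr 20 23 (.dbl 52 4 7))) (.nv (.thr 22 3 (.thr 7 52 (.thr 23 20 (.dbl 39 38 55)))) (.rp 52 (.thr 22 3 (.thr 20 23 (.thr 38 39 (.thr 44 35 (.thr 40 32 (.thr 28 12 (.thr 16 24 (.thr 26 31 (.dbl 42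 43 58))))))))) (.rp 23 (.thr 22 3 (.thr 38 39 (.thr 44 35 (.thr 12 28 (.thr 48 24 (.dbl 52 7 56)))))) (.rp 22 (.thr 38 39 (.thr 44 35 (.thr 4 55 (.thr 52 20 (.thr 48 56 (.dbl 12 24 28)))))) (.rp 20 (.thr 22 3 (.thr 7 52 (.thr 38 39 (.thr 54 6 (.thr 44 35 (.thr 40 32 (.thr 12 28 (.thr 55 4 (.thr 51 57 (.thr 63 59 (.thr 46 29 (.dbl 42 34 43)))))))))))) (.rp 7 (.thr 38 39 (.thr 44 35 (.thr 12 28 (.thr 48 24 (.thr 52 56 (.dbl 4 20 55)))))) (.rp 3 (.thr 38 39 (.thr 44 35 (.thr 12 28 (.thr 48 24 (.thr 52 56 (.dbl 4 20 55)))))) .nd))))))))) (.rp 22 (.thr 25 49 (.thr 57 9 (.thr 51 54 (.thr 38 12 (.thr 36 39 (.thr 4 55 (.thr 52 20 (.thr 56 48 (.thr 26 11 (.dbl 58 42 59)))))))))) (.rp 7 (.thr 25 49 (.thr 57 9 (.thr 3 22 (.thr 51 54 (.thr 38 12 (.dbl 35 19 44)))))) (.rp 3 (.thr 25 49 (.thr 29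 17 (.thr 57 9 (.thr 51 54 (.thr 12 38 (.thr 63 46 (.thr 59 55 (.thr 42 8 (.dbl 58 26 56))))))))) .nd)))))))))) .nd))))))))) .nd))))))) (.rp 33 (.str 22 (.nv (.thr 3 60 (.thr 5 53 (.thr 7 52 (.thr 9 13 (.dbl 6 4 12))))) (.nv (.thr 7 52 (.thr 23 20 (.thr 55 39 (.thr 4 38 (.dbl 5 6 53))))) (.rp 55 (.thr 53 5 (.thr 20 23 (.thr 60 3 (.thr 0 40 (.thr 63 42 (.thr 48 58 (.dbl 52 7 56))))))) (.rp 53 (.thr 23 20 (.thr 7 52 (.thr 55 39 (.thr 3 60 (.thr 63 43 (.thr 51 59 (.thr 35 19 (.dbl 38 4 44)))))))) (.rp 52 (.thr 5 53 (.thr 23 20 (.thr 3 60 (.thr 9 13 (.thr 12 6 (.thr 63 43 (.thr 29 46 (.dbl 25 17 57)))))))) (.rp 7 (.thr 5 53 (.thr 23 20 (.thr 3 60 (.thr 9 13 (.thr 12 6 (.thr 63 43 (.thr 29 46 (.dbl 25 17 57)))))))) (.rp 6 (.thr 53 5 (.thr 20 23 (.thr 52 7 (.thr 4 36 (.dbl 55 38 54)))))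 (.rp 5 (.thr 23 20 (.thr 7 52 (.thr 55 39 (.thr 3 60 (.thr 63 43 (.thr 51 59 (.thr 35 19 (.dbl 38 4 44)))))))) (.rp 4 (.thr 53 5 (.thr 20 23 (.thr 60 3 (.thr 0 40 (.thr 63 42 (.thr 48 58 (.dbl 52 7 56))))))) .nd)))))))))) (.rp 25 (.str 47 (.nv (.thr 32 42 (.thr 45 33 (.thr 44 46 (.thr 38 35 (.dbl 36 39 40))))) (.nv (.thr 33 45 (.thr 32 42 (.thr 35 34 (.thr 38 44 (.dbl 39 36 43))))) (.nv (.thr 42 32 (.thr 45 33 (.thr 43 40 (.thr 44 46 (.dbl 35 38 39))))) (.rp 45 (.thr 42 32 (.thr 43 40 (.thr 39 35 (.thr 63 0 (.thr 23 3 (.thr 7 55 (.dbl 22 20 52))))))) (.rp 44 (.thr 33 45 (.thr 53 5 (.thr 32 42 (.thr 35 34 (.thr 39 43 (.thr 38 36 (.thr 55 4 (.thr 7 23 (.dbl 52 22 54))))))))) (.rp 42 (.thr 45 33 (.thr 5 53 (.thr 44 46 (.thr 38 35 (.thr 36 39 (.thr 4 55 (.thr 52 20 (.dbl 7 6 22))))))))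 (.rp 39 (.thr 33 45 (.thr 42 32 (.thr 43 40 (.thr 63 0 (.thr 3 23 (.thr 48 18 (.dbl 53 5 58))))))) (.rp 38 (.thr 33 45 (.thr 42 32 (.thr 43 40 (.thr 63 0 (.thr 3 23 (.thr 48 18 (.dbl 53 5 58))))))) (.rp 35 (.thr 33 45 (.thr 42 32 (.thr 43 40 (.thr 63 0 (.thr 3 23 (.thr 48 18 (.dbl 53 5 58))))))) (.rp 33 (.thr 42 32 (.thr 43 40 (.thr 35 39 (.thr 63 0 (.thr 3 23 (.thr 51 19 (.thr 55 59 (.dbl 38 4 44)))))))) (.rp 32 (.thr 45 33 (.thr 5 53 (.thr 9 13 (.thr 44 46 (.thr 35 38 (.thr 43 39 (.thr 42 40 (.thr 63 0 (.thr 3 23 (.thr 12 6 (.dbl 60 22 28))))))))))) .nd)))))))))))) (.rp 17 (.str 47 (.nv (.thr 33 45 (.thr 32 42 (.thr 35 34 (.thr 38 44 (.dbl 39 36 43))))) (.nv (.thr 45 33 (.thr 44 46 (.thr 35 38 (.thr 42 32 (.dbl 43 39 40))))) (.rp 45 (.thr 42 32 (.thr 43 40 (.thr 39 35 (.thr 63 0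 (.thr 23 3 (.thr 7 55 (.dbl 22 20 52))))))) (.rp 44 (.thr 33 45 (.thr 53 5 (.thr 32 42 (.thr 35 34 (.thr 39 43 (.thr 38 36 (.thr 55 4 (.thr 7 23 (.dbl 52 22 54))))))))) (.rp 43 (.thr 45 33 (.thr 44 46 (.thr 38 35 (.thr 36 39 (.dbl 32 40 42))))) (.rp 42 (.thr 45 33 (.thr 5 53 (.thr 44 46 (.thr 38 35 (.thr 36 39 (.thr 4 55 (.thr 52 20 (.dbl 7 6 22)))))))) (.rp 39 (.thr 33 45 (.thr 42 32 (.thr 43 40 (.thr 63 0 (.thr 3 23 (.thr 48 18 (.dbl 53 5 58))))))) (.rp 38 (.thr 33 45 (.thr 42 32 (.thr 43 40 (.thr 63 0 (.thr 3 23 (.thr 48 18 (.dbl 53 5 58))))))) (.rp 35 (.thr 33 45 (.thr 42 32 (.thr 43 40 (.thr 63 0 (.thr 3 23 (.thr 48 18 (.dbl 53 5 58))))))) (.rp 33 (.thr 42 32 (.thr 43 40 (.thr 35 39 (.thr 63 0 (.thr 3 23 (.thr 51 19 (.thr 55 59 (.dbl 38 4 44)))))))) (.rp 32 (.thr 45 33 (.thr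 5 53 (.thr 9 13 (.thr 44 46 (.thr 35 38 (.thr 43 39 (.thr 42 40 (.thr 63 0 (.thr 3 23 (.thr 12 6 (.dbl 60 22 28))))))))))) .nd)))))))))))) (.rp 13 (.thr 45 33 (.str 44 (.nv (.thr 38 35 (.thr 39 36 (.thr 53 5 (.thr 55 4 (.thr 7 23 (.dbl 52 22 54)))))) (.nv (.thr 35 38 (.thr 47 46 (.thr 42 32 (.dbl 43 39 40)))) (.rp 39 (.thr 5 53 (.thr 47 46 (.thr 32 42 (.thr 36 40 (.thr 38 35 (.thr 4 55 (.thr 52 20 (.dbl 7 6 22)))))))) (.rp 38 (.thr 5 53 (.thr 47 46 (.thr 42 32 (.thr 40 43 (.thr 0 63 (.thr 60 20 (.thr 12 28 (.thr 4 8 (.thr 7 6 (.dbl 22 3 52)))))))))) (.rp 35 (.thr 5 53 (.thr 47 46 (.thr 32 42 (.thr 36 40 (.thr 38 39 (.thr 4 55 (.thr 52 20 (.dbl 7 6 22)))))))) (.rp 32 (.thr 53 5 (.thr 46 47 (.thr 38 35 (.thr 34 42 (.thr 39 36 (.thr 55 4 (.thr 7 23 (.dbl 52 22 54)))))))) (.rp 14 (.str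 12 (.nv (.thr 38 35 (.thr 25 51 (.thr 9 57 (.thr 60 28 (.dbl 3 6 22))))) (.nv (.thr 46 47 (.thr 63 29 (.thr 42 0 (.dbl 38 34 35)))) (.rp 38 (.thr 60 28 (.thr 47 46 (.thr 42 32 (.thr 40 43 (.dbl 0 20 63))))) (.rp 35 (.thr 60 28 (.thr 47 46 (.thr 32 42 (.thr 40 36 (.thr 20 0 (.dbl 22 3 23)))))) (.rp 34 (.thr 47 46 (.thr 32 42 (.thr 38 35 (.dbl 36 39 40)))) (.rp 10 (.str 6 (.nv (.thr 5 53 (.thr 38 35 (.dbl 4 7 55))) (.nv (.thr 60 28 (.dbl 3 9 22)) (.rp 5 (.str 0 (.nv (.thr 38 35 (.dbl 4 8 55)) (.nv (.thr 60 28 (.dbl 3 9 22)) .nd))) .nd)))) (.rp 6 (.str 10 (.nv (.thr 46 47 (.thr 53 5 (.thr 63 29 (.thr 42 0 (.dbl 58 26 48))))) (.nv (.thr 38 35 (.thr 4 55 (.thr 8 0 (.thr 9 11 (.dbl 25 51 57))))) (.nv (.thr 46 47 (.thr 63 29 (.thr 42 0 (.dbl 38 34 35)))) (.rp 0 (.thr 46 47 (.thr 38 35 (.thr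 25 51 (.dbl 29 17 63)))) .nd))))) .nd)))))))) (.rp 12 (.str 14 (.nv (.thr 5 53 (.thr 38 35 (.thr 4 55 (.thr 7 6 (.thr 52 22 (.dbl 36 20 39)))))) (.nv (.thr 47 46 (.thr 42 32 (.thr 43 40 (.dbl 35 38 39)))) (.rp 42 (.thr 5 53 (.thr 38 35 (.thr 36 39 (.thr 4 55 (.thr 52 20 (.dbl 7 6 22)))))) (.rp 39 (.thr 53 5 (.thr 38 35 (.thr 50 26 (.thr 55 4 (.thr 54 52 (.thr 62 58 (.dbl 46 30 47))))))) (.rp 38 (.thr 47 46 (.thr 42 32 (.thr 43 40 (.thr 35 39 (.thr 63 0 (.thr 3 23 (.thr 60 22 (.thr 51 19 (.thr 54 57 (.thr 55 59 (.dbl 53 5 52))))))))))) (.rp 35 (.thr 5 53 (.thr 47 46 (.thr 32 42 (.thr 36 40 (.thr 38 39 (.thr 4 55 (.thr 52 20 (.dbl 7 6 22)))))))) (.rp 34 (.thr 47 46 (.thr 32 42 (.thr 38 35 (.dbl 36 39 40)))) (.rp 32 (.thr 53 5 (.thr 46 47 (.thr 62 30 (.thr 38 35 (.thr 34 42 (.thr 50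 26 (.thr 55 4 (.dbl 54 52 58)))))))) .nd))))))))) .nd)))))))))) (.rp 9 (.str 47 (.nv (.thr 33 45 (.thr 32 42 (.thr 35 34 (.thr 38 44 (.dbl 39 36 43))))) (.nv (.thr 45 33 (.thr 44 46 (.thr 35 38 (.thr 42 32 (.dbl 43 39 40))))) (.rp 45 (.thr 42 32 (.thr 43 40 (.thr 39 35 (.thr 63 0 (.thr 23 3 (.thr 7 55 (.dbl 22 20 52))))))) (.rp 44 (.thr 33 45 (.thr 53 5 (.thr 32 42 (.thr 35 34 (.thr 39 43 (.thr 38 36 (.thr 55 4 (.thr 7 23 (.dbl 52 22 54))))))))) (.rp 43 (.thr 45 33 (.thr 44 46 (.thr 38 35 (.thr 36 39 (.dbl 32 40 42))))) (.rp 42 (.thr 45 33 (.thr 5 53 (.thr 44 46 (.thr 38 35 (.thr 36 39 (.thr 4 55 (.thr 52 20 (.dbl 7 6 22)))))))) (.rp 39 (.thr 33 45 (.thr 42 32 (.thr 43 40 (.thr 63 0 (.thr 3 23 (.thr 48 18 (.dbl 53 5 58))))))) (.rp 38 (.thr 33 45 (.thr 42 32 (.thr 43 40 (.thr 63 0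 (.thr 3 23 (.thr 48 18 (.dbl 53 5 58))))))) (.rp 35 (.thr 33 45 (.thr 42 32 (.thr 43 40 (.thr 63 0 (.thr 3 23 (.thr 48 18 (.dbl 53 5 58))))))) (.rp 33 (.thr 42 32 (.thr 43 40 (.thr 35 39 (.thr 63 0 (.thr 3 23 (.thr 51 19 (.thr 55 59 (.dbl 38 4 44)))))))) (.rp 32 (.thr 45 33 (.thr 44 46 (.thr 35 38 (.thr 43 39 (.thr 42 40 (.thr 63 0 (.thr 3 23 (.thr 51 19 (.thr 55 59 (.thr 60 22 (.thr 54 57 (.dbl 53 5 52)))))))))))) .nd)))))))))))) (.rp 5 (.str 42 (.nv (.thr 0 63 (.thr 33 45 (.thr 40 43 (.thr 60 20 (.thr 3 22 (.thr 48 18 (.dbl 32 16 47))))))) (.nv (.thr 0 63 (.thr 33 45 (.thr 17 49 (.thr 34 51 (.dbl 32 35 47))))) (.nv (.thr 43 40 (.thr 45 33 (.thr 47 32 (.thr 44 46 (.dbl 35 38 39))))) (.rp 47 (.str 26 (.nv (.thr 31 16 (.thr 10 58 (.thr 43 40 (.thr 11 56 (.thr 59 27 (.dbl 8 9 25))))))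 (.nv (.thr 0 63 (.thr 31 16 (.thr 33 45 (.thr 17 49 (.thr 34 51 (.thr 35 32 (.dbl 38 44 46))))))) (.nv (.thr 10 58 (.thr 11 56 (.thr 8 9 (.thr 43 40 (.dbl 59 25 27))))) (.rp 59 (.thr 10 58 (.thr 43 40 (.thr 63 0 (.thr 3 23 (.thr 33 45 (.thr 18 48 (.dbl 22 30 60))))))) (.rp 31 (.thr 63 0 (.thr 10 58 (.thr 43 40 (.thr 11 56 (.thr 59 27 (.dbl 8 9 25)))))) (.rp 27 (.thr 10 58 (.thr 11 56 (.thr 9 8 (.thr 33 45 (.thr 17 49 (.dbl 25 29 57)))))) .nd))))))) (.rp 45 (.thr 0 63 (.thr 47 32 (.thr 40 43 (.thr 60 20 (.thr 3 22 (.str 25 (.nv (.thr 29 17 (.thr 9 57 (.thr 12 6 (.dbl 8 4 59)))) (.nv (.thr 13 49 (.thr 57 9 (.thr 17 29 (.dbl 51 34 54)))) (.nv (.thr 8 59 (.thr 12 4 (.thr 44 28 (.dbl 38 35 51)))) (.nv (.thr 57 9 (.thr 51 54 (.dbl 17 29 34))) (.rp 29 (.thr 13 49 (.thr 8 59 (.thr 12 4 (.dbl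 9 6 57)))) .nd))))))))))) (.rp 34 (.thr 45 33 (.thr 43 40 (.thr 47 32 (.thr 35 39 (.dbl 44 38 46))))) (.rp 33 (.str 10 (.nv (.thr 0 63 (.thr 26 58 (.thr 40 43 (.thr 56 11 (.thr 60 20 (.thr 48 52 (.dbl 16 31 32))))))) (.nv (.thr 43 40 (.thr 26 58 (.thr 11 56 (.thr 8 9 (.dbl 59 25 27))))) (.rp 59 (.thr 43 40 (.thr 47 32 (.thr 35 39 (.thr 44 38 (.thr 46 45 (.thr 63 0 (.thr 3 23 (.thr 60 22 (.dbl 12 28 29))))))))) (.rp 58 (.thr 43 40 (.thr 47 32 (.thr 35 39 (.thr 63 0 (.thr 3 23 (.thr 51 19 (.thr 55 59 (.dbl 38 4 44)))))))) (.rp 56 (.thr 43 40 (.thr 47 32 (.thr 35 39 (.thr 63 0 (.thr 3 23 (.thr 51 19 (.thr 55 59 (.dbl 38 4 44)))))))) (.rp 43 (.thr 0 63 (.thr 26 58 (.thr 11 56 (.thr 8 9 (.thr 4 12 (.thr 38 55 (.thr 36 39 (.thr 20 52 (.thr 60 40 (.dbl 22 3 23)))))))))) (.rp 40 (.thr 47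 32 (.thr 0 63 (.thr 26 58 (.thr 11 56 (.thr 8 9 (.thr 4 12 (.thr 38 55 (.thr 59 25 (.thr 43 27 (.dbl 39 35 36)))))))))) (.rp 27 (.thr 43 40 (.thr 47 32 (.thr 0 63 (.thr 26 58 (.thr 11 56 (.thr 8 9 (.thr 4 12 (.thr 38 55 (.dbl 39 35 36))))))))) (.rp 26 (.thr 43 40 (.thr 47 32 (.thr 35 39 (.thr 63 0 (.thr 3 23 (.thr 51 19 (.thr 55 59 (.dbl 38 4 44)))))))) (.rp 11 (.thr 43 40 (.thr 47 32 (.thr 35 39 (.thr 63 0 (.thr 3 23 (.thr 51 19 (.thr 55 59 (.dbl 38 4 44)))))))) .nd))))))))))) (.rp 32 (.thr 33 45 (.thr 40 43 (.thr 0 63 (.thr 17 49 (.thr 51 34 (.thr 60 20 (.thr 57 54 (.dbl 25 9 29)))))))) (.rp 0 (.str 10 (.nv (.thr 26 58 (.thr 11 56 (.thr 8 9 (.thr 33 45 (.thr 17 49 (.dbl 25 29 59)))))) (.nv (.thr 47 32 (.thr 45 33 (.thr 44 46 (.thr 35 38 (.dbl 43 39 40))))) (.nv (.thr 26 58 (.thr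 11 56 (.thr 8 9 (.thr 59 25 (.dbl 43 27 40))))) .nd)))) .nd)))))))))) .nd))))))))))))

theorem w166 : WinAt (2199025352706, 2305843009213726724) :=
  chF (K := []) kn c166 2199025352706 2305843009213726724 61
    [] (by decide +kernel) (by decide +kernel)

/-- A certificate. -/
noncomputable def c167 : Ct := (.str 25 (.nv (.thr 17 29 (.thr 9 57 (.thr 49 33 (.dbl 13 5 37)))) (.rp 57 (.thr 17 29 (.thr 49 33 (.thr 13 37 (.str 12 (.nv (.thr 51 38 (.thr 0 34 (.thr 8 4 (.dbl 42 59 63)))) (.nv (.thr 9 5 (.thr 38 51 (.thr 44 35 (.thr 60 28 (.dbl 3 6 22))))) (.nv (.thr 5 9 (.thr 15 14 (.thr 51 38 (.dbl 0 10 34)))) (.rp 51 (.thr 9 5 (.thr 14 15 (.thr 3 6 (.thr 60 22 (.thr 44 28 (.thr 38 35 (.thr 4 55 (.thr 26 50 (.thr 11 56 (.dbl 8 0 10)))))))))) (.rp 38 (.thr 9 5 (.thr 3 6 (.thr 22 60 (.thr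 19 28 (.thr 51 35 (.thr 20 23 (.thr 48 50 (.thr 36 24 (.thr 4 52 (.dbl 0 8 34)))))))))) (.rp 34 (.thr 9 5 (.thr 3 6 (.thr 60 22 (.thr 44 28 (.dbl 38 35 51))))) .nd)))))))))) (.rp 49 (.thr 57 9 (.str 51 (.nv (.thr 17 29 (.thr 0 34 (.thr 60 54 (.thr 20 40 (.dbl 22 3 23))))) (.nv (.thr 12 38 (.thr 17 29 (.thr 0 34 (.thr 8 4 (.dbl 42 59 63))))) (.nv (.thr 12 38 (.thr 60 54 (.thr 22 3 (.dbl 28 19 44)))) .nd))))) (.rp 45 (.thr 9 57 (.thr 17 29 (.thr 13 5 (.dbl 49 33 37)))) (.rp 37 (.str 8 (.nv (.thr 9 57 (.thr 5 13 (.thr 10 11 (.thr 0 15 (.thr 12 4 (.thr 51 38 (.dbl 17 29 34))))))) (.nv (.thr 17 29 (.thr 42 59 (.thr 0 63 (.thr 12 4 (.dbl 51 34 38))))) (.nv (.thr 57 9 (.thr 59 42 (.thr 56 58 (.thr 26 11 (.dbl 24 27 40))))) .nd)))) (.rp 33 (.str 8 (.nv (.thr 17 29 (.thr 42 59 (.thr 0 63 (.thr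 12 4 (.dbl 51 34 38))))) (.nv (.thr 9 57 (.thr 5 13 (.thr 10 11 (.thr 0 15 (.thr 12 4 (.thr 51 38 (.dbl 17 29 34))))))) (.nv (.thr 57 9 (.thr 59 42 (.thr 56 58 (.thr 26 11 (.dbl 24 27 40))))) .nd)))) (.rp 29 (.thr 9 57 (.thr 13 5 (.thr 49 37 (.str 51 (.nv (.thr 12 38 (.thr 3 6 (.thr 19 35 (.dbl 22 28 60)))) (.nv (.thr 17 33 (.thr 38 12 (.thr 55 4 (.thr 63 59 (.dbl 0 34 42))))) (.nv (.thr 33 17 (.thr 48 50 (.thr 12 38 (.dbl 3 6 18)))) (.rp 38 (.thr 17 33 (.thr 0 34 (.thr 42 63 (.thr 8 59 (.thr 11 10 (.thr 56 26 (.dbl 40 24 43))))))) (.rp 12 (.thr 17 33 (.thr 0 34 (.thr 63 42 (.thr 55 59 (.thr 38 4 (.thr 35 44 (.thr 3 19 (.thr 23 43 (.dbl 22 20 60))))))))) (.rp 6 (.thr 17 33 (.thr 0 34 (.thr 63 42 (.thr 55 59 (.dbl 38 4 12))))) .nd)))))))))) (.rp 17 (.thr 9 57 (.thr 13 5 (.thr 49 37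 (.str 12 (.nv (.thr 3 6 (.thr 22 60 (.thr 51 38 (.dbl 19 28 35)))) (.nv (.thr 14 15 (.thr 38 51 (.thr 4 55 (.thr 26 50 (.thr 11 56 (.dbl 8 0 10)))))) (.nv (.thr 38 51 (.thr 44 35 (.thr 60 28 (.dbl 3 6 22)))) (.rp 60 (.thr 14 15 (.thr 6 3 (.thr 38 51 (.thr 54 22 (.thr 4 55 (.thr 26 50 (.thr 11 56 (.dbl 8 0 10)))))))) (.rp 51 (.thr 14 15 (.thr 3 6 (.thr 60 22 (.thr 44 28 (.thr 38 35 (.thr 4 55 (.thr 26 50 (.thr 11 56 (.dbl 8 0 10))))))))) (.rp 38 (.thr 3 6 (.thr 22 60 (.thr 19 28 (.thr 51 35 (.thr 48 50 (.thr 18 33 (.thr 26 30 (.dbl 24 27 36)))))))) (.rp 19 (.str 18 (.nv (.thr 51 38 (.thr 48 50 (.dbl 3 6 33))) (.nv (.thr 38 51 (.thr 3 6 (.thr 4 55 (.thr 44 35 (.dbl 60 22 28))))) (.nv (.thr 3 6 (.thr 48 33 (.dbl 51 38 50))) (.rp 51 (.thr 3 6 (.thr 48 33 (.thr 24 36 (.thr 26 27 (.dbl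 22 30 60))))) (.rp 38 (.thr 3 6 (.thr 48 33 (.thr 22 60 (.thr 26 30 (.dbl 24 27 36))))) (.rp 14 (.str 8 (.nv (.thr 42 59 (.thr 40 43 (.thr 56 24 (.dbl 11 10 26)))) (.nv (.thr 10 11 (.thr 4 0 (.dbl 38 51 55))) (.nv (.thr 0 4 (.dbl 42 59 63)) (.rp 10 (.thr 6 3 (.thr 0 4 (.dbl 42 59 63))) .nd))))) (.rp 6 (.thr 38 51 (.thr 4 55 (.thr 14 15 (.thr 26 50 (.thr 11 56 (.dbl 8 0 10)))))) (.rp 3 (.thr 38 51 (.thr 35 44 (.thr 4 55 (.thr 14 15 (.thr 26 50 (.thr 11 56 (.dbl 8 0 10))))))) .nd))))))))) (.rp 18 (.str 19 (.nv (.thr 28 22 (.thr 38 51 (.dbl 44 35 60))) (.nv (.thr 3 6 (.dbl 51 35 38)) (.nv (.thr 22 28 (.dbl 3 6 60)) (.rp 50 (.str 34 (.nv (.thr 38 51 (.thr 4 55 (.thr 0 8 (.dbl 42 46 63)))) (.nv (.thr 22 28 (.dbl 3 6 60)) (.rp 60 (.thr 3 6 (.dbl 51 35 38)) .nd)))) (.rp 34 (.str 50 (.nv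 (.thr 3 6 (.dbl 22 28 60)) (.nv (.dbl 51 38 48) (.rp 51 (.str 0 (.nv (.thr 42 63 (.dbl 8 4 59)) (.nv (.thr 22 28 (.dbl 3 6 60)) (.rp 60 (.str 54 (.nv (.thr 6 3 (.dbl 22 28 38)) (.nv (.thr 8 4 (.dbl 42 59 63)) (.rp 63 (.thr 62 58 (.thr 22 28 (.dbl 6 3 38))) (.rp 62 (.thr 63 42 (.thr 22 28 (.dbl 6 3 38))) (.rp 6 (.thr 62 58 (.thr 42 63 (.dbl 8 4 59))) .nd)))))) (.rp 54 (.str 60 (.nv (.thr 8 4 (.dbl 42 59 63)) (.nv (.dbl 28 22 44) .nd))) .nd))))) .nd)))) .nd)))))) .nd)))))))))))) (.rp 13 (.thr 57 9 (.str 51 (.nv (.thr 60 54 (.thr 22 3 (.thr 20 23 (.thr 0 40 (.dbl 17 29 34))))) (.nv (.thr 29 17 (.thr 12 38 (.thr 63 46 (.thr 42 0 (.dbl 59 8 55))))) (.nv (.thr 60 54 (.thr 12 38 (.thr 22 3 (.dbl 28 19 44)))) (.rp 29 (.str 45 (.nv (.thr 33 37 (.thr 49 17 (.thr 48 50 (.thr 60 54 (.dbl 3 18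 22))))) (.nv (.thr 12 38 (.thr 33 37 (.thr 17 49 (.thr 0 34 (.thr 8 4 (.dbl 42 59 63)))))) (.nv (.thr 12 38 (.thr 60 54 (.thr 22 3 (.dbl 28 19 44)))) .nd)))) (.rp 12 (.thr 60 54 (.thr 3 22 (.thr 35 19 (.thr 38 44 (.thr 55 4 (.thr 63 59 (.thr 43 23 (.dbl 42 0 40)))))))) .nd))))))) (.rp 9 (.str 12 (.nv (.thr 38 51 (.thr 4 55 (.thr 0 8 (.thr 44 35 (.thr 60 28 (.thr 20 40 (.dbl 22 3 23))))))) (.nv (.thr 17 29 (.thr 49 33 (.thr 51 38 (.thr 48 50 (.thr 24 36 (.thr 26 27 (.dbl 37 13 15))))))) (.nv (.thr 29 17 (.thr 63 46 (.thr 51 38 (.thr 59 55 (.dbl 42 0 8))))) (.rp 51 (.thr 29 17 (.thr 63 46 (.thr 0 42 (.thr 4 8 (.thr 38 55 (.thr 44 35 (.thr 60 28 (.thr 20 40 (.dbl 22 3 23))))))))) (.rp 38 (.thr 29 17 (.thr 63 46 (.thr 42 0 (.thr 8 59 (.thr 40 43 (.thr 24 56 (.thr 48 36 (.thr 58 53 (.dbl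 26 10 27))))))))) .nd)))))) (.rp 5 (.str 12 (.nv (.thr 9 57 (.thr 3 6 (.thr 29 17 (.thr 63 46 (.thr 23 43 (.dbl 22 20 60)))))) (.nv (.thr 17 29 (.thr 51 38 (.thr 0 34 (.thr 8 4 (.dbl 42 59 63))))) (.nv (.thr 51 38 (.thr 57 9 (.thr 60 54 (.thr 22 3 (.dbl 28 19 44))))) .nd)))) .nd))))))))))))

theorem w167 : WinAt (2199025352706, 2305843009213759492) :=
  chF (K := []) kn c167 2199025352706 2305843009213759492 61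
    [] (by decide +kernel) (by decide +kernel)

/-- A certificate. -/
noncomputable def c168 : Ct := (.str 60 (.nv (.thr 22 3 (.thr 20 23 (.thr 0 40 (.thr 63 42 (.dbl 61 1 62))))) (.rp 63 (.str 57 (.nv (.thr 22 3 (.thr 54 51 (.thr 38 6 (.thr 55 4 (.thr 53 52 (.dbl 61 1 49)))))) (.nv (.thr 25 9 (.thr 51 54 (.thr 12 38 (.thr 28 44 (.dbl 22 3 19))))) (.rp 54 (.thr 9 25 (.thr 1 61 (.thr 5 13 (.thr 37 53 (.thr 45 33 (.thr 15 30 (.thr 0 10 (.thr 20 40 (.dbl 22 3 23))))))))) (.rp 51 (.thr 9 25 (.thr 1 61 (.thr 5 13 (.thr 37 53 (.thr 45 33 (.thr 15 30 (.thr 0 10 (.thr 20 40 (.dbl 22 3 23))))))))) (.rp 38 (.thr 9 25 (.thr 1 61 (.thr 5 13 (.thr 37 53 (.thr 45 33 (.thr 15 30 (.thr 0 10 (.thr 20 40 (.dbl 22 3 23))))))))) (.rp 22 (.thr 25 9 (.thr 61 1 (.thr 49 53 (.thr 13 37 (.thr 45 29 (.thr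 15 30 (.thr 12 14 (.dbl 51 38 54)))))))) (.rp 19 (.thr 9 25 (.thr 1 61 (.thr 5 13 (.thr 37 53 (.thr 22 3 (.thr 7 52 (.thr 6 4 (.dbl 54 38 51)))))))) (.rp 12 (.thr 9 25 (.thr 22 3 (.thr 54 51 (.thr 38 6 (.thr 55 4 (.thr 53 52 (.dbl 61 1 49))))))) (.rp 9 (.thr 61 1 (.thr 49 53 (.thr 51 54 (.thr 48 50 (.thr 52 56 (.thr 3 22 (.thr 35 19 (.thr 38 44 (.thr 4 55 (.thr 36 20 (.dbl 12 24 25))))))))))) (.rp 6 (.thr 25 9 (.thr 51 54 (.thr 12 38 (.thr 22 3 (.dbl 28 19 44))))) (.rp 3 (.thr 9 25 (.thr 1 61 (.thr 5 13 (.thr 37 53 (.thr 45 33 (.thr 15 30 (.thr 10 0 (.thr 11 8 (.dbl 26 48 56))))))))) .nd)))))))))))) (.rp 62 (.str 57 (.nv (.thr 22 3 (.thr 54 51 (.thr 38 6 (.thr 55 4 (.thr 53 52 (.dbl 61 1 49)))))) (.nv (.thr 25 9 (.thr 51 54 (.thr 12 38 (.thr 28 44 (.dbl 22 3 19))))) (.rp 54 (.thr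 25 9 (.thr 22 3 (.thr 28 19 (.thr 12 44 (.thr 20 23 (.thr 0 40 (.thr 8 4 (.dbl 42 59 63)))))))) (.rp 51 (.thr 9 25 (.thr 1 61 (.thr 5 13 (.thr 37 53 (.thr 45 33 (.thr 15 30 (.thr 0 10 (.thr 40 20 (.dbl 42 43 63))))))))) (.rp 38 (.thr 25 9 (.thr 22 3 (.thr 28 19 (.thr 12 44 (.thr 20 23 (.thr 0 40 (.thr 8 4 (.dbl 42 59 63)))))))) (.rp 22 (.str 42 (.nv (.thr 25 9 (.thr 51 54 (.thr 59 8 (.dbl 63 0 55)))) (.nv (.thr 0 63 (.dbl 40 20 43)) (.rp 63 (.thr 25 9 (.thr 59 8 (.thr 56 58 (.thr 43 40 (.dbl 11 26 27))))) (.rp 0 (.thr 25 9 (.thr 59 8 (.thr 56 58 (.thr 43 40 (.dbl 11 26 27))))) .nd))))) (.rp 19 (.thr 9 25 (.thr 1 61 (.thr 5 13 (.thr 37 53 (.thr 22 3 (.thr 7 52 (.thr 6 4 (.dbl 54 38 51)))))))) (.rp 12 (.thr 9 25 (.thr 22 3 (.thr 54 51 (.thr 38 6 (.thr 55 4 (.thr 53 52 (.dbl 61 1 49)))))))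 (.rp 9 (.thr 51 54 (.thr 22 3 (.thr 20 23 (.thr 61 1 (.thr 0 40 (.thr 63 42 (.thr 59 55 (.thr 58 56 (.dbl 53 48 49))))))))) (.rp 6 (.thr 25 9 (.thr 51 54 (.thr 12 38 (.thr 22 3 (.dbl 28 19 44))))) (.rp 3 (.thr 9 25 (.thr 1 61 (.thr 5 13 (.thr 37 53 (.thr 45 33 (.thr 15 30 (.thr 0 10 (.thr 40 20 (.dbl 42 43 63))))))))) .nd)))))))))))) (.rp 61 (.str 25 (.nv (.thr 22 3 (.thr 20 23 (.thr 0 40 (.thr 28 19 (.thr 12 44 (.thr 8 4 (.dbl 42 59 63))))))) (.nv (.thr 57 9 (.thr 51 54 (.thr 12 38 (.thr 28 44 (.dbl 22 3 19))))) (.rp 51 (.thr 9 57 (.thr 3 22 (.thr 12 6 (.thr 44 28 (.thr 38 35 (.thr 4 55 (.thr 0 8 (.thr 40 20 (.dbl 42 43 63))))))))) (.rp 44 (.thr 57 9 (.thr 51 54 (.thr 12 38 (.thr 22 3 (.thr 20 23 (.thr 0 40 (.thr 8 4 (.dbl 42 59 63)))))))) (.rp 28 (.thr 57 9 (.thr 51 54 (.thr 38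 12 (.thr 35 44 (.dbl 3 19 22))))) (.rp 22 (.thr 57 9 (.thr 51 54 (.thr 38 12 (.thr 35 44 (.thr 3 19 (.thr 55 4 (.thr 63 59 (.thr 43 23 (.dbl 42 0 40))))))))) (.rp 19 (.thr 9 57 (.thr 3 22 (.thr 12 6 (.thr 44 28 (.dbl 38 35 51))))) (.rp 12 (.thr 22 3 (.thr 28 19 (.thr 20 23 (.thr 0 40 (.thr 16 24 (.thr 48 32 (.thr 56 52 (.dbl 26 11 31)))))))) (.rp 3 (.thr 57 9 (.thr 51 54 (.thr 12 38 (.thr 28 44 (.thr 22 19 (.thr 20 23 (.thr 0 40 (.thr 8 4 (.dbl 42 59 63))))))))) .nd)))))))))) (.rp 43 (.thr 61 1 (.thr 63 62 (.thr 0 42 (.thr 22 3 (.dbl 20 23 40))))) (.rp 42 (.str 57 (.nv (.thr 22 3 (.thr 51 54 (.thr 25 9 (.thr 12 38 (.dbl 28 19 44))))) (.nv (.thr 22 3 (.thr 54 51 (.thr 38 6 (.thr 55 4 (.thr 53 52 (.dbl 61 1 49)))))) (.nv (.thr 25 9 (.thr 51 54 (.thr 38 12 (.thr 35 44 (.dbl 3 19 22)))))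 (.rp 54 (.thr 25 9 (.thr 22 3 (.thr 28 19 (.thr 12 44 (.thr 20 23 (.thr 0 40 (.thr 4 8 (.dbl 38 51 55)))))))) (.rp 51 (.thr 9 25 (.thr 1 61 (.thr 5 13 (.thr 37 53 (.thr 45 33 (.thr 15 30 (.thr 0 10 (.thr 20 40 (.dbl 22 3 23))))))))) (.rp 38 (.thr 9 25 (.thr 1 61 (.thr 5 13 (.thr 37 53 (.thr 45 33 (.thr 15 30 (.thr 0 10 (.thr 20 40 (.dbl 22 3 23))))))))) (.rp 22 (.str 62 (.nv (.dbl 61 1 63) (.rp 63 (.thr 25 9 (.thr 61 1 (.thr 49 53 (.thr 13 37 (.thr 45 29 (.thr 51 54 (.thr 15 30 (.dbl 12 14 38)))))))) (.rp 61 (.thr 54 51 (.thr 58 50 (.thr 56 59 (.thr 48 52 (.thr 26 11 (.thr 37 15 (.dbl 53 5 63))))))) (.rp 1 (.thr 25 9 (.thr 63 61 (.thr 51 54 (.thr 38 12 (.dbl 55 4 59))))) .nd))))) (.rp 19 (.thr 25 9 (.thr 61 1 (.thr 51 54 (.thr 38 12 (.thr 55 4 (.dbl 63 59 62)))))) (.rp 12 (.thr 9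 25 (.thr 22 3 (.thr 54 51 (.thr 38 6 (.thr 55 4 (.thr 53 52 (.dbl 61 1 49))))))) (.rp 9 (.thr 51 54 (.thr 22 3 (.thr 20 23 (.thr 61 1 (.thr 0 40 (.thr 63 62 (.thr 59 55 (.thr 58 56 (.dbl 53 48 49))))))))) (.rp 3 (.thr 25 9 (.thr 51 54 (.thr 12 38 (.thr 28 44 (.thr 22 19 (.thr 20 23 (.thr 0 40 (.thr 4 8 (.thr 36 52 (.dbl 24 16 48)))))))))) .nd)))))))))))) (.rp 40 (.str 57 (.nv (.thr 25 9 (.thr 3 22 (.thr 51 54 (.thr 35 19 (.dbl 38 12 44))))) (.nv (.thr 25 9 (.thr 51 54 (.thr 61 1 (.thr 63 62 (.thr 59 55 (.dbl 42 0 8)))))) (.nv (.thr 25 9 (.thr 51 54 (.thr 12 38 (.thr 22 3 (.dbl 28 19 44))))) (.rp 54 (.thr 9 25 (.thr 1 61 (.thr 5 13 (.thr 37 53 (.thr 45 33 (.thr 15 30 (.thr 10 0 (.thr 11 8 (.dbl 3 7 22))))))))) (.rp 51 (.thr 9 25 (.thr 1 61 (.thr 5 13 (.thr 37 53 (.thr 45 33 (.thr 15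 30 (.thr 48 26 (.thr 52 56 (.dbl 22 3 7))))))))) (.rp 25 (.thr 61 1 (.thr 63 62 (.thr 51 54 (.thr 59 55 (.thr 58 56 (.dbl 53 48 49)))))) (.rp 22 (.thr 25 9 (.thr 61 1 (.thr 51 54 (.thr 38 12 (.thr 55 4 (.dbl 63 59 62)))))) (.rp 9 (.thr 61 1 (.thr 63 62 (.thr 51 54 (.thr 59 55 (.thr 58 56 (.dbl 53 48 49)))))) (.rp 3 (.thr 9 25 (.thr 1 61 (.thr 5 13 (.thr 37 53 (.thr 45 33 (.thr 15 30 (.thr 10 0 (.thr 11 8 (.dbl 26 48 56))))))))) .nd)))))))))) (.rp 23 (.str 57 (.nv (.thr 51 54 (.thr 61 1 (.thr 63 62 (.thr 59 55 (.thr 58 56 (.dbl 53 48 49)))))) (.nv (.thr 25 9 (.thr 51 54 (.thr 12 38 (.thr 28 44 (.dbl 22 3 19))))) (.rp 54 (.thr 25 9 (.thr 61 1 (.thr 63 62 (.thr 42 0 (.thr 3 22 (.thr 59 8 (.thr 58 56 (.dbl 53 48 49)))))))) (.rp 51 (.thr 9 25 (.thr 1 61 (.thr 5 13 (.thr 37 53 (.thr 45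 33 (.thr 15 30 (.thr 0 10 (.thr 40 20 (.dbl 42 43 63))))))))) (.rp 22 (.thr 25 9 (.thr 61 1 (.thr 51 54 (.thr 38 12 (.thr 55 4 (.dbl 63 59 62)))))) (.rp 3 (.thr 9 25 (.thr 1 61 (.thr 5 13 (.thr 37 53 (.thr 45 33 (.thr 15 30 (.thr 0 10 (.thr 40 20 (.dbl 42 43 63))))))))) .nd))))))) (.rp 22 (.str 42 (.nv (.thr 61 1 (.dbl 63 0 62)) (.nv (.thr 40 43 (.dbl 0 20 63)) (.rp 63 (.str 56 (.nv (.thr 26 11 (.thr 16 31 (.thr 48 52 (.thr 32 0 (.dbl 37 15 47))))) (.nv (.thr 11 26 (.thr 43 40 (.thr 59 27 (.thr 25 8 (.dbl 57 9 58))))) (.rp 26 (.thr 48 52 (.thr 40 43 (.thr 24 8 (.thr 36 12 (.thr 32 44 (.dbl 0 16 20)))))) (.rp 11 (.thr 48 52 (.thr 40 43 (.thr 24 8 (.thr 36 12 (.thr 32 44 (.dbl 0 16 20)))))) .nd))))) (.rp 0 (.thr 1 61 (.str 57 (.nv (.thr 43 40 (.thr 25 9 (.thr 59 8 (.thr 11 27 (.dbl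 56 26 58))))) (.nv (.thr 51 54 (.thr 25 9 (.thr 59 8 (.thr 55 63 (.dbl 38 4 12))))) (.rp 59 (.thr 25 9 (.thr 51 54 (.thr 38 12 (.thr 46 34 (.thr 40 43 (.thr 44 35 (.thr 32 36 (.dbl 47 37 45)))))))) (.rp 51 (.str 34 (.nv (.thr 9 25 (.thr 5 13 (.thr 37 53 (.thr 32 47 (.dbl 33 35 45))))) (.nv (.thr 25 9 (.thr 59 8 (.thr 56 58 (.thr 43 40 (.dbl 11 26 27))))) (.nv (.thr 43 40 (.thr 38 46 (.thr 35 44 (.thr 32 33 (.dbl 47 37 39))))) .nd)))) (.rp 25 (.thr 51 54 (.str 38 (.nv (.thr 44 35 (.thr 46 34 (.thr 55 4 (.thr 63 59 (.dbl 12 28 29))))) (.nv (.thr 43 40 (.thr 55 4 (.thr 59 63 (.thr 11 27 (.dbl 56 26 58))))) (.nv (.thr 34 46 (.thr 35 44 (.thr 32 33 (.thr 43 40 (.dbl 47 37 39))))) (.rp 28 (.str 19 (.nv (.dbl 35 3 44) (.rp 44 (.thr 3 35 (.thr 55 4 (.thr 43 40 (.dbl 63 23 59)))) (.rp 35 (.thr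 55 4 (.thr 43 40 (.thr 59 63 (.thr 56 58 (.dbl 11 26 27))))) (.rp 3 (.thr 55 4 (.thr 43 40 (.thr 59 63 (.thr 56 58 (.dbl 11 26 27))))) .nd))))) (.rp 19 (.str 28 (.nv (.dbl 44 12 35) (.rp 44 (.thr 55 4 (.thr 59 63 (.thr 56 58 (.thr 43 40 (.dbl 11 26 27))))) (.rp 35 (.thr 12 44 (.thr 46 34 (.thr 55 4 (.dbl 63 29 59)))) (.rp 18 (.str 16 (.nv (.thr 26 31 (.thr 56 11 (.dbl 58 10 59))) (.nv (.dbl 44 12 35) (.rp 50 (.thr 34 46 (.dbl 44 12 35)) (.rp 34 (.str 50 (.nv (.dbl 44 12 35) (.nv (.dbl 26 14 31) (.rp 26 (.str 30 (.nv (.thr 24 20 (.thr 12 44 (.dbl 48 36 49))) (.nv (.dbl 44 12 35) (.rp 44 (.thr 24 20 (.thr 48 49 (.thr 56 52 (.dbl 40 8 43)))) (.rp 24 (.str 27 (.nv (.dbl 15 39 45) (.nv (.dbl 44 12 35) .nd))) (.rp 12 (.thr 24 20 (.thr 48 49 (.thr 56 52 (.dbl 40 8 43)))) .nd)))))) .nd))))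 (.rp 26 (.str 30 (.nv (.dbl 44 12 35) (.rp 50 (.thr 34 46 (.dbl 44 12 35)) (.rp 44 (.thr 55 4 (.thr 63 59 (.thr 29 31 (.dbl 46 12 34)))) (.rp 35 (.thr 44 12 (.thr 45 15 (.dbl 46 34 47))) (.rp 34 (.str 50 (.nv (.thr 24 20 (.thr 12 44 (.dbl 48 36 49))) (.nv (.dbl 44 12 35) (.rp 44 (.thr 24 20 (.thr 48 49 (.thr 56 52 (.dbl 40 8 43)))) (.rp 24 (.str 27 (.nv (.dbl 15 39 45) (.nv (.dbl 44 12 35) .nd))) (.rp 12 (.thr 24 20 (.thr 48 49 (.thr 56 52 (.dbl 40 8 43)))) .nd)))))) (.rp 27 (.thr 24 20 (.dbl 44 12 35)) (.rp 24 (.str 27 (.nv (.thr 34 46 (.dbl 15 39 45)) (.nv (.dbl 44 12 35) (.rp 34 (.str 50 (.nv (.dbl 15 39 45) (.nv (.dbl 44 12 35) .nd))) .nd)))) (.rp 12 (.thr 44 35 (.thr 45 15 (.dbl 46 34 47))) .nd))))))))) .nd)))))) (.rp 16 (.str 18 (.nv (.dbl 44 12 35) (.rp 48 (.str 32 (.nv (.thr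 34 46 (.thr 33 35 (.dbl 37 45 47))) (.nv (.dbl 44 12 35) (.rp 35 (.thr 44 12 (.dbl 40 36 43)) .nd)))) (.rp 44 (.thr 55 4 (.thr 59 63 (.thr 56 58 (.thr 43 40 (.dbl 11 26 27))))) (.rp 35 (.thr 12 44 (.thr 46 34 (.thr 55 4 (.dbl 63 29 59)))) (.rp 32 (.str 48 (.nv (.thr 50 49 (.thr 26 14 (.dbl 56 11 52))) (.nv (.dbl 44 12 35) .nd))) (.rp 12 (.thr 34 46 (.thr 35 44 (.thr 32 33 (.thr 43 40 (.dbl 47 37 39))))) .nd))))))) (.rp 12 (.thr 34 46 (.thr 35 44 (.thr 32 33 (.thr 43 40 (.dbl 47 37 39))))) .nd))))))) .nd))))))) (.rp 12 (.thr 9 25 (.thr 5 13 (.thr 37 53 (.thr 45 33 (.thr 47 32 (.thr 44 46 (.thr 43 40 (.dbl 35 38 39)))))))) (.rp 11 (.thr 25 9 (.thr 51 54 (.thr 38 12 (.thr 46 34 (.thr 40 43 (.thr 44 35 (.thr 32 36 (.dbl 47 37 45)))))))) (.rp 9 (.str 38 (.nv (.thr 51 54 (.thr 55 4 (.thr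 59 63 (.dbl 25 8 12)))) (.nv (.thr 34 46 (.thr 35 44 (.thr 32 33 (.thr 43 40 (.dbl 47 37 39))))) (.nv (.thr 51 54 (.thr 44 35 (.dbl 12 25 28))) .nd)))) (.rp 8 (.thr 9 25 (.thr 5 13 (.thr 37 53 (.thr 45 33 (.thr 47 32 (.thr 44 46 (.thr 43 40 (.dbl 35 38 39)))))))) (.rp 4 (.thr 9 25 (.thr 5 13 (.thr 37 53 (.thr 45 33 (.thr 47 32 (.thr 44 46 (.thr 43 40 (.dbl 35 38 39)))))))) .nd)))))))))))) .nd))))) (.rp 20 (.thr 61 1 (.thr 63 62 (.thr 42 0 (.thr 3 22 (.dbl 43 23 40))))) (.rp 3 (.str 0 (.nv (.thr 61 1 (.dbl 63 42 62)) (.nv (.thr 40 20 (.dbl 42 43 63)) (.rp 63 (.thr 1 61 (.thr 20 40 (.str 28 (.nv (.thr 24 16 (.thr 12 44 (.thr 36 48 (.dbl 4 8 52)))) (.nv (.thr 12 44 (.thr 4 8 (.thr 38 55 (.thr 51 25 (.thr 54 57 (.dbl 22 6 23)))))) (.nv (.thr 23 22 (.thr 16 24 (.thr 26 31 (.thr 56 11 (.dbl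 48 32 52))))) (.nv (.thr 12 44 (.thr 4 8 (.thr 36 52 (.dbl 24 16 48)))) (.rp 24 (.thr 44 12 (.thr 38 35 (.thr 4 55 (.thr 36 52 (.thr 37 39 (.thr 45 33 (.thr 15 30 (.dbl 5 10 53)))))))) (.rp 23 (.str 43 (.nv (.thr 24 16 (.thr 12 44 (.thr 36 48 (.dbl 4 8 52)))) (.nv (.thr 16 24 (.thr 26 31 (.thr 56 11 (.dbl 48 32 52)))) (.nv (.thr 12 44 (.thr 4 8 (.thr 36 52 (.dbl 24 16 48)))) (.rp 52 (.thr 12 44 (.thr 16 24 (.thr 31 26 (.thr 30 29 (.thr 15 45 (.thr 13 14 (.dbl 5 9 10))))))) (.rp 48 (.thr 12 44 (.thr 16 24 (.thr 31 26 (.thr 30 29 (.thr 15 45 (.thr 13 14 (.dbl 5 9 10))))))) (.rp 24 (.str 56 (.nv (.thr 26 11 (.thr 31 16 (.thr 48 52 (.thr 15 37 (.dbl 30 29 45))))) (.nv (.thr 12 44 (.thr 4 8 (.dbl 52 36 48))) (.rp 52 (.thr 12 44 (.thr 8 4 (.thr 11 26 (.thr 59 27 (.thr 25 42 (.dbl 57 9 58))))))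 (.rp 48 (.thr 12 44 (.thr 8 4 (.thr 11 26 (.thr 59 27 (.thr 25 42 (.dbl 57 9 58)))))) .nd))))) (.rp 16 (.thr 12 44 (.thr 4 8 (.thr 36 52 (.thr 38 55 (.thr 51 25 (.thr 39 37 (.thr 15 27 (.thr 5 10 (.dbl 13 9 14))))))))) (.rp 8 (.thr 12 44 (.thr 24 16 (.thr 36 48 (.thr 4 52 (.thr 38 55 (.thr 51 25 (.thr 39 37 (.thr 15 27 (.thr 5 10 (.dbl 13 9 14)))))))))) .nd))))))))) (.rp 8 (.thr 24 16 (.thr 12 44 (.thr 36 48 (.thr 4 52 (.thr 38 55 (.thr 51 25 (.thr 54 57 (.dbl 22 6 23)))))))) .nd)))))))))) (.rp 42 (.thr 20 40 (.str 48 (.nv (.thr 22 23 (.thr 16 32 (.thr 26 31 (.thr 30 18 (.dbl 15 37 45))))) (.nv (.thr 52 56 (.thr 4 36 (.thr 38 55 (.thr 44 35 (.dbl 12 8 28))))) (.nv (.thr 56 52 (.thr 26 11 (.dbl 16 31 32))) (.rp 32 (.thr 52 56 (.thr 22 23 (.thr 37 7 (.thr 5 53 (.dbl 15 10 26))))) (.rp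 22 (.str 62 (.nv (.thr 16 32 (.thr 26 31 (.dbl 56 11 52))) (.nv (.dbl 61 1 63) .nd))) .nd))))))) .nd))))) (.rp 1 (.thr 22 3 (.str 0 (.nv (.dbl 20 23 40) (.rp 49 (.str 33 (.nv (.dbl 20 23 40) (.rp 40 (.thr 37 45 (.thr 5 53 (.thr 52 7 (.thr 48 56 (.dbl 15 10 26))))) (.rp 23 (.thr 40 20 (.dbl 42 43 63)) (.rp 20 (.thr 37 45 (.thr 5 53 (.thr 52 7 (.thr 48 56 (.dbl 15 10 26))))) .nd))))) (.rp 40 (.thr 20 23 (.thr 63 42 (.thr 61 62 (.str 57 (.nv (.thr 51 54 (.thr 59 55 (.thr 58 56 (.dbl 53 48 49)))) (.nv (.thr 49 53 (.thr 25 9 (.thr 13 37 (.thr 29 45 (.thr 12 46 (.dbl 28 19 44)))))) (.nv (.thr 51 54 (.thr 55 59 (.thr 38 4 (.dbl 25 9 12)))) (.rp 49 (.str 33 (.nv (.thr 37 45 (.thr 5 53 (.thr 15 10 (.thr 31 47 (.dbl 26 16 48))))) (.nv (.thr 51 54 (.thr 55 59 (.thr 38 4 (.dbl 25 9 12)))) (.rp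 58 (.thr 54 51 (.thr 37 45 (.thr 53 5 (.dbl 52 7 55)))) .nd)))) .nd)))))))) (.rp 33 (.str 49 (.nv (.dbl 20 23 40) (.rp 48 (.str 18 (.nv (.dbl 20 23 40) (.rp 40 (.thr 30 26 (.thr 15 45 (.thr 5 10 (.thr 53 37 (.thr 61 57 (.dbl 63 42 62)))))) (.rp 23 (.thr 40 20 (.dbl 42 43 63)) (.rp 20 (.thr 30 26 (.thr 15 45 (.thr 5 10 (.thr 53 37 (.thr 61 57 (.dbl 63 42 62)))))) .nd))))) (.rp 40 (.thr 63 42 (.thr 61 62 (.thr 53 57 (.thr 37 5 (.thr 52 7 (.dbl 48 56 58)))))) (.rp 23 (.thr 40 20 (.dbl 42 43 63)) (.rp 20 (.thr 63 42 (.thr 61 62 (.thr 53 57 (.thr 37 5 (.thr 52 7 (.dbl 48 56 58)))))) (.rp 18 (.str 48 (.nv (.thr 16 32 (.thr 26 31 (.dbl 56 11 52))) (.nv (.dbl 20 23 40) (.rp 50 (.str 34 (.nv (.thr 16 32 (.thr 26 31 (.dbl 56 11 52))) (.nv (.dbl 20 23 40) (.rp 16 (.str 19 (.nv (.thr 52 56 (.thr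 37 7 (.dbl 25 13 28))) (.nv (.dbl 20 23 40) .nd))) .nd)))) (.rp 34 (.thr 50 51 (.dbl 20 23 40)) (.rp 16 (.str 19 (.nv (.thr 52 56 (.thr 37 7 (.dbl 25 13 28))) (.nv (.dbl 20 23 40) (.rp 50 (.str 34 (.nv (.thr 52 56 (.thr 37 7 (.dbl 25 13 28))) (.nv (.dbl 20 23 40) .nd))) (.rp 34 (.thr 50 51 (.dbl 20 23 40)) .nd))))) .nd)))))) .nd))))))) (.rp 23 (.thr 40 20 (.dbl 42 43 63)) (.rp 20 (.thr 63 42 (.thr 61 62 (.str 57 (.nv (.thr 49 53 (.thr 25 9 (.thr 13 37 (.thr 29 45 (.thr 12 46 (.dbl 28 19 44)))))) (.nv (.thr 51 54 (.thr 59 55 (.thr 58 56 (.dbl 53 48 49)))) (.rp 53 (.thr 51 54 (.thr 55 59 (.thr 25 9 (.dbl 38 4 12)))) (.rp 49 (.str 33 (.nv (.thr 25 9 (.thr 28 19 (.thr 12 44 (.dbl 51 38 54)))) (.nv (.thr 37 45 (.thr 52 7 (.thr 48 56 (.dbl 53 5 58)))) (.rp 5 (.thr 51 54 (.thr 55 59 (.thr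 38 4 (.dbl 25 9 12)))) .nd)))) .nd))))))) .nd)))))))) (.rp 0 (.str 51 (.nv (.thr 3 22 (.thr 57 54 (.thr 25 9 (.thr 35 19 (.dbl 38 12 44))))) (.nv (.thr 3 22 (.thr 35 19 (.thr 38 44 (.thr 55 4 (.thr 61 1 (.dbl 63 59 62)))))) (.nv (.thr 57 54 (.thr 25 9 (.thr 12 38 (.thr 28 44 (.dbl 22 3 19))))) (.rp 44 (.thr 54 57 (.thr 1 61 (.thr 22 3 (.thr 23 20 (.thr 38 6 (.thr 55 4 (.thr 7 39 (.dbl 52 37 53)))))))) (.rp 38 (.thr 57 54 (.thr 1 61 (.thr 25 9 (.thr 22 3 (.thr 19 28 (.thr 23 20 (.thr 27 31 (.thr 15 39 (.thr 30 45 (.dbl 26 18 24)))))))))) (.rp 25 (.thr 54 57 (.thr 1 61 (.thr 22 3 (.thr 23 20 (.thr 38 6 (.thr 55 4 (.thr 7 39 (.dbl 52 37 53)))))))) (.rp 22 (.thr 57 54 (.thr 25 9 (.thr 38 12 (.thr 35 44 (.thr 61 1 (.thr 3 19 (.thr 49 53 (.thr 48 50 (.thr 52 56 (.thr 4 55 (.thr 36 20 (.dbl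 37 13 39)))))))))))) (.rp 19 (.thr 54 57 (.thr 1 61 (.thr 22 3 (.thr 38 6 (.thr 44 35 (.dbl 12 25 28)))))) (.rp 12 (.thr 57 54 (.thr 1 61 (.thr 9 25 (.thr 5 13 (.thr 37 53 (.thr 45 33 (.thr 22 3 (.thr 52 7 (.thr 48 56 (.dbl 15 26 30)))))))))) (.rp 3 (.thr 1 61 (.thr 57 54 (.thr 9 25 (.thr 5 13 (.thr 37 53 (.thr 45 33 (.thr 15 30 (.thr 48 26 (.thr 52 56 (.thr 22 7 (.thr 20 23 (.thr 36 4 (.dbl 39 27 38))))))))))))) .nd))))))))))) .nd))))))))))))))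

theorem w168 : WinAt (2199025352704, 131076) :=
  chF (K := []) kn c168 2199025352704 131076 17
    [] (by decide +kernel) (by decide +kernel)

/-- A certificate. -/
noncomputable def c169 : Ct := (.str 25 (.nv (.thr 17 29 (.thr 9 57 (.thr 1 61 (.thr 13 5 (.dbl 49 33 37))))) (.rp 61 (.thr 57 9 (.str 59 (.nv (.thr 29 17 (.thr 42 8 (.thr 63 0 (.thr 12 46 (.dbl 51 38 55))))) (.nv (.thr 42 8 (.thr 43 40 (.thr 56 58 (.dbl 11 26 27)))) (.rp 50 (.str 34 (.nv (.thr 17 29 (.thr 51 0 (.thr 55 63 (.dbl 38 4 12)))) (.nv (.thr 8 42 (.thr 56 58 (.thr 24 40 (.dbl 26 11 27)))) (.nv (.thr 17 29 (.thr 0 51 (.dbl 42 8 63))) .nd)))) (.rp 42 (.thr 29 17 (.thr 56 58 (.thr 26 11 (.thr 27 24 (.thr 31 16 (.thr 19 23 (.dbl 28 22 30))))))) (.rp 34 (.str 50 (.nv (.thr 29 17 (.thr 42 8 (.thr 63 0 (.thr 51 55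 (.dbl 12 38 46))))) (.nv (.thr 58 56 (.thr 54 62 (.thr 51 60 (.thr 63 55 (.dbl 48 49 53))))) (.nv (.thr 42 8 (.thr 43 40 (.thr 56 58 (.dbl 11 26 27)))) (.rp 42 (.thr 56 58 (.thr 26 11 (.thr 38 14 (.thr 55 4 (.dbl 51 12 63))))) .nd))))) (.rp 11 (.thr 29 17 (.thr 58 56 (.thr 42 8 (.thr 10 26 (.thr 63 0 (.thr 51 55 (.dbl 12 38 46))))))) (.rp 10 (.thr 56 58 (.thr 11 26 (.thr 42 8 (.dbl 43 27 40)))) (.rp 8 (.thr 29 17 (.thr 56 58 (.thr 11 26 (.thr 43 27 (.thr 42 40 (.thr 63 0 (.thr 51 55 (.dbl 12 38 46)))))))) .nd)))))))))) (.rp 57 (.thr 17 29 (.str 3 (.nv (.thr 22 60 (.thr 19 28 (.thr 23 20 (.thr 51 35 (.thr 63 43 (.thr 55 59 (.dbl 38 4 12))))))) (.nv (.thr 61 1 (.thr 60 22 (.thr 63 62 (.thr 42 0 (.dbl 43 23 40))))) (.rp 63 (.thr 1 61 (.thr 49 33 (.thr 13 37 (.thr 9 5 (.thr 12 6 (.thr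 51 38 (.thr 19 35 (.dbl 22 28 60)))))))) (.rp 60 (.thr 1 61 (.thr 49 33 (.thr 13 37 (.thr 9 5 (.thr 12 6 (.thr 51 38 (.thr 19 35 (.thr 22 28 (.thr 23 20 (.thr 63 43 (.dbl 0 34 42))))))))))) (.rp 50 (.str 34 (.nv (.thr 0 51 (.thr 60 22 (.thr 40 20 (.dbl 42 43 63)))) (.nv (.thr 51 0 (.thr 35 19 (.dbl 38 12 44))) (.rp 51 (.thr 61 1 (.thr 60 22 (.thr 63 62 (.thr 42 0 (.dbl 43 23 40))))) (.rp 0 (.thr 1 61 (.thr 49 33 (.thr 13 37 (.thr 9 5 (.thr 12 6 (.thr 51 38 (.thr 19 35 (.dbl 22 28 60)))))))) .nd))))) (.rp 43 (.thr 1 61 (.thr 49 33 (.thr 13 37 (.thr 9 5 (.thr 12 6 (.thr 51 38 (.thr 19 35 (.dbl 22 28 60)))))))) (.rp 40 (.thr 1 61 (.thr 49 33 (.thr 13 37 (.thr 9 5 (.thr 12 6 (.thr 51 38 (.thr 19 35 (.dbl 22 28 60)))))))) (.rp 34 (.str 50 (.nv (.thr 1 61 (.thr 49 33 (.thr 51 48 (.thr 35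 19 (.dbl 38 12 44))))) (.nv (.thr 60 22 (.thr 61 1 (.thr 63 62 (.thr 42 0 (.dbl 43 23 40))))) (.rp 61 (.thr 22 60 (.thr 19 28 (.thr 51 35 (.thr 49 48 (.thr 33 1 (.dbl 37 13 45)))))) (.rp 1 (.thr 22 60 (.thr 23 20 (.thr 63 43 (.thr 19 28 (.thr 51 35 (.thr 59 55 (.dbl 42 0 8))))))) .nd))))) (.rp 30 (.thr 22 60 (.thr 23 20 (.thr 63 43 (.thr 0 42 (.thr 19 28 (.thr 31 27 (.dbl 51 34 35))))))) (.rp 23 (.thr 1 61 (.thr 49 33 (.thr 13 37 (.thr 9 5 (.thr 12 6 (.thr 51 38 (.thr 19 35 (.dbl 22 28 60)))))))) (.rp 22 (.thr 1 61 (.thr 49 33 (.thr 13 37 (.thr 9 5 (.thr 12 6 (.thr 38 51 (.thr 44 35 (.thr 60 28 (.thr 4 55 (.thr 0 8 (.thr 40 20 (.dbl 42 43 63)))))))))))) (.rp 0 (.thr 1 61 (.thr 49 33 (.thr 13 37 (.thr 9 5 (.thr 12 6 (.thr 51 38 (.thr 19 35 (.dbl 22 28 60)))))))) .nd)))))))))))))) (.rp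 53 (.thr 17 29 (.thr 9 57 (.thr 1 61 (.thr 49 33 (.dbl 13 5 37))))) (.rp 50 (.str 34 (.nv (.thr 1 61 (.thr 17 29 (.thr 51 0 (.thr 38 12 (.thr 35 44 (.dbl 33 32 49)))))) (.nv (.thr 9 57 (.thr 17 29 (.thr 51 0 (.thr 12 38 (.thr 3 6 (.thr 19 35 (.dbl 22 28 60))))))) (.nv (.thr 1 61 (.thr 9 57 (.thr 17 29 (.thr 13 5 (.dbl 49 33 37))))) (.rp 29 (.thr 9 57 (.thr 1 61 (.thr 13 5 (.thr 49 37 (.thr 17 33 (.thr 51 0 (.thr 12 38 (.thr 3 6 (.thr 19 35 (.dbl 22 28 60)))))))))) (.rp 17 (.thr 1 61 (.str 38 (.nv (.thr 9 57 (.thr 5 13 (.thr 35 44 (.thr 33 32 (.dbl 37 45 53))))) (.nv (.thr 4 55 (.thr 42 46 (.thr 8 59 (.dbl 0 12 63)))) (.rp 19 (.str 16 (.nv (.thr 9 57 (.thr 5 13 (.thr 35 44 (.thr 33 32 (.dbl 37 45 53))))) (.nv (.thr 4 55 (.thr 42 46 (.thr 8 59 (.dbl 0 12 63)))) .nd))) (.rp 16 (.str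 19 (.nv (.thr 4 55 (.thr 12 51 (.thr 0 8 (.dbl 42 46 63)))) (.nv (.thr 51 12 (.dbl 35 3 44)) (.rp 51 (.thr 9 57 (.thr 5 13 (.thr 4 55 (.thr 6 7 (.dbl 22 28 54))))) (.rp 12 (.thr 35 44 (.thr 3 51 (.dbl 22 28 60))) .nd))))) .nd)))))) (.rp 1 (.thr 57 9 (.thr 17 29 (.thr 0 51 (.thr 42 63 (.thr 59 8 (.thr 43 40 (.thr 11 27 (.dbl 56 26 58)))))))) .nd))))))) (.rp 49 (.thr 17 29 (.thr 57 9 (.str 51 (.nv (.thr 38 12 (.thr 55 4 (.thr 63 59 (.dbl 0 34 42)))) (.nv (.thr 61 1 (.thr 60 54 (.thr 63 62 (.dbl 0 34 42)))) (.nv (.thr 12 38 (.thr 60 54 (.thr 28 44 (.dbl 22 3 19)))) (.rp 50 (.thr 34 0 (.thr 60 54 (.thr 3 22 (.thr 35 19 (.dbl 38 12 44))))) (.rp 34 (.str 50 (.nv (.thr 38 12 (.thr 26 14 (.thr 55 4 (.thr 56 11 (.dbl 59 58 63))))) (.nv (.thr 54 60 (.thr 58 62 (.thr 59 56 (.thr 42 8 (.dbl 63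 0 55))))) (.nv (.thr 12 38 (.thr 60 54 (.thr 28 44 (.dbl 22 3 19)))) .nd)))) (.rp 3 (.thr 60 54 (.thr 12 38 (.thr 28 44 (.thr 22 19 (.thr 20 23 (.dbl 0 34 40)))))) .nd))))))))) (.rp 37 (.thr 17 29 (.str 34 (.nv (.thr 0 51 (.thr 61 1 (.thr 63 42 (.thr 60 62 (.thr 22 3 (.dbl 20 23 40)))))) (.nv (.thr 0 51 (.thr 42 63 (.thr 43 40 (.thr 57 9 (.thr 59 8 (.thr 56 58 (.dbl 11 26 27))))))) (.nv (.thr 51 0 (.thr 57 9 (.thr 12 38 (.thr 60 54 (.thr 28 44 (.dbl 22 3 19)))))) (.rp 51 (.thr 57 9 (.thr 1 61 (.thr 33 49 (.thr 35 32 (.thr 38 44 (.thr 42 46 (.thr 59 8 (.thr 56 58 (.thr 11 26 (.dbl 43 27 40)))))))))) (.rp 0 (.thr 57 9 (.thr 1 61 (.thr 33 49 (.thr 35 32 (.thr 38 44 (.thr 51 12 (.thr 3 19 (.dbl 60 22 54)))))))) .nd))))))) (.rp 34 (.str 50 (.nv (.thr 17 29 (.thr 9 57 (.thr 1 61 (.thr 13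 5 (.dbl 49 33 37))))) (.rp 61 (.str 51 (.nv (.thr 12 38 (.thr 57 9 (.thr 60 54 (.thr 28 44 (.dbl 22 3 19))))) (.nv (.thr 17 29 (.thr 49 48 (.thr 33 1 (.dbl 37 13 45)))) (.rp 3 (.thr 48 49 (.thr 38 12 (.thr 26 14 (.thr 15 37 (.dbl 27 24 39))))) .nd)))) (.rp 57 (.thr 61 1 (.thr 29 17 (.thr 13 45 (.thr 49 37 (.thr 51 48 (.thr 38 12 (.thr 26 14 (.thr 11 56 (.thr 55 4 (.thr 59 63 (.dbl 27 24 43))))))))))) (.rp 53 (.thr 9 57 (.thr 17 29 (.thr 1 61 (.thr 49 33 (.dbl 13 5 37))))) (.rp 49 (.str 51 (.nv (.thr 38 12 (.thr 26 14 (.thr 11 56 (.thr 27 24 (.thr 55 4 (.dbl 59 43 63)))))) (.nv (.thr 38 12 (.thr 57 9 (.thr 35 44 (.thr 60 54 (.dbl 3 19 22))))) (.rp 38 (.thr 57 9 (.thr 61 1 (.thr 60 54 (.thr 63 62 (.thr 59 55 (.dbl 42 0 8)))))) (.rp 12 (.thr 57 9 (.thr 61 1 (.thr 60 54 (.thr 63 62 (.thr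 59 55 (.dbl 42 0 8)))))) (.rp 6 (.thr 57 9 (.thr 60 54 (.thr 3 22 (.thr 38 12 (.dbl 35 19 44))))) .nd)))))) (.rp 37 (.thr 57 9 (.thr 61 1 (.thr 49 53 (.thr 29 17 (.thr 51 48 (.thr 60 54 (.thr 63 62 (.dbl 12 38 46)))))))) (.rp 33 (.thr 57 9 (.thr 61 1 (.thr 49 53 (.thr 29 17 (.dbl 13 37 45))))) (.rp 29 (.thr 57 9 (.thr 61 1 (.thr 49 53 (.thr 51 48 (.thr 60 54 (.thr 3 22 (.thr 35 19 (.dbl 38 12 44)))))))) (.rp 17 (.thr 57 9 (.thr 61 1 (.thr 49 53 (.thr 51 48 (.thr 60 54 (.thr 3 22 (.thr 38 12 (.dbl 35 19 44)))))))) (.rp 13 (.str 51 (.nv (.thr 9 57 (.thr 12 38 (.thr 3 6 (.thr 22 60 (.dbl 19 28 35))))) (.nv (.thr 49 48 (.thr 17 29 (.dbl 1 33 61))) (.rp 3 (.thr 48 49 (.thr 38 12 (.thr 26 14 (.thr 15 37 (.dbl 27 24 39))))) .nd)))) (.rp 9 (.thr 61 1 (.thr 29 17 (.thr 13 45 (.thr 49 37 (.thr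 57 53 (.thr 51 48 (.thr 60 54 (.thr 63 62 (.dbl 12 38 46))))))))) (.rp 5 (.thr 57 9 (.thr 29 17 (.thr 61 1 (.thr 13 45 (.dbl 49 37 53))))) (.rp 1 (.str 3 (.nv (.thr 9 57 (.thr 12 6 (.thr 29 17 (.thr 63 46 (.thr 43 23 (.dbl 42 0 40)))))) (.nv (.thr 22 60 (.thr 20 23 (.thr 28 19 (.thr 16 24 (.thr 31 26 (.dbl 29 17 30)))))) (.nv (.thr 9 57 (.thr 12 6 (.thr 22 60 (.thr 19 28 (.dbl 51 35 38))))) (.rp 19 (.thr 9 57 (.thr 60 22 (.thr 12 6 (.thr 38 51 (.dbl 44 28 35))))) .nd))))) .nd)))))))))))))) (.rp 33 (.thr 29 17 (.thr 57 9 (.thr 61 1 (.thr 49 53 (.dbl 13 37 45))))) (.rp 29 (.thr 61 1 (.thr 9 57 (.str 3 (.nv (.thr 60 22 (.thr 63 62 (.thr 42 0 (.dbl 43 23 40)))) (.nv (.thr 12 6 (.thr 51 38 (.thr 22 60 (.dbl 19 28 35)))) (.rp 60 (.thr 12 6 (.thr 51 38 (.thr 19 35 (.thr 22 28 (.thr 23 20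 (.thr 63 43 (.thr 59 55 (.dbl 42 0 8)))))))) (.rp 50 (.str 34 (.nv (.thr 12 6 (.thr 38 51 (.thr 4 55 (.thr 0 8 (.dbl 42 46 63))))) (.nv (.thr 60 22 (.thr 63 62 (.thr 42 0 (.dbl 43 23 40)))) (.nv (.thr 12 6 (.thr 51 38 (.thr 22 60 (.dbl 19 28 35)))) (.rp 60 (.thr 12 6 (.thr 51 38 (.thr 0 17 (.thr 42 63 (.dbl 8 4 59))))) .nd))))) (.rp 34 (.str 50 (.nv (.thr 12 6 (.thr 22 60 (.thr 19 28 (.dbl 51 35 38)))) (.nv (.thr 60 22 (.thr 63 62 (.thr 42 0 (.dbl 43 23 40)))) (.rp 60 (.thr 12 6 (.thr 51 38 (.thr 48 49 (.thr 24 36 (.thr 26 27 (.thr 11 56 (.dbl 15 7 37))))))) (.rp 51 (.thr 60 22 (.thr 12 6 (.thr 44 28 (.thr 38 35 (.thr 4 55 (.thr 0 8 (.dbl 63 42 62))))))) (.rp 30 (.thr 22 60 (.thr 12 6 (.thr 51 38 (.dbl 19 28 35)))) (.rp 22 (.thr 12 6 (.thr 38 51 (.thr 4 55 (.thr 44 35 (.thr 0 8 (.thr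 60 28 (.dbl 63 42 62))))))) .nd))))))) (.rp 22 (.thr 12 6 (.thr 38 51 (.thr 44 35 (.thr 60 28 (.thr 63 62 (.thr 42 0 (.dbl 43 23 40))))))) .nd))))))))) (.rp 17 (.thr 1 61 (.str 38 (.nv (.thr 4 55 (.thr 9 57 (.thr 5 13 (.thr 6 7 (.dbl 12 3 51))))) (.nv (.thr 4 55 (.thr 12 51 (.thr 0 8 (.thr 44 35 (.thr 60 28 (.thr 40 20 (.dbl 42 43 63))))))) (.nv (.thr 57 9 (.thr 51 12 (.thr 60 54 (.thr 35 44 (.dbl 3 19 22))))) (.rp 51 (.thr 9 57 (.thr 5 13 (.thr 4 55 (.thr 6 7 (.thr 3 12 (.dbl 22 54 60)))))) (.rp 50 (.str 34 (.nv (.thr 9 57 (.thr 5 13 (.thr 35 44 (.thr 33 32 (.dbl 37 45 53))))) (.nv (.thr 4 55 (.thr 42 46 (.thr 8 59 (.dbl 0 12 63)))) (.rp 19 (.str 16 (.nv (.thr 9 57 (.thr 5 13 (.thr 35 44 (.thr 33 32 (.dbl 37 45 53))))) (.nv (.thr 4 55 (.thr 42 46 (.thr 8 59 (.dbl 0 12 63)))) .nd)))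 (.rp 16 (.str 19 (.nv (.thr 4 55 (.thr 12 51 (.thr 0 8 (.dbl 42 46 63)))) (.nv (.thr 51 12 (.dbl 35 3 44)) (.rp 51 (.thr 9 57 (.thr 5 13 (.thr 4 55 (.thr 6 7 (.dbl 22 28 54))))) (.rp 12 (.thr 35 44 (.thr 3 51 (.dbl 22 28 60))) .nd))))) .nd))))) (.rp 34 (.str 50 (.nv (.thr 4 55 (.thr 26 14 (.thr 24 27 (.thr 56 11 (.thr 8 40 (.dbl 12 0 51)))))) (.nv (.thr 51 12 (.thr 9 57 (.thr 13 5 (.dbl 49 37 48)))) (.rp 51 (.str 0 (.nv (.thr 9 57 (.thr 26 14 (.thr 42 63 (.thr 10 58 (.dbl 5 13 15))))) (.nv (.thr 9 57 (.thr 5 13 (.thr 10 15 (.thr 11 8 (.dbl 26 14 56))))) (.nv (.thr 4 55 (.thr 8 12 (.dbl 42 59 63))) (.rp 19 (.str 16 (.nv (.thr 4 55 (.thr 8 12 (.dbl 42 59 63))) (.nv (.dbl 26 14 31) (.rp 35 (.str 3 (.nv (.thr 4 55 (.thr 8 12 (.dbl 42 59 63))) (.nv (.dbl 26 14 31) (.rp 33 (.thr 32 48 (.dbl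 26 14 31)) (.rp 32 (.str 33 (.nv (.thr 4 55 (.thr 8 12 (.dbl 42 59 63))) (.nv (.dbl 26 14 31) .nd))) .nd))))) (.rp 3 (.thr 35 44 (.dbl 26 14 31)) .nd))))) (.rp 16 (.str 19 (.nv (.thr 22 28 (.thr 20 23 (.dbl 60 3 40))) (.nv (.thr 4 55 (.thr 8 12 (.dbl 42 59 63))) .nd))) .nd)))))) (.rp 19 (.str 16 (.nv (.dbl 26 14 31) (.rp 51 (.str 0 (.nv (.thr 4 55 (.thr 8 12 (.dbl 42 59 63))) (.nv (.dbl 26 14 31) (.rp 35 (.str 3 (.nv (.thr 4 55 (.thr 8 12 (.dbl 42 59 63))) (.nv (.dbl 26 14 31) (.rp 33 (.thr 32 48 (.dbl 26 14 31)) (.rp 32 (.str 33 (.nv (.thr 4 55 (.thr 8 12 (.dbl 42 59 63))) (.nv (.dbl 26 14 31) .nd))) .nd))))) (.rp 3 (.thr 35 44 (.dbl 26 14 31)) .nd))))) (.rp 31 (.thr 9 57 (.thr 13 5 (.thr 49 37 (.dbl 51 12 48)))) (.rp 26 (.thr 9 57 (.thr 13 5 (.thr 49 37 (.dbl 51 12 48)))) (.rp 14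 (.thr 9 57 (.thr 13 5 (.thr 49 37 (.dbl 51 12 48)))) (.rp 0 (.thr 51 12 (.dbl 26 14 31)) .nd))))))) (.rp 16 (.str 19 (.nv (.thr 26 14 (.thr 27 24 (.thr 23 31 (.dbl 22 20 28)))) (.nv (.thr 51 12 (.dbl 35 3 44)) (.rp 51 (.str 0 (.nv (.thr 22 28 (.thr 20 23 (.dbl 60 3 40))) (.nv (.thr 4 55 (.thr 8 12 (.dbl 42 59 63))) .nd))) .nd)))) (.rp 12 (.thr 57 9 (.thr 26 14 (.thr 24 27 (.thr 56 11 (.thr 8 40 (.dbl 59 42 58)))))) .nd))))))) (.rp 19 (.str 16 (.nv (.thr 9 57 (.thr 12 51 (.thr 35 44 (.thr 13 5 (.thr 14 15 (.dbl 26 31 50)))))) (.nv (.thr 4 55 (.thr 12 51 (.thr 0 8 (.thr 48 32 (.thr 24 36 (.dbl 26 27 31)))))) (.nv (.thr 4 55 (.thr 9 57 (.thr 5 13 (.thr 6 7 (.dbl 12 3 51))))) (.rp 51 (.thr 57 9 (.thr 26 31 (.thr 56 11 (.thr 59 58 (.thr 8 42 (.dbl 24 27 40)))))) (.rp 50 (.str 34 (.nv (.thr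 9 57 (.thr 5 13 (.thr 35 44 (.thr 33 32 (.dbl 37 45 53))))) (.nv (.thr 4 55 (.thr 42 46 (.thr 8 59 (.dbl 0 12 63)))) .nd))) (.rp 34 (.str 50 (.nv (.dbl 26 14 31) (.rp 51 (.str 0 (.nv (.thr 4 55 (.thr 8 12 (.dbl 42 59 63))) (.nv (.dbl 26 14 31) (.rp 35 (.str 3 (.nv (.thr 4 55 (.thr 8 12 (.dbl 42 59 63))) (.nv (.dbl 26 14 31) (.rp 33 (.thr 32 48 (.dbl 26 14 31)) (.rp 32 (.str 33 (.nv (.thr 4 55 (.thr 8 12 (.dbl 42 59 63))) (.nv (.dbl 26 14 31) .nd))) .nd))))) (.rp 3 (.thr 35 44 (.dbl 26 14 31)) .nd))))) (.rp 31 (.thr 9 57 (.thr 13 5 (.thr 49 37 (.dbl 51 12 48)))) (.rp 26 (.thr 9 57 (.thr 13 5 (.thr 49 37 (.dbl 51 12 48)))) (.rp 14 (.thr 9 57 (.thr 13 5 (.thr 49 37 (.dbl 51 12 48)))) (.rp 0 (.thr 51 12 (.dbl 26 14 31)) .nd))))))) (.rp 12 (.thr 57 9 (.thr 26 31 (.thr 56 11 (.thr 59 58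 (.thr 8 42 (.dbl 24 27 40)))))) .nd)))))))) (.rp 16 (.str 19 (.nv (.thr 9 57 (.thr 12 51 (.thr 3 6 (.dbl 22 28 60)))) (.nv (.thr 51 12 (.dbl 35 3 44)) (.rp 51 (.thr 9 57 (.thr 5 13 (.thr 4 55 (.thr 6 7 (.dbl 22 28 54))))) (.rp 50 (.str 34 (.nv (.thr 4 55 (.thr 12 51 (.thr 0 8 (.dbl 42 46 63)))) (.nv (.thr 51 12 (.dbl 35 3 44)) (.rp 51 (.thr 9 57 (.thr 5 13 (.thr 4 55 (.thr 6 7 (.dbl 22 28 54))))) (.rp 12 (.thr 35 44 (.thr 3 51 (.dbl 22 28 60))) .nd))))) (.rp 34 (.str 50 (.nv (.thr 26 14 (.thr 27 24 (.thr 23 31 (.dbl 22 20 28)))) (.nv (.thr 51 12 (.dbl 35 3 44)) (.rp 51 (.str 0 (.nv (.thr 22 28 (.thr 20 23 (.dbl 60 3 40))) (.nv (.thr 4 55 (.thr 8 12 (.dbl 42 59 63))) .nd))) .nd)))) (.rp 12 (.thr 35 44 (.thr 3 51 (.dbl 22 28 60))) (.rp 3 (.thr 12 51 (.thr 44 35 (.dbl 28 22 60))) .nd))))))))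 (.rp 12 (.thr 9 57 (.thr 5 13 (.thr 53 37 (.thr 55 4 (.thr 54 52 (.thr 22 6 (.thr 60 3 (.thr 20 23 (.thr 0 40 (.thr 28 19 (.thr 16 24 (.thr 48 32 (.dbl 63 42 58))))))))))))) (.rp 3 (.thr 9 57 (.thr 51 12 (.thr 55 4 (.thr 59 63 (.thr 8 42 (.thr 11 10 (.thr 26 56 (.dbl 27 24 43)))))))) .nd)))))))))))) (.rp 13 (.thr 17 29 (.thr 61 1 (.thr 9 57 (.str 3 (.nv (.thr 60 22 (.thr 63 62 (.thr 42 0 (.dbl 43 23 40)))) (.nv (.thr 12 6 (.thr 51 38 (.thr 22 60 (.dbl 19 28 35)))) (.rp 60 (.thr 12 6 (.thr 51 38 (.thr 19 35 (.thr 22 28 (.thr 23 20 (.thr 63 43 (.dbl 0 34 42))))))) (.rp 50 (.str 34 (.nv (.thr 60 22 (.thr 63 62 (.thr 42 0 (.dbl 43 23 40)))) (.nv (.thr 51 0 (.dbl 12 6 38)) (.rp 0 (.thr 12 6 (.thr 51 38 (.thr 19 35 (.dbl 22 28 60)))) .nd)))) (.rp 34 (.str 50 (.nv (.thr 12 6 (.thr 38 51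 (.thr 44 35 (.dbl 60 22 28)))) (.nv (.thr 60 22 (.thr 63 62 (.thr 42 0 (.dbl 43 23 40)))) (.rp 60 (.thr 12 6 (.thr 51 38 (.thr 48 49 (.thr 24 36 (.thr 26 27 (.thr 11 56 (.dbl 15 7 37))))))) (.rp 22 (.thr 12 6 (.thr 38 51 (.thr 4 55 (.thr 44 35 (.thr 0 8 (.thr 60 28 (.dbl 63 42 62))))))) .nd))))) (.rp 22 (.thr 12 6 (.thr 38 51 (.thr 44 35 (.thr 60 28 (.thr 63 62 (.thr 42 0 (.dbl 43 23 40))))))) .nd)))))))))) (.rp 9 (.thr 1 61 (.str 12 (.nv (.thr 38 51 (.thr 4 55 (.thr 0 8 (.thr 44 35 (.thr 60 28 (.thr 20 40 (.dbl 22 3 23))))))) (.nv (.thr 29 17 (.thr 63 46 (.thr 51 38 (.thr 59 55 (.dbl 42 0 8))))) (.rp 63 (.thr 17 29 (.thr 49 33 (.thr 51 38 (.thr 48 50 (.thr 34 0 (.thr 24 36 (.thr 26 27 (.dbl 37 13 15)))))))) (.rp 59 (.thr 29 17 (.thr 63 46 (.thr 0 42 (.thr 4 8 (.dbl 38 51 55)))))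 (.rp 55 (.thr 29 17 (.thr 63 46 (.thr 0 42 (.thr 38 51 (.thr 44 35 (.thr 60 28 (.thr 20 40 (.dbl 22 3 23)))))))) (.rp 51 (.thr 29 17 (.thr 63 46 (.thr 0 42 (.thr 4 8 (.thr 38 55 (.thr 44 35 (.thr 60 28 (.thr 20 40 (.dbl 22 3 23))))))))) (.rp 50 (.str 34 (.nv (.thr 38 51 (.thr 4 55 (.thr 0 8 (.dbl 42 46 63)))) (.nv (.thr 17 29 (.dbl 51 0 38)) (.rp 51 (.thr 29 17 (.thr 46 63 (.thr 38 42 (.thr 44 35 (.thr 60 28 (.thr 45 47 (.thr 37 33 (.thr 15 30 (.dbl 13 14 49))))))))) (.rp 38 (.thr 17 29 (.thr 0 51 (.thr 8 4 (.dbl 42 59 63)))) (.rp 0 (.thr 29 17 (.thr 38 51 (.dbl 46 42 63))) .nd)))))) (.rp 38 (.thr 29 17 (.thr 63 46 (.thr 42 0 (.thr 8 59 (.thr 40 43 (.thr 24 56 (.thr 48 36 (.thr 58 53 (.dbl 26 10 27))))))))) (.rp 34 (.str 50 (.nv (.thr 17 29 (.thr 49 33 (.dbl 51 38 48))) (.nv (.thr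 29 17 (.thr 51 38 (.thr 63 46 (.thr 42 0 (.dbl 59 8 55))))) (.nv (.thr 51 38 (.thr 49 48 (.dbl 17 29 33))) (.rp 51 (.str 0 (.nv (.thr 29 17 (.dbl 63 42 46)) (.nv (.thr 8 4 (.dbl 42 59 63)) (.rp 63 (.thr 4 8 (.thr 17 29 (.thr 49 33 (.thr 13 37 (.thr 14 15 (.dbl 38 26 55)))))) (.rp 42 (.thr 4 8 (.thr 17 29 (.thr 49 33 (.thr 13 37 (.thr 38 55 (.dbl 14 15 26)))))) .nd))))) (.rp 38 (.thr 17 29 (.thr 49 33 (.thr 48 51 (.thr 24 36 (.thr 26 27 (.dbl 37 13 15)))))) (.rp 29 (.thr 51 38 (.thr 49 48 (.thr 33 17 (.dbl 37 13 45)))) (.rp 17 (.thr 51 38 (.thr 48 49 (.thr 24 36 (.thr 26 27 (.thr 56 11 (.thr 8 40 (.thr 0 4 (.dbl 16 31 32)))))))) .nd)))))))) (.rp 19 (.thr 38 51 (.thr 4 55 (.thr 0 8 (.thr 63 42 (.dbl 29 17 46))))) (.rp 8 (.thr 29 17 (.thr 63 46 (.thr 0 42 (.thr 38 51 (.thr 44 35 (.thr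 60 28 (.thr 20 40 (.dbl 22 3 23)))))))) (.rp 0 (.thr 29 17 (.thr 63 46 (.thr 51 38 (.thr 59 55 (.thr 42 8 (.thr 43 40 (.thr 3 23 (.thr 19 35 (.dbl 22 28 60))))))))) .nd)))))))))))))) (.rp 5 (.thr 29 17 (.thr 57 9 (.thr 61 1 (.thr 13 45 (.dbl 49 37 53))))) (.rp 1 (.thr 17 29 (.str 3 (.nv (.thr 9 57 (.thr 12 6 (.thr 22 60 (.thr 23 20 (.thr 51 38 (.thr 63 43 (.dbl 0 34 42))))))) (.nv (.thr 22 60 (.thr 19 28 (.thr 23 20 (.thr 51 35 (.thr 63 43 (.dbl 0 34 42)))))) (.nv (.thr 9 57 (.thr 12 6 (.thr 51 38 (.thr 22 60 (.dbl 19 28 35))))) (.rp 60 (.thr 9 57 (.thr 12 6 (.thr 51 38 (.thr 19 35 (.thr 22 28 (.thr 23 20 (.thr 63 43 (.dbl 0 34 42)))))))) (.rp 51 (.thr 22 60 (.thr 19 28 (.thr 23 20 (.thr 63 43 (.thr 31 27 (.thr 15 47 (.thr 11 7 (.dbl 26 16 56)))))))) (.rp 50 (.str 34 (.nv (.thr 51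 0 (.thr 19 35 (.dbl 22 28 60))) (.nv (.thr 9 57 (.thr 51 0 (.dbl 12 6 38))) (.rp 51 (.thr 9 57 (.thr 12 6 (.thr 60 22 (.thr 44 28 (.thr 38 35 (.thr 42 46 (.thr 63 0 (.dbl 43 23 40)))))))) (.rp 0 (.thr 9 57 (.thr 12 6 (.thr 51 38 (.thr 19 35 (.dbl 22 28 60))))) .nd))))) (.rp 34 (.str 50 (.nv (.thr 57 9 (.thr 60 22 (.thr 51 54 (.thr 49 48 (.thr 53 61 (.dbl 37 5 13)))))) (.nv (.thr 9 57 (.thr 12 6 (.thr 51 38 (.thr 22 60 (.dbl 19 28 35))))) (.rp 60 (.thr 9 57 (.thr 12 6 (.thr 51 38 (.thr 48 49 (.thr 24 36 (.thr 26 27 (.thr 11 56 (.dbl 15 7 37)))))))) (.rp 57 (.thr 22 60 (.thr 23 20 (.thr 63 43 (.thr 19 28 (.thr 51 35 (.thr 59 55 (.dbl 42 0 8))))))) (.rp 51 (.thr 22 60 (.thr 23 20 (.thr 63 43 (.thr 19 28 (.thr 31 27 (.thr 15 47 (.thr 11 7 (.dbl 26 16 56)))))))) (.rp 42 (.thr 9 57 (.thr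 22 60 (.thr 19 28 (.thr 51 35 (.dbl 12 6 38))))) (.rp 38 (.thr 57 9 (.thr 22 60 (.thr 19 28 (.thr 51 35 (.thr 49 48 (.thr 53 61 (.dbl 37 5 13))))))) (.rp 22 (.thr 9 57 (.thr 12 6 (.thr 38 51 (.thr 4 55 (.thr 8 0 (.thr 26 14 (.thr 10 11 (.dbl 42 58 59)))))))) (.rp 9 (.thr 22 60 (.thr 23 20 (.thr 63 43 (.thr 19 28 (.thr 51 35 (.thr 59 55 (.dbl 42 0 8))))))) (.rp 6 (.thr 57 9 (.thr 60 22 (.thr 51 54 (.thr 38 12 (.dbl 35 19 44))))) .nd))))))))))) (.rp 22 (.thr 9 57 (.thr 12 6 (.thr 38 51 (.thr 44 35 (.thr 60 28 (.thr 4 55 (.thr 0 8 (.thr 40 20 (.dbl 42 43 63))))))))) (.rp 12 (.thr 57 9 (.thr 60 22 (.thr 51 54 (.thr 35 19 (.thr 38 44 (.thr 55 4 (.thr 63 59 (.dbl 0 34 42)))))))) .nd))))))))))) .nd))))))))))))))))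

theorem w169 : WinAt (2199025352704, 262148) :=
  chF (K := []) kn c169 2199025352704 262148 18
    [1125917086973956] (by decide +kernel) (by decide +kernel)

/-- A certificate. -/
noncomputable def c170 : Ct := (.str 25 (.nv (.thr 9 57 (.thr 17 29 (.thr 13 5 (.dbl 49 33 37)))) (.rp 57 (.thr 17 29 (.thr 49 33 (.thr 13 37 (.str 0 (.nv (.thr 5 9 (.thr 15 10 (.thr 51 34 (.dbl 12 14 38)))) (.nv (.thr 5 9 (.thr 15 10 (.thr 42 63 (.thr 8 59 (.dbl 12 4 14))))) (.nv (.thr 51 34 (.thr 38 12 (.thr 55 4 (.dbl 63 42 59)))) (.rp 51 (.thr 5 9 (.thr 10 15 (.thr 42 63 (.thr 59 8 (.thr 43 40 (.thr 27 11 (.dbl 26 24 58))))))) (.rp 12 (.thr 5 9 (.thr 15 10 (.thr 51 34 (.thr 27 39 (.thr 26 24 (.thr 16 31 (.dbl 48 32 50))))))) .nd))))))))) (.rp 53 (.thr 17 29 (.thr 9 57 (.thr 49 33 (.dbl 13 5 37))))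 (.rp 49 (.thr 57 9 (.str 51 (.nv (.thr 17 29 (.thr 0 34 (.thr 60 54 (.thr 20 40 (.dbl 22 3 23))))) (.nv (.thr 12 38 (.thr 29 17 (.thr 63 46 (.thr 42 0 (.dbl 59 8 55))))) (.rp 29 (.thr 60 54 (.thr 3 22 (.thr 38 12 (.thr 55 4 (.thr 63 59 (.thr 43 23 (.dbl 42 0 40))))))) (.rp 18 (.thr 17 29 (.thr 60 54 (.thr 22 3 (.thr 20 23 (.dbl 0 34 40))))) (.rp 17 (.thr 60 54 (.thr 3 22 (.thr 38 12 (.thr 55 4 (.thr 63 59 (.thr 43 23 (.dbl 42 0 40))))))) (.rp 0 (.thr 29 17 (.thr 60 54 (.thr 22 3 (.thr 20 23 (.thr 12 38 (.thr 28 44 (.thr 16 24 (.dbl 31 26 30)))))))) .nd)))))))) (.rp 37 (.str 51 (.nv (.thr 12 38 (.thr 29 17 (.thr 63 46 (.thr 42 0 (.dbl 59 8 55))))) (.nv (.thr 17 29 (.thr 0 34 (.thr 57 9 (.thr 60 54 (.thr 20 40 (.dbl 22 3 23)))))) (.nv (.thr 38 12 (.thr 55 4 (.thr 17 29 (.thr 63 59 (.dbl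 0 34 42))))) (.rp 29 (.thr 57 9 (.thr 60 54 (.thr 3 22 (.thr 38 12 (.thr 55 4 (.thr 63 59 (.thr 43 23 (.dbl 42 0 40)))))))) (.rp 17 (.thr 57 9 (.thr 60 54 (.thr 3 22 (.thr 38 12 (.thr 55 4 (.thr 63 59 (.thr 43 23 (.dbl 42 0 40)))))))) (.rp 0 (.thr 9 57 (.thr 29 17 (.thr 12 38 (.thr 63 46 (.thr 3 6 (.thr 23 43 (.dbl 22 20 60))))))) .nd))))))) (.rp 33 (.str 51 (.nv (.thr 17 29 (.thr 0 34 (.thr 57 9 (.thr 60 54 (.thr 20 40 (.dbl 22 3 23)))))) (.nv (.thr 9 57 (.thr 12 38 (.thr 13 5 (.thr 15 14 (.thr 27 39 (.thr 26 24 (.dbl 37 48 49))))))) (.nv (.thr 12 38 (.thr 29 17 (.thr 63 46 (.thr 42 0 (.dbl 59 8 55))))) .nd)))) (.rp 29 (.thr 9 57 (.thr 13 5 (.thr 49 37 (.str 51 (.nv (.thr 17 33 (.thr 38 12 (.thr 55 4 (.thr 63 59 (.dbl 0 34 42))))) (.nv (.thr 33 17 (.thr 48 50 (.thr 12 38 (.dbl 3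 6 18)))) (.rp 38 (.thr 17 33 (.thr 0 34 (.thr 42 63 (.thr 8 59 (.thr 11 10 (.thr 56 26 (.dbl 40 24 43))))))) (.rp 34 (.thr 33 17 (.thr 12 38 (.thr 3 6 (.dbl 48 18 50)))) (.rp 33 (.thr 12 38 (.thr 3 6 (.thr 22 60 (.thr 23 20 (.thr 63 43 (.thr 59 55 (.dbl 42 0 8))))))) (.rp 17 (.thr 48 50 (.thr 12 38 (.thr 3 6 (.thr 18 33 (.thr 22 60 (.thr 26 30 (.dbl 24 27 36))))))) (.rp 12 (.thr 17 33 (.thr 50 48 (.thr 0 34 (.thr 63 42 (.thr 55 59 (.thr 38 4 (.thr 35 44 (.thr 26 14 (.thr 24 27 (.thr 31 16 (.thr 47 15 (.thr 43 39 (.thr 3 23 (.thr 56 11 (.thr 40 8 (.dbl 60 20 22)))))))))))))))) (.rp 6 (.thr 17 33 (.thr 0 34 (.thr 63 42 (.thr 55 59 (.dbl 38 4 12))))) .nd)))))))))))) (.rp 17 (.str 8 (.nv (.thr 9 57 (.thr 10 11 (.thr 5 13 (.thr 0 15 (.dbl 42 59 63))))) (.nv (.thr 42 59 (.thr 40 43 (.thr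 56 24 (.thr 11 26 (.dbl 9 10 57))))) (.rp 59 (.thr 9 57 (.thr 5 13 (.thr 10 11 (.thr 0 15 (.thr 12 4 (.thr 63 42 (.thr 3 6 (.thr 22 60 (.dbl 23 20 43))))))))) (.rp 57 (.thr 42 59 (.thr 40 43 (.thr 0 63 (.thr 60 20 (.thr 12 4 (.thr 44 28 (.dbl 38 35 51))))))) (.rp 42 (.thr 9 57 (.thr 5 13 (.thr 10 11 (.thr 0 15 (.thr 12 4 (.thr 3 6 (.thr 38 51 (.thr 44 35 (.dbl 60 22 28))))))))) (.rp 18 (.str 16 (.nv (.thr 9 57 (.thr 5 13 (.thr 10 11 (.thr 0 15 (.dbl 42 59 63))))) (.nv (.thr 26 31 (.thr 56 11 (.dbl 24 27 40))) (.rp 50 (.str 34 (.nv (.thr 42 59 (.thr 0 63 (.thr 4 12 (.dbl 38 46 55)))) (.nv (.thr 26 31 (.thr 56 11 (.dbl 24 27 40))) .nd))) (.rp 34 (.str 50 (.nv (.thr 9 57 (.thr 5 13 (.thr 10 11 (.thr 0 15 (.dbl 42 59 63))))) (.nv (.thr 26 31 (.thr 56 11 (.dbl 24 27 40))) (.rp 51 (.str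 0 (.nv (.thr 4 12 (.thr 26 31 (.dbl 38 14 55))) (.nv (.dbl 42 59 63) (.rp 35 (.str 3 (.nv (.thr 32 48 (.thr 9 57 (.dbl 12 4 6))) (.nv (.dbl 42 59 63) (.rp 32 (.str 33 (.nv (.thr 9 57 (.dbl 12 4 6)) (.nv (.dbl 42 59 63) .nd))) .nd)))) (.rp 3 (.str 35 (.nv (.thr 48 32 (.thr 4 12 (.dbl 38 44 55))) (.nv (.dbl 42 59 63) (.rp 48 (.str 33 (.nv (.thr 4 12 (.dbl 38 44 55)) (.nv (.dbl 42 59 63) .nd))) .nd)))) .nd))))) (.rp 11 (.thr 26 31 (.thr 38 14 (.thr 4 55 (.dbl 12 0 51)))) (.rp 0 (.str 51 (.nv (.thr 9 57 (.thr 13 5 (.dbl 49 37 48))) (.nv (.thr 38 12 (.dbl 26 14 31)) .nd))) .nd)))))) (.rp 11 (.thr 57 9 (.thr 26 31 (.thr 59 42 (.thr 56 58 (.dbl 24 27 40))))) .nd)))))) (.rp 16 (.str 18 (.nv (.thr 9 57 (.thr 10 11 (.thr 5 13 (.thr 0 15 (.dbl 42 59 63))))) (.nv (.thr 57 9 (.thr 59 42 (.thr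 56 58 (.thr 26 11 (.dbl 24 27 40))))) (.rp 59 (.thr 9 57 (.thr 5 13 (.thr 10 11 (.thr 0 15 (.thr 12 4 (.thr 3 6 (.thr 33 48 (.dbl 37 45 53)))))))) (.rp 57 (.thr 42 59 (.thr 40 43 (.thr 0 63 (.thr 60 20 (.thr 3 22 (.thr 48 33 (.dbl 56 24 52))))))) (.rp 42 (.thr 9 57 (.thr 11 10 (.thr 26 56 (.thr 22 30 (.thr 3 60 (.thr 48 33 (.dbl 15 7 37))))))) (.rp 11 (.thr 9 57 (.thr 42 59 (.thr 0 63 (.thr 12 4 (.thr 3 6 (.thr 60 22 (.dbl 40 20 43))))))) (.rp 9 (.thr 42 59 (.thr 40 43 (.thr 0 63 (.thr 60 20 (.thr 3 22 (.thr 48 33 (.dbl 56 24 52))))))) .nd)))))))) (.rp 11 (.thr 9 57 (.thr 42 59 (.thr 0 63 (.thr 12 4 (.thr 3 6 (.thr 60 22 (.dbl 40 20 43))))))) (.rp 10 (.thr 57 9 (.thr 59 42 (.thr 56 58 (.thr 26 11 (.dbl 24 27 40))))) (.rp 9 (.thr 42 59 (.thr 40 43 (.thr 0 63 (.thr 60 20 (.thr 12 4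 (.thr 44 28 (.dbl 38 35 51))))))) .nd))))))))))) (.rp 13 (.thr 57 9 (.str 42 (.nv (.thr 0 63 (.thr 40 43 (.thr 60 20 (.thr 51 54 (.dbl 17 29 34))))) (.nv (.thr 29 17 (.thr 63 0 (.thr 12 46 (.thr 51 38 (.dbl 59 8 55))))) (.nv (.thr 59 8 (.thr 43 40 (.thr 56 58 (.dbl 11 26 27)))) (.rp 29 (.str 45 (.nv (.thr 0 63 (.thr 33 37 (.thr 17 49 (.thr 34 51 (.thr 35 32 (.dbl 38 44 46)))))) (.nv (.thr 43 40 (.thr 59 8 (.thr 56 58 (.dbl 11 26 27)))) (.rp 59 (.thr 37 33 (.thr 47 32 (.thr 43 40 (.thr 35 39 (.dbl 44 38 46))))) .nd)))) .nd)))))) (.rp 9 (.str 0 (.nv (.thr 17 29 (.thr 33 49 (.thr 34 51 (.thr 35 32 (.thr 38 44 (.dbl 42 46 63)))))) (.nv (.thr 42 63 (.thr 8 59 (.thr 12 4 (.thr 51 38 (.dbl 17 29 34))))) (.rp 63 (.thr 17 29 (.thr 49 33 (.thr 51 34 (.thr 12 38 (.thr 8 4 (.thr 42 59 (.thr 40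 43 (.thr 24 56 (.dbl 48 36 50))))))))) (.rp 51 (.thr 17 29 (.thr 33 49 (.thr 42 63 (.thr 40 43 (.thr 60 20 (.thr 3 22 (.thr 48 18 (.thr 56 52 (.dbl 8 24 59))))))))) (.rp 42 (.thr 17 29 (.thr 49 33 (.thr 51 34 (.thr 50 48 (.thr 38 12 (.thr 55 4 (.thr 63 59 (.thr 26 14 (.thr 31 16 (.thr 15 47 (.dbl 27 24 39))))))))))) (.rp 38 (.thr 42 63 (.thr 8 59 (.thr 12 4 (.thr 40 43 (.thr 60 20 (.thr 44 28 (.thr 24 56 (.dbl 36 32 48)))))))) (.rp 34 (.thr 29 17 (.thr 63 42 (.thr 12 46 (.thr 38 51 (.dbl 4 8 55))))) (.rp 29 (.thr 42 63 (.thr 8 59 (.thr 12 4 (.thr 40 43 (.thr 60 20 (.thr 44 28 (.dbl 38 35 51))))))) (.rp 17 (.thr 42 63 (.thr 8 59 (.thr 12 4 (.thr 40 43 (.thr 60 20 (.thr 44 28 (.dbl 38 35 51))))))) .nd)))))))))) (.rp 5 (.str 51 (.nv (.thr 9 57 (.thr 12 38 (.thr 3 6 (.thr 22 60 (.thr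 23 20 (.thr 63 43 (.dbl 29 17 46))))))) (.nv (.thr 17 29 (.thr 0 34 (.thr 57 9 (.thr 60 54 (.thr 20 40 (.dbl 22 3 23)))))) (.nv (.thr 12 38 (.thr 29 17 (.thr 63 46 (.thr 59 55 (.dbl 42 0 8))))) (.rp 29 (.thr 57 9 (.thr 60 54 (.thr 3 22 (.thr 38 12 (.thr 55 4 (.thr 63 59 (.thr 43 23 (.dbl 42 0 40)))))))) (.rp 17 (.thr 57 9 (.thr 60 54 (.thr 3 22 (.thr 38 12 (.thr 55 4 (.thr 63 59 (.thr 43 23 (.dbl 42 0 40)))))))) (.rp 0 (.thr 9 57 (.thr 29 17 (.thr 12 38 (.thr 63 46 (.thr 3 6 (.thr 23 43 (.dbl 22 20 60))))))) .nd))))))) .nd))))))))))))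

theorem w170 : WinAt (2199025352706, 2305843009214218244) :=
  chF (K := []) kn c170 2199025352706 2305843009214218244 61
    [] (by decide +kernel) (by decide +kernel)

/-- A certificate. -/
noncomputable def c171 : Ct := (.str 25 (.nv (.thr 17 29 (.thr 9 57 (.thr 49 33 (.dbl 13 5 37)))) (.rp 57 (.thr 17 29 (.thr 49 33 (.thr 13 37 (.str 12 (.nv (.thr 51 38 (.thr 0 34 (.thr 8 4 (.dbl 42 59 63)))) (.nv (.thr 9 5 (.thr 38 51 (.thr 44 35 (.thr 60 28 (.dbl 3 6 22))))) (.nv (.thr 5 9 (.thr 15 14 (.thr 51 38 (.dbl 0 10 34)))) (.rp 51 (.thr 9 5 (.thr 14 15 (.thr 3 6 (.thr 60 22 (.thr 44 28 (.thr 38 35 (.thr 4 55 (.thr 26 50 (.thr 11 56 (.dbl 8 0 10)))))))))) (.rp 38 (.thr 9 5 (.thr 3 6 (.thr 22 60 (.thr 19 28 (.thr 51 35 (.thr 16 18 (.thr 31 26 (.thr 27 23 (.dbl 15 14 39))))))))) (.rp 34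 (.thr 9 5 (.thr 3 6 (.thr 60 22 (.thr 44 28 (.dbl 38 35 51))))) .nd)))))))))) (.rp 49 (.thr 29 17 (.thr 57 9 (.str 12 (.nv (.thr 38 51 (.thr 4 55 (.thr 0 8 (.dbl 63 42 46)))) (.nv (.thr 51 38 (.thr 60 54 (.thr 22 3 (.dbl 28 19 44)))) (.rp 51 (.thr 63 46 (.thr 0 42 (.thr 4 8 (.thr 38 55 (.thr 44 35 (.thr 28 60 (.thr 31 30 (.thr 15 47 (.thr 26 16 (.dbl 14 13 50)))))))))) (.rp 38 (.thr 63 46 (.thr 42 0 (.thr 59 8 (.thr 56 58 (.thr 11 26 (.dbl 43 27 40)))))) .nd))))))) (.rp 45 (.thr 9 57 (.thr 17 29 (.thr 13 5 (.dbl 49 33 37)))) (.rp 37 (.str 16 (.nv (.thr 17 29 (.thr 33 49 (.thr 18 19 (.thr 3 48 (.thr 26 31 (.dbl 22 30 60)))))) (.nv (.thr 17 29 (.thr 19 18 (.thr 22 28 (.thr 3 60 (.thr 51 35 (.thr 12 38 (.dbl 9 6 57))))))) (.nv (.thr 9 57 (.thr 26 31 (.thr 27 24 (.thr 11 56 (.thr 59 43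 (.dbl 8 10 42)))))) (.rp 57 (.thr 17 29 (.thr 19 18 (.thr 22 28 (.thr 3 60 (.thr 51 35 (.thr 31 26 (.thr 23 27 (.thr 63 43 (.dbl 0 34 42))))))))) (.rp 31 (.thr 17 29 (.thr 33 49 (.thr 18 19 (.thr 48 3 (.thr 0 32 (.thr 51 34 (.thr 12 38 (.thr 8 4 (.dbl 42 59 63))))))))) .nd)))))) (.rp 33 (.str 8 (.nv (.thr 17 29 (.thr 42 59 (.thr 0 63 (.thr 12 4 (.dbl 51 34 38))))) (.nv (.thr 9 57 (.thr 5 13 (.thr 10 11 (.thr 0 15 (.thr 12 4 (.thr 51 38 (.dbl 17 29 34))))))) (.nv (.thr 57 9 (.thr 59 42 (.thr 56 58 (.thr 26 11 (.dbl 24 27 40))))) .nd)))) (.rp 29 (.thr 9 57 (.thr 13 5 (.thr 49 37 (.str 51 (.nv (.thr 12 38 (.thr 3 6 (.thr 19 35 (.dbl 22 28 60)))) (.nv (.thr 17 33 (.thr 0 34 (.thr 38 12 (.thr 63 42 (.dbl 55 4 59))))) (.nv (.thr 33 17 (.thr 48 50 (.thr 12 38 (.dbl 3 6 18)))) (.rp 38 (.thr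 17 33 (.thr 0 34 (.thr 42 63 (.thr 8 59 (.thr 11 10 (.thr 56 26 (.dbl 40 24 43))))))) (.rp 12 (.thr 17 33 (.thr 50 48 (.thr 0 34 (.thr 63 42 (.thr 55 59 (.thr 38 4 (.thr 35 44 (.thr 26 14 (.thr 16 31 (.dbl 19 3 18)))))))))) .nd))))))))) (.rp 17 (.str 8 (.nv (.thr 9 57 (.thr 5 13 (.thr 10 11 (.thr 0 15 (.dbl 42 59 63))))) (.nv (.thr 57 9 (.thr 59 42 (.thr 56 58 (.thr 26 11 (.dbl 24 27 40))))) (.rp 59 (.thr 9 57 (.thr 5 13 (.thr 10 11 (.thr 0 15 (.thr 12 4 (.thr 3 6 (.thr 60 22 (.thr 44 28 (.dbl 38 35 51))))))))) (.rp 57 (.thr 42 59 (.thr 40 43 (.thr 56 24 (.thr 11 26 (.thr 9 10 (.thr 5 13 (.thr 53 37 (.thr 63 0 (.thr 48 58 (.thr 60 52 (.thr 3 22 (.thr 7 15 (.dbl 6 4 12))))))))))))) (.rp 42 (.thr 9 57 (.thr 5 13 (.thr 10 11 (.thr 0 15 (.thr 12 4 (.thr 3 6 (.thr 22 60 (.thr 19 28 (.dbl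 51 35 38))))))))) (.rp 11 (.thr 9 57 (.thr 42 59 (.thr 0 63 (.thr 12 4 (.thr 3 6 (.thr 60 22 (.thr 44 28 (.dbl 38 35 51)))))))) (.rp 9 (.thr 42 59 (.thr 40 43 (.thr 24 56 (.thr 0 63 (.thr 12 4 (.thr 36 48 (.thr 44 32 (.dbl 38 35 51)))))))) .nd)))))))) (.rp 13 (.thr 29 17 (.str 12 (.nv (.thr 9 57 (.thr 3 6 (.thr 63 46 (.thr 43 23 (.dbl 42 0 40))))) (.nv (.thr 57 9 (.thr 51 38 (.thr 60 54 (.thr 22 3 (.dbl 28 19 44))))) (.nv (.thr 38 51 (.thr 4 55 (.thr 63 46 (.dbl 0 8 42)))) .nd))))) (.rp 9 (.str 0 (.nv (.thr 17 29 (.thr 33 49 (.thr 34 51 (.thr 35 32 (.thr 38 44 (.dbl 42 46 63)))))) (.nv (.thr 29 17 (.thr 63 42 (.thr 12 46 (.thr 38 51 (.dbl 4 8 55))))) (.rp 63 (.thr 17 29 (.thr 49 33 (.thr 51 34 (.thr 12 38 (.thr 8 4 (.thr 42 59 (.thr 40 43 (.thr 24 56 (.dbl 48 36 50))))))))) (.rp 51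 (.thr 29 17 (.thr 63 42 (.thr 12 46 (.thr 4 8 (.thr 38 55 (.thr 44 35 (.thr 28 60 (.thr 31 30 (.thr 15 47 (.thr 26 16 (.dbl 14 13 50))))))))))) (.rp 46 (.thr 17 29 (.thr 51 34 (.thr 12 38 (.thr 42 63 (.dbl 8 4 59))))) (.rp 42 (.thr 17 29 (.thr 49 33 (.thr 51 34 (.thr 50 48 (.thr 38 12 (.thr 35 44 (.thr 26 14 (.thr 16 31 (.dbl 19 3 18))))))))) (.rp 38 (.thr 17 29 (.thr 33 49 (.thr 34 51 (.thr 32 35 (.thr 42 63 (.dbl 37 45 47)))))) (.rp 29 (.thr 42 63 (.thr 8 59 (.thr 12 4 (.thr 40 43 (.thr 24 56 (.thr 36 48 (.thr 44 32 (.dbl 38 35 51)))))))) (.rp 17 (.thr 42 63 (.thr 8 59 (.thr 12 4 (.thr 40 43 (.thr 24 56 (.thr 36 48 (.thr 44 32 (.dbl 38 35 51)))))))) .nd)))))))))) (.rp 5 (.str 16 (.nv (.thr 17 29 (.thr 33 49 (.thr 18 19 (.thr 48 3 (.thr 26 31 (.dbl 37 15 45)))))) (.nv (.thr 17 29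 (.thr 19 18 (.thr 22 28 (.thr 3 60 (.thr 51 35 (.thr 12 38 (.dbl 9 6 57))))))) (.nv (.thr 9 57 (.thr 26 31 (.thr 27 24 (.thr 11 56 (.thr 59 43 (.dbl 8 10 42)))))) (.rp 57 (.thr 17 29 (.thr 19 18 (.thr 22 28 (.thr 3 60 (.thr 51 35 (.thr 31 26 (.thr 23 27 (.thr 63 43 (.dbl 0 34 42))))))))) (.rp 31 (.thr 17 29 (.thr 33 49 (.thr 18 19 (.thr 48 3 (.thr 0 32 (.thr 51 34 (.thr 12 38 (.thr 8 4 (.dbl 42 59 63))))))))) .nd)))))) .nd))))))))))))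

theorem w171 : WinAt (2199025352706, 2305843009214742532) :=
  chF (K := []) kn c171 2199025352706 2305843009214742532 61
    [] (by decide +kernel) (by decide +kernel)

/-- A certificate. -/
noncomputable def c172 : Ct := (.str 25 (.nv (.thr 17 29 (.thr 9 57 (.thr 1 61 (.thr 13 5 (.dbl 49 33 37))))) (.rp 62 (.str 42 (.nv (.thr 0 63 (.thr 8 59 (.thr 12 4 (.thr 17 29 (.dbl 51 34 38))))) (.nv (.thr 17 29 (.thr 9 57 (.thr 1 61 (.thr 13 5 (.dbl 49 33 37))))) (.nv (.thr 40 43 (.thr 8 59 (.thr 56 24 (.thr 9 57 (.dbl 11 10 26))))) .nd)))) (.rp 61 (.str 42 (.nv (.thr 0 63 (.thr 17 29 (.thr 40 43 (.thr 51 34 (.thr 57 9 (.dbl 60 20 54)))))) (.nv (.thr 17 29 (.thr 8 59 (.thr 0 63 (.thr 12 4 (.dbl 51 34 38))))) (.nv (.thr 43 40 (.thr 59 8 (.thr 11 27 (.thr 57 9 (.dbl 56 26 58))))) .nd)))) (.rp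 57 (.thr 17 29 (.str 42 (.nv (.thr 0 63 (.thr 51 34 (.thr 12 38 (.dbl 8 4 59)))) (.nv (.thr 8 59 (.thr 0 63 (.thr 12 4 (.dbl 51 34 38)))) (.rp 63 (.thr 40 43 (.thr 8 59 (.thr 56 24 (.thr 11 26 (.thr 9 10 (.thr 1 61 (.thr 49 33 (.dbl 13 5 37)))))))) (.rp 59 (.thr 0 63 (.thr 51 34 (.thr 1 61 (.thr 49 33 (.thr 13 37 (.thr 5 9 (.thr 15 10 (.dbl 12 14 38)))))))) (.rp 51 (.thr 43 40 (.thr 59 8 (.thr 11 27 (.thr 63 0 (.thr 3 23 (.thr 15 7 (.thr 31 47 (.dbl 26 16 56)))))))) (.rp 38 (.thr 43 40 (.thr 59 8 (.thr 27 11 (.thr 0 63 (.thr 51 34 (.thr 15 39 (.thr 10 5 (.dbl 26 24 58)))))))) (.rp 34 (.thr 43 40 (.thr 59 8 (.thr 63 0 (.thr 51 55 (.thr 3 23 (.thr 35 19 (.dbl 38 12 44))))))) (.rp 12 (.thr 40 43 (.thr 8 59 (.thr 56 24 (.thr 11 26 (.thr 9 10 (.thr 1 61 (.thr 49 33 (.dbl 13 5 37))))))))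 (.rp 8 (.thr 0 63 (.thr 51 34 (.thr 1 61 (.thr 49 33 (.thr 13 37 (.thr 5 9 (.thr 12 38 (.dbl 15 10 14)))))))) (.rp 4 (.thr 43 40 (.thr 59 8 (.thr 27 11 (.thr 0 63 (.thr 51 34 (.thr 15 39 (.thr 10 5 (.dbl 26 24 58)))))))) (.rp 0 (.thr 40 43 (.thr 8 59 (.thr 56 24 (.thr 11 26 (.thr 9 10 (.thr 1 61 (.thr 49 33 (.dbl 13 5 37)))))))) .nd))))))))))))) (.rp 53 (.thr 17 29 (.thr 9 57 (.thr 1 61 (.thr 49 33 (.dbl 13 5 37))))) (.rp 49 (.str 42 (.nv (.thr 0 63 (.thr 17 29 (.thr 40 43 (.thr 51 34 (.thr 57 9 (.dbl 60 20 54)))))) (.nv (.thr 17 29 (.thr 8 59 (.thr 0 63 (.thr 12 4 (.dbl 51 34 38))))) (.nv (.thr 57 9 (.thr 43 40 (.thr 59 8 (.thr 11 27 (.dbl 56 26 58))))) .nd)))) (.rp 42 (.str 62 (.nv (.thr 17 29 (.thr 9 57 (.thr 1 61 (.thr 13 5 (.dbl 49 33 37))))) (.rp 61 (.str 12 (.nv (.thr 9 57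 (.thr 29 17 (.thr 46 63 (.thr 14 30 (.thr 13 15 (.thr 5 1 (.dbl 37 49 53))))))) (.nv (.thr 9 57 (.thr 6 3 (.thr 38 51 (.thr 4 55 (.thr 0 8 (.thr 5 7 (.thr 13 1 (.dbl 37 49 53)))))))) (.nv (.thr 29 17 (.thr 46 63 (.thr 30 14 (.thr 28 31 (.thr 44 60 (.dbl 38 35 51)))))) (.rp 63 (.thr 57 9 (.thr 29 17 (.thr 38 51 (.thr 44 35 (.thr 28 60 (.thr 31 30 (.thr 26 16 (.thr 50 14 (.thr 58 54 (.dbl 56 11 59)))))))))) (.rp 60 (.thr 29 17 (.thr 46 63 (.thr 14 30 (.thr 15 13 (.thr 38 51 (.thr 26 50 (.thr 48 37 (.dbl 24 27 36)))))))) (.rp 15 (.thr 29 17 (.thr 46 63 (.thr 30 14 (.thr 38 51 (.thr 44 35 (.dbl 28 31 60)))))) .nd))))))) (.rp 57 (.thr 29 17 (.thr 61 1 (.thr 45 13 (.thr 60 63 (.thr 30 15 (.thr 14 46 (.thr 31 28 (.thr 26 16 (.thr 38 50 (.thr 24 27 (.thr 56 11 (.thr 48 52 (.dbl 12 36 51)))))))))))))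 (.rp 53 (.thr 9 57 (.thr 17 29 (.thr 1 61 (.thr 49 33 (.dbl 13 5 37))))) (.rp 49 (.str 51 (.nv (.thr 38 12 (.thr 55 4 (.thr 61 1 (.dbl 63 59 60)))) (.nv (.thr 57 9 (.thr 60 54 (.dbl 61 1 63))) (.rp 63 (.thr 57 9 (.thr 54 60 (.thr 50 58 (.thr 38 12 (.thr 26 14 (.thr 27 24 (.thr 31 16 (.thr 19 23 (.dbl 35 3 44))))))))) (.rp 61 (.thr 57 9 (.thr 54 60 (.thr 58 50 (.thr 59 56 (.thr 55 63 (.dbl 38 4 12)))))) (.rp 60 (.thr 29 17 (.thr 57 9 (.thr 38 12 (.thr 55 4 (.thr 59 63 (.thr 56 58 (.thr 26 11 (.thr 14 50 (.thr 30 46 (.dbl 31 16 28)))))))))) (.rp 38 (.thr 57 9 (.thr 61 1 (.dbl 60 54 63))) (.rp 1 (.thr 57 9 (.thr 60 54 (.thr 63 61 (.thr 55 59 (.dbl 38 4 12))))) .nd)))))))) (.rp 37 (.thr 57 9 (.thr 61 1 (.thr 53 49 (.thr 63 60 (.thr 58 48 (.thr 50 54 (.thr 56 59 (.thr 26 11 (.thr 38 14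 (.thr 12 51 (.dbl 29 17 46))))))))))) (.rp 33 (.thr 57 9 (.thr 29 17 (.thr 61 1 (.thr 49 53 (.dbl 13 37 45))))) (.rp 29 (.thr 57 9 (.thr 61 1 (.thr 53 49 (.thr 60 63 (.thr 54 51 (.thr 50 58 (.thr 55 52 (.thr 38 4 (.thr 26 14 (.thr 16 31 (.thr 24 27 (.thr 44 35 (.dbl 28 12 20))))))))))))) (.rp 17 (.thr 57 9 (.thr 61 1 (.thr 49 53 (.thr 13 37 (.thr 45 29 (.thr 60 63 (.thr 15 30 (.thr 12 14 (.dbl 51 38 54))))))))) (.rp 13 (.str 12 (.nv (.thr 38 51 (.thr 44 35 (.thr 60 28 (.dbl 61 1 63)))) (.nv (.thr 29 17 (.thr 63 46 (.dbl 61 1 60))) (.rp 63 (.thr 57 9 (.thr 29 17 (.thr 38 51 (.thr 44 35 (.thr 28 60 (.thr 31 30 (.thr 26 16 (.thr 50 14 (.thr 58 54 (.dbl 56 11 59)))))))))) (.rp 61 (.thr 29 17 (.thr 46 63 (.thr 30 14 (.thr 28 31 (.thr 44 60 (.dbl 38 35 51)))))) (.rp 60 (.thr 29 17 (.thr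 46 63 (.thr 14 30 (.thr 38 51 (.thr 26 50 (.thr 24 27 (.thr 56 11 (.thr 8 40 (.dbl 4 0 55))))))))) (.rp 38 (.thr 29 17 (.thr 61 1 (.dbl 63 46 60))) (.rp 1 (.thr 29 17 (.thr 63 46 (.thr 60 61 (.thr 44 28 (.dbl 38 35 51))))) .nd)))))))) (.rp 9 (.thr 29 17 (.thr 61 1 (.thr 13 45 (.thr 49 37 (.thr 53 57 (.thr 63 60 (.thr 12 46 (.thr 48 58 (.dbl 51 38 50))))))))) (.rp 5 (.thr 57 9 (.thr 29 17 (.thr 61 1 (.thr 13 45 (.dbl 49 37 53))))) (.rp 1 (.str 12 (.nv (.thr 29 17 (.thr 46 63 (.thr 14 30 (.thr 13 15 (.thr 45 61 (.dbl 37 33 49)))))) (.nv (.thr 38 51 (.thr 44 35 (.thr 60 28 (.thr 63 61 (.dbl 29 17 46))))) (.rp 63 (.thr 57 9 (.thr 51 38 (.thr 54 60 (.thr 50 58 (.thr 49 48 (.thr 53 61 (.dbl 37 5 13))))))) (.rp 61 (.thr 29 17 (.thr 46 63 (.thr 30 14 (.thr 28 31 (.thr 44 60 (.dbl 38 35 51))))))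 (.rp 46 (.thr 57 9 (.thr 29 17 (.thr 38 51 (.thr 44 35 (.thr 60 28 (.thr 61 63 (.thr 13 45 (.dbl 49 37 53)))))))) (.rp 29 (.thr 57 9 (.thr 51 38 (.thr 54 60 (.thr 50 58 (.thr 49 48 (.thr 53 61 (.dbl 37 5 13))))))) (.rp 17 (.thr 57 9 (.thr 51 38 (.thr 54 60 (.thr 50 58 (.thr 49 48 (.thr 53 61 (.dbl 37 5 13))))))) (.rp 3 (.str 0 (.nv (.thr 17 29 (.dbl 51 34 38)) (.nv (.thr 4 8 (.dbl 38 51 55)) (.rp 51 (.thr 4 8 (.thr 29 17 (.thr 63 46 (.thr 60 61 (.thr 44 28 (.dbl 38 35 55)))))) (.rp 38 (.thr 29 17 (.thr 46 63 (.thr 14 30 (.thr 13 15 (.thr 45 61 (.dbl 37 33 49)))))) .nd))))) (.rp 0 (.str 3 (.nv (.dbl 9 6 57) (.rp 57 (.thr 29 17 (.thr 63 46 (.thr 60 61 (.thr 44 28 (.dbl 38 35 51))))) (.rp 9 (.thr 29 17 (.thr 63 46 (.thr 60 61 (.thr 44 28 (.dbl 38 35 51))))) (.rp 6 (.thr 57 9 (.thr 29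 17 (.thr 63 46 (.thr 60 61 (.dbl 51 38 54))))) .nd))))) .nd)))))))))) .nd)))))))))))))) (.rp 37 (.thr 29 17 (.thr 9 57 (.str 42 (.nv (.thr 59 8 (.thr 63 0 (.thr 12 46 (.dbl 51 38 55)))) (.nv (.thr 43 40 (.thr 63 0 (.thr 3 23 (.dbl 12 6 46)))) (.nv (.thr 40 43 (.thr 8 59 (.thr 56 24 (.dbl 11 10 26)))) (.rp 52 (.str 7 (.nv (.thr 1 61 (.thr 5 13 (.thr 6 4 (.thr 12 3 (.dbl 63 0 46))))) (.nv (.thr 40 43 (.thr 8 59 (.thr 56 24 (.dbl 11 10 26)))) .nd))) (.rp 7 (.str 52 (.nv (.thr 59 8 (.thr 63 0 (.thr 12 46 (.dbl 51 38 55)))) (.nv (.thr 43 40 (.thr 63 0 (.thr 3 23 (.dbl 12 6 46)))) (.nv (.thr 40 43 (.thr 8 59 (.thr 56 24 (.dbl 11 10 26)))) .nd)))) .nd)))))))) (.rp 33 (.thr 29 17 (.thr 57 9 (.thr 61 1 (.thr 49 53 (.dbl 13 37 45))))) (.rp 29 (.str 42 (.nv (.thr 0 63 (.thr 1 61 (.thr 8 59 (.thr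 9 57 (.thr 10 11 (.dbl 5 13 15)))))) (.nv (.thr 0 63 (.thr 8 59 (.thr 12 4 (.thr 40 43 (.thr 60 20 (.thr 44 28 (.dbl 38 35 51))))))) (.nv (.thr 43 40 (.thr 59 8 (.thr 11 27 (.thr 57 9 (.dbl 56 26 58))))) (.rp 59 (.thr 57 9 (.thr 0 63 (.thr 40 43 (.thr 60 20 (.thr 51 54 (.thr 34 17 (.dbl 38 12 46))))))) (.rp 43 (.thr 57 9 (.thr 61 1 (.thr 53 49 (.thr 59 8 (.thr 58 56 (.dbl 63 0 48)))))) (.rp 27 (.thr 9 57 (.thr 8 59 (.thr 11 10 (.thr 40 43 (.dbl 56 24 26))))) (.rp 11 (.thr 9 57 (.thr 63 0 (.thr 59 8 (.thr 51 55 (.thr 43 40 (.thr 3 23 (.dbl 12 6 38))))))) (.rp 8 (.thr 57 9 (.thr 0 63 (.thr 40 43 (.thr 60 20 (.thr 51 54 (.thr 34 17 (.dbl 38 12 46))))))) .nd))))))))) (.rp 17 (.str 42 (.nv (.thr 0 63 (.thr 8 59 (.thr 12 4 (.thr 40 43 (.thr 60 20 (.thr 44 28 (.dbl 38 35 51))))))) (.nv (.thr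 0 63 (.thr 1 61 (.thr 9 57 (.thr 5 13 (.thr 10 15 (.dbl 8 11 59)))))) (.nv (.thr 57 9 (.thr 43 40 (.thr 59 8 (.thr 11 27 (.dbl 56 26 58))))) (.rp 59 (.thr 9 57 (.thr 43 40 (.thr 63 0 (.thr 3 23 (.thr 12 6 (.thr 46 29 (.dbl 38 34 51))))))) (.rp 11 (.thr 9 57 (.thr 43 40 (.thr 59 8 (.thr 63 0 (.thr 51 55 (.thr 3 23 (.dbl 12 6 38))))))) (.rp 8 (.thr 9 57 (.thr 43 40 (.thr 63 0 (.thr 3 23 (.thr 12 6 (.thr 46 29 (.dbl 38 34 51))))))) .nd))))))) (.rp 13 (.str 42 (.nv (.thr 0 63 (.thr 17 29 (.thr 40 43 (.thr 51 34 (.thr 57 9 (.dbl 60 20 54)))))) (.nv (.thr 17 29 (.thr 8 59 (.thr 0 63 (.thr 12 4 (.dbl 51 34 38))))) (.nv (.thr 8 59 (.thr 40 43 (.thr 9 57 (.thr 56 24 (.dbl 11 10 26))))) .nd)))) (.rp 9 (.thr 29 17 (.str 63 (.nv (.thr 12 46 (.thr 38 51 (.thr 44 35 (.thr 60 28 (.dbl 61 1 62)))))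 (.nv (.thr 12 46 (.thr 38 51 (.thr 4 55 (.dbl 0 8 42)))) (.rp 62 (.thr 42 0 (.thr 12 46 (.thr 51 38 (.dbl 59 8 55)))) (.rp 51 (.thr 61 1 (.thr 13 45 (.thr 49 37 (.thr 53 57 (.thr 48 58 (.thr 12 46 (.thr 24 36 (.thr 26 27 (.thr 31 16 (.dbl 15 14 47)))))))))) (.rp 46 (.thr 42 0 (.thr 59 8 (.thr 51 55 (.thr 43 40 (.thr 3 23 (.thr 35 19 (.dbl 38 12 44))))))) (.rp 42 (.str 62 (.nv (.dbl 61 1 60) (.rp 61 (.thr 46 12 (.thr 30 14 (.thr 31 28 (.thr 15 47 (.thr 26 16 (.thr 37 48 (.dbl 45 33 60))))))) (.rp 60 (.thr 61 1 (.thr 13 45 (.thr 49 37 (.thr 53 57 (.thr 48 58 (.thr 51 50 (.dbl 12 38 46))))))) (.rp 1 (.thr 60 61 (.thr 12 46 (.thr 38 51 (.dbl 44 28 35)))) .nd))))) (.rp 38 (.thr 61 1 (.thr 13 45 (.thr 49 37 (.thr 53 57 (.thr 48 58 (.thr 51 50 (.thr 59 55 (.dbl 42 0 8)))))))) (.rp 34 (.thr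 12 46 (.thr 51 38 (.thr 42 0 (.dbl 59 8 55)))) (.rp 12 (.thr 61 1 (.thr 13 45 (.thr 49 37 (.thr 53 57 (.thr 48 58 (.thr 51 50 (.thr 59 55 (.dbl 42 0 8)))))))) (.rp 0 (.thr 12 46 (.thr 51 38 (.thr 59 55 (.thr 42 8 (.thr 43 40 (.thr 3 23 (.thr 35 19 (.thr 39 47 (.dbl 27 11 15))))))))) .nd)))))))))))) (.rp 5 (.thr 29 17 (.thr 57 9 (.thr 61 1 (.thr 13 45 (.dbl 49 37 53))))) (.rp 1 (.thr 17 29 (.thr 9 57 (.str 42 (.nv (.thr 0 63 (.thr 51 34 (.thr 12 38 (.dbl 8 4 59)))) (.nv (.thr 40 43 (.thr 8 59 (.thr 56 24 (.dbl 11 10 26)))) (.rp 59 (.thr 0 63 (.thr 51 34 (.thr 40 43 (.thr 12 38 (.thr 8 4 (.thr 11 10 (.dbl 56 24 26))))))) (.rp 8 (.thr 43 40 (.thr 63 0 (.thr 3 23 (.thr 12 6 (.thr 38 51 (.thr 34 46 (.thr 35 44 (.thr 47 39 (.dbl 32 33 37))))))))) (.rp 0 (.str 3 (.nv (.thr 43 40 (.thr 59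 8 (.thr 63 23 (.thr 51 55 (.dbl 12 6 38))))) (.nv (.thr 40 43 (.thr 8 59 (.thr 56 24 (.dbl 11 10 26)))) (.rp 59 (.thr 43 40 (.thr 23 63 (.thr 12 6 (.thr 38 51 (.thr 55 4 (.thr 35 44 (.dbl 39 7 47))))))) (.rp 56 (.thr 43 40 (.thr 23 63 (.thr 12 6 (.thr 38 51 (.thr 55 4 (.thr 35 44 (.dbl 39 7 47))))))) (.rp 43 (.thr 8 59 (.thr 11 10 (.thr 15 7 (.thr 12 6 (.thr 14 13 (.thr 38 51 (.dbl 26 50 56))))))) (.rp 40 (.thr 8 59 (.thr 11 10 (.thr 15 7 (.thr 12 6 (.thr 14 13 (.thr 38 51 (.dbl 26 50 56))))))) (.rp 24 (.thr 8 59 (.thr 11 10 (.thr 15 7 (.thr 43 40 (.thr 63 23 (.thr 31 47 (.dbl 26 16 56))))))) (.rp 8 (.thr 43 40 (.thr 23 63 (.thr 12 6 (.thr 38 51 (.thr 55 4 (.thr 35 44 (.dbl 39 7 47))))))) .nd))))))))) .nd)))))))) .nd))))))))))))))))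

theorem w172 : WinAt (2199025352704, 4194308) :=
  chF (K := []) kn c172 2199025352704 4194308 22
    [4611690416478093316] (by decide +kernel) (by decide +kernel)

/-- A certificate. -/
noncomputable def c173 : Ct := (.str 37 (.nv (.thr 33 45 (.thr 5 53 (.thr 49 17 (.dbl 13 9 25)))) (.rp 53 (.thr 33 45 (.thr 49 17 (.thr 13 25 (.str 15 (.nv (.thr 48 26 (.thr 3 18 (.thr 7 11 (.dbl 22 52 60)))) (.nv (.thr 5 9 (.thr 26 48 (.thr 31 16 (.thr 63 47 (.dbl 0 10 42))))) (.nv (.thr 9 5 (.thr 12 14 (.thr 48 26 (.dbl 3 6 18)))) (.rp 48 (.thr 5 9 (.thr 14 12 (.thr 0 10 (.thr 63 42 (.thr 31 47 (.thr 26 16 (.thr 11 56 (.thr 38 50 (.thr 4 55 (.dbl 7 3 6)))))))))) (.rp 26 (.thr 5 9 (.thr 0 10 (.thr 42 63 (.thr 32 47 (.thr 35 34 (.thr 44 38 (.dbl 40 36 43))))))) (.rp 18 (.thr 5 9 (.thr 0 10 (.thr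 63 42 (.thr 31 47 (.dbl 26 16 48))))) .nd)))))))))) (.rp 49 (.thr 45 33 (.thr 53 5 (.str 15 (.nv (.thr 26 48 (.thr 11 56 (.thr 3 7 (.dbl 60 22 30)))) (.nv (.thr 48 26 (.thr 63 58 (.thr 42 0 (.dbl 47 31 32)))) (.rp 48 (.thr 60 30 (.thr 3 22 (.thr 11 7 (.thr 26 56 (.thr 31 16 (.thr 47 63 (.thr 44 46 (.thr 12 28 (.thr 38 35 (.dbl 14 13 50)))))))))) (.rp 26 (.thr 60 30 (.thr 22 3 (.thr 52 7 (.thr 48 56 (.thr 63 58 (.thr 47 31 (.dbl 42 0 32))))))) .nd))))))) (.rp 45 (.thr 5 53 (.thr 13 9 (.thr 49 25 (.str 0 (.nv (.thr 17 33 (.thr 51 34 (.thr 15 10 (.dbl 48 26 50)))) (.nv (.thr 17 33 (.thr 42 63 (.thr 32 47 (.thr 48 16 (.dbl 51 34 50))))) (.nv (.thr 15 10 (.thr 26 48 (.thr 31 16 (.dbl 63 42 47)))) (.rp 48 (.thr 17 33 (.thr 51 34 (.thr 15 10 (.thr 39 27 (.thr 38 36 (.thr 4 55 (.dbl 12 8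 14))))))) (.rp 15 (.thr 17 33 (.thr 34 51 (.thr 42 63 (.thr 47 32 (.thr 43 40 (.thr 39 35 (.dbl 38 36 46))))))) .nd))))))))) (.rp 33 (.str 15 (.nv (.thr 5 53 (.thr 9 13 (.thr 10 0 (.thr 11 8 (.dbl 26 48 56))))) (.nv (.thr 48 26 (.thr 53 5 (.thr 63 58 (.thr 42 0 (.dbl 47 31 32))))) (.rp 53 (.thr 26 48 (.thr 11 56 (.thr 3 7 (.thr 60 22 (.thr 30 45 (.thr 31 16 (.thr 29 28 (.thr 25 17 (.thr 57 9 (.thr 51 54 (.dbl 27 24 39))))))))))) (.rp 48 (.thr 5 53 (.thr 9 13 (.thr 10 0 (.thr 11 8 (.thr 3 7 (.thr 12 6 (.thr 60 22 (.thr 44 28 (.thr 38 35 (.dbl 25 51 57)))))))))) (.rp 26 (.thr 5 53 (.thr 9 13 (.thr 10 0 (.thr 11 8 (.thr 7 3 (.thr 4 6 (.thr 38 55 (.thr 36 39 (.dbl 52 20 22))))))))) (.rp 5 (.thr 26 48 (.thr 11 56 (.thr 3 7 (.thr 60 22 (.thr 45 30 (.thr 31 16 (.thr 47 63 (.thr 44 46 (.thr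 12 28 (.thr 38 35 (.dbl 14 13 50))))))))))) (.rp 0 (.thr 5 53 (.thr 13 9 (.thr 12 14 (.thr 48 26 (.thr 36 24 (.thr 38 39 (.dbl 25 49 51))))))) .nd)))))))) (.rp 29 (.thr 5 53 (.thr 33 45 (.thr 13 9 (.dbl 49 17 25)))) (.rp 25 (.str 47 (.nv (.thr 42 32 (.thr 53 5 (.thr 63 0 (.thr 15 31 (.dbl 48 26 58))))) (.nv (.thr 42 32 (.thr 45 33 (.thr 43 40 (.thr 44 46 (.dbl 35 38 39))))) (.rp 42 (.thr 45 33 (.thr 5 53 (.thr 44 46 (.thr 38 35 (.thr 36 39 (.thr 4 55 (.thr 7 6 (.dbl 52 20 22)))))))) (.rp 32 (.thr 45 33 (.thr 53 5 (.thr 44 46 (.thr 35 38 (.thr 43 39 (.thr 42 40 (.thr 63 0 (.thr 15 31 (.dbl 48 26 58))))))))) .nd))))) (.rp 17 (.str 47 (.nv (.thr 42 32 (.thr 53 5 (.thr 63 0 (.thr 15 31 (.dbl 48 26 58))))) (.nv (.thr 45 33 (.thr 44 46 (.thr 35 38 (.thr 42 32 (.dbl 43 39 40))))) (.rp 42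 (.thr 45 33 (.thr 5 53 (.thr 44 46 (.thr 38 35 (.thr 36 39 (.thr 4 55 (.thr 7 6 (.dbl 52 20 22)))))))) (.rp 32 (.thr 45 33 (.thr 53 5 (.thr 44 46 (.thr 35 38 (.thr 43 39 (.thr 42 40 (.thr 63 0 (.thr 15 31 (.dbl 48 26 58))))))))) .nd))))) (.rp 13 (.thr 45 33 (.str 47 (.nv (.thr 42 32 (.thr 53 5 (.thr 63 0 (.thr 15 31 (.dbl 48 26 58))))) (.nv (.thr 44 46 (.thr 35 38 (.thr 42 32 (.dbl 43 39 40)))) (.rp 42 (.thr 5 53 (.thr 44 46 (.thr 38 35 (.thr 36 39 (.thr 4 55 (.thr 7 6 (.dbl 52 20 22))))))) (.rp 35 (.thr 53 5 (.thr 46 44 (.thr 42 32 (.thr 34 38 (.thr 63 0 (.thr 15 31 (.dbl 48 26 58))))))) (.rp 32 (.thr 53 5 (.thr 44 46 (.thr 35 38 (.thr 43 39 (.thr 42 40 (.thr 63 0 (.thr 15 31 (.dbl 48 26 58)))))))) .nd))))))) (.rp 9 (.str 47 (.nv (.thr 42 32 (.thr 53 5 (.thr 63 0 (.thr 15 31 (.dbl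 48 26 58))))) (.nv (.thr 45 33 (.thr 44 46 (.thr 35 38 (.thr 42 32 (.dbl 43 39 40))))) (.rp 42 (.thr 45 33 (.thr 5 53 (.thr 44 46 (.thr 38 35 (.thr 36 39 (.thr 4 55 (.thr 7 6 (.dbl 52 20 22)))))))) (.rp 32 (.thr 45 33 (.thr 53 5 (.thr 44 46 (.thr 35 38 (.thr 43 39 (.thr 42 40 (.thr 63 0 (.thr 15 31 (.dbl 48 26 58))))))))) .nd))))) (.rp 5 (.str 48 (.nv (.thr 26 15 (.thr 16 31 (.thr 0 32 (.thr 56 11 (.thr 60 52 (.thr 40 20 (.dbl 42 43 63))))))) (.nv (.thr 15 26 (.thr 33 45 (.thr 49 17 (.thr 51 50 (.thr 39 27 (.thr 38 36 (.dbl 25 12 13))))))) (.nv (.thr 15 26 (.thr 45 33 (.thr 60 30 (.thr 52 56 (.dbl 22 3 7))))) (.rp 26 (.thr 33 45 (.thr 17 49 (.thr 18 3 (.thr 16 19 (.thr 32 0 (.thr 35 34 (.thr 44 38 (.thr 40 36 (.dbl 42 43 47))))))))) (.rp 15 (.thr 33 45 (.thr 3 18 (.thr 60 22 (.thr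 56 52 (.thr 26 11 (.thr 16 31 (.thr 0 32 (.thr 40 20 (.dbl 42 43 63))))))))) .nd)))))) .nd))))))))))))

theorem w173 : WinAt (2199025352706, 2305843009222082564) :=
  chF (K := []) kn c173 2199025352706 2305843009222082564 61
    [] (by decide +kernel) (by decide +kernel)

end Pool.Agent.TTT.B43
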