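import Pool.Agent.TTT.B43

/-!
Certified forced wins in positions of the 4 x 4 x 4 board.
-/

set_option autoImplicit false
set_option maxRecDepth 1000000
set_option linter.all false

namespace Pool.Agent.TTT.B43

/-- A certificate. -/
noncomputable def c174 : Ct := (.str 25 (.nv (.thr 17 29 (.thr 9 57 (.thr 49 33 (.dbl 13 5 37)))) (.rp 57 (.thr 17 29 (.thr 49 33 (.thr 13 37 (.str 12 (.nv (.thr 51 38 (.thr 0 34 (.thr 8 4 (.dbl 42 59 63)))) (.nv (.thr 9 5 (.thr 38 51 (.thr 44 35 (.thr 60 28 (.dbl 3 6 22))))) (.nv (.thr 5 9 (.thr 15 14 (.thr 51 38 (.dbl 0 10 34)))) (.rp 51 (.thr 9 5 (.thr 14 15 (.thr 3 6 (.thr 60 22 (.thr 44 28 (.thr 38 35 (.thr 4 55 (.thr 26 50 (.thr 11 56 (.dbl 8 0 10)))))))))) (.rp 38 (.thr 9 5 (.thr 3 6 (.thr 22 60 (.thr 19 28 (.thr 16 18 (.thr 31 26 (.dbl 23 20 27)))))))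 (.rp 34 (.thr 9 5 (.thr 3 6 (.thr 60 22 (.thr 44 28 (.dbl 38 35 51))))) .nd)))))))))) (.rp 49 (.thr 29 17 (.thr 57 9 (.str 12 (.nv (.thr 51 38 (.thr 60 54 (.thr 22 3 (.dbl 28 19 44)))) (.nv (.thr 63 46 (.thr 51 38 (.thr 42 0 (.dbl 59 8 55)))) (.rp 51 (.thr 63 46 (.thr 0 42 (.thr 4 8 (.thr 38 55 (.thr 44 35 (.thr 28 60 (.thr 31 30 (.thr 15 47 (.thr 26 16 (.dbl 14 13 50)))))))))) (.rp 38 (.thr 63 46 (.thr 42 0 (.thr 59 8 (.thr 56 58 (.thr 11 26 (.dbl 43 27 40)))))) .nd))))))) (.rp 45 (.thr 9 57 (.thr 17 29 (.thr 13 5 (.dbl 49 33 37)))) (.rp 37 (.str 8 (.nv (.thr 9 57 (.thr 10 11 (.thr 42 59 (.thr 0 63 (.dbl 5 13 15))))) (.nv (.thr 9 57 (.thr 5 13 (.thr 10 11 (.thr 0 15 (.thr 12 4 (.thr 51 38 (.dbl 17 29 34))))))) (.nv (.thr 9 57 (.thr 5 13 (.thr 10 11 (.thr 42 59 (.dbl 0 15 63))))) (.nv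 (.thr 17 29 (.thr 42 59 (.thr 0 63 (.thr 12 4 (.dbl 51 34 38))))) (.rp 13 (.thr 42 59 (.thr 0 63 (.thr 12 4 (.thr 51 38 (.dbl 17 29 34))))) (.rp 0 (.thr 9 57 (.thr 29 17 (.thr 11 10 (.thr 26 56 (.thr 31 16 (.thr 59 42 (.thr 27 43 (.thr 19 23 (.dbl 28 22 30))))))))) .nd))))))) (.rp 33 (.str 8 (.nv (.thr 9 57 (.thr 5 13 (.thr 10 11 (.thr 0 15 (.thr 12 4 (.thr 51 38 (.dbl 17 29 34))))))) (.nv (.thr 9 57 (.thr 5 13 (.thr 10 11 (.thr 42 59 (.dbl 0 15 63))))) (.nv (.thr 42 59 (.thr 0 63 (.thr 12 4 (.thr 51 38 (.dbl 17 29 34))))) (.rp 29 (.thr 9 57 (.thr 10 11 (.thr 42 59 (.thr 0 63 (.dbl 5 13 15))))) (.rp 0 (.thr 9 57 (.thr 29 17 (.thr 11 10 (.thr 26 56 (.thr 31 16 (.thr 59 42 (.thr 27 43 (.thr 19 23 (.dbl 28 22 30))))))))) .nd)))))) (.rp 29 (.thr 9 57 (.thr 13 5 (.thr 49 37 (.str 51 (.nv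 (.thr 12 38 (.thr 3 6 (.thr 19 35 (.dbl 22 28 60)))) (.nv (.thr 17 33 (.thr 0 34 (.thr 42 63 (.thr 8 59 (.dbl 12 4 38))))) (.nv (.thr 33 17 (.thr 48 50 (.thr 12 38 (.dbl 3 6 18)))) (.rp 38 (.thr 17 33 (.thr 0 34 (.thr 42 63 (.thr 8 59 (.thr 12 4 (.thr 40 43 (.thr 60 20 (.dbl 3 6 22)))))))) (.rp 12 (.thr 17 33 (.thr 0 34 (.thr 63 42 (.thr 55 59 (.thr 38 4 (.thr 35 44 (.thr 3 19 (.thr 23 43 (.dbl 22 20 60))))))))) .nd))))))))) (.rp 17 (.str 12 (.nv (.thr 9 57 (.thr 5 13 (.thr 6 3 (.thr 4 7 (.dbl 38 51 55))))) (.nv (.thr 51 38 (.thr 57 9 (.thr 60 54 (.thr 22 3 (.dbl 28 19 44))))) (.rp 57 (.thr 38 51 (.thr 4 55 (.thr 44 35 (.thr 60 28 (.thr 3 22 (.thr 9 6 (.thr 13 5 (.thr 14 15 (.thr 26 50 (.thr 11 56 (.dbl 8 0 10))))))))))) (.rp 51 (.thr 9 57 (.thr 5 13 (.thr 6 3 (.thr 4 7 (.thr 0 8 (.thr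 15 10 (.thr 63 42 (.thr 31 47 (.thr 26 16 (.dbl 37 48 53)))))))))) (.rp 38 (.thr 9 57 (.thr 5 13 (.thr 3 6 (.thr 22 60 (.thr 23 20 (.thr 63 43 (.thr 0 42 (.thr 8 4 (.dbl 10 11 15))))))))) (.rp 9 (.thr 38 51 (.thr 4 55 (.thr 0 8 (.thr 63 42 (.thr 29 46 (.thr 44 35 (.thr 28 60 (.thr 31 30 (.thr 15 47 (.thr 26 16 (.dbl 14 13 50))))))))))) (.rp 3 (.thr 9 57 (.thr 13 5 (.thr 14 15 (.thr 38 51 (.thr 4 55 (.thr 26 50 (.thr 11 56 (.dbl 8 0 10)))))))) .nd)))))))) (.rp 13 (.thr 29 17 (.str 12 (.nv (.thr 9 57 (.thr 3 6 (.thr 63 46 (.thr 23 43 (.dbl 22 20 60))))) (.nv (.thr 9 57 (.thr 3 6 (.thr 51 38 (.thr 19 35 (.dbl 22 28 60))))) (.nv (.thr 51 38 (.thr 63 46 (.thr 42 0 (.dbl 59 8 55)))) .nd))))) (.rp 9 (.str 0 (.nv (.thr 17 29 (.thr 33 49 (.thr 34 51 (.thr 35 32 (.thr 38 44 (.dbl 42 46 63))))))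 (.nv (.thr 29 17 (.thr 63 42 (.thr 12 46 (.thr 38 51 (.dbl 4 8 55))))) (.rp 63 (.thr 17 29 (.thr 51 34 (.thr 12 38 (.thr 8 4 (.thr 42 59 (.thr 40 43 (.thr 60 20 (.thr 28 44 (.dbl 22 3 19))))))))) (.rp 51 (.thr 17 29 (.thr 33 49 (.thr 42 63 (.thr 40 43 (.thr 60 20 (.thr 3 22 (.thr 48 18 (.thr 56 52 (.thr 16 32 (.dbl 26 11 31)))))))))) (.rp 46 (.thr 17 29 (.thr 51 34 (.thr 12 38 (.thr 42 63 (.dbl 8 4 59))))) (.rp 42 (.thr 17 29 (.thr 51 34 (.thr 38 12 (.thr 55 4 (.thr 63 59 (.thr 35 44 (.thr 3 19 (.thr 23 43 (.dbl 22 20 60))))))))) (.rp 38 (.thr 17 29 (.thr 33 49 (.thr 34 51 (.thr 32 35 (.thr 42 63 (.dbl 37 45 47)))))) (.rp 29 (.thr 42 63 (.thr 8 59 (.thr 12 4 (.thr 40 43 (.thr 60 20 (.thr 28 44 (.dbl 22 3 19))))))) (.rp 17 (.thr 42 63 (.thr 8 59 (.thr 12 4 (.thr 40 43 (.thr 60 20 (.thr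 28 44 (.dbl 22 3 19))))))) .nd)))))))))) (.rp 5 (.str 12 (.nv (.thr 9 57 (.thr 3 6 (.thr 29 17 (.thr 63 46 (.thr 23 43 (.dbl 22 20 60)))))) (.nv (.thr 17 29 (.thr 51 38 (.thr 0 34 (.thr 8 4 (.dbl 42 59 63))))) (.nv (.thr 51 38 (.thr 57 9 (.thr 60 54 (.thr 22 3 (.dbl 28 19 44))))) .nd)))) .nd))))))))))))

theorem w174 : WinAt (2199025352706, 2305843009230471172) :=
  chF (K := []) kn c174 2199025352706 2305843009230471172 61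
    [] (by decide +kernel) (by decide +kernel)

/-- A certificate. -/
noncomputable def c175 : Ct := (.str 60 (.nv (.thr 22 3 (.thr 20 23 (.thr 61 1 (.thr 0 40 (.dbl 63 42 62))))) (.rp 63 (.str 45 (.nv (.thr 30 15 (.thr 61 1 (.thr 29 13 (.thr 31 28 (.thr 26 16 (.dbl 22 3 18)))))) (.nv (.thr 15 30 (.thr 37 33 (.thr 5 53 (.thr 0 10 (.thr 20 40 (.dbl 22 3 23)))))) (.nv (.thr 37 33 (.thr 15 30 (.thr 48 26 (.thr 52 56 (.dbl 22 3 7))))) (.rp 37 (.thr 30 15 (.thr 22 3 (.thr 26 18 (.thr 31 16 (.thr 29 28 (.dbl 61 1 13)))))) (.rp 30 (.thr 37 33 (.thr 53 5 (.thr 22 3 (.thr 52 7 (.thr 55 54 (.thr 4 38 (.dbl 20 23 36))))))) (.rp 22 (.thr 37 33 (.thr 1 61 (.thr 5 53 (.thr 9 13 (.thr 15 30 (.thr 10 0 (.thr 11 8 (.dbl 26 48 56)))))))) (.rp 15 (.thr 37 33 (.thr 5 53 (.thr 22 3 (.thr 7 52 (.thr 4 6 (.thr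 55 38 (.dbl 23 20 39))))))) (.rp 3 (.thr 37 33 (.thr 1 61 (.thr 5 53 (.thr 9 13 (.thr 15 30 (.thr 10 0 (.thr 11 8 (.dbl 26 48 56)))))))) .nd))))))))) (.rp 62 (.thr 1 61 (.str 44 (.nv (.thr 12 28 (.thr 22 3 (.thr 38 35 (.thr 4 55 (.thr 0 8 (.dbl 20 23 40)))))) (.nv (.thr 22 3 (.thr 20 23 (.thr 38 35 (.thr 4 55 (.thr 6 54 (.thr 7 5 (.dbl 52 36 37))))))) (.nv (.thr 22 3 (.thr 12 28 (.thr 20 23 (.thr 40 0 (.thr 36 32 (.thr 48 24 (.dbl 52 4 56))))))) (.nv (.thr 12 28 (.thr 38 35 (.thr 4 55 (.thr 0 8 (.thr 42 63 (.dbl 40 20 43)))))) (.rp 22 (.str 42 (.nv (.thr 0 63 (.thr 38 35 (.thr 4 55 (.dbl 12 8 28)))) (.nv (.thr 0 63 (.dbl 40 20 43)) (.rp 63 (.thr 40 43 (.thr 36 32 (.thr 20 0 (.thr 4 52 (.dbl 38 35 55))))) (.rp 28 (.str 19 (.nv (.thr 40 43 (.dbl 0 20 63)) (.rp 63 (.thr 40 43 (.thr 20 0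 (.thr 36 32 (.thr 4 52 (.dbl 38 35 55))))) (.rp 43 (.thr 0 63 (.thr 40 20 (.thr 32 36 (.thr 47 37 (.thr 46 45 (.dbl 38 34 35)))))) (.rp 40 (.thr 0 63 (.thr 38 35 (.thr 46 34 (.thr 45 47 (.thr 15 30 (.thr 5 10 (.dbl 37 33 53))))))) (.rp 20 (.thr 43 40 (.thr 63 0 (.thr 3 23 (.dbl 35 38 51)))) (.rp 0 (.thr 40 43 (.thr 32 36 (.thr 47 37 (.thr 46 45 (.dbl 38 34 35))))) .nd))))))) (.rp 19 (.thr 28 12 (.thr 0 63 (.dbl 40 20 43))) (.rp 0 (.thr 40 43 (.thr 32 36 (.thr 37 47 (.thr 33 45 (.dbl 35 34 38))))) .nd))))))) (.rp 20 (.thr 12 28 (.thr 38 35 (.thr 4 55 (.thr 0 8 (.thr 42 63 (.thr 40 43 (.thr 32 36 (.thr 47 37 (.dbl 46 34 45))))))))) (.rp 4 (.thr 28 12 (.thr 22 3 (.thr 20 23 (.thr 0 40 (.thr 16 24 (.thr 48 32 (.thr 56 52 (.dbl 26 11 31)))))))) .nd))))))))) (.rp 61 (.str 45 (.nv (.thr 15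 30 (.thr 37 33 (.thr 5 53 (.thr 0 10 (.thr 40 20 (.dbl 42 43 63)))))) (.nv (.thr 15 30 (.thr 37 33 (.thr 26 48 (.thr 11 56 (.dbl 3 7 22))))) (.rp 37 (.thr 30 15 (.thr 22 3 (.thr 20 23 (.thr 0 40 (.thr 26 18 (.thr 16 31 (.thr 48 32 (.dbl 56 11 52)))))))) (.rp 33 (.thr 15 30 (.thr 3 22 (.thr 11 7 (.thr 26 56 (.thr 31 16 (.thr 63 47 (.thr 43 23 (.dbl 42 0 40)))))))) (.rp 30 (.thr 37 33 (.thr 53 5 (.thr 22 3 (.thr 52 7 (.thr 55 54 (.thr 4 38 (.dbl 20 23 36))))))) (.rp 15 (.thr 37 33 (.thr 5 53 (.thr 22 3 (.thr 7 52 (.thr 4 6 (.thr 55 38 (.dbl 23 20 39))))))) .nd))))))) (.rp 43 (.thr 61 1 (.thr 63 62 (.thr 0 42 (.thr 22 3 (.dbl 20 23 40))))) (.rp 42 (.thr 1 61 (.thr 22 3 (.str 4 (.nv (.thr 38 55 (.thr 6 54 (.thr 7 5 (.thr 52 37 (.dbl 20 23 36))))) (.nv (.thr 20 23 (.thr 0 40 (.thr 38 55 (.thr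 44 35 (.dbl 12 8 28))))) (.nv (.thr 20 23 (.thr 38 55 (.thr 6 54 (.thr 52 36 (.dbl 7 5 37))))) (.rp 59 (.str 8 (.nv (.thr 12 0 (.thr 44 28 (.dbl 38 35 55))) (.nv (.thr 20 23 (.dbl 0 12 40)) (.rp 12 (.thr 20 23 (.thr 52 36 (.thr 40 0 (.dbl 56 24 48)))) (.rp 0 (.thr 20 23 (.thr 52 36 (.thr 37 7 (.thr 53 5 (.dbl 55 38 54))))) .nd))))) (.rp 55 (.thr 20 23 (.thr 52 36 (.thr 40 0 (.thr 56 48 (.thr 26 11 (.thr 16 31 (.dbl 24 8 28))))))) (.rp 38 (.thr 20 23 (.thr 52 36 (.thr 48 56 (.thr 37 7 (.thr 45 33 (.dbl 15 26 30)))))) (.rp 23 (.thr 38 55 (.thr 6 54 (.thr 7 5 (.thr 52 37 (.thr 20 36 (.thr 0 40 (.thr 44 35 (.dbl 12 8 28)))))))) (.rp 20 (.thr 38 55 (.thr 6 54 (.thr 5 7 (.thr 13 9 (.thr 44 35 (.thr 12 28 (.thr 15 14 (.dbl 0 8 10)))))))) (.rp 8 (.str 59 (.nv (.thr 23 20 (.thr 55 38 (.thr 7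 39 (.thr 37 52 (.dbl 5 6 53))))) (.nv (.thr 20 23 (.thr 36 52 (.thr 40 0 (.thr 44 32 (.dbl 38 35 55))))) (.nv (.thr 20 23 (.thr 38 55 (.thr 6 54 (.thr 52 36 (.dbl 7 5 37))))) (.rp 55 (.thr 20 23 (.thr 52 36 (.thr 56 48 (.thr 7 37 (.thr 6 5 (.thr 57 58 (.dbl 54 38 51))))))) (.rp 52 (.thr 23 20 (.thr 55 38 (.thr 39 7 (.thr 51 63 (.thr 27 15 (.thr 11 43 (.thr 31 19 (.dbl 26 16 56)))))))) (.rp 38 (.thr 20 23 (.thr 52 36 (.thr 48 56 (.thr 37 7 (.thr 45 33 (.dbl 15 26 30)))))) (.rp 37 (.thr 20 23 (.thr 36 52 (.thr 40 0 (.thr 38 55 (.dbl 44 32 35))))) (.rp 23 (.thr 38 55 (.thr 54 6 (.thr 57 51 (.thr 56 58 (.thr 52 48 (.thr 36 20 (.dbl 37 7 39))))))) (.rp 20 (.thr 55 38 (.thr 51 63 (.thr 57 54 (.thr 56 58 (.thr 48 52 (.thr 26 11 (.thr 15 37 (.dbl 30 18 45)))))))) .nd)))))))))) (.rp 7 (.thr 20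 23 (.thr 36 52 (.thr 40 0 (.thr 44 32 (.dbl 38 35 55))))) .nd))))))))))))) (.rp 40 (.str 45 (.nv (.thr 37 33 (.thr 15 30 (.thr 48 26 (.thr 52 56 (.dbl 22 3 7))))) (.nv (.thr 15 30 (.thr 61 1 (.thr 63 62 (.thr 47 31 (.thr 46 44 (.dbl 29 12 13)))))) (.nv (.thr 15 30 (.thr 37 33 (.thr 5 53 (.thr 0 10 (.thr 61 1 (.dbl 63 42 62)))))) (.nv (.thr 15 30 (.thr 22 3 (.thr 37 33 (.thr 52 7 (.dbl 48 26 56))))) (.rp 30 (.thr 37 33 (.thr 61 1 (.thr 29 13 (.thr 63 62 (.thr 46 12 (.thr 47 44 (.dbl 42 0 32))))))) (.rp 15 (.thr 37 33 (.thr 61 1 (.thr 53 5 (.thr 63 62 (.thr 48 58 (.thr 52 56 (.dbl 22 3 7))))))) .nd))))))) (.rp 23 (.str 45 (.nv (.thr 15 30 (.thr 61 1 (.thr 63 62 (.thr 47 31 (.thr 46 44 (.dbl 29 12 13)))))) (.nv (.thr 15 30 (.thr 37 33 (.thr 5 53 (.thr 0 10 (.thr 40 20 (.dbl 42 43 63))))))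 (.nv (.thr 15 30 (.thr 37 33 (.thr 26 48 (.thr 11 56 (.dbl 3 7 22))))) (.rp 30 (.thr 37 33 (.thr 61 1 (.thr 29 13 (.thr 63 62 (.thr 46 12 (.thr 47 44 (.dbl 42 0 32))))))) (.rp 15 (.thr 37 33 (.thr 61 1 (.thr 53 5 (.thr 63 62 (.thr 48 58 (.thr 52 56 (.dbl 22 3 7))))))) .nd)))))) (.rp 22 (.str 42 (.nv (.thr 61 1 (.dbl 63 0 62)) (.nv (.thr 40 43 (.dbl 0 20 63)) (.rp 63 (.str 28 (.nv (.thr 44 12 (.thr 38 35 (.thr 46 34 (.thr 47 45 (.thr 32 37 (.dbl 40 36 43)))))) (.nv (.thr 12 44 (.thr 40 43 (.thr 20 0 (.thr 24 16 (.thr 48 36 (.dbl 56 8 52)))))) (.rp 52 (.thr 44 12 (.thr 40 43 (.thr 32 36 (.thr 37 47 (.thr 33 45 (.dbl 35 34 38)))))) (.rp 44 (.thr 1 61 (.thr 40 43 (.thr 20 0 (.thr 16 24 (.thr 26 31 (.thr 56 11 (.thr 48 52 (.thr 37 15 (.thr 47 32 (.thr 33 45 (.thr 17 49 (.dbl 18 3 19))))))))))))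 (.rp 43 (.thr 44 12 (.thr 38 35 (.thr 46 34 (.thr 47 45 (.thr 32 37 (.thr 36 40 (.thr 4 55 (.thr 52 20 (.thr 56 48 (.thr 26 11 (.thr 31 16 (.thr 30 29 (.dbl 14 50 62))))))))))))) (.rp 40 (.thr 44 12 (.thr 61 1 (.thr 38 35 (.thr 46 34 (.thr 45 47 (.thr 29 13 (.dbl 30 15 31))))))) (.rp 36 (.thr 44 12 (.thr 61 1 (.thr 38 35 (.thr 46 34 (.thr 45 47 (.thr 29 13 (.dbl 30 15 31))))))) (.rp 12 (.thr 1 61 (.thr 40 43 (.thr 20 0 (.thr 16 24 (.thr 26 31 (.thr 56 11 (.thr 48 52 (.thr 37 15 (.thr 47 32 (.thr 33 45 (.thr 17 49 (.dbl 18 3 19)))))))))))) .nd))))))))) (.rp 28 (.str 19 (.nv (.thr 61 1 (.dbl 63 0 62)) (.nv (.thr 40 43 (.dbl 0 20 63)) (.rp 63 (.str 48 (.nv (.thr 40 43 (.thr 0 20 (.thr 56 52 (.thr 24 8 (.thr 32 16 (.dbl 36 12 44)))))) (.nv (.thr 1 61 (.thr 56 52 (.thr 26 11 (.thr 16 31 (.thr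 17 18 (.thr 33 49 (.dbl 37 15 45))))))) (.nv (.thr 1 61 (.thr 40 43 (.thr 0 20 (.thr 16 32 (.thr 17 18 (.thr 49 33 (.dbl 51 34 50))))))) (.nv (.thr 56 52 (.thr 26 11 (.thr 16 31 (.thr 32 0 (.dbl 37 15 47))))) (.rp 16 (.thr 56 52 (.thr 40 43 (.thr 0 20 (.thr 24 8 (.thr 26 11 (.thr 10 58 (.dbl 15 5 37))))))) .nd)))))) (.rp 0 (.str 35 (.nv (.thr 43 40 (.thr 47 39 (.thr 37 32 (.thr 45 33 (.dbl 44 38 46))))) (.nv (.thr 43 40 (.thr 61 1 (.thr 3 51 (.dbl 63 23 62)))) (.rp 43 (.thr 38 44 (.thr 34 46 (.thr 33 32 (.thr 1 61 (.thr 17 49 (.thr 3 51 (.dbl 18 16 48))))))) (.rp 40 (.thr 38 44 (.thr 34 46 (.thr 32 33 (.thr 47 37 (.thr 43 39 (.thr 61 1 (.thr 3 51 (.dbl 63 23 62)))))))) (.rp 38 (.thr 43 40 (.thr 47 39 (.thr 37 32 (.thr 45 33 (.thr 15 30 (.thr 31 63 (.dbl 26 16 48))))))) (.rp 3 (.thr 1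 61 (.thr 40 43 (.thr 44 38 (.thr 32 36 (.thr 33 34 (.dbl 37 45 47)))))) (.rp 1 (.thr 3 51 (.thr 43 40 (.thr 38 44 (.thr 34 46 (.thr 32 33 (.dbl 47 37 39)))))) .nd)))))))) .nd))))) (.rp 19 (.str 28 (.nv (.thr 61 1 (.dbl 63 0 62)) (.nv (.thr 40 43 (.dbl 0 20 63)) (.rp 63 (.thr 44 12 (.thr 40 43 (.thr 36 32 (.thr 20 0 (.thr 4 52 (.dbl 38 35 55)))))) (.rp 0 (.thr 44 12 (.thr 40 43 (.thr 32 36 (.thr 37 47 (.thr 33 45 (.dbl 35 34 38)))))) .nd))))) (.rp 0 (.thr 1 61 (.str 44 (.nv (.thr 35 38 (.thr 43 40 (.thr 47 39 (.thr 37 32 (.dbl 45 33 46))))) (.nv (.thr 28 12 (.thr 40 43 (.thr 32 36 (.thr 38 35 (.thr 47 37 (.dbl 46 34 45)))))) (.nv (.thr 38 35 (.thr 4 55 (.thr 40 43 (.thr 36 32 (.thr 52 20 (.thr 48 56 (.dbl 12 24 28))))))) (.nv (.thr 40 43 (.thr 32 36 (.thr 37 47 (.thr 33 45 (.dbl 35 34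 38))))) (.rp 47 (.thr 40 43 (.thr 36 32 (.thr 38 35 (.thr 39 37 (.thr 4 55 (.thr 52 20 (.thr 48 56 (.dbl 12 24 28)))))))) (.rp 43 (.thr 38 35 (.thr 46 34 (.thr 47 45 (.thr 32 37 (.thr 36 40 (.thr 4 55 (.thr 52 20 (.thr 48 56 (.dbl 12 24 28))))))))) (.rp 40 (.thr 28 12 (.thr 38 35 (.thr 46 34 (.thr 45 47 (.thr 30 15 (.thr 14 62 (.thr 31 29 (.dbl 26 16 50)))))))) (.rp 38 (.thr 40 43 (.thr 32 36 (.thr 37 47 (.thr 5 53 (.thr 45 33 (.thr 13 9 (.thr 15 30 (.dbl 12 14 28)))))))) (.rp 35 (.thr 40 43 (.thr 32 36 (.thr 47 37 (.thr 45 46 (.thr 15 30 (.thr 31 63 (.thr 26 16 (.thr 10 58 (.thr 11 56 (.thr 9 8 (.thr 13 5 (.dbl 12 14 28)))))))))))) (.rp 32 (.thr 43 40 (.thr 35 38 (.thr 47 39 (.thr 45 46 (.thr 37 33 (.thr 15 30 (.thr 31 63 (.dbl 26 16 48)))))))) (.rp 28 (.str 19 (.nv (.thr 40 43 (.thr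 32 36 (.thr 38 35 (.thr 47 37 (.dbl 46 34 45))))) (.nv (.thr 35 38 (.thr 40 43 (.thr 32 36 (.thr 33 34 (.thr 17 49 (.thr 18 16 (.dbl 3 48 51))))))) (.nv (.thr 35 38 (.thr 43 40 (.thr 47 39 (.thr 37 32 (.dbl 45 33 46))))) (.nv (.thr 40 43 (.thr 32 36 (.thr 37 47 (.thr 33 45 (.dbl 35 34 38))))) (.rp 43 (.str 26 (.nv (.thr 35 38 (.thr 51 3 (.thr 56 11 (.thr 58 10 (.dbl 57 54 59))))) (.nv (.thr 16 31 (.thr 17 18 (.thr 33 49 (.thr 35 38 (.thr 37 45 (.dbl 32 34 47)))))) (.nv (.thr 56 11 (.thr 48 52 (.thr 37 15 (.thr 45 33 (.dbl 47 32 46))))) .nd)))) (.rp 40 (.str 27 (.nv (.thr 35 38 (.thr 51 3 (.thr 15 39 (.thr 45 30 (.thr 37 33 (.dbl 47 32 46)))))) (.nv (.thr 31 23 (.thr 26 16 (.thr 10 58 (.thr 56 11 (.thr 48 52 (.thr 37 15 (.thr 45 33 (.dbl 47 32 46)))))))) (.nv (.thr 23 31 (.thr 38 35 (.thr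 55 4 (.thr 39 7 (.thr 37 36 (.thr 45 33 (.dbl 46 34 47))))))) (.nv (.thr 35 38 (.thr 51 3 (.thr 39 15 (.thr 31 23 (.thr 43 47 (.thr 11 59 (.dbl 26 16 56))))))) (.rp 47 (.thr 31 23 (.thr 26 16 (.thr 56 11 (.thr 58 10 (.thr 57 59 (.thr 51 54 (.dbl 35 3 38))))))) (.rp 31 (.thr 35 38 (.thr 51 3 (.thr 39 15 (.thr 47 43 (.thr 45 46 (.dbl 37 32 33)))))) .nd))))))) (.rp 38 (.thr 40 43 (.thr 32 36 (.thr 37 47 (.thr 33 45 (.thr 17 49 (.thr 18 16 (.thr 3 48 (.dbl 35 34 51)))))))) (.rp 37 (.thr 43 40 (.thr 35 38 (.thr 51 3 (.thr 39 47 (.thr 27 15 (.thr 11 59 (.thr 26 56 (.dbl 31 16 23)))))))) (.rp 35 (.str 26 (.nv (.thr 16 31 (.thr 17 18 (.thr 33 49 (.thr 37 45 (.thr 32 47 (.dbl 40 36 43)))))) (.nv (.thr 56 11 (.thr 48 52 (.thr 37 15 (.thr 45 33 (.dbl 47 32 46))))) (.nv (.thr 11 56 (.thr 43 40 (.thr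 27 59 (.dbl 31 16 23)))) .nd)))) (.rp 32 (.thr 43 40 (.thr 35 38 (.thr 51 3 (.thr 39 47 (.thr 27 15 (.thr 11 59 (.thr 26 56 (.dbl 31 16 23)))))))) .nd))))))))))) .nd))))))))))))) .nd))))))) (.rp 20 (.thr 61 1 (.thr 63 62 (.thr 42 0 (.thr 3 22 (.dbl 43 23 40))))) (.rp 3 (.thr 61 1 (.str 0 (.nv (.dbl 63 42 62) (.rp 63 (.thr 40 20 (.str 37 (.nv (.thr 45 33 (.thr 15 30 (.thr 48 26 (.thr 32 16 (.dbl 42 43 47))))) (.nv (.thr 5 53 (.thr 15 10 (.thr 48 26 (.thr 32 16 (.dbl 42 43 47))))) (.nv (.thr 45 33 (.thr 15 30 (.dbl 5 10 53))) (.rp 48 (.thr 33 45 (.thr 53 5 (.thr 57 49 (.thr 51 54 (.thr 34 17 (.thr 32 35 (.dbl 42 43 47))))))) (.rp 43 (.str 23 (.nv (.thr 45 33 (.thr 15 30 (.dbl 5 10 53))) (.nv (.thr 5 53 (.thr 15 10 (.dbl 45 30 33))) (.rp 53 (.thr 45 33 (.thr 15 30 (.thr 48 26 (.thr 32 16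 (.thr 44 36 (.dbl 47 42 46)))))) (.rp 48 (.thr 53 5 (.thr 57 49 (.thr 33 45 (.thr 51 54 (.thr 34 17 (.thr 35 32 (.thr 38 44 (.thr 55 4 (.dbl 39 7 36))))))))) (.rp 45 (.thr 53 5 (.thr 57 49 (.thr 54 51 (.thr 55 52 (.thr 39 7 (.dbl 38 4 36)))))) (.rp 33 (.thr 5 53 (.thr 15 10 (.thr 45 30 (.thr 48 26 (.thr 32 16 (.thr 44 36 (.dbl 47 42 46))))))) (.rp 30 (.thr 53 5 (.thr 57 49 (.thr 54 51 (.thr 55 52 (.thr 39 7 (.dbl 38 4 36)))))) (.rp 15 (.thr 53 5 (.thr 57 49 (.thr 33 45 (.thr 51 54 (.thr 34 17 (.thr 35 32 (.thr 38 44 (.thr 55 4 (.dbl 39 7 36))))))))) (.rp 10 (.thr 53 5 (.thr 57 49 (.thr 54 51 (.thr 55 52 (.thr 39 7 (.dbl 38 4 36)))))) (.rp 5 (.thr 45 33 (.thr 15 30 (.thr 48 26 (.thr 32 16 (.thr 44 36 (.dbl 47 42 46)))))) .nd))))))))))) (.rp 23 (.thr 43 42 (.thr 45 33 (.thr 5 53 (.dbl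 15 10 30)))) (.rp 15 (.thr 33 45 (.thr 53 5 (.thr 57 49 (.thr 51 54 (.thr 34 17 (.thr 32 35 (.dbl 42 43 47))))))) .nd))))))))) (.rp 62 (.thr 40 20 (.dbl 42 43 63)) (.rp 42 (.thr 40 20 (.str 8 (.nv (.thr 62 63 (.thr 56 24 (.thr 26 11 (.thr 16 31 (.dbl 48 32 52))))) (.nv (.thr 24 56 (.thr 12 4 (.thr 44 28 (.dbl 36 32 48)))) (.rp 62 (.str 22 (.nv (.thr 56 24 (.thr 26 11 (.thr 30 18 (.thr 15 45 (.thr 5 10 (.dbl 37 48 53)))))) (.nv (.thr 12 4 (.thr 24 56 (.thr 44 28 (.dbl 36 32 48)))) (.rp 56 (.thr 4 12 (.thr 38 55 (.thr 6 54 (.thr 5 7 (.thr 15 10 (.thr 45 30 (.dbl 37 33 53))))))) (.rp 48 (.thr 12 4 (.thr 56 24 (.thr 28 44 (.thr 26 11 (.thr 31 16 (.dbl 30 18 29)))))) (.rp 28 (.thr 4 12 (.thr 38 55 (.thr 6 54 (.thr 7 5 (.thr 52 37 (.dbl 56 24 48)))))) (.rp 24 (.thr 4 12 (.thr 38 55 (.thr 6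 54 (.thr 5 7 (.thr 15 10 (.thr 45 30 (.dbl 37 33 53))))))) .nd))))))) (.rp 56 (.thr 12 4 (.thr 44 28 (.thr 36 32 (.thr 38 35 (.thr 37 39 (.thr 5 53 (.thr 15 10 (.dbl 48 24 26)))))))) (.rp 52 (.thr 24 56 (.thr 12 4 (.thr 36 48 (.dbl 44 28 32)))) (.rp 48 (.thr 56 24 (.thr 12 4 (.thr 28 44 (.thr 26 11 (.thr 31 16 (.thr 29 30 (.dbl 63 46 62))))))) (.rp 32 (.thr 56 24 (.thr 12 4 (.thr 28 44 (.thr 26 11 (.thr 31 16 (.thr 29 30 (.dbl 63 46 62))))))) (.rp 28 (.thr 4 12 (.thr 38 55 (.thr 44 35 (.thr 36 32 (.thr 37 39 (.thr 5 53 (.thr 15 10 (.dbl 45 30 33)))))))) (.rp 24 (.thr 4 12 (.thr 38 55 (.thr 44 35 (.thr 36 32 (.thr 37 39 (.thr 5 53 (.thr 15 10 (.dbl 45 30 33)))))))) .nd))))))))))) .nd)))))) (.rp 1 (.thr 22 3 (.str 0 (.nv (.dbl 20 23 40) (.rp 40 (.str 4 (.nv (.thr 12 8 (.thr 20 23 (.thr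 28 44 (.thr 24 16 (.dbl 36 48 52))))) (.nv (.thr 20 23 (.thr 38 55 (.thr 6 54 (.thr 7 5 (.dbl 52 36 37))))) (.nv (.thr 38 55 (.thr 44 35 (.dbl 12 8 28))) .nd)))) (.rp 23 (.thr 40 20 (.dbl 42 43 63)) (.rp 20 (.str 12 (.nv (.thr 44 28 (.thr 38 35 (.dbl 4 8 55))) (.nv (.thr 4 8 (.thr 38 55 (.dbl 44 28 35))) (.rp 55 (.thr 28 44 (.thr 63 42 (.thr 29 46 (.thr 30 31 (.thr 45 15 (.dbl 61 13 62)))))) (.rp 44 (.thr 4 8 (.thr 38 55 (.thr 54 6 (.thr 51 57 (.thr 34 17 (.dbl 42 46 63)))))) (.rp 38 (.thr 44 28 (.thr 63 42 (.thr 46 29 (.thr 45 47 (.thr 30 15 (.dbl 62 14 61)))))) (.rp 35 (.thr 4 8 (.thr 38 55 (.thr 54 6 (.thr 51 57 (.thr 34 17 (.dbl 42 46 63)))))) (.rp 28 (.thr 4 8 (.thr 38 55 (.thr 54 6 (.thr 51 57 (.thr 34 17 (.dbl 42 46 63)))))) (.rp 8 (.thr 44 28 (.thr 38 35 (.thr 54 6 (.thr 51 57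 (.thr 34 17 (.dbl 42 46 63)))))) (.rp 4 (.thr 28 44 (.thr 63 42 (.thr 29 46 (.thr 30 31 (.thr 45 15 (.dbl 61 13 62)))))) .nd)))))))))) .nd)))))) (.rp 0 (.str 45 (.nv (.thr 15 30 (.thr 37 33 (.thr 48 26 (.thr 53 5 (.thr 63 58 (.dbl 61 1 62)))))) (.nv (.thr 3 22 (.thr 37 33 (.thr 15 30 (.thr 26 48 (.dbl 11 7 56))))) (.nv (.thr 37 33 (.thr 1 61 (.thr 15 30 (.thr 22 3 (.thr 52 7 (.dbl 48 26 56)))))) (.rp 48 (.thr 61 1 (.thr 3 22 (.thr 29 13 (.thr 30 15 (.thr 28 31 (.thr 12 44 (.dbl 63 46 62))))))) (.rp 37 (.thr 61 1 (.thr 3 22 (.thr 13 29 (.thr 15 30 (.thr 7 11 (.thr 12 14 (.thr 6 9 (.thr 4 5 (.thr 38 55 (.dbl 44 28 35)))))))))) (.rp 33 (.thr 61 1 (.thr 3 22 (.thr 29 13 (.thr 30 15 (.thr 28 31 (.thr 12 44 (.dbl 63 46 62))))))) (.rp 30 (.thr 37 33 (.thr 1 61 (.thr 53 5 (.thr 22 3 (.thr 52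 7 (.thr 55 54 (.thr 4 38 (.dbl 20 23 36)))))))) (.rp 26 (.thr 61 1 (.thr 3 22 (.thr 29 13 (.thr 30 15 (.thr 28 31 (.thr 12 44 (.dbl 63 46 62))))))) (.rp 22 (.thr 37 33 (.thr 1 61 (.thr 5 53 (.thr 13 9 (.thr 15 30 (.thr 14 12 (.thr 26 48 (.thr 11 56 (.thr 38 50 (.thr 4 55 (.dbl 7 3 6))))))))))) (.rp 15 (.thr 37 33 (.thr 1 61 (.thr 5 53 (.thr 22 3 (.thr 7 52 (.thr 4 6 (.thr 55 38 (.dbl 23 20 39)))))))) (.rp 3 (.thr 1 61 (.thr 37 33 (.thr 53 5 (.thr 15 30 (.thr 48 26 (.thr 52 56 (.thr 58 63 (.thr 54 55 (.thr 51 57 (.dbl 50 49 62)))))))))) .nd)))))))))))) .nd))))))))))))))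

theorem w175 : WinAt (2199025352704, 33554436) :=
  chF (K := []) kn c175 2199025352704 33554436 25
    [] (by decide +kernel) (by decide +kernel)

/-- A certificate. -/
noncomputable def c176 : Ct := (.str 25 (.nv (.thr 17 29 (.thr 9 57 (.thr 49 33 (.dbl 13 5 37)))) (.rp 57 (.thr 17 29 (.thr 49 33 (.thr 13 37 (.thr 5 9 (.str 0 (.nv (.thr 51 34 (.thr 38 12 (.thr 55 4 (.dbl 63 42 59)))) (.nv (.thr 42 63 (.thr 8 59 (.thr 12 4 (.dbl 15 10 14)))) (.nv (.thr 15 10 (.thr 51 34 (.dbl 12 14 38))) (.rp 51 (.thr 15 10 (.thr 42 63 (.thr 40 43 (.thr 60 20 (.thr 30 45 (.thr 14 12 (.thr 46 62 (.thr 38 34 (.thr 44 35 (.thr 32 36 (.thr 48 16 (.thr 52 56 (.thr 55 4 (.thr 54 53 (.dbl 22 3 6))))))))))))))) (.rp 42 (.thr 51 34 (.thr 38 12 (.thr 4 55 (.thr 6 7 (.thr 35 44 (.thr 19 3 (.dbl 22 28 54)))))))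 (.rp 15 (.str 48 (.nv (.dbl 51 34 50) (.rp 51 (.thr 16 32 (.thr 19 18 (.thr 22 28 (.thr 20 23 (.dbl 60 3 40))))) (.rp 50 (.thr 42 63 (.thr 8 59 (.thr 12 4 (.dbl 51 34 38)))) (.rp 34 (.thr 42 63 (.thr 8 59 (.thr 12 4 (.dbl 51 38 50)))) .nd))))) (.rp 12 (.thr 51 34 (.thr 63 42 (.thr 55 59 (.thr 38 4 (.thr 35 44 (.thr 3 19 (.thr 23 43 (.dbl 22 20 60)))))))) .nd)))))))))))) (.rp 49 (.thr 57 9 (.str 51 (.nv (.thr 17 29 (.thr 0 34 (.thr 60 54 (.thr 20 40 (.dbl 22 3 23))))) (.nv (.thr 12 38 (.thr 17 29 (.thr 0 34 (.thr 8 4 (.dbl 42 59 63))))) (.nv (.thr 38 12 (.thr 35 44 (.thr 60 54 (.dbl 3 19 22)))) .nd))))) (.rp 45 (.thr 9 57 (.thr 17 29 (.thr 13 5 (.dbl 49 33 37)))) (.rp 37 (.thr 29 17 (.thr 57 9 (.str 12 (.nv (.thr 51 38 (.thr 60 54 (.thr 22 3 (.dbl 28 19 44)))) (.nv (.thr 63 46 (.thr 38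 51 (.thr 4 55 (.dbl 0 8 42)))) (.rp 51 (.thr 63 46 (.thr 0 42 (.thr 4 8 (.thr 38 55 (.thr 44 35 (.thr 60 28 (.thr 20 40 (.dbl 22 3 23)))))))) (.rp 48 (.str 15 (.nv (.thr 14 13 (.thr 46 63 (.thr 30 62 (.thr 60 45 (.dbl 28 31 44))))) (.nv (.thr 14 13 (.thr 51 38 (.thr 60 54 (.thr 22 3 (.dbl 28 19 44))))) (.nv (.thr 38 51 (.thr 4 55 (.thr 63 46 (.dbl 0 8 42)))) .nd)))) (.rp 38 (.thr 63 46 (.thr 42 0 (.thr 59 8 (.thr 51 55 (.thr 60 54 (.thr 28 44 (.dbl 22 3 19))))))) (.rp 15 (.str 48 (.nv (.thr 51 38 (.thr 60 54 (.thr 22 3 (.dbl 28 19 44)))) (.nv (.thr 63 46 (.thr 58 53 (.thr 59 56 (.dbl 42 0 8)))) .nd))) .nd))))))))) (.rp 33 (.str 51 (.nv (.thr 17 29 (.thr 0 34 (.thr 57 9 (.thr 60 54 (.thr 20 40 (.dbl 22 3 23)))))) (.nv (.thr 12 38 (.thr 29 17 (.thr 63 46 (.thr 42 0 (.dbl 59 8 55))))) (.nv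 (.thr 38 12 (.thr 35 44 (.thr 3 19 (.thr 57 9 (.dbl 60 22 54))))) .nd)))) (.rp 29 (.thr 9 57 (.thr 13 5 (.thr 49 37 (.thr 33 17 (.str 3 (.nv (.thr 12 6 (.thr 51 38 (.dbl 48 18 50))) (.nv (.thr 22 60 (.thr 19 28 (.thr 48 18 (.dbl 51 35 50)))) (.nv (.thr 22 60 (.thr 19 28 (.thr 51 35 (.dbl 12 6 38)))) (.nv (.thr 48 18 (.thr 12 6 (.dbl 51 38 50))) (.rp 51 (.thr 12 6 (.thr 60 22 (.thr 44 28 (.thr 38 35 (.thr 4 55 (.thr 0 8 (.thr 40 20 (.dbl 42 43 63)))))))) (.rp 48 (.str 15 (.nv (.dbl 12 6 14) (.rp 14 (.thr 22 60 (.thr 19 28 (.thr 51 35 (.dbl 12 6 38)))) (.rp 12 (.thr 11 7 (.thr 8 10 (.thr 42 59 (.thr 43 40 (.dbl 63 0 23))))) (.rp 6 (.thr 22 60 (.thr 19 28 (.thr 51 35 (.dbl 12 14 38)))) .nd))))) (.rp 22 (.thr 12 6 (.thr 38 51 (.thr 35 44 (.thr 34 32 (.thr 4 55 (.thr 8 0 (.dbl 42 46 59)))))))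 (.rp 12 (.thr 48 18 (.thr 22 60 (.thr 23 20 (.thr 63 43 (.thr 58 53 (.thr 50 51 (.thr 54 62 (.thr 38 6 (.thr 55 4 (.thr 7 39 (.thr 15 11 (.thr 47 31 (.thr 44 35 (.thr 46 45 (.dbl 42 0 34))))))))))))))) .nd))))))))))))) (.rp 17 (.str 12 (.nv (.thr 9 57 (.thr 5 13 (.thr 6 3 (.thr 4 7 (.dbl 38 51 55))))) (.nv (.thr 51 38 (.thr 57 9 (.thr 60 54 (.thr 22 3 (.dbl 28 19 44))))) (.rp 57 (.thr 38 51 (.thr 4 55 (.thr 0 8 (.thr 44 35 (.thr 60 28 (.thr 20 40 (.dbl 22 3 23))))))) (.rp 51 (.thr 9 57 (.thr 3 6 (.thr 60 22 (.thr 44 28 (.thr 38 35 (.thr 4 55 (.thr 0 8 (.thr 40 20 (.dbl 42 43 63))))))))) (.rp 38 (.thr 9 57 (.thr 13 5 (.thr 3 6 (.thr 22 60 (.thr 19 28 (.thr 51 35 (.thr 23 20 (.thr 27 31 (.dbl 15 14 39))))))))) (.rp 9 (.thr 38 51 (.thr 4 55 (.thr 0 8 (.thr 44 35 (.thr 60 28 (.thr 20 40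 (.dbl 22 3 23))))))) (.rp 3 (.thr 57 9 (.thr 51 38 (.thr 60 54 (.thr 28 44 (.thr 22 19 (.thr 20 23 (.thr 0 40 (.thr 8 4 (.dbl 42 59 63))))))))) .nd)))))))) (.rp 13 (.thr 29 17 (.str 12 (.nv (.thr 9 57 (.thr 3 6 (.thr 63 46 (.thr 23 43 (.dbl 22 20 60))))) (.nv (.thr 9 57 (.thr 3 6 (.thr 51 38 (.thr 19 35 (.dbl 22 28 60))))) (.nv (.thr 38 51 (.thr 4 55 (.thr 63 46 (.dbl 0 8 42)))) .nd))))) (.rp 9 (.str 51 (.nv (.thr 17 29 (.thr 33 49 (.thr 34 0 (.thr 35 32 (.dbl 38 12 44))))) (.nv (.thr 12 38 (.thr 29 17 (.thr 63 46 (.thr 42 0 (.dbl 59 8 55))))) (.rp 38 (.thr 17 29 (.thr 49 33 (.thr 0 34 (.thr 42 63 (.thr 8 59 (.thr 12 4 (.thr 40 43 (.thr 24 56 (.dbl 48 36 50))))))))) (.rp 29 (.thr 38 12 (.thr 35 44 (.thr 3 19 (.thr 55 4 (.thr 63 59 (.thr 43 23 (.dbl 42 0 40))))))) (.rp 17 (.thr 38 12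 (.thr 35 44 (.thr 3 19 (.thr 55 4 (.thr 63 59 (.thr 43 23 (.dbl 42 0 40))))))) (.rp 12 (.thr 17 29 (.thr 0 34 (.thr 63 42 (.thr 55 59 (.thr 38 4 (.thr 35 44 (.thr 3 19 (.thr 23 43 (.dbl 22 20 60))))))))) (.rp 0 (.thr 29 17 (.thr 12 38 (.thr 63 46 (.thr 59 55 (.thr 42 8 (.thr 43 40 (.thr 3 23 (.thr 19 35 (.dbl 22 28 60))))))))) .nd)))))))) (.rp 5 (.str 12 (.nv (.thr 9 57 (.thr 3 6 (.thr 29 17 (.thr 63 46 (.thr 23 43 (.dbl 22 20 60)))))) (.nv (.thr 9 57 (.thr 38 51 (.thr 44 35 (.thr 60 28 (.dbl 3 6 22))))) (.nv (.thr 29 17 (.thr 38 51 (.thr 4 55 (.thr 63 46 (.dbl 0 8 42))))) .nd)))) .nd))))))))))))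

theorem w176 : WinAt (2199025352706, 2305843009280802820) :=
  chF (K := []) kn c176 2199025352706 2305843009280802820 61
    [] (by decide +kernel) (by decide +kernel)

/-- A certificate. -/
noncomputable def c177 : Ct := (.str 25 (.nv (.thr 9 57 (.thr 17 29 (.thr 13 5 (.dbl 49 33 37)))) (.rp 57 (.thr 17 29 (.thr 49 33 (.thr 13 37 (.str 12 (.nv (.thr 51 38 (.thr 0 34 (.thr 8 4 (.dbl 42 59 63)))) (.nv (.thr 9 5 (.thr 3 6 (.thr 22 60 (.thr 19 28 (.dbl 51 35 38))))) (.nv (.thr 5 9 (.thr 15 14 (.thr 51 38 (.dbl 0 10 34)))) (.rp 51 (.thr 9 5 (.thr 3 6 (.thr 60 22 (.thr 44 28 (.thr 38 35 (.thr 4 55 (.thr 0 8 (.thr 40 20 (.dbl 42 43 63))))))))) (.rp 38 (.thr 9 5 (.thr 3 6 (.thr 22 60 (.thr 19 28 (.thr 51 35 (.thr 23 20 (.thr 63 43 (.dbl 0 34 42)))))))) .nd))))))))) (.rp 53 (.thr 17 29 (.thr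 9 57 (.thr 49 33 (.dbl 13 5 37)))) (.rp 49 (.thr 57 9 (.str 51 (.nv (.thr 17 29 (.thr 0 34 (.thr 60 54 (.thr 20 40 (.dbl 22 3 23))))) (.nv (.thr 12 38 (.thr 17 29 (.thr 0 34 (.thr 8 4 (.dbl 42 59 63))))) (.nv (.thr 12 38 (.thr 60 54 (.thr 22 3 (.dbl 28 19 44)))) .nd))))) (.rp 37 (.str 19 (.nv (.thr 17 29 (.thr 18 16 (.thr 22 28 (.thr 3 60 (.dbl 33 48 49))))) (.nv (.thr 17 29 (.thr 33 49 (.thr 18 16 (.thr 22 28 (.dbl 3 48 60))))) (.nv (.thr 9 57 (.thr 22 28 (.thr 3 60 (.thr 51 35 (.dbl 12 6 38))))) (.rp 60 (.thr 17 29 (.thr 33 49 (.thr 18 16 (.thr 3 48 (.thr 51 35 (.thr 12 38 (.dbl 9 6 57))))))) (.rp 49 (.thr 22 28 (.thr 3 60 (.thr 51 35 (.thr 12 38 (.dbl 9 6 57))))) (.rp 28 (.thr 17 29 (.thr 57 9 (.thr 33 49 (.thr 18 16 (.thr 3 48 (.thr 51 35 (.dbl 60 22 54))))))) (.rp 22 (.thr 17 29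 (.thr 33 49 (.thr 18 16 (.thr 3 48 (.thr 51 35 (.thr 12 38 (.dbl 9 6 57))))))) (.rp 3 (.thr 17 29 (.thr 57 9 (.thr 16 18 (.thr 26 31 (.thr 56 11 (.thr 28 22 (.thr 24 20 (.thr 8 40 (.dbl 59 42 58))))))))) .nd))))))))) (.rp 33 (.str 51 (.nv (.thr 17 29 (.thr 0 34 (.thr 57 9 (.thr 60 54 (.thr 20 40 (.dbl 22 3 23)))))) (.nv (.thr 9 57 (.thr 12 38 (.thr 3 6 (.thr 19 35 (.dbl 22 28 60))))) (.nv (.thr 12 38 (.thr 29 17 (.thr 63 46 (.thr 42 0 (.dbl 59 8 55))))) .nd)))) (.rp 29 (.thr 9 57 (.thr 13 5 (.thr 49 37 (.str 51 (.nv (.thr 12 38 (.thr 3 6 (.thr 19 35 (.dbl 22 28 60)))) (.nv (.thr 17 33 (.thr 38 12 (.thr 55 4 (.thr 63 59 (.dbl 0 34 42))))) (.nv (.thr 33 17 (.thr 48 50 (.thr 12 38 (.dbl 3 6 18)))) (.rp 38 (.thr 17 33 (.thr 0 34 (.thr 42 63 (.thr 8 59 (.thr 11 10 (.thr 56 26 (.dbl 40 24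 43))))))) (.rp 12 (.thr 17 33 (.thr 50 48 (.thr 0 34 (.thr 63 42 (.thr 55 59 (.thr 38 4 (.thr 35 44 (.thr 26 14 (.thr 16 31 (.dbl 19 3 18)))))))))) (.rp 6 (.thr 17 33 (.thr 0 34 (.thr 63 42 (.thr 55 59 (.dbl 38 4 12))))) .nd)))))))))) (.rp 17 (.str 3 (.nv (.thr 9 57 (.thr 5 13 (.thr 6 12 (.thr 4 7 (.thr 38 55 (.dbl 22 54 60)))))) (.nv (.thr 57 9 (.thr 60 22 (.thr 51 54 (.thr 38 12 (.dbl 35 19 44))))) (.rp 60 (.thr 9 57 (.thr 12 6 (.thr 51 38 (.thr 19 35 (.thr 22 28 (.thr 23 20 (.thr 63 43 (.thr 59 55 (.dbl 42 0 8))))))))) (.rp 57 (.thr 22 60 (.thr 19 28 (.thr 51 35 (.thr 23 20 (.thr 63 43 (.thr 59 55 (.dbl 42 0 8))))))) (.rp 54 (.thr 9 57 (.thr 12 6 (.thr 51 38 (.thr 22 60 (.dbl 19 28 35))))) (.rp 38 (.thr 9 57 (.thr 5 13 (.thr 6 12 (.thr 7 4 (.thr 22 60 (.dbl 37 52 53)))))) (.rp 22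 (.thr 9 57 (.thr 12 6 (.thr 38 51 (.thr 44 35 (.thr 60 28 (.thr 4 55 (.thr 0 8 (.thr 40 20 (.dbl 42 43 63))))))))) (.rp 12 (.thr 9 57 (.thr 5 13 (.thr 22 60 (.thr 23 20 (.thr 63 43 (.thr 0 42 (.thr 15 10 (.thr 31 47 (.thr 11 7 (.dbl 26 16 56)))))))))) (.rp 9 (.thr 22 60 (.thr 19 28 (.thr 51 35 (.thr 23 20 (.thr 63 43 (.thr 59 55 (.dbl 42 0 8))))))) .nd)))))))))) (.rp 13 (.thr 57 9 (.thr 29 17 (.str 51 (.nv (.thr 12 38 (.thr 63 46 (.thr 42 0 (.dbl 59 8 55)))) (.nv (.thr 60 54 (.thr 12 38 (.thr 22 3 (.dbl 28 19 44)))) (.rp 38 (.thr 60 54 (.thr 22 3 (.thr 28 19 (.thr 31 30 (.thr 16 26 (.dbl 20 23 24)))))) (.rp 12 (.thr 60 54 (.thr 3 22 (.thr 35 19 (.thr 38 44 (.thr 55 4 (.thr 59 63 (.thr 56 58 (.thr 48 52 (.thr 26 11 (.dbl 50 14 49)))))))))) .nd))))))) (.rp 9 (.str 51 (.nv (.thr 17 29 (.thr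 33 49 (.thr 34 0 (.thr 35 32 (.dbl 38 12 44))))) (.nv (.thr 12 38 (.thr 29 17 (.thr 63 46 (.thr 42 0 (.dbl 59 8 55))))) (.rp 38 (.thr 17 29 (.thr 33 49 (.thr 0 34 (.thr 42 63 (.thr 40 43 (.thr 60 20 (.thr 3 22 (.thr 19 35 (.dbl 18 16 48))))))))) (.rp 29 (.thr 38 12 (.thr 35 44 (.thr 55 4 (.thr 63 59 (.thr 0 42 (.thr 17 34 (.thr 49 33 (.thr 50 48 (.thr 26 14 (.thr 16 31 (.dbl 19 3 18))))))))))) (.rp 17 (.thr 38 12 (.thr 35 44 (.thr 3 19 (.thr 60 22 (.thr 57 54 (.thr 55 4 (.thr 59 63 (.thr 56 58 (.thr 48 52 (.thr 26 11 (.dbl 50 14 49))))))))))) (.rp 12 (.thr 17 29 (.thr 33 49 (.thr 34 0 (.thr 35 32 (.thr 3 19 (.thr 48 18 (.thr 60 22 (.thr 56 52 (.thr 26 11 (.dbl 37 15 45)))))))))) (.rp 0 (.thr 17 29 (.thr 49 33 (.thr 50 48 (.thr 38 12 (.thr 35 44 (.thr 26 14 (.thr 16 31 (.dbl 19 3 18))))))))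 .nd)))))))) (.rp 5 (.str 19 (.nv (.thr 22 28 (.thr 17 29 (.thr 18 16 (.thr 33 49 (.dbl 3 48 60))))) (.nv (.thr 22 28 (.thr 3 60 (.thr 51 35 (.thr 12 38 (.dbl 9 6 57))))) (.rp 60 (.thr 17 29 (.thr 33 49 (.thr 18 16 (.thr 3 48 (.thr 51 35 (.thr 12 38 (.dbl 9 6 57))))))) (.rp 57 (.thr 17 29 (.thr 18 16 (.thr 22 28 (.thr 3 60 (.dbl 33 48 49))))) (.rp 28 (.thr 17 29 (.thr 57 9 (.thr 33 49 (.thr 18 16 (.thr 3 48 (.thr 51 35 (.dbl 60 22 54))))))) (.rp 22 (.thr 17 29 (.thr 33 49 (.thr 18 16 (.thr 3 48 (.thr 51 35 (.thr 12 38 (.dbl 9 6 57))))))) (.rp 3 (.thr 17 29 (.thr 57 9 (.thr 16 18 (.thr 26 31 (.thr 56 11 (.thr 28 22 (.thr 24 20 (.thr 8 40 (.dbl 59 42 58))))))))) .nd)))))))) .nd))))))))))))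

theorem w177 : WinAt (2199025352706, 2305843009347911684) :=
  chF (K := []) kn c177 2199025352706 2305843009347911684 61
    [] (by decide +kernel) (by decide +kernel)

/-- A certificate. -/
noncomputable def c178 : Ct := (.str 25 (.nv (.thr 9 57 (.thr 13 5 (.thr 49 37 (.dbl 17 29 33)))) (.rp 57 (.thr 17 29 (.thr 49 33 (.thr 13 37 (.thr 9 5 (.str 42 (.nv (.thr 0 63 (.thr 40 43 (.thr 51 34 (.thr 12 38 (.thr 3 6 (.dbl 60 20 22)))))) (.nv (.thr 0 63 (.thr 51 34 (.thr 12 38 (.dbl 8 4 59)))) (.nv (.thr 40 43 (.thr 8 59 (.thr 56 24 (.dbl 11 10 26)))) (.rp 31 (.str 30 (.nv (.thr 0 63 (.thr 8 59 (.thr 12 4 (.dbl 51 34 38)))) (.nv (.thr 0 63 (.thr 51 34 (.thr 12 38 (.thr 15 14 (.thr 60 45 (.dbl 3 6 22)))))) (.nv (.thr 40 43 (.thr 8 59 (.thr 56 24 (.dbl 11 10 26)))) .nd)))) (.rp 30 (.str 31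 (.nv (.thr 0 63 (.thr 8 59 (.thr 12 4 (.dbl 51 34 38)))) (.nv (.thr 0 63 (.thr 16 26 (.thr 48 32 (.dbl 51 34 50)))) (.nv (.thr 26 16 (.thr 10 58 (.dbl 11 8 56))) .nd)))) .nd)))))))))) (.rp 53 (.thr 17 29 (.thr 9 57 (.thr 49 33 (.dbl 13 5 37)))) (.rp 49 (.thr 29 17 (.thr 57 9 (.str 60 (.nv (.thr 51 54 (.thr 12 38 (.thr 63 46 (.thr 42 0 (.dbl 59 8 55))))) (.nv (.thr 51 54 (.thr 38 12 (.thr 35 44 (.dbl 3 19 22)))) (.rp 54 (.thr 22 3 (.thr 20 23 (.thr 0 40 (.thr 63 42 (.thr 12 46 (.thr 4 8 (.dbl 38 51 55))))))) (.rp 51 (.thr 22 3 (.thr 20 23 (.thr 0 40 (.thr 63 42 (.thr 12 46 (.thr 4 8 (.thr 52 36 (.thr 38 55 (.thr 7 37 (.dbl 6 5 54)))))))))) (.rp 38 (.thr 51 54 (.thr 22 3 (.thr 20 23 (.thr 0 40 (.thr 63 42 (.thr 59 55 (.thr 56 58 (.thr 52 48 (.thr 4 36 (.dbl 12 8 46)))))))))) (.rp 22 (.thr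 51 54 (.thr 38 12 (.thr 35 44 (.thr 3 19 (.thr 55 4 (.thr 63 59 (.thr 43 23 (.dbl 42 0 40)))))))) (.rp 12 (.thr 51 54 (.thr 3 22 (.thr 35 19 (.thr 38 44 (.thr 55 4 (.thr 63 59 (.thr 43 23 (.dbl 42 0 40)))))))) (.rp 6 (.thr 51 54 (.thr 38 12 (.thr 3 22 (.dbl 35 19 44)))) .nd))))))))))) (.rp 37 (.str 12 (.nv (.thr 9 57 (.thr 5 13 (.thr 6 3 (.thr 4 7 (.dbl 38 51 55))))) (.nv (.thr 9 57 (.thr 3 6 (.thr 29 17 (.thr 63 46 (.thr 23 43 (.dbl 22 20 60)))))) (.nv (.thr 29 17 (.thr 38 51 (.thr 4 55 (.thr 63 46 (.dbl 0 8 42))))) (.rp 29 (.thr 9 57 (.thr 6 3 (.thr 38 51 (.thr 4 55 (.dbl 5 7 13))))) .nd))))) (.rp 33 (.str 8 (.nv (.thr 17 29 (.thr 42 59 (.thr 0 63 (.thr 12 4 (.dbl 51 34 38))))) (.nv (.thr 9 57 (.thr 5 13 (.thr 10 11 (.thr 0 15 (.thr 12 4 (.thr 51 38 (.dbl 17 29 34))))))) (.nv (.thr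 57 9 (.thr 59 42 (.thr 56 58 (.thr 26 11 (.dbl 24 27 40))))) .nd)))) (.rp 29 (.thr 9 57 (.thr 13 5 (.thr 49 37 (.thr 17 33 (.str 42 (.nv (.thr 0 63 (.thr 40 43 (.thr 51 34 (.thr 12 38 (.thr 3 6 (.dbl 60 20 22)))))) (.nv (.thr 0 63 (.thr 51 34 (.thr 12 38 (.dbl 8 4 59)))) (.nv (.thr 40 43 (.thr 8 59 (.thr 56 24 (.dbl 11 10 26)))) (.rp 31 (.str 30 (.nv (.thr 0 63 (.thr 8 59 (.thr 12 4 (.dbl 51 34 38)))) (.nv (.thr 0 63 (.thr 51 34 (.thr 12 38 (.thr 15 14 (.thr 60 45 (.dbl 3 6 22)))))) (.nv (.thr 40 43 (.thr 8 59 (.thr 56 24 (.dbl 11 10 26)))) .nd)))) (.rp 30 (.str 31 (.nv (.thr 0 63 (.thr 8 59 (.thr 12 4 (.dbl 51 34 38)))) (.nv (.thr 0 63 (.thr 16 26 (.thr 48 32 (.dbl 51 34 50)))) (.nv (.thr 26 16 (.thr 10 58 (.dbl 11 8 56))) .nd)))) .nd)))))))))) (.rp 17 (.str 8 (.nv (.thr 9 57 (.thr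 5 13 (.thr 10 11 (.thr 0 15 (.dbl 42 59 63))))) (.nv (.thr 57 9 (.thr 59 42 (.thr 56 58 (.thr 26 11 (.dbl 24 27 40))))) (.rp 59 (.thr 9 57 (.thr 5 13 (.thr 10 11 (.thr 0 15 (.thr 12 4 (.thr 63 42 (.thr 3 6 (.thr 22 60 (.dbl 23 20 43))))))))) (.rp 57 (.thr 42 59 (.thr 40 43 (.thr 56 24 (.thr 11 26 (.thr 10 9 (.thr 0 63 (.thr 15 5 (.thr 3 7 (.dbl 60 20 22))))))))) (.rp 42 (.thr 9 57 (.thr 5 13 (.thr 53 37 (.thr 10 11 (.thr 0 15 (.thr 12 4 (.thr 3 6 (.thr 22 60 (.thr 23 20 (.thr 63 43 (.thr 48 58 (.thr 51 38 (.thr 19 35 (.thr 27 31 (.dbl 24 26 36))))))))))))))) (.rp 11 (.thr 9 57 (.thr 42 59 (.thr 0 63 (.thr 12 4 (.thr 3 6 (.thr 60 22 (.dbl 40 20 43))))))) (.rp 9 (.thr 42 59 (.thr 40 43 (.thr 24 56 (.thr 0 63 (.thr 12 4 (.thr 48 36 (.thr 16 32 (.dbl 26 27 31)))))))) .nd)))))))) (.rp 13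 (.thr 29 17 (.str 60 (.nv (.thr 22 3 (.thr 20 23 (.thr 0 40 (.thr 63 42 (.thr 12 46 (.thr 4 8 (.dbl 38 51 55))))))) (.nv (.thr 57 9 (.thr 51 54 (.thr 38 12 (.thr 35 44 (.dbl 3 19 22))))) (.rp 51 (.thr 9 57 (.thr 3 22 (.thr 12 6 (.thr 63 46 (.thr 43 23 (.dbl 42 0 40)))))) (.rp 38 (.thr 57 9 (.thr 51 54 (.thr 22 3 (.thr 20 23 (.thr 0 40 (.thr 63 42 (.thr 59 55 (.thr 56 58 (.thr 52 48 (.thr 4 36 (.dbl 12 8 46))))))))))) (.rp 22 (.thr 57 9 (.thr 51 54 (.thr 38 12 (.thr 35 44 (.thr 3 19 (.thr 55 4 (.thr 63 59 (.thr 43 23 (.dbl 42 0 40))))))))) (.rp 12 (.thr 57 9 (.thr 51 54 (.thr 3 22 (.thr 35 19 (.thr 38 44 (.thr 55 4 (.thr 63 59 (.thr 43 23 (.dbl 42 0 40))))))))) (.rp 3 (.thr 57 9 (.thr 51 54 (.thr 12 38 (.thr 63 46 (.thr 59 55 (.dbl 42 0 8)))))) .nd))))))))) (.rp 9 (.str 0 (.nv (.thr 17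 29 (.thr 33 49 (.thr 34 51 (.thr 35 32 (.thr 38 44 (.dbl 42 46 63)))))) (.nv (.thr 29 17 (.thr 63 42 (.thr 12 46 (.thr 38 51 (.dbl 4 8 55))))) (.rp 63 (.thr 17 29 (.thr 49 33 (.thr 51 34 (.thr 12 38 (.thr 8 4 (.thr 42 59 (.thr 40 43 (.thr 24 56 (.dbl 48 36 50))))))))) (.rp 51 (.thr 17 29 (.thr 33 49 (.thr 42 63 (.thr 40 43 (.thr 60 20 (.thr 3 22 (.thr 48 18 (.thr 56 52 (.dbl 8 24 59))))))))) (.rp 46 (.thr 17 29 (.thr 51 34 (.thr 12 38 (.thr 42 63 (.dbl 8 4 59))))) (.rp 42 (.thr 17 29 (.thr 49 33 (.thr 51 34 (.thr 50 48 (.thr 38 12 (.thr 55 4 (.thr 63 59 (.thr 26 14 (.thr 31 16 (.thr 15 47 (.dbl 27 24 39))))))))))) (.rp 38 (.thr 17 29 (.thr 33 49 (.thr 34 51 (.thr 32 35 (.thr 42 63 (.dbl 37 45 47)))))) (.rp 29 (.thr 42 63 (.thr 8 59 (.thr 12 4 (.thr 40 43 (.thr 24 56 (.thr 48 36 (.thr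 16 32 (.dbl 26 27 31)))))))) (.rp 17 (.thr 42 63 (.thr 8 59 (.thr 12 4 (.thr 40 43 (.thr 24 56 (.thr 48 36 (.thr 16 32 (.dbl 26 27 31)))))))) (.rp 12 (.thr 17 29 (.thr 33 49 (.thr 34 51 (.thr 32 35 (.thr 42 63 (.thr 46 38 (.dbl 37 45 47))))))) .nd))))))))))) (.rp 5 (.str 12 (.nv (.thr 9 57 (.thr 3 6 (.thr 17 29 (.thr 51 38 (.thr 19 35 (.thr 18 16 (.dbl 33 48 49))))))) (.nv (.thr 9 57 (.thr 3 6 (.thr 29 17 (.thr 63 46 (.thr 23 43 (.dbl 22 20 60)))))) (.nv (.thr 29 17 (.thr 38 51 (.thr 4 55 (.thr 63 46 (.dbl 0 8 42))))) (.rp 29 (.thr 9 57 (.thr 3 6 (.thr 60 22 (.thr 38 51 (.thr 4 55 (.thr 0 8 (.thr 40 20 (.dbl 42 43 63)))))))) (.rp 17 (.thr 9 57 (.thr 3 6 (.thr 60 22 (.thr 38 51 (.thr 4 55 (.thr 0 8 (.thr 40 20 (.dbl 42 43 63)))))))) (.rp 4 (.thr 29 17 (.thr 63 46 (.thr 42 0 (.thr 59 8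 (.dbl 51 38 55))))) .nd))))))) .nd))))))))))))

theorem w178 : WinAt (2199025352706, 2305843009482129412) :=
  chF (K := []) kn c178 2199025352706 2305843009482129412 61
    [] (by decide +kernel) (by decide +kernel)

/-- A certificate. -/
noncomputable def c179 : Ct := (.str 60 (.nv (.thr 63 62 (.thr 0 42 (.thr 22 3 (.dbl 20 23 40)))) (.rp 63 (.str 12 (.nv (.thr 3 22 (.thr 9 6 (.thr 25 57 (.thr 38 51 (.dbl 44 28 35))))) (.nv (.thr 44 28 (.thr 38 35 (.thr 4 55 (.thr 0 8 (.thr 20 40 (.dbl 22 3 23)))))) (.nv (.thr 44 28 (.thr 38 35 (.thr 51 25 (.thr 54 57 (.dbl 22 3 6))))) (.rp 51 (.thr 3 22 (.thr 9 6 (.thr 57 25 (.thr 53 49 (.thr 37 5 (.thr 33 45 (.thr 48 18 (.thr 56 52 (.dbl 26 11 15))))))))) (.rp 44 (.thr 3 22 (.thr 9 6 (.thr 57 25 (.thr 53 49 (.thr 37 5 (.thr 33 45 (.thr 48 18 (.thr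 56 52 (.dbl 26 11 15))))))))) (.rp 38 (.str 40 (.nv (.thr 0 20 (.thr 3 22 (.thr 8 4 (.thr 42 43 (.thr 25 59 (.dbl 9 6 57)))))) (.nv (.thr 0 20 (.thr 8 4 (.thr 24 56 (.thr 36 48 (.dbl 44 28 32))))) (.rp 52 (.thr 44 28 (.thr 36 32 (.thr 24 48 (.thr 8 56 (.dbl 0 4 20))))) (.rp 36 (.thr 28 44 (.thr 20 0 (.thr 3 22 (.thr 24 16 (.thr 56 8 (.thr 26 11 (.thr 25 27 (.dbl 9 6 57)))))))) (.rp 20 (.thr 44 28 (.thr 32 36 (.thr 42 43 (.thr 37 47 (.thr 53 5 (.thr 57 49 (.thr 9 25 (.dbl 3 6 22)))))))) (.rp 8 (.thr 44 28 (.thr 36 32 (.thr 48 24 (.thr 52 56 (.dbl 20 0 4))))) (.rp 4 (.thr 28 44 (.thr 20 0 (.thr 3 22 (.thr 24 16 (.thr 56 8 (.dbl 48 36 52)))))) (.rp 0 (.thr 3 22 (.thr 44 28 (.thr 32 36 (.thr 42 43 (.thr 37 47 (.thr 53 5 (.thr 57 49 (.dbl 9 6 25)))))))) .nd))))))))) (.rp 35 (.thr 3 22 (.thr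 9 6 (.thr 57 25 (.thr 53 49 (.thr 37 5 (.thr 33 45 (.thr 48 18 (.thr 56 52 (.dbl 26 11 15))))))))) (.rp 28 (.str 8 (.nv (.thr 3 22 (.thr 4 0 (.thr 9 6 (.thr 25 57 (.dbl 38 51 55))))) (.nv (.thr 0 4 (.thr 20 40 (.dbl 22 3 23))) (.rp 31 (.str 30 (.nv (.thr 3 22 (.thr 9 6 (.thr 15 45 (.dbl 11 7 10)))) (.nv (.thr 0 4 (.thr 20 40 (.dbl 22 3 23))) (.rp 47 (.thr 15 45 (.thr 0 4 (.thr 20 40 (.dbl 22 3 23)))) (.rp 22 (.thr 0 4 (.thr 40 20 (.thr 42 43 (.thr 25 59 (.thr 57 9 (.dbl 51 38 54)))))) (.rp 15 (.str 47 (.nv (.thr 3 22 (.thr 4 0 (.thr 9 6 (.thr 25 57 (.dbl 38 51 55))))) (.nv (.thr 0 4 (.thr 20 40 (.dbl 22 3 23))) (.rp 22 (.thr 0 4 (.thr 40 20 (.thr 24 56 (.thr 42 43 (.thr 32 37 (.dbl 36 44 48)))))) (.rp 4 (.thr 3 22 (.thr 9 6 (.thr 25 57 (.thr 42 59 (.thr 40 43 (.thr 56 24 (.dbl 11 10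 26))))))) (.rp 3 (.thr 0 4 (.thr 40 20 (.thr 24 56 (.thr 36 48 (.thr 32 44 (.dbl 42 37 43)))))) (.rp 0 (.thr 3 22 (.thr 9 6 (.thr 25 57 (.thr 42 59 (.thr 40 43 (.thr 56 24 (.dbl 11 10 26))))))) .nd))))))) (.rp 3 (.thr 0 4 (.thr 40 20 (.thr 24 56 (.thr 15 45 (.thr 5 10 (.thr 37 53 (.dbl 48 26 36))))))) .nd))))))) (.rp 30 (.str 31 (.nv (.thr 0 4 (.thr 26 16 (.thr 56 11 (.dbl 40 20 24)))) (.nv (.thr 3 22 (.thr 9 6 (.thr 26 16 (.dbl 11 10 56)))) (.nv (.thr 0 4 (.thr 20 40 (.dbl 22 3 23))) (.rp 20 (.thr 4 0 (.thr 3 22 (.thr 9 6 (.thr 25 57 (.dbl 38 51 55))))) .nd))))) (.rp 22 (.thr 0 4 (.thr 40 20 (.thr 42 43 (.thr 25 59 (.thr 57 9 (.dbl 51 38 54)))))) (.rp 4 (.thr 3 22 (.thr 9 6 (.thr 25 57 (.thr 42 59 (.thr 40 43 (.thr 56 24 (.dbl 11 10 26))))))) (.rp 3 (.thr 0 4 (.thr 40 20 (.thr 24 56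 (.thr 36 48 (.thr 44 32 (.thr 38 35 (.thr 51 25 (.thr 34 17 (.dbl 42 43 46))))))))) (.rp 0 (.thr 3 22 (.thr 9 6 (.thr 25 57 (.thr 42 59 (.thr 40 43 (.thr 56 24 (.dbl 11 10 26))))))) .nd))))))))) (.rp 22 (.thr 44 28 (.thr 38 35 (.thr 4 55 (.thr 0 8 (.thr 40 20 (.thr 42 43 (.thr 34 46 (.dbl 51 17 25)))))))) (.rp 3 (.str 0 (.nv (.thr 4 8 (.thr 20 40 (.thr 28 44 (.thr 24 16 (.dbl 36 48 52))))) (.nv (.thr 44 28 (.thr 4 8 (.dbl 38 35 55))) (.rp 44 (.thr 8 4 (.thr 40 20 (.thr 56 24 (.thr 26 11 (.thr 16 31 (.dbl 48 32 52)))))) (.rp 43 (.str 23 (.nv (.thr 4 8 (.thr 38 55 (.dbl 44 28 35))) (.nv (.dbl 20 22 40) .nd))) (.rp 28 (.thr 4 8 (.thr 40 20 (.thr 38 55 (.thr 51 25 (.thr 34 17 (.dbl 42 43 46)))))) (.rp 23 (.str 43 (.nv (.thr 4 8 (.thr 38 55 (.dbl 44 28 35))) (.nv (.dbl 40 20 42) .nd))) (.rp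 8 (.thr 44 28 (.thr 40 20 (.thr 38 35 (.thr 51 25 (.thr 34 17 (.dbl 42 43 46)))))) (.rp 4 (.thr 28 44 (.thr 20 40 (.thr 16 24 (.thr 26 31 (.thr 56 11 (.dbl 48 32 52)))))) .nd))))))))) .nd))))))))))) (.rp 62 (.thr 22 3 (.str 0 (.nv (.dbl 20 23 40) (.rp 40 (.str 4 (.nv (.thr 12 8 (.thr 20 23 (.thr 28 44 (.thr 24 16 (.dbl 36 48 52))))) (.nv (.thr 20 23 (.thr 38 55 (.thr 6 54 (.thr 7 5 (.dbl 52 36 37))))) (.nv (.thr 12 8 (.thr 38 55 (.dbl 44 28 35))) .nd)))) (.rp 23 (.thr 40 20 (.dbl 42 43 63)) (.rp 20 (.str 4 (.nv (.thr 38 55 (.thr 42 63 (.thr 54 6 (.thr 51 57 (.dbl 34 17 46))))) (.nv (.thr 12 8 (.thr 38 55 (.dbl 44 28 35))) (.rp 55 (.thr 12 8 (.thr 28 44 (.thr 25 19 (.thr 57 9 (.dbl 51 38 54))))) (.rp 38 (.thr 12 8 (.thr 28 44 (.thr 25 19 (.thr 57 9 (.thr 53 49 (.thr 51 54 (.thr 63 42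 (.thr 58 48 (.dbl 59 55 56))))))))) (.rp 12 (.thr 38 55 (.thr 6 54 (.thr 5 7 (.thr 15 10 (.thr 45 30 (.dbl 37 33 53)))))) .nd)))))) .nd)))))) (.rp 42 (.str 57 (.nv (.thr 53 49 (.thr 54 51 (.thr 52 55 (.thr 48 56 (.dbl 63 58 62))))) (.nv (.thr 3 22 (.thr 62 63 (.thr 51 54 (.thr 35 19 (.thr 38 44 (.dbl 25 9 12)))))) (.rp 63 (.thr 25 9 (.thr 51 54 (.thr 12 38 (.thr 28 44 (.dbl 22 3 19))))) (.rp 62 (.thr 22 3 (.str 0 (.nv (.dbl 20 23 40) (.rp 40 (.thr 25 9 (.thr 28 19 (.thr 12 44 (.dbl 51 38 54)))) (.rp 23 (.thr 25 9 (.thr 28 19 (.thr 12 44 (.dbl 51 38 54)))) (.rp 20 (.thr 25 9 (.thr 28 19 (.thr 12 44 (.dbl 51 38 54)))) .nd)))))) (.rp 54 (.thr 53 49 (.thr 37 5 (.thr 33 45 (.thr 62 63 (.thr 3 22 (.thr 48 18 (.thr 56 52 (.dbl 26 11 15)))))))) (.rp 51 (.thr 53 49 (.thr 37 5 (.thr 33 45 (.thr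 62 63 (.thr 3 22 (.thr 48 18 (.thr 56 52 (.dbl 26 11 15)))))))) (.rp 22 (.thr 62 63 (.thr 53 49 (.thr 37 5 (.thr 54 51 (.thr 55 52 (.thr 38 4 (.thr 50 58 (.thr 26 14 (.thr 15 48 (.dbl 45 30 33)))))))))) (.rp 3 (.str 0 (.nv (.thr 20 40 (.thr 22 23 (.thr 53 49 (.thr 37 5 (.thr 52 7 (.thr 48 56 (.dbl 63 58 62))))))) (.nv (.thr 20 40 (.thr 25 9 (.thr 51 54 (.thr 12 38 (.thr 28 44 (.dbl 22 19 23)))))) (.nv (.thr 53 49 (.thr 54 51 (.thr 52 55 (.thr 48 56 (.dbl 63 58 62))))) (.rp 62 (.str 22 (.nv (.dbl 20 23 40) (.rp 40 (.thr 25 9 (.thr 28 19 (.thr 12 44 (.dbl 51 38 54)))) (.rp 23 (.thr 25 9 (.thr 28 19 (.thr 12 44 (.dbl 51 38 54)))) (.rp 20 (.thr 25 9 (.thr 28 19 (.thr 12 44 (.dbl 51 38 54)))) .nd))))) (.rp 22 (.thr 62 63 (.thr 49 53 (.thr 51 54 (.thr 48 50 (.thr 16 32 (.thr 26 31 (.dbl 56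 11 52))))))) .nd)))))) .nd))))))))) (.rp 40 (.str 57 (.nv (.thr 3 22 (.thr 53 49 (.thr 37 5 (.thr 33 45 (.thr 48 18 (.dbl 63 58 62)))))) (.nv (.thr 53 49 (.thr 54 51 (.thr 52 55 (.thr 48 56 (.dbl 63 58 62))))) (.nv (.thr 3 22 (.thr 25 9 (.thr 51 54 (.thr 35 19 (.dbl 38 12 44))))) (.rp 62 (.thr 25 9 (.thr 51 54 (.thr 12 38 (.thr 28 44 (.dbl 22 3 19))))) (.rp 3 (.str 0 (.nv (.dbl 63 42 62) (.rp 63 (.thr 49 53 (.thr 51 54 (.thr 48 50 (.thr 16 32 (.thr 26 31 (.dbl 56 11 52)))))) (.rp 62 (.thr 25 9 (.thr 42 63 (.thr 8 59 (.thr 12 4 (.dbl 51 38 54))))) (.rp 42 (.thr 53 49 (.thr 54 51 (.thr 52 55 (.thr 48 56 (.dbl 63 58 62))))) .nd))))) .nd)))))) (.rp 23 (.str 12 (.nv (.thr 3 22 (.thr 9 6 (.thr 25 57 (.thr 38 51 (.thr 4 55 (.thr 0 8 (.dbl 63 42 62))))))) (.nv (.thr 44 28 (.thr 38 35 (.thr 4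 55 (.thr 0 8 (.dbl 63 42 62))))) (.nv (.thr 44 28 (.thr 38 35 (.thr 25 51 (.thr 9 57 (.dbl 3 6 22))))) (.rp 38 (.thr 28 44 (.thr 63 62 (.thr 0 42 (.thr 22 3 (.thr 20 40 (.thr 24 16 (.thr 4 8 (.dbl 36 48 52)))))))) (.rp 3 (.str 0 (.nv (.thr 4 8 (.thr 38 55 (.dbl 44 28 35))) (.nv (.dbl 63 42 62) (.rp 63 (.str 43 (.nv (.thr 4 8 (.thr 38 55 (.dbl 44 28 35))) (.nv (.dbl 40 20 42) .nd))) .nd)))) (.rp 0 (.thr 3 22 (.thr 44 28 (.thr 9 6 (.thr 25 57 (.dbl 38 35 51))))) .nd))))))) (.rp 22 (.str 0 (.nv (.dbl 63 42 62) (.rp 63 (.thr 40 20 (.str 12 (.nv (.thr 42 43 (.thr 44 28 (.thr 38 35 (.thr 34 46 (.dbl 51 17 25))))) (.nv (.thr 8 4 (.thr 56 24 (.thr 26 11 (.thr 16 31 (.dbl 48 32 52))))) (.nv (.thr 4 8 (.thr 38 55 (.dbl 44 28 35))) (.rp 42 (.str 62 (.nv (.thr 8 4 (.thr 56 24 (.thr 26 11 (.thr 16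 31 (.dbl 48 32 52))))) (.nv (.thr 4 8 (.thr 38 55 (.dbl 44 28 35))) (.rp 28 (.thr 4 8 (.thr 38 55 (.thr 44 35 (.thr 36 32 (.thr 37 39 (.thr 53 5 (.thr 57 49 (.dbl 25 9 51)))))))) (.rp 8 (.thr 44 28 (.thr 36 32 (.thr 38 35 (.thr 37 39 (.thr 53 5 (.thr 57 49 (.dbl 25 9 51))))))) (.rp 4 (.thr 44 28 (.thr 36 32 (.thr 24 48 (.thr 56 8 (.thr 26 11 (.thr 25 27 (.dbl 38 35 51))))))) .nd)))))) (.rp 28 (.thr 8 4 (.thr 42 43 (.thr 25 59 (.thr 57 9 (.dbl 51 38 54))))) .nd))))))) (.rp 62 (.thr 42 63 (.dbl 40 20 43)) (.rp 42 (.thr 62 63 (.str 12 (.nv (.thr 8 4 (.thr 40 20 (.thr 24 56 (.thr 36 48 (.dbl 44 28 32))))) (.nv (.thr 4 8 (.thr 38 55 (.dbl 44 28 35))) (.rp 44 (.thr 40 20 (.thr 8 4 (.thr 56 24 (.thr 26 11 (.thr 16 31 (.dbl 48 32 52)))))) (.rp 28 (.thr 20 40 (.thr 4 8 (.thr 52 36 (.thr 56 48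 (.thr 55 38 (.thr 54 53 (.thr 58 50 (.dbl 57 51 59)))))))) (.rp 8 (.thr 44 28 (.thr 40 20 (.thr 36 32 (.thr 38 35 (.thr 37 39 (.thr 53 5 (.thr 57 49 (.dbl 25 9 51)))))))) (.rp 4 (.thr 28 44 (.thr 20 40 (.thr 16 24 (.thr 26 31 (.thr 56 11 (.dbl 48 32 52)))))) .nd)))))))) .nd))))) (.rp 20 (.thr 63 62 (.thr 42 0 (.thr 3 22 (.dbl 43 23 40)))) (.rp 3 (.str 0 (.nv (.dbl 63 42 62) (.rp 63 (.str 12 (.nv (.thr 4 8 (.thr 20 40 (.thr 28 44 (.thr 24 16 (.dbl 36 48 52))))) (.nv (.thr 44 28 (.thr 4 8 (.dbl 38 35 55))) (.rp 44 (.thr 8 4 (.thr 40 20 (.thr 56 24 (.thr 26 11 (.thr 16 31 (.dbl 48 32 52)))))) (.rp 43 (.str 23 (.nv (.thr 4 8 (.thr 38 55 (.dbl 44 28 35))) (.nv (.dbl 20 22 40) .nd))) (.rp 28 (.thr 4 8 (.thr 40 20 (.thr 38 55 (.thr 51 25 (.thr 34 17 (.dbl 42 43 46)))))) (.rp 23 (.str 43 (.nv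 (.thr 4 8 (.thr 38 55 (.dbl 44 28 35))) (.nv (.dbl 40 20 42) .nd))) (.rp 8 (.thr 44 28 (.thr 40 20 (.thr 38 35 (.thr 51 25 (.thr 34 17 (.dbl 42 43 46)))))) (.rp 4 (.thr 28 44 (.thr 20 40 (.thr 16 24 (.thr 26 31 (.thr 56 11 (.dbl 48 32 52)))))) .nd))))))))) (.rp 62 (.thr 40 20 (.dbl 42 43 63)) (.rp 42 (.str 57 (.nv (.thr 20 40 (.thr 22 23 (.thr 53 49 (.thr 37 5 (.thr 52 7 (.thr 48 56 (.dbl 63 58 62))))))) (.nv (.thr 20 40 (.thr 25 9 (.thr 51 54 (.thr 12 38 (.thr 28 44 (.dbl 22 19 23)))))) (.nv (.thr 53 49 (.thr 54 51 (.thr 52 55 (.thr 48 56 (.dbl 63 58 62))))) (.rp 62 (.str 22 (.nv (.dbl 20 23 40) (.rp 40 (.thr 25 9 (.thr 28 19 (.thr 12 44 (.dbl 51 38 54)))) (.rp 23 (.thr 25 9 (.thr 28 19 (.thr 12 44 (.dbl 51 38 54)))) (.rp 20 (.thr 25 9 (.thr 28 19 (.thr 12 44 (.dbl 51 38 54)))) .nd)))))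 (.rp 22 (.thr 62 63 (.thr 49 53 (.thr 51 54 (.thr 48 50 (.thr 16 32 (.thr 26 31 (.dbl 56 11 52))))))) .nd)))))) .nd))))) (.rp 0 (.thr 3 22 (.str 57 (.nv (.thr 53 49 (.thr 37 5 (.thr 33 45 (.thr 48 18 (.dbl 63 58 62))))) (.nv (.thr 51 54 (.thr 35 19 (.thr 38 44 (.dbl 25 9 12)))) (.rp 62 (.str 42 (.nv (.thr 25 9 (.thr 43 40 (.thr 59 8 (.thr 11 27 (.dbl 56 26 58))))) (.nv (.thr 51 54 (.thr 35 19 (.thr 38 44 (.dbl 25 9 12)))) (.rp 58 (.thr 25 9 (.thr 59 8 (.thr 43 40 (.thr 63 23 (.dbl 51 54 55))))) (.rp 25 (.thr 43 40 (.thr 63 23 (.thr 53 49 (.thr 58 48 (.thr 56 59 (.dbl 26 10 11)))))) (.rp 12 (.thr 25 9 (.thr 43 40 (.thr 63 23 (.thr 51 54 (.dbl 59 8 55))))) (.rp 9 (.thr 43 40 (.thr 63 23 (.thr 53 49 (.thr 58 48 (.thr 56 59 (.dbl 26 10 11)))))) .nd))))))) (.rp 42 (.thr 62 63 (.thr 25 9 (.thr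 51 54 (.thr 35 19 (.dbl 38 12 44))))) (.rp 9 (.thr 53 49 (.thr 54 51 (.thr 52 55 (.thr 48 56 (.dbl 63 58 62))))) .nd))))))) .nd)))))))))))

theorem w179 : WinAt (2305845208239046656, 536870918) :=
  chF (K := []) kn c179 2305845208239046656 536870918 1
    [15] (by decide +kernel) (by decide +kernel)

/-- A certificate. -/
noncomputable def c180 : Ct := (.str 25 (.nv (.thr 9 57 (.thr 13 5 (.thr 49 37 (.dbl 17 29 33)))) (.rp 57 (.thr 17 29 (.thr 49 33 (.thr 13 37 (.thr 9 5 (.str 22 (.nv (.thr 3 60 (.thr 12 6 (.thr 51 38 (.dbl 19 28 35)))) (.nv (.thr 23 20 (.thr 19 28 (.thr 31 27 (.dbl 16 18 26)))) (.rp 31 (.thr 28 19 (.thr 60 3 (.thr 12 44 (.thr 51 38 (.thr 0 34 (.dbl 20 23 40)))))) (.rp 28 (.str 31 (.nv (.thr 3 60 (.thr 12 6 (.thr 23 20 (.thr 63 43 (.dbl 15 14 47))))) (.nv (.thr 3 60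 (.thr 12 6 (.thr 16 26 (.thr 19 18 (.dbl 51 35 38))))) (.nv (.thr 23 20 (.thr 27 19 (.dbl 26 16 24))) (.rp 16 (.thr 3 60 (.thr 12 6 (.thr 51 38 (.thr 19 35 (.dbl 23 20 27))))) .nd))))) (.rp 19 (.thr 3 60 (.thr 12 6 (.thr 23 20 (.thr 51 38 (.thr 0 34 (.dbl 63 42 43)))))) .nd)))))))))) (.rp 53 (.thr 17 29 (.thr 9 57 (.thr 49 33 (.dbl 13 5 37)))) (.rp 49 (.thr 29 17 (.thr 57 9 (.str 12 (.nv (.thr 38 51 (.thr 4 55 (.thr 0 8 (.dbl 63 42 46)))) (.nv (.thr 51 38 (.thr 60 54 (.thr 22 3 (.dbl 28 19 44)))) (.rp 51 (.thr 63 46 (.thr 0 42 (.thr 4 8 (.thr 38 55 (.thr 44 35 (.thr 60 28 (.thr 20 40 (.dbl 22 3 23)))))))) (.rp 38 (.thr 63 46 (.thr 42 0 (.thr 59 8 (.thr 56 58 (.thr 11 26 (.dbl 43 27 40)))))) .nd))))))) (.rp 37 (.str 8 (.nv (.thr 9 57 (.thr 5 13 (.thr 10 11 (.thr 0 15 (.thr 12 4 (.thr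 51 38 (.dbl 17 29 34))))))) (.nv (.thr 17 29 (.thr 42 59 (.thr 0 63 (.thr 12 4 (.dbl 51 34 38))))) (.nv (.thr 42 59 (.thr 40 43 (.thr 9 57 (.thr 56 24 (.dbl 11 10 26))))) .nd)))) (.rp 33 (.str 8 (.nv (.thr 17 29 (.thr 42 59 (.thr 0 63 (.thr 12 4 (.dbl 51 34 38))))) (.nv (.thr 9 57 (.thr 5 13 (.thr 10 11 (.thr 0 15 (.thr 12 4 (.thr 51 38 (.dbl 17 29 34))))))) (.nv (.thr 57 9 (.thr 59 42 (.thr 56 58 (.thr 26 11 (.dbl 24 27 40))))) .nd)))) (.rp 29 (.thr 9 57 (.thr 13 5 (.thr 49 37 (.thr 17 33 (.str 22 (.nv (.thr 3 60 (.thr 12 6 (.thr 51 38 (.dbl 19 28 35)))) (.nv (.thr 23 20 (.thr 19 28 (.thr 31 27 (.dbl 16 18 26)))) (.rp 31 (.thr 28 19 (.thr 60 3 (.thr 12 44 (.thr 51 38 (.thr 0 34 (.dbl 20 23 40)))))) (.rp 28 (.str 31 (.nv (.thr 3 60 (.thr 12 6 (.thr 23 20 (.thr 63 43 (.dbl 15 14 47)))))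 (.nv (.thr 3 60 (.thr 12 6 (.thr 16 26 (.thr 19 18 (.dbl 51 35 38))))) (.nv (.thr 23 20 (.thr 27 19 (.dbl 26 16 24))) (.rp 16 (.thr 3 60 (.thr 12 6 (.thr 51 38 (.thr 19 35 (.dbl 23 20 27))))) .nd))))) (.rp 19 (.thr 3 60 (.thr 12 6 (.thr 23 20 (.thr 51 38 (.thr 0 34 (.dbl 63 42 43)))))) .nd)))))))))) (.rp 17 (.str 8 (.nv (.thr 9 57 (.thr 10 11 (.thr 5 13 (.thr 0 15 (.dbl 42 59 63))))) (.nv (.thr 57 9 (.thr 59 42 (.thr 56 58 (.thr 26 11 (.dbl 24 27 40))))) (.rp 59 (.thr 9 57 (.thr 5 13 (.thr 10 11 (.thr 0 15 (.thr 12 4 (.thr 42 63 (.thr 3 6 (.thr 60 22 (.dbl 40 20 43))))))))) (.rp 57 (.thr 42 59 (.thr 40 43 (.thr 0 63 (.thr 60 20 (.thr 12 4 (.thr 28 44 (.dbl 22 3 19))))))) (.rp 42 (.thr 9 57 (.thr 5 13 (.thr 10 11 (.thr 0 15 (.thr 12 4 (.thr 3 6 (.thr 51 38 (.thr 19 35 (.dbl 22 28 60)))))))))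 (.rp 11 (.thr 9 57 (.thr 42 59 (.thr 0 63 (.thr 12 4 (.thr 3 6 (.thr 60 22 (.dbl 40 20 43))))))) (.rp 9 (.thr 42 59 (.thr 40 43 (.thr 0 63 (.thr 60 20 (.thr 12 4 (.thr 28 44 (.dbl 22 3 19))))))) .nd)))))))) (.rp 13 (.thr 29 17 (.str 12 (.nv (.thr 9 57 (.thr 3 6 (.thr 63 46 (.thr 23 43 (.dbl 22 20 60))))) (.nv (.thr 57 9 (.thr 51 38 (.thr 60 54 (.thr 22 3 (.dbl 28 19 44))))) (.nv (.thr 38 51 (.thr 4 55 (.thr 0 8 (.dbl 63 42 46)))) .nd))))) (.rp 9 (.str 0 (.nv (.thr 17 29 (.thr 33 49 (.thr 34 51 (.thr 35 32 (.thr 38 44 (.dbl 42 46 63)))))) (.nv (.thr 29 17 (.thr 63 42 (.thr 12 46 (.thr 38 51 (.dbl 4 8 55))))) (.rp 63 (.thr 17 29 (.thr 49 33 (.thr 51 34 (.thr 12 38 (.thr 8 4 (.thr 42 59 (.thr 40 43 (.thr 24 56 (.dbl 48 36 50))))))))) (.rp 51 (.thr 29 17 (.thr 63 42 (.thr 12 46 (.thr 4 8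 (.thr 38 55 (.thr 44 35 (.thr 60 28 (.thr 20 40 (.dbl 22 3 23))))))))) (.rp 46 (.thr 17 29 (.thr 51 34 (.thr 12 38 (.thr 42 63 (.dbl 8 4 59))))) (.rp 42 (.thr 17 29 (.thr 51 34 (.thr 38 12 (.thr 55 4 (.thr 63 59 (.thr 35 44 (.thr 3 19 (.thr 23 43 (.dbl 22 20 60))))))))) (.rp 38 (.thr 17 29 (.thr 33 49 (.thr 34 51 (.thr 32 35 (.thr 42 63 (.dbl 37 45 47)))))) (.rp 29 (.thr 42 63 (.thr 8 59 (.thr 12 4 (.thr 40 43 (.thr 60 20 (.thr 28 44 (.dbl 22 3 19))))))) (.rp 17 (.thr 42 63 (.thr 8 59 (.thr 12 4 (.thr 40 43 (.thr 60 20 (.thr 28 44 (.dbl 22 3 19))))))) .nd)))))))))) (.rp 5 (.str 8 (.nv (.thr 17 29 (.thr 42 59 (.thr 0 63 (.thr 12 4 (.dbl 51 34 38))))) (.nv (.thr 57 9 (.thr 59 42 (.thr 56 58 (.thr 26 11 (.dbl 24 27 40))))) (.rp 62 (.thr 9 57 (.thr 11 10 (.thr 56 26 (.thr 40 24 (.dbl 42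 43 59))))) (.rp 59 (.thr 9 57 (.thr 17 29 (.thr 11 10 (.thr 56 26 (.thr 40 24 (.thr 42 43 (.thr 0 63 (.thr 12 4 (.dbl 51 34 38))))))))) (.rp 42 (.thr 9 57 (.thr 17 29 (.thr 11 10 (.thr 26 56 (.thr 24 27 (.thr 16 31 (.thr 28 20 (.dbl 19 18 22)))))))) .nd)))))) .nd))))))))))))

theorem w180 : WinAt (2199025352706, 2305843010287435780) :=
  chF (K := []) kn c180 2199025352706 2305843010287435780 61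
    [] (by decide +kernel) (by decide +kernel)

/-- A certificate. -/
noncomputable def c181 : Ct := (.str 37 (.nv (.thr 5 53 (.thr 33 45 (.thr 13 9 (.dbl 49 17 25)))) (.rp 57 (.thr 33 45 (.thr 5 53 (.thr 49 17 (.dbl 13 9 25)))) (.rp 53 (.thr 33 45 (.thr 49 17 (.thr 13 25 (.str 3 (.nv (.thr 9 5 (.thr 12 6 (.thr 48 18 (.dbl 15 14 26)))) (.nv (.thr 5 9 (.thr 22 60 (.thr 7 52 (.thr 4 6 (.thr 23 20 (.dbl 55 38 39)))))) (.nv (.thr 48 18 (.thr 26 15 (.thr 56 11 (.dbl 60 22 52)))) (.rp 48 (.thr 9 5 (.thr 6 12 (.thr 22 60 (.thr 52 7 (.thr 20 23 (.thr 36 4 (.dbl 38 39 54))))))) (.rp 15 (.thr 9 5 (.thr 12 6 (.thr 48 18 (.thr 36 24 (.thr 38 39 (.thr 35 44 (.dbl 51 19 50))))))) .nd))))))))) (.rp 49 (.thr 53 5 (.str 48 (.nv (.thr 33 45 (.thr 3 18 (.thr 63 58 (.thr 43 23 (.dbl 42 0 40))))) (.nv (.thr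 15 26 (.thr 45 33 (.thr 60 30 (.thr 22 3 (.dbl 52 7 56))))) (.rp 45 (.thr 63 58 (.thr 0 42 (.thr 26 15 (.thr 56 11 (.thr 60 52 (.thr 20 40 (.dbl 22 3 23))))))) (.rp 34 (.thr 33 45 (.thr 63 58 (.thr 42 0 (.thr 43 40 (.dbl 3 18 23))))) (.rp 33 (.thr 63 58 (.thr 0 42 (.thr 26 15 (.thr 56 11 (.thr 60 52 (.thr 20 40 (.dbl 22 3 23))))))) (.rp 3 (.thr 45 33 (.thr 63 58 (.thr 42 0 (.thr 43 40 (.thr 15 26 (.thr 47 31 (.thr 35 39 (.dbl 44 38 46)))))))) .nd)))))))) (.rp 45 (.thr 5 53 (.thr 13 9 (.thr 49 25 (.str 48 (.nv (.thr 26 15 (.thr 33 17 (.thr 56 11 (.thr 60 52 (.dbl 3 18 22))))) (.nv (.thr 17 33 (.thr 51 50 (.thr 15 26 (.dbl 0 10 34)))) (.rp 33 (.thr 51 50 (.thr 15 26 (.thr 0 10 (.thr 34 17 (.thr 42 63 (.thr 38 46 (.dbl 39 27 36))))))) (.rp 26 (.thr 33 17 (.thr 3 18 (.thr 22 60 (.thr 7 52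 (.thr 4 6 (.thr 55 38 (.dbl 23 20 39))))))) (.rp 18 (.thr 17 33 (.thr 15 26 (.thr 0 10 (.dbl 51 34 50)))) (.rp 17 (.thr 15 26 (.thr 0 10 (.thr 42 63 (.thr 40 43 (.thr 60 20 (.thr 52 56 (.dbl 22 3 7))))))) (.rp 15 (.thr 33 17 (.thr 50 51 (.thr 3 18 (.thr 60 22 (.thr 56 52 (.thr 26 11 (.thr 16 31 (.thr 38 14 (.thr 39 36 (.thr 44 35 (.thr 28 12 (.thr 20 24 (.thr 0 40 (.thr 55 4 (.thr 23 7 (.dbl 63 42 43)))))))))))))))) (.rp 10 (.thr 33 17 (.thr 3 18 (.thr 60 22 (.thr 56 52 (.dbl 26 11 15))))) .nd)))))))))))) (.rp 33 (.str 7 (.nv (.thr 5 53 (.thr 6 4 (.thr 9 13 (.thr 3 12 (.dbl 22 52 60))))) (.nv (.thr 22 52 (.thr 23 20 (.thr 55 39 (.thr 4 38 (.dbl 5 6 53))))) (.rp 53 (.thr 22 52 (.thr 23 20 (.thr 3 60 (.thr 63 43 (.thr 15 11 (.thr 31 47 (.dbl 26 16 48))))))) (.rp 52 (.thr 5 53 (.thr 9 13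 (.thr 6 4 (.thr 3 12 (.thr 15 11 (.thr 60 22 (.thr 0 10 (.thr 42 63 (.dbl 40 20 43))))))))) (.rp 35 (.str 34 (.nv (.thr 5 53 (.thr 6 4 (.thr 9 13 (.thr 3 12 (.dbl 22 52 60))))) (.nv (.thr 52 22 (.thr 53 5 (.thr 55 54 (.thr 38 4 (.dbl 39 23 36))))) (.rp 53 (.thr 22 52 (.thr 23 20 (.thr 3 60 (.thr 63 43 (.thr 0 42 (.thr 51 17 (.dbl 55 39 59))))))) (.rp 52 (.thr 5 53 (.thr 9 13 (.thr 6 4 (.thr 3 12 (.thr 15 11 (.thr 0 10 (.thr 17 51 (.dbl 25 29 57)))))))) (.rp 22 (.thr 5 53 (.thr 4 6 (.thr 38 55 (.thr 42 46 (.thr 0 63 (.thr 51 17 (.dbl 12 8 25))))))) (.rp 5 (.thr 22 52 (.thr 23 20 (.thr 3 60 (.thr 63 43 (.thr 0 42 (.thr 51 17 (.dbl 55 39 59))))))) (.rp 4 (.thr 5 53 (.thr 22 52 (.thr 3 60 (.thr 15 11 (.thr 0 10 (.thr 63 42 (.dbl 23 20 43))))))) .nd)))))))) (.rp 34 (.str 35 (.nv (.thr 5 53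 (.thr 6 4 (.thr 9 13 (.thr 3 12 (.dbl 22 52 60))))) (.nv (.thr 38 44 (.thr 55 4 (.dbl 39 23 36))) (.rp 50 (.str 18 (.nv (.thr 22 52 (.thr 3 60 (.thr 11 15 (.dbl 26 30 56)))) (.nv (.thr 38 44 (.thr 55 4 (.dbl 39 23 36))) .nd))) (.rp 18 (.str 50 (.nv (.thr 22 52 (.thr 3 60 (.thr 15 11 (.thr 48 26 (.dbl 51 19 49))))) (.nv (.thr 38 44 (.thr 55 4 (.dbl 39 23 36))) (.rp 48 (.str 3 (.nv (.thr 5 53 (.thr 4 6 (.dbl 38 44 55))) (.nv (.dbl 22 52 60) (.rp 16 (.str 0 (.nv (.thr 19 51 (.thr 5 53 (.dbl 15 10 11))) (.nv (.dbl 22 52 60) (.rp 19 (.str 17 (.nv (.thr 5 53 (.dbl 15 10 11)) (.nv (.dbl 22 52 60) .nd))) .nd)))) (.rp 0 (.str 16 (.nv (.thr 51 19 (.thr 11 15 (.dbl 26 31 56))) (.nv (.dbl 22 52 60) (.rp 51 (.str 17 (.nv (.thr 11 15 (.dbl 26 31 56)) (.nv (.dbl 22 52 60) .nd))) .nd)))) .nd))))) (.rp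 3 (.str 48 (.nv (.thr 5 53 (.thr 13 9 (.dbl 49 25 51))) (.nv (.thr 26 15 (.dbl 38 14 44)) .nd))) .nd))))) (.rp 4 (.thr 53 5 (.thr 38 44 (.thr 52 22 (.thr 55 54 (.dbl 39 23 36))))) .nd)))))) (.rp 22 (.thr 5 53 (.thr 9 13 (.thr 6 4 (.thr 3 12 (.thr 15 11 (.thr 0 10 (.thr 26 48 (.thr 31 16 (.dbl 63 42 47))))))))) (.rp 6 (.thr 53 5 (.thr 52 22 (.thr 55 54 (.thr 38 4 (.dbl 39 23 36))))) (.rp 5 (.thr 22 52 (.thr 23 20 (.thr 3 60 (.thr 63 43 (.thr 15 11 (.thr 31 47 (.dbl 26 16 48))))))) (.rp 4 (.thr 5 53 (.thr 22 52 (.thr 3 60 (.thr 15 11 (.thr 0 10 (.thr 63 42 (.dbl 23 20 43))))))) .nd))))))))))) (.rp 25 (.str 48 (.nv (.thr 53 5 (.thr 33 45 (.thr 3 18 (.thr 63 58 (.thr 23 43 (.dbl 22 20 60)))))) (.nv (.thr 5 53 (.thr 15 26 (.thr 0 10 (.thr 42 63 (.thr 40 43 (.thr 45 33 (.dbl 60 20 30)))))))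 (.nv (.thr 26 15 (.thr 56 11 (.thr 33 45 (.thr 60 52 (.dbl 3 18 22))))) (.rp 60 (.thr 33 45 (.thr 17 49 (.thr 18 3 (.thr 16 19 (.dbl 26 15 31))))) (.rp 45 (.thr 53 5 (.thr 63 58 (.thr 0 42 (.thr 26 15 (.thr 56 11 (.thr 60 52 (.thr 20 40 (.dbl 22 3 23)))))))) (.rp 33 (.thr 53 5 (.thr 63 58 (.thr 0 42 (.thr 26 15 (.thr 56 11 (.thr 60 52 (.thr 20 40 (.dbl 22 3 23)))))))) (.rp 3 (.thr 5 53 (.thr 45 33 (.thr 15 26 (.thr 60 30 (.thr 0 10 (.thr 40 20 (.dbl 42 43 63))))))) .nd)))))))) (.rp 17 (.str 48 (.nv (.thr 33 45 (.thr 3 18 (.thr 53 5 (.thr 63 58 (.thr 23 43 (.dbl 22 20 60)))))) (.nv (.thr 5 53 (.thr 13 9 (.thr 15 26 (.thr 12 14 (.thr 36 24 (.thr 38 39 (.dbl 25 49 51))))))) (.nv (.thr 15 26 (.thr 45 33 (.thr 60 30 (.thr 22 3 (.dbl 52 7 56))))) .nd)))) (.rp 13 (.thr 53 5 (.str 22 (.nv (.thr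 3 60 (.thr 23 20 (.thr 63 43 (.thr 48 58 (.dbl 33 18 45))))) (.nv (.thr 45 33 (.thr 60 3 (.thr 15 30 (.thr 48 26 (.dbl 52 7 56))))) (.nv (.thr 52 7 (.thr 20 23 (.thr 55 54 (.dbl 4 36 38)))) (.rp 45 (.str 29 (.nv (.thr 3 60 (.thr 17 25 (.thr 33 49 (.thr 18 48 (.thr 16 19 (.dbl 26 30 31)))))) (.nv (.thr 20 23 (.thr 52 7 (.thr 55 54 (.dbl 4 36 38)))) (.rp 52 (.thr 25 17 (.thr 28 19 (.thr 20 23 (.thr 16 24 (.dbl 31 26 30))))) .nd)))) .nd)))))) (.rp 9 (.str 48 (.nv (.thr 5 53 (.thr 15 26 (.thr 0 10 (.thr 42 63 (.thr 40 43 (.thr 60 20 (.dbl 45 30 33))))))) (.nv (.thr 33 45 (.thr 17 49 (.thr 18 3 (.thr 16 19 (.dbl 26 15 31))))) (.nv (.thr 15 26 (.thr 45 33 (.thr 60 30 (.thr 52 56 (.dbl 22 3 7))))) (.rp 45 (.thr 53 5 (.thr 63 58 (.thr 0 42 (.thr 26 15 (.thr 56 11 (.thr 60 52 (.thr 20 40 (.dbl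 22 3 23)))))))) (.rp 33 (.thr 53 5 (.thr 63 58 (.thr 0 42 (.thr 26 15 (.thr 56 11 (.thr 60 52 (.thr 20 40 (.dbl 22 3 23)))))))) (.rp 26 (.thr 53 5 (.thr 33 45 (.thr 3 18 (.thr 22 60 (.thr 23 20 (.dbl 63 43 58)))))) (.rp 15 (.thr 53 5 (.thr 33 45 (.thr 3 18 (.thr 63 58 (.thr 23 43 (.dbl 22 20 60)))))) (.rp 3 (.thr 5 53 (.thr 45 33 (.thr 15 26 (.thr 60 30 (.thr 0 10 (.thr 40 20 (.dbl 42 43 63))))))) .nd))))))))) (.rp 5 (.str 3 (.nv (.thr 22 60 (.thr 7 52 (.thr 15 11 (.thr 23 20 (.thr 63 43 (.thr 31 47 (.dbl 26 16 48))))))) (.nv (.thr 33 45 (.thr 17 49 (.thr 18 48 (.thr 16 19 (.thr 26 31 (.dbl 22 30 60)))))) (.nv (.thr 22 60 (.thr 7 52 (.thr 15 11 (.thr 48 26 (.dbl 33 18 45))))) (.rp 60 (.thr 33 45 (.thr 49 17 (.thr 48 18 (.thr 15 26 (.thr 7 11 (.thr 22 52 (.thr 23 20 (.thr 39 55 (.dbl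 51 27 50))))))))) (.rp 48 (.thr 33 45 (.thr 17 49 (.thr 22 60 (.thr 23 20 (.thr 63 43 (.thr 0 42 (.thr 51 34 (.thr 55 59 (.dbl 7 39 52))))))))) (.rp 26 (.thr 22 60 (.thr 7 52 (.thr 15 11 (.thr 23 20 (.thr 63 43 (.thr 31 47 (.thr 39 55 (.dbl 27 19 51)))))))) (.rp 22 (.thr 33 45 (.thr 49 17 (.thr 48 18 (.thr 50 51 (.thr 26 15 (.thr 56 11 (.thr 60 52 (.thr 38 14 (.thr 44 35 (.thr 12 28 (.dbl 36 24 39))))))))))) .nd)))))))) .nd))))))))))))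

theorem w181 : WinAt (2199025352706, 2305843013508661252) :=
  chF (K := []) kn c181 2199025352706 2305843013508661252 61
    [] (by decide +kernel) (by decide +kernel)

/-- A certificate. -/
noncomputable def c182 : Ct := (.str 63 (.nv (.thr 42 0 (.thr 43 40 (.thr 3 23 (.thr 60 22 (.dbl 61 1 62))))) (.rp 62 (.str 53 (.nv (.thr 42 0 (.thr 58 48 (.thr 26 10 (.thr 56 11 (.thr 57 59 (.dbl 61 1 49)))))) (.nv (.thr 37 5 (.thr 48 58 (.thr 15 26 (.thr 47 31 (.dbl 42 0 32))))) (.rp 58 (.thr 37 5 (.thr 42 0 (.thr 47 32 (.thr 15 31 (.thr 43 40 (.thr 3 23 (.thr 7 11 (.dbl 22 52 60)))))))) (.rp 48 (.thr 5 37 (.thr 1 61 (.thr 9 13 (.thr 25 57 (.thr 29 17 (.thr 12 46 (.thr 3 6 (.thr 23 43 (.dbl 22 20 60))))))))) (.rp 42 (.str 22 (.nv (.thr 37 5 (.thr 48 58 (.thr 52 7 (.dbl 60 3 56)))) (.nv (.thr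 3 60 (.dbl 23 20 43)) (.rp 60 (.thr 37 5 (.thr 52 7 (.thr 55 54 (.thr 20 23 (.dbl 4 36 38))))) (.rp 3 (.thr 37 5 (.thr 52 7 (.thr 55 54 (.thr 20 23 (.dbl 4 36 38))))) .nd))))) (.rp 32 (.thr 5 37 (.thr 1 61 (.thr 9 13 (.thr 25 57 (.thr 42 0 (.thr 8 59 (.thr 10 11 (.dbl 58 26 48)))))))) (.rp 26 (.thr 37 5 (.thr 42 0 (.thr 47 32 (.thr 15 31 (.thr 43 40 (.thr 3 23 (.thr 7 11 (.dbl 22 52 60)))))))) (.rp 15 (.thr 5 37 (.thr 42 0 (.thr 58 48 (.thr 26 10 (.thr 56 11 (.thr 57 59 (.dbl 61 1 49))))))) (.rp 10 (.thr 37 5 (.thr 48 58 (.thr 15 26 (.thr 42 0 (.dbl 47 31 32))))) (.rp 5 (.thr 48 58 (.thr 42 0 (.thr 43 40 (.thr 61 1 (.thr 3 23 (.thr 60 22 (.thr 52 56 (.thr 54 55 (.dbl 57 49 51))))))))) (.rp 0 (.thr 5 37 (.thr 1 61 (.thr 9 13 (.thr 25 57 (.thr 29 17 (.thr 12 46 (.thr 3 6 (.thr 23 43 (.dbl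 22 20 60))))))))) .nd)))))))))))) (.rp 61 (.str 37 (.nv (.thr 42 0 (.thr 43 40 (.thr 3 23 (.thr 47 32 (.thr 15 31 (.thr 7 11 (.dbl 22 52 60))))))) (.nv (.thr 53 5 (.thr 48 58 (.thr 15 26 (.thr 47 31 (.dbl 42 0 32))))) (.rp 48 (.thr 5 53 (.thr 0 42 (.thr 15 10 (.thr 31 47 (.thr 26 16 (.thr 11 56 (.thr 3 7 (.thr 23 43 (.dbl 22 20 60))))))))) (.rp 47 (.thr 53 5 (.thr 48 58 (.thr 26 15 (.thr 16 31 (.dbl 0 32 42))))) (.rp 42 (.thr 53 5 (.thr 48 58 (.thr 26 15 (.thr 16 31 (.thr 0 32 (.thr 56 11 (.thr 60 52 (.thr 20 40 (.dbl 22 3 23))))))))) (.rp 32 (.thr 5 53 (.thr 0 42 (.thr 15 10 (.thr 31 47 (.dbl 26 16 48))))) (.rp 31 (.thr 53 5 (.thr 48 58 (.thr 15 26 (.thr 42 0 (.thr 43 40 (.thr 3 23 (.thr 7 11 (.dbl 22 52 60)))))))) (.rp 15 (.thr 42 0 (.thr 47 32 (.thr 43 40 (.thr 3 23 (.thr 35 39 (.thr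 51 19 (.thr 55 59 (.dbl 38 4 44)))))))) (.rp 0 (.thr 53 5 (.thr 48 58 (.thr 15 26 (.thr 47 31 (.thr 42 32 (.thr 43 40 (.thr 3 23 (.thr 7 11 (.dbl 22 52 60))))))))) .nd)))))))))) (.rp 60 (.str 53 (.nv (.thr 42 0 (.thr 58 48 (.thr 26 10 (.thr 56 11 (.thr 57 59 (.dbl 61 1 49)))))) (.nv (.thr 37 5 (.thr 48 58 (.thr 15 26 (.thr 47 31 (.dbl 42 0 32))))) (.rp 58 (.thr 5 37 (.thr 1 61 (.thr 9 13 (.thr 25 57 (.thr 29 17 (.thr 12 46 (.thr 3 6 (.thr 43 23 (.dbl 42 0 40))))))))) (.rp 48 (.thr 5 37 (.thr 1 61 (.thr 9 13 (.thr 25 57 (.thr 29 17 (.thr 12 46 (.thr 3 6 (.thr 43 23 (.dbl 42 0 40))))))))) (.rp 42 (.thr 37 5 (.thr 61 1 (.thr 49 57 (.thr 13 25 (.thr 29 45 (.thr 12 46 (.thr 15 14 (.dbl 48 26 58)))))))) (.rp 32 (.thr 5 37 (.thr 1 61 (.thr 9 13 (.thr 25 57 (.thr 42 0 (.thr 8 59 (.thr 10 11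 (.dbl 58 26 48)))))))) (.rp 26 (.thr 5 37 (.thr 1 61 (.thr 9 13 (.thr 25 57 (.thr 29 17 (.thr 12 46 (.thr 3 6 (.thr 43 23 (.dbl 42 0 40))))))))) (.rp 15 (.thr 5 37 (.thr 42 0 (.thr 58 48 (.thr 26 10 (.thr 56 11 (.thr 57 59 (.dbl 61 1 49))))))) (.rp 10 (.thr 37 5 (.thr 48 58 (.thr 15 26 (.thr 42 0 (.dbl 47 31 32))))) (.rp 5 (.thr 61 1 (.thr 49 57 (.thr 48 58 (.thr 51 50 (.thr 59 55 (.thr 0 42 (.thr 16 32 (.thr 26 31 (.thr 11 56 (.thr 27 43 (.dbl 15 37 39))))))))))) (.rp 0 (.thr 5 37 (.thr 1 61 (.thr 9 13 (.thr 25 57 (.thr 29 17 (.thr 12 46 (.thr 6 3 (.thr 4 7 (.dbl 38 51 55))))))))) .nd)))))))))))) (.rp 43 (.thr 61 1 (.thr 60 62 (.thr 22 3 (.thr 0 42 (.dbl 20 23 40))))) (.rp 42 (.str 22 (.nv (.thr 60 3 (.dbl 61 1 62)) (.nv (.thr 23 20 (.dbl 3 43 60)) (.rp 60 (.str 55 (.nv (.thr 23 20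 (.thr 3 43 (.thr 39 7 (.thr 51 59 (.thr 19 35 (.dbl 27 15 31)))))) (.nv (.thr 38 4 (.thr 35 44 (.thr 51 59 (.thr 19 3 (.dbl 25 12 28))))) (.nv (.thr 20 23 (.thr 4 38 (.thr 52 36 (.thr 37 7 (.dbl 53 5 54))))) .nd)))) (.rp 3 (.thr 1 61 (.str 53 (.nv (.thr 20 23 (.thr 37 5 (.thr 52 7 (.thr 4 36 (.dbl 55 38 54))))) (.nv (.thr 48 58 (.thr 37 5 (.thr 52 7 (.thr 56 60 (.dbl 26 11 15))))) (.rp 52 (.thr 37 5 (.thr 48 58 (.thr 26 15 (.thr 30 18 (.thr 23 20 (.thr 31 16 (.thr 19 27 (.dbl 28 25 29)))))))) (.rp 48 (.str 18 (.nv (.thr 5 37 (.thr 9 13 (.thr 25 57 (.thr 19 28 (.dbl 17 16 29))))) (.nv (.thr 37 5 (.thr 52 7 (.thr 55 54 (.thr 20 23 (.dbl 4 36 38))))) (.nv (.thr 20 23 (.thr 26 30 (.thr 16 31 (.thr 19 17 (.dbl 28 24 25))))) .nd)))) (.rp 37 (.thr 48 58 (.str 26 (.nv (.thr 30 18 (.thr 31 16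 (.thr 56 11 (.thr 60 52 (.dbl 15 45 47))))) (.nv (.thr 20 23 (.thr 56 11 (.thr 52 60 (.thr 4 36 (.dbl 55 38 54))))) (.nv (.thr 20 23 (.thr 18 30 (.thr 16 31 (.thr 19 17 (.dbl 28 24 25))))) (.rp 47 (.str 32 (.nv (.dbl 16 0 31) (.rp 31 (.thr 0 16 (.thr 56 11 (.thr 20 23 (.dbl 60 40 52)))) (.rp 16 (.thr 56 11 (.thr 20 23 (.thr 52 60 (.thr 55 54 (.dbl 4 36 38))))) (.rp 0 (.thr 56 11 (.thr 20 23 (.thr 52 60 (.thr 55 54 (.dbl 4 36 38))))) .nd))))) (.rp 32 (.str 47 (.nv (.dbl 31 15 16) (.rp 35 (.str 34 (.nv (.dbl 31 15 16) (.rp 51 (.str 19 (.nv (.thr 18 30 (.thr 17 16 (.dbl 25 28 29))) (.nv (.dbl 31 15 16) (.rp 16 (.thr 31 15 (.dbl 23 20 27)) .nd)))) (.rp 31 (.thr 56 11 (.thr 52 60 (.thr 55 54 (.thr 20 23 (.dbl 4 36 38))))) (.rp 19 (.str 51 (.nv (.thr 50 49 (.thr 38 14 (.dbl 55 4 59))) (.nv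 (.dbl 31 15 16) .nd))) (.rp 16 (.thr 15 31 (.thr 30 18 (.thr 56 11 (.dbl 60 45 52)))) (.rp 15 (.thr 18 30 (.thr 16 31 (.thr 19 17 (.thr 20 23 (.dbl 28 24 25))))) .nd))))))) (.rp 34 (.str 35 (.nv (.thr 38 44 (.thr 54 6 (.dbl 55 4 52))) (.nv (.dbl 31 15 16) (.rp 50 (.thr 18 30 (.dbl 31 15 16)) (.rp 38 (.str 46 (.nv (.dbl 31 15 16) (.rp 50 (.thr 18 30 (.dbl 31 15 16)) (.rp 39 (.str 36 (.nv (.thr 18 30 (.dbl 12 24 29)) (.nv (.dbl 31 15 16) (.rp 18 (.str 50 (.nv (.dbl 12 24 29) (.nv (.dbl 31 15 16) .nd))) .nd)))) (.rp 36 (.thr 39 43 (.dbl 31 15 16)) (.rp 31 (.thr 56 11 (.thr 60 52 (.thr 45 44 (.dbl 30 15 18)))) (.rp 18 (.str 50 (.nv (.thr 39 43 (.thr 15 31 (.dbl 51 27 49))) (.nv (.dbl 31 15 16) (.rp 39 (.str 36 (.nv (.dbl 12 24 29) (.nv (.dbl 31 15 16) .nd))) (.rp 31 (.thr 39 43 (.thr 51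 49 (.thr 55 59 (.dbl 23 7 20)))) (.rp 15 (.thr 39 43 (.thr 51 49 (.thr 55 59 (.dbl 23 7 20)))) .nd)))))) (.rp 16 (.thr 31 15 (.thr 29 12 (.dbl 30 18 28))) (.rp 15 (.thr 31 16 (.thr 29 12 (.dbl 30 18 28))) .nd))))))))) (.rp 18 (.str 50 (.nv (.dbl 31 15 16) (.nv (.dbl 38 14 44) (.rp 38 (.str 46 (.nv (.thr 39 43 (.thr 15 31 (.dbl 51 27 49))) (.nv (.dbl 31 15 16) (.rp 39 (.str 36 (.nv (.dbl 12 24 29) (.nv (.dbl 31 15 16) .nd))) (.rp 31 (.thr 39 43 (.thr 51 49 (.thr 55 59 (.dbl 23 7 20)))) (.rp 15 (.thr 39 43 (.thr 51 49 (.thr 55 59 (.dbl 23 7 20)))) .nd)))))) .nd)))) .nd)))))) (.rp 31 (.thr 56 11 (.thr 52 60 (.thr 55 54 (.thr 20 23 (.dbl 4 36 38))))) (.rp 16 (.thr 15 31 (.thr 30 18 (.thr 56 11 (.dbl 60 45 52)))) (.rp 15 (.thr 18 30 (.thr 16 31 (.thr 19 17 (.thr 20 23 (.dbl 28 24 25)))))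 .nd))))))) .nd))))))) (.rp 15 (.thr 5 37 (.thr 9 13 (.thr 25 57 (.thr 29 17 (.thr 28 19 (.thr 31 30 (.thr 20 23 (.dbl 16 24 26)))))))) (.rp 11 (.thr 5 37 (.thr 9 13 (.thr 25 57 (.thr 29 17 (.thr 28 19 (.thr 31 30 (.thr 20 23 (.dbl 16 24 26)))))))) (.rp 7 (.thr 5 37 (.thr 9 13 (.thr 25 57 (.thr 29 17 (.thr 28 19 (.thr 31 30 (.thr 20 23 (.dbl 16 24 26)))))))) (.rp 5 (.str 26 (.nv (.thr 48 58 (.thr 56 11 (.thr 52 60 (.dbl 37 7 15)))) (.nv (.thr 18 30 (.thr 16 31 (.thr 19 17 (.thr 20 23 (.dbl 28 24 25))))) (.nv (.thr 48 58 (.thr 31 16 (.dbl 15 37 47))) .nd)))) (.rp 4 (.thr 37 5 (.thr 48 58 (.thr 26 15 (.thr 30 18 (.thr 23 20 (.thr 31 16 (.thr 19 27 (.dbl 28 25 29)))))))) .nd)))))))))))) .nd))))) (.rp 40 (.str 53 (.nv (.thr 48 58 (.thr 61 1 (.thr 60 62 (.thr 52 56 (.thr 54 55 (.dbl 57 49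 51)))))) (.nv (.thr 37 5 (.thr 48 58 (.thr 15 26 (.thr 47 31 (.dbl 42 0 32))))) (.rp 58 (.thr 37 5 (.thr 61 1 (.thr 60 62 (.thr 22 3 (.thr 0 42 (.thr 52 7 (.thr 54 55 (.dbl 57 49 51)))))))) (.rp 48 (.thr 5 37 (.thr 1 61 (.thr 9 13 (.thr 25 57 (.thr 29 17 (.thr 12 46 (.thr 3 6 (.thr 23 43 (.dbl 22 20 60))))))))) (.rp 42 (.thr 37 5 (.thr 61 1 (.thr 48 58 (.thr 26 15 (.thr 56 11 (.dbl 60 52 62)))))) (.rp 0 (.thr 5 37 (.thr 1 61 (.thr 9 13 (.thr 25 57 (.thr 29 17 (.thr 12 46 (.thr 3 6 (.thr 23 43 (.dbl 22 20 60))))))))) .nd))))))) (.rp 23 (.str 53 (.nv (.thr 37 5 (.thr 0 42 (.thr 48 58 (.thr 16 32 (.dbl 26 15 31))))) (.nv (.thr 37 5 (.thr 48 58 (.thr 61 1 (.thr 60 62 (.thr 52 56 (.dbl 22 3 7)))))) (.nv (.thr 37 5 (.thr 48 58 (.thr 15 26 (.thr 42 0 (.dbl 47 31 32))))) (.rp 58 (.thr 5 37 (.thr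 1 61 (.thr 9 13 (.thr 25 57 (.thr 29 17 (.thr 12 46 (.thr 6 3 (.thr 4 7 (.dbl 0 8 42))))))))) (.rp 48 (.thr 5 37 (.thr 1 61 (.thr 9 13 (.thr 25 57 (.thr 29 17 (.thr 12 46 (.thr 51 38 (.thr 59 55 (.dbl 42 0 8))))))))) (.rp 42 (.thr 37 5 (.thr 61 1 (.thr 48 58 (.thr 26 15 (.thr 56 11 (.dbl 60 52 62)))))) (.rp 37 (.thr 61 1 (.thr 60 62 (.thr 48 58 (.thr 52 56 (.thr 54 55 (.dbl 57 49 51)))))) (.rp 5 (.thr 61 1 (.thr 60 62 (.thr 48 58 (.thr 52 56 (.thr 54 55 (.dbl 57 49 51)))))) (.rp 0 (.thr 5 37 (.thr 1 61 (.thr 9 13 (.thr 25 57 (.thr 29 17 (.thr 12 46 (.thr 6 3 (.thr 4 7 (.dbl 38 51 55))))))))) .nd)))))))))) (.rp 22 (.str 53 (.nv (.thr 42 0 (.thr 48 58 (.thr 37 5 (.thr 15 26 (.dbl 47 31 32))))) (.nv (.thr 37 5 (.thr 48 58 (.thr 26 15 (.thr 56 11 (.thr 60 52 (.dbl 61 1 62)))))) (.nv (.thr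 37 5 (.thr 48 58 (.thr 26 15 (.thr 16 31 (.dbl 0 32 42))))) (.rp 58 (.thr 37 5 (.thr 42 0 (.thr 47 32 (.thr 15 31 (.thr 43 40 (.thr 3 23 (.thr 11 7 (.dbl 26 48 56)))))))) (.rp 48 (.thr 5 37 (.thr 1 61 (.thr 9 13 (.thr 25 57 (.thr 29 17 (.thr 12 46 (.thr 3 6 (.thr 43 23 (.dbl 42 0 40))))))))) (.rp 42 (.str 62 (.nv (.dbl 61 1 60) (.rp 61 (.thr 58 48 (.thr 54 50 (.thr 55 52 (.thr 51 59 (.thr 38 4 (.thr 25 12 (.dbl 57 9 60))))))) (.rp 60 (.thr 37 5 (.thr 61 1 (.thr 49 57 (.thr 13 25 (.thr 29 45 (.thr 48 58 (.thr 12 46 (.dbl 15 14 26)))))))) (.rp 1 (.thr 37 5 (.thr 60 61 (.thr 48 58 (.thr 26 15 (.dbl 56 11 52))))) .nd))))) (.rp 37 (.thr 58 48 (.thr 42 0 (.thr 26 10 (.thr 56 11 (.thr 57 59 (.dbl 61 1 49)))))) (.rp 26 (.thr 5 37 (.thr 1 61 (.thr 9 13 (.thr 25 57 (.thr 29 17 (.thr 12 46 (.thr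 3 6 (.thr 43 23 (.dbl 42 0 40))))))))) (.rp 15 (.thr 5 37 (.thr 42 0 (.thr 58 48 (.thr 26 10 (.thr 56 11 (.thr 57 59 (.dbl 61 1 49))))))) (.rp 5 (.thr 48 58 (.thr 42 0 (.thr 43 40 (.thr 61 1 (.thr 3 23 (.thr 60 62 (.thr 52 56 (.thr 54 55 (.dbl 57 49 51))))))))) (.rp 0 (.thr 37 5 (.thr 48 58 (.thr 15 26 (.thr 47 31 (.thr 42 32 (.thr 43 40 (.thr 3 23 (.thr 11 7 (.thr 27 59 (.dbl 39 35 51)))))))))) .nd)))))))))))) (.rp 20 (.thr 61 1 (.thr 60 62 (.thr 3 22 (.thr 42 0 (.dbl 43 23 40))))) (.rp 3 (.str 48 (.nv (.thr 0 42 (.thr 53 58 (.thr 16 32 (.thr 37 5 (.dbl 26 15 31))))) (.nv (.thr 0 42 (.thr 16 32 (.thr 26 31 (.thr 56 11 (.thr 60 52 (.dbl 61 1 62)))))) (.nv (.thr 53 58 (.thr 37 5 (.thr 15 26 (.thr 47 31 (.dbl 42 0 32))))) (.rp 42 (.thr 53 58 (.thr 37 5 (.thr 26 15 (.thr 16 31 (.thr 61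 1 (.thr 0 32 (.thr 49 57 (.thr 51 50 (.thr 59 55 (.thr 11 56 (.thr 27 43 (.dbl 25 13 24)))))))))))) (.rp 37 (.thr 58 53 (.thr 1 61 (.thr 42 0 (.thr 40 43 (.thr 26 10 (.thr 56 11 (.thr 8 24 (.dbl 59 25 57)))))))) (.rp 32 (.thr 58 53 (.thr 1 61 (.thr 42 0 (.thr 26 10 (.thr 31 16 (.dbl 15 37 47)))))) (.rp 31 (.thr 58 53 (.thr 1 61 (.thr 42 0 (.thr 40 43 (.thr 26 10 (.thr 56 11 (.thr 8 24 (.dbl 59 25 57)))))))) (.rp 26 (.thr 53 58 (.thr 1 61 (.thr 37 5 (.thr 42 0 (.thr 32 47 (.thr 40 43 (.thr 36 44 (.thr 12 24 (.thr 46 29 (.dbl 38 34 39)))))))))) (.rp 15 (.thr 53 58 (.thr 1 61 (.thr 5 37 (.thr 9 13 (.thr 25 57 (.thr 29 17 (.thr 42 0 (.thr 59 8 (.thr 51 55 (.dbl 12 38 46)))))))))) (.rp 0 (.thr 1 61 (.thr 53 58 (.thr 5 37 (.thr 9 13 (.thr 25 57 (.thr 29 17 (.thr 12 46 (.thr 51 38 (.thr 59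 55 (.thr 42 8 (.thr 43 40 (.thr 27 11 (.dbl 24 26 36))))))))))))) .nd))))))))))) (.rp 1 (.thr 42 0 (.str 3 (.nv (.dbl 43 23 40) (.rp 49 (.str 17 (.nv (.dbl 43 23 40) (.rp 43 (.thr 25 29 (.thr 9 57 (.thr 59 8 (.thr 51 55 (.dbl 12 6 38))))) (.rp 40 (.thr 23 43 (.dbl 22 20 60)) (.rp 23 (.thr 25 29 (.thr 9 57 (.thr 59 8 (.thr 51 55 (.dbl 12 6 38))))) .nd))))) (.rp 43 (.thr 60 22 (.thr 61 62 (.str 53 (.nv (.thr 37 5 (.thr 49 57 (.thr 13 25 (.thr 45 29 (.thr 15 30 (.dbl 47 31 32)))))) (.nv (.thr 48 58 (.thr 52 56 (.thr 54 55 (.dbl 57 49 51)))) (.rp 57 (.thr 48 58 (.thr 56 52 (.thr 37 5 (.dbl 26 11 15)))) (.rp 49 (.str 17 (.nv (.thr 37 5 (.thr 47 32 (.thr 15 31 (.dbl 48 26 58)))) (.nv (.thr 25 29 (.thr 59 8 (.thr 51 55 (.dbl 57 9 54)))) (.rp 9 (.thr 48 58 (.thr 56 52 (.thr 26 11 (.dbl 37 5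 15)))) .nd)))) (.rp 17 (.thr 49 57 (.thr 48 58 (.thr 56 52 (.thr 37 5 (.dbl 26 11 15))))) .nd)))))))) (.rp 40 (.thr 23 43 (.dbl 22 20 60)) (.rp 23 (.thr 43 40 (.thr 60 22 (.thr 61 62 (.str 53 (.nv (.thr 48 58 (.thr 52 56 (.thr 54 55 (.dbl 57 49 51)))) (.nv (.thr 37 5 (.thr 49 57 (.thr 13 25 (.thr 45 29 (.thr 15 30 (.dbl 47 31 32)))))) (.nv (.thr 48 58 (.thr 56 52 (.thr 26 11 (.dbl 37 5 15)))) (.rp 49 (.str 17 (.nv (.thr 25 29 (.thr 9 57 (.thr 12 6 (.thr 44 28 (.dbl 38 35 51))))) (.nv (.thr 48 58 (.thr 56 52 (.thr 26 11 (.dbl 37 5 15)))) (.rp 54 (.thr 58 48 (.thr 25 29 (.thr 57 9 (.dbl 59 8 56)))) .nd)))) (.rp 17 (.thr 49 57 (.thr 48 58 (.thr 56 52 (.thr 37 5 (.dbl 26 11 15))))) .nd))))))))) (.rp 17 (.str 49 (.nv (.dbl 43 23 40) (.rp 51 (.str 34 (.nv (.dbl 43 23 40) (.rp 43 (.thr 46 38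 (.thr 12 29 (.thr 9 6 (.thr 57 25 (.thr 61 53 (.dbl 60 22 62)))))) (.rp 40 (.thr 23 43 (.dbl 22 20 60)) (.rp 23 (.thr 46 38 (.thr 12 29 (.thr 9 6 (.thr 57 25 (.thr 61 53 (.dbl 60 22 62)))))) .nd))))) (.rp 43 (.thr 60 22 (.thr 61 62 (.thr 57 53 (.thr 25 9 (.thr 59 8 (.dbl 51 54 55)))))) (.rp 40 (.thr 23 43 (.dbl 22 20 60)) (.rp 34 (.str 51 (.nv (.thr 35 19 (.thr 38 44 (.dbl 55 4 59))) (.nv (.dbl 43 23 40) (.rp 50 (.str 18 (.nv (.thr 35 19 (.thr 38 44 (.dbl 55 4 59))) (.nv (.dbl 43 23 40) (.rp 35 (.str 32 (.nv (.thr 59 55 (.thr 25 8 (.dbl 37 13 47))) (.nv (.dbl 43 23 40) .nd))) .nd)))) (.rp 35 (.str 32 (.nv (.thr 59 55 (.thr 25 8 (.dbl 37 13 47))) (.nv (.dbl 43 23 40) (.rp 50 (.str 18 (.nv (.thr 59 55 (.thr 25 8 (.dbl 37 13 47))) (.nv (.dbl 43 23 40) .nd))) (.rp 18 (.thr 50 48 (.dbl 43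 23 40)) .nd))))) (.rp 18 (.thr 50 48 (.dbl 43 23 40)) .nd)))))) (.rp 23 (.thr 60 22 (.thr 61 62 (.thr 57 53 (.thr 25 9 (.thr 59 8 (.dbl 51 54 55)))))) .nd))))))) .nd)))))))) (.rp 0 (.str 3 (.nv (.thr 60 22 (.dbl 61 1 62)) (.nv (.thr 23 43 (.dbl 22 20 60)) (.rp 60 (.thr 1 61 (.thr 43 23 (.str 47 (.nv (.thr 39 35 (.thr 15 31 (.thr 27 51 (.dbl 11 7 59)))) (.nv (.thr 15 31 (.thr 11 7 (.thr 26 56 (.thr 48 37 (.thr 58 53 (.dbl 42 10 40)))))) (.nv (.thr 40 42 (.thr 35 39 (.thr 38 44 (.thr 55 4 (.dbl 51 19 59))))) (.nv (.thr 15 31 (.thr 11 7 (.thr 27 59 (.dbl 39 35 51)))) (.rp 40 (.str 20 (.nv (.thr 39 35 (.thr 15 31 (.thr 27 51 (.dbl 11 7 59)))) (.nv (.thr 35 39 (.thr 38 44 (.thr 55 4 (.dbl 51 19 59)))) (.nv (.thr 15 31 (.thr 11 7 (.thr 27 59 (.dbl 39 35 51)))) (.rp 59 (.thr 15 31 (.thr 35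 39 (.thr 44 38 (.thr 46 45 (.thr 12 29 (.thr 13 14 (.dbl 9 5 6))))))) (.rp 51 (.thr 15 31 (.thr 35 39 (.thr 44 38 (.thr 46 45 (.thr 12 29 (.thr 13 14 (.dbl 9 5 6))))))) (.rp 39 (.str 55 (.nv (.thr 38 4 (.thr 44 35 (.thr 51 59 (.thr 12 25 (.dbl 46 29 45))))) (.nv (.thr 15 31 (.thr 11 7 (.dbl 59 27 51))) (.rp 59 (.thr 15 31 (.thr 7 11 (.thr 4 38 (.thr 52 36 (.thr 37 22 (.dbl 53 5 54)))))) (.rp 51 (.thr 15 31 (.thr 7 11 (.thr 4 38 (.thr 52 36 (.thr 37 22 (.dbl 53 5 54)))))) .nd))))) (.rp 35 (.thr 15 31 (.thr 11 7 (.thr 27 59 (.thr 26 56 (.thr 48 37 (.thr 24 25 (.thr 12 36 (.thr 9 6 (.dbl 13 5 14))))))))) (.rp 7 (.thr 15 31 (.thr 39 35 (.thr 27 51 (.thr 11 59 (.thr 26 56 (.thr 48 37 (.thr 24 25 (.thr 12 36 (.thr 9 6 (.dbl 13 5 14)))))))))) .nd))))))))) (.rp 39 (.thr 31 15 (.thr 26 16 (.thr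 11 56 (.thr 27 59 (.thr 25 24 (.thr 29 17 (.thr 12 46 (.dbl 9 6 57)))))))) (.rp 7 (.thr 39 35 (.thr 15 31 (.thr 27 51 (.thr 11 59 (.thr 26 56 (.thr 48 37 (.thr 58 53 (.dbl 42 10 40)))))))) .nd)))))))))) (.rp 22 (.thr 43 23 (.str 51 (.nv (.thr 42 40 (.thr 59 55 (.thr 25 8 (.thr 9 57 (.dbl 12 6 38))))) (.nv (.thr 35 19 (.thr 38 44 (.thr 42 40 (.thr 46 34 (.dbl 12 25 29))))) (.nv (.thr 42 40 (.thr 35 19 (.thr 39 47 (.thr 27 15 (.dbl 59 11 55))))) (.nv (.thr 55 59 (.thr 38 4 (.dbl 35 19 44))) (.rp 42 (.str 62 (.nv (.thr 35 19 (.thr 38 44 (.dbl 55 4 59))) (.nv (.dbl 61 1 60) .nd))) .nd))))))) .nd))))) .nd))))))))))))))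

theorem w182 : WinAt (2199025352704, 8589934596) :=
  chF (K := []) kn c182 2199025352704 8589934596 33
    [] (by decide +kernel) (by decide +kernel)

/-- A certificate. -/
noncomputable def c183 : Ct := (.str 37 (.nv (.thr 33 45 (.thr 5 53 (.thr 1 61 (.thr 13 9 (.dbl 49 17 25))))) (.rp 61 (.thr 53 5 (.str 52 (.nv (.thr 22 7 (.thr 45 33 (.thr 60 3 (.thr 15 30 (.dbl 48 26 56))))) (.nv (.thr 22 7 (.thr 20 23 (.thr 55 54 (.dbl 4 36 38)))) (.rp 50 (.str 18 (.nv (.thr 33 45 (.thr 48 3 (.thr 56 60 (.dbl 26 11 15)))) (.nv (.thr 7 22 (.thr 55 54 (.thr 38 4 (.dbl 39 23 36)))) (.nv (.thr 33 45 (.thr 3 48 (.dbl 22 7 60))) .nd)))) (.rp 22 (.thr 45 33 (.thr 55 54 (.thr 38 4 (.thr 36 39 (.thr 44 35 (.thr 32 40 (.dbl 47 42 46))))))) (.rp 18 (.str 50 (.nv (.thr 22 7 (.thr 45 33 (.thr 60 3 (.thr 48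 56 (.dbl 15 26 30))))) (.nv (.thr 54 55 (.thr 58 62 (.thr 48 63 (.thr 60 56 (.dbl 51 49 57))))) (.nv (.thr 22 7 (.thr 20 23 (.thr 55 54 (.dbl 4 36 38)))) (.rp 22 (.thr 55 54 (.thr 38 4 (.thr 26 14 (.thr 56 11 (.dbl 48 15 60))))) .nd))))) (.rp 7 (.thr 45 33 (.thr 55 54 (.thr 4 38 (.thr 20 36 (.thr 22 23 (.thr 60 3 (.thr 48 56 (.dbl 15 26 30)))))))) (.rp 6 (.thr 55 54 (.thr 4 38 (.thr 22 7 (.dbl 20 23 36)))) (.rp 4 (.thr 45 33 (.thr 54 55 (.thr 22 7 (.thr 6 38 (.thr 60 3 (.thr 48 56 (.dbl 15 26 30))))))) .nd)))))))))) (.rp 57 (.thr 33 45 (.thr 5 53 (.thr 1 61 (.thr 49 17 (.dbl 13 9 25))))) (.rp 53 (.thr 33 45 (.str 0 (.nv (.thr 42 63 (.thr 32 47 (.thr 40 43 (.thr 48 16 (.thr 60 20 (.thr 56 52 (.dbl 26 11 15))))))) (.nv (.thr 61 1 (.thr 63 42 (.thr 60 62 (.thr 22 3 (.dbl 20 23 40))))) (.rp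 63 (.thr 1 61 (.thr 49 17 (.thr 13 25 (.thr 5 9 (.thr 15 10 (.thr 48 26 (.thr 32 16 (.thr 42 47 (.thr 40 43 (.thr 60 20 (.dbl 3 18 22))))))))))) (.rp 60 (.thr 1 61 (.thr 49 17 (.thr 13 25 (.thr 5 9 (.thr 15 10 (.thr 48 26 (.thr 32 16 (.dbl 42 47 63)))))))) (.rp 50 (.str 18 (.nv (.thr 3 48 (.thr 60 22 (.thr 40 20 (.dbl 42 43 63)))) (.nv (.thr 48 3 (.thr 16 32 (.dbl 26 15 31))) (.rp 48 (.thr 61 1 (.thr 63 42 (.thr 60 62 (.thr 22 3 (.dbl 20 23 40))))) (.rp 3 (.thr 1 61 (.thr 49 17 (.thr 13 25 (.thr 5 9 (.thr 15 10 (.thr 48 26 (.thr 32 16 (.dbl 42 47 63)))))))) .nd))))) (.rp 46 (.thr 42 63 (.thr 40 43 (.thr 60 20 (.thr 3 22 (.thr 32 47 (.thr 44 36 (.dbl 48 16 18))))))) (.rp 42 (.thr 1 61 (.thr 49 17 (.thr 13 25 (.thr 5 9 (.thr 15 10 (.thr 26 48 (.thr 31 16 (.thr 63 47 (.thr 11 56 (.thr 3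 7 (.thr 23 43 (.dbl 22 20 60)))))))))))) (.rp 40 (.thr 1 61 (.thr 49 17 (.thr 13 25 (.thr 5 9 (.thr 15 10 (.thr 48 26 (.thr 32 16 (.dbl 42 47 63)))))))) (.rp 23 (.thr 1 61 (.thr 49 17 (.thr 13 25 (.thr 5 9 (.thr 15 10 (.thr 48 26 (.thr 32 16 (.dbl 42 47 63)))))))) (.rp 20 (.thr 1 61 (.thr 49 17 (.thr 13 25 (.thr 5 9 (.thr 15 10 (.thr 48 26 (.thr 32 16 (.dbl 42 47 63)))))))) (.rp 18 (.str 50 (.nv (.thr 1 61 (.thr 49 17 (.thr 48 51 (.thr 16 32 (.dbl 26 15 31))))) (.nv (.thr 61 1 (.thr 63 42 (.thr 60 62 (.thr 22 3 (.dbl 20 23 40))))) (.rp 61 (.thr 42 63 (.thr 32 47 (.thr 48 16 (.thr 49 51 (.thr 17 1 (.dbl 25 13 29)))))) (.rp 1 (.thr 42 63 (.thr 40 43 (.thr 60 20 (.thr 32 47 (.thr 48 16 (.thr 52 56 (.dbl 22 3 7))))))) .nd))))) (.rp 3 (.thr 1 61 (.thr 49 17 (.thr 13 25 (.thr 5 9 (.thr 15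 10 (.thr 48 26 (.thr 32 16 (.dbl 42 47 63)))))))) .nd)))))))))))))) (.rp 50 (.str 18 (.nv (.thr 1 61 (.thr 33 45 (.thr 48 3 (.thr 26 15 (.thr 16 31 (.dbl 17 19 49)))))) (.nv (.thr 5 53 (.thr 33 45 (.thr 48 3 (.thr 15 26 (.thr 0 10 (.thr 32 16 (.dbl 42 47 63))))))) (.nv (.thr 1 61 (.thr 5 53 (.thr 33 45 (.thr 13 9 (.dbl 49 17 25))))) (.rp 45 (.thr 5 53 (.thr 1 61 (.thr 13 9 (.thr 49 25 (.thr 33 17 (.thr 48 3 (.thr 15 26 (.thr 0 10 (.thr 32 16 (.dbl 42 47 63)))))))))) (.rp 33 (.thr 1 61 (.str 26 (.nv (.thr 5 53 (.thr 9 13 (.thr 16 31 (.thr 17 19 (.dbl 25 29 57))))) (.nv (.thr 11 56 (.thr 22 30 (.thr 7 52 (.dbl 3 15 60)))) (.rp 35 (.str 32 (.nv (.thr 11 56 (.thr 15 48 (.thr 3 7 (.dbl 22 30 60)))) (.nv (.thr 48 15 (.dbl 16 0 31)) (.rp 48 (.thr 5 53 (.thr 9 13 (.thr 11 56 (.thr 10 8 (.dbl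 42 47 58))))) (.rp 15 (.thr 16 31 (.thr 0 48 (.dbl 42 47 63))) .nd))))) (.rp 32 (.str 35 (.nv (.thr 5 53 (.thr 9 13 (.thr 16 31 (.thr 17 19 (.dbl 25 29 57))))) (.nv (.thr 11 56 (.thr 22 30 (.thr 7 52 (.dbl 3 15 60)))) .nd))) .nd)))))) (.rp 1 (.thr 53 5 (.thr 33 45 (.thr 3 48 (.thr 22 60 (.thr 52 7 (.thr 20 23 (.thr 4 36 (.dbl 55 38 54)))))))) .nd))))))) (.rp 49 (.thr 33 45 (.thr 53 5 (.str 48 (.nv (.thr 26 15 (.thr 56 11 (.thr 60 52 (.dbl 3 18 22)))) (.nv (.thr 61 1 (.thr 63 58 (.thr 60 62 (.dbl 3 18 22)))) (.nv (.thr 15 26 (.thr 63 58 (.thr 47 31 (.dbl 42 0 32)))) (.rp 50 (.thr 18 3 (.thr 63 58 (.thr 0 42 (.thr 16 32 (.dbl 26 15 31))))) (.rp 18 (.str 50 (.nv (.thr 26 15 (.thr 38 14 (.thr 55 4 (.thr 52 54 (.dbl 56 11 60))))) (.nv (.thr 58 63 (.thr 54 62 (.thr 52 55 (.thr 22 7 (.dbl 60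 3 56))))) (.nv (.thr 15 26 (.thr 63 58 (.thr 47 31 (.dbl 42 0 32)))) .nd)))) (.rp 0 (.thr 63 58 (.thr 15 26 (.thr 47 31 (.thr 42 32 (.thr 43 40 (.dbl 3 18 23)))))) .nd))))))))) (.rp 45 (.thr 61 1 (.thr 5 53 (.str 0 (.nv (.thr 63 42 (.thr 60 62 (.thr 22 3 (.dbl 20 23 40)))) (.nv (.thr 15 10 (.thr 48 26 (.thr 42 63 (.dbl 32 16 47)))) (.rp 63 (.thr 15 10 (.thr 48 26 (.thr 32 16 (.thr 42 47 (.thr 40 43 (.thr 60 20 (.thr 52 56 (.dbl 22 3 7)))))))) (.rp 50 (.str 18 (.nv (.thr 15 10 (.thr 26 48 (.thr 11 56 (.thr 3 7 (.dbl 22 30 60))))) (.nv (.thr 63 42 (.thr 60 62 (.thr 22 3 (.dbl 20 23 40)))) (.nv (.thr 15 10 (.thr 48 26 (.thr 42 63 (.dbl 32 16 47)))) (.rp 63 (.thr 15 10 (.thr 48 26 (.thr 3 33 (.thr 22 60 (.dbl 7 11 52))))) .nd))))) (.rp 42 (.thr 15 10 (.thr 26 48 (.thr 31 16 (.thr 63 47 (.thr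 60 62 (.thr 22 3 (.dbl 20 23 40))))))) (.rp 18 (.str 50 (.nv (.thr 15 10 (.thr 42 63 (.thr 32 47 (.dbl 48 16 26)))) (.nv (.thr 63 42 (.thr 60 62 (.thr 22 3 (.dbl 20 23 40)))) (.rp 63 (.thr 15 10 (.thr 48 26 (.thr 51 49 (.thr 39 27 (.thr 38 36 (.thr 4 55 (.dbl 12 8 25))))))) (.rp 48 (.thr 63 42 (.thr 15 10 (.thr 31 47 (.thr 26 16 (.thr 11 56 (.thr 3 7 (.dbl 60 22 62))))))) (.rp 46 (.thr 42 63 (.thr 15 10 (.thr 48 26 (.dbl 32 16 47)))) (.rp 42 (.thr 15 10 (.thr 26 48 (.thr 11 56 (.thr 31 16 (.thr 3 7 (.thr 63 47 (.dbl 60 22 62))))))) .nd))))))) .nd))))))))) (.rp 33 (.thr 1 61 (.str 26 (.nv (.thr 5 53 (.thr 9 13 (.thr 11 56 (.thr 10 8 (.dbl 15 0 48))))) (.nv (.thr 53 5 (.thr 48 15 (.thr 63 58 (.thr 16 31 (.dbl 0 32 42))))) (.rp 53 (.thr 15 48 (.thr 31 16 (.thr 63 47 (.thr 11 56 (.thr 3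 7 (.thr 43 23 (.dbl 42 0 40))))))) (.rp 50 (.str 18 (.nv (.thr 5 53 (.thr 9 13 (.thr 16 31 (.thr 17 19 (.dbl 25 29 57))))) (.nv (.thr 11 56 (.thr 22 30 (.thr 7 52 (.dbl 3 15 60)))) (.rp 35 (.str 32 (.nv (.thr 11 56 (.thr 15 48 (.thr 3 7 (.dbl 22 30 60)))) (.nv (.thr 48 15 (.dbl 16 0 31)) (.rp 48 (.thr 5 53 (.thr 9 13 (.thr 11 56 (.thr 10 8 (.dbl 42 47 58))))) (.rp 15 (.thr 16 31 (.thr 0 48 (.dbl 42 47 63))) .nd))))) (.rp 32 (.str 35 (.nv (.thr 5 53 (.thr 9 13 (.thr 16 31 (.thr 17 19 (.dbl 25 29 57))))) (.nv (.thr 11 56 (.thr 22 30 (.thr 7 52 (.dbl 3 15 60)))) .nd))) .nd))))) (.rp 48 (.thr 5 53 (.thr 9 13 (.thr 11 56 (.thr 10 8 (.thr 0 15 (.dbl 42 58 63)))))) (.rp 35 (.str 32 (.nv (.thr 5 53 (.thr 15 48 (.thr 0 10 (.dbl 42 47 63)))) (.nv (.thr 48 15 (.dbl 16 0 31)) (.rp 50 (.str 18 (.nv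 (.thr 11 56 (.thr 15 48 (.thr 3 7 (.dbl 22 30 60)))) (.nv (.thr 48 15 (.dbl 16 0 31)) (.rp 48 (.thr 5 53 (.thr 9 13 (.thr 11 56 (.thr 10 8 (.dbl 42 47 58))))) (.rp 15 (.thr 16 31 (.thr 0 48 (.dbl 42 47 63))) .nd))))) (.rp 48 (.thr 5 53 (.thr 9 13 (.thr 11 56 (.thr 10 8 (.dbl 42 47 58))))) (.rp 18 (.str 50 (.nv (.thr 38 14 (.thr 36 39 (.thr 40 44 (.dbl 42 43 47)))) (.nv (.thr 48 15 (.dbl 16 0 31)) (.rp 48 (.str 3 (.nv (.thr 42 47 (.thr 43 40 (.dbl 63 0 23))) (.nv (.thr 11 56 (.thr 7 15 (.dbl 22 52 60))) .nd))) .nd)))) (.rp 15 (.thr 16 31 (.thr 0 48 (.dbl 42 47 63))) (.rp 0 (.thr 15 48 (.thr 31 16 (.dbl 47 42 63))) .nd)))))))) (.rp 32 (.str 35 (.nv (.thr 5 53 (.thr 38 44 (.thr 4 55 (.thr 7 6 (.thr 36 39 (.dbl 52 20 22)))))) (.nv (.thr 31 16 (.thr 5 53 (.thr 15 48 (.thr 0 10 (.dbl 63 42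 47))))) (.nv (.thr 11 56 (.thr 15 48 (.thr 3 7 (.thr 51 19 (.thr 38 44 (.dbl 39 27 36)))))) (.nv (.thr 5 53 (.thr 13 9 (.thr 38 44 (.thr 48 15 (.thr 49 25 (.dbl 50 14 51)))))) (.rp 50 (.str 18 (.nv (.thr 5 53 (.thr 9 13 (.thr 16 31 (.thr 17 19 (.dbl 25 29 57))))) (.nv (.thr 11 56 (.thr 22 30 (.thr 7 52 (.dbl 3 15 60)))) .nd))) (.rp 18 (.str 50 (.nv (.dbl 38 14 44) (.rp 48 (.str 3 (.nv (.thr 11 56 (.thr 7 15 (.dbl 22 52 60))) (.nv (.dbl 38 14 44) (.rp 16 (.str 0 (.nv (.thr 5 53 (.thr 10 15 (.dbl 42 58 63))) (.nv (.dbl 38 14 44) (.rp 19 (.str 17 (.nv (.thr 5 53 (.thr 9 13 (.dbl 25 29 57))) (.nv (.dbl 38 14 44) .nd))) (.rp 17 (.thr 19 51 (.dbl 38 14 44)) .nd))))) (.rp 0 (.thr 16 31 (.dbl 38 14 44)) .nd))))) (.rp 44 (.thr 5 53 (.thr 13 9 (.thr 49 25 (.dbl 48 15 51)))) (.rp 38 (.thr 5 53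 (.thr 13 9 (.thr 49 25 (.dbl 48 15 51)))) (.rp 14 (.thr 5 53 (.thr 13 9 (.thr 49 25 (.dbl 48 15 51)))) (.rp 3 (.thr 48 15 (.dbl 38 14 44)) .nd))))))) .nd))))))) (.rp 18 (.str 50 (.nv (.thr 38 14 (.thr 36 39 (.thr 48 15 (.thr 12 24 (.dbl 51 25 49))))) (.nv (.thr 16 31 (.thr 48 15 (.thr 53 5 (.thr 63 58 (.dbl 0 32 42))))) (.nv (.thr 48 15 (.thr 5 53 (.thr 13 9 (.dbl 49 25 51)))) (.rp 48 (.str 3 (.nv (.thr 5 53 (.thr 22 60 (.thr 38 14 (.thr 6 54 (.dbl 9 12 13))))) (.nv (.thr 5 53 (.thr 9 13 (.thr 6 12 (.thr 4 7 (.dbl 38 14 55))))) (.nv (.thr 11 56 (.thr 7 15 (.dbl 22 52 60))) (.rp 35 (.str 32 (.nv (.thr 42 47 (.thr 43 40 (.dbl 63 0 23))) (.nv (.thr 11 56 (.thr 7 15 (.dbl 22 52 60))) .nd))) (.rp 32 (.str 35 (.nv (.thr 11 56 (.thr 7 15 (.dbl 22 52 60))) (.nv (.dbl 38 14 44) (.rp 16 (.str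 0 (.nv (.thr 5 53 (.thr 10 15 (.dbl 42 58 63))) (.nv (.dbl 38 14 44) (.rp 19 (.str 17 (.nv (.thr 5 53 (.thr 9 13 (.dbl 25 29 57))) (.nv (.dbl 38 14 44) .nd))) (.rp 17 (.thr 19 51 (.dbl 38 14 44)) .nd))))) (.rp 0 (.thr 16 31 (.dbl 38 14 44)) .nd))))) .nd)))))) (.rp 35 (.str 32 (.nv (.thr 38 14 (.thr 36 39 (.thr 40 44 (.dbl 42 43 47)))) (.nv (.thr 48 15 (.dbl 16 0 31)) (.rp 48 (.str 3 (.nv (.thr 42 47 (.thr 43 40 (.dbl 63 0 23))) (.nv (.thr 11 56 (.thr 7 15 (.dbl 22 52 60))) .nd))) .nd)))) (.rp 32 (.str 35 (.nv (.dbl 38 14 44) (.rp 48 (.str 3 (.nv (.thr 11 56 (.thr 7 15 (.dbl 22 52 60))) (.nv (.dbl 38 14 44) (.rp 16 (.str 0 (.nv (.thr 5 53 (.thr 10 15 (.dbl 42 58 63))) (.nv (.dbl 38 14 44) (.rp 19 (.str 17 (.nv (.thr 5 53 (.thr 9 13 (.dbl 25 29 57))) (.nv (.dbl 38 14 44) .nd))) (.rp 17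 (.thr 19 51 (.dbl 38 14 44)) .nd))))) (.rp 0 (.thr 16 31 (.dbl 38 14 44)) .nd))))) (.rp 44 (.thr 5 53 (.thr 13 9 (.thr 49 25 (.dbl 48 15 51)))) (.rp 38 (.thr 5 53 (.thr 13 9 (.thr 49 25 (.dbl 48 15 51)))) (.rp 14 (.thr 5 53 (.thr 13 9 (.thr 49 25 (.dbl 48 15 51)))) (.rp 3 (.thr 48 15 (.dbl 38 14 44)) .nd))))))) (.rp 15 (.thr 53 5 (.thr 38 14 (.thr 39 36 (.thr 55 4 (.thr 7 23 (.dbl 52 22 54)))))) .nd)))))))) (.rp 15 (.thr 5 53 (.thr 9 13 (.thr 57 25 (.thr 56 11 (.thr 58 59 (.thr 42 10 (.thr 63 0 (.thr 43 40 (.thr 3 23 (.thr 47 32 (.thr 35 39 (.thr 51 19 (.dbl 60 22 54))))))))))))) (.rp 10 (.thr 15 48 (.thr 31 16 (.thr 63 47 (.thr 11 56 (.thr 3 7 (.thr 43 23 (.dbl 42 0 40))))))) (.rp 5 (.thr 15 48 (.thr 31 16 (.thr 63 47 (.thr 11 56 (.thr 3 7 (.thr 43 23 (.dbl 42 0 40))))))) (.rp 0 (.thr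 5 53 (.thr 48 15 (.thr 56 11 (.thr 52 60 (.thr 7 22 (.thr 4 6 (.thr 38 55 (.dbl 36 20 39)))))))) .nd)))))))))))))) (.rp 25 (.thr 33 45 (.str 18 (.nv (.thr 1 61 (.thr 17 49 (.thr 16 19 (.thr 26 31 (.dbl 48 3 15))))) (.nv (.thr 3 48 (.thr 60 22 (.thr 61 1 (.thr 63 62 (.thr 42 0 (.dbl 43 23 40)))))) (.nv (.thr 48 3 (.thr 53 5 (.thr 15 26 (.thr 63 58 (.thr 47 31 (.dbl 42 0 32)))))) (.rp 48 (.thr 53 5 (.thr 1 61 (.thr 17 49 (.thr 16 19 (.thr 26 31 (.thr 22 30 (.thr 52 7 (.thr 55 54 (.thr 4 38 (.dbl 20 23 36)))))))))) (.rp 3 (.thr 53 5 (.thr 1 61 (.thr 17 49 (.thr 16 19 (.thr 26 31 (.thr 48 15 (.thr 0 32 (.dbl 63 42 58)))))))) (.rp 1 (.thr 53 5 (.thr 3 48 (.thr 22 60 (.thr 52 7 (.thr 20 23 (.thr 4 36 (.dbl 55 38 54))))))) .nd)))))))) (.rp 18 (.str 50 (.nv (.thr 33 45 (.thr 5 53 (.thr 1 61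 (.thr 13 9 (.dbl 49 17 25))))) (.rp 61 (.str 48 (.nv (.thr 15 26 (.thr 53 5 (.thr 63 58 (.thr 47 31 (.dbl 42 0 32))))) (.nv (.thr 33 45 (.thr 49 51 (.thr 17 1 (.dbl 25 13 29)))) (.rp 0 (.thr 51 49 (.thr 26 15 (.thr 38 14 (.thr 12 25 (.dbl 36 24 39))))) .nd)))) (.rp 57 (.thr 5 53 (.thr 33 45 (.thr 1 61 (.thr 49 17 (.dbl 13 9 25))))) (.rp 53 (.thr 61 1 (.thr 45 33 (.thr 13 29 (.thr 49 25 (.thr 48 51 (.thr 26 15 (.thr 38 14 (.thr 4 55 (.thr 56 11 (.thr 52 60 (.dbl 36 20 39))))))))))) (.rp 49 (.str 48 (.nv (.thr 26 15 (.thr 38 14 (.thr 4 55 (.thr 36 39 (.thr 52 20 (.dbl 56 11 60)))))) (.nv (.thr 26 15 (.thr 53 5 (.thr 16 31 (.thr 63 58 (.dbl 0 32 42))))) (.rp 26 (.thr 53 5 (.thr 61 1 (.thr 63 58 (.thr 60 62 (.thr 52 56 (.dbl 22 3 7)))))) (.rp 15 (.thr 53 5 (.thr 61 1 (.thr 63 58 (.thr 60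 62 (.thr 52 56 (.dbl 22 3 7)))))) (.rp 10 (.thr 53 5 (.thr 63 58 (.thr 0 42 (.thr 26 15 (.dbl 16 31 32))))) .nd)))))) (.rp 45 (.thr 53 5 (.thr 61 1 (.thr 49 57 (.thr 48 51 (.thr 63 58 (.thr 0 42 (.thr 16 32 (.dbl 26 15 31)))))))) (.rp 33 (.thr 53 5 (.thr 61 1 (.thr 49 57 (.thr 48 51 (.thr 63 58 (.thr 0 42 (.thr 26 15 (.dbl 16 31 32)))))))) (.rp 25 (.thr 53 5 (.thr 61 1 (.thr 49 57 (.thr 45 33 (.thr 48 51 (.thr 63 58 (.thr 60 62 (.dbl 15 26 30)))))))) (.rp 17 (.thr 53 5 (.thr 61 1 (.thr 49 57 (.thr 45 33 (.dbl 13 25 29))))) (.rp 13 (.str 48 (.nv (.thr 5 53 (.thr 15 26 (.thr 0 10 (.thr 42 63 (.dbl 32 16 47))))) (.nv (.thr 49 51 (.thr 33 45 (.dbl 1 17 61))) (.rp 0 (.thr 51 49 (.thr 26 15 (.thr 38 14 (.thr 12 25 (.dbl 36 24 39))))) .nd)))) (.rp 9 (.thr 53 5 (.thr 45 33 (.thr 61 1 (.thr 13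 29 (.dbl 49 25 57))))) (.rp 5 (.thr 61 1 (.thr 45 33 (.thr 13 29 (.thr 49 25 (.thr 53 57 (.thr 48 51 (.thr 63 58 (.thr 60 62 (.dbl 15 26 30))))))))) (.rp 1 (.str 0 (.nv (.thr 5 53 (.thr 15 10 (.thr 42 63 (.thr 40 43 (.thr 60 20 (.dbl 45 30 33)))))) (.nv (.thr 53 5 (.thr 63 42 (.thr 48 58 (.thr 26 15 (.dbl 16 31 32))))) (.nv (.thr 5 53 (.thr 15 10 (.thr 45 33 (.thr 60 30 (.thr 20 40 (.dbl 22 3 23)))))) (.nv (.thr 5 53 (.thr 15 10 (.thr 42 63 (.thr 32 47 (.dbl 48 16 26))))) (.rp 53 (.thr 45 33 (.thr 42 63 (.thr 43 40 (.thr 47 32 (.thr 35 39 (.dbl 44 38 46)))))) (.rp 48 (.thr 42 63 (.thr 43 40 (.thr 47 32 (.thr 35 39 (.thr 44 38 (.dbl 45 33 46)))))) (.rp 15 (.thr 53 5 (.thr 63 42 (.thr 48 58 (.thr 49 51 (.thr 57 61 (.dbl 25 9 13)))))) (.rp 5 (.thr 45 33 (.thr 42 63 (.thr 43 40 (.thr 47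 32 (.thr 35 39 (.dbl 44 38 46)))))) .nd))))))))) .nd)))))))))))))) (.rp 17 (.thr 45 33 (.thr 53 5 (.thr 61 1 (.thr 49 57 (.dbl 13 25 29))))) (.rp 13 (.thr 33 45 (.thr 61 1 (.thr 5 53 (.str 0 (.nv (.thr 63 42 (.thr 60 62 (.thr 22 3 (.dbl 20 23 40)))) (.nv (.thr 15 10 (.thr 48 26 (.thr 42 63 (.dbl 32 16 47)))) (.rp 63 (.thr 15 10 (.thr 48 26 (.thr 32 16 (.thr 42 47 (.thr 40 43 (.thr 60 20 (.dbl 3 18 22))))))) (.rp 50 (.str 18 (.nv (.thr 63 42 (.thr 60 62 (.thr 22 3 (.dbl 20 23 40)))) (.nv (.thr 48 3 (.dbl 15 10 26)) (.rp 3 (.thr 15 10 (.thr 48 26 (.thr 32 16 (.dbl 42 47 63)))) .nd)))) (.rp 42 (.thr 15 10 (.thr 26 48 (.thr 31 16 (.thr 63 47 (.thr 60 62 (.thr 22 3 (.dbl 20 23 40))))))) (.rp 18 (.str 50 (.nv (.thr 15 10 (.thr 26 48 (.thr 31 16 (.dbl 63 42 47)))) (.nv (.thr 63 42 (.thr 60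 62 (.thr 22 3 (.dbl 20 23 40)))) (.rp 63 (.thr 15 10 (.thr 48 26 (.thr 51 49 (.thr 39 27 (.thr 38 36 (.thr 4 55 (.dbl 12 8 25))))))) (.rp 42 (.thr 15 10 (.thr 26 48 (.thr 11 56 (.thr 31 16 (.thr 3 7 (.thr 63 47 (.dbl 60 22 62))))))) .nd))))) .nd)))))))))) (.rp 9 (.thr 45 33 (.thr 53 5 (.thr 61 1 (.thr 13 29 (.dbl 49 25 57))))) (.rp 5 (.thr 1 61 (.str 15 (.nv (.thr 26 48 (.thr 11 56 (.thr 3 7 (.thr 31 16 (.thr 63 47 (.thr 43 23 (.dbl 42 0 40))))))) (.nv (.thr 45 33 (.thr 60 30 (.thr 48 26 (.thr 52 56 (.dbl 22 3 7))))) (.rp 60 (.thr 33 45 (.thr 49 17 (.thr 48 26 (.thr 51 50 (.thr 18 3 (.thr 39 27 (.thr 38 36 (.dbl 25 12 13)))))))) (.rp 56 (.thr 45 33 (.thr 60 30 (.thr 3 22 (.thr 26 48 (.thr 31 16 (.thr 63 47 (.thr 43 23 (.dbl 42 0 40)))))))) (.rp 52 (.thr 45 33 (.thr 60 30 (.thr 3 22 (.thr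 11 7 (.dbl 26 48 56))))) (.rp 50 (.str 18 (.nv (.thr 26 48 (.thr 11 56 (.thr 3 7 (.dbl 22 30 60)))) (.nv (.thr 33 45 (.dbl 48 3 26)) (.rp 48 (.thr 45 33 (.thr 30 60 (.thr 26 22 (.thr 31 16 (.thr 63 47 (.thr 29 28 (.thr 25 17 (.thr 12 46 (.dbl 13 14 49))))))))) (.rp 26 (.thr 33 45 (.thr 3 48 (.thr 7 11 (.dbl 22 52 60)))) (.rp 3 (.thr 45 33 (.thr 26 48 (.dbl 30 22 60))) .nd)))))) (.rp 48 (.thr 45 33 (.thr 60 30 (.thr 3 22 (.thr 11 7 (.thr 26 56 (.thr 31 16 (.thr 63 47 (.thr 43 23 (.dbl 42 0 40))))))))) (.rp 32 (.thr 26 48 (.thr 11 56 (.thr 3 7 (.thr 60 22 (.dbl 45 30 33))))) (.rp 26 (.thr 45 33 (.thr 60 30 (.thr 22 3 (.thr 7 52 (.thr 23 20 (.thr 39 55 (.thr 51 27 (.thr 54 57 (.dbl 38 6 36))))))))) (.rp 18 (.str 50 (.nv (.thr 33 45 (.thr 49 17 (.dbl 48 26 51))) (.nv (.thr 26 48 (.thr 11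 56 (.thr 3 7 (.thr 45 33 (.dbl 60 22 30))))) (.nv (.thr 48 26 (.thr 49 51 (.dbl 33 17 45))) (.rp 48 (.str 3 (.nv (.thr 45 33 (.dbl 60 22 30)) (.nv (.thr 7 11 (.dbl 22 52 60)) (.rp 60 (.thr 11 7 (.thr 33 45 (.thr 49 17 (.thr 13 25 (.thr 14 12 (.dbl 26 38 56)))))) (.rp 22 (.thr 11 7 (.thr 33 45 (.thr 49 17 (.thr 13 25 (.thr 26 56 (.dbl 14 12 38)))))) .nd))))) (.rp 45 (.thr 48 26 (.thr 49 51 (.thr 17 33 (.dbl 25 13 29)))) (.rp 33 (.thr 48 26 (.thr 51 49 (.thr 39 27 (.thr 38 36 (.thr 55 4 (.thr 7 23 (.thr 3 11 (.dbl 35 19 44)))))))) (.rp 26 (.thr 33 45 (.thr 49 17 (.thr 51 48 (.thr 39 27 (.thr 38 36 (.dbl 25 12 13)))))) .nd)))))))) (.rp 7 (.thr 45 33 (.thr 60 30 (.thr 3 22 (.thr 26 48 (.thr 31 16 (.thr 63 47 (.thr 43 23 (.dbl 42 0 40)))))))) (.rp 3 (.thr 45 33 (.thr 60 30 (.thr 48 26 (.thr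 52 56 (.thr 22 7 (.thr 20 23 (.thr 0 40 (.thr 32 16 (.dbl 42 47 63))))))))) .nd)))))))))))))) (.rp 1 (.thr 33 45 (.str 0 (.nv (.thr 5 53 (.thr 15 10 (.thr 42 63 (.thr 40 43 (.thr 48 26 (.thr 60 20 (.dbl 3 18 22))))))) (.nv (.thr 42 63 (.thr 32 47 (.thr 40 43 (.thr 48 16 (.thr 60 20 (.dbl 3 18 22)))))) (.nv (.thr 5 53 (.thr 15 10 (.thr 48 26 (.thr 42 63 (.dbl 32 16 47))))) (.rp 63 (.thr 5 53 (.thr 15 10 (.thr 48 26 (.thr 32 16 (.thr 42 47 (.thr 40 43 (.thr 60 20 (.dbl 3 18 22)))))))) (.rp 50 (.str 18 (.nv (.thr 42 63 (.thr 48 3 (.dbl 32 16 47))) (.nv (.thr 5 53 (.thr 48 3 (.dbl 15 10 26))) (.rp 48 (.thr 5 53 (.thr 15 10 (.thr 63 42 (.thr 31 47 (.thr 26 16 (.thr 22 30 (.thr 60 3 (.dbl 20 23 40)))))))) (.rp 3 (.thr 5 53 (.thr 15 10 (.thr 48 26 (.thr 32 16 (.dbl 42 47 63))))) .nd))))) (.rp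 48 (.thr 42 63 (.thr 32 47 (.thr 40 43 (.thr 60 20 (.thr 44 36 (.thr 12 28 (.thr 4 8 (.dbl 38 35 55)))))))) (.rp 42 (.thr 5 53 (.thr 15 10 (.thr 26 48 (.thr 31 16 (.thr 63 47 (.thr 11 56 (.thr 3 7 (.thr 23 43 (.dbl 22 20 60))))))))) (.rp 18 (.str 50 (.nv (.thr 53 5 (.thr 63 42 (.thr 48 58 (.thr 49 51 (.thr 57 61 (.dbl 25 9 13)))))) (.nv (.thr 5 53 (.thr 15 10 (.thr 48 26 (.thr 42 63 (.dbl 32 16 47))))) (.rp 63 (.thr 5 53 (.thr 15 10 (.thr 48 26 (.thr 51 49 (.thr 39 27 (.thr 38 36 (.thr 4 55 (.dbl 12 8 25)))))))) (.rp 53 (.thr 42 63 (.thr 40 43 (.thr 60 20 (.thr 32 47 (.thr 48 16 (.thr 52 56 (.dbl 22 3 7))))))) (.rp 48 (.thr 42 63 (.thr 40 43 (.thr 60 20 (.thr 32 47 (.thr 44 36 (.thr 12 28 (.thr 4 8 (.dbl 38 35 55)))))))) (.rp 42 (.thr 5 53 (.thr 15 10 (.thr 26 48 (.thr 11 56 (.thr 7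 3 (.thr 38 14 (.thr 6 4 (.dbl 22 52 54)))))))) (.rp 26 (.thr 53 5 (.thr 42 63 (.thr 32 47 (.thr 48 16 (.thr 49 51 (.thr 57 61 (.dbl 25 9 13))))))) (.rp 22 (.thr 5 53 (.thr 42 63 (.thr 32 47 (.thr 48 16 (.dbl 15 10 26))))) (.rp 10 (.thr 53 5 (.thr 63 42 (.thr 48 58 (.thr 26 15 (.dbl 16 31 32))))) (.rp 5 (.thr 42 63 (.thr 40 43 (.thr 60 20 (.thr 32 47 (.thr 48 16 (.thr 52 56 (.dbl 22 3 7))))))) .nd))))))))))) (.rp 15 (.thr 53 5 (.thr 63 42 (.thr 48 58 (.thr 16 32 (.thr 26 31 (.thr 56 11 (.thr 60 52 (.dbl 3 18 22)))))))) .nd))))))))))) .nd))))))))))))))))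

theorem w183 : WinAt (2199025352704, 17179869188) :=
  chF (K := []) kn c183 2199025352704 17179869188 34
    [1125917086973956] (by decide +kernel) (by decide +kernel)

/-- A certificate. -/
noncomputable def c184 : Ct := (.str 37 (.nv (.thr 33 45 (.thr 5 53 (.thr 49 17 (.dbl 13 9 25)))) (.rp 53 (.thr 33 45 (.thr 49 17 (.thr 13 25 (.str 15 (.nv (.thr 48 26 (.thr 3 18 (.thr 7 11 (.dbl 22 52 60)))) (.nv (.thr 5 9 (.thr 26 48 (.thr 31 16 (.thr 63 47 (.dbl 0 10 42))))) (.nv (.thr 9 5 (.thr 12 14 (.thr 48 26 (.dbl 3 6 18)))) (.rp 48 (.thr 5 9 (.thr 14 12 (.thr 0 10 (.thr 63 42 (.thr 31 47 (.thr 26 16 (.thr 11 56 (.thr 38 50 (.thr 4 55 (.dbl 7 3 6)))))))))) (.rp 26 (.thr 5 9 (.thr 0 10 (.thr 42 63 (.thr 32 47 (.thr 48 16 (.thr 43 40 (.thr 51 50 (.thr 27 39 (.thr 11 59 (.dbl 3 7 18))))))))))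 (.rp 18 (.thr 5 9 (.thr 0 10 (.thr 63 42 (.thr 31 47 (.dbl 26 16 48))))) .nd)))))))))) (.rp 49 (.thr 53 5 (.str 48 (.nv (.thr 33 45 (.thr 3 18 (.thr 63 58 (.thr 23 43 (.dbl 22 20 60))))) (.nv (.thr 15 26 (.thr 33 45 (.thr 3 18 (.thr 7 11 (.dbl 22 52 60))))) (.nv (.thr 15 26 (.thr 63 58 (.thr 42 0 (.dbl 47 31 32)))) .nd))))) (.rp 45 (.thr 5 53 (.thr 13 9 (.thr 49 25 (.str 48 (.nv (.thr 15 26 (.thr 0 10 (.thr 32 16 (.dbl 42 47 63)))) (.nv (.thr 26 15 (.thr 33 17 (.thr 56 11 (.thr 60 52 (.dbl 3 18 22))))) (.nv (.thr 17 33 (.thr 51 50 (.thr 15 26 (.dbl 0 10 34)))) (.rp 26 (.thr 33 17 (.thr 3 18 (.thr 22 60 (.thr 7 52 (.thr 4 6 (.thr 55 38 (.dbl 23 20 39))))))) (.rp 15 (.thr 33 17 (.thr 3 18 (.thr 60 22 (.thr 56 52 (.thr 26 11 (.thr 16 31 (.thr 0 32 (.thr 40 20 (.dbl 42 43 63))))))))) (.rp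 10 (.thr 33 17 (.thr 3 18 (.thr 60 22 (.thr 56 52 (.dbl 26 11 15))))) .nd)))))))))) (.rp 33 (.thr 5 53 (.thr 13 9 (.thr 49 25 (.str 15 (.nv (.thr 0 10 (.thr 42 63 (.thr 48 26 (.dbl 32 16 47)))) (.nv (.thr 14 12 (.thr 26 48 (.thr 11 56 (.thr 38 50 (.thr 4 55 (.dbl 7 3 6)))))) (.nv (.thr 26 48 (.thr 31 16 (.thr 63 47 (.dbl 0 10 42)))) (.rp 63 (.thr 14 12 (.thr 10 0 (.thr 26 48 (.thr 58 42 (.thr 11 56 (.thr 38 50 (.thr 4 55 (.dbl 7 3 6)))))))) (.rp 48 (.thr 14 12 (.thr 0 10 (.thr 63 42 (.thr 31 47 (.thr 26 16 (.thr 11 56 (.thr 38 50 (.thr 4 55 (.dbl 7 3 6))))))))) (.rp 34 (.str 32 (.nv (.thr 26 48 (.thr 31 16 (.dbl 47 42 63))) (.nv (.thr 0 10 (.dbl 48 16 26)) (.nv (.thr 42 47 (.dbl 0 10 63)) (.rp 50 (.str 18 (.nv (.thr 26 48 (.thr 11 56 (.thr 3 7 (.dbl 22 30 60)))) (.nv (.thr 42 47 (.dbl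 0 10 63)) (.rp 63 (.thr 0 10 (.dbl 48 16 26)) .nd)))) (.rp 18 (.str 50 (.nv (.thr 0 10 (.dbl 42 47 63)) (.nv (.dbl 48 26 51) (.rp 48 (.str 3 (.nv (.thr 22 60 (.dbl 7 11 52)) (.nv (.thr 42 47 (.dbl 0 10 63)) (.rp 63 (.str 58 (.nv (.thr 10 0 (.dbl 42 26 47)) (.nv (.thr 7 11 (.dbl 22 52 60)) (.rp 62 (.thr 60 22 (.thr 42 47 (.dbl 10 0 26))) (.rp 60 (.thr 62 54 (.thr 42 47 (.dbl 10 0 26))) (.rp 10 (.thr 62 54 (.thr 22 60 (.dbl 7 11 52))) .nd)))))) (.rp 58 (.str 63 (.nv (.thr 7 11 (.dbl 22 52 60)) (.nv (.dbl 47 31 42) .nd))) .nd))))) .nd)))) .nd)))))) (.rp 32 (.str 34 (.nv (.thr 48 26 (.thr 51 50 (.dbl 0 10 17))) (.nv (.thr 26 48 (.thr 0 10 (.thr 11 56 (.thr 31 16 (.dbl 63 42 47))))) (.nv (.thr 0 10 (.thr 51 17 (.dbl 48 26 50))) (.rp 48 (.thr 0 10 (.thr 51 17 (.thr 39 27 (.thr 38 36 (.dbl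 42 46 63))))) (.rp 26 (.thr 0 10 (.thr 51 17 (.thr 42 63 (.thr 38 46 (.dbl 39 27 36))))) (.rp 14 (.str 7 (.nv (.thr 22 52 (.thr 23 20 (.thr 55 39 (.dbl 4 6 38)))) (.nv (.thr 6 4 (.thr 11 3 (.dbl 26 48 56))) (.nv (.thr 3 11 (.dbl 22 52 60)) (.rp 6 (.thr 10 0 (.thr 3 11 (.dbl 22 52 60))) .nd))))) (.rp 10 (.thr 26 48 (.thr 11 56 (.thr 14 12 (.thr 38 50 (.thr 4 55 (.dbl 7 3 6)))))) (.rp 0 (.thr 26 48 (.thr 16 31 (.thr 11 56 (.thr 14 12 (.thr 38 50 (.thr 4 55 (.dbl 7 3 6))))))) .nd))))))))) (.rp 26 (.thr 0 10 (.thr 42 63 (.thr 32 47 (.thr 48 16 (.thr 51 50 (.thr 34 17 (.thr 38 46 (.dbl 39 27 36)))))))) .nd)))))))))))) (.rp 29 (.thr 5 53 (.thr 33 45 (.thr 13 9 (.dbl 49 17 25)))) (.rp 25 (.str 7 (.nv (.thr 33 45 (.thr 22 52 (.thr 3 60 (.thr 15 11 (.dbl 48 18 26))))) (.nv (.thr 52 22 (.thr 53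 5 (.thr 55 54 (.thr 38 4 (.dbl 39 23 36))))) (.rp 62 (.thr 5 53 (.thr 9 13 (.thr 6 4 (.thr 3 12 (.dbl 22 52 60))))) (.rp 52 (.thr 5 53 (.thr 45 33 (.thr 9 13 (.thr 6 4 (.thr 3 12 (.thr 15 11 (.dbl 60 22 30))))))) (.rp 22 (.thr 5 53 (.thr 9 13 (.thr 6 4 (.thr 3 12 (.thr 15 11 (.thr 48 26 (.dbl 33 18 45))))))) .nd)))))) (.rp 17 (.str 7 (.nv (.thr 33 45 (.thr 22 52 (.thr 3 60 (.thr 15 11 (.dbl 48 18 26))))) (.nv (.thr 52 22 (.thr 53 5 (.thr 55 54 (.thr 38 4 (.dbl 39 23 36))))) (.rp 62 (.thr 5 53 (.thr 9 13 (.thr 6 4 (.thr 3 12 (.dbl 22 52 60))))) (.rp 52 (.thr 5 53 (.thr 45 33 (.thr 9 13 (.thr 6 4 (.thr 3 12 (.thr 15 11 (.dbl 60 22 30))))))) (.rp 22 (.thr 5 53 (.thr 9 13 (.thr 6 4 (.thr 3 12 (.thr 15 11 (.thr 48 26 (.dbl 33 18 45))))))) .nd)))))) (.rp 13 (.thr 53 5 (.str 48 (.nv (.thr 63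 58 (.thr 42 0 (.thr 43 40 (.thr 3 23 (.dbl 33 18 45))))) (.nv (.thr 45 33 (.thr 15 26 (.thr 60 30 (.thr 22 3 (.dbl 52 7 56))))) (.nv (.thr 63 58 (.thr 15 26 (.thr 42 0 (.dbl 47 31 32)))) (.rp 45 (.str 29 (.nv (.thr 17 25 (.thr 49 33 (.thr 51 50 (.thr 63 58 (.dbl 0 34 42))))) (.nv (.thr 15 26 (.thr 17 25 (.thr 33 49 (.thr 3 18 (.thr 7 11 (.dbl 22 52 60)))))) (.nv (.thr 15 26 (.thr 63 58 (.thr 42 0 (.dbl 47 31 32)))) .nd)))) (.rp 15 (.thr 63 58 (.thr 0 42 (.thr 16 32 (.thr 26 31 (.thr 56 11 (.thr 60 52 (.thr 20 40 (.dbl 22 3 23)))))))) .nd))))))) (.rp 9 (.str 15 (.nv (.thr 5 53 (.thr 0 10 (.thr 45 33 (.thr 60 30 (.thr 20 40 (.dbl 22 3 23)))))) (.nv (.thr 33 45 (.thr 48 26 (.thr 3 18 (.thr 7 11 (.dbl 22 52 60))))) (.nv (.thr 48 26 (.thr 53 5 (.thr 63 58 (.thr 42 0 (.dbl 47 31 32))))) .nd))))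 (.rp 5 (.str 15 (.nv (.thr 26 48 (.thr 11 56 (.thr 3 7 (.thr 31 16 (.thr 63 47 (.thr 43 23 (.dbl 42 0 40))))))) (.nv (.thr 33 45 (.thr 48 26 (.thr 49 17 (.thr 51 50 (.thr 39 27 (.thr 38 36 (.dbl 25 12 13))))))) (.nv (.thr 45 33 (.thr 60 30 (.thr 48 26 (.thr 52 56 (.dbl 22 3 7))))) (.rp 48 (.thr 45 33 (.thr 60 30 (.thr 3 22 (.thr 11 7 (.thr 26 56 (.thr 31 16 (.thr 63 47 (.thr 43 23 (.dbl 42 0 40))))))))) (.rp 26 (.thr 45 33 (.thr 60 30 (.thr 22 3 (.thr 7 52 (.thr 23 20 (.thr 39 55 (.thr 51 27 (.thr 54 57 (.dbl 38 6 36))))))))) .nd)))))) .nd))))))))))))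

theorem w184 : WinAt (2199025352706, 2305843043573432324) :=
  chF (K := []) kn c184 2199025352706 2305843043573432324 61
    [] (by decide +kernel) (by decide +kernel)

/-- A certificate. -/
noncomputable def c185 : Ct := (.str 37 (.nv (.thr 5 53 (.thr 33 45 (.thr 13 9 (.dbl 49 17 25)))) (.rp 57 (.thr 33 45 (.thr 5 53 (.thr 49 17 (.dbl 13 9 25)))) (.rp 53 (.thr 33 45 (.thr 49 17 (.thr 13 25 (.str 15 (.nv (.thr 48 26 (.thr 3 18 (.thr 7 11 (.dbl 22 52 60)))) (.nv (.thr 5 9 (.thr 0 10 (.thr 42 63 (.thr 32 47 (.dbl 48 16 26))))) (.nv (.thr 9 5 (.thr 12 14 (.thr 48 26 (.dbl 3 6 18)))) (.rp 48 (.thr 5 9 (.thr 0 10 (.thr 63 42 (.thr 31 47 (.thr 26 16 (.thr 11 56 (.thr 3 7 (.thr 23 43 (.dbl 22 20 60))))))))) (.rp 26 (.thr 5 9 (.thr 0 10 (.thr 42 63 (.thr 32 47 (.thr 48 16 (.thr 40 43 (.thr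 60 20 (.dbl 3 18 22)))))))) .nd))))))))) (.rp 49 (.thr 53 5 (.str 48 (.nv (.thr 33 45 (.thr 3 18 (.thr 63 58 (.thr 23 43 (.dbl 22 20 60))))) (.nv (.thr 15 26 (.thr 33 45 (.thr 3 18 (.thr 7 11 (.dbl 22 52 60))))) (.nv (.thr 15 26 (.thr 63 58 (.thr 42 0 (.dbl 47 31 32)))) .nd))))) (.rp 45 (.thr 5 53 (.thr 13 9 (.thr 49 25 (.str 48 (.nv (.thr 15 26 (.thr 0 10 (.thr 32 16 (.dbl 42 47 63)))) (.nv (.thr 26 15 (.thr 33 17 (.thr 56 11 (.thr 60 52 (.dbl 3 18 22))))) (.nv (.thr 17 33 (.thr 51 50 (.thr 15 26 (.dbl 0 10 34)))) (.rp 26 (.thr 33 17 (.thr 3 18 (.thr 22 60 (.thr 7 52 (.thr 4 6 (.thr 55 38 (.dbl 23 20 39))))))) (.rp 15 (.thr 33 17 (.thr 50 51 (.thr 3 18 (.thr 60 22 (.thr 56 52 (.thr 26 11 (.thr 16 31 (.thr 38 14 (.thr 35 44 (.dbl 32 0 34)))))))))) (.rp 10 (.thr 33 17 (.thr 3 18 (.thr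 60 22 (.thr 56 52 (.dbl 26 11 15))))) .nd)))))))))) (.rp 33 (.str 0 (.nv (.thr 5 53 (.thr 9 13 (.thr 10 15 (.thr 11 8 (.thr 26 56 (.dbl 42 58 63)))))) (.nv (.thr 53 5 (.thr 63 42 (.thr 48 58 (.thr 26 15 (.dbl 16 31 32))))) (.rp 63 (.thr 5 53 (.thr 15 10 (.thr 48 26 (.thr 32 16 (.thr 42 47 (.thr 40 43 (.thr 60 20 (.thr 52 56 (.dbl 22 3 7))))))))) (.rp 58 (.thr 5 53 (.thr 15 10 (.thr 48 26 (.thr 42 63 (.dbl 32 16 47))))) (.rp 53 (.thr 42 63 (.thr 32 47 (.thr 48 16 (.thr 40 43 (.thr 60 20 (.thr 52 56 (.dbl 22 3 7))))))) (.rp 42 (.thr 5 53 (.thr 15 10 (.thr 26 48 (.thr 31 16 (.thr 63 47 (.thr 11 56 (.thr 3 7 (.thr 23 43 (.dbl 22 20 60))))))))) (.rp 26 (.thr 5 53 (.thr 9 13 (.thr 10 15 (.thr 8 11 (.thr 42 63 (.dbl 25 57 59)))))) (.rp 15 (.thr 5 53 (.thr 9 13 (.thr 42 63 (.thr 40 43 (.thr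 60 20 (.thr 3 22 (.thr 12 6 (.thr 44 28 (.thr 4 8 (.dbl 38 35 55)))))))))) (.rp 5 (.thr 42 63 (.thr 32 47 (.thr 48 16 (.thr 40 43 (.thr 60 20 (.thr 52 56 (.dbl 22 3 7))))))) .nd)))))))))) (.rp 25 (.str 32 (.nv (.thr 33 45 (.thr 34 35 (.thr 42 47 (.thr 0 63 (.dbl 17 49 51))))) (.nv (.thr 33 45 (.thr 17 49 (.thr 34 35 (.thr 42 47 (.dbl 0 51 63))))) (.nv (.thr 5 53 (.thr 42 47 (.thr 0 63 (.thr 48 16 (.dbl 15 10 26))))) (.rp 63 (.thr 33 45 (.thr 17 49 (.thr 34 35 (.thr 0 51 (.thr 48 16 (.thr 15 26 (.dbl 5 10 53))))))) (.rp 49 (.thr 42 47 (.thr 0 63 (.thr 48 16 (.thr 15 26 (.dbl 5 10 53))))) (.rp 47 (.thr 33 45 (.thr 53 5 (.thr 17 49 (.thr 34 35 (.thr 0 51 (.thr 48 16 (.dbl 63 42 58))))))) (.rp 42 (.thr 33 45 (.thr 17 49 (.thr 34 35 (.thr 0 51 (.thr 48 16 (.thr 15 26 (.dbl 5 10 53)))))))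 (.rp 0 (.thr 33 45 (.thr 53 5 (.thr 35 34 (.thr 38 44 (.thr 55 4 (.thr 47 42 (.thr 39 43 (.thr 7 23 (.dbl 52 22 54))))))))) .nd))))))))) (.rp 17 (.str 48 (.nv (.thr 5 53 (.thr 15 26 (.thr 0 10 (.thr 32 16 (.dbl 42 47 63))))) (.nv (.thr 15 26 (.thr 45 33 (.thr 60 30 (.thr 22 3 (.dbl 52 7 56))))) (.rp 26 (.thr 53 5 (.thr 33 45 (.thr 3 18 (.thr 22 60 (.thr 23 20 (.dbl 63 43 58)))))) (.rp 15 (.thr 53 5 (.thr 33 45 (.thr 3 18 (.thr 63 58 (.thr 23 43 (.dbl 22 20 60)))))) .nd))))) (.rp 13 (.thr 53 5 (.thr 45 33 (.str 48 (.nv (.thr 15 26 (.thr 60 30 (.thr 22 3 (.dbl 52 7 56)))) (.nv (.thr 63 58 (.thr 15 26 (.thr 42 0 (.dbl 47 31 32)))) (.rp 26 (.thr 63 58 (.thr 42 0 (.thr 47 32 (.thr 44 46 (.thr 35 38 (.dbl 43 39 40)))))) (.rp 15 (.thr 63 58 (.thr 0 42 (.thr 16 32 (.thr 26 31 (.thr 56 11 (.thr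 52 60 (.thr 55 54 (.thr 51 59 (.thr 38 4 (.dbl 50 14 49)))))))))) .nd))))))) (.rp 9 (.str 32 (.nv (.thr 33 45 (.thr 34 35 (.thr 42 47 (.thr 17 49 (.dbl 0 51 63))))) (.nv (.thr 42 47 (.thr 0 63 (.thr 48 16 (.thr 15 26 (.dbl 5 10 53))))) (.rp 63 (.thr 33 45 (.thr 17 49 (.thr 34 35 (.thr 0 51 (.thr 48 16 (.thr 15 26 (.dbl 5 10 53))))))) (.rp 53 (.thr 33 45 (.thr 34 35 (.thr 42 47 (.thr 0 63 (.dbl 17 49 51))))) (.rp 47 (.thr 33 45 (.thr 53 5 (.thr 17 49 (.thr 34 35 (.thr 0 51 (.thr 48 16 (.dbl 63 42 58))))))) (.rp 42 (.thr 33 45 (.thr 17 49 (.thr 34 35 (.thr 0 51 (.thr 48 16 (.thr 15 26 (.dbl 5 10 53))))))) (.rp 0 (.thr 33 45 (.thr 53 5 (.thr 35 34 (.thr 38 44 (.thr 55 4 (.thr 47 42 (.thr 39 43 (.thr 7 23 (.dbl 52 22 54))))))))) .nd)))))))) (.rp 5 (.str 48 (.nv (.thr 33 45 (.thr 17 49 (.thr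 18 3 (.thr 16 19 (.dbl 26 15 31))))) (.nv (.thr 15 26 (.thr 45 33 (.thr 60 30 (.thr 22 3 (.dbl 52 7 56))))) (.rp 45 (.thr 26 15 (.thr 16 31 (.thr 56 11 (.thr 60 52 (.thr 3 22 (.thr 33 18 (.thr 49 17 (.thr 50 51 (.thr 38 14 (.thr 35 44 (.dbl 32 0 34))))))))))) (.rp 33 (.thr 26 15 (.thr 16 31 (.thr 0 32 (.thr 63 42 (.thr 53 58 (.thr 56 11 (.thr 52 60 (.thr 55 54 (.thr 51 59 (.thr 38 4 (.dbl 50 14 49))))))))))) (.rp 26 (.thr 33 45 (.thr 17 49 (.thr 3 18 (.thr 22 60 (.thr 23 20 (.thr 63 43 (.thr 0 42 (.thr 32 16 (.dbl 34 35 51))))))))) (.rp 15 (.thr 33 45 (.thr 17 49 (.thr 18 3 (.thr 16 19 (.thr 0 32 (.thr 51 34 (.thr 63 42 (.thr 55 59 (.thr 38 4 (.dbl 25 12 29)))))))))) (.rp 3 (.thr 33 45 (.thr 49 17 (.thr 50 51 (.thr 26 15 (.thr 16 31 (.thr 38 14 (.thr 35 44 (.dbl 32 0 34)))))))) .nd))))))))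 .nd))))))))))))

theorem w185 : WinAt (2199025352706, 2305843077933170692) :=
  chF (K := []) kn c185 2199025352706 2305843077933170692 61
    [] (by decide +kernel) (by decide +kernel)

/-- A certificate. -/
noncomputable def c186 : Ct := (.str 60 (.nv (.thr 22 3 (.thr 20 23 (.thr 61 1 (.thr 0 40 (.dbl 63 42 62))))) (.rp 63 (.str 57 (.nv (.thr 25 9 (.thr 17 29 (.thr 51 54 (.thr 0 34 (.thr 20 40 (.dbl 22 3 23)))))) (.nv (.thr 25 9 (.thr 51 54 (.thr 12 38 (.thr 28 44 (.dbl 22 3 19))))) (.rp 54 (.thr 25 9 (.thr 29 17 (.thr 22 3 (.thr 28 19 (.thr 31 30 (.thr 16 26 (.dbl 20 23 24))))))) (.rp 51 (.thr 25 9 (.thr 17 29 (.thr 22 3 (.thr 19 28 (.thr 16 18 (.thr 31 26 (.dbl 23 20 27))))))) (.rp 25 (.thr 54 51 (.thr 22 3 (.thr 38 6 (.thr 55 4 (.thr 53 52 (.dbl 61 1 49)))))) (.rp 22 (.thr 25 9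 (.thr 1 61 (.thr 17 29 (.thr 33 49 (.thr 51 54 (.thr 34 0 (.thr 35 32 (.dbl 38 12 44)))))))) (.rp 12 (.thr 61 1 (.thr 53 49 (.thr 54 51 (.thr 55 52 (.thr 38 4 (.dbl 22 3 6)))))) (.rp 9 (.thr 61 1 (.thr 53 49 (.thr 54 51 (.thr 55 52 (.thr 38 4 (.dbl 22 3 6)))))) (.rp 3 (.thr 25 9 (.thr 1 61 (.thr 17 29 (.thr 33 49 (.thr 51 54 (.thr 34 0 (.thr 35 32 (.dbl 38 12 44)))))))) .nd)))))))))) (.rp 62 (.thr 1 61 (.str 56 (.nv (.thr 22 3 (.thr 20 23 (.thr 40 0 (.thr 24 8 (.thr 28 16 (.thr 12 44 (.dbl 48 36 52))))))) (.nv (.thr 22 3 (.thr 26 11 (.thr 16 31 (.thr 18 30 (.thr 19 17 (.thr 28 25 (.dbl 20 23 24))))))) (.nv (.thr 48 52 (.thr 26 11 (.thr 16 31 (.thr 0 32 (.thr 42 63 (.dbl 40 20 43)))))) (.rp 22 (.str 42 (.nv (.thr 0 63 (.thr 26 11 (.thr 16 31 (.dbl 48 32 52)))) (.nv (.thr 0 63 (.dbl 40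 20 43)) (.rp 63 (.thr 40 43 (.thr 24 8 (.thr 20 0 (.thr 16 28 (.dbl 26 11 31))))) (.rp 52 (.str 7 (.nv (.thr 40 43 (.dbl 0 20 63)) (.rp 63 (.thr 40 43 (.thr 20 0 (.thr 24 8 (.thr 16 28 (.dbl 26 11 31))))) (.rp 43 (.thr 0 63 (.thr 40 20 (.thr 8 24 (.thr 59 25 (.thr 58 57 (.dbl 26 10 11)))))) (.rp 40 (.thr 0 63 (.thr 26 11 (.thr 58 10 (.thr 57 59 (.thr 51 54 (.thr 17 34 (.dbl 25 9 29))))))) (.rp 20 (.thr 43 40 (.thr 63 0 (.thr 3 23 (.dbl 11 15 26)))) (.rp 0 (.thr 40 43 (.thr 8 24 (.thr 59 25 (.thr 58 57 (.dbl 26 10 11))))) .nd))))))) (.rp 7 (.thr 52 48 (.thr 0 63 (.dbl 40 20 43))) (.rp 0 (.thr 40 43 (.thr 8 24 (.thr 25 59 (.thr 9 57 (.dbl 11 10 26))))) .nd))))))) (.rp 20 (.thr 48 52 (.thr 26 11 (.thr 16 31 (.thr 0 32 (.thr 42 63 (.thr 40 43 (.thr 8 24 (.thr 59 25 (.dbl 58 10 57)))))))))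 (.rp 16 (.thr 52 48 (.thr 22 3 (.thr 20 23 (.thr 0 40 (.thr 4 36 (.thr 12 8 (.thr 44 28 (.dbl 38 35 55)))))))) .nd)))))))) (.rp 61 (.str 57 (.nv (.thr 22 3 (.thr 23 20 (.thr 25 9 (.thr 17 29 (.thr 19 28 (.thr 16 18 (.dbl 31 26 27))))))) (.nv (.thr 25 9 (.thr 17 29 (.thr 51 54 (.thr 0 34 (.thr 40 20 (.dbl 42 43 63)))))) (.nv (.thr 25 9 (.thr 51 54 (.thr 38 12 (.thr 35 44 (.dbl 3 19 22))))) (.rp 25 (.thr 54 51 (.thr 22 3 (.thr 20 23 (.thr 0 40 (.thr 38 6 (.thr 4 55 (.thr 12 8 (.dbl 44 28 35)))))))) (.rp 9 (.thr 51 54 (.thr 3 22 (.thr 35 19 (.thr 38 44 (.thr 55 4 (.thr 63 59 (.thr 43 23 (.dbl 42 0 40)))))))) .nd)))))) (.rp 43 (.thr 61 1 (.thr 63 62 (.thr 0 42 (.thr 22 3 (.dbl 20 23 40))))) (.rp 42 (.thr 1 61 (.thr 22 3 (.str 16 (.nv (.thr 26 31 (.thr 18 30 (.thr 19 17 (.thr 28 25 (.dbl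 20 23 24))))) (.nv (.thr 20 23 (.thr 0 40 (.thr 26 31 (.thr 56 11 (.dbl 48 32 52))))) (.nv (.thr 20 23 (.thr 26 31 (.thr 18 30 (.thr 28 24 (.dbl 19 17 25))))) (.rp 47 (.str 32 (.nv (.thr 48 0 (.thr 56 52 (.dbl 26 11 31))) (.nv (.thr 20 23 (.dbl 0 40 48)) (.rp 48 (.thr 20 23 (.thr 28 24 (.thr 40 0 (.dbl 44 12 36)))) (.rp 0 (.thr 20 23 (.thr 28 24 (.thr 25 19 (.thr 29 17 (.dbl 31 26 30))))) .nd))))) (.rp 32 (.str 47 (.nv (.thr 23 20 (.thr 31 26 (.thr 19 27 (.thr 25 28 (.dbl 17 18 29))))) (.nv (.thr 20 23 (.thr 24 28 (.thr 40 0 (.thr 56 8 (.dbl 26 11 31))))) (.nv (.thr 20 23 (.thr 26 31 (.thr 18 30 (.thr 28 24 (.dbl 19 17 25))))) (.rp 31 (.thr 20 23 (.thr 28 24 (.thr 44 12 (.thr 19 25 (.thr 18 17 (.thr 45 46 (.dbl 30 15 26))))))) (.rp 28 (.thr 23 20 (.thr 31 26 (.thr 27 19 (.thr 15 63 (.thr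 39 51 (.thr 35 43 (.thr 55 7 (.dbl 38 4 44)))))))) (.rp 26 (.thr 20 23 (.thr 28 24 (.thr 12 44 (.thr 25 19 (.thr 57 9 (.dbl 51 38 54)))))) (.rp 25 (.thr 20 23 (.thr 24 28 (.thr 40 0 (.thr 26 31 (.dbl 56 8 11))))) (.rp 23 (.thr 26 31 (.thr 30 18 (.thr 45 15 (.thr 44 46 (.thr 28 12 (.thr 24 20 (.dbl 25 19 27))))))) (.rp 20 (.thr 31 26 (.thr 15 63 (.thr 45 30 (.thr 44 46 (.thr 12 28 (.thr 38 35 (.thr 51 25 (.dbl 54 6 57)))))))) .nd)))))))))) (.rp 31 (.thr 20 23 (.thr 28 24 (.thr 40 0 (.thr 44 12 (.thr 38 35 (.thr 4 55 (.dbl 36 32 52))))))) (.rp 26 (.thr 20 23 (.thr 28 24 (.thr 12 44 (.thr 25 19 (.thr 57 9 (.dbl 51 38 54)))))) (.rp 23 (.thr 26 31 (.thr 18 30 (.thr 19 17 (.thr 28 25 (.thr 20 24 (.thr 0 40 (.thr 56 11 (.dbl 48 32 52)))))))) (.rp 20 (.thr 26 31 (.thr 18 30 (.thr 17 19 (.thr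 49 33 (.thr 56 11 (.thr 48 52 (.thr 51 50 (.dbl 0 32 34)))))))) (.rp 19 (.thr 20 23 (.thr 24 28 (.thr 40 0 (.thr 56 8 (.dbl 26 11 31))))) .nd))))))))))))) (.rp 40 (.str 57 (.nv (.thr 25 9 (.thr 51 54 (.thr 12 38 (.thr 28 44 (.dbl 22 3 19))))) (.nv (.thr 25 9 (.thr 17 29 (.thr 51 54 (.thr 0 34 (.thr 61 1 (.dbl 63 42 62)))))) (.nv (.thr 22 3 (.thr 25 9 (.thr 28 19 (.thr 51 54 (.dbl 12 38 44))))) (.rp 54 (.thr 25 9 (.thr 61 1 (.thr 53 49 (.thr 63 62 (.thr 58 48 (.thr 59 56 (.dbl 42 0 8))))))) (.rp 51 (.thr 25 9 (.thr 61 1 (.thr 29 17 (.thr 63 62 (.thr 12 46 (.thr 28 44 (.dbl 22 3 19))))))) (.rp 25 (.thr 61 1 (.thr 63 62 (.thr 51 54 (.thr 59 55 (.thr 58 56 (.dbl 53 48 49)))))) (.rp 9 (.thr 61 1 (.thr 53 49 (.thr 63 62 (.thr 48 58 (.thr 52 56 (.dbl 54 51 55)))))) .nd)))))))) (.rp 23 (.str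 57 (.nv (.thr 25 9 (.thr 17 29 (.thr 51 54 (.thr 0 34 (.thr 40 20 (.dbl 42 43 63)))))) (.nv (.thr 25 9 (.thr 51 54 (.thr 38 12 (.thr 35 44 (.dbl 3 19 22))))) (.rp 54 (.thr 25 9 (.thr 61 1 (.thr 53 49 (.thr 63 62 (.thr 58 48 (.thr 59 56 (.dbl 42 0 8))))))) (.rp 51 (.thr 25 9 (.thr 61 1 (.thr 29 17 (.thr 63 62 (.thr 12 46 (.thr 28 44 (.dbl 22 3 19))))))) (.rp 25 (.thr 61 1 (.thr 63 62 (.thr 51 54 (.thr 59 55 (.thr 58 56 (.dbl 53 48 49)))))) (.rp 9 (.thr 61 1 (.thr 53 49 (.thr 63 62 (.thr 48 58 (.thr 52 56 (.dbl 54 51 55)))))) .nd))))))) (.rp 22 (.str 42 (.nv (.thr 61 1 (.dbl 63 0 62)) (.nv (.thr 40 43 (.dbl 0 20 63)) (.rp 63 (.str 52 (.nv (.thr 56 48 (.thr 26 11 (.thr 58 10 (.thr 59 57 (.thr 8 25 (.dbl 40 24 43)))))) (.nv (.thr 40 43 (.thr 20 0 (.thr 48 56 (.thr 36 4 (.thr 12 24 (.dbl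 44 28 32)))))) (.rp 56 (.thr 1 61 (.thr 40 43 (.thr 20 0 (.thr 4 36 (.thr 38 55 (.thr 44 35 (.thr 12 28 (.thr 25 51 (.thr 59 8 (.thr 9 57 (.thr 5 13 (.dbl 6 3 7)))))))))))) (.rp 48 (.thr 1 61 (.thr 40 43 (.thr 20 0 (.thr 4 36 (.thr 38 55 (.thr 44 35 (.thr 12 28 (.thr 25 51 (.thr 59 8 (.thr 9 57 (.thr 5 13 (.dbl 6 3 7)))))))))))) (.rp 43 (.thr 56 48 (.thr 26 11 (.thr 58 10 (.thr 59 57 (.thr 8 25 (.thr 24 40 (.thr 16 31 (.thr 28 20 (.thr 44 12 (.thr 38 35 (.thr 55 4 (.thr 54 53 (.dbl 50 14 62))))))))))))) (.rp 40 (.thr 56 48 (.thr 61 1 (.thr 26 11 (.thr 58 10 (.thr 57 59 (.thr 53 49 (.dbl 54 51 55))))))) (.rp 28 (.thr 56 48 (.thr 40 43 (.thr 8 24 (.thr 25 59 (.thr 9 57 (.dbl 11 10 26)))))) (.rp 24 (.thr 56 48 (.thr 61 1 (.thr 26 11 (.thr 58 10 (.thr 57 59 (.thr 53 49 (.dbl 54 51 55)))))))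 .nd))))))))) (.rp 52 (.str 7 (.nv (.thr 61 1 (.dbl 63 0 62)) (.nv (.thr 40 43 (.dbl 0 20 63)) (.rp 63 (.str 12 (.nv (.thr 40 43 (.thr 0 20 (.thr 44 28 (.thr 8 4 (.thr 36 32 (.dbl 24 48 56)))))) (.nv (.thr 1 61 (.thr 44 28 (.thr 38 35 (.thr 4 55 (.thr 5 6 (.thr 9 13 (.dbl 25 51 57))))))) (.nv (.thr 1 61 (.thr 40 43 (.thr 0 20 (.thr 4 8 (.thr 5 6 (.thr 13 9 (.dbl 15 10 14))))))) (.nv (.thr 44 28 (.thr 38 35 (.thr 4 55 (.thr 8 0 (.dbl 25 51 59))))) (.rp 4 (.thr 44 28 (.thr 40 43 (.thr 0 20 (.thr 36 32 (.thr 38 35 (.thr 34 46 (.dbl 51 17 25))))))) .nd)))))) (.rp 0 (.str 11 (.nv (.thr 43 40 (.thr 59 27 (.thr 25 8 (.thr 57 9 (.dbl 56 26 58))))) (.nv (.thr 43 40 (.thr 61 1 (.thr 3 15 (.dbl 63 23 62)))) (.rp 43 (.thr 26 56 (.thr 10 58 (.thr 9 8 (.thr 1 61 (.thr 5 13 (.thr 3 15 (.dbl 6 4 12)))))))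 (.rp 40 (.thr 26 56 (.thr 10 58 (.thr 8 9 (.thr 59 25 (.thr 43 27 (.thr 61 1 (.thr 3 15 (.dbl 63 23 62)))))))) (.rp 26 (.thr 43 40 (.thr 59 27 (.thr 25 8 (.thr 57 9 (.thr 51 54 (.thr 55 63 (.dbl 38 4 12))))))) (.rp 3 (.thr 1 61 (.thr 40 43 (.thr 56 26 (.thr 8 24 (.thr 9 10 (.dbl 25 57 59)))))) (.rp 1 (.thr 3 15 (.thr 43 40 (.thr 26 56 (.thr 10 58 (.thr 8 9 (.dbl 59 25 27)))))) .nd)))))))) .nd))))) (.rp 7 (.str 52 (.nv (.thr 61 1 (.dbl 63 0 62)) (.nv (.thr 40 43 (.dbl 0 20 63)) (.rp 63 (.thr 56 48 (.thr 40 43 (.thr 24 8 (.thr 20 0 (.thr 16 28 (.dbl 26 11 31)))))) (.rp 0 (.thr 56 48 (.thr 40 43 (.thr 8 24 (.thr 25 59 (.thr 9 57 (.dbl 11 10 26)))))) .nd))))) (.rp 0 (.thr 1 61 (.str 56 (.nv (.thr 11 26 (.thr 43 40 (.thr 59 27 (.thr 25 8 (.dbl 57 9 58))))) (.nv (.thr 52 48 (.thr 40 43 (.thr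 8 24 (.thr 26 11 (.thr 59 25 (.dbl 58 10 57)))))) (.nv (.thr 26 11 (.thr 16 31 (.thr 40 43 (.thr 24 8 (.thr 28 20 (.thr 12 44 (.dbl 48 36 52))))))) (.nv (.thr 40 43 (.thr 8 24 (.thr 25 59 (.thr 9 57 (.dbl 11 10 26))))) (.rp 59 (.thr 40 43 (.thr 24 8 (.thr 26 11 (.thr 27 25 (.thr 16 31 (.thr 28 20 (.thr 12 44 (.dbl 48 36 52)))))))) (.rp 52 (.str 7 (.nv (.thr 40 43 (.thr 8 24 (.thr 26 11 (.thr 59 25 (.dbl 58 10 57))))) (.nv (.thr 11 26 (.thr 40 43 (.thr 8 24 (.thr 9 10 (.thr 5 13 (.thr 6 4 (.dbl 3 12 15))))))) (.nv (.thr 11 26 (.thr 43 40 (.thr 59 27 (.thr 25 8 (.dbl 57 9 58))))) (.nv (.thr 40 43 (.thr 8 24 (.thr 25 59 (.thr 9 57 (.dbl 11 10 26))))) (.rp 43 (.str 38 (.nv (.thr 44 35 (.thr 46 34 (.thr 11 26 (.thr 15 3 (.dbl 45 30 47))))) (.nv (.thr 4 55 (.thr 5 6 (.thr 9 13 (.thr 11 26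 (.thr 25 57 (.dbl 8 10 59)))))) (.nv (.thr 44 35 (.thr 12 28 (.thr 25 51 (.thr 57 9 (.dbl 59 8 58))))) .nd)))) (.rp 40 (.str 39 (.nv (.thr 11 26 (.thr 15 3 (.thr 51 27 (.thr 57 54 (.thr 25 9 (.dbl 59 8 58)))))) (.nv (.thr 55 23 (.thr 38 4 (.thr 44 35 (.thr 12 28 (.thr 25 51 (.thr 57 9 (.dbl 59 8 58))))))) (.nv (.thr 23 55 (.thr 26 11 (.thr 31 16 (.thr 27 19 (.thr 25 24 (.thr 57 9 (.dbl 58 10 59))))))) (.nv (.thr 11 26 (.thr 15 3 (.thr 27 51 (.thr 43 59 (.thr 55 23 (.thr 35 47 (.dbl 38 4 44))))))) (.rp 59 (.thr 55 23 (.thr 38 4 (.thr 44 35 (.thr 46 34 (.thr 45 47 (.thr 15 30 (.dbl 11 3 26))))))) (.rp 55 (.thr 11 26 (.thr 15 3 (.thr 27 51 (.thr 59 43 (.thr 57 58 (.dbl 25 8 9)))))) .nd))))))) (.rp 26 (.thr 40 43 (.thr 8 24 (.thr 25 59 (.thr 9 57 (.thr 5 13 (.thr 6 4 (.thr 3 12 (.dbl 11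 10 15)))))))) (.rp 25 (.thr 43 40 (.thr 11 26 (.thr 15 3 (.thr 27 59 (.thr 39 51 (.thr 35 47 (.thr 38 44 (.dbl 55 4 23)))))))) (.rp 11 (.str 38 (.nv (.thr 4 55 (.thr 5 6 (.thr 9 13 (.thr 25 57 (.thr 8 59 (.dbl 40 24 43)))))) (.nv (.thr 44 35 (.thr 12 28 (.thr 25 51 (.thr 57 9 (.dbl 59 8 58))))) (.nv (.thr 35 44 (.thr 43 40 (.thr 39 47 (.dbl 55 4 23)))) .nd)))) (.rp 8 (.thr 43 40 (.thr 11 26 (.thr 15 3 (.thr 27 59 (.thr 39 51 (.thr 35 47 (.thr 38 44 (.dbl 55 4 23)))))))) .nd))))))))))) (.rp 43 (.thr 26 11 (.thr 58 10 (.thr 59 57 (.thr 8 25 (.thr 24 40 (.thr 16 31 (.thr 28 20 (.thr 12 44 (.dbl 48 36 52))))))))) (.rp 40 (.thr 52 48 (.thr 26 11 (.thr 58 10 (.thr 57 59 (.thr 54 51 (.thr 50 62 (.thr 55 53 (.dbl 38 4 14)))))))) (.rp 26 (.thr 40 43 (.thr 8 24 (.thr 25 59 (.thr 17 29 (.thr 57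 9 (.thr 49 33 (.thr 51 54 (.dbl 48 50 52)))))))) (.rp 11 (.thr 40 43 (.thr 8 24 (.thr 59 25 (.thr 57 58 (.thr 51 54 (.thr 55 63 (.thr 38 4 (.thr 34 46 (.thr 35 44 (.thr 33 32 (.thr 49 17 (.dbl 48 50 52)))))))))))) (.rp 8 (.thr 43 40 (.thr 11 26 (.thr 59 27 (.thr 57 58 (.thr 25 9 (.thr 51 54 (.thr 55 63 (.dbl 38 4 12)))))))) .nd))))))))))))) .nd))))))) (.rp 20 (.thr 61 1 (.thr 63 62 (.thr 42 0 (.thr 3 22 (.dbl 43 23 40))))) (.rp 3 (.thr 61 1 (.str 0 (.nv (.dbl 63 42 62) (.rp 63 (.thr 40 20 (.str 25 (.nv (.thr 57 9 (.thr 51 54 (.thr 12 38 (.thr 8 4 (.dbl 42 43 59))))) (.nv (.thr 17 29 (.thr 51 34 (.thr 12 38 (.thr 8 4 (.dbl 42 43 59))))) (.nv (.thr 57 9 (.thr 51 54 (.dbl 17 29 34))) (.rp 51 (.thr 9 57 (.thr 29 17 (.thr 45 13 (.thr 15 30 (.thr 10 5 (.thr 8 11 (.dbl 42 43 59))))))) (.rp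 43 (.str 23 (.nv (.thr 57 9 (.thr 51 54 (.dbl 17 29 34))) (.nv (.thr 17 29 (.thr 51 34 (.dbl 57 9 54))) (.rp 57 (.thr 29 17 (.thr 45 13 (.thr 30 15 (.thr 31 28 (.thr 27 19 (.dbl 26 16 24)))))) (.rp 54 (.thr 29 17 (.thr 45 13 (.thr 30 15 (.thr 31 28 (.thr 27 19 (.dbl 26 16 24)))))) (.rp 51 (.thr 29 17 (.thr 45 13 (.thr 9 57 (.thr 15 30 (.thr 10 5 (.thr 11 8 (.thr 26 56 (.thr 31 16 (.dbl 27 19 24))))))))) (.rp 34 (.thr 29 17 (.thr 45 13 (.thr 30 15 (.thr 31 28 (.thr 27 19 (.dbl 26 16 24)))))) (.rp 29 (.thr 57 9 (.thr 51 54 (.thr 12 38 (.thr 8 4 (.thr 56 24 (.dbl 59 42 58)))))) (.rp 17 (.thr 57 9 (.thr 51 54 (.thr 12 38 (.thr 8 4 (.thr 56 24 (.dbl 59 42 58)))))) (.rp 12 (.thr 29 17 (.thr 45 13 (.thr 9 57 (.thr 15 30 (.thr 10 5 (.thr 11 8 (.thr 26 56 (.thr 31 16 (.dbl 27 19 24))))))))) (.rp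 9 (.thr 17 29 (.thr 51 34 (.thr 57 54 (.thr 12 38 (.thr 8 4 (.thr 56 24 (.dbl 59 42 58))))))) .nd))))))))))) (.rp 23 (.thr 43 42 (.thr 57 9 (.thr 17 29 (.dbl 51 34 54)))) (.rp 12 (.thr 9 57 (.thr 29 17 (.thr 45 13 (.thr 15 30 (.thr 10 5 (.thr 8 11 (.dbl 42 43 59))))))) .nd))))))))) (.rp 62 (.thr 40 20 (.dbl 42 43 63)) (.rp 42 (.thr 40 20 (.str 32 (.nv (.thr 62 63 (.thr 44 36 (.thr 38 35 (.thr 4 55 (.dbl 12 8 28))))) (.nv (.thr 36 44 (.thr 48 16 (.thr 56 52 (.dbl 24 8 12)))) (.rp 62 (.str 22 (.nv (.thr 44 36 (.thr 38 35 (.thr 54 6 (.thr 51 57 (.thr 17 34 (.dbl 25 12 29)))))) (.nv (.thr 48 16 (.thr 36 44 (.thr 56 52 (.dbl 24 8 12)))) (.rp 52 (.thr 16 48 (.thr 26 31 (.thr 18 30 (.thr 19 17 (.thr 28 25 (.dbl 44 12 36)))))) (.rp 44 (.thr 16 48 (.thr 26 31 (.thr 18 30 (.thr 17 19 (.thr 51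 34 (.thr 57 54 (.dbl 25 9 29))))))) (.rp 36 (.thr 16 48 (.thr 26 31 (.thr 18 30 (.thr 17 19 (.thr 51 34 (.thr 57 54 (.dbl 25 9 29))))))) (.rp 12 (.thr 48 16 (.thr 44 36 (.thr 52 56 (.thr 38 35 (.thr 55 4 (.dbl 54 6 53)))))) .nd))))))) (.rp 52 (.thr 16 48 (.thr 26 31 (.thr 56 11 (.thr 24 8 (.thr 25 27 (.thr 17 29 (.thr 51 34 (.dbl 57 9 54)))))))) (.rp 44 (.thr 48 16 (.thr 56 52 (.thr 24 8 (.thr 26 11 (.thr 25 27 (.thr 17 29 (.thr 51 34 (.dbl 12 36 38)))))))) (.rp 36 (.thr 16 48 (.thr 26 31 (.thr 56 11 (.thr 24 8 (.thr 25 27 (.thr 17 29 (.thr 51 34 (.dbl 57 9 54)))))))) (.rp 28 (.thr 36 44 (.thr 48 16 (.thr 24 12 (.dbl 56 8 52)))) (.rp 12 (.thr 44 36 (.thr 48 16 (.thr 52 56 (.thr 38 35 (.thr 55 4 (.thr 53 54 (.dbl 63 58 62))))))) (.rp 8 (.thr 44 36 (.thr 48 16 (.thr 52 56 (.thr 38 35 (.thr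 55 4 (.thr 53 54 (.dbl 63 58 62))))))) .nd))))))))))) .nd)))))) (.rp 1 (.thr 22 3 (.str 0 (.nv (.dbl 20 23 40) (.rp 40 (.str 16 (.nv (.thr 20 23 (.thr 24 28 (.thr 48 32 (.thr 36 12 (.dbl 52 4 56))))) (.nv (.thr 20 23 (.thr 26 31 (.thr 18 30 (.thr 19 17 (.dbl 28 24 25))))) (.nv (.thr 26 31 (.thr 56 11 (.dbl 48 32 52))) .nd)))) (.rp 23 (.thr 40 20 (.dbl 42 43 63)) (.rp 20 (.str 48 (.nv (.thr 56 52 (.thr 26 11 (.dbl 16 31 32))) (.nv (.thr 16 32 (.thr 26 31 (.dbl 56 11 52))) (.rp 56 (.thr 16 32 (.thr 26 31 (.thr 30 18 (.thr 15 45 (.thr 10 5 (.dbl 42 58 63)))))) (.rp 52 (.thr 16 32 (.thr 26 31 (.thr 30 18 (.thr 15 45 (.thr 10 5 (.dbl 42 58 63)))))) (.rp 32 (.thr 56 52 (.thr 26 11 (.thr 30 18 (.thr 15 45 (.thr 10 5 (.dbl 42 58 63)))))) (.rp 31 (.thr 52 56 (.thr 63 42 (.thr 53 58 (.thr 54 55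 (.thr 57 51 (.dbl 61 49 62)))))) (.rp 26 (.thr 56 52 (.thr 63 42 (.thr 58 53 (.thr 57 59 (.thr 54 51 (.dbl 62 50 61)))))) (.rp 16 (.thr 52 56 (.thr 63 42 (.thr 53 58 (.thr 54 55 (.thr 57 51 (.dbl 61 49 62)))))) (.rp 11 (.thr 16 32 (.thr 26 31 (.thr 30 18 (.thr 15 45 (.thr 10 5 (.dbl 42 58 63)))))) .nd)))))))))) .nd)))))) (.rp 0 (.str 57 (.nv (.thr 25 9 (.thr 29 17 (.thr 51 54 (.thr 12 38 (.thr 63 46 (.dbl 61 1 62)))))) (.nv (.thr 3 22 (.thr 25 9 (.thr 51 54 (.thr 38 12 (.dbl 35 19 44))))) (.nv (.thr 25 9 (.thr 1 61 (.thr 51 54 (.thr 22 3 (.thr 28 19 (.dbl 12 38 44)))))) (.rp 54 (.thr 25 9 (.thr 1 61 (.thr 29 17 (.thr 22 3 (.thr 28 19 (.thr 31 30 (.thr 16 26 (.dbl 20 23 24)))))))) (.rp 51 (.thr 25 9 (.thr 1 61 (.thr 17 29 (.thr 22 3 (.thr 19 28 (.thr 16 18 (.thr 31 26 (.dbl 23 20 27))))))))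 (.rp 38 (.thr 61 1 (.thr 3 22 (.thr 53 49 (.thr 54 51 (.thr 52 55 (.thr 48 56 (.dbl 63 58 62))))))) (.rp 25 (.thr 61 1 (.thr 3 22 (.thr 49 53 (.thr 51 54 (.thr 19 35 (.thr 48 50 (.thr 18 33 (.thr 16 17 (.thr 26 31 (.dbl 56 11 52)))))))))) (.rp 22 (.thr 25 9 (.thr 1 61 (.thr 17 29 (.thr 49 33 (.thr 51 54 (.thr 50 48 (.thr 38 12 (.thr 35 44 (.thr 26 14 (.thr 16 31 (.dbl 19 3 18))))))))))) (.rp 12 (.thr 61 1 (.thr 3 22 (.thr 53 49 (.thr 54 51 (.thr 52 55 (.thr 48 56 (.dbl 63 58 62))))))) (.rp 9 (.thr 61 1 (.thr 3 22 (.thr 53 49 (.thr 54 51 (.thr 52 55 (.thr 48 56 (.dbl 63 58 62))))))) (.rp 3 (.thr 1 61 (.thr 25 9 (.thr 29 17 (.thr 51 54 (.thr 12 38 (.thr 28 44 (.thr 46 63 (.thr 30 31 (.thr 15 45 (.dbl 14 13 62)))))))))) .nd)))))))))))) .nd))))))))))))))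

theorem w186 : WinAt (2199025352704, 137438953476) :=
  chF (K := []) kn c186 2199025352704 137438953476 37
    [] (by decide +kernel) (by decide +kernel)

/-- A certificate. -/
noncomputable def c187 : Ct := (.str 37 (.nv (.thr 5 53 (.thr 33 45 (.thr 13 9 (.dbl 49 17 25)))) (.rp 57 (.thr 33 45 (.thr 5 53 (.thr 49 17 (.dbl 13 9 25)))) (.rp 53 (.thr 33 45 (.thr 49 17 (.thr 13 25 (.thr 9 5 (.str 3 (.nv (.thr 48 18 (.thr 26 15 (.thr 56 11 (.dbl 60 22 52)))) (.nv (.thr 22 60 (.thr 7 52 (.thr 15 11 (.dbl 12 6 14)))) (.nv (.thr 12 6 (.thr 48 18 (.dbl 15 14 26))) (.rp 48 (.thr 12 6 (.thr 22 60 (.thr 23 20 (.thr 63 43 (.thr 46 29 (.thr 14 15 (.thr 30 62 (.thr 26 18 (.thr 31 16 (.thr 19 27 (.thr 51 35 (.thr 59 55 (.thr 56 11 (.thr 58 57 (.dbl 42 0 10))))))))))))))) (.rp 22 (.thr 48 18 (.thr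 26 15 (.thr 11 56 (.thr 10 8 (.thr 16 31 (.thr 32 0 (.dbl 42 47 58))))))) (.rp 15 (.thr 48 18 (.thr 60 22 (.thr 56 52 (.thr 26 11 (.thr 16 31 (.thr 0 32 (.thr 40 20 (.dbl 42 43 63)))))))) (.rp 12 (.str 51 (.nv (.dbl 48 18 50) (.rp 50 (.thr 22 60 (.thr 7 52 (.thr 15 11 (.dbl 48 18 26)))) (.rp 48 (.thr 35 19 (.thr 32 34 (.thr 42 47 (.thr 43 40 (.dbl 63 0 23))))) (.rp 18 (.thr 22 60 (.thr 7 52 (.thr 15 11 (.dbl 48 26 50)))) .nd))))) .nd)))))))))))) (.rp 49 (.thr 53 5 (.str 48 (.nv (.thr 33 45 (.thr 3 18 (.thr 63 58 (.thr 23 43 (.dbl 22 20 60))))) (.nv (.thr 15 26 (.thr 33 45 (.thr 3 18 (.thr 7 11 (.dbl 22 52 60))))) (.nv (.thr 26 15 (.thr 16 31 (.thr 63 58 (.dbl 0 32 42)))) .nd))))) (.rp 45 (.thr 5 53 (.thr 13 9 (.thr 49 25 (.thr 17 33 (.str 0 (.nv (.thr 15 10 (.thr 48 26 (.dbl 51 34 50)))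 (.nv (.thr 42 63 (.thr 32 47 (.thr 48 16 (.dbl 51 34 50)))) (.nv (.thr 42 63 (.thr 32 47 (.thr 48 16 (.dbl 15 10 26)))) (.nv (.thr 51 34 (.thr 15 10 (.dbl 48 26 50))) (.rp 51 (.str 12 (.nv (.dbl 15 10 14) (.rp 15 (.thr 4 8 (.thr 7 6 (.thr 22 52 (.thr 20 23 (.dbl 60 3 40))))) (.rp 14 (.thr 42 63 (.thr 32 47 (.thr 48 16 (.dbl 15 10 26)))) (.rp 10 (.thr 42 63 (.thr 32 47 (.thr 48 16 (.dbl 15 14 26)))) .nd))))) (.rp 48 (.thr 15 10 (.thr 63 42 (.thr 31 47 (.thr 26 16 (.thr 11 56 (.thr 3 7 (.thr 23 43 (.dbl 22 20 60)))))))) (.rp 42 (.thr 15 10 (.thr 26 48 (.thr 16 31 (.thr 18 19 (.thr 11 56 (.thr 7 3 (.dbl 22 30 52))))))) (.rp 15 (.thr 51 34 (.thr 42 63 (.thr 40 43 (.thr 60 20 (.thr 54 57 (.thr 50 48 (.thr 58 62 (.thr 26 10 (.thr 56 11 (.thr 8 24 (.thr 12 4 (.thr 28 44 (.thr 31 16 (.thr 30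 29 (.dbl 22 3 18))))))))))))))) .nd))))))))))))) (.rp 33 (.str 15 (.nv (.thr 5 53 (.thr 9 13 (.thr 10 0 (.thr 11 8 (.dbl 26 48 56))))) (.nv (.thr 48 26 (.thr 53 5 (.thr 63 58 (.thr 42 0 (.dbl 47 31 32))))) (.rp 53 (.thr 26 48 (.thr 11 56 (.thr 3 7 (.thr 31 16 (.thr 63 47 (.thr 43 23 (.dbl 42 0 40))))))) (.rp 48 (.thr 5 53 (.thr 0 10 (.thr 63 42 (.thr 31 47 (.thr 26 16 (.thr 11 56 (.thr 3 7 (.thr 23 43 (.dbl 22 20 60))))))))) (.rp 26 (.thr 5 53 (.thr 13 9 (.thr 0 10 (.thr 42 63 (.thr 32 47 (.thr 48 16 (.thr 40 43 (.thr 36 44 (.dbl 12 14 24))))))))) (.rp 5 (.thr 26 48 (.thr 11 56 (.thr 3 7 (.thr 31 16 (.thr 63 47 (.thr 43 23 (.dbl 42 0 40))))))) (.rp 0 (.thr 53 5 (.thr 48 26 (.thr 63 58 (.thr 47 31 (.thr 42 32 (.thr 43 40 (.thr 3 23 (.thr 7 11 (.dbl 22 52 60))))))))) .nd)))))))) (.rp 25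 (.thr 53 5 (.thr 45 33 (.str 48 (.nv (.thr 15 26 (.thr 60 30 (.thr 22 3 (.dbl 52 7 56)))) (.nv (.thr 63 58 (.thr 26 15 (.thr 16 31 (.dbl 0 32 42)))) (.rp 51 (.str 12 (.nv (.thr 63 58 (.thr 46 29 (.thr 47 44 (.dbl 42 0 32)))) (.nv (.thr 15 26 (.thr 60 30 (.thr 22 3 (.dbl 52 7 56)))) (.nv (.thr 63 58 (.thr 46 29 (.thr 47 44 (.dbl 15 26 31)))) .nd)))) (.rp 26 (.thr 63 58 (.thr 42 0 (.thr 47 32 (.thr 15 31 (.thr 60 30 (.thr 52 56 (.dbl 22 3 7))))))) (.rp 15 (.thr 63 58 (.thr 0 42 (.thr 16 32 (.thr 26 31 (.thr 56 11 (.thr 60 52 (.thr 20 40 (.dbl 22 3 23)))))))) (.rp 12 (.str 51 (.nv (.thr 50 49 (.thr 58 63 (.thr 54 62 (.thr 60 57 (.dbl 52 55 56))))) (.nv (.thr 15 26 (.thr 50 49 (.thr 60 30 (.thr 22 3 (.dbl 52 7 56))))) (.nv (.thr 26 15 (.thr 16 31 (.thr 63 58 (.dbl 0 32 42)))) .nd)))) .nd)))))))))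 (.rp 17 (.str 48 (.nv (.thr 15 26 (.thr 45 33 (.thr 60 30 (.thr 22 3 (.dbl 52 7 56))))) (.nv (.thr 26 15 (.thr 16 31 (.thr 0 32 (.thr 53 5 (.dbl 63 42 58))))) (.rp 26 (.thr 53 5 (.thr 33 45 (.thr 3 18 (.thr 22 60 (.thr 23 20 (.dbl 63 43 58)))))) (.rp 15 (.thr 53 5 (.thr 33 45 (.thr 3 18 (.thr 63 58 (.thr 23 43 (.dbl 22 20 60)))))) .nd))))) (.rp 13 (.thr 45 33 (.str 15 (.nv (.thr 5 53 (.thr 0 10 (.thr 60 30 (.thr 20 40 (.dbl 22 3 23))))) (.nv (.thr 5 53 (.thr 0 10 (.thr 48 26 (.thr 32 16 (.dbl 42 47 63))))) (.nv (.thr 26 48 (.thr 11 56 (.thr 60 30 (.dbl 3 7 22)))) .nd))))) (.rp 9 (.str 15 (.nv (.thr 5 53 (.thr 0 10 (.thr 45 33 (.thr 60 30 (.thr 20 40 (.dbl 22 3 23)))))) (.nv (.thr 5 53 (.thr 26 48 (.thr 31 16 (.thr 63 47 (.dbl 0 10 42))))) (.nv (.thr 26 48 (.thr 11 56 (.thr 3 7 (.thr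 45 33 (.dbl 60 22 30))))) .nd)))) (.rp 5 (.str 48 (.nv (.thr 26 15 (.thr 16 31 (.thr 0 32 (.thr 56 11 (.thr 60 52 (.thr 20 40 (.dbl 22 3 23))))))) (.nv (.thr 33 45 (.thr 17 49 (.thr 18 3 (.thr 16 19 (.dbl 26 15 31))))) (.nv (.thr 15 26 (.thr 45 33 (.thr 60 30 (.thr 22 3 (.dbl 52 7 56))))) (.rp 26 (.thr 33 45 (.thr 49 17 (.thr 3 18 (.thr 22 60 (.thr 7 52 (.thr 15 11 (.thr 23 20 (.thr 39 55 (.dbl 51 27 50))))))))) (.rp 15 (.thr 33 45 (.thr 3 18 (.thr 60 22 (.thr 56 52 (.thr 26 11 (.thr 16 31 (.thr 0 32 (.thr 40 20 (.dbl 42 43 63))))))))) (.rp 3 (.thr 45 33 (.thr 15 26 (.thr 60 30 (.thr 52 56 (.thr 22 7 (.thr 20 23 (.thr 0 40 (.thr 32 16 (.dbl 42 47 63))))))))) .nd))))))) .nd))))))))))))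

theorem w187 : WinAt (2199025352706, 2305843284091600900) :=
  chF (K := []) kn c187 2199025352706 2305843284091600900 61
    [] (by decide +kernel) (by decide +kernel)

/-- A certificate. -/
noncomputable def c188 : Ct := (.str 37 (.nv (.thr 33 45 (.thr 5 53 (.thr 49 17 (.dbl 13 9 25)))) (.rp 53 (.thr 33 45 (.thr 49 17 (.thr 13 25 (.str 15 (.nv (.thr 48 26 (.thr 3 18 (.thr 7 11 (.dbl 22 52 60)))) (.nv (.thr 5 9 (.thr 26 48 (.thr 31 16 (.thr 63 47 (.dbl 0 10 42))))) (.nv (.thr 9 5 (.thr 12 14 (.thr 48 26 (.dbl 3 6 18)))) (.rp 48 (.thr 5 9 (.thr 14 12 (.thr 0 10 (.thr 63 42 (.thr 31 47 (.thr 26 16 (.thr 11 56 (.thr 38 50 (.thr 4 55 (.dbl 7 3 6)))))))))) (.rp 26 (.thr 5 9 (.thr 0 10 (.thr 42 63 (.thr 32 47 (.thr 35 34 (.thr 44 38 (.dbl 40 36 43))))))) (.rp 18 (.thr 5 9 (.thr 0 10 (.thr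 63 42 (.thr 31 47 (.dbl 26 16 48))))) .nd)))))))))) (.rp 49 (.thr 45 33 (.thr 53 5 (.str 15 (.nv (.thr 48 26 (.thr 63 58 (.thr 42 0 (.dbl 47 31 32)))) (.nv (.thr 60 30 (.thr 48 26 (.thr 22 3 (.dbl 52 7 56)))) (.rp 48 (.thr 60 30 (.thr 3 22 (.thr 11 7 (.thr 26 56 (.thr 31 16 (.thr 47 63 (.thr 44 46 (.thr 12 28 (.thr 38 35 (.dbl 14 13 50)))))))))) (.rp 26 (.thr 60 30 (.thr 22 3 (.thr 52 7 (.thr 55 54 (.thr 4 38 (.dbl 20 23 36)))))) .nd))))))) (.rp 45 (.thr 5 53 (.thr 13 9 (.thr 49 25 (.str 48 (.nv (.thr 15 26 (.thr 0 10 (.thr 32 16 (.dbl 42 47 63)))) (.nv (.thr 33 17 (.thr 3 18 (.thr 22 60 (.thr 7 52 (.dbl 15 11 26))))) (.nv (.thr 17 33 (.thr 51 50 (.thr 15 26 (.dbl 0 10 34)))) (.rp 26 (.thr 33 17 (.thr 3 18 (.thr 22 60 (.thr 7 52 (.thr 15 11 (.thr 23 20 (.thr 63 43 (.dbl 0 10 42))))))))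 (.rp 15 (.thr 33 17 (.thr 3 18 (.thr 60 22 (.thr 56 52 (.thr 26 11 (.thr 16 31 (.thr 0 32 (.thr 40 20 (.dbl 42 43 63))))))))) .nd))))))))) (.rp 33 (.str 15 (.nv (.thr 5 53 (.thr 9 13 (.thr 10 0 (.thr 11 8 (.dbl 26 48 56))))) (.nv (.thr 48 26 (.thr 53 5 (.thr 63 58 (.thr 42 0 (.dbl 47 31 32))))) (.rp 53 (.thr 26 48 (.thr 11 56 (.thr 31 16 (.thr 63 47 (.thr 0 42 (.thr 5 10 (.thr 13 9 (.thr 14 12 (.thr 38 50 (.thr 4 55 (.dbl 7 3 6))))))))))) (.rp 48 (.thr 5 53 (.thr 9 13 (.thr 10 0 (.thr 11 8 (.thr 3 7 (.thr 12 6 (.thr 60 22 (.thr 44 28 (.thr 38 35 (.dbl 25 51 57)))))))))) (.rp 26 (.thr 5 53 (.thr 9 13 (.thr 0 10 (.thr 42 63 (.thr 40 43 (.thr 60 20 (.thr 3 22 (.thr 7 11 (.dbl 6 4 12))))))))) (.rp 5 (.thr 26 48 (.thr 11 56 (.thr 3 7 (.thr 60 22 (.thr 45 30 (.thr 31 16 (.thr 47 63 (.thr 44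 46 (.thr 12 28 (.thr 38 35 (.dbl 14 13 50))))))))))) (.rp 0 (.thr 5 53 (.thr 13 9 (.thr 14 12 (.thr 26 48 (.thr 11 56 (.thr 38 50 (.thr 4 55 (.dbl 7 3 6)))))))) .nd)))))))) (.rp 29 (.thr 5 53 (.thr 33 45 (.thr 13 9 (.dbl 49 17 25)))) (.rp 25 (.str 7 (.nv (.thr 5 53 (.thr 22 52 (.thr 3 60 (.thr 15 11 (.thr 0 10 (.thr 23 20 (.dbl 63 42 43))))))) (.nv (.thr 5 53 (.thr 6 4 (.thr 9 13 (.thr 3 12 (.thr 15 11 (.thr 48 26 (.dbl 33 18 45))))))) (.nv (.thr 5 53 (.thr 9 13 (.thr 6 4 (.thr 22 52 (.dbl 3 12 60))))) (.nv (.thr 33 45 (.thr 22 52 (.thr 3 60 (.thr 15 11 (.dbl 48 18 26))))) (.rp 3 (.thr 5 53 (.thr 45 33 (.thr 4 6 (.thr 38 55 (.thr 44 35 (.thr 52 22 (.thr 36 20 (.thr 32 40 (.dbl 47 42 46))))))))) .nd)))))) (.rp 17 (.str 7 (.nv (.thr 5 53 (.thr 6 4 (.thr 9 13 (.thr 3 12 (.thr 15 11 (.thr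 48 26 (.dbl 33 18 45))))))) (.nv (.thr 5 53 (.thr 6 4 (.thr 9 13 (.thr 22 52 (.dbl 3 12 60))))) (.nv (.thr 22 52 (.thr 3 60 (.thr 15 11 (.thr 48 26 (.dbl 33 18 45))))) (.rp 45 (.thr 5 53 (.thr 6 4 (.thr 22 52 (.thr 3 60 (.dbl 9 12 13))))) (.rp 3 (.thr 5 53 (.thr 45 33 (.thr 4 6 (.thr 38 55 (.thr 44 35 (.thr 52 22 (.thr 36 20 (.thr 32 40 (.dbl 47 42 46))))))))) .nd)))))) (.rp 13 (.thr 45 33 (.str 15 (.nv (.thr 5 53 (.thr 0 10 (.thr 60 30 (.thr 20 40 (.dbl 22 3 23))))) (.nv (.thr 5 53 (.thr 0 10 (.thr 48 26 (.thr 32 16 (.dbl 42 47 63))))) (.nv (.thr 48 26 (.thr 60 30 (.thr 22 3 (.dbl 52 7 56)))) .nd))))) (.rp 9 (.str 15 (.nv (.thr 5 53 (.thr 0 10 (.thr 45 33 (.thr 60 30 (.thr 20 40 (.dbl 22 3 23)))))) (.nv (.thr 33 45 (.thr 48 26 (.thr 3 18 (.thr 7 11 (.dbl 22 52 60))))) (.nv (.thr 48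 26 (.thr 53 5 (.thr 63 58 (.thr 42 0 (.dbl 47 31 32))))) .nd)))) (.rp 5 (.str 3 (.nv (.thr 22 60 (.thr 7 52 (.thr 15 11 (.thr 23 20 (.thr 63 43 (.thr 47 31 (.dbl 42 0 32))))))) (.nv (.thr 33 45 (.thr 17 49 (.thr 18 48 (.thr 16 19 (.thr 26 31 (.dbl 22 30 60)))))) (.nv (.thr 45 33 (.thr 60 22 (.thr 15 30 (.thr 26 48 (.dbl 11 7 56))))) (.rp 60 (.thr 33 45 (.thr 48 18 (.thr 15 26 (.thr 7 11 (.thr 22 52 (.thr 23 20 (.thr 63 43 (.thr 47 31 (.dbl 42 0 32))))))))) (.rp 48 (.thr 33 45 (.thr 17 49 (.thr 22 60 (.thr 23 20 (.thr 63 43 (.thr 0 42 (.thr 51 34 (.thr 55 59 (.thr 35 19 (.dbl 38 4 44)))))))))) (.rp 22 (.thr 33 45 (.thr 48 18 (.thr 26 15 (.thr 56 11 (.thr 60 52 (.thr 16 31 (.thr 0 32 (.thr 40 20 (.dbl 42 43 63))))))))) .nd))))))) .nd))))))))))))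

theorem w188 : WinAt (2199025352706, 2305843558969507844) :=
  chF (K := []) kn c188 2199025352706 2305843558969507844 61
    [] (by decide +kernel) (by decide +kernel)

/-- A certificate. -/
noncomputable def c189 : Ct := (.str 25 (.nv (.thr 17 29 (.thr 9 57 (.thr 49 33 (.dbl 13 5 37)))) (.rp 57 (.thr 17 29 (.thr 49 33 (.thr 13 37 (.str 12 (.nv (.thr 51 38 (.thr 0 34 (.thr 8 4 (.dbl 42 59 63)))) (.nv (.thr 9 5 (.thr 38 51 (.thr 44 35 (.thr 60 28 (.dbl 3 6 22))))) (.nv (.thr 5 9 (.thr 15 14 (.thr 51 38 (.dbl 0 10 34)))) (.rp 51 (.thr 9 5 (.thr 14 15 (.thr 3 6 (.thr 60 22 (.thr 44 28 (.thr 38 35 (.thr 4 55 (.thr 26 50 (.thr 11 56 (.dbl 8 0 10)))))))))) (.rp 38 (.thr 9 5 (.thr 3 6 (.thr 22 60 (.thr 19 28 (.thr 16 18 (.thr 31 26 (.dbl 23 20 27))))))) (.rp 34 (.thr 9 5 (.thr 3 6 (.thr 60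 22 (.thr 44 28 (.dbl 38 35 51))))) .nd)))))))))) (.rp 49 (.thr 29 17 (.thr 57 9 (.str 12 (.nv (.thr 38 51 (.thr 4 55 (.thr 0 8 (.dbl 63 42 46)))) (.nv (.thr 51 38 (.thr 60 54 (.thr 22 3 (.dbl 28 19 44)))) (.rp 51 (.thr 63 46 (.thr 0 42 (.thr 4 8 (.thr 38 55 (.thr 44 35 (.thr 28 60 (.thr 31 30 (.thr 15 47 (.thr 26 16 (.dbl 14 13 50)))))))))) (.rp 38 (.thr 63 46 (.thr 42 0 (.thr 59 8 (.thr 51 55 (.thr 60 54 (.thr 28 44 (.dbl 22 3 19))))))) .nd))))))) (.rp 45 (.thr 9 57 (.thr 17 29 (.thr 13 5 (.dbl 49 33 37)))) (.rp 37 (.str 28 (.nv (.thr 22 19 (.thr 57 9 (.thr 60 3 (.thr 12 44 (.dbl 51 38 54))))) (.nv (.thr 22 19 (.thr 29 17 (.thr 20 23 (.thr 31 30 (.dbl 16 24 26))))) (.rp 22 (.thr 29 17 (.thr 9 57 (.thr 31 30 (.thr 26 16 (.thr 27 24 (.thr 11 56 (.thr 8 10 (.dbl 59 42 43)))))))) (.rp 19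 (.thr 29 17 (.thr 57 9 (.thr 31 30 (.thr 16 26 (.thr 20 24 (.thr 22 23 (.thr 60 3 (.thr 12 44 (.dbl 51 38 54))))))))) .nd))))) (.rp 33 (.str 28 (.nv (.thr 22 19 (.thr 57 9 (.thr 60 3 (.thr 12 44 (.dbl 51 38 54))))) (.nv (.thr 29 17 (.thr 31 30 (.thr 16 26 (.thr 22 19 (.dbl 20 23 24))))) (.rp 22 (.thr 29 17 (.thr 9 57 (.thr 31 30 (.thr 26 16 (.thr 27 24 (.thr 11 56 (.thr 8 10 (.dbl 59 42 43)))))))) (.rp 19 (.thr 29 17 (.thr 57 9 (.thr 31 30 (.thr 16 26 (.thr 20 24 (.thr 22 23 (.thr 60 3 (.thr 12 44 (.dbl 51 38 54))))))))) .nd))))) (.rp 29 (.thr 9 57 (.thr 13 5 (.thr 49 37 (.str 3 (.nv (.thr 33 17 (.thr 48 18 (.thr 12 6 (.dbl 51 38 50)))) (.nv (.thr 22 60 (.thr 19 28 (.thr 33 17 (.thr 48 18 (.dbl 51 35 50))))) (.nv (.thr 12 6 (.thr 38 51 (.thr 44 35 (.dbl 60 22 28)))) (.rp 51 (.thr 33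 17 (.thr 48 18 (.thr 12 6 (.thr 24 36 (.thr 26 27 (.thr 11 56 (.dbl 15 7 14))))))) (.rp 12 (.thr 33 17 (.thr 18 48 (.thr 22 60 (.thr 28 19 (.thr 20 23 (.thr 24 16 (.dbl 26 27 30))))))) .nd))))))))) (.rp 17 (.str 12 (.nv (.thr 9 57 (.thr 5 13 (.thr 6 3 (.thr 4 7 (.dbl 38 51 55))))) (.nv (.thr 51 38 (.thr 57 9 (.thr 60 54 (.thr 22 3 (.dbl 28 19 44))))) (.rp 57 (.thr 38 51 (.thr 4 55 (.thr 0 8 (.thr 63 42 (.thr 46 29 (.thr 44 35 (.thr 45 47 (.thr 37 33 (.thr 53 5 (.thr 48 58 (.dbl 36 24 39))))))))))) (.rp 51 (.thr 9 57 (.thr 5 13 (.thr 6 3 (.thr 4 7 (.thr 0 8 (.thr 15 10 (.thr 63 42 (.thr 31 47 (.thr 26 16 (.dbl 37 48 53)))))))))) (.rp 38 (.thr 9 57 (.thr 5 13 (.thr 6 3 (.thr 4 7 (.thr 8 0 (.thr 11 10 (.thr 26 56 (.thr 27 24 (.dbl 59 42 43))))))))) (.rp 9 (.thr 38 51 (.thr 4 55 (.thr 0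 8 (.thr 63 42 (.thr 29 46 (.thr 44 35 (.thr 28 60 (.thr 31 30 (.thr 15 47 (.thr 26 16 (.dbl 14 13 50))))))))))) (.rp 3 (.thr 9 57 (.thr 13 5 (.thr 15 14 (.thr 51 38 (.thr 27 39 (.thr 26 24 (.dbl 37 48 49))))))) .nd)))))))) (.rp 13 (.thr 29 17 (.str 28 (.nv (.thr 22 19 (.thr 57 9 (.thr 60 3 (.thr 12 44 (.dbl 51 38 54))))) (.nv (.thr 31 30 (.thr 16 26 (.thr 22 19 (.dbl 20 23 24)))) (.rp 22 (.thr 9 57 (.thr 31 30 (.thr 26 16 (.thr 27 24 (.thr 11 56 (.thr 8 10 (.dbl 59 42 43))))))) (.rp 19 (.thr 57 9 (.thr 31 30 (.thr 16 26 (.thr 20 24 (.thr 22 23 (.thr 60 3 (.thr 12 44 (.dbl 51 38 54)))))))) (.rp 16 (.thr 57 9 (.thr 30 31 (.thr 22 19 (.thr 18 26 (.thr 60 3 (.thr 12 44 (.dbl 51 38 54))))))) .nd))))))) (.rp 9 (.str 51 (.nv (.thr 12 38 (.thr 17 29 (.thr 49 33 (.thr 48 50 (.thr 24 36 (.thr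 26 27 (.dbl 37 13 15))))))) (.nv (.thr 12 38 (.thr 29 17 (.thr 63 46 (.thr 59 55 (.dbl 42 0 8))))) (.rp 38 (.thr 17 29 (.thr 33 49 (.thr 34 0 (.thr 35 32 (.thr 19 3 (.thr 16 18 (.thr 31 26 (.thr 23 27 (.dbl 22 20 28))))))))) (.rp 34 (.thr 29 17 (.thr 12 38 (.thr 63 46 (.thr 42 0 (.dbl 59 8 55))))) (.rp 29 (.thr 38 12 (.thr 35 44 (.thr 3 19 (.thr 55 4 (.thr 63 59 (.thr 23 43 (.dbl 22 20 60))))))) (.rp 17 (.thr 38 12 (.thr 35 44 (.thr 3 19 (.thr 55 4 (.thr 63 59 (.thr 23 43 (.dbl 22 20 60))))))) (.rp 12 (.thr 17 29 (.thr 0 34 (.thr 63 42 (.thr 55 59 (.thr 38 4 (.thr 35 44 (.thr 3 19 (.thr 23 43 (.dbl 22 20 60))))))))) .nd)))))))) (.rp 5 (.str 28 (.nv (.thr 22 19 (.thr 57 9 (.thr 60 3 (.thr 12 44 (.dbl 51 38 54))))) (.nv (.thr 29 17 (.thr 31 30 (.thr 16 26 (.thr 22 19 (.dbl 20 23 24)))))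 (.rp 22 (.thr 29 17 (.thr 9 57 (.thr 31 30 (.thr 26 16 (.thr 27 24 (.thr 11 56 (.thr 8 10 (.dbl 59 42 43)))))))) (.rp 19 (.thr 29 17 (.thr 57 9 (.thr 31 30 (.thr 16 26 (.thr 20 24 (.thr 22 23 (.thr 60 3 (.thr 12 44 (.dbl 51 38 54))))))))) .nd))))) .nd))))))))))))

theorem w189 : WinAt (2199025352706, 2305844108725321732) :=
  chF (K := []) kn c189 2199025352706 2305844108725321732 61
    [] (by decide +kernel) (by decide +kernel)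

/-- A certificate. -/
noncomputable def c190 : Ct := (.str 37 (.nv (.thr 33 45 (.thr 5 53 (.thr 1 61 (.thr 13 9 (.dbl 49 17 25))))) (.rp 62 (.str 22 (.nv (.thr 3 60 (.thr 7 52 (.thr 15 11 (.thr 33 45 (.dbl 48 18 26))))) (.nv (.thr 1 61 (.thr 5 53 (.thr 13 9 (.thr 33 45 (.dbl 49 17 25))))) (.nv (.thr 20 23 (.thr 52 7 (.thr 4 36 (.thr 53 5 (.dbl 55 38 54))))) .nd)))) (.rp 61 (.str 22 (.nv (.thr 3 60 (.thr 23 20 (.thr 33 45 (.thr 48 18 (.thr 53 5 (.dbl 63 43 58)))))) (.nv (.thr 3 60 (.thr 7 52 (.thr 15 11 (.thr 33 45 (.dbl 48 18 26))))) (.nv (.thr 20 23 (.thr 52 7 (.thr 4 36 (.thr 53 5 (.dbl 55 38 54))))) .nd)))) (.rp 57 (.thr 33 45 (.thr 5 53 (.thr 1 61 (.thr 49 17 (.dbl 13 9 25))))) (.rp 53 (.thr 33 45 (.str 22 (.nv (.thr 3 60 (.thr 48 18 (.thr 15 26 (.dbl 7 11 52)))) (.nv (.thr 7 52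 (.thr 3 60 (.thr 15 11 (.dbl 48 18 26)))) (.rp 60 (.thr 23 20 (.thr 7 52 (.thr 55 39 (.thr 4 38 (.thr 5 6 (.thr 1 61 (.thr 49 17 (.dbl 13 9 25)))))))) (.rp 52 (.thr 3 60 (.thr 48 18 (.thr 1 61 (.thr 49 17 (.thr 13 25 (.thr 9 5 (.thr 12 6 (.dbl 15 14 26)))))))) (.rp 48 (.thr 20 23 (.thr 52 7 (.thr 4 36 (.thr 60 3 (.thr 0 40 (.thr 12 8 (.thr 44 28 (.dbl 38 35 55)))))))) (.rp 26 (.thr 20 23 (.thr 52 7 (.thr 36 4 (.thr 3 60 (.thr 48 18 (.thr 12 24 (.thr 6 9 (.dbl 38 39 54)))))))) (.rp 18 (.thr 20 23 (.thr 52 7 (.thr 60 3 (.thr 48 56 (.thr 0 40 (.thr 16 32 (.dbl 26 15 31))))))) (.rp 15 (.thr 23 20 (.thr 7 52 (.thr 55 39 (.thr 4 38 (.thr 5 6 (.thr 1 61 (.thr 49 17 (.dbl 13 9 25)))))))) (.rp 11 (.thr 20 23 (.thr 52 7 (.thr 36 4 (.thr 3 60 (.thr 48 18 (.thr 12 24 (.thr 6 9 (.dbl 38 39 54))))))))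 (.rp 7 (.thr 3 60 (.thr 48 18 (.thr 1 61 (.thr 49 17 (.thr 13 25 (.thr 9 5 (.thr 15 26 (.dbl 12 6 14)))))))) (.rp 3 (.thr 23 20 (.thr 7 52 (.thr 55 39 (.thr 4 38 (.thr 5 6 (.thr 1 61 (.thr 49 17 (.dbl 13 9 25)))))))) .nd))))))))))))) (.rp 49 (.str 22 (.nv (.thr 3 60 (.thr 23 20 (.thr 33 45 (.thr 48 18 (.thr 53 5 (.dbl 63 43 58)))))) (.nv (.thr 3 60 (.thr 7 52 (.thr 15 11 (.thr 33 45 (.dbl 48 18 26))))) (.nv (.thr 53 5 (.thr 20 23 (.thr 52 7 (.thr 4 36 (.dbl 55 38 54))))) .nd)))) (.rp 45 (.str 22 (.nv (.thr 1 61 (.thr 3 60 (.thr 5 53 (.thr 7 52 (.thr 6 4 (.dbl 9 12 13)))))) (.nv (.thr 20 23 (.thr 52 7 (.thr 4 36 (.thr 53 5 (.dbl 55 38 54))))) (.rp 55 (.thr 53 5 (.thr 60 3 (.thr 52 7 (.thr 48 56 (.thr 63 58 (.dbl 61 1 62)))))) (.rp 54 (.thr 5 53 (.thr 23 20 (.thr 7 52 (.thr 55 39 (.dbl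 4 6 38))))) (.rp 53 (.thr 60 3 (.thr 52 7 (.thr 48 56 (.thr 20 23 (.thr 0 40 (.thr 16 32 (.dbl 26 15 31))))))) (.rp 52 (.thr 53 5 (.thr 3 60 (.thr 23 20 (.thr 63 43 (.thr 48 58 (.thr 18 33 (.dbl 26 15 30))))))) (.rp 36 (.thr 5 53 (.thr 7 52 (.thr 4 6 (.thr 23 20 (.dbl 55 38 39))))) (.rp 20 (.thr 53 5 (.thr 61 1 (.thr 57 49 (.thr 52 7 (.thr 54 55 (.dbl 60 3 51)))))) (.rp 7 (.thr 53 5 (.thr 3 60 (.thr 23 20 (.thr 63 43 (.thr 48 58 (.thr 18 33 (.dbl 26 15 30))))))) (.rp 5 (.thr 60 3 (.thr 52 7 (.thr 48 56 (.thr 20 23 (.thr 0 40 (.thr 16 32 (.dbl 26 15 31))))))) (.rp 4 (.thr 5 53 (.thr 60 3 (.thr 52 7 (.thr 48 56 (.thr 20 23 (.thr 0 40 (.dbl 15 10 26))))))) .nd)))))))))))) (.rp 33 (.str 22 (.nv (.thr 1 61 (.thr 3 60 (.thr 5 53 (.thr 9 13 (.thr 6 12 (.dbl 7 4 52)))))) (.nv (.thr 53 5 (.thr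 20 23 (.thr 52 7 (.thr 4 36 (.dbl 55 38 54))))) (.rp 53 (.thr 20 23 (.thr 52 7 (.thr 60 3 (.thr 48 56 (.thr 0 40 (.thr 16 32 (.dbl 26 15 31))))))) (.rp 52 (.thr 5 53 (.thr 20 23 (.thr 60 3 (.thr 0 40 (.thr 15 10 (.thr 30 45 (.dbl 26 18 48))))))) (.rp 7 (.thr 5 53 (.thr 20 23 (.thr 60 3 (.thr 0 40 (.thr 15 10 (.thr 30 45 (.dbl 26 18 48))))))) (.rp 5 (.thr 20 23 (.thr 52 7 (.thr 60 3 (.thr 48 56 (.thr 0 40 (.thr 16 32 (.dbl 26 15 31))))))) (.rp 4 (.thr 5 53 (.thr 20 23 (.thr 52 7 (.thr 60 3 (.thr 48 56 (.thr 0 40 (.dbl 15 10 26))))))) .nd)))))))) (.rp 25 (.thr 45 33 (.thr 5 53 (.str 22 (.nv (.thr 52 7 (.thr 60 3 (.thr 15 30 (.dbl 48 26 56)))) (.nv (.thr 20 23 (.thr 60 3 (.thr 0 40 (.dbl 15 10 30)))) (.nv (.thr 23 20 (.thr 7 52 (.thr 55 39 (.dbl 4 6 38)))) (.rp 59 (.str 8 (.nv (.thr 1 61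 (.thr 9 13 (.thr 10 11 (.thr 15 0 (.dbl 60 3 30))))) (.nv (.thr 23 20 (.thr 7 52 (.thr 55 39 (.dbl 4 6 38)))) .nd))) (.rp 8 (.str 59 (.nv (.thr 52 7 (.thr 60 3 (.thr 15 30 (.dbl 48 26 56)))) (.nv (.thr 20 23 (.thr 60 3 (.thr 0 40 (.dbl 15 10 30)))) (.nv (.thr 23 20 (.thr 7 52 (.thr 55 39 (.dbl 4 6 38)))) .nd)))) .nd)))))))) (.rp 22 (.str 62 (.nv (.thr 33 45 (.thr 5 53 (.thr 1 61 (.thr 13 9 (.dbl 49 17 25))))) (.rp 61 (.str 48 (.nv (.thr 33 45 (.thr 53 5 (.thr 58 63 (.thr 50 54 (.thr 49 51 (.thr 17 1 (.dbl 25 13 29))))))) (.nv (.thr 26 15 (.thr 16 31 (.thr 0 32 (.thr 33 45 (.thr 18 3 (.thr 17 19 (.thr 49 1 (.dbl 25 13 29)))))))) (.nv (.thr 53 5 (.thr 58 63 (.thr 54 50 (.thr 52 55 (.thr 56 60 (.dbl 26 11 15)))))) (.rp 63 (.thr 45 33 (.thr 53 5 (.thr 26 15 (.thr 56 11 (.thr 52 60 (.thr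 55 54 (.thr 38 4 (.thr 14 50 (.thr 46 30 (.dbl 44 35 47)))))))))) (.rp 60 (.thr 53 5 (.thr 58 63 (.thr 50 54 (.thr 51 49 (.thr 26 15 (.thr 38 14 (.thr 12 25 (.dbl 36 24 39)))))))) (.rp 51 (.thr 53 5 (.thr 58 63 (.thr 54 50 (.thr 26 15 (.thr 56 11 (.dbl 52 55 60)))))) .nd))))))) (.rp 57 (.thr 33 45 (.thr 5 53 (.thr 1 61 (.thr 49 17 (.dbl 13 9 25))))) (.rp 53 (.thr 45 33 (.thr 61 1 (.thr 29 13 (.thr 60 63 (.thr 30 15 (.thr 14 46 (.thr 31 28 (.thr 26 16 (.thr 38 50 (.thr 4 55 (.thr 36 39 (.thr 56 11 (.dbl 52 20 48))))))))))))) (.rp 49 (.str 48 (.nv (.thr 26 15 (.thr 56 11 (.thr 60 52 (.dbl 61 1 63)))) (.nv (.thr 53 5 (.thr 63 58 (.dbl 61 1 60))) (.rp 63 (.thr 45 33 (.thr 53 5 (.thr 26 15 (.thr 56 11 (.thr 52 60 (.thr 55 54 (.thr 38 4 (.thr 14 50 (.thr 46 30 (.dbl 44 35 47)))))))))) (.rp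 61 (.thr 53 5 (.thr 58 63 (.thr 54 50 (.thr 52 55 (.thr 56 60 (.dbl 26 11 15)))))) (.rp 60 (.thr 53 5 (.thr 58 63 (.thr 50 54 (.thr 26 15 (.thr 38 14 (.thr 36 39 (.thr 44 35 (.thr 32 40 (.dbl 16 0 31))))))))) (.rp 26 (.thr 53 5 (.thr 61 1 (.dbl 63 58 60))) (.rp 1 (.thr 53 5 (.thr 63 58 (.thr 60 61 (.thr 56 52 (.dbl 26 11 15))))) .nd)))))))) (.rp 45 (.thr 53 5 (.thr 61 1 (.thr 57 49 (.thr 60 63 (.thr 54 51 (.thr 50 58 (.thr 55 52 (.thr 38 4 (.thr 26 14 (.thr 36 39 (.thr 44 35 (.thr 12 28 (.dbl 48 15 24))))))))))))) (.rp 33 (.thr 53 5 (.thr 61 1 (.thr 49 57 (.thr 13 25 (.thr 29 45 (.thr 63 60 (.thr 48 58 (.thr 12 46 (.dbl 15 14 26))))))))) (.rp 25 (.thr 45 33 (.thr 61 1 (.thr 29 13 (.thr 63 60 (.thr 46 12 (.thr 14 30 (.thr 44 47 (.thr 38 35 (.thr 26 50 (.thr 48 15 (.dbl 53 5 58)))))))))))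 (.rp 17 (.thr 45 33 (.thr 53 5 (.thr 61 1 (.thr 49 57 (.dbl 13 25 29))))) (.rp 13 (.str 15 (.nv (.thr 26 48 (.thr 31 16 (.thr 61 1 (.dbl 63 47 60)))) (.nv (.thr 45 33 (.thr 60 30 (.dbl 61 1 63))) (.rp 63 (.thr 45 33 (.thr 30 60 (.thr 14 46 (.thr 26 48 (.thr 38 50 (.thr 39 36 (.thr 55 4 (.thr 7 23 (.dbl 11 3 56))))))))) (.rp 61 (.thr 45 33 (.thr 30 60 (.thr 46 14 (.thr 47 44 (.thr 31 63 (.dbl 26 16 48)))))) (.rp 60 (.thr 53 5 (.thr 45 33 (.thr 26 48 (.thr 31 16 (.thr 47 63 (.thr 44 46 (.thr 38 35 (.thr 50 14 (.thr 54 58 (.dbl 55 4 52)))))))))) (.rp 26 (.thr 45 33 (.thr 61 1 (.dbl 60 30 63))) (.rp 1 (.thr 45 33 (.thr 60 30 (.thr 63 61 (.thr 31 47 (.dbl 26 16 48))))) .nd)))))))) (.rp 9 (.thr 45 33 (.thr 53 5 (.thr 61 1 (.thr 13 29 (.dbl 49 25 57))))) (.rp 5 (.thr 45 33 (.thr 61 1 (.thr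 13 29 (.thr 49 25 (.thr 57 53 (.thr 60 63 (.thr 51 54 (.thr 48 50 (.dbl 15 26 30))))))))) (.rp 1 (.str 48 (.nv (.thr 53 5 (.thr 58 63 (.thr 50 54 (.thr 49 51 (.thr 57 61 (.dbl 25 9 13)))))) (.nv (.thr 15 26 (.thr 45 33 (.thr 30 60 (.thr 14 46 (.thr 13 12 (.thr 29 61 (.dbl 25 17 49))))))) (.nv (.thr 26 15 (.thr 56 11 (.thr 60 52 (.thr 63 61 (.dbl 53 5 58))))) (.rp 61 (.thr 53 5 (.thr 58 63 (.thr 54 50 (.thr 52 55 (.thr 56 60 (.dbl 26 11 15)))))) (.rp 58 (.thr 45 33 (.thr 53 5 (.thr 26 15 (.thr 56 11 (.thr 60 52 (.thr 61 63 (.thr 49 57 (.dbl 13 25 29)))))))) (.rp 3 (.str 0 (.nv (.thr 5 53 (.dbl 15 10 26)) (.nv (.thr 16 32 (.dbl 26 15 31)) (.rp 26 (.thr 53 5 (.thr 58 63 (.thr 50 54 (.thr 49 51 (.thr 57 61 (.dbl 25 9 13)))))) (.rp 15 (.thr 16 32 (.thr 53 5 (.thr 63 58 (.thr 60 61 (.thr 56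 52 (.dbl 26 11 31)))))) .nd))))) (.rp 0 (.str 3 (.nv (.dbl 33 18 45) (.rp 45 (.thr 53 5 (.thr 63 58 (.thr 60 61 (.thr 56 52 (.dbl 26 11 15))))) (.rp 33 (.thr 53 5 (.thr 63 58 (.thr 60 61 (.thr 56 52 (.dbl 26 11 15))))) (.rp 18 (.thr 45 33 (.thr 53 5 (.thr 63 58 (.thr 60 61 (.dbl 15 26 30))))) .nd))))) .nd)))))))) .nd)))))))))))))) (.rp 17 (.thr 45 33 (.thr 53 5 (.thr 61 1 (.thr 49 57 (.dbl 13 25 29))))) (.rp 13 (.str 22 (.nv (.thr 3 60 (.thr 23 20 (.thr 33 45 (.thr 48 18 (.thr 53 5 (.dbl 63 43 58)))))) (.nv (.thr 3 60 (.thr 7 52 (.thr 15 11 (.thr 33 45 (.dbl 48 18 26))))) (.nv (.thr 5 53 (.thr 23 20 (.thr 7 52 (.thr 55 39 (.dbl 4 6 38))))) .nd)))) (.rp 9 (.thr 45 33 (.thr 53 5 (.thr 61 1 (.thr 13 29 (.dbl 49 25 57))))) (.rp 5 (.thr 45 33 (.str 60 (.nv (.thr 15 30 (.thr 26 48 (.thr 31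 16 (.thr 61 1 (.dbl 63 47 62))))) (.nv (.thr 15 30 (.thr 26 48 (.thr 11 56 (.dbl 3 7 22)))) (.rp 62 (.thr 22 3 (.thr 15 30 (.thr 48 26 (.dbl 52 7 56)))) (.rp 48 (.thr 61 1 (.thr 13 29 (.thr 49 25 (.thr 57 53 (.thr 51 54 (.thr 15 30 (.thr 39 27 (.thr 38 36 (.thr 44 35 (.dbl 12 14 28)))))))))) (.rp 30 (.thr 22 3 (.thr 52 7 (.thr 48 56 (.thr 20 23 (.thr 0 40 (.thr 16 32 (.dbl 26 15 31))))))) (.rp 26 (.thr 61 1 (.thr 13 29 (.thr 49 25 (.thr 57 53 (.thr 51 54 (.thr 48 50 (.thr 52 56 (.dbl 22 3 7)))))))) (.rp 22 (.str 62 (.nv (.dbl 61 1 63) (.rp 63 (.thr 61 1 (.thr 13 29 (.thr 49 25 (.thr 57 53 (.thr 51 54 (.thr 48 50 (.dbl 15 26 30))))))) (.rp 61 (.thr 30 15 (.thr 46 14 (.thr 44 47 (.thr 12 28 (.thr 38 35 (.thr 25 51 (.dbl 29 17 63))))))) (.rp 1 (.thr 63 61 (.thr 15 30 (.thr 26 48 (.dbl 31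 16 47)))) .nd))))) (.rp 18 (.thr 15 30 (.thr 48 26 (.thr 22 3 (.dbl 52 7 56)))) (.rp 15 (.thr 61 1 (.thr 13 29 (.thr 49 25 (.thr 57 53 (.thr 51 54 (.thr 48 50 (.thr 52 56 (.dbl 22 3 7)))))))) (.rp 3 (.thr 15 30 (.thr 48 26 (.thr 52 56 (.thr 22 7 (.thr 20 23 (.thr 0 40 (.thr 16 32 (.thr 24 28 (.dbl 36 4 12))))))))) .nd)))))))))))) (.rp 1 (.thr 33 45 (.thr 5 53 (.str 22 (.nv (.thr 3 60 (.thr 48 18 (.thr 15 26 (.dbl 7 11 52)))) (.nv (.thr 23 20 (.thr 7 52 (.thr 55 39 (.dbl 4 6 38)))) (.rp 52 (.thr 3 60 (.thr 48 18 (.thr 23 20 (.thr 15 26 (.thr 7 11 (.thr 4 6 (.dbl 55 38 39))))))) (.rp 7 (.thr 20 23 (.thr 60 3 (.thr 0 40 (.thr 15 10 (.thr 26 48 (.thr 18 30 (.thr 16 31 (.thr 28 24 (.dbl 19 17 25))))))))) (.rp 3 (.str 0 (.nv (.thr 20 23 (.thr 52 7 (.thr 60 40 (.thr 48 56 (.dbl 15 10 26)))))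 (.nv (.thr 23 20 (.thr 7 52 (.thr 55 39 (.dbl 4 6 38)))) (.rp 55 (.thr 20 23 (.thr 40 60 (.thr 15 10 (.thr 26 48 (.thr 56 11 (.thr 16 31 (.dbl 24 8 28))))))) (.rp 52 (.thr 20 23 (.thr 40 60 (.thr 15 10 (.thr 26 48 (.thr 56 11 (.thr 16 31 (.dbl 24 8 28))))))) (.rp 39 (.thr 7 52 (.thr 4 6 (.thr 12 8 (.thr 20 23 (.thr 60 40 (.thr 44 28 (.dbl 38 35 55))))))) (.rp 23 (.thr 7 52 (.thr 4 6 (.thr 12 8 (.thr 15 10 (.thr 14 13 (.thr 26 48 (.dbl 38 50 55))))))) (.rp 20 (.thr 7 52 (.thr 4 6 (.thr 12 8 (.thr 15 10 (.thr 14 13 (.thr 26 48 (.dbl 38 50 55))))))) (.rp 7 (.thr 20 23 (.thr 40 60 (.thr 15 10 (.thr 26 48 (.thr 56 11 (.thr 16 31 (.dbl 24 8 28))))))) .nd))))))))) .nd)))))))) .nd))))))))))))))))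

theorem w190 : WinAt (2199025352704, 4398046511108) :=
  chF (K := []) kn c190 2199025352704 4398046511108 42
    [4611690416478093316] (by decide +kernel) (by decide +kernel)

/-- A certificate. -/
noncomputable def c191 : Ct := (.str 37 (.nv (.thr 33 45 (.thr 5 53 (.thr 49 17 (.dbl 13 9 25)))) (.rp 53 (.thr 33 45 (.thr 49 17 (.thr 13 25 (.str 15 (.nv (.thr 48 26 (.thr 3 18 (.thr 7 11 (.dbl 22 52 60)))) (.nv (.thr 5 9 (.thr 26 48 (.thr 31 16 (.thr 63 47 (.dbl 0 10 42))))) (.nv (.thr 9 5 (.thr 12 14 (.thr 48 26 (.dbl 3 6 18)))) (.rp 48 (.thr 5 9 (.thr 14 12 (.thr 0 10 (.thr 63 42 (.thr 31 47 (.thr 26 16 (.thr 11 56 (.thr 38 50 (.thr 4 55 (.dbl 7 3 6)))))))))) (.rp 26 (.thr 5 9 (.thr 0 10 (.thr 42 63 (.thr 32 47 (.thr 48 16 (.thr 35 34 (.thr 44 38 (.thr 36 40 (.dbl 12 14 24)))))))))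 (.rp 18 (.thr 5 9 (.thr 0 10 (.thr 63 42 (.thr 31 47 (.dbl 26 16 48))))) .nd)))))))))) (.rp 49 (.thr 45 33 (.thr 53 5 (.str 15 (.nv (.thr 26 48 (.thr 11 56 (.thr 3 7 (.dbl 60 22 30)))) (.nv (.thr 48 26 (.thr 63 58 (.thr 42 0 (.dbl 47 31 32)))) (.rp 48 (.thr 60 30 (.thr 3 22 (.thr 11 7 (.thr 26 56 (.thr 31 16 (.thr 47 63 (.thr 44 46 (.thr 12 28 (.thr 38 35 (.dbl 14 13 50)))))))))) (.rp 26 (.thr 60 30 (.thr 22 3 (.thr 52 7 (.thr 55 54 (.thr 4 38 (.dbl 20 23 36)))))) .nd))))))) (.rp 45 (.thr 5 53 (.thr 13 9 (.thr 49 25 (.str 48 (.nv (.thr 15 26 (.thr 0 10 (.thr 32 16 (.dbl 42 47 63)))) (.nv (.thr 26 15 (.thr 33 17 (.thr 3 18 (.thr 60 22 (.dbl 56 11 52))))) (.nv (.thr 17 33 (.thr 51 50 (.thr 15 26 (.dbl 0 10 34)))) (.rp 26 (.thr 33 17 (.thr 3 18 (.thr 22 60 (.thr 7 52 (.thr 4 6 (.thr 55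 38 (.dbl 23 20 39))))))) (.rp 15 (.thr 33 17 (.thr 50 51 (.thr 3 18 (.thr 60 22 (.thr 56 52 (.thr 26 11 (.thr 16 31 (.thr 38 14 (.thr 35 44 (.dbl 32 0 34)))))))))) .nd))))))))) (.rp 33 (.str 7 (.nv (.thr 5 53 (.thr 9 13 (.thr 6 4 (.thr 3 12 (.dbl 22 52 60))))) (.nv (.thr 52 22 (.thr 53 5 (.thr 55 54 (.thr 38 4 (.dbl 39 23 36))))) (.rp 53 (.thr 22 52 (.thr 23 20 (.thr 55 39 (.thr 4 38 (.thr 5 6 (.thr 9 13 (.thr 57 25 (.thr 60 3 (.thr 51 54 (.thr 63 59 (.thr 0 42 (.thr 8 12 (.dbl 10 11 15))))))))))))) (.rp 52 (.thr 5 53 (.thr 9 13 (.thr 6 4 (.thr 3 12 (.thr 15 11 (.thr 0 10 (.thr 63 42 (.thr 31 47 (.dbl 26 16 48))))))))) (.rp 22 (.thr 5 53 (.thr 9 13 (.thr 6 4 (.thr 3 12 (.thr 15 11 (.thr 0 10 (.thr 42 63 (.thr 32 47 (.dbl 48 16 26))))))))) (.rp 5 (.thr 22 52 (.thr 23 20 (.thr 39 55 (.thr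 3 60 (.thr 15 11 (.thr 27 51 (.thr 31 19 (.dbl 26 16 48)))))))) (.rp 4 (.thr 5 53 (.thr 22 52 (.thr 3 60 (.thr 15 11 (.thr 0 10 (.thr 63 42 (.thr 31 47 (.dbl 26 16 48)))))))) .nd)))))))) (.rp 29 (.thr 5 53 (.thr 33 45 (.thr 13 9 (.dbl 49 17 25)))) (.rp 25 (.str 35 (.nv (.thr 33 45 (.thr 17 49 (.thr 34 32 (.thr 0 51 (.thr 38 44 (.dbl 42 46 63)))))) (.nv (.thr 33 45 (.thr 32 34 (.thr 42 47 (.thr 0 63 (.thr 48 16 (.thr 15 26 (.dbl 5 10 53))))))) (.nv (.thr 5 53 (.thr 38 44 (.thr 36 39 (.thr 4 55 (.thr 52 20 (.dbl 7 6 22)))))) (.rp 53 (.thr 33 45 (.thr 32 34 (.thr 42 47 (.thr 0 63 (.thr 48 16 (.thr 44 38 (.thr 40 36 (.thr 60 20 (.dbl 3 18 22))))))))) (.rp 44 (.thr 33 45 (.thr 17 49 (.thr 34 32 (.thr 51 0 (.thr 3 19 (.thr 48 18 (.thr 15 26 (.thr 7 11 (.dbl 22 52 60))))))))) .nd)))))) (.rp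 17 (.str 7 (.nv (.thr 33 45 (.thr 22 52 (.thr 3 60 (.thr 15 11 (.dbl 48 18 26))))) (.nv (.thr 52 22 (.thr 53 5 (.thr 55 54 (.thr 38 4 (.dbl 39 23 36))))) (.rp 62 (.thr 5 53 (.thr 9 13 (.thr 6 4 (.thr 3 12 (.dbl 22 52 60))))) (.rp 52 (.thr 5 53 (.thr 45 33 (.thr 9 13 (.thr 6 4 (.thr 3 12 (.thr 15 11 (.dbl 60 22 30))))))) (.rp 22 (.thr 5 53 (.thr 9 13 (.thr 6 4 (.thr 3 12 (.thr 15 11 (.thr 48 26 (.dbl 33 18 45))))))) .nd)))))) (.rp 13 (.thr 45 33 (.str 15 (.nv (.thr 5 53 (.thr 0 10 (.thr 60 30 (.thr 20 40 (.dbl 22 3 23))))) (.nv (.thr 53 5 (.thr 48 26 (.thr 63 58 (.thr 42 0 (.dbl 47 31 32))))) (.nv (.thr 26 48 (.thr 11 56 (.thr 60 30 (.dbl 3 7 22)))) .nd))))) (.rp 9 (.str 35 (.nv (.thr 33 45 (.thr 17 49 (.thr 34 32 (.thr 51 0 (.thr 38 44 (.dbl 25 12 29)))))) (.nv (.thr 33 45 (.thr 32 34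 (.thr 42 47 (.thr 0 63 (.thr 48 16 (.thr 15 26 (.dbl 5 10 53))))))) (.nv (.thr 5 53 (.thr 38 44 (.thr 36 39 (.thr 4 55 (.thr 52 20 (.dbl 7 6 22)))))) (.rp 53 (.thr 33 45 (.thr 32 34 (.thr 42 47 (.thr 0 63 (.thr 48 16 (.thr 44 38 (.thr 40 36 (.thr 60 20 (.dbl 3 18 22))))))))) (.rp 44 (.thr 33 45 (.thr 17 49 (.thr 34 32 (.thr 51 0 (.thr 3 19 (.thr 48 18 (.thr 15 26 (.thr 7 11 (.dbl 22 52 60))))))))) .nd)))))) (.rp 5 (.str 3 (.nv (.thr 33 45 (.thr 17 49 (.thr 18 48 (.thr 16 19 (.thr 26 31 (.dbl 22 30 60)))))) (.nv (.thr 45 33 (.thr 60 22 (.thr 15 30 (.thr 26 48 (.dbl 11 7 56))))) (.rp 60 (.thr 33 45 (.thr 49 17 (.thr 48 18 (.thr 15 26 (.thr 7 11 (.thr 22 52 (.thr 23 20 (.thr 39 55 (.dbl 51 27 50))))))))) (.rp 48 (.thr 45 33 (.thr 60 22 (.thr 15 30 (.thr 11 7 (.thr 26 56 (.thr 31 16 (.thr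 47 63 (.thr 44 46 (.thr 12 28 (.thr 38 35 (.dbl 14 13 50))))))))))) (.rp 45 (.thr 22 60 (.thr 7 52 (.thr 15 11 (.thr 23 20 (.thr 39 55 (.thr 27 51 (.thr 31 19 (.dbl 26 16 48)))))))) (.rp 33 (.thr 22 60 (.thr 7 52 (.thr 15 11 (.thr 23 20 (.thr 39 55 (.thr 27 51 (.thr 31 19 (.dbl 26 16 48)))))))) (.rp 30 (.thr 33 45 (.thr 48 18 (.thr 15 26 (.thr 22 60 (.dbl 7 11 52))))) (.rp 26 (.thr 33 45 (.thr 17 49 (.thr 18 48 (.thr 19 16 (.thr 22 60 (.dbl 25 28 29)))))) (.rp 22 (.thr 33 45 (.thr 49 17 (.thr 48 18 (.thr 50 51 (.thr 26 15 (.thr 16 31 (.thr 38 14 (.thr 35 44 (.dbl 32 0 34))))))))) .nd)))))))))) .nd))))))))))))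

theorem w191 : WinAt (2199025352706, 2305851805306716164) :=
  chF (K := []) kn c191 2199025352706 2305851805306716164 61
    [] (by decide +kernel) (by decide +kernel)

/-- A certificate. -/
noncomputable def c192 : Ct := (.str 63 (.nv (.thr 60 62 (.thr 3 22 (.thr 42 0 (.dbl 43 23 40)))) (.rp 62 (.thr 42 0 (.str 3 (.nv (.dbl 43 23 40) (.rp 43 (.str 11 (.nv (.thr 22 60 (.thr 26 56 (.thr 58 10 (.thr 48 53 (.dbl 18 30 33))))) (.nv (.thr 15 7 (.thr 26 56 (.dbl 31 16 47))) (.rp 56 (.thr 15 7 (.thr 47 31 (.thr 37 32 (.thr 53 5 (.dbl 48 26 58))))) (.rp 26 (.thr 15 7 (.thr 47 31 (.thr 37 32 (.thr 53 5 (.thr 57 49 (.thr 48 58 (.thr 60 22 (.thr 54 51 (.dbl 52 55 56))))))))) (.rp 15 (.thr 26 56 (.thr 10 58 (.thr 9 8 (.thr 12 6 (.thr 29 46 (.dbl 25 17 57)))))) .nd)))))) (.rp 40 (.thr 23 43 (.dbl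 22 20 60)) (.rp 23 (.str 11 (.nv (.thr 15 7 (.thr 43 40 (.thr 27 59 (.thr 39 51 (.dbl 47 31 35))))) (.nv (.thr 26 56 (.thr 10 58 (.thr 8 9 (.thr 43 40 (.dbl 59 25 27))))) (.nv (.thr 15 7 (.thr 26 56 (.dbl 31 16 47))) .nd)))) .nd)))))) (.rp 60 (.str 15 (.nv (.thr 0 42 (.thr 5 10 (.thr 37 53 (.thr 26 48 (.dbl 31 16 47))))) (.nv (.thr 31 47 (.thr 26 16 (.thr 11 56 (.thr 3 7 (.thr 43 23 (.dbl 42 0 40)))))) (.nv (.thr 31 47 (.thr 26 16 (.thr 48 37 (.thr 58 53 (.dbl 42 0 10))))) (.rp 48 (.thr 0 42 (.thr 5 10 (.thr 53 37 (.thr 57 49 (.thr 25 9 (.thr 17 29 (.thr 51 34 (.thr 55 59 (.dbl 38 4 12))))))))) (.rp 47 (.str 7 (.nv (.thr 0 42 (.thr 5 10 (.thr 11 3 (.thr 26 56 (.dbl 37 48 53))))) (.nv (.thr 3 11 (.thr 43 23 (.dbl 42 0 40))) (.rp 46 (.str 44 (.nv (.thr 3 11 (.thr 38 35 (.thr 55 4 (.dbl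 23 39 43)))) (.nv (.thr 0 42 (.thr 5 10 (.thr 38 35 (.dbl 4 6 55)))) (.nv (.thr 3 11 (.thr 43 23 (.dbl 42 0 40))) (.rp 43 (.thr 11 3 (.thr 0 42 (.thr 5 10 (.thr 37 53 (.dbl 26 48 56))))) .nd))))) (.rp 44 (.str 46 (.nv (.thr 0 42 (.thr 5 10 (.thr 12 29 (.dbl 4 6 8)))) (.nv (.thr 3 11 (.thr 43 23 (.dbl 42 0 40))) (.rp 42 (.thr 3 11 (.thr 23 43 (.thr 22 20 (.thr 37 52 (.thr 53 5 (.dbl 48 26 58)))))) (.rp 28 (.thr 12 29 (.thr 3 11 (.thr 43 23 (.dbl 42 0 40)))) (.rp 12 (.str 28 (.nv (.thr 0 42 (.thr 5 10 (.thr 11 3 (.thr 26 56 (.dbl 37 48 53))))) (.nv (.thr 3 11 (.thr 43 23 (.dbl 42 0 40))) (.rp 42 (.thr 3 11 (.thr 23 43 (.thr 39 55 (.thr 22 20 (.thr 19 25 (.dbl 27 31 51)))))) (.rp 11 (.thr 0 42 (.thr 5 10 (.thr 37 53 (.thr 22 52 (.thr 23 20 (.thr 55 39 (.dbl 4 6 38))))))) (.rp 3 (.thr 0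 42 (.thr 5 10 (.thr 37 53 (.thr 22 52 (.thr 23 20 (.thr 55 39 (.dbl 4 6 38))))))) (.rp 0 (.thr 3 11 (.thr 23 43 (.thr 39 55 (.thr 27 51 (.thr 19 31 (.dbl 22 20 25)))))) .nd))))))) (.rp 0 (.thr 3 11 (.thr 23 43 (.thr 39 55 (.thr 12 29 (.thr 9 6 (.thr 25 57 (.dbl 51 27 38))))))) .nd))))))) (.rp 42 (.thr 3 11 (.thr 23 43 (.thr 22 20 (.thr 37 52 (.thr 53 5 (.dbl 48 26 58)))))) (.rp 11 (.thr 0 42 (.thr 5 10 (.thr 37 53 (.thr 22 52 (.thr 23 20 (.thr 55 39 (.dbl 4 6 38))))))) (.rp 3 (.thr 0 42 (.thr 5 10 (.thr 37 53 (.thr 22 52 (.thr 23 20 (.thr 55 39 (.dbl 4 6 38))))))) (.rp 0 (.thr 3 11 (.thr 23 43 (.thr 39 55 (.thr 27 51 (.thr 31 19 (.thr 26 16 (.thr 48 37 (.thr 18 33 (.dbl 22 20 30))))))))) .nd))))))))) (.rp 42 (.thr 31 47 (.thr 26 16 (.thr 11 56 (.thr 3 7 (.thr 23 43 (.thr 22 20 (.thr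 18 30 (.dbl 48 33 37)))))))) (.rp 31 (.thr 0 42 (.thr 5 10 (.thr 53 37 (.thr 57 49 (.thr 25 9 (.thr 17 29 (.thr 51 34 (.thr 55 59 (.dbl 38 4 12))))))))) (.rp 26 (.str 23 (.nv (.thr 0 42 (.thr 3 43 (.thr 7 11 (.thr 22 20 (.thr 37 52 (.dbl 5 10 53)))))) (.nv (.thr 3 43 (.thr 7 11 (.thr 39 55 (.thr 27 51 (.dbl 31 19 47))))) (.rp 59 (.thr 31 47 (.thr 27 19 (.thr 39 51 (.thr 7 55 (.dbl 3 11 43))))) (.rp 43 (.thr 31 47 (.thr 19 27 (.thr 22 20 (.thr 25 28 (.thr 57 9 (.thr 53 49 (.thr 5 37 (.dbl 0 10 42)))))))) (.rp 27 (.thr 47 31 (.thr 43 3 (.thr 0 42 (.thr 39 35 (.thr 55 7 (.thr 38 4 (.thr 37 36 (.dbl 5 10 53)))))))) (.rp 11 (.thr 47 31 (.thr 43 3 (.thr 0 42 (.thr 39 35 (.thr 55 7 (.dbl 51 27 59)))))) (.rp 7 (.thr 31 47 (.thr 27 19 (.thr 51 39 (.thr 59 55 (.dbl 43 3 11))))) (.rp 3 (.thr 0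 42 (.thr 31 47 (.thr 19 27 (.thr 22 20 (.thr 25 28 (.thr 57 9 (.thr 53 49 (.dbl 5 10 37)))))))) .nd))))))))) (.rp 16 (.thr 0 42 (.thr 5 10 (.thr 53 37 (.thr 57 49 (.thr 25 9 (.thr 17 29 (.thr 51 34 (.thr 55 59 (.dbl 38 4 12))))))))) (.rp 0 (.str 3 (.nv (.thr 7 11 (.thr 23 43 (.thr 39 55 (.thr 27 51 (.dbl 31 19 47))))) (.nv (.thr 31 47 (.thr 11 7 (.dbl 26 16 56))) (.rp 47 (.thr 11 7 (.thr 23 43 (.thr 26 56 (.thr 48 37 (.thr 18 33 (.dbl 22 20 30)))))) (.rp 40 (.str 20 (.nv (.thr 11 7 (.thr 26 56 (.dbl 31 16 47))) (.nv (.dbl 23 22 43) .nd))) (.rp 31 (.thr 7 11 (.thr 23 43 (.thr 55 39 (.thr 38 4 (.thr 35 44 (.dbl 51 19 59)))))) (.rp 20 (.str 40 (.nv (.thr 11 7 (.thr 26 56 (.dbl 31 16 47))) (.nv (.dbl 43 23 42) .nd))) (.rp 11 (.thr 47 31 (.thr 43 23 (.thr 35 39 (.thr 38 44 (.thr 55 4 (.dbl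 51 19 59)))))) (.rp 7 (.thr 31 47 (.thr 23 43 (.thr 26 16 (.thr 48 37 (.thr 18 33 (.dbl 22 20 30)))))) .nd))))))))) .nd))))))))))) (.rp 43 (.thr 60 62 (.thr 22 3 (.thr 0 42 (.dbl 20 23 40)))) (.rp 42 (.str 3 (.nv (.dbl 60 22 62) (.rp 62 (.thr 22 60 (.dbl 23 20 43)) (.rp 60 (.thr 23 43 (.str 15 (.nv (.thr 22 20 (.thr 31 47 (.thr 26 16 (.thr 18 30 (.dbl 48 33 37))))) (.nv (.thr 7 11 (.thr 55 39 (.thr 38 4 (.thr 35 44 (.dbl 51 19 59))))) (.nv (.thr 11 7 (.thr 26 56 (.dbl 31 16 47))) (.rp 47 (.thr 7 11 (.thr 22 20 (.thr 37 52 (.thr 53 5 (.dbl 48 26 58))))) (.rp 22 (.str 62 (.nv (.thr 7 11 (.thr 55 39 (.thr 38 4 (.thr 35 44 (.dbl 51 19 59))))) (.nv (.thr 11 7 (.thr 26 56 (.dbl 31 16 47))) (.rp 47 (.thr 11 7 (.thr 26 56 (.thr 31 16 (.thr 27 19 (.thr 25 24 (.thr 57 9 (.thr 53 49 (.dbl 37 5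 48)))))))) (.rp 11 (.thr 31 47 (.thr 27 19 (.thr 39 51 (.thr 55 7 (.thr 38 4 (.thr 37 36 (.dbl 26 16 48))))))) (.rp 7 (.thr 31 47 (.thr 27 19 (.thr 26 16 (.thr 25 24 (.thr 57 9 (.thr 53 49 (.dbl 37 5 48))))))) .nd)))))) .nd))))))) (.rp 22 (.thr 62 60 (.str 15 (.nv (.thr 7 11 (.thr 23 43 (.thr 39 55 (.thr 27 51 (.dbl 31 19 47))))) (.nv (.thr 11 7 (.thr 26 56 (.dbl 31 16 47))) (.rp 47 (.thr 43 23 (.thr 11 7 (.thr 59 27 (.thr 55 51 (.thr 56 26 (.thr 58 57 (.thr 54 50 (.dbl 53 48 52)))))))) (.rp 31 (.thr 23 43 (.thr 7 11 (.thr 55 39 (.thr 38 4 (.thr 35 44 (.dbl 51 19 59)))))) (.rp 11 (.thr 47 31 (.thr 43 23 (.thr 35 39 (.thr 38 44 (.thr 55 4 (.dbl 51 19 59)))))) (.rp 7 (.thr 31 47 (.thr 23 43 (.thr 27 19 (.thr 26 16 (.thr 25 24 (.thr 57 9 (.thr 53 49 (.dbl 37 5 48)))))))) .nd)))))))) .nd)))))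 (.rp 40 (.str 15 (.nv (.thr 0 42 (.thr 5 10 (.thr 37 53 (.thr 26 48 (.thr 11 56 (.thr 3 7 (.dbl 60 22 62))))))) (.nv (.thr 31 47 (.thr 26 16 (.thr 11 56 (.thr 3 7 (.dbl 60 22 62))))) (.nv (.thr 31 47 (.thr 26 16 (.thr 37 48 (.thr 5 53 (.dbl 0 10 42))))) (.rp 26 (.thr 47 31 (.thr 60 62 (.thr 3 22 (.thr 42 0 (.thr 43 23 (.thr 39 35 (.thr 11 7 (.dbl 27 51 59)))))))) (.rp 3 (.thr 0 42 (.thr 31 47 (.thr 5 10 (.thr 37 53 (.dbl 26 16 48))))) (.rp 0 (.str 3 (.nv (.thr 11 7 (.thr 26 56 (.dbl 31 16 47))) (.nv (.dbl 60 22 62) (.rp 60 (.str 20 (.nv (.thr 11 7 (.thr 26 56 (.dbl 31 16 47))) (.nv (.dbl 23 22 43) .nd))) .nd)))) .nd))))))) (.rp 23 (.str 53 (.nv (.thr 0 42 (.thr 57 49 (.thr 25 9 (.thr 17 29 (.thr 51 34 (.dbl 60 54 62)))))) (.nv (.thr 57 49 (.thr 58 48 (.thr 59 56 (.thr 51 55 (.dbl 60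 54 62))))) (.nv (.thr 0 42 (.thr 37 5 (.thr 48 58 (.thr 16 32 (.dbl 26 15 31))))) (.rp 62 (.thr 37 5 (.thr 48 58 (.thr 15 26 (.thr 47 31 (.dbl 42 0 32))))) (.rp 0 (.str 3 (.nv (.dbl 60 22 62) (.rp 62 (.thr 37 5 (.thr 22 60 (.thr 7 52 (.thr 15 11 (.dbl 48 26 58))))) (.rp 60 (.thr 49 57 (.thr 48 58 (.thr 51 50 (.thr 35 19 (.thr 38 44 (.dbl 55 4 59)))))) (.rp 22 (.thr 57 49 (.thr 58 48 (.thr 59 56 (.thr 51 55 (.dbl 60 54 62))))) .nd))))) .nd)))))) (.rp 22 (.str 53 (.nv (.thr 57 49 (.thr 58 48 (.thr 59 56 (.thr 51 55 (.dbl 60 54 62))))) (.nv (.thr 0 42 (.thr 62 60 (.thr 48 58 (.thr 16 32 (.thr 26 31 (.dbl 37 5 15)))))) (.rp 62 (.thr 42 0 (.str 3 (.nv (.dbl 43 23 40) (.rp 43 (.thr 37 5 (.thr 47 32 (.thr 15 31 (.dbl 48 26 58)))) (.rp 40 (.thr 37 5 (.thr 47 32 (.thr 15 31 (.dbl 48 26 58))))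 (.rp 23 (.thr 37 5 (.thr 47 32 (.thr 15 31 (.dbl 48 26 58)))) .nd)))))) (.rp 60 (.thr 37 5 (.thr 48 58 (.thr 15 26 (.thr 47 31 (.dbl 42 0 32))))) (.rp 58 (.thr 57 49 (.thr 25 9 (.thr 17 29 (.thr 62 60 (.thr 0 42 (.thr 51 34 (.thr 55 59 (.dbl 38 4 12)))))))) (.rp 48 (.thr 57 49 (.thr 25 9 (.thr 17 29 (.thr 62 60 (.thr 0 42 (.thr 51 34 (.thr 55 59 (.dbl 38 4 12)))))))) (.rp 42 (.thr 62 60 (.thr 57 49 (.thr 25 9 (.thr 58 48 (.thr 56 59 (.thr 26 11 (.thr 50 54 (.thr 38 14 (.thr 12 51 (.dbl 29 17 46)))))))))) (.rp 0 (.str 3 (.nv (.thr 37 5 (.thr 43 23 (.thr 48 58 (.thr 15 26 (.thr 47 31 (.dbl 42 32 40)))))) (.nv (.thr 57 49 (.thr 58 48 (.thr 59 56 (.thr 51 55 (.dbl 60 54 62))))) (.rp 62 (.str 42 (.nv (.dbl 43 23 40) (.rp 43 (.thr 37 5 (.thr 47 32 (.thr 15 31 (.dbl 48 26 58)))) (.rp 40 (.thr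 37 5 (.thr 47 32 (.thr 15 31 (.dbl 48 26 58)))) (.rp 23 (.thr 37 5 (.thr 47 32 (.thr 15 31 (.dbl 48 26 58)))) .nd))))) (.rp 58 (.thr 37 5 (.thr 43 23 (.thr 42 40 (.thr 47 32 (.thr 15 31 (.thr 11 7 (.dbl 26 48 56))))))) (.rp 48 (.thr 57 49 (.thr 25 9 (.thr 43 23 (.thr 60 62 (.thr 42 40 (.thr 51 54 (.dbl 59 8 55))))))) (.rp 42 (.thr 62 60 (.thr 49 57 (.thr 48 58 (.thr 51 50 (.thr 35 19 (.thr 38 44 (.dbl 55 4 59))))))) (.rp 32 (.thr 49 57 (.thr 48 58 (.thr 51 50 (.thr 35 19 (.thr 38 44 (.dbl 55 4 59)))))) .nd)))))))) .nd))))))))) (.rp 3 (.thr 0 42 (.str 53 (.nv (.thr 57 49 (.thr 25 9 (.thr 17 29 (.thr 51 34 (.dbl 60 54 62))))) (.nv (.thr 48 58 (.thr 16 32 (.thr 26 31 (.dbl 37 5 15)))) (.rp 62 (.str 22 (.nv (.thr 20 23 (.thr 57 49 (.thr 25 9 (.thr 17 29 (.thr 60 40 (.dbl 51 34 54)))))) (.nv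 (.thr 48 58 (.thr 16 32 (.thr 26 31 (.dbl 37 5 15)))) (.rp 54 (.thr 37 5 (.thr 52 7 (.thr 20 23 (.thr 60 40 (.dbl 48 56 58))))) (.rp 5 (.thr 20 23 (.thr 60 40 (.thr 57 49 (.thr 54 51 (.thr 55 52 (.dbl 38 4 6)))))) .nd))))) (.rp 22 (.thr 62 60 (.thr 37 5 (.thr 48 58 (.thr 16 32 (.dbl 26 15 31))))) (.rp 5 (.thr 57 49 (.thr 58 48 (.thr 59 56 (.thr 51 55 (.dbl 60 54 62))))) .nd))))))) (.rp 0 (.str 3 (.nv (.dbl 60 22 62) (.rp 62 (.thr 23 43 (.dbl 22 20 60)) (.rp 60 (.str 15 (.nv (.thr 7 11 (.thr 23 43 (.thr 39 55 (.thr 27 51 (.dbl 31 19 47))))) (.nv (.thr 31 47 (.thr 11 7 (.dbl 26 16 56))) (.rp 47 (.thr 11 7 (.thr 23 43 (.thr 26 56 (.thr 48 37 (.thr 18 33 (.dbl 22 20 30)))))) (.rp 40 (.str 20 (.nv (.thr 11 7 (.thr 26 56 (.dbl 31 16 47))) (.nv (.dbl 23 22 43) .nd))) (.rp 31 (.thr 7 11 (.thr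 23 43 (.thr 55 39 (.thr 38 4 (.thr 35 44 (.dbl 51 19 59)))))) (.rp 20 (.str 40 (.nv (.thr 11 7 (.thr 26 56 (.dbl 31 16 47))) (.nv (.dbl 43 23 42) .nd))) (.rp 11 (.thr 47 31 (.thr 43 23 (.thr 35 39 (.thr 38 44 (.thr 55 4 (.dbl 51 19 59)))))) (.rp 7 (.thr 31 47 (.thr 23 43 (.thr 26 16 (.thr 48 37 (.thr 18 33 (.dbl 22 20 30)))))) .nd))))))))) (.rp 22 (.str 53 (.nv (.thr 37 5 (.thr 43 23 (.thr 48 58 (.thr 15 26 (.thr 47 31 (.dbl 42 32 40)))))) (.nv (.thr 57 49 (.thr 58 48 (.thr 59 56 (.thr 51 55 (.dbl 60 54 62))))) (.rp 62 (.str 42 (.nv (.dbl 43 23 40) (.rp 43 (.thr 37 5 (.thr 47 32 (.thr 15 31 (.dbl 48 26 58)))) (.rp 40 (.thr 37 5 (.thr 47 32 (.thr 15 31 (.dbl 48 26 58)))) (.rp 23 (.thr 37 5 (.thr 47 32 (.thr 15 31 (.dbl 48 26 58)))) .nd))))) (.rp 58 (.thr 37 5 (.thr 43 23 (.thr 42 40 (.thr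 47 32 (.thr 15 31 (.thr 11 7 (.dbl 26 48 56))))))) (.rp 48 (.thr 57 49 (.thr 25 9 (.thr 43 23 (.thr 60 62 (.thr 42 40 (.thr 51 54 (.dbl 59 8 55))))))) (.rp 42 (.thr 62 60 (.thr 49 57 (.thr 48 58 (.thr 51 50 (.thr 35 19 (.thr 38 44 (.dbl 55 4 59))))))) (.rp 32 (.thr 49 57 (.thr 48 58 (.thr 51 50 (.thr 35 19 (.thr 38 44 (.dbl 55 4 59)))))) .nd)))))))) .nd))))) .nd)))))))))))

theorem w192 : WinAt (2305845208239046656, 35184372088838) :=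
  chF (K := []) kn c192 2305845208239046656 35184372088838 1
    [15] (by decide +kernel) (by decide +kernel)

/-- A certificate. -/
noncomputable def c193 : Ct := (.str 37 (.nv (.thr 5 53 (.thr 13 9 (.thr 49 25 (.dbl 33 17 45)))) (.rp 57 (.thr 33 45 (.thr 5 53 (.thr 49 17 (.dbl 13 9 25)))) (.rp 53 (.thr 33 45 (.thr 49 17 (.thr 13 25 (.thr 5 9 (.str 42 (.nv (.thr 0 63 (.thr 15 10 (.thr 48 26 (.dbl 32 16 47)))) (.nv (.thr 40 43 (.thr 32 47 (.thr 44 36 (.dbl 35 34 38)))) (.rp 47 (.str 44 (.nv (.thr 0 63 (.thr 15 10 (.thr 40 43 (.thr 60 20 (.dbl 12 14 28))))) (.nv (.thr 0 63 (.thr 15 10 (.thr 35 38 (.thr 32 34 (.dbl 48 16 26))))) (.nv (.thr 40 43 (.thr 36 32 (.dbl 38 35 39))) (.rp 35 (.thr 0 63 (.thr 15 10 (.thr 48 26 (.thr 32 16 (.dbl 40 36 43))))) .nd))))) (.rp 44 (.thr 47 32 (.thr 63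 0 (.thr 15 31 (.thr 48 26 (.thr 3 18 (.dbl 43 23 40)))))) (.rp 32 (.thr 0 63 (.thr 15 10 (.thr 40 43 (.thr 48 26 (.thr 3 18 (.dbl 60 20 22)))))) .nd)))))))))) (.rp 49 (.thr 45 33 (.thr 53 5 (.str 15 (.nv (.thr 26 48 (.thr 11 56 (.thr 3 7 (.dbl 60 22 30)))) (.nv (.thr 48 26 (.thr 63 58 (.thr 42 0 (.dbl 47 31 32)))) (.rp 48 (.thr 60 30 (.thr 3 22 (.thr 11 7 (.thr 26 56 (.thr 31 16 (.thr 63 47 (.thr 43 23 (.dbl 42 0 40)))))))) (.rp 26 (.thr 60 30 (.thr 22 3 (.thr 52 7 (.thr 55 54 (.thr 4 38 (.dbl 20 23 36)))))) .nd))))))) (.rp 45 (.thr 5 53 (.thr 13 9 (.thr 49 25 (.thr 33 17 (.str 42 (.nv (.thr 0 63 (.thr 15 10 (.thr 48 26 (.dbl 32 16 47)))) (.nv (.thr 40 43 (.thr 32 47 (.thr 44 36 (.dbl 35 34 38)))) (.rp 47 (.str 44 (.nv (.thr 0 63 (.thr 15 10 (.thr 40 43 (.thr 60 20 (.dbl 12 14 28)))))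 (.nv (.thr 0 63 (.thr 15 10 (.thr 35 38 (.thr 32 34 (.dbl 48 16 26))))) (.nv (.thr 40 43 (.thr 36 32 (.dbl 38 35 39))) (.rp 35 (.thr 0 63 (.thr 15 10 (.thr 48 26 (.thr 32 16 (.dbl 40 36 43))))) .nd))))) (.rp 44 (.thr 47 32 (.thr 63 0 (.thr 15 31 (.thr 48 26 (.thr 3 18 (.dbl 43 23 40)))))) (.rp 32 (.thr 0 63 (.thr 15 10 (.thr 40 43 (.thr 48 26 (.thr 3 18 (.dbl 60 20 22)))))) .nd)))))))))) (.rp 33 (.str 7 (.nv (.thr 5 53 (.thr 6 4 (.thr 9 13 (.thr 3 12 (.dbl 22 52 60))))) (.nv (.thr 52 22 (.thr 53 5 (.thr 55 54 (.thr 38 4 (.dbl 39 23 36))))) (.rp 53 (.thr 22 52 (.thr 23 20 (.thr 3 60 (.thr 63 43 (.thr 15 11 (.thr 47 31 (.dbl 42 0 32))))))) (.rp 52 (.thr 5 53 (.thr 9 13 (.thr 6 4 (.thr 3 12 (.thr 15 11 (.thr 22 60 (.thr 0 10 (.thr 63 42 (.dbl 23 20 43))))))))) (.rp 22 (.thr 5 53 (.thr 9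 13 (.thr 6 4 (.thr 3 12 (.thr 15 11 (.thr 0 10 (.thr 48 26 (.thr 32 16 (.dbl 42 47 63))))))))) (.rp 5 (.thr 22 52 (.thr 23 20 (.thr 3 60 (.thr 63 43 (.thr 15 11 (.thr 47 31 (.dbl 42 0 32))))))) (.rp 4 (.thr 5 53 (.thr 22 52 (.thr 3 60 (.thr 15 11 (.thr 0 10 (.thr 63 42 (.dbl 23 20 43))))))) .nd)))))))) (.rp 25 (.str 7 (.nv (.thr 33 45 (.thr 22 52 (.thr 3 60 (.thr 15 11 (.dbl 48 18 26))))) (.nv (.thr 22 52 (.thr 23 20 (.thr 5 53 (.thr 55 39 (.dbl 4 6 38))))) (.rp 52 (.thr 5 53 (.thr 45 33 (.thr 9 13 (.thr 6 4 (.thr 3 12 (.thr 15 11 (.dbl 60 22 30))))))) (.rp 22 (.thr 5 53 (.thr 9 13 (.thr 6 4 (.thr 3 12 (.thr 15 11 (.thr 48 26 (.dbl 33 18 45))))))) .nd))))) (.rp 17 (.str 7 (.nv (.thr 33 45 (.thr 22 52 (.thr 3 60 (.thr 15 11 (.dbl 48 18 26))))) (.nv (.thr 52 22 (.thr 53 5 (.thr 55 54 (.thr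 38 4 (.dbl 39 23 36))))) (.rp 62 (.thr 5 53 (.thr 9 13 (.thr 6 4 (.thr 3 12 (.dbl 22 52 60))))) (.rp 52 (.thr 5 53 (.thr 45 33 (.thr 9 13 (.thr 6 4 (.thr 3 12 (.thr 15 11 (.dbl 60 22 30))))))) (.rp 22 (.thr 5 53 (.thr 9 13 (.thr 6 4 (.thr 3 12 (.thr 15 11 (.thr 48 26 (.dbl 33 18 45))))))) .nd)))))) (.rp 13 (.thr 45 33 (.str 15 (.nv (.thr 5 53 (.thr 0 10 (.thr 60 30 (.thr 20 40 (.dbl 22 3 23))))) (.nv (.thr 53 5 (.thr 48 26 (.thr 63 58 (.thr 42 0 (.dbl 47 31 32))))) (.nv (.thr 26 48 (.thr 11 56 (.thr 3 7 (.dbl 60 22 30)))) .nd))))) (.rp 9 (.str 7 (.nv (.thr 33 45 (.thr 22 52 (.thr 3 60 (.thr 15 11 (.dbl 48 18 26))))) (.nv (.thr 52 22 (.thr 53 5 (.thr 55 54 (.thr 38 4 (.dbl 39 23 36))))) (.rp 62 (.thr 5 53 (.thr 4 6 (.thr 55 38 (.thr 23 39 (.dbl 22 20 52))))) (.rp 52 (.thr 5 53 (.thr 33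 45 (.thr 4 6 (.thr 55 38 (.thr 23 39 (.thr 22 20 (.thr 3 60 (.thr 15 11 (.dbl 48 18 26))))))))) (.rp 22 (.thr 5 53 (.thr 33 45 (.thr 4 6 (.thr 38 55 (.thr 39 36 (.thr 35 44 (.thr 47 43 (.dbl 32 34 42)))))))) .nd)))))) (.rp 5 (.str 3 (.nv (.thr 22 60 (.thr 7 52 (.thr 15 11 (.thr 23 20 (.thr 63 43 (.thr 47 31 (.dbl 42 0 32))))))) (.nv (.thr 33 45 (.thr 17 49 (.thr 18 48 (.thr 16 19 (.thr 26 31 (.dbl 22 30 60)))))) (.nv (.thr 22 60 (.thr 7 52 (.thr 15 11 (.thr 48 26 (.dbl 33 18 45))))) (.rp 60 (.thr 33 45 (.thr 49 17 (.thr 48 18 (.thr 15 26 (.thr 7 11 (.thr 22 52 (.thr 23 20 (.thr 39 55 (.dbl 51 27 50))))))))) (.rp 48 (.thr 45 33 (.thr 60 22 (.thr 15 30 (.thr 11 7 (.thr 26 56 (.thr 31 16 (.thr 63 47 (.thr 43 23 (.dbl 42 0 40))))))))) (.rp 22 (.thr 33 45 (.thr 48 18 (.thr 26 15 (.thr 56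 11 (.thr 60 52 (.thr 16 31 (.thr 0 32 (.thr 40 20 (.dbl 42 43 63))))))))) .nd))))))) .nd))))))))))))

theorem w193 : WinAt (2199025352706, 2305913377957871620) :=
  chF (K := []) kn c193 2199025352706 2305913377957871620 61
    [] (by decide +kernel) (by decide +kernel)

/-- A certificate. -/
noncomputable def c194 : Ct := (.str 37 (.nv (.thr 5 53 (.thr 13 9 (.thr 49 25 (.dbl 33 17 45)))) (.rp 57 (.thr 33 45 (.thr 5 53 (.thr 49 17 (.dbl 13 9 25)))) (.rp 53 (.thr 33 45 (.thr 49 17 (.thr 13 25 (.thr 5 9 (.str 22 (.nv (.thr 3 60 (.thr 23 20 (.thr 48 18 (.thr 15 26 (.thr 0 10 (.dbl 63 42 43)))))) (.nv (.thr 3 60 (.thr 48 18 (.thr 15 26 (.dbl 7 11 52)))) (.nv (.thr 23 20 (.thr 7 52 (.thr 55 39 (.dbl 4 6 38)))) (.rp 46 (.str 44 (.nv (.thr 3 60 (.thr 7 52 (.thr 15 11 (.dbl 48 18 26)))) (.nv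 (.thr 3 60 (.thr 35 38 (.thr 48 18 (.dbl 51 19 50)))) (.nv (.thr 38 35 (.thr 6 54 (.dbl 4 7 55))) .nd)))) (.rp 44 (.str 46 (.nv (.thr 3 60 (.thr 7 52 (.thr 15 11 (.dbl 48 18 26)))) (.nv (.thr 3 60 (.thr 48 18 (.thr 15 26 (.thr 12 14 (.thr 63 29 (.dbl 0 10 42)))))) (.nv (.thr 23 20 (.thr 7 52 (.thr 55 39 (.dbl 4 6 38)))) .nd)))) .nd)))))))))) (.rp 49 (.thr 45 33 (.thr 53 5 (.str 63 (.nv (.thr 48 58 (.thr 15 26 (.thr 60 30 (.thr 22 3 (.dbl 52 7 56))))) (.nv (.thr 48 58 (.thr 26 15 (.thr 16 31 (.dbl 0 32 42)))) (.rp 58 (.thr 42 0 (.thr 43 40 (.thr 3 23 (.thr 60 22 (.thr 15 30 (.thr 11 7 (.dbl 26 48 56))))))) (.rp 48 (.thr 42 0 (.thr 43 40 (.thr 3 23 (.thr 60 22 (.thr 15 30 (.thr 11 7 (.thr 59 27 (.thr 26 56 (.thr 8 25 (.dbl 10 9 58)))))))))) (.rp 42 (.thr 48 58 (.thr 26 15 (.thr 16 31 (.thr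 0 32 (.thr 56 11 (.thr 60 52 (.thr 20 40 (.dbl 22 3 23)))))))) (.rp 26 (.thr 48 58 (.thr 42 0 (.thr 43 40 (.thr 3 23 (.thr 60 22 (.thr 52 56 (.thr 55 54 (.thr 59 51 (.thr 11 27 (.dbl 15 7 30)))))))))) (.rp 15 (.thr 48 58 (.thr 0 42 (.thr 16 32 (.thr 26 31 (.thr 56 11 (.thr 60 52 (.thr 20 40 (.dbl 22 3 23)))))))) (.rp 10 (.thr 48 58 (.thr 26 15 (.thr 0 42 (.dbl 16 31 32)))) .nd))))))))))) (.rp 45 (.thr 5 53 (.thr 13 9 (.thr 49 25 (.thr 33 17 (.str 22 (.nv (.thr 3 60 (.thr 23 20 (.thr 48 18 (.thr 15 26 (.thr 0 10 (.dbl 63 42 43)))))) (.nv (.thr 3 60 (.thr 48 18 (.thr 15 26 (.dbl 7 11 52)))) (.nv (.thr 23 20 (.thr 7 52 (.thr 55 39 (.dbl 4 6 38)))) (.rp 46 (.str 44 (.nv (.thr 3 60 (.thr 7 52 (.thr 15 11 (.dbl 48 18 26)))) (.nv (.thr 3 60 (.thr 35 38 (.thr 48 18 (.dbl 51 19 50)))) (.nv (.thr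 38 35 (.thr 6 54 (.dbl 4 7 55))) .nd)))) (.rp 44 (.str 46 (.nv (.thr 3 60 (.thr 7 52 (.thr 15 11 (.dbl 48 18 26)))) (.nv (.thr 3 60 (.thr 48 18 (.thr 15 26 (.thr 12 14 (.thr 63 29 (.dbl 0 10 42)))))) (.nv (.thr 23 20 (.thr 7 52 (.thr 55 39 (.dbl 4 6 38)))) .nd)))) .nd)))))))))) (.rp 33 (.str 7 (.nv (.thr 5 53 (.thr 9 13 (.thr 6 4 (.thr 3 12 (.dbl 22 52 60))))) (.nv (.thr 52 22 (.thr 53 5 (.thr 55 54 (.thr 38 4 (.dbl 39 23 36))))) (.rp 53 (.thr 22 52 (.thr 23 20 (.thr 55 39 (.thr 4 38 (.thr 6 5 (.thr 3 60 (.thr 12 9 (.thr 0 8 (.dbl 63 42 43))))))))) (.rp 52 (.thr 5 53 (.thr 9 13 (.thr 6 4 (.thr 3 12 (.thr 15 11 (.thr 60 22 (.thr 0 10 (.thr 42 63 (.dbl 40 20 43))))))))) (.rp 22 (.thr 5 53 (.thr 9 13 (.thr 57 25 (.thr 6 4 (.thr 3 12 (.thr 15 11 (.thr 0 10 (.thr 42 63 (.thr 40 43 (.thr 60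 20 (.thr 51 54 (.thr 48 26 (.thr 32 16 (.thr 36 44 (.dbl 39 27 38))))))))))))))) (.rp 5 (.thr 22 52 (.thr 23 20 (.thr 39 55 (.thr 3 60 (.thr 15 11 (.thr 51 27 (.thr 35 19 (.dbl 38 36 44)))))))) (.rp 4 (.thr 5 53 (.thr 22 52 (.thr 3 60 (.thr 15 11 (.thr 0 10 (.thr 63 42 (.dbl 23 20 43))))))) .nd)))))))) (.rp 25 (.str 15 (.nv (.thr 5 53 (.thr 9 13 (.thr 10 0 (.thr 11 8 (.dbl 26 48 56))))) (.nv (.thr 5 53 (.thr 0 10 (.thr 45 33 (.thr 60 30 (.thr 40 20 (.dbl 42 43 63)))))) (.nv (.thr 26 48 (.thr 11 56 (.thr 3 7 (.thr 45 33 (.dbl 60 22 30))))) (.rp 45 (.thr 5 53 (.thr 10 0 (.thr 26 48 (.thr 11 56 (.dbl 9 8 13))))) .nd))))) (.rp 17 (.str 7 (.nv (.thr 33 45 (.thr 22 52 (.thr 3 60 (.thr 15 11 (.dbl 48 18 26))))) (.nv (.thr 52 22 (.thr 53 5 (.thr 55 54 (.thr 38 4 (.dbl 39 23 36))))) (.rp 62 (.thr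 5 53 (.thr 9 13 (.thr 6 4 (.thr 3 12 (.dbl 22 52 60))))) (.rp 52 (.thr 5 53 (.thr 45 33 (.thr 9 13 (.thr 6 4 (.thr 3 12 (.thr 15 11 (.dbl 60 22 30))))))) (.rp 22 (.thr 5 53 (.thr 9 13 (.thr 6 4 (.thr 3 12 (.thr 15 11 (.thr 48 26 (.dbl 33 18 45))))))) .nd)))))) (.rp 13 (.thr 45 33 (.str 63 (.nv (.thr 42 0 (.thr 43 40 (.thr 3 23 (.thr 60 22 (.thr 15 30 (.thr 11 7 (.dbl 26 48 56))))))) (.nv (.thr 53 5 (.thr 48 58 (.thr 26 15 (.thr 16 31 (.dbl 0 32 42))))) (.rp 48 (.thr 5 53 (.thr 0 42 (.thr 15 10 (.thr 60 30 (.thr 20 40 (.dbl 22 3 23)))))) (.rp 42 (.thr 53 5 (.thr 48 58 (.thr 26 15 (.thr 16 31 (.thr 0 32 (.thr 56 11 (.thr 60 52 (.thr 20 40 (.dbl 22 3 23))))))))) (.rp 26 (.thr 53 5 (.thr 48 58 (.thr 42 0 (.thr 43 40 (.thr 3 23 (.thr 60 22 (.thr 52 56 (.thr 55 54 (.thr 59 51 (.thr 11 27 (.dbl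 15 7 30))))))))))) (.rp 15 (.thr 53 5 (.thr 48 58 (.thr 0 42 (.thr 16 32 (.thr 26 31 (.thr 56 11 (.thr 60 52 (.thr 20 40 (.dbl 22 3 23))))))))) (.rp 0 (.thr 53 5 (.thr 48 58 (.thr 15 26 (.thr 60 30 (.thr 52 56 (.dbl 22 3 7)))))) .nd))))))))) (.rp 9 (.str 15 (.nv (.thr 5 53 (.thr 0 10 (.thr 33 45 (.thr 48 26 (.thr 16 32 (.thr 18 3 (.dbl 17 19 49))))))) (.nv (.thr 5 53 (.thr 0 10 (.thr 45 33 (.thr 60 30 (.thr 40 20 (.dbl 42 43 63)))))) (.nv (.thr 26 48 (.thr 11 56 (.thr 3 7 (.thr 45 33 (.dbl 60 22 30))))) (.rp 45 (.thr 5 53 (.thr 0 10 (.thr 63 42 (.thr 26 48 (.thr 11 56 (.thr 3 7 (.thr 23 43 (.dbl 22 20 60)))))))) (.rp 33 (.thr 5 53 (.thr 0 10 (.thr 63 42 (.thr 26 48 (.thr 11 56 (.thr 3 7 (.thr 23 43 (.dbl 22 20 60)))))))) (.rp 11 (.thr 45 33 (.thr 60 30 (.thr 22 3 (.thr 52 7 (.dbl 48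 26 56))))) .nd))))))) (.rp 5 (.str 3 (.nv (.thr 33 45 (.thr 17 49 (.thr 18 48 (.thr 16 19 (.thr 26 31 (.dbl 22 30 60)))))) (.nv (.thr 45 33 (.thr 60 22 (.thr 15 30 (.thr 26 48 (.dbl 11 7 56))))) (.rp 60 (.thr 33 45 (.thr 49 17 (.thr 48 18 (.thr 15 26 (.thr 7 11 (.thr 22 52 (.thr 23 20 (.thr 39 55 (.dbl 51 27 50))))))))) (.rp 48 (.thr 33 45 (.thr 17 49 (.thr 22 60 (.thr 23 20 (.thr 63 43 (.thr 0 42 (.thr 51 34 (.thr 55 59 (.dbl 7 39 52))))))))) (.rp 45 (.thr 22 60 (.thr 7 52 (.thr 15 11 (.thr 23 20 (.thr 39 55 (.thr 51 27 (.thr 35 19 (.dbl 38 36 44)))))))) (.rp 33 (.thr 22 60 (.thr 7 52 (.thr 15 11 (.thr 23 20 (.thr 39 55 (.thr 51 27 (.thr 35 19 (.dbl 38 36 44)))))))) (.rp 30 (.thr 33 45 (.thr 48 18 (.thr 15 26 (.thr 22 60 (.dbl 7 11 52))))) (.rp 26 (.thr 33 45 (.thr 17 49 (.thr 18 48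 (.thr 19 16 (.thr 22 60 (.dbl 25 28 29)))))) (.rp 22 (.thr 33 45 (.thr 49 17 (.thr 48 18 (.thr 50 51 (.thr 26 15 (.thr 56 11 (.thr 60 52 (.thr 38 14 (.thr 44 35 (.thr 12 28 (.dbl 36 24 39))))))))))) (.rp 15 (.thr 33 45 (.thr 17 49 (.thr 18 48 (.thr 19 16 (.thr 22 60 (.thr 30 26 (.dbl 25 28 29))))))) .nd))))))))))) .nd))))))))))))

theorem w194 : WinAt (2199025352706, 2305983746702049284) :=
  chF (K := []) kn c194 2199025352706 2305983746702049284 61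
    [] (by decide +kernel) (by decide +kernel)

/-- A certificate. -/
noncomputable def c195 : Ct := (.str 37 (.nv (.thr 33 45 (.thr 49 17 (.thr 13 25 (.dbl 5 9 53)))) (.rp 53 (.str 49 (.nv (.dbl 33 17 45) (.rp 63 (.str 58 (.nv (.dbl 33 17 45) (.rp 62 (.str 60 (.nv (.dbl 33 17 45) (.rp 45 (.thr 17 33 (.dbl 25 13 29)) (.rp 42 (.thr 22 3 (.dbl 33 17 45)) (.rp 33 (.thr 25 13 (.thr 57 9 (.thr 51 54 (.thr 12 38 (.thr 28 44 (.dbl 22 3 19)))))) (.rp 22 (.str 42 (.nv (.thr 25 13 (.thr 57 9 (.dbl 59 8 56))) (.nv (.dbl 33 17 45) (.rp 45 (.thr 17 33 (.dbl 25 13 29)) .nd)))) (.rp 17 (.thr 25 13 (.thr 57 9 (.thr 51 54 (.thr 12 38 (.thr 28 44 (.dbl 22 3 19)))))) .nd))))))) (.rp 60 (.str 62 (.nv (.dbl 33 17 45) (.rp 56 (.str 52 (.nv (.dbl 33 17 45) (.rp 45 (.thr 17 33 (.dbl 25 13 29)) (.rp 33 (.thr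 54 50 (.thr 22 7 (.thr 38 6 (.thr 4 55 (.dbl 36 20 39))))) (.rp 17 (.thr 54 50 (.thr 22 7 (.thr 38 6 (.thr 4 55 (.dbl 36 20 39))))) .nd))))) (.rp 52 (.str 56 (.nv (.thr 57 59 (.dbl 25 9 13)) (.nv (.dbl 33 17 45) (.rp 55 (.thr 54 50 (.dbl 33 17 45)) (.rp 54 (.str 55 (.nv (.thr 57 59 (.dbl 25 9 13)) (.nv (.dbl 33 17 45) (.rp 57 (.str 51 (.nv (.thr 38 4 (.dbl 25 12 13)) (.nv (.dbl 33 17 45) .nd))) .nd)))) .nd))))) (.rp 45 (.thr 17 33 (.dbl 25 13 29)) (.rp 33 (.thr 25 13 (.thr 29 17 (.thr 57 9 (.thr 50 54 (.thr 56 59 (.thr 26 11 (.thr 14 38 (.thr 30 46 (.dbl 31 16 28))))))))) (.rp 17 (.thr 45 33 (.thr 25 13 (.thr 57 9 (.thr 50 54 (.thr 56 59 (.thr 26 11 (.thr 38 14 (.thr 44 35 (.thr 46 47 (.dbl 42 10 34)))))))))) .nd))))))) (.rp 45 (.thr 17 33 (.dbl 25 13 29)) (.rp 33 (.thr 25 13 (.thr 29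 17 (.thr 57 9 (.thr 56 59 (.thr 26 11 (.thr 31 16 (.thr 27 24 (.thr 19 23 (.dbl 28 22 30))))))))) (.rp 17 (.thr 45 33 (.thr 25 13 (.thr 57 9 (.thr 59 56 (.thr 42 8 (.thr 47 32 (.thr 44 46 (.thr 35 38 (.dbl 43 39 40))))))))) .nd))))))) (.rp 58 (.str 63 (.nv (.dbl 33 17 45) (.rp 45 (.thr 17 33 (.dbl 25 13 29)) (.rp 33 (.thr 25 13 (.thr 29 17 (.thr 12 46 (.thr 51 38 (.thr 59 55 (.dbl 42 0 8)))))) (.rp 17 (.thr 33 45 (.thr 42 0 (.thr 32 47 (.thr 40 43 (.thr 44 36 (.dbl 35 34 38)))))) .nd))))) (.rp 45 (.thr 17 33 (.dbl 25 13 29)) (.rp 33 (.str 63 (.nv (.thr 25 13 (.thr 9 57 (.thr 29 17 (.thr 12 46 (.thr 3 6 (.thr 22 60 (.dbl 23 20 43))))))) (.nv (.thr 25 13 (.thr 9 57 (.thr 42 0 (.thr 8 59 (.thr 11 10 (.thr 40 43 (.dbl 56 24 26))))))) (.nv (.thr 0 42 (.thr 25 13 (.thr 29 17 (.thr 12 46 (.thr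 38 51 (.dbl 4 8 55)))))) (.rp 29 (.thr 13 25 (.thr 5 9 (.thr 0 42 (.thr 15 10 (.thr 31 47 (.thr 26 16 (.thr 11 56 (.thr 3 7 (.thr 23 43 (.dbl 22 20 60)))))))))) (.rp 25 (.str 3 (.nv (.thr 22 60 (.dbl 23 20 43)) (.nv (.thr 43 23 (.dbl 42 0 40)) (.rp 43 (.thr 42 0 (.thr 32 47 (.thr 22 60 (.thr 52 7 (.thr 20 23 (.thr 36 4 (.thr 44 40 (.dbl 38 35 39)))))))) (.rp 23 (.thr 42 0 (.thr 32 47 (.thr 40 43 (.thr 36 44 (.thr 22 60 (.thr 52 7 (.thr 4 20 (.dbl 38 39 55)))))))) .nd))))) (.rp 18 (.str 3 (.nv (.thr 25 13 (.thr 9 57 (.thr 12 6 (.dbl 29 17 46)))) (.nv (.thr 43 23 (.dbl 42 0 40)) (.rp 50 (.str 34 (.nv (.thr 25 13 (.thr 9 57 (.thr 12 6 (.dbl 29 17 46)))) (.nv (.thr 43 23 (.dbl 42 0 40)) .nd))) (.rp 34 (.str 50 (.nv (.thr 25 13 (.thr 9 57 (.thr 12 6 (.dbl 29 17 46)))) (.nv (.thr 43 23 (.dbl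 42 0 40)) (.rp 35 (.str 32 (.nv (.thr 22 60 (.dbl 23 20 43)) (.nv (.dbl 42 0 47) .nd))) (.rp 32 (.str 35 (.nv (.thr 19 51 (.thr 22 60 (.dbl 25 13 28))) (.nv (.thr 43 23 (.dbl 42 0 40)) (.rp 16 (.thr 0 42 (.thr 23 43 (.dbl 22 20 60))) (.rp 0 (.str 16 (.nv (.thr 51 19 (.thr 25 13 (.dbl 38 12 44))) (.nv (.thr 23 43 (.dbl 22 20 60)) (.rp 51 (.str 17 (.nv (.thr 22 60 (.dbl 23 20 43)) (.nv (.dbl 25 13 29) .nd))) .nd)))) .nd))))) .nd))))) .nd))))) (.rp 13 (.thr 42 0 (.thr 43 40 (.thr 3 23 (.thr 32 47 (.thr 60 22 (.str 29 (.nv (.thr 25 17 (.thr 57 9 (.thr 51 54 (.dbl 59 8 55)))) (.nv (.thr 12 46 (.thr 44 28 (.thr 38 35 (.thr 55 4 (.dbl 51 25 59))))) (.nv (.thr 25 17 (.thr 9 57 (.dbl 12 6 46))) (.rp 51 (.thr 12 46 (.thr 9 6 (.dbl 25 17 57))) (.rp 25 (.str 28 (.nv (.dbl 12 44 46) (.rp 46 (.thr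 44 12 (.thr 31 30 (.thr 26 16 (.thr 11 56 (.thr 59 27 (.thr 51 55 (.dbl 35 19 38))))))) (.rp 44 (.thr 46 12 (.thr 31 30 (.thr 26 16 (.thr 11 56 (.thr 59 27 (.thr 55 51 (.dbl 38 4 34))))))) (.rp 12 (.thr 31 30 (.thr 26 16 (.thr 11 56 (.thr 59 27 (.thr 51 55 (.thr 35 19 (.thr 58 10 (.thr 38 44 (.thr 54 57 (.dbl 50 14 62)))))))))) .nd))))) .nd))))))))))) (.rp 3 (.str 18 (.nv (.thr 25 13 (.thr 29 17 (.thr 0 42 (.thr 12 46 (.thr 4 8 (.dbl 38 51 55)))))) (.nv (.thr 25 13 (.thr 9 57 (.thr 42 0 (.thr 32 47 (.thr 8 59 (.thr 11 10 (.thr 40 43 (.dbl 56 24 26)))))))) (.nv (.thr 25 13 (.thr 29 17 (.thr 12 46 (.thr 42 0 (.thr 51 38 (.dbl 59 8 55)))))) (.rp 42 (.thr 25 13 (.thr 29 17 (.thr 12 46 (.thr 38 51 (.thr 39 36 (.thr 35 44 (.thr 47 43 (.thr 31 15 (.thr 26 16 (.dbl 30 22 28)))))))))) (.rp 29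 (.thr 13 25 (.thr 5 9 (.thr 0 42 (.thr 15 10 (.thr 31 47 (.thr 26 16 (.thr 22 30 (.thr 7 52 (.thr 23 20 (.thr 55 39 (.dbl 4 6 38))))))))))) (.rp 25 (.str 39 (.nv (.thr 42 0 (.thr 43 40 (.dbl 47 32 35))) (.nv (.thr 42 0 (.thr 32 47 (.thr 40 43 (.dbl 36 38 44)))) (.rp 47 (.thr 42 0 (.thr 43 40 (.thr 38 36 (.thr 55 4 (.thr 23 7 (.thr 59 51 (.thr 11 27 (.thr 26 56 (.dbl 22 20 30))))))))) (.rp 43 (.thr 42 0 (.thr 32 47 (.thr 38 36 (.thr 46 34 (.thr 55 4 (.thr 23 7 (.thr 51 59 (.thr 44 35 (.thr 12 29 (.thr 60 28 (.thr 54 57 (.dbl 22 6 20)))))))))))) (.rp 42 (.thr 38 36 (.thr 55 4 (.thr 35 44 (.thr 47 43 (.thr 15 31 (.dbl 51 27 59)))))) (.rp 40 (.thr 42 0 (.thr 38 36 (.thr 55 4 (.thr 51 59 (.thr 15 27 (.dbl 47 31 32)))))) (.rp 32 (.thr 38 36 (.thr 55 4 (.thr 51 59 (.thr 15 27 (.thr 47 31 (.dbl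 35 43 44)))))) (.rp 0 (.thr 38 36 (.thr 55 4 (.thr 51 59 (.thr 15 27 (.thr 47 31 (.dbl 35 43 44)))))) .nd))))))))) (.rp 13 (.str 29 (.nv (.thr 0 42 (.thr 12 46 (.thr 4 8 (.thr 25 17 (.dbl 38 51 55))))) (.nv (.thr 17 25 (.thr 42 0 (.thr 47 32 (.thr 16 19 (.dbl 31 15 26))))) (.nv (.thr 12 46 (.thr 25 17 (.thr 42 0 (.thr 51 38 (.dbl 59 8 55))))) (.rp 51 (.thr 42 0 (.thr 32 47 (.thr 40 43 (.thr 36 44 (.thr 46 12 (.dbl 38 34 39)))))) (.rp 42 (.thr 25 17 (.thr 12 46 (.thr 38 51 (.thr 39 36 (.thr 35 44 (.thr 47 43 (.thr 31 15 (.thr 26 16 (.dbl 30 22 28))))))))) (.rp 25 (.thr 42 0 (.thr 32 47 (.thr 40 43 (.thr 36 44 (.thr 46 12 (.dbl 38 34 39)))))) (.rp 17 (.thr 42 0 (.thr 32 47 (.thr 40 43 (.thr 36 44 (.thr 46 12 (.dbl 38 34 39)))))) (.rp 0 (.thr 25 17 (.thr 57 9 (.thr 12 46 (.thr 51 38 (.thr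 60 54 (.thr 28 44 (.thr 22 19 (.dbl 30 26 31)))))))) .nd))))))))) (.rp 8 (.thr 25 13 (.thr 29 17 (.thr 42 0 (.thr 32 47 (.thr 40 43 (.thr 44 36 (.thr 12 46 (.dbl 38 35 51)))))))) (.rp 0 (.thr 25 13 (.thr 57 9 (.thr 29 17 (.thr 12 46 (.thr 51 38 (.thr 60 54 (.thr 28 44 (.thr 22 19 (.dbl 30 26 31))))))))) .nd)))))))))) .nd))))))))) (.rp 17 (.str 60 (.nv (.thr 13 25 (.thr 5 9 (.thr 45 33 (.thr 15 30 (.thr 0 10 (.thr 40 20 (.dbl 42 43 63))))))) (.nv (.thr 3 22 (.thr 25 13 (.thr 9 57 (.thr 12 6 (.thr 38 51 (.dbl 44 28 35)))))) (.nv (.thr 22 3 (.thr 20 23 (.thr 40 0 (.thr 52 7 (.thr 36 4 (.thr 32 44 (.dbl 42 43 47))))))) (.nv (.thr 45 33 (.thr 13 25 (.thr 9 5 (.thr 15 30 (.thr 12 14 (.dbl 3 6 22)))))) (.rp 63 (.str 58 (.nv (.thr 3 22 (.thr 25 13 (.thr 45 33 (.thr 15 30 (.thr 11 7 (.thr 57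 9 (.dbl 56 26 59))))))) (.nv (.thr 25 13 (.thr 57 9 (.thr 51 54 (.thr 12 38 (.thr 28 44 (.dbl 22 3 19)))))) (.nv (.thr 45 33 (.thr 13 25 (.thr 9 5 (.thr 15 30 (.thr 12 14 (.dbl 3 6 22)))))) (.rp 45 (.thr 13 25 (.thr 5 9 (.thr 22 3 (.thr 23 20 (.thr 7 52 (.thr 55 39 (.dbl 4 6 38))))))) (.rp 25 (.thr 45 33 (.thr 15 30 (.thr 3 22 (.thr 11 7 (.thr 26 56 (.thr 42 10 (.thr 47 32 (.thr 44 46 (.thr 43 40 (.dbl 35 38 39)))))))))) (.rp 22 (.thr 45 33 (.thr 25 13 (.thr 57 9 (.thr 51 54 (.thr 38 12 (.thr 15 30 (.dbl 39 27 36))))))) (.rp 13 (.thr 45 33 (.thr 15 30 (.thr 3 22 (.thr 11 7 (.thr 26 56 (.thr 42 10 (.thr 47 32 (.thr 44 46 (.thr 43 40 (.dbl 35 38 39)))))))))) (.rp 9 (.thr 25 13 (.thr 22 3 (.thr 23 20 (.thr 28 19 (.thr 12 44 (.thr 7 52 (.thr 55 39 (.dbl 38 4 51)))))))) (.rp 3 (.thr 25 13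 (.thr 57 9 (.thr 56 59 (.thr 51 54 (.thr 26 11 (.thr 27 24 (.thr 15 39 (.dbl 45 30 33)))))))) .nd)))))))))) (.rp 58 (.str 63 (.nv (.thr 42 0 (.thr 45 33 (.thr 15 30 (.dbl 47 31 32)))) (.nv (.thr 3 22 (.thr 43 23 (.dbl 42 0 40))) (.rp 42 (.thr 25 13 (.thr 57 9 (.thr 51 54 (.thr 55 59 (.dbl 38 4 12))))) (.rp 3 (.thr 25 13 (.thr 57 9 (.thr 42 0 (.thr 59 8 (.dbl 51 54 55))))) (.rp 0 (.thr 25 13 (.thr 57 9 (.thr 51 54 (.thr 55 59 (.dbl 38 4 12))))) .nd)))))) (.rp 6 (.thr 25 13 (.thr 57 9 (.thr 51 54 (.thr 12 38 (.thr 22 3 (.dbl 28 19 44)))))) (.rp 3 (.thr 25 13 (.thr 57 9 (.thr 51 54 (.thr 12 38 (.thr 28 44 (.thr 22 19 (.thr 52 7 (.thr 20 23 (.thr 0 40 (.dbl 4 8 36)))))))))) .nd))))))))) .nd))))))) (.rp 49 (.thr 53 5 (.str 55 (.nv (.thr 38 4 (.thr 36 39 (.thr 44 35 (.thr 32 40 (.thr 45 33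 (.dbl 47 42 46)))))) (.nv (.thr 4 38 (.thr 52 54 (.thr 22 7 (.dbl 20 23 36)))) (.rp 51 (.str 50 (.nv (.thr 38 4 (.thr 36 39 (.thr 44 35 (.thr 32 40 (.thr 45 33 (.dbl 47 42 46)))))) (.nv (.thr 52 54 (.thr 22 7 (.thr 20 23 (.dbl 4 36 38)))) (.rp 38 (.thr 52 54 (.thr 22 7 (.thr 20 23 (.thr 4 36 (.thr 60 3 (.thr 0 40 (.thr 63 42 (.thr 12 8 (.thr 46 29 (.thr 44 28 (.dbl 45 33 47))))))))))) (.rp 36 (.thr 45 33 (.thr 38 4 (.thr 14 26 (.thr 44 35 (.thr 46 47 (.thr 62 30 (.dbl 54 52 58))))))) (.rp 7 (.thr 45 33 (.thr 54 52 (.thr 62 58 (.thr 38 4 (.thr 6 22 (.thr 14 26 (.thr 44 35 (.dbl 46 30 47)))))))) (.rp 6 (.thr 52 54 (.thr 7 22 (.thr 38 4 (.dbl 39 23 36)))) (.rp 4 (.thr 33 45 (.thr 52 54 (.thr 7 22 (.thr 39 23 (.thr 38 36 (.thr 35 44 (.thr 47 43 (.dbl 32 34 42)))))))) .nd)))))))) (.rp 50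 (.str 51 (.nv (.thr 38 4 (.thr 12 25 (.thr 63 59 (.thr 42 0 (.dbl 46 29 34))))) (.nv (.thr 54 52 (.thr 60 57 (.thr 22 3 (.dbl 38 4 6)))) (.rp 38 (.thr 63 59 (.thr 52 54 (.thr 22 7 (.thr 23 20 (.dbl 3 43 60))))) (.rp 34 (.str 18 (.nv (.thr 45 33 (.thr 54 52 (.thr 60 57 (.thr 22 3 (.dbl 30 15 26))))) (.nv (.thr 38 4 (.thr 25 12 (.thr 17 29 (.thr 19 16 (.dbl 35 3 44))))) (.nv (.thr 54 52 (.thr 60 57 (.thr 22 3 (.dbl 38 4 6)))) (.rp 3 (.thr 54 52 (.thr 38 4 (.thr 25 12 (.dbl 57 9 60)))) .nd))))) (.rp 18 (.str 34 (.nv (.thr 33 45 (.thr 38 4 (.dbl 35 32 44))) (.nv (.thr 63 59 (.dbl 0 17 42)) (.rp 33 (.str 3 (.nv (.thr 38 4 (.dbl 35 19 44)) (.nv (.thr 63 59 (.dbl 0 17 42)) .nd))) .nd)))) (.rp 6 (.thr 52 54 (.thr 7 22 (.thr 38 4 (.dbl 39 23 36)))) (.rp 4 (.thr 63 59 (.thr 52 54 (.thr 7 22 (.thr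 23 39 (.thr 43 3 (.dbl 42 0 40)))))) .nd)))))))) (.rp 38 (.thr 33 45 (.thr 52 54 (.thr 22 7 (.thr 23 20 (.thr 3 60 (.thr 63 43 (.thr 51 59 (.thr 35 19 (.thr 32 34 (.dbl 42 0 47)))))))))) (.rp 36 (.thr 33 45 (.thr 52 54 (.thr 7 22 (.thr 39 23 (.thr 38 4 (.thr 35 44 (.thr 47 43 (.dbl 32 34 42)))))))) (.rp 7 (.thr 45 33 (.thr 54 52 (.thr 38 4 (.thr 6 22 (.thr 36 39 (.thr 44 35 (.thr 32 40 (.dbl 47 42 46)))))))) (.rp 4 (.thr 33 45 (.thr 52 54 (.thr 7 22 (.thr 39 23 (.thr 38 36 (.thr 35 44 (.thr 47 43 (.dbl 32 34 42)))))))) .nd)))))))))) (.rp 45 (.str 13 (.nv (.dbl 5 9 53) (.rp 53 (.thr 9 5 (.dbl 25 49 57)) (.rp 9 (.str 35 (.nv (.thr 44 38 (.thr 49 25 (.thr 33 17 (.thr 32 34 (.thr 42 47 (.dbl 40 36 43)))))) (.nv (.thr 5 53 (.thr 38 44 (.thr 4 55 (.thr 36 39 (.thr 52 20 (.dbl 7 6 22))))))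 (.nv (.thr 38 44 (.thr 39 36 (.thr 47 43 (.thr 49 25 (.thr 33 17 (.dbl 32 34 42)))))) (.rp 49 (.thr 53 5 (.thr 38 44 (.thr 39 36 (.thr 55 4 (.thr 7 23 (.dbl 52 22 54)))))) (.rp 47 (.thr 49 25 (.thr 33 17 (.thr 5 53 (.thr 34 32 (.thr 38 44 (.thr 46 42 (.thr 36 39 (.thr 4 55 (.thr 52 20 (.dbl 7 6 22)))))))))) (.rp 44 (.thr 49 25 (.thr 33 17 (.thr 53 5 (.thr 32 34 (.thr 47 42 (.thr 39 43 (.thr 38 36 (.thr 55 4 (.thr 7 23 (.dbl 52 22 54)))))))))) (.rp 38 (.thr 49 25 (.thr 33 17 (.thr 32 34 (.thr 42 47 (.thr 40 43 (.thr 44 36 (.thr 0 63 (.thr 60 20 (.thr 12 28 (.thr 15 14 (.dbl 5 10 53))))))))))) (.rp 36 (.thr 49 25 (.thr 33 17 (.thr 53 5 (.thr 32 34 (.thr 47 42 (.thr 39 43 (.thr 38 44 (.thr 55 4 (.thr 7 23 (.dbl 52 22 54)))))))))) .nd))))))))) (.rp 5 (.str 0 (.nv (.thr 25 49 (.thr 42 63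 (.thr 8 59 (.thr 40 43 (.thr 56 24 (.thr 11 26 (.dbl 9 10 57))))))) (.nv (.thr 25 49 (.thr 17 29 (.thr 51 34 (.thr 12 38 (.thr 8 4 (.dbl 42 59 63)))))) (.nv (.thr 25 49 (.thr 17 29 (.thr 57 9 (.thr 51 34 (.thr 60 54 (.thr 20 40 (.dbl 22 3 23))))))) (.rp 57 (.thr 49 25 (.thr 33 17 (.thr 42 63 (.thr 32 47 (.thr 35 34 (.thr 44 38 (.dbl 40 36 43))))))) (.rp 53 (.thr 25 49 (.thr 57 9 (.thr 17 29 (.thr 51 34 (.thr 60 54 (.thr 20 40 (.dbl 22 3 23))))))) (.rp 51 (.thr 49 25 (.thr 33 17 (.thr 42 63 (.thr 32 47 (.thr 35 34 (.thr 40 43 (.dbl 44 36 38))))))) (.rp 50 (.thr 49 25 (.thr 33 17 (.thr 42 63 (.thr 32 47 (.thr 40 43 (.thr 44 36 (.dbl 35 34 38))))))) (.rp 49 (.thr 42 63 (.thr 32 47 (.thr 40 43 (.thr 60 20 (.thr 44 36 (.thr 12 28 (.thr 4 8 (.dbl 38 35 55)))))))) (.rp 25 (.thr 42 63 (.thr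 32 47 (.thr 40 43 (.thr 60 20 (.thr 44 36 (.thr 12 28 (.thr 4 8 (.dbl 38 35 55)))))))) .nd)))))))))) .nd))))) (.rp 33 (.str 22 (.nv (.thr 3 60 (.thr 5 53 (.thr 23 20 (.thr 63 43 (.thr 0 42 (.thr 15 10 (.dbl 7 11 52))))))) (.nv (.thr 3 60 (.thr 5 53 (.thr 9 13 (.thr 6 12 (.dbl 7 4 52))))) (.nv (.thr 20 23 (.thr 53 5 (.thr 52 7 (.thr 55 54 (.dbl 4 36 38))))) (.rp 53 (.thr 3 60 (.thr 52 7 (.thr 23 20 (.thr 63 43 (.thr 0 42 (.str 25 (.nv (.thr 57 9 (.thr 17 29 (.thr 51 34 (.dbl 19 28 35)))) (.nv (.thr 49 13 (.thr 29 17 (.thr 9 57 (.dbl 12 6 46)))) (.nv (.thr 19 28 (.thr 51 35 (.thr 55 59 (.dbl 38 4 12)))) (.nv (.thr 29 17 (.thr 12 46 (.dbl 9 6 57))) (.rp 57 (.thr 49 13 (.thr 19 28 (.thr 51 35 (.dbl 17 29 34)))) .nd))))))))))) (.rp 52 (.str 26 (.nv (.thr 3 60 (.thr 56 11 (.thr 5 53 (.thr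 9 13 (.thr 6 12 (.thr 4 7 (.dbl 38 54 55))))))) (.nv (.thr 18 30 (.thr 16 31 (.thr 19 17 (.thr 20 23 (.dbl 28 24 25))))) (.rp 60 (.thr 56 11 (.thr 18 30 (.thr 20 23 (.thr 16 31 (.thr 28 24 (.dbl 19 17 25)))))) (.rp 56 (.thr 60 3 (.thr 18 30 (.thr 20 23 (.thr 16 31 (.thr 28 24 (.dbl 19 17 25)))))) (.rp 29 (.thr 18 30 (.thr 20 23 (.thr 16 31 (.thr 28 24 (.dbl 19 17 25))))) (.rp 28 (.thr 18 30 (.thr 20 23 (.thr 60 3 (.thr 0 40 (.thr 5 53 (.thr 10 15 (.dbl 42 58 63))))))) (.rp 24 (.thr 18 30 (.thr 16 31 (.thr 17 19 (.thr 5 53 (.thr 9 13 (.dbl 25 29 57)))))) .nd)))))))) (.rp 7 (.thr 5 53 (.thr 23 20 (.thr 3 60 (.thr 9 13 (.thr 12 6 (.thr 63 43 (.thr 29 46 (.dbl 25 17 57)))))))) (.rp 6 (.thr 53 5 (.thr 20 23 (.thr 52 7 (.thr 4 36 (.dbl 55 38 54))))) (.rp 5 (.str 18 (.nv (.thr 3 60 (.thr 23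 20 (.thr 26 30 (.thr 31 16 (.thr 63 43 (.thr 15 47 (.dbl 7 11 52))))))) (.nv (.thr 20 23 (.thr 26 30 (.thr 16 31 (.thr 19 17 (.dbl 28 24 25))))) (.rp 31 (.thr 20 23 (.thr 52 7 (.thr 4 36 (.thr 60 3 (.thr 0 40 (.thr 12 8 (.thr 44 28 (.dbl 38 35 55)))))))) (.rp 30 (.thr 20 23 (.thr 52 7 (.thr 4 36 (.thr 60 3 (.thr 0 40 (.thr 12 8 (.thr 44 28 (.dbl 38 35 55)))))))) (.rp 28 (.thr 20 23 (.thr 52 7 (.thr 4 36 (.thr 55 38 (.thr 54 53 (.thr 60 3 (.thr 0 40 (.thr 63 42 (.dbl 51 57 59))))))))) (.rp 26 (.thr 20 23 (.thr 52 7 (.thr 4 36 (.thr 60 3 (.thr 0 40 (.thr 12 8 (.thr 44 28 (.dbl 38 35 55)))))))) (.rp 24 (.thr 20 23 (.thr 52 7 (.thr 3 60 (.thr 26 30 (.thr 16 31 (.thr 19 17 (.thr 35 51 (.thr 38 44 (.dbl 36 4 39))))))))) (.rp 23 (.thr 52 7 (.thr 3 60 (.thr 26 30 (.thr 16 31 (.thr 19 17 (.thr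 35 51 (.thr 38 44 (.thr 28 25 (.thr 20 24 (.dbl 36 4 39)))))))))) (.rp 20 (.thr 3 60 (.thr 26 30 (.thr 16 31 (.thr 19 17 (.thr 35 51 (.thr 38 44 (.thr 39 36 (.thr 43 47 (.thr 63 23 (.dbl 42 0 40)))))))))) (.rp 16 (.thr 20 23 (.thr 52 7 (.thr 4 36 (.thr 60 3 (.thr 0 40 (.thr 12 8 (.thr 44 28 (.dbl 38 35 55)))))))) .nd))))))))))) (.rp 3 (.str 18 (.nv (.thr 5 53 (.thr 9 13 (.thr 26 30 (.thr 16 31 (.thr 19 17 (.dbl 25 28 57)))))) (.nv (.thr 52 7 (.thr 53 5 (.thr 55 54 (.thr 4 38 (.dbl 20 23 36))))) (.nv (.thr 26 30 (.thr 16 31 (.thr 19 17 (.thr 28 25 (.dbl 20 23 24))))) .nd)))) .nd)))))))))) (.rp 29 (.thr 5 53 (.thr 33 45 (.thr 13 9 (.dbl 49 17 25)))) (.rp 25 (.str 52 (.nv (.thr 7 22 (.thr 53 5 (.thr 55 54 (.thr 38 4 (.dbl 39 23 36))))) (.nv (.thr 5 53 (.thr 22 7 (.thr 20 23 (.thr 60 3 (.thr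 0 40 (.thr 15 10 (.dbl 45 30 33))))))) (.nv (.thr 22 7 (.thr 53 5 (.thr 20 23 (.thr 55 54 (.dbl 4 36 38))))) (.rp 55 (.thr 5 53 (.thr 45 33 (.thr 7 22 (.thr 4 6 (.thr 36 20 (.thr 38 39 (.thr 44 35 (.thr 32 40 (.dbl 47 42 46))))))))) (.rp 53 (.thr 22 7 (.thr 20 23 (.thr 36 4 (.thr 60 3 (.thr 40 0 (.thr 32 44 (.dbl 42 43 47))))))) (.rp 23 (.thr 5 53 (.thr 7 22 (.thr 4 6 (.thr 36 20 (.dbl 38 39 55))))) (.rp 22 (.thr 53 5 (.thr 33 45 (.thr 55 54 (.thr 38 4 (.thr 39 36 (.thr 35 44 (.thr 47 43 (.dbl 32 34 42)))))))) (.rp 7 (.thr 53 5 (.thr 33 45 (.thr 17 49 (.thr 55 54 (.thr 4 38 (.thr 20 36 (.thr 22 23 (.thr 60 3 (.thr 0 40 (.thr 51 34 (.dbl 63 42 59))))))))))) (.rp 5 (.thr 22 7 (.thr 20 23 (.thr 4 36 (.thr 60 3 (.thr 0 40 (.thr 12 8 (.thr 44 28 (.dbl 38 35 55)))))))) .nd)))))))))) (.rp 17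 (.str 52 (.nv (.thr 5 53 (.thr 22 7 (.thr 20 23 (.thr 60 3 (.thr 0 40 (.thr 15 10 (.dbl 45 30 33))))))) (.nv (.thr 53 5 (.thr 55 54 (.thr 4 38 (.thr 22 7 (.dbl 20 23 36))))) (.rp 55 (.thr 5 53 (.thr 45 33 (.thr 7 22 (.thr 4 6 (.thr 36 20 (.thr 38 39 (.thr 44 35 (.thr 32 40 (.dbl 47 42 46))))))))) (.rp 53 (.thr 22 7 (.thr 20 23 (.thr 36 4 (.thr 60 3 (.thr 40 0 (.thr 32 44 (.dbl 42 43 47))))))) (.rp 23 (.thr 5 53 (.thr 7 22 (.thr 4 6 (.thr 36 20 (.dbl 38 39 55))))) (.rp 22 (.thr 53 5 (.thr 33 45 (.thr 55 54 (.thr 38 4 (.thr 39 36 (.thr 35 44 (.thr 47 43 (.dbl 32 34 42)))))))) (.rp 20 (.thr 53 5 (.thr 55 54 (.thr 38 4 (.thr 39 36 (.dbl 7 22 23))))) (.rp 7 (.thr 53 5 (.thr 55 54 (.thr 4 38 (.thr 20 36 (.thr 22 23 (.thr 60 3 (.thr 0 40 (.thr 12 8 (.thr 44 28 (.thr 63 42 (.thr 46 29 (.dbl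 45 33 47)))))))))))) (.rp 5 (.thr 22 7 (.thr 20 23 (.thr 4 36 (.thr 60 3 (.thr 0 40 (.thr 12 8 (.thr 44 28 (.dbl 38 35 55)))))))) .nd)))))))))) (.rp 13 (.str 52 (.nv (.thr 45 33 (.thr 5 53 (.thr 7 22 (.thr 4 6 (.thr 36 20 (.dbl 38 39 55)))))) (.nv (.thr 5 53 (.thr 22 7 (.thr 20 23 (.thr 60 3 (.thr 0 40 (.thr 15 10 (.dbl 45 30 33))))))) (.nv (.thr 53 5 (.thr 55 54 (.thr 4 38 (.thr 22 7 (.dbl 20 23 36))))) (.rp 55 (.thr 5 53 (.thr 45 33 (.thr 7 22 (.thr 4 6 (.thr 36 20 (.thr 38 39 (.thr 44 35 (.thr 32 40 (.dbl 47 42 46))))))))) (.rp 53 (.thr 22 7 (.thr 20 23 (.thr 36 4 (.thr 60 3 (.thr 40 0 (.thr 32 44 (.dbl 42 43 47))))))) (.rp 45 (.str 29 (.nv (.thr 22 7 (.thr 25 17 (.thr 53 5 (.thr 57 9 (.thr 60 3 (.dbl 54 51 55)))))) (.nv (.thr 22 7 (.thr 25 17 (.thr 28 19 (.thr 31 30 (.thr 16 26 (.dbl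 20 23 24)))))) (.nv (.thr 53 5 (.thr 55 54 (.thr 4 38 (.thr 22 7 (.dbl 20 23 36))))) (.rp 22 (.thr 53 5 (.thr 17 25 (.thr 33 49 (.thr 55 54 (.thr 38 4 (.thr 39 36 (.thr 35 44 (.thr 47 43 (.dbl 32 34 42))))))))) (.rp 7 (.thr 53 5 (.thr 25 17 (.thr 55 54 (.thr 4 38 (.thr 20 36 (.thr 22 23 (.thr 28 19 (.thr 31 30 (.dbl 16 24 26))))))))) .nd)))))) (.rp 22 (.thr 53 5 (.thr 45 33 (.thr 55 54 (.thr 38 4 (.thr 36 39 (.thr 44 35 (.thr 32 40 (.dbl 47 42 46)))))))) (.rp 20 (.thr 53 5 (.thr 55 54 (.thr 38 4 (.thr 39 36 (.dbl 7 22 23))))) (.rp 7 (.thr 53 5 (.thr 55 54 (.thr 4 38 (.thr 20 36 (.thr 22 23 (.thr 60 3 (.thr 0 40 (.thr 12 8 (.thr 44 28 (.thr 63 42 (.thr 46 29 (.dbl 45 33 47)))))))))))) (.rp 5 (.thr 22 7 (.thr 20 23 (.thr 4 36 (.thr 60 3 (.thr 0 40 (.thr 12 8 (.thr 44 28 (.dbl 38 35 55))))))))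 .nd))))))))))) (.rp 9 (.str 52 (.nv (.thr 5 53 (.thr 22 7 (.thr 20 23 (.thr 60 3 (.thr 0 40 (.thr 15 10 (.dbl 45 30 33))))))) (.nv (.thr 53 5 (.thr 55 54 (.thr 4 38 (.thr 22 7 (.dbl 20 23 36))))) (.rp 55 (.thr 5 53 (.thr 45 33 (.thr 7 22 (.thr 4 6 (.thr 36 20 (.thr 38 39 (.thr 44 35 (.thr 32 40 (.dbl 47 42 46))))))))) (.rp 53 (.thr 22 7 (.thr 20 23 (.thr 36 4 (.thr 60 3 (.thr 40 0 (.thr 32 44 (.dbl 42 43 47))))))) (.rp 23 (.thr 5 53 (.thr 7 22 (.thr 4 6 (.thr 36 20 (.dbl 38 39 55))))) (.rp 22 (.thr 53 5 (.thr 33 45 (.thr 55 54 (.thr 38 4 (.thr 39 36 (.thr 35 44 (.thr 47 43 (.dbl 32 34 42)))))))) (.rp 20 (.thr 53 5 (.thr 55 54 (.thr 38 4 (.thr 39 36 (.dbl 7 22 23))))) (.rp 7 (.thr 53 5 (.thr 33 45 (.thr 17 49 (.thr 55 54 (.thr 4 38 (.thr 20 36 (.thr 22 23 (.thr 60 3 (.thr 0 40 (.thr 51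 34 (.dbl 63 42 59))))))))))) (.rp 5 (.thr 22 7 (.thr 20 23 (.thr 4 36 (.thr 60 3 (.thr 0 40 (.thr 12 8 (.thr 44 28 (.dbl 38 35 55)))))))) .nd)))))))))) (.rp 5 (.str 42 (.nv (.thr 0 63 (.thr 32 47 (.thr 33 45 (.thr 17 49 (.dbl 34 35 51))))) (.nv (.thr 32 47 (.thr 40 43 (.thr 44 36 (.thr 35 38 (.dbl 33 34 45))))) (.rp 47 (.thr 33 45 (.thr 40 43 (.thr 0 63 (.thr 17 49 (.thr 51 34 (.thr 60 20 (.thr 57 54 (.dbl 25 9 29)))))))) (.rp 45 (.thr 40 43 (.thr 32 47 (.thr 44 36 (.thr 0 63 (.thr 60 20 (.thr 12 28 (.thr 4 8 (.dbl 38 35 55)))))))) (.rp 44 (.thr 45 33 (.thr 43 40 (.thr 63 0 (.thr 3 23 (.thr 60 22 (.thr 15 30 (.dbl 47 31 32))))))) (.rp 35 (.thr 45 33 (.thr 43 40 (.thr 63 0 (.thr 3 23 (.thr 60 22 (.thr 15 30 (.dbl 47 31 32))))))) (.rp 34 (.thr 45 33 (.thr 43 40 (.thr 47 32 (.thr 35 39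 (.dbl 44 38 46))))) (.rp 33 (.thr 40 43 (.thr 32 47 (.thr 44 36 (.thr 0 63 (.thr 60 20 (.thr 12 28 (.thr 4 8 (.dbl 38 35 55)))))))) (.rp 32 (.thr 33 45 (.thr 40 43 (.thr 0 63 (.thr 17 49 (.thr 51 34 (.thr 60 20 (.thr 57 54 (.dbl 25 9 29)))))))) .nd)))))))))) .nd))))))))))))

theorem w195 : WinAt (2199025352706, 2306124484190404612) :=
  chF (K := []) kn c195 2199025352706 2306124484190404612 61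
    [] (by decide +kernel) (by decide +kernel)

/-- A certificate. -/
noncomputable def c196 : Ct := (.str 60 (.nv (.thr 22 3 (.thr 20 23 (.thr 0 40 (.thr 63 42 (.dbl 61 1 62))))) (.rp 63 (.str 37 (.nv (.thr 33 45 (.thr 3 22 (.thr 48 18 (.thr 26 15 (.dbl 56 11 52))))) (.nv (.thr 22 3 (.thr 7 52 (.thr 23 20 (.thr 55 39 (.thr 4 38 (.dbl 5 6 53)))))) (.nv (.thr 45 33 (.thr 15 30 (.thr 48 26 (.thr 52 56 (.dbl 22 3 7))))) (.rp 52 (.thr 45 33 (.thr 15 30 (.thr 26 48 (.thr 11 56 (.dbl 3 7 22))))) (.rp 22 (.thr 45 33 (.thr 5 53 (.thr 15 30 (.thr 0 10 (.thr 40 20 (.thr 42 43 (.thr 32 47 (.dbl 48 16 26)))))))) (.rp 3 (.thr 45 33 (.thr 5 53 (.thr 15 30 (.thr 0 10 (.thr 40 20 (.thr 48 26 (.thr 32 16 (.dbl 42 43 47)))))))) .nd))))))) (.rp 62 (.str 57 (.nv (.thr 22 3 (.thr 25 9 (.thr 28 19 (.thr 12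 44 (.dbl 51 38 54))))) (.nv (.thr 25 9 (.thr 17 29 (.thr 51 54 (.thr 0 34 (.thr 40 20 (.dbl 42 43 63)))))) (.nv (.thr 25 9 (.thr 51 54 (.thr 12 38 (.thr 28 44 (.dbl 22 3 19))))) (.rp 54 (.thr 25 9 (.thr 29 17 (.thr 22 3 (.thr 28 19 (.thr 31 30 (.thr 16 26 (.dbl 20 23 24))))))) (.rp 51 (.thr 25 9 (.thr 17 29 (.thr 22 3 (.thr 19 28 (.thr 16 18 (.thr 31 26 (.dbl 23 20 27))))))) (.rp 25 (.thr 54 51 (.thr 22 3 (.thr 23 20 (.thr 38 6 (.thr 55 4 (.thr 7 39 (.dbl 52 37 53))))))) (.rp 22 (.str 42 (.nv (.thr 0 63 (.thr 25 9 (.thr 17 29 (.dbl 51 34 54)))) (.nv (.thr 0 63 (.dbl 40 20 43)) (.rp 63 (.thr 25 9 (.thr 17 29 (.thr 51 54 (.thr 0 34 (.dbl 40 20 43))))) (.rp 0 (.thr 25 9 (.thr 59 8 (.thr 56 58 (.thr 43 40 (.dbl 11 26 27))))) .nd))))) (.rp 9 (.thr 51 54 (.thr 22 3 (.thr 20 23 (.thr 0 40 (.thr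 17 34 (.thr 25 29 (.thr 12 38 (.dbl 28 19 44)))))))) .nd))))))))) (.rp 61 (.str 57 (.nv (.thr 22 3 (.thr 23 20 (.thr 25 9 (.thr 17 29 (.thr 19 28 (.thr 16 18 (.dbl 31 26 27))))))) (.nv (.thr 25 9 (.thr 17 29 (.thr 51 54 (.thr 0 34 (.thr 40 20 (.dbl 42 43 63)))))) (.nv (.thr 25 9 (.thr 51 54 (.thr 12 38 (.thr 28 44 (.dbl 22 3 19))))) (.rp 25 (.thr 54 51 (.thr 22 3 (.thr 23 20 (.thr 38 6 (.thr 55 4 (.thr 7 39 (.dbl 52 37 53))))))) (.rp 9 (.thr 51 54 (.thr 3 22 (.thr 35 19 (.thr 38 44 (.thr 55 4 (.thr 63 59 (.thr 43 23 (.dbl 42 0 40)))))))) .nd)))))) (.rp 43 (.thr 61 1 (.thr 63 62 (.thr 0 42 (.thr 22 3 (.dbl 20 23 40))))) (.rp 42 (.str 57 (.nv (.thr 22 3 (.thr 20 23 (.thr 0 40 (.thr 51 54 (.thr 17 34 (.dbl 25 9 29)))))) (.nv (.thr 25 9 (.thr 51 54 (.thr 38 12 (.thr 35 44 (.dbl 3 19 22)))))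 (.rp 54 (.thr 25 9 (.thr 29 17 (.thr 22 3 (.thr 28 19 (.thr 12 44 (.thr 63 46 (.dbl 61 1 62))))))) (.rp 51 (.thr 25 9 (.thr 17 29 (.thr 22 3 (.thr 19 28 (.thr 16 18 (.thr 31 26 (.dbl 23 20 27))))))) (.rp 38 (.thr 25 9 (.thr 17 29 (.thr 51 54 (.thr 22 3 (.thr 20 23 (.dbl 0 34 40)))))) (.rp 25 (.thr 54 51 (.thr 22 3 (.thr 23 20 (.thr 38 6 (.thr 55 4 (.thr 7 39 (.dbl 52 37 53))))))) (.rp 22 (.str 62 (.nv (.dbl 61 1 63) (.rp 63 (.thr 9 25 (.thr 1 61 (.thr 5 13 (.thr 37 53 (.thr 45 33 (.thr 51 54 (.thr 15 30 (.thr 10 0 (.thr 27 39 (.thr 11 8 (.thr 59 43 (.dbl 56 26 58)))))))))))) (.rp 61 (.thr 25 9 (.thr 51 54 (.thr 38 12 (.thr 55 4 (.thr 59 63 (.thr 56 58 (.thr 48 52 (.thr 26 11 (.thr 27 24 (.dbl 15 37 39)))))))))) (.rp 1 (.thr 25 9 (.thr 63 61 (.thr 51 54 (.thr 38 12 (.dbl 55 4 59)))))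 .nd))))) (.rp 9 (.thr 51 54 (.thr 22 3 (.thr 20 23 (.thr 0 40 (.thr 17 34 (.thr 25 29 (.thr 28 19 (.dbl 12 38 44)))))))) (.rp 3 (.thr 25 9 (.thr 29 17 (.thr 51 54 (.thr 12 38 (.thr 44 28 (.thr 46 63 (.thr 45 47 (.dbl 61 1 13)))))))) .nd)))))))))) (.rp 40 (.str 45 (.nv (.thr 3 22 (.thr 15 30 (.thr 11 7 (.thr 26 56 (.dbl 37 33 48))))) (.nv (.thr 15 30 (.thr 61 1 (.thr 63 62 (.thr 47 31 (.thr 46 44 (.dbl 29 12 13)))))) (.nv (.thr 15 30 (.thr 22 3 (.thr 37 33 (.thr 48 26 (.dbl 52 7 56))))) (.rp 33 (.thr 15 30 (.thr 3 22 (.thr 11 7 (.thr 26 56 (.thr 31 16 (.thr 63 47 (.dbl 61 1 62))))))) (.rp 30 (.thr 37 33 (.thr 53 5 (.thr 22 3 (.thr 52 7 (.thr 48 56 (.thr 63 58 (.dbl 61 1 62))))))) (.rp 22 (.thr 37 33 (.thr 15 30 (.thr 26 48 (.thr 31 16 (.thr 63 47 (.dbl 61 1 62)))))) (.rp 15 (.thr 37 33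 (.thr 5 53 (.thr 22 3 (.thr 7 52 (.thr 4 6 (.thr 55 38 (.dbl 23 20 39))))))) (.rp 3 (.thr 37 33 (.thr 53 5 (.thr 15 30 (.thr 48 26 (.thr 63 58 (.dbl 61 1 62)))))) .nd))))))))) (.rp 23 (.str 45 (.nv (.thr 3 22 (.thr 15 30 (.thr 11 7 (.thr 26 56 (.dbl 37 33 48))))) (.nv (.thr 15 30 (.thr 37 33 (.thr 5 53 (.thr 0 10 (.thr 40 20 (.dbl 42 43 63)))))) (.nv (.thr 37 33 (.thr 15 30 (.thr 48 26 (.thr 52 56 (.dbl 22 3 7))))) (.rp 37 (.thr 61 1 (.thr 63 62 (.thr 15 30 (.thr 47 31 (.thr 46 44 (.dbl 29 12 13)))))) (.rp 33 (.thr 15 30 (.thr 3 22 (.thr 11 7 (.thr 26 56 (.thr 31 16 (.thr 63 47 (.dbl 61 1 62))))))) (.rp 30 (.thr 37 33 (.thr 53 5 (.thr 22 3 (.thr 52 7 (.thr 48 56 (.thr 63 58 (.dbl 61 1 62))))))) (.rp 15 (.thr 61 1 (.thr 29 13 (.thr 63 62 (.thr 12 46 (.thr 44 28 (.thr 38 35 (.dbl 25 17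 51))))))) .nd)))))))) (.rp 22 (.str 42 (.nv (.thr 61 1 (.dbl 63 0 62)) (.nv (.thr 40 43 (.dbl 0 20 63)) (.rp 63 (.str 56 (.nv (.thr 26 11 (.thr 16 31 (.thr 48 52 (.thr 32 0 (.dbl 37 15 47))))) (.nv (.thr 11 26 (.thr 43 40 (.thr 59 27 (.thr 25 8 (.dbl 57 9 58))))) (.rp 26 (.thr 48 52 (.thr 40 43 (.thr 24 8 (.thr 36 12 (.thr 32 44 (.dbl 0 16 20)))))) (.rp 11 (.thr 48 52 (.thr 40 43 (.thr 24 8 (.thr 36 12 (.thr 32 44 (.dbl 0 16 20)))))) .nd))))) (.rp 0 (.thr 1 61 (.str 25 (.nv (.thr 40 43 (.thr 8 59 (.thr 56 24 (.thr 11 26 (.dbl 9 10 57))))) (.nv (.thr 57 9 (.thr 51 54 (.thr 59 8 (.thr 55 63 (.dbl 38 4 12))))) (.nv (.thr 57 9 (.thr 59 8 (.thr 56 58 (.thr 43 40 (.dbl 11 26 27))))) (.rp 59 (.thr 57 9 (.thr 40 43 (.thr 51 54 (.thr 38 12 (.thr 46 34 (.thr 44 35 (.thr 32 36 (.dbl 47 37 45))))))))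 (.rp 57 (.str 53 (.nv (.thr 40 43 (.thr 5 37 (.thr 9 13 (.thr 8 59 (.thr 11 10 (.dbl 56 24 26)))))) (.nv (.thr 37 5 (.thr 45 33 (.thr 47 32 (.thr 44 46 (.thr 12 28 (.dbl 38 35 51)))))) (.nv (.thr 40 43 (.thr 8 59 (.thr 56 24 (.thr 48 52 (.thr 37 5 (.dbl 26 11 15)))))) (.rp 37 (.thr 8 59 (.thr 40 43 (.thr 56 24 (.thr 52 48 (.thr 55 54 (.thr 38 4 (.thr 44 35 (.dbl 12 28 51)))))))) (.rp 10 (.thr 8 59 (.thr 40 43 (.thr 56 24 (.thr 48 52 (.thr 37 5 (.thr 15 26 (.dbl 45 30 33))))))) (.rp 5 (.thr 8 59 (.thr 40 43 (.thr 56 24 (.thr 48 52 (.thr 58 63 (.dbl 26 10 11)))))) .nd))))))) (.rp 11 (.thr 57 9 (.thr 40 43 (.thr 51 54 (.thr 38 12 (.thr 46 34 (.thr 44 35 (.thr 32 36 (.dbl 47 37 45)))))))) (.rp 10 (.thr 57 9 (.thr 43 40 (.thr 59 8 (.thr 11 27 (.dbl 56 26 58))))) (.rp 9 (.thr 59 8 (.thr 43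 40 (.thr 11 27 (.thr 56 26 (.thr 57 58 (.thr 51 54 (.thr 55 63 (.dbl 38 4 12)))))))) (.rp 8 (.thr 57 9 (.thr 40 43 (.thr 51 54 (.thr 38 12 (.thr 4 55 (.thr 46 34 (.thr 44 35 (.thr 32 36 (.dbl 47 37 45))))))))) .nd))))))))))) .nd))))) (.rp 20 (.thr 61 1 (.thr 63 62 (.thr 42 0 (.thr 3 22 (.dbl 43 23 40))))) (.rp 3 (.thr 61 1 (.str 0 (.nv (.dbl 63 42 62) (.rp 63 (.thr 20 40 (.str 17 (.nv (.thr 23 22 (.thr 25 29 (.thr 57 9 (.dbl 51 34 54)))) (.nv (.thr 29 25 (.thr 45 13 (.thr 37 33 (.thr 5 53 (.dbl 15 10 30))))) (.nv (.thr 51 34 (.thr 57 54 (.dbl 25 9 29))) (.rp 29 (.thr 51 34 (.thr 57 54 (.thr 25 9 (.thr 12 38 (.thr 28 44 (.dbl 22 19 23)))))) (.rp 25 (.str 45 (.nv (.thr 15 30 (.thr 5 10 (.dbl 37 33 53))) (.nv (.thr 15 30 (.thr 37 33 (.thr 48 26 (.thr 52 56 (.dbl 22 7 23))))) (.nv (.thr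 37 33 (.thr 15 30 (.dbl 5 10 53))) (.rp 43 (.thr 23 22 (.thr 37 33 (.thr 5 53 (.dbl 15 10 30)))) (.rp 37 (.thr 13 29 (.thr 15 30 (.thr 12 14 (.thr 4 8 (.thr 38 55 (.dbl 44 28 35)))))) (.rp 33 (.thr 13 29 (.thr 15 30 (.thr 12 14 (.thr 4 8 (.thr 38 55 (.dbl 44 28 35)))))) (.rp 30 (.thr 37 33 (.thr 53 5 (.thr 51 34 (.thr 54 57 (.thr 52 55 (.dbl 22 7 23)))))) (.rp 23 (.str 43 (.nv (.thr 15 30 (.thr 5 10 (.dbl 37 33 53))) (.nv (.thr 37 33 (.thr 15 30 (.dbl 5 10 53))) (.rp 53 (.thr 13 29 (.thr 33 37 (.thr 34 51 (.thr 35 32 (.thr 47 39 (.dbl 44 38 46)))))) (.rp 37 (.thr 13 29 (.thr 15 30 (.thr 12 14 (.thr 4 8 (.thr 38 55 (.dbl 44 28 35)))))) (.rp 33 (.thr 13 29 (.thr 15 30 (.thr 12 14 (.thr 4 8 (.thr 38 55 (.dbl 44 28 35)))))) (.rp 30 (.thr 13 29 (.thr 33 37 (.thr 34 51 (.thr 35 32 (.thr 47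 39 (.dbl 44 38 46)))))) (.rp 15 (.thr 13 29 (.thr 33 37 (.thr 34 51 (.thr 35 32 (.thr 44 38 (.thr 12 28 (.dbl 47 39 46))))))) (.rp 10 (.thr 13 29 (.thr 33 37 (.thr 34 51 (.thr 35 32 (.thr 47 39 (.dbl 44 38 46)))))) (.rp 5 (.thr 13 29 (.thr 33 37 (.thr 34 51 (.thr 35 32 (.thr 47 39 (.dbl 44 38 46)))))) .nd)))))))))) (.rp 15 (.thr 37 33 (.thr 53 5 (.thr 51 34 (.thr 54 57 (.thr 52 55 (.dbl 22 7 23)))))) .nd)))))))))) (.rp 23 (.str 43 (.nv (.thr 29 25 (.thr 45 13 (.thr 37 33 (.thr 5 53 (.dbl 15 10 30))))) (.nv (.thr 51 34 (.thr 57 54 (.dbl 25 9 29))) (.rp 29 (.thr 51 34 (.thr 57 54 (.thr 25 9 (.thr 12 38 (.thr 28 44 (.thr 16 24 (.dbl 19 18 22))))))) (.rp 25 (.str 45 (.nv (.thr 15 30 (.thr 5 10 (.dbl 37 33 53))) (.nv (.thr 37 33 (.thr 15 30 (.dbl 5 10 53))) (.rp 53 (.thr 13 29 (.thr 33 37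 (.thr 34 51 (.thr 35 32 (.thr 47 39 (.dbl 44 38 46)))))) (.rp 37 (.thr 13 29 (.thr 15 30 (.thr 12 14 (.thr 4 8 (.thr 38 55 (.dbl 44 28 35)))))) (.rp 33 (.thr 13 29 (.thr 15 30 (.thr 12 14 (.thr 4 8 (.thr 38 55 (.dbl 44 28 35)))))) (.rp 30 (.thr 13 29 (.thr 33 37 (.thr 34 51 (.thr 35 32 (.thr 47 39 (.dbl 44 38 46)))))) (.rp 15 (.thr 13 29 (.thr 33 37 (.thr 34 51 (.thr 35 32 (.thr 44 38 (.thr 12 28 (.dbl 47 39 46))))))) (.rp 10 (.thr 13 29 (.thr 33 37 (.thr 34 51 (.thr 35 32 (.thr 47 39 (.dbl 44 38 46)))))) (.rp 5 (.thr 13 29 (.thr 33 37 (.thr 34 51 (.thr 35 32 (.thr 47 39 (.dbl 44 38 46)))))) .nd)))))))))) (.rp 18 (.thr 25 29 (.thr 57 9 (.dbl 51 34 54))) (.rp 9 (.thr 25 29 (.thr 51 34 (.thr 12 38 (.thr 28 44 (.thr 16 24 (.dbl 19 18 22)))))) .nd))))))) (.rp 9 (.thr 25 29 (.thr 51 34 (.thr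 12 38 (.thr 28 44 (.dbl 22 19 23))))) .nd))))))))) (.rp 62 (.thr 40 20 (.dbl 42 43 63)) (.rp 42 (.str 17 (.nv (.thr 62 63 (.thr 25 29 (.thr 51 34 (.dbl 57 9 54)))) (.nv (.thr 29 25 (.thr 45 13 (.thr 37 33 (.thr 5 53 (.dbl 15 10 30))))) (.nv (.thr 25 29 (.thr 57 9 (.dbl 51 34 54))) (.rp 62 (.str 22 (.nv (.thr 25 29 (.thr 51 34 (.dbl 57 9 54))) (.nv (.dbl 20 23 40) .nd))) (.rp 29 (.thr 20 40 (.thr 63 62 (.thr 22 23 (.thr 51 34 (.thr 55 59 (.thr 54 57 (.dbl 38 4 6))))))) (.rp 25 (.thr 20 40 (.thr 63 62 (.thr 22 23 (.thr 51 34 (.thr 54 57 (.thr 38 6 (.dbl 55 4 59))))))) (.rp 9 (.thr 25 29 (.thr 20 40 (.thr 51 34 (.thr 22 23 (.thr 28 19 (.dbl 12 38 44)))))) .nd)))))))) (.rp 33 (.str 17 (.nv (.thr 25 29 (.thr 51 34 (.dbl 57 9 54))) (.nv (.dbl 63 42 62) (.rp 48 (.str 18 (.nv (.thr 51 34 (.thr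 25 29 (.dbl 57 9 54))) (.nv (.dbl 63 42 62) (.rp 51 (.str 50 (.nv (.thr 19 16 (.thr 40 20 (.dbl 42 43 63))) (.nv (.dbl 63 42 62) (.rp 63 (.thr 20 40 (.thr 25 29 (.thr 19 16 (.dbl 22 23 28)))) (.rp 42 (.thr 20 40 (.thr 25 29 (.thr 19 16 (.dbl 22 23 28)))) (.rp 19 (.str 35 (.nv (.dbl 63 42 62) (.rp 63 (.thr 38 44 (.thr 20 40 (.thr 26 14 (.dbl 22 23 30)))) (.rp 62 (.thr 40 20 (.dbl 42 43 63)) (.rp 42 (.thr 38 44 (.thr 20 40 (.thr 22 23 (.dbl 26 14 30)))) .nd))))) .nd)))))) .nd)))) (.rp 18 (.str 48 (.nv (.thr 16 32 (.thr 26 31 (.dbl 56 11 52))) (.nv (.dbl 63 42 62) (.rp 50 (.thr 34 51 (.dbl 63 42 62)) (.rp 34 (.str 50 (.nv (.thr 56 52 (.thr 26 11 (.dbl 16 31 32))) (.nv (.dbl 63 42 62) (.rp 35 (.thr 32 16 (.dbl 63 42 62)) (.rp 32 (.str 35 (.nv (.thr 38 44 (.thr 26 14 (.dbl 56 11 52))) (.nv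 (.dbl 63 42 62) .nd))) .nd))))) .nd))))) .nd))))) (.rp 17 (.str 33 (.nv (.dbl 63 42 62) (.rp 63 (.thr 37 45 (.thr 5 53 (.thr 40 20 (.thr 15 10 (.thr 48 26 (.thr 32 16 (.dbl 42 43 47))))))) (.rp 62 (.thr 40 20 (.dbl 42 43 63)) (.rp 42 (.thr 37 45 (.thr 5 53 (.thr 15 10 (.thr 26 48 (.thr 31 16 (.dbl 63 47 62)))))) .nd))))) .nd)))))))) (.rp 1 (.thr 22 3 (.str 0 (.nv (.dbl 20 23 40) (.rp 40 (.str 17 (.nv (.thr 23 20 (.thr 25 29 (.thr 19 28 (.thr 31 27 (.dbl 16 18 26))))) (.nv (.thr 25 29 (.thr 51 34 (.dbl 57 9 54))) (.rp 29 (.thr 51 34 (.thr 57 54 (.thr 25 9 (.thr 28 19 (.dbl 12 38 44))))) (.rp 25 (.thr 51 34 (.thr 54 57 (.thr 38 6 (.thr 55 4 (.dbl 63 42 59))))) (.rp 18 (.thr 25 29 (.thr 57 9 (.dbl 51 34 54))) .nd)))))) (.rp 33 (.str 17 (.nv (.thr 25 29 (.thr 51 34 (.dbl 57 9 54))) (.nv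 (.dbl 20 23 40) (.rp 48 (.str 18 (.nv (.thr 51 34 (.thr 16 19 (.dbl 26 30 31))) (.nv (.dbl 20 23 40) (.rp 51 (.str 50 (.nv (.thr 19 16 (.dbl 25 28 29)) (.nv (.dbl 20 23 40) (.rp 19 (.str 35 (.nv (.thr 26 30 (.dbl 38 14 44)) (.nv (.dbl 20 23 40) .nd))) .nd)))) .nd)))) (.rp 18 (.str 48 (.nv (.thr 16 32 (.thr 26 31 (.dbl 56 11 52))) (.nv (.dbl 20 23 40) (.rp 50 (.thr 34 51 (.dbl 20 23 40)) (.rp 34 (.str 50 (.nv (.thr 56 52 (.thr 26 11 (.dbl 16 31 32))) (.nv (.dbl 20 23 40) (.rp 35 (.thr 32 16 (.dbl 20 23 40)) (.rp 32 (.str 35 (.nv (.thr 25 29 (.thr 28 19 (.dbl 44 12 38))) (.nv (.dbl 20 23 40) .nd))) .nd))))) .nd))))) .nd))))) (.rp 23 (.thr 40 20 (.dbl 42 43 63)) (.rp 20 (.str 17 (.nv (.thr 25 29 (.thr 28 19 (.thr 12 44 (.thr 4 8 (.dbl 38 51 55))))) (.nv (.thr 25 29 (.thr 51 34 (.dbl 57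 9 54))) (.rp 51 (.thr 25 29 (.thr 19 28 (.thr 16 18 (.thr 48 32 (.thr 56 52 (.dbl 26 11 31)))))) (.rp 29 (.thr 51 34 (.thr 57 54 (.thr 25 9 (.thr 28 19 (.dbl 12 38 44))))) (.rp 25 (.thr 51 34 (.thr 54 57 (.thr 38 6 (.thr 55 4 (.dbl 63 42 59))))) .nd)))))) (.rp 17 (.str 33 (.nv (.dbl 20 23 40) (.rp 40 (.thr 37 45 (.thr 5 53 (.thr 52 7 (.thr 48 56 (.dbl 15 10 26))))) (.rp 23 (.thr 40 20 (.dbl 42 43 63)) (.rp 20 (.thr 37 45 (.thr 5 53 (.thr 52 7 (.thr 48 56 (.dbl 15 10 26))))) .nd))))) .nd)))))))) (.rp 0 (.str 57 (.nv (.thr 3 22 (.thr 25 9 (.thr 51 54 (.thr 38 12 (.dbl 35 19 44))))) (.nv (.thr 25 9 (.thr 29 17 (.thr 51 54 (.thr 12 38 (.thr 63 46 (.dbl 61 1 62)))))) (.nv (.thr 25 9 (.thr 51 54 (.thr 12 38 (.thr 28 44 (.dbl 22 3 19))))) (.rp 54 (.thr 25 9 (.thr 1 61 (.thr 29 17 (.thr 22 3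 (.thr 28 19 (.thr 31 30 (.thr 16 26 (.dbl 20 23 24)))))))) (.rp 51 (.thr 25 9 (.thr 1 61 (.thr 17 29 (.thr 22 3 (.thr 19 28 (.thr 16 18 (.thr 31 26 (.dbl 23 20 27)))))))) (.rp 38 (.thr 25 9 (.thr 1 61 (.thr 29 17 (.thr 22 3 (.thr 28 19 (.thr 31 30 (.thr 16 26 (.dbl 20 23 24)))))))) (.rp 25 (.thr 1 61 (.thr 54 51 (.thr 22 3 (.thr 23 20 (.thr 38 6 (.thr 55 4 (.thr 7 39 (.dbl 52 37 53)))))))) (.rp 22 (.thr 9 25 (.thr 1 61 (.thr 5 13 (.thr 37 53 (.thr 45 33 (.thr 15 30 (.thr 26 48 (.thr 56 11 (.thr 51 54 (.thr 39 27 (.thr 38 36 (.thr 55 4 (.dbl 59 58 63))))))))))))) (.rp 12 (.thr 9 25 (.thr 1 61 (.thr 5 13 (.thr 37 53 (.thr 45 33 (.thr 15 30 (.thr 48 26 (.thr 52 56 (.dbl 22 3 7))))))))) (.rp 9 (.thr 61 1 (.thr 3 22 (.thr 51 54 (.thr 35 19 (.thr 38 44 (.thr 55 4 (.dbl 63 59 62))))))) (.rp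 3 (.thr 1 61 (.thr 25 9 (.thr 29 17 (.thr 51 54 (.thr 12 38 (.thr 28 44 (.thr 46 63 (.thr 30 31 (.thr 15 45 (.dbl 14 13 62)))))))))) .nd)))))))))))) .nd))))))))))))))

theorem w196 : WinAt (2199025352704, 562949953421316) :=
  chF (K := []) kn c196 2199025352704 562949953421316 49
    [] (by decide +kernel) (by decide +kernel)

/-- A certificate. -/
noncomputable def c197 : Ct := (.str 37 (.nv (.thr 5 53 (.thr 33 45 (.thr 13 9 (.dbl 49 17 25)))) (.rp 57 (.thr 33 45 (.thr 5 53 (.thr 49 17 (.dbl 13 9 25)))) (.rp 53 (.thr 33 45 (.thr 49 17 (.thr 13 25 (.str 22 (.nv (.thr 7 52 (.thr 3 60 (.thr 15 11 (.dbl 48 18 26)))) (.nv (.thr 5 9 (.thr 23 20 (.thr 7 52 (.thr 55 39 (.dbl 4 6 38))))) (.rp 55 (.thr 5 9 (.thr 60 3 (.thr 52 7 (.thr 48 56 (.thr 15 26 (.thr 0 10 (.dbl 20 23 40))))))) (.rp 52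 (.thr 5 9 (.thr 3 60 (.thr 23 20 (.thr 63 43 (.thr 0 42 (.thr 15 10 (.dbl 48 18 26))))))) (.rp 34 (.str 18 (.nv (.dbl 3 48 60) (.rp 60 (.thr 48 3 (.dbl 26 15 30)) (.rp 51 (.str 0 (.nv (.thr 5 9 (.thr 15 10 (.dbl 26 30 48))) (.nv (.dbl 3 48 60) (.rp 48 (.thr 60 3 (.dbl 20 23 40)) (.rp 38 (.str 12 (.nv (.thr 5 9 (.dbl 15 10 14)) (.nv (.dbl 3 48 60) (.rp 46 (.thr 42 63 (.dbl 3 48 60)) (.rp 42 (.str 46 (.nv (.thr 8 4 (.thr 5 9 (.dbl 15 10 14))) (.nv (.dbl 3 48 60) (.rp 26 (.thr 14 15 (.dbl 3 48 60)) (.rp 14 (.thr 26 30 (.dbl 48 3 15)) (.rp 8 (.str 59 (.nv (.thr 5 9 (.dbl 15 10 14)) (.nv (.dbl 3 48 60) (.rp 26 (.thr 14 15 (.dbl 3 48 60)) (.rp 14 (.thr 26 30 (.dbl 48 3 15)) .nd))))) .nd)))))) (.rp 26 (.thr 14 15 (.dbl 3 48 60)) (.rp 14 (.thr 26 30 (.dbl 48 3 15)) .nd))))))) (.rp 12 (.str 38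 (.nv (.thr 4 55 (.thr 5 9 (.dbl 6 7 54))) (.nv (.dbl 3 48 60) .nd))) .nd)))))) (.rp 48 (.thr 5 9 (.thr 7 52 (.thr 4 6 (.thr 23 20 (.dbl 55 38 39))))) (.rp 3 (.thr 5 9 (.thr 7 52 (.thr 23 20 (.thr 55 39 (.dbl 4 6 38))))) (.rp 0 (.str 51 (.nv (.dbl 3 48 60) (.rp 60 (.thr 48 3 (.dbl 26 15 30)) (.rp 48 (.thr 9 5 (.thr 3 60 (.thr 35 19 (.thr 38 44 (.dbl 6 12 54))))) (.rp 3 (.thr 5 9 (.thr 7 52 (.thr 23 20 (.thr 55 39 (.dbl 4 6 38))))) .nd))))) .nd))))))) (.rp 18 (.str 34 (.nv (.thr 3 60 (.thr 7 52 (.thr 9 5 (.thr 12 6 (.dbl 15 11 14))))) (.nv (.thr 32 35 (.thr 20 23 (.thr 60 3 (.thr 0 40 (.dbl 42 47 63))))) (.nv (.thr 5 9 (.thr 23 20 (.thr 7 52 (.thr 55 39 (.dbl 4 6 38))))) (.rp 19 (.str 16 (.nv (.thr 5 9 (.thr 7 52 (.thr 23 20 (.thr 55 39 (.dbl 4 6 38))))) (.nv (.thr 32 35 (.thr 48 0 (.dbl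 26 15 31))) .nd))) (.rp 16 (.str 19 (.nv (.thr 3 60 (.dbl 35 32 51)) (.nv (.thr 35 32 (.dbl 3 51 60)) (.rp 60 (.thr 9 5 (.thr 35 32 (.thr 3 51 (.thr 38 44 (.dbl 6 12 54))))) (.rp 51 (.thr 9 5 (.thr 7 52 (.thr 3 60 (.thr 15 11 (.dbl 12 6 14))))) (.rp 35 (.thr 9 5 (.thr 7 52 (.thr 3 60 (.thr 15 11 (.dbl 12 6 14))))) (.rp 32 (.thr 9 5 (.thr 7 52 (.thr 3 60 (.thr 15 11 (.dbl 12 6 14))))) (.rp 3 (.thr 5 9 (.thr 7 52 (.thr 23 20 (.thr 55 39 (.dbl 4 6 38))))) .nd)))))))) .nd)))))) (.rp 7 (.thr 5 9 (.thr 3 60 (.thr 23 20 (.thr 63 43 (.thr 0 42 (.thr 15 10 (.dbl 48 18 26))))))) .nd))))))))))) (.rp 49 (.thr 53 5 (.str 48 (.nv (.thr 15 26 (.thr 45 33 (.thr 60 30 (.thr 22 3 (.dbl 52 7 56))))) (.nv (.thr 26 15 (.thr 16 31 (.thr 0 32 (.dbl 63 42 58)))) (.rp 34 (.str 18 (.nv (.dbl 33 3 45) (.rp 45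 (.thr 3 33 (.thr 22 60 (.dbl 26 15 30))) (.rp 33 (.thr 26 15 (.thr 22 30 (.thr 60 3 (.dbl 52 7 56)))) (.rp 3 (.thr 26 15 (.thr 16 31 (.thr 0 32 (.dbl 63 42 58)))) .nd))))) (.rp 26 (.thr 33 45 (.thr 63 58 (.thr 42 0 (.thr 43 40 (.dbl 3 18 23))))) (.rp 18 (.str 34 (.nv (.thr 33 45 (.thr 32 35 (.thr 42 47 (.dbl 0 16 63)))) (.nv (.thr 15 26 (.thr 45 33 (.thr 60 30 (.thr 22 3 (.dbl 52 7 56))))) (.nv (.thr 26 15 (.thr 16 31 (.thr 0 32 (.dbl 63 42 58)))) .nd)))) (.rp 15 (.thr 33 45 (.thr 63 58 (.thr 0 42 (.thr 32 16 (.thr 34 35 (.thr 3 18 (.thr 23 43 (.dbl 22 20 60)))))))) .nd)))))))) (.rp 45 (.thr 5 53 (.thr 13 9 (.thr 49 25 (.thr 17 33 (.str 0 (.nv (.thr 34 51 (.thr 42 63 (.thr 38 46 (.thr 35 44 (.thr 47 32 (.dbl 39 36 43)))))) (.nv (.thr 15 10 (.thr 26 48 (.thr 31 16 (.dbl 63 42 47)))) (.rp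 63 (.thr 34 51 (.thr 15 10 (.thr 48 26 (.thr 32 16 (.thr 42 47 (.thr 40 43 (.thr 44 36 (.dbl 38 35 46)))))))) (.rp 58 (.thr 15 10 (.thr 48 26 (.thr 42 63 (.dbl 32 16 47)))) (.rp 48 (.thr 34 51 (.thr 10 15 (.thr 42 63 (.thr 58 26 (.thr 47 32 (.thr 43 40 (.thr 39 35 (.dbl 38 36 46)))))))) (.rp 47 (.thr 15 10 (.thr 48 26 (.thr 42 63 (.thr 40 43 (.thr 60 20 (.thr 52 56 (.dbl 22 3 7))))))) (.rp 42 (.thr 15 10 (.thr 26 48 (.thr 16 31 (.thr 18 19 (.thr 11 56 (.thr 7 3 (.dbl 22 30 52))))))) (.rp 34 (.str 18 (.nv (.thr 16 19 (.thr 26 31 (.thr 22 30 (.thr 60 3 (.dbl 20 23 40))))) (.nv (.thr 15 10 (.thr 26 48 (.thr 11 56 (.thr 3 7 (.dbl 22 30 60))))) (.nv (.thr 16 19 (.thr 32 48 (.dbl 42 47 63))) (.rp 35 (.str 32 (.nv (.dbl 42 47 63) (.nv (.dbl 16 19 48) .nd))) (.rp 32 (.str 35 (.nv (.thr 16 19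 (.thr 26 31 (.thr 22 30 (.thr 60 3 (.dbl 20 23 40))))) (.nv (.thr 15 10 (.thr 38 44 (.thr 4 55 (.dbl 12 8 14)))) (.nv (.thr 16 19 (.thr 26 31 (.dbl 15 10 48))) .nd)))) (.rp 22 (.thr 15 10 (.thr 48 26 (.dbl 16 19 32))) .nd))))))) .nd))))))))))))) (.rp 34 (.str 18 (.nv (.thr 33 45 (.thr 48 3 (.thr 26 15 (.thr 16 31 (.dbl 17 19 49))))) (.nv (.thr 5 53 (.thr 13 9 (.thr 49 25 (.dbl 33 17 45)))) (.rp 49 (.thr 53 5 (.thr 33 45 (.thr 48 3 (.thr 26 15 (.thr 16 31 (.thr 0 32 (.dbl 63 42 58))))))) (.rp 45 (.thr 5 53 (.thr 13 9 (.thr 49 25 (.thr 33 17 (.thr 48 3 (.thr 15 26 (.thr 0 10 (.thr 32 16 (.dbl 42 47 63))))))))) (.rp 33 (.str 26 (.nv (.thr 5 53 (.thr 9 13 (.thr 16 31 (.thr 17 19 (.dbl 25 29 57))))) (.nv (.thr 11 56 (.thr 22 30 (.thr 7 52 (.dbl 3 15 60)))) (.rp 35 (.str 32 (.nv (.thr 11 56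 (.thr 15 48 (.thr 3 7 (.dbl 22 30 60)))) (.nv (.thr 48 15 (.dbl 16 0 31)) (.rp 48 (.thr 5 53 (.thr 9 13 (.thr 11 56 (.thr 10 8 (.dbl 42 47 58))))) (.rp 15 (.thr 16 31 (.thr 0 48 (.dbl 42 47 63))) .nd))))) (.rp 32 (.str 35 (.nv (.thr 5 53 (.thr 9 13 (.thr 16 31 (.thr 17 19 (.dbl 25 29 57))))) (.nv (.thr 11 56 (.thr 22 30 (.thr 7 52 (.dbl 3 15 60)))) .nd))) .nd))))) (.rp 17 (.thr 5 53 (.thr 33 45 (.thr 48 3 (.thr 15 26 (.thr 0 10 (.thr 32 16 (.dbl 42 47 63))))))) (.rp 13 (.str 17 (.nv (.dbl 33 45 49) (.rp 49 (.thr 16 19 (.thr 26 31 (.thr 48 15 (.dbl 33 3 45)))) (.rp 45 (.thr 29 25 (.thr 33 49 (.thr 48 3 (.thr 16 19 (.dbl 26 15 31))))) (.rp 33 (.thr 53 5 (.thr 16 19 (.thr 26 31 (.thr 48 15 (.thr 63 58 (.dbl 0 32 42)))))) (.rp 29 (.thr 45 33 (.thr 16 19 (.thr 26 31 (.thr 30 22 (.dbl 15 48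 60))))) .nd)))))) .nd)))))))) (.rp 33 (.str 26 (.nv (.thr 5 53 (.thr 9 13 (.thr 11 56 (.thr 10 8 (.dbl 15 0 48))))) (.nv (.thr 16 31 (.thr 48 15 (.thr 0 32 (.thr 53 5 (.dbl 63 42 58))))) (.rp 53 (.thr 15 48 (.thr 31 16 (.thr 63 47 (.thr 11 56 (.thr 3 7 (.thr 43 23 (.dbl 42 0 40))))))) (.rp 48 (.thr 5 53 (.thr 9 13 (.thr 11 56 (.thr 10 8 (.thr 0 15 (.dbl 42 58 63)))))) (.rp 34 (.str 18 (.nv (.thr 5 53 (.thr 9 13 (.thr 16 31 (.thr 17 19 (.dbl 25 29 57))))) (.nv (.thr 11 56 (.thr 22 30 (.thr 7 52 (.dbl 3 15 60)))) (.rp 35 (.str 32 (.nv (.thr 11 56 (.thr 15 48 (.thr 3 7 (.dbl 22 30 60)))) (.nv (.thr 48 15 (.dbl 16 0 31)) (.rp 48 (.thr 5 53 (.thr 9 13 (.thr 11 56 (.thr 10 8 (.dbl 42 47 58))))) (.rp 15 (.thr 16 31 (.thr 0 48 (.dbl 42 47 63))) .nd))))) (.rp 32 (.str 35 (.nv (.thr 5 53 (.thr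 9 13 (.thr 16 31 (.thr 17 19 (.dbl 25 29 57))))) (.nv (.thr 11 56 (.thr 22 30 (.thr 7 52 (.dbl 3 15 60)))) .nd))) .nd))))) (.rp 18 (.str 34 (.nv (.thr 5 53 (.thr 9 13 (.thr 11 56 (.thr 10 8 (.dbl 15 0 48))))) (.nv (.thr 48 15 (.thr 16 31 (.thr 0 32 (.thr 53 5 (.dbl 63 42 58))))) (.rp 53 (.thr 48 15 (.thr 16 31 (.thr 0 32 (.thr 56 11 (.thr 60 52 (.thr 40 20 (.dbl 42 43 63))))))) (.rp 48 (.str 3 (.nv (.thr 5 53 (.thr 9 13 (.thr 6 12 (.thr 7 4 (.dbl 22 52 60))))) (.nv (.thr 5 53 (.thr 9 13 (.thr 6 12 (.thr 7 4 (.dbl 11 15 56))))) (.nv (.thr 11 56 (.thr 7 15 (.dbl 22 52 60))) (.rp 51 (.str 49 (.nv (.thr 11 56 (.thr 7 15 (.dbl 22 52 60))) (.nv (.thr 5 53 (.dbl 13 9 25)) .nd))) (.rp 49 (.str 51 (.nv (.thr 17 0 (.thr 25 29 (.thr 12 38 (.dbl 9 6 57)))) (.nv (.thr 11 56 (.thr 7 15 (.dbl 22 52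 60))) (.rp 57 (.thr 53 5 (.thr 11 56 (.thr 7 15 (.dbl 22 52 60)))) (.rp 53 (.str 57 (.nv (.thr 17 0 (.dbl 25 9 29)) (.nv (.dbl 60 22 54) (.rp 63 (.str 58 (.nv (.dbl 56 11 59) (.nv (.dbl 60 22 54) (.rp 60 (.str 62 (.nv (.thr 17 0 (.dbl 25 9 29)) (.nv (.dbl 56 11 59) (.rp 56 (.str 52 (.nv (.thr 16 31 (.thr 35 19 (.thr 38 44 (.dbl 42 10 46)))) (.nv (.thr 25 9 (.dbl 17 0 29)) .nd))) .nd)))) .nd)))) (.rp 58 (.str 63 (.nv (.dbl 0 17 42) (.nv (.dbl 60 22 54) (.rp 62 (.thr 54 60 (.dbl 0 17 42)) (.rp 54 (.str 62 (.nv (.thr 55 59 (.thr 23 43 (.dbl 22 20 60))) (.nv (.dbl 0 17 42) (.rp 55 (.str 52 (.nv (.dbl 0 17 42) (.nv (.dbl 22 7 60) .nd))) .nd)))) .nd))))) .nd))))) .nd))))) (.rp 15 (.thr 53 5 (.thr 22 60 (.thr 52 7 (.thr 55 54 (.thr 20 23 (.dbl 4 36 38)))))) (.rp 7 (.thr 5 53 (.thr 9 13 (.thr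 11 56 (.thr 10 8 (.thr 0 15 (.dbl 42 58 63)))))) .nd)))))))) (.rp 15 (.thr 5 53 (.thr 9 13 (.thr 11 56 (.thr 10 8 (.thr 42 58 (.thr 38 46 (.thr 47 32 (.thr 39 36 (.dbl 35 43 44))))))))) (.rp 5 (.thr 48 15 (.thr 16 31 (.thr 0 32 (.thr 56 11 (.thr 60 52 (.thr 40 20 (.dbl 42 43 63))))))) (.rp 0 (.thr 5 53 (.thr 48 15 (.thr 56 11 (.thr 52 60 (.thr 7 22 (.thr 4 6 (.thr 38 55 (.dbl 36 20 39)))))))) .nd)))))))) (.rp 15 (.thr 5 53 (.thr 9 13 (.thr 57 25 (.thr 56 11 (.thr 58 59 (.thr 42 10 (.thr 47 32 (.thr 63 0 (.thr 43 40 (.thr 3 23 (.thr 35 39 (.thr 51 19 (.dbl 60 22 54))))))))))))) (.rp 5 (.thr 15 48 (.thr 31 16 (.thr 63 47 (.thr 11 56 (.thr 3 7 (.thr 43 23 (.dbl 42 0 40))))))) (.rp 0 (.thr 5 53 (.thr 48 15 (.thr 56 11 (.thr 52 60 (.thr 7 22 (.thr 4 6 (.thr 38 55 (.dbl 36 20 39)))))))) .nd))))))))))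 (.rp 25 (.thr 45 33 (.thr 53 5 (.str 22 (.nv (.thr 52 7 (.thr 60 3 (.thr 15 30 (.dbl 48 26 56)))) (.nv (.thr 20 23 (.thr 60 3 (.thr 0 40 (.thr 15 30 (.thr 63 42 (.dbl 48 26 58)))))) (.nv (.thr 20 23 (.thr 52 7 (.thr 4 36 (.dbl 55 38 54)))) (.rp 34 (.str 18 (.nv (.thr 20 23 (.thr 52 7 (.thr 4 36 (.dbl 55 38 54)))) (.nv (.thr 60 3 (.dbl 30 15 26)) (.rp 35 (.str 32 (.nv (.thr 20 23 (.thr 52 7 (.thr 4 36 (.dbl 55 38 54)))) (.nv (.thr 60 3 (.dbl 30 15 26)) .nd))) (.rp 32 (.str 35 (.nv (.thr 38 44 (.thr 52 7 (.dbl 54 6 55))) (.nv (.thr 60 3 (.dbl 30 15 26)) .nd))) .nd))))) (.rp 18 (.str 34 (.nv (.thr 20 23 (.thr 52 7 (.thr 4 36 (.dbl 55 38 54)))) (.nv (.thr 52 7 (.thr 60 3 (.thr 48 56 (.dbl 15 26 30)))) (.rp 52 (.thr 3 60 (.thr 23 20 (.thr 63 43 (.thr 0 42 (.thr 48 58 (.thr 16 32 (.dbl 26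 15 31))))))) (.rp 48 (.thr 3 60 (.thr 52 7 (.thr 20 23 (.thr 4 36 (.dbl 55 38 54))))) (.rp 7 (.thr 3 60 (.thr 23 20 (.thr 63 43 (.thr 0 42 (.thr 48 58 (.thr 16 32 (.dbl 26 15 31))))))) (.rp 4 (.thr 3 60 (.thr 7 52 (.thr 15 11 (.thr 48 26 (.thr 63 58 (.dbl 23 20 43)))))) (.rp 3 (.str 48 (.nv (.thr 63 58 (.thr 42 0 (.thr 47 32 (.dbl 46 38 44)))) (.nv (.thr 52 7 (.thr 60 56 (.dbl 15 26 30))) (.rp 15 (.thr 20 23 (.thr 63 58 (.thr 0 42 (.thr 60 40 (.dbl 52 7 56))))) .nd)))) .nd)))))))) .nd)))))))) (.rp 18 (.str 34 (.nv (.thr 33 45 (.thr 32 35 (.thr 42 47 (.thr 0 63 (.dbl 17 49 51))))) (.nv (.thr 5 53 (.thr 33 45 (.thr 13 9 (.dbl 49 17 25)))) (.rp 49 (.thr 33 45 (.thr 32 35 (.thr 42 47 (.thr 0 63 (.thr 48 16 (.thr 15 26 (.dbl 5 10 53))))))) (.rp 45 (.thr 5 53 (.thr 13 9 (.thr 49 25 (.thr 33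 17 (.thr 32 35 (.thr 42 47 (.thr 0 63 (.thr 15 10 (.dbl 48 16 26))))))))) (.rp 33 (.str 48 (.nv (.thr 5 53 (.thr 9 13 (.thr 26 15 (.thr 16 31 (.thr 0 32 (.thr 17 51 (.dbl 25 29 57))))))) (.nv (.thr 5 53 (.thr 9 13 (.thr 15 26 (.thr 0 10 (.thr 17 51 (.dbl 25 29 57)))))) (.nv (.thr 26 15 (.thr 16 31 (.thr 0 32 (.thr 53 5 (.dbl 63 42 58))))) (.rp 53 (.thr 26 15 (.thr 56 11 (.thr 60 52 (.thr 16 31 (.thr 0 32 (.thr 20 40 (.dbl 22 3 23))))))) (.rp 26 (.thr 53 5 (.thr 63 58 (.thr 42 0 (.thr 38 46 (.thr 44 35 (.thr 36 39 (.dbl 32 40 47))))))) (.rp 15 (.thr 53 5 (.thr 63 58 (.thr 0 42 (.thr 51 17 (.thr 55 59 (.thr 38 4 (.thr 36 39 (.dbl 12 24 25)))))))) (.rp 5 (.thr 26 15 (.thr 56 11 (.thr 60 52 (.thr 16 31 (.thr 0 32 (.thr 20 40 (.dbl 22 3 23))))))) (.rp 0 (.thr 53 5 (.thr 63 58 (.thr 15 26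 (.thr 47 31 (.thr 42 32 (.thr 38 46 (.thr 35 44 (.dbl 39 36 43)))))))) .nd))))))))) (.rp 17 (.thr 5 53 (.thr 33 45 (.thr 32 35 (.thr 42 47 (.thr 0 63 (.thr 15 10 (.dbl 48 16 26))))))) (.rp 13 (.str 17 (.nv (.dbl 33 45 49) (.rp 49 (.thr 33 45 (.thr 29 25 (.thr 32 35 (.thr 42 47 (.dbl 0 51 63))))) (.rp 45 (.thr 29 25 (.thr 33 49 (.thr 32 35 (.thr 42 47 (.dbl 0 51 63))))) (.rp 33 (.thr 53 5 (.thr 0 51 (.thr 63 42 (.thr 48 58 (.thr 16 32 (.dbl 26 15 31)))))) (.rp 29 (.thr 45 33 (.thr 0 51 (.thr 42 63 (.thr 46 38 (.dbl 47 32 44))))) .nd)))))) .nd)))))))) (.rp 17 (.str 42 (.nv (.thr 0 63 (.thr 5 53 (.thr 15 10 (.thr 40 43 (.thr 45 33 (.dbl 60 20 30)))))) (.nv (.thr 0 63 (.thr 5 53 (.thr 15 10 (.thr 32 47 (.dbl 48 16 26))))) (.nv (.thr 43 40 (.thr 45 33 (.thr 47 32 (.thr 44 46 (.dbl 35 38 39)))))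 (.rp 34 (.str 18 (.nv (.thr 43 40 (.thr 33 45 (.thr 3 48 (.dbl 63 0 23)))) (.nv (.thr 0 63 (.thr 32 47 (.thr 5 53 (.thr 48 16 (.dbl 15 10 26))))) (.nv (.thr 53 5 (.thr 33 45 (.thr 48 3 (.dbl 63 0 58)))) (.rp 63 (.thr 45 33 (.thr 43 40 (.thr 47 32 (.thr 35 39 (.dbl 44 38 46))))) (.rp 48 (.thr 45 33 (.thr 43 40 (.thr 47 32 (.thr 35 39 (.dbl 44 38 46))))) (.rp 0 (.str 51 (.nv (.thr 43 40 (.thr 47 32 (.thr 35 39 (.thr 3 19 (.thr 23 63 (.dbl 22 20 60)))))) (.nv (.thr 5 53 (.thr 9 13 (.thr 57 25 (.thr 60 54 (.thr 22 3 (.thr 30 26 (.dbl 45 15 33))))))) (.nv (.thr 43 40 (.thr 47 32 (.thr 35 39 (.thr 3 19 (.dbl 33 45 48))))) (.rp 60 (.thr 53 5 (.thr 33 45 (.thr 47 32 (.thr 48 3 (.thr 15 26 (.dbl 63 31 58)))))) (.rp 3 (.thr 45 33 (.thr 43 40 (.thr 47 32 (.thr 35 39 (.dbl 44 38 46))))) .nd))))))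 .nd))))))) (.rp 18 (.str 34 (.nv (.thr 32 47 (.thr 38 46 (.thr 44 35 (.dbl 36 39 40)))) (.nv (.thr 32 47 (.dbl 33 35 45)) (.rp 47 (.thr 33 45 (.thr 35 32 (.dbl 38 44 46))) (.rp 35 (.thr 45 33 (.thr 46 38 (.dbl 47 32 44))) (.rp 32 (.thr 45 33 (.thr 40 43 (.thr 0 63 (.thr 5 53 (.thr 15 10 (.dbl 60 20 30)))))) (.rp 19 (.str 16 (.nv (.thr 33 45 (.thr 35 32 (.dbl 38 44 46))) (.nv (.thr 32 47 (.dbl 0 48 63)) (.rp 32 (.thr 53 5 (.thr 63 0 (.thr 48 58 (.dbl 26 15 31)))) .nd)))) (.rp 16 (.str 19 (.nv (.thr 32 47 (.thr 38 46 (.thr 44 35 (.dbl 36 39 40)))) (.nv (.thr 32 47 (.dbl 33 35 45)) (.rp 47 (.thr 33 45 (.thr 35 32 (.dbl 38 44 46))) (.rp 35 (.thr 45 33 (.thr 46 38 (.dbl 47 32 44))) (.rp 32 (.thr 38 46 (.thr 55 4 (.thr 35 44 (.thr 51 3 (.dbl 63 0 59))))) .nd)))))) .nd)))))))) .nd)))))) (.rp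 13 (.thr 53 5 (.thr 45 33 (.str 22 (.nv (.thr 52 7 (.thr 60 3 (.thr 15 30 (.dbl 48 26 56)))) (.nv (.thr 20 23 (.thr 60 3 (.thr 0 40 (.thr 15 30 (.thr 63 42 (.dbl 48 26 58)))))) (.nv (.thr 20 23 (.thr 52 7 (.thr 4 36 (.dbl 55 38 54)))) (.rp 34 (.str 18 (.nv (.thr 20 23 (.thr 52 7 (.thr 4 36 (.dbl 55 38 54)))) (.nv (.thr 60 3 (.dbl 30 15 26)) (.rp 35 (.str 32 (.nv (.thr 20 23 (.thr 52 7 (.thr 4 36 (.dbl 55 38 54)))) (.nv (.thr 30 26 (.dbl 60 3 15)) (.rp 38 (.thr 60 3 (.dbl 30 15 26)) .nd)))) (.rp 32 (.str 35 (.nv (.thr 38 44 (.thr 52 7 (.dbl 54 6 55))) (.nv (.thr 60 3 (.dbl 30 15 26)) .nd))) .nd))))) (.rp 18 (.str 34 (.nv (.thr 20 23 (.thr 52 7 (.thr 4 36 (.dbl 55 38 54)))) (.nv (.thr 52 7 (.thr 60 3 (.thr 48 56 (.dbl 15 26 30)))) (.rp 52 (.thr 3 60 (.thr 23 20 (.thr 63 43 (.thr 0 42 (.thr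 48 58 (.thr 16 32 (.dbl 26 15 31))))))) (.rp 48 (.thr 3 60 (.thr 52 7 (.thr 20 23 (.thr 4 36 (.dbl 55 38 54))))) (.rp 7 (.thr 3 60 (.thr 23 20 (.thr 63 43 (.thr 0 42 (.thr 48 58 (.thr 16 32 (.dbl 26 15 31))))))) (.rp 4 (.thr 3 60 (.thr 7 52 (.thr 15 11 (.thr 48 26 (.thr 63 58 (.dbl 23 20 43)))))) (.rp 3 (.str 48 (.nv (.thr 20 23 (.thr 63 58 (.thr 0 42 (.thr 60 40 (.dbl 52 7 56))))) (.nv (.thr 63 58 (.thr 42 0 (.thr 47 32 (.dbl 46 38 44)))) (.nv (.thr 15 26 (.thr 60 30 (.dbl 52 7 56))) .nd)))) .nd)))))))) .nd)))))))) (.rp 9 (.thr 53 5 (.thr 33 45 (.thr 17 49 (.thr 29 25 (.str 48 (.nv (.thr 63 58 (.thr 0 42 (.thr 32 16 (.dbl 34 35 51)))) (.nv (.thr 63 58 (.thr 42 0 (.thr 43 40 (.dbl 3 18 23)))) (.nv (.thr 18 3 (.thr 16 19 (.dbl 26 15 31))) (.rp 18 (.str 34 (.nv (.thr 63 58 (.thr 42 0 (.dbl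 46 12 38))) (.nv (.thr 32 35 (.dbl 0 16 51)) (.rp 0 (.thr 32 35 (.thr 58 63 (.thr 42 47 (.dbl 26 10 15)))) .nd)))) .nd))))))))) (.rp 5 (.thr 45 33 (.str 42 (.nv (.thr 43 40 (.thr 63 0 (.thr 3 23 (.thr 60 22 (.thr 15 30 (.dbl 47 31 32)))))) (.nv (.thr 47 32 (.thr 43 40 (.thr 44 46 (.dbl 35 38 39)))) (.rp 47 (.thr 43 40 (.thr 63 0 (.thr 3 23 (.thr 60 22 (.thr 15 30 (.thr 11 7 (.dbl 26 48 56))))))) (.rp 43 (.thr 47 32 (.thr 46 44 (.thr 63 0 (.thr 15 31 (.thr 12 29 (.thr 14 13 (.dbl 30 60 62))))))) (.rp 40 (.thr 47 32 (.thr 63 0 (.thr 15 31 (.thr 60 30 (.thr 3 22 (.thr 11 7 (.dbl 26 48 56))))))) (.rp 34 (.str 18 (.nv (.thr 0 63 (.thr 40 43 (.thr 60 20 (.thr 30 15 (.dbl 22 3 26))))) (.nv (.thr 43 40 (.thr 47 32 (.thr 35 39 (.dbl 44 38 46)))) (.rp 47 (.thr 63 0 (.thr 43 40 (.thr 3 23 (.thr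 60 22 (.thr 15 30 (.thr 11 7 (.dbl 26 48 56))))))) (.rp 43 (.thr 0 63 (.thr 32 47 (.thr 48 16 (.thr 15 26 (.thr 60 30 (.thr 20 40 (.dbl 22 3 23))))))) (.rp 40 (.thr 0 63 (.thr 32 47 (.thr 48 16 (.thr 15 26 (.thr 60 30 (.thr 22 3 (.dbl 52 7 56))))))) (.rp 35 (.thr 32 47 (.thr 0 63 (.thr 48 16 (.thr 15 26 (.thr 60 30 (.dbl 40 20 43)))))) (.rp 32 (.str 35 (.nv (.thr 0 63 (.thr 40 43 (.thr 60 20 (.thr 30 15 (.dbl 22 3 26))))) (.nv (.thr 43 40 (.thr 39 47 (.dbl 38 36 44))) (.rp 47 (.thr 63 0 (.thr 43 40 (.thr 3 23 (.thr 51 19 (.thr 55 59 (.dbl 38 4 44)))))) (.rp 43 (.thr 63 0 (.thr 44 38 (.thr 47 46 (.thr 15 31 (.thr 30 60 (.dbl 26 22 48)))))) (.rp 40 (.thr 63 0 (.thr 44 38 (.thr 47 46 (.thr 43 39 (.thr 3 23 (.thr 15 31 (.dbl 60 22 30))))))) .nd)))))) .nd)))))))) (.rp 32 (.thr 43 40 (.thr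 63 0 (.thr 3 23 (.thr 60 22 (.thr 15 30 (.thr 11 7 (.dbl 26 48 56))))))) (.rp 18 (.str 34 (.nv (.thr 47 32 (.dbl 46 38 44)) (.rp 48 (.str 3 (.nv (.thr 46 38 (.dbl 47 32 44)) (.nv (.thr 43 40 (.dbl 63 0 23)) (.rp 51 (.str 49 (.nv (.thr 46 38 (.dbl 47 32 44)) (.nv (.thr 43 40 (.dbl 63 0 23)) .nd))) (.rp 49 (.str 51 (.nv (.thr 38 46 (.dbl 35 19 44)) (.nv (.dbl 0 17 63) (.rp 57 (.str 53 (.nv (.thr 38 46 (.dbl 35 19 44)) (.nv (.dbl 0 17 63) .nd))) (.rp 53 (.str 57 (.nv (.dbl 60 22 54) (.nv (.dbl 0 17 63) (.rp 63 (.str 58 (.nv (.thr 17 0 (.dbl 25 9 29)) (.nv (.dbl 60 22 54) (.rp 60 (.str 62 (.nv (.thr 38 46 (.dbl 35 19 44)) (.nv (.thr 56 59 (.dbl 26 10 11)) (.rp 56 (.str 52 (.nv (.thr 46 38 (.dbl 47 32 44)) (.nv (.thr 25 9 (.dbl 17 0 29)) .nd))) .nd)))) .nd)))) (.rp 58 (.thr 63 0 (.dbl 43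 23 40)) .nd))))) .nd))))) .nd))))) (.rp 47 (.thr 38 46 (.thr 0 63 (.thr 4 55 (.thr 12 8 (.dbl 51 17 25))))) (.rp 46 (.thr 43 40 (.thr 47 32 (.thr 63 0 (.thr 15 31 (.thr 3 23 (.dbl 60 22 30)))))) (.rp 44 (.thr 38 46 (.thr 0 63 (.thr 4 55 (.thr 12 8 (.dbl 51 17 25))))) (.rp 38 (.thr 43 40 (.thr 47 32 (.thr 63 0 (.thr 15 31 (.thr 3 23 (.dbl 60 22 30)))))) (.rp 32 (.thr 38 46 (.thr 0 63 (.thr 4 55 (.thr 12 8 (.dbl 51 17 25))))) (.rp 3 (.str 48 (.nv (.thr 46 38 (.dbl 47 32 44)) (.nv (.thr 63 0 (.thr 58 53 (.dbl 26 10 15))) (.nv (.thr 32 47 (.dbl 0 16 63)) .nd)))) .nd))))))))) .nd)))))))))) .nd))))))))))))))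

theorem w197 : WinAt (2199025352706, 2306968909120536580) :=
  chF (K := []) kn c197 2199025352706 2306968909120536580 61
    [1125917086973956] (by decide +kernel) (by decide +kernel)

/-- A certificate. -/
noncomputable def c198 : Ct := (.str 25 (.nv (.thr 17 29 (.thr 49 33 (.thr 13 37 (.dbl 9 5 57)))) (.rp 57 (.str 49 (.nv (.dbl 17 29 33) (.rp 60 (.str 54 (.nv (.dbl 17 29 33) (.rp 63 (.str 62 (.nv (.dbl 17 29 33) (.rp 59 (.str 55 (.nv (.thr 53 52 (.dbl 37 5 13)) (.nv (.dbl 17 29 33) (.rp 58 (.str 56 (.nv (.thr 53 52 (.dbl 37 5 13)) (.nv (.dbl 17 29 33) (.rp 53 (.str 48 (.nv (.thr 26 11 (.dbl 37 13 15)) (.nv (.dbl 17 29 33) .nd))) .nd)))) (.rp 56 (.thr 58 50 (.dbl 17 29 33)) .nd))))) (.rp 55 (.str 59 (.nv (.dbl 17 29 33) (.rp 33 (.thr 58 50 (.thr 42 8 (.thr 26 10 (.thr 11 56 (.dbl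 27 24 43))))) (.rp 29 (.thr 33 17 (.dbl 37 13 45)) (.rp 17 (.thr 58 50 (.thr 42 8 (.thr 26 10 (.thr 11 56 (.dbl 27 24 43))))) .nd))))) (.rp 33 (.thr 29 17 (.thr 37 13 (.thr 53 5 (.thr 50 58 (.thr 55 52 (.thr 38 4 (.thr 26 14 (.thr 31 16 (.thr 30 28 (.dbl 22 6 18)))))))))) (.rp 29 (.thr 33 17 (.dbl 37 13 45)) (.rp 17 (.thr 37 13 (.thr 45 33 (.thr 53 5 (.thr 50 58 (.thr 55 52 (.thr 38 4 (.thr 14 26 (.thr 46 30 (.dbl 44 35 47))))))))) .nd))))))) (.rp 62 (.str 63 (.nv (.dbl 17 29 33) (.rp 42 (.str 22 (.nv (.thr 37 13 (.thr 52 7 (.dbl 53 5 55))) (.nv (.dbl 17 29 33) (.rp 29 (.thr 33 17 (.dbl 37 13 45)) .nd)))) (.rp 33 (.thr 37 13 (.thr 53 5 (.thr 48 58 (.thr 15 26 (.thr 47 31 (.dbl 42 0 32)))))) (.rp 29 (.thr 33 17 (.dbl 37 13 45)) (.rp 22 (.thr 42 0 (.dbl 17 29 33)) (.rp 17 (.thr 37 13 (.thr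 53 5 (.thr 48 58 (.thr 15 26 (.thr 47 31 (.dbl 42 0 32)))))) .nd))))))) (.rp 33 (.thr 29 17 (.thr 37 13 (.thr 53 5 (.thr 52 55 (.thr 22 7 (.thr 28 19 (.thr 31 30 (.thr 16 26 (.dbl 20 23 24))))))))) (.rp 29 (.thr 33 17 (.dbl 37 13 45)) (.rp 17 (.thr 37 13 (.thr 45 33 (.thr 53 5 (.thr 55 52 (.thr 38 4 (.thr 44 35 (.thr 36 39 (.thr 32 40 (.dbl 47 42 46))))))))) .nd))))))) (.rp 54 (.str 60 (.nv (.dbl 17 29 33) (.rp 33 (.thr 17 29 (.thr 22 3 (.thr 19 28 (.thr 23 20 (.thr 31 27 (.dbl 16 18 26)))))) (.rp 29 (.thr 33 17 (.dbl 37 13 45)) (.rp 17 (.thr 37 13 (.thr 45 33 (.thr 15 30 (.thr 48 26 (.thr 52 56 (.dbl 22 3 7)))))) .nd))))) (.rp 33 (.str 63 (.nv (.thr 13 37 (.thr 9 5 (.thr 29 17 (.thr 12 46 (.thr 3 6 (.thr 23 43 (.dbl 22 20 60))))))) (.nv (.thr 37 13 (.thr 53 5 (.thr 48 58 (.thr 15 26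 (.thr 47 31 (.dbl 42 0 32)))))) (.nv (.thr 29 17 (.thr 13 37 (.thr 5 9 (.thr 12 46 (.thr 15 14 (.dbl 0 10 42)))))) (.rp 60 (.str 54 (.nv (.thr 0 42 (.thr 29 17 (.thr 12 46 (.thr 4 8 (.thr 37 13 (.thr 53 5 (.dbl 55 38 52))))))) (.nv (.thr 37 13 (.thr 53 5 (.thr 48 58 (.thr 15 26 (.thr 47 31 (.dbl 42 0 32)))))) (.nv (.thr 29 17 (.thr 13 37 (.thr 5 9 (.thr 12 46 (.thr 15 14 (.dbl 0 10 42)))))) (.rp 42 (.thr 29 17 (.thr 37 13 (.thr 53 5 (.thr 48 58 (.thr 26 15 (.thr 12 46 (.dbl 24 27 36))))))) (.rp 37 (.thr 29 17 (.thr 12 46 (.thr 0 42 (.thr 4 8 (.thr 38 55 (.thr 22 6 (.thr 28 19 (.thr 31 30 (.thr 20 23 (.dbl 16 24 26)))))))))) (.rp 29 (.thr 13 37 (.thr 9 5 (.thr 42 0 (.thr 40 43 (.thr 8 59 (.thr 56 24 (.dbl 11 10 26))))))) (.rp 13 (.thr 29 17 (.thr 12 46 (.thr 0 42 (.thr 4 8 (.thr 38 55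 (.thr 22 6 (.thr 28 19 (.thr 31 30 (.thr 20 23 (.dbl 16 24 26)))))))))) (.rp 5 (.thr 37 13 (.thr 42 0 (.thr 40 43 (.thr 47 32 (.thr 15 31 (.thr 8 59 (.thr 56 24 (.dbl 26 11 48)))))))) (.rp 0 (.thr 37 13 (.thr 53 5 (.thr 55 52 (.thr 48 58 (.thr 38 4 (.thr 36 39 (.thr 12 24 (.dbl 29 17 46)))))))) .nd)))))))))) (.rp 54 (.str 60 (.nv (.thr 22 3 (.thr 29 17 (.thr 12 46 (.dbl 28 19 44)))) (.nv (.thr 0 42 (.thr 20 40 (.dbl 22 3 23))) (.rp 22 (.thr 37 13 (.thr 53 5 (.thr 48 58 (.thr 56 52 (.dbl 26 11 15))))) (.rp 3 (.thr 37 13 (.thr 53 5 (.thr 48 58 (.thr 56 52 (.dbl 26 11 15))))) (.rp 0 (.thr 37 13 (.thr 53 5 (.thr 22 3 (.thr 52 7 (.dbl 48 56 58))))) .nd)))))) (.rp 37 (.thr 42 0 (.thr 59 8 (.thr 43 40 (.thr 23 3 (.thr 27 11 (.thr 19 31 (.dbl 22 20 28))))))) (.rp 29 (.thr 13 37 (.thr 9 5 (.thr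 42 0 (.thr 8 59 (.thr 40 43 (.thr 56 24 (.dbl 11 10 26))))))) (.rp 13 (.thr 42 0 (.thr 59 8 (.thr 43 40 (.thr 23 3 (.thr 27 11 (.thr 19 31 (.dbl 22 20 28))))))) (.rp 10 (.thr 37 13 (.thr 53 5 (.thr 48 58 (.thr 15 26 (.thr 42 0 (.dbl 47 31 32)))))) (.rp 5 (.thr 42 0 (.thr 59 8 (.thr 43 40 (.thr 23 3 (.thr 27 11 (.thr 19 31 (.dbl 22 20 28))))))) (.rp 0 (.thr 37 13 (.thr 53 5 (.thr 48 58 (.thr 15 26 (.thr 47 31 (.thr 42 32 (.thr 59 8 (.thr 43 40 (.thr 3 23 (.dbl 11 7 27)))))))))) .nd)))))))))))) (.rp 29 (.thr 33 17 (.dbl 37 13 45)) (.rp 17 (.str 60 (.nv (.thr 37 13 (.thr 5 53 (.thr 45 33 (.thr 15 30 (.thr 0 10 (.thr 40 20 (.dbl 42 43 63))))))) (.nv (.thr 22 3 (.thr 23 20 (.thr 37 13 (.thr 5 53 (.thr 7 52 (.thr 4 6 (.dbl 55 38 39))))))) (.nv (.thr 3 22 (.thr 37 13 (.thr 45 33 (.thr 15 30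 (.thr 26 48 (.dbl 11 7 56)))))) (.rp 45 (.thr 13 37 (.thr 9 5 (.thr 3 22 (.thr 12 6 (.thr 44 28 (.thr 38 35 (.thr 4 55 (.thr 0 8 (.thr 40 20 (.dbl 42 43 63)))))))))) (.rp 37 (.str 0 (.nv (.thr 40 20 (.dbl 42 43 63)) (.nv (.thr 20 40 (.dbl 22 3 23)) (.rp 40 (.thr 22 3 (.thr 19 28 (.thr 23 20 (.thr 27 31 (.thr 42 63 (.thr 59 8 (.thr 11 43 (.dbl 26 24 56)))))))) (.rp 20 (.thr 22 3 (.thr 19 28 (.thr 42 63 (.thr 59 8 (.thr 43 40 (.thr 27 11 (.thr 31 23 (.dbl 26 16 24)))))))) .nd))))) (.rp 34 (.str 0 (.nv (.thr 37 13 (.thr 5 53 (.thr 15 10 (.dbl 45 30 33)))) (.nv (.thr 20 40 (.dbl 22 3 23)) (.rp 50 (.str 18 (.nv (.thr 37 13 (.thr 5 53 (.thr 15 10 (.dbl 45 30 33)))) (.nv (.thr 20 40 (.dbl 22 3 23)) .nd))) (.rp 18 (.str 50 (.nv (.thr 37 13 (.thr 5 53 (.thr 15 10 (.dbl 45 30 33)))) (.nv (.thr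 20 40 (.dbl 22 3 23)) (.rp 19 (.str 16 (.nv (.thr 32 48 (.thr 37 13 (.dbl 42 47 63))) (.nv (.thr 20 40 (.dbl 22 3 23)) (.rp 35 (.thr 3 22 (.thr 40 20 (.dbl 42 43 63))) (.rp 3 (.str 35 (.nv (.thr 48 32 (.thr 26 31 (.dbl 37 13 15))) (.nv (.thr 40 20 (.dbl 42 43 63)) (.rp 48 (.str 33 (.nv (.thr 26 31 (.dbl 38 14 44)) (.nv (.dbl 37 13 45) .nd))) .nd)))) .nd))))) (.rp 16 (.str 19 (.nv (.thr 42 63 (.dbl 40 20 43)) (.nv (.dbl 22 3 28) .nd))) .nd))))) .nd))))) (.rp 13 (.thr 22 3 (.thr 20 23 (.thr 0 40 (.thr 19 28 (.thr 63 42 (.str 45 (.nv (.thr 37 33 (.thr 53 5 (.thr 48 58 (.dbl 52 7 56)))) (.nv (.thr 15 30 (.thr 31 47 (.thr 26 16 (.thr 56 11 (.dbl 48 37 52))))) (.nv (.thr 37 33 (.thr 5 53 (.dbl 15 10 30))) (.rp 48 (.thr 15 30 (.thr 5 10 (.dbl 37 33 53))) (.rp 37 (.str 47 (.nv (.dbl 15 30 31)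 (.rp 31 (.thr 30 15 (.thr 44 46 (.thr 38 35 (.thr 4 55 (.thr 52 36 (.thr 56 48 (.dbl 26 11 18))))))) (.rp 30 (.thr 31 15 (.thr 44 46 (.thr 38 35 (.thr 4 55 (.thr 52 36 (.thr 48 56 (.dbl 16 26 32))))))) (.rp 15 (.thr 44 46 (.thr 38 35 (.thr 4 55 (.thr 52 36 (.thr 48 56 (.thr 16 32 (.thr 54 6 (.thr 26 31 (.thr 58 53 (.dbl 50 14 62)))))))))) .nd))))) .nd))))))))))) (.rp 0 (.str 34 (.nv (.thr 22 3 (.thr 19 28 (.thr 23 20 (.thr 31 27 (.thr 37 13 (.thr 45 33 (.thr 15 30 (.dbl 26 16 48)))))))) (.nv (.thr 22 3 (.thr 19 28 (.thr 23 20 (.thr 37 13 (.thr 5 53 (.thr 7 52 (.thr 4 6 (.dbl 55 38 39)))))))) (.nv (.thr 37 13 (.thr 45 33 (.thr 15 30 (.thr 22 3 (.thr 48 26 (.dbl 52 7 56)))))) (.rp 45 (.thr 13 37 (.thr 9 5 (.thr 3 22 (.thr 12 6 (.thr 44 28 (.thr 38 35 (.thr 42 46 (.thr 8 59 (.thr 40 43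 (.thr 56 24 (.dbl 11 10 26))))))))))) (.rp 37 (.str 24 (.nv (.thr 22 3 (.thr 20 23 (.dbl 28 16 19))) (.nv (.thr 22 3 (.thr 19 28 (.thr 23 20 (.dbl 27 26 31)))) (.rp 28 (.thr 22 3 (.thr 20 23 (.thr 26 27 (.thr 56 11 (.thr 40 8 (.thr 52 48 (.thr 4 36 (.thr 38 55 (.dbl 42 43 46))))))))) (.rp 23 (.thr 22 3 (.thr 26 27 (.thr 56 11 (.thr 48 52 (.thr 12 36 (.dbl 28 19 44)))))) (.rp 22 (.thr 26 27 (.thr 56 11 (.thr 16 31 (.thr 28 20 (.thr 12 44 (.dbl 48 36 52)))))) (.rp 20 (.thr 22 3 (.thr 19 28 (.thr 26 27 (.thr 30 18 (.thr 56 11 (.thr 40 8 (.thr 48 52 (.thr 31 16 (.thr 15 45 (.thr 63 47 (.thr 58 53 (.dbl 42 10 43)))))))))))) (.rp 19 (.thr 26 27 (.thr 56 11 (.thr 48 52 (.thr 12 36 (.thr 28 44 (.dbl 16 20 31)))))) (.rp 3 (.thr 26 27 (.thr 56 11 (.thr 48 52 (.thr 12 36 (.thr 28 44 (.dbl 16 20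 31)))))) .nd))))))))) (.rp 22 (.thr 37 13 (.thr 45 33 (.thr 15 30 (.thr 26 48 (.thr 24 27 (.thr 16 31 (.thr 28 20 (.thr 44 12 (.thr 38 35 (.dbl 46 42 47)))))))))) (.rp 19 (.thr 37 13 (.thr 45 33 (.thr 3 22 (.thr 15 30 (.thr 26 48 (.dbl 11 7 56)))))) (.rp 13 (.str 45 (.nv (.thr 33 37 (.thr 22 3 (.thr 28 19 (.thr 35 32 (.dbl 44 12 38))))) (.nv (.thr 22 3 (.thr 19 28 (.thr 23 20 (.thr 27 31 (.thr 30 15 (.dbl 26 18 24)))))) (.nv (.thr 15 30 (.thr 22 3 (.thr 37 33 (.thr 48 26 (.dbl 52 7 56))))) (.rp 22 (.thr 37 33 (.thr 15 30 (.thr 26 48 (.thr 24 27 (.thr 16 31 (.thr 28 20 (.thr 44 12 (.thr 38 35 (.dbl 46 42 47))))))))) (.rp 19 (.thr 37 33 (.thr 3 22 (.thr 15 30 (.thr 26 48 (.dbl 11 7 56))))) (.rp 3 (.thr 37 33 (.thr 53 5 (.thr 15 30 (.thr 48 26 (.thr 63 58 (.thr 47 31 (.thr 42 32 (.dbl 46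 38 44)))))))) .nd))))))) (.rp 3 (.thr 37 13 (.thr 53 5 (.thr 45 33 (.thr 15 30 (.thr 48 26 (.thr 63 58 (.thr 47 31 (.thr 42 32 (.dbl 46 38 44))))))))) .nd)))))))))) .nd))))))))) .nd))))))) (.rp 49 (.thr 57 9 (.str 56 (.nv (.thr 26 11 (.thr 27 24 (.thr 29 17 (.thr 31 16 (.thr 19 23 (.dbl 28 22 30)))))) (.nv (.thr 11 26 (.thr 59 58 (.thr 42 8 (.dbl 43 27 40)))) (.rp 50 (.str 48 (.nv (.thr 26 11 (.thr 15 37 (.thr 60 52 (.thr 22 3 (.dbl 30 18 45))))) (.nv (.thr 58 59 (.thr 63 53 (.thr 42 0 (.dbl 26 10 11)))) (.rp 34 (.str 18 (.nv (.thr 17 29 (.thr 26 11 (.dbl 16 19 31))) (.nv (.thr 60 52 (.dbl 3 22 33)) (.rp 17 (.str 0 (.nv (.thr 26 11 (.dbl 16 31 32)) (.nv (.thr 60 52 (.dbl 3 22 33)) .nd))) .nd)))) (.rp 26 (.thr 60 52 (.thr 59 58 (.thr 42 8 (.thr 40 43 (.dbl 0 20 63))))) (.rp 18 (.str 34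 (.nv (.thr 29 17 (.thr 58 59 (.thr 63 53 (.thr 42 0 (.dbl 46 12 38))))) (.nv (.thr 26 11 (.thr 16 31 (.thr 32 0 (.thr 33 35 (.dbl 37 15 45))))) (.nv (.thr 58 59 (.thr 63 53 (.thr 42 0 (.dbl 26 10 11)))) (.rp 0 (.thr 58 59 (.thr 26 11 (.thr 37 15 (.dbl 53 5 63)))) .nd))))) (.rp 11 (.thr 60 52 (.thr 59 58 (.thr 8 42 (.thr 40 24 (.thr 20 0 (.dbl 22 3 23)))))) (.rp 10 (.thr 59 58 (.thr 8 42 (.thr 26 11 (.dbl 24 27 40)))) .nd)))))))) (.rp 48 (.str 50 (.nv (.thr 17 29 (.thr 26 11 (.thr 16 31 (.thr 19 18 (.thr 28 22 (.dbl 24 20 27)))))) (.nv (.thr 59 58 (.thr 42 8 (.thr 43 40 (.dbl 11 26 27)))) (.rp 42 (.thr 17 29 (.thr 26 11 (.thr 24 27 (.thr 16 31 (.thr 28 20 (.dbl 19 18 22)))))) (.rp 27 (.thr 29 17 (.thr 26 11 (.thr 14 38 (.thr 31 16 (.thr 30 28 (.thr 62 46 (.dbl 58 54 59))))))) (.rp 26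 (.thr 59 58 (.thr 42 8 (.thr 43 40 (.thr 11 27 (.thr 63 0 (.thr 3 23 (.thr 60 22 (.thr 15 7 (.thr 30 45 (.thr 31 47 (.dbl 29 17 28))))))))))) (.rp 11 (.thr 17 29 (.thr 59 58 (.thr 8 42 (.thr 24 40 (.thr 26 27 (.thr 16 31 (.thr 28 20 (.dbl 19 18 22)))))))) (.rp 10 (.thr 59 58 (.thr 8 42 (.thr 26 11 (.dbl 24 27 40)))) (.rp 8 (.thr 29 17 (.thr 58 59 (.thr 62 54 (.thr 26 11 (.thr 10 42 (.thr 14 38 (.thr 31 16 (.dbl 30 28 46)))))))) .nd))))))))) (.rp 27 (.thr 17 29 (.thr 59 58 (.thr 8 42 (.thr 24 40 (.thr 26 11 (.thr 16 31 (.thr 28 20 (.dbl 19 18 22)))))))) (.rp 26 (.thr 17 29 (.thr 59 58 (.thr 42 8 (.thr 40 43 (.thr 0 63 (.thr 60 20 (.thr 48 52 (.thr 16 32 (.thr 19 18 (.dbl 22 3 28)))))))))) (.rp 11 (.thr 17 29 (.thr 59 58 (.thr 8 42 (.thr 24 40 (.thr 26 27 (.thr 16 31 (.thr 28 20 (.dbl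 19 18 22)))))))) (.rp 8 (.thr 29 17 (.thr 58 59 (.thr 26 11 (.thr 10 42 (.thr 27 24 (.thr 31 16 (.thr 19 23 (.dbl 28 22 30)))))))) .nd)))))))))) (.rp 45 (.thr 9 57 (.thr 17 29 (.thr 13 5 (.dbl 49 33 37)))) (.rp 37 (.str 59 (.nv (.thr 8 42 (.thr 57 9 (.thr 56 58 (.thr 26 11 (.dbl 24 27 40))))) (.nv (.thr 9 57 (.thr 8 42 (.thr 11 10 (.thr 26 56 (.dbl 27 24 43))))) (.nv (.thr 42 8 (.thr 57 9 (.thr 43 40 (.thr 56 58 (.dbl 11 26 27))))) (.rp 57 (.thr 42 8 (.thr 43 40 (.thr 27 11 (.thr 63 0 (.thr 23 3 (.thr 19 31 (.dbl 22 20 28))))))) (.rp 56 (.thr 9 57 (.thr 29 17 (.thr 8 42 (.thr 11 10 (.thr 27 43 (.thr 26 24 (.thr 31 16 (.thr 19 23 (.dbl 28 22 30))))))))) (.rp 42 (.thr 57 9 (.thr 17 29 (.thr 56 58 (.thr 26 11 (.thr 24 27 (.thr 16 31 (.thr 28 20 (.dbl 19 18 22)))))))) (.rp 27 (.thr 9 57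 (.thr 42 8 (.thr 43 40 (.thr 63 0 (.thr 3 23 (.thr 12 6 (.dbl 29 17 46))))))) (.rp 26 (.thr 9 57 (.thr 42 8 (.thr 43 40 (.thr 63 0 (.thr 3 23 (.thr 12 6 (.dbl 29 17 46))))))) (.rp 11 (.thr 9 57 (.thr 42 8 (.thr 43 40 (.thr 63 0 (.thr 3 23 (.thr 12 6 (.dbl 29 17 46))))))) (.rp 9 (.thr 42 8 (.thr 43 40 (.thr 11 27 (.thr 63 0 (.thr 3 23 (.thr 15 7 (.thr 31 47 (.dbl 26 16 56)))))))) (.rp 8 (.thr 57 9 (.thr 17 29 (.thr 33 49 (.thr 56 58 (.thr 11 26 (.thr 43 27 (.thr 42 40 (.thr 63 0 (.thr 3 23 (.thr 48 18 (.dbl 60 22 52))))))))))) .nd)))))))))))) (.rp 33 (.str 59 (.nv (.thr 9 57 (.thr 8 42 (.thr 11 10 (.thr 26 56 (.dbl 27 24 43))))) (.nv (.thr 57 9 (.thr 56 58 (.thr 11 26 (.thr 42 8 (.dbl 43 27 40))))) (.rp 57 (.thr 42 8 (.thr 43 40 (.thr 27 11 (.thr 63 0 (.thr 23 3 (.thr 19 31 (.dbl 22 20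 28))))))) (.rp 56 (.thr 9 57 (.thr 29 17 (.thr 8 42 (.thr 11 10 (.thr 27 43 (.thr 26 24 (.thr 31 16 (.thr 19 23 (.dbl 28 22 30))))))))) (.rp 43 (.thr 57 9 (.thr 56 58 (.thr 26 11 (.thr 24 27 (.dbl 8 40 42))))) (.rp 42 (.thr 57 9 (.thr 17 29 (.thr 56 58 (.thr 26 11 (.thr 24 27 (.thr 16 31 (.thr 28 20 (.dbl 19 18 22)))))))) (.rp 27 (.thr 9 57 (.thr 42 8 (.thr 43 40 (.thr 63 0 (.thr 3 23 (.thr 12 6 (.dbl 29 17 46))))))) (.rp 26 (.thr 9 57 (.thr 42 8 (.thr 43 40 (.thr 63 0 (.thr 3 23 (.thr 12 6 (.dbl 29 17 46))))))) (.rp 11 (.thr 9 57 (.thr 42 8 (.thr 43 40 (.thr 63 0 (.thr 3 23 (.thr 12 6 (.dbl 29 17 46))))))) (.rp 9 (.thr 42 8 (.thr 43 40 (.thr 11 27 (.thr 63 0 (.thr 3 23 (.thr 15 7 (.thr 31 47 (.dbl 26 16 56)))))))) (.rp 8 (.thr 57 9 (.thr 56 58 (.thr 11 26 (.thr 43 27 (.thr 42 40 (.thr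 63 0 (.thr 3 23 (.thr 15 7 (.thr 31 47 (.thr 60 22 (.thr 30 45 (.dbl 29 17 28)))))))))))) .nd)))))))))))) (.rp 29 (.str 13 (.nv (.dbl 9 5 57) (.rp 57 (.thr 5 9 (.dbl 37 49 53)) (.rp 9 (.str 3 (.nv (.thr 37 49 (.thr 33 45 (.thr 48 18 (.thr 15 26 (.thr 7 11 (.dbl 22 52 60)))))) (.nv (.thr 22 60 (.thr 19 28 (.thr 23 20 (.thr 31 27 (.thr 63 43 (.thr 15 47 (.thr 11 7 (.dbl 26 16 56)))))))) (.nv (.thr 37 49 (.thr 33 45 (.thr 53 5 (.thr 48 18 (.thr 63 58 (.thr 43 23 (.dbl 42 0 40))))))) (.rp 57 (.thr 37 49 (.thr 53 5 (.thr 33 45 (.thr 48 18 (.thr 63 58 (.thr 43 23 (.dbl 42 0 40))))))) .nd))))) (.rp 5 (.str 16 (.nv (.thr 31 26 (.thr 49 37 (.thr 17 33 (.thr 19 18 (.thr 22 28 (.dbl 23 20 27)))))) (.nv (.thr 9 57 (.thr 26 31 (.thr 11 56 (.thr 27 24 (.thr 59 43 (.dbl 8 10 42)))))) (.nv (.thr 26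 31 (.thr 24 27 (.thr 28 20 (.thr 49 37 (.thr 17 33 (.dbl 19 18 22)))))) (.rp 49 (.thr 57 9 (.thr 26 31 (.thr 24 27 (.thr 56 11 (.thr 8 40 (.dbl 59 42 58)))))) (.rp 31 (.thr 49 37 (.thr 17 33 (.thr 57 9 (.thr 19 18 (.thr 28 22 (.thr 24 20 (.thr 26 27 (.thr 56 11 (.thr 8 40 (.dbl 59 42 58)))))))))) (.rp 28 (.thr 49 37 (.thr 17 33 (.thr 9 57 (.thr 18 19 (.thr 26 31 (.thr 30 22 (.thr 27 24 (.thr 11 56 (.thr 59 43 (.dbl 8 10 42)))))))))) (.rp 27 (.thr 49 37 (.thr 17 33 (.thr 57 9 (.thr 19 18 (.thr 28 22 (.thr 24 20 (.thr 26 31 (.thr 56 11 (.thr 8 40 (.dbl 59 42 58)))))))))) (.rp 26 (.thr 49 37 (.thr 17 33 (.thr 19 18 (.thr 22 28 (.thr 23 20 (.thr 31 27 (.thr 3 60 (.thr 63 43 (.thr 15 47 (.thr 12 14 (.dbl 9 6 57))))))))))) .nd))))))))) .nd))))) (.rp 17 (.str 42 (.nv (.thr 0 63 (.thr 9 57 (.thr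 40 43 (.thr 60 20 (.thr 3 22 (.thr 12 6 (.dbl 8 4 59))))))) (.nv (.thr 0 63 (.thr 9 57 (.thr 5 13 (.thr 10 15 (.dbl 8 11 59))))) (.nv (.thr 43 40 (.thr 57 9 (.thr 59 8 (.thr 56 58 (.dbl 11 26 27))))) (.rp 59 (.str 38 (.nv (.thr 0 63 (.thr 55 4 (.thr 9 57 (.thr 5 13 (.thr 10 15 (.thr 11 8 (.dbl 26 56 58))))))) (.nv (.thr 34 46 (.thr 35 44 (.thr 32 33 (.thr 43 40 (.dbl 47 37 39))))) (.rp 63 (.thr 55 4 (.thr 34 46 (.thr 43 40 (.thr 35 44 (.thr 47 39 (.dbl 32 33 37)))))) (.rp 55 (.thr 63 0 (.thr 34 46 (.thr 43 40 (.thr 35 44 (.thr 47 39 (.dbl 32 33 37)))))) (.rp 47 (.thr 34 46 (.thr 43 40 (.thr 63 0 (.thr 3 23 (.thr 9 57 (.thr 6 12 (.dbl 22 54 60))))))) (.rp 45 (.thr 34 46 (.thr 43 40 (.thr 35 44 (.thr 47 39 (.dbl 32 33 37))))) (.rp 39 (.thr 34 46 (.thr 35 44 (.thr 33 32 (.thr 9 57 (.thr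 5 13 (.dbl 37 45 53)))))) .nd)))))))) (.rp 57 (.thr 0 63 (.thr 59 8 (.thr 40 43 (.thr 60 20 (.thr 3 22 (.str 37 (.nv (.thr 53 5 (.thr 33 45 (.thr 48 18 (.dbl 32 16 47)))) (.nv (.thr 49 13 (.thr 45 33 (.thr 5 53 (.dbl 15 10 30)))) (.nv (.thr 32 47 (.thr 48 16 (.thr 56 52 (.dbl 26 11 15)))) (.nv (.thr 45 33 (.thr 15 30 (.dbl 5 10 53))) (.rp 53 (.thr 49 13 (.thr 32 47 (.thr 48 16 (.dbl 33 18 45)))) .nd))))))))))) (.rp 10 (.thr 57 9 (.thr 43 40 (.thr 59 8 (.thr 11 27 (.dbl 56 26 58))))) (.rp 9 (.str 34 (.nv (.thr 0 63 (.thr 38 46 (.thr 40 43 (.thr 44 35 (.thr 60 20 (.thr 12 28 (.dbl 4 8 55))))))) (.nv (.thr 43 40 (.thr 38 46 (.thr 35 44 (.thr 32 33 (.dbl 47 37 39))))) (.rp 47 (.thr 43 40 (.thr 59 8 (.thr 11 27 (.thr 56 26 (.thr 58 57 (.thr 63 0 (.thr 3 23 (.thr 60 22 (.dbl 48 52 53)))))))))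 (.rp 46 (.thr 43 40 (.thr 59 8 (.thr 11 27 (.thr 63 0 (.thr 3 23 (.thr 15 7 (.thr 31 47 (.dbl 26 16 56)))))))) (.rp 44 (.thr 43 40 (.thr 59 8 (.thr 11 27 (.thr 63 0 (.thr 3 23 (.thr 15 7 (.thr 31 47 (.dbl 26 16 56)))))))) (.rp 43 (.thr 0 63 (.thr 38 46 (.thr 35 44 (.thr 32 33 (.thr 16 48 (.thr 26 31 (.thr 24 27 (.thr 20 28 (.thr 60 40 (.dbl 22 3 23)))))))))) (.rp 40 (.thr 59 8 (.thr 0 63 (.thr 38 46 (.thr 35 44 (.thr 32 33 (.thr 16 48 (.thr 26 31 (.thr 47 37 (.thr 43 39 (.dbl 27 11 24)))))))))) (.rp 39 (.thr 43 40 (.thr 59 8 (.thr 0 63 (.thr 38 46 (.thr 35 44 (.thr 32 33 (.thr 16 48 (.thr 26 31 (.dbl 27 11 24))))))))) (.rp 38 (.thr 43 40 (.thr 59 8 (.thr 11 27 (.thr 63 0 (.thr 3 23 (.thr 15 7 (.thr 31 47 (.dbl 26 16 56)))))))) (.rp 35 (.thr 43 40 (.thr 59 8 (.thr 11 27 (.thr 63 0 (.thr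 3 23 (.thr 15 7 (.thr 31 47 (.dbl 26 16 56)))))))) .nd))))))))))) (.rp 8 (.thr 9 57 (.thr 40 43 (.thr 0 63 (.thr 5 13 (.thr 15 10 (.thr 60 20 (.thr 45 30 (.dbl 37 33 53)))))))) (.rp 0 (.str 34 (.nv (.thr 9 57 (.thr 5 13 (.thr 38 46 (.thr 35 44 (.thr 32 33 (.dbl 37 47 53)))))) (.nv (.thr 59 8 (.thr 57 9 (.thr 56 58 (.thr 11 26 (.dbl 43 27 40))))) (.nv (.thr 38 46 (.thr 35 44 (.thr 32 33 (.thr 47 37 (.dbl 43 39 40))))) .nd)))) .nd)))))))))) (.rp 13 (.str 59 (.nv (.thr 29 17 (.thr 8 42 (.thr 9 57 (.thr 11 10 (.thr 26 56 (.dbl 27 24 43)))))) (.nv (.thr 9 57 (.thr 42 8 (.thr 43 40 (.thr 63 0 (.thr 3 23 (.thr 12 6 (.dbl 29 17 46))))))) (.nv (.thr 57 9 (.thr 56 58 (.thr 11 26 (.thr 42 8 (.dbl 43 27 40))))) (.rp 57 (.thr 42 8 (.thr 43 40 (.thr 27 11 (.thr 63 0 (.thr 23 3 (.thr 19 31 (.dbl 22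 20 28))))))) (.rp 56 (.thr 9 57 (.thr 29 17 (.thr 8 42 (.thr 11 10 (.thr 27 43 (.thr 26 24 (.thr 31 16 (.thr 19 23 (.dbl 28 22 30))))))))) (.rp 43 (.thr 57 9 (.thr 56 58 (.thr 26 11 (.thr 24 27 (.dbl 8 40 42))))) (.rp 42 (.thr 57 9 (.thr 29 17 (.thr 56 58 (.thr 26 11 (.thr 27 24 (.thr 31 16 (.thr 19 23 (.dbl 28 22 30)))))))) (.rp 29 (.str 45 (.nv (.thr 37 33 (.thr 42 8 (.thr 53 5 (.thr 57 9 (.thr 63 0 (.dbl 58 48 56)))))) (.nv (.thr 37 33 (.thr 42 8 (.thr 47 32 (.thr 44 46 (.thr 35 38 (.dbl 43 39 40)))))) (.nv (.thr 57 9 (.thr 56 58 (.thr 11 26 (.thr 42 8 (.dbl 43 27 40))))) (.rp 42 (.thr 57 9 (.thr 33 37 (.thr 17 49 (.thr 56 58 (.thr 26 11 (.thr 24 27 (.thr 16 31 (.thr 28 20 (.dbl 19 18 22))))))))) (.rp 8 (.thr 57 9 (.thr 37 33 (.thr 56 58 (.thr 11 26 (.thr 43 27 (.thr 42 40 (.thr 47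 32 (.thr 44 46 (.dbl 35 38 39))))))))) .nd)))))) (.rp 9 (.thr 42 8 (.thr 43 40 (.thr 11 27 (.thr 63 0 (.thr 3 23 (.thr 15 7 (.thr 31 47 (.dbl 26 16 56)))))))) (.rp 8 (.thr 57 9 (.thr 56 58 (.thr 11 26 (.thr 43 27 (.thr 42 40 (.thr 63 0 (.thr 3 23 (.thr 15 7 (.thr 31 47 (.thr 60 22 (.thr 30 45 (.dbl 29 17 28)))))))))))) .nd))))))))))) (.rp 9 (.str 22 (.nv (.thr 3 60 (.thr 17 29 (.thr 19 28 (.thr 33 49 (.dbl 18 16 48))))) (.nv (.thr 19 28 (.thr 23 20 (.thr 31 27 (.thr 16 26 (.dbl 17 18 29))))) (.rp 31 (.thr 29 17 (.thr 20 23 (.thr 60 3 (.thr 0 40 (.thr 63 42 (.thr 12 46 (.dbl 28 19 44))))))) (.rp 29 (.thr 23 20 (.thr 19 28 (.thr 31 27 (.thr 3 60 (.thr 63 43 (.thr 15 47 (.thr 11 7 (.dbl 26 16 56)))))))) (.rp 28 (.thr 17 29 (.thr 23 20 (.thr 3 60 (.thr 33 49 (.thr 48 18 (.thr 63 43 (.thr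 53 58 (.dbl 37 5 45)))))))) (.rp 19 (.thr 17 29 (.thr 23 20 (.thr 3 60 (.thr 33 49 (.thr 48 18 (.thr 63 43 (.thr 53 58 (.dbl 37 5 45)))))))) (.rp 18 (.thr 29 17 (.thr 20 23 (.thr 28 19 (.thr 16 24 (.dbl 31 26 30))))) (.rp 17 (.thr 23 20 (.thr 19 28 (.thr 31 27 (.thr 3 60 (.thr 63 43 (.thr 15 47 (.thr 11 7 (.dbl 26 16 56)))))))) (.rp 16 (.thr 29 17 (.thr 20 23 (.thr 60 3 (.thr 0 40 (.thr 63 42 (.thr 12 46 (.dbl 28 19 44))))))) .nd)))))))))) (.rp 5 (.str 59 (.nv (.thr 9 57 (.thr 42 8 (.thr 43 40 (.thr 63 0 (.thr 3 23 (.thr 12 6 (.dbl 29 17 46))))))) (.nv (.thr 57 9 (.thr 56 58 (.thr 11 26 (.thr 42 8 (.dbl 43 27 40))))) (.rp 57 (.thr 42 8 (.thr 43 40 (.thr 27 11 (.thr 63 0 (.thr 23 3 (.thr 19 31 (.dbl 22 20 28))))))) (.rp 56 (.thr 9 57 (.thr 29 17 (.thr 8 42 (.thr 11 10 (.thr 27 43 (.thr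 26 24 (.thr 31 16 (.thr 19 23 (.dbl 28 22 30))))))))) (.rp 43 (.thr 57 9 (.thr 56 58 (.thr 26 11 (.thr 24 27 (.dbl 8 40 42))))) (.rp 42 (.thr 57 9 (.thr 17 29 (.thr 56 58 (.thr 26 11 (.thr 24 27 (.thr 16 31 (.thr 28 20 (.dbl 19 18 22)))))))) (.rp 40 (.thr 9 57 (.thr 8 42 (.thr 11 10 (.thr 27 43 (.dbl 26 24 56))))) (.rp 9 (.thr 42 8 (.thr 43 40 (.thr 11 27 (.thr 63 0 (.thr 3 23 (.thr 15 7 (.thr 31 47 (.dbl 26 16 56)))))))) (.rp 8 (.thr 57 9 (.thr 17 29 (.thr 33 49 (.thr 56 58 (.thr 11 26 (.thr 43 27 (.thr 42 40 (.thr 63 0 (.thr 3 23 (.thr 48 18 (.dbl 60 22 52))))))))))) .nd)))))))))) .nd))))))))))))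

theorem w198 : WinAt (2199025352706, 2308094809027379204) :=
  chF (K := []) kn c198 2199025352706 2308094809027379204 61
    [] (by decide +kernel) (by decide +kernel)

/-- A certificate. -/
noncomputable def c199 : Ct := (.str 37 (.nv (.thr 33 45 (.thr 49 17 (.thr 13 25 (.dbl 5 9 53)))) (.rp 53 (.thr 33 45 (.thr 49 17 (.thr 13 25 (.thr 5 9 (.str 42 (.nv (.thr 0 63 (.thr 15 10 (.thr 40 43 (.thr 48 26 (.thr 3 18 (.dbl 60 20 22)))))) (.nv (.thr 0 63 (.thr 15 10 (.thr 48 26 (.dbl 32 16 47)))) (.nv (.thr 40 43 (.thr 32 47 (.thr 44 36 (.dbl 35 34 38)))) (.rp 55 (.str 54 (.nv (.thr 0 63 (.thr 15 10 (.thr 32 47 (.dbl 48 16 26)))) (.nv (.thr 0 63 (.thr 15 10 (.thr 48 26 (.thr 51 50 (.thr 60 57 (.dbl 3 18 22)))))) (.nv (.thr 40 43 (.thr 32 47 (.thr 44 36 (.dbl 35 34 38)))) .nd)))) (.rp 54 (.str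 55 (.nv (.thr 0 63 (.thr 15 10 (.thr 32 47 (.dbl 48 16 26)))) (.nv (.thr 0 63 (.thr 4 38 (.thr 12 8 (.dbl 15 10 14)))) (.nv (.thr 38 4 (.thr 34 46 (.dbl 35 32 44))) .nd)))) .nd)))))))))) (.rp 49 (.thr 53 5 (.str 60 (.nv (.thr 22 3 (.thr 20 23 (.thr 0 40 (.thr 63 42 (.thr 48 58 (.thr 16 32 (.dbl 26 15 31))))))) (.nv (.thr 45 33 (.thr 15 30 (.thr 26 48 (.thr 11 56 (.dbl 3 7 22))))) (.rp 48 (.thr 45 33 (.thr 15 30 (.thr 3 22 (.thr 11 7 (.thr 26 56 (.thr 31 16 (.thr 63 47 (.thr 43 23 (.dbl 42 0 40))))))))) (.rp 26 (.thr 45 33 (.thr 15 30 (.thr 22 3 (.thr 20 23 (.thr 0 40 (.thr 63 42 (.thr 47 31 (.thr 44 46 (.thr 28 12 (.thr 16 24 (.dbl 48 32 58))))))))))) (.rp 22 (.thr 45 33 (.thr 15 30 (.thr 26 48 (.thr 11 56 (.thr 3 7 (.thr 31 16 (.thr 63 47 (.thr 43 23 (.dbl 42 0 40))))))))) (.rp 15 (.thr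 33 45 (.thr 3 22 (.thr 48 18 (.thr 63 58 (.thr 43 23 (.dbl 42 0 40)))))) (.rp 3 (.thr 45 33 (.thr 15 30 (.thr 48 26 (.thr 63 58 (.thr 47 31 (.dbl 42 0 32)))))) .nd))))))))) (.rp 45 (.thr 5 53 (.thr 13 9 (.thr 49 25 (.thr 33 17 (.str 42 (.nv (.thr 0 63 (.thr 15 10 (.thr 40 43 (.thr 48 26 (.thr 3 18 (.dbl 60 20 22)))))) (.nv (.thr 0 63 (.thr 15 10 (.thr 48 26 (.dbl 32 16 47)))) (.nv (.thr 40 43 (.thr 32 47 (.thr 44 36 (.dbl 35 34 38)))) (.rp 55 (.str 54 (.nv (.thr 0 63 (.thr 15 10 (.thr 32 47 (.dbl 48 16 26)))) (.nv (.thr 0 63 (.thr 15 10 (.thr 48 26 (.thr 51 50 (.thr 60 57 (.dbl 3 18 22)))))) (.nv (.thr 40 43 (.thr 32 47 (.thr 44 36 (.dbl 35 34 38)))) .nd)))) (.rp 54 (.str 55 (.nv (.thr 0 63 (.thr 15 10 (.thr 32 47 (.dbl 48 16 26)))) (.nv (.thr 0 63 (.thr 4 38 (.thr 12 8 (.dbl 15 10 14))))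 (.nv (.thr 38 4 (.thr 34 46 (.dbl 35 32 44))) .nd)))) .nd)))))))))) (.rp 33 (.str 0 (.nv (.thr 5 53 (.thr 9 13 (.thr 10 15 (.thr 11 8 (.thr 26 56 (.dbl 42 58 63)))))) (.nv (.thr 53 5 (.thr 63 42 (.thr 48 58 (.thr 26 15 (.dbl 16 31 32))))) (.rp 63 (.thr 5 53 (.thr 13 9 (.thr 15 10 (.thr 48 26 (.thr 32 16 (.thr 42 47 (.thr 40 43 (.thr 36 44 (.dbl 12 14 24))))))))) (.rp 58 (.thr 5 53 (.thr 15 10 (.thr 48 26 (.thr 42 63 (.dbl 32 16 47))))) (.rp 53 (.thr 42 63 (.thr 32 47 (.thr 48 16 (.thr 40 43 (.thr 36 44 (.thr 12 24 (.thr 4 8 (.dbl 38 39 55)))))))) (.rp 48 (.thr 5 53 (.thr 9 13 (.thr 10 15 (.thr 8 11 (.thr 42 63 (.thr 58 26 (.dbl 25 57 59))))))) (.rp 42 (.thr 5 53 (.thr 13 9 (.thr 15 10 (.thr 14 12 (.thr 26 48 (.thr 31 16 (.thr 63 47 (.thr 38 50 (.thr 55 4 (.thr 51 59 (.dbl 39 27 36)))))))))))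 (.rp 26 (.thr 5 53 (.thr 9 13 (.thr 10 15 (.thr 8 11 (.thr 42 63 (.dbl 25 57 59)))))) (.rp 15 (.thr 5 53 (.thr 9 13 (.thr 42 63 (.thr 40 43 (.thr 60 20 (.thr 3 22 (.thr 12 6 (.thr 44 28 (.dbl 32 36 47))))))))) (.rp 5 (.thr 42 63 (.thr 32 47 (.thr 48 16 (.thr 40 43 (.thr 36 44 (.thr 12 24 (.thr 4 8 (.dbl 38 39 55)))))))) .nd))))))))))) (.rp 29 (.thr 5 53 (.thr 33 45 (.thr 13 9 (.dbl 49 17 25)))) (.rp 25 (.str 48 (.nv (.thr 33 45 (.thr 18 3 (.thr 26 15 (.thr 16 31 (.dbl 17 19 49))))) (.nv (.thr 33 45 (.thr 3 18 (.thr 53 5 (.thr 63 58 (.thr 23 43 (.dbl 22 20 60)))))) (.nv (.thr 26 15 (.thr 16 31 (.thr 0 32 (.thr 53 5 (.dbl 63 42 58))))) (.rp 63 (.thr 33 45 (.thr 17 49 (.thr 18 3 (.thr 16 19 (.dbl 26 15 31))))) .nd))))) (.rp 17 (.str 48 (.nv (.thr 5 53 (.thr 9 13 (.thr 15 26 (.thr 10 0 (.thr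 11 8 (.thr 3 7 (.dbl 33 18 45))))))) (.nv (.thr 33 45 (.thr 3 18 (.thr 53 5 (.thr 63 58 (.thr 23 43 (.dbl 22 20 60)))))) (.nv (.thr 15 26 (.thr 53 5 (.thr 63 58 (.thr 47 31 (.dbl 42 0 32))))) (.rp 53 (.thr 33 45 (.thr 3 18 (.thr 60 22 (.thr 26 15 (.thr 16 31 (.thr 0 32 (.thr 40 20 (.dbl 42 43 63)))))))) (.rp 5 (.thr 33 45 (.thr 3 18 (.thr 60 22 (.thr 26 15 (.thr 16 31 (.thr 0 32 (.thr 40 20 (.dbl 42 43 63)))))))) .nd)))))) (.rp 13 (.thr 53 5 (.thr 45 33 (.str 60 (.nv (.thr 15 30 (.thr 48 26 (.thr 63 58 (.thr 42 0 (.dbl 47 31 32))))) (.nv (.thr 15 30 (.thr 26 48 (.thr 11 56 (.dbl 3 7 22)))) (.rp 48 (.thr 15 30 (.thr 3 22 (.thr 11 7 (.thr 26 56 (.thr 31 16 (.thr 63 47 (.thr 43 23 (.dbl 42 0 40)))))))) (.rp 30 (.thr 22 3 (.thr 20 23 (.thr 0 40 (.thr 63 42 (.thr 48 58 (.thr 16 32 (.dbl 26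 15 31))))))) (.rp 26 (.thr 15 30 (.thr 22 3 (.thr 20 23 (.thr 0 40 (.thr 63 42 (.thr 47 31 (.thr 44 46 (.thr 28 12 (.thr 16 24 (.dbl 48 32 58)))))))))) (.rp 22 (.thr 15 30 (.thr 26 48 (.thr 11 56 (.thr 3 7 (.thr 31 16 (.thr 63 47 (.thr 43 23 (.dbl 42 0 40)))))))) (.rp 18 (.thr 15 30 (.thr 26 48 (.thr 3 22 (.dbl 11 7 56)))) (.rp 15 (.thr 22 3 (.thr 20 23 (.thr 0 40 (.thr 63 42 (.thr 48 58 (.thr 16 32 (.thr 28 24 (.thr 26 31 (.thr 19 25 (.dbl 18 17 30)))))))))) .nd))))))))))) (.rp 9 (.str 32 (.nv (.thr 5 53 (.thr 42 47 (.thr 0 63 (.thr 15 10 (.dbl 48 16 26))))) (.nv (.thr 45 33 (.thr 47 42 (.thr 44 46 (.thr 38 35 (.dbl 36 39 40))))) (.rp 62 (.thr 33 45 (.thr 17 49 (.thr 34 35 (.thr 0 51 (.dbl 42 47 63))))) (.rp 47 (.thr 33 45 (.thr 53 5 (.thr 17 49 (.thr 34 35 (.thr 0 51 (.thr 48 16 (.dbl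 63 42 58))))))) (.rp 42 (.thr 33 45 (.thr 17 49 (.thr 34 35 (.thr 0 51 (.thr 48 16 (.thr 15 26 (.dbl 5 10 53))))))) .nd)))))) (.rp 5 (.str 32 (.nv (.thr 33 45 (.thr 17 49 (.thr 34 35 (.thr 0 51 (.dbl 42 47 63))))) (.nv (.thr 45 33 (.thr 47 42 (.thr 44 46 (.thr 38 35 (.dbl 36 39 40))))) (.rp 47 (.thr 33 45 (.thr 17 49 (.thr 34 35 (.thr 0 51 (.thr 48 16 (.thr 63 42 (.thr 3 18 (.thr 22 60 (.dbl 23 20 43))))))))) (.rp 45 (.thr 42 47 (.thr 40 43 (.thr 44 36 (.thr 35 38 (.thr 34 33 (.thr 0 63 (.thr 51 17 (.thr 3 19 (.dbl 60 20 22))))))))) (.rp 42 (.thr 33 45 (.thr 17 49 (.thr 29 25 (.thr 34 35 (.thr 0 51 (.thr 48 16 (.thr 3 18 (.thr 22 60 (.thr 23 20 (.thr 63 43 (.thr 12 46 (.thr 15 26 (.thr 7 11 (.thr 39 55 (.dbl 36 24 38))))))))))))))) (.rp 35 (.thr 33 45 (.thr 42 47 (.thr 0 63 (.thr 48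 16 (.thr 3 18 (.thr 60 22 (.dbl 40 20 43))))))) (.rp 33 (.thr 42 47 (.thr 40 43 (.thr 36 44 (.thr 0 63 (.thr 48 16 (.thr 12 24 (.thr 4 8 (.dbl 38 39 55)))))))) .nd)))))))) .nd))))))))))))

theorem w199 : WinAt (2199025352706, 2310346608841064452) :=
  chF (K := []) kn c199 2199025352706 2310346608841064452 61
    [] (by decide +kernel) (by decide +kernel)

/-- A certificate. -/
noncomputable def c200 : Ct := (.str 60 (.nv (.thr 63 62 (.thr 0 42 (.thr 22 3 (.dbl 20 23 40)))) (.rp 63 (.str 48 (.nv (.thr 3 22 (.thr 33 18 (.thr 37 45 (.thr 26 15 (.dbl 56 11 52))))) (.nv (.thr 56 52 (.thr 26 11 (.thr 16 31 (.thr 0 32 (.thr 20 40 (.dbl 22 3 23)))))) (.nv (.thr 56 52 (.thr 26 11 (.thr 15 37 (.thr 30 45 (.dbl 22 3 18))))) (.rp 56 (.thr 3 22 (.thr 33 18 (.thr 45 37 (.thr 29 13 (.thr 25 17 (.thr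 9 57 (.thr 12 6 (.thr 44 28 (.dbl 38 35 51))))))))) (.rp 52 (.str 32 (.nv (.thr 3 22 (.thr 16 0 (.thr 26 31 (.thr 11 56 (.dbl 15 7 37))))) (.nv (.thr 0 16 (.thr 20 40 (.dbl 22 3 23))) (.rp 55 (.str 54 (.nv (.thr 3 22 (.thr 33 18 (.thr 51 57 (.dbl 35 19 34)))) (.nv (.thr 0 16 (.thr 20 40 (.dbl 22 3 23))) (.rp 59 (.thr 51 57 (.thr 0 16 (.thr 20 40 (.dbl 22 3 23)))) (.rp 51 (.str 59 (.nv (.thr 3 22 (.thr 16 0 (.thr 26 31 (.thr 11 56 (.dbl 15 7 37))))) (.nv (.thr 0 16 (.thr 20 40 (.dbl 22 3 23))) (.rp 22 (.thr 0 16 (.thr 40 20 (.thr 36 44 (.thr 42 43 (.thr 8 25 (.dbl 24 12 56)))))) (.rp 16 (.thr 3 22 (.thr 33 18 (.thr 37 45 (.thr 42 47 (.thr 40 43 (.thr 44 36 (.dbl 35 34 38))))))) (.rp 3 (.thr 0 16 (.thr 40 20 (.thr 36 44 (.thr 24 12 (.thr 8 56 (.dbl 42 25 43)))))) (.rp 0 (.thr 3 22 (.thr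 33 18 (.thr 37 45 (.thr 42 47 (.thr 40 43 (.thr 44 36 (.dbl 35 34 38))))))) .nd))))))) (.rp 22 (.thr 0 16 (.thr 40 20 (.thr 42 43 (.thr 37 47 (.thr 45 33 (.dbl 15 26 30)))))) (.rp 3 (.thr 0 16 (.thr 40 20 (.thr 36 44 (.thr 51 57 (.thr 17 34 (.thr 25 29 (.dbl 12 24 38))))))) .nd))))))) (.rp 54 (.str 55 (.nv (.thr 0 16 (.thr 38 4 (.thr 44 35 (.dbl 40 20 36)))) (.nv (.thr 3 22 (.thr 33 18 (.thr 38 4 (.dbl 35 34 44)))) (.nv (.thr 0 16 (.thr 20 40 (.dbl 22 3 23))) (.rp 20 (.thr 16 0 (.thr 3 22 (.thr 33 18 (.thr 37 45 (.dbl 26 15 31))))) .nd))))) (.rp 22 (.thr 0 16 (.thr 40 20 (.thr 42 43 (.thr 37 47 (.thr 45 33 (.dbl 15 26 30)))))) (.rp 16 (.thr 3 22 (.thr 33 18 (.thr 37 45 (.thr 42 47 (.thr 40 43 (.thr 44 36 (.dbl 35 34 38))))))) (.rp 3 (.thr 0 16 (.thr 40 20 (.thr 36 44 (.thr 24 12 (.thr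 56 8 (.thr 26 11 (.thr 15 37 (.thr 10 5 (.dbl 42 43 58))))))))) (.rp 0 (.thr 3 22 (.thr 33 18 (.thr 37 45 (.thr 42 47 (.thr 40 43 (.thr 44 36 (.dbl 35 34 38))))))) .nd))))))))) (.rp 26 (.str 40 (.nv (.thr 0 20 (.thr 3 22 (.thr 32 16 (.thr 42 43 (.thr 37 47 (.dbl 33 18 45)))))) (.nv (.thr 0 20 (.thr 32 16 (.thr 36 44 (.thr 24 12 (.dbl 56 8 52))))) (.rp 32 (.thr 56 52 (.thr 24 8 (.thr 12 36 (.thr 28 44 (.dbl 20 0 16))))) (.rp 28 (.thr 56 52 (.thr 24 8 (.thr 36 12 (.thr 32 44 (.dbl 0 16 20))))) (.rp 24 (.thr 52 56 (.thr 20 0 (.thr 3 22 (.thr 36 4 (.thr 44 32 (.thr 38 35 (.thr 37 39 (.dbl 33 18 45)))))))) (.rp 20 (.thr 56 52 (.thr 8 24 (.thr 42 43 (.thr 25 59 (.thr 29 17 (.thr 45 13 (.thr 33 37 (.dbl 3 18 22)))))))) (.rp 16 (.thr 52 56 (.thr 20 0 (.thr 3 22 (.thr 36 4 (.thr 44 32 (.dbl 12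 24 28)))))) (.rp 0 (.thr 3 22 (.thr 56 52 (.thr 8 24 (.thr 42 43 (.thr 25 59 (.thr 29 17 (.thr 45 13 (.dbl 33 18 37)))))))) .nd))))))))) (.rp 22 (.thr 56 52 (.thr 26 11 (.thr 16 31 (.thr 0 32 (.thr 40 20 (.thr 42 43 (.thr 10 58 (.dbl 15 5 37)))))))) (.rp 15 (.thr 3 22 (.thr 33 18 (.thr 45 37 (.thr 29 13 (.thr 25 17 (.thr 9 57 (.thr 12 6 (.thr 44 28 (.dbl 38 35 51))))))))) (.rp 11 (.thr 3 22 (.thr 33 18 (.thr 45 37 (.thr 29 13 (.thr 25 17 (.thr 9 57 (.thr 12 6 (.thr 44 28 (.dbl 38 35 51))))))))) (.rp 3 (.str 0 (.nv (.thr 16 32 (.thr 20 40 (.thr 24 28 (.thr 36 12 (.dbl 52 4 56))))) (.nv (.thr 56 52 (.thr 16 32 (.dbl 26 11 31))) (.rp 56 (.thr 32 16 (.thr 40 20 (.thr 44 36 (.thr 38 35 (.thr 4 55 (.dbl 12 8 28)))))) (.rp 52 (.thr 16 32 (.thr 40 20 (.thr 26 31 (.thr 15 37 (.thr 10 5 (.dbl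 42 43 58)))))) (.rp 43 (.str 23 (.nv (.thr 16 32 (.thr 26 31 (.dbl 56 11 52))) (.nv (.dbl 20 22 40) .nd))) (.rp 32 (.thr 56 52 (.thr 40 20 (.thr 26 11 (.thr 15 37 (.thr 10 5 (.dbl 42 43 58)))))) (.rp 23 (.str 43 (.nv (.thr 16 32 (.thr 26 31 (.dbl 56 11 52))) (.nv (.dbl 40 20 42) .nd))) (.rp 16 (.thr 52 56 (.thr 20 40 (.thr 4 36 (.thr 38 55 (.thr 44 35 (.dbl 12 8 28)))))) .nd))))))))) .nd))))))))))) (.rp 62 (.thr 22 3 (.str 0 (.nv (.dbl 20 23 40) (.rp 40 (.str 16 (.nv (.thr 20 23 (.thr 24 28 (.thr 48 32 (.thr 36 12 (.dbl 52 4 56))))) (.nv (.thr 20 23 (.thr 26 31 (.thr 18 30 (.thr 19 17 (.dbl 28 24 25))))) (.nv (.thr 48 32 (.thr 26 31 (.dbl 56 11 52))) .nd)))) (.rp 23 (.thr 40 20 (.dbl 42 43 63)) (.rp 20 (.str 16 (.nv (.thr 26 31 (.thr 30 18 (.thr 15 45 (.thr 10 5 (.dbl 42 58 63))))) (.nv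 (.thr 48 32 (.thr 26 31 (.dbl 56 11 52))) (.rp 48 (.thr 26 31 (.thr 18 30 (.thr 17 19 (.thr 51 34 (.thr 57 54 (.dbl 25 9 29)))))) (.rp 31 (.thr 48 32 (.thr 52 56 (.thr 37 7 (.thr 45 33 (.dbl 15 26 30))))) (.rp 26 (.thr 48 32 (.thr 52 56 (.thr 37 7 (.thr 45 33 (.thr 29 13 (.thr 15 30 (.thr 63 42 (.thr 46 12 (.dbl 47 31 44))))))))) .nd)))))) .nd)))))) (.rp 42 (.str 45 (.nv (.thr 29 13 (.thr 30 15 (.thr 28 31 (.thr 12 44 (.dbl 63 46 62))))) (.nv (.thr 3 22 (.thr 62 63 (.thr 15 30 (.thr 11 7 (.thr 26 56 (.dbl 37 33 48)))))) (.rp 63 (.thr 37 33 (.thr 15 30 (.thr 48 26 (.thr 52 56 (.dbl 22 3 7))))) (.rp 62 (.thr 22 3 (.str 0 (.nv (.dbl 20 23 40) (.rp 40 (.thr 37 33 (.thr 52 7 (.thr 48 56 (.dbl 15 26 30)))) (.rp 23 (.thr 37 33 (.thr 52 7 (.thr 48 56 (.dbl 15 26 30)))) (.rp 20 (.thr 37 33 (.thr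 52 7 (.thr 48 56 (.dbl 15 26 30)))) .nd)))))) (.rp 30 (.thr 29 13 (.thr 25 17 (.thr 9 57 (.thr 62 63 (.thr 3 22 (.thr 12 6 (.thr 44 28 (.dbl 38 35 51)))))))) (.rp 22 (.thr 62 63 (.thr 29 13 (.thr 25 17 (.thr 30 15 (.thr 31 28 (.thr 26 16 (.thr 14 46 (.thr 38 50 (.thr 51 12 (.dbl 57 9 54)))))))))) (.rp 15 (.thr 29 13 (.thr 25 17 (.thr 9 57 (.thr 62 63 (.thr 3 22 (.thr 12 6 (.thr 44 28 (.dbl 38 35 51)))))))) (.rp 3 (.str 0 (.nv (.thr 15 30 (.thr 20 40 (.thr 37 33 (.thr 48 26 (.thr 52 56 (.dbl 22 7 23)))))) (.nv (.thr 29 13 (.thr 30 15 (.thr 28 31 (.thr 12 44 (.dbl 63 46 62))))) (.rp 62 (.str 22 (.nv (.dbl 20 23 40) (.rp 40 (.thr 37 33 (.thr 52 7 (.thr 48 56 (.dbl 15 26 30)))) (.rp 23 (.thr 37 33 (.thr 52 7 (.thr 48 56 (.dbl 15 26 30)))) (.rp 20 (.thr 37 33 (.thr 52 7 (.thr 48 56 (.dbl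 15 26 30)))) .nd))))) (.rp 30 (.thr 37 33 (.thr 20 40 (.thr 22 23 (.thr 52 7 (.thr 48 56 (.thr 16 32 (.dbl 26 15 31))))))) (.rp 22 (.thr 62 63 (.thr 13 29 (.thr 15 30 (.thr 12 14 (.thr 4 8 (.thr 38 55 (.dbl 44 28 35))))))) (.rp 15 (.thr 29 13 (.thr 25 17 (.thr 20 40 (.thr 63 62 (.thr 22 23 (.thr 12 46 (.dbl 28 19 44))))))) (.rp 7 (.thr 13 29 (.thr 15 30 (.thr 12 14 (.thr 4 8 (.thr 38 55 (.dbl 44 28 35)))))) .nd)))))))) .nd))))))))) (.rp 40 (.str 45 (.nv (.thr 3 22 (.thr 29 13 (.thr 25 17 (.thr 9 57 (.thr 12 6 (.dbl 63 46 62)))))) (.nv (.thr 29 13 (.thr 30 15 (.thr 28 31 (.thr 12 44 (.dbl 63 46 62))))) (.nv (.thr 3 22 (.thr 15 30 (.thr 11 7 (.thr 37 33 (.dbl 26 48 56))))) (.rp 62 (.thr 37 33 (.thr 15 30 (.thr 48 26 (.thr 52 56 (.dbl 22 3 7))))) (.rp 3 (.str 0 (.nv (.dbl 63 42 62) (.rp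 63 (.thr 13 29 (.thr 15 30 (.thr 12 14 (.thr 4 8 (.thr 38 55 (.dbl 44 28 35)))))) (.rp 62 (.thr 37 33 (.thr 42 63 (.thr 32 47 (.thr 48 16 (.dbl 15 26 30))))) (.rp 42 (.thr 29 13 (.thr 30 15 (.thr 28 31 (.thr 12 44 (.dbl 63 46 62))))) .nd))))) .nd)))))) (.rp 23 (.str 48 (.nv (.thr 3 22 (.thr 33 18 (.thr 37 45 (.thr 26 15 (.thr 16 31 (.thr 0 32 (.dbl 63 42 62))))))) (.nv (.thr 56 52 (.thr 26 11 (.thr 16 31 (.thr 0 32 (.dbl 63 42 62))))) (.nv (.thr 56 52 (.thr 26 11 (.thr 37 15 (.thr 33 45 (.dbl 3 18 22))))) (.rp 26 (.thr 52 56 (.thr 63 62 (.thr 0 42 (.thr 22 3 (.thr 20 40 (.thr 36 4 (.thr 16 32 (.dbl 24 12 28)))))))) (.rp 3 (.str 0 (.nv (.thr 16 32 (.thr 26 31 (.dbl 56 11 52))) (.nv (.dbl 63 42 62) (.rp 63 (.str 43 (.nv (.thr 16 32 (.thr 26 31 (.dbl 56 11 52))) (.nv (.dbl 40 20 42) .nd)))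 .nd)))) (.rp 0 (.thr 3 22 (.thr 56 52 (.thr 33 18 (.thr 37 45 (.dbl 26 11 15))))) .nd))))))) (.rp 22 (.str 0 (.nv (.dbl 63 42 62) (.rp 63 (.thr 40 20 (.str 48 (.nv (.thr 42 43 (.thr 56 52 (.thr 26 11 (.thr 10 58 (.dbl 15 5 37))))) (.nv (.thr 32 16 (.thr 44 36 (.thr 38 35 (.thr 4 55 (.dbl 12 8 28))))) (.nv (.thr 16 32 (.thr 26 31 (.dbl 56 11 52))) (.rp 52 (.thr 32 16 (.thr 42 43 (.thr 37 47 (.thr 45 33 (.dbl 15 26 30))))) (.rp 42 (.str 62 (.nv (.thr 32 16 (.thr 44 36 (.thr 38 35 (.thr 4 55 (.dbl 12 8 28))))) (.nv (.thr 16 32 (.thr 26 31 (.dbl 56 11 52))) (.rp 52 (.thr 16 32 (.thr 26 31 (.thr 56 11 (.thr 24 8 (.thr 25 27 (.thr 29 17 (.thr 45 13 (.dbl 37 15 33)))))))) (.rp 32 (.thr 56 52 (.thr 24 8 (.thr 26 11 (.thr 25 27 (.thr 29 17 (.thr 45 13 (.dbl 37 15 33))))))) (.rp 16 (.thr 56 52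 (.thr 24 8 (.thr 36 12 (.thr 44 32 (.thr 38 35 (.thr 37 39 (.dbl 26 11 15))))))) .nd)))))) .nd))))))) (.rp 62 (.thr 42 63 (.dbl 40 20 43)) (.rp 42 (.thr 62 63 (.str 48 (.nv (.thr 20 40 (.thr 52 56 (.thr 36 4 (.thr 24 12 (.dbl 16 28 32))))) (.nv (.thr 16 32 (.thr 26 31 (.dbl 56 11 52))) (.rp 56 (.thr 40 20 (.thr 32 16 (.thr 44 36 (.thr 38 35 (.thr 4 55 (.dbl 12 8 28)))))) (.rp 52 (.thr 20 40 (.thr 16 32 (.thr 28 24 (.thr 44 12 (.thr 31 26 (.thr 30 29 (.thr 46 14 (.dbl 45 15 47)))))))) (.rp 32 (.thr 56 52 (.thr 40 20 (.thr 24 8 (.thr 26 11 (.thr 25 27 (.thr 29 17 (.thr 45 13 (.dbl 37 15 33)))))))) (.rp 16 (.thr 52 56 (.thr 20 40 (.thr 4 36 (.thr 38 55 (.thr 44 35 (.dbl 12 8 28)))))) .nd)))))))) .nd))))) (.rp 20 (.thr 63 62 (.thr 42 0 (.thr 3 22 (.dbl 43 23 40)))) (.rp 3 (.str 0 (.nv (.dbl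 63 42 62) (.rp 63 (.str 48 (.nv (.thr 16 32 (.thr 20 40 (.thr 24 28 (.thr 36 12 (.dbl 52 4 56))))) (.nv (.thr 56 52 (.thr 16 32 (.dbl 26 11 31))) (.rp 56 (.thr 32 16 (.thr 40 20 (.thr 44 36 (.thr 38 35 (.thr 4 55 (.dbl 12 8 28)))))) (.rp 52 (.thr 16 32 (.thr 40 20 (.thr 26 31 (.thr 15 37 (.thr 10 5 (.dbl 42 43 58)))))) (.rp 43 (.str 23 (.nv (.thr 16 32 (.thr 26 31 (.dbl 56 11 52))) (.nv (.dbl 20 22 40) .nd))) (.rp 32 (.thr 56 52 (.thr 40 20 (.thr 26 11 (.thr 15 37 (.thr 10 5 (.dbl 42 43 58)))))) (.rp 23 (.str 43 (.nv (.thr 16 32 (.thr 26 31 (.dbl 56 11 52))) (.nv (.dbl 40 20 42) .nd))) (.rp 16 (.thr 52 56 (.thr 20 40 (.thr 4 36 (.thr 38 55 (.thr 44 35 (.dbl 12 8 28)))))) .nd))))))))) (.rp 62 (.thr 40 20 (.dbl 42 43 63)) (.rp 42 (.str 45 (.nv (.thr 15 30 (.thr 20 40 (.thr 37 33 (.thr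 48 26 (.thr 52 56 (.dbl 22 7 23)))))) (.nv (.thr 29 13 (.thr 30 15 (.thr 28 31 (.thr 12 44 (.dbl 63 46 62))))) (.rp 62 (.str 22 (.nv (.dbl 20 23 40) (.rp 40 (.thr 37 33 (.thr 52 7 (.thr 48 56 (.dbl 15 26 30)))) (.rp 23 (.thr 37 33 (.thr 52 7 (.thr 48 56 (.dbl 15 26 30)))) (.rp 20 (.thr 37 33 (.thr 52 7 (.thr 48 56 (.dbl 15 26 30)))) .nd))))) (.rp 30 (.thr 37 33 (.thr 20 40 (.thr 22 23 (.thr 52 7 (.thr 48 56 (.thr 16 32 (.dbl 26 15 31))))))) (.rp 22 (.thr 62 63 (.thr 13 29 (.thr 15 30 (.thr 12 14 (.thr 4 8 (.thr 38 55 (.dbl 44 28 35))))))) (.rp 15 (.thr 29 13 (.thr 25 17 (.thr 20 40 (.thr 63 62 (.thr 22 23 (.thr 12 46 (.dbl 28 19 44))))))) (.rp 7 (.thr 13 29 (.thr 15 30 (.thr 12 14 (.thr 4 8 (.thr 38 55 (.dbl 44 28 35)))))) .nd)))))))) .nd))))) (.rp 0 (.thr 3 22 (.str 45 (.nv (.thr 29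 13 (.thr 25 17 (.thr 9 57 (.thr 12 6 (.dbl 63 46 62))))) (.nv (.thr 15 30 (.thr 11 7 (.thr 26 56 (.dbl 37 33 48)))) (.rp 62 (.str 42 (.nv (.thr 15 30 (.thr 11 7 (.thr 26 56 (.thr 43 40 (.thr 63 23 (.dbl 31 16 47)))))) (.nv (.thr 37 33 (.thr 43 40 (.thr 47 32 (.thr 35 39 (.dbl 44 38 46))))) (.nv (.thr 15 30 (.thr 11 7 (.thr 26 56 (.dbl 37 33 48)))) (.rp 46 (.thr 37 33 (.thr 47 32 (.thr 43 40 (.thr 63 23 (.dbl 15 30 31))))) (.rp 37 (.thr 43 40 (.thr 63 23 (.thr 29 13 (.thr 46 12 (.thr 44 47 (.dbl 38 34 35)))))) .nd)))))) (.rp 42 (.thr 62 63 (.thr 37 33 (.thr 15 30 (.thr 11 7 (.dbl 26 48 56))))) (.rp 33 (.thr 29 13 (.thr 30 15 (.thr 28 31 (.thr 12 44 (.dbl 63 46 62))))) .nd))))))) .nd)))))))))))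

theorem w200 : WinAt (2305845208239046656, 9007199254740998) :=
  chF (K := []) kn c200 2305845208239046656 9007199254740998 1
    [15] (by decide +kernel) (by decide +kernel)

/-- A certificate. -/
noncomputable def c201 : Ct := (.str 37 (.nv (.thr 33 45 (.thr 49 17 (.thr 13 25 (.dbl 5 9 53)))) (.rp 53 (.thr 33 45 (.thr 49 17 (.thr 13 25 (.thr 5 9 (.str 22 (.nv (.thr 3 60 (.thr 48 18 (.thr 15 26 (.dbl 7 11 52)))) (.nv (.thr 23 20 (.thr 7 52 (.thr 55 39 (.dbl 4 6 38)))) (.rp 55 (.thr 52 7 (.thr 60 3 (.thr 48 56 (.thr 15 26 (.thr 0 10 (.dbl 20 23 40)))))) (.rp 52 (.str 55 (.nv (.thr 3 60 (.thr 23 20 (.thr 48 18 (.thr 63 43 (.dbl 51 50 59))))) (.nv (.thr 3 60 (.thr 4 38 (.thr 7 6 (.thr 15 11 (.dbl 48 18 26))))) (.nv (.thr 23 20 (.thr 39 7 (.dbl 38 4 36))) (.rp 4 (.thr 3 60 (.thr 48 18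 (.thr 15 26 (.thr 7 11 (.dbl 23 20 39))))) .nd))))) (.rp 7 (.thr 3 60 (.thr 48 18 (.thr 23 20 (.thr 15 26 (.thr 0 10 (.dbl 63 42 43)))))) .nd)))))))))) (.rp 49 (.thr 53 5 (.str 48 (.nv (.thr 33 45 (.thr 3 18 (.thr 63 58 (.thr 23 43 (.dbl 22 20 60))))) (.nv (.thr 45 33 (.thr 15 26 (.thr 60 30 (.thr 22 3 (.dbl 52 7 56))))) (.nv (.thr 15 26 (.thr 63 58 (.thr 42 0 (.dbl 47 31 32)))) .nd))))) (.rp 45 (.thr 5 53 (.thr 13 9 (.thr 49 25 (.thr 33 17 (.str 22 (.nv (.thr 3 60 (.thr 48 18 (.thr 15 26 (.dbl 7 11 52)))) (.nv (.thr 23 20 (.thr 7 52 (.thr 55 39 (.dbl 4 6 38)))) (.rp 55 (.thr 52 7 (.thr 60 3 (.thr 48 56 (.thr 15 26 (.thr 0 10 (.dbl 20 23 40)))))) (.rp 52 (.str 55 (.nv (.thr 3 60 (.thr 23 20 (.thr 48 18 (.thr 63 43 (.dbl 51 50 59))))) (.nv (.thr 3 60 (.thr 4 38 (.thr 7 6 (.thr 15 11 (.dbl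 48 18 26))))) (.nv (.thr 23 20 (.thr 39 7 (.dbl 38 4 36))) (.rp 4 (.thr 3 60 (.thr 48 18 (.thr 15 26 (.thr 7 11 (.dbl 23 20 39))))) .nd))))) (.rp 7 (.thr 3 60 (.thr 48 18 (.thr 23 20 (.thr 15 26 (.thr 0 10 (.dbl 63 42 43)))))) .nd)))))))))) (.rp 33 (.str 0 (.nv (.thr 5 53 (.thr 9 13 (.thr 10 15 (.thr 11 8 (.thr 26 56 (.dbl 42 58 63)))))) (.nv (.thr 42 63 (.thr 32 47 (.thr 48 16 (.thr 15 26 (.dbl 5 10 53))))) (.rp 63 (.thr 5 53 (.thr 13 9 (.thr 15 10 (.thr 48 26 (.thr 32 16 (.thr 42 47 (.thr 40 43 (.thr 36 44 (.dbl 12 14 24))))))))) (.rp 53 (.thr 42 63 (.thr 32 47 (.thr 48 16 (.thr 40 43 (.thr 60 20 (.thr 52 56 (.dbl 22 3 7))))))) (.rp 42 (.thr 5 53 (.thr 15 10 (.thr 26 48 (.thr 31 16 (.thr 63 47 (.thr 11 56 (.thr 3 7 (.thr 23 43 (.dbl 22 20 60))))))))) (.rp 26 (.thr 5 53 (.thr 9 13 (.thr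 10 15 (.thr 8 11 (.thr 42 63 (.dbl 25 57 59)))))) (.rp 15 (.thr 53 5 (.thr 63 42 (.thr 48 58 (.thr 16 32 (.thr 26 31 (.thr 56 11 (.thr 60 52 (.thr 20 40 (.dbl 22 3 23))))))))) (.rp 10 (.thr 53 5 (.thr 63 42 (.thr 48 58 (.thr 26 15 (.dbl 16 31 32))))) (.rp 5 (.thr 42 63 (.thr 32 47 (.thr 48 16 (.thr 40 43 (.thr 60 20 (.thr 52 56 (.dbl 22 3 7))))))) .nd)))))))))) (.rp 29 (.thr 5 53 (.thr 33 45 (.thr 13 9 (.dbl 49 17 25)))) (.rp 25 (.str 32 (.nv (.thr 5 53 (.thr 42 47 (.thr 0 63 (.thr 15 10 (.dbl 48 16 26))))) (.nv (.thr 42 47 (.thr 40 43 (.thr 33 45 (.thr 44 36 (.dbl 35 34 38))))) (.rp 47 (.thr 33 45 (.thr 53 5 (.thr 17 49 (.thr 34 35 (.thr 0 51 (.thr 48 16 (.dbl 63 42 58))))))) (.rp 42 (.thr 33 45 (.thr 17 49 (.thr 34 35 (.thr 0 51 (.thr 48 16 (.thr 15 26 (.dbl 5 10 53))))))) .nd)))))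 (.rp 17 (.str 32 (.nv (.thr 5 53 (.thr 42 47 (.thr 0 63 (.thr 15 10 (.dbl 48 16 26))))) (.nv (.thr 45 33 (.thr 47 42 (.thr 44 46 (.thr 38 35 (.dbl 36 39 40))))) (.rp 62 (.thr 33 45 (.thr 35 34 (.thr 44 38 (.thr 40 36 (.dbl 42 43 47))))) (.rp 47 (.thr 33 45 (.thr 5 53 (.thr 35 34 (.thr 44 38 (.thr 40 36 (.thr 42 43 (.thr 0 63 (.thr 48 16 (.dbl 15 10 26))))))))) (.rp 42 (.thr 33 45 (.thr 5 53 (.thr 35 34 (.thr 38 44 (.thr 36 39 (.thr 4 55 (.thr 52 20 (.dbl 7 6 22)))))))) .nd)))))) (.rp 13 (.thr 53 5 (.thr 45 33 (.str 48 (.nv (.thr 15 26 (.thr 63 58 (.thr 42 0 (.dbl 47 31 32)))) (.nv (.thr 15 26 (.thr 60 30 (.thr 22 3 (.dbl 52 7 56)))) (.rp 26 (.thr 63 58 (.thr 42 0 (.thr 47 32 (.thr 44 46 (.thr 35 38 (.dbl 43 39 40)))))) (.rp 15 (.thr 63 58 (.thr 0 42 (.thr 16 32 (.thr 26 31 (.thr 56 11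 (.thr 60 52 (.thr 20 40 (.dbl 22 3 23)))))))) .nd))))))) (.rp 9 (.str 32 (.nv (.thr 5 53 (.thr 42 47 (.thr 0 63 (.thr 15 10 (.dbl 48 16 26))))) (.nv (.thr 45 33 (.thr 47 42 (.thr 44 46 (.thr 38 35 (.dbl 36 39 40))))) (.rp 62 (.thr 33 45 (.thr 17 49 (.thr 34 35 (.thr 0 51 (.dbl 42 47 63))))) (.rp 47 (.thr 33 45 (.thr 53 5 (.thr 17 49 (.thr 34 35 (.thr 0 51 (.thr 48 16 (.dbl 63 42 58))))))) (.rp 42 (.thr 33 45 (.thr 17 49 (.thr 34 35 (.thr 0 51 (.thr 48 16 (.thr 15 26 (.dbl 5 10 53))))))) .nd)))))) (.rp 5 (.str 32 (.nv (.thr 33 45 (.thr 17 49 (.thr 34 35 (.thr 0 51 (.dbl 42 47 63))))) (.nv (.thr 45 33 (.thr 47 42 (.thr 44 46 (.thr 38 35 (.dbl 36 39 40))))) (.rp 47 (.thr 33 45 (.thr 17 49 (.thr 34 35 (.thr 0 51 (.thr 48 16 (.thr 42 63 (.thr 3 18 (.thr 60 22 (.dbl 40 20 43))))))))) (.rp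 45 (.thr 42 47 (.thr 40 43 (.thr 0 63 (.thr 60 20 (.thr 48 16 (.thr 52 56 (.dbl 22 3 7))))))) (.rp 42 (.thr 33 45 (.thr 17 49 (.thr 34 35 (.thr 0 51 (.thr 48 16 (.thr 3 18 (.thr 15 26 (.thr 7 11 (.dbl 22 52 60))))))))) (.rp 35 (.thr 33 45 (.thr 42 47 (.thr 0 63 (.thr 48 16 (.thr 3 18 (.thr 60 22 (.dbl 40 20 43))))))) (.rp 33 (.thr 42 47 (.thr 40 43 (.thr 0 63 (.thr 60 20 (.thr 48 16 (.thr 52 56 (.dbl 22 3 7))))))) .nd)))))))) .nd))))))))))))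

theorem w201 : WinAt (2199025352706, 2323857407723175940) :=
  chF (K := []) kn c201 2199025352706 2323857407723175940 61
    [] (by decide +kernel) (by decide +kernel)

/-- A certificate. -/
noncomputable def c202 : Ct := (.str 63 (.nv (.thr 60 62 (.thr 3 22 (.thr 42 0 (.dbl 43 23 40)))) (.rp 62 (.thr 42 0 (.str 3 (.nv (.dbl 43 23 40) (.rp 43 (.str 35 (.nv (.thr 22 60 (.thr 38 44 (.thr 46 34 (.thr 12 29 (.dbl 6 9 54))))) (.nv (.thr 51 19 (.thr 38 44 (.dbl 55 4 59))) (.rp 51 (.thr 38 44 (.thr 34 46 (.thr 33 32 (.thr 48 18 (.thr 53 58 (.dbl 37 5 45)))))) (.rp 44 (.thr 51 19 (.thr 59 55 (.thr 25 8 (.thr 29 17 (.dbl 12 38 46))))) (.rp 38 (.thr 51 19 (.thr 59 55 (.thr 25 8 (.thr 29 17 (.thr 45 13 (.thr 12 46 (.thr 60 22 (.thr 30 15 (.dbl 28 31 44))))))))) .nd)))))) (.rp 40 (.thr 23 43 (.dbl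 22 20 60)) (.rp 23 (.str 35 (.nv (.thr 38 44 (.thr 34 46 (.thr 32 33 (.thr 43 40 (.dbl 47 37 39))))) (.nv (.thr 51 19 (.thr 38 44 (.dbl 55 4 59))) (.rp 44 (.thr 51 19 (.thr 59 55 (.thr 25 8 (.thr 29 17 (.dbl 12 38 46))))) (.rp 38 (.thr 51 19 (.thr 59 55 (.thr 43 40 (.thr 27 11 (.dbl 39 15 47))))) .nd))))) .nd)))))) (.rp 60 (.str 51 (.nv (.thr 0 42 (.thr 17 34 (.thr 25 29 (.thr 38 12 (.dbl 55 4 59))))) (.nv (.thr 55 59 (.thr 38 4 (.thr 35 44 (.thr 3 19 (.thr 43 23 (.dbl 42 0 40)))))) (.nv (.thr 55 59 (.thr 38 4 (.thr 12 25 (.thr 46 29 (.dbl 42 0 34))))) (.rp 59 (.str 19 (.nv (.thr 0 42 (.thr 17 34 (.thr 25 29 (.thr 35 3 (.dbl 38 12 44))))) (.nv (.thr 3 35 (.thr 43 23 (.dbl 42 0 40))) (.rp 58 (.str 56 (.nv (.thr 3 35 (.thr 26 11 (.thr 31 16 (.dbl 23 27 43)))) (.nv (.thr 0 42 (.thr 17 34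 (.thr 26 11 (.dbl 16 18 31)))) (.nv (.thr 3 35 (.thr 43 23 (.dbl 42 0 40))) (.rp 43 (.thr 35 3 (.thr 0 42 (.thr 17 34 (.thr 25 29 (.dbl 38 12 44))))) .nd))))) (.rp 56 (.str 58 (.nv (.thr 0 42 (.thr 17 34 (.thr 48 53 (.dbl 16 18 32)))) (.nv (.thr 3 35 (.thr 43 23 (.dbl 42 0 40))) (.rp 52 (.thr 48 53 (.thr 3 35 (.thr 43 23 (.dbl 42 0 40)))) (.rp 48 (.str 52 (.nv (.thr 0 42 (.thr 17 34 (.thr 25 29 (.thr 35 3 (.dbl 38 12 44))))) (.nv (.thr 3 35 (.thr 43 23 (.dbl 42 0 40))) (.rp 42 (.thr 3 35 (.thr 23 43 (.thr 27 31 (.thr 22 20 (.thr 7 37 (.dbl 39 15 55)))))) (.rp 35 (.thr 0 42 (.thr 17 34 (.thr 25 29 (.thr 22 28 (.thr 23 20 (.thr 31 27 (.dbl 16 18 26))))))) (.rp 3 (.thr 0 42 (.thr 17 34 (.thr 25 29 (.thr 22 28 (.thr 23 20 (.thr 31 27 (.dbl 16 18 26))))))) (.rp 0 (.thr 3 35 (.thr 23 43 (.thr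 27 31 (.thr 39 15 (.thr 7 55 (.dbl 22 20 37)))))) .nd))))))) (.rp 42 (.thr 3 35 (.thr 23 43 (.thr 22 20 (.thr 25 28 (.thr 29 17 (.dbl 12 38 46)))))) (.rp 0 (.thr 3 35 (.thr 23 43 (.thr 27 31 (.thr 48 53 (.thr 33 18 (.thr 37 45 (.dbl 15 26 39))))))) .nd))))))) (.rp 42 (.thr 3 35 (.thr 23 43 (.thr 22 20 (.thr 25 28 (.thr 29 17 (.dbl 12 38 46)))))) (.rp 35 (.thr 0 42 (.thr 17 34 (.thr 25 29 (.thr 22 28 (.thr 23 20 (.thr 31 27 (.dbl 16 18 26))))))) (.rp 3 (.thr 0 42 (.thr 17 34 (.thr 25 29 (.thr 22 28 (.thr 23 20 (.thr 31 27 (.dbl 16 18 26))))))) (.rp 0 (.thr 3 35 (.thr 23 43 (.thr 27 31 (.thr 39 15 (.thr 55 7 (.thr 38 4 (.thr 12 25 (.thr 6 9 (.dbl 22 20 54))))))))) .nd))))))))) (.rp 55 (.thr 0 42 (.thr 17 34 (.thr 29 25 (.thr 45 13 (.thr 37 33 (.thr 5 53 (.thr 15 10 (.thr 31 47 (.dbl 26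 16 48))))))))) (.rp 42 (.thr 55 59 (.thr 38 4 (.thr 35 44 (.thr 3 19 (.thr 23 43 (.thr 22 20 (.thr 6 54 (.dbl 12 9 25)))))))) (.rp 38 (.str 23 (.nv (.thr 0 42 (.thr 3 43 (.thr 19 35 (.thr 22 20 (.thr 25 28 (.dbl 17 29 34)))))) (.nv (.thr 3 43 (.thr 19 35 (.thr 27 31 (.thr 39 15 (.dbl 55 7 59))))) (.rp 47 (.thr 55 59 (.thr 39 7 (.thr 27 15 (.thr 19 31 (.dbl 3 35 43))))) (.rp 43 (.thr 55 59 (.thr 7 39 (.thr 22 20 (.thr 37 52 (.thr 45 33 (.thr 29 13 (.thr 17 25 (.dbl 0 34 42)))))))) (.rp 39 (.thr 59 55 (.thr 43 3 (.thr 0 42 (.thr 27 11 (.thr 31 19 (.thr 26 16 (.thr 25 24 (.dbl 17 29 34)))))))) (.rp 35 (.thr 59 55 (.thr 43 3 (.thr 0 42 (.thr 27 11 (.thr 31 19 (.dbl 15 39 47)))))) (.rp 19 (.thr 55 59 (.thr 39 7 (.thr 15 27 (.thr 47 31 (.dbl 43 3 35))))) (.rp 3 (.thr 0 42 (.thr 55 59 (.thr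 7 39 (.thr 22 20 (.thr 37 52 (.thr 45 33 (.thr 29 13 (.dbl 17 25 34)))))))) .nd))))))))) (.rp 12 (.thr 0 42 (.thr 17 34 (.thr 29 25 (.thr 45 13 (.thr 37 33 (.thr 5 53 (.thr 15 10 (.thr 31 47 (.dbl 26 16 48))))))))) (.rp 4 (.thr 0 42 (.thr 17 34 (.thr 29 25 (.thr 45 13 (.thr 37 33 (.thr 5 53 (.thr 15 10 (.thr 31 47 (.dbl 26 16 48))))))))) (.rp 0 (.str 3 (.nv (.thr 19 35 (.thr 23 43 (.thr 27 31 (.thr 39 15 (.dbl 55 7 59))))) (.nv (.thr 55 59 (.thr 35 19 (.dbl 38 4 44))) (.rp 59 (.thr 35 19 (.thr 23 43 (.thr 38 44 (.thr 12 25 (.thr 6 9 (.dbl 22 20 54)))))) (.rp 55 (.thr 19 35 (.thr 23 43 (.thr 31 27 (.thr 26 16 (.thr 11 56 (.dbl 15 7 47)))))) (.rp 40 (.str 20 (.nv (.thr 35 19 (.thr 38 44 (.dbl 55 4 59))) (.nv (.dbl 23 22 43) .nd))) (.rp 35 (.thr 59 55 (.thr 43 23 (.thr 11 27 (.thr 26 56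 (.thr 31 16 (.dbl 15 7 47)))))) (.rp 20 (.str 40 (.nv (.thr 35 19 (.thr 38 44 (.dbl 55 4 59))) (.nv (.dbl 43 23 42) .nd))) (.rp 19 (.thr 55 59 (.thr 23 43 (.thr 38 4 (.thr 12 25 (.thr 6 9 (.dbl 22 20 54)))))) .nd))))))))) .nd))))))))))) (.rp 43 (.thr 60 62 (.thr 22 3 (.thr 0 42 (.dbl 20 23 40)))) (.rp 42 (.str 3 (.nv (.dbl 60 22 62) (.rp 62 (.thr 22 60 (.dbl 23 20 43)) (.rp 60 (.thr 23 43 (.str 51 (.nv (.thr 22 20 (.thr 55 59 (.thr 38 4 (.thr 6 54 (.dbl 12 9 25))))) (.nv (.thr 19 35 (.thr 31 27 (.thr 26 16 (.thr 11 56 (.dbl 15 7 47))))) (.nv (.thr 35 19 (.thr 38 44 (.dbl 55 4 59))) (.rp 59 (.thr 19 35 (.thr 22 20 (.thr 25 28 (.thr 29 17 (.dbl 12 38 46))))) (.rp 22 (.str 62 (.nv (.thr 19 35 (.thr 31 27 (.thr 26 16 (.thr 11 56 (.dbl 15 7 47))))) (.nv (.thr 35 19 (.thr 38 44 (.dbl 55 4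 59))) (.rp 59 (.thr 35 19 (.thr 38 44 (.thr 55 4 (.thr 39 7 (.thr 37 36 (.thr 45 33 (.thr 29 13 (.dbl 25 12 17)))))))) (.rp 35 (.thr 55 59 (.thr 39 7 (.thr 27 15 (.thr 31 19 (.thr 26 16 (.thr 25 24 (.dbl 38 4 12))))))) (.rp 19 (.thr 55 59 (.thr 39 7 (.thr 38 4 (.thr 37 36 (.thr 45 33 (.thr 29 13 (.dbl 25 12 17))))))) .nd)))))) .nd))))))) (.rp 22 (.thr 62 60 (.str 51 (.nv (.thr 19 35 (.thr 23 43 (.thr 27 31 (.thr 39 15 (.dbl 55 7 59))))) (.nv (.thr 35 19 (.thr 38 44 (.dbl 55 4 59))) (.rp 59 (.thr 43 23 (.thr 35 19 (.thr 47 39 (.thr 31 15 (.thr 44 38 (.thr 46 45 (.thr 30 14 (.dbl 29 12 28)))))))) (.rp 55 (.thr 23 43 (.thr 19 35 (.thr 31 27 (.thr 26 16 (.thr 11 56 (.dbl 15 7 47)))))) (.rp 35 (.thr 59 55 (.thr 43 23 (.thr 11 27 (.thr 26 56 (.thr 31 16 (.dbl 15 7 47)))))) (.rp 19 (.thr 55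 59 (.thr 23 43 (.thr 39 7 (.thr 38 4 (.thr 37 36 (.thr 45 33 (.thr 29 13 (.dbl 25 12 17)))))))) .nd)))))))) .nd))))) (.rp 40 (.str 51 (.nv (.thr 0 42 (.thr 17 34 (.thr 25 29 (.thr 38 12 (.thr 35 44 (.thr 3 19 (.dbl 60 22 62))))))) (.nv (.thr 55 59 (.thr 38 4 (.thr 35 44 (.thr 3 19 (.dbl 60 22 62))))) (.nv (.thr 55 59 (.thr 38 4 (.thr 25 12 (.thr 17 29 (.dbl 0 34 42))))) (.rp 38 (.thr 59 55 (.thr 60 62 (.thr 3 22 (.thr 42 0 (.thr 43 23 (.thr 27 11 (.thr 35 19 (.dbl 39 15 47)))))))) (.rp 3 (.thr 0 42 (.thr 55 59 (.thr 17 34 (.thr 25 29 (.dbl 38 4 12))))) (.rp 0 (.str 3 (.nv (.thr 35 19 (.thr 38 44 (.dbl 55 4 59))) (.nv (.dbl 60 22 62) (.rp 60 (.str 20 (.nv (.thr 35 19 (.thr 38 44 (.dbl 55 4 59))) (.nv (.dbl 23 22 43) .nd))) .nd)))) .nd))))))) (.rp 23 (.str 29 (.nv (.thr 0 42 (.thr 45 13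 (.thr 37 33 (.thr 5 53 (.thr 15 10 (.dbl 60 30 62)))))) (.nv (.thr 45 13 (.thr 46 12 (.thr 47 44 (.thr 15 31 (.dbl 60 30 62))))) (.nv (.thr 0 42 (.thr 12 46 (.thr 4 8 (.thr 25 17 (.dbl 38 51 55))))) (.rp 62 (.thr 25 17 (.thr 12 46 (.thr 51 38 (.thr 59 55 (.dbl 42 0 8))))) (.rp 0 (.str 3 (.nv (.dbl 60 22 62) (.rp 62 (.thr 25 17 (.thr 22 60 (.thr 19 28 (.thr 51 35 (.dbl 12 38 46))))) (.rp 60 (.thr 13 45 (.thr 12 46 (.thr 15 14 (.thr 11 7 (.thr 26 56 (.dbl 31 16 47)))))) (.rp 22 (.thr 45 13 (.thr 46 12 (.thr 47 44 (.thr 15 31 (.dbl 60 30 62))))) .nd))))) .nd)))))) (.rp 22 (.str 29 (.nv (.thr 45 13 (.thr 46 12 (.thr 47 44 (.thr 15 31 (.dbl 60 30 62))))) (.nv (.thr 0 42 (.thr 62 60 (.thr 12 46 (.thr 4 8 (.thr 38 55 (.dbl 25 17 51)))))) (.rp 62 (.thr 42 0 (.str 3 (.nv (.dbl 43 23 40) (.rp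 43 (.thr 25 17 (.thr 59 8 (.thr 51 55 (.dbl 12 38 46)))) (.rp 40 (.thr 25 17 (.thr 59 8 (.thr 51 55 (.dbl 12 38 46)))) (.rp 23 (.thr 25 17 (.thr 59 8 (.thr 51 55 (.dbl 12 38 46)))) .nd)))))) (.rp 60 (.thr 25 17 (.thr 12 46 (.thr 51 38 (.thr 59 55 (.dbl 42 0 8))))) (.rp 46 (.thr 45 13 (.thr 37 33 (.thr 5 53 (.thr 62 60 (.thr 0 42 (.thr 15 10 (.thr 31 47 (.dbl 26 16 48)))))))) (.rp 42 (.thr 62 60 (.thr 45 13 (.thr 37 33 (.thr 46 12 (.thr 44 47 (.thr 38 35 (.thr 14 30 (.thr 26 50 (.thr 48 15 (.dbl 53 5 58)))))))))) (.rp 12 (.thr 45 13 (.thr 37 33 (.thr 5 53 (.thr 62 60 (.thr 0 42 (.thr 15 10 (.thr 31 47 (.dbl 26 16 48)))))))) (.rp 0 (.str 3 (.nv (.thr 12 46 (.thr 25 17 (.thr 43 23 (.thr 51 38 (.thr 59 55 (.dbl 42 8 40)))))) (.nv (.thr 45 13 (.thr 46 12 (.thr 47 44 (.thr 15 31 (.dbl 60 30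 62))))) (.rp 62 (.str 42 (.nv (.dbl 43 23 40) (.rp 43 (.thr 25 17 (.thr 59 8 (.thr 51 55 (.dbl 12 38 46)))) (.rp 40 (.thr 25 17 (.thr 59 8 (.thr 51 55 (.dbl 12 38 46)))) (.rp 23 (.thr 25 17 (.thr 59 8 (.thr 51 55 (.dbl 12 38 46)))) .nd))))) (.rp 46 (.thr 25 17 (.thr 43 23 (.thr 42 40 (.thr 59 8 (.thr 51 55 (.thr 35 19 (.dbl 38 12 44))))))) (.rp 42 (.thr 62 60 (.thr 13 45 (.thr 12 46 (.thr 15 14 (.thr 11 7 (.thr 26 56 (.dbl 31 16 47))))))) (.rp 12 (.thr 45 13 (.thr 37 33 (.thr 43 23 (.thr 60 62 (.thr 42 40 (.thr 15 30 (.dbl 47 31 32))))))) (.rp 8 (.thr 13 45 (.thr 12 46 (.thr 15 14 (.thr 11 7 (.thr 26 56 (.dbl 31 16 47)))))) .nd)))))))) .nd))))))))) (.rp 3 (.thr 0 42 (.str 29 (.nv (.thr 45 13 (.thr 37 33 (.thr 5 53 (.thr 15 10 (.dbl 60 30 62))))) (.nv (.thr 12 46 (.thr 4 8 (.thr 38 55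 (.dbl 25 17 51)))) (.rp 62 (.str 22 (.nv (.thr 12 46 (.thr 4 8 (.thr 20 23 (.thr 38 55 (.thr 60 40 (.dbl 44 28 35)))))) (.nv (.thr 20 23 (.thr 25 17 (.thr 28 19 (.thr 16 24 (.dbl 31 26 30))))) (.nv (.thr 12 46 (.thr 4 8 (.thr 38 55 (.dbl 25 17 51)))) (.rp 30 (.thr 25 17 (.thr 28 19 (.thr 20 23 (.thr 60 40 (.dbl 12 44 46))))) (.rp 25 (.thr 20 23 (.thr 60 40 (.thr 45 13 (.thr 30 15 (.thr 31 28 (.dbl 26 16 18)))))) .nd)))))) (.rp 22 (.thr 62 60 (.thr 25 17 (.thr 12 46 (.thr 4 8 (.dbl 38 51 55))))) (.rp 17 (.thr 45 13 (.thr 46 12 (.thr 47 44 (.thr 15 31 (.dbl 60 30 62))))) .nd))))))) (.rp 0 (.str 3 (.nv (.dbl 60 22 62) (.rp 62 (.thr 23 43 (.dbl 22 20 60)) (.rp 60 (.str 51 (.nv (.thr 19 35 (.thr 23 43 (.thr 27 31 (.thr 39 15 (.dbl 55 7 59))))) (.nv (.thr 55 59 (.thr 35 19 (.dbl 38 4 44)))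 (.rp 59 (.thr 35 19 (.thr 23 43 (.thr 38 44 (.thr 12 25 (.thr 6 9 (.dbl 22 20 54)))))) (.rp 55 (.thr 19 35 (.thr 23 43 (.thr 31 27 (.thr 26 16 (.thr 11 56 (.dbl 15 7 47)))))) (.rp 40 (.str 20 (.nv (.thr 35 19 (.thr 38 44 (.dbl 55 4 59))) (.nv (.dbl 23 22 43) .nd))) (.rp 35 (.thr 59 55 (.thr 43 23 (.thr 11 27 (.thr 26 56 (.thr 31 16 (.dbl 15 7 47)))))) (.rp 20 (.str 40 (.nv (.thr 35 19 (.thr 38 44 (.dbl 55 4 59))) (.nv (.dbl 43 23 42) .nd))) (.rp 19 (.thr 55 59 (.thr 23 43 (.thr 38 4 (.thr 12 25 (.thr 6 9 (.dbl 22 20 54)))))) .nd))))))))) (.rp 22 (.str 29 (.nv (.thr 12 46 (.thr 25 17 (.thr 43 23 (.thr 51 38 (.thr 59 55 (.dbl 42 8 40)))))) (.nv (.thr 45 13 (.thr 46 12 (.thr 47 44 (.thr 15 31 (.dbl 60 30 62))))) (.rp 62 (.str 42 (.nv (.dbl 43 23 40) (.rp 43 (.thr 25 17 (.thr 59 8 (.thr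 51 55 (.dbl 12 38 46)))) (.rp 40 (.thr 25 17 (.thr 59 8 (.thr 51 55 (.dbl 12 38 46)))) (.rp 23 (.thr 25 17 (.thr 59 8 (.thr 51 55 (.dbl 12 38 46)))) .nd))))) (.rp 46 (.thr 25 17 (.thr 43 23 (.thr 42 40 (.thr 59 8 (.thr 51 55 (.thr 35 19 (.dbl 38 12 44))))))) (.rp 42 (.thr 62 60 (.thr 13 45 (.thr 12 46 (.thr 15 14 (.thr 11 7 (.thr 26 56 (.dbl 31 16 47))))))) (.rp 12 (.thr 45 13 (.thr 37 33 (.thr 43 23 (.thr 60 62 (.thr 42 40 (.thr 15 30 (.dbl 47 31 32))))))) (.rp 8 (.thr 13 45 (.thr 12 46 (.thr 15 14 (.thr 11 7 (.thr 26 56 (.dbl 31 16 47)))))) .nd)))))))) .nd))))) .nd)))))))))))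

theorem w202 : WinAt (2305845208239046656, 144115188075855878) :=
  chF (K := []) kn c202 2305845208239046656 144115188075855878 1
    [15] (by decide +kernel) (by decide +kernel)

/-- A certificate. -/
noncomputable def c203 : Ct := (.str 25 (.nv (.thr 17 29 (.thr 49 33 (.thr 13 37 (.dbl 9 5 57)))) (.rp 57 (.thr 17 29 (.thr 49 33 (.thr 13 37 (.thr 9 5 (.str 42 (.nv (.thr 0 63 (.thr 51 34 (.thr 12 38 (.dbl 8 4 59)))) (.nv (.thr 40 43 (.thr 8 59 (.thr 56 24 (.dbl 11 10 26)))) (.rp 59 (.str 56 (.nv (.thr 0 63 (.thr 40 43 (.thr 51 34 (.thr 60 20 (.dbl 48 50 52))))) (.nv (.thr 0 63 (.thr 11 26 (.thr 8 10 (.thr 12 4 (.dbl 51 34 38))))) (.nv (.thr 40 43 (.thr 24 8 (.dbl 26 11 27))) (.rp 11 (.thr 0 63 (.thr 51 34 (.thr 12 38 (.thr 8 4 (.dbl 40 24 43))))) .nd))))) (.rp 56 (.thr 59 8 (.thr 63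 0 (.thr 51 55 (.thr 12 38 (.thr 3 6 (.dbl 43 23 40)))))) (.rp 8 (.thr 0 63 (.thr 51 34 (.thr 40 43 (.thr 12 38 (.thr 3 6 (.dbl 60 20 22)))))) .nd)))))))))) (.rp 49 (.thr 57 9 (.str 51 (.nv (.thr 17 29 (.thr 0 34 (.thr 60 54 (.thr 20 40 (.dbl 22 3 23))))) (.nv (.thr 29 17 (.thr 12 38 (.thr 63 46 (.thr 42 0 (.dbl 59 8 55))))) (.nv (.thr 12 38 (.thr 60 54 (.thr 22 3 (.dbl 28 19 44)))) .nd))))) (.rp 45 (.thr 9 57 (.thr 17 29 (.thr 13 5 (.dbl 49 33 37)))) (.rp 37 (.str 19 (.nv (.thr 9 57 (.thr 22 28 (.thr 3 60 (.thr 12 6 (.dbl 51 35 38))))) (.nv (.thr 22 28 (.thr 23 20 (.thr 17 29 (.thr 31 27 (.dbl 16 18 26))))) (.rp 28 (.thr 17 29 (.thr 57 9 (.thr 33 49 (.thr 18 16 (.thr 3 48 (.thr 51 35 (.dbl 60 22 54))))))) (.rp 22 (.thr 17 29 (.thr 33 49 (.thr 18 16 (.thr 3 48 (.thr 51 35 (.thr 12 38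 (.dbl 9 6 57))))))) .nd))))) (.rp 33 (.str 19 (.nv (.thr 9 57 (.thr 22 28 (.thr 3 60 (.thr 12 6 (.dbl 51 35 38))))) (.nv (.thr 28 22 (.thr 29 17 (.thr 31 30 (.thr 26 16 (.dbl 27 23 24))))) (.rp 62 (.thr 17 29 (.thr 16 18 (.thr 31 26 (.thr 23 27 (.dbl 22 20 28))))) (.rp 28 (.thr 17 29 (.thr 9 57 (.thr 16 18 (.thr 31 26 (.thr 23 27 (.thr 22 20 (.thr 3 60 (.thr 51 35 (.dbl 12 6 38))))))))) (.rp 22 (.thr 17 29 (.thr 9 57 (.thr 16 18 (.thr 26 31 (.thr 27 24 (.thr 11 56 (.thr 59 43 (.dbl 8 10 42)))))))) .nd)))))) (.rp 29 (.thr 9 57 (.thr 13 5 (.thr 49 37 (.thr 17 33 (.str 42 (.nv (.thr 0 63 (.thr 51 34 (.thr 12 38 (.dbl 8 4 59)))) (.nv (.thr 40 43 (.thr 8 59 (.thr 56 24 (.dbl 11 10 26)))) (.rp 59 (.str 56 (.nv (.thr 0 63 (.thr 40 43 (.thr 51 34 (.thr 60 20 (.dbl 48 50 52))))) (.nv (.thr 0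 63 (.thr 11 26 (.thr 8 10 (.thr 12 4 (.dbl 51 34 38))))) (.nv (.thr 40 43 (.thr 24 8 (.dbl 26 11 27))) (.rp 11 (.thr 0 63 (.thr 51 34 (.thr 12 38 (.thr 8 4 (.dbl 40 24 43))))) .nd))))) (.rp 56 (.thr 59 8 (.thr 63 0 (.thr 51 55 (.thr 12 38 (.thr 3 6 (.dbl 43 23 40)))))) (.rp 8 (.thr 0 63 (.thr 51 34 (.thr 40 43 (.thr 12 38 (.thr 3 6 (.dbl 60 20 22)))))) .nd)))))))))) (.rp 17 (.str 3 (.nv (.thr 9 57 (.thr 5 13 (.thr 6 12 (.thr 4 7 (.thr 38 55 (.dbl 22 54 60)))))) (.nv (.thr 22 60 (.thr 19 28 (.thr 51 35 (.thr 12 38 (.dbl 9 6 57))))) (.rp 60 (.thr 9 57 (.thr 13 5 (.thr 12 6 (.thr 51 38 (.thr 19 35 (.thr 22 28 (.thr 23 20 (.thr 27 31 (.dbl 15 14 39))))))))) (.rp 57 (.thr 22 60 (.thr 19 28 (.thr 51 35 (.thr 23 20 (.thr 63 43 (.thr 59 55 (.dbl 42 0 8))))))) (.rp 38 (.thr 9 57 (.thr 5 13 (.thr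 6 12 (.thr 7 4 (.thr 22 60 (.dbl 37 52 53)))))) (.rp 22 (.thr 9 57 (.thr 12 6 (.thr 38 51 (.thr 44 35 (.thr 60 28 (.thr 4 55 (.thr 0 8 (.thr 40 20 (.dbl 42 43 63))))))))) (.rp 12 (.thr 57 9 (.thr 60 22 (.thr 51 54 (.thr 35 19 (.thr 38 44 (.thr 55 4 (.thr 63 59 (.thr 43 23 (.dbl 42 0 40))))))))) (.rp 9 (.thr 22 60 (.thr 19 28 (.thr 51 35 (.thr 23 20 (.thr 63 43 (.thr 59 55 (.dbl 42 0 8))))))) (.rp 6 (.thr 57 9 (.thr 60 22 (.thr 51 54 (.thr 38 12 (.dbl 35 19 44))))) .nd)))))))))) (.rp 13 (.thr 57 9 (.thr 29 17 (.str 51 (.nv (.thr 12 38 (.thr 60 54 (.thr 22 3 (.dbl 28 19 44)))) (.nv (.thr 12 38 (.thr 63 46 (.thr 42 0 (.dbl 59 8 55)))) (.rp 38 (.thr 60 54 (.thr 22 3 (.thr 28 19 (.thr 31 30 (.thr 16 26 (.dbl 20 23 24)))))) (.rp 12 (.thr 60 54 (.thr 3 22 (.thr 35 19 (.thr 38 44 (.thr 55 4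 (.thr 63 59 (.thr 43 23 (.dbl 42 0 40)))))))) .nd))))))) (.rp 9 (.str 19 (.nv (.thr 17 29 (.thr 18 16 (.thr 33 49 (.thr 3 48 (.dbl 22 28 60))))) (.nv (.thr 28 22 (.thr 29 17 (.thr 31 30 (.thr 26 16 (.dbl 27 23 24))))) (.rp 29 (.thr 22 28 (.thr 23 20 (.thr 3 60 (.thr 63 43 (.thr 51 35 (.thr 59 55 (.dbl 42 0 8))))))) (.rp 28 (.thr 17 29 (.thr 33 49 (.thr 18 16 (.thr 3 48 (.thr 51 35 (.thr 22 60 (.thr 0 34 (.thr 63 42 (.dbl 23 20 43))))))))) (.rp 22 (.thr 17 29 (.thr 33 49 (.thr 18 16 (.thr 3 48 (.thr 51 35 (.thr 0 34 (.thr 12 38 (.thr 8 4 (.dbl 42 59 63))))))))) (.rp 17 (.thr 22 28 (.thr 23 20 (.thr 3 60 (.thr 63 43 (.thr 51 35 (.thr 59 55 (.dbl 42 0 8))))))) (.rp 16 (.thr 17 29 (.thr 22 28 (.thr 3 60 (.thr 51 35 (.thr 0 34 (.thr 63 42 (.dbl 23 20 43))))))) .nd)))))))) (.rp 5 (.str 19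 (.nv (.thr 9 57 (.thr 22 28 (.thr 3 60 (.thr 12 6 (.dbl 51 35 38))))) (.nv (.thr 28 22 (.thr 29 17 (.thr 31 30 (.thr 26 16 (.dbl 27 23 24))))) (.rp 62 (.thr 17 29 (.thr 33 49 (.thr 18 16 (.thr 3 48 (.dbl 22 28 60))))) (.rp 28 (.thr 17 29 (.thr 57 9 (.thr 33 49 (.thr 18 16 (.thr 3 48 (.thr 51 35 (.dbl 60 22 54))))))) (.rp 22 (.thr 17 29 (.thr 33 49 (.thr 18 16 (.thr 3 48 (.thr 51 35 (.thr 12 38 (.dbl 9 6 57))))))) .nd)))))) .nd))))))))))))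

theorem w203 : WinAt (2199025352706, 2594073385365405700) :=
  chF (K := []) kn c203 2199025352706 2594073385365405700 61
    [] (by decide +kernel) (by decide +kernel)

end Pool.Agent.TTT.B43
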