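import Pool.Agent.TTT.Q7
import Pool.Agent.TTT.Q8
import Pool.Agent.TTT.Q9
import Pool.Agent.TTT.Q10

/-!
Certified forced wins after the first three cells on the 4 x 4 x 4 board.
-/

set_option autoImplicit false
set_option maxRecDepth 1000000
set_option linter.all false

namespace Pool.Agent.TTT.B43

/-- A certificate. -/
noncomputable def r2 : Rt := (.rp 63 .ext (.rp 62 .ext (.rp 61 .ext (.rp 60 .ext (.rp 59 (.thr 1 61 .ext) (.rp 58 (.thr 1 61 .ext) (.rp 57 (.thr 61 1 .ext) (.rp 56 (.thr 1 61 (.str 25 (.nv (.thr 17 29 (.thr 49 33 (.thr 13 37 (.dbl 9 5 57)))) (.rp 57 (.thr 17 29 (.thr 49 33 (.thr 13 37 (.thr 9 5 (.str 22 (.nv (.thr 3 60 (.thr 12 6 (.thr 19 28 (.dbl 51 35 38)))) (.nv (.thr 3 60 (.thr 12 6 (.thr 23 20 (.thr 51 38 (.thr 63 43 (.dbl 0 34 42)))))) (.nv (.thr 23 20 (.thr 19 28 (.thr 31 27 (.dbl 16 18 26))))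 (.rp 59 (.str 58 (.nv (.thr 3 60 (.thr 12 6 (.thr 19 28 (.dbl 51 35 38)))) (.nv (.thr 3 60 (.thr 12 6 (.thr 51 38 (.thr 48 50 (.thr 63 53 (.dbl 0 34 42)))))) (.nv (.thr 23 20 (.thr 19 28 (.thr 31 27 (.dbl 16 18 26)))) .nd)))) (.rp 58 (.str 59 (.nv (.thr 3 60 (.thr 12 6 (.thr 51 38 (.thr 63 55 (.dbl 0 34 42))))) (.nv (.thr 23 20 (.thr 19 28 (.thr 31 27 (.dbl 16 18 26)))) .nd))) .nd)))))))))) (.rp 49 (.thr 29 17 (.thr 57 9 (.str 12 (.nv (.thr 51 38 (.thr 60 54 (.thr 22 3 (.dbl 28 19 44)))) (.nv (.thr 63 46 (.thr 51 38 (.thr 42 0 (.dbl 59 8 55)))) (.rp 51 (.thr 63 46 (.thr 0 42 (.thr 4 8 (.thr 38 55 (.thr 44 35 (.thr 28 60 (.thr 31 30 (.thr 15 47 (.thr 26 16 (.dbl 14 13 50)))))))))) (.rp 38 (.thr 63 46 (.thr 42 0 (.thr 59 8 (.thr 51 55 (.thr 60 54 (.thr 28 44 (.dbl 22 3 19))))))) .nd))))))) (.rp 45 (.thr 9 57 (.thr 17 29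 (.thr 13 5 (.dbl 49 33 37)))) (.rp 37 (.str 12 (.nv (.thr 9 57 (.thr 3 6 (.thr 29 17 (.thr 63 46 (.thr 23 43 (.dbl 22 20 60)))))) (.nv (.thr 9 57 (.thr 3 6 (.thr 38 51 (.thr 44 35 (.dbl 60 22 28))))) (.nv (.thr 29 17 (.thr 38 51 (.thr 4 55 (.thr 63 46 (.dbl 0 8 42))))) .nd)))) (.rp 33 (.str 12 (.nv (.thr 9 57 (.thr 3 6 (.thr 29 17 (.thr 63 46 (.thr 23 43 (.dbl 22 20 60)))))) (.nv (.thr 51 38 (.thr 57 9 (.thr 60 54 (.thr 22 3 (.dbl 28 19 44))))) (.nv (.thr 29 17 (.thr 51 38 (.thr 63 46 (.thr 42 0 (.dbl 59 8 55))))) .nd)))) (.rp 29 (.thr 9 57 (.thr 13 5 (.thr 49 37 (.thr 17 33 (.str 22 (.nv (.thr 3 60 (.thr 12 6 (.thr 19 28 (.dbl 51 35 38)))) (.nv (.thr 3 60 (.thr 12 6 (.thr 23 20 (.thr 51 38 (.thr 63 43 (.dbl 0 34 42)))))) (.nv (.thr 23 20 (.thr 19 28 (.thr 31 27 (.dbl 16 18 26)))) (.rp 59 (.str 58 (.nv (.thr 3 60 (.thr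 12 6 (.thr 19 28 (.dbl 51 35 38)))) (.nv (.thr 3 60 (.thr 12 6 (.thr 51 38 (.thr 48 50 (.thr 63 53 (.dbl 0 34 42)))))) (.nv (.thr 23 20 (.thr 19 28 (.thr 31 27 (.dbl 16 18 26)))) .nd)))) (.rp 58 (.str 59 (.nv (.thr 3 60 (.thr 12 6 (.thr 51 38 (.thr 63 55 (.dbl 0 34 42))))) (.nv (.thr 23 20 (.thr 19 28 (.thr 31 27 (.dbl 16 18 26)))) .nd))) .nd)))))))))) (.rp 17 (.str 12 (.nv (.thr 9 57 (.thr 5 13 (.thr 6 3 (.thr 4 7 (.dbl 38 51 55))))) (.nv (.thr 51 38 (.thr 57 9 (.thr 60 54 (.thr 22 3 (.dbl 28 19 44))))) (.rp 57 (.thr 38 51 (.thr 4 55 (.thr 0 8 (.thr 44 35 (.thr 60 28 (.thr 40 20 (.dbl 42 43 63))))))) (.rp 51 (.thr 9 57 (.thr 3 6 (.thr 60 22 (.thr 44 28 (.thr 38 35 (.thr 4 55 (.thr 0 8 (.thr 40 20 (.dbl 42 43 63))))))))) (.rp 38 (.thr 9 57 (.thr 13 5 (.thr 3 6 (.thr 22 60 (.thr 19 28 (.thr 51 35 (.thr 23 20 (.thr 27 31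 (.dbl 15 14 39))))))))) (.rp 9 (.thr 38 51 (.thr 4 55 (.thr 0 8 (.thr 44 35 (.thr 60 28 (.thr 40 20 (.dbl 42 43 63))))))) (.rp 3 (.thr 9 57 (.thr 13 5 (.thr 15 14 (.thr 51 38 (.thr 27 39 (.thr 26 24 (.dbl 37 48 49))))))) .nd)))))))) (.rp 13 (.thr 29 17 (.str 12 (.nv (.thr 9 57 (.thr 3 6 (.thr 63 46 (.thr 23 43 (.dbl 22 20 60))))) (.nv (.thr 51 38 (.thr 57 9 (.thr 60 54 (.thr 22 3 (.dbl 28 19 44))))) (.nv (.thr 51 38 (.thr 63 46 (.thr 42 0 (.dbl 59 8 55)))) .nd))))) (.rp 9 (.str 12 (.nv (.thr 38 51 (.thr 4 55 (.thr 0 8 (.thr 44 35 (.thr 60 28 (.thr 40 20 (.dbl 42 43 63))))))) (.nv (.thr 17 29 (.thr 49 33 (.thr 51 38 (.thr 48 50 (.thr 24 36 (.thr 26 27 (.dbl 37 13 15))))))) (.nv (.thr 29 17 (.thr 63 46 (.thr 51 38 (.thr 42 0 (.dbl 59 8 55))))) (.rp 51 (.thr 29 17 (.thr 63 46 (.thr 0 42 (.thr 4 8 (.thr 38 55 (.thr 44 35 (.thr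 28 60 (.thr 31 30 (.thr 15 47 (.thr 26 16 (.dbl 14 13 50))))))))))) (.rp 38 (.thr 29 17 (.thr 63 46 (.thr 42 0 (.thr 43 40 (.thr 3 23 (.thr 60 22 (.thr 28 44 (.thr 31 30 (.thr 47 15 (.thr 35 39 (.thr 51 19 (.dbl 59 8 55)))))))))))) .nd)))))) (.rp 5 (.str 12 (.nv (.thr 9 57 (.thr 3 6 (.thr 29 17 (.thr 63 46 (.thr 23 43 (.dbl 22 20 60)))))) (.nv (.thr 17 29 (.thr 51 38 (.thr 0 34 (.thr 8 4 (.dbl 42 59 63))))) (.nv (.thr 51 38 (.thr 57 9 (.thr 60 54 (.thr 22 3 (.dbl 28 19 44))))) .nd)))) .nd))))))))))))) (.rp 55 (.thr 1 61 (.str 37 (.nv (.thr 33 45 (.thr 49 17 (.thr 13 25 (.dbl 5 9 53)))) (.rp 53 (.thr 33 45 (.thr 49 17 (.thr 13 25 (.thr 5 9 (.str 42 (.nv (.thr 0 63 (.thr 15 10 (.thr 32 47 (.dbl 48 16 26)))) (.nv (.thr 0 63 (.thr 15 10 (.thr 40 43 (.thr 48 26 (.thr 60 20 (.dbl 3 18 22)))))) (.nv (.thr 40 43 (.thr 32 47 (.thr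 44 36 (.dbl 35 34 38)))) (.rp 54 (.str 52 (.nv (.thr 0 63 (.thr 15 10 (.thr 48 26 (.thr 60 56 (.dbl 3 18 22))))) (.nv (.thr 40 43 (.thr 32 47 (.thr 44 36 (.dbl 35 34 38)))) .nd))) (.rp 52 (.str 54 (.nv (.thr 0 63 (.thr 15 10 (.thr 32 47 (.dbl 48 16 26)))) (.nv (.thr 0 63 (.thr 15 10 (.thr 48 26 (.thr 51 50 (.thr 60 57 (.dbl 3 18 22)))))) (.nv (.thr 40 43 (.thr 32 47 (.thr 44 36 (.dbl 35 34 38)))) .nd)))) .nd)))))))))) (.rp 49 (.thr 45 33 (.thr 53 5 (.str 15 (.nv (.thr 48 26 (.thr 63 58 (.thr 42 0 (.dbl 47 31 32)))) (.nv (.thr 60 30 (.thr 48 26 (.thr 22 3 (.dbl 52 7 56)))) (.rp 48 (.thr 60 30 (.thr 3 22 (.thr 11 7 (.thr 26 56 (.thr 31 16 (.thr 47 63 (.thr 44 46 (.thr 12 28 (.thr 38 35 (.dbl 14 13 50)))))))))) (.rp 26 (.thr 60 30 (.thr 22 3 (.thr 52 7 (.thr 48 56 (.thr 63 58 (.thr 47 31 (.dbl 42 0 32))))))) .nd))))))) (.rp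 45 (.thr 5 53 (.thr 13 9 (.thr 49 25 (.thr 33 17 (.str 42 (.nv (.thr 0 63 (.thr 15 10 (.thr 32 47 (.dbl 48 16 26)))) (.nv (.thr 0 63 (.thr 15 10 (.thr 40 43 (.thr 48 26 (.thr 60 20 (.dbl 3 18 22)))))) (.nv (.thr 40 43 (.thr 32 47 (.thr 44 36 (.dbl 35 34 38)))) (.rp 54 (.str 52 (.nv (.thr 0 63 (.thr 15 10 (.thr 48 26 (.thr 60 56 (.dbl 3 18 22))))) (.nv (.thr 40 43 (.thr 32 47 (.thr 44 36 (.dbl 35 34 38)))) .nd))) (.rp 52 (.str 54 (.nv (.thr 0 63 (.thr 15 10 (.thr 32 47 (.dbl 48 16 26)))) (.nv (.thr 0 63 (.thr 15 10 (.thr 48 26 (.thr 51 50 (.thr 60 57 (.dbl 3 18 22)))))) (.nv (.thr 40 43 (.thr 32 47 (.thr 44 36 (.dbl 35 34 38)))) .nd)))) .nd)))))))))) (.rp 33 (.str 15 (.nv (.thr 5 53 (.thr 9 13 (.thr 10 0 (.thr 11 8 (.dbl 26 48 56))))) (.nv (.thr 48 26 (.thr 53 5 (.thr 63 58 (.thr 42 0 (.dbl 47 31 32))))) (.rp 53 (.thr 26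 48 (.thr 11 56 (.thr 3 7 (.thr 31 16 (.thr 63 47 (.thr 23 43 (.dbl 22 20 60))))))) (.rp 48 (.thr 5 53 (.thr 0 10 (.thr 63 42 (.thr 31 47 (.thr 26 16 (.thr 11 56 (.thr 3 7 (.thr 23 43 (.dbl 22 20 60))))))))) (.rp 26 (.thr 5 53 (.thr 13 9 (.thr 0 10 (.thr 42 63 (.thr 32 47 (.thr 48 16 (.thr 40 43 (.thr 36 44 (.dbl 12 14 24))))))))) (.rp 5 (.thr 26 48 (.thr 11 56 (.thr 3 7 (.thr 31 16 (.thr 63 47 (.thr 23 43 (.dbl 22 20 60))))))) (.rp 0 (.thr 5 53 (.thr 13 9 (.thr 12 14 (.thr 48 26 (.thr 36 24 (.thr 38 39 (.dbl 25 49 51))))))) .nd)))))))) (.rp 29 (.thr 5 53 (.thr 33 45 (.thr 13 9 (.dbl 49 17 25)))) (.rp 25 (.str 15 (.nv (.thr 5 53 (.thr 0 10 (.thr 45 33 (.thr 60 30 (.thr 20 40 (.dbl 22 3 23)))))) (.nv (.thr 5 53 (.thr 0 10 (.thr 26 48 (.thr 31 16 (.dbl 63 42 47))))) (.nv (.thr 26 48 (.thr 45 33 (.thr 11 56 (.thr 60 30 (.dbl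 3 7 22))))) .nd)))) (.rp 17 (.str 15 (.nv (.thr 5 53 (.thr 0 10 (.thr 45 33 (.thr 60 30 (.thr 20 40 (.dbl 22 3 23)))))) (.nv (.thr 48 26 (.thr 53 5 (.thr 63 58 (.thr 42 0 (.dbl 47 31 32))))) (.nv (.thr 45 33 (.thr 48 26 (.thr 60 30 (.thr 22 3 (.dbl 52 7 56))))) .nd)))) (.rp 13 (.thr 45 33 (.str 15 (.nv (.thr 5 53 (.thr 0 10 (.thr 60 30 (.thr 20 40 (.dbl 22 3 23))))) (.nv (.thr 48 26 (.thr 53 5 (.thr 63 58 (.thr 42 0 (.dbl 47 31 32))))) (.nv (.thr 48 26 (.thr 60 30 (.thr 22 3 (.dbl 52 7 56)))) .nd))))) (.rp 9 (.str 15 (.nv (.thr 5 53 (.thr 0 10 (.thr 45 33 (.thr 60 30 (.thr 20 40 (.dbl 22 3 23)))))) (.nv (.thr 33 45 (.thr 48 26 (.thr 3 18 (.thr 7 11 (.dbl 22 52 60))))) (.nv (.thr 48 26 (.thr 53 5 (.thr 63 58 (.thr 42 0 (.dbl 47 31 32))))) .nd)))) (.rp 5 (.str 15 (.nv (.thr 26 48 (.thr 11 56 (.thr 3 7 (.thr 31 16 (.thr 63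 47 (.thr 23 43 (.dbl 22 20 60))))))) (.nv (.thr 33 45 (.thr 48 26 (.thr 49 17 (.thr 51 50 (.thr 39 27 (.thr 38 36 (.dbl 25 12 13))))))) (.nv (.thr 45 33 (.thr 60 30 (.thr 48 26 (.thr 22 3 (.dbl 52 7 56))))) (.rp 48 (.thr 45 33 (.thr 60 30 (.thr 3 22 (.thr 11 7 (.thr 26 56 (.thr 31 16 (.thr 47 63 (.thr 44 46 (.thr 12 28 (.thr 38 35 (.dbl 14 13 50))))))))))) (.rp 26 (.thr 45 33 (.thr 60 30 (.thr 22 3 (.thr 20 23 (.thr 0 40 (.thr 63 42 (.thr 47 31 (.thr 44 46 (.thr 28 12 (.thr 16 24 (.thr 48 32 (.dbl 52 7 56)))))))))))) .nd)))))) .nd))))))))))))) (.rp 54 (.thr 1 61 .ext) (.rp 53 (.thr 61 1 .ext) (.rp 52 (.thr 1 61 .ext) (.rp 51 (.thr 1 61 .ext) (.rp 50 (.thr 1 61 .ext) (.rp 49 .ext (.rp 48 (.thr 1 61 .ext) (.rp 47 (.thr 1 61 .ext) (.rp 46 (.thr 1 61 .ext) (.rp 45 (.thr 61 1 .ext) (.rp 44 (.thr 1 61 (.str 37 (.nv (.thr 5 53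 (.thr 13 9 (.thr 49 25 (.dbl 33 17 45)))) (.rp 57 (.thr 33 45 (.thr 5 53 (.thr 49 17 (.dbl 13 9 25)))) (.rp 53 (.thr 33 45 (.thr 49 17 (.thr 13 25 (.thr 5 9 (.str 22 (.nv (.thr 3 60 (.thr 7 52 (.thr 15 11 (.dbl 48 18 26)))) (.nv (.thr 3 60 (.thr 23 20 (.thr 48 18 (.thr 15 26 (.thr 63 43 (.dbl 0 10 42)))))) (.nv (.thr 23 20 (.thr 7 52 (.thr 55 39 (.dbl 4 6 38)))) (.rp 47 (.str 46 (.nv (.thr 3 60 (.thr 7 52 (.thr 15 11 (.dbl 48 18 26)))) (.nv (.thr 3 60 (.thr 48 18 (.thr 15 26 (.thr 12 14 (.thr 63 29 (.dbl 0 10 42)))))) (.nv (.thr 23 20 (.thr 7 52 (.thr 55 39 (.dbl 4 6 38)))) .nd)))) (.rp 46 (.str 47 (.nv (.thr 3 60 (.thr 48 18 (.thr 15 26 (.thr 63 31 (.dbl 0 10 42))))) (.nv (.thr 23 20 (.thr 7 52 (.thr 55 39 (.dbl 4 6 38)))) .nd))) .nd)))))))))) (.rp 49 (.thr 53 5 (.str 48 (.nv (.thr 33 45 (.thr 3 18 (.thr 63 58 (.thr 23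 43 (.dbl 22 20 60))))) (.nv (.thr 15 26 (.thr 45 33 (.thr 60 30 (.thr 22 3 (.dbl 52 7 56))))) (.nv (.thr 15 26 (.thr 63 58 (.thr 42 0 (.dbl 47 31 32)))) .nd))))) (.rp 45 (.thr 5 53 (.thr 13 9 (.thr 49 25 (.thr 33 17 (.str 22 (.nv (.thr 3 60 (.thr 7 52 (.thr 15 11 (.dbl 48 18 26)))) (.nv (.thr 3 60 (.thr 23 20 (.thr 48 18 (.thr 15 26 (.thr 63 43 (.dbl 0 10 42)))))) (.nv (.thr 23 20 (.thr 7 52 (.thr 55 39 (.dbl 4 6 38)))) (.rp 47 (.str 46 (.nv (.thr 3 60 (.thr 7 52 (.thr 15 11 (.dbl 48 18 26)))) (.nv (.thr 3 60 (.thr 48 18 (.thr 15 26 (.thr 12 14 (.thr 63 29 (.dbl 0 10 42)))))) (.nv (.thr 23 20 (.thr 7 52 (.thr 55 39 (.dbl 4 6 38)))) .nd)))) (.rp 46 (.str 47 (.nv (.thr 3 60 (.thr 48 18 (.thr 15 26 (.thr 63 31 (.dbl 0 10 42))))) (.nv (.thr 23 20 (.thr 7 52 (.thr 55 39 (.dbl 4 6 38)))) .nd))) .nd)))))))))) (.rp 33 (.str 48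 (.nv (.thr 26 15 (.thr 16 31 (.thr 0 32 (.thr 56 11 (.thr 60 52 (.thr 40 20 (.dbl 42 43 63))))))) (.nv (.thr 5 53 (.thr 13 9 (.thr 15 26 (.thr 12 14 (.thr 36 24 (.thr 38 39 (.dbl 25 49 51))))))) (.nv (.thr 53 5 (.thr 63 58 (.thr 15 26 (.thr 42 0 (.dbl 47 31 32))))) (.rp 26 (.thr 53 5 (.thr 63 58 (.thr 42 0 (.thr 43 40 (.thr 3 23 (.thr 60 22 (.thr 52 56 (.thr 55 54 (.thr 59 51 (.thr 11 27 (.thr 15 7 (.dbl 47 31 32)))))))))))) (.rp 15 (.thr 53 5 (.thr 63 58 (.thr 0 42 (.thr 16 32 (.thr 26 31 (.thr 56 11 (.thr 52 60 (.thr 55 54 (.thr 51 59 (.thr 38 4 (.dbl 50 14 49))))))))))) .nd)))))) (.rp 25 (.str 48 (.nv (.thr 33 45 (.thr 3 18 (.thr 15 26 (.thr 7 11 (.dbl 22 52 60))))) (.nv (.thr 26 15 (.thr 53 5 (.thr 16 31 (.thr 63 58 (.dbl 0 32 42))))) (.rp 26 (.thr 53 5 (.thr 33 45 (.thr 3 18 (.thr 22 60 (.thr 23 20 (.dbl 63 43 58))))))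 (.rp 15 (.thr 53 5 (.thr 33 45 (.thr 3 18 (.thr 63 58 (.thr 23 43 (.dbl 22 20 60)))))) .nd))))) (.rp 17 (.str 48 (.nv (.thr 5 53 (.thr 15 26 (.thr 0 10 (.thr 32 16 (.dbl 42 47 63))))) (.nv (.thr 15 26 (.thr 45 33 (.thr 60 30 (.thr 22 3 (.dbl 52 7 56))))) (.rp 26 (.thr 53 5 (.thr 33 45 (.thr 3 18 (.thr 22 60 (.thr 23 20 (.dbl 63 43 58)))))) (.rp 15 (.thr 53 5 (.thr 33 45 (.thr 3 18 (.thr 63 58 (.thr 23 43 (.dbl 22 20 60)))))) .nd))))) (.rp 13 (.thr 53 5 (.thr 45 33 (.str 48 (.nv (.thr 15 26 (.thr 60 30 (.thr 22 3 (.dbl 52 7 56)))) (.nv (.thr 63 58 (.thr 15 26 (.thr 42 0 (.dbl 47 31 32)))) (.rp 26 (.thr 63 58 (.thr 42 0 (.thr 47 32 (.thr 15 31 (.thr 60 30 (.thr 52 56 (.dbl 22 3 7))))))) (.rp 15 (.thr 63 58 (.thr 0 42 (.thr 16 32 (.thr 26 31 (.thr 56 11 (.thr 52 60 (.thr 55 54 (.thr 51 59 (.thr 38 4 (.dbl 50 14 49))))))))))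 .nd))))))) (.rp 9 (.str 48 (.nv (.thr 15 26 (.thr 45 33 (.thr 60 30 (.thr 22 3 (.dbl 52 7 56))))) (.nv (.thr 15 26 (.thr 53 5 (.thr 63 58 (.thr 42 0 (.dbl 47 31 32))))) (.rp 26 (.thr 53 5 (.thr 33 45 (.thr 3 18 (.thr 22 60 (.thr 23 20 (.dbl 63 43 58)))))) (.rp 15 (.thr 53 5 (.thr 33 45 (.thr 3 18 (.thr 63 58 (.thr 23 43 (.dbl 22 20 60)))))) .nd))))) (.rp 5 (.str 48 (.nv (.thr 26 15 (.thr 16 31 (.thr 0 32 (.thr 56 11 (.thr 60 52 (.thr 40 20 (.dbl 42 43 63))))))) (.nv (.thr 15 26 (.thr 33 45 (.thr 49 17 (.thr 51 50 (.thr 39 27 (.thr 38 36 (.dbl 25 12 13))))))) (.nv (.thr 15 26 (.thr 45 33 (.thr 60 30 (.thr 22 3 (.dbl 52 7 56))))) (.rp 26 (.thr 33 45 (.thr 49 17 (.thr 3 18 (.thr 22 60 (.thr 7 52 (.thr 15 11 (.thr 23 20 (.thr 39 55 (.dbl 51 27 50))))))))) (.rp 15 (.thr 33 45 (.thr 3 18 (.thr 60 22 (.thr 56 52 (.thr 26 11 (.thr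 16 31 (.thr 0 32 (.thr 40 20 (.dbl 42 43 63))))))))) .nd)))))) .nd))))))))))))) (.rp 43 (.thr 1 61 .ext) (.rp 42 .ext (.rp 40 (.thr 1 61 .ext) (.rp 39 (.thr 1 61 .ext) (.rp 38 (.thr 1 61 .ext) (.rp 37 .ext (.rp 36 (.thr 1 61 .ext) (.rp 35 (.thr 1 61 .ext) (.rp 34 .ext (.rp 33 .ext (.rp 32 (.thr 1 61 .ext) (.rp 31 (.thr 1 61 (.str 25 (.nv (.thr 9 57 (.thr 13 5 (.thr 49 37 (.dbl 17 29 33)))) (.rp 57 (.thr 17 29 (.thr 49 33 (.thr 13 37 (.thr 9 5 (.str 42 (.nv (.thr 0 63 (.thr 8 59 (.thr 12 4 (.dbl 51 34 38)))) (.nv (.thr 0 63 (.thr 40 43 (.thr 51 34 (.thr 12 38 (.thr 60 20 (.dbl 3 6 22)))))) (.nv (.thr 40 43 (.thr 8 59 (.thr 56 24 (.dbl 11 10 26)))) (.rp 30 (.str 28 (.nv (.thr 0 63 (.thr 51 34 (.thr 12 38 (.thr 60 44 (.dbl 3 6 22))))) (.nv (.thr 40 43 (.thr 8 59 (.thr 56 24 (.dbl 11 10 26)))) .nd))) (.rp 28 (.str 30 (.nv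 (.thr 0 63 (.thr 8 59 (.thr 12 4 (.dbl 51 34 38)))) (.nv (.thr 0 63 (.thr 51 34 (.thr 12 38 (.thr 15 14 (.thr 60 45 (.dbl 3 6 22)))))) (.nv (.thr 40 43 (.thr 8 59 (.thr 56 24 (.dbl 11 10 26)))) .nd)))) .nd)))))))))) (.rp 53 (.thr 17 29 (.thr 9 57 (.thr 49 33 (.dbl 13 5 37)))) (.rp 49 (.thr 57 9 (.str 51 (.nv (.thr 17 29 (.thr 0 34 (.thr 60 54 (.thr 20 40 (.dbl 22 3 23))))) (.nv (.thr 12 38 (.thr 29 17 (.thr 63 46 (.thr 42 0 (.dbl 59 8 55))))) (.nv (.thr 12 38 (.thr 60 54 (.thr 22 3 (.dbl 28 19 44)))) .nd))))) (.rp 37 (.str 51 (.nv (.thr 17 29 (.thr 0 34 (.thr 57 9 (.thr 60 54 (.thr 20 40 (.dbl 22 3 23)))))) (.nv (.thr 12 38 (.thr 17 29 (.thr 0 34 (.thr 8 4 (.dbl 42 59 63))))) (.nv (.thr 38 12 (.thr 57 9 (.thr 35 44 (.thr 60 54 (.dbl 3 19 22))))) .nd)))) (.rp 33 (.str 51 (.nv (.thr 17 29 (.thr 0 34 (.thr 57 9 (.thr 60 54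 (.thr 20 40 (.dbl 22 3 23)))))) (.nv (.thr 9 57 (.thr 12 38 (.thr 3 6 (.thr 19 35 (.dbl 22 28 60))))) (.nv (.thr 12 38 (.thr 29 17 (.thr 63 46 (.thr 42 0 (.dbl 59 8 55))))) .nd)))) (.rp 29 (.thr 9 57 (.thr 13 5 (.thr 49 37 (.thr 17 33 (.str 42 (.nv (.thr 0 63 (.thr 8 59 (.thr 12 4 (.dbl 51 34 38)))) (.nv (.thr 0 63 (.thr 40 43 (.thr 51 34 (.thr 12 38 (.thr 60 20 (.dbl 3 6 22)))))) (.nv (.thr 40 43 (.thr 8 59 (.thr 56 24 (.dbl 11 10 26)))) (.rp 30 (.str 28 (.nv (.thr 0 63 (.thr 51 34 (.thr 12 38 (.thr 60 44 (.dbl 3 6 22))))) (.nv (.thr 40 43 (.thr 8 59 (.thr 56 24 (.dbl 11 10 26)))) .nd))) (.rp 28 (.str 30 (.nv (.thr 0 63 (.thr 8 59 (.thr 12 4 (.dbl 51 34 38)))) (.nv (.thr 0 63 (.thr 51 34 (.thr 12 38 (.thr 15 14 (.thr 60 45 (.dbl 3 6 22)))))) (.nv (.thr 40 43 (.thr 8 59 (.thr 56 24 (.dbl 11 10 26)))) .nd)))) .nd))))))))))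 (.rp 17 (.str 51 (.nv (.thr 38 12 (.thr 35 44 (.thr 3 19 (.thr 55 4 (.thr 63 59 (.thr 23 43 (.dbl 22 20 60))))))) (.nv (.thr 9 57 (.thr 12 38 (.thr 13 5 (.thr 15 14 (.thr 27 39 (.thr 26 24 (.dbl 37 48 49))))))) (.nv (.thr 57 9 (.thr 60 54 (.thr 12 38 (.thr 22 3 (.dbl 28 19 44))))) (.rp 38 (.thr 57 9 (.thr 60 54 (.thr 22 3 (.thr 20 23 (.thr 0 40 (.thr 63 42 (.thr 59 55 (.thr 56 58 (.thr 52 48 (.thr 4 36 (.thr 12 8 (.dbl 28 19 44)))))))))))) (.rp 12 (.thr 57 9 (.thr 60 54 (.thr 3 22 (.thr 35 19 (.thr 38 44 (.thr 55 4 (.thr 59 63 (.thr 56 58 (.thr 48 52 (.thr 26 11 (.dbl 50 14 49))))))))))) .nd)))))) (.rp 13 (.thr 57 9 (.thr 29 17 (.str 51 (.nv (.thr 12 38 (.thr 63 46 (.thr 42 0 (.dbl 59 8 55)))) (.nv (.thr 60 54 (.thr 12 38 (.thr 22 3 (.dbl 28 19 44)))) (.rp 38 (.thr 60 54 (.thr 22 3 (.thr 28 19 (.thr 12 44 (.thr 63 46 (.thr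 59 55 (.dbl 42 0 8))))))) (.rp 12 (.thr 60 54 (.thr 3 22 (.thr 35 19 (.thr 38 44 (.thr 55 4 (.thr 59 63 (.thr 56 58 (.thr 48 52 (.thr 26 11 (.dbl 50 14 49)))))))))) .nd))))))) (.rp 9 (.str 51 (.nv (.thr 12 38 (.thr 17 29 (.thr 49 33 (.thr 48 50 (.thr 24 36 (.thr 26 27 (.dbl 37 13 15))))))) (.nv (.thr 12 38 (.thr 29 17 (.thr 63 46 (.thr 42 0 (.dbl 59 8 55))))) (.rp 38 (.thr 17 29 (.thr 49 33 (.thr 0 34 (.thr 42 63 (.thr 8 59 (.thr 12 4 (.thr 40 43 (.thr 24 56 (.dbl 48 36 50))))))))) (.rp 29 (.thr 38 12 (.thr 35 44 (.thr 3 19 (.thr 55 4 (.thr 63 59 (.thr 23 43 (.dbl 22 20 60))))))) (.rp 17 (.thr 38 12 (.thr 35 44 (.thr 3 19 (.thr 55 4 (.thr 63 59 (.thr 23 43 (.dbl 22 20 60))))))) (.rp 12 (.thr 17 29 (.thr 0 34 (.thr 63 42 (.thr 55 59 (.thr 38 4 (.thr 35 44 (.thr 3 19 (.thr 23 43 (.dbl 22 20 60))))))))) .nd))))))) (.rp 5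 (.str 51 (.nv (.thr 17 29 (.thr 0 34 (.thr 57 9 (.thr 60 54 (.thr 20 40 (.dbl 22 3 23)))))) (.nv (.thr 12 38 (.thr 29 17 (.thr 63 46 (.thr 42 0 (.dbl 59 8 55))))) (.nv (.thr 12 38 (.thr 57 9 (.thr 60 54 (.thr 22 3 (.dbl 28 19 44))))) .nd)))) .nd))))))))))))) (.rp 30 (.thr 1 61 .ext) (.rp 29 (.thr 61 1 .ext) (.rp 28 (.thr 1 61 .ext) (.rp 27 (.thr 1 61 .ext) (.rp 26 (.thr 1 61 .ext) (.rp 25 .ext (.rp 24 (.thr 1 61 .ext) (.rp 23 (.thr 1 61 .ext) (.rp 22 .ext (.rp 20 (.thr 1 61 .ext) (.rp 19 (.thr 1 61 .ext) (.rp 18 .ext (.rp 17 .ext (.rp 16 (.thr 1 61 .ext) (.rp 15 (.thr 1 61 .ext) (.rp 14 (.thr 1 61 .ext) (.rp 13 .ext (.rp 12 (.thr 1 61 .ext) (.rp 11 (.thr 1 61 .ext) (.rp 10 .ext (.rp 9 .ext (.rp 8 (.thr 1 61 .ext) (.rp 7 (.thr 1 61 .ext) (.rp 6 .ext (.rp 5 .ext (.rp 4 (.thr 1 61 .ext) (.rp 3 (.thr 1 61 .ext) (.rp 1 .ext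 (.rp 0 (.thr 1 61 .ext) .nd)))))))))))))))))))))))))))))))))))))))))))))))))))))))))))))

theorem f2 : FR (cellsN 64) (Won lines) (bs 2199025352704) (bs 4) :=
  chunkR_sound bok full_eq (K := [(2199025352704, 6), (2199025352704, 36), (2199025352704, 68), (2199025352704, 516), (2199025352704, 1028), (2199025352704, 8196), (2199025352704, 131076), (2199025352704, 262148), (2199025352704, 4194308), (2199025352704, 33554436), (2199025352704, 8589934596), (2199025352704, 17179869188), (2199025352704, 137438953476), (2199025352704, 4398046511108), (2199025352704, 562949953421316), (2199025352704, 1152921504606846980), (2199025352704, 2305843009213693956), (2199025352704, 4611686018427387908), (2199025352704, 9223372036854775812), (2199025352706, 2305843009213693957), (2199025352706, 2305843009213693964), (2199025352706, 2305843009213693972),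 (2199025352706, 2305843009213694084), (2199025352706, 2305843009213694212), (2199025352706, 2305843009213696004), (2199025352706, 2305843009213698052), (2199025352706, 2305843009213710340), (2199025352706, 2305843009213726724), (2199025352706, 2305843009213759492), (2199025352706, 2305843009214218244), (2199025352706, 2305843009214742532), (2199025352706, 2305843009222082564), (2199025352706, 2305843009230471172), (2199025352706, 2305843009280802820), (2199025352706, 2305843009347911684), (2199025352706, 2305843009482129412), (2199025352706, 2305843010287435780), (2199025352706, 2305843013508661252), (2199025352706, 2305843043573432324), (2199025352706, 2305843077933170692), (2199025352706, 2305843284091600900), (2199025352706, 2305843558969507844), (2199025352706, 2305844108725321732), (2199025352706, 2305851805306716164),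 (2199025352706, 2305913377957871620), (2199025352706, 2305983746702049284), (2199025352706, 2306124484190404612), (2199025352706, 2306968909120536580), (2199025352706, 2308094809027379204), (2199025352706, 2310346608841064452), (2199025352706, 2323857407723175940), (2199025352706, 2594073385365405700), (2199025352706, 2882303761517117444), (2305845208239046656, 536870918), (2305845208239046656, 35184372088838), (2305845208239046656, 9007199254740998), (2305845208239046656, 144115188075855878)]) (kc w152 (kc w156 (kc w157 (kc w160 (kc w161 (kc w164 (kc w168 (kc w169 (kc w172 (kc w175 (kc w182 (kc w183 (kc w186 (kc w190 (kc w196 (kc w205 (kc w206 (kc w207 (kc w208 (kc w151 (kc w154 (kc w155 (kc w158 (kc w159 (kc w162 (kc w163 (kc w165 (kc w166 (kc w167 (kc w170 (kc w171 (kc w173 (kc w174 (kc w176 (kc w177 (kc w178 (kc w180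 (kc w181 (kc w184 (kc w185 (kc w187 (kc w188 (kc w189 (kc w191 (kc w193 (kc w194 (kc w195 (kc w197 (kc w198 (kc w199 (kc w201 (kc w203 (kc w204 (kc w179 (kc w192 (kc w200 (kc w202 kn))))))))))))))))))))))))))))))))))))))))))))))))))))))))) r2 2199025352704 4 [] (by decide +kernel) (by decide +kernel)

end Pool.Agent.TTT.B43
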