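import Pool.Agent.TTT.B43

/-!
Certified forced wins in positions of the 4 x 4 x 4 board.
-/

set_option autoImplicit false
set_option maxRecDepth 1000000
set_option linter.all false

namespace Pool.Agent.TTT.B43

/-- A certificate. -/
noncomputable def c232 : Ct := (.str 15 (.nv (.thr 63 47 (.thr 0 42 (.thr 37 48 (.dbl 5 10 53)))) (.rp 63 (.str 3 (.nv (.thr 48 37 (.thr 18 33 (.thr 22 30 (.thr 41 60 (.dbl 11 7 56))))) (.nv (.thr 7 11 (.thr 37 48 (.thr 52 22 (.thr 53 5 (.thr 55 54 (.thr 38 4 (.dbl 39 23 36))))))) (.nv (.thr 11 7 (.thr 48 37 (.thr 18 33 (.thr 41 56 (.dbl 22 30 60))))) (.rp 48 (.thr 11 7 (.thr 41 56 (.thr 60 22 (.thr 45 30 (.thr 1 61 (.thr 0 2 (.thr 37 33 (.dbl 5 10 53)))))))) (.rp 46 (.str 12 (.nv (.thr 14 13 (.thr 38 50 (.thr 51 25 (.thr 19 35 (.dbl 27 23 39))))) (.nv (.thr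 11 7 (.thr 41 56 (.thr 48 37 (.thr 18 33 (.dbl 22 30 60))))) (.rp 37 (.thr 13 14 (.thr 11 7 (.thr 41 56 (.thr 1 61 (.thr 5 9 (.dbl 0 2 10)))))) .nd)))) (.rp 37 (.thr 11 7 (.thr 41 56 (.thr 22 60 (.thr 18 30 (.thr 23 20 (.thr 19 27 (.thr 51 35 (.thr 48 33 (.thr 50 49 (.thr 38 14 (.dbl 25 12 28))))))))))) (.rp 22 (.thr 11 7 (.thr 37 48 (.thr 41 56 (.thr 1 61 (.thr 0 2 (.dbl 5 10 53)))))) (.rp 12 (.str 46 (.nv (.thr 48 37 (.thr 18 33 (.thr 22 30 (.thr 41 60 (.dbl 11 7 56))))) (.nv (.thr 7 11 (.thr 37 48 (.thr 52 22 (.thr 53 5 (.thr 55 54 (.thr 38 4 (.dbl 39 23 36))))))) (.nv (.thr 11 7 (.thr 41 56 (.thr 48 37 (.thr 18 33 (.dbl 22 30 60))))) (.rp 48 (.thr 11 7 (.thr 41 56 (.thr 1 61 (.thr 0 2 (.thr 60 22 (.thr 45 30 (.thr 37 33 (.dbl 5 10 53)))))))) (.rp 37 (.thr 11 7 (.thr 41 56 (.thr 1 61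 (.thr 2 0 (.thr 22 60 (.thr 62 42 (.dbl 30 14 18))))))) (.rp 22 (.thr 11 7 (.thr 41 56 (.thr 1 61 (.thr 0 2 (.thr 37 48 (.dbl 5 10 53)))))) (.rp 11 (.thr 48 37 (.thr 18 33 (.thr 22 30 (.thr 23 20 (.thr 27 19 (.thr 51 39 (.thr 50 49 (.thr 38 14 (.dbl 34 2 42))))))))) (.rp 7 (.thr 48 37 (.thr 18 33 (.thr 22 30 (.thr 23 20 (.thr 27 19 (.thr 51 39 (.thr 50 49 (.thr 38 14 (.dbl 34 2 42))))))))) .nd))))))))) (.rp 11 (.thr 48 37 (.thr 18 33 (.thr 22 30 (.thr 23 20 (.thr 19 27 (.thr 51 35 (.thr 50 49 (.thr 38 14 (.dbl 25 12 28))))))))) (.rp 7 (.thr 48 37 (.thr 18 33 (.thr 22 30 (.thr 23 20 (.thr 19 27 (.thr 51 35 (.thr 50 49 (.thr 38 14 (.dbl 25 12 28))))))))) .nd))))))))))) (.rp 53 (.str 30 (.nv (.thr 22 18 (.thr 48 37 (.thr 60 45 (.thr 41 3 (.dbl 56 11 52))))) (.nv (.thr 22 18 (.thr 23 20 (.thr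 37 48 (.thr 63 47 (.thr 3 43 (.dbl 7 11 52)))))) (.nv (.thr 63 47 (.thr 60 45 (.thr 61 62 (.thr 41 1 (.dbl 22 3 18))))) (.rp 22 (.thr 63 47 (.thr 60 45 (.thr 61 62 (.thr 41 1 (.thr 56 11 (.dbl 48 37 52)))))) (.rp 18 (.thr 63 47 (.thr 60 45 (.thr 61 62 (.thr 41 1 (.thr 11 56 (.dbl 3 7 22)))))) (.rp 3 (.thr 22 18 (.thr 20 23 (.thr 63 47 (.thr 0 42 (.dbl 60 40 45))))) .nd))))))) (.rp 48 (.thr 63 47 (.thr 0 42 (.thr 5 10 (.str 14 (.nv (.thr 37 53 (.thr 38 50 (.thr 55 4 (.thr 51 59 (.dbl 39 27 36))))) (.nv (.thr 13 12 (.thr 1 9 (.thr 3 2 (.thr 11 7 (.dbl 41 56 61))))) (.nv (.thr 38 50 (.thr 4 55 (.dbl 12 8 13))) (.rp 37 (.str 32 (.nv (.thr 38 50 (.thr 55 4 (.thr 51 59 (.thr 25 12 (.dbl 27 24 39))))) (.nv (.thr 13 12 (.thr 1 9 (.thr 3 2 (.thr 11 7 (.dbl 41 56 61))))) (.nv (.thr 38 50 (.thr 4 55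 (.dbl 12 8 13))) (.rp 12 (.thr 38 50 (.thr 55 4 (.thr 51 59 (.thr 34 17 (.thr 35 33 (.thr 27 39 (.dbl 19 3 23))))))) .nd))))) (.rp 8 (.thr 12 13 (.thr 38 50 (.thr 55 4 (.dbl 51 25 59)))) .nd))))))))) (.rp 47 (.str 30 (.nv (.thr 22 18 (.thr 20 23 (.thr 37 48 (.thr 52 7 (.thr 4 36 (.thr 53 5 (.dbl 55 38 54))))))) (.nv (.thr 48 37 (.thr 60 45 (.thr 56 52 (.thr 41 11 (.dbl 22 3 18))))) (.nv (.thr 22 18 (.thr 20 23 (.thr 60 45 (.thr 0 40 (.thr 10 5 (.dbl 42 58 63)))))) (.nv (.thr 22 18 (.thr 37 48 (.thr 7 52 (.thr 3 11 (.dbl 60 41 45))))) (.rp 22 (.thr 45 60 (.thr 37 48 (.thr 5 53 (.thr 0 10 (.thr 41 33 (.thr 1 61 (.thr 13 9 (.thr 14 12 (.thr 3 2 (.dbl 11 7 56)))))))))) (.rp 18 (.thr 60 45 (.thr 48 37 (.thr 56 52 (.thr 41 11 (.thr 61 1 (.thr 63 62 (.thr 58 53 (.dbl 42 0 10)))))))) (.rp 7 (.thr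 22 18 (.thr 60 45 (.thr 41 3 (.thr 56 11 (.dbl 48 37 52))))) .nd)))))))) (.rp 42 (.str 30 (.nv (.thr 22 18 (.thr 60 45 (.thr 41 3 (.thr 61 1 (.dbl 63 47 62))))) (.nv (.thr 22 18 (.thr 20 23 (.thr 37 48 (.thr 52 7 (.thr 4 36 (.thr 53 5 (.dbl 55 38 54))))))) (.nv (.thr 63 47 (.thr 60 45 (.thr 61 62 (.thr 41 1 (.dbl 22 3 18))))) (.rp 22 (.thr 47 63 (.thr 45 60 (.thr 46 44 (.thr 37 48 (.thr 53 5 (.thr 41 33 (.thr 61 1 (.thr 49 57 (.thr 13 25 (.dbl 14 12 62)))))))))) (.rp 18 (.thr 63 47 (.thr 60 45 (.thr 61 62 (.thr 41 1 (.thr 11 56 (.dbl 3 7 22)))))) (.rp 3 (.thr 22 18 (.thr 20 23 (.thr 60 45 (.thr 0 40 (.thr 5 10 (.dbl 37 48 53)))))) .nd))))))) (.rp 37 (.str 30 (.nv (.thr 22 18 (.thr 20 23 (.thr 60 45 (.thr 0 40 (.thr 10 5 (.dbl 42 58 63)))))) (.nv (.thr 22 18 (.thr 23 20 (.thr 63 47 (.thr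 3 43 (.thr 7 11 (.thr 39 55 (.dbl 27 19 51))))))) (.nv (.thr 63 47 (.thr 60 45 (.thr 61 62 (.thr 41 1 (.dbl 22 3 18))))) (.rp 63 (.thr 22 18 (.thr 20 23 (.thr 60 45 (.thr 0 40 (.thr 10 5 (.thr 42 58 (.thr 2 62 (.dbl 3 1 41)))))))) (.rp 42 (.thr 22 18 (.thr 60 45 (.thr 41 3 (.thr 61 1 (.dbl 63 47 62))))) (.rp 22 (.thr 63 47 (.thr 42 0 (.thr 58 10 (.thr 48 53 (.thr 60 45 (.thr 61 62 (.thr 41 1 (.dbl 56 11 52)))))))) (.rp 18 (.thr 63 47 (.thr 60 45 (.thr 61 62 (.thr 41 1 (.thr 11 56 (.dbl 3 7 22)))))) .nd)))))))) (.rp 10 (.str 14 (.nv (.thr 37 48 (.thr 38 50 (.thr 39 36 (.thr 51 27 (.dbl 12 13 25))))) (.nv (.thr 12 13 (.thr 63 47 (.thr 38 50 (.thr 4 55 (.dbl 0 8 42))))) (.rp 50 (.thr 12 13 (.thr 63 47 (.thr 0 42 (.thr 4 8 (.thr 38 55 (.thr 25 51 (.thr 24 27 (.dbl 48 36 37)))))))) (.rp 38 (.thr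 13 12 (.thr 63 47 (.thr 0 42 (.thr 37 48 (.thr 5 53 (.thr 1 9 (.thr 3 2 (.thr 11 7 (.dbl 41 56 61))))))))) (.rp 13 (.thr 38 50 (.thr 55 4 (.thr 63 47 (.thr 51 59 (.thr 25 12 (.dbl 27 24 39)))))) (.rp 12 (.thr 38 50 (.thr 55 4 (.thr 63 47 (.thr 51 59 (.thr 39 27 (.dbl 37 36 48)))))) (.rp 0 (.thr 12 13 (.thr 38 50 (.thr 25 51 (.thr 24 27 (.dbl 48 36 37))))) .nd)))))))) (.rp 5 (.thr 63 47 (.thr 42 0 (.thr 58 10 (.dbl 48 37 53)))) (.rp 0 (.str 30 (.nv (.thr 22 18 (.thr 23 20 (.thr 63 47 (.thr 3 43 (.thr 7 11 (.dbl 37 48 52)))))) (.nv (.thr 22 18 (.thr 23 20 (.thr 63 47 (.thr 3 43 (.dbl 60 41 45))))) (.nv (.thr 48 37 (.thr 60 45 (.thr 56 52 (.thr 41 11 (.dbl 22 3 18))))) (.rp 60 (.thr 18 22 (.thr 63 47 (.thr 48 37 (.thr 3 33 (.thr 7 11 (.thr 23 43 (.thr 27 19 (.dbl 39 51 55)))))))) (.rp 48 (.str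 32 (.nv (.thr 22 18 (.thr 23 20 (.thr 60 45 (.thr 3 41 (.thr 7 11 (.thr 39 55 (.dbl 27 19 51))))))) (.nv (.thr 45 60 (.thr 47 63 (.thr 42 37 (.thr 46 44 (.thr 38 34 (.dbl 14 50 62)))))) (.nv (.thr 22 18 (.thr 23 20 (.thr 63 47 (.thr 3 43 (.thr 7 11 (.thr 39 55 (.dbl 27 19 51))))))) (.nv (.thr 63 47 (.thr 60 45 (.thr 61 62 (.thr 41 1 (.dbl 22 3 18))))) (.rp 60 (.thr 22 18 (.thr 20 23 (.thr 47 63 (.thr 37 42 (.thr 52 7 (.thr 4 36 (.thr 53 5 (.dbl 55 38 54)))))))) .nd)))))) (.rp 22 (.thr 63 47 (.thr 60 45 (.thr 61 62 (.thr 41 1 (.thr 56 11 (.dbl 48 37 52)))))) (.rp 18 (.thr 63 47 (.thr 60 45 (.thr 61 62 (.thr 41 1 (.thr 11 56 (.dbl 3 7 22)))))) (.rp 3 (.thr 63 47 (.thr 60 45 (.thr 61 62 (.thr 48 37 (.thr 56 52 (.dbl 41 1 11)))))) .nd))))))))) .nd)))))))))))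

theorem w232 : WinAt (2216689664, 536936512) :=
  chF (K := []) kn c232 2216689664 536936512 16
    [] (by decide +kernel) (by decide +kernel)

/-- A certificate. -/
noncomputable def c233 : Ct := (.str 15 (.nv (.thr 63 47 (.thr 0 42 (.thr 37 48 (.dbl 5 10 53)))) (.rp 63 (.str 27 (.nv (.thr 23 19 (.thr 37 48 (.thr 39 51 (.thr 55 7 (.dbl 38 4 36))))) (.nv (.thr 19 23 (.thr 37 48 (.thr 51 39 (.thr 3 35 (.thr 7 11 (.thr 22 52 (.dbl 25 24 28))))))) (.nv (.thr 25 24 (.thr 48 37 (.thr 51 39 (.thr 50 49 (.dbl 38 12 14))))) (.rp 51 (.thr 25 24 (.thr 17 29 (.thr 37 48 (.thr 49 13 (.thr 1 33 (.thr 61 41 (.dbl 53 5 57))))))) (.rp 48 (.thr 25 24 (.thr 17 29 (.thr 51 39 (.thr 0 34 (.thr 12 38 (.thr 13 14 (.thr 37 49 (.dbl 5 10 53)))))))) (.rp 39 (.thr 25 24 (.thr 29 17 (.thr 37 48 (.thr 13 49 (.thr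 61 45 (.thr 1 41 (.dbl 5 9 53))))))) (.rp 37 (.thr 25 24 (.thr 17 29 (.thr 51 39 (.thr 0 34 (.thr 10 5 (.thr 42 58 (.thr 8 59 (.dbl 12 4 38)))))))) .nd)))))))) (.rp 53 (.str 22 (.nv (.thr 23 20 (.thr 27 19 (.thr 39 51 (.thr 7 55 (.dbl 37 48 52))))) (.nv (.thr 20 23 (.thr 63 47 (.thr 0 42 (.thr 60 40 (.thr 41 3 (.dbl 61 1 62)))))) (.nv (.thr 23 20 (.thr 37 48 (.thr 63 47 (.thr 3 43 (.dbl 7 11 52))))) (.rp 63 (.thr 23 20 (.thr 27 19 (.thr 51 39 (.thr 48 37 (.thr 50 49 (.thr 38 14 (.dbl 25 12 24))))))) (.rp 37 (.thr 23 20 (.thr 63 47 (.thr 3 43 (.thr 11 7 (.dbl 41 56 60))))) (.rp 23 (.thr 63 47 (.thr 0 42 (.thr 37 48 (.thr 7 52 (.thr 3 11 (.thr 1 2 (.dbl 41 60 61))))))) (.rp 20 (.thr 63 47 (.thr 0 42 (.thr 37 48 (.thr 7 52 (.thr 3 11 (.thr 1 2 (.dbl 41 60 61))))))) (.rp 3 (.thr 23 20 (.thr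 27 19 (.thr 37 48 (.thr 7 52 (.dbl 39 51 55))))) .nd))))))))) (.rp 48 (.thr 63 47 (.thr 0 42 (.thr 5 10 (.str 14 (.nv (.thr 37 53 (.thr 38 50 (.thr 55 4 (.thr 51 59 (.dbl 39 27 36))))) (.nv (.thr 13 12 (.thr 1 9 (.thr 3 2 (.thr 11 7 (.dbl 41 56 61))))) (.nv (.thr 12 13 (.thr 38 50 (.dbl 4 8 55))) (.rp 37 (.str 32 (.nv (.thr 38 50 (.thr 55 4 (.thr 51 59 (.thr 25 12 (.dbl 17 29 34))))) (.nv (.thr 13 12 (.thr 1 9 (.thr 3 2 (.thr 11 7 (.dbl 41 56 61))))) (.nv (.thr 38 50 (.thr 4 55 (.dbl 12 8 13))) (.rp 12 (.thr 38 50 (.thr 55 4 (.thr 51 59 (.thr 17 34 (.thr 27 39 (.dbl 25 24 29)))))) .nd))))) (.rp 8 (.thr 12 13 (.thr 29 46 (.thr 25 17 (.dbl 38 50 51)))) .nd))))))))) (.rp 47 (.str 22 (.nv (.thr 23 20 (.thr 27 19 (.thr 48 37 (.thr 51 39 (.thr 50 49 (.thr 38 14 (.dbl 25 12 24))))))) (.nv (.thr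 20 23 (.thr 37 48 (.thr 5 53 (.thr 0 10 (.thr 60 40 (.thr 3 41 (.dbl 7 11 52))))))) (.nv (.thr 23 20 (.thr 27 19 (.thr 39 51 (.thr 7 55 (.dbl 37 48 52))))) (.nv (.thr 20 23 (.thr 37 48 (.thr 52 7 (.thr 4 36 (.thr 53 5 (.dbl 55 38 54)))))) (.rp 48 (.thr 23 20 (.thr 27 19 (.thr 39 51 (.thr 7 55 (.thr 3 11 (.thr 63 43 (.thr 0 42 (.thr 1 2 (.dbl 41 60 61))))))))) (.rp 37 (.thr 23 20 (.thr 27 19 (.thr 39 51 (.thr 7 55 (.thr 3 11 (.thr 63 43 (.thr 42 0 (.thr 62 2 (.dbl 60 41 61))))))))) (.rp 23 (.thr 37 48 (.thr 7 52 (.thr 3 11 (.thr 5 53 (.thr 0 10 (.thr 2 1 (.dbl 42 62 63))))))) (.rp 20 (.thr 37 48 (.thr 7 52 (.thr 3 11 (.thr 5 53 (.thr 0 10 (.thr 2 1 (.dbl 42 62 63))))))) .nd))))))))) (.rp 42 (.str 22 (.nv (.thr 23 20 (.thr 27 19 (.thr 37 48 (.thr 7 52 (.dbl 39 51 55))))) (.nv (.thr 23 20 (.thr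 27 19 (.thr 39 51 (.thr 7 55 (.thr 3 11 (.dbl 63 43 47)))))) (.nv (.thr 23 20 (.thr 27 19 (.thr 39 51 (.thr 7 55 (.dbl 37 48 52))))) (.nv (.thr 37 48 (.thr 7 52 (.thr 3 11 (.thr 63 47 (.dbl 23 20 43))))) (.rp 23 (.thr 63 47 (.thr 37 48 (.thr 7 52 (.thr 3 11 (.thr 60 41 (.thr 61 62 (.thr 53 5 (.thr 57 49 (.thr 51 54 (.thr 55 59 (.thr 38 4 (.dbl 39 27 36)))))))))))) (.rp 20 (.thr 63 47 (.thr 37 48 (.thr 7 52 (.thr 3 11 (.thr 23 43 (.thr 27 19 (.dbl 39 51 55))))))) (.rp 7 (.thr 23 20 (.thr 27 19 (.thr 63 47 (.thr 43 3 (.thr 59 11 (.dbl 51 39 55)))))) .nd)))))))) (.rp 37 (.str 27 (.nv (.thr 23 19 (.thr 25 24 (.thr 63 47 (.thr 42 0 (.thr 59 8 (.dbl 43 3 11)))))) (.nv (.thr 23 19 (.thr 39 51 (.thr 7 55 (.thr 3 11 (.dbl 63 43 47))))) (.nv (.thr 25 24 (.thr 17 29 (.thr 51 39 (.thr 0 34 (.dbl 63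 42 47))))) (.rp 63 (.thr 25 24 (.thr 17 29 (.thr 51 39 (.thr 0 34 (.thr 10 5 (.thr 42 58 (.thr 8 59 (.dbl 12 4 38)))))))) (.rp 47 (.thr 25 24 (.thr 17 29 (.thr 51 39 (.thr 0 34 (.thr 10 5 (.dbl 42 58 63)))))) (.rp 17 (.thr 25 24 (.thr 63 47 (.thr 42 0 (.thr 59 8 (.dbl 51 39 55))))) .nd))))))) (.rp 10 (.str 14 (.nv (.thr 12 13 (.thr 38 50 (.thr 25 51 (.thr 24 27 (.dbl 48 36 37))))) (.nv (.thr 12 13 (.thr 38 50 (.thr 4 55 (.thr 63 47 (.dbl 0 8 42))))) (.rp 50 (.thr 12 13 (.thr 63 47 (.thr 29 46 (.thr 25 17 (.thr 27 24 (.dbl 51 38 39)))))) (.rp 38 (.thr 12 13 (.thr 63 47 (.thr 29 46 (.thr 25 17 (.thr 24 27 (.dbl 48 36 37)))))) (.rp 13 (.thr 38 50 (.thr 55 4 (.thr 63 47 (.thr 51 59 (.thr 25 12 (.dbl 27 24 39)))))) (.rp 12 (.thr 38 50 (.thr 55 4 (.thr 63 47 (.thr 51 59 (.thr 39 27 (.dbl 37 36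 48)))))) .nd))))))) (.rp 5 (.thr 63 47 (.thr 42 0 (.thr 58 10 (.dbl 48 37 53)))) (.rp 0 (.str 27 (.nv (.thr 23 19 (.thr 39 51 (.thr 7 55 (.thr 3 11 (.dbl 63 43 47))))) (.nv (.thr 48 37 (.thr 25 24 (.thr 51 39 (.thr 50 49 (.dbl 38 12 14))))) (.rp 51 (.thr 23 19 (.thr 22 20 (.thr 63 47 (.thr 3 43 (.thr 11 7 (.dbl 41 56 60)))))) (.rp 48 (.str 32 (.nv (.thr 25 24 (.thr 29 17 (.thr 51 39 (.thr 12 38 (.dbl 63 46 47))))) (.nv (.thr 51 39 (.thr 63 47 (.thr 59 55 (.thr 43 11 (.dbl 23 3 19))))) (.rp 63 (.thr 25 24 (.thr 29 17 (.thr 51 39 (.thr 12 38 (.thr 13 14 (.thr 37 49 (.thr 61 45 (.thr 1 41 (.dbl 5 9 53))))))))) (.rp 51 (.thr 23 19 (.thr 22 20 (.thr 63 47 (.thr 3 43 (.thr 11 7 (.dbl 41 56 60)))))) (.rp 47 (.thr 25 24 (.thr 29 17 (.thr 51 39 (.thr 12 38 (.thr 63 46 (.thr 59 55 (.thr 43 11 (.dbl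 23 3 19)))))))) (.rp 39 (.thr 25 24 (.thr 29 17 (.thr 63 47 (.thr 12 46 (.thr 14 13 (.dbl 38 50 51)))))) (.rp 19 (.thr 25 24 (.thr 51 39 (.thr 12 38 (.thr 63 47 (.dbl 29 17 46))))) .nd)))))))) (.rp 39 (.thr 25 24 (.thr 29 17 (.thr 63 47 (.thr 12 46 (.thr 14 13 (.dbl 38 50 51)))))) .nd)))))) .nd)))))))))))

theorem w233 : WinAt (2216689664, 1073807424) :=
  chF (K := []) kn c233 2216689664 1073807424 16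
    [] (by decide +kernel) (by decide +kernel)

/-- A certificate. -/
noncomputable def c234 : Ct := (.str 22 (.rp 63 (.thr 30 18 (.str 15 (.nv (.thr 20 23 (.thr 37 48 (.thr 52 7 (.thr 4 36 (.thr 53 5 (.dbl 55 38 54)))))) (.nv (.thr 20 23 (.thr 60 45 (.thr 0 40 (.thr 5 10 (.dbl 37 48 53))))) (.nv (.thr 60 45 (.thr 3 41 (.thr 7 11 (.dbl 37 48 52)))) (.rp 48 (.thr 20 23 (.thr 60 45 (.thr 0 40 (.thr 10 5 (.thr 3 41 (.thr 2 1 (.dbl 42 58 62))))))) (.rp 37 (.thr 20 23 (.thr 60 45 (.thr 0 40 (.thr 10 5 (.thr 42 58 (.thr 2 62 (.dbl 3 1 41))))))) (.rp 3 (.thr 23 20 (.thr 60 45 (.thr 48 37 (.thr 56 52 (.thr 41 11 (.str 12 (.nv (.thr 28 44 (.thr 25 19 (.thr 51 38 (.dbl 57 9 54)))) (.nv (.thr 1 61 (.thr 13 14 (.thr 9 5 (.thr 25 57 (.dbl 24 27 36))))) (.nv (.thr 44 28 (.thr 38 35 (.dbl 14 13 50))) (.rp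 36 (.str 4 (.nv (.thr 38 55 (.dbl 14 13 50)) (.nv (.thr 44 28 (.dbl 38 35 55)) (.rp 55 (.thr 14 13 (.thr 44 28 (.dbl 38 35 50))) (.rp 38 (.str 39 (.nv (.thr 0 8 (.thr 1 61 (.thr 13 14 (.dbl 5 9 10)))) (.nv (.thr 27 51 (.thr 25 24 (.dbl 28 19 44))) .nd))) .nd))))) (.rp 4 (.thr 36 24 (.thr 14 13 (.thr 38 50 (.dbl 44 28 35)))) .nd))))))))))) .nd)))))))) (.rp 62 (.str 60 (.nv (.thr 3 41 (.thr 18 30 (.thr 23 20 (.thr 48 33 (.thr 63 43 (.thr 42 0 (.dbl 58 10 53))))))) (.nv (.thr 20 23 (.thr 0 40 (.thr 30 18 (.thr 15 45 (.thr 10 5 (.dbl 42 58 63)))))) (.nv (.thr 3 41 (.thr 30 18 (.thr 15 45 (.thr 37 48 (.dbl 7 11 52))))) (.rp 45 (.thr 18 30 (.thr 3 41 (.thr 48 33 (.thr 37 15 (.dbl 52 7 56))))) (.rp 30 (.thr 20 23 (.thr 40 0 (.thr 41 3 (.thr 56 11 (.thr 24 8 (.thr 28 16 (.dbl 25 19 27))))))) (.rp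 18 (.thr 20 23 (.thr 40 0 (.thr 41 3 (.thr 56 11 (.thr 24 8 (.thr 28 16 (.dbl 25 19 27))))))) .nd))))))) (.rp 61 (.str 60 (.nv (.thr 20 23 (.thr 0 40 (.thr 30 18 (.thr 15 45 (.thr 5 10 (.dbl 37 48 53)))))) (.nv (.thr 20 23 (.thr 0 40 (.thr 3 41 (.thr 2 1 (.dbl 42 62 63))))) (.nv (.thr 3 41 (.thr 30 18 (.thr 15 45 (.thr 37 48 (.dbl 7 11 52))))) .nd)))) (.rp 60 (.str 42 (.nv (.thr 18 30 (.thr 58 10 (.thr 63 0 (.thr 48 53 (.thr 3 33 (.dbl 23 20 43)))))) (.nv (.thr 30 18 (.thr 58 10 (.thr 62 2 (.thr 14 46 (.dbl 50 38 54))))) (.rp 58 (.str 52 (.nv (.thr 18 30 (.thr 2 62 (.thr 50 34 (.thr 20 23 (.thr 4 36 (.dbl 38 14 55)))))) (.nv (.thr 2 62 (.thr 7 37 (.thr 18 30 (.thr 23 20 (.thr 50 34 (.thr 55 39 (.dbl 38 4 14))))))) (.nv (.thr 20 23 (.thr 4 36 (.thr 37 7 (.thr 55 38 (.dbl 53 5 54))))) (.rp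 55 (.thr 30 18 (.thr 62 2 (.thr 14 46 (.thr 0 63 (.thr 20 23 (.thr 4 36 (.thr 12 8 (.thr 15 13 (.dbl 37 7 48))))))))) (.rp 38 (.thr 20 23 (.thr 36 4 (.thr 37 7 (.thr 5 53 (.thr 48 15 (.thr 24 12 (.thr 28 16 (.dbl 25 19 27)))))))) (.rp 23 (.thr 30 18 (.thr 62 2 (.thr 14 46 (.thr 50 38 (.thr 63 0 (.thr 37 7 (.thr 48 15 (.thr 51 49 (.thr 55 59 (.dbl 53 5 54)))))))))) (.rp 20 (.thr 30 18 (.thr 62 2 (.thr 14 46 (.thr 37 7 (.thr 15 48 (.thr 12 13 (.thr 0 63 (.thr 53 5 (.thr 4 8 (.dbl 38 50 55)))))))))) (.rp 4 (.thr 30 18 (.thr 62 2 (.thr 14 46 (.thr 50 38 (.thr 20 23 (.thr 37 7 (.thr 5 53 (.thr 47 32 (.thr 48 15 (.thr 49 51 (.thr 25 13 (.thr 17 29 (.thr 33 1 (.thr 59 8 (.thr 27 24 (.thr 28 19 (.thr 11 43 (.dbl 41 45 56)))))))))))))))))) .nd))))))))) (.rp 30 (.thr 10 58 (.thr 0 63 (.thr 20 23 (.thr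 15 5 (.thr 48 37 (.thr 16 32 (.thr 28 24 (.thr 19 25 (.thr 18 17 (.thr 3 33 (.dbl 2 1 62))))))))))) (.rp 18 (.thr 10 58 (.thr 0 63 (.thr 20 23 (.thr 15 5 (.thr 48 37 (.thr 16 32 (.thr 24 28 (.thr 12 36 (.thr 4 8 (.thr 38 55 (.dbl 14 13 50))))))))))) (.rp 14 (.thr 18 30 (.thr 10 58 (.thr 0 63 (.thr 15 5 (.thr 48 37 (.thr 3 33 (.dbl 2 1 62))))))) (.rp 10 (.thr 30 18 (.thr 62 2 (.thr 14 46 (.thr 50 38 (.thr 58 54 (.thr 63 0 (.thr 48 53 (.thr 51 49 (.thr 55 59 (.thr 15 37 (.thr 39 27 (.dbl 23 7 20)))))))))))) (.rp 2 (.thr 18 30 (.thr 10 58 (.thr 0 63 (.thr 20 23 (.thr 15 5 (.thr 48 37 (.thr 16 32 (.thr 28 24 (.dbl 19 17 25))))))))) .nd))))))))) (.rp 59 (.str 60 (.nv (.thr 20 23 (.thr 0 40 (.thr 30 18 (.thr 15 45 (.thr 5 10 (.dbl 37 48 53)))))) (.nv (.thr 20 23 (.thr 0 40 (.thr 3 41 (.thr 2 1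 (.dbl 42 62 63))))) (.nv (.thr 3 41 (.thr 30 18 (.thr 15 45 (.thr 37 48 (.dbl 7 11 52))))) .nd)))) (.rp 58 (.str 60 (.nv (.thr 20 23 (.thr 0 40 (.thr 30 18 (.thr 15 45 (.thr 5 10 (.dbl 37 48 53)))))) (.nv (.thr 30 18 (.thr 15 45 (.thr 48 37 (.thr 56 52 (.dbl 41 3 11))))) (.nv (.thr 3 41 (.thr 23 20 (.thr 63 43 (.thr 42 0 (.dbl 62 2 61))))) .nd)))) (.rp 57 (.str 60 (.nv (.thr 20 23 (.thr 0 40 (.thr 30 18 (.thr 15 45 (.thr 5 10 (.dbl 37 48 53)))))) (.nv (.thr 20 23 (.thr 0 40 (.thr 63 42 (.thr 61 62 (.dbl 41 1 3))))) (.nv (.thr 30 18 (.thr 15 45 (.thr 37 48 (.thr 7 52 (.dbl 3 11 41))))) .nd)))) (.rp 56 (.str 60 (.nv (.thr 20 23 (.thr 0 40 (.thr 30 18 (.thr 15 45 (.thr 5 10 (.dbl 37 48 53)))))) (.nv (.thr 30 18 (.thr 15 45 (.thr 37 48 (.thr 7 52 (.dbl 3 11 41))))) (.nv (.thr 3 41 (.thr 23 20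 (.thr 63 43 (.thr 42 0 (.dbl 62 2 61))))) .nd)))) (.rp 55 (.str 60 (.nv (.thr 20 23 (.thr 0 40 (.thr 30 18 (.thr 15 45 (.thr 5 10 (.dbl 37 48 53)))))) (.nv (.thr 3 41 (.thr 18 30 (.thr 48 33 (.thr 52 56 (.dbl 37 7 15))))) (.nv (.thr 3 41 (.thr 23 20 (.thr 63 43 (.thr 42 0 (.dbl 62 2 61))))) .nd)))) (.rp 54 (.str 3 (.nv (.thr 18 30 (.thr 23 20 (.thr 48 33 (.thr 63 43 (.thr 53 58 (.dbl 37 5 15)))))) (.nv (.thr 18 30 (.thr 41 60 (.thr 11 56 (.thr 15 7 (.dbl 48 33 37))))) (.nv (.thr 23 20 (.thr 60 41 (.thr 63 43 (.thr 42 0 (.dbl 62 2 61))))) .nd)))) (.rp 53 (.str 60 (.nv (.thr 20 23 (.thr 0 40 (.thr 30 18 (.thr 15 45 (.thr 10 5 (.dbl 42 58 63)))))) (.nv (.thr 3 41 (.thr 18 30 (.thr 48 33 (.thr 52 56 (.dbl 37 7 15))))) (.nv (.thr 3 41 (.thr 23 20 (.thr 63 43 (.thr 42 0 (.dbl 62 2 61))))) .nd))))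 (.rp 52 (.str 60 (.nv (.thr 3 41 (.thr 18 30 (.thr 23 20 (.thr 48 33 (.thr 37 15 (.thr 63 43 (.dbl 53 5 58))))))) (.nv (.thr 20 23 (.thr 0 40 (.thr 30 18 (.thr 15 45 (.thr 5 10 (.dbl 37 48 53)))))) (.nv (.thr 3 41 (.thr 23 20 (.thr 63 43 (.thr 42 0 (.dbl 62 2 61))))) (.rp 23 (.thr 30 18 (.thr 15 45 (.thr 48 37 (.thr 41 3 (.thr 61 1 (.thr 63 62 (.thr 58 53 (.dbl 42 0 10)))))))) (.rp 20 (.thr 30 18 (.thr 15 45 (.thr 48 37 (.thr 41 3 (.thr 61 1 (.thr 63 62 (.thr 58 53 (.dbl 42 0 10)))))))) .nd)))))) (.rp 51 (.str 60 (.nv (.thr 20 23 (.thr 0 40 (.thr 30 18 (.thr 15 45 (.thr 5 10 (.dbl 37 48 53)))))) (.nv (.thr 3 41 (.thr 18 30 (.thr 48 33 (.thr 52 56 (.dbl 37 7 15))))) (.nv (.thr 3 41 (.thr 23 20 (.thr 63 43 (.thr 62 61 (.dbl 42 0 2))))) .nd)))) (.rp 50 (.str 60 (.nv (.thr 20 23 (.thr 0 40 (.thr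 30 18 (.thr 15 45 (.thr 5 10 (.dbl 37 48 53)))))) (.nv (.thr 3 41 (.thr 18 30 (.thr 48 33 (.thr 52 56 (.dbl 37 7 15))))) (.nv (.thr 3 41 (.thr 23 20 (.thr 63 43 (.thr 42 0 (.dbl 62 2 61))))) .nd)))) (.rp 49 (.str 60 (.nv (.thr 20 23 (.thr 0 40 (.thr 30 18 (.thr 15 45 (.thr 5 10 (.dbl 37 48 53)))))) (.nv (.thr 3 41 (.thr 18 30 (.thr 48 33 (.thr 52 56 (.dbl 37 7 15))))) (.nv (.thr 3 41 (.thr 23 20 (.thr 63 43 (.thr 42 0 (.dbl 62 2 61))))) .nd)))) (.rp 48 (.str 3 (.nv (.thr 20 23 (.thr 30 18 (.thr 60 41 (.thr 0 40 (.thr 42 63 (.thr 15 45 (.dbl 10 5 58))))))) (.nv (.thr 23 20 (.thr 60 41 (.thr 63 43 (.thr 62 61 (.dbl 42 0 2))))) (.rp 63 (.thr 20 23 (.thr 30 18 (.thr 60 41 (.thr 15 45 (.thr 7 11 (.thr 37 52 (.thr 0 40 (.dbl 5 10 53)))))))) (.rp 60 (.thr 23 20 (.thr 18 30 (.thr 63 43 (.thr 0 42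 (.thr 2 1 (.thr 50 34 (.thr 38 14 (.thr 4 55 (.thr 12 8 (.thr 25 51 (.dbl 29 17 46))))))))))) (.rp 42 (.thr 20 23 (.thr 30 18 (.thr 60 41 (.thr 15 45 (.thr 7 11 (.thr 37 52 (.thr 5 53 (.dbl 0 10 40)))))))) (.rp 41 (.thr 23 20 (.thr 30 18 (.thr 63 43 (.thr 42 0 (.thr 62 2 (.thr 14 46 (.thr 50 38 (.dbl 58 10 54)))))))) (.rp 40 (.thr 23 20 (.thr 63 43 (.thr 0 42 (.thr 41 60 (.dbl 1 2 61))))) (.rp 23 (.thr 30 18 (.thr 60 41 (.thr 15 45 (.thr 7 11 (.thr 37 52 (.thr 5 53 (.thr 0 10 (.thr 2 1 (.dbl 42 62 63))))))))) (.rp 20 (.thr 30 18 (.thr 60 41 (.thr 15 45 (.thr 7 11 (.thr 37 52 (.thr 5 53 (.thr 0 10 (.thr 2 1 (.dbl 42 62 63))))))))) (.rp 0 (.thr 23 20 (.thr 30 18 (.thr 63 43 (.thr 60 41 (.thr 62 61 (.thr 14 46 (.thr 50 38 (.thr 58 54 (.dbl 42 2 10))))))))) .nd))))))))))) (.rp 47 (.str 15 (.nv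 (.thr 20 23 (.thr 30 18 (.thr 60 45 (.thr 0 40 (.thr 42 63 (.dbl 10 5 58)))))) (.nv (.thr 20 23 (.thr 37 48 (.thr 52 7 (.thr 4 36 (.thr 53 5 (.dbl 55 38 54)))))) (.nv (.thr 37 48 (.thr 7 52 (.thr 3 11 (.thr 30 18 (.dbl 60 41 45))))) .nd)))) (.rp 46 (.str 60 (.nv (.thr 20 23 (.thr 0 40 (.thr 30 18 (.thr 15 45 (.thr 5 10 (.dbl 37 48 53)))))) (.nv (.thr 3 41 (.thr 30 18 (.thr 15 45 (.thr 7 11 (.dbl 37 48 52))))) (.nv (.thr 3 41 (.thr 23 20 (.thr 63 43 (.thr 42 0 (.dbl 62 2 61))))) .nd)))) (.rp 45 (.str 60 (.nv (.thr 20 23 (.thr 0 40 (.thr 63 42 (.thr 61 62 (.dbl 41 1 3))))) (.nv (.thr 3 41 (.thr 18 30 (.thr 48 33 (.thr 37 15 (.dbl 52 7 56))))) (.nv (.thr 3 41 (.thr 23 20 (.thr 63 43 (.thr 42 0 (.dbl 62 2 61))))) (.rp 63 (.thr 20 23 (.thr 40 0 (.thr 41 3 (.thr 43 42 (.thr 56 11 (.thr 24 8 (.thr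 28 16 (.dbl 25 19 27)))))))) (.rp 41 (.thr 20 23 (.thr 30 18 (.thr 0 40 (.thr 42 63 (.thr 62 2 (.thr 14 46 (.thr 50 38 (.dbl 58 10 54)))))))) (.rp 3 (.thr 20 23 (.thr 0 40 (.thr 63 42 (.thr 61 62 (.thr 41 1 (.thr 56 11 (.thr 48 52 (.thr 53 58 (.dbl 37 5 15))))))))) .nd))))))) (.rp 44 (.str 60 (.nv (.thr 20 23 (.thr 0 40 (.thr 30 18 (.thr 15 45 (.thr 5 10 (.dbl 37 48 53)))))) (.nv (.thr 30 18 (.thr 15 45 (.thr 37 48 (.thr 7 52 (.dbl 3 11 41))))) (.nv (.thr 3 41 (.thr 23 20 (.thr 63 43 (.thr 42 0 (.dbl 62 2 61))))) .nd)))) (.rp 43 (.str 3 (.nv (.thr 20 23 (.thr 60 41 (.thr 0 40 (.thr 42 63 (.dbl 2 1 62))))) (.nv (.thr 18 30 (.thr 48 33 (.thr 15 37 (.thr 41 60 (.dbl 11 7 56))))) (.rp 60 (.thr 18 30 (.thr 23 20 (.thr 48 33 (.thr 15 37 (.thr 7 11 (.thr 55 39 (.thr 38 4 (.thr 14 50 (.thr 12 13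 (.thr 25 51 (.dbl 24 27 36))))))))))) (.rp 41 (.thr 18 30 (.thr 20 23 (.thr 48 33 (.thr 37 15 (.thr 52 7 (.thr 4 36 (.thr 55 38 (.dbl 53 5 54)))))))) (.rp 15 (.thr 18 30 (.thr 33 48 (.thr 41 60 (.thr 45 37 (.thr 1 61 (.thr 17 49 (.thr 19 16 (.dbl 25 28 29)))))))) .nd)))))) (.rp 42 (.str 3 (.nv (.thr 18 30 (.thr 33 48 (.thr 41 60 (.thr 1 61 (.thr 17 49 (.thr 19 16 (.dbl 25 28 29))))))) (.nv (.thr 18 30 (.thr 23 20 (.thr 63 43 (.thr 48 33 (.thr 53 58 (.dbl 37 5 15)))))) (.nv (.thr 30 18 (.thr 60 41 (.thr 15 45 (.thr 37 48 (.dbl 7 11 52))))) (.rp 48 (.thr 30 18 (.thr 20 23 (.thr 60 41 (.thr 15 45 (.thr 7 11 (.thr 37 52 (.thr 5 53 (.dbl 0 10 40)))))))) (.rp 41 (.thr 18 30 (.thr 23 20 (.thr 48 33 (.thr 37 15 (.thr 53 5 (.dbl 63 43 58)))))) (.rp 30 (.thr 23 20 (.thr 43 63 (.thr 41 60 (.thr 11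 56 (.thr 15 7 (.thr 27 59 (.thr 25 24 (.thr 51 39 (.dbl 19 28 35))))))))) (.rp 18 (.thr 23 20 (.thr 63 43 (.thr 41 60 (.thr 11 56 (.thr 7 15 (.thr 55 39 (.thr 51 59 (.thr 38 4 (.dbl 35 19 44))))))))) (.rp 15 (.thr 18 30 (.thr 33 48 (.thr 41 60 (.thr 45 37 (.thr 1 61 (.thr 17 49 (.thr 19 16 (.dbl 25 28 29)))))))) .nd))))))))) (.rp 41 (.str 42 (.nv (.thr 0 63 (.thr 2 62 (.thr 3 1 (.thr 18 30 (.thr 48 33 (.thr 32 16 (.dbl 37 15 47))))))) (.nv (.thr 0 63 (.thr 2 62 (.thr 3 1 (.thr 10 58 (.thr 15 5 (.thr 7 11 (.dbl 37 48 52))))))) (.nv (.thr 0 63 (.thr 10 58 (.thr 15 5 (.thr 20 23 (.thr 30 18 (.dbl 60 40 45)))))) (.nv (.thr 30 18 (.thr 62 2 (.thr 14 46 (.thr 58 10 (.dbl 50 38 54))))) .nd))))) (.rp 40 (.str 60 (.nv (.thr 30 18 (.thr 15 45 (.thr 48 37 (.thr 56 52 (.dbl 41 3 11))))) (.nv (.thr 23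 20 (.thr 3 41 (.thr 63 43 (.thr 42 0 (.dbl 62 2 61))))) (.rp 41 (.thr 30 18 (.thr 20 23 (.thr 15 45 (.thr 37 48 (.thr 52 7 (.thr 4 36 (.thr 55 38 (.dbl 53 5 54)))))))) (.rp 3 (.thr 30 18 (.thr 15 45 (.thr 48 37 (.thr 56 52 (.thr 41 11 (.thr 61 1 (.thr 63 62 (.thr 58 53 (.dbl 42 0 10))))))))) .nd))))) (.rp 39 (.str 3 (.nv (.thr 18 30 (.thr 23 20 (.thr 48 33 (.thr 63 43 (.thr 53 58 (.dbl 37 5 15)))))) (.nv (.thr 23 20 (.thr 41 60 (.thr 1 61 (.thr 0 2 (.dbl 63 42 43))))) (.nv (.thr 30 18 (.thr 60 41 (.thr 15 45 (.thr 37 48 (.dbl 7 11 52))))) .nd)))) (.rp 38 (.str 3 (.nv (.thr 18 30 (.thr 23 20 (.thr 63 43 (.thr 48 33 (.thr 58 53 (.dbl 42 0 10)))))) (.nv (.thr 18 30 (.thr 41 60 (.thr 11 56 (.thr 15 7 (.dbl 48 33 37))))) (.nv (.thr 23 20 (.thr 41 60 (.thr 1 61 (.thr 63 43 (.dbl 0 2 42))))) .nd))))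 (.rp 37 (.str 3 (.nv (.thr 18 30 (.thr 23 20 (.thr 48 33 (.thr 63 43 (.thr 58 53 (.dbl 42 0 10)))))) (.nv (.thr 18 30 (.thr 33 48 (.thr 41 60 (.thr 1 61 (.thr 17 49 (.thr 19 16 (.dbl 25 28 29))))))) (.nv (.thr 23 20 (.thr 41 60 (.thr 1 61 (.thr 63 43 (.dbl 0 2 42))))) (.rp 63 (.thr 20 23 (.thr 30 18 (.thr 60 41 (.thr 0 40 (.thr 2 1 (.thr 42 62 (.thr 10 58 (.dbl 15 5 45)))))))) (.rp 41 (.thr 23 20 (.thr 18 30 (.thr 63 43 (.thr 42 0 (.thr 58 10 (.dbl 48 33 53)))))) (.rp 0 (.thr 23 20 (.thr 30 18 (.thr 63 43 (.thr 60 41 (.thr 62 61 (.thr 14 46 (.thr 50 38 (.thr 58 54 (.dbl 42 2 10))))))))) .nd))))))) (.rp 36 (.str 60 (.nv (.thr 20 23 (.thr 0 40 (.thr 30 18 (.thr 15 45 (.thr 5 10 (.dbl 37 48 53)))))) (.nv (.thr 20 23 (.thr 0 40 (.thr 63 42 (.thr 61 62 (.dbl 41 1 3))))) (.nv (.thr 3 41 (.thr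 30 18 (.thr 15 45 (.thr 7 11 (.dbl 37 48 52))))) .nd)))) (.rp 35 (.str 3 (.nv (.thr 18 30 (.thr 23 20 (.thr 48 33 (.thr 63 43 (.thr 53 58 (.dbl 37 5 15)))))) (.nv (.thr 18 30 (.thr 48 33 (.thr 15 37 (.thr 11 7 (.dbl 41 56 60))))) (.nv (.thr 23 20 (.thr 63 43 (.thr 0 42 (.thr 41 60 (.dbl 1 2 61))))) .nd)))) (.rp 34 (.str 3 (.nv (.thr 18 30 (.thr 23 20 (.thr 48 33 (.thr 63 43 (.thr 53 58 (.dbl 37 5 15)))))) (.nv (.thr 18 30 (.thr 41 60 (.thr 11 56 (.thr 15 7 (.dbl 48 33 37))))) (.nv (.thr 23 20 (.thr 41 60 (.thr 1 61 (.thr 63 43 (.dbl 0 2 42))))) .nd)))) (.rp 33 (.str 3 (.nv (.thr 30 18 (.thr 60 41 (.thr 15 45 (.thr 37 48 (.dbl 7 11 52))))) (.nv (.thr 23 20 (.thr 63 43 (.thr 0 42 (.thr 41 60 (.dbl 1 2 61))))) (.rp 60 (.thr 23 20 (.thr 18 30 (.thr 63 43 (.thr 0 42 (.thr 2 1 (.thr 34 50 (.thr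 17 51 (.thr 19 16 (.dbl 25 28 29))))))))) (.rp 41 (.thr 23 20 (.thr 30 18 (.thr 63 43 (.thr 42 0 (.thr 62 2 (.thr 14 46 (.thr 50 38 (.dbl 58 10 54)))))))) .nd))))) (.rp 32 (.str 3 (.nv (.thr 18 30 (.thr 23 20 (.thr 48 33 (.thr 63 43 (.thr 53 58 (.dbl 37 5 15)))))) (.nv (.thr 18 30 (.thr 41 60 (.thr 11 56 (.thr 15 7 (.dbl 48 33 37))))) (.nv (.thr 23 20 (.thr 41 60 (.thr 1 61 (.thr 63 43 (.dbl 0 2 42))))) .nd)))) (.rp 30 (.str 3 (.nv (.thr 20 23 (.thr 60 41 (.thr 0 40 (.thr 42 63 (.dbl 2 1 62))))) (.nv (.thr 23 20 (.thr 63 43 (.thr 60 41 (.thr 42 0 (.dbl 62 2 61))))) (.rp 63 (.thr 20 23 (.thr 60 41 (.thr 0 40 (.thr 2 1 (.thr 42 62 (.thr 10 58 (.thr 15 5 (.thr 7 11 (.dbl 37 48 52))))))))) (.rp 62 (.thr 23 20 (.thr 63 43 (.thr 0 42 (.thr 1 2 (.dbl 41 60 61))))) (.rp 60 (.thr 23 20 (.thr 63 43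 (.thr 0 42 (.thr 1 2 (.thr 41 61 (.thr 11 56 (.thr 15 7 (.thr 48 37 (.thr 32 16 (.thr 33 18 (.thr 17 49 (.dbl 34 35 51)))))))))))) (.rp 42 (.thr 23 20 (.thr 43 63 (.thr 41 60 (.thr 11 56 (.thr 15 7 (.thr 27 59 (.thr 25 24 (.thr 51 39 (.dbl 19 28 35))))))))) (.rp 41 (.thr 23 20 (.thr 63 43 (.thr 42 0 (.thr 2 62 (.thr 58 10 (.thr 48 53 (.thr 18 33 (.thr 50 34 (.thr 51 49 (.thr 55 59 (.dbl 38 4 14))))))))))) (.rp 29 (.str 28 (.nv (.thr 23 20 (.thr 41 60 (.thr 1 61 (.thr 0 2 (.dbl 63 42 43))))) (.nv (.thr 20 23 (.thr 24 16 (.dbl 25 19 27))) (.rp 23 (.thr 25 19 (.thr 27 24 (.thr 41 60 (.thr 11 56 (.thr 59 43 (.thr 8 42 (.dbl 9 10 57))))))) (.rp 20 (.thr 25 19 (.thr 27 24 (.thr 41 60 (.thr 11 56 (.thr 59 43 (.thr 8 42 (.dbl 9 10 57))))))) .nd))))) (.rp 28 (.str 29 (.nv (.thr 25 17 (.thr 41 60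 (.thr 57 9 (.thr 61 1 (.thr 49 53 (.dbl 13 37 45)))))) (.nv (.thr 23 20 (.thr 60 41 (.thr 63 43 (.thr 42 0 (.dbl 62 2 61))))) (.rp 61 (.thr 20 23 (.thr 60 41 (.thr 0 40 (.thr 2 1 (.dbl 42 62 63))))) (.rp 60 (.thr 23 20 (.thr 25 17 (.thr 63 43 (.thr 12 46 (.thr 51 38 (.thr 59 55 (.dbl 42 0 8))))))) (.rp 41 (.thr 23 20 (.thr 25 17 (.thr 63 43 (.thr 12 46 (.thr 51 38 (.thr 59 55 (.dbl 42 0 8))))))) .nd)))))) (.rp 23 (.thr 41 60 (.thr 11 56 (.thr 15 7 (.thr 48 37 (.thr 33 18 (.thr 1 61 (.thr 0 2 (.thr 32 16 (.thr 17 49 (.dbl 34 35 51)))))))))) (.rp 20 (.thr 41 60 (.thr 11 56 (.thr 15 7 (.thr 48 37 (.thr 33 18 (.thr 1 61 (.thr 0 2 (.thr 32 16 (.thr 17 49 (.dbl 34 35 51)))))))))) (.rp 2 (.thr 23 20 (.thr 63 43 (.thr 41 60 (.thr 11 56 (.thr 15 7 (.thr 48 37 (.thr 58 53 (.dbl 42 0 10)))))))) (.rp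 0 (.thr 23 20 (.thr 43 63 (.thr 41 60 (.thr 40 42 (.thr 11 56 (.thr 15 7 (.thr 27 59 (.thr 25 24 (.thr 51 39 (.dbl 19 28 35)))))))))) .nd)))))))))))))) (.rp 29 (.thr 23 20 (.thr 30 18 (.str 3 (.nv (.thr 63 43 (.thr 42 0 (.thr 58 10 (.thr 62 2 (.thr 14 46 (.dbl 50 38 54)))))) (.nv (.thr 60 41 (.thr 15 45 (.thr 7 11 (.dbl 37 48 52)))) (.nv (.thr 63 43 (.thr 0 42 (.thr 41 60 (.dbl 1 2 61)))) (.rp 60 (.thr 63 43 (.thr 0 42 (.thr 1 2 (.thr 41 61 (.thr 11 56 (.thr 7 15 (.thr 55 39 (.thr 51 59 (.thr 38 4 (.dbl 35 19 44)))))))))) .nd))))))) (.rp 28 (.thr 30 18 (.str 60 (.nv (.thr 15 45 (.thr 20 23 (.thr 0 40 (.thr 5 10 (.dbl 37 48 53))))) (.nv (.thr 3 41 (.thr 20 23 (.thr 0 40 (.thr 2 1 (.dbl 42 62 63))))) (.nv (.thr 3 41 (.thr 15 45 (.thr 37 48 (.dbl 7 11 52)))) .nd))))) (.rp 27 (.thr 30 18 (.thr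 23 20 (.str 3 (.nv (.thr 41 60 (.thr 1 61 (.thr 0 2 (.dbl 63 42 43)))) (.nv (.thr 60 41 (.thr 15 45 (.thr 37 48 (.dbl 7 11 52)))) (.rp 60 (.thr 63 43 (.thr 0 42 (.thr 1 2 (.thr 41 61 (.thr 11 56 (.thr 7 15 (.thr 55 39 (.thr 51 59 (.thr 38 4 (.dbl 35 19 44)))))))))) (.rp 41 (.thr 63 43 (.thr 42 0 (.thr 62 2 (.thr 14 46 (.thr 50 38 (.dbl 58 10 54)))))) .nd))))))) (.rp 25 (.str 3 (.nv (.thr 18 30 (.thr 23 20 (.thr 63 43 (.thr 48 33 (.thr 58 53 (.dbl 42 0 10)))))) (.nv (.thr 18 30 (.thr 41 60 (.thr 11 56 (.thr 15 7 (.dbl 48 33 37))))) (.nv (.thr 23 20 (.thr 41 60 (.thr 1 61 (.thr 63 43 (.dbl 0 2 42))))) .nd)))) (.rp 24 (.str 3 (.nv (.thr 18 30 (.thr 23 20 (.thr 48 33 (.thr 63 43 (.thr 53 58 (.dbl 37 5 15)))))) (.nv (.thr 20 23 (.thr 60 41 (.thr 0 40 (.thr 2 1 (.dbl 42 62 63))))) (.nv (.thr 30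 18 (.thr 60 41 (.thr 15 45 (.thr 7 11 (.dbl 37 48 52))))) .nd)))) (.rp 23 (.thr 30 18 (.str 42 (.nv (.thr 0 63 (.thr 10 58 (.thr 15 5 (.thr 60 45 (.thr 40 20 (.dbl 41 3 43)))))) (.nv (.thr 62 2 (.thr 14 46 (.thr 58 10 (.dbl 50 38 54)))) (.rp 58 (.thr 0 63 (.thr 2 62 (.thr 3 1 (.thr 60 41 (.thr 15 45 (.thr 7 11 (.dbl 37 48 52))))))) (.rp 27 (.str 19 (.nv (.thr 25 28 (.thr 29 17 (.thr 63 0 (.thr 46 12 (.dbl 62 2 14))))) (.nv (.thr 0 63 (.thr 10 58 (.thr 15 5 (.thr 60 45 (.thr 40 20 (.dbl 41 3 43)))))) (.nv (.thr 62 2 (.thr 14 46 (.thr 58 10 (.dbl 50 38 54)))) .nd)))) (.rp 19 (.str 27 (.nv (.thr 25 24 (.thr 58 10 (.thr 59 8 (.thr 11 43 (.dbl 56 41 57))))) (.nv (.thr 0 63 (.thr 25 24 (.thr 8 59 (.thr 12 4 (.thr 17 29 (.dbl 51 34 38)))))) (.nv (.thr 62 2 (.thr 14 46 (.thr 58 10 (.dbl 50 38 54))))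 (.rp 17 (.str 16 (.nv (.thr 0 63 (.thr 24 25 (.thr 20 28 (.thr 48 32 (.thr 15 37 (.dbl 60 40 45)))))) (.nv (.thr 58 10 (.thr 62 2 (.thr 14 46 (.dbl 50 38 54)))) .nd))) (.rp 16 (.str 17 (.nv (.dbl 25 24 29) (.rp 29 (.thr 0 63 (.thr 34 51 (.thr 46 38 (.dbl 62 2 14)))) (.rp 25 (.thr 0 63 (.thr 34 51 (.thr 62 2 (.dbl 46 14 38)))) (.rp 24 (.thr 29 25 (.thr 63 0 (.thr 46 12 (.dbl 62 2 14)))) .nd))))) .nd)))))) (.rp 10 (.thr 0 63 (.thr 2 62 (.thr 3 1 (.thr 60 41 (.thr 15 45 (.thr 7 11 (.dbl 37 48 52))))))) .nd)))))))) (.rp 20 (.str 3 (.nv (.thr 18 30 (.thr 48 33 (.thr 15 37 (.thr 41 60 (.dbl 11 7 56))))) (.nv (.thr 18 30 (.thr 33 48 (.thr 41 60 (.thr 1 61 (.thr 17 49 (.thr 19 16 (.dbl 25 28 29))))))) (.nv (.thr 30 18 (.thr 60 41 (.thr 15 45 (.thr 37 48 (.dbl 7 11 52))))) (.rp 60 (.thr 18 30 (.thr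 48 33 (.thr 15 37 (.thr 11 7 (.thr 41 56 (.thr 1 61 (.thr 0 2 (.thr 63 42 (.thr 43 23 (.thr 27 59 (.thr 25 24 (.thr 28 19 (.thr 17 29 (.dbl 51 34 39)))))))))))))) (.rp 48 (.thr 30 18 (.thr 60 41 (.thr 15 45 (.thr 7 11 (.thr 37 52 (.thr 5 53 (.thr 0 10 (.thr 2 1 (.dbl 42 62 63))))))))) (.rp 41 (.thr 18 30 (.thr 48 33 (.thr 37 15 (.thr 53 5 (.thr 63 58 (.thr 0 42 (.thr 2 1 (.thr 34 50 (.thr 17 51 (.dbl 16 19 32)))))))))) (.rp 30 (.thr 41 60 (.thr 11 56 (.thr 15 7 (.thr 48 37 (.thr 33 18 (.thr 1 61 (.thr 0 2 (.thr 32 16 (.thr 17 49 (.dbl 34 35 51)))))))))) (.rp 18 (.thr 41 60 (.thr 11 56 (.thr 7 15 (.thr 1 61 (.thr 0 2 (.thr 63 42 (.thr 23 43 (.thr 55 39 (.thr 51 59 (.thr 38 4 (.dbl 35 19 44))))))))))) (.rp 15 (.thr 18 30 (.thr 33 48 (.thr 41 60 (.thr 45 37 (.thr 1 61 (.thr 17 49 (.thr 19 16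 (.dbl 25 28 29)))))))) .nd)))))))))) (.rp 19 (.thr 23 20 (.str 3 (.nv (.thr 18 30 (.thr 48 33 (.thr 63 43 (.thr 53 58 (.dbl 37 5 15))))) (.nv (.thr 18 30 (.thr 48 33 (.thr 15 37 (.thr 11 7 (.dbl 41 56 60))))) (.nv (.thr 60 41 (.thr 63 43 (.thr 42 0 (.dbl 62 2 61)))) .nd))))) (.rp 18 (.str 0 (.nv (.thr 42 63 (.thr 2 62 (.thr 3 1 (.thr 10 58 (.thr 15 5 (.thr 7 11 (.dbl 37 48 52))))))) (.nv (.thr 23 20 (.thr 63 42 (.thr 3 43 (.thr 41 60 (.dbl 1 2 61))))) (.rp 63 (.thr 20 23 (.thr 60 40 (.thr 3 41 (.thr 2 1 (.thr 42 62 (.thr 10 58 (.thr 15 5 (.thr 7 11 (.dbl 37 48 52))))))))) (.rp 61 (.thr 20 23 (.thr 60 40 (.thr 3 41 (.thr 2 1 (.dbl 42 62 63))))) (.rp 60 (.thr 20 23 (.thr 42 63 (.thr 10 58 (.thr 15 5 (.thr 48 37 (.thr 16 32 (.thr 24 28 (.thr 12 36 (.thr 14 13 (.thr 4 8 (.dbl 38 50 55)))))))))))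 (.rp 42 (.thr 20 23 (.thr 60 40 (.thr 41 3 (.thr 61 1 (.thr 63 62 (.thr 56 11 (.thr 48 52 (.thr 53 58 (.dbl 37 5 15))))))))) (.rp 3 (.thr 20 23 (.thr 60 40 (.thr 63 42 (.thr 61 62 (.thr 41 1 (.thr 56 11 (.thr 48 52 (.thr 53 58 (.dbl 37 5 15))))))))) (.rp 2 (.thr 20 23 (.thr 60 40 (.thr 41 3 (.thr 61 1 (.dbl 63 42 62))))) (.rp 1 (.thr 20 23 (.thr 60 40 (.thr 3 41 (.thr 42 63 (.thr 10 58 (.thr 15 5 (.thr 7 11 (.dbl 37 48 52)))))))) .nd)))))))))) (.rp 17 (.str 3 (.nv (.thr 18 30 (.thr 23 20 (.thr 48 33 (.thr 63 43 (.thr 53 58 (.dbl 37 5 15)))))) (.nv (.thr 18 30 (.thr 41 60 (.thr 11 56 (.thr 15 7 (.dbl 48 33 37))))) (.nv (.thr 23 20 (.thr 63 43 (.thr 0 42 (.thr 41 60 (.dbl 1 2 61))))) .nd)))) (.rp 16 (.str 3 (.nv (.thr 18 30 (.thr 23 20 (.thr 48 33 (.thr 63 43 (.thr 53 58 (.dbl 37 5 15))))))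 (.nv (.thr 20 23 (.thr 60 41 (.thr 0 40 (.thr 2 1 (.dbl 42 62 63))))) (.nv (.thr 18 30 (.thr 48 33 (.thr 15 37 (.thr 41 60 (.dbl 11 7 56))))) .nd)))) (.rp 15 (.str 63 (.nv (.thr 18 30 (.thr 23 20 (.thr 3 43 (.thr 42 0 (.thr 48 33 (.dbl 58 10 53)))))) (.nv (.thr 30 18 (.thr 42 0 (.thr 62 2 (.thr 14 46 (.thr 50 38 (.dbl 58 10 54)))))) (.nv (.thr 23 20 (.thr 3 43 (.thr 60 41 (.thr 62 61 (.dbl 42 0 2))))) (.rp 42 (.thr 23 20 (.thr 18 30 (.thr 3 43 (.thr 33 48 (.thr 41 60 (.thr 45 37 (.thr 1 61 (.thr 17 49 (.thr 19 16 (.dbl 25 28 29)))))))))) (.rp 3 (.thr 20 23 (.thr 30 18 (.thr 0 42 (.thr 60 40 (.thr 62 61 (.thr 46 14 (.thr 12 29 (.thr 28 44 (.thr 24 16 (.dbl 25 19 27)))))))))) (.rp 0 (.thr 23 20 (.thr 18 30 (.thr 3 43 (.thr 48 33 (.thr 53 58 (.thr 60 41 (.thr 52 56 (.dbl 37 5 7)))))))) .nd)))))))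 (.rp 14 (.thr 30 18 (.str 15 (.nv (.thr 20 23 (.thr 37 48 (.thr 52 7 (.thr 4 36 (.thr 53 5 (.dbl 55 38 54)))))) (.nv (.thr 20 23 (.thr 60 45 (.thr 0 40 (.thr 10 5 (.dbl 42 58 63))))) (.nv (.thr 60 45 (.thr 3 41 (.thr 37 48 (.dbl 7 11 52)))) (.rp 10 (.str 2 (.nv (.thr 20 23 (.thr 37 48 (.thr 52 7 (.thr 4 36 (.thr 53 5 (.dbl 55 38 54)))))) (.nv (.thr 42 62 (.thr 0 63 (.thr 60 45 (.dbl 3 1 41)))) (.rp 3 (.thr 20 23 (.thr 42 62 (.thr 60 45 (.dbl 0 40 63)))) .nd)))) (.rp 7 (.thr 60 45 (.thr 41 3 (.thr 56 11 (.dbl 48 37 52)))) (.rp 2 (.str 10 (.nv (.thr 37 48 (.thr 7 52 (.thr 3 11 (.dbl 60 41 45)))) (.nv (.thr 42 58 (.dbl 0 5 63)) (.rp 50 (.str 34 (.nv (.thr 37 48 (.thr 7 52 (.thr 3 11 (.dbl 60 41 45)))) (.nv (.thr 0 5 (.dbl 42 58 63)) (.rp 7 (.thr 5 0 (.dbl 37 48 53)) .nd)))) (.rp 34 (.str 50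 (.nv (.thr 37 48 (.thr 7 52 (.thr 3 11 (.dbl 60 41 45)))) (.nv (.thr 42 58 (.dbl 0 5 63)) .nd))) .nd))))) .nd)))))))) (.rp 13 (.str 3 (.nv (.thr 18 30 (.thr 23 20 (.thr 48 33 (.thr 63 43 (.thr 53 58 (.dbl 37 5 15)))))) (.nv (.thr 18 30 (.thr 41 60 (.thr 11 56 (.thr 15 7 (.dbl 48 33 37))))) (.nv (.thr 23 20 (.thr 60 41 (.thr 63 43 (.thr 42 0 (.dbl 62 2 61))))) .nd)))) (.rp 12 (.str 3 (.nv (.thr 18 30 (.thr 23 20 (.thr 63 43 (.thr 48 33 (.thr 58 53 (.dbl 42 0 10)))))) (.nv (.thr 18 30 (.thr 41 60 (.thr 11 56 (.thr 15 7 (.dbl 48 33 37))))) (.nv (.thr 23 20 (.thr 60 41 (.thr 63 43 (.thr 62 61 (.dbl 42 0 2))))) .nd)))) (.rp 11 (.str 3 (.nv (.thr 18 30 (.thr 23 20 (.thr 48 33 (.thr 63 43 (.thr 53 58 (.dbl 37 5 15)))))) (.nv (.thr 18 30 (.thr 48 33 (.thr 60 41 (.thr 52 56 (.dbl 37 7 15))))) (.nv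 (.thr 23 20 (.thr 60 41 (.thr 63 43 (.thr 42 0 (.dbl 62 2 61))))) .nd)))) (.rp 10 (.thr 30 18 (.thr 23 20 (.str 60 (.nv (.thr 3 41 (.thr 63 43 (.thr 62 61 (.dbl 42 0 2)))) (.nv (.thr 15 45 (.thr 3 41 (.thr 37 48 (.dbl 7 11 52)))) (.rp 41 (.thr 15 45 (.thr 37 48 (.thr 7 52 (.thr 3 11 (.thr 63 43 (.thr 62 61 (.dbl 42 0 2))))))) (.rp 14 (.str 2 (.nv (.thr 3 41 (.thr 15 45 (.thr 7 11 (.dbl 37 48 52)))) (.nv (.thr 62 42 (.thr 63 61 (.dbl 3 41 43))) (.rp 41 (.thr 62 42 (.thr 63 61 (.thr 15 45 (.thr 37 48 (.thr 7 52 (.dbl 3 11 43)))))) (.rp 3 (.thr 62 42 (.thr 61 63 (.thr 41 1 (.thr 56 11 (.thr 48 52 (.dbl 15 37 45)))))) .nd))))) (.rp 3 (.thr 15 45 (.thr 48 37 (.thr 56 52 (.thr 41 11 (.thr 61 1 (.thr 62 63 (.thr 14 46 (.thr 12 13 (.thr 38 50 (.dbl 44 28 35)))))))))) (.rp 2 (.str 14 (.nv (.thr 15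 45 (.thr 37 48 (.thr 7 52 (.thr 39 55 (.dbl 38 36 50))))) (.nv (.thr 62 46 (.thr 63 61 (.dbl 3 41 43))) (.rp 50 (.str 34 (.nv (.thr 15 45 (.thr 12 13 (.thr 46 62 (.thr 42 38 (.dbl 63 0 29))))) (.nv (.thr 3 41 (.thr 15 45 (.thr 7 11 (.dbl 37 48 52)))) (.nv (.thr 62 46 (.thr 63 61 (.dbl 3 41 43))) .nd)))) (.rp 34 (.thr 50 38 (.thr 3 41 (.thr 63 43 (.dbl 62 46 61)))) (.rp 3 (.thr 15 45 (.thr 12 13 (.thr 28 44 (.thr 25 19 (.dbl 38 50 51))))) .nd)))))) .nd))))))))) (.rp 9 (.str 3 (.nv (.thr 18 30 (.thr 23 20 (.thr 63 43 (.thr 48 33 (.thr 58 53 (.dbl 42 0 10)))))) (.nv (.thr 18 30 (.thr 41 60 (.thr 11 56 (.thr 15 7 (.dbl 48 33 37))))) (.nv (.thr 23 20 (.thr 63 43 (.thr 0 42 (.thr 41 60 (.dbl 1 2 61))))) .nd)))) (.rp 8 (.str 3 (.nv (.thr 18 30 (.thr 23 20 (.thr 63 43 (.thr 48 33 (.thr 58 53 (.dbl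 42 0 10)))))) (.nv (.thr 20 23 (.thr 60 41 (.thr 0 40 (.thr 2 1 (.dbl 42 62 63))))) (.nv (.thr 30 18 (.thr 60 41 (.thr 15 45 (.thr 37 48 (.dbl 7 11 52))))) .nd)))) (.rp 7 (.thr 30 18 (.thr 23 20 (.str 42 (.nv (.thr 58 10 (.thr 62 2 (.thr 14 46 (.dbl 50 38 54)))) (.nv (.thr 63 0 (.thr 3 43 (.thr 60 41 (.dbl 62 2 61)))) (.rp 62 (.thr 63 0 (.thr 3 43 (.thr 58 10 (.thr 60 41 (.thr 15 45 (.dbl 48 37 53)))))) (.rp 5 (.str 4 (.nv (.thr 0 63 (.thr 12 8 (.thr 38 55 (.thr 34 46 (.dbl 51 17 25))))) (.nv (.thr 63 0 (.thr 3 43 (.thr 60 41 (.dbl 62 2 61)))) (.nv (.thr 38 55 (.thr 46 34 (.dbl 14 50 62))) .nd)))) (.rp 4 (.str 5 (.nv (.thr 63 0 (.thr 3 43 (.thr 60 41 (.dbl 62 2 61)))) (.nv (.thr 58 10 (.thr 62 2 (.thr 14 46 (.dbl 50 38 54)))) (.nv (.thr 10 58 (.dbl 0 15 63)) (.rp 52 (.str 36 (.nv (.thr 37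 53 (.thr 38 39 (.thr 14 50 (.dbl 46 34 62)))) (.nv (.thr 10 58 (.dbl 0 15 63)) .nd))) (.rp 36 (.str 52 (.nv (.thr 63 0 (.thr 3 43 (.thr 60 41 (.dbl 62 2 61)))) (.nv (.thr 53 37 (.thr 54 55 (.thr 58 10 (.dbl 62 2 50)))) (.nv (.thr 10 58 (.dbl 0 15 63)) .nd)))) .nd)))))) (.rp 2 (.thr 63 0 (.thr 3 43 (.thr 60 41 (.thr 62 61 (.thr 14 46 (.thr 58 10 (.dbl 50 38 54))))))) .nd))))))))) (.rp 5 (.thr 23 20 (.thr 30 18 (.str 3 (.nv (.thr 41 60 (.thr 1 61 (.thr 0 2 (.dbl 63 42 43)))) (.nv (.thr 60 41 (.thr 15 45 (.thr 37 48 (.dbl 7 11 52)))) (.rp 60 (.thr 63 43 (.thr 0 42 (.thr 1 2 (.thr 41 61 (.thr 11 56 (.thr 7 15 (.thr 55 39 (.thr 51 59 (.thr 38 4 (.dbl 35 19 44)))))))))) (.rp 41 (.thr 63 43 (.thr 42 0 (.thr 62 2 (.thr 14 46 (.thr 50 38 (.dbl 58 10 54)))))) (.rp 7 (.str 4 (.nv (.thr 38 55 (.thr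 14 50 (.thr 60 41 (.thr 62 46 (.dbl 63 43 61))))) (.nv (.thr 38 55 (.thr 14 50 (.thr 41 60 (.thr 1 61 (.thr 62 46 (.dbl 2 0 42)))))) (.nv (.thr 38 55 (.thr 14 50 (.thr 46 62 (.thr 63 43 (.dbl 42 0 34))))) (.nv (.thr 63 43 (.thr 0 42 (.thr 41 60 (.dbl 1 2 61)))) (.rp 2 (.thr 38 55 (.thr 63 43 (.thr 60 41 (.thr 62 61 (.dbl 14 46 50))))) .nd)))))) (.rp 4 (.str 7 (.nv (.thr 41 60 (.thr 1 61 (.thr 0 2 (.dbl 63 42 43)))) (.nv (.thr 15 11 (.dbl 37 48 52)) (.rp 52 (.str 36 (.nv (.thr 15 11 (.thr 39 55 (.dbl 37 38 48))) (.nv (.thr 41 60 (.thr 1 61 (.thr 0 2 (.dbl 63 42 43)))) (.nv (.thr 15 11 (.dbl 60 41 45)) .nd)))) (.rp 36 (.thr 52 37 (.thr 15 11 (.dbl 60 41 45))) .nd))))) .nd))))))))) (.rp 4 (.thr 30 18 (.str 60 (.nv (.thr 15 45 (.thr 20 23 (.thr 0 40 (.thr 5 10 (.dbl 37 48 53))))) (.nv (.thr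 3 41 (.thr 20 23 (.thr 0 40 (.thr 2 1 (.dbl 42 62 63))))) (.nv (.thr 3 41 (.thr 15 45 (.thr 37 48 (.dbl 7 11 52)))) (.rp 7 (.str 5 (.nv (.thr 20 23 (.thr 0 40 (.thr 10 15 (.dbl 42 58 63)))) (.nv (.thr 37 53 (.dbl 15 45 48)) (.rp 15 (.thr 23 20 (.thr 3 41 (.thr 63 43 (.thr 62 61 (.dbl 42 0 2))))) .nd)))) (.rp 5 (.str 7 (.nv (.thr 41 3 (.thr 52 37 (.dbl 56 11 48))) (.nv (.thr 37 52 (.dbl 15 45 48)) (.nv (.thr 15 45 (.dbl 3 11 41)) .nd)))) .nd))))))) (.rp 3 (.str 15 (.nv (.thr 20 23 (.thr 30 18 (.thr 60 45 (.thr 0 40 (.thr 5 10 (.dbl 37 48 53)))))) (.nv (.thr 20 23 (.thr 37 48 (.thr 52 7 (.thr 4 36 (.thr 53 5 (.dbl 55 38 54)))))) (.nv (.thr 30 18 (.thr 20 23 (.thr 60 45 (.thr 0 40 (.thr 10 5 (.dbl 42 58 63)))))) (.rp 63 (.thr 30 18 (.thr 23 20 (.thr 60 45 (.thr 48 37 (.thr 56 52 (.thr 41 11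 (.str 12 (.nv (.thr 28 44 (.thr 25 19 (.thr 51 38 (.dbl 57 9 54)))) (.nv (.thr 1 61 (.thr 13 14 (.thr 9 5 (.thr 25 57 (.dbl 24 27 36))))) (.nv (.thr 44 28 (.thr 38 35 (.dbl 14 13 50))) (.rp 36 (.str 4 (.nv (.thr 38 55 (.dbl 14 13 50)) (.nv (.thr 44 28 (.dbl 38 35 55)) (.rp 55 (.thr 14 13 (.thr 44 28 (.dbl 38 35 50))) (.rp 38 (.str 39 (.nv (.thr 0 8 (.thr 1 61 (.thr 13 14 (.dbl 5 9 10)))) (.nv (.thr 27 51 (.thr 25 24 (.dbl 28 19 44))) .nd))) .nd))))) (.rp 4 (.thr 36 24 (.thr 14 13 (.thr 38 50 (.dbl 44 28 35)))) .nd)))))))))))) (.rp 48 (.str 60 (.nv (.dbl 30 18 45) (.rp 45 (.thr 20 23 (.thr 0 40 (.thr 10 5 (.dbl 42 58 63)))) (.rp 33 (.thr 18 30 (.thr 20 23 (.thr 0 40 (.thr 10 5 (.dbl 42 58 63))))) (.rp 30 (.thr 20 23 (.thr 0 40 (.thr 10 5 (.dbl 42 58 63)))) (.rp 18 (.str 33 (.nv (.thr 45 30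 (.thr 41 37 (.thr 61 1 (.thr 63 62 (.thr 0 42 (.dbl 20 23 40)))))) (.nv (.thr 20 23 (.thr 0 40 (.thr 10 5 (.dbl 42 58 63)))) (.rp 63 (.thr 45 30 (.thr 41 37 (.thr 61 1 (.thr 29 13 (.thr 25 17 (.thr 27 24 (.thr 51 39 (.dbl 57 9 54)))))))) (.rp 42 (.thr 45 30 (.thr 37 41 (.thr 5 53 (.thr 20 23 (.dbl 0 10 40))))) (.rp 40 (.thr 45 30 (.thr 37 41 (.thr 53 5 (.thr 20 23 (.thr 52 7 (.thr 4 36 (.dbl 55 38 54))))))) (.rp 23 (.thr 45 30 (.thr 41 37 (.thr 61 1 (.thr 29 13 (.thr 25 17 (.thr 27 24 (.thr 51 39 (.dbl 57 9 54)))))))) (.rp 20 (.thr 45 30 (.thr 41 37 (.thr 61 1 (.thr 29 13 (.thr 25 17 (.thr 27 24 (.thr 51 39 (.dbl 57 9 54)))))))) (.rp 12 (.str 9 (.nv (.thr 20 23 (.thr 0 40 (.thr 10 5 (.dbl 42 58 63)))) (.nv (.thr 45 30 (.thr 41 37 (.thr 1 61 (.thr 25 57 (.dbl 17 29 49))))) (.rp 36 (.str 24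 (.nv (.thr 45 30 (.thr 41 37 (.dbl 25 27 57))) (.nv (.thr 20 23 (.thr 0 40 (.thr 10 5 (.dbl 42 58 63)))) (.nv (.thr 25 27 (.thr 41 57 (.dbl 45 30 37))) (.rp 27 (.thr 45 30 (.thr 41 37 (.thr 1 61 (.thr 25 57 (.dbl 17 29 49))))) .nd))))) (.rp 24 (.str 36 (.nv (.thr 45 30 (.thr 41 37 (.thr 1 61 (.thr 17 49 (.dbl 25 29 57))))) (.nv (.thr 20 23 (.thr 0 40 (.thr 5 10 (.thr 1 13 (.thr 61 41 (.dbl 63 42 62)))))) (.nv (.thr 45 30 (.thr 37 41 (.thr 52 7 (.dbl 20 4 23)))) (.rp 41 (.thr 20 23 (.thr 0 40 (.thr 10 5 (.dbl 42 58 63)))) .nd))))) .nd))))) (.rp 9 (.str 12 (.nv (.thr 13 14 (.thr 45 30 (.thr 41 37 (.dbl 61 1 29)))) (.nv (.thr 28 44 (.thr 25 19 (.thr 27 24 (.dbl 51 38 39)))) (.rp 28 (.thr 20 23 (.thr 0 40 (.thr 10 5 (.dbl 42 58 63)))) .nd)))) (.rp 0 (.thr 45 30 (.thr 37 41 (.thr 53 5 (.thr 20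 23 (.thr 52 7 (.thr 4 36 (.dbl 55 38 54))))))) .nd))))))))))) (.rp 12 (.str 9 (.nv (.dbl 30 18 45) (.rp 45 (.thr 20 23 (.thr 0 40 (.thr 10 5 (.dbl 42 58 63)))) (.rp 36 (.str 24 (.nv (.thr 20 23 (.thr 28 16 (.dbl 25 19 27))) (.nv (.dbl 30 18 45) (.rp 33 (.thr 18 30 (.thr 20 23 (.thr 28 16 (.dbl 25 19 27)))) (.rp 18 (.str 33 (.nv (.thr 45 30 (.thr 41 37 (.dbl 25 27 57))) (.nv (.thr 20 23 (.thr 0 40 (.thr 10 5 (.dbl 42 58 63)))) (.nv (.thr 25 27 (.thr 41 57 (.dbl 45 30 37))) (.rp 27 (.thr 45 30 (.thr 41 37 (.thr 1 61 (.thr 25 57 (.dbl 17 29 49))))) .nd))))) .nd))))) (.rp 33 (.thr 18 30 (.thr 20 23 (.thr 0 40 (.thr 10 5 (.dbl 42 58 63))))) (.rp 30 (.thr 20 23 (.thr 0 40 (.thr 10 5 (.dbl 42 58 63)))) (.rp 24 (.str 36 (.nv (.dbl 30 18 45) (.rp 45 (.thr 20 23 (.thr 0 40 (.thr 10 5 (.dbl 42 58 63))))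 (.rp 33 (.thr 18 30 (.thr 20 23 (.thr 0 40 (.thr 10 5 (.dbl 42 58 63))))) (.rp 30 (.thr 20 23 (.thr 0 40 (.thr 10 5 (.dbl 42 58 63)))) (.rp 18 (.str 33 (.nv (.thr 45 30 (.thr 41 37 (.thr 1 61 (.thr 17 49 (.dbl 25 29 57))))) (.nv (.thr 20 23 (.thr 0 40 (.thr 5 10 (.thr 1 13 (.thr 61 41 (.dbl 63 42 62)))))) (.nv (.thr 45 30 (.thr 37 41 (.thr 52 7 (.dbl 20 4 23)))) (.rp 41 (.thr 20 23 (.thr 0 40 (.thr 10 5 (.dbl 42 58 63)))) .nd))))) .nd)))))) (.rp 18 (.str 33 (.nv (.thr 20 23 (.thr 0 40 (.thr 10 5 (.dbl 42 58 63)))) (.nv (.thr 45 30 (.thr 41 37 (.thr 1 61 (.thr 25 57 (.dbl 17 29 49))))) (.rp 36 (.str 24 (.nv (.thr 45 30 (.thr 41 37 (.dbl 25 27 57))) (.nv (.thr 20 23 (.thr 0 40 (.thr 10 5 (.dbl 42 58 63)))) (.nv (.thr 25 27 (.thr 41 57 (.dbl 45 30 37))) (.rp 27 (.thr 45 30 (.thr 41 37 (.thr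 1 61 (.thr 25 57 (.dbl 17 29 49))))) .nd))))) (.rp 24 (.str 36 (.nv (.thr 45 30 (.thr 41 37 (.thr 1 61 (.thr 17 49 (.dbl 25 29 57))))) (.nv (.thr 20 23 (.thr 0 40 (.thr 5 10 (.thr 1 13 (.thr 61 41 (.dbl 63 42 62)))))) (.nv (.thr 45 30 (.thr 37 41 (.thr 52 7 (.dbl 20 4 23)))) (.rp 41 (.thr 20 23 (.thr 0 40 (.thr 10 5 (.dbl 42 58 63)))) .nd))))) .nd))))) .nd)))))))) (.rp 9 (.str 12 (.nv (.dbl 30 18 45) (.rp 45 (.thr 28 44 (.thr 14 13 (.thr 38 50 (.dbl 25 19 51)))) (.rp 33 (.thr 18 30 (.thr 28 44 (.thr 14 13 (.thr 38 50 (.dbl 25 19 51))))) (.rp 30 (.thr 28 44 (.thr 14 13 (.thr 38 50 (.dbl 25 19 51)))) (.rp 18 (.str 33 (.nv (.thr 13 14 (.thr 45 30 (.thr 41 37 (.dbl 61 1 29)))) (.nv (.thr 28 44 (.thr 25 19 (.thr 27 24 (.dbl 51 38 39)))) (.rp 28 (.thr 20 23 (.thr 0 40 (.thr 10 5 (.dbl 42 58 63))))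 .nd)))) .nd)))))) .nd)))))))) (.rp 43 (.thr 30 18 (.thr 60 45 (.thr 48 37 (.thr 56 52 (.thr 41 11 (.thr 61 1 (.thr 20 23 (.thr 63 62 (.dbl 0 40 42))))))))) (.rp 33 (.thr 18 30 (.thr 20 23 (.thr 37 48 (.thr 52 7 (.thr 4 36 (.thr 55 38 (.dbl 53 5 54))))))) (.rp 27 (.thr 30 18 (.thr 60 45 (.thr 48 37 (.thr 56 52 (.thr 41 11 (.thr 61 1 (.thr 63 62 (.thr 58 53 (.dbl 42 0 10))))))))) (.rp 23 (.thr 30 18 (.thr 60 45 (.thr 48 37 (.thr 56 52 (.thr 41 11 (.thr 61 1 (.thr 63 62 (.thr 58 53 (.dbl 42 0 10))))))))) (.rp 20 (.thr 30 18 (.thr 60 45 (.thr 48 37 (.thr 56 52 (.thr 41 11 (.thr 61 1 (.thr 63 62 (.thr 58 53 (.dbl 42 0 10))))))))) (.rp 19 (.thr 30 18 (.thr 60 45 (.thr 48 37 (.thr 56 52 (.thr 41 11 (.thr 61 1 (.thr 63 62 (.thr 58 53 (.dbl 42 0 10))))))))) (.rp 18 (.thr 48 37 (.str 12 (.nv (.thr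 20 23 (.thr 36 24 (.thr 4 52 (.thr 0 8 (.thr 10 5 (.dbl 42 58 63)))))) (.nv (.thr 14 13 (.thr 38 50 (.thr 4 55 (.thr 0 8 (.thr 10 5 (.dbl 42 58 63)))))) (.nv (.thr 24 36 (.thr 25 27 (.thr 14 13 (.dbl 38 50 51)))) .nd))))) (.rp 12 (.str 9 (.nv (.thr 20 23 (.thr 30 18 (.thr 48 37 (.thr 60 45 (.thr 56 52 (.thr 40 0 (.thr 8 24 (.dbl 11 10 41)))))))) (.nv (.thr 37 48 (.thr 5 53 (.thr 1 13 (.thr 10 0 (.thr 41 61 (.dbl 11 8 56)))))) (.nv (.thr 30 18 (.thr 20 23 (.thr 60 45 (.thr 0 40 (.thr 10 5 (.dbl 42 58 63)))))) (.rp 63 (.thr 30 18 (.thr 60 45 (.thr 48 37 (.thr 56 52 (.thr 41 11 (.thr 25 57 (.thr 24 27 (.thr 40 8 (.dbl 20 0 23))))))))) (.rp 48 (.str 0 (.nv (.thr 20 23 (.thr 60 40 (.dbl 30 18 45))) (.nv (.thr 10 5 (.dbl 42 58 63)) (.rp 63 (.thr 5 10 (.thr 1 13 (.thr 41 61 (.thr 25 57 (.thr 24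 27 (.thr 56 11 (.thr 40 8 (.dbl 20 23 60)))))))) (.rp 36 (.str 24 (.nv (.thr 18 30 (.thr 20 23 (.thr 28 16 (.dbl 25 19 27)))) (.nv (.thr 10 5 (.dbl 42 58 63)) (.rp 63 (.thr 25 27 (.thr 10 5 (.thr 8 11 (.dbl 42 58 59)))) (.rp 18 (.str 33 (.nv (.thr 25 27 (.thr 41 57 (.thr 1 61 (.dbl 17 29 49)))) (.nv (.thr 10 5 (.dbl 42 58 63)) .nd))) .nd))))) (.rp 33 (.thr 18 30 (.thr 10 5 (.dbl 42 58 63))) (.rp 24 (.str 36 (.nv (.thr 20 23 (.thr 60 40 (.dbl 30 18 45))) (.nv (.thr 10 5 (.dbl 42 58 63)) (.rp 63 (.thr 5 10 (.thr 1 13 (.thr 53 37 (.thr 61 41 (.thr 49 57 (.thr 30 18 (.thr 33 17 (.thr 60 45 (.dbl 20 23 40))))))))) (.rp 33 (.thr 18 30 (.thr 10 5 (.dbl 42 58 63))) (.rp 18 (.str 33 (.nv (.thr 5 10 (.thr 1 13 (.thr 41 61 (.dbl 37 45 53)))) (.nv (.thr 10 5 (.dbl 42 58 63)) (.rp 10 (.thr 20 23 (.thr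 52 4 (.thr 60 40 (.thr 45 30 (.dbl 37 7 41))))) (.rp 5 (.thr 20 23 (.thr 60 40 (.thr 45 30 (.thr 37 41 (.dbl 52 4 7))))) .nd))))) .nd)))))) (.rp 18 (.str 33 (.nv (.thr 5 10 (.thr 1 13 (.thr 41 61 (.dbl 37 45 53)))) (.nv (.thr 10 5 (.dbl 42 58 63)) (.rp 36 (.str 24 (.nv (.thr 25 27 (.thr 41 57 (.thr 1 61 (.dbl 17 29 49)))) (.nv (.thr 10 5 (.dbl 42 58 63)) .nd))) (.rp 24 (.str 36 (.nv (.thr 5 10 (.thr 1 13 (.thr 41 61 (.dbl 37 45 53)))) (.nv (.thr 10 5 (.dbl 42 58 63)) (.rp 10 (.thr 20 23 (.thr 52 4 (.thr 60 40 (.thr 45 30 (.dbl 37 7 41))))) (.rp 5 (.thr 20 23 (.thr 60 40 (.thr 45 30 (.thr 37 41 (.dbl 52 4 7))))) .nd))))) (.rp 10 (.thr 20 23 (.thr 60 40 (.thr 45 30 (.thr 41 37 (.thr 61 1 (.dbl 63 42 62)))))) (.rp 5 (.thr 20 23 (.thr 60 40 (.thr 45 30 (.thr 41 37 (.thr 61 1 (.dbl 63 42 62))))))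 .nd))))))) .nd)))))))) (.rp 45 (.thr 20 23 (.thr 37 48 (.thr 5 53 (.thr 0 10 (.thr 1 13 (.thr 63 42 (.thr 60 40 (.dbl 61 41 62)))))))) (.rp 33 (.thr 18 30 (.thr 37 48 (.thr 5 53 (.thr 10 0 (.thr 1 13 (.thr 41 61 (.dbl 11 8 56))))))) (.rp 18 (.str 25 (.nv (.thr 27 24 (.thr 41 57 (.thr 11 56 (.thr 8 10 (.dbl 59 42 43))))) (.nv (.thr 23 20 (.thr 27 24 (.thr 39 51 (.thr 7 55 (.dbl 37 48 52))))) (.nv (.thr 41 57 (.thr 1 61 (.thr 13 5 (.dbl 37 48 49)))) (.rp 48 (.str 33 (.nv (.thr 17 29 (.thr 41 57 (.thr 49 1 (.dbl 37 13 45)))) (.nv (.thr 41 57 (.thr 1 61 (.thr 13 5 (.dbl 37 45 49)))) (.nv (.thr 41 57 (.thr 1 61 (.dbl 17 29 49))) (.rp 57 (.thr 17 29 (.thr 1 49 (.thr 5 13 (.thr 0 10 (.thr 51 34 (.dbl 27 24 39)))))) (.rp 49 (.thr 29 17 (.thr 41 57 (.thr 45 37 (.dbl 61 1 13)))) (.rp 41 (.thr 17 29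 (.thr 1 49 (.thr 5 13 (.thr 0 10 (.thr 51 34 (.dbl 27 24 39)))))) (.rp 36 (.thr 24 27 (.thr 17 29 (.thr 1 49 (.dbl 41 57 61)))) (.rp 24 (.str 36 (.nv (.thr 17 29 (.thr 20 23 (.thr 49 1 (.thr 37 13 (.dbl 52 4 7))))) (.nv (.thr 20 23 (.thr 41 57 (.thr 37 45 (.dbl 52 4 7)))) (.nv (.thr 41 57 (.thr 1 61 (.dbl 17 29 49))) .nd)))) (.rp 1 (.thr 41 57 (.thr 37 45 (.thr 5 53 (.thr 11 56 (.dbl 10 0 8))))) .nd)))))))))) (.rp 33 (.thr 48 37 (.thr 27 24 (.thr 41 57 (.thr 11 56 (.thr 8 10 (.dbl 59 42 43)))))) .nd)))))) (.rp 10 (.thr 30 18 (.thr 45 60 (.thr 37 48 (.thr 33 41 (.thr 5 53 (.thr 13 1 (.thr 29 61 (.dbl 25 17 49)))))))) (.rp 0 (.thr 30 18 (.thr 60 45 (.thr 48 37 (.thr 56 52 (.thr 41 11 (.thr 57 25 (.thr 58 59 (.thr 63 53 (.dbl 61 1 62))))))))) .nd))))))))))) (.rp 9 (.str 12 (.nv (.thr 14 13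 (.thr 38 50 (.thr 4 55 (.thr 0 8 (.thr 42 63 (.dbl 10 5 58)))))) (.nv (.thr 20 23 (.thr 48 37 (.thr 24 36 (.thr 28 16 (.dbl 25 19 27))))) (.nv (.thr 13 14 (.thr 30 18 (.thr 45 60 (.thr 61 29 (.thr 41 1 (.dbl 37 33 48)))))) (.nv (.thr 14 13 (.thr 38 50 (.thr 48 37 (.thr 24 36 (.dbl 25 27 51))))) .nd))))) (.rp 5 (.thr 30 18 (.thr 20 23 (.thr 60 45 (.thr 0 40 (.thr 63 42 (.thr 61 62 (.thr 41 1 (.thr 56 11 (.dbl 48 37 52))))))))) .nd)))))))))))))))) (.rp 2 (.thr 23 20 (.str 3 (.nv (.thr 30 18 (.thr 60 41 (.thr 15 45 (.thr 37 48 (.dbl 7 11 52))))) (.nv (.thr 18 30 (.thr 48 33 (.thr 63 43 (.thr 58 53 (.dbl 42 0 10))))) (.rp 48 (.thr 30 18 (.thr 63 43 (.thr 42 0 (.thr 60 41 (.thr 62 61 (.thr 14 46 (.thr 50 38 (.dbl 58 10 54)))))))) (.rp 30 (.thr 63 43 (.thr 41 60 (.thr 11 56 (.thr 15 7 (.thr 48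 37 (.thr 58 53 (.dbl 42 0 10))))))) (.rp 18 (.thr 63 43 (.thr 41 60 (.thr 11 56 (.thr 15 7 (.thr 48 37 (.thr 58 53 (.dbl 42 0 10))))))) (.rp 14 (.str 10 (.nv (.thr 42 58 (.dbl 63 0 43)) (.rp 63 (.thr 18 30 (.thr 48 33 (.thr 15 37 (.thr 11 7 (.dbl 41 56 60))))) (.rp 58 (.thr 18 30 (.thr 63 43 (.thr 0 42 (.thr 15 5 (.dbl 48 33 37))))) (.rp 43 (.thr 18 30 (.thr 58 42 (.thr 48 33 (.thr 53 63 (.dbl 37 5 15))))) (.rp 42 (.thr 18 30 (.thr 63 43 (.thr 48 33 (.thr 53 58 (.dbl 37 5 15))))) (.rp 0 (.thr 42 58 (.thr 43 63 (.dbl 41 40 60))) .nd))))))) (.rp 10 (.str 14 (.nv (.thr 60 41 (.thr 63 43 (.thr 62 61 (.dbl 30 18 46)))) (.nv (.thr 38 50 (.thr 55 4 (.thr 7 39 (.thr 15 11 (.dbl 37 48 52))))) (.nv (.thr 30 18 (.thr 62 46 (.thr 63 43 (.dbl 60 41 61)))) (.rp 18 (.thr 41 60 (.thr 11 56 (.thr 7 15 (.thr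 55 39 (.dbl 38 4 50))))) .nd))))) .nd))))))))) (.rp 1 (.str 3 (.nv (.thr 18 30 (.thr 23 20 (.thr 48 33 (.thr 63 43 (.thr 53 58 (.dbl 37 5 15)))))) (.nv (.thr 18 30 (.thr 41 60 (.thr 11 56 (.thr 15 7 (.dbl 48 33 37))))) (.nv (.thr 23 20 (.thr 60 41 (.thr 63 43 (.thr 42 0 (.dbl 62 2 61))))) .nd)))) (.rp 0 (.str 48 (.nv (.thr 18 30 (.thr 3 33 (.thr 23 20 (.thr 37 15 (.thr 63 43 (.dbl 53 5 58)))))) (.nv (.thr 20 23 (.thr 37 15 (.thr 52 7 (.thr 4 36 (.thr 55 38 (.dbl 53 5 54)))))) (.nv (.thr 15 37 (.thr 30 18 (.thr 60 45 (.thr 56 52 (.dbl 41 3 11))))) (.rp 37 (.thr 18 30 (.thr 23 20 (.thr 3 33 (.thr 63 43 (.thr 58 53 (.thr 42 10 (.thr 2 62 (.thr 50 34 (.thr 51 49 (.thr 55 59 (.dbl 38 4 14))))))))))) (.rp 15 (.thr 18 30 (.thr 23 20 (.thr 3 33 (.thr 63 43 (.thr 58 53 (.thr 60 41 (.thr 62 61 (.dbl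 42 2 10)))))))) (.rp 3 (.thr 30 18 (.thr 20 23 (.thr 15 37 (.thr 60 45 (.thr 52 56 (.thr 4 36 (.thr 38 55 (.thr 14 50 (.thr 12 13 (.thr 25 51 (.dbl 28 19 44))))))))))) .nd))))))) .nd))))))))))))))))))))))))))))))))))))))))))))))))))))))))))))

theorem w234 : WinAt (69206016, 2147483712) :=
  chF (K := []) kn c234 69206016 2147483712 31
    [] (by decide +kernel) (by decide +kernel)

/-- A certificate. -/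
noncomputable def c235 : Ct := (.str 22 (.nv (.thr 20 23 (.thr 18 30 (.thr 28 24 (.dbl 19 17 25)))) (.rp 30 (.thr 20 23 (.thr 28 24 (.thr 19 25 (.str 3 (.nv (.thr 60 41 (.thr 0 40 (.thr 2 1 (.dbl 42 62 63)))) (.nv (.thr 18 17 (.thr 41 60 (.thr 11 56 (.thr 15 7 (.dbl 48 33 37))))) (.nv (.thr 17 18 (.thr 51 35 (.thr 60 41 (.dbl 0 34 40)))) (.rp 60 (.thr 18 17 (.thr 35 51 (.thr 48 33 (.thr 15 37 (.thr 11 7 (.thr 41 56 (.thr 1 61 (.thr 38 44 (.thr 50 14 (.dbl 2 0 34)))))))))) (.rp 41 (.thr 18 17 (.thr 48 33 (.thr 37 15 (.thr 52 7 (.thr 4 36 (.thr 55 38 (.dbl 53 5 54))))))) (.rp 40 (.thr 18 17 (.thr 48 33 (.thr 15 37 (.thr 11 7 (.dbl 41 56 60))))) .nd)))))))))) (.rp 28 (.thr 23 20 (.thr 30 18 (.str 3 (.nv (.thr 60 41 (.thr 15 45 (.thr 7 11 (.dbl 37 48 52)))) (.nv (.thr 63 43 (.thr 60 41 (.thr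 42 0 (.dbl 62 2 61)))) (.rp 60 (.thr 63 43 (.thr 0 42 (.thr 1 2 (.thr 41 61 (.thr 11 56 (.thr 7 15 (.thr 55 39 (.thr 51 59 (.thr 38 4 (.dbl 35 19 44)))))))))) (.rp 41 (.thr 63 43 (.thr 42 0 (.thr 62 2 (.thr 14 46 (.thr 50 38 (.dbl 58 10 54)))))) .nd))))))) (.rp 27 (.thr 18 30 (.thr 20 23 (.thr 19 17 (.dbl 28 24 25)))) (.rp 25 (.str 2 (.nv (.thr 18 30 (.thr 34 50 (.thr 42 62 (.thr 0 63 (.dbl 17 19 51))))) (.nv (.thr 18 30 (.thr 17 19 (.thr 34 50 (.thr 0 51 (.thr 3 1 (.thr 60 41 (.dbl 20 23 40))))))) (.nv (.thr 18 30 (.thr 17 19 (.thr 34 50 (.thr 42 62 (.dbl 0 51 63))))) (.nv (.thr 20 23 (.thr 42 62 (.thr 0 63 (.thr 3 1 (.dbl 60 40 41))))) (.rp 19 (.thr 42 62 (.thr 0 63 (.thr 3 1 (.thr 60 41 (.dbl 20 23 40))))) (.rp 0 (.thr 18 30 (.thr 23 20 (.thr 50 34 (.thr 38 14 (.thr 55 4 (.thr 62 42 (.thr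 54 58 (.thr 52 53 (.dbl 7 37 39))))))))) .nd))))))) (.rp 24 (.str 2 (.nv (.thr 18 30 (.thr 17 19 (.thr 34 50 (.thr 0 51 (.thr 3 1 (.thr 60 41 (.dbl 20 23 40))))))) (.nv (.thr 18 30 (.thr 17 19 (.thr 34 50 (.thr 42 62 (.dbl 0 51 63))))) (.nv (.thr 42 62 (.thr 0 63 (.thr 3 1 (.thr 60 41 (.dbl 20 23 40))))) (.rp 23 (.thr 18 30 (.thr 34 50 (.thr 42 62 (.thr 0 63 (.dbl 17 19 51))))) (.rp 0 (.thr 18 30 (.thr 23 20 (.thr 50 34 (.thr 38 14 (.thr 55 4 (.thr 62 42 (.thr 54 58 (.thr 52 53 (.dbl 7 37 39))))))))) .nd)))))) (.rp 23 (.thr 18 30 (.thr 19 17 (.thr 28 25 (.str 60 (.nv (.thr 3 41 (.thr 48 33 (.thr 37 15 (.dbl 52 7 56)))) (.nv (.thr 20 24 (.thr 0 40 (.thr 42 63 (.thr 2 62 (.dbl 3 1 41))))) (.nv (.thr 24 20 (.thr 12 44 (.thr 3 41 (.dbl 48 33 36)))) (.rp 41 (.thr 20 24 (.thr 0 40 (.thr 42 63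 (.thr 2 62 (.thr 3 1 (.thr 10 58 (.thr 15 5 (.dbl 48 33 37)))))))) (.rp 3 (.thr 20 24 (.thr 0 40 (.thr 63 42 (.thr 61 62 (.thr 41 1 (.thr 56 11 (.thr 48 52 (.thr 53 58 (.dbl 37 5 15))))))))) .nd))))))))) (.rp 20 (.str 3 (.nv (.thr 18 30 (.thr 17 19 (.thr 33 48 (.thr 1 49 (.dbl 41 60 61))))) (.nv (.thr 30 18 (.thr 60 41 (.thr 15 45 (.thr 37 48 (.dbl 7 11 52))))) (.rp 60 (.thr 18 30 (.thr 17 19 (.thr 33 48 (.thr 1 49 (.thr 0 2 (.thr 51 34 (.thr 63 42 (.thr 55 59 (.thr 38 4 (.dbl 25 12 29)))))))))) (.rp 48 (.thr 18 30 (.thr 19 17 (.thr 35 51 (.thr 41 60 (.thr 1 61 (.thr 38 44 (.thr 50 14 (.dbl 2 0 34)))))))) (.rp 41 (.thr 18 30 (.thr 17 19 (.thr 48 33 (.thr 37 15 (.thr 53 5 (.thr 63 58 (.thr 0 42 (.thr 2 1 (.dbl 34 50 51))))))))) (.rp 30 (.thr 41 60 (.thr 1 61 (.thr 11 56 (.thr 15 7 (.thr 48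 37 (.thr 18 33 (.thr 19 17 (.thr 35 51 (.thr 38 44 (.thr 50 14 (.dbl 2 0 34))))))))))) (.rp 18 (.thr 41 60 (.thr 1 61 (.thr 0 2 (.thr 63 42 (.thr 23 43 (.thr 11 56 (.thr 7 15 (.thr 55 39 (.thr 51 59 (.thr 38 4 (.dbl 35 19 44))))))))))) .nd)))))))) (.rp 19 (.thr 23 20 (.str 3 (.nv (.thr 18 30 (.thr 48 33 (.thr 63 43 (.thr 53 58 (.dbl 37 5 15))))) (.nv (.thr 18 30 (.thr 48 33 (.thr 60 41 (.thr 52 56 (.dbl 37 7 15))))) (.nv (.thr 60 41 (.thr 63 43 (.thr 42 0 (.dbl 62 2 61)))) .nd))))) (.rp 18 (.str 0 (.nv (.thr 20 23 (.thr 24 28 (.thr 40 60 (.thr 56 8 (.thr 41 11 (.dbl 42 43 63)))))) (.nv (.thr 23 20 (.thr 63 42 (.thr 3 43 (.thr 41 60 (.dbl 1 2 61))))) (.rp 63 (.thr 20 23 (.thr 60 40 (.thr 3 41 (.thr 2 1 (.thr 42 62 (.thr 10 58 (.thr 15 5 (.thr 7 11 (.dbl 37 48 52))))))))) (.rp 60 (.thr 20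 23 (.thr 24 28 (.thr 42 63 (.thr 10 58 (.thr 15 5 (.thr 48 37 (.thr 12 36 (.thr 14 13 (.thr 4 8 (.dbl 38 50 55)))))))))) (.rp 43 (.thr 20 23 (.thr 60 40 (.thr 3 41 (.thr 42 63 (.dbl 2 1 62))))) (.rp 42 (.thr 20 23 (.thr 60 40 (.thr 41 3 (.thr 61 1 (.thr 63 62 (.thr 56 11 (.thr 48 52 (.thr 53 58 (.dbl 37 5 15))))))))) (.rp 41 (.thr 20 23 (.thr 24 28 (.thr 40 60 (.thr 8 56 (.thr 42 63 (.dbl 25 27 59)))))) (.rp 23 (.thr 42 63 (.thr 2 62 (.thr 3 1 (.thr 10 58 (.thr 15 5 (.thr 7 11 (.dbl 37 48 52))))))) (.rp 20 (.thr 42 63 (.thr 2 62 (.thr 3 1 (.thr 10 58 (.thr 15 5 (.thr 7 11 (.dbl 37 48 52))))))) .nd)))))))))) (.rp 17 (.str 3 (.nv (.thr 18 30 (.thr 23 20 (.thr 48 33 (.thr 63 43 (.thr 53 58 (.dbl 37 5 15)))))) (.nv (.thr 20 23 (.thr 60 41 (.thr 0 40 (.thr 2 1 (.dbl 42 62 63))))) (.nv (.thr 30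 18 (.thr 60 41 (.thr 15 45 (.thr 37 48 (.dbl 7 11 52))))) .nd)))) .nd))))))))))))

theorem w235 : WinAt (69271552, 6442451008) :=
  chF (K := []) kn c235 69271552 6442451008 31
    [] (by decide +kernel) (by decide +kernel)

/-- A certificate. -/
noncomputable def c236 : Ct := (.str 0 (.nv (.thr 42 63 (.thr 10 58 (.thr 15 5 (.dbl 48 32 37)))) (.nv (.thr 48 32 (.thr 63 42 (.thr 37 15 (.dbl 53 5 58)))) (.rp 63 (.str 17 (.nv (.thr 25 29 (.thr 27 24 (.thr 48 32 (.thr 15 37 (.dbl 51 34 39))))) (.nv (.thr 25 29 (.thr 24 27 (.thr 28 20 (.dbl 19 18 22)))) (.rp 47 (.str 15 (.nv (.thr 25 29 (.thr 27 24 (.dbl 51 34 39))) (.nv (.dbl 48 32 37) .nd))) (.rp 46 (.thr 19 18 (.thr 48 32 (.thr 15 37 (.thr 51 34 (.thr 35 3 (.thr 27 39 (.dbl 25 24 29))))))) (.rp 30 (.thr 19 18 (.thr 25 29 (.thr 28 22 (.dbl 24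 20 27)))) (.rp 29 (.thr 19 18 (.thr 48 32 (.thr 51 34 (.thr 35 3 (.thr 50 49 (.thr 38 14 (.thr 4 55 (.dbl 12 8 25)))))))) (.rp 28 (.thr 19 18 (.thr 48 32 (.thr 15 37 (.thr 51 34 (.thr 35 3 (.thr 27 39 (.dbl 25 24 29))))))) (.rp 27 (.thr 25 29 (.thr 19 18 (.thr 28 22 (.thr 20 24 (.thr 60 40 (.thr 12 44 (.dbl 51 34 38))))))) (.rp 25 (.thr 18 19 (.thr 22 30 (.thr 34 51 (.thr 2 50 (.thr 3 1 (.thr 60 41 (.dbl 20 23 40))))))) (.rp 24 (.thr 25 29 (.thr 19 18 (.thr 48 32 (.thr 51 34 (.thr 35 3 (.thr 50 49 (.dbl 38 12 14))))))) (.rp 15 (.str 47 (.nv (.thr 25 29 (.thr 24 27 (.thr 28 20 (.dbl 19 18 22)))) (.nv (.thr 25 29 (.thr 51 34 (.thr 12 38 (.thr 8 4 (.thr 42 59 (.dbl 32 37 48)))))) (.nv (.thr 18 19 (.thr 32 48 (.thr 34 51 (.thr 42 37 (.thr 50 2 (.dbl 38 14 46)))))) (.nv (.thr 19 18 (.thr 25 29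 (.thr 28 22 (.dbl 24 20 27)))) (.rp 46 (.thr 18 19 (.thr 22 30 (.thr 34 51 (.thr 32 48 (.thr 42 37 (.dbl 2 50 62)))))) .nd)))))) (.rp 12 (.thr 18 19 (.thr 22 30 (.thr 34 51 (.thr 2 50 (.thr 3 1 (.thr 60 41 (.dbl 20 23 40))))))) .nd))))))))))))) (.rp 58 (.str 17 (.nv (.thr 18 19 (.thr 34 51 (.thr 2 50 (.thr 42 63 (.dbl 22 30 62))))) (.nv (.thr 51 34 (.thr 63 42 (.thr 55 59 (.thr 38 4 (.dbl 25 12 29))))) (.nv (.thr 25 29 (.thr 24 27 (.thr 28 20 (.dbl 19 18 22)))) .nd)))) (.rp 53 (.thr 48 32 (.thr 15 37 (.thr 10 5 (.dbl 42 58 63)))) (.rp 48 (.str 18 (.nv (.thr 17 19 (.thr 34 51 (.thr 50 2 (.thr 42 63 (.dbl 38 14 46))))) (.nv (.thr 19 17 (.thr 22 30 (.thr 28 25 (.dbl 20 23 24)))) (.rp 23 (.thr 22 30 (.thr 42 63 (.thr 2 62 (.thr 34 50 (.dbl 17 19 51))))) (.rp 19 (.thr 22 30 (.thr 23 20 (.thr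 63 42 (.thr 3 43 (.thr 1 2 (.dbl 41 60 61)))))) (.rp 17 (.thr 22 30 (.thr 20 23 (.thr 60 40 (.thr 3 41 (.thr 42 63 (.dbl 2 1 62)))))) .nd)))))) (.rp 42 (.str 17 (.nv (.thr 25 29 (.thr 48 32 (.thr 37 15 (.thr 49 13 (.dbl 51 34 50))))) (.nv (.thr 25 29 (.thr 24 27 (.thr 28 20 (.dbl 19 18 22)))) (.rp 30 (.thr 19 18 (.thr 25 29 (.thr 28 22 (.dbl 24 20 27)))) (.rp 29 (.thr 19 18 (.thr 48 32 (.thr 51 34 (.thr 35 3 (.thr 50 49 (.thr 38 14 (.thr 4 55 (.dbl 12 8 25)))))))) (.rp 28 (.thr 19 18 (.thr 48 32 (.thr 51 34 (.thr 35 3 (.thr 50 49 (.thr 38 14 (.dbl 25 12 29))))))) (.rp 25 (.thr 18 19 (.thr 22 30 (.thr 48 32 (.thr 37 15 (.thr 52 7 (.thr 60 56 (.dbl 20 23 40))))))) .nd))))))) (.rp 37 (.str 41 (.nv (.thr 1 61 (.thr 11 56 (.thr 42 63 (.thr 10 58 (.thr 9 8 (.dbl 5 13 15)))))) (.nv (.thr 48 32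 (.thr 56 11 (.thr 60 52 (.thr 20 40 (.dbl 22 3 23))))) (.nv (.thr 1 61 (.thr 3 2 (.thr 22 60 (.thr 23 20 (.dbl 63 42 43))))) (.rp 60 (.thr 56 11 (.thr 42 63 (.thr 58 10 (.thr 40 43 (.thr 8 24 (.dbl 59 25 57)))))) (.rp 42 (.thr 1 61 (.thr 3 2 (.thr 22 60 (.thr 18 30 (.thr 20 23 (.thr 28 24 (.dbl 19 17 25))))))) .nd)))))) (.rp 32 (.str 34 (.nv (.thr 17 51 (.thr 18 19 (.thr 22 30 (.thr 2 50 (.dbl 42 62 63))))) (.nv (.thr 42 63 (.thr 51 17 (.thr 38 46 (.thr 12 25 (.dbl 4 8 55))))) (.nv (.thr 17 51 (.thr 19 18 (.thr 25 29 (.thr 28 22 (.dbl 24 20 27))))) (.rp 51 (.thr 42 63 (.thr 38 46 (.thr 50 14 (.thr 2 18 (.thr 58 10 (.dbl 62 22 54)))))) (.rp 17 (.thr 42 63 (.thr 38 46 (.thr 50 14 (.thr 2 18 (.thr 58 10 (.dbl 62 22 54)))))) .nd)))))) (.rp 15 (.str 17 (.nv (.thr 63 42 (.thr 51 34 (.thr 55 59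 (.thr 38 4 (.dbl 25 12 29))))) (.nv (.thr 25 29 (.thr 24 27 (.thr 28 20 (.dbl 19 18 22)))) (.rp 63 (.str 47 (.nv (.thr 25 29 (.thr 24 27 (.thr 28 20 (.dbl 19 18 22)))) (.nv (.thr 25 29 (.thr 51 34 (.thr 12 38 (.thr 8 4 (.thr 42 59 (.dbl 32 37 48)))))) (.nv (.thr 18 19 (.thr 32 48 (.thr 34 51 (.thr 42 37 (.thr 50 2 (.dbl 38 14 46)))))) (.nv (.thr 19 18 (.thr 25 29 (.thr 28 22 (.dbl 24 20 27)))) (.rp 46 (.thr 18 19 (.thr 22 30 (.thr 34 51 (.thr 32 48 (.thr 42 37 (.dbl 2 50 62)))))) .nd)))))) (.rp 51 (.thr 25 29 (.thr 19 18 (.thr 28 22 (.dbl 24 20 27)))) (.rp 29 (.thr 51 34 (.thr 63 42 (.thr 55 59 (.thr 38 4 (.thr 50 14 (.dbl 48 32 49)))))) (.rp 25 (.thr 18 19 (.thr 22 30 (.thr 34 51 (.thr 2 50 (.dbl 42 62 63))))) .nd))))))) (.rp 5 (.str 4 (.nv (.thr 12 8 (.thr 38 55 (.thr 14 50 (.thr 15 13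 (.dbl 48 32 37))))) (.nv (.thr 12 8 (.thr 38 55 (.thr 25 51 (.thr 63 42 (.dbl 29 17 46))))) (.rp 55 (.thr 12 8 (.thr 48 32 (.thr 24 36 (.thr 25 27 (.thr 17 29 (.dbl 51 34 38)))))) (.rp 38 (.thr 12 8 (.thr 48 32 (.thr 24 36 (.thr 25 27 (.thr 29 17 (.dbl 63 42 46)))))) (.rp 12 (.thr 38 55 (.thr 50 14 (.thr 48 32 (.thr 51 49 (.thr 42 63 (.dbl 34 17 46)))))) (.rp 8 (.thr 38 55 (.thr 50 14 (.thr 48 32 (.thr 51 49 (.thr 25 12 (.dbl 17 29 34)))))) .nd))))))) .nd))))))))))))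

theorem w236 : WinAt (69271552, 10737418304) :=
  chF (K := []) kn c236 69271552 10737418304 31
    [] (by decide +kernel) (by decide +kernel)

/-- A certificate. -/
noncomputable def c237 : Ct := (.str 48 (.nv (.thr 37 15 (.thr 53 5 (.thr 63 58 (.dbl 0 32 42)))) (.nv (.thr 0 32 (.thr 15 37 (.thr 42 63 (.dbl 10 5 58)))) (.rp 63 (.str 18 (.nv (.thr 17 19 (.thr 33 3 (.thr 1 49 (.thr 41 61 (.dbl 37 15 45))))) (.nv (.thr 15 37 (.thr 3 33 (.thr 11 7 (.thr 41 56 (.dbl 22 30 60))))) (.nv (.thr 19 17 (.thr 22 30 (.thr 28 25 (.dbl 20 23 24)))) (.rp 15 (.str 47 (.nv (.thr 3 33 (.thr 22 30 (.thr 60 41 (.thr 52 56 (.thr 37 7 (.dbl 32 0 42)))))) (.nv (.thr 17 19 (.thr 32 0 (.thr 33 3 (.thr 1 49 (.thr 37 42 (.dbl 41 45 61)))))) (.nv (.thr 19 17 (.thr 22 30 (.thr 28 25 (.dbl 20 23 24)))) (.rp 45 (.thr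 17 19 (.thr 25 29 (.thr 33 3 (.thr 32 0 (.thr 37 42 (.dbl 49 1 13)))))) (.rp 0 (.thr 22 30 (.thr 20 23 (.thr 28 24 (.dbl 19 17 25)))) .nd)))))) .nd))))) (.rp 58 (.str 18 (.nv (.thr 3 33 (.thr 15 37 (.thr 11 7 (.thr 41 56 (.thr 1 61 (.dbl 0 2 32)))))) (.nv (.thr 22 30 (.thr 20 23 (.thr 28 24 (.dbl 19 17 25)))) (.rp 22 (.thr 17 19 (.thr 25 29 (.thr 33 3 (.thr 49 1 (.dbl 37 13 15))))) .nd)))) (.rp 42 (.str 38 (.nv (.thr 50 14 (.thr 51 49 (.thr 12 25 (.thr 36 24 (.dbl 37 15 39))))) (.nv (.thr 4 55 (.thr 37 15 (.thr 36 39 (.thr 20 52 (.dbl 24 12 28))))) (.nv (.thr 4 55 (.thr 14 50 (.thr 15 37 (.thr 12 13 (.dbl 0 8 32))))) (.rp 37 (.thr 50 14 (.thr 51 49 (.thr 25 12 (.thr 17 29 (.thr 24 27 (.thr 28 20 (.dbl 19 18 22))))))) (.rp 15 (.thr 0 32 (.thr 50 14 (.thr 4 55 (.thr 12 8 (.dbl 51 25 49)))))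 (.rp 12 (.thr 50 14 (.thr 55 4 (.thr 51 49 (.thr 63 59 (.thr 53 58 (.dbl 37 5 15)))))) .nd))))))) (.rp 37 (.str 18 (.nv (.thr 0 32 (.thr 22 30 (.thr 42 63 (.thr 2 62 (.dbl 3 1 33))))) (.nv (.thr 22 30 (.thr 20 23 (.thr 28 24 (.dbl 19 17 25)))) (.rp 30 (.thr 19 17 (.thr 0 32 (.thr 3 33 (.thr 35 51 (.thr 1 2 (.thr 41 61 (.thr 56 11 (.dbl 60 22 52)))))))) (.rp 29 (.thr 19 17 (.thr 22 30 (.thr 28 25 (.dbl 20 23 24)))) (.rp 28 (.thr 19 17 (.thr 0 32 (.thr 3 33 (.thr 35 51 (.thr 1 2 (.thr 41 61 (.dbl 22 30 60))))))) (.rp 22 (.thr 17 19 (.thr 25 29 (.thr 0 32 (.thr 42 63 (.thr 8 59 (.thr 12 4 (.dbl 24 27 36))))))) .nd))))))) (.rp 32 (.str 33 (.nv (.thr 37 15 (.thr 5 53 (.thr 41 45 (.thr 1 61 (.thr 49 17 (.dbl 13 9 25)))))) (.nv (.thr 3 18 (.thr 37 15 (.thr 41 45 (.thr 60 22 (.dbl 56 11 52)))))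 (.nv (.thr 18 3 (.thr 19 17 (.thr 22 30 (.thr 28 25 (.dbl 20 23 24))))) .nd)))) (.rp 15 (.str 18 (.nv (.thr 0 32 (.thr 22 30 (.thr 23 20 (.thr 63 42 (.dbl 3 33 43))))) (.nv (.thr 22 30 (.thr 20 23 (.thr 28 24 (.dbl 19 17 25)))) (.rp 63 (.str 47 (.nv (.thr 3 33 (.thr 22 30 (.thr 60 41 (.thr 52 56 (.thr 37 7 (.dbl 32 0 42)))))) (.nv (.thr 17 19 (.thr 32 0 (.thr 33 3 (.thr 1 49 (.thr 37 42 (.dbl 41 45 61)))))) (.nv (.thr 19 17 (.thr 22 30 (.thr 28 25 (.dbl 20 23 24)))) (.rp 45 (.thr 17 19 (.thr 25 29 (.thr 33 3 (.thr 32 0 (.thr 37 42 (.dbl 49 1 13)))))) (.rp 0 (.thr 22 30 (.thr 20 23 (.thr 28 24 (.dbl 19 17 25)))) .nd)))))) (.rp 60 (.thr 19 17 (.thr 0 32 (.thr 63 42 (.thr 3 33 (.thr 35 51 (.thr 23 43 (.dbl 22 20 30))))))) (.rp 47 (.str 63 (.nv (.thr 22 30 (.thr 23 20 (.dbl 3 33 43))) (.nv (.dbl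 0 32 42) .nd))) (.rp 45 (.thr 19 17 (.thr 0 32 (.thr 63 42 (.thr 3 33 (.thr 35 51 (.thr 23 43 (.dbl 22 20 30))))))) (.rp 30 (.thr 19 17 (.thr 0 32 (.thr 3 33 (.thr 35 51 (.thr 1 2 (.thr 41 61 (.thr 56 11 (.dbl 60 22 52)))))))) (.rp 29 (.thr 19 17 (.thr 22 30 (.thr 28 25 (.dbl 20 23 24)))) (.rp 28 (.thr 19 17 (.thr 0 32 (.thr 63 42 (.thr 3 33 (.thr 35 51 (.thr 23 43 (.dbl 22 20 30))))))) (.rp 23 (.thr 22 30 (.thr 19 17 (.thr 28 25 (.thr 24 20 (.thr 12 36 (.thr 60 44 (.dbl 3 33 41))))))) (.rp 22 (.thr 17 19 (.thr 25 29 (.thr 0 32 (.thr 63 42 (.thr 53 58 (.thr 33 3 (.thr 49 1 (.dbl 37 5 13)))))))) (.rp 20 (.thr 22 30 (.thr 19 17 (.thr 0 32 (.thr 3 33 (.thr 35 51 (.thr 1 2 (.dbl 41 60 61))))))) .nd))))))))))))) (.rp 10 (.thr 0 32 (.thr 63 42 (.thr 53 58 (.dbl 37 5 15)))) (.rp 5 (.str 4 (.nv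 (.thr 37 15 (.thr 38 55 (.thr 36 39 (.thr 20 52 (.dbl 24 12 28))))) (.nv (.thr 0 32 (.thr 12 8 (.thr 24 36 (.thr 25 27 (.thr 29 17 (.dbl 63 42 46)))))) (.nv (.thr 38 55 (.thr 50 14 (.thr 51 49 (.thr 12 25 (.dbl 0 8 32))))) (.rp 12 (.thr 38 55 (.thr 37 15 (.thr 36 39 (.thr 52 20 (.thr 56 60 (.thr 41 11 (.thr 44 35 (.dbl 32 0 40)))))))) (.rp 0 (.thr 38 55 (.thr 50 14 (.thr 51 49 (.thr 25 12 (.thr 27 24 (.dbl 15 37 39)))))) .nd)))))) (.rp 0 (.str 17 (.nv (.thr 15 37 (.thr 25 29 (.thr 27 24 (.thr 51 39 (.thr 38 12 (.dbl 50 14 49)))))) (.nv (.thr 18 19 (.thr 33 3 (.thr 1 49 (.thr 37 15 (.dbl 41 45 61))))) (.nv (.thr 19 18 (.thr 25 29 (.thr 24 27 (.dbl 28 20 22)))) (.rp 27 (.thr 25 29 (.thr 37 15 (.thr 49 13 (.thr 33 1 (.dbl 18 3 19))))) .nd))))) .nd))))))))))))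

theorem w237 : WinAt (69271552, 19327352896) :=
  chF (K := []) kn c237 69271552 19327352896 31
    [] (by decide +kernel) (by decide +kernel)

/-- A certificate. -/
noncomputable def c238 : Ct := (.str 0 (.nv (.thr 42 63 (.thr 10 58 (.thr 15 5 (.dbl 48 32 37)))) (.nv (.thr 48 32 (.thr 63 42 (.thr 37 15 (.dbl 53 5 58)))) (.rp 63 (.str 20 (.nv (.thr 22 23 (.thr 30 18 (.thr 48 32 (.thr 15 37 (.dbl 60 40 45))))) (.nv (.thr 22 23 (.thr 18 30 (.thr 19 17 (.dbl 28 24 25)))) (.rp 47 (.str 15 (.nv (.thr 22 23 (.thr 30 18 (.dbl 60 40 45))) (.nv (.dbl 48 32 37) .nd))) (.rp 43 (.thr 28 24 (.thr 48 32 (.thr 15 37 (.thr 60 40 (.thr 44 12 (.thr 30 45 (.dbl 22 18 23))))))) (.rp 30 (.thr 22 23 (.thr 28 24 (.thr 19 25 (.thr 17 18 (.thr 51 34 (.thr 3 35 (.dbl 60 40 41))))))) (.rp 27 (.thr 28 24 (.thr 22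 23 (.thr 19 25 (.dbl 18 17 30)))) (.rp 23 (.thr 28 24 (.thr 48 32 (.thr 60 40 (.thr 44 12 (.thr 56 52 (.thr 41 11 (.thr 1 61 (.dbl 3 2 22)))))))) (.rp 22 (.thr 24 28 (.thr 25 27 (.thr 48 32 (.thr 15 37 (.thr 10 5 (.thr 40 60 (.thr 8 56 (.dbl 42 58 59)))))))) (.rp 19 (.thr 28 24 (.thr 48 32 (.thr 15 37 (.thr 60 40 (.thr 44 12 (.thr 30 45 (.dbl 22 18 23))))))) (.rp 18 (.thr 22 23 (.thr 28 24 (.thr 48 32 (.thr 60 40 (.thr 44 12 (.thr 56 52 (.dbl 41 3 11))))))) (.rp 15 (.str 47 (.nv (.thr 22 23 (.thr 60 40 (.thr 3 41 (.thr 2 1 (.thr 42 62 (.dbl 32 37 48)))))) (.nv (.thr 24 28 (.thr 32 48 (.thr 40 60 (.thr 42 37 (.thr 56 8 (.dbl 41 11 43)))))) (.nv (.thr 28 24 (.thr 22 23 (.thr 19 25 (.dbl 18 17 30)))) (.rp 48 (.thr 22 23 (.thr 18 30 (.thr 19 17 (.dbl 28 24 25)))) (.rp 43 (.thr 24 28 (.thr 25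 27 (.thr 40 60 (.thr 32 48 (.thr 42 37 (.dbl 8 56 59)))))) .nd)))))) (.rp 3 (.thr 24 28 (.thr 25 27 (.thr 40 60 (.thr 8 56 (.thr 12 4 (.thr 51 38 (.dbl 17 29 34))))))) .nd))))))))))))) (.rp 58 (.str 22 (.nv (.thr 18 30 (.thr 42 63 (.thr 2 62 (.thr 3 1 (.dbl 48 32 33))))) (.nv (.thr 23 20 (.thr 63 42 (.thr 3 43 (.thr 1 2 (.dbl 41 60 61))))) (.nv (.thr 18 30 (.thr 19 17 (.thr 20 23 (.dbl 28 24 25)))) .nd)))) (.rp 53 (.thr 48 32 (.thr 15 37 (.thr 10 5 (.dbl 42 58 63)))) (.rp 48 (.str 24 (.nv (.thr 20 28 (.thr 40 60 (.thr 56 8 (.thr 41 11 (.dbl 42 43 63))))) (.nv (.thr 28 20 (.thr 25 27 (.thr 17 29 (.dbl 19 18 22)))) (.rp 29 (.thr 25 27 (.thr 42 63 (.thr 8 59 (.thr 40 56 (.dbl 20 28 60))))) (.rp 28 (.thr 25 27 (.thr 29 17 (.thr 63 42 (.thr 12 46 (.thr 4 8 (.dbl 38 51 55)))))) (.rp 20 (.thr 25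 27 (.thr 17 29 (.thr 51 34 (.thr 12 38 (.thr 42 63 (.dbl 8 4 59)))))) .nd)))))) (.rp 42 (.str 20 (.nv (.thr 22 23 (.thr 48 32 (.thr 37 15 (.thr 52 7 (.dbl 60 40 56))))) (.nv (.thr 22 23 (.thr 18 30 (.thr 19 17 (.dbl 28 24 25)))) (.rp 27 (.thr 28 24 (.thr 22 23 (.thr 19 25 (.dbl 18 17 30)))) (.rp 23 (.thr 28 24 (.thr 48 32 (.thr 60 40 (.thr 44 12 (.thr 56 52 (.thr 41 11 (.thr 1 61 (.dbl 3 2 22)))))))) (.rp 22 (.thr 24 28 (.thr 25 27 (.thr 48 32 (.thr 37 15 (.thr 49 13 (.thr 51 50 (.dbl 17 29 34))))))) (.rp 19 (.thr 28 24 (.thr 48 32 (.thr 60 40 (.thr 44 12 (.thr 56 52 (.thr 41 11 (.dbl 22 3 23))))))) .nd))))))) (.rp 37 (.str 38 (.nv (.thr 48 32 (.thr 50 14 (.thr 51 49 (.thr 55 4 (.dbl 63 42 59))))) (.nv (.thr 48 32 (.thr 50 14 (.thr 51 49 (.thr 17 34 (.dbl 25 12 29))))) (.nv (.thr 4 55 (.thr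 12 8 (.thr 25 51 (.thr 29 17 (.dbl 63 42 46))))) (.rp 51 (.thr 4 55 (.thr 14 50 (.thr 12 8 (.thr 15 13 (.thr 10 5 (.dbl 42 58 63)))))) (.rp 42 (.thr 4 55 (.thr 12 8 (.thr 25 51 (.thr 24 27 (.thr 17 29 (.thr 19 18 (.dbl 28 20 22))))))) (.rp 25 (.thr 48 32 (.thr 50 14 (.thr 42 63 (.thr 34 46 (.dbl 51 17 49))))) .nd))))))) (.rp 32 (.str 40 (.nv (.thr 42 63 (.thr 60 20 (.thr 41 43 (.thr 3 22 (.dbl 1 2 61))))) (.nv (.thr 20 60 (.thr 28 24 (.thr 22 23 (.thr 19 25 (.dbl 18 17 30))))) (.rp 60 (.thr 42 63 (.thr 41 43 (.thr 56 11 (.thr 8 24 (.thr 58 10 (.dbl 59 25 57)))))) (.rp 22 (.thr 20 60 (.thr 24 28 (.thr 25 27 (.thr 8 56 (.dbl 42 59 63))))) (.rp 20 (.thr 42 63 (.thr 41 43 (.thr 56 11 (.thr 8 24 (.thr 58 10 (.dbl 59 25 57)))))) .nd)))))) (.rp 15 (.str 20 (.nv (.thr 24 28 (.thr 40 60 (.thr 56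 8 (.thr 41 11 (.dbl 42 43 63))))) (.nv (.thr 63 42 (.thr 60 40 (.thr 61 62 (.thr 41 1 (.dbl 22 3 23))))) (.nv (.thr 28 24 (.thr 22 23 (.thr 19 25 (.dbl 18 17 30)))) (.rp 63 (.str 47 (.nv (.thr 22 23 (.thr 60 40 (.thr 3 41 (.thr 2 1 (.thr 42 62 (.dbl 32 37 48)))))) (.nv (.thr 24 28 (.thr 32 48 (.thr 40 60 (.thr 42 37 (.thr 56 8 (.dbl 41 11 43)))))) (.nv (.thr 28 24 (.thr 22 23 (.thr 19 25 (.dbl 18 17 30)))) (.rp 48 (.thr 22 23 (.thr 18 30 (.thr 19 17 (.dbl 28 24 25)))) (.rp 43 (.thr 24 28 (.thr 25 27 (.thr 40 60 (.thr 32 48 (.thr 42 37 (.dbl 8 56 59)))))) .nd)))))) .nd))))) (.rp 5 (.str 4 (.nv (.thr 12 8 (.thr 38 55 (.thr 14 50 (.thr 15 13 (.dbl 48 32 37))))) (.nv (.thr 12 8 (.thr 38 55 (.thr 25 51 (.thr 63 42 (.dbl 29 17 46))))) (.rp 55 (.thr 8 12 (.thr 42 63 (.thr 59 25 (.thr 58 10 (.thr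 56 57 (.thr 41 11 (.dbl 40 24 43))))))) (.rp 38 (.thr 8 12 (.thr 42 63 (.thr 25 59 (.thr 24 27 (.thr 20 28 (.dbl 40 56 60)))))) (.rp 12 (.thr 38 55 (.thr 50 14 (.thr 48 32 (.thr 51 49 (.thr 34 17 (.dbl 42 46 63)))))) (.rp 8 (.thr 38 55 (.thr 50 14 (.thr 48 32 (.thr 51 49 (.thr 25 12 (.dbl 17 29 34)))))) .nd))))))) .nd))))))))))))

theorem w238 : WinAt (69271552, 70866960448) :=
  chF (K := []) kn c238 69271552 70866960448 31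
    [] (by decide +kernel) (by decide +kernel)

/-- A certificate. -/
noncomputable def c239 : Ct := (.str 22 (.nv (.thr 23 20 (.thr 30 18 (.thr 19 27 (.dbl 28 25 29)))) (.rp 30 (.str 63 (.nv (.thr 23 20 (.thr 3 43 (.thr 41 60 (.thr 1 61 (.dbl 0 2 42))))) (.nv (.thr 15 47 (.thr 23 20 (.thr 3 43 (.thr 7 11 (.thr 27 19 (.dbl 39 51 55)))))) (.nv (.thr 20 23 (.thr 0 42 (.thr 60 40 (.thr 41 3 (.dbl 61 1 62))))) (.rp 42 (.thr 23 20 (.thr 3 43 (.thr 41 60 (.thr 11 56 (.dbl 15 7 47))))) (.rp 23 (.thr 15 47 (.thr 42 0 (.thr 62 2 (.thr 60 61 (.thr 3 41 (.thr 11 7 (.thr 10 58 (.thr 8 9 (.thr 25 59 (.thr 29 17 (.thr 12 46 (.dbl 28 19 44)))))))))))) (.rp 20 (.thr 15 47 (.thr 42 0 (.thr 62 2 (.thr 60 61 (.thr 3 41 (.thr 7 11 (.thr 23 43 (.thr 27 19 (.dbl 39 51 55))))))))) (.rp 3 (.thr 23 20 (.thr 27 19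 (.thr 15 47 (.thr 51 39 (.thr 55 59 (.thr 38 4 (.dbl 25 12 24))))))) .nd)))))))) (.rp 29 (.str 60 (.nv (.thr 20 23 (.thr 30 18 (.thr 0 40 (.thr 63 42 (.dbl 15 45 47))))) (.nv (.thr 30 18 (.thr 15 45 (.thr 41 3 (.thr 63 47 (.dbl 61 1 62))))) (.nv (.thr 3 41 (.thr 20 23 (.thr 0 40 (.thr 2 1 (.dbl 42 62 63))))) (.rp 63 (.thr 20 23 (.thr 30 18 (.thr 15 45 (.thr 0 40 (.thr 10 5 (.thr 42 58 (.thr 2 62 (.dbl 3 1 41)))))))) (.rp 45 (.thr 20 23 (.thr 0 40 (.thr 63 42 (.thr 61 62 (.dbl 41 1 3))))) (.rp 42 (.thr 30 18 (.thr 15 45 (.thr 41 3 (.thr 61 1 (.dbl 63 47 62))))) (.rp 41 (.thr 20 23 (.thr 30 18 (.thr 0 40 (.thr 42 63 (.thr 10 58 (.dbl 15 5 45)))))) .nd)))))))) (.rp 28 (.thr 20 23 (.str 60 (.nv (.thr 30 18 (.thr 15 45 (.thr 41 3 (.thr 61 1 (.dbl 63 47 62))))) (.nv (.thr 30 18 (.thr 15 45 (.thr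 0 40 (.dbl 63 42 47)))) (.nv (.thr 0 40 (.thr 42 63 (.thr 2 62 (.dbl 3 1 41)))) (.rp 63 (.thr 30 18 (.thr 15 45 (.thr 0 40 (.thr 10 5 (.thr 42 58 (.thr 2 62 (.dbl 3 1 41))))))) (.rp 41 (.thr 30 18 (.thr 0 40 (.thr 42 63 (.thr 10 58 (.dbl 15 5 45))))) (.rp 0 (.thr 30 18 (.thr 15 45 (.thr 63 47 (.thr 61 62 (.dbl 41 1 3))))) .nd)))))))) (.rp 27 (.str 62 (.nv (.thr 23 20 (.thr 42 2 (.thr 63 0 (.thr 3 43 (.dbl 60 41 61))))) (.nv (.thr 30 18 (.thr 14 46 (.thr 42 2 (.thr 58 10 (.dbl 50 38 54))))) (.rp 42 (.thr 30 18 (.thr 29 28 (.thr 46 14 (.thr 63 12 (.thr 60 61 (.dbl 15 45 47)))))) (.rp 14 (.thr 30 18 (.thr 42 2 (.thr 10 58 (.thr 63 0 (.thr 60 61 (.dbl 15 45 47)))))) (.rp 10 (.thr 30 18 (.thr 14 46 (.thr 42 2 (.thr 63 0 (.thr 60 61 (.dbl 15 45 47)))))) (.rp 2 (.thr 30 18 (.thr 14 46 (.thr 50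 38 (.thr 58 54 (.thr 42 10 (.thr 63 0 (.thr 60 61 (.dbl 15 45 47)))))))) .nd))))))) (.rp 25 (.thr 18 30 (.str 3 (.nv (.thr 23 20 (.thr 27 19 (.thr 63 43 (.thr 15 47 (.thr 7 11 (.dbl 39 51 55)))))) (.nv (.thr 20 23 (.thr 60 41 (.thr 0 40 (.thr 42 63 (.dbl 2 1 62))))) (.rp 63 (.thr 23 20 (.thr 19 27 (.thr 35 51 (.thr 33 48 (.thr 41 60 (.thr 38 44 (.thr 50 14 (.dbl 34 2 32)))))))) (.rp 49 (.str 13 (.nv (.thr 23 20 (.thr 27 19 (.thr 63 43 (.thr 15 47 (.thr 7 11 (.dbl 39 51 55)))))) (.nv (.thr 20 23 (.thr 60 41 (.thr 0 40 (.thr 42 63 (.dbl 2 1 62))))) (.rp 63 (.thr 20 23 (.thr 33 48 (.thr 60 41 (.thr 0 40 (.thr 2 1 (.thr 34 50 (.thr 51 17 (.dbl 35 19 32)))))))) (.rp 42 (.thr 23 20 (.thr 27 19 (.thr 41 60 (.thr 11 56 (.dbl 43 59 63))))) (.rp 23 (.thr 41 60 (.thr 1 61 (.thr 0 2 (.thr 5 9 (.thr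 11 56 (.dbl 15 7 10)))))) (.rp 20 (.thr 41 60 (.thr 1 61 (.thr 0 2 (.thr 5 9 (.thr 11 56 (.dbl 15 7 10)))))) .nd))))))) (.rp 42 (.thr 23 20 (.thr 27 19 (.thr 43 63 (.thr 41 60 (.dbl 11 56 59))))) (.rp 23 (.thr 41 60 (.thr 11 56 (.thr 15 7 (.thr 63 47 (.thr 1 61 (.dbl 0 2 42)))))) (.rp 20 (.thr 41 60 (.thr 11 56 (.thr 15 7 (.thr 63 47 (.thr 43 23 (.dbl 42 0 40)))))) (.rp 13 (.str 49 (.nv (.thr 23 20 (.thr 19 27 (.thr 51 35 (.dbl 48 33 50)))) (.nv (.thr 23 20 (.thr 27 19 (.thr 43 63 (.thr 11 59 (.dbl 41 56 60))))) (.nv (.thr 33 48 (.thr 1 17 (.dbl 41 60 61))) .nd)))) .nd)))))))))) (.rp 24 (.thr 30 18 (.thr 23 20 (.thr 28 29 (.dbl 19 25 27)))) (.rp 23 (.str 62 (.nv (.thr 42 2 (.thr 63 0 (.thr 15 47 (.thr 60 61 (.dbl 30 18 45))))) (.nv (.thr 30 18 (.thr 14 46 (.thr 42 2 (.thr 58 10 (.dbl 50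 38 54))))) (.rp 42 (.thr 30 18 (.thr 29 28 (.thr 46 14 (.thr 63 12 (.thr 60 61 (.dbl 15 45 47)))))) (.rp 30 (.thr 42 2 (.thr 10 58 (.thr 63 0 (.thr 60 61 (.thr 15 47 (.thr 3 41 (.thr 11 7 (.thr 8 9 (.thr 25 59 (.thr 28 19 (.thr 12 44 (.dbl 29 17 46)))))))))))) (.rp 18 (.thr 42 2 (.thr 63 0 (.thr 60 61 (.thr 15 47 (.thr 30 45 (.thr 29 28 (.dbl 46 12 14))))))) (.rp 14 (.thr 30 18 (.thr 42 2 (.thr 10 58 (.thr 63 0 (.thr 60 61 (.dbl 15 45 47)))))) (.rp 10 (.thr 30 18 (.thr 14 46 (.thr 42 2 (.thr 63 0 (.thr 60 61 (.dbl 15 45 47)))))) (.rp 2 (.thr 30 18 (.thr 14 46 (.thr 50 38 (.thr 58 54 (.thr 42 10 (.thr 63 0 (.thr 60 61 (.dbl 15 45 47)))))))) .nd))))))))) (.rp 20 (.thr 30 18 (.thr 28 29 (.str 63 (.nv (.thr 42 0 (.thr 62 2 (.thr 14 46 (.thr 50 38 (.dbl 58 10 54))))) (.nv (.thr 19 25 (.thr 15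 47 (.thr 23 27 (.thr 3 43 (.thr 11 7 (.dbl 41 56 60)))))) (.nv (.thr 15 47 (.thr 60 45 (.thr 61 62 (.dbl 41 1 3)))) (.rp 60 (.thr 19 25 (.thr 23 27 (.thr 15 47 (.thr 3 43 (.thr 11 7 (.thr 41 56 (.thr 1 61 (.dbl 0 2 42)))))))) (.rp 42 (.thr 19 25 (.thr 23 27 (.thr 3 43 (.thr 41 60 (.thr 11 56 (.dbl 15 7 47)))))) (.rp 32 (.thr 19 25 (.thr 23 27 (.thr 3 43 (.thr 60 41 (.dbl 15 45 47))))) (.rp 19 (.str 17 (.nv (.thr 15 47 (.thr 42 0 (.thr 60 45 (.dbl 62 2 61)))) (.nv (.thr 42 0 (.thr 62 2 (.thr 14 46 (.thr 50 38 (.dbl 58 10 54))))) (.nv (.thr 15 47 (.thr 60 45 (.thr 61 62 (.dbl 41 1 3)))) (.rp 62 (.thr 15 47 (.thr 60 45 (.thr 41 3 (.thr 56 11 (.thr 48 52 (.thr 58 53 (.dbl 42 0 10))))))) (.rp 60 (.thr 0 42 (.thr 51 34 (.thr 55 59 (.thr 38 4 (.thr 25 12 (.thr 27 24 (.dbl 15 39 47))))))) (.rp 46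 (.thr 15 47 (.thr 42 0 (.thr 62 2 (.dbl 60 45 61)))) (.rp 42 (.str 60 (.nv (.thr 41 3 (.dbl 61 1 62)) (.nv (.dbl 15 45 47) (.rp 47 (.str 32 (.nv (.thr 61 62 (.dbl 41 1 3)) (.rp 62 (.thr 41 3 (.thr 1 61 (.thr 33 49 (.thr 35 34 (.dbl 44 12 38))))) (.rp 61 (.thr 12 44 (.thr 41 3 (.thr 56 11 (.thr 48 52 (.thr 58 53 (.thr 57 59 (.thr 25 9 (.dbl 51 38 54)))))))) (.rp 41 (.thr 62 61 (.thr 14 46 (.thr 38 50 (.thr 55 4 (.thr 51 59 (.dbl 12 25 44)))))) (.rp 3 (.thr 62 61 (.thr 14 46 (.thr 38 50 (.thr 55 4 (.thr 51 59 (.dbl 12 25 44)))))) (.rp 1 (.thr 62 61 (.thr 44 12 (.thr 14 46 (.thr 38 50 (.dbl 41 3 35))))) .nd))))))) (.rp 32 (.thr 47 15 (.thr 61 62 (.dbl 41 1 3))) .nd))))) (.rp 32 (.thr 47 15 (.thr 0 42 (.thr 51 34 (.thr 55 59 (.thr 38 4 (.thr 50 14 (.thr 48 49 (.thr 53 58 (.thr 52 54 (.thr 56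 60 (.thr 41 11 (.thr 1 61 (.thr 35 44 (.thr 43 39 (.dbl 3 2 23))))))))))))))) .nd))))))))) (.rp 3 (.thr 15 47 (.thr 60 45 (.thr 42 0 (.dbl 62 2 61)))) .nd))))))))))) (.rp 19 (.thr 20 23 (.thr 18 30 (.str 60 (.nv (.thr 0 40 (.thr 41 3 (.thr 61 1 (.dbl 63 42 62)))) (.nv (.thr 0 40 (.thr 3 41 (.thr 42 63 (.dbl 2 1 62)))) (.rp 63 (.thr 0 40 (.thr 3 41 (.thr 2 1 (.thr 50 34 (.thr 38 14 (.thr 4 55 (.thr 52 36 (.dbl 48 33 56)))))))) (.rp 62 (.thr 0 40 (.thr 41 3 (.thr 56 11 (.thr 52 48 (.thr 4 36 (.thr 12 8 (.thr 38 55 (.dbl 44 28 35)))))))) (.rp 42 (.thr 0 40 (.thr 41 3 (.thr 56 11 (.thr 52 48 (.thr 4 36 (.thr 12 8 (.thr 38 55 (.dbl 44 28 35)))))))) (.rp 41 (.thr 0 40 (.thr 42 63 (.thr 2 62 (.thr 3 1 (.thr 34 50 (.thr 51 17 (.thr 57 54 (.thr 58 10 (.thr 56 59 (.dbl 48 33 52)))))))))) (.rp 40 (.thr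 41 3 (.thr 61 1 (.thr 63 62 (.thr 56 11 (.thr 48 52 (.thr 58 53 (.dbl 42 0 10))))))) (.rp 3 (.thr 0 40 (.thr 63 42 (.thr 61 62 (.thr 41 1 (.thr 56 11 (.thr 52 48 (.thr 4 36 (.thr 12 8 (.thr 38 55 (.dbl 44 28 35)))))))))) (.rp 1 (.thr 0 40 (.thr 41 3 (.thr 56 11 (.thr 52 48 (.thr 4 36 (.thr 12 8 (.thr 38 55 (.dbl 44 28 35)))))))) (.rp 0 (.str 48 (.nv (.dbl 3 33 41) (.rp 41 (.thr 52 56 (.thr 4 36 (.thr 38 55 (.thr 50 14 (.thr 51 49 (.thr 54 57 (.thr 2 34 (.dbl 62 42 58)))))))) (.rp 33 (.thr 56 52 (.dbl 41 3 11)) (.rp 3 (.thr 52 56 (.thr 4 36 (.thr 38 55 (.thr 50 14 (.thr 51 49 (.thr 54 57 (.thr 2 34 (.dbl 62 42 58)))))))) .nd))))) .nd))))))))))))) (.rp 18 (.thr 23 20 (.thr 19 27 (.str 3 (.nv (.thr 28 25 (.thr 29 30 (.thr 60 41 (.thr 12 44 (.dbl 63 43 46))))) (.nv (.thr 41 60 (.thr 1 61 (.thr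 63 43 (.dbl 0 2 42)))) (.rp 63 (.thr 35 51 (.thr 41 60 (.thr 11 56 (.thr 38 44 (.thr 55 4 (.dbl 7 15 39)))))) (.rp 60 (.thr 51 35 (.thr 63 43 (.thr 0 42 (.thr 17 34 (.dbl 25 28 29))))) (.rp 43 (.thr 35 51 (.thr 41 60 (.thr 11 56 (.thr 38 44 (.thr 55 4 (.dbl 7 15 39)))))) (.rp 41 (.thr 51 35 (.thr 63 43 (.thr 59 55 (.thr 42 0 (.dbl 25 8 28))))) (.rp 28 (.str 24 (.nv (.thr 41 60 (.thr 11 56 (.thr 15 7 (.dbl 63 43 47)))) (.nv (.thr 63 43 (.thr 15 47 (.thr 11 7 (.dbl 41 56 60)))) (.nv (.thr 41 60 (.thr 1 61 (.thr 63 43 (.dbl 0 2 42)))) (.rp 63 (.thr 51 35 (.thr 41 60 (.thr 11 56 (.thr 7 15 (.thr 55 39 (.thr 38 4 (.thr 50 14 (.thr 48 49 (.dbl 12 25 36))))))))) (.rp 60 (.thr 63 43 (.thr 0 42 (.thr 1 2 (.thr 41 61 (.thr 11 56 (.dbl 15 7 47)))))) (.rp 43 (.thr 41 60 (.thr 11 56 (.thr 15 7 (.thr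 63 47 (.thr 1 61 (.dbl 0 2 42)))))) (.rp 41 (.thr 51 35 (.thr 63 43 (.thr 59 55 (.thr 42 0 (.thr 58 10 (.thr 56 57 (.dbl 8 25 40))))))) (.rp 11 (.thr 41 60 (.thr 1 61 (.thr 0 2 (.dbl 63 42 43)))) .nd))))))))) .nd)))))))))) .nd))))))))))))

theorem w239 : WinAt (2216689664, 137439019072) :=
  chF (K := []) kn c239 2216689664 137439019072 16
    [] (by decide +kernel) (by decide +kernel)

/-- A certificate. -/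
noncomputable def c240 : Ct := (.str 63 (.nv (.thr 42 0 (.thr 58 10 (.thr 48 53 (.dbl 15 37 47)))) (.nv (.thr 15 47 (.thr 0 42 (.thr 37 48 (.dbl 5 10 53)))) (.rp 53 (.str 23 (.nv (.thr 0 42 (.thr 3 43 (.thr 1 2 (.thr 41 61 (.thr 11 56 (.dbl 15 7 47)))))) (.nv (.thr 22 20 (.thr 30 18 (.thr 28 29 (.dbl 19 25 27)))) (.rp 22 (.thr 27 19 (.thr 25 24 (.thr 43 3 (.thr 59 11 (.dbl 42 0 8))))) .nd)))) (.rp 48 (.str 23 (.nv (.thr 27 19 (.thr 43 3 (.thr 11 59 (.thr 41 56 (.dbl 42 0 40))))) (.nv (.thr 0 42 (.thr 3 43 (.thr 1 2 (.thr 41 61 (.dbl 22 20 60))))) (.nv (.thr 19 27 (.thr 22 20 (.thr 28 25 (.dbl 30 18 29)))) (.rp 0 (.str 32 (.nv (.thr 3 43 (.thr 22 20 (.thr 60 41 (.thr 62 61 (.thr 42 2 (.dbl 47 15 37)))))) (.nv (.thr 27 19 (.thr 43 3 (.thr 11 59 (.thr 47 15 (.thr 42 37 (.dbl 41 40 56))))))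 (.nv (.thr 19 27 (.thr 22 20 (.thr 28 25 (.dbl 30 18 29)))) (.rp 40 (.thr 27 19 (.thr 25 24 (.thr 43 3 (.thr 47 15 (.thr 42 37 (.dbl 59 8 11)))))) (.rp 15 (.thr 22 20 (.thr 30 18 (.thr 28 29 (.dbl 19 25 27)))) .nd)))))) .nd))))) (.rp 47 (.str 43 (.nv (.thr 42 0 (.thr 10 58 (.thr 41 40 (.thr 11 56 (.thr 59 27 (.dbl 8 9 25)))))) (.nv (.thr 3 23 (.thr 42 0 (.thr 41 40 (.thr 60 22 (.dbl 61 1 62))))) (.nv (.thr 23 3 (.thr 19 27 (.thr 22 20 (.thr 28 25 (.dbl 30 18 29))))) .nd)))) (.rp 42 (.str 23 (.nv (.thr 3 43 (.thr 22 20 (.thr 41 60 (.thr 11 56 (.dbl 15 7 47))))) (.nv (.thr 22 20 (.thr 30 18 (.thr 28 29 (.dbl 19 25 27)))) (.rp 28 (.thr 19 27 (.thr 15 47 (.thr 3 43 (.thr 35 51 (.thr 11 7 (.thr 41 56 (.dbl 22 20 60))))))) (.rp 24 (.thr 19 27 (.thr 22 20 (.thr 28 25 (.dbl 30 18 29)))) (.rp 22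 (.thr 27 19 (.thr 25 24 (.thr 15 47 (.thr 37 48 (.thr 13 49 (.thr 12 14 (.dbl 29 17 46))))))) (.rp 20 (.thr 19 27 (.thr 15 47 (.thr 3 43 (.thr 35 51 (.thr 11 7 (.thr 41 56 (.thr 61 1 (.dbl 60 22 62)))))))) .nd))))))) (.rp 37 (.str 38 (.nv (.thr 55 4 (.thr 51 59 (.thr 12 25 (.thr 46 29 (.dbl 42 0 34))))) (.nv (.thr 14 50 (.thr 42 0 (.thr 46 34 (.thr 30 62 (.dbl 29 12 28))))) (.nv (.thr 14 50 (.thr 4 55 (.thr 0 42 (.thr 12 8 (.dbl 15 13 47))))) (.rp 42 (.thr 55 4 (.thr 51 59 (.thr 25 12 (.thr 27 24 (.thr 29 17 (.thr 28 30 (.dbl 19 22 23))))))) (.rp 12 (.thr 55 4 (.thr 50 14 (.thr 51 59 (.thr 48 49 (.thr 58 53 (.dbl 42 0 10)))))) (.rp 0 (.thr 15 47 (.thr 55 4 (.thr 14 50 (.thr 12 13 (.dbl 51 25 59))))) .nd))))))) (.rp 15 (.str 27 (.nv (.thr 0 42 (.thr 25 24 (.thr 17 29 (.thr 51 34 (.thr 38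 12 (.dbl 55 4 59)))))) (.nv (.thr 23 19 (.thr 42 0 (.thr 43 3 (.thr 11 59 (.dbl 41 40 56))))) (.nv (.thr 19 23 (.thr 25 24 (.thr 29 17 (.dbl 28 22 30)))) (.rp 17 (.thr 25 24 (.thr 42 0 (.thr 59 8 (.thr 43 11 (.dbl 23 3 19))))) .nd))))) (.rp 10 (.str 14 (.nv (.thr 38 50 (.thr 42 0 (.thr 46 34 (.thr 29 12 (.dbl 30 28 62))))) (.nv (.thr 15 47 (.thr 12 13 (.thr 29 46 (.thr 25 17 (.thr 24 27 (.dbl 48 36 37)))))) (.nv (.thr 38 50 (.thr 55 4 (.thr 51 59 (.thr 12 25 (.dbl 15 13 47))))) (.rp 15 (.thr 38 50 (.thr 55 4 (.thr 51 59 (.thr 25 12 (.thr 17 29 (.dbl 0 34 42)))))) (.rp 12 (.thr 38 50 (.thr 42 0 (.thr 46 34 (.thr 62 30 (.thr 61 60 (.thr 41 1 (.thr 44 35 (.dbl 47 15 45)))))))) .nd)))))) (.rp 5 (.thr 15 47 (.thr 48 37 (.thr 58 53 (.dbl 42 0 10)))) (.rp 0 (.str 23 (.nv (.thr 3 43 (.thr 22 20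 (.thr 18 30 (.thr 48 33 (.dbl 15 37 47))))) (.nv (.thr 22 20 (.thr 30 18 (.thr 28 29 (.dbl 19 25 27)))) (.rp 60 (.thr 19 27 (.thr 15 47 (.thr 48 37 (.thr 3 43 (.thr 35 51 (.thr 18 33 (.dbl 22 20 30))))))) (.rp 48 (.str 32 (.nv (.thr 3 43 (.thr 22 20 (.thr 60 41 (.thr 62 61 (.thr 42 2 (.dbl 47 15 37)))))) (.nv (.thr 27 19 (.thr 43 3 (.thr 11 59 (.thr 47 15 (.thr 42 37 (.dbl 41 40 56)))))) (.nv (.thr 19 27 (.thr 22 20 (.thr 28 25 (.dbl 30 18 29)))) (.rp 40 (.thr 27 19 (.thr 25 24 (.thr 43 3 (.thr 47 15 (.thr 42 37 (.dbl 59 8 11)))))) (.rp 15 (.thr 22 20 (.thr 30 18 (.thr 28 29 (.dbl 19 25 27)))) .nd)))))) (.rp 40 (.thr 19 27 (.thr 15 47 (.thr 48 37 (.thr 3 43 (.thr 35 51 (.thr 18 33 (.dbl 22 20 30))))))) (.rp 32 (.str 48 (.nv (.thr 22 20 (.thr 18 30 (.dbl 3 33 43))) (.nv (.dbl 15 37 47) .nd)))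 (.rp 30 (.thr 22 20 (.thr 19 27 (.thr 15 47 (.thr 3 43 (.thr 35 51 (.thr 11 7 (.dbl 41 56 60))))))) (.rp 28 (.thr 19 27 (.thr 15 47 (.thr 48 37 (.thr 3 43 (.thr 35 51 (.thr 18 33 (.dbl 22 20 30))))))) (.rp 24 (.thr 19 27 (.thr 22 20 (.thr 28 25 (.dbl 30 18 29)))) (.rp 22 (.thr 27 19 (.thr 25 24 (.thr 15 47 (.thr 48 37 (.thr 58 53 (.thr 43 3 (.thr 59 11 (.dbl 42 8 10)))))))) (.rp 20 (.thr 19 27 (.thr 15 47 (.thr 3 43 (.thr 35 51 (.thr 11 7 (.thr 41 56 (.thr 61 1 (.dbl 60 22 62)))))))) (.rp 18 (.thr 22 20 (.thr 19 27 (.thr 28 25 (.thr 29 30 (.thr 12 46 (.thr 60 44 (.dbl 3 41 43))))))) .nd))))))))))))) .nd))))))))))))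

theorem w240 : WinAt (2216689664, 549755879488) :=
  chF (K := []) kn c240 2216689664 549755879488 16
    [] (by decide +kernel) (by decide +kernel)

/-- A certificate. -/
noncomputable def c241 : Ct := (.str 48 (.nv (.thr 37 15 (.thr 53 5 (.thr 63 58 (.dbl 0 32 42)))) (.nv (.thr 0 32 (.thr 15 37 (.thr 42 63 (.dbl 10 5 58)))) (.rp 63 (.str 24 (.nv (.thr 15 37 (.thr 12 36 (.thr 14 13 (.thr 38 50 (.thr 4 55 (.dbl 0 8 32)))))) (.nv (.thr 25 27 (.thr 17 29 (.thr 19 18 (.dbl 28 20 22)))) (.rp 25 (.thr 20 28 (.thr 22 23 (.thr 36 12 (.thr 52 4 (.dbl 37 7 15))))) (.rp 15 (.str 47 (.nv (.thr 25 27 (.thr 17 29 (.thr 19 18 (.dbl 28 20 22)))) (.nv (.thr 12 36 (.thr 25 27 (.thr 51 38 (.thr 49 50 (.thr 37 13 (.dbl 32 0 42)))))) (.nv (.thr 20 28 (.thr 32 0 (.thr 36 12 (.thr 4 52 (.thr 37 42 (.dbl 38 39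 55)))))) (.nv (.thr 28 20 (.thr 25 27 (.thr 19 22 (.dbl 17 18 29)))) (.rp 39 (.thr 20 28 (.thr 22 23 (.thr 36 12 (.thr 32 0 (.thr 37 42 (.dbl 52 4 7)))))) .nd)))))) (.rp 12 (.thr 25 27 (.thr 28 20 (.thr 19 22 (.dbl 17 18 29)))) .nd)))))) (.rp 58 (.str 24 (.nv (.thr 12 36 (.thr 15 37 (.thr 14 13 (.thr 38 50 (.thr 4 55 (.dbl 0 8 32)))))) (.nv (.thr 25 27 (.thr 17 29 (.thr 19 18 (.dbl 28 20 22)))) (.rp 25 (.thr 20 28 (.thr 22 23 (.thr 36 12 (.thr 52 4 (.dbl 37 7 15))))) .nd)))) (.rp 42 (.str 41 (.nv (.thr 1 61 (.thr 37 15 (.thr 33 45 (.thr 17 49 (.dbl 18 3 19))))) (.nv (.thr 0 32 (.thr 1 61 (.thr 3 2 (.thr 11 56 (.dbl 15 7 37))))) (.nv (.thr 0 32 (.thr 1 61 (.thr 3 2 (.thr 18 33 (.dbl 22 30 60))))) (.nv (.thr 15 37 (.thr 56 11 (.thr 60 52 (.thr 30 45 (.dbl 22 3 18))))) (.rp 47 (.thr 56 11 (.thr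 1 61 (.thr 60 52 (.thr 3 22 (.dbl 0 2 32))))) (.rp 37 (.thr 56 11 (.thr 60 52 (.thr 22 3 (.thr 20 23 (.thr 18 30 (.thr 19 17 (.dbl 28 24 25))))))) (.rp 3 (.thr 56 11 (.thr 61 1 (.thr 60 52 (.thr 63 62 (.thr 53 58 (.dbl 37 5 15)))))) .nd)))))))) (.rp 37 (.str 24 (.nv (.thr 0 32 (.thr 25 27 (.thr 42 63 (.thr 8 59 (.dbl 12 4 36))))) (.nv (.thr 25 27 (.thr 17 29 (.thr 19 18 (.dbl 28 20 22)))) (.rp 27 (.thr 28 20 (.thr 0 32 (.thr 12 36 (.thr 44 60 (.thr 4 8 (.thr 38 55 (.thr 50 14 (.dbl 51 25 49)))))))) (.rp 25 (.thr 20 28 (.thr 22 23 (.thr 0 32 (.thr 42 63 (.thr 2 62 (.thr 3 1 (.dbl 18 30 33))))))) (.rp 23 (.thr 28 20 (.thr 25 27 (.thr 19 22 (.dbl 17 18 29)))) (.rp 19 (.thr 28 20 (.thr 0 32 (.thr 12 36 (.thr 44 60 (.thr 4 8 (.thr 38 55 (.dbl 25 27 51))))))) .nd))))))) (.rp 32 (.str 36 (.nv (.thr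 24 12 (.thr 20 28 (.thr 22 23 (.thr 37 15 (.dbl 52 4 7))))) (.nv (.thr 24 12 (.thr 28 20 (.thr 25 27 (.thr 19 22 (.dbl 17 18 29))))) (.nv (.thr 12 24 (.thr 37 15 (.thr 38 39 (.thr 51 25 (.dbl 50 14 49))))) (.rp 24 (.thr 37 15 (.thr 38 39 (.thr 55 4 (.thr 50 14 (.thr 51 49 (.thr 63 59 (.dbl 53 5 58))))))) (.rp 12 (.thr 37 15 (.thr 38 39 (.thr 4 55 (.thr 52 20 (.thr 60 56 (.thr 53 5 (.thr 63 58 (.thr 61 62 (.thr 41 1 (.dbl 22 3 7)))))))))) .nd)))))) (.rp 15 (.str 24 (.nv (.thr 0 32 (.thr 25 27 (.thr 29 17 (.thr 63 42 (.dbl 12 36 46))))) (.nv (.thr 25 27 (.thr 17 29 (.thr 19 18 (.dbl 28 20 22)))) (.rp 63 (.str 47 (.nv (.thr 25 27 (.thr 17 29 (.thr 19 18 (.dbl 28 20 22)))) (.nv (.thr 12 36 (.thr 25 27 (.thr 51 38 (.thr 49 50 (.thr 37 13 (.dbl 32 0 42)))))) (.nv (.thr 20 28 (.thr 32 0 (.thr 36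 12 (.thr 4 52 (.thr 37 42 (.dbl 38 39 55)))))) (.nv (.thr 28 20 (.thr 25 27 (.thr 19 22 (.dbl 17 18 29)))) (.rp 39 (.thr 20 28 (.thr 22 23 (.thr 36 12 (.thr 32 0 (.thr 37 42 (.dbl 52 4 7)))))) .nd)))))) (.rp 51 (.thr 28 20 (.thr 0 32 (.thr 63 42 (.thr 12 36 (.thr 44 60 (.thr 29 46 (.dbl 25 17 27))))))) (.rp 47 (.str 63 (.nv (.thr 25 27 (.thr 29 17 (.dbl 12 36 46))) (.nv (.dbl 0 32 42) .nd))) (.rp 39 (.thr 28 20 (.thr 0 32 (.thr 63 42 (.thr 12 36 (.thr 44 60 (.thr 29 46 (.dbl 25 17 27))))))) (.rp 29 (.thr 25 27 (.thr 28 20 (.thr 19 22 (.thr 18 17 (.thr 3 33 (.thr 51 35 (.dbl 12 36 38))))))) (.rp 27 (.thr 28 20 (.thr 0 32 (.thr 12 36 (.thr 44 60 (.thr 4 8 (.thr 38 55 (.thr 50 14 (.dbl 51 25 49)))))))) (.rp 25 (.thr 20 28 (.thr 22 23 (.thr 36 12 (.thr 52 4 (.thr 60 56 (.thr 3 41 (.dbl 18 30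 33))))))) (.rp 23 (.thr 28 20 (.thr 25 27 (.thr 19 22 (.dbl 17 18 29)))) (.rp 19 (.thr 28 20 (.thr 0 32 (.thr 63 42 (.thr 12 36 (.thr 44 60 (.thr 29 46 (.dbl 25 17 27))))))) (.rp 17 (.thr 25 27 (.thr 28 20 (.thr 0 32 (.thr 12 36 (.thr 44 60 (.thr 4 8 (.dbl 38 51 55))))))) .nd))))))))))))) (.rp 10 (.thr 0 32 (.thr 63 42 (.thr 53 58 (.dbl 37 5 15)))) (.rp 5 (.str 4 (.nv (.thr 0 32 (.thr 38 55 (.thr 42 63 (.thr 50 14 (.thr 51 49 (.dbl 34 17 46)))))) (.nv (.thr 0 32 (.thr 12 8 (.thr 37 15 (.thr 38 55 (.dbl 36 24 39))))) (.nv (.thr 38 55 (.thr 50 14 (.thr 51 49 (.thr 12 25 (.dbl 0 8 32))))) (.rp 55 (.thr 0 32 (.thr 12 8 (.thr 63 42 (.thr 29 46 (.thr 25 17 (.dbl 24 27 36)))))) (.rp 38 (.thr 15 37 (.thr 0 32 (.thr 8 12 (.thr 42 63 (.thr 10 58 (.thr 11 9 (.thr 3 7 (.thr 1 2 (.dbl 41 56 61)))))))))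 (.rp 32 (.thr 38 55 (.thr 37 15 (.thr 36 39 (.thr 20 52 (.dbl 24 12 28))))) (.rp 0 (.thr 38 55 (.thr 50 14 (.thr 51 49 (.thr 25 12 (.thr 27 24 (.dbl 15 37 39)))))) .nd)))))))) (.rp 0 (.str 20 (.nv (.thr 24 28 (.thr 36 12 (.thr 4 52 (.thr 37 15 (.dbl 38 39 55))))) (.nv (.thr 22 23 (.thr 37 15 (.thr 52 7 (.thr 4 36 (.thr 55 38 (.dbl 53 5 54)))))) (.nv (.thr 28 24 (.thr 22 23 (.thr 19 25 (.dbl 18 17 30)))) .nd)))) .nd))))))))))))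

theorem w241 : WinAt (69271552, 1101659111488) :=
  chF (K := []) kn c241 69271552 1101659111488 31
    [] (by decide +kernel) (by decide +kernel)

/-- A certificate. -/
noncomputable def c242 : Ct := (.str 22 (.nv (.thr 18 30 (.thr 20 23 (.thr 19 17 (.dbl 28 24 25)))) (.rp 30 (.thr 20 23 (.thr 28 24 (.str 48 (.nv (.thr 37 15 (.thr 52 7 (.thr 4 36 (.thr 55 38 (.dbl 53 5 54))))) (.nv (.thr 19 25 (.thr 0 32 (.thr 18 17 (.thr 3 33 (.thr 1 2 (.dbl 41 60 61)))))) (.nv (.thr 0 32 (.thr 60 40 (.thr 56 52 (.dbl 41 3 11)))) (.rp 60 (.thr 19 25 (.thr 18 17 (.thr 0 32 (.thr 3 33 (.thr 1 2 (.thr 41 61 (.thr 11 56 (.dbl 15 7 37)))))))) (.rp 47 (.thr 19 25 (.thr 18 17 (.thr 3 33 (.thr 60 41 (.dbl 0 32 40))))) (.rp 37 (.thr 19 25 (.thr 18 17 (.thr 3 33 (.thr 41 60 (.thr 1 61 (.dbl 0 2 32)))))) (.rp 19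 (.str 27 (.nv (.thr 0 32 (.thr 37 15 (.thr 60 40 (.dbl 52 7 56)))) (.nv (.thr 37 15 (.thr 52 7 (.thr 4 36 (.thr 55 38 (.dbl 53 5 54))))) (.nv (.thr 0 32 (.thr 60 40 (.thr 56 52 (.dbl 41 3 11)))) (.rp 60 (.thr 15 37 (.thr 51 39 (.thr 50 49 (.thr 38 14 (.thr 25 12 (.thr 17 29 (.dbl 0 32 34))))))) (.rp 52 (.thr 0 32 (.thr 60 40 (.thr 41 3 (.thr 61 1 (.thr 63 62 (.thr 53 58 (.dbl 37 5 15))))))) (.rp 47 (.thr 32 0 (.thr 15 37 (.thr 51 39 (.thr 50 49 (.thr 38 14 (.thr 55 4 (.thr 63 59 (.thr 58 53 (.thr 62 54 (.thr 61 60 (.thr 41 1 (.thr 11 56 (.thr 35 44 (.thr 33 34 (.dbl 3 7 18))))))))))))))) (.rp 37 (.str 60 (.nv (.thr 41 3 (.dbl 56 11 52)) (.nv (.dbl 0 32 40) (.rp 47 (.thr 32 0 (.thr 56 52 (.dbl 41 3 11))) (.rp 32 (.str 47 (.nv (.thr 56 52 (.dbl 41 3 11)) (.rp 56 (.thr 12 44 (.thr 41 3 (.thr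 61 1 (.thr 63 62 (.thr 53 58 (.thr 57 49 (.thr 25 9 (.dbl 51 38 54)))))))) (.rp 52 (.thr 41 3 (.thr 11 56 (.thr 43 59 (.thr 35 39 (.dbl 44 12 38))))) (.rp 41 (.thr 52 56 (.thr 4 36 (.thr 38 55 (.thr 50 14 (.thr 51 49 (.dbl 12 25 44)))))) (.rp 11 (.thr 52 56 (.thr 44 12 (.thr 4 36 (.thr 38 55 (.dbl 41 3 35))))) (.rp 3 (.thr 52 56 (.thr 4 36 (.thr 38 55 (.thr 50 14 (.thr 51 49 (.dbl 12 25 44)))))) .nd))))))) .nd))))) (.rp 36 (.thr 0 32 (.thr 37 15 (.thr 52 7 (.dbl 60 40 56)))) .nd))))))))) (.rp 3 (.thr 0 32 (.thr 60 40 (.thr 37 15 (.dbl 52 7 56)))) .nd))))))))))) (.rp 29 (.thr 20 23 (.thr 18 30 (.thr 28 24 (.dbl 19 17 25)))) (.rp 28 (.thr 30 18 (.str 60 (.nv (.thr 20 23 (.thr 0 40 (.thr 41 3 (.thr 48 32 (.dbl 56 11 52))))) (.nv (.thr 20 23 (.thr 0 40 (.thr 15 45 (.dbl 48 32 37)))) (.nv (.thr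 15 45 (.thr 37 48 (.thr 7 52 (.dbl 3 11 41)))) (.rp 48 (.thr 20 23 (.thr 0 40 (.thr 15 45 (.thr 5 10 (.thr 37 53 (.thr 7 52 (.dbl 3 11 41))))))) (.rp 41 (.thr 20 23 (.thr 15 45 (.thr 37 48 (.thr 5 53 (.dbl 0 10 40))))) (.rp 37 (.thr 20 23 (.thr 0 40 (.thr 41 3 (.thr 56 11 (.dbl 48 32 52))))) .nd)))))))) (.rp 25 (.thr 23 20 (.str 3 (.nv (.thr 30 18 (.thr 60 41 (.thr 15 45 (.thr 37 48 (.dbl 7 11 52))))) (.nv (.thr 18 30 (.thr 17 19 (.thr 48 33 (.thr 0 32 (.thr 2 1 (.dbl 34 50 51)))))) (.nv (.thr 18 30 (.thr 48 33 (.thr 63 43 (.thr 53 58 (.dbl 37 5 15))))) (.rp 59 (.str 8 (.nv (.thr 18 30 (.thr 17 19 (.thr 48 33 (.thr 0 32 (.thr 2 1 (.dbl 34 50 51)))))) (.nv (.thr 30 18 (.thr 60 41 (.thr 15 45 (.thr 37 48 (.dbl 7 11 52))))) (.rp 48 (.thr 30 18 (.thr 43 63 (.thr 60 41 (.thr 15 45 (.thr 7 11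 (.thr 39 55 (.thr 51 27 (.dbl 35 19 47)))))))) (.rp 37 (.thr 18 30 (.thr 17 19 (.thr 41 60 (.thr 1 61 (.dbl 33 48 49))))) (.rp 30 (.thr 41 60 (.thr 11 56 (.thr 15 7 (.thr 10 9 (.thr 1 61 (.dbl 0 2 5)))))) (.rp 18 (.thr 41 60 (.thr 11 56 (.thr 15 7 (.thr 10 9 (.thr 1 61 (.dbl 0 2 5)))))) .nd))))))) (.rp 48 (.thr 18 30 (.thr 19 17 (.thr 35 51 (.thr 43 63 (.thr 41 60 (.thr 38 44 (.thr 55 4 (.dbl 39 7 47)))))))) (.rp 37 (.thr 18 30 (.thr 17 19 (.thr 33 48 (.thr 41 60 (.dbl 1 49 61))))) (.rp 30 (.thr 41 60 (.thr 1 61 (.thr 0 2 (.thr 48 32 (.thr 33 18 (.dbl 37 15 45)))))) (.rp 18 (.thr 41 60 (.thr 1 61 (.thr 0 2 (.thr 48 32 (.thr 11 56 (.dbl 15 7 37)))))) (.rp 8 (.str 59 (.nv (.thr 18 30 (.thr 19 17 (.thr 51 35 (.dbl 63 43 55)))) (.nv (.thr 18 30 (.thr 17 19 (.thr 33 48 (.thr 1 49 (.dbl 41 60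 61))))) (.nv (.thr 43 63 (.thr 11 27 (.dbl 41 56 60))) .nd)))) .nd))))))))))) (.rp 24 (.str 60 (.nv (.thr 30 18 (.thr 20 23 (.thr 15 45 (.thr 48 37 (.dbl 0 32 40))))) (.nv (.thr 20 23 (.thr 0 40 (.thr 41 3 (.thr 48 32 (.dbl 56 11 52))))) (.nv (.thr 3 41 (.thr 30 18 (.thr 15 45 (.thr 7 11 (.dbl 37 48 52))))) (.rp 48 (.thr 30 18 (.thr 20 23 (.thr 0 40 (.thr 15 45 (.thr 5 10 (.thr 37 53 (.thr 7 52 (.dbl 3 11 41)))))))) (.rp 41 (.thr 30 18 (.thr 20 23 (.thr 15 45 (.thr 37 48 (.thr 5 53 (.dbl 0 10 40)))))) (.rp 40 (.thr 30 18 (.thr 15 45 (.thr 48 37 (.thr 56 52 (.dbl 41 3 11))))) (.rp 37 (.thr 20 23 (.thr 0 40 (.thr 41 3 (.thr 56 11 (.dbl 48 32 52))))) .nd)))))))) (.rp 23 (.thr 18 30 (.thr 19 17 (.str 3 (.nv (.thr 28 25 (.thr 24 20 (.thr 60 41 (.thr 12 44 (.dbl 48 33 36))))) (.nv (.thr 41 60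 (.thr 11 56 (.thr 48 33 (.dbl 15 7 37)))) (.rp 60 (.thr 51 35 (.thr 48 33 (.thr 15 37 (.thr 27 39 (.dbl 25 24 28))))) (.rp 48 (.thr 35 51 (.thr 41 60 (.thr 1 61 (.thr 38 44 (.thr 50 14 (.dbl 2 0 34)))))) (.rp 41 (.thr 51 35 (.thr 48 33 (.thr 49 50 (.thr 37 15 (.dbl 25 13 28))))) (.rp 33 (.thr 35 51 (.thr 41 60 (.thr 1 61 (.thr 38 44 (.thr 50 14 (.dbl 2 0 34)))))) (.rp 28 (.str 29 (.nv (.thr 41 60 (.thr 11 56 (.thr 15 7 (.dbl 48 33 37)))) (.nv (.thr 48 33 (.thr 0 32 (.thr 1 2 (.dbl 41 60 61)))) (.nv (.thr 33 48 (.thr 41 60 (.thr 61 1 (.dbl 45 13 37)))) (.rp 60 (.thr 48 33 (.thr 15 37 (.thr 11 7 (.thr 41 56 (.thr 1 61 (.dbl 0 2 32)))))) (.rp 48 (.thr 51 35 (.thr 41 60 (.thr 1 61 (.thr 2 0 (.thr 50 34 (.thr 38 14 (.thr 55 4 (.thr 63 59 (.dbl 12 25 46))))))))) (.rp 41 (.thr 51 35 (.thr 48 33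 (.thr 49 50 (.thr 37 15 (.thr 53 5 (.thr 61 57 (.dbl 13 25 45))))))) (.rp 37 (.thr 48 33 (.thr 41 60 (.thr 1 61 (.dbl 0 2 32)))) (.rp 33 (.thr 41 60 (.thr 1 61 (.thr 0 2 (.thr 48 32 (.thr 11 56 (.dbl 15 7 37)))))) .nd))))))))) .nd)))))))))) (.rp 20 (.str 48 (.nv (.thr 18 30 (.thr 3 33 (.thr 41 60 (.thr 1 61 (.dbl 0 2 32))))) (.nv (.thr 0 32 (.thr 18 30 (.thr 17 19 (.thr 51 34 (.thr 50 49 (.thr 38 14 (.dbl 25 12 29))))))) (.nv (.thr 15 37 (.thr 30 18 (.thr 60 45 (.thr 41 3 (.dbl 56 11 52))))) (.rp 32 (.thr 18 30 (.thr 3 33 (.thr 60 41 (.thr 52 56 (.dbl 37 7 15))))) (.rp 30 (.thr 0 32 (.thr 37 15 (.thr 52 7 (.thr 60 56 (.thr 3 41 (.thr 2 1 (.thr 18 33 (.thr 17 19 (.dbl 34 50 51))))))))) (.rp 18 (.thr 0 32 (.thr 37 15 (.thr 52 7 (.thr 60 56 (.thr 3 41 (.thr 1 2 (.thr 5 53 (.thr 13 9 (.thr 25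 49 (.thr 24 27 (.thr 12 36 (.dbl 28 19 44)))))))))))) .nd))))))) (.rp 19 (.thr 30 18 (.thr 23 20 (.str 60 (.nv (.thr 15 45 (.thr 41 3 (.thr 48 37 (.dbl 56 11 52)))) (.nv (.thr 15 45 (.thr 3 41 (.thr 37 48 (.dbl 7 11 52)))) (.rp 52 (.thr 15 45 (.thr 41 3 (.thr 61 1 (.thr 62 63 (.thr 14 46 (.thr 12 13 (.thr 38 50 (.dbl 44 28 35)))))))) (.rp 48 (.thr 15 45 (.thr 3 41 (.thr 7 11 (.thr 55 39 (.thr 38 4 (.thr 14 50 (.thr 62 46 (.dbl 63 43 61)))))))) (.rp 45 (.thr 41 3 (.thr 56 11 (.thr 48 52 (.thr 61 1 (.thr 63 62 (.thr 53 58 (.dbl 37 5 15))))))) (.rp 41 (.thr 15 45 (.thr 37 48 (.thr 7 52 (.thr 3 11 (.thr 39 55 (.thr 51 27 (.thr 57 54 (.thr 53 5 (.thr 61 49 (.dbl 63 43 62)))))))))) (.rp 37 (.thr 15 45 (.thr 41 3 (.thr 61 1 (.thr 62 63 (.thr 14 46 (.thr 12 13 (.thr 38 50 (.dbl 44 28 35))))))))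 (.rp 15 (.str 63 (.nv (.dbl 3 41 43) (.rp 43 (.thr 61 62 (.dbl 41 1 3)) (.rp 41 (.thr 62 61 (.thr 14 46 (.thr 38 50 (.thr 55 4 (.thr 51 59 (.thr 54 57 (.thr 7 39 (.dbl 52 37 53)))))))) (.rp 3 (.thr 62 61 (.thr 14 46 (.thr 38 50 (.thr 55 4 (.thr 51 59 (.thr 54 57 (.thr 7 39 (.dbl 52 37 53)))))))) .nd))))) (.rp 11 (.thr 15 45 (.thr 41 3 (.thr 61 1 (.thr 62 63 (.thr 14 46 (.thr 12 13 (.thr 38 50 (.dbl 44 28 35)))))))) (.rp 3 (.thr 15 45 (.thr 48 37 (.thr 56 52 (.thr 41 11 (.thr 61 1 (.thr 62 63 (.thr 14 46 (.thr 12 13 (.thr 38 50 (.dbl 44 28 35)))))))))) .nd))))))))))))) (.rp 18 (.str 52 (.nv (.thr 37 7 (.thr 48 15 (.thr 0 32 (.thr 60 56 (.dbl 20 23 40))))) (.nv (.thr 20 23 (.thr 4 36 (.thr 37 7 (.thr 53 5 (.dbl 55 38 54))))) (.rp 37 (.thr 20 23 (.thr 24 28 (.thr 36 4 (.thr 48 12 (.thr 60 56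 (.dbl 0 32 40)))))) (.rp 23 (.thr 37 7 (.thr 48 15 (.thr 60 56 (.thr 0 32 (.thr 20 40 (.thr 24 28 (.dbl 36 4 12))))))) (.rp 20 (.thr 37 7 (.thr 5 53 (.thr 48 15 (.thr 60 56 (.thr 0 32 (.thr 3 41 (.thr 1 2 (.thr 13 9 (.thr 25 49 (.thr 28 19 (.thr 12 44 (.dbl 24 27 36)))))))))))) (.rp 7 (.thr 20 23 (.thr 4 36 (.thr 55 38 (.thr 53 54 (.thr 37 5 (.thr 48 15 (.thr 60 56 (.dbl 0 32 40)))))))) (.rp 5 (.thr 20 23 (.thr 4 36 (.thr 37 7 (.thr 48 15 (.thr 60 56 (.dbl 0 32 40)))))) (.rp 4 (.thr 20 23 (.thr 37 7 (.thr 5 53 (.thr 48 15 (.thr 60 56 (.dbl 0 32 40)))))) .nd))))))))) (.rp 17 (.str 52 (.nv (.thr 18 30 (.thr 37 7 (.thr 48 15 (.thr 3 33 (.dbl 60 41 56))))) (.nv (.thr 20 23 (.thr 4 36 (.thr 37 7 (.thr 53 5 (.dbl 55 38 54))))) (.rp 37 (.thr 20 23 (.thr 24 28 (.thr 36 4 (.thr 48 12 (.thr 60 56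 (.dbl 0 32 40)))))) (.rp 7 (.thr 20 23 (.thr 4 36 (.thr 55 38 (.thr 53 54 (.thr 37 5 (.thr 48 15 (.thr 60 56 (.dbl 0 32 40)))))))) (.rp 5 (.thr 20 23 (.thr 4 36 (.thr 37 7 (.thr 48 15 (.thr 60 56 (.dbl 0 32 40)))))) (.rp 4 (.thr 20 23 (.thr 37 7 (.thr 5 53 (.thr 48 15 (.thr 60 56 (.dbl 0 32 40)))))) .nd))))))) .nd))))))))))))

theorem w242 : WinAt (69271552, 4400193994816) :=
  chF (K := []) kn c242 69271552 4400193994816 31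
    [] (by decide +kernel) (by decide +kernel)

/-- A certificate. -/
noncomputable def c243 : Ct := (.str 15 (.nv (.thr 37 48 (.thr 5 53 (.thr 0 10 (.dbl 63 42 47)))) (.nv (.thr 63 47 (.thr 48 37 (.thr 42 0 (.dbl 58 10 53)))) (.rp 63 (.str 23 (.nv (.thr 22 20 (.thr 18 30 (.thr 48 37 (.thr 3 33 (.thr 11 7 (.dbl 41 56 60)))))) (.nv (.thr 27 19 (.thr 37 48 (.thr 39 51 (.thr 55 7 (.dbl 38 4 36))))) (.nv (.thr 19 27 (.thr 22 20 (.thr 28 25 (.dbl 30 18 29)))) (.rp 18 (.thr 22 20 (.thr 37 48 (.thr 7 52 (.thr 39 55 (.dbl 27 19 51))))) .nd))))) (.rp 58 (.thr 63 47 (.thr 0 42 (.thr 5 10 (.dbl 37 48 53)))) (.rp 53 (.str 27 (.nv (.thr 23 19 (.thr 37 48 (.thr 39 51 (.thr 7 55 (.dbl 22 20 52))))) (.nv (.thr 48 37 (.thr 51 39 (.thr 50 49 (.thr 38 14 (.dbl 25 12 24))))) (.nv (.thr 25 24 (.thr 29 17 (.thr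 28 30 (.dbl 19 22 23)))) .nd)))) (.rp 48 (.str 27 (.nv (.thr 25 24 (.thr 17 29 (.thr 51 39 (.thr 0 34 (.dbl 63 42 47))))) (.nv (.thr 25 24 (.thr 29 17 (.thr 28 30 (.dbl 19 22 23)))) (.rp 36 (.thr 19 23 (.thr 63 47 (.thr 0 42 (.thr 51 39 (.thr 35 3 (.thr 17 34 (.dbl 25 24 29))))))) (.rp 32 (.str 0 (.nv (.thr 25 24 (.thr 17 29 (.dbl 51 34 39))) (.nv (.dbl 63 42 47) .nd))) (.rp 29 (.thr 25 24 (.thr 19 23 (.thr 63 47 (.thr 51 39 (.thr 35 3 (.thr 55 59 (.dbl 38 4 12))))))) (.rp 28 (.thr 19 23 (.thr 63 47 (.thr 0 42 (.thr 51 39 (.thr 35 3 (.thr 17 34 (.dbl 25 24 29))))))) (.rp 25 (.thr 23 19 (.thr 22 20 (.thr 39 51 (.thr 7 55 (.thr 3 11 (.thr 60 41 (.dbl 30 18 45))))))) (.rp 24 (.thr 19 23 (.thr 63 47 (.thr 51 39 (.thr 35 3 (.thr 55 59 (.thr 38 4 (.thr 14 50 (.dbl 12 13 25)))))))) (.rp 20 (.thr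 19 23 (.thr 25 24 (.thr 28 22 (.dbl 29 17 30)))) (.rp 17 (.thr 25 24 (.thr 19 23 (.thr 28 22 (.thr 30 29 (.thr 60 45 (.thr 12 44 (.dbl 51 38 39))))))) (.rp 12 (.thr 23 19 (.thr 22 20 (.thr 39 51 (.thr 7 55 (.thr 3 11 (.thr 60 41 (.dbl 30 18 45))))))) (.rp 0 (.str 32 (.nv (.thr 25 24 (.thr 29 17 (.thr 28 30 (.dbl 19 22 23)))) (.nv (.thr 25 24 (.thr 51 39 (.thr 12 38 (.thr 13 14 (.thr 37 49 (.dbl 47 42 63)))))) (.nv (.thr 23 19 (.thr 39 51 (.thr 47 63 (.thr 37 42 (.thr 55 7 (.dbl 38 4 36)))))) (.nv (.thr 19 23 (.thr 25 24 (.thr 28 22 (.dbl 29 17 30)))) (.rp 36 (.thr 23 19 (.thr 22 20 (.thr 39 51 (.thr 47 63 (.thr 37 42 (.dbl 7 52 55)))))) .nd)))))) .nd))))))))))))) (.rp 47 (.str 39 (.nv (.thr 27 51 (.thr 23 19 (.thr 7 55 (.thr 22 20 (.dbl 37 48 52))))) (.nv (.thr 37 48 (.thr 51 27 (.thr 38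 36 (.thr 12 25 (.dbl 14 13 50))))) (.nv (.thr 27 51 (.thr 19 23 (.thr 25 24 (.thr 28 22 (.dbl 29 17 30))))) (.rp 51 (.thr 37 48 (.thr 38 36 (.thr 55 4 (.thr 7 23 (.thr 53 5 (.dbl 52 22 54)))))) (.rp 27 (.thr 37 48 (.thr 38 36 (.thr 55 4 (.thr 7 23 (.thr 53 5 (.dbl 52 22 54)))))) .nd)))))) (.rp 42 (.str 41 (.nv (.thr 63 47 (.thr 11 56 (.thr 61 1 (.thr 60 62 (.dbl 3 7 22))))) (.nv (.thr 1 61 (.thr 37 48 (.thr 5 53 (.thr 13 9 (.thr 12 14 (.thr 33 45 (.dbl 49 17 25))))))) (.nv (.thr 11 56 (.thr 3 7 (.thr 22 60 (.thr 18 30 (.dbl 48 33 37))))) (.rp 37 (.thr 11 56 (.thr 3 7 (.thr 22 60 (.thr 23 20 (.thr 30 18 (.thr 28 29 (.dbl 19 25 27))))))) .nd))))) (.rp 37 (.str 27 (.nv (.thr 25 24 (.thr 51 39 (.thr 38 12 (.thr 55 4 (.dbl 63 47 59))))) (.nv (.thr 25 24 (.thr 29 17 (.thr 28 30 (.dbl 19 22 23))))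 (.rp 28 (.thr 19 23 (.thr 63 47 (.thr 51 39 (.thr 35 3 (.thr 55 59 (.thr 38 4 (.dbl 25 12 24))))))) (.rp 25 (.thr 23 19 (.thr 22 20 (.thr 63 47 (.thr 42 0 (.thr 62 2 (.thr 60 61 (.dbl 30 18 45))))))) (.rp 24 (.thr 19 23 (.thr 63 47 (.thr 51 39 (.thr 35 3 (.thr 55 59 (.thr 38 4 (.thr 14 50 (.dbl 12 13 25)))))))) (.rp 20 (.thr 19 23 (.thr 25 24 (.thr 28 22 (.dbl 29 17 30)))) .nd))))))) (.rp 10 (.str 14 (.nv (.thr 12 13 (.thr 38 50 (.thr 4 55 (.thr 0 8 (.dbl 63 42 47))))) (.nv (.thr 12 13 (.thr 38 50 (.thr 25 51 (.thr 48 37 (.dbl 24 27 36))))) (.rp 50 (.thr 12 13 (.thr 63 47 (.thr 29 46 (.thr 25 17 (.thr 27 24 (.dbl 51 38 39)))))) (.rp 38 (.thr 12 13 (.thr 63 47 (.thr 29 46 (.thr 25 17 (.thr 24 27 (.dbl 48 36 37)))))) (.rp 13 (.thr 38 50 (.thr 55 4 (.thr 63 47 (.thr 51 59 (.thr 25 12 (.dbl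 27 24 39)))))) (.rp 12 (.thr 38 50 (.thr 55 4 (.thr 63 47 (.thr 51 59 (.thr 37 48 (.dbl 39 27 36)))))) .nd))))))) (.rp 0 (.str 27 (.nv (.thr 48 37 (.thr 51 39 (.thr 50 49 (.thr 38 14 (.dbl 25 12 24))))) (.nv (.thr 25 24 (.thr 29 17 (.thr 28 30 (.dbl 19 22 23)))) (.rp 51 (.thr 25 24 (.thr 19 23 (.thr 28 22 (.dbl 29 17 30)))) (.rp 48 (.str 32 (.nv (.thr 25 24 (.thr 29 17 (.thr 28 30 (.dbl 19 22 23)))) (.nv (.thr 25 24 (.thr 51 39 (.thr 12 38 (.thr 13 14 (.thr 37 49 (.dbl 47 42 63)))))) (.nv (.thr 23 19 (.thr 39 51 (.thr 47 63 (.thr 37 42 (.thr 55 7 (.dbl 38 4 36)))))) (.nv (.thr 19 23 (.thr 25 24 (.thr 28 22 (.dbl 29 17 30)))) (.rp 36 (.thr 23 19 (.thr 22 20 (.thr 39 51 (.thr 47 63 (.thr 37 42 (.dbl 7 52 55)))))) .nd)))))) (.rp 25 (.thr 23 19 (.thr 22 20 (.thr 39 51 (.thr 7 55 (.dbl 37 48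 52))))) (.rp 24 (.thr 51 39 (.thr 48 37 (.thr 50 49 (.thr 38 14 (.thr 55 4 (.dbl 63 47 59)))))) .nd))))))) .nd))))))))))))

theorem w243 : WinAt (2216689664, 8796093087808) :=
  chF (K := []) kn c243 2216689664 8796093087808 16
    [] (by decide +kernel) (by decide +kernel)

/-- A certificate. -/
noncomputable def c244 : Ct := (.str 63 (.nv (.thr 42 0 (.thr 58 10 (.thr 48 53 (.dbl 15 37 47)))) (.nv (.thr 15 47 (.thr 0 42 (.thr 37 48 (.dbl 5 10 53)))) (.rp 53 (.str 29 (.nv (.thr 0 42 (.thr 12 46 (.thr 4 8 (.thr 38 55 (.thr 14 50 (.dbl 15 13 47)))))) (.nv (.thr 25 17 (.thr 27 24 (.thr 19 23 (.dbl 28 22 30)))) (.rp 25 (.thr 30 28 (.thr 22 18 (.thr 46 12 (.thr 62 14 (.dbl 42 0 2))))) .nd)))) (.rp 48 (.str 29 (.nv (.thr 0 42 (.thr 12 46 (.thr 4 8 (.thr 38 55 (.thr 14 50 (.dbl 15 13 47)))))) (.nv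 (.thr 25 17 (.thr 27 24 (.thr 19 23 (.dbl 28 22 30)))) (.rp 25 (.thr 30 28 (.thr 22 18 (.thr 46 12 (.thr 62 14 (.dbl 42 0 2))))) (.rp 12 (.thr 25 17 (.thr 28 30 (.thr 19 22 (.dbl 27 23 24)))) (.rp 0 (.str 32 (.nv (.thr 25 17 (.thr 27 24 (.thr 19 23 (.dbl 28 22 30)))) (.nv (.thr 12 46 (.thr 25 17 (.thr 51 38 (.thr 59 55 (.thr 42 8 (.dbl 47 15 37)))))) (.nv (.thr 30 28 (.thr 46 12 (.thr 14 62 (.thr 47 15 (.thr 42 37 (.dbl 38 34 50)))))) (.nv (.thr 28 30 (.thr 25 17 (.thr 19 22 (.dbl 27 23 24)))) (.rp 34 (.thr 30 28 (.thr 22 18 (.thr 46 12 (.thr 47 15 (.thr 42 37 (.dbl 62 2 14)))))) .nd)))))) .nd)))))) (.rp 47 (.str 46 (.nv (.thr 29 12 (.thr 30 28 (.thr 22 18 (.thr 42 0 (.dbl 62 2 14))))) (.nv (.thr 29 12 (.thr 28 30 (.thr 25 17 (.thr 19 22 (.dbl 27 23 24))))) (.nv (.thr 12 29 (.thr 42 0 (.thr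 38 34 (.thr 51 25 (.dbl 55 4 59))))) (.rp 29 (.thr 42 0 (.thr 38 34 (.thr 50 14 (.thr 55 4 (.thr 51 59 (.thr 48 49 (.dbl 58 10 53))))))) (.rp 12 (.thr 42 0 (.thr 38 34 (.thr 14 50 (.thr 62 30 (.thr 60 61 (.thr 58 10 (.thr 48 53 (.thr 56 52 (.thr 41 11 (.dbl 22 2 3)))))))))) .nd)))))) (.rp 42 (.str 29 (.nv (.thr 12 46 (.thr 25 17 (.thr 38 51 (.thr 14 50 (.dbl 15 13 47))))) (.nv (.thr 25 17 (.thr 27 24 (.thr 19 23 (.dbl 28 22 30)))) (.rp 25 (.thr 30 28 (.thr 22 18 (.thr 15 47 (.thr 37 48 (.thr 7 52 (.thr 3 11 (.dbl 23 20 43))))))) (.rp 19 (.thr 28 30 (.thr 15 47 (.thr 12 46 (.thr 44 60 (.thr 14 13 (.thr 38 50 (.dbl 25 17 51))))))) (.rp 18 (.thr 28 30 (.thr 25 17 (.thr 19 22 (.dbl 27 23 24)))) (.rp 17 (.thr 28 30 (.thr 15 47 (.thr 12 46 (.thr 44 60 (.thr 14 13 (.thr 38 50 (.thr 55 4 (.dbl 51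 25 59)))))))) .nd))))))) (.rp 37 (.str 41 (.nv (.thr 11 56 (.thr 61 1 (.thr 60 62 (.thr 3 22 (.dbl 15 7 47))))) (.nv (.thr 11 56 (.thr 42 0 (.thr 10 58 (.thr 8 9 (.thr 59 25 (.dbl 43 27 40)))))) (.nv (.thr 0 42 (.thr 61 1 (.thr 60 62 (.thr 20 40 (.dbl 22 3 23))))) (.rp 42 (.thr 61 1 (.thr 60 62 (.thr 22 3 (.thr 30 18 (.thr 23 20 (.thr 19 27 (.dbl 28 25 29))))))) (.rp 3 (.thr 61 1 (.thr 56 11 (.thr 60 62 (.thr 48 52 (.thr 58 53 (.dbl 42 0 10)))))) .nd)))))) (.rp 15 (.str 30 (.nv (.thr 29 28 (.thr 42 0 (.thr 46 12 (.thr 14 62 (.dbl 38 34 50))))) (.nv (.thr 22 18 (.thr 42 0 (.thr 62 2 (.thr 14 46 (.thr 50 38 (.dbl 58 10 54)))))) (.nv (.thr 28 29 (.thr 22 18 (.thr 19 25 (.dbl 23 20 27)))) .nd)))) (.rp 10 (.str 14 (.nv (.thr 15 47 (.thr 37 48 (.thr 38 50 (.thr 55 4 (.thr 51 59 (.dbl 39 27 36))))))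 (.nv (.thr 0 42 (.thr 38 50 (.thr 4 55 (.thr 12 8 (.thr 25 51 (.dbl 29 17 46)))))) (.nv (.thr 15 47 (.thr 12 13 (.thr 38 50 (.thr 42 0 (.dbl 46 29 34))))) (.nv (.thr 38 50 (.thr 55 4 (.thr 51 59 (.thr 12 25 (.dbl 15 13 47))))) (.rp 50 (.thr 15 47 (.thr 12 13 (.thr 48 37 (.thr 24 36 (.thr 25 27 (.dbl 29 17 46)))))) (.rp 38 (.thr 0 42 (.thr 15 47 (.thr 13 12 (.thr 37 48 (.thr 5 53 (.thr 1 9 (.thr 3 2 (.thr 11 7 (.dbl 41 56 61))))))))) .nd))))))) (.rp 5 (.thr 15 47 (.thr 48 37 (.thr 58 53 (.dbl 42 0 10)))) (.rp 0 (.str 29 (.nv (.thr 12 46 (.thr 25 17 (.thr 24 27 (.thr 48 36 (.dbl 15 37 47))))) (.nv (.thr 25 17 (.thr 27 24 (.thr 19 23 (.dbl 28 22 30)))) (.rp 51 (.thr 28 30 (.thr 15 47 (.thr 48 37 (.thr 12 46 (.thr 44 60 (.thr 24 36 (.dbl 25 17 27))))))) (.rp 48 (.str 32 (.nv (.thr 25 17 (.thr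 27 24 (.thr 19 23 (.dbl 28 22 30)))) (.nv (.thr 12 46 (.thr 25 17 (.thr 51 38 (.thr 59 55 (.thr 42 8 (.dbl 47 15 37)))))) (.nv (.thr 30 28 (.thr 46 12 (.thr 14 62 (.thr 47 15 (.thr 42 37 (.dbl 38 34 50)))))) (.nv (.thr 28 30 (.thr 25 17 (.thr 19 22 (.dbl 27 23 24)))) (.rp 34 (.thr 30 28 (.thr 22 18 (.thr 46 12 (.thr 47 15 (.thr 42 37 (.dbl 62 2 14)))))) .nd)))))) (.rp 34 (.thr 28 30 (.thr 15 47 (.thr 48 37 (.thr 12 46 (.thr 44 60 (.thr 24 36 (.dbl 25 17 27))))))) (.rp 32 (.str 48 (.nv (.thr 25 17 (.thr 24 27 (.dbl 12 36 46))) (.nv (.dbl 15 37 47) .nd))) (.rp 27 (.thr 25 17 (.thr 28 30 (.thr 15 47 (.thr 12 46 (.thr 44 60 (.thr 14 13 (.dbl 38 50 51))))))) (.rp 25 (.thr 30 28 (.thr 22 18 (.thr 46 12 (.thr 62 14 (.thr 60 61 (.thr 3 41 (.dbl 23 20 43))))))) (.rp 24 (.thr 25 17 (.thr 28 30 (.thr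 19 22 (.thr 23 27 (.thr 3 43 (.thr 51 35 (.dbl 12 38 46))))))) (.rp 19 (.thr 28 30 (.thr 15 47 (.thr 48 37 (.thr 12 46 (.thr 44 60 (.thr 24 36 (.dbl 25 17 27))))))) (.rp 18 (.thr 28 30 (.thr 25 17 (.thr 19 22 (.dbl 27 23 24)))) (.rp 17 (.thr 28 30 (.thr 15 47 (.thr 12 46 (.thr 44 60 (.thr 14 13 (.thr 38 50 (.thr 55 4 (.dbl 51 25 59)))))))) .nd))))))))))))) .nd))))))))))))

theorem w244 : WinAt (2216689664, 35184372154432) :=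
  chF (K := []) kn c244 2216689664 35184372154432 16
    [] (by decide +kernel) (by decide +kernel)

/-- A certificate. -/
noncomputable def c245 : Ct := (.str 15 (.nv (.thr 37 48 (.thr 5 53 (.thr 0 10 (.dbl 63 42 47)))) (.nv (.thr 63 47 (.thr 48 37 (.thr 42 0 (.dbl 58 10 53)))) (.rp 63 (.str 29 (.nv (.thr 25 17 (.thr 37 48 (.thr 13 49 (.thr 61 45 (.thr 1 41 (.dbl 5 9 53)))))) (.nv (.thr 30 28 (.thr 37 48 (.thr 45 60 (.thr 61 13 (.dbl 41 1 33))))) (.nv (.thr 28 30 (.thr 25 17 (.thr 27 24 (.dbl 19 22 23)))) .nd)))) (.rp 58 (.thr 63 47 (.thr 0 42 (.thr 5 10 (.dbl 37 48 53)))) (.rp 53 (.str 22 (.nv (.thr 23 20 (.thr 37 48 (.thr 7 52 (.thr 3 11 (.dbl 63 43 47))))) (.nv (.thr 18 30 (.thr 48 37 (.thr 3 33 (.thr 11 7 (.dbl 41 56 60))))) (.nv (.thr 23 20 (.thr 30 18 (.thr 19 27 (.dbl 28 25 29))))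 .nd)))) (.rp 48 (.str 30 (.nv (.thr 22 18 (.thr 20 23 (.thr 60 45 (.thr 0 40 (.dbl 63 42 47))))) (.nv (.thr 22 18 (.thr 23 20 (.thr 19 27 (.dbl 28 25 29)))) (.rp 33 (.thr 28 29 (.thr 63 47 (.thr 0 42 (.thr 60 45 (.thr 44 12 (.thr 20 40 (.dbl 22 18 23))))))) (.rp 32 (.str 0 (.nv (.thr 22 18 (.thr 20 23 (.dbl 60 40 45))) (.nv (.dbl 63 42 47) .nd))) (.rp 23 (.thr 22 18 (.thr 28 29 (.thr 63 47 (.thr 60 45 (.thr 44 12 (.thr 61 62 (.dbl 41 1 3))))))) (.rp 22 (.thr 29 28 (.thr 25 17 (.thr 63 47 (.thr 0 42 (.thr 5 10 (.thr 45 60 (.thr 13 61 (.dbl 37 49 53)))))))) (.rp 20 (.thr 22 18 (.thr 28 29 (.thr 19 25 (.thr 27 23 (.thr 51 39 (.thr 3 35 (.dbl 60 41 45))))))) (.rp 19 (.thr 28 29 (.thr 63 47 (.thr 0 42 (.thr 60 45 (.thr 44 12 (.thr 20 40 (.dbl 22 18 23))))))) (.rp 18 (.thr 28 29 (.thr 63 47 (.thr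 60 45 (.thr 44 12 (.thr 61 62 (.thr 41 1 (.thr 11 56 (.dbl 3 7 22)))))))) (.rp 17 (.thr 28 29 (.thr 22 18 (.thr 19 25 (.dbl 23 20 27)))) (.rp 3 (.thr 29 28 (.thr 25 17 (.thr 45 60 (.thr 13 61 (.thr 12 14 (.thr 51 38 (.dbl 27 24 39))))))) (.rp 0 (.str 32 (.nv (.thr 22 18 (.thr 60 45 (.thr 3 41 (.thr 7 11 (.thr 37 52 (.dbl 47 42 63)))))) (.nv (.thr 29 28 (.thr 45 60 (.thr 47 63 (.thr 37 42 (.thr 61 13 (.dbl 41 1 33)))))) (.nv (.thr 28 29 (.thr 22 18 (.thr 19 25 (.dbl 23 20 27)))) (.rp 63 (.thr 22 18 (.thr 23 20 (.thr 19 27 (.dbl 28 25 29)))) (.rp 33 (.thr 29 28 (.thr 25 17 (.thr 45 60 (.thr 47 63 (.thr 37 42 (.dbl 13 49 61)))))) .nd)))))) .nd))))))))))))) (.rp 47 (.str 45 (.nv (.thr 37 48 (.thr 60 30 (.thr 41 33 (.thr 3 22 (.dbl 11 7 56))))) (.nv (.thr 30 60 (.thr 28 29 (.thr 22 18 (.thr 19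 25 (.dbl 23 20 27))))) (.rp 60 (.thr 37 48 (.thr 41 33 (.thr 61 1 (.thr 13 29 (.thr 53 5 (.dbl 49 25 57)))))) (.rp 30 (.thr 37 48 (.thr 41 33 (.thr 61 1 (.thr 13 29 (.thr 53 5 (.dbl 49 25 57)))))) (.rp 22 (.thr 30 60 (.thr 29 28 (.thr 25 17 (.thr 13 61 (.dbl 37 48 49))))) .nd)))))) (.rp 42 (.str 38 (.nv (.thr 14 50 (.thr 12 13 (.thr 51 25 (.thr 55 4 (.dbl 63 47 59))))) (.nv (.thr 37 48 (.thr 55 4 (.thr 63 47 (.thr 51 59 (.dbl 39 27 36))))) (.nv (.thr 14 50 (.thr 12 13 (.thr 25 51 (.thr 24 27 (.dbl 48 36 37))))) (.rp 51 (.thr 14 50 (.thr 4 55 (.thr 12 13 (.thr 0 8 (.thr 5 10 (.dbl 37 48 53)))))) (.rp 37 (.thr 14 50 (.thr 12 13 (.thr 25 51 (.thr 29 17 (.thr 27 24 (.thr 19 23 (.dbl 28 22 30))))))) (.rp 25 (.thr 63 47 (.thr 55 4 (.thr 37 48 (.thr 39 36 (.dbl 51 27 59))))) .nd))))))) (.rp 37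 (.str 30 (.nv (.thr 22 18 (.thr 60 45 (.thr 41 3 (.thr 61 1 (.dbl 63 47 62))))) (.nv (.thr 22 18 (.thr 23 20 (.thr 19 27 (.dbl 28 25 29)))) (.rp 22 (.thr 29 28 (.thr 25 17 (.thr 63 47 (.thr 42 0 (.thr 59 8 (.thr 51 55 (.dbl 27 24 39))))))) (.rp 19 (.thr 28 29 (.thr 63 47 (.thr 60 45 (.thr 44 12 (.thr 61 62 (.thr 41 1 (.dbl 22 3 18))))))) (.rp 18 (.thr 28 29 (.thr 63 47 (.thr 60 45 (.thr 44 12 (.thr 61 62 (.thr 41 1 (.thr 11 56 (.dbl 3 7 22)))))))) (.rp 17 (.thr 28 29 (.thr 22 18 (.thr 19 25 (.dbl 23 20 27)))) .nd))))))) (.rp 10 (.str 14 (.nv (.thr 12 13 (.thr 38 50 (.thr 4 55 (.thr 0 8 (.dbl 63 42 47))))) (.nv (.thr 12 13 (.thr 38 50 (.thr 25 51 (.thr 48 37 (.dbl 24 27 36))))) (.rp 50 (.thr 13 12 (.thr 37 48 (.thr 49 25 (.thr 53 5 (.thr 61 57 (.thr 41 1 (.dbl 45 29 33))))))) (.rp 38 (.thr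 13 12 (.thr 37 48 (.thr 25 49 (.thr 29 17 (.thr 30 28 (.dbl 45 60 61)))))) (.rp 13 (.thr 38 50 (.thr 55 4 (.thr 63 47 (.thr 51 59 (.thr 25 12 (.dbl 27 24 39)))))) (.rp 12 (.thr 38 50 (.thr 55 4 (.thr 63 47 (.thr 51 59 (.thr 39 27 (.dbl 37 36 48)))))) .nd))))))) (.rp 0 (.str 30 (.nv (.thr 29 28 (.thr 45 60 (.thr 61 13 (.thr 41 1 (.dbl 37 33 48))))) (.nv (.thr 48 37 (.thr 60 45 (.thr 56 52 (.thr 41 11 (.dbl 22 3 18))))) (.nv (.thr 28 29 (.thr 22 18 (.thr 19 25 (.dbl 23 20 27)))) (.rp 48 (.str 32 (.nv (.thr 22 18 (.thr 60 45 (.thr 3 41 (.thr 7 11 (.thr 37 52 (.dbl 47 42 63)))))) (.nv (.thr 29 28 (.thr 45 60 (.thr 47 63 (.thr 37 42 (.thr 61 13 (.dbl 41 1 33)))))) (.nv (.thr 28 29 (.thr 22 18 (.thr 19 25 (.dbl 23 20 27)))) (.rp 63 (.thr 22 18 (.thr 23 20 (.thr 19 27 (.dbl 28 25 29)))) (.rp 33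 (.thr 29 28 (.thr 25 17 (.thr 45 60 (.thr 47 63 (.thr 37 42 (.dbl 13 49 61)))))) .nd)))))) .nd))))) .nd))))))))))))

theorem w245 : WinAt (2216689664, 70368744243264) :=
  chF (K := []) kn c245 2216689664 70368744243264 16
    [] (by decide +kernel) (by decide +kernel)

/-- A certificate. -/
noncomputable def c246 : Ct := (.str 22 (.nv (.thr 30 18 (.thr 23 20 (.thr 28 29 (.dbl 19 25 27)))) (.rp 30 (.str 3 (.nv (.thr 23 20 (.thr 27 19 (.thr 43 63 (.thr 11 59 (.dbl 41 56 60))))) (.nv (.thr 20 23 (.thr 60 41 (.thr 0 40 (.thr 42 63 (.dbl 2 1 62))))) (.rp 63 (.thr 23 20 (.thr 19 27 (.thr 35 51 (.thr 41 60 (.thr 11 56 (.thr 38 44 (.thr 55 4 (.dbl 7 15 39)))))))) (.rp 60 (.thr 23 20 (.thr 27 19 (.thr 43 63 (.thr 11 59 (.thr 15 7 (.thr 51 39 (.thr 48 37 (.thr 50 49 (.thr 38 14 (.dbl 25 12 24))))))))))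 (.rp 41 (.thr 23 20 (.thr 27 19 (.thr 63 43 (.thr 42 0 (.thr 58 10 (.thr 48 53 (.thr 15 37 (.thr 7 11 (.dbl 39 51 55))))))))) (.rp 23 (.thr 41 60 (.thr 11 56 (.thr 15 7 (.thr 48 37 (.thr 18 33 (.thr 1 61 (.thr 2 0 (.thr 50 34 (.thr 51 49 (.thr 38 14 (.dbl 35 19 44))))))))))) (.rp 20 (.thr 41 60 (.thr 11 56 (.thr 1 61 (.thr 0 2 (.thr 63 42 (.thr 23 43 (.thr 19 27 (.thr 35 51 (.thr 38 44 (.thr 55 4 (.dbl 7 15 39))))))))))) .nd)))))))) (.rp 29 (.str 7 (.nv (.thr 23 20 (.thr 27 19 (.thr 37 52 (.thr 39 55 (.dbl 15 48 51))))) (.nv (.thr 37 52 (.thr 15 48 (.thr 3 11 (.thr 60 41 (.dbl 30 18 45))))) (.rp 52 (.thr 23 20 (.thr 18 30 (.thr 27 19 (.thr 39 55 (.thr 15 51 (.thr 3 11 (.dbl 48 33 37))))))) (.rp 48 (.thr 23 20 (.thr 27 19 (.thr 39 55 (.thr 15 51 (.thr 3 11 (.thr 60 41 (.dbl 30 18 45)))))))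 (.rp 37 (.thr 23 20 (.thr 27 19 (.thr 39 55 (.thr 15 51 (.thr 3 11 (.thr 60 41 (.dbl 30 18 45))))))) (.rp 18 (.thr 23 20 (.thr 39 55 (.thr 37 52 (.thr 15 48 (.dbl 27 19 51))))) (.rp 15 (.thr 23 20 (.thr 18 30 (.thr 55 39 (.thr 38 4 (.thr 50 14 (.thr 52 37 (.thr 54 53 (.thr 62 58 (.dbl 2 34 42))))))))) .nd)))))))) (.rp 28 (.thr 18 30 (.thr 20 23 (.str 3 (.nv (.thr 60 41 (.thr 0 40 (.thr 2 1 (.dbl 42 62 63)))) (.nv (.thr 48 33 (.thr 60 41 (.thr 37 15 (.dbl 52 7 56)))) (.rp 60 (.thr 48 33 (.thr 15 37 (.thr 11 7 (.thr 41 56 (.thr 1 61 (.thr 2 0 (.thr 50 34 (.thr 51 49 (.thr 38 14 (.dbl 35 19 44)))))))))) (.rp 41 (.thr 48 33 (.thr 37 15 (.thr 52 7 (.thr 4 36 (.thr 55 38 (.dbl 53 5 54)))))) .nd))))))) (.rp 27 (.str 3 (.nv (.thr 18 30 (.thr 23 20 (.thr 48 33 (.thr 63 43 (.thr 53 58 (.dbl 37 5 15))))))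 (.nv (.thr 18 30 (.thr 41 60 (.thr 11 56 (.thr 15 7 (.dbl 48 33 37))))) (.nv (.thr 20 23 (.thr 60 41 (.thr 0 40 (.thr 42 63 (.dbl 2 1 62))))) .nd)))) (.rp 25 (.str 7 (.nv (.thr 20 23 (.thr 37 52 (.thr 5 53 (.thr 15 48 (.thr 0 10 (.thr 3 11 (.dbl 60 40 41))))))) (.nv (.thr 23 20 (.thr 27 19 (.thr 39 55 (.thr 37 52 (.dbl 15 48 51))))) (.nv (.thr 30 18 (.thr 37 52 (.thr 15 48 (.thr 3 11 (.dbl 60 41 45))))) (.rp 52 (.thr 23 20 (.thr 18 30 (.thr 27 19 (.thr 39 55 (.thr 15 51 (.thr 3 11 (.dbl 48 33 37))))))) (.rp 48 (.thr 23 20 (.thr 27 19 (.thr 39 55 (.thr 15 51 (.thr 3 11 (.thr 60 41 (.dbl 30 18 45))))))) (.rp 37 (.thr 23 20 (.thr 27 19 (.thr 39 55 (.thr 15 51 (.thr 3 11 (.thr 60 41 (.dbl 30 18 45))))))) (.rp 15 (.thr 23 20 (.thr 18 30 (.thr 55 39 (.thr 38 4 (.thr 50 14 (.thr 52 37 (.thr 54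 53 (.thr 62 58 (.dbl 2 34 42))))))))) .nd)))))))) (.rp 23 (.str 15 (.nv (.thr 30 18 (.thr 29 28 (.thr 45 60 (.thr 61 13 (.thr 41 1 (.dbl 37 33 48)))))) (.nv (.thr 18 30 (.thr 48 37 (.thr 3 33 (.thr 41 60 (.dbl 11 7 56))))) (.rp 60 (.thr 30 18 (.thr 29 28 (.thr 37 48 (.thr 5 53 (.thr 0 10 (.thr 63 42 (.thr 12 46 (.thr 4 8 (.thr 14 13 (.dbl 38 50 55)))))))))) (.rp 48 (.thr 30 18 (.thr 60 45 (.thr 3 41 (.thr 7 11 (.thr 37 52 (.thr 5 53 (.thr 0 10 (.thr 2 1 (.dbl 42 62 63))))))))) (.rp 41 (.thr 30 18 (.thr 29 28 (.thr 45 60 (.thr 13 61 (.thr 37 48 (.dbl 25 17 49)))))) (.rp 37 (.thr 30 18 (.thr 60 45 (.thr 41 3 (.thr 56 11 (.thr 48 52 (.thr 61 1 (.thr 63 62 (.thr 58 53 (.dbl 42 0 10))))))))) (.rp 33 (.thr 30 18 (.thr 60 45 (.thr 3 41 (.thr 37 48 (.dbl 7 11 52))))) (.rp 30 (.thr 37 48 (.thr 7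 52 (.thr 3 11 (.thr 5 53 (.thr 0 10 (.thr 2 1 (.dbl 42 62 63))))))) (.rp 18 (.thr 37 48 (.thr 7 52 (.thr 3 11 (.thr 5 53 (.thr 0 10 (.thr 2 1 (.dbl 42 62 63))))))) .nd)))))))))) (.rp 20 (.thr 30 18 (.thr 28 29 (.thr 19 25 (.str 3 (.nv (.thr 60 41 (.thr 15 45 (.thr 7 11 (.dbl 37 48 52)))) (.nv (.thr 23 27 (.thr 41 60 (.thr 1 61 (.thr 0 2 (.dbl 63 42 43))))) (.nv (.thr 27 23 (.thr 51 35 (.thr 60 41 (.dbl 15 39 45)))) (.rp 60 (.thr 23 27 (.thr 35 51 (.thr 63 43 (.thr 0 42 (.thr 1 2 (.thr 41 61 (.thr 11 56 (.thr 38 44 (.thr 55 4 (.dbl 7 15 39)))))))))) (.rp 45 (.thr 23 27 (.thr 63 43 (.thr 0 42 (.thr 1 2 (.dbl 41 60 61))))) (.rp 41 (.thr 23 27 (.thr 63 43 (.thr 42 0 (.thr 62 2 (.thr 14 46 (.thr 50 38 (.dbl 58 10 54))))))) .nd)))))))))) (.rp 19 (.thr 18 30 (.str 3 (.nv (.thr 23 20 (.thr 48 33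 (.thr 63 43 (.thr 53 58 (.dbl 37 5 15))))) (.nv (.thr 20 23 (.thr 60 41 (.thr 0 40 (.thr 2 1 (.dbl 42 62 63))))) (.nv (.thr 48 33 (.thr 37 15 (.thr 60 41 (.dbl 52 7 56)))) .nd))))) (.rp 18 (.thr 23 20 (.thr 19 27 (.thr 28 25 (.str 60 (.nv (.thr 3 41 (.thr 63 43 (.thr 42 0 (.dbl 62 2 61)))) (.nv (.thr 30 29 (.thr 15 45 (.thr 37 48 (.thr 7 52 (.dbl 3 11 41))))) (.nv (.thr 29 30 (.thr 12 44 (.thr 3 41 (.dbl 63 43 46)))) (.rp 41 (.thr 30 29 (.thr 15 45 (.thr 37 48 (.thr 7 52 (.thr 3 11 (.thr 5 53 (.thr 0 10 (.dbl 63 42 43)))))))) (.rp 3 (.thr 30 29 (.thr 15 45 (.thr 48 37 (.thr 56 52 (.thr 41 11 (.thr 61 1 (.thr 63 62 (.thr 58 53 (.dbl 42 0 10))))))))) .nd))))))))) (.rp 17 (.thr 23 20 (.thr 30 18 (.thr 19 27 (.dbl 28 25 29)))) .nd))))))))))))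

theorem w246 : WinAt (2216689664, 140737488420928) :=
  chF (K := []) kn c246 2216689664 140737488420928 16
    [] (by decide +kernel) (by decide +kernel)

/-- A certificate. -/
noncomputable def c247 : Ct := (.str 22 (.nv (.thr 18 30 (.thr 20 23 (.thr 16 31 (.thr 19 17 (.dbl 28 24 25))))) (.rp 31 (.str 3 (.nv (.thr 20 23 (.thr 30 18 (.thr 60 41 (.thr 0 40 (.thr 42 63 (.thr 15 45 (.dbl 10 5 58))))))) (.nv (.thr 23 20 (.thr 60 41 (.thr 63 43 (.thr 62 61 (.dbl 42 0 2))))) (.rp 63 (.thr 20 23 (.thr 30 18 (.thr 60 41 (.thr 15 45 (.thr 7 11 (.thr 37 52 (.thr 0 40 (.dbl 5 10 53)))))))) (.rp 60 (.thr 23 20 (.thr 18 30 (.thr 63 43 (.thr 0 42 (.thr 2 1 (.thr 50 34 (.thr 38 14 (.thr 4 55 (.thr 12 8 (.thr 25 51 (.dbl 29 17 46))))))))))) (.rp 42 (.thr 20 23 (.thr 30 18 (.thr 60 41 (.thr 15 45 (.thr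 7 11 (.thr 37 52 (.thr 5 53 (.dbl 0 10 40)))))))) (.rp 41 (.thr 23 20 (.thr 30 18 (.thr 63 43 (.thr 42 0 (.thr 62 2 (.thr 14 46 (.thr 50 38 (.dbl 58 10 54)))))))) (.rp 40 (.thr 23 20 (.thr 63 43 (.thr 0 42 (.thr 41 60 (.dbl 1 2 61))))) (.rp 23 (.thr 30 18 (.thr 60 41 (.thr 15 45 (.thr 7 11 (.thr 37 52 (.thr 5 53 (.thr 0 10 (.thr 2 1 (.dbl 42 62 63))))))))) (.rp 20 (.thr 30 18 (.thr 60 41 (.thr 15 45 (.thr 7 11 (.thr 37 52 (.thr 5 53 (.thr 0 10 (.thr 2 1 (.dbl 42 62 63))))))))) (.rp 0 (.thr 23 20 (.thr 30 18 (.thr 63 43 (.thr 60 41 (.thr 62 61 (.thr 14 46 (.thr 50 38 (.thr 58 54 (.dbl 42 2 10))))))))) .nd))))))))))) (.rp 30 (.str 60 (.nv (.thr 3 41 (.thr 23 20 (.thr 63 43 (.thr 42 0 (.dbl 62 2 61))))) (.nv (.thr 16 31 (.thr 20 23 (.thr 40 0 (.thr 41 3 (.thr 1 61 (.thr 56 11 (.dbl 24 8 28)))))))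 (.nv (.thr 20 23 (.thr 0 40 (.thr 3 41 (.thr 2 1 (.dbl 42 62 63))))) (.rp 63 (.thr 20 23 (.thr 16 31 (.thr 40 0 (.thr 41 3 (.thr 43 42 (.thr 56 11 (.dbl 24 8 28))))))) (.rp 43 (.thr 20 23 (.thr 0 40 (.thr 63 42 (.thr 41 3 (.dbl 61 1 62))))) (.rp 41 (.thr 20 23 (.thr 16 31 (.thr 28 24 (.thr 12 44 (.thr 0 40 (.thr 8 4 (.thr 42 63 (.dbl 25 19 59)))))))) (.rp 23 (.thr 41 3 (.thr 56 11 (.thr 61 1 (.thr 63 62 (.thr 0 42 (.thr 40 20 (.thr 24 8 (.thr 25 27 (.thr 17 29 (.thr 51 34 (.dbl 57 9 54))))))))))) (.rp 20 (.thr 31 16 (.thr 41 3 (.thr 11 56 (.thr 61 1 (.thr 63 62 (.thr 0 42 (.thr 15 47 (.thr 10 5 (.thr 9 8 (.thr 25 57 (.thr 28 19 (.thr 12 44 (.dbl 29 17 46))))))))))))) (.rp 3 (.thr 20 23 (.thr 16 31 (.thr 28 24 (.thr 12 44 (.thr 0 40 (.thr 63 42 (.thr 29 46 (.dbl 25 17 19)))))))) (.rp 0 (.thr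 20 23 (.thr 16 31 (.thr 28 24 (.thr 19 25 (.thr 12 44 (.thr 41 3 (.thr 1 61 (.thr 17 18 (.thr 33 49 (.thr 37 45 (.thr 52 7 (.thr 4 36 (.thr 55 38 (.dbl 53 5 54)))))))))))))) .nd))))))))))) (.rp 29 (.thr 18 30 (.thr 20 23 (.thr 16 31 (.thr 28 24 (.dbl 19 17 25))))) (.rp 28 (.str 60 (.nv (.thr 20 23 (.thr 0 40 (.thr 30 18 (.thr 15 45 (.thr 10 5 (.dbl 42 58 63)))))) (.nv (.thr 3 41 (.thr 30 18 (.thr 15 45 (.thr 31 16 (.thr 63 47 (.dbl 23 20 43)))))) (.nv (.thr 20 23 (.thr 0 40 (.thr 63 42 (.thr 61 62 (.dbl 41 1 3))))) (.rp 63 (.thr 30 18 (.thr 20 23 (.thr 0 40 (.thr 15 45 (.thr 10 5 (.thr 3 41 (.thr 2 1 (.dbl 42 58 62)))))))) (.rp 23 (.thr 30 18 (.thr 31 16 (.thr 15 45 (.thr 63 47 (.thr 62 61 (.dbl 42 0 2)))))) (.rp 20 (.thr 30 18 (.thr 15 45 (.thr 3 41 (.thr 7 11 (.thr 37 52 (.thr 5 53 (.thr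 0 10 (.thr 2 1 (.dbl 42 62 63))))))))) (.rp 3 (.thr 20 23 (.thr 31 16 (.thr 0 40 (.thr 63 42 (.thr 15 47 (.dbl 30 18 45)))))) (.rp 0 (.thr 30 18 (.thr 23 20 (.thr 15 45 (.thr 3 41 (.thr 63 43 (.dbl 31 16 47)))))) .nd))))))))) (.rp 25 (.str 62 (.nv (.thr 23 20 (.thr 42 2 (.thr 63 0 (.thr 3 43 (.dbl 60 41 61))))) (.nv (.thr 30 18 (.thr 14 46 (.thr 42 2 (.thr 58 10 (.dbl 50 38 54))))) (.rp 42 (.thr 30 18 (.thr 31 16 (.thr 29 28 (.thr 46 14 (.thr 63 12 (.thr 60 61 (.dbl 15 45 47))))))) (.rp 14 (.thr 23 20 (.thr 42 2 (.thr 10 58 (.thr 63 0 (.thr 60 61 (.dbl 3 41 43)))))) (.rp 10 (.thr 30 18 (.thr 23 20 (.thr 14 46 (.thr 42 2 (.thr 63 0 (.thr 60 61 (.dbl 3 41 43))))))) (.rp 3 (.thr 18 30 (.thr 23 20 (.thr 2 42 (.thr 50 34 (.thr 54 58 (.thr 38 14 (.thr 55 4 (.thr 7 39 (.dbl 52 37 53))))))))) (.rp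 2 (.thr 30 18 (.thr 23 20 (.thr 14 46 (.thr 50 38 (.thr 58 54 (.thr 42 10 (.thr 63 0 (.thr 60 61 (.dbl 3 41 43))))))))) .nd)))))))) (.rp 24 (.thr 30 18 (.thr 23 20 (.thr 31 16 (.thr 28 29 (.dbl 19 25 27))))) (.rp 23 (.str 28 (.nv (.thr 16 31 (.thr 24 20 (.dbl 25 19 27))) (.nv (.thr 30 18 (.dbl 31 16 29)) (.rp 31 (.thr 18 30 (.thr 19 25 (.str 3 (.nv (.thr 17 16 (.thr 51 35 (.thr 0 34 (.thr 1 2 (.dbl 41 60 61))))) (.nv (.thr 35 51 (.thr 41 60 (.thr 1 61 (.thr 38 44 (.thr 50 14 (.dbl 2 0 34)))))) (.nv (.thr 16 17 (.thr 20 24 (.thr 60 41 (.thr 0 40 (.thr 42 63 (.dbl 2 1 62)))))) (.nv (.thr 17 16 (.thr 51 35 (.thr 0 34 (.thr 2 1 (.dbl 42 62 63))))) (.rp 2 (.thr 16 17 (.thr 24 20 (.thr 51 35 (.thr 41 60 (.thr 56 11 (.thr 40 8 (.thr 42 43 (.thr 63 0 (.thr 59 55 (.dbl 58 10 57)))))))))) (.rp 1 (.thr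 16 17 (.thr 24 20 (.thr 51 35 (.thr 41 60 (.thr 56 11 (.thr 40 8 (.thr 42 43 (.thr 63 0 (.thr 59 55 (.dbl 58 10 57)))))))))) (.rp 0 (.thr 16 17 (.thr 20 24 (.thr 51 35 (.thr 60 41 (.thr 57 54 (.thr 12 44 (.str 38 (.nv (.thr 14 50 (.thr 15 13 (.thr 7 11 (.thr 39 27 (.dbl 37 36 52))))) (.nv (.thr 55 4 (.thr 63 59 (.thr 46 29 (.thr 42 34 (.dbl 62 2 61))))) (.nv (.thr 14 50 (.thr 15 13 (.thr 7 11 (.thr 4 55 (.dbl 52 36 37))))) (.rp 62 (.thr 55 4 (.thr 63 59 (.thr 50 14 (.thr 46 29 (.dbl 34 2 42))))) (.rp 7 (.thr 50 14 (.thr 2 34 (.thr 62 42 (.thr 63 61 (.dbl 55 4 59))))) .nd)))))))))))) .nd)))))))))) (.rp 16 (.thr 30 18 (.thr 29 31 (.dbl 25 17 19))) .nd))))) (.rp 20 (.thr 30 18 (.str 3 (.nv (.thr 31 16 (.thr 28 29 (.thr 19 25 (.thr 23 27 (.thr 41 60 (.thr 1 61 (.thr 0 2 (.dbl 63 42 43))))))))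 (.nv (.thr 31 16 (.thr 41 60 (.thr 1 61 (.thr 0 2 (.thr 63 42 (.thr 15 47 (.dbl 11 7 56))))))) (.nv (.thr 31 16 (.thr 28 29 (.thr 19 25 (.thr 23 27 (.thr 63 43 (.thr 15 47 (.dbl 60 41 45))))))) (.rp 63 (.thr 31 16 (.thr 28 29 (.thr 19 25 (.thr 27 23 (.thr 51 35 (.thr 15 39 (.dbl 60 41 45))))))) (.rp 60 (.thr 31 16 (.thr 28 29 (.thr 19 25 (.thr 23 27 (.thr 63 43 (.thr 0 42 (.thr 1 2 (.thr 15 47 (.thr 11 7 (.dbl 41 56 61)))))))))) (.rp 41 (.thr 31 16 (.thr 28 29 (.thr 19 25 (.thr 27 23 (.thr 51 35 (.thr 15 39 (.thr 7 11 (.thr 37 52 (.thr 5 53 (.thr 0 10 (.dbl 63 42 47))))))))))) (.rp 32 (.thr 60 41 (.thr 15 45 (.thr 7 11 (.thr 37 52 (.thr 5 53 (.thr 31 16 (.thr 0 10 (.dbl 63 42 47)))))))) (.rp 31 (.thr 60 41 (.thr 15 45 (.thr 7 11 (.thr 37 52 (.thr 5 53 (.thr 0 10 (.thr 2 1 (.dbl 42 62 63))))))))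 (.rp 28 (.thr 60 41 (.thr 15 45 (.thr 7 11 (.thr 37 52 (.thr 5 53 (.thr 0 10 (.thr 2 1 (.dbl 42 62 63)))))))) (.rp 19 (.thr 60 41 (.thr 15 45 (.thr 7 11 (.thr 37 52 (.thr 5 53 (.thr 0 10 (.thr 2 1 (.dbl 42 62 63)))))))) (.rp 17 (.thr 60 41 (.thr 15 45 (.thr 7 11 (.thr 37 52 (.thr 5 53 (.thr 0 10 (.thr 2 1 (.dbl 42 62 63)))))))) (.rp 16 (.thr 60 41 (.thr 15 45 (.thr 7 11 (.thr 37 52 (.thr 5 53 (.thr 0 10 (.thr 2 1 (.dbl 42 62 63)))))))) (.rp 0 (.thr 16 31 (.thr 60 41 (.str 25 (.nv (.thr 15 45 (.thr 19 28 (.thr 51 35 (.dbl 27 24 39)))) (.nv (.thr 27 24 (.thr 19 28 (.thr 51 35 (.dbl 15 39 45)))) (.nv (.thr 15 45 (.thr 7 11 (.thr 37 52 (.thr 13 49 (.thr 12 14 (.dbl 28 19 44)))))) (.nv (.thr 27 24 (.thr 19 28 (.thr 15 45 (.dbl 51 35 39)))) (.rp 51 (.thr 28 19 (.thr 15 45 (.thr 7 11 (.thr 12 44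 (.thr 13 14 (.dbl 37 49 52)))))) (.rp 45 (.thr 29 17 (.thr 28 19 (.thr 12 44 (.thr 46 63 (.thr 14 62 (.dbl 38 50 51)))))) (.rp 28 (.thr 27 24 (.thr 29 17 (.thr 15 45 (.thr 51 39 (.thr 12 38 (.thr 14 13 (.dbl 46 62 63))))))) (.rp 19 (.thr 27 24 (.thr 29 17 (.thr 15 45 (.thr 51 39 (.thr 12 38 (.thr 14 13 (.dbl 46 62 63))))))) (.rp 15 (.thr 19 28 (.thr 51 35 (.thr 38 12 (.thr 14 50 (.thr 62 46 (.thr 63 61 (.dbl 55 4 59))))))) .nd)))))))))))) .nd))))))))))))))) (.rp 19 (.str 60 (.nv (.thr 20 23 (.thr 0 40 (.thr 30 18 (.thr 15 45 (.thr 10 5 (.dbl 42 58 63)))))) (.nv (.thr 3 41 (.thr 23 20 (.thr 63 43 (.thr 62 61 (.dbl 42 0 2))))) (.rp 63 (.thr 30 18 (.thr 45 15 (.thr 41 3 (.thr 33 37 (.thr 61 1 (.thr 29 13 (.dbl 31 16 28))))))) (.rp 42 (.thr 20 23 (.thr 40 0 (.thr 41 3 (.thr 56 11 (.thr 24 8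 (.dbl 16 28 31)))))) (.rp 40 (.thr 23 20 (.thr 3 41 (.thr 63 43 (.thr 42 0 (.dbl 62 2 61))))) (.rp 23 (.thr 31 16 (.thr 41 3 (.thr 61 1 (.thr 63 62 (.thr 15 47 (.dbl 30 18 45)))))) (.rp 20 (.thr 31 16 (.thr 41 3 (.thr 61 1 (.thr 63 62 (.thr 15 47 (.dbl 30 18 45)))))) (.rp 3 (.thr 20 23 (.thr 31 16 (.thr 0 40 (.thr 63 42 (.thr 15 47 (.dbl 30 18 45)))))) (.rp 0 (.thr 30 18 (.thr 23 20 (.thr 15 45 (.thr 3 41 (.thr 63 43 (.dbl 31 16 47)))))) .nd)))))))))) (.rp 18 (.str 28 (.nv (.thr 31 16 (.thr 29 30 (.dbl 25 17 19))) (.nv (.thr 20 23 (.dbl 16 24 31)) (.rp 33 (.str 3 (.nv (.thr 31 16 (.thr 29 30 (.dbl 25 17 19))) (.nv (.thr 20 23 (.dbl 16 24 31)) (.rp 31 (.thr 20 23 (.thr 24 16 (.dbl 25 19 27))) (.rp 16 (.thr 23 20 (.thr 63 43 (.thr 0 42 (.thr 1 2 (.dbl 41 60 61))))) .nd))))) (.rp 31 (.thr 20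 23 (.thr 24 16 (.dbl 25 19 27))) (.rp 16 (.thr 25 19 (.thr 17 29 (.str 3 (.nv (.thr 41 60 (.thr 1 61 (.thr 9 57 (.thr 13 5 (.dbl 49 33 37))))) (.nv (.thr 20 23 (.thr 60 41 (.thr 12 44 (.thr 38 51 (.thr 4 55 (.dbl 0 8 40)))))) (.nv (.thr 23 20 (.thr 63 43 (.thr 0 42 (.thr 41 60 (.dbl 1 2 61))))) (.rp 63 (.thr 20 23 (.thr 60 41 (.thr 12 44 (.thr 0 40 (.dbl 51 34 38))))) (.rp 60 (.thr 23 20 (.thr 63 43 (.thr 0 42 (.thr 51 34 (.thr 55 59 (.dbl 38 4 12)))))) (.rp 41 (.thr 23 20 (.thr 27 24 (.thr 43 63 (.thr 11 59 (.thr 15 7 (.thr 51 39 (.thr 0 34 (.thr 2 1 (.thr 42 62 (.dbl 10 5 58)))))))))) (.rp 32 (.str 0 (.nv (.thr 1 2 (.dbl 41 60 61)) (.nv (.thr 23 20 (.dbl 63 42 43)) .nd))) (.rp 0 (.str 32 (.nv (.thr 23 20 (.thr 27 24 (.thr 43 63 (.thr 11 59 (.dbl 41 56 60))))) (.nv (.thr 41 60 (.thr 1 61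 (.thr 9 57 (.thr 49 33 (.dbl 13 5 37))))) (.nv (.thr 41 60 (.thr 56 11 (.thr 57 9 (.thr 59 58 (.thr 8 42 (.dbl 24 27 40)))))) (.rp 63 (.thr 23 20 (.thr 60 41 (.thr 12 44 (.thr 38 51 (.thr 55 4 (.thr 7 39 (.thr 15 11 (.dbl 14 13 50)))))))) (.rp 60 (.str 11 (.nv (.thr 56 41 (.thr 27 24 (.thr 59 43 (.thr 42 8 (.dbl 58 10 57))))) (.nv (.thr 27 24 (.thr 43 59 (.dbl 23 20 63))) (.rp 59 (.thr 7 15 (.thr 20 23 (.thr 52 37 (.thr 36 4 (.thr 40 44 (.thr 56 41 (.dbl 24 8 27))))))) (.rp 56 (.str 52 (.nv (.thr 27 24 (.thr 43 59 (.dbl 23 20 63))) (.nv (.dbl 7 15 37) (.rp 40 (.thr 20 23 (.dbl 7 15 37)) (.rp 20 (.str 40 (.nv (.dbl 7 15 37) (.rp 37 (.thr 15 7 (.thr 27 24 (.thr 39 51 (.thr 43 59 (.thr 47 35 (.dbl 63 23 31)))))) (.rp 15 (.thr 27 24 (.thr 37 7 (.thr 42 47 (.dbl 43 41 59)))) (.rp 7 (.thr 27 24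 (.thr 43 59 (.thr 41 42 (.thr 1 61 (.thr 33 49 (.thr 35 34 (.dbl 44 36 38))))))) .nd))))) .nd))))) (.rp 43 (.thr 7 15 (.thr 24 27 (.thr 37 52 (.thr 56 41 (.thr 42 47 (.dbl 8 40 59)))))) (.rp 40 (.thr 20 23 (.thr 27 24 (.thr 56 41 (.thr 59 43 (.thr 42 8 (.dbl 58 10 57)))))) (.rp 36 (.thr 7 15 (.thr 24 27 (.thr 37 52 (.thr 56 41 (.thr 42 47 (.dbl 8 40 59)))))) (.rp 27 (.thr 7 15 (.thr 37 52 (.thr 56 41 (.thr 42 47 (.thr 10 58 (.dbl 8 9 59)))))) (.rp 24 (.thr 7 15 (.thr 37 52 (.thr 56 41 (.thr 42 47 (.thr 10 58 (.dbl 8 9 59)))))) (.rp 20 (.str 40 (.nv (.thr 56 41 (.dbl 24 8 27)) (.rp 56 (.str 52 (.nv (.dbl 7 15 37) (.rp 37 (.thr 15 7 (.thr 27 24 (.thr 39 51 (.thr 43 59 (.thr 47 35 (.dbl 63 23 31)))))) (.rp 15 (.thr 27 24 (.thr 37 7 (.thr 42 47 (.dbl 43 41 59)))) (.rp 7 (.thr 27 24 (.thr 43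 59 (.thr 41 42 (.thr 1 61 (.thr 33 49 (.thr 35 34 (.dbl 44 36 38))))))) .nd))))) (.rp 41 (.thr 7 15 (.thr 27 24 (.thr 59 43 (.thr 42 8 (.dbl 37 47 52))))) (.rp 27 (.thr 56 41 (.thr 8 24 (.thr 10 9 (.dbl 42 58 59)))) (.rp 24 (.thr 7 15 (.thr 37 52 (.thr 56 41 (.thr 42 47 (.thr 10 58 (.dbl 8 9 59)))))) (.rp 8 (.thr 27 24 (.thr 43 59 (.dbl 41 42 56))) .nd))))))) (.rp 12 (.thr 7 15 (.thr 24 27 (.thr 37 52 (.thr 56 41 (.thr 42 47 (.dbl 8 40 59)))))) .nd)))))))))))) (.rp 56 (.thr 23 20 (.thr 27 24 (.thr 60 41 (.thr 12 44 (.thr 43 63 (.thr 11 59 (.thr 15 7 (.dbl 51 38 39)))))))) (.rp 41 (.thr 23 20 (.thr 27 24 (.thr 43 63 (.thr 11 59 (.thr 7 15 (.thr 37 52 (.thr 47 42 (.dbl 39 35 55)))))))) (.rp 40 (.thr 20 23 (.thr 41 60 (.thr 9 57 (.thr 1 61 (.thr 13 5 (.dbl 49 33 37)))))) (.rp 20 (.thr 24 27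 (.thr 60 41 (.thr 44 12 (.thr 40 36 (.thr 8 56 (.thr 42 59 (.thr 37 47 (.thr 13 49 (.thr 5 53 (.thr 9 1 (.dbl 10 11 58))))))))))) .nd)))))))))) .nd))))))))))) (.rp 3 (.str 33 (.nv (.thr 31 16 (.thr 29 30 (.dbl 25 17 19))) (.nv (.thr 16 31 (.dbl 20 23 24)) (.rp 31 (.thr 20 23 (.thr 24 16 (.dbl 25 19 27))) (.rp 16 (.thr 20 23 (.thr 25 19 (.thr 17 29 (.thr 49 1 (.thr 37 13 (.thr 52 7 (.thr 4 36 (.thr 55 38 (.dbl 53 5 54))))))))) (.rp 12 (.str 9 (.nv (.thr 25 19 (.thr 17 29 (.thr 1 49 (.dbl 41 57 61)))) (.nv (.thr 16 31 (.dbl 20 23 24)) (.rp 36 (.str 24 (.nv (.dbl 25 19 27) (.nv (.dbl 20 16 23) .nd))) (.rp 24 (.str 36 (.nv (.thr 25 19 (.thr 17 29 (.thr 1 49 (.dbl 41 57 61)))) (.nv (.thr 19 25 (.thr 23 20 (.dbl 31 16 27))) (.rp 51 (.thr 23 20 (.thr 31 16 (.dbl 19 25 27))) (.rp 25 (.thr 20 23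 (.thr 52 4 (.thr 37 7 (.thr 5 53 (.thr 1 13 (.dbl 41 45 61)))))) (.rp 19 (.thr 20 23 (.thr 52 4 (.thr 37 7 (.thr 5 53 (.thr 1 13 (.dbl 41 45 61)))))) .nd)))))) .nd))))) (.rp 9 (.str 12 (.nv (.thr 31 16 (.thr 29 30 (.dbl 25 17 19))) (.nv (.thr 16 31 (.dbl 20 23 24)) (.rp 31 (.thr 20 23 (.thr 24 16 (.dbl 25 19 27))) (.rp 16 (.thr 20 23 (.thr 25 19 (.thr 17 29 (.thr 51 38 (.thr 0 34 (.dbl 60 40 44)))))) .nd))))) .nd))))))) .nd))))))) (.rp 17 (.thr 30 18 (.thr 23 20 (.thr 31 16 (.thr 19 27 (.dbl 28 25 29))))) (.rp 16 (.thr 20 23 (.str 0 (.nv (.thr 30 18 (.thr 42 63 (.thr 58 10 (.thr 62 2 (.thr 14 46 (.dbl 50 38 54)))))) (.nv (.thr 30 18 (.thr 60 40 (.thr 15 45 (.thr 10 5 (.dbl 42 58 63))))) (.nv (.thr 60 40 (.thr 3 41 (.thr 2 1 (.dbl 42 62 63)))) (.rp 63 (.thr 30 18 (.thr 60 40 (.thr 15 45 (.thr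 5 10 (.thr 3 41 (.thr 7 11 (.dbl 37 52 53))))))) (.rp 42 (.thr 30 18 (.thr 60 40 (.thr 15 45 (.thr 5 10 (.thr 37 53 (.thr 7 52 (.dbl 3 11 41))))))) (.rp 3 (.thr 18 30 (.thr 60 40 (.thr 63 42 (.thr 61 62 (.thr 41 1 (.str 12 (.nv (.thr 28 44 (.thr 25 19 (.thr 51 38 (.dbl 57 9 54)))) (.nv (.thr 8 4 (.thr 11 56 (.thr 9 10 (.thr 25 57 (.dbl 29 17 46))))) (.nv (.thr 44 28 (.thr 38 35 (.dbl 4 8 55))) (.rp 46 (.str 14 (.nv (.thr 38 50 (.dbl 4 8 55)) (.nv (.thr 44 28 (.dbl 38 35 50)) (.rp 50 (.thr 4 8 (.thr 44 28 (.dbl 38 35 55))) (.rp 38 (.str 34 (.nv (.thr 8 4 (.thr 11 56 (.thr 10 9 (.dbl 15 5 13)))) (.nv (.thr 17 51 (.thr 25 29 (.dbl 28 19 44))) .nd))) .nd))))) (.rp 14 (.thr 46 29 (.thr 4 8 (.thr 38 55 (.dbl 44 28 35)))) .nd))))))))))) .nd)))))))) .nd))))))))))))))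

theorem w247 : WinAt (69206016, 281474976710720) :=
  chF (K := []) kn c247 69206016 281474976710720 48
    [] (by decide +kernel) (by decide +kernel)

/-- A certificate. -/
noncomputable def c248 : Ct := (.str 63 (.nv (.thr 0 42 (.thr 15 47 (.thr 37 48 (.dbl 5 10 53)))) (.nv (.thr 15 47 (.thr 48 37 (.thr 58 53 (.dbl 42 0 10)))) (.rp 53 (.str 23 (.nv (.thr 0 42 (.thr 3 43 (.thr 15 47 (.thr 11 7 (.thr 41 56 (.dbl 1 2 61)))))) (.nv (.thr 22 20 (.thr 30 18 (.thr 28 29 (.dbl 19 25 27)))) .nd))) (.rp 48 (.thr 0 42 (.str 30 (.nv (.thr 22 18 (.thr 20 23 (.thr 60 40 (.dbl 15 45 47)))) (.nv (.thr 15 47 (.thr 60 45 (.thr 62 61 (.thr 46 14 (.dbl 29 12 28))))) (.nv (.thr 22 18 (.thr 23 20 (.thr 28 29 (.dbl 19 25 27)))) (.rp 50 (.str 49 (.nv (.thr 15 47 (.thr 29 28 (.thr 12 46 (.thr 25 17 (.dbl 13 14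 37))))) (.nv (.thr 15 47 (.thr 5 10 (.thr 60 45 (.thr 61 62 (.dbl 53 37 57))))) (.nv (.thr 28 29 (.thr 22 18 (.thr 23 20 (.dbl 19 25 27)))) .nd)))) (.rp 49 (.str 50 (.nv (.thr 15 47 (.thr 22 18 (.thr 20 23 (.dbl 60 40 45)))) (.nv (.thr 14 38 (.thr 46 62 (.dbl 29 12 28))) (.rp 22 (.thr 29 28 (.thr 46 12 (.dbl 14 38 62))) .nd)))) .nd))))))) (.rp 47 (.str 23 (.nv (.thr 0 42 (.thr 3 43 (.thr 1 2 (.thr 41 61 (.dbl 22 20 60))))) (.nv (.thr 22 20 (.thr 30 18 (.thr 28 29 (.dbl 19 25 27)))) (.rp 22 (.thr 27 19 (.thr 25 24 (.thr 42 0 (.thr 59 8 (.dbl 43 3 11))))) (.rp 20 (.thr 19 27 (.thr 3 43 (.thr 0 42 (.thr 1 2 (.thr 41 61 (.thr 22 60 (.thr 28 25 (.dbl 30 18 29)))))))) .nd))))) (.rp 42 (.str 23 (.nv (.thr 3 43 (.thr 15 47 (.thr 11 7 (.thr 41 56 (.thr 60 22 (.dbl 61 1 62)))))) (.nv (.thr 22 20 (.thr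 30 18 (.thr 28 29 (.dbl 19 25 27)))) (.rp 22 (.thr 15 47 (.thr 37 48 (.thr 5 53 (.thr 0 10 (.thr 3 43 (.thr 11 7 (.thr 41 56 (.dbl 1 2 61)))))))) .nd)))) (.rp 37 (.str 23 (.nv (.thr 0 42 (.thr 3 43 (.thr 1 2 (.thr 41 61 (.thr 11 56 (.dbl 15 7 47)))))) (.nv (.thr 22 20 (.thr 30 18 (.thr 28 29 (.dbl 19 25 27)))) (.rp 22 (.thr 27 19 (.thr 25 24 (.thr 42 0 (.thr 59 8 (.dbl 43 3 11))))) .nd)))) (.rp 15 (.str 23 (.nv (.thr 27 19 (.thr 25 24 (.thr 42 0 (.thr 59 8 (.dbl 43 3 11))))) (.nv (.thr 0 42 (.thr 3 43 (.thr 1 2 (.thr 41 61 (.dbl 22 20 60))))) (.nv (.thr 22 20 (.thr 30 18 (.thr 28 29 (.dbl 19 25 27)))) (.rp 27 (.str 39 (.nv (.thr 0 42 (.thr 3 43 (.thr 1 2 (.thr 41 61 (.dbl 22 20 60))))) (.nv (.thr 7 55 (.thr 22 20 (.thr 37 52 (.thr 53 5 (.thr 58 48 (.dbl 42 0 10)))))) (.nv (.thr 22 20 (.thr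 3 43 (.thr 60 41 (.thr 62 61 (.dbl 42 0 2))))) (.rp 60 (.thr 22 20 (.thr 30 18 (.thr 55 7 (.thr 4 38 (.thr 0 42 (.thr 12 8 (.dbl 29 28 46))))))) (.rp 42 (.thr 22 20 (.thr 18 30 (.thr 7 55 (.thr 52 37 (.thr 3 43 (.thr 48 33 (.dbl 60 41 56))))))) (.rp 22 (.thr 43 3 (.thr 35 47 (.thr 42 0 (.thr 41 40 (.thr 38 44 (.dbl 55 4 7)))))) (.rp 20 (.thr 55 7 (.thr 3 43 (.thr 4 38 (.thr 0 42 (.thr 1 2 (.thr 41 61 (.thr 22 60 (.thr 30 18 (.thr 12 8 (.dbl 29 28 46)))))))))) (.rp 0 (.thr 22 20 (.thr 30 18 (.thr 3 43 (.thr 60 41 (.thr 62 61 (.thr 46 14 (.dbl 29 12 28))))))) .nd))))))))) (.rp 20 (.thr 3 43 (.thr 0 42 (.thr 1 2 (.thr 41 61 (.thr 22 60 (.thr 30 18 (.thr 28 29 (.dbl 19 25 27)))))))) .nd)))))) (.rp 10 (.thr 15 47 (.str 14 (.nv (.thr 12 13 (.thr 29 46 (.thr 25 17 (.thr 27 24 (.thr 19 23 (.dbl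 28 22 30)))))) (.nv (.thr 12 13 (.thr 38 50 (.thr 4 55 (.dbl 0 8 42)))) (.rp 13 (.thr 42 0 (.thr 50 38 (.thr 48 37 (.thr 58 53 (.thr 62 54 (.thr 22 2 (.dbl 30 18 46))))))) (.rp 12 (.thr 48 37 (.thr 58 53 (.thr 38 50 (.str 3 (.nv (.thr 11 7 (.thr 18 33 (.thr 22 30 (.dbl 41 56 60)))) (.nv (.thr 42 0 (.thr 7 11 (.thr 23 43 (.dbl 55 4 39)))) (.nv (.thr 18 33 (.thr 22 30 (.dbl 23 20 43))) (.rp 42 (.str 32 (.nv (.thr 7 11 (.thr 55 4 (.dbl 23 39 43))) (.nv (.thr 11 7 (.thr 41 56 (.thr 61 1 (.dbl 60 22 62)))) (.nv (.thr 18 33 (.thr 22 30 (.dbl 23 20 43))) .nd)))) .nd)))))))) (.rp 0 (.thr 12 13 (.thr 29 46 (.thr 48 37 (.thr 24 36 (.dbl 25 17 27))))) .nd))))))) (.rp 0 (.thr 15 47 (.thr 48 37 (.thr 58 53 (.thr 42 10 (.str 3 (.nv (.thr 11 7 (.thr 18 33 (.thr 22 30 (.dbl 41 56 60)))) (.nv (.thr 18 33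 (.thr 22 30 (.dbl 23 20 43))) (.nv (.thr 43 23 (.thr 41 40 (.dbl 11 7 56))) (.rp 41 (.thr 23 43 (.thr 22 20 (.dbl 18 30 33))) (.rp 34 (.str 17 (.nv (.thr 11 7 (.thr 33 18 (.thr 41 56 (.dbl 1 49 61)))) (.nv (.thr 23 43 (.thr 27 19 (.dbl 25 24 29))) (.rp 14 (.str 2 (.nv (.thr 23 43 (.thr 25 29 (.dbl 27 19 24))) (.nv (.thr 22 62 (.dbl 18 30 33)) .nd))) (.rp 2 (.str 14 (.nv (.thr 18 33 (.thr 22 30 (.dbl 23 20 43))) (.nv (.thr 29 25 (.dbl 12 13 46)) (.rp 18 (.thr 50 38 (.thr 29 25 (.dbl 12 13 46))) .nd)))) .nd))))) (.rp 17 (.str 34 (.nv (.thr 43 23 (.thr 41 40 (.dbl 11 7 56))) (.nv (.thr 18 33 (.thr 2 50 (.dbl 22 30 62))) (.rp 41 (.thr 23 43 (.thr 22 20 (.dbl 18 30 33))) (.rp 18 (.str 19 (.nv (.dbl 23 27 43) (.rp 43 (.thr 23 27 (.thr 11 7 (.thr 22 20 (.dbl 41 56 60)))) (.rp 27 (.thr 43 23 (.thr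 11 7 (.dbl 41 40 56))) (.rp 23 (.thr 11 7 (.thr 41 56 (.thr 61 1 (.dbl 60 22 62)))) (.rp 14 (.str 2 (.nv (.thr 11 7 (.thr 22 62 (.dbl 41 56 60))) (.nv (.dbl 23 27 43) .nd))) (.rp 2 (.str 14 (.nv (.dbl 23 27 43) (.nv (.dbl 38 46 50) .nd))) .nd))))))) (.rp 14 (.str 2 (.nv (.thr 22 62 (.dbl 23 20 43)) (.nv (.dbl 18 33 50) (.rp 18 (.str 19 (.nv (.thr 11 7 (.thr 22 62 (.dbl 41 56 60))) (.nv (.dbl 23 27 43) .nd))) .nd)))) (.rp 2 (.str 14 (.nv (.thr 18 33 (.thr 22 30 (.dbl 23 20 43))) (.nv (.dbl 38 46 50) (.rp 18 (.str 19 (.nv (.dbl 23 27 43) (.nv (.dbl 38 46 50) .nd))) .nd)))) .nd))))))) (.rp 14 (.str 2 (.nv (.thr 43 23 (.thr 41 40 (.dbl 11 7 56))) (.nv (.thr 22 62 (.dbl 18 30 33)) (.rp 34 (.str 17 (.nv (.thr 23 43 (.thr 25 29 (.dbl 27 19 24))) (.nv (.thr 22 62 (.dbl 18 30 33)) .nd))) (.rp 17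 (.str 34 (.nv (.thr 22 62 (.dbl 23 20 43)) (.nv (.dbl 18 33 50) (.rp 18 (.str 19 (.nv (.thr 11 7 (.thr 22 62 (.dbl 41 56 60))) (.nv (.dbl 23 27 43) .nd))) .nd)))) .nd))))) (.rp 2 (.str 14 (.nv (.thr 11 7 (.thr 41 56 (.dbl 43 23 40))) (.nv (.thr 38 50 (.thr 12 13 (.dbl 46 29 34))) (.rp 34 (.str 17 (.nv (.thr 18 33 (.thr 22 30 (.dbl 23 20 43))) (.nv (.thr 29 25 (.dbl 12 13 46)) (.rp 18 (.thr 50 38 (.thr 29 25 (.dbl 12 13 46))) .nd)))) (.rp 17 (.str 34 (.nv (.thr 18 33 (.thr 22 30 (.dbl 23 20 43))) (.nv (.dbl 38 46 50) (.rp 18 (.str 19 (.nv (.dbl 23 27 43) (.nv (.dbl 38 46 50) .nd))) .nd)))) .nd))))) .nd))))))))))))) .nd)))))))))))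

theorem w248 : WinAt (2216689664, 2251799813750848) :=
  chF (K := []) kn c248 2216689664 2251799813750848 16
    [] (by decide +kernel) (by decide +kernel)

/-- A certificate. -/
noncomputable def c249 : Ct := (.str 28 (.nv (.thr 30 29 (.thr 22 18 (.thr 19 25 (.dbl 23 20 27)))) (.nv (.thr 29 30 (.thr 25 17 (.thr 27 24 (.dbl 19 22 23)))) (.rp 30 (.str 19 (.nv (.thr 23 27 (.dbl 22 20 25)) (.rp 27 (.str 15 (.nv (.thr 25 22 (.thr 29 17 (.thr 63 47 (.thr 12 46 (.thr 14 13 (.dbl 38 50 51)))))) (.nv (.thr 63 47 (.thr 0 42 (.thr 37 48 (.dbl 5 10 53)))) (.rp 63 (.thr 25 22 (.thr 29 17 (.thr 37 48 (.thr 13 49 (.thr 61 45 (.thr 1 41 (.dbl 5 9 53))))))) (.rp 47 (.thr 25 22 (.thr 29 17 (.thr 37 48 (.thr 13 49 (.thr 61 45 (.thr 1 41 (.dbl 5 9 53))))))) .nd))))) (.rp 25 (.thr 23 27 (.thr 22 20 (.str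 63 (.nv (.thr 0 42 (.thr 3 43 (.thr 1 2 (.dbl 41 60 61)))) (.nv (.thr 15 47 (.thr 3 43 (.thr 11 7 (.dbl 41 56 60)))) (.nv (.thr 0 42 (.thr 15 47 (.thr 37 48 (.dbl 5 10 53)))) (.rp 41 (.str 9 (.nv (.thr 15 47 (.thr 37 48 (.thr 7 52 (.dbl 3 11 43)))) (.nv (.thr 3 43 (.thr 15 47 (.thr 11 7 (.thr 10 8 (.dbl 0 5 42))))) (.nv (.thr 15 47 (.thr 37 48 (.thr 5 53 (.dbl 0 10 42)))) (.rp 47 (.thr 3 43 (.thr 42 0 (.thr 58 10 (.thr 48 53 (.thr 18 33 (.thr 2 62 (.thr 50 34 (.dbl 51 35 49)))))))) (.rp 15 (.thr 3 43 (.thr 42 0 (.thr 62 2 (.thr 60 61 (.thr 12 44 (.thr 46 29 (.thr 51 35 (.thr 38 34 (.dbl 55 4 59))))))))) (.rp 0 (.thr 3 43 (.thr 15 47 (.thr 11 7 (.thr 10 8 (.thr 48 37 (.dbl 58 42 53)))))) .nd))))))) (.rp 9 (.str 41 (.nv (.dbl 3 43 60) (.rp 60 (.thr 3 43 (.thr 11 56 (.dbl 15 7 47))) (.rp 43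 (.thr 61 1 (.dbl 60 3 62)) (.rp 3 (.str 12 (.nv (.thr 0 42 (.thr 15 47 (.thr 5 10 (.dbl 37 48 53)))) (.nv (.thr 60 44 (.dbl 61 1 62)) .nd))) .nd))))) .nd)))))))) (.rp 23 (.str 63 (.nv (.thr 15 47 (.thr 25 22 (.thr 24 27 (.thr 29 17 (.thr 12 46 (.dbl 48 36 37)))))) (.nv (.thr 0 42 (.thr 25 22 (.thr 17 29 (.thr 51 34 (.thr 38 12 (.dbl 55 4 59)))))) (.nv (.thr 15 47 (.thr 48 37 (.thr 42 0 (.dbl 58 10 53)))) .nd)))) (.rp 22 (.thr 27 23 (.thr 25 24 (.thr 17 29 (.str 51 (.nv (.thr 0 34 (.thr 38 12 (.thr 55 4 (.dbl 63 42 59)))) (.nv (.thr 38 12 (.thr 50 14 (.thr 48 49 (.dbl 15 37 39)))) (.nv (.thr 15 39 (.thr 0 34 (.dbl 63 42 47))) (.rp 63 (.thr 15 39 (.thr 48 37 (.thr 50 49 (.dbl 38 12 14)))) (.rp 38 (.str 54 (.nv (.thr 15 39 (.thr 63 47 (.thr 55 59 (.thr 53 52 (.dbl 37 5 48))))) (.nv (.thr 0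 34 (.thr 42 63 (.thr 10 58 (.dbl 15 5 39)))) (.nv (.thr 15 39 (.thr 0 34 (.dbl 63 42 47))) (.rp 63 (.thr 15 39 (.thr 37 48 (.thr 0 34 (.dbl 5 10 53)))) (.rp 39 (.thr 3 35 (.thr 0 34 (.thr 1 2 (.thr 41 61 (.thr 11 56 (.thr 42 63 (.dbl 59 8 43))))))) (.rp 15 (.thr 3 35 (.thr 0 34 (.thr 1 2 (.thr 41 61 (.thr 11 56 (.thr 59 43 (.dbl 63 42 55))))))) .nd))))))) .nd))))))))) (.rp 20 (.thr 27 23 (.dbl 25 22 24)) .nd))))))) (.rp 29 (.str 19 (.nv (.thr 27 23 (.dbl 25 22 24)) (.rp 27 (.str 15 (.nv (.thr 22 25 (.thr 20 23 (.thr 30 18 (.thr 60 45 (.thr 0 40 (.dbl 63 42 47)))))) (.nv (.thr 22 25 (.thr 18 30 (.thr 48 37 (.thr 3 33 (.thr 41 60 (.dbl 11 7 56)))))) (.nv (.thr 63 47 (.thr 0 42 (.thr 37 48 (.dbl 5 10 53)))) .nd)))) (.rp 25 (.thr 23 27 (.thr 22 20 (.thr 18 30 (.str 3 (.nv (.thr 41 60 (.thr 11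 56 (.thr 15 7 (.dbl 48 33 37)))) (.nv (.thr 41 60 (.thr 1 61 (.thr 0 2 (.dbl 63 42 43)))) (.nv (.thr 63 43 (.thr 48 33 (.dbl 15 37 47))) (.rp 41 (.str 9 (.nv (.thr 63 43 (.thr 15 47 (.thr 11 7 (.thr 10 8 (.dbl 0 5 42))))) (.nv (.thr 48 33 (.thr 37 15 (.thr 53 5 (.dbl 63 43 58)))) (.nv (.thr 63 43 (.thr 48 33 (.dbl 15 37 47))) (.rp 63 (.thr 51 35 (.thr 48 33 (.thr 50 49 (.thr 38 14 (.thr 55 4 (.thr 7 39 (.dbl 15 11 37))))))) (.rp 43 (.thr 51 35 (.thr 48 33 (.thr 50 49 (.thr 38 14 (.thr 55 4 (.thr 37 15 (.dbl 7 39 52))))))) (.rp 15 (.thr 63 43 (.thr 42 0 (.thr 48 33 (.dbl 58 10 53)))) .nd))))))) (.rp 15 (.thr 63 43 (.thr 0 42 (.thr 1 2 (.dbl 41 60 61)))) .nd))))))))) (.rp 24 (.thr 23 27 (.dbl 22 20 25)) (.rp 23 (.str 63 (.nv (.thr 15 47 (.thr 22 25 (.thr 30 18 (.thr 60 45 (.thr 61 62 (.dbl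 41 1 3)))))) (.nv (.thr 15 47 (.thr 48 37 (.thr 42 0 (.dbl 58 10 53)))) (.rp 47 (.thr 22 25 (.thr 30 18 (.thr 42 0 (.thr 62 2 (.thr 14 46 (.thr 50 38 (.dbl 58 10 54))))))) (.rp 15 (.thr 22 25 (.thr 30 18 (.thr 42 0 (.thr 62 2 (.thr 14 46 (.thr 50 38 (.dbl 58 10 54))))))) .nd))))) (.rp 22 (.thr 27 23 (.thr 25 24 (.str 15 (.nv (.thr 37 48 (.thr 13 49 (.thr 12 14 (.dbl 51 38 39)))) (.nv (.thr 63 47 (.thr 51 39 (.thr 55 59 (.dbl 38 4 12)))) (.nv (.thr 48 37 (.thr 63 47 (.thr 42 0 (.dbl 58 10 53)))) (.rp 54 (.str 38 (.nv (.dbl 51 12 39) (.rp 51 (.str 60 (.nv (.thr 14 50 (.thr 63 47 (.thr 62 61 (.dbl 30 45 46)))) (.nv (.thr 44 12 (.thr 45 30 (.dbl 47 46 63))) (.nv (.thr 12 44 (.dbl 14 13 50)) .nd)))) (.rp 39 (.thr 14 50 (.dbl 12 13 51)) (.rp 12 (.thr 51 39 (.thr 55 4 (.dbl 63 47 59))) .nd)))))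 (.rp 38 (.str 54 (.nv (.thr 63 47 (.thr 42 0 (.thr 59 8 (.dbl 51 39 55)))) (.nv (.thr 51 39 (.thr 63 47 (.thr 55 59 (.thr 53 52 (.dbl 37 5 48))))) (.nv (.thr 63 47 (.thr 42 0 (.thr 58 10 (.dbl 48 37 53)))) (.rp 63 (.thr 51 39 (.thr 37 48 (.thr 13 49 (.thr 12 14 (.thr 60 44 (.thr 45 30 (.thr 3 35 (.thr 41 33 (.dbl 11 7 56))))))))) (.rp 48 (.thr 51 39 (.thr 63 47 (.thr 55 59 (.thr 53 52 (.thr 0 42 (.dbl 5 10 37)))))) (.rp 47 (.thr 51 39 (.thr 37 48 (.thr 5 53 (.thr 0 10 (.thr 17 34 (.thr 49 13 (.thr 1 33 (.dbl 3 2 35)))))))) .nd))))))) .nd)))))))) .nd))))))) (.rp 27 (.str 15 (.nv (.thr 30 29 (.thr 22 18 (.thr 37 48 (.thr 7 52 (.thr 3 11 (.dbl 60 41 45)))))) (.nv (.thr 29 30 (.thr 25 17 (.thr 63 47 (.thr 12 46 (.thr 14 13 (.dbl 38 50 51)))))) (.nv (.thr 63 47 (.thr 0 42 (.thr 37 48 (.dbl 5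 10 53)))) .nd)))) (.rp 25 (.thr 30 29 (.str 60 (.nv (.thr 15 45 (.thr 37 48 (.thr 5 53 (.thr 0 10 (.dbl 63 42 47))))) (.nv (.thr 22 18 (.thr 41 3 (.thr 56 11 (.thr 48 52 (.dbl 15 37 45))))) (.nv (.thr 15 45 (.thr 63 47 (.thr 61 62 (.thr 41 1 (.dbl 22 3 18))))) (.rp 45 (.thr 22 18 (.thr 20 23 (.thr 0 40 (.thr 63 42 (.thr 61 62 (.dbl 41 1 3)))))) (.rp 41 (.str 9 (.nv (.thr 12 44 (.thr 15 45 (.thr 13 14 (.thr 5 1 (.dbl 37 48 53))))) (.nv (.thr 22 18 (.thr 20 23 (.thr 0 40 (.thr 15 45 (.dbl 63 42 47))))) (.nv (.thr 12 44 (.thr 22 18 (.thr 20 23 (.thr 0 40 (.thr 8 4 (.thr 10 11 (.dbl 42 58 63))))))) (.nv (.thr 15 45 (.thr 37 48 (.thr 5 53 (.thr 13 1 (.dbl 12 14 44))))) .nd))))) (.rp 15 (.thr 22 18 (.thr 20 23 (.thr 0 40 (.thr 63 42 (.thr 61 62 (.dbl 41 1 3)))))) (.rp 9 (.str 41 (.nv (.thr 3 22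 (.thr 11 56 (.dbl 15 7 45))) (.nv (.dbl 22 3 18) (.rp 22 (.thr 15 45 (.thr 63 47 (.dbl 61 1 62))) (.rp 3 (.thr 12 44 (.thr 15 45 (.thr 56 11 (.dbl 48 37 52)))) .nd))))) .nd))))))))) (.rp 23 (.str 63 (.nv (.thr 15 47 (.thr 29 30 (.thr 12 46 (.thr 14 13 (.thr 25 17 (.dbl 38 50 51)))))) (.nv (.thr 0 42 (.thr 29 30 (.thr 12 46 (.thr 4 8 (.thr 25 17 (.dbl 38 51 55)))))) (.nv (.thr 15 47 (.thr 48 37 (.thr 42 0 (.dbl 58 10 53)))) .nd)))) (.rp 22 (.thr 29 30 (.str 12 (.nv (.thr 25 17 (.thr 24 27 (.thr 38 51 (.thr 14 50 (.thr 15 13 (.dbl 48 36 37)))))) (.nv (.thr 63 46 (.thr 0 42 (.thr 15 47 (.thr 5 10 (.dbl 37 48 53))))) (.nv (.thr 25 17 (.thr 38 51 (.thr 4 55 (.thr 0 8 (.dbl 63 42 46))))) (.nv (.thr 63 46 (.thr 15 47 (.thr 14 13 (.thr 38 50 (.dbl 25 17 51))))) (.rp 54 (.str 38 (.nv (.thr 4 55 (.thr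 0 8 (.dbl 63 42 46))) (.nv (.dbl 25 17 51) (.rp 60 (.thr 51 25 (.thr 63 46 (.dbl 55 4 59))) (.rp 51 (.thr 60 44 (.thr 63 46 (.thr 4 55 (.dbl 0 8 42)))) .nd))))) (.rp 38 (.str 54 (.nv (.thr 60 44 (.thr 63 46 (.thr 62 61 (.thr 58 50 (.dbl 42 0 10))))) (.nv (.thr 25 17 (.thr 24 27 (.thr 48 36 (.thr 63 46 (.dbl 15 37 47))))) (.nv (.thr 25 17 (.thr 24 27 (.thr 48 36 (.thr 37 15 (.thr 60 44 (.thr 52 56 (.dbl 53 5 55))))))) (.nv (.thr 63 46 (.thr 42 0 (.thr 15 47 (.thr 58 10 (.dbl 48 37 53))))) .nd))))) .nd)))))))) (.rp 19 (.thr 29 30 (.str 63 (.nv (.thr 12 46 (.thr 15 47 (.thr 14 13 (.thr 38 50 (.dbl 25 17 51))))) (.nv (.thr 0 42 (.thr 12 46 (.thr 4 8 (.thr 38 55 (.dbl 25 17 51))))) (.nv (.thr 15 47 (.thr 48 37 (.thr 42 0 (.dbl 58 10 53)))) (.rp 18 (.thr 17 25 (.thr 15 47 (.thr 48 37 (.thr 58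 53 (.dbl 42 0 10))))) (.rp 17 (.str 18 (.nv (.thr 12 46 (.thr 15 47 (.thr 14 13 (.thr 38 50 (.thr 55 4 (.dbl 51 25 59)))))) (.nv (.thr 15 47 (.thr 0 42 (.thr 37 48 (.dbl 5 10 53)))) (.rp 47 (.thr 12 46 (.thr 0 42 (.thr 4 8 (.thr 38 55 (.thr 14 50 (.thr 15 13 (.thr 5 10 (.dbl 37 48 53)))))))) (.rp 15 (.thr 12 46 (.thr 60 44 (.thr 62 61 (.thr 42 0 (.thr 22 2 (.thr 23 20 (.dbl 3 41 43))))))) (.rp 5 (.thr 15 47 (.thr 48 37 (.thr 58 53 (.dbl 42 0 10)))) .nd)))))) .nd))))))) (.rp 18 (.thr 29 30 (.thr 25 17 (.thr 19 22 (.dbl 27 23 24)))) .nd)))))))))))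

theorem w249 : WinAt (2216689664, 144115188075921472) :=
  chF (K := []) kn c249 2216689664 144115188075921472 16
    [] (by decide +kernel) (by decide +kernel)

/-- A certificate. -/
noncomputable def c250 : Ct := (.str 63 (.nv (.thr 0 42 (.thr 15 47 (.thr 37 48 (.dbl 5 10 53)))) (.nv (.thr 15 47 (.thr 48 37 (.thr 58 53 (.dbl 42 0 10)))) (.rp 53 (.str 23 (.nv (.thr 3 43 (.thr 15 47 (.thr 11 7 (.thr 0 42 (.thr 41 56 (.dbl 1 2 61)))))) (.nv (.thr 19 27 (.thr 22 20 (.thr 28 25 (.dbl 30 18 29)))) (.rp 0 (.thr 27 19 (.thr 15 47 (.thr 51 39 (.thr 59 55 (.dbl 43 3 11))))) .nd)))) (.rp 48 (.thr 0 42 (.str 27 (.nv (.thr 25 24 (.thr 17 29 (.thr 51 34 (.dbl 15 39 47)))) (.nv (.thr 15 47 (.thr 51 39 (.thr 59 55 (.thr 43 11 (.dbl 23 3 19))))) (.nv (.thr 25 24 (.thr 29 17 (.thr 19 23 (.dbl 28 22 30))))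 (.rp 56 (.str 52 (.nv (.thr 25 24 (.thr 17 29 (.thr 51 34 (.dbl 15 39 47)))) (.nv (.thr 15 47 (.thr 51 39 (.thr 59 55 (.thr 43 11 (.dbl 23 3 19))))) (.nv (.thr 19 23 (.thr 25 24 (.thr 29 17 (.dbl 28 22 30)))) .nd)))) (.rp 52 (.str 56 (.nv (.thr 15 47 (.thr 25 24 (.thr 17 29 (.dbl 51 34 39)))) (.nv (.thr 23 19 (.thr 11 41 (.dbl 43 3 59))) (.rp 17 (.thr 11 41 (.thr 43 59 (.dbl 23 3 19))) .nd)))) .nd))))))) (.rp 47 (.str 23 (.nv (.thr 27 19 (.thr 25 24 (.thr 42 0 (.thr 59 8 (.dbl 43 3 11))))) (.nv (.thr 3 43 (.thr 42 0 (.thr 58 10 (.thr 48 53 (.thr 18 33 (.dbl 22 20 30)))))) (.nv (.thr 19 27 (.thr 22 20 (.thr 28 25 (.dbl 30 18 29)))) (.rp 40 (.thr 22 20 (.thr 0 42 (.thr 19 27 (.thr 28 25 (.dbl 30 18 29))))) (.rp 20 (.thr 27 19 (.thr 43 3 (.thr 11 59 (.thr 41 56 (.dbl 42 0 40))))) (.rp 18 (.thr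 20 22 (.thr 42 0 (.thr 43 3 (.thr 41 40 (.thr 11 56 (.dbl 27 19 59)))))) (.rp 0 (.thr 27 19 (.thr 25 24 (.thr 43 3 (.thr 59 11 (.thr 51 55 (.thr 12 38 (.dbl 29 17 46))))))) .nd)))))))) (.rp 42 (.str 23 (.nv (.thr 3 43 (.thr 15 47 (.thr 22 20 (.thr 18 30 (.dbl 48 33 37))))) (.nv (.thr 3 43 (.thr 15 47 (.thr 7 11 (.thr 39 55 (.dbl 27 19 51))))) (.nv (.thr 22 20 (.thr 30 18 (.thr 19 27 (.dbl 28 25 29)))) (.rp 40 (.thr 27 19 (.thr 15 47 (.thr 51 39 (.thr 59 55 (.dbl 43 3 11))))) .nd))))) (.rp 37 (.str 23 (.nv (.thr 3 43 (.thr 15 47 (.thr 7 11 (.thr 27 19 (.dbl 39 51 55))))) (.nv (.thr 3 43 (.thr 15 47 (.thr 11 7 (.thr 41 56 (.thr 1 61 (.dbl 0 2 42)))))) (.nv (.thr 22 20 (.thr 30 18 (.thr 19 27 (.dbl 28 25 29)))) .nd)))) (.rp 15 (.str 29 (.nv (.thr 30 28 (.thr 22 18 (.thr 42 0 (.thr 62 2 (.dbl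 46 12 14))))) (.nv (.thr 0 42 (.thr 12 46 (.thr 4 8 (.thr 38 55 (.dbl 25 17 51))))) (.nv (.thr 25 17 (.thr 27 24 (.thr 19 23 (.dbl 28 22 30)))) (.rp 30 (.str 45 (.nv (.thr 13 61 (.thr 25 17 (.thr 37 49 (.thr 53 5 (.thr 58 48 (.dbl 42 0 10)))))) (.nv (.thr 0 42 (.thr 12 46 (.thr 4 8 (.thr 38 55 (.dbl 25 17 51))))) (.rp 51 (.thr 25 17 (.thr 27 24 (.thr 61 13 (.thr 41 1 (.thr 11 56 (.thr 59 43 (.dbl 42 0 8))))))) (.rp 42 (.thr 25 17 (.thr 27 24 (.thr 61 13 (.thr 41 1 (.thr 11 56 (.thr 43 59 (.dbl 23 3 19))))))) (.rp 25 (.thr 46 12 (.thr 44 47 (.thr 42 0 (.thr 38 34 (.thr 41 35 (.dbl 61 1 13)))))) (.rp 17 (.thr 61 13 (.thr 41 1 (.thr 56 11 (.thr 42 0 (.thr 40 43 (.thr 8 24 (.thr 59 25 (.dbl 58 10 57)))))))) (.rp 4 (.thr 25 17 (.thr 12 46 (.thr 51 38 (.thr 59 55 (.dbl 42 0 8))))) (.rp 0 (.thr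 25 17 (.thr 27 24 (.thr 61 13 (.thr 41 1 (.thr 11 56 (.thr 43 59 (.dbl 23 3 19))))))) .nd))))))))) (.rp 17 (.thr 12 46 (.thr 0 42 (.thr 4 8 (.thr 38 55 (.thr 25 51 (.thr 27 24 (.thr 19 23 (.dbl 28 22 30)))))))) .nd)))))) (.rp 10 (.str 14 (.nv (.thr 0 42 (.thr 38 50 (.thr 4 55 (.thr 12 8 (.thr 25 51 (.dbl 29 17 46)))))) (.nv (.thr 15 47 (.thr 12 13 (.thr 29 46 (.thr 25 17 (.thr 24 27 (.dbl 48 36 37)))))) (.nv (.thr 15 47 (.thr 12 13 (.thr 38 50 (.thr 4 55 (.dbl 0 8 42))))) (.rp 12 (.thr 38 50 (.thr 55 4 (.thr 51 59 (.thr 15 47 (.thr 39 27 (.dbl 37 36 48)))))) .nd))))) (.rp 0 (.thr 15 47 (.thr 48 37 (.thr 58 53 (.thr 42 10 (.str 12 (.nv (.thr 24 36 (.thr 25 27 (.thr 59 8 (.dbl 51 38 55)))) (.nv (.thr 14 13 (.thr 38 50 (.dbl 46 29 34))) (.rp 40 (.str 20 (.nv (.thr 23 22 (.thr 24 36 (.dbl 27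 19 25))) (.nv (.thr 29 46 (.thr 30 28 (.dbl 22 18 23))) (.nv (.thr 14 13 (.thr 38 50 (.dbl 46 29 34))) (.rp 14 (.str 2 (.nv (.thr 24 36 (.thr 25 27 (.dbl 29 17 46))) (.nv (.dbl 22 23 62) .nd))) .nd))))) (.rp 38 (.thr 29 46 (.thr 25 17 (.dbl 24 27 36))) (.rp 25 (.thr 46 29 (.thr 38 34 (.dbl 14 13 50))) (.rp 20 (.str 40 (.nv (.thr 24 36 (.thr 41 43 (.dbl 56 8 11))) (.nv (.thr 14 13 (.thr 38 50 (.dbl 46 29 34))) (.rp 38 (.thr 29 46 (.thr 25 17 (.dbl 24 27 36))) (.rp 24 (.str 28 (.nv (.thr 14 13 (.thr 38 50 (.dbl 46 29 34))) (.nv (.dbl 29 30 46) (.rp 46 (.thr 29 30 (.thr 14 13 (.thr 25 17 (.dbl 38 50 51)))) (.rp 29 (.thr 14 13 (.thr 38 50 (.thr 55 4 (.dbl 51 25 59)))) (.rp 14 (.str 2 (.nv (.dbl 29 30 46) (.rp 46 (.thr 22 62 (.dbl 30 18 29)) (.rp 30 (.thr 22 62 (.thr 46 29 (.thr 38 34 (.dbl 25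 19 51)))) (.rp 29 (.thr 22 62 (.thr 19 25 (.thr 23 27 (.dbl 43 3 41)))) .nd))))) .nd)))))) (.rp 14 (.str 2 (.nv (.thr 24 36 (.thr 8 56 (.dbl 25 27 59))) (.nv (.thr 22 62 (.thr 30 18 (.dbl 29 28 46))) (.rp 24 (.str 28 (.nv (.dbl 29 30 46) (.rp 46 (.thr 22 62 (.dbl 30 18 29)) (.rp 30 (.thr 22 62 (.thr 46 29 (.thr 38 34 (.dbl 25 19 51)))) (.rp 29 (.thr 22 62 (.thr 19 25 (.thr 23 27 (.dbl 43 3 41)))) .nd))))) .nd)))) .nd)))))) (.rp 14 (.str 2 (.nv (.thr 24 36 (.thr 25 27 (.thr 59 8 (.dbl 51 38 55)))) (.nv (.thr 22 62 (.thr 30 18 (.dbl 29 28 46))) (.rp 40 (.str 20 (.nv (.thr 24 36 (.thr 25 27 (.dbl 29 17 46))) (.nv (.dbl 22 23 62) .nd))) (.rp 20 (.str 40 (.nv (.thr 24 36 (.thr 8 56 (.dbl 25 27 59))) (.nv (.thr 22 62 (.thr 30 18 (.dbl 29 28 46))) (.rp 24 (.str 28 (.nv (.dbl 29 30 46) (.rp 46 (.thr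 22 62 (.dbl 30 18 29)) (.rp 30 (.thr 22 62 (.thr 46 29 (.thr 38 34 (.dbl 25 19 51)))) (.rp 29 (.thr 22 62 (.thr 19 25 (.thr 23 27 (.dbl 43 3 41)))) .nd))))) .nd)))) .nd))))) .nd)))))))))))) .nd)))))))))))

theorem w250 : WinAt (2216689664, 1152921504606912576) :=
  chF (K := []) kn c250 2216689664 1152921504606912576 16
    [] (by decide +kernel) (by decide +kernel)

/-- A certificate. -/
noncomputable def c251 : Ct := (.str 22 (.nv (.thr 23 20 (.thr 30 18 (.thr 31 16 (.thr 19 27 (.dbl 28 25 29))))) (.rp 31 (.thr 30 18 (.str 15 (.nv (.thr 20 23 (.thr 37 48 (.thr 52 7 (.thr 4 36 (.thr 53 5 (.dbl 55 38 54)))))) (.nv (.thr 20 23 (.thr 60 45 (.thr 0 40 (.thr 5 10 (.dbl 37 48 53))))) (.nv (.thr 60 45 (.thr 3 41 (.thr 7 11 (.dbl 37 48 52)))) (.rp 48 (.thr 20 23 (.thr 60 45 (.thr 0 40 (.thr 10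 5 (.thr 3 41 (.thr 2 1 (.dbl 42 58 62))))))) (.rp 37 (.thr 20 23 (.thr 60 45 (.thr 0 40 (.thr 10 5 (.thr 42 58 (.thr 2 62 (.dbl 3 1 41))))))) (.rp 3 (.thr 23 20 (.thr 60 45 (.thr 48 37 (.thr 56 52 (.thr 41 11 (.str 12 (.nv (.thr 28 44 (.thr 25 19 (.thr 51 38 (.dbl 57 9 54)))) (.nv (.thr 1 61 (.thr 13 14 (.thr 9 5 (.thr 25 57 (.dbl 24 27 36))))) (.nv (.thr 44 28 (.thr 38 35 (.dbl 14 13 50))) (.rp 36 (.str 4 (.nv (.thr 38 55 (.dbl 14 13 50)) (.nv (.thr 44 28 (.dbl 38 35 55)) (.rp 55 (.thr 14 13 (.thr 44 28 (.dbl 38 35 50))) (.rp 38 (.str 39 (.nv (.thr 0 8 (.thr 1 61 (.thr 13 14 (.dbl 5 9 10)))) (.nv (.thr 27 51 (.thr 25 24 (.dbl 28 19 44))) .nd))) .nd))))) (.rp 4 (.thr 36 24 (.thr 14 13 (.thr 38 50 (.dbl 44 28 35)))) .nd))))))))))) .nd)))))))) (.rp 30 (.thr 20 23 (.str 3 (.nv (.thr 16 31 (.thr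 28 24 (.thr 19 25 (.thr 18 17 (.thr 41 60 (.thr 11 56 (.thr 15 7 (.dbl 48 33 37)))))))) (.nv (.thr 16 31 (.thr 41 60 (.thr 11 56 (.thr 15 7 (.thr 48 37 (.thr 0 32 (.dbl 1 2 61))))))) (.nv (.thr 16 31 (.thr 28 24 (.thr 19 25 (.thr 18 17 (.thr 48 33 (.thr 0 32 (.dbl 60 40 41))))))) (.rp 60 (.thr 16 31 (.thr 28 24 (.thr 19 25 (.thr 18 17 (.thr 48 33 (.thr 15 37 (.thr 11 7 (.thr 0 32 (.thr 1 2 (.dbl 41 56 61)))))))))) (.rp 48 (.thr 16 31 (.thr 28 24 (.thr 19 25 (.thr 17 18 (.thr 51 35 (.thr 0 34 (.dbl 60 40 41))))))) (.rp 47 (.thr 60 41 (.thr 0 40 (.thr 2 1 (.thr 42 62 (.thr 10 58 (.thr 16 31 (.thr 15 5 (.dbl 48 32 37)))))))) (.rp 41 (.thr 16 31 (.thr 28 24 (.thr 19 25 (.thr 17 18 (.thr 51 35 (.thr 0 34 (.thr 2 1 (.thr 42 62 (.thr 10 58 (.thr 15 5 (.dbl 48 32 37))))))))))) (.rp 31 (.thr 60 41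 (.thr 0 40 (.thr 2 1 (.thr 42 62 (.thr 10 58 (.thr 15 5 (.thr 7 11 (.dbl 37 48 52)))))))) (.rp 28 (.thr 60 41 (.thr 0 40 (.thr 2 1 (.thr 42 62 (.thr 10 58 (.thr 15 5 (.thr 7 11 (.dbl 37 48 52)))))))) (.rp 27 (.thr 60 41 (.thr 0 40 (.thr 2 1 (.thr 42 62 (.thr 10 58 (.thr 15 5 (.thr 7 11 (.dbl 37 48 52)))))))) (.rp 19 (.thr 60 41 (.thr 0 40 (.thr 2 1 (.thr 42 62 (.thr 10 58 (.thr 15 5 (.thr 7 11 (.dbl 37 48 52)))))))) (.rp 16 (.thr 60 41 (.thr 0 40 (.thr 2 1 (.thr 42 62 (.thr 10 58 (.thr 15 5 (.thr 7 11 (.dbl 37 48 52)))))))) (.rp 15 (.thr 31 16 (.thr 60 41 (.str 25 (.nv (.thr 0 40 (.thr 19 28 (.thr 51 35 (.dbl 17 29 34)))) (.nv (.thr 19 28 (.thr 17 29 (.thr 51 35 (.dbl 0 34 40)))) (.nv (.thr 0 40 (.thr 2 1 (.thr 42 62 (.thr 8 59 (.thr 12 4 (.dbl 28 19 44)))))) (.nv (.thr 17 29 (.thr 19 28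 (.thr 0 40 (.dbl 51 34 35)))) (.rp 51 (.thr 28 19 (.thr 0 40 (.thr 2 1 (.thr 12 44 (.thr 8 4 (.dbl 42 59 62)))))) (.rp 40 (.thr 24 27 (.thr 28 19 (.thr 12 44 (.thr 36 48 (.thr 4 52 (.dbl 38 51 55)))))) (.rp 28 (.thr 17 29 (.thr 24 27 (.thr 0 40 (.thr 51 34 (.thr 12 38 (.thr 4 8 (.dbl 36 48 52))))))) (.rp 19 (.thr 17 29 (.thr 24 27 (.thr 0 40 (.thr 51 34 (.thr 12 38 (.thr 4 8 (.dbl 36 48 52))))))) (.rp 0 (.thr 19 28 (.thr 51 35 (.thr 38 12 (.thr 4 55 (.thr 52 36 (.thr 48 56 (.dbl 50 14 49))))))) .nd)))))))))))) .nd))))))))))))))) (.rp 29 (.thr 20 23 (.thr 18 30 (.thr 16 31 (.thr 28 24 (.dbl 19 17 25))))) (.rp 28 (.str 60 (.nv (.thr 16 31 (.thr 20 23 (.thr 0 40 (.thr 48 32 (.thr 52 56 (.dbl 37 7 15)))))) (.nv (.thr 3 41 (.thr 16 31 (.thr 20 23 (.thr 0 40 (.thr 48 32 (.dbl 18 30 33)))))) (.nv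 (.thr 30 18 (.thr 15 45 (.thr 48 37 (.thr 56 52 (.dbl 41 3 11))))) (.rp 48 (.thr 20 23 (.thr 30 18 (.thr 15 45 (.thr 0 40 (.thr 5 10 (.thr 3 41 (.thr 7 11 (.dbl 37 52 53)))))))) (.rp 30 (.thr 20 23 (.thr 0 40 (.thr 3 41 (.thr 2 1 (.thr 42 62 (.thr 10 58 (.thr 15 5 (.thr 7 11 (.dbl 37 48 52))))))))) (.rp 15 (.thr 20 23 (.thr 18 30 (.thr 0 40 (.thr 3 41 (.thr 48 33 (.dbl 16 31 32)))))) (.rp 3 (.thr 30 18 (.thr 16 31 (.thr 15 45 (.thr 48 37 (.thr 0 32 (.dbl 20 23 40)))))) .nd)))))))) (.rp 27 (.thr 20 23 (.thr 18 30 (.thr 16 31 (.thr 19 17 (.dbl 28 24 25))))) (.rp 25 (.str 52 (.nv (.thr 18 30 (.thr 37 7 (.thr 48 15 (.thr 3 33 (.dbl 60 41 56))))) (.nv (.thr 20 23 (.thr 4 36 (.thr 37 7 (.thr 53 5 (.dbl 55 38 54))))) (.rp 37 (.thr 20 23 (.thr 16 31 (.thr 24 28 (.thr 36 4 (.thr 48 12 (.thr 60 56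 (.dbl 0 32 40))))))) (.rp 7 (.thr 20 23 (.thr 18 30 (.thr 4 36 (.thr 55 38 (.thr 53 54 (.thr 37 5 (.thr 48 15 (.thr 60 56 (.dbl 3 33 41))))))))) (.rp 5 (.thr 20 23 (.thr 18 30 (.thr 4 36 (.thr 37 7 (.thr 48 15 (.thr 60 56 (.dbl 3 33 41))))))) (.rp 4 (.thr 18 30 (.thr 37 7 (.thr 5 53 (.thr 48 15 (.thr 60 56 (.dbl 3 33 41)))))) (.rp 3 (.thr 23 20 (.thr 18 30 (.thr 7 37 (.thr 55 39 (.thr 54 53 (.thr 38 4 (.thr 50 14 (.thr 2 34 (.dbl 62 42 58))))))))) .nd)))))))) (.rp 24 (.thr 23 20 (.thr 30 18 (.thr 31 16 (.thr 28 29 (.dbl 19 25 27))))) (.rp 23 (.str 28 (.nv (.thr 16 31 (.thr 24 20 (.dbl 25 19 27))) (.nv (.thr 30 18 (.dbl 31 16 29)) (.rp 43 (.str 3 (.nv (.thr 16 31 (.thr 24 20 (.dbl 25 19 27))) (.nv (.thr 30 18 (.dbl 31 16 29)) (.rp 31 (.thr 18 30 (.thr 48 33 (.thr 15 37 (.thr 11 7 (.dbl 41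 56 60))))) (.rp 16 (.thr 30 18 (.thr 29 31 (.dbl 25 17 19))) .nd))))) (.rp 31 (.thr 25 19 (.thr 27 24 (.str 3 (.nv (.thr 41 60 (.thr 9 57 (.thr 11 56 (.thr 8 10 (.dbl 59 42 43))))) (.nv (.thr 17 29 (.thr 30 18 (.thr 60 41 (.thr 12 44 (.thr 38 51 (.thr 14 50 (.dbl 15 13 45))))))) (.nv (.thr 18 30 (.thr 48 33 (.thr 15 37 (.thr 41 60 (.dbl 11 7 56))))) (.rp 60 (.thr 18 30 (.thr 48 33 (.thr 15 37 (.thr 51 39 (.thr 50 49 (.dbl 38 12 14)))))) (.rp 48 (.thr 30 18 (.thr 60 41 (.thr 12 44 (.thr 15 45 (.dbl 51 38 39))))) (.rp 47 (.str 15 (.nv (.thr 11 7 (.dbl 41 56 60)) (.nv (.thr 18 30 (.dbl 48 33 37)) .nd))) (.rp 41 (.thr 18 30 (.thr 17 29 (.thr 33 48 (.thr 1 49 (.thr 0 2 (.thr 51 34 (.thr 15 39 (.thr 7 11 (.thr 37 52 (.dbl 5 10 53)))))))))) (.rp 15 (.str 47 (.nv (.thr 18 30 (.thr 17 29 (.thr 33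 48 (.thr 1 49 (.dbl 41 60 61))))) (.nv (.thr 41 60 (.thr 9 57 (.thr 11 56 (.thr 59 43 (.dbl 8 10 42))))) (.nv (.thr 41 60 (.thr 61 1 (.thr 57 9 (.thr 49 53 (.thr 13 37 (.dbl 29 17 45)))))) (.rp 61 (.thr 18 30 (.thr 17 29 (.thr 60 41 (.thr 12 44 (.thr 33 48 (.thr 1 49 (.thr 0 2 (.dbl 51 34 38)))))))) (.rp 60 (.str 1 (.nv (.thr 61 41 (.thr 17 29 (.thr 49 33 (.thr 37 13 (.dbl 53 5 57))))) (.nv (.thr 17 29 (.thr 33 49 (.dbl 18 30 48))) (.rp 61 (.str 62 (.nv (.thr 17 29 (.thr 33 49 (.dbl 18 30 48))) (.nv (.dbl 2 0 42) (.rp 45 (.thr 30 18 (.dbl 2 0 42)) (.rp 30 (.str 45 (.nv (.dbl 2 0 42) (.rp 42 (.thr 0 2 (.thr 17 29 (.thr 34 51 (.thr 33 49 (.thr 32 35 (.dbl 48 16 18)))))) (.rp 2 (.thr 17 29 (.thr 33 49 (.thr 41 37 (.thr 11 56 (.thr 43 59 (.thr 35 39 (.dbl 44 38 46))))))) (.rp 0 (.thr 17 29 (.thr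 42 2 (.thr 37 32 (.dbl 33 41 49)))) .nd))))) .nd))))) (.rp 49 (.thr 2 0 (.thr 30 18 (.thr 62 42 (.thr 46 14 (.thr 45 44 (.thr 61 41 (.dbl 29 13 17))))))) (.rp 46 (.thr 2 0 (.thr 29 17 (.thr 42 62 (.thr 61 41 (.thr 37 32 (.dbl 13 45 49)))))) (.rp 45 (.thr 30 18 (.thr 17 29 (.thr 61 41 (.thr 49 33 (.thr 37 13 (.dbl 53 5 57)))))) (.rp 33 (.thr 2 0 (.thr 29 17 (.thr 42 62 (.thr 61 41 (.thr 37 32 (.dbl 13 45 49)))))) (.rp 30 (.str 45 (.nv (.thr 61 41 (.dbl 29 13 17)) (.rp 61 (.str 62 (.nv (.dbl 2 0 42) (.rp 42 (.thr 0 2 (.thr 17 29 (.thr 34 51 (.thr 33 49 (.thr 32 35 (.dbl 48 16 18)))))) (.rp 2 (.thr 17 29 (.thr 33 49 (.thr 41 37 (.thr 11 56 (.thr 43 59 (.thr 35 39 (.dbl 44 38 46))))))) (.rp 0 (.thr 17 29 (.thr 42 2 (.thr 37 32 (.dbl 33 41 49)))) .nd))))) (.rp 41 (.thr 2 0 (.thr 17 29 (.thr 49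 33 (.thr 37 13 (.dbl 42 32 62))))) (.rp 29 (.thr 2 0 (.thr 42 62 (.thr 61 41 (.thr 37 32 (.thr 5 53 (.dbl 13 9 49)))))) (.rp 17 (.thr 61 41 (.thr 13 29 (.thr 5 9 (.dbl 37 49 53)))) (.rp 13 (.thr 17 29 (.thr 33 49 (.dbl 41 37 61))) .nd))))))) (.rp 29 (.thr 2 0 (.thr 42 62 (.thr 61 41 (.thr 37 32 (.thr 5 53 (.dbl 13 9 49)))))) (.rp 17 (.thr 2 0 (.thr 42 62 (.thr 61 41 (.thr 37 32 (.thr 5 53 (.dbl 13 9 49)))))) (.rp 12 (.thr 2 0 (.thr 29 17 (.thr 42 62 (.thr 61 41 (.thr 37 32 (.dbl 13 45 49)))))) .nd)))))))))))) (.rp 48 (.thr 18 30 (.thr 60 41 (.thr 12 44 (.thr 38 51 (.thr 50 14 (.thr 2 34 (.thr 0 1 (.dbl 4 8 55)))))))) (.rp 45 (.thr 30 18 (.thr 41 60 (.thr 9 57 (.thr 11 56 (.thr 8 10 (.dbl 59 42 43)))))) (.rp 41 (.thr 18 30 (.thr 17 29 (.thr 33 48 (.thr 1 49 (.thr 2 0 (.thr 42 62 (.thr 32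 37 (.dbl 34 35 50)))))))) (.rp 30 (.thr 29 17 (.thr 60 41 (.thr 44 12 (.thr 45 46 (.thr 13 61 (.thr 37 49 (.thr 42 32 (.thr 8 59 (.thr 10 58 (.thr 9 11 (.dbl 5 1 53))))))))))) .nd)))))))))) .nd))))))))))) (.rp 16 (.thr 30 18 (.thr 29 31 (.dbl 25 17 19))) (.rp 3 (.str 43 (.nv (.thr 16 31 (.thr 24 20 (.dbl 25 19 27))) (.nv (.thr 31 16 (.dbl 30 18 29)) (.rp 31 (.thr 30 18 (.thr 25 19 (.thr 27 24 (.thr 59 11 (.thr 42 8 (.thr 62 2 (.thr 14 46 (.thr 50 38 (.dbl 58 10 54))))))))) (.rp 16 (.thr 30 18 (.thr 29 31 (.dbl 25 17 19))) (.rp 12 (.str 9 (.nv (.thr 25 19 (.thr 27 24 (.thr 11 59 (.dbl 41 56 57)))) (.nv (.thr 31 16 (.dbl 30 18 29)) (.rp 46 (.str 29 (.nv (.dbl 25 17 19) (.nv (.dbl 30 18 31) .nd))) (.rp 29 (.str 46 (.nv (.thr 25 19 (.thr 27 24 (.thr 11 59 (.dbl 41 56 57)))) (.nv (.thr 19 25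 (.thr 18 30 (.dbl 16 17 31))) (.rp 51 (.thr 18 30 (.thr 16 31 (.dbl 19 17 25))) (.rp 25 (.thr 30 18 (.thr 62 14 (.thr 42 2 (.thr 10 58 (.thr 11 8 (.dbl 41 40 56)))))) (.rp 19 (.thr 30 18 (.thr 62 14 (.thr 42 2 (.thr 10 58 (.thr 11 8 (.dbl 41 40 56)))))) .nd)))))) .nd))))) (.rp 9 (.str 12 (.nv (.thr 16 31 (.thr 24 20 (.dbl 25 19 27))) (.nv (.thr 31 16 (.dbl 30 18 29)) (.rp 31 (.thr 30 18 (.thr 25 19 (.thr 27 24 (.thr 51 38 (.thr 15 39 (.dbl 60 44 45)))))) (.rp 16 (.thr 30 18 (.thr 29 31 (.dbl 25 17 19))) .nd))))) .nd))))))) .nd))))))) (.rp 20 (.str 60 (.nv (.thr 30 18 (.thr 15 45 (.thr 41 3 (.thr 48 37 (.dbl 56 11 52))))) (.nv (.thr 30 18 (.thr 31 16 (.thr 41 3 (.thr 45 15 (.thr 61 1 (.dbl 29 13 28)))))) (.nv (.thr 3 41 (.thr 18 30 (.thr 48 33 (.thr 52 56 (.dbl 37 7 15))))) (.rp 48 (.thr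 30 18 (.thr 31 16 (.thr 45 15 (.thr 41 3 (.thr 33 37 (.thr 61 1 (.dbl 29 13 28))))))) (.rp 45 (.thr 18 30 (.thr 3 41 (.thr 48 33 (.thr 37 15 (.dbl 52 7 56))))) (.rp 41 (.thr 30 18 (.thr 31 16 (.thr 28 29 (.thr 12 44 (.thr 15 45 (.thr 13 14 (.thr 37 48 (.dbl 25 19 49)))))))) (.rp 30 (.thr 16 31 (.thr 41 3 (.thr 1 61 (.thr 56 11 (.thr 48 52 (.thr 15 37 (.thr 0 32 (.thr 5 10 (.thr 9 13 (.thr 25 57 (.thr 28 19 (.thr 12 44 (.dbl 24 27 36))))))))))))) (.rp 18 (.thr 41 3 (.thr 61 1 (.thr 56 11 (.thr 48 52 (.thr 15 37 (.thr 45 30 (.thr 29 13 (.thr 25 17 (.thr 27 24 (.thr 51 39 (.dbl 57 9 54))))))))))) (.rp 15 (.thr 30 18 (.thr 31 16 (.thr 28 29 (.thr 19 25 (.thr 12 44 (.thr 41 3 (.thr 11 56 (.thr 27 23 (.thr 43 59 (.thr 42 40 (.thr 62 2 (.thr 14 46 (.thr 50 38 (.dbl 58 10 54)))))))))))))) (.rp 3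 (.thr 30 18 (.thr 31 16 (.thr 28 29 (.thr 12 44 (.thr 15 45 (.thr 48 37 (.thr 24 36 (.dbl 25 19 27)))))))) .nd))))))))))) (.rp 19 (.str 60 (.nv (.thr 3 41 (.thr 18 30 (.thr 20 23 (.thr 0 40 (.thr 48 33 (.dbl 16 31 32)))))) (.nv (.thr 16 31 (.thr 41 3 (.thr 56 11 (.thr 48 52 (.thr 0 32 (.dbl 20 23 40)))))) (.nv (.thr 3 41 (.thr 18 30 (.thr 48 33 (.thr 52 56 (.dbl 37 7 15))))) (.rp 48 (.thr 20 23 (.thr 40 0 (.thr 41 3 (.thr 43 42 (.thr 56 11 (.thr 24 8 (.dbl 16 28 31))))))) (.rp 41 (.thr 20 23 (.thr 30 18 (.thr 15 45 (.thr 37 48 (.thr 0 40 (.dbl 5 10 53)))))) (.rp 3 (.thr 30 18 (.thr 16 31 (.thr 15 45 (.thr 48 37 (.thr 0 32 (.dbl 20 23 40)))))) .nd))))))) (.rp 18 (.str 28 (.nv (.thr 31 16 (.thr 29 30 (.dbl 25 17 19))) (.nv (.thr 20 23 (.dbl 16 24 31)) (.rp 31 (.thr 20 23 (.thr 24 16 (.dbl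 25 19 27))) (.rp 16 (.thr 23 20 (.thr 19 25 (.str 3 (.nv (.thr 27 31 (.thr 41 60 (.thr 51 35 (.thr 15 39 (.dbl 11 7 56))))) (.nv (.thr 35 51 (.thr 41 60 (.thr 11 56 (.thr 38 44 (.thr 55 4 (.dbl 7 15 39)))))) (.nv (.thr 31 27 (.thr 30 29 (.thr 60 41 (.thr 15 45 (.thr 37 48 (.dbl 7 11 52)))))) (.nv (.thr 27 31 (.thr 51 35 (.thr 15 39 (.thr 7 11 (.dbl 37 48 52))))) (.rp 15 (.thr 31 27 (.thr 30 29 (.thr 51 35 (.thr 60 41 (.thr 57 54 (.thr 12 44 (.str 38 (.nv (.thr 4 55 (.thr 0 8 (.thr 2 1 (.thr 34 17 (.dbl 42 46 62))))) (.nv (.thr 50 14 (.thr 48 49 (.thr 36 24 (.thr 37 39 (.dbl 52 7 56))))) (.nv (.thr 4 55 (.thr 0 8 (.thr 2 1 (.thr 14 50 (.dbl 62 42 46))))) (.rp 52 (.thr 50 14 (.thr 48 49 (.thr 55 4 (.thr 36 24 (.dbl 39 7 37))))) (.rp 2 (.thr 55 4 (.thr 7 39 (.thr 52 37 (.thr 48 56 (.dbl 50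 14 49))))) .nd)))))))))))) (.rp 11 (.thr 31 27 (.thr 29 30 (.thr 51 35 (.thr 41 60 (.thr 61 1 (.thr 45 13 (.thr 37 33 (.thr 48 15 (.thr 49 50 (.dbl 53 5 57)))))))))) (.rp 7 (.thr 31 27 (.thr 29 30 (.thr 51 35 (.thr 41 60 (.thr 61 1 (.thr 45 13 (.thr 37 33 (.thr 48 15 (.thr 49 50 (.dbl 53 5 57)))))))))) .nd)))))))))) .nd))))) (.rp 16 (.str 3 (.nv (.thr 30 18 (.thr 60 41 (.thr 15 45 (.thr 37 48 (.dbl 7 11 52))))) (.nv (.thr 18 30 (.thr 48 33 (.thr 15 37 (.thr 41 60 (.dbl 11 7 56))))) (.nv (.thr 18 30 (.thr 48 33 (.thr 60 41 (.thr 52 56 (.dbl 37 7 15))))) (.rp 60 (.thr 18 30 (.thr 23 20 (.thr 48 33 (.thr 15 37 (.thr 7 11 (.thr 55 39 (.thr 38 4 (.thr 14 50 (.thr 12 13 (.thr 25 51 (.dbl 24 27 36))))))))))) (.rp 48 (.thr 30 18 (.thr 20 23 (.thr 60 41 (.thr 0 40 (.thr 2 1 (.thr 42 62 (.thr 15 45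 (.dbl 10 5 58)))))))) (.rp 41 (.thr 18 30 (.thr 20 23 (.thr 48 33 (.thr 37 15 (.thr 52 7 (.thr 4 36 (.thr 55 38 (.dbl 53 5 54)))))))) (.rp 37 (.thr 30 18 (.thr 20 23 (.thr 60 41 (.thr 0 40 (.thr 2 1 (.thr 42 62 (.thr 10 58 (.dbl 15 5 45)))))))) (.rp 30 (.thr 20 23 (.thr 60 41 (.thr 0 40 (.thr 2 1 (.thr 42 62 (.thr 10 58 (.thr 15 5 (.thr 7 11 (.dbl 37 48 52))))))))) (.rp 18 (.thr 20 23 (.thr 60 41 (.thr 0 40 (.thr 2 1 (.thr 42 62 (.thr 10 58 (.thr 15 5 (.thr 7 11 (.dbl 37 48 52))))))))) (.rp 15 (.thr 18 30 (.thr 20 23 (.thr 48 33 (.thr 60 41 (.thr 52 56 (.thr 4 36 (.thr 55 38 (.thr 53 54 (.dbl 37 5 7))))))))) (.rp 7 (.thr 30 18 (.thr 20 23 (.thr 60 41 (.thr 0 40 (.thr 15 45 (.thr 5 10 (.dbl 37 48 53))))))) .nd)))))))))))) .nd))))))))))))))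

theorem w251 : WinAt (69206016, 9223372036854775872) :=
  chF (K := []) kn c251 69206016 9223372036854775872 63
    [] (by decide +kernel) (by decide +kernel)

/-- A certificate. -/
noncomputable def c252 : Ct := (.str 31 (.nv (.thr 47 32 (.thr 15 63 (.dbl 26 16 48))) (.rp 63 (.thr 13 9 (.thr 25 49 (.thr 29 17 (.thr 26 16 (.thr 27 24 (.thr 19 23 (.dbl 28 22 30))))))) (.rp 58 (.thr 13 9 (.thr 25 49 (.thr 17 29 (.thr 16 26 (.thr 19 18 (.thr 23 27 (.dbl 22 20 28))))))) (.rp 48 (.thr 13 9 (.thr 25 49 (.thr 17 29 (.thr 16 26 (.thr 19 18 (.thr 23 27 (.dbl 22 20 28))))))) (.rp 47 (.thr 13 9 (.thr 25 49 (.thr 17 29 (.thr 16 26 (.thr 19 18 (.thr 23 27 (.dbl 22 20 28))))))) (.rp 46 (.thr 13 9 (.thr 25 49 (.thr 29 17 (.thr 47 32 (.thr 15 63 (.dbl 26 16 48)))))) (.rp 32 (.thr 13 9 (.thr 25 49 (.thr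 17 29 (.thr 16 26 (.thr 19 18 (.thr 23 27 (.dbl 22 20 28))))))) (.rp 29 (.thr 13 9 (.thr 25 49 (.thr 8 59 (.thr 32 47 (.thr 26 16 (.thr 58 10 (.thr 24 27 (.thr 40 56 (.thr 36 44 (.thr 38 39 (.thr 50 14 (.thr 62 54 (.thr 2 22 (.dbl 34 18 46)))))))))))))) (.rp 26 (.thr 13 9 (.thr 25 49 (.thr 29 17 (.thr 47 32 (.thr 15 63 (.thr 30 28 (.dbl 45 60 61))))))) (.rp 16 (.str 15 (.nv (.dbl 47 32 63) (.rp 63 (.thr 13 9 (.thr 25 49 (.thr 29 17 (.thr 30 28 (.dbl 45 60 61))))) (.rp 48 (.thr 32 47 (.thr 13 9 (.thr 25 49 (.thr 29 17 (.thr 30 28 (.dbl 45 60 61)))))) (.rp 47 (.thr 13 9 (.thr 25 49 (.thr 29 17 (.thr 30 28 (.dbl 45 60 61))))) (.rp 32 (.thr 48 26 (.thr 13 9 (.thr 25 49 (.thr 29 17 (.thr 30 28 (.dbl 45 60 61)))))) (.rp 8 (.str 4 (.nv (.dbl 47 32 63) (.rp 63 (.thr 13 9 (.thr 25 49 (.thr 29 17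 (.thr 30 28 (.dbl 45 60 61))))) (.rp 48 (.thr 32 47 (.thr 13 9 (.thr 38 55 (.thr 34 46 (.thr 33 35 (.dbl 49 17 25)))))) (.rp 47 (.thr 13 9 (.thr 25 49 (.thr 29 17 (.thr 30 28 (.dbl 45 60 61))))) (.rp 32 (.thr 48 26 (.thr 13 9 (.thr 63 47 (.thr 55 38 (.thr 51 59 (.dbl 49 25 50)))))) .nd)))))) (.rp 4 (.str 8 (.nv (.thr 48 26 (.thr 13 9 (.dbl 25 49 59))) (.nv (.dbl 47 32 63) (.rp 48 (.thr 32 47 (.thr 13 9 (.dbl 25 49 59))) .nd)))) .nd)))))))) (.rp 15 (.thr 13 9 (.thr 25 49 (.thr 17 29 (.thr 16 26 (.thr 19 18 (.thr 23 27 (.dbl 22 20 28))))))) (.rp 8 (.str 4 (.nv (.thr 47 32 (.thr 15 63 (.dbl 26 16 48))) (.rp 63 (.thr 13 9 (.thr 26 16 (.thr 38 55 (.thr 50 14 (.thr 48 15 (.dbl 49 25 51)))))) (.rp 58 (.thr 13 9 (.thr 32 47 (.thr 38 55 (.thr 34 46 (.thr 33 35 (.dbl 49 17 25)))))) (.rp 48 (.thr 13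 9 (.thr 32 47 (.thr 38 55 (.thr 34 46 (.thr 33 35 (.dbl 49 17 25)))))) (.rp 47 (.thr 13 9 (.thr 26 16 (.thr 38 55 (.thr 50 14 (.thr 48 15 (.dbl 49 25 51)))))) (.rp 46 (.thr 13 9 (.thr 47 32 (.thr 25 49 (.thr 29 17 (.thr 15 63 (.dbl 26 16 48)))))) (.rp 32 (.thr 13 9 (.thr 26 16 (.thr 48 15 (.thr 38 55 (.thr 50 14 (.dbl 49 25 51)))))) (.rp 29 (.thr 47 32 (.thr 38 55 (.thr 46 34 (.thr 15 63 (.dbl 26 16 48))))) (.rp 26 (.thr 13 9 (.thr 32 47 (.thr 38 55 (.thr 34 46 (.thr 33 35 (.dbl 49 17 25)))))) (.rp 16 (.thr 13 9 (.thr 32 47 (.thr 38 55 (.thr 34 46 (.thr 33 35 (.dbl 49 17 25)))))) (.rp 15 (.thr 13 9 (.thr 32 47 (.thr 38 55 (.thr 34 46 (.thr 33 35 (.dbl 49 17 25)))))) .nd)))))))))))) (.rp 4 (.str 8 (.nv (.thr 47 32 (.thr 15 63 (.dbl 26 16 48))) (.nv (.thr 25 59 (.dbl 13 9 49)) .nd))) .nd))))))))))))))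

theorem w252 : WinAt (4535487561762, 9009398278000769) :=
  chF (K := []) kn c252 4535487561762 9009398278000769 41
    [4369] (by decide +kernel) (by decide +kernel)

/-- A certificate. -/
noncomputable def c253 : Ct := (.str 1 (.nv (.thr 32 47 (.thr 41 61 (.thr 40 43 (.thr 44 36 (.thr 35 38 (.dbl 33 34 45)))))) (.nv (.thr 13 9 (.thr 25 49 (.thr 61 41 (.dbl 29 17 45)))) (.rp 61 (.thr 13 9 (.thr 32 47 (.thr 49 25 (.thr 33 17 (.thr 41 45 (.thr 40 43 (.thr 44 36 (.dbl 35 34 38)))))))) (.rp 49 (.thr 9 13 (.thr 47 32 (.thr 41 61 (.thr 57 25 (.thr 45 33 (.thr 44 46 (.thr 43 40 (.dbl 35 38 39)))))))) (.rp 45 (.thr 13 9 (.thr 32 47 (.thr 41 61 (.thr 40 43 (.thr 44 36 (.thr 35 38 (.thr 33 34 (.dbl 49 17 25)))))))) (.rp 41 .ext (.rp 25 (.thr 47 32 (.thr 41 61 (.thr 45 33 (.thr 44 46 (.thr 43 40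 (.dbl 35 38 39)))))) (.rp 8 (.str 4 (.nv (.thr 38 55 (.thr 39 36 (.thr 47 32 (.thr 35 43 (.dbl 41 44 61))))) (.nv (.thr 13 9 (.thr 25 49 (.thr 61 41 (.dbl 29 17 45)))) (.rp 61 (.thr 13 9 (.thr 32 47 (.thr 38 55 (.thr 34 46 (.thr 33 35 (.dbl 49 17 25)))))) (.rp 41 (.thr 13 9 (.thr 32 47 (.thr 38 55 (.thr 34 46 (.thr 33 35 (.dbl 49 17 25)))))) .nd))))) (.rp 4 (.str 8 (.nv (.thr 25 59 (.thr 17 29 (.thr 33 49 (.dbl 41 45 61)))) (.nv (.thr 25 59 (.dbl 13 9 49)) (.rp 59 (.thr 13 9 (.thr 41 61 (.thr 33 45 (.dbl 49 17 25)))) (.rp 49 (.thr 9 13 (.thr 25 59 (.dbl 41 57 61))) (.rp 25 (.thr 9 13 (.thr 11 10 (.thr 41 61 (.thr 40 43 (.dbl 56 24 26))))) .nd)))))) .nd))))))))))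

theorem w253 : WinAt (4535487561760, 9007199254745217) :=
  chF (K := [(4535487561762, 9009398278000769)]) (kc w252 kn) c253 4535487561760 9007199254745217 53
    [4369] (by decide +kernel) (by decide +kernel)

/-- A certificate. -/
noncomputable def c254 : Ct := (.thr 5 53 .ext)

theorem w254 : WinAt (4535487561728, 4225) :=
  chF (K := [(4535487561760, 9007199254745217)]) (kc w253 kn) c254 4535487561728 4225 12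
    [4369] (by decide +kernel) (by decide +kernel)

/-- A certificate. -/
noncomputable def c255 : Ct := (.str 20 (.nv (.thr 45 33 (.thr 53 5 (.thr 61 1 (.thr 13 29 (.dbl 49 25 57))))) (.nv (.thr 1 61 (.thr 5 53 (.thr 13 9 (.thr 49 25 (.dbl 33 17 45))))) (.rp 61 (.thr 45 33 (.thr 53 5 (.thr 47 32 (.thr 44 46 (.thr 35 38 (.thr 43 39 (.thr 23 22 (.thr 63 3 (.thr 48 58 (.dbl 15 26 31)))))))))) (.rp 57 (.thr 33 45 (.thr 5 53 (.thr 1 61 (.thr 49 17 (.dbl 13 9 25))))) (.rp 53 (.thr 33 45 (.thr 32 47 (.thr 34 35 (.thr 22 23 (.thr 2 62 (.thr 18 50 (.thr 48 3 (.dbl 26 15 30)))))))) (.rp 49 (.thr 33 45 (.thr 32 47 (.thr 34 35 (.thr 22 23 (.thr 2 62 (.thr 18 50 (.thr 48 3 (.dbl 26 15 30)))))))) (.rp 45 (.str 15 (.nv (.thr 48 26 (.thr 53 5 (.thr 63 58 (.dbl 47 31 32)))) (.nv (.thr 47 32 (.thr 31 63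 (.dbl 26 16 48))) (.rp 63 (.thr 22 23 (.thr 26 48 (.thr 16 31 (.thr 28 24 (.thr 18 30 (.dbl 19 17 25)))))) (.rp 48 (.thr 22 23 (.thr 62 2 (.thr 1 61 (.thr 5 53 (.thr 13 9 (.thr 14 12 (.thr 46 30 (.thr 38 34 (.thr 50 26 (.dbl 54 6 58)))))))))) (.rp 47 (.thr 22 23 (.thr 26 48 (.thr 16 31 (.thr 28 24 (.thr 18 30 (.dbl 19 17 25)))))) (.rp 32 (.thr 22 23 (.thr 26 48 (.thr 16 31 (.thr 28 24 (.thr 18 30 (.dbl 19 17 25)))))) (.rp 31 (.thr 61 1 (.thr 53 5 (.thr 26 48 (.thr 56 11 (.thr 58 10 (.dbl 57 49 59)))))) (.rp 26 (.thr 47 32 (.thr 23 22 (.thr 31 63 (.thr 27 19 (.thr 39 51 (.thr 35 43 (.dbl 38 36 44))))))) .nd))))))))) (.rp 33 (.str 48 (.nv (.thr 15 26 (.thr 47 32 (.thr 63 31 (.dbl 53 5 58)))) (.nv (.thr 53 5 (.thr 58 63 (.dbl 26 10 15))) (.rp 63 (.thr 47 32 (.thr 22 23 (.thr 26 15 (.thr 16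 31 (.thr 28 24 (.thr 19 25 (.dbl 18 17 30))))))) (.rp 58 (.thr 22 23 (.thr 26 15 (.thr 16 31 (.thr 28 24 (.thr 19 25 (.dbl 18 17 30)))))) (.rp 53 (.thr 22 23 (.thr 26 15 (.thr 16 31 (.thr 28 24 (.thr 19 25 (.dbl 18 17 30)))))) (.rp 26 (.thr 53 5 (.thr 61 1 (.thr 49 57 (.thr 63 58 (.thr 51 50 (.thr 59 55 (.dbl 25 8 13))))))) (.rp 15 (.thr 5 53 (.thr 1 61 (.thr 13 9 (.thr 49 25 (.thr 50 51 (.thr 22 23 (.thr 62 2 (.thr 54 58 (.thr 38 6 (.thr 14 26 (.dbl 46 30 34))))))))))) (.rp 5 (.thr 22 23 (.thr 26 15 (.thr 10 58 (.thr 16 31 (.thr 28 24 (.thr 19 25 (.dbl 18 17 30))))))) .nd))))))))) (.rp 25 (.thr 33 45 (.thr 32 47 (.thr 34 35 (.thr 22 23 (.thr 2 62 (.thr 18 50 (.thr 48 3 (.dbl 26 15 30)))))))) (.rp 17 (.thr 45 33 (.thr 53 5 (.thr 61 1 (.thr 49 57 (.dbl 13 25 29))))) (.rp 13 (.thr 33 45 (.thr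 32 47 (.thr 34 35 (.thr 22 23 (.thr 2 62 (.thr 18 50 (.thr 48 3 (.dbl 26 15 30)))))))) (.rp 5 (.thr 33 45 (.thr 32 47 (.thr 34 35 (.thr 22 23 (.thr 2 62 (.thr 18 50 (.thr 48 3 (.dbl 26 15 30)))))))) (.rp 1 (.thr 33 45 (.thr 32 47 (.thr 34 35 (.thr 22 23 (.thr 2 62 (.thr 18 50 (.thr 48 3 (.dbl 26 15 30)))))))) .nd))))))))))))))

theorem w255 : WinAt (6734510817280, 1152922604118474881) :=
  chF (K := []) kn c255 6734510817280 1152922604118474881 40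
    [] (by decide +kernel) (by decide +kernel)

/-- A certificate. -/
noncomputable def c256 : Ct := (.str 41 (.nv (.thr 1 61 (.thr 5 53 (.thr 13 9 (.thr 33 45 (.dbl 49 17 25))))) (.nv (.thr 40 43 (.thr 32 47 (.thr 44 36 (.thr 35 38 (.dbl 33 34 45))))) (.rp 45 (.thr 40 43 (.thr 32 47 (.thr 44 36 (.thr 35 38 (.thr 33 34 (.thr 1 61 (.thr 5 53 (.thr 13 9 (.dbl 49 17 25))))))))) (.rp 40 .ext (.rp 33 (.thr 47 32 (.thr 61 1 (.thr 53 5 (.thr 49 57 (.thr 13 25 (.thr 45 29 (.thr 44 46 (.thr 35 38 (.dbl 43 39 40))))))))) .nd))))))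

theorem w256 : WinAt (4535487561728, 1152921504606847105) :=
  chF (K := [(6734510817280, 1152922604118474881)]) (kc w255 kn) c256 4535487561728 1152921504606847105 60
    [1152922604119523329] (by decide +kernel) (by decide +kernel)

end Pool.Agent.TTT.B43
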