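import Pool.Agent.TTT.Q10
import Pool.Agent.TTT.Q11

/-!
Certified forced wins after the first three cells on the 4 x 4 x 4 board.
-/

set_option autoImplicit false
set_option maxRecDepth 1000000
set_option linter.all false

namespace Pool.Agent.TTT.B43

/-- A certificate. -/
noncomputable def r3 : Rt := (.rp 63 .ext (.rp 62 (.thr 31 16 (.str 63 (.nv (.thr 15 47 (.thr 48 37 (.thr 42 0 (.dbl 58 10 53)))) (.rp 58 (.thr 15 47 (.thr 37 48 (.thr 5 53 (.dbl 0 10 42)))) (.rp 53 (.str 23 (.nv (.thr 0 42 (.thr 3 43 (.thr 15 47 (.thr 11 7 (.thr 41 56 (.dbl 1 2 61)))))) (.nv (.thr 19 27 (.thr 22 20 (.thr 28 25 (.dbl 30 18 29)))) (.rp 22 (.thr 27 19 (.thr 25 24 (.thr 43 3 (.thr 59 11 (.dbl 42 0 8))))) .nd)))) (.rp 48 (.str 23 (.nv (.thr 3 43 (.thr 15 47 (.thr 11 7 (.thr 41 56 (.thr 1 61 (.dbl 0 2 42))))))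 (.nv (.thr 19 27 (.thr 22 20 (.thr 28 25 (.dbl 30 18 29)))) (.rp 32 (.thr 0 42 (.thr 22 20 (.thr 19 27 (.thr 28 25 (.dbl 30 18 29))))) (.rp 0 (.str 32 (.nv (.thr 3 43 (.thr 15 47 (.thr 11 7 (.thr 22 20 (.dbl 41 56 60))))) (.nv (.thr 3 43 (.thr 15 47 (.thr 7 11 (.thr 39 55 (.dbl 27 19 51))))) (.nv (.thr 19 27 (.thr 22 20 (.thr 28 25 (.dbl 30 18 29)))) .nd)))) .nd))))) (.rp 47 (.str 23 (.nv (.thr 27 19 (.thr 42 0 (.thr 43 3 (.thr 11 59 (.dbl 41 40 56))))) (.nv (.thr 0 42 (.thr 3 43 (.thr 1 2 (.thr 22 20 (.dbl 41 60 61))))) (.nv (.thr 19 27 (.thr 22 20 (.thr 28 25 (.dbl 30 18 29)))) .nd)))) (.rp 42 (.str 22 (.nv (.thr 15 47 (.thr 23 20 (.thr 3 43 (.thr 7 11 (.dbl 37 48 52))))) (.nv (.thr 15 47 (.thr 37 48 (.thr 7 52 (.thr 3 11 (.thr 60 41 (.dbl 30 18 45)))))) (.nv (.thr 23 20 (.thr 30 18 (.thr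 19 27 (.dbl 28 25 29)))) .nd)))) (.rp 37 (.str 23 (.nv (.thr 3 43 (.thr 15 47 (.thr 11 7 (.thr 41 56 (.thr 1 61 (.dbl 0 2 42)))))) (.nv (.thr 22 20 (.thr 30 18 (.thr 19 27 (.dbl 28 25 29)))) (.rp 22 (.thr 27 19 (.thr 25 24 (.thr 43 3 (.thr 59 11 (.dbl 42 0 8))))) .nd)))) (.rp 15 (.str 23 (.nv (.thr 27 19 (.thr 42 0 (.thr 43 3 (.thr 11 59 (.dbl 41 40 56))))) (.nv (.thr 0 42 (.thr 3 43 (.thr 1 2 (.thr 22 20 (.dbl 41 60 61))))) (.nv (.thr 22 20 (.thr 30 18 (.thr 28 29 (.dbl 19 25 27)))) .nd)))) (.rp 10 (.str 14 (.nv (.thr 0 42 (.thr 38 50 (.thr 4 55 (.thr 12 8 (.thr 25 51 (.dbl 29 17 46)))))) (.nv (.thr 15 47 (.thr 12 13 (.thr 29 46 (.thr 25 17 (.thr 24 27 (.dbl 48 36 37)))))) (.nv (.thr 15 47 (.thr 12 13 (.thr 38 50 (.thr 4 55 (.dbl 0 8 42))))) (.rp 12 (.thr 38 50 (.thr 55 4 (.thr 51 59 (.thr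 15 47 (.thr 39 27 (.dbl 37 36 48)))))) .nd))))) (.rp 0 (.thr 15 47 (.thr 48 37 (.thr 58 53 (.str 22 (.nv (.thr 23 20 (.thr 3 43 (.thr 11 7 (.dbl 41 56 60)))) (.nv (.thr 18 30 (.thr 3 33 (.thr 11 7 (.dbl 41 56 60)))) (.nv (.thr 23 20 (.thr 19 27 (.thr 28 25 (.dbl 30 18 29)))) (.nv (.thr 18 30 (.thr 3 33 (.dbl 23 20 43))) (.rp 42 (.str 32 (.nv (.thr 23 20 (.thr 3 43 (.thr 11 7 (.dbl 41 56 60)))) (.nv (.thr 18 30 (.thr 3 33 (.thr 11 7 (.dbl 41 56 60)))) (.nv (.thr 23 20 (.thr 19 27 (.thr 28 25 (.dbl 30 18 29)))) (.nv (.thr 18 30 (.thr 3 33 (.dbl 23 20 43))) .nd))))) (.rp 32 (.thr 42 10 (.thr 23 20 (.thr 18 30 (.dbl 3 33 43)))) .nd)))))))))) .nd)))))))))))) (.rp 61 (.thr 16 31 (.str 48 (.nv (.thr 0 32 (.thr 63 42 (.thr 37 15 (.dbl 53 5 58)))) (.rp 63 (.str 60 (.nv (.thr 0 32 (.thr 15 37 (.thr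 20 40 (.thr 22 23 (.dbl 30 18 45))))) (.nv (.thr 0 32 (.thr 20 40 (.thr 52 56 (.thr 36 4 (.dbl 24 12 28))))) (.nv (.thr 15 37 (.thr 30 45 (.thr 22 18 (.thr 56 52 (.dbl 41 3 11))))) (.rp 15 (.str 47 (.nv (.thr 0 32 (.thr 20 40 (.thr 22 23 (.thr 18 30 (.dbl 3 33 41))))) (.nv (.thr 32 0 (.thr 37 42 (.thr 56 52 (.thr 41 11 (.thr 3 22 (.dbl 33 18 45)))))) (.nv (.thr 52 56 (.thr 0 32 (.thr 20 40 (.thr 24 28 (.dbl 36 4 12))))) (.rp 32 (.thr 56 52 (.thr 41 11 (.thr 3 22 (.thr 18 33 (.thr 17 19 (.thr 25 29 (.thr 57 9 (.thr 59 58 (.thr 8 42 (.dbl 24 27 40)))))))))) (.rp 0 (.thr 56 52 (.thr 41 11 (.thr 3 22 (.thr 33 18 (.thr 37 45 (.thr 32 42 (.thr 35 34 (.thr 39 43 (.dbl 38 36 44))))))))) .nd)))))) .nd))))) (.rp 58 (.str 18 (.nv (.thr 0 32 (.thr 3 33 (.thr 22 30 (.thr 23 20 (.dbl 63 42 43))))) (.nv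 (.thr 0 32 (.thr 3 33 (.thr 2 1 (.thr 34 50 (.dbl 17 19 51))))) (.nv (.thr 19 17 (.thr 22 30 (.thr 28 25 (.dbl 20 23 24)))) .nd)))) (.rp 53 (.thr 0 32 (.thr 42 63 (.thr 10 58 (.dbl 15 5 37)))) (.rp 42 (.str 18 (.nv (.thr 0 32 (.thr 3 33 (.thr 22 30 (.thr 60 41 (.dbl 20 23 40))))) (.nv (.thr 0 32 (.thr 3 33 (.thr 2 1 (.thr 34 50 (.dbl 17 19 51))))) (.nv (.thr 22 30 (.thr 20 23 (.thr 19 17 (.dbl 28 24 25)))) .nd)))) (.rp 37 (.str 18 (.nv (.thr 0 32 (.thr 3 33 (.thr 22 30 (.thr 23 20 (.dbl 63 42 43))))) (.nv (.thr 0 32 (.thr 3 33 (.thr 2 1 (.thr 34 50 (.dbl 17 19 51))))) (.nv (.thr 22 30 (.thr 20 23 (.thr 19 17 (.dbl 28 24 25)))) .nd)))) (.rp 32 (.str 18 (.nv (.thr 17 19 (.thr 33 3 (.thr 37 15 (.thr 49 1 (.dbl 25 13 29))))) (.nv (.thr 3 33 (.thr 15 37 (.thr 11 7 (.thr 41 56 (.dbl 22 30 60)))))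 (.nv (.thr 19 17 (.thr 22 30 (.thr 28 25 (.dbl 20 23 24)))) .nd)))) (.rp 15 (.thr 0 32 (.thr 63 42 (.thr 53 58 (.str 18 (.nv (.thr 19 17 (.thr 22 30 (.thr 20 23 (.dbl 28 24 25)))) (.nv (.thr 3 33 (.thr 2 1 (.thr 34 50 (.dbl 17 19 51)))) (.nv (.thr 22 30 (.thr 23 20 (.dbl 3 33 43))) (.rp 47 (.thr 37 5 (.thr 22 30 (.thr 23 20 (.dbl 3 33 43)))) (.rp 37 (.str 47 (.nv (.thr 17 19 (.thr 51 34 (.thr 50 49 (.thr 38 14 (.dbl 55 4 59))))) (.nv (.thr 22 30 (.thr 23 20 (.dbl 3 33 43))) (.rp 33 (.thr 19 17 (.thr 22 30 (.thr 20 23 (.dbl 28 24 25)))) (.rp 23 (.thr 3 33 (.thr 2 1 (.thr 34 50 (.dbl 17 19 51)))) .nd))))) .nd))))))))) (.rp 5 (.str 4 (.nv (.thr 37 15 (.thr 38 55 (.thr 36 39 (.thr 20 52 (.dbl 24 12 28))))) (.nv (.thr 0 32 (.thr 12 8 (.thr 24 36 (.thr 25 27 (.thr 29 17 (.dbl 63 42 46)))))) (.nv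 (.thr 0 32 (.thr 12 8 (.thr 38 55 (.thr 14 50 (.dbl 15 13 37))))) (.rp 12 (.thr 38 55 (.thr 50 14 (.thr 51 49 (.thr 0 32 (.thr 34 17 (.dbl 42 46 63)))))) (.rp 0 (.thr 38 55 (.thr 50 14 (.thr 51 49 (.thr 25 12 (.thr 27 24 (.dbl 15 37 39)))))) .nd)))))) (.rp 0 (.str 18 (.nv (.thr 3 33 (.thr 15 37 (.thr 11 7 (.thr 41 56 (.dbl 22 30 60))))) (.nv (.thr 22 30 (.thr 20 23 (.thr 28 24 (.dbl 19 17 25)))) (.rp 30 (.thr 19 17 (.thr 3 33 (.thr 51 35 (.thr 49 50 (.thr 37 15 (.thr 25 13 (.thr 24 27 (.dbl 28 20 22)))))))) (.rp 22 (.thr 17 19 (.thr 25 29 (.thr 33 3 (.thr 37 15 (.dbl 49 1 13))))) .nd))))) .nd)))))))))))) (.rp 60 (.thr 31 16 .ext) (.rp 59 (.thr 31 16 (.str 63 (.nv (.thr 15 47 (.thr 48 37 (.thr 42 0 (.dbl 58 10 53)))) (.rp 58 (.thr 15 47 (.thr 37 48 (.thr 5 53 (.dbl 0 10 42)))) (.rp 53 (.str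 23 (.nv (.thr 0 42 (.thr 15 47 (.thr 3 43 (.thr 11 7 (.thr 41 56 (.dbl 1 2 61)))))) (.nv (.thr 22 20 (.thr 30 18 (.thr 28 29 (.dbl 19 25 27)))) (.rp 25 (.thr 22 20 (.thr 30 18 (.thr 15 47 (.thr 60 45 (.dbl 3 41 43))))) .nd)))) (.rp 48 (.str 23 (.nv (.thr 0 42 (.thr 27 19 (.thr 25 24 (.thr 17 29 (.thr 51 34 (.dbl 15 39 47)))))) (.nv (.thr 0 42 (.thr 15 47 (.thr 3 43 (.thr 11 7 (.thr 41 56 (.dbl 1 2 61)))))) (.nv (.thr 22 20 (.thr 30 18 (.thr 28 29 (.dbl 19 25 27)))) (.rp 25 (.thr 22 20 (.thr 30 18 (.thr 15 47 (.thr 60 45 (.dbl 3 41 43))))) (.rp 0 (.str 32 (.nv (.thr 22 20 (.thr 30 18 (.thr 28 29 (.dbl 19 25 27)))) (.nv (.thr 15 47 (.thr 3 43 (.thr 11 7 (.thr 22 20 (.dbl 41 56 60))))) (.nv (.thr 19 27 (.thr 22 20 (.thr 28 25 (.dbl 30 18 29)))) (.nv (.thr 27 19 (.thr 3 43 (.thr 15 47 (.thr 7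 11 (.dbl 39 51 55))))) .nd))))) .nd)))))) (.rp 47 (.str 23 (.nv (.thr 0 42 (.thr 3 43 (.thr 1 2 (.thr 41 61 (.dbl 22 20 60))))) (.nv (.thr 22 20 (.thr 42 0 (.thr 62 2 (.thr 60 61 (.dbl 3 41 43))))) (.nv (.thr 22 20 (.thr 30 18 (.thr 28 29 (.dbl 19 25 27)))) (.rp 22 (.thr 27 19 (.thr 25 24 (.thr 17 29 (.thr 0 42 (.thr 51 34 (.thr 15 39 (.thr 5 10 (.dbl 37 48 53)))))))) (.rp 20 (.thr 27 19 (.thr 3 43 (.thr 42 0 (.thr 58 10 (.thr 48 53 (.thr 15 37 (.thr 7 11 (.dbl 39 51 55)))))))) .nd)))))) (.rp 42 (.str 25 (.nv (.thr 15 47 (.thr 27 24 (.thr 37 48 (.thr 13 49 (.thr 12 14 (.dbl 51 38 39)))))) (.nv (.thr 15 47 (.thr 37 48 (.thr 13 49 (.thr 12 14 (.dbl 29 17 46))))) (.nv (.thr 29 17 (.thr 27 24 (.thr 28 30 (.dbl 19 22 23)))) .nd)))) (.rp 37 (.str 23 (.nv (.thr 3 43 (.thr 15 47 (.thr 7 11 (.thr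 27 19 (.dbl 39 51 55))))) (.nv (.thr 15 47 (.thr 3 43 (.thr 11 7 (.thr 41 56 (.dbl 22 20 60))))) (.nv (.thr 22 20 (.thr 30 18 (.thr 28 29 (.dbl 19 25 27)))) .nd)))) (.rp 15 (.str 23 (.nv (.thr 0 42 (.thr 3 43 (.thr 1 2 (.thr 41 61 (.dbl 22 20 60))))) (.nv (.thr 22 20 (.thr 42 0 (.thr 62 2 (.thr 60 61 (.dbl 3 41 43))))) (.nv (.thr 22 20 (.thr 30 18 (.thr 28 29 (.dbl 19 25 27)))) (.rp 22 (.thr 27 19 (.thr 25 24 (.thr 17 29 (.thr 43 3 (.thr 42 0 (.thr 41 40 (.thr 1 61 (.thr 49 33 (.thr 13 37 (.dbl 9 5 57)))))))))) (.rp 20 (.thr 3 43 (.thr 0 42 (.thr 1 2 (.thr 41 61 (.thr 22 60 (.thr 30 18 (.thr 28 29 (.dbl 19 25 27)))))))) .nd)))))) (.rp 10 (.str 14 (.nv (.thr 0 42 (.thr 38 50 (.thr 4 55 (.thr 12 8 (.thr 25 51 (.dbl 29 17 46)))))) (.nv (.thr 15 47 (.thr 12 13 (.thr 29 46 (.thr 25 17 (.thr 24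 27 (.dbl 48 36 37)))))) (.nv (.thr 15 47 (.thr 12 13 (.thr 38 50 (.thr 4 55 (.dbl 0 8 42))))) (.rp 12 (.thr 50 38 (.thr 42 0 (.thr 15 47 (.thr 48 37 (.thr 58 53 (.thr 62 54 (.thr 22 2 (.dbl 30 18 46)))))))) .nd))))) (.rp 0 (.thr 15 47 (.thr 48 37 (.thr 58 53 (.str 25 (.nv (.thr 29 17 (.thr 12 46 (.thr 14 13 (.dbl 38 50 51)))) (.nv (.thr 24 27 (.thr 12 36 (.thr 14 13 (.dbl 38 50 51)))) (.nv (.thr 27 24 (.thr 19 23 (.thr 29 17 (.dbl 28 22 30)))) (.nv (.thr 24 27 (.thr 12 36 (.dbl 29 17 46))) (.rp 42 (.str 32 (.nv (.thr 29 17 (.thr 12 46 (.thr 14 13 (.dbl 38 50 51)))) (.nv (.thr 24 27 (.thr 12 36 (.thr 14 13 (.dbl 38 50 51)))) (.nv (.thr 27 24 (.thr 19 23 (.thr 29 17 (.dbl 28 22 30)))) (.nv (.thr 24 27 (.thr 12 36 (.dbl 29 17 46))) .nd))))) (.rp 32 (.thr 42 10 (.thr 29 17 (.thr 24 27 (.dbl 12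 36 46)))) .nd)))))))))) .nd)))))))))))) (.rp 58 (.thr 31 16 (.str 22 (.nv (.thr 23 20 (.thr 30 18 (.thr 19 27 (.dbl 28 25 29)))) (.rp 30 (.str 63 (.nv (.thr 15 47 (.thr 23 20 (.thr 3 43 (.thr 7 11 (.dbl 37 48 52))))) (.nv (.thr 0 42 (.thr 20 23 (.thr 60 40 (.thr 41 3 (.dbl 61 1 62))))) (.nv (.thr 0 42 (.thr 15 47 (.thr 37 48 (.dbl 5 10 53)))) .nd)))) (.rp 29 (.str 60 (.nv (.thr 20 23 (.thr 30 18 (.thr 15 45 (.thr 0 40 (.dbl 63 42 47))))) (.nv (.thr 3 41 (.thr 20 23 (.thr 0 40 (.thr 2 1 (.dbl 42 62 63))))) (.nv (.thr 3 41 (.thr 18 30 (.thr 48 33 (.thr 37 15 (.dbl 52 7 56))))) .nd)))) (.rp 28 (.thr 20 23 (.str 60 (.nv (.thr 30 18 (.thr 15 45 (.thr 0 40 (.dbl 63 42 47)))) (.nv (.thr 3 41 (.thr 18 30 (.thr 48 33 (.thr 37 15 (.dbl 52 7 56))))) (.nv (.thr 0 40 (.thr 3 41 (.thr 2 1 (.dbl 42 62 63))))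 .nd))))) (.rp 27 (.str 60 (.nv (.thr 20 23 (.thr 30 18 (.thr 15 45 (.thr 0 40 (.dbl 63 42 47))))) (.nv (.thr 3 41 (.thr 18 30 (.thr 48 33 (.thr 37 15 (.dbl 52 7 56))))) (.nv (.thr 3 41 (.thr 20 23 (.thr 0 40 (.thr 2 1 (.dbl 42 62 63))))) .nd)))) (.rp 25 (.str 60 (.nv (.thr 3 41 (.thr 20 23 (.thr 0 40 (.thr 2 1 (.dbl 42 62 63))))) (.nv (.thr 3 41 (.thr 18 30 (.thr 48 33 (.thr 37 15 (.dbl 52 7 56))))) (.nv (.thr 20 23 (.thr 30 18 (.thr 15 45 (.thr 0 40 (.dbl 63 42 47))))) .nd)))) (.rp 24 (.thr 30 18 (.thr 23 20 (.thr 28 29 (.dbl 19 25 27)))) (.rp 23 (.str 60 (.nv (.thr 30 18 (.thr 15 45 (.thr 63 47 (.thr 62 61 (.dbl 42 0 2))))) (.nv (.thr 18 30 (.thr 3 41 (.thr 48 33 (.thr 37 15 (.dbl 52 7 56))))) (.rp 30 (.thr 41 3 (.thr 61 1 (.thr 63 62 (.thr 15 47 (.thr 48 37 (.dbl 56 11 52)))))) (.rp 18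 (.thr 41 3 (.thr 61 1 (.thr 63 62 (.thr 15 47 (.thr 48 37 (.dbl 56 11 52)))))) (.rp 15 (.thr 30 18 (.thr 28 29 (.thr 12 44 (.thr 41 3 (.thr 61 1 (.thr 63 62 (.thr 0 42 (.thr 4 8 (.thr 38 55 (.dbl 25 19 51)))))))))) .nd)))))) (.rp 20 (.thr 30 18 (.thr 28 29 (.thr 19 25 (.str 3 (.nv (.thr 23 27 (.thr 41 60 (.thr 1 61 (.thr 0 2 (.dbl 63 42 43))))) (.nv (.thr 23 27 (.thr 63 43 (.thr 15 47 (.thr 37 48 (.dbl 7 11 52))))) (.nv (.thr 60 41 (.thr 15 45 (.thr 7 11 (.dbl 37 48 52)))) (.nv (.thr 23 27 (.thr 63 43 (.thr 15 47 (.dbl 60 41 45)))) .nd)))))))) (.rp 19 (.thr 20 23 (.thr 18 30 (.str 60 (.nv (.thr 0 40 (.thr 3 41 (.thr 2 1 (.dbl 42 62 63)))) (.nv (.thr 3 41 (.thr 48 33 (.thr 37 15 (.dbl 52 7 56)))) (.rp 41 (.thr 0 40 (.thr 42 63 (.thr 2 62 (.thr 3 1 (.thr 48 33 (.thr 52 56 (.dbl 37 7 15)))))))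 (.rp 3 (.thr 0 40 (.thr 63 42 (.thr 15 47 (.thr 5 10 (.dbl 37 48 53))))) .nd))))))) (.rp 18 (.thr 23 20 (.thr 19 27 (.thr 28 25 (.str 60 (.nv (.thr 30 29 (.thr 41 3 (.thr 56 11 (.thr 48 52 (.dbl 15 37 45))))) (.nv (.thr 12 44 (.thr 29 30 (.thr 63 46 (.thr 42 0 (.dbl 62 2 61))))) (.nv (.thr 3 41 (.thr 63 43 (.thr 42 0 (.dbl 62 2 61)))) (.nv (.thr 30 29 (.thr 15 45 (.thr 63 47 (.dbl 3 41 43)))) .nd)))))))) .nd))))))))))))) (.rp 57 (.thr 31 16 .ext) (.rp 56 (.thr 31 16 (.str 63 (.nv (.thr 15 47 (.thr 48 37 (.thr 42 0 (.dbl 58 10 53)))) (.rp 58 (.thr 15 47 (.thr 37 48 (.thr 5 53 (.dbl 0 10 42)))) (.rp 53 (.str 23 (.nv (.thr 3 43 (.thr 15 47 (.thr 7 11 (.thr 27 19 (.dbl 39 51 55))))) (.nv (.thr 0 42 (.thr 3 43 (.thr 1 2 (.thr 41 61 (.dbl 22 20 60))))) (.nv (.thr 19 27 (.thr 22 20 (.thr 28 25 (.dbl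 30 18 29)))) .nd)))) (.rp 48 (.str 60 (.nv (.thr 0 42 (.thr 20 40 (.thr 22 23 (.thr 30 18 (.dbl 15 45 47))))) (.nv (.thr 15 47 (.thr 30 45 (.thr 62 61 (.thr 46 14 (.dbl 29 12 28))))) (.nv (.thr 0 42 (.thr 20 40 (.thr 22 23 (.thr 61 62 (.dbl 41 1 3))))) (.rp 0 (.str 32 (.nv (.thr 15 47 (.thr 30 45 (.thr 22 18 (.thr 23 20 (.dbl 3 41 43))))) (.nv (.thr 47 15 (.thr 42 37 (.thr 61 62 (.thr 41 1 (.thr 3 22 (.dbl 43 23 40)))))) (.nv (.thr 62 61 (.thr 15 47 (.thr 30 45 (.thr 29 28 (.dbl 46 12 14))))) (.rp 47 (.thr 61 62 (.thr 41 1 (.thr 3 22 (.thr 23 43 (.thr 27 19 (.thr 25 24 (.thr 57 9 (.thr 49 53 (.thr 13 37 (.dbl 29 17 45)))))))))) (.rp 15 (.thr 61 62 (.thr 41 1 (.thr 3 22 (.thr 43 23 (.thr 42 40 (.thr 47 37 (.thr 35 39 (.thr 34 33 (.dbl 38 44 46))))))))) .nd)))))) .nd))))) (.rp 47 (.str 23 (.nv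 (.thr 27 19 (.thr 42 0 (.thr 43 3 (.thr 59 11 (.dbl 25 8 24))))) (.nv (.thr 0 42 (.thr 3 43 (.thr 1 2 (.thr 41 61 (.dbl 22 20 60))))) (.nv (.thr 19 27 (.thr 22 20 (.thr 28 25 (.dbl 30 18 29)))) .nd)))) (.rp 42 (.str 23 (.nv (.thr 3 43 (.thr 15 47 (.thr 22 20 (.thr 18 30 (.dbl 48 33 37))))) (.nv (.thr 3 43 (.thr 15 47 (.thr 7 11 (.thr 39 55 (.dbl 27 19 51))))) (.nv (.thr 22 20 (.thr 30 18 (.thr 19 27 (.dbl 28 25 29)))) .nd)))) (.rp 37 (.str 23 (.nv (.thr 3 43 (.thr 15 47 (.thr 7 11 (.thr 27 19 (.dbl 39 51 55))))) (.nv (.thr 0 42 (.thr 3 43 (.thr 1 2 (.thr 41 61 (.dbl 22 20 60))))) (.nv (.thr 22 20 (.thr 30 18 (.thr 19 27 (.dbl 28 25 29)))) .nd)))) (.rp 15 (.str 23 (.nv (.thr 0 42 (.thr 3 43 (.thr 1 2 (.thr 41 61 (.dbl 22 20 60))))) (.nv (.thr 22 20 (.thr 30 18 (.thr 28 29 (.dbl 19 25 27))))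 (.rp 22 (.thr 27 19 (.thr 25 24 (.thr 43 3 (.thr 42 0 (.dbl 59 8 11))))) (.rp 20 (.thr 19 27 (.thr 3 43 (.thr 51 35 (.thr 59 55 (.thr 42 0 (.thr 25 8 (.thr 29 17 (.dbl 28 22 30)))))))) .nd))))) (.rp 10 (.str 14 (.nv (.thr 0 42 (.thr 38 50 (.thr 4 55 (.thr 12 8 (.thr 25 51 (.dbl 29 17 46)))))) (.nv (.thr 15 47 (.thr 12 13 (.thr 29 46 (.thr 25 17 (.thr 24 27 (.dbl 48 36 37)))))) (.nv (.thr 15 47 (.thr 12 13 (.thr 38 50 (.thr 4 55 (.dbl 0 8 42))))) (.rp 12 (.thr 38 50 (.thr 55 4 (.thr 51 59 (.thr 15 47 (.thr 39 27 (.dbl 37 36 48)))))) .nd))))) (.rp 0 (.thr 15 47 (.thr 48 37 (.thr 58 53 (.str 23 (.nv (.thr 19 27 (.thr 22 20 (.thr 28 25 (.dbl 30 18 29)))) (.nv (.thr 3 43 (.thr 7 11 (.thr 39 55 (.dbl 27 19 51)))) (.nv (.thr 22 20 (.thr 18 30 (.dbl 3 33 43))) (.rp 42 (.str 32 (.nv (.thr 19 27 (.thr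 22 20 (.thr 28 25 (.dbl 30 18 29)))) (.nv (.thr 3 43 (.thr 7 11 (.thr 39 55 (.dbl 27 19 51)))) (.nv (.thr 22 20 (.thr 18 30 (.dbl 3 33 43))) (.rp 40 (.thr 27 19 (.thr 39 51 (.thr 7 55 (.dbl 3 11 43)))) .nd))))) (.rp 32 (.thr 42 10 (.thr 22 20 (.thr 18 30 (.dbl 3 33 43)))) .nd))))))))) .nd)))))))))))) (.rp 55 (.thr 16 31 (.str 48 (.nv (.thr 0 32 (.thr 63 42 (.thr 37 15 (.dbl 53 5 58)))) (.rp 63 (.str 51 (.nv (.thr 0 32 (.thr 15 37 (.thr 17 34 (.thr 25 29 (.dbl 27 24 39))))) (.nv (.thr 15 37 (.thr 27 39 (.thr 25 24 (.thr 50 49 (.dbl 38 12 14))))) (.nv (.thr 49 50 (.thr 0 32 (.thr 17 34 (.thr 33 1 (.dbl 18 3 19))))) (.rp 15 (.str 47 (.nv (.thr 0 32 (.thr 17 34 (.thr 25 29 (.thr 12 38 (.dbl 24 27 36))))) (.nv (.thr 32 0 (.thr 37 42 (.thr 49 50 (.thr 25 13 (.thr 24 27 (.dbl 12 36 38)))))) (.nv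 (.thr 49 50 (.thr 0 32 (.thr 17 34 (.thr 33 1 (.dbl 18 3 19))))) (.rp 32 (.thr 50 49 (.thr 38 14 (.thr 12 25 (.thr 24 36 (.thr 28 20 (.thr 44 60 (.thr 41 35 (.thr 56 11 (.thr 40 8 (.thr 42 43 (.dbl 46 34 45))))))))))) (.rp 0 (.thr 50 49 (.thr 38 14 (.thr 12 25 (.thr 36 24 (.thr 37 39 (.thr 32 42 (.thr 44 40 (.thr 45 46 (.dbl 41 33 35))))))))) .nd)))))) .nd))))) (.rp 58 (.str 18 (.nv (.thr 0 32 (.thr 3 33 (.thr 1 2 (.thr 15 37 (.thr 41 61 (.dbl 11 7 56)))))) (.nv (.thr 19 17 (.thr 22 30 (.thr 28 25 (.dbl 20 23 24)))) .nd))) (.rp 53 (.thr 0 32 (.thr 42 63 (.thr 10 58 (.dbl 15 5 37)))) (.rp 42 (.str 18 (.nv (.thr 0 32 (.thr 3 33 (.thr 1 2 (.thr 41 61 (.thr 11 56 (.dbl 15 7 37)))))) (.nv (.thr 19 17 (.thr 22 30 (.thr 28 25 (.dbl 20 23 24)))) (.rp 22 (.thr 17 19 (.thr 25 29 (.thr 33 3 (.thr 49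 1 (.dbl 37 13 15))))) .nd)))) (.rp 37 (.str 18 (.nv (.thr 0 32 (.thr 3 33 (.thr 1 2 (.thr 41 61 (.thr 56 11 (.dbl 60 22 52)))))) (.nv (.thr 19 17 (.thr 22 30 (.thr 28 25 (.dbl 20 23 24)))) (.rp 22 (.thr 17 19 (.thr 0 32 (.thr 51 34 (.thr 49 50 (.dbl 33 1 3))))) .nd)))) (.rp 32 (.str 18 (.nv (.thr 17 19 (.thr 33 3 (.thr 1 49 (.thr 37 15 (.dbl 41 45 61))))) (.nv (.thr 3 33 (.thr 15 37 (.thr 11 7 (.thr 41 56 (.dbl 22 30 60))))) (.nv (.thr 19 17 (.thr 22 30 (.thr 28 25 (.dbl 20 23 24)))) (.rp 23 (.thr 22 30 (.thr 3 33 (.thr 60 41 (.thr 52 56 (.dbl 37 7 15))))) .nd))))) (.rp 15 (.thr 0 32 (.thr 63 42 (.thr 53 58 (.str 18 (.nv (.thr 19 17 (.thr 22 30 (.thr 20 23 (.dbl 28 24 25)))) (.nv (.thr 3 33 (.thr 2 1 (.thr 34 50 (.dbl 17 19 51)))) (.nv (.thr 22 30 (.thr 23 20 (.dbl 3 33 43))) (.rp 47 (.thr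 37 5 (.thr 22 30 (.thr 23 20 (.dbl 3 33 43)))) (.rp 37 (.str 47 (.nv (.thr 17 19 (.thr 51 34 (.thr 49 50 (.thr 61 57 (.dbl 1 33 41))))) (.nv (.thr 22 30 (.thr 23 20 (.dbl 3 33 43))) (.rp 33 (.thr 19 17 (.thr 22 30 (.thr 20 23 (.dbl 28 24 25)))) (.rp 23 (.thr 3 33 (.thr 2 1 (.thr 34 50 (.dbl 17 19 51)))) .nd))))) .nd))))))))) (.rp 5 (.thr 0 32 (.str 12 (.nv (.thr 15 37 (.thr 14 13 (.thr 38 50 (.thr 42 63 (.thr 34 46 (.dbl 51 17 25)))))) (.nv (.thr 24 36 (.thr 20 28 (.thr 40 60 (.dbl 8 4 56)))) (.rp 7 (.thr 4 8 (.thr 24 36 (.thr 25 27 (.thr 29 17 (.dbl 63 42 46))))) (.rp 4 (.str 7 (.nv (.thr 24 36 (.thr 25 27 (.thr 17 29 (.dbl 51 34 38)))) (.nv (.thr 15 37 (.thr 42 63 (.thr 3 11 (.thr 2 1 (.thr 22 62 (.dbl 18 30 33)))))) (.nv (.thr 63 42 (.thr 29 46 (.thr 25 17 (.dbl 24 27 36)))) .nd)))) .nd))))))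 (.rp 0 (.str 18 (.nv (.thr 17 19 (.thr 33 3 (.thr 1 49 (.thr 37 15 (.dbl 41 45 61))))) (.nv (.thr 3 33 (.thr 15 37 (.thr 11 7 (.thr 41 56 (.dbl 22 30 60))))) (.nv (.thr 19 17 (.thr 22 30 (.thr 28 25 (.dbl 20 23 24)))) (.rp 23 (.thr 22 30 (.thr 3 33 (.thr 60 41 (.thr 52 56 (.dbl 37 7 15))))) .nd))))) .nd)))))))))))) (.rp 54 (.str 22 (.nv (.thr 23 20 (.thr 30 18 (.thr 31 16 (.thr 28 29 (.dbl 19 25 27))))) (.rp 31 (.str 3 (.nv (.thr 18 30 (.thr 23 20 (.thr 48 33 (.thr 63 43 (.thr 53 58 (.dbl 37 5 15)))))) (.nv (.thr 18 30 (.thr 41 60 (.thr 11 56 (.thr 15 7 (.dbl 48 33 37))))) (.nv (.thr 23 20 (.thr 60 41 (.thr 63 43 (.thr 42 0 (.dbl 62 2 61))))) .nd)))) (.rp 30 (.str 60 (.nv (.thr 16 31 (.thr 20 23 (.thr 0 40 (.thr 48 32 (.thr 52 56 (.dbl 37 7 15)))))) (.nv (.thr 3 41 (.thr 20 23 (.thr 0 40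 (.thr 42 63 (.dbl 2 1 62))))) (.rp 40 (.thr 23 20 (.thr 3 41 (.thr 63 43 (.thr 42 0 (.dbl 62 2 61))))) (.rp 23 (.thr 16 31 (.thr 41 3 (.thr 56 11 (.thr 48 52 (.thr 0 32 (.thr 63 42 (.dbl 61 1 62))))))) (.rp 20 (.thr 16 31 (.thr 41 3 (.thr 56 11 (.thr 48 52 (.thr 0 32 (.thr 63 42 (.dbl 61 1 62))))))) (.rp 0 (.thr 23 20 (.thr 31 16 (.thr 3 41 (.thr 63 43 (.thr 15 47 (.thr 7 11 (.dbl 37 48 52))))))) .nd))))))) (.rp 29 (.thr 20 23 (.thr 18 30 (.thr 16 31 (.thr 28 24 (.dbl 19 17 25))))) (.rp 28 (.str 60 (.nv (.thr 16 31 (.thr 20 23 (.thr 0 40 (.thr 30 18 (.thr 15 45 (.dbl 48 32 37)))))) (.nv (.thr 3 41 (.thr 18 30 (.thr 48 33 (.thr 37 15 (.dbl 52 7 56))))) (.nv (.thr 3 41 (.thr 20 23 (.thr 0 40 (.thr 42 63 (.dbl 2 1 62))))) .nd)))) (.rp 27 (.thr 20 23 (.thr 18 30 (.thr 16 31 (.thr 19 17 (.dbl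 28 24 25))))) (.rp 25 (.str 3 (.nv (.thr 23 20 (.thr 18 30 (.thr 16 31 (.thr 48 33 (.thr 63 43 (.dbl 0 32 42)))))) (.nv (.thr 23 20 (.thr 63 43 (.thr 0 42 (.thr 1 2 (.dbl 41 60 61))))) (.nv (.thr 18 30 (.thr 48 33 (.thr 37 15 (.thr 60 41 (.dbl 52 7 56))))) .nd)))) (.rp 23 (.str 3 (.nv (.thr 16 31 (.thr 41 60 (.thr 1 61 (.thr 0 2 (.thr 11 56 (.thr 15 7 (.dbl 48 32 37))))))) (.nv (.thr 16 31 (.thr 18 30 (.thr 48 33 (.thr 0 32 (.thr 2 1 (.dbl 42 62 63)))))) (.nv (.thr 18 30 (.thr 48 33 (.thr 37 15 (.thr 60 41 (.dbl 52 7 56))))) (.rp 48 (.thr 30 18 (.thr 31 16 (.thr 60 41 (.thr 15 45 (.thr 63 47 (.thr 62 61 (.dbl 42 0 2))))))) .nd))))) (.rp 20 (.str 60 (.nv (.thr 16 31 (.thr 41 3 (.thr 56 11 (.thr 48 52 (.thr 0 32 (.thr 61 1 (.dbl 63 42 62))))))) (.nv (.thr 30 18 (.thr 15 45 (.thr 31 16 (.thr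 63 47 (.thr 62 61 (.dbl 42 0 2)))))) (.nv (.thr 18 30 (.thr 3 41 (.thr 48 33 (.thr 37 15 (.dbl 52 7 56))))) (.rp 15 (.thr 18 30 (.thr 16 31 (.thr 3 41 (.thr 48 33 (.thr 0 32 (.thr 2 1 (.dbl 42 62 63))))))) .nd))))) (.rp 19 (.str 3 (.nv (.thr 16 31 (.thr 18 30 (.thr 23 20 (.thr 48 33 (.thr 0 32 (.dbl 63 42 43)))))) (.nv (.thr 20 23 (.thr 60 41 (.thr 0 40 (.thr 2 1 (.dbl 42 62 63))))) (.nv (.thr 18 30 (.thr 48 33 (.thr 37 15 (.thr 60 41 (.dbl 52 7 56))))) .nd)))) (.rp 18 (.str 3 (.nv (.thr 16 31 (.thr 41 60 (.thr 11 56 (.thr 15 7 (.thr 48 37 (.thr 0 32 (.dbl 1 2 61))))))) (.nv (.thr 23 20 (.thr 31 16 (.thr 63 43 (.thr 15 47 (.thr 7 11 (.dbl 37 48 52)))))) (.nv (.thr 20 23 (.thr 60 41 (.thr 0 40 (.thr 42 63 (.dbl 2 1 62))))) .nd)))) (.rp 17 (.thr 23 20 (.thr 30 18 (.thr 31 16 (.thr 19 27 (.dbl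 28 25 29))))) (.rp 16 (.str 3 (.nv (.thr 18 30 (.thr 23 20 (.thr 48 33 (.thr 63 43 (.thr 53 58 (.dbl 37 5 15)))))) (.nv (.thr 20 23 (.thr 60 41 (.thr 0 40 (.thr 2 1 (.dbl 42 62 63))))) (.nv (.thr 18 30 (.thr 48 33 (.thr 37 15 (.thr 60 41 (.dbl 52 7 56))))) .nd)))) .nd)))))))))))))) (.rp 53 (.thr 16 31 (.str 22 (.nv (.thr 18 30 (.thr 20 23 (.thr 19 17 (.dbl 28 24 25)))) (.rp 30 (.thr 20 23 (.thr 28 24 (.thr 19 25 (.str 3 (.nv (.thr 18 17 (.thr 41 60 (.thr 11 56 (.thr 15 7 (.dbl 48 33 37))))) (.nv (.thr 17 18 (.thr 51 35 (.thr 0 34 (.thr 2 1 (.dbl 42 62 63))))) (.nv (.thr 60 41 (.thr 0 40 (.thr 2 1 (.dbl 42 62 63)))) (.nv (.thr 18 17 (.thr 48 33 (.thr 0 32 (.dbl 60 40 41)))) .nd)))))))) (.rp 29 (.thr 20 23 (.thr 18 30 (.thr 28 24 (.dbl 19 17 25)))) (.rp 28 (.thr 30 18 (.str 60 (.nv (.thr 20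 23 (.thr 0 40 (.thr 15 45 (.dbl 48 32 37)))) (.nv (.thr 3 41 (.thr 20 23 (.thr 0 40 (.thr 2 1 (.dbl 42 62 63))))) (.nv (.thr 3 41 (.thr 15 45 (.thr 7 11 (.dbl 37 48 52)))) .nd))))) (.rp 25 (.str 60 (.nv (.thr 3 41 (.thr 18 30 (.thr 48 33 (.thr 37 15 (.dbl 52 7 56))))) (.nv (.thr 3 41 (.thr 23 20 (.thr 63 43 (.thr 42 0 (.dbl 62 2 61))))) (.nv (.thr 30 18 (.thr 20 23 (.thr 0 40 (.thr 15 45 (.dbl 48 32 37))))) .nd)))) (.rp 24 (.str 60 (.nv (.thr 30 18 (.thr 20 23 (.thr 0 40 (.thr 15 45 (.dbl 48 32 37))))) (.nv (.thr 3 41 (.thr 18 30 (.thr 48 33 (.thr 52 56 (.dbl 37 7 15))))) (.nv (.thr 3 41 (.thr 23 20 (.thr 63 43 (.thr 42 0 (.dbl 62 2 61))))) .nd)))) (.rp 23 (.thr 18 30 (.thr 19 17 (.thr 28 25 (.str 60 (.nv (.thr 20 24 (.thr 41 3 (.thr 61 1 (.thr 63 62 (.dbl 0 40 42))))) (.nv (.thr 12 44 (.thr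 24 20 (.thr 48 36 (.thr 37 15 (.dbl 52 7 56))))) (.nv (.thr 3 41 (.thr 48 33 (.thr 37 15 (.dbl 52 7 56)))) (.nv (.thr 20 24 (.thr 0 40 (.thr 48 32 (.dbl 3 33 41)))) .nd)))))))) (.rp 20 (.str 48 (.nv (.thr 0 32 (.thr 18 30 (.thr 3 33 (.thr 1 2 (.dbl 41 60 61))))) (.nv (.thr 15 37 (.thr 30 18 (.thr 60 45 (.thr 41 3 (.dbl 56 11 52))))) (.nv (.thr 0 32 (.thr 15 37 (.thr 42 63 (.dbl 10 5 58)))) .nd)))) (.rp 19 (.thr 30 18 (.thr 23 20 (.str 60 (.nv (.thr 3 41 (.thr 15 45 (.thr 7 11 (.dbl 37 48 52)))) (.nv (.thr 3 41 (.thr 63 43 (.thr 42 0 (.dbl 62 2 61)))) (.rp 41 (.thr 15 45 (.thr 37 48 (.thr 7 52 (.thr 3 11 (.thr 63 43 (.thr 62 61 (.dbl 42 0 2))))))) (.rp 3 (.thr 15 45 (.thr 48 37 (.thr 0 32 (.thr 10 5 (.dbl 42 58 63))))) .nd))))))) (.rp 18 (.str 60 (.nv (.thr 20 23 (.thr 0 40 (.thr 48 32 (.thr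 52 56 (.dbl 37 7 15))))) (.nv (.thr 3 41 (.thr 23 20 (.thr 63 43 (.thr 42 0 (.dbl 62 2 61))))) (.rp 23 (.thr 41 3 (.thr 56 11 (.thr 48 52 (.thr 0 32 (.thr 63 42 (.dbl 61 1 62)))))) (.rp 20 (.thr 41 3 (.thr 56 11 (.thr 48 52 (.thr 0 32 (.thr 63 42 (.dbl 61 1 62)))))) (.rp 0 (.thr 20 23 (.thr 28 24 (.thr 12 44 (.thr 41 3 (.thr 56 11 (.thr 48 52 (.thr 15 37 (.thr 14 13 (.thr 38 50 (.dbl 25 19 51)))))))))) .nd)))))) (.rp 17 (.str 60 (.nv (.thr 30 18 (.thr 20 23 (.thr 0 40 (.thr 15 45 (.dbl 48 32 37))))) (.nv (.thr 3 41 (.thr 23 20 (.thr 63 43 (.thr 42 0 (.dbl 62 2 61))))) (.nv (.thr 3 41 (.thr 30 18 (.thr 15 45 (.thr 7 11 (.dbl 37 48 52))))) .nd)))) .nd))))))))))))) (.rp 52 (.thr 16 31 (.str 48 (.nv (.thr 0 32 (.thr 63 42 (.thr 37 15 (.dbl 53 5 58)))) (.rp 63 (.str 18 (.nv (.thr 0 32 (.thr 3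 33 (.thr 1 2 (.thr 41 61 (.thr 11 56 (.dbl 15 7 37)))))) (.nv (.thr 19 17 (.thr 22 30 (.thr 28 25 (.dbl 20 23 24)))) (.rp 47 (.thr 15 37 (.thr 22 30 (.thr 19 17 (.thr 28 25 (.dbl 20 23 24))))) (.rp 15 (.str 47 (.nv (.thr 0 32 (.thr 3 33 (.thr 1 2 (.thr 22 30 (.dbl 41 60 61))))) (.nv (.thr 0 32 (.thr 3 33 (.thr 2 1 (.thr 34 50 (.dbl 17 19 51))))) (.nv (.thr 19 17 (.thr 22 30 (.thr 28 25 (.dbl 20 23 24)))) .nd)))) .nd))))) (.rp 58 (.str 18 (.nv (.thr 0 32 (.thr 3 33 (.thr 1 2 (.thr 41 61 (.thr 11 56 (.dbl 15 7 37)))))) (.nv (.thr 19 17 (.thr 22 30 (.thr 28 25 (.dbl 20 23 24)))) .nd))) (.rp 53 (.thr 0 32 (.thr 42 63 (.thr 10 58 (.dbl 15 5 37)))) (.rp 42 (.str 18 (.nv (.thr 0 32 (.thr 3 33 (.thr 1 2 (.thr 41 61 (.thr 11 56 (.dbl 15 7 37)))))) (.nv (.thr 22 30 (.thr 20 23 (.thr 19 17 (.dbl 28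 24 25)))) (.rp 22 (.thr 17 19 (.thr 25 29 (.thr 33 3 (.thr 49 1 (.dbl 37 13 15))))) .nd)))) (.rp 37 (.str 22 (.nv (.thr 0 32 (.thr 18 30 (.thr 3 33 (.thr 1 2 (.dbl 41 60 61))))) (.nv (.thr 0 32 (.thr 42 63 (.thr 2 62 (.thr 3 1 (.thr 60 41 (.dbl 20 23 40)))))) (.nv (.thr 18 30 (.thr 20 23 (.thr 19 17 (.dbl 28 24 25)))) .nd)))) (.rp 32 (.str 18 (.nv (.thr 17 19 (.thr 33 3 (.thr 1 49 (.thr 37 15 (.dbl 41 45 61))))) (.nv (.thr 3 33 (.thr 15 37 (.thr 11 7 (.thr 22 30 (.dbl 41 56 60))))) (.nv (.thr 19 17 (.thr 22 30 (.thr 28 25 (.dbl 20 23 24)))) .nd)))) (.rp 15 (.thr 0 32 (.thr 63 42 (.thr 53 58 (.str 22 (.nv (.thr 20 23 (.thr 60 40 (.thr 41 3 (.dbl 61 1 62)))) (.nv (.thr 18 30 (.thr 3 33 (.thr 1 2 (.dbl 41 60 61)))) (.nv (.thr 18 30 (.thr 19 17 (.thr 20 23 (.dbl 28 24 25)))) (.nv (.thr 23 20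 (.thr 3 43 (.dbl 18 30 33))) (.rp 47 (.thr 37 5 (.thr 18 30 (.thr 23 20 (.dbl 3 33 43)))) (.rp 37 (.str 47 (.nv (.thr 20 23 (.thr 60 40 (.thr 41 3 (.dbl 61 1 62)))) (.nv (.thr 18 30 (.thr 3 33 (.thr 1 2 (.dbl 41 60 61)))) (.nv (.thr 18 30 (.thr 19 17 (.thr 20 23 (.dbl 28 24 25)))) (.nv (.thr 23 20 (.thr 3 43 (.dbl 18 30 33))) .nd))))) .nd)))))))))) (.rp 5 (.str 4 (.nv (.thr 0 32 (.thr 12 8 (.thr 24 36 (.thr 25 27 (.thr 29 17 (.dbl 63 42 46)))))) (.nv (.thr 0 32 (.thr 12 8 (.thr 38 55 (.thr 14 50 (.dbl 15 13 37))))) (.rp 32 (.thr 38 55 (.thr 50 14 (.thr 51 49 (.thr 25 12 (.thr 27 24 (.dbl 15 37 39)))))) (.rp 12 (.thr 38 55 (.thr 50 14 (.thr 51 49 (.thr 0 32 (.thr 34 17 (.dbl 42 46 63)))))) (.rp 8 (.thr 38 55 (.thr 50 14 (.thr 51 49 (.thr 25 12 (.thr 17 29 (.dbl 0 32 34)))))) (.rp 0 (.thr 38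 55 (.thr 50 14 (.thr 51 49 (.thr 25 12 (.thr 27 24 (.dbl 15 37 39)))))) .nd))))))) (.rp 0 (.str 18 (.nv (.thr 17 19 (.thr 33 3 (.thr 1 49 (.thr 37 15 (.dbl 41 45 61))))) (.nv (.thr 3 33 (.thr 15 37 (.thr 11 7 (.thr 22 30 (.dbl 41 56 60))))) (.nv (.thr 22 30 (.thr 20 23 (.thr 28 24 (.dbl 19 17 25)))) .nd)))) .nd)))))))))))) (.rp 51 (.thr 31 16 .ext) (.rp 50 (.thr 31 16 (.str 63 (.nv (.thr 15 47 (.thr 48 37 (.thr 42 0 (.dbl 58 10 53)))) (.rp 58 (.thr 15 47 (.thr 37 48 (.thr 5 53 (.dbl 0 10 42)))) (.rp 53 (.str 23 (.nv (.thr 0 42 (.thr 3 43 (.thr 15 47 (.thr 11 7 (.thr 41 56 (.dbl 1 2 61)))))) (.nv (.thr 19 27 (.thr 22 20 (.thr 28 25 (.dbl 30 18 29)))) .nd))) (.rp 48 (.str 51 (.nv (.thr 0 42 (.thr 17 34 (.thr 25 29 (.thr 27 24 (.dbl 15 39 47))))) (.nv (.thr 0 42 (.thr 17 34 (.thr 25 29 (.thr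 55 59 (.dbl 38 4 12))))) (.nv (.thr 59 55 (.thr 15 47 (.thr 27 39 (.thr 43 11 (.dbl 23 3 19))))) (.rp 0 (.str 32 (.nv (.thr 15 47 (.thr 27 39 (.thr 25 24 (.thr 29 17 (.dbl 12 38 46))))) (.nv (.thr 47 15 (.thr 42 37 (.thr 55 59 (.thr 38 4 (.thr 12 25 (.dbl 46 29 34)))))) (.nv (.thr 59 55 (.thr 15 47 (.thr 27 39 (.thr 43 11 (.dbl 23 3 19))))) (.rp 47 (.thr 55 59 (.thr 38 4 (.thr 12 25 (.thr 29 46 (.thr 28 30 (.thr 44 60 (.thr 41 35 (.thr 61 1 (.thr 45 13 (.thr 37 33 (.dbl 36 39 40))))))))))) (.rp 15 (.thr 55 59 (.thr 38 4 (.thr 12 25 (.thr 46 29 (.thr 42 34 (.thr 47 37 (.thr 44 45 (.thr 40 36 (.dbl 41 35 43))))))))) .nd)))))) .nd))))) (.rp 47 (.str 23 (.nv (.thr 27 19 (.thr 42 0 (.thr 43 3 (.thr 11 59 (.dbl 41 40 56))))) (.nv (.thr 0 42 (.thr 3 43 (.thr 1 2 (.thr 41 61 (.dbl 22 20 60))))) (.nv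 (.thr 19 27 (.thr 22 20 (.thr 28 25 (.dbl 30 18 29)))) (.rp 18 (.thr 22 20 (.thr 3 43 (.thr 60 41 (.thr 62 61 (.dbl 42 0 2))))) .nd))))) (.rp 42 (.str 23 (.nv (.thr 3 43 (.thr 15 47 (.thr 11 7 (.thr 41 56 (.thr 60 22 (.dbl 61 1 62)))))) (.nv (.thr 19 27 (.thr 22 20 (.thr 28 25 (.dbl 30 18 29)))) (.rp 22 (.thr 27 19 (.thr 15 47 (.thr 51 39 (.thr 59 55 (.dbl 43 3 11))))) .nd)))) (.rp 37 (.str 23 (.nv (.thr 3 43 (.thr 15 47 (.thr 11 7 (.thr 41 56 (.thr 1 61 (.dbl 0 2 42)))))) (.nv (.thr 19 27 (.thr 22 20 (.thr 28 25 (.dbl 30 18 29)))) (.rp 22 (.thr 27 19 (.thr 25 24 (.thr 43 3 (.thr 59 11 (.dbl 42 0 8))))) .nd)))) (.rp 15 (.str 23 (.nv (.thr 27 19 (.thr 42 0 (.thr 43 3 (.thr 11 59 (.dbl 41 40 56))))) (.nv (.thr 0 42 (.thr 3 43 (.thr 1 2 (.thr 41 61 (.dbl 22 20 60))))) (.nv (.thr 19 27 (.thr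 22 20 (.thr 28 25 (.dbl 30 18 29)))) (.rp 18 (.thr 22 20 (.thr 3 43 (.thr 60 41 (.thr 62 61 (.dbl 42 0 2))))) .nd))))) (.rp 10 (.thr 15 47 (.str 12 (.nv (.thr 0 42 (.thr 4 8 (.thr 37 48 (.thr 38 55 (.thr 39 36 (.dbl 51 25 27)))))) (.nv (.thr 29 46 (.thr 30 28 (.thr 45 60 (.dbl 13 14 61)))) (.rp 14 (.str 2 (.nv (.thr 29 46 (.thr 25 17 (.thr 27 24 (.dbl 51 38 39)))) (.nv (.thr 0 42 (.thr 37 48 (.thr 3 1 (.thr 7 11 (.thr 22 52 (.dbl 23 20 43)))))) (.nv (.thr 48 37 (.thr 24 36 (.thr 25 27 (.dbl 29 17 46)))) .nd)))) (.rp 2 (.thr 14 13 (.thr 29 46 (.thr 25 17 (.thr 24 27 (.dbl 48 36 37))))) .nd)))))) (.rp 0 (.thr 15 47 (.thr 48 37 (.thr 58 53 (.str 23 (.nv (.thr 19 27 (.thr 22 20 (.thr 28 25 (.dbl 30 18 29)))) (.nv (.thr 3 43 (.thr 7 11 (.thr 39 55 (.dbl 27 19 51)))) (.nv (.thr 22 20 (.thr 18 30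 (.dbl 3 33 43))) (.rp 42 (.str 32 (.nv (.thr 19 27 (.thr 22 20 (.thr 28 25 (.dbl 30 18 29)))) (.nv (.thr 3 43 (.thr 7 11 (.thr 39 55 (.dbl 27 19 51)))) (.nv (.thr 22 20 (.thr 18 30 (.dbl 3 33 43))) (.rp 40 (.thr 27 19 (.thr 39 51 (.thr 7 55 (.dbl 3 11 43)))) .nd))))) (.rp 32 (.thr 42 10 (.thr 22 20 (.thr 18 30 (.dbl 3 33 43)))) .nd))))))))) .nd)))))))))))) (.rp 49 (.thr 16 31 (.str 48 (.nv (.thr 0 32 (.thr 63 42 (.thr 37 15 (.dbl 53 5 58)))) (.rp 63 (.str 18 (.nv (.thr 0 32 (.thr 3 33 (.thr 1 2 (.thr 41 61 (.thr 11 56 (.dbl 15 7 37)))))) (.nv (.thr 22 30 (.thr 20 23 (.thr 28 24 (.dbl 19 17 25)))) (.rp 47 (.thr 15 37 (.thr 22 30 (.thr 19 17 (.thr 20 23 (.dbl 28 24 25))))) (.rp 15 (.str 47 (.nv (.thr 22 30 (.thr 20 23 (.thr 28 24 (.dbl 19 17 25)))) (.nv (.thr 0 32 (.thr 3 33 (.thr 1 2 (.thr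 22 30 (.dbl 41 60 61))))) (.nv (.thr 19 17 (.thr 22 30 (.thr 28 25 (.dbl 20 23 24)))) (.nv (.thr 17 19 (.thr 3 33 (.thr 0 32 (.thr 2 1 (.dbl 34 50 51))))) .nd))))) (.rp 3 (.thr 22 30 (.thr 19 17 (.thr 28 25 (.dbl 20 23 24)))) .nd)))))) (.rp 58 (.str 18 (.nv (.thr 0 32 (.thr 3 33 (.thr 1 2 (.thr 41 61 (.thr 11 56 (.dbl 15 7 37)))))) (.nv (.thr 22 30 (.thr 20 23 (.thr 28 24 (.dbl 19 17 25)))) .nd))) (.rp 53 (.thr 0 32 (.thr 42 63 (.thr 10 58 (.dbl 15 5 37)))) (.rp 42 (.str 18 (.nv (.thr 0 32 (.thr 3 33 (.thr 1 2 (.thr 41 61 (.thr 11 56 (.dbl 15 7 37)))))) (.nv (.thr 22 30 (.thr 20 23 (.thr 28 24 (.dbl 19 17 25)))) (.rp 22 (.thr 17 19 (.thr 0 32 (.thr 34 51 (.thr 2 50 (.dbl 3 1 33))))) .nd)))) (.rp 37 (.str 25 (.nv (.thr 0 32 (.thr 17 29 (.thr 42 63 (.thr 8 59 (.thr 12 4 (.dbl 51 34 38))))))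 (.nv (.thr 0 32 (.thr 42 63 (.thr 8 59 (.thr 12 4 (.dbl 24 27 36))))) (.nv (.thr 24 27 (.thr 17 29 (.thr 28 20 (.dbl 19 18 22)))) .nd)))) (.rp 32 (.str 18 (.nv (.thr 3 33 (.thr 15 37 (.thr 11 7 (.thr 41 56 (.dbl 22 30 60))))) (.nv (.thr 22 30 (.thr 37 15 (.thr 52 7 (.thr 60 56 (.dbl 3 33 41))))) (.nv (.thr 22 30 (.thr 20 23 (.thr 28 24 (.dbl 19 17 25)))) (.rp 30 (.thr 17 19 (.thr 3 33 (.thr 37 15 (.thr 53 5 (.thr 63 58 (.thr 0 42 (.thr 2 1 (.dbl 34 50 51)))))))) (.rp 22 (.thr 17 19 (.thr 25 29 (.thr 27 24 (.thr 15 37 (.thr 51 39 (.thr 0 34 (.thr 10 5 (.dbl 42 58 63)))))))) .nd)))))) (.rp 15 (.thr 0 32 (.thr 63 42 (.thr 53 58 (.str 25 (.nv (.thr 24 27 (.thr 12 36 (.thr 4 8 (.dbl 38 51 55)))) (.nv (.thr 17 29 (.thr 51 34 (.thr 38 12 (.dbl 55 4 59)))) (.nv (.thr 17 29 (.thr 19 18 (.thr 24 27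 (.dbl 28 20 22)))) (.nv (.thr 29 17 (.thr 12 46 (.dbl 24 27 36))) (.rp 47 (.thr 37 5 (.thr 24 27 (.thr 29 17 (.dbl 12 36 46)))) (.rp 37 (.str 47 (.nv (.thr 24 27 (.thr 12 36 (.thr 4 8 (.dbl 38 51 55)))) (.nv (.thr 17 29 (.thr 51 34 (.thr 38 12 (.dbl 55 4 59)))) (.nv (.thr 17 29 (.thr 19 18 (.thr 24 27 (.dbl 28 20 22)))) (.nv (.thr 29 17 (.thr 12 46 (.dbl 24 27 36))) .nd))))) .nd)))))))))) (.rp 5 (.str 4 (.nv (.thr 37 15 (.thr 38 55 (.thr 36 39 (.thr 20 52 (.dbl 24 12 28))))) (.nv (.thr 0 32 (.thr 12 8 (.thr 24 36 (.thr 25 27 (.thr 29 17 (.dbl 63 42 46)))))) (.nv (.thr 0 32 (.thr 12 8 (.thr 38 55 (.thr 14 50 (.dbl 15 13 37))))) (.rp 12 (.thr 55 38 (.thr 37 15 (.thr 0 32 (.thr 63 42 (.thr 53 58 (.thr 52 54 (.thr 22 7 (.dbl 20 23 36)))))))) (.rp 0 (.thr 38 55 (.thr 14 50 (.thr 15 37 (.thr 12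 13 (.thr 25 51 (.dbl 24 27 36)))))) .nd)))))) (.rp 0 (.str 18 (.nv (.thr 3 33 (.thr 15 37 (.thr 11 7 (.thr 41 56 (.dbl 22 30 60))))) (.nv (.thr 22 30 (.thr 37 15 (.thr 52 7 (.thr 60 56 (.dbl 3 33 41))))) (.nv (.thr 22 30 (.thr 20 23 (.thr 28 24 (.dbl 19 17 25)))) (.rp 30 (.thr 3 33 (.thr 15 37 (.thr 11 7 (.thr 41 56 (.thr 22 60 (.thr 20 23 (.thr 28 24 (.dbl 19 17 25)))))))) (.rp 22 (.thr 17 19 (.thr 25 29 (.thr 27 24 (.thr 33 3 (.thr 37 15 (.thr 41 45 (.thr 11 56 (.thr 59 43 (.thr 8 42 (.dbl 9 10 57)))))))))) .nd)))))) .nd)))))))))))) (.rp 48 .ext (.rp 47 (.thr 31 16 .ext) (.rp 46 (.thr 31 16 .ext) (.rp 45 (.thr 31 16 .ext) (.rp 44 (.thr 31 16 (.str 15 (.nv (.thr 37 48 (.thr 5 53 (.thr 0 10 (.dbl 63 42 47)))) (.nv (.thr 63 47 (.thr 0 42 (.thr 37 48 (.dbl 5 10 53)))) (.rp 63 (.str 27 (.nv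 (.thr 23 19 (.thr 37 48 (.thr 39 51 (.thr 55 7 (.dbl 38 4 36))))) (.nv (.thr 48 37 (.thr 51 39 (.thr 50 49 (.thr 38 14 (.dbl 25 12 24))))) (.nv (.thr 25 24 (.thr 29 17 (.thr 28 30 (.dbl 19 22 23)))) .nd)))) (.rp 53 (.str 27 (.nv (.thr 23 19 (.thr 37 48 (.thr 39 51 (.thr 7 55 (.dbl 22 20 52))))) (.nv (.thr 48 37 (.thr 51 39 (.thr 50 49 (.thr 38 14 (.dbl 25 12 24))))) (.nv (.thr 25 24 (.thr 29 17 (.thr 19 23 (.dbl 28 22 30)))) .nd)))) (.rp 48 (.str 27 (.nv (.thr 25 24 (.thr 17 29 (.thr 51 39 (.thr 0 34 (.dbl 63 42 47))))) (.nv (.thr 51 39 (.thr 63 47 (.thr 59 55 (.thr 43 11 (.dbl 23 3 19))))) (.nv (.thr 25 24 (.thr 29 17 (.thr 19 23 (.dbl 28 22 30)))) (.rp 32 (.str 0 (.nv (.thr 25 24 (.thr 17 29 (.dbl 51 34 39))) (.nv (.dbl 63 42 47) (.rp 40 (.str 36 (.nv (.thr 5 10 (.thr 39 51 (.dbl 37 38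 53))) (.nv (.dbl 63 42 47) .nd))) (.rp 36 (.str 40 (.nv (.thr 24 25 (.thr 23 19 (.dbl 20 22 60))) (.nv (.dbl 63 42 47) (.rp 24 (.str 12 (.nv (.thr 20 60 (.dbl 23 19 22)) (.nv (.dbl 63 42 47) (.rp 20 (.str 28 (.nv (.thr 4 8 (.thr 14 13 (.dbl 38 50 55))) (.nv (.dbl 63 42 47) (.rp 4 (.str 52 (.nv (.thr 14 13 (.thr 38 50 (.dbl 51 25 39))) (.nv (.dbl 63 42 47) (.rp 7 (.thr 5 10 (.dbl 63 42 47)) (.rp 5 (.str 7 (.nv (.thr 19 23 (.dbl 22 25 37)) (.nv (.dbl 63 42 47) .nd))) .nd))))) .nd)))) .nd)))) .nd)))) .nd))))) (.rp 0 (.str 32 (.nv (.thr 25 24 (.thr 51 39 (.thr 12 38 (.thr 63 47 (.dbl 29 17 46))))) (.nv (.thr 51 39 (.thr 63 47 (.thr 59 55 (.thr 43 11 (.dbl 23 3 19))))) (.nv (.thr 19 23 (.thr 25 24 (.thr 28 22 (.dbl 29 17 30)))) .nd)))) .nd)))))) (.rp 47 (.str 45 (.nv (.thr 37 48 (.thr 5 53 (.thr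 0 10 (.thr 41 33 (.thr 1 61 (.thr 11 56 (.dbl 3 2 7))))))) (.nv (.thr 30 60 (.thr 28 29 (.thr 22 18 (.thr 19 25 (.dbl 23 20 27))))) (.rp 60 (.thr 37 48 (.thr 41 33 (.thr 61 1 (.thr 13 29 (.thr 53 5 (.dbl 49 25 57)))))) (.rp 18 (.thr 60 30 (.thr 37 48 (.thr 41 33 (.thr 3 22 (.dbl 11 7 56))))) .nd))))) (.rp 42 (.str 27 (.nv (.thr 23 19 (.thr 37 48 (.thr 39 51 (.thr 7 55 (.dbl 22 20 52))))) (.nv (.thr 48 37 (.thr 51 39 (.thr 50 49 (.thr 38 14 (.dbl 25 12 24))))) (.nv (.thr 25 24 (.thr 29 17 (.thr 19 23 (.dbl 28 22 30)))) .nd)))) (.rp 37 (.str 27 (.nv (.thr 23 19 (.thr 39 51 (.thr 7 55 (.thr 3 11 (.dbl 63 43 47))))) (.nv (.thr 51 39 (.thr 63 47 (.thr 55 59 (.thr 38 4 (.dbl 25 12 24))))) (.nv (.thr 25 24 (.thr 29 17 (.thr 19 23 (.dbl 28 22 30)))) .nd)))) (.rp 10 (.str 14 (.nv (.thr 12 13 (.thr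 38 50 (.thr 4 55 (.thr 0 8 (.dbl 63 42 47))))) (.nv (.thr 12 13 (.thr 38 50 (.thr 25 51 (.thr 48 37 (.dbl 24 27 36))))) (.rp 50 (.thr 12 13 (.thr 63 47 (.thr 48 37 (.thr 24 36 (.thr 25 27 (.dbl 29 17 46)))))) (.rp 38 (.thr 13 12 (.thr 37 48 (.thr 25 49 (.thr 29 17 (.thr 45 61 (.dbl 30 28 60)))))) (.rp 13 (.thr 38 50 (.thr 55 4 (.thr 63 47 (.thr 51 59 (.thr 25 12 (.dbl 27 24 39)))))) (.rp 12 (.thr 38 50 (.thr 55 4 (.thr 63 47 (.thr 51 59 (.thr 39 27 (.dbl 37 36 48)))))) .nd))))))) (.rp 5 (.thr 63 47 (.thr 42 0 (.thr 58 10 (.dbl 48 37 53)))) (.rp 0 (.str 27 (.nv (.thr 23 19 (.thr 39 51 (.thr 7 55 (.thr 3 11 (.dbl 63 43 47))))) (.nv (.thr 48 37 (.thr 51 39 (.thr 50 49 (.thr 38 14 (.dbl 25 12 24))))) (.nv (.thr 19 23 (.thr 25 24 (.thr 28 22 (.dbl 29 17 30)))) (.rp 48 (.str 32 (.nv (.thr 25 24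 (.thr 51 39 (.thr 12 38 (.thr 63 47 (.dbl 29 17 46))))) (.nv (.thr 51 39 (.thr 63 47 (.thr 59 55 (.thr 43 11 (.dbl 23 3 19))))) (.nv (.thr 19 23 (.thr 25 24 (.thr 28 22 (.dbl 29 17 30)))) .nd)))) .nd))))) .nd))))))))))))) (.rp 43 (.thr 31 16 .ext) (.rp 42 (.thr 16 31 .ext) (.rp 41 (.thr 31 16 (.str 15 (.nv (.thr 48 37 (.thr 63 47 (.thr 42 0 (.dbl 58 10 53)))) (.nv (.thr 63 47 (.thr 37 48 (.thr 5 53 (.dbl 0 10 42)))) (.rp 63 (.str 27 (.nv (.thr 23 19 (.thr 37 48 (.thr 39 51 (.thr 55 7 (.dbl 38 4 36))))) (.nv (.thr 48 37 (.thr 51 39 (.thr 50 49 (.thr 38 14 (.dbl 25 12 24))))) (.nv (.thr 25 24 (.thr 29 17 (.thr 28 30 (.dbl 19 22 23)))) .nd)))) (.rp 53 (.str 27 (.nv (.thr 23 19 (.thr 37 48 (.thr 39 51 (.thr 7 55 (.dbl 22 20 52))))) (.nv (.thr 48 37 (.thr 51 39 (.thr 50 49 (.thr 38 14 (.dbl 25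 12 24))))) (.nv (.thr 25 24 (.thr 29 17 (.thr 19 23 (.dbl 28 22 30)))) .nd)))) (.rp 48 (.str 27 (.nv (.thr 25 24 (.thr 17 29 (.thr 51 39 (.thr 0 34 (.dbl 63 42 47))))) (.nv (.thr 51 39 (.thr 63 47 (.thr 59 55 (.thr 43 11 (.dbl 23 3 19))))) (.nv (.thr 25 24 (.thr 29 17 (.thr 19 23 (.dbl 28 22 30)))) (.rp 32 (.str 0 (.nv (.thr 25 24 (.thr 17 29 (.dbl 51 34 39))) (.nv (.dbl 63 42 47) .nd))) (.rp 0 (.str 32 (.nv (.thr 25 24 (.thr 51 39 (.thr 12 38 (.thr 63 47 (.dbl 29 17 46))))) (.nv (.thr 25 24 (.thr 29 17 (.thr 19 23 (.dbl 28 22 30)))) (.nv (.thr 51 39 (.thr 63 47 (.thr 59 55 (.thr 43 11 (.dbl 23 3 19))))) (.rp 51 (.thr 25 24 (.thr 19 23 (.thr 28 22 (.dbl 29 17 30)))) .nd))))) .nd)))))) (.rp 47 (.str 27 (.nv (.thr 23 19 (.thr 37 48 (.thr 39 51 (.thr 7 55 (.dbl 22 20 52))))) (.nv (.thr 48 37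 (.thr 51 39 (.thr 50 49 (.thr 38 14 (.dbl 25 12 24))))) (.nv (.thr 25 24 (.thr 29 17 (.thr 19 23 (.dbl 28 22 30)))) .nd)))) (.rp 42 (.str 27 (.nv (.thr 23 19 (.thr 37 48 (.thr 39 51 (.thr 7 55 (.dbl 22 20 52))))) (.nv (.thr 48 37 (.thr 51 39 (.thr 50 49 (.thr 38 14 (.dbl 25 12 24))))) (.nv (.thr 25 24 (.thr 29 17 (.thr 19 23 (.dbl 28 22 30)))) (.rp 43 (.str 40 (.nv (.thr 23 19 (.thr 37 48 (.thr 5 53 (.thr 0 10 (.dbl 20 22 60))))) (.nv (.thr 48 37 (.thr 51 39 (.thr 50 49 (.thr 38 14 (.dbl 25 12 24))))) (.nv (.thr 25 24 (.thr 29 17 (.thr 28 30 (.dbl 19 22 23)))) .nd)))) (.rp 40 (.str 43 (.nv (.thr 19 23 (.thr 25 24 (.thr 28 22 (.dbl 29 17 30)))) (.nv (.thr 47 63 (.dbl 39 35 51)) .nd))) .nd)))))) (.rp 37 (.str 30 (.nv (.thr 22 18 (.thr 63 47 (.thr 42 0 (.thr 62 2 (.dbl 60 45 61))))) (.nv (.thr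 29 28 (.thr 63 47 (.thr 12 46 (.thr 13 14 (.dbl 45 60 61))))) (.nv (.thr 22 18 (.thr 23 20 (.thr 28 29 (.dbl 19 25 27)))) (.rp 45 (.str 33 (.nv (.thr 29 28 (.thr 63 47 (.thr 42 0 (.thr 46 12 (.thr 14 62 (.dbl 38 34 50)))))) (.nv (.thr 18 22 (.thr 63 47 (.thr 42 0 (.thr 58 10 (.dbl 48 3 53))))) (.nv (.thr 22 18 (.thr 23 20 (.thr 19 27 (.dbl 28 25 29)))) .nd)))) (.rp 33 (.thr 45 60 (.thr 22 18 (.thr 28 29 (.thr 19 25 (.dbl 23 20 27))))) .nd)))))) (.rp 10 (.str 14 (.nv (.thr 12 13 (.thr 38 50 (.thr 25 51 (.thr 24 27 (.dbl 48 36 37))))) (.nv (.thr 12 13 (.thr 38 50 (.thr 4 55 (.thr 63 47 (.dbl 0 8 42))))) (.rp 50 (.thr 12 13 (.thr 63 47 (.thr 29 46 (.thr 25 17 (.thr 27 24 (.dbl 51 38 39)))))) (.rp 38 (.thr 12 13 (.thr 63 47 (.thr 29 46 (.thr 25 17 (.thr 24 27 (.dbl 48 36 37)))))) (.rp 13 (.thr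 38 50 (.thr 55 4 (.thr 63 47 (.thr 51 59 (.thr 25 12 (.dbl 27 24 39)))))) (.rp 12 (.thr 38 50 (.thr 55 4 (.thr 63 47 (.thr 51 59 (.thr 39 27 (.dbl 37 36 48)))))) .nd))))))) (.rp 0 (.str 27 (.nv (.thr 23 19 (.thr 39 51 (.thr 7 55 (.thr 3 11 (.dbl 63 43 47))))) (.nv (.thr 48 37 (.thr 51 39 (.thr 50 49 (.thr 38 14 (.dbl 25 12 24))))) (.nv (.thr 25 24 (.thr 29 17 (.thr 19 23 (.dbl 28 22 30)))) (.rp 51 (.thr 25 24 (.thr 19 23 (.thr 28 22 (.dbl 29 17 30)))) (.rp 48 (.str 32 (.nv (.thr 25 24 (.thr 51 39 (.thr 12 38 (.thr 63 47 (.dbl 29 17 46))))) (.nv (.thr 25 24 (.thr 29 17 (.thr 19 23 (.dbl 28 22 30)))) (.nv (.thr 51 39 (.thr 63 47 (.thr 59 55 (.thr 43 11 (.dbl 23 3 19))))) (.rp 51 (.thr 25 24 (.thr 19 23 (.thr 28 22 (.dbl 29 17 30)))) .nd))))) .nd)))))) .nd)))))))))))) (.rp 40 (.thr 16 31 .ext)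 (.rp 39 (.thr 31 16 .ext) (.rp 38 (.str 22 (.nv (.thr 23 20 (.thr 30 18 (.thr 31 16 (.thr 28 29 (.dbl 19 25 27))))) (.rp 31 (.str 3 (.nv (.thr 18 30 (.thr 23 20 (.thr 63 43 (.thr 48 33 (.thr 58 53 (.dbl 42 0 10)))))) (.nv (.thr 18 30 (.thr 41 60 (.thr 11 56 (.thr 15 7 (.dbl 48 33 37))))) (.nv (.thr 23 20 (.thr 41 60 (.thr 1 61 (.thr 63 43 (.dbl 0 2 42))))) .nd)))) (.rp 30 (.str 3 (.nv (.thr 16 31 (.thr 41 60 (.thr 11 56 (.thr 15 7 (.thr 48 37 (.thr 0 32 (.dbl 1 2 61))))))) (.nv (.thr 23 20 (.thr 31 16 (.thr 63 43 (.thr 15 47 (.thr 7 11 (.dbl 37 48 52)))))) (.nv (.thr 20 23 (.thr 60 41 (.thr 0 40 (.thr 42 63 (.dbl 2 1 62))))) .nd)))) (.rp 29 (.thr 20 23 (.thr 18 30 (.thr 16 31 (.thr 28 24 (.dbl 19 17 25))))) (.rp 28 (.str 3 (.nv (.thr 23 20 (.thr 18 30 (.thr 48 33 (.thr 63 43 (.thr 53 58 (.dbl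 37 5 15)))))) (.nv (.thr 18 30 (.thr 48 33 (.thr 15 37 (.thr 11 7 (.dbl 41 56 60))))) (.nv (.thr 20 23 (.thr 60 41 (.thr 0 40 (.thr 42 63 (.dbl 2 1 62))))) .nd)))) (.rp 27 (.thr 20 23 (.thr 18 30 (.thr 16 31 (.thr 19 17 (.dbl 28 24 25))))) (.rp 25 (.thr 16 31 (.thr 30 18 (.thr 23 20 (.str 3 (.nv (.thr 60 41 (.thr 15 45 (.thr 7 11 (.dbl 37 48 52)))) (.nv (.thr 63 43 (.thr 41 60 (.thr 1 61 (.dbl 0 2 42)))) (.rp 60 (.thr 63 43 (.thr 0 42 (.thr 48 32 (.thr 53 58 (.dbl 37 5 15))))) (.rp 51 (.str 12 (.nv (.thr 60 41 (.thr 15 45 (.thr 7 11 (.dbl 37 48 52)))) (.nv (.thr 63 43 (.thr 46 29 (.thr 62 14 (.dbl 42 0 2)))) .nd))) (.rp 41 (.thr 63 43 (.thr 42 0 (.thr 62 2 (.thr 60 61 (.thr 15 45 (.thr 7 11 (.dbl 37 48 52))))))) (.rp 12 (.str 51 (.nv (.thr 60 41 (.thr 15 45 (.thr 7 11 (.dbl 37 48 52)))) (.nv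 (.thr 35 19 (.thr 43 63 (.thr 39 47 (.thr 15 27 (.dbl 7 11 55))))) (.nv (.thr 41 60 (.thr 1 61 (.thr 63 43 (.dbl 0 2 42)))) .nd)))) .nd)))))))))) (.rp 23 (.str 3 (.nv (.thr 16 31 (.thr 41 60 (.thr 1 61 (.thr 0 2 (.thr 11 56 (.thr 15 7 (.dbl 48 32 37))))))) (.nv (.thr 16 31 (.thr 18 30 (.thr 48 33 (.thr 0 32 (.thr 2 1 (.dbl 42 62 63)))))) (.nv (.thr 18 30 (.thr 41 60 (.thr 11 56 (.thr 48 33 (.dbl 15 7 37))))) (.rp 48 (.thr 30 18 (.thr 31 16 (.thr 60 41 (.thr 15 45 (.thr 63 47 (.thr 62 61 (.dbl 42 0 2))))))) .nd))))) (.rp 20 (.str 3 (.nv (.thr 16 31 (.thr 18 30 (.thr 17 19 (.thr 48 33 (.thr 0 32 (.thr 34 51 (.dbl 2 1 50))))))) (.nv (.thr 18 30 (.thr 48 33 (.thr 37 15 (.thr 60 41 (.dbl 52 7 56))))) (.rp 48 (.thr 30 18 (.thr 31 16 (.thr 60 41 (.thr 15 45 (.thr 63 47 (.thr 62 61 (.dbl 42 0 2)))))))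 (.rp 33 (.thr 30 18 (.thr 60 41 (.thr 15 45 (.thr 37 48 (.dbl 7 11 52))))) (.rp 30 (.thr 16 31 (.thr 41 60 (.thr 1 61 (.thr 0 2 (.thr 48 32 (.thr 15 37 (.dbl 11 7 56))))))) (.rp 18 (.thr 16 31 (.thr 41 60 (.thr 1 61 (.thr 0 2 (.thr 48 32 (.thr 15 37 (.dbl 11 7 56))))))) .nd))))))) (.rp 19 (.str 3 (.nv (.thr 23 20 (.thr 18 30 (.thr 48 33 (.thr 63 43 (.thr 53 58 (.dbl 37 5 15)))))) (.nv (.thr 20 23 (.thr 60 41 (.thr 0 40 (.thr 2 1 (.dbl 42 62 63))))) (.nv (.thr 18 30 (.thr 41 60 (.thr 11 56 (.thr 48 33 (.dbl 15 7 37))))) .nd)))) (.rp 18 (.str 3 (.nv (.thr 16 31 (.thr 41 60 (.thr 11 56 (.thr 15 7 (.thr 48 37 (.thr 0 32 (.dbl 1 2 61))))))) (.nv (.thr 23 20 (.thr 31 16 (.thr 63 43 (.thr 15 47 (.thr 7 11 (.dbl 37 48 52)))))) (.nv (.thr 23 20 (.thr 41 60 (.thr 1 61 (.thr 63 43 (.dbl 0 2 42)))))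 .nd)))) (.rp 17 (.thr 23 20 (.thr 30 18 (.thr 31 16 (.thr 19 27 (.dbl 28 25 29))))) (.rp 16 (.str 3 (.nv (.thr 23 20 (.thr 18 30 (.thr 48 33 (.thr 63 43 (.thr 53 58 (.dbl 37 5 15)))))) (.nv (.thr 20 23 (.thr 60 41 (.thr 0 40 (.thr 2 1 (.dbl 42 62 63))))) (.nv (.thr 18 30 (.thr 41 60 (.thr 11 56 (.thr 48 33 (.dbl 15 7 37))))) .nd)))) .nd)))))))))))))) (.rp 37 (.thr 31 16 .ext) (.rp 36 (.thr 16 31 .ext) (.rp 35 (.thr 16 31 (.str 0 (.nv (.thr 42 63 (.thr 10 58 (.thr 15 5 (.dbl 48 32 37)))) (.nv (.thr 48 32 (.thr 15 37 (.thr 42 63 (.dbl 10 5 58)))) (.rp 63 (.str 20 (.nv (.thr 22 23 (.thr 30 18 (.thr 48 32 (.thr 15 37 (.dbl 60 40 45))))) (.nv (.thr 48 32 (.thr 60 40 (.thr 52 56 (.thr 36 4 (.dbl 24 12 28))))) (.nv (.thr 28 24 (.thr 22 23 (.thr 19 25 (.dbl 18 17 30)))) (.rp 47 (.str 15 (.nv (.thr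 22 23 (.thr 30 18 (.dbl 60 40 45))) (.nv (.dbl 48 32 37) (.rp 43 (.str 39 (.nv (.thr 23 22 (.thr 24 28 (.dbl 27 25 51))) (.nv (.dbl 48 32 37) (.rp 23 (.str 3 (.nv (.thr 27 51 (.dbl 24 25 28)) (.nv (.dbl 48 32 37) (.rp 27 (.str 19 (.nv (.thr 11 7 (.thr 1 2 (.dbl 41 56 61))) (.nv (.dbl 48 32 37) (.rp 11 (.str 59 (.nv (.thr 1 2 (.thr 41 61 (.dbl 60 22 40))) (.nv (.dbl 48 32 37) .nd))) .nd)))) .nd)))) .nd)))) (.rp 39 (.str 43 (.nv (.thr 10 5 (.thr 40 60 (.dbl 42 41 58))) (.nv (.dbl 48 32 37) .nd))) .nd))))) (.rp 15 (.str 47 (.nv (.thr 22 23 (.thr 48 32 (.thr 60 40 (.thr 3 41 (.dbl 18 30 33))))) (.nv (.thr 48 32 (.thr 60 40 (.thr 52 56 (.thr 36 4 (.dbl 24 12 28))))) (.nv (.thr 28 24 (.thr 22 23 (.thr 19 25 (.dbl 18 17 30)))) .nd)))) .nd)))))) (.rp 58 (.str 20 (.nv (.thr 22 23 (.thr 30 18 (.thr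 48 32 (.thr 15 37 (.dbl 60 40 45))))) (.nv (.thr 48 32 (.thr 60 40 (.thr 52 56 (.thr 36 4 (.dbl 24 12 28))))) (.nv (.thr 28 24 (.thr 22 23 (.thr 19 25 (.dbl 18 17 30)))) .nd)))) (.rp 48 (.str 20 (.nv (.thr 24 28 (.thr 40 60 (.thr 42 63 (.thr 56 8 (.dbl 41 11 43))))) (.nv (.thr 60 40 (.thr 63 42 (.thr 61 62 (.thr 41 1 (.dbl 22 3 23))))) (.nv (.thr 22 23 (.thr 18 30 (.thr 19 17 (.dbl 28 24 25)))) .nd)))) (.rp 42 (.str 20 (.nv (.thr 22 23 (.thr 30 18 (.thr 48 32 (.thr 60 40 (.dbl 15 37 45))))) (.nv (.thr 48 32 (.thr 60 40 (.thr 52 56 (.thr 36 4 (.dbl 24 12 28))))) (.nv (.thr 22 23 (.thr 18 30 (.thr 28 24 (.dbl 19 17 25)))) .nd)))) (.rp 37 (.str 20 (.nv (.thr 22 23 (.thr 42 63 (.thr 2 62 (.thr 3 1 (.dbl 60 40 41))))) (.nv (.thr 48 32 (.thr 60 40 (.thr 52 56 (.thr 36 4 (.dbl 24 12 28))))) (.nv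 (.thr 22 23 (.thr 18 30 (.thr 28 24 (.dbl 19 17 25)))) .nd)))) (.rp 32 (.str 34 (.nv (.thr 17 51 (.thr 19 18 (.thr 25 29 (.thr 24 27 (.dbl 28 20 22))))) (.nv (.thr 42 63 (.thr 10 58 (.thr 15 5 (.thr 38 46 (.thr 14 50 (.thr 12 13 (.dbl 4 8 55))))))) (.nv (.thr 17 51 (.thr 19 18 (.thr 25 29 (.thr 28 22 (.dbl 24 20 27))))) (.rp 29 (.thr 51 17 (.thr 42 63 (.thr 38 46 (.thr 12 25 (.dbl 4 8 55))))) .nd))))) (.rp 15 (.str 20 (.nv (.thr 24 28 (.thr 40 60 (.thr 8 56 (.thr 12 4 (.dbl 48 32 36))))) (.nv (.thr 63 42 (.thr 60 40 (.thr 61 62 (.thr 41 1 (.dbl 22 3 23))))) (.nv (.thr 28 24 (.thr 22 23 (.thr 19 25 (.dbl 18 17 30)))) (.rp 63 (.str 47 (.nv (.thr 22 23 (.thr 48 32 (.thr 60 40 (.thr 3 41 (.dbl 18 30 33))))) (.nv (.thr 48 32 (.thr 60 40 (.thr 52 56 (.thr 36 4 (.dbl 24 12 28))))) (.nv (.thr 28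 24 (.thr 22 23 (.thr 19 25 (.dbl 18 17 30)))) .nd)))) .nd))))) (.rp 10 (.thr 48 32 (.thr 37 15 (.thr 53 5 (.dbl 63 42 58)))) (.rp 5 (.str 4 (.nv (.thr 12 8 (.thr 38 55 (.thr 14 50 (.thr 15 13 (.dbl 48 32 37))))) (.nv (.thr 12 8 (.thr 38 55 (.thr 51 25 (.thr 34 17 (.dbl 42 46 63))))) (.rp 55 (.thr 12 8 (.thr 48 32 (.thr 24 36 (.thr 25 27 (.thr 17 29 (.dbl 51 34 38)))))) (.rp 38 (.thr 12 8 (.thr 48 32 (.thr 24 36 (.thr 25 27 (.thr 29 17 (.dbl 63 42 46)))))) (.rp 12 (.thr 38 55 (.thr 50 14 (.thr 48 32 (.thr 51 49 (.thr 34 17 (.dbl 42 46 63)))))) (.rp 8 (.thr 38 55 (.thr 50 14 (.thr 48 32 (.thr 51 49 (.thr 25 12 (.dbl 17 29 34)))))) .nd))))))) .nd))))))))))))) (.rp 34 (.thr 16 31 .ext) (.rp 33 (.thr 16 31 .ext) (.rp 32 (.thr 16 31 .ext) (.rp 31 .ext (.rp 30 (.thr 31 16 .ext) (.rp 29 (.thr 31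 16 .ext) (.rp 28 .ext (.rp 27 (.thr 31 16 .ext) (.rp 25 (.thr 16 31 .ext) (.rp 24 (.thr 16 31 .ext) (.rp 23 (.thr 31 16 .ext) (.rp 22 (.thr 16 31 .ext) (.rp 20 (.thr 16 31 .ext) (.rp 19 .ext (.rp 18 (.thr 16 31 .ext) (.rp 17 (.thr 16 31 .ext) (.rp 16 .ext (.rp 15 .ext (.rp 14 (.thr 31 16 .ext) (.rp 13 (.thr 31 16 (.str 15 (.nv (.thr 63 47 (.thr 0 42 (.thr 37 48 (.dbl 5 10 53)))) (.rp 63 (.str 27 (.nv (.thr 25 24 (.thr 48 37 (.thr 51 39 (.thr 38 12 (.dbl 50 14 49))))) (.nv (.thr 23 19 (.thr 37 48 (.thr 39 51 (.thr 55 7 (.dbl 38 4 36))))) (.nv (.thr 25 24 (.thr 29 17 (.thr 28 30 (.dbl 19 22 23)))) .nd)))) (.rp 53 (.str 27 (.nv (.thr 23 19 (.thr 37 48 (.thr 39 51 (.thr 7 55 (.dbl 22 20 52))))) (.nv (.thr 51 39 (.thr 63 47 (.thr 55 59 (.thr 38 4 (.dbl 25 12 24))))) (.nv (.thr 25 24 (.thr 29 17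 (.thr 19 23 (.dbl 28 22 30)))) .nd)))) (.rp 48 (.thr 63 47 (.thr 0 42 (.thr 5 10 (.thr 37 53 (.str 38 (.nv (.thr 14 50 (.thr 39 36 (.thr 51 27 (.dbl 55 4 59)))) (.nv (.thr 39 36 (.thr 51 27 (.thr 17 34 (.dbl 25 12 29)))) (.nv (.thr 4 55 (.thr 12 8 (.thr 25 51 (.dbl 29 17 46)))) (.nv (.thr 55 4 (.thr 51 59 (.dbl 39 27 36))) (.rp 51 (.thr 4 55 (.thr 36 39 (.thr 12 8 (.thr 29 46 (.thr 30 28 (.thr 22 18 (.dbl 20 23 52))))))) (.rp 14 (.str 2 (.nv (.thr 3 1 (.thr 11 7 (.thr 41 56 (.thr 45 33 (.dbl 60 22 30))))) (.nv (.thr 55 4 (.thr 51 59 (.dbl 39 27 36))) .nd))) .nd))))))))))) (.rp 47 (.str 27 (.nv (.thr 25 24 (.thr 48 37 (.thr 51 39 (.thr 38 12 (.dbl 50 14 49))))) (.nv (.thr 23 19 (.thr 37 48 (.thr 39 51 (.thr 55 7 (.dbl 38 4 36))))) (.nv (.thr 25 24 (.thr 29 17 (.thr 19 23 (.dbl 28 22 30))))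 .nd)))) (.rp 42 (.str 27 (.nv (.thr 23 19 (.thr 37 48 (.thr 39 51 (.thr 7 55 (.dbl 22 20 52))))) (.nv (.thr 51 39 (.thr 63 47 (.thr 55 59 (.thr 38 4 (.dbl 25 12 24))))) (.nv (.thr 25 24 (.thr 29 17 (.thr 19 23 (.dbl 28 22 30)))) .nd)))) (.rp 37 (.str 25 (.nv (.thr 63 47 (.thr 42 0 (.thr 59 8 (.thr 51 55 (.dbl 27 24 39))))) (.nv (.thr 27 24 (.thr 29 17 (.thr 19 23 (.dbl 28 22 30)))) (.rp 27 (.thr 29 17 (.thr 30 28 (.thr 63 47 (.thr 46 12 (.thr 62 14 (.dbl 60 45 61)))))) (.rp 24 (.thr 29 17 (.thr 63 47 (.thr 42 0 (.thr 59 8 (.thr 51 55 (.dbl 12 38 46)))))) .nd))))) (.rp 10 (.thr 63 47 (.thr 0 42 (.thr 37 48 (.str 38 (.nv (.thr 14 50 (.thr 55 4 (.thr 51 59 (.dbl 39 27 36)))) (.nv (.thr 39 36 (.thr 51 27 (.thr 17 34 (.dbl 25 12 29)))) (.nv (.thr 4 55 (.thr 12 8 (.thr 25 51 (.dbl 29 17 46))))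 (.nv (.thr 39 36 (.thr 51 27 (.dbl 55 4 59))) (.rp 51 (.thr 53 5 (.thr 39 36 (.thr 55 4 (.thr 7 23 (.dbl 52 22 54))))) (.rp 14 (.str 2 (.nv (.thr 3 1 (.thr 7 11 (.thr 22 52 (.dbl 23 20 43)))) (.nv (.thr 39 36 (.thr 51 27 (.dbl 55 4 59))) .nd))) .nd)))))))))) (.rp 5 (.thr 63 47 (.thr 42 0 (.thr 58 10 (.dbl 48 37 53)))) (.rp 0 (.str 27 (.nv (.thr 48 37 (.thr 25 24 (.thr 51 39 (.thr 38 12 (.dbl 50 14 49))))) (.nv (.thr 51 39 (.thr 63 47 (.thr 59 55 (.thr 43 11 (.dbl 23 3 19))))) (.nv (.thr 19 23 (.thr 25 24 (.thr 28 22 (.dbl 29 17 30)))) (.rp 48 (.str 32 (.nv (.thr 25 24 (.thr 51 39 (.thr 12 38 (.thr 63 47 (.dbl 29 17 46))))) (.nv (.thr 51 39 (.thr 63 47 (.thr 59 55 (.thr 43 11 (.dbl 23 3 19))))) (.nv (.thr 19 23 (.thr 25 24 (.thr 28 22 (.dbl 29 17 30)))) .nd)))) .nd))))) .nd)))))))))))) (.rp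 12 .ext (.rp 11 (.thr 16 31 (.str 0 (.nv (.thr 48 32 (.thr 15 37 (.thr 42 63 (.dbl 10 5 58)))) (.rp 63 (.thr 48 32 (.thr 15 37 (.thr 10 5 (.str 4 (.nv (.thr 12 8 (.thr 14 13 (.dbl 38 50 55))) (.nv (.thr 42 58 (.thr 38 55 (.thr 50 14 (.thr 51 49 (.dbl 34 17 46))))) (.nv (.thr 12 8 (.thr 24 36 (.thr 25 27 (.thr 17 29 (.dbl 51 34 38))))) (.nv (.thr 12 8 (.thr 38 55 (.dbl 14 13 50))) (.rp 42 (.str 47 (.nv (.thr 12 8 (.thr 24 36 (.thr 25 27 (.thr 17 29 (.dbl 51 34 38))))) (.nv (.thr 38 55 (.thr 14 50 (.dbl 12 8 13))) (.rp 59 (.str 27 (.nv (.thr 51 39 (.thr 17 34 (.thr 18 19 (.thr 49 50 (.dbl 33 1 3))))) (.nv (.thr 25 24 (.thr 38 55 (.dbl 51 12 39))) (.rp 51 (.thr 55 38 (.thr 12 8 (.thr 25 24 (.thr 13 14 (.thr 29 17 (.thr 45 61 (.thr 60 30 (.dbl 44 28 46)))))))) (.rp 39 (.thr 12 8 (.thr 25 24 (.dbl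 38 51 55))) (.rp 38 (.thr 25 24 (.thr 17 29 (.dbl 51 34 39))) (.rp 25 (.thr 8 12 (.thr 51 39 (.thr 38 55 (.dbl 50 14 49)))) .nd))))))) (.rp 51 (.thr 12 8 (.thr 14 13 (.dbl 38 50 55))) (.rp 38 (.thr 12 8 (.thr 36 24 (.thr 20 52 (.thr 22 23 (.thr 30 18 (.dbl 60 40 45)))))) (.rp 12 (.thr 38 55 (.thr 50 14 (.thr 51 49 (.thr 27 39 (.thr 17 34 (.dbl 25 24 29)))))) (.rp 8 (.thr 38 55 (.thr 50 14 (.thr 51 49 (.thr 27 39 (.dbl 25 12 24))))) .nd)))))))) (.rp 38 (.thr 12 8 (.thr 36 24 (.thr 20 52 (.thr 22 23 (.thr 30 18 (.dbl 60 40 45)))))) .nd)))))))))) (.rp 58 (.str 17 (.nv (.thr 25 29 (.thr 27 24 (.thr 48 32 (.thr 15 37 (.dbl 51 34 39))))) (.nv (.thr 48 32 (.thr 51 34 (.thr 49 50 (.thr 33 1 (.dbl 18 3 19))))) (.nv (.thr 19 18 (.thr 25 29 (.thr 28 22 (.dbl 24 20 27)))) .nd)))) (.rp 48 (.str 17 (.nv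 (.thr 25 29 (.thr 42 63 (.thr 51 34 (.thr 12 38 (.dbl 8 4 59))))) (.nv (.thr 18 19 (.thr 34 51 (.thr 42 63 (.thr 50 2 (.dbl 38 14 46))))) (.nv (.thr 25 29 (.thr 24 27 (.thr 28 20 (.dbl 19 18 22)))) (.rp 59 (.thr 25 29 (.thr 19 18 (.thr 28 22 (.dbl 24 20 27)))) .nd))))) (.rp 42 (.str 17 (.nv (.thr 25 29 (.thr 27 24 (.thr 48 32 (.thr 51 34 (.dbl 15 37 39))))) (.nv (.thr 48 32 (.thr 51 34 (.thr 49 50 (.thr 33 1 (.dbl 18 3 19))))) (.nv (.thr 25 29 (.thr 24 27 (.thr 19 18 (.dbl 28 20 22)))) .nd)))) (.rp 37 (.str 17 (.nv (.thr 25 29 (.thr 42 63 (.thr 8 59 (.thr 12 4 (.dbl 51 34 38))))) (.nv (.thr 48 32 (.thr 51 34 (.thr 49 50 (.thr 33 1 (.dbl 18 3 19))))) (.nv (.thr 25 29 (.thr 24 27 (.thr 19 18 (.dbl 28 20 22)))) .nd)))) (.rp 32 (.str 17 (.nv (.thr 25 29 (.thr 42 63 (.thr 51 34 (.thr 12 38 (.dbl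 8 4 59))))) (.nv (.thr 18 19 (.thr 34 51 (.thr 42 63 (.thr 50 2 (.dbl 38 14 46))))) (.nv (.thr 19 18 (.thr 25 29 (.thr 28 22 (.dbl 24 20 27)))) (.rp 38 (.thr 25 29 (.thr 19 18 (.thr 24 27 (.dbl 28 20 22)))) .nd))))) (.rp 15 (.str 3 (.nv (.thr 48 32 (.thr 18 33 (.thr 22 30 (.thr 20 23 (.dbl 60 40 41))))) (.nv (.thr 63 42 (.thr 1 2 (.thr 23 43 (.thr 22 20 (.dbl 41 60 61))))) (.nv (.thr 2 1 (.thr 48 32 (.thr 18 33 (.thr 34 50 (.dbl 17 19 51))))) (.rp 63 (.str 47 (.nv (.thr 48 32 (.thr 18 33 (.thr 22 30 (.thr 20 23 (.dbl 60 40 41))))) (.nv (.thr 1 2 (.thr 32 48 (.thr 41 61 (.thr 42 37 (.thr 40 43 (.dbl 60 20 22)))))) (.nv (.thr 2 1 (.thr 48 32 (.thr 18 33 (.thr 34 50 (.dbl 17 19 51))))) (.rp 48 (.thr 1 2 (.thr 41 61 (.thr 60 22 (.thr 40 20 (.thr 42 43 (.thr 32 37 (.thr 44 36 (.thr 46 45 (.dbl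 38 34 35))))))))) (.rp 32 (.thr 1 2 (.thr 41 61 (.thr 60 22 (.thr 20 40 (.thr 24 28 (.thr 25 27 (.thr 9 57 (.thr 13 5 (.thr 49 37 (.dbl 17 29 33)))))))))) .nd)))))) .nd))))) (.rp 10 (.thr 48 32 (.thr 37 15 (.thr 53 5 (.dbl 63 42 58)))) (.rp 5 (.str 4 (.nv (.thr 38 55 (.thr 42 63 (.thr 34 46 (.thr 51 17 (.dbl 12 8 25))))) (.nv (.thr 12 8 (.thr 38 55 (.thr 14 50 (.thr 48 32 (.dbl 15 13 37))))) (.rp 55 (.thr 12 8 (.thr 48 32 (.thr 24 36 (.thr 25 27 (.thr 17 29 (.dbl 51 34 38)))))) (.rp 38 (.thr 12 8 (.thr 48 32 (.thr 24 36 (.thr 25 27 (.thr 29 17 (.dbl 63 42 46)))))) (.rp 15 (.thr 12 8 (.thr 38 55 (.thr 25 51 (.thr 29 17 (.dbl 63 42 46))))) (.rp 12 (.thr 38 55 (.thr 50 14 (.thr 48 32 (.thr 51 49 (.thr 34 17 (.dbl 42 46 63)))))) (.rp 8 (.thr 38 55 (.thr 50 14 (.thr 48 32 (.thr 51 49 (.thr 25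 12 (.dbl 17 29 34)))))) .nd)))))))) .nd)))))))))))) (.rp 10 (.thr 31 16 .ext) (.rp 9 (.thr 31 16 .ext) (.rp 8 (.thr 16 31 (.str 0 (.nv (.thr 48 32 (.thr 15 37 (.thr 42 63 (.dbl 10 5 58)))) (.rp 63 (.thr 48 32 (.thr 15 37 (.thr 10 5 (.thr 42 58 (.str 38 (.nv (.thr 4 55 (.thr 34 46 (.thr 50 14 (.dbl 51 17 49)))) (.nv (.thr 34 46 (.thr 51 17 (.thr 27 39 (.dbl 25 12 24)))) (.nv (.thr 14 50 (.thr 12 13 (.thr 25 51 (.dbl 24 27 36)))) (.nv (.thr 50 14 (.thr 51 49 (.dbl 34 17 46))) (.rp 51 (.thr 14 50 (.thr 46 34 (.thr 12 13 (.thr 24 36 (.thr 20 28 (.thr 22 23 (.dbl 30 18 62))))))) (.rp 4 (.str 7 (.nv (.thr 3 11 (.thr 1 2 (.thr 41 61 (.thr 40 43 (.dbl 60 20 22))))) (.nv (.thr 50 14 (.thr 51 49 (.dbl 34 17 46))) .nd))) .nd))))))))))) (.rp 58 (.str 17 (.nv (.thr 25 29 (.thr 27 24 (.thr 48 32 (.thr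 15 37 (.dbl 51 34 39))))) (.nv (.thr 48 32 (.thr 51 34 (.thr 49 50 (.thr 33 1 (.dbl 18 3 19))))) (.nv (.thr 25 29 (.thr 24 27 (.thr 19 18 (.dbl 28 20 22)))) .nd)))) (.rp 48 (.str 17 (.nv (.thr 25 29 (.thr 51 34 (.thr 38 12 (.thr 55 4 (.dbl 63 42 59))))) (.nv (.thr 18 19 (.thr 34 51 (.thr 42 63 (.thr 50 2 (.dbl 38 14 46))))) (.nv (.thr 25 29 (.thr 24 27 (.thr 28 20 (.dbl 19 18 22)))) .nd)))) (.rp 42 (.str 25 (.nv (.thr 48 32 (.thr 37 15 (.thr 49 13 (.thr 51 50 (.dbl 17 29 34))))) (.nv (.thr 17 29 (.thr 24 27 (.thr 19 18 (.dbl 28 20 22)))) (.rp 29 (.thr 24 27 (.thr 48 32 (.thr 37 15 (.thr 49 13 (.thr 51 50 (.dbl 12 36 38)))))) (.rp 17 (.thr 24 27 (.thr 20 28 (.thr 48 32 (.thr 36 12 (.thr 52 4 (.dbl 60 40 56)))))) .nd))))) (.rp 37 (.str 17 (.nv (.thr 25 29 (.thr 48 32 (.thr 51 34 (.thr 12 38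 (.dbl 24 27 36))))) (.nv (.thr 48 32 (.thr 51 34 (.thr 49 50 (.thr 33 1 (.dbl 18 3 19))))) (.nv (.thr 25 29 (.thr 24 27 (.thr 19 18 (.dbl 28 20 22)))) .nd)))) (.rp 32 (.str 17 (.nv (.thr 25 29 (.thr 51 34 (.thr 38 12 (.thr 55 4 (.dbl 63 42 59))))) (.nv (.thr 18 19 (.thr 34 51 (.thr 42 63 (.thr 50 2 (.dbl 38 14 46))))) (.nv (.thr 25 29 (.thr 24 27 (.thr 19 18 (.dbl 28 20 22)))) .nd)))) (.rp 15 (.str 17 (.nv (.thr 63 42 (.thr 25 29 (.thr 51 34 (.thr 38 12 (.dbl 55 4 59))))) (.nv (.thr 48 32 (.thr 51 34 (.thr 49 50 (.thr 33 1 (.dbl 18 3 19))))) (.nv (.thr 19 18 (.thr 25 29 (.thr 28 22 (.dbl 24 20 27)))) (.rp 63 (.str 47 (.nv (.thr 25 29 (.thr 48 32 (.thr 51 34 (.thr 12 38 (.dbl 24 27 36))))) (.nv (.thr 48 32 (.thr 51 34 (.thr 49 50 (.thr 33 1 (.dbl 18 3 19))))) (.nv (.thr 19 18 (.thr 25 29 (.thr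 28 22 (.dbl 24 20 27)))) .nd)))) .nd))))) (.rp 10 (.thr 48 32 (.thr 37 15 (.thr 53 5 (.dbl 63 42 58)))) (.rp 5 (.thr 48 32 (.thr 15 37 (.thr 42 63 (.str 38 (.nv (.thr 4 55 (.thr 50 14 (.thr 51 49 (.dbl 34 17 46)))) (.nv (.thr 34 46 (.thr 51 17 (.thr 27 39 (.dbl 25 12 24)))) (.nv (.thr 14 50 (.thr 12 13 (.thr 25 51 (.dbl 24 27 36)))) (.nv (.thr 34 46 (.thr 51 17 (.dbl 50 14 49))) (.rp 51 (.thr 58 10 (.thr 34 46 (.thr 50 14 (.thr 2 18 (.dbl 62 22 54))))) (.rp 4 (.str 7 (.nv (.thr 3 11 (.thr 2 1 (.thr 22 62 (.dbl 18 30 33)))) (.nv (.thr 34 46 (.thr 51 17 (.dbl 50 14 49))) .nd))) .nd)))))))))) .nd)))))))))))) (.rp 7 (.thr 16 31 .ext) (.rp 5 (.thr 16 31 .ext) (.rp 4 (.thr 16 31 .ext) (.rp 3 (.thr 16 31 .ext) (.rp 2 (.thr 31 16 .ext) (.rp 1 (.thr 31 16 (.str 15 (.nv (.thr 63 47 (.thr 0 42 (.thr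 37 48 (.dbl 5 10 53)))) (.rp 63 (.str 27 (.nv (.thr 25 24 (.thr 37 48 (.thr 51 39 (.thr 12 38 (.dbl 13 14 49))))) (.nv (.thr 23 19 (.thr 37 48 (.thr 39 51 (.thr 55 7 (.dbl 38 4 36))))) (.nv (.thr 25 24 (.thr 29 17 (.thr 28 30 (.dbl 19 22 23)))) (.rp 49 (.thr 25 24 (.thr 19 23 (.thr 28 22 (.dbl 29 17 30)))) .nd))))) (.rp 53 (.str 27 (.nv (.thr 23 19 (.thr 37 48 (.thr 39 51 (.thr 7 55 (.dbl 22 20 52))))) (.nv (.thr 51 39 (.thr 63 47 (.thr 55 59 (.thr 38 4 (.dbl 25 12 24))))) (.nv (.thr 19 23 (.thr 25 24 (.thr 28 22 (.dbl 29 17 30)))) .nd)))) (.rp 48 (.thr 63 47 (.thr 0 42 (.thr 5 10 (.str 14 (.nv (.thr 12 13 (.thr 4 8 (.dbl 38 50 55))) (.nv (.thr 37 53 (.thr 38 50 (.thr 55 4 (.thr 51 59 (.dbl 39 27 36))))) (.nv (.thr 12 13 (.thr 29 46 (.thr 25 17 (.thr 27 24 (.dbl 51 38 39))))) (.nv (.thr 12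 13 (.thr 38 50 (.dbl 4 8 55))) (.rp 38 (.thr 12 13 (.thr 46 29 (.thr 30 62 (.thr 22 18 (.thr 20 23 (.dbl 60 40 45)))))) (.rp 37 (.str 32 (.nv (.thr 12 13 (.thr 29 46 (.thr 25 17 (.thr 27 24 (.dbl 51 38 39))))) (.nv (.thr 38 50 (.thr 4 55 (.dbl 12 8 13))) (.rp 51 (.thr 12 13 (.thr 4 8 (.dbl 38 50 55))) (.rp 49 (.str 17 (.nv (.thr 38 50 (.thr 51 34 (.dbl 55 4 59))) (.nv (.thr 25 29 (.thr 38 50 (.dbl 51 12 34))) (.rp 51 (.thr 50 38 (.thr 12 13 (.thr 25 29 (.thr 8 4 (.thr 24 27 (.thr 40 56 (.thr 60 20 (.dbl 44 28 36)))))))) (.rp 50 (.thr 51 34 (.thr 12 13 (.dbl 25 29 38))) (.rp 38 (.thr 25 29 (.thr 27 24 (.dbl 51 34 39))) (.rp 34 (.thr 12 13 (.thr 25 29 (.dbl 38 50 51))) (.rp 25 (.thr 13 12 (.thr 51 34 (.thr 38 50 (.dbl 55 4 59)))) .nd)))))))) (.rp 38 (.thr 12 13 (.thr 46 29 (.thr 30 62 (.thr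 22 18 (.thr 20 23 (.dbl 60 40 45)))))) (.rp 13 (.thr 38 50 (.thr 55 4 (.thr 51 59 (.thr 17 34 (.dbl 25 12 29))))) (.rp 12 (.thr 38 50 (.thr 55 4 (.thr 51 59 (.thr 17 34 (.thr 27 39 (.dbl 25 24 29)))))) .nd)))))))) .nd)))))))))) (.rp 47 (.str 27 (.nv (.thr 25 24 (.thr 37 48 (.thr 51 39 (.thr 12 38 (.dbl 13 14 49))))) (.nv (.thr 23 19 (.thr 37 48 (.thr 39 51 (.thr 55 7 (.dbl 38 4 36))))) (.nv (.thr 19 23 (.thr 25 24 (.thr 28 22 (.dbl 29 17 30)))) (.rp 38 (.thr 25 24 (.thr 19 23 (.thr 29 17 (.dbl 28 22 30)))) .nd))))) (.rp 42 (.str 27 (.nv (.thr 23 19 (.thr 37 48 (.thr 39 51 (.thr 7 55 (.dbl 22 20 52))))) (.nv (.thr 51 39 (.thr 63 47 (.thr 55 59 (.thr 38 4 (.dbl 25 12 24))))) (.nv (.thr 25 24 (.thr 29 17 (.thr 19 23 (.dbl 28 22 30)))) .nd)))) (.rp 37 (.str 27 (.nv (.thr 23 19 (.thr 39 51 (.thr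 7 55 (.thr 3 11 (.dbl 63 43 47))))) (.nv (.thr 51 39 (.thr 63 47 (.thr 55 59 (.thr 38 4 (.dbl 25 12 24))))) (.nv (.thr 25 24 (.thr 29 17 (.thr 19 23 (.dbl 28 22 30)))) .nd)))) (.rp 10 (.str 14 (.nv (.thr 37 48 (.thr 38 50 (.thr 39 36 (.thr 51 27 (.dbl 12 13 25))))) (.nv (.thr 12 13 (.thr 38 50 (.thr 4 55 (.thr 63 47 (.dbl 0 8 42))))) (.rp 50 (.thr 12 13 (.thr 63 47 (.thr 29 46 (.thr 25 17 (.thr 27 24 (.dbl 51 38 39)))))) (.rp 38 (.thr 12 13 (.thr 63 47 (.thr 29 46 (.thr 25 17 (.thr 24 27 (.dbl 48 36 37)))))) (.rp 13 (.thr 38 50 (.thr 55 4 (.thr 63 47 (.thr 51 59 (.thr 25 12 (.dbl 27 24 39)))))) (.rp 12 (.thr 38 50 (.thr 55 4 (.thr 63 47 (.thr 51 59 (.thr 39 27 (.dbl 37 36 48)))))) (.rp 0 (.thr 12 13 (.thr 38 50 (.thr 25 51 (.thr 24 27 (.dbl 48 36 37))))) .nd)))))))) (.rp 5 (.thr 63 47 (.thr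 42 0 (.thr 58 10 (.dbl 48 37 53)))) (.rp 0 (.str 3 (.nv (.thr 48 37 (.thr 18 33 (.thr 22 30 (.thr 23 20 (.dbl 63 43 47))))) (.nv (.thr 48 37 (.thr 11 7 (.thr 18 33 (.thr 22 30 (.dbl 41 56 60))))) (.nv (.thr 7 11 (.thr 63 47 (.thr 23 43 (.thr 39 55 (.dbl 27 19 51))))) (.rp 48 (.str 32 (.nv (.thr 63 47 (.thr 23 43 (.thr 22 20 (.thr 30 18 (.dbl 60 41 45))))) (.nv (.thr 11 7 (.thr 41 56 (.thr 47 63 (.thr 37 42 (.thr 45 33 (.dbl 60 22 30)))))) (.nv (.thr 7 11 (.thr 63 47 (.thr 23 43 (.thr 39 55 (.dbl 27 19 51))))) (.rp 63 (.thr 11 7 (.thr 41 56 (.thr 60 22 (.thr 45 30 (.thr 37 33 (.thr 47 42 (.thr 44 46 (.thr 36 40 (.dbl 38 35 39))))))))) (.rp 47 (.thr 11 7 (.thr 41 56 (.thr 60 22 (.thr 30 45 (.thr 29 28 (.thr 25 17 (.thr 9 57 (.thr 8 10 (.thr 59 42 (.dbl 27 24 43)))))))))) .nd)))))) .nd)))))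 .nd)))))))))))) (.rp 0 .ext .nd)))))))))))))))))))))))))))))))))))))))))))))))))))))))))))))

theorem f3 : FR (cellsN 64) (Won lines) (bs 69206016) (bs 64) :=
  chunkR_sound bok full_eq (K := [(69206016, 65), (69206016, 4160), (69206016, 32832), (69206016, 65600), (69206016, 524352), (69206016, 268435520), (69206016, 2147483712), (69206016, 281474976710720), (69206016, 9223372036854775872), (69271552, 2147483720), (69271552, 2147483728), (69271552, 2147483744), (69271552, 2147483840), (69271552, 2147614784), (69271552, 2147745856), (69271552, 2148532288), (69271552, 2151678016), (69271552, 2164260928), (69271552, 2181038144), (69271552, 6442451008), (69271552, 10737418304), (69271552, 19327352896), (69271552, 70866960448), (69271552, 1101659111488), (69271552, 4400193994816), (2216689664,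 65604), (2216689664, 66112), (2216689664, 66624), (2216689664, 81984), (2216689664, 8454208), (2216689664, 134283328), (2216689664, 536936512), (2216689664, 1073807424), (2216689664, 137439019072), (2216689664, 549755879488), (2216689664, 8796093087808), (2216689664, 35184372154432), (2216689664, 70368744243264), (2216689664, 140737488420928), (2216689664, 2251799813750848), (2216689664, 144115188075921472), (2216689664, 1152921504606912576)]) (kc w209 (kc w217 (kc w220 (kc w221 (kc w224 (kc w231 (kc w234 (kc w247 (kc w251 (kc w211 (kc w212 (kc w213 (kc w214 (kc w222 (kc w223 (kc w225 (kc w226 (kc w228 (kc w229 (kc w235 (kc w236 (kc w237 (kc w238 (kc w241 (kc w242 (kc w210 (kc w215 (kc w216 (kc w219 (kc w227 (kc w230 (kc w232 (kc w233 (kc w239 (kc w240 (kc w243 (kc w244 (kc w245 (kc w246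 (kc w248 (kc w249 (kc w250 kn)))))))))))))))))))))))))))))))))))))))))) r3 69206016 64 [] (by decide +kernel) (by decide +kernel)

end Pool.Agent.TTT.B43
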