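import Pool.Agent.TTT.Q11

/-!
Certified forced wins in positions of the 4 x 4 x 4 board.
-/

set_option autoImplicit false
set_option maxRecDepth 1000000
set_option linter.all false

namespace Pool.Agent.TTT.B43

/-- A certificate. -/
noncomputable def c257 : Ct := (.str 37 (.rp 63 (.str 41 (.nv (.thr 32 47 (.thr 33 45 (.thr 40 43 (.thr 44 36 (.dbl 35 34 38))))) (.nv (.thr 5 53 (.thr 1 61 (.thr 13 9 (.thr 33 45 (.dbl 49 17 25))))) (.rp 45 (.thr 40 43 (.thr 32 47 (.thr 44 36 (.thr 35 38 (.thr 33 34 (.thr 1 61 (.thr 5 53 (.thr 13 9 (.dbl 49 17 25))))))))) (.rp 33 (.thr 43 40 (.thr 47 32 (.thr 35 39 (.thr 44 38 (.thr 45 46 (.thr 61 1 (.thr 53 5 (.thr 49 57 (.dbl 13 25 29))))))))) .nd))))) (.rp 62 (.str 41 (.nv (.thr 33 45 (.thr 5 53 (.thr 1 61 (.thr 13 9 (.dbl 49 17 25))))) (.nv (.thr 32 47 (.thr 40 43 (.thr 33 45 (.thr 44 36 (.dbl 35 34 38))))) (.rp 45 (.thr 5 53 (.thr 1 61 (.thr 13 9 (.thr 49 25 (.thr 33 17 (.thr 32 47 (.thr 40 43 (.thr 44 36 (.dbl 35 34 38))))))))) (.rp 33 (.thr 53 5 (.thr 61 1 (.thr 49 57 (.thr 13 25 (.thr 45 29 (.thr 47 32 (.thr 43 40 (.thr 35 39 (.dbl 44 38 46))))))))) .nd))))) (.rp 61 (.thr 47 32 (.str 15 (.nv (.thr 48 26 (.thr 53 5 (.dbl 63 31 58))) (.nv (.thr 31 63 (.dbl 26 16 48)) (.rp 63 (.thr 26 48 (.thr 16 31 (.str 62 (.nv (.thr 22 2 (.thr 18 30 (.thr 20 23 (.thr 28 24 (.dbl 19 17 25))))) (.nv (.thr 58 10 (.thr 50 54 (.thr 38 14 (.thr 2 22 (.dbl 34 18 46))))) (.rp 58 (.thr 53 5 (.thr 22 2 (.thr 30 18 (.thr 45 60 (.dbl 46 14 44))))) (.rp 22 (.thr 58 10 (.thr 50 54 (.thr 38 14 (.thr 39 36 (.thr 35 43 (.thr 44 41 (.dbl 46 34 45))))))) (.rp 18 (.thr 58 10 (.thr 50 54 (.thr 38 14 (.thr 39 36 (.thr 35 43 (.thr 44 41 (.dbl 46 34 45))))))) (.rp 2 (.thr 58 10 (.thr 50 54 (.thr 14 38 (.thr 30 46 (.thr 22 18 (.thr 20 23 (.thr 28 24 (.thr 60 45 (.dbl 12 13 44))))))))) .nd))))))))) (.rp 48 (.str 16 (.nv (.dbl 31 26 63) (.rp 63 (.thr 26 31 (.str 62 (.nv (.thr 22 2 (.thr 18 30 (.thr 20 23 (.thr 28 24 (.dbl 19 17 25))))) (.nv (.thr 58 10 (.thr 50 54 (.thr 38 14 (.thr 2 22 (.dbl 34 18 46))))) (.rp 58 (.thr 53 5 (.thr 22 2 (.thr 30 18 (.thr 45 60 (.dbl 46 14 44))))) (.rp 22 (.thr 58 10 (.thr 50 54 (.thr 38 14 (.thr 39 36 (.thr 35 43 (.thr 44 41 (.dbl 46 34 45))))))) (.rp 18 (.thr 58 10 (.thr 50 54 (.thr 38 14 (.thr 39 36 (.thr 35 43 (.thr 44 41 (.dbl 46 34 45))))))) (.rp 2 (.thr 58 10 (.thr 50 54 (.thr 14 38 (.thr 30 46 (.thr 22 18 (.thr 20 23 (.thr 28 24 (.thr 60 45 (.dbl 12 13 44))))))))) .nd)))))))) (.rp 31 (.str 38 (.nv (.thr 46 34 (.thr 44 45 (.thr 35 41 (.dbl 39 36 43)))) (.nv (.thr 39 36 (.thr 51 27 (.thr 55 4 (.thr 59 63 (.dbl 25 8 12))))) (.nv (.thr 39 36 (.thr 35 43 (.thr 44 41 (.dbl 46 34 45)))) (.rp 44 (.str 12 (.nv (.thr 13 14 (.dbl 25 49 51)) (.nv (.thr 51 25 (.dbl 39 27 36)) (.rp 51 (.thr 14 13 (.thr 34 46 (.thr 50 26 (.thr 2 18 (.thr 6 10 (.dbl 22 54 62)))))) (.rp 40 (.thr 36 39 (.thr 13 14 (.dbl 25 49 51))) (.rp 36 (.str 40 (.nv (.thr 43 41 (.thr 39 35 (.dbl 51 25 27))) (.nv (.thr 13 14 (.dbl 25 49 51)) (.rp 51 (.thr 14 13 (.thr 41 43 (.thr 45 33 (.thr 30 60 (.dbl 46 34 62))))) (.rp 25 (.thr 14 13 (.thr 46 34 (.thr 41 43 (.thr 30 62 (.dbl 45 33 60))))) .nd))))) (.rp 25 (.thr 46 34 (.thr 63 29 (.thr 55 4 (.thr 51 59 (.dbl 39 27 36))))) .nd))))))) (.rp 39 (.thr 46 34 (.thr 45 44 (.thr 33 41 (.thr 30 60 (.thr 62 14 (.thr 22 2 (.thr 18 26 (.thr 17 19 (.thr 25 29 (.dbl 49 1 13)))))))))) (.rp 36 (.thr 46 34 (.thr 44 45 (.thr 35 41 (.thr 39 43 (.thr 55 4 (.thr 51 27 (.thr 12 25 (.dbl 63 29 59)))))))) .nd))))))) (.rp 26 (.str 46 (.nv (.thr 44 45 (.thr 38 34 (.thr 35 41 (.dbl 39 36 43)))) (.nv (.thr 38 34 (.thr 55 4 (.thr 63 31 (.thr 51 59 (.dbl 12 25 29))))) (.nv (.thr 45 44 (.thr 63 31 (.thr 12 29 (.thr 14 13 (.dbl 30 60 62))))) (.rp 29 (.thr 38 34 (.thr 39 36 (.thr 35 43 (.dbl 44 41 45)))) .nd))))) .nd))))) (.rp 31 (.thr 5 53 (.thr 48 26 (.str 49 (.nv (.thr 25 13 (.thr 29 17 (.thr 51 50 (.thr 59 8 (.thr 55 63 (.dbl 38 4 12)))))) (.nv (.thr 51 50 (.thr 39 27 (.thr 35 43 (.thr 38 36 (.thr 44 41 (.dbl 46 34 45)))))) (.nv (.thr 25 13 (.thr 51 50 (.thr 38 12 (.dbl 39 27 36)))) (.rp 51 (.thr 13 25 (.thr 9 1 (.thr 12 14 (.thr 3 6 (.thr 33 18 (.thr 45 41 (.thr 44 46 (.dbl 60 28 30)))))))) (.rp 50 (.thr 13 25 (.thr 1 9 (.thr 33 17 (.thr 41 45 (.thr 43 40 (.thr 3 18 (.thr 23 63 (.dbl 22 20 60)))))))) (.rp 38 (.thr 13 25 (.thr 1 9 (.thr 33 17 (.thr 41 45 (.thr 43 40 (.thr 39 35 (.dbl 51 27 50))))))) (.rp 25 (.str 24 (.nv (.thr 51 50 (.thr 39 27 (.dbl 36 12 38))) (.nv (.thr 36 12 (.thr 51 50 (.dbl 39 27 38))) (.rp 51 (.thr 12 36 (.thr 13 14 (.thr 9 1 (.thr 3 6 (.thr 33 18 (.thr 45 41 (.thr 44 46 (.dbl 60 28 30)))))))) (.rp 50 (.thr 36 12 (.thr 38 39 (.thr 46 34 (.thr 45 44 (.thr 60 30 (.thr 52 56 (.dbl 4 20 55))))))) (.rp 39 (.thr 12 36 (.thr 13 14 (.thr 9 1 (.thr 3 6 (.thr 33 18 (.thr 45 41 (.thr 44 46 (.dbl 60 28 30)))))))) (.rp 38 (.thr 12 36 (.thr 50 51 (.thr 13 14 (.thr 9 1 (.thr 3 6 (.thr 33 18 (.thr 45 41 (.thr 44 46 (.dbl 60 28 30))))))))) (.rp 36 (.str 44 (.nv (.thr 46 45 (.thr 38 34 (.thr 35 41 (.thr 39 43 (.dbl 51 27 50))))) (.nv (.thr 45 46 (.thr 60 30 (.thr 56 52 (.thr 40 8 (.dbl 41 33 43))))) (.nv (.thr 45 46 (.thr 41 33 (.thr 43 40 (.dbl 35 38 39)))) (.rp 46 (.thr 51 50 (.thr 39 27 (.thr 43 35 (.thr 41 40 (.thr 33 45 (.thr 3 18 (.thr 23 63 (.dbl 22 20 60)))))))) (.rp 45 (.str 12 (.nv (.thr 51 50 (.thr 39 27 (.thr 43 35 (.thr 60 28 (.thr 56 52 (.dbl 40 8 41)))))) (.nv (.thr 13 14 (.thr 50 51 (.thr 9 1 (.thr 3 6 (.thr 60 28 (.thr 22 41 (.thr 2 62 (.dbl 18 33 34)))))))) (.nv (.thr 51 50 (.thr 39 27 (.thr 35 43 (.thr 13 14 (.thr 38 41 (.thr 9 1 (.dbl 3 6 19))))))) (.rp 56 (.thr 28 60 (.thr 20 16 (.thr 13 14 (.thr 9 1 (.thr 50 51 (.thr 3 6 (.thr 18 33 (.thr 22 23 (.dbl 2 34 62))))))))) (.rp 51 (.thr 60 28 (.thr 56 52 (.thr 40 8 (.thr 41 43 (.thr 13 14 (.thr 9 1 (.dbl 3 6 22))))))) (.rp 50 (.thr 60 28 (.thr 56 52 (.thr 40 8 (.thr 41 43 (.thr 13 14 (.thr 38 35 (.thr 9 1 (.dbl 3 6 22)))))))) (.rp 41 (.thr 28 60 (.thr 20 16 (.thr 13 14 (.thr 9 1 (.thr 50 51 (.thr 3 6 (.thr 18 33 (.thr 22 23 (.dbl 2 34 62))))))))) (.rp 29 (.thr 13 14 (.thr 9 1 (.thr 28 60 (.thr 20 16 (.thr 50 51 (.thr 3 6 (.thr 18 33 (.thr 22 23 (.dbl 2 34 62))))))))) (.rp 14 (.thr 60 28 (.thr 56 52 (.thr 40 8 (.thr 43 41 (.thr 39 35 (.dbl 51 27 50)))))) (.rp 13 (.str 29 (.nv (.thr 51 50 (.thr 63 46 (.thr 55 59 (.thr 38 4 (.thr 35 41 (.dbl 39 27 43)))))) (.nv (.thr 51 50 (.thr 60 28 (.thr 56 52 (.thr 40 8 (.thr 43 41 (.dbl 39 27 35)))))) (.nv (.thr 46 63 (.thr 60 28 (.thr 56 52 (.thr 40 8 (.thr 41 43 (.dbl 38 34 35)))))) (.nv (.thr 46 63 (.thr 38 34 (.thr 51 50 (.thr 39 27 (.dbl 35 41 43))))) (.rp 43 (.thr 60 28 (.thr 46 63 (.thr 51 50 (.thr 38 34 (.thr 54 57 (.thr 22 6 (.dbl 41 3 35))))))) (.rp 41 (.thr 28 60 (.thr 20 16 (.thr 63 46 (.thr 51 50 (.thr 39 27 (.thr 43 35 (.dbl 23 3 22))))))) (.rp 38 (.thr 60 28 (.thr 56 52 (.thr 40 8 (.thr 43 41 (.thr 39 35 (.dbl 51 27 50)))))) (.rp 35 (.thr 60 28 (.thr 56 52 (.thr 40 8 (.thr 43 41 (.thr 63 46 (.thr 51 50 (.thr 27 39 (.dbl 59 11 55)))))))) .nd))))))))) .nd))))))))))) (.rp 43 (.thr 45 46 (.thr 41 33 (.thr 60 30 (.thr 28 12 (.thr 20 16 (.dbl 22 3 23)))))) (.rp 41 (.thr 46 45 (.thr 51 50 (.thr 39 27 (.thr 38 34 (.thr 55 4 (.thr 63 59 (.thr 12 29 (.thr 13 14 (.thr 9 1 (.thr 3 6 (.dbl 35 19 43))))))))))) .nd)))))))) (.rp 27 (.thr 36 12 (.thr 38 39 (.thr 46 34 (.thr 45 44 (.thr 60 30 (.thr 52 56 (.dbl 4 20 55))))))) (.rp 14 (.thr 36 12 (.thr 38 39 (.thr 46 34 (.thr 45 44 (.thr 60 30 (.thr 52 56 (.dbl 4 20 55))))))) (.rp 12 (.thr 51 50 (.thr 39 27 (.thr 35 43 (.thr 38 36 (.thr 44 41 (.dbl 46 34 45)))))) .nd))))))))))) .nd)))))))))) (.rp 26 (.str 13 (.nv (.thr 25 49 (.thr 59 8 (.thr 63 31 (.thr 51 55 (.dbl 12 14 38))))) (.nv (.thr 12 14 (.thr 63 31 (.thr 29 46 (.dbl 25 17 49)))) (.rp 63 (.thr 12 14 (.thr 25 49 (.thr 38 51 (.thr 39 36 (.thr 35 43 (.thr 44 41 (.dbl 46 34 45))))))) (.rp 49 (.thr 12 14 (.thr 63 31 (.thr 46 29 (.thr 38 34 (.thr 39 36 (.dbl 51 25 27)))))) (.rp 48 (.str 16 (.nv (.thr 12 14 (.thr 25 49 (.thr 59 8 (.thr 63 31 (.dbl 51 38 55))))) (.nv (.thr 25 49 (.thr 17 29 (.thr 19 18 (.thr 22 28 (.thr 23 20 (.dbl 31 27 63)))))) (.nv (.thr 12 14 (.thr 63 31 (.thr 29 46 (.dbl 25 17 49)))) (.rp 63 (.str 62 (.nv (.thr 53 5 (.thr 22 2 (.thr 20 23 (.thr 28 24 (.dbl 25 19 49))))) (.nv (.thr 14 12 (.thr 46 30 (.thr 38 34 (.thr 44 45 (.thr 35 41 (.dbl 39 36 43)))))) (.nv (.thr 22 2 (.thr 25 49 (.thr 19 28 (.dbl 17 18 29)))) (.rp 53 (.str 58 (.nv (.thr 14 12 (.thr 46 30 (.thr 38 34 (.thr 44 45 (.thr 35 41 (.dbl 39 36 43)))))) (.nv (.thr 2 22 (.thr 50 54 (.thr 18 34 (.thr 17 19 (.dbl 25 29 49))))) (.nv (.thr 22 2 (.thr 20 23 (.thr 28 24 (.dbl 25 19 49)))) (.rp 57 (.thr 49 25 (.thr 14 12 (.thr 46 30 (.thr 54 50 (.thr 38 34 (.dbl 22 2 6)))))) (.rp 49 (.str 57 (.nv (.thr 22 2 (.thr 20 23 (.thr 28 24 (.thr 25 19 (.dbl 59 8 56))))) (.nv (.thr 14 12 (.thr 46 30 (.thr 22 2 (.thr 38 34 (.dbl 54 6 50))))) (.nv (.thr 50 54 (.thr 2 22 (.thr 18 34 (.thr 17 19 (.thr 25 29 (.dbl 59 8 56)))))) (.nv (.thr 54 50 (.thr 51 60 (.thr 12 14 (.thr 38 25 (.dbl 39 27 36))))) (.rp 50 (.str 51 (.nv (.thr 22 2 (.thr 60 54 (.thr 45 30 (.dbl 41 3 33)))) (.nv (.thr 12 14 (.thr 38 25 (.dbl 39 27 36))) (.rp 38 (.thr 14 12 (.thr 60 54 (.dbl 30 45 46))) (.rp 14 (.str 38 (.nv (.thr 22 2 (.dbl 54 6 60)) (.nv (.dbl 39 27 36) .nd))) .nd))))) (.rp 12 (.thr 22 2 (.thr 54 50 (.thr 51 60 (.thr 38 6 (.dbl 39 27 36))))) .nd))))))) (.rp 22 (.str 30 (.nv (.thr 49 25 (.thr 45 60 (.dbl 46 14 44))) (.nv (.dbl 14 12 46) (.rp 49 (.str 57 (.nv (.thr 60 45 (.dbl 54 50 51)) (.nv (.dbl 14 12 46) (.rp 51 (.thr 50 54 (.dbl 14 12 46)) (.rp 50 (.str 51 (.nv (.dbl 60 45 54) (.nv (.dbl 14 12 46) (.rp 14 (.str 38 (.nv (.dbl 60 45 54) (.nv (.dbl 39 27 36) .nd))) .nd)))) .nd))))) (.rp 46 (.thr 60 45 (.thr 12 14 (.thr 28 44 (.thr 29 31 (.dbl 25 17 49))))) (.rp 14 (.thr 45 60 (.thr 41 33 (.thr 25 49 (.thr 57 9 (.dbl 59 8 56))))) .nd)))))) .nd))))))) (.rp 22 (.thr 14 12 (.thr 25 49 (.thr 17 29 (.thr 46 30 (.thr 18 19 (.thr 44 45 (.thr 38 34 (.thr 35 41 (.dbl 39 36 43))))))))) .nd)))))) (.rp 50 (.str 39 (.nv (.thr 25 49 (.thr 51 27 (.thr 63 31 (.dbl 59 8 55)))) (.nv (.thr 12 14 (.thr 38 36 (.thr 46 34 (.dbl 63 29 31)))) (.nv (.thr 51 27 (.thr 12 14 (.dbl 38 25 36))) (.rp 51 (.thr 49 25 (.thr 12 14 (.thr 38 36 (.thr 63 31 (.dbl 46 29 34))))) (.rp 38 (.thr 14 12 (.thr 51 27 (.thr 25 49 (.thr 63 31 (.dbl 59 8 55))))) (.rp 14 (.thr 38 36 (.thr 51 27 (.dbl 25 12 49))) .nd))))))) (.rp 49 (.thr 12 14 (.thr 63 31 (.thr 46 29 (.thr 38 34 (.thr 39 36 (.dbl 51 25 27)))))) (.rp 31 (.thr 12 14 (.thr 25 49 (.thr 29 17 (.thr 46 63 (.dbl 38 34 51))))) (.rp 25 (.thr 12 14 (.thr 63 31 (.thr 46 29 (.thr 38 34 (.thr 44 45 (.thr 39 36 (.dbl 35 41 43))))))) .nd))))))))) (.rp 38 (.thr 63 31 (.thr 25 49 (.thr 29 17 (.dbl 12 14 46)))) (.rp 31 (.thr 12 14 (.thr 25 49 (.thr 29 17 (.thr 46 63 (.dbl 38 34 51))))) (.rp 25 (.thr 12 14 (.thr 63 31 (.thr 46 29 (.thr 44 45 (.thr 38 34 (.thr 39 36 (.dbl 35 41 43))))))) (.rp 16 (.str 48 (.nv (.thr 12 14 (.thr 36 24 (.thr 38 39 (.dbl 25 49 51)))) (.nv (.thr 63 31 (.dbl 53 5 58)) .nd))) (.rp 14 (.thr 63 31 (.thr 25 49 (.thr 29 17 (.thr 12 46 (.thr 59 8 (.dbl 51 38 55)))))) (.rp 12 (.thr 63 31 (.thr 5 53 (.thr 1 9 (.thr 49 25 (.thr 33 17 (.thr 41 45 (.thr 43 40 (.thr 39 35 (.thr 3 23 (.thr 48 18 (.dbl 51 27 50))))))))))) .nd)))))))))))) .nd)))))))) (.rp 60 .ext (.rp 59 (.str 41 (.nv (.thr 32 47 (.thr 33 45 (.thr 40 43 (.thr 44 36 (.dbl 35 34 38))))) (.nv (.thr 33 45 (.thr 5 53 (.thr 1 61 (.thr 13 9 (.dbl 49 17 25))))) (.rp 45 (.thr 5 53 (.thr 1 61 (.thr 13 9 (.thr 49 25 (.thr 33 17 (.thr 32 47 (.thr 40 43 (.thr 44 36 (.dbl 35 34 38))))))))) (.rp 33 (.thr 53 5 (.thr 61 1 (.thr 49 57 (.thr 13 25 (.thr 45 29 (.thr 47 32 (.thr 43 40 (.thr 35 39 (.dbl 44 38 46))))))))) .nd))))) (.rp 58 (.str 41 (.nv (.thr 33 45 (.thr 5 53 (.thr 1 61 (.thr 13 9 (.dbl 49 17 25))))) (.nv (.thr 32 47 (.thr 40 43 (.thr 33 45 (.thr 44 36 (.dbl 35 34 38))))) (.rp 45 (.thr 5 53 (.thr 1 61 (.thr 13 9 (.thr 49 25 (.thr 33 17 (.thr 32 47 (.thr 40 43 (.thr 44 36 (.dbl 35 34 38))))))))) (.rp 33 (.thr 53 5 (.thr 61 1 (.thr 49 57 (.thr 13 25 (.thr 45 29 (.thr 47 32 (.thr 43 40 (.thr 35 39 (.dbl 44 38 46))))))))) .nd))))) (.rp 57 (.str 41 (.nv (.thr 33 45 (.thr 5 53 (.thr 1 61 (.thr 49 17 (.dbl 13 9 25))))) (.nv (.thr 32 47 (.thr 40 43 (.thr 33 45 (.thr 44 36 (.dbl 35 34 38))))) (.rp 45 (.str 3 (.nv (.thr 43 40 (.thr 23 63 (.dbl 22 20 60))) (.rp 63 (.thr 5 53 (.thr 32 47 (.thr 40 43 (.thr 44 36 (.thr 60 22 (.thr 12 28 (.thr 9 6 (.dbl 1 13 61)))))))) (.rp 60 (.thr 53 5 (.thr 32 47 (.thr 40 43 (.thr 44 36 (.thr 35 38 (.thr 33 34 (.thr 48 18 (.thr 58 63 (.dbl 26 10 15))))))))) (.rp 43 (.thr 53 5 (.thr 61 1 (.thr 47 32 (.thr 60 22 (.thr 63 62 (.thr 15 31 (.dbl 48 26 58))))))) (.rp 40 (.thr 53 5 (.thr 61 1 (.thr 47 32 (.thr 60 22 (.thr 63 62 (.thr 15 31 (.dbl 48 26 58))))))) (.rp 23 (.thr 53 5 (.thr 61 1 (.thr 47 32 (.thr 60 22 (.thr 63 62 (.thr 15 31 (.dbl 48 26 58))))))) (.rp 22 (.thr 53 5 (.thr 47 32 (.thr 43 40 (.thr 63 23 (.thr 15 31 (.dbl 48 26 58)))))) (.rp 20 (.thr 61 1 (.thr 43 40 (.thr 60 22 (.dbl 63 23 62)))) .nd))))))))) (.rp 34 (.thr 45 33 (.thr 43 40 (.thr 47 32 (.thr 35 39 (.dbl 44 38 46))))) (.rp 33 (.str 48 (.nv (.thr 15 26 (.thr 47 32 (.thr 63 31 (.dbl 53 5 58)))) (.nv (.thr 53 5 (.thr 58 63 (.dbl 26 10 15))) (.rp 63 (.thr 43 40 (.thr 26 15 (.thr 10 58 (.thr 11 56 (.thr 59 27 (.dbl 8 9 25)))))) (.rp 58 (.thr 40 43 (.thr 32 47 (.thr 36 44 (.thr 24 12 (.thr 26 15 (.dbl 56 8 11)))))) (.rp 53 (.thr 40 43 (.thr 32 47 (.thr 36 44 (.thr 24 12 (.thr 26 15 (.dbl 56 8 11)))))) (.rp 26 (.thr 43 40 (.thr 61 1 (.thr 53 5 (.thr 63 58 (.thr 60 62 (.dbl 3 22 23)))))) (.rp 15 (.thr 43 40 (.thr 47 32 (.thr 35 39 (.thr 44 38 (.thr 45 46 (.thr 61 1 (.thr 13 29 (.thr 49 25 (.thr 51 50 (.thr 3 19 (.thr 60 22 (.thr 28 12 (.dbl 63 23 62))))))))))))) (.rp 5 (.thr 43 40 (.thr 26 15 (.thr 10 58 (.thr 11 56 (.thr 59 27 (.dbl 8 9 25)))))) .nd))))))))) .nd)))))) (.rp 56 (.str 41 (.nv (.thr 1 61 (.thr 5 53 (.thr 13 9 (.thr 33 45 (.dbl 49 17 25))))) (.nv (.thr 33 45 (.thr 40 43 (.thr 32 47 (.thr 44 36 (.dbl 35 34 38))))) (.rp 45 (.thr 40 43 (.thr 32 47 (.thr 44 36 (.thr 35 38 (.thr 33 34 (.thr 1 61 (.thr 5 53 (.thr 13 9 (.dbl 49 17 25))))))))) (.rp 33 (.thr 43 40 (.thr 47 32 (.thr 35 39 (.thr 44 38 (.thr 45 46 (.thr 61 1 (.thr 53 5 (.thr 49 57 (.dbl 13 25 29))))))))) .nd))))) (.rp 55 (.str 41 (.nv (.thr 33 45 (.thr 5 53 (.thr 1 61 (.thr 13 9 (.dbl 49 17 25))))) (.nv (.thr 32 47 (.thr 40 43 (.thr 33 45 (.thr 44 36 (.dbl 35 34 38))))) (.rp 45 (.thr 5 53 (.thr 1 61 (.thr 13 9 (.thr 49 25 (.thr 33 17 (.thr 32 47 (.thr 40 43 (.thr 44 36 (.dbl 35 34 38))))))))) (.rp 39 (.str 23 (.nv (.thr 1 61 (.thr 5 53 (.thr 13 9 (.thr 33 45 (.dbl 49 17 25))))) (.nv (.thr 43 40 (.thr 3 63 (.dbl 22 20 60))) .nd))) (.rp 33 (.thr 53 5 (.thr 61 1 (.thr 49 57 (.thr 13 25 (.thr 45 29 (.thr 47 32 (.thr 43 40 (.thr 44 46 (.dbl 35 38 39))))))))) (.rp 23 (.str 39 (.nv (.thr 32 47 (.thr 33 45 (.thr 34 35 (.dbl 38 36 46)))) (.nv (.thr 47 32 (.dbl 43 35 40)) (.rp 47 (.thr 33 45 (.thr 5 53 (.thr 1 61 (.thr 13 9 (.dbl 49 17 25))))) (.rp 35 (.thr 32 47 (.thr 40 43 (.dbl 36 38 44))) (.rp 32 (.thr 43 40 (.thr 35 47 (.dbl 38 36 44))) .nd)))))) .nd))))))) (.rp 54 (.str 41 (.nv (.thr 33 45 (.thr 5 53 (.thr 1 61 (.thr 13 9 (.dbl 49 17 25))))) (.nv (.thr 32 47 (.thr 40 43 (.thr 33 45 (.thr 44 36 (.dbl 35 34 38))))) (.rp 45 (.thr 5 53 (.thr 1 61 (.thr 13 9 (.thr 49 25 (.thr 33 17 (.thr 32 47 (.thr 40 43 (.thr 44 36 (.dbl 35 34 38))))))))) (.rp 33 (.thr 53 5 (.thr 61 1 (.thr 49 57 (.thr 13 25 (.thr 45 29 (.thr 47 32 (.thr 43 40 (.thr 35 39 (.dbl 44 38 46))))))))) .nd))))) (.rp 53 (.str 41 (.nv (.thr 32 47 (.thr 40 43 (.thr 33 45 (.thr 44 36 (.dbl 35 34 38))))) (.rp 47 (.str 3 (.nv (.thr 33 45 (.thr 48 18 (.thr 60 22 (.thr 56 52 (.dbl 26 11 15))))) (.nv (.thr 43 40 (.thr 60 22 (.thr 61 1 (.dbl 63 23 62)))) (.rp 60 (.thr 33 45 (.thr 1 61 (.thr 49 17 (.thr 13 25 (.thr 9 5 (.thr 48 18 (.thr 15 26 (.dbl 12 6 14)))))))) (.rp 22 (.thr 33 45 (.thr 61 1 (.thr 43 40 (.thr 63 23 (.thr 48 18 (.thr 26 15 (.thr 56 11 (.dbl 60 52 62)))))))) .nd))))) (.rp 45 (.str 11 (.nv (.thr 1 61 (.thr 43 40 (.thr 27 59 (.thr 47 32 (.thr 39 35 (.thr 15 51 (.dbl 26 48 56))))))) (.nv (.thr 40 43 (.thr 56 26 (.thr 8 24 (.thr 25 59 (.dbl 9 10 57))))) (.rp 59 (.thr 1 61 (.thr 32 47 (.thr 40 43 (.thr 44 36 (.thr 35 38 (.thr 33 34 (.thr 26 56 (.thr 48 15 (.thr 49 17 (.thr 51 50 (.dbl 3 18 19))))))))))) (.rp 57 (.thr 43 40 (.thr 59 27 (.thr 8 25 (.thr 10 9 (.dbl 26 56 58))))) (.rp 56 (.thr 61 1 (.thr 47 32 (.thr 43 40 (.thr 39 35 (.thr 27 59 (.thr 15 51 (.thr 63 31 (.thr 3 23 (.dbl 60 22 62))))))))) (.rp 43 (.thr 1 61 (.thr 26 56 (.thr 10 58 (.thr 9 8 (.thr 13 5 (.dbl 25 49 57)))))) (.rp 40 (.thr 26 56 (.thr 10 58 (.thr 8 9 (.thr 59 25 (.thr 27 43 (.thr 31 16 (.thr 23 19 (.thr 22 20 (.thr 60 3 (.thr 18 30 (.thr 2 62 (.thr 50 34 (.dbl 14 6 38))))))))))))) (.rp 26 (.thr 61 1 (.thr 47 32 (.thr 43 40 (.thr 39 35 (.thr 27 59 (.thr 15 51 (.thr 63 31 (.thr 3 23 (.dbl 60 22 62))))))))) .nd))))))))) (.rp 44 (.str 15 (.nv (.thr 45 33 (.thr 60 30 (.thr 61 1 (.thr 63 62 (.dbl 47 31 32))))) (.nv (.thr 45 33 (.thr 60 30 (.thr 61 1 (.thr 62 63 (.dbl 22 2 3))))) (.nv (.thr 47 32 (.thr 31 63 (.dbl 26 16 48))) (.rp 63 (.thr 40 43 (.thr 26 48 (.thr 58 10 (.thr 56 11 (.thr 8 24 (.dbl 59 25 57)))))) .nd))))) (.rp 43 (.thr 45 33 (.thr 61 1 (.thr 29 13 (.thr 47 32 (.thr 46 44 (.thr 63 12 (.thr 15 31 (.dbl 60 30 62)))))))) (.rp 40 (.str 60 (.nv (.thr 45 33 (.thr 15 30 (.thr 47 32 (.thr 31 63 (.dbl 26 16 48))))) (.nv (.thr 3 22 (.thr 33 45 (.thr 48 18 (.thr 26 15 (.dbl 56 11 52))))) (.nv (.thr 61 1 (.thr 62 63 (.dbl 22 2 3))) (.rp 48 (.thr 45 33 (.thr 61 1 (.thr 63 62 (.thr 15 30 (.dbl 47 31 32))))) .nd))))) (.rp 39 (.thr 33 45 (.thr 32 47 (.thr 35 34 (.thr 40 43 (.dbl 44 36 38))))) (.rp 38 (.thr 45 33 (.thr 61 1 (.thr 29 13 (.thr 47 32 (.thr 46 44 (.thr 63 12 (.thr 15 31 (.dbl 60 30 62)))))))) (.rp 36 (.thr 45 33 (.thr 47 32 (.thr 43 40 (.thr 44 46 (.dbl 35 38 39))))) (.rp 35 (.str 3 (.nv (.thr 33 45 (.thr 48 18 (.thr 26 15 (.thr 56 11 (.dbl 60 22 52))))) (.nv (.thr 43 40 (.thr 23 63 (.dbl 22 20 60))) (.rp 60 (.thr 33 45 (.thr 47 32 (.thr 48 18 (.thr 15 26 (.thr 63 31 (.dbl 43 23 40)))))) (.rp 48 (.thr 61 1 (.thr 43 40 (.thr 63 23 (.dbl 60 22 62)))) (.rp 22 (.thr 33 45 (.thr 47 32 (.thr 43 40 (.thr 63 23 (.thr 15 31 (.dbl 48 18 26)))))) .nd)))))) (.rp 34 (.thr 45 33 (.thr 43 40 (.thr 47 32 (.thr 35 39 (.dbl 44 38 46))))) (.rp 33 (.str 11 (.nv (.thr 43 40 (.thr 59 27 (.thr 8 25 (.thr 26 56 (.dbl 10 9 58))))) (.nv (.thr 26 56 (.thr 15 48 (.thr 43 40 (.thr 27 59 (.thr 39 51 (.dbl 47 32 35)))))) (.nv (.thr 40 43 (.thr 56 26 (.thr 8 24 (.thr 25 59 (.dbl 9 10 57))))) (.rp 59 (.thr 1 61 (.thr 47 32 (.thr 43 40 (.thr 35 39 (.thr 44 38 (.thr 45 46 (.thr 26 56 (.thr 58 10 (.thr 16 31 (.thr 15 48 (.thr 60 30 (.thr 3 22 (.thr 51 19 (.thr 28 12 (.thr 24 20 (.thr 25 27 (.thr 23 63 (.thr 29 17 (.dbl 57 9 54))))))))))))))))))) (.rp 56 (.thr 61 1 (.thr 47 32 (.thr 43 40 (.thr 35 39 (.thr 59 27 (.thr 44 38 (.thr 45 46 (.thr 13 29 (.dbl 25 8 49))))))))) (.rp 43 (.thr 1 61 (.thr 26 56 (.thr 10 58 (.thr 9 8 (.thr 13 5 (.dbl 25 49 57)))))) (.rp 40 (.thr 26 56 (.thr 10 58 (.thr 8 9 (.thr 59 25 (.thr 27 43 (.thr 31 16 (.thr 23 19 (.thr 22 20 (.thr 60 3 (.thr 18 30 (.thr 2 62 (.thr 50 34 (.dbl 14 6 38))))))))))))) (.rp 26 (.thr 61 1 (.thr 47 32 (.thr 43 40 (.thr 35 39 (.thr 59 27 (.thr 25 8 (.thr 44 38 (.thr 45 46 (.dbl 29 13 17))))))))) (.rp 8 (.thr 43 40 (.thr 27 59 (.thr 26 56 (.thr 24 25 (.thr 15 48 (.thr 39 51 (.dbl 47 32 35))))))) .nd)))))))))) (.rp 32 (.str 26 (.nv (.thr 10 58 (.thr 11 56 (.thr 8 9 (.thr 59 25 (.dbl 43 27 40))))) (.nv (.thr 48 15 (.thr 33 45 (.thr 3 18 (.thr 56 11 (.dbl 60 22 52))))) (.rp 56 (.thr 43 40 (.thr 48 15 (.thr 33 45 (.thr 3 18 (.thr 23 63 (.dbl 22 20 60)))))) (.rp 48 (.thr 16 31 (.thr 58 10 (.thr 40 43 (.thr 56 11 (.thr 59 57 (.dbl 8 24 25)))))) (.rp 11 (.thr 43 40 (.thr 33 45 (.thr 48 15 (.thr 3 18 (.thr 23 63 (.dbl 22 20 60)))))) (.rp 10 (.thr 43 40 (.thr 11 56 (.thr 27 59 (.thr 33 45 (.thr 1 61 (.thr 49 17 (.dbl 25 13 24))))))) .nd))))))) .nd)))))))))))))) (.rp 52 (.str 41 (.nv (.thr 32 47 (.thr 33 45 (.thr 40 43 (.thr 44 36 (.dbl 35 34 38))))) (.nv (.thr 5 53 (.thr 1 61 (.thr 13 9 (.thr 33 45 (.dbl 49 17 25))))) (.rp 45 (.thr 40 43 (.thr 32 47 (.thr 44 36 (.thr 35 38 (.thr 33 34 (.thr 1 61 (.thr 5 53 (.thr 13 9 (.dbl 49 17 25))))))))) (.rp 33 (.thr 43 40 (.thr 47 32 (.thr 35 39 (.thr 44 38 (.thr 45 46 (.thr 61 1 (.thr 13 29 (.thr 53 5 (.dbl 49 25 57))))))))) .nd))))) (.rp 51 (.str 41 (.nv (.thr 40 43 (.thr 33 45 (.thr 32 47 (.thr 44 36 (.dbl 35 34 38))))) (.nv (.thr 33 45 (.thr 5 53 (.thr 1 61 (.thr 13 9 (.dbl 49 17 25))))) (.rp 45 (.str 17 (.nv (.thr 1 61 (.thr 49 33 (.dbl 25 13 29))) (.rp 61 (.thr 25 29 (.thr 13 49 (.thr 57 9 (.thr 59 8 (.thr 43 40 (.thr 11 27 (.dbl 56 26 58))))))) (.rp 49 (.thr 25 29 (.thr 9 57 (.thr 8 59 (.thr 11 10 (.thr 40 43 (.dbl 56 24 26)))))) (.rp 33 (.thr 25 29 (.thr 13 49 (.thr 9 57 (.dbl 1 5 61)))) (.rp 29 (.thr 5 53 (.thr 1 61 (.thr 13 9 (.dbl 49 25 33)))) (.rp 25 (.thr 1 61 (.thr 33 49 (.thr 32 47 (.thr 35 34 (.thr 40 43 (.dbl 44 36 38)))))) (.rp 13 (.thr 32 47 (.thr 40 43 (.thr 44 36 (.thr 35 38 (.thr 33 34 (.dbl 1 49 61)))))) (.rp 1 (.thr 25 29 (.thr 9 57 (.thr 8 59 (.thr 11 10 (.thr 40 43 (.dbl 56 24 26)))))) .nd))))))))) (.rp 34 (.str 17 (.nv (.thr 1 61 (.thr 5 53 (.thr 13 9 (.dbl 25 29 49)))) (.nv (.thr 33 45 (.dbl 1 49 61)) (.rp 61 (.thr 33 45 (.thr 49 1 (.dbl 25 13 29))) (.rp 49 (.thr 45 33 (.thr 29 25 (.dbl 61 1 13))) (.rp 1 (.thr 45 33 (.thr 43 40 (.thr 47 32 (.thr 35 39 (.dbl 44 38 46))))) .nd)))))) (.rp 33 (.thr 53 5 (.thr 61 1 (.thr 49 57 (.thr 13 25 (.thr 45 29 (.thr 47 32 (.thr 43 40 (.thr 35 39 (.dbl 44 38 46))))))))) (.rp 17 (.str 34 (.nv (.thr 32 47 (.thr 38 46 (.thr 44 35 (.dbl 36 39 40)))) (.nv (.thr 33 45 (.dbl 32 35 47)) (.rp 47 (.thr 33 45 (.thr 35 32 (.dbl 38 44 46))) (.rp 35 (.thr 45 33 (.thr 46 38 (.dbl 47 32 44))) (.rp 32 (.str 48 (.nv (.thr 33 45 (.thr 3 18 (.thr 43 40 (.thr 23 63 (.dbl 22 20 60))))) (.nv (.thr 33 45 (.thr 3 18 (.thr 60 22 (.thr 56 52 (.dbl 26 11 15))))) (.nv (.thr 53 5 (.thr 58 63 (.dbl 26 10 15))) .nd)))) .nd)))))) .nd))))))) (.rp 50 (.str 41 (.nv (.thr 32 47 (.thr 33 45 (.thr 40 43 (.thr 44 36 (.dbl 35 34 38))))) (.nv (.thr 33 45 (.thr 5 53 (.thr 1 61 (.thr 13 9 (.dbl 49 17 25))))) (.rp 45 (.thr 5 53 (.thr 1 61 (.thr 13 9 (.thr 49 25 (.thr 33 17 (.thr 32 47 (.thr 40 43 (.thr 44 36 (.dbl 35 34 38))))))))) (.rp 33 (.thr 53 5 (.thr 61 1 (.thr 49 57 (.thr 13 25 (.thr 45 29 (.thr 47 32 (.thr 43 40 (.thr 35 39 (.dbl 44 38 46))))))))) .nd))))) (.rp 49 (.str 15 (.nv (.thr 47 32 (.thr 31 63 (.dbl 26 16 48))) (.rp 63 (.str 39 (.nv (.thr 27 51 (.thr 47 32 (.thr 43 35 (.thr 59 11 (.thr 25 8 (.dbl 26 24 48)))))) (.nv (.thr 47 32 (.thr 35 43 (.thr 38 36 (.thr 44 41 (.dbl 46 34 45))))) (.nv (.thr 38 36 (.thr 51 27 (.thr 12 25 (.thr 14 13 (.dbl 26 48 50))))) (.rp 48 (.thr 38 36 (.thr 46 34 (.thr 51 27 (.thr 12 25 (.thr 14 13 (.thr 62 30 (.thr 2 22 (.thr 10 6 (.dbl 26 50 58))))))))) .nd))))) (.rp 48 (.thr 32 47 (.str 51 (.nv (.thr 39 27 (.thr 38 36 (.thr 55 4 (.thr 59 63 (.dbl 25 8 12))))) (.nv (.thr 39 27 (.thr 38 36 (.thr 12 25 (.thr 46 34 (.thr 63 29 (.dbl 55 4 59)))))) (.rp 63 (.thr 53 5 (.thr 39 27 (.thr 38 36 (.thr 34 46 (.thr 33 35 (.thr 45 41 (.thr 60 30 (.thr 54 57 (.dbl 55 4 52))))))))) (.rp 59 (.thr 5 53 (.thr 39 27 (.thr 38 36 (.thr 12 25 (.thr 34 46 (.thr 33 35 (.thr 13 14 (.thr 1 9 (.dbl 41 45 61))))))))) (.rp 55 (.thr 5 53 (.thr 39 27 (.thr 38 36 (.thr 12 25 (.thr 34 46 (.thr 33 35 (.thr 13 14 (.thr 1 9 (.dbl 41 45 61))))))))) (.rp 39 (.str 55 (.nv (.thr 38 4 (.thr 12 25 (.thr 46 34 (.dbl 63 29 59)))) (.nv (.thr 59 63 (.thr 25 8 (.dbl 38 4 12))) (.rp 63 (.thr 53 5 (.thr 54 52 (.thr 38 4 (.thr 6 22 (.thr 12 25 (.thr 34 46 (.thr 35 33 (.dbl 3 9 19)))))))) (.rp 59 (.thr 5 53 (.thr 38 4 (.thr 12 25 (.thr 34 46 (.thr 35 33 (.thr 3 19 (.thr 13 14 (.dbl 9 1 6)))))))) (.rp 43 (.str 35 (.nv (.thr 38 4 (.thr 59 63 (.dbl 25 8 12))) (.nv (.thr 33 34 (.thr 41 45 (.dbl 38 4 44))) (.rp 38 (.thr 53 5 (.thr 33 34 (.thr 45 41 (.thr 54 52 (.dbl 60 30 57))))) (.rp 4 (.thr 59 63 (.thr 34 33 (.thr 38 46 (.dbl 25 8 12)))) .nd))))) (.rp 38 (.thr 53 5 (.thr 63 59 (.thr 54 52 (.thr 60 57 (.thr 61 62 (.thr 41 1 (.dbl 45 30 33))))))) (.rp 35 (.str 43 (.nv (.thr 41 40 (.thr 45 33 (.thr 60 30 (.thr 54 57 (.dbl 53 5 52))))) (.nv (.thr 59 63 (.thr 25 8 (.dbl 38 4 12))) (.rp 53 (.thr 63 59 (.thr 38 4 (.thr 12 25 (.dbl 46 29 34)))) .nd)))) (.rp 25 (.thr 53 5 (.thr 63 59 (.thr 54 52 (.thr 60 57 (.thr 61 62 (.thr 41 1 (.dbl 45 30 33))))))) (.rp 12 (.thr 53 5 (.thr 63 59 (.thr 54 52 (.thr 60 57 (.thr 61 62 (.thr 41 1 (.dbl 45 30 33))))))) (.rp 4 (.thr 59 63 (.thr 25 8 (.thr 12 38 (.thr 29 17 (.thr 13 14 (.thr 61 45 (.thr 1 41 (.dbl 5 9 53)))))))) .nd))))))))))) (.rp 38 (.str 41 (.nv (.thr 27 39 (.thr 33 45 (.thr 35 34 (.thr 3 19 (.thr 43 40 (.thr 59 11 (.dbl 63 23 55))))))) (.nv (.thr 1 61 (.thr 45 33 (.thr 60 30 (.thr 57 54 (.thr 9 25 (.dbl 5 13 53)))))) (.nv (.thr 33 45 (.thr 43 40 (.thr 35 34 (.thr 3 19 (.thr 23 63 (.dbl 22 20 60)))))) (.rp 60 (.thr 33 45 (.thr 27 39 (.thr 40 43 (.thr 35 34 (.thr 19 3 (.thr 23 31 (.thr 22 20 (.thr 25 28 (.thr 8 59 (.dbl 24 26 56)))))))))) (.rp 45 (.thr 53 5 (.thr 27 39 (.thr 43 40 (.thr 59 11 (.thr 55 63 (.thr 25 8 (.thr 54 52 (.dbl 57 9 60)))))))) (.rp 33 (.thr 53 5 (.thr 27 39 (.thr 43 40 (.thr 59 11 (.thr 55 63 (.thr 25 8 (.thr 54 52 (.dbl 57 9 60)))))))) (.rp 3 (.thr 53 5 (.thr 27 39 (.thr 43 40 (.thr 59 11 (.thr 55 63 (.thr 25 8 (.thr 54 52 (.dbl 57 9 60)))))))) .nd)))))))) (.rp 36 (.str 12 (.nv (.thr 5 53 (.thr 13 14 (.thr 1 9 (.thr 25 38 (.thr 29 17 (.dbl 61 41 45)))))) (.nv (.thr 38 25 (.thr 46 34 (.thr 63 29 (.dbl 55 4 59)))) (.rp 63 (.thr 13 14 (.thr 25 38 (.thr 29 17 (.thr 61 45 (.thr 1 41 (.dbl 5 9 53)))))) (.rp 38 (.thr 13 14 (.thr 5 53 (.thr 1 9 (.thr 61 41 (.thr 29 45 (.thr 25 17 (.thr 59 8 (.dbl 63 46 55)))))))) (.rp 29 (.thr 13 14 (.thr 5 53 (.thr 1 9 (.thr 38 25 (.thr 34 46 (.thr 33 35 (.dbl 41 45 61))))))) (.rp 25 (.thr 13 14 (.thr 5 53 (.thr 9 1 (.thr 3 6 (.thr 35 19 (.thr 33 34 (.thr 41 45 (.thr 44 38 (.dbl 60 22 28))))))))) .nd))))))) (.rp 27 (.str 41 (.nv (.thr 1 61 (.thr 45 33 (.thr 60 30 (.thr 5 53 (.thr 57 54 (.dbl 9 13 25)))))) (.nv (.thr 33 45 (.thr 35 34 (.thr 44 38 (.dbl 40 36 43)))) (.rp 45 (.thr 61 1 (.thr 53 5 (.thr 40 43 (.thr 44 36 (.thr 35 38 (.thr 3 19 (.thr 60 22 (.thr 63 62 (.thr 54 57 (.dbl 55 52 59)))))))))) (.rp 33 (.thr 1 61 (.thr 53 5 (.thr 40 43 (.thr 44 36 (.thr 35 38 (.thr 3 19 (.thr 60 22 (.thr 54 57 (.thr 55 52 (.thr 59 63 (.thr 25 8 (.thr 29 17 (.thr 30 45 (.dbl 28 12 31)))))))))))))) .nd))))) (.rp 25 (.thr 39 27 (.thr 38 36 (.thr 55 4 (.thr 63 59 (.thr 34 46 (.thr 33 35 (.thr 45 41 (.thr 60 30 (.thr 62 61 (.thr 22 2 (.dbl 54 6 57))))))))))) (.rp 24 (.thr 5 53 (.thr 39 27 (.thr 36 38 (.thr 40 44 (.thr 41 43 (.thr 45 33 (.thr 60 30 (.thr 1 61 (.thr 57 54 (.dbl 9 13 25)))))))))) (.rp 12 (.thr 5 53 (.thr 39 27 (.thr 36 38 (.thr 40 44 (.thr 41 43 (.thr 45 33 (.thr 60 30 (.thr 1 61 (.thr 57 54 (.dbl 9 13 25)))))))))) (.rp 4 (.thr 5 53 (.thr 39 27 (.thr 38 36 (.thr 12 25 (.thr 34 46 (.thr 33 35 (.thr 13 14 (.thr 1 9 (.dbl 41 45 61))))))))) .nd))))))))))))))) (.rp 47 (.str 13 (.nv (.thr 14 12 (.thr 26 48 (.thr 10 58 (.thr 2 6 (.thr 22 62 (.thr 18 30 (.dbl 50 34 38))))))) (.nv (.thr 14 12 (.thr 26 48 (.thr 50 38 (.thr 58 10 (.thr 62 54 (.thr 22 2 (.dbl 30 18 46))))))) (.nv (.thr 5 53 (.thr 1 9 (.thr 12 14 (.thr 61 41 (.thr 29 45 (.thr 25 17 (.thr 46 63 (.dbl 38 34 51)))))))) (.nv (.thr 12 14 (.thr 48 26 (.thr 36 24 (.thr 53 5 (.thr 63 58 (.thr 46 29 (.dbl 38 34 39))))))) (.rp 58 (.thr 12 14 (.thr 48 26 (.thr 36 24 (.thr 38 39 (.thr 46 34 (.thr 29 63 (.dbl 25 17 51))))))) (.rp 48 (.thr 12 14 (.thr 5 53 (.thr 1 9 (.thr 61 41 (.thr 29 45 (.thr 25 17 (.thr 59 8 (.thr 51 38 (.dbl 63 46 55))))))))) (.rp 38 (.thr 14 12 (.thr 5 53 (.thr 1 9 (.thr 61 41 (.thr 45 29 (.thr 30 60 (.thr 26 48 (.thr 22 18 (.dbl 62 2 46))))))))) (.rp 14 (.thr 5 53 (.thr 1 9 (.thr 61 41 (.thr 29 45 (.thr 25 17 (.thr 59 8 (.thr 26 48 (.thr 27 24 (.thr 51 39 (.thr 12 38 (.dbl 63 46 55))))))))))) (.rp 12 (.thr 5 53 (.thr 1 9 (.thr 61 41 (.thr 45 29 (.thr 30 60 (.thr 26 48 (.thr 22 18 (.thr 62 2 (.thr 58 10 (.thr 50 54 (.dbl 14 38 46))))))))))) .nd)))))))))) (.rp 32 (.thr 26 48 (.thr 16 31 (.str 50 (.nv (.thr 38 14 (.thr 39 36 (.thr 51 27 (.thr 55 4 (.thr 59 63 (.dbl 25 8 12)))))) (.nv (.thr 58 10 (.thr 62 54 (.thr 2 22 (.thr 38 14 (.dbl 34 18 46))))) (.rp 58 (.thr 38 14 (.thr 55 4 (.thr 39 36 (.thr 51 27 (.thr 63 59 (.thr 46 34 (.dbl 12 25 29))))))) (.rp 38 (.thr 58 10 (.thr 62 54 (.thr 22 2 (.thr 20 23 (.thr 18 30 (.thr 19 17 (.dbl 28 24 25))))))) (.rp 14 (.thr 58 10 (.thr 62 54 (.thr 2 22 (.thr 18 34 (.thr 17 19 (.thr 25 29 (.thr 59 8 (.thr 27 24 (.thr 11 43 (.dbl 56 41 57)))))))))) .nd)))))))) (.rp 31 (.str 13 (.nv (.thr 14 12 (.thr 26 48 (.thr 10 58 (.thr 2 6 (.thr 22 62 (.thr 18 30 (.dbl 50 34 38))))))) (.nv (.thr 5 53 (.thr 1 9 (.thr 61 41 (.thr 45 29 (.thr 30 60 (.thr 14 12 (.thr 46 62 (.dbl 47 32 44)))))))) (.nv (.thr 12 14 (.thr 48 26 (.thr 36 24 (.thr 38 39 (.thr 46 34 (.thr 29 63 (.dbl 25 17 51))))))) (.rp 29 (.thr 14 12 (.thr 26 48 (.thr 10 58 (.thr 2 6 (.thr 22 62 (.thr 50 38 (.dbl 18 30 34))))))) (.rp 14 (.thr 5 53 (.thr 1 9 (.thr 61 41 (.thr 29 45 (.thr 25 17 (.thr 59 8 (.thr 26 48 (.thr 27 24 (.thr 51 39 (.thr 12 38 (.dbl 63 46 55))))))))))) (.rp 12 (.thr 5 53 (.thr 1 9 (.thr 61 41 (.thr 45 29 (.thr 30 60 (.thr 26 48 (.thr 22 18 (.thr 62 2 (.thr 46 14 (.dbl 47 32 44)))))))))) .nd))))))) (.rp 26 (.str 13 (.nv (.thr 5 53 (.thr 1 9 (.thr 61 41 (.thr 45 29 (.thr 30 60 (.thr 14 12 (.thr 46 62 (.dbl 47 32 44)))))))) (.nv (.thr 5 53 (.thr 1 9 (.thr 47 32 (.thr 61 41 (.thr 45 29 (.thr 60 30 (.dbl 63 31 62))))))) (.nv (.thr 5 53 (.thr 1 9 (.thr 12 14 (.thr 61 41 (.thr 29 45 (.thr 25 17 (.thr 46 63 (.dbl 38 34 51)))))))) (.nv (.thr 12 14 (.thr 47 32 (.thr 63 31 (.thr 46 29 (.thr 38 34 (.thr 39 36 (.dbl 51 25 27))))))) (.nv (.thr 5 53 (.thr 1 9 (.thr 47 32 (.thr 61 41 (.thr 29 45 (.thr 63 31 (.dbl 12 14 46))))))) (.rp 29 (.thr 12 14 (.thr 47 32 (.thr 63 31 (.thr 5 53 (.thr 9 1 (.thr 3 6 (.thr 43 23 (.thr 41 40 (.thr 60 22 (.dbl 45 30 33)))))))))) (.rp 25 (.thr 12 14 (.thr 47 32 (.thr 63 31 (.thr 29 46 (.thr 61 45 (.thr 1 41 (.dbl 5 9 53))))))) .nd)))))))) (.rp 16 (.thr 47 32 (.thr 48 26 (.thr 63 31 (.dbl 53 5 58)))) .nd))))))))) (.rp 48 (.thr 32 47 (.str 41 (.nv (.thr 1 61 (.thr 5 53 (.thr 13 9 (.thr 49 25 (.dbl 33 17 45))))) (.nv (.thr 40 43 (.thr 44 36 (.thr 33 45 (.dbl 35 34 38)))) (.rp 45 (.thr 5 53 (.thr 1 61 (.thr 13 9 (.thr 49 25 (.thr 33 17 (.thr 40 43 (.thr 44 36 (.dbl 35 34 38)))))))) (.rp 33 (.str 3 (.nv (.thr 43 40 (.thr 60 22 (.thr 61 1 (.dbl 63 23 62)))) (.nv (.thr 43 40 (.thr 23 63 (.dbl 22 20 60))) (.rp 63 (.thr 40 43 (.thr 44 36 (.thr 1 61 (.thr 60 22 (.thr 12 28 (.thr 9 6 (.dbl 5 13 53))))))) (.rp 60 (.str 56 (.nv (.thr 1 61 (.thr 11 26 (.thr 40 43 (.thr 8 24 (.thr 9 10 (.dbl 5 13 53)))))) (.nv (.thr 1 61 (.thr 5 53 (.thr 9 13 (.thr 40 43 (.thr 8 24 (.dbl 25 57 59)))))) (.nv (.thr 1 61 (.thr 5 53 (.thr 9 13 (.thr 26 11 (.thr 57 25 (.dbl 58 10 59)))))) (.nv (.thr 40 43 (.thr 8 24 (.thr 11 26 (.thr 25 59 (.dbl 9 10 57))))) (.rp 40 (.str 20 (.nv (.thr 26 11 (.thr 16 31 (.thr 28 24 (.thr 22 23 (.thr 19 25 (.dbl 18 17 30)))))) (.nv (.thr 26 11 (.thr 5 53 (.thr 58 10 (.thr 57 59 (.thr 9 25 (.dbl 1 13 61)))))) (.rp 26 (.thr 23 22 (.thr 5 53 (.thr 1 61 (.thr 63 43 (.thr 9 13 (.thr 12 6 (.thr 29 46 (.dbl 25 17 57)))))))) (.rp 25 (.thr 26 11 (.thr 58 10 (.thr 57 59 (.thr 61 1 (.dbl 53 5 49))))) (.rp 11 (.thr 23 22 (.thr 5 53 (.thr 1 61 (.thr 63 43 (.thr 9 13 (.thr 12 6 (.thr 29 46 (.dbl 25 17 57)))))))) .nd)))))) (.rp 25 (.thr 26 11 (.thr 58 10 (.thr 57 59 (.thr 61 1 (.dbl 53 5 49))))) (.rp 9 (.thr 26 11 (.thr 40 43 (.thr 58 10 (.thr 8 24 (.dbl 59 25 57))))) .nd)))))))) (.rp 43 (.thr 1 61 (.thr 5 53 (.thr 9 13 (.thr 12 6 (.thr 60 22 (.thr 44 28 (.thr 36 40 (.dbl 38 35 39)))))))) (.rp 40 (.thr 1 61 (.thr 5 53 (.thr 9 13 (.thr 12 6 (.thr 60 22 (.thr 44 28 (.thr 38 35 (.dbl 25 51 57)))))))) (.rp 23 (.thr 40 43 (.thr 44 36 (.thr 1 61 (.thr 5 53 (.thr 9 13 (.thr 12 6 (.dbl 60 22 28))))))) (.rp 22 (.thr 43 40 (.thr 63 23 (.thr 1 61 (.thr 5 53 (.thr 9 13 (.thr 12 6 (.thr 29 46 (.dbl 25 17 57)))))))) .nd))))))))) .nd)))))) (.rp 47 (.str 13 (.nv (.thr 49 25 (.thr 53 5 (.thr 61 57 (.thr 41 1 (.dbl 45 29 33))))) (.nv (.thr 5 53 (.thr 1 9 (.thr 41 61 (.thr 49 25 (.dbl 33 17 45))))) (.rp 61 (.thr 5 53 (.thr 9 1 (.thr 25 49 (.thr 57 41 (.thr 59 8 (.thr 58 56 (.thr 26 10 (.thr 15 48 (.thr 12 14 (.thr 51 38 (.dbl 27 24 39))))))))))) (.rp 53 (.thr 25 49 (.thr 29 17 (.thr 61 45 (.thr 1 41 (.thr 9 5 (.thr 8 59 (.thr 10 11 (.thr 26 58 (.thr 27 24 (.thr 31 16 (.thr 28 30 (.dbl 19 22 23)))))))))))) (.rp 49 (.str 15 (.nv (.thr 14 12 (.thr 26 48 (.thr 10 58 (.thr 2 6 (.thr 22 62 (.thr 18 30 (.dbl 50 34 38))))))) (.nv (.thr 14 12 (.thr 26 48 (.thr 50 38 (.thr 58 10 (.thr 62 54 (.thr 22 2 (.dbl 30 18 46))))))) (.nv (.thr 5 53 (.thr 1 9 (.thr 12 14 (.thr 61 41 (.thr 29 45 (.thr 25 17 (.thr 46 63 (.dbl 38 34 51)))))))) (.nv (.thr 12 14 (.thr 48 26 (.thr 36 24 (.thr 53 5 (.thr 63 58 (.thr 46 29 (.dbl 38 34 39))))))) (.rp 58 (.thr 12 14 (.thr 48 26 (.thr 36 24 (.thr 38 39 (.thr 46 34 (.thr 29 63 (.dbl 25 17 51))))))) (.rp 48 (.thr 12 14 (.thr 5 53 (.thr 1 9 (.thr 61 41 (.thr 29 45 (.thr 25 17 (.thr 59 8 (.thr 51 38 (.dbl 63 46 55))))))))) (.rp 38 (.thr 14 12 (.thr 5 53 (.thr 1 9 (.thr 61 41 (.thr 45 29 (.thr 30 60 (.thr 26 48 (.thr 22 18 (.dbl 62 2 46))))))))) (.rp 14 (.thr 5 53 (.thr 1 9 (.thr 61 41 (.thr 29 45 (.thr 25 17 (.thr 59 8 (.thr 26 48 (.thr 27 24 (.thr 51 39 (.thr 12 38 (.dbl 63 46 55))))))))))) (.rp 12 (.thr 5 53 (.thr 1 9 (.thr 61 41 (.thr 45 29 (.thr 30 60 (.thr 26 48 (.thr 22 18 (.thr 62 2 (.thr 58 10 (.thr 50 54 (.dbl 14 38 46))))))))))) .nd)))))))))) (.rp 45 (.thr 5 53 (.thr 9 1 (.thr 25 49 (.thr 17 29 (.thr 8 59 (.thr 10 11 (.thr 26 58 (.thr 16 31 (.thr 19 18 (.thr 28 22 (.dbl 24 20 27))))))))))) (.rp 41 (.thr 5 53 (.thr 9 1 (.thr 25 49 (.thr 17 29 (.thr 8 59 (.thr 10 11 (.thr 26 58 (.thr 16 31 (.thr 19 18 (.thr 28 22 (.dbl 24 20 27))))))))))) (.rp 33 (.thr 5 53 (.thr 1 9 (.thr 61 41 (.thr 29 45 (.dbl 25 17 49))))) (.rp 25 (.str 15 (.nv (.thr 14 12 (.thr 26 48 (.thr 10 58 (.thr 2 6 (.thr 22 62 (.thr 18 30 (.dbl 50 34 38))))))) (.nv (.thr 14 12 (.thr 26 48 (.thr 38 50 (.thr 46 34 (.thr 62 30 (.thr 2 22 (.dbl 10 6 58))))))) (.nv (.thr 12 14 (.thr 48 26 (.thr 53 5 (.thr 63 58 (.thr 46 29 (.thr 38 34 (.dbl 36 24 39))))))) (.rp 58 (.thr 14 12 (.thr 5 53 (.thr 1 9 (.thr 41 61 (.thr 45 33 (.thr 30 60 (.thr 62 46 (.thr 22 2 (.dbl 26 18 48))))))))) (.rp 51 (.thr 5 53 (.thr 1 9 (.thr 41 61 (.thr 43 40 (.thr 33 45 (.thr 48 26 (.thr 3 18 (.thr 23 63 (.dbl 22 20 60))))))))) (.rp 50 (.thr 14 12 (.thr 5 53 (.thr 1 9 (.thr 41 61 (.thr 45 33 (.thr 30 60 (.thr 62 46 (.thr 22 2 (.dbl 26 18 48))))))))) (.rp 48 (.thr 12 14 (.thr 5 53 (.thr 1 9 (.thr 41 61 (.thr 43 40 (.thr 45 33 (.thr 60 30 (.thr 3 22 (.thr 63 23 (.thr 46 29 (.thr 38 34 (.dbl 44 28 35)))))))))))) (.rp 38 (.thr 5 53 (.thr 1 9 (.thr 41 61 (.thr 43 40 (.thr 33 45 (.thr 48 26 (.thr 3 18 (.thr 23 63 (.dbl 22 20 60))))))))) (.rp 36 (.thr 14 12 (.thr 5 53 (.thr 1 9 (.thr 41 61 (.thr 45 33 (.thr 30 60 (.thr 62 46 (.thr 22 2 (.dbl 26 18 48))))))))) (.rp 34 (.thr 14 12 (.thr 5 53 (.thr 1 9 (.thr 41 61 (.thr 45 33 (.thr 30 60 (.thr 62 46 (.thr 22 2 (.dbl 26 18 48))))))))) (.rp 26 (.thr 12 14 (.thr 5 53 (.thr 1 9 (.thr 41 61 (.thr 40 43 (.thr 45 33 (.thr 60 30 (.thr 44 28 (.thr 36 32 (.dbl 38 35 39)))))))))) (.rp 24 (.thr 14 12 (.thr 5 53 (.thr 1 9 (.thr 41 61 (.thr 45 33 (.thr 30 60 (.thr 62 46 (.thr 22 2 (.dbl 26 18 48))))))))) (.rp 14 (.thr 5 53 (.thr 1 9 (.thr 41 61 (.thr 43 40 (.thr 33 45 (.thr 48 26 (.thr 3 18 (.thr 23 63 (.dbl 22 20 60))))))))) (.rp 12 (.thr 5 53 (.thr 1 9 (.thr 41 61 (.thr 43 40 (.thr 33 45 (.thr 48 26 (.thr 3 18 (.thr 23 63 (.dbl 22 20 60))))))))) (.rp 6 (.thr 14 12 (.thr 26 48 (.thr 38 50 (.thr 46 34 (.thr 30 62 (.thr 45 60 (.thr 41 33 (.dbl 61 1 29)))))))) (.rp 4 (.thr 5 53 (.thr 1 9 (.thr 41 61 (.thr 43 40 (.thr 33 45 (.thr 48 26 (.thr 3 18 (.thr 23 63 (.dbl 22 20 60))))))))) .nd))))))))))))))))) (.rp 5 (.str 15 (.nv (.thr 12 14 (.thr 25 49 (.thr 29 17 (.thr 46 63 (.dbl 38 34 51))))) (.nv (.thr 12 14 (.thr 25 49 (.thr 48 26 (.thr 36 24 (.dbl 38 39 51))))) (.rp 51 (.thr 14 12 (.thr 25 49 (.thr 26 48 (.thr 50 38 (.thr 58 10 (.thr 62 54 (.thr 30 46 (.dbl 22 2 18)))))))) (.rp 49 (.thr 14 12 (.thr 26 48 (.thr 58 10 (.thr 50 38 (.thr 62 54 (.thr 30 46 (.dbl 22 2 18))))))) (.rp 38 (.thr 25 49 (.thr 29 17 (.thr 45 61 (.thr 30 60 (.thr 31 28 (.dbl 26 16 48)))))) (.rp 25 (.thr 14 12 (.thr 26 48 (.thr 10 58 (.thr 38 50 (.thr 46 34 (.thr 62 30 (.dbl 2 6 22))))))) (.rp 14 (.thr 25 49 (.thr 29 17 (.thr 45 61 (.thr 30 60 (.thr 31 28 (.dbl 26 16 48)))))) (.rp 12 (.thr 25 49 (.thr 29 17 (.thr 45 61 (.thr 30 60 (.thr 26 48 (.dbl 31 16 28)))))) (.rp 6 (.str 4 (.nv (.thr 14 12 (.thr 26 48 (.dbl 38 50 55))) (.nv (.thr 12 14 (.thr 25 49 (.dbl 38 51 55))) (.rp 55 (.thr 12 14 (.thr 25 49 (.thr 29 17 (.thr 46 63 (.dbl 38 34 51))))) (.rp 38 (.thr 25 49 (.thr 29 17 (.thr 45 61 (.thr 30 60 (.thr 31 28 (.dbl 26 16 48)))))) (.rp 14 (.thr 38 55 (.thr 39 36 (.thr 51 27 (.dbl 25 12 49)))) (.rp 12 (.thr 38 55 (.thr 39 36 (.thr 27 51 (.thr 25 49 (.dbl 26 24 48))))) .nd))))))) (.rp 4 (.str 6 (.nv (.thr 12 14 (.thr 25 49 (.thr 29 17 (.thr 46 63 (.dbl 38 34 51))))) (.nv (.thr 26 48 (.thr 10 58 (.dbl 14 2 12))) (.rp 63 (.thr 12 14 (.thr 25 49 (.thr 38 51 (.thr 36 39 (.dbl 48 24 26))))) (.rp 14 (.thr 25 49 (.thr 29 17 (.thr 45 61 (.thr 30 60 (.thr 31 28 (.dbl 26 16 48)))))) (.rp 12 (.str 8 (.nv (.dbl 25 49 59) (.rp 59 (.thr 25 49 (.thr 29 17 (.thr 45 61 (.thr 30 60 (.thr 26 48 (.dbl 31 16 28)))))) (.rp 49 (.thr 25 59 (.thr 29 17 (.thr 45 61 (.thr 30 60 (.thr 26 48 (.dbl 31 16 28)))))) (.rp 25 (.thr 26 48 (.thr 10 58 (.thr 11 9 (.thr 41 56 (.thr 45 33 (.dbl 61 1 29)))))) .nd))))) .nd)))))) .nd))))))))))) (.rp 1 (.str 15 (.nv (.thr 12 14 (.thr 48 26 (.thr 36 24 (.thr 38 39 (.dbl 25 49 51))))) (.nv (.thr 12 14 (.thr 25 49 (.thr 48 26 (.thr 53 5 (.thr 63 58 (.dbl 29 17 46)))))) (.nv (.thr 12 14 (.thr 25 49 (.thr 17 29 (.thr 38 51 (.thr 48 26 (.dbl 36 24 39)))))) (.rp 49 (.thr 14 12 (.thr 26 48 (.thr 10 58 (.thr 2 6 (.thr 22 62 (.thr 18 30 (.dbl 50 34 38))))))) (.rp 48 (.thr 12 14 (.thr 25 49 (.thr 59 8 (.thr 51 38 (.thr 63 55 (.dbl 29 17 46)))))) (.rp 38 (.thr 53 5 (.thr 49 25 (.thr 61 57 (.thr 45 29 (.thr 60 30 (.thr 63 62 (.dbl 48 26 58))))))) (.rp 26 (.thr 12 14 (.thr 53 5 (.thr 25 49 (.thr 38 51 (.thr 36 39 (.thr 48 24 (.thr 63 58 (.dbl 46 29 34)))))))) (.rp 25 (.thr 14 12 (.thr 26 48 (.thr 10 58 (.thr 2 6 (.thr 22 62 (.thr 18 30 (.dbl 50 34 38))))))) (.rp 14 (.thr 53 5 (.thr 49 25 (.thr 61 57 (.thr 45 29 (.thr 60 30 (.thr 48 26 (.dbl 63 58 62))))))) (.rp 12 (.thr 53 5 (.thr 49 25 (.thr 61 57 (.thr 45 29 (.thr 60 30 (.thr 63 62 (.dbl 48 26 58))))))) (.rp 3 (.str 2 (.nv (.thr 12 14 (.thr 48 26 (.thr 36 24 (.thr 38 39 (.dbl 25 49 51))))) (.nv (.thr 26 48 (.thr 10 58 (.dbl 14 6 12))) (.rp 48 (.thr 14 12 (.thr 6 10 (.thr 22 62 (.thr 38 54 (.thr 34 46 (.dbl 50 18 26)))))) (.rp 26 (.thr 53 5 (.thr 49 25 (.thr 61 57 (.thr 45 29 (.thr 62 22 (.dbl 60 30 63)))))) (.rp 14 (.thr 53 5 (.thr 49 25 (.thr 61 57 (.thr 45 29 (.thr 62 22 (.dbl 60 30 63)))))) (.rp 12 (.thr 53 5 (.thr 49 25 (.thr 61 57 (.thr 45 29 (.thr 62 22 (.dbl 60 30 63)))))) .nd))))))) (.rp 2 (.str 3 (.nv (.thr 12 14 (.thr 48 26 (.thr 36 24 (.thr 38 39 (.dbl 25 49 51))))) (.nv (.thr 25 49 (.thr 48 26 (.thr 33 18 (.thr 45 41 (.dbl 29 17 61))))) (.nv (.thr 12 14 (.thr 25 49 (.thr 17 29 (.thr 38 51 (.thr 48 26 (.dbl 36 24 39)))))) (.rp 49 (.thr 53 5 (.thr 48 26 (.thr 33 18 (.thr 41 45 (.thr 43 40 (.dbl 63 23 58)))))) (.rp 48 (.thr 12 14 (.thr 25 49 (.thr 59 8 (.thr 51 38 (.thr 63 55 (.dbl 29 17 46)))))) (.rp 26 (.thr 53 5 (.thr 49 25 (.thr 61 57 (.thr 45 29 (.thr 41 33 (.dbl 60 22 30)))))) (.rp 25 (.thr 53 5 (.thr 48 26 (.thr 33 18 (.thr 41 45 (.thr 43 40 (.dbl 63 23 58)))))) .nd)))))))) .nd))))))))))))) .nd)))))))))))) (.rp 46 (.thr 5 53 (.str 1 (.nv (.thr 32 47 (.thr 41 61 (.thr 40 43 (.thr 44 36 (.thr 35 38 (.dbl 33 34 45)))))) (.nv (.thr 13 9 (.thr 41 61 (.thr 49 25 (.dbl 33 17 45)))) (.rp 61 (.thr 13 9 (.thr 49 25 (.thr 33 17 (.thr 41 45 (.thr 40 43 (.thr 32 47 (.thr 44 36 (.dbl 35 34 38)))))))) (.rp 49 (.thr 9 13 (.thr 32 47 (.thr 41 61 (.thr 57 25 (.thr 40 43 (.thr 44 36 (.thr 35 38 (.dbl 33 34 45)))))))) (.rp 45 (.thr 13 9 (.thr 41 61 (.thr 40 43 (.thr 32 47 (.thr 44 36 (.thr 35 38 (.thr 33 34 (.dbl 49 17 25)))))))) (.rp 41 (.str 15 (.nv (.thr 47 32 (.thr 31 63 (.dbl 26 16 48))) (.rp 63 (.thr 13 9 (.thr 12 14 (.thr 25 49 (.thr 38 51 (.thr 36 39 (.dbl 48 24 26)))))) (.rp 58 (.thr 13 9 (.thr 12 14 (.thr 25 49 (.thr 38 51 (.thr 36 39 (.dbl 48 24 26)))))) (.rp 48 (.thr 13 9 (.thr 12 14 (.thr 25 49 (.thr 59 8 (.thr 51 38 (.thr 63 55 (.dbl 47 31 32))))))) (.rp 47 (.thr 13 9 (.thr 12 14 (.thr 25 49 (.thr 38 51 (.thr 36 39 (.dbl 48 24 26)))))) (.rp 32 (.thr 13 9 (.thr 12 14 (.thr 25 49 (.thr 38 51 (.thr 36 39 (.dbl 48 24 26)))))) (.rp 31 (.thr 13 9 (.thr 12 14 (.thr 25 49 (.thr 38 51 (.thr 36 39 (.dbl 48 24 26)))))) (.rp 29 (.thr 13 9 (.thr 12 14 (.thr 47 32 (.thr 31 63 (.dbl 26 16 48))))) (.rp 26 (.thr 13 9 (.thr 12 14 (.thr 47 32 (.thr 63 31 (.thr 25 49 (.thr 59 8 (.dbl 51 38 55))))))) (.rp 16 (.thr 13 9 (.thr 12 14 (.thr 25 49 (.thr 38 51 (.thr 36 39 (.dbl 48 24 26)))))) (.rp 12 (.thr 13 9 (.thr 47 32 (.thr 25 49 (.thr 29 17 (.thr 31 63 (.dbl 26 16 48)))))) .nd)))))))))))) (.rp 33 (.thr 13 9 (.thr 61 41 (.thr 29 45 (.dbl 25 17 49)))) .nd))))))))) (.rp 45 (.str 15 (.nv (.thr 47 32 (.thr 31 63 (.dbl 26 16 48))) (.rp 63 (.str 13 (.nv (.thr 5 53 (.thr 9 1 (.thr 25 49 (.thr 8 59 (.thr 10 11 (.dbl 26 48 58)))))) (.nv (.thr 12 14 (.thr 25 49 (.thr 48 26 (.thr 36 24 (.dbl 38 39 51))))) (.rp 51 (.thr 5 53 (.thr 9 1 (.thr 25 49 (.thr 59 8 (.thr 57 41 (.thr 58 56 (.dbl 26 10 48))))))) (.rp 49 (.thr 14 12 (.thr 26 48 (.thr 58 10 (.thr 50 38 (.thr 62 54 (.thr 22 2 (.dbl 30 18 46))))))) (.rp 48 (.thr 12 14 (.thr 25 49 (.thr 59 8 (.thr 51 38 (.thr 27 39 (.thr 26 24 (.thr 11 43 (.thr 58 10 (.dbl 56 41 57))))))))) (.rp 26 (.thr 12 14 (.thr 32 47 (.thr 25 49 (.thr 38 51 (.thr 36 39 (.thr 34 46 (.thr 44 40 (.dbl 35 33 41)))))))) (.rp 25 (.thr 14 12 (.thr 26 48 (.thr 38 50 (.thr 46 34 (.thr 62 30 (.thr 2 22 (.dbl 10 6 58))))))) .nd)))))))) (.rp 48 (.thr 47 32 (.str 16 (.nv (.dbl 31 26 63) (.rp 63 (.str 8 (.nv (.thr 25 59 (.thr 17 29 (.thr 53 5 (.thr 49 13 (.thr 61 57 (.dbl 1 33 41)))))) (.nv (.thr 25 59 (.thr 17 29 (.thr 19 18 (.thr 22 28 (.thr 31 26 (.dbl 23 20 27)))))) (.nv (.thr 26 31 (.thr 58 10 (.thr 59 25 (.thr 56 57 (.thr 41 11 (.dbl 40 24 43)))))) (.rp 59 (.thr 26 31 (.thr 10 58 (.thr 53 5 (.thr 11 9 (.thr 56 41 (.thr 24 40 (.thr 25 27 (.thr 17 29 (.thr 19 18 (.dbl 28 20 22)))))))))) (.rp 58 (.thr 53 5 (.thr 26 31 (.thr 25 59 (.thr 17 29 (.thr 24 27 (.thr 28 20 (.dbl 19 18 22))))))) (.rp 53 (.str 58 (.nv (.dbl 26 10 31) (.rp 31 (.thr 26 10 (.thr 59 25 (.thr 56 57 (.thr 40 24 (.dbl 41 11 43))))) (.rp 26 (.thr 25 59 (.thr 13 49 (.thr 12 14 (.thr 17 29 (.thr 19 18 (.thr 22 28 (.thr 23 20 (.thr 62 2 (.thr 50 54 (.thr 51 38 (.dbl 27 31 39))))))))))) (.rp 10 (.thr 59 25 (.thr 56 57 (.thr 40 24 (.thr 41 43 (.dbl 26 11 31))))) .nd))))) (.rp 25 (.thr 26 31 (.thr 10 58 (.thr 53 5 (.thr 11 9 (.thr 41 56 (.thr 43 40 (.thr 39 35 (.dbl 27 51 59)))))))) .nd)))))))) (.rp 31 (.str 13 (.nv (.thr 12 14 (.thr 25 49 (.thr 17 29 (.thr 51 38 (.thr 39 27 (.thr 35 43 (.dbl 19 3 18))))))) (.nv (.thr 12 14 (.thr 25 49 (.thr 29 17 (.thr 46 63 (.dbl 38 34 51))))) (.rp 51 (.thr 12 14 (.thr 53 5 (.thr 49 25 (.thr 61 57 (.thr 41 1 (.thr 43 40 (.thr 35 39 (.thr 44 38 (.thr 60 28 (.thr 62 63 (.dbl 22 2 3))))))))))) (.rp 50 (.thr 12 14 (.thr 5 53 (.thr 1 9 (.thr 41 61 (.thr 43 40 (.thr 39 35 (.thr 51 27 (.dbl 38 25 36)))))))) (.rp 49 (.str 51 (.nv (.thr 12 14 (.thr 25 38 (.thr 29 17 (.thr 59 8 (.dbl 63 46 55))))) (.nv (.thr 5 53 (.thr 1 9 (.thr 39 27 (.thr 43 35 (.dbl 41 40 61))))) (.nv (.thr 12 14 (.thr 38 25 (.dbl 39 27 36))) .nd)))) (.rp 38 (.thr 5 53 (.thr 1 9 (.thr 41 61 (.thr 43 40 (.thr 39 35 (.thr 27 51 (.thr 59 11 (.dbl 25 8 49)))))))) (.rp 29 (.thr 12 14 (.thr 5 53 (.thr 9 1 (.thr 3 6 (.thr 25 49 (.thr 51 38 (.thr 39 27 (.dbl 35 19 43)))))))) (.rp 25 (.thr 5 53 (.thr 1 9 (.thr 41 61 (.thr 43 40 (.thr 39 35 (.thr 27 51 (.thr 11 59 (.thr 26 56 (.thr 14 12 (.dbl 38 36 50)))))))))) (.rp 17 (.thr 12 14 (.thr 5 53 (.thr 1 9 (.thr 41 61 (.thr 43 40 (.thr 39 35 (.thr 51 27 (.dbl 38 25 36)))))))) (.rp 14 (.thr 5 53 (.thr 1 9 (.thr 41 61 (.thr 43 40 (.thr 39 35 (.thr 27 51 (.thr 59 11 (.dbl 25 8 49)))))))) (.rp 12 (.thr 5 53 (.thr 1 9 (.thr 41 61 (.thr 43 40 (.thr 39 35 (.thr 27 51 (.thr 59 11 (.dbl 25 8 49)))))))) .nd)))))))))))) (.rp 26 (.str 1 (.nv (.thr 5 53 (.thr 13 9 (.thr 12 14 (.thr 63 31 (.thr 29 46 (.dbl 25 17 49)))))) (.nv (.thr 41 61 (.thr 43 40 (.thr 39 35 (.thr 51 27 (.thr 63 31 (.thr 55 59 (.dbl 38 4 36))))))) (.nv (.thr 53 5 (.thr 61 41 (.thr 49 57 (.thr 25 13 (.dbl 17 29 33))))) (.rp 29 (.thr 5 53 (.thr 13 9 (.thr 12 14 (.thr 25 49 (.thr 59 8 (.thr 63 31 (.dbl 51 38 55))))))) (.rp 25 (.thr 5 53 (.thr 13 9 (.thr 12 14 (.thr 63 31 (.thr 46 29 (.thr 38 34 (.thr 39 36 (.thr 35 43 (.dbl 41 44 61))))))))) (.rp 13 (.thr 53 5 (.thr 63 31 (.thr 61 41 (.thr 49 57 (.thr 17 33 (.thr 25 29 (.thr 62 60 (.thr 22 2 (.dbl 19 18 28))))))))) .nd))))))) .nd)))))) (.rp 47 (.str 46 (.nv (.thr 48 26 (.thr 53 5 (.thr 63 58 (.thr 12 29 (.thr 36 24 (.dbl 38 34 39)))))) (.nv (.thr 38 34 (.thr 39 36 (.thr 51 27 (.thr 55 4 (.thr 59 63 (.dbl 25 8 12)))))) (.nv (.thr 26 48 (.thr 10 58 (.thr 38 34 (.thr 14 50 (.thr 62 30 (.dbl 2 6 22)))))) (.nv (.thr 38 34 (.thr 39 36 (.thr 48 26 (.thr 51 27 (.thr 25 12 (.dbl 49 13 50)))))) (.rp 38 (.thr 53 5 (.thr 48 26 (.thr 63 58 (.thr 29 12 (.thr 25 17 (.thr 49 13 (.thr 61 57 (.thr 62 60 (.thr 14 30 (.thr 51 50 (.dbl 59 8 55))))))))))) (.rp 34 (.thr 53 5 (.thr 48 26 (.thr 63 58 (.thr 12 29 (.thr 13 14 (.thr 25 49 (.thr 59 8 (.dbl 51 38 55)))))))) .nd))))))) (.rp 32 (.str 13 (.nv (.thr 5 53 (.thr 9 1 (.thr 25 49 (.thr 8 59 (.thr 10 11 (.dbl 26 48 58)))))) (.nv (.thr 48 26 (.thr 12 14 (.thr 25 49 (.thr 36 24 (.dbl 38 39 51))))) (.rp 49 (.thr 12 14 (.thr 53 5 (.thr 48 26 (.thr 36 24 (.thr 38 39 (.thr 46 34 (.dbl 63 29 58))))))) (.rp 48 (.str 16 (.nv (.thr 12 14 (.thr 25 49 (.thr 29 17 (.thr 46 63 (.dbl 38 34 51))))) (.nv (.thr 5 53 (.thr 9 1 (.thr 25 49 (.thr 8 59 (.thr 26 31 (.dbl 10 11 58)))))) (.nv (.thr 12 14 (.thr 26 31 (.thr 25 49 (.thr 51 38 (.dbl 27 24 39))))) (.rp 51 (.thr 14 12 (.thr 26 31 (.thr 10 58 (.thr 2 6 (.thr 22 62 (.thr 18 30 (.dbl 50 34 38))))))) (.rp 49 (.thr 12 14 (.thr 31 26 (.thr 63 47 (.thr 46 29 (.thr 38 34 (.thr 39 36 (.dbl 51 25 27))))))) (.rp 25 (.thr 14 12 (.thr 26 31 (.thr 10 58 (.thr 2 6 (.thr 22 62 (.thr 18 30 (.dbl 50 34 38))))))) .nd))))))) (.rp 26 (.thr 12 14 (.thr 25 49 (.thr 29 17 (.thr 46 63 (.dbl 38 34 51))))) (.rp 25 (.thr 12 14 (.thr 53 5 (.thr 48 26 (.thr 63 58 (.thr 46 29 (.thr 38 34 (.dbl 36 24 39))))))) .nd))))))) (.rp 31 (.str 13 (.nv (.thr 12 14 (.thr 25 49 (.thr 29 17 (.thr 46 63 (.dbl 38 34 51))))) (.nv (.thr 5 53 (.thr 9 1 (.thr 25 49 (.thr 8 59 (.thr 10 11 (.dbl 26 48 58)))))) (.nv (.thr 12 14 (.thr 25 49 (.thr 48 26 (.thr 36 24 (.dbl 38 39 51))))) (.rp 49 (.thr 14 12 (.thr 26 48 (.thr 10 58 (.thr 2 6 (.thr 22 62 (.thr 18 30 (.dbl 50 34 38))))))) (.rp 25 (.thr 14 12 (.thr 26 48 (.thr 10 58 (.thr 2 6 (.thr 22 62 (.thr 18 30 (.dbl 50 34 38))))))) .nd)))))) (.rp 26 (.str 13 (.nv (.thr 25 49 (.thr 29 17 (.thr 47 32 (.thr 63 31 (.dbl 12 14 46))))) (.nv (.thr 12 14 (.thr 25 49 (.thr 47 32 (.thr 59 8 (.thr 63 31 (.dbl 51 38 55)))))) (.nv (.thr 12 14 (.thr 25 49 (.thr 29 17 (.thr 46 63 (.dbl 38 34 51))))) (.rp 63 (.thr 12 14 (.thr 32 47 (.thr 25 49 (.thr 38 51 (.thr 36 39 (.thr 34 46 (.thr 44 40 (.dbl 35 33 41)))))))) (.rp 51 (.thr 12 14 (.thr 47 32 (.thr 63 31 (.thr 29 46 (.dbl 25 17 49))))) (.rp 49 (.thr 12 14 (.thr 47 32 (.thr 63 31 (.thr 46 29 (.thr 38 34 (.thr 39 36 (.dbl 51 25 27))))))) (.rp 25 (.thr 12 14 (.thr 47 32 (.thr 63 31 (.thr 46 29 (.thr 38 34 (.thr 39 36 (.thr 55 4 (.dbl 51 27 59)))))))) (.rp 14 (.thr 47 32 (.thr 63 31 (.thr 25 49 (.thr 29 17 (.thr 12 46 (.thr 59 8 (.dbl 51 38 55))))))) (.rp 12 (.thr 47 32 (.thr 63 31 (.thr 53 5 (.thr 49 25 (.thr 61 57 (.thr 41 1 (.thr 43 40 (.thr 3 23 (.dbl 60 22 62))))))))) .nd)))))))))) (.rp 16 (.thr 47 32 (.thr 48 26 (.thr 63 31 (.dbl 53 5 58)))) .nd))))))))) (.rp 44 (.str 13 (.nv (.thr 49 25 (.thr 53 5 (.thr 61 57 (.thr 41 1 (.dbl 45 29 33))))) (.nv (.thr 5 53 (.thr 1 9 (.thr 41 61 (.thr 49 25 (.dbl 33 17 45))))) (.rp 61 (.thr 5 53 (.thr 9 1 (.thr 25 49 (.thr 57 41 (.thr 17 29 (.thr 8 59 (.thr 10 11 (.thr 26 58 (.thr 16 31 (.thr 19 18 (.thr 28 22 (.dbl 24 20 27)))))))))))) (.rp 53 (.thr 25 49 (.thr 29 17 (.thr 61 45 (.thr 1 41 (.thr 9 5 (.thr 8 59 (.thr 10 11 (.thr 26 58 (.thr 27 24 (.thr 31 16 (.thr 28 30 (.dbl 19 22 23)))))))))))) (.rp 49 (.str 15 (.nv (.thr 48 26 (.thr 53 5 (.thr 63 58 (.dbl 47 31 32)))) (.nv (.thr 47 32 (.thr 31 63 (.dbl 26 16 48))) (.rp 63 (.thr 14 12 (.thr 26 48 (.thr 58 10 (.thr 50 38 (.thr 62 54 (.thr 22 2 (.dbl 30 18 46))))))) (.rp 48 (.thr 12 14 (.thr 5 53 (.thr 1 9 (.thr 61 41 (.thr 29 45 (.thr 63 46 (.dbl 47 31 32))))))) (.rp 47 (.thr 14 12 (.thr 26 48 (.thr 10 58 (.thr 2 6 (.thr 22 62 (.thr 18 30 (.dbl 50 34 38))))))) (.rp 32 (.thr 12 14 (.thr 53 5 (.thr 48 26 (.thr 36 24 (.thr 38 39 (.thr 46 34 (.dbl 63 29 58))))))) (.rp 31 (.thr 14 12 (.thr 26 48 (.thr 10 58 (.thr 2 6 (.thr 22 62 (.thr 18 30 (.dbl 50 34 38))))))) (.rp 26 (.thr 12 14 (.thr 47 32 (.thr 63 31 (.thr 46 29 (.thr 38 34 (.thr 55 4 (.dbl 51 25 59))))))) .nd))))))))) (.rp 45 (.thr 5 53 (.thr 9 1 (.thr 25 49 (.thr 17 29 (.thr 8 59 (.thr 10 11 (.thr 26 58 (.thr 16 31 (.thr 19 18 (.thr 28 22 (.dbl 24 20 27))))))))))) (.rp 41 (.thr 5 53 (.thr 9 1 (.thr 25 49 (.thr 17 29 (.thr 8 59 (.thr 10 11 (.thr 26 58 (.thr 16 31 (.thr 19 18 (.thr 28 22 (.dbl 24 20 27))))))))))) (.rp 33 (.thr 5 53 (.thr 1 9 (.thr 61 41 (.thr 29 45 (.dbl 25 17 49))))) (.rp 25 (.str 15 (.nv (.thr 48 26 (.thr 53 5 (.thr 63 58 (.dbl 47 31 32)))) (.nv (.thr 47 32 (.thr 31 63 (.dbl 26 16 48))) (.rp 63 (.thr 14 12 (.thr 26 48 (.thr 38 50 (.thr 46 34 (.thr 62 30 (.thr 2 22 (.dbl 10 6 58))))))) (.rp 48 (.thr 5 53 (.thr 1 9 (.thr 41 61 (.thr 43 40 (.thr 45 33 (.thr 60 30 (.thr 3 22 (.thr 63 23 (.dbl 47 31 32))))))))) (.rp 47 (.thr 14 12 (.thr 26 48 (.thr 10 58 (.thr 2 6 (.thr 22 62 (.thr 18 30 (.dbl 50 34 38))))))) (.rp 32 (.thr 12 14 (.thr 53 5 (.thr 48 26 (.thr 63 58 (.thr 46 29 (.thr 38 34 (.dbl 36 24 39))))))) (.rp 31 (.thr 14 12 (.thr 26 48 (.thr 10 58 (.thr 2 6 (.thr 22 62 (.thr 18 30 (.dbl 50 34 38))))))) (.rp 26 (.thr 12 14 (.thr 47 32 (.thr 63 31 (.thr 29 46 (.thr 61 45 (.thr 1 41 (.dbl 5 9 53))))))) .nd))))))))) (.rp 5 (.thr 32 47 (.thr 25 49 (.thr 29 17 (.thr 45 61 (.thr 33 41 (.thr 34 35 (.thr 38 46 (.thr 12 51 (.thr 15 14 (.thr 48 26 (.dbl 36 24 39))))))))))) (.rp 1 (.thr 49 25 (.str 15 (.nv (.thr 48 26 (.thr 53 5 (.thr 63 58 (.dbl 47 31 32)))) (.nv (.thr 47 32 (.thr 31 63 (.dbl 26 16 48))) (.rp 63 (.thr 14 12 (.thr 26 48 (.thr 38 50 (.thr 46 34 (.thr 62 30 (.thr 2 22 (.dbl 10 6 58))))))) (.rp 48 (.thr 53 5 (.thr 61 57 (.thr 45 29 (.thr 60 30 (.thr 63 62 (.dbl 47 31 32)))))) (.rp 47 (.thr 53 5 (.thr 61 57 (.thr 45 29 (.thr 48 26 (.thr 63 58 (.dbl 60 30 62)))))) (.rp 32 (.thr 53 5 (.thr 61 57 (.thr 45 29 (.thr 48 26 (.thr 63 58 (.dbl 60 30 62)))))) (.rp 31 (.thr 53 5 (.thr 61 57 (.thr 45 29 (.thr 48 26 (.thr 63 58 (.dbl 60 30 62)))))) (.rp 26 (.thr 53 5 (.thr 61 57 (.thr 45 29 (.thr 47 32 (.thr 63 31 (.dbl 60 30 62)))))) (.rp 3 (.str 2 (.nv (.thr 14 12 (.thr 6 10 (.thr 22 62 (.thr 38 54 (.dbl 26 48 50))))) (.nv (.thr 47 32 (.thr 31 63 (.dbl 26 16 48))) (.rp 48 (.thr 53 5 (.thr 61 57 (.thr 45 29 (.thr 62 22 (.dbl 60 30 63))))) (.rp 26 (.thr 53 5 (.thr 61 57 (.thr 45 29 (.thr 62 22 (.dbl 60 30 63))))) .nd))))) (.rp 2 (.str 3 (.nv (.thr 53 5 (.thr 61 57 (.thr 45 29 (.thr 41 33 (.dbl 60 22 30))))) (.nv (.thr 47 32 (.thr 31 63 (.dbl 26 16 48))) .nd))) .nd)))))))))))) .nd)))))))))))) (.rp 43 (.str 49 (.nv (.thr 53 5 (.thr 61 57 (.thr 25 13 (.thr 1 41 (.dbl 17 29 33))))) (.nv (.thr 5 53 (.thr 13 25 (.thr 1 9 (.thr 41 61 (.dbl 33 17 45))))) (.rp 61 (.str 48 (.nv (.thr 25 13 (.thr 51 50 (.thr 59 8 (.thr 55 63 (.dbl 38 4 12))))) (.nv (.thr 47 32 (.thr 15 26 (.thr 63 31 (.dbl 53 5 58)))) (.rp 63 (.thr 51 50 (.thr 25 13 (.thr 38 12 (.thr 39 36 (.dbl 15 26 27))))) .nd)))) (.rp 53 (.thr 47 32 (.thr 25 13 (.thr 17 29 (.thr 33 1 (.thr 45 41 (.thr 46 44 (.thr 38 34 (.thr 51 12 (.thr 48 50 (.thr 15 26 (.dbl 39 27 36))))))))))) (.rp 41 (.thr 53 5 (.thr 57 61 (.thr 25 13 (.thr 59 8 (.thr 58 56 (.thr 48 63 (.dbl 26 10 15))))))) (.rp 33 (.thr 53 5 (.thr 57 61 (.thr 25 13 (.thr 59 8 (.thr 58 56 (.thr 48 63 (.dbl 26 10 15))))))) (.rp 25 (.str 15 (.nv (.thr 47 32 (.thr 48 26 (.thr 53 5 (.dbl 63 31 58)))) (.nv (.thr 47 32 (.thr 31 63 (.dbl 26 16 48))) (.rp 63 (.thr 53 5 (.thr 61 57 (.thr 41 1 (.thr 33 45 (.thr 32 47 (.thr 35 34 (.thr 48 26 (.thr 3 18 (.dbl 51 19 50))))))))) (.rp 48 (.thr 53 5 (.thr 61 57 (.thr 41 1 (.thr 45 33 (.thr 60 30 (.thr 63 62 (.dbl 47 31 32))))))) (.rp 47 (.thr 53 5 (.thr 57 61 (.thr 48 26 (.thr 51 50 (.thr 63 58 (.thr 55 59 (.dbl 54 52 60))))))) (.rp 32 (.thr 53 5 (.thr 57 61 (.thr 48 26 (.thr 51 50 (.thr 63 58 (.thr 55 59 (.dbl 54 52 60))))))) (.rp 31 (.thr 53 5 (.thr 57 61 (.thr 48 26 (.thr 51 50 (.thr 63 58 (.thr 55 59 (.dbl 54 52 60))))))) (.rp 26 (.thr 53 5 (.thr 61 57 (.thr 41 1 (.thr 45 33 (.thr 47 32 (.thr 63 31 (.dbl 60 30 62))))))) .nd))))))))) (.rp 17 (.thr 53 5 (.thr 61 57 (.thr 41 1 (.thr 45 33 (.dbl 13 25 29))))) (.rp 13 (.thr 47 32 (.str 15 (.nv (.thr 48 26 (.thr 53 5 (.dbl 63 31 58))) (.nv (.thr 31 63 (.dbl 26 16 48)) (.rp 63 (.thr 53 5 (.thr 57 61 (.thr 48 26 (.thr 51 50 (.thr 39 27 (.thr 38 36 (.thr 46 34 (.thr 60 54 (.dbl 45 30 44))))))))) (.rp 48 (.str 16 (.nv (.dbl 31 26 63) (.rp 63 (.thr 53 5 (.thr 61 57 (.thr 1 41 (.thr 17 33 (.thr 25 29 (.thr 26 31 (.thr 24 27 (.thr 28 20 (.dbl 19 18 22))))))))) (.rp 31 (.str 41 (.nv (.thr 53 5 (.dbl 61 1 57)) (.nv (.thr 33 45 (.dbl 1 17 61)) (.rp 61 (.thr 45 33 (.thr 46 44 (.thr 30 60 (.thr 62 14 (.thr 22 2 (.thr 20 23 (.thr 28 24 (.thr 19 25 (.dbl 18 17 26))))))))) (.rp 1 (.thr 45 33 (.thr 44 46 (.thr 60 30 (.thr 28 12 (.thr 24 20 (.thr 35 38 (.thr 3 22 (.thr 51 19 (.thr 27 39 (.thr 26 25 (.thr 56 11 (.thr 58 10 (.dbl 57 54 59))))))))))))) .nd))))) (.rp 26 (.thr 53 5 (.thr 61 57 (.thr 63 31 (.thr 60 62 (.thr 45 30 (.dbl 41 1 33)))))) .nd))))) (.rp 31 (.thr 53 5 (.thr 57 61 (.thr 48 26 (.thr 51 50 (.thr 63 58 (.thr 55 59 (.dbl 54 52 60))))))) (.rp 26 (.thr 63 31 (.thr 53 5 (.thr 61 57 (.thr 60 62 (.thr 45 30 (.dbl 41 1 33)))))) .nd)))))))) (.rp 5 (.thr 25 13 (.thr 17 29 (.thr 1 33 (.thr 61 41 (.thr 57 53 (.thr 59 8 (.thr 58 56 (.thr 26 10 (.thr 15 48 (.thr 24 27 (.thr 16 31 (.thr 28 20 (.dbl 19 18 22))))))))))))) (.rp 1 (.thr 53 5 (.thr 57 61 (.thr 25 13 (.thr 9 41 (.thr 59 8 (.thr 58 56 (.thr 48 63 (.dbl 26 10 15)))))))) .nd)))))))))))) (.rp 41 (.str 15 (.nv (.thr 47 32 (.thr 31 63 (.dbl 26 16 48))) (.rp 63 (.str 13 (.nv (.thr 5 53 (.thr 9 1 (.thr 25 49 (.thr 8 59 (.thr 10 11 (.dbl 26 48 58)))))) (.nv (.thr 12 14 (.thr 25 49 (.thr 48 26 (.thr 36 24 (.dbl 38 39 51))))) (.rp 51 (.thr 14 12 (.thr 25 49 (.thr 26 48 (.thr 50 38 (.thr 58 10 (.thr 62 54 (.thr 22 2 (.dbl 30 18 46)))))))) (.rp 49 (.thr 14 12 (.thr 26 48 (.thr 58 10 (.thr 50 38 (.thr 62 54 (.thr 22 2 (.dbl 30 18 46))))))) (.rp 48 (.thr 12 14 (.thr 25 49 (.thr 29 17 (.thr 45 61 (.thr 60 30 (.thr 44 28 (.dbl 47 32 46))))))) (.rp 26 (.thr 14 12 (.thr 47 32 (.thr 25 49 (.thr 29 17 (.thr 45 61 (.thr 46 44 (.dbl 30 60 62))))))) (.rp 25 (.thr 14 12 (.thr 26 48 (.thr 38 50 (.thr 46 34 (.thr 62 30 (.thr 2 22 (.dbl 10 6 58))))))) (.rp 11 (.thr 12 14 (.thr 25 49 (.thr 38 51 (.thr 36 39 (.dbl 48 24 26))))) .nd))))))))) (.rp 48 (.thr 32 47 (.str 25 (.nv (.thr 13 49 (.thr 12 14 (.thr 51 38 (.thr 59 8 (.thr 63 55 (.dbl 29 17 46)))))) (.nv (.thr 29 17 (.thr 13 49 (.thr 12 14 (.thr 46 63 (.dbl 38 34 51))))) (.rp 63 (.thr 29 17 (.thr 13 49 (.thr 14 12 (.thr 45 61 (.thr 30 60 (.thr 62 46 (.thr 28 31 (.dbl 22 2 19)))))))) (.rp 51 (.thr 59 8 (.thr 49 13 (.thr 53 5 (.thr 57 61 (.thr 58 56 (.thr 26 10 (.thr 16 31 (.thr 24 27 (.thr 28 20 (.thr 19 22 (.dbl 17 18 29))))))))))) (.rp 50 (.thr 17 29 (.thr 49 13 (.thr 33 1 (.thr 34 35 (.thr 38 46 (.thr 39 36 (.dbl 51 12 27))))))) (.rp 49 (.thr 8 59 (.str 51 (.nv (.thr 38 12 (.dbl 39 27 36)) (.rp 39 (.thr 29 17 (.thr 12 38 (.thr 46 63 (.thr 14 13 (.thr 30 62 (.thr 60 45 (.dbl 28 31 44))))))) (.rp 38 (.thr 29 17 (.thr 27 39 (.thr 26 24 (.thr 31 16 (.thr 28 30 (.dbl 19 22 23)))))) (.rp 36 (.thr 29 17 (.thr 27 39 (.thr 26 24 (.thr 12 38 (.thr 31 16 (.thr 28 30 (.dbl 19 22 23))))))) (.rp 27 (.thr 29 17 (.thr 12 38 (.thr 46 63 (.thr 14 13 (.thr 30 62 (.thr 60 45 (.dbl 28 31 44))))))) (.rp 24 (.thr 39 27 (.dbl 38 12 36)) (.rp 12 (.str 26 (.nv (.dbl 27 24 39) (.rp 39 (.thr 24 27 (.thr 16 31 (.thr 17 29 (.thr 19 18 (.dbl 28 20 22))))) (.rp 36 (.thr 24 27 (.thr 16 31 (.thr 17 29 (.thr 19 18 (.dbl 28 20 22))))) (.rp 27 (.thr 58 10 (.thr 31 16 (.thr 29 17 (.thr 30 28 (.thr 60 45 (.thr 54 57 (.thr 62 50 (.dbl 22 2 18)))))))) (.rp 24 (.str 36 (.nv (.dbl 39 27 38) (.rp 39 (.thr 16 31 (.thr 17 29 (.thr 18 19 (.thr 30 22 (.thr 58 10 (.thr 60 45 (.thr 54 57 (.thr 50 62 (.thr 34 2 (.dbl 38 14 46)))))))))) (.rp 38 (.thr 31 16 (.thr 29 17 (.thr 28 30 (.thr 19 22 (.dbl 27 23 39))))) (.rp 27 (.thr 38 39 (.thr 34 46 (.thr 16 31 (.thr 50 14 (.thr 18 2 (.dbl 17 19 29)))))) .nd))))) .nd)))))) .nd))))))))) (.rp 46 (.thr 29 17 (.thr 13 49 (.thr 12 14 (.thr 51 38 (.thr 27 39 (.thr 26 24 (.thr 31 16 (.thr 45 61 (.dbl 30 28 60))))))))) (.rp 38 (.thr 29 17 (.thr 13 49 (.thr 14 12 (.thr 45 61 (.thr 30 60 (.thr 28 31 (.thr 22 19 (.dbl 62 2 46)))))))) (.rp 29 (.thr 8 59 (.thr 13 49 (.thr 12 14 (.thr 51 38 (.thr 27 39 (.thr 26 24 (.thr 5 53 (.thr 9 1 (.dbl 10 11 58))))))))) (.rp 17 (.thr 8 59 (.thr 13 49 (.thr 12 14 (.thr 51 38 (.thr 27 39 (.thr 26 24 (.thr 10 58 (.thr 9 11 (.dbl 5 1 53))))))))) (.rp 14 (.thr 17 29 (.thr 49 13 (.thr 33 1 (.thr 34 35 (.thr 38 46 (.thr 39 36 (.dbl 51 12 27))))))) (.rp 13 (.str 26 (.nv (.thr 27 24 (.thr 59 8 (.thr 51 39 (.thr 55 63 (.dbl 38 4 12))))) (.nv (.thr 16 31 (.thr 24 27 (.thr 28 20 (.thr 19 22 (.dbl 17 18 29))))) (.rp 40 (.thr 29 17 (.thr 31 16 (.thr 28 30 (.thr 27 24 (.dbl 19 22 23))))) (.rp 27 (.thr 29 17 (.thr 31 16 (.thr 30 28 (.thr 60 45 (.thr 58 10 (.thr 59 8 (.thr 57 56 (.thr 51 54 (.thr 12 38 (.dbl 63 46 55)))))))))) (.rp 24 (.thr 29 17 (.thr 31 16 (.thr 28 30 (.thr 19 22 (.thr 27 23 (.thr 59 8 (.thr 51 39 (.thr 55 63 (.dbl 38 4 12))))))))) .nd)))))) (.rp 12 (.thr 8 59 (.str 24 (.nv (.thr 27 26 (.thr 39 51 (.thr 36 38 (.dbl 40 44 56)))) (.nv (.thr 26 27 (.thr 16 31 (.thr 28 20 (.thr 19 22 (.dbl 17 18 29))))) (.rp 40 (.thr 17 29 (.thr 26 27 (.thr 16 31 (.thr 19 18 (.dbl 28 20 22))))) (.rp 27 (.thr 29 17 (.thr 13 49 (.thr 45 61 (.thr 30 60 (.thr 28 31 (.thr 20 16 (.dbl 22 19 23))))))) (.rp 26 (.thr 29 17 (.thr 13 49 (.thr 45 61 (.thr 30 60 (.thr 28 31 (.thr 20 16 (.dbl 22 19 23))))))) (.rp 17 (.thr 26 27 (.thr 40 56 (.thr 36 44 (.thr 38 39 (.thr 53 5 (.thr 58 10 (.thr 50 14 (.thr 54 62 (.dbl 55 4 52))))))))) (.rp 11 (.thr 29 17 (.thr 13 49 (.thr 45 61 (.thr 30 60 (.thr 28 31 (.thr 20 16 (.dbl 22 19 23))))))) .nd))))))))) .nd))))))))))))))) (.rp 47 (.str 13 (.nv (.thr 12 14 (.thr 26 48 (.thr 25 49 (.thr 27 24 (.dbl 51 38 39))))) (.nv (.thr 5 53 (.thr 9 1 (.thr 25 49 (.thr 8 59 (.thr 10 11 (.dbl 26 48 58)))))) (.nv (.thr 12 14 (.thr 25 49 (.thr 29 17 (.thr 46 63 (.dbl 38 34 51))))) (.rp 49 (.thr 14 12 (.thr 26 48 (.thr 10 58 (.thr 2 6 (.thr 22 62 (.thr 18 30 (.dbl 50 34 38))))))) (.rp 25 (.thr 14 12 (.thr 26 48 (.thr 10 58 (.thr 2 6 (.thr 22 62 (.thr 18 30 (.dbl 50 34 38))))))) .nd)))))) (.rp 32 (.str 13 (.nv (.thr 12 14 (.thr 25 49 (.thr 29 17 (.thr 46 63 (.dbl 38 34 51))))) (.nv (.thr 5 53 (.thr 9 1 (.thr 25 49 (.thr 8 59 (.thr 10 11 (.dbl 26 48 58)))))) (.nv (.thr 48 26 (.thr 12 14 (.thr 25 49 (.thr 36 24 (.dbl 38 39 51))))) (.rp 49 (.thr 12 14 (.thr 53 5 (.thr 48 26 (.thr 36 24 (.thr 38 39 (.thr 46 34 (.dbl 63 29 58))))))) (.rp 48 (.str 16 (.nv (.thr 12 14 (.thr 25 49 (.thr 29 17 (.thr 46 63 (.dbl 38 34 51))))) (.nv (.thr 25 49 (.thr 29 17 (.thr 31 26 (.thr 30 28 (.dbl 45 60 61))))) (.nv (.thr 12 14 (.thr 31 26 (.thr 63 47 (.thr 29 46 (.thr 30 28 (.dbl 45 60 61)))))) (.nv (.thr 12 14 (.thr 26 31 (.thr 25 49 (.thr 27 24 (.dbl 51 38 39))))) (.rp 50 (.thr 12 14 (.thr 26 31 (.thr 25 49 (.thr 51 38 (.dbl 27 24 39))))) .nd)))))) (.rp 25 (.thr 12 14 (.thr 53 5 (.thr 48 26 (.thr 63 58 (.thr 46 29 (.thr 38 34 (.dbl 36 24 39))))))) .nd))))))) (.rp 31 (.str 13 (.nv (.thr 12 14 (.thr 26 48 (.thr 25 49 (.thr 27 24 (.dbl 51 38 39))))) (.nv (.thr 5 53 (.thr 9 1 (.thr 25 49 (.thr 8 59 (.thr 10 11 (.dbl 26 48 58)))))) (.nv (.thr 12 14 (.thr 25 49 (.thr 29 17 (.thr 46 63 (.dbl 38 34 51))))) (.rp 49 (.thr 14 12 (.thr 26 48 (.thr 10 58 (.thr 2 6 (.thr 22 62 (.thr 18 30 (.dbl 50 34 38))))))) (.rp 25 (.thr 14 12 (.thr 26 48 (.thr 10 58 (.thr 2 6 (.thr 22 62 (.thr 18 30 (.dbl 50 34 38))))))) .nd)))))) (.rp 26 (.str 13 (.nv (.thr 5 53 (.thr 25 49 (.thr 29 17 (.thr 47 32 (.thr 31 63 (.thr 30 28 (.dbl 45 60 61))))))) (.nv (.thr 12 14 (.thr 25 49 (.thr 47 32 (.thr 59 8 (.thr 63 31 (.dbl 51 38 55)))))) (.nv (.thr 12 14 (.thr 25 49 (.thr 29 17 (.thr 46 63 (.dbl 38 34 51))))) (.rp 63 (.thr 14 12 (.thr 47 32 (.thr 25 49 (.thr 29 17 (.thr 45 61 (.thr 46 44 (.dbl 30 60 62))))))) (.rp 56 (.str 11 (.nv (.thr 12 14 (.thr 25 49 (.thr 47 32 (.thr 63 31 (.dbl 29 17 46))))) (.nv (.thr 5 53 (.thr 9 1 (.thr 8 10 (.dbl 25 49 59)))) (.rp 49 (.thr 12 14 (.thr 47 32 (.thr 63 31 (.thr 46 29 (.thr 38 34 (.thr 39 36 (.dbl 51 25 27))))))) (.rp 25 (.thr 12 14 (.thr 47 32 (.thr 63 31 (.thr 46 29 (.thr 38 34 (.thr 39 36 (.thr 55 4 (.dbl 51 27 59)))))))) .nd))))) (.rp 51 (.thr 12 14 (.thr 47 32 (.thr 63 31 (.thr 29 46 (.dbl 25 17 49))))) (.rp 49 (.thr 12 14 (.thr 47 32 (.thr 63 31 (.thr 46 29 (.thr 38 34 (.thr 39 36 (.dbl 51 25 27))))))) (.rp 25 (.thr 12 14 (.thr 47 32 (.thr 63 31 (.thr 46 29 (.thr 38 34 (.thr 39 36 (.thr 55 4 (.dbl 51 27 59)))))))) (.rp 11 (.str 56 (.nv (.thr 5 53 (.thr 25 49 (.thr 29 17 (.thr 47 32 (.thr 31 63 (.thr 30 28 (.dbl 45 60 61))))))) (.nv (.thr 12 14 (.thr 25 49 (.thr 8 59 (.thr 24 40 (.thr 36 48 (.dbl 38 39 51)))))) (.nv (.thr 12 14 (.thr 25 49 (.thr 29 17 (.thr 46 63 (.dbl 38 34 51))))) (.rp 51 (.thr 12 14 (.thr 47 32 (.thr 63 31 (.thr 29 46 (.dbl 25 17 49))))) (.rp 49 (.thr 12 14 (.thr 47 32 (.thr 63 31 (.thr 46 29 (.thr 38 34 (.thr 39 36 (.dbl 51 25 27))))))) (.rp 25 (.thr 53 5 (.thr 47 32 (.thr 63 31 (.thr 48 58 (.thr 60 52 (.thr 45 30 (.dbl 61 29 62))))))) .nd))))))) .nd)))))))))) (.rp 16 (.thr 47 32 (.thr 48 26 (.thr 63 31 (.dbl 53 5 58)))) .nd))))))))) (.rp 40 (.str 13 (.nv (.thr 49 25 (.thr 53 5 (.thr 61 57 (.thr 41 1 (.dbl 45 29 33))))) (.nv (.thr 5 53 (.thr 1 9 (.thr 41 61 (.thr 49 25 (.dbl 33 17 45))))) (.rp 61 (.thr 5 53 (.thr 9 1 (.thr 25 49 (.thr 57 41 (.thr 17 29 (.thr 8 59 (.thr 10 11 (.thr 26 58 (.thr 16 31 (.thr 19 18 (.thr 28 22 (.dbl 24 20 27)))))))))))) (.rp 60 (.str 20 (.nv (.thr 5 53 (.thr 1 9 (.thr 41 61 (.thr 33 45 (.dbl 49 17 25))))) (.nv (.thr 22 23 (.thr 25 49 (.thr 28 19 (.thr 16 24 (.thr 31 26 (.dbl 29 17 30)))))) (.nv (.thr 5 53 (.thr 1 9 (.thr 25 49 (.thr 61 41 (.dbl 29 17 45))))) (.rp 49 (.thr 22 23 (.thr 5 53 (.thr 1 9 (.thr 61 41 (.thr 29 45 (.thr 25 17 (.thr 28 19 (.thr 16 24 (.dbl 31 26 30))))))))) (.rp 25 (.str 15 (.nv (.thr 48 26 (.thr 53 5 (.thr 63 58 (.dbl 47 31 32)))) (.nv (.thr 14 12 (.thr 22 23 (.thr 62 2 (.thr 30 46 (.dbl 26 18 48))))) (.nv (.thr 47 32 (.thr 31 63 (.dbl 26 16 48))) (.rp 63 (.thr 14 12 (.thr 22 23 (.thr 62 2 (.thr 26 48 (.dbl 30 18 46))))) (.rp 48 (.thr 12 14 (.thr 23 22 (.thr 5 53 (.thr 9 1 (.thr 3 6 (.thr 63 43 (.dbl 47 31 32))))))) (.rp 26 (.thr 12 14 (.thr 23 22 (.thr 5 53 (.thr 9 1 (.thr 3 6 (.thr 63 43 (.dbl 47 31 32))))))) .nd))))))) (.rp 17 (.thr 53 5 (.thr 49 25 (.thr 61 57 (.thr 45 29 (.dbl 41 1 33))))) .nd))))))) (.rp 53 (.thr 25 49 (.thr 29 17 (.thr 61 45 (.thr 1 41 (.thr 9 5 (.thr 8 59 (.thr 10 11 (.thr 26 58 (.thr 27 24 (.thr 31 16 (.thr 28 30 (.dbl 19 22 23)))))))))))) (.rp 49 (.str 15 (.nv (.thr 48 26 (.thr 53 5 (.thr 63 58 (.dbl 47 31 32)))) (.nv (.thr 47 32 (.thr 31 63 (.dbl 26 16 48))) (.rp 63 (.thr 14 12 (.thr 26 48 (.thr 58 10 (.thr 50 38 (.thr 62 54 (.thr 22 2 (.dbl 30 18 46))))))) (.rp 60 (.str 20 (.nv (.thr 12 14 (.thr 48 26 (.thr 36 24 (.thr 4 52 (.dbl 38 39 55))))) (.nv (.thr 47 32 (.thr 31 63 (.dbl 26 16 48))) (.rp 48 (.thr 12 14 (.thr 23 22 (.thr 5 53 (.thr 9 1 (.thr 3 6 (.thr 63 43 (.dbl 47 31 32))))))) (.rp 36 (.thr 53 5 (.thr 48 26 (.thr 63 58 (.dbl 47 31 32)))) (.rp 26 (.thr 12 14 (.thr 23 22 (.thr 5 53 (.thr 9 1 (.thr 3 6 (.thr 63 43 (.dbl 47 31 32))))))) .nd)))))) (.rp 48 (.thr 12 14 (.thr 5 53 (.thr 1 9 (.thr 61 41 (.thr 29 45 (.thr 63 46 (.dbl 47 31 32))))))) (.rp 47 (.thr 14 12 (.thr 26 48 (.thr 10 58 (.thr 2 6 (.thr 22 62 (.thr 18 30 (.dbl 50 34 38))))))) (.rp 32 (.thr 12 14 (.thr 53 5 (.thr 48 26 (.thr 36 24 (.thr 38 39 (.thr 46 34 (.dbl 63 29 58))))))) (.rp 31 (.thr 14 12 (.thr 26 48 (.thr 10 58 (.thr 2 6 (.thr 22 62 (.thr 18 30 (.dbl 50 34 38))))))) (.rp 26 (.thr 12 14 (.thr 47 32 (.thr 63 31 (.thr 46 29 (.thr 38 34 (.thr 55 4 (.dbl 51 25 59))))))) (.rp 20 (.str 60 (.nv (.thr 47 32 (.thr 31 63 (.dbl 26 16 48))) (.nv (.thr 45 30 (.thr 41 33 (.dbl 61 1 29))) .nd))) .nd))))))))))) (.rp 45 (.thr 5 53 (.thr 9 1 (.thr 25 49 (.thr 17 29 (.thr 8 59 (.thr 10 11 (.thr 26 58 (.thr 16 31 (.thr 19 18 (.thr 28 22 (.dbl 24 20 27))))))))))) (.rp 41 (.thr 5 53 (.thr 9 1 (.thr 25 49 (.thr 17 29 (.thr 8 59 (.thr 10 11 (.thr 26 58 (.thr 16 31 (.thr 19 18 (.thr 28 22 (.dbl 24 20 27))))))))))) (.rp 33 (.thr 5 53 (.thr 1 9 (.thr 61 41 (.thr 29 45 (.dbl 25 17 49))))) (.rp 25 (.str 15 (.nv (.thr 48 26 (.thr 53 5 (.thr 63 58 (.dbl 47 31 32)))) (.nv (.thr 47 32 (.thr 31 63 (.dbl 26 16 48))) (.rp 63 (.thr 14 12 (.thr 26 48 (.thr 38 50 (.thr 46 34 (.thr 62 30 (.thr 2 22 (.dbl 10 6 58))))))) (.rp 60 (.str 20 (.nv (.thr 48 26 (.thr 53 5 (.thr 63 58 (.dbl 47 31 32)))) (.nv (.thr 14 12 (.thr 22 23 (.thr 62 2 (.thr 30 46 (.dbl 26 18 48))))) (.nv (.thr 47 32 (.thr 31 63 (.dbl 26 16 48))) (.rp 63 (.thr 14 12 (.thr 22 23 (.thr 62 2 (.thr 26 48 (.dbl 30 18 46))))) (.rp 48 (.thr 12 14 (.thr 23 22 (.thr 5 53 (.thr 9 1 (.thr 3 6 (.thr 63 43 (.dbl 47 31 32))))))) (.rp 26 (.thr 12 14 (.thr 23 22 (.thr 5 53 (.thr 9 1 (.thr 3 6 (.thr 63 43 (.dbl 47 31 32))))))) .nd))))))) (.rp 48 (.thr 12 14 (.thr 5 53 (.thr 1 9 (.thr 41 61 (.thr 45 33 (.thr 60 30 (.thr 44 28 (.dbl 47 32 46)))))))) (.rp 47 (.thr 14 12 (.thr 26 48 (.thr 10 58 (.thr 2 6 (.thr 22 62 (.thr 18 30 (.dbl 50 34 38))))))) (.rp 32 (.thr 12 14 (.thr 53 5 (.thr 48 26 (.thr 63 58 (.thr 46 29 (.thr 38 34 (.dbl 36 24 39))))))) (.rp 31 (.thr 14 12 (.thr 26 48 (.thr 10 58 (.thr 2 6 (.thr 22 62 (.thr 18 30 (.dbl 50 34 38))))))) (.rp 26 (.thr 12 14 (.thr 47 32 (.thr 63 31 (.thr 29 46 (.thr 61 45 (.thr 1 41 (.dbl 5 9 53))))))) (.rp 20 (.str 60 (.nv (.thr 47 32 (.thr 31 63 (.dbl 26 16 48))) (.nv (.thr 45 30 (.thr 41 33 (.dbl 61 1 29))) .nd))) .nd))))))))))) (.rp 20 (.str 60 (.nv (.thr 5 53 (.thr 1 9 (.thr 47 32 (.thr 61 41 (.thr 45 29 (.thr 15 30 (.dbl 63 31 62))))))) (.nv (.thr 25 49 (.thr 29 17 (.thr 61 45 (.thr 62 63 (.thr 22 2 (.dbl 41 1 3)))))) (.nv (.thr 5 53 (.thr 1 9 (.thr 25 49 (.thr 61 41 (.dbl 29 17 45))))) (.rp 61 (.thr 5 53 (.thr 9 1 (.thr 25 49 (.thr 57 41 (.thr 59 8 (.thr 51 54 (.thr 55 63 (.dbl 38 4 12)))))))) (.rp 45 (.thr 53 5 (.thr 49 25 (.thr 61 57 (.thr 62 63 (.thr 22 2 (.dbl 41 1 3)))))) (.rp 41 (.thr 53 5 (.thr 49 25 (.thr 57 61 (.thr 51 54 (.thr 48 50 (.thr 56 52 (.dbl 58 59 63))))))) (.rp 29 (.thr 5 53 (.thr 1 9 (.thr 41 61 (.thr 33 45 (.dbl 49 17 25))))) (.rp 25 (.thr 5 53 (.thr 1 9 (.thr 41 61 (.thr 3 22 (.thr 33 45 (.thr 48 18 (.thr 26 15 (.dbl 56 11 52)))))))) (.rp 1 (.thr 53 5 (.thr 47 32 (.thr 49 25 (.thr 61 57 (.thr 45 29 (.thr 15 30 (.dbl 63 31 62))))))) .nd)))))))))) (.rp 5 (.thr 32 47 (.thr 25 49 (.thr 29 17 (.thr 45 61 (.thr 33 41 (.thr 34 35 (.thr 38 46 (.thr 12 51 (.thr 15 14 (.thr 48 26 (.dbl 36 24 39))))))))))) (.rp 1 (.str 15 (.nv (.thr 12 14 (.thr 25 49 (.thr 51 38 (.thr 27 39 (.dbl 26 24 48))))) (.nv (.thr 47 32 (.thr 31 63 (.dbl 26 16 48))) (.rp 60 (.str 20 (.nv (.thr 12 14 (.thr 25 49 (.thr 38 51 (.thr 36 39 (.dbl 4 52 55))))) (.nv (.thr 47 32 (.thr 31 63 (.dbl 26 16 48))) (.rp 48 (.thr 12 14 (.thr 25 49 (.thr 59 8 (.thr 51 38 (.thr 63 55 (.dbl 29 17 46)))))) (.rp 36 (.thr 53 5 (.thr 48 26 (.thr 63 58 (.dbl 47 31 32)))) (.rp 3 (.str 2 (.nv (.thr 14 12 (.thr 26 48 (.dbl 10 6 58))) (.nv (.dbl 22 23 62) (.rp 22 (.str 41 (.nv (.thr 49 25 (.thr 53 5 (.thr 61 57 (.dbl 45 29 33)))) (.nv (.thr 47 32 (.thr 53 5 (.thr 63 31 (.dbl 48 26 58)))) (.nv (.thr 45 33 (.thr 29 61 (.dbl 25 17 49))) .nd)))) .nd)))) (.rp 2 (.str 3 (.nv (.thr 12 14 (.thr 25 49 (.thr 38 51 (.thr 48 26 (.dbl 36 24 39))))) (.nv (.thr 23 22 (.thr 63 43 (.dbl 47 31 32))) .nd))) .nd))))))) (.rp 48 (.thr 12 14 (.thr 25 49 (.thr 59 8 (.thr 51 38 (.thr 63 55 (.dbl 47 31 32)))))) (.rp 26 (.thr 12 14 (.thr 47 32 (.thr 63 31 (.thr 29 46 (.dbl 25 17 49))))) (.rp 20 (.str 60 (.nv (.thr 47 32 (.thr 31 63 (.dbl 26 16 48))) (.nv (.thr 45 30 (.thr 29 61 (.dbl 25 17 49))) (.rp 3 (.str 2 (.nv (.thr 14 12 (.thr 26 48 (.dbl 10 6 58))) (.nv (.thr 25 49 (.thr 45 30 (.dbl 29 17 61))) (.nv (.thr 22 62 (.thr 30 45 (.dbl 26 18 48))) .nd)))) (.rp 2 (.str 3 (.nv (.thr 47 32 (.thr 31 63 (.dbl 26 16 48))) (.nv (.thr 45 30 (.dbl 41 22 33)) .nd))) .nd))))) (.rp 3 (.str 2 (.nv (.thr 14 12 (.thr 6 10 (.thr 22 62 (.thr 38 54 (.dbl 26 48 50))))) (.nv (.thr 47 32 (.thr 31 63 (.dbl 26 16 48))) (.rp 60 (.str 20 (.nv (.thr 14 12 (.thr 26 48 (.dbl 10 6 58))) (.nv (.dbl 22 23 62) (.rp 22 (.str 41 (.nv (.thr 49 25 (.thr 53 5 (.thr 61 57 (.dbl 45 29 33)))) (.nv (.thr 47 32 (.thr 53 5 (.thr 63 31 (.dbl 48 26 58)))) (.nv (.thr 45 33 (.thr 29 61 (.dbl 25 17 49))) .nd)))) .nd)))) (.rp 48 (.thr 14 12 (.thr 6 10 (.thr 22 62 (.thr 38 54 (.thr 34 46 (.dbl 50 18 26)))))) (.rp 26 (.thr 12 14 (.thr 47 32 (.thr 63 31 (.thr 29 46 (.dbl 25 17 49))))) (.rp 20 (.str 60 (.nv (.thr 14 12 (.thr 26 48 (.dbl 10 6 58))) (.nv (.thr 25 49 (.thr 45 30 (.dbl 29 17 61))) (.nv (.thr 22 62 (.thr 30 45 (.dbl 26 18 48))) .nd)))) .nd))))))) (.rp 2 (.str 3 (.nv (.thr 12 14 (.thr 25 49 (.thr 51 38 (.thr 27 39 (.dbl 26 24 48))))) (.nv (.thr 47 32 (.thr 31 63 (.dbl 26 16 48))) (.rp 60 (.str 20 (.nv (.thr 12 14 (.thr 25 49 (.thr 38 51 (.thr 48 26 (.dbl 36 24 39))))) (.nv (.thr 23 22 (.thr 63 43 (.dbl 47 31 32))) .nd))) (.rp 48 (.thr 12 14 (.thr 25 49 (.thr 59 8 (.thr 51 38 (.thr 63 55 (.dbl 47 31 32)))))) (.rp 26 (.thr 12 14 (.thr 47 32 (.thr 63 31 (.thr 29 46 (.dbl 25 17 49))))) (.rp 20 (.str 60 (.nv (.thr 47 32 (.thr 31 63 (.dbl 26 16 48))) (.nv (.thr 45 30 (.dbl 41 22 33)) .nd))) .nd))))))) .nd))))))))) .nd)))))))))))))) (.rp 39 (.str 41 (.nv (.thr 40 43 (.thr 33 45 (.thr 32 47 (.thr 35 34 (.dbl 44 36 38))))) (.nv (.thr 5 53 (.thr 1 61 (.thr 13 9 (.thr 33 45 (.dbl 49 17 25))))) (.rp 55 (.str 23 (.nv (.thr 1 61 (.thr 5 53 (.thr 13 9 (.thr 33 45 (.dbl 49 17 25))))) (.nv (.thr 43 40 (.thr 3 63 (.dbl 22 20 60))) .nd))) (.rp 45 (.str 11 (.nv (.thr 1 61 (.thr 40 43 (.thr 56 26 (.thr 8 24 (.thr 9 10 (.dbl 5 13 53)))))) (.nv (.thr 5 53 (.thr 1 61 (.thr 26 56 (.thr 10 58 (.dbl 9 8 13))))) (.nv (.thr 1 61 (.thr 5 53 (.thr 13 9 (.thr 43 40 (.thr 59 27 (.dbl 25 8 49)))))) (.nv (.thr 26 56 (.thr 10 58 (.thr 8 9 (.thr 59 25 (.dbl 43 27 40))))) (.rp 55 (.str 23 (.nv (.thr 1 61 (.thr 5 53 (.thr 26 56 (.thr 10 58 (.dbl 9 8 13))))) (.nv (.thr 43 40 (.thr 3 63 (.dbl 22 20 60))) (.rp 63 (.thr 43 40 (.thr 26 56 (.thr 31 16 (.dbl 27 19 59)))) (.rp 59 (.thr 53 5 (.thr 43 40 (.thr 63 3 (.thr 58 48 (.dbl 26 10 56))))) .nd))))) (.rp 23 (.str 55 (.nv (.thr 1 61 (.thr 5 53 (.thr 13 9 (.thr 26 56 (.thr 15 48 (.thr 14 12 (.dbl 38 4 50))))))) (.nv (.thr 4 38 (.thr 32 47 (.thr 53 5 (.thr 52 54 (.thr 36 20 (.dbl 40 43 44)))))) (.nv (.thr 26 56 (.thr 10 58 (.thr 8 9 (.thr 59 25 (.dbl 43 27 40))))) .nd)))) (.rp 9 (.thr 53 5 (.thr 43 40 (.thr 59 27 (.thr 56 26 (.thr 57 58 (.dbl 61 1 49)))))) (.rp 8 (.thr 53 5 (.thr 61 1 (.thr 57 49 (.thr 43 40 (.thr 59 27 (.dbl 56 26 58)))))) .nd))))))))) (.rp 33 (.str 15 (.nv (.thr 48 26 (.thr 53 5 (.thr 63 58 (.dbl 47 31 32)))) (.nv (.thr 47 32 (.thr 31 63 (.dbl 26 16 48))) (.rp 63 (.thr 43 40 (.thr 26 48 (.thr 11 56 (.thr 59 27 (.thr 8 25 (.dbl 10 9 58)))))) (.rp 55 (.str 23 (.nv (.thr 47 32 (.thr 48 26 (.thr 53 5 (.dbl 63 31 58)))) (.nv (.thr 43 40 (.thr 3 63 (.dbl 22 20 60))) (.rp 63 (.thr 22 20 (.thr 60 3 (.thr 30 45 (.dbl 26 18 48)))) .nd)))) (.rp 48 (.thr 61 1 (.thr 53 5 (.thr 49 57 (.thr 13 25 (.thr 12 14 (.thr 29 45 (.thr 63 46 (.dbl 47 31 32)))))))) (.rp 47 (.thr 43 40 (.thr 26 48 (.thr 10 58 (.thr 11 56 (.thr 8 9 (.dbl 59 25 27)))))) (.rp 32 (.thr 43 40 (.thr 61 1 (.thr 53 5 (.thr 48 26 (.thr 63 58 (.thr 60 62 (.dbl 3 22 23))))))) (.rp 31 (.thr 43 40 (.thr 26 48 (.thr 10 58 (.thr 11 56 (.thr 8 9 (.dbl 59 25 27)))))) (.rp 26 (.thr 43 40 (.thr 47 32 (.thr 63 31 (.thr 61 1 (.thr 60 62 (.dbl 3 22 23)))))) (.rp 23 (.str 55 (.nv (.thr 48 26 (.thr 53 5 (.thr 63 58 (.dbl 47 31 32)))) (.nv (.thr 47 32 (.thr 31 63 (.dbl 26 16 48))) (.rp 63 (.thr 5 53 (.thr 1 61 (.thr 13 9 (.thr 38 4 (.thr 12 14 (.dbl 25 49 51)))))) (.rp 48 (.thr 5 53 (.thr 1 61 (.thr 13 9 (.thr 38 4 (.thr 12 14 (.dbl 25 49 51)))))) (.rp 47 (.thr 5 53 (.thr 1 61 (.thr 9 13 (.thr 26 48 (.thr 11 56 (.dbl 10 8 58)))))) (.rp 32 (.thr 5 53 (.thr 1 61 (.thr 13 9 (.thr 38 4 (.thr 12 14 (.dbl 25 49 51)))))) (.rp 31 (.thr 5 53 (.thr 1 61 (.thr 9 13 (.thr 26 48 (.thr 11 56 (.dbl 10 8 58)))))) (.rp 26 (.thr 5 53 (.thr 1 61 (.thr 13 9 (.thr 38 4 (.thr 12 14 (.dbl 25 49 51)))))) .nd))))))))) .nd))))))))))) (.rp 23 (.str 55 (.nv (.thr 1 61 (.thr 5 53 (.thr 13 9 (.thr 33 45 (.dbl 49 17 25))))) (.nv (.thr 33 45 (.thr 32 47 (.thr 35 34 (.dbl 38 4 44)))) (.rp 45 (.thr 40 43 (.thr 4 38 (.thr 53 5 (.thr 52 54 (.thr 36 20 (.dbl 32 44 47)))))) (.rp 33 (.thr 40 43 (.thr 4 38 (.thr 53 5 (.thr 52 54 (.thr 36 20 (.dbl 32 44 47)))))) (.rp 17 (.thr 33 45 (.thr 32 47 (.thr 38 4 (.dbl 34 35 46)))) .nd)))))) (.rp 17 (.thr 45 33 (.thr 53 5 (.thr 61 1 (.thr 49 57 (.dbl 13 25 29))))) .nd)))))))) (.rp 38 (.str 13 (.nv (.thr 49 25 (.thr 53 5 (.thr 61 57 (.thr 41 1 (.dbl 45 29 33))))) (.nv (.thr 5 53 (.thr 1 9 (.thr 25 49 (.thr 61 41 (.dbl 29 17 45))))) (.nv (.thr 5 53 (.thr 1 9 (.thr 41 61 (.thr 33 45 (.dbl 49 17 25))))) (.rp 61 (.thr 5 53 (.thr 9 1 (.thr 25 49 (.thr 57 41 (.thr 17 29 (.thr 8 59 (.thr 10 11 (.thr 26 58 (.thr 16 31 (.thr 19 18 (.thr 28 22 (.dbl 24 20 27)))))))))))) (.rp 53 (.thr 25 49 (.thr 29 17 (.thr 61 45 (.thr 1 41 (.thr 9 5 (.thr 8 59 (.thr 10 11 (.thr 26 58 (.thr 27 24 (.thr 31 16 (.thr 28 30 (.dbl 19 22 23)))))))))))) (.rp 49 (.str 15 (.nv (.thr 47 32 (.thr 31 63 (.dbl 26 16 48))) (.rp 63 (.thr 12 14 (.thr 47 32 (.thr 5 53 (.thr 1 9 (.thr 61 41 (.thr 45 29 (.thr 44 46 (.dbl 60 28 30)))))))) (.rp 48 (.thr 12 14 (.thr 5 53 (.thr 1 9 (.thr 61 41 (.thr 29 45 (.thr 63 46 (.dbl 47 31 32))))))) (.rp 47 (.thr 14 12 (.thr 5 53 (.thr 1 9 (.thr 61 41 (.thr 45 29 (.thr 30 60 (.thr 26 48 (.thr 22 18 (.dbl 62 2 46))))))))) (.rp 32 (.thr 5 53 (.thr 1 9 (.thr 61 41 (.thr 45 29 (.thr 60 30 (.thr 63 62 (.thr 31 47 (.dbl 26 16 48)))))))) (.rp 31 (.thr 14 12 (.thr 47 32 (.thr 5 53 (.thr 1 9 (.thr 61 41 (.thr 45 29 (.thr 30 60 (.dbl 46 44 62)))))))) (.rp 26 (.thr 47 32 (.thr 63 31 (.thr 5 53 (.thr 1 9 (.thr 61 41 (.thr 45 29 (.dbl 60 30 62))))))) (.rp 16 (.thr 47 32 (.thr 48 26 (.thr 63 31 (.dbl 53 5 58)))) .nd))))))))) (.rp 45 (.thr 5 53 (.thr 9 1 (.thr 25 49 (.thr 17 29 (.thr 8 59 (.thr 10 11 (.thr 26 58 (.thr 16 31 (.thr 19 18 (.thr 28 22 (.dbl 24 20 27))))))))))) (.rp 41 (.thr 5 53 (.thr 9 1 (.thr 25 49 (.thr 17 29 (.thr 8 59 (.thr 10 11 (.thr 26 58 (.thr 16 31 (.thr 19 18 (.thr 28 22 (.dbl 24 20 27))))))))))) (.rp 25 (.str 12 (.nv (.thr 15 14 (.thr 47 32 (.thr 31 63 (.dbl 26 16 48)))) (.rp 63 (.thr 15 14 (.thr 47 32 (.thr 5 53 (.thr 1 9 (.thr 41 61 (.thr 45 33 (.thr 44 46 (.dbl 60 28 30)))))))) (.rp 50 (.thr 47 32 (.thr 5 53 (.thr 1 9 (.thr 41 61 (.thr 45 33 (.thr 46 44 (.thr 63 29 (.dbl 15 14 31)))))))) (.rp 48 (.thr 15 14 (.thr 5 53 (.thr 1 9 (.thr 41 61 (.thr 45 33 (.thr 60 30 (.thr 44 28 (.dbl 47 32 46)))))))) (.rp 47 (.thr 15 14 (.thr 5 53 (.thr 1 9 (.thr 41 61 (.thr 40 43 (.thr 45 33 (.thr 60 30 (.thr 44 28 (.thr 36 32 (.dbl 48 24 26)))))))))) (.rp 32 (.thr 15 14 (.thr 5 53 (.thr 1 9 (.thr 41 61 (.thr 43 40 (.thr 45 33 (.thr 60 30 (.thr 3 22 (.thr 63 23 (.thr 47 31 (.dbl 46 29 44))))))))))) (.rp 31 (.thr 15 14 (.thr 47 32 (.thr 5 53 (.thr 1 9 (.thr 41 61 (.thr 45 33 (.thr 44 46 (.dbl 60 28 30)))))))) (.rp 26 (.thr 47 32 (.thr 5 53 (.thr 1 9 (.thr 41 61 (.thr 45 33 (.thr 46 44 (.thr 63 29 (.dbl 15 14 31)))))))) (.rp 16 (.thr 15 14 (.thr 32 47 (.thr 5 53 (.thr 1 9 (.thr 41 61 (.thr 40 43 (.thr 36 44 (.dbl 48 24 26)))))))) (.rp 15 (.thr 5 53 (.thr 9 1 (.thr 3 6 (.str 22 (.nv (.thr 41 60 (.thr 45 33 (.thr 29 61 (.thr 47 32 (.dbl 46 44 63))))) (.nv (.thr 23 20 (.thr 60 41 (.thr 62 2 (.dbl 63 43 61)))) (.nv (.thr 23 20 (.thr 43 63 (.dbl 41 40 60))) (.rp 63 (.thr 47 32 (.str 48 (.nv (.thr 20 23 (.thr 24 36 (.thr 28 16 (.dbl 60 41 44)))) (.nv (.thr 33 18 (.dbl 41 45 60)) (.rp 60 (.thr 20 23 (.thr 24 36 (.thr 16 28 (.thr 26 31 (.dbl 18 30 33))))) (.rp 41 (.thr 20 23 (.thr 24 36 (.thr 16 28 (.thr 26 31 (.dbl 18 30 33))))) .nd)))))) (.rp 60 (.str 45 (.nv (.thr 2 62 (.thr 32 47 (.thr 33 41 (.thr 18 48 (.dbl 34 35 50))))) (.nv (.thr 29 61 (.thr 63 46 (.dbl 23 20 43))) (.rp 63 (.thr 47 32 (.thr 33 41 (.thr 20 23 (.thr 62 2 (.thr 29 61 (.thr 48 18 (.thr 24 36 (.thr 28 16 (.thr 30 31 (.dbl 46 14 44)))))))))) (.rp 61 (.thr 47 32 (.thr 46 44 (.thr 63 29 (.dbl 23 20 43)))) (.rp 40 (.thr 20 23 (.thr 47 32 (.thr 29 61 (.dbl 46 44 63)))) (.rp 20 (.str 40 (.nv (.thr 29 61 (.thr 47 32 (.dbl 46 44 63))) (.nv (.dbl 41 33 43) .nd))) .nd))))))) (.rp 41 (.thr 23 20 (.thr 62 2 (.thr 63 43 (.thr 29 46 (.dbl 61 45 60))))) (.rp 20 (.thr 47 32 (.thr 41 60 (.thr 40 43 (.thr 45 33 (.thr 46 44 (.dbl 29 61 63)))))) .nd))))))))))) (.rp 14 (.thr 47 32 (.thr 5 53 (.thr 1 9 (.thr 41 61 (.thr 45 33 (.thr 44 46 (.thr 60 28 (.thr 22 3 (.thr 62 2 (.thr 15 30 (.thr 31 63 (.dbl 26 16 48)))))))))))) .nd)))))))))))) (.rp 5 (.thr 47 32 (.thr 25 49 (.thr 29 17 (.thr 45 61 (.thr 46 44 (.thr 12 63 (.thr 15 14 (.thr 8 59 (.thr 26 48 (.thr 16 31 (.thr 24 27 (.thr 40 56 (.dbl 41 33 43))))))))))))) (.rp 1 (.str 15 (.nv (.thr 47 32 (.thr 31 63 (.dbl 26 16 48))) (.rp 63 (.thr 25 49 (.thr 17 29 (.thr 26 48 (.thr 24 27 (.thr 16 31 (.thr 28 20 (.dbl 19 18 22))))))) (.rp 48 (.thr 12 14 (.thr 53 5 (.thr 49 25 (.thr 61 57 (.thr 29 45 (.thr 63 46 (.dbl 47 31 32))))))) (.rp 47 (.thr 53 5 (.thr 49 25 (.thr 61 57 (.thr 45 29 (.thr 60 30 (.thr 63 62 (.dbl 48 26 58))))))) (.rp 32 (.thr 12 14 (.thr 53 5 (.thr 49 25 (.thr 61 57 (.thr 29 45 (.thr 63 46 (.dbl 48 26 58))))))) (.rp 31 (.thr 12 14 (.thr 53 5 (.thr 49 25 (.thr 61 57 (.thr 29 45 (.thr 63 46 (.dbl 48 26 58))))))) (.rp 26 (.thr 47 32 (.thr 63 31 (.thr 53 5 (.thr 49 25 (.thr 61 57 (.thr 45 29 (.dbl 60 30 62))))))) (.rp 16 (.thr 47 32 (.thr 48 26 (.thr 63 31 (.dbl 53 5 58)))) (.rp 3 (.str 2 (.nv (.thr 14 12 (.thr 26 48 (.dbl 10 6 58))) (.nv (.thr 47 32 (.thr 31 63 (.dbl 26 16 48))) (.rp 48 (.thr 14 12 (.thr 62 22 (.thr 30 46 (.thr 60 45 (.thr 63 61 (.dbl 47 31 32)))))) (.rp 32 (.thr 14 12 (.thr 26 48 (.thr 16 31 (.dbl 10 6 58)))) (.rp 26 (.thr 14 12 (.thr 47 32 (.thr 63 31 (.thr 62 22 (.thr 30 46 (.dbl 60 45 61)))))) (.rp 16 (.thr 14 12 (.thr 32 47 (.thr 26 48 (.dbl 10 6 58)))) .nd))))))) (.rp 2 (.str 3 (.nv (.thr 25 49 (.thr 48 26 (.thr 33 18 (.thr 45 41 (.dbl 29 17 61))))) (.nv (.thr 47 32 (.thr 31 63 (.dbl 26 16 48))) (.rp 48 (.thr 53 5 (.thr 49 25 (.thr 61 57 (.thr 45 29 (.thr 41 33 (.dbl 60 22 30)))))) (.rp 26 (.thr 47 32 (.thr 63 31 (.thr 43 23 (.thr 41 40 (.thr 45 33 (.dbl 60 22 30)))))) .nd))))) .nd))))))))))) .nd)))))))))))) (.rp 36 (.str 13 (.nv (.thr 49 25 (.thr 53 5 (.thr 61 57 (.thr 41 1 (.dbl 45 29 33))))) (.nv (.thr 5 53 (.thr 1 9 (.thr 41 61 (.thr 49 25 (.dbl 33 17 45))))) (.rp 61 (.thr 5 53 (.thr 9 1 (.thr 25 49 (.thr 57 41 (.thr 59 8 (.thr 58 56 (.thr 26 10 (.thr 15 48 (.thr 12 14 (.thr 51 38 (.dbl 27 24 39))))))))))) (.rp 53 (.thr 25 49 (.thr 29 17 (.thr 61 45 (.thr 1 41 (.thr 9 5 (.thr 8 59 (.thr 10 11 (.thr 26 58 (.thr 27 24 (.thr 31 16 (.thr 28 30 (.dbl 19 22 23)))))))))))) (.rp 49 (.str 15 (.nv (.thr 48 26 (.thr 53 5 (.thr 63 58 (.dbl 47 31 32)))) (.nv (.thr 47 32 (.thr 31 63 (.dbl 26 16 48))) (.rp 63 (.thr 12 14 (.thr 47 32 (.thr 5 53 (.thr 1 9 (.thr 61 41 (.thr 45 29 (.thr 44 46 (.dbl 60 28 30)))))))) (.rp 48 (.thr 12 14 (.thr 5 53 (.thr 1 9 (.thr 61 41 (.thr 29 45 (.thr 63 46 (.dbl 47 31 32))))))) (.rp 47 (.thr 12 14 (.thr 5 53 (.thr 1 9 (.thr 61 41 (.thr 29 45 (.thr 25 17 (.thr 46 63 (.dbl 38 34 51)))))))) (.rp 32 (.thr 12 14 (.thr 5 53 (.thr 1 9 (.thr 61 41 (.thr 29 45 (.thr 25 17 (.thr 46 63 (.dbl 38 34 51)))))))) (.rp 31 (.thr 14 12 (.thr 47 32 (.thr 5 53 (.thr 1 9 (.thr 61 41 (.thr 45 29 (.thr 30 60 (.dbl 46 44 62)))))))) (.rp 26 (.thr 12 14 (.thr 47 32 (.thr 63 31 (.thr 46 29 (.thr 38 34 (.thr 55 4 (.dbl 51 25 59))))))) .nd))))))))) (.rp 45 (.thr 5 53 (.thr 9 1 (.thr 25 49 (.thr 17 29 (.thr 8 59 (.thr 10 11 (.thr 26 58 (.thr 16 31 (.thr 19 18 (.thr 28 22 (.dbl 24 20 27))))))))))) (.rp 41 (.thr 5 53 (.thr 9 1 (.thr 25 49 (.thr 17 29 (.thr 8 59 (.thr 10 11 (.thr 26 58 (.thr 16 31 (.thr 19 18 (.thr 28 22 (.dbl 24 20 27))))))))))) (.rp 33 (.thr 5 53 (.thr 1 9 (.thr 61 41 (.thr 29 45 (.dbl 25 17 49))))) (.rp 25 (.thr 47 32 (.thr 5 53 (.thr 1 9 (.thr 41 61 (.thr 45 33 (.thr 44 46 (.thr 43 40 (.dbl 35 38 39)))))))) (.rp 5 (.thr 32 47 (.thr 25 49 (.thr 29 17 (.thr 45 61 (.thr 33 41 (.thr 34 35 (.thr 38 46 (.thr 12 51 (.thr 15 14 (.thr 30 60 (.thr 31 28 (.dbl 26 16 48)))))))))))) (.rp 1 (.thr 47 32 (.thr 53 5 (.thr 49 25 (.thr 61 57 (.thr 45 29 (.thr 44 46 (.thr 41 33 (.thr 43 40 (.dbl 35 38 39))))))))) .nd)))))))))))) (.rp 35 (.str 13 (.nv (.thr 49 25 (.thr 53 5 (.thr 61 57 (.thr 41 1 (.dbl 45 29 33))))) (.nv (.thr 5 53 (.thr 1 9 (.thr 41 61 (.thr 49 25 (.dbl 33 17 45))))) (.rp 61 (.thr 5 53 (.thr 9 1 (.thr 25 49 (.thr 57 41 (.thr 17 29 (.thr 8 59 (.thr 10 11 (.thr 26 58 (.thr 16 31 (.thr 19 18 (.thr 28 22 (.dbl 24 20 27)))))))))))) (.rp 53 (.thr 25 49 (.thr 29 17 (.thr 61 45 (.thr 1 41 (.thr 9 5 (.thr 8 59 (.thr 10 11 (.thr 26 58 (.thr 27 24 (.thr 31 16 (.thr 28 30 (.dbl 19 22 23)))))))))))) (.rp 49 (.str 15 (.nv (.thr 48 26 (.thr 53 5 (.thr 63 58 (.dbl 47 31 32)))) (.nv (.thr 47 32 (.thr 31 63 (.dbl 26 16 48))) (.rp 63 (.thr 14 12 (.thr 26 48 (.thr 58 10 (.thr 50 38 (.thr 62 54 (.thr 22 2 (.dbl 30 18 46))))))) (.rp 48 (.thr 12 14 (.thr 5 53 (.thr 1 9 (.thr 61 41 (.thr 29 45 (.thr 63 46 (.dbl 47 31 32))))))) (.rp 47 (.thr 14 12 (.thr 26 48 (.thr 10 58 (.thr 2 6 (.thr 22 62 (.thr 18 30 (.dbl 50 34 38))))))) (.rp 32 (.thr 12 14 (.thr 53 5 (.thr 48 26 (.thr 36 24 (.thr 38 39 (.thr 63 58 (.dbl 46 29 34))))))) (.rp 31 (.thr 14 12 (.thr 26 48 (.thr 10 58 (.thr 2 6 (.thr 22 62 (.thr 18 30 (.dbl 50 34 38))))))) (.rp 26 (.thr 12 14 (.thr 47 32 (.thr 63 31 (.thr 29 46 (.thr 25 17 (.thr 59 8 (.dbl 51 38 55))))))) .nd))))))))) (.rp 45 (.thr 5 53 (.thr 9 1 (.thr 25 49 (.thr 17 29 (.thr 8 59 (.thr 10 11 (.thr 26 58 (.thr 16 31 (.thr 19 18 (.thr 28 22 (.dbl 24 20 27))))))))))) (.rp 41 (.thr 5 53 (.thr 9 1 (.thr 25 49 (.thr 17 29 (.thr 8 59 (.thr 10 11 (.thr 26 58 (.thr 16 31 (.thr 19 18 (.thr 28 22 (.dbl 24 20 27))))))))))) (.rp 33 (.thr 5 53 (.thr 1 9 (.thr 61 41 (.thr 29 45 (.dbl 25 17 49))))) (.rp 25 (.str 15 (.nv (.thr 48 26 (.thr 53 5 (.thr 63 58 (.dbl 47 31 32)))) (.nv (.thr 47 32 (.thr 31 63 (.dbl 26 16 48))) (.rp 63 (.thr 14 12 (.thr 26 48 (.thr 38 50 (.thr 46 34 (.thr 62 30 (.thr 2 22 (.dbl 10 6 58))))))) (.rp 48 (.thr 12 14 (.thr 5 53 (.thr 1 9 (.thr 41 61 (.thr 45 33 (.thr 60 30 (.thr 44 28 (.dbl 47 32 46)))))))) (.rp 47 (.thr 14 12 (.thr 26 48 (.thr 10 58 (.thr 2 6 (.thr 22 62 (.thr 18 30 (.dbl 50 34 38))))))) (.rp 32 (.thr 14 12 (.thr 26 48 (.thr 16 31 (.thr 10 58 (.thr 2 6 (.thr 22 62 (.thr 18 30 (.dbl 50 34 38)))))))) (.rp 31 (.thr 14 12 (.thr 26 48 (.thr 10 58 (.thr 2 6 (.thr 22 62 (.thr 18 30 (.dbl 50 34 38))))))) (.rp 26 (.thr 12 14 (.thr 47 32 (.thr 63 31 (.thr 29 46 (.thr 61 45 (.thr 1 41 (.dbl 5 9 53))))))) .nd))))))))) (.rp 5 (.thr 47 32 (.thr 25 49 (.thr 29 17 (.thr 45 61 (.thr 46 44 (.thr 12 63 (.dbl 38 34 51))))))) (.rp 1 (.thr 25 49 (.thr 17 29 (.str 15 (.nv (.thr 47 32 (.thr 48 26 (.thr 53 5 (.dbl 63 31 58)))) (.nv (.thr 12 14 (.thr 38 51 (.thr 48 26 (.dbl 36 24 39)))) (.rp 48 (.thr 59 8 (.thr 12 14 (.thr 51 38 (.thr 63 55 (.dbl 47 31 32))))) (.rp 26 (.thr 59 8 (.thr 12 14 (.thr 47 32 (.thr 63 31 (.dbl 51 38 55))))) (.rp 3 (.str 2 (.nv (.thr 53 5 (.thr 48 26 (.thr 63 58 (.dbl 47 31 32)))) (.nv (.thr 12 14 (.thr 48 26 (.thr 36 24 (.dbl 38 39 51)))) (.rp 51 (.str 19 (.nv (.thr 16 18 (.dbl 26 31 48)) (.nv (.dbl 22 28 62) (.rp 50 (.thr 48 26 (.dbl 22 28 62)) (.rp 48 (.str 50 (.nv (.thr 32 47 (.dbl 22 28 62)) (.nv (.dbl 18 16 34) (.rp 32 (.thr 16 18 (.str 33 (.nv (.thr 14 12 (.dbl 26 31 38)) (.nv (.dbl 22 28 62) .nd)))) (.rp 18 (.str 33 (.nv (.thr 14 12 (.thr 26 38 (.dbl 10 6 58))) (.nv (.dbl 22 28 62) (.rp 32 (.str 16 (.nv (.thr 14 12 (.dbl 26 31 38)) (.nv (.dbl 22 28 62) .nd))) (.rp 16 (.thr 32 47 (.dbl 22 28 62)) .nd))))) .nd))))) .nd))))) (.rp 48 (.thr 22 62 (.thr 23 20 (.thr 19 28 (.thr 31 27 (.dbl 47 32 63))))) (.rp 26 (.thr 22 62 (.thr 47 32 (.thr 31 63 (.thr 23 20 (.dbl 19 27 28))))) (.rp 19 (.str 51 (.nv (.thr 26 48 (.dbl 27 24 39)) (.nv (.dbl 12 14 38) .nd))) .nd))))))) (.rp 2 (.str 3 (.nv (.thr 12 14 (.thr 38 51 (.thr 48 26 (.dbl 36 24 39)))) (.nv (.thr 47 32 (.thr 31 63 (.dbl 26 16 48))) (.rp 48 (.thr 59 8 (.thr 12 14 (.thr 51 38 (.thr 63 55 (.dbl 47 31 32))))) (.rp 26 (.thr 59 8 (.thr 12 14 (.thr 47 32 (.thr 63 31 (.dbl 51 38 55))))) (.rp 12 (.thr 53 5 (.thr 47 32 (.thr 63 31 (.dbl 48 26 58)))) .nd)))))) .nd))))))))) .nd)))))))))))) (.rp 34 (.str 41 (.nv (.thr 43 40 (.thr 45 33 (.thr 47 32 (.thr 35 39 (.dbl 44 38 46))))) (.nv (.thr 5 53 (.thr 1 61 (.thr 13 9 (.thr 33 45 (.dbl 49 17 25))))) (.rp 51 (.str 17 (.nv (.thr 1 61 (.thr 5 53 (.thr 13 9 (.dbl 25 29 49)))) (.nv (.thr 33 45 (.dbl 1 49 61)) (.rp 61 (.thr 33 45 (.thr 49 1 (.dbl 25 13 29))) (.rp 49 (.thr 45 33 (.thr 29 25 (.dbl 61 1 13))) (.rp 1 (.thr 45 33 (.thr 43 40 (.thr 47 32 (.thr 35 39 (.dbl 44 38 46))))) .nd)))))) (.rp 45 (.thr 5 53 (.thr 1 61 (.thr 13 9 (.thr 49 25 (.str 48 (.nv (.thr 15 26 (.thr 33 17 (.thr 51 50 (.thr 43 40 (.thr 47 32 (.thr 63 31 (.dbl 3 18 23))))))) (.nv (.thr 32 47 (.thr 15 26 (.thr 12 14 (.thr 40 43 (.dbl 36 24 44))))) (.nv (.thr 33 17 (.thr 51 50 (.thr 43 40 (.thr 47 32 (.thr 35 39 (.dbl 3 18 19)))))) (.nv (.thr 15 26 (.thr 43 40 (.thr 47 32 (.thr 39 35 (.thr 33 17 (.dbl 51 27 50)))))) (.rp 51 (.thr 17 33 (.thr 32 47 (.thr 15 26 (.thr 12 14 (.thr 40 43 (.dbl 36 24 44)))))) (.rp 50 (.thr 47 32 (.thr 15 26 (.thr 63 31 (.thr 43 40 (.thr 3 23 (.dbl 33 17 18)))))) (.rp 47 (.thr 33 17 (.thr 51 50 (.thr 26 15 (.thr 43 40 (.thr 11 56 (.thr 59 27 (.thr 63 55 (.dbl 3 18 23)))))))) (.rp 44 (.thr 47 32 (.thr 15 26 (.thr 63 31 (.thr 51 50 (.thr 55 59 (.thr 38 4 (.dbl 39 27 36))))))) (.rp 43 (.thr 47 32 (.thr 15 26 (.thr 63 31 (.thr 51 50 (.thr 55 59 (.thr 38 4 (.dbl 39 27 36))))))) (.rp 40 (.thr 47 32 (.thr 15 26 (.thr 63 31 (.thr 51 50 (.thr 55 59 (.thr 38 4 (.dbl 39 27 36))))))) (.rp 36 (.thr 33 17 (.thr 51 50 (.thr 26 15 (.thr 43 40 (.thr 11 56 (.thr 59 27 (.thr 63 55 (.dbl 3 18 23)))))))) (.rp 32 (.thr 33 17 (.thr 51 50 (.thr 26 15 (.thr 43 40 (.thr 11 56 (.thr 59 27 (.thr 63 55 (.dbl 3 18 23)))))))) (.rp 17 (.thr 51 50 (.thr 47 32 (.thr 15 26 (.thr 43 40 (.dbl 39 27 35))))) .nd)))))))))))))))))) (.rp 33 (.thr 43 40 (.thr 47 32 (.thr 35 39 (.thr 44 38 (.thr 45 46 (.thr 61 1 (.thr 13 29 (.thr 53 5 (.dbl 49 25 57))))))))) (.rp 17 (.str 51 (.nv (.thr 53 5 (.thr 61 1 (.thr 49 57 (.thr 48 50 (.thr 58 63 (.dbl 26 10 15)))))) (.nv (.thr 43 40 (.thr 47 32 (.thr 35 39 (.thr 44 38 (.dbl 45 33 46))))) (.rp 48 (.thr 45 33 (.thr 53 5 (.thr 61 1 (.thr 49 57 (.dbl 13 25 29))))) .nd)))) .nd))))))) (.rp 33 (.str 15 (.nv (.thr 48 26 (.thr 53 5 (.thr 63 58 (.dbl 47 31 32)))) (.nv (.thr 47 32 (.thr 31 63 (.dbl 26 16 48))) (.rp 63 (.str 13 (.nv (.thr 12 14 (.thr 48 26 (.thr 36 24 (.thr 38 39 (.dbl 25 49 51))))) (.nv (.thr 5 53 (.thr 1 9 (.thr 25 49 (.thr 61 41 (.dbl 29 17 45))))) (.rp 49 (.thr 14 12 (.thr 26 48 (.thr 58 10 (.thr 50 38 (.thr 62 54 (.thr 22 2 (.dbl 30 18 46))))))) (.rp 48 (.thr 53 5 (.thr 49 25 (.thr 61 57 (.thr 45 29 (.thr 30 60 (.thr 14 12 (.thr 46 62 (.dbl 47 32 44)))))))) (.rp 25 (.thr 14 12 (.thr 26 48 (.thr 38 50 (.thr 46 34 (.thr 62 30 (.thr 2 22 (.dbl 10 6 58))))))) .nd)))))) (.rp 48 (.thr 32 47 (.str 13 (.nv (.thr 5 53 (.thr 1 9 (.thr 61 41 (.thr 29 45 (.dbl 25 17 49))))) (.nv (.thr 12 14 (.thr 25 49 (.thr 51 38 (.thr 59 8 (.thr 63 55 (.dbl 29 17 46)))))) (.nv (.thr 5 53 (.thr 1 9 (.thr 25 49 (.thr 61 41 (.dbl 29 17 45))))) (.rp 63 (.thr 12 14 (.thr 53 5 (.thr 49 25 (.thr 61 57 (.thr 45 29 (.thr 41 1 (.thr 40 43 (.thr 44 36 (.dbl 60 28 30))))))))) (.rp 49 (.thr 12 14 (.thr 5 53 (.thr 1 9 (.thr 61 41 (.thr 29 45 (.thr 25 17 (.thr 59 8 (.thr 51 38 (.dbl 63 46 55))))))))) (.rp 29 (.thr 12 14 (.thr 5 53 (.thr 25 49 (.thr 59 8 (.thr 51 38 (.thr 27 39 (.thr 43 11 (.thr 41 40 (.dbl 9 1 57))))))))) (.rp 25 (.thr 12 14 (.thr 5 53 (.thr 1 9 (.thr 41 61 (.thr 40 43 (.thr 44 36 (.thr 60 28 (.thr 30 45 (.thr 22 3 (.thr 18 26 (.thr 2 62 (.thr 34 50 (.dbl 38 35 46))))))))))))) (.rp 18 (.str 3 (.nv (.thr 5 53 (.thr 1 9 (.thr 25 49 (.thr 29 17 (.dbl 61 41 45))))) (.nv (.thr 12 14 (.thr 9 6 (.dbl 5 1 53))) (.rp 53 (.thr 12 14 (.thr 25 49 (.thr 59 8 (.thr 51 38 (.thr 63 55 (.dbl 29 17 46)))))) (.rp 9 (.thr 12 14 (.thr 25 49 (.thr 59 8 (.thr 51 38 (.thr 63 55 (.dbl 29 17 46)))))) (.rp 5 (.thr 12 14 (.thr 25 49 (.thr 59 8 (.thr 51 38 (.thr 63 55 (.dbl 29 17 46)))))) (.rp 1 (.thr 53 5 (.thr 49 25 (.thr 61 57 (.thr 45 29 (.thr 60 30 (.thr 62 63 (.dbl 22 2 41))))))) .nd))))))) (.rp 17 (.thr 53 5 (.thr 49 25 (.thr 61 57 (.thr 45 29 (.thr 41 1 (.thr 60 30 (.thr 62 63 (.dbl 22 2 3)))))))) (.rp 3 (.str 18 (.nv (.thr 12 14 (.thr 25 49 (.thr 17 29 (.thr 16 19 (.thr 26 31 (.thr 27 24 (.dbl 51 38 39))))))) (.nv (.thr 5 53 (.thr 1 9 (.thr 61 41 (.thr 29 45 (.dbl 25 17 49))))) (.nv (.thr 12 14 (.thr 25 49 (.thr 51 38 (.thr 59 8 (.thr 63 55 (.dbl 29 17 46)))))) (.rp 49 (.thr 5 53 (.thr 1 9 (.thr 61 41 (.thr 45 29 (.thr 30 60 (.thr 22 26 (.thr 62 2 (.dbl 14 12 46)))))))) (.rp 29 (.thr 12 14 (.thr 25 49 (.thr 51 38 (.thr 27 39 (.thr 26 24 (.thr 22 30 (.thr 31 16 (.dbl 19 23 28)))))))) (.rp 25 (.thr 12 14 (.thr 5 53 (.thr 1 9 (.thr 41 61 (.thr 40 43 (.thr 44 36 (.thr 60 28 (.thr 30 45 (.thr 22 26 (.thr 2 62 (.thr 34 50 (.dbl 38 35 46)))))))))))) (.rp 17 (.thr 14 12 (.thr 49 25 (.thr 53 5 (.thr 61 57 (.thr 45 29 (.thr 30 60 (.thr 22 26 (.dbl 62 2 46)))))))) (.rp 12 (.thr 25 49 (.thr 17 29 (.thr 16 19 (.thr 26 31 (.thr 8 59 (.thr 10 58 (.thr 9 11 (.dbl 5 1 53)))))))) (.rp 2 (.str 1 (.nv (.thr 25 49 (.thr 29 17 (.dbl 61 41 45))) (.nv (.dbl 5 9 53) .nd))) (.rp 1 (.str 2 (.nv (.thr 14 12 (.thr 50 34 (.thr 26 38 (.dbl 10 6 58)))) (.nv (.thr 14 12 (.thr 22 62 (.thr 26 30 (.dbl 10 6 58)))) (.nv (.thr 22 62 (.thr 25 49 (.thr 17 29 (.dbl 19 16 28)))) (.rp 49 (.str 17 (.nv (.thr 50 34 (.thr 14 12 (.thr 22 62 (.dbl 26 30 38)))) (.nv (.thr 14 12 (.thr 50 34 (.thr 26 38 (.dbl 10 6 58)))) (.nv (.thr 25 29 (.thr 19 16 (.dbl 22 28 62))) (.rp 50 (.str 51 (.nv (.thr 16 19 (.thr 22 62 (.dbl 26 30 31))) (.nv (.thr 25 29 (.dbl 12 14 38)) .nd))) .nd))))) (.rp 17 (.thr 49 25 (.thr 14 12 (.thr 34 50 (.thr 62 22 (.dbl 46 30 38))))) .nd)))))) .nd))))))))))) (.rp 1 (.thr 12 14 (.thr 25 49 (.thr 17 29 (.thr 59 8 (.thr 51 38 (.thr 27 39 (.thr 26 24 (.thr 58 10 (.thr 56 57 (.dbl 11 41 43)))))))))) .nd))))))))))))) (.rp 47 (.str 13 (.nv (.thr 12 14 (.thr 48 26 (.thr 36 24 (.thr 38 39 (.dbl 25 49 51))))) (.nv (.thr 5 53 (.thr 1 9 (.thr 25 49 (.thr 61 41 (.dbl 29 17 45))))) (.rp 49 (.thr 14 12 (.thr 26 48 (.thr 10 58 (.thr 2 6 (.thr 22 62 (.thr 18 30 (.dbl 50 34 38))))))) (.rp 25 (.thr 14 12 (.thr 26 48 (.thr 10 58 (.thr 2 6 (.thr 22 62 (.thr 18 30 (.dbl 50 34 38))))))) .nd))))) (.rp 32 (.thr 48 26 (.thr 5 53 (.str 13 (.nv (.thr 12 14 (.thr 36 24 (.thr 38 39 (.dbl 25 49 51)))) (.nv (.thr 25 49 (.thr 1 9 (.thr 29 17 (.dbl 61 41 45)))) (.rp 51 (.thr 25 49 (.thr 1 9 (.thr 61 41 (.dbl 29 17 45)))) (.rp 49 (.thr 1 9 (.thr 61 41 (.thr 29 45 (.thr 25 17 (.thr 12 14 (.thr 36 24 (.dbl 38 39 51))))))) (.rp 35 (.str 34 (.nv (.thr 1 9 (.thr 25 49 (.thr 29 17 (.dbl 61 41 45)))) (.nv (.thr 12 14 (.thr 38 46 (.dbl 36 24 39))) .nd))) (.rp 34 (.str 35 (.nv (.thr 12 14 (.thr 36 24 (.thr 38 39 (.dbl 25 49 51)))) (.nv (.thr 1 9 (.thr 25 49 (.thr 61 41 (.dbl 29 17 45)))) (.rp 51 (.str 17 (.nv (.dbl 25 29 49) (.rp 49 (.thr 1 9 (.thr 61 41 (.dbl 29 25 45))) (.rp 29 (.thr 1 9 (.thr 41 61 (.thr 43 40 (.thr 39 47 (.dbl 38 36 44))))) (.rp 25 (.thr 1 9 (.thr 41 61 (.thr 43 40 (.thr 39 47 (.dbl 38 36 44))))) .nd))))) (.rp 49 (.thr 1 9 (.thr 12 14 (.thr 36 24 (.thr 38 39 (.dbl 41 44 61))))) (.rp 25 (.thr 1 9 (.thr 41 61 (.thr 43 40 (.thr 39 47 (.dbl 38 36 44))))) (.rp 17 (.str 51 (.nv (.dbl 49 25 50) (.rp 50 (.thr 25 49 (.thr 1 9 (.dbl 12 14 38))) (.rp 49 (.thr 1 9 (.thr 39 27 (.thr 43 47 (.dbl 41 40 61)))) (.rp 25 (.thr 3 19 (.thr 12 14 (.dbl 9 1 6))) .nd))))) .nd))))))) (.rp 25 (.thr 1 9 (.thr 41 61 (.thr 40 43 (.thr 12 14 (.thr 24 36 (.thr 56 8 (.thr 60 52 (.thr 28 44 (.thr 20 16 (.dbl 22 3 23)))))))))) .nd)))))))))) (.rp 31 (.str 13 (.nv (.thr 12 14 (.thr 48 26 (.thr 36 24 (.thr 38 39 (.dbl 25 49 51))))) (.nv (.thr 5 53 (.thr 1 9 (.thr 25 49 (.thr 61 41 (.dbl 29 17 45))))) (.rp 49 (.thr 14 12 (.thr 26 48 (.thr 10 58 (.thr 2 6 (.thr 22 62 (.thr 18 30 (.dbl 50 34 38))))))) (.rp 25 (.thr 14 12 (.thr 26 48 (.thr 10 58 (.thr 2 6 (.thr 22 62 (.thr 18 30 (.dbl 50 34 38))))))) .nd))))) (.rp 26 (.str 13 (.nv (.thr 5 53 (.thr 1 9 (.thr 12 14 (.thr 47 32 (.thr 63 31 (.thr 29 46 (.dbl 61 41 45))))))) (.nv (.thr 12 14 (.thr 47 32 (.thr 63 31 (.thr 29 46 (.dbl 25 17 49))))) (.nv (.thr 5 53 (.thr 1 9 (.thr 25 49 (.thr 61 41 (.dbl 29 17 45))))) (.rp 29 (.thr 12 14 (.thr 47 32 (.thr 63 31 (.thr 25 49 (.thr 59 8 (.dbl 51 38 55)))))) .nd))))) .nd))))))))) (.rp 32 (.str 49 (.nv (.thr 53 5 (.thr 61 57 (.thr 25 13 (.thr 1 41 (.dbl 17 29 33))))) (.nv (.thr 25 13 (.thr 53 5 (.thr 57 61 (.thr 59 8 (.thr 58 56 (.thr 48 63 (.dbl 26 10 15))))))) (.nv (.thr 5 53 (.thr 13 25 (.thr 1 9 (.thr 41 61 (.dbl 33 17 45))))) (.rp 61 (.str 48 (.nv (.thr 25 13 (.thr 51 50 (.thr 59 8 (.thr 55 63 (.dbl 38 4 12))))) (.nv (.thr 15 26 (.thr 25 13 (.thr 51 50 (.thr 39 27 (.dbl 38 12 36))))) (.nv (.thr 53 5 (.thr 58 63 (.dbl 26 10 15))) .nd)))) (.rp 53 (.str 48 (.nv (.thr 25 13 (.thr 17 29 (.thr 26 15 (.thr 16 31 (.thr 18 19 (.dbl 33 1 3)))))) (.nv (.thr 51 50 (.thr 25 13 (.thr 59 8 (.thr 55 63 (.dbl 38 4 12))))) (.rp 63 (.thr 51 50 (.thr 25 13 (.thr 38 12 (.thr 39 36 (.dbl 15 26 27))))) (.rp 25 (.thr 50 51 (.thr 26 15 (.thr 38 14 (.thr 34 46 (.thr 2 18 (.thr 62 22 (.dbl 58 10 54))))))) (.rp 13 (.thr 50 51 (.thr 26 15 (.thr 10 58 (.thr 14 38 (.thr 2 6 (.thr 22 62 (.dbl 18 30 34))))))) (.rp 12 (.thr 50 51 (.thr 25 13 (.thr 17 29 (.thr 33 1 (.thr 18 3 (.thr 2 34 (.thr 19 16 (.dbl 22 28 62)))))))) .nd))))))) (.rp 48 (.str 16 (.nv (.thr 25 13 (.thr 26 31 (.thr 24 27 (.thr 28 20 (.thr 19 22 (.dbl 17 18 29)))))) (.nv (.thr 5 53 (.thr 13 25 (.thr 1 9 (.thr 41 61 (.dbl 33 17 45))))) (.rp 25 (.thr 53 5 (.thr 61 57 (.thr 41 1 (.thr 40 43 (.thr 26 31 (.thr 56 11 (.thr 24 8 (.thr 20 28 (.thr 22 23 (.thr 62 2 (.thr 3 60 (.thr 30 18 (.thr 14 46 (.thr 50 38 (.dbl 58 10 54))))))))))))))) (.rp 17 (.thr 53 5 (.thr 61 57 (.thr 41 1 (.thr 45 33 (.dbl 13 25 29))))) (.rp 13 (.thr 53 5 (.thr 61 57 (.thr 1 41 (.thr 17 33 (.thr 26 31 (.thr 25 29 (.thr 24 27 (.thr 28 20 (.dbl 19 18 22))))))))) .nd)))))) (.rp 25 (.str 48 (.nv (.thr 53 5 (.thr 58 63 (.dbl 26 10 15))) (.rp 63 (.thr 50 51 (.thr 26 15 (.thr 38 14 (.thr 34 46 (.thr 2 18 (.thr 62 22 (.dbl 58 10 54))))))) (.rp 58 (.thr 50 51 (.thr 26 15 (.thr 16 31 (.thr 38 14 (.thr 34 46 (.thr 18 2 (.thr 17 19 (.dbl 33 1 3)))))))) (.rp 53 (.thr 50 51 (.thr 26 15 (.thr 38 14 (.thr 34 46 (.thr 2 18 (.thr 62 22 (.dbl 58 10 54))))))) (.rp 26 (.thr 51 50 (.thr 53 5 (.thr 57 61 (.thr 54 60 (.thr 55 52 (.dbl 63 58 59)))))) (.rp 15 (.thr 5 53 (.str 3 (.nv (.thr 33 18 (.thr 1 17 (.dbl 41 45 61))) (.nv (.thr 33 18 (.thr 41 45 (.thr 43 40 (.thr 23 63 (.dbl 22 20 60))))) (.nv (.thr 33 18 (.thr 41 45 (.dbl 1 17 61))) (.rp 45 (.thr 33 18 (.thr 1 17 (.thr 41 61 (.thr 43 40 (.thr 23 63 (.dbl 22 20 60)))))) (.rp 41 (.thr 51 50 (.thr 33 18 (.thr 1 17 (.thr 9 13 (.thr 12 6 (.thr 36 24 (.thr 38 39 (.thr 55 4 (.thr 63 59 (.dbl 46 29 34)))))))))) (.rp 33 (.thr 51 50 (.str 38 (.nv (.thr 35 19 (.thr 55 4 (.thr 63 59 (.thr 43 23 (.dbl 41 40 44))))) (.nv (.thr 36 39 (.thr 12 24 (.thr 55 4 (.thr 63 59 (.dbl 46 29 34))))) (.nv (.thr 35 19 (.thr 39 36 (.thr 43 47 (.dbl 41 40 44)))) (.rp 63 (.thr 35 19 (.thr 39 36 (.thr 47 43 (.thr 46 34 (.dbl 44 41 45))))) (.rp 35 (.thr 34 46 (.thr 55 4 (.thr 63 59 (.thr 23 43 (.thr 22 20 (.thr 54 6 (.dbl 60 41 57))))))) .nd))))))) (.rp 18 (.str 33 (.nv (.thr 1 17 (.dbl 41 45 61)) (.nv (.thr 41 45 (.thr 43 40 (.thr 23 63 (.dbl 22 20 60)))) (.nv (.thr 41 45 (.dbl 1 17 61)) (.rp 45 (.thr 1 17 (.thr 41 61 (.thr 43 40 (.thr 23 63 (.dbl 22 20 60))))) (.rp 41 (.thr 1 17 (.thr 51 50 (.thr 9 13 (.thr 12 6 (.thr 36 24 (.thr 38 39 (.thr 55 4 (.thr 63 59 (.dbl 46 29 34))))))))) .nd)))))) .nd))))))))) (.rp 10 (.thr 51 50 (.thr 53 5 (.thr 15 26 (.thr 57 61 (.thr 54 60 (.thr 55 52 (.dbl 63 58 59))))))) (.rp 6 (.thr 50 51 (.thr 26 15 (.thr 38 14 (.thr 34 46 (.thr 2 18 (.thr 62 22 (.dbl 58 10 54))))))) (.rp 5 (.thr 50 51 (.thr 26 15 (.thr 10 58 (.thr 16 31 (.thr 38 14 (.thr 34 46 (.thr 18 2 (.thr 17 19 (.dbl 33 1 3))))))))) (.rp 4 (.thr 50 51 (.thr 26 15 (.thr 38 14 (.thr 34 46 (.thr 2 18 (.thr 62 22 (.dbl 58 10 54))))))) .nd))))))))))) (.rp 16 (.str 48 (.nv (.thr 15 26 (.thr 25 13 (.thr 51 50 (.thr 38 12 (.dbl 39 27 36))))) (.nv (.thr 5 53 (.thr 13 25 (.thr 1 9 (.thr 33 17 (.dbl 41 45 61))))) (.nv (.thr 53 5 (.thr 58 63 (.dbl 26 10 15))) .nd)))) (.rp 13 (.str 16 (.nv (.thr 26 31 (.thr 10 58 (.thr 48 15 (.thr 50 51 (.thr 14 38 (.thr 2 6 (.thr 22 62 (.dbl 18 30 34)))))))) (.rp 63 (.thr 53 5 (.thr 61 57 (.thr 1 41 (.thr 17 33 (.thr 19 18 (.thr 26 31 (.thr 25 29 (.thr 24 27 (.dbl 28 20 22))))))))) (.rp 62 (.thr 53 5 (.thr 61 57 (.thr 1 41 (.thr 17 33 (.thr 19 18 (.thr 26 31 (.thr 25 29 (.thr 24 27 (.dbl 28 20 22))))))))) (.rp 58 (.thr 53 5 (.thr 61 57 (.thr 1 41 (.thr 17 33 (.thr 19 18 (.thr 26 31 (.thr 25 29 (.thr 24 27 (.dbl 28 20 22))))))))) (.rp 51 (.thr 53 5 (.thr 61 57 (.thr 1 41 (.thr 17 33 (.thr 19 18 (.thr 26 31 (.thr 25 29 (.thr 24 27 (.dbl 28 20 22))))))))) (.rp 50 (.thr 53 5 (.thr 61 57 (.thr 1 41 (.thr 17 33 (.thr 19 18 (.thr 26 31 (.thr 25 29 (.thr 24 27 (.dbl 28 20 22))))))))) (.rp 48 (.thr 53 5 (.thr 61 57 (.thr 1 41 (.thr 17 33 (.thr 26 31 (.thr 25 29 (.thr 24 27 (.thr 28 20 (.dbl 19 18 22))))))))) (.rp 47 (.thr 53 5 (.thr 61 57 (.thr 1 41 (.thr 17 33 (.thr 19 18 (.thr 26 31 (.thr 25 29 (.thr 24 27 (.dbl 28 20 22))))))))) (.rp 39 (.thr 53 5 (.thr 61 57 (.thr 1 41 (.thr 17 33 (.thr 19 18 (.thr 26 31 (.thr 25 29 (.thr 24 27 (.dbl 28 20 22))))))))) (.rp 38 (.thr 53 5 (.thr 61 57 (.thr 1 41 (.thr 17 33 (.thr 19 18 (.thr 26 31 (.thr 25 29 (.thr 24 27 (.dbl 28 20 22))))))))) (.rp 34 (.thr 53 5 (.thr 57 61 (.thr 26 31 (.thr 58 10 (.thr 15 48 (.thr 59 56 (.thr 25 8 (.thr 24 27 (.thr 28 20 (.thr 19 22 (.dbl 17 18 29))))))))))) (.rp 31 (.thr 53 5 (.thr 61 57 (.thr 1 41 (.thr 17 33 (.thr 19 18 (.thr 25 29 (.thr 28 22 (.thr 24 20 (.thr 26 27 (.thr 10 58 (.thr 48 15 (.thr 51 50 (.dbl 12 36 38))))))))))))) (.rp 30 (.thr 53 5 (.thr 61 57 (.thr 1 41 (.thr 17 33 (.thr 19 18 (.thr 26 31 (.thr 25 29 (.thr 28 22 (.dbl 24 20 27))))))))) (.rp 27 (.thr 53 5 (.thr 61 57 (.thr 1 41 (.thr 17 33 (.thr 19 18 (.thr 25 29 (.thr 22 28 (.thr 62 2 (.thr 63 60 (.thr 48 58 (.dbl 26 15 31))))))))))) (.rp 26 (.thr 53 5 (.thr 61 57 (.thr 1 41 (.thr 17 33 (.thr 19 18 (.thr 25 29 (.thr 59 8 (.thr 22 28 (.thr 62 2 (.thr 63 60 (.thr 51 55 (.dbl 48 50 58)))))))))))) (.rp 25 (.thr 5 53 (.thr 26 31 (.thr 58 10 (.thr 48 15 (.thr 50 51 (.thr 62 54 (.thr 2 22 (.thr 34 18 (.dbl 38 14 46))))))))) (.rp 22 (.thr 53 5 (.thr 61 57 (.thr 1 41 (.thr 17 33 (.thr 18 19 (.thr 26 31 (.thr 10 58 (.thr 48 15 (.thr 50 51 (.thr 34 2 (.dbl 38 14 46))))))))))) (.rp 18 (.thr 53 5 (.thr 61 57 (.thr 1 41 (.thr 17 33 (.thr 26 31 (.thr 10 58 (.thr 25 29 (.thr 24 27 (.thr 48 15 (.thr 51 50 (.dbl 12 36 38))))))))))) (.rp 17 (.thr 53 5 (.thr 57 61 (.thr 26 31 (.thr 58 10 (.thr 15 48 (.thr 56 59 (.thr 41 11 (.thr 45 33 (.thr 60 30 (.thr 51 54 (.thr 27 39 (.dbl 25 9 24)))))))))))) (.rp 15 (.thr 26 31 (.thr 53 5 (.thr 10 58 (.thr 61 57 (.thr 1 41 (.thr 17 33 (.thr 19 18 (.thr 25 29 (.thr 24 27 (.dbl 28 20 22)))))))))) (.rp 14 (.thr 53 5 (.thr 61 57 (.thr 1 41 (.thr 17 33 (.thr 19 18 (.thr 26 31 (.thr 25 29 (.thr 24 27 (.dbl 28 20 22))))))))) (.rp 12 (.thr 53 5 (.thr 61 57 (.thr 1 41 (.thr 17 33 (.thr 19 18 (.thr 26 31 (.thr 25 29 (.thr 24 27 (.dbl 28 20 22))))))))) (.rp 11 (.thr 53 5 (.thr 61 57 (.thr 1 41 (.thr 17 33 (.thr 19 18 (.thr 26 31 (.thr 25 29 (.thr 24 27 (.dbl 28 20 22))))))))) (.rp 10 (.thr 26 31 (.thr 53 5 (.thr 15 48 (.thr 61 57 (.thr 1 41 (.thr 17 33 (.thr 25 29 (.thr 24 27 (.thr 28 20 (.dbl 19 18 22)))))))))) (.rp 6 (.thr 5 53 (.thr 26 31 (.thr 58 10 (.thr 48 15 (.thr 50 51 (.thr 62 54 (.thr 22 2 (.thr 14 38 (.dbl 30 18 46))))))))) (.rp 5 (.thr 26 31 (.thr 10 58 (.str 1 (.nv (.thr 41 61 (.dbl 33 17 45)) (.rp 61 (.thr 17 33 (.thr 18 19 (.thr 48 15 (.thr 50 51 (.thr 34 2 (.dbl 38 14 46)))))) (.rp 45 (.thr 17 33 (.thr 19 18 (.thr 25 29 (.thr 61 41 (.thr 24 27 (.dbl 28 20 22)))))) (.rp 41 (.thr 17 33 (.thr 19 18 (.thr 25 29 (.thr 24 27 (.dbl 28 20 22))))) (.rp 33 (.thr 41 61 (.thr 43 40 (.thr 11 56 (.thr 59 27 (.dbl 8 9 25))))) (.rp 29 (.thr 33 17 (.dbl 41 45 61)) (.rp 17 (.thr 41 61 (.thr 43 40 (.thr 11 56 (.thr 59 27 (.dbl 8 9 25))))) (.rp 6 (.str 4 (.nv (.thr 38 55 (.thr 48 15 (.dbl 50 14 51))) (.nv (.thr 41 61 (.dbl 33 17 45)) .nd))) (.rp 4 (.str 6 (.nv (.thr 14 2 (.thr 48 15 (.dbl 50 38 51))) (.nv (.thr 41 61 (.dbl 33 17 45)) (.rp 12 (.str 8 (.nv (.thr 14 2 (.thr 17 33 (.dbl 25 29 59))) (.nv (.thr 11 9 (.dbl 41 56 61)) (.rp 14 (.thr 15 48 (.thr 33 17 (.dbl 41 45 61))) .nd)))) (.rp 8 (.str 12 (.nv (.thr 14 2 (.thr 48 15 (.dbl 50 38 51))) (.nv (.thr 41 61 (.dbl 33 17 45)) .nd))) .nd))))) .nd)))))))))))) (.rp 4 (.thr 5 53 (.thr 26 31 (.thr 58 10 (.thr 48 15 (.thr 50 51 (.thr 62 54 (.thr 2 22 (.thr 34 18 (.dbl 38 14 46))))))))) (.rp 3 (.thr 53 5 (.thr 61 57 (.thr 1 41 (.thr 17 33 (.thr 26 31 (.thr 25 29 (.thr 24 27 (.thr 28 20 (.dbl 19 18 22))))))))) (.rp 2 (.thr 53 5 (.thr 61 57 (.thr 1 41 (.thr 17 33 (.thr 19 18 (.thr 26 31 (.thr 25 29 (.thr 24 27 (.dbl 28 20 22))))))))) .nd)))))))))))))))))))))))))))))) (.rp 5 (.thr 25 13 (.thr 17 29 (.thr 1 33 (.thr 61 41 (.thr 57 53 (.thr 59 8 (.thr 58 56 (.thr 26 10 (.thr 15 48 (.thr 16 31 (.thr 24 27 (.thr 28 20 (.dbl 19 18 22))))))))))))) (.rp 1 (.thr 53 5 (.thr 57 61 (.thr 25 13 (.thr 9 41 (.thr 59 8 (.thr 58 56 (.thr 48 63 (.dbl 26 10 15)))))))) .nd)))))))))))) (.rp 31 (.str 41 (.nv (.thr 32 47 (.thr 33 45 (.thr 40 43 (.thr 44 36 (.dbl 35 34 38))))) (.nv (.thr 5 53 (.thr 1 61 (.thr 13 9 (.thr 33 45 (.dbl 49 17 25))))) (.rp 45 (.thr 40 43 (.thr 32 47 (.thr 44 36 (.thr 35 38 (.thr 33 34 (.thr 1 61 (.thr 5 53 (.thr 13 9 (.dbl 49 17 25))))))))) (.rp 33 (.thr 43 40 (.thr 47 32 (.thr 35 39 (.thr 44 38 (.thr 45 46 (.thr 61 1 (.thr 13 29 (.thr 53 5 (.dbl 49 25 57))))))))) .nd))))) (.rp 30 (.str 41 (.nv (.thr 32 47 (.thr 33 45 (.thr 40 43 (.thr 44 36 (.dbl 35 34 38))))) (.nv (.thr 5 53 (.thr 1 61 (.thr 13 9 (.thr 49 25 (.dbl 33 17 45))))) (.rp 45 (.thr 40 43 (.thr 32 47 (.thr 44 36 (.thr 35 38 (.thr 33 34 (.thr 1 61 (.thr 5 53 (.thr 13 9 (.dbl 49 17 25))))))))) (.rp 33 (.thr 43 40 (.thr 47 32 (.thr 35 39 (.thr 44 38 (.thr 45 46 (.thr 61 1 (.thr 13 29 (.thr 53 5 (.dbl 49 25 57))))))))) .nd))))) (.rp 29 (.thr 5 53 (.str 41 (.nv (.thr 32 47 (.thr 40 43 (.thr 44 36 (.thr 35 38 (.dbl 33 34 45))))) (.nv (.thr 33 45 (.thr 1 61 (.thr 13 9 (.dbl 49 17 25)))) (.rp 45 (.thr 40 43 (.thr 32 47 (.thr 44 36 (.thr 35 38 (.thr 33 34 (.thr 1 61 (.thr 13 9 (.dbl 49 17 25)))))))) (.rp 33 (.str 15 (.nv (.thr 47 32 (.thr 31 63 (.dbl 26 16 48))) (.rp 63 (.thr 40 43 (.thr 26 48 (.thr 58 10 (.thr 56 11 (.thr 8 24 (.dbl 59 25 57)))))) (.rp 58 (.thr 43 40 (.thr 47 32 (.thr 63 31 (.thr 3 23 (.thr 61 1 (.dbl 60 22 62)))))) (.rp 48 (.thr 40 43 (.thr 32 47 (.thr 44 36 (.thr 1 61 (.thr 13 9 (.thr 12 14 (.thr 60 28 (.thr 30 45 (.thr 22 3 (.thr 18 26 (.thr 2 62 (.thr 34 50 (.dbl 38 35 46))))))))))))) (.rp 47 (.thr 43 40 (.thr 26 48 (.thr 11 56 (.thr 59 27 (.thr 8 25 (.dbl 10 9 58)))))) (.rp 46 (.thr 43 40 (.thr 47 32 (.thr 63 31 (.thr 3 23 (.thr 61 1 (.dbl 60 22 62)))))) (.rp 35 (.thr 43 40 (.thr 26 48 (.thr 11 56 (.thr 59 27 (.thr 8 25 (.dbl 10 9 58)))))) (.rp 34 (.thr 43 40 (.thr 47 32 (.thr 35 39 (.thr 31 63 (.dbl 26 16 48))))) (.rp 32 (.thr 43 40 (.thr 26 48 (.thr 16 31 (.thr 11 56 (.thr 59 27 (.thr 8 25 (.dbl 10 9 58))))))) (.rp 31 (.thr 43 40 (.thr 26 48 (.thr 11 56 (.thr 27 59 (.thr 39 51 (.dbl 47 32 35)))))) (.rp 26 (.thr 43 40 (.thr 47 32 (.thr 63 31 (.thr 3 23 (.thr 61 1 (.dbl 60 22 62)))))) (.rp 16 (.thr 43 40 (.thr 47 32 (.thr 48 26 (.thr 63 31 (.thr 3 23 (.thr 61 1 (.dbl 60 22 62))))))) (.rp 12 (.thr 43 40 (.thr 47 32 (.thr 63 31 (.thr 3 23 (.thr 61 1 (.dbl 60 22 62)))))) .nd)))))))))))))) .nd)))))) (.rp 28 (.str 41 (.nv (.thr 32 47 (.thr 33 45 (.thr 40 43 (.thr 44 36 (.dbl 35 34 38))))) (.nv (.thr 5 53 (.thr 1 61 (.thr 13 9 (.thr 33 45 (.dbl 49 17 25))))) (.rp 45 (.thr 40 43 (.thr 32 47 (.thr 44 36 (.thr 35 38 (.thr 33 34 (.thr 1 61 (.thr 5 53 (.thr 13 9 (.dbl 49 17 25))))))))) (.rp 33 (.thr 43 40 (.thr 47 32 (.thr 35 39 (.thr 44 38 (.thr 45 46 (.thr 61 1 (.thr 13 29 (.thr 53 5 (.dbl 49 25 57))))))))) .nd))))) (.rp 27 (.str 41 (.nv (.thr 32 47 (.thr 33 45 (.thr 40 43 (.thr 44 36 (.dbl 35 34 38))))) (.nv (.thr 5 53 (.thr 1 61 (.thr 13 9 (.thr 33 45 (.dbl 49 17 25))))) (.rp 45 (.thr 40 43 (.thr 32 47 (.thr 44 36 (.thr 35 38 (.thr 33 34 (.thr 1 61 (.thr 5 53 (.thr 13 9 (.dbl 49 17 25))))))))) (.rp 33 (.thr 43 40 (.thr 47 32 (.thr 35 39 (.thr 44 38 (.thr 45 46 (.thr 61 1 (.thr 13 29 (.thr 53 5 (.dbl 49 25 57))))))))) .nd))))) (.rp 26 (.str 41 (.nv (.thr 32 47 (.thr 33 45 (.thr 40 43 (.thr 44 36 (.dbl 35 34 38))))) (.nv (.thr 5 53 (.thr 1 61 (.thr 13 9 (.thr 33 45 (.dbl 49 17 25))))) (.rp 45 (.thr 40 43 (.thr 32 47 (.thr 44 36 (.thr 35 38 (.thr 33 34 (.thr 1 61 (.thr 5 53 (.thr 13 9 (.dbl 49 17 25))))))))) (.rp 33 (.thr 43 40 (.thr 47 32 (.thr 35 39 (.thr 44 38 (.thr 45 46 (.thr 61 1 (.thr 13 29 (.thr 53 5 (.dbl 49 25 57))))))))) .nd))))) (.rp 25 (.str 15 (.nv (.thr 47 32 (.thr 31 63 (.dbl 26 16 48))) (.rp 63 (.str 39 (.nv (.thr 38 36 (.thr 47 32 (.thr 48 26 (.thr 35 43 (.thr 44 41 (.dbl 46 34 45)))))) (.nv (.thr 26 48 (.thr 16 31 (.thr 47 32 (.thr 43 35 (.thr 41 40 (.thr 11 56 (.dbl 27 51 59))))))) (.nv (.thr 38 36 (.thr 46 34 (.thr 47 32 (.thr 44 45 (.dbl 35 41 43))))) (.rp 48 (.thr 36 38 (.thr 32 47 (.thr 40 44 (.thr 41 43 (.thr 45 33 (.thr 51 27 (.thr 61 1 (.thr 53 5 (.thr 60 30 (.dbl 57 49 54)))))))))) (.rp 47 (.thr 38 36 (.thr 46 34 (.thr 26 48 (.thr 14 50 (.thr 62 30 (.thr 2 22 (.dbl 10 6 58))))))) (.rp 44 (.thr 38 36 (.thr 46 34 (.thr 26 48 (.thr 14 50 (.thr 62 30 (.thr 2 22 (.dbl 10 6 58))))))) (.rp 43 (.thr 38 36 (.thr 46 34 (.thr 26 48 (.thr 14 50 (.thr 62 30 (.thr 2 22 (.dbl 10 6 58))))))) (.rp 41 (.thr 38 36 (.thr 46 34 (.thr 26 48 (.thr 14 50 (.thr 62 30 (.thr 2 22 (.dbl 10 6 58))))))) (.rp 36 (.thr 32 47 (.thr 27 51 (.thr 26 48 (.thr 31 16 (.thr 23 19 (.thr 22 20 (.thr 62 2 (.thr 58 10 (.thr 50 54 (.thr 14 38 (.thr 12 13 (.dbl 30 18 46)))))))))))) (.rp 35 (.thr 38 36 (.thr 46 34 (.thr 26 48 (.thr 14 50 (.thr 62 30 (.thr 2 22 (.dbl 10 6 58))))))) (.rp 34 (.thr 38 36 (.thr 55 4 (.thr 26 48 (.thr 58 10 (.thr 50 14 (.thr 54 62 (.dbl 53 5 52))))))) (.rp 32 (.thr 38 36 (.thr 46 34 (.thr 26 48 (.thr 16 31 (.thr 14 50 (.thr 62 30 (.thr 2 22 (.dbl 10 6 58)))))))) .nd))))))))))))) (.rp 48 (.thr 32 47 (.str 41 (.nv (.thr 45 33 (.thr 60 30 (.thr 61 1 (.thr 62 63 (.dbl 22 2 3))))) (.nv (.thr 33 45 (.thr 40 43 (.thr 35 34 (.dbl 44 36 38)))) (.rp 45 (.str 38 (.nv (.thr 44 35 (.dbl 36 39 40)) (.rp 44 (.thr 46 34 (.thr 39 36 (.thr 51 27 (.thr 61 1 (.thr 53 5 (.thr 57 49 (.thr 54 60 (.dbl 55 4 52)))))))) (.rp 43 (.thr 39 36 (.thr 51 27 (.thr 61 1 (.thr 53 5 (.thr 57 49 (.thr 54 60 (.dbl 55 4 52))))))) (.rp 40 (.thr 39 36 (.thr 55 4 (.thr 51 27 (.thr 63 59 (.thr 61 1 (.thr 60 62 (.thr 3 22 (.dbl 35 19 44)))))))) (.rp 39 (.thr 46 34 (.thr 1 61 (.thr 5 53 (.thr 13 9 (.thr 14 12 (.thr 62 30 (.thr 2 22 (.thr 26 50 (.dbl 10 6 58))))))))) (.rp 36 (.thr 46 34 (.thr 44 35 (.thr 43 40 (.thr 1 61 (.thr 5 53 (.thr 13 9 (.thr 12 14 (.thr 63 29 (.thr 3 23 (.dbl 60 22 28)))))))))) (.rp 35 (.thr 39 36 (.thr 51 27 (.thr 61 1 (.thr 53 5 (.thr 57 49 (.thr 54 60 (.dbl 55 4 52))))))) .nd)))))))) (.rp 33 (.thr 40 43 (.thr 44 36 (.thr 1 61 (.thr 5 53 (.thr 13 9 (.thr 12 14 (.thr 60 28 (.thr 30 45 (.thr 22 3 (.thr 18 26 (.thr 2 62 (.thr 34 50 (.dbl 38 35 46))))))))))))) (.rp 17 (.thr 33 45 (.thr 40 43 (.thr 44 36 (.dbl 35 34 38)))) .nd))))))) (.rp 47 (.str 13 (.nv (.thr 14 12 (.thr 26 48 (.thr 10 58 (.thr 2 6 (.thr 22 62 (.thr 18 30 (.dbl 50 34 38))))))) (.nv (.thr 14 12 (.thr 26 48 (.thr 38 50 (.thr 46 34 (.thr 62 30 (.thr 2 22 (.dbl 10 6 58))))))) (.nv (.thr 12 14 (.thr 48 26 (.thr 53 5 (.thr 63 58 (.thr 46 29 (.thr 38 34 (.dbl 36 24 39))))))) (.rp 58 (.thr 14 12 (.thr 5 53 (.thr 1 9 (.thr 41 61 (.thr 45 33 (.thr 30 60 (.thr 62 46 (.thr 22 2 (.dbl 26 18 48))))))))) (.rp 51 (.thr 5 53 (.thr 1 9 (.thr 41 61 (.thr 43 40 (.thr 33 45 (.thr 48 26 (.thr 3 18 (.thr 23 63 (.dbl 22 20 60))))))))) (.rp 50 (.thr 14 12 (.thr 5 53 (.thr 1 9 (.thr 41 61 (.thr 45 33 (.thr 30 60 (.thr 62 46 (.thr 22 2 (.dbl 26 18 48))))))))) (.rp 48 (.thr 12 14 (.thr 5 53 (.thr 1 9 (.thr 41 61 (.thr 43 40 (.thr 45 33 (.thr 60 30 (.thr 3 22 (.thr 63 23 (.thr 46 29 (.thr 38 34 (.dbl 44 28 35)))))))))))) (.rp 38 (.thr 5 53 (.thr 1 9 (.thr 41 61 (.thr 43 40 (.thr 33 45 (.thr 48 26 (.thr 3 18 (.thr 23 63 (.dbl 22 20 60))))))))) (.rp 36 (.thr 14 12 (.thr 5 53 (.thr 1 9 (.thr 41 61 (.thr 45 33 (.thr 30 60 (.thr 62 46 (.thr 22 2 (.dbl 26 18 48))))))))) (.rp 34 (.thr 14 12 (.thr 5 53 (.thr 1 9 (.thr 41 61 (.thr 45 33 (.thr 30 60 (.thr 62 46 (.thr 22 2 (.dbl 26 18 48))))))))) (.rp 26 (.thr 12 14 (.thr 5 53 (.thr 1 9 (.thr 41 61 (.thr 40 43 (.thr 45 33 (.thr 60 30 (.thr 44 28 (.thr 36 32 (.dbl 38 35 39)))))))))) (.rp 24 (.thr 14 12 (.thr 5 53 (.thr 1 9 (.thr 41 61 (.thr 45 33 (.thr 30 60 (.thr 62 46 (.thr 22 2 (.dbl 26 18 48))))))))) (.rp 14 (.thr 5 53 (.thr 1 9 (.thr 41 61 (.thr 43 40 (.thr 33 45 (.thr 48 26 (.thr 3 18 (.thr 23 63 (.dbl 22 20 60))))))))) (.rp 12 (.thr 5 53 (.thr 1 9 (.thr 41 61 (.thr 43 40 (.thr 33 45 (.thr 48 26 (.thr 3 18 (.thr 23 63 (.dbl 22 20 60))))))))) (.rp 6 (.thr 14 12 (.thr 26 48 (.thr 38 50 (.thr 46 34 (.thr 30 62 (.thr 45 60 (.thr 41 33 (.dbl 61 1 29)))))))) (.rp 4 (.thr 5 53 (.thr 1 9 (.thr 41 61 (.thr 43 40 (.thr 33 45 (.thr 48 26 (.thr 3 18 (.thr 23 63 (.dbl 22 20 60))))))))) .nd))))))))))))))))) (.rp 32 (.str 13 (.nv (.thr 14 12 (.thr 26 48 (.thr 16 31 (.thr 38 50 (.thr 46 34 (.thr 62 30 (.thr 2 22 (.dbl 10 6 58)))))))) (.nv (.thr 12 14 (.thr 48 26 (.thr 53 5 (.thr 63 58 (.thr 29 46 (.thr 31 47 (.thr 30 28 (.dbl 45 60 61)))))))) (.nv (.thr 48 26 (.thr 12 14 (.thr 53 5 (.thr 63 58 (.thr 46 29 (.thr 38 34 (.dbl 36 24 39))))))) (.rp 58 (.thr 14 12 (.thr 5 53 (.thr 1 9 (.thr 41 61 (.thr 45 33 (.thr 30 60 (.thr 62 46 (.thr 22 2 (.dbl 26 18 48))))))))) (.rp 50 (.thr 14 12 (.thr 5 53 (.thr 1 9 (.thr 41 61 (.thr 45 33 (.thr 30 60 (.thr 62 46 (.thr 22 2 (.dbl 26 18 48))))))))) (.rp 48 (.str 16 (.nv (.thr 14 12 (.thr 26 31 (.thr 10 58 (.thr 53 5 (.thr 6 2 (.thr 38 50 (.thr 54 22 (.dbl 55 4 52)))))))) (.nv (.thr 12 14 (.thr 31 26 (.thr 63 47 (.thr 29 46 (.thr 45 61 (.dbl 30 28 60)))))) (.rp 50 (.thr 12 14 (.thr 5 53 (.thr 1 9 (.thr 41 61 (.thr 45 33 (.thr 60 30 (.thr 44 28 (.thr 46 47 (.dbl 38 34 35))))))))) (.rp 38 (.thr 12 14 (.thr 5 53 (.thr 1 9 (.thr 41 61 (.thr 45 33 (.thr 60 30 (.thr 28 44 (.thr 20 24 (.dbl 22 3 23))))))))) (.rp 31 (.thr 12 14 (.thr 5 53 (.thr 1 9 (.thr 41 61 (.thr 45 33 (.thr 60 30 (.thr 28 44 (.thr 20 24 (.dbl 22 3 23))))))))) (.rp 28 (.thr 12 14 (.thr 31 26 (.thr 5 53 (.thr 1 9 (.thr 63 47 (.thr 29 46 (.dbl 61 41 45))))))) (.rp 26 (.thr 12 14 (.thr 5 53 (.thr 1 9 (.thr 41 61 (.thr 45 33 (.thr 60 30 (.thr 44 28 (.thr 46 47 (.dbl 38 34 35))))))))) (.rp 24 (.thr 12 14 (.thr 5 53 (.thr 1 9 (.thr 41 61 (.thr 45 33 (.thr 60 30 (.thr 44 28 (.thr 46 47 (.dbl 38 34 35))))))))) (.rp 14 (.thr 31 26 (.thr 5 53 (.thr 1 9 (.thr 41 61 (.thr 45 33 (.thr 43 40 (.thr 60 30 (.thr 63 47 (.dbl 3 22 23))))))))) (.rp 12 (.thr 31 26 (.thr 5 53 (.thr 1 9 (.thr 41 61 (.thr 45 33 (.thr 43 40 (.thr 60 30 (.thr 63 47 (.dbl 3 22 23))))))))) .nd))))))))))) (.rp 46 (.thr 14 12 (.thr 26 48 (.thr 16 31 (.thr 10 58 (.thr 2 6 (.thr 22 62 (.thr 18 30 (.dbl 50 34 38)))))))) (.rp 38 (.thr 5 53 (.thr 1 9 (.thr 41 61 (.thr 43 40 (.thr 33 45 (.thr 48 26 (.thr 3 18 (.thr 23 63 (.dbl 22 20 60))))))))) (.rp 29 (.thr 14 12 (.thr 26 48 (.thr 16 31 (.thr 10 58 (.thr 2 6 (.thr 62 22 (.thr 38 50 (.dbl 46 30 34)))))))) (.rp 26 (.thr 12 14 (.thr 5 53 (.thr 1 9 (.thr 41 61 (.thr 45 33 (.thr 60 30 (.thr 44 28 (.thr 46 47 (.dbl 38 34 35))))))))) (.rp 24 (.thr 14 12 (.thr 5 53 (.thr 1 9 (.thr 41 61 (.thr 45 33 (.thr 30 60 (.thr 62 46 (.thr 22 2 (.dbl 26 18 48))))))))) (.rp 14 (.thr 5 53 (.thr 1 9 (.thr 41 61 (.thr 43 40 (.thr 33 45 (.thr 48 26 (.thr 3 18 (.thr 23 63 (.dbl 22 20 60))))))))) (.rp 12 (.thr 5 53 (.thr 1 9 (.thr 41 61 (.thr 43 40 (.thr 33 45 (.thr 48 26 (.thr 3 18 (.thr 23 63 (.dbl 22 20 60))))))))) (.rp 6 (.thr 14 12 (.thr 26 48 (.thr 16 31 (.thr 38 50 (.thr 46 34 (.thr 30 62 (.thr 45 60 (.thr 44 47 (.dbl 41 33 35))))))))) (.rp 4 (.thr 12 14 (.thr 5 53 (.thr 1 9 (.thr 41 61 (.thr 45 33 (.thr 60 30 (.thr 44 28 (.thr 46 47 (.dbl 38 34 35))))))))) .nd)))))))))))))))) (.rp 31 (.str 13 (.nv (.thr 12 14 (.thr 48 26 (.thr 53 5 (.thr 63 58 (.thr 46 29 (.thr 38 34 (.dbl 36 24 39))))))) (.nv (.thr 5 53 (.thr 1 9 (.thr 12 14 (.thr 32 47 (.thr 41 61 (.thr 40 43 (.thr 36 44 (.dbl 48 24 26)))))))) (.nv (.thr 14 12 (.thr 26 48 (.thr 38 50 (.thr 46 34 (.thr 62 30 (.thr 2 22 (.dbl 10 6 58))))))) (.nv (.thr 5 53 (.thr 1 9 (.thr 32 47 (.thr 41 61 (.thr 40 43 (.thr 33 45 (.thr 44 36 (.dbl 35 34 38)))))))) (.rp 36 (.thr 14 12 (.thr 47 32 (.thr 5 53 (.thr 1 9 (.thr 41 61 (.thr 45 33 (.thr 30 60 (.dbl 46 44 62)))))))) .nd)))))) (.rp 26 (.str 13 (.nv (.thr 12 14 (.thr 5 53 (.thr 47 32 (.thr 63 31 (.thr 29 46 (.thr 61 45 (.dbl 1 9 41))))))) (.nv (.thr 5 53 (.thr 1 9 (.thr 32 47 (.thr 41 61 (.thr 40 43 (.thr 33 45 (.thr 44 36 (.dbl 35 34 38)))))))) (.rp 61 (.thr 12 14 (.thr 47 32 (.thr 63 31 (.thr 46 29 (.thr 44 45 (.thr 38 34 (.thr 39 36 (.dbl 35 41 43)))))))) (.rp 53 (.thr 12 14 (.thr 47 32 (.thr 63 31 (.thr 46 29 (.thr 45 44 (.thr 41 33 (.thr 61 1 (.dbl 60 30 62)))))))) (.rp 47 (.thr 12 14 (.thr 5 53 (.thr 1 9 (.thr 41 61 (.thr 40 43 (.thr 45 33 (.thr 60 30 (.thr 44 28 (.thr 36 32 (.dbl 38 35 39)))))))))) (.rp 45 (.thr 12 14 (.thr 47 32 (.thr 63 31 (.thr 46 29 (.thr 38 34 (.thr 39 36 (.thr 55 4 (.dbl 51 27 59)))))))) (.rp 41 (.thr 12 14 (.thr 47 32 (.thr 63 31 (.thr 46 29 (.thr 38 34 (.thr 39 36 (.thr 55 4 (.dbl 51 27 59)))))))) (.rp 38 (.thr 47 32 (.thr 63 31 (.thr 5 53 (.thr 1 9 (.thr 41 61 (.thr 45 33 (.thr 46 44 (.dbl 12 14 29)))))))) (.rp 32 (.thr 12 14 (.thr 5 53 (.thr 1 9 (.thr 41 61 (.thr 45 33 (.thr 60 30 (.thr 44 28 (.thr 46 47 (.dbl 38 34 35))))))))) (.rp 27 (.str 24 (.nv (.thr 47 32 (.thr 53 5 (.thr 63 31 (.thr 48 58 (.dbl 12 14 36))))) (.nv (.thr 12 14 (.thr 32 47 (.thr 36 48 (.thr 38 39 (.thr 34 46 (.thr 35 33 (.dbl 44 40 41))))))) (.nv (.thr 12 14 (.thr 53 5 (.thr 48 36 (.thr 63 58 (.dbl 47 31 32))))) (.rp 48 (.thr 12 14 (.thr 5 53 (.thr 1 9 (.thr 41 61 (.thr 45 33 (.thr 60 30 (.thr 44 28 (.dbl 47 32 46)))))))) (.rp 47 (.thr 12 14 (.thr 36 48 (.thr 38 39 (.thr 46 34 (.thr 29 63 (.thr 61 45 (.thr 1 41 (.dbl 5 9 53)))))))) (.rp 36 (.thr 12 14 (.thr 5 53 (.thr 47 32 (.thr 63 31 (.thr 29 46 (.thr 61 45 (.dbl 1 9 41))))))) (.rp 32 (.thr 12 14 (.thr 53 5 (.thr 48 36 (.thr 63 58 (.thr 29 46 (.thr 45 61 (.thr 30 60 (.dbl 31 28 47)))))))) (.rp 14 (.thr 5 53 (.thr 47 32 (.thr 1 9 (.thr 41 61 (.thr 43 40 (.thr 45 33 (.thr 44 46 (.dbl 35 38 39)))))))) (.rp 12 (.thr 5 53 (.thr 47 32 (.thr 1 9 (.thr 41 61 (.thr 43 40 (.thr 45 33 (.thr 44 46 (.dbl 35 38 39)))))))) .nd)))))))))) (.rp 24 (.str 27 (.nv (.thr 5 53 (.thr 1 9 (.thr 12 14 (.thr 47 32 (.thr 63 31 (.thr 29 46 (.dbl 61 41 45))))))) (.nv (.thr 5 53 (.thr 1 9 (.thr 32 47 (.thr 41 61 (.thr 40 43 (.thr 36 44 (.thr 45 33 (.dbl 39 38 51)))))))) (.nv (.thr 39 51 (.thr 12 14 (.thr 38 36 (.thr 47 32 (.thr 63 31 (.dbl 46 29 34)))))) (.rp 47 (.thr 39 51 (.thr 5 53 (.thr 1 9 (.thr 41 61 (.thr 45 33 (.thr 12 14 (.thr 38 36 (.thr 44 35 (.dbl 60 28 30))))))))) (.rp 38 (.thr 5 53 (.thr 1 9 (.thr 41 61 (.thr 47 32 (.thr 43 40 (.dbl 39 35 51)))))) (.rp 32 (.thr 39 51 (.thr 5 53 (.thr 1 9 (.thr 41 61 (.thr 43 40 (.thr 35 47 (.dbl 38 36 44))))))) .nd))))))) (.rp 9 (.thr 12 14 (.thr 47 32 (.thr 63 31 (.thr 46 29 (.thr 45 44 (.thr 41 33 (.thr 61 1 (.dbl 60 30 62)))))))) (.rp 5 (.thr 12 14 (.thr 47 32 (.thr 63 31 (.thr 46 29 (.thr 45 44 (.thr 41 33 (.thr 61 1 (.dbl 60 30 62)))))))) (.rp 1 (.thr 12 14 (.thr 47 32 (.thr 63 31 (.thr 46 29 (.thr 44 45 (.thr 38 34 (.thr 39 36 (.dbl 35 41 43)))))))) .nd))))))))))))))) (.rp 16 (.thr 47 32 (.thr 48 26 (.thr 63 31 (.dbl 53 5 58)))) .nd))))))))) (.rp 24 (.str 41 (.nv (.thr 32 47 (.thr 33 45 (.thr 40 43 (.thr 44 36 (.dbl 35 34 38))))) (.nv (.thr 5 53 (.thr 1 61 (.thr 13 9 (.thr 33 45 (.dbl 49 17 25))))) (.rp 45 (.thr 40 43 (.thr 32 47 (.thr 44 36 (.thr 35 38 (.thr 33 34 (.thr 1 61 (.thr 5 53 (.thr 13 9 (.dbl 49 17 25))))))))) (.rp 33 (.thr 43 40 (.thr 47 32 (.thr 35 39 (.thr 44 38 (.thr 45 46 (.thr 61 1 (.thr 13 29 (.thr 53 5 (.dbl 49 25 57))))))))) .nd))))) (.rp 23 (.str 41 (.nv (.thr 32 47 (.thr 33 45 (.thr 40 43 (.thr 44 36 (.dbl 35 34 38))))) (.nv (.thr 5 53 (.thr 1 61 (.thr 13 9 (.thr 33 45 (.dbl 49 17 25))))) (.rp 55 (.str 39 (.nv (.thr 32 47 (.thr 33 45 (.thr 34 35 (.dbl 38 36 46)))) (.nv (.thr 47 32 (.dbl 43 35 40)) (.rp 47 (.thr 33 45 (.thr 5 53 (.thr 1 61 (.thr 13 9 (.dbl 49 17 25))))) (.rp 35 (.thr 32 47 (.thr 40 43 (.dbl 36 38 44))) (.rp 32 (.thr 43 40 (.thr 35 47 (.dbl 38 36 44))) .nd)))))) (.rp 45 (.thr 40 43 (.thr 32 47 (.thr 44 36 (.thr 35 38 (.thr 33 34 (.thr 1 61 (.thr 5 53 (.thr 13 9 (.dbl 49 17 25))))))))) (.rp 39 (.str 55 (.nv (.thr 1 61 (.thr 5 53 (.thr 13 9 (.thr 33 45 (.dbl 49 17 25))))) (.nv (.thr 33 45 (.thr 32 47 (.thr 35 34 (.dbl 38 4 44)))) (.rp 45 (.thr 40 43 (.thr 4 38 (.thr 53 5 (.thr 52 54 (.thr 36 20 (.dbl 32 44 47)))))) (.rp 33 (.thr 40 43 (.thr 4 38 (.thr 53 5 (.thr 52 54 (.thr 36 20 (.dbl 32 44 47)))))) (.rp 17 (.thr 33 45 (.thr 32 47 (.thr 38 4 (.dbl 34 35 46)))) .nd)))))) (.rp 33 (.thr 43 40 (.thr 47 32 (.thr 61 1 (.thr 53 5 (.thr 49 57 (.thr 13 25 (.thr 45 29 (.thr 44 46 (.dbl 35 38 39))))))))) .nd))))))) (.rp 22 (.str 41 (.nv (.thr 32 47 (.thr 33 45 (.thr 40 43 (.thr 44 36 (.dbl 35 34 38))))) (.nv (.thr 5 53 (.thr 1 61 (.thr 13 9 (.thr 33 45 (.dbl 49 17 25))))) (.rp 45 (.thr 40 43 (.thr 32 47 (.thr 44 36 (.thr 35 38 (.thr 33 34 (.thr 1 61 (.thr 5 53 (.thr 13 9 (.dbl 49 17 25))))))))) (.rp 33 (.thr 43 40 (.thr 47 32 (.thr 35 39 (.thr 44 38 (.thr 45 46 (.thr 61 1 (.thr 13 29 (.thr 53 5 (.dbl 49 25 57))))))))) .nd))))) (.rp 20 (.str 41 (.nv (.thr 40 43 (.thr 32 47 (.thr 33 45 (.thr 44 36 (.dbl 35 34 38))))) (.nv (.thr 5 53 (.thr 1 61 (.thr 13 9 (.thr 33 45 (.dbl 49 17 25))))) (.rp 45 (.thr 40 43 (.thr 32 47 (.thr 44 36 (.thr 35 38 (.thr 33 34 (.thr 1 61 (.thr 5 53 (.thr 13 9 (.dbl 49 17 25))))))))) (.rp 40 (.str 60 (.nv (.thr 45 33 (.thr 15 30 (.thr 47 32 (.thr 31 63 (.dbl 26 16 48))))) (.nv (.thr 61 1 (.thr 62 63 (.dbl 22 2 3))) (.rp 63 (.thr 45 33 (.thr 53 5 (.thr 61 1 (.thr 49 57 (.dbl 13 25 29))))) .nd)))) (.rp 33 (.thr 47 32 (.thr 61 1 (.thr 53 5 (.thr 49 57 (.thr 13 25 (.thr 45 29 (.thr 44 46 (.thr 35 38 (.dbl 43 39 40))))))))) .nd)))))) (.rp 19 (.str 41 (.nv (.thr 32 47 (.thr 33 45 (.thr 40 43 (.thr 44 36 (.dbl 35 34 38))))) (.nv (.thr 5 53 (.thr 1 61 (.thr 13 9 (.thr 33 45 (.dbl 49 17 25))))) (.rp 45 (.thr 40 43 (.thr 32 47 (.thr 44 36 (.thr 35 38 (.thr 33 34 (.thr 1 61 (.thr 5 53 (.thr 13 9 (.dbl 49 17 25))))))))) (.rp 33 (.thr 43 40 (.thr 47 32 (.thr 35 39 (.thr 44 38 (.thr 45 46 (.thr 61 1 (.thr 13 29 (.thr 53 5 (.dbl 49 25 57))))))))) .nd))))) (.rp 18 (.str 41 (.nv (.thr 32 47 (.thr 33 45 (.thr 40 43 (.thr 44 36 (.dbl 35 34 38))))) (.nv (.thr 5 53 (.thr 1 61 (.thr 13 9 (.thr 33 45 (.dbl 49 17 25))))) (.rp 45 (.thr 40 43 (.thr 32 47 (.thr 44 36 (.thr 35 38 (.thr 33 34 (.thr 1 61 (.thr 5 53 (.thr 13 9 (.dbl 49 17 25))))))))) (.rp 33 (.thr 43 40 (.thr 47 32 (.thr 35 39 (.thr 44 38 (.thr 45 46 (.thr 61 1 (.thr 13 29 (.thr 53 5 (.dbl 49 25 57))))))))) .nd))))) (.rp 17 (.str 41 (.nv (.thr 45 33 (.thr 53 5 (.thr 61 1 (.thr 49 57 (.dbl 13 25 29))))) (.nv (.thr 40 43 (.thr 33 45 (.thr 32 47 (.thr 44 36 (.dbl 35 34 38))))) (.rp 51 (.str 34 (.nv (.thr 32 47 (.thr 38 46 (.thr 44 35 (.dbl 36 39 40)))) (.nv (.thr 33 45 (.dbl 32 35 47)) (.rp 47 (.thr 33 45 (.thr 35 32 (.dbl 38 44 46))) (.rp 35 (.thr 45 33 (.thr 46 38 (.dbl 47 32 44))) (.rp 32 (.str 48 (.nv (.thr 33 45 (.thr 3 18 (.thr 43 40 (.thr 23 63 (.dbl 22 20 60))))) (.nv (.thr 33 45 (.thr 3 18 (.thr 60 22 (.thr 56 52 (.dbl 26 11 15))))) (.nv (.thr 53 5 (.thr 58 63 (.dbl 26 10 15))) .nd)))) .nd)))))) (.rp 45 (.thr 5 53 (.thr 1 61 (.thr 13 9 (.thr 47 32 (.thr 49 25 (.str 48 (.nv (.thr 43 40 (.thr 35 39 (.thr 51 50 (.thr 3 19 (.thr 23 63 (.dbl 22 20 60)))))) (.nv (.thr 15 26 (.thr 51 50 (.thr 63 31 (.thr 55 59 (.thr 38 4 (.dbl 39 27 36)))))) (.nv (.thr 43 40 (.thr 39 35 (.thr 51 50 (.dbl 15 26 27)))) (.rp 51 (.str 34 (.nv (.thr 15 26 (.thr 12 14 (.thr 63 31 (.dbl 46 29 38)))) (.nv (.thr 38 46 (.thr 39 36 (.dbl 35 43 44))) (.rp 46 (.thr 43 40 (.thr 39 35 (.thr 36 38 (.thr 12 24 (.dbl 15 14 26))))) (.rp 38 (.str 12 (.nv (.dbl 15 14 26) (.rp 26 (.thr 40 43 (.thr 24 36 (.thr 56 8 (.thr 60 52 (.thr 28 44 (.thr 20 16 (.dbl 22 3 23))))))) (.rp 15 (.thr 40 43 (.thr 24 36 (.thr 56 8 (.thr 60 52 (.thr 28 44 (.thr 20 16 (.dbl 22 3 23))))))) (.rp 14 (.thr 40 43 (.thr 24 36 (.thr 56 8 (.dbl 26 11 15)))) .nd))))) .nd))))) (.rp 50 (.thr 43 40 (.thr 39 35 (.thr 36 38 (.thr 12 24 (.dbl 15 14 26))))) (.rp 39 (.thr 51 50 (.thr 15 26 (.thr 63 31 (.thr 55 59 (.thr 38 4 (.thr 46 34 (.dbl 12 14 29))))))) (.rp 36 (.thr 51 50 (.thr 15 26 (.thr 63 31 (.thr 55 59 (.thr 38 4 (.thr 46 34 (.dbl 12 14 29))))))) (.rp 34 (.thr 51 50 (.thr 43 40 (.thr 15 26 (.dbl 39 27 35)))) .nd)))))))))))))) (.rp 34 (.str 51 (.nv (.thr 53 5 (.thr 61 1 (.thr 49 57 (.thr 48 50 (.thr 58 63 (.dbl 26 10 15)))))) (.nv (.thr 43 40 (.thr 47 32 (.thr 35 39 (.thr 44 38 (.dbl 45 33 46))))) (.rp 48 (.thr 45 33 (.thr 53 5 (.thr 61 1 (.thr 49 57 (.dbl 13 25 29))))) .nd)))) (.rp 33 (.thr 43 40 (.thr 47 32 (.thr 35 39 (.thr 44 38 (.thr 45 46 (.thr 53 5 (.thr 61 1 (.thr 49 57 (.dbl 13 25 29))))))))) .nd))))))) (.rp 16 (.thr 5 53 (.thr 32 47 (.str 41 (.nv (.thr 1 61 (.thr 13 9 (.thr 49 25 (.dbl 33 17 45)))) (.nv (.thr 40 43 (.thr 44 36 (.thr 33 45 (.dbl 35 34 38)))) (.rp 45 (.thr 1 61 (.thr 13 9 (.thr 49 25 (.thr 33 17 (.thr 40 43 (.thr 44 36 (.dbl 35 34 38))))))) (.rp 33 (.str 60 (.nv (.thr 3 22 (.thr 43 40 (.thr 63 23 (.dbl 61 1 62)))) (.nv (.thr 61 1 (.thr 62 63 (.dbl 22 2 3))) (.nv (.thr 61 1 (.thr 3 22 (.thr 63 62 (.dbl 43 23 40)))) (.rp 63 (.thr 1 61 (.thr 9 13 (.thr 40 43 (.thr 44 36 (.thr 12 28 (.dbl 3 6 22)))))) (.rp 62 (.thr 1 61 (.thr 9 13 (.thr 40 43 (.thr 44 36 (.thr 12 28 (.dbl 3 6 22)))))) (.rp 61 (.thr 40 43 (.thr 44 36 (.thr 12 28 (.thr 3 22 (.thr 9 6 (.thr 13 1 (.dbl 25 49 57))))))) (.rp 22 (.thr 61 1 (.thr 63 62 (.thr 40 43 (.thr 44 36 (.thr 12 28 (.thr 46 29 (.dbl 38 34 35))))))) (.rp 3 (.thr 1 61 (.thr 9 13 (.thr 57 25 (.thr 40 43 (.thr 36 44 (.thr 39 38 (.thr 51 54 (.thr 15 27 (.thr 48 26 (.thr 24 12 (.dbl 56 8 52))))))))))) (.rp 1 (.thr 40 43 (.thr 44 36 (.thr 12 28 (.thr 3 22 (.thr 9 6 (.thr 25 57 (.dbl 38 35 51))))))) .nd)))))))))) .nd))))))) (.rp 15 (.thr 5 53 (.str 41 (.nv (.thr 32 47 (.thr 33 45 (.thr 40 43 (.thr 44 36 (.dbl 35 34 38))))) (.nv (.thr 1 61 (.thr 13 9 (.thr 49 25 (.dbl 33 17 45)))) (.rp 45 (.thr 40 43 (.thr 32 47 (.thr 44 36 (.thr 35 38 (.thr 33 34 (.thr 1 61 (.thr 13 9 (.dbl 49 17 25)))))))) (.rp 33 (.str 11 (.nv (.thr 1 61 (.thr 9 13 (.thr 10 8 (.dbl 26 56 58)))) (.nv (.thr 1 61 (.thr 9 13 (.thr 43 40 (.thr 56 26 (.thr 57 25 (.dbl 59 27 58)))))) (.nv (.thr 1 61 (.thr 9 13 (.thr 8 10 (.dbl 25 57 59)))) (.nv (.thr 40 43 (.thr 56 26 (.thr 8 24 (.thr 25 59 (.dbl 9 10 57))))) (.rp 57 (.thr 43 40 (.thr 59 27 (.thr 8 25 (.thr 9 10 (.dbl 1 13 61))))) (.rp 9 (.thr 43 40 (.thr 27 59 (.thr 26 56 (.thr 31 16 (.thr 23 19 (.thr 3 63 (.dbl 22 20 60))))))) .nd))))))) (.rp 11 (.str 3 (.nv (.thr 43 40 (.thr 23 63 (.dbl 22 20 60))) (.nv (.thr 1 61 (.thr 13 9 (.thr 49 25 (.dbl 33 17 45)))) (.nv (.thr 43 40 (.thr 60 22 (.thr 61 1 (.dbl 63 23 62)))) .nd)))) (.rp 3 (.str 11 (.nv (.thr 1 61 (.thr 26 56 (.thr 10 58 (.dbl 9 8 13)))) (.nv (.thr 32 47 (.thr 33 45 (.thr 40 43 (.thr 44 36 (.dbl 35 34 38))))) (.nv (.thr 1 61 (.thr 13 9 (.thr 49 25 (.dbl 33 17 45)))) (.rp 1 (.str 2 (.nv (.thr 22 62 (.thr 26 56 (.thr 10 58 (.thr 14 6 (.thr 18 30 (.dbl 50 34 38)))))) (.nv (.thr 43 40 (.thr 45 33 (.thr 47 32 (.thr 44 46 (.dbl 35 38 39))))) (.nv (.thr 40 43 (.thr 56 26 (.thr 8 24 (.thr 25 59 (.dbl 9 10 57))))) .nd)))) .nd))))) .nd)))))))) (.rp 14 (.str 41 (.nv (.thr 32 47 (.thr 33 45 (.thr 40 43 (.thr 44 36 (.dbl 35 34 38))))) (.nv (.thr 5 53 (.thr 1 61 (.thr 13 9 (.thr 33 45 (.dbl 49 17 25))))) (.rp 45 (.thr 40 43 (.thr 32 47 (.thr 44 36 (.thr 35 38 (.thr 33 34 (.thr 1 61 (.thr 5 53 (.thr 13 9 (.dbl 49 17 25))))))))) (.rp 33 (.thr 43 40 (.thr 47 32 (.thr 35 39 (.thr 44 38 (.thr 45 46 (.thr 61 1 (.thr 13 29 (.thr 53 5 (.dbl 49 25 57))))))))) .nd))))) (.rp 13 (.thr 47 32 (.str 15 (.nv (.thr 31 63 (.dbl 26 16 48)) (.rp 63 (.str 45 (.nv (.thr 48 26 (.thr 41 33 (.thr 43 40 (.thr 35 39 (.dbl 44 38 46))))) (.nv (.thr 30 60 (.thr 46 44 (.thr 62 14 (.thr 22 2 (.dbl 26 18 48))))) (.nv (.thr 44 46 (.thr 41 33 (.thr 35 38 (.dbl 43 39 40)))) (.rp 48 (.str 16 (.nv (.thr 53 5 (.thr 41 33 (.thr 43 40 (.thr 35 39 (.dbl 44 38 46))))) (.nv (.thr 26 31 (.thr 30 60 (.thr 46 44 (.thr 62 14 (.dbl 22 2 18))))) (.nv (.thr 44 46 (.thr 41 33 (.thr 35 38 (.dbl 43 39 40)))) (.rp 53 (.str 58 (.nv (.dbl 26 10 31) (.rp 31 (.thr 44 46 (.thr 41 33 (.thr 43 40 (.dbl 35 38 39)))) (.rp 26 (.thr 44 46 (.thr 41 33 (.thr 43 40 (.dbl 35 38 39)))) (.rp 10 (.thr 44 46 (.thr 41 33 (.thr 43 40 (.dbl 35 38 39)))) .nd))))) (.rp 46 (.thr 41 33 (.thr 43 40 (.thr 26 31 (.thr 11 56 (.thr 27 59 (.dbl 39 35 51)))))) (.rp 44 (.thr 41 33 (.thr 40 43 (.thr 26 31 (.thr 56 11 (.thr 8 24 (.thr 58 10 (.dbl 59 25 57))))))) (.rp 40 (.thr 41 33 (.thr 44 46 (.thr 35 38 (.thr 39 43 (.thr 60 30 (.thr 3 22 (.dbl 51 19 27))))))) (.rp 18 (.thr 46 44 (.thr 38 34 (.thr 26 31 (.thr 30 60 (.dbl 14 50 62))))) .nd))))))))) (.rp 46 (.thr 41 33 (.thr 43 40 (.thr 26 48 (.thr 16 31 (.thr 11 56 (.thr 27 59 (.dbl 39 35 51))))))) (.rp 44 (.thr 41 33 (.thr 40 43 (.thr 26 48 (.thr 16 31 (.thr 58 10 (.thr 56 11 (.thr 8 24 (.dbl 59 25 57)))))))) (.rp 40 (.thr 44 46 (.thr 41 33 (.thr 35 38 (.thr 39 43 (.thr 60 30 (.thr 3 22 (.dbl 51 19 27))))))) .nd)))))))) (.rp 48 (.str 16 (.nv (.dbl 31 26 63) (.rp 63 (.str 43 (.nv (.thr 26 31 (.thr 41 40 (.thr 11 56 (.thr 59 27 (.thr 8 25 (.dbl 10 9 58)))))) (.nv (.thr 26 31 (.thr 39 35 (.thr 27 51 (.thr 59 11 (.dbl 25 8 24))))) (.nv (.thr 35 39 (.thr 41 40 (.thr 44 38 (.dbl 45 33 46)))) (.rp 58 (.thr 53 5 (.thr 41 40 (.thr 35 39 (.thr 45 33 (.dbl 44 38 46))))) (.rp 53 (.str 58 (.nv (.dbl 26 10 31) (.rp 31 (.thr 35 39 (.thr 41 40 (.thr 45 33 (.dbl 44 38 46)))) (.rp 26 (.thr 35 39 (.thr 41 40 (.thr 45 33 (.dbl 44 38 46)))) (.rp 10 (.thr 35 39 (.thr 41 40 (.thr 45 33 (.dbl 44 38 46)))) .nd))))) .nd)))))) (.rp 31 (.str 41 (.nv (.thr 43 40 (.thr 35 39 (.thr 44 38 (.dbl 45 33 46)))) (.nv (.thr 45 33 (.thr 60 30 (.thr 61 1 (.thr 62 63 (.dbl 22 2 3))))) (.nv (.thr 45 33 (.thr 44 46 (.thr 35 38 (.dbl 43 39 40)))) (.rp 45 (.thr 43 40 (.thr 39 35 (.thr 27 51 (.thr 59 11 (.thr 25 8 (.thr 24 26 (.thr 17 29 (.thr 61 1 (.thr 19 18 (.dbl 28 20 22)))))))))) (.rp 35 (.str 34 (.nv (.thr 46 38 (.dbl 45 33 44)) (.rp 46 (.thr 45 33 (.thr 61 1 (.thr 60 30 (.thr 62 63 (.dbl 22 2 3))))) (.rp 45 (.thr 38 46 (.thr 39 36 (.thr 51 27 (.thr 55 4 (.thr 59 63 (.dbl 25 8 12)))))) (.rp 44 (.thr 45 33 (.thr 61 1 (.thr 60 30 (.thr 62 63 (.dbl 22 2 3))))) (.rp 38 (.thr 45 33 (.thr 61 1 (.thr 60 30 (.thr 62 63 (.dbl 22 2 3))))) (.rp 33 (.thr 38 46 (.thr 39 36 (.thr 51 27 (.thr 55 4 (.thr 59 63 (.dbl 25 8 12)))))) .nd))))))) (.rp 33 (.thr 43 40 (.thr 35 39 (.thr 44 38 (.thr 45 46 (.thr 61 1 (.thr 60 30 (.thr 3 22 (.dbl 63 23 62)))))))) .nd))))))) (.rp 26 (.str 43 (.nv (.thr 41 40 (.thr 61 1 (.thr 63 31 (.thr 60 62 (.dbl 3 22 23))))) (.nv (.thr 39 35 (.thr 51 27 (.thr 63 31 (.thr 55 59 (.dbl 38 4 36))))) (.nv (.thr 35 39 (.thr 41 40 (.thr 44 38 (.dbl 45 33 46)))) (.rp 23 (.thr 41 40 (.thr 45 33 (.thr 44 46 (.dbl 35 38 39)))) .nd))))) .nd))))) (.rp 31 (.thr 5 53 (.thr 48 26 (.str 38 (.nv (.thr 36 39 (.thr 12 24 (.thr 46 34 (.thr 29 63 (.dbl 25 17 51))))) (.nv (.thr 39 36 (.thr 51 27 (.thr 55 4 (.thr 59 63 (.dbl 25 8 12))))) (.nv (.thr 39 36 (.thr 46 34 (.thr 35 43 (.dbl 44 41 45)))) (.rp 51 (.thr 39 36 (.thr 35 43 (.thr 44 41 (.dbl 46 34 45)))) (.rp 39 (.str 22 (.nv (.thr 55 4 (.thr 46 34 (.thr 62 2 (.thr 30 14 (.dbl 45 44 60))))) (.nv (.thr 46 34 (.thr 45 44 (.thr 60 30 (.dbl 41 3 33)))) (.rp 60 (.thr 54 6 (.thr 55 4 (.thr 62 2 (.thr 50 58 (.thr 51 49 (.thr 59 63 (.dbl 25 8 12))))))) (.rp 55 (.thr 23 20 (.thr 46 34 (.thr 45 44 (.thr 60 30 (.dbl 41 3 33))))) (.rp 51 (.thr 23 20 (.thr 34 46 (.thr 2 62 (.thr 18 50 (.thr 3 33 (.thr 43 63 (.dbl 41 40 60))))))) (.rp 46 (.thr 54 6 (.thr 55 4 (.thr 62 2 (.thr 50 58 (.thr 51 49 (.thr 63 59 (.dbl 60 57 61))))))) (.rp 45 (.thr 54 6 (.thr 55 4 (.thr 62 2 (.thr 50 58 (.thr 51 49 (.thr 63 59 (.dbl 60 57 61))))))) (.rp 44 (.thr 46 34 (.thr 62 2 (.thr 30 14 (.thr 60 45 (.thr 61 63 (.dbl 41 1 3)))))) (.rp 35 (.thr 54 6 (.thr 55 4 (.thr 62 2 (.thr 50 58 (.thr 51 49 (.thr 63 59 (.dbl 60 57 61))))))) (.rp 34 (.thr 54 6 (.thr 55 4 (.thr 62 2 (.thr 50 58 (.thr 51 49 (.thr 63 59 (.dbl 60 57 61))))))) (.rp 33 (.thr 54 6 (.thr 55 4 (.thr 62 2 (.thr 50 58 (.thr 51 49 (.thr 63 59 (.dbl 60 57 61))))))) (.rp 30 (.thr 54 6 (.thr 55 4 (.thr 62 2 (.thr 50 58 (.thr 51 49 (.thr 63 59 (.dbl 60 57 61))))))) (.rp 17 (.thr 54 6 (.thr 55 4 (.thr 62 2 (.thr 50 58 (.thr 51 49 (.thr 63 59 (.dbl 60 57 61))))))) (.rp 3 (.thr 46 34 (.thr 45 44 (.thr 30 60 (.dbl 62 2 14)))) .nd))))))))))))))) (.rp 36 (.thr 55 4 (.thr 46 34 (.thr 44 45 (.thr 35 41 (.thr 39 43 (.thr 51 27 (.thr 59 63 (.dbl 25 8 12)))))))) .nd))))))))) (.rp 26 (.thr 5 53 (.thr 63 31 (.str 46 (.nv (.thr 45 44 (.thr 60 30 (.thr 61 62 (.dbl 41 1 33)))) (.nv (.thr 12 29 (.thr 38 34 (.thr 51 25 (.dbl 55 4 59)))) (.nv (.thr 38 34 (.thr 39 36 (.thr 35 43 (.dbl 44 41 45)))) (.rp 48 (.str 16 (.nv (.thr 45 44 (.thr 60 30 (.thr 61 62 (.dbl 41 1 33)))) (.nv (.thr 38 34 (.thr 55 4 (.thr 51 59 (.dbl 12 25 29)))) (.rp 33 (.thr 44 45 (.thr 38 34 (.thr 35 41 (.dbl 39 36 43)))) (.rp 29 (.thr 45 44 (.thr 41 33 (.thr 61 1 (.dbl 60 30 62)))) .nd))))) (.rp 45 (.thr 38 34 (.thr 39 36 (.thr 55 4 (.dbl 51 27 59)))) (.rp 33 (.thr 44 45 (.thr 38 34 (.thr 35 41 (.dbl 39 36 43)))) (.rp 16 (.str 48 (.nv (.thr 45 44 (.thr 60 30 (.thr 61 62 (.dbl 41 1 33)))) (.nv (.thr 38 34 (.thr 36 39 (.dbl 12 24 29))) (.rp 36 (.thr 12 29 (.thr 38 34 (.thr 55 4 (.dbl 51 25 59)))) (.rp 33 (.thr 12 29 (.thr 36 24 (.dbl 38 34 39))) (.rp 29 (.thr 45 44 (.thr 41 33 (.thr 61 1 (.dbl 60 30 62)))) .nd)))))) .nd)))))))))) (.rp 16 (.thr 48 26 (.thr 63 31 (.dbl 53 5 58))) .nd)))))))) (.rp 12 .ext (.rp 11 (.str 41 (.nv (.thr 32 47 (.thr 33 45 (.thr 40 43 (.thr 44 36 (.dbl 35 34 38))))) (.nv (.thr 45 33 (.thr 61 1 (.thr 13 29 (.thr 49 25 (.dbl 53 5 57))))) (.rp 45 (.thr 40 43 (.thr 32 47 (.thr 44 36 (.thr 35 38 (.thr 33 34 (.thr 1 61 (.thr 5 53 (.thr 13 9 (.dbl 49 17 25))))))))) (.rp 33 (.thr 43 40 (.thr 47 32 (.thr 35 39 (.thr 44 38 (.thr 45 46 (.thr 61 1 (.thr 13 29 (.thr 53 5 (.dbl 49 25 57))))))))) (.rp 15 (.str 3 (.nv (.thr 1 61 (.thr 5 53 (.thr 13 9 (.thr 49 25 (.dbl 33 17 45))))) (.nv (.thr 43 40 (.thr 23 63 (.dbl 22 20 60))) (.rp 10 (.thr 5 53 (.thr 43 40 (.thr 23 63 (.dbl 22 20 60)))) (.rp 5 (.str 10 (.nv (.thr 32 47 (.thr 40 43 (.thr 44 36 (.thr 35 38 (.dbl 33 34 45))))) (.nv (.thr 26 58 (.thr 33 45 (.thr 18 48 (.dbl 22 30 60)))) (.nv (.thr 43 40 (.thr 23 63 (.dbl 22 20 60))) (.rp 63 (.thr 45 33 (.thr 43 40 (.thr 47 32 (.thr 35 39 (.dbl 44 38 46))))) (.rp 6 (.str 4 (.nv (.thr 45 33 (.thr 47 32 (.thr 44 46 (.dbl 38 35 55)))) (.nv (.thr 43 40 (.thr 23 63 (.dbl 22 20 60))) (.rp 47 (.thr 33 45 (.thr 26 58 (.thr 18 48 (.dbl 22 30 60)))) .nd)))) (.rp 4 (.str 6 (.nv (.thr 43 40 (.thr 23 63 (.dbl 22 20 60))) (.nv (.thr 2 14 (.dbl 22 60 62)) (.rp 60 (.thr 45 33 (.thr 47 32 (.thr 44 46 (.thr 35 38 (.dbl 43 39 40))))) (.rp 22 (.thr 2 14 (.thr 33 45 (.thr 32 47 (.thr 34 35 (.dbl 18 48 50))))) (.rp 12 (.str 8 (.nv (.thr 1 61 (.thr 25 59 (.thr 17 29 (.dbl 33 45 49)))) (.nv (.thr 14 2 (.thr 22 60 (.thr 26 58 (.dbl 38 50 54)))) (.nv (.thr 25 59 (.thr 2 14 (.thr 13 49 (.dbl 22 60 62)))) (.rp 14 (.str 13 (.nv (.thr 45 33 (.dbl 61 1 29)) (.nv (.dbl 25 49 59) .nd))) .nd))))) (.rp 8 (.thr 12 9 (.thr 2 14 (.dbl 22 60 62))) .nd))))))) .nd))))))) .nd))))) (.rp 3 (.str 15 (.nv (.thr 1 61 (.thr 5 53 (.thr 13 9 (.thr 33 45 (.dbl 49 17 25))))) (.nv (.thr 47 32 (.thr 31 63 (.dbl 26 16 48))) (.rp 1 (.str 2 (.nv (.thr 22 62 (.thr 45 33 (.thr 30 60 (.dbl 26 18 48)))) (.nv (.thr 32 47 (.thr 33 45 (.thr 35 34 (.thr 44 38 (.dbl 40 36 43))))) (.nv (.thr 47 32 (.thr 31 63 (.dbl 26 16 48))) .nd)))) .nd)))) .nd))))))) (.rp 10 (.thr 5 53 (.str 1 (.nv (.thr 32 47 (.thr 41 61 (.thr 40 43 (.thr 44 36 (.thr 35 38 (.dbl 33 34 45)))))) (.nv (.thr 13 9 (.thr 41 61 (.thr 49 25 (.dbl 33 17 45)))) (.rp 61 (.thr 13 9 (.thr 32 47 (.thr 49 25 (.thr 33 17 (.thr 41 45 (.thr 40 43 (.thr 44 36 (.dbl 35 34 38)))))))) (.rp 49 (.thr 9 13 (.thr 47 32 (.thr 41 61 (.thr 57 25 (.thr 45 33 (.thr 44 46 (.thr 35 38 (.dbl 43 39 40)))))))) (.rp 45 (.thr 13 9 (.thr 32 47 (.thr 41 61 (.thr 40 43 (.thr 44 36 (.thr 35 38 (.thr 33 34 (.dbl 49 17 25)))))))) (.rp 41 (.str 15 (.nv (.thr 47 32 (.thr 31 63 (.dbl 26 16 48))) (.rp 63 (.thr 13 9 (.thr 12 14 (.thr 25 49 (.thr 38 51 (.thr 36 39 (.dbl 48 24 26)))))) (.rp 58 (.thr 13 9 (.thr 12 14 (.thr 47 32 (.thr 63 31 (.thr 29 46 (.dbl 25 17 49)))))) (.rp 48 (.thr 13 9 (.thr 12 14 (.thr 25 49 (.thr 29 17 (.thr 63 46 (.dbl 47 31 32)))))) (.rp 47 (.thr 13 9 (.thr 12 14 (.thr 25 49 (.thr 29 17 (.thr 46 63 (.dbl 38 34 51)))))) (.rp 32 (.thr 13 9 (.thr 12 14 (.thr 25 49 (.thr 29 17 (.thr 46 63 (.dbl 38 34 51)))))) (.rp 31 (.thr 13 9 (.thr 12 14 (.thr 25 49 (.thr 29 17 (.thr 46 63 (.dbl 38 34 51)))))) (.rp 26 (.thr 13 9 (.thr 12 14 (.thr 47 32 (.thr 63 31 (.thr 29 46 (.dbl 25 17 49)))))) (.rp 16 (.thr 13 9 (.thr 12 14 (.thr 25 49 (.thr 29 17 (.thr 46 63 (.dbl 38 34 51)))))) .nd)))))))))) (.rp 33 (.thr 13 9 (.thr 61 41 (.thr 29 45 (.dbl 25 17 49)))) .nd))))))))) (.rp 9 (.str 41 (.nv (.thr 45 33 (.thr 53 5 (.thr 61 1 (.thr 13 29 (.dbl 49 25 57))))) (.nv (.thr 32 47 (.thr 40 43 (.thr 33 45 (.thr 44 36 (.dbl 35 34 38))))) (.rp 45 (.str 3 (.nv (.thr 43 40 (.thr 23 63 (.dbl 22 20 60))) (.rp 63 (.thr 53 5 (.thr 47 32 (.thr 43 40 (.thr 35 39 (.thr 51 19 (.thr 60 22 (.thr 57 54 (.dbl 61 1 49)))))))) (.rp 60 (.thr 53 5 (.thr 32 47 (.thr 40 43 (.thr 44 36 (.thr 35 38 (.thr 33 34 (.thr 48 18 (.thr 58 63 (.dbl 26 10 15))))))))) (.rp 43 (.thr 61 1 (.thr 47 32 (.thr 60 22 (.thr 63 62 (.thr 15 31 (.thr 48 26 (.dbl 53 5 58))))))) (.rp 40 (.thr 61 1 (.thr 47 32 (.thr 60 22 (.thr 63 62 (.thr 15 31 (.thr 48 26 (.dbl 53 5 58))))))) (.rp 23 (.thr 61 1 (.thr 47 32 (.thr 60 22 (.thr 63 62 (.thr 15 31 (.thr 48 26 (.dbl 53 5 58))))))) (.rp 22 (.thr 53 5 (.thr 47 32 (.thr 43 40 (.thr 63 23 (.thr 15 31 (.dbl 48 26 58)))))) (.rp 20 (.thr 61 1 (.thr 43 40 (.thr 60 22 (.dbl 63 23 62)))) .nd))))))))) (.rp 33 (.thr 43 40 (.thr 47 32 (.thr 35 39 (.thr 44 38 (.thr 45 46 (.thr 61 1 (.thr 13 29 (.thr 53 5 (.dbl 49 25 57))))))))) .nd))))) (.rp 8 (.str 41 (.nv (.thr 5 53 (.thr 1 61 (.thr 13 9 (.thr 33 45 (.dbl 49 17 25))))) (.nv (.thr 32 47 (.thr 40 43 (.thr 33 45 (.thr 44 36 (.dbl 35 34 38))))) (.rp 45 (.thr 40 43 (.thr 32 47 (.thr 44 36 (.thr 35 38 (.thr 33 34 (.thr 1 61 (.thr 5 53 (.thr 13 9 (.dbl 49 17 25))))))))) (.rp 33 (.thr 43 40 (.thr 47 32 (.thr 35 39 (.thr 44 38 (.thr 45 46 (.thr 61 1 (.thr 13 29 (.thr 53 5 (.dbl 49 25 57))))))))) (.rp 12 (.str 4 (.nv (.thr 5 53 (.thr 33 45 (.thr 1 61 (.thr 49 17 (.dbl 13 9 25))))) (.nv (.thr 32 47 (.thr 38 55 (.thr 40 43 (.dbl 36 39 44)))) .nd))) (.rp 4 (.str 12 (.nv (.thr 1 61 (.thr 5 53 (.thr 13 9 (.thr 15 14 (.thr 47 32 (.thr 31 63 (.dbl 26 16 48))))))) (.nv (.thr 32 47 (.thr 33 45 (.thr 40 43 (.thr 44 36 (.dbl 35 34 38))))) (.nv (.thr 5 53 (.thr 1 61 (.thr 13 9 (.thr 33 45 (.dbl 49 17 25))))) (.rp 5 (.str 6 (.nv (.thr 3 9 (.thr 43 40 (.thr 23 63 (.dbl 22 20 60)))) (.nv (.thr 32 47 (.thr 33 45 (.thr 40 43 (.thr 44 36 (.dbl 35 34 38))))) (.nv (.thr 9 3 (.thr 1 61 (.thr 33 45 (.thr 25 57 (.dbl 49 13 17))))) (.rp 15 (.str 10 (.nv (.thr 2 14 (.thr 22 62 (.thr 38 54 (.thr 44 35 (.dbl 60 3 28))))) (.nv (.thr 3 9 (.thr 43 40 (.thr 23 63 (.dbl 22 20 60)))) (.nv (.thr 3 9 (.thr 2 14 (.dbl 22 60 62))) (.rp 60 (.thr 14 2 (.thr 26 58 (.thr 38 50 (.thr 25 51 (.dbl 9 3 57))))) (.rp 22 (.thr 14 2 (.thr 26 58 (.thr 38 50 (.thr 25 51 (.dbl 9 3 57))))) (.rp 3 (.str 11 (.nv (.dbl 26 56 58) (.rp 58 (.thr 45 33 (.thr 43 40 (.thr 47 32 (.thr 35 39 (.dbl 44 38 46))))) (.rp 56 (.thr 45 33 (.thr 47 32 (.thr 46 44 (.thr 29 63 (.dbl 61 1 13))))) (.rp 26 (.thr 45 33 (.thr 43 40 (.thr 47 32 (.thr 35 39 (.dbl 44 38 46))))) (.rp 2 (.thr 1 61 (.dbl 26 56 58)) (.rp 1 (.thr 2 14 (.dbl 26 56 58)) .nd))))))) .nd))))))) (.rp 10 (.str 15 (.nv (.thr 47 32 (.thr 31 63 (.dbl 26 16 48))) (.nv (.thr 13 14 (.thr 25 49 (.dbl 9 3 57))) (.rp 11 (.thr 9 3 (.thr 13 14 (.dbl 25 49 57))) (.rp 9 (.str 11 (.nv (.thr 13 14 (.thr 45 33 (.dbl 61 1 29))) (.nv (.dbl 26 48 56) (.rp 13 (.thr 1 61 (.dbl 26 48 56)) (.rp 1 (.thr 13 14 (.dbl 26 48 56)) .nd))))) .nd))))) .nd)))))) .nd))))) .nd))))))) (.rp 6 (.thr 5 53 (.str 1 (.nv (.thr 32 47 (.thr 41 61 (.thr 40 43 (.thr 44 36 (.thr 35 38 (.dbl 33 34 45)))))) (.nv (.thr 13 9 (.thr 41 61 (.thr 49 25 (.dbl 33 17 45)))) (.rp 61 (.thr 13 9 (.thr 32 47 (.thr 49 25 (.thr 33 17 (.thr 41 45 (.thr 40 43 (.thr 44 36 (.dbl 35 34 38)))))))) (.rp 49 (.thr 9 13 (.thr 47 32 (.thr 41 61 (.thr 57 25 (.thr 45 33 (.thr 44 46 (.thr 35 38 (.dbl 43 39 40)))))))) (.rp 45 (.thr 13 9 (.thr 32 47 (.thr 41 61 (.thr 40 43 (.thr 44 36 (.thr 35 38 (.thr 33 34 (.dbl 49 17 25)))))))) (.rp 41 (.str 15 (.nv (.thr 47 32 (.thr 31 63 (.dbl 26 16 48))) (.rp 63 (.thr 13 9 (.thr 12 14 (.thr 25 49 (.thr 38 51 (.thr 36 39 (.dbl 48 24 26)))))) (.rp 58 (.thr 13 9 (.thr 12 14 (.thr 47 32 (.thr 63 31 (.thr 29 46 (.dbl 25 17 49)))))) (.rp 48 (.thr 13 9 (.thr 12 14 (.thr 25 49 (.thr 29 17 (.thr 63 46 (.dbl 47 31 32)))))) (.rp 47 (.thr 13 9 (.thr 12 14 (.thr 25 49 (.thr 29 17 (.thr 46 63 (.dbl 38 34 51)))))) (.rp 32 (.thr 13 9 (.thr 12 14 (.thr 25 49 (.thr 29 17 (.thr 46 63 (.dbl 38 34 51)))))) (.rp 31 (.thr 13 9 (.thr 12 14 (.thr 25 49 (.thr 29 17 (.thr 46 63 (.dbl 38 34 51)))))) (.rp 26 (.thr 13 9 (.thr 12 14 (.thr 47 32 (.thr 63 31 (.thr 29 46 (.dbl 25 17 49)))))) (.rp 16 (.thr 13 9 (.thr 12 14 (.thr 25 49 (.thr 29 17 (.thr 46 63 (.dbl 38 34 51)))))) .nd)))))))))) (.rp 33 (.thr 13 9 (.thr 61 41 (.thr 29 45 (.dbl 25 17 49)))) .nd))))))))) (.rp 5 (.str 15 (.nv (.thr 47 32 (.thr 31 63 (.dbl 26 16 48))) (.rp 63 (.str 14 (.nv (.thr 26 48 (.thr 16 31 (.thr 38 50 (.thr 39 36 (.thr 51 27 (.dbl 12 13 25)))))) (.nv (.thr 13 12 (.thr 25 49 (.thr 29 17 (.thr 45 61 (.thr 47 32 (.thr 46 44 (.dbl 30 60 62))))))) (.nv (.thr 26 48 (.thr 58 10 (.thr 50 38 (.thr 62 54 (.thr 22 2 (.dbl 30 18 46)))))) (.nv (.thr 12 13 (.thr 26 48 (.thr 38 50 (.thr 51 25 (.dbl 39 27 36))))) (.rp 48 (.thr 13 12 (.thr 25 49 (.thr 29 17 (.thr 45 61 (.thr 30 60 (.thr 62 46 (.thr 28 31 (.dbl 22 2 19)))))))) (.rp 16 (.thr 12 13 (.thr 32 47 (.thr 26 48 (.thr 38 50 (.thr 39 36 (.dbl 51 25 27)))))) (.rp 6 (.str 4 (.nv (.thr 26 48 (.dbl 38 50 55)) (.nv (.thr 12 13 (.thr 38 55 (.thr 39 36 (.dbl 51 25 27)))) (.nv (.thr 38 55 (.dbl 26 48 50)) (.rp 55 (.thr 12 13 (.thr 26 48 (.thr 38 50 (.thr 39 36 (.dbl 51 25 27))))) (.rp 38 (.thr 13 12 (.thr 47 32 (.thr 25 49 (.thr 29 17 (.thr 45 61 (.thr 46 44 (.dbl 30 60 62))))))) .nd)))))) (.rp 4 (.str 6 (.nv (.thr 26 48 (.dbl 10 2 58)) (.nv (.thr 10 2 (.dbl 26 48 58)) (.rp 58 (.thr 2 10 (.thr 22 62 (.thr 38 54 (.thr 50 26 (.dbl 34 18 46))))) (.rp 48 (.thr 2 10 (.thr 22 62 (.thr 38 54 (.thr 34 46 (.dbl 50 18 26))))) (.rp 26 (.thr 12 13 (.thr 2 10 (.thr 22 62 (.thr 38 54 (.thr 39 36 (.dbl 51 25 27)))))) (.rp 12 (.str 8 (.nv (.thr 26 48 (.dbl 10 2 58)) (.nv (.thr 10 2 (.dbl 26 48 58)) (.rp 58 (.thr 2 10 (.thr 22 62 (.thr 38 54 (.thr 50 26 (.dbl 34 18 46))))) (.rp 48 (.thr 2 10 (.thr 22 62 (.thr 38 54 (.thr 50 26 (.dbl 34 18 46))))) (.rp 46 (.str 29 (.nv (.thr 10 2 (.dbl 26 48 58)) (.nv (.dbl 25 17 59) .nd))) (.rp 29 (.str 46 (.nv (.thr 26 48 (.dbl 38 34 50)) (.nv (.thr 2 10 (.dbl 62 22 30)) .nd))) (.rp 26 (.thr 10 2 (.thr 9 11 (.thr 25 59 (.thr 29 17 (.thr 41 57 (.thr 45 33 (.dbl 13 49 61))))))) (.rp 10 (.thr 26 48 (.thr 38 50 (.thr 46 34 (.thr 30 62 (.dbl 22 18 54))))) (.rp 2 (.thr 25 59 (.thr 26 48 (.thr 24 27 (.thr 56 40 (.thr 11 41 (.dbl 10 9 58)))))) .nd)))))))))) (.rp 10 (.thr 12 13 (.thr 26 48 (.thr 38 50 (.thr 39 36 (.dbl 51 25 27))))) (.rp 8 (.thr 12 13 (.thr 10 2 (.dbl 26 48 58))) (.rp 2 (.thr 12 13 (.thr 26 48 (.thr 38 50 (.thr 39 36 (.dbl 51 25 27))))) .nd)))))))))) .nd))))))))) (.rp 48 (.thr 32 47 (.str 38 (.nv (.thr 39 36 (.thr 46 34 (.thr 51 27 (.thr 12 25 (.thr 63 29 (.dbl 55 4 59)))))) (.nv (.thr 34 46 (.thr 35 33 (.thr 44 41 (.dbl 36 39 40)))) (.rp 46 (.thr 39 36 (.thr 51 27 (.thr 12 25 (.thr 14 13 (.thr 26 50 (.thr 10 58 (.thr 6 2 (.thr 54 22 (.thr 60 57 (.thr 45 30 (.thr 41 33 (.dbl 44 28 35)))))))))))) (.rp 39 (.thr 4 55 (.str 23 (.nv (.thr 22 20 (.thr 46 34 (.thr 54 6 (.thr 62 2 (.thr 50 58 (.dbl 14 26 30)))))) (.nv (.thr 34 46 (.thr 35 33 (.thr 44 41 (.thr 36 40 (.dbl 20 22 52))))) (.rp 46 (.thr 22 20 (.thr 2 62 (.thr 6 54 (.thr 14 10 (.thr 13 12 (.thr 25 49 (.thr 19 28 (.thr 31 27 (.dbl 26 16 50))))))))) (.rp 43 (.str 35 (.nv (.thr 20 22 (.thr 36 52 (.dbl 44 40 41))) (.nv (.dbl 34 33 46) .nd))) (.rp 40 (.thr 34 46 (.thr 35 33 (.thr 22 20 (.str 60 (.nv (.dbl 41 3 44) (.rp 45 (.thr 44 41 (.thr 54 6 (.thr 12 28 (.dbl 51 25 57)))) (.rp 44 (.thr 45 30 (.thr 54 6 (.thr 3 41 (.dbl 51 19 57)))) (.rp 41 (.thr 2 62 (.thr 18 50 (.dbl 30 26 45))) (.rp 18 (.thr 3 41 (.thr 54 6 (.dbl 51 19 57))) (.rp 3 (.str 18 (.nv (.dbl 30 26 45) (.nv (.dbl 2 50 62) (.rp 45 (.thr 44 41 (.dbl 2 50 62)) (.rp 44 (.thr 45 30 (.dbl 2 50 62)) (.rp 2 (.str 1 (.nv (.dbl 41 44 61) (.nv (.dbl 30 26 45) (.rp 45 (.thr 44 41 (.thr 54 6 (.thr 12 28 (.dbl 51 25 57)))) (.rp 44 (.thr 45 30 (.thr 61 41 (.thr 13 29 (.thr 25 49 (.dbl 12 14 51))))) .nd))))) .nd)))))) .nd)))))))))) (.rp 35 (.str 43 (.nv (.thr 40 41 (.thr 36 44 (.dbl 20 22 52))) (.nv (.thr 3 63 (.thr 41 40 (.thr 60 22 (.dbl 45 30 33)))) (.nv (.thr 20 22 (.thr 40 41 (.dbl 36 44 52))) (.rp 41 (.thr 46 34 (.thr 63 3 (.thr 12 29 (.thr 13 14 (.dbl 25 49 51))))) (.rp 40 (.thr 46 34 (.thr 63 3 (.thr 12 29 (.thr 13 14 (.dbl 25 49 51))))) (.rp 22 (.thr 46 34 (.thr 63 3 (.thr 12 29 (.thr 13 14 (.dbl 25 49 51))))) .nd))))))) (.rp 34 (.thr 22 20 (.thr 2 62 (.thr 6 54 (.thr 14 10 (.thr 13 12 (.thr 25 49 (.thr 19 28 (.thr 31 27 (.dbl 26 16 50))))))))) (.rp 22 (.str 35 (.nv (.dbl 34 33 46) (.rp 46 (.thr 33 34 (.dbl 41 44 45)) (.rp 34 (.thr 41 44 (.thr 45 33 (.thr 43 40 (.thr 61 1 (.thr 60 30 (.dbl 63 3 62)))))) (.rp 33 (.thr 41 44 (.thr 43 40 (.thr 3 63 (.thr 51 19 (.thr 25 12 (.thr 59 8 (.thr 11 27 (.thr 57 9 (.dbl 56 26 58))))))))) .nd))))) (.rp 20 (.str 43 (.nv (.thr 3 63 (.thr 41 40 (.thr 60 22 (.dbl 45 30 33)))) (.nv (.thr 46 34 (.thr 63 3 (.thr 12 29 (.thr 13 14 (.dbl 25 49 51))))) (.nv (.thr 34 46 (.thr 33 35 (.dbl 41 40 45))) (.rp 60 (.thr 40 41 (.thr 34 46 (.thr 35 33 (.thr 3 63 (.thr 51 19 (.thr 12 25 (.thr 14 13 (.thr 50 26 (.thr 2 18 (.dbl 6 9 10)))))))))) (.rp 40 (.str 60 (.nv (.thr 34 46 (.thr 33 35 (.dbl 45 30 41))) (.nv (.thr 46 34 (.thr 63 3 (.thr 12 29 (.thr 13 14 (.dbl 25 49 51))))) (.nv (.thr 45 30 (.thr 41 33 (.dbl 3 22 63))) (.rp 33 (.thr 46 34 (.thr 30 45 (.thr 62 14 (.dbl 63 3 61)))) .nd))))) (.rp 33 (.thr 3 63 (.thr 41 40 (.thr 60 22 (.thr 35 44 (.thr 51 19 (.thr 25 12 (.dbl 57 9 54))))))) .nd))))))) (.rp 3 (.thr 34 46 (.thr 20 22 (.thr 36 52 (.thr 44 40 (.dbl 35 33 41))))) .nd)))))))))))) (.rp 36 (.thr 4 55 (.str 12 (.nv (.thr 46 34 (.thr 29 63 (.dbl 25 17 51))) (.nv (.thr 13 14 (.dbl 25 49 51)) (.rp 51 (.thr 13 14 (.thr 34 46 (.thr 33 35 (.thr 45 41 (.thr 29 61 (.dbl 25 17 49)))))) (.rp 39 (.str 23 (.nv (.thr 46 34 (.thr 29 63 (.dbl 25 17 51))) (.nv (.thr 14 13 (.thr 22 20 (.thr 2 62 (.dbl 6 10 54)))) (.nv (.thr 13 14 (.dbl 25 49 51)) (.rp 43 (.str 35 (.nv (.thr 13 14 (.dbl 25 49 51)) (.nv (.dbl 34 33 46) .nd))) (.rp 35 (.str 43 (.nv (.thr 22 20 (.thr 6 54 (.dbl 3 9 63))) (.nv (.thr 13 14 (.dbl 25 49 51)) .nd))) .nd)))))) (.rp 25 (.thr 14 13 (.thr 46 34 (.thr 29 63 (.thr 30 62 (.thr 31 28 (.dbl 26 16 50)))))) (.rp 23 (.str 39 (.nv (.dbl 51 25 27) (.rp 51 (.thr 13 14 (.thr 34 46 (.thr 33 35 (.thr 45 41 (.thr 29 61 (.dbl 25 17 49)))))) (.rp 27 (.thr 13 14 (.dbl 25 49 51)) (.rp 25 (.thr 14 13 (.thr 46 34 (.thr 29 63 (.thr 30 62 (.thr 31 28 (.dbl 26 16 50)))))) .nd))))) .nd)))))))) (.rp 34 (.thr 39 36 (.thr 4 55 (.thr 51 27 (.thr 12 25 (.thr 14 13 (.thr 26 50 (.thr 31 16 (.thr 10 58 (.thr 2 6 (.thr 62 22 (.thr 30 46 (.thr 28 29 (.dbl 60 44 45))))))))))))) (.rp 6 (.thr 4 55 (.thr 34 46 (.thr 35 33 (.thr 44 41 (.dbl 36 39 40))))) (.rp 4 (.str 6 (.nv (.thr 22 54 (.thr 2 62 (.thr 14 10 (.thr 34 46 (.dbl 50 18 26))))) (.nv (.thr 22 54 (.thr 2 62 (.thr 14 10 (.thr 12 13 (.thr 39 36 (.dbl 51 25 27)))))) (.nv (.thr 34 46 (.thr 35 33 (.thr 44 41 (.dbl 36 39 40)))) (.rp 12 (.str 8 (.nv (.thr 22 54 (.thr 23 20 (.thr 25 59 (.thr 19 28 (.thr 27 31 (.dbl 39 36 51)))))) (.nv (.thr 22 54 (.thr 2 62 (.thr 14 10 (.thr 50 26 (.dbl 34 18 46))))) (.nv (.thr 36 39 (.thr 44 40 (.thr 35 41 (.dbl 34 33 46)))) (.rp 36 (.str 24 (.nv (.thr 40 56 (.thr 41 43 (.thr 33 45 (.dbl 34 35 46)))) (.nv (.thr 22 54 (.thr 25 59 (.thr 28 19 (.dbl 20 16 23)))) (.rp 52 (.str 20 (.nv (.thr 16 28 (.thr 25 59 (.dbl 26 27 31))) (.nv (.dbl 22 23 54) (.rp 60 (.thr 56 40 (.dbl 22 23 54)) (.rp 56 (.str 60 (.nv (.thr 16 28 (.thr 25 59 (.dbl 26 27 31))) (.nv (.dbl 22 23 54) .nd))) .nd))))) (.rp 20 (.str 52 (.nv (.thr 22 54 (.thr 2 62 (.thr 14 10 (.thr 25 59 (.dbl 26 27 50))))) (.nv (.thr 40 56 (.thr 41 43 (.thr 33 45 (.dbl 34 35 46)))) (.rp 40 (.str 60 (.nv (.thr 25 59 (.thr 26 27 (.thr 10 58 (.dbl 14 2 50)))) (.nv (.thr 22 54 (.thr 45 30 (.dbl 41 3 33))) .nd))) .nd)))) .nd))))) .nd))))) (.rp 8 (.str 12 (.nv (.thr 39 36 (.dbl 51 25 27)) (.nv (.thr 14 13 (.thr 2 10 (.dbl 22 54 62))) (.nv (.thr 13 14 (.dbl 25 49 51)) .nd)))) .nd)))))) .nd)))))))))) (.rp 47 (.str 13 (.nv (.thr 12 14 (.thr 25 49 (.thr 29 17 (.thr 46 63 (.dbl 38 34 51))))) (.nv (.thr 12 14 (.thr 25 49 (.thr 48 26 (.thr 36 24 (.dbl 38 39 51))))) (.rp 51 (.thr 14 12 (.thr 25 49 (.thr 26 48 (.thr 50 38 (.thr 58 10 (.thr 62 54 (.thr 30 46 (.dbl 22 2 18)))))))) (.rp 49 (.thr 14 12 (.thr 26 48 (.thr 58 10 (.thr 50 38 (.thr 62 54 (.thr 30 46 (.dbl 22 2 18))))))) (.rp 38 (.thr 25 49 (.thr 29 17 (.thr 45 61 (.thr 30 60 (.thr 31 28 (.dbl 26 16 48)))))) (.rp 25 (.thr 14 12 (.thr 26 48 (.thr 10 58 (.thr 38 50 (.thr 46 34 (.thr 62 30 (.dbl 2 6 22))))))) (.rp 14 (.thr 25 49 (.thr 29 17 (.thr 45 61 (.thr 30 60 (.thr 31 28 (.dbl 26 16 48)))))) (.rp 12 (.thr 25 49 (.thr 29 17 (.thr 45 61 (.thr 30 60 (.thr 26 48 (.dbl 31 16 28)))))) (.rp 6 (.str 4 (.nv (.thr 14 12 (.thr 26 48 (.dbl 38 50 55))) (.nv (.thr 12 14 (.thr 25 49 (.dbl 38 51 55))) (.rp 55 (.thr 12 14 (.thr 25 49 (.thr 29 17 (.thr 46 63 (.dbl 38 34 51))))) (.rp 38 (.thr 25 49 (.thr 29 17 (.thr 45 61 (.thr 30 60 (.thr 31 28 (.dbl 26 16 48)))))) (.rp 14 (.thr 38 55 (.thr 39 36 (.thr 51 27 (.dbl 25 12 49)))) (.rp 12 (.thr 38 55 (.thr 39 36 (.thr 27 51 (.thr 25 49 (.dbl 26 24 48))))) .nd))))))) (.rp 4 (.str 6 (.nv (.thr 12 14 (.thr 25 49 (.thr 29 17 (.thr 46 63 (.dbl 38 34 51))))) (.nv (.thr 26 48 (.thr 10 58 (.dbl 14 2 12))) (.rp 63 (.thr 12 14 (.thr 25 49 (.thr 38 51 (.thr 36 39 (.dbl 48 24 26))))) (.rp 14 (.thr 25 49 (.thr 29 17 (.thr 45 61 (.thr 30 60 (.thr 31 28 (.dbl 26 16 48)))))) (.rp 12 (.str 8 (.nv (.dbl 25 49 59) (.rp 59 (.thr 25 49 (.thr 29 17 (.thr 45 61 (.thr 30 60 (.thr 26 48 (.dbl 31 16 28)))))) (.rp 49 (.thr 25 59 (.thr 29 17 (.thr 45 61 (.thr 30 60 (.thr 26 48 (.dbl 31 16 28)))))) (.rp 25 (.thr 26 48 (.thr 10 58 (.thr 11 9 (.thr 41 56 (.thr 45 33 (.dbl 61 1 29)))))) .nd))))) .nd)))))) .nd))))))))))) (.rp 32 (.thr 26 48 (.thr 16 31 (.str 8 (.nv (.thr 25 59 (.thr 13 49 (.thr 12 14 (.thr 27 24 (.dbl 51 38 39))))) (.nv (.thr 58 10 (.thr 59 25 (.thr 56 57 (.thr 41 11 (.dbl 40 24 43))))) (.rp 59 (.thr 10 58 (.thr 11 9 (.thr 56 41 (.thr 24 40 (.thr 25 27 (.thr 17 29 (.thr 19 18 (.dbl 28 20 22)))))))) (.rp 25 (.thr 10 58 (.thr 11 9 (.thr 41 56 (.thr 45 33 (.thr 43 40 (.thr 60 30 (.thr 3 22 (.thr 63 23 (.dbl 61 1 62))))))))) (.rp 24 (.thr 10 58 (.thr 11 9 (.thr 41 56 (.thr 43 40 (.dbl 59 25 27))))) (.rp 6 (.str 4 (.nv (.thr 25 59 (.thr 13 49 (.thr 12 14 (.dbl 38 51 55)))) (.nv (.thr 25 59 (.thr 17 29 (.thr 19 18 (.thr 24 27 (.dbl 28 20 22))))) (.nv (.thr 25 59 (.thr 27 24 (.thr 38 55 (.dbl 39 36 51)))) (.rp 59 (.thr 38 55 (.thr 39 36 (.thr 14 50 (.thr 12 13 (.dbl 51 25 27))))) (.rp 25 (.thr 58 10 (.thr 38 55 (.thr 34 46 (.thr 50 14 (.thr 2 18 (.dbl 62 22 54)))))) .nd)))))) (.rp 4 (.str 6 (.nv (.thr 10 58 (.thr 14 2 (.thr 12 13 (.dbl 9 3 11)))) (.nv (.thr 25 59 (.thr 13 49 (.thr 12 14 (.thr 27 24 (.dbl 51 38 39))))) (.nv (.thr 58 10 (.thr 59 25 (.thr 56 57 (.thr 41 11 (.dbl 40 24 43))))) .nd)))) .nd)))))))))) (.rp 31 (.thr 48 26 (.thr 32 47 (.str 38 (.nv (.thr 34 46 (.thr 35 33 (.thr 44 41 (.dbl 36 39 40)))) (.nv (.thr 4 55 (.thr 39 36 (.thr 51 27 (.thr 25 12 (.dbl 49 13 50))))) (.rp 39 (.thr 34 46 (.thr 35 33 (.thr 44 41 (.thr 36 40 (.thr 12 24 (.thr 13 14 (.dbl 25 49 51))))))) (.rp 36 (.thr 34 46 (.thr 33 35 (.thr 18 3 (.thr 2 50 (.thr 62 22 (.thr 45 41 (.thr 60 30 (.thr 61 63 (.thr 29 13 (.thr 56 52 (.thr 25 17 (.thr 51 12 (.thr 57 54 (.dbl 59 8 58)))))))))))))) (.rp 4 (.str 6 (.nv (.thr 22 54 (.thr 2 62 (.thr 14 10 (.thr 12 13 (.dbl 36 24 39))))) (.nv (.thr 34 46 (.thr 35 33 (.thr 36 39 (.dbl 44 40 41)))) (.rp 39 (.thr 22 54 (.thr 34 46 (.thr 2 62 (.thr 50 18 (.thr 51 49 (.thr 14 10 (.dbl 12 13 25))))))) (.rp 36 (.thr 22 54 (.thr 34 46 (.thr 33 35 (.thr 18 3 (.dbl 2 50 62))))) (.rp 12 (.str 8 (.nv (.thr 22 54 (.thr 34 46 (.thr 33 35 (.thr 3 18 (.dbl 41 45 60))))) (.nv (.thr 25 59 (.thr 49 13 (.thr 51 50 (.dbl 39 27 36)))) (.rp 39 (.thr 22 54 (.thr 2 62 (.thr 34 46 (.thr 50 18 (.thr 25 59 (.dbl 49 13 51)))))) .nd)))) (.rp 8 (.str 12 (.nv (.thr 13 14 (.dbl 25 49 51)) (.nv (.dbl 36 24 39) .nd))) .nd))))))) .nd)))))))) (.rp 26 (.str 12 (.nv (.thr 47 32 (.thr 63 31 (.thr 29 46 (.thr 25 17 (.thr 59 8 (.dbl 51 38 55)))))) (.nv (.thr 13 14 (.thr 25 49 (.thr 47 32 (.thr 59 8 (.thr 63 31 (.dbl 51 38 55)))))) (.nv (.thr 47 32 (.thr 63 31 (.thr 46 29 (.thr 45 44 (.thr 30 60 (.dbl 14 13 62)))))) (.nv (.thr 13 14 (.thr 25 49 (.thr 29 17 (.thr 46 63 (.dbl 38 34 51))))) (.rp 63 (.thr 13 14 (.thr 47 32 (.thr 25 49 (.thr 29 17 (.thr 45 61 (.thr 46 44 (.dbl 38 34 51))))))) (.rp 6 (.str 4 (.nv (.thr 47 32 (.thr 63 31 (.thr 46 29 (.dbl 38 34 55)))) (.nv (.thr 38 55 (.thr 39 36 (.dbl 51 25 27))) (.rp 55 (.thr 13 14 (.thr 47 32 (.thr 63 31 (.thr 29 46 (.dbl 25 17 49))))) (.rp 38 (.thr 47 32 (.thr 63 31 (.thr 29 46 (.thr 25 17 (.dbl 13 14 49))))) .nd))))) (.rp 4 (.str 6 (.nv (.thr 47 32 (.thr 63 31 (.thr 29 46 (.thr 25 17 (.thr 51 38 (.dbl 59 8 55)))))) (.nv (.thr 3 9 (.thr 47 32 (.thr 63 31 (.thr 23 43 (.thr 22 20 (.thr 62 2 (.dbl 60 41 61))))))) (.nv (.thr 13 14 (.thr 25 49 (.thr 29 17 (.thr 46 63 (.dbl 38 34 51))))) (.rp 63 (.thr 13 14 (.thr 9 3 (.thr 25 49 (.thr 29 17 (.thr 45 61 (.dbl 41 33 57)))))) .nd))))) .nd)))))))) (.rp 16 (.str 13 (.nv (.thr 12 14 (.thr 48 26 (.thr 36 24 (.thr 38 39 (.dbl 25 49 51))))) (.nv (.thr 12 14 (.thr 25 49 (.thr 29 17 (.thr 63 46 (.dbl 47 31 32))))) (.nv (.thr 48 26 (.thr 25 49 (.thr 12 14 (.thr 38 51 (.dbl 36 24 39))))) (.rp 51 (.thr 12 14 (.thr 47 32 (.thr 48 26 (.thr 63 31 (.thr 29 46 (.dbl 25 17 49)))))) (.rp 49 (.thr 12 14 (.thr 47 32 (.thr 48 26 (.thr 63 31 (.thr 46 29 (.thr 38 34 (.dbl 36 24 39))))))) (.rp 48 (.thr 32 47 (.thr 12 14 (.thr 25 49 (.thr 29 17 (.thr 46 63 (.dbl 38 34 51)))))) (.rp 25 (.thr 12 14 (.thr 47 32 (.thr 48 26 (.thr 63 31 (.thr 46 29 (.thr 38 34 (.dbl 36 24 39))))))) (.rp 14 (.thr 25 49 (.thr 29 17 (.thr 45 61 (.thr 30 60 (.thr 31 28 (.dbl 47 32 63)))))) (.rp 12 (.thr 47 32 (.thr 48 26 (.thr 31 63 (.thr 25 49 (.thr 29 17 (.thr 30 28 (.dbl 45 60 61))))))) (.rp 6 (.str 4 (.nv (.thr 12 14 (.thr 25 49 (.thr 29 17 (.thr 63 46 (.dbl 47 31 32))))) (.nv (.thr 14 12 (.thr 38 55 (.dbl 26 48 50))) (.nv (.thr 12 14 (.thr 25 49 (.dbl 38 51 55))) (.rp 48 (.thr 32 47 (.thr 12 14 (.thr 38 55 (.dbl 25 49 51)))) (.rp 32 (.thr 48 26 (.thr 12 14 (.thr 38 55 (.dbl 36 24 39)))) (.rp 14 (.thr 38 55 (.thr 39 36 (.thr 51 27 (.dbl 25 12 49)))) (.rp 12 (.thr 38 55 (.thr 39 36 (.thr 27 51 (.thr 25 49 (.dbl 26 24 48))))) .nd)))))))) (.rp 4 (.str 6 (.nv (.thr 48 26 (.thr 12 14 (.thr 25 49 (.thr 36 24 (.dbl 38 39 51))))) (.nv (.thr 12 14 (.thr 25 49 (.thr 29 17 (.thr 46 63 (.dbl 38 34 51))))) (.nv (.thr 32 47 (.thr 26 48 (.thr 10 58 (.dbl 14 2 12)))) (.rp 48 (.thr 32 47 (.thr 12 14 (.thr 25 49 (.thr 29 17 (.thr 46 63 (.dbl 38 34 51)))))) (.rp 14 (.thr 25 49 (.thr 29 17 (.thr 45 61 (.thr 30 60 (.thr 31 28 (.dbl 47 32 63)))))) (.rp 12 (.str 8 (.nv (.dbl 25 49 59) (.rp 59 (.thr 47 32 (.thr 48 26 (.thr 31 63 (.thr 25 49 (.thr 29 17 (.thr 30 28 (.dbl 45 60 61))))))) (.rp 49 (.thr 47 32 (.thr 48 26 (.thr 31 63 (.thr 25 59 (.thr 29 17 (.thr 30 28 (.dbl 45 60 61))))))) (.rp 48 (.thr 32 47 (.dbl 25 49 59)) (.rp 32 (.thr 48 26 (.dbl 25 49 59)) (.rp 25 (.thr 32 47 (.thr 26 48 (.thr 10 58 (.thr 11 9 (.thr 41 56 (.thr 45 33 (.dbl 61 1 29))))))) .nd))))))) .nd))))))) .nd)))))))))))) (.rp 6 (.str 4 (.nv (.thr 47 32 (.thr 31 63 (.dbl 26 16 48))) (.rp 63 (.thr 47 32 (.thr 38 55 (.thr 39 36 (.thr 35 43 (.thr 44 41 (.dbl 46 34 45)))))) (.rp 48 (.thr 32 47 (.thr 38 55 (.thr 34 46 (.thr 35 33 (.thr 44 41 (.dbl 36 39 40)))))) (.rp 47 (.thr 38 55 (.thr 39 36 (.thr 51 27 (.thr 12 25 (.thr 14 13 (.dbl 26 48 50)))))) (.rp 32 (.thr 38 55 (.thr 39 36 (.thr 51 27 (.thr 12 25 (.thr 14 13 (.dbl 26 48 50)))))) (.rp 31 (.thr 47 32 (.thr 38 55 (.thr 39 36 (.thr 35 43 (.thr 44 41 (.dbl 46 34 45)))))) (.rp 26 (.thr 47 32 (.thr 38 55 (.thr 39 36 (.thr 35 43 (.thr 44 41 (.dbl 46 34 45)))))) (.rp 16 (.thr 32 47 (.thr 38 55 (.thr 34 46 (.thr 35 33 (.thr 44 41 (.dbl 36 39 40)))))) .nd))))))))) (.rp 4 (.str 6 (.nv (.thr 47 32 (.thr 31 63 (.dbl 26 16 48))) (.rp 63 (.str 12 (.nv (.thr 13 14 (.thr 25 49 (.thr 38 51 (.thr 36 39 (.dbl 48 24 26))))) (.nv (.thr 14 13 (.thr 10 2 (.dbl 26 48 58))) (.rp 48 (.thr 13 14 (.thr 9 3 (.thr 25 49 (.thr 29 17 (.thr 45 61 (.dbl 41 33 57)))))) (.rp 26 (.thr 13 14 (.thr 9 3 (.thr 25 49 (.thr 29 17 (.thr 45 61 (.dbl 41 33 57)))))) (.rp 14 (.thr 3 9 (.thr 47 32 (.thr 48 26 (.thr 33 18 (.thr 45 41 (.thr 44 46 (.dbl 60 28 30))))))) (.rp 13 (.thr 32 47 (.thr 48 26 (.thr 36 24 (.thr 38 39 (.thr 34 46 (.thr 44 40 (.dbl 35 33 41))))))) .nd))))))) (.rp 48 (.thr 32 47 (.str 38 (.nv (.thr 22 54 (.thr 2 62 (.thr 14 10 (.thr 34 46 (.dbl 50 18 26))))) (.nv (.thr 22 54 (.thr 2 62 (.thr 14 10 (.thr 12 13 (.thr 39 36 (.dbl 51 25 27)))))) (.nv (.thr 34 46 (.thr 35 33 (.thr 44 41 (.dbl 36 39 40)))) (.rp 12 (.str 8 (.nv (.thr 22 54 (.thr 23 20 (.thr 25 59 (.thr 19 28 (.thr 27 31 (.dbl 39 36 51)))))) (.nv (.thr 22 54 (.thr 2 62 (.thr 14 10 (.thr 50 26 (.dbl 34 18 46))))) (.nv (.thr 36 39 (.thr 44 40 (.thr 35 41 (.dbl 34 33 46)))) (.rp 36 (.str 24 (.nv (.thr 40 56 (.thr 41 43 (.thr 33 45 (.dbl 34 35 46)))) (.nv (.thr 22 54 (.thr 25 59 (.thr 28 19 (.dbl 20 16 23)))) (.rp 52 (.str 20 (.nv (.thr 16 28 (.thr 25 59 (.dbl 26 27 31))) (.nv (.dbl 22 23 54) (.rp 60 (.thr 56 40 (.dbl 22 23 54)) (.rp 56 (.str 60 (.nv (.thr 16 28 (.thr 25 59 (.dbl 26 27 31))) (.nv (.dbl 22 23 54) .nd))) .nd))))) (.rp 20 (.str 52 (.nv (.thr 22 54 (.thr 2 62 (.thr 14 10 (.thr 25 59 (.dbl 26 27 50))))) (.nv (.thr 40 56 (.thr 41 43 (.thr 33 45 (.dbl 34 35 46)))) (.rp 40 (.str 60 (.nv (.thr 25 59 (.thr 26 27 (.thr 10 58 (.dbl 14 2 50)))) (.nv (.thr 22 54 (.thr 45 30 (.dbl 41 3 33))) .nd))) .nd)))) .nd))))) .nd))))) (.rp 8 (.str 12 (.nv (.thr 39 36 (.dbl 51 25 27)) (.nv (.thr 14 13 (.thr 2 10 (.dbl 22 54 62))) (.nv (.thr 13 14 (.dbl 25 49 51)) .nd)))) .nd))))))) (.rp 47 (.thr 26 48 (.thr 10 58 (.thr 14 2 (.thr 12 13 (.thr 38 50 (.thr 39 36 (.dbl 51 25 27))))))) (.rp 32 (.thr 26 48 (.thr 16 31 (.thr 10 58 (.thr 14 2 (.thr 12 13 (.thr 38 50 (.thr 39 36 (.dbl 51 25 27)))))))) (.rp 31 (.thr 26 48 (.thr 10 58 (.thr 14 2 (.thr 12 13 (.thr 38 50 (.thr 39 36 (.dbl 51 25 27))))))) (.rp 26 (.str 12 (.nv (.thr 47 32 (.thr 63 31 (.thr 29 46 (.thr 25 17 (.thr 51 38 (.dbl 59 8 55)))))) (.nv (.thr 3 9 (.thr 47 32 (.thr 63 31 (.thr 23 43 (.thr 22 20 (.thr 62 2 (.dbl 60 41 61))))))) (.nv (.thr 13 14 (.thr 25 49 (.thr 29 17 (.thr 46 63 (.dbl 38 34 51))))) (.rp 63 (.thr 13 14 (.thr 9 3 (.thr 25 49 (.thr 29 17 (.thr 45 61 (.dbl 41 33 57)))))) .nd))))) (.rp 16 (.thr 32 47 (.thr 26 48 (.thr 10 58 (.thr 14 2 (.thr 12 13 (.thr 38 50 (.thr 39 36 (.dbl 51 25 27)))))))) (.rp 12 (.str 8 (.nv (.thr 47 32 (.thr 31 63 (.dbl 26 16 48))) (.rp 63 (.thr 25 59 (.thr 26 48 (.thr 24 27 (.thr 56 40 (.thr 11 41 (.dbl 10 9 58)))))) (.rp 48 (.thr 25 59 (.thr 29 17 (.thr 13 49 (.thr 45 61 (.thr 30 60 (.thr 28 31 (.thr 22 19 (.thr 62 2 (.thr 46 14 (.dbl 47 32 44)))))))))) (.rp 47 (.thr 25 59 (.thr 26 48 (.thr 24 27 (.thr 10 58 (.thr 11 9 (.dbl 56 40 41)))))) (.rp 46 (.thr 47 32 (.thr 25 59 (.thr 29 17 (.thr 31 63 (.dbl 26 16 48))))) (.rp 32 (.thr 25 59 (.thr 17 29 (.thr 26 48 (.thr 16 31 (.thr 24 27 (.thr 28 20 (.dbl 19 18 22))))))) (.rp 31 (.thr 25 59 (.thr 26 48 (.thr 24 27 (.thr 10 58 (.thr 11 9 (.dbl 56 40 41)))))) (.rp 29 (.thr 25 59 (.thr 26 48 (.thr 24 27 (.thr 10 58 (.thr 11 9 (.dbl 56 40 41)))))) (.rp 26 (.thr 47 32 (.thr 31 63 (.thr 25 59 (.thr 29 17 (.thr 30 28 (.thr 13 49 (.dbl 45 60 61))))))) (.rp 16 (.thr 32 47 (.thr 25 59 (.thr 26 48 (.thr 24 27 (.thr 10 58 (.thr 11 9 (.dbl 56 40 41))))))) .nd))))))))))) (.rp 8 (.str 12 (.nv (.thr 13 14 (.thr 25 49 (.thr 29 17 (.thr 46 63 (.dbl 38 34 51))))) (.nv (.thr 47 32 (.thr 31 63 (.dbl 26 16 48))) (.rp 63 (.thr 14 13 (.thr 10 2 (.dbl 26 48 58))) .nd)))) .nd))))))))))) .nd))))))))))) (.rp 4 (.thr 5 53 (.str 1 (.nv (.thr 32 47 (.thr 41 61 (.thr 40 43 (.thr 44 36 (.thr 35 38 (.dbl 33 34 45)))))) (.nv (.thr 13 9 (.thr 41 61 (.thr 49 25 (.dbl 33 17 45)))) (.rp 61 (.thr 13 9 (.thr 32 47 (.thr 49 25 (.thr 33 17 (.thr 41 45 (.thr 40 43 (.thr 44 36 (.dbl 35 34 38)))))))) (.rp 49 (.thr 9 13 (.thr 47 32 (.thr 41 61 (.thr 57 25 (.thr 45 33 (.thr 44 46 (.thr 35 38 (.dbl 43 39 40)))))))) (.rp 45 (.thr 13 9 (.thr 32 47 (.thr 41 61 (.thr 40 43 (.thr 44 36 (.thr 35 38 (.thr 33 34 (.dbl 49 17 25)))))))) (.rp 41 (.str 15 (.nv (.thr 47 32 (.thr 31 63 (.dbl 26 16 48))) (.rp 63 (.thr 13 9 (.thr 12 14 (.thr 25 49 (.thr 38 51 (.thr 36 39 (.dbl 48 24 26)))))) (.rp 58 (.thr 13 9 (.thr 12 14 (.thr 47 32 (.thr 63 31 (.thr 29 46 (.dbl 25 17 49)))))) (.rp 48 (.thr 13 9 (.thr 12 14 (.thr 25 49 (.thr 29 17 (.thr 63 46 (.dbl 47 31 32)))))) (.rp 47 (.thr 13 9 (.thr 12 14 (.thr 25 49 (.thr 29 17 (.thr 46 63 (.dbl 38 34 51)))))) (.rp 32 (.thr 13 9 (.thr 12 14 (.thr 25 49 (.thr 29 17 (.thr 46 63 (.dbl 38 34 51)))))) (.rp 31 (.thr 13 9 (.thr 12 14 (.thr 25 49 (.thr 29 17 (.thr 46 63 (.dbl 38 34 51)))))) (.rp 26 (.thr 13 9 (.thr 12 14 (.thr 47 32 (.thr 63 31 (.thr 29 46 (.dbl 25 17 49)))))) (.rp 16 (.thr 13 9 (.thr 12 14 (.thr 25 49 (.thr 29 17 (.thr 46 63 (.dbl 38 34 51)))))) (.rp 12 (.str 8 (.nv (.thr 47 32 (.thr 31 63 (.dbl 26 16 48))) (.nv (.thr 25 59 (.dbl 13 9 49)) .nd))) (.rp 8 (.str 12 (.nv (.thr 47 32 (.thr 31 63 (.dbl 26 16 48))) (.nv (.dbl 13 9 14) .nd))) .nd)))))))))))) (.rp 33 (.thr 13 9 (.thr 61 41 (.thr 29 45 (.dbl 25 17 49)))) (.rp 12 (.str 8 (.nv (.thr 25 59 (.thr 17 29 (.thr 33 49 (.dbl 41 45 61)))) (.nv (.thr 25 59 (.dbl 13 9 49)) (.rp 59 (.thr 13 9 (.thr 41 61 (.thr 33 45 (.dbl 49 17 25)))) (.rp 49 (.thr 9 13 (.thr 25 59 (.dbl 41 57 61))) (.rp 25 (.thr 9 13 (.thr 11 10 (.thr 41 61 (.thr 40 43 (.dbl 56 24 26))))) .nd)))))) (.rp 8 (.str 12 (.nv (.thr 41 61 (.thr 33 45 (.thr 49 17 (.dbl 13 9 25)))) (.nv (.thr 13 9 (.thr 15 14 (.thr 47 32 (.thr 31 63 (.dbl 26 16 48))))) (.nv (.thr 13 9 (.thr 41 61 (.thr 49 25 (.dbl 33 17 45)))) (.rp 13 (.thr 47 32 (.thr 41 61 (.thr 45 33 (.thr 44 46 (.thr 35 38 (.dbl 43 39 40)))))) (.rp 9 (.thr 47 32 (.thr 41 61 (.thr 45 33 (.thr 44 46 (.thr 35 38 (.dbl 43 39 40)))))) .nd)))))) .nd))))))))))) (.rp 3 (.thr 5 53 (.str 1 (.nv (.thr 32 47 (.thr 41 61 (.thr 40 43 (.thr 44 36 (.thr 35 38 (.dbl 33 34 45)))))) (.nv (.thr 13 9 (.thr 41 61 (.thr 49 25 (.dbl 33 17 45)))) (.rp 61 (.thr 13 9 (.thr 32 47 (.thr 49 25 (.thr 33 17 (.thr 41 45 (.thr 40 43 (.thr 44 36 (.dbl 35 34 38)))))))) (.rp 49 (.thr 9 13 (.thr 47 32 (.thr 41 61 (.thr 57 25 (.thr 45 33 (.thr 44 46 (.thr 35 38 (.dbl 43 39 40)))))))) (.rp 45 (.thr 13 9 (.thr 32 47 (.thr 41 61 (.thr 40 43 (.thr 44 36 (.thr 35 38 (.thr 33 34 (.dbl 49 17 25)))))))) (.rp 41 (.str 15 (.nv (.thr 47 32 (.thr 31 63 (.dbl 26 16 48))) (.rp 63 (.thr 13 9 (.thr 12 14 (.thr 25 49 (.thr 38 51 (.thr 36 39 (.dbl 48 24 26)))))) (.rp 60 (.str 22 (.nv (.thr 47 32 (.thr 31 63 (.dbl 26 16 48))) (.rp 63 (.thr 13 9 (.thr 12 14 (.thr 48 26 (.thr 36 24 (.thr 38 39 (.dbl 25 49 51)))))) (.rp 62 (.thr 13 9 (.thr 12 14 (.thr 47 32 (.thr 63 31 (.thr 25 49 (.dbl 29 17 46)))))) (.rp 61 (.thr 47 32 (.thr 62 2 (.thr 31 63 (.dbl 26 16 48)))) (.rp 58 (.thr 13 9 (.thr 12 14 (.thr 47 32 (.thr 63 31 (.thr 29 46 (.dbl 25 17 49)))))) (.rp 48 (.thr 13 9 (.thr 12 14 (.thr 25 49 (.thr 29 17 (.thr 63 46 (.dbl 47 31 32)))))) (.rp 47 (.thr 13 9 (.thr 12 14 (.thr 26 48 (.thr 25 49 (.thr 27 24 (.dbl 51 38 39)))))) (.rp 43 (.thr 13 9 (.thr 12 14 (.thr 47 32 (.thr 63 31 (.thr 29 46 (.dbl 25 17 49)))))) (.rp 40 (.thr 20 23 (.thr 13 9 (.thr 26 48 (.thr 16 31 (.thr 28 24 (.dbl 25 19 49)))))) (.rp 32 (.thr 13 9 (.thr 12 14 (.thr 48 26 (.thr 36 24 (.thr 38 39 (.dbl 25 49 51)))))) (.rp 31 (.thr 13 9 (.thr 12 14 (.thr 26 48 (.thr 25 49 (.thr 27 24 (.dbl 51 38 39)))))) (.rp 26 (.thr 13 9 (.thr 12 14 (.thr 47 32 (.thr 63 31 (.thr 29 46 (.dbl 25 17 49)))))) (.rp 23 (.thr 13 9 (.thr 12 14 (.thr 47 32 (.thr 63 31 (.thr 29 46 (.dbl 25 17 49)))))) (.rp 20 (.str 40 (.nv (.thr 13 9 (.thr 12 14 (.thr 32 47 (.thr 36 44 (.dbl 48 24 26))))) (.nv (.thr 13 9 (.thr 25 49 (.thr 8 59 (.thr 24 56 (.dbl 26 27 48))))) (.nv (.thr 47 32 (.thr 31 63 (.dbl 26 16 48))) (.rp 48 (.thr 13 9 (.thr 12 14 (.thr 32 47 (.thr 36 44 (.thr 38 39 (.dbl 25 49 51)))))) (.rp 26 (.thr 13 9 (.thr 12 14 (.thr 47 32 (.thr 63 31 (.thr 29 46 (.dbl 25 17 49)))))) .nd)))))) (.rp 16 (.thr 13 9 (.thr 12 14 (.thr 48 26 (.thr 36 24 (.thr 38 39 (.dbl 25 49 51)))))) .nd)))))))))))))))) (.rp 58 (.thr 13 9 (.thr 12 14 (.thr 47 32 (.thr 63 31 (.thr 29 46 (.dbl 25 17 49)))))) (.rp 48 (.thr 13 9 (.thr 12 14 (.thr 25 49 (.thr 29 17 (.thr 63 46 (.dbl 47 31 32)))))) (.rp 47 (.thr 13 9 (.thr 12 14 (.thr 25 49 (.thr 29 17 (.thr 46 63 (.dbl 38 34 51)))))) (.rp 43 (.thr 13 9 (.thr 12 14 (.thr 47 32 (.thr 63 31 (.thr 29 46 (.dbl 25 17 49)))))) (.rp 32 (.thr 13 9 (.thr 12 14 (.thr 25 49 (.thr 29 17 (.thr 46 63 (.dbl 38 34 51)))))) (.rp 31 (.thr 13 9 (.thr 12 14 (.thr 25 49 (.thr 29 17 (.thr 46 63 (.dbl 38 34 51)))))) (.rp 26 (.thr 13 9 (.thr 12 14 (.thr 47 32 (.thr 63 31 (.thr 29 46 (.dbl 25 17 49)))))) (.rp 23 (.thr 13 9 (.thr 12 14 (.thr 47 32 (.thr 63 31 (.thr 29 46 (.dbl 25 17 49)))))) (.rp 22 (.str 60 (.nv (.thr 13 9 (.thr 25 49 (.thr 29 17 (.dbl 45 30 61)))) (.nv (.thr 47 32 (.thr 31 63 (.dbl 26 16 48))) .nd))) (.rp 16 (.thr 13 9 (.thr 12 14 (.thr 25 49 (.thr 29 17 (.thr 46 63 (.dbl 38 34 51)))))) .nd)))))))))))))) (.rp 33 (.thr 13 9 (.thr 61 41 (.thr 29 45 (.dbl 25 17 49)))) (.rp 15 (.str 11 (.nv (.thr 9 13 (.thr 10 8 (.thr 26 58 (.dbl 41 56 61)))) (.nv (.thr 13 9 (.thr 41 61 (.thr 49 25 (.dbl 33 17 45)))) (.rp 61 (.thr 13 9 (.thr 32 47 (.thr 49 25 (.thr 33 17 (.thr 41 45 (.thr 40 43 (.thr 44 36 (.dbl 35 34 38)))))))) (.rp 41 (.thr 13 9 (.thr 25 49 (.thr 29 17 (.thr 59 8 (.thr 27 43 (.thr 26 24 (.thr 31 16 (.thr 28 30 (.dbl 19 22 23))))))))) (.rp 13 (.thr 47 32 (.thr 41 61 (.thr 45 33 (.thr 44 46 (.thr 35 38 (.dbl 43 39 40)))))) (.rp 12 (.thr 41 61 (.thr 33 45 (.thr 49 17 (.dbl 13 9 25)))) (.rp 9 (.thr 47 32 (.thr 41 61 (.thr 45 33 (.thr 44 46 (.thr 35 38 (.dbl 43 39 40)))))) .nd)))))))) (.rp 11 (.str 15 (.nv (.thr 13 9 (.thr 25 49 (.thr 29 17 (.dbl 61 41 45)))) (.nv (.thr 47 32 (.thr 31 63 (.dbl 26 16 48))) .nd))) .nd))))))))))) (.rp 2 (.thr 5 53 (.str 1 (.nv (.thr 32 47 (.thr 41 61 (.thr 40 43 (.thr 44 36 (.thr 35 38 (.dbl 33 34 45)))))) (.nv (.thr 13 9 (.thr 41 61 (.thr 49 25 (.dbl 33 17 45)))) (.rp 61 (.thr 13 9 (.thr 32 47 (.thr 49 25 (.thr 33 17 (.thr 41 45 (.thr 40 43 (.thr 44 36 (.dbl 35 34 38)))))))) (.rp 49 (.thr 9 13 (.thr 47 32 (.thr 41 61 (.thr 57 25 (.thr 45 33 (.thr 44 46 (.thr 35 38 (.dbl 43 39 40)))))))) (.rp 45 (.thr 13 9 (.thr 32 47 (.thr 41 61 (.thr 40 43 (.thr 44 36 (.thr 35 38 (.thr 33 34 (.dbl 49 17 25)))))))) (.rp 41 (.str 15 (.nv (.thr 47 32 (.thr 31 63 (.dbl 26 16 48))) (.rp 63 (.thr 13 9 (.thr 12 14 (.thr 25 49 (.thr 38 51 (.thr 36 39 (.dbl 48 24 26)))))) (.rp 58 (.thr 13 9 (.thr 12 14 (.thr 47 32 (.thr 63 31 (.thr 29 46 (.dbl 25 17 49)))))) (.rp 48 (.thr 13 9 (.thr 12 14 (.thr 25 49 (.thr 29 17 (.thr 63 46 (.dbl 47 31 32)))))) (.rp 47 (.thr 13 9 (.thr 12 14 (.thr 25 49 (.thr 29 17 (.thr 46 63 (.dbl 38 34 51)))))) (.rp 32 (.thr 13 9 (.thr 12 14 (.thr 25 49 (.thr 29 17 (.thr 46 63 (.dbl 38 34 51)))))) (.rp 31 (.thr 13 9 (.thr 12 14 (.thr 25 49 (.thr 29 17 (.thr 46 63 (.dbl 38 34 51)))))) (.rp 26 (.thr 13 9 (.thr 12 14 (.thr 47 32 (.thr 63 31 (.thr 29 46 (.dbl 25 17 49)))))) (.rp 16 (.thr 13 9 (.thr 12 14 (.thr 25 49 (.thr 29 17 (.thr 46 63 (.dbl 38 34 51)))))) .nd)))))))))) (.rp 33 (.thr 13 9 (.thr 61 41 (.thr 29 45 (.dbl 25 17 49)))) .nd))))))))) (.rp 1 (.str 15 (.nv (.thr 47 32 (.thr 31 63 (.dbl 26 16 48))) (.rp 63 (.thr 32 47 (.thr 26 48 (.thr 16 31 (.str 22 (.nv (.thr 53 5 (.thr 20 23 (.thr 18 30 (.thr 28 24 (.dbl 19 17 25))))) (.nv (.thr 2 62 (.thr 18 30 (.thr 50 34 (.thr 14 38 (.dbl 10 6 58))))) (.nv (.thr 18 30 (.thr 19 17 (.thr 28 25 (.dbl 20 23 24)))) (.rp 53 (.thr 58 10 (.thr 20 23 (.thr 18 30 (.thr 19 17 (.dbl 28 24 25))))) (.rp 30 (.thr 20 23 (.thr 28 24 (.thr 19 25 (.thr 18 17 (.thr 2 62 (.thr 34 50 (.thr 33 35 (.thr 46 38 (.thr 41 45 (.thr 43 40 (.thr 60 3 (.thr 12 44 (.thr 14 13 (.dbl 10 6 58)))))))))))))) (.rp 28 (.thr 30 18 (.thr 58 10 (.thr 60 45 (.thr 62 2 (.thr 3 41 (.thr 50 54 (.dbl 14 38 46))))))) (.rp 18 (.thr 20 23 (.thr 24 28 (.thr 27 25 (.thr 39 51 (.thr 38 36 (.thr 50 14 (.thr 54 6 (.dbl 58 10 62)))))))) (.rp 17 (.thr 30 18 (.thr 58 10 (.thr 60 45 (.thr 62 2 (.thr 3 41 (.thr 50 54 (.dbl 14 38 46))))))) (.rp 2 (.str 3 (.nv (.thr 18 30 (.thr 19 17 (.thr 20 23 (.dbl 28 24 25)))) (.nv (.thr 60 41 (.dbl 30 18 45)) (.rp 58 (.thr 53 5 (.thr 30 18 (.dbl 60 41 45))) (.rp 53 (.thr 58 10 (.thr 30 18 (.dbl 60 41 45))) (.rp 30 (.thr 20 23 (.thr 41 60 (.thr 40 43 (.thr 56 11 (.dbl 24 8 28))))) (.rp 18 (.thr 20 23 (.thr 24 28 (.thr 41 60 (.thr 40 43 (.dbl 56 8 11))))) .nd))))))) .nd))))))))))))) (.rp 48 (.thr 32 47 (.str 38 (.nv (.thr 39 36 (.thr 51 27 (.thr 55 4 (.thr 59 63 (.dbl 25 8 12))))) (.nv (.thr 34 46 (.thr 35 33 (.thr 44 41 (.dbl 36 39 40)))) (.rp 39 (.str 2 (.nv (.thr 46 34 (.thr 62 22 (.thr 14 30 (.thr 26 50 (.dbl 10 6 58))))) (.nv (.thr 34 46 (.thr 18 50 (.thr 22 62 (.thr 30 26 (.thr 45 60 (.dbl 33 35 41)))))) (.nv (.thr 22 62 (.thr 6 54 (.thr 14 10 (.thr 50 26 (.dbl 34 18 46))))) (.rp 62 (.thr 34 46 (.thr 55 4 (.thr 50 18 (.thr 14 26 (.thr 6 10 (.thr 53 5 (.dbl 54 22 52))))))) (.rp 58 (.thr 34 46 (.thr 22 62 (.thr 6 54 (.thr 50 18 (.dbl 14 10 26))))) (.rp 55 (.str 23 (.nv (.dbl 22 20 62) (.rp 62 (.thr 34 46 (.thr 22 20 (.thr 6 54 (.thr 14 10 (.dbl 50 18 26))))) (.rp 43 (.str 35 (.nv (.dbl 22 20 62) (.nv (.dbl 34 33 46) .nd))) (.rp 35 (.str 43 (.nv (.dbl 22 20 62) (.rp 62 (.thr 41 40 (.thr 3 63 (.dbl 22 20 60))) (.rp 22 (.thr 46 34 (.thr 63 3 (.thr 12 29 (.thr 13 14 (.dbl 25 49 51))))) (.rp 20 (.thr 3 63 (.thr 22 62 (.dbl 41 40 60))) .nd))))) (.rp 22 (.thr 34 46 (.thr 50 18 (.thr 26 14 (.thr 31 16 (.thr 19 27 (.thr 35 33 (.thr 3 51 (.thr 44 41 (.thr 63 43 (.thr 58 10 (.thr 62 54 (.thr 60 61 (.thr 30 45 (.dbl 28 12 29)))))))))))))) (.rp 20 (.thr 46 34 (.thr 62 22 (.thr 14 30 (.thr 10 6 (.dbl 26 50 58))))) .nd))))))) (.rp 50 (.thr 46 34 (.thr 62 22 (.thr 14 30 (.thr 12 13 (.thr 29 63 (.dbl 25 17 51)))))) (.rp 46 (.thr 22 62 (.thr 23 20 (.thr 55 4 (.thr 6 54 (.thr 14 10 (.thr 12 13 (.thr 51 25 (.thr 63 59 (.dbl 3 9 43))))))))) (.rp 43 (.str 35 (.nv (.thr 55 4 (.thr 33 34 (.dbl 41 44 45))) (.nv (.dbl 34 33 46) (.rp 55 (.str 23 (.nv (.dbl 22 20 62) (.nv (.dbl 34 33 46) .nd))) (.rp 34 (.thr 41 44 (.thr 45 33 (.thr 22 62 (.dbl 60 3 30)))) (.rp 33 (.thr 46 34 (.thr 62 22 (.thr 14 30 (.thr 10 6 (.dbl 26 50 58))))) .nd)))))) (.rp 35 (.str 43 (.nv (.thr 55 4 (.thr 22 62 (.thr 41 40 (.thr 45 33 (.dbl 60 3 30))))) (.nv (.thr 22 62 (.thr 6 54 (.thr 14 10 (.thr 34 46 (.dbl 50 18 26))))) (.nv (.thr 22 62 (.thr 23 20 (.thr 3 63 (.dbl 41 40 60)))) (.rp 62 (.thr 34 46 (.thr 55 4 (.thr 50 18 (.thr 14 26 (.thr 6 10 (.thr 53 5 (.dbl 54 22 52))))))) (.rp 55 (.str 23 (.nv (.dbl 22 20 62) (.rp 62 (.thr 41 40 (.thr 3 63 (.dbl 22 20 60))) (.rp 22 (.thr 46 34 (.thr 63 3 (.thr 12 29 (.thr 13 14 (.dbl 25 49 51))))) (.rp 20 (.thr 3 63 (.thr 22 62 (.dbl 41 40 60))) .nd))))) (.rp 22 (.thr 41 40 (.thr 34 46 (.thr 50 18 (.thr 26 14 (.thr 10 58 (.thr 11 56 (.thr 8 9 (.dbl 59 25 27)))))))) .nd))))))) (.rp 34 (.thr 22 62 (.thr 23 20 (.thr 55 4 (.thr 6 54 (.thr 14 10 (.thr 12 13 (.thr 51 25 (.thr 63 59 (.dbl 3 9 43))))))))) (.rp 26 (.thr 46 34 (.thr 22 62 (.thr 6 54 (.thr 14 10 (.thr 12 13 (.thr 29 63 (.dbl 25 17 51))))))) (.rp 23 (.thr 55 4 (.thr 46 34 (.thr 62 22 (.thr 14 30 (.thr 26 50 (.dbl 10 6 58)))))) (.rp 22 (.str 13 (.nv (.thr 55 4 (.thr 34 46 (.thr 50 18 (.dbl 14 12 26)))) (.nv (.thr 12 14 (.dbl 25 49 51)) (.rp 55 (.str 23 (.nv (.thr 14 12 (.thr 10 6 (.dbl 26 50 58))) (.nv (.thr 12 14 (.dbl 25 49 51)) (.rp 43 (.str 35 (.nv (.thr 12 14 (.dbl 25 49 51)) (.nv (.dbl 34 33 46) .nd))) (.rp 35 (.str 43 (.nv (.thr 14 12 (.thr 10 6 (.dbl 26 50 58))) (.nv (.thr 12 14 (.dbl 25 49 51)) (.rp 14 (.thr 46 34 (.thr 63 3 (.thr 12 29 (.dbl 25 49 51)))) (.rp 12 (.thr 41 40 (.thr 45 33 (.thr 29 61 (.dbl 25 17 49)))) .nd))))) (.rp 14 (.thr 34 46 (.thr 53 5 (.thr 49 25 (.thr 61 57 (.thr 45 29 (.dbl 33 35 41)))))) (.rp 12 (.thr 34 46 (.thr 25 49 (.thr 50 18 (.thr 26 14 (.thr 31 16 (.dbl 27 19 24)))))) .nd))))))) (.rp 43 (.str 35 (.nv (.thr 55 4 (.thr 12 14 (.dbl 25 49 51))) (.nv (.dbl 34 33 46) (.rp 55 (.str 23 (.nv (.thr 12 14 (.dbl 25 49 51)) (.nv (.dbl 34 33 46) .nd))) .nd)))) (.rp 35 (.str 43 (.nv (.thr 14 12 (.thr 10 6 (.dbl 26 50 58))) (.nv (.thr 41 40 (.thr 45 33 (.thr 29 61 (.dbl 25 17 49)))) (.nv (.thr 12 14 (.dbl 25 49 51)) (.rp 55 (.str 23 (.nv (.thr 14 12 (.thr 10 6 (.dbl 26 50 58))) (.nv (.thr 12 14 (.dbl 25 49 51)) (.rp 14 (.thr 46 34 (.thr 63 3 (.thr 12 29 (.dbl 25 49 51)))) (.rp 12 (.thr 41 40 (.thr 45 33 (.thr 29 61 (.dbl 25 17 49)))) .nd))))) (.rp 23 (.thr 55 4 (.thr 12 14 (.dbl 25 49 51))) .nd)))))) (.rp 14 (.thr 34 46 (.thr 53 5 (.thr 49 25 (.thr 61 57 (.thr 45 29 (.dbl 33 35 41)))))) (.rp 12 (.thr 46 34 (.thr 53 5 (.thr 49 25 (.thr 61 57 (.thr 45 29 (.thr 30 60 (.thr 14 62 (.thr 26 50 (.dbl 10 6 58))))))))) .nd)))))))) .nd))))))))))))))) (.rp 36 (.str 12 (.nv (.thr 46 34 (.thr 29 63 (.dbl 25 17 51))) (.nv (.thr 13 14 (.dbl 25 49 51)) (.rp 51 (.thr 13 14 (.thr 34 46 (.thr 33 35 (.thr 45 41 (.thr 29 61 (.dbl 25 17 49)))))) (.rp 25 (.thr 14 13 (.thr 46 34 (.thr 29 63 (.thr 30 62 (.thr 31 28 (.dbl 26 16 50)))))) (.rp 3 (.str 2 (.nv (.thr 46 34 (.thr 29 63 (.dbl 25 17 51))) (.nv (.thr 14 13 (.thr 6 10 (.dbl 22 54 62))) (.nv (.thr 13 14 (.dbl 25 49 51)) (.rp 33 (.str 18 (.nv (.thr 13 14 (.dbl 25 49 51)) (.nv (.dbl 34 46 50) (.rp 49 (.str 17 (.nv (.dbl 25 29 51) (.nv (.dbl 34 46 50) (.rp 51 (.thr 50 34 (.dbl 14 13 26)) (.rp 50 (.thr 51 25 (.thr 14 13 (.thr 6 10 (.dbl 22 54 62)))) .nd))))) (.rp 17 (.str 49 (.nv (.dbl 13 14 25) (.nv (.dbl 34 46 50) (.rp 34 (.thr 51 25 (.thr 14 13 (.thr 22 62 (.dbl 6 10 54)))) .nd)))) .nd))))) (.rp 18 (.str 33 (.nv (.thr 13 14 (.dbl 25 49 51)) (.nv (.dbl 34 35 46) .nd))) .nd)))))) (.rp 2 (.str 3 (.nv (.thr 34 46 (.thr 35 33 (.dbl 51 19 25))) (.nv (.thr 6 9 (.thr 54 22 (.thr 55 4 (.dbl 53 5 52)))) (.nv (.thr 13 14 (.dbl 25 49 51)) .nd)))) .nd))))))) (.rp 3 (.str 2 (.nv (.thr 36 39 (.thr 34 46 (.thr 44 40 (.dbl 35 33 41)))) (.nv (.thr 39 36 (.thr 51 27 (.thr 55 4 (.thr 59 63 (.dbl 25 8 12))))) (.nv (.thr 22 62 (.thr 6 54 (.thr 14 10 (.thr 50 26 (.dbl 34 18 46))))) (.rp 33 (.str 18 (.nv (.dbl 34 46 50) (.rp 50 (.thr 39 36 (.thr 51 27 (.thr 55 4 (.thr 59 63 (.dbl 25 8 12))))) (.rp 49 (.str 17 (.nv (.thr 16 19 (.thr 22 62 (.dbl 26 30 31))) (.nv (.dbl 34 46 50) (.rp 51 (.thr 50 34 (.thr 26 14 (.dbl 22 30 62))) (.rp 50 (.str 51 (.nv (.dbl 25 12 29) (.nv (.dbl 39 27 36) .nd))) .nd))))) (.rp 46 (.thr 50 34 (.thr 26 14 (.dbl 22 30 62))) (.rp 34 (.thr 22 62 (.thr 26 30 (.thr 14 50 (.dbl 10 6 58)))) (.rp 17 (.str 49 (.nv (.thr 25 13 (.thr 39 36 (.dbl 51 12 27))) (.nv (.dbl 34 46 50) (.rp 34 (.str 51 (.nv (.dbl 25 12 13) (.nv (.dbl 39 27 36) .nd))) .nd)))) .nd))))))) (.rp 18 (.str 33 (.nv (.thr 36 39 (.thr 41 45 (.dbl 44 35 40))) (.nv (.dbl 34 35 46) (.rp 35 (.thr 46 34 (.thr 62 22 (.thr 30 14 (.dbl 45 41 60)))) .nd)))) .nd)))))) (.rp 2 (.str 3 (.nv (.thr 39 36 (.thr 51 27 (.thr 55 4 (.thr 59 63 (.dbl 25 8 12))))) (.nv (.thr 34 46 (.thr 35 33 (.thr 44 41 (.dbl 36 39 40)))) (.rp 39 (.thr 34 46 (.thr 35 33 (.thr 55 4 (.thr 51 19 (.thr 59 63 (.dbl 25 8 12)))))) (.rp 36 (.thr 34 46 (.thr 35 33 (.thr 55 4 (.thr 51 19 (.thr 59 63 (.dbl 25 8 12)))))) .nd))))) .nd)))))))) (.rp 47 (.str 13 (.nv (.thr 12 14 (.thr 48 26 (.thr 36 24 (.thr 38 39 (.dbl 25 49 51))))) (.nv (.thr 12 14 (.thr 25 49 (.thr 48 26 (.thr 53 5 (.thr 63 58 (.dbl 29 17 46)))))) (.nv (.thr 12 14 (.thr 25 49 (.thr 17 29 (.thr 38 51 (.thr 48 26 (.dbl 36 24 39)))))) (.rp 49 (.thr 14 12 (.thr 26 48 (.thr 10 58 (.thr 2 6 (.thr 22 62 (.thr 18 30 (.dbl 50 34 38))))))) (.rp 48 (.thr 12 14 (.thr 25 49 (.thr 59 8 (.thr 51 38 (.thr 63 55 (.dbl 29 17 46)))))) (.rp 38 (.thr 53 5 (.thr 49 25 (.thr 61 57 (.thr 45 29 (.thr 60 30 (.thr 63 62 (.dbl 48 26 58))))))) (.rp 26 (.thr 12 14 (.thr 53 5 (.thr 25 49 (.thr 38 51 (.thr 36 39 (.thr 48 24 (.thr 63 58 (.dbl 46 29 34)))))))) (.rp 25 (.thr 14 12 (.thr 26 48 (.thr 10 58 (.thr 2 6 (.thr 22 62 (.thr 18 30 (.dbl 50 34 38))))))) (.rp 14 (.thr 53 5 (.thr 49 25 (.thr 61 57 (.thr 45 29 (.thr 60 30 (.thr 48 26 (.dbl 63 58 62))))))) (.rp 12 (.thr 53 5 (.thr 49 25 (.thr 61 57 (.thr 45 29 (.thr 60 30 (.thr 63 62 (.dbl 48 26 58))))))) (.rp 3 (.str 2 (.nv (.thr 12 14 (.thr 48 26 (.thr 36 24 (.thr 38 39 (.dbl 25 49 51))))) (.nv (.thr 26 48 (.thr 10 58 (.dbl 14 6 12))) (.rp 48 (.thr 14 12 (.thr 6 10 (.thr 22 62 (.thr 38 54 (.thr 34 46 (.dbl 50 18 26)))))) (.rp 26 (.thr 53 5 (.thr 49 25 (.thr 61 57 (.thr 45 29 (.thr 62 22 (.dbl 60 30 63)))))) (.rp 14 (.thr 53 5 (.thr 49 25 (.thr 61 57 (.thr 45 29 (.thr 62 22 (.dbl 60 30 63)))))) (.rp 12 (.thr 53 5 (.thr 49 25 (.thr 61 57 (.thr 45 29 (.thr 62 22 (.dbl 60 30 63)))))) .nd))))))) (.rp 2 (.str 3 (.nv (.thr 12 14 (.thr 48 26 (.thr 36 24 (.thr 38 39 (.dbl 25 49 51))))) (.nv (.thr 25 49 (.thr 48 26 (.thr 33 18 (.thr 45 41 (.dbl 29 17 61))))) (.nv (.thr 12 14 (.thr 25 49 (.thr 17 29 (.thr 38 51 (.thr 48 26 (.dbl 36 24 39)))))) (.rp 49 (.thr 53 5 (.thr 48 26 (.thr 33 18 (.thr 41 45 (.thr 43 40 (.dbl 63 23 58)))))) (.rp 48 (.thr 12 14 (.thr 25 49 (.thr 59 8 (.thr 51 38 (.thr 63 55 (.dbl 29 17 46)))))) (.rp 26 (.thr 53 5 (.thr 49 25 (.thr 61 57 (.thr 45 29 (.thr 41 33 (.dbl 60 22 30)))))) (.rp 25 (.thr 53 5 (.thr 48 26 (.thr 33 18 (.thr 41 45 (.thr 43 40 (.dbl 63 23 58)))))) .nd)))))))) .nd))))))))))))) (.rp 32 (.thr 26 48 (.thr 16 31 (.str 2 (.nv (.thr 10 58 (.thr 14 6 (.thr 13 12 (.thr 25 49 (.thr 17 29 (.thr 18 19 (.dbl 50 34 38))))))) (.nv (.thr 22 62 (.thr 20 23 (.thr 28 24 (.thr 19 25 (.dbl 18 17 30))))) (.nv (.thr 58 10 (.thr 62 22 (.thr 50 54 (.thr 38 14 (.dbl 34 18 46))))) (.rp 18 (.thr 10 58 (.thr 14 6 (.thr 38 50 (.thr 46 34 (.dbl 62 22 30))))) .nd))))))) (.rp 31 (.thr 47 32 (.thr 48 26 (.str 3 (.nv (.thr 33 18 (.thr 41 45 (.thr 53 5 (.thr 63 58 (.dbl 43 23 40))))) (.nv (.thr 53 5 (.thr 63 58 (.thr 23 43 (.thr 22 20 (.thr 60 41 (.dbl 62 2 61)))))) (.nv (.thr 33 18 (.thr 41 45 (.thr 43 40 (.thr 23 63 (.dbl 22 20 60))))) (.rp 63 (.thr 33 18 (.thr 41 45 (.thr 43 40 (.thr 35 39 (.thr 51 19 (.thr 49 50 (.thr 25 13 (.dbl 38 12 44)))))))) (.rp 43 (.thr 53 5 (.thr 63 58 (.thr 33 18 (.thr 45 41 (.thr 46 44 (.thr 29 12 (.thr 13 61 (.dbl 25 17 49)))))))) (.rp 41 (.thr 53 5 (.thr 63 58 (.thr 43 23 (.thr 39 35 (.thr 33 18 (.thr 38 36 (.thr 46 34 (.thr 12 29 (.dbl 51 25 27))))))))) (.rp 23 (.thr 53 5 (.thr 63 58 (.thr 33 18 (.thr 45 41 (.thr 46 44 (.thr 29 12 (.thr 13 61 (.dbl 25 17 49)))))))) (.rp 22 (.thr 53 5 (.thr 63 58 (.thr 43 23 (.thr 41 40 (.dbl 33 18 45))))) .nd))))))))))) (.rp 26 (.str 13 (.nv (.thr 25 49 (.thr 47 32 (.thr 59 8 (.thr 63 31 (.thr 51 55 (.dbl 12 14 38)))))) (.nv (.thr 12 14 (.thr 47 32 (.thr 25 49 (.thr 63 31 (.dbl 29 17 46))))) (.rp 63 (.thr 14 12 (.thr 47 32 (.thr 53 5 (.thr 49 25 (.thr 61 57 (.thr 45 29 (.thr 46 44 (.dbl 30 60 62)))))))) (.rp 49 (.thr 12 14 (.thr 47 32 (.thr 63 31 (.thr 46 29 (.thr 38 34 (.thr 39 36 (.dbl 51 25 27))))))) (.rp 48 (.thr 12 14 (.thr 53 5 (.thr 49 25 (.thr 61 57 (.thr 29 45 (.thr 63 46 (.dbl 47 31 32))))))) (.rp 47 (.thr 12 14 (.thr 53 5 (.thr 25 49 (.thr 38 51 (.thr 36 39 (.thr 48 24 (.thr 63 58 (.dbl 46 29 34)))))))) (.rp 38 (.thr 47 32 (.thr 63 31 (.thr 53 5 (.thr 49 25 (.thr 61 57 (.thr 45 29 (.dbl 60 30 62))))))) (.rp 33 (.thr 12 14 (.thr 47 32 (.thr 63 31 (.thr 29 46 (.dbl 25 17 49))))) (.rp 32 (.thr 12 14 (.thr 53 5 (.thr 25 49 (.thr 38 51 (.thr 36 39 (.thr 48 24 (.thr 63 58 (.dbl 46 29 34)))))))) (.rp 31 (.thr 14 12 (.thr 47 32 (.thr 53 5 (.thr 49 25 (.thr 61 57 (.thr 45 29 (.thr 46 44 (.dbl 30 60 62)))))))) (.rp 25 (.thr 12 14 (.thr 47 32 (.thr 63 31 (.thr 46 29 (.thr 44 45 (.thr 38 34 (.thr 39 36 (.dbl 35 41 43)))))))) (.rp 17 (.thr 12 14 (.thr 47 32 (.thr 63 31 (.thr 46 29 (.thr 38 34 (.thr 51 25 (.dbl 39 27 36))))))) (.rp 16 (.thr 12 14 (.thr 53 5 (.thr 49 25 (.thr 61 57 (.thr 29 45 (.thr 63 46 (.dbl 47 31 32))))))) (.rp 14 (.thr 47 32 (.thr 63 31 (.thr 53 5 (.thr 49 25 (.thr 61 57 (.thr 45 29 (.dbl 60 30 62))))))) (.rp 12 (.thr 47 32 (.thr 63 31 (.thr 53 5 (.thr 49 25 (.thr 61 57 (.thr 45 29 (.dbl 60 30 62))))))) (.rp 3 (.str 2 (.nv (.thr 22 62 (.thr 23 20 (.thr 25 49 (.thr 19 28 (.thr 31 27 (.dbl 47 32 63)))))) (.nv (.thr 14 12 (.thr 62 22 (.thr 30 46 (.thr 60 45 (.thr 63 61 (.dbl 47 31 32)))))) (.nv (.thr 12 14 (.thr 47 32 (.thr 25 49 (.thr 63 31 (.dbl 29 17 46))))) (.rp 63 (.thr 12 14 (.thr 25 49 (.thr 22 62 (.thr 19 28 (.thr 23 20 (.thr 27 31 (.dbl 51 38 39))))))) (.rp 47 (.thr 53 5 (.thr 49 25 (.thr 61 57 (.thr 45 29 (.thr 62 22 (.dbl 60 30 63)))))) (.rp 32 (.thr 53 5 (.thr 49 25 (.thr 61 57 (.thr 45 29 (.thr 62 22 (.dbl 60 30 63)))))) (.rp 31 (.thr 53 5 (.thr 49 25 (.thr 61 57 (.thr 45 29 (.thr 62 22 (.dbl 60 30 63)))))) .nd)))))))) (.rp 2 (.str 3 (.nv (.thr 12 14 (.thr 6 9 (.thr 25 49 (.thr 38 51 (.thr 22 54 (.thr 28 19 (.dbl 60 41 44))))))) (.nv (.thr 5 53 (.thr 47 32 (.thr 63 31 (.thr 43 23 (.thr 41 40 (.thr 60 22 (.dbl 45 30 33))))))) (.nv (.thr 12 14 (.thr 47 32 (.thr 25 49 (.thr 63 31 (.dbl 29 17 46))))) (.rp 48 (.thr 53 5 (.thr 49 25 (.thr 61 57 (.thr 45 29 (.thr 41 33 (.dbl 60 22 30)))))) (.rp 33 (.thr 12 14 (.thr 47 32 (.thr 63 31 (.thr 29 46 (.dbl 25 17 49))))) .nd)))))) .nd)))))))))))))))))) (.rp 16 (.thr 47 32 (.thr 48 26 (.thr 63 31 (.dbl 53 5 58)))) (.rp 3 (.str 2 (.nv (.thr 47 32 (.thr 48 26 (.thr 53 5 (.dbl 63 31 58)))) (.nv (.thr 47 32 (.thr 31 63 (.dbl 26 16 48))) (.rp 63 (.thr 22 62 (.thr 26 48 (.thr 18 30 (.thr 50 34 (.thr 14 38 (.dbl 10 6 58)))))) (.rp 48 (.str 33 (.nv (.thr 45 41 (.thr 62 22 (.thr 60 30 (.thr 63 61 (.dbl 47 31 32))))) (.nv (.thr 32 47 (.thr 35 34 (.thr 41 45 (.thr 44 38 (.dbl 40 36 43))))) (.rp 47 (.thr 45 41 (.thr 53 5 (.thr 62 22 (.thr 60 30 (.thr 61 63 (.thr 13 29 (.dbl 49 25 57))))))) (.rp 45 (.thr 32 47 (.thr 34 35 (.thr 62 22 (.thr 50 18 (.thr 58 54 (.thr 26 10 (.dbl 38 14 46))))))) (.rp 41 (.thr 32 47 (.thr 34 35 (.thr 38 46 (.thr 22 62 (.thr 6 54 (.thr 14 10 (.dbl 50 18 26))))))) (.rp 32 (.str 16 (.nv (.thr 22 62 (.thr 20 23 (.thr 28 24 (.thr 25 19 (.thr 29 17 (.dbl 31 26 30)))))) (.nv (.thr 45 41 (.thr 26 31 (.thr 22 62 (.dbl 30 18 60)))) (.rp 62 (.thr 41 45 (.thr 43 40 (.thr 26 31 (.thr 10 58 (.thr 11 56 (.thr 8 9 (.dbl 59 25 27))))))) (.rp 31 (.thr 45 41 (.thr 53 5 (.thr 62 22 (.thr 60 30 (.thr 61 63 (.thr 49 57 (.dbl 13 25 29))))))) (.rp 30 (.thr 26 31 (.thr 58 10 (.thr 62 22 (.thr 50 54 (.thr 34 18 (.dbl 38 14 46)))))) (.rp 26 (.thr 45 41 (.thr 22 62 (.thr 20 23 (.thr 28 24 (.thr 25 19 (.thr 29 17 (.dbl 30 31 60))))))) (.rp 22 (.thr 41 45 (.thr 43 40 (.thr 26 31 (.thr 10 58 (.thr 11 56 (.thr 8 9 (.dbl 59 25 27))))))) .nd)))))))) .nd))))))) (.rp 47 (.thr 22 62 (.thr 26 48 (.thr 18 30 (.thr 10 58 (.thr 14 6 (.dbl 50 34 38)))))) (.rp 32 (.thr 22 62 (.thr 20 23 (.thr 26 48 (.thr 16 31 (.thr 18 30 (.thr 19 17 (.dbl 28 24 25))))))) (.rp 31 (.thr 22 62 (.thr 26 48 (.thr 18 30 (.thr 10 58 (.thr 14 6 (.dbl 50 34 38)))))) (.rp 26 (.thr 47 32 (.thr 31 63 (.thr 22 62 (.thr 23 20 (.thr 27 19 (.thr 39 51 (.thr 35 43 (.thr 38 36 (.thr 44 41 (.dbl 46 34 45)))))))))) .nd))))))))) (.rp 2 (.str 3 (.nv (.thr 47 32 (.thr 31 63 (.dbl 26 16 48))) (.rp 63 (.thr 32 47 (.thr 48 26 (.thr 33 18 (.thr 41 45 (.thr 40 43 (.thr 44 36 (.dbl 35 34 38))))))) (.rp 48 (.thr 5 53 (.str 63 (.nv (.dbl 47 31 32) (.rp 47 (.thr 43 23 (.thr 41 40 (.thr 45 33 (.dbl 60 22 30)))) (.rp 32 (.str 16 (.nv (.dbl 31 26 47) (.rp 47 (.thr 43 23 (.thr 41 40 (.thr 60 22 (.dbl 45 30 33)))) (.rp 31 (.thr 43 23 (.thr 41 40 (.thr 60 22 (.dbl 45 30 33)))) (.rp 26 (.thr 43 23 (.thr 41 40 (.thr 60 22 (.dbl 45 30 33)))) .nd))))) (.rp 31 (.thr 43 23 (.thr 41 40 (.thr 45 33 (.dbl 60 22 30)))) (.rp 16 (.thr 32 47 (.thr 43 23 (.thr 41 40 (.thr 45 33 (.dbl 60 22 30))))) .nd))))))) (.rp 47 (.thr 53 5 (.thr 48 26 (.thr 33 18 (.thr 41 45 (.thr 43 40 (.dbl 63 23 58)))))) (.rp 32 (.thr 53 5 (.thr 48 26 (.thr 33 18 (.thr 41 45 (.thr 43 40 (.dbl 63 23 58)))))) (.rp 31 (.thr 53 5 (.thr 48 26 (.thr 33 18 (.thr 41 45 (.thr 43 40 (.dbl 63 23 58)))))) (.rp 26 (.thr 47 32 (.thr 63 31 (.thr 43 23 (.thr 41 40 (.thr 45 33 (.dbl 60 22 30)))))) (.rp 16 (.thr 47 32 (.thr 48 26 (.thr 63 31 (.dbl 53 5 58)))) .nd))))))))) .nd))))))))))) .nd))))))))))))))))))))))))))))))))))))))))))))))))))))))))))))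

theorem w257 : WinAt (4398048608256, 129) :=
  chF (K := [(4535487561728, 4225), (4535487561728, 1152921504606847105)]) (kc w254 (kc w256 kn)) c257 4398048608256 129 0
    [] (by decide +kernel) (by decide +kernel)

/-- A certificate. -/
noncomputable def c258 : Ct := (.str 48 (.nv (.thr 16 32 (.thr 26 31 (.thr 15 37 (.dbl 10 5 58)))) (.nv (.thr 32 16 (.thr 37 47 (.thr 15 26 (.dbl 5 10 53)))) (.rp 37 (.str 22 (.nv (.thr 20 23 (.thr 32 16 (.thr 40 60 (.thr 36 44 (.thr 12 24 (.dbl 4 8 52)))))) (.nv (.thr 16 32 (.thr 23 20 (.thr 31 26 (.thr 19 27 (.thr 25 28 (.dbl 17 18 29)))))) (.rp 32 (.thr 20 23 (.thr 60 40 (.thr 52 56 (.thr 36 4 (.thr 24 12 (.thr 16 28 (.thr 26 31 (.thr 3 41 (.dbl 18 30 33))))))))) (.rp 23 (.thr 16 32 (.thr 26 31 (.thr 30 18 (.thr 10 58 (.thr 15 5 (.thr 60 45 (.thr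 56 52 (.dbl 41 3 11)))))))) (.rp 20 (.thr 16 32 (.thr 26 31 (.thr 18 30 (.thr 17 19 (.thr 51 34 (.thr 49 50 (.dbl 33 1 3))))))) (.rp 16 (.thr 20 23 (.thr 60 40 (.thr 52 56 (.thr 4 36 (.thr 8 12 (.thr 25 59 (.thr 19 28 (.thr 3 41 (.thr 51 35 (.dbl 17 29 34)))))))))) .nd))))))) (.rp 32 (.str 38 (.nv (.thr 34 46 (.thr 51 17 (.thr 50 49 (.thr 26 14 (.thr 10 58 (.dbl 15 5 37)))))) (.nv (.thr 34 46 (.thr 51 17 (.thr 12 25 (.dbl 4 8 55)))) (.rp 51 (.thr 55 4 (.str 5 (.nv (.thr 37 53 (.dbl 15 10 26)) (.rp 53 (.thr 15 10 (.thr 26 37 (.thr 14 50 (.thr 13 12 (.thr 1 9 (.thr 41 61 (.thr 40 43 (.thr 60 20 (.dbl 56 11 52))))))))) (.rp 37 (.str 54 (.nv (.thr 52 53 (.thr 60 56 (.thr 20 40 (.dbl 22 6 23)))) (.nv (.thr 22 6 (.thr 52 53 (.thr 60 56 (.dbl 20 23 40)))) (.rp 60 (.thr 22 6 (.thr 23 20 (.thr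 10 15 (.thr 26 58 (.thr 31 16 (.thr 30 18 (.thr 28 29 (.dbl 19 25 27)))))))) (.rp 56 (.thr 22 6 (.thr 20 23 (.thr 10 15 (.thr 26 58 (.thr 18 30 (.thr 3 33 (.dbl 60 40 41))))))) (.rp 53 (.thr 22 6 (.thr 20 23 (.thr 10 15 (.thr 26 58 (.thr 18 30 (.thr 3 33 (.dbl 60 40 41))))))) (.rp 52 (.thr 22 6 (.thr 20 23 (.thr 10 15 (.thr 26 58 (.thr 18 30 (.thr 3 33 (.dbl 60 40 41))))))) (.rp 40 (.thr 22 6 (.thr 52 53 (.thr 10 15 (.thr 26 58 (.thr 18 30 (.thr 3 33 (.dbl 60 41 56))))))) (.rp 23 (.thr 22 6 (.thr 52 53 (.thr 60 56 (.thr 40 20 (.dbl 41 3 43))))) (.rp 22 (.thr 52 53 (.thr 15 10 (.thr 46 34 (.thr 60 56 (.thr 40 20 (.thr 41 43 (.thr 45 30 (.dbl 44 35 47)))))))) (.rp 20 (.thr 22 6 (.thr 52 53 (.thr 10 15 (.thr 26 58 (.thr 18 30 (.thr 3 33 (.dbl 60 41 56))))))) (.rp 6 (.thr 52 53 (.thr 10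 15 (.thr 26 58 (.thr 56 60 (.thr 11 41 (.thr 8 9 (.thr 25 59 (.dbl 24 27 40)))))))) .nd)))))))))))) (.rp 26 (.thr 53 37 (.thr 52 54 (.thr 15 10 (.thr 46 34 (.thr 60 56 (.thr 40 20 (.thr 41 43 (.thr 45 30 (.dbl 44 35 47))))))))) (.rp 15 (.thr 53 37 (.thr 52 54 (.thr 60 56 (.thr 40 20 (.thr 41 43 (.thr 1 61 (.thr 9 13 (.thr 3 22 (.thr 44 35 (.dbl 12 6 28)))))))))) (.rp 10 (.thr 53 37 (.thr 52 54 (.thr 60 56 (.thr 40 20 (.thr 41 43 (.thr 1 61 (.thr 9 13 (.thr 3 22 (.thr 44 35 (.dbl 12 6 28)))))))))) .nd)))))))) (.rp 46 (.thr 4 55 (.thr 12 8 (.thr 51 25 (.thr 50 49 (.thr 26 14 (.thr 10 58 (.dbl 15 5 37))))))) (.rp 34 (.thr 4 55 (.thr 12 8 (.thr 51 25 (.thr 50 49 (.thr 26 14 (.thr 10 58 (.dbl 15 5 37))))))) (.rp 29 (.thr 4 55 (.thr 34 46 (.thr 12 8 (.dbl 51 17 25)))) (.rp 17 (.thr 4 55 (.thr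 12 8 (.thr 51 25 (.thr 50 49 (.thr 26 14 (.thr 10 58 (.dbl 15 5 37))))))) (.rp 12 (.str 51 (.nv (.dbl 34 17 46) (.rp 46 (.str 29 (.nv (.dbl 17 25 34) (.rp 34 (.thr 50 49 (.thr 26 14 (.thr 10 58 (.dbl 15 5 37)))) (.rp 25 (.thr 50 49 (.thr 26 14 (.thr 10 58 (.dbl 15 5 37)))) (.rp 17 (.thr 50 49 (.thr 26 14 (.thr 10 58 (.dbl 15 5 37)))) .nd))))) (.rp 34 (.thr 50 49 (.thr 26 14 (.thr 10 58 (.dbl 15 5 37)))) (.rp 29 (.thr 46 34 (.thr 50 49 (.thr 26 14 (.thr 10 58 (.dbl 15 5 37))))) (.rp 17 (.thr 50 49 (.thr 26 14 (.thr 10 58 (.dbl 15 5 37)))) .nd)))))) .nd))))))))) (.rp 26 (.str 51 (.nv (.thr 16 32 (.thr 17 34 (.thr 18 19 (.thr 33 3 (.dbl 49 1 50))))) (.nv (.thr 34 17 (.thr 38 46 (.thr 12 25 (.dbl 4 8 55)))) (.rp 34 (.thr 32 16 (.thr 37 47 (.thr 5 53 (.thr 15 10 (.thr 39 27 (.thr 38 36 (.thr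 4 55 (.dbl 12 8 25)))))))) (.rp 17 (.thr 49 50 (.thr 32 16 (.thr 37 47 (.thr 25 13 (.thr 8 59 (.dbl 12 4 38)))))) .nd))))) (.rp 16 (.str 38 (.nv (.thr 4 55 (.thr 12 8 (.thr 34 46 (.dbl 51 17 25)))) (.nv (.thr 34 46 (.thr 51 17 (.thr 50 49 (.thr 26 14 (.thr 10 58 (.dbl 15 5 37)))))) (.nv (.thr 34 46 (.thr 51 17 (.thr 12 25 (.dbl 4 8 55)))) (.rp 51 (.thr 55 4 (.str 37 (.nv (.thr 5 53 (.dbl 15 10 26)) (.rp 53 (.thr 39 36 (.thr 47 32 (.thr 35 43 (.thr 46 34 (.dbl 44 41 45))))) (.rp 26 (.thr 39 36 (.thr 47 32 (.thr 35 43 (.thr 46 34 (.dbl 44 41 45))))) (.rp 15 (.thr 39 36 (.thr 47 32 (.thr 35 43 (.thr 46 34 (.dbl 44 41 45))))) (.rp 10 (.thr 39 36 (.thr 47 32 (.thr 35 43 (.thr 46 34 (.dbl 44 41 45))))) (.rp 5 (.str 6 (.nv (.thr 54 22 (.thr 26 15 (.thr 58 10 (.dbl 50 14 62)))) (.nv (.thr 22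 54 (.thr 36 39 (.thr 12 24 (.thr 3 9 (.thr 20 23 (.dbl 60 40 41)))))) (.nv (.thr 46 34 (.thr 47 32 (.thr 44 45 (.thr 35 41 (.dbl 39 36 43))))) (.rp 39 (.thr 22 54 (.thr 20 23 (.thr 15 26 (.thr 60 40 (.thr 45 30 (.dbl 41 3 33)))))) .nd))))) .nd)))))))) (.rp 46 (.thr 4 55 (.thr 12 8 (.thr 51 25 (.thr 50 49 (.thr 26 14 (.thr 10 58 (.dbl 15 5 37))))))) (.rp 34 (.thr 4 55 (.thr 12 8 (.thr 51 25 (.thr 50 49 (.thr 26 14 (.thr 10 58 (.dbl 15 5 37))))))) (.rp 17 (.thr 4 55 (.thr 12 8 (.thr 51 25 (.thr 50 49 (.thr 26 14 (.thr 10 58 (.dbl 15 5 37))))))) (.rp 12 (.str 51 (.nv (.dbl 34 17 46) (.rp 46 (.str 29 (.nv (.dbl 17 25 34) (.rp 34 (.thr 50 49 (.thr 26 14 (.thr 10 58 (.dbl 15 5 37)))) (.rp 25 (.thr 50 49 (.thr 26 14 (.thr 10 58 (.dbl 15 5 37)))) (.rp 17 (.thr 50 49 (.thr 26 14 (.thr 10 58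 (.dbl 15 5 37)))) .nd))))) (.rp 34 (.thr 50 49 (.thr 26 14 (.thr 10 58 (.dbl 15 5 37)))) (.rp 29 (.thr 46 34 (.thr 50 49 (.thr 26 14 (.thr 10 58 (.dbl 15 5 37))))) (.rp 17 (.thr 50 49 (.thr 26 14 (.thr 10 58 (.dbl 15 5 37)))) .nd)))))) .nd))))))))) (.rp 15 (.thr 16 32 (.thr 31 26 (.str 25 (.nv (.thr 8 59 (.thr 12 4 (.thr 24 36 (.thr 20 28 (.dbl 40 56 60))))) (.nv (.thr 8 59 (.thr 17 29 (.thr 12 4 (.dbl 51 34 38)))) (.nv (.thr 29 17 (.thr 28 30 (.thr 22 19 (.dbl 20 23 24)))) (.rp 11 (.str 3 (.nv (.thr 8 59 (.thr 12 4 (.thr 17 29 (.dbl 51 34 38)))) (.nv (.thr 18 33 (.dbl 17 19 29)) (.rp 56 (.str 41 (.nv (.thr 17 29 (.dbl 18 19 33)) (.nv (.thr 40 43 (.dbl 60 20 22)) .nd))) (.rp 41 (.str 56 (.nv (.thr 8 59 (.thr 40 24 (.dbl 60 20 52))) (.nv (.thr 17 29 (.dbl 18 19 33)) .nd))) (.rp 34 (.thr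 17 29 (.dbl 18 19 33)) (.rp 29 (.thr 18 33 (.thr 19 17 (.thr 23 27 (.dbl 22 20 28)))) (.rp 17 (.thr 8 59 (.thr 12 4 (.thr 24 36 (.thr 20 28 (.dbl 40 56 60))))) .nd)))))))) (.rp 3 (.str 11 (.nv (.thr 8 59 (.thr 12 4 (.thr 24 36 (.thr 20 28 (.dbl 40 56 60))))) (.nv (.thr 8 59 (.thr 17 29 (.thr 12 4 (.dbl 51 34 38)))) (.nv (.thr 29 17 (.thr 28 30 (.thr 20 24 (.dbl 22 19 23)))) (.rp 43 (.str 23 (.nv (.thr 8 59 (.thr 12 4 (.thr 17 29 (.dbl 51 34 38)))) (.nv (.thr 22 20 (.dbl 19 27 28)) .nd))) (.rp 23 (.str 43 (.nv (.dbl 59 8 27) (.rp 59 (.thr 40 41 (.thr 29 17 (.thr 28 30 (.dbl 20 24 60)))) (.rp 55 (.str 39 (.nv (.dbl 59 8 27) (.rp 59 (.str 51 (.nv (.thr 35 47 (.thr 41 40 (.dbl 38 12 44))) (.nv (.dbl 17 29 34) .nd))) (.rp 27 (.thr 41 40 (.thr 9 57 (.dbl 8 10 59))) (.rp 8 (.thr 29 17 (.thr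 40 41 (.thr 28 30 (.dbl 20 24 60)))) .nd))))) (.rp 39 (.str 55 (.nv (.thr 17 29 (.thr 38 4 (.dbl 34 46 51))) (.nv (.dbl 59 8 27) (.rp 51 (.thr 27 59 (.thr 29 17 (.thr 40 41 (.thr 28 30 (.dbl 20 24 60))))) (.rp 27 (.str 51 (.nv (.dbl 38 4 12) (.nv (.dbl 17 29 34) .nd))) .nd))))) (.rp 27 (.thr 8 59 (.thr 9 10 (.dbl 41 40 57))) (.rp 8 (.thr 40 41 (.thr 29 17 (.thr 28 30 (.dbl 20 24 60)))) .nd))))))) .nd)))))) .nd)))))))) (.rp 10 (.thr 32 16 (.str 52 (.nv (.thr 60 56 (.thr 40 20 (.thr 44 36 (.thr 41 43 (.thr 38 35 (.thr 47 37 (.dbl 46 34 45))))))) (.nv (.thr 37 47 (.thr 53 5 (.thr 55 54 (.thr 4 38 (.thr 36 20 (.dbl 12 8 24)))))) (.nv (.thr 37 47 (.thr 15 26 (.thr 60 56 (.thr 45 30 (.thr 41 33 (.dbl 40 20 43)))))) (.rp 47 (.thr 60 56 (.thr 40 20 (.thr 44 36 (.thr 41 43 (.thr 35 38 (.thr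 33 34 (.dbl 3 18 22))))))) (.rp 37 (.thr 60 56 (.thr 40 20 (.thr 44 36 (.thr 41 43 (.thr 38 35 (.thr 4 55 (.dbl 12 8 28))))))) (.rp 20 (.thr 60 56 (.thr 37 47 (.thr 53 5 (.thr 54 55 (.thr 51 57 (.thr 49 50 (.thr 25 13 (.dbl 17 29 34)))))))) (.rp 14 (.str 6 (.nv (.thr 37 47 (.thr 53 5 (.thr 55 54 (.thr 4 38 (.thr 12 8 (.dbl 36 20 24)))))) (.nv (.thr 37 47 (.thr 53 5 (.thr 54 55 (.thr 38 22 (.thr 60 56 (.thr 51 57 (.dbl 34 17 46))))))) (.nv (.thr 60 56 (.thr 40 20 (.thr 36 44 (.thr 41 43 (.thr 3 22 (.dbl 12 9 24)))))) .nd)))) (.rp 6 (.str 14 (.nv (.thr 37 47 (.thr 15 26 (.thr 12 13 (.thr 4 8 (.thr 53 5 (.dbl 55 38 54)))))) (.nv (.thr 37 47 (.thr 60 56 (.thr 40 20 (.thr 41 43 (.thr 3 22 (.dbl 33 18 45)))))) (.nv (.thr 37 47 (.thr 15 26 (.thr 12 13 (.thr 4 8 (.dbl 36 20 24))))) (.rp 47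 (.thr 60 56 (.thr 20 40 (.thr 4 36 (.thr 38 55 (.thr 26 50 (.thr 15 37 (.dbl 12 8 13))))))) (.rp 37 (.thr 60 56 (.thr 20 40 (.thr 4 36 (.thr 38 55 (.thr 50 26 (.thr 34 46 (.dbl 51 17 49))))))) (.rp 15 (.thr 60 56 (.thr 40 20 (.thr 41 43 (.thr 3 22 (.thr 33 18 (.dbl 37 45 47)))))) (.rp 5 (.str 4 (.nv (.thr 12 8 (.thr 15 13 (.dbl 37 26 47))) (.nv (.thr 20 36 (.dbl 60 40 56)) .nd))) (.rp 4 (.str 5 (.nv (.dbl 37 47 53) (.rp 53 (.thr 60 56 (.thr 40 20 (.thr 44 36 (.thr 37 47 (.thr 15 26 (.dbl 12 13 28)))))) (.rp 47 (.thr 60 56 (.thr 40 20 (.thr 44 36 (.thr 37 53 (.thr 15 26 (.dbl 12 13 28)))))) (.rp 37 (.thr 60 56 (.thr 40 20 (.thr 44 36 (.thr 41 43 (.thr 1 61 (.thr 13 9 (.dbl 12 15 28))))))) .nd))))) .nd))))))))) .nd)))))))))) (.rp 5 (.str 4 (.nv (.thr 12 8 (.thr 32 16 (.thr 36 24 (.thr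 20 52 (.dbl 40 44 60))))) (.nv (.thr 12 8 (.thr 38 55 (.thr 51 25 (.dbl 34 17 46)))) (.rp 12 (.thr 16 32 (.thr 26 31 (.thr 38 55 (.thr 50 14 (.thr 51 49 (.dbl 34 17 46)))))) (.rp 8 (.thr 16 32 (.thr 26 31 (.thr 38 55 (.thr 50 14 (.thr 34 46 (.dbl 51 17 49)))))) .nd))))) .nd))))))))))

theorem w258 : WinAt (4398048608257, 9223372036854775940) :=
  chF (K := []) kn c258 4398048608257 9223372036854775940 63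
    [] (by decide +kernel) (by decide +kernel)

/-- A certificate. -/
noncomputable def c259 : Ct := (.str 26 (.nv (.thr 16 31 (.thr 10 58 (.thr 0 63 (.thr 15 5 (.dbl 48 32 37))))) (.nv (.thr 31 16 (.thr 63 0 (.thr 15 47 (.thr 58 10 (.dbl 48 37 53))))) (.rp 63 (.str 11 (.nv (.thr 56 41 (.thr 58 10 (.thr 59 57 (.thr 25 8 (.dbl 27 24 43))))) (.nv (.thr 10 58 (.thr 9 8 (.thr 41 56 (.thr 1 61 (.thr 5 13 (.thr 15 0 (.dbl 37 48 53))))))) (.nv (.thr 41 56 (.thr 43 40 (.thr 59 27 (.thr 8 25 (.dbl 10 9 58))))) (.rp 59 (.thr 10 58 (.thr 9 8 (.thr 41 56 (.thr 57 25 (.thr 1 61 (.thr 5 13 (.thr 15 0 (.dbl 37 48 53)))))))) (.rp 58 (.thr 41 56 (.thr 43 40 (.thr 59 27 (.thr 8 25 (.thr 9 10 (.thr 1 61 (.thr 5 13 (.thr 37 53 (.thr 48 15 (.thr 45 33 (.thr 47 32 (.thr 44 46 (.dbl 35 38 39)))))))))))))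 (.rp 56 (.thr 31 16 (.thr 10 58 (.thr 8 9 (.thr 59 25 (.thr 27 43 (.thr 23 19 (.thr 22 20 (.thr 18 30 (.thr 2 62 (.thr 50 34 (.dbl 14 6 38))))))))))) (.rp 43 (.str 23 (.nv (.thr 10 58 (.thr 22 20 (.thr 2 62 (.thr 14 6 (.thr 18 30 (.dbl 50 34 38)))))) (.nv (.thr 10 58 (.thr 8 9 (.thr 25 59 (.thr 24 27 (.dbl 56 40 41))))) (.nv (.thr 31 16 (.thr 19 27 (.thr 22 20 (.thr 28 25 (.dbl 30 18 29))))) .nd)))) (.rp 41 (.thr 31 16 (.thr 10 58 (.thr 8 9 (.thr 25 59 (.thr 29 17 (.thr 28 30 (.thr 27 24 (.dbl 19 22 23)))))))) (.rp 24 (.thr 10 58 (.thr 8 9 (.thr 59 25 (.thr 43 27 (.dbl 41 40 56))))) (.rp 23 (.str 43 (.nv (.thr 10 58 (.thr 8 9 (.dbl 59 25 27))) (.nv (.dbl 41 40 56) (.rp 55 (.str 39 (.nv (.thr 59 27 (.thr 8 25 (.dbl 10 9 58))) (.nv (.dbl 41 40 56) (.rp 59 (.str 51 (.nv (.thr 15 27 (.thr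 37 48 (.dbl 47 32 35))) (.nv (.dbl 41 40 56) .nd))) .nd)))) (.rp 39 (.str 55 (.nv (.thr 10 58 (.thr 8 9 (.dbl 59 25 27))) (.nv (.dbl 41 40 56) .nd))) .nd))))) (.rp 10 (.str 23 (.nv (.thr 31 16 (.thr 19 27 (.thr 22 20 (.thr 28 25 (.dbl 30 18 29))))) (.nv (.thr 31 16 (.thr 41 56 (.thr 43 40 (.dbl 27 19 59)))) (.rp 31 (.thr 22 20 (.thr 30 18 (.thr 62 2 (.thr 14 46 (.thr 50 38 (.thr 58 54 (.thr 56 41 (.thr 59 57 (.thr 27 43 (.dbl 25 8 24)))))))))) (.rp 27 (.thr 20 22 (.thr 16 31 (.thr 28 24 (.thr 41 56 (.thr 40 43 (.thr 60 0 (.thr 44 12 (.thr 38 35 (.thr 36 32 (.dbl 4 52 55)))))))))) (.rp 19 (.thr 20 22 (.thr 16 31 (.thr 24 28 (.thr 25 27 (.thr 8 59 (.dbl 56 40 41)))))) (.rp 16 (.thr 22 20 (.thr 41 56 (.thr 43 40 (.thr 27 59 (.thr 19 31 (.dbl 25 24 28)))))) .nd))))))) (.rp 8 (.thr 31 16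 (.thr 58 10 (.thr 56 41 (.thr 59 57 (.thr 27 43 (.thr 23 19 (.thr 22 20 (.thr 62 2 (.thr 50 54 (.thr 14 38 (.dbl 30 18 46))))))))))) .nd))))))))))))) (.rp 58 (.str 15 (.nv (.thr 0 63 (.thr 5 10 (.dbl 37 48 53))) (.nv (.thr 31 16 (.dbl 63 0 47)) (.rp 63 (.thr 48 37 (.str 23 (.nv (.thr 16 31 (.thr 0 32 (.thr 22 20 (.thr 2 62 (.thr 18 30 (.thr 17 19 (.dbl 34 50 51))))))) (.nv (.thr 31 16 (.thr 27 19 (.thr 51 39 (.thr 50 49 (.thr 38 14 (.dbl 25 12 24)))))) (.nv (.thr 22 20 (.thr 30 18 (.thr 31 16 (.thr 19 27 (.dbl 28 25 29))))) (.rp 31 (.thr 22 20 (.thr 18 30 (.thr 2 62 (.thr 50 34 (.thr 51 49 (.thr 27 39 (.thr 25 24 (.dbl 38 12 14)))))))) (.rp 22 (.str 52 (.nv (.thr 31 16 (.thr 56 60 (.thr 41 11 (.thr 40 43 (.thr 24 8 (.dbl 27 19 25)))))) (.nv (.thr 31 16 (.thr 27 19 (.thr 51 39 (.thr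 50 49 (.thr 38 14 (.dbl 25 12 24)))))) (.nv (.thr 60 56 (.thr 16 31 (.thr 0 32 (.thr 20 40 (.thr 36 4 (.dbl 24 12 28)))))) (.rp 60 (.str 41 (.nv (.thr 61 1 (.thr 11 56 (.thr 31 16 (.thr 27 19 (.dbl 43 40 59))))) (.nv (.thr 16 31 (.thr 32 0 (.thr 40 43 (.thr 36 44 (.thr 20 4 (.dbl 24 12 28)))))) (.nv (.thr 31 16 (.thr 27 19 (.thr 51 39 (.thr 50 49 (.thr 38 14 (.dbl 25 12 24)))))) (.nv (.thr 43 40 (.thr 31 16 (.thr 11 56 (.dbl 27 19 59)))) (.rp 61 (.str 62 (.nv (.thr 11 56 (.thr 31 16 (.thr 27 19 (.dbl 43 40 59)))) (.nv (.thr 16 31 (.thr 32 0 (.thr 40 43 (.thr 36 44 (.thr 20 4 (.dbl 24 12 28)))))) (.nv (.thr 31 16 (.thr 27 19 (.thr 25 24 (.thr 51 39 (.thr 38 12 (.dbl 50 14 49)))))) (.nv (.thr 43 40 (.thr 31 16 (.thr 11 56 (.dbl 27 19 59)))) (.rp 31 (.thr 40 43 (.thr 56 11 (.thr 24 8 (.thr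 36 12 (.thr 44 32 (.thr 38 35 (.dbl 4 20 55))))))) (.rp 16 (.thr 40 43 (.thr 56 11 (.thr 24 8 (.thr 36 12 (.thr 44 32 (.thr 38 35 (.dbl 4 20 55))))))) .nd))))))) (.rp 31 (.thr 40 43 (.thr 56 11 (.thr 24 8 (.thr 36 12 (.thr 44 32 (.thr 38 35 (.dbl 4 20 55))))))) (.rp 16 (.thr 40 43 (.thr 56 11 (.thr 24 8 (.thr 36 12 (.thr 44 32 (.thr 38 35 (.dbl 4 20 55))))))) .nd)))))))) (.rp 31 (.thr 56 60 (.thr 41 11 (.thr 40 43 (.thr 24 8 (.thr 36 12 (.thr 4 20 (.thr 44 32 (.dbl 38 35 55)))))))) (.rp 24 (.thr 60 56 (.thr 31 16 (.thr 27 19 (.thr 51 39 (.thr 50 49 (.thr 38 14 (.thr 55 4 (.dbl 54 53 57)))))))) (.rp 16 (.thr 56 60 (.thr 41 11 (.thr 40 43 (.thr 24 8 (.thr 36 12 (.thr 4 20 (.thr 44 32 (.dbl 38 35 55)))))))) .nd)))))))) (.rp 19 (.thr 22 20 (.thr 18 30 (.thr 2 62 (.thr 50 34 (.thr 14 38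 (.thr 10 6 (.thr 16 31 (.dbl 0 5 32)))))))) (.rp 18 (.thr 22 20 (.thr 62 2 (.thr 31 16 (.thr 19 27 (.thr 28 25 (.thr 30 29 (.thr 60 45 (.thr 14 46 (.dbl 12 13 44))))))))) (.rp 16 (.thr 22 20 (.thr 18 30 (.thr 2 62 (.thr 50 34 (.thr 51 49 (.thr 27 39 (.thr 19 31 (.dbl 25 24 28)))))))) .nd)))))))))) (.rp 0 (.thr 31 16 (.thr 47 63 (.dbl 37 32 48))) .nd))))) (.rp 53 (.thr 16 31 (.thr 0 63 (.thr 10 58 (.thr 48 32 (.dbl 15 5 37))))) (.rp 48 (.str 11 (.nv (.thr 10 58 (.thr 8 9 (.thr 41 56 (.thr 59 25 (.dbl 43 27 40))))) (.nv (.thr 10 58 (.thr 9 8 (.thr 41 56 (.thr 1 61 (.thr 5 13 (.dbl 0 15 63)))))) (.nv (.thr 56 41 (.thr 58 10 (.thr 59 57 (.thr 25 8 (.dbl 27 24 43))))) (.rp 60 (.thr 10 58 (.thr 8 9 (.thr 25 59 (.thr 24 27 (.dbl 56 40 41))))) (.rp 59 (.thr 10 58 (.thr 9 8 (.thr 41 56 (.thr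 57 25 (.thr 1 61 (.thr 5 13 (.dbl 0 15 63))))))) (.rp 58 (.thr 63 0 (.thr 41 56 (.thr 43 40 (.thr 59 27 (.thr 55 51 (.thr 38 4 (.thr 34 46 (.thr 35 44 (.thr 47 39 (.thr 15 31 (.dbl 32 33 37))))))))))) (.rp 56 (.thr 31 16 (.thr 10 58 (.thr 8 9 (.thr 59 25 (.thr 27 43 (.thr 23 19 (.thr 22 20 (.thr 18 30 (.thr 2 62 (.thr 50 34 (.dbl 14 6 38))))))))))) (.rp 41 (.thr 31 16 (.thr 10 58 (.thr 8 9 (.thr 25 59 (.thr 29 17 (.thr 28 30 (.thr 27 24 (.dbl 19 22 23)))))))) (.rp 33 (.str 18 (.nv (.thr 10 58 (.thr 8 9 (.thr 41 56 (.thr 43 40 (.dbl 59 25 27))))) (.nv (.thr 16 31 (.thr 19 17 (.thr 22 30 (.thr 28 25 (.dbl 20 23 24))))) (.rp 25 (.thr 22 30 (.thr 10 58 (.thr 2 62 (.thr 14 6 (.dbl 50 34 38))))) .nd)))) (.rp 18 (.str 33 (.nv (.thr 41 56 (.thr 1 61 (.thr 37 45 (.thr 49 17 (.thr 13 25 (.dbl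 5 9 53)))))) (.nv (.thr 56 41 (.thr 58 10 (.thr 59 57 (.thr 25 8 (.dbl 27 24 43))))) (.rp 60 (.thr 10 58 (.thr 8 9 (.thr 59 25 (.thr 43 27 (.dbl 41 40 56))))) (.rp 56 (.thr 10 58 (.thr 8 9 (.thr 59 25 (.thr 43 27 (.thr 41 40 (.thr 63 0 (.thr 55 51 (.thr 38 4 (.thr 34 46 (.dbl 35 32 44)))))))))) (.rp 41 (.thr 10 58 (.thr 8 9 (.thr 25 59 (.thr 27 24 (.thr 31 16 (.thr 19 23 (.thr 29 17 (.dbl 28 22 30)))))))) (.rp 25 (.thr 10 58 (.thr 41 56 (.thr 9 8 (.thr 1 61 (.thr 37 45 (.dbl 5 13 53)))))) .nd))))))) (.rp 10 (.thr 63 0 (.thr 41 56 (.thr 43 40 (.thr 59 27 (.thr 55 51 (.thr 38 4 (.thr 34 46 (.thr 35 44 (.thr 47 39 (.thr 15 31 (.dbl 32 33 37))))))))))) (.rp 8 (.thr 31 16 (.thr 58 10 (.thr 56 41 (.thr 59 57 (.thr 27 43 (.thr 25 24 (.thr 29 17 (.thr 28 30 (.dbl 19 22 23))))))))) .nd)))))))))))))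 (.rp 37 (.thr 10 58 (.thr 31 16 (.str 22 (.nv (.thr 23 20 (.thr 30 18 (.thr 19 27 (.dbl 28 25 29)))) (.nv (.thr 18 30 (.thr 2 62 (.thr 50 34 (.dbl 14 6 38)))) (.rp 30 (.thr 23 20 (.thr 27 19 (.thr 0 63 (.thr 15 5 (.thr 51 39 (.thr 17 34 (.dbl 25 24 29))))))) (.rp 18 (.thr 63 0 (.thr 15 47 (.thr 2 62 (.thr 14 6 (.thr 12 13 (.thr 46 29 (.dbl 38 34 50))))))) (.rp 15 (.str 11 (.nv (.thr 2 62 (.thr 18 30 (.thr 50 34 (.dbl 14 6 38)))) (.nv (.thr 8 9 (.thr 41 56 (.thr 43 40 (.dbl 59 25 27)))) (.rp 6 (.thr 30 18 (.thr 28 29 (.thr 19 25 (.dbl 23 20 27)))) .nd)))) (.rp 11 (.str 15 (.nv (.dbl 0 5 63) (.rp 63 (.thr 0 5 (.thr 30 18 (.thr 60 45 (.dbl 20 23 40)))) (.rp 5 (.dbl 63 0 47) (.rp 0 (.thr 30 18 (.thr 28 29 (.thr 19 25 (.dbl 23 20 27)))) .nd))))) .nd))))))))) (.rp 32 (.thr 31 16 (.thr 58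 10 (.thr 63 0 (.thr 48 53 (.dbl 15 37 47))))) (.rp 31 (.str 11 (.nv (.thr 56 41 (.thr 58 10 (.thr 59 57 (.thr 25 8 (.dbl 27 24 43))))) (.nv (.thr 10 58 (.thr 9 8 (.thr 41 56 (.thr 1 61 (.thr 5 13 (.dbl 0 15 63)))))) (.nv (.thr 10 58 (.thr 8 9 (.thr 41 56 (.thr 59 25 (.dbl 43 27 40))))) (.rp 59 (.thr 0 63 (.thr 10 58 (.thr 9 8 (.thr 41 56 (.thr 57 25 (.thr 1 61 (.dbl 5 13 15))))))) (.rp 58 (.thr 63 0 (.thr 41 56 (.thr 43 40 (.thr 59 27 (.thr 55 51 (.thr 38 4 (.thr 34 46 (.thr 35 44 (.thr 32 33 (.dbl 47 37 39)))))))))) (.rp 56 (.thr 63 0 (.thr 10 58 (.thr 8 9 (.thr 59 25 (.thr 43 27 (.thr 41 40 (.thr 55 51 (.thr 38 4 (.thr 34 46 (.thr 35 44 (.thr 32 33 (.dbl 47 37 39)))))))))))) (.rp 41 (.thr 0 63 (.thr 10 58 (.thr 8 9 (.thr 12 4 (.thr 25 59 (.thr 17 29 (.dbl 51 34 38))))))) (.rp 10 (.thr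 63 0 (.thr 41 56 (.thr 43 40 (.thr 59 27 (.thr 55 51 (.thr 38 4 (.thr 34 46 (.thr 35 44 (.thr 32 33 (.dbl 47 37 39)))))))))) (.rp 8 (.thr 63 0 (.thr 58 10 (.thr 56 41 (.thr 59 57 (.thr 27 43 (.thr 51 55 (.thr 48 53 (.dbl 15 37 39)))))))) .nd)))))))))) (.rp 16 (.str 11 (.nv (.thr 0 63 (.thr 10 58 (.thr 5 15 (.thr 9 8 (.thr 1 13 (.dbl 41 56 61)))))) (.nv (.thr 41 56 (.thr 43 40 (.thr 10 58 (.thr 59 27 (.dbl 8 9 25))))) (.rp 58 (.thr 63 0 (.thr 41 56 (.thr 43 40 (.thr 59 27 (.thr 55 51 (.thr 38 4 (.thr 34 46 (.thr 35 44 (.thr 32 33 (.dbl 47 37 39)))))))))) (.rp 56 (.thr 63 0 (.thr 10 58 (.thr 8 9 (.thr 59 25 (.thr 43 27 (.thr 41 40 (.thr 55 51 (.thr 38 4 (.thr 34 46 (.thr 35 44 (.thr 32 33 (.dbl 47 37 39)))))))))))) (.rp 43 (.thr 10 58 (.thr 8 9 (.thr 25 59 (.thr 24 27 (.dbl 56 40 41)))))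 (.rp 41 (.thr 0 63 (.thr 10 58 (.thr 8 9 (.thr 12 4 (.thr 25 59 (.thr 17 29 (.dbl 51 34 38))))))) (.rp 10 (.thr 63 0 (.thr 41 56 (.thr 43 40 (.thr 59 27 (.thr 55 51 (.thr 38 4 (.thr 34 46 (.thr 35 44 (.thr 32 33 (.dbl 47 37 39)))))))))) (.rp 9 (.thr 58 10 (.thr 56 41 (.thr 59 57 (.thr 25 8 (.dbl 27 24 43))))) (.rp 8 (.thr 63 0 (.thr 58 10 (.thr 56 41 (.thr 59 57 (.thr 27 43 (.thr 51 55 (.thr 48 53 (.dbl 15 37 39)))))))) .nd)))))))))) (.rp 15 (.str 11 (.nv (.thr 0 63 (.thr 10 58 (.thr 8 9 (.thr 12 4 (.thr 25 59 (.thr 17 29 (.dbl 51 34 38))))))) (.nv (.thr 56 41 (.thr 58 10 (.thr 59 57 (.thr 25 8 (.dbl 27 24 43))))) (.nv (.thr 10 58 (.thr 8 9 (.thr 41 56 (.thr 59 25 (.dbl 43 27 40))))) (.rp 59 (.thr 0 63 (.thr 10 58 (.thr 8 9 (.thr 12 4 (.thr 56 41 (.thr 24 40 (.thr 48 36 (.dbl 16 31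 32)))))))) (.rp 58 (.thr 0 63 (.thr 41 56 (.thr 43 40 (.thr 59 27 (.thr 8 25 (.thr 4 12 (.thr 38 55 (.thr 46 34 (.thr 44 35 (.thr 16 31 (.thr 47 45 (.dbl 32 37 48)))))))))))) (.rp 56 (.thr 31 16 (.thr 10 58 (.thr 8 9 (.thr 59 25 (.thr 27 43 (.thr 23 19 (.thr 22 20 (.thr 18 30 (.thr 2 62 (.thr 50 34 (.dbl 14 6 38))))))))))) (.rp 43 (.thr 10 58 (.thr 8 9 (.thr 25 59 (.thr 24 27 (.dbl 56 40 41))))) (.rp 25 (.thr 31 16 (.thr 58 10 (.thr 41 56 (.thr 43 40 (.thr 27 59 (.thr 23 19 (.thr 22 20 (.thr 62 2 (.thr 50 54 (.thr 14 38 (.dbl 30 18 46))))))))))) (.rp 10 (.thr 0 63 (.thr 41 56 (.thr 43 40 (.thr 59 27 (.thr 8 25 (.thr 4 12 (.thr 38 55 (.thr 46 34 (.thr 44 35 (.thr 16 31 (.thr 47 45 (.dbl 32 37 48)))))))))))) (.rp 8 (.thr 31 16 (.thr 58 10 (.thr 56 41 (.thr 59 57 (.thr 27 43 (.thr 25 24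 (.thr 29 17 (.thr 28 30 (.dbl 19 22 23))))))))) .nd))))))))))) (.rp 11 (.str 15 (.nv (.thr 10 58 (.thr 5 0 (.dbl 37 48 53))) (.nv (.thr 31 16 (.dbl 63 0 47)) (.rp 0 (.thr 31 16 (.thr 47 63 (.dbl 37 32 48))) .nd)))) (.rp 10 (.str 15 (.nv (.thr 31 16 (.dbl 63 0 47)) (.rp 63 (.str 23 (.nv (.thr 31 16 (.thr 19 27 (.thr 22 20 (.thr 28 25 (.dbl 30 18 29))))) (.rp 31 (.thr 22 20 (.thr 30 18 (.thr 62 2 (.thr 45 60 (.thr 37 48 (.thr 33 41 (.thr 47 32 (.dbl 46 14 44)))))))) (.rp 30 (.thr 31 16 (.thr 27 19 (.thr 25 24 (.thr 17 29 (.thr 51 39 (.thr 34 0 (.dbl 38 12 46))))))) (.rp 29 (.thr 31 16 (.thr 27 19 (.thr 25 24 (.thr 51 39 (.thr 12 38 (.thr 13 14 (.dbl 37 48 49))))))) (.rp 28 (.thr 31 16 (.thr 27 19 (.thr 51 39 (.thr 48 37 (.thr 50 49 (.thr 38 14 (.dbl 25 12 24))))))) (.rp 27 (.thr 22 20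 (.thr 30 18 (.thr 31 16 (.thr 28 29 (.thr 62 2 (.thr 14 46 (.thr 12 13 (.dbl 60 44 45)))))))) (.rp 25 (.thr 22 20 (.thr 30 18 (.thr 31 16 (.thr 28 29 (.thr 62 2 (.thr 14 46 (.thr 12 13 (.dbl 60 44 45)))))))) (.rp 22 (.thr 31 16 (.thr 27 19 (.thr 25 24 (.thr 17 29 (.thr 51 39 (.thr 34 0 (.dbl 38 12 46))))))) (.rp 20 (.thr 31 16 (.thr 27 19 (.thr 51 39 (.thr 48 37 (.thr 50 49 (.thr 38 14 (.dbl 25 12 24))))))) (.rp 19 (.thr 22 20 (.thr 30 18 (.thr 62 2 (.thr 14 46 (.thr 45 60 (.thr 13 12 (.thr 29 61 (.dbl 31 16 28)))))))) (.rp 18 (.thr 22 20 (.thr 31 16 (.thr 19 27 (.thr 28 25 (.thr 30 29 (.thr 62 2 (.thr 14 46 (.thr 12 13 (.dbl 60 44 45))))))))) (.rp 16 (.thr 22 20 (.thr 30 18 (.thr 62 2 (.thr 14 46 (.thr 12 13 (.thr 48 37 (.thr 24 36 (.thr 25 27 (.dbl 38 50 51))))))))) .nd)))))))))))))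 (.rp 47 (.thr 16 31 (.thr 0 63 (.dbl 48 32 37))) (.rp 31 (.str 14 (.nv (.thr 0 63 (.thr 12 13 (.thr 8 4 (.thr 25 59 (.thr 24 27 (.dbl 48 36 37)))))) (.nv (.thr 12 13 (.thr 37 48 (.thr 38 50 (.thr 39 36 (.dbl 51 25 27))))) (.nv (.thr 12 13 (.thr 0 63 (.thr 38 50 (.dbl 4 8 55)))) (.rp 13 (.thr 0 63 (.thr 38 50 (.thr 34 46 (.thr 4 55 (.thr 12 8 (.dbl 51 17 25)))))) (.rp 12 (.thr 38 50 (.thr 46 34 (.thr 30 62 (.thr 45 60 (.thr 37 48 (.dbl 47 32 44)))))) .nd)))))) (.rp 16 (.thr 63 0 (.thr 47 31 (.dbl 37 32 48))) (.rp 0 (.thr 31 16 (.thr 47 63 (.dbl 37 32 48))) .nd))))))) (.rp 0 (.str 11 (.nv (.thr 56 41 (.thr 58 10 (.thr 59 57 (.thr 25 8 (.dbl 27 24 43))))) (.nv (.thr 10 58 (.thr 8 9 (.thr 41 56 (.thr 59 25 (.dbl 43 27 40))))) (.rp 59 (.thr 16 31 (.thr 10 58 (.thr 8 9 (.thr 56 41 (.thr 24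 40 (.thr 25 27 (.thr 17 29 (.thr 19 18 (.dbl 28 20 22))))))))) (.rp 58 (.thr 41 56 (.thr 43 40 (.thr 59 27 (.thr 8 25 (.thr 9 10 (.thr 1 61 (.thr 5 13 (.thr 37 53 (.thr 45 33 (.thr 47 32 (.thr 35 39 (.dbl 44 38 46)))))))))))) (.rp 56 (.thr 31 16 (.thr 10 58 (.thr 8 9 (.thr 59 25 (.thr 27 43 (.thr 23 19 (.thr 22 20 (.thr 18 30 (.thr 2 62 (.thr 50 34 (.dbl 14 6 38))))))))))) (.rp 43 (.thr 10 58 (.thr 8 9 (.thr 25 59 (.thr 24 27 (.dbl 56 40 41))))) (.rp 41 (.thr 31 16 (.thr 10 58 (.thr 8 9 (.thr 25 59 (.thr 29 17 (.thr 28 30 (.thr 27 24 (.dbl 19 22 23)))))))) (.rp 27 (.thr 16 31 (.thr 10 58 (.thr 8 9 (.thr 25 59 (.thr 17 29 (.thr 19 18 (.thr 28 22 (.thr 24 20 (.dbl 56 40 41))))))))) (.rp 25 (.thr 10 58 (.thr 9 8 (.thr 41 56 (.thr 40 43 (.thr 1 61 (.thr 5 13 (.thr 37 53 (.thr 32 47 (.thr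 44 36 (.thr 35 38 (.dbl 33 34 45))))))))))) (.rp 12 (.thr 10 58 (.thr 41 56 (.thr 43 40 (.thr 59 27 (.dbl 8 9 25))))) (.rp 10 (.thr 31 16 (.thr 41 56 (.str 37 (.nv (.thr 5 53 (.thr 1 61 (.thr 13 9 (.thr 43 40 (.thr 27 59 (.dbl 25 24 49)))))) (.nv (.thr 32 47 (.thr 33 45 (.thr 40 43 (.thr 44 36 (.dbl 35 34 38))))) (.nv (.thr 1 61 (.thr 5 53 (.thr 13 9 (.thr 33 45 (.dbl 49 17 25))))) (.rp 32 (.thr 48 15 (.thr 5 53 (.thr 33 45 (.thr 1 61 (.thr 49 17 (.dbl 13 9 25)))))) (.rp 5 (.thr 15 48 (.thr 32 47 (.thr 33 45 (.thr 35 34 (.thr 40 43 (.dbl 44 36 38)))))) (.rp 1 (.str 2 (.nv (.thr 15 48 (.thr 32 47 (.thr 22 62 (.thr 18 30 (.thr 33 45 (.dbl 34 35 50)))))) (.nv (.thr 5 53 (.thr 22 62 (.thr 23 20 (.thr 19 27 (.thr 28 25 (.dbl 30 18 29)))))) (.nv (.thr 32 47 (.thr 33 45 (.thr 35 34 (.thr 44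 38 (.dbl 40 36 43))))) (.rp 32 (.thr 48 15 (.thr 5 53 (.thr 22 62 (.thr 43 40 (.thr 27 59 (.dbl 23 19 20)))))) .nd))))) .nd))))))))) (.rp 8 (.thr 31 16 (.thr 58 10 (.thr 56 41 (.thr 59 57 (.thr 27 43 (.thr 25 24 (.thr 29 17 (.thr 28 30 (.dbl 19 22 23))))))))) (.rp 2 (.str 1 (.nv (.dbl 41 56 61) (.rp 61 (.thr 10 58 (.thr 8 9 (.thr 25 59 (.thr 24 27 (.dbl 56 40 41))))) (.rp 56 (.thr 10 58 (.thr 8 9 (.thr 59 25 (.thr 43 27 (.dbl 41 40 61))))) (.rp 41 (.thr 31 16 (.thr 10 58 (.thr 8 9 (.thr 25 59 (.thr 29 17 (.thr 28 30 (.thr 27 24 (.dbl 19 22 23)))))))) .nd))))) (.rp 1 (.str 2 (.nv (.thr 10 58 (.thr 41 56 (.thr 43 40 (.thr 59 27 (.dbl 8 9 25))))) (.nv (.thr 22 62 (.thr 18 30 (.thr 10 58 (.thr 50 34 (.dbl 14 6 38))))) (.rp 58 (.thr 31 16 (.thr 22 62 (.thr 30 18 (.thr 28 29 (.thr 19 25 (.dbl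 23 20 27)))))) (.rp 10 (.thr 31 16 (.thr 22 62 (.thr 30 18 (.thr 28 29 (.thr 19 25 (.dbl 23 20 27)))))) .nd))))) .nd))))))))))))))) .nd)))))))))))))))

theorem w259 : WinAt (4398048608256, 136) :=
  chF (K := []) kn c259 4398048608256 136 3
    [34952] (by decide +kernel) (by decide +kernel)

/-- A certificate. -/
noncomputable def c260 : Ct := (.str 5 (.nv (.thr 15 10 (.thr 37 53 (.thr 48 26 (.dbl 32 16 47)))) (.rp 53 (.str 1 (.nv (.thr 3 2 (.thr 9 13 (.thr 10 15 (.thr 8 11 (.thr 25 59 (.dbl 41 57 61)))))) (.nv (.thr 9 13 (.thr 10 15 (.thr 11 8 (.thr 41 61 (.dbl 26 56 58))))) (.nv (.thr 3 2 (.thr 41 61 (.thr 40 43 (.dbl 60 20 22)))) (.rp 61 (.thr 9 13 (.thr 10 15 (.thr 8 11 (.thr 3 2 (.thr 12 6 (.thr 25 59 (.thr 51 38 (.dbl 17 29 34)))))))) (.rp 58 (.str 48 (.nv (.thr 3 2 (.thr 41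 61 (.thr 40 43 (.dbl 60 20 22)))) (.nv (.thr 32 16 (.thr 37 47 (.dbl 15 10 26))) .nd))) (.rp 57 (.thr 9 13 (.thr 10 15 (.thr 8 11 (.thr 3 2 (.thr 12 6 (.thr 25 59 (.thr 17 29 (.dbl 51 34 38)))))))) (.rp 48 (.str 58 (.nv (.dbl 10 15 26) (.rp 26 (.thr 3 2 (.thr 41 61 (.thr 40 43 (.dbl 60 20 22)))) (.rp 15 (.thr 3 2 (.thr 41 61 (.thr 40 43 (.dbl 60 20 22)))) (.rp 10 (.thr 3 2 (.thr 41 61 (.thr 40 43 (.dbl 60 20 22)))) .nd))))) (.rp 41 (.thr 9 13 (.thr 10 15 (.thr 8 11 (.thr 3 2 (.thr 12 6 (.thr 25 59 (.thr 17 29 (.dbl 51 34 38)))))))) .nd))))))))) (.rp 48 (.thr 15 10 (.str 41 (.nv (.thr 1 61 (.thr 3 2 (.thr 60 22 (.thr 45 30 (.dbl 37 33 53))))) (.nv (.thr 40 43 (.thr 60 20 (.thr 45 30 (.dbl 37 33 53)))) (.nv (.thr 1 61 (.thr 3 2 (.thr 40 43 (.dbl 60 20 22)))) (.rp 60 (.thr 43 40 (.thr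 61 1 (.thr 53 37 (.thr 57 49 (.thr 25 9 (.thr 59 8 (.thr 11 27 (.dbl 56 26 58)))))))) (.rp 58 (.thr 53 37 (.thr 40 43 (.thr 1 61 (.thr 3 2 (.dbl 60 20 22))))) (.rp 53 (.str 58 (.nv (.thr 1 61 (.thr 3 2 (.thr 40 43 (.dbl 60 20 22)))) (.nv (.thr 40 43 (.thr 60 20 (.thr 3 22 (.dbl 1 2 61)))) (.rp 61 (.thr 40 43 (.thr 60 20 (.thr 45 30 (.thr 3 22 (.thr 1 2 (.thr 13 9 (.thr 37 33 (.thr 47 32 (.thr 44 46 (.dbl 12 14 28)))))))))) (.rp 60 (.thr 61 1 (.str 56 (.nv (.thr 40 43 (.thr 8 24 (.dbl 59 25 57))) (.nv (.thr 11 26 (.thr 43 40 (.dbl 59 27 57))) (.rp 59 (.str 51 (.nv (.thr 34 17 (.thr 38 46 (.thr 35 44 (.thr 39 27 (.dbl 43 40 47))))) (.nv (.thr 34 17 (.thr 38 46 (.thr 12 25 (.thr 14 13 (.dbl 26 11 50))))) (.nv (.thr 26 11 (.thr 27 39 (.thr 24 25 (.dbl 40 8 43)))) .nd)))) (.rp 57 (.thr 43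 40 (.thr 11 26 (.thr 27 59 (.thr 51 39 (.thr 34 17 (.thr 38 46 (.thr 35 44 (.thr 12 25 (.thr 13 14 (.thr 45 29 (.dbl 33 32 37))))))))))) (.rp 43 (.thr 57 59 (.thr 25 9 (.thr 17 29 (.thr 51 34 (.thr 27 39 (.dbl 26 11 24)))))) (.rp 40 (.thr 11 26 (.thr 59 57 (.thr 25 8 (.thr 27 43 (.thr 17 29 (.dbl 51 34 39)))))) .nd)))))))) (.rp 43 (.thr 1 61 (.thr 13 9 (.thr 3 2 (.thr 60 22 (.thr 45 30 (.thr 37 33 (.thr 47 32 (.thr 44 46 (.dbl 12 14 28))))))))) (.rp 40 (.thr 1 61 (.thr 13 9 (.thr 3 2 (.thr 60 22 (.thr 45 30 (.thr 37 33 (.thr 47 32 (.thr 44 46 (.dbl 12 14 28))))))))) (.rp 22 (.thr 40 43 (.thr 60 20 (.thr 45 30 (.thr 61 1 (.thr 29 13 (.thr 25 17 (.thr 57 9 (.dbl 59 8 56)))))))) (.rp 20 (.thr 43 40 (.thr 1 61 (.thr 9 13 (.thr 57 25 (.thr 59 56 (.thr 27 11 (.thr 3 2 (.thr 60 22 (.dbl 51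 39 54))))))))) (.rp 3 (.thr 43 40 (.thr 1 61 (.thr 9 13 (.thr 57 25 (.thr 59 56 (.thr 27 11 (.thr 51 39 (.thr 60 54 (.thr 45 30 (.thr 17 34 (.dbl 33 37 49))))))))))) (.rp 2 (.thr 40 43 (.thr 60 20 (.thr 45 30 (.thr 61 1 (.thr 29 13 (.thr 25 17 (.thr 57 9 (.dbl 59 8 56)))))))) (.rp 1 (.thr 40 43 (.thr 60 20 (.thr 45 30 (.thr 3 22 (.thr 37 33 (.thr 47 32 (.thr 44 46 (.thr 12 28 (.thr 9 6 (.thr 25 57 (.dbl 13 14 49))))))))))) .nd)))))))))))) (.rp 3 (.thr 43 40 (.thr 1 61 (.thr 9 13 (.thr 25 57 (.thr 59 8 (.thr 27 11 (.thr 51 39 (.dbl 17 29 34)))))))) .nd))))))))) (.rp 47 (.thr 15 10 (.str 13 (.nv (.thr 12 14 (.thr 37 53 (.thr 25 49 (.thr 17 29 (.dbl 51 34 38))))) (.nv (.thr 1 9 (.thr 3 2 (.thr 41 61 (.thr 40 43 (.dbl 60 20 22))))) (.nv (.thr 1 9 (.thr 37 53 (.thr 25 49 (.thr 61 41 (.dbl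 29 17 45))))) (.rp 61 (.thr 12 14 (.thr 37 53 (.thr 48 26 (.thr 36 24 (.thr 38 39 (.dbl 25 49 51)))))) .nd)))))) (.rp 37 (.str 9 (.nv (.thr 10 15 (.thr 11 8 (.thr 26 58 (.thr 41 56 (.dbl 1 13 61))))) (.nv (.thr 1 13 (.thr 3 2 (.thr 41 61 (.thr 40 43 (.dbl 60 20 22))))) (.rp 61 (.thr 1 13 (.thr 10 15 (.thr 11 8 (.thr 3 2 (.thr 26 58 (.thr 41 56 (.thr 40 43 (.dbl 60 20 22)))))))) (.rp 52 (.str 22 (.nv (.thr 1 13 (.thr 20 23 (.thr 41 61 (.dbl 60 3 40)))) (.nv (.thr 20 23 (.thr 2 62 (.thr 3 1 (.dbl 60 40 41)))) (.nv (.thr 1 13 (.dbl 2 3 62)) (.rp 20 (.str 36 (.nv (.thr 2 62 (.thr 3 1 (.thr 6 12 (.dbl 10 14 15)))) (.nv (.thr 1 13 (.dbl 2 3 62)) (.rp 62 (.thr 1 13 (.thr 3 2 (.dbl 41 60 61))) (.rp 3 (.thr 10 15 (.thr 11 8 (.thr 1 13 (.thr 41 61 (.dbl 26 56 58))))) (.rp 2 (.thr 10 15 (.thr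 11 8 (.thr 1 13 (.thr 41 61 (.dbl 26 56 58))))) (.rp 1 (.thr 10 15 (.thr 2 62 (.thr 14 6 (.thr 26 58 (.thr 18 30 (.dbl 50 34 38)))))) .nd))))))) (.rp 3 (.thr 1 13 (.thr 10 15 (.thr 11 8 (.thr 26 58 (.dbl 41 56 61))))) (.rp 1 (.thr 10 15 (.thr 11 8 (.thr 20 23 (.thr 26 58 (.thr 40 60 (.dbl 41 43 56)))))) .nd))))))) (.rp 41 (.thr 1 13 (.thr 10 15 (.thr 8 11 (.thr 3 2 (.thr 12 6 (.thr 25 59 (.thr 17 29 (.dbl 51 34 38)))))))) (.rp 40 (.thr 1 13 (.thr 10 15 (.thr 11 8 (.thr 41 61 (.dbl 26 56 58))))) (.rp 22 (.str 52 (.nv (.thr 10 15 (.thr 11 8 (.thr 26 58 (.thr 41 56 (.dbl 1 13 61))))) (.nv (.thr 1 13 (.thr 3 2 (.thr 10 15 (.thr 8 11 (.thr 25 59 (.dbl 41 57 61)))))) (.nv (.thr 1 13 (.thr 41 61 (.thr 25 57 (.thr 8 59 (.dbl 10 11 15))))) (.nv (.thr 1 13 (.thr 10 15 (.thr 11 8 (.thr 26 58 (.dbl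 41 56 61))))) (.rp 61 (.thr 1 13 (.thr 10 15 (.thr 26 58 (.thr 31 16 (.thr 8 11 (.thr 3 2 (.thr 25 59 (.thr 27 24 (.thr 19 23 (.thr 12 6 (.dbl 51 35 38))))))))))) (.rp 41 (.thr 1 13 (.thr 10 15 (.thr 8 11 (.thr 3 2 (.thr 25 59 (.thr 17 29 (.thr 51 34 (.dbl 12 6 38)))))))) (.rp 15 (.thr 1 13 (.thr 41 61 (.thr 25 57 (.thr 8 59 (.thr 40 43 (.thr 56 24 (.dbl 60 20 48))))))) (.rp 13 (.thr 10 15 (.thr 26 58 (.thr 11 8 (.thr 41 56 (.thr 1 61 (.thr 2 3 (.thr 14 6 (.thr 38 50 (.thr 34 46 (.thr 17 51 (.dbl 25 29 57))))))))))) (.rp 11 (.thr 1 13 (.thr 41 61 (.thr 25 57 (.thr 40 43 (.thr 60 20 (.thr 56 48 (.dbl 8 24 59))))))) (.rp 10 (.thr 1 13 (.thr 41 61 (.thr 25 57 (.thr 8 59 (.thr 40 43 (.thr 56 24 (.dbl 60 20 48))))))) (.rp 8 (.thr 1 13 (.thr 41 61 (.thr 10 15 (.thr 26 58 (.thr 40 43 (.thr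 60 20 (.dbl 56 11 48))))))) (.rp 1 (.thr 10 15 (.thr 26 58 (.thr 11 8 (.thr 41 56 (.thr 57 25 (.thr 40 43 (.thr 60 20 (.thr 51 54 (.thr 34 17 (.thr 38 46 (.thr 44 35 (.thr 32 36 (.dbl 16 31 48))))))))))))) .nd))))))))))))) (.rp 13 (.thr 10 15 (.thr 11 8 (.thr 26 58 (.thr 41 56 (.thr 40 43 (.thr 1 61 (.thr 3 2 (.dbl 60 20 22)))))))) (.rp 1 (.thr 10 15 (.thr 11 8 (.thr 26 58 (.thr 41 56 (.thr 40 43 (.thr 57 25 (.thr 60 20 (.thr 51 54 (.thr 34 17 (.thr 38 46 (.thr 35 44 (.dbl 3 19 22)))))))))))) .nd)))))))))) (.rp 32 (.str 13 (.nv (.thr 9 1 (.thr 37 53 (.thr 25 49 (.thr 8 59 (.dbl 10 11 15))))) (.nv (.thr 1 9 (.thr 3 2 (.thr 41 61 (.thr 40 43 (.dbl 60 20 22))))) (.rp 61 (.thr 9 1 (.thr 10 15 (.thr 37 53 (.thr 25 49 (.thr 57 41 (.dbl 8 11 59)))))) (.rp 9 (.thr 15 10 (.thr 12 14 (.thr 37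 53 (.thr 25 49 (.thr 17 29 (.dbl 51 34 38)))))) (.rp 1 (.thr 15 10 (.thr 12 14 (.thr 37 53 (.thr 25 49 (.thr 17 29 (.dbl 51 34 38)))))) .nd)))))) (.rp 26 (.str 13 (.nv (.thr 9 1 (.thr 37 53 (.thr 25 49 (.thr 8 59 (.dbl 10 11 15))))) (.nv (.thr 1 9 (.thr 3 2 (.thr 41 61 (.thr 40 43 (.dbl 60 20 22))))) (.rp 61 (.thr 9 1 (.thr 10 15 (.thr 37 53 (.thr 25 49 (.thr 57 41 (.dbl 8 11 59)))))) (.rp 9 (.thr 15 10 (.thr 12 14 (.thr 37 53 (.thr 25 49 (.thr 17 29 (.dbl 51 34 38)))))) (.rp 1 (.thr 15 10 (.thr 12 14 (.thr 37 53 (.thr 25 49 (.thr 17 29 (.dbl 51 34 38)))))) .nd)))))) (.rp 16 (.str 13 (.nv (.thr 9 1 (.thr 37 53 (.thr 25 49 (.thr 8 59 (.dbl 10 11 15))))) (.nv (.thr 1 9 (.thr 3 2 (.thr 41 61 (.thr 40 43 (.dbl 60 20 22))))) (.rp 61 (.thr 9 1 (.thr 10 15 (.thr 37 53 (.thr 25 49 (.thr 57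 41 (.dbl 8 11 59)))))) (.rp 9 (.thr 15 10 (.thr 12 14 (.thr 37 53 (.thr 25 49 (.thr 17 29 (.dbl 51 34 38)))))) (.rp 1 (.thr 15 10 (.thr 12 14 (.thr 37 53 (.thr 25 49 (.thr 17 29 (.dbl 51 34 38)))))) .nd)))))) (.rp 15 (.str 3 (.nv (.thr 1 2 (.thr 13 9 (.thr 37 53 (.thr 25 49 (.thr 29 17 (.dbl 61 41 45)))))) (.nv (.thr 2 1 (.thr 22 62 (.thr 60 41 (.dbl 20 23 40)))) (.rp 47 (.str 31 (.nv (.thr 1 2 (.thr 9 13 (.thr 26 16 (.thr 10 58 (.thr 11 8 (.dbl 41 56 61)))))) (.nv (.thr 2 1 (.thr 22 62 (.thr 60 41 (.dbl 20 23 40)))) (.rp 41 (.thr 2 1 (.thr 16 26 (.thr 48 32 (.thr 18 33 (.thr 17 19 (.dbl 34 50 51)))))) (.rp 2 (.thr 16 26 (.thr 37 53 (.thr 48 32 (.thr 33 18 (.thr 41 45 (.thr 40 43 (.dbl 60 20 22))))))) (.rp 1 (.thr 16 26 (.thr 37 53 (.thr 48 32 (.thr 33 18 (.thr 41 45 (.thr 40 43 (.dbl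 60 20 22))))))) .nd)))))) (.rp 41 (.thr 1 2 (.thr 13 9 (.thr 37 53 (.thr 47 32 (.thr 25 49 (.thr 17 29 (.thr 51 34 (.thr 35 19 (.thr 39 43 (.dbl 38 12 36)))))))))) (.rp 31 (.str 47 (.nv (.dbl 37 32 53) (.rp 53 (.thr 1 2 (.thr 41 61 (.thr 40 43 (.dbl 60 20 22)))) (.rp 37 (.thr 1 2 (.thr 41 61 (.thr 40 43 (.dbl 60 20 22)))) (.rp 32 (.thr 1 2 (.thr 41 61 (.thr 40 43 (.dbl 60 20 22)))) .nd))))) (.rp 2 (.thr 37 53 (.str 48 (.nv (.dbl 32 16 47) (.rp 47 (.str 31 (.nv (.dbl 16 26 32) (.rp 32 (.thr 33 18 (.thr 41 45 (.thr 40 43 (.dbl 60 20 22)))) (.rp 26 (.thr 33 18 (.thr 41 45 (.thr 40 43 (.dbl 60 20 22)))) (.rp 16 (.thr 33 18 (.thr 41 45 (.thr 40 43 (.dbl 60 20 22)))) .nd))))) (.rp 32 (.thr 33 18 (.thr 41 45 (.thr 40 43 (.dbl 60 20 22)))) (.rp 31 (.thr 47 32 (.thr 33 18 (.thr 41 45 (.thr 40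 43 (.dbl 60 20 22))))) (.rp 16 (.thr 33 18 (.thr 41 45 (.thr 40 43 (.dbl 60 20 22)))) .nd))))))) (.rp 1 (.thr 37 53 (.str 48 (.nv (.dbl 32 16 47) (.rp 47 (.str 31 (.nv (.dbl 16 26 32) (.rp 32 (.thr 33 18 (.thr 41 45 (.thr 40 43 (.dbl 60 20 22)))) (.rp 26 (.thr 33 18 (.thr 41 45 (.thr 40 43 (.dbl 60 20 22)))) (.rp 16 (.thr 33 18 (.thr 41 45 (.thr 40 43 (.dbl 60 20 22)))) .nd))))) (.rp 32 (.thr 33 18 (.thr 41 45 (.thr 40 43 (.dbl 60 20 22)))) (.rp 31 (.thr 47 32 (.thr 33 18 (.thr 41 45 (.thr 40 43 (.dbl 60 20 22))))) (.rp 16 (.thr 33 18 (.thr 41 45 (.thr 40 43 (.dbl 60 20 22)))) .nd))))))) .nd)))))))) (.rp 10 (.str 13 (.nv (.thr 37 53 (.thr 25 49 (.thr 29 17 (.thr 61 45 (.dbl 1 9 41))))) (.nv (.thr 1 9 (.thr 3 2 (.thr 37 53 (.thr 32 47 (.thr 48 16 (.thr 33 18 (.dbl 49 17 25))))))) (.nv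 (.thr 1 9 (.thr 3 2 (.thr 41 61 (.thr 40 43 (.dbl 60 20 22))))) (.nv (.thr 1 9 (.thr 37 53 (.thr 25 49 (.thr 61 41 (.dbl 29 17 45))))) (.rp 9 (.thr 37 53 (.thr 32 47 (.thr 25 49 (.thr 17 29 (.thr 51 34 (.thr 12 38 (.thr 15 14 (.dbl 48 16 26)))))))) (.rp 1 (.thr 37 53 (.thr 32 47 (.thr 25 49 (.thr 17 29 (.thr 51 34 (.thr 12 38 (.thr 15 14 (.dbl 48 16 26)))))))) .nd))))))) .nd)))))))))))

theorem w260 : WinAt (4398048608257, 9223372036854775952) :=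
  chF (K := []) kn c260 4398048608257 9223372036854775952 63
    [240] (by decide +kernel) (by decide +kernel)

/-- A certificate. -/
noncomputable def c261 : Ct := (.str 38 (.nv (.thr 4 55 (.thr 12 8 (.thr 34 46 (.dbl 51 17 25)))) (.nv (.thr 34 46 (.thr 51 17 (.thr 12 25 (.dbl 4 8 55)))) (.rp 55 (.thr 34 46 (.thr 51 17 (.thr 12 25 (.thr 4 8 (.str 37 (.nv (.thr 32 47 (.thr 35 33 (.thr 3 19 (.thr 1 2 (.dbl 41 44 61))))) (.nv (.thr 39 36 (.thr 15 27 (.thr 26 48 (.dbl 14 13 50)))) (.rp 39 (.str 23 (.nv (.thr 20 22 (.thr 36 52 (.thr 48 24 (.dbl 32 16 47)))) (.nv (.thr 32 47 (.thr 48 16 (.thr 50 49 (.dbl 26 14 15)))) (.nv (.thr 22 20 (.thr 54 6 (.thr 60 57 (.thr 41 3 (.dbl 44 28 35))))) .nd)))) (.rp 15 (.thr 39 36 (.thr 47 32 (.thr 35 43 (.thr 3 19 (.thr 1 2 (.dbl 41 44 61)))))) .nd)))))))))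 (.rp 51 (.thr 55 4 (.str 6 (.nv (.thr 34 46 (.thr 22 54 (.thr 2 62 (.thr 50 18 (.dbl 14 10 26))))) (.nv (.thr 22 54 (.thr 20 23 (.thr 60 40 (.thr 3 41 (.dbl 2 1 62))))) (.rp 62 (.thr 22 54 (.thr 20 23 (.thr 34 46 (.thr 60 40 (.thr 3 41 (.thr 2 1 (.thr 50 18 (.dbl 14 10 26)))))))) (.rp 60 (.str 62 (.nv (.dbl 22 2 54) (.rp 57 (.thr 54 22 (.thr 46 34 (.thr 14 30 (.dbl 50 26 58)))) (.rp 54 (.str 57 (.nv (.thr 2 22 (.thr 14 10 (.thr 34 46 (.dbl 50 18 26)))) (.nv (.thr 46 34 (.thr 14 30 (.dbl 2 10 22))) (.rp 46 (.thr 2 22 (.thr 1 3 (.thr 41 61 (.thr 10 14 (.thr 9 25 (.thr 11 8 (.dbl 26 56 58))))))) (.rp 34 (.thr 2 22 (.thr 3 1 (.thr 9 12 (.thr 10 14 (.thr 8 11 (.dbl 25 41 59)))))) (.rp 22 (.thr 46 34 (.thr 14 30 (.thr 10 2 (.dbl 26 50 58)))) (.rp 14 (.thr 34 46 (.thr 2 22 (.thr 1 3 (.thr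 41 61 (.thr 35 44 (.thr 33 32 (.thr 17 49 (.dbl 25 9 29)))))))) (.rp 10 (.thr 34 46 (.thr 2 22 (.thr 1 3 (.thr 41 61 (.thr 35 44 (.thr 33 32 (.thr 17 49 (.dbl 25 9 29)))))))) (.rp 2 (.str 32 (.nv (.thr 16 48 (.thr 46 34 (.thr 14 30 (.dbl 26 31 50)))) (.nv (.thr 34 46 (.thr 35 33 (.thr 41 44 (.thr 47 37 (.dbl 43 39 40))))) (.nv (.thr 37 47 (.thr 46 34 (.thr 48 16 (.thr 14 30 (.dbl 26 15 50))))) (.rp 46 (.thr 37 47 (.thr 36 39 (.thr 44 40 (.thr 48 16 (.thr 12 24 (.thr 9 3 (.dbl 41 25 35))))))) (.rp 34 (.thr 37 47 (.thr 36 39 (.thr 44 40 (.thr 48 16 (.thr 12 24 (.thr 9 3 (.dbl 41 25 35))))))) .nd)))))) .nd))))))))) (.rp 22 (.thr 46 34 (.thr 14 30 (.thr 10 2 (.dbl 26 50 58)))) (.rp 2 (.thr 54 22 (.thr 46 34 (.thr 14 30 (.dbl 50 26 58)))) .nd)))))) (.rp 57 (.str 40 (.nv (.thr 22 54 (.thr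 60 20 (.thr 2 62 (.dbl 3 1 41)))) (.nv (.thr 41 43 (.thr 44 35 (.thr 46 34 (.thr 47 45 (.dbl 32 36 37))))) (.nv (.thr 41 43 (.thr 22 54 (.dbl 60 3 20))) (.rp 60 (.thr 54 22 (.thr 41 43 (.thr 44 35 (.thr 32 36 (.thr 46 34 (.dbl 47 37 45)))))) (.rp 54 (.thr 60 20 (.thr 41 43 (.thr 3 22 (.dbl 1 2 61)))) (.rp 41 (.thr 22 54 (.thr 60 20 (.thr 2 62 (.thr 34 46 (.thr 50 18 (.dbl 14 10 26)))))) (.rp 3 (.thr 22 54 (.thr 60 20 (.thr 2 62 (.thr 34 46 (.thr 50 18 (.dbl 14 10 26)))))) .nd)))))))) (.rp 54 (.str 2 (.nv (.thr 14 10 (.thr 34 46 (.dbl 50 18 26))) (.nv (.thr 3 1 (.thr 22 62 (.thr 20 23 (.dbl 60 40 41)))) (.nv (.thr 14 10 (.thr 46 34 (.dbl 62 22 30))) (.rp 60 (.str 57 (.nv (.thr 3 1 (.thr 9 12 (.thr 10 14 (.thr 8 11 (.dbl 25 41 59))))) (.nv (.thr 46 34 (.thr 14 10 (.dbl 62 22 30))) (.rp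 62 (.str 61 (.nv (.thr 14 10 (.thr 34 46 (.dbl 50 18 26))) (.nv (.dbl 1 3 41) (.rp 58 (.str 50 (.nv (.thr 53 49 (.dbl 1 3 41)) (.nv (.dbl 34 18 46) (.rp 53 (.str 48 (.nv (.dbl 1 3 41) (.nv (.dbl 34 18 46) .nd))) .nd)))) (.rp 50 (.str 58 (.nv (.thr 49 53 (.dbl 10 14 26)) (.nv (.dbl 1 3 41) (.rp 49 (.str 48 (.nv (.dbl 10 14 26) (.nv (.dbl 1 3 41) .nd))) .nd)))) .nd))))) (.rp 61 (.thr 62 22 (.thr 46 34 (.dbl 14 10 30))) (.rp 46 (.thr 3 1 (.thr 10 14 (.thr 58 26 (.thr 59 56 (.thr 25 8 (.dbl 9 12 41)))))) (.rp 14 (.thr 3 1 (.thr 34 46 (.thr 18 50 (.thr 48 33 (.thr 16 32 (.thr 26 31 (.dbl 22 30 62))))))) (.rp 10 (.thr 3 1 (.thr 34 46 (.thr 18 50 (.thr 48 33 (.thr 16 32 (.thr 26 31 (.dbl 22 30 62))))))) .nd)))))))) (.rp 57 (.str 60 (.nv (.thr 14 10 (.thr 34 46 (.dbl 50 18 26))) (.nv (.thr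 20 40 (.dbl 22 23 62)) .nd))) .nd)))))) (.rp 22 (.str 2 (.nv (.thr 14 10 (.thr 50 26 (.dbl 34 18 46))) (.rp 52 (.str 37 (.nv (.thr 1 3 (.thr 32 47 (.thr 36 39 (.thr 41 61 (.dbl 40 43 44))))) (.nv (.thr 14 10 (.thr 50 26 (.dbl 34 18 46))) (.rp 36 (.str 20 (.nv (.thr 1 3 (.thr 40 60 (.dbl 41 43 61))) (.nv (.thr 14 10 (.thr 50 26 (.dbl 34 18 46))) .nd))) (.rp 20 (.thr 36 39 (.thr 34 46 (.thr 50 18 (.dbl 14 10 26)))) .nd))))) (.rp 50 (.thr 1 3 (.thr 34 46 (.thr 41 61 (.thr 43 40 (.thr 35 44 (.thr 32 33 (.dbl 47 37 39))))))) (.rp 46 (.thr 1 3 (.thr 10 14 (.thr 26 58 (.thr 41 61 (.thr 11 56 (.thr 43 40 (.thr 59 27 (.dbl 8 9 25)))))))) (.rp 37 (.str 52 (.nv (.thr 14 10 (.thr 50 26 (.dbl 34 18 46))) (.nv (.thr 34 46 (.thr 14 10 (.dbl 50 18 26))) (.rp 50 (.thr 1 3 (.thr 10 14 (.thr 26 58 (.thr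 16 31 (.thr 48 32 (.thr 41 61 (.dbl 56 11 60))))))) (.rp 46 (.thr 1 3 (.thr 10 14 (.thr 26 58 (.thr 16 31 (.thr 48 32 (.thr 41 61 (.dbl 56 11 60))))))) (.rp 34 (.thr 1 3 (.thr 10 14 (.thr 26 58 (.thr 16 31 (.thr 48 32 (.thr 41 61 (.dbl 56 11 60))))))) (.rp 26 (.thr 1 3 (.thr 34 46 (.thr 41 61 (.thr 35 44 (.thr 32 33 (.thr 48 16 (.thr 60 56 (.dbl 40 20 43)))))))) (.rp 18 (.thr 1 3 (.thr 10 14 (.thr 26 58 (.thr 16 31 (.thr 48 32 (.thr 41 61 (.dbl 56 11 60))))))) (.rp 14 (.thr 1 3 (.thr 34 46 (.thr 41 61 (.thr 35 44 (.thr 32 33 (.thr 48 16 (.thr 60 56 (.dbl 40 20 43)))))))) (.rp 10 (.thr 1 3 (.thr 34 46 (.thr 50 18 (.thr 26 14 (.thr 16 31 (.thr 48 32 (.thr 41 61 (.dbl 56 11 60)))))))) .nd)))))))))) (.rp 34 (.thr 1 3 (.thr 10 14 (.thr 26 58 (.thr 41 61 (.thr 11 56 (.thr 43 40 (.thr 59 27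 (.dbl 8 9 25)))))))) (.rp 30 (.thr 34 46 (.thr 14 10 (.dbl 50 18 26))) (.rp 26 (.thr 1 3 (.thr 34 46 (.thr 41 61 (.thr 43 40 (.thr 35 44 (.thr 32 33 (.dbl 47 37 39))))))) (.rp 18 (.thr 1 3 (.thr 34 46 (.thr 41 61 (.thr 43 40 (.thr 35 44 (.thr 47 39 (.dbl 32 33 37))))))) (.rp 14 (.thr 1 3 (.thr 34 46 (.thr 41 61 (.thr 43 40 (.thr 35 44 (.thr 32 33 (.dbl 47 37 39))))))) (.rp 10 (.thr 1 3 (.thr 34 46 (.thr 41 61 (.thr 43 40 (.thr 35 44 (.thr 32 33 (.dbl 47 37 39))))))) .nd)))))))))))) (.rp 2 (.thr 22 54 (.thr 20 23 (.thr 60 40 (.thr 3 41 (.thr 12 9 (.thr 28 44 (.thr 25 19 (.thr 29 17 (.thr 16 24 (.dbl 31 26 30)))))))))) .nd)))))))))) (.rp 46 (.thr 4 55 (.thr 12 8 (.thr 51 25 (.str 37 (.nv (.thr 32 47 (.thr 34 17 (.thr 35 33 (.thr 44 41 (.dbl 36 39 40))))) (.nv (.thr 39 36 (.thr 15 27 (.thr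 26 48 (.dbl 14 13 50)))) (.rp 39 (.str 23 (.nv (.thr 20 22 (.thr 36 52 (.thr 48 24 (.dbl 32 16 47)))) (.nv (.thr 32 47 (.thr 48 16 (.thr 50 49 (.dbl 26 14 15)))) (.nv (.thr 22 20 (.thr 54 6 (.thr 60 57 (.thr 41 3 (.dbl 44 28 35))))) .nd)))) (.rp 36 (.thr 32 47 (.thr 48 16 (.thr 50 49 (.dbl 26 14 15)))) (.rp 15 (.thr 47 32 (.thr 39 36 (.thr 35 43 (.thr 3 19 (.thr 1 2 (.dbl 41 44 61)))))) .nd))))))))) (.rp 34 (.str 22 (.nv (.thr 4 55 (.thr 6 54 (.thr 12 8 (.thr 3 9 (.thr 60 41 (.dbl 20 23 40)))))) (.nv (.thr 6 54 (.thr 2 62 (.thr 20 23 (.thr 60 40 (.dbl 3 1 41))))) (.nv (.thr 4 55 (.thr 6 54 (.thr 12 8 (.thr 3 9 (.dbl 2 1 62))))) (.nv (.thr 2 62 (.thr 3 1 (.thr 60 41 (.dbl 20 23 40)))) (.rp 23 (.thr 6 54 (.thr 2 62 (.thr 3 1 (.thr 14 10 (.thr 12 9 (.thr 13 15 (.dbl 4 8 55))))))) (.rp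 6 (.thr 4 55 (.thr 2 62 (.thr 3 1 (.thr 60 41 (.dbl 20 23 40))))) (.rp 3 (.thr 54 6 (.thr 4 55 (.thr 12 8 (.thr 51 25 (.thr 60 57 (.dbl 20 23 40)))))) (.rp 1 (.thr 54 6 (.thr 4 55 (.thr 12 8 (.thr 51 25 (.thr 60 57 (.dbl 20 23 40)))))) .nd))))))))) (.rp 25 (.str 22 (.nv (.thr 20 23 (.thr 34 46 (.thr 51 17 (.thr 60 40 (.dbl 54 6 57))))) (.nv (.thr 6 54 (.thr 2 62 (.thr 14 10 (.thr 34 46 (.dbl 50 18 26))))) (.nv (.thr 20 23 (.thr 2 62 (.thr 60 40 (.dbl 3 1 41)))) (.rp 60 (.thr 6 54 (.thr 4 55 (.thr 12 8 (.thr 3 9 (.dbl 2 1 62))))) (.rp 6 (.thr 4 55 (.thr 2 62 (.thr 3 1 (.thr 60 41 (.dbl 20 23 40))))) .nd)))))) (.rp 17 (.str 22 (.nv (.thr 4 55 (.thr 2 62 (.thr 3 1 (.thr 60 41 (.dbl 20 23 40))))) (.nv (.thr 46 34 (.thr 62 2 (.thr 14 30 (.thr 50 26 (.dbl 54 6 58))))) (.rp 62 (.thr 54 6 (.thr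 4 55 (.thr 12 8 (.thr 51 25 (.thr 60 57 (.dbl 20 23 40)))))) (.rp 4 (.thr 6 54 (.thr 20 23 (.thr 2 62 (.thr 3 1 (.dbl 60 40 41))))) (.rp 2 (.thr 54 6 (.thr 4 55 (.thr 12 8 (.thr 51 25 (.thr 60 57 (.dbl 20 23 40)))))) .nd)))))) (.rp 12 (.thr 46 34 (.str 41 (.nv (.thr 4 55 (.thr 40 43 (.thr 20 60 (.thr 44 35 (.dbl 36 32 52))))) (.nv (.thr 44 35 (.thr 47 45 (.thr 32 37 (.dbl 40 36 43)))) (.nv (.thr 40 43 (.thr 1 61 (.thr 60 20 (.dbl 3 2 22)))) (.rp 43 (.thr 44 35 (.thr 47 45 (.thr 32 37 (.thr 40 36 (.thr 1 61 (.thr 3 2 (.dbl 60 20 22))))))) (.rp 40 (.thr 1 61 (.thr 2 3 (.thr 62 22 (.thr 14 30 (.thr 26 50 (.dbl 10 6 58)))))) (.rp 4 (.str 6 (.nv (.thr 40 43 (.thr 44 35 (.thr 32 36 (.dbl 47 37 45)))) (.nv (.thr 1 61 (.thr 22 54 (.dbl 3 2 60))) (.rp 3 (.thr 44 35 (.thr 47 45 (.thr 32 37 (.dbl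 40 36 43)))) .nd)))) .nd)))))))) (.rp 8 (.str 22 (.nv (.thr 20 23 (.thr 34 46 (.thr 51 17 (.thr 60 40 (.dbl 54 6 57))))) (.nv (.thr 4 55 (.thr 2 62 (.thr 3 1 (.thr 60 41 (.dbl 20 23 40))))) (.nv (.thr 46 34 (.thr 62 2 (.thr 14 30 (.thr 50 26 (.dbl 54 6 58))))) (.rp 4 (.thr 6 54 (.thr 20 23 (.thr 2 62 (.thr 3 1 (.dbl 60 40 41))))) .nd))))) (.rp 4 (.str 6 (.nv (.thr 22 54 (.thr 20 23 (.thr 60 40 (.thr 3 41 (.dbl 2 1 62))))) (.nv (.thr 22 54 (.thr 2 62 (.thr 14 10 (.thr 50 26 (.dbl 34 18 46))))) (.rp 62 (.thr 34 46 (.thr 22 54 (.thr 20 23 (.thr 60 40 (.thr 3 41 (.thr 12 9 (.dbl 51 17 25))))))) (.rp 60 (.thr 34 46 (.thr 22 54 (.thr 51 17 (.thr 12 25 (.thr 3 9 (.dbl 2 1 62)))))) (.rp 54 (.thr 34 46 (.thr 51 17 (.thr 12 25 (.thr 3 9 (.thr 1 2 (.thr 41 61 (.dbl 35 19 44))))))) (.rp 22 (.thr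 34 46 (.thr 51 17 (.thr 12 25 (.thr 3 9 (.thr 1 2 (.thr 41 61 (.dbl 35 19 44))))))) (.rp 2 (.thr 34 46 (.thr 22 54 (.thr 20 23 (.thr 60 40 (.thr 3 41 (.thr 12 9 (.dbl 51 17 25))))))) .nd)))))))) .nd))))))))))))

theorem w261 : WinAt (4398048608257, 9223372036854775968) :=
  chF (K := []) kn c261 4398048608257 9223372036854775968 63
    [240] (by decide +kernel) (by decide +kernel)

/-- A certificate. -/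
noncomputable def c262 : Ct := (.str 48 (.nv (.thr 16 32 (.thr 26 31 (.thr 15 37 (.dbl 10 5 58)))) (.nv (.thr 32 16 (.thr 37 47 (.thr 15 26 (.dbl 5 10 53)))) (.rp 37 (.thr 16 32 (.thr 31 26 (.str 22 (.nv (.thr 2 62 (.thr 3 1 (.thr 18 33 (.thr 17 19 (.dbl 34 50 51))))) (.nv (.thr 2 62 (.thr 20 23 (.thr 3 1 (.dbl 60 40 41)))) (.nv (.thr 23 20 (.thr 19 27 (.thr 25 28 (.dbl 17 18 29)))) (.rp 5 (.str 4 (.nv (.thr 2 62 (.thr 3 1 (.thr 18 33 (.thr 34 50 (.dbl 38 46 55))))) (.nv (.thr 23 20 (.thr 19 27 (.thr 25 28 (.dbl 8 12 59)))) .nd))) (.rp 4 (.str 5 (.nv (.thr 2 62 (.thr 3 1 (.thr 18 33 (.thr 17 19 (.dbl 34 50 51))))) (.nv (.thr 2 62 (.thr 3 1 (.thr 20 23 (.dbl 60 40 41)))) (.nv (.thr 23 20 (.thr 19 27 (.thr 25 28 (.dbl 17 18 29)))) .nd)))) .nd)))))))) (.rp 32 (.str 40 (.nv (.thr 41 43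 (.thr 60 20 (.thr 56 52 (.thr 26 11 (.thr 10 58 (.dbl 15 5 37)))))) (.nv (.thr 60 20 (.thr 41 43 (.thr 1 61 (.dbl 3 2 22)))) (.rp 60 (.str 5 (.nv (.thr 37 53 (.dbl 15 10 26)) (.rp 62 (.str 61 (.nv (.thr 15 10 (.dbl 37 26 53)) (.nv (.dbl 41 1 43) .nd))) (.rp 61 (.str 62 (.nv (.thr 15 10 (.dbl 37 26 53)) (.nv (.thr 37 53 (.dbl 15 10 26)) (.rp 53 (.thr 2 22 (.thr 10 15 (.thr 58 26 (.thr 3 1 (.thr 18 33 (.dbl 50 34 54)))))) (.rp 37 (.thr 10 15 (.thr 58 26 (.thr 50 54 (.thr 51 49 (.thr 34 17 (.dbl 2 18 22)))))) (.rp 26 (.thr 37 53 (.thr 2 22 (.thr 41 43 (.thr 33 45 (.dbl 3 1 18))))) (.rp 15 (.thr 37 53 (.thr 2 22 (.thr 41 43 (.thr 3 1 (.dbl 33 18 45))))) (.rp 10 (.thr 37 53 (.thr 2 22 (.thr 41 43 (.thr 33 45 (.dbl 3 1 18))))) .nd)))))))) (.rp 53 (.thr 10 15 (.thr 26 58 (.thr 41 43 (.thr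 11 56 (.thr 9 8 (.dbl 1 13 61)))))) (.rp 37 (.thr 10 15 (.thr 26 58 (.thr 41 43 (.thr 11 56 (.thr 9 8 (.dbl 1 13 61)))))) (.rp 26 (.thr 37 53 (.thr 41 43 (.thr 33 45 (.thr 3 18 (.dbl 1 2 61))))) (.rp 15 (.thr 53 37 (.thr 41 43 (.thr 61 1 (.thr 57 49 (.thr 25 9 (.thr 8 59 (.thr 24 56 (.dbl 12 4 36)))))))) (.rp 10 (.thr 37 53 (.thr 41 43 (.thr 33 45 (.thr 3 18 (.dbl 1 2 61))))) .nd))))))))) (.rp 43 (.thr 60 20 (.thr 56 52 (.thr 8 24 (.thr 25 59 (.thr 17 29 (.thr 51 34 (.dbl 12 4 38))))))) (.rp 41 (.thr 60 20 (.thr 56 52 (.thr 8 24 (.thr 25 59 (.thr 17 29 (.thr 51 34 (.dbl 12 4 38))))))) (.rp 23 (.thr 60 20 (.thr 41 43 (.thr 3 22 (.dbl 1 2 61)))) (.rp 22 (.thr 41 43 (.thr 1 61 (.thr 3 2 (.thr 33 18 (.thr 37 45 (.thr 5 53 (.dbl 15 10 26))))))) (.rp 20 (.thr 41 43 (.thr 1 61 (.thr 3 2 (.thr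 33 18 (.thr 37 45 (.thr 5 53 (.dbl 15 10 26))))))) (.rp 5 (.str 4 (.nv (.thr 41 43 (.thr 1 61 (.thr 3 2 (.dbl 60 20 22)))) (.nv (.thr 12 8 (.thr 38 55 (.thr 34 46 (.dbl 51 17 25)))) (.nv (.thr 12 8 (.thr 36 24 (.dbl 20 52 60))) .nd)))) (.rp 4 (.str 5 (.nv (.thr 41 43 (.thr 1 61 (.thr 60 20 (.dbl 3 2 22)))) (.nv (.thr 37 53 (.dbl 15 10 26)) .nd))) (.rp 3 (.thr 60 20 (.thr 56 52 (.thr 8 24 (.thr 25 59 (.thr 17 29 (.thr 51 34 (.dbl 12 4 38))))))) .nd)))))))))))) (.rp 26 (.str 4 (.nv (.thr 12 8 (.thr 32 16 (.thr 36 24 (.thr 20 52 (.dbl 40 44 60))))) (.nv (.thr 12 8 (.thr 38 55 (.thr 34 46 (.dbl 51 17 25)))) (.rp 25 (.thr 12 8 (.thr 32 16 (.thr 37 47 (.thr 38 55 (.dbl 36 24 39))))) (.rp 12 (.thr 32 16 (.thr 47 37 (.thr 38 55 (.thr 46 34 (.thr 44 45 (.thr 40 36 (.dbl 41 35 43))))))) (.rp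 8 (.thr 32 16 (.thr 37 47 (.thr 38 55 (.thr 34 46 (.thr 51 17 (.thr 12 25 (.dbl 36 24 39))))))) .nd)))))) (.rp 16 (.str 12 (.nv (.thr 4 8 (.thr 38 55 (.thr 51 25 (.dbl 34 17 46)))) (.rp 55 (.thr 36 24 (.thr 4 8 (.thr 20 52 (.thr 40 60 (.thr 32 44 (.thr 37 47 (.thr 15 26 (.dbl 5 10 53)))))))) (.rp 51 (.thr 36 24 (.thr 4 8 (.thr 20 52 (.thr 40 60 (.thr 44 32 (.thr 41 43 (.dbl 38 35 55))))))) (.rp 46 (.thr 36 24 (.thr 4 8 (.thr 20 52 (.thr 40 60 (.thr 44 32 (.thr 38 55 (.dbl 41 35 43))))))) (.rp 39 (.thr 36 24 (.thr 4 8 (.thr 20 52 (.thr 40 60 (.thr 44 32 (.thr 41 43 (.dbl 38 35 55))))))) (.rp 38 (.thr 36 24 (.thr 4 8 (.thr 20 52 (.thr 22 23 (.thr 2 62 (.thr 3 1 (.dbl 60 40 41))))))) (.rp 34 (.thr 36 24 (.thr 4 8 (.thr 20 52 (.thr 40 60 (.thr 44 32 (.thr 38 55 (.dbl 41 35 43))))))) (.rp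 25 (.thr 36 24 (.thr 4 8 (.thr 20 52 (.thr 40 60 (.thr 44 32 (.thr 38 55 (.dbl 41 35 43))))))) (.rp 23 (.thr 36 24 (.thr 4 8 (.thr 38 55 (.thr 39 37 (.thr 34 46 (.dbl 51 17 25)))))) (.rp 17 (.thr 36 24 (.thr 4 8 (.thr 20 52 (.thr 40 60 (.thr 44 32 (.thr 38 55 (.dbl 41 35 43))))))) (.rp 8 (.str 4 (.nv (.thr 38 55 (.thr 51 25 (.dbl 34 17 46))) (.rp 55 (.thr 36 24 (.thr 20 52 (.thr 40 60 (.thr 32 44 (.thr 37 47 (.thr 15 26 (.dbl 5 10 53))))))) (.rp 51 (.thr 36 24 (.thr 20 52 (.thr 40 60 (.thr 44 32 (.thr 41 43 (.dbl 38 35 55)))))) (.rp 46 (.thr 36 24 (.thr 20 52 (.thr 40 60 (.thr 44 32 (.thr 38 55 (.dbl 41 35 43)))))) (.rp 39 (.thr 36 24 (.thr 20 52 (.thr 40 60 (.thr 44 32 (.thr 41 43 (.dbl 38 35 55)))))) (.rp 38 (.thr 36 24 (.thr 20 52 (.thr 22 23 (.thr 2 62 (.thr 3 1 (.dbl 60 40 41))))))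 (.rp 34 (.thr 36 24 (.thr 20 52 (.thr 40 60 (.thr 44 32 (.thr 38 55 (.dbl 41 35 43)))))) (.rp 25 (.thr 36 24 (.thr 20 52 (.thr 40 60 (.thr 44 32 (.thr 38 55 (.dbl 41 35 43)))))) (.rp 23 (.thr 36 24 (.thr 38 55 (.thr 39 37 (.thr 34 46 (.dbl 51 17 25))))) (.rp 17 (.thr 36 24 (.thr 20 52 (.thr 40 60 (.thr 44 32 (.thr 38 55 (.dbl 41 35 43)))))) .nd))))))))))) (.rp 4 (.str 5 (.nv (.thr 37 53 (.dbl 15 10 26)) (.rp 53 (.thr 24 36 (.thr 10 15 (.thr 26 58 (.thr 25 27 (.thr 17 29 (.dbl 51 34 38)))))) (.rp 37 (.thr 24 36 (.thr 10 15 (.thr 26 58 (.thr 25 27 (.thr 17 29 (.dbl 51 34 38)))))) (.rp 26 (.thr 36 24 (.thr 37 53 (.thr 38 39 (.thr 34 46 (.dbl 51 17 25))))) (.rp 15 (.thr 36 24 (.thr 37 53 (.thr 38 39 (.thr 34 46 (.dbl 51 17 25))))) (.rp 10 (.thr 36 24 (.thr 37 53 (.thr 38 39 (.thr 34 46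 (.dbl 51 17 25))))) .nd))))))) .nd))))))))))))) (.rp 15 (.thr 16 32 (.thr 31 26 (.str 3 (.nv (.thr 1 2 (.thr 41 61 (.thr 40 43 (.dbl 60 20 22)))) (.nv (.thr 18 33 (.thr 17 19 (.thr 2 1 (.dbl 34 50 51)))) (.rp 5 (.str 4 (.nv (.thr 1 2 (.thr 41 61 (.thr 40 43 (.dbl 60 20 22)))) (.nv (.thr 12 8 (.thr 38 55 (.thr 34 46 (.dbl 51 17 25)))) .nd))) (.rp 4 (.str 5 (.nv (.thr 1 2 (.thr 41 61 (.thr 40 43 (.dbl 60 20 22)))) (.nv (.thr 33 18 (.thr 37 53 (.thr 41 45 (.thr 40 43 (.dbl 60 20 22))))) (.nv (.thr 2 1 (.thr 18 33 (.thr 17 19 (.dbl 34 50 51)))) .nd)))) (.rp 2 (.thr 18 33 (.thr 19 17 (.thr 23 27 (.thr 20 22 (.thr 24 28 (.thr 40 60 (.thr 8 56 (.dbl 12 4 36)))))))) (.rp 1 (.thr 18 33 (.thr 17 19 (.thr 34 51 (.thr 2 50 (.thr 22 62 (.thr 60 41 (.dbl 20 23 40))))))) .nd))))))))) (.rp 10 (.thr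 32 16 (.thr 37 47 (.thr 5 53 (.thr 15 26 (.str 3 (.nv (.thr 33 18 (.thr 34 35 (.thr 38 46 (.thr 39 36 (.dbl 51 17 27))))) (.nv (.thr 2 1 (.thr 22 62 (.thr 60 41 (.dbl 20 23 40)))) (.rp 22 (.thr 2 1 (.thr 18 33 (.thr 34 50 (.thr 38 46 (.thr 39 36 (.dbl 51 17 27)))))) (.rp 2 (.str 14 (.nv (.thr 12 13 (.thr 4 8 (.thr 36 24 (.dbl 38 39 55)))) (.nv (.thr 33 18 (.thr 41 45 (.thr 40 43 (.dbl 60 20 22)))) (.nv (.thr 12 13 (.thr 8 4 (.thr 25 59 (.thr 51 38 (.dbl 17 29 34))))) .nd)))) .nd))))))))) (.rp 5 (.str 4 (.nv (.thr 12 8 (.thr 32 16 (.thr 36 24 (.thr 20 52 (.dbl 40 44 60))))) (.nv (.thr 12 8 (.thr 38 55 (.thr 51 25 (.dbl 34 17 46)))) (.rp 12 (.thr 16 32 (.thr 26 31 (.thr 38 55 (.thr 50 14 (.thr 51 49 (.dbl 34 17 46)))))) (.rp 8 (.thr 16 32 (.thr 26 31 (.thr 38 55 (.thr 50 14 (.thr 34 46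 (.dbl 51 17 49)))))) .nd))))) (.rp 4 (.str 5 (.nv (.thr 10 15 (.thr 16 32 (.dbl 26 31 58))) (.nv (.thr 15 10 (.dbl 37 26 53)) (.nv (.thr 32 16 (.dbl 37 47 53)) .nd)))) .nd)))))))))))

theorem w262 : WinAt (4398048608257, 9223372036854776000) :=
  chF (K := []) kn c262 4398048608257 9223372036854776000 63
    [240] (by decide +kernel) (by decide +kernel)

/-- A certificate. -/
noncomputable def c263 : Ct := (.str 3 (.nv (.thr 1 2 (.thr 41 61 (.thr 60 22 (.dbl 40 20 43)))) (.nv (.thr 2 1 (.thr 22 62 (.thr 60 41 (.dbl 20 23 40)))) (.rp 60 (.thr 2 1 (.str 18 (.nv (.thr 62 22 (.thr 33 48 (.thr 34 50 (.thr 51 17 (.dbl 35 19 32))))) (.nv (.thr 34 50 (.thr 17 51 (.thr 16 19 (.thr 26 31 (.dbl 22 30 62))))) (.nv (.thr 48 33 (.thr 32 16 (.thr 37 47 (.thr 5 53 (.dbl 15 10 26))))) (.nv (.thr 34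 50 (.thr 51 17 (.thr 35 19 (.dbl 33 32 48)))) (.rp 62 (.str 61 (.nv (.thr 33 48 (.thr 34 50 (.thr 51 17 (.dbl 35 19 32)))) (.nv (.thr 48 33 (.thr 32 16 (.thr 37 47 (.thr 5 53 (.dbl 15 10 26))))) (.nv (.thr 48 33 (.thr 16 32 (.thr 17 19 (.dbl 34 50 51)))) (.rp 48 (.thr 34 50 (.thr 51 17 (.thr 35 19 (.thr 38 46 (.thr 41 44 (.thr 43 40 (.thr 47 39 (.dbl 32 33 37)))))))) (.rp 33 (.thr 34 50 (.thr 17 51 (.thr 16 19 (.thr 48 32 (.thr 26 31 (.thr 15 37 (.dbl 10 5 58))))))) (.rp 32 (.thr 48 33 (.thr 34 50 (.thr 17 51 (.thr 16 19 (.thr 26 31 (.thr 15 37 (.dbl 10 5 58))))))) (.rp 17 (.thr 50 34 (.thr 48 33 (.thr 49 51 (.thr 32 16 (.thr 37 47 (.dbl 53 5 57)))))) .nd)))))))) (.rp 48 (.thr 34 50 (.thr 51 17 (.thr 38 46 (.thr 12 25 (.thr 6 9 (.dbl 22 54 62)))))) (.rp 17 (.thr 50 34 (.thr 62 22 (.thr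 58 54 (.thr 26 10 (.thr 16 31 (.dbl 48 32 33)))))) .nd))))))))) (.rp 41 (.str 15 (.nv (.thr 2 1 (.thr 10 5 (.thr 22 62 (.thr 26 58 (.thr 48 37 (.dbl 18 30 33)))))) (.nv (.thr 5 10 (.thr 37 53 (.thr 32 47 (.dbl 48 16 26)))) (.rp 58 (.thr 5 10 (.thr 37 53 (.thr 48 26 (.dbl 32 16 47)))) (.rp 48 (.thr 10 5 (.thr 2 1 (.thr 22 62 (.thr 20 23 (.thr 60 40 (.thr 30 45 (.dbl 26 18 58))))))) (.rp 37 (.thr 10 5 (.thr 2 1 (.thr 22 62 (.thr 20 23 (.thr 26 58 (.thr 30 18 (.dbl 60 40 45))))))) (.rp 26 (.thr 5 10 (.thr 1 2 (.thr 37 53 (.thr 32 47 (.thr 48 16 (.thr 33 18 (.thr 34 35 (.dbl 17 49 51)))))))) (.rp 10 (.thr 2 1 (.thr 22 62 (.thr 20 23 (.thr 60 40 (.thr 30 45 (.thr 26 18 (.thr 16 31 (.dbl 48 32 37)))))))) (.rp 9 (.thr 10 5 (.thr 26 58 (.thr 16 31 (.dbl 48 32 37)))) (.rp 5 (.thr 2 1 (.thr 22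 62 (.thr 20 23 (.thr 60 40 (.thr 30 45 (.thr 26 18 (.thr 16 31 (.dbl 48 32 37)))))))) .nd)))))))))) (.rp 40 (.str 15 (.nv (.thr 2 1 (.thr 22 62 (.thr 60 41 (.thr 30 45 (.thr 26 18 (.dbl 10 5 58)))))) (.nv (.thr 5 10 (.thr 37 53 (.thr 48 26 (.dbl 32 16 47)))) (.rp 56 (.str 24 (.nv (.thr 2 1 (.thr 22 62 (.thr 20 23 (.thr 16 28 (.thr 26 31 (.dbl 48 32 37)))))) (.nv (.thr 1 2 (.thr 41 61 (.thr 60 22 (.thr 45 30 (.thr 37 33 (.dbl 5 10 53)))))) (.nv (.thr 5 10 (.thr 37 53 (.thr 32 47 (.dbl 48 16 26)))) (.rp 37 (.thr 10 5 (.thr 2 1 (.thr 22 62 (.thr 20 23 (.thr 16 28 (.dbl 26 31 58)))))) (.rp 26 (.thr 5 10 (.thr 1 2 (.thr 41 61 (.thr 60 22 (.thr 37 53 (.dbl 45 30 33)))))) .nd)))))) (.rp 37 (.thr 10 5 (.thr 2 1 (.thr 22 62 (.thr 26 58 (.thr 30 18 (.dbl 60 41 45)))))) (.rp 26 (.thr 5 10 (.thr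 1 2 (.thr 41 61 (.thr 37 53 (.thr 45 33 (.dbl 60 22 30)))))) (.rp 24 (.str 56 (.nv (.thr 1 2 (.thr 41 61 (.thr 60 22 (.thr 45 30 (.thr 37 33 (.dbl 26 11 48)))))) (.nv (.thr 10 5 (.thr 26 58 (.thr 16 31 (.dbl 48 32 37)))) (.nv (.thr 1 2 (.thr 41 61 (.thr 26 11 (.dbl 10 5 58)))) (.rp 26 (.thr 1 2 (.thr 5 10 (.thr 41 61 (.thr 60 22 (.thr 37 53 (.dbl 45 30 33)))))) .nd))))) (.rp 10 (.thr 1 2 (.thr 41 61 (.thr 60 22 (.thr 45 30 (.thr 37 33 (.thr 32 47 (.dbl 48 16 26))))))) (.rp 5 (.thr 1 2 (.thr 41 61 (.thr 60 22 (.thr 45 30 (.thr 37 33 (.thr 32 47 (.dbl 48 16 26))))))) .nd))))))))) (.rp 22 (.str 37 (.nv (.thr 1 2 (.thr 32 47 (.thr 41 61 (.thr 33 45 (.dbl 48 16 18))))) (.nv (.thr 1 2 (.thr 41 61 (.thr 33 45 (.thr 49 17 (.thr 13 25 (.dbl 5 9 53)))))) (.nv (.thr 32 47 (.thr 5 53 (.thr 48 16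 (.dbl 15 10 26)))) .nd)))) (.rp 20 (.str 15 (.nv (.thr 2 1 (.thr 22 62 (.thr 60 41 (.thr 30 45 (.thr 26 18 (.dbl 10 5 58)))))) (.nv (.thr 5 10 (.thr 37 53 (.thr 48 26 (.dbl 32 16 47)))) (.rp 37 (.thr 10 5 (.thr 2 1 (.thr 22 62 (.thr 26 58 (.thr 30 18 (.dbl 60 41 45)))))) (.rp 26 (.thr 5 10 (.thr 1 2 (.thr 41 61 (.thr 37 53 (.thr 45 33 (.dbl 60 22 30)))))) (.rp 10 (.thr 2 1 (.thr 22 62 (.thr 60 41 (.thr 30 45 (.thr 26 18 (.thr 16 31 (.dbl 48 32 37))))))) (.rp 5 (.thr 2 1 (.thr 22 62 (.thr 60 41 (.thr 30 45 (.thr 26 18 (.thr 16 31 (.dbl 48 32 37))))))) .nd))))))) (.rp 2 (.str 32 (.nv (.thr 37 47 (.thr 48 16 (.thr 33 18 (.thr 41 45 (.thr 40 43 (.dbl 60 20 22)))))) (.nv (.thr 48 16 (.thr 37 47 (.thr 15 26 (.dbl 5 10 53)))) (.rp 48 (.str 51 (.nv (.thr 35 19 (.dbl 34 17 33)) (.rp 58 (.str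 53 (.nv (.thr 34 17 (.dbl 35 19 33)) (.nv (.dbl 37 5 47) .nd))) (.rp 53 (.str 58 (.nv (.thr 35 19 (.dbl 34 17 33)) (.rp 35 (.thr 34 17 (.thr 10 26 (.thr 37 47 (.thr 38 46 (.thr 39 36 (.dbl 15 5 27)))))) (.rp 34 (.thr 35 19 (.thr 10 26 (.thr 47 37 (.thr 15 5 (.dbl 39 27 43))))) (.rp 33 (.thr 19 35 (.thr 17 34 (.thr 26 10 (.dbl 16 18 31)))) (.rp 19 (.thr 34 17 (.thr 35 33 (.thr 10 26 (.thr 47 37 (.thr 15 5 (.dbl 39 27 43)))))) (.rp 17 (.thr 35 19 (.thr 10 26 (.thr 47 37 (.thr 15 5 (.dbl 39 27 43))))) .nd))))))) (.rp 35 (.thr 34 17 (.thr 37 47 (.thr 38 46 (.thr 39 36 (.thr 15 27 (.dbl 5 10 53)))))) (.rp 34 (.thr 35 19 (.thr 47 37 (.thr 43 39 (.thr 41 40 (.thr 22 60 (.thr 38 44 (.thr 6 54 (.dbl 12 9 25)))))))) (.rp 33 (.thr 35 19 (.thr 34 17 (.thr 37 47 (.thr 38 46 (.thr 36 39 (.dbl 44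 40 41)))))) (.rp 19 (.thr 34 17 (.thr 35 33 (.thr 37 47 (.thr 38 46 (.thr 36 39 (.dbl 44 40 41)))))) (.rp 17 (.thr 35 19 (.thr 34 33 (.thr 37 47 (.thr 38 46 (.thr 36 39 (.dbl 44 40 41)))))) .nd))))))))) (.rp 47 (.thr 48 16 (.thr 33 18 (.thr 34 35 (.thr 17 51 (.thr 1 49 (.thr 41 61 (.thr 60 22 (.dbl 40 20 43)))))))) (.rp 37 (.thr 48 16 (.thr 33 18 (.thr 34 35 (.thr 17 51 (.thr 1 49 (.thr 41 61 (.thr 40 43 (.dbl 60 20 22)))))))) (.rp 16 (.thr 37 47 (.thr 5 53 (.thr 15 10 (.thr 48 26 (.thr 33 18 (.thr 41 45 (.thr 40 43 (.dbl 60 20 22)))))))) (.rp 15 (.thr 48 16 (.thr 33 18 (.thr 34 35 (.thr 17 51 (.thr 49 1 (.thr 25 29 (.dbl 37 13 47))))))) .nd)))))))) (.rp 1 (.str 16 (.nv (.thr 26 31 (.thr 48 32 (.thr 18 33 (.thr 22 30 (.thr 20 23 (.dbl 60 40 41)))))) (.nv (.thr 48 32 (.thr 26 31 (.thr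 10 58 (.dbl 15 5 37)))) (.rp 48 (.str 51 (.nv (.thr 19 35 (.dbl 17 18 34)) (.rp 58 (.str 53 (.nv (.thr 19 35 (.dbl 17 18 34)) (.rp 35 (.thr 34 17 (.thr 38 46 (.thr 55 4 (.thr 54 52 (.thr 60 57 (.dbl 22 6 41)))))) (.rp 34 (.thr 19 35 (.thr 5 37 (.thr 31 26 (.thr 15 10 (.dbl 27 23 39))))) (.rp 19 (.thr 34 17 (.thr 38 46 (.thr 55 4 (.thr 54 52 (.thr 60 57 (.dbl 22 6 41)))))) (.rp 18 (.thr 35 19 (.thr 34 17 (.thr 37 5 (.dbl 32 33 47)))) (.rp 17 (.thr 19 35 (.thr 5 37 (.thr 31 26 (.thr 15 10 (.dbl 27 23 39))))) .nd))))))) (.rp 53 (.str 58 (.nv (.thr 17 34 (.dbl 19 18 35)) (.nv (.dbl 26 10 31) .nd))) (.rp 35 (.thr 17 34 (.thr 19 18 (.thr 26 31 (.thr 25 29 (.thr 24 27 (.dbl 28 20 22)))))) (.rp 34 (.thr 19 35 (.thr 17 18 (.thr 26 31 (.thr 25 29 (.thr 24 27 (.dbl 28 20 22)))))) (.rp 19 (.thr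 17 34 (.thr 26 31 (.thr 25 29 (.thr 27 24 (.thr 15 39 (.dbl 10 5 58)))))) (.rp 18 (.thr 19 35 (.thr 17 34 (.thr 26 31 (.thr 25 29 (.thr 24 27 (.dbl 28 20 22)))))) (.rp 17 (.thr 19 35 (.thr 31 26 (.thr 23 27 (.thr 22 20 (.thr 41 60 (.thr 25 28 (.thr 9 57 (.dbl 12 6 38)))))))) .nd))))))))) (.rp 47 (.thr 48 32 (.thr 26 31 (.thr 15 37 (.dbl 10 5 58)))) (.rp 32 (.thr 26 31 (.thr 10 58 (.thr 15 5 (.thr 48 37 (.thr 18 33 (.thr 22 30 (.thr 20 23 (.dbl 60 40 41)))))))) (.rp 31 (.thr 48 32 (.thr 18 33 (.thr 17 19 (.thr 34 51 (.thr 2 50 (.thr 22 62 (.thr 60 41 (.dbl 20 23 40)))))))) (.rp 26 (.thr 48 32 (.thr 18 33 (.thr 17 19 (.thr 34 51 (.thr 2 50 (.thr 22 62 (.thr 20 23 (.dbl 60 40 41)))))))) (.rp 15 (.thr 48 32 (.thr 18 33 (.thr 17 19 (.thr 34 51 (.thr 50 2 (.thr 38 46 (.dbl 26 14 31)))))))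 .nd))))))))) .nd))))))))))

theorem w263 : WinAt (4398048608257, 9223372036854776192) :=
  chF (K := []) kn c263 4398048608257 9223372036854776192 63
    [] (by decide +kernel) (by decide +kernel)

/-- A certificate. -/
noncomputable def c264 : Ct := (.str 48 (.nv (.thr 16 32 (.thr 26 31 (.thr 15 37 (.dbl 10 5 58)))) (.nv (.thr 32 16 (.thr 37 47 (.thr 15 26 (.dbl 5 10 53)))) (.rp 37 (.str 22 (.nv (.thr 2 62 (.thr 16 32 (.thr 26 31 (.thr 18 30 (.thr 34 50 (.dbl 17 19 51)))))) (.nv (.thr 20 23 (.thr 60 40 (.thr 2 62 (.dbl 3 1 41)))) (.rp 62 (.thr 16 32 (.thr 26 31 (.thr 18 30 (.thr 20 23 (.thr 28 24 (.dbl 19 17 25)))))) (.rp 60 (.thr 16 32 (.thr 26 31 (.thr 18 30 (.thr 3 33 (.dbl 2 1 62))))) (.rp 2 (.thr 16 32 (.thr 26 31 (.thr 18 30 (.thr 20 23 (.thr 28 24 (.dbl 19 17 25)))))) .nd))))))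 (.rp 32 (.str 40 (.nv (.thr 41 43 (.thr 60 20 (.thr 56 52 (.thr 26 11 (.thr 10 58 (.dbl 15 5 37)))))) (.nv (.thr 60 20 (.thr 41 43 (.thr 1 61 (.dbl 3 2 22)))) (.rp 60 (.thr 41 43 (.str 3 (.nv (.dbl 1 2 61) (.rp 62 (.thr 61 1 (.thr 33 18 (.thr 37 45 (.thr 5 53 (.dbl 15 10 26))))) (.rp 61 (.str 62 (.nv (.dbl 2 1 22) (.rp 22 (.thr 33 18 (.thr 37 45 (.thr 5 53 (.dbl 15 10 26)))) (.rp 2 (.thr 33 18 (.thr 37 45 (.thr 5 53 (.dbl 15 10 26)))) (.rp 1 (.thr 33 18 (.thr 37 45 (.thr 5 53 (.dbl 15 10 26)))) .nd))))) (.rp 2 (.thr 33 18 (.thr 37 45 (.thr 5 53 (.dbl 15 10 26)))) (.rp 1 (.thr 33 18 (.thr 37 45 (.thr 5 53 (.dbl 15 10 26)))) .nd))))))) (.rp 43 (.thr 60 20 (.thr 56 52 (.thr 8 24 (.thr 25 59 (.thr 17 29 (.thr 51 34 (.dbl 12 4 38))))))) (.rp 41 (.thr 60 20 (.thr 56 52 (.thr 8 24 (.thr 25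 59 (.thr 17 29 (.thr 51 34 (.dbl 12 4 38))))))) (.rp 23 (.thr 60 20 (.thr 41 43 (.thr 3 22 (.dbl 1 2 61)))) (.rp 22 (.thr 41 43 (.thr 1 61 (.thr 3 2 (.thr 33 18 (.thr 37 45 (.thr 5 53 (.dbl 15 10 26))))))) (.rp 20 (.thr 41 43 (.thr 1 61 (.thr 3 2 (.thr 33 18 (.thr 37 45 (.thr 5 53 (.dbl 15 10 26))))))) (.rp 3 (.thr 60 20 (.thr 56 52 (.thr 8 24 (.thr 25 59 (.thr 17 29 (.thr 51 34 (.dbl 12 4 38))))))) .nd)))))))))) (.rp 26 (.str 51 (.nv (.thr 32 16 (.thr 34 17 (.thr 33 35 (.thr 50 49 (.dbl 18 2 3))))) (.nv (.thr 17 34 (.thr 25 29 (.thr 8 59 (.dbl 12 4 38)))) (.rp 34 (.thr 49 50 (.thr 32 16 (.thr 37 47 (.thr 25 13 (.thr 8 59 (.dbl 12 4 38)))))) (.rp 17 (.thr 49 50 (.thr 32 16 (.thr 37 47 (.thr 25 13 (.thr 8 59 (.dbl 12 4 38)))))) .nd))))) (.rp 16 (.str 17 (.nv (.thr 25 29 (.thr 51 34 (.thr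 49 50 (.thr 37 13 (.thr 5 53 (.dbl 15 10 26)))))) (.nv (.thr 51 34 (.thr 25 29 (.thr 12 38 (.dbl 8 4 59)))) (.rp 51 (.thr 25 29 (.str 12 (.nv (.dbl 8 4 59) (.rp 59 (.str 55 (.nv (.dbl 4 8 38) (.rp 38 (.thr 24 36 (.thr 26 27 (.thr 10 58 (.dbl 15 5 37)))) (.rp 8 (.thr 24 36 (.thr 26 27 (.thr 10 58 (.dbl 15 5 37)))) (.rp 4 (.thr 24 36 (.thr 26 27 (.thr 10 58 (.dbl 15 5 37)))) .nd))))) (.rp 55 (.thr 59 8 (.thr 24 36 (.thr 26 27 (.thr 10 58 (.dbl 15 5 37))))) (.rp 8 (.thr 24 36 (.thr 26 27 (.thr 10 58 (.dbl 15 5 37)))) (.rp 4 (.thr 24 36 (.thr 26 27 (.thr 10 58 (.dbl 15 5 37)))) .nd))))))) (.rp 34 (.thr 25 29 (.thr 8 59 (.thr 12 4 (.thr 24 36 (.thr 26 27 (.thr 10 58 (.dbl 15 5 37))))))) (.rp 29 (.thr 51 34 (.thr 49 50 (.thr 1 33 (.thr 41 61 (.thr 40 43 (.thr 60 20 (.dbl 3 2 22))))))) (.rp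 25 (.thr 51 34 (.thr 49 50 (.thr 1 33 (.thr 41 61 (.thr 40 43 (.thr 60 20 (.dbl 3 2 22))))))) (.rp 12 (.thr 51 34 (.thr 49 50 (.thr 1 33 (.thr 41 61 (.thr 40 43 (.thr 60 20 (.dbl 3 2 22))))))) .nd)))))))) (.rp 15 (.thr 16 32 (.str 3 (.nv (.thr 31 26 (.thr 2 1 (.thr 18 33 (.thr 17 19 (.dbl 34 50 51))))) (.nv (.thr 1 2 (.thr 41 61 (.thr 40 43 (.dbl 60 20 22)))) (.rp 31 (.str 47 (.nv (.thr 2 1 (.thr 18 33 (.thr 17 19 (.dbl 34 50 51)))) (.nv (.thr 1 2 (.thr 41 61 (.thr 40 43 (.dbl 60 20 22)))) (.rp 2 (.thr 18 33 (.thr 17 19 (.thr 25 29 (.thr 8 59 (.thr 12 4 (.dbl 51 34 38)))))) (.rp 1 (.thr 18 33 (.thr 17 19 (.thr 25 29 (.thr 8 59 (.thr 12 4 (.dbl 51 34 38)))))) .nd))))) (.rp 2 (.thr 18 33 (.thr 17 19 (.thr 25 29 (.thr 8 59 (.thr 12 4 (.dbl 51 34 38)))))) (.rp 1 (.thr 18 33 (.thr 17 19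 (.thr 34 51 (.thr 50 2 (.thr 38 46 (.dbl 26 14 31)))))) .nd))))))) (.rp 10 (.str 8 (.nv (.thr 25 59 (.thr 17 29 (.thr 51 34 (.dbl 12 4 38)))) (.nv (.thr 12 4 (.thr 16 32 (.thr 24 36 (.thr 20 28 (.dbl 40 56 60))))) (.nv (.thr 12 4 (.thr 25 59 (.thr 51 38 (.dbl 17 29 34)))) (.rp 12 (.thr 32 16 (.thr 37 47 (.thr 25 59 (.thr 49 13 (.thr 51 50 (.dbl 17 29 34)))))) (.rp 4 (.thr 32 16 (.thr 37 47 (.thr 25 59 (.thr 49 13 (.thr 17 29 (.dbl 51 34 50)))))) .nd)))))) (.rp 5 (.thr 32 16 (.str 1 (.nv (.thr 37 47 (.thr 41 61 (.thr 33 45 (.thr 17 49 (.dbl 34 35 51))))) (.nv (.thr 3 2 (.thr 41 61 (.thr 40 43 (.dbl 60 20 22)))) (.nv (.thr 3 2 (.thr 33 18 (.thr 34 35 (.dbl 17 49 51)))) (.rp 6 (.str 4 (.nv (.thr 12 8 (.thr 36 24 (.thr 20 52 (.dbl 40 44 60)))) (.nv (.thr 3 2 (.thr 33 18 (.thr 17 49 (.dbl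 34 35 51)))) (.rp 10 (.thr 38 55 (.thr 34 46 (.thr 35 33 (.dbl 41 44 61)))) .nd)))) (.rp 4 (.str 6 (.nv (.thr 37 47 (.thr 41 61 (.thr 33 45 (.thr 17 49 (.dbl 34 35 51))))) (.nv (.thr 2 3 (.thr 10 14 (.thr 37 47 (.dbl 26 15 58)))) (.nv (.thr 3 2 (.thr 33 18 (.thr 17 49 (.dbl 34 35 51)))) .nd)))) .nd))))))) .nd))))))))))

theorem w264 : WinAt (4398048608257, 9223372036854776448) :=
  chF (K := []) kn c264 4398048608257 9223372036854776448 63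
    [] (by decide +kernel) (by decide +kernel)

/-- A certificate. -/
noncomputable def c265 : Ct := (.str 51 (.nv (.thr 34 17 (.thr 38 46 (.thr 12 25 (.dbl 4 8 55)))) (.nv (.thr 17 34 (.thr 25 29 (.thr 12 38 (.dbl 8 4 59)))) (.rp 38 (.str 19 (.nv (.thr 3 35 (.thr 17 34 (.thr 18 16 (.thr 33 48 (.dbl 1 2 49))))) (.nv (.thr 17 34 (.thr 25 29 (.thr 22 28 (.thr 23 20 (.thr 31 27 (.dbl 16 18 26)))))) (.nv (.thr 3 35 (.thr 2 1 (.thr 22 62 (.thr 20 23 (.dbl 60 40 41))))) .nd)))) (.rp 34 (.str 41 (.nv (.thr 40 43 (.thr 60 20 (.thr 57 54 (.thr 25 9 (.thr 8 59 (.dbl 12 4 38)))))) (.nv (.thr 1 61 (.thr 3 2 (.thr 35 19 (.thr 38 44 (.thr 4 55 (.dbl 12 8 25)))))) (.nv (.thr 40 43 (.thr 1 61 (.thr 60 20 (.dbl 3 2 22)))) (.rp 60 (.str 35 (.nv (.thr 38 44 (.thr 4 55 (.dbl 12 8 25))) (.nv (.thr 3 19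 (.dbl 1 2 61)) (.rp 62 (.thr 61 1 (.thr 38 44 (.thr 4 55 (.dbl 12 8 25)))) (.rp 61 (.str 62 (.nv (.thr 38 44 (.thr 4 55 (.dbl 12 8 25))) (.nv (.thr 3 19 (.dbl 2 1 22)) .nd))) .nd))))) (.rp 23 (.thr 1 61 (.thr 3 2 (.thr 40 43 (.dbl 60 20 22)))) (.rp 3 (.thr 43 40 (.str 11 (.nv (.thr 26 56 (.thr 16 31 (.thr 48 32 (.thr 15 37 (.dbl 27 39 59))))) (.nv (.thr 59 27 (.thr 25 8 (.thr 56 26 (.dbl 57 9 58)))) (.rp 59 (.thr 26 56 (.thr 16 31 (.thr 48 32 (.thr 49 50 (.thr 1 61 (.thr 33 17 (.dbl 37 15 45))))))) (.rp 56 (.thr 27 59 (.thr 39 15 (.thr 47 35 (.thr 37 32 (.thr 33 45 (.thr 5 53 (.thr 1 61 (.thr 49 17 (.dbl 13 9 25))))))))) (.rp 27 (.thr 26 56 (.thr 16 31 (.thr 48 32 (.thr 49 50 (.thr 1 61 (.thr 33 17 (.dbl 37 15 45))))))) (.rp 26 (.thr 59 27 (.thr 25 8 (.thr 57 9 (.thr 61 1 (.thr 49 53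 (.thr 29 17 (.dbl 13 37 45))))))) (.rp 8 (.thr 27 59 (.thr 26 56 (.thr 24 25 (.thr 16 31 (.thr 48 32 (.dbl 15 37 39)))))) .nd))))))))) .nd))))))) (.rp 25 (.str 35 (.nv (.thr 3 19 (.thr 1 2 (.thr 41 61 (.thr 40 43 (.dbl 60 20 22))))) (.nv (.thr 34 17 (.thr 38 46 (.thr 41 44 (.thr 43 40 (.thr 47 39 (.dbl 32 33 37)))))) (.nv (.thr 3 19 (.thr 34 17 (.thr 2 1 (.thr 33 32 (.dbl 18 48 50))))) .nd)))) (.rp 17 (.str 41 (.nv (.thr 40 43 (.thr 60 20 (.thr 57 54 (.thr 25 9 (.thr 8 59 (.dbl 12 4 38)))))) (.nv (.thr 1 61 (.thr 3 2 (.thr 35 19 (.thr 38 44 (.thr 4 55 (.dbl 12 8 25)))))) (.nv (.thr 40 43 (.thr 1 61 (.thr 60 20 (.dbl 3 2 22)))) (.rp 60 (.str 35 (.nv (.thr 38 44 (.thr 4 55 (.dbl 12 8 25))) (.nv (.thr 3 19 (.dbl 1 2 61)) (.rp 62 (.thr 61 1 (.thr 38 44 (.thr 4 55 (.dbl 12 8 25)))) (.rp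 61 (.str 62 (.nv (.thr 38 44 (.thr 4 55 (.dbl 12 8 25))) (.nv (.thr 2 22 (.dbl 3 1 19)) .nd))) .nd))))) (.rp 23 (.thr 1 61 (.thr 3 2 (.thr 40 43 (.dbl 60 20 22)))) (.rp 3 (.thr 43 40 (.str 11 (.nv (.thr 26 56 (.thr 16 31 (.thr 48 32 (.thr 15 37 (.dbl 27 39 59))))) (.nv (.thr 59 27 (.thr 25 8 (.thr 56 26 (.dbl 57 9 58)))) (.rp 59 (.thr 26 56 (.thr 16 31 (.thr 48 32 (.thr 50 49 (.thr 38 14 (.thr 4 55 (.dbl 12 8 25))))))) (.rp 56 (.thr 27 59 (.thr 39 15 (.thr 47 35 (.thr 32 37 (.thr 48 16 (.thr 49 50 (.thr 61 1 (.thr 57 53 (.thr 25 9 (.thr 24 26 (.dbl 12 36 38))))))))))) (.rp 27 (.thr 26 56 (.thr 16 31 (.thr 48 32 (.thr 49 50 (.thr 61 1 (.thr 53 57 (.dbl 37 5 15))))))) (.rp 26 (.thr 59 27 (.thr 25 8 (.thr 38 12 (.thr 35 44 (.thr 47 39 (.thr 32 37 (.dbl 34 33 46))))))) (.rp 8 (.thr 27 59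 (.thr 26 56 (.thr 24 25 (.thr 16 31 (.thr 48 32 (.dbl 15 37 39)))))) .nd))))))))) .nd))))))) (.rp 12 (.thr 17 34 (.str 19 (.nv (.thr 29 25 (.thr 3 35 (.thr 2 1 (.thr 22 62 (.thr 20 23 (.dbl 60 40 41)))))) (.nv (.thr 16 18 (.thr 31 26 (.thr 23 27 (.thr 22 20 (.dbl 25 28 29))))) (.nv (.thr 3 35 (.thr 1 2 (.thr 18 16 (.dbl 33 48 49)))) (.rp 29 (.str 46 (.nv (.thr 16 18 (.thr 31 26 (.thr 23 27 (.thr 22 20 (.thr 2 62 (.dbl 3 1 35)))))) (.nv (.thr 3 35 (.thr 2 1 (.thr 22 62 (.thr 20 23 (.dbl 60 40 41))))) (.nv (.thr 3 35 (.thr 1 2 (.thr 18 16 (.dbl 33 48 49)))) (.rp 35 (.thr 16 18 (.thr 32 48 (.thr 37 47 (.thr 31 26 (.thr 23 27 (.thr 22 20 (.thr 2 62 (.thr 1 3 (.thr 33 49 (.dbl 41 45 61)))))))))) (.rp 3 (.thr 16 18 (.thr 48 32 (.thr 50 49 (.thr 26 31 (.thr 14 38 (.thr 30 62 (.thr 15 37 (.thr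 60 45 (.thr 20 40 (.thr 28 24 (.dbl 22 23 25))))))))))) (.rp 2 (.thr 3 35 (.thr 18 16 (.thr 33 48 (.thr 1 49 (.thr 41 61 (.thr 60 22 (.dbl 40 20 43))))))) (.rp 1 (.thr 35 3 (.thr 16 18 (.thr 48 32 (.thr 50 49 (.thr 26 31 (.thr 38 14 (.thr 15 37 (.thr 39 27 (.thr 43 47 (.dbl 41 40 44)))))))))) .nd)))))))) (.rp 2 (.thr 3 35 (.thr 18 16 (.thr 33 48 (.thr 1 49 (.thr 41 61 (.thr 40 43 (.dbl 60 20 22))))))) .nd))))))) (.rp 8 (.thr 17 34 (.thr 25 29 (.thr 12 38 (.str 9 (.nv (.thr 3 6 (.thr 2 1 (.thr 22 62 (.dbl 19 28 35)))) (.nv (.thr 41 57 (.thr 1 61 (.thr 49 33 (.dbl 13 5 37)))) (.nv (.thr 41 57 (.thr 40 43 (.thr 60 20 (.dbl 3 6 22)))) (.rp 60 (.thr 41 57 (.thr 3 6 (.dbl 1 2 61))) .nd)))))))) (.rp 4 (.thr 34 17 (.thr 38 46 (.thr 12 25 (.str 6 (.nv (.thr 3 9 (.thr 1 2 (.thr 41 61 (.dbl 35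 19 44)))) (.nv (.thr 22 54 (.thr 20 23 (.thr 60 40 (.thr 44 28 (.dbl 41 3 35))))) (.nv (.thr 22 54 (.thr 3 9 (.dbl 2 1 62))) (.rp 41 (.thr 22 54 (.thr 2 62 (.dbl 3 1 9))) (.rp 3 (.thr 22 54 (.thr 2 62 (.thr 50 18 (.thr 48 49 (.thr 16 32 (.dbl 26 14 31)))))) .nd))))))))) .nd))))))))))

theorem w265 : WinAt (4398048608257, 9223372036854776960) :=
  chF (K := []) kn c265 4398048608257 9223372036854776960 63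
    [] (by decide +kernel) (by decide +kernel)

/-- A certificate. -/
noncomputable def c266 : Ct := (.str 15 (.nv (.thr 5 10 (.thr 37 53 (.thr 48 26 (.dbl 32 16 47)))) (.nv (.thr 10 5 (.thr 26 58 (.thr 16 31 (.dbl 48 32 37)))) (.rp 53 (.thr 10 5 (.thr 26 58 (.thr 48 37 (.dbl 16 31 32)))) (.rp 48 (.str 22 (.nv (.thr 10 5 (.thr 20 23 (.thr 60 40 (.thr 30 45 (.dbl 26 18 58))))) (.nv (.thr 2 62 (.thr 3 1 (.thr 10 5 (.thr 60 41 (.thr 30 45 (.dbl 26 18 58)))))) (.nv (.thr 2 62 (.thr 3 1 (.thr 20 23 (.dbl 60 40 41)))) (.rp 60 (.thr 10 5 (.thr 62 2 (.thr 58 26 (.thr 54 50 (.thr 38 6 (.thr 4 55 (.thr 12 8 (.thr 14 13 (.dbl 46 30 34))))))))) (.rp 58 (.str 53 (.nv (.dbl 5 10 37) (.rp 37 (.thr 20 23 (.thr 2 62 (.thr 3 1 (.dbl 60 40 41)))) (.rp 10 (.thr 20 23 (.thr 2 62 (.thr 3 1 (.dbl 60 40 41))))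 (.rp 5 (.thr 20 23 (.thr 2 62 (.thr 3 1 (.dbl 60 40 41)))) .nd))))) (.rp 53 (.str 58 (.nv (.dbl 10 5 26) (.rp 26 (.thr 20 23 (.thr 2 62 (.thr 3 1 (.dbl 60 40 41)))) (.rp 10 (.thr 20 23 (.thr 2 62 (.thr 3 1 (.dbl 60 40 41)))) (.rp 5 (.thr 20 23 (.thr 26 10 (.thr 30 18 (.dbl 60 40 45)))) .nd))))) (.rp 3 (.thr 10 5 (.thr 2 62 (.thr 6 14 (.thr 38 54 (.thr 4 55 (.thr 12 8 (.thr 51 25 (.dbl 34 17 46)))))))) .nd)))))))) (.rp 37 (.str 22 (.nv (.thr 10 5 (.thr 20 23 (.thr 26 58 (.thr 30 18 (.dbl 60 40 45))))) (.nv (.thr 2 62 (.thr 10 5 (.thr 26 58 (.thr 18 30 (.thr 50 34 (.dbl 14 6 38)))))) (.nv (.thr 2 62 (.thr 3 1 (.thr 20 23 (.dbl 60 40 41)))) (.rp 60 (.thr 10 5 (.thr 23 20 (.thr 26 58 (.thr 30 18 (.thr 31 16 (.thr 19 27 (.dbl 28 25 29))))))) .nd))))) (.rp 32 (.str 3 (.nv (.thr 2 1 (.thr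 10 5 (.thr 22 62 (.thr 60 41 (.thr 26 58 (.dbl 30 18 45)))))) (.nv (.thr 1 2 (.thr 41 61 (.thr 60 22 (.dbl 40 20 43)))) (.rp 60 (.thr 5 10 (.thr 1 2 (.thr 37 53 (.thr 48 26 (.thr 33 18 (.dbl 41 45 61)))))) (.rp 41 (.thr 10 5 (.thr 2 1 (.thr 22 62 (.thr 26 58 (.thr 18 30 (.dbl 48 33 37)))))) (.rp 22 (.thr 5 10 (.thr 1 2 (.thr 41 61 (.thr 37 53 (.thr 33 45 (.dbl 48 18 26)))))) (.rp 2 (.thr 5 10 (.thr 37 53 (.thr 48 26 (.thr 33 18 (.thr 41 45 (.thr 40 43 (.dbl 60 20 22))))))) (.rp 1 (.thr 5 10 (.thr 37 53 (.thr 48 26 (.thr 33 18 (.thr 41 45 (.thr 40 43 (.dbl 60 20 22))))))) .nd)))))))) (.rp 26 (.str 41 (.nv (.thr 5 10 (.thr 37 53 (.thr 40 43 (.thr 45 33 (.dbl 60 20 30))))) (.nv (.thr 1 61 (.thr 5 10 (.thr 37 53 (.thr 33 45 (.thr 49 17 (.dbl 13 9 25)))))) (.nv (.thr 1 61 (.thr 3 2 (.thr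 40 43 (.dbl 60 20 22)))) (.rp 60 (.thr 5 10 (.thr 43 40 (.thr 37 53 (.thr 45 33 (.thr 47 32 (.thr 35 39 (.dbl 44 38 46))))))) .nd))))) (.rp 16 (.str 3 (.nv (.thr 1 2 (.thr 5 10 (.thr 37 53 (.thr 41 61 (.thr 60 22 (.dbl 45 30 33)))))) (.nv (.thr 2 1 (.thr 22 62 (.thr 60 41 (.dbl 20 23 40)))) (.rp 60 (.thr 10 5 (.thr 2 1 (.thr 26 58 (.thr 48 37 (.thr 18 33 (.dbl 22 30 62)))))) (.rp 41 (.thr 10 5 (.thr 2 1 (.thr 22 62 (.thr 26 58 (.thr 18 30 (.dbl 48 33 37)))))) (.rp 22 (.thr 5 10 (.thr 1 2 (.thr 41 61 (.thr 37 53 (.thr 33 45 (.dbl 48 18 26)))))) (.rp 2 (.thr 10 5 (.thr 26 58 (.thr 48 37 (.thr 18 33 (.thr 22 30 (.thr 20 23 (.dbl 60 40 41))))))) (.rp 1 (.thr 10 5 (.thr 26 58 (.thr 48 37 (.thr 18 33 (.thr 22 30 (.thr 20 23 (.dbl 60 40 41))))))) .nd)))))))) (.rp 10 (.str 25 (.nv (.thr 17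 29 (.thr 51 34 (.thr 27 39 (.thr 26 24 (.thr 16 31 (.dbl 48 32 37)))))) (.nv (.thr 8 59 (.thr 12 4 (.thr 13 14 (.thr 37 49 (.thr 32 47 (.dbl 48 16 26)))))) (.nv (.thr 17 29 (.thr 51 34 (.thr 12 38 (.dbl 8 4 59)))) (.rp 51 (.thr 29 17 (.thr 59 8 (.str 9 (.nv (.thr 41 57 (.thr 40 43 (.thr 60 20 (.thr 30 45 (.thr 28 31 (.dbl 22 3 19)))))) (.nv (.thr 41 57 (.thr 1 61 (.thr 3 2 (.thr 13 5 (.dbl 12 6 14))))) (.nv (.thr 41 57 (.thr 40 43 (.thr 60 20 (.thr 45 30 (.dbl 61 1 13))))) (.rp 60 (.str 61 (.nv (.thr 57 41 (.thr 13 45 (.dbl 49 37 53))) (.nv (.dbl 41 1 57) (.rp 57 (.str 54 (.nv (.thr 13 45 (.thr 37 49 (.thr 32 47 (.dbl 48 16 26)))) (.nv (.thr 13 45 (.dbl 1 5 41)) (.rp 45 (.thr 1 41 (.thr 3 2 (.thr 13 5 (.dbl 12 6 14)))) (.rp 13 (.thr 1 41 (.thr 3 2 (.thr 6 12 (.thr 22 38 (.thr 28 19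 (.thr 31 30 (.thr 20 23 (.dbl 16 24 26)))))))) (.rp 1 (.thr 13 45 (.thr 12 14 (.thr 6 3 (.thr 22 38 (.thr 19 28 (.thr 23 20 (.thr 27 31 (.thr 62 2 (.thr 24 26 (.thr 50 58 (.thr 48 36 (.thr 32 16 (.dbl 37 47 49))))))))))))) .nd)))))) (.rp 41 (.thr 13 45 (.thr 5 1 (.dbl 37 49 53))) .nd))))) (.rp 57 (.str 60 (.nv (.thr 45 30 (.thr 13 61 (.thr 5 1 (.dbl 37 49 53)))) (.nv (.thr 20 40 (.thr 22 23 (.thr 3 41 (.thr 12 6 (.dbl 28 19 44))))) (.nv (.thr 40 20 (.thr 45 30 (.thr 61 13 (.dbl 41 1 43)))) .nd)))) (.rp 54 (.str 30 (.nv (.thr 60 45 (.thr 20 40 (.thr 22 23 (.dbl 28 19 31)))) (.nv (.thr 28 31 (.thr 22 19 (.thr 2 62 (.thr 3 1 (.dbl 41 57 60))))) (.nv (.thr 41 57 (.thr 60 45 (.dbl 40 20 43))) (.rp 60 (.thr 57 41 (.thr 31 28 (.thr 26 16 (.thr 37 48 (.thr 49 13 (.dbl 53 5 61)))))) .nd)))))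 (.rp 41 (.str 26 (.nv (.thr 27 24 (.thr 31 16 (.thr 19 23 (.dbl 28 22 30)))) (.nv (.thr 16 31 (.dbl 48 32 37)) (.rp 31 (.thr 24 27 (.thr 48 37 (.thr 12 36 (.thr 13 14 (.thr 1 5 (.dbl 3 2 6)))))) (.rp 16 (.thr 24 27 (.thr 48 37 (.thr 12 36 (.thr 13 14 (.thr 1 5 (.dbl 3 2 6)))))) .nd))))) (.rp 3 (.thr 41 57 (.thr 61 1 (.thr 45 13 (.thr 60 30 (.dbl 40 20 43))))) .nd))))))))))) (.rp 12 (.thr 29 17 (.str 41 (.nv (.thr 8 59 (.thr 1 61 (.thr 3 2 (.thr 60 22 (.dbl 40 20 43))))) (.nv (.thr 9 57 (.thr 61 1 (.thr 45 13 (.thr 60 30 (.dbl 40 20 43))))) (.nv (.thr 40 43 (.thr 60 20 (.thr 30 45 (.thr 28 31 (.dbl 22 3 19))))) (.nv (.thr 61 1 (.thr 13 45 (.thr 49 37 (.dbl 57 9 53)))) .nd)))))) (.rp 8 (.str 9 (.nv (.thr 41 57 (.thr 1 61 (.thr 3 2 (.thr 13 5 (.dbl 12 6 14))))) (.nv (.thr 17 29 (.thr 51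 34 (.thr 27 39 (.thr 26 24 (.thr 48 37 (.dbl 16 31 32)))))) (.nv (.thr 29 17 (.thr 41 57 (.thr 61 1 (.thr 45 13 (.thr 60 30 (.dbl 40 20 43)))))) .nd)))) .nd))))))) (.rp 5 (.str 38 (.nv (.thr 34 46 (.thr 51 17 (.thr 39 27 (.thr 37 36 (.thr 32 47 (.dbl 48 16 26)))))) (.nv (.thr 4 55 (.thr 12 8 (.thr 14 13 (.thr 26 50 (.thr 16 31 (.dbl 48 32 37)))))) (.nv (.thr 34 46 (.thr 51 17 (.thr 12 25 (.dbl 4 8 55)))) (.rp 51 (.thr 46 34 (.thr 55 4 (.str 6 (.nv (.thr 22 54 (.thr 20 23 (.thr 60 40 (.thr 45 30 (.thr 44 47 (.dbl 41 3 35)))))) (.nv (.thr 22 54 (.thr 2 62 (.thr 3 1 (.thr 14 10 (.dbl 12 9 13))))) (.nv (.thr 22 54 (.thr 20 23 (.thr 60 40 (.thr 30 45 (.dbl 62 2 14))))) (.rp 60 (.str 62 (.nv (.thr 54 22 (.thr 14 30 (.dbl 50 26 58))) (.nv (.dbl 22 2 54) (.rp 54 (.str 57 (.nv (.thr 14 30 (.thr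 26 50 (.thr 16 31 (.dbl 48 32 37)))) (.nv (.thr 14 30 (.dbl 2 10 22)) (.rp 30 (.thr 2 22 (.thr 3 1 (.thr 14 10 (.dbl 12 9 13)))) (.rp 14 (.thr 2 22 (.thr 3 1 (.thr 9 12 (.thr 41 25 (.thr 44 35 (.thr 47 45 (.thr 40 43 (.dbl 32 36 37)))))))) (.rp 2 (.thr 14 30 (.thr 12 13 (.thr 9 3 (.thr 41 25 (.thr 35 44 (.thr 43 40 (.thr 39 47 (.thr 61 1 (.thr 36 37 (.thr 49 53 (.thr 48 24 (.thr 16 32 (.dbl 26 31 50))))))))))))) .nd)))))) (.rp 22 (.thr 14 30 (.thr 10 2 (.dbl 26 50 58))) .nd))))) (.rp 57 (.str 45 (.nv (.thr 60 30 (.thr 40 20 (.thr 41 43 (.dbl 44 35 47)))) (.nv (.thr 44 47 (.thr 41 35 (.thr 1 61 (.thr 3 2 (.dbl 22 54 60))))) (.nv (.thr 22 54 (.thr 60 30 (.dbl 20 23 40))) (.rp 60 (.thr 54 22 (.thr 47 44 (.thr 37 32 (.thr 26 48 (.thr 50 14 (.dbl 58 10 62)))))) .nd))))) (.rp 54 (.str 60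 (.nv (.thr 30 45 (.thr 14 62 (.thr 10 2 (.dbl 26 50 58)))) (.nv (.thr 40 20 (.thr 41 43 (.thr 3 22 (.thr 12 9 (.dbl 44 28 35))))) (.nv (.thr 20 40 (.thr 30 45 (.thr 62 14 (.dbl 22 2 23)))) .nd)))) (.rp 22 (.str 37 (.nv (.thr 39 36 (.thr 47 32 (.thr 35 43 (.dbl 44 41 45)))) (.nv (.thr 32 47 (.dbl 48 16 26)) (.rp 47 (.thr 36 39 (.thr 48 26 (.thr 12 24 (.thr 14 13 (.thr 2 10 (.dbl 3 1 9)))))) (.rp 32 (.thr 36 39 (.thr 48 26 (.thr 12 24 (.thr 14 13 (.thr 2 10 (.dbl 3 1 9)))))) .nd))))) (.rp 3 (.thr 22 54 (.thr 62 2 (.thr 30 14 (.thr 60 45 (.dbl 20 23 40))))) .nd))))))))))) (.rp 12 (.thr 46 34 (.str 22 (.nv (.thr 4 55 (.thr 2 62 (.thr 3 1 (.thr 60 41 (.dbl 20 23 40))))) (.nv (.thr 6 54 (.thr 62 2 (.thr 30 14 (.thr 60 45 (.dbl 20 23 40))))) (.nv (.thr 20 23 (.thr 60 40 (.thr 45 30 (.thr 44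 47 (.dbl 41 3 35))))) (.nv (.thr 62 2 (.thr 14 30 (.thr 50 26 (.dbl 54 6 58)))) .nd)))))) (.rp 4 (.str 6 (.nv (.thr 22 54 (.thr 2 62 (.thr 3 1 (.thr 14 10 (.dbl 12 9 13))))) (.nv (.thr 22 54 (.thr 34 46 (.thr 51 17 (.thr 12 25 (.thr 3 9 (.dbl 2 1 62)))))) (.nv (.thr 46 34 (.thr 22 54 (.thr 62 2 (.thr 30 14 (.thr 60 45 (.dbl 20 23 40)))))) (.rp 62 (.thr 34 46 (.thr 51 17 (.thr 39 27 (.thr 37 36 (.thr 32 47 (.dbl 48 16 26)))))) (.rp 54 (.thr 34 46 (.thr 51 17 (.thr 39 27 (.thr 37 36 (.thr 32 47 (.dbl 48 16 26)))))) (.rp 22 (.thr 34 46 (.thr 51 17 (.thr 39 27 (.thr 37 36 (.thr 32 47 (.dbl 48 16 26)))))) (.rp 2 (.thr 34 46 (.thr 51 17 (.thr 39 27 (.thr 37 36 (.thr 32 47 (.dbl 48 16 26)))))) .nd)))))))) .nd))))))) .nd)))))))))))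

theorem w266 : WinAt (4398048608257, 9223372036854777984) :=
  chF (K := []) kn c266 4398048608257 9223372036854777984 63
    [34952] (by decide +kernel) (by decide +kernel)

/-- A certificate. -/
noncomputable def c267 : Ct := (.str 37 (.nv (.thr 47 32 (.thr 53 5 (.thr 63 0 (.thr 15 31 (.dbl 48 26 58))))) (.nv (.thr 5 53 (.thr 0 63 (.thr 15 10 (.thr 32 47 (.dbl 48 16 26))))) (.rp 63 (.str 1 (.nv (.thr 41 61 (.thr 43 40 (.thr 45 33 (.thr 47 32 (.thr 35 39 (.dbl 44 38 46)))))) (.nv (.thr 53 5 (.thr 61 41 (.thr 49 57 (.thr 17 33 (.dbl 25 13 29))))) (.rp 61 (.thr 32 47 (.thr 5 53 (.thr 13 9 (.thr 49 25 (.thr 33 17 (.thr 41 45 (.thr 40 43 (.thr 35 34 (.dbl 44 36 38))))))))) (.rp 46 (.str 29 (.nv (.thr 5 53 (.thr 13 9 (.dbl 61 41 45))) (.nv (.thr 17 25 (.thr 33 49 (.dbl 41 45 61))) (.nv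 (.thr 25 17 (.thr 13 49 (.dbl 5 9 53))) .nd)))) (.rp 41 (.str 25 (.nv (.thr 49 13 (.dbl 17 29 33)) (.nv (.thr 13 49 (.dbl 5 9 53)) (.rp 49 (.thr 5 53 (.thr 9 13 (.thr 8 59 (.thr 10 11 (.thr 15 0 (.dbl 26 48 58)))))) (.rp 46 (.thr 29 17 (.thr 13 49 (.dbl 5 9 53))) (.rp 29 (.str 46 (.nv (.thr 32 47 (.thr 34 38 (.thr 49 13 (.dbl 33 17 35)))) (.nv (.thr 13 49 (.dbl 5 9 53)) (.rp 49 (.thr 5 53 (.thr 9 13 (.thr 8 59 (.thr 10 11 (.thr 15 0 (.dbl 26 48 58)))))) (.rp 13 (.thr 38 34 (.thr 32 47 (.thr 8 59 (.thr 36 39 (.thr 40 44 (.thr 24 56 (.thr 26 27 (.thr 14 50 (.thr 62 30 (.thr 2 22 (.dbl 10 6 58))))))))))) .nd))))) (.rp 13 (.thr 29 17 (.thr 32 47 (.str 15 (.nv (.thr 26 48 (.thr 31 16 (.thr 28 30 (.thr 19 22 (.dbl 27 23 24))))) (.nv (.thr 5 53 (.thr 0 10 (.dbl 48 16 26))) (.rp 58 (.thr 5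 53 (.thr 48 26 (.dbl 0 10 16))) (.rp 53 (.thr 26 48 (.thr 58 10 (.thr 31 16 (.thr 28 30 (.thr 19 22 (.dbl 27 23 24)))))) (.rp 48 (.str 0 (.nv (.dbl 5 10 53) (.rp 58 (.thr 53 5 (.thr 2 3 (.thr 22 62 (.thr 28 19 (.thr 31 30 (.thr 16 26 (.dbl 20 23 24))))))) (.rp 53 (.str 58 (.nv (.dbl 10 5 26) (.rp 36 (.str 24 (.nv (.dbl 10 5 26) (.rp 26 (.thr 2 3 (.thr 22 62 (.thr 28 19 (.dbl 20 16 23)))) (.rp 10 (.thr 2 3 (.thr 22 62 (.thr 28 19 (.dbl 20 16 23)))) (.rp 5 (.dbl 26 10 27) .nd))))) (.rp 26 (.thr 2 3 (.thr 22 62 (.thr 28 19 (.thr 30 31 (.thr 60 45 (.dbl 20 23 40)))))) (.rp 24 (.str 36 (.nv (.dbl 10 5 26) (.rp 26 (.thr 40 44 (.thr 2 3 (.thr 22 62 (.dbl 20 23 60)))) (.rp 10 (.thr 40 44 (.thr 2 3 (.thr 22 62 (.dbl 20 23 60)))) (.rp 5 (.thr 40 44 (.thr 2 3 (.thr 22 62 (.dbl 20 23 60)))) .nd)))))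 (.rp 10 (.thr 2 3 (.thr 22 62 (.thr 28 19 (.thr 30 31 (.thr 60 45 (.dbl 20 23 40)))))) (.rp 5 (.thr 26 10 (.thr 31 16 (.thr 28 30 (.thr 2 3 (.dbl 22 19 62))))) .nd))))))) (.rp 36 (.str 24 (.nv (.dbl 5 10 53) (.rp 58 (.thr 53 5 (.thr 2 3 (.thr 22 62 (.thr 28 19 (.dbl 20 16 23))))) (.rp 53 (.str 58 (.nv (.dbl 10 5 26) (.rp 26 (.thr 2 3 (.thr 22 62 (.thr 28 19 (.dbl 20 16 23)))) (.rp 10 (.thr 2 3 (.thr 22 62 (.thr 28 19 (.dbl 20 16 23)))) (.rp 5 (.dbl 26 10 27) .nd))))) (.rp 10 (.thr 2 3 (.thr 22 62 (.thr 28 19 (.dbl 20 16 23)))) (.rp 5 (.thr 2 3 (.thr 22 62 (.thr 28 19 (.dbl 20 16 23)))) .nd)))))) (.rp 24 (.str 36 (.nv (.dbl 5 10 53) (.rp 58 (.thr 53 5 (.thr 2 3 (.thr 40 44 (.thr 22 62 (.dbl 20 23 60))))) (.rp 53 (.str 58 (.nv (.dbl 10 5 26) (.rp 26 (.thr 40 44 (.thr 2 3 (.thr 22 62 (.dbl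 20 23 60)))) (.rp 10 (.thr 40 44 (.thr 2 3 (.thr 22 62 (.dbl 20 23 60)))) (.rp 5 (.thr 40 44 (.thr 2 3 (.thr 22 62 (.dbl 20 23 60)))) .nd))))) (.rp 10 (.thr 2 3 (.thr 40 44 (.thr 22 62 (.dbl 20 23 60)))) (.rp 5 (.thr 2 3 (.thr 40 44 (.thr 22 62 (.dbl 20 23 60)))) .nd)))))) (.rp 10 (.thr 2 3 (.thr 22 62 (.thr 28 19 (.thr 31 30 (.thr 16 26 (.dbl 20 23 24)))))) (.rp 5 (.thr 2 3 (.thr 22 62 (.thr 28 19 (.thr 31 30 (.thr 16 26 (.dbl 20 23 24)))))) .nd)))))))) (.rp 26 (.thr 5 53 (.thr 0 10 (.thr 2 3 (.thr 22 62 (.thr 28 19 (.thr 30 31 (.thr 60 45 (.dbl 20 23 40)))))))) (.rp 16 (.thr 5 53 (.thr 10 0 (.dbl 26 48 58))) .nd)))))))))) .nd))))))) (.rp 33 (.thr 61 41 (.thr 5 53 (.thr 13 9 (.thr 29 45 (.dbl 25 17 49))))) (.rp 29 (.str 46 (.nv (.thr 32 47 (.thr 38 34 (.thr 36 39 (.thr 40 44 (.dbl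 41 43 61))))) (.nv (.thr 5 53 (.thr 13 9 (.thr 49 25 (.thr 33 17 (.dbl 41 45 61))))) (.nv (.thr 47 32 (.thr 41 61 (.dbl 45 33 44))) (.rp 61 (.thr 38 34 (.thr 39 36 (.thr 47 32 (.thr 35 43 (.dbl 44 41 45))))) (.rp 41 (.thr 38 34 (.thr 36 39 (.thr 32 47 (.thr 40 44 (.thr 5 53 (.thr 13 9 (.thr 25 49 (.thr 8 59 (.thr 24 56 (.thr 26 27 (.thr 14 50 (.thr 62 30 (.thr 2 22 (.dbl 10 6 58)))))))))))))) .nd)))))) .nd)))))))) (.rp 58 (.thr 32 47 (.thr 0 63 (.thr 5 53 (.thr 48 16 (.dbl 15 10 26))))) (.rp 53 (.str 1 (.nv (.thr 0 63 (.thr 3 2 (.thr 32 47 (.thr 48 16 (.thr 33 18 (.dbl 41 45 61)))))) (.nv (.thr 0 63 (.thr 3 2 (.thr 32 47 (.thr 48 16 (.thr 33 18 (.thr 34 35 (.dbl 17 49 51))))))) (.nv (.thr 32 47 (.thr 41 61 (.thr 40 43 (.thr 44 36 (.thr 35 38 (.dbl 33 34 45)))))) (.nv (.thr 0 63 (.thr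 3 2 (.thr 41 61 (.thr 60 22 (.dbl 40 20 43))))) (.rp 48 (.thr 47 32 (.thr 41 61 (.thr 45 33 (.thr 44 46 (.thr 35 38 (.dbl 43 39 40)))))) .nd)))))) (.rp 48 (.str 49 (.nv (.thr 25 13 (.thr 53 5 (.thr 17 29 (.thr 61 57 (.dbl 1 33 41))))) (.nv (.thr 25 13 (.thr 17 29 (.thr 32 47 (.thr 33 1 (.thr 34 35 (.dbl 0 51 63)))))) (.nv (.thr 53 5 (.thr 61 57 (.thr 41 1 (.thr 13 25 (.dbl 45 29 33))))) (.rp 61 (.thr 32 47 (.thr 5 53 (.thr 13 25 (.thr 1 9 (.thr 33 17 (.thr 35 34 (.thr 41 45 (.thr 40 43 (.dbl 44 36 38))))))))) (.rp 36 (.str 24 (.nv (.thr 25 13 (.thr 8 59 (.thr 26 27 (.thr 56 40 (.thr 11 41 (.dbl 10 9 58)))))) (.nv (.thr 13 25 (.thr 53 5 (.thr 61 57 (.thr 41 1 (.dbl 45 29 33))))) (.rp 41 (.thr 25 13 (.thr 17 29 (.thr 33 1 (.thr 32 47 (.thr 34 35 (.dbl 0 51 63)))))) (.rp 25 (.thr 53 5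 (.thr 61 57 (.thr 41 1 (.thr 63 0 (.thr 60 62 (.thr 43 40 (.dbl 3 22 23))))))) (.rp 13 (.thr 53 5 (.thr 61 57 (.thr 1 41 (.thr 17 33 (.thr 25 29 (.thr 26 27 (.thr 16 31 (.thr 28 20 (.dbl 19 18 22))))))))) .nd)))))) (.rp 33 (.thr 63 0 (.thr 53 5 (.thr 61 57 (.thr 60 62 (.thr 41 1 (.thr 43 40 (.dbl 3 22 23))))))) (.rp 29 (.thr 5 53 (.thr 13 25 (.thr 1 9 (.thr 33 17 (.dbl 41 45 61))))) (.rp 25 (.thr 63 0 (.thr 53 5 (.thr 61 57 (.thr 60 62 (.thr 41 1 (.thr 43 40 (.dbl 3 22 23))))))) (.rp 24 (.str 36 (.nv (.thr 5 53 (.thr 13 25 (.thr 1 9 (.thr 33 17 (.dbl 41 45 61))))) (.nv (.thr 38 39 (.thr 34 46 (.thr 32 47 (.thr 35 33 (.dbl 44 40 41))))) (.nv (.thr 53 5 (.thr 61 57 (.thr 32 47 (.thr 41 1 (.dbl 40 43 44))))) (.rp 41 (.thr 38 39 (.thr 32 47 (.thr 25 13 (.thr 17 29 (.thr 33 1 (.dbl 34 35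 46)))))) .nd))))) (.rp 13 (.thr 0 63 (.thr 53 5 (.thr 61 57 (.thr 1 41 (.thr 17 33 (.thr 34 51 (.thr 2 3 (.thr 18 50 (.thr 19 16 (.thr 22 62 (.dbl 25 28 29))))))))))) (.rp 5 (.thr 63 0 (.thr 25 13 (.thr 17 29 (.thr 1 33 (.thr 61 41 (.thr 57 53 (.thr 60 62 (.thr 51 54 (.dbl 59 8 55))))))))) (.rp 1 (.thr 63 0 (.thr 53 5 (.thr 61 57 (.thr 60 62 (.thr 13 25 (.thr 45 29 (.thr 15 30 (.dbl 47 31 32)))))))) .nd))))))))))))) (.rp 47 (.str 13 (.nv (.thr 49 25 (.thr 53 5 (.thr 61 57 (.thr 41 1 (.dbl 45 29 33))))) (.nv (.thr 0 63 (.thr 5 53 (.thr 9 1 (.thr 25 49 (.thr 8 59 (.dbl 10 11 15)))))) (.nv (.thr 5 53 (.thr 1 9 (.thr 25 49 (.thr 61 41 (.dbl 29 17 45))))) (.rp 61 (.thr 0 63 (.thr 5 53 (.thr 9 1 (.thr 25 49 (.thr 57 41 (.thr 8 59 (.dbl 10 11 15))))))) (.rp 53 (.thr 63 0 (.thr 25 49 (.thr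 29 17 (.thr 61 45 (.thr 62 60 (.thr 22 2 (.thr 20 23 (.thr 28 19 (.thr 16 24 (.dbl 31 26 30)))))))))) (.rp 49 (.thr 0 63 (.thr 5 53 (.thr 1 9 (.thr 15 10 (.thr 3 2 (.thr 48 26 (.thr 33 18 (.dbl 41 45 61)))))))) (.rp 29 (.thr 5 53 (.thr 1 9 (.thr 41 61 (.thr 33 45 (.dbl 49 17 25))))) (.rp 25 (.thr 0 63 (.thr 5 53 (.thr 1 9 (.thr 3 2 (.thr 41 61 (.thr 40 43 (.dbl 60 20 22))))))) (.rp 5 (.thr 63 0 (.thr 25 49 (.thr 29 17 (.thr 61 45 (.thr 62 60 (.thr 22 2 (.thr 20 23 (.thr 28 19 (.thr 16 24 (.dbl 31 26 30)))))))))) (.rp 1 (.thr 63 0 (.thr 53 5 (.thr 49 25 (.thr 61 57 (.thr 45 29 (.thr 60 62 (.thr 15 30 (.dbl 48 26 58)))))))) .nd))))))))))) (.rp 32 (.str 13 (.nv (.thr 0 63 (.thr 5 53 (.thr 10 15 (.thr 25 49 (.thr 8 59 (.dbl 9 1 11)))))) (.nv (.thr 25 49 (.thr 29 17 (.thr 5 53 (.thr 61 45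 (.dbl 1 9 41))))) (.rp 61 (.thr 0 63 (.thr 5 53 (.thr 9 1 (.thr 10 15 (.thr 25 49 (.thr 57 41 (.dbl 8 11 59))))))) (.rp 53 (.thr 63 0 (.thr 25 49 (.thr 29 17 (.thr 61 45 (.thr 62 60 (.thr 22 2 (.thr 20 23 (.thr 28 19 (.thr 16 24 (.dbl 31 26 30)))))))))) (.rp 49 (.thr 0 63 (.thr 5 53 (.thr 1 9 (.thr 15 10 (.thr 3 2 (.thr 48 26 (.thr 33 18 (.dbl 41 45 61)))))))) (.rp 29 (.thr 5 53 (.thr 1 9 (.thr 41 61 (.thr 33 45 (.dbl 49 17 25))))) (.rp 25 (.thr 0 63 (.thr 5 53 (.thr 1 9 (.thr 3 2 (.thr 41 61 (.thr 40 43 (.dbl 60 20 22))))))) (.rp 9 (.thr 53 5 (.thr 49 25 (.thr 61 57 (.thr 41 1 (.dbl 45 29 33))))) (.rp 5 (.thr 63 0 (.thr 25 49 (.thr 29 17 (.thr 61 45 (.thr 62 60 (.thr 22 2 (.thr 20 23 (.thr 28 19 (.thr 16 24 (.dbl 31 26 30)))))))))) (.rp 1 (.thr 63 0 (.thr 53 5 (.thr 49 25 (.thr 61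 57 (.thr 45 29 (.thr 60 62 (.thr 15 30 (.dbl 48 26 58)))))))) .nd))))))))))) (.rp 26 (.str 13 (.nv (.thr 0 63 (.thr 5 53 (.thr 10 15 (.thr 25 49 (.thr 8 59 (.dbl 9 1 11)))))) (.nv (.thr 25 49 (.thr 29 17 (.thr 5 53 (.thr 61 45 (.dbl 1 9 41))))) (.rp 61 (.thr 0 63 (.thr 5 53 (.thr 9 1 (.thr 10 15 (.thr 25 49 (.thr 57 41 (.dbl 8 11 59))))))) (.rp 53 (.thr 47 32 (.thr 63 0 (.thr 31 15 (.thr 25 49 (.thr 29 17 (.thr 28 30 (.thr 22 19 (.thr 62 2 (.dbl 61 45 60))))))))) (.rp 49 (.thr 47 32 (.thr 63 0 (.thr 15 31 (.thr 5 53 (.thr 1 9 (.thr 61 41 (.thr 45 29 (.dbl 60 30 62)))))))) (.rp 29 (.thr 5 53 (.thr 1 9 (.thr 41 61 (.thr 33 45 (.dbl 49 17 25))))) (.rp 25 (.thr 0 63 (.thr 5 53 (.thr 1 9 (.thr 3 2 (.thr 41 61 (.thr 40 43 (.dbl 60 20 22))))))) (.rp 9 (.thr 53 5 (.thr 49 25 (.thr 61 57 (.thr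 41 1 (.dbl 45 29 33))))) (.rp 5 (.thr 47 32 (.thr 63 0 (.thr 25 49 (.thr 29 17 (.thr 61 45 (.thr 62 60 (.thr 22 2 (.thr 28 19 (.dbl 31 15 30))))))))) (.rp 1 (.thr 47 32 (.thr 63 0 (.thr 15 31 (.thr 53 5 (.thr 49 25 (.thr 61 57 (.thr 45 29 (.dbl 60 30 62)))))))) .nd))))))))))) (.rp 16 (.thr 47 32 (.thr 53 5 (.thr 63 0 (.thr 48 58 (.dbl 15 26 31))))) (.rp 15 (.str 13 (.nv (.thr 0 63 (.thr 5 53 (.thr 1 9 (.thr 3 2 (.thr 41 61 (.thr 40 43 (.dbl 60 20 22))))))) (.nv (.thr 5 53 (.thr 1 9 (.thr 25 49 (.thr 61 41 (.dbl 29 17 45))))) (.rp 61 (.thr 0 63 (.thr 5 53 (.thr 1 9 (.thr 3 2 (.thr 49 25 (.thr 33 17 (.thr 48 18 (.dbl 32 16 47)))))))) (.rp 53 (.thr 0 63 (.thr 25 49 (.thr 29 17 (.thr 61 45 (.thr 1 41 (.thr 9 5 (.thr 8 59 (.thr 11 10 (.thr 2 3 (.thr 22 62 (.thr 23 20 (.thr 19 28 (.thr 32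 47 (.thr 31 27 (.dbl 16 26 48))))))))))))))) (.rp 49 (.thr 47 32 (.str 45 (.nv (.thr 5 53 (.thr 1 9 (.dbl 61 29 41))) (.nv (.thr 41 33 (.thr 43 40 (.thr 35 39 (.dbl 44 38 46)))) (.nv (.thr 61 29 (.dbl 41 1 33)) (.rp 41 (.thr 46 44 (.thr 0 63 (.thr 29 61 (.thr 17 25 (.dbl 34 38 51))))) (.rp 11 (.str 3 (.nv (.thr 63 0 (.thr 43 23 (.dbl 41 33 40))) (.nv (.thr 5 53 (.thr 1 9 (.dbl 0 2 63))) (.nv (.thr 61 29 (.dbl 41 1 33)) (.rp 63 (.thr 41 33 (.dbl 61 1 29)) .nd))))) (.rp 3 (.str 11 (.nv (.thr 5 53 (.thr 61 29 (.thr 63 0 (.dbl 1 9 41)))) (.nv (.thr 41 33 (.thr 43 40 (.thr 35 39 (.dbl 44 38 46)))) (.nv (.thr 61 29 (.dbl 41 1 33)) (.rp 41 (.thr 46 44 (.thr 0 63 (.thr 29 61 (.thr 17 25 (.dbl 34 38 51))))) (.rp 9 (.str 6 (.nv (.thr 41 33 (.thr 43 40 (.thr 35 39 (.dbl 44 38 46)))) (.nv (.thr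 61 29 (.dbl 41 1 33)) (.rp 46 (.thr 41 33 (.dbl 61 1 29)) (.rp 41 (.thr 46 44 (.thr 38 34 (.thr 55 4 (.thr 53 5 (.dbl 54 22 52))))) (.rp 33 (.thr 46 44 (.thr 34 38 (.thr 0 63 (.thr 29 61 (.dbl 17 25 51))))) (.rp 1 (.thr 46 44 (.thr 38 34 (.thr 55 4 (.thr 53 5 (.dbl 54 22 52))))) .nd))))))) (.rp 6 (.str 9 (.nv (.thr 8 10 (.thr 25 59 (.dbl 29 17 61))) (.nv (.dbl 5 1 53) (.rp 5 (.str 4 (.nv (.thr 0 63 (.thr 38 55 (.dbl 46 34 44))) (.nv (.thr 10 8 (.thr 26 58 (.dbl 41 33 56))) .nd))) .nd)))) (.rp 1 (.thr 46 44 (.thr 34 38 (.thr 0 63 (.thr 29 61 (.dbl 17 25 51))))) .nd)))))))) (.rp 1 (.thr 46 44 (.thr 34 38 (.thr 0 63 (.thr 29 61 (.dbl 17 25 51))))) .nd))))))))) (.rp 41 (.thr 25 49 (.thr 8 59 (.str 11 (.nv (.thr 9 10 (.dbl 5 1 53)) (.rp 53 (.thr 10 9 (.thr 17 29 (.thr 26 58 (.thr 16 31 (.thr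 19 18 (.thr 24 27 (.dbl 28 20 22))))))) (.rp 10 (.str 2 (.nv (.thr 29 17 (.thr 61 45 (.thr 62 22 (.dbl 63 0 60)))) (.nv (.thr 5 53 (.thr 1 9 (.dbl 0 3 63))) (.rp 63 (.thr 29 17 (.thr 22 62 (.thr 20 23 (.thr 28 19 (.thr 31 30 (.dbl 16 24 26)))))) (.rp 61 (.thr 0 63 (.thr 1 3 (.dbl 5 9 53))) (.rp 5 (.thr 0 63 (.thr 3 1 (.thr 22 62 (.thr 19 28 (.thr 51 35 (.dbl 17 29 34)))))) (.rp 3 (.thr 29 17 (.thr 63 0 (.thr 5 53 (.thr 61 45 (.dbl 62 22 60))))) (.rp 1 (.thr 32 47 (.thr 17 29 (.thr 22 62 (.thr 19 28 (.thr 16 18 (.dbl 0 48 63)))))) (.rp 0 (.thr 5 53 (.thr 17 29 (.thr 22 62 (.thr 23 20 (.thr 19 28 (.thr 31 27 (.dbl 16 18 26))))))) .nd))))))))) (.rp 9 (.str 22 (.nv (.thr 19 28 (.thr 23 20 (.thr 31 27 (.thr 16 26 (.dbl 17 18 29))))) (.nv (.thr 20 23 (.thr 28 19 (.thr 16 24 (.thr 32 47 (.dbl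 0 48 63))))) (.nv (.thr 29 17 (.thr 61 45 (.thr 62 2 (.dbl 63 0 60)))) (.rp 6 (.str 3 (.nv (.thr 5 53 (.thr 0 63 (.dbl 2 1 62))) (.nv (.thr 23 20 (.dbl 63 0 43)) (.rp 63 (.thr 23 20 (.thr 19 28 (.thr 31 27 (.thr 16 26 (.dbl 17 18 29))))) (.rp 5 (.str 4 (.nv (.thr 0 63 (.dbl 2 1 62)) (.nv (.thr 23 20 (.dbl 63 0 43)) (.rp 63 (.thr 20 23 (.thr 36 52 (.dbl 38 39 55))) (.rp 0 (.str 10 (.nv (.thr 17 29 (.thr 19 28 (.thr 16 18 (.dbl 26 31 58)))) (.nv (.thr 20 23 (.thr 36 52 (.dbl 38 39 55))) .nd))) .nd))))) (.rp 0 (.thr 23 20 (.thr 17 29 (.thr 19 28 (.thr 16 18 (.dbl 31 26 27))))) .nd)))))) (.rp 3 (.str 6 (.nv (.thr 19 28 (.thr 23 20 (.thr 31 27 (.thr 16 26 (.dbl 17 18 29))))) (.nv (.thr 20 23 (.thr 28 19 (.thr 16 24 (.thr 32 47 (.dbl 0 48 63))))) (.nv (.thr 29 17 (.thr 61 45 (.thr 62 2 (.dbl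 63 0 60)))) .nd)))) .nd)))))) (.rp 5 (.thr 10 9 (.thr 17 29 (.thr 26 58 (.thr 16 31 (.thr 19 18 (.thr 24 27 (.dbl 28 20 22))))))) (.rp 1 (.thr 10 9 (.thr 63 0 (.thr 53 5 (.dbl 58 26 48)))) .nd))))))))) (.rp 29 (.thr 5 53 (.thr 1 9 (.thr 41 61 (.thr 33 45 (.dbl 49 17 25))))) (.rp 11 (.str 3 (.nv (.thr 5 53 (.thr 1 9 (.thr 25 49 (.thr 29 17 (.dbl 61 41 45))))) (.nv (.thr 0 63 (.thr 1 2 (.thr 25 49 (.thr 29 17 (.dbl 61 41 45))))) (.nv (.thr 5 53 (.thr 1 9 (.dbl 0 2 63))) (.rp 1 (.thr 63 0 (.thr 23 43 (.thr 22 20 (.thr 62 2 (.dbl 60 41 61))))) .nd))))) (.rp 9 (.thr 53 5 (.thr 49 25 (.thr 61 57 (.thr 41 1 (.dbl 45 29 33))))) (.rp 5 (.thr 25 49 (.thr 47 32 (.thr 0 63 (.str 3 (.nv (.thr 1 2 (.thr 41 61 (.thr 40 43 (.dbl 60 20 22)))) (.nv (.thr 29 17 (.thr 1 2 (.dbl 61 41 45))) (.rp 61 (.thr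 2 1 (.thr 22 62 (.thr 60 41 (.dbl 20 23 40)))) (.rp 41 (.thr 2 1 (.thr 22 62 (.thr 19 28 (.thr 51 35 (.dbl 17 29 34))))) (.rp 29 (.str 46 (.nv (.thr 1 2 (.thr 41 61 (.thr 40 43 (.dbl 60 20 22)))) (.nv (.thr 44 45 (.thr 38 34 (.thr 35 41 (.dbl 39 36 43)))) (.nv (.thr 1 2 (.thr 45 44 (.dbl 41 33 61))) (.rp 60 (.thr 38 34 (.thr 39 36 (.thr 35 43 (.dbl 44 41 45)))) (.rp 41 (.thr 2 1 (.thr 34 38 (.thr 22 62 (.thr 19 28 (.dbl 51 17 35))))) (.rp 6 (.str 4 (.nv (.thr 1 2 (.thr 41 61 (.dbl 45 33 44))) (.nv (.dbl 38 34 55) .nd))) (.rp 4 (.str 6 (.nv (.thr 44 45 (.thr 38 34 (.thr 35 41 (.dbl 39 36 43)))) (.nv (.thr 2 1 (.thr 14 10 (.dbl 62 22 30))) (.rp 30 (.thr 1 2 (.thr 45 44 (.dbl 41 33 61))) .nd)))) .nd)))))))) (.rp 6 (.str 4 (.nv (.thr 1 2 (.thr 41 61 (.thr 40 43 (.dbl 60 20 22)))) (.nv (.thr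 38 55 (.thr 46 34 (.thr 45 44 (.dbl 29 17 61)))) (.nv (.thr 29 17 (.thr 1 2 (.dbl 61 41 45))) (.rp 61 (.thr 2 1 (.thr 22 62 (.thr 60 41 (.dbl 20 23 40)))) (.rp 29 (.str 46 (.nv (.thr 1 2 (.thr 41 61 (.dbl 45 33 44))) (.nv (.dbl 38 34 55) .nd))) .nd)))))) (.rp 4 (.str 6 (.nv (.thr 1 2 (.thr 41 61 (.thr 40 43 (.dbl 60 20 22)))) (.nv (.thr 29 17 (.thr 1 2 (.dbl 61 41 45))) (.rp 61 (.thr 2 1 (.thr 22 62 (.thr 60 41 (.dbl 20 23 40)))) (.rp 41 (.thr 2 1 (.thr 22 62 (.thr 19 28 (.thr 51 35 (.dbl 17 29 34))))) (.rp 29 (.str 46 (.nv (.thr 44 45 (.thr 38 34 (.thr 35 41 (.dbl 39 36 43)))) (.nv (.thr 2 1 (.thr 14 10 (.dbl 62 22 30))) (.rp 30 (.thr 1 2 (.thr 45 44 (.dbl 41 33 61))) .nd)))) (.rp 2 (.thr 29 17 (.thr 45 61 (.thr 46 44 (.thr 38 34 (.thr 22 54 (.dbl 41 33 60)))))) (.rp 1 (.str 45 (.nv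 (.thr 17 29 (.thr 46 44 (.dbl 34 38 51))) (.nv (.dbl 29 17 61) (.rp 29 (.thr 46 44 (.thr 38 34 (.thr 22 54 (.dbl 41 33 60)))) (.rp 17 (.thr 33 41 (.thr 46 44 (.thr 38 34 (.thr 22 54 (.thr 62 2 (.thr 30 14 (.dbl 18 26 48))))))) .nd))))) .nd)))))))) (.rp 2 (.thr 29 17 (.thr 59 8 (.str 41 (.nv (.thr 40 43 (.dbl 60 20 22)) (.nv (.dbl 45 33 61) (.rp 33 (.thr 1 61 (.thr 40 43 (.dbl 60 20 22))) (.rp 6 (.str 4 (.nv (.thr 40 43 (.dbl 60 20 22)) (.nv (.dbl 45 33 61) (.rp 33 (.thr 1 61 (.thr 40 43 (.dbl 60 20 22))) (.rp 14 (.str 10 (.nv (.thr 40 43 (.dbl 60 20 22)) (.nv (.dbl 45 33 61) (.rp 33 (.thr 1 61 (.thr 40 43 (.dbl 60 20 22))) (.rp 1 (.thr 33 45 (.thr 40 43 (.dbl 60 20 22))) .nd))))) (.rp 10 (.str 14 (.nv (.thr 40 43 (.dbl 60 20 22)) (.nv (.dbl 45 33 61) (.rp 33 (.thr 1 61 (.thr 40 43 (.dbl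 60 20 22))) (.rp 11 (.thr 9 57 (.dbl 45 33 61)) (.rp 9 (.str 11 (.nv (.dbl 43 27 40) (.nv (.dbl 45 33 61) (.rp 33 (.thr 1 61 (.dbl 43 27 40)) (.rp 1 (.thr 33 45 (.dbl 43 27 40)) .nd))))) (.rp 1 (.thr 33 45 (.thr 40 43 (.dbl 60 20 22))) .nd))))))) (.rp 1 (.thr 33 45 (.thr 40 43 (.dbl 60 20 22))) .nd))))))) (.rp 4 (.str 6 (.nv (.thr 40 43 (.dbl 60 20 22)) (.nv (.dbl 45 33 61) (.rp 33 (.thr 1 61 (.thr 40 43 (.dbl 60 20 22))) (.rp 1 (.thr 33 45 (.thr 40 43 (.dbl 60 20 22))) .nd))))) (.rp 1 (.thr 33 45 (.thr 40 43 (.dbl 60 20 22))) .nd))))))))) (.rp 1 (.thr 59 8 (.str 45 (.nv (.thr 17 29 (.thr 46 44 (.dbl 34 38 51))) (.nv (.dbl 29 17 61) (.rp 29 (.thr 46 44 (.thr 34 38 (.thr 41 33 (.thr 17 51 (.thr 40 43 (.dbl 60 20 22)))))) (.rp 17 (.thr 33 41 (.str 38 (.nv (.dbl 46 34 44) (.rp 46 (.thr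 29 61 (.thr 39 36 (.thr 35 43 (.thr 19 51 (.thr 28 22 (.thr 31 30 (.thr 27 23 (.dbl 26 16 24)))))))) (.rp 44 (.thr 29 61 (.thr 34 46 (.thr 18 48 (.thr 50 2 (.thr 26 14 (.thr 30 22 (.dbl 31 16 28))))))) (.rp 34 (.thr 29 61 (.thr 39 36 (.thr 35 43 (.thr 19 51 (.thr 28 22 (.thr 31 30 (.thr 27 23 (.dbl 26 16 24)))))))) (.rp 6 (.thr 4 55 (.dbl 46 34 44)) (.rp 4 (.str 6 (.nv (.dbl 46 34 44) (.rp 46 (.thr 29 61 (.thr 22 54 (.thr 39 36 (.thr 35 43 (.dbl 19 28 51))))) (.rp 44 (.thr 22 54 (.thr 2 62 (.thr 18 48 (.dbl 34 46 50)))) (.rp 34 (.thr 22 54 (.thr 39 36 (.thr 35 43 (.dbl 19 28 51)))) .nd))))) .nd)))))))) (.rp 6 (.str 4 (.nv (.thr 46 44 (.dbl 38 34 55)) (.nv (.dbl 29 17 61) (.rp 33 (.thr 17 29 (.thr 46 44 (.dbl 34 38 51))) (.rp 17 (.thr 33 41 (.thr 46 44 (.dbl 38 34 55))) .nd))))) (.rp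 4 (.str 6 (.nv (.thr 17 29 (.thr 46 44 (.dbl 34 38 51))) (.nv (.dbl 29 17 61) (.rp 29 (.thr 46 44 (.thr 38 34 (.thr 22 54 (.dbl 41 33 60)))) (.rp 17 (.thr 33 41 (.thr 46 44 (.thr 38 34 (.thr 22 54 (.thr 62 2 (.thr 30 14 (.dbl 18 26 48))))))) .nd))))) .nd)))))))) .nd))))))))))))) (.rp 3 (.str 11 (.nv (.thr 5 53 (.thr 25 49 (.thr 29 17 (.thr 61 45 (.dbl 1 9 41))))) (.nv (.thr 25 49 (.thr 8 59 (.thr 9 10 (.dbl 5 1 53)))) (.rp 53 (.thr 0 63 (.thr 25 49 (.thr 8 59 (.thr 9 10 (.thr 1 5 (.dbl 41 57 61)))))) (.rp 49 (.thr 47 32 (.thr 5 53 (.thr 9 1 (.thr 8 10 (.thr 59 25 (.thr 43 27 (.thr 39 35 (.thr 38 36 (.thr 55 4 (.dbl 63 0 51)))))))))) (.rp 25 (.thr 32 47 (.thr 5 53 (.thr 9 1 (.thr 10 8 (.thr 26 58 (.thr 41 56 (.thr 33 45 (.thr 40 43 (.thr 35 34 (.dbl 44 36 38)))))))))) (.rp 9 (.str 6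 (.nv (.thr 25 49 (.thr 29 17 (.thr 59 8 (.thr 43 27 (.thr 41 40 (.dbl 45 33 61)))))) (.nv (.thr 25 49 (.thr 59 8 (.thr 27 43 (.thr 26 24 (.thr 56 41 (.dbl 58 10 57)))))) (.nv (.thr 53 5 (.thr 49 25 (.thr 61 57 (.thr 41 1 (.dbl 45 29 33))))) (.rp 49 (.str 10 (.nv (.thr 2 14 (.thr 26 58 (.thr 41 56 (.thr 61 1 (.dbl 45 29 33))))) (.nv (.thr 53 5 (.thr 58 26 (.dbl 63 0 48))) (.rp 58 (.thr 2 14 (.thr 63 0 (.thr 62 22 (.thr 61 60 (.thr 41 1 (.dbl 45 29 33)))))) (.rp 26 (.thr 2 14 (.thr 63 0 (.thr 62 22 (.thr 61 60 (.thr 41 1 (.dbl 45 29 33)))))) .nd))))) (.rp 41 (.thr 25 49 (.thr 29 17 (.thr 59 8 (.thr 27 43 (.thr 26 24 (.thr 31 16 (.thr 28 30 (.dbl 19 22 23)))))))) (.rp 25 (.str 41 (.nv (.thr 61 1 (.dbl 45 29 33)) (.nv (.thr 45 33 (.dbl 61 1 29)) (.rp 61 (.thr 45 33 (.thr 43 40 (.thr 47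 32 (.thr 35 39 (.dbl 44 38 46))))) (.rp 51 (.str 38 (.nv (.thr 45 33 (.dbl 61 1 29)) (.nv (.thr 47 32 (.thr 43 40 (.dbl 39 35 36))) (.rp 39 (.str 27 (.nv (.thr 35 44 (.thr 32 47 (.dbl 33 34 45))) (.nv (.dbl 43 40 59) (.rp 55 (.str 23 (.nv (.thr 19 31 (.dbl 22 20 54)) (.nv (.dbl 43 40 59) (.rp 63 (.thr 59 43 (.dbl 22 20 54)) (.rp 59 (.thr 63 0 (.dbl 22 20 54)) (.rp 19 (.thr 35 44 (.dbl 43 40 59)) .nd)))))) (.rp 35 (.str 19 (.nv (.thr 23 31 (.dbl 22 20 54)) (.nv (.dbl 43 40 59) (.rp 43 (.thr 47 32 (.thr 23 31 (.dbl 22 20 54))) (.rp 23 (.thr 55 4 (.dbl 43 40 59)) .nd))))) (.rp 23 (.thr 55 4 (.dbl 43 40 59)) .nd)))))) (.rp 35 (.str 19 (.nv (.thr 22 54 (.thr 23 20 (.thr 26 56 (.dbl 31 16 27)))) (.nv (.thr 61 1 (.dbl 45 29 33)) (.rp 39 (.str 27 (.nv (.thr 23 31 (.dbl 22 20 54)) (.nv (.dbl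 43 40 59) (.rp 43 (.thr 47 32 (.thr 23 31 (.dbl 22 20 54))) (.rp 23 (.thr 55 4 (.dbl 43 40 59)) .nd))))) (.rp 27 (.thr 39 36 (.thr 45 33 (.dbl 61 1 29))) .nd))))) (.rp 27 (.thr 39 36 (.thr 43 40 (.dbl 47 32 35))) (.rp 19 (.thr 35 44 (.thr 39 36 (.dbl 43 40 47))) .nd))))))) (.rp 45 (.thr 43 40 (.thr 59 27 (.thr 61 1 (.thr 53 5 (.thr 57 49 (.dbl 56 26 58)))))) (.rp 38 (.str 51 (.nv (.thr 43 40 (.thr 59 27 (.dbl 63 0 55))) (.nv (.thr 45 33 (.dbl 61 1 29)) .nd))) (.rp 33 (.thr 43 40 (.thr 47 32 (.thr 35 39 (.thr 61 1 (.thr 45 29 (.dbl 44 38 46)))))) (.rp 29 (.thr 45 33 (.thr 43 40 (.thr 47 32 (.thr 35 39 (.dbl 44 38 46))))) (.rp 1 (.thr 45 33 (.thr 43 40 (.thr 47 32 (.thr 35 39 (.dbl 44 38 46))))) .nd)))))))))) (.rp 0 (.thr 32 47 (.thr 25 49 (.thr 29 17 (.thr 45 61 (.thr 33 41 (.thr 34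 35 (.thr 38 46 (.thr 22 54 (.thr 2 62 (.thr 50 18 (.dbl 14 10 26))))))))))) .nd)))))))) (.rp 6 (.str 9 (.nv (.thr 8 10 (.dbl 25 49 59)) (.nv (.dbl 5 1 53) (.rp 5 (.str 4 (.nv (.thr 10 8 (.thr 25 49 (.thr 26 58 (.dbl 41 56 57)))) (.nv (.thr 25 49 (.dbl 8 10 59)) (.rp 49 (.thr 10 8 (.thr 26 58 (.thr 41 56 (.thr 45 33 (.dbl 61 1 29))))) (.rp 25 (.thr 10 8 (.thr 26 58 (.thr 41 56 (.thr 45 33 (.dbl 61 1 29))))) (.rp 10 (.thr 0 63 (.thr 25 49 (.thr 29 17 (.thr 45 61 (.dbl 41 33 57))))) (.rp 8 (.thr 25 49 (.thr 29 17 (.thr 45 61 (.dbl 41 33 57)))) .nd))))))) .nd)))) (.rp 5 (.thr 25 49 (.thr 29 17 (.thr 59 8 (.thr 43 27 (.thr 41 40 (.dbl 45 33 61)))))) (.rp 1 (.thr 25 49 (.thr 8 59 (.thr 9 10 (.thr 41 57 (.thr 40 43 (.dbl 56 24 26)))))) .nd)))))))))) (.rp 1 (.thr 47 32 (.thr 53 5 (.thr 49 25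 (.thr 61 57 (.thr 45 29 (.thr 41 33 (.thr 43 40 (.thr 35 39 (.dbl 44 38 46))))))))) .nd))))))))))))) (.rp 5 (.str 4 (.nv (.thr 0 63 (.thr 32 47 (.thr 38 55 (.thr 39 36 (.thr 48 16 (.thr 15 26 (.thr 51 27 (.dbl 34 17 46)))))))) (.nv (.thr 47 32 (.thr 38 55 (.thr 46 34 (.thr 44 45 (.thr 35 41 (.dbl 39 36 43)))))) (.rp 55 (.str 39 (.nv (.thr 0 63 (.thr 32 47 (.thr 36 38 (.thr 20 52 (.dbl 40 44 60))))) (.nv (.thr 0 63 (.thr 36 38 (.thr 20 52 (.thr 22 23 (.thr 2 62 (.thr 3 1 (.dbl 60 40 41))))))) (.nv (.thr 47 32 (.thr 35 43 (.thr 38 36 (.thr 44 41 (.dbl 46 34 45))))) (.rp 46 (.thr 36 38 (.thr 47 32 (.thr 43 35 (.thr 63 0 (.thr 23 3 (.dbl 20 22 52)))))) (.rp 38 (.thr 47 32 (.thr 43 35 (.thr 41 40 (.thr 63 0 (.thr 3 23 (.thr 61 1 (.dbl 60 22 62))))))) (.rp 36 (.thr 47 32 (.thr 43 35 (.thr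 63 0 (.thr 15 31 (.thr 3 23 (.thr 48 26 (.thr 33 18 (.dbl 41 40 45)))))))) .nd))))))) (.rp 47 (.thr 63 0 (.thr 55 38 (.thr 59 51 (.thr 25 8 (.thr 17 29 (.thr 49 13 (.thr 1 33 (.thr 61 41 (.thr 62 60 (.thr 53 57 (.thr 54 52 (.dbl 58 48 50)))))))))))) (.rp 46 (.thr 47 32 (.thr 63 0 (.thr 15 31 (.thr 38 55 (.thr 39 36 (.thr 43 35 (.thr 3 23 (.thr 48 26 (.thr 33 18 (.dbl 41 40 45)))))))))) (.rp 39 (.thr 47 32 (.thr 63 0 (.thr 15 31 (.thr 55 38 (.thr 51 59 (.thr 48 26 (.thr 53 58 (.thr 54 52 (.thr 57 60 (.dbl 49 50 61)))))))))) (.rp 38 (.thr 47 32 (.thr 63 0 (.thr 15 31 (.thr 48 26 (.thr 53 58 (.str 25 (.nv (.thr 17 29 (.thr 49 13 (.thr 1 33 (.dbl 61 41 57)))) (.nv (.thr 49 13 (.thr 59 8 (.dbl 51 50 55))) (.rp 50 (.str 14 (.nv (.thr 49 13 (.thr 61 57 (.thr 1 41 (.dbl 17 29 33)))) (.nv (.thr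 13 49 (.thr 29 17 (.thr 45 61 (.thr 30 60 (.dbl 46 44 62))))) (.nv (.thr 49 13 (.thr 61 57 (.thr 17 29 (.dbl 1 33 41)))) (.rp 62 (.str 54 (.nv (.thr 17 29 (.thr 49 13 (.thr 1 33 (.dbl 61 41 57)))) (.nv (.thr 59 8 (.dbl 55 51 52)) .nd))) (.rp 61 (.thr 59 8 (.thr 51 55 (.thr 39 27 (.thr 43 35 (.thr 41 40 (.thr 33 45 (.dbl 3 18 23))))))) (.rp 54 (.str 62 (.nv (.thr 22 2 (.thr 49 13 (.dbl 61 57 60))) (.nv (.thr 30 46 (.dbl 60 45 61)) (.rp 61 (.thr 30 46 (.thr 60 45 (.thr 52 56 (.thr 20 36 (.dbl 22 2 23))))) (.rp 60 (.thr 46 30 (.thr 13 49 (.thr 29 17 (.dbl 45 44 61)))) (.rp 22 (.str 6 (.nv (.thr 49 13 (.dbl 61 57 60)) (.nv (.thr 30 46 (.dbl 60 45 61)) (.rp 61 (.thr 30 46 (.thr 45 60 (.thr 49 13 (.thr 17 29 (.dbl 33 1 41))))) (.rp 60 (.thr 13 49 (.thr 29 17 (.thr 45 61 (.dbl 46 30 44))))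 (.rp 30 (.str 18 (.nv (.thr 29 17 (.thr 33 3 (.thr 41 45 (.dbl 61 1 60)))) (.nv (.thr 49 13 (.dbl 61 57 60)) (.rp 61 (.thr 49 13 (.thr 33 3 (.dbl 17 1 29))) (.rp 60 (.thr 29 17 (.thr 13 49 (.thr 45 61 (.dbl 33 3 41)))) (.rp 29 (.str 28 (.nv (.thr 33 3 (.thr 41 45 (.dbl 61 1 60))) (.nv (.thr 49 13 (.dbl 61 57 60)) (.rp 61 (.thr 59 8 (.thr 3 33 (.thr 43 23 (.thr 27 11 (.dbl 39 35 51))))) (.rp 60 (.thr 49 13 (.thr 33 3 (.thr 41 45 (.dbl 61 1 57)))) (.rp 1 (.thr 61 60 (.dbl 49 13 57)) .nd)))))) (.rp 1 (.thr 61 60 (.dbl 49 13 57)) .nd))))))) .nd)))))) .nd)))))) (.rp 49 (.thr 59 8 (.thr 51 55 (.thr 39 27 (.thr 43 35 (.thr 41 40 (.thr 33 45 (.dbl 3 18 23))))))) (.rp 33 (.thr 59 8 (.thr 49 13 (.thr 61 57 (.thr 62 60 (.thr 22 2 (.thr 20 23 (.thr 52 36 (.dbl 55 51 54)))))))) (.rp 29 (.thr 59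 8 (.thr 49 13 (.thr 61 57 (.thr 51 55 (.thr 39 27 (.thr 43 35 (.dbl 41 1 40))))))) (.rp 17 (.thr 59 8 (.thr 49 13 (.thr 61 57 (.thr 51 55 (.thr 39 27 (.thr 43 35 (.dbl 41 1 40))))))) (.rp 13 (.thr 59 8 (.thr 51 55 (.thr 39 27 (.thr 43 35 (.thr 41 40 (.thr 33 45 (.dbl 3 18 23))))))) (.rp 1 (.thr 59 8 (.thr 51 55 (.thr 39 27 (.thr 43 35 (.thr 41 40 (.thr 33 45 (.dbl 3 18 23))))))) .nd))))))))))))) (.rp 49 (.thr 59 8 (.thr 51 55 (.thr 39 27 (.thr 43 35 (.thr 41 40 (.thr 33 45 (.dbl 3 18 23))))))) (.rp 14 (.str 50 (.nv (.dbl 49 13 51) (.rp 51 (.thr 49 13 (.thr 61 57 (.thr 17 29 (.dbl 1 33 41)))) (.rp 49 (.thr 59 8 (.thr 55 51 (.thr 52 54 (.thr 20 36 (.thr 22 23 (.thr 60 56 (.dbl 62 2 61))))))) (.rp 13 (.thr 59 8 (.dbl 51 49 55)) .nd))))) (.rp 13 (.thr 59 8 (.thr 51 55 (.thr 39 27 (.thr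 43 35 (.thr 41 40 (.thr 33 45 (.dbl 3 18 23))))))) (.rp 1 (.thr 59 8 (.thr 51 55 (.dbl 49 13 50))) .nd))))))))))))) (.rp 36 (.thr 47 32 (.thr 63 0 (.thr 15 31 (.thr 55 38 (.thr 51 59 (.thr 48 26 (.thr 53 58 (.thr 54 52 (.thr 57 60 (.dbl 49 50 61)))))))))) (.rp 34 (.thr 47 32 (.thr 63 0 (.thr 15 31 (.thr 55 38 (.thr 51 59 (.thr 48 26 (.thr 53 58 (.thr 54 52 (.thr 57 60 (.dbl 49 50 61)))))))))) (.rp 32 (.thr 63 0 (.thr 55 38 (.thr 59 51 (.thr 25 8 (.thr 17 29 (.thr 49 13 (.thr 1 33 (.thr 61 41 (.thr 62 60 (.thr 53 57 (.thr 54 52 (.dbl 58 48 50)))))))))))) .nd))))))))))) (.rp 0 .ext .nd))))))))))))))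

theorem w267 : WinAt (4398048608256, 4224) :=
  chF (K := [(4535487561728, 4225)]) (kc w254 kn) c267 4398048608256 4224 12
    [] (by decide +kernel) (by decide +kernel)

/-- A certificate. -/
noncomputable def c268 : Ct := (.str 48 (.nv (.thr 16 32 (.thr 26 31 (.thr 15 37 (.dbl 10 5 58)))) (.nv (.thr 32 16 (.thr 37 47 (.thr 15 26 (.dbl 5 10 53)))) (.rp 37 (.thr 16 32 (.str 25 (.nv (.thr 8 59 (.thr 12 4 (.thr 24 36 (.dbl 26 27 31)))) (.nv (.thr 17 29 (.thr 51 34 (.thr 8 59 (.dbl 12 4 38)))) (.nv (.thr 29 17 (.thr 31 26 (.thr 28 30 (.thr 22 19 (.dbl 20 23 24))))) (.rp 52 (.str 22 (.nv (.thr 2 62 (.thr 3 1 (.thr 18 33 (.dbl 26 30 31)))) (.nv (.thr 28 19 (.dbl 20 23 24)) .nd))) (.rp 22 (.str 52 (.nv (.thr 8 59 (.thr 26 31 (.thr 24 27 (.dbl 56 40 60)))) (.nv (.thr 8 59 (.thr 12 4 (.thr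 17 29 (.dbl 51 34 38)))) (.nv (.thr 60 56 (.thr 20 40 (.thr 24 28 (.dbl 36 4 12)))) .nd)))) .nd))))))) (.rp 32 (.str 2 (.nv (.thr 22 62 (.thr 20 23 (.thr 60 40 (.dbl 3 1 41)))) (.nv (.thr 3 1 (.thr 18 33 (.thr 22 62 (.thr 26 30 (.thr 10 58 (.dbl 15 5 37)))))) (.nv (.thr 3 1 (.thr 22 62 (.thr 60 41 (.dbl 20 23 40)))) (.rp 62 (.thr 3 1 (.thr 18 33 (.thr 34 50 (.thr 38 46 (.thr 4 55 (.thr 12 8 (.dbl 51 17 25))))))) (.rp 60 (.thr 3 1 (.thr 18 33 (.thr 34 50 (.thr 17 51 (.thr 19 16 (.thr 25 29 (.dbl 22 28 62))))))) (.rp 22 (.thr 3 1 (.thr 18 33 (.thr 34 50 (.thr 38 46 (.thr 4 55 (.thr 12 8 (.dbl 51 17 25))))))) (.rp 3 (.thr 22 62 (.thr 23 20 (.str 15 (.nv (.thr 5 10 (.dbl 37 26 53)) (.rp 61 (.str 60 (.nv (.thr 26 37 (.dbl 30 18 45)) (.nv (.thr 5 10 (.dbl 37 26 53)) (.rp 45 (.str 29 (.nv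 (.thr 25 17 (.thr 8 59 (.thr 28 19 (.dbl 12 4 44)))) (.nv (.thr 5 10 (.dbl 37 26 53)) .nd))) (.rp 37 (.thr 10 5 (.thr 26 58 (.dbl 30 18 45))) (.rp 29 (.thr 45 30 (.thr 10 5 (.dbl 26 37 58))) (.rp 26 (.thr 52 56 (.thr 5 10 (.thr 53 37 (.thr 54 55 (.thr 38 6 (.thr 34 46 (.dbl 51 17 57))))))) .nd))))))) (.rp 60 (.str 61 (.nv (.thr 5 10 (.dbl 37 26 53)) (.rp 53 (.thr 10 5 (.dbl 26 37 58)) (.rp 37 (.thr 10 5 (.thr 26 58 (.thr 18 30 (.thr 50 34 (.dbl 14 6 38))))) (.rp 26 (.thr 5 10 (.thr 53 37 (.thr 1 41 (.thr 49 57 (.thr 51 50 (.dbl 17 33 34)))))) (.rp 10 (.thr 26 37 (.thr 30 18 (.thr 31 16 (.thr 28 29 (.dbl 19 25 27))))) (.rp 5 (.thr 26 37 (.thr 30 18 (.thr 31 16 (.thr 28 29 (.dbl 19 25 27))))) .nd))))))) (.rp 53 (.thr 10 5 (.dbl 26 37 58)) (.rp 37 (.thr 10 5 (.thr 26 58 (.thr 18 30 (.thr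 50 34 (.dbl 14 6 38))))) (.rp 26 (.thr 10 5 (.thr 6 14 (.thr 38 54 (.thr 4 55 (.thr 12 8 (.thr 51 25 (.dbl 34 17 46))))))) (.rp 10 (.thr 26 37 (.thr 16 31 (.thr 18 30 (.thr 34 50 (.dbl 17 19 51))))) (.rp 5 (.thr 26 37 (.thr 10 58 (.thr 18 30 (.thr 50 34 (.dbl 14 6 38))))) .nd))))))))))) (.rp 1 (.thr 22 62 (.thr 20 23 (.thr 60 40 (.thr 3 41 (.thr 18 33 (.thr 26 30 (.thr 10 58 (.dbl 15 5 37)))))))) .nd))))))))) (.rp 26 (.str 51 (.nv (.thr 16 32 (.thr 17 34 (.thr 18 19 (.thr 33 3 (.dbl 49 1 50))))) (.nv (.thr 17 34 (.thr 25 29 (.thr 8 59 (.dbl 12 4 38)))) (.rp 34 (.thr 49 50 (.thr 32 16 (.thr 37 47 (.thr 53 5 (.thr 61 57 (.thr 1 41 (.thr 33 17 (.dbl 3 2 18)))))))) (.rp 17 (.thr 32 16 (.thr 37 47 (.thr 5 53 (.thr 15 10 (.thr 39 27 (.thr 38 36 (.thr 4 55 (.dbl 12 8 25)))))))) .nd))))) (.rp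 16 (.str 51 (.nv (.thr 34 17 (.thr 38 46 (.thr 50 49 (.thr 26 14 (.thr 10 58 (.dbl 15 5 37)))))) (.nv (.thr 17 34 (.thr 25 29 (.thr 12 38 (.dbl 8 4 59)))) (.rp 38 (.thr 49 50 (.thr 17 34 (.thr 1 33 (.thr 41 61 (.thr 40 43 (.thr 60 20 (.dbl 3 2 22))))))) (.rp 34 (.str 1 (.nv (.thr 41 61 (.thr 40 43 (.thr 60 20 (.dbl 3 2 22)))) (.nv (.thr 49 50 (.thr 33 17 (.dbl 3 2 18))) (.rp 3 (.thr 49 50 (.thr 17 33 (.thr 25 29 (.thr 8 59 (.dbl 12 4 38))))) (.rp 2 (.thr 41 61 (.thr 40 43 (.thr 60 20 (.thr 57 54 (.thr 25 9 (.thr 59 8 (.dbl 56 52 58))))))) .nd))))) (.rp 29 (.thr 34 17 (.thr 38 46 (.thr 12 25 (.dbl 4 8 55)))) (.rp 25 (.thr 49 50 (.thr 17 34 (.thr 1 33 (.thr 41 61 (.thr 40 43 (.thr 60 20 (.dbl 3 2 22))))))) (.rp 17 (.thr 49 50 (.str 3 (.nv (.thr 19 35 (.thr 2 1 (.thr 22 62 (.thr 25 28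 (.thr 8 59 (.dbl 12 4 38)))))) (.nv (.thr 18 33 (.thr 1 2 (.thr 41 61 (.thr 40 43 (.dbl 60 20 22))))) (.rp 62 (.thr 1 2 (.thr 41 61 (.thr 60 22 (.dbl 40 20 43)))) (.rp 61 (.thr 2 1 (.thr 22 62 (.thr 60 41 (.dbl 20 23 40)))) (.rp 60 (.thr 1 2 (.thr 61 41 (.thr 53 57 (.thr 37 5 (.thr 47 32 (.thr 15 26 (.thr 39 27 (.dbl 35 19 43)))))))) (.rp 22 (.thr 35 19 (.thr 18 33 (.thr 1 2 (.thr 41 61 (.thr 38 44 (.thr 4 55 (.dbl 12 8 25))))))) (.rp 20 (.thr 18 33 (.thr 2 1 (.thr 22 62 (.thr 26 30 (.thr 15 37 (.dbl 10 5 58)))))) (.rp 2 (.thr 19 35 (.thr 18 33 (.str 37 (.nv (.thr 26 15 (.thr 22 30 (.thr 20 23 (.dbl 60 40 41)))) (.nv (.thr 5 53 (.dbl 15 10 26)) (.rp 34 (.thr 32 47 (.thr 5 53 (.dbl 15 10 26))) (.rp 32 (.str 34 (.nv (.thr 38 46 (.thr 4 55 (.dbl 12 8 25))) (.nv (.thr 5 53 (.dbl 15 10 26))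 .nd))) (.rp 26 (.thr 53 5 (.thr 57 61 (.thr 60 54 (.thr 22 41 (.dbl 20 23 40))))) (.rp 15 (.thr 53 5 (.thr 57 61 (.thr 60 54 (.thr 22 41 (.dbl 20 23 40))))) .nd))))))))) (.rp 1 (.str 5 (.nv (.thr 37 53 (.dbl 15 10 26)) (.rp 53 (.thr 15 10 (.thr 39 27 (.thr 37 26 (.thr 47 32 (.dbl 35 19 43))))) (.rp 37 (.thr 18 33 (.thr 10 15 (.thr 26 58 (.thr 22 30 (.thr 20 23 (.dbl 60 40 41)))))) (.rp 26 (.thr 53 37 (.thr 57 61 (.thr 60 54 (.thr 22 41 (.dbl 20 23 40))))) (.rp 19 (.thr 18 33 (.thr 37 53 (.dbl 15 10 26))) (.rp 18 (.thr 19 35 (.thr 37 53 (.dbl 15 10 26))) (.rp 15 (.thr 53 37 (.thr 57 61 (.thr 60 54 (.thr 22 41 (.dbl 20 23 40))))) (.rp 10 (.thr 53 37 (.thr 57 61 (.thr 60 54 (.thr 22 41 (.dbl 20 23 40))))) .nd))))))))) .nd))))))))))) (.rp 12 (.thr 49 50 (.thr 17 34 (.thr 1 33 (.thr 41 61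 (.thr 40 43 (.thr 60 20 (.dbl 3 2 22))))))) .nd))))))))) (.rp 15 (.thr 16 32 (.thr 31 26 (.str 3 (.nv (.thr 18 33 (.thr 17 19 (.thr 25 29 (.thr 8 59 (.thr 12 4 (.dbl 51 34 38)))))) (.nv (.thr 2 1 (.thr 18 33 (.thr 17 19 (.dbl 34 50 51)))) (.nv (.thr 1 2 (.thr 41 61 (.thr 40 43 (.dbl 60 20 22)))) (.rp 14 (.str 12 (.nv (.thr 2 1 (.thr 22 62 (.thr 60 41 (.dbl 20 23 40)))) (.nv (.thr 18 33 (.thr 17 19 (.thr 25 29 (.dbl 51 34 38)))) (.rp 50 (.str 38 (.nv (.thr 34 46 (.dbl 51 17 25)) (.nv (.dbl 4 8 55) .nd))) (.rp 38 (.str 50 (.nv (.thr 8 4 (.thr 24 36 (.thr 20 28 (.dbl 40 56 60)))) (.nv (.thr 18 33 (.dbl 2 1 34)) .nd))) .nd))))) (.rp 12 (.str 14 (.nv (.thr 18 33 (.thr 2 1 (.thr 17 19 (.dbl 34 50 51)))) (.nv (.thr 1 2 (.thr 41 61 (.thr 40 43 (.dbl 60 20 22)))) (.rp 46 (.str 29 (.nv (.thr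 1 2 (.thr 41 61 (.thr 40 43 (.dbl 60 20 22)))) (.nv (.thr 18 33 (.dbl 17 19 25)) .nd))) (.rp 29 (.str 46 (.nv (.thr 18 33 (.thr 17 19 (.dbl 34 38 51))) (.nv (.thr 62 30 (.dbl 2 1 22)) (.rp 61 (.str 45 (.nv (.thr 18 33 (.thr 17 19 (.dbl 34 38 51))) (.nv (.thr 62 30 (.dbl 2 1 22)) (.rp 62 (.str 60 (.nv (.thr 2 1 (.thr 18 33 (.dbl 34 38 50))) (.nv (.thr 40 20 (.dbl 41 22 43)) .nd))) (.rp 18 (.thr 2 1 (.dbl 62 22 30)) .nd))))) (.rp 45 (.str 61 (.nv (.thr 18 33 (.thr 17 19 (.dbl 34 38 51))) (.nv (.dbl 1 2 41) (.rp 60 (.thr 30 62 (.dbl 1 2 41)) (.rp 41 (.thr 2 1 (.dbl 62 22 30)) (.rp 30 (.str 60 (.nv (.thr 22 41 (.dbl 20 23 40)) (.nv (.dbl 41 1 22) (.rp 41 (.thr 2 1 (.thr 20 40 (.dbl 22 23 62))) (.rp 22 (.thr 18 33 (.dbl 1 2 41)) .nd))))) .nd)))))) (.rp 18 (.thr 2 1 (.dbl 62 22 30)) .nd))))))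 (.rp 2 (.thr 18 33 (.thr 19 17 (.thr 23 27 (.thr 22 20 (.thr 25 28 (.thr 59 8 (.thr 60 41 (.thr 56 52 (.thr 57 58 (.dbl 51 35 54)))))))))) (.rp 1 (.thr 18 33 (.thr 17 19 (.thr 34 51 (.thr 2 50 (.thr 62 22 (.dbl 46 30 38)))))) .nd))))))) .nd)))))))) (.rp 10 (.str 51 (.nv (.thr 16 32 (.thr 26 31 (.thr 50 49 (.thr 38 14 (.thr 4 55 (.dbl 12 8 25)))))) (.nv (.thr 16 32 (.thr 17 34 (.thr 18 19 (.thr 33 3 (.dbl 49 1 50))))) (.nv (.thr 17 34 (.thr 25 29 (.thr 12 38 (.dbl 8 4 59)))) .nd)))) (.rp 5 (.thr 32 16 (.thr 37 47 (.thr 15 26 (.str 1 (.nv (.thr 41 61 (.thr 45 33 (.thr 60 30 (.dbl 40 20 43)))) (.nv (.thr 3 2 (.thr 41 61 (.thr 40 43 (.dbl 60 20 22)))) (.nv (.thr 3 2 (.thr 33 18 (.thr 17 49 (.dbl 34 35 51)))) (.nv (.thr 3 2 (.thr 41 61 (.dbl 33 18 45))) (.rp 6 (.str 4 (.nv (.thr 3 2 (.thr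 41 61 (.dbl 33 18 45))) (.nv (.thr 12 8 (.thr 38 55 (.dbl 36 24 39))) .nd))) (.rp 4 (.str 6 (.nv (.thr 41 61 (.thr 45 33 (.thr 60 30 (.dbl 40 20 43)))) (.nv (.thr 3 2 (.thr 41 61 (.thr 40 43 (.dbl 60 20 22)))) (.nv (.thr 3 2 (.thr 33 18 (.thr 17 49 (.dbl 34 35 51)))) (.nv (.thr 3 2 (.thr 41 61 (.dbl 33 18 45))) .nd))))) .nd)))))))))) .nd))))))))))

theorem w268 : WinAt (4398048608257, 9223372036854784128) :=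
  chF (K := []) kn c268 4398048608257 9223372036854784128 63
    [] (by decide +kernel) (by decide +kernel)

end Pool.Agent.TTT.B43
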