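import Pool.Agent.TTT.B43

/-!
Certified forced wins in positions of the 4 x 4 x 4 board.
-/

set_option autoImplicit false
set_option maxRecDepth 1000000
set_option linter.all false

namespace Pool.Agent.TTT.B43

/-- A certificate. -/
noncomputable def c269 : Ct := (.str 15 (.nv (.thr 47 31 (.thr 37 32 (.thr 48 26 (.dbl 53 5 58)))) (.nv (.thr 31 47 (.thr 26 16 (.thr 48 37 (.dbl 58 10 53)))) (.rp 58 (.str 3 (.nv (.thr 43 23 (.thr 47 31 (.thr 37 32 (.thr 48 26 (.thr 33 18 (.dbl 41 40 45)))))) (.nv (.thr 23 43 (.thr 22 20 (.thr 60 41 (.dbl 62 2 61)))) (.rp 43 (.thr 31 47 (.thr 26 16 (.thr 48 37 (.thr 18 33 (.thr 22 30 (.thr 62 2 (.dbl 60 41 61))))))) (.rp 41 (.thr 23 43 (.thr 31 47 (.thr 26 16 (.thr 22 20 (.thr 18 30 (.dbl 48 33 37)))))) (.rp 23 (.thr 31 47 (.thr 26 16 (.thr 48 37 (.thr 18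 33 (.thr 22 30 (.thr 62 2 (.dbl 60 41 61))))))) (.rp 22 (.thr 43 23 (.thr 47 31 (.thr 37 32 (.thr 41 40 (.thr 33 45 (.dbl 48 18 26)))))) .nd))))))) (.rp 53 (.str 12 (.nv (.thr 29 46 (.thr 31 47 (.thr 26 16 (.thr 48 37 (.thr 24 36 (.dbl 25 17 27)))))) (.nv (.thr 46 29 (.thr 38 34 (.thr 51 25 (.dbl 55 4 59)))) (.rp 46 (.thr 47 31 (.thr 37 32 (.thr 48 26 (.thr 36 24 (.thr 38 39 (.thr 55 4 (.dbl 51 25 59))))))) (.rp 38 (.thr 29 46 (.thr 31 47 (.thr 26 16 (.thr 25 17 (.thr 24 27 (.dbl 48 36 37)))))) (.rp 29 (.thr 47 31 (.thr 37 32 (.thr 48 26 (.thr 36 24 (.thr 38 39 (.thr 55 4 (.dbl 51 25 59))))))) (.rp 25 (.thr 46 29 (.thr 47 31 (.thr 37 32 (.thr 38 34 (.thr 36 39 (.dbl 48 24 26)))))) .nd))))))) (.rp 48 (.thr 31 47 (.str 23 (.nv (.thr 3 43 (.thr 22 20 (.thr 60 41 (.dbl 62 2 61)))) (.nv (.thr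 16 26 (.thr 19 27 (.thr 22 20 (.thr 25 28 (.dbl 17 18 29))))) (.nv (.thr 27 19 (.thr 51 39 (.thr 59 55 (.dbl 43 3 11)))) (.rp 16 (.str 32 (.nv (.thr 3 43 (.thr 22 20 (.thr 60 41 (.dbl 62 2 61)))) (.nv (.thr 19 27 (.thr 22 20 (.thr 28 25 (.thr 30 29 (.thr 60 45 (.dbl 62 2 61)))))) (.nv (.thr 27 19 (.thr 51 39 (.thr 59 55 (.dbl 43 3 11)))) .nd)))) .nd)))))) (.rp 47 (.str 22 (.nv (.thr 62 2 (.thr 60 61 (.thr 30 45 (.thr 26 18 (.thr 48 37 (.dbl 58 10 53)))))) (.nv (.thr 23 20 (.thr 3 43 (.thr 60 41 (.dbl 62 2 61)))) (.rp 62 (.thr 23 20 (.thr 3 43 (.thr 60 41 (.thr 30 45 (.thr 26 18 (.thr 58 10 (.dbl 48 37 53))))))) (.rp 61 (.thr 23 20 (.thr 3 43 (.thr 60 41 (.thr 30 45 (.thr 26 18 (.thr 58 10 (.dbl 48 37 53))))))) (.rp 60 (.str 26 (.nv (.thr 18 30 (.thr 48 37 (.thr 3 33 (.dbl 23 20 43)))) (.nv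 (.thr 48 37 (.dbl 58 10 53)) (.rp 48 (.thr 18 30 (.thr 16 31 (.thr 19 17 (.thr 20 23 (.dbl 28 24 25))))) (.rp 40 (.thr 20 23 (.thr 58 10 (.dbl 48 37 53))) (.rp 37 (.thr 18 30 (.thr 58 10 (.thr 48 53 (.thr 3 33 (.dbl 23 20 43))))) (.rp 20 (.str 40 (.nv (.thr 18 30 (.thr 43 41 (.thr 3 23 (.dbl 48 33 37)))) (.nv (.thr 48 37 (.dbl 58 10 53)) (.rp 48 (.thr 41 43 (.thr 56 11 (.thr 8 24 (.thr 58 10 (.dbl 59 25 57))))) (.rp 37 (.thr 41 43 (.thr 56 11 (.thr 8 24 (.thr 58 10 (.dbl 59 25 57))))) .nd))))) .nd))))))) (.rp 41 (.thr 62 2 (.thr 23 20 (.thr 60 61 (.thr 30 45 (.thr 26 18 (.thr 31 16 (.thr 19 27 (.dbl 28 25 29)))))))) (.rp 3 (.thr 2 62 (.str 26 (.nv (.thr 58 10 (.dbl 48 37 53)) (.rp 58 (.thr 30 18 (.thr 31 16 (.thr 23 20 (.thr 19 27 (.dbl 28 25 29))))) (.rp 53 (.thr 30 18 (.thr 31 16 (.thr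 23 20 (.thr 19 27 (.dbl 28 25 29))))) (.rp 48 (.thr 16 31 (.thr 20 23 (.thr 28 24 (.thr 19 25 (.dbl 18 17 30))))) (.rp 46 (.thr 30 18 (.thr 58 10 (.dbl 48 37 53))) (.rp 37 (.thr 30 18 (.thr 31 16 (.thr 23 20 (.thr 19 27 (.dbl 28 25 29))))) (.rp 30 (.str 46 (.nv (.thr 12 29 (.thr 38 34 (.thr 51 25 (.dbl 55 4 59)))) (.nv (.thr 58 10 (.dbl 48 37 53)) .nd))) (.rp 10 (.thr 30 18 (.thr 31 16 (.thr 23 20 (.thr 19 27 (.dbl 28 25 29))))) .nd)))))))))) (.rp 2 (.thr 23 20 (.thr 3 43 (.thr 60 41 (.thr 30 45 (.thr 26 18 (.thr 31 16 (.thr 19 27 (.dbl 28 25 29)))))))) .nd))))))))) (.rp 37 (.str 22 (.nv (.thr 31 47 (.thr 26 16 (.thr 30 18 (.thr 60 45 (.dbl 62 2 61))))) (.nv (.thr 20 23 (.thr 31 47 (.thr 16 26 (.thr 28 24 (.thr 25 19 (.dbl 29 17 30)))))) (.nv (.thr 23 20 (.thr 3 43 (.thr 62 2 (.dbl 60 41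 61)))) .nd)))) (.rp 31 (.str 38 (.nv (.thr 55 4 (.thr 51 59 (.thr 39 27 (.thr 37 36 (.thr 48 26 (.dbl 53 5 58)))))) (.nv (.thr 46 34 (.thr 12 29 (.thr 51 25 (.dbl 55 4 59)))) (.rp 59 (.thr 46 34 (.thr 12 29 (.thr 51 25 (.thr 39 27 (.thr 37 36 (.thr 53 5 (.dbl 48 26 58))))))) (.rp 55 (.thr 46 34 (.thr 12 29 (.thr 51 25 (.thr 39 27 (.thr 37 36 (.thr 53 5 (.dbl 48 26 58))))))) (.rp 51 (.str 37 (.nv (.thr 36 39 (.thr 48 26 (.thr 12 24 (.dbl 46 29 34)))) (.nv (.thr 48 26 (.dbl 53 5 58)) (.rp 48 (.thr 36 39 (.thr 32 47 (.thr 44 40 (.thr 34 46 (.dbl 35 33 41))))) (.rp 34 (.str 17 (.nv (.thr 29 25 (.thr 12 46 (.thr 36 39 (.dbl 48 24 26)))) (.nv (.thr 48 26 (.dbl 53 5 58)) (.rp 48 (.thr 25 29 (.thr 49 13 (.thr 1 33 (.thr 53 5 (.dbl 61 41 57))))) (.rp 26 (.thr 25 29 (.thr 49 13 (.thr 1 33 (.thr 53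 5 (.dbl 61 41 57))))) .nd))))) (.rp 26 (.thr 36 39 (.thr 53 5 (.thr 48 58 (.thr 12 24 (.dbl 46 29 34))))) (.rp 17 (.thr 34 46 (.thr 53 5 (.dbl 48 26 58))) .nd))))))) (.rp 25 (.thr 55 4 (.thr 46 34 (.thr 51 59 (.thr 39 27 (.thr 37 36 (.thr 47 32 (.thr 44 45 (.dbl 35 41 43)))))))) (.rp 12 (.thr 4 55 (.str 37 (.nv (.thr 53 5 (.dbl 48 26 58)) (.rp 58 (.thr 39 36 (.thr 47 32 (.thr 46 34 (.thr 44 45 (.dbl 35 41 43))))) (.rp 53 (.thr 39 36 (.thr 47 32 (.thr 46 34 (.thr 44 45 (.dbl 35 41 43))))) (.rp 48 (.thr 32 47 (.thr 34 46 (.thr 35 33 (.thr 44 41 (.dbl 36 39 40))))) (.rp 39 (.str 23 (.nv (.thr 3 43 (.thr 22 20 (.thr 60 41 (.dbl 62 2 61)))) (.nv (.thr 53 5 (.dbl 48 26 58)) .nd))) (.rp 26 (.thr 39 36 (.thr 47 32 (.thr 46 34 (.thr 44 45 (.dbl 35 41 43))))) (.rp 23 (.thr 39 36 (.thr 53 5 (.dbl 48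 26 58))) (.rp 5 (.thr 39 36 (.thr 47 32 (.thr 46 34 (.thr 44 45 (.dbl 35 41 43))))) .nd)))))))))) (.rp 4 (.thr 46 34 (.thr 12 29 (.thr 51 25 (.thr 39 27 (.thr 37 36 (.thr 47 32 (.thr 44 45 (.dbl 35 41 43)))))))) .nd))))))))) (.rp 26 (.str 38 (.nv (.thr 47 31 (.thr 37 32 (.thr 39 36 (.thr 51 27 (.dbl 55 4 59))))) (.nv (.thr 34 46 (.thr 47 31 (.thr 32 37 (.thr 35 33 (.thr 41 44 (.dbl 43 39 40)))))) (.nv (.thr 46 34 (.thr 12 29 (.thr 55 4 (.dbl 51 25 59)))) .nd)))) .nd))))))))))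

theorem w269 : WinAt (9223376434903384064, 16513) :=
  chF (K := []) kn c269 9223376434903384064 16513 0
    [] (by decide +kernel) (by decide +kernel)

/-- A certificate. -/
noncomputable def c270 : Ct := (.str 41 (.nv (.thr 43 40 (.thr 61 1 (.thr 63 0 (.thr 3 23 (.dbl 60 22 62))))) (.nv (.thr 1 61 (.thr 0 63 (.thr 3 2 (.thr 40 43 (.dbl 60 20 22))))) (.rp 63 (.str 11 (.nv (.thr 40 43 (.thr 56 26 (.thr 8 24 (.thr 9 10 (.dbl 25 57 59))))) (.nv (.thr 43 40 (.thr 59 27 (.thr 26 56 (.thr 8 25 (.dbl 10 9 58))))) (.rp 59 (.thr 1 61 (.thr 40 43 (.thr 56 26 (.thr 8 24 (.thr 9 10 (.thr 25 57 (.thr 17 29 (.thr 49 33 (.dbl 13 5 37))))))))) (.rp 56 (.thr 1 61 (.thr 43 40 (.thr 59 27 (.thr 8 25 (.thr 9 10 (.thr 5 13 (.thr 37 53 (.thr 45 33 (.thr 47 32 (.thr 44 46 (.dbl 35 38 39))))))))))) (.rp 47 (.str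 31 (.nv (.dbl 26 16 56) (.rp 56 (.thr 43 40 (.thr 59 27 (.thr 8 25 (.thr 10 9 (.dbl 26 16 58))))) (.rp 26 (.thr 1 61 (.thr 43 40 (.thr 59 27 (.thr 25 8 (.thr 17 29 (.thr 49 33 (.thr 9 57 (.dbl 13 5 37)))))))) (.rp 16 (.thr 43 40 (.thr 59 27 (.thr 25 8 (.thr 57 9 (.dbl 56 26 58))))) .nd))))) (.rp 43 (.thr 1 61 (.thr 26 56 (.str 22 (.nv (.thr 10 58 (.thr 8 9 (.thr 23 20 (.thr 31 16 (.thr 19 27 (.dbl 25 28 59)))))) (.nv (.thr 62 2 (.thr 30 18 (.thr 58 10 (.thr 50 54 (.dbl 14 38 46))))) (.nv (.thr 23 20 (.thr 30 18 (.thr 31 16 (.thr 19 27 (.dbl 28 25 29))))) (.rp 62 (.thr 60 3 (.thr 23 20 (.thr 30 18 (.thr 31 16 (.thr 28 29 (.dbl 19 25 27)))))) (.rp 47 (.thr 31 16 (.thr 23 20 (.thr 19 27 (.thr 28 25 (.dbl 30 18 29))))) (.rp 31 (.str 47 (.nv (.thr 3 60 (.thr 62 2 (.thr 30 18 (.thr 37 32 (.thr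 45 33 (.dbl 46 14 44)))))) (.nv (.thr 23 20 (.thr 10 58 (.thr 9 8 (.thr 37 32 (.dbl 5 13 53))))) (.nv (.thr 62 2 (.thr 30 18 (.thr 14 46 (.thr 50 38 (.dbl 58 10 54))))) (.rp 62 (.thr 60 3 (.thr 23 20 (.thr 37 32 (.thr 10 58 (.thr 9 8 (.dbl 5 13 53)))))) .nd))))) (.rp 23 (.thr 3 60 (.thr 62 2 (.thr 30 18 (.thr 14 46 (.thr 58 10 (.dbl 50 38 54)))))) .nd)))))))))) (.rp 40 (.thr 26 56 (.thr 10 58 (.thr 8 9 (.thr 59 25 (.thr 27 43 (.thr 31 16 (.thr 23 19 (.thr 22 20 (.thr 18 30 (.thr 2 62 (.thr 14 6 (.dbl 50 34 38)))))))))))) (.rp 31 (.str 47 (.nv (.thr 1 61 (.thr 26 56 (.thr 37 32 (.thr 5 53 (.thr 9 13 (.dbl 10 8 58)))))) (.nv (.thr 37 32 (.thr 43 40 (.thr 45 33 (.thr 44 46 (.dbl 35 38 39))))) (.nv (.thr 26 56 (.thr 10 58 (.thr 8 9 (.thr 43 40 (.dbl 59 25 27))))) .nd)))) (.rp 27 (.thr 40 43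 (.thr 56 26 (.thr 8 24 (.thr 25 59 (.dbl 9 10 57))))) (.rp 26 (.thr 1 61 (.thr 43 40 (.thr 59 27 (.thr 25 8 (.thr 17 29 (.thr 49 33 (.thr 9 57 (.dbl 13 5 37)))))))) (.rp 25 (.thr 43 40 (.thr 27 59 (.thr 26 56 (.thr 58 10 (.thr 31 16 (.thr 23 19 (.thr 22 20 (.thr 62 2 (.thr 50 54 (.thr 14 38 (.dbl 30 18 46))))))))))) (.rp 10 (.thr 43 40 (.thr 59 27 (.thr 25 8 (.thr 57 9 (.dbl 56 26 58))))) (.rp 9 (.thr 61 1 (.thr 43 40 (.thr 59 27 (.thr 25 8 (.thr 29 17 (.thr 13 45 (.thr 49 37 (.thr 57 53 (.dbl 56 26 58))))))))) (.rp 8 (.thr 61 1 (.thr 43 40 (.thr 59 27 (.thr 56 26 (.thr 57 58 (.thr 25 9 (.thr 29 17 (.thr 13 45 (.dbl 49 37 53))))))))) .nd))))))))))))))) (.rp 62 (.thr 1 61 (.thr 40 43 (.thr 0 63 (.thr 60 20 (.dbl 3 2 22))))) (.rp 61 (.str 11 (.nv (.thr 43 40 (.thr 27 59 (.thr 63 0 (.thr 23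 3 (.thr 31 19 (.dbl 26 16 56)))))) (.nv (.thr 26 56 (.thr 10 58 (.thr 8 9 (.thr 43 40 (.dbl 59 25 27))))) (.rp 59 (.thr 0 63 (.thr 40 43 (.thr 56 26 (.thr 8 24 (.thr 9 10 (.thr 12 4 (.thr 60 20 (.dbl 3 6 22)))))))) (.rp 56 (.thr 0 63 (.thr 43 40 (.thr 59 27 (.thr 8 25 (.thr 10 9 (.thr 26 58 (.thr 4 12 (.thr 38 55 (.thr 46 34 (.thr 14 50 (.thr 62 30 (.dbl 2 6 22)))))))))))) (.rp 43 (.thr 0 63 (.thr 26 56 (.thr 10 58 (.thr 8 9 (.thr 4 12 (.thr 38 55 (.thr 46 34 (.thr 14 50 (.thr 62 30 (.dbl 2 6 22)))))))))) (.rp 40 (.thr 0 63 (.thr 26 56 (.thr 10 58 (.thr 8 9 (.thr 4 12 (.thr 38 55 (.thr 46 34 (.thr 14 50 (.thr 62 30 (.dbl 2 6 22)))))))))) (.rp 27 (.thr 40 43 (.thr 56 26 (.thr 8 24 (.thr 25 59 (.dbl 9 10 57))))) (.rp 26 (.thr 63 0 (.thr 43 40 (.thr 59 27 (.thr 51 55 (.thr 25 8 (.thr 29 17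 (.dbl 12 38 46))))))) (.rp 10 (.thr 43 40 (.thr 59 27 (.thr 25 8 (.thr 57 9 (.dbl 56 26 58))))) .nd)))))))))) (.rp 60 (.str 11 (.nv (.thr 43 40 (.thr 59 27 (.thr 8 25 (.thr 10 9 (.dbl 26 56 58))))) (.nv (.thr 26 56 (.thr 31 16 (.thr 43 40 (.thr 27 59 (.thr 23 19 (.dbl 63 0 3)))))) (.nv (.thr 40 43 (.thr 56 26 (.thr 8 24 (.thr 25 59 (.dbl 9 10 57))))) (.rp 59 (.thr 1 61 (.thr 40 43 (.thr 56 26 (.thr 8 24 (.thr 9 10 (.thr 25 57 (.thr 17 29 (.thr 49 33 (.dbl 13 5 37))))))))) (.rp 56 (.thr 1 61 (.thr 43 40 (.thr 59 27 (.thr 8 25 (.thr 9 10 (.thr 5 13 (.thr 37 53 (.thr 45 33 (.thr 47 32 (.thr 44 46 (.dbl 35 38 39))))))))))) (.rp 45 (.str 30 (.nv (.thr 43 40 (.thr 59 27 (.thr 25 8 (.thr 57 9 (.dbl 56 26 58))))) (.nv (.thr 26 56 (.thr 22 18 (.thr 58 10 (.thr 62 2 (.thr 14 46 (.dbl 50 38 54))))))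 (.nv (.thr 40 43 (.thr 56 26 (.thr 8 24 (.thr 25 59 (.dbl 9 10 57))))) (.rp 56 (.thr 43 40 (.thr 59 27 (.thr 8 25 (.thr 10 9 (.thr 26 58 (.thr 0 63 (.thr 4 12 (.thr 38 55 (.thr 46 34 (.dbl 14 50 62)))))))))) (.rp 26 (.thr 43 40 (.thr 59 27 (.thr 25 8 (.thr 9 57 (.thr 1 61 (.thr 13 5 (.thr 17 29 (.dbl 49 33 37)))))))) .nd)))))) (.rp 43 (.thr 0 63 (.thr 26 56 (.thr 10 58 (.thr 8 9 (.thr 4 12 (.thr 38 55 (.thr 46 34 (.thr 14 50 (.thr 2 6 (.thr 3 1 (.dbl 62 22 30))))))))))) (.rp 40 (.thr 0 63 (.thr 26 56 (.thr 10 58 (.thr 8 9 (.thr 4 12 (.thr 38 55 (.thr 46 34 (.thr 14 50 (.thr 2 6 (.thr 3 1 (.dbl 62 22 30))))))))))) (.rp 30 (.str 45 (.nv (.thr 26 56 (.thr 43 40 (.thr 10 58 (.thr 59 27 (.dbl 8 9 25))))) (.nv (.thr 61 1 (.thr 13 29 (.thr 37 33 (.thr 49 25 (.dbl 53 5 57))))) (.rp 25 (.thr 37 33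 (.thr 43 40 (.thr 47 32 (.thr 35 39 (.dbl 44 38 46))))) .nd)))) (.rp 26 (.thr 1 61 (.thr 43 40 (.thr 59 27 (.thr 25 8 (.thr 17 29 (.thr 49 33 (.thr 9 57 (.dbl 13 5 37)))))))) (.rp 24 (.thr 43 40 (.thr 59 27 (.thr 25 8 (.thr 56 26 (.dbl 57 9 58))))) (.rp 8 (.thr 43 40 (.thr 27 59 (.thr 26 56 (.thr 24 25 (.thr 31 16 (.thr 23 19 (.dbl 63 0 3))))))) .nd))))))))))))) (.rp 43 (.str 3 (.nv (.thr 1 61 (.dbl 0 2 63)) (.rp 63 (.thr 1 61 (.thr 2 0 (.dbl 22 60 62))) (.rp 61 (.thr 0 63 (.thr 2 1 (.dbl 22 60 62))) (.rp 2 (.thr 61 1 (.thr 63 0 (.dbl 60 22 62))) (.rp 1 (.str 35 (.nv (.thr 22 60 (.thr 38 44 (.thr 6 54 (.thr 12 9 (.dbl 51 19 25))))) (.nv (.thr 0 63 (.thr 51 19 (.thr 17 34 (.thr 25 29 (.thr 60 22 (.dbl 57 9 54)))))) (.nv (.thr 51 19 (.thr 63 0 (.thr 38 44 (.dbl 55 4 59)))) (.rp 51 (.thr 38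 44 (.thr 34 46 (.thr 33 32 (.thr 18 48 (.thr 22 60 (.dbl 2 50 62)))))) (.rp 19 (.thr 63 0 (.thr 38 44 (.thr 46 34 (.thr 55 4 (.thr 51 59 (.dbl 12 25 29)))))) .nd)))))) (.rp 0 (.str 5 (.nv (.thr 1 61 (.thr 9 13 (.thr 12 6 (.thr 60 22 (.thr 44 28 (.thr 38 35 (.dbl 25 51 57))))))) (.nv (.thr 1 61 (.thr 13 9 (.thr 37 53 (.thr 49 25 (.dbl 33 17 45))))) (.rp 61 (.thr 37 53 (.thr 33 45 (.thr 32 47 (.thr 35 34 (.thr 51 19 (.thr 60 22 (.thr 57 54 (.thr 25 9 (.dbl 38 12 44))))))))) (.rp 45 (.thr 37 53 (.thr 1 61 (.thr 13 9 (.thr 49 25 (.thr 33 17 (.thr 32 47 (.thr 35 34 (.thr 51 19 (.dbl 48 18 50))))))))) (.rp 37 (.thr 1 61 (.thr 9 13 (.thr 25 57 (.thr 29 17 (.thr 12 6 (.thr 46 63 (.dbl 38 34 51))))))) (.rp 25 (.thr 37 53 (.thr 33 45 (.thr 1 61 (.thr 49 17 (.thr 32 47 (.thr 35 34 (.thr 51 19 (.dbl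 48 18 50)))))))) (.rp 13 (.thr 37 53 (.thr 33 45 (.thr 32 47 (.thr 35 34 (.thr 18 48 (.thr 19 51 (.thr 17 16 (.dbl 1 49 61)))))))) (.rp 9 (.thr 37 53 (.thr 33 45 (.thr 1 61 (.thr 49 17 (.thr 32 47 (.thr 35 34 (.thr 51 19 (.dbl 48 18 50)))))))) (.rp 1 (.thr 37 53 (.thr 33 45 (.thr 32 47 (.thr 18 48 (.thr 22 60 (.thr 30 26 (.thr 2 62 (.dbl 34 35 50)))))))) .nd)))))))))) .nd))))))) (.rp 40 (.str 3 (.nv (.thr 63 0 (.thr 23 43 (.dbl 22 20 60))) (.nv (.thr 1 61 (.dbl 0 2 63)) (.rp 63 (.thr 1 61 (.thr 2 0 (.dbl 22 60 62))) (.rp 0 (.thr 60 22 (.str 5 (.nv (.thr 1 61 (.thr 9 13 (.thr 12 6 (.thr 44 28 (.thr 38 35 (.dbl 25 51 57)))))) (.nv (.thr 37 53 (.thr 33 45 (.thr 1 61 (.thr 13 9 (.dbl 49 17 25))))) (.rp 61 (.thr 37 53 (.thr 45 33 (.thr 47 32 (.thr 44 46 (.thr 12 28 (.thr 9 6 (.thr 13 1 (.dbl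 25 49 57)))))))) (.rp 57 (.thr 37 53 (.thr 33 45 (.thr 1 61 (.thr 49 17 (.dbl 13 9 25))))) (.rp 45 (.thr 37 53 (.thr 32 47 (.thr 1 61 (.thr 13 9 (.thr 49 25 (.thr 33 17 (.thr 48 18 (.thr 35 34 (.dbl 51 19 50))))))))) (.rp 37 (.str 52 (.nv (.thr 1 61 (.thr 56 48 (.thr 26 11 (.thr 58 10 (.thr 57 59 (.dbl 9 13 25)))))) (.nv (.thr 1 61 (.thr 9 13 (.thr 12 6 (.thr 44 28 (.thr 38 35 (.dbl 25 51 57)))))) (.nv (.thr 48 56 (.thr 61 1 (.thr 63 62 (.thr 53 58 (.thr 54 55 (.dbl 57 49 51)))))) (.rp 61 (.thr 56 48 (.thr 26 11 (.thr 58 10 (.thr 57 59 (.thr 54 51 (.thr 55 53 (.thr 50 62 (.dbl 38 4 14)))))))) (.rp 57 (.thr 48 56 (.thr 1 61 (.thr 9 13 (.thr 12 6 (.thr 44 28 (.thr 38 35 (.thr 4 55 (.dbl 36 20 24)))))))) (.rp 48 (.str 26 (.nv (.thr 16 31 (.thr 1 61 (.thr 9 13 (.thr 10 58 (.dbl 11 8 56)))))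 (.nv (.thr 1 61 (.thr 9 13 (.thr 12 6 (.thr 44 28 (.thr 38 35 (.dbl 25 51 57)))))) (.nv (.thr 10 58 (.thr 1 61 (.thr 11 56 (.dbl 9 8 13)))) (.rp 61 (.thr 58 10 (.thr 56 11 (.thr 57 59 (.thr 54 51 (.thr 50 62 (.thr 38 14 (.dbl 55 4 53))))))) (.rp 16 (.str 32 (.nv (.thr 1 61 (.thr 9 13 (.thr 11 56 (.dbl 10 8 58)))) (.nv (.thr 58 10 (.thr 61 1 (.thr 62 63 (.thr 54 50 (.thr 53 55 (.dbl 57 49 51)))))) (.nv (.thr 1 61 (.thr 9 13 (.thr 12 6 (.thr 25 57 (.thr 38 51 (.dbl 44 28 35)))))) (.nv (.thr 10 58 (.thr 1 61 (.thr 11 56 (.dbl 9 8 13)))) (.rp 61 (.thr 58 10 (.thr 56 11 (.thr 57 59 (.thr 54 51 (.thr 50 62 (.thr 38 14 (.dbl 55 4 53))))))) (.rp 1 (.thr 58 10 (.thr 56 11 (.thr 57 59 (.thr 54 51 (.thr 50 62 (.thr 38 14 (.dbl 55 4 53))))))) .nd))))))) (.rp 13 (.thr 58 10 (.thr 61 1 (.thr 56 11 (.thr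 57 59 (.thr 54 51 (.dbl 62 50 63)))))) (.rp 9 (.thr 58 10 (.thr 61 1 (.thr 62 63 (.thr 54 50 (.thr 53 55 (.dbl 57 49 51)))))) (.rp 1 (.thr 58 10 (.thr 56 11 (.thr 57 59 (.thr 54 51 (.thr 50 62 (.thr 38 14 (.dbl 55 4 53))))))) .nd))))))))) (.rp 1 (.thr 56 48 (.thr 26 11 (.thr 58 10 (.thr 57 59 (.thr 54 51 (.thr 55 53 (.thr 50 62 (.dbl 38 4 14)))))))) .nd)))))))) (.rp 25 (.thr 37 53 (.thr 45 33 (.thr 47 32 (.thr 44 46 (.thr 1 61 (.thr 9 13 (.dbl 12 6 28))))))) (.rp 13 (.thr 37 53 (.thr 45 33 (.thr 47 32 (.thr 44 46 (.thr 35 38 (.thr 43 39 (.thr 61 1 (.dbl 63 23 62)))))))) (.rp 9 (.thr 37 53 (.thr 45 33 (.thr 47 32 (.thr 61 1 (.thr 63 62 (.thr 29 13 (.dbl 46 12 44))))))) (.rp 1 (.thr 37 53 (.thr 45 33 (.thr 47 32 (.thr 44 46 (.thr 12 28 (.thr 9 6 (.thr 25 57 (.dbl 38 35 51)))))))) .nd))))))))))))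 .nd))))) (.rp 22 (.thr 43 40 (.thr 1 61 (.str 37 (.nv (.thr 33 45 (.thr 49 17 (.thr 13 25 (.dbl 5 9 53)))) (.nv (.thr 45 33 (.thr 47 32 (.thr 44 46 (.dbl 35 38 39)))) (.rp 45 (.thr 0 63 (.thr 3 2 (.thr 47 32 (.thr 35 39 (.thr 51 19 (.thr 34 17 (.dbl 38 44 46))))))) (.rp 33 (.thr 5 53 (.thr 9 13 (.thr 63 0 (.thr 3 23 (.thr 12 6 (.thr 29 46 (.dbl 25 17 57))))))) (.rp 11 (.str 3 (.nv (.dbl 63 0 23) (.rp 63 (.thr 33 45 (.thr 49 17 (.thr 13 25 (.dbl 5 9 53)))) (.rp 23 (.dbl 0 2 63) (.rp 0 (.thr 63 23 (.thr 33 45 (.thr 48 18 (.dbl 53 5 58)))) .nd))))) (.rp 3 (.str 11 (.nv (.thr 45 33 (.thr 47 32 (.thr 44 46 (.dbl 35 38 39)))) (.nv (.thr 26 56 (.thr 10 58 (.thr 59 27 (.dbl 8 9 25)))) (.rp 39 (.thr 33 45 (.thr 49 17 (.thr 13 25 (.dbl 5 9 53)))) .nd)))) .nd))))))))) (.rp 20 (.thr 61 1 (.thr 63 0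 (.thr 43 40 (.thr 60 62 (.dbl 3 22 23))))) (.rp 11 (.str 3 (.nv (.thr 43 40 (.thr 23 63 (.dbl 22 20 60))) (.nv (.thr 1 61 (.dbl 0 2 63)) (.rp 63 (.thr 1 61 (.thr 2 0 (.dbl 22 60 62))) .nd)))) (.rp 3 (.str 11 (.nv (.thr 40 43 (.thr 56 26 (.thr 8 24 (.thr 25 59 (.dbl 9 10 57))))) (.nv (.thr 43 40 (.thr 59 27 (.thr 8 25 (.thr 26 56 (.dbl 10 9 58))))) (.rp 59 (.thr 1 61 (.thr 40 43 (.thr 56 26 (.thr 8 24 (.thr 9 10 (.thr 25 57 (.thr 17 29 (.thr 49 33 (.dbl 13 5 37))))))))) (.rp 56 (.thr 1 61 (.thr 43 40 (.thr 59 27 (.thr 8 25 (.thr 9 10 (.thr 5 13 (.thr 37 53 (.thr 45 33 (.thr 47 32 (.thr 44 46 (.dbl 35 38 39))))))))))) (.rp 43 (.thr 63 0 (.thr 26 56 (.thr 10 58 (.thr 8 9 (.thr 59 25 (.thr 55 51 (.thr 38 4 (.thr 34 46 (.thr 50 14 (.thr 61 1 (.thr 2 18 (.dbl 62 22 60)))))))))))) (.rp 40 (.thr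 63 0 (.thr 26 56 (.thr 10 58 (.thr 8 9 (.thr 59 25 (.thr 55 51 (.thr 38 4 (.thr 34 46 (.thr 50 14 (.thr 61 1 (.thr 2 18 (.dbl 62 22 60)))))))))))) (.rp 26 (.thr 63 0 (.thr 43 40 (.thr 59 27 (.thr 51 55 (.thr 25 8 (.thr 29 17 (.dbl 12 38 46))))))) (.rp 25 (.thr 1 61 (.thr 40 43 (.thr 26 56 (.thr 10 58 (.thr 9 8 (.thr 5 13 (.thr 37 53 (.thr 32 47 (.thr 44 36 (.thr 35 38 (.dbl 33 34 45))))))))))) (.rp 10 (.thr 43 40 (.thr 59 27 (.thr 25 8 (.thr 57 9 (.dbl 56 26 58))))) (.rp 9 (.thr 63 0 (.thr 43 40 (.thr 59 27 (.thr 51 55 (.thr 25 8 (.thr 29 17 (.dbl 12 38 46))))))) (.rp 8 (.thr 63 0 (.thr 43 40 (.thr 59 27 (.thr 51 55 (.thr 56 26 (.thr 57 58 (.thr 60 54 (.dbl 61 1 62)))))))) .nd)))))))))))) (.rp 1 (.str 11 (.nv (.thr 40 43 (.thr 56 26 (.thr 8 24 (.thr 25 59 (.dbl 9 10 57))))) (.nv (.thr 26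 56 (.thr 31 16 (.thr 43 40 (.thr 27 59 (.thr 23 19 (.dbl 63 0 3)))))) (.nv (.thr 43 40 (.thr 59 27 (.thr 26 56 (.thr 8 25 (.dbl 10 9 58))))) (.rp 59 (.thr 0 63 (.thr 40 43 (.thr 56 26 (.thr 8 24 (.thr 9 10 (.thr 12 4 (.thr 60 20 (.dbl 3 6 22)))))))) (.rp 56 (.thr 0 63 (.thr 43 40 (.thr 59 27 (.thr 8 25 (.thr 10 9 (.thr 26 58 (.thr 4 12 (.thr 38 55 (.thr 46 34 (.thr 14 50 (.thr 62 30 (.dbl 2 6 22)))))))))))) (.rp 43 (.thr 0 63 (.thr 26 56 (.thr 10 58 (.thr 8 9 (.thr 4 12 (.thr 38 55 (.thr 46 34 (.thr 14 50 (.thr 62 30 (.dbl 2 6 22)))))))))) (.rp 40 (.thr 0 63 (.thr 26 56 (.thr 10 58 (.thr 8 9 (.thr 4 12 (.thr 38 55 (.thr 46 34 (.thr 14 50 (.thr 62 30 (.dbl 2 6 22)))))))))) (.rp 26 (.thr 63 0 (.thr 43 40 (.thr 59 27 (.thr 51 55 (.thr 25 8 (.thr 29 17 (.dbl 12 38 46))))))) (.rp 8 (.thr 63 0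 (.thr 43 40 (.thr 27 59 (.thr 26 56 (.thr 24 25 (.thr 31 16 (.dbl 23 3 19))))))) .nd)))))))))) (.rp 0 (.str 11 (.nv (.thr 40 43 (.thr 56 26 (.thr 8 24 (.thr 25 59 (.dbl 9 10 57))))) (.nv (.thr 26 56 (.thr 10 58 (.thr 8 9 (.thr 59 25 (.dbl 43 27 40))))) (.rp 59 (.thr 1 61 (.thr 40 43 (.thr 56 26 (.thr 8 24 (.thr 9 10 (.thr 5 13 (.thr 37 53 (.thr 32 47 (.thr 44 36 (.thr 35 38 (.dbl 33 34 45))))))))))) (.rp 57 (.thr 43 40 (.thr 59 27 (.thr 8 25 (.thr 10 9 (.dbl 26 56 58))))) (.rp 56 (.thr 1 61 (.thr 43 40 (.thr 59 27 (.thr 8 25 (.thr 9 10 (.thr 5 13 (.thr 37 53 (.thr 45 33 (.thr 47 32 (.thr 44 46 (.dbl 35 38 39))))))))))) (.rp 43 (.str 5 (.nv (.thr 1 61 (.thr 13 9 (.thr 37 53 (.thr 49 25 (.dbl 33 17 45))))) (.nv (.thr 1 61 (.thr 26 56 (.thr 10 58 (.dbl 9 8 13)))) (.rp 61 (.thr 37 53 (.thr 26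 56 (.thr 10 58 (.thr 9 8 (.thr 13 1 (.dbl 25 49 57)))))) (.rp 13 (.thr 53 37 (.thr 61 1 (.thr 57 49 (.thr 25 9 (.thr 59 8 (.dbl 56 26 58)))))) (.rp 9 (.thr 53 37 (.thr 61 1 (.thr 49 57 (.thr 26 56 (.thr 58 10 (.thr 48 63 (.thr 50 51 (.thr 38 14 (.thr 54 62 (.dbl 55 4 52)))))))))) (.rp 1 (.thr 37 53 (.thr 33 45 (.thr 32 47 (.thr 35 34 (.thr 44 38 (.thr 40 36 (.thr 56 26 (.thr 8 24 (.thr 9 10 (.dbl 25 57 59)))))))))) .nd))))))) (.rp 40 (.thr 26 56 (.thr 10 58 (.thr 8 9 (.thr 59 25 (.thr 27 43 (.thr 31 16 (.thr 23 19 (.thr 22 20 (.thr 60 3 (.thr 18 30 (.thr 2 62 (.thr 50 34 (.dbl 14 6 38))))))))))))) (.rp 26 (.thr 1 61 (.thr 43 40 (.thr 59 27 (.thr 25 8 (.thr 17 29 (.thr 49 33 (.thr 9 57 (.dbl 13 5 37)))))))) (.rp 25 (.thr 43 40 (.thr 27 59 (.thr 26 56 (.thr 31 16 (.thr 23 19 (.thr 3 63 (.dbl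 22 20 60))))))) (.rp 10 (.str 5 (.nv (.thr 43 40 (.thr 59 27 (.thr 25 8 (.thr 57 9 (.dbl 56 26 58))))) (.nv (.thr 1 61 (.thr 13 9 (.thr 37 53 (.thr 49 25 (.dbl 33 17 45))))) (.rp 25 (.thr 37 53 (.thr 33 45 (.thr 32 47 (.thr 35 34 (.thr 40 43 (.dbl 44 36 38)))))) (.rp 9 (.thr 37 53 (.thr 33 45 (.thr 32 47 (.thr 35 34 (.thr 40 43 (.dbl 44 36 38)))))) .nd))))) (.rp 9 (.thr 43 40 (.thr 27 59 (.thr 26 56 (.thr 31 16 (.thr 23 19 (.thr 3 63 (.dbl 22 20 60))))))) (.rp 8 (.thr 43 40 (.thr 27 59 (.thr 26 56 (.thr 24 25 (.thr 31 16 (.thr 23 19 (.thr 3 63 (.dbl 22 20 60)))))))) (.rp 5 (.str 10 (.nv (.thr 8 9 (.thr 43 40 (.dbl 59 25 27))) (.nv (.dbl 26 56 58) (.rp 6 (.str 4 (.nv (.thr 8 9 (.thr 43 40 (.dbl 59 25 27))) (.nv (.dbl 26 56 58) .nd))) (.rp 4 (.str 6 (.nv (.thr 8 9 (.thr 43 40 (.dbl 59 25 27)))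 (.nv (.dbl 26 56 58) (.rp 8 (.str 12 (.nv (.thr 2 14 (.thr 3 9 (.dbl 22 60 62))) (.nv (.dbl 26 56 58) .nd))) .nd)))) .nd))))) .nd)))))))))))))) .nd)))))))))))))))

theorem w270 : WinAt (4398048608256, 32896) :=
  chF (K := []) kn c270 4398048608256 32896 15
    [34952] (by decide +kernel) (by decide +kernel)

/-- A certificate. -/
noncomputable def c271 : Ct := (.str 3 (.nv (.thr 1 2 (.thr 41 61 (.thr 60 22 (.dbl 40 20 43)))) (.nv (.thr 2 1 (.thr 22 62 (.thr 60 41 (.dbl 20 23 40)))) (.rp 60 (.thr 2 1 (.str 34 (.nv (.thr 62 22 (.thr 38 46 (.thr 50 18 (.thr 26 14 (.dbl 58 10 54))))) (.nv (.thr 38 46 (.thr 4 55 (.thr 12 8 (.thr 6 9 (.dbl 22 54 62))))) (.nv (.thr 51 17 (.thr 35 19 (.thr 18 50 (.dbl 33 32 48)))) (.rp 62 (.str 61 (.nv (.thr 38 46 (.thr 4 55 (.thr 12 8 (.dbl 51 17 25)))) (.nv (.thr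 51 17 (.thr 35 19 (.thr 18 50 (.dbl 33 32 48)))) (.rp 51 (.thr 38 46 (.thr 50 18 (.thr 14 26 (.thr 6 10 (.thr 12 9 (.dbl 4 8 55)))))) (.rp 17 (.thr 38 46 (.thr 4 55 (.thr 12 8 (.thr 51 25 (.thr 35 19 (.thr 18 50 (.dbl 33 32 48))))))) .nd))))) .nd)))))) (.rp 41 (.str 51 (.nv (.thr 2 1 (.thr 19 35 (.thr 22 62 (.thr 25 28 (.thr 8 59 (.dbl 12 4 38)))))) (.nv (.thr 2 1 (.thr 34 17 (.thr 18 50 (.thr 33 48 (.dbl 35 19 32))))) (.nv (.thr 17 34 (.thr 25 29 (.thr 8 59 (.dbl 12 4 38)))) .nd)))) (.rp 40 (.str 51 (.nv (.thr 2 1 (.thr 19 35 (.thr 22 62 (.thr 25 28 (.thr 8 59 (.dbl 12 4 38)))))) (.nv (.thr 2 1 (.thr 34 17 (.thr 18 50 (.thr 33 48 (.dbl 35 19 32))))) (.nv (.thr 17 34 (.thr 25 29 (.thr 12 38 (.dbl 8 4 59)))) .nd)))) (.rp 22 (.thr 1 2 (.str 37 (.nv (.thr 32 47 (.thr 41 61 (.thr 33 45 (.thr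 34 35 (.dbl 17 49 51))))) (.nv (.thr 5 53 (.thr 9 13 (.thr 10 15 (.thr 8 11 (.dbl 12 4 6))))) (.nv (.thr 5 53 (.thr 13 9 (.thr 25 49 (.thr 61 41 (.dbl 29 17 45))))) (.rp 13 (.thr 41 61 (.thr 5 53 (.thr 15 10 (.thr 48 26 (.dbl 33 18 45))))) .nd)))))) (.rp 20 (.thr 2 1 (.thr 22 62 (.thr 60 41 (.str 28 (.nv (.thr 25 19 (.thr 8 59 (.dbl 12 4 44))) (.nv (.thr 12 44 (.thr 4 8 (.thr 38 55 (.dbl 6 9 54)))) (.nv (.thr 12 44 (.thr 25 19 (.thr 17 29 (.dbl 51 34 38)))) (.rp 51 (.thr 25 19 (.thr 12 44 (.dbl 8 4 59))) (.rp 44 (.thr 25 19 (.thr 17 29 (.thr 8 59 (.thr 12 4 (.dbl 51 34 38))))) (.rp 12 (.thr 19 25 (.thr 51 35 (.thr 34 17 (.thr 18 50 (.thr 30 26 (.thr 29 31 (.thr 38 46 (.dbl 54 6 57)))))))) .nd)))))))))) (.rp 2 (.str 38 (.nv (.thr 4 55 (.thr 12 8 (.thr 6 9 (.thr 22 54 (.thr 60 41 (.dbl 20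 23 40)))))) (.nv (.thr 34 46 (.thr 51 17 (.thr 12 25 (.dbl 4 8 55)))) (.rp 55 (.thr 34 46 (.thr 51 17 (.thr 12 25 (.thr 6 9 (.thr 22 54 (.thr 41 60 (.dbl 35 19 44))))))) (.rp 51 (.thr 55 4 (.str 37 (.nv (.thr 5 53 (.thr 32 47 (.thr 36 39 (.thr 40 44 (.thr 60 20 (.dbl 41 22 43)))))) (.nv (.thr 5 53 (.thr 15 10 (.thr 32 47 (.thr 48 26 (.thr 33 18 (.dbl 34 35 46)))))) (.nv (.thr 5 53 (.thr 15 10 (.thr 48 26 (.thr 33 18 (.thr 41 45 (.thr 40 43 (.dbl 60 20 22))))))) (.nv (.thr 39 36 (.thr 47 32 (.thr 35 43 (.thr 44 41 (.dbl 46 34 45))))) (.rp 5 (.str 6 (.nv (.thr 22 54 (.thr 32 47 (.thr 34 46 (.thr 33 35 (.dbl 41 45 60))))) (.nv (.thr 22 54 (.thr 60 41 (.dbl 20 23 40))) (.rp 60 (.thr 39 36 (.thr 47 32 (.thr 35 43 (.thr 46 34 (.dbl 44 41 45))))) (.rp 54 (.thr 39 36 (.thr 47 32 (.thr 35 43 (.thr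 46 34 (.dbl 44 41 45))))) (.rp 41 (.thr 22 54 (.thr 36 39 (.thr 20 23 (.thr 32 47 (.dbl 40 44 60))))) (.rp 22 (.thr 39 36 (.thr 47 32 (.thr 35 43 (.thr 46 34 (.dbl 44 41 45))))) .nd))))))) .nd))))))) (.rp 25 (.thr 4 55 (.thr 34 46 (.thr 51 17 (.thr 12 8 (.thr 6 9 (.thr 22 54 (.thr 41 60 (.dbl 35 19 44)))))))) (.rp 12 (.str 35 (.nv (.thr 41 44 (.thr 40 43 (.dbl 60 20 22))) (.nv (.thr 51 19 (.dbl 34 17 46)) (.rp 46 (.str 29 (.nv (.thr 41 44 (.thr 40 43 (.dbl 60 20 22))) (.nv (.thr 17 25 (.dbl 51 19 34)) .nd))) (.rp 29 (.thr 46 34 (.thr 41 44 (.thr 40 43 (.dbl 60 20 22)))) .nd))))) (.rp 8 (.thr 34 46 (.thr 51 17 (.thr 12 25 (.thr 6 9 (.thr 22 54 (.thr 20 23 (.dbl 60 40 41))))))) (.rp 4 (.thr 34 46 (.thr 51 17 (.thr 12 25 (.thr 6 9 (.thr 22 54 (.thr 20 23 (.dbl 60 40 41))))))) .nd))))))))) (.rp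 1 (.str 38 (.nv (.thr 34 46 (.thr 51 17 (.thr 12 25 (.dbl 4 8 55)))) (.nv (.thr 4 55 (.thr 12 8 (.thr 6 9 (.thr 22 54 (.thr 60 41 (.dbl 20 23 40)))))) (.nv (.thr 4 55 (.thr 34 46 (.thr 12 8 (.dbl 51 17 25)))) (.rp 55 (.thr 34 46 (.thr 51 17 (.thr 12 25 (.thr 6 9 (.thr 22 54 (.thr 41 60 (.dbl 35 19 44))))))) (.rp 51 (.thr 55 4 (.str 22 (.nv (.thr 20 23 (.dbl 60 40 41)) (.rp 60 (.thr 62 2 (.thr 46 34 (.thr 14 30 (.thr 50 26 (.dbl 54 6 58))))) (.rp 41 (.thr 6 54 (.thr 2 62 (.thr 34 46 (.thr 50 18 (.dbl 14 10 26))))) (.rp 40 (.thr 6 54 (.thr 2 62 (.thr 34 46 (.thr 50 18 (.dbl 14 10 26))))) (.rp 23 (.thr 6 54 (.thr 2 62 (.thr 34 46 (.thr 50 18 (.dbl 14 10 26))))) (.rp 20 (.thr 6 54 (.thr 2 62 (.thr 34 46 (.thr 50 18 (.dbl 14 10 26))))) (.rp 6 (.str 5 (.nv (.thr 20 23 (.dbl 60 40 41)) (.rp 60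 (.thr 53 37 (.thr 54 52 (.thr 10 15 (.thr 62 2 (.dbl 58 26 50))))) (.rp 41 (.thr 53 37 (.thr 54 52 (.thr 10 15 (.thr 62 2 (.dbl 58 26 50))))) (.rp 40 (.thr 53 37 (.thr 54 52 (.thr 10 15 (.thr 62 2 (.dbl 58 26 50))))) (.rp 23 (.thr 53 37 (.thr 54 52 (.thr 10 15 (.thr 62 2 (.dbl 58 26 50))))) (.rp 20 (.thr 37 53 (.thr 36 39 (.thr 32 47 (.thr 41 60 (.dbl 40 43 44))))) .nd))))))) (.rp 5 (.thr 6 54 (.thr 20 23 (.dbl 60 40 41))) .nd)))))))))) (.rp 25 (.thr 4 55 (.thr 34 46 (.thr 51 17 (.thr 12 8 (.thr 6 9 (.thr 22 54 (.thr 41 60 (.dbl 35 19 44)))))))) (.rp 12 (.str 35 (.nv (.thr 41 44 (.thr 40 43 (.dbl 60 20 22))) (.nv (.thr 51 19 (.dbl 34 17 46)) (.rp 46 (.str 29 (.nv (.thr 41 44 (.thr 40 43 (.dbl 60 20 22))) (.nv (.thr 17 25 (.dbl 51 19 34)) .nd))) (.rp 29 (.thr 46 34 (.thr 41 44 (.thr 40 43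 (.dbl 60 20 22)))) .nd))))) (.rp 8 (.thr 34 46 (.thr 51 17 (.thr 12 25 (.thr 6 9 (.thr 22 54 (.thr 20 23 (.dbl 60 40 41))))))) (.rp 4 (.thr 34 46 (.thr 51 17 (.thr 12 25 (.thr 6 9 (.thr 22 54 (.thr 20 23 (.dbl 60 40 41))))))) .nd)))))))))) .nd))))))))))

theorem w271 : WinAt (4398048608257, 9223372036854841472) :=
  chF (K := []) kn c271 4398048608257 9223372036854841472 63
    [] (by decide +kernel) (by decide +kernel)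

/-- A certificate. -/
noncomputable def c272 : Ct := (.str 60 (.nv (.thr 20 40 (.thr 22 23 (.thr 3 41 (.dbl 2 1 62)))) (.nv (.thr 40 20 (.thr 41 43 (.thr 1 61 (.dbl 3 2 22)))) (.rp 41 (.str 28 (.nv (.thr 20 40 (.thr 22 23 (.thr 25 19 (.thr 8 59 (.dbl 12 4 44))))) (.nv (.thr 20 40 (.thr 16 24 (.thr 26 31 (.thr 10 58 (.thr 15 5 (.dbl 48 32 37)))))) (.nv (.thr 12 44 (.thr 20 40 (.thr 4 8 (.thr 24 16 (.dbl 36 48 52))))) (.rp 40 (.thr 12 44 (.thr 8 4 (.thr 25 59 (.thr 22 19 (.thr 2 62 (.thr 3 1 (.thr 6 9 (.dbl 38 51 54)))))))) (.rp 20 (.thr 12 44 (.thr 8 4 (.thr 25 59 (.thr 22 19 (.thr 2 62 (.thr 3 1 (.thr 6 9 (.dbl 38 51 54)))))))) (.rp 16 (.thr 12 44 (.thr 20 40 (.thr 8 4 (.thr 22 23 (.dbl 25 19 59))))) (.rp 8 (.thr 44 12 (.thr 40 20 (.thr 32 36 (.thr 48 16 (.thr 37 47 (.thr 5 53 (.dbl 15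 10 26))))))) (.rp 4 (.thr 20 40 (.thr 16 24 (.thr 48 32 (.thr 26 31 (.thr 10 58 (.dbl 15 5 37)))))) .nd))))))))) (.rp 40 (.str 37 (.nv (.thr 5 53 (.thr 15 10 (.thr 45 30 (.thr 41 33 (.thr 1 61 (.dbl 3 2 22)))))) (.nv (.thr 5 53 (.thr 32 47 (.thr 15 10 (.dbl 48 16 26)))) (.rp 58 (.thr 32 47 (.thr 48 16 (.thr 5 53 (.dbl 15 10 26)))) (.rp 53 (.thr 32 47 (.thr 48 16 (.thr 15 26 (.thr 45 30 (.thr 41 33 (.thr 1 61 (.dbl 3 2 22))))))) (.rp 48 (.str 44 (.nv (.thr 12 28 (.thr 8 4 (.thr 25 59 (.thr 13 49 (.thr 15 14 (.dbl 5 10 53)))))) (.nv (.thr 47 32 (.thr 46 45 (.thr 38 34 (.thr 35 41 (.dbl 39 36 43))))) (.rp 58 (.thr 53 5 (.thr 12 28 (.thr 4 8 (.thr 38 55 (.thr 46 34 (.dbl 47 32 45)))))) (.rp 53 (.str 58 (.nv (.thr 12 28 (.thr 4 8 (.thr 38 55 (.thr 41 35 (.thr 1 61 (.dbl 3 2 22)))))) (.nv (.thr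 10 26 (.thr 47 32 (.thr 45 46 (.dbl 15 5 30)))) (.rp 12 (.thr 10 26 (.thr 47 32 (.thr 15 5 (.dbl 45 30 46)))) .nd)))) .nd))))) (.rp 15 (.str 3 (.nv (.thr 41 22 (.thr 33 45 (.thr 48 18 (.dbl 32 16 47)))) (.nv (.thr 1 2 (.dbl 41 22 61)) (.rp 47 (.str 31 (.nv (.thr 16 26 (.thr 41 22 (.thr 33 45 (.dbl 48 18 32)))) (.nv (.thr 1 2 (.dbl 41 22 61)) (.rp 41 (.thr 2 1 (.thr 26 16 (.thr 22 62 (.thr 23 20 (.thr 30 18 (.thr 19 27 (.dbl 28 25 29))))))) (.rp 22 (.thr 1 2 (.thr 16 26 (.thr 41 61 (.thr 33 45 (.dbl 48 18 32))))) .nd))))) (.rp 41 (.thr 1 2 (.thr 5 53 (.thr 47 32 (.thr 9 13 (.thr 12 6 (.thr 4 8 (.thr 38 55 (.thr 46 34 (.dbl 44 28 45))))))))) (.rp 31 (.thr 47 32 (.thr 1 2 (.dbl 41 22 61))) (.rp 22 (.thr 1 2 (.thr 41 61 (.thr 33 45 (.thr 48 18 (.dbl 32 16 47))))) .nd))))))) (.rp 10 (.thr 32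 47 (.thr 48 16 (.thr 15 26 (.thr 45 30 (.thr 41 33 (.thr 1 61 (.dbl 3 2 22))))))) (.rp 5 (.thr 32 47 (.thr 48 16 (.thr 15 26 (.thr 45 30 (.thr 41 33 (.thr 1 61 (.dbl 3 2 22))))))) .nd))))))))) (.rp 23 (.thr 40 20 (.thr 41 43 (.thr 3 22 (.dbl 1 2 61)))) (.rp 22 (.str 37 (.nv (.thr 40 20 (.thr 41 43 (.thr 45 33 (.thr 15 30 (.dbl 5 10 53))))) (.nv (.thr 5 53 (.thr 15 10 (.thr 32 47 (.dbl 48 16 26)))) (.rp 53 (.thr 40 20 (.thr 32 47 (.thr 44 36 (.thr 41 43 (.thr 33 45 (.dbl 35 34 38)))))) (.rp 26 (.thr 40 20 (.thr 5 53 (.thr 41 43 (.thr 45 33 (.dbl 15 10 30))))) (.rp 15 (.thr 40 20 (.thr 53 5 (.thr 41 43 (.thr 45 33 (.thr 61 1 (.thr 49 57 (.dbl 13 25 29))))))) (.rp 10 (.thr 40 20 (.thr 32 47 (.thr 44 36 (.thr 41 43 (.thr 33 45 (.dbl 35 34 38)))))) (.rp 5 (.thr 40 20 (.thr 32 47 (.thr 44 36 (.thr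 41 43 (.thr 33 45 (.dbl 35 34 38)))))) .nd)))))))) (.rp 20 (.str 37 (.nv (.thr 5 53 (.thr 15 10 (.thr 45 30 (.thr 41 33 (.thr 1 61 (.dbl 3 2 22)))))) (.nv (.thr 5 53 (.thr 32 47 (.thr 15 10 (.dbl 48 16 26)))) (.rp 58 (.thr 32 47 (.thr 48 16 (.thr 5 53 (.dbl 15 10 26)))) (.rp 53 (.thr 32 47 (.thr 48 16 (.thr 15 26 (.thr 45 30 (.thr 41 33 (.thr 1 61 (.dbl 3 2 22))))))) (.rp 48 (.str 44 (.nv (.thr 12 28 (.thr 8 4 (.thr 25 59 (.thr 13 49 (.thr 15 14 (.dbl 5 10 53)))))) (.nv (.thr 47 32 (.thr 46 45 (.thr 38 34 (.thr 35 41 (.dbl 39 36 43))))) (.rp 58 (.thr 53 5 (.thr 12 28 (.thr 4 8 (.thr 38 55 (.thr 46 34 (.dbl 47 32 45)))))) (.rp 53 (.str 58 (.nv (.thr 12 28 (.thr 4 8 (.thr 38 55 (.thr 41 35 (.thr 1 61 (.dbl 3 2 22)))))) (.nv (.thr 10 26 (.thr 47 32 (.thr 45 46 (.dbl 15 5 30)))) (.rp 12 (.thr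 10 26 (.thr 47 32 (.thr 15 5 (.dbl 45 30 46)))) .nd)))) (.rp 36 (.thr 47 32 (.thr 45 46 (.thr 15 30 (.dbl 5 10 53)))) .nd)))))) (.rp 15 (.thr 47 32 (.str 3 (.nv (.thr 1 2 (.dbl 41 22 61)) (.rp 61 (.thr 2 1 (.dbl 22 41 62)) (.rp 41 (.thr 1 2 (.thr 5 53 (.thr 9 13 (.thr 12 6 (.thr 4 8 (.thr 44 28 (.thr 46 45 (.dbl 38 34 55)))))))) (.rp 22 (.thr 1 2 (.thr 41 61 (.thr 43 40 (.thr 45 33 (.thr 44 46 (.dbl 35 38 39)))))) (.rp 2 (.thr 41 22 (.thr 43 40 (.thr 45 33 (.thr 44 46 (.dbl 35 38 39))))) (.rp 1 (.thr 41 22 (.thr 43 40 (.thr 35 39 (.thr 44 38 (.dbl 45 33 46))))) .nd)))))))) (.rp 10 (.thr 32 47 (.thr 48 16 (.thr 15 26 (.thr 45 30 (.thr 41 33 (.thr 1 61 (.dbl 3 2 22))))))) (.rp 5 (.thr 32 47 (.thr 48 16 (.thr 15 26 (.thr 45 30 (.thr 41 33 (.thr 1 61 (.dbl 3 2 22))))))) .nd))))))))) (.rp 3 (.thr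 40 20 (.thr 43 41 (.str 48 (.nv (.thr 32 16 (.thr 36 44 (.thr 24 12 (.dbl 56 8 52)))) (.nv (.thr 16 32 (.thr 26 31 (.thr 10 58 (.dbl 15 5 37)))) (.rp 32 (.thr 56 52 (.thr 8 24 (.thr 59 25 (.thr 57 58 (.thr 51 54 (.thr 27 11 (.thr 15 39 (.thr 5 10 (.dbl 37 26 53))))))))) (.rp 16 (.thr 56 52 (.thr 24 8 (.thr 36 12 (.thr 32 44 (.thr 37 47 (.thr 5 53 (.dbl 15 10 26))))))) (.rp 15 (.str 11 (.nv (.thr 32 16 (.thr 36 44 (.thr 59 27 (.thr 8 25 (.dbl 12 4 24))))) (.nv (.thr 16 32 (.thr 56 52 (.thr 59 27 (.thr 58 57 (.dbl 26 10 31))))) (.nv (.thr 32 16 (.thr 36 44 (.thr 56 52 (.dbl 24 8 12)))) (.nv (.thr 59 27 (.thr 8 25 (.dbl 56 24 52))) (.rp 47 (.str 31 (.nv (.thr 56 52 (.thr 59 27 (.dbl 8 24 25))) (.nv (.dbl 16 26 32) .nd))) (.rp 31 (.str 47 (.nv (.thr 59 27 (.thr 8 25 (.dbl 56 24 52))) (.nv (.dbl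 32 16 37) .nd))) .nd))))))) (.rp 11 (.str 15 (.nv (.thr 26 37 (.dbl 10 5 58)) (.nv (.thr 16 32 (.dbl 26 31 37)) (.rp 37 (.thr 16 32 (.thr 10 5 (.dbl 26 31 58))) (.rp 26 (.thr 56 52 (.thr 24 8 (.thr 32 16 (.dbl 36 12 44)))) .nd))))) .nd))))))))) (.rp 2 (.str 28 (.nv (.thr 20 40 (.thr 16 24 (.thr 26 31 (.thr 10 58 (.thr 15 5 (.dbl 48 32 37)))))) (.nv (.thr 12 44 (.thr 8 4 (.thr 25 59 (.thr 51 38 (.thr 57 54 (.thr 41 9 (.dbl 22 3 19))))))) (.nv (.thr 12 44 (.thr 20 40 (.thr 4 8 (.thr 24 16 (.dbl 36 48 52))))) (.rp 8 (.thr 44 12 (.thr 40 20 (.thr 32 36 (.thr 48 16 (.thr 37 47 (.thr 5 53 (.dbl 15 10 26))))))) (.rp 4 (.thr 20 40 (.thr 16 24 (.thr 48 32 (.thr 26 31 (.thr 10 58 (.dbl 15 5 37)))))) .nd)))))) (.rp 1 (.thr 40 20 (.thr 41 43 (.thr 3 22 (.str 37 (.nv (.thr 32 47 (.thr 44 36 (.thr 12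 28 (.thr 4 8 (.dbl 38 35 55))))) (.nv (.thr 5 53 (.thr 15 10 (.dbl 45 30 33))) (.nv (.thr 33 45 (.thr 48 18 (.dbl 32 16 47))) (.rp 33 (.str 49 (.nv (.thr 32 47 (.thr 36 44 (.thr 48 16 (.thr 24 12 (.dbl 56 8 52))))) (.nv (.thr 53 5 (.thr 57 61 (.dbl 25 9 13))) .nd))) .nd)))))))) .nd)))))))))))

theorem w272 : WinAt (4398048608257, 9223372036854907008) :=
  chF (K := []) kn c272 4398048608257 9223372036854907008 63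
    [] (by decide +kernel) (by decide +kernel)

/-- A certificate. -/
noncomputable def c273 : Ct := (.str 51 (.nv (.thr 59 55 (.thr 25 8 (.thr 12 38 (.dbl 29 17 46)))) (.nv (.thr 55 59 (.thr 38 4 (.thr 12 25 (.dbl 46 29 34)))) (.rp 59 (.str 61 (.nv (.thr 41 1 (.thr 60 62 (.thr 57 54 (.thr 25 9 (.thr 29 17 (.dbl 12 38 46)))))) (.nv (.thr 60 62 (.thr 41 1 (.thr 43 40 (.dbl 3 22 23)))) (.rp 62 (.thr 41 1 (.thr 43 40 (.thr 3 23 (.thr 35 19 (.thr 38 44 (.thr 46 34 (.dbl 12 25 29))))))) (.rp 60 (.thr 41 1 (.str 3 (.nv (.dbl 43 23 40) (.rp 43 (.thr 35 19 (.thr 38 44 (.thr 46 34 (.dbl 12 25 29)))) (.rp 40 (.str 20 (.nv (.dbl 23 22 43) (.rp 43 (.thr 35 19 (.thr 38 44 (.thr 46 34 (.dbl 12 25 29)))) (.rp 23 (.thr 35 19 (.thr 38 44 (.thr 46 34 (.dbl 12 25 29)))) (.rp 22 (.thr 35 19 (.thr 38 44 (.thr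 46 34 (.dbl 12 25 29)))) .nd))))) (.rp 23 (.thr 35 19 (.thr 38 44 (.thr 46 34 (.dbl 12 25 29)))) (.rp 20 (.thr 40 43 (.thr 35 19 (.thr 38 44 (.thr 46 34 (.dbl 12 25 29))))) .nd))))))) (.rp 41 (.thr 60 62 (.thr 57 54 (.thr 53 49 (.thr 37 5 (.thr 47 32 (.thr 15 31 (.dbl 48 26 58))))))) (.rp 3 (.thr 60 62 (.thr 57 54 (.thr 53 49 (.thr 37 5 (.thr 47 32 (.thr 15 31 (.dbl 48 26 58))))))) (.rp 2 (.thr 60 62 (.thr 41 1 (.thr 3 22 (.dbl 43 23 40)))) (.rp 1 (.thr 60 62 (.thr 57 54 (.thr 53 49 (.thr 37 5 (.thr 47 32 (.thr 15 31 (.dbl 48 26 58))))))) .nd))))))))) (.rp 55 (.str 15 (.nv (.thr 39 27 (.thr 31 47 (.thr 26 16 (.thr 48 37 (.dbl 58 10 53))))) (.nv (.thr 39 27 (.thr 47 31 (.thr 37 32 (.thr 38 36 (.thr 46 34 (.dbl 12 25 29)))))) (.nv (.thr 47 31 (.thr 37 32 (.thr 48 26 (.dbl 53 5 58)))) (.rp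 48 (.thr 39 27 (.thr 47 31 (.thr 43 35 (.thr 41 40 (.thr 61 1 (.thr 60 62 (.dbl 3 22 23))))))) (.rp 47 (.str 23 (.nv (.thr 22 20 (.thr 62 2 (.thr 60 61 (.dbl 3 41 43)))) (.nv (.thr 27 39 (.thr 19 31 (.dbl 3 35 43))) (.rp 43 (.thr 22 20 (.thr 62 2 (.thr 60 61 (.thr 54 57 (.thr 38 6 (.thr 12 25 (.dbl 46 29 34))))))) (.rp 3 (.thr 27 39 (.thr 19 31 (.thr 22 20 (.thr 25 28 (.thr 29 17 (.dbl 12 38 46)))))) .nd))))) (.rp 39 (.str 23 (.nv (.thr 47 31 (.thr 37 32 (.thr 48 26 (.dbl 53 5 58)))) (.nv (.thr 22 20 (.thr 62 2 (.thr 60 61 (.dbl 3 41 43)))) (.nv (.thr 31 47 (.thr 19 27 (.dbl 3 35 43))) .nd)))) (.rp 37 (.thr 39 27 (.thr 47 31 (.thr 43 35 (.thr 41 40 (.thr 61 1 (.thr 60 62 (.dbl 3 22 23))))))) (.rp 31 (.thr 39 27 (.str 43 (.nv (.thr 41 40 (.thr 61 1 (.thr 60 62 (.dbl 3 22 23)))) (.nv (.thr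 35 47 (.dbl 3 19 23)) (.rp 23 (.str 19 (.nv (.dbl 35 3 47) (.rp 47 (.thr 3 35 (.thr 41 40 (.thr 61 1 (.dbl 60 22 62)))) (.rp 35 (.thr 41 40 (.thr 61 1 (.thr 60 62 (.thr 57 54 (.thr 25 9 (.dbl 22 3 28)))))) (.rp 3 (.thr 47 35 (.thr 37 32 (.thr 53 5 (.dbl 48 26 58)))) .nd))))) (.rp 19 (.thr 23 3 (.thr 47 35 (.thr 37 32 (.thr 53 5 (.dbl 48 26 58))))) (.rp 3 (.thr 47 35 (.thr 37 32 (.thr 53 5 (.dbl 48 26 58)))) .nd))))))) .nd))))))))) (.rp 46 (.str 3 (.nv (.thr 35 19 (.thr 43 23 (.thr 39 47 (.thr 27 15 (.dbl 59 11 55))))) (.nv (.thr 23 43 (.thr 22 20 (.thr 60 41 (.dbl 62 2 61)))) (.rp 43 (.thr 19 35 (.thr 59 55 (.thr 25 8 (.thr 22 28 (.thr 62 2 (.dbl 60 41 61)))))) (.rp 23 (.thr 35 19 (.thr 55 59 (.thr 38 4 (.thr 41 44 (.thr 61 1 (.dbl 60 22 62)))))) .nd))))) (.rp 38 (.str 23 (.nv (.thr 43 3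 (.thr 59 55 (.thr 27 11 (.thr 15 39 (.dbl 31 19 47))))) (.nv (.thr 3 43 (.thr 22 20 (.thr 60 41 (.dbl 62 2 61)))) (.rp 43 (.thr 55 59 (.thr 22 20 (.thr 62 2 (.thr 60 61 (.thr 54 57 (.thr 53 52 (.dbl 58 48 50))))))) (.rp 3 (.thr 59 55 (.thr 22 20 (.thr 25 8 (.thr 29 17 (.thr 12 46 (.thr 19 28 (.thr 27 31 (.thr 15 39 (.thr 13 14 (.thr 37 49 (.dbl 26 24 48))))))))))) (.rp 2 (.thr 3 43 (.thr 19 35 (.thr 59 55 (.thr 22 20 (.dbl 25 8 28))))) .nd)))))) (.rp 29 (.str 3 (.nv (.thr 35 19 (.thr 43 23 (.thr 39 47 (.thr 27 15 (.dbl 59 11 55))))) (.nv (.thr 23 43 (.thr 22 20 (.thr 60 41 (.dbl 62 2 61)))) (.rp 43 (.thr 35 19 (.thr 55 59 (.thr 38 4 (.thr 41 44 (.thr 61 1 (.dbl 60 22 62)))))) (.rp 23 (.thr 35 19 (.thr 55 59 (.thr 38 4 (.thr 41 44 (.thr 61 1 (.dbl 60 22 62)))))) .nd))))) (.rp 25 (.str 3 (.nv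 (.thr 35 19 (.thr 55 59 (.thr 38 4 (.thr 41 44 (.thr 61 1 (.dbl 60 22 62)))))) (.nv (.thr 35 19 (.thr 43 23 (.thr 39 47 (.thr 27 15 (.dbl 59 11 55))))) (.nv (.thr 23 43 (.thr 22 20 (.thr 60 41 (.dbl 62 2 61)))) (.rp 22 (.thr 43 23 (.thr 55 59 (.thr 41 40 (.thr 38 4 (.dbl 35 19 44))))) .nd))))) (.rp 12 (.thr 55 59 (.thr 4 38 (.str 22 (.nv (.thr 62 2 (.thr 60 61 (.thr 54 57 (.thr 53 52 (.dbl 58 48 50))))) (.nv (.thr 20 23 (.thr 52 36 (.thr 54 53 (.thr 60 57 (.dbl 62 2 61))))) (.nv (.thr 62 2 (.thr 23 20 (.thr 60 61 (.dbl 3 41 43)))) (.rp 62 (.thr 20 23 (.thr 52 36 (.thr 53 54 (.thr 37 5 (.thr 47 32 (.thr 15 31 (.dbl 48 26 58))))))) (.rp 61 (.thr 62 2 (.thr 23 20 (.thr 3 43 (.thr 60 41 (.thr 54 57 (.thr 53 52 (.dbl 58 48 50))))))) (.rp 60 (.thr 20 23 (.thr 52 36 (.thr 53 54 (.thr 48 58 (.thr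 37 5 (.thr 15 26 (.dbl 47 31 32))))))) (.rp 2 (.thr 20 23 (.thr 52 36 (.thr 54 53 (.thr 60 57 (.thr 61 62 (.dbl 41 1 3)))))) .nd)))))))))) .nd))))))))))

theorem w273 : WinAt (9223376434903384064, 262273) :=
  chF (K := []) kn c273 9223376434903384064 262273 0
    [] (by decide +kernel) (by decide +kernel)

/-- A certificate. -/
noncomputable def c274 : Ct := (.str 60 (.nv (.thr 61 62 (.thr 41 1 (.thr 3 22 (.dbl 43 23 40)))) (.nv (.thr 62 61 (.thr 22 2 (.thr 3 41 (.dbl 23 20 43)))) (.rp 62 (.str 59 (.nv (.thr 25 8 (.thr 29 17 (.thr 12 46 (.dbl 51 38 55)))) (.nv (.thr 25 8 (.thr 51 55 (.thr 57 54 (.thr 41 9 (.thr 43 40 (.dbl 3 22 23)))))) (.nv (.thr 51 55 (.thr 25 8 (.thr 12 38 (.dbl 29 17 46)))) (.rp 55 (.thr 25 8 (.thr 29 17 (.thr 12 46 (.thr 51 38 (.thr 57 54 (.thr 41 9 (.thr 43 40 (.dbl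 3 22 23)))))))) (.rp 51 (.thr 25 8 (.thr 17 29 (.str 3 (.nv (.thr 23 43 (.dbl 22 20 41)) (.rp 43 (.thr 41 22 (.thr 61 1 (.thr 57 9 (.thr 58 56 (.dbl 53 48 49))))) (.rp 41 (.thr 43 23 (.thr 27 11 (.thr 26 24 (.thr 31 16 (.thr 15 47 (.thr 48 37 (.dbl 58 10 53))))))) (.rp 23 (.thr 41 22 (.thr 43 40 (.thr 57 9 (.thr 56 58 (.dbl 11 26 27))))) (.rp 22 (.thr 43 23 (.thr 41 40 (.thr 57 9 (.thr 56 58 (.dbl 11 26 27))))) (.rp 20 (.thr 43 23 (.dbl 41 22 40)) (.rp 12 (.str 4 (.nv (.thr 23 43 (.dbl 22 20 41)) (.rp 43 (.thr 41 22 (.thr 9 57 (.thr 1 61 (.thr 13 5 (.dbl 49 33 37))))) (.rp 41 (.thr 23 43 (.thr 20 22 (.thr 55 38 (.thr 52 36 (.thr 48 56 (.dbl 53 54 58)))))) (.rp 23 (.thr 41 22 (.thr 9 57 (.thr 1 61 (.thr 13 5 (.dbl 49 33 37))))) (.rp 22 (.thr 43 23 (.thr 41 40 (.thr 57 9 (.thr 56 58 (.dbl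 11 26 27))))) (.rp 20 (.thr 43 23 (.dbl 41 22 40)) .nd))))))) (.rp 4 (.str 12 (.nv (.thr 41 22 (.dbl 9 6 57)) (.nv (.thr 23 43 (.dbl 22 20 41)) (.rp 41 (.thr 28 44 (.thr 23 43 (.thr 20 22 (.thr 24 16 (.thr 26 27 (.thr 58 10 (.dbl 48 36 53))))))) (.rp 22 (.thr 43 23 (.thr 41 40 (.dbl 9 6 57))) (.rp 6 (.str 5 (.nv (.thr 37 53 (.thr 13 49 (.thr 15 14 (.dbl 47 31 32)))) (.nv (.thr 23 43 (.dbl 22 20 41)) .nd))) (.rp 5 (.thr 6 9 (.thr 43 23 (.dbl 41 22 40))) .nd))))))) .nd))))))))))) (.rp 25 (.thr 51 55 (.thr 57 54 (.thr 58 56 (.thr 26 10 (.thr 31 16 (.thr 15 47 (.dbl 48 37 53))))))) (.rp 12 (.thr 51 55 (.thr 57 54 (.thr 58 56 (.thr 53 48 (.thr 49 61 (.thr 37 5 (.dbl 25 8 13))))))) (.rp 8 (.thr 51 55 (.thr 57 54 (.thr 58 56 (.thr 26 10 (.thr 31 16 (.thr 15 47 (.dbl 48 37 53))))))) .nd)))))))))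 (.rp 61 (.str 48 (.nv (.thr 56 52 (.thr 58 53 (.thr 26 10 (.thr 41 11 (.thr 43 40 (.dbl 3 22 23)))))) (.nv (.thr 53 58 (.thr 37 5 (.thr 15 26 (.dbl 47 31 32)))) (.rp 58 (.str 55 (.nv (.thr 38 4 (.thr 46 34 (.thr 12 29 (.dbl 51 25 59)))) (.nv (.thr 52 56 (.thr 54 53 (.dbl 51 57 59))) (.rp 59 (.thr 38 4 (.thr 46 34 (.thr 12 29 (.thr 36 24 (.thr 37 39 (.thr 32 47 (.dbl 44 28 40))))))) (.rp 51 (.thr 52 56 (.thr 53 54 (.thr 37 5 (.thr 47 32 (.dbl 15 26 31))))) .nd))))) (.rp 53 (.thr 52 56 (.str 51 (.nv (.thr 49 50 (.thr 59 55 (.thr 25 8 (.thr 37 13 (.thr 47 32 (.dbl 15 26 31)))))) (.nv (.thr 57 54 (.thr 55 59 (.thr 38 4 (.thr 46 34 (.dbl 12 25 29))))) (.rp 59 (.thr 49 50 (.thr 57 54 (.str 22 (.nv (.thr 41 3 (.thr 25 9 (.thr 12 38 (.dbl 29 17 46)))) (.nv (.thr 23 20 (.dbl 3 41 43)) (.rp 62 (.str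 58 (.nv (.thr 26 10 (.thr 15 37 (.dbl 30 18 45))) (.nv (.thr 23 20 (.dbl 3 41 43)) .nd))) (.rp 58 (.thr 62 2 (.thr 23 20 (.dbl 3 41 43))) (.rp 41 (.thr 20 23 (.thr 36 4 (.thr 12 24 (.thr 25 38 (.dbl 29 17 46))))) (.rp 3 (.thr 20 23 (.thr 36 4 (.thr 12 24 (.thr 25 38 (.dbl 29 17 46))))) .nd))))))))) (.rp 55 (.str 23 (.nv (.thr 22 20 (.dbl 3 41 43)) (.rp 57 (.thr 49 50 (.thr 22 20 (.dbl 3 41 43))) (.rp 49 (.thr 57 54 (.thr 22 20 (.dbl 3 41 43))) (.rp 43 (.thr 20 22 (.thr 36 4 (.thr 12 24 (.thr 25 38 (.dbl 29 17 46))))) (.rp 41 (.thr 20 22 (.thr 36 4 (.thr 12 24 (.thr 25 38 (.dbl 29 17 46))))) (.rp 22 (.thr 57 54 (.thr 43 3 (.thr 41 40 (.thr 25 9 (.thr 29 17 (.dbl 12 38 46)))))) (.rp 20 (.thr 3 43 (.thr 18 33 (.thr 22 41 (.thr 2 62 (.dbl 50 34 49))))) (.rp 3 (.thr 20 22 (.thr 36 4 (.thr 12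 24 (.thr 25 38 (.dbl 29 17 46))))) .nd))))))))) (.rp 29 (.thr 57 54 (.thr 59 55 (.thr 25 8 (.thr 41 9 (.thr 3 22 (.dbl 43 23 40)))))) (.rp 25 (.thr 50 49 (.thr 57 54 (.thr 55 59 (.thr 38 4 (.thr 26 14 (.thr 31 16 (.dbl 15 37 47))))))) (.rp 12 (.thr 55 59 (.thr 4 38 (.thr 20 36 (.thr 22 23 (.thr 2 62 (.thr 3 41 (.thr 18 33 (.dbl 50 34 49)))))))) (.rp 8 (.thr 55 59 (.thr 38 4 (.thr 12 25 (.dbl 46 29 34)))) (.rp 4 (.thr 59 55 (.thr 25 8 (.thr 12 38 (.dbl 29 17 46)))) .nd))))))))))) (.rp 37 (.thr 52 56 (.thr 53 58 (.thr 55 54 (.thr 38 4 (.thr 46 34 (.thr 12 29 (.dbl 51 25 59))))))) (.rp 26 (.thr 52 56 (.thr 53 58 (.thr 55 54 (.thr 38 4 (.thr 46 34 (.thr 12 29 (.dbl 51 25 59))))))) (.rp 15 (.thr 52 56 (.thr 53 58 (.thr 55 54 (.thr 38 4 (.thr 46 34 (.thr 12 29 (.dbl 51 25 59))))))) (.rp 5 (.thr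 58 53 (.thr 26 10 (.thr 15 37 (.dbl 31 16 47)))) .nd))))))))) (.rp 43 (.str 48 (.nv (.thr 52 56 (.thr 53 58 (.thr 54 55 (.thr 57 51 (.dbl 61 49 62))))) (.nv (.thr 53 58 (.thr 37 5 (.thr 15 26 (.dbl 47 31 32)))) (.rp 58 (.thr 56 52 (.thr 61 62 (.thr 41 1 (.thr 26 11 (.thr 31 16 (.dbl 15 37 47)))))) (.rp 53 (.thr 56 52 (.thr 61 62 (.thr 41 1 (.thr 26 11 (.thr 31 16 (.dbl 15 37 47)))))) .nd))))) (.rp 41 (.str 48 (.nv (.thr 53 58 (.thr 61 62 (.thr 57 49 (.thr 54 51 (.dbl 52 55 56))))) (.nv (.thr 53 58 (.thr 37 5 (.thr 47 32 (.dbl 15 26 31)))) (.rp 58 (.thr 52 56 (.thr 62 61 (.thr 22 2 (.thr 20 23 (.thr 4 36 (.thr 55 38 (.thr 54 53 (.dbl 51 57 59)))))))) (.rp 53 (.thr 62 61 (.thr 22 2 (.thr 23 20 (.thr 3 43 (.thr 18 33 (.thr 26 30 (.thr 31 16 (.dbl 15 37 47)))))))) .nd))))) (.rp 23 (.thr 62 61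 (.thr 22 2 (.thr 3 41 (.str 55 (.nv (.thr 38 4 (.thr 46 34 (.thr 12 29 (.dbl 51 25 59)))) (.nv (.thr 38 4 (.thr 6 54 (.thr 12 9 (.dbl 46 29 34)))) (.nv (.thr 51 59 (.thr 54 57 (.thr 53 52 (.dbl 58 48 50)))) (.nv (.thr 51 59 (.thr 38 4 (.dbl 54 6 57))) (.rp 31 (.str 27 (.nv (.thr 38 4 (.thr 46 34 (.thr 12 29 (.dbl 51 25 59)))) (.nv (.thr 38 4 (.thr 6 54 (.thr 12 9 (.dbl 46 29 34)))) (.nv (.thr 51 59 (.thr 54 57 (.thr 53 52 (.dbl 58 48 50)))) (.nv (.thr 51 59 (.thr 38 4 (.dbl 54 6 57))) .nd))))) (.rp 27 (.str 31 (.nv (.thr 51 59 (.thr 38 4 (.dbl 54 6 57))) (.nv (.thr 26 16 (.thr 15 47 (.dbl 30 18 45))) .nd))) .nd)))))))))) (.rp 22 (.thr 61 62 (.str 37 (.nv (.thr 41 1 (.thr 45 33 (.thr 15 30 (.dbl 47 31 32)))) (.nv (.thr 53 5 (.thr 48 58 (.thr 47 32 (.dbl 15 26 31)))) (.nv (.thr 1 41 (.thr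 5 53 (.thr 13 9 (.thr 25 49 (.dbl 29 17 45))))) (.rp 28 (.str 25 (.nv (.thr 53 5 (.thr 57 49 (.dbl 41 1 9))) (.nv (.thr 13 49 (.dbl 29 17 45)) (.rp 49 (.thr 29 17 (.thr 45 13 (.dbl 41 1 33))) .nd)))) (.rp 25 (.str 28 (.nv (.thr 1 41 (.thr 53 5 (.thr 48 58 (.thr 52 56 (.thr 54 55 (.dbl 57 49 51)))))) (.nv (.thr 12 44 (.thr 29 46 (.thr 45 13 (.dbl 30 15 31)))) (.rp 15 (.thr 12 44 (.thr 29 46 (.thr 45 13 (.dbl 41 1 33)))) .nd)))) .nd))))))) (.rp 3 (.thr 61 62 (.thr 1 41 (.str 51 (.nv (.thr 57 54 (.thr 53 49 (.thr 37 5 (.thr 47 32 (.thr 15 31 (.dbl 48 26 58)))))) (.nv (.thr 57 54 (.thr 53 49 (.thr 58 48 (.dbl 59 55 56)))) (.nv (.thr 55 59 (.thr 38 4 (.thr 46 34 (.dbl 12 25 29)))) (.rp 15 (.str 11 (.nv (.thr 57 54 (.thr 59 55 (.thr 53 49 (.dbl 58 48 56)))) (.nv (.thr 55 59 (.thr 38 4 (.thr 46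 34 (.dbl 12 25 29)))) (.rp 59 (.thr 57 54 (.thr 49 53 (.thr 17 33 (.thr 25 29 (.thr 37 13 (.thr 32 47 (.thr 12 38 (.thr 44 28 (.thr 36 40 (.dbl 48 24 50)))))))))) (.rp 55 (.thr 57 54 (.thr 53 49 (.thr 58 48 (.thr 59 56 (.thr 8 25 (.dbl 10 9 26)))))) (.rp 10 (.str 5 (.nv (.thr 55 59 (.thr 38 4 (.thr 46 34 (.dbl 12 25 29)))) (.nv (.thr 57 54 (.dbl 53 37 49)) .nd))) (.rp 5 (.str 10 (.nv (.thr 57 54 (.thr 53 49 (.dbl 58 26 48))) (.nv (.thr 8 9 (.dbl 59 25 55)) (.rp 57 (.thr 59 55 (.dbl 8 9 25)) (.rp 6 (.str 4 (.nv (.thr 57 54 (.thr 53 49 (.dbl 58 26 48))) (.nv (.dbl 55 38 59) (.rp 38 (.thr 59 55 (.dbl 8 9 25)) (.rp 12 (.thr 9 8 (.dbl 55 38 59)) (.rp 9 (.str 12 (.nv (.thr 25 38 (.dbl 29 17 46)) (.nv (.dbl 38 25 55) (.rp 38 (.thr 59 55 (.thr 29 46 (.dbl 25 8 17))) (.rp 25 (.thr 57 54 (.dbl 55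 38 59)) .nd))))) .nd)))))) (.rp 4 (.str 6 (.nv (.thr 57 54 (.thr 53 49 (.dbl 58 26 48))) (.nv (.thr 8 9 (.dbl 59 25 55)) (.rp 57 (.thr 59 55 (.dbl 8 9 25)) (.rp 8 (.str 12 (.nv (.thr 57 54 (.thr 53 49 (.dbl 58 26 48))) (.nv (.thr 46 29 (.dbl 38 25 34)) .nd))) .nd))))) .nd)))))) .nd))))))) (.rp 11 (.str 15 (.nv (.thr 45 30 (.thr 29 13 (.thr 25 17 (.dbl 12 38 46)))) (.nv (.thr 57 54 (.thr 53 49 (.thr 37 5 (.dbl 48 26 58)))) (.rp 56 (.str 26 (.nv (.thr 48 37 (.dbl 58 10 53)) (.nv (.dbl 31 16 47) .nd))) (.rp 26 (.str 56 (.nv (.thr 45 30 (.thr 29 13 (.thr 25 17 (.dbl 12 38 46)))) (.nv (.thr 57 54 (.dbl 59 55 58)) .nd))) .nd))))) .nd)))))))) .nd))))))))))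

theorem w274 : WinAt (9223376434903384064, 524417) :=
  chF (K := []) kn c274 9223376434903384064 524417 0
    [] (by decide +kernel) (by decide +kernel)

/-- A certificate. -/
noncomputable def c275 : Ct := (.str 48 (.nv (.thr 32 16 (.thr 37 47 (.thr 15 26 (.dbl 5 10 53)))) (.nv (.thr 16 32 (.thr 26 31 (.thr 10 58 (.dbl 15 5 37)))) (.rp 47 (.thr 16 32 (.thr 26 31 (.thr 15 37 (.dbl 10 5 58)))) (.rp 37 (.str 22 (.nv (.thr 16 32 (.thr 26 31 (.thr 18 30 (.thr 17 19 (.thr 34 51 (.dbl 2 50 62)))))) (.nv (.thr 2 62 (.thr 3 1 (.thr 18 33 (.thr 34 50 (.thr 17 51 (.thr 19 16 (.dbl 25 28 29))))))) (.nv (.thr 16 32 (.thr 26 31 (.thr 2 62 (.thr 3 1 (.dbl 18 30 33))))) (.rp 62 (.thr 16 32 (.thr 26 31 (.thr 18 30 (.thr 3 33 (.thr 1 2 (.dbl 41 60 61)))))) (.rp 18 (.thr 16 32 (.thr 62 2 (.thr 26 31 (.thr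 58 10 (.thr 50 54 (.thr 51 49 (.thr 34 17 (.dbl 38 14 46)))))))) (.rp 16 (.thr 2 62 (.thr 3 1 (.thr 18 33 (.thr 26 30 (.thr 10 58 (.thr 50 34 (.dbl 14 6 38))))))) (.rp 3 (.thr 16 32 (.thr 2 62 (.thr 26 31 (.thr 18 30 (.thr 34 50 (.dbl 17 19 51)))))) (.rp 2 (.thr 16 32 (.thr 26 31 (.thr 18 30 (.thr 17 19 (.thr 51 34 (.thr 49 50 (.dbl 33 1 3))))))) .nd))))))))) (.rp 32 (.str 17 (.nv (.thr 25 29 (.thr 8 59 (.thr 12 4 (.dbl 51 34 38)))) (.nv (.thr 25 29 (.thr 51 34 (.thr 49 50 (.thr 37 13 (.thr 5 53 (.dbl 15 10 26)))))) (.nv (.thr 51 34 (.thr 25 29 (.thr 12 38 (.dbl 8 4 59)))) (.rp 51 (.str 3 (.nv (.thr 33 18 (.dbl 1 2 49)) (.rp 59 (.str 55 (.nv (.thr 33 18 (.dbl 1 2 49)) (.rp 49 (.thr 18 33 (.thr 2 1 (.thr 34 50 (.dbl 38 4 46)))) (.rp 33 (.thr 2 1 (.thr 38 4 (.thr 22 62 (.thr 60 41 (.thr 52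 56 (.dbl 54 6 53)))))) (.rp 18 (.thr 2 1 (.thr 38 4 (.thr 22 62 (.thr 60 41 (.thr 52 56 (.dbl 54 6 53)))))) (.rp 2 (.thr 18 33 (.thr 16 19 (.thr 26 31 (.thr 10 58 (.dbl 15 5 37))))) (.rp 1 (.thr 18 33 (.thr 16 19 (.thr 26 31 (.thr 10 58 (.dbl 15 5 37))))) .nd))))))) (.rp 55 (.str 59 (.nv (.thr 1 2 (.dbl 33 18 49)) (.nv (.dbl 25 8 29) (.rp 39 (.str 23 (.nv (.thr 1 2 (.dbl 33 18 49)) (.nv (.dbl 25 8 29) (.rp 27 (.str 15 (.nv (.thr 1 2 (.dbl 33 18 49)) (.nv (.dbl 25 8 29) .nd))) (.rp 15 (.str 27 (.nv (.thr 31 19 (.thr 1 2 (.dbl 33 18 49))) (.nv (.dbl 25 8 29) (.rp 31 (.str 47 (.nv (.thr 1 2 (.dbl 33 18 49)) (.nv (.dbl 25 8 29) .nd))) .nd)))) .nd))))) (.rp 23 (.str 39 (.nv (.thr 1 2 (.dbl 33 18 49)) (.nv (.dbl 25 8 29) .nd))) .nd))))) (.rp 49 (.thr 18 33 (.thr 19 16 (.thr 2 1 (.thr 22 62 (.dbl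 25 28 29))))) (.rp 33 (.thr 1 2 (.thr 41 61 (.thr 25 29 (.thr 9 57 (.thr 12 6 (.dbl 8 4 59)))))) (.rp 18 (.thr 1 2 (.thr 49 33 (.thr 41 61 (.thr 25 29 (.thr 9 57 (.dbl 13 5 37)))))) (.rp 2 (.thr 18 33 (.thr 16 19 (.thr 26 31 (.thr 10 58 (.dbl 15 5 37))))) (.rp 1 (.thr 18 33 (.thr 16 19 (.thr 26 31 (.thr 10 58 (.dbl 15 5 37))))) .nd))))))))) (.rp 34 (.thr 25 29 (.thr 8 59 (.thr 12 4 (.thr 51 38 (.thr 49 50 (.thr 37 13 (.thr 5 53 (.dbl 15 10 26)))))))) (.rp 29 (.thr 51 34 (.thr 49 50 (.thr 33 1 (.thr 18 3 (.thr 16 19 (.thr 26 31 (.thr 10 58 (.dbl 15 5 37)))))))) (.rp 25 (.thr 51 34 (.thr 49 50 (.thr 33 1 (.thr 18 3 (.thr 16 19 (.thr 26 31 (.thr 10 58 (.dbl 15 5 37)))))))) (.rp 12 (.thr 51 34 (.thr 49 50 (.thr 33 1 (.thr 18 3 (.thr 16 19 (.thr 26 31 (.thr 10 58 (.dbl 15 5 37)))))))) .nd)))))))))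 (.rp 26 (.str 51 (.nv (.thr 16 32 (.thr 17 34 (.thr 18 19 (.thr 33 3 (.dbl 49 1 50))))) (.nv (.thr 17 34 (.thr 25 29 (.thr 8 59 (.dbl 12 4 38)))) (.rp 34 (.thr 49 50 (.thr 32 16 (.thr 37 47 (.thr 25 13 (.thr 8 59 (.dbl 12 4 38)))))) (.rp 17 (.thr 49 50 (.thr 32 16 (.thr 37 47 (.thr 25 13 (.thr 8 59 (.dbl 12 4 38)))))) .nd))))) (.rp 16 (.str 17 (.nv (.thr 25 29 (.thr 51 34 (.thr 49 50 (.thr 37 13 (.thr 5 53 (.dbl 15 10 26)))))) (.nv (.thr 51 34 (.thr 25 29 (.thr 12 38 (.dbl 8 4 59)))) (.rp 51 (.thr 25 29 (.str 24 (.nv (.thr 26 27 (.thr 10 58 (.dbl 15 5 37))) (.nv (.thr 12 36 (.dbl 8 4 59)) (.rp 59 (.str 55 (.nv (.thr 26 27 (.thr 10 58 (.dbl 15 5 37))) (.nv (.thr 12 36 (.dbl 4 8 38)) (.rp 12 (.str 46 (.nv (.thr 26 27 (.thr 10 58 (.dbl 15 5 37))) (.nv (.dbl 38 4 34) .nd))) .nd)))) (.rp 55 (.thr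 59 8 (.thr 26 27 (.thr 10 58 (.dbl 15 5 37)))) (.rp 12 (.str 46 (.nv (.thr 59 8 (.thr 26 27 (.thr 15 37 (.dbl 10 5 58)))) (.nv (.thr 26 27 (.thr 10 58 (.dbl 15 5 37))) (.rp 59 (.str 55 (.nv (.thr 26 27 (.thr 10 58 (.dbl 15 5 37))) (.nv (.dbl 38 4 34) .nd))) (.rp 58 (.thr 38 34 (.thr 26 27 (.thr 14 50 (.thr 62 30 (.thr 2 22 (.thr 10 6 (.dbl 15 5 37))))))) (.rp 37 (.thr 38 34 (.thr 26 27 (.thr 10 58 (.thr 14 50 (.thr 62 30 (.dbl 2 6 22)))))) (.rp 27 (.thr 38 34 (.str 37 (.nv (.thr 39 36 (.thr 47 32 (.thr 35 43 (.dbl 44 41 45)))) (.nv (.thr 15 26 (.dbl 5 10 53)) (.rp 59 (.thr 55 4 (.thr 5 53 (.dbl 15 10 26))) (.rp 55 (.thr 59 8 (.thr 5 53 (.dbl 15 10 26))) .nd)))))) (.rp 26 (.thr 38 34 (.thr 8 59 (.thr 55 4 (.thr 40 56 (.thr 41 43 (.thr 1 61 (.thr 33 49 (.dbl 3 2 18)))))))) (.rp 15 (.thr 38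 34 (.thr 8 59 (.thr 55 4 (.thr 40 56 (.thr 41 43 (.thr 1 61 (.thr 33 49 (.dbl 3 2 18)))))))) (.rp 10 (.thr 38 34 (.thr 26 27 (.thr 37 15 (.thr 39 36 (.thr 47 32 (.thr 44 45 (.dbl 35 41 43))))))) (.rp 5 (.thr 38 34 (.thr 26 27 (.thr 10 58 (.thr 14 50 (.thr 62 30 (.dbl 2 6 22)))))) .nd))))))))))) .nd))))))) (.rp 34 (.thr 25 29 (.thr 8 59 (.thr 12 4 (.thr 51 38 (.thr 49 50 (.thr 37 13 (.thr 5 53 (.dbl 15 10 26)))))))) (.rp 29 (.thr 51 34 (.thr 49 50 (.thr 1 33 (.thr 61 41 (.thr 53 57 (.thr 37 5 (.thr 25 13 (.thr 8 59 (.dbl 12 4 38))))))))) (.rp 28 (.str 24 (.nv (.thr 25 29 (.thr 26 27 (.thr 10 58 (.dbl 15 5 37)))) (.nv (.thr 12 36 (.thr 4 8 (.thr 34 51 (.dbl 38 46 55)))) (.nv (.thr 51 34 (.thr 25 29 (.dbl 12 36 38))) (.rp 12 (.thr 34 51 (.thr 25 29 (.thr 46 38 (.thr 26 27 (.thr 10 58 (.dbl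 15 5 37)))))) .nd))))) (.rp 25 (.thr 51 34 (.thr 49 50 (.thr 1 33 (.thr 2 3 (.thr 61 41 (.thr 57 53 (.thr 22 62 (.thr 54 60 (.thr 6 38 (.thr 10 14 (.thr 26 58 (.dbl 15 5 37)))))))))))) (.rp 24 (.str 28 (.nv (.thr 25 29 (.thr 19 22 (.thr 51 34 (.thr 3 35 (.thr 1 2 (.dbl 33 18 49)))))) (.nv (.thr 51 34 (.thr 25 29 (.thr 12 38 (.dbl 8 4 59)))) (.rp 51 (.thr 25 29 (.thr 22 19 (.thr 2 62 (.thr 3 1 (.thr 60 41 (.thr 12 44 (.dbl 8 4 59))))))) (.rp 34 (.thr 25 29 (.thr 8 59 (.thr 12 4 (.thr 60 44 (.thr 22 19 (.thr 2 62 (.dbl 3 1 41))))))) (.rp 29 (.thr 51 34 (.thr 49 50 (.thr 1 33 (.thr 2 3 (.thr 22 62 (.thr 25 19 (.thr 8 59 (.dbl 12 4 38)))))))) (.rp 25 (.thr 51 34 (.thr 49 50 (.thr 1 33 (.thr 61 41 (.thr 57 53 (.thr 54 60 (.thr 2 3 (.thr 22 62 (.thr 6 38 (.thr 10 14 (.thr 26 58 (.dbl 15 5 37))))))))))))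 (.rp 12 (.thr 51 34 (.thr 49 50 (.thr 1 33 (.thr 2 3 (.thr 22 62 (.dbl 25 19 29)))))) .nd)))))))) (.rp 12 (.thr 51 34 (.thr 49 50 (.thr 1 33 (.thr 61 41 (.thr 53 57 (.thr 37 5 (.dbl 25 13 29))))))) .nd)))))))))) (.rp 15 (.str 3 (.nv (.thr 1 2 (.thr 33 18 (.thr 17 49 (.thr 25 29 (.thr 8 59 (.thr 12 4 (.dbl 51 34 38))))))) (.nv (.thr 1 2 (.thr 32 16 (.thr 41 61 (.thr 40 43 (.thr 44 36 (.thr 35 38 (.dbl 33 18 34))))))) (.nv (.thr 18 33 (.thr 2 1 (.thr 34 50 (.thr 16 32 (.dbl 17 19 51))))) (.rp 47 (.str 31 (.nv (.dbl 16 26 32) (.rp 32 (.thr 2 1 (.thr 18 33 (.thr 26 16 (.dbl 22 30 62)))) (.rp 26 (.thr 1 2 (.thr 33 18 (.thr 17 49 (.thr 32 16 (.dbl 34 35 51))))) (.rp 16 (.thr 1 2 (.thr 33 18 (.thr 17 49 (.thr 34 51 (.thr 35 32 (.thr 41 61 (.dbl 38 44 46))))))) .nd))))) (.rp 34 (.thr 18 33 (.thr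 2 1 (.thr 22 62 (.thr 26 30 (.dbl 16 31 32))))) (.rp 33 (.thr 1 2 (.thr 32 16 (.thr 47 37 (.thr 41 61 (.thr 40 43 (.thr 44 36 (.thr 38 35 (.dbl 46 34 45)))))))) (.rp 31 (.str 47 (.nv (.dbl 32 16 37) (.rp 37 (.thr 2 1 (.thr 18 33 (.thr 34 50 (.thr 16 32 (.dbl 17 19 51))))) (.rp 32 (.thr 2 1 (.thr 18 33 (.thr 34 50 (.thr 17 51 (.thr 19 16 (.thr 22 62 (.dbl 25 28 29))))))) (.rp 16 (.thr 1 2 (.thr 33 18 (.thr 37 32 (.dbl 41 45 61)))) .nd))))) (.rp 18 (.thr 1 2 (.thr 32 16 (.thr 47 37 (.thr 41 61 (.thr 43 40 (.thr 35 39 (.thr 34 33 (.dbl 51 17 19)))))))) (.rp 2 (.thr 18 33 (.thr 16 32 (.thr 17 19 (.thr 25 29 (.thr 8 59 (.thr 12 4 (.dbl 51 34 38))))))) (.rp 1 (.thr 18 33 (.thr 16 32 (.thr 17 19 (.thr 34 51 (.thr 50 2 (.thr 38 46 (.dbl 26 14 31))))))) .nd))))))))))) (.rp 10 (.str 51 (.nv (.thr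 16 32 (.thr 26 31 (.thr 50 49 (.thr 38 14 (.thr 4 55 (.dbl 12 8 25)))))) (.nv (.thr 16 32 (.thr 17 34 (.thr 18 19 (.thr 33 3 (.dbl 49 1 50))))) (.nv (.thr 17 34 (.thr 25 29 (.thr 12 38 (.dbl 8 4 59)))) .nd)))) (.rp 5 (.str 4 (.nv (.thr 16 32 (.thr 26 31 (.thr 38 55 (.thr 50 14 (.thr 51 49 (.dbl 34 17 46)))))) (.nv (.thr 12 8 (.thr 16 32 (.thr 26 31 (.thr 15 37 (.thr 14 13 (.dbl 38 50 55)))))) (.nv (.thr 12 8 (.thr 38 55 (.thr 51 25 (.dbl 34 17 46)))) (.rp 55 (.thr 12 8 (.thr 24 36 (.thr 16 32 (.thr 26 31 (.thr 25 27 (.thr 17 29 (.dbl 51 34 38))))))) (.rp 38 (.thr 8 12 (.thr 32 16 (.thr 37 47 (.thr 25 59 (.thr 49 13 (.thr 51 50 (.dbl 17 29 34))))))) .nd)))))) .nd)))))))))))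

theorem w275 : WinAt (4398048608257, 9223372036855824512) :=
  chF (K := []) kn c275 4398048608257 9223372036855824512 63
    [] (by decide +kernel) (by decide +kernel)

/-- A certificate. -/
noncomputable def c276 : Ct := (.str 12 (.nv (.thr 13 14 (.thr 25 49 (.thr 51 38 (.dbl 59 8 55)))) (.nv (.thr 48 26 (.thr 36 24 (.thr 38 39 (.dbl 46 29 34)))) (.nv (.thr 13 14 (.thr 25 49 (.dbl 29 17 46))) (.rp 48 (.str 16 (.nv (.thr 29 46 (.thr 25 17 (.thr 51 38 (.dbl 59 8 55)))) (.nv (.thr 13 14 (.thr 25 49 (.thr 51 38 (.dbl 59 8 55)))) (.nv (.thr 14 13 (.thr 46 29 (.thr 30 62 (.dbl 45 44 60)))) (.nv (.thr 29 46 (.thr 25 17 (.dbl 13 14 49))) (.rp 6 (.str 4 (.nv (.thr 13 14 (.thr 25 49 (.dbl 38 51 55))) (.nv (.thr 38 55 (.dbl 46 29 34)) (.rp 55 (.thr 29 46 (.thr 25 17 (.dbl 13 14 49))) (.rp 38 (.str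 54 (.nv (.thr 14 13 (.thr 46 29 (.thr 30 62 (.dbl 45 44 60)))) (.nv (.thr 29 46 (.thr 25 17 (.dbl 13 14 49))) (.rp 46 (.thr 13 14 (.thr 25 49 (.thr 29 17 (.thr 45 61 (.thr 59 8 (.thr 51 55 (.dbl 60 30 57))))))) (.rp 29 (.thr 13 14 (.thr 25 49 (.thr 59 8 (.thr 51 55 (.thr 39 27 (.thr 43 35 (.thr 41 40 (.dbl 57 9 60)))))))) (.rp 14 (.thr 46 29 (.thr 45 44 (.thr 41 33 (.thr 61 1 (.dbl 60 30 62))))) (.rp 13 (.thr 29 46 (.thr 25 17 (.thr 59 8 (.thr 51 55 (.thr 39 27 (.thr 43 35 (.thr 41 40 (.dbl 57 9 60)))))))) .nd))))))) .nd))))) (.rp 4 (.str 6 (.nv (.thr 3 9 (.thr 43 23 (.thr 39 35 (.thr 38 36 (.dbl 51 25 27))))) (.nv (.thr 13 14 (.thr 29 46 (.dbl 25 17 49))) (.rp 25 (.thr 14 13 (.thr 46 29 (.thr 30 62 (.dbl 45 44 60)))) (.rp 13 (.thr 46 29 (.thr 38 34 (.thr 39 36 (.dbl 51 25 27)))) .nd)))))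 .nd))))))) (.rp 25 (.thr 14 13 (.thr 46 29 (.thr 45 44 (.dbl 30 60 62)))) (.rp 6 (.str 4 (.nv (.thr 48 26 (.thr 13 14 (.thr 25 49 (.dbl 38 51 55)))) (.nv (.thr 38 55 (.dbl 46 29 34)) (.rp 55 (.thr 13 14 (.thr 29 46 (.dbl 25 17 49))) (.rp 48 (.str 16 (.nv (.thr 13 14 (.thr 25 49 (.dbl 38 51 55))) (.nv (.thr 38 55 (.dbl 46 29 34)) (.rp 55 (.thr 29 46 (.thr 25 17 (.dbl 13 14 49))) (.rp 38 (.str 54 (.nv (.thr 14 13 (.thr 46 29 (.thr 30 62 (.dbl 45 44 60)))) (.nv (.thr 29 46 (.thr 25 17 (.dbl 13 14 49))) (.rp 46 (.thr 13 14 (.thr 25 49 (.thr 29 17 (.thr 45 61 (.thr 59 8 (.thr 51 55 (.dbl 60 30 57))))))) (.rp 29 (.thr 13 14 (.thr 25 49 (.thr 59 8 (.thr 51 55 (.thr 39 27 (.thr 43 35 (.thr 41 40 (.dbl 57 9 60)))))))) (.rp 14 (.thr 46 29 (.thr 45 44 (.thr 41 33 (.thr 61 1 (.dbl 60 30 62))))) (.rp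 13 (.thr 29 46 (.thr 25 17 (.thr 59 8 (.thr 51 55 (.thr 39 27 (.thr 43 35 (.thr 41 40 (.dbl 57 9 60)))))))) .nd))))))) .nd))))) (.rp 38 (.str 54 (.nv (.thr 48 26 (.thr 53 58 (.thr 52 55 (.dbl 36 20 24)))) (.nv (.thr 29 46 (.thr 25 17 (.dbl 13 14 49))) (.rp 48 (.str 16 (.nv (.thr 14 13 (.thr 46 29 (.thr 30 62 (.dbl 45 44 60)))) (.nv (.thr 29 46 (.thr 25 17 (.dbl 13 14 49))) (.rp 46 (.thr 13 14 (.thr 25 49 (.thr 29 17 (.thr 45 61 (.thr 59 8 (.thr 51 55 (.dbl 60 30 57))))))) (.rp 29 (.thr 13 14 (.thr 25 49 (.thr 59 8 (.thr 51 55 (.thr 39 27 (.thr 43 35 (.thr 41 40 (.dbl 57 9 60)))))))) (.rp 14 (.thr 46 29 (.thr 45 44 (.thr 41 33 (.thr 61 1 (.dbl 60 30 62))))) (.rp 13 (.thr 29 46 (.thr 25 17 (.thr 59 8 (.thr 51 55 (.thr 39 27 (.thr 43 35 (.thr 41 40 (.dbl 57 9 60)))))))) .nd))))))) (.rp 14 (.thr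 46 29 (.thr 45 44 (.thr 41 33 (.thr 61 1 (.dbl 60 30 62))))) .nd))))) .nd)))))) (.rp 4 (.str 6 (.nv (.thr 48 26 (.thr 36 24 (.thr 38 39 (.dbl 46 29 34)))) (.nv (.thr 3 9 (.thr 43 23 (.thr 39 35 (.thr 36 38 (.dbl 48 24 26))))) (.nv (.thr 13 14 (.thr 25 49 (.dbl 29 17 46))) (.rp 48 (.str 16 (.nv (.thr 3 9 (.thr 43 23 (.thr 39 35 (.thr 38 36 (.dbl 51 25 27))))) (.nv (.thr 13 14 (.thr 29 46 (.dbl 25 17 49))) (.rp 25 (.thr 14 13 (.thr 46 29 (.thr 30 62 (.dbl 45 44 60)))) (.rp 13 (.thr 46 29 (.thr 38 34 (.thr 39 36 (.dbl 51 25 27)))) .nd))))) .nd))))) .nd))))))))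

theorem w276 : WinAt (9223517309830725632, 6446645409) :=
  chF (K := []) kn c276 9223517309830725632 6446645409 31
    [240, 281479271743489] (by decide +kernel) (by decide +kernel)

/-- A certificate. -/
noncomputable def c277 : Ct := (.thr 15 31 .ext)

theorem w277 : WinAt (9223517309830692864, 4299161761) :=
  chF (K := [(9223517309830725632, 6446645409)]) (kc w276 kn) c277 9223517309830692864 4299161761 32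
    [240, 33825, 281479271743489] (by decide +kernel) (by decide +kernel)

/-- A certificate. -/
noncomputable def c278 : Ct := (.thr 47 32 .ext)

theorem w278 : WinAt (9223376572342337536, 4194465) :=
  chF (K := [(9223517309830692864, 4299161761)]) (kc w277 kn) c278 9223376572342337536 4194465 5
    [240, 33825] (by decide +kernel) (by decide +kernel)

/-- A certificate. -/
noncomputable def c279 : Ct := (.str 37 (.nv (.thr 47 32 (.thr 15 31 (.thr 48 26 (.dbl 53 5 58)))) (.nv (.thr 53 5 (.thr 48 58 (.thr 47 32 (.dbl 15 26 31)))) (.rp 58 (.str 49 (.nv (.thr 5 53 (.thr 13 25 (.thr 1 9 (.thr 41 61 (.dbl 33 17 45))))) (.nv (.thr 25 13 (.thr 29 17 (.thr 12 46 (.thr 59 8 (.dbl 51 38 55))))) (.rp 25 (.thr 47 32 (.thr 53 5 (.thr 61 57 (.thr 60 62 (.thr 41 1 (.thr 45 33 (.dbl 15 30 31))))))) (.rp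 17 (.thr 53 5 (.thr 61 57 (.thr 41 1 (.thr 45 33 (.dbl 13 25 29))))) (.rp 13 (.thr 47 32 (.thr 53 5 (.thr 61 57 (.thr 60 62 (.thr 15 31 (.thr 45 30 (.dbl 41 1 33))))))) .nd)))))) (.rp 53 (.str 60 (.nv (.thr 32 47 (.thr 61 62 (.thr 41 1 (.thr 33 45 (.thr 35 34 (.thr 40 43 (.dbl 44 36 38))))))) (.nv (.thr 47 32 (.thr 15 31 (.thr 45 30 (.thr 46 44 (.thr 29 12 (.thr 13 61 (.dbl 25 17 49))))))) (.nv (.thr 61 62 (.thr 41 1 (.thr 47 32 (.thr 15 31 (.dbl 45 30 33))))) (.rp 61 (.thr 47 32 (.thr 15 31 (.thr 45 30 (.thr 41 33 (.thr 43 40 (.thr 44 46 (.dbl 35 38 39))))))) (.rp 47 (.thr 61 62 (.thr 41 1 (.thr 45 33 (.thr 29 13 (.thr 12 46 (.thr 28 44 (.dbl 30 15 31))))))) (.rp 45 (.thr 61 62 (.thr 32 47 (.thr 41 1 (.thr 40 43 (.thr 44 36 (.thr 12 28 (.thr 46 29 (.dbl 38 34 35)))))))) (.rp 32 (.thr 61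 62 (.thr 41 1 (.thr 45 33 (.thr 15 30 (.thr 31 47 (.dbl 26 16 48)))))) .nd)))))))) (.rp 48 (.str 61 (.nv (.thr 53 5 (.thr 49 57 (.thr 25 13 (.thr 17 29 (.dbl 1 33 41))))) (.nv (.thr 32 47 (.thr 41 1 (.thr 33 45 (.thr 40 43 (.thr 44 36 (.dbl 35 34 38)))))) (.nv (.thr 1 41 (.thr 5 53 (.thr 13 9 (.thr 29 45 (.dbl 25 17 49))))) (.rp 41 (.thr 53 5 (.thr 49 57 (.thr 25 13 (.thr 29 17 (.thr 59 8 (.thr 51 55 (.dbl 12 38 46))))))) (.rp 32 (.str 16 (.nv (.thr 53 5 (.thr 49 57 (.thr 25 13 (.thr 17 29 (.dbl 1 33 41))))) (.nv (.thr 31 26 (.thr 15 47 (.thr 41 1 (.thr 60 62 (.dbl 45 30 33))))) (.nv (.thr 1 41 (.thr 5 53 (.thr 13 9 (.thr 29 45 (.dbl 25 17 49))))) (.rp 41 (.thr 60 62 (.thr 26 31 (.thr 53 5 (.thr 57 49 (.thr 51 54 (.thr 59 55 (.dbl 58 10 56))))))) (.rp 1 (.thr 60 62 (.thr 26 31 (.thr 53 5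 (.thr 57 49 (.thr 51 54 (.thr 59 55 (.dbl 58 10 56))))))) .nd)))))) (.rp 1 (.thr 60 62 (.thr 53 5 (.thr 49 57 (.thr 13 25 (.thr 45 29 (.thr 15 30 (.dbl 47 31 32))))))) .nd))))))) (.rp 47 (.str 49 (.nv (.thr 25 13 (.thr 29 17 (.thr 12 46 (.thr 51 38 (.dbl 59 8 55))))) (.nv (.thr 53 5 (.thr 48 58 (.thr 51 50 (.thr 55 59 (.thr 57 61 (.dbl 54 52 60)))))) (.nv (.thr 5 53 (.thr 13 25 (.thr 1 9 (.thr 41 61 (.dbl 33 17 45))))) .nd)))) (.rp 32 (.str 48 (.nv (.dbl 53 5 58) (.rp 58 (.str 49 (.nv (.thr 15 26 (.thr 51 50 (.thr 55 59 (.thr 38 4 (.dbl 39 27 36))))) (.nv (.thr 5 53 (.thr 13 25 (.thr 1 9 (.thr 41 61 (.dbl 33 17 45))))) (.nv (.thr 51 50 (.thr 25 13 (.dbl 59 8 55))) .nd)))) (.rp 53 (.str 49 (.nv (.thr 15 26 (.thr 51 50 (.thr 55 59 (.thr 38 4 (.dbl 39 27 36))))) (.nv (.thr 25 13 (.thr 26 15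 (.thr 24 27 (.thr 12 36 (.dbl 29 17 46))))) (.nv (.thr 51 50 (.thr 25 13 (.dbl 59 8 55))) (.rp 51 (.thr 25 13 (.thr 17 29 (.thr 33 1 (.thr 3 18 (.thr 43 23 (.dbl 41 40 45)))))) .nd))))) (.rp 5 (.thr 58 53 (.dbl 26 10 15)) .nd))))) (.rp 31 (.str 49 (.nv (.thr 5 53 (.thr 13 25 (.thr 1 9 (.thr 41 61 (.dbl 33 17 45))))) (.nv (.thr 53 5 (.thr 48 58 (.thr 51 50 (.thr 55 59 (.thr 57 61 (.dbl 54 52 60)))))) (.nv (.thr 25 13 (.thr 29 17 (.thr 12 46 (.thr 59 8 (.dbl 51 38 55))))) .nd)))) (.rp 26 (.thr 5 53 (.thr 32 47 (.str 41 (.nv (.thr 1 61 (.thr 13 9 (.thr 49 25 (.dbl 33 17 45)))) (.nv (.thr 40 43 (.thr 33 45 (.thr 44 36 (.dbl 35 34 38)))) (.rp 45 (.thr 40 43 (.thr 44 36 (.thr 35 38 (.thr 33 34 (.thr 1 61 (.thr 13 9 (.dbl 49 17 25))))))) (.rp 33 (.thr 40 43 (.thr 44 36 (.thr 61 1 (.thr 60 62 (.thr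 12 28 (.thr 46 29 (.dbl 38 34 35))))))) (.rp 30 (.str 18 (.nv (.thr 1 61 (.thr 13 9 (.thr 49 25 (.dbl 33 17 45)))) (.nv (.thr 43 40 (.thr 3 23 (.dbl 33 45 48))) (.rp 45 (.thr 43 40 (.thr 3 23 (.thr 33 48 (.thr 1 61 (.thr 49 17 (.dbl 13 9 25)))))) (.rp 33 (.thr 43 40 (.thr 3 23 (.thr 1 61 (.thr 9 13 (.thr 12 6 (.thr 29 46 (.dbl 25 17 57))))))) .nd))))) (.rp 18 (.str 30 (.nv (.thr 33 45 (.thr 40 43 (.thr 44 36 (.dbl 35 34 38)))) (.nv (.thr 61 1 (.thr 60 62 (.dbl 45 15 33))) (.rp 45 (.thr 61 1 (.thr 62 60 (.thr 46 14 (.thr 38 34 (.thr 40 43 (.dbl 44 35 36)))))) (.rp 33 (.thr 61 1 (.thr 60 62 (.thr 45 15 (.thr 29 13 (.thr 12 46 (.dbl 28 31 44)))))) .nd))))) .nd))))))))) (.rp 15 (.thr 32 47 (.thr 5 53 (.str 41 (.nv (.thr 1 61 (.thr 13 9 (.thr 49 25 (.dbl 33 17 45)))) (.nv (.thr 40 43 (.thr 33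 45 (.thr 44 36 (.dbl 35 34 38)))) (.rp 45 (.thr 40 43 (.thr 44 36 (.thr 35 38 (.thr 33 34 (.thr 1 61 (.thr 13 9 (.dbl 49 17 25))))))) (.rp 33 (.thr 40 43 (.thr 44 36 (.thr 61 1 (.thr 60 62 (.thr 12 28 (.thr 46 29 (.dbl 38 34 35))))))) (.rp 11 (.str 3 (.nv (.dbl 43 23 40) (.rp 43 (.thr 33 45 (.thr 1 61 (.thr 13 9 (.dbl 49 17 25)))) (.rp 40 (.thr 33 45 (.thr 1 61 (.thr 13 9 (.dbl 49 17 25)))) (.rp 23 (.thr 33 45 (.thr 1 61 (.thr 13 9 (.dbl 49 17 25)))) .nd))))) (.rp 3 (.str 11 (.nv (.thr 33 45 (.thr 40 43 (.thr 44 36 (.dbl 35 34 38)))) (.nv (.thr 1 61 (.thr 26 56 (.thr 10 58 (.dbl 9 8 13)))) (.rp 1 (.str 2 (.nv (.thr 26 56 (.thr 10 58 (.thr 14 6 (.thr 33 45 (.thr 35 34 (.dbl 38 44 50)))))) (.nv (.thr 26 56 (.thr 10 58 (.thr 8 9 (.thr 59 25 (.dbl 43 27 40))))) (.nv (.thr 40 43 (.thr 44 36 (.thr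 33 45 (.dbl 35 34 38)))) .nd)))) .nd)))) .nd))))))))) (.rp 5 .ext .nd))))))))))))

theorem w279 : WinAt (9223376434903384064, 4194433) :=
  chF (K := [(9223376572342337536, 4194465)]) (kc w278 kn) c279 9223376434903384064 4194433 0
    [4503737070518400] (by decide +kernel) (by decide +kernel)

/-- A certificate. -/
noncomputable def c280 : Ct := (.thr 63 0 .ext)

theorem w280 : WinAt (4398048608256, 4194432) :=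
  chF (K := [(9223376434903384064, 4194433)]) (kc w279 kn) c280 4398048608256 4194432 22
    [4503737070518400] (by decide +kernel) (by decide +kernel)

/-- A certificate. -/
noncomputable def c281 : Ct := (.str 38 (.nv (.thr 55 4 (.thr 46 34 (.thr 51 59 (.dbl 12 25 29)))) (.nv (.thr 46 34 (.thr 12 29 (.thr 51 25 (.dbl 55 4 59)))) (.rp 59 (.str 37 (.nv (.thr 46 34 (.thr 12 29 (.thr 53 5 (.thr 48 58 (.dbl 36 24 39))))) (.nv (.thr 55 4 (.thr 47 32 (.thr 15 31 (.thr 48 26 (.dbl 53 5 58))))) (.nv (.thr 32 47 (.thr 34 46 (.thr 35 33 (.thr 44 41 (.dbl 36 39 40))))) (.rp 55 (.thr 39 36 (.thr 53 5 (.thr 47 32 (.thr 15 31 (.dbl 48 26 58))))) .nd))))) (.rp 55 (.str 39 (.nv (.thr 37 36 (.thr 47 32 (.thr 15 31 (.thr 48 26 (.dbl 53 5 58))))) (.nv (.thr 37 36 (.thr 46 34 (.thr 12 29 (.thr 51 25 (.thr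 15 27 (.thr 53 5 (.dbl 48 26 58))))))) (.nv (.thr 37 36 (.thr 47 32 (.thr 35 43 (.thr 44 41 (.dbl 46 34 45))))) (.rp 48 (.thr 46 34 (.thr 37 36 (.thr 12 29 (.thr 51 25 (.thr 15 27 (.dbl 47 31 32)))))) (.rp 37 (.thr 46 34 (.thr 12 29 (.thr 51 25 (.thr 15 27 (.thr 31 47 (.thr 26 16 (.dbl 14 13 50))))))) (.rp 36 (.thr 46 34 (.thr 12 29 (.thr 51 25 (.thr 15 27 (.thr 31 47 (.thr 26 16 (.dbl 14 13 50))))))) .nd))))))) (.rp 51 (.thr 34 46 (.str 26 (.nv (.thr 55 4 (.thr 50 14 (.thr 2 18 (.thr 58 10 (.dbl 62 22 54))))) (.nv (.thr 50 14 (.thr 2 18 (.thr 62 22 (.dbl 58 10 54)))) (.nv (.thr 58 10 (.thr 31 16 (.thr 48 53 (.dbl 15 37 47)))) (.rp 58 (.thr 31 16 (.thr 47 15 (.thr 32 37 (.thr 35 33 (.thr 41 44 (.dbl 43 39 40)))))) (.rp 55 (.str 39 (.nv (.thr 50 14 (.thr 2 18 (.thr 58 10 (.dbl 62 22 54))))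 (.nv (.thr 31 16 (.thr 37 36 (.dbl 15 47 48))) (.rp 15 (.thr 50 14 (.thr 2 18 (.thr 62 22 (.dbl 58 10 54)))) .nd)))) (.rp 10 (.thr 50 14 (.thr 2 18 (.thr 62 22 (.thr 58 54 (.thr 31 16 (.thr 15 47 (.dbl 48 37 53))))))) .nd)))))))) (.rp 46 (.str 37 (.nv (.thr 39 36 (.thr 47 32 (.thr 53 5 (.thr 48 58 (.dbl 15 26 31))))) (.nv (.thr 39 36 (.thr 55 4 (.thr 51 59 (.thr 15 27 (.dbl 47 31 32))))) (.nv (.thr 36 39 (.thr 55 4 (.thr 51 59 (.thr 12 25 (.thr 48 24 (.dbl 53 5 58)))))) (.nv (.thr 47 32 (.thr 15 31 (.thr 48 26 (.dbl 53 5 58)))) (.rp 39 (.thr 55 4 (.thr 47 32 (.thr 15 31 (.thr 48 26 (.dbl 53 5 58))))) (.rp 5 (.thr 39 36 (.thr 47 32 (.thr 15 31 (.thr 35 43 (.thr 51 27 (.thr 19 3 (.dbl 55 4 59))))))) .nd))))))) (.rp 34 (.thr 55 4 (.thr 51 59 (.thr 12 25 (.str 22 (.nv (.thr 46 29 (.thr 62 2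 (.thr 14 30 (.thr 50 26 (.dbl 54 6 58))))) (.nv (.thr 6 54 (.thr 3 9 (.thr 41 60 (.dbl 35 19 44)))) (.rp 54 (.thr 62 2 (.thr 60 61 (.thr 44 28 (.dbl 41 3 35)))) (.rp 6 (.str 5 (.nv (.thr 37 53 (.thr 39 36 (.thr 47 32 (.dbl 15 27 31)))) (.nv (.thr 62 2 (.thr 60 61 (.thr 44 28 (.dbl 41 3 35)))) (.nv (.thr 37 53 (.thr 36 39 (.thr 48 24 (.thr 26 15 (.dbl 50 14 49))))) .nd)))) (.rp 3 (.thr 2 62 (.thr 6 54 (.thr 14 10 (.thr 15 13 (.thr 31 47 (.dbl 26 16 50)))))) .nd))))))))) (.rp 29 (.str 37 (.nv (.thr 55 4 (.thr 47 32 (.thr 15 31 (.thr 48 26 (.dbl 53 5 58))))) (.nv (.thr 36 39 (.thr 55 4 (.thr 51 59 (.thr 12 25 (.thr 48 24 (.dbl 53 5 58)))))) (.nv (.thr 32 47 (.thr 34 46 (.thr 35 33 (.thr 44 41 (.dbl 36 39 40))))) (.rp 55 (.thr 39 36 (.thr 53 5 (.thr 47 32 (.thr 15 31 (.dbl 48 26 58))))) .nd)))))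 (.rp 25 (.str 37 (.nv (.thr 46 34 (.thr 12 29 (.thr 53 5 (.thr 48 58 (.dbl 36 24 39))))) (.nv (.thr 32 47 (.thr 34 46 (.thr 35 33 (.thr 44 41 (.dbl 36 39 40))))) (.nv (.thr 53 5 (.thr 47 32 (.thr 48 58 (.dbl 15 26 31)))) (.rp 55 (.thr 39 36 (.thr 53 5 (.thr 47 32 (.thr 15 31 (.dbl 48 26 58))))) (.rp 39 (.thr 55 4 (.thr 47 32 (.thr 15 31 (.thr 48 26 (.dbl 53 5 58))))) .nd)))))) (.rp 12 (.thr 4 55 (.str 39 (.nv (.thr 46 34 (.thr 37 36 (.thr 47 32 (.thr 44 45 (.dbl 35 41 43))))) (.nv (.thr 37 36 (.thr 53 5 (.thr 48 58 (.thr 15 26 (.dbl 47 31 32))))) (.rp 48 (.str 32 (.nv (.dbl 37 36 47) (.rp 47 (.thr 36 37 (.thr 34 46 (.thr 35 33 (.dbl 44 40 41)))) (.rp 37 (.thr 34 46 (.thr 35 33 (.thr 43 47 (.dbl 41 40 44)))) (.rp 36 (.str 24 (.nv (.thr 46 34 (.thr 47 37 (.thr 35 43 (.dbl 44 41 45)))) (.nv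 (.thr 34 46 (.thr 35 33 (.dbl 47 37 43))) (.rp 47 (.str 62 (.nv (.thr 34 46 (.thr 35 33 (.thr 61 60 (.dbl 41 1 44)))) (.nv (.thr 2 22 (.thr 46 34 (.thr 14 30 (.thr 26 50 (.dbl 10 6 58))))) (.nv (.thr 22 2 (.thr 34 46 (.thr 60 61 (.thr 35 33 (.dbl 41 3 44))))) (.rp 46 (.thr 22 2 (.thr 54 6 (.thr 50 58 (.thr 60 61 (.thr 51 57 (.thr 27 15 (.dbl 26 14 25))))))) (.rp 34 (.thr 22 2 (.thr 54 6 (.thr 50 58 (.thr 60 61 (.thr 51 57 (.thr 27 15 (.dbl 26 14 25))))))) .nd)))))) (.rp 46 (.thr 47 37 (.thr 15 31 (.thr 27 51 (.thr 43 35 (.thr 59 11 (.dbl 25 8 26)))))) (.rp 43 (.thr 46 34 (.thr 47 37 (.thr 31 15 (.thr 26 16 (.thr 14 50 (.thr 30 62 (.thr 29 28 (.dbl 25 17 27)))))))) (.rp 37 (.thr 34 46 (.thr 35 33 (.thr 43 47 (.dbl 41 40 44)))) (.rp 35 (.thr 46 34 (.thr 47 37 (.thr 31 15 (.thr 26 16 (.thr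 14 50 (.thr 30 62 (.thr 29 28 (.dbl 25 17 27)))))))) (.rp 34 (.thr 47 37 (.thr 31 15 (.thr 26 16 (.thr 43 35 (.thr 27 25 (.thr 11 59 (.dbl 41 40 56))))))) .nd))))))))) (.rp 24 (.thr 36 37 (.thr 34 46 (.thr 35 33 (.dbl 44 40 41)))) .nd)))))) (.rp 47 (.thr 37 36 (.thr 53 5 (.thr 48 58 (.thr 15 26 (.thr 51 27 (.thr 49 50 (.thr 25 13 (.thr 17 29 (.thr 61 57 (.dbl 1 33 41)))))))))) (.rp 37 (.str 47 (.nv (.thr 35 43 (.thr 44 41 (.dbl 46 34 45))) (.rp 52 (.str 22 (.nv (.thr 2 62 (.thr 31 15 (.thr 26 16 (.thr 10 58 (.dbl 6 14 54))))) (.nv (.thr 35 43 (.thr 44 41 (.dbl 46 34 45))) (.rp 54 (.str 53 (.nv (.thr 31 15 (.thr 26 16 (.dbl 58 10 48))) (.nv (.thr 35 43 (.thr 44 41 (.dbl 46 34 45))) .nd))) (.rp 53 (.thr 54 6 (.thr 46 34 (.thr 44 45 (.dbl 35 41 43)))) .nd))))) (.rp 46 (.thr 31 15 (.thr 43 35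 (.thr 41 40 (.thr 26 16 (.thr 11 56 (.thr 10 58 (.thr 8 9 (.dbl 59 25 27)))))))) (.rp 45 (.thr 31 15 (.thr 46 34 (.thr 26 16 (.thr 10 58 (.thr 14 50 (.thr 2 6 (.dbl 62 22 30))))))) (.rp 44 (.thr 31 15 (.thr 46 34 (.thr 26 16 (.thr 10 58 (.thr 14 50 (.thr 62 30 (.dbl 2 6 22))))))) (.rp 43 (.thr 31 15 (.thr 46 34 (.thr 26 16 (.thr 10 58 (.thr 14 50 (.thr 62 30 (.dbl 2 6 22))))))) (.rp 41 (.thr 31 15 (.thr 46 34 (.thr 26 16 (.thr 10 58 (.thr 14 50 (.thr 62 30 (.dbl 2 6 22))))))) (.rp 35 (.thr 31 15 (.thr 46 34 (.thr 26 16 (.thr 10 58 (.thr 14 50 (.thr 62 30 (.dbl 2 6 22))))))) (.rp 34 (.thr 31 15 (.thr 43 35 (.thr 41 40 (.thr 26 16 (.thr 11 56 (.thr 10 58 (.thr 8 9 (.dbl 59 25 27)))))))) (.rp 33 (.thr 46 34 (.thr 35 43 (.dbl 44 41 45))) (.rp 22 (.str 52 (.nv (.thr 35 43 (.thr 44 41 (.dbl 46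 34 45))) (.nv (.thr 46 34 (.thr 35 43 (.dbl 44 41 45))) (.rp 46 (.thr 31 15 (.thr 43 35 (.thr 41 40 (.thr 61 1 (.thr 60 62 (.thr 26 16 (.dbl 56 11 48))))))) (.rp 45 (.thr 31 15 (.thr 43 35 (.thr 41 40 (.thr 61 1 (.thr 60 62 (.thr 26 16 (.dbl 56 11 48))))))) (.rp 44 (.thr 31 15 (.thr 43 35 (.thr 41 40 (.thr 61 1 (.thr 60 62 (.thr 26 16 (.dbl 56 11 48))))))) (.rp 43 (.thr 31 15 (.thr 46 34 (.thr 44 45 (.thr 41 35 (.thr 61 1 (.thr 60 62 (.thr 26 16 (.dbl 56 11 48)))))))) (.rp 41 (.thr 31 15 (.thr 46 34 (.thr 26 16 (.thr 14 50 (.thr 62 30 (.thr 60 61 (.thr 48 56 (.dbl 58 10 53)))))))) (.rp 35 (.thr 31 15 (.thr 46 34 (.thr 26 16 (.thr 14 50 (.thr 62 30 (.thr 60 61 (.thr 48 56 (.dbl 58 10 53)))))))) (.rp 34 (.thr 31 15 (.thr 43 35 (.thr 41 40 (.thr 61 1 (.thr 60 62 (.thr 26 16 (.dbl 56 11 48)))))))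 .nd)))))))))) .nd)))))))))))) (.rp 36 (.str 47 (.nv (.thr 35 43 (.thr 44 41 (.dbl 46 34 45))) (.nv (.thr 15 31 (.thr 37 32 (.thr 48 26 (.dbl 53 5 58)))) (.nv (.thr 34 46 (.thr 35 43 (.dbl 32 33 37))) (.rp 48 (.str 24 (.nv (.thr 15 31 (.thr 27 51 (.thr 25 26 (.thr 43 35 (.dbl 59 8 11))))) (.nv (.thr 34 46 (.thr 35 43 (.dbl 32 33 37))) (.rp 43 (.thr 15 31 (.thr 46 34 (.thr 45 44 (.thr 60 30 (.thr 61 62 (.thr 41 1 (.dbl 37 32 33))))))) (.rp 35 (.thr 15 31 (.thr 46 34 (.thr 45 44 (.thr 60 30 (.thr 61 62 (.thr 41 1 (.dbl 37 32 33))))))) (.rp 34 (.thr 15 31 (.thr 43 35 (.thr 40 41 (.thr 8 56 (.thr 25 59 (.dbl 27 26 51)))))) (.rp 32 (.str 16 (.nv (.thr 35 43 (.thr 44 41 (.dbl 46 34 45))) (.nv (.dbl 31 15 26) (.rp 44 (.str 40 (.nv (.thr 28 20 (.dbl 43 35 41)) (.nv (.dbl 31 15 26) (.rp 28 (.str 60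 (.nv (.dbl 43 35 41) (.nv (.dbl 31 15 26) .nd))) .nd)))) (.rp 40 (.str 44 (.nv (.thr 20 28 (.dbl 31 15 26)) (.nv (.dbl 46 34 45) (.rp 20 (.str 60 (.nv (.dbl 31 15 26) (.nv (.dbl 46 34 45) .nd))) .nd)))) .nd))))) (.rp 16 (.thr 32 37 (.thr 34 46 (.dbl 35 33 43))) .nd)))))))) (.rp 24 (.str 48 (.nv (.thr 35 43 (.thr 44 41 (.dbl 46 34 45))) (.nv (.thr 53 58 (.dbl 37 5 32)) .nd))) .nd)))))) (.rp 32 (.thr 37 36 (.thr 53 5 (.thr 46 34 (.thr 48 58 (.thr 15 26 (.thr 47 31 (.thr 44 45 (.dbl 35 41 43)))))))) (.rp 24 (.str 58 (.nv (.thr 37 36 (.thr 48 53 (.thr 15 26 (.dbl 47 31 32)))) (.nv (.thr 26 10 (.thr 34 46 (.thr 50 14 (.thr 2 18 (.dbl 62 22 54))))) (.nv (.thr 26 10 (.thr 37 36 (.dbl 48 15 53))) (.rp 48 (.thr 36 37 (.thr 26 10 (.thr 50 14 (.thr 62 54 (.thr 34 46 (.dbl 2 18 22)))))) (.rp 36 (.thr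 48 53 (.thr 26 10 (.thr 15 37 (.dbl 31 16 47)))) (.rp 26 (.thr 37 36 (.thr 48 53 (.thr 47 32 (.thr 46 34 (.thr 44 45 (.dbl 35 41 43)))))) (.rp 15 (.thr 37 36 (.thr 48 53 (.thr 47 32 (.thr 46 34 (.thr 44 45 (.dbl 35 41 43)))))) .nd)))))))) .nd)))))))))) (.rp 4 (.thr 46 34 (.thr 12 29 (.thr 51 25 (.thr 55 59 (.str 22 (.nv (.thr 62 2 (.thr 14 30 (.thr 15 13 (.thr 31 47 (.dbl 26 16 50))))) (.nv (.thr 6 54 (.thr 3 9 (.thr 41 60 (.dbl 35 19 44)))) (.rp 6 (.str 5 (.nv (.thr 37 53 (.thr 39 36 (.thr 47 32 (.dbl 15 27 31)))) (.nv (.thr 62 2 (.thr 60 61 (.thr 44 28 (.dbl 41 3 35)))) (.nv (.thr 37 53 (.thr 36 39 (.thr 48 24 (.thr 26 15 (.dbl 50 14 49))))) .nd)))) (.rp 3 (.thr 6 54 (.thr 2 62 (.thr 14 10 (.thr 15 13 (.thr 31 47 (.dbl 26 16 50)))))) .nd))))))))) .nd))))))))))))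

theorem w281 : WinAt (9223376434903384064, 8388737) :=
  chF (K := []) kn c281 9223376434903384064 8388737 0
    [36029346783166592] (by decide +kernel) (by decide +kernel)

/-- A certificate. -/
noncomputable def c282 : Ct := (.str 3 (.nv (.thr 1 2 (.thr 41 61 (.thr 60 22 (.dbl 40 20 43)))) (.nv (.thr 2 1 (.thr 22 62 (.thr 60 41 (.dbl 20 23 40)))) (.rp 60 (.thr 2 1 (.str 10 (.nv (.thr 6 14 (.thr 12 9 (.thr 4 8 (.thr 38 55 (.dbl 22 54 62))))) (.nv (.thr 26 58 (.thr 16 31 (.thr 48 32 (.dbl 15 5 37)))) (.rp 62 (.str 61 (.nv (.thr 6 14 (.thr 12 9 (.thr 8 4 (.thr 25 59 (.thr 17 29 (.dbl 51 34 38)))))) (.nv (.thr 26 58 (.thr 16 31 (.thr 48 32 (.dbl 15 5 37)))) (.rp 5 (.thr 26 58 (.thr 16 31 (.thr 48 32 (.thr 18 33 (.thr 17 19 (.dbl 34 50 51)))))) .nd)))) (.rp 61 (.thr 62 22 (.thr 14 6 (.thr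 46 30 (.thr 38 34 (.dbl 26 50 58))))) (.rp 5 (.thr 26 58 (.thr 16 31 (.thr 48 32 (.thr 18 33 (.dbl 22 30 62))))) .nd))))))) (.rp 41 (.str 51 (.nv (.thr 2 1 (.thr 19 35 (.thr 22 62 (.thr 25 28 (.thr 8 59 (.dbl 12 4 38)))))) (.nv (.thr 2 1 (.thr 34 17 (.thr 18 50 (.thr 35 19 (.dbl 33 32 48))))) (.nv (.thr 17 34 (.thr 25 29 (.thr 8 59 (.dbl 12 4 38)))) .nd)))) (.rp 40 (.str 8 (.nv (.thr 2 1 (.thr 22 62 (.thr 25 59 (.thr 19 28 (.thr 51 35 (.dbl 17 29 34)))))) (.nv (.thr 1 2 (.thr 12 4 (.thr 9 6 (.thr 5 13 (.dbl 10 11 15))))) (.nv (.thr 12 4 (.thr 25 59 (.thr 51 38 (.dbl 17 29 34)))) .nd)))) (.rp 22 (.str 37 (.nv (.thr 1 2 (.thr 32 47 (.thr 41 61 (.thr 33 45 (.dbl 48 16 18))))) (.nv (.thr 1 2 (.thr 53 5 (.thr 61 41 (.thr 49 57 (.thr 17 33 (.dbl 25 13 29)))))) (.nv (.thr 5 53 (.thr 15 10 (.thr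 32 47 (.dbl 48 16 26)))) .nd)))) (.rp 20 (.str 16 (.nv (.thr 2 1 (.thr 22 62 (.thr 26 31 (.thr 18 30 (.thr 17 19 (.dbl 34 50 51)))))) (.nv (.thr 2 1 (.thr 48 32 (.thr 18 33 (.thr 17 19 (.dbl 34 50 51))))) (.nv (.thr 48 32 (.thr 26 31 (.thr 10 58 (.dbl 15 5 37)))) .nd)))) (.rp 2 (.str 25 (.nv (.thr 8 59 (.thr 12 4 (.thr 17 29 (.dbl 51 34 38)))) (.nv (.thr 17 29 (.thr 51 34 (.thr 19 35 (.thr 22 28 (.thr 20 23 (.dbl 60 40 41)))))) (.nv (.thr 17 29 (.thr 51 34 (.thr 8 59 (.dbl 12 4 38)))) (.rp 51 (.str 19 (.nv (.thr 17 29 (.thr 16 18 (.thr 22 28 (.thr 23 20 (.dbl 31 26 27))))) (.nv (.thr 22 28 (.thr 20 23 (.dbl 60 40 41))) (.rp 59 (.str 55 (.nv (.thr 4 38 (.thr 12 8 (.thr 9 6 (.thr 41 57 (.dbl 22 28 60))))) (.nv (.thr 17 29 (.thr 16 18 (.thr 22 28 (.thr 23 20 (.dbl 31 26 27))))) (.nv (.thr 22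 28 (.thr 20 23 (.dbl 60 40 41))) (.rp 28 (.thr 4 38 (.thr 12 8 (.thr 9 6 (.thr 41 57 (.thr 40 43 (.dbl 60 20 22)))))) (.rp 22 (.thr 17 29 (.thr 16 18 (.thr 48 32 (.thr 26 31 (.thr 10 58 (.dbl 15 5 37)))))) .nd)))))) (.rp 55 (.thr 59 8 (.thr 22 28 (.thr 60 41 (.dbl 20 23 40)))) (.rp 28 (.thr 17 29 (.thr 16 18 (.thr 32 48 (.thr 37 47 (.thr 53 5 (.thr 49 13 (.thr 1 33 (.dbl 61 41 57)))))))) (.rp 23 (.thr 17 29 (.thr 16 18 (.thr 48 32 (.thr 26 31 (.thr 10 58 (.dbl 15 5 37)))))) (.rp 22 (.thr 17 29 (.thr 16 18 (.thr 48 32 (.thr 26 31 (.thr 10 58 (.dbl 15 5 37)))))) (.rp 20 (.thr 17 29 (.thr 16 18 (.thr 48 32 (.thr 26 31 (.thr 10 58 (.dbl 15 5 37)))))) .nd))))))))) (.rp 34 (.thr 8 59 (.thr 12 4 (.thr 51 38 (.thr 19 35 (.thr 22 28 (.thr 20 23 (.dbl 60 40 41))))))) (.rp 29 (.thr 8 59 (.thr 12 4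 (.thr 51 38 (.thr 19 35 (.thr 22 28 (.thr 20 23 (.dbl 60 40 41))))))) (.rp 17 (.thr 8 59 (.thr 12 4 (.thr 51 38 (.thr 19 35 (.thr 22 28 (.thr 20 23 (.dbl 60 40 41))))))) (.rp 12 (.thr 29 17 (.str 10 (.nv (.thr 8 59 (.thr 9 11 (.thr 41 57 (.thr 60 22 (.dbl 40 20 43))))) (.nv (.thr 26 58 (.thr 16 31 (.thr 48 32 (.dbl 15 5 37)))) (.rp 58 (.thr 5 15 (.thr 8 59 (.thr 9 11 (.thr 13 1 (.dbl 37 49 53))))) (.rp 48 (.str 36 (.nv (.thr 5 15 (.thr 8 59 (.thr 9 11 (.thr 13 1 (.dbl 37 49 53))))) (.nv (.thr 5 15 (.thr 37 53 (.thr 58 26 (.thr 13 49 (.thr 1 9 (.dbl 61 41 45)))))) (.nv (.thr 8 59 (.thr 9 11 (.thr 41 57 (.thr 60 22 (.dbl 40 20 43))))) (.rp 58 (.str 53 (.nv (.dbl 5 15 37) (.rp 37 (.thr 15 5 (.thr 8 59 (.thr 9 11 (.thr 57 41 (.thr 61 49 (.thr 45 13 (.thr 60 30 (.thr 20 40 (.thr 22 23 (.thr 19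 28 (.dbl 51 35 54))))))))))) (.rp 15 (.thr 37 5 (.thr 8 59 (.thr 9 11 (.thr 57 41 (.dbl 49 13 61))))) (.rp 5 (.thr 8 59 (.thr 9 11 (.thr 57 41 (.thr 49 61 (.thr 37 13 (.thr 38 39 (.thr 32 47 (.thr 40 44 (.thr 60 20 (.thr 54 51 (.dbl 55 4 52))))))))))) .nd))))) (.rp 53 (.thr 58 26 (.thr 8 59 (.thr 9 11 (.thr 41 57 (.thr 60 22 (.dbl 40 20 43)))))) (.rp 51 (.thr 5 15 (.thr 37 53 (.thr 58 26 (.thr 39 38 (.thr 47 32 (.thr 43 35 (.thr 41 40 (.thr 1 61 (.dbl 13 9 49))))))))) (.rp 37 (.thr 8 59 (.thr 9 11 (.thr 41 57 (.thr 1 61 (.dbl 5 13 15))))) (.rp 9 (.thr 5 15 (.thr 37 53 (.thr 58 26 (.thr 38 39 (.thr 46 34 (.thr 47 32 (.thr 45 44 (.dbl 13 49 61)))))))) .nd))))))))) (.rp 37 (.thr 5 15 (.thr 8 59 (.thr 9 11 (.thr 41 57 (.dbl 1 13 61))))) (.rp 36 (.str 48 (.nv (.thr 5 15 (.thr 32 16 (.dbl 37 47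 53))) (.nv (.thr 15 5 (.dbl 26 37 58)) (.nv (.thr 26 58 (.dbl 16 31 32)) .nd)))) .nd)))))))) .nd))))))))) (.rp 1 (.str 26 (.nv (.thr 16 31 (.thr 48 32 (.thr 18 33 (.thr 22 30 (.thr 20 23 (.dbl 60 40 41)))))) (.nv (.thr 16 31 (.thr 10 58 (.thr 48 32 (.dbl 15 5 37)))) (.rp 48 (.thr 58 10 (.str 50 (.nv (.thr 62 54 (.thr 22 2 (.thr 20 23 (.dbl 60 40 41)))) (.nv (.thr 38 14 (.thr 4 55 (.thr 12 8 (.thr 51 25 (.dbl 34 17 46))))) (.nv (.thr 14 38 (.thr 62 54 (.thr 22 2 (.dbl 30 18 46)))) (.rp 36 (.str 12 (.nv (.thr 54 62 (.thr 38 14 (.dbl 6 9 22))) (.nv (.thr 38 14 (.dbl 4 8 55)) (.rp 38 (.thr 62 54 (.thr 22 2 (.thr 20 23 (.dbl 60 40 41)))) (.rp 14 (.thr 8 4 (.thr 25 59 (.thr 17 29 (.dbl 51 34 38)))) (.rp 6 (.thr 4 8 (.dbl 38 14 55)) .nd)))))) (.rp 14 (.thr 62 54 (.thr 2 22 (.thr 34 18 (.thr 51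 17 (.thr 38 46 (.thr 4 55 (.dbl 12 8 25))))))) (.rp 12 (.str 36 (.nv (.thr 38 14 (.thr 37 39 (.thr 32 47 (.thr 44 40 (.thr 35 41 (.dbl 34 33 46)))))) (.nv (.thr 62 54 (.thr 22 2 (.thr 30 18 (.dbl 14 38 46)))) (.rp 46 (.str 29 (.nv (.thr 62 54 (.thr 22 2 (.thr 20 23 (.dbl 60 40 41)))) (.nv (.thr 16 31 (.thr 17 25 (.thr 51 34 (.dbl 19 18 35)))) .nd))) (.rp 38 (.thr 62 54 (.thr 22 2 (.thr 20 23 (.dbl 60 40 41)))) (.rp 29 (.str 46 (.nv (.thr 62 54 (.thr 22 2 (.dbl 30 14 18))) (.nv (.dbl 38 14 34) (.rp 14 (.thr 62 54 (.thr 2 22 (.dbl 34 18 38))) .nd)))) (.rp 14 (.thr 62 54 (.thr 2 22 (.thr 34 18 (.thr 17 51 (.thr 38 46 (.thr 29 25 (.thr 37 39 (.thr 32 47 (.thr 35 33 (.dbl 44 40 41)))))))))) (.rp 6 (.thr 62 54 (.thr 2 22 (.thr 38 14 (.dbl 34 18 46)))) (.rp 2 (.thr 54 62 (.thr 38 14 (.thr 6 22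 (.thr 37 39 (.thr 53 5 (.dbl 55 4 52)))))) .nd))))))))) (.rp 2 (.thr 54 62 (.thr 38 14 (.thr 6 22 (.thr 4 55 (.dbl 12 8 9))))) .nd))))))))) (.rp 47 (.thr 10 58 (.thr 15 5 (.thr 16 31 (.dbl 48 32 37)))) (.rp 32 (.thr 10 58 (.thr 15 5 (.thr 48 37 (.thr 18 33 (.thr 22 30 (.thr 20 23 (.dbl 60 40 41))))))) (.rp 31 (.thr 10 58 (.thr 15 5 (.thr 48 37 (.thr 18 33 (.thr 22 30 (.thr 20 23 (.dbl 60 40 41))))))) (.rp 16 (.thr 10 58 (.thr 15 5 (.thr 48 37 (.thr 18 33 (.thr 22 30 (.thr 20 23 (.dbl 60 40 41))))))) (.rp 15 (.str 11 (.nv (.thr 10 58 (.thr 8 9 (.thr 41 56 (.thr 43 40 (.dbl 59 25 27))))) (.nv (.thr 41 56 (.thr 40 43 (.dbl 60 20 22))) (.rp 56 (.thr 10 58 (.thr 8 9 (.thr 4 12 (.thr 38 55 (.thr 46 34 (.thr 14 50 (.thr 2 6 (.dbl 62 22 30)))))))) (.rp 47 (.thr 31 16 (.thr 41 56 (.thr 40 43 (.dbl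 60 20 22)))) (.rp 43 (.thr 10 58 (.thr 8 9 (.thr 12 4 (.thr 25 59 (.thr 17 29 (.dbl 51 34 38)))))) (.rp 41 (.thr 10 58 (.thr 8 9 (.thr 12 4 (.thr 25 59 (.thr 17 29 (.dbl 51 34 38)))))) (.rp 40 (.thr 10 58 (.thr 8 9 (.thr 12 4 (.thr 25 59 (.thr 17 29 (.dbl 51 34 38)))))) (.rp 31 (.str 47 (.nv (.thr 32 37 (.thr 48 16 (.thr 18 33 (.thr 22 30 (.dbl 41 56 60))))) (.nv (.thr 10 58 (.thr 8 9 (.thr 41 56 (.thr 43 40 (.dbl 59 25 27))))) (.nv (.thr 41 56 (.thr 40 43 (.dbl 60 20 22))) (.rp 56 (.thr 32 37 (.thr 48 16 (.thr 18 33 (.thr 22 30 (.thr 20 23 (.dbl 60 40 41)))))) (.rp 41 (.thr 10 58 (.thr 8 9 (.thr 12 4 (.thr 25 59 (.thr 17 29 (.dbl 51 34 38)))))) .nd)))))) .nd))))))))) .nd))))))))) .nd))))))))))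

theorem w282 : WinAt (4398048608257, 9223372036871553152) :=
  chF (K := []) kn c282 4398048608257 9223372036871553152 63
    [] (by decide +kernel) (by decide +kernel)

/-- A certificate. -/
noncomputable def c283 : Ct := (.str 3 (.nv (.thr 2 1 (.thr 22 62 (.thr 60 41 (.dbl 20 23 40)))) (.nv (.thr 1 2 (.thr 41 61 (.thr 40 43 (.dbl 60 20 22)))) (.rp 62 (.thr 1 2 (.thr 41 61 (.thr 60 22 (.dbl 40 20 43)))) (.rp 60 (.thr 2 1 (.str 18 (.nv (.thr 48 33 (.thr 32 16 (.thr 37 47 (.thr 5 53 (.dbl 15 10 26))))) (.nv (.thr 34 50 (.thr 38 46 (.thr 4 55 (.thr 12 8 (.thr 6 9 (.dbl 22 54 62)))))) (.nv (.thr 34 50 (.thr 48 33 (.thr 16 32 (.dbl 17 19 51)))) (.rp 62 (.str 61 (.nv (.thr 33 48 (.thr 34 50 (.thr 51 17 (.dbl 35 19 32)))) (.nv (.thr 48 33 (.thr 32 16 (.thr 37 47 (.thr 5 53 (.dbl 15 10 26)))))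 (.nv (.thr 48 33 (.thr 16 32 (.thr 34 50 (.dbl 17 19 51)))) (.rp 48 (.thr 34 50 (.thr 51 17 (.thr 35 19 (.thr 38 46 (.thr 41 44 (.thr 43 40 (.thr 47 39 (.dbl 32 33 37)))))))) (.rp 33 (.thr 34 50 (.thr 17 51 (.thr 16 19 (.thr 48 32 (.thr 26 31 (.thr 15 37 (.dbl 10 5 58))))))) (.rp 32 (.thr 48 33 (.thr 34 50 (.thr 17 51 (.thr 16 19 (.thr 26 31 (.thr 15 37 (.dbl 10 5 58))))))) (.rp 17 (.thr 50 34 (.thr 48 33 (.thr 49 51 (.thr 32 16 (.thr 37 47 (.dbl 53 5 57)))))) .nd)))))))) (.rp 61 (.thr 62 22 (.thr 34 50 (.thr 33 48 (.thr 35 32 (.dbl 51 17 19))))) .nd))))))) (.rp 41 (.thr 1 2 (.str 9 (.nv (.thr 5 13 (.thr 37 53 (.thr 32 47 (.thr 48 16 (.dbl 15 10 26))))) (.nv (.thr 5 13 (.thr 12 6 (.thr 8 4 (.dbl 10 11 15)))) (.rp 37 (.thr 13 5 (.thr 12 6 (.thr 4 8 (.thr 14 15 (.thr 38 55 (.thr 34 46 (.thr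 51 17 (.thr 35 19 (.thr 33 32 (.thr 50 26 (.dbl 48 18 49))))))))))) (.rp 15 (.thr 5 13 (.thr 12 6 (.thr 4 8 (.thr 38 55 (.thr 34 46 (.thr 51 17 (.thr 35 19 (.thr 32 33 (.dbl 37 47 53))))))))) (.rp 13 (.thr 12 6 (.thr 4 8 (.thr 38 55 (.thr 34 46 (.thr 51 17 (.thr 35 19 (.thr 32 33 (.thr 37 47 (.thr 39 36 (.thr 15 27 (.dbl 5 10 53))))))))))) (.rp 10 (.thr 5 13 (.thr 37 53 (.thr 32 47 (.thr 48 16 (.thr 33 18 (.thr 34 35 (.dbl 17 49 51))))))) (.rp 5 (.thr 12 6 (.thr 4 8 (.thr 38 55 (.thr 34 46 (.thr 51 17 (.thr 35 19 (.thr 32 33 (.thr 37 47 (.thr 39 36 (.thr 15 27 (.dbl 48 16 26))))))))))) .nd))))))))) (.rp 40 (.str 51 (.nv (.thr 1 2 (.thr 34 17 (.thr 35 19 (.thr 38 46 (.dbl 41 44 61))))) (.nv (.thr 2 1 (.thr 22 62 (.thr 34 17 (.thr 38 46 (.thr 54 6 (.dbl 60 41 57)))))) (.nv (.thr 19 35 (.thr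 17 34 (.thr 1 2 (.thr 18 16 (.dbl 33 48 49))))) (.rp 34 (.thr 35 19 (.thr 1 2 (.thr 41 61 (.thr 38 44 (.thr 4 55 (.thr 12 8 (.thr 6 9 (.dbl 22 54 60)))))))) (.rp 17 (.thr 35 19 (.thr 1 2 (.thr 41 61 (.thr 38 44 (.thr 4 55 (.thr 12 8 (.thr 6 9 (.dbl 22 54 60)))))))) (.rp 2 (.thr 35 19 (.thr 34 17 (.thr 32 33 (.thr 37 47 (.thr 5 53 (.thr 15 10 (.dbl 48 16 26))))))) (.rp 1 (.thr 19 35 (.thr 17 34 (.thr 16 18 (.thr 26 31 (.thr 10 58 (.thr 15 5 (.dbl 48 32 37))))))) .nd)))))))) (.rp 22 (.thr 1 2 (.str 37 (.nv (.thr 5 53 (.thr 9 13 (.thr 12 6 (.thr 8 4 (.dbl 10 11 15))))) (.nv (.thr 32 47 (.thr 41 61 (.thr 33 45 (.thr 34 35 (.dbl 17 49 51))))) (.nv (.thr 32 47 (.thr 5 53 (.thr 48 16 (.dbl 15 10 26)))) (.rp 28 (.str 19 (.nv (.thr 5 53 (.thr 9 13 (.thr 10 15 (.thr 8 11 (.dbl 12 4 6))))) (.nv (.thr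 51 35 (.thr 17 34 (.thr 33 49 (.dbl 18 16 48)))) (.rp 48 (.thr 51 35 (.thr 17 34 (.thr 33 49 (.dbl 41 45 61)))) .nd)))) (.rp 19 (.str 28 (.nv (.thr 5 53 (.thr 9 13 (.thr 12 6 (.thr 8 4 (.dbl 10 11 15))))) (.nv (.thr 41 61 (.thr 40 43 (.thr 60 20 (.thr 44 12 (.dbl 32 36 47))))) (.nv (.thr 5 53 (.thr 15 10 (.thr 32 47 (.dbl 48 16 26)))) .nd)))) (.rp 15 (.thr 41 61 (.thr 33 45 (.thr 48 18 (.dbl 32 16 47)))) .nd)))))))) (.rp 20 (.str 15 (.nv (.thr 1 2 (.thr 5 10 (.thr 41 61 (.thr 60 22 (.thr 45 30 (.dbl 37 33 53)))))) (.nv (.thr 5 10 (.thr 37 53 (.thr 32 47 (.dbl 48 16 26)))) (.rp 53 (.thr 10 5 (.thr 26 58 (.thr 48 37 (.dbl 16 31 32)))) (.rp 37 (.thr 10 5 (.thr 2 1 (.thr 22 62 (.thr 26 58 (.thr 30 18 (.dbl 60 41 45)))))) (.rp 26 (.thr 5 10 (.thr 1 2 (.thr 41 61 (.thr 37 53 (.thr 45 33 (.dbl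 60 22 30)))))) (.rp 10 (.thr 2 1 (.thr 22 62 (.thr 60 41 (.thr 30 45 (.thr 26 18 (.thr 16 31 (.dbl 48 32 37))))))) (.rp 5 (.thr 2 1 (.thr 22 62 (.thr 60 41 (.thr 30 45 (.thr 26 18 (.thr 16 31 (.dbl 48 32 37))))))) .nd)))))))) (.rp 2 (.str 32 (.nv (.thr 37 47 (.thr 48 16 (.thr 33 18 (.thr 41 45 (.thr 40 43 (.dbl 60 20 22)))))) (.nv (.thr 48 16 (.thr 37 47 (.thr 5 53 (.dbl 15 10 26)))) (.rp 48 (.str 51 (.nv (.thr 34 17 (.dbl 35 19 33)) (.rp 58 (.str 53 (.nv (.thr 34 17 (.dbl 35 19 33)) (.nv (.dbl 37 5 47) .nd))) (.rp 53 (.str 58 (.nv (.thr 34 17 (.dbl 35 19 33)) (.rp 35 (.thr 34 17 (.thr 10 26 (.thr 37 47 (.thr 38 46 (.thr 39 36 (.dbl 15 5 27)))))) (.rp 34 (.thr 35 19 (.thr 10 26 (.thr 47 37 (.thr 15 5 (.dbl 39 27 43))))) (.rp 33 (.thr 19 35 (.thr 17 34 (.thr 26 10 (.dbl 16 18 31)))) (.rp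 19 (.thr 34 17 (.thr 35 33 (.thr 10 26 (.thr 47 37 (.thr 15 5 (.dbl 39 27 43)))))) (.rp 17 (.thr 35 19 (.thr 10 26 (.thr 47 37 (.thr 15 5 (.dbl 39 27 43))))) .nd))))))) (.rp 35 (.thr 34 17 (.thr 37 47 (.thr 38 46 (.thr 39 36 (.thr 15 27 (.dbl 5 10 53)))))) (.rp 34 (.thr 35 19 (.thr 47 37 (.thr 43 39 (.thr 41 40 (.thr 22 60 (.thr 38 44 (.thr 6 54 (.thr 12 9 (.dbl 4 8 55))))))))) (.rp 33 (.thr 35 19 (.thr 34 17 (.thr 37 47 (.thr 38 46 (.thr 36 39 (.dbl 44 40 41)))))) (.rp 19 (.thr 34 17 (.thr 35 33 (.thr 37 47 (.thr 38 46 (.thr 36 39 (.dbl 44 40 41)))))) (.rp 17 (.thr 35 19 (.thr 34 33 (.thr 37 47 (.thr 38 46 (.thr 36 39 (.dbl 44 40 41)))))) .nd))))))))) (.rp 47 (.thr 48 16 (.thr 33 18 (.thr 34 35 (.thr 17 51 (.thr 1 49 (.thr 41 61 (.thr 60 22 (.dbl 40 20 43)))))))) (.rp 37 (.thr 48 16 (.thr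 33 18 (.thr 34 35 (.thr 38 46 (.thr 4 55 (.thr 12 8 (.thr 36 24 (.thr 40 44 (.dbl 20 52 60))))))))) (.rp 31 (.thr 48 16 (.thr 37 47 (.thr 15 26 (.dbl 5 10 53)))) (.rp 16 (.thr 37 47 (.thr 5 53 (.thr 15 10 (.thr 48 26 (.thr 33 18 (.thr 41 45 (.thr 40 43 (.dbl 60 20 22)))))))) (.rp 15 (.thr 48 16 (.thr 33 18 (.thr 34 35 (.thr 17 51 (.thr 1 49 (.thr 41 61 (.dbl 37 45 47))))))) .nd))))))))) (.rp 1 (.str 32 (.nv (.thr 37 47 (.thr 48 16 (.thr 33 18 (.thr 41 45 (.thr 40 43 (.dbl 60 20 22)))))) (.nv (.thr 48 16 (.thr 37 47 (.thr 5 53 (.dbl 15 10 26)))) (.rp 48 (.str 51 (.nv (.thr 34 17 (.dbl 35 19 33)) (.rp 58 (.str 53 (.nv (.thr 34 17 (.dbl 35 19 33)) (.nv (.dbl 37 5 47) .nd))) (.rp 53 (.str 58 (.nv (.thr 17 34 (.thr 19 35 (.thr 16 18 (.dbl 26 10 31)))) (.nv (.thr 34 17 (.dbl 35 19 33)) (.rp 35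 (.thr 34 17 (.thr 26 10 (.thr 38 46 (.thr 50 14 (.thr 2 18 (.dbl 62 22 54)))))) (.rp 34 (.thr 35 19 (.thr 10 26 (.thr 47 37 (.thr 15 5 (.dbl 39 27 43))))) (.rp 19 (.thr 34 17 (.thr 26 10 (.thr 38 46 (.thr 50 14 (.thr 62 54 (.dbl 2 18 22)))))) (.rp 17 (.thr 35 19 (.thr 10 26 (.thr 47 37 (.thr 15 5 (.dbl 39 27 43))))) .nd))))))) (.rp 49 (.thr 35 19 (.dbl 34 17 33)) (.rp 35 (.thr 34 17 (.thr 37 47 (.thr 38 46 (.thr 39 36 (.thr 15 27 (.dbl 5 10 53)))))) (.rp 34 (.thr 35 19 (.thr 47 37 (.thr 43 39 (.thr 41 40 (.thr 22 60 (.thr 38 44 (.thr 6 54 (.thr 12 9 (.dbl 4 8 55))))))))) (.rp 33 (.thr 35 19 (.thr 47 37 (.thr 43 39 (.thr 41 40 (.thr 38 44 (.dbl 34 17 46)))))) (.rp 19 (.thr 34 17 (.thr 37 47 (.thr 38 46 (.thr 39 36 (.thr 15 27 (.dbl 5 10 53)))))) (.rp 17 (.thr 35 19 (.thr 33 34 (.thr 37 47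 (.thr 41 45 (.thr 40 43 (.dbl 60 20 22)))))) .nd)))))))))) (.rp 47 (.thr 48 16 (.thr 33 18 (.thr 34 35 (.thr 38 46 (.thr 4 55 (.thr 12 8 (.thr 36 24 (.thr 20 52 (.dbl 40 44 60))))))))) (.rp 37 (.thr 48 16 (.thr 33 18 (.thr 34 35 (.thr 38 46 (.thr 4 55 (.thr 12 8 (.thr 36 24 (.thr 40 44 (.dbl 20 52 60))))))))) (.rp 31 (.thr 48 16 (.thr 37 47 (.thr 15 26 (.dbl 5 10 53)))) (.rp 16 (.thr 37 47 (.thr 5 53 (.thr 15 10 (.thr 48 26 (.thr 33 18 (.thr 41 45 (.thr 40 43 (.dbl 60 20 22)))))))) (.rp 15 (.thr 48 16 (.thr 33 18 (.thr 34 35 (.thr 38 46 (.thr 4 55 (.thr 12 8 (.thr 36 24 (.dbl 37 39 47)))))))) .nd))))))))) .nd)))))))))))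

theorem w283 : WinAt (4398048608257, 9223372036888330368) :=
  chF (K := []) kn c283 4398048608257 9223372036888330368 63
    [] (by decide +kernel) (by decide +kernel)

/-- A certificate. -/
noncomputable def c284 : Ct := (.str 12 (.nv (.thr 4 8 (.thr 38 55 (.thr 51 25 (.dbl 34 17 46)))) (.nv (.thr 8 4 (.thr 25 59 (.thr 17 29 (.dbl 51 34 38)))) (.rp 55 (.thr 8 4 (.thr 25 59 (.thr 51 38 (.dbl 17 29 34)))) (.rp 51 (.thr 8 4 (.thr 59 25 (.str 24 (.nv (.thr 40 56 (.thr 41 43 (.thr 1 61 (.thr 3 2 (.dbl 60 20 22))))) (.nv (.thr 48 36 (.thr 16 32 (.thr 40 56 (.dbl 20 28 60)))) (.rp 60 (.thr 40 56 (.thr 43 41 (.thr 11 27 (.thr 48 36 (.thr 32 16 (.thr 37 47 (.thr 5 53 (.dbl 10 9 15)))))))) (.rp 56 (.thr 48 36 (.thr 16 32 (.thr 20 28 (.thr 22 23 (.thr 2 62 (.thr 3 1 (.dbl 60 40 41))))))) (.rp 41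 (.thr 48 36 (.thr 16 32 (.thr 20 28 (.dbl 40 56 60)))) (.rp 40 (.thr 48 36 (.thr 32 16 (.thr 37 47 (.thr 5 53 (.thr 15 10 (.thr 13 14 (.thr 1 9 (.thr 41 61 (.thr 33 45 (.dbl 3 2 18)))))))))) (.rp 20 (.thr 40 56 (.thr 41 43 (.thr 1 61 (.thr 3 2 (.thr 9 6 (.thr 5 13 (.dbl 10 11 15))))))) (.rp 6 (.str 5 (.nv (.thr 40 56 (.thr 43 41 (.thr 11 27 (.dbl 10 9 15)))) (.nv (.thr 37 53 (.thr 48 36 (.dbl 32 16 47))) .nd))) (.rp 5 (.str 6 (.nv (.thr 48 36 (.thr 16 32 (.thr 20 28 (.dbl 40 56 60)))) (.nv (.thr 40 56 (.thr 41 43 (.thr 3 9 (.dbl 1 2 61)))) (.rp 56 (.thr 3 9 (.thr 1 2 (.thr 41 61 (.thr 60 22 (.dbl 40 20 43))))) (.rp 40 (.thr 3 9 (.thr 1 2 (.thr 41 61 (.thr 60 22 (.thr 28 44 (.thr 16 20 (.dbl 48 32 36))))))) .nd))))) .nd)))))))))))) (.rp 38 (.thr 8 4 (.thr 25 59 (.thr 17 29 (.thr 51 34 (.str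 22 (.nv (.thr 2 62 (.thr 3 1 (.thr 20 23 (.dbl 60 40 41)))) (.nv (.thr 2 62 (.thr 3 1 (.dbl 19 28 35))) (.nv (.thr 28 19 (.thr 60 44 (.dbl 20 23 40))) (.rp 60 (.thr 19 28 (.thr 3 35 (.dbl 2 1 62))) (.rp 50 (.str 14 (.nv (.thr 28 19 (.thr 60 44 (.dbl 20 23 40))) (.nv (.thr 2 62 (.thr 3 1 (.dbl 6 9 10))) (.rp 60 (.thr 19 28 (.thr 3 35 (.dbl 2 1 62))) (.rp 6 (.str 5 (.nv (.thr 2 62 (.thr 3 1 (.dbl 19 28 35))) (.nv (.dbl 15 10 13) (.rp 2 (.str 18 (.nv (.dbl 19 16 28) (.nv (.dbl 15 10 13) .nd))) .nd)))) (.rp 5 (.str 6 (.nv (.thr 3 9 (.dbl 19 28 35)) (.nv (.dbl 2 10 62) (.rp 2 (.str 18 (.nv (.thr 3 9 (.thr 20 23 (.dbl 60 40 41))) (.nv (.dbl 19 16 28) .nd))) .nd)))) (.rp 2 (.str 18 (.nv (.dbl 19 16 28) (.rp 28 (.thr 19 16 (.thr 20 23 (.thr 3 35 (.dbl 60 40 41)))) (.rp 19 (.thr 20 23 (.thr 60 40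 (.thr 57 54 (.dbl 41 3 9)))) (.rp 16 (.thr 28 19 (.thr 20 23 (.dbl 60 40 44))) (.rp 6 (.str 5 (.nv (.dbl 19 16 28) (.nv (.dbl 15 10 13) .nd))) (.rp 5 (.str 6 (.nv (.thr 3 9 (.thr 20 23 (.dbl 60 40 41))) (.nv (.dbl 19 16 28) .nd))) .nd))))))) .nd))))))) (.rp 14 (.str 50 (.nv (.thr 20 23 (.thr 60 40 (.thr 3 41 (.dbl 2 1 62)))) (.nv (.thr 19 28 (.thr 16 18 (.dbl 48 32 49))) (.rp 6 (.str 5 (.nv (.thr 2 62 (.thr 3 1 (.dbl 19 28 35))) (.nv (.thr 49 48 (.dbl 37 13 53)) (.rp 2 (.thr 10 15 (.thr 49 48 (.dbl 37 13 53))) .nd)))) (.rp 5 (.str 6 (.nv (.thr 19 28 (.thr 16 18 (.dbl 48 32 49))) (.nv (.thr 3 9 (.dbl 2 1 62)) .nd))) .nd))))) (.rp 6 (.str 5 (.nv (.thr 20 23 (.thr 28 19 (.dbl 60 40 44))) (.nv (.thr 15 10 (.thr 37 53 (.dbl 13 14 49))) (.rp 50 (.str 14 (.nv (.thr 2 62 (.thr 3 1 (.dbl 19 28 35)))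 (.nv (.dbl 15 10 13) (.rp 2 (.str 18 (.nv (.dbl 19 16 28) (.nv (.dbl 15 10 13) .nd))) .nd)))) (.rp 14 (.str 50 (.nv (.thr 2 62 (.thr 3 1 (.dbl 19 28 35))) (.nv (.thr 49 48 (.dbl 37 13 53)) (.rp 2 (.thr 10 15 (.thr 49 48 (.dbl 37 13 53))) .nd)))) .nd))))) (.rp 5 (.str 6 (.nv (.thr 28 19 (.thr 60 44 (.dbl 20 23 40))) (.nv (.thr 3 9 (.dbl 2 1 62)) (.rp 50 (.str 14 (.nv (.thr 3 9 (.dbl 19 28 35)) (.nv (.dbl 2 10 62) (.rp 2 (.str 18 (.nv (.thr 3 9 (.thr 20 23 (.dbl 60 40 41))) (.nv (.dbl 19 16 28) .nd))) .nd)))) (.rp 14 (.str 50 (.nv (.thr 19 28 (.thr 16 18 (.dbl 48 32 49))) (.nv (.thr 3 9 (.dbl 2 1 62)) .nd))) .nd))))) .nd))))))))))))) (.rp 34 (.str 5 (.nv (.thr 4 8 (.thr 37 53 (.thr 32 47 (.thr 38 55 (.thr 48 16 (.dbl 36 24 39)))))) (.nv (.thr 8 4 (.thr 10 15 (.thr 9 11 (.thr 3 6 (.dbl 1 2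 13))))) (.nv (.thr 8 4 (.thr 15 10 (.thr 25 59 (.thr 37 53 (.dbl 13 14 49))))) (.rp 48 (.thr 15 10 (.thr 13 14 (.thr 8 4 (.thr 25 59 (.dbl 37 49 53))))) (.rp 37 (.thr 15 10 (.thr 13 14 (.thr 1 9 (.thr 8 4 (.thr 61 41 (.thr 25 59 (.dbl 29 17 45))))))) (.rp 15 (.thr 8 4 (.thr 37 53 (.thr 25 59 (.thr 29 17 (.thr 13 49 (.thr 1 9 (.dbl 61 41 45))))))) (.rp 8 (.thr 15 10 (.thr 13 14 (.thr 37 53 (.thr 25 49 (.thr 29 17 (.thr 61 45 (.dbl 1 9 41))))))) (.rp 4 (.thr 15 10 (.thr 13 14 (.thr 1 9 (.thr 41 61 (.thr 40 43 (.thr 60 20 (.dbl 3 2 22))))))) .nd))))))))) (.rp 25 (.str 24 (.nv (.thr 4 8 (.thr 36 48 (.thr 20 52 (.thr 60 40 (.dbl 28 16 44))))) (.nv (.thr 8 4 (.thr 40 56 (.thr 41 43 (.thr 1 61 (.thr 3 2 (.dbl 60 20 22)))))) (.nv (.thr 8 4 (.thr 40 56 (.thr 48 36 (.thr 16 32 (.dbl 20 28 60)))))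 (.rp 60 (.thr 48 36 (.thr 8 4 (.thr 40 56 (.thr 32 16 (.thr 37 47 (.thr 41 43 (.thr 33 45 (.thr 3 18 (.dbl 1 2 61))))))))) (.rp 40 (.thr 36 48 (.thr 4 8 (.thr 20 52 (.thr 28 16 (.thr 60 44 (.thr 22 23 (.thr 2 62 (.dbl 3 1 41)))))))) (.rp 20 (.thr 36 48 (.thr 8 4 (.thr 40 56 (.thr 44 32 (.thr 60 28 (.thr 41 43 (.thr 1 61 (.dbl 3 2 22)))))))) (.rp 8 (.thr 48 36 (.thr 16 32 (.thr 20 28 (.thr 22 23 (.thr 2 62 (.thr 3 1 (.dbl 60 40 41))))))) (.rp 4 (.thr 48 36 (.thr 16 32 (.thr 20 28 (.thr 22 23 (.thr 2 62 (.thr 3 1 (.dbl 60 40 41))))))) .nd))))))))) (.rp 17 (.str 15 (.nv (.thr 8 4 (.thr 5 10 (.thr 13 14 (.thr 37 53 (.dbl 25 49 59))))) (.nv (.thr 4 8 (.thr 5 10 (.thr 37 53 (.thr 38 55 (.thr 39 36 (.dbl 51 25 27)))))) (.nv (.thr 14 13 (.thr 10 5 (.thr 8 4 (.thr 6 2 (.dbl 9 3 11))))) (.rp 10 (.thr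 13 14 (.thr 8 4 (.thr 25 59 (.thr 37 49 (.thr 32 47 (.thr 48 16 (.thr 36 24 (.dbl 38 39 51)))))))) (.rp 8 (.thr 13 14 (.thr 5 10 (.thr 37 53 (.thr 32 47 (.thr 25 49 (.thr 38 51 (.thr 36 39 (.dbl 48 16 24)))))))) (.rp 5 (.thr 14 13 (.thr 4 8 (.thr 38 55 (.thr 46 34 (.thr 30 62 (.thr 60 45 (.thr 44 28 (.thr 41 35 (.dbl 40 20 43))))))))) (.rp 4 (.thr 13 14 (.thr 5 10 (.thr 1 9 (.thr 41 61 (.thr 40 43 (.thr 60 20 (.dbl 3 2 22))))))) .nd)))))))) (.rp 8 (.str 40 (.nv (.thr 41 43 (.thr 60 20 (.thr 44 28 (.thr 38 35 (.thr 34 46 (.dbl 51 17 25)))))) (.nv (.thr 60 20 (.thr 41 43 (.thr 1 61 (.dbl 3 2 22)))) (.rp 60 (.thr 41 43 (.str 3 (.nv (.dbl 1 2 61) (.rp 62 (.thr 61 1 (.thr 9 6 (.thr 25 57 (.thr 17 29 (.dbl 51 34 38))))) (.rp 61 (.str 62 (.nv (.dbl 2 1 22) (.rp 22 (.thr 9 6 (.thr 25 57 (.thr 17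 29 (.dbl 51 34 38)))) (.rp 2 (.thr 9 6 (.thr 25 57 (.thr 17 29 (.dbl 51 34 38)))) (.rp 1 (.thr 9 6 (.thr 25 57 (.thr 17 29 (.dbl 51 34 38)))) .nd))))) (.rp 2 (.thr 9 6 (.thr 25 57 (.thr 17 29 (.dbl 51 34 38)))) (.rp 1 (.thr 9 6 (.thr 25 57 (.thr 17 29 (.dbl 51 34 38)))) .nd))))))) (.rp 43 (.thr 60 20 (.thr 44 28 (.thr 32 36 (.thr 47 37 (.thr 46 45 (.thr 38 34 (.thr 41 35 (.thr 1 61 (.dbl 3 2 22))))))))) (.rp 41 (.thr 60 20 (.thr 44 28 (.thr 32 36 (.thr 37 47 (.thr 5 53 (.thr 15 10 (.thr 45 30 (.thr 13 14 (.thr 29 61 (.dbl 25 17 49)))))))))) (.rp 23 (.thr 60 20 (.thr 41 43 (.thr 3 22 (.dbl 1 2 61)))) (.rp 20 (.thr 41 43 (.thr 1 61 (.thr 3 2 (.thr 9 6 (.thr 25 57 (.thr 17 29 (.dbl 51 34 38))))))) (.rp 3 (.thr 60 20 (.thr 44 28 (.thr 32 36 (.thr 47 37 (.thr 46 45 (.thr 38 34 (.dbl 41 35 43)))))))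 .nd))))))))) (.rp 4 (.str 15 (.nv (.thr 5 10 (.thr 13 14 (.thr 1 9 (.thr 41 61 (.thr 40 43 (.thr 60 20 (.dbl 3 2 22))))))) (.nv (.thr 13 14 (.thr 5 10 (.thr 37 53 (.thr 25 49 (.thr 17 29 (.dbl 51 34 38)))))) (.rp 61 (.thr 14 13 (.thr 10 5 (.thr 6 2 (.thr 9 3 (.thr 8 11 (.thr 25 59 (.thr 51 38 (.dbl 17 29 34)))))))) (.rp 50 (.thr 14 13 (.thr 10 5 (.thr 6 2 (.thr 9 3 (.thr 8 11 (.thr 25 59 (.thr 17 29 (.dbl 51 34 38)))))))) (.rp 38 (.thr 5 10 (.thr 37 53 (.thr 32 47 (.thr 48 16 (.thr 36 24 (.thr 40 44 (.thr 41 43 (.thr 45 33 (.dbl 60 20 30))))))))) (.rp 14 (.thr 5 10 (.thr 37 53 (.thr 32 47 (.thr 48 16 (.thr 36 24 (.thr 38 39 (.thr 34 46 (.dbl 51 17 25)))))))) (.rp 13 (.thr 5 10 (.thr 37 53 (.thr 32 47 (.thr 48 16 (.thr 36 24 (.thr 38 39 (.thr 34 46 (.dbl 51 17 25)))))))) (.rp 10 (.str 5 (.nv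 (.thr 13 14 (.thr 1 9 (.thr 41 61 (.thr 40 43 (.thr 60 20 (.dbl 3 2 22)))))) (.nv (.thr 13 14 (.thr 37 53 (.thr 25 49 (.thr 17 29 (.dbl 51 34 38))))) (.rp 61 (.thr 13 14 (.thr 9 1 (.thr 37 53 (.thr 25 49 (.thr 57 41 (.thr 17 29 (.dbl 51 34 38))))))) (.rp 50 (.thr 37 53 (.thr 32 47 (.thr 48 16 (.thr 36 24 (.thr 13 14 (.thr 38 39 (.dbl 25 49 51))))))) (.rp 38 (.thr 37 53 (.thr 32 47 (.thr 48 16 (.thr 36 24 (.thr 40 44 (.thr 41 43 (.thr 45 33 (.dbl 60 20 30)))))))) (.rp 14 (.thr 37 53 (.thr 32 47 (.thr 48 16 (.thr 36 24 (.thr 38 39 (.thr 34 46 (.dbl 51 17 25))))))) (.rp 13 (.thr 37 53 (.thr 32 47 (.thr 48 16 (.thr 36 24 (.thr 38 39 (.thr 34 46 (.dbl 51 17 25))))))) (.rp 6 (.thr 37 53 (.thr 32 47 (.thr 48 16 (.thr 36 24 (.thr 38 39 (.thr 34 46 (.dbl 51 17 25))))))) (.rp 2 (.thr 37 53 (.thr 32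 47 (.thr 48 16 (.thr 36 24 (.thr 38 39 (.thr 34 46 (.dbl 51 17 25))))))) .nd)))))))))) (.rp 6 (.thr 5 10 (.thr 37 53 (.thr 32 47 (.thr 48 16 (.thr 36 24 (.thr 38 39 (.thr 34 46 (.dbl 51 17 25)))))))) (.rp 5 (.str 6 (.nv (.thr 3 9 (.thr 1 2 (.thr 41 61 (.thr 40 43 (.dbl 60 20 22))))) (.nv (.thr 14 13 (.thr 2 10 (.dbl 3 1 9))) (.rp 9 (.str 1 (.nv (.thr 3 2 (.thr 41 61 (.thr 40 43 (.dbl 60 20 22)))) (.nv (.thr 14 13 (.dbl 2 3 10)) (.rp 3 (.thr 14 13 (.thr 2 10 (.thr 22 62 (.thr 38 54 (.thr 34 46 (.dbl 51 17 25)))))) (.rp 2 (.thr 41 61 (.thr 40 43 (.thr 60 20 (.thr 44 28 (.thr 38 35 (.dbl 22 3 54)))))) .nd))))) (.rp 3 (.thr 14 13 (.thr 2 10 (.thr 22 62 (.thr 38 54 (.thr 34 46 (.dbl 51 17 25)))))) (.rp 2 (.str 45 (.nv (.thr 60 30 (.thr 40 20 (.thr 44 28 (.thr 47 46 (.dbl 32 36 37))))) (.nv (.thr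 9 3 (.thr 13 14 (.thr 61 29 (.thr 41 1 (.thr 25 57 (.dbl 37 33 49)))))) (.nv (.thr 3 9 (.thr 60 30 (.thr 20 40 (.dbl 22 23 41)))) .nd)))) (.rp 1 (.thr 14 13 (.thr 9 3 (.thr 10 2 (.thr 8 11 (.thr 25 59 (.thr 17 29 (.dbl 51 34 38))))))) .nd))))))) (.rp 2 (.thr 5 10 (.thr 37 53 (.thr 32 47 (.thr 48 16 (.thr 36 24 (.thr 38 39 (.thr 34 46 (.dbl 51 17 25)))))))) .nd)))))))))))) .nd)))))))))))

theorem w284 : WinAt (4398048608257, 9223372036921884800) :=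
  chF (K := []) kn c284 4398048608257 9223372036921884800 63
    [] (by decide +kernel) (by decide +kernel)

/-- A certificate. -/
noncomputable def c285 : Ct := (.str 12 (.nv (.thr 4 8 (.thr 38 55 (.thr 51 25 (.dbl 34 17 46)))) (.nv (.thr 8 4 (.thr 25 59 (.thr 51 38 (.dbl 17 29 34)))) (.rp 51 (.thr 4 8 (.thr 55 38 (.str 52 (.nv (.thr 36 20 (.thr 48 24 (.thr 16 32 (.thr 26 31 (.thr 10 58 (.dbl 15 5 37)))))) (.nv (.thr 20 36 (.thr 22 23 (.thr 2 62 (.thr 3 1 (.dbl 60 40 41))))) (.rp 40 (.thr 36 20 (.thr 53 54 (.thr 37 5 (.thr 32 47 (.dbl 48 16 24))))) (.rp 37 (.thr 36 20 (.thr 48 24 (.thr 16 32 (.thr 56 60 (.thr 26 31 (.thr 58 10 (.thr 53 54 (.thr 57 59 (.thr 61 49 (.dbl 41 1 11)))))))))) (.rp 36 (.thr 53 54 (.thr 37 5 (.thr 32 47 (.thr 48 16 (.thr 60 56 (.thr 15 26 (.thr 45 30 (.thr 41 33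 (.dbl 40 20 43))))))))) (.rp 20 (.thr 53 54 (.thr 37 5 (.thr 32 47 (.thr 48 16 (.thr 24 36 (.thr 60 56 (.thr 15 26 (.thr 45 30 (.thr 41 33 (.thr 61 1 (.dbl 13 14 29))))))))))) .nd))))))))) (.rp 38 (.str 5 (.nv (.thr 8 4 (.thr 10 15 (.thr 9 11 (.thr 3 6 (.dbl 1 2 13))))) (.nv (.thr 15 10 (.thr 37 53 (.thr 32 47 (.dbl 48 16 26)))) (.rp 47 (.thr 15 10 (.thr 13 14 (.thr 8 4 (.thr 37 53 (.dbl 25 49 59))))) (.rp 15 (.thr 8 4 (.thr 37 53 (.thr 25 59 (.thr 29 17 (.thr 13 49 (.thr 1 9 (.dbl 61 41 45))))))) (.rp 10 (.thr 4 8 (.thr 37 53 (.thr 32 47 (.thr 48 16 (.thr 36 24 (.thr 20 52 (.dbl 40 44 60))))))) .nd)))))) (.rp 34 (.str 15 (.nv (.thr 4 8 (.thr 14 13 (.thr 38 55 (.thr 26 50 (.thr 16 31 (.dbl 48 32 37)))))) (.nv (.thr 8 4 (.thr 14 13 (.thr 10 5 (.thr 6 2 (.dbl 9 3 11))))) (.nv (.thr 5 10 (.thr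 37 53 (.thr 48 26 (.dbl 32 16 47)))) .nd)))) (.rp 25 (.str 22 (.nv (.thr 4 8 (.thr 20 23 (.thr 36 52 (.thr 48 24 (.thr 32 16 (.dbl 40 44 60)))))) (.nv (.thr 2 62 (.thr 3 1 (.thr 4 8 (.thr 6 9 (.dbl 38 54 55))))) (.nv (.thr 20 23 (.thr 60 40 (.thr 2 62 (.dbl 3 1 41)))) (.rp 60 (.thr 4 8 (.thr 38 55 (.thr 6 54 (.thr 3 9 (.dbl 2 1 62))))) (.rp 55 (.thr 2 62 (.thr 3 1 (.thr 60 41 (.dbl 20 23 40)))) (.rp 3 (.thr 4 8 (.thr 62 2 (.thr 38 55 (.thr 54 6 (.thr 50 58 (.thr 14 26 (.dbl 46 30 34))))))) .nd))))))) (.rp 17 (.str 15 (.nv (.thr 4 8 (.thr 14 13 (.thr 38 55 (.thr 26 50 (.thr 16 31 (.dbl 48 32 37)))))) (.nv (.thr 8 4 (.thr 14 13 (.thr 10 5 (.thr 6 2 (.dbl 9 3 11))))) (.nv (.thr 5 10 (.thr 37 53 (.thr 48 26 (.dbl 32 16 47)))) .nd)))) (.rp 8 (.str 1 (.nv (.thr 3 2 (.thr 9 6 (.thr 41 61 (.thr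 25 57 (.thr 17 29 (.dbl 51 34 38)))))) (.nv (.thr 3 2 (.thr 41 61 (.thr 40 43 (.dbl 60 20 22)))) (.rp 62 (.thr 3 2 (.thr 41 61 (.thr 60 22 (.dbl 40 20 43)))) (.rp 61 (.thr 3 2 (.thr 9 6 (.thr 5 13 (.thr 37 53 (.thr 32 47 (.thr 48 16 (.dbl 15 10 26))))))) (.rp 60 (.thr 3 2 (.thr 9 6 (.thr 5 13 (.thr 37 53 (.thr 32 47 (.thr 48 16 (.dbl 15 10 26))))))) (.rp 41 (.thr 3 2 (.thr 9 6 (.thr 5 13 (.thr 37 53 (.thr 32 47 (.thr 48 16 (.dbl 15 10 26))))))) (.rp 3 (.str 15 (.nv (.thr 10 5 (.thr 26 58 (.thr 16 31 (.dbl 48 32 37)))) (.nv (.thr 13 14 (.dbl 5 9 10)) (.rp 43 (.str 23 (.nv (.thr 10 5 (.thr 26 58 (.thr 16 31 (.dbl 48 32 37)))) (.nv (.thr 13 14 (.dbl 5 9 10)) (.rp 10 (.thr 13 14 (.thr 20 22 (.thr 61 41 (.thr 60 40 (.dbl 45 29 30))))) (.rp 5 (.thr 13 14 (.thr 20 22 (.thr 61 41 (.thr 60 40 (.dbl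 45 29 30))))) .nd))))) (.rp 23 (.str 43 (.nv (.thr 5 10 (.dbl 13 9 14)) (.nv (.dbl 41 40 61) (.rp 55 (.str 39 (.nv (.thr 51 27 (.thr 5 10 (.dbl 13 9 14))) (.nv (.dbl 41 40 61) (.rp 51 (.str 59 (.nv (.thr 35 47 (.thr 5 10 (.dbl 13 9 14))) (.nv (.dbl 41 40 61) (.rp 35 (.str 19 (.nv (.thr 5 10 (.dbl 13 9 14)) (.nv (.dbl 41 40 61) .nd))) .nd)))) .nd)))) (.rp 39 (.str 55 (.nv (.thr 5 10 (.dbl 13 9 14)) (.nv (.dbl 41 40 61) .nd))) .nd))))) (.rp 10 (.thr 13 14 (.thr 9 5 (.thr 41 61 (.thr 25 57 (.thr 17 29 (.dbl 51 34 38)))))) (.rp 5 (.thr 13 14 (.thr 61 41 (.thr 29 45 (.thr 25 17 (.thr 37 49 (.thr 32 47 (.dbl 48 16 26))))))) .nd))))))) (.rp 2 (.thr 41 61 (.thr 40 43 (.thr 60 20 (.thr 3 22 (.thr 9 6 (.thr 25 57 (.thr 17 29 (.dbl 51 34 38)))))))) .nd))))))))) (.rp 4 (.str 15 (.nv (.thr 5 10 (.thr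 13 14 (.thr 37 53 (.thr 25 49 (.thr 17 29 (.dbl 51 34 38)))))) (.nv (.thr 5 10 (.thr 37 53 (.thr 48 26 (.dbl 32 16 47)))) (.rp 53 (.thr 14 13 (.thr 10 5 (.thr 6 2 (.thr 26 58 (.thr 48 37 (.dbl 16 31 32)))))) (.rp 48 (.thr 13 14 (.thr 5 10 (.thr 1 9 (.thr 41 61 (.thr 40 43 (.thr 60 20 (.dbl 3 2 22))))))) (.rp 37 (.thr 14 13 (.thr 10 5 (.thr 6 2 (.thr 26 58 (.thr 38 50 (.thr 34 46 (.dbl 51 17 25))))))) (.rp 10 (.str 5 (.nv (.thr 13 14 (.thr 37 53 (.thr 25 49 (.thr 17 29 (.dbl 51 34 38))))) (.nv (.thr 37 53 (.thr 48 26 (.dbl 32 16 47))) (.rp 53 (.thr 13 14 (.thr 1 9 (.thr 41 61 (.thr 40 43 (.thr 60 20 (.dbl 3 2 22)))))) (.rp 48 (.thr 13 14 (.thr 1 9 (.thr 41 61 (.thr 40 43 (.thr 60 20 (.dbl 3 2 22)))))) (.rp 37 (.thr 13 14 (.thr 1 9 (.thr 41 61 (.thr 40 43 (.thr 60 20 (.dbl 3 2 22)))))) .nd))))))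 (.rp 5 (.str 6 (.nv (.thr 3 9 (.thr 1 2 (.thr 41 61 (.thr 40 43 (.dbl 60 20 22))))) (.nv (.thr 14 13 (.thr 2 10 (.dbl 3 1 9))) (.rp 9 (.str 1 (.nv (.thr 3 2 (.thr 41 61 (.thr 40 43 (.dbl 60 20 22)))) (.nv (.thr 14 13 (.dbl 2 3 10)) (.rp 3 (.thr 14 13 (.thr 10 2 (.thr 26 58 (.thr 16 31 (.dbl 48 32 37))))) (.rp 2 (.thr 13 14 (.thr 61 41 (.thr 29 45 (.thr 25 17 (.thr 37 49 (.thr 32 47 (.dbl 48 16 26))))))) .nd))))) (.rp 3 (.thr 14 13 (.thr 10 2 (.thr 26 58 (.thr 16 31 (.dbl 48 32 37))))) (.rp 2 (.str 10 (.nv (.thr 9 3 (.thr 8 11 (.thr 25 59 (.thr 51 38 (.dbl 17 29 34))))) (.nv (.thr 26 58 (.thr 48 37 (.dbl 16 31 32))) .nd))) (.rp 1 (.thr 14 13 (.thr 9 3 (.thr 10 2 (.thr 26 58 (.thr 16 31 (.dbl 48 32 37)))))) .nd))))))) .nd)))))))) .nd))))))))))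

theorem w285 : WinAt (4398048608257, 9223372037123211392) :=
  chF (K := []) kn c285 4398048608257 9223372037123211392 63
    [] (by decide +kernel) (by decide +kernel)

/-- A certificate. -/
noncomputable def c286 : Ct := (.str 48 (.nv (.thr 53 58 (.thr 37 5 (.thr 15 26 (.dbl 47 31 32)))) (.nv (.thr 58 53 (.thr 26 10 (.thr 31 16 (.dbl 15 37 47)))) (.rp 58 (.str 22 (.nv (.thr 23 20 (.thr 3 43 (.thr 18 33 (.thr 26 30 (.thr 31 16 (.dbl 15 37 47)))))) (.nv (.thr 23 20 (.thr 62 2 (.thr 3 43 (.dbl 60 41 61)))) (.rp 60 (.str 50 (.nv (.thr 51 49 (.thr 59 55 (.thr 25 8 (.thr 19 28 (.thr 3 35 (.dbl 23 20 43)))))) (.nv (.thr 2 62 (.thr 34 18 (.thr 38 46 (.thr 14 26 (.dbl 6 10 54))))) (.rp 40 (.thr 20 23 (.thr 51 49 (.thr 55 59 (.thr 38 4 (.thr 34 46 (.dbl 2 18 62)))))) (.rp 20 (.str 40 (.nv (.thr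 2 62 (.thr 51 49 (.thr 55 59 (.thr 38 4 (.thr 6 54 (.dbl 14 10 26)))))) (.nv (.thr 43 41 (.thr 2 62 (.thr 18 34 (.dbl 3 23 33)))) (.rp 62 (.thr 51 49 (.thr 59 55 (.thr 43 41 (.thr 25 8 (.thr 19 28 (.dbl 3 23 35)))))) (.rp 51 (.thr 43 41 (.thr 2 62 (.thr 3 23 (.dbl 18 33 34)))) (.rp 2 (.thr 51 49 (.thr 59 55 (.thr 43 41 (.thr 25 8 (.thr 19 28 (.dbl 3 23 35)))))) .nd)))))) .nd))))) (.rp 43 (.thr 62 2 (.thr 60 61 (.thr 3 41 (.thr 18 33 (.thr 26 30 (.thr 31 16 (.dbl 15 37 47))))))) (.rp 40 (.thr 62 2 (.thr 60 61 (.thr 23 20 (.dbl 3 41 43)))) (.rp 23 (.thr 62 2 (.thr 60 61 (.thr 3 41 (.thr 18 33 (.thr 26 30 (.thr 31 16 (.dbl 15 37 47))))))) (.rp 20 (.thr 62 2 (.thr 60 61 (.thr 3 41 (.thr 18 33 (.thr 26 30 (.thr 31 16 (.dbl 15 37 47))))))) (.rp 3 (.str 15 (.nv (.thr 26 37 (.thr 30 18 (.thr 60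 45 (.dbl 62 2 61)))) (.nv (.thr 31 47 (.dbl 26 16 37)) (.rp 37 (.thr 31 47 (.thr 26 16 (.thr 30 18 (.thr 60 45 (.dbl 62 2 61))))) (.rp 26 (.thr 31 47 (.thr 23 20 (.thr 2 62 (.thr 27 19 (.thr 51 39 (.thr 55 59 (.thr 38 4 (.thr 34 46 (.dbl 50 18 49))))))))) (.rp 2 (.str 1 (.nv (.thr 26 37 (.thr 30 18 (.thr 60 45 (.dbl 61 41 62)))) (.nv (.thr 31 47 (.dbl 26 16 37)) (.rp 37 (.thr 31 47 (.thr 61 41 (.thr 26 16 (.thr 30 18 (.dbl 60 45 62))))) (.rp 26 (.thr 47 31 (.thr 41 61 (.thr 37 32 (.thr 5 53 (.thr 33 45 (.thr 13 9 (.dbl 49 17 25))))))) .nd))))) (.rp 1 (.thr 2 62 (.thr 31 47 (.dbl 26 16 37))) .nd))))))) .nd))))))))) (.rp 53 (.str 22 (.nv (.thr 23 20 (.thr 3 43 (.thr 18 33 (.thr 26 30 (.thr 31 16 (.dbl 15 37 47)))))) (.nv (.thr 23 20 (.thr 62 2 (.thr 3 43 (.dbl 60 41 61)))) (.rp 60 (.str 50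 (.nv (.thr 2 62 (.thr 18 34 (.thr 3 33 (.dbl 23 20 43)))) (.nv (.thr 20 23 (.thr 51 49 (.thr 55 59 (.thr 38 4 (.thr 62 2 (.dbl 54 6 58)))))) (.nv (.thr 2 62 (.thr 34 18 (.thr 38 46 (.thr 14 26 (.dbl 6 10 54))))) (.rp 62 (.thr 51 49 (.thr 59 55 (.thr 25 8 (.thr 19 28 (.thr 3 35 (.dbl 23 20 43)))))) (.rp 20 (.str 40 (.nv (.thr 2 62 (.thr 34 18 (.thr 38 46 (.thr 14 26 (.dbl 6 10 54))))) (.nv (.thr 51 49 (.thr 55 59 (.thr 38 4 (.thr 62 2 (.dbl 54 6 58))))) (.nv (.thr 43 41 (.thr 2 62 (.thr 18 34 (.dbl 3 23 33)))) (.rp 62 (.thr 51 49 (.thr 59 55 (.thr 43 41 (.thr 25 8 (.thr 19 28 (.dbl 3 23 35)))))) (.rp 2 (.thr 51 49 (.thr 59 55 (.thr 43 41 (.thr 25 8 (.thr 19 28 (.dbl 3 23 35)))))) .nd)))))) (.rp 2 (.thr 51 49 (.thr 59 55 (.thr 25 8 (.thr 19 28 (.thr 3 35 (.dbl 23 20 43)))))) .nd))))))) (.rp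 43 (.thr 62 2 (.thr 60 61 (.thr 3 41 (.thr 18 33 (.thr 26 30 (.thr 31 16 (.dbl 15 37 47))))))) (.rp 40 (.thr 62 2 (.thr 60 61 (.thr 23 20 (.dbl 3 41 43)))) (.rp 23 (.thr 62 2 (.thr 60 61 (.thr 3 41 (.thr 18 33 (.thr 26 30 (.thr 31 16 (.dbl 15 37 47))))))) (.rp 20 (.thr 62 2 (.thr 60 61 (.thr 3 41 (.thr 18 33 (.thr 26 30 (.thr 31 16 (.dbl 15 37 47))))))) (.rp 3 (.thr 2 62 (.str 15 (.nv (.thr 31 47 (.dbl 26 16 37)) (.rp 47 (.thr 26 37 (.thr 10 58 (.thr 18 30 (.thr 50 34 (.dbl 14 6 38))))) (.rp 37 (.thr 31 47 (.thr 26 16 (.thr 10 58 (.thr 18 30 (.thr 50 34 (.dbl 14 6 38)))))) (.rp 31 (.thr 26 37 (.thr 10 58 (.thr 14 6 (.thr 50 38 (.dbl 18 30 34))))) (.rp 26 (.thr 31 47 (.thr 23 20 (.thr 27 19 (.thr 51 39 (.thr 55 59 (.thr 50 49 (.thr 34 18 (.dbl 38 4 46)))))))) (.rp 16 (.thr 47 31 (.dbl 37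 26 32)) .nd)))))))) .nd))))))))) (.rp 47 (.str 49 (.nv (.thr 53 58 (.thr 61 57 (.thr 41 1 (.thr 43 40 (.thr 3 23 (.dbl 60 22 62)))))) (.nv (.thr 50 51 (.thr 58 53 (.thr 26 10 (.thr 38 14 (.thr 34 46 (.thr 2 18 (.dbl 62 22 54))))))) (.nv (.thr 51 50 (.thr 53 58 (.thr 55 59 (.thr 57 61 (.dbl 54 52 60))))) (.rp 62 (.thr 51 50 (.thr 55 59 (.thr 53 58 (.thr 54 52 (.dbl 57 60 61))))) (.rp 58 (.thr 51 50 (.thr 59 55 (.thr 25 8 (.thr 12 38 (.thr 24 36 (.thr 26 27 (.dbl 37 13 15))))))) (.rp 53 (.thr 51 50 (.thr 59 55 (.thr 25 8 (.thr 12 38 (.thr 24 36 (.thr 26 27 (.dbl 37 13 15))))))) .nd))))))) (.rp 37 (.str 22 (.nv (.thr 58 53 (.thr 26 10 (.thr 18 30 (.thr 3 33 (.dbl 23 20 43))))) (.nv (.thr 23 20 (.thr 62 2 (.thr 3 43 (.dbl 60 41 61)))) (.rp 43 (.thr 58 53 (.thr 62 2 (.thr 50 54 (.thr 26 10 (.thr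 30 18 (.dbl 14 38 46)))))) (.rp 41 (.thr 58 53 (.thr 23 20 (.thr 26 10 (.thr 18 30 (.dbl 3 33 43))))) (.rp 23 (.thr 58 53 (.thr 62 2 (.thr 50 54 (.thr 26 10 (.thr 30 18 (.dbl 14 38 46)))))) (.rp 20 (.thr 58 53 (.thr 62 2 (.thr 50 54 (.thr 26 10 (.thr 30 18 (.dbl 14 38 46)))))) (.rp 3 (.thr 58 53 (.thr 20 23 (.thr 26 10 (.thr 18 30 (.thr 16 31 (.thr 28 24 (.dbl 19 17 25))))))) .nd)))))))) (.rp 31 (.thr 58 53 (.thr 26 10 (.thr 15 37 (.str 22 (.nv (.thr 23 20 (.thr 3 43 (.thr 62 2 (.dbl 60 41 61)))) (.nv (.thr 23 20 (.thr 3 43 (.dbl 18 30 33))) (.nv (.thr 30 18 (.thr 60 45 (.dbl 62 2 61))) (.rp 60 (.thr 30 18 (.thr 62 2 (.thr 14 46 (.dbl 50 38 54)))) (.rp 30 (.str 28 (.nv (.thr 62 2 (.thr 54 50 (.thr 60 61 (.thr 56 52 (.dbl 41 3 11))))) (.nv (.thr 20 23 (.thr 24 16 (.dbl 25 19 27))) .nd)))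 .nd))))))))) (.rp 26 (.str 49 (.nv (.thr 51 50 (.thr 53 58 (.thr 37 5 (.thr 59 55 (.dbl 25 8 13))))) (.nv (.thr 53 58 (.thr 61 57 (.thr 41 1 (.thr 43 40 (.thr 3 23 (.dbl 60 22 62)))))) (.nv (.thr 51 50 (.thr 53 58 (.thr 55 59 (.thr 57 61 (.dbl 54 52 60))))) (.rp 62 (.thr 51 50 (.thr 55 59 (.thr 53 58 (.thr 54 52 (.dbl 57 60 61))))) (.rp 59 (.thr 50 51 (.thr 58 53 (.thr 62 54 (.thr 60 61 (.thr 22 2 (.thr 23 20 (.dbl 3 41 43))))))) (.rp 58 (.thr 51 50 (.thr 59 55 (.thr 25 8 (.thr 37 13 (.thr 47 32 (.thr 15 31 (.thr 39 27 (.dbl 38 12 36)))))))) (.rp 55 (.thr 53 58 (.thr 61 57 (.thr 60 62 (.thr 41 1 (.thr 43 40 (.dbl 3 22 23)))))) (.rp 53 (.thr 51 50 (.thr 59 55 (.thr 25 8 (.thr 37 13 (.thr 47 32 (.thr 15 31 (.thr 39 27 (.dbl 38 12 36)))))))) .nd))))))))) (.rp 15 (.thr 58 53 (.thr 10 26 (.str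 60 (.nv (.thr 62 61 (.thr 54 50 (.thr 57 51 (.dbl 56 52 59)))) (.nv (.thr 61 62 (.thr 41 1 (.thr 43 40 (.dbl 3 22 23)))) (.rp 62 (.thr 56 52 (.thr 59 57 (.thr 8 25 (.thr 24 40 (.thr 12 36 (.thr 9 11 (.thr 3 6 (.thr 23 43 (.dbl 22 20 41))))))))) (.rp 61 (.thr 56 52 (.thr 57 59 (.thr 54 51 (.thr 62 50 (.thr 22 2 (.thr 23 20 (.dbl 3 41 43))))))) (.rp 11 (.str 3 (.nv (.thr 41 22 (.dbl 43 23 40)) (.nv (.thr 61 62 (.dbl 41 1 22)) (.rp 41 (.thr 56 52 (.thr 57 59 (.thr 62 61 (.dbl 54 50 51)))) (.rp 22 (.thr 61 62 (.thr 43 23 (.dbl 41 1 40))) .nd))))) (.rp 3 (.str 11 (.nv (.thr 8 9 (.thr 59 25 (.thr 62 61 (.thr 51 55 (.dbl 54 50 57))))) (.nv (.thr 8 9 (.thr 56 52 (.thr 40 24 (.thr 41 43 (.dbl 61 1 62))))) (.nv (.thr 56 52 (.thr 57 59 (.thr 62 61 (.dbl 54 50 51)))) (.nv (.thr 8 9 (.thr 59 25 (.dbl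 56 52 57))) (.rp 2 (.str 1 (.nv (.thr 8 9 (.thr 56 52 (.dbl 59 25 57))) (.nv (.dbl 61 41 62) .nd))) (.rp 1 (.str 2 (.nv (.thr 8 9 (.thr 59 25 (.dbl 56 52 57))) (.nv (.dbl 62 22 61) .nd))) .nd))))))) .nd))))))))) (.rp 5 (.thr 58 53 (.thr 26 10 (.thr 15 37 (.dbl 31 16 47)))) .nd)))))))))))

theorem w286 : WinAt (9223376434903384064, 536871041) :=
  chF (K := []) kn c286 9223376434903384064 536871041 0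
    [] (by decide +kernel) (by decide +kernel)

/-- A certificate. -/
noncomputable def c287 : Ct := (.str 12 (.nv (.thr 4 8 (.thr 38 55 (.thr 51 25 (.dbl 34 17 46)))) (.nv (.thr 8 4 (.thr 25 59 (.thr 51 38 (.dbl 17 29 34)))) (.rp 51 (.thr 8 4 (.thr 59 25 (.str 10 (.nv (.thr 26 58 (.thr 16 31 (.thr 48 32 (.dbl 15 5 37)))) (.nv (.thr 9 11 (.thr 3 6 (.thr 5 15 (.dbl 1 2 13)))) (.nv (.thr 26 58 (.thr 11 9 (.thr 41 56 (.dbl 43 27 40)))) (.rp 6 (.thr 5 15 (.thr 11 9 (.thr 26 58 (.thr 41 56 (.dbl 43 27 40))))) (.rp 5 (.str 6 (.nv (.dbl 9 3 11) (.rp 11 (.thr 2 14 (.dbl 3 1 9)) (.rp 9 (.thr 14 2 (.thr 26 58 (.thr 16 31 (.thr 48 32 (.dbl 15 13 37))))) (.rp 3 (.thr 11 9 (.thr 26 58 (.thr 43 27 (.dbl 41 40 56)))) .nd))))) .nd)))))))) (.rp 38 (.str 5 (.nv (.thr 8 4 (.thr 10 15 (.thr 9 11 (.thr 3 6 (.dbl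 1 2 13))))) (.nv (.thr 15 10 (.thr 37 53 (.thr 32 47 (.dbl 48 16 26)))) (.rp 47 (.thr 15 10 (.thr 13 14 (.thr 8 4 (.thr 37 53 (.dbl 25 49 59))))) (.rp 15 (.thr 8 4 (.thr 37 53 (.thr 25 59 (.thr 29 17 (.thr 13 49 (.thr 1 9 (.dbl 61 41 45))))))) (.rp 10 (.thr 4 8 (.thr 37 53 (.thr 32 47 (.thr 48 16 (.thr 36 24 (.thr 40 44 (.dbl 20 52 60))))))) .nd)))))) (.rp 34 (.str 15 (.nv (.thr 4 8 (.thr 14 13 (.thr 38 55 (.thr 26 50 (.thr 16 31 (.dbl 48 32 37)))))) (.nv (.thr 8 4 (.thr 14 13 (.thr 10 5 (.thr 6 2 (.dbl 9 3 11))))) (.nv (.thr 5 10 (.thr 37 53 (.thr 32 47 (.dbl 48 16 26)))) .nd)))) (.rp 25 (.str 15 (.nv (.thr 4 8 (.thr 14 13 (.thr 38 55 (.thr 26 50 (.thr 16 31 (.dbl 48 32 37)))))) (.nv (.thr 8 4 (.thr 14 13 (.thr 10 5 (.thr 6 2 (.dbl 9 3 11))))) (.nv (.thr 5 10 (.thr 37 53 (.thr 32 47 (.dbl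 48 16 26)))) (.rp 37 (.thr 10 5 (.thr 4 8 (.thr 26 58 (.thr 38 55 (.dbl 14 13 50))))) .nd))))) (.rp 17 (.str 15 (.nv (.thr 4 8 (.thr 14 13 (.thr 38 55 (.thr 26 50 (.thr 16 31 (.dbl 48 32 37)))))) (.nv (.thr 14 13 (.thr 10 5 (.thr 8 4 (.thr 6 2 (.dbl 9 3 11))))) (.nv (.thr 5 10 (.thr 37 53 (.thr 32 47 (.dbl 48 16 26)))) .nd)))) (.rp 8 (.str 32 (.nv (.thr 37 47 (.thr 48 16 (.thr 36 24 (.thr 38 39 (.thr 34 46 (.dbl 51 17 25)))))) (.nv (.thr 48 16 (.thr 37 47 (.thr 5 53 (.dbl 15 10 26)))) (.rp 48 (.thr 37 47 (.str 15 (.nv (.dbl 5 10 53) (.rp 58 (.thr 53 5 (.thr 13 14 (.thr 25 49 (.thr 17 29 (.dbl 51 34 38))))) (.rp 53 (.str 58 (.nv (.dbl 10 5 26) (.rp 26 (.thr 13 14 (.thr 25 49 (.thr 17 29 (.dbl 51 34 38)))) (.rp 10 (.thr 13 14 (.thr 25 49 (.thr 17 29 (.dbl 51 34 38)))) (.rp 5 (.thr 13 14 (.thr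 25 49 (.thr 17 29 (.dbl 51 34 38)))) .nd))))) (.rp 10 (.thr 13 14 (.thr 25 49 (.thr 17 29 (.dbl 51 34 38)))) (.rp 5 (.thr 13 14 (.thr 25 49 (.thr 17 29 (.dbl 51 34 38)))) .nd))))))) (.rp 47 (.thr 48 16 (.thr 36 24 (.thr 40 44 (.thr 41 43 (.thr 1 61 (.thr 3 2 (.dbl 60 20 22))))))) (.rp 37 (.thr 48 16 (.thr 36 24 (.thr 40 44 (.thr 41 43 (.thr 1 61 (.thr 3 2 (.dbl 60 20 22))))))) (.rp 31 (.thr 48 16 (.thr 37 47 (.thr 15 26 (.dbl 5 10 53)))) (.rp 16 (.thr 37 47 (.thr 5 53 (.thr 15 10 (.thr 13 14 (.thr 25 49 (.thr 17 29 (.dbl 51 34 38))))))) (.rp 15 (.thr 48 16 (.thr 36 24 (.thr 40 44 (.thr 41 43 (.thr 1 61 (.thr 3 2 (.dbl 60 20 22))))))) .nd))))))))) (.rp 4 (.str 15 (.nv (.thr 5 10 (.thr 13 14 (.thr 37 53 (.thr 25 49 (.thr 17 29 (.dbl 51 34 38)))))) (.nv (.thr 5 10 (.thr 37 53 (.thr 32 47 (.dbl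 48 16 26)))) (.rp 58 (.thr 5 10 (.thr 37 53 (.thr 48 26 (.dbl 32 16 47)))) (.rp 53 (.thr 14 13 (.thr 10 5 (.thr 6 2 (.thr 26 58 (.thr 48 37 (.dbl 16 31 32)))))) (.rp 48 (.thr 13 14 (.thr 5 10 (.thr 1 9 (.thr 41 61 (.thr 40 43 (.thr 60 20 (.dbl 3 2 22))))))) (.rp 37 (.thr 14 13 (.thr 10 5 (.thr 6 2 (.thr 26 58 (.thr 38 50 (.thr 34 46 (.dbl 51 17 25))))))) (.rp 10 (.str 5 (.nv (.thr 13 14 (.thr 37 53 (.thr 25 49 (.thr 17 29 (.dbl 51 34 38))))) (.nv (.thr 37 53 (.thr 32 47 (.dbl 48 16 26))) (.rp 58 (.thr 37 53 (.thr 48 26 (.dbl 32 16 47))) (.rp 53 (.thr 13 14 (.thr 1 9 (.thr 41 61 (.thr 40 43 (.thr 60 20 (.dbl 3 2 22)))))) (.rp 48 (.thr 13 14 (.thr 1 9 (.thr 41 61 (.thr 40 43 (.thr 60 20 (.dbl 3 2 22)))))) (.rp 37 (.thr 13 14 (.thr 1 9 (.thr 41 61 (.thr 40 43 (.thr 60 20 (.dbl 3 2 22))))))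 .nd))))))) (.rp 5 (.str 6 (.nv (.thr 3 9 (.thr 1 2 (.thr 41 61 (.thr 40 43 (.dbl 60 20 22))))) (.nv (.thr 14 13 (.thr 2 10 (.dbl 3 1 9))) (.rp 9 (.str 1 (.nv (.thr 3 2 (.thr 41 61 (.thr 40 43 (.dbl 60 20 22)))) (.nv (.thr 14 13 (.dbl 2 3 10)) (.rp 3 (.thr 14 13 (.thr 10 2 (.thr 26 58 (.thr 16 31 (.dbl 48 32 37))))) (.rp 2 (.thr 41 61 (.thr 40 43 (.thr 60 20 (.thr 44 28 (.thr 38 35 (.dbl 22 3 54)))))) .nd))))) (.rp 3 (.thr 14 13 (.thr 10 2 (.thr 26 58 (.thr 16 31 (.dbl 48 32 37))))) (.rp 2 (.str 10 (.nv (.thr 9 3 (.thr 8 11 (.thr 25 59 (.thr 51 38 (.dbl 17 29 34))))) (.nv (.thr 26 58 (.thr 48 37 (.dbl 16 31 32))) .nd))) (.rp 1 (.thr 14 13 (.thr 9 3 (.thr 10 2 (.thr 26 58 (.thr 16 31 (.dbl 48 32 37)))))) .nd))))))) .nd))))))))) .nd))))))))))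

theorem w287 : WinAt (4398048608257, 9223372037928517760) :=
  chF (K := []) kn c287 4398048608257 9223372037928517760 63
    [] (by decide +kernel) (by decide +kernel)

/-- A certificate. -/
noncomputable def c288 : Ct := (.str 60 (.nv (.thr 61 62 (.thr 41 1 (.thr 3 22 (.dbl 43 23 40)))) (.nv (.thr 62 61 (.thr 22 2 (.thr 3 41 (.dbl 23 20 43)))) (.rp 62 (.str 59 (.nv (.thr 25 8 (.thr 29 17 (.thr 12 46 (.dbl 51 38 55)))) (.nv (.thr 25 8 (.thr 51 55 (.thr 57 54 (.thr 41 9 (.thr 43 40 (.dbl 3 22 23)))))) (.nv (.thr 51 55 (.thr 25 8 (.thr 12 38 (.dbl 29 17 46)))) (.rp 55 (.thr 25 8 (.thr 29 17 (.thr 12 46 (.thr 28 44 (.thr 22 19 (.thr 23 20 (.dbl 3 41 43))))))) (.rp 51 (.thr 25 8 (.str 12 (.nv (.dbl 29 17 46) (.rp 46 (.thr 28 44 (.thr 22 19 (.thr 23 20 (.dbl 3 41 43)))) (.rp 34 (.thr 17 29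 (.thr 28 44 (.thr 22 19 (.thr 23 20 (.dbl 3 41 43))))) (.rp 29 (.thr 28 44 (.thr 22 19 (.thr 23 20 (.dbl 3 41 43)))) (.rp 17 (.str 34 (.nv (.dbl 46 29 38) (.rp 46 (.thr 28 44 (.thr 22 19 (.thr 23 20 (.dbl 3 41 43)))) (.rp 38 (.thr 28 44 (.thr 22 19 (.thr 23 20 (.dbl 3 41 43)))) (.rp 29 (.thr 28 44 (.thr 22 19 (.thr 23 20 (.dbl 3 41 43)))) .nd))))) .nd))))))) (.rp 25 (.thr 51 55 (.thr 57 54 (.thr 58 56 (.thr 53 48 (.thr 61 49 (.thr 41 1 (.thr 43 40 (.dbl 3 22 23)))))))) (.rp 12 (.thr 51 55 (.thr 57 54 (.thr 58 56 (.thr 53 48 (.thr 49 61 (.thr 37 5 (.dbl 25 8 13))))))) (.rp 8 (.thr 51 55 (.thr 57 54 (.thr 58 56 (.thr 53 48 (.thr 61 49 (.thr 41 1 (.thr 3 22 (.dbl 43 23 40)))))))) .nd))))))))) (.rp 61 (.str 38 (.nv (.thr 46 34 (.thr 12 29 (.thr 51 25 (.dbl 55 4 59)))) (.nv (.thr 55 4 (.thr 46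 34 (.thr 51 59 (.dbl 12 25 29)))) (.rp 59 (.thr 46 34 (.thr 12 29 (.thr 51 25 (.thr 54 57 (.thr 22 6 (.thr 23 20 (.dbl 3 41 43))))))) (.rp 55 (.thr 46 34 (.thr 12 29 (.thr 51 25 (.thr 54 57 (.thr 22 6 (.thr 23 20 (.dbl 3 41 43))))))) (.rp 51 (.str 44 (.nv (.thr 41 35 (.thr 3 22 (.dbl 43 23 40))) (.nv (.thr 12 28 (.dbl 46 29 34)) (.rp 34 (.str 17 (.nv (.thr 41 35 (.thr 3 22 (.dbl 43 23 40))) (.nv (.thr 29 25 (.dbl 12 28 46)) .nd))) (.rp 17 (.thr 34 46 (.thr 41 35 (.thr 43 40 (.dbl 3 22 23)))) .nd))))) (.rp 46 (.thr 55 4 (.thr 51 59 (.thr 12 25 (.thr 44 28 (.thr 41 35 (.thr 43 40 (.dbl 3 22 23))))))) (.rp 34 (.thr 55 4 (.thr 51 59 (.thr 12 25 (.thr 44 28 (.thr 41 35 (.thr 43 40 (.dbl 3 22 23))))))) (.rp 29 (.thr 55 4 (.thr 51 59 (.thr 54 57 (.thr 53 52 (.thr 58 48 (.thr 26 10 (.dbl 50 14 62)))))))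 (.rp 25 (.thr 55 4 (.thr 51 59 (.thr 54 57 (.thr 53 52 (.thr 58 48 (.thr 26 10 (.dbl 50 14 62))))))) (.rp 12 (.thr 4 55 (.str 23 (.nv (.thr 22 20 (.dbl 3 41 43)) (.rp 43 (.thr 22 20 (.thr 6 54 (.thr 2 62 (.thr 14 10 (.thr 34 46 (.dbl 50 18 26)))))) (.rp 41 (.thr 22 20 (.thr 6 54 (.thr 2 62 (.thr 14 10 (.thr 34 46 (.dbl 50 18 26)))))) (.rp 22 (.thr 43 3 (.thr 41 40 (.thr 34 46 (.thr 35 44 (.thr 47 39 (.dbl 32 33 37)))))) (.rp 20 (.thr 43 3 (.thr 41 40 (.thr 34 46 (.thr 35 44 (.thr 47 39 (.dbl 32 33 37)))))) (.rp 3 (.thr 22 20 (.thr 6 54 (.thr 2 62 (.thr 14 10 (.thr 34 46 (.dbl 50 18 26)))))) .nd)))))))) (.rp 4 (.thr 46 34 (.thr 12 29 (.thr 51 25 (.thr 54 57 (.thr 55 59 (.thr 53 52 (.thr 58 48 (.thr 26 10 (.dbl 50 14 62))))))))) .nd)))))))))))) (.rp 43 (.str 12 (.nv (.thr 28 44 (.thr 62 61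 (.thr 22 2 (.thr 25 19 (.thr 51 38 (.dbl 59 8 55)))))) (.nv (.thr 44 28 (.thr 62 61 (.thr 46 29 (.thr 30 14 (.dbl 45 15 47))))) (.nv (.thr 29 46 (.thr 25 17 (.thr 51 38 (.dbl 59 8 55)))) .nd)))) (.rp 41 (.str 12 (.nv (.thr 28 44 (.thr 62 61 (.thr 22 2 (.thr 25 19 (.thr 59 8 (.dbl 51 38 55)))))) (.nv (.thr 44 28 (.thr 62 61 (.thr 46 29 (.thr 30 14 (.dbl 45 15 47))))) (.nv (.thr 29 46 (.thr 25 17 (.thr 59 8 (.dbl 51 38 55)))) .nd)))) (.rp 23 (.thr 62 61 (.thr 22 2 (.thr 3 41 (.str 55 (.nv (.thr 38 4 (.thr 46 34 (.thr 12 29 (.thr 28 44 (.dbl 25 19 51))))) (.nv (.thr 51 59 (.thr 54 57 (.thr 53 52 (.dbl 58 48 50)))) (.nv (.thr 51 59 (.thr 38 4 (.dbl 54 6 57))) (.rp 51 (.thr 38 4 (.thr 6 54 (.thr 12 9 (.dbl 46 29 34)))) (.rp 27 (.str 19 (.nv (.dbl 51 35 59) (.rp 59 (.thr 25 28 (.thr 51 35 (.dbl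 38 4 12))) (.rp 51 (.thr 28 25 (.thr 38 4 (.thr 6 54 (.dbl 12 9 44)))) (.rp 35 (.thr 59 51 (.dbl 25 8 28)) .nd))))) (.rp 19 (.str 27 (.nv (.thr 38 4 (.thr 46 34 (.thr 12 29 (.dbl 51 25 59)))) (.nv (.thr 38 4 (.thr 6 54 (.thr 12 9 (.dbl 46 29 34)))) (.nv (.thr 51 59 (.thr 54 57 (.thr 53 52 (.dbl 58 48 50)))) (.nv (.thr 51 59 (.thr 38 4 (.dbl 54 6 57))) .nd))))) .nd)))))))))) (.rp 22 (.str 37 (.nv (.thr 47 32 (.thr 61 62 (.thr 41 1 (.thr 45 33 (.thr 46 44 (.dbl 29 12 13)))))) (.nv (.thr 53 5 (.thr 58 48 (.thr 62 61 (.thr 54 50 (.thr 51 57 (.dbl 55 52 59)))))) (.nv (.thr 5 53 (.thr 61 62 (.thr 1 41 (.thr 13 9 (.thr 25 49 (.dbl 29 17 45)))))) (.rp 62 (.thr 53 5 (.thr 48 58 (.thr 52 56 (.thr 54 55 (.thr 57 51 (.thr 61 49 (.thr 41 1 (.thr 15 26 (.dbl 45 30 33))))))))) (.rp 61 (.thr 53 5 (.thr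 48 58 (.thr 52 56 (.thr 55 54 (.thr 59 51 (.thr 25 8 (.thr 13 49 (.thr 15 26 (.thr 12 14 (.dbl 29 17 46)))))))))) .nd)))))) (.rp 3 (.thr 61 62 (.thr 1 41 (.str 53 (.nv (.thr 37 5 (.thr 49 57 (.thr 25 13 (.dbl 17 29 33)))) (.nv (.thr 48 58 (.thr 52 56 (.thr 57 49 (.dbl 54 51 55)))) (.rp 57 (.thr 48 58 (.thr 37 5 (.thr 47 32 (.thr 15 26 (.thr 45 30 (.thr 46 44 (.dbl 29 12 13))))))) (.rp 49 (.thr 48 58 (.thr 37 5 (.thr 47 32 (.thr 15 26 (.thr 45 30 (.thr 46 44 (.dbl 29 12 13))))))) (.rp 15 (.str 11 (.nv (.thr 49 57 (.thr 17 33 (.thr 25 29 (.dbl 37 5 13)))) (.nv (.thr 57 49 (.thr 48 58 (.thr 52 56 (.dbl 54 51 55)))) (.rp 57 (.thr 5 37 (.thr 9 13 (.thr 10 8 (.dbl 58 26 48)))) (.rp 49 (.thr 58 48 (.thr 37 5 (.thr 10 26 (.thr 8 9 (.thr 59 25 (.thr 57 56 (.dbl 51 54 55))))))) (.rp 48 (.thr 57 49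 (.thr 51 54 (.thr 59 55 (.thr 25 8 (.thr 29 17 (.dbl 12 38 46)))))) (.rp 10 (.thr 5 37 (.thr 57 49 (.thr 48 58 (.thr 52 56 (.dbl 54 51 55))))) (.rp 5 (.str 10 (.nv (.dbl 58 26 48) (.rp 58 (.thr 8 9 (.thr 57 49 (.thr 59 25 (.dbl 51 54 55)))) (.rp 48 (.thr 8 9 (.thr 49 57 (.thr 25 59 (.dbl 17 29 33)))) (.rp 26 (.thr 8 9 (.thr 49 57 (.thr 25 59 (.dbl 17 29 33)))) (.rp 6 (.str 4 (.nv (.thr 55 38 (.thr 51 59 (.dbl 54 52 57))) (.nv (.dbl 58 26 48) (.rp 12 (.thr 9 8 (.dbl 58 26 48)) (.rp 9 (.str 12 (.nv (.thr 57 49 (.thr 38 55 (.dbl 46 29 34))) (.nv (.dbl 58 26 48) (.rp 57 (.str 25 (.nv (.dbl 38 51 55) (.nv (.dbl 29 17 46) .nd))) .nd)))) .nd))))) (.rp 4 (.str 6 (.nv (.dbl 58 26 48) (.rp 58 (.thr 8 9 (.thr 57 49 (.thr 59 25 (.dbl 51 54 55)))) (.rp 48 (.thr 8 9 (.thr 49 57 (.thr 25 59 (.dbl 17 29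 33)))) (.rp 26 (.thr 8 9 (.thr 49 57 (.thr 25 59 (.dbl 17 29 33)))) (.rp 12 (.thr 8 9 (.dbl 58 26 48)) (.rp 8 (.str 12 (.nv (.thr 29 46 (.thr 17 25 (.dbl 49 33 57))) (.nv (.dbl 58 26 48) .nd))) .nd))))))) .nd))))))) .nd)))))))) (.rp 11 (.str 15 (.nv (.thr 45 30 (.thr 29 13 (.thr 17 25 (.dbl 49 33 57)))) (.nv (.thr 37 5 (.dbl 48 26 58)) (.rp 56 (.str 26 (.nv (.dbl 58 10 48) (.nv (.dbl 37 5 48) (.rp 48 (.thr 5 37 (.thr 13 9 (.dbl 45 29 30))) .nd)))) (.rp 26 (.str 56 (.nv (.thr 5 37 (.thr 13 9 (.dbl 45 29 30))) (.nv (.dbl 48 52 58) (.rp 52 (.thr 57 49 (.dbl 58 48 59)) .nd)))) .nd))))) .nd))))))))) .nd))))))))))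

theorem w288 : WinAt (9223376434903384064, 2147483777) :=
  chF (K := []) kn c288 9223376434903384064 2147483777 0
    [] (by decide +kernel) (by decide +kernel)

/-- A certificate. -/
noncomputable def c289 : Ct := (.str 3 (.nv (.thr 1 2 (.thr 41 61 (.thr 60 22 (.dbl 40 20 43)))) (.nv (.thr 2 1 (.thr 22 62 (.thr 60 41 (.dbl 20 23 40)))) (.rp 60 (.thr 2 1 (.str 34 (.nv (.thr 17 51 (.thr 18 50 (.thr 16 19 (.thr 26 31 (.dbl 22 30 62))))) (.nv (.thr 62 22 (.thr 38 46 (.thr 50 18 (.thr 26 14 (.dbl 58 10 54))))) (.nv (.thr 51 17 (.thr 38 46 (.thr 12 25 (.dbl 4 8 55)))) (.rp 62 (.str 61 (.nv (.thr 38 46 (.thr 50 18 (.thr 14 26 (.thr 6 10 (.thr 51 17 (.dbl 12 9 25)))))) (.nv (.thr 38 46 (.thr 50 18 (.thr 14 26 (.thr 6 10 (.thr 12 9 (.dbl 4 8 55)))))) (.nv (.thr 51 17 (.thr 38 46 (.thr 12 25 (.dbl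 4 8 55)))) (.rp 46 (.thr 17 51 (.thr 18 50 (.thr 48 33 (.thr 16 19 (.thr 26 31 (.thr 15 37 (.dbl 10 5 58))))))) (.rp 38 (.thr 17 51 (.thr 18 50 (.thr 48 33 (.thr 16 19 (.thr 26 31 (.thr 15 37 (.dbl 10 5 58))))))) (.rp 30 (.thr 17 51 (.thr 18 50 (.thr 48 33 (.thr 16 19 (.thr 26 31 (.thr 15 37 (.dbl 10 5 58))))))) (.rp 14 (.thr 17 51 (.thr 18 50 (.thr 48 33 (.thr 16 19 (.thr 26 31 (.thr 15 37 (.dbl 10 5 58))))))) (.rp 12 (.thr 17 51 (.thr 18 50 (.thr 48 33 (.thr 16 19 (.thr 26 31 (.thr 15 37 (.dbl 10 5 58))))))) .nd))))))))) .nd)))))) (.rp 41 (.str 6 (.nv (.thr 2 1 (.thr 10 14 (.thr 15 5 (.thr 22 62 (.thr 26 58 (.thr 48 37 (.dbl 18 30 33))))))) (.nv (.thr 12 9 (.thr 8 4 (.thr 25 59 (.thr 17 29 (.dbl 51 34 38))))) (.rp 9 (.thr 2 1 (.thr 14 10 (.thr 22 62 (.thr 38 54 (.thr 34 46 (.dbl 50 18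 26)))))) .nd)))) (.rp 40 (.thr 2 1 (.str 51 (.nv (.thr 17 34 (.thr 22 62 (.thr 25 29 (.dbl 19 28 35)))) (.nv (.thr 22 62 (.thr 60 41 (.thr 54 57 (.thr 38 6 (.dbl 34 17 46))))) (.nv (.thr 17 34 (.thr 25 29 (.thr 12 38 (.dbl 8 4 59)))) (.rp 44 (.str 36 (.nv (.thr 17 34 (.thr 22 62 (.thr 25 29 (.dbl 19 28 35)))) (.nv (.thr 22 62 (.thr 20 23 (.thr 4 52 (.thr 12 8 (.dbl 38 25 55))))) (.nv (.thr 22 62 (.thr 20 23 (.thr 4 52 (.thr 34 17 (.dbl 38 46 55))))) (.nv (.thr 35 19 (.thr 17 34 (.thr 25 29 (.thr 12 38 (.dbl 8 4 59))))) .nd))))) (.rp 36 (.str 44 (.nv (.thr 17 34 (.thr 22 62 (.thr 25 29 (.dbl 19 28 35)))) (.nv (.thr 22 62 (.thr 60 41 (.thr 12 28 (.thr 4 8 (.dbl 38 25 55))))) (.nv (.thr 35 19 (.thr 38 41 (.dbl 34 17 46))) .nd)))) (.rp 34 (.thr 22 62 (.thr 60 41 (.thr 54 57 (.thr 38 6 (.thr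 4 55 (.dbl 12 8 25)))))) (.rp 25 (.thr 35 19 (.thr 34 17 (.thr 22 62 (.thr 38 46 (.dbl 41 44 60))))) (.rp 17 (.thr 19 35 (.thr 22 62 (.thr 25 28 (.thr 8 59 (.dbl 12 4 38))))) .nd)))))))))) (.rp 22 (.thr 1 2 (.str 37 (.nv (.thr 53 5 (.thr 61 41 (.thr 49 57 (.thr 25 13 (.dbl 17 29 33))))) (.nv (.thr 5 53 (.thr 9 13 (.thr 12 6 (.thr 8 4 (.dbl 10 11 15))))) (.nv (.thr 5 53 (.thr 13 9 (.thr 25 49 (.thr 61 41 (.dbl 29 17 45))))) (.rp 53 (.thr 41 61 (.thr 45 33 (.thr 40 43 (.thr 60 20 (.thr 15 30 (.thr 10 5 (.dbl 26 48 58))))))) (.rp 13 (.thr 41 61 (.thr 5 53 (.thr 15 10 (.thr 48 26 (.dbl 33 18 45))))) (.rp 5 (.thr 41 61 (.thr 33 45 (.thr 17 49 (.thr 51 34 (.thr 19 35 (.dbl 18 16 48)))))) .nd)))))))) (.rp 20 (.str 51 (.nv (.thr 1 2 (.thr 35 19 (.thr 41 61 (.thr 38 44 (.thr 4 55 (.dbl 12 8 25))))))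 (.nv (.thr 1 2 (.thr 17 34 (.thr 19 35 (.thr 33 49 (.dbl 18 16 48))))) (.nv (.thr 34 17 (.thr 38 46 (.thr 12 25 (.dbl 4 8 55)))) .nd)))) (.rp 2 (.str 38 (.nv (.thr 4 55 (.thr 12 8 (.thr 6 9 (.thr 22 54 (.thr 60 41 (.dbl 20 23 40)))))) (.nv (.thr 34 46 (.thr 51 17 (.thr 35 19 (.thr 41 44 (.thr 40 43 (.dbl 60 20 22)))))) (.nv (.thr 34 46 (.thr 51 17 (.thr 12 25 (.dbl 4 8 55)))) (.rp 51 (.thr 55 4 (.str 60 (.nv (.thr 22 41 (.dbl 20 23 40)) (.rp 41 (.thr 20 40 (.thr 22 23 (.thr 6 54 (.thr 46 34 (.thr 12 9 (.thr 44 28 (.thr 45 47 (.thr 15 30 (.thr 10 5 (.thr 26 58 (.dbl 14 13 50))))))))))) (.rp 40 (.thr 41 22 (.thr 1 61 (.thr 44 35 (.thr 12 28 (.thr 9 6 (.thr 5 13 (.thr 25 57 (.thr 8 59 (.dbl 10 11 15))))))))) (.rp 23 (.thr 40 20 (.dbl 41 22 43)) (.rp 22 (.thr 40 20 (.thr 41 43 (.thr 1 61 (.thr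 44 35 (.thr 12 28 (.thr 9 6 (.thr 5 13 (.thr 25 57 (.thr 8 59 (.dbl 10 11 15)))))))))) (.rp 20 (.thr 41 22 (.thr 1 61 (.thr 44 35 (.thr 12 28 (.thr 9 6 (.thr 5 13 (.thr 25 57 (.thr 8 59 (.dbl 10 11 15))))))))) (.rp 6 (.str 5 (.nv (.thr 37 53 (.thr 41 22 (.thr 45 33 (.dbl 15 10 30)))) (.nv (.thr 22 41 (.dbl 20 23 40)) (.rp 41 (.thr 53 37 (.thr 52 54 (.thr 20 40 (.thr 22 23 (.thr 48 56 (.thr 10 15 (.thr 26 58 (.dbl 18 30 33)))))))) (.rp 22 (.thr 37 53 (.thr 40 20 (.thr 41 43 (.thr 45 33 (.dbl 15 10 30))))) (.rp 14 (.thr 10 15 (.thr 20 40 (.dbl 22 23 41))) (.rp 10 (.str 14 (.nv (.thr 22 41 (.thr 46 34 (.thr 30 62 (.dbl 26 18 50)))) (.nv (.thr 22 41 (.dbl 20 23 40)) (.rp 41 (.thr 46 34 (.thr 37 53 (.thr 30 62 (.thr 15 45 (.dbl 26 48 50))))) (.rp 22 (.thr 46 34 (.thr 37 53 (.thr 30 62 (.thr 15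 45 (.dbl 26 48 50))))) .nd))))) .nd))))))) (.rp 5 (.str 6 (.nv (.dbl 22 41 54) (.rp 54 (.thr 20 40 (.dbl 22 23 41)) (.rp 41 (.thr 22 54 (.dbl 20 23 40)) (.rp 22 (.thr 40 20 (.thr 41 43 (.thr 44 35 (.dbl 12 9 28)))) .nd))))) .nd)))))))))) (.rp 12 (.str 51 (.nv (.dbl 34 17 46) (.rp 46 (.str 29 (.nv (.dbl 17 25 34) (.rp 34 (.thr 35 19 (.thr 41 44 (.thr 40 43 (.dbl 60 20 22)))) (.rp 25 (.thr 35 19 (.thr 41 44 (.thr 40 43 (.dbl 60 20 22)))) (.rp 17 (.thr 35 19 (.thr 41 44 (.thr 40 43 (.dbl 60 20 22)))) .nd))))) (.rp 34 (.thr 35 19 (.thr 41 44 (.thr 40 43 (.dbl 60 20 22)))) (.rp 29 (.thr 46 34 (.thr 35 19 (.thr 41 44 (.thr 40 43 (.dbl 60 20 22))))) (.rp 17 (.thr 35 19 (.thr 41 44 (.thr 40 43 (.dbl 60 20 22)))) .nd)))))) .nd)))))) (.rp 1 (.str 38 (.nv (.thr 34 46 (.thr 51 17 (.thr 35 19 (.thr 41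 44 (.thr 40 43 (.dbl 60 20 22)))))) (.nv (.thr 4 55 (.thr 12 8 (.thr 6 9 (.thr 22 54 (.thr 60 41 (.dbl 20 23 40)))))) (.nv (.thr 34 46 (.thr 51 17 (.thr 12 25 (.dbl 4 8 55)))) (.rp 51 (.thr 55 4 (.str 22 (.nv (.thr 20 23 (.dbl 60 40 41)) (.rp 60 (.thr 62 2 (.thr 46 34 (.thr 14 30 (.thr 50 26 (.dbl 54 6 58))))) (.rp 41 (.thr 6 54 (.thr 2 62 (.thr 34 46 (.thr 50 18 (.dbl 14 10 26))))) (.rp 40 (.thr 6 54 (.thr 2 62 (.thr 34 46 (.thr 50 18 (.dbl 14 10 26))))) (.rp 23 (.thr 6 54 (.thr 2 62 (.thr 34 46 (.thr 50 18 (.dbl 14 10 26))))) (.rp 20 (.thr 6 54 (.thr 2 62 (.thr 34 46 (.thr 50 18 (.dbl 14 10 26))))) (.rp 6 (.str 5 (.nv (.thr 20 23 (.dbl 60 40 41)) (.rp 60 (.thr 53 37 (.thr 54 52 (.thr 10 15 (.thr 62 2 (.dbl 58 26 50))))) (.rp 41 (.thr 53 37 (.thr 54 52 (.thr 10 15 (.thr 62 2 (.dbl 58 26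 50))))) (.rp 40 (.thr 53 37 (.thr 54 52 (.thr 10 15 (.thr 62 2 (.dbl 58 26 50))))) (.rp 23 (.thr 53 37 (.thr 54 52 (.thr 10 15 (.thr 62 2 (.dbl 58 26 50))))) (.rp 20 (.thr 37 53 (.thr 15 10 (.thr 48 26 (.thr 33 18 (.dbl 41 45 60))))) .nd))))))) (.rp 5 (.thr 6 54 (.thr 20 23 (.dbl 60 40 41))) .nd)))))))))) (.rp 12 (.str 51 (.nv (.dbl 34 17 46) (.rp 46 (.str 29 (.nv (.dbl 17 25 34) (.rp 34 (.thr 35 19 (.thr 41 44 (.thr 40 43 (.dbl 60 20 22)))) (.rp 25 (.thr 35 19 (.thr 41 44 (.thr 40 43 (.dbl 60 20 22)))) (.rp 17 (.thr 35 19 (.thr 41 44 (.thr 40 43 (.dbl 60 20 22)))) .nd))))) (.rp 34 (.thr 35 19 (.thr 41 44 (.thr 40 43 (.dbl 60 20 22)))) (.rp 29 (.thr 46 34 (.thr 35 19 (.thr 41 44 (.thr 40 43 (.dbl 60 20 22))))) (.rp 17 (.thr 35 19 (.thr 41 44 (.thr 40 43 (.dbl 60 20 22)))) .nd)))))) .nd))))))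 .nd))))))))))

theorem w289 : WinAt (4398048608257, 9223372041149743232) :=
  chF (K := []) kn c289 4398048608257 9223372041149743232 63
    [] (by decide +kernel) (by decide +kernel)

/-- A certificate. -/
noncomputable def c290 : Ct := (.str 51 (.nv (.thr 55 59 (.thr 38 4 (.thr 12 25 (.dbl 46 29 34)))) (.nv (.thr 59 55 (.thr 25 8 (.thr 12 38 (.dbl 29 17 46)))) (.rp 59 (.str 62 (.nv (.thr 22 2 (.thr 60 61 (.thr 54 57 (.thr 38 6 (.thr 46 34 (.dbl 12 25 29)))))) (.nv (.thr 60 61 (.thr 22 2 (.thr 23 20 (.dbl 3 41 43)))) (.rp 61 (.thr 22 2 (.thr 23 20 (.thr 3 43 (.thr 19 35 (.thr 25 28 (.thr 29 17 (.dbl 12 38 46))))))) (.rp 60 (.thr 22 2 (.str 3 (.nv (.dbl 23 20 43) (.rp 43 (.thr 19 35 (.thr 25 28 (.thr 29 17 (.dbl 12 38 46)))) (.rp 40 (.thr 20 23 (.thr 19 35 (.thr 25 28 (.thr 29 17 (.dbl 12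 38 46))))) (.rp 23 (.thr 19 35 (.thr 25 28 (.thr 29 17 (.dbl 12 38 46)))) (.rp 20 (.str 40 (.nv (.dbl 43 23 41) (.rp 43 (.thr 19 35 (.thr 25 28 (.thr 29 17 (.dbl 12 38 46)))) (.rp 41 (.thr 19 35 (.thr 25 28 (.thr 29 17 (.dbl 12 38 46)))) (.rp 23 (.thr 19 35 (.thr 25 28 (.thr 29 17 (.dbl 12 38 46)))) .nd))))) .nd))))))) (.rp 22 (.thr 60 61 (.thr 54 57 (.thr 58 50 (.thr 26 10 (.thr 31 16 (.thr 15 47 (.dbl 48 37 53))))))) (.rp 3 (.thr 60 61 (.thr 54 57 (.thr 58 50 (.thr 26 10 (.thr 31 16 (.thr 15 47 (.dbl 48 37 53))))))) (.rp 2 (.thr 60 61 (.thr 54 57 (.thr 58 50 (.thr 26 10 (.thr 31 16 (.thr 15 47 (.dbl 48 37 53))))))) (.rp 1 (.thr 60 61 (.thr 22 2 (.thr 3 41 (.dbl 23 20 43)))) .nd))))))))) (.rp 55 (.str 3 (.nv (.thr 19 35 (.thr 23 43 (.thr 22 20 (.thr 25 28 (.thr 29 17 (.dbl 12 38 46))))))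 (.nv (.thr 23 43 (.thr 22 20 (.thr 62 2 (.dbl 60 41 61)))) (.rp 60 (.thr 19 35 (.thr 23 43 (.thr 31 27 (.thr 26 16 (.thr 58 10 (.thr 48 53 (.dbl 15 37 47))))))) (.rp 43 (.str 23 (.nv (.thr 19 35 (.thr 22 20 (.thr 25 28 (.thr 29 17 (.dbl 12 38 46))))) (.nv (.thr 22 20 (.thr 62 2 (.dbl 60 41 61))) (.rp 60 (.thr 19 35 (.thr 31 27 (.thr 26 16 (.thr 58 10 (.thr 48 53 (.dbl 15 37 47)))))) (.rp 40 (.thr 22 20 (.thr 60 41 (.dbl 62 2 61))) (.rp 22 (.thr 19 35 (.thr 31 27 (.thr 26 16 (.thr 58 10 (.thr 48 53 (.dbl 15 37 47)))))) (.rp 20 (.thr 19 35 (.thr 31 27 (.thr 26 16 (.thr 58 10 (.thr 48 53 (.dbl 15 37 47)))))) .nd))))))) (.rp 40 (.thr 23 43 (.thr 22 20 (.thr 60 41 (.dbl 62 2 61)))) (.rp 23 (.str 39 (.nv (.thr 15 27 (.thr 31 47 (.thr 26 16 (.thr 48 37 (.dbl 58 10 53))))) (.nv (.thr 35 19 (.thr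 47 43 (.dbl 15 27 31))) (.rp 47 (.str 43 (.nv (.thr 27 15 (.thr 59 11 (.thr 25 8 (.thr 12 38 (.dbl 29 17 46))))) (.nv (.thr 41 40 (.thr 60 22 (.dbl 61 1 62))) .nd))) (.rp 31 (.thr 35 19 (.thr 27 15 (.thr 43 47 (.thr 41 40 (.thr 61 1 (.dbl 60 22 62)))))) (.rp 27 (.str 31 (.nv (.thr 15 47 (.thr 26 16 (.thr 48 37 (.dbl 58 10 53)))) (.nv (.thr 35 19 (.dbl 47 15 43)) (.rp 47 (.thr 26 16 (.thr 58 10 (.thr 48 53 (.thr 50 49 (.thr 38 14 (.dbl 37 15 36)))))) (.rp 15 (.thr 35 19 (.thr 43 47 (.thr 41 40 (.thr 61 1 (.dbl 60 22 62))))) .nd))))) (.rp 15 (.thr 35 19 (.thr 43 47 (.thr 41 40 (.thr 61 1 (.dbl 60 22 62))))) .nd))))))) (.rp 22 (.thr 35 19 (.thr 43 23 (.thr 39 47 (.thr 41 40 (.thr 38 44 (.thr 46 34 (.dbl 12 25 29))))))) (.rp 20 (.thr 35 19 (.thr 43 23 (.thr 39 47 (.thr 41 40 (.thr 60 22 (.dbl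 61 1 62)))))) .nd))))))))) (.rp 46 (.str 3 (.nv (.thr 35 19 (.thr 43 23 (.thr 39 47 (.thr 27 15 (.dbl 59 11 55))))) (.nv (.thr 23 43 (.thr 22 20 (.thr 62 2 (.dbl 60 41 61)))) (.rp 43 (.thr 19 35 (.thr 59 55 (.thr 25 8 (.thr 22 28 (.thr 62 2 (.dbl 60 41 61)))))) (.rp 23 (.thr 35 19 (.thr 55 59 (.thr 38 4 (.thr 41 44 (.thr 61 1 (.dbl 60 22 62)))))) .nd))))) (.rp 38 (.str 23 (.nv (.thr 43 3 (.thr 59 55 (.thr 27 11 (.thr 15 39 (.dbl 31 19 47))))) (.nv (.thr 3 43 (.thr 22 20 (.thr 62 2 (.dbl 60 41 61)))) (.rp 43 (.thr 55 59 (.thr 22 20 (.thr 62 2 (.thr 60 61 (.thr 54 57 (.thr 58 50 (.dbl 53 48 52))))))) (.rp 3 (.thr 59 55 (.thr 22 20 (.thr 25 8 (.thr 17 29 (.thr 19 28 (.thr 31 27 (.dbl 16 18 26))))))) (.rp 2 (.thr 3 43 (.thr 19 35 (.thr 59 55 (.thr 22 20 (.dbl 25 8 28))))) .nd)))))) (.rp 29 (.str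 3 (.nv (.thr 35 19 (.thr 43 23 (.thr 59 55 (.thr 39 47 (.dbl 27 11 15))))) (.nv (.thr 23 43 (.thr 22 20 (.thr 62 2 (.dbl 60 41 61)))) (.rp 43 (.thr 35 19 (.thr 55 59 (.thr 38 4 (.thr 41 44 (.thr 61 1 (.dbl 60 22 62)))))) (.rp 23 (.thr 35 19 (.thr 55 59 (.thr 38 4 (.thr 41 44 (.thr 61 1 (.dbl 60 22 62)))))) .nd))))) (.rp 25 (.str 3 (.nv (.thr 35 19 (.thr 55 59 (.thr 38 4 (.thr 41 44 (.thr 61 1 (.dbl 60 22 62)))))) (.nv (.thr 35 19 (.thr 43 23 (.thr 39 47 (.thr 27 15 (.dbl 59 11 55))))) (.nv (.thr 23 43 (.thr 22 20 (.thr 62 2 (.dbl 60 41 61)))) (.rp 22 (.thr 43 23 (.thr 55 59 (.thr 41 40 (.thr 38 4 (.dbl 35 19 44))))) .nd))))) (.rp 12 (.thr 59 55 (.thr 8 25 (.str 43 (.nv (.thr 41 40 (.thr 61 1 (.thr 60 62 (.dbl 3 22 23)))) (.nv (.thr 23 3 (.thr 27 11 (.thr 15 39 (.dbl 31 19 47)))) (.nv (.thr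 41 40 (.thr 11 27 (.thr 26 56 (.dbl 10 9 58)))) (.rp 39 (.thr 23 3 (.thr 11 27 (.thr 41 40 (.thr 26 56 (.dbl 10 9 58))))) (.rp 23 (.str 39 (.nv (.dbl 27 11 15) (.rp 27 (.thr 35 47 (.thr 41 40 (.thr 61 1 (.thr 60 62 (.dbl 3 19 22))))) (.rp 15 (.thr 11 27 (.thr 41 40 (.thr 10 9 (.dbl 26 56 58)))) (.rp 11 (.thr 47 35 (.dbl 15 27 31)) .nd))))) .nd)))))))) .nd))))))))))

theorem w290 : WinAt (9223376434903384064, 8589934721) :=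
  chF (K := []) kn c290 9223376434903384064 8589934721 0
    [] (by decide +kernel) (by decide +kernel)

/-- A certificate. -/
noncomputable def c291 : Ct := (.str 60 (.nv (.thr 20 40 (.thr 22 23 (.thr 3 41 (.dbl 2 1 62)))) (.nv (.thr 40 20 (.thr 41 43 (.thr 1 61 (.dbl 3 2 22)))) (.rp 41 (.str 28 (.nv (.thr 20 40 (.thr 22 23 (.thr 25 19 (.thr 8 59 (.dbl 12 4 44))))) (.nv (.thr 20 40 (.thr 22 23 (.thr 25 19 (.thr 29 17 (.thr 31 30 (.dbl 16 24 26)))))) (.nv (.thr 12 44 (.thr 20 40 (.thr 4 8 (.thr 24 16 (.dbl 36 48 52))))) (.rp 40 (.thr 12 44 (.thr 8 4 (.thr 25 59 (.thr 29 17 (.thr 31 30 (.thr 16 26 (.thr 20 24 (.dbl 22 19 23)))))))) (.rp 20 (.thr 12 44 (.thr 8 4 (.thr 25 59 (.thr 29 17 (.thr 31 30 (.thr 26 16 (.thr 27 24 (.dbl 19 22 23)))))))) .nd)))))) (.rp 40 (.str 26 (.nv (.thr 10 58 (.thr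 15 5 (.thr 30 45 (.thr 22 18 (.thr 2 62 (.dbl 3 1 41)))))) (.nv (.thr 16 31 (.thr 48 32 (.thr 56 52 (.thr 41 11 (.thr 1 61 (.dbl 3 2 22)))))) (.nv (.thr 10 58 (.thr 16 31 (.thr 15 5 (.dbl 48 32 37)))) (.rp 48 (.str 56 (.nv (.thr 58 10 (.thr 11 41 (.thr 59 57 (.thr 25 8 (.dbl 27 24 43))))) (.nv (.thr 41 11 (.thr 1 61 (.dbl 3 2 22))) (.rp 58 (.str 53 (.nv (.thr 5 37 (.thr 15 10 (.thr 30 45 (.thr 41 11 (.dbl 22 3 18))))) (.nv (.thr 41 11 (.thr 1 61 (.dbl 3 2 22))) (.rp 41 (.str 28 (.nv (.thr 12 44 (.thr 16 31 (.thr 24 20 (.thr 25 27 (.dbl 8 4 59))))) (.nv (.thr 12 44 (.thr 8 4 (.thr 25 59 (.thr 24 27 (.thr 20 16 (.dbl 22 19 23)))))) (.nv (.thr 5 37 (.thr 31 16 (.thr 15 10 (.dbl 30 29 45)))) (.rp 16 (.thr 12 44 (.thr 4 8 (.thr 5 37 (.thr 38 55 (.thr 14 50 (.dbl 15 10 13)))))) .nd))))) (.rp 22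 (.thr 37 5 (.thr 41 11 (.thr 45 33 (.thr 61 1 (.thr 49 57 (.dbl 13 25 29)))))) (.rp 15 (.thr 41 11 (.thr 3 22 (.dbl 1 2 61))) (.rp 11 (.thr 5 37 (.thr 15 10 (.thr 30 45 (.thr 22 18 (.thr 2 62 (.dbl 3 1 41)))))) (.rp 3 (.thr 5 37 (.thr 15 10 (.thr 45 30 (.thr 41 11 (.thr 61 1 (.thr 57 49 (.thr 29 13 (.dbl 25 9 17)))))))) .nd)))))))) (.rp 41 (.thr 58 10 (.thr 59 57 (.thr 25 8 (.thr 29 17 (.thr 31 16 (.thr 28 30 (.thr 27 24 (.dbl 19 22 23)))))))) (.rp 11 (.thr 58 10 (.thr 59 57 (.thr 8 25 (.thr 12 4 (.thr 28 44 (.thr 16 31 (.thr 20 24 (.thr 22 23 (.thr 2 62 (.dbl 3 1 41)))))))))) .nd)))))) (.rp 15 (.thr 58 10 (.thr 31 16 (.str 3 (.nv (.thr 2 1 (.dbl 22 41 62)) (.rp 62 (.thr 1 2 (.dbl 41 22 61)) (.rp 41 (.thr 2 1 (.thr 22 62 (.thr 30 18 (.thr 28 29 (.thr 19 25 (.dbl 23 20 27)))))) (.rp 22 (.thr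 1 2 (.thr 41 61 (.thr 56 11 (.thr 57 59 (.thr 51 54 (.thr 19 35 (.thr 27 23 (.dbl 25 9 24)))))))) (.rp 2 (.thr 22 41 (.thr 23 20 (.thr 19 27 (.thr 28 25 (.dbl 30 18 29))))) (.rp 1 (.thr 22 41 (.thr 30 18 (.thr 28 29 (.thr 19 25 (.dbl 23 20 27))))) .nd))))))))) .nd)))))) (.rp 23 (.thr 40 20 (.thr 41 43 (.thr 3 22 (.dbl 1 2 61)))) (.rp 22 (.str 37 (.nv (.thr 5 53 (.thr 15 10 (.thr 40 20 (.thr 41 43 (.dbl 45 30 33))))) (.nv (.thr 32 47 (.thr 48 16 (.thr 5 53 (.dbl 15 10 26)))) (.rp 53 (.thr 40 20 (.thr 32 47 (.thr 36 44 (.thr 48 16 (.thr 56 52 (.dbl 24 8 12)))))) (.rp 48 (.thr 40 20 (.thr 41 43 (.thr 45 33 (.thr 15 30 (.dbl 5 10 53))))) (.rp 15 (.thr 40 20 (.thr 53 5 (.thr 41 43 (.thr 45 33 (.thr 61 1 (.thr 49 57 (.dbl 13 25 29))))))) (.rp 10 (.thr 40 20 (.thr 32 47 (.thr 36 44 (.thr 48 16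 (.thr 56 52 (.dbl 24 8 12)))))) (.rp 5 (.thr 40 20 (.thr 32 47 (.thr 36 44 (.thr 48 16 (.thr 56 52 (.dbl 24 8 12)))))) .nd)))))))) (.rp 20 (.str 26 (.nv (.thr 16 31 (.thr 48 32 (.thr 56 52 (.thr 41 11 (.thr 1 61 (.dbl 3 2 22)))))) (.nv (.thr 10 58 (.thr 15 5 (.thr 30 45 (.thr 22 18 (.thr 2 62 (.dbl 3 1 41)))))) (.nv (.thr 16 31 (.thr 48 32 (.thr 10 58 (.dbl 15 5 37)))) (.rp 48 (.str 56 (.nv (.thr 58 10 (.thr 11 41 (.thr 59 57 (.thr 25 8 (.dbl 27 24 43))))) (.nv (.thr 41 11 (.thr 1 61 (.dbl 3 2 22))) (.rp 58 (.str 53 (.nv (.thr 5 37 (.thr 15 10 (.thr 30 45 (.thr 41 11 (.dbl 22 3 18))))) (.nv (.thr 41 11 (.thr 1 61 (.dbl 3 2 22))) (.rp 41 (.str 28 (.nv (.thr 12 44 (.thr 31 16 (.thr 29 30 (.thr 25 17 (.dbl 8 4 59))))) (.nv (.thr 12 44 (.thr 8 4 (.thr 24 40 (.dbl 25 27 59)))) (.nv (.thr 5 37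 (.thr 31 16 (.thr 15 10 (.dbl 30 29 45)))) .nd)))) (.rp 22 (.thr 37 5 (.thr 41 11 (.thr 45 33 (.thr 61 1 (.thr 49 57 (.dbl 13 25 29)))))) (.rp 15 (.thr 41 11 (.thr 3 22 (.dbl 1 2 61))) (.rp 11 (.thr 5 37 (.thr 15 10 (.thr 30 45 (.thr 22 18 (.thr 2 62 (.dbl 3 1 41)))))) (.rp 3 (.thr 5 37 (.thr 10 15 (.thr 11 41 (.thr 8 9 (.thr 24 40 (.dbl 25 27 59)))))) .nd)))))))) (.rp 41 (.thr 58 10 (.thr 59 57 (.thr 25 8 (.thr 29 17 (.thr 31 16 (.thr 28 30 (.thr 27 24 (.dbl 19 22 23)))))))) (.rp 11 (.thr 58 10 (.thr 59 57 (.thr 8 25 (.thr 40 24 (.thr 41 43 (.thr 1 61 (.dbl 3 2 22))))))) .nd)))))) (.rp 15 (.thr 58 10 (.str 41 (.nv (.thr 1 61 (.dbl 3 2 22)) (.rp 61 (.thr 40 43 (.thr 56 11 (.thr 3 22 (.thr 8 24 (.dbl 59 25 57))))) (.rp 47 (.thr 31 16 (.thr 1 61 (.dbl 3 2 22))) (.rp 31 (.str 47 (.nv (.thr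 32 37 (.thr 48 16 (.dbl 56 11 52))) (.nv (.thr 1 61 (.dbl 3 2 22)) (.rp 22 (.thr 43 40 (.thr 37 32 (.thr 45 33 (.thr 35 39 (.dbl 44 38 46))))) (.rp 11 (.thr 3 22 (.dbl 1 2 61)) (.rp 3 (.thr 11 56 (.thr 43 40 (.thr 37 32 (.thr 45 33 (.thr 35 39 (.dbl 44 38 46)))))) .nd)))))) (.rp 22 (.thr 1 61 (.thr 40 43 (.thr 56 11 (.thr 3 2 (.thr 8 24 (.dbl 59 25 57)))))) (.rp 11 (.thr 3 22 (.dbl 1 2 61)) (.rp 3 (.thr 11 56 (.thr 31 16 (.thr 43 40 (.thr 59 27 (.thr 8 25 (.thr 12 4 (.thr 28 44 (.thr 30 29 (.thr 22 18 (.thr 62 2 (.thr 50 54 (.dbl 14 38 46)))))))))))) (.rp 2 (.thr 40 43 (.thr 56 11 (.thr 3 22 (.thr 8 24 (.dbl 59 25 57))))) (.rp 1 (.thr 40 43 (.thr 56 11 (.thr 3 22 (.thr 8 24 (.dbl 59 25 57))))) .nd))))))))))) .nd)))))) (.rp 3 (.thr 40 20 (.thr 43 41 (.str 56 (.nv (.thr 48 52 (.thr 16 32 (.thr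 26 31 (.thr 10 58 (.dbl 15 5 37))))) (.nv (.thr 24 8 (.thr 48 52 (.thr 32 16 (.dbl 36 12 44)))) (.rp 52 (.thr 8 24 (.thr 4 12 (.thr 59 25 (.thr 57 58 (.thr 55 38 (.thr 51 54 (.thr 27 11 (.thr 15 39 (.thr 5 10 (.thr 37 53 (.thr 48 26 (.dbl 32 16 47)))))))))))) (.rp 48 (.thr 8 24 (.thr 12 4 (.thr 28 44 (.thr 25 59 (.thr 29 17 (.thr 30 31 (.thr 15 45 (.thr 5 10 (.thr 13 14 (.dbl 37 49 53)))))))))) (.rp 37 (.thr 8 24 (.thr 12 4 (.thr 28 44 (.thr 25 59 (.thr 29 17 (.thr 31 30 (.thr 16 26 (.dbl 48 32 52)))))))) (.rp 36 (.thr 8 24 (.thr 48 52 (.thr 4 12 (.thr 16 32 (.thr 59 25 (.thr 26 31 (.dbl 58 10 57))))))) (.rp 32 (.thr 8 24 (.thr 48 52 (.thr 59 25 (.thr 57 58 (.thr 51 54 (.thr 27 11 (.thr 15 39 (.thr 5 10 (.dbl 37 26 53))))))))) (.rp 22 (.thr 8 24 (.thr 59 25 (.thr 57 58 (.thr 51 54 (.thr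 27 11 (.thr 15 39 (.thr 48 52 (.thr 37 26 (.dbl 5 10 53))))))))) (.rp 16 (.thr 24 8 (.thr 48 52 (.thr 36 12 (.thr 32 44 (.thr 37 47 (.thr 5 53 (.dbl 15 10 26))))))) (.rp 15 (.str 11 (.nv (.thr 24 8 (.thr 48 52 (.thr 32 16 (.dbl 36 12 44)))) (.nv (.thr 8 24 (.dbl 59 25 27)) (.rp 47 (.str 31 (.nv (.thr 59 27 (.dbl 8 24 25)) (.nv (.thr 16 26 (.dbl 48 32 52)) .nd))) (.rp 31 (.str 47 (.nv (.thr 32 37 (.dbl 48 16 52)) (.nv (.thr 8 24 (.dbl 59 25 27)) (.rp 16 (.thr 59 27 (.dbl 8 24 25)) .nd)))) (.rp 24 (.thr 48 52 (.thr 16 32 (.thr 59 27 (.thr 58 57 (.dbl 26 10 31))))) (.rp 16 (.thr 59 27 (.dbl 8 24 25)) (.rp 8 (.thr 48 52 (.thr 16 32 (.thr 59 27 (.thr 58 57 (.dbl 26 10 31))))) .nd)))))))) (.rp 11 (.str 15 (.nv (.thr 8 24 (.thr 10 5 (.thr 58 26 (.dbl 59 25 57)))) (.nv (.thr 48 52 (.thr 32 16 (.thr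 36 44 (.dbl 24 8 12)))) (.nv (.thr 10 5 (.thr 26 58 (.dbl 48 37 52))) (.rp 4 (.thr 5 10 (.thr 37 53 (.dbl 48 26 52))) .nd))))) (.rp 4 (.thr 24 8 (.thr 48 52 (.thr 36 12 (.dbl 32 16 44)))) .nd))))))))))))))) (.rp 2 (.thr 40 20 (.thr 43 41 (.str 32 (.nv (.thr 36 44 (.thr 48 16 (.thr 24 12 (.dbl 56 8 52)))) (.nv (.thr 37 47 (.thr 5 53 (.thr 48 16 (.dbl 15 10 26)))) (.rp 50 (.str 18 (.nv (.thr 37 47 (.thr 5 53 (.thr 15 10 (.thr 30 45 (.dbl 26 22 48))))) (.nv (.thr 36 44 (.thr 48 16 (.thr 24 12 (.dbl 56 8 52)))) (.nv (.thr 48 16 (.thr 37 47 (.thr 5 53 (.dbl 15 10 26)))) (.rp 48 (.thr 44 36 (.thr 47 37 (.thr 39 35 (.thr 45 46 (.thr 12 28 (.thr 4 8 (.thr 38 55 (.thr 51 25 (.dbl 15 27 30))))))))) .nd))))) (.rp 48 (.thr 44 36 (.thr 12 28 (.thr 4 8 (.thr 47 37 (.thr 39 35 (.thr 45 46 (.thr 38 55 (.thr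 51 25 (.dbl 15 27 30))))))))) (.rp 24 (.thr 37 47 (.thr 5 53 (.thr 15 10 (.dbl 48 16 26)))) (.rp 18 (.str 50 (.nv (.thr 36 44 (.thr 48 16 (.thr 24 12 (.dbl 56 8 52)))) (.nv (.thr 37 47 (.thr 5 53 (.thr 15 10 (.dbl 48 16 26)))) (.rp 48 (.thr 44 36 (.thr 37 47 (.thr 12 28 (.thr 4 8 (.thr 38 55 (.thr 14 26 (.thr 15 13 (.dbl 5 10 53)))))))) (.rp 16 (.thr 36 44 (.thr 37 47 (.thr 38 39 (.thr 5 53 (.thr 15 10 (.dbl 26 14 48)))))) .nd))))) (.rp 16 (.thr 36 44 (.thr 37 47 (.thr 5 53 (.thr 15 10 (.thr 48 26 (.thr 56 52 (.dbl 24 8 12))))))) .nd)))))))))) (.rp 1 (.str 28 (.nv (.thr 12 44 (.thr 8 4 (.thr 25 59 (.thr 22 19 (.thr 3 41 (.thr 6 9 (.dbl 38 51 54))))))) (.nv (.thr 20 40 (.thr 22 23 (.thr 25 19 (.thr 29 17 (.thr 31 30 (.dbl 16 24 26)))))) (.nv (.thr 12 44 (.thr 20 40 (.thr 4 8 (.thr 24 16 (.dbl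 36 48 52))))) .nd)))) .nd)))))))))))

theorem w291 : WinAt (4398048608257, 9223372054034645120) :=
  chF (K := []) kn c291 4398048608257 9223372054034645120 63
    [] (by decide +kernel) (by decide +kernel)

/-- A certificate. -/
noncomputable def c292 : Ct := (.str 3 (.nv (.thr 1 2 (.thr 41 61 (.thr 60 22 (.dbl 40 20 43)))) (.nv (.thr 2 1 (.thr 22 62 (.thr 60 41 (.dbl 20 23 40)))) (.rp 60 (.thr 2 1 (.str 34 (.nv (.thr 51 17 (.thr 38 46 (.thr 12 25 (.dbl 4 8 55)))) (.nv (.thr 62 22 (.thr 38 46 (.thr 50 18 (.thr 26 14 (.dbl 58 10 54))))) (.nv (.thr 18 50 (.thr 48 33 (.thr 16 32 (.dbl 17 19 51)))) (.rp 62 (.str 61 (.nv (.thr 38 46 (.thr 4 55 (.thr 12 8 (.dbl 51 17 25)))) (.nv (.thr 18 50 (.thr 48 33 (.thr 16 32 (.dbl 17 19 51)))) (.rp 51 (.thr 38 46 (.thr 50 18 (.thr 14 26 (.thr 6 10 (.thr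 12 9 (.dbl 4 8 55)))))) (.rp 17 (.thr 38 46 (.thr 4 55 (.thr 12 8 (.thr 6 9 (.thr 50 18 (.dbl 14 10 26)))))) .nd))))) .nd)))))) (.rp 41 (.str 38 (.nv (.thr 2 1 (.thr 4 55 (.thr 12 8 (.thr 6 9 (.dbl 22 54 62))))) (.nv (.thr 2 1 (.thr 22 62 (.thr 6 54 (.thr 14 10 (.thr 50 26 (.dbl 34 18 46)))))) (.nv (.thr 34 46 (.thr 51 17 (.thr 4 55 (.dbl 12 8 25)))) .nd)))) (.rp 40 (.str 15 (.nv (.thr 2 1 (.thr 10 5 (.thr 22 62 (.thr 60 41 (.thr 30 45 (.dbl 26 18 58)))))) (.nv (.thr 5 10 (.thr 37 53 (.thr 48 26 (.dbl 32 16 47)))) (.rp 37 (.thr 10 5 (.thr 2 1 (.thr 22 62 (.thr 26 58 (.thr 30 18 (.dbl 60 41 45)))))) (.rp 26 (.thr 5 10 (.thr 1 2 (.thr 41 61 (.thr 37 53 (.thr 45 33 (.dbl 60 22 30)))))) (.rp 10 (.thr 1 2 (.thr 41 61 (.thr 60 22 (.thr 45 30 (.thr 37 33 (.thr 32 47 (.dbl 48 16 26))))))) (.rp 5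 (.thr 1 2 (.thr 41 61 (.thr 60 22 (.thr 45 30 (.thr 37 33 (.thr 32 47 (.dbl 48 16 26))))))) .nd))))))) (.rp 22 (.str 37 (.nv (.thr 1 2 (.thr 32 47 (.thr 41 61 (.thr 33 45 (.dbl 48 16 18))))) (.nv (.thr 1 2 (.thr 41 61 (.thr 33 45 (.thr 49 17 (.thr 13 25 (.dbl 5 9 53)))))) (.nv (.thr 5 53 (.thr 15 10 (.thr 32 47 (.dbl 48 16 26)))) .nd)))) (.rp 20 (.str 51 (.nv (.thr 1 2 (.thr 17 34 (.thr 41 61 (.thr 60 22 (.thr 57 54 (.dbl 25 9 29)))))) (.nv (.thr 34 17 (.thr 38 46 (.thr 12 25 (.dbl 4 8 55)))) (.rp 38 (.thr 17 34 (.thr 1 2 (.thr 41 61 (.thr 25 29 (.thr 57 9 (.dbl 60 22 54)))))) (.rp 34 (.thr 2 1 (.thr 22 62 (.thr 60 41 (.thr 54 57 (.thr 38 6 (.thr 4 55 (.dbl 12 8 25))))))) (.rp 25 (.thr 34 17 (.thr 2 1 (.thr 22 62 (.thr 38 46 (.thr 54 6 (.dbl 60 41 57)))))) (.rp 17 (.thr 2 1 (.thr 22 62 (.thr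 60 41 (.thr 54 57 (.thr 38 6 (.thr 4 55 (.dbl 12 8 25))))))) .nd))))))) (.rp 2 (.str 37 (.nv (.thr 32 47 (.thr 48 16 (.thr 33 18 (.thr 41 45 (.thr 60 22 (.dbl 40 20 43)))))) (.nv (.thr 5 53 (.thr 15 10 (.thr 48 26 (.dbl 32 16 47)))) (.rp 48 (.str 41 (.nv (.thr 45 33 (.thr 60 22 (.thr 15 30 (.dbl 5 10 53)))) (.nv (.thr 60 22 (.dbl 40 20 43)) (.rp 60 (.thr 45 33 (.thr 61 1 (.thr 13 29 (.thr 53 5 (.dbl 49 25 57))))) (.rp 58 (.thr 53 5 (.thr 40 43 (.dbl 60 20 22))) (.rp 53 (.str 58 (.nv (.thr 10 26 (.thr 15 5 (.thr 45 33 (.dbl 60 22 30)))) (.nv (.thr 60 22 (.dbl 40 20 43)) (.rp 60 (.thr 26 10 (.thr 56 11 (.thr 59 57 (.thr 40 43 (.dbl 8 24 25))))) (.rp 22 (.thr 26 10 (.thr 56 11 (.thr 59 57 (.thr 40 43 (.dbl 8 24 25))))) .nd))))) (.rp 22 (.thr 45 33 (.thr 40 43 (.thr 60 20 (.thr 15 30 (.dbl 5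 10 53))))) .nd))))))) (.rp 47 (.thr 5 53 (.thr 15 10 (.thr 48 26 (.thr 33 18 (.thr 41 45 (.thr 1 61 (.thr 13 9 (.dbl 49 17 25)))))))) (.rp 32 (.thr 5 53 (.thr 15 10 (.thr 48 26 (.thr 33 18 (.thr 41 45 (.thr 40 43 (.dbl 60 20 22))))))) (.rp 26 (.thr 32 47 (.thr 5 53 (.thr 48 16 (.thr 33 18 (.thr 41 45 (.thr 1 61 (.thr 13 9 (.dbl 49 17 25)))))))) (.rp 16 (.thr 5 53 (.thr 15 10 (.thr 48 26 (.thr 33 18 (.thr 41 45 (.thr 40 43 (.dbl 60 20 22))))))) (.rp 15 (.thr 47 32 (.str 41 (.nv (.thr 40 43 (.dbl 60 20 22)) (.rp 60 (.thr 61 1 (.thr 53 5 (.thr 49 57 (.thr 13 25 (.dbl 45 29 33))))) (.rp 43 (.thr 33 45 (.thr 1 61 (.thr 5 53 (.thr 13 9 (.dbl 49 17 25))))) (.rp 40 (.thr 33 45 (.thr 1 61 (.thr 5 53 (.thr 13 9 (.dbl 49 17 25))))) (.rp 34 (.thr 33 45 (.thr 40 43 (.dbl 60 20 22))) (.rp 33 (.str 34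 (.nv (.thr 38 46 (.thr 4 55 (.thr 12 8 (.dbl 51 17 25)))) (.nv (.thr 40 43 (.dbl 60 20 22)) .nd))) (.rp 22 (.thr 33 45 (.thr 1 61 (.thr 5 53 (.thr 13 9 (.dbl 49 17 25))))) (.rp 20 (.thr 33 45 (.thr 1 61 (.thr 5 53 (.thr 13 9 (.dbl 49 17 25))))) .nd)))))))))) .nd))))))))) (.rp 1 (.str 38 (.nv (.thr 4 55 (.thr 12 8 (.thr 6 9 (.thr 22 54 (.thr 60 41 (.dbl 20 23 40)))))) (.nv (.thr 34 46 (.thr 51 17 (.thr 12 25 (.dbl 4 8 55)))) (.rp 55 (.thr 34 46 (.thr 51 17 (.thr 12 25 (.thr 6 9 (.thr 22 54 (.thr 2 62 (.thr 50 18 (.dbl 14 10 26)))))))) (.rp 51 (.thr 55 4 (.str 22 (.nv (.thr 20 23 (.dbl 60 40 41)) (.rp 60 (.thr 62 2 (.thr 46 34 (.thr 14 30 (.thr 50 26 (.dbl 54 6 58))))) (.rp 41 (.thr 6 54 (.thr 2 62 (.thr 34 46 (.thr 50 18 (.dbl 14 10 26))))) (.rp 40 (.thr 6 54 (.thr 2 62 (.thr 34 46 (.thr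 50 18 (.dbl 14 10 26))))) (.rp 23 (.thr 6 54 (.thr 2 62 (.thr 34 46 (.thr 50 18 (.dbl 14 10 26))))) (.rp 20 (.thr 6 54 (.thr 2 62 (.thr 34 46 (.thr 50 18 (.dbl 14 10 26))))) (.rp 6 (.str 5 (.nv (.thr 15 10 (.thr 37 53 (.thr 32 47 (.dbl 48 16 26)))) (.nv (.thr 20 23 (.dbl 60 40 41)) .nd))) (.rp 5 (.thr 6 54 (.thr 20 23 (.dbl 60 40 41))) .nd)))))))))) (.rp 25 (.thr 4 55 (.thr 34 46 (.thr 12 8 (.thr 6 9 (.thr 22 54 (.thr 2 62 (.thr 50 18 (.dbl 14 10 26)))))))) (.rp 12 (.str 22 (.nv (.thr 54 6 (.thr 60 41 (.thr 51 57 (.dbl 34 17 46)))) (.nv (.thr 60 41 (.dbl 20 23 40)) (.rp 60 (.thr 54 6 (.thr 62 2 (.thr 50 58 (.thr 46 34 (.dbl 14 26 30))))) (.rp 46 (.str 29 (.nv (.thr 17 25 (.thr 51 34 (.thr 54 6 (.dbl 60 41 57)))) (.nv (.thr 60 41 (.dbl 20 23 40)) (.rp 60 (.thr 25 17 (.thr 28 19 (.thr 31 30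 (.thr 20 23 (.dbl 16 24 26))))) (.rp 41 (.thr 25 17 (.thr 28 19 (.thr 31 30 (.thr 20 23 (.dbl 16 24 26))))) .nd))))) (.rp 41 (.thr 54 6 (.thr 20 23 (.thr 60 40 (.thr 51 57 (.dbl 34 17 46))))) (.rp 29 (.thr 46 34 (.thr 20 23 (.dbl 60 40 41))) .nd))))))) (.rp 8 (.thr 34 46 (.thr 51 17 (.thr 12 25 (.thr 6 9 (.thr 22 54 (.thr 20 23 (.dbl 60 40 41))))))) (.rp 4 (.thr 34 46 (.thr 51 17 (.thr 12 25 (.thr 6 9 (.thr 22 54 (.thr 20 23 (.dbl 60 40 41))))))) .nd))))))))) .nd))))))))))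

theorem w292 : WinAt (4398048608257, 9223372071214514304) :=
  chF (K := []) kn c292 4398048608257 9223372071214514304 63
    [] (by decide +kernel) (by decide +kernel)

/-- A certificate. -/
noncomputable def c293 : Ct := (.str 15 (.nv (.thr 47 31 (.thr 37 32 (.thr 48 26 (.dbl 53 5 58)))) (.nv (.thr 31 47 (.thr 26 16 (.thr 58 10 (.dbl 48 37 53)))) (.rp 58 (.str 12 (.nv (.thr 13 14 (.thr 47 31 (.thr 37 32 (.thr 25 49 (.thr 51 38 (.dbl 59 8 55)))))) (.nv (.thr 13 14 (.thr 29 46 (.thr 31 47 (.thr 30 28 (.dbl 45 60 61))))) (.nv (.thr 46 29 (.thr 38 34 (.thr 51 25 (.dbl 55 4 59)))) .nd)))) (.rp 53 (.str 12 (.nv (.thr 13 14 (.thr 47 31 (.thr 37 32 (.thr 25 49 (.thr 51 38 (.dbl 59 8 55)))))) (.nv (.thr 13 14 (.thr 29 46 (.thr 31 47 (.thr 30 28 (.dbl 45 60 61))))) (.nv (.thr 46 29 (.thr 38 34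 (.thr 51 25 (.dbl 55 4 59)))) .nd)))) (.rp 48 (.thr 31 47 (.thr 16 26 (.str 59 (.nv (.thr 25 8 (.thr 17 29 (.thr 19 18 (.thr 22 28 (.dbl 23 20 27))))) (.nv (.thr 51 55 (.thr 27 39 (.thr 23 19 (.dbl 43 3 11)))) (.nv (.thr 25 8 (.thr 29 17 (.thr 51 55 (.dbl 12 38 46)))) (.rp 24 (.str 12 (.nv (.thr 51 55 (.thr 27 39 (.thr 23 19 (.dbl 43 3 11)))) (.nv (.thr 25 8 (.dbl 29 17 46)) (.rp 25 (.str 27 (.nv (.thr 23 19 (.dbl 43 3 11)) (.nv (.dbl 51 39 55) .nd))) .nd)))) (.rp 23 (.thr 25 8 (.thr 29 17 (.thr 12 46 (.dbl 51 38 55)))) (.rp 12 (.str 24 (.nv (.thr 51 55 (.thr 27 39 (.thr 23 19 (.dbl 43 3 11)))) (.nv (.thr 28 20 (.thr 29 30 (.dbl 25 8 17))) (.rp 8 (.str 4 (.nv (.dbl 55 38 51) (.rp 55 (.thr 20 28 (.thr 23 22 (.thr 43 3 (.dbl 27 11 19)))) (.rp 51 (.thr 20 28 (.thr 23 22 (.thr 43 3 (.dbl 27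 11 19)))) (.rp 38 (.thr 51 55 (.thr 20 28 (.thr 23 22 (.dbl 27 19 39)))) .nd))))) (.rp 4 (.thr 8 25 (.thr 20 28 (.thr 51 55 (.thr 27 39 (.dbl 23 19 22))))) .nd))))) .nd))))))))) (.rp 47 (.str 12 (.nv (.thr 14 13 (.thr 46 29 (.thr 38 34 (.thr 26 50 (.thr 58 10 (.dbl 48 37 53)))))) (.nv (.thr 46 29 (.thr 38 34 (.thr 51 25 (.dbl 55 4 59)))) (.rp 51 (.thr 14 13 (.thr 46 29 (.thr 62 30 (.thr 22 2 (.thr 23 20 (.thr 3 43 (.dbl 60 41 61))))))) (.rp 46 (.thr 13 14 (.str 45 (.nv (.thr 61 29 (.dbl 60 30 62)) (.rp 62 (.thr 30 60 (.thr 29 61 (.thr 25 17 (.thr 59 8 (.dbl 51 38 55))))) (.rp 61 (.str 29 (.nv (.thr 30 60 (.thr 31 28 (.thr 26 16 (.thr 58 10 (.dbl 48 37 53))))) (.nv (.thr 25 17 (.thr 59 8 (.dbl 51 38 55))) (.rp 30 (.str 62 (.nv (.thr 25 17 (.thr 37 49 (.thr 53 5 (.dbl 48 26 58)))) (.nv (.thr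 25 17 (.thr 59 8 (.dbl 51 38 55))) (.rp 51 (.thr 22 2 (.thr 23 20 (.thr 3 43 (.thr 60 41 (.thr 28 44 (.dbl 25 17 19)))))) (.rp 34 (.thr 25 17 (.thr 51 38 (.dbl 59 8 55))) (.rp 25 (.thr 22 2 (.thr 23 20 (.thr 3 43 (.thr 6 9 (.thr 54 38 (.thr 58 50 (.thr 26 10 (.dbl 48 37 53)))))))) (.rp 17 (.thr 22 2 (.thr 23 20 (.thr 3 43 (.thr 6 9 (.thr 38 54 (.thr 51 25 (.dbl 55 4 59))))))) .nd))))))) .nd)))) (.rp 60 (.thr 29 61 (.thr 25 17 (.thr 59 8 (.dbl 51 38 55)))) (.rp 30 (.str 62 (.nv (.dbl 61 29 60) (.rp 61 (.thr 22 2 (.thr 23 20 (.thr 3 43 (.thr 6 9 (.thr 38 54 (.thr 51 25 (.dbl 55 4 59))))))) (.rp 60 (.thr 29 61 (.thr 25 17 (.thr 59 8 (.dbl 51 38 55)))) (.rp 29 (.thr 60 61 (.thr 22 2 (.thr 23 20 (.dbl 3 41 43)))) .nd))))) (.rp 29 (.thr 60 30 (.thr 62 61 (.thr 22 2 (.thr 23 20 (.dbl 3 41 43)))))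 .nd)))))))) (.rp 38 (.thr 13 14 (.thr 29 46 (.thr 25 17 (.thr 37 49 (.thr 53 5 (.dbl 48 26 58)))))) (.rp 34 (.thr 29 46 (.thr 25 17 (.thr 51 38 (.dbl 59 8 55)))) (.rp 29 (.str 46 (.nv (.thr 14 13 (.thr 38 34 (.thr 26 50 (.thr 58 10 (.dbl 48 37 53))))) (.nv (.thr 38 34 (.thr 51 25 (.dbl 55 4 59))) (.rp 51 (.thr 14 13 (.thr 62 30 (.thr 22 2 (.thr 23 20 (.thr 3 43 (.dbl 60 41 61)))))) (.rp 38 (.thr 14 13 (.thr 62 30 (.thr 22 2 (.thr 23 20 (.thr 3 43 (.dbl 60 41 61)))))) (.rp 34 (.thr 14 13 (.thr 62 30 (.thr 22 2 (.thr 23 20 (.thr 3 43 (.dbl 60 41 61)))))) .nd)))))) .nd)))))))) (.rp 37 (.thr 31 47 (.thr 26 16 (.thr 58 10 (.thr 48 53 (.str 22 (.nv (.thr 30 18 (.thr 60 45 (.dbl 62 2 61))) (.nv (.thr 62 2 (.thr 60 61 (.thr 56 52 (.dbl 41 3 11)))) (.nv (.thr 18 30 (.thr 3 33 (.dbl 23 20 43))) (.rp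 41 (.thr 18 30 (.thr 23 20 (.dbl 3 33 43))) (.rp 39 (.str 38 (.nv (.thr 23 20 (.thr 18 30 (.dbl 3 33 43))) (.nv (.thr 50 14 (.dbl 54 6 62)) (.rp 43 (.str 35 (.nv (.thr 18 30 (.thr 3 33 (.dbl 41 44 60))) (.nv (.thr 50 14 (.dbl 54 6 62)) (.rp 55 (.thr 23 20 (.thr 54 6 (.dbl 50 14 62))) (.rp 23 (.thr 55 4 (.thr 51 59 (.dbl 50 14 49))) .nd))))) (.rp 35 (.str 43 (.nv (.thr 50 14 (.dbl 54 6 62)) (.nv (.dbl 23 3 20) (.rp 23 (.thr 55 4 (.thr 51 59 (.dbl 50 14 49))) .nd)))) (.rp 23 (.thr 55 4 (.thr 50 14 (.dbl 54 6 62))) .nd)))))) (.rp 38 (.str 39 (.nv (.thr 62 2 (.thr 60 61 (.dbl 30 18 45))) (.nv (.thr 27 51 (.dbl 23 19 20)) .nd))) .nd))))))))))) (.rp 32 (.thr 31 47 (.thr 26 16 (.thr 48 37 (.dbl 58 10 53)))) (.rp 31 (.str 61 (.nv (.thr 41 1 (.thr 60 62 (.thr 45 30 (.thr 37 33 (.thr 53 5 (.dbl 48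 26 58)))))) (.nv (.thr 60 62 (.thr 41 1 (.thr 3 22 (.dbl 43 23 40)))) (.rp 62 (.thr 41 1 (.thr 43 40 (.thr 3 23 (.thr 60 22 (.thr 45 30 (.thr 37 33 (.thr 53 5 (.dbl 48 26 58)))))))) (.rp 60 (.thr 41 1 (.thr 40 43 (.str 29 (.nv (.thr 13 45 (.thr 25 17 (.thr 49 37 (.dbl 57 9 53)))) (.nv (.thr 12 46 (.thr 25 17 (.thr 51 38 (.dbl 59 8 55)))) (.nv (.thr 13 45 (.dbl 12 14 46)) (.rp 3 (.str 2 (.nv (.thr 13 45 (.thr 25 17 (.thr 49 37 (.dbl 57 9 53)))) (.nv (.thr 12 46 (.thr 25 17 (.thr 51 38 (.dbl 59 8 55)))) (.nv (.thr 13 45 (.dbl 12 14 46)) .nd)))) (.rp 2 (.str 3 (.nv (.thr 12 46 (.thr 9 6 (.dbl 25 17 57))) (.nv (.thr 13 45 (.thr 25 17 (.thr 49 37 (.dbl 57 9 53)))) (.nv (.thr 13 45 (.dbl 12 14 46)) .nd)))) .nd)))))))) (.rp 41 (.thr 60 62 (.thr 45 30 (.thr 29 13 (.thr 25 17 (.thr 59 8 (.thr 51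 55 (.dbl 12 38 46))))))) (.rp 37 (.thr 60 62 (.thr 41 1 (.thr 43 40 (.dbl 3 22 23)))) (.rp 3 (.thr 60 62 (.thr 45 30 (.thr 29 13 (.thr 46 12 (.thr 44 47 (.thr 38 34 (.dbl 41 1 35))))))) (.rp 1 (.thr 60 62 (.thr 45 30 (.thr 29 13 (.thr 25 17 (.thr 59 8 (.thr 51 55 (.dbl 12 38 46))))))) .nd))))))))) (.rp 26 (.str 12 (.nv (.thr 13 14 (.thr 47 31 (.thr 37 32 (.thr 25 49 (.thr 59 8 (.dbl 51 38 55)))))) (.nv (.thr 14 13 (.thr 46 29 (.thr 30 62 (.thr 45 60 (.dbl 47 31 44))))) (.nv (.thr 29 46 (.thr 25 17 (.thr 59 8 (.dbl 51 38 55)))) .nd)))) .nd)))))))))))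

theorem w293 : WinAt (9223376434903384064, 68719476865) :=
  chF (K := []) kn c293 9223376434903384064 68719476865 0
    [] (by decide +kernel) (by decide +kernel)

/-- A certificate. -/
noncomputable def c294 : Ct := (.str 22 (.nv (.thr 2 62 (.thr 3 1 (.thr 60 41 (.dbl 20 23 40)))) (.nv (.thr 20 23 (.thr 60 40 (.thr 2 62 (.dbl 3 1 41)))) (.rp 62 (.str 60 (.nv (.dbl 20 23 40) (.rp 40 (.str 28 (.nv (.thr 3 41 (.thr 12 44 (.thr 4 8 (.thr 38 55 (.dbl 6 9 54))))) (.nv (.thr 19 25 (.thr 23 20 (.thr 31 27 (.thr 26 16 (.dbl 30 18 29))))) (.nv (.thr 12 44 (.thr 25 19 (.dbl 8 4 59))) .nd)))) (.rp 23 (.thr 40 20 (.dbl 41 3 43)) (.rp 20 (.str 28 (.nv (.thr 3 41 (.thr 12 44 (.thr 4 8 (.thr 38 55 (.dbl 6 9 54))))) (.nv (.thr 12 44 (.thr 25 19 (.thr 17 29 (.dbl 51 34 38)))) (.nv (.thr 12 44 (.thr 25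 19 (.dbl 8 4 59))) (.rp 44 (.thr 25 19 (.thr 17 29 (.thr 8 59 (.thr 12 4 (.dbl 51 34 38))))) (.rp 12 (.thr 25 19 (.thr 29 17 (.thr 30 31 (.thr 15 45 (.thr 10 5 (.dbl 26 18 58)))))) .nd)))))) .nd))))) (.rp 60 (.str 16 (.nv (.thr 20 23 (.thr 28 24 (.thr 19 25 (.thr 18 17 (.dbl 26 30 31))))) (.nv (.thr 26 31 (.thr 18 30 (.thr 48 32 (.thr 3 33 (.dbl 2 1 62))))) (.nv (.thr 23 20 (.thr 31 26 (.thr 19 27 (.thr 17 18 (.dbl 25 28 29))))) (.rp 62 (.str 61 (.nv (.thr 23 20 (.thr 31 26 (.thr 19 27 (.thr 17 18 (.dbl 25 28 29))))) (.nv (.thr 20 23 (.thr 28 24 (.thr 25 19 (.thr 29 17 (.dbl 31 26 30))))) (.nv (.thr 1 41 (.thr 3 2 (.thr 26 31 (.thr 48 32 (.dbl 18 30 33))))) (.rp 31 (.thr 48 32 (.thr 41 1 (.thr 20 23 (.thr 24 28 (.thr 12 36 (.thr 8 4 (.dbl 40 43 56))))))) (.rp 26 (.thr 48 32 (.thr 41 1 (.thr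 20 23 (.thr 24 28 (.thr 12 36 (.thr 8 4 (.dbl 40 43 56))))))) .nd)))))) (.rp 61 (.thr 62 2 (.thr 26 31 (.thr 30 18 (.thr 14 46 (.thr 50 38 (.dbl 58 10 54)))))) (.rp 31 (.thr 48 32 (.thr 20 23 (.thr 28 24 (.thr 19 25 (.thr 18 17 (.thr 3 33 (.dbl 2 1 62))))))) (.rp 28 (.thr 62 2 (.thr 26 31 (.thr 30 18 (.thr 14 46 (.thr 50 38 (.dbl 58 10 54)))))) (.rp 26 (.thr 20 23 (.thr 28 24 (.thr 25 19 (.thr 17 29 (.thr 8 59 (.thr 12 4 (.dbl 51 34 38))))))) (.rp 18 (.thr 31 26 (.thr 20 23 (.thr 28 24 (.thr 29 30 (.dbl 25 17 19))))) .nd)))))))))) (.rp 41 (.thr 23 20 (.thr 62 2 (.str 26 (.nv (.thr 31 16 (.thr 19 27 (.thr 28 25 (.dbl 30 18 29)))) (.nv (.thr 58 10 (.thr 30 18 (.thr 50 54 (.dbl 14 38 46)))) (.rp 45 (.str 33 (.nv (.thr 30 18 (.thr 58 10 (.thr 50 54 (.dbl 14 38 46)))) (.nv (.thr 16 31 (.thr 48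 32 (.dbl 18 3 30))) (.rp 30 (.thr 16 31 (.thr 48 32 (.thr 18 3 (.thr 17 19 (.thr 51 34 (.dbl 49 1 50)))))) (.rp 18 (.thr 16 31 (.thr 32 48 (.thr 34 35 (.thr 38 46 (.thr 58 10 (.dbl 50 14 54)))))) .nd))))) (.rp 33 (.str 45 (.nv (.thr 31 16 (.thr 19 27 (.thr 28 25 (.dbl 30 18 29)))) (.nv (.thr 10 58 (.thr 15 5 (.dbl 30 18 60))) (.rp 30 (.thr 10 58 (.thr 15 5 (.thr 31 16 (.thr 27 19 (.thr 51 39 (.thr 17 34 (.dbl 25 24 29))))))) (.rp 18 (.thr 10 58 (.thr 15 5 (.thr 30 60 (.thr 31 16 (.thr 28 29 (.dbl 19 25 27)))))) .nd))))) (.rp 30 (.thr 58 10 (.thr 50 54 (.thr 16 31 (.thr 48 32 (.thr 51 49 (.thr 34 17 (.dbl 38 14 46))))))) (.rp 18 (.thr 58 10 (.thr 50 54 (.thr 14 38 (.thr 30 46 (.thr 31 16 (.thr 19 27 (.dbl 28 25 29))))))) .nd))))))))) (.rp 40 (.str 28 (.nv (.thr 2 62 (.thr 3 1 (.thr 20 23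 (.thr 16 24 (.thr 26 31 (.thr 48 32 (.dbl 18 30 33))))))) (.nv (.thr 25 19 (.thr 17 29 (.thr 8 59 (.thr 51 34 (.dbl 12 4 38))))) (.rp 19 (.thr 2 62 (.thr 20 23 (.thr 16 24 (.thr 48 32 (.thr 3 1 (.thr 18 33 (.dbl 26 30 31))))))) (.rp 8 (.thr 20 23 (.thr 25 19 (.thr 29 17 (.thr 31 30 (.dbl 16 24 26))))) .nd))))) (.rp 23 (.thr 2 62 (.thr 3 1 (.str 51 (.nv (.thr 19 35 (.thr 25 28 (.thr 8 59 (.dbl 12 4 38)))) (.nv (.thr 60 41 (.thr 34 17 (.thr 38 46 (.dbl 54 6 57)))) (.nv (.thr 19 35 (.thr 25 28 (.dbl 17 29 34))) (.rp 60 (.str 61 (.nv (.thr 19 35 (.thr 25 28 (.thr 8 59 (.dbl 12 4 38)))) (.nv (.thr 17 34 (.thr 25 29 (.thr 8 59 (.dbl 12 4 38)))) (.nv (.thr 34 17 (.thr 18 50 (.thr 33 48 (.dbl 35 19 32)))) (.nv (.thr 17 34 (.thr 25 29 (.dbl 19 28 35))) (.rp 55 (.str 39 (.nv (.thr 15 27 (.thr 10 5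 (.thr 6 14 (.thr 38 54 (.dbl 12 9 25))))) (.nv (.thr 19 35 (.thr 17 34 (.dbl 25 28 29))) (.rp 25 (.thr 35 19 (.thr 34 17 (.thr 33 32 (.dbl 18 48 50)))) (.rp 19 (.thr 34 17 (.thr 38 46 (.thr 6 54 (.dbl 12 9 25)))) .nd))))) (.rp 39 (.str 55 (.nv (.thr 19 35 (.thr 25 28 (.dbl 38 4 12))) (.nv (.thr 38 4 (.dbl 34 17 46)) (.rp 38 (.str 36 (.nv (.thr 34 17 (.thr 18 50 (.thr 33 48 (.dbl 35 19 32)))) (.nv (.thr 17 34 (.thr 25 29 (.dbl 19 28 35))) (.rp 35 (.thr 34 17 (.thr 18 50 (.thr 26 30 (.thr 16 31 (.dbl 48 32 33))))) (.rp 34 (.thr 19 35 (.thr 25 28 (.thr 17 29 (.thr 18 16 (.thr 8 59 (.thr 12 4 (.dbl 48 24 33))))))) (.rp 19 (.thr 17 34 (.thr 25 29 (.thr 8 59 (.thr 12 4 (.thr 6 9 (.thr 10 14 (.thr 26 58 (.dbl 24 27 48)))))))) (.rp 17 (.thr 19 35 (.thr 25 28 (.thr 8 59 (.thr 12 4 (.thr 6 9 (.thr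 10 14 (.thr 26 58 (.dbl 24 27 48)))))))) .nd))))))) (.rp 4 (.thr 17 34 (.thr 25 29 (.dbl 19 28 35))) .nd))))) .nd))))))) (.rp 55 (.str 39 (.nv (.thr 60 41 (.thr 34 17 (.thr 38 46 (.dbl 54 6 57)))) (.nv (.thr 15 27 (.thr 10 5 (.thr 6 14 (.thr 54 38 (.dbl 60 41 57))))) (.nv (.thr 19 35 (.thr 25 28 (.dbl 17 29 34))) (.rp 60 (.str 61 (.nv (.thr 15 27 (.thr 10 5 (.thr 6 14 (.thr 38 54 (.dbl 12 9 25))))) (.nv (.thr 19 35 (.thr 17 34 (.dbl 25 28 29))) (.rp 25 (.thr 35 19 (.thr 34 17 (.thr 33 32 (.dbl 18 48 50)))) (.rp 19 (.thr 34 17 (.thr 38 46 (.thr 6 54 (.dbl 12 9 25)))) .nd))))) .nd))))) (.rp 39 (.str 55 (.nv (.thr 60 41 (.thr 19 35 (.thr 25 28 (.dbl 38 4 12)))) (.nv (.thr 38 4 (.dbl 34 17 46)) (.rp 60 (.str 61 (.nv (.thr 19 35 (.thr 25 28 (.dbl 38 4 12))) (.nv (.thr 38 4 (.dbl 34 17 46)) (.rp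 38 (.str 36 (.nv (.thr 34 17 (.thr 18 50 (.thr 33 48 (.dbl 35 19 32)))) (.nv (.thr 17 34 (.thr 25 29 (.dbl 19 28 35))) (.rp 35 (.thr 34 17 (.thr 18 50 (.thr 26 30 (.thr 16 31 (.dbl 48 32 33))))) (.rp 34 (.thr 19 35 (.thr 25 28 (.thr 17 29 (.thr 18 16 (.thr 8 59 (.thr 12 4 (.dbl 48 24 33))))))) (.rp 19 (.thr 17 34 (.thr 25 29 (.thr 8 59 (.thr 12 4 (.thr 6 9 (.thr 10 14 (.thr 26 58 (.dbl 24 27 48)))))))) (.rp 17 (.thr 19 35 (.thr 25 28 (.thr 8 59 (.thr 12 4 (.thr 6 9 (.thr 10 14 (.thr 26 58 (.dbl 24 27 48)))))))) .nd))))))) (.rp 4 (.thr 17 34 (.thr 25 29 (.dbl 19 28 35))) .nd))))) (.rp 38 (.str 36 (.nv (.thr 60 41 (.thr 20 40 (.thr 52 4 (.dbl 54 53 57)))) (.nv (.thr 17 34 (.thr 25 29 (.dbl 19 28 35))) (.rp 60 (.str 61 (.nv (.thr 34 17 (.thr 18 50 (.thr 33 48 (.dbl 35 19 32)))) (.nv (.thr 17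 34 (.thr 25 29 (.dbl 19 28 35))) (.rp 35 (.thr 34 17 (.thr 18 50 (.thr 26 30 (.thr 16 31 (.dbl 48 32 33))))) (.rp 34 (.thr 19 35 (.thr 25 28 (.thr 17 29 (.thr 18 16 (.thr 8 59 (.thr 12 4 (.dbl 48 24 33))))))) (.rp 19 (.thr 17 34 (.thr 25 29 (.thr 8 59 (.thr 12 4 (.thr 6 9 (.thr 10 14 (.thr 26 58 (.dbl 24 27 48)))))))) (.rp 17 (.thr 19 35 (.thr 25 28 (.thr 8 59 (.thr 12 4 (.thr 6 9 (.thr 10 14 (.thr 26 58 (.dbl 24 27 48)))))))) .nd))))))) (.rp 35 (.thr 34 17 (.thr 18 50 (.thr 26 30 (.thr 16 31 (.dbl 48 32 33))))) .nd))))) (.rp 4 (.thr 19 35 (.thr 17 34 (.dbl 25 28 29))) .nd)))))) .nd))))))))) (.rp 20 (.str 48 (.nv (.thr 16 32 (.thr 26 31 (.thr 18 30 (.thr 17 19 (.thr 34 51 (.dbl 2 50 62)))))) (.nv (.thr 2 62 (.thr 3 1 (.thr 18 33 (.thr 34 50 (.thr 17 51 (.thr 19 16 (.dbl 25 28 29))))))) (.nv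 (.thr 16 32 (.thr 26 31 (.thr 2 62 (.thr 3 1 (.dbl 18 30 33))))) (.rp 62 (.thr 16 32 (.thr 26 31 (.thr 18 30 (.thr 3 33 (.thr 1 2 (.dbl 41 60 61)))))) (.rp 18 (.thr 16 32 (.thr 62 2 (.thr 26 31 (.thr 58 10 (.thr 50 54 (.thr 51 49 (.thr 34 17 (.dbl 38 14 46)))))))) (.rp 16 (.thr 2 62 (.thr 3 1 (.thr 18 33 (.thr 26 30 (.thr 10 58 (.thr 50 34 (.dbl 14 6 38))))))) (.rp 3 (.thr 16 32 (.thr 2 62 (.thr 26 31 (.thr 18 30 (.thr 34 50 (.dbl 17 19 51)))))) (.rp 2 (.thr 16 32 (.thr 26 31 (.thr 18 30 (.thr 17 19 (.thr 51 34 (.thr 49 50 (.dbl 33 1 3))))))) .nd))))))))) (.rp 3 (.thr 62 2 (.thr 23 20 (.str 26 (.nv (.thr 31 16 (.thr 19 27 (.thr 28 25 (.dbl 30 18 29)))) (.nv (.thr 58 10 (.thr 30 18 (.thr 50 54 (.dbl 14 38 46)))) (.rp 30 (.thr 58 10 (.thr 50 54 (.thr 16 31 (.thr 48 32 (.thr 51 49 (.thr 34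 17 (.dbl 38 14 46))))))) (.rp 18 (.thr 58 10 (.thr 50 54 (.thr 14 38 (.thr 30 46 (.thr 31 16 (.thr 19 27 (.dbl 28 25 29))))))) (.rp 15 (.str 11 (.nv (.thr 30 18 (.thr 58 10 (.thr 50 54 (.dbl 14 38 46)))) (.nv (.thr 31 16 (.thr 41 56 (.thr 43 40 (.dbl 27 19 59)))) (.rp 31 (.str 47 (.nv (.thr 30 18 (.thr 14 46 (.thr 41 56 (.thr 43 40 (.thr 35 39 (.dbl 38 44 50)))))) (.nv (.thr 41 56 (.thr 43 40 (.thr 59 27 (.thr 8 25 (.dbl 10 9 58))))) (.nv (.thr 58 10 (.thr 50 54 (.thr 30 18 (.dbl 14 38 46)))) .nd)))) .nd)))) (.rp 11 (.str 15 (.nv (.dbl 10 5 58) (.rp 58 (.thr 30 18 (.thr 31 16 (.thr 19 27 (.dbl 28 25 29)))) (.rp 10 (.thr 30 18 (.thr 31 16 (.thr 19 27 (.dbl 28 25 29)))) (.rp 5 (.thr 30 18 (.thr 31 16 (.thr 19 27 (.dbl 28 25 29)))) .nd))))) .nd))))))))) (.rp 2 (.str 28 (.nv (.thr 25 19 (.thr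 8 59 (.thr 12 4 (.thr 17 29 (.dbl 51 34 38))))) (.nv (.thr 20 23 (.thr 60 40 (.thr 12 44 (.thr 4 8 (.thr 24 16 (.dbl 36 48 52)))))) (.nv (.thr 19 25 (.thr 23 20 (.thr 31 27 (.thr 26 16 (.dbl 30 18 29))))) .nd)))) (.rp 1 (.str 28 (.nv (.thr 20 23 (.thr 16 24 (.thr 19 25 (.thr 18 17 (.dbl 26 30 31))))) (.nv (.thr 20 23 (.thr 60 40 (.thr 12 44 (.thr 4 8 (.thr 24 16 (.dbl 36 48 52)))))) (.nv (.thr 25 19 (.thr 17 29 (.thr 8 59 (.thr 51 34 (.dbl 12 4 38))))) .nd)))) .nd))))))))))))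

theorem w294 : WinAt (4398048608257, 9223372174293729408) :=
  chF (K := []) kn c294 4398048608257 9223372174293729408 63
    [4503737070518400] (by decide +kernel) (by decide +kernel)

/-- A certificate. -/
noncomputable def c295 : Ct := (.str 3 (.nv (.thr 2 1 (.thr 22 62 (.thr 60 41 (.dbl 20 23 40)))) (.nv (.thr 1 2 (.thr 41 61 (.thr 40 43 (.dbl 60 20 22)))) (.rp 62 (.thr 1 2 (.thr 41 61 (.thr 60 22 (.dbl 40 20 43)))) (.rp 60 (.thr 2 1 (.str 6 (.nv (.thr 10 14 (.thr 26 58 (.thr 16 31 (.thr 48 32 (.thr 18 33 (.dbl 22 30 62)))))) (.nv (.thr 10 14 (.thr 15 5 (.thr 26 58 (.thr 48 37 (.thr 18 33 (.dbl 22 30 62)))))) (.nv (.thr 10 14 (.thr 26 58 (.thr 16 31 (.thr 48 32 (.dbl 15 5 37))))) (.rp 62 (.str 61 (.nv (.thr 12 9 (.thr 8 4 (.thr 14 10 (.thr 25 59 (.thr 29 17 (.dbl 13 15 45)))))) (.nv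 (.thr 10 14 (.thr 26 58 (.thr 16 31 (.thr 48 32 (.dbl 15 5 37))))) (.rp 15 (.thr 12 9 (.thr 8 4 (.thr 10 14 (.thr 25 59 (.thr 26 58 (.thr 24 27 (.thr 48 36 (.dbl 16 31 32)))))))) (.rp 14 (.thr 12 9 (.thr 8 4 (.thr 25 59 (.thr 17 29 (.thr 51 34 (.thr 19 35 (.thr 28 22 (.thr 16 18 (.thr 24 20 (.dbl 48 32 36)))))))))) (.rp 10 (.thr 12 9 (.thr 8 4 (.thr 25 59 (.thr 17 29 (.thr 51 34 (.thr 19 35 (.thr 28 22 (.thr 16 18 (.thr 24 20 (.dbl 48 32 36)))))))))) (.rp 5 (.thr 14 10 (.thr 12 9 (.thr 13 15 (.thr 8 4 (.thr 25 59 (.dbl 29 17 45)))))) .nd))))))) (.rp 61 (.thr 62 22 (.thr 10 14 (.thr 15 5 (.thr 26 58 (.thr 16 31 (.dbl 48 32 37)))))) (.rp 58 (.thr 12 9 (.thr 8 4 (.thr 25 59 (.thr 17 29 (.thr 51 34 (.thr 19 35 (.dbl 22 28 62))))))) (.rp 48 (.thr 12 9 (.thr 8 4 (.thr 25 59 (.thr 17 29 (.thr 51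 34 (.thr 19 35 (.dbl 22 28 62))))))) (.rp 26 (.thr 12 9 (.thr 8 4 (.thr 25 59 (.thr 17 29 (.thr 51 34 (.thr 19 35 (.dbl 22 28 62))))))) (.rp 15 (.thr 12 9 (.thr 8 4 (.thr 25 59 (.thr 17 29 (.thr 51 34 (.thr 19 35 (.dbl 22 28 62))))))) (.rp 14 (.thr 12 9 (.thr 8 4 (.thr 25 59 (.thr 17 29 (.thr 51 34 (.thr 19 35 (.dbl 22 28 62))))))) (.rp 10 (.thr 12 9 (.thr 8 4 (.thr 25 59 (.thr 17 29 (.thr 51 34 (.thr 19 35 (.dbl 22 28 62))))))) .nd))))))))))))) (.rp 41 (.thr 2 1 (.str 34 (.nv (.thr 18 50 (.thr 22 62 (.thr 26 30 (.thr 16 31 (.dbl 48 32 33))))) (.nv (.thr 17 51 (.thr 22 62 (.thr 25 29 (.thr 19 28 (.dbl 18 16 50))))) (.nv (.thr 51 17 (.thr 35 19 (.thr 33 32 (.dbl 18 48 50)))) (.rp 50 (.thr 17 51 (.thr 22 62 (.thr 23 20 (.thr 25 29 (.thr 19 28 (.thr 16 18 (.dbl 31 26 27))))))) (.rp 44 (.str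 35 (.nv (.thr 18 50 (.dbl 33 32 48)) (.nv (.dbl 51 17 19) .nd))) (.rp 35 (.str 44 (.nv (.thr 18 50 (.thr 22 62 (.thr 26 30 (.thr 16 31 (.dbl 48 32 33))))) (.nv (.thr 17 51 (.thr 22 62 (.thr 20 23 (.thr 25 29 (.thr 28 19 (.dbl 60 12 40)))))) (.nv (.thr 18 50 (.thr 48 33 (.thr 16 32 (.dbl 17 19 51)))) .nd)))) (.rp 18 (.thr 17 51 (.thr 22 62 (.thr 20 23 (.thr 25 29 (.thr 60 40 (.thr 28 19 (.thr 16 24 (.thr 32 48 (.thr 35 33 (.thr 12 44 (.dbl 8 4 59))))))))))) (.rp 16 (.thr 18 50 (.thr 33 48 (.thr 35 32 (.dbl 51 17 19)))) .nd)))))))))) (.rp 40 (.str 15 (.nv (.thr 1 2 (.thr 5 10 (.thr 41 61 (.thr 60 22 (.thr 45 30 (.dbl 37 33 53)))))) (.nv (.thr 5 10 (.thr 37 53 (.thr 32 47 (.dbl 48 16 26)))) (.rp 53 (.thr 10 5 (.thr 26 58 (.thr 48 37 (.dbl 16 31 32)))) (.rp 37 (.thr 10 5 (.thr 2 1 (.thr 22 62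 (.thr 26 58 (.thr 30 18 (.dbl 60 41 45)))))) (.rp 26 (.thr 5 10 (.thr 1 2 (.thr 41 61 (.thr 37 53 (.thr 45 33 (.dbl 60 22 30)))))) (.rp 10 (.thr 1 2 (.thr 41 61 (.thr 60 22 (.thr 45 30 (.thr 37 33 (.thr 32 47 (.dbl 48 16 26))))))) (.rp 5 (.thr 1 2 (.thr 41 61 (.thr 60 22 (.thr 45 30 (.thr 37 33 (.thr 32 47 (.dbl 48 16 26))))))) .nd)))))))) (.rp 22 (.str 37 (.nv (.thr 1 2 (.thr 32 47 (.thr 41 61 (.thr 33 45 (.dbl 48 16 18))))) (.nv (.thr 1 2 (.thr 41 61 (.thr 33 45 (.thr 49 17 (.thr 13 25 (.dbl 5 9 53)))))) (.nv (.thr 5 53 (.thr 15 10 (.thr 32 47 (.dbl 48 16 26)))) (.rp 54 (.str 6 (.nv (.thr 5 53 (.thr 15 10 (.thr 32 47 (.dbl 48 16 26)))) (.nv (.thr 1 2 (.thr 32 47 (.thr 41 61 (.thr 33 45 (.dbl 48 16 18))))) (.nv (.thr 2 1 (.thr 10 14 (.dbl 5 15 53))) (.rp 15 (.thr 9 12 (.thr 1 2 (.dbl 5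 13 53))) .nd))))) (.rp 6 (.str 54 (.nv (.thr 32 47 (.thr 48 16 (.thr 33 18 (.thr 41 45 (.dbl 1 2 61))))) (.nv (.thr 1 2 (.thr 41 61 (.thr 33 45 (.thr 49 17 (.thr 13 25 (.dbl 5 9 53)))))) (.nv (.thr 5 53 (.thr 32 47 (.thr 48 16 (.dbl 15 10 26)))) (.rp 5 (.str 4 (.nv (.thr 1 2 (.thr 32 47 (.thr 41 61 (.thr 33 45 (.dbl 48 16 18))))) (.nv (.thr 1 2 (.thr 8 12 (.thr 25 59 (.thr 13 49 (.thr 29 17 (.dbl 61 41 45)))))) (.nv (.thr 32 47 (.thr 48 16 (.thr 12 8 (.thr 36 24 (.thr 20 52 (.dbl 40 44 60)))))) .nd)))) .nd))))) .nd)))))) (.rp 20 (.str 51 (.nv (.thr 2 1 (.thr 17 34 (.thr 19 35 (.thr 22 62 (.dbl 25 28 29))))) (.nv (.thr 1 2 (.thr 17 34 (.thr 25 29 (.thr 41 61 (.thr 57 9 (.dbl 60 22 54)))))) (.nv (.thr 35 19 (.thr 34 17 (.thr 2 1 (.thr 33 32 (.dbl 18 48 50))))) (.rp 34 (.thr 35 19 (.thr 1 2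 (.thr 41 61 (.thr 43 40 (.thr 47 39 (.thr 37 32 (.thr 33 45 (.thr 49 17 (.dbl 48 18 50))))))))) (.rp 17 (.thr 35 19 (.thr 1 2 (.thr 41 61 (.thr 43 40 (.thr 39 47 (.thr 15 27 (.thr 5 10 (.thr 37 53 (.thr 48 26 (.dbl 33 18 45)))))))))) (.rp 2 (.thr 35 19 (.thr 34 17 (.thr 32 33 (.thr 37 47 (.thr 5 53 (.thr 15 10 (.dbl 48 16 26))))))) (.rp 1 (.thr 19 35 (.thr 17 34 (.thr 16 18 (.thr 26 31 (.thr 10 58 (.thr 15 5 (.dbl 48 32 37))))))) .nd)))))))) (.rp 2 (.str 16 (.nv (.thr 26 31 (.thr 48 32 (.thr 18 33 (.thr 22 30 (.thr 20 23 (.dbl 60 40 41)))))) (.nv (.thr 48 32 (.thr 26 31 (.thr 10 58 (.dbl 15 5 37)))) (.rp 48 (.str 51 (.nv (.thr 17 34 (.dbl 19 18 35)) (.rp 58 (.str 53 (.nv (.thr 34 17 (.thr 35 19 (.thr 32 33 (.dbl 37 5 47)))) (.nv (.thr 17 34 (.dbl 19 18 35)) (.rp 35 (.thr 17 34 (.thr 37 5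 (.thr 25 29 (.thr 49 13 (.thr 61 57 (.dbl 1 33 41)))))) (.rp 34 (.thr 19 35 (.thr 5 37 (.thr 31 26 (.thr 15 10 (.dbl 27 23 39))))) (.rp 19 (.thr 17 34 (.thr 37 5 (.thr 25 29 (.thr 49 13 (.thr 1 33 (.dbl 61 41 57)))))) (.rp 17 (.thr 19 35 (.thr 5 37 (.thr 31 26 (.thr 15 10 (.dbl 27 23 39))))) .nd))))))) (.rp 53 (.str 58 (.nv (.thr 17 34 (.dbl 19 18 35)) (.nv (.dbl 26 10 31) .nd))) (.rp 50 (.thr 19 35 (.dbl 17 18 34)) (.rp 35 (.thr 17 34 (.thr 26 31 (.thr 25 29 (.thr 27 24 (.thr 15 39 (.dbl 10 5 58)))))) (.rp 34 (.thr 19 35 (.thr 18 17 (.thr 26 31 (.thr 22 30 (.thr 20 23 (.dbl 60 40 41)))))) (.rp 19 (.thr 17 34 (.thr 26 31 (.thr 25 29 (.thr 27 24 (.thr 15 39 (.dbl 10 5 58)))))) (.rp 18 (.thr 19 35 (.thr 31 26 (.thr 23 27 (.thr 22 20 (.thr 25 28 (.dbl 17 29 34)))))) (.rp 17 (.thr 19 35 (.thr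 31 26 (.thr 23 27 (.thr 22 20 (.thr 41 60 (.thr 25 28 (.thr 9 57 (.thr 8 59 (.dbl 12 4 6))))))))) .nd)))))))))) (.rp 47 (.thr 48 32 (.thr 26 31 (.thr 15 37 (.dbl 10 5 58)))) (.rp 32 (.thr 26 31 (.thr 10 58 (.thr 15 5 (.thr 48 37 (.thr 18 33 (.thr 22 30 (.thr 20 23 (.dbl 60 40 41)))))))) (.rp 31 (.thr 48 32 (.thr 18 33 (.thr 17 19 (.thr 25 29 (.thr 8 59 (.thr 12 4 (.thr 24 36 (.thr 40 56 (.dbl 20 28 60))))))))) (.rp 26 (.thr 48 32 (.thr 18 33 (.thr 17 19 (.thr 25 29 (.thr 8 59 (.thr 12 4 (.thr 24 36 (.thr 40 56 (.dbl 20 28 60))))))))) (.rp 15 (.thr 48 32 (.thr 18 33 (.thr 17 19 (.thr 25 29 (.thr 8 59 (.thr 12 4 (.thr 24 36 (.dbl 26 27 31)))))))) .nd))))))))) (.rp 1 (.str 16 (.nv (.thr 26 31 (.thr 48 32 (.thr 18 33 (.thr 22 30 (.thr 20 23 (.dbl 60 40 41)))))) (.nv (.thr 48 32 (.thr 26 31 (.thr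 10 58 (.dbl 15 5 37)))) (.rp 48 (.str 51 (.nv (.thr 17 34 (.dbl 19 18 35)) (.rp 58 (.str 53 (.nv (.thr 17 34 (.dbl 19 18 35)) (.rp 35 (.thr 17 34 (.thr 19 18 (.thr 5 37 (.thr 31 26 (.thr 15 10 (.dbl 27 23 39)))))) (.rp 34 (.thr 19 35 (.thr 5 37 (.thr 31 26 (.thr 15 10 (.dbl 27 23 39))))) (.rp 19 (.thr 17 34 (.thr 5 37 (.thr 26 31 (.thr 25 29 (.thr 27 24 (.dbl 15 10 39)))))) (.rp 18 (.thr 35 19 (.thr 34 17 (.thr 37 5 (.dbl 32 33 47)))) (.rp 17 (.thr 19 35 (.thr 5 37 (.thr 31 26 (.thr 15 10 (.dbl 27 23 39))))) .nd))))))) (.rp 53 (.str 58 (.nv (.thr 17 34 (.dbl 19 18 35)) (.nv (.dbl 26 10 31) .nd))) (.rp 35 (.thr 17 34 (.thr 19 18 (.thr 26 31 (.thr 25 29 (.thr 24 27 (.dbl 28 20 22)))))) (.rp 34 (.thr 19 35 (.thr 17 18 (.thr 26 31 (.thr 25 29 (.thr 24 27 (.dbl 28 20 22)))))) (.rp 19 (.thr 17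 34 (.thr 26 31 (.thr 25 29 (.thr 27 24 (.thr 15 39 (.dbl 10 5 58)))))) (.rp 18 (.thr 19 35 (.thr 17 34 (.thr 26 31 (.thr 25 29 (.thr 24 27 (.dbl 28 20 22)))))) (.rp 17 (.thr 19 35 (.thr 31 26 (.thr 23 27 (.thr 22 20 (.thr 41 60 (.thr 25 28 (.thr 9 57 (.thr 8 59 (.dbl 12 4 6))))))))) .nd))))))))) (.rp 47 (.thr 48 32 (.thr 26 31 (.thr 15 37 (.dbl 10 5 58)))) (.rp 32 (.thr 26 31 (.thr 10 58 (.thr 15 5 (.thr 48 37 (.thr 18 33 (.thr 22 30 (.thr 20 23 (.dbl 60 40 41)))))))) (.rp 31 (.thr 48 32 (.thr 18 33 (.thr 17 19 (.thr 34 51 (.thr 2 50 (.thr 22 62 (.thr 60 41 (.dbl 20 23 40)))))))) (.rp 26 (.thr 48 32 (.thr 18 33 (.thr 17 19 (.thr 25 29 (.thr 8 59 (.thr 12 4 (.thr 24 36 (.thr 40 56 (.dbl 20 28 60))))))))) (.rp 15 (.thr 48 32 (.thr 18 33 (.thr 17 19 (.thr 34 51 (.thr 2 50 (.thr 22 62 (.dbl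 26 30 31))))))) .nd))))))))) .nd)))))))))))

theorem w295 : WinAt (4398048608257, 9223372311732682880) :=
  chF (K := []) kn c295 4398048608257 9223372311732682880 63
    [] (by decide +kernel) (by decide +kernel)

/-- A certificate. -/
noncomputable def c296 : Ct := (.str 60 (.nv (.thr 61 62 (.thr 41 1 (.thr 3 22 (.dbl 43 23 40)))) (.nv (.thr 62 61 (.thr 22 2 (.thr 3 41 (.dbl 23 20 43)))) (.rp 62 (.str 58 (.nv (.thr 26 10 (.thr 48 53 (.thr 56 52 (.thr 41 11 (.thr 43 40 (.dbl 3 22 23)))))) (.nv (.thr 48 53 (.thr 26 10 (.thr 31 16 (.dbl 15 37 47)))) (.rp 55 (.str 23 (.nv (.thr 26 10 (.thr 31 16 (.thr 48 53 (.dbl 15 37 47)))) (.nv (.thr 22 20 (.dbl 3 41 43)) .nd))) (.rp 53 (.thr 26 10 (.thr 31 16 (.thr 15 47 (.thr 30 45 (.thr 22 18 (.thr 23 20 (.dbl 3 41 43))))))) (.rp 48 (.str 23 (.nv (.thr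 22 20 (.dbl 3 41 43)) (.rp 43 (.thr 22 20 (.thr 26 10 (.thr 30 18 (.thr 15 45 (.dbl 31 16 47))))) (.rp 41 (.thr 22 20 (.thr 26 10 (.thr 30 18 (.thr 15 45 (.dbl 31 16 47))))) (.rp 32 (.str 16 (.nv (.thr 3 43 (.dbl 22 20 41)) (.nv (.dbl 26 10 31) .nd))) (.rp 22 (.thr 43 3 (.thr 41 40 (.thr 26 10 (.thr 11 56 (.thr 27 59 (.dbl 31 16 19)))))) (.rp 20 (.thr 43 3 (.thr 41 40 (.thr 26 10 (.thr 11 56 (.thr 27 59 (.dbl 31 16 19)))))) (.rp 16 (.str 32 (.nv (.thr 3 43 (.dbl 22 20 41)) (.nv (.thr 22 20 (.dbl 3 41 43)) (.rp 43 (.thr 22 20 (.thr 47 37 (.thr 26 10 (.thr 30 18 (.dbl 15 31 45))))) (.rp 41 (.thr 22 20 (.thr 47 37 (.thr 26 10 (.thr 30 18 (.dbl 15 31 45))))) (.rp 22 (.thr 43 3 (.thr 40 41 (.thr 44 36 (.thr 12 28 (.thr 46 29 (.dbl 47 37 45)))))) (.rp 20 (.thr 47 37 (.thr 43 3 (.thr 40 41 (.thr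 15 31 (.thr 45 30 (.dbl 44 36 46)))))) (.rp 3 (.thr 22 20 (.thr 47 37 (.thr 26 10 (.thr 15 31 (.dbl 30 18 45))))) .nd)))))))) (.rp 3 (.thr 20 22 (.thr 26 10 (.thr 16 31 (.thr 24 28 (.thr 25 27 (.thr 59 8 (.thr 57 56 (.dbl 51 54 55)))))))) .nd))))))))) (.rp 37 (.thr 26 10 (.thr 31 16 (.thr 15 47 (.thr 30 45 (.thr 22 18 (.thr 23 20 (.dbl 3 41 43))))))) (.rp 26 (.thr 48 53 (.thr 56 52 (.thr 59 57 (.thr 25 8 (.thr 29 17 (.thr 12 46 (.dbl 51 38 55))))))) (.rp 23 (.str 55 (.nv (.thr 38 4 (.thr 46 34 (.thr 12 29 (.dbl 51 25 59)))) (.nv (.thr 26 10 (.thr 31 16 (.thr 15 47 (.dbl 48 37 53)))) (.nv (.thr 51 59 (.thr 54 57 (.dbl 53 48 52))) .nd)))) (.rp 15 (.thr 48 53 (.thr 56 52 (.thr 59 57 (.thr 25 8 (.thr 29 17 (.thr 12 46 (.dbl 51 38 55))))))) (.rp 10 (.thr 48 53 (.thr 56 52 (.thr 59 57 (.thr 25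 8 (.thr 29 17 (.thr 12 46 (.dbl 51 38 55))))))) (.rp 5 (.thr 48 53 (.thr 26 10 (.thr 15 37 (.dbl 31 16 47)))) .nd)))))))))))) (.rp 61 (.str 51 (.nv (.thr 55 59 (.thr 38 4 (.thr 12 25 (.dbl 46 29 34)))) (.rp 59 (.str 55 (.nv (.thr 38 4 (.thr 12 25 (.dbl 46 29 34))) (.rp 46 (.thr 54 57 (.thr 53 52 (.thr 58 48 (.thr 50 62 (.thr 38 4 (.dbl 26 10 14)))))) (.rp 38 (.thr 54 57 (.thr 53 52 (.thr 37 5 (.thr 47 32 (.thr 15 31 (.dbl 48 26 58)))))) (.rp 34 (.thr 54 57 (.thr 53 52 (.thr 58 48 (.thr 50 62 (.thr 38 4 (.dbl 26 10 14)))))) (.rp 29 (.thr 54 57 (.thr 53 52 (.thr 58 48 (.thr 50 62 (.thr 38 4 (.dbl 26 10 14)))))) (.rp 25 (.thr 54 57 (.thr 53 52 (.thr 58 48 (.thr 50 62 (.thr 38 4 (.dbl 26 10 14)))))) (.rp 12 (.thr 54 57 (.thr 53 52 (.thr 58 48 (.thr 50 62 (.thr 26 10 (.dbl 38 4 14)))))) (.rp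 6 (.thr 54 57 (.thr 53 52 (.thr 58 48 (.thr 50 62 (.thr 26 10 (.dbl 38 4 14)))))) (.rp 5 (.thr 54 57 (.thr 38 4 (.thr 6 22 (.thr 46 34 (.dbl 12 25 29))))) (.rp 4 (.thr 54 57 (.thr 53 52 (.thr 58 48 (.thr 62 50 (.thr 22 2 (.thr 3 41 (.dbl 23 20 43))))))) .nd))))))))))) (.rp 55 (.str 23 (.nv (.thr 22 20 (.dbl 3 41 43)) (.rp 43 (.thr 54 57 (.thr 22 20 (.thr 38 6 (.thr 46 34 (.dbl 12 25 29))))) (.rp 41 (.thr 54 57 (.thr 22 20 (.thr 38 6 (.thr 46 34 (.dbl 12 25 29))))) (.rp 22 (.thr 57 54 (.thr 43 3 (.thr 41 40 (.thr 25 9 (.thr 29 17 (.dbl 12 38 46)))))) (.rp 20 (.thr 57 54 (.thr 43 3 (.thr 41 40 (.thr 25 9 (.thr 29 17 (.dbl 12 38 46)))))) (.rp 3 (.thr 54 57 (.thr 22 20 (.thr 38 6 (.thr 46 34 (.dbl 12 25 29))))) .nd))))))) (.rp 46 (.thr 54 57 (.thr 55 59 (.thr 53 52 (.thr 58 48 (.thr 50 62 (.thr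 38 4 (.dbl 26 10 14))))))) (.rp 38 (.thr 54 57 (.thr 55 59 (.thr 53 52 (.thr 37 5 (.thr 47 32 (.thr 15 31 (.dbl 48 26 58))))))) (.rp 34 (.thr 54 57 (.thr 55 59 (.thr 53 52 (.thr 58 48 (.thr 50 62 (.thr 38 4 (.dbl 26 10 14))))))) (.rp 29 (.thr 54 57 (.thr 55 59 (.thr 53 52 (.thr 58 48 (.thr 50 62 (.thr 38 4 (.dbl 26 10 14))))))) (.rp 25 (.thr 54 57 (.thr 55 59 (.thr 53 52 (.thr 58 48 (.thr 50 62 (.thr 38 4 (.dbl 26 10 14))))))) (.rp 12 (.thr 54 57 (.thr 55 59 (.thr 53 52 (.thr 58 48 (.thr 50 62 (.thr 26 10 (.dbl 38 4 14))))))) (.rp 6 (.thr 54 57 (.thr 55 59 (.thr 53 52 (.thr 58 48 (.thr 50 62 (.thr 26 10 (.dbl 38 4 14))))))) (.rp 5 (.thr 54 57 (.thr 55 59 (.thr 38 4 (.thr 6 22 (.thr 46 34 (.dbl 12 25 29)))))) (.rp 4 (.thr 54 57 (.thr 55 59 (.thr 53 52 (.thr 58 48 (.thr 62 50 (.thr 22 2 (.thr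 3 41 (.dbl 23 20 43)))))))) .nd))))))))))))) (.rp 55 (.str 23 (.nv (.thr 43 3 (.thr 41 40 (.dbl 61 1 62))) (.nv (.thr 22 20 (.dbl 3 41 43)) (.nv (.thr 62 61 (.dbl 22 2 20)) .nd)))) (.rp 43 (.thr 62 61 (.thr 22 2 (.thr 23 20 (.thr 3 41 (.str 15 (.nv (.thr 30 45 (.thr 46 14 (.thr 38 34 (.thr 6 54 (.dbl 12 9 29))))) (.nv (.thr 47 31 (.thr 37 32 (.thr 48 26 (.dbl 53 5 58)))) (.rp 47 (.str 35 (.nv (.thr 19 51 (.thr 31 27 (.thr 26 16 (.dbl 30 18 45)))) (.nv (.thr 30 45 (.thr 26 18 (.thr 58 10 (.dbl 48 37 53)))) (.nv (.thr 51 19 (.thr 59 55 (.thr 25 8 (.thr 12 38 (.dbl 29 17 46))))) .nd)))) (.rp 37 (.thr 47 31 (.thr 45 30 (.thr 46 44 (.thr 38 34 (.thr 6 54 (.dbl 12 9 29)))))) .nd))))))))) (.rp 41 (.str 55 (.nv (.thr 51 59 (.thr 54 57 (.thr 53 52 (.thr 58 48 (.dbl 62 50 61))))) (.nv (.thr 51 59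 (.thr 38 4 (.thr 46 34 (.dbl 12 25 29)))) (.rp 59 (.thr 62 61 (.thr 22 2 (.thr 38 4 (.thr 46 34 (.thr 12 29 (.thr 51 25 (.dbl 54 6 57))))))) (.rp 51 (.thr 62 61 (.thr 2 22 (.thr 38 4 (.thr 34 46 (.thr 50 18 (.thr 58 54 (.dbl 26 10 14))))))) (.rp 25 (.thr 51 59 (.thr 62 61 (.thr 22 2 (.thr 38 4 (.dbl 54 6 57))))) .nd)))))) (.rp 23 (.str 55 (.nv (.thr 38 4 (.thr 61 62 (.thr 41 1 (.thr 44 35 (.thr 12 28 (.dbl 46 29 34)))))) (.nv (.thr 51 59 (.thr 54 57 (.thr 53 52 (.thr 58 48 (.dbl 62 50 61))))) (.nv (.thr 51 59 (.thr 38 4 (.thr 12 25 (.dbl 46 29 34)))) .nd)))) (.rp 22 (.thr 61 62 (.thr 1 41 (.str 37 (.nv (.thr 47 32 (.thr 15 31 (.thr 45 30 (.thr 29 13 (.dbl 46 12 44))))) (.nv (.thr 47 32 (.thr 53 5 (.thr 15 31 (.dbl 48 26 58)))) (.nv (.thr 5 53 (.thr 13 9 (.thr 25 49 (.dbl 29 17 45)))) (.rp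 55 (.str 23 (.nv (.thr 47 32 (.thr 15 31 (.thr 45 30 (.thr 29 13 (.dbl 46 12 44))))) (.nv (.thr 47 32 (.thr 53 5 (.thr 15 31 (.dbl 48 26 58)))) (.nv (.thr 5 53 (.thr 13 9 (.thr 25 49 (.dbl 29 17 45)))) .nd)))) (.rp 23 (.str 55 (.nv (.thr 59 51 (.thr 25 8 (.thr 13 49 (.dbl 29 17 45)))) (.nv (.thr 53 5 (.thr 52 54 (.dbl 48 56 58))) (.nv (.thr 5 53 (.thr 13 9 (.thr 25 49 (.dbl 29 17 45)))) .nd)))) .nd)))))))) (.rp 3 (.thr 61 62 (.thr 1 41 (.str 15 (.nv (.thr 31 47 (.thr 26 16 (.thr 58 10 (.dbl 48 37 53)))) (.nv (.thr 45 30 (.thr 29 13 (.thr 47 31 (.dbl 46 12 44)))) (.rp 55 (.str 23 (.nv (.thr 31 47 (.thr 26 16 (.thr 58 10 (.dbl 48 37 53)))) (.nv (.thr 22 20 (.thr 30 45 (.thr 26 18 (.thr 58 10 (.dbl 48 37 53))))) (.nv (.thr 45 30 (.thr 29 13 (.thr 47 31 (.dbl 46 12 44)))) .nd)))) (.rp 47 (.thr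 45 30 (.thr 13 29 (.thr 5 9 (.thr 53 37 (.thr 57 49 (.thr 58 48 (.thr 59 56 (.dbl 51 54 55)))))))) (.rp 31 (.thr 45 30 (.thr 29 13 (.thr 46 12 (.thr 47 44 (.thr 37 32 (.thr 48 26 (.dbl 53 5 58))))))) (.rp 23 (.str 55 (.nv (.thr 31 47 (.thr 26 16 (.thr 58 10 (.dbl 48 37 53)))) (.nv (.thr 51 59 (.thr 38 4 (.thr 46 34 (.dbl 12 25 29)))) .nd))) .nd))))))))) .nd)))))))))))

theorem w296 : WinAt (9223376434903384064, 549755814017) :=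
  chF (K := []) kn c296 9223376434903384064 549755814017 0
    [36029346783166592] (by decide +kernel) (by decide +kernel)

/-- A certificate. -/
noncomputable def c297 : Ct := (.str 51 (.nv (.thr 34 17 (.thr 38 46 (.thr 12 25 (.dbl 4 8 55)))) (.nv (.thr 17 34 (.thr 25 29 (.thr 12 38 (.dbl 8 4 59)))) (.rp 38 (.str 49 (.nv (.thr 17 34 (.thr 1 33 (.thr 25 29 (.thr 41 61 (.thr 57 9 (.thr 60 54 (.dbl 3 2 22))))))) (.nv (.thr 48 50 (.thr 32 16 (.thr 37 47 (.thr 5 53 (.dbl 15 10 26))))) (.rp 32 (.thr 48 50 (.thr 17 34 (.thr 25 29 (.thr 37 13 (.thr 5 53 (.dbl 15 10 26)))))) .nd)))) (.rp 34 (.str 26 (.nv (.thr 10 58 (.thr 15 5 (.thr 27 39 (.thr 25 24 (.thr 8 59 (.dbl 12 4 38)))))) (.nv (.thr 16 31 (.thr 48 32 (.thr 50 49 (.thr 38 14 (.thr 4 55 (.dbl 12 8 25)))))) (.nv (.thr 10 58 (.thr 16 31 (.thr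 15 5 (.dbl 48 32 37)))) (.rp 48 (.str 50 (.nv (.thr 58 10 (.thr 14 38 (.thr 62 54 (.thr 22 2 (.dbl 30 18 46))))) (.nv (.thr 38 14 (.thr 12 25 (.dbl 4 8 55))) (.rp 58 (.str 53 (.nv (.thr 5 37 (.thr 15 10 (.thr 38 14 (.thr 25 12 (.dbl 27 24 39))))) (.nv (.thr 38 14 (.thr 12 25 (.dbl 4 8 55))) (.rp 38 (.str 49 (.nv (.thr 16 31 (.thr 61 57 (.thr 1 41 (.thr 3 2 (.thr 17 33 (.dbl 19 18 35)))))) (.nv (.thr 16 31 (.thr 37 5 (.thr 25 13 (.thr 24 27 (.thr 28 20 (.thr 19 22 (.dbl 17 18 29))))))) (.nv (.thr 37 5 (.thr 13 25 (.thr 61 57 (.thr 41 1 (.dbl 45 29 33))))) (.rp 37 (.thr 61 57 (.thr 1 41 (.thr 2 3 (.thr 22 62 (.thr 16 31 (.thr 18 30 (.dbl 17 19 33))))))) (.rp 25 (.thr 5 37 (.thr 57 61 (.thr 60 54 (.thr 15 10 (.thr 30 45 (.thr 22 18 (.thr 2 62 (.dbl 3 1 41)))))))) (.rp 1 (.thr 37 5 (.thr 57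 61 (.thr 16 31 (.thr 25 13 (.thr 9 41 (.thr 24 27 (.thr 28 20 (.thr 19 22 (.dbl 17 18 29))))))))) .nd))))))) (.rp 25 (.thr 5 37 (.thr 38 14 (.thr 55 4 (.thr 54 52 (.thr 22 6 (.thr 2 62 (.thr 3 1 (.dbl 60 41 57)))))))) (.rp 14 (.thr 5 37 (.thr 15 10 (.thr 27 39 (.thr 25 24 (.thr 8 59 (.dbl 12 4 38)))))) (.rp 12 (.thr 5 37 (.thr 38 14 (.thr 55 4 (.thr 54 52 (.thr 22 6 (.thr 2 62 (.thr 3 1 (.dbl 60 41 57)))))))) .nd))))))) (.rp 38 (.thr 58 10 (.thr 62 54 (.thr 22 2 (.thr 23 20 (.thr 31 16 (.thr 19 27 (.thr 30 18 (.dbl 28 25 29)))))))) (.rp 14 (.thr 58 10 (.thr 62 54 (.thr 2 22 (.thr 3 1 (.thr 19 35 (.thr 16 31 (.thr 17 18 (.thr 25 29 (.thr 8 59 (.dbl 12 4 38)))))))))) .nd)))))) (.rp 15 (.str 3 (.nv (.thr 2 1 (.thr 10 58 (.thr 6 14 (.thr 12 9 (.thr 4 8 (.dbl 38 25 55)))))) (.nv (.thr 31 16 (.thr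 2 1 (.thr 19 35 (.thr 23 27 (.dbl 22 20 62))))) (.rp 31 (.str 47 (.nv (.thr 2 1 (.thr 10 58 (.thr 6 14 (.thr 12 9 (.thr 4 8 (.dbl 38 25 55)))))) (.nv (.thr 2 1 (.thr 22 62 (.thr 32 37 (.thr 48 16 (.dbl 18 30 33))))) (.rp 48 (.thr 19 35 (.thr 2 1 (.thr 22 62 (.thr 18 30 (.thr 17 16 (.dbl 25 28 29)))))) (.rp 2 (.thr 32 37 (.thr 48 16 (.thr 50 49 (.thr 38 14 (.thr 4 55 (.dbl 12 8 25)))))) (.rp 1 (.thr 32 37 (.thr 48 16 (.thr 50 49 (.thr 38 14 (.thr 4 55 (.dbl 12 8 25)))))) .nd)))))) (.rp 2 (.thr 19 35 (.thr 31 16 (.thr 27 23 (.thr 25 24 (.thr 8 59 (.dbl 12 4 38)))))) (.rp 1 (.thr 19 35 (.thr 31 16 (.thr 27 23 (.thr 25 24 (.thr 8 59 (.dbl 12 4 38)))))) .nd)))))) (.rp 4 (.thr 10 58 (.thr 16 31 (.thr 48 32 (.dbl 15 5 37)))) .nd))))))) (.rp 25 (.str 3 (.nv (.thr 1 2 (.thr 34 17 (.thr 35 19 (.thr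 38 46 (.dbl 41 44 61))))) (.nv (.thr 2 1 (.thr 22 62 (.thr 34 17 (.thr 38 46 (.thr 54 6 (.dbl 60 41 57)))))) (.nv (.thr 19 35 (.thr 17 34 (.thr 1 2 (.thr 18 16 (.dbl 33 48 49))))) (.rp 34 (.thr 35 19 (.thr 1 2 (.thr 41 61 (.thr 38 44 (.thr 4 55 (.thr 12 8 (.thr 6 9 (.dbl 22 54 60)))))))) (.rp 17 (.thr 35 19 (.thr 1 2 (.thr 41 61 (.thr 38 44 (.thr 4 55 (.thr 12 8 (.thr 6 9 (.dbl 22 54 60)))))))) (.rp 2 (.thr 35 19 (.thr 34 17 (.thr 32 33 (.thr 37 47 (.thr 5 53 (.thr 15 10 (.dbl 48 16 26))))))) (.rp 1 (.thr 19 35 (.thr 17 34 (.thr 16 18 (.thr 26 31 (.thr 10 58 (.thr 15 5 (.dbl 48 32 37))))))) .nd)))))))) (.rp 17 (.str 26 (.nv (.thr 16 31 (.thr 48 32 (.thr 50 49 (.thr 38 14 (.thr 4 55 (.dbl 12 8 25)))))) (.nv (.thr 10 58 (.thr 15 5 (.thr 27 39 (.thr 25 24 (.thr 8 59 (.dbl 12 4 38)))))) (.nv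 (.thr 16 31 (.thr 48 32 (.thr 10 58 (.dbl 15 5 37)))) (.rp 48 (.str 50 (.nv (.thr 58 10 (.thr 14 38 (.thr 62 54 (.thr 22 2 (.dbl 30 18 46))))) (.nv (.thr 38 14 (.thr 12 25 (.dbl 4 8 55))) (.rp 58 (.str 53 (.nv (.thr 5 37 (.thr 15 10 (.thr 38 14 (.thr 25 12 (.dbl 27 24 39))))) (.nv (.thr 38 14 (.thr 12 25 (.dbl 4 8 55))) (.rp 38 (.str 49 (.nv (.thr 61 57 (.thr 1 41 (.thr 2 3 (.thr 18 34 (.dbl 22 30 62))))) (.nv (.thr 37 5 (.thr 61 57 (.thr 41 1 (.thr 13 25 (.dbl 45 29 33))))) (.rp 61 (.thr 37 5 (.thr 47 32 (.thr 25 13 (.thr 27 24 (.thr 39 15 (.thr 43 35 (.dbl 59 8 11))))))) (.rp 59 (.thr 37 5 (.thr 57 61 (.thr 60 54 (.thr 25 13 (.thr 27 24 (.thr 15 39 (.thr 45 30 (.dbl 41 9 33)))))))) (.rp 57 (.thr 37 5 (.thr 47 32 (.thr 25 13 (.thr 27 24 (.thr 39 15 (.thr 43 35 (.dbl 59 8 11))))))) (.rp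 56 (.thr 5 37 (.thr 57 61 (.thr 60 54 (.thr 15 10 (.thr 30 45 (.thr 22 18 (.thr 2 62 (.dbl 3 1 41)))))))) (.rp 41 (.thr 37 5 (.thr 31 16 (.thr 47 32 (.thr 25 13 (.thr 27 24 (.thr 19 23 (.thr 39 15 (.dbl 35 3 43)))))))) (.rp 25 (.thr 5 37 (.thr 61 57 (.thr 1 41 (.thr 9 13 (.thr 2 3 (.thr 18 34 (.dbl 22 30 62))))))) (.rp 1 (.thr 37 5 (.thr 57 61 (.thr 60 54 (.thr 16 31 (.thr 25 13 (.thr 9 41 (.thr 24 27 (.thr 8 59 (.thr 28 20 (.dbl 12 4 44)))))))))) .nd)))))))))) (.rp 25 (.thr 5 37 (.thr 10 15 (.thr 14 38 (.thr 2 6 (.thr 18 34 (.dbl 22 30 62)))))) (.rp 14 (.thr 5 37 (.thr 15 10 (.thr 27 39 (.thr 25 24 (.thr 8 59 (.dbl 12 4 38)))))) (.rp 12 (.thr 5 37 (.thr 10 15 (.thr 14 38 (.thr 2 6 (.thr 18 34 (.dbl 22 30 62)))))) .nd))))))) (.rp 38 (.thr 58 10 (.thr 62 54 (.thr 22 2 (.thr 23 20 (.thr 31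 16 (.thr 19 27 (.thr 30 18 (.dbl 28 25 29)))))))) (.rp 14 (.thr 58 10 (.thr 62 54 (.thr 2 22 (.thr 34 18 (.thr 38 46 (.thr 4 55 (.dbl 12 8 25))))))) .nd)))))) (.rp 15 (.str 3 (.nv (.thr 1 2 (.thr 41 61 (.thr 60 22 (.thr 56 11 (.thr 57 54 (.dbl 58 10 59)))))) (.nv (.thr 31 16 (.thr 19 35 (.thr 2 1 (.thr 23 27 (.dbl 22 20 62))))) (.rp 31 (.str 47 (.nv (.thr 1 2 (.thr 37 32 (.thr 41 61 (.thr 45 33 (.thr 44 46 (.dbl 35 19 38)))))) (.nv (.thr 1 2 (.thr 41 61 (.thr 56 11 (.thr 58 10 (.thr 57 59 (.dbl 60 22 54)))))) (.nv (.thr 35 19 (.thr 32 37 (.thr 33 34 (.dbl 48 16 18)))) .nd)))) (.rp 22 (.thr 19 35 (.thr 31 16 (.thr 27 23 (.thr 25 24 (.thr 8 59 (.dbl 12 4 38)))))) (.rp 2 (.thr 19 35 (.thr 31 16 (.thr 27 23 (.thr 25 24 (.thr 8 59 (.dbl 12 4 38)))))) (.rp 1 (.thr 19 35 (.thr 31 16 (.thr 27 23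 (.thr 25 24 (.thr 8 59 (.dbl 12 4 38)))))) .nd))))))) .nd)))))) (.rp 12 (.thr 17 34 (.str 19 (.nv (.thr 3 35 (.thr 2 1 (.thr 22 62 (.dbl 25 28 29)))) (.nv (.thr 16 18 (.thr 31 26 (.thr 23 27 (.thr 22 20 (.dbl 25 28 29))))) (.nv (.thr 3 35 (.thr 1 2 (.thr 18 16 (.dbl 33 48 49)))) (.rp 46 (.thr 29 25 (.thr 3 35 (.thr 18 16 (.thr 33 48 (.dbl 1 2 49))))) (.rp 29 (.str 46 (.nv (.thr 16 18 (.thr 31 26 (.thr 23 27 (.thr 22 20 (.thr 2 62 (.dbl 3 1 35)))))) (.nv (.thr 16 18 (.thr 26 31 (.thr 10 58 (.thr 15 5 (.dbl 48 32 37))))) (.nv (.thr 3 35 (.thr 1 2 (.thr 18 16 (.dbl 33 48 49)))) (.rp 18 (.thr 3 35 (.thr 2 1 (.thr 22 62 (.thr 23 20 (.thr 27 31 (.thr 15 39 (.thr 10 5 (.thr 26 58 (.dbl 25 24 28))))))))) (.rp 16 (.thr 3 35 (.thr 2 1 (.thr 22 62 (.thr 23 20 (.thr 27 31 (.thr 15 39 (.thr 10 5 (.thr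 26 58 (.dbl 25 24 28))))))))) (.rp 2 (.str 22 (.nv (.thr 18 16 (.thr 3 35 (.thr 33 48 (.thr 1 49 (.dbl 41 60 61))))) (.nv (.thr 23 20 (.thr 31 27 (.dbl 16 18 26))) (.rp 18 (.str 50 (.nv (.thr 3 35 (.thr 60 41 (.thr 54 57 (.thr 38 6 (.thr 14 26 (.dbl 62 30 58)))))) (.nv (.thr 23 20 (.thr 48 49 (.thr 31 27 (.dbl 16 26 32)))) (.rp 32 (.thr 23 20 (.thr 48 49 (.thr 31 27 (.thr 26 16 (.thr 15 37 (.dbl 10 5 58)))))) (.rp 26 (.thr 20 23 (.thr 48 49 (.thr 16 32 (.dbl 28 24 25)))) .nd))))) (.rp 16 (.thr 23 20 (.thr 27 31 (.thr 15 39 (.thr 10 5 (.thr 26 58 (.dbl 25 24 28)))))) .nd))))) .nd))))))) (.rp 2 (.thr 3 35 (.thr 18 16 (.thr 33 48 (.thr 1 49 (.thr 41 61 (.thr 60 22 (.thr 57 54 (.dbl 25 9 29)))))))) .nd)))))))) (.rp 8 (.thr 17 34 (.thr 25 29 (.thr 12 38 (.str 24 (.nv (.thr 48 36 (.thr 49 50 (.thr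 37 13 (.thr 5 53 (.dbl 15 10 26))))) (.nv (.thr 26 27 (.thr 16 31 (.thr 19 18 (.dbl 28 20 22)))) (.nv (.thr 26 27 (.thr 48 36 (.dbl 16 31 32))) (.rp 26 (.thr 48 36 (.thr 32 16 (.thr 37 47 (.dbl 49 13 50)))) .nd)))))))) (.rp 4 (.str 5 (.nv (.thr 15 10 (.thr 34 17 (.thr 38 46 (.thr 39 27 (.dbl 37 36 53))))) (.nv (.thr 15 10 (.thr 37 53 (.thr 48 26 (.dbl 32 16 47)))) (.rp 53 (.thr 34 17 (.thr 15 10 (.thr 39 27 (.thr 38 46 (.thr 37 36 (.thr 32 47 (.dbl 48 16 26))))))) (.rp 37 (.thr 34 17 (.thr 10 15 (.thr 26 58 (.thr 38 46 (.thr 50 14 (.thr 48 49 (.dbl 16 31 32))))))) (.rp 15 (.thr 17 34 (.thr 37 53 (.thr 25 29 (.thr 49 13 (.thr 48 50 (.dbl 32 16 47)))))) (.rp 10 (.thr 17 34 (.thr 37 53 (.thr 32 47 (.thr 48 16 (.thr 49 50 (.dbl 25 13 29)))))) .nd))))))) .nd))))))))))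

theorem w297 : WinAt (4398048608257, 9223373136366403712) :=
  chF (K := []) kn c297 4398048608257 9223373136366403712 63
    [] (by decide +kernel) (by decide +kernel)

/-- A certificate. -/
noncomputable def c298 : Ct := (.str 51 (.nv (.thr 55 59 (.thr 38 4 (.thr 12 25 (.dbl 46 29 34)))) (.nv (.thr 59 55 (.thr 25 8 (.thr 29 17 (.dbl 12 38 46)))) (.rp 59 (.str 58 (.nv (.thr 26 10 (.thr 48 53 (.thr 50 49 (.thr 38 14 (.thr 46 34 (.dbl 12 25 29)))))) (.nv (.thr 48 53 (.thr 26 10 (.thr 31 16 (.dbl 15 37 47)))) (.rp 53 (.thr 26 10 (.thr 31 16 (.thr 15 47 (.thr 27 39 (.thr 25 24 (.thr 29 17 (.dbl 12 38 46))))))) (.rp 48 (.thr 26 10 (.str 15 (.nv (.dbl 31 16 47) (.rp 47 (.thr 27 39 (.thr 25 24 (.thr 29 17 (.dbl 12 38 46)))) (.rp 32 (.thr 16 31 (.thr 27 39 (.thr 25 24 (.thr 29 17 (.dbl 12 38 46)))))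 (.rp 31 (.thr 27 39 (.thr 25 24 (.thr 29 17 (.dbl 12 38 46)))) (.rp 16 (.str 32 (.nv (.dbl 47 31 37) (.rp 47 (.thr 27 39 (.thr 25 24 (.thr 29 17 (.dbl 12 38 46)))) (.rp 37 (.thr 27 39 (.thr 25 24 (.thr 29 17 (.dbl 12 38 46)))) (.rp 31 (.thr 27 39 (.thr 25 24 (.thr 29 17 (.dbl 12 38 46)))) .nd))))) .nd))))))) (.rp 26 (.thr 48 53 (.thr 50 49 (.thr 62 54 (.thr 22 2 (.thr 23 20 (.thr 3 43 (.thr 18 33 (.thr 19 35 (.thr 17 16 (.dbl 25 28 29)))))))))) (.rp 15 (.thr 48 53 (.thr 50 49 (.thr 62 54 (.thr 2 22 (.thr 34 18 (.thr 38 46 (.dbl 26 10 14))))))) (.rp 10 (.thr 48 53 (.thr 50 49 (.thr 62 54 (.thr 2 22 (.thr 34 18 (.thr 38 46 (.thr 26 14 (.thr 31 16 (.dbl 15 37 47))))))))) (.rp 5 (.thr 48 53 (.thr 26 10 (.thr 15 37 (.dbl 31 16 47)))) .nd))))))))) (.rp 55 (.str 3 (.nv (.thr 19 35 (.thr 23 43 (.thr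 31 27 (.thr 26 16 (.thr 58 10 (.thr 48 53 (.dbl 15 37 47))))))) (.nv (.thr 19 35 (.thr 23 43 (.thr 22 20 (.thr 25 28 (.thr 29 17 (.dbl 12 38 46)))))) (.rp 47 (.thr 23 43 (.thr 22 20 (.thr 62 2 (.thr 60 61 (.thr 54 57 (.thr 38 6 (.thr 46 34 (.dbl 12 25 29)))))))) (.rp 44 (.thr 35 19 (.thr 43 23 (.thr 39 47 (.thr 27 15 (.thr 59 11 (.thr 25 8 (.thr 29 17 (.dbl 12 38 46)))))))) (.rp 43 (.str 23 (.nv (.thr 19 35 (.thr 31 27 (.thr 26 16 (.thr 58 10 (.thr 48 53 (.dbl 15 37 47)))))) (.nv (.thr 19 35 (.thr 22 20 (.thr 25 28 (.thr 29 17 (.dbl 12 38 46))))) (.rp 47 (.thr 22 20 (.thr 62 2 (.thr 60 61 (.thr 54 57 (.thr 38 6 (.thr 46 34 (.dbl 12 25 29))))))) (.rp 44 (.thr 22 20 (.thr 62 2 (.thr 60 61 (.thr 54 57 (.thr 19 35 (.thr 38 6 (.dbl 25 12 28))))))) (.rp 39 (.thr 22 20 (.thr 62 2 (.thr 60 61 (.thr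 54 57 (.thr 38 6 (.thr 46 34 (.dbl 12 25 29))))))) (.rp 38 (.thr 22 20 (.thr 62 2 (.thr 60 61 (.thr 54 57 (.thr 58 50 (.thr 26 10 (.thr 18 30 (.dbl 48 33 53)))))))) (.rp 35 (.thr 22 20 (.thr 62 2 (.thr 60 61 (.thr 54 57 (.thr 38 6 (.thr 46 34 (.dbl 12 25 29))))))) (.rp 19 (.thr 22 20 (.thr 62 2 (.thr 60 61 (.thr 54 57 (.thr 38 6 (.thr 46 34 (.dbl 12 25 29))))))) (.rp 16 (.thr 19 35 (.thr 27 31 (.thr 22 20 (.thr 25 28 (.thr 24 26 (.thr 29 17 (.dbl 12 38 46))))))) .nd)))))))))) (.rp 39 (.thr 23 43 (.thr 22 20 (.thr 62 2 (.thr 60 61 (.thr 54 57 (.thr 38 6 (.thr 46 34 (.dbl 12 25 29)))))))) (.rp 38 (.thr 23 43 (.thr 22 20 (.thr 62 2 (.thr 60 61 (.thr 54 57 (.thr 58 50 (.thr 26 10 (.thr 18 30 (.dbl 48 33 53))))))))) (.rp 35 (.thr 23 43 (.thr 22 20 (.thr 62 2 (.thr 60 61 (.thr 54 57 (.thr 38 6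 (.thr 46 34 (.dbl 12 25 29)))))))) (.rp 23 (.str 39 (.nv (.thr 15 27 (.thr 31 47 (.thr 26 16 (.thr 48 37 (.dbl 58 10 53))))) (.nv (.thr 35 19 (.thr 47 43 (.dbl 15 27 31))) (.rp 47 (.str 18 (.nv (.thr 48 33 (.thr 50 49 (.thr 2 34 (.thr 58 53 (.dbl 62 22 54))))) (.nv (.thr 19 35 (.thr 16 17 (.thr 26 31 (.thr 27 15 (.thr 25 24 (.dbl 22 28 30)))))) (.nv (.thr 15 27 (.thr 48 33 (.thr 53 58 (.dbl 37 5 26)))) .nd)))) (.rp 31 (.thr 35 19 (.thr 27 15 (.thr 43 47 (.thr 59 11 (.thr 25 8 (.thr 29 17 (.dbl 12 38 46))))))) (.rp 27 (.str 31 (.nv (.thr 15 47 (.thr 26 16 (.thr 48 37 (.dbl 58 10 53)))) (.nv (.thr 35 19 (.dbl 47 15 43)) (.rp 47 (.thr 26 16 (.thr 58 10 (.thr 48 53 (.thr 50 49 (.thr 38 14 (.dbl 37 15 36)))))) (.rp 15 (.thr 35 19 (.thr 47 43 (.thr 37 32 (.thr 38 36 (.thr 46 34 (.dbl 12 25 29))))))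 .nd))))) (.rp 15 (.thr 35 19 (.thr 47 43 (.thr 37 32 (.thr 38 36 (.thr 46 34 (.dbl 12 25 29)))))) .nd))))))) (.rp 19 (.thr 23 43 (.thr 22 20 (.thr 62 2 (.thr 60 61 (.thr 54 57 (.thr 38 6 (.thr 46 34 (.dbl 12 25 29)))))))) (.rp 16 (.thr 35 19 (.thr 43 23 (.thr 39 47 (.thr 27 15 (.thr 59 11 (.thr 25 8 (.thr 12 38 (.dbl 29 17 46)))))))) .nd)))))))))))) (.rp 46 (.str 23 (.nv (.thr 22 20 (.thr 55 59 (.thr 38 4 (.thr 62 2 (.thr 60 61 (.dbl 54 6 57)))))) (.nv (.thr 3 43 (.thr 19 35 (.thr 31 27 (.thr 26 16 (.thr 58 10 (.thr 48 53 (.dbl 15 37 47))))))) (.nv (.thr 3 43 (.thr 22 20 (.thr 59 55 (.thr 25 8 (.dbl 19 28 35))))) (.rp 59 (.thr 3 43 (.thr 19 35 (.thr 22 20 (.thr 25 28 (.thr 17 29 (.thr 16 18 (.dbl 31 26 27))))))) (.rp 3 (.thr 59 55 (.thr 22 20 (.thr 25 8 (.thr 17 29 (.thr 19 28 (.thr 31 27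 (.dbl 16 18 26))))))) .nd)))))) (.rp 38 (.thr 59 55 (.thr 25 8 (.thr 29 17 (.thr 12 46 (.str 37 (.nv (.thr 47 32 (.thr 15 31 (.thr 53 5 (.dbl 48 26 58)))) (.nv (.thr 47 32 (.thr 13 49 (.dbl 15 14 31))) (.nv (.thr 49 13 (.thr 48 50 (.dbl 53 5 58))) (.rp 48 (.thr 13 49 (.thr 15 14 (.dbl 47 31 32))) (.rp 44 (.str 35 (.nv (.thr 49 13 (.thr 48 50 (.dbl 53 5 58))) (.nv (.thr 47 32 (.thr 39 43 (.dbl 15 27 31))) (.rp 48 (.thr 13 49 (.thr 15 14 (.dbl 47 31 32))) (.rp 47 (.str 45 (.nv (.dbl 13 49 61) (.rp 61 (.thr 49 13 (.thr 53 5 (.dbl 48 50 58))) (.rp 49 (.thr 13 61 (.thr 53 5 (.thr 15 14 (.dbl 48 26 58)))) (.rp 39 (.str 23 (.nv (.dbl 13 49 61) (.nv (.dbl 3 19 43) .nd))) (.rp 23 (.str 39 (.nv (.thr 15 27 (.thr 48 26 (.dbl 53 5 58))) (.nv (.dbl 13 49 61) .nd))) (.rp 13 (.thr 53 5 (.thr 48 58 (.thr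 24 36 (.dbl 26 15 27)))) .nd))))))) (.rp 39 (.str 23 (.nv (.thr 47 32 (.thr 13 49 (.dbl 15 14 31))) (.nv (.dbl 3 19 43) (.rp 47 (.str 45 (.nv (.dbl 13 49 61) (.nv (.dbl 3 19 43) .nd))) .nd)))) (.rp 23 (.str 39 (.nv (.thr 13 49 (.dbl 15 14 27)) (.nv (.dbl 47 32 43) (.rp 47 (.str 45 (.nv (.thr 15 27 (.thr 48 26 (.dbl 53 5 58))) (.nv (.dbl 13 49 61) .nd))) .nd)))) .nd))))))) (.rp 39 (.str 23 (.nv (.thr 49 13 (.thr 48 50 (.dbl 53 5 58))) (.nv (.thr 3 43 (.thr 22 20 (.dbl 19 28 35))) (.rp 44 (.str 35 (.nv (.thr 47 32 (.thr 13 49 (.dbl 15 14 31))) (.nv (.dbl 3 19 43) (.rp 47 (.str 45 (.nv (.dbl 13 49 61) (.nv (.dbl 3 19 43) .nd))) .nd)))) (.rp 35 (.str 44 (.nv (.thr 47 32 (.thr 13 49 (.dbl 15 14 31))) (.nv (.thr 28 60 (.dbl 22 19 20)) (.rp 47 (.thr 43 3 (.thr 28 60 (.dbl 22 19 20))) .nd)))) .nd)))))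 (.rp 35 (.str 44 (.nv (.thr 32 47 (.thr 53 5 (.thr 48 58 (.dbl 36 24 40)))) (.nv (.thr 13 49 (.thr 61 45 (.dbl 60 28 62))) (.rp 39 (.str 23 (.nv (.thr 47 32 (.thr 13 49 (.dbl 15 14 31))) (.nv (.thr 28 60 (.dbl 22 19 20)) (.rp 47 (.thr 43 3 (.thr 28 60 (.dbl 22 19 20))) .nd)))) (.rp 23 (.str 39 (.nv (.thr 13 49 (.thr 60 28 (.dbl 61 45 62))) (.nv (.thr 15 27 (.dbl 47 31 32)) .nd))) .nd))))) (.rp 23 (.str 39 (.nv (.thr 49 13 (.thr 48 50 (.dbl 53 5 58))) (.nv (.thr 15 27 (.dbl 47 31 32)) (.rp 44 (.str 35 (.nv (.thr 13 49 (.dbl 15 14 27)) (.nv (.dbl 47 32 43) (.rp 47 (.str 45 (.nv (.thr 15 27 (.thr 48 26 (.dbl 53 5 58))) (.nv (.dbl 13 49 61) .nd))) .nd)))) (.rp 35 (.str 44 (.nv (.thr 13 49 (.thr 60 28 (.dbl 61 45 62))) (.nv (.thr 15 27 (.dbl 47 31 32)) .nd))) .nd))))) .nd))))))))))))) (.rp 29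 (.str 3 (.nv (.thr 19 35 (.thr 23 43 (.thr 22 20 (.thr 25 28 (.dbl 59 8 55))))) (.nv (.thr 23 43 (.thr 22 20 (.thr 55 59 (.thr 38 4 (.thr 6 54 (.dbl 12 9 25)))))) (.nv (.thr 35 19 (.thr 43 23 (.thr 59 55 (.thr 39 47 (.dbl 27 11 15))))) (.rp 59 (.thr 19 35 (.thr 23 43 (.thr 22 20 (.thr 62 2 (.thr 25 28 (.thr 38 12 (.thr 54 6 (.dbl 60 57 61)))))))) (.rp 55 (.thr 19 35 (.thr 23 43 (.thr 31 27 (.thr 26 16 (.thr 58 10 (.thr 48 53 (.dbl 15 37 47))))))) (.rp 43 (.thr 19 35 (.thr 59 55 (.thr 25 8 (.thr 22 28 (.thr 62 2 (.thr 60 61 (.thr 54 57 (.dbl 38 6 12)))))))) (.rp 23 (.thr 35 19 (.thr 55 59 (.thr 38 4 (.thr 34 46 (.thr 33 32 (.thr 48 18 (.thr 50 49 (.thr 26 14 (.dbl 58 10 53))))))))) .nd)))))))) (.rp 25 (.str 57 (.nv (.thr 54 60 (.thr 55 59 (.thr 53 52 (.thr 48 58 (.dbl 49 50 61))))) (.nv (.thr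 59 55 (.thr 58 56 (.thr 26 10 (.thr 31 16 (.thr 15 47 (.dbl 48 37 53)))))) (.nv (.thr 59 55 (.thr 58 56 (.thr 60 54 (.thr 61 62 (.dbl 53 48 49))))) (.rp 59 (.thr 60 54 (.thr 61 62 (.thr 53 49 (.thr 37 5 (.thr 47 32 (.thr 15 31 (.dbl 48 26 58))))))) (.rp 58 (.thr 54 60 (.thr 55 59 (.thr 53 52 (.thr 49 61 (.thr 48 50 (.thr 37 5 (.thr 47 32 (.dbl 15 26 31)))))))) (.rp 55 (.thr 60 54 (.thr 61 62 (.thr 53 49 (.thr 37 5 (.thr 47 32 (.thr 15 31 (.dbl 48 26 58))))))) (.rp 53 (.thr 54 60 (.thr 59 55 (.thr 58 56 (.thr 50 62 (.thr 48 49 (.thr 26 10 (.thr 31 16 (.dbl 15 37 47)))))))) (.rp 48 (.thr 60 54 (.thr 59 55 (.thr 58 56 (.thr 62 61 (.thr 22 2 (.thr 26 10 (.thr 30 18 (.thr 15 45 (.dbl 31 16 47))))))))) .nd))))))))) (.rp 12 (.thr 59 55 (.thr 8 25 (.str 57 (.nv (.thr 58 56 (.thr 26 10 (.thr 31 16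 (.thr 15 47 (.dbl 48 37 53))))) (.nv (.thr 60 54 (.thr 61 62 (.thr 58 56 (.dbl 53 48 49)))) (.rp 58 (.thr 60 54 (.thr 62 61 (.thr 22 2 (.thr 23 20 (.thr 3 43 (.thr 19 35 (.thr 31 27 (.thr 26 16 (.thr 30 18 (.dbl 15 45 47)))))))))) (.rp 56 (.thr 60 54 (.thr 61 62 (.thr 53 49 (.thr 37 5 (.thr 47 32 (.thr 15 31 (.dbl 48 26 58))))))) (.rp 53 (.thr 58 56 (.thr 26 10 (.thr 31 16 (.thr 15 47 (.thr 27 39 (.thr 23 19 (.dbl 43 3 11))))))) (.rp 48 (.thr 58 56 (.thr 10 26 (.thr 11 9 (.thr 60 54 (.thr 62 61 (.thr 22 2 (.thr 23 20 (.dbl 43 3 27)))))))) (.rp 39 (.str 23 (.nv (.thr 58 56 (.thr 10 26 (.thr 11 9 (.dbl 43 3 27)))) (.nv (.thr 22 20 (.thr 60 54 (.dbl 62 2 61))) .nd))) (.rp 26 (.thr 60 54 (.thr 61 62 (.thr 53 49 (.dbl 58 48 56)))) (.rp 23 (.str 39 (.nv (.thr 60 54 (.thr 61 62 (.thr 53 49 (.dbl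 58 48 56)))) (.nv (.thr 58 56 (.thr 26 10 (.thr 15 27 (.dbl 31 16 47)))) (.rp 58 (.thr 15 27 (.thr 31 47 (.thr 26 16 (.thr 48 37 (.thr 49 50 (.thr 61 53 (.dbl 60 54 62))))))) (.rp 56 (.thr 15 27 (.thr 31 47 (.thr 26 16 (.thr 48 37 (.dbl 58 10 53))))) .nd))))) .nd)))))))))))) (.rp 4 (.thr 59 55 (.thr 25 8 (.thr 12 38 (.dbl 29 17 46)))) .nd)))))))))))

theorem w298 : WinAt (9223376434903384064, 2199023255681) :=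
  chF (K := []) kn c298 9223376434903384064 2199023255681 0
    [] (by decide +kernel) (by decide +kernel)

/-- A certificate. -/
noncomputable def c299 : Ct := (.str 12 (.nv (.thr 46 29 (.thr 38 34 (.thr 51 25 (.dbl 55 4 59)))) (.nv (.thr 29 46 (.thr 25 17 (.thr 51 38 (.dbl 59 8 55)))) (.rp 59 (.thr 29 46 (.thr 25 17 (.thr 51 38 (.str 27 (.nv (.thr 15 39 (.thr 47 31 (.thr 37 32 (.dbl 13 14 49)))) (.nv (.thr 26 24 (.thr 31 16 (.thr 28 30 (.dbl 19 22 23)))) (.nv (.thr 26 24 (.thr 58 10 (.thr 48 53 (.dbl 15 37 39)))) (.rp 48 (.thr 26 24 (.thr 15 39 (.dbl 31 16 47))) .nd)))))))) (.rp 55 (.thr 46 29 (.thr 38 34 (.thr 51 25 (.str 39 (.nv (.thr 15 27 (.thr 31 47 (.thr 26 16 (.dbl 14 13 50)))) (.nv (.thr 37 36 (.thr 53 5 (.thr 48 58 (.thr 50 49 (.dbl 26 14 15))))) (.nv (.thr 37 36 (.thr 15 27 (.dbl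 47 31 32))) (.rp 26 (.thr 37 36 (.thr 47 32 (.dbl 15 27 31))) (.rp 15 (.thr 37 36 (.thr 47 32 (.thr 44 45 (.thr 60 28 (.thr 61 62 (.dbl 41 1 35)))))) .nd))))))))) (.rp 51 (.thr 29 46 (.str 13 (.nv (.thr 17 25 (.thr 15 14 (.thr 47 31 (.thr 37 32 (.thr 48 26 (.dbl 53 5 58)))))) (.nv (.thr 61 45 (.thr 1 41 (.thr 5 9 (.thr 37 53 (.dbl 25 17 49))))) (.nv (.thr 15 14 (.thr 31 47 (.thr 45 61 (.dbl 30 28 60)))) (.rp 47 (.thr 15 14 (.thr 45 61 (.thr 30 60 (.thr 31 28 (.thr 26 16 (.thr 58 10 (.dbl 48 37 53))))))) (.rp 17 (.str 34 (.nv (.thr 61 45 (.thr 1 41 (.thr 5 9 (.thr 37 53 (.thr 47 32 (.dbl 15 14 31)))))) (.nv (.thr 15 14 (.thr 47 31 (.thr 37 32 (.thr 48 26 (.dbl 53 5 58))))) (.nv (.thr 15 14 (.thr 31 47 (.thr 45 61 (.dbl 30 28 60)))) (.rp 47 (.thr 15 14 (.thr 45 61 (.thr 30 60 (.thr 31 28 (.thr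 26 16 (.thr 48 37 (.dbl 58 10 53))))))) (.rp 31 (.thr 14 15 (.thr 61 45 (.thr 60 62 (.thr 44 28 (.thr 41 1 (.thr 38 35 (.thr 3 22 (.thr 6 9 (.thr 10 2 (.dbl 26 50 58)))))))))) (.rp 15 (.thr 61 45 (.thr 60 62 (.thr 44 28 (.thr 41 1 (.thr 35 38 (.thr 33 32 (.thr 3 22 (.thr 48 18 (.thr 53 58 (.thr 49 57 (.dbl 37 5 25))))))))))) (.rp 14 (.thr 61 45 (.thr 62 60 (.thr 22 2 (.thr 1 41 (.thr 5 9 (.thr 37 53 (.thr 47 32 (.thr 31 15 (.thr 30 28 (.dbl 26 16 18)))))))))) .nd)))))))) .nd))))))) (.rp 46 (.str 26 (.nv (.thr 58 10 (.thr 48 53 (.thr 24 36 (.thr 25 27 (.thr 51 38 (.dbl 59 8 55)))))) (.nv (.thr 31 16 (.thr 15 47 (.thr 14 13 (.thr 38 50 (.thr 55 4 (.dbl 51 25 59)))))) (.nv (.thr 58 10 (.thr 31 16 (.thr 48 53 (.dbl 15 37 47)))) (.rp 48 (.str 14 (.nv (.thr 38 50 (.thr 51 25 (.dbl 55 4 59))) (.nv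 (.thr 15 13 (.dbl 31 16 47)) (.rp 32 (.thr 16 31 (.thr 38 50 (.thr 55 4 (.dbl 51 25 59)))) (.rp 16 (.str 32 (.nv (.thr 38 50 (.thr 51 25 (.dbl 55 4 59))) (.nv (.thr 15 13 (.dbl 47 31 37)) .nd))) .nd))))) (.rp 15 (.thr 10 58 (.str 11 (.nv (.thr 41 56 (.thr 61 1 (.thr 60 62 (.thr 3 22 (.dbl 9 6 8))))) (.nv (.thr 8 9 (.thr 25 59 (.thr 56 41 (.dbl 24 27 40)))) (.rp 59 (.thr 9 8 (.thr 41 56 (.thr 57 25 (.thr 61 1 (.thr 60 62 (.dbl 3 6 22)))))) (.rp 56 (.thr 9 8 (.thr 6 3 (.thr 2 14 (.thr 22 62 (.thr 30 18 (.thr 23 20 (.thr 31 16 (.thr 28 29 (.dbl 19 25 27))))))))) (.rp 41 (.thr 8 9 (.thr 25 59 (.thr 24 27 (.thr 16 31 (.thr 28 20 (.thr 17 29 (.dbl 19 18 22))))))) (.rp 9 (.thr 41 56 (.thr 61 1 (.thr 60 62 (.thr 28 44 (.thr 31 16 (.thr 30 29 (.dbl 22 3 18))))))) (.rp 8 (.thr 41 56 (.thr 61 1 (.thr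 60 62 (.thr 28 44 (.thr 31 16 (.thr 30 29 (.dbl 22 3 18))))))) .nd))))))))) (.rp 5 (.thr 31 16 (.thr 15 47 (.thr 58 10 (.dbl 48 37 53)))) .nd))))))) (.rp 38 (.str 13 (.nv (.thr 15 14 (.thr 31 47 (.thr 26 16 (.thr 48 37 (.dbl 58 10 53))))) (.nv (.thr 29 46 (.thr 25 17 (.thr 37 49 (.thr 5 53 (.thr 1 9 (.dbl 61 41 45)))))) (.nv (.thr 15 14 (.thr 47 31 (.thr 37 32 (.thr 25 49 (.dbl 29 17 46))))) (.rp 37 (.thr 15 14 (.thr 29 46 (.thr 45 61 (.thr 30 60 (.dbl 31 28 47))))) .nd))))) (.rp 29 (.str 26 (.nv (.thr 58 10 (.thr 48 53 (.thr 24 36 (.thr 25 27 (.thr 51 38 (.dbl 59 8 55)))))) (.nv (.thr 31 16 (.thr 15 47 (.thr 14 13 (.thr 38 50 (.thr 55 4 (.dbl 51 25 59)))))) (.nv (.thr 58 10 (.thr 31 16 (.thr 48 53 (.dbl 15 37 47)))) (.rp 48 (.str 14 (.nv (.thr 38 50 (.thr 51 25 (.dbl 55 4 59))) (.nv (.thr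 15 13 (.dbl 31 16 47)) (.rp 32 (.thr 16 31 (.thr 38 50 (.thr 55 4 (.dbl 51 25 59)))) (.rp 16 (.str 32 (.nv (.thr 38 50 (.thr 51 25 (.dbl 55 4 59))) (.nv (.thr 47 37 (.dbl 15 13 31)) .nd))) .nd))))) (.rp 15 (.thr 10 58 (.str 11 (.nv (.thr 41 56 (.thr 61 1 (.thr 60 62 (.thr 3 22 (.dbl 9 6 8))))) (.nv (.thr 8 9 (.thr 25 59 (.thr 56 41 (.dbl 24 27 40)))) (.rp 59 (.thr 9 8 (.thr 41 56 (.thr 57 25 (.thr 61 1 (.thr 60 62 (.dbl 3 6 22)))))) (.rp 56 (.thr 9 8 (.thr 6 3 (.thr 2 14 (.thr 62 22 (.thr 60 61 (.thr 28 44 (.thr 16 31 (.thr 24 20 (.thr 25 27 (.thr 57 41 (.dbl 51 38 54))))))))))) (.rp 41 (.thr 8 9 (.thr 25 59 (.thr 38 51 (.thr 14 50 (.thr 2 6 (.thr 62 22 (.dbl 46 30 34))))))) (.rp 9 (.thr 41 56 (.thr 61 1 (.thr 60 62 (.thr 28 44 (.thr 16 31 (.thr 20 24 (.dbl 22 3 23))))))) (.rp 8 (.thr 41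 56 (.thr 61 1 (.thr 60 62 (.thr 44 28 (.thr 38 35 (.thr 55 4 (.dbl 51 25 59))))))) .nd))))))))) (.rp 5 (.thr 31 16 (.thr 15 47 (.thr 58 10 (.dbl 48 37 53)))) .nd))))))) (.rp 25 (.str 14 (.nv (.thr 15 13 (.thr 31 47 (.thr 26 16 (.thr 58 10 (.dbl 48 37 53))))) (.nv (.thr 46 29 (.thr 38 34 (.thr 26 50 (.thr 10 58 (.thr 2 6 (.dbl 62 22 30)))))) (.nv (.thr 15 13 (.thr 46 29 (.thr 47 31 (.thr 30 62 (.dbl 45 44 60))))) .nd)))) .nd))))))))))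

theorem w299 : WinAt (9223376434903384064, 8796093022337) :=
  chF (K := []) kn c299 9223376434903384064 8796093022337 0
    [] (by decide +kernel) (by decide +kernel)

/-- A certificate. -/
noncomputable def c300 : Ct := (.str 12 (.nv (.thr 8 4 (.thr 25 59 (.thr 51 38 (.dbl 17 29 34)))) (.nv (.thr 4 8 (.thr 38 55 (.thr 51 25 (.dbl 34 17 46)))) (.rp 51 (.thr 4 8 (.thr 55 38 (.str 37 (.nv (.thr 32 47 (.thr 48 16 (.thr 36 24 (.thr 20 52 (.dbl 40 44 60))))) (.nv (.thr 53 5 (.thr 52 54 (.thr 36 20 (.thr 48 24 (.dbl 32 16 47))))) (.nv (.thr 32 47 (.thr 5 53 (.thr 48 16 (.dbl 15 10 26)))) (.rp 48 (.thr 53 5 (.thr 52 54 (.thr 20 36 (.thr 60 40 (.thr 22 23 (.thr 3 41 (.dbl 2 1 62))))))) (.rp 47 (.thr 53 5 (.thr 52 54 (.thr 36 20 (.thr 48 24 (.thr 16 32 (.dbl 26 15 31)))))) (.rp 32 (.thr 53 5 (.thr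 52 54 (.thr 20 36 (.thr 22 23 (.thr 2 62 (.thr 3 1 (.dbl 60 40 41))))))) (.rp 16 (.thr 32 47 (.thr 5 53 (.thr 15 10 (.thr 48 26 (.thr 36 24 (.thr 20 52 (.dbl 40 44 60))))))) .nd)))))))))) (.rp 38 (.str 5 (.nv (.thr 8 4 (.thr 10 15 (.thr 9 11 (.thr 3 6 (.dbl 1 2 13))))) (.nv (.thr 15 10 (.thr 37 53 (.thr 48 26 (.dbl 32 16 47)))) (.rp 47 (.thr 15 10 (.thr 13 14 (.thr 8 4 (.thr 37 53 (.dbl 25 49 59))))) (.rp 15 (.thr 8 4 (.thr 37 53 (.thr 25 59 (.thr 17 29 (.thr 51 34 (.thr 13 49 (.thr 9 1 (.thr 3 6 (.thr 19 35 (.thr 22 28 (.dbl 41 57 60))))))))))) (.rp 10 (.thr 4 8 (.thr 37 53 (.thr 32 47 (.thr 48 16 (.thr 36 24 (.thr 20 52 (.dbl 40 44 60))))))) .nd)))))) (.rp 34 (.str 15 (.nv (.thr 4 8 (.thr 14 13 (.thr 38 55 (.thr 26 50 (.thr 16 31 (.dbl 48 32 37)))))) (.nv (.thr 8 4 (.thr 14 13 (.thr 10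 5 (.thr 6 2 (.dbl 9 3 11))))) (.nv (.thr 5 10 (.thr 37 53 (.thr 48 26 (.dbl 32 16 47)))) .nd)))) (.rp 25 (.str 15 (.nv (.thr 4 8 (.thr 14 13 (.thr 38 55 (.thr 26 50 (.thr 16 31 (.dbl 48 32 37)))))) (.nv (.thr 8 4 (.thr 14 13 (.thr 10 5 (.thr 6 2 (.dbl 9 3 11))))) (.nv (.thr 5 10 (.thr 37 53 (.thr 48 26 (.dbl 32 16 47)))) (.rp 37 (.thr 10 5 (.thr 4 8 (.thr 26 58 (.thr 38 55 (.dbl 14 13 50))))) .nd))))) (.rp 17 (.str 15 (.nv (.thr 4 8 (.thr 14 13 (.thr 38 55 (.thr 26 50 (.thr 16 31 (.dbl 48 32 37)))))) (.nv (.thr 8 4 (.thr 14 13 (.thr 10 5 (.thr 6 2 (.dbl 9 3 11))))) (.nv (.thr 5 10 (.thr 37 53 (.thr 48 26 (.dbl 32 16 47)))) .nd)))) (.rp 8 (.str 16 (.nv (.thr 26 31 (.thr 48 32 (.thr 24 36 (.thr 25 27 (.thr 17 29 (.dbl 51 34 38)))))) (.nv (.thr 48 32 (.thr 26 31 (.thr 10 58 (.dbl 15 5 37))))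 (.rp 48 (.thr 26 31 (.str 15 (.nv (.dbl 10 5 58) (.rp 58 (.str 53 (.nv (.dbl 5 10 37) (.rp 37 (.thr 14 13 (.thr 38 50 (.thr 34 46 (.dbl 51 17 25)))) (.rp 10 (.thr 14 13 (.thr 38 50 (.thr 34 46 (.dbl 51 17 25)))) (.rp 5 (.thr 14 13 (.thr 38 50 (.thr 34 46 (.dbl 51 17 25)))) .nd))))) (.rp 53 (.thr 58 10 (.thr 14 13 (.thr 38 50 (.thr 34 46 (.dbl 51 17 25))))) (.rp 10 (.thr 14 13 (.thr 38 50 (.thr 34 46 (.dbl 51 17 25)))) (.rp 5 (.thr 14 13 (.thr 38 50 (.thr 34 46 (.dbl 51 17 25)))) .nd))))))) (.rp 47 (.thr 48 32 (.thr 26 31 (.thr 15 37 (.dbl 10 5 58)))) (.rp 32 (.thr 26 31 (.thr 10 58 (.thr 15 5 (.thr 14 13 (.thr 38 50 (.thr 34 46 (.dbl 51 17 25))))))) (.rp 31 (.thr 48 32 (.thr 24 36 (.thr 20 28 (.thr 22 23 (.thr 2 62 (.thr 3 1 (.dbl 60 40 41))))))) (.rp 26 (.thr 48 32 (.thr 24 36 (.thr 20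 28 (.thr 22 23 (.thr 2 62 (.thr 3 1 (.dbl 60 40 41))))))) (.rp 15 (.thr 48 32 (.thr 24 36 (.thr 20 28 (.thr 22 23 (.thr 2 62 (.thr 3 1 (.dbl 60 40 41))))))) .nd))))))))) (.rp 4 (.str 3 (.nv (.thr 6 9 (.thr 1 2 (.thr 41 61 (.thr 60 22 (.dbl 40 20 43))))) (.nv (.thr 2 1 (.thr 6 9 (.thr 22 62 (.thr 38 54 (.thr 34 46 (.dbl 51 17 25)))))) (.nv (.thr 2 1 (.thr 22 62 (.thr 60 41 (.dbl 20 23 40)))) (.rp 60 (.thr 6 9 (.thr 2 1 (.thr 10 14 (.thr 26 58 (.thr 16 31 (.thr 48 32 (.dbl 15 5 37))))))) (.rp 22 (.thr 6 9 (.thr 2 1 (.thr 10 14 (.thr 26 58 (.thr 16 31 (.thr 48 32 (.dbl 15 5 37))))))) (.rp 6 (.str 5 (.nv (.thr 37 53 (.thr 32 47 (.thr 48 16 (.dbl 15 10 26)))) (.nv (.thr 2 1 (.thr 22 62 (.thr 20 23 (.dbl 60 40 41)))) (.nv (.thr 1 2 (.thr 13 9 (.dbl 15 10 14))) .nd)))) (.rp 2 (.str 5 (.nv (.thr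 37 53 (.thr 32 47 (.thr 48 16 (.dbl 15 10 26)))) (.nv (.thr 9 6 (.thr 13 1 (.dbl 15 10 14))) (.rp 15 (.thr 9 6 (.thr 13 1 (.thr 37 53 (.thr 25 49 (.thr 17 29 (.dbl 51 34 38)))))) (.rp 10 (.thr 37 53 (.thr 32 47 (.thr 48 16 (.thr 36 24 (.thr 38 39 (.thr 51 25 (.dbl 34 17 46))))))) .nd))))) (.rp 1 (.thr 6 9 (.str 10 (.nv (.thr 26 58 (.thr 16 31 (.thr 48 32 (.dbl 15 5 37)))) (.nv (.thr 14 2 (.dbl 15 5 13)) (.rp 15 (.thr 2 14 (.thr 22 62 (.thr 20 23 (.dbl 60 40 41)))) (.rp 13 (.thr 5 15 (.thr 2 14 (.thr 22 62 (.thr 20 23 (.dbl 60 40 41))))) (.rp 5 (.str 13 (.nv (.dbl 14 2 15) (.rp 15 (.thr 2 14 (.thr 22 62 (.thr 20 23 (.dbl 60 40 41)))) (.rp 14 (.thr 26 58 (.thr 16 31 (.thr 48 32 (.thr 24 36 (.thr 25 27 (.dbl 37 15 49)))))) (.rp 2 (.thr 15 14 (.thr 26 58 (.thr 16 31 (.dbl 48 32 37)))) .nd)))))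 .nd))))))) .nd))))))))) .nd))))))))))

theorem w300 : WinAt (4398048608257, 9223407221226864768) :=
  chF (K := []) kn c300 4398048608257 9223407221226864768 63
    [] (by decide +kernel) (by decide +kernel)

/-- A certificate. -/
noncomputable def c301 : Ct := (.str 48 (.nv (.thr 53 58 (.thr 37 5 (.thr 15 26 (.dbl 47 31 32)))) (.nv (.thr 58 53 (.thr 26 10 (.thr 31 16 (.dbl 15 37 47)))) (.rp 58 (.str 41 (.nv (.thr 43 40 (.thr 3 23 (.thr 33 18 (.thr 37 45 (.thr 47 32 (.dbl 15 26 31)))))) (.nv (.thr 61 1 (.thr 60 62 (.thr 56 52 (.thr 26 11 (.thr 31 16 (.dbl 15 37 47)))))) (.nv (.thr 43 40 (.thr 61 1 (.thr 3 23 (.dbl 60 22 62)))) (.rp 60 (.str 56 (.nv (.thr 40 43 (.thr 8 24 (.thr 11 26 (.thr 25 59 (.dbl 9 10 57))))) (.nv (.thr 26 11 (.thr 31 16 (.dbl 15 37 47))) (.rp 40 (.str 20 (.nv (.thr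 23 22 (.thr 3 43 (.thr 26 11 (.thr 33 18 (.dbl 37 15 45))))) (.nv (.thr 26 11 (.thr 31 16 (.dbl 15 37 47))) (.rp 37 (.thr 22 23 (.thr 26 11 (.thr 18 30 (.thr 16 31 (.thr 28 24 (.dbl 19 17 25)))))) (.rp 26 (.str 49 (.nv (.thr 51 50 (.thr 59 55 (.thr 25 8 (.thr 57 9 (.dbl 61 1 53))))) (.nv (.thr 23 22 (.thr 1 61 (.thr 3 43 (.dbl 33 17 18)))) (.rp 61 (.thr 51 50 (.thr 55 59 (.thr 23 22 (.thr 38 4 (.thr 35 44 (.dbl 3 19 43)))))) (.rp 23 (.thr 51 50 (.thr 61 1 (.thr 57 53 (.thr 25 9 (.dbl 59 8 55))))) (.rp 1 (.thr 51 50 (.thr 55 59 (.thr 23 22 (.thr 38 4 (.thr 35 44 (.dbl 3 19 43)))))) .nd)))))) (.rp 15 (.thr 23 22 (.thr 3 43 (.thr 18 33 (.thr 26 11 (.thr 16 31 (.thr 24 28 (.thr 17 19 (.dbl 25 27 29)))))))) (.rp 11 (.thr 23 22 (.thr 3 43 (.thr 33 18 (.thr 37 45 (.thr 47 32 (.dbl 15 26 31))))))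 (.rp 3 (.thr 26 11 (.thr 15 37 (.dbl 31 16 47))) .nd)))))))) (.rp 26 (.thr 40 43 (.thr 8 24 (.thr 25 59 (.thr 17 29 (.thr 1 61 (.thr 49 33 (.thr 9 57 (.dbl 13 5 37)))))))) (.rp 11 (.thr 40 43 (.thr 8 24 (.thr 59 25 (.thr 51 55 (.thr 49 50 (.thr 61 1 (.thr 53 57 (.thr 37 5 (.thr 47 32 (.dbl 15 26 31)))))))))) .nd)))))) (.rp 3 (.thr 40 43 (.thr 1 61 (.str 15 (.nv (.thr 47 31 (.dbl 37 26 32)) (.rp 47 (.thr 37 26 (.thr 5 53 (.thr 13 9 (.thr 49 25 (.dbl 33 17 45))))) (.rp 37 (.thr 31 47 (.thr 26 16 (.thr 56 11 (.thr 24 8 (.thr 12 36 (.thr 13 14 (.thr 9 5 (.dbl 25 27 57)))))))) (.rp 32 (.thr 31 47 (.dbl 26 16 37)) (.rp 31 (.thr 37 26 (.thr 33 45 (.thr 49 17 (.thr 13 25 (.dbl 5 9 53))))) (.rp 26 (.thr 47 31 (.thr 37 32 (.thr 33 45 (.thr 49 17 (.thr 13 25 (.dbl 5 9 53)))))) .nd))))))))) .nd))))))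 (.rp 53 (.str 41 (.nv (.thr 61 1 (.thr 60 62 (.thr 56 52 (.thr 26 11 (.thr 31 16 (.dbl 15 37 47)))))) (.nv (.thr 43 40 (.thr 3 23 (.thr 33 18 (.thr 37 45 (.thr 47 32 (.dbl 15 26 31)))))) (.nv (.thr 61 1 (.thr 60 62 (.thr 43 40 (.dbl 3 22 23)))) (.rp 60 (.str 56 (.nv (.thr 40 43 (.thr 8 24 (.thr 11 26 (.thr 25 59 (.dbl 9 10 57))))) (.nv (.thr 26 11 (.thr 31 16 (.dbl 15 37 47))) (.rp 40 (.str 20 (.nv (.thr 23 22 (.thr 3 43 (.thr 26 11 (.thr 33 18 (.dbl 37 15 45))))) (.nv (.thr 26 11 (.thr 31 16 (.dbl 15 37 47))) (.rp 37 (.thr 22 23 (.thr 26 11 (.thr 18 30 (.thr 16 31 (.thr 28 24 (.dbl 19 17 25)))))) (.rp 26 (.str 49 (.nv (.thr 1 61 (.thr 17 33 (.thr 25 29 (.thr 9 57 (.dbl 13 5 37))))) (.nv (.thr 51 50 (.thr 59 55 (.thr 25 8 (.dbl 57 9 58)))) (.nv (.thr 23 22 (.thr 1 61 (.thr 3 43 (.dbl 33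 17 18)))) .nd)))) (.rp 15 (.thr 23 22 (.thr 43 3 (.thr 11 26 (.thr 59 27 (.thr 57 58 (.dbl 25 8 9)))))) (.rp 11 (.thr 23 22 (.thr 3 43 (.thr 33 18 (.thr 37 45 (.thr 47 32 (.dbl 15 26 31)))))) (.rp 3 (.thr 26 11 (.thr 15 37 (.dbl 31 16 47))) .nd)))))))) (.rp 26 (.thr 40 43 (.thr 8 24 (.thr 25 59 (.thr 17 29 (.thr 1 61 (.thr 49 33 (.thr 9 57 (.dbl 13 5 37)))))))) (.rp 11 (.thr 40 43 (.thr 8 24 (.thr 59 25 (.thr 58 57 (.thr 26 10 (.thr 31 16 (.dbl 15 37 47))))))) .nd)))))) (.rp 3 (.thr 40 43 (.str 26 (.nv (.thr 31 16 (.dbl 15 37 47)) (.rp 47 (.thr 58 10 (.thr 56 11 (.thr 15 37 (.thr 59 57 (.dbl 8 24 25))))) (.rp 37 (.thr 31 16 (.thr 58 10 (.thr 56 11 (.thr 15 47 (.thr 59 57 (.dbl 8 24 25)))))) (.rp 31 (.thr 58 10 (.thr 56 11 (.thr 15 37 (.thr 59 57 (.dbl 8 24 25))))) (.rp 16 (.thr 58 10 (.thr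 56 11 (.thr 15 37 (.thr 59 57 (.dbl 8 24 25))))) (.rp 15 (.thr 11 56 (.thr 1 61 (.thr 10 58 (.thr 8 9 (.thr 59 25 (.thr 51 55 (.thr 49 50 (.thr 33 17 (.thr 37 45 (.thr 32 47 (.thr 44 36 (.dbl 35 34 38)))))))))))) (.rp 11 (.thr 15 37 (.dbl 31 16 47)) (.rp 2 (.thr 1 61 (.thr 31 16 (.dbl 15 37 47))) (.rp 1 (.str 2 (.nv (.thr 62 22 (.thr 60 61 (.dbl 56 11 52))) (.nv (.thr 31 16 (.dbl 15 37 47)) (.rp 37 (.thr 10 58 (.thr 22 62 (.thr 18 30 (.thr 14 6 (.dbl 50 34 38))))) (.rp 15 (.thr 11 56 (.thr 10 58 (.thr 22 62 (.thr 18 30 (.thr 14 6 (.dbl 50 34 38)))))) (.rp 11 (.thr 15 37 (.dbl 31 16 47)) .nd)))))) .nd))))))))))) .nd)))))) (.rp 47 (.thr 58 53 (.thr 10 26 (.str 62 (.nv (.thr 54 50 (.thr 60 61 (.thr 57 51 (.dbl 56 52 59)))) (.nv (.thr 22 2 (.thr 23 20 (.thr 60 61 (.dbl 3 41 43)))) (.rp 61 (.thr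 54 50 (.thr 22 2 (.thr 23 20 (.thr 3 43 (.thr 60 41 (.thr 56 52 (.dbl 57 51 59))))))) (.rp 60 (.thr 50 54 (.thr 51 49 (.thr 55 59 (.thr 2 22 (.thr 6 14 (.thr 18 34 (.thr 38 4 (.thr 12 25 (.dbl 3 9 33))))))))) (.rp 57 (.thr 22 2 (.thr 23 20 (.thr 3 43 (.dbl 60 41 61)))) (.rp 45 (.str 44 (.nv (.thr 54 50 (.thr 60 61 (.thr 57 51 (.dbl 56 52 59)))) (.nv (.thr 22 2 (.thr 23 20 (.thr 3 43 (.dbl 60 41 61)))) (.rp 61 (.thr 54 50 (.thr 22 2 (.thr 38 6 (.thr 23 20 (.thr 3 43 (.dbl 41 35 60)))))) (.rp 60 (.thr 50 54 (.thr 22 2 (.thr 51 49 (.thr 55 59 (.thr 38 4 (.thr 35 41 (.thr 3 19 (.dbl 23 20 43)))))))) .nd))))) (.rp 44 (.str 45 (.nv (.thr 22 2 (.thr 23 20 (.thr 3 43 (.thr 33 18 (.dbl 41 37 60))))) (.nv (.thr 54 50 (.thr 60 61 (.thr 57 51 (.dbl 56 52 59)))) (.nv (.thr 60 61 (.thr 22 2 (.thr 23 20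 (.dbl 3 41 43)))) (.rp 60 (.thr 50 54 (.thr 2 22 (.thr 6 14 (.thr 18 34 (.thr 51 49 (.thr 55 59 (.thr 38 4 (.thr 12 25 (.dbl 3 9 33))))))))) .nd))))) .nd)))))))))) (.rp 37 (.str 22 (.nv (.thr 23 20 (.thr 3 43 (.thr 58 53 (.thr 26 10 (.dbl 18 30 33))))) (.nv (.thr 62 2 (.thr 60 61 (.thr 23 20 (.dbl 3 41 43)))) (.rp 60 (.thr 58 53 (.thr 26 10 (.thr 18 30 (.thr 3 33 (.dbl 23 20 43))))) (.rp 43 (.thr 58 53 (.thr 62 2 (.thr 54 50 (.thr 60 61 (.thr 56 52 (.dbl 57 51 59)))))) (.rp 23 (.thr 58 53 (.thr 62 2 (.thr 54 50 (.thr 60 61 (.thr 56 52 (.dbl 57 51 59)))))) (.rp 20 (.thr 58 53 (.thr 62 2 (.thr 54 50 (.thr 60 61 (.thr 56 52 (.dbl 57 51 59)))))) (.rp 3 (.thr 58 53 (.thr 20 23 (.thr 26 10 (.thr 18 30 (.thr 16 31 (.thr 28 24 (.dbl 19 17 25))))))) .nd)))))))) (.rp 31 (.str 49 (.nv (.thr 51 50 (.thr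 53 58 (.thr 37 5 (.thr 25 13 (.dbl 59 8 55))))) (.nv (.thr 53 58 (.thr 37 5 (.thr 25 13 (.thr 17 29 (.thr 1 33 (.dbl 61 41 57)))))) (.nv (.thr 51 50 (.thr 53 58 (.thr 55 59 (.thr 57 61 (.dbl 54 52 60))))) (.rp 58 (.thr 51 50 (.thr 59 55 (.thr 25 8 (.thr 12 38 (.thr 24 36 (.thr 26 27 (.dbl 37 13 15))))))) (.rp 53 (.thr 51 50 (.thr 59 55 (.thr 25 8 (.thr 12 38 (.thr 24 36 (.thr 26 27 (.dbl 37 13 15))))))) .nd)))))) (.rp 26 (.str 49 (.nv (.thr 51 50 (.thr 53 58 (.thr 37 5 (.thr 25 13 (.dbl 59 8 55))))) (.nv (.thr 53 58 (.thr 37 5 (.thr 25 13 (.thr 17 29 (.thr 1 33 (.dbl 61 41 57)))))) (.nv (.thr 51 50 (.thr 53 58 (.thr 55 59 (.thr 57 61 (.dbl 54 52 60))))) (.rp 58 (.thr 51 50 (.thr 59 55 (.thr 25 8 (.thr 17 29 (.thr 1 33 (.thr 61 41 (.thr 53 57 (.dbl 37 5 13)))))))) (.rp 53 (.thr 51 50 (.thr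 59 55 (.thr 25 8 (.thr 17 29 (.thr 1 33 (.thr 41 61 (.thr 9 57 (.dbl 13 5 37)))))))) .nd)))))) (.rp 15 (.thr 58 53 (.thr 10 26 (.str 56 (.nv (.thr 60 52 (.thr 61 62 (.thr 41 1 (.thr 43 40 (.dbl 3 22 23))))) (.nv (.thr 57 59 (.thr 60 52 (.thr 62 61 (.dbl 54 50 51)))) (.rp 62 (.thr 59 57 (.thr 60 52 (.thr 8 25 (.thr 24 40 (.thr 12 36 (.thr 9 11 (.thr 3 6 (.thr 23 43 (.dbl 22 20 41))))))))) (.rp 61 (.thr 57 59 (.thr 60 52 (.thr 54 51 (.thr 62 50 (.thr 22 2 (.thr 23 20 (.dbl 3 41 43))))))) (.rp 60 (.thr 59 57 (.thr 51 55 (.thr 49 50 (.thr 25 8 (.thr 17 29 (.thr 33 1 (.thr 3 18 (.thr 23 43 (.thr 19 35 (.dbl 22 20 28)))))))))) (.rp 55 (.thr 57 59 (.thr 60 52 (.thr 54 51 (.dbl 62 50 61)))) (.rp 54 (.thr 59 57 (.thr 60 52 (.thr 55 51 (.thr 61 62 (.thr 8 25 (.thr 41 1 (.dbl 40 24 43))))))) (.rp 52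 (.thr 59 57 (.thr 55 51 (.thr 8 25 (.thr 24 40 (.thr 4 38 (.thr 12 36 (.thr 9 11 (.thr 3 6 (.thr 23 43 (.thr 22 20 (.thr 60 41 (.dbl 62 2 61)))))))))))) (.rp 37 (.thr 59 57 (.thr 8 25 (.thr 24 40 (.thr 12 36 (.thr 9 11 (.thr 3 6 (.thr 60 52 (.thr 22 41 (.dbl 23 20 43))))))))) (.rp 22 (.thr 59 57 (.thr 51 55 (.thr 49 50 (.thr 25 8 (.thr 17 29 (.thr 1 33 (.thr 61 41 (.dbl 60 52 62)))))))) (.rp 11 (.str 3 (.nv (.thr 43 23 (.thr 40 41 (.thr 8 24 (.dbl 59 25 57)))) (.nv (.thr 60 52 (.thr 62 61 (.thr 54 50 (.dbl 57 51 59)))) (.nv (.thr 43 23 (.thr 41 40 (.dbl 60 22 52))) (.rp 55 (.thr 23 43 (.thr 22 20 (.dbl 60 41 52))) .nd))))) (.rp 3 (.str 11 (.nv (.thr 57 59 (.thr 60 52 (.thr 54 51 (.dbl 62 50 61)))) (.nv (.thr 59 57 (.dbl 8 9 25)) (.rp 61 (.thr 8 9 (.dbl 59 25 57)) (.rp 59 (.thr 60 52 (.thr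 61 62 (.thr 8 9 (.thr 40 24 (.dbl 41 1 43))))) (.rp 57 (.thr 60 52 (.thr 61 62 (.thr 8 9 (.thr 40 24 (.dbl 41 1 43))))) (.rp 2 (.str 1 (.nv (.thr 8 9 (.dbl 59 25 57)) (.nv (.thr 61 41 (.dbl 60 52 62)) .nd))) (.rp 1 (.str 2 (.nv (.thr 60 52 (.dbl 62 22 61)) (.nv (.thr 59 57 (.dbl 8 9 25)) (.rp 61 (.thr 8 9 (.dbl 59 25 57)) .nd)))) .nd)))))))) .nd))))))))))))))) (.rp 5 (.thr 58 53 (.thr 26 10 (.thr 15 37 (.dbl 31 16 47)))) .nd)))))))))))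

theorem w301 : WinAt (9223376434903384064, 70368744177793) :=
  chF (K := []) kn c301 9223376434903384064 70368744177793 0
    [] (by decide +kernel) (by decide +kernel)

/-- A certificate. -/
noncomputable def c302 : Ct := (.str 60 (.nv (.thr 61 62 (.thr 41 1 (.thr 3 22 (.dbl 43 23 40)))) (.nv (.thr 62 61 (.thr 22 2 (.thr 3 41 (.dbl 23 20 43)))) (.rp 62 (.str 38 (.nv (.thr 46 34 (.thr 12 29 (.thr 44 28 (.thr 41 35 (.thr 43 40 (.dbl 3 22 23)))))) (.nv (.thr 46 34 (.thr 12 29 (.thr 51 25 (.dbl 55 4 59)))) (.rp 51 (.str 12 (.nv (.dbl 46 29 34) (.rp 46 (.thr 44 28 (.thr 41 35 (.thr 43 40 (.dbl 3 22 23)))) (.rp 34 (.str 17 (.nv (.dbl 29 25 46) (.rp 46 (.thr 44 28 (.thr 41 35 (.thr 43 40 (.dbl 3 22 23)))) (.rp 29 (.thr 44 28 (.thr 41 35 (.thr 43 40 (.dbl 3 22 23)))) (.rp 25 (.thr 44 28 (.thr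 41 35 (.thr 43 40 (.dbl 3 22 23)))) .nd))))) (.rp 29 (.thr 44 28 (.thr 41 35 (.thr 43 40 (.dbl 3 22 23)))) (.rp 17 (.thr 34 46 (.thr 44 28 (.thr 41 35 (.thr 43 40 (.dbl 3 22 23))))) .nd)))))) (.rp 46 (.thr 55 4 (.thr 51 59 (.thr 12 25 (.thr 44 28 (.thr 41 35 (.thr 43 40 (.dbl 3 22 23))))))) (.rp 34 (.thr 55 4 (.thr 51 59 (.thr 12 25 (.thr 44 28 (.thr 41 35 (.thr 43 40 (.dbl 3 22 23))))))) (.rp 29 (.thr 55 4 (.thr 51 59 (.thr 12 25 (.thr 44 28 (.thr 41 35 (.thr 43 40 (.dbl 3 22 23))))))) (.rp 17 (.thr 55 4 (.thr 46 34 (.thr 51 59 (.dbl 12 25 29)))) (.rp 12 (.thr 4 55 (.str 23 (.nv (.thr 22 20 (.dbl 3 41 43)) (.rp 43 (.thr 20 22 (.thr 52 36 (.thr 48 56 (.thr 58 53 (.thr 26 10 (.thr 31 16 (.thr 27 19 (.thr 15 37 (.thr 50 14 (.dbl 51 39 49)))))))))) (.rp 41 (.thr 20 22 (.thr 52 36 (.thr 3 43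 (.thr 34 46 (.thr 48 56 (.thr 58 53 (.thr 26 10 (.thr 18 33 (.dbl 50 2 14))))))))) (.rp 22 (.str 36 (.nv (.thr 52 20 (.thr 48 56 (.thr 53 58 (.dbl 37 5 39)))) (.nv (.thr 37 39 (.thr 52 20 (.thr 48 56 (.dbl 53 5 58)))) (.rp 58 (.thr 37 39 (.thr 52 20 (.thr 43 3 (.thr 41 40 (.thr 45 33 (.thr 15 30 (.dbl 48 26 56))))))) (.rp 56 (.thr 37 39 (.thr 53 5 (.thr 43 3 (.thr 41 40 (.thr 45 33 (.thr 15 30 (.dbl 48 26 58))))))) (.rp 53 (.thr 37 39 (.thr 52 20 (.thr 43 3 (.thr 41 40 (.thr 45 33 (.thr 15 30 (.dbl 48 26 56))))))) (.rp 52 (.thr 37 39 (.thr 53 5 (.thr 43 3 (.thr 41 40 (.thr 45 33 (.thr 15 30 (.dbl 48 26 58))))))) (.rp 48 (.thr 37 39 (.thr 5 53 (.thr 43 3 (.thr 41 40 (.thr 1 61 (.thr 33 45 (.thr 49 17 (.dbl 13 9 25)))))))) (.rp 39 (.thr 52 20 (.thr 43 3 (.thr 41 40 (.thr 56 48 (.thr 11 26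 (.thr 59 27 (.thr 25 8 (.dbl 57 9 58)))))))) (.rp 37 (.thr 52 20 (.thr 3 43 (.thr 34 46 (.thr 48 56 (.thr 58 53 (.thr 26 10 (.thr 18 33 (.dbl 50 2 14)))))))) (.rp 20 (.thr 37 39 (.thr 53 5 (.thr 43 3 (.thr 41 40 (.thr 45 33 (.thr 15 30 (.dbl 48 26 58))))))) (.rp 5 (.thr 37 39 (.thr 52 20 (.thr 48 56 (.thr 58 53 (.dbl 26 10 15))))) .nd)))))))))))) (.rp 20 (.thr 3 43 (.thr 41 22 (.thr 35 44 (.thr 19 51 (.thr 31 27 (.thr 26 16 (.thr 58 10 (.thr 48 53 (.dbl 56 11 52))))))))) (.rp 3 (.thr 20 22 (.thr 52 36 (.thr 48 56 (.thr 58 53 (.thr 26 10 (.thr 31 16 (.thr 27 19 (.thr 15 37 (.thr 50 14 (.dbl 51 39 49)))))))))) .nd)))))))) .nd))))))))) (.rp 61 (.str 38 (.nv (.thr 55 4 (.thr 46 34 (.thr 51 59 (.dbl 12 25 29)))) (.nv (.thr 46 34 (.thr 12 29 (.thr 44 28 (.thr 41 35 (.thr 43 40 (.dbl 3 22 23))))))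 (.nv (.thr 46 34 (.thr 12 29 (.thr 51 25 (.dbl 55 4 59)))) (.rp 51 (.str 12 (.nv (.dbl 46 29 34) (.rp 46 (.thr 44 28 (.thr 41 35 (.thr 43 40 (.dbl 3 22 23)))) (.rp 34 (.str 17 (.nv (.dbl 29 25 46) (.rp 46 (.thr 44 28 (.thr 41 35 (.thr 43 40 (.dbl 3 22 23)))) (.rp 29 (.thr 44 28 (.thr 41 35 (.thr 43 40 (.dbl 3 22 23)))) (.rp 25 (.thr 44 28 (.thr 41 35 (.thr 43 40 (.dbl 3 22 23)))) .nd))))) (.rp 29 (.thr 44 28 (.thr 41 35 (.thr 43 40 (.dbl 3 22 23)))) (.rp 17 (.thr 34 46 (.thr 44 28 (.thr 41 35 (.thr 43 40 (.dbl 3 22 23))))) .nd)))))) (.rp 46 (.thr 55 4 (.thr 51 59 (.thr 12 25 (.thr 44 28 (.thr 41 35 (.thr 43 40 (.dbl 3 22 23))))))) (.rp 34 (.thr 55 4 (.thr 51 59 (.thr 12 25 (.thr 44 28 (.thr 41 35 (.thr 43 40 (.dbl 3 22 23))))))) (.rp 29 (.thr 55 4 (.thr 51 59 (.thr 12 25 (.thr 44 28 (.thr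 41 35 (.thr 43 40 (.dbl 3 22 23))))))) (.rp 12 (.thr 4 55 (.str 22 (.nv (.thr 23 20 (.dbl 3 41 43)) (.rp 43 (.thr 6 54 (.thr 2 62 (.thr 14 10 (.thr 34 46 (.dbl 50 18 26))))) (.rp 41 (.thr 6 54 (.thr 2 62 (.thr 14 10 (.thr 34 46 (.dbl 50 18 26))))) (.rp 23 (.str 39 (.nv (.thr 3 41 (.thr 37 36 (.thr 53 5 (.thr 48 58 (.thr 18 33 (.dbl 26 15 30)))))) (.nv (.thr 36 37 (.thr 41 3 (.thr 40 43 (.dbl 44 32 35)))) (.nv (.thr 2 62 (.thr 34 46 (.thr 50 18 (.thr 14 26 (.dbl 6 10 54))))) .nd)))) (.rp 20 (.thr 6 54 (.thr 2 62 (.thr 14 10 (.thr 34 46 (.dbl 50 18 26))))) (.rp 3 (.thr 6 54 (.thr 2 62 (.thr 14 10 (.thr 34 46 (.dbl 50 18 26))))) .nd)))))))) .nd))))))))) (.rp 43 (.thr 62 61 (.str 52 (.nv (.thr 22 2 (.thr 20 23 (.thr 4 36 (.thr 55 38 (.thr 51 59 (.dbl 54 53 57)))))) (.nv (.thr 22 2 (.thr 3 41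 (.thr 48 56 (.thr 58 53 (.thr 26 10 (.dbl 18 30 33)))))) (.nv (.thr 48 56 (.thr 22 2 (.thr 20 23 (.thr 4 36 (.thr 55 38 (.dbl 53 54 58)))))) (.rp 53 (.thr 48 56 (.thr 22 2 (.thr 20 23 (.thr 36 4 (.thr 12 24 (.thr 28 44 (.thr 25 19 (.dbl 29 17 46)))))))) (.rp 39 (.str 35 (.nv (.thr 22 2 (.thr 3 41 (.thr 51 19 (.thr 20 23 (.thr 55 59 (.dbl 4 36 38)))))) (.nv (.thr 22 2 (.thr 48 56 (.thr 58 53 (.thr 26 10 (.thr 15 37 (.dbl 30 18 45)))))) (.nv (.thr 22 2 (.thr 3 41 (.thr 51 19 (.thr 55 59 (.dbl 54 53 57))))) (.rp 55 (.str 23 (.nv (.dbl 22 2 20) (.rp 22 (.thr 48 56 (.thr 58 53 (.thr 50 54 (.thr 26 10 (.thr 31 16 (.thr 19 27 (.dbl 51 3 49))))))) (.rp 20 (.thr 48 56 (.thr 58 53 (.thr 50 54 (.thr 22 2 (.thr 3 41 (.dbl 51 19 49)))))) (.rp 2 (.thr 48 56 (.thr 58 53 (.thr 50 54 (.thr 22 20 (.thr 3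 41 (.dbl 51 19 49)))))) .nd))))) (.rp 23 (.str 55 (.nv (.thr 22 2 (.thr 3 41 (.dbl 51 19 59))) (.nv (.thr 53 54 (.dbl 48 56 58)) .nd))) (.rp 22 (.thr 48 56 (.thr 53 58 (.thr 55 54 (.thr 38 4 (.thr 44 41 (.thr 46 34 (.dbl 12 28 29))))))) (.rp 3 (.thr 48 56 (.thr 58 53 (.thr 26 10 (.thr 15 37 (.thr 30 45 (.dbl 22 2 18)))))) (.rp 2 (.thr 48 56 (.thr 53 58 (.thr 55 54 (.thr 38 4 (.thr 41 44 (.thr 3 22 (.dbl 51 19 59))))))) .nd))))))))) (.rp 35 (.str 39 (.nv (.thr 22 2 (.thr 20 23 (.thr 4 36 (.thr 55 38 (.thr 51 59 (.dbl 54 53 57)))))) (.nv (.thr 22 2 (.thr 20 23 (.thr 36 4 (.thr 38 37 (.thr 48 56 (.thr 12 24 (.dbl 46 29 34))))))) (.nv (.thr 48 56 (.thr 58 53 (.thr 26 10 (.thr 15 37 (.thr 50 54 (.dbl 51 27 49)))))) .nd)))) (.rp 22 (.thr 48 56 (.thr 58 53 (.thr 50 54 (.thr 26 10 (.thr 38 14 (.thr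 55 4 (.dbl 51 49 59))))))) (.rp 3 (.thr 48 56 (.thr 58 53 (.thr 26 10 (.thr 15 37 (.thr 30 45 (.dbl 22 2 18)))))) (.rp 2 (.thr 48 56 (.thr 58 53 (.thr 50 54 (.thr 26 10 (.thr 14 38 (.thr 30 46 (.dbl 15 37 45))))))) .nd))))))))))) (.rp 41 (.str 12 (.nv (.thr 29 46 (.thr 61 62 (.thr 45 13 (.thr 30 15 (.dbl 28 31 44))))) (.nv (.thr 46 29 (.thr 38 34 (.thr 51 25 (.dbl 55 4 59)))) (.rp 46 (.thr 62 61 (.thr 22 2 (.thr 23 20 (.thr 3 43 (.thr 6 9 (.thr 38 54 (.thr 55 4 (.dbl 51 25 59)))))))) (.rp 29 (.thr 28 44 (.thr 62 61 (.thr 22 2 (.thr 25 19 (.thr 59 8 (.dbl 51 38 55)))))) .nd))))) (.rp 23 (.str 55 (.nv (.thr 38 4 (.thr 61 62 (.thr 41 1 (.thr 44 35 (.thr 12 28 (.dbl 46 29 34)))))) (.nv (.thr 51 59 (.thr 54 57 (.thr 53 52 (.thr 58 48 (.dbl 62 50 61))))) (.nv (.thr 51 59 (.thr 38 4 (.thr 12 25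 (.dbl 46 29 34)))) .nd)))) (.rp 22 (.str 37 (.nv (.thr 53 5 (.thr 58 48 (.thr 62 61 (.thr 54 50 (.thr 51 57 (.dbl 55 52 59)))))) (.nv (.thr 5 53 (.thr 61 62 (.thr 1 41 (.thr 13 9 (.thr 25 49 (.dbl 29 17 45)))))) (.rp 62 (.thr 53 5 (.thr 48 58 (.thr 52 56 (.thr 54 55 (.thr 57 51 (.thr 61 49 (.thr 41 1 (.thr 15 26 (.dbl 45 30 33))))))))) (.rp 61 (.thr 53 5 (.thr 48 58 (.thr 52 56 (.thr 55 54 (.thr 59 51 (.thr 25 8 (.thr 13 49 (.thr 15 26 (.thr 12 14 (.dbl 29 17 46)))))))))) (.rp 53 (.thr 61 62 (.thr 41 1 (.thr 45 33 (.thr 29 13 (.thr 12 46 (.thr 28 44 (.dbl 30 15 31))))))) (.rp 5 (.thr 61 62 (.thr 41 1 (.thr 33 45 (.thr 43 40 (.thr 3 23 (.thr 48 18 (.thr 56 52 (.dbl 26 11 15)))))))) .nd))))))) (.rp 3 (.thr 61 62 (.thr 1 41 (.str 25 (.nv (.thr 59 8 (.thr 51 55 (.thr 57 54 (.thr 53 49 (.dbl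 58 48 56))))) (.nv (.thr 59 8 (.thr 29 17 (.thr 51 55 (.dbl 12 38 46)))) (.nv (.thr 17 29 (.thr 49 33 (.thr 37 13 (.dbl 53 5 57)))) (.rp 15 (.str 11 (.nv (.thr 59 8 (.thr 51 55 (.thr 57 54 (.thr 53 49 (.dbl 58 48 56))))) (.nv (.thr 59 8 (.thr 29 17 (.thr 51 55 (.dbl 12 38 46)))) (.nv (.thr 17 29 (.thr 49 33 (.thr 53 57 (.dbl 37 5 13)))) (.rp 10 (.str 5 (.nv (.thr 29 17 (.thr 12 46 (.thr 51 38 (.dbl 59 8 55)))) (.nv (.thr 37 53 (.dbl 13 9 49)) .nd))) (.rp 5 (.str 10 (.nv (.dbl 8 9 59) (.rp 59 (.thr 58 26 (.thr 17 29 (.thr 49 33 (.dbl 53 48 57)))) (.rp 9 (.thr 59 8 (.thr 27 43 (.dbl 26 24 58))) (.rp 8 (.thr 58 26 (.thr 17 29 (.thr 49 33 (.dbl 53 48 57)))) (.rp 6 (.str 4 (.nv (.thr 29 17 (.thr 12 46 (.dbl 38 51 55))) (.nv (.dbl 8 9 59) (.rp 12 (.thr 9 8 (.thr 17 29 (.thr 58 26 (.thr 49 33 (.dbl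 53 48 57))))) (.rp 9 (.str 12 (.nv (.dbl 38 51 55) (.nv (.dbl 29 17 46) .nd))) .nd))))) (.rp 4 (.str 6 (.nv (.dbl 8 9 59) (.rp 59 (.thr 17 29 (.thr 58 26 (.thr 49 33 (.dbl 53 48 57)))) (.rp 9 (.thr 26 58 (.thr 27 24 (.dbl 59 8 43))) (.rp 8 (.str 12 (.nv (.thr 14 2 (.thr 26 58 (.dbl 38 50 51))) (.nv (.dbl 29 17 46) .nd))) .nd))))) .nd))))))) .nd)))))) (.rp 11 (.str 15 (.nv (.thr 29 17 (.thr 59 8 (.thr 51 55 (.dbl 12 38 46)))) (.nv (.thr 45 30 (.dbl 29 13 17)) (.rp 56 (.str 26 (.nv (.thr 29 17 (.dbl 45 13 30)) (.nv (.thr 58 10 (.dbl 48 37 53)) .nd))) (.rp 46 (.thr 29 17 (.dbl 45 13 30)) (.rp 29 (.thr 59 8 (.thr 51 55 (.thr 57 54 (.thr 53 49 (.dbl 58 48 56))))) (.rp 26 (.str 56 (.nv (.thr 48 52 (.thr 58 53 (.dbl 59 8 57))) (.nv (.thr 29 17 (.dbl 45 13 30)) .nd))) (.rp 17 (.thr 45 30 (.thr 13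 29 (.thr 5 9 (.dbl 37 49 53)))) .nd)))))))) .nd)))))))) .nd))))))))))

theorem w302 : WinAt (9223376434903384064, 140737488355457) :=
  chF (K := []) kn c302 9223376434903384064 140737488355457 0
    [] (by decide +kernel) (by decide +kernel)

/-- A certificate. -/
noncomputable def c303 : Ct := (.str 53 (.nv (.thr 23 20 (.thr 30 18 (.thr 31 16 (.thr 19 27 (.dbl 28 25 29))))) (.nv (.thr 16 31 (.thr 18 30 (.thr 19 17 (.thr 28 25 (.dbl 20 23 24))))) (.rp 31 (.thr 30 18 (.thr 62 2 (.thr 46 14 (.thr 37 5 (.thr 47 32 (.thr 45 44 (.thr 60 15 (.dbl 41 3 33)))))))) (.rp 30 (.str 60 (.nv (.thr 2 62 (.thr 3 41 (.thr 0 1 (.dbl 20 23 40)))) (.nv (.thr 20 23 (.thr 40 0 (.dbl 41 3 43))) (.rp 41 (.thr 20 23 (.thr 16 31 (.thr 28 24 (.thr 0 40 (.thr 12 44 (.thr 8 4 (.dbl 25 19 59))))))) (.rp 40 (.thr 37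 5 (.thr 41 3 (.thr 61 1 (.thr 49 57 (.thr 13 25 (.dbl 45 29 33)))))) (.rp 23 (.thr 37 5 (.thr 41 3 (.thr 43 40 (.thr 61 1 (.thr 49 57 (.thr 13 25 (.dbl 45 29 33))))))) (.rp 20 (.thr 37 5 (.thr 41 3 (.thr 61 1 (.thr 49 57 (.thr 13 25 (.dbl 45 29 33)))))) (.rp 3 (.thr 23 20 (.thr 31 16 (.thr 19 27 (.thr 28 25 (.thr 44 12 (.thr 37 5 (.thr 32 47 (.thr 36 40 (.thr 38 39 (.thr 35 41 (.dbl 34 33 46))))))))))) (.rp 0 (.thr 2 62 (.thr 37 5 (.thr 41 3 (.thr 61 1 (.thr 49 57 (.thr 13 25 (.dbl 45 29 33))))))) .nd))))))))) (.rp 29 (.thr 18 30 (.thr 20 23 (.thr 16 31 (.thr 28 24 (.dbl 19 17 25))))) (.rp 28 (.thr 30 18 (.thr 62 2 (.thr 46 14 (.thr 37 5 (.thr 47 32 (.thr 45 44 (.thr 60 15 (.dbl 41 3 33)))))))) (.rp 25 (.thr 30 18 (.thr 62 2 (.thr 46 14 (.thr 37 5 (.thr 47 32 (.thr 45 44 (.thr 60 15 (.dbl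 41 3 33)))))))) (.rp 24 (.thr 30 18 (.thr 23 20 (.thr 31 16 (.thr 28 29 (.dbl 19 25 27))))) (.rp 23 (.thr 30 18 (.thr 62 2 (.thr 46 14 (.thr 37 5 (.thr 47 32 (.thr 45 44 (.thr 60 15 (.dbl 41 3 33)))))))) (.rp 20 (.thr 30 18 (.thr 62 2 (.thr 46 14 (.thr 37 5 (.thr 47 32 (.thr 45 44 (.thr 60 15 (.dbl 41 3 33)))))))) (.rp 19 (.thr 30 18 (.thr 62 2 (.thr 46 14 (.thr 37 5 (.thr 47 32 (.thr 45 44 (.thr 60 15 (.dbl 41 3 33)))))))) (.rp 18 (.str 3 (.nv (.thr 20 23 (.thr 60 41 (.thr 0 40 (.dbl 2 1 62)))) (.nv (.thr 2 62 (.thr 1 0 (.dbl 41 60 61))) (.rp 62 (.thr 37 5 (.thr 41 60 (.thr 61 1 (.thr 49 57 (.thr 45 33 (.dbl 13 25 29)))))) (.rp 60 (.thr 37 5 (.thr 32 47 (.thr 31 16 (.thr 23 20 (.thr 19 27 (.thr 35 51 (.thr 34 33 (.thr 38 46 (.thr 44 41 (.dbl 36 39 40)))))))))) (.rp 41 (.thr 2 62 (.thr 5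 37 (.thr 1 0 (.thr 9 13 (.thr 6 12 (.thr 14 10 (.dbl 38 50 54))))))) (.rp 2 (.thr 37 5 (.thr 41 60 (.thr 61 1 (.thr 49 57 (.thr 45 33 (.dbl 13 25 29)))))) (.rp 1 (.thr 16 31 (.thr 20 23 (.thr 41 60 (.thr 56 11 (.thr 40 43 (.dbl 24 8 28)))))) (.rp 0 (.thr 37 5 (.thr 41 60 (.thr 61 1 (.thr 49 57 (.thr 45 33 (.dbl 13 25 29)))))) .nd))))))))) (.rp 16 (.thr 18 30 (.thr 20 23 (.thr 2 62 (.thr 50 34 (.thr 14 38 (.thr 10 6 (.thr 5 37 (.thr 0 15 (.thr 60 40 (.dbl 3 1 41)))))))))) .nd))))))))))))))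

theorem w303 : WinAt (4398119911424, 9511883887983198336) :=
  chF (K := []) kn c303 4398119911424 9511883887983198336 58
    [] (by decide +kernel) (by decide +kernel)

/-- A certificate. -/
noncomputable def c304 : Ct := (.str 26 (.nv (.thr 20 23 (.thr 18 30 (.thr 16 31 (.thr 19 17 (.dbl 28 24 25))))) (.nv (.thr 58 10 (.thr 62 2 (.thr 50 54 (.thr 14 38 (.dbl 30 18 46))))) (.rp 58 .ext (.rp 30 (.thr 2 62 (.thr 16 31 (.thr 20 23 (.thr 28 24 (.thr 19 25 (.thr 18 17 (.thr 50 34 (.thr 14 38 (.dbl 10 6 58))))))))) (.rp 18 (.thr 58 10 (.thr 62 2 (.thr 50 54 (.thr 14 38 (.thr 30 46 (.thr 31 16 (.thr 23 20 (.thr 19 27 (.dbl 28 25 29))))))))) .nd))))))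

theorem w304 : WinAt (4398052802560, 9223653511831486592) :=
  chF (K := [(4398119911424, 9511883887983198336)]) (kc w303 kn) c304 4398052802560 9223653511831486592 63
    [9520891087237939200] (by decide +kernel) (by decide +kernel)

/-- A certificate. -/
noncomputable def c305 : Ct := (.str 22 (.nv (.thr 20 23 (.thr 2 62 (.thr 0 63 (.thr 3 1 (.dbl 60 40 41))))) (.nv (.thr 23 20 (.thr 63 0 (.thr 3 43 (.thr 62 2 (.dbl 60 41 61))))) (.rp 63 .ext (.rp 62 (.str 19 (.nv (.thr 23 20 (.thr 25 28 (.thr 59 8 (.thr 63 0 (.thr 3 43 (.dbl 51 35 55)))))) (.nv (.thr 0 63 (.thr 25 28 (.thr 8 59 (.thr 12 4 (.thr 51 38 (.dbl 17 29 34)))))) (.nv (.thr 23 20 (.thr 31 27 (.thr 25 28 (.thr 17 29 (.dbl 16 18 26))))) (.rp 28 (.thr 63 0 (.thr 23 20 (.thr 31 27 (.thr 3 43 (.thr 15 47 (.thr 60 41 (.thr 30 45 (.dbl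 26 16 18)))))))) (.rp 25 (.thr 63 0 (.thr 23 20 (.thr 31 27 (.thr 3 43 (.thr 15 47 (.thr 60 41 (.thr 30 45 (.dbl 26 16 18)))))))) .nd)))))) (.rp 61 (.thr 2 62 (.thr 20 23 (.thr 0 63 (.thr 60 40 (.dbl 3 1 41))))) (.rp 60 (.str 28 (.nv (.thr 20 23 (.thr 16 24 (.thr 26 31 (.thr 19 25 (.dbl 18 17 30))))) (.nv (.thr 0 63 (.thr 25 19 (.thr 8 59 (.thr 12 4 (.thr 17 29 (.dbl 51 34 38)))))) (.nv (.thr 19 25 (.thr 23 20 (.thr 31 27 (.thr 26 16 (.dbl 30 18 29))))) (.rp 56 (.str 52 (.nv (.thr 20 23 (.thr 16 24 (.thr 19 25 (.thr 18 17 (.dbl 26 30 31))))) (.nv (.thr 0 63 (.thr 25 19 (.thr 8 59 (.thr 12 4 (.thr 17 29 (.dbl 51 34 38)))))) (.nv (.thr 19 25 (.thr 23 20 (.thr 31 27 (.thr 26 16 (.dbl 30 18 29))))) (.rp 25 (.thr 62 2 (.thr 20 23 (.thr 4 36 (.thr 55 38 (.thr 54 53 (.thr 58 50 (.thr 26 10 (.dbl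 16 24 31)))))))) (.rp 19 (.thr 62 2 (.thr 20 23 (.thr 4 36 (.thr 55 38 (.thr 54 53 (.thr 58 50 (.thr 26 10 (.dbl 16 24 31)))))))) .nd)))))) (.rp 52 (.str 56 (.nv (.thr 19 25 (.thr 20 23 (.thr 16 24 (.thr 18 17 (.dbl 26 30 31))))) (.nv (.thr 0 63 (.thr 25 19 (.thr 8 59 (.thr 17 29 (.thr 51 34 (.dbl 12 4 38)))))) (.nv (.thr 25 19 (.thr 8 59 (.thr 24 40 (.dbl 20 16 23)))) (.rp 25 (.thr 62 2 (.thr 20 23 (.thr 16 24 (.thr 26 31 (.thr 30 18 (.thr 14 46 (.thr 50 38 (.dbl 58 10 54)))))))) (.rp 19 (.thr 0 63 (.thr 20 23 (.thr 24 16 (.thr 8 40 (.thr 12 4 (.thr 25 59 (.thr 17 29 (.dbl 51 34 38)))))))) .nd)))))) (.rp 25 (.thr 62 2 (.thr 20 23 (.thr 16 24 (.thr 26 31 (.thr 58 10 (.thr 50 54 (.thr 14 38 (.dbl 30 18 46)))))))) (.rp 19 (.thr 63 0 (.thr 20 23 (.thr 16 24 (.thr 31 26 (.thr 29 30 (.thr 25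 17 (.thr 12 46 (.thr 59 8 (.dbl 51 38 55))))))))) .nd)))))))) (.rp 41 (.str 19 (.nv (.thr 0 63 (.thr 2 62 (.thr 3 1 (.thr 25 28 (.thr 8 59 (.thr 12 4 (.dbl 51 35 38))))))) (.nv (.thr 23 20 (.thr 31 27 (.thr 25 28 (.thr 17 29 (.dbl 16 18 26))))) (.rp 28 (.thr 2 62 (.thr 0 63 (.thr 3 1 (.thr 51 35 (.thr 34 17 (.thr 38 46 (.thr 6 54 (.dbl 12 9 25)))))))) (.rp 25 (.thr 2 62 (.thr 0 63 (.thr 3 1 (.thr 51 35 (.thr 17 34 (.thr 16 18 (.thr 31 26 (.dbl 23 20 27)))))))) .nd))))) (.rp 40 (.thr 62 2 (.thr 63 0 (.thr 23 20 (.thr 60 61 (.dbl 3 41 43))))) (.rp 23 (.str 55 (.nv (.thr 38 4 (.thr 62 2 (.thr 63 0 (.thr 51 59 (.thr 60 61 (.dbl 54 6 57)))))) (.nv (.thr 63 0 (.thr 51 59 (.thr 38 4 (.thr 12 25 (.dbl 46 29 34))))) (.nv (.thr 2 62 (.thr 38 4 (.thr 6 54 (.thr 14 10 (.thr 34 46 (.dbl 50 18 26))))))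 (.rp 38 (.thr 62 2 (.thr 63 0 (.thr 59 51 (.thr 25 8 (.thr 28 19 (.thr 60 61 (.thr 12 44 (.dbl 29 17 46)))))))) (.rp 6 (.thr 62 2 (.thr 63 0 (.thr 51 59 (.thr 60 61 (.thr 3 41 (.thr 19 35 (.thr 25 28 (.dbl 38 4 12)))))))) (.rp 4 (.thr 62 2 (.thr 63 0 (.thr 51 59 (.thr 60 61 (.thr 3 41 (.thr 19 35 (.thr 25 28 (.thr 29 17 (.dbl 12 38 46))))))))) .nd))))))) (.rp 20 (.str 55 (.nv (.thr 63 0 (.thr 51 59 (.thr 38 4 (.thr 12 25 (.dbl 46 29 34))))) (.nv (.thr 62 2 (.thr 63 0 (.thr 51 59 (.thr 60 61 (.thr 54 57 (.dbl 38 4 6)))))) (.nv (.thr 2 62 (.thr 38 4 (.thr 6 54 (.thr 14 10 (.thr 34 46 (.dbl 50 18 26)))))) (.rp 38 (.thr 62 2 (.thr 63 0 (.thr 59 51 (.thr 25 8 (.thr 28 19 (.thr 60 61 (.thr 12 44 (.dbl 29 17 46)))))))) (.rp 6 (.thr 62 2 (.thr 63 0 (.thr 51 59 (.thr 60 61 (.thr 3 41 (.thr 19 35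 (.thr 25 28 (.dbl 38 4 12)))))))) (.rp 4 (.thr 62 2 (.thr 63 0 (.thr 51 59 (.thr 60 61 (.thr 3 41 (.thr 19 35 (.thr 25 28 (.thr 29 17 (.dbl 12 38 46))))))))) .nd))))))) (.rp 3 (.str 25 (.nv (.thr 0 63 (.thr 8 59 (.thr 12 4 (.thr 28 19 (.thr 60 44 (.dbl 20 23 40)))))) (.nv (.thr 0 63 (.thr 8 59 (.thr 12 4 (.thr 17 29 (.dbl 51 34 38))))) (.nv (.thr 17 29 (.thr 23 20 (.thr 19 28 (.thr 31 27 (.dbl 16 18 26))))) (.rp 33 (.str 18 (.nv (.thr 19 28 (.thr 23 20 (.thr 26 30 (.dbl 31 16 27)))) (.nv (.thr 0 63 (.thr 2 62 (.thr 17 29 (.dbl 34 50 51)))) (.nv (.thr 19 28 (.dbl 17 16 29)) (.rp 15 (.str 11 (.nv (.thr 26 30 (.thr 8 59 (.dbl 10 9 58))) (.nv (.thr 17 29 (.dbl 19 16 28)) (.rp 26 (.str 37 (.nv (.thr 5 53 (.thr 8 59 (.thr 9 10 (.dbl 13 1 49)))) (.nv (.thr 17 29 (.dbl 19 16 28)) .nd))) .nd))))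 (.rp 11 (.str 15 (.nv (.thr 0 63 (.thr 10 5 (.dbl 26 30 58))) (.nv (.thr 17 29 (.dbl 19 16 28)) .nd))) .nd)))))) (.rp 23 (.thr 29 17 (.thr 63 0 (.thr 59 8 (.thr 12 46 (.dbl 51 38 55))))) (.rp 18 (.str 33 (.nv (.thr 20 23 (.thr 28 19 (.thr 16 24 (.thr 29 17 (.dbl 31 26 30))))) (.nv (.thr 17 29 (.thr 1 49 (.thr 61 41 (.thr 62 2 (.dbl 63 0 60))))) (.rp 63 (.thr 23 20 (.thr 19 28 (.thr 17 29 (.thr 1 49 (.thr 41 61 (.thr 43 40 (.thr 59 8 (.dbl 27 11 31)))))))) (.rp 51 (.thr 23 20 (.thr 19 28 (.thr 17 29 (.thr 31 27 (.thr 49 1 (.thr 37 13 (.thr 47 32 (.dbl 63 0 15)))))))) (.rp 29 (.thr 28 19 (.thr 0 63 (.thr 8 59 (.thr 12 4 (.thr 60 44 (.dbl 20 23 40)))))) (.rp 17 (.thr 20 23 (.thr 28 19 (.thr 16 24 (.thr 31 26 (.thr 30 29 (.thr 63 0 (.thr 15 47 (.thr 60 45 (.dbl 62 2 61))))))))) (.rp 15 (.str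 11 (.nv (.thr 17 29 (.thr 1 49 (.thr 61 41 (.thr 62 2 (.dbl 63 0 60))))) (.nv (.thr 59 8 (.thr 27 43 (.thr 23 20 (.dbl 19 28 31)))) (.rp 37 (.str 26 (.nv (.thr 17 29 (.thr 1 49 (.dbl 41 56 61))) (.nv (.thr 59 8 (.dbl 27 24 43)) .nd))) (.rp 26 (.str 37 (.nv (.thr 8 59 (.thr 9 10 (.dbl 41 45 57))) (.nv (.thr 17 29 (.dbl 49 1 13)) .nd))) .nd))))) (.rp 11 (.str 15 (.nv (.thr 17 29 (.thr 1 49 (.thr 61 41 (.thr 62 2 (.dbl 63 0 60))))) (.nv (.thr 23 20 (.thr 19 28 (.thr 31 27 (.dbl 63 0 47)))) (.rp 63 (.thr 17 29 (.thr 8 59 (.thr 49 1 (.thr 13 37 (.thr 12 14 (.thr 0 4 (.dbl 51 34 38))))))) (.rp 0 (.thr 29 17 (.thr 20 23 (.thr 28 19 (.thr 16 24 (.dbl 31 26 30))))) .nd))))) .nd))))))))) (.rp 15 (.str 11 (.nv (.thr 17 29 (.thr 19 28 (.thr 23 20 (.thr 31 27 (.dbl 16 18 26))))) (.nv (.thr 29 17 (.thr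 59 8 (.thr 63 0 (.thr 12 46 (.dbl 51 38 55))))) (.nv (.thr 19 28 (.thr 59 8 (.thr 27 43 (.dbl 23 20 31)))) (.rp 37 (.str 26 (.nv (.thr 18 30 (.thr 16 31 (.dbl 17 19 29))) (.nv (.thr 8 59 (.dbl 10 9 58)) (.rp 18 (.str 33 (.nv (.thr 17 29 (.thr 1 49 (.dbl 41 56 61))) (.nv (.thr 59 8 (.dbl 27 24 43)) .nd))) .nd)))) (.rp 33 (.str 18 (.nv (.thr 26 30 (.thr 8 59 (.dbl 10 9 58))) (.nv (.thr 17 29 (.dbl 19 16 28)) (.rp 26 (.str 37 (.nv (.thr 5 53 (.thr 8 59 (.thr 9 10 (.dbl 13 1 49)))) (.nv (.thr 17 29 (.dbl 19 16 28)) .nd))) .nd)))) (.rp 26 (.str 37 (.nv (.thr 5 53 (.thr 13 49 (.thr 1 9 (.thr 29 17 (.dbl 61 41 45))))) (.nv (.thr 19 28 (.thr 59 8 (.thr 27 43 (.dbl 23 20 31)))) (.rp 33 (.str 18 (.nv (.thr 5 53 (.thr 8 59 (.thr 9 10 (.dbl 13 1 49)))) (.nv (.thr 17 29 (.dbl 19 16 28)) .nd))) (.rp 18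 (.str 33 (.nv (.thr 8 59 (.thr 9 10 (.dbl 41 45 57))) (.nv (.thr 17 29 (.dbl 49 1 13)) .nd))) .nd))))) (.rp 18 (.str 33 (.nv (.thr 17 29 (.thr 1 49 (.thr 61 41 (.thr 62 2 (.dbl 63 0 60))))) (.nv (.thr 59 8 (.thr 27 43 (.thr 23 20 (.dbl 19 28 31)))) (.rp 37 (.str 26 (.nv (.thr 17 29 (.thr 1 49 (.dbl 41 56 61))) (.nv (.thr 59 8 (.dbl 27 24 43)) .nd))) (.rp 26 (.str 37 (.nv (.thr 8 59 (.thr 9 10 (.dbl 41 45 57))) (.nv (.thr 17 29 (.dbl 49 1 13)) .nd))) .nd))))) .nd)))))))) (.rp 11 (.str 15 (.nv (.thr 17 29 (.thr 19 28 (.thr 23 20 (.thr 31 27 (.dbl 16 18 26))))) (.nv (.thr 0 63 (.thr 2 62 (.thr 8 59 (.thr 12 4 (.thr 14 13 (.dbl 10 5 6)))))) (.nv (.thr 29 17 (.thr 28 19 (.thr 31 30 (.dbl 63 0 47)))) (.rp 33 (.str 18 (.nv (.thr 0 63 (.thr 10 5 (.dbl 26 30 58))) (.nv (.thr 17 29 (.dbl 19 16 28))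 .nd))) (.rp 18 (.str 33 (.nv (.thr 17 29 (.thr 1 49 (.thr 61 41 (.thr 62 2 (.dbl 63 0 60))))) (.nv (.thr 23 20 (.thr 19 28 (.thr 31 27 (.dbl 63 0 47)))) (.rp 63 (.thr 17 29 (.thr 8 59 (.thr 49 1 (.thr 13 37 (.thr 12 14 (.thr 0 4 (.dbl 51 34 38))))))) (.rp 0 (.thr 29 17 (.thr 20 23 (.thr 28 19 (.thr 16 24 (.dbl 31 26 30))))) .nd))))) .nd)))))) .nd))))))))) (.rp 2 (.str 19 (.nv (.thr 23 20 (.thr 25 28 (.thr 59 8 (.thr 63 0 (.thr 3 43 (.dbl 51 35 55)))))) (.nv (.thr 0 63 (.thr 25 28 (.thr 8 59 (.thr 12 4 (.thr 51 38 (.dbl 17 29 34)))))) (.nv (.thr 23 20 (.thr 31 27 (.thr 25 28 (.thr 17 29 (.dbl 16 18 26))))) (.rp 28 (.thr 63 0 (.thr 23 20 (.thr 31 27 (.thr 3 43 (.thr 15 47 (.thr 60 41 (.thr 30 45 (.dbl 26 16 18)))))))) (.rp 25 (.thr 63 0 (.thr 23 20 (.thr 31 27 (.thr 3 43 (.thr 15 47 (.thr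 60 41 (.thr 30 45 (.dbl 26 16 18)))))))) .nd)))))) (.rp 0 (.str 28 (.nv (.thr 20 23 (.thr 16 24 (.thr 26 31 (.thr 19 25 (.dbl 18 17 30))))) (.nv (.thr 19 25 (.thr 23 20 (.thr 31 27 (.thr 30 29 (.dbl 26 16 18))))) (.rp 32 (.str 16 (.nv (.thr 19 25 (.thr 18 17 (.dbl 26 30 31))) (.nv (.dbl 20 23 24) .nd))) (.rp 31 (.thr 2 62 (.thr 20 23 (.thr 16 24 (.thr 19 25 (.thr 18 17 (.thr 26 30 (.thr 10 58 (.thr 14 6 (.dbl 50 34 38))))))))) (.rp 30 (.thr 2 62 (.thr 20 23 (.thr 16 24 (.thr 26 31 (.thr 10 58 (.thr 14 6 (.thr 50 38 (.thr 18 34 (.dbl 19 17 25))))))))) (.rp 26 (.thr 62 2 (.thr 25 19 (.thr 29 17 (.thr 30 31 (.thr 46 14 (.thr 12 63 (.dbl 38 34 51))))))) (.rp 25 (.thr 62 2 (.thr 20 23 (.thr 16 24 (.thr 26 31 (.thr 58 10 (.thr 50 54 (.thr 14 38 (.dbl 30 18 46)))))))) (.rp 24 (.thr 62 2 (.thr 25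 19 (.thr 29 17 (.thr 30 31 (.thr 46 14 (.thr 12 63 (.dbl 38 34 51))))))) (.rp 23 (.thr 25 19 (.thr 29 17 (.thr 31 30 (.thr 16 26 (.thr 24 20 (.thr 8 59 (.thr 40 56 (.thr 41 43 (.thr 57 9 (.thr 61 1 (.thr 13 45 (.dbl 49 37 53)))))))))))) (.rp 20 (.thr 62 2 (.thr 25 19 (.thr 29 17 (.thr 30 31 (.thr 46 14 (.thr 12 63 (.dbl 38 34 51))))))) (.rp 19 (.str 16 (.nv (.dbl 20 23 24) (.rp 24 (.thr 62 2 (.thr 26 31 (.thr 30 18 (.thr 14 46 (.thr 50 38 (.dbl 58 10 54)))))) (.rp 23 (.thr 24 20 (.thr 62 2 (.thr 26 31 (.thr 27 25 (.thr 30 18 (.thr 14 46 (.thr 50 38 (.dbl 58 10 54)))))))) (.rp 20 (.thr 62 2 (.thr 26 31 (.thr 30 18 (.thr 14 46 (.thr 50 38 (.dbl 58 10 54)))))) .nd))))) (.rp 18 (.thr 20 23 (.thr 16 24 (.thr 31 26 (.thr 29 30 (.dbl 25 17 19))))) (.rp 16 (.str 32 (.nv (.thr 25 19 (.thr 17 29 (.thr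 37 47 (.thr 53 5 (.thr 49 13 (.thr 61 57 (.dbl 1 33 41))))))) (.nv (.thr 25 19 (.thr 17 29 (.thr 37 47 (.thr 49 13 (.thr 1 33 (.thr 61 41 (.dbl 53 5 57))))))) (.rp 61 (.thr 62 2 (.thr 23 20 (.thr 19 25 (.thr 31 27 (.thr 30 29 (.thr 26 18 (.thr 14 46 (.thr 50 38 (.dbl 58 10 54))))))))) (.rp 57 (.thr 62 2 (.thr 23 20 (.thr 19 25 (.thr 31 27 (.thr 30 29 (.thr 26 18 (.thr 14 46 (.thr 50 38 (.dbl 58 10 54))))))))) (.rp 53 (.thr 62 2 (.thr 23 20 (.thr 19 25 (.thr 31 27 (.thr 30 29 (.thr 26 18 (.thr 14 46 (.thr 50 38 (.dbl 58 10 54))))))))) (.rp 49 (.thr 62 2 (.thr 23 20 (.thr 19 25 (.thr 31 27 (.thr 30 29 (.thr 26 18 (.thr 14 46 (.thr 50 38 (.dbl 58 10 54))))))))) (.rp 47 (.thr 62 2 (.thr 23 20 (.thr 19 25 (.thr 31 27 (.thr 30 29 (.thr 26 18 (.thr 14 46 (.thr 50 38 (.dbl 58 10 54))))))))) (.rp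 41 (.thr 62 2 (.thr 23 20 (.thr 19 25 (.thr 31 27 (.thr 30 29 (.thr 26 18 (.thr 14 46 (.thr 50 38 (.dbl 58 10 54))))))))) (.rp 37 (.thr 62 2 (.thr 23 20 (.thr 19 25 (.thr 31 27 (.thr 30 29 (.thr 26 18 (.thr 14 46 (.thr 50 38 (.dbl 58 10 54))))))))) (.rp 33 (.thr 25 19 (.thr 37 47 (.thr 13 49 (.thr 5 53 (.thr 1 9 (.thr 61 41 (.dbl 29 17 45))))))) (.rp 29 (.thr 62 2 (.thr 25 19 (.thr 37 47 (.thr 49 13 (.thr 53 5 (.thr 61 57 (.thr 60 63 (.dbl 41 1 3)))))))) (.rp 25 (.str 60 (.nv (.thr 37 47 (.thr 44 12 (.thr 36 40 (.thr 38 39 (.dbl 41 3 35))))) (.nv (.thr 62 2 (.thr 61 63 (.dbl 41 1 3))) (.rp 41 (.thr 44 12 (.thr 36 40 (.thr 20 23 (.thr 4 52 (.thr 37 47 (.dbl 38 39 55)))))) (.rp 3 (.thr 44 12 (.thr 36 40 (.thr 20 23 (.thr 4 52 (.thr 37 47 (.dbl 38 39 55)))))) .nd))))) (.rp 19 (.str 18 (.nv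 (.thr 2 62 (.thr 34 50 (.thr 35 33 (.thr 47 37 (.thr 43 39 (.thr 41 40 (.dbl 38 44 46))))))) (.nv (.thr 2 62 (.thr 50 34 (.thr 26 30 (.thr 14 38 (.dbl 10 6 58))))) (.rp 62 (.thr 30 26 (.thr 29 31 (.thr 25 17 (.thr 37 47 (.thr 13 49 (.thr 61 45 (.thr 5 53 (.dbl 1 9 41)))))))) (.rp 58 (.thr 30 26 (.thr 62 2 (.thr 46 14 (.thr 29 31 (.thr 63 12 (.thr 60 61 (.thr 23 20 (.dbl 3 41 43)))))))) (.rp 51 (.thr 26 30 (.thr 10 58 (.thr 2 62 (.thr 14 6 (.dbl 50 34 38))))) (.rp 50 (.thr 30 26 (.thr 62 2 (.thr 46 14 (.thr 38 34 (.thr 29 31 (.thr 12 63 (.dbl 25 17 51))))))) (.rp 38 (.thr 30 26 (.thr 62 2 (.thr 31 29 (.thr 47 37 (.thr 15 63 (.thr 45 60 (.dbl 46 14 44))))))) (.rp 34 (.thr 30 26 (.thr 62 2 (.thr 46 14 (.thr 29 31 (.thr 12 63 (.thr 44 60 (.dbl 47 37 45))))))) (.rp 26 (.thr 2 62 (.thr 34 50 (.thr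 38 46 (.thr 37 47 (.thr 36 39 (.thr 44 40 (.dbl 35 33 41))))))) (.rp 2 (.thr 30 26 (.thr 29 31 (.thr 25 17 (.thr 37 47 (.thr 13 49 (.thr 61 45 (.thr 5 53 (.dbl 1 9 41)))))))) .nd))))))))))) (.rp 17 (.thr 62 2 (.thr 23 20 (.thr 19 25 (.thr 31 27 (.thr 30 29 (.thr 26 18 (.thr 14 46 (.thr 50 38 (.dbl 58 10 54))))))))) (.rp 13 (.thr 62 2 (.thr 23 20 (.thr 19 25 (.thr 31 27 (.thr 30 29 (.thr 26 18 (.thr 14 46 (.thr 50 38 (.dbl 58 10 54))))))))) (.rp 5 (.thr 62 2 (.thr 23 20 (.thr 19 25 (.thr 31 27 (.thr 30 29 (.thr 26 18 (.thr 14 46 (.thr 50 38 (.dbl 58 10 54))))))))) (.rp 1 (.thr 23 20 (.thr 19 25 (.thr 31 27 (.thr 30 29 (.thr 26 18 (.thr 47 37 (.thr 63 15 (.thr 62 2 (.thr 3 43 (.dbl 60 41 61)))))))))) .nd)))))))))))))))))) .nd)))))))))))))) .nd))))))))))))))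

theorem w305 : WinAt (4398048608256, 281474976710784) :=
  chF (K := [(4398052802560, 9223653511831486592)]) (kc w304 kn) c305 4398048608256 281474976710784 48
    [] (by decide +kernel) (by decide +kernel)

/-- A certificate. -/
noncomputable def c306 : Ct := (.str 3 (.nv (.thr 1 2 (.thr 41 61 (.thr 60 22 (.dbl 40 20 43)))) (.nv (.thr 2 1 (.thr 22 62 (.thr 60 41 (.dbl 20 23 40)))) (.rp 60 (.thr 1 2 (.thr 61 41 (.str 13 (.nv (.thr 9 5 (.thr 12 6 (.thr 4 8 (.thr 38 55 (.thr 34 46 (.dbl 51 17 25)))))) (.nv (.thr 5 9 (.thr 37 53 (.thr 32 47 (.thr 48 16 (.dbl 15 10 26))))) (.rp 25 (.thr 9 5 (.thr 12 6 (.thr 4 8 (.thr 14 15 (.thr 38 55 (.thr 46 34 (.thr 29 45 (.thr 30 62 (.thr 31 28 (.dbl 26 16 50)))))))))) (.rp 10 (.thr 9 5 (.thr 29 45 (.thr 25 17 (.thr 8 59 (.dbl 12 4 6))))) (.rp 9 (.thr 29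 45 (.thr 25 17 (.thr 8 59 (.thr 12 4 (.thr 15 14 (.thr 51 38 (.thr 27 39 (.thr 26 24 (.dbl 10 5 58))))))))) (.rp 5 (.thr 29 45 (.thr 25 17 (.thr 8 59 (.thr 12 4 (.thr 6 9 (.thr 15 14 (.thr 51 38 (.thr 27 39 (.thr 26 24 (.thr 31 16 (.dbl 19 23 35))))))))))) .nd))))))))) (.rp 41 (.str 17 (.nv (.thr 2 1 (.thr 34 51 (.thr 18 50 (.thr 48 33 (.dbl 16 19 32))))) (.nv (.thr 51 34 (.thr 25 29 (.thr 8 59 (.dbl 12 4 38)))) (.rp 59 (.thr 51 34 (.thr 19 35 (.thr 2 1 (.thr 25 29 (.dbl 22 28 62))))) (.rp 51 (.thr 2 1 (.thr 25 29 (.thr 22 62 (.thr 23 20 (.thr 19 28 (.thr 16 18 (.dbl 31 26 27))))))) (.rp 34 (.thr 1 2 (.thr 25 29 (.thr 8 59 (.thr 12 4 (.thr 9 6 (.thr 5 13 (.dbl 10 11 15))))))) .nd)))))) (.rp 40 (.str 51 (.nv (.thr 1 2 (.thr 35 19 (.thr 41 61 (.thr 38 44 (.thr 4 55 (.dbl 12 8 25)))))) (.nv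 (.thr 2 1 (.thr 35 19 (.thr 34 17 (.thr 33 32 (.dbl 18 48 50))))) (.nv (.thr 17 34 (.thr 25 29 (.thr 12 38 (.dbl 8 4 59)))) .nd)))) (.rp 22 (.str 37 (.nv (.thr 1 2 (.thr 5 53 (.thr 9 13 (.thr 12 6 (.thr 8 4 (.dbl 10 11 15)))))) (.nv (.thr 1 2 (.thr 32 47 (.thr 48 16 (.thr 33 18 (.dbl 41 45 61))))) (.nv (.thr 5 53 (.thr 15 10 (.thr 32 47 (.dbl 48 16 26)))) (.rp 61 (.thr 32 47 (.thr 48 16 (.thr 15 26 (.dbl 5 10 53)))) (.rp 48 (.thr 1 2 (.thr 47 32 (.thr 41 61 (.thr 45 33 (.thr 44 46 (.thr 35 38 (.dbl 43 39 40))))))) (.rp 15 (.thr 1 2 (.thr 41 61 (.thr 33 45 (.thr 48 18 (.dbl 32 16 47))))) .nd))))))) (.rp 20 (.str 51 (.nv (.thr 1 2 (.thr 35 19 (.thr 41 61 (.thr 38 44 (.thr 4 55 (.dbl 12 8 25)))))) (.nv (.thr 2 1 (.thr 35 19 (.thr 34 17 (.thr 33 32 (.dbl 18 48 50))))) (.nv (.thr 17 34 (.thr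 25 29 (.thr 12 38 (.dbl 8 4 59)))) .nd)))) (.rp 2 (.str 16 (.nv (.thr 26 31 (.thr 48 32 (.thr 18 33 (.thr 22 30 (.thr 20 23 (.dbl 60 40 41)))))) (.nv (.thr 48 32 (.thr 26 31 (.thr 10 58 (.dbl 15 5 37)))) (.rp 48 (.str 51 (.nv (.thr 34 17 (.thr 38 46 (.thr 4 55 (.dbl 12 8 25)))) (.nv (.thr 19 35 (.dbl 17 18 34)) (.rp 58 (.str 53 (.nv (.thr 34 17 (.thr 38 46 (.thr 4 55 (.dbl 12 8 25)))) (.nv (.thr 19 35 (.dbl 17 18 34)) (.rp 34 (.thr 19 35 (.thr 5 37 (.thr 31 26 (.thr 15 10 (.dbl 27 23 39))))) (.rp 17 (.thr 19 35 (.thr 5 37 (.thr 31 26 (.thr 15 10 (.dbl 27 23 39))))) .nd))))) (.rp 53 (.str 58 (.nv (.thr 17 34 (.dbl 19 18 35)) (.nv (.dbl 26 10 31) (.rp 61 (.str 57 (.nv (.thr 60 54 (.thr 17 34 (.dbl 19 18 35))) (.nv (.dbl 26 10 31) (.rp 60 (.str 62 (.nv (.thr 56 59 (.thr 17 34 (.dbl 19 18 35)))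 (.nv (.dbl 26 10 31) (.rp 56 (.str 52 (.nv (.thr 17 34 (.dbl 19 18 35)) (.nv (.dbl 26 10 31) .nd))) .nd)))) .nd)))) (.rp 57 (.str 61 (.nv (.thr 17 34 (.dbl 19 18 35)) (.nv (.dbl 26 10 31) .nd))) .nd))))) (.rp 34 (.thr 19 35 (.thr 18 17 (.thr 26 31 (.thr 22 30 (.thr 20 23 (.dbl 60 40 41)))))) (.rp 17 (.thr 19 35 (.thr 31 26 (.thr 23 27 (.thr 22 20 (.thr 25 28 (.thr 8 59 (.dbl 12 4 38))))))) .nd))))))) (.rp 47 (.thr 48 32 (.thr 26 31 (.thr 15 37 (.dbl 10 5 58)))) (.rp 32 (.thr 26 31 (.thr 10 58 (.thr 15 5 (.thr 48 37 (.thr 18 33 (.thr 22 30 (.thr 20 23 (.dbl 60 40 41)))))))) (.rp 31 (.thr 48 32 (.thr 18 33 (.thr 17 19 (.thr 25 29 (.thr 8 59 (.thr 12 4 (.dbl 51 34 38))))))) (.rp 26 (.thr 48 32 (.thr 18 33 (.thr 17 19 (.thr 25 29 (.thr 8 59 (.thr 12 4 (.dbl 51 34 38))))))) (.rp 15 (.thr 48 32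 (.thr 18 33 (.thr 17 19 (.thr 25 29 (.thr 8 59 (.thr 12 4 (.dbl 51 34 38))))))) .nd))))))))) (.rp 1 (.str 51 (.nv (.thr 17 34 (.thr 19 35 (.thr 25 29 (.thr 22 28 (.thr 20 23 (.dbl 60 40 41)))))) (.nv (.thr 17 34 (.thr 25 29 (.thr 12 38 (.dbl 8 4 59)))) (.rp 34 (.str 17 (.nv (.thr 19 35 (.thr 25 29 (.thr 22 28 (.thr 20 23 (.dbl 60 40 41))))) (.nv (.thr 25 29 (.thr 12 38 (.dbl 8 4 59))) (.rp 29 (.thr 19 35 (.thr 16 18 (.thr 26 31 (.thr 10 58 (.thr 15 5 (.dbl 48 32 37)))))) (.rp 25 (.thr 19 35 (.thr 16 18 (.thr 26 31 (.thr 10 58 (.thr 15 5 (.dbl 48 32 37)))))) (.rp 12 (.thr 19 35 (.thr 16 18 (.thr 26 31 (.thr 10 58 (.thr 15 5 (.dbl 48 32 37)))))) .nd)))))) (.rp 29 (.thr 35 19 (.thr 34 17 (.thr 33 32 (.thr 38 46 (.thr 12 25 (.dbl 4 8 55)))))) (.rp 25 (.thr 35 19 (.thr 34 17 (.thr 33 32 (.thr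 38 46 (.thr 41 44 (.thr 40 43 (.dbl 60 20 22))))))) (.rp 17 (.str 33 (.nv (.thr 48 18 (.thr 16 32 (.thr 26 31 (.thr 10 58 (.dbl 15 5 37))))) (.nv (.thr 35 19 (.thr 32 34 (.dbl 48 16 18))) (.rp 48 (.thr 35 19 (.thr 34 32 (.thr 38 46 (.thr 4 55 (.dbl 12 8 25))))) (.rp 32 (.str 34 (.nv (.thr 18 48 (.thr 2 50 (.thr 22 62 (.thr 60 41 (.dbl 20 23 40))))) (.nv (.thr 38 46 (.thr 12 25 (.dbl 4 8 55))) .nd))) (.rp 18 (.str 16 (.nv (.thr 26 31 (.thr 10 58 (.thr 15 5 (.dbl 48 32 37)))) (.nv (.thr 35 19 (.dbl 32 34 48)) (.rp 48 (.thr 35 19 (.thr 34 32 (.thr 38 46 (.thr 4 55 (.dbl 12 8 25))))) (.rp 32 (.thr 19 35 (.thr 31 26 (.thr 23 27 (.thr 22 20 (.thr 25 28 (.thr 8 59 (.dbl 12 4 38))))))) .nd))))) (.rp 16 (.thr 35 19 (.thr 18 48 (.thr 34 32 (.thr 38 46 (.thr 4 55 (.dbl 12 8 25)))))) .nd))))))) (.rp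 12 (.thr 19 35 (.thr 17 34 (.thr 16 18 (.thr 26 31 (.thr 10 58 (.thr 15 5 (.dbl 48 32 37))))))) .nd)))))))) .nd))))))))))

theorem w306 : WinAt (4398048608257, 9223934986808197248) :=
  chF (K := []) kn c306 4398048608257 9223934986808197248 63
    [] (by decide +kernel) (by decide +kernel)

/-- A certificate. -/
noncomputable def c307 : Ct := (.str 1 (.nv (.thr 2 62 (.thr 3 0 (.dbl 41 60 61))) (.rp 62 (.thr 19 27 (.thr 25 28 (.thr 29 17 (.thr 61 41 (.thr 13 45 (.thr 5 9 (.dbl 37 49 53))))))) (.rp 61 (.str 3 (.nv (.dbl 2 0 62) (.rp 62 (.thr 60 41 (.thr 19 27 (.thr 25 28 (.thr 17 29 (.thr 33 49 (.dbl 18 16 48)))))) (.rp 60 (.thr 62 2 (.thr 19 27 (.thr 25 28 (.thr 17 29 (.thr 33 49 (.dbl 18 16 48)))))) (.rp 59 (.str 55 (.nv (.dbl 2 0 62) (.rp 62 (.thr 60 41 (.thr 19 27 (.thr 0 2 (.thr 4 38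 (.thr 12 8 (.dbl 28 25 44)))))) (.rp 60 (.thr 62 2 (.thr 19 27 (.thr 38 4 (.thr 46 34 (.thr 30 14 (.dbl 28 25 29)))))) (.rp 2 (.thr 19 27 (.thr 25 28 (.thr 17 29 (.thr 33 49 (.dbl 18 16 48))))) (.rp 0 (.thr 19 27 (.thr 25 28 (.thr 17 29 (.thr 33 49 (.dbl 18 16 48))))) .nd)))))) (.rp 55 (.str 59 (.nv (.thr 60 41 (.thr 19 27 (.dbl 25 8 28))) (.nv (.dbl 2 0 62) (.rp 60 (.thr 62 2 (.thr 19 27 (.dbl 25 8 28))) .nd)))) (.rp 2 (.thr 19 27 (.thr 25 28 (.thr 17 29 (.thr 33 49 (.dbl 18 16 48))))) (.rp 0 (.thr 19 27 (.thr 25 28 (.thr 17 29 (.thr 33 49 (.dbl 18 16 48))))) .nd)))))))) (.rp 60 (.thr 19 27 (.thr 25 28 (.thr 29 17 (.thr 61 41 (.thr 13 45 (.thr 5 9 (.dbl 37 49 53))))))) (.rp 59 (.str 55 (.nv (.thr 2 62 (.thr 3 0 (.dbl 41 60 61))) (.rp 62 (.thr 19 27 (.thr 41 61 (.thr 60 3 (.thr 38 4 (.thr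 44 35 (.dbl 28 12 25)))))) (.rp 61 (.thr 19 27 (.thr 62 2 (.thr 38 4 (.thr 46 34 (.thr 30 14 (.dbl 28 25 29)))))) (.rp 60 (.thr 19 27 (.thr 62 2 (.thr 38 4 (.thr 46 34 (.thr 30 14 (.dbl 28 25 29)))))) (.rp 41 (.thr 19 27 (.thr 62 2 (.thr 38 4 (.thr 46 34 (.thr 30 14 (.dbl 28 25 29)))))) (.rp 40 (.thr 19 27 (.thr 62 2 (.thr 38 4 (.thr 46 34 (.thr 30 14 (.dbl 28 25 29)))))) (.rp 34 (.thr 19 27 (.thr 2 62 (.thr 25 28 (.thr 17 29 (.thr 3 0 (.dbl 41 60 61)))))) (.rp 17 (.thr 2 62 (.thr 38 4 (.thr 34 46 (.thr 3 0 (.dbl 41 60 61))))) (.rp 3 (.thr 19 27 (.thr 62 2 (.thr 38 4 (.thr 46 34 (.thr 30 14 (.dbl 28 25 29)))))) (.rp 2 (.thr 19 27 (.thr 41 61 (.thr 38 4 (.thr 44 35 (.thr 60 3 (.dbl 28 12 25)))))) (.rp 0 (.thr 19 27 (.thr 41 61 (.thr 38 4 (.thr 44 35 (.thr 60 3 (.dbl 28 12 25)))))) .nd))))))))))))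 (.rp 55 (.str 59 (.nv (.thr 2 62 (.thr 3 0 (.dbl 41 60 61))) (.nv (.thr 25 8 (.dbl 19 27 28)) .nd))) (.rp 41 (.thr 19 27 (.thr 25 28 (.thr 17 29 (.thr 2 62 (.thr 3 0 (.thr 33 49 (.dbl 18 16 48))))))) (.rp 40 (.thr 19 27 (.thr 25 28 (.thr 29 17 (.thr 61 41 (.thr 13 45 (.thr 5 9 (.dbl 37 49 53))))))) (.rp 34 (.thr 19 27 (.thr 25 28 (.thr 17 29 (.thr 2 62 (.thr 3 0 (.dbl 41 60 61)))))) (.rp 17 (.thr 19 27 (.thr 25 28 (.thr 59 8 (.thr 62 2 (.thr 41 61 (.thr 40 43 (.thr 57 9 (.thr 58 56 (.thr 54 50 (.thr 38 6 (.thr 44 35 (.thr 32 36 (.thr 47 37 (.dbl 46 34 45)))))))))))))) (.rp 3 (.thr 19 27 (.thr 25 28 (.thr 29 17 (.thr 61 41 (.thr 13 45 (.thr 5 9 (.dbl 37 49 53))))))) (.rp 2 (.thr 19 27 (.thr 25 28 (.thr 29 17 (.thr 61 41 (.thr 13 45 (.thr 5 9 (.dbl 37 49 53))))))) (.rp 0 (.thr 19 27 (.thr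 25 28 (.thr 17 29 (.thr 41 61 (.thr 9 57 (.thr 13 5 (.dbl 49 33 37))))))) .nd))))))))))))))

theorem w307 : WinAt (4400208674816, 9225623836736618624) :=
  chF (K := []) kn c307 4400208674816 9225623836736618624 26
    [9838113385990848512] (by decide +kernel) (by decide +kernel)

/-- A certificate. -/
noncomputable def c308 : Ct := (.str 31 (.nv (.thr 2 62 (.thr 26 16 (.thr 10 58 (.thr 14 6 (.thr 18 30 (.dbl 50 34 38)))))) (.nv (.thr 19 27 (.thr 25 28 (.thr 16 26 (.dbl 17 18 29)))) (.rp 59 (.str 55 (.nv (.thr 2 62 (.thr 38 4 (.thr 6 54 (.thr 10 14 (.dbl 26 16 58))))) (.nv (.thr 16 26 (.thr 19 27 (.thr 25 28 (.dbl 17 18 29)))) (.rp 26 (.thr 19 27 (.thr 62 2 (.thr 38 4 (.thr 46 34 (.thr 30 14 (.dbl 28 25 29)))))) (.rp 16 (.thr 19 27 (.thr 62 2 (.thr 38 4 (.thr 46 34 (.thr 30 14 (.dbl 28 25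 29)))))) .nd))))) (.rp 55 (.str 59 (.nv (.thr 25 8 (.thr 29 17 (.thr 30 28 (.dbl 26 16 18)))) (.nv (.thr 25 8 (.dbl 19 27 28)) (.rp 28 (.thr 27 19 (.thr 25 8 (.dbl 26 16 24))) (.rp 25 (.thr 27 19 (.thr 11 43 (.thr 26 16 (.thr 58 10 (.dbl 56 41 57))))) (.rp 8 (.thr 19 27 (.thr 26 16 (.thr 30 18 (.dbl 28 25 29)))) .nd)))))) (.rp 28 (.thr 27 19 (.thr 2 62 (.thr 26 16 (.thr 24 25 (.thr 18 30 (.thr 50 34 (.thr 10 58 (.dbl 14 6 38)))))))) (.rp 26 .ext (.rp 18 (.thr 19 27 (.thr 62 2 (.thr 26 16 (.thr 58 10 (.thr 50 54 (.thr 14 38 (.thr 30 46 (.dbl 28 25 29)))))))) (.rp 16 (.thr 19 27 (.thr 62 2 (.thr 28 25 (.thr 30 29 (.thr 26 18 (.thr 58 10 (.thr 50 54 (.dbl 14 38 46)))))))) .nd)))))))))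

theorem w308 : WinAt (4398061191168, 9225623836669509760) :=
  chF (K := [(4400208674816, 9225623836736618624)]) (kc w307 kn) c308 4398061191168 9225623836669509760 20
    [9838113385990848512] (by decide +kernel) (by decide +kernel)

/-- A certificate. -/
noncomputable def c309 : Ct := (.thr 23 20 .ext)

theorem w309 : WinAt (4398052802560, 9225623836668461184) :=
  chF (K := [(4398061191168, 9225623836669509760)]) (kc w308 kn) c309 4398052802560 9225623836668461184 63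
    [9838113385990848512] (by decide +kernel) (by decide +kernel)

/-- A certificate. -/
noncomputable def c310 : Ct := (.str 22 (.nv (.thr 20 23 (.thr 2 62 (.thr 0 63 (.thr 3 1 (.dbl 60 40 41))))) (.nv (.thr 23 20 (.thr 63 0 (.thr 3 43 (.thr 62 2 (.dbl 60 41 61))))) (.rp 63 .ext (.rp 62 (.str 19 (.nv (.thr 23 20 (.thr 25 28 (.thr 59 8 (.thr 63 0 (.thr 43 3 (.dbl 27 11 31)))))) (.nv (.thr 25 28 (.thr 17 29 (.thr 16 18 (.thr 23 20 (.dbl 31 26 27))))) (.rp 31 (.thr 0 63 (.thr 20 23 (.thr 28 25 (.thr 16 24 (.thr 18 17 (.thr 48 32 (.thr 3 33 (.dbl 60 40 41)))))))) (.rp 28 (.thr 63 0 (.thr 23 20 (.thr 31 27 (.thr 3 43 (.thr 15 47 (.thr 60 41 (.thr 30 45 (.dbl 26 16 18)))))))) (.rp 27 (.thr 20 23 (.thr 28 25 (.thr 16 24 (.thr 26 31 (.dbl 18 17 30))))) (.rp 25 (.thr 63 0 (.thr 23 20 (.thr 31 27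 (.thr 15 47 (.thr 26 16 (.thr 58 10 (.dbl 48 37 53))))))) (.rp 23 (.thr 0 63 (.thr 25 28 (.thr 17 29 (.thr 16 18 (.thr 32 48 (.thr 37 47 (.thr 53 5 (.thr 49 13 (.thr 61 57 (.dbl 1 33 41)))))))))) (.rp 20 (.thr 0 63 (.thr 25 28 (.thr 17 29 (.thr 16 18 (.thr 32 48 (.thr 37 47 (.thr 53 5 (.thr 49 13 (.thr 61 57 (.dbl 1 33 41)))))))))) (.rp 17 (.thr 23 20 (.thr 31 27 (.thr 26 16 (.thr 30 18 (.dbl 28 25 29))))) (.rp 16 (.thr 63 0 (.thr 23 20 (.thr 27 31 (.thr 43 3 (.thr 25 28 (.thr 24 26 (.dbl 59 8 11))))))) .nd))))))))))) (.rp 61 (.thr 2 62 (.thr 20 23 (.thr 0 63 (.thr 60 40 (.dbl 3 1 41))))) (.rp 60 (.str 28 (.nv (.thr 19 25 (.thr 23 20 (.thr 31 27 (.thr 26 16 (.dbl 30 18 29))))) (.nv (.thr 0 63 (.thr 20 23 (.thr 16 24 (.thr 26 31 (.thr 10 58 (.thr 15 5 (.dbl 48 32 37))))))) (.nv (.thr 20 23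 (.thr 16 24 (.thr 26 31 (.thr 19 25 (.dbl 18 17 30))))) (.rp 57 (.str 54 (.nv (.thr 20 23 (.thr 16 24 (.thr 19 25 (.thr 18 17 (.dbl 26 30 31))))) (.nv (.thr 38 6 (.thr 46 34 (.thr 62 2 (.thr 14 30 (.dbl 50 26 58))))) (.nv (.thr 20 23 (.thr 16 24 (.thr 62 2 (.thr 26 31 (.dbl 58 10 50))))) (.rp 26 (.thr 38 6 (.thr 62 2 (.thr 25 19 (.thr 29 17 (.thr 30 31 (.dbl 46 14 34)))))) .nd))))) (.rp 54 (.str 57 (.nv (.thr 0 63 (.thr 20 23 (.thr 16 24 (.thr 26 31 (.thr 10 58 (.thr 15 5 (.dbl 48 32 37))))))) (.nv (.thr 0 63 (.thr 25 19 (.thr 29 17 (.thr 41 9 (.thr 61 1 (.thr 49 53 (.dbl 13 37 45))))))) (.nv (.thr 19 25 (.thr 20 23 (.thr 16 24 (.thr 26 31 (.dbl 18 17 30))))) (.rp 55 (.thr 25 19 (.thr 29 17 (.thr 31 30 (.thr 16 26 (.dbl 20 23 24))))) (.rp 19 (.thr 20 23 (.thr 16 24 (.thr 31 26 (.thr 29 30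 (.thr 25 17 (.thr 41 9 (.thr 61 1 (.thr 49 53 (.dbl 13 37 45))))))))) (.rp 16 (.thr 25 19 (.thr 59 8 (.thr 56 58 (.thr 41 9 (.thr 43 40 (.dbl 11 26 27)))))) .nd))))))) (.rp 39 (.thr 25 19 (.thr 29 17 (.thr 31 30 (.thr 16 26 (.dbl 20 23 24))))) (.rp 31 (.thr 0 63 (.thr 20 23 (.thr 16 24 (.thr 48 32 (.thr 19 25 (.thr 18 17 (.thr 3 33 (.dbl 2 1 62)))))))) (.rp 26 (.thr 62 2 (.thr 25 19 (.thr 29 17 (.thr 30 31 (.thr 46 14 (.dbl 63 0 12)))))) (.rp 23 (.thr 0 63 (.thr 25 19 (.thr 29 17 (.thr 31 30 (.thr 16 26 (.thr 24 20 (.thr 48 32 (.thr 12 36 (.dbl 8 4 59))))))))) (.rp 20 (.thr 62 2 (.thr 25 19 (.thr 29 17 (.thr 30 31 (.thr 46 14 (.dbl 63 0 12)))))) (.rp 19 (.thr 63 0 (.thr 20 23 (.thr 16 24 (.thr 31 26 (.thr 29 30 (.thr 46 12 (.thr 47 15 (.thr 45 44 (.thr 13 61 (.thr 37 32 (.dbl 25 17 49)))))))))))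 (.rp 16 (.thr 62 2 (.thr 23 20 (.thr 19 25 (.thr 31 27 (.thr 30 29 (.thr 14 46 (.thr 26 18 (.thr 58 10 (.dbl 50 38 54))))))))) .nd))))))))))))) (.rp 41 (.str 19 (.nv (.thr 23 20 (.thr 25 28 (.thr 59 8 (.thr 63 0 (.thr 43 3 (.dbl 27 11 31)))))) (.nv (.thr 25 28 (.thr 17 29 (.thr 16 18 (.thr 23 20 (.dbl 31 26 27))))) (.rp 31 (.thr 2 62 (.thr 0 63 (.thr 3 1 (.thr 20 23 (.thr 28 25 (.thr 16 24 (.thr 18 17 (.dbl 48 32 33)))))))) (.rp 28 (.thr 2 62 (.thr 0 63 (.thr 3 1 (.thr 23 20 (.thr 31 27 (.thr 16 26 (.thr 18 17 (.dbl 48 32 33)))))))) (.rp 27 (.thr 20 23 (.thr 28 25 (.thr 16 24 (.thr 26 31 (.dbl 18 17 30))))) (.rp 25 (.thr 63 0 (.thr 23 20 (.thr 31 27 (.thr 15 47 (.thr 26 16 (.thr 58 10 (.dbl 48 37 53))))))) (.rp 23 (.thr 2 62 (.thr 0 63 (.thr 25 28 (.thr 17 29 (.thr 16 18 (.thr 32 48 (.thr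 37 47 (.thr 49 13 (.dbl 1 3 33))))))))) (.rp 20 (.thr 2 62 (.thr 0 63 (.thr 1 3 (.thr 25 28 (.thr 17 29 (.thr 49 33 (.thr 37 13 (.thr 32 47 (.dbl 16 18 48))))))))) (.rp 17 (.thr 23 20 (.thr 31 27 (.thr 26 16 (.thr 30 18 (.dbl 28 25 29))))) (.rp 16 (.thr 63 0 (.thr 23 20 (.thr 27 31 (.thr 43 3 (.thr 25 28 (.thr 24 26 (.dbl 59 8 11))))))) .nd))))))))))) (.rp 40 (.thr 62 2 (.thr 63 0 (.thr 23 20 (.thr 60 61 (.dbl 3 41 43))))) (.rp 23 (.str 55 (.nv (.thr 2 62 (.thr 38 4 (.thr 6 54 (.thr 14 10 (.thr 34 46 (.dbl 50 18 26)))))) (.nv (.thr 2 62 (.thr 38 4 (.thr 34 46 (.thr 50 18 (.thr 14 26 (.dbl 6 10 54)))))) (.rp 62 (.thr 0 63 (.thr 4 38 (.thr 8 12 (.thr 25 59 (.thr 29 17 (.thr 28 19 (.thr 31 30 (.thr 16 26 (.thr 32 48 (.thr 20 24 (.thr 36 52 (.dbl 40 44 60)))))))))))) (.rp 54 (.thr 2 62 (.thr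 0 63 (.thr 3 1 (.thr 4 38 (.thr 12 8 (.thr 60 41 (.thr 20 40 (.thr 36 52 (.thr 24 48 (.dbl 28 16 44)))))))))) (.rp 50 (.thr 62 2 (.thr 63 0 (.thr 38 4 (.thr 6 54 (.thr 60 61 (.thr 3 41 (.thr 12 9 (.dbl 46 29 34)))))))) (.rp 46 (.thr 2 62 (.thr 0 63 (.thr 3 1 (.thr 4 38 (.thr 12 8 (.thr 60 41 (.thr 20 40 (.thr 36 52 (.thr 24 48 (.dbl 28 16 44)))))))))) (.rp 38 (.thr 2 62 (.thr 0 63 (.thr 3 1 (.thr 60 41 (.thr 20 40 (.str 25 (.nv (.thr 29 17 (.thr 28 19 (.thr 31 30 (.dbl 16 24 26)))) (.nv (.thr 28 19 (.thr 8 59 (.dbl 12 4 44))) (.rp 44 (.str 35 (.nv (.thr 28 19 (.thr 16 24 (.thr 31 26 (.dbl 29 17 30)))) (.nv (.thr 17 29 (.thr 19 28 (.thr 18 16 (.thr 33 48 (.dbl 34 32 50))))) (.nv (.thr 28 19 (.thr 16 24 (.thr 29 17 (.dbl 31 26 30)))) (.rp 36 (.str 32 (.nv (.thr 37 47 (.thr 16 48 (.dbl 28 19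 24))) (.nv (.thr 33 34 (.dbl 48 16 18)) (.rp 48 (.thr 34 33 (.thr 19 28 (.thr 17 29 (.dbl 18 16 50)))) (.rp 37 (.str 39 (.nv (.thr 28 19 (.dbl 16 24 48)) (.nv (.thr 33 34 (.dbl 48 16 18)) (.rp 48 (.thr 19 28 (.thr 17 29 (.thr 18 16 (.dbl 34 33 50)))) (.rp 33 (.str 45 (.nv (.thr 17 29 (.thr 30 15 (.thr 26 18 (.dbl 16 31 48)))) (.nv (.thr 28 19 (.dbl 16 24 48)) (.rp 48 (.thr 17 29 (.thr 19 28 (.thr 18 16 (.dbl 30 15 26)))) (.rp 31 (.thr 16 48 (.dbl 28 19 24)) (.rp 17 (.str 49 (.nv (.thr 30 15 (.thr 26 18 (.dbl 16 31 48))) (.nv (.thr 28 19 (.dbl 16 24 48)) (.rp 48 (.thr 28 19 (.thr 30 15 (.thr 26 18 (.dbl 16 24 31)))) (.rp 31 (.thr 16 48 (.dbl 28 19 24)) (.rp 16 (.thr 8 59 (.thr 15 30 (.thr 10 5 (.thr 9 11 (.dbl 6 12 14))))) .nd)))))) (.rp 16 (.thr 28 19 (.thr 30 15 (.dbl 29 17 31))) .nd)))))))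 (.rp 16 (.thr 33 34 (.thr 18 48 (.thr 28 19 (.thr 29 17 (.dbl 30 26 31))))) .nd)))))) (.rp 16 (.thr 33 34 (.thr 48 18 (.thr 52 56 (.thr 53 54 (.dbl 37 5 47))))) .nd)))))) (.rp 32 (.str 36 (.nv (.thr 28 19 (.thr 29 17 (.thr 31 30 (.dbl 16 24 26)))) (.nv (.thr 8 59 (.dbl 4 12 52)) .nd))) (.rp 31 (.thr 8 59 (.thr 12 4 (.thr 6 9 (.thr 10 14 (.thr 26 58 (.thr 30 18 (.dbl 15 5 45))))))) (.rp 30 (.thr 8 59 (.thr 28 19 (.thr 16 24 (.thr 32 48 (.thr 37 47 (.thr 53 5 (.thr 52 54 (.dbl 4 12 36)))))))) (.rp 29 (.thr 8 59 (.thr 28 19 (.thr 16 24 (.thr 12 4 (.thr 6 9 (.thr 10 14 (.dbl 26 31 58))))))) (.rp 28 (.thr 8 59 (.thr 12 4 (.thr 6 9 (.thr 10 14 (.thr 26 58 (.thr 30 18 (.dbl 15 5 45))))))) (.rp 19 (.thr 8 59 (.thr 12 4 (.thr 6 9 (.thr 10 14 (.thr 26 58 (.thr 30 18 (.dbl 15 5 45))))))) (.rp 17 (.thr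 8 59 (.thr 28 19 (.thr 16 24 (.thr 12 4 (.thr 6 9 (.thr 10 14 (.dbl 26 31 58))))))) (.rp 16 (.thr 8 59 (.thr 12 4 (.thr 6 9 (.thr 10 14 (.thr 26 58 (.thr 30 18 (.dbl 15 5 45))))))) .nd))))))))))))) (.rp 35 (.str 44 (.nv (.dbl 28 12 19) (.rp 28 (.thr 8 59 (.thr 4 12 (.thr 52 36 (.thr 53 54 (.thr 37 5 (.thr 48 56 (.dbl 32 16 47))))))) (.rp 19 (.thr 8 59 (.dbl 12 4 28)) (.rp 12 (.thr 28 19 (.thr 16 24 (.thr 29 17 (.dbl 31 26 30)))) .nd))))) (.rp 31 (.thr 8 59 (.thr 12 4 (.dbl 28 19 44))) (.rp 28 (.thr 8 59 (.thr 12 4 (.thr 6 9 (.thr 10 14 (.thr 26 58 (.thr 30 18 (.dbl 15 5 45))))))) (.rp 19 (.thr 8 59 (.thr 12 4 (.thr 6 9 (.thr 10 14 (.thr 26 58 (.thr 30 18 (.dbl 15 5 45))))))) .nd))))))))))))) (.rp 34 (.thr 2 62 (.thr 0 63 (.thr 3 1 (.thr 38 4 (.thr 6 54 (.thr 10 14 (.thr 15 5 (.thr 60 41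 (.thr 30 45 (.dbl 26 18 58)))))))))) (.rp 26 (.thr 62 2 (.thr 63 0 (.thr 38 4 (.thr 6 54 (.thr 60 61 (.thr 3 41 (.thr 12 9 (.dbl 46 29 34)))))))) (.rp 18 (.thr 62 2 (.thr 63 0 (.thr 38 4 (.thr 6 54 (.thr 60 61 (.thr 3 41 (.thr 12 9 (.dbl 46 29 34)))))))) (.rp 14 (.thr 62 2 (.thr 63 0 (.thr 38 4 (.thr 6 54 (.thr 60 61 (.thr 3 41 (.thr 12 9 (.dbl 46 29 34)))))))) (.rp 10 (.thr 62 2 (.thr 38 4 (.thr 46 34 (.thr 14 30 (.thr 50 26 (.dbl 54 6 58)))))) (.rp 6 (.thr 2 62 (.thr 0 63 (.thr 3 1 (.thr 4 38 (.thr 12 8 (.thr 60 41 (.thr 20 40 (.thr 36 52 (.thr 24 48 (.dbl 28 16 44)))))))))) (.rp 4 (.str 6 (.nv (.thr 0 63 (.thr 2 62 (.thr 10 14 (.thr 5 15 (.thr 53 37 (.dbl 54 38 52)))))) (.nv (.thr 54 38 (.thr 53 52 (.thr 62 2 (.thr 63 0 (.dbl 58 48 50))))) (.nv (.thr 2 62 (.thr 14 10 (.thr 38 54 (.thr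 50 26 (.dbl 34 18 46))))) (.rp 62 (.thr 54 38 (.thr 63 0 (.thr 53 52 (.thr 37 5 (.thr 47 32 (.thr 15 31 (.dbl 48 26 58))))))) (.rp 54 (.thr 2 62 (.thr 10 14 (.thr 0 63 (.thr 3 1 (.thr 15 5 (.thr 60 41 (.thr 30 45 (.dbl 26 18 58)))))))) (.rp 38 (.thr 2 62 (.thr 10 14 (.thr 26 58 (.thr 0 63 (.thr 15 5 (.thr 16 31 (.dbl 48 32 37))))))) (.rp 2 (.thr 54 38 (.thr 63 0 (.thr 53 52 (.thr 37 5 (.thr 47 32 (.thr 15 31 (.dbl 48 26 58))))))) .nd)))))))) (.rp 2 (.thr 0 63 (.thr 4 38 (.thr 8 12 (.thr 25 59 (.thr 29 17 (.thr 28 19 (.thr 31 30 (.thr 16 26 (.thr 32 48 (.thr 20 24 (.thr 36 52 (.dbl 40 44 60)))))))))))) .nd)))))))))))))))) (.rp 20 (.str 31 (.nv (.thr 62 2 (.thr 63 0 (.thr 15 47 (.thr 60 61 (.thr 30 45 (.dbl 26 16 18)))))) (.nv (.thr 2 62 (.thr 26 16 (.thr 10 58 (.thr 14 6 (.thr 18 30 (.dbl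 50 34 38)))))) (.nv (.thr 63 0 (.thr 15 47 (.thr 26 16 (.thr 48 37 (.dbl 58 10 53))))) (.rp 34 (.thr 62 2 (.thr 26 16 (.thr 58 10 (.thr 30 18 (.thr 50 54 (.dbl 14 38 46)))))) (.rp 26 (.thr 62 2 (.thr 63 0 (.thr 15 47 (.thr 60 61 (.thr 30 45 (.thr 46 14 (.dbl 29 12 28))))))) (.rp 16 (.thr 62 2 (.thr 63 0 (.thr 15 47 (.thr 60 61 (.thr 30 45 (.thr 46 14 (.dbl 29 12 28))))))) .nd))))))) (.rp 3 (.str 19 (.nv (.thr 20 23 (.thr 28 25 (.thr 16 24 (.thr 26 31 (.dbl 18 17 30))))) (.nv (.thr 23 20 (.thr 31 27 (.thr 16 26 (.thr 25 28 (.dbl 17 18 29))))) (.rp 39 (.thr 23 20 (.thr 25 28 (.thr 17 29 (.thr 16 18 (.dbl 31 26 27))))) (.rp 31 (.thr 2 62 (.thr 20 23 (.thr 28 25 (.thr 16 24 (.thr 18 17 (.thr 26 30 (.thr 10 58 (.thr 14 6 (.dbl 50 34 38))))))))) (.rp 28 (.thr 2 62 (.str 18 (.nv (.thr 23 20 (.thr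 31 27 (.dbl 16 17 26))) (.nv (.thr 26 30 (.thr 10 58 (.thr 14 6 (.dbl 50 34 38)))) (.nv (.thr 16 17 (.dbl 26 30 31)) (.rp 31 (.thr 34 50 (.thr 46 38 (.thr 63 0 (.thr 17 16 (.dbl 29 12 25))))) (.rp 26 (.thr 34 50 (.thr 63 0 (.thr 17 16 (.thr 29 25 (.dbl 46 12 38))))) (.rp 15 (.str 11 (.nv (.thr 0 63 (.thr 16 17 (.thr 23 20 (.dbl 31 26 27)))) (.nv (.thr 26 30 (.thr 10 58 (.thr 14 6 (.dbl 50 34 38)))) (.nv (.thr 16 17 (.dbl 26 30 31)) (.rp 39 (.str 27 (.nv (.thr 43 59 (.thr 41 40 (.dbl 26 30 56))) (.nv (.dbl 23 20 31) (.rp 23 (.str 55 (.nv (.thr 63 0 (.thr 34 50 (.dbl 38 4 46))) (.nv (.thr 43 59 (.thr 41 40 (.dbl 26 30 56))) .nd))) .nd)))) (.rp 31 (.thr 34 50 (.thr 46 38 (.thr 63 0 (.thr 17 16 (.dbl 29 12 25))))) (.rp 27 (.str 39 (.nv (.thr 26 30 (.thr 10 58 (.thr 14 6 (.dbl 50 34 38)))) (.nv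 (.thr 16 17 (.dbl 26 30 31)) (.rp 34 (.thr 26 30 (.dbl 16 17 31)) (.rp 31 (.thr 34 50 (.thr 38 46 (.thr 4 55 (.thr 20 23 (.dbl 36 37 52))))) (.rp 30 (.thr 34 50 (.thr 46 38 (.thr 63 0 (.thr 17 16 (.dbl 29 12 25))))) (.rp 26 (.thr 34 50 (.thr 38 46 (.thr 4 55 (.thr 20 23 (.dbl 36 37 52))))) .nd))))))) (.rp 26 (.thr 34 50 (.thr 63 0 (.thr 17 16 (.thr 29 25 (.dbl 46 12 38))))) .nd)))))))) (.rp 11 (.str 15 (.nv (.thr 23 20 (.thr 31 27 (.dbl 63 0 47))) (.nv (.thr 0 63 (.thr 10 5 (.dbl 26 30 58))) (.nv (.thr 16 17 (.dbl 26 30 31)) (.rp 0 (.thr 26 30 (.dbl 16 17 31)) .nd))))) .nd))))))))) (.rp 26 (.thr 25 28 (.thr 59 8 (.str 11 (.nv (.thr 27 43 (.dbl 23 20 31)) (.rp 43 (.str 47 (.nv (.thr 17 29 (.thr 16 18 (.thr 32 37 (.dbl 0 48 63)))) (.nv (.thr 23 20 (.thr 31 27 (.dbl 63 0 15))) (.rp 63 (.thr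 23 20 (.thr 29 17 (.thr 37 32 (.thr 5 53 (.thr 13 49 (.thr 1 9 (.dbl 61 41 45))))))) (.rp 31 (.thr 62 2 (.thr 29 17 (.thr 37 32 (.thr 13 49 (.thr 61 45 (.dbl 63 0 60)))))) (.rp 23 (.thr 63 0 (.thr 15 31 (.thr 37 32 (.thr 13 49 (.thr 12 14 (.dbl 29 17 46)))))) (.rp 16 (.thr 63 0 (.thr 31 15 (.dbl 23 20 27))) (.rp 15 (.thr 17 29 (.thr 0 63 (.thr 23 20 (.thr 16 18 (.dbl 32 37 48))))) (.rp 0 (.thr 17 29 (.thr 37 32 (.thr 53 5 (.thr 49 13 (.thr 1 33 (.dbl 61 41 57)))))) .nd))))))))) (.rp 31 (.thr 43 27 (.thr 0 63 (.thr 20 23 (.dbl 40 41 60)))) (.rp 27 (.str 37 (.nv (.thr 5 53 (.thr 13 49 (.thr 1 9 (.thr 61 41 (.dbl 29 17 45))))) (.nv (.thr 17 29 (.thr 16 18 (.thr 32 47 (.dbl 0 48 63)))) (.rp 48 (.thr 17 29 (.thr 53 5 (.thr 49 13 (.thr 61 57 (.dbl 1 33 41))))) (.rp 39 (.str 15 (.nv (.thr 23 20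 (.thr 47 32 (.dbl 63 0 31))) (.nv (.thr 5 53 (.dbl 0 10 63)) (.rp 63 (.thr 5 53 (.thr 29 17 (.thr 13 49 (.thr 61 45 (.dbl 1 9 41))))) (.rp 23 (.str 55 (.nv (.thr 63 0 (.dbl 47 31 32)) (.nv (.thr 5 53 (.dbl 0 10 63)) (.rp 63 (.str 43 (.nv (.thr 13 49 (.thr 29 17 (.thr 41 40 (.dbl 45 33 61)))) (.nv (.thr 53 5 (.thr 54 52 (.dbl 38 4 6))) .nd))) (.rp 0 (.thr 53 5 (.thr 54 52 (.dbl 38 4 6))) .nd))))) (.rp 0 (.thr 5 53 (.thr 13 49 (.thr 1 9 (.thr 61 41 (.dbl 29 17 45))))) .nd)))))) (.rp 29 (.thr 53 5 (.thr 49 13 (.thr 61 57 (.thr 62 2 (.dbl 63 0 60))))) (.rp 17 (.thr 53 5 (.thr 49 13 (.thr 57 61 (.thr 58 56 (.dbl 63 0 48))))) (.rp 15 (.str 39 (.nv (.thr 0 63 (.thr 47 32 (.thr 20 23 (.thr 43 35 (.dbl 40 41 60))))) (.nv (.thr 5 53 (.thr 13 49 (.thr 1 9 (.thr 61 41 (.dbl 29 17 45))))) (.nv (.thr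 17 29 (.thr 16 18 (.thr 32 47 (.dbl 0 48 63)))) .nd)))) .nd)))))))) (.rp 23 (.thr 43 27 (.thr 29 17 (.thr 41 40 (.thr 61 1 (.thr 13 45 (.thr 57 9 (.dbl 49 37 53))))))) (.rp 20 (.thr 43 27 (.thr 29 17 (.thr 41 40 (.thr 61 1 (.thr 13 45 (.thr 57 9 (.dbl 49 37 53))))))) .nd))))))))) (.rp 25 (.thr 63 0 (.thr 23 20 (.thr 31 27 (.thr 15 47 (.thr 26 16 (.thr 58 10 (.dbl 48 37 53))))))) (.rp 23 (.thr 25 28 (.thr 2 62 (.thr 63 0 (.str 15 (.nv (.thr 31 47 (.thr 26 16 (.thr 48 37 (.dbl 58 10 53)))) (.nv (.thr 17 29 (.thr 31 47 (.dbl 16 18 26))) (.rp 55 (.str 39 (.nv (.thr 31 47 (.thr 26 16 (.thr 48 37 (.dbl 58 10 53)))) (.nv (.thr 17 29 (.thr 31 47 (.dbl 16 18 26))) (.rp 47 (.thr 17 29 (.thr 18 16 (.thr 34 50 (.thr 38 46 (.thr 37 36 (.dbl 26 30 48)))))) (.rp 31 (.str 18 (.nv (.thr 29 17 (.thr 34 50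 (.dbl 46 12 38))) (.nv (.dbl 17 16 29) (.rp 29 (.thr 30 26 (.thr 34 50 (.thr 38 46 (.thr 37 36 (.thr 32 47 (.thr 33 35 (.dbl 45 41 60))))))) (.rp 17 (.thr 34 50 (.thr 38 46 (.thr 37 36 (.dbl 26 30 48)))) .nd))))) (.rp 26 (.thr 47 31 (.thr 37 32 (.thr 13 49 (.thr 12 14 (.dbl 29 17 46))))) (.rp 17 (.str 34 (.nv (.thr 50 18 (.thr 38 46 (.thr 14 26 (.dbl 6 10 54)))) (.nv (.thr 47 31 (.thr 35 43 (.dbl 32 33 37))) (.rp 33 (.thr 31 47 (.thr 18 50 (.dbl 26 16 30))) .nd)))) (.rp 16 (.thr 47 31 (.thr 37 32 (.thr 48 26 (.dbl 53 5 58)))) .nd)))))))) (.rp 47 (.thr 17 29 (.thr 8 59 (.str 26 (.nv (.thr 48 37 (.dbl 58 10 53)) (.nv (.dbl 18 16 30) (.rp 55 (.str 39 (.nv (.thr 48 37 (.dbl 58 10 53)) (.nv (.dbl 18 16 30) (.rp 31 (.thr 30 18 (.thr 58 10 (.dbl 48 37 53))) (.rp 30 (.thr 31 16 (.thr 58 10 (.dbl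 48 37 53))) .nd))))) (.rp 39 (.str 55 (.nv (.thr 48 37 (.dbl 58 10 53)) (.nv (.dbl 18 16 30) (.rp 43 (.str 35 (.nv (.thr 48 37 (.dbl 58 10 53)) (.nv (.dbl 18 16 30) (.rp 31 (.thr 30 18 (.thr 58 10 (.dbl 48 37 53))) (.rp 30 (.thr 31 16 (.thr 58 10 (.dbl 48 37 53))) (.rp 27 (.str 11 (.nv (.dbl 10 9 58) (.nv (.dbl 18 16 30) (.rp 31 (.thr 30 18 (.dbl 10 9 58)) (.rp 30 (.thr 31 16 (.dbl 10 9 58)) .nd))))) (.rp 11 (.thr 27 24 (.dbl 18 16 30)) .nd))))))) (.rp 35 (.str 43 (.nv (.thr 24 27 (.dbl 40 41 56)) (.nv (.dbl 18 16 30) (.rp 31 (.thr 30 18 (.thr 58 10 (.dbl 48 37 53))) (.rp 30 (.thr 31 16 (.thr 58 10 (.dbl 48 37 53))) .nd))))) (.rp 31 (.thr 30 18 (.thr 58 10 (.dbl 48 37 53))) (.rp 30 (.thr 31 16 (.thr 58 10 (.dbl 48 37 53))) .nd))))))) (.rp 31 (.thr 30 18 (.thr 58 10 (.dbl 48 37 53))) (.rp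 30 (.thr 31 16 (.thr 58 10 (.dbl 48 37 53))) .nd))))))))) (.rp 39 (.str 55 (.nv (.thr 38 4 (.thr 6 54 (.thr 14 10 (.thr 12 13 (.dbl 29 17 46))))) (.nv (.thr 17 29 (.thr 31 47 (.dbl 16 18 26))) (.rp 29 (.thr 31 47 (.thr 26 16 (.thr 58 10 (.dbl 48 37 53)))) (.rp 17 (.str 34 (.nv (.thr 18 50 (.thr 31 47 (.dbl 26 16 30))) (.nv (.dbl 38 4 46) .nd))) .nd))))) (.rp 31 (.thr 8 59 (.str 18 (.nv (.thr 29 17 (.thr 34 50 (.dbl 46 12 38))) (.nv (.dbl 17 16 29) (.rp 55 (.str 39 (.nv (.thr 29 17 (.thr 34 50 (.dbl 46 12 38))) (.nv (.dbl 17 16 29) (.rp 29 (.thr 30 26 (.thr 34 50 (.thr 38 46 (.thr 37 36 (.thr 32 47 (.thr 33 35 (.dbl 45 41 60))))))) (.rp 17 (.thr 34 50 (.thr 38 46 (.thr 37 36 (.dbl 26 30 48)))) .nd))))) (.rp 39 (.str 55 (.nv (.thr 34 50 (.dbl 38 4 46)) (.nv (.dbl 17 16 29) (.rp 30 (.thr 29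 17 (.thr 34 50 (.dbl 46 12 38))) (.rp 29 (.thr 30 26 (.thr 34 50 (.dbl 38 4 46))) .nd))))) (.rp 29 (.thr 30 26 (.str 38 (.nv (.dbl 34 46 50) (.rp 55 (.str 39 (.nv (.dbl 34 46 50) (.rp 50 (.thr 37 36 (.thr 47 32 (.thr 45 60 (.dbl 46 34 44)))) (.rp 46 (.thr 37 36 (.thr 6 54 (.thr 14 10 (.dbl 13 12 49)))) (.rp 34 (.thr 17 16 (.thr 37 36 (.thr 6 54 (.thr 14 10 (.dbl 13 12 49))))) .nd))))) (.rp 50 (.thr 17 16 (.thr 46 34 (.thr 45 60 (.thr 44 47 (.thr 41 35 (.thr 33 37 (.dbl 1 49 61))))))) (.rp 46 (.thr 17 16 (.thr 6 54 (.thr 14 10 (.thr 13 12 (.thr 49 37 (.thr 1 33 (.thr 9 5 (.dbl 41 57 61)))))))) (.rp 39 (.thr 55 4 (.dbl 34 46 50)) (.rp 34 (.thr 17 16 (.thr 6 54 (.thr 14 10 (.thr 13 12 (.thr 49 37 (.thr 1 33 (.thr 9 5 (.dbl 41 57 61)))))))) .nd)))))))) (.rp 17 (.thr 34 50 (.thr 46 38 (.thr 26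 30 (.thr 29 12 (.thr 58 10 (.dbl 48 37 53)))))) .nd)))))))) (.rp 26 (.thr 47 31 (.thr 37 32 (.thr 13 49 (.thr 12 14 (.dbl 29 17 46))))) (.rp 17 (.str 34 (.nv (.thr 31 47 (.thr 26 16 (.thr 48 37 (.dbl 58 10 53)))) (.nv (.thr 50 18 (.thr 38 46 (.thr 14 26 (.dbl 6 10 54)))) (.nv (.thr 31 47 (.thr 18 50 (.dbl 26 16 30))) (.rp 55 (.str 39 (.nv (.thr 50 18 (.thr 38 46 (.thr 14 26 (.dbl 6 10 54)))) (.nv (.thr 47 31 (.thr 35 43 (.dbl 32 33 37))) (.rp 33 (.thr 31 47 (.thr 18 50 (.dbl 26 16 30))) .nd)))) (.rp 48 (.thr 38 46 (.thr 6 54 (.thr 14 10 (.dbl 50 18 26)))) (.rp 39 (.str 55 (.nv (.thr 18 50 (.thr 31 47 (.dbl 26 16 30))) (.nv (.dbl 38 4 46) .nd))) (.rp 26 (.thr 47 31 (.thr 46 38 (.thr 37 32 (.thr 13 49 (.dbl 12 14 29))))) .nd)))))))) (.rp 16 (.thr 47 31 (.thr 37 32 (.thr 48 26 (.dbl 53 5 58))))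 .nd))))))))))))) (.rp 20 (.thr 63 0 (.thr 25 28 (.thr 17 29 (.thr 16 18 (.thr 31 26 (.thr 27 23 (.thr 59 8 (.thr 11 43 (.thr 47 15 (.thr 37 32 (.thr 5 53 (.thr 13 49 (.thr 62 2 (.thr 1 9 (.dbl 61 41 60))))))))))))))) (.rp 18 (.thr 63 0 (.thr 23 20 (.thr 31 27 (.thr 15 47 (.thr 26 16 (.thr 58 10 (.dbl 48 37 53))))))) (.rp 17 (.thr 23 20 (.thr 31 27 (.thr 26 16 (.thr 30 18 (.dbl 28 25 29))))) (.rp 16 (.thr 63 0 (.thr 23 20 (.thr 31 27 (.thr 15 47 (.thr 28 25 (.thr 30 29 (.thr 60 45 (.dbl 62 2 61)))))))) (.rp 15 (.str 11 (.nv (.thr 23 20 (.thr 25 28 (.thr 17 29 (.thr 16 18 (.dbl 31 26 27))))) (.nv (.thr 25 28 (.thr 59 8 (.thr 27 43 (.dbl 23 20 31)))) (.rp 39 (.str 27 (.nv (.thr 25 28 (.dbl 59 8 43)) (.nv (.dbl 23 20 31) (.rp 23 (.str 55 (.nv (.thr 25 28 (.thr 17 29 (.thr 16 18 (.dbl 26 24 31))))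 (.nv (.thr 25 28 (.dbl 59 8 43)) (.rp 63 (.thr 43 59 (.thr 41 40 (.thr 26 56 (.dbl 25 24 28)))) (.rp 43 (.thr 63 0 (.thr 25 28 (.thr 17 29 (.thr 18 16 (.dbl 26 24 30))))) (.rp 28 (.thr 43 59 (.thr 41 40 (.thr 26 56 (.thr 18 30 (.dbl 16 17 31))))) (.rp 25 (.thr 43 59 (.thr 41 40 (.thr 26 56 (.thr 18 30 (.dbl 16 17 31))))) .nd))))))) .nd)))) (.rp 31 (.thr 25 28 (.thr 59 8 (.thr 27 43 (.thr 26 24 (.thr 58 10 (.dbl 56 41 57)))))) (.rp 28 (.thr 2 62 (.thr 23 20 (.thr 27 31 (.thr 59 43 (.thr 8 25 (.thr 10 9 (.thr 6 14 (.thr 38 54 (.thr 4 55 (.dbl 0 12 63)))))))))) (.rp 27 (.str 39 (.nv (.thr 25 28 (.thr 8 59 (.thr 10 9 (.thr 17 29 (.thr 16 18 (.dbl 26 31 58)))))) (.nv (.thr 25 28 (.thr 8 59 (.thr 9 10 (.thr 41 57 (.thr 56 26 (.dbl 40 24 43)))))) (.nv (.thr 20 23 (.thr 28 25 (.thr 16 24 (.thr 26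 31 (.dbl 18 17 30))))) (.rp 63 (.thr 62 2 (.thr 25 28 (.thr 17 29 (.thr 18 16 (.thr 30 26 (.thr 46 14 (.thr 38 34 (.thr 37 36 (.thr 47 32 (.thr 44 45 (.dbl 35 41 43))))))))))) (.rp 28 (.str 43 (.nv (.thr 41 40 (.thr 26 56 (.thr 16 31 (.thr 47 35 (.dbl 18 17 30))))) (.nv (.thr 20 23 (.thr 40 41 (.dbl 0 60 63))) (.rp 41 (.thr 47 35 (.thr 0 63 (.thr 32 37 (.thr 16 48 (.thr 26 31 (.dbl 18 17 30)))))) (.rp 40 (.thr 47 35 (.thr 0 63 (.thr 32 37 (.thr 16 48 (.thr 26 31 (.dbl 18 17 30)))))) .nd))))) (.rp 26 (.thr 25 28 (.thr 17 29 (.thr 8 59 (.thr 9 10 (.thr 41 57 (.thr 1 61 (.thr 49 33 (.dbl 13 5 37)))))))) (.rp 25 (.str 26 (.nv (.thr 16 31 (.dbl 18 17 30)) (.nv (.thr 18 30 (.dbl 16 17 31)) (.rp 38 (.str 12 (.nv (.thr 10 58 (.thr 8 9 (.dbl 0 4 63))) (.nv (.thr 18 30 (.dbl 16 17 31)) .nd))) (.rp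 31 (.thr 18 30 (.thr 10 58 (.thr 2 62 (.thr 14 6 (.dbl 50 34 38))))) (.rp 30 (.thr 10 58 (.thr 2 62 (.thr 14 6 (.thr 16 31 (.thr 18 17 (.dbl 50 34 38)))))) (.rp 18 (.thr 10 58 (.thr 8 9 (.thr 16 31 (.thr 20 23 (.thr 24 28 (.dbl 56 40 41)))))) (.rp 17 (.thr 18 30 (.thr 10 58 (.thr 2 62 (.thr 14 6 (.dbl 50 34 38))))) (.rp 16 (.thr 18 30 (.thr 10 58 (.thr 2 62 (.thr 14 6 (.dbl 50 34 38))))) (.rp 12 (.str 38 (.nv (.thr 18 30 (.dbl 16 17 31)) (.nv (.thr 2 62 (.thr 10 58 (.dbl 6 14 54))) (.rp 14 (.str 13 (.nv (.thr 6 54 (.thr 4 55 (.thr 20 23 (.dbl 36 37 52)))) (.nv (.thr 16 31 (.dbl 18 17 30)) (.rp 63 (.thr 18 30 (.dbl 16 17 31)) (.rp 6 (.str 9 (.nv (.thr 5 1 (.dbl 37 36 53)) (.nv (.dbl 10 8 58) (.rp 10 (.thr 2 62 (.thr 5 1 (.dbl 37 36 53))) (.rp 5 (.thr 4 55 (.dbl 10 8 58)) .nd))))) .nd)))))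 (.rp 13 (.thr 14 50 (.thr 6 54 (.dbl 10 2 58))) (.rp 9 (.thr 6 54 (.thr 10 58 (.dbl 2 14 62))) (.rp 6 (.str 9 (.nv (.thr 4 55 (.thr 16 31 (.dbl 18 17 30))) (.nv (.dbl 10 8 58) (.rp 14 (.str 13 (.nv (.thr 5 1 (.dbl 37 36 53)) (.nv (.dbl 10 8 58) (.rp 10 (.thr 2 62 (.thr 5 1 (.dbl 37 36 53))) (.rp 5 (.thr 4 55 (.dbl 10 8 58)) .nd))))) (.rp 13 (.thr 14 50 (.dbl 10 8 58)) (.rp 4 (.str 5 (.nv (.thr 0 63 (.dbl 37 36 53)) (.nv (.dbl 10 8 58) (.rp 14 (.thr 13 1 (.dbl 10 8 58)) (.rp 13 (.thr 14 50 (.dbl 10 8 58)) (.rp 0 (.thr 8 10 (.dbl 37 36 53)) .nd)))))) .nd)))))) .nd))))))) .nd)))))))))) .nd)))))))) (.rp 25 (.thr 62 2 (.thr 23 20 (.thr 27 31 (.thr 43 59 (.thr 41 40 (.thr 26 56 (.thr 30 18 (.thr 58 10 (.thr 14 46 (.dbl 50 38 54)))))))))) (.rp 23 (.thr 25 28 (.thr 17 29 (.thr 8 59 (.thr 10 9 (.thr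 26 58 (.dbl 18 16 30)))))) (.rp 20 (.thr 63 0 (.thr 25 28 (.thr 59 8 (.thr 27 43 (.thr 31 23 (.dbl 26 16 24)))))) .nd)))))))))) (.rp 11 (.str 15 (.nv (.thr 0 63 (.thr 5 10 (.thr 37 53 (.thr 32 47 (.dbl 48 16 26))))) (.nv (.thr 23 20 (.thr 25 28 (.thr 17 29 (.thr 16 18 (.dbl 31 26 27))))) (.nv (.thr 23 20 (.thr 31 27 (.dbl 63 0 47))) (.rp 23 (.thr 63 0 (.thr 31 47 (.thr 26 16 (.thr 30 18 (.dbl 28 25 29))))) .nd))))) .nd))))))))))))))) (.rp 2 (.str 19 (.nv (.thr 20 23 (.thr 28 25 (.thr 16 24 (.thr 26 31 (.dbl 18 17 30))))) (.nv (.thr 23 20 (.thr 25 28 (.thr 27 31 (.thr 59 8 (.thr 43 11 (.dbl 63 0 3)))))) (.nv (.thr 23 20 (.thr 31 27 (.thr 25 28 (.thr 16 26 (.dbl 17 18 29))))) (.rp 31 (.thr 0 63 (.thr 20 23 (.thr 28 25 (.thr 16 24 (.thr 18 17 (.thr 48 32 (.thr 3 33 (.dbl 60 40 41)))))))) (.rp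 28 (.thr 63 0 (.thr 23 20 (.thr 31 27 (.thr 3 43 (.thr 15 47 (.thr 60 41 (.thr 30 45 (.dbl 26 16 18)))))))) (.rp 25 (.thr 63 0 (.thr 23 20 (.thr 31 27 (.thr 15 47 (.thr 26 16 (.thr 58 10 (.dbl 48 37 53))))))) (.rp 23 (.thr 0 63 (.thr 25 28 (.thr 17 29 (.thr 16 18 (.thr 32 48 (.thr 37 47 (.thr 53 5 (.thr 49 13 (.thr 61 57 (.dbl 1 33 41)))))))))) (.rp 20 (.thr 0 63 (.thr 25 28 (.thr 17 29 (.thr 16 18 (.thr 32 48 (.thr 37 47 (.thr 53 5 (.thr 49 13 (.thr 61 57 (.dbl 1 33 41)))))))))) (.rp 16 (.thr 63 0 (.thr 23 20 (.thr 27 31 (.thr 25 28 (.thr 24 26 (.thr 59 8 (.dbl 43 3 11))))))) .nd)))))))))) (.rp 0 (.str 31 (.nv (.thr 2 62 (.thr 26 16 (.thr 10 58 (.thr 14 6 (.thr 18 30 (.dbl 50 34 38)))))) (.nv (.thr 16 26 (.thr 20 23 (.thr 28 24 (.thr 29 30 (.dbl 25 17 19))))) (.rp 34 (.str 17 (.nv (.thr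 16 26 (.thr 19 18 (.dbl 23 20 27))) (.nv (.thr 23 20 (.thr 25 29 (.dbl 19 27 28))) (.nv (.thr 16 26 (.thr 25 29 (.dbl 19 18 28))) (.rp 19 (.thr 29 25 (.thr 30 28 (.dbl 26 16 18))) .nd))))) (.rp 30 (.thr 16 26 (.thr 23 20 (.thr 19 27 (.thr 17 18 (.dbl 25 28 29))))) (.rp 26 (.str 25 (.nv (.thr 28 19 (.dbl 29 17 30)) (.nv (.thr 19 28 (.dbl 23 20 27)) (.rp 34 (.thr 17 29 (.thr 19 28 (.dbl 23 20 27))) (.rp 28 (.thr 23 20 (.thr 27 19 (.thr 59 8 (.thr 43 11 (.thr 3 63 (.dbl 41 40 60)))))) (.rp 19 (.thr 17 29 (.thr 62 2 (.str 3 (.nv (.thr 41 60 (.thr 1 61 (.thr 49 33 (.thr 13 37 (.dbl 9 5 57))))) (.nv (.thr 23 20 (.thr 63 43 (.dbl 60 41 61))) (.rp 61 (.thr 23 20 (.thr 43 63 (.dbl 41 40 60))) (.rp 60 (.str 63 (.nv (.dbl 23 20 43) (.rp 57 (.str 54 (.nv (.dbl 23 20 43) (.rp 43 (.thr 47 15 (.thr 58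 50 (.thr 37 32 (.dbl 53 5 48)))) (.rp 40 (.thr 20 23 (.thr 47 15 (.thr 58 50 (.thr 37 32 (.dbl 53 5 48))))) (.rp 23 (.thr 47 15 (.thr 58 50 (.thr 37 32 (.dbl 53 5 48)))) (.rp 20 (.str 40 (.nv (.dbl 43 23 41) (.rp 43 (.thr 58 50 (.thr 47 15 (.thr 37 32 (.dbl 53 5 48)))) (.rp 41 (.thr 58 50 (.thr 47 15 (.thr 37 32 (.dbl 53 5 48)))) (.rp 23 (.thr 58 50 (.thr 47 15 (.thr 37 32 (.dbl 53 5 48)))) .nd))))) .nd)))))) (.rp 54 (.str 57 (.nv (.dbl 23 20 43) (.rp 43 (.thr 47 15 (.thr 37 32 (.thr 49 13 (.dbl 53 5 61)))) (.rp 40 (.thr 20 23 (.thr 47 15 (.thr 37 32 (.thr 49 13 (.dbl 53 5 61))))) (.rp 23 (.thr 47 15 (.thr 37 32 (.thr 49 13 (.dbl 53 5 61)))) (.rp 20 (.str 40 (.nv (.dbl 43 23 41) (.rp 43 (.thr 47 15 (.thr 37 32 (.thr 49 13 (.dbl 53 5 61)))) (.rp 41 (.thr 47 15 (.thr 37 32 (.thr 49 13 (.dbl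 53 5 61)))) (.rp 23 (.dbl 41 9 43) .nd))))) .nd)))))) (.rp 43 (.thr 47 15 (.thr 37 32 (.thr 49 13 (.thr 1 33 (.thr 61 41 (.dbl 53 5 57)))))) (.rp 40 (.thr 20 23 (.thr 47 15 (.thr 37 32 (.thr 49 13 (.thr 1 33 (.thr 61 41 (.dbl 53 5 57))))))) (.rp 23 (.thr 47 15 (.thr 37 32 (.thr 49 13 (.thr 1 33 (.thr 61 41 (.dbl 53 5 57)))))) (.rp 20 (.str 40 (.nv (.dbl 43 23 41) (.rp 57 (.str 54 (.nv (.dbl 43 23 41) (.rp 43 (.thr 58 50 (.thr 47 15 (.thr 37 32 (.dbl 53 5 48)))) (.rp 41 (.thr 58 50 (.thr 47 15 (.thr 37 32 (.dbl 53 5 48)))) (.rp 23 (.thr 58 50 (.thr 47 15 (.thr 37 32 (.dbl 53 5 48)))) .nd))))) (.rp 54 (.str 57 (.nv (.dbl 43 23 41) (.rp 43 (.thr 47 15 (.thr 37 32 (.thr 49 13 (.dbl 53 5 61)))) (.rp 41 (.thr 47 15 (.thr 37 32 (.thr 49 13 (.dbl 53 5 61)))) (.rp 23 (.dbl 41 9 43) .nd))))) (.rp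 43 (.thr 47 15 (.thr 37 32 (.thr 49 13 (.thr 33 1 (.thr 48 18 (.dbl 53 5 58)))))) (.rp 41 (.thr 47 15 (.thr 37 32 (.thr 49 13 (.thr 33 1 (.thr 48 18 (.dbl 53 5 58)))))) (.rp 23 (.thr 41 43 (.thr 1 61 (.thr 49 33 (.thr 47 15 (.dbl 37 13 32))))) .nd))))))) .nd)))))))) (.rp 41 (.thr 23 20 (.thr 63 43 (.thr 47 15 (.thr 37 32 (.thr 49 13 (.thr 33 1 (.thr 48 18 (.dbl 53 5 58)))))))) (.rp 40 (.thr 23 20 (.thr 60 41 (.dbl 63 43 61))) (.rp 20 (.thr 41 60 (.thr 40 43 (.thr 1 61 (.thr 49 33 (.thr 13 37 (.dbl 9 5 57)))))) .nd)))))))))) (.rp 17 (.str 34 (.nv (.thr 28 19 (.thr 30 29 (.thr 46 38 (.dbl 62 2 14)))) (.nv (.thr 19 28 (.dbl 23 20 27)) (.rp 28 (.thr 23 20 (.thr 27 19 (.thr 59 8 (.thr 43 11 (.thr 3 63 (.dbl 41 40 60)))))) (.rp 19 (.thr 38 46 (.thr 62 2 (.thr 59 8 (.thr 54 6 (.thr 58 50 (.thr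 57 56 (.thr 41 9 (.thr 35 44 (.thr 32 33 (.thr 47 37 (.dbl 43 39 40))))))))))) .nd))))) .nd))))))) (.rp 17 (.str 34 (.nv (.thr 23 20 (.thr 19 27 (.thr 28 25 (.thr 30 29 (.dbl 26 16 18))))) (.nv (.thr 2 62 (.thr 26 16 (.dbl 18 30 50))) (.rp 30 (.thr 38 46 (.thr 6 54 (.thr 2 62 (.thr 14 10 (.dbl 50 18 26))))) (.rp 26 (.thr 38 46 (.thr 54 6 (.thr 62 2 (.thr 58 50 (.thr 23 20 (.thr 19 27 (.thr 25 28 (.thr 59 8 (.thr 57 56 (.thr 41 9 (.thr 35 44 (.thr 32 33 (.thr 47 37 (.dbl 43 39 40)))))))))))))) (.rp 18 (.thr 38 46 (.thr 6 54 (.thr 2 62 (.thr 14 10 (.dbl 26 16 50))))) (.rp 16 (.thr 38 46 (.thr 6 54 (.thr 2 62 (.thr 14 10 (.dbl 50 18 26))))) .nd))))))) (.rp 16 (.thr 62 2 (.thr 23 20 (.thr 19 27 (.thr 28 25 (.thr 30 29 (.thr 26 18 (.thr 58 10 (.thr 14 46 (.dbl 50 38 54))))))))) .nd)))))))) .nd))))))))))))))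

theorem w310 : WinAt (4398048608256, 2251799813685376) :=
  chF (K := [(4398052802560, 9225623836668461184)]) (kc w309 kn) c310 4398048608256 2251799813685376 51
    [] (by decide +kernel) (by decide +kernel)

/-- A certificate. -/
noncomputable def c311 : Ct := (.str 51 (.nv (.thr 17 34 (.thr 25 29 (.thr 12 38 (.dbl 8 4 59)))) (.nv (.thr 34 17 (.thr 38 46 (.thr 12 25 (.dbl 4 8 55)))) (.rp 38 (.str 37 (.nv (.thr 17 34 (.thr 25 29 (.thr 32 47 (.thr 48 16 (.dbl 49 13 50))))) (.nv (.thr 17 34 (.thr 25 29 (.thr 49 13 (.thr 53 5 (.thr 61 57 (.dbl 1 33 41)))))) (.nv (.thr 32 47 (.thr 48 16 (.thr 5 53 (.dbl 15 10 26)))) .nd)))) (.rp 37 (.str 22 (.nv (.thr 20 23 (.thr 60 40 (.thr 3 41 (.dbl 2 1 62)))) (.nv (.thr 17 34 (.thr 25 29 (.thr 8 59 (.dbl 12 4 38)))) .nd))) (.rp 34 (.str 37 (.nv (.thr 5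 53 (.thr 15 10 (.thr 39 27 (.thr 38 36 (.thr 12 25 (.dbl 4 8 55)))))) (.nv (.thr 32 47 (.thr 48 16 (.thr 49 50 (.thr 25 13 (.thr 8 59 (.dbl 12 4 38)))))) (.nv (.thr 32 47 (.thr 48 16 (.thr 15 26 (.dbl 5 10 53)))) (.rp 48 (.str 60 (.nv (.thr 53 5 (.thr 20 40 (.thr 22 23 (.thr 2 62 (.dbl 3 1 41))))) (.nv (.thr 32 47 (.thr 40 20 (.thr 36 44 (.thr 39 38 (.thr 15 27 (.dbl 5 10 53)))))) (.nv (.thr 40 20 (.thr 41 43 (.thr 3 22 (.dbl 1 2 61)))) (.rp 53 (.str 58 (.nv (.thr 10 26 (.thr 15 5 (.thr 45 30 (.thr 41 33 (.thr 1 61 (.dbl 3 2 22)))))) (.nv (.thr 10 26 (.thr 15 5 (.thr 32 47 (.thr 39 27 (.thr 40 20 (.dbl 36 38 44)))))) (.nv (.thr 54 57 (.thr 62 50 (.thr 20 40 (.dbl 22 2 23)))) (.rp 54 (.str 55 (.nv (.thr 10 26 (.thr 15 5 (.thr 39 27 (.dbl 38 4 36)))) (.nv (.thr 20 40 (.thr 22 23 (.thr 3 41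 (.dbl 2 1 62)))) .nd))) .nd))))) (.rp 41 (.thr 32 47 (.thr 40 20 (.thr 36 44 (.thr 38 39 (.thr 12 25 (.dbl 4 8 55)))))) (.rp 40 (.thr 57 54 (.thr 53 5 (.thr 49 61 (.thr 25 13 (.thr 12 38 (.dbl 8 4 59)))))) (.rp 20 (.thr 57 54 (.thr 53 5 (.thr 49 61 (.thr 25 13 (.thr 12 38 (.dbl 8 4 59)))))) .nd)))))))) (.rp 15 (.str 3 (.nv (.thr 1 2 (.thr 5 53 (.thr 9 13 (.thr 12 6 (.thr 4 8 (.dbl 38 25 55)))))) (.nv (.thr 2 1 (.thr 22 62 (.thr 60 41 (.dbl 20 23 40)))) (.rp 47 (.str 31 (.nv (.thr 16 26 (.thr 19 35 (.thr 18 17 (.dbl 48 32 33)))) (.nv (.thr 2 1 (.thr 22 62 (.thr 60 41 (.dbl 20 23 40)))) .nd))) (.rp 31 (.thr 47 32 (.thr 35 19 (.thr 1 2 (.thr 41 61 (.dbl 43 39 40))))) (.rp 2 (.thr 35 19 (.thr 47 32 (.thr 39 43 (.thr 38 36 (.thr 4 55 (.dbl 12 8 25)))))) (.rp 1 (.thr 35 19 (.thr 47 32 (.thr 39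 43 (.thr 38 36 (.thr 4 55 (.dbl 12 8 25)))))) .nd))))))) .nd)))))) (.rp 25 (.str 37 (.nv (.thr 34 17 (.thr 38 46 (.thr 39 36 (.thr 15 27 (.dbl 5 10 53))))) (.nv (.thr 32 47 (.thr 48 16 (.thr 5 53 (.dbl 15 10 26)))) (.rp 53 (.thr 34 17 (.thr 32 47 (.thr 35 33 (.thr 38 46 (.thr 36 39 (.dbl 44 40 41)))))) (.rp 26 (.thr 34 17 (.thr 5 53 (.thr 38 46 (.thr 39 36 (.dbl 15 10 27))))) (.rp 15 (.thr 34 17 (.thr 47 32 (.thr 38 46 (.thr 39 36 (.thr 35 43 (.thr 3 19 (.thr 1 2 (.dbl 41 44 61)))))))) (.rp 10 (.thr 34 17 (.thr 32 47 (.thr 35 33 (.thr 38 46 (.thr 36 39 (.dbl 44 40 41)))))) (.rp 5 (.thr 34 17 (.thr 32 47 (.thr 35 33 (.thr 38 46 (.thr 36 39 (.dbl 44 40 41)))))) .nd)))))))) (.rp 22 (.str 37 (.nv (.thr 32 47 (.thr 48 16 (.thr 15 26 (.dbl 5 10 53)))) (.nv (.thr 17 34 (.thr 25 29 (.thr 8 59 (.dbl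 12 4 38)))) .nd))) (.rp 17 (.str 37 (.nv (.thr 32 47 (.thr 48 16 (.thr 49 50 (.thr 25 13 (.thr 8 59 (.dbl 12 4 38)))))) (.nv (.thr 5 53 (.thr 15 10 (.thr 39 27 (.thr 38 36 (.thr 12 25 (.dbl 4 8 55)))))) (.nv (.thr 32 47 (.thr 48 16 (.thr 15 26 (.dbl 5 10 53)))) (.rp 48 (.str 60 (.nv (.thr 53 5 (.thr 20 40 (.thr 22 23 (.thr 2 62 (.dbl 3 1 41))))) (.nv (.thr 32 47 (.thr 40 20 (.thr 36 44 (.thr 39 38 (.thr 15 27 (.dbl 5 10 53)))))) (.nv (.thr 40 20 (.thr 41 43 (.thr 3 22 (.dbl 1 2 61)))) (.rp 53 (.str 58 (.nv (.thr 10 26 (.thr 15 5 (.thr 45 30 (.thr 41 33 (.thr 1 61 (.dbl 3 2 22)))))) (.nv (.thr 10 26 (.thr 15 5 (.thr 32 47 (.thr 39 27 (.thr 40 20 (.dbl 36 38 44)))))) (.nv (.thr 54 57 (.thr 62 50 (.thr 20 40 (.dbl 22 2 23)))) (.rp 54 (.str 55 (.nv (.thr 10 26 (.thr 15 5 (.thr 39 27 (.dbl 38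 4 36)))) (.nv (.thr 20 40 (.thr 22 23 (.thr 3 41 (.dbl 2 1 62)))) .nd))) .nd))))) (.rp 41 (.thr 32 47 (.thr 40 20 (.thr 36 44 (.thr 38 39 (.thr 12 25 (.dbl 4 8 55)))))) (.rp 40 (.thr 57 54 (.thr 53 5 (.thr 49 61 (.thr 25 13 (.thr 12 38 (.dbl 8 4 59)))))) (.rp 20 (.thr 57 54 (.thr 53 5 (.thr 49 61 (.thr 25 13 (.thr 12 38 (.dbl 8 4 59)))))) .nd)))))))) (.rp 15 (.str 3 (.nv (.thr 1 2 (.thr 5 53 (.thr 9 13 (.thr 12 6 (.thr 4 8 (.dbl 38 25 55)))))) (.nv (.thr 1 2 (.thr 41 61 (.thr 60 22 (.dbl 40 20 43)))) (.rp 47 (.str 31 (.nv (.thr 1 2 (.thr 5 53 (.thr 9 13 (.thr 12 6 (.thr 4 8 (.dbl 38 25 55)))))) (.nv (.thr 1 2 (.thr 41 61 (.thr 60 22 (.dbl 40 20 43)))) (.rp 2 (.thr 19 35 (.thr 27 23 (.thr 26 16 (.thr 25 24 (.thr 8 59 (.dbl 12 4 38)))))) (.rp 1 (.thr 19 35 (.thr 27 23 (.thr 26 16 (.thr 25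 24 (.thr 8 59 (.dbl 12 4 38)))))) .nd))))) (.rp 31 (.thr 47 32 (.thr 35 19 (.thr 1 2 (.thr 41 61 (.dbl 43 39 40))))) (.rp 2 (.thr 35 19 (.thr 47 32 (.thr 39 43 (.thr 38 36 (.thr 4 55 (.dbl 12 8 25)))))) (.rp 1 (.thr 35 19 (.thr 47 32 (.thr 39 43 (.thr 38 36 (.thr 4 55 (.dbl 12 8 25)))))) .nd))))))) .nd)))))) (.rp 12 (.thr 34 17 (.thr 46 38 (.str 37 (.nv (.thr 32 47 (.thr 33 35 (.thr 48 16 (.thr 18 3 (.dbl 50 2 49))))) (.nv (.thr 5 53 (.thr 32 47 (.thr 15 10 (.dbl 48 16 26)))) (.rp 48 (.thr 53 5 (.thr 47 32 (.thr 45 44 (.thr 41 33 (.thr 61 1 (.thr 49 57 (.dbl 13 25 29))))))) (.rp 47 (.thr 5 53 (.thr 15 10 (.thr 48 26 (.thr 50 49 (.thr 18 2 (.thr 33 3 (.dbl 32 16 35))))))) (.rp 32 (.thr 5 53 (.thr 15 10 (.thr 48 26 (.thr 50 49 (.thr 2 18 (.thr 22 62 (.thr 20 23 (.thr 60 40 (.dbl 3 1 41)))))))))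 (.rp 16 (.thr 53 5 (.thr 47 32 (.thr 45 44 (.thr 41 33 (.thr 61 1 (.thr 49 57 (.dbl 13 25 29))))))) (.rp 15 (.thr 53 5 (.thr 47 32 (.thr 45 44 (.thr 41 33 (.thr 61 1 (.thr 49 57 (.dbl 13 25 29))))))) .nd)))))))))) (.rp 8 (.str 22 (.nv (.thr 34 17 (.thr 38 46 (.thr 54 6 (.thr 60 57 (.dbl 20 23 40))))) (.nv (.thr 17 34 (.thr 25 29 (.thr 19 28 (.thr 3 35 (.dbl 2 1 62))))) (.nv (.thr 2 62 (.thr 3 1 (.thr 60 41 (.dbl 20 23 40)))) .nd)))) (.rp 4 (.thr 34 17 (.thr 38 46 (.thr 12 25 (.str 37 (.nv (.thr 36 39 (.thr 48 24 (.dbl 32 16 47))) (.nv (.thr 32 47 (.thr 35 33 (.thr 3 19 (.thr 1 2 (.dbl 41 44 61))))) (.nv (.thr 5 53 (.thr 15 10 (.dbl 39 27 36))) (.rp 36 (.str 20 (.nv (.thr 5 53 (.thr 15 10 (.thr 14 13 (.dbl 26 48 50)))) (.nv (.thr 60 40 (.thr 54 57 (.dbl 22 6 23))) (.rp 54 (.thr 60 40 (.thr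 44 28 (.thr 41 35 (.dbl 22 3 23)))) (.rp 5 (.str 6 (.nv (.thr 3 9 (.thr 32 47 (.dbl 35 19 33))) (.nv (.dbl 22 23 54) .nd))) .nd))))) (.rp 5 (.str 6 (.nv (.thr 3 9 (.thr 1 2 (.thr 41 61 (.dbl 22 54 60)))) (.nv (.thr 36 39 (.thr 48 24 (.dbl 32 16 47))) (.rp 36 (.str 20 (.nv (.thr 3 9 (.thr 32 47 (.dbl 35 19 33))) (.nv (.dbl 22 23 54) .nd))) .nd)))) .nd))))))))) .nd))))))))))))

theorem w311 : WinAt (4398048608257, 9227875636482146432) :=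
  chF (K := []) kn c311 4398048608257 9227875636482146432 63
    [4503737070518400] (by decide +kernel) (by decide +kernel)

/-- A certificate. -/
noncomputable def c312 : Ct := (.str 60 (.nv (.thr 62 61 (.thr 22 2 (.thr 3 41 (.dbl 23 20 43)))) (.nv (.thr 61 62 (.thr 41 1 (.thr 43 40 (.dbl 3 22 23)))) (.rp 62 (.str 29 (.nv (.thr 25 17 (.thr 59 8 (.thr 51 55 (.dbl 12 38 46)))) (.nv (.thr 12 46 (.thr 25 17 (.thr 28 44 (.thr 22 19 (.thr 23 20 (.dbl 3 41 43)))))) (.nv (.thr 12 46 (.thr 25 17 (.thr 51 38 (.dbl 59 8 55)))) (.rp 51 (.thr 12 46 (.thr 28 44 (.thr 30 31 (.thr 45 15 (.thr 61 13 (.thr 41 1 (.thr 43 40 (.dbl 3 22 23)))))))) (.rp 46 (.thr 25 17 (.thr 59 8 (.thr 51 55 (.thr 12 38 (.thr 28 44 (.thr 22 19 (.thr 23 20 (.dbl 3 41 43)))))))) (.rp 25 (.thr 12 46 (.thr 28 44 (.thr 30 31 (.thr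 45 15 (.thr 61 13 (.thr 41 1 (.thr 43 40 (.dbl 3 22 23)))))))) (.rp 17 (.thr 12 46 (.thr 28 44 (.thr 30 31 (.thr 45 15 (.thr 61 13 (.thr 41 1 (.thr 43 40 (.dbl 3 22 23)))))))) (.rp 12 (.str 15 (.nv (.thr 30 45 (.dbl 31 28 47)) (.rp 47 (.thr 45 30 (.thr 61 13 (.thr 41 1 (.thr 43 40 (.dbl 3 22 23))))) (.rp 45 (.thr 31 47 (.thr 28 30 (.thr 26 16 (.thr 25 17 (.thr 27 24 (.dbl 19 22 23)))))) (.rp 31 (.thr 45 30 (.thr 61 13 (.thr 41 1 (.thr 43 40 (.dbl 3 22 23))))) (.rp 30 (.thr 31 47 (.thr 26 16 (.thr 25 17 (.thr 27 24 (.thr 51 39 (.dbl 59 8 55)))))) (.rp 28 (.thr 45 30 (.thr 13 61 (.thr 47 31 (.thr 37 32 (.dbl 25 17 49))))) (.rp 8 (.str 4 (.nv (.thr 30 45 (.dbl 31 28 47)) (.rp 47 (.thr 45 30 (.thr 61 13 (.thr 41 1 (.thr 43 40 (.dbl 3 22 23))))) (.rp 45 (.thr 47 31 (.thr 38 55 (.thr 37 32 (.thr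 48 26 (.thr 52 56 (.dbl 36 20 39)))))) (.rp 31 (.thr 45 30 (.thr 61 13 (.thr 41 1 (.thr 43 40 (.dbl 3 22 23))))) (.rp 30 (.thr 47 31 (.thr 38 55 (.thr 37 32 (.thr 48 26 (.thr 52 56 (.dbl 36 20 39)))))) (.rp 28 (.thr 45 30 (.thr 47 31 (.thr 46 44 (.dbl 38 34 55)))) .nd))))))) (.rp 4 (.str 8 (.nv (.thr 30 45 (.dbl 31 28 47)) (.nv (.dbl 25 17 59) (.rp 6 (.str 5 (.nv (.thr 30 45 (.dbl 31 28 47)) (.nv (.dbl 25 17 59) (.rp 9 (.str 3 (.nv (.thr 23 43 (.dbl 22 20 41)) (.nv (.dbl 25 17 59) .nd))) (.rp 3 (.str 9 (.nv (.thr 1 13 (.thr 30 45 (.dbl 31 28 47))) (.nv (.dbl 25 17 59) (.rp 1 (.str 2 (.nv (.thr 30 45 (.dbl 31 28 47)) (.nv (.dbl 25 17 59) .nd))) .nd)))) .nd))))) (.rp 5 (.str 6 (.nv (.thr 30 45 (.dbl 31 28 47)) (.nv (.dbl 25 17 59) .nd))) .nd))))) .nd))))))))) .nd))))))))) (.rp 61 (.str 29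 (.nv (.thr 12 46 (.thr 25 17 (.thr 28 44 (.thr 22 19 (.thr 23 20 (.dbl 3 41 43)))))) (.nv (.thr 12 46 (.thr 25 17 (.thr 51 38 (.dbl 59 8 55)))) (.rp 57 (.str 49 (.nv (.thr 12 46 (.thr 28 44 (.thr 31 30 (.thr 47 15 (.thr 37 32 (.dbl 25 13 17)))))) (.nv (.thr 12 46 (.thr 25 17 (.thr 51 38 (.dbl 59 8 55)))) (.rp 46 (.thr 25 17 (.thr 59 8 (.thr 51 55 (.thr 48 50 (.thr 37 13 (.thr 47 32 (.dbl 15 26 31))))))) (.rp 25 (.thr 12 46 (.thr 28 44 (.thr 31 30 (.thr 16 26 (.thr 24 20 (.thr 36 48 (.thr 47 15 (.thr 37 32 (.thr 39 38 (.thr 43 35 (.thr 41 40 (.dbl 3 22 23)))))))))))) (.rp 17 (.thr 12 46 (.thr 28 44 (.thr 31 30 (.thr 47 15 (.thr 37 32 (.thr 25 13 (.thr 59 8 (.dbl 51 38 55)))))))) (.rp 12 (.thr 25 17 (.thr 37 13 (.thr 47 32 (.thr 15 31 (.thr 48 26 (.thr 51 50 (.dbl 59 8 55))))))) .nd)))))))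 (.rp 51 (.thr 12 46 (.thr 28 44 (.thr 31 30 (.thr 16 26 (.thr 20 24 (.thr 22 23 (.dbl 25 17 19))))))) (.rp 49 (.str 57 (.nv (.thr 25 17 (.thr 41 9 (.thr 3 22 (.dbl 43 23 40)))) (.nv (.thr 46 12 (.thr 38 34 (.thr 51 54 (.dbl 55 4 59)))) (.nv (.thr 12 46 (.thr 25 17 (.dbl 51 38 54))) (.rp 51 (.thr 46 12 (.thr 25 17 (.thr 34 38 (.thr 41 9 (.thr 43 40 (.dbl 3 22 23)))))) .nd))))) (.rp 46 (.thr 25 17 (.thr 59 8 (.thr 51 55 (.thr 12 38 (.thr 28 44 (.thr 22 19 (.thr 23 20 (.dbl 3 41 43)))))))) (.rp 25 (.thr 12 46 (.thr 28 44 (.thr 31 30 (.thr 47 15 (.thr 16 26 (.thr 24 20 (.thr 37 32 (.thr 36 48 (.thr 39 38 (.thr 43 35 (.thr 41 40 (.dbl 3 22 23)))))))))))) (.rp 17 (.thr 12 46 (.thr 28 44 (.thr 31 30 (.thr 16 26 (.thr 20 24 (.thr 22 23 (.thr 25 19 (.thr 59 8 (.dbl 51 38 55))))))))) (.rp 12 (.thr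 25 17 (.str 57 (.nv (.thr 41 9 (.thr 43 40 (.dbl 3 22 23))) (.nv (.thr 51 54 (.dbl 59 8 55)) (.rp 51 (.str 34 (.nv (.thr 8 59 (.thr 41 9 (.thr 3 22 (.dbl 43 23 40)))) (.nv (.thr 41 9 (.thr 43 40 (.dbl 3 22 23))) (.rp 43 (.thr 38 46 (.thr 41 9 (.thr 22 3 (.thr 6 54 (.thr 2 62 (.thr 50 18 (.dbl 14 10 26))))))) (.rp 41 (.thr 38 46 (.thr 59 8 (.thr 4 55 (.thr 58 56 (.thr 26 10 (.thr 31 16 (.thr 30 28 (.dbl 15 45 47)))))))) (.rp 40 (.thr 38 46 (.thr 41 9 (.thr 35 44 (.thr 32 33 (.thr 47 37 (.thr 43 39 (.dbl 3 22 23))))))) (.rp 23 (.thr 38 46 (.thr 41 9 (.thr 43 40 (.thr 35 44 (.thr 32 33 (.dbl 47 37 39)))))) (.rp 22 (.thr 38 46 (.thr 41 9 (.thr 43 40 (.thr 35 44 (.thr 32 33 (.dbl 47 37 39)))))) (.rp 9 (.thr 38 46 (.str 22 (.nv (.thr 6 54 (.thr 2 62 (.thr 14 10 (.dbl 50 18 26)))) (.nv (.thr 3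 41 (.dbl 23 20 43)) (.rp 8 (.thr 4 55 (.thr 23 20 (.dbl 3 41 43))) (.rp 4 (.thr 8 59 (.thr 23 20 (.dbl 3 41 43))) .nd)))))) (.rp 8 (.str 4 (.nv (.thr 41 9 (.thr 3 22 (.dbl 43 23 40))) (.nv (.dbl 38 46 55) .nd))) (.rp 3 (.thr 38 46 (.thr 59 8 (.thr 4 55 (.thr 58 56 (.thr 26 10 (.thr 31 16 (.thr 30 28 (.dbl 15 45 47)))))))) .nd))))))))))) (.rp 8 (.str 4 (.nv (.thr 41 9 (.thr 3 22 (.dbl 43 23 40))) (.nv (.thr 51 54 (.dbl 55 38 59)) (.rp 51 (.str 34 (.nv (.thr 41 9 (.thr 3 22 (.dbl 43 23 40))) (.nv (.dbl 38 46 55) .nd))) .nd)))) (.rp 4 (.thr 8 59 (.thr 41 9 (.thr 43 40 (.dbl 3 22 23)))) .nd))))))) .nd)))))))))) (.rp 43 (.str 12 (.nv (.thr 28 44 (.thr 62 61 (.thr 22 2 (.thr 25 19 (.thr 51 38 (.dbl 59 8 55)))))) (.nv (.thr 28 44 (.thr 29 46 (.thr 30 31 (.thr 45 15 (.dbl 61 13 62))))) (.nv (.thr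 29 46 (.thr 25 17 (.thr 51 38 (.dbl 59 8 55)))) .nd)))) (.rp 41 (.str 12 (.nv (.thr 28 44 (.thr 62 61 (.thr 22 2 (.thr 25 19 (.thr 59 8 (.dbl 51 38 55)))))) (.nv (.thr 29 46 (.thr 61 62 (.thr 45 13 (.thr 30 15 (.dbl 28 31 44))))) (.nv (.thr 29 46 (.thr 25 17 (.thr 59 8 (.dbl 51 38 55)))) .nd)))) (.rp 23 (.str 55 (.nv (.thr 38 4 (.thr 61 62 (.thr 41 1 (.thr 44 35 (.thr 12 28 (.dbl 46 29 34)))))) (.nv (.thr 38 4 (.thr 51 59 (.thr 62 61 (.thr 22 2 (.dbl 54 6 57))))) (.nv (.thr 51 59 (.thr 38 4 (.thr 12 25 (.dbl 46 29 34)))) (.rp 38 (.thr 59 51 (.thr 62 61 (.thr 22 2 (.thr 25 8 (.thr 28 19 (.thr 12 44 (.dbl 29 17 46))))))) (.rp 12 (.thr 51 59 (.thr 61 62 (.thr 41 1 (.thr 3 22 (.thr 35 19 (.dbl 38 4 44)))))) (.rp 6 (.thr 51 59 (.thr 57 54 (.thr 61 62 (.thr 41 1 (.thr 25 9 (.dbl 38 4 12))))))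 (.rp 5 (.thr 51 59 (.thr 54 57 (.thr 38 4 (.thr 6 22 (.thr 46 34 (.dbl 12 25 29)))))) (.rp 4 (.thr 51 59 (.thr 57 54 (.thr 61 62 (.thr 41 1 (.thr 25 9 (.thr 29 17 (.dbl 12 38 46))))))) .nd))))))))) (.rp 22 (.str 37 (.nv (.thr 32 47 (.thr 61 62 (.thr 41 1 (.thr 33 45 (.thr 35 34 (.thr 40 43 (.dbl 44 36 38))))))) (.nv (.thr 47 32 (.thr 15 31 (.thr 45 30 (.thr 46 44 (.thr 29 12 (.thr 13 61 (.dbl 25 17 49))))))) (.nv (.thr 61 62 (.thr 41 1 (.thr 47 32 (.thr 15 31 (.dbl 45 30 33))))) (.rp 61 (.thr 47 32 (.thr 15 31 (.thr 45 30 (.thr 41 33 (.thr 43 40 (.thr 44 46 (.dbl 35 38 39))))))) (.rp 47 (.thr 61 62 (.thr 41 1 (.thr 45 33 (.thr 29 13 (.thr 12 46 (.thr 28 44 (.dbl 30 15 31))))))) (.rp 45 (.thr 61 62 (.thr 32 47 (.thr 41 1 (.thr 40 43 (.thr 44 36 (.thr 12 28 (.thr 46 29 (.dbl 38 34 35))))))))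 (.rp 32 (.thr 61 62 (.thr 41 1 (.thr 45 33 (.thr 15 30 (.thr 31 47 (.dbl 26 16 48)))))) .nd)))))))) (.rp 3 (.str 15 (.nv (.thr 45 30 (.thr 47 31 (.thr 37 32 (.thr 41 33 (.dbl 61 1 62))))) (.nv (.thr 30 45 (.thr 31 47 (.thr 26 16 (.thr 22 18 (.dbl 62 2 61))))) (.nv (.thr 30 45 (.thr 31 47 (.thr 26 16 (.thr 22 18 (.thr 23 20 (.thr 19 27 (.dbl 28 25 29))))))) (.nv (.thr 45 30 (.thr 47 31 (.thr 46 44 (.thr 61 62 (.dbl 29 12 13))))) (.rp 47 (.thr 45 30 (.thr 61 62 (.thr 29 13 (.thr 25 17 (.thr 59 8 (.thr 51 55 (.dbl 12 38 46))))))) (.rp 45 (.thr 31 47 (.thr 62 61 (.thr 2 22 (.thr 26 16 (.thr 10 58 (.thr 14 6 (.thr 46 30 (.dbl 12 13 29)))))))) (.rp 31 (.thr 45 30 (.thr 61 62 (.thr 29 13 (.thr 46 12 (.thr 44 47 (.thr 38 34 (.dbl 41 1 35))))))) (.rp 30 (.thr 31 47 (.thr 62 61 (.thr 2 22 (.thr 26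 16 (.thr 58 10 (.thr 50 54 (.thr 38 14 (.dbl 34 18 46)))))))) (.rp 2 (.str 1 (.nv (.dbl 61 41 62) (.rp 62 (.thr 47 31 (.thr 45 30 (.thr 41 61 (.dbl 37 32 33)))) (.rp 61 (.thr 31 47 (.thr 30 45 (.thr 29 28 (.thr 46 12 (.thr 14 62 (.thr 26 16 (.dbl 38 34 50))))))) (.rp 41 (.thr 31 47 (.thr 30 45 (.thr 29 28 (.thr 62 61 (.dbl 46 12 14))))) .nd))))) (.rp 1 (.str 2 (.nv (.dbl 62 22 61) (.rp 62 (.thr 47 31 (.thr 45 30 (.thr 46 44 (.thr 29 12 (.thr 13 61 (.thr 37 32 (.dbl 25 17 49))))))) (.rp 61 (.thr 31 47 (.thr 30 45 (.thr 22 62 (.dbl 26 16 18)))) (.rp 22 (.thr 47 31 (.thr 45 30 (.thr 46 44 (.thr 61 62 (.dbl 29 12 13))))) .nd))))) .nd))))))))))) (.rp 2 (.thr 61 62 (.thr 41 1 (.thr 3 22 (.dbl 43 23 40)))) .nd)))))))))))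

theorem w312 : WinAt (9223376434903384064, 9007199254741121) :=
  chF (K := []) kn c312 9223376434903384064 9007199254741121 0
    [] (by decide +kernel) (by decide +kernel)

/-- A certificate. -/
noncomputable def c313 : Ct := (.str 3 (.nv (.thr 2 1 (.thr 22 62 (.thr 60 41 (.dbl 20 23 40)))) (.nv (.thr 1 2 (.thr 41 61 (.thr 40 43 (.dbl 60 20 22)))) (.rp 62 (.thr 1 2 (.thr 41 61 (.thr 60 22 (.dbl 40 20 43)))) (.rp 60 (.thr 1 2 (.thr 61 41 (.str 8 (.nv (.thr 25 59 (.thr 29 17 (.thr 13 45 (.thr 5 9 (.dbl 37 49 53))))) (.nv (.thr 12 4 (.thr 9 6 (.thr 5 13 (.dbl 10 11 15)))) (.nv (.thr 25 59 (.thr 17 29 (.thr 12 4 (.dbl 51 34 38)))) (.rp 57 (.str 51 (.nv (.thr 12 4 (.thr 9 6 (.thr 5 13 (.dbl 10 11 15)))) (.nv (.thr 25 59 (.dbl 17 29 34)) (.rp 25 (.str 9 (.nv (.thr 5 13 (.dbl 10 11 15)) (.nv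 (.dbl 12 4 6) .nd))) .nd)))) (.rp 51 (.str 57 (.nv (.thr 12 4 (.thr 9 6 (.thr 5 13 (.dbl 10 11 15)))) (.nv (.thr 49 53 (.thr 17 33 (.dbl 25 29 59))) (.rp 59 (.str 55 (.nv (.dbl 4 12 38) (.rp 38 (.thr 12 4 (.thr 53 49 (.thr 5 37 (.dbl 9 6 13)))) (.rp 12 (.thr 53 49 (.thr 5 37 (.thr 10 15 (.dbl 9 11 13)))) (.rp 4 (.thr 53 49 (.thr 5 37 (.thr 10 15 (.dbl 9 11 13)))) .nd))))) (.rp 55 (.thr 59 25 (.thr 53 49 (.thr 12 4 (.thr 9 6 (.dbl 5 13 37))))) .nd))))) (.rp 5 (.thr 25 59 (.thr 17 29 (.thr 51 34 (.dbl 12 4 38)))) .nd))))))))) (.rp 41 (.str 51 (.nv (.thr 2 1 (.thr 19 35 (.thr 22 62 (.thr 25 28 (.thr 8 59 (.dbl 12 4 38)))))) (.nv (.thr 1 2 (.thr 17 34 (.thr 33 49 (.thr 18 48 (.dbl 19 16 35))))) (.nv (.thr 17 34 (.thr 25 29 (.thr 8 59 (.dbl 12 4 38)))) .nd)))) (.rp 40 (.str 51 (.nv (.thr 1 2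 (.thr 35 19 (.thr 41 61 (.thr 38 44 (.thr 4 55 (.dbl 12 8 25)))))) (.nv (.thr 1 2 (.thr 17 34 (.thr 19 35 (.thr 18 16 (.dbl 33 48 49))))) (.nv (.thr 34 17 (.thr 38 46 (.thr 12 25 (.dbl 4 8 55)))) .nd)))) (.rp 22 (.thr 1 2 (.thr 41 61 (.thr 40 43 (.thr 60 20 (.str 37 (.nv (.thr 33 45 (.thr 32 47 (.dbl 48 16 18))) (.nv (.thr 32 47 (.thr 48 16 (.thr 56 52 (.dbl 26 11 15)))) (.nv (.thr 45 33 (.thr 15 30 (.dbl 5 10 53))) (.rp 38 (.str 6 (.nv (.thr 32 47 (.thr 48 16 (.dbl 33 18 45))) (.nv (.thr 9 12 (.dbl 5 13 53)) .nd))) (.rp 15 (.thr 33 45 (.thr 48 18 (.dbl 32 16 47))) (.rp 6 (.str 38 (.nv (.thr 5 53 (.thr 45 33 (.dbl 15 10 30))) (.nv (.thr 44 35 (.dbl 36 32 39)) (.rp 14 (.str 10 (.nv (.thr 36 39 (.dbl 32 44 47)) (.nv (.dbl 5 15 53) (.rp 5 (.thr 4 55 (.thr 12 8 (.dbl 44 28 35))) .nd)))) (.rp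 10 (.str 14 (.nv (.thr 5 53 (.thr 13 9 (.thr 15 12 (.dbl 26 48 50)))) (.nv (.thr 44 35 (.dbl 36 32 39)) (.rp 5 (.thr 4 55 (.thr 12 8 (.dbl 44 28 35))) .nd)))) (.rp 5 (.thr 4 55 (.thr 44 35 (.dbl 36 32 39))) .nd)))))) .nd))))))))))) (.rp 20 (.str 51 (.nv (.thr 1 2 (.thr 35 19 (.thr 41 61 (.thr 38 44 (.thr 4 55 (.dbl 12 8 25)))))) (.nv (.thr 1 2 (.thr 17 34 (.thr 19 35 (.thr 18 16 (.dbl 33 48 49))))) (.nv (.thr 34 17 (.thr 38 46 (.thr 12 25 (.dbl 4 8 55)))) .nd)))) (.rp 2 (.str 51 (.nv (.thr 34 17 (.thr 35 19 (.thr 38 46 (.thr 41 44 (.thr 40 43 (.dbl 60 20 22)))))) (.nv (.thr 34 17 (.thr 38 46 (.thr 12 25 (.dbl 4 8 55)))) (.rp 46 (.thr 17 34 (.thr 25 29 (.thr 12 38 (.dbl 8 4 59)))) (.rp 38 (.thr 19 35 (.thr 17 34 (.thr 25 29 (.thr 22 28 (.thr 20 23 (.dbl 60 40 41)))))) (.rp 34 (.thr 19 35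 (.str 18 (.nv (.thr 16 17 (.dbl 48 32 33)) (.rp 48 (.thr 17 16 (.thr 25 29 (.thr 8 59 (.dbl 12 4 38)))) (.rp 33 (.str 32 (.nv (.dbl 16 17 48) (.rp 48 (.thr 17 16 (.thr 25 29 (.thr 8 59 (.dbl 12 4 38)))) (.rp 17 (.thr 48 16 (.thr 37 47 (.thr 5 53 (.dbl 15 10 26)))) (.rp 16 (.thr 37 47 (.thr 5 53 (.thr 15 10 (.thr 39 27 (.thr 38 36 (.thr 12 25 (.dbl 4 8 55))))))) .nd))))) (.rp 32 (.thr 33 48 (.thr 17 16 (.thr 25 29 (.thr 8 59 (.dbl 12 4 38))))) (.rp 17 (.thr 48 33 (.thr 32 16 (.thr 37 47 (.thr 5 53 (.dbl 15 10 26))))) (.rp 16 (.str 17 (.nv (.thr 33 48 (.thr 1 49 (.thr 41 61 (.thr 40 43 (.dbl 60 20 22))))) (.nv (.thr 25 29 (.thr 8 59 (.dbl 12 4 38))) (.rp 33 (.str 32 (.nv (.thr 25 29 (.thr 22 28 (.thr 20 23 (.dbl 60 40 41)))) (.nv (.thr 25 29 (.thr 8 59 (.dbl 12 4 38))) (.rp 46 (.thr 25 29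 (.thr 12 38 (.dbl 8 4 59))) (.rp 29 (.thr 37 47 (.thr 5 53 (.thr 15 10 (.thr 39 27 (.thr 38 36 (.thr 12 25 (.dbl 4 8 55))))))) (.rp 25 (.thr 37 47 (.thr 5 53 (.thr 15 10 (.thr 39 27 (.thr 36 38 (.thr 40 44 (.thr 41 43 (.dbl 60 20 22)))))))) (.rp 12 (.thr 37 47 (.thr 5 53 (.thr 15 10 (.thr 48 26 (.thr 49 50 (.dbl 25 13 29)))))) .nd))))))) .nd)))) .nd)))))))) (.rp 17 (.str 34 (.nv (.thr 35 19 (.thr 38 46 (.thr 41 44 (.thr 40 43 (.dbl 60 20 22))))) (.nv (.thr 38 46 (.thr 12 25 (.dbl 4 8 55))) (.rp 46 (.thr 35 19 (.thr 32 33 (.thr 37 47 (.thr 5 53 (.thr 15 10 (.dbl 48 16 26)))))) (.rp 38 (.thr 35 19 (.thr 32 33 (.thr 37 47 (.thr 5 53 (.thr 15 10 (.dbl 48 16 26)))))) (.rp 12 (.thr 35 19 (.thr 32 33 (.thr 37 47 (.thr 5 53 (.thr 15 10 (.dbl 48 16 26)))))) .nd)))))) (.rp 12 (.thr 35 19 (.thr 34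 17 (.thr 32 33 (.thr 37 47 (.thr 5 53 (.thr 15 10 (.dbl 48 16 26))))))) .nd)))))))) (.rp 1 (.str 16 (.nv (.thr 26 31 (.thr 48 32 (.thr 18 33 (.thr 22 30 (.thr 20 23 (.dbl 60 40 41)))))) (.nv (.thr 48 32 (.thr 26 31 (.thr 15 37 (.dbl 10 5 58)))) (.rp 48 (.thr 26 31 (.thr 58 10 (.str 17 (.nv (.thr 25 29 (.thr 8 59 (.thr 12 4 (.dbl 51 34 38)))) (.nv (.thr 18 19 (.thr 22 30 (.thr 60 41 (.dbl 20 23 40)))) (.nv (.thr 19 18 (.dbl 51 34 35)) (.rp 47 (.str 15 (.nv (.thr 25 29 (.thr 27 24 (.dbl 51 34 39))) (.nv (.thr 18 19 (.thr 22 30 (.thr 60 41 (.dbl 20 23 40)))) (.nv (.thr 19 18 (.dbl 51 34 35)) .nd)))) (.rp 15 (.str 47 (.nv (.thr 25 29 (.thr 8 59 (.thr 12 4 (.dbl 51 34 38)))) (.nv (.thr 18 19 (.thr 22 30 (.thr 60 41 (.dbl 20 23 40)))) (.nv (.thr 19 18 (.dbl 51 34 35)) .nd)))) .nd)))))))) (.rp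 32 (.thr 26 31 (.thr 10 58 (.thr 15 5 (.thr 48 37 (.thr 18 33 (.thr 22 30 (.thr 20 23 (.dbl 60 40 41)))))))) (.rp 31 (.thr 48 32 (.thr 18 33 (.thr 17 19 (.thr 25 29 (.thr 8 59 (.thr 12 4 (.dbl 51 34 38))))))) (.rp 26 (.thr 48 32 (.thr 18 33 (.thr 17 19 (.thr 25 29 (.thr 8 59 (.thr 12 4 (.dbl 51 34 38))))))) (.rp 22 (.thr 48 32 (.thr 26 31 (.thr 10 58 (.dbl 15 5 37)))) (.rp 15 (.thr 48 32 (.thr 18 33 (.thr 17 19 (.thr 34 51 (.thr 50 2 (.thr 38 46 (.dbl 26 14 31))))))) .nd))))))))) .nd)))))))))))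

theorem w313 : WinAt (4398048608257, 9241386435364257920) :=
  chF (K := []) kn c313 4398048608257 9241386435364257920 63
    [] (by decide +kernel) (by decide +kernel)

end Pool.Agent.TTT.B43
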