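import Pool.Agent.TTT.Q11
import Pool.Agent.TTT.Q13

/-!
Certified forced wins in positions of the 4 x 4 x 4 board.
-/

set_option autoImplicit false
set_option maxRecDepth 1000000
set_option linter.all false

namespace Pool.Agent.TTT.B43

/-- A certificate. -/
noncomputable def c314 : Ct := (.str 23 (.nv (.thr 3 43 (.thr 22 20 (.thr 60 41 (.dbl 62 2 61)))) (.rp 62 (.str 19 (.nv (.thr 3 43 (.thr 22 20 (.thr 25 28 (.thr 29 17 (.thr 12 46 (.dbl 51 35 38)))))) (.nv (.thr 31 27 (.thr 15 47 (.thr 26 16 (.thr 58 10 (.dbl 48 37 53))))) (.rp 16 (.thr 27 31 (.thr 43 3 (.thr 22 20 (.thr 25 28 (.thr 24 26 (.dbl 59 8 11)))))) .nd)))) (.rp 61 (.str 19 (.nv (.thr 3 43 (.thr 22 20 (.thr 25 28 (.thr 29 17 (.thr 12 46 (.dbl 51 35 38)))))) (.nv (.thr 31 27 (.thr 15 47 (.thr 26 16 (.thr 58 10 (.dbl 48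 37 53))))) (.rp 16 (.thr 27 31 (.thr 43 3 (.thr 22 20 (.thr 25 28 (.thr 24 26 (.dbl 59 8 11)))))) .nd)))) (.rp 60 (.thr 3 43 (.str 26 (.nv (.thr 31 16 (.thr 15 47 (.thr 48 37 (.thr 18 33 (.dbl 22 20 30))))) (.nv (.thr 58 10 (.thr 48 53 (.thr 18 33 (.dbl 22 20 30)))) (.nv (.thr 31 16 (.thr 15 47 (.thr 58 10 (.dbl 48 37 53)))) (.rp 48 (.thr 10 58 (.thr 16 31 (.thr 20 22 (.thr 24 28 (.thr 25 27 (.thr 8 59 (.thr 11 9 (.dbl 56 40 41)))))))) (.rp 40 (.thr 20 22 (.thr 58 10 (.thr 31 16 (.thr 15 47 (.dbl 48 37 53))))) (.rp 20 (.str 40 (.nv (.thr 31 16 (.thr 58 10 (.thr 15 47 (.dbl 48 37 53)))) (.nv (.thr 58 10 (.thr 48 53 (.thr 15 37 (.dbl 31 16 47)))) (.rp 58 (.thr 31 16 (.thr 19 27 (.thr 15 47 (.thr 48 37 (.thr 18 33 (.thr 22 30 (.thr 2 62 (.thr 50 34 (.dbl 51 35 49))))))))) (.rp 53 (.thr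 10 58 (.thr 31 16 (.thr 27 19 (.thr 24 25 (.thr 8 56 (.thr 9 11 (.thr 15 47 (.thr 48 37 (.dbl 12 6 36))))))))) (.rp 48 (.thr 16 31 (.str 56 (.nv (.thr 8 24 (.thr 58 10 (.dbl 59 25 57))) (.nv (.thr 11 41 (.thr 10 58 (.dbl 8 9 24))) (.rp 58 (.thr 11 41 (.thr 8 24 (.thr 25 59 (.thr 9 10 (.thr 29 17 (.dbl 12 6 46)))))) (.rp 24 (.thr 10 58 (.thr 11 41 (.thr 9 8 (.thr 12 6 (.thr 46 29 (.thr 38 34 (.thr 14 50 (.thr 51 25 (.thr 19 35 (.thr 18 17 (.dbl 30 22 62))))))))))) (.rp 10 (.thr 24 8 (.thr 25 27 (.thr 29 17 (.thr 12 46 (.thr 9 6 (.dbl 41 11 57)))))) (.rp 8 (.str 12 (.nv (.thr 6 9 (.thr 10 58 (.thr 14 2 (.thr 38 50 (.dbl 46 29 34))))) (.nv (.thr 46 29 (.thr 38 34 (.thr 51 25 (.thr 35 19 (.dbl 41 11 44))))) (.nv (.thr 9 6 (.thr 41 11 (.thr 57 25 (.dbl 58 10 59)))) .nd)))) .nd)))))))) (.rp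 47 (.thr 58 10 (.thr 48 53 (.thr 18 33 (.thr 16 31 (.thr 17 19 (.thr 25 29 (.thr 24 27 (.dbl 8 56 59)))))))) (.rp 37 (.thr 58 10 (.thr 48 53 (.thr 18 33 (.thr 16 31 (.thr 17 19 (.thr 25 29 (.thr 24 27 (.dbl 8 56 59)))))))) (.rp 31 (.thr 58 10 (.thr 48 53 (.thr 18 33 (.thr 15 37 (.thr 22 30 (.thr 2 62 (.thr 50 34 (.thr 51 49 (.thr 27 39 (.thr 25 24 (.dbl 19 28 35))))))))))) (.rp 16 (.thr 58 10 (.thr 48 53 (.thr 18 33 (.thr 15 37 (.thr 31 47 (.thr 19 27 (.thr 22 30 (.thr 2 62 (.thr 50 34 (.dbl 51 35 49)))))))))) (.rp 15 (.thr 10 58 (.thr 31 16 (.thr 27 19 (.thr 24 25 (.thr 8 56 (.thr 9 11 (.thr 12 6 (.thr 48 36 (.thr 18 33 (.thr 29 46 (.dbl 30 22 28))))))))))) (.rp 10 (.thr 31 16 (.thr 19 27 (.thr 15 47 (.thr 48 37 (.thr 18 33 (.thr 22 30 (.thr 2 62 (.thr 50 34 (.dbl 51 35 49)))))))))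 .nd)))))))))))) (.rp 15 (.thr 10 58 (.thr 31 16 (.thr 27 19 (.thr 25 24 (.thr 8 59 (.thr 9 11 (.thr 12 6 (.dbl 29 17 46)))))))) .nd))))))))) (.rp 43 (.str 19 (.nv (.thr 31 27 (.thr 15 47 (.thr 26 16 (.thr 58 10 (.dbl 48 37 53))))) (.nv (.thr 22 20 (.thr 25 28 (.thr 17 29 (.thr 16 18 (.dbl 31 26 27))))) (.rp 31 (.thr 22 20 (.thr 62 2 (.thr 25 28 (.thr 29 17 (.thr 12 46 (.thr 51 38 (.thr 3 35 (.dbl 60 41 61)))))))) (.rp 27 (.thr 22 20 (.thr 62 2 (.thr 25 28 (.thr 29 17 (.thr 12 46 (.thr 51 38 (.thr 3 35 (.dbl 60 41 61)))))))) (.rp 26 (.thr 31 27 (.thr 15 47 (.thr 22 20 (.thr 62 2 (.thr 60 61 (.thr 30 45 (.dbl 28 25 29))))))) (.rp 16 (.thr 31 27 (.thr 15 47 (.thr 22 20 (.thr 62 2 (.thr 28 25 (.thr 30 29 (.dbl 60 45 61))))))) .nd))))))) (.rp 41 (.str 19 (.nv (.thr 3 43 (.thr 22 20 (.thr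 25 28 (.thr 29 17 (.thr 12 46 (.dbl 51 35 38)))))) (.nv (.thr 31 27 (.thr 15 47 (.thr 26 16 (.thr 58 10 (.dbl 48 37 53))))) (.rp 16 (.thr 27 31 (.thr 43 3 (.thr 22 20 (.thr 25 28 (.thr 24 26 (.dbl 59 8 11)))))) .nd)))) (.rp 22 (.str 27 (.nv (.thr 43 3 (.thr 11 59 (.thr 41 40 (.thr 26 56 (.dbl 31 16 19))))) (.nv (.thr 31 19 (.thr 15 47 (.thr 26 16 (.thr 58 10 (.dbl 48 37 53))))) (.rp 58 (.thr 31 19 (.thr 43 3 (.thr 11 59 (.thr 26 16 (.dbl 41 40 56))))) (.rp 52 (.str 37 (.nv (.thr 31 19 (.thr 26 16 (.thr 48 15 (.dbl 53 5 58)))) (.nv (.thr 53 5 (.thr 47 32 (.thr 15 31 (.dbl 48 26 58)))) (.nv (.thr 31 19 (.dbl 47 15 32)) (.rp 53 (.str 54 (.nv (.thr 43 3 (.thr 47 32 (.thr 15 31 (.dbl 39 35 51)))) (.nv (.thr 31 19 (.dbl 47 15 32)) (.rp 47 (.thr 43 3 (.thr 11 59 (.thr 31 19 (.thr 26 16 (.dbl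 41 40 56))))) (.rp 32 (.thr 31 19 (.thr 15 47 (.dbl 26 16 48))) (.rp 31 (.thr 43 3 (.thr 47 32 (.thr 35 39 (.thr 41 40 (.thr 45 33 (.dbl 44 38 46)))))) (.rp 15 (.thr 43 3 (.thr 11 59 (.thr 31 19 (.thr 26 16 (.dbl 41 40 56))))) .nd))))))) (.rp 31 (.thr 43 3 (.thr 11 59 (.thr 53 5 (.thr 41 40 (.thr 58 48 (.dbl 26 10 56)))))) (.rp 15 (.thr 31 19 (.thr 43 3 (.thr 11 59 (.thr 41 40 (.dbl 26 16 56))))) .nd))))))) (.rp 37 (.str 52 (.nv (.thr 43 3 (.thr 11 59 (.thr 41 40 (.thr 26 56 (.dbl 31 16 19))))) (.nv (.thr 31 19 (.thr 15 47 (.thr 26 16 (.thr 43 3 (.thr 59 11 (.dbl 25 8 24)))))) (.nv (.thr 31 19 (.thr 26 16 (.thr 25 24 (.thr 59 8 (.dbl 43 3 11))))) (.nv (.thr 31 19 (.thr 43 3 (.thr 11 59 (.thr 41 40 (.dbl 26 16 56))))) (.rp 59 (.thr 31 19 (.thr 26 16 (.thr 43 3 (.thr 41 40 (.thr 58 10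 (.thr 48 53 (.dbl 56 11 60))))))) (.rp 43 (.thr 31 19 (.thr 26 16 (.thr 25 24 (.thr 59 8 (.thr 58 10 (.thr 56 57 (.dbl 48 53 60))))))) (.rp 31 (.thr 43 3 (.thr 41 40 (.thr 11 59 (.thr 26 56 (.thr 24 25 (.thr 58 10 (.thr 48 53 (.thr 12 36 (.thr 46 29 (.thr 38 34 (.thr 50 14 (.thr 62 54 (.dbl 61 1 60))))))))))))) (.rp 26 (.thr 31 19 (.thr 43 3 (.thr 59 11 (.thr 15 47 (.thr 25 8 (.thr 29 17 (.thr 12 46 (.dbl 51 38 39)))))))) (.rp 19 (.thr 43 3 (.thr 41 40 (.thr 11 59 (.thr 26 56 (.thr 31 16 (.thr 47 15 (.thr 35 39 (.thr 38 44 (.thr 46 34 (.thr 29 12 (.dbl 25 17 24))))))))))) (.rp 16 (.thr 31 19 (.thr 43 3 (.thr 41 40 (.thr 1 61 (.thr 59 11 (.thr 15 47 (.thr 25 8 (.thr 9 57 (.thr 13 5 (.thr 51 39 (.dbl 12 14 38))))))))))) (.rp 11 (.thr 31 19 (.thr 26 16 (.thr 25 24 (.thr 58 10 (.thr 48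 53 (.thr 56 60 (.dbl 59 8 57))))))) (.rp 3 (.thr 31 19 (.thr 26 16 (.thr 25 24 (.thr 59 8 (.thr 58 10 (.thr 56 57 (.dbl 48 53 60))))))) .nd))))))))))))) (.rp 31 (.thr 43 3 (.thr 11 59 (.thr 41 40 (.thr 26 56 (.thr 58 10 (.thr 24 25 (.thr 48 53 (.thr 12 36 (.thr 46 29 (.thr 38 34 (.thr 14 50 (.dbl 15 13 37)))))))))))) (.rp 26 (.thr 31 19 (.thr 43 3 (.thr 59 11 (.thr 15 47 (.thr 51 39 (.thr 25 8 (.thr 29 17 (.dbl 12 38 46)))))))) (.rp 19 (.thr 43 3 (.thr 11 59 (.thr 41 40 (.thr 26 56 (.thr 58 10 (.thr 31 16 (.thr 15 47 (.dbl 48 37 53)))))))) (.rp 16 (.thr 31 19 (.thr 43 3 (.thr 11 59 (.thr 15 47 (.thr 41 40 (.thr 26 56 (.thr 58 10 (.dbl 48 37 53)))))))) .nd)))))))))) (.rp 20 (.str 31 (.nv (.thr 15 47 (.thr 27 19 (.thr 43 3 (.thr 59 11 (.thr 25 8 (.dbl 26 16 24)))))) (.nv (.thr 26 16 (.thr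 27 19 (.thr 43 3 (.thr 11 59 (.dbl 41 40 56))))) (.nv (.thr 15 47 (.thr 26 16 (.thr 58 10 (.dbl 48 37 53)))) (.rp 60 (.str 40 (.nv (.dbl 43 3 41) (.rp 43 (.thr 15 47 (.thr 26 16 (.thr 58 10 (.dbl 48 37 53)))) (.rp 41 (.thr 15 47 (.thr 26 16 (.thr 58 10 (.dbl 48 37 53)))) (.rp 3 (.thr 15 47 (.thr 26 16 (.thr 58 10 (.dbl 48 37 53)))) .nd))))) (.rp 40 (.str 60 (.nv (.thr 15 47 (.thr 26 16 (.thr 58 10 (.dbl 48 37 53)))) (.nv (.thr 62 61 (.thr 22 2 (.dbl 3 41 43))) .nd))) (.rp 26 (.thr 27 19 (.thr 43 3 (.thr 59 11 (.thr 15 47 (.thr 51 39 (.thr 25 8 (.thr 29 17 (.dbl 12 38 46)))))))) (.rp 24 (.thr 27 19 (.thr 43 3 (.thr 59 11 (.thr 15 47 (.thr 51 39 (.thr 25 8 (.thr 29 17 (.dbl 12 38 46)))))))) (.rp 16 (.thr 27 19 (.thr 43 3 (.thr 59 11 (.thr 15 47 (.thr 51 39 (.thr 25 8 (.thr 12 38 (.dbl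 29 17 46)))))))) .nd))))))))) (.rp 3 (.str 15 (.nv (.thr 22 20 (.thr 31 47 (.thr 16 26 (.thr 19 27 (.thr 25 28 (.dbl 17 18 29)))))) (.nv (.thr 47 31 (.thr 37 32 (.thr 48 26 (.dbl 53 5 58)))) (.rp 47 (.thr 22 20 (.str 60 (.nv (.dbl 62 2 61) (.rp 62 (.thr 30 45 (.thr 26 18 (.thr 58 10 (.dbl 48 37 53)))) (.rp 61 (.thr 30 45 (.thr 26 18 (.thr 58 10 (.dbl 48 37 53)))) (.rp 2 (.str 1 (.nv (.dbl 61 41 62) (.rp 62 (.thr 30 45 (.thr 26 18 (.thr 58 10 (.dbl 48 37 53)))) (.rp 61 (.thr 30 45 (.thr 26 18 (.thr 58 10 (.dbl 48 37 53)))) (.rp 41 (.thr 30 45 (.thr 26 18 (.thr 58 10 (.dbl 48 37 53)))) .nd))))) (.rp 1 (.thr 2 62 (.thr 30 45 (.thr 26 18 (.thr 58 10 (.dbl 48 37 53))))) .nd))))))) (.rp 31 (.thr 22 20 (.str 60 (.nv (.dbl 62 2 61) (.rp 62 (.thr 30 45 (.thr 26 18 (.thr 58 10 (.dbl 48 37 53))))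 (.rp 61 (.thr 30 45 (.thr 26 18 (.thr 58 10 (.dbl 48 37 53)))) (.rp 2 (.str 1 (.nv (.dbl 61 41 62) (.rp 62 (.thr 30 45 (.thr 26 18 (.thr 58 10 (.dbl 48 37 53)))) (.rp 61 (.thr 30 45 (.thr 26 18 (.thr 58 10 (.dbl 48 37 53)))) (.rp 41 (.thr 30 45 (.thr 26 18 (.thr 58 10 (.dbl 48 37 53)))) .nd))))) (.rp 1 (.thr 2 62 (.thr 30 45 (.thr 26 18 (.thr 58 10 (.dbl 48 37 53))))) .nd))))))) (.rp 26 (.thr 31 47 (.thr 19 27 (.thr 22 20 (.thr 2 62 (.thr 25 28 (.thr 29 17 (.thr 12 46 (.thr 14 13 (.thr 6 10 (.dbl 38 51 54)))))))))) (.rp 2 (.str 1 (.nv (.thr 22 20 (.thr 31 47 (.thr 16 26 (.thr 19 27 (.thr 25 28 (.dbl 17 18 29)))))) (.nv (.thr 47 31 (.thr 37 32 (.thr 48 26 (.dbl 53 5 58)))) (.rp 47 (.thr 61 41 (.thr 22 20 (.thr 60 62 (.thr 30 45 (.thr 26 18 (.thr 58 10 (.dbl 48 37 53))))))) (.rp 31 (.thr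 61 41 (.thr 22 20 (.thr 60 62 (.thr 30 45 (.thr 26 18 (.thr 58 10 (.dbl 48 37 53))))))) (.rp 26 (.thr 47 31 (.thr 61 41 (.thr 60 62 (.thr 45 30 (.thr 29 13 (.dbl 46 12 44)))))) .nd)))))) (.rp 1 (.str 2 (.nv (.dbl 22 20 62) (.rp 62 (.thr 31 47 (.thr 26 16 (.thr 58 10 (.dbl 48 37 53)))) (.rp 22 (.thr 31 47 (.thr 26 16 (.thr 58 10 (.dbl 48 37 53)))) (.rp 20 (.thr 31 47 (.thr 26 16 (.thr 58 10 (.dbl 48 37 53)))) .nd))))) .nd)))))))) (.rp 2 (.thr 3 43 (.str 19 (.nv (.thr 51 35 (.thr 22 20 (.thr 25 28 (.thr 29 17 (.dbl 12 38 46))))) (.nv (.thr 31 27 (.thr 15 47 (.thr 26 16 (.thr 58 10 (.dbl 48 37 53))))) (.nv (.thr 22 20 (.thr 31 27 (.thr 16 26 (.thr 25 28 (.dbl 17 18 29))))) (.rp 16 (.thr 51 35 (.thr 22 20 (.thr 60 41 (.thr 54 57 (.thr 38 6 (.dbl 25 12 28)))))) .nd)))))) .nd)))))))))))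

theorem w314 : WinAt (9223376434903384064, 36028797018964097) :=
  chF (K := []) kn c314 9223376434903384064 36028797018964097 0
    [36029346783166592] (by decide +kernel) (by decide +kernel)

/-- A certificate. -/
noncomputable def c315 : Ct := (.str 12 (.nv (.thr 46 29 (.thr 38 34 (.thr 51 25 (.dbl 55 4 59)))) (.nv (.thr 29 46 (.thr 25 17 (.thr 51 38 (.dbl 59 8 55)))) (.rp 59 (.str 58 (.nv (.thr 26 10 (.thr 46 29 (.thr 38 34 (.thr 14 50 (.thr 15 13 (.dbl 31 16 47)))))) (.nv (.thr 29 46 (.thr 25 17 (.thr 48 53 (.thr 24 36 (.dbl 26 10 27))))) (.nv (.thr 26 10 (.thr 31 16 (.thr 48 53 (.dbl 15 37 47)))) (.rp 26 (.thr 29 46 (.thr 53 48 (.thr 37 5 (.thr 25 17 (.thr 13 49 (.thr 15 14 (.dbl 47 31 32))))))) (.rp 10 (.thr 29 46 (.thr 48 53 (.thr 24 36 (.thr 25 17 (.thr 26 27 (.thr 31 16 (.dbl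 15 37 47))))))) .nd)))))) (.rp 55 (.str 23 (.nv (.thr 3 43 (.thr 6 9 (.thr 46 29 (.thr 38 34 (.dbl 22 20 54))))) (.nv (.thr 22 20 (.thr 62 2 (.thr 3 43 (.dbl 60 41 61)))) (.rp 43 (.thr 29 46 (.thr 22 20 (.thr 62 2 (.thr 60 61 (.thr 28 44 (.dbl 25 17 19)))))) (.rp 22 (.thr 46 29 (.thr 43 3 (.thr 41 40 (.thr 38 34 (.thr 44 35 (.thr 60 28 (.dbl 61 1 62))))))) (.rp 20 (.thr 46 29 (.thr 3 43 (.thr 6 9 (.thr 38 34 (.thr 22 54 (.thr 62 2 (.dbl 60 41 61))))))) (.rp 3 (.thr 29 46 (.thr 22 20 (.thr 25 17 (.thr 28 19 (.thr 60 44 (.dbl 62 2 61)))))) .nd))))))) (.rp 51 (.thr 29 46 (.str 13 (.nv (.thr 17 25 (.thr 15 14 (.thr 47 31 (.thr 37 32 (.thr 48 26 (.dbl 53 5 58)))))) (.nv (.thr 61 45 (.thr 1 41 (.thr 5 9 (.thr 37 53 (.dbl 25 17 49))))) (.nv (.thr 15 14 (.thr 31 47 (.thr 45 61 (.dbl 30 28 60))))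 (.rp 47 (.thr 15 14 (.thr 45 61 (.thr 30 60 (.thr 31 28 (.thr 26 16 (.thr 58 10 (.dbl 48 37 53))))))) (.rp 17 (.str 34 (.nv (.thr 15 14 (.thr 47 31 (.thr 37 32 (.thr 48 26 (.dbl 53 5 58))))) (.nv (.thr 61 45 (.thr 41 1 (.thr 43 40 (.thr 3 23 (.dbl 60 22 62))))) (.nv (.thr 15 14 (.thr 31 47 (.thr 45 61 (.dbl 30 28 60)))) (.rp 62 (.thr 45 61 (.thr 15 14 (.thr 30 60 (.dbl 31 28 47)))) (.rp 47 (.thr 15 14 (.thr 45 61 (.thr 30 60 (.thr 31 28 (.thr 26 16 (.thr 48 37 (.dbl 58 10 53))))))) .nd)))))) .nd))))))) (.rp 46 (.str 22 (.nv (.thr 62 2 (.thr 60 61 (.thr 28 44 (.thr 25 19 (.thr 51 38 (.dbl 59 8 55)))))) (.nv (.thr 23 20 (.thr 3 43 (.thr 6 9 (.thr 38 54 (.thr 55 4 (.dbl 51 25 59)))))) (.nv (.thr 62 2 (.thr 60 61 (.thr 23 20 (.dbl 3 41 43)))) (.rp 60 (.str 48 (.nv (.thr 58 53 (.thr 26 10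 (.thr 18 30 (.thr 3 33 (.dbl 23 20 43))))) (.nv (.thr 20 23 (.thr 24 36 (.thr 28 16 (.thr 25 19 (.thr 59 8 (.dbl 51 38 55)))))) (.nv (.thr 58 53 (.thr 26 10 (.thr 15 37 (.dbl 31 16 47)))) (.rp 20 (.str 40 (.nv (.thr 43 41 (.thr 3 23 (.thr 18 33 (.thr 26 30 (.dbl 58 10 53))))) (.nv (.thr 36 24 (.thr 41 43 (.thr 44 32 (.thr 38 35 (.thr 55 4 (.dbl 51 25 59)))))) (.nv (.thr 58 53 (.thr 26 10 (.thr 15 37 (.dbl 31 16 47)))) .nd)))) .nd))))) (.rp 3 (.str 15 (.nv (.thr 2 62 (.thr 14 13 (.thr 6 10 (.thr 38 54 (.thr 55 4 (.dbl 51 25 59)))))) (.nv (.thr 47 31 (.thr 37 32 (.thr 48 26 (.dbl 53 5 58)))) (.rp 58 (.thr 31 47 (.thr 26 16 (.thr 30 18 (.thr 28 29 (.dbl 60 44 45))))) (.rp 2 (.str 1 (.nv (.thr 31 47 (.thr 26 16 (.thr 30 18 (.thr 28 29 (.dbl 60 44 45))))) (.nv (.thr 13 14 (.thr 9 5 (.thr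 41 61 (.thr 25 57 (.thr 59 8 (.dbl 51 38 55)))))) (.nv (.thr 31 47 (.thr 26 16 (.thr 48 37 (.dbl 58 10 53)))) .nd)))) .nd))))) .nd)))))) (.rp 38 (.str 44 (.nv (.thr 46 29 (.thr 47 45 (.thr 37 32 (.thr 53 5 (.thr 48 58 (.dbl 15 26 31)))))) (.nv (.thr 60 28 (.thr 61 62 (.thr 41 1 (.thr 3 22 (.dbl 43 23 40))))) (.nv (.thr 60 28 (.thr 46 29 (.thr 62 61 (.thr 45 47 (.dbl 30 14 15))))) (.rp 61 (.thr 28 60 (.thr 29 46 (.thr 31 30 (.thr 15 47 (.thr 26 16 (.thr 58 10 (.dbl 48 37 53))))))) .nd))))) (.rp 29 (.str 26 (.nv (.thr 31 16 (.thr 15 47 (.thr 14 13 (.thr 38 50 (.thr 51 25 (.dbl 55 4 59)))))) (.nv (.thr 58 10 (.thr 48 53 (.thr 24 36 (.thr 25 27 (.thr 59 8 (.dbl 51 38 55)))))) (.nv (.thr 31 16 (.thr 15 47 (.thr 58 10 (.dbl 48 37 53)))) (.rp 48 (.str 60 (.nv (.thr 16 31 (.thr 28 44 (.thr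 24 20 (.thr 25 27 (.thr 59 8 (.dbl 51 38 55)))))) (.nv (.thr 61 62 (.thr 41 1 (.thr 3 22 (.dbl 43 23 40)))) (.rp 23 (.thr 62 61 (.thr 22 2 (.thr 30 18 (.thr 14 46 (.dbl 15 13 45))))) (.rp 16 (.str 32 (.nv (.thr 44 28 (.thr 40 36 (.thr 61 62 (.dbl 41 1 43)))) (.nv (.thr 47 37 (.thr 44 28 (.thr 45 46 (.dbl 15 30 31)))) (.nv (.thr 61 62 (.thr 41 1 (.thr 3 22 (.dbl 43 23 40)))) .nd)))) .nd))))) (.rp 15 (.str 3 (.nv (.thr 23 43 (.thr 22 20 (.thr 18 30 (.thr 48 33 (.dbl 58 10 53))))) (.nv (.thr 10 58 (.thr 6 9 (.thr 14 2 (.thr 38 50 (.thr 55 4 (.dbl 51 25 59)))))) (.nv (.thr 23 43 (.thr 22 20 (.thr 60 41 (.dbl 62 2 61)))) (.rp 10 (.str 5 (.nv (.thr 23 43 (.thr 22 20 (.thr 18 30 (.thr 48 33 (.dbl 53 37 58))))) (.nv (.thr 9 6 (.thr 13 1 (.thr 37 53 (.thr 25 49 (.thr 59 8 (.dbl 51 38 55))))))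 (.nv (.thr 23 43 (.thr 22 20 (.thr 60 41 (.dbl 62 2 61)))) .nd)))) .nd))))) .nd)))))) (.rp 25 (.str 13 (.nv (.thr 29 46 (.thr 61 45 (.thr 41 1 (.thr 43 40 (.thr 3 23 (.dbl 60 22 62)))))) (.nv (.thr 15 14 (.thr 31 47 (.thr 26 16 (.thr 48 37 (.dbl 58 10 53))))) (.nv (.thr 15 14 (.thr 29 46 (.thr 31 47 (.thr 45 61 (.dbl 30 28 60))))) (.rp 47 (.thr 14 15 (.thr 46 29 (.thr 62 30 (.thr 60 61 (.thr 22 2 (.thr 23 20 (.dbl 3 41 43))))))) .nd))))) .nd))))))))))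

theorem w315 : WinAt (9223376434903384064, 72057594037928065) :=
  chF (K := []) kn c315 9223376434903384064 72057594037928065 0
    [] (by decide +kernel) (by decide +kernel)

/-- A certificate. -/
noncomputable def c316 : Ct := (.str 15 (.nv (.thr 31 47 (.thr 26 16 (.thr 48 37 (.dbl 58 10 53)))) (.nv (.thr 47 31 (.thr 37 32 (.thr 48 26 (.dbl 53 5 58)))) (.rp 58 (.str 59 (.nv (.thr 25 8 (.thr 47 31 (.thr 37 32 (.thr 13 49 (.thr 12 14 (.dbl 29 17 46)))))) (.nv (.thr 31 47 (.thr 51 55 (.thr 27 39 (.thr 23 19 (.dbl 43 3 11))))) (.nv (.thr 51 55 (.thr 25 8 (.thr 12 38 (.dbl 29 17 46)))) .nd)))) (.rp 53 (.str 61 (.nv (.thr 41 1 (.thr 47 31 (.thr 37 32 (.thr 45 33 (.thr 29 13 (.dbl 46 12 44)))))) (.nv (.thr 47 31 (.thr 60 62 (.thr 45 30 (.thr 29 13 (.dbl 46 12 44))))) (.nv (.thr 60 62 (.thr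 41 1 (.thr 43 40 (.dbl 3 22 23)))) .nd)))) (.rp 48 (.thr 47 31 (.str 43 (.nv (.thr 39 35 (.thr 51 27 (.thr 55 59 (.thr 38 4 (.dbl 37 32 36))))) (.nv (.thr 41 40 (.thr 61 1 (.thr 60 62 (.dbl 3 22 23)))) (.rp 32 (.str 16 (.nv (.thr 39 35 (.thr 51 27 (.thr 59 55 (.thr 25 8 (.thr 29 17 (.dbl 12 38 46)))))) (.nv (.thr 41 40 (.thr 61 1 (.thr 60 62 (.dbl 3 22 23)))) (.rp 23 (.thr 41 40 (.thr 61 1 (.thr 60 62 (.thr 45 30 (.thr 29 13 (.dbl 46 12 44)))))) .nd)))) (.rp 23 (.thr 41 40 (.thr 61 1 (.thr 60 62 (.thr 45 30 (.dbl 37 32 33))))) (.rp 16 (.thr 32 37 (.thr 35 39 (.thr 34 33 (.thr 38 46 (.dbl 41 40 44))))) .nd))))))) (.rp 47 (.str 25 (.nv (.thr 59 8 (.thr 29 17 (.thr 51 55 (.dbl 12 38 46)))) (.nv (.thr 29 17 (.thr 12 46 (.thr 13 14 (.thr 37 49 (.thr 53 5 (.dbl 48 26 58)))))) (.nv (.thr 29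 17 (.thr 12 46 (.thr 59 8 (.dbl 51 38 55)))) (.rp 51 (.thr 17 29 (.str 43 (.nv (.thr 59 8 (.thr 27 11 (.thr 26 24 (.thr 48 37 (.dbl 58 10 53))))) (.nv (.thr 41 40 (.thr 61 1 (.thr 60 62 (.dbl 3 22 23)))) (.rp 60 (.str 54 (.nv (.thr 23 3 (.thr 59 8 (.thr 27 11 (.thr 19 31 (.dbl 22 20 28))))) (.nv (.thr 23 3 (.thr 22 20 (.thr 40 41 (.thr 19 28 (.thr 31 27 (.dbl 16 18 26)))))) (.nv (.thr 59 8 (.thr 27 11 (.thr 26 24 (.thr 48 37 (.dbl 58 10 53))))) (.rp 40 (.str 20 (.nv (.dbl 23 3 22) (.rp 23 (.thr 59 8 (.thr 27 11 (.thr 24 26 (.thr 28 16 (.thr 22 19 (.thr 38 6 (.thr 62 2 (.thr 58 50 (.thr 48 53 (.thr 36 12 (.dbl 4 52 55))))))))))) (.rp 22 (.thr 3 23 (.thr 59 8 (.thr 27 11 (.thr 24 26 (.thr 16 28 (.thr 18 19 (.thr 48 33 (.thr 53 58 (.thr 37 5 (.thr 13 49 (.dbl 12 14 36))))))))))) (.rp 3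 (.thr 22 23 (.thr 59 8 (.thr 27 11 (.thr 24 26 (.dbl 28 16 19))))) .nd))))) (.rp 27 (.thr 23 3 (.thr 22 20 (.thr 40 41 (.thr 38 6 (.thr 34 46 (.thr 2 62 (.thr 18 50 (.dbl 19 16 28)))))))) (.rp 22 (.thr 59 8 (.thr 27 11 (.thr 26 24 (.thr 31 16 (.dbl 23 3 19))))) (.rp 20 (.thr 40 41 (.thr 59 8 (.thr 27 11 (.thr 26 24 (.thr 48 37 (.dbl 58 10 53)))))) (.rp 12 (.thr 23 3 (.thr 22 20 (.thr 40 41 (.thr 6 38 (.thr 2 62 (.thr 10 14 (.thr 26 58 (.thr 31 16 (.dbl 19 27 28))))))))) .nd))))))))) (.rp 54 (.str 60 (.nv (.thr 23 3 (.thr 22 20 (.dbl 62 2 61))) (.nv (.thr 41 40 (.dbl 3 22 23)) (.nv (.thr 41 40 (.dbl 61 1 62)) .nd)))) (.rp 40 (.thr 23 3 (.thr 59 8 (.thr 27 11 (.thr 19 31 (.dbl 22 20 28))))) (.rp 22 (.thr 23 3 (.thr 59 8 (.thr 27 11 (.thr 26 24 (.dbl 31 16 19))))) .nd)))))))) (.rp 46 (.thr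 59 8 (.thr 51 55 (.thr 12 38 (.thr 13 14 (.thr 37 49 (.thr 53 5 (.dbl 48 26 58))))))) (.rp 29 (.thr 59 8 (.thr 51 55 (.thr 12 38 (.thr 13 14 (.thr 37 49 (.thr 53 5 (.dbl 48 26 58))))))) (.rp 17 (.thr 59 8 (.thr 51 55 (.thr 12 38 (.thr 13 14 (.thr 37 49 (.thr 53 5 (.dbl 48 26 58))))))) (.rp 12 (.str 13 (.nv (.thr 29 17 (.thr 37 49 (.thr 5 53 (.thr 61 45 (.dbl 1 9 41))))) (.nv (.thr 37 49 (.thr 53 5 (.dbl 48 26 58))) (.rp 53 (.thr 29 17 (.thr 61 45 (.thr 60 62 (.thr 41 1 (.thr 43 40 (.dbl 3 22 23)))))) (.rp 49 (.thr 29 17 (.thr 61 45 (.thr 62 60 (.thr 22 2 (.thr 20 23 (.thr 28 19 (.thr 31 30 (.dbl 16 24 26)))))))) (.rp 37 (.thr 29 17 (.thr 61 45 (.thr 60 62 (.thr 41 1 (.thr 43 40 (.dbl 3 22 23)))))) (.rp 8 (.str 4 (.nv (.thr 55 38 (.thr 51 59 (.thr 27 39 (.thr 26 24 (.dbl 37 48 49)))))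 (.nv (.thr 29 17 (.thr 37 49 (.thr 5 53 (.thr 61 45 (.dbl 1 9 41))))) (.nv (.thr 37 49 (.thr 53 5 (.dbl 48 26 58))) (.rp 49 (.thr 55 38 (.thr 51 59 (.thr 27 39 (.thr 26 24 (.thr 58 10 (.dbl 48 37 53)))))) (.rp 37 (.thr 29 17 (.thr 61 45 (.thr 60 62 (.thr 41 1 (.thr 43 40 (.dbl 3 22 23)))))) .nd)))))) (.rp 5 (.thr 29 17 (.thr 61 45 (.thr 60 62 (.thr 41 1 (.thr 43 40 (.dbl 3 22 23)))))) (.rp 4 (.thr 8 59 (.thr 37 49 (.thr 48 26 (.dbl 53 5 58)))) .nd))))))))) .nd))))))))) (.rp 37 (.str 22 (.nv (.thr 31 47 (.thr 26 16 (.thr 30 18 (.thr 60 45 (.dbl 62 2 61))))) (.nv (.thr 20 23 (.thr 31 47 (.thr 16 26 (.thr 28 24 (.thr 25 19 (.dbl 29 17 30)))))) (.nv (.thr 23 20 (.thr 3 43 (.thr 62 2 (.dbl 60 41 61)))) .nd)))) (.rp 31 (.str 41 (.nv (.thr 61 1 (.thr 60 62 (.thr 45 30 (.thr 37 33 (.thr 53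 5 (.dbl 48 26 58)))))) (.nv (.thr 61 1 (.thr 43 40 (.thr 60 62 (.dbl 3 22 23)))) (.rp 62 (.thr 43 40 (.thr 3 23 (.thr 60 22 (.thr 45 30 (.thr 37 33 (.thr 53 5 (.dbl 48 26 58))))))) (.rp 61 (.thr 43 40 (.thr 3 23 (.thr 60 22 (.thr 45 30 (.thr 37 33 (.thr 53 5 (.dbl 48 26 58))))))) (.rp 60 (.thr 40 43 (.str 44 (.nv (.thr 32 36 (.thr 37 47 (.thr 48 26 (.dbl 53 5 58)))) (.nv (.thr 38 35 (.thr 55 4 (.thr 51 59 (.thr 12 25 (.dbl 46 29 34))))) (.nv (.thr 32 36 (.thr 35 38 (.thr 37 47 (.dbl 33 34 45)))) (.rp 54 (.str 51 (.nv (.thr 55 59 (.dbl 38 4 35)) (.nv (.thr 32 36 (.thr 37 47 (.thr 48 26 (.dbl 53 5 58)))) (.nv (.thr 38 35 (.dbl 55 4 59)) (.rp 35 (.thr 59 55 (.thr 25 8 (.thr 29 17 (.dbl 12 38 46)))) .nd))))) (.rp 51 (.str 54 (.nv (.thr 32 36 (.thr 37 47 (.thr 48 26 (.dbl 53 5 58)))) (.nv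 (.thr 32 36 (.thr 37 47 (.thr 33 45 (.dbl 35 34 38)))) (.rp 47 (.thr 36 32 (.thr 38 35 (.thr 39 37 (.thr 22 6 (.thr 20 23 (.dbl 4 52 55)))))) (.rp 39 (.thr 32 36 (.thr 47 37 (.thr 38 35 (.dbl 46 34 45)))) (.rp 37 (.thr 36 32 (.thr 38 35 (.thr 22 6 (.thr 20 23 (.dbl 4 52 55))))) (.rp 36 (.thr 38 35 (.thr 22 6 (.thr 62 2 (.thr 58 50 (.thr 48 53 (.dbl 26 10 37)))))) (.rp 35 (.thr 32 36 (.thr 47 37 (.thr 46 45 (.thr 29 12 (.thr 38 34 (.thr 17 25 (.thr 22 6 (.thr 62 2 (.thr 14 30 (.dbl 50 26 58)))))))))) (.rp 34 (.str 17 (.nv (.thr 32 36 (.thr 37 47 (.thr 48 26 (.dbl 53 5 58)))) (.nv (.thr 61 1 (.thr 29 25 (.thr 12 46 (.dbl 13 14 45)))) .nd))) (.rp 32 (.thr 38 35 (.thr 55 4 (.thr 53 52 (.thr 48 58 (.dbl 37 5 26))))) (.rp 17 (.str 34 (.nv (.thr 32 36 (.thr 33 35 (.dbl 37 45 47))) (.nv (.dbl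 38 35 46) (.rp 35 (.thr 32 36 (.thr 47 37 (.dbl 46 38 45))) .nd)))) .nd))))))))))) (.rp 47 (.thr 36 32 (.thr 38 35 (.thr 39 37 (.thr 55 4 (.dbl 51 27 59))))) (.rp 35 (.thr 32 36 (.thr 47 37 (.thr 46 45 (.thr 12 29 (.thr 38 34 (.thr 55 4 (.dbl 51 25 59))))))) .nd))))))))) (.rp 3 (.str 11 (.nv (.thr 26 56 (.thr 43 40 (.thr 10 58 (.thr 59 27 (.dbl 8 9 25))))) (.nv (.thr 26 56 (.thr 58 10 (.dbl 48 37 53))) (.rp 58 (.thr 43 40 (.thr 59 27 (.thr 51 55 (.thr 25 8 (.thr 29 17 (.dbl 12 38 46)))))) (.rp 56 (.thr 43 40 (.thr 59 27 (.thr 55 51 (.thr 38 4 (.thr 34 46 (.thr 35 44 (.thr 47 39 (.dbl 32 33 37)))))))) (.rp 26 (.thr 43 40 (.thr 59 27 (.thr 51 55 (.thr 25 8 (.thr 29 17 (.dbl 12 38 46)))))) (.rp 10 (.thr 43 40 (.thr 59 27 (.thr 51 55 (.thr 25 8 (.thr 29 17 (.dbl 12 38 46)))))) (.rp 2 (.thr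 1 61 (.thr 26 56 (.thr 58 10 (.dbl 48 37 53)))) (.rp 1 (.str 2 (.nv (.thr 62 22 (.thr 60 61 (.thr 45 30 (.thr 37 33 (.dbl 26 48 56))))) (.nv (.thr 26 56 (.thr 43 40 (.thr 10 58 (.thr 59 27 (.dbl 8 9 25))))) (.nv (.thr 26 56 (.thr 58 10 (.dbl 48 37 53))) (.rp 56 (.thr 62 22 (.thr 60 61 (.thr 45 30 (.thr 37 33 (.thr 53 5 (.dbl 48 26 58)))))) (.rp 26 (.thr 43 40 (.thr 59 27 (.thr 51 55 (.thr 25 8 (.thr 29 17 (.dbl 12 38 46)))))) .nd)))))) .nd))))))))) (.rp 2 (.thr 43 40 (.thr 3 23 (.thr 61 1 (.dbl 60 22 62)))) (.rp 1 (.thr 43 40 (.thr 3 23 (.thr 60 22 (.thr 45 30 (.thr 37 33 (.thr 53 5 (.dbl 48 26 58))))))) .nd))))))))) (.rp 26 (.str 12 (.nv (.thr 13 14 (.thr 47 31 (.thr 37 32 (.thr 25 49 (.thr 59 8 (.dbl 51 38 55)))))) (.nv (.thr 14 13 (.thr 46 29 (.thr 30 62 (.thr 47 31 (.dbl 45 44 60)))))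 (.nv (.thr 29 46 (.thr 25 17 (.thr 59 8 (.dbl 51 38 55)))) .nd)))) .nd))))))))))

theorem w316 : WinAt (9223376434903384064, 144115188075856001) :=
  chF (K := []) kn c316 9223376434903384064 144115188075856001 0
    [] (by decide +kernel) (by decide +kernel)

/-- A certificate. -/
noncomputable def c317 : Ct := (.str 12 (.nv (.thr 46 29 (.thr 38 34 (.thr 51 25 (.dbl 55 4 59)))) (.nv (.thr 29 46 (.thr 25 17 (.thr 51 38 (.dbl 59 8 55)))) (.rp 59 (.thr 29 46 (.thr 25 17 (.thr 51 38 (.str 57 (.nv (.thr 60 54 (.thr 28 44 (.thr 22 19 (.thr 23 20 (.dbl 3 41 43))))) (.nv (.thr 41 9 (.thr 61 1 (.thr 13 45 (.dbl 49 37 53)))) (.nv (.thr 41 9 (.thr 60 54 (.dbl 61 1 62))) (.rp 41 (.thr 60 54 (.thr 62 61 (.thr 22 2 (.dbl 28 19 44)))) .nd)))))))) (.rp 55 (.str 23 (.nv (.thr 3 43 (.thr 6 9 (.thr 46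 29 (.thr 38 34 (.dbl 22 20 54))))) (.nv (.thr 3 43 (.thr 22 20 (.thr 60 41 (.dbl 62 2 61)))) (.rp 43 (.thr 29 46 (.thr 22 20 (.thr 62 2 (.thr 60 61 (.thr 28 44 (.dbl 25 17 19)))))) (.rp 22 (.thr 46 29 (.thr 43 3 (.thr 41 40 (.thr 38 34 (.thr 44 35 (.thr 60 28 (.dbl 61 1 62))))))) (.rp 20 (.thr 46 29 (.thr 3 43 (.thr 6 9 (.thr 38 34 (.thr 22 54 (.thr 62 2 (.dbl 60 41 61))))))) (.rp 3 (.thr 29 46 (.thr 22 20 (.thr 25 17 (.thr 28 19 (.thr 60 44 (.dbl 62 2 61)))))) .nd))))))) (.rp 51 (.thr 29 46 (.str 13 (.nv (.thr 15 14 (.thr 47 31 (.thr 37 32 (.dbl 25 17 49)))) (.nv (.thr 61 45 (.thr 1 41 (.thr 5 9 (.thr 37 53 (.dbl 25 17 49))))) (.nv (.thr 15 14 (.thr 31 47 (.thr 45 61 (.dbl 30 28 60)))) (.rp 47 (.thr 15 14 (.thr 45 61 (.thr 30 60 (.thr 31 28 (.thr 26 16 (.thr 48 37 (.thr 24 36 (.dbl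 25 17 27)))))))) (.rp 34 (.thr 17 25 (.thr 15 14 (.thr 45 61 (.thr 30 60 (.dbl 31 28 47))))) (.rp 17 (.str 34 (.nv (.thr 61 45 (.thr 1 41 (.thr 5 9 (.thr 37 53 (.thr 47 32 (.dbl 15 14 31)))))) (.nv (.thr 61 45 (.thr 41 1 (.thr 43 40 (.thr 3 23 (.dbl 60 22 62))))) (.nv (.thr 15 14 (.thr 31 47 (.thr 45 61 (.dbl 30 28 60)))) (.rp 61 (.thr 15 14 (.thr 47 31 (.thr 37 32 (.thr 5 53 (.thr 9 1 (.thr 3 6 (.thr 43 23 (.thr 41 40 (.dbl 25 49 57))))))))) (.rp 47 (.str 37 (.nv (.thr 45 61 (.thr 15 14 (.thr 26 48 (.thr 30 60 (.dbl 31 16 28))))) (.nv (.thr 5 53 (.thr 1 9 (.dbl 61 41 45))) (.rp 61 (.thr 5 53 (.thr 9 1 (.thr 3 6 (.thr 43 23 (.thr 41 40 (.dbl 25 49 57)))))) (.rp 45 (.str 44 (.nv (.thr 5 53 (.thr 1 9 (.thr 41 61 (.thr 35 38 (.thr 32 33 (.dbl 40 36 43)))))) (.nv (.thr 15 14 (.thr 26 48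 (.thr 28 60 (.dbl 31 16 30)))) (.nv (.thr 5 53 (.thr 60 28 (.thr 1 9 (.dbl 61 41 62)))) .nd)))) .nd))))) (.rp 45 (.thr 15 14 (.thr 47 31 (.thr 37 32 (.thr 5 53 (.thr 9 1 (.thr 3 6 (.thr 43 23 (.thr 41 40 (.dbl 25 49 57))))))))) .nd))))))) .nd)))))))) (.rp 46 (.str 41 (.nv (.thr 43 40 (.thr 3 23 (.thr 9 6 (.thr 25 57 (.thr 51 38 (.dbl 59 8 55)))))) (.nv (.thr 61 1 (.thr 60 62 (.thr 44 28 (.thr 38 35 (.thr 55 4 (.dbl 51 25 59)))))) (.nv (.thr 43 40 (.thr 61 1 (.thr 3 23 (.dbl 60 22 62)))) (.rp 60 (.str 44 (.nv (.thr 40 43 (.thr 32 36 (.thr 35 38 (.thr 37 47 (.dbl 33 34 45))))) (.nv (.thr 38 35 (.thr 51 25 (.dbl 55 4 59))) (.rp 40 (.str 20 (.nv (.thr 23 22 (.thr 3 43 (.thr 38 35 (.thr 25 51 (.dbl 9 6 57))))) (.nv (.thr 38 35 (.thr 51 25 (.dbl 55 4 59))) (.rp 51 (.thr 23 22 (.thr 38 35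 (.thr 4 55 (.thr 36 52 (.thr 37 39 (.thr 47 32 (.thr 15 31 (.dbl 48 24 26)))))))) (.rp 38 (.str 28 (.nv (.thr 16 24 (.thr 31 26 (.thr 15 47 (.thr 29 30 (.thr 61 1 (.dbl 13 14 45)))))) (.nv (.thr 1 61 (.thr 22 23 (.thr 25 19 (.thr 17 29 (.thr 49 33 (.thr 13 37 (.dbl 9 5 57))))))) (.nv (.thr 16 24 (.thr 22 23 (.thr 19 25 (.thr 26 31 (.dbl 18 17 30))))) (.rp 31 (.thr 22 23 (.thr 24 16 (.thr 61 1 (.thr 25 19 (.thr 27 26 (.thr 57 9 (.thr 49 53 (.thr 13 37 (.dbl 29 17 45))))))))) (.rp 25 (.thr 23 22 (.thr 24 16 (.thr 48 36 (.thr 3 43 (.thr 33 18 (.thr 37 45 (.thr 47 32 (.dbl 15 26 31)))))))) (.rp 22 (.thr 16 24 (.thr 31 26 (.thr 47 15 (.thr 37 32 (.thr 61 1 (.thr 45 33 (.dbl 29 13 30))))))) .nd))))))) (.rp 35 (.thr 23 22 (.thr 3 43 (.thr 9 6 (.thr 25 57 (.thr 59 8 (.dbl 51 38 55)))))) (.rp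 25 (.thr 23 22 (.thr 38 35 (.thr 4 55 (.thr 36 52 (.thr 37 39 (.thr 47 32 (.thr 15 31 (.dbl 48 24 26)))))))) .nd))))))) (.rp 38 (.thr 40 43 (.thr 32 36 (.thr 37 47 (.thr 5 53 (.thr 1 61 (.thr 13 9 (.thr 33 45 (.dbl 49 17 25)))))))) (.rp 35 (.thr 40 43 (.thr 32 36 (.thr 47 37 (.thr 15 31 (.thr 13 14 (.thr 61 1 (.thr 29 45 (.thr 25 17 (.thr 59 8 (.dbl 51 38 55)))))))))) .nd)))))) (.rp 55 (.thr 43 40 (.thr 61 1 (.thr 60 62 (.dbl 3 22 23)))) (.rp 3 (.str 15 (.nv (.thr 1 61 (.thr 13 14 (.thr 9 5 (.thr 25 57 (.thr 51 38 (.dbl 59 8 55)))))) (.nv (.thr 31 47 (.thr 26 16 (.thr 48 37 (.thr 24 36 (.thr 40 43 (.dbl 56 8 11)))))) (.nv (.thr 1 61 (.thr 13 14 (.thr 5 9 (.thr 47 31 (.dbl 37 32 53))))) (.rp 1 (.str 2 (.nv (.thr 43 40 (.thr 47 31 (.thr 39 35 (.thr 51 27 (.thr 25 38 (.dbl 59 8 55))))))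 (.nv (.thr 47 31 (.thr 37 32 (.thr 62 22 (.thr 60 61 (.dbl 45 30 33))))) (.rp 60 (.thr 13 14 (.thr 47 31 (.thr 37 32 (.thr 45 33 (.thr 29 61 (.dbl 25 17 49)))))) (.rp 47 (.thr 62 22 (.thr 60 61 (.thr 44 28 (.thr 38 35 (.thr 55 4 (.dbl 51 25 59)))))) (.rp 31 (.thr 62 22 (.thr 60 61 (.thr 44 28 (.thr 38 35 (.thr 55 4 (.dbl 51 25 59)))))) .nd)))))) .nd))))) .nd))))))) (.rp 38 (.str 28 (.nv (.thr 60 44 (.thr 29 46 (.thr 61 62 (.thr 30 31 (.dbl 45 13 15))))) (.nv (.thr 29 46 (.thr 25 17 (.thr 22 19 (.thr 20 23 (.thr 16 24 (.dbl 31 26 30)))))) (.nv (.thr 60 44 (.thr 62 61 (.thr 22 2 (.thr 23 20 (.dbl 3 41 43))))) .nd)))) (.rp 29 (.str 41 (.nv (.thr 61 1 (.thr 60 62 (.thr 44 28 (.thr 38 35 (.thr 51 25 (.dbl 55 4 59)))))) (.nv (.thr 43 40 (.thr 3 23 (.thr 9 6 (.thr 25 57 (.thr 59 8 (.dbl 51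 38 55)))))) (.nv (.thr 61 1 (.thr 60 62 (.thr 43 40 (.dbl 3 22 23)))) (.rp 60 (.str 44 (.nv (.thr 40 43 (.thr 32 36 (.thr 35 38 (.thr 37 47 (.dbl 33 34 45))))) (.nv (.thr 38 35 (.thr 51 25 (.dbl 55 4 59))) (.rp 40 (.str 20 (.nv (.thr 23 22 (.thr 3 43 (.thr 38 35 (.thr 25 51 (.dbl 9 6 57))))) (.nv (.thr 38 35 (.thr 51 25 (.dbl 55 4 59))) (.rp 51 (.thr 23 22 (.thr 43 3 (.thr 35 38 (.thr 47 39 (.thr 45 46 (.dbl 37 32 33)))))) (.rp 38 (.str 28 (.nv (.thr 16 24 (.thr 31 26 (.thr 47 15 (.thr 45 46 (.dbl 37 32 33))))) (.nv (.thr 22 23 (.thr 16 24 (.thr 26 31 (.thr 19 25 (.dbl 18 17 30))))) (.rp 56 (.thr 23 22 (.thr 24 16 (.thr 48 36 (.thr 3 43 (.thr 33 18 (.thr 37 45 (.thr 47 32 (.dbl 15 26 31)))))))) (.rp 31 (.thr 22 23 (.thr 24 16 (.thr 48 36 (.thr 61 1 (.thr 25 19 (.thr 27 26 (.thr 57 9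 (.thr 59 8 (.thr 49 53 (.dbl 51 50 55)))))))))) (.rp 26 (.thr 22 23 (.thr 1 61 (.thr 2 62 (.thr 25 19 (.thr 9 57 (.thr 13 5 (.thr 6 3 (.dbl 14 10 15)))))))) (.rp 25 (.thr 23 22 (.thr 16 24 (.thr 31 26 (.thr 27 19 (.thr 47 15 (.thr 45 46 (.dbl 37 32 33))))))) (.rp 24 (.thr 22 23 (.thr 2 62 (.thr 25 19 (.thr 9 57 (.thr 6 3 (.thr 10 14 (.dbl 8 11 59))))))) (.rp 16 (.thr 22 23 (.thr 2 62 (.thr 25 19 (.thr 9 57 (.thr 6 3 (.thr 10 14 (.dbl 8 11 59))))))) (.rp 8 (.thr 22 23 (.thr 24 16 (.thr 48 36 (.thr 25 19 (.thr 9 57 (.thr 3 6 (.thr 18 33 (.dbl 26 27 30)))))))) .nd)))))))))) (.rp 35 (.thr 23 22 (.thr 3 43 (.thr 9 6 (.thr 25 57 (.thr 59 8 (.dbl 51 38 55)))))) (.rp 25 (.thr 23 22 (.thr 43 3 (.thr 35 38 (.thr 47 39 (.thr 45 46 (.dbl 37 32 33)))))) .nd))))))) (.rp 38 (.thr 40 43 (.thr 32 36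 (.thr 37 47 (.thr 5 53 (.thr 1 61 (.thr 13 9 (.thr 33 45 (.dbl 49 17 25)))))))) (.rp 35 (.thr 40 43 (.thr 32 36 (.thr 47 37 (.thr 46 45 (.thr 38 34 (.thr 55 4 (.dbl 51 25 59))))))) .nd)))))) (.rp 3 (.str 15 (.nv (.thr 1 61 (.thr 13 14 (.thr 9 5 (.thr 25 57 (.thr 51 38 (.dbl 59 8 55)))))) (.nv (.thr 31 47 (.thr 26 16 (.thr 48 37 (.thr 24 36 (.thr 40 43 (.dbl 56 8 11)))))) (.nv (.thr 1 61 (.thr 13 14 (.thr 5 9 (.thr 37 53 (.dbl 47 31 32))))) (.rp 1 (.str 2 (.nv (.thr 22 62 (.thr 31 47 (.thr 26 16 (.thr 18 30 (.thr 50 34 (.dbl 14 13 38)))))) (.nv (.thr 31 47 (.thr 26 16 (.thr 40 43 (.thr 56 11 (.thr 24 8 (.dbl 48 36 37)))))) (.nv (.thr 14 13 (.thr 62 22 (.thr 30 46 (.dbl 60 45 61)))) .nd)))) .nd))))) .nd)))))) (.rp 25 (.str 15 (.nv (.thr 31 47 (.thr 26 16 (.thr 46 29 (.thr 38 34 (.dbl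 14 13 50))))) (.nv (.thr 13 14 (.thr 29 46 (.thr 31 47 (.thr 45 61 (.dbl 30 28 60))))) (.rp 47 (.thr 14 13 (.thr 46 29 (.thr 62 30 (.thr 22 2 (.thr 23 20 (.thr 3 43 (.dbl 60 41 61))))))) (.rp 46 (.thr 14 13 (.thr 31 47 (.thr 26 16 (.thr 38 50 (.thr 55 4 (.thr 51 59 (.thr 39 27 (.dbl 37 36 48)))))))) (.rp 31 (.thr 13 14 (.thr 29 46 (.thr 61 45 (.thr 41 1 (.thr 43 40 (.thr 3 23 (.dbl 60 22 62))))))) (.rp 29 (.thr 14 13 (.thr 31 47 (.thr 26 16 (.thr 38 50 (.thr 55 4 (.thr 51 59 (.thr 39 27 (.dbl 37 36 48)))))))) (.rp 14 (.thr 46 29 (.thr 47 31 (.thr 37 32 (.thr 38 34 (.thr 36 39 (.dbl 48 24 26)))))) (.rp 13 (.thr 46 29 (.thr 47 31 (.thr 37 32 (.thr 38 34 (.thr 36 39 (.dbl 48 24 26)))))) .nd))))))))) .nd))))))))))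

theorem w317 : WinAt (9223376434903384064, 288230376151711873) :=
  chF (K := []) kn c317 9223376434903384064 288230376151711873 0
    [] (by decide +kernel) (by decide +kernel)

/-- A certificate. -/
noncomputable def c318 : Ct := (.str 15 (.nv (.thr 31 47 (.thr 26 16 (.thr 48 37 (.dbl 58 10 53)))) (.nv (.thr 47 31 (.thr 37 32 (.thr 48 26 (.dbl 53 5 58)))) (.rp 58 (.str 3 (.nv (.thr 47 31 (.thr 37 32 (.thr 48 26 (.thr 33 18 (.thr 41 45 (.dbl 43 23 40)))))) (.nv (.thr 23 43 (.thr 22 20 (.thr 60 41 (.dbl 62 2 61)))) (.rp 57 (.str 56 (.nv (.thr 31 47 (.thr 26 16 (.thr 48 37 (.thr 18 33 (.thr 22 30 (.dbl 41 11 60)))))) (.nv (.thr 43 23 (.thr 41 40 (.thr 61 1 (.dbl 60 22 62)))) (.nv (.thr 31 47 (.thr 26 16 (.thr 41 11 (.dbl 43 23 40)))) (.rp 41 (.thr 31 47 (.thr 23 43 (.thr 26 16 (.thr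 48 37 (.thr 22 20 (.dbl 18 30 33)))))) .nd))))) (.rp 56 (.str 57 (.nv (.thr 31 47 (.thr 26 16 (.thr 48 37 (.thr 18 33 (.thr 22 30 (.dbl 23 20 43)))))) (.nv (.thr 23 43 (.thr 22 20 (.thr 62 2 (.dbl 60 41 61)))) (.rp 43 (.thr 47 31 (.thr 37 32 (.thr 53 5 (.thr 61 49 (.thr 41 1 (.dbl 60 22 62)))))) (.rp 41 (.thr 23 43 (.thr 31 47 (.thr 26 16 (.thr 48 37 (.thr 22 20 (.dbl 18 30 33)))))) (.rp 23 (.thr 47 31 (.thr 37 32 (.thr 53 5 (.thr 61 49 (.thr 41 1 (.dbl 60 22 62)))))) (.rp 22 (.thr 43 23 (.thr 47 31 (.thr 37 32 (.thr 53 5 (.thr 61 49 (.dbl 41 1 40)))))) (.rp 20 (.thr 43 23 (.thr 41 40 (.thr 60 22 (.dbl 61 1 62)))) .nd)))))))) (.rp 43 (.thr 31 47 (.thr 26 16 (.thr 48 37 (.thr 18 33 (.thr 22 30 (.thr 62 2 (.dbl 60 41 61))))))) (.rp 41 (.thr 23 43 (.thr 31 47 (.thr 26 16 (.thr 22 20 (.thr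 18 30 (.dbl 48 33 37)))))) (.rp 23 (.thr 31 47 (.thr 26 16 (.thr 48 37 (.thr 18 33 (.thr 22 30 (.thr 62 2 (.dbl 60 41 61))))))) (.rp 22 (.thr 43 23 (.thr 47 31 (.thr 37 32 (.thr 41 40 (.thr 33 45 (.dbl 48 18 26)))))) .nd))))))))) (.rp 53 (.str 3 (.nv (.thr 47 31 (.thr 37 32 (.thr 48 26 (.thr 33 18 (.thr 41 45 (.dbl 43 23 40)))))) (.nv (.thr 23 43 (.thr 22 20 (.thr 60 41 (.dbl 62 2 61)))) (.rp 43 (.thr 47 31 (.thr 37 32 (.thr 48 26 (.thr 33 18 (.thr 41 45 (.thr 61 1 (.dbl 60 22 62))))))) (.rp 41 (.thr 23 43 (.thr 31 47 (.thr 26 16 (.thr 22 20 (.thr 18 30 (.dbl 48 33 37)))))) (.rp 23 (.thr 47 31 (.thr 37 32 (.thr 48 26 (.thr 33 18 (.thr 41 45 (.thr 61 1 (.dbl 60 22 62))))))) (.rp 22 (.thr 43 23 (.thr 47 31 (.thr 37 32 (.thr 41 40 (.thr 33 45 (.dbl 48 18 26)))))) .nd))))))) (.rp 48 (.thr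 47 31 (.str 45 (.nv (.thr 32 37 (.thr 44 46 (.thr 40 36 (.thr 41 43 (.thr 61 1 (.dbl 60 30 62)))))) (.nv (.thr 46 44 (.thr 29 12 (.thr 13 61 (.thr 25 17 (.dbl 37 32 49))))) (.nv (.thr 32 37 (.thr 60 30 (.thr 62 61 (.thr 22 2 (.thr 3 41 (.dbl 23 20 43)))))) (.nv (.thr 46 44 (.thr 12 29 (.thr 14 13 (.dbl 30 60 62)))) (.rp 60 (.thr 46 44 (.thr 12 29 (.thr 38 34 (.thr 51 25 (.thr 39 27 (.dbl 37 32 36)))))) (.rp 32 (.str 16 (.nv (.thr 30 60 (.thr 46 44 (.thr 12 29 (.dbl 14 13 62)))) (.nv (.thr 60 30 (.thr 62 61 (.thr 22 2 (.thr 3 41 (.dbl 23 20 43))))) (.nv (.thr 60 30 (.thr 61 62 (.thr 29 13 (.dbl 46 12 44)))) (.rp 62 (.thr 60 30 (.thr 46 44 (.thr 29 12 (.thr 61 13 (.thr 41 1 (.thr 3 22 (.dbl 43 23 40))))))) (.rp 60 (.thr 46 44 (.thr 12 29 (.thr 14 13 (.thr 38 34 (.thr 26 50 (.thr 10 58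 (.thr 2 6 (.dbl 62 22 30)))))))) (.rp 30 (.thr 46 44 (.thr 29 12 (.thr 61 13 (.thr 60 62 (.thr 41 1 (.thr 3 22 (.dbl 43 23 40))))))) (.rp 29 (.thr 44 46 (.thr 60 30 (.thr 28 12 (.thr 62 61 (.thr 22 2 (.dbl 20 23 24)))))) .nd)))))))) .nd)))))))) (.rp 47 (.str 62 (.nv (.thr 22 2 (.thr 60 61 (.thr 30 45 (.thr 26 18 (.thr 58 10 (.dbl 48 37 53)))))) (.nv (.thr 60 61 (.thr 22 2 (.thr 3 41 (.dbl 23 20 43)))) (.rp 61 (.thr 22 2 (.thr 23 20 (.thr 3 43 (.thr 60 41 (.thr 30 45 (.thr 26 18 (.thr 58 10 (.dbl 48 37 53)))))))) (.rp 60 (.str 12 (.nv (.thr 14 13 (.dbl 46 29 30)) (.rp 46 (.thr 14 13 (.thr 2 22 (.thr 10 6 (.thr 26 58 (.thr 37 48 (.thr 38 50 (.thr 39 36 (.dbl 51 25 27)))))))) (.rp 40 (.str 20 (.nv (.thr 14 13 (.dbl 46 29 30)) (.nv (.dbl 22 2 23) .nd))) (.rp 30 (.thr 14 13 (.thr 46 29 (.thr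 22 2 (.thr 38 34 (.thr 54 6 (.dbl 50 26 58)))))) (.rp 29 (.thr 14 13 (.thr 46 30 (.thr 22 2 (.thr 38 34 (.thr 54 6 (.dbl 50 26 58)))))) (.rp 20 (.str 40 (.nv (.thr 14 13 (.dbl 46 29 30)) (.rp 46 (.thr 14 13 (.thr 43 41 (.thr 2 22 (.thr 3 23 (.dbl 6 9 10))))) (.rp 30 (.thr 13 14 (.thr 29 46 (.thr 41 43 (.dbl 61 1 45)))) (.rp 29 (.thr 14 13 (.thr 43 41 (.thr 2 22 (.thr 3 23 (.dbl 6 9 10))))) (.rp 14 (.thr 46 29 (.thr 43 41 (.thr 22 2 (.thr 38 34 (.thr 6 54 (.dbl 3 9 23)))))) (.rp 13 (.thr 46 29 (.thr 14 30 (.thr 43 41 (.thr 2 22 (.thr 3 23 (.dbl 6 9 10)))))) .nd))))))) (.rp 14 (.thr 46 29 (.thr 22 2 (.thr 38 34 (.thr 6 54 (.thr 3 9 (.dbl 23 20 43)))))) (.rp 13 (.thr 46 29 (.thr 14 30 (.thr 22 2 (.thr 38 34 (.thr 54 6 (.dbl 50 26 58)))))) .nd))))))))) (.rp 22 (.thr 60 61 (.thr 30 45 (.thr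 46 14 (.thr 29 12 (.thr 31 28 (.thr 26 16 (.thr 58 10 (.dbl 48 37 53)))))))) (.rp 3 (.thr 60 61 (.thr 30 45 (.thr 46 14 (.thr 29 12 (.thr 28 31 (.thr 25 17 (.dbl 22 2 19))))))) (.rp 2 (.thr 60 61 (.thr 30 45 (.thr 46 14 (.thr 29 12 (.thr 31 28 (.thr 26 16 (.thr 48 37 (.dbl 58 10 53)))))))) .nd)))))))) (.rp 37 (.str 22 (.nv (.thr 31 47 (.thr 26 16 (.thr 30 18 (.thr 60 45 (.dbl 62 2 61))))) (.nv (.thr 20 23 (.thr 31 47 (.thr 16 26 (.thr 28 24 (.thr 25 19 (.dbl 29 17 30)))))) (.nv (.thr 62 2 (.thr 23 20 (.thr 60 61 (.dbl 3 41 43)))) .nd)))) (.rp 31 (.str 61 (.nv (.thr 41 1 (.thr 60 62 (.thr 45 30 (.thr 37 33 (.thr 53 5 (.dbl 48 26 58)))))) (.nv (.thr 60 62 (.thr 41 1 (.thr 43 40 (.dbl 3 22 23)))) (.rp 62 (.thr 41 1 (.thr 43 40 (.thr 3 23 (.thr 60 22 (.thr 45 30 (.thr 37 33 (.thr 53 5 (.dbl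 48 26 58)))))))) (.rp 60 (.str 12 (.nv (.thr 13 14 (.dbl 29 45 46)) (.rp 46 (.thr 13 14 (.thr 29 45 (.thr 41 1 (.thr 25 17 (.thr 57 9 (.dbl 49 37 53)))))) (.rp 45 (.thr 13 14 (.thr 29 46 (.thr 41 1 (.thr 25 17 (.thr 57 9 (.dbl 49 37 53)))))) (.rp 40 (.str 20 (.nv (.thr 13 14 (.dbl 29 45 46)) (.rp 46 (.thr 13 14 (.thr 23 22 (.thr 1 41 (.thr 3 43 (.dbl 9 5 6))))) (.rp 45 (.thr 14 13 (.thr 46 29 (.thr 22 23 (.dbl 62 2 30)))) (.rp 29 (.thr 13 14 (.thr 23 22 (.thr 1 41 (.thr 3 43 (.dbl 9 5 6))))) (.rp 14 (.thr 46 29 (.thr 38 34 (.thr 4 55 (.thr 36 52 (.thr 48 24 (.dbl 37 26 39)))))) (.rp 13 (.thr 46 29 (.thr 38 34 (.thr 4 55 (.thr 36 52 (.thr 48 24 (.dbl 37 26 39)))))) .nd))))))) (.rp 29 (.thr 13 14 (.thr 1 41 (.thr 5 9 (.thr 37 53 (.thr 26 48 (.thr 25 49 (.thr 27 24 (.dbl 51 38 39))))))))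 (.rp 20 (.str 40 (.nv (.thr 13 14 (.dbl 29 45 46)) (.nv (.dbl 41 1 43) .nd))) (.rp 14 (.thr 29 46 (.thr 13 45 (.thr 41 1 (.thr 25 17 (.thr 57 9 (.dbl 49 37 53)))))) (.rp 13 (.thr 29 46 (.thr 41 1 (.thr 25 17 (.thr 9 57 (.thr 3 6 (.dbl 43 23 40)))))) .nd))))))))) (.rp 41 (.thr 60 62 (.thr 45 30 (.thr 29 13 (.thr 46 12 (.thr 47 44 (.thr 37 32 (.thr 53 5 (.dbl 48 26 58)))))))) (.rp 3 (.thr 60 62 (.thr 45 30 (.thr 29 13 (.thr 46 12 (.thr 44 47 (.thr 38 34 (.dbl 41 1 35))))))) (.rp 2 (.thr 60 62 (.thr 41 1 (.thr 3 22 (.dbl 43 23 40)))) (.rp 1 (.thr 60 62 (.thr 45 30 (.thr 29 13 (.thr 46 12 (.thr 47 44 (.thr 37 32 (.thr 48 26 (.dbl 53 5 58)))))))) .nd))))))))) (.rp 26 (.str 3 (.nv (.thr 43 23 (.thr 41 40 (.thr 60 22 (.thr 47 31 (.thr 37 32 (.dbl 45 30 33)))))) (.nv (.thr 23 43 (.thr 22 20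 (.thr 62 2 (.dbl 60 41 61)))) (.rp 60 (.thr 43 23 (.thr 47 31 (.thr 37 32 (.thr 53 5 (.thr 48 58 (.thr 33 18 (.dbl 41 40 45))))))) (.rp 43 (.thr 47 31 (.thr 37 32 (.thr 53 5 (.thr 48 58 (.thr 33 18 (.thr 41 45 (.thr 61 1 (.dbl 60 22 62)))))))) (.rp 41 (.thr 23 43 (.thr 31 47 (.thr 22 20 (.thr 62 2 (.thr 60 61 (.thr 30 45 (.thr 46 14 (.dbl 29 12 28)))))))) (.rp 40 (.thr 23 43 (.thr 22 20 (.thr 60 41 (.dbl 62 2 61)))) (.rp 27 (.thr 43 23 (.thr 41 40 (.thr 61 1 (.dbl 60 22 62)))) (.rp 23 (.thr 47 31 (.thr 37 32 (.thr 53 5 (.thr 48 58 (.thr 33 18 (.thr 41 45 (.thr 61 1 (.dbl 60 22 62)))))))) (.rp 22 (.thr 43 23 (.thr 47 31 (.thr 37 32 (.thr 53 5 (.thr 41 40 (.thr 33 45 (.dbl 48 18 58))))))) .nd)))))))))) .nd))))))))))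

theorem w318 : WinAt (9223376434903384064, 576460752303423617) :=
  chF (K := []) kn c318 9223376434903384064 576460752303423617 0
    [] (by decide +kernel) (by decide +kernel)

/-- A certificate. -/
noncomputable def c319 : Ct := (.str 37 (.nv (.thr 47 32 (.thr 53 5 (.thr 63 0 (.thr 15 31 (.dbl 48 26 58))))) (.nv (.thr 5 53 (.thr 0 63 (.thr 15 10 (.thr 32 47 (.dbl 48 16 26))))) (.rp 63 (.str 49 (.nv (.thr 53 5 (.thr 61 57 (.thr 41 1 (.thr 13 25 (.dbl 45 29 33))))) (.nv (.thr 25 13 (.thr 17 29 (.thr 32 47 (.thr 33 1 (.thr 34 35 (.thr 51 0 (.dbl 38 12 46))))))) (.nv (.thr 13 25 (.thr 5 53 (.thr 1 9 (.thr 33 17 (.dbl 41 45 61))))) (.rp 62 (.str 61 (.nv (.thr 1 41 (.thr 17 33 (.dbl 25 13 29))) (.nv (.dbl 53 5 57) .nd))) (.rp 61 (.str 62 (.nv (.thr 25 13 (.thr 29 17 (.thr 22 2 (.thr 28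 19 (.thr 20 23 (.thr 16 24 (.dbl 31 26 30))))))) (.nv (.thr 22 2 (.thr 20 23 (.thr 25 13 (.thr 28 19 (.thr 16 24 (.thr 32 47 (.thr 48 0 (.dbl 26 15 31)))))))) (.nv (.thr 22 2 (.thr 25 13 (.thr 28 19 (.thr 29 17 (.thr 31 30 (.thr 16 26 (.dbl 20 23 24))))))) (.rp 31 (.thr 5 53 (.thr 13 25 (.thr 1 9 (.thr 33 17 (.thr 41 45 (.thr 2 22 (.thr 0 3 (.thr 32 47 (.thr 15 10 (.dbl 48 16 26)))))))))) (.rp 29 (.thr 32 47 (.thr 5 53 (.thr 13 25 (.thr 1 9 (.thr 33 17 (.thr 41 45 (.thr 35 34 (.thr 44 38 (.dbl 40 36 43))))))))) (.rp 28 (.thr 32 47 (.thr 5 53 (.thr 13 25 (.thr 1 9 (.thr 33 17 (.thr 41 45 (.thr 35 34 (.thr 44 38 (.dbl 40 36 43))))))))) (.rp 26 (.thr 32 47 (.thr 5 53 (.thr 13 25 (.thr 1 9 (.thr 33 17 (.thr 41 45 (.thr 35 34 (.thr 44 38 (.dbl 40 36 43))))))))) (.rp 25 (.str 48 (.nv (.thr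 2 22 (.thr 50 51 (.thr 34 18 (.thr 38 46 (.dbl 26 14 15))))) (.nv (.thr 32 47 (.thr 16 0 (.dbl 26 15 31))) (.rp 26 (.thr 50 51 (.thr 54 58 (.thr 53 5 (.thr 55 52 (.thr 22 2 (.dbl 38 4 6)))))) (.rp 15 (.thr 50 51 (.thr 54 58 (.thr 53 5 (.thr 55 52 (.thr 22 2 (.dbl 38 4 6)))))) .nd))))) (.rp 24 (.thr 32 47 (.thr 5 53 (.thr 13 25 (.thr 1 9 (.thr 33 17 (.thr 41 45 (.thr 35 34 (.thr 44 38 (.dbl 40 36 43))))))))) (.rp 23 (.thr 32 47 (.thr 5 53 (.thr 13 25 (.thr 1 9 (.thr 33 17 (.thr 41 45 (.thr 35 34 (.thr 44 38 (.dbl 40 36 43))))))))) (.rp 22 (.thr 32 47 (.thr 5 53 (.thr 13 25 (.thr 1 9 (.thr 33 17 (.thr 41 45 (.thr 35 34 (.thr 44 38 (.dbl 40 36 43))))))))) (.rp 20 (.thr 32 47 (.thr 5 53 (.thr 13 25 (.thr 1 9 (.thr 33 17 (.thr 41 45 (.thr 35 34 (.thr 44 38 (.dbl 40 36 43))))))))) (.rp 19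 (.thr 32 47 (.thr 5 53 (.thr 13 25 (.thr 1 9 (.thr 33 17 (.thr 41 45 (.thr 35 34 (.thr 44 38 (.dbl 40 36 43))))))))) (.rp 16 (.thr 32 47 (.thr 5 53 (.thr 13 25 (.thr 1 9 (.thr 33 17 (.thr 41 45 (.thr 35 34 (.thr 44 38 (.dbl 40 36 43))))))))) (.rp 13 (.str 45 (.nv (.thr 2 22 (.thr 47 32 (.thr 46 44 (.thr 14 30 (.thr 10 6 (.thr 26 58 (.dbl 38 34 50))))))) (.nv (.thr 47 32 (.thr 44 46 (.thr 41 33 (.thr 35 38 (.dbl 43 39 40))))) (.rp 47 (.thr 33 41 (.thr 17 1 (.thr 25 29 (.thr 22 2 (.thr 19 28 (.thr 16 18 (.thr 23 20 (.dbl 31 26 27)))))))) (.rp 46 (.thr 33 41 (.thr 32 47 (.thr 34 35 (.thr 17 1 (.thr 51 0 (.thr 50 48 (.dbl 2 18 22))))))) (.rp 44 (.thr 33 41 (.thr 32 47 (.thr 34 35 (.thr 38 46 (.thr 17 1 (.thr 51 0 (.dbl 25 12 29))))))) (.rp 41 (.thr 47 32 (.thr 46 44 (.thr 38 34 (.thr 22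 2 (.thr 54 6 (.thr 50 58 (.dbl 14 26 30))))))) (.rp 40 (.thr 33 41 (.thr 32 47 (.thr 34 35 (.thr 17 1 (.thr 0 51 (.thr 48 16 (.thr 5 53 (.dbl 15 10 26)))))))) (.rp 38 (.thr 33 41 (.thr 32 47 (.thr 1 17 (.thr 2 22 (.thr 3 0 (.thr 18 48 (.dbl 34 35 50))))))) (.rp 32 (.thr 33 41 (.thr 17 1 (.thr 25 29 (.thr 22 2 (.thr 19 28 (.thr 16 18 (.thr 23 20 (.dbl 31 26 27)))))))) (.rp 12 (.thr 41 33 (.thr 43 40 (.thr 47 32 (.thr 35 39 (.dbl 44 38 46))))) .nd))))))))))) (.rp 2 (.thr 32 47 (.thr 5 53 (.thr 13 25 (.thr 1 9 (.thr 33 17 (.thr 41 45 (.thr 35 34 (.thr 44 38 (.dbl 40 36 43))))))))) .nd))))))))))))))))) (.rp 45 (.thr 53 5 (.thr 61 57 (.thr 1 41 (.thr 17 33 (.dbl 25 13 29))))) (.rp 33 (.thr 47 32 (.thr 53 5 (.thr 61 57 (.thr 41 1 (.thr 43 40 (.thr 35 39 (.thr 44 38 (.thr 45 46 (.dbl 13 25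 29))))))))) (.rp 25 (.thr 32 47 (.thr 53 5 (.thr 61 57 (.thr 41 1 (.thr 40 43 (.thr 44 36 (.thr 35 38 (.dbl 33 34 45)))))))) (.rp 13 (.str 61 (.nv (.dbl 53 5 57) (.rp 57 (.thr 32 47 (.thr 41 1 (.thr 33 45 (.thr 35 34 (.thr 44 38 (.dbl 40 36 43)))))) (.rp 53 (.thr 32 47 (.thr 41 1 (.thr 33 45 (.thr 35 34 (.thr 44 38 (.dbl 40 36 43)))))) (.rp 5 (.thr 57 53 (.thr 32 47 (.thr 41 1 (.thr 9 25 (.thr 33 45 (.thr 35 34 (.thr 44 38 (.dbl 40 36 43)))))))) .nd))))) (.rp 5 (.thr 25 13 (.thr 17 29 (.thr 1 33 (.thr 61 41 (.thr 57 53 (.thr 59 8 (.thr 58 56 (.thr 26 10 (.thr 24 27 (.thr 16 31 (.thr 19 18 (.dbl 28 20 22)))))))))))) (.rp 1 (.thr 47 32 (.thr 53 5 (.thr 61 57 (.thr 13 25 (.thr 45 29 (.thr 41 33 (.thr 43 40 (.thr 35 39 (.dbl 44 38 46))))))))) .nd)))))))))))) (.rp 58 (.thr 32 47 (.thr 0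 63 (.thr 5 53 (.thr 48 16 (.dbl 15 10 26))))) (.rp 53 (.str 4 (.nv (.thr 0 63 (.thr 12 8 (.thr 38 55 (.thr 51 25 (.dbl 34 17 46))))) (.nv (.thr 0 63 (.thr 12 8 (.thr 32 47 (.thr 48 16 (.thr 36 24 (.dbl 38 39 55)))))) (.nv (.thr 38 55 (.thr 39 36 (.thr 46 34 (.thr 47 32 (.thr 35 43 (.dbl 44 41 45)))))) (.rp 55 (.thr 32 47 (.thr 0 63 (.thr 12 8 (.thr 48 16 (.thr 15 26 (.thr 13 14 (.thr 25 49 (.thr 17 29 (.dbl 51 34 38))))))))) (.rp 39 (.thr 32 47 (.thr 0 63 (.thr 12 8 (.thr 48 16 (.thr 15 26 (.thr 13 14 (.thr 25 49 (.dbl 38 51 55)))))))) (.rp 38 (.thr 32 47 (.thr 0 63 (.thr 8 12 (.thr 25 59 (.thr 49 13 (.thr 48 16 (.thr 51 50 (.dbl 17 29 34)))))))) .nd))))))) (.rp 48 (.str 49 (.nv (.thr 53 5 (.thr 61 57 (.thr 41 1 (.thr 13 25 (.dbl 45 29 33))))) (.nv (.thr 25 13 (.thr 29 17 (.thr 59 8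 (.thr 63 0 (.thr 12 46 (.dbl 51 38 55)))))) (.nv (.thr 13 25 (.thr 5 53 (.thr 1 9 (.thr 33 17 (.dbl 41 45 61))))) (.rp 56 (.str 52 (.nv (.thr 13 25 (.thr 53 5 (.thr 61 57 (.thr 41 1 (.dbl 45 29 33))))) (.nv (.thr 25 13 (.thr 29 17 (.thr 59 8 (.thr 63 0 (.thr 12 46 (.dbl 51 38 55)))))) (.nv (.thr 13 25 (.thr 5 53 (.thr 1 9 (.thr 33 17 (.dbl 41 45 61))))) (.rp 25 (.thr 32 47 (.thr 53 5 (.thr 55 54 (.thr 4 38 (.thr 36 20 (.thr 40 44 (.thr 41 43 (.dbl 61 1 57)))))))) (.rp 13 (.thr 32 47 (.thr 53 5 (.thr 55 54 (.thr 4 38 (.thr 36 20 (.thr 40 44 (.thr 41 43 (.dbl 61 1 57)))))))) .nd)))))) (.rp 52 (.str 56 (.nv (.thr 25 13 (.thr 8 59 (.thr 24 40 (.thr 26 27 (.thr 10 58 (.dbl 11 9 41)))))) (.nv (.thr 25 13 (.thr 17 29 (.thr 32 47 (.thr 33 1 (.thr 34 35 (.dbl 0 51 63)))))) (.nv (.thr 25 13 (.thr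 59 8 (.thr 57 58 (.dbl 53 5 61)))) (.rp 25 (.thr 32 47 (.thr 53 5 (.thr 61 57 (.thr 41 1 (.thr 33 45 (.thr 35 34 (.thr 44 38 (.dbl 40 36 43)))))))) (.rp 13 (.thr 63 0 (.thr 53 5 (.thr 57 61 (.thr 59 58 (.thr 51 55 (.thr 25 8 (.thr 29 17 (.dbl 12 38 46)))))))) .nd)))))) (.rp 25 (.thr 32 47 (.thr 53 5 (.thr 61 57 (.thr 41 1 (.thr 40 43 (.thr 44 36 (.thr 35 38 (.dbl 33 34 45)))))))) (.rp 13 (.thr 0 63 (.thr 53 5 (.thr 61 57 (.thr 1 41 (.thr 17 33 (.thr 25 29 (.thr 51 34 (.thr 8 59 (.dbl 12 4 38))))))))) .nd)))))))) (.rp 47 (.str 13 (.nv (.thr 0 63 (.thr 5 53 (.thr 15 10 (.thr 12 14 (.thr 8 4 (.dbl 25 49 59)))))) (.nv (.thr 0 63 (.thr 25 49 (.thr 8 59 (.thr 17 29 (.thr 51 34 (.dbl 12 4 38)))))) (.nv (.thr 5 53 (.thr 1 9 (.thr 25 49 (.thr 29 17 (.dbl 61 41 45))))) (.rp 61 (.thr 63 0 (.thr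 25 49 (.thr 29 17 (.thr 12 46 (.thr 59 8 (.dbl 51 38 55)))))) (.rp 49 (.thr 0 63 (.thr 5 53 (.thr 1 9 (.thr 15 10 (.thr 3 2 (.thr 48 26 (.thr 33 18 (.dbl 41 45 61)))))))) (.rp 25 (.thr 0 63 (.thr 5 53 (.thr 1 9 (.thr 15 10 (.thr 3 2 (.thr 48 26 (.thr 33 18 (.dbl 41 45 61)))))))) .nd))))))) (.rp 32 (.str 13 (.nv (.thr 0 63 (.thr 5 53 (.thr 10 15 (.thr 25 49 (.thr 8 59 (.dbl 9 1 11)))))) (.nv (.thr 0 63 (.thr 25 49 (.thr 8 59 (.thr 17 29 (.thr 51 34 (.dbl 12 4 38)))))) (.nv (.thr 5 53 (.thr 1 9 (.thr 25 49 (.thr 29 17 (.dbl 61 41 45))))) (.rp 61 (.thr 63 0 (.thr 25 49 (.thr 29 17 (.thr 12 46 (.thr 59 8 (.dbl 51 38 55)))))) (.rp 49 (.thr 0 63 (.thr 5 53 (.thr 1 9 (.thr 15 10 (.thr 3 2 (.thr 48 26 (.thr 33 18 (.dbl 41 45 61)))))))) (.rp 25 (.thr 0 63 (.thr 5 53 (.thr 1 9 (.thr 15 10 (.thr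 3 2 (.thr 48 26 (.thr 33 18 (.dbl 41 45 61)))))))) .nd))))))) (.rp 26 (.str 13 (.nv (.thr 0 63 (.thr 5 53 (.thr 10 15 (.thr 25 49 (.thr 8 59 (.dbl 9 1 11)))))) (.nv (.thr 0 63 (.thr 25 49 (.thr 8 59 (.thr 17 29 (.thr 51 34 (.dbl 12 4 38)))))) (.nv (.thr 5 53 (.thr 1 9 (.thr 25 49 (.thr 29 17 (.dbl 61 41 45))))) (.rp 61 (.thr 47 32 (.thr 63 0 (.thr 15 31 (.thr 12 14 (.thr 29 46 (.dbl 25 17 49)))))) (.rp 49 (.thr 47 32 (.thr 63 0 (.thr 15 31 (.thr 12 14 (.thr 46 29 (.thr 38 34 (.thr 39 36 (.dbl 51 25 27)))))))) (.rp 25 (.thr 47 32 (.thr 63 0 (.thr 15 31 (.thr 12 14 (.thr 29 46 (.thr 61 45 (.thr 1 41 (.dbl 5 9 53)))))))) .nd))))))) (.rp 16 (.thr 47 32 (.thr 53 5 (.thr 63 0 (.thr 48 58 (.dbl 15 26 31))))) (.rp 15 (.str 25 (.nv (.thr 0 63 (.thr 8 59 (.thr 12 4 (.thr 49 13 (.thr 51 38 (.thr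 48 50 (.dbl 32 16 47))))))) (.nv (.thr 0 63 (.thr 8 59 (.thr 17 29 (.thr 51 34 (.dbl 12 4 38))))) (.nv (.thr 5 53 (.thr 13 49 (.thr 1 9 (.thr 29 17 (.dbl 61 41 45))))) (.rp 61 (.thr 29 17 (.thr 63 0 (.thr 12 46 (.thr 59 8 (.dbl 51 38 55))))) (.rp 45 (.str 30 (.nv (.thr 17 29 (.thr 53 5 (.thr 49 13 (.thr 61 57 (.dbl 1 33 41))))) (.nv (.thr 29 17 (.thr 31 28 (.thr 16 26 (.thr 32 47 (.dbl 0 48 63))))) (.rp 29 (.thr 53 5 (.thr 49 13 (.thr 61 57 (.thr 1 41 (.thr 33 17 (.thr 0 63 (.thr 3 2 (.thr 48 18 (.dbl 32 16 47))))))))) (.rp 17 (.thr 49 13 (.thr 63 0 (.thr 59 8 (.thr 51 55 (.thr 48 50 (.dbl 53 5 58)))))) (.rp 12 (.thr 5 53 (.thr 13 49 (.thr 29 17 (.thr 1 9 (.thr 28 31 (.thr 22 19 (.thr 2 62 (.dbl 0 3 63)))))))) (.rp 11 (.str 3 (.nv (.thr 5 53 (.thr 13 49 (.thr 1 9 (.dbl 0 2 63)))) (.nv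 (.thr 0 63 (.thr 29 17 (.thr 31 28 (.thr 16 26 (.dbl 32 47 48))))) (.nv (.thr 0 63 (.thr 1 2 (.thr 13 49 (.dbl 5 9 53)))) (.rp 63 (.thr 17 29 (.thr 53 5 (.thr 49 13 (.thr 61 57 (.dbl 1 33 41))))) (.rp 61 (.thr 29 17 (.thr 59 8 (.thr 63 0 (.thr 51 55 (.dbl 12 38 46))))) (.rp 0 (.thr 29 17 (.thr 59 8 (.thr 28 31 (.thr 19 22 (.thr 51 35 (.thr 63 55 (.dbl 12 38 46))))))) .nd))))))) (.rp 3 (.str 11 (.nv (.thr 0 63 (.thr 29 17 (.thr 31 28 (.thr 16 26 (.dbl 32 47 48))))) (.nv (.thr 8 59 (.thr 9 10 (.thr 5 53 (.dbl 13 1 49)))) (.rp 41 (.str 22 (.nv (.thr 8 59 (.thr 10 9 (.dbl 26 18 58))) (.nv (.thr 29 17 (.dbl 28 19 31)) .nd))) (.rp 22 (.str 41 (.nv (.thr 26 56 (.thr 29 17 (.dbl 31 16 28))) (.nv (.thr 8 59 (.dbl 9 10 57)) .nd))) .nd))))) (.rp 0 (.thr 5 53 (.thr 13 49 (.thr 29 17 (.thr 31 28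 (.thr 26 16 (.thr 10 58 (.thr 8 59 (.dbl 9 1 11)))))))) .nd))))))))) (.rp 30 (.str 45 (.nv (.thr 5 53 (.thr 13 49 (.thr 1 9 (.dbl 41 33 61)))) (.nv (.thr 13 49 (.dbl 29 17 61)) (.rp 61 (.thr 49 13 (.thr 33 41 (.dbl 17 1 29))) (.rp 49 (.thr 29 17 (.thr 61 13 (.dbl 41 1 33))) (.rp 13 (.thr 29 17 (.thr 63 0 (.thr 47 32 (.dbl 46 12 44)))) (.rp 11 (.str 3 (.nv (.thr 41 33 (.thr 43 40 (.dbl 63 0 23))) (.nv (.thr 29 17 (.dbl 13 49 61)) .nd))) (.rp 3 (.str 11 (.nv (.thr 41 33 (.thr 8 59 (.dbl 9 10 57))) (.nv (.thr 29 17 (.dbl 13 49 61)) (.rp 41 (.str 22 (.nv (.thr 5 53 (.thr 8 59 (.thr 9 10 (.dbl 13 1 49)))) (.nv (.thr 29 17 (.dbl 13 49 61)) (.rp 49 (.thr 29 17 (.thr 63 0 (.thr 46 12 (.dbl 47 32 44)))) (.rp 13 (.thr 29 17 (.thr 63 0 (.thr 47 32 (.dbl 46 12 44)))) .nd))))) .nd)))) .nd))))))))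 (.rp 11 (.str 3 (.nv (.thr 0 63 (.thr 1 2 (.thr 5 53 (.dbl 13 9 49)))) (.nv (.thr 5 53 (.thr 13 49 (.thr 1 9 (.thr 29 17 (.dbl 61 41 45))))) (.nv (.thr 0 63 (.thr 8 59 (.thr 12 4 (.thr 17 29 (.dbl 51 34 38))))) (.nv (.thr 17 29 (.thr 49 13 (.thr 1 33 (.dbl 0 2 63)))) (.rp 61 (.thr 29 17 (.thr 63 0 (.thr 59 8 (.thr 51 55 (.dbl 12 38 46))))) (.rp 45 (.str 30 (.nv (.thr 5 53 (.thr 13 49 (.thr 1 9 (.dbl 0 2 63)))) (.nv (.thr 0 63 (.thr 29 17 (.thr 31 28 (.thr 16 26 (.dbl 32 47 48))))) (.nv (.thr 0 63 (.thr 1 2 (.thr 13 49 (.dbl 5 9 53)))) (.rp 63 (.thr 17 29 (.thr 53 5 (.thr 49 13 (.thr 61 57 (.dbl 1 33 41))))) (.rp 61 (.thr 29 17 (.thr 59 8 (.thr 63 0 (.thr 51 55 (.dbl 12 38 46))))) (.rp 0 (.thr 29 17 (.thr 59 8 (.thr 28 31 (.thr 19 22 (.thr 51 35 (.thr 63 55 (.dbl 12 38 46))))))) .nd)))))))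 (.rp 30 (.str 45 (.nv (.thr 41 33 (.thr 43 40 (.dbl 63 0 23))) (.nv (.thr 29 17 (.dbl 13 49 61)) .nd))) .nd)))))))) (.rp 3 (.str 11 (.nv (.thr 5 53 (.thr 13 49 (.thr 1 9 (.thr 29 17 (.dbl 61 41 45))))) (.nv (.thr 0 63 (.thr 8 59 (.thr 17 29 (.thr 51 34 (.dbl 12 4 38))))) (.nv (.thr 5 53 (.thr 8 59 (.thr 9 10 (.dbl 13 1 49)))) (.rp 45 (.str 30 (.nv (.thr 0 63 (.thr 29 17 (.thr 31 28 (.thr 16 26 (.dbl 32 47 48))))) (.nv (.thr 8 59 (.thr 9 10 (.thr 5 53 (.dbl 13 1 49)))) (.rp 41 (.str 22 (.nv (.thr 8 59 (.thr 10 9 (.dbl 26 18 58))) (.nv (.thr 29 17 (.dbl 28 19 31)) .nd))) (.rp 22 (.str 41 (.nv (.thr 26 56 (.thr 29 17 (.dbl 31 16 28))) (.nv (.thr 8 59 (.dbl 9 10 57)) .nd))) .nd))))) (.rp 41 (.str 22 (.nv (.thr 0 63 (.thr 17 29 (.thr 19 28 (.thr 16 18 (.dbl 32 47 48))))) (.nv (.thr 5 53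 (.thr 8 59 (.thr 9 10 (.dbl 13 1 49)))) (.rp 45 (.str 30 (.nv (.thr 8 59 (.thr 10 9 (.dbl 26 18 58))) (.nv (.thr 29 17 (.dbl 28 19 31)) .nd))) (.rp 30 (.str 45 (.nv (.thr 5 53 (.thr 8 59 (.thr 9 10 (.dbl 13 1 49)))) (.nv (.thr 29 17 (.dbl 13 49 61)) (.rp 49 (.thr 29 17 (.thr 63 0 (.thr 46 12 (.dbl 47 32 44)))) (.rp 13 (.thr 29 17 (.thr 63 0 (.thr 47 32 (.dbl 46 12 44)))) .nd))))) .nd))))) (.rp 30 (.str 45 (.nv (.thr 41 33 (.thr 8 59 (.dbl 9 10 57))) (.nv (.thr 29 17 (.dbl 13 49 61)) (.rp 41 (.str 22 (.nv (.thr 5 53 (.thr 8 59 (.thr 9 10 (.dbl 13 1 49)))) (.nv (.thr 29 17 (.dbl 13 49 61)) (.rp 49 (.thr 29 17 (.thr 63 0 (.thr 46 12 (.dbl 47 32 44)))) (.rp 13 (.thr 29 17 (.thr 63 0 (.thr 47 32 (.dbl 46 12 44)))) .nd))))) .nd)))) (.rp 22 (.str 41 (.nv (.thr 45 33 (.thr 13 49 (.dbl 29 17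 61))) (.nv (.thr 59 8 (.dbl 43 27 40)) (.rp 45 (.str 30 (.nv (.thr 26 56 (.thr 29 17 (.dbl 31 16 28))) (.nv (.thr 8 59 (.dbl 9 10 57)) .nd))) .nd)))) .nd)))))))) .nd))))))))) (.rp 5 (.str 4 (.nv (.thr 0 63 (.thr 12 8 (.thr 32 47 (.thr 38 55 (.thr 48 16 (.dbl 36 24 39)))))) (.nv (.thr 0 63 (.thr 12 8 (.thr 38 55 (.thr 51 25 (.dbl 34 17 46))))) (.nv (.thr 38 55 (.thr 39 36 (.thr 46 34 (.thr 47 32 (.thr 35 43 (.dbl 44 41 45)))))) (.rp 55 (.thr 32 47 (.thr 0 63 (.thr 12 8 (.thr 48 16 (.thr 15 26 (.thr 13 14 (.thr 25 49 (.thr 17 29 (.dbl 51 34 38))))))))) (.rp 39 (.thr 32 47 (.thr 0 63 (.thr 12 8 (.thr 48 16 (.thr 15 26 (.thr 13 14 (.thr 25 49 (.dbl 38 51 55)))))))) (.rp 38 (.thr 32 47 (.thr 0 63 (.thr 8 12 (.thr 25 59 (.thr 49 13 (.thr 48 16 (.thr 51 50 (.dbl 17 29 34)))))))) .nd)))))))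 (.rp 0 .ext .nd))))))))))))))

theorem w319 : WinAt (4398048608256, 1152921504606847104) :=
  chF (K := [(4535487561728, 1152921504606847105)]) (kc w256 kn) c319 4398048608256 1152921504606847104 60
    [] (by decide +kernel) (by decide +kernel)

/-- A certificate. -/
noncomputable def c320 : Ct := (.str 15 (.nv (.thr 31 47 (.thr 26 16 (.thr 48 37 (.dbl 58 10 53)))) (.nv (.thr 47 31 (.thr 37 32 (.thr 48 26 (.dbl 53 5 58)))) (.rp 58 (.str 12 (.nv (.thr 13 14 (.thr 47 31 (.thr 37 32 (.thr 25 49 (.thr 51 38 (.dbl 59 8 55)))))) (.nv (.thr 14 13 (.thr 47 31 (.thr 46 29 (.thr 45 44 (.dbl 30 60 62))))) (.nv (.thr 29 46 (.thr 25 17 (.thr 51 38 (.dbl 59 8 55)))) .nd)))) (.rp 53 (.thr 47 31 (.thr 37 32 (.thr 48 26 (.str 49 (.nv (.thr 25 13 (.thr 59 8 (.dbl 51 50 55))) (.nv (.thr 51 50 (.thr 55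 59 (.thr 38 4 (.dbl 39 27 36)))) (.nv (.thr 51 50 (.thr 25 13 (.thr 29 17 (.dbl 12 38 46)))) (.rp 51 (.thr 13 25 (.thr 12 14 (.thr 46 29 (.thr 45 44 (.thr 33 41 (.thr 17 1 (.thr 38 34 (.dbl 36 24 39)))))))) (.rp 50 (.thr 25 13 (.thr 29 17 (.thr 59 8 (.thr 51 55 (.dbl 12 38 46))))) (.rp 12 (.thr 25 13 (.thr 51 50 (.dbl 59 8 55))) .nd)))))))))) (.rp 48 (.thr 47 31 (.str 46 (.nv (.thr 32 37 (.thr 38 34 (.thr 55 4 (.thr 51 59 (.dbl 12 25 29))))) (.nv (.thr 12 29 (.thr 14 13 (.thr 45 44 (.dbl 30 60 62)))) (.rp 32 (.str 16 (.nv (.thr 38 34 (.thr 55 4 (.thr 51 59 (.dbl 12 25 29)))) (.nv (.thr 12 29 (.thr 14 13 (.thr 45 44 (.dbl 30 60 62)))) (.rp 29 (.thr 38 34 (.thr 55 4 (.thr 51 59 (.thr 12 25 (.thr 14 13 (.thr 45 44 (.dbl 30 60 62))))))) (.rp 12 (.thr 38 34 (.thr 44 45 (.thr 35 41 (.thr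 39 43 (.thr 51 27 (.dbl 55 4 59)))))) .nd))))) (.rp 29 (.thr 38 34 (.thr 55 4 (.thr 51 59 (.thr 39 27 (.dbl 37 32 36))))) (.rp 12 (.thr 44 45 (.thr 32 37 (.thr 38 34 (.thr 41 35 (.dbl 40 36 43))))) .nd))))))) (.rp 47 (.str 38 (.nv (.thr 55 4 (.thr 51 59 (.thr 39 27 (.thr 37 36 (.thr 48 26 (.dbl 53 5 58)))))) (.nv (.thr 46 34 (.thr 12 29 (.thr 51 25 (.dbl 55 4 59)))) (.rp 59 (.thr 46 34 (.thr 12 29 (.thr 51 25 (.thr 39 27 (.thr 37 36 (.thr 53 5 (.dbl 48 26 58))))))) (.rp 55 (.thr 46 34 (.thr 12 29 (.thr 51 25 (.thr 39 27 (.thr 37 36 (.thr 53 5 (.dbl 48 26 58))))))) (.rp 51 (.str 14 (.nv (.thr 26 50 (.thr 48 37 (.dbl 58 10 53))) (.nv (.thr 12 13 (.dbl 46 29 34)) (.rp 34 (.str 17 (.nv (.thr 26 50 (.thr 48 37 (.dbl 58 10 53))) (.nv (.thr 29 25 (.dbl 12 13 46)) .nd))) (.rp 17 (.thr 34 46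 (.thr 26 50 (.thr 58 10 (.dbl 48 37 53)))) .nd))))) (.rp 25 (.thr 55 4 (.thr 46 34 (.thr 12 29 (.thr 51 59 (.thr 39 27 (.thr 37 36 (.thr 26 48 (.dbl 14 13 50)))))))) (.rp 12 (.thr 4 55 (.str 22 (.nv (.thr 23 20 (.thr 54 6 (.thr 62 2 (.thr 58 50 (.thr 48 53 (.dbl 26 10 37)))))) (.nv (.thr 23 20 (.thr 3 43 (.thr 46 34 (.thr 60 41 (.thr 30 45 (.dbl 62 2 14)))))) (.nv (.thr 2 62 (.thr 6 54 (.thr 14 10 (.thr 50 26 (.dbl 34 18 46))))) (.rp 62 (.thr 23 20 (.thr 3 43 (.thr 60 41 (.thr 30 45 (.thr 26 18 (.thr 58 10 (.dbl 48 37 53))))))) (.rp 34 (.thr 23 20 (.thr 3 43 (.thr 60 41 (.thr 30 45 (.thr 26 18 (.thr 58 10 (.dbl 48 37 53))))))) (.rp 23 (.str 39 (.nv (.thr 2 62 (.thr 34 46 (.thr 50 18 (.thr 14 26 (.dbl 6 10 54))))) (.nv (.thr 37 36 (.thr 48 26 (.dbl 53 5 58))) (.rp 26 (.thr 37 36 (.thr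 54 6 (.thr 53 5 (.thr 62 2 (.dbl 58 48 50))))) .nd)))) (.rp 14 (.thr 23 20 (.thr 2 62 (.thr 3 43 (.thr 60 41 (.thr 30 45 (.thr 18 26 (.dbl 34 46 50))))))) (.rp 2 (.thr 23 20 (.thr 46 34 (.thr 3 43 (.thr 60 41 (.thr 30 45 (.thr 14 62 (.dbl 26 18 50))))))) .nd)))))))))) (.rp 4 (.thr 46 34 (.thr 12 29 (.thr 51 25 (.thr 39 27 (.thr 37 36 (.thr 26 48 (.dbl 14 13 50))))))) .nd))))))))) (.rp 37 (.thr 31 47 (.str 22 (.nv (.thr 23 20 (.thr 27 19 (.thr 43 3 (.thr 51 39 (.dbl 59 11 55))))) (.nv (.thr 2 62 (.thr 26 16 (.thr 10 58 (.thr 14 6 (.thr 18 30 (.dbl 50 34 38)))))) (.nv (.thr 20 23 (.thr 16 26 (.thr 28 24 (.thr 25 19 (.dbl 29 17 30))))) .nd))))) (.rp 31 (.str 38 (.nv (.thr 46 34 (.thr 12 29 (.thr 51 25 (.dbl 55 4 59)))) (.nv (.thr 55 4 (.thr 51 59 (.thr 39 27 (.thr 37 36 (.thr 48 26 (.dbl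 53 5 58)))))) (.nv (.thr 55 4 (.thr 46 34 (.thr 51 59 (.dbl 12 25 29)))) (.rp 59 (.thr 46 34 (.thr 12 29 (.thr 51 25 (.thr 39 27 (.thr 37 36 (.thr 53 5 (.dbl 48 26 58))))))) (.rp 55 (.thr 46 34 (.thr 12 29 (.thr 51 25 (.thr 39 27 (.thr 37 36 (.thr 53 5 (.dbl 48 26 58))))))) (.rp 51 (.str 14 (.nv (.thr 26 50 (.thr 48 37 (.dbl 58 10 53))) (.nv (.thr 12 13 (.dbl 46 29 34)) (.rp 34 (.str 17 (.nv (.thr 26 50 (.thr 48 37 (.dbl 58 10 53))) (.nv (.thr 29 25 (.dbl 12 13 46)) .nd))) (.rp 17 (.thr 34 46 (.thr 26 50 (.thr 58 10 (.dbl 48 37 53)))) .nd))))) (.rp 25 (.thr 55 4 (.thr 46 34 (.thr 12 29 (.thr 51 59 (.thr 39 27 (.thr 37 36 (.thr 26 48 (.dbl 14 13 50)))))))) (.rp 12 (.thr 4 55 (.str 37 (.nv (.thr 53 5 (.dbl 48 26 58)) (.rp 58 (.thr 39 36 (.thr 47 32 (.thr 46 34 (.thr 44 45 (.dbl 35 41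 43))))) (.rp 53 (.thr 39 36 (.thr 47 32 (.thr 46 34 (.thr 44 45 (.dbl 35 41 43))))) (.rp 48 (.thr 32 47 (.thr 34 46 (.thr 35 33 (.thr 44 41 (.dbl 36 39 40))))) (.rp 39 (.str 23 (.nv (.thr 53 5 (.dbl 48 26 58)) (.rp 58 (.thr 20 22 (.thr 36 52 (.thr 43 3 (.thr 32 47 (.dbl 40 41 44))))) (.rp 53 (.thr 22 20 (.thr 54 6 (.thr 62 2 (.thr 26 48 (.dbl 58 10 50))))) (.rp 48 (.thr 20 22 (.thr 36 52 (.thr 43 3 (.thr 32 47 (.dbl 40 41 44))))) (.rp 26 (.thr 20 22 (.thr 36 52 (.thr 43 3 (.thr 32 47 (.dbl 40 41 44))))) (.rp 5 (.thr 20 22 (.thr 36 52 (.thr 43 3 (.thr 32 47 (.dbl 40 41 44))))) .nd))))))) (.rp 26 (.thr 39 36 (.thr 47 32 (.thr 46 34 (.thr 44 45 (.dbl 35 41 43))))) (.rp 23 (.thr 39 36 (.thr 53 5 (.dbl 48 26 58))) (.rp 5 (.thr 39 36 (.thr 47 32 (.thr 46 34 (.thr 44 45 (.dbl 35 41 43)))))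 .nd)))))))))) (.rp 4 (.thr 46 34 (.thr 12 29 (.thr 51 25 (.thr 39 27 (.thr 37 36 (.thr 26 48 (.dbl 14 13 50))))))) .nd)))))))))) (.rp 26 (.str 12 (.nv (.thr 13 14 (.thr 47 31 (.thr 37 32 (.thr 25 49 (.thr 59 8 (.dbl 51 38 55)))))) (.nv (.thr 14 13 (.thr 47 31 (.thr 46 29 (.thr 45 44 (.dbl 30 60 62))))) (.nv (.thr 29 46 (.thr 25 17 (.thr 59 8 (.dbl 51 38 55)))) .nd)))) .nd))))))))))

theorem w320 : WinAt (9223376434903384064, 2305843009213694081) :=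
  chF (K := []) kn c320 9223376434903384064 2305843009213694081 0
    [] (by decide +kernel) (by decide +kernel)

/-- A certificate. -/
noncomputable def c321 : Ct := (.str 15 (.nv (.thr 31 47 (.thr 26 16 (.thr 48 37 (.dbl 58 10 53)))) (.nv (.thr 47 31 (.thr 37 32 (.thr 48 26 (.dbl 53 5 58)))) (.rp 58 (.thr 47 31 (.str 12 (.nv (.thr 13 14 (.thr 37 32 (.thr 25 49 (.dbl 29 17 46)))) (.nv (.thr 37 32 (.thr 48 26 (.thr 36 24 (.thr 38 39 (.dbl 46 29 34))))) (.nv (.thr 29 46 (.thr 25 17 (.thr 51 38 (.dbl 59 8 55)))) (.rp 54 (.str 50 (.nv (.thr 14 13 (.thr 37 32 (.dbl 26 38 48))) (.nv (.thr 46 29 (.thr 38 34 (.thr 51 25 (.dbl 55 4 59)))) (.nv (.thr 14 13 (.thr 38 26 (.dbl 46 29 34))) (.rp 38 (.thr 13 14 (.thr 37 32 (.thr 48 26 (.dbl 49 25 51)))) .nd))))) (.rp 50 (.str 54 (.nv (.thr 29 46 (.thr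 25 17 (.thr 37 32 (.dbl 13 14 49)))) (.nv (.thr 37 32 (.thr 53 5 (.thr 55 52 (.thr 51 59 (.dbl 38 4 25))))) (.nv (.thr 37 32 (.thr 46 29 (.thr 53 5 (.thr 55 52 (.dbl 38 4 34))))) (.nv (.thr 14 13 (.thr 29 46 (.thr 25 17 (.thr 51 38 (.dbl 59 8 55))))) .nd))))) (.rp 46 (.thr 37 32 (.thr 48 26 (.thr 36 24 (.thr 38 39 (.thr 55 4 (.dbl 51 25 59)))))) (.rp 29 (.thr 13 14 (.thr 37 32 (.thr 25 49 (.thr 59 8 (.dbl 51 38 55))))) (.rp 25 (.thr 14 13 (.thr 46 29 (.thr 37 32 (.thr 38 34 (.dbl 26 48 50))))) .nd)))))))))) (.rp 53 (.str 12 (.nv (.thr 14 13 (.thr 31 47 (.thr 26 16 (.thr 38 50 (.thr 51 25 (.dbl 55 4 59)))))) (.nv (.thr 13 14 (.thr 31 47 (.thr 29 46 (.thr 30 28 (.dbl 45 60 61))))) (.nv (.thr 46 29 (.thr 38 34 (.thr 51 25 (.dbl 55 4 59)))) .nd)))) (.rp 48 (.thr 47 31 (.str 46 (.nv (.thr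 29 12 (.thr 45 44 (.thr 61 13 (.thr 41 1 (.dbl 37 32 33))))) (.nv (.thr 32 37 (.thr 38 34 (.thr 44 45 (.thr 41 35 (.dbl 40 36 43))))) (.nv (.thr 12 29 (.thr 38 34 (.thr 51 25 (.dbl 55 4 59)))) (.rp 32 (.str 16 (.nv (.thr 12 29 (.thr 38 34 (.thr 44 45 (.thr 35 41 (.thr 39 43 (.dbl 51 25 27)))))) (.nv (.thr 38 34 (.thr 44 45 (.thr 35 41 (.thr 39 43 (.thr 51 27 (.dbl 55 4 59)))))) (.nv (.thr 12 29 (.thr 38 34 (.thr 51 25 (.dbl 55 4 59)))) (.rp 51 (.thr 29 12 (.thr 45 44 (.thr 60 30 (.thr 61 13 (.thr 41 1 (.thr 3 22 (.dbl 43 23 40))))))) (.rp 38 (.thr 29 12 (.thr 45 44 (.thr 60 30 (.thr 61 13 (.thr 41 1 (.thr 3 22 (.dbl 43 23 40))))))) (.rp 35 (.thr 29 12 (.thr 45 44 (.thr 60 30 (.thr 61 13 (.thr 41 1 (.thr 3 22 (.dbl 43 23 40))))))) (.rp 34 (.thr 29 12 (.thr 45 44 (.thr 60 30 (.thr 61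 13 (.thr 41 1 (.thr 3 22 (.dbl 43 23 40))))))) (.rp 33 (.thr 29 12 (.thr 45 44 (.thr 60 30 (.thr 61 13 (.thr 41 1 (.thr 3 22 (.dbl 43 23 40))))))) .nd))))))))) .nd)))))) (.rp 47 (.str 38 (.nv (.thr 55 4 (.thr 51 59 (.thr 39 27 (.thr 37 36 (.thr 48 26 (.dbl 53 5 58)))))) (.nv (.thr 46 34 (.thr 12 29 (.thr 14 13 (.thr 26 50 (.thr 58 10 (.dbl 48 37 53)))))) (.nv (.thr 46 34 (.thr 12 29 (.thr 51 25 (.dbl 55 4 59)))) (.rp 51 (.str 12 (.nv (.dbl 46 29 34) (.rp 46 (.thr 14 13 (.thr 26 50 (.thr 58 10 (.dbl 48 37 53)))) (.rp 34 (.str 17 (.nv (.dbl 29 25 46) (.rp 46 (.thr 14 13 (.thr 26 50 (.thr 58 10 (.dbl 48 37 53)))) (.rp 29 (.thr 14 13 (.thr 26 50 (.thr 58 10 (.dbl 48 37 53)))) (.rp 25 (.thr 14 13 (.thr 26 50 (.thr 58 10 (.dbl 48 37 53)))) .nd))))) (.rp 29 (.thr 14 13 (.thr 26 50 (.thr 58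 10 (.dbl 48 37 53)))) (.rp 17 (.thr 34 46 (.thr 14 13 (.thr 26 50 (.thr 58 10 (.dbl 48 37 53))))) .nd)))))) (.rp 12 (.thr 4 55 (.str 48 (.nv (.thr 37 26 (.dbl 53 5 58)) (.rp 58 (.thr 26 37 (.thr 31 16 (.thr 50 14 (.thr 51 49 (.thr 27 39 (.thr 23 19 (.thr 25 24 (.thr 59 8 (.dbl 43 3 11))))))))) (.rp 53 (.thr 26 37 (.thr 31 16 (.thr 50 14 (.thr 51 49 (.thr 27 39 (.thr 23 19 (.thr 25 24 (.thr 59 8 (.dbl 43 3 11))))))))) (.rp 39 (.str 23 (.nv (.thr 22 20 (.thr 26 37 (.thr 18 30 (.dbl 3 33 43)))) (.nv (.thr 37 26 (.dbl 53 5 58)) (.rp 43 (.str 35 (.nv (.thr 34 46 (.thr 33 32 (.thr 37 26 (.dbl 41 44 45)))) (.nv (.thr 37 26 (.dbl 53 5 58)) (.rp 37 (.thr 34 46 (.thr 22 20 (.thr 33 32 (.thr 3 18 (.dbl 41 44 60))))) (.rp 26 (.thr 34 46 (.thr 22 20 (.thr 33 32 (.thr 3 18 (.dbl 41 44 60))))) .nd)))))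 (.rp 37 (.thr 22 20 (.thr 58 53 (.thr 26 10 (.thr 18 30 (.dbl 3 33 43))))) (.rp 35 (.thr 43 3 (.thr 53 58 (.dbl 37 5 26))) (.rp 26 (.thr 20 22 (.thr 52 36 (.thr 53 58 (.thr 37 5 (.thr 60 56 (.thr 43 3 (.thr 41 40 (.dbl 45 30 33)))))))) .nd))))))) (.rp 37 (.thr 58 53 (.thr 26 10 (.thr 31 16 (.thr 50 14 (.thr 51 49 (.thr 27 39 (.thr 23 19 (.thr 25 24 (.thr 59 8 (.dbl 43 3 11)))))))))) (.rp 26 (.thr 53 58 (.thr 37 5 (.thr 39 36 (.thr 34 46 (.thr 51 27 (.thr 50 49 (.thr 18 2 (.thr 3 33 (.thr 43 23 (.thr 41 40 (.dbl 35 19 44))))))))))) (.rp 23 (.str 39 (.nv (.dbl 37 26 36) (.rp 37 (.thr 58 53 (.thr 26 10 (.thr 50 14 (.dbl 51 27 49)))) (.rp 36 (.thr 53 58 (.dbl 37 5 26)) (.rp 26 (.thr 37 36 (.dbl 53 5 58)) .nd))))) (.rp 5 (.thr 58 53 (.dbl 26 10 37)) .nd)))))))))) .nd)))))) (.rp 37 (.thr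 31 47 (.str 22 (.nv (.thr 23 20 (.thr 26 16 (.thr 18 30 (.thr 58 10 (.thr 48 53 (.dbl 3 33 43)))))) (.nv (.thr 23 20 (.thr 27 19 (.thr 43 3 (.thr 51 39 (.dbl 59 11 55))))) (.nv (.thr 20 23 (.thr 16 26 (.thr 28 24 (.thr 25 19 (.dbl 29 17 30))))) (.rp 23 (.thr 26 16 (.thr 30 18 (.thr 29 28 (.thr 12 46 (.thr 13 14 (.dbl 45 60 61)))))) (.rp 20 (.thr 26 16 (.thr 18 30 (.thr 58 10 (.thr 48 53 (.thr 3 33 (.thr 43 23 (.dbl 41 40 60))))))) .nd))))))) (.rp 31 (.str 38 (.nv (.thr 46 34 (.thr 12 29 (.thr 14 13 (.thr 26 50 (.thr 58 10 (.dbl 48 37 53)))))) (.nv (.thr 55 4 (.thr 51 59 (.thr 39 27 (.thr 37 36 (.thr 48 26 (.dbl 53 5 58)))))) (.nv (.thr 46 34 (.thr 12 29 (.thr 51 25 (.dbl 55 4 59)))) (.rp 51 (.str 12 (.nv (.dbl 46 29 34) (.rp 46 (.thr 14 13 (.thr 26 50 (.thr 58 10 (.dbl 48 37 53))))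 (.rp 34 (.str 17 (.nv (.dbl 29 25 46) (.rp 46 (.thr 14 13 (.thr 26 50 (.thr 58 10 (.dbl 48 37 53)))) (.rp 29 (.thr 14 13 (.thr 26 50 (.thr 58 10 (.dbl 48 37 53)))) (.rp 25 (.thr 14 13 (.thr 26 50 (.thr 58 10 (.dbl 48 37 53)))) .nd))))) (.rp 29 (.thr 14 13 (.thr 26 50 (.thr 58 10 (.dbl 48 37 53)))) (.rp 17 (.thr 34 46 (.thr 14 13 (.thr 26 50 (.thr 58 10 (.dbl 48 37 53))))) .nd)))))) (.rp 12 (.thr 4 55 (.str 37 (.nv (.thr 53 5 (.dbl 48 26 58)) (.rp 58 (.thr 39 36 (.thr 47 32 (.thr 46 34 (.thr 44 45 (.dbl 35 41 43))))) (.rp 53 (.thr 39 36 (.thr 47 32 (.thr 46 34 (.thr 44 45 (.dbl 35 41 43))))) (.rp 48 (.thr 32 47 (.thr 34 46 (.thr 35 33 (.thr 44 41 (.dbl 36 39 40))))) (.rp 39 (.str 23 (.nv (.thr 53 5 (.dbl 48 26 58)) (.rp 58 (.thr 20 22 (.thr 36 52 (.thr 43 3 (.thr 32 47 (.dbl 40 41 44)))))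 (.rp 53 (.thr 22 20 (.thr 3 43 (.thr 60 41 (.thr 30 45 (.dbl 26 18 48))))) (.rp 48 (.thr 20 22 (.thr 36 52 (.thr 43 3 (.thr 32 47 (.dbl 40 41 44))))) (.rp 26 (.thr 20 22 (.thr 36 52 (.thr 43 3 (.thr 32 47 (.dbl 40 41 44))))) (.rp 5 (.thr 20 22 (.thr 36 52 (.thr 43 3 (.thr 32 47 (.dbl 40 41 44))))) .nd))))))) (.rp 26 (.thr 39 36 (.thr 47 32 (.thr 46 34 (.thr 44 45 (.dbl 35 41 43))))) (.rp 23 (.thr 39 36 (.thr 53 5 (.dbl 48 26 58))) (.rp 5 (.thr 39 36 (.thr 47 32 (.thr 46 34 (.thr 44 45 (.dbl 35 41 43))))) .nd)))))))))) .nd)))))) (.rp 26 (.str 39 (.nv (.thr 47 31 (.thr 35 43 (.thr 37 32 (.thr 38 36 (.thr 44 41 (.dbl 46 34 45)))))) (.nv (.thr 51 27 (.thr 59 55 (.thr 25 8 (.thr 29 17 (.dbl 12 38 46))))) (.rp 46 (.thr 51 27 (.thr 47 31 (.thr 55 59 (.thr 38 4 (.dbl 37 32 36))))) (.rp 38 (.thr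 47 31 (.thr 43 35 (.thr 3 23 (.thr 37 32 (.thr 41 40 (.thr 60 22 (.dbl 45 30 33))))))) .nd))))) .nd))))))))))

theorem w321 : WinAt (9223376434903384064, 4611686018427388033) :=
  chF (K := []) kn c321 9223376434903384064 4611686018427388033 0
    [] (by decide +kernel) (by decide +kernel)

/-- A certificate. -/
noncomputable def c322 : Ct := (.str 22 (.rp 62 (.str 28 (.nv (.thr 20 23 (.thr 16 24 (.thr 25 19 (.thr 31 26 (.dbl 29 17 30))))) (.nv (.thr 20 23 (.thr 24 16 (.thr 25 19 (.thr 8 59 (.thr 40 56 (.thr 60 0 (.dbl 41 3 43))))))) (.nv (.thr 19 25 (.thr 23 20 (.thr 31 27 (.thr 26 16 (.dbl 30 18 29))))) (.rp 61 (.str 60 (.nv (.thr 12 44 (.thr 25 19 (.thr 8 59 (.thr 0 4 (.dbl 20 23 40))))) (.nv (.thr 3 41 (.thr 12 44 (.thr 6 9 (.thr 25 19 (.dbl 38 51 54))))) (.nv (.thr 20 23 (.thr 40 0 (.dbl 41 3 43))) .nd)))) (.rp 60 (.str 61 (.nv (.thr 1 41 (.thr 25 19 (.thr 17 29 (.thr 49 33 (.thr 37 13 (.dbl 53 5 57)))))) (.nv (.thr 19 25 (.thr 23 20 (.thr 31 27 (.thr 26 16 (.dbl 30 18 29))))) (.rp 29 (.thr 20 23 (.thr 16 24 (.thr 26 31 (.thr 18 30 (.dbl 19 17 25))))) (.rp 25 (.thr 20 23 (.thr 16 24 (.thr 26 31 (.thr 58 10 (.thr 41 1 (.thr 56 11 (.thr 57 59 (.thr 53 49 (.thr 37 5 (.thr 32 47 (.thr 15 48 (.thr 33 45 (.thr 35 34 (.thr 44 38 (.dbl 40 36 43))))))))))))))) (.rp 19 (.thr 20 23 (.thr 16 24 (.thr 31 26 (.thr 29 30 (.thr 41 1 (.thr 25 17 (.thr 57 9 (.thr 49 53 (.dbl 13 37 45))))))))) .nd)))))) (.rp 31 (.thr 20 23 (.thr 24 16 (.thr 25 19 (.thr 27 26 (.thr 8 59 (.thr 40 56 (.thr 60 0 (.dbl 41 3 43)))))))) (.rp 25 (.str 60 (.nv (.thr 20 23 (.thr 40 0 (.dbl 41 3 43))) (.rp 55 (.thr 44 12 (.thr 41 3 (.thr 38 35 (.thr 46 34 (.thr 47 45 (.thr 32 37 (.dbl 40 36 43))))))) (.rp 43 (.thr 12 44 (.thr 20 23 (.thr 3 41 (.thr 24 16 (.thr 36 48 (.thr 4 52 (.dbl 0 8 40))))))) (.rp 41 (.thr 12 44 (.thr 20 23 (.thr 24 16 (.thr 36 48 (.thr 4 52 (.dbl 0 8 40)))))) (.rp 40 (.thr 44 12 (.thr 41 3 (.thr 61 1 (.thr 38 35 (.thr 46 34 (.thr 45 47 (.thr 29 13 (.dbl 30 15 31)))))))) (.rp 39 (.thr 44 12 (.thr 41 3 (.thr 38 35 (.thr 46 34 (.thr 47 45 (.thr 32 37 (.dbl 40 36 43))))))) (.rp 23 (.thr 44 12 (.thr 41 3 (.thr 43 40 (.thr 61 1 (.thr 38 35 (.thr 46 34 (.thr 45 47 (.thr 29 13 (.dbl 30 15 31))))))))) (.rp 20 (.thr 44 12 (.thr 41 3 (.thr 38 35 (.thr 46 34 (.thr 47 45 (.thr 32 37 (.dbl 40 36 43))))))) (.rp 3 (.thr 23 20 (.str 15 (.nv (.thr 30 45 (.thr 31 29 (.dbl 26 16 18))) (.nv (.thr 30 45 (.thr 26 18 (.thr 10 58 (.thr 5 0 (.dbl 37 48 53))))) (.nv (.thr 30 45 (.thr 26 18 (.dbl 31 16 29))) (.rp 45 (.str 30 (.nv (.thr 31 29 (.dbl 26 16 18)) (.nv (.thr 26 18 (.thr 10 58 (.thr 5 0 (.dbl 37 48 53)))) (.nv (.thr 26 18 (.dbl 31 16 29)) (.rp 26 (.thr 31 29 (.thr 12 44 (.thr 27 19 (.thr 51 39 (.thr 54 57 (.thr 38 6 (.thr 4 55 (.thr 0 8 (.dbl 34 17 46))))))))) (.rp 18 (.thr 31 29 (.thr 26 16 (.thr 10 58 (.thr 5 0 (.dbl 37 48 53))))) .nd)))))) (.rp 30 (.thr 12 44 (.str 38 (.nv (.thr 4 55 (.thr 0 8 (.thr 10 5 (.thr 14 13 (.dbl 26 50 58))))) (.nv (.thr 4 55 (.thr 0 8 (.thr 54 6 (.thr 51 57 (.dbl 34 17 46))))) (.nv (.thr 14 13 (.thr 6 54 (.thr 10 2 (.dbl 26 50 58)))) (.rp 14 (.thr 46 34 (.thr 4 55 (.thr 0 8 (.thr 5 10 (.thr 37 53 (.thr 36 39 (.dbl 48 24 26))))))) (.rp 0 (.thr 14 13 (.thr 6 54 (.thr 2 10 (.thr 34 46 (.dbl 50 18 26))))) .nd))))))) (.rp 26 (.thr 12 44 (.thr 30 45 (.thr 31 29 (.thr 27 19 (.thr 51 39 (.thr 54 57 (.thr 38 6 (.thr 4 55 (.thr 0 8 (.dbl 34 17 46)))))))))) (.rp 18 (.thr 30 45 (.thr 31 29 (.thr 26 16 (.thr 10 58 (.thr 5 0 (.dbl 37 48 53)))))) .nd))))))))) (.rp 0 (.thr 44 12 (.thr 41 3 (.thr 38 35 (.thr 46 34 (.thr 47 45 (.thr 32 37 (.dbl 40 36 43))))))) .nd))))))))))) (.rp 23 (.thr 25 19 (.thr 29 17 (.thr 31 30 (.thr 16 26 (.thr 24 20 (.thr 8 59 (.thr 40 56 (.thr 41 43 (.thr 3 60 (.thr 61 1 (.thr 57 9 (.thr 49 53 (.dbl 13 37 45))))))))))))) (.rp 20 (.str 60 (.nv (.thr 3 41 (.thr 12 44 (.thr 6 9 (.thr 25 19 (.dbl 38 51 54))))) (.nv (.thr 12 44 (.thr 25 19 (.thr 8 59 (.thr 4 0 (.dbl 38 51 55))))) (.rp 51 (.thr 44 12 (.thr 25 19 (.thr 29 17 (.thr 30 31 (.thr 45 15 (.thr 47 46 (.thr 13 61 (.dbl 37 32 49)))))))) (.rp 44 (.thr 25 19 (.thr 29 17 (.thr 30 31 (.thr 41 3 (.thr 61 1 (.dbl 45 13 15)))))) (.rp 38 (.thr 25 19 (.thr 29 17 (.thr 30 31 (.thr 41 3 (.thr 61 1 (.dbl 45 13 15)))))) (.rp 25 (.thr 44 12 (.thr 41 3 (.thr 38 35 (.thr 46 34 (.thr 47 45 (.thr 32 37 (.dbl 40 36 43))))))) (.rp 19 (.thr 44 12 (.thr 41 3 (.thr 43 40 (.thr 35 38 (.thr 47 39 (.thr 37 32 (.dbl 45 33 46))))))) (.rp 12 (.thr 25 19 (.thr 29 17 (.thr 30 31 (.thr 41 3 (.thr 61 1 (.dbl 45 13 15)))))) .nd))))))))) (.rp 19 (.str 61 (.nv (.thr 41 1 (.thr 43 40 (.thr 60 3 (.thr 44 12 (.thr 35 38 (.thr 47 39 (.thr 37 32 (.dbl 45 33 46)))))))) (.rp 60 (.thr 20 23 (.thr 16 24 (.thr 31 26 (.thr 29 30 (.thr 41 1 (.thr 25 17 (.thr 57 9 (.thr 49 53 (.dbl 13 37 45))))))))) (.rp 55 (.thr 23 20 (.thr 41 1 (.thr 40 43 (.thr 60 3 (.thr 44 12 (.thr 32 36 (.thr 47 37 (.thr 46 45 (.dbl 38 34 35))))))))) (.rp 51 (.thr 20 23 (.thr 16 24 (.thr 31 26 (.thr 29 30 (.thr 13 45 (.thr 41 1 (.thr 25 17 (.thr 57 9 (.dbl 49 37 53))))))))) (.rp 47 (.thr 20 23 (.thr 16 24 (.thr 31 26 (.thr 29 30 (.thr 13 45 (.thr 41 1 (.thr 25 17 (.thr 57 9 (.dbl 49 37 53))))))))) (.rp 46 (.thr 20 23 (.thr 24 16 (.thr 41 1 (.thr 40 43 (.thr 3 60 (.thr 8 56 (.thr 25 59 (.thr 57 9 (.thr 49 53 (.thr 13 37 (.dbl 29 17 45))))))))))) (.rp 45 (.thr 20 23 (.thr 16 24 (.thr 31 26 (.thr 29 30 (.thr 41 1 (.thr 43 40 (.thr 25 17 (.thr 57 9 (.thr 60 3 (.thr 12 44 (.dbl 51 38 54))))))))))) (.rp 44 (.thr 20 23 (.thr 16 24 (.thr 31 26 (.thr 29 30 (.thr 13 45 (.thr 41 1 (.thr 25 17 (.thr 57 9 (.dbl 49 37 53))))))))) (.rp 43 (.thr 41 1 (.thr 20 23 (.thr 3 60 (.thr 16 24 (.thr 31 26 (.thr 29 30 (.thr 25 17 (.thr 57 9 (.thr 49 53 (.dbl 13 37 45)))))))))) (.rp 41 (.thr 20 23 (.thr 16 24 (.thr 31 26 (.thr 29 30 (.thr 13 45 (.thr 25 17 (.thr 8 59 (.thr 37 49 (.thr 32 47 (.thr 0 48 (.thr 12 4 (.dbl 60 40 44)))))))))))) (.rp 40 (.thr 20 23 (.thr 16 24 (.thr 31 26 (.thr 29 30 (.thr 13 45 (.thr 41 1 (.thr 25 17 (.thr 57 9 (.dbl 49 37 53))))))))) (.rp 39 (.thr 23 20 (.thr 41 1 (.thr 40 43 (.thr 60 3 (.thr 44 12 (.thr 32 36 (.thr 37 47 (.thr 35 38 (.dbl 33 34 45))))))))) (.rp 38 (.thr 20 23 (.thr 16 24 (.thr 31 26 (.thr 29 30 (.thr 13 45 (.thr 41 1 (.thr 25 17 (.thr 57 9 (.dbl 49 37 53))))))))) (.rp 37 (.thr 20 23 (.thr 16 24 (.thr 31 26 (.thr 29 30 (.thr 45 13 (.thr 41 1 (.thr 43 40 (.thr 60 3 (.thr 44 12 (.thr 46 47 (.dbl 38 34 35))))))))))) (.rp 35 (.thr 20 23 (.thr 16 24 (.thr 31 26 (.thr 29 30 (.thr 13 45 (.thr 41 1 (.thr 25 17 (.thr 57 9 (.dbl 49 37 53))))))))) (.rp 33 (.thr 20 23 (.thr 16 24 (.thr 31 26 (.thr 29 30 (.thr 13 45 (.thr 41 1 (.thr 25 17 (.thr 49 37 (.dbl 57 9 53))))))))) (.rp 32 (.thr 20 23 (.thr 16 24 (.thr 31 26 (.thr 29 30 (.thr 13 45 (.thr 41 1 (.thr 25 17 (.thr 57 9 (.dbl 49 37 53))))))))) (.rp 29 (.thr 20 23 (.thr 24 16 (.thr 41 1 (.thr 40 43 (.thr 3 60 (.thr 56 8 (.thr 26 11 (.thr 18 30 (.thr 48 33 (.thr 12 36 (.thr 9 6 (.dbl 25 27 57)))))))))))) (.rp 25 (.thr 23 20 (.thr 41 1 (.thr 40 43 (.thr 60 3 (.thr 44 12 (.thr 32 36 (.thr 47 37 (.thr 46 45 (.dbl 38 34 35))))))))) (.rp 23 (.thr 41 1 (.thr 43 40 (.str 31 (.nv (.thr 26 16 (.dbl 30 18 29)) (.rp 55 (.str 39 (.nv (.thr 35 47 (.thr 44 38 (.dbl 60 3 12))) (.nv (.thr 26 16 (.dbl 30 18 29)) (.rp 59 (.str 51 (.nv (.thr 35 47 (.thr 44 38 (.dbl 60 3 12))) (.nv (.thr 26 16 (.dbl 30 18 29)) .nd))) (.rp 51 (.str 59 (.nv (.thr 3 60 (.thr 29 30 (.dbl 25 8 17))) (.nv (.thr 11 27 (.dbl 26 16 56)) (.rp 3 (.thr 35 47 (.thr 30 29 (.dbl 26 16 18))) .nd)))) .nd))))) (.rp 39 (.str 55 (.nv (.thr 38 4 (.thr 44 35 (.dbl 60 3 12))) (.nv (.thr 26 16 (.dbl 30 18 29)) .nd))) (.rp 30 (.thr 26 16 (.thr 10 58 (.thr 11 56 (.thr 8 9 (.dbl 59 25 27))))) (.rp 29 (.thr 26 16 (.thr 10 58 (.thr 11 56 (.thr 8 9 (.dbl 59 25 27))))) (.rp 26 (.thr 29 30 (.thr 13 45 (.thr 25 17 (.thr 57 9 (.dbl 49 37 53))))) (.rp 18 (.thr 29 30 (.thr 13 45 (.thr 25 17 (.thr 16 26 (.thr 57 9 (.dbl 49 37 53)))))) (.rp 17 (.thr 30 29 (.dbl 26 16 18)) (.rp 16 (.thr 29 30 (.thr 45 13 (.thr 60 3 (.thr 44 12 (.thr 46 47 (.dbl 38 34 35)))))) .nd)))))))))))) (.rp 15 (.thr 20 23 (.thr 16 24 (.thr 31 26 (.thr 29 30 (.thr 41 1 (.thr 25 17 (.thr 57 9 (.thr 49 53 (.dbl 13 37 45))))))))) (.rp 12 (.thr 20 23 (.thr 16 24 (.thr 31 26 (.thr 29 30 (.thr 13 45 (.thr 41 1 (.thr 25 17 (.thr 57 9 (.dbl 49 37 53))))))))) (.rp 11 (.thr 20 23 (.thr 16 24 (.thr 31 26 (.thr 29 30 (.thr 13 45 (.thr 41 1 (.thr 25 17 (.thr 57 9 (.dbl 49 37 53))))))))) (.rp 9 (.thr 20 23 (.thr 16 24 (.thr 31 26 (.thr 29 30 (.thr 13 45 (.thr 25 17 (.thr 37 49 (.thr 32 47 (.thr 0 48 (.thr 60 40 (.dbl 41 1 3))))))))))) (.rp 6 (.thr 20 23 (.thr 16 24 (.thr 31 26 (.thr 29 30 (.thr 13 45 (.thr 41 1 (.thr 25 17 (.thr 57 9 (.dbl 49 37 53))))))))) (.rp 3 (.thr 41 1 (.thr 20 23 (.thr 43 40 (.thr 16 24 (.thr 31 26 (.thr 29 30 (.thr 13 45 (.thr 25 17 (.thr 57 9 (.dbl 49 37 53)))))))))) (.rp 2 (.thr 20 23 (.thr 16 24 (.thr 31 26 (.thr 29 30 (.thr 13 45 (.thr 41 1 (.thr 25 17 (.thr 57 9 (.dbl 49 37 53))))))))) (.rp 1 (.thr 20 23 (.thr 16 24 (.thr 31 26 (.thr 29 30 (.thr 13 45 (.thr 25 17 (.thr 49 37 (.thr 57 53 (.thr 41 9 (.thr 43 40 (.thr 60 3 (.thr 12 44 (.dbl 51 38 54))))))))))))) (.rp 0 (.thr 20 23 (.thr 16 24 (.thr 31 26 (.thr 29 30 (.thr 13 45 (.thr 41 1 (.thr 25 17 (.thr 57 9 (.dbl 49 37 53))))))))) .nd)))))))))))))))))))))))))))))) (.rp 16 (.str 60 (.nv (.thr 12 44 (.thr 25 19 (.thr 8 59 (.thr 0 4 (.dbl 20 23 40))))) (.nv (.thr 3 41 (.thr 12 44 (.thr 6 9 (.thr 25 19 (.dbl 38 51 54))))) (.nv (.thr 20 23 (.thr 40 0 (.dbl 41 3 43))) .nd)))) .nd)))))))))))) (.rp 61 (.thr 23 20 (.thr 62 2 (.str 26 (.nv (.thr 31 16 (.thr 19 27 (.thr 28 25 (.dbl 30 18 29)))) (.nv (.thr 58 10 (.thr 50 54 (.thr 30 18 (.dbl 14 38 46)))) (.rp 30 (.str 48 (.nv (.thr 10 58 (.thr 15 37 (.thr 0 5 (.dbl 16 31 32)))) (.nv (.thr 16 31 (.thr 32 0 (.dbl 37 15 47))) (.nv (.thr 16 31 (.thr 15 37 (.thr 0 32 (.dbl 10 5 58)))) (.rp 37 (.thr 16 31 (.thr 0 32 (.thr 58 10 (.thr 50 54 (.thr 51 49 (.thr 34 17 (.dbl 38 14 46))))))) (.rp 32 (.thr 31 16 (.thr 27 19 (.thr 58 10 (.thr 50 54 (.thr 51 49 (.dbl 15 37 39)))))) (.rp 31 (.thr 58 10 (.thr 50 54 (.thr 51 49 (.thr 15 37 (.thr 27 39 (.thr 25 24 (.dbl 38 12 14))))))) (.rp 16 (.thr 58 10 (.thr 50 54 (.thr 51 49 (.thr 15 37 (.thr 27 39 (.thr 19 31 (.dbl 25 24 28))))))) (.rp 15 (.thr 31 16 (.thr 27 19 (.thr 24 25 (.thr 58 10 (.thr 54 50 (.thr 6 38 (.thr 12 36 (.thr 3 9 (.thr 60 41 (.thr 57 51 (.dbl 56 52 59))))))))))) (.rp 0 (.thr 31 16 (.thr 27 19 (.thr 58 10 (.thr 50 54 (.thr 51 49 (.dbl 15 37 39)))))) .nd)))))))))) (.rp 18 (.thr 31 16 (.thr 19 27 (.thr 28 25 (.thr 30 29 (.thr 58 10 (.thr 50 54 (.dbl 14 38 46))))))) .nd))))))) (.rp 60 (.thr 62 2 (.str 26 (.nv (.thr 16 31 (.thr 18 30 (.thr 19 17 (.thr 20 23 (.dbl 28 24 25))))) (.nv (.thr 58 10 (.thr 50 54 (.thr 30 18 (.dbl 14 38 46)))) (.rp 30 (.str 15 (.nv (.thr 10 58 (.thr 48 37 (.thr 0 5 (.dbl 16 31 32)))) (.nv (.thr 10 58 (.thr 5 0 (.dbl 37 48 53))) (.rp 58 (.thr 31 16 (.thr 23 20 (.thr 27 19 (.thr 51 39 (.thr 48 37 (.thr 50 49 (.thr 38 14 (.dbl 25 12 24)))))))) (.rp 48 (.str 56 (.nv (.thr 11 41 (.thr 23 20 (.thr 58 10 (.thr 59 57 (.thr 27 43 (.dbl 31 16 19)))))) (.nv (.thr 23 20 (.thr 31 16 (.thr 19 27 (.thr 58 10 (.thr 59 57 (.dbl 25 8 28)))))) (.nv (.thr 23 20 (.thr 31 16 (.thr 27 19 (.thr 24 25 (.thr 40 8 (.dbl 41 11 43)))))) (.nv (.thr 58 10 (.thr 11 41 (.thr 59 57 (.thr 25 8 (.dbl 27 24 43))))) (.rp 58 (.str 53 (.nv (.thr 41 11 (.thr 61 1 (.thr 49 57 (.thr 37 5 (.thr 13 25 (.dbl 45 29 33)))))) (.nv (.thr 41 11 (.thr 23 20 (.thr 40 43 (.thr 24 8 (.thr 27 25 (.dbl 31 16 19)))))) (.rp 41 (.thr 5 37 (.thr 23 20 (.thr 31 16 (.thr 0 10 (.thr 27 19 (.thr 51 39 (.thr 17 34 (.dbl 25 24 29)))))))) (.rp 25 (.thr 41 11 (.thr 40 43 (.thr 24 8 (.thr 16 31 (.dbl 20 23 28))))) (.rp 11 (.thr 5 37 (.thr 23 20 (.thr 31 16 (.thr 0 10 (.thr 27 19 (.thr 51 39 (.thr 17 34 (.dbl 25 24 29)))))))) .nd)))))) (.rp 27 (.thr 41 11 (.thr 58 10 (.thr 40 43 (.thr 59 57 (.dbl 8 24 25))))) (.rp 25 (.thr 41 11 (.thr 40 43 (.thr 24 8 (.thr 16 31 (.dbl 20 23 28))))) .nd)))))))) (.rp 37 (.thr 10 58 (.thr 0 5 (.thr 31 16 (.thr 23 20 (.thr 27 19 (.thr 51 39 (.thr 17 34 (.dbl 25 24 29)))))))) (.rp 10 (.thr 31 16 (.thr 23 20 (.thr 27 19 (.thr 51 39 (.thr 48 37 (.thr 50 49 (.thr 54 58 (.dbl 38 6 14)))))))) (.rp 5 (.thr 58 10 (.thr 50 54 (.thr 31 16 (.thr 23 20 (.thr 27 19 (.thr 51 39 (.dbl 48 37 49))))))) (.rp 0 (.thr 58 10 (.thr 50 54 (.thr 31 16 (.thr 48 37 (.thr 51 49 (.thr 27 39 (.dbl 23 19 20))))))) .nd))))))))) (.rp 18 (.thr 23 20 (.thr 31 16 (.thr 19 27 (.thr 28 25 (.thr 30 29 (.thr 58 10 (.thr 50 54 (.dbl 14 38 46)))))))) .nd)))))) (.rp 59 (.str 26 (.nv (.thr 23 20 (.thr 31 16 (.thr 19 27 (.thr 30 18 (.dbl 28 25 29))))) (.nv (.thr 30 18 (.thr 58 10 (.thr 62 2 (.thr 50 54 (.dbl 14 38 46))))) (.rp 55 (.str 51 (.nv (.thr 2 62 (.thr 10 58 (.thr 14 6 (.thr 18 30 (.dbl 50 34 38))))) (.nv (.thr 23 20 (.thr 31 16 (.thr 19 27 (.thr 30 18 (.dbl 28 25 29))))) (.rp 30 (.thr 10 58 (.thr 31 16 (.thr 23 20 (.thr 27 19 (.thr 15 39 (.thr 5 0 (.dbl 37 48 53))))))) (.rp 23 (.str 39 (.nv (.thr 27 15 (.thr 31 16 (.thr 30 18 (.thr 25 24 (.dbl 28 19 29))))) (.rp 43 (.str 3 (.nv (.thr 2 62 (.thr 1 0 (.dbl 41 60 61))) (.nv (.thr 19 35 (.thr 25 28 (.dbl 27 15 24))) (.rp 27 (.str 11 (.nv (.thr 16 31 (.thr 19 35 (.dbl 18 17 30))) (.nv (.dbl 41 56 60) (.rp 31 (.thr 19 35 (.dbl 41 56 60)) (.rp 19 (.thr 31 16 (.dbl 41 56 60)) .nd))))) (.rp 11 (.thr 27 15 (.thr 19 35 (.dbl 25 24 28))) .nd))))) (.rp 31 (.thr 18 30 (.thr 10 58 (.thr 2 62 (.thr 14 6 (.dbl 50 34 38))))) (.rp 30 (.thr 15 27 (.thr 10 58 (.thr 5 0 (.dbl 37 48 53)))) (.rp 29 (.thr 15 27 (.thr 10 58 (.thr 5 0 (.dbl 37 48 53)))) (.rp 28 (.thr 15 27 (.thr 10 58 (.thr 5 0 (.dbl 37 48 53)))) (.rp 27 (.thr 18 30 (.thr 10 58 (.thr 2 62 (.thr 14 6 (.dbl 50 34 38))))) (.rp 25 (.thr 15 27 (.thr 10 58 (.thr 5 0 (.dbl 37 48 53)))) (.rp 24 (.thr 15 27 (.thr 10 58 (.thr 5 0 (.dbl 37 48 53)))) (.rp 19 (.thr 15 27 (.thr 31 16 (.thr 10 58 (.thr 5 0 (.dbl 37 48 53))))) (.rp 18 (.thr 15 27 (.thr 10 58 (.thr 5 0 (.dbl 37 48 53)))) (.rp 17 (.thr 15 27 (.thr 10 58 (.thr 5 0 (.dbl 37 48 53)))) (.rp 16 (.thr 15 27 (.thr 10 58 (.thr 5 0 (.dbl 37 48 53)))) (.rp 15 (.thr 18 30 (.thr 10 58 (.thr 2 62 (.thr 14 6 (.dbl 50 34 38))))) (.rp 11 (.thr 18 30 (.thr 10 58 (.thr 2 62 (.thr 14 6 (.dbl 50 34 38))))) (.rp 3 (.str 43 (.nv (.thr 2 62 (.thr 18 30 (.thr 50 34 (.thr 14 38 (.dbl 10 6 58))))) (.nv (.thr 15 27 (.thr 47 35 (.dbl 37 32 48))) (.rp 15 (.str 11 (.nv (.dbl 41 40 56) (.rp 56 (.thr 18 30 (.thr 2 62 (.thr 34 50 (.thr 17 0 (.dbl 16 19 31))))) (.rp 47 (.thr 31 16 (.dbl 41 40 56)) (.rp 41 (.thr 18 30 (.thr 10 58 (.thr 2 62 (.thr 14 6 (.dbl 50 34 38))))) (.rp 40 (.thr 18 30 (.thr 10 58 (.thr 2 62 (.thr 14 6 (.dbl 50 34 38))))) (.rp 31 (.thr 47 35 (.dbl 41 40 56)) .nd))))))) .nd)))) .nd))))))))))))))))) (.rp 18 (.thr 58 10 (.thr 62 2 (.thr 50 54 (.thr 16 31 (.thr 48 49 (.thr 32 0 (.dbl 37 15 47))))))) .nd)))))) (.rp 51 (.str 55 (.nv (.thr 23 20 (.thr 30 18 (.thr 31 16 (.thr 28 29 (.dbl 19 25 27))))) (.nv (.thr 38 4 (.thr 50 14 (.thr 58 10 (.dbl 54 6 62)))) .nd))) (.rp 30 (.thr 10 58 (.thr 2 62 (.thr 14 6 (.thr 50 38 (.thr 18 34 (.thr 16 31 (.thr 19 17 (.thr 20 23 (.dbl 28 24 25))))))))) (.rp 18 (.thr 58 10 (.thr 62 2 (.thr 50 54 (.thr 14 38 (.thr 30 46 (.thr 31 16 (.thr 23 20 (.thr 19 27 (.dbl 28 25 29))))))))) .nd))))))) (.rp 58 (.str 19 (.nv (.thr 20 23 (.thr 28 25 (.thr 16 24 (.thr 26 31 (.dbl 18 17 30))))) (.nv (.thr 23 20 (.thr 31 27 (.thr 26 16 (.thr 28 25 (.dbl 30 18 29))))) (.rp 53 (.str 48 (.nv (.thr 2 62 (.thr 20 23 (.thr 28 25 (.thr 16 24 (.thr 0 32 (.thr 3 1 (.dbl 60 40 41))))))) (.nv (.thr 2 62 (.thr 25 28 (.thr 17 29 (.thr 16 18 (.thr 0 32 (.thr 3 1 (.dbl 51 34 35))))))) (.nv (.thr 23 20 (.thr 28 25 (.thr 31 27 (.thr 26 16 (.dbl 30 18 29))))) (.rp 28 (.thr 23 20 (.thr 31 27 (.thr 16 26 (.thr 18 17 (.thr 3 33 (.thr 0 32 (.dbl 2 1 62))))))) (.rp 25 (.thr 23 20 (.thr 31 27 (.thr 26 16 (.thr 15 37 (.thr 30 18 (.thr 60 45 (.thr 41 3 (.dbl 56 11 52)))))))) (.rp 16 (.thr 23 20 (.thr 27 31 (.thr 25 28 (.thr 24 26 (.thr 8 59 (.thr 12 36 (.thr 4 0 (.dbl 38 51 55)))))))) .nd))))))) (.rp 48 (.str 53 (.nv (.thr 2 62 (.thr 25 28 (.thr 37 5 (.thr 49 13 (.thr 61 57 (.thr 1 41 (.dbl 17 29 33))))))) (.nv (.thr 23 20 (.thr 28 25 (.thr 31 27 (.thr 26 16 (.dbl 30 18 29))))) (.rp 29 (.thr 20 23 (.thr 28 25 (.thr 16 24 (.thr 18 17 (.dbl 26 30 31))))) (.rp 28 (.thr 37 5 (.thr 23 20 (.thr 31 27 (.thr 16 26 (.thr 17 18 (.thr 25 29 (.thr 49 13 (.thr 61 57 (.dbl 1 33 41))))))))) (.rp 25 (.str 3 (.nv (.thr 20 23 (.thr 60 41 (.thr 0 40 (.dbl 2 1 62)))) (.nv (.thr 35 51 (.thr 37 5 (.thr 32 47 (.thr 33 34 (.dbl 41 45 60))))) (.nv (.thr 2 62 (.thr 1 0 (.dbl 41 60 61))) (.rp 60 (.thr 51 35 (.thr 5 37 (.thr 23 20 (.thr 27 31 (.thr 15 39 (.thr 0 10 (.dbl 2 1 62))))))) (.rp 41 (.thr 51 35 (.thr 5 37 (.thr 23 20 (.thr 27 31 (.thr 15 39 (.thr 0 10 (.dbl 2 1 62))))))) (.rp 0 (.thr 35 51 (.thr 37 5 (.thr 32 47 (.thr 41 60 (.dbl 33 34 45))))) .nd))))))) .nd)))))) (.rp 31 (.str 3 (.nv (.thr 25 28 (.thr 51 35 (.thr 12 38 (.thr 9 6 (.dbl 41 57 60))))) (.nv (.thr 2 62 (.thr 1 0 (.dbl 41 60 61))) (.rp 60 (.thr 51 35 (.thr 25 28 (.thr 8 59 (.thr 12 38 (.thr 0 4 (.dbl 2 1 62)))))) (.rp 53 (.str 48 (.nv (.thr 2 62 (.thr 1 0 (.dbl 41 60 61))) (.nv (.thr 18 33 (.thr 17 16 (.dbl 25 28 29))) (.rp 47 (.str 15 (.nv (.thr 2 62 (.thr 1 0 (.dbl 41 60 61))) (.nv (.thr 18 33 (.dbl 26 30 37)) .nd))) (.rp 15 (.str 47 (.nv (.thr 2 62 (.thr 0 1 (.thr 25 28 (.thr 51 35 (.dbl 17 29 34))))) (.nv (.thr 37 32 (.thr 33 18 (.dbl 41 45 60))) (.rp 60 (.thr 33 18 (.thr 35 51 (.dbl 32 34 37))) .nd)))) .nd))))) (.rp 48 (.str 53 (.nv (.thr 25 28 (.thr 41 60 (.thr 61 1 (.dbl 57 9 49)))) (.nv (.thr 2 62 (.thr 1 0 (.dbl 41 60 61))) (.rp 61 (.thr 20 23 (.thr 2 62 (.thr 60 41 (.dbl 0 1 40)))) (.rp 60 (.thr 51 35 (.thr 25 28 (.thr 8 59 (.thr 12 38 (.thr 0 4 (.dbl 17 29 34)))))) (.rp 47 (.str 15 (.nv (.thr 25 28 (.thr 41 60 (.thr 61 1 (.dbl 57 9 49)))) (.nv (.thr 5 37 (.thr 0 10 (.dbl 2 1 62))) (.rp 1 (.thr 5 37 (.thr 0 10 (.thr 20 23 (.dbl 60 40 41)))) .nd)))) (.rp 41 (.thr 51 35 (.thr 2 62 (.thr 0 1 (.thr 17 34 (.dbl 25 28 29))))) (.rp 15 (.str 47 (.nv (.thr 35 51 (.thr 41 60 (.dbl 43 39 40))) (.nv (.dbl 37 5 32) (.rp 37 (.str 26 (.nv (.thr 20 23 (.thr 28 25 (.thr 16 24 (.dbl 18 17 30)))) (.nv (.thr 2 62 (.thr 0 1 (.thr 20 23 (.dbl 60 40 41)))) (.nv (.thr 18 30 (.thr 17 16 (.dbl 25 28 29))) .nd)))) .nd)))) (.rp 1 (.thr 51 35 (.thr 41 60 (.thr 25 28 (.thr 9 57 (.dbl 12 6 38))))) .nd))))))))) (.rp 47 (.str 15 (.nv (.thr 25 28 (.thr 51 35 (.thr 12 38 (.thr 9 6 (.dbl 41 57 60))))) (.nv (.thr 2 62 (.thr 1 0 (.dbl 41 60 61))) (.rp 60 (.thr 51 35 (.thr 25 28 (.thr 8 59 (.thr 12 38 (.thr 0 4 (.dbl 2 1 62)))))) (.rp 53 (.str 48 (.nv (.thr 2 62 (.thr 1 0 (.dbl 41 60 61))) (.nv (.thr 18 33 (.dbl 26 30 37)) .nd))) (.rp 48 (.str 53 (.nv (.thr 25 28 (.thr 41 60 (.thr 61 1 (.dbl 57 9 49)))) (.nv (.thr 5 37 (.thr 0 10 (.dbl 2 1 62))) (.rp 1 (.thr 5 37 (.thr 0 10 (.thr 20 23 (.dbl 60 40 41)))) .nd)))) (.rp 41 (.thr 51 35 (.thr 2 62 (.thr 0 1 (.thr 17 34 (.dbl 25 28 29))))) .nd))))))) (.rp 41 (.thr 51 35 (.thr 2 62 (.thr 0 1 (.thr 17 34 (.dbl 25 28 29))))) (.rp 15 (.str 47 (.nv (.thr 20 23 (.thr 41 60 (.thr 43 40 (.dbl 35 39 51)))) (.nv (.thr 2 62 (.thr 1 0 (.dbl 41 60 61))) (.rp 62 (.thr 35 51 (.thr 41 60 (.thr 61 1 (.dbl 43 39 40)))) (.rp 61 (.thr 35 51 (.thr 62 2 (.thr 41 60 (.dbl 43 39 40)))) (.rp 60 (.thr 35 51 (.thr 39 43 (.thr 37 32 (.thr 38 36 (.thr 46 34 (.dbl 44 41 45)))))) (.rp 53 (.str 48 (.nv (.thr 2 62 (.thr 0 1 (.thr 25 28 (.thr 51 35 (.dbl 17 29 34))))) (.nv (.thr 37 32 (.thr 33 18 (.dbl 41 45 60))) (.rp 60 (.thr 33 18 (.thr 35 51 (.dbl 32 34 37))) .nd)))) (.rp 48 (.str 53 (.nv (.thr 35 51 (.thr 41 60 (.dbl 43 39 40))) (.nv (.dbl 37 5 32) (.rp 37 (.str 26 (.nv (.thr 20 23 (.thr 28 25 (.thr 16 24 (.dbl 18 17 30)))) (.nv (.thr 2 62 (.thr 0 1 (.thr 20 23 (.dbl 60 40 41)))) (.nv (.thr 18 30 (.thr 17 16 (.dbl 25 28 29))) .nd)))) .nd)))) (.rp 41 (.thr 51 35 (.thr 2 62 (.thr 0 1 (.thr 17 34 (.dbl 25 28 29))))) .nd))))))))) .nd))))))))) (.rp 30 (.thr 23 20 (.thr 31 27 (.thr 16 26 (.thr 17 18 (.dbl 25 28 29))))) (.rp 28 (.str 3 (.nv (.thr 20 23 (.thr 60 41 (.thr 0 40 (.dbl 2 1 62)))) (.nv (.thr 2 62 (.thr 1 0 (.dbl 41 60 61))) (.rp 62 (.thr 51 35 (.thr 20 23 (.thr 60 41 (.thr 54 57 (.thr 38 6 (.thr 34 46 (.dbl 0 17 40))))))) (.rp 60 (.thr 51 35 (.thr 23 20 (.thr 31 27 (.thr 16 26 (.thr 17 18 (.thr 0 34 (.dbl 2 1 62))))))) (.rp 53 (.str 48 (.nv (.thr 2 62 (.thr 1 0 (.dbl 41 60 61))) (.nv (.thr 18 33 (.thr 26 30 (.dbl 16 17 31))) .nd))) (.rp 48 (.str 53 (.nv (.thr 20 23 (.thr 60 41 (.thr 0 40 (.dbl 2 1 62)))) (.nv (.thr 35 51 (.thr 37 5 (.thr 32 47 (.thr 33 34 (.dbl 41 45 60))))) (.nv (.thr 2 62 (.thr 1 0 (.dbl 41 60 61))) (.rp 60 (.thr 51 35 (.thr 5 37 (.thr 23 20 (.thr 27 31 (.thr 15 39 (.thr 0 10 (.dbl 2 1 62))))))) (.rp 41 (.thr 51 35 (.thr 5 37 (.thr 23 20 (.thr 27 31 (.thr 15 39 (.thr 0 10 (.dbl 2 1 62))))))) (.rp 0 (.thr 51 35 (.thr 60 41 (.thr 54 57 (.thr 38 6 (.dbl 55 4 52))))) .nd))))))) (.rp 41 (.thr 51 35 (.thr 2 62 (.thr 0 1 (.thr 34 17 (.thr 38 46 (.thr 4 55 (.dbl 12 8 25))))))) (.rp 2 (.thr 35 51 (.thr 41 60 (.thr 43 40 (.thr 47 39 (.thr 37 32 (.thr 45 33 (.dbl 44 38 46))))))) (.rp 1 (.thr 35 51 (.thr 41 60 (.thr 43 40 (.thr 47 39 (.thr 37 32 (.thr 45 33 (.dbl 44 38 46))))))) (.rp 0 (.thr 35 51 (.thr 41 60 (.thr 40 43 (.thr 44 38 (.thr 32 36 (.thr 37 47 (.dbl 33 34 45))))))) .nd))))))))))) (.rp 26 (.thr 23 20 (.thr 27 31 (.thr 25 28 (.thr 29 17 (.thr 59 8 (.thr 43 11 (.thr 41 40 (.thr 61 1 (.thr 13 45 (.thr 49 37 (.dbl 57 9 53))))))))))) (.rp 25 (.str 3 (.nv (.thr 20 23 (.thr 60 41 (.thr 0 40 (.dbl 2 1 62)))) (.nv (.thr 2 62 (.thr 1 0 (.dbl 41 60 61))) (.rp 62 (.thr 51 35 (.thr 20 23 (.thr 60 41 (.thr 0 40 (.thr 34 17 (.thr 38 46 (.dbl 54 6 57))))))) (.rp 60 (.thr 51 35 (.thr 23 20 (.thr 31 27 (.thr 26 16 (.thr 18 30 (.thr 48 33 (.thr 50 49 (.dbl 2 34 62)))))))) (.rp 53 (.str 48 (.nv (.thr 2 62 (.thr 1 0 (.dbl 41 60 61))) (.nv (.thr 18 33 (.thr 26 30 (.dbl 16 17 31))) .nd))) (.rp 48 (.str 53 (.nv (.thr 20 23 (.thr 60 41 (.thr 0 40 (.dbl 2 1 62)))) (.nv (.thr 35 51 (.thr 37 5 (.thr 32 47 (.thr 33 34 (.dbl 41 45 60))))) (.nv (.thr 2 62 (.thr 1 0 (.dbl 41 60 61))) (.rp 60 (.thr 51 35 (.thr 5 37 (.thr 23 20 (.thr 27 31 (.thr 15 39 (.thr 0 10 (.dbl 2 1 62))))))) (.rp 41 (.thr 51 35 (.thr 5 37 (.thr 23 20 (.thr 27 31 (.thr 15 39 (.thr 0 10 (.dbl 2 1 62))))))) (.rp 0 (.thr 35 51 (.thr 37 5 (.thr 32 47 (.thr 41 60 (.dbl 33 34 45))))) .nd))))))) (.rp 41 (.thr 51 35 (.thr 2 62 (.thr 0 1 (.thr 17 34 (.thr 16 18 (.thr 31 26 (.dbl 23 20 27))))))) (.rp 2 (.thr 35 51 (.thr 41 60 (.thr 43 40 (.thr 47 39 (.thr 37 32 (.thr 45 33 (.dbl 44 38 46))))))) (.rp 1 (.thr 35 51 (.thr 41 60 (.thr 43 40 (.thr 47 39 (.thr 37 32 (.thr 45 33 (.dbl 44 38 46))))))) (.rp 0 (.thr 35 51 (.thr 41 60 (.thr 38 44 (.thr 34 46 (.thr 32 33 (.thr 47 37 (.dbl 43 39 40))))))) .nd))))))))))) (.rp 23 (.thr 62 2 (.thr 25 28 (.thr 17 29 (.thr 18 16 (.thr 30 26 (.thr 46 14 (.thr 38 34 (.thr 51 12 (.thr 3 35 (.thr 60 41 (.dbl 54 6 57))))))))))) (.rp 20 (.thr 25 28 (.thr 17 29 (.thr 16 18 (.thr 31 26 (.thr 27 23 (.thr 59 8 (.thr 43 11 (.thr 41 40 (.thr 9 57 (.thr 1 61 (.thr 49 33 (.dbl 13 5 37)))))))))))) (.rp 18 (.thr 23 20 (.thr 27 31 (.thr 25 28 (.thr 29 17 (.thr 59 8 (.thr 43 11 (.thr 41 40 (.thr 61 1 (.thr 13 45 (.thr 49 37 (.dbl 57 9 53))))))))))) (.rp 16 (.thr 23 20 (.thr 27 31 (.thr 25 28 (.thr 24 26 (.thr 29 17 (.thr 59 8 (.thr 43 11 (.thr 41 40 (.thr 61 1 (.thr 13 45 (.thr 49 37 (.dbl 57 9 53)))))))))))) .nd)))))))))))))) (.rp 57 (.str 26 (.nv (.thr 2 62 (.thr 10 58 (.thr 14 6 (.thr 18 30 (.dbl 50 34 38))))) (.nv (.thr 23 20 (.thr 31 16 (.thr 19 27 (.thr 30 18 (.dbl 28 25 29))))) (.rp 30 (.thr 10 58 (.thr 2 62 (.thr 14 6 (.thr 50 38 (.thr 18 34 (.thr 16 31 (.thr 19 17 (.thr 20 23 (.dbl 28 24 25))))))))) (.rp 18 (.thr 58 10 (.thr 62 2 (.thr 50 54 (.thr 14 38 (.thr 30 46 (.thr 31 16 (.thr 23 20 (.thr 19 27 (.dbl 28 25 29))))))))) .nd))))) (.rp 56 (.str 26 (.nv (.thr 2 62 (.thr 10 58 (.thr 14 6 (.thr 18 30 (.dbl 50 34 38))))) (.nv (.thr 30 18 (.thr 23 20 (.thr 31 16 (.thr 19 27 (.dbl 28 25 29))))) (.rp 30 (.thr 20 23 (.thr 16 31 (.thr 28 24 (.thr 19 25 (.thr 18 17 (.thr 2 62 (.thr 10 58 (.thr 14 6 (.dbl 50 34 38))))))))) (.rp 18 (.thr 23 20 (.thr 31 16 (.thr 19 27 (.thr 28 25 (.thr 30 29 (.thr 62 2 (.thr 58 10 (.thr 50 54 (.dbl 14 38 46))))))))) .nd))))) (.rp 55 (.thr 23 20 (.str 31 (.nv (.thr 2 62 (.thr 26 16 (.thr 10 58 (.thr 14 6 (.thr 18 30 (.dbl 50 34 38)))))) (.nv (.thr 19 27 (.thr 26 16 (.thr 28 25 (.dbl 30 18 29)))) (.rp 59 (.str 51 (.nv (.thr 2 62 (.thr 26 16 (.thr 10 58 (.thr 14 6 (.thr 18 30 (.dbl 50 34 38)))))) (.nv (.thr 2 62 (.thr 19 27 (.thr 3 35 (.thr 1 0 (.dbl 41 60 61))))) (.nv (.thr 19 27 (.thr 26 16 (.thr 28 25 (.dbl 30 18 29)))) .nd)))) (.rp 51 (.str 59 (.nv (.thr 25 8 (.thr 29 17 (.thr 30 28 (.dbl 26 16 18)))) (.nv (.thr 25 8 (.dbl 19 27 28)) (.rp 28 (.thr 27 19 (.thr 25 8 (.dbl 26 16 24))) (.rp 25 (.thr 27 19 (.thr 11 43 (.thr 26 16 (.thr 58 10 (.dbl 56 41 57))))) (.rp 8 (.thr 19 27 (.thr 26 16 (.thr 30 18 (.dbl 28 25 29)))) .nd)))))) (.rp 30 (.thr 19 27 (.thr 16 26 (.thr 17 18 (.dbl 25 28 29)))) (.rp 28 (.thr 27 19 (.thr 2 62 (.thr 26 16 (.thr 24 25 (.thr 18 30 (.thr 50 34 (.thr 14 38 (.dbl 10 6 58)))))))) (.rp 26 (.str 3 (.nv (.thr 2 62 (.thr 1 0 (.dbl 41 60 61))) (.rp 62 (.thr 19 27 (.thr 51 35 (.thr 25 28 (.thr 17 29 (.thr 34 0 (.dbl 38 12 46)))))) (.rp 61 (.thr 19 27 (.thr 51 35 (.thr 25 28 (.thr 17 29 (.thr 34 0 (.dbl 38 12 46)))))) (.rp 60 (.thr 19 27 (.thr 51 35 (.thr 25 28 (.thr 17 29 (.thr 0 34 (.dbl 2 1 62)))))) (.rp 59 (.str 51 (.nv (.thr 2 62 (.thr 1 0 (.dbl 41 60 61))) (.nv (.dbl 19 27 35) .nd))) (.rp 51 (.str 59 (.nv (.thr 2 62 (.thr 1 0 (.dbl 41 60 61))) (.nv (.thr 25 8 (.dbl 19 27 28)) .nd))) (.rp 41 (.thr 19 27 (.thr 51 35 (.thr 2 62 (.thr 0 1 (.thr 17 34 (.dbl 25 28 29)))))) (.rp 40 (.thr 19 27 (.thr 51 35 (.thr 2 62 (.thr 0 1 (.thr 17 34 (.dbl 25 28 29)))))) (.rp 2 (.thr 19 27 (.thr 51 35 (.thr 25 28 (.thr 17 29 (.thr 34 0 (.dbl 38 12 46)))))) (.rp 1 (.thr 19 27 (.thr 51 35 (.thr 25 28 (.thr 17 29 (.thr 34 0 (.dbl 38 12 46)))))) (.rp 0 (.thr 19 27 (.thr 51 35 (.thr 25 28 (.thr 38 12 (.thr 54 6 (.dbl 60 41 57)))))) .nd)))))))))))) (.rp 18 (.thr 19 27 (.thr 62 2 (.thr 26 16 (.thr 58 10 (.thr 50 54 (.thr 14 38 (.thr 30 46 (.dbl 28 25 29)))))))) (.rp 16 (.thr 19 27 (.thr 62 2 (.thr 28 25 (.thr 30 29 (.thr 26 18 (.thr 58 10 (.thr 50 54 (.dbl 14 38 46)))))))) .nd))))))))))) (.rp 54 (.str 19 (.nv (.thr 20 23 (.thr 28 25 (.thr 16 24 (.thr 26 31 (.dbl 18 17 30))))) (.nv (.thr 23 20 (.thr 31 27 (.thr 26 16 (.thr 28 25 (.dbl 30 18 29))))) (.rp 31 (.thr 2 62 (.thr 20 23 (.thr 28 25 (.thr 16 24 (.thr 18 17 (.thr 50 34 (.thr 26 30 (.thr 10 58 (.dbl 14 6 38))))))))) (.rp 30 (.thr 23 20 (.thr 31 27 (.thr 16 26 (.thr 17 18 (.dbl 25 28 29))))) (.rp 28 (.str 3 (.nv (.thr 20 23 (.thr 60 41 (.thr 0 40 (.dbl 2 1 62)))) (.nv (.thr 2 62 (.thr 1 0 (.dbl 41 60 61))) (.rp 62 (.thr 51 35 (.thr 23 20 (.thr 31 27 (.thr 16 26 (.thr 17 18 (.thr 25 29 (.thr 34 0 (.dbl 38 12 46)))))))) (.rp 60 (.thr 51 35 (.thr 23 20 (.thr 31 27 (.thr 16 26 (.thr 17 18 (.thr 0 34 (.dbl 2 1 62))))))) (.rp 41 (.thr 51 35 (.thr 2 62 (.thr 0 1 (.thr 34 17 (.thr 38 46 (.thr 4 55 (.dbl 12 8 25))))))) (.rp 2 (.thr 51 35 (.thr 23 20 (.thr 31 27 (.thr 16 26 (.thr 17 18 (.thr 25 29 (.thr 34 0 (.dbl 38 12 46)))))))) (.rp 1 (.thr 35 51 (.thr 2 62 (.thr 23 20 (.thr 31 27 (.thr 16 26 (.thr 18 17 (.thr 33 48 (.dbl 34 32 50)))))))) (.rp 0 (.thr 51 35 (.thr 2 62 (.thr 23 20 (.thr 31 27 (.thr 16 26 (.thr 18 17 (.thr 50 34 (.dbl 48 33 49)))))))) .nd))))))))) (.rp 26 (.thr 23 20 (.thr 27 31 (.thr 25 28 (.thr 29 17 (.thr 59 8 (.thr 43 11 (.thr 41 40 (.thr 61 1 (.thr 13 45 (.thr 49 37 (.dbl 57 9 53))))))))))) (.rp 25 (.thr 2 62 (.thr 23 20 (.thr 31 27 (.thr 26 16 (.thr 18 30 (.thr 50 34 (.thr 10 58 (.dbl 14 6 38)))))))) (.rp 23 (.thr 62 2 (.thr 25 28 (.thr 17 29 (.thr 18 16 (.thr 30 26 (.thr 46 14 (.thr 38 34 (.thr 51 12 (.thr 3 35 (.thr 33 48 (.thr 1 49 (.dbl 41 60 61)))))))))))) (.rp 20 (.thr 25 28 (.thr 17 29 (.thr 16 18 (.thr 31 26 (.thr 27 23 (.thr 59 8 (.thr 43 11 (.thr 41 40 (.thr 9 57 (.thr 1 61 (.thr 49 33 (.dbl 13 5 37)))))))))))) (.rp 18 (.thr 23 20 (.thr 27 31 (.thr 25 28 (.thr 29 17 (.thr 59 8 (.thr 43 11 (.thr 41 40 (.thr 61 1 (.thr 13 45 (.thr 49 37 (.dbl 57 9 53))))))))))) (.rp 16 (.thr 23 20 (.thr 27 31 (.thr 25 28 (.thr 24 26 (.thr 8 59 (.thr 40 56 (.thr 41 43 (.thr 3 60 (.thr 51 35 (.thr 12 38 (.dbl 9 6 57))))))))))) .nd)))))))))))) (.rp 53 (.str 26 (.nv (.thr 58 10 (.thr 30 18 (.thr 62 2 (.thr 50 54 (.dbl 14 38 46))))) (.nv (.thr 23 20 (.thr 31 16 (.thr 19 27 (.thr 30 18 (.dbl 28 25 29))))) (.rp 58 (.str 48 (.nv (.thr 2 62 (.thr 18 30 (.thr 3 33 (.thr 1 0 (.dbl 41 60 61))))) (.nv (.thr 16 31 (.thr 32 0 (.dbl 37 15 47))) (.rp 0 (.thr 18 30 (.thr 20 23 (.thr 16 31 (.thr 28 24 (.dbl 19 17 25))))) .nd)))) (.rp 30 (.thr 2 62 (.thr 16 31 (.thr 20 23 (.thr 28 24 (.thr 19 25 (.thr 18 17 (.thr 50 34 (.thr 14 38 (.dbl 10 6 58))))))))) (.rp 18 (.thr 58 10 (.thr 62 2 (.thr 50 54 (.thr 14 38 (.thr 30 46 (.thr 31 16 (.thr 23 20 (.thr 19 27 (.dbl 28 25 29))))))))) .nd)))))) (.rp 52 (.str 26 (.nv (.thr 2 62 (.thr 10 58 (.thr 18 30 (.thr 50 34 (.dbl 14 6 38))))) (.nv (.thr 23 20 (.thr 31 16 (.thr 19 27 (.thr 30 18 (.dbl 28 25 29))))) (.rp 30 (.thr 10 58 (.thr 2 62 (.thr 14 6 (.thr 50 38 (.thr 18 34 (.thr 16 31 (.thr 19 17 (.thr 20 23 (.dbl 28 24 25))))))))) (.rp 18 (.thr 58 10 (.thr 62 2 (.thr 50 54 (.thr 14 38 (.thr 30 46 (.thr 31 16 (.thr 23 20 (.thr 19 27 (.dbl 28 25 29))))))))) .nd))))) (.rp 51 .ext (.rp 50 (.str 19 (.nv (.thr 20 23 (.thr 28 25 (.thr 16 24 (.thr 26 31 (.dbl 18 17 30))))) (.nv (.thr 23 20 (.thr 31 27 (.thr 26 16 (.thr 28 25 (.dbl 30 18 29))))) (.rp 31 (.thr 28 25 (.str 3 (.nv (.thr 20 23 (.thr 60 41 (.thr 0 40 (.dbl 2 1 62)))) (.nv (.thr 2 62 (.thr 1 0 (.dbl 41 60 61))) (.rp 62 (.thr 20 23 (.thr 16 24 (.thr 18 17 (.thr 60 41 (.thr 0 40 (.dbl 48 32 33)))))) (.rp 60 (.thr 20 23 (.thr 16 24 (.thr 18 17 (.thr 48 33 (.thr 0 32 (.dbl 2 1 62)))))) (.rp 47 (.str 15 (.nv (.thr 20 23 (.thr 16 24 (.thr 18 17 (.thr 26 30 (.dbl 48 33 37))))) (.nv (.thr 2 62 (.thr 1 0 (.dbl 41 60 61))) .nd))) (.rp 41 (.thr 20 23 (.thr 16 24 (.thr 18 17 (.thr 2 62 (.thr 0 1 (.dbl 48 32 33)))))) (.rp 15 (.str 47 (.nv (.thr 20 23 (.thr 16 24 (.thr 18 17 (.thr 32 37 (.dbl 48 0 33))))) (.nv (.thr 2 62 (.thr 1 0 (.dbl 41 60 61))) (.rp 0 (.thr 35 51 (.thr 41 60 (.dbl 43 39 40))) .nd)))) (.rp 2 (.thr 20 23 (.thr 16 24 (.thr 18 17 (.thr 60 41 (.thr 0 40 (.dbl 48 32 33)))))) (.rp 1 (.thr 20 23 (.thr 16 24 (.thr 18 17 (.thr 60 41 (.thr 0 40 (.dbl 48 32 33)))))) (.rp 0 (.thr 35 51 (.thr 41 60 (.thr 38 44 (.thr 34 46 (.thr 32 33 (.thr 47 37 (.dbl 43 39 40))))))) .nd)))))))))))) (.rp 30 (.thr 23 20 (.thr 31 27 (.thr 16 26 (.thr 17 18 (.dbl 25 28 29))))) (.rp 28 (.str 3 (.nv (.thr 20 23 (.thr 60 41 (.thr 0 40 (.dbl 2 1 62)))) (.nv (.thr 2 62 (.thr 1 0 (.dbl 41 60 61))) (.rp 62 (.thr 51 35 (.thr 20 23 (.thr 60 41 (.thr 54 57 (.thr 38 6 (.thr 34 46 (.dbl 0 17 40))))))) (.rp 60 (.thr 51 35 (.thr 23 20 (.thr 31 27 (.thr 16 26 (.thr 17 18 (.thr 0 34 (.dbl 2 1 62))))))) (.rp 41 (.thr 51 35 (.thr 2 62 (.thr 0 1 (.thr 34 17 (.thr 38 46 (.thr 4 55 (.dbl 12 8 25))))))) (.rp 2 (.thr 35 51 (.thr 41 60 (.thr 43 40 (.thr 47 39 (.thr 37 32 (.thr 45 33 (.dbl 44 38 46))))))) (.rp 1 (.thr 35 51 (.thr 41 60 (.thr 43 40 (.thr 47 39 (.thr 37 32 (.thr 45 33 (.dbl 44 38 46))))))) (.rp 0 (.thr 35 51 (.thr 41 60 (.thr 40 43 (.thr 44 38 (.thr 32 36 (.thr 37 47 (.dbl 33 34 45))))))) .nd))))))))) (.rp 26 (.thr 23 20 (.thr 27 31 (.thr 25 28 (.thr 29 17 (.thr 59 8 (.thr 43 11 (.thr 41 40 (.thr 61 1 (.thr 13 45 (.thr 49 37 (.dbl 57 9 53))))))))))) (.rp 25 (.str 3 (.nv (.thr 20 23 (.thr 60 41 (.thr 0 40 (.dbl 2 1 62)))) (.nv (.thr 2 62 (.thr 1 0 (.dbl 41 60 61))) (.rp 62 (.thr 51 35 (.thr 20 23 (.thr 60 41 (.thr 0 40 (.thr 34 17 (.thr 38 46 (.dbl 54 6 57))))))) (.rp 60 (.thr 23 20 (.thr 31 27 (.thr 26 16 (.thr 10 58 (.thr 18 30 (.thr 48 33 (.thr 15 37 (.thr 0 5 (.dbl 2 1 62))))))))) (.rp 41 (.thr 51 35 (.thr 2 62 (.thr 0 1 (.thr 17 34 (.thr 16 18 (.thr 31 26 (.dbl 23 20 27))))))) (.rp 2 (.thr 35 51 (.thr 41 60 (.thr 43 40 (.thr 47 39 (.thr 37 32 (.thr 45 33 (.dbl 44 38 46))))))) (.rp 1 (.thr 35 51 (.thr 41 60 (.thr 43 40 (.thr 47 39 (.thr 37 32 (.thr 45 33 (.dbl 44 38 46))))))) (.rp 0 (.thr 35 51 (.thr 41 60 (.thr 38 44 (.thr 34 46 (.thr 32 33 (.thr 47 37 (.dbl 43 39 40))))))) .nd))))))))) (.rp 23 (.thr 62 2 (.thr 25 28 (.thr 17 29 (.thr 18 16 (.thr 30 26 (.thr 46 14 (.thr 38 34 (.thr 51 12 (.thr 3 35 (.thr 60 41 (.dbl 54 6 57))))))))))) (.rp 20 (.thr 25 28 (.thr 17 29 (.thr 16 18 (.thr 31 26 (.thr 27 23 (.thr 59 8 (.thr 43 11 (.thr 41 40 (.thr 9 57 (.thr 1 61 (.thr 49 33 (.dbl 13 5 37)))))))))))) (.rp 18 (.thr 23 20 (.thr 27 31 (.thr 25 28 (.thr 29 17 (.thr 59 8 (.thr 43 11 (.thr 41 40 (.thr 61 1 (.thr 13 45 (.thr 49 37 (.dbl 57 9 53))))))))))) (.rp 16 (.thr 23 20 (.thr 27 31 (.thr 25 28 (.thr 24 26 (.thr 29 17 (.thr 59 8 (.thr 43 11 (.thr 41 40 (.thr 61 1 (.thr 13 45 (.thr 49 37 (.dbl 57 9 53)))))))))))) .nd)))))))))))) (.rp 49 (.str 26 (.nv (.thr 2 62 (.thr 10 58 (.thr 14 6 (.thr 18 30 (.dbl 50 34 38))))) (.nv (.thr 23 20 (.thr 31 16 (.thr 19 27 (.thr 30 18 (.dbl 28 25 29))))) (.rp 30 (.thr 10 58 (.thr 2 62 (.thr 14 6 (.thr 50 38 (.thr 18 34 (.thr 16 31 (.thr 19 17 (.thr 20 23 (.dbl 28 24 25))))))))) (.rp 18 (.thr 58 10 (.thr 62 2 (.thr 50 54 (.thr 14 38 (.thr 30 46 (.thr 31 16 (.thr 23 20 (.thr 19 27 (.dbl 28 25 29))))))))) .nd))))) (.rp 48 .ext (.rp 47 (.thr 23 20 (.str 31 (.nv (.thr 2 62 (.thr 26 16 (.thr 10 58 (.thr 14 6 (.thr 18 30 (.dbl 50 34 38)))))) (.nv (.thr 19 27 (.thr 26 16 (.thr 28 25 (.dbl 30 18 29)))) (.rp 30 (.thr 19 27 (.thr 16 26 (.thr 17 18 (.dbl 25 28 29)))) (.rp 28 (.thr 27 19 (.thr 2 62 (.thr 26 16 (.thr 24 25 (.thr 18 30 (.thr 50 34 (.thr 14 38 (.dbl 10 6 58)))))))) (.rp 26 (.str 3 (.nv (.thr 2 62 (.thr 1 0 (.dbl 41 60 61))) (.rp 62 (.thr 19 27 (.thr 51 35 (.thr 25 28 (.thr 17 29 (.thr 34 0 (.dbl 38 12 46)))))) (.rp 61 (.thr 19 27 (.thr 51 35 (.thr 25 28 (.thr 17 29 (.thr 34 0 (.dbl 38 12 46)))))) (.rp 60 (.thr 19 27 (.thr 51 35 (.thr 25 28 (.thr 17 29 (.thr 0 34 (.dbl 2 1 62)))))) (.rp 41 (.thr 19 27 (.thr 51 35 (.thr 2 62 (.thr 0 1 (.thr 17 34 (.dbl 25 28 29)))))) (.rp 40 (.thr 19 27 (.thr 51 35 (.thr 2 62 (.thr 0 1 (.thr 17 34 (.dbl 25 28 29)))))) (.rp 2 (.thr 19 27 (.thr 51 35 (.thr 25 28 (.thr 17 29 (.thr 34 0 (.dbl 38 12 46)))))) (.rp 1 (.thr 19 27 (.thr 51 35 (.thr 25 28 (.thr 17 29 (.thr 34 0 (.dbl 38 12 46)))))) (.rp 0 (.thr 19 27 (.thr 51 35 (.thr 25 28 (.thr 38 12 (.thr 54 6 (.dbl 60 41 57)))))) .nd)))))))))) (.rp 18 (.thr 19 27 (.thr 62 2 (.thr 26 16 (.thr 58 10 (.thr 50 54 (.thr 14 38 (.thr 30 46 (.dbl 28 25 29)))))))) (.rp 16 (.thr 19 27 (.thr 62 2 (.thr 28 25 (.thr 30 29 (.thr 26 18 (.thr 58 10 (.thr 50 54 (.dbl 14 38 46)))))))) .nd))))))))) (.rp 46 (.str 26 (.nv (.thr 2 62 (.thr 10 58 (.thr 14 6 (.thr 18 30 (.dbl 50 34 38))))) (.nv (.thr 23 20 (.thr 31 16 (.thr 19 27 (.thr 30 18 (.dbl 28 25 29))))) (.rp 30 (.thr 10 58 (.thr 2 62 (.thr 14 6 (.thr 50 38 (.thr 18 34 (.thr 16 31 (.thr 19 17 (.thr 20 23 (.dbl 28 24 25))))))))) (.rp 29 (.str 12 (.nv (.thr 20 23 (.thr 16 31 (.thr 28 24 (.thr 60 44 (.thr 40 0 (.dbl 41 3 43)))))) (.nv (.thr 10 58 (.thr 2 62 (.thr 14 6 (.thr 50 38 (.dbl 18 30 34))))) (.rp 60 (.thr 18 30 (.thr 20 23 (.thr 16 31 (.thr 28 24 (.dbl 19 17 25))))) .nd)))) (.rp 18 (.thr 23 20 (.thr 31 16 (.thr 19 27 (.thr 28 25 (.str 60 (.nv (.thr 2 62 (.thr 10 58 (.thr 12 44 (.thr 14 6 (.thr 15 13 (.dbl 30 29 45)))))) (.nv (.thr 2 62 (.thr 3 41 (.thr 0 1 (.thr 12 44 (.thr 4 8 (.thr 38 55 (.dbl 6 9 54))))))) (.nv (.thr 2 62 (.thr 3 41 (.thr 10 58 (.thr 6 14 (.thr 30 29 (.dbl 12 9 44)))))) (.rp 62 (.thr 30 29 (.thr 12 44 (.thr 41 3 (.thr 10 58 (.thr 11 56 (.thr 8 9 (.thr 0 4 (.dbl 15 5 45)))))))) (.rp 54 (.thr 30 29 (.thr 12 44 (.thr 41 3 (.thr 10 58 (.thr 11 56 (.thr 8 9 (.thr 0 4 (.dbl 15 5 45)))))))) (.rp 44 (.thr 2 62 (.thr 3 41 (.thr 0 1 (.thr 10 58 (.thr 15 5 (.dbl 30 29 45)))))) (.rp 30 (.thr 62 2 (.thr 3 41 (.thr 51 35 (.thr 58 10 (.dbl 54 50 57))))) (.rp 29 (.thr 12 44 (.thr 2 62 (.thr 3 41 (.thr 10 58 (.dbl 6 9 14))))) (.rp 14 (.thr 30 29 (.thr 12 44 (.thr 2 62 (.thr 3 41 (.thr 0 1 (.thr 10 58 (.dbl 15 5 45))))))) (.rp 12 (.thr 29 30 (.thr 62 2 (.thr 3 41 (.thr 51 35 (.thr 58 10 (.dbl 54 50 57)))))) (.rp 6 (.thr 30 29 (.thr 12 44 (.thr 2 62 (.thr 3 41 (.thr 0 1 (.thr 10 58 (.dbl 15 5 45))))))) (.rp 2 (.thr 30 29 (.thr 12 44 (.thr 41 3 (.thr 10 58 (.thr 11 56 (.thr 8 9 (.thr 0 4 (.dbl 15 5 45)))))))) .nd))))))))))))))))) (.rp 12 (.str 29 (.nv (.thr 16 31 (.thr 20 23 (.thr 24 28 (.dbl 25 17 27)))) (.nv (.thr 30 18 (.dbl 31 16 28)) (.rp 31 (.thr 18 30 (.thr 10 58 (.thr 2 62 (.thr 14 6 (.dbl 50 34 38))))) (.rp 28 (.thr 18 30 (.thr 17 25 (.dbl 16 19 31))) (.rp 16 (.thr 30 18 (.thr 28 31 (.dbl 25 17 19))) .nd)))))) .nd))))))) (.rp 45 (.str 26 (.nv (.thr 2 62 (.thr 10 58 (.thr 14 6 (.thr 18 30 (.dbl 50 34 38))))) (.nv (.thr 23 20 (.thr 31 16 (.thr 19 27 (.thr 30 18 (.dbl 28 25 29))))) (.rp 30 (.thr 10 58 (.thr 2 62 (.thr 14 6 (.thr 50 38 (.thr 18 34 (.thr 16 31 (.thr 19 17 (.thr 20 23 (.dbl 28 24 25))))))))) (.rp 18 (.thr 58 10 (.thr 62 2 (.thr 50 54 (.thr 14 38 (.thr 30 46 (.thr 31 16 (.thr 23 20 (.thr 19 27 (.dbl 28 25 29))))))))) .nd))))) (.rp 44 (.str 26 (.nv (.thr 2 62 (.thr 10 58 (.thr 14 6 (.thr 18 30 (.dbl 50 34 38))))) (.nv (.thr 30 18 (.thr 23 20 (.thr 31 16 (.thr 19 27 (.dbl 28 25 29))))) (.rp 30 (.thr 20 23 (.thr 16 31 (.thr 28 24 (.thr 19 25 (.thr 18 17 (.thr 2 62 (.thr 10 58 (.thr 14 6 (.dbl 50 34 38))))))))) (.rp 18 (.thr 23 20 (.thr 31 16 (.thr 19 27 (.thr 28 25 (.thr 30 29 (.thr 62 2 (.thr 58 10 (.thr 50 54 (.dbl 14 38 46))))))))) .nd))))) (.rp 43 (.thr 23 20 (.str 31 (.nv (.thr 2 62 (.thr 26 16 (.thr 10 58 (.thr 14 6 (.thr 18 30 (.dbl 50 34 38)))))) (.nv (.thr 19 27 (.thr 26 16 (.thr 28 25 (.dbl 30 18 29)))) (.rp 30 (.thr 19 27 (.thr 16 26 (.thr 17 18 (.dbl 25 28 29)))) (.rp 28 (.thr 27 19 (.thr 2 62 (.thr 26 16 (.thr 24 25 (.thr 18 30 (.thr 50 34 (.thr 14 38 (.dbl 10 6 58)))))))) (.rp 26 (.str 3 (.nv (.thr 2 62 (.thr 1 0 (.dbl 41 60 61))) (.rp 62 (.thr 19 27 (.thr 51 35 (.thr 25 28 (.thr 17 29 (.thr 34 0 (.dbl 38 12 46)))))) (.rp 61 (.thr 19 27 (.thr 51 35 (.thr 25 28 (.thr 17 29 (.thr 34 0 (.dbl 38 12 46)))))) (.rp 60 (.thr 19 27 (.thr 51 35 (.thr 25 28 (.thr 17 29 (.thr 0 34 (.dbl 2 1 62)))))) (.rp 41 (.thr 19 27 (.thr 51 35 (.thr 2 62 (.thr 0 1 (.thr 17 34 (.dbl 25 28 29)))))) (.rp 40 (.thr 19 27 (.thr 51 35 (.thr 2 62 (.thr 0 1 (.thr 17 34 (.dbl 25 28 29)))))) (.rp 2 (.thr 19 27 (.thr 51 35 (.thr 25 28 (.thr 17 29 (.thr 34 0 (.dbl 38 12 46)))))) (.rp 1 (.thr 19 27 (.thr 51 35 (.thr 25 28 (.thr 17 29 (.thr 34 0 (.dbl 38 12 46)))))) (.rp 0 (.thr 19 27 (.thr 51 35 (.thr 25 28 (.thr 38 12 (.thr 54 6 (.dbl 60 41 57)))))) .nd)))))))))) (.rp 18 (.thr 19 27 (.thr 62 2 (.thr 26 16 (.thr 58 10 (.thr 50 54 (.thr 14 38 (.thr 30 46 (.dbl 28 25 29)))))))) (.rp 16 (.thr 19 27 (.thr 62 2 (.thr 28 25 (.thr 30 29 (.thr 26 18 (.thr 58 10 (.thr 50 54 (.dbl 14 38 46)))))))) .nd))))))))) (.rp 41 (.str 26 (.nv (.thr 2 62 (.thr 10 58 (.thr 14 6 (.thr 18 30 (.dbl 50 34 38))))) (.nv (.thr 23 20 (.thr 31 16 (.thr 19 27 (.thr 30 18 (.dbl 28 25 29))))) (.rp 30 (.thr 10 58 (.thr 2 62 (.thr 14 6 (.thr 50 38 (.thr 18 34 (.thr 16 31 (.thr 19 17 (.thr 20 23 (.dbl 28 24 25))))))))) (.rp 18 (.thr 58 10 (.thr 62 2 (.thr 50 54 (.thr 14 38 (.thr 30 46 (.thr 31 16 (.thr 23 20 (.thr 19 27 (.dbl 28 25 29))))))))) .nd))))) (.rp 40 (.str 26 (.nv (.thr 30 18 (.thr 23 20 (.thr 31 16 (.thr 19 27 (.dbl 28 25 29))))) (.nv (.thr 30 18 (.thr 58 10 (.thr 62 2 (.thr 50 54 (.dbl 14 38 46))))) (.rp 30 (.thr 20 23 (.thr 16 31 (.thr 28 24 (.thr 19 25 (.thr 18 17 (.thr 2 62 (.thr 10 58 (.thr 14 6 (.dbl 50 34 38))))))))) (.rp 18 (.thr 23 20 (.thr 31 16 (.thr 19 27 (.thr 28 25 (.thr 30 29 (.thr 62 2 (.thr 58 10 (.thr 50 54 (.dbl 14 38 46))))))))) .nd))))) (.rp 39 (.thr 23 20 (.str 31 (.nv (.thr 2 62 (.thr 26 16 (.thr 10 58 (.thr 14 6 (.thr 18 30 (.dbl 50 34 38)))))) (.nv (.thr 19 27 (.thr 26 16 (.thr 28 25 (.dbl 30 18 29)))) (.rp 30 (.thr 19 27 (.thr 16 26 (.thr 17 18 (.dbl 25 28 29)))) (.rp 28 (.thr 27 19 (.thr 2 62 (.thr 26 16 (.thr 24 25 (.thr 18 30 (.thr 50 34 (.thr 14 38 (.dbl 10 6 58)))))))) (.rp 26 (.str 3 (.nv (.thr 2 62 (.thr 1 0 (.dbl 41 60 61))) (.rp 62 (.thr 19 27 (.thr 51 35 (.thr 25 28 (.thr 17 29 (.thr 34 0 (.dbl 38 12 46)))))) (.rp 61 (.thr 19 27 (.thr 51 35 (.thr 25 28 (.thr 17 29 (.thr 34 0 (.dbl 38 12 46)))))) (.rp 60 (.thr 19 27 (.thr 51 35 (.thr 25 28 (.thr 17 29 (.thr 0 34 (.dbl 2 1 62)))))) (.rp 41 (.thr 19 27 (.thr 51 35 (.thr 2 62 (.thr 0 1 (.thr 17 34 (.dbl 25 28 29)))))) (.rp 40 (.thr 19 27 (.thr 51 35 (.thr 2 62 (.thr 0 1 (.thr 17 34 (.dbl 25 28 29)))))) (.rp 2 (.thr 19 27 (.thr 51 35 (.thr 25 28 (.thr 17 29 (.thr 34 0 (.dbl 38 12 46)))))) (.rp 1 (.thr 19 27 (.thr 51 35 (.thr 25 28 (.thr 17 29 (.thr 34 0 (.dbl 38 12 46)))))) (.rp 0 (.thr 19 27 (.thr 51 35 (.thr 25 28 (.thr 38 12 (.thr 54 6 (.dbl 60 41 57)))))) .nd)))))))))) (.rp 18 (.thr 19 27 (.thr 62 2 (.thr 26 16 (.thr 58 10 (.thr 50 54 (.thr 14 38 (.thr 30 46 (.dbl 28 25 29)))))))) (.rp 16 (.thr 19 27 (.thr 62 2 (.thr 28 25 (.thr 30 29 (.thr 26 18 (.thr 58 10 (.thr 50 54 (.dbl 14 38 46)))))))) .nd))))))))) (.rp 38 (.str 19 (.nv (.thr 23 20 (.thr 31 27 (.thr 16 26 (.thr 25 28 (.dbl 17 18 29))))) (.nv (.thr 20 23 (.thr 28 25 (.thr 16 24 (.thr 26 31 (.dbl 18 17 30))))) (.nv (.thr 23 20 (.thr 31 27 (.thr 26 16 (.thr 30 18 (.dbl 28 25 29))))) (.rp 31 (.str 3 (.nv (.thr 2 62 (.thr 1 0 (.dbl 41 60 61))) (.rp 62 (.thr 51 35 (.thr 20 23 (.thr 28 25 (.thr 16 24 (.thr 17 18 (.thr 0 34 (.dbl 60 40 41))))))) (.rp 61 (.thr 2 62 (.thr 60 41 (.thr 0 1 (.dbl 20 23 40)))) (.rp 60 (.thr 51 35 (.thr 20 23 (.thr 28 25 (.thr 16 24 (.thr 17 18 (.thr 0 34 (.dbl 2 1 62))))))) (.rp 47 (.str 15 (.nv (.thr 25 28 (.thr 60 41 (.thr 30 45 (.thr 18 26 (.dbl 17 16 29))))) (.nv (.thr 2 62 (.thr 1 0 (.dbl 41 60 61))) (.rp 60 (.thr 20 23 (.thr 28 25 (.thr 16 24 (.thr 18 17 (.thr 26 30 (.dbl 48 33 37)))))) (.rp 41 (.thr 2 62 (.thr 0 1 (.thr 10 5 (.thr 26 58 (.thr 18 30 (.dbl 48 33 37)))))) .nd))))) (.rp 41 (.thr 2 62 (.thr 0 1 (.thr 20 23 (.thr 28 25 (.thr 16 24 (.thr 18 17 (.dbl 48 32 33))))))) (.rp 15 (.str 47 (.nv (.thr 35 51 (.thr 41 60 (.dbl 43 39 40))) (.nv (.thr 2 62 (.thr 1 0 (.dbl 41 60 61))) (.rp 62 (.thr 35 51 (.thr 41 60 (.thr 61 1 (.dbl 43 39 40)))) (.rp 61 (.thr 35 51 (.thr 62 2 (.thr 41 60 (.dbl 43 39 40)))) (.rp 60 (.thr 35 51 (.thr 32 37 (.thr 33 34 (.thr 48 18 (.thr 0 16 (.dbl 2 1 62)))))) (.rp 41 (.thr 35 51 (.thr 2 62 (.thr 0 1 (.thr 32 37 (.thr 33 34 (.dbl 48 16 18)))))) .nd))))))) (.rp 2 (.thr 20 23 (.thr 28 25 (.thr 16 24 (.thr 18 17 (.thr 48 33 (.thr 0 32 (.dbl 60 40 41))))))) (.rp 1 (.thr 51 35 (.thr 20 23 (.thr 28 25 (.thr 16 24 (.thr 17 18 (.thr 0 34 (.dbl 60 40 41))))))) (.rp 0 (.thr 25 28 (.thr 29 17 (.thr 41 60 (.thr 57 9 (.thr 61 1 (.thr 49 53 (.dbl 13 37 45))))))) .nd))))))))))) (.rp 28 (.str 3 (.nv (.thr 2 62 (.thr 1 0 (.dbl 41 60 61))) (.rp 62 (.thr 23 20 (.thr 31 27 (.thr 16 26 (.thr 18 17 (.thr 48 33 (.thr 0 32 (.thr 1 2 (.dbl 41 60 61)))))))) (.rp 61 (.thr 2 62 (.thr 60 41 (.thr 0 1 (.dbl 20 23 40)))) (.rp 60 (.thr 51 35 (.thr 23 20 (.thr 31 27 (.thr 16 26 (.thr 17 18 (.thr 0 34 (.dbl 2 1 62))))))) (.rp 41 (.thr 2 62 (.thr 0 1 (.thr 23 20 (.thr 31 27 (.thr 16 26 (.thr 18 17 (.dbl 48 32 33))))))) (.rp 2 (.thr 35 51 (.thr 23 20 (.thr 31 27 (.thr 16 26 (.thr 18 17 (.thr 33 48 (.thr 41 60 (.thr 37 45 (.dbl 32 34 47))))))))) (.rp 1 (.thr 35 51 (.thr 2 62 (.thr 23 20 (.thr 31 27 (.thr 16 26 (.thr 18 17 (.thr 33 48 (.dbl 34 32 50)))))))) (.rp 0 (.thr 51 35 (.thr 2 62 (.thr 23 20 (.thr 31 27 (.thr 16 26 (.thr 18 17 (.thr 50 34 (.dbl 48 33 49)))))))) .nd))))))))) (.rp 26 (.thr 23 20 (.thr 27 31 (.thr 25 28 (.thr 29 17 (.thr 59 8 (.thr 43 11 (.thr 41 40 (.thr 61 1 (.thr 13 45 (.thr 49 37 (.dbl 57 9 53))))))))))) (.rp 25 (.str 51 (.nv (.thr 3 35 (.thr 2 62 (.thr 1 0 (.dbl 41 60 61)))) (.rp 62 (.thr 3 35 (.thr 23 20 (.thr 31 27 (.thr 26 16 (.thr 10 58 (.thr 18 30 (.thr 48 33 (.thr 15 37 (.thr 0 5 (.thr 2 1 (.dbl 34 17 50))))))))))) (.rp 61 (.thr 3 35 (.thr 62 2 (.thr 23 20 (.thr 31 27 (.thr 26 16 (.thr 58 10 (.thr 54 50 (.dbl 60 41 57)))))))) (.rp 60 (.thr 3 35 (.thr 23 20 (.thr 31 27 (.thr 26 16 (.thr 18 30 (.thr 48 33 (.thr 50 49 (.dbl 2 34 62)))))))) (.rp 44 (.thr 2 62 (.thr 23 20 (.thr 31 27 (.thr 26 16 (.thr 18 30 (.thr 34 50 (.thr 0 17 (.dbl 3 1 35)))))))) (.rp 41 (.thr 2 62 (.thr 23 20 (.thr 31 27 (.thr 26 16 (.thr 18 30 (.thr 34 50 (.thr 0 17 (.dbl 3 1 35)))))))) (.rp 35 (.thr 2 62 (.thr 23 20 (.thr 31 27 (.thr 26 16 (.thr 18 30 (.thr 50 34 (.thr 48 49 (.thr 37 15 (.thr 32 47 (.thr 3 33 (.thr 1 0 (.dbl 41 60 61)))))))))))) (.rp 3 (.thr 23 20 (.thr 27 31 (.thr 15 39 (.str 37 (.nv (.thr 2 62 (.thr 26 48 (.thr 18 30 (.thr 17 16 (.dbl 34 0 50))))) (.nv (.thr 5 53 (.thr 48 26 (.thr 0 10 (.dbl 32 16 47)))) (.nv (.thr 5 53 (.thr 10 0 (.dbl 26 48 58))) (.rp 53 (.thr 2 62 (.thr 26 48 (.thr 58 10 (.thr 18 30 (.thr 34 50 (.dbl 17 0 16)))))) (.rp 48 (.str 18 (.nv (.thr 2 62 (.thr 34 50 (.dbl 17 0 16))) (.nv (.thr 17 16 (.thr 0 34 (.dbl 5 10 53))) (.rp 58 (.thr 53 5 (.thr 2 62 (.thr 17 16 (.dbl 34 0 50)))) (.rp 53 (.str 58 (.nv (.thr 2 62 (.thr 17 16 (.dbl 34 0 50))) (.nv (.dbl 26 10 30) .nd))) (.rp 34 (.thr 62 2 (.thr 30 26 (.thr 47 32 (.thr 45 60 (.dbl 46 14 44))))) (.rp 17 (.thr 62 2 (.thr 30 26 (.thr 47 32 (.thr 45 60 (.dbl 46 14 44))))) (.rp 16 (.thr 2 62 (.thr 34 50 (.thr 0 17 (.dbl 5 10 53)))) (.rp 0 (.thr 2 62 (.thr 30 26 (.thr 53 5 (.thr 32 47 (.thr 17 16 (.thr 60 45 (.thr 57 54 (.thr 49 61 (.thr 33 1 (.dbl 34 35 50)))))))))) .nd))))))))) (.rp 26 (.thr 5 53 (.thr 32 47 (.thr 0 10 (.thr 17 34 (.dbl 16 18 48))))) (.rp 0 (.thr 2 62 (.str 60 (.nv (.thr 48 26 (.thr 52 56 (.thr 53 5 (.dbl 54 55 57)))) (.nv (.thr 30 45 (.dbl 26 18 48)) (.rp 48 (.thr 53 5 (.thr 57 54 (.thr 61 49 (.thr 41 1 (.dbl 45 30 33))))) (.rp 26 (.thr 53 5 (.thr 57 54 (.thr 61 49 (.thr 41 1 (.dbl 45 30 33))))) .nd)))))) .nd))))))))))) (.rp 2 (.thr 3 35 (.thr 23 20 (.thr 31 27 (.thr 26 16 (.thr 58 10 (.thr 18 30 (.thr 48 33 (.thr 50 49 (.thr 54 62 (.dbl 60 41 57)))))))))) (.rp 1 (.thr 3 35 (.thr 2 62 (.thr 23 20 (.thr 31 27 (.thr 26 16 (.thr 18 30 (.thr 50 34 (.dbl 48 33 49)))))))) (.rp 0 (.thr 3 35 (.thr 2 62 (.thr 23 20 (.thr 31 27 (.thr 26 16 (.thr 18 30 (.thr 50 34 (.dbl 48 33 49)))))))) .nd)))))))))))) (.rp 23 (.thr 2 62 (.thr 25 28 (.thr 17 29 (.thr 18 16 (.thr 34 50 (.thr 51 0 (.thr 3 35 (.thr 59 8 (.thr 41 60 (.thr 61 1 (.thr 57 9 (.thr 58 56 (.dbl 26 10 30))))))))))))) (.rp 20 (.thr 25 28 (.thr 17 29 (.thr 16 18 (.thr 31 26 (.thr 27 23 (.thr 59 8 (.thr 43 11 (.thr 41 40 (.thr 9 57 (.thr 1 61 (.thr 49 33 (.dbl 13 5 37)))))))))))) (.rp 18 (.thr 23 20 (.thr 27 31 (.thr 25 28 (.thr 29 17 (.thr 59 8 (.thr 43 11 (.thr 41 40 (.thr 61 1 (.thr 13 45 (.thr 49 37 (.dbl 57 9 53))))))))))) (.rp 16 (.thr 23 20 (.thr 27 31 (.thr 25 28 (.thr 24 26 (.thr 29 17 (.thr 59 8 (.thr 43 11 (.thr 41 40 (.thr 61 1 (.thr 13 45 (.thr 49 37 (.dbl 57 9 53)))))))))))) .nd)))))))))))) (.rp 37 (.str 26 (.nv (.thr 2 62 (.thr 10 58 (.thr 14 6 (.thr 18 30 (.dbl 50 34 38))))) (.nv (.thr 23 20 (.thr 31 16 (.thr 19 27 (.thr 30 18 (.dbl 28 25 29))))) (.rp 30 (.thr 10 58 (.thr 2 62 (.thr 14 6 (.thr 50 38 (.thr 18 34 (.thr 16 31 (.thr 19 17 (.thr 20 23 (.dbl 28 24 25))))))))) (.rp 18 (.thr 58 10 (.thr 62 2 (.thr 50 54 (.thr 14 38 (.thr 30 46 (.thr 31 16 (.thr 23 20 (.thr 19 27 (.dbl 28 25 29))))))))) .nd))))) (.rp 36 (.str 26 (.nv (.thr 30 18 (.thr 23 20 (.thr 31 16 (.thr 19 27 (.dbl 28 25 29))))) (.nv (.thr 30 18 (.thr 58 10 (.thr 62 2 (.thr 50 54 (.dbl 14 38 46))))) (.rp 30 (.thr 20 23 (.thr 16 31 (.thr 28 24 (.thr 19 25 (.thr 18 17 (.thr 2 62 (.thr 10 58 (.thr 14 6 (.dbl 50 34 38))))))))) (.rp 18 (.thr 23 20 (.thr 31 16 (.thr 19 27 (.thr 28 25 (.thr 30 29 (.thr 62 2 (.thr 58 10 (.thr 50 54 (.dbl 14 38 46))))))))) .nd))))) (.rp 35 (.str 26 (.nv (.thr 2 62 (.thr 10 58 (.thr 14 6 (.thr 18 30 (.dbl 50 34 38))))) (.nv (.thr 23 20 (.thr 31 16 (.thr 19 27 (.thr 30 18 (.dbl 28 25 29))))) (.rp 30 (.thr 10 58 (.thr 2 62 (.thr 14 6 (.thr 50 38 (.thr 18 34 (.thr 16 31 (.thr 19 17 (.thr 20 23 (.dbl 28 24 25))))))))) (.rp 18 (.thr 58 10 (.thr 62 2 (.thr 50 54 (.thr 14 38 (.thr 30 46 (.thr 31 16 (.thr 23 20 (.thr 19 27 (.dbl 28 25 29))))))))) .nd))))) (.rp 34 (.thr 23 20 (.str 31 (.nv (.thr 19 27 (.thr 26 16 (.thr 28 25 (.dbl 30 18 29)))) (.rp 30 (.thr 19 27 (.thr 16 26 (.thr 17 18 (.dbl 25 28 29)))) (.rp 29 (.thr 62 2 (.thr 26 16 (.thr 58 10 (.thr 30 18 (.thr 50 54 (.dbl 14 38 46)))))) (.rp 28 (.thr 27 19 (.thr 62 2 (.thr 26 16 (.thr 24 25 (.thr 58 10 (.thr 50 54 (.thr 14 38 (.dbl 30 18 46)))))))) (.rp 27 (.thr 62 2 (.thr 26 16 (.thr 58 10 (.thr 30 18 (.thr 50 54 (.dbl 14 38 46)))))) (.rp 26 (.str 3 (.nv (.thr 2 62 (.thr 1 0 (.dbl 41 60 61))) (.rp 62 (.thr 19 27 (.thr 51 35 (.thr 25 28 (.thr 38 12 (.thr 54 6 (.dbl 60 41 57)))))) (.rp 61 (.thr 19 27 (.thr 51 35 (.thr 25 28 (.thr 38 12 (.thr 54 6 (.dbl 60 41 57)))))) (.rp 60 (.thr 19 27 (.thr 51 35 (.thr 25 28 (.thr 8 59 (.thr 12 38 (.thr 0 4 (.dbl 2 1 62))))))) (.rp 51 (.thr 19 27 (.thr 2 62 (.thr 25 28 (.thr 17 29 (.thr 1 0 (.dbl 41 60 61)))))) (.rp 41 (.thr 19 27 (.thr 51 35 (.thr 2 62 (.thr 0 1 (.thr 25 28 (.thr 8 59 (.dbl 12 4 38))))))) (.rp 40 (.thr 19 27 (.thr 51 35 (.thr 25 28 (.thr 38 12 (.thr 54 6 (.dbl 60 41 57)))))) (.rp 17 (.thr 19 27 (.thr 51 35 (.thr 2 62 (.thr 1 0 (.dbl 41 60 61))))) (.rp 2 (.thr 19 27 (.thr 51 35 (.thr 25 28 (.thr 38 12 (.thr 54 6 (.dbl 60 41 57)))))) (.rp 1 (.thr 19 27 (.thr 51 35 (.thr 25 28 (.thr 38 12 (.thr 54 6 (.dbl 60 41 57)))))) (.rp 0 (.thr 19 27 (.thr 51 35 (.thr 25 28 (.thr 38 12 (.thr 54 6 (.dbl 60 41 57)))))) .nd)))))))))))) (.rp 25 (.thr 62 2 (.thr 26 16 (.thr 58 10 (.thr 30 18 (.thr 50 54 (.dbl 14 38 46)))))) (.rp 19 (.thr 62 2 (.thr 26 16 (.thr 58 10 (.thr 50 54 (.thr 14 38 (.dbl 30 18 46)))))) (.rp 18 (.thr 19 27 (.thr 26 16 (.thr 58 10 (.thr 62 2 (.thr 50 54 (.thr 14 38 (.thr 30 46 (.dbl 28 25 29)))))))) (.rp 16 (.thr 19 27 (.thr 28 25 (.thr 30 29 (.thr 26 18 (.thr 58 10 (.thr 62 2 (.thr 50 54 (.dbl 14 38 46)))))))) .nd)))))))))))) (.rp 33 (.str 26 (.nv (.thr 2 62 (.thr 10 58 (.thr 14 6 (.thr 18 30 (.dbl 50 34 38))))) (.nv (.thr 23 20 (.thr 31 16 (.thr 19 27 (.thr 28 25 (.dbl 30 18 29))))) (.rp 30 (.thr 10 58 (.thr 2 62 (.thr 14 6 (.thr 50 38 (.thr 18 34 (.thr 16 31 (.thr 19 17 (.thr 20 23 (.dbl 28 24 25))))))))) (.rp 18 (.thr 58 10 (.thr 62 2 (.thr 50 54 (.thr 14 38 (.thr 30 46 (.thr 31 16 (.thr 23 20 (.thr 19 27 (.dbl 28 25 29))))))))) .nd))))) (.rp 32 (.str 26 (.nv (.thr 30 18 (.thr 23 20 (.thr 31 16 (.thr 19 27 (.dbl 28 25 29))))) (.nv (.thr 30 18 (.thr 58 10 (.thr 62 2 (.thr 50 54 (.dbl 14 38 46))))) (.rp 30 (.thr 20 23 (.thr 16 31 (.thr 28 24 (.thr 19 25 (.thr 18 17 (.thr 2 62 (.thr 10 58 (.thr 14 6 (.dbl 50 34 38))))))))) (.rp 18 (.thr 23 20 (.thr 31 16 (.thr 19 27 (.thr 28 25 (.thr 30 29 (.thr 62 2 (.thr 58 10 (.thr 50 54 (.dbl 14 38 46))))))))) .nd))))) (.rp 31 (.str 3 (.nv (.thr 2 62 (.thr 1 0 (.dbl 41 60 61))) (.rp 62 (.thr 41 60 (.thr 61 1 (.str 47 (.nv (.thr 37 32 (.thr 53 5 (.thr 49 57 (.thr 13 25 (.dbl 45 29 33))))) (.nv (.thr 40 43 (.thr 32 37 (.thr 44 36 (.thr 38 35 (.dbl 46 34 45))))) (.rp 45 (.thr 43 40 (.thr 35 39 (.thr 38 44 (.thr 34 46 (.dbl 32 33 37))))) (.rp 37 (.thr 43 40 (.thr 35 39 (.thr 51 19 (.thr 38 44 (.thr 6 54 (.dbl 12 9 25)))))) (.rp 32 (.thr 43 40 (.thr 35 39 (.thr 19 51 (.thr 44 38 (.thr 45 46 (.thr 29 13 (.dbl 25 17 28))))))) .nd)))))))) (.rp 61 (.thr 2 62 (.thr 60 41 (.thr 0 1 (.dbl 20 23 40)))) (.rp 60 (.thr 62 2 (.str 38 (.nv (.thr 4 55 (.thr 6 54 (.thr 12 9 (.thr 8 0 (.dbl 25 51 59))))) (.nv (.thr 46 34 (.thr 14 30 (.thr 50 26 (.dbl 54 6 58)))) (.rp 54 (.str 51 (.nv (.thr 34 46 (.thr 17 0 (.dbl 25 12 29))) (.nv (.thr 19 35 (.dbl 25 12 28)) (.rp 47 (.str 15 (.nv (.thr 12 25 (.thr 14 13 (.dbl 46 30 34))) (.nv (.thr 4 55 (.thr 39 27 (.thr 36 37 (.dbl 20 23 52)))) (.nv (.thr 19 35 (.dbl 25 12 28)) .nd)))) (.rp 25 (.thr 35 19 (.thr 34 46 (.thr 17 0 (.thr 33 32 (.thr 1 49 (.dbl 41 44 61)))))) (.rp 15 (.str 47 (.nv (.thr 34 46 (.thr 17 0 (.dbl 25 12 29))) (.nv (.thr 32 37 (.thr 35 19 (.dbl 34 33 46))) (.nv (.thr 19 35 (.dbl 25 12 28)) (.rp 45 (.str 30 (.nv (.thr 19 35 (.dbl 25 12 28)) (.nv (.dbl 46 14 34) .nd))) (.rp 30 (.str 45 (.nv (.thr 19 35 (.dbl 25 12 28)) (.nv (.dbl 46 34 44) (.rp 29 (.str 28 (.nv (.dbl 19 25 35) (.nv (.dbl 46 34 44) (.rp 46 (.thr 12 25 (.thr 35 19 (.thr 37 32 (.dbl 39 36 43)))) .nd)))) (.rp 28 (.str 29 (.nv (.dbl 25 12 17) (.nv (.dbl 46 34 44) (.rp 44 (.thr 12 25 (.thr 35 19 (.thr 39 43 (.dbl 37 32 36)))) (.rp 12 (.thr 44 46 (.dbl 35 19 41)) .nd))))) .nd))))) .nd)))))) (.rp 12 (.thr 19 35 (.thr 46 34 (.thr 30 14 (.thr 18 26 (.thr 17 16 (.dbl 25 28 29)))))) .nd))))))) (.rp 47 (.str 15 (.nv (.thr 4 55 (.thr 46 34 (.thr 14 30 (.thr 12 13 (.thr 8 0 (.dbl 25 51 59)))))) (.nv (.thr 4 55 (.thr 6 54 (.thr 12 9 (.thr 8 0 (.dbl 25 51 59))))) (.nv (.thr 46 34 (.thr 14 30 (.thr 50 26 (.dbl 54 6 58)))) .nd)))) (.rp 15 (.str 47 (.nv (.thr 54 6 (.thr 46 34 (.thr 50 58 (.dbl 14 26 30)))) (.nv (.thr 4 55 (.thr 6 54 (.thr 12 9 (.thr 8 0 (.dbl 25 51 59))))) (.nv (.thr 37 32 (.thr 39 36 (.thr 35 43 (.thr 44 41 (.dbl 46 34 45))))) (.rp 45 (.str 30 (.nv (.thr 26 18 (.thr 50 14 (.dbl 54 6 58))) (.nv (.dbl 46 14 34) (.rp 14 (.thr 34 46 (.thr 32 37 (.thr 33 35 (.dbl 18 26 48)))) .nd)))) (.rp 30 (.str 45 (.nv (.dbl 46 34 44) (.rp 46 (.thr 37 32 (.thr 41 33 (.thr 35 44 (.dbl 43 39 40)))) (.rp 44 (.thr 6 54 (.thr 12 9 (.thr 4 55 (.thr 8 0 (.dbl 25 51 59))))) (.rp 34 (.thr 44 46 (.thr 41 35 (.dbl 37 32 33))) (.rp 29 (.str 28 (.nv (.thr 6 54 (.thr 12 9 (.dbl 25 19 51))) (.nv (.dbl 46 34 44) (.rp 46 (.str 12 (.nv (.dbl 25 19 51) (.nv (.dbl 6 9 54) .nd))) .nd)))) (.rp 28 (.str 29 (.nv (.thr 6 54 (.thr 12 9 (.dbl 25 17 51))) (.nv (.dbl 46 34 44) (.rp 44 (.str 12 (.nv (.dbl 25 17 51) (.nv (.dbl 6 9 54) .nd))) (.rp 12 (.thr 44 46 (.thr 41 35 (.dbl 37 32 33))) .nd))))) .nd))))))) .nd)))))) (.rp 6 (.str 47 (.nv (.thr 4 55 (.thr 32 37 (.thr 34 46 (.thr 35 33 (.thr 51 19 (.thr 0 17 (.dbl 12 8 25))))))) (.nv (.thr 37 32 (.thr 39 36 (.thr 35 43 (.thr 44 41 (.dbl 46 34 45))))) (.rp 46 (.thr 37 32 (.thr 5 53 (.thr 4 55 (.thr 39 36 (.thr 35 43 (.thr 51 19 (.thr 12 25 (.thr 0 8 (.dbl 15 10 27))))))))) (.rp 45 (.thr 34 46 (.thr 32 37 (.thr 35 33 (.thr 41 44 (.dbl 43 39 40))))) (.rp 41 (.thr 34 46 (.thr 37 32 (.thr 39 36 (.thr 35 43 (.thr 51 19 (.thr 17 0 (.dbl 25 12 29))))))) (.rp 39 (.thr 46 34 (.thr 32 37 (.thr 44 45 (.thr 41 35 (.dbl 40 36 43))))) (.rp 37 (.str 19 (.nv (.thr 4 55 (.thr 46 34 (.thr 44 45 (.dbl 35 41 51)))) (.nv (.thr 51 35 (.dbl 25 12 28)) (.rp 51 (.thr 34 46 (.thr 20 23 (.thr 28 25 (.thr 16 24 (.thr 18 17 (.thr 33 48 (.thr 35 32 (.thr 41 44 (.dbl 43 39 40))))))))) (.rp 35 (.thr 46 34 (.thr 20 23 (.thr 28 25 (.thr 16 24 (.thr 18 17 (.dbl 30 14 26)))))) (.rp 14 (.str 10 (.nv (.thr 26 58 (.thr 18 30 (.thr 17 16 (.dbl 25 28 29)))) (.nv (.thr 4 55 (.thr 46 34 (.thr 44 45 (.dbl 35 41 51)))) (.nv (.thr 51 35 (.dbl 25 12 28)) (.rp 4 (.str 5 (.nv (.thr 0 15 (.thr 34 46 (.dbl 51 17 35))) (.nv (.thr 26 58 (.thr 18 30 (.thr 17 16 (.dbl 25 28 29)))) (.nv (.thr 51 35 (.dbl 25 12 28)) .nd)))) .nd))))) (.rp 10 (.str 14 (.nv (.thr 4 55 (.thr 51 35 (.dbl 25 12 28))) (.nv (.dbl 46 30 34) (.rp 4 (.str 5 (.nv (.thr 51 35 (.dbl 25 12 28)) (.nv (.dbl 46 30 34) .nd))) .nd)))) (.rp 4 (.str 5 (.nv (.thr 35 51 (.thr 43 39 (.dbl 41 40 44))) (.nv (.thr 51 35 (.dbl 25 12 28)) (.rp 51 (.thr 46 34 (.thr 25 28 (.thr 44 45 (.thr 41 35 (.thr 1 61 (.dbl 9 13 57)))))) (.rp 35 (.thr 46 34 (.thr 20 23 (.thr 28 25 (.thr 16 24 (.thr 18 17 (.dbl 30 14 26)))))) (.rp 14 (.str 10 (.nv (.thr 0 15 (.thr 34 46 (.dbl 51 17 35))) (.nv (.thr 26 58 (.thr 18 30 (.thr 17 16 (.dbl 25 28 29)))) (.nv (.thr 51 35 (.dbl 25 12 28)) .nd)))) (.rp 10 (.str 14 (.nv (.thr 51 35 (.dbl 25 12 28)) (.nv (.dbl 46 30 34) .nd))) .nd))))))) .nd)))))))) (.rp 35 (.thr 46 34 (.thr 32 37 (.thr 4 55 (.thr 44 45 (.thr 36 40 (.dbl 20 23 52)))))) (.rp 34 (.thr 37 32 (.thr 5 53 (.thr 4 55 (.thr 39 36 (.thr 35 43 (.thr 51 19 (.thr 12 25 (.thr 0 8 (.dbl 15 10 27))))))))) (.rp 32 (.thr 46 34 (.thr 4 55 (.thr 44 45 (.thr 35 41 (.thr 39 43 (.thr 20 23 (.dbl 36 37 52))))))) (.rp 14 (.str 10 (.nv (.thr 4 55 (.thr 32 37 (.thr 34 46 (.thr 35 33 (.thr 41 44 (.dbl 43 39 40)))))) (.nv (.thr 37 32 (.thr 5 53 (.thr 15 0 (.dbl 26 48 58)))) (.rp 40 (.thr 26 58 (.thr 18 30 (.thr 37 32 (.dbl 48 15 33)))) (.rp 37 (.thr 26 58 (.thr 46 34 (.thr 44 45 (.thr 41 35 (.thr 43 40 (.thr 11 56 (.thr 59 27 (.dbl 8 9 25)))))))) (.rp 32 (.thr 46 34 (.thr 4 55 (.thr 44 45 (.thr 35 41 (.thr 39 43 (.thr 20 23 (.dbl 36 37 52))))))) (.rp 4 (.str 5 (.nv (.dbl 37 32 53) (.rp 53 (.thr 15 0 (.thr 37 32 (.dbl 26 48 58))) (.rp 37 (.thr 34 46 (.thr 0 15 (.thr 51 17 (.thr 19 35 (.dbl 25 12 28))))) (.rp 32 (.thr 26 58 (.thr 15 0 (.dbl 37 48 53))) .nd))))) .nd))))))) (.rp 10 (.str 14 (.nv (.thr 4 55 (.thr 30 46 (.dbl 26 18 50))) (.nv (.dbl 46 30 34) (.rp 46 (.thr 26 50 (.thr 18 30 (.thr 37 32 (.dbl 48 15 33)))) (.rp 30 (.thr 34 46 (.thr 32 37 (.thr 35 33 (.thr 43 39 (.dbl 41 40 44))))) (.rp 4 (.str 5 (.nv (.dbl 37 32 53) (.nv (.dbl 46 30 34) .nd))) .nd)))))) (.rp 4 (.str 5 (.nv (.dbl 37 32 53) (.rp 53 (.thr 34 46 (.thr 32 37 (.thr 35 33 (.thr 43 39 (.dbl 41 40 44))))) (.rp 37 (.thr 46 34 (.thr 44 45 (.thr 41 35 (.thr 1 61 (.thr 13 9 (.thr 14 30 (.thr 15 12 (.thr 50 26 (.thr 0 10 (.thr 40 43 (.thr 32 36 (.thr 48 16 (.thr 33 18 (.dbl 49 17 51)))))))))))))) (.rp 32 (.thr 46 34 (.thr 37 53 (.thr 39 36 (.thr 35 43 (.dbl 44 41 45))))) (.rp 14 (.str 10 (.nv (.dbl 37 32 53) (.rp 53 (.thr 15 0 (.thr 37 32 (.dbl 26 48 58))) (.rp 37 (.thr 34 46 (.thr 0 15 (.thr 51 17 (.thr 19 35 (.dbl 25 12 28))))) (.rp 32 (.thr 26 58 (.thr 15 0 (.dbl 37 48 53))) .nd))))) (.rp 10 (.str 14 (.nv (.dbl 37 32 53) (.nv (.dbl 46 30 34) .nd))) .nd))))))) .nd)))))))))))))) .nd)))))))) (.rp 47 (.str 15 (.nv (.thr 2 62 (.thr 1 0 (.dbl 41 60 61))) (.rp 62 (.thr 20 23 (.thr 60 41 (.thr 30 45 (.thr 26 18 (.thr 10 58 (.dbl 0 5 40)))))) (.rp 61 (.thr 2 62 (.thr 60 41 (.thr 0 1 (.dbl 20 23 40)))) (.rp 60 (.thr 23 20 (.str 0 (.nv (.dbl 2 1 62) (.rp 62 (.str 61 (.nv (.dbl 1 2 41) (.rp 41 (.thr 10 5 (.thr 26 58 (.thr 48 37 (.dbl 18 30 33)))) (.rp 2 (.thr 10 5 (.thr 26 58 (.thr 48 37 (.dbl 18 30 33)))) (.rp 1 (.thr 10 5 (.thr 26 58 (.thr 48 37 (.dbl 18 30 33)))) .nd))))) (.rp 61 (.thr 62 2 (.thr 10 5 (.thr 26 58 (.thr 18 30 (.dbl 48 33 37))))) (.rp 2 (.thr 10 5 (.thr 26 58 (.thr 18 30 (.dbl 48 33 37)))) (.rp 1 (.thr 10 5 (.thr 26 58 (.thr 18 30 (.dbl 48 33 37)))) .nd))))))) (.rp 41 (.thr 2 62 (.thr 0 1 (.thr 10 5 (.thr 26 58 (.thr 18 30 (.dbl 48 33 37)))))) (.rp 2 (.thr 20 23 (.thr 60 41 (.thr 30 45 (.thr 26 18 (.thr 10 58 (.dbl 0 5 40)))))) (.rp 1 (.thr 20 23 (.thr 60 41 (.thr 30 45 (.thr 26 18 (.thr 10 58 (.dbl 0 5 40)))))) (.rp 0 (.thr 62 2 (.thr 60 41 (.thr 30 45 (.thr 26 18 (.thr 58 10 (.thr 50 54 (.dbl 14 38 46))))))) .nd))))))))) (.rp 41 (.str 19 (.nv (.thr 2 62 (.thr 0 1 (.thr 20 23 (.thr 28 25 (.thr 16 24 (.thr 18 17 (.dbl 48 32 33))))))) (.nv (.thr 51 35 (.thr 2 62 (.thr 25 28 (.thr 0 1 (.dbl 17 29 34))))) (.rp 62 (.thr 51 35 (.thr 20 23 (.thr 25 28 (.thr 38 12 (.thr 54 6 (.thr 60 57 (.thr 0 40 (.dbl 34 17 46)))))))) (.rp 61 (.thr 51 35 (.thr 20 23 (.thr 28 25 (.thr 16 24 (.thr 17 18 (.thr 0 34 (.dbl 2 1 62))))))) (.rp 60 (.thr 51 35 (.thr 20 23 (.thr 28 25 (.thr 16 24 (.thr 17 18 (.thr 0 34 (.dbl 2 1 62))))))) (.rp 47 (.str 15 (.nv (.thr 2 62 (.thr 0 1 (.thr 10 5 (.thr 26 58 (.thr 48 37 (.dbl 18 30 33)))))) (.nv (.thr 20 23 (.thr 28 25 (.thr 16 24 (.thr 18 17 (.thr 26 30 (.dbl 48 33 37)))))) (.nv (.thr 51 35 (.thr 2 62 (.thr 25 28 (.thr 0 1 (.dbl 17 29 34))))) (.rp 30 (.thr 51 35 (.thr 2 62 (.thr 0 1 (.thr 17 34 (.dbl 25 28 29))))) .nd))))) (.rp 28 (.thr 51 35 (.thr 2 62 (.thr 0 1 (.thr 34 17 (.thr 38 46 (.thr 6 54 (.dbl 12 9 25))))))) (.rp 25 (.thr 51 35 (.thr 2 62 (.thr 0 1 (.thr 34 17 (.thr 50 18 (.thr 38 46 (.thr 6 54 (.dbl 14 10 26)))))))) (.rp 17 (.thr 51 35 (.thr 2 62 (.thr 0 1 (.thr 25 28 (.thr 8 59 (.dbl 12 4 38)))))) (.rp 15 (.str 47 (.nv (.thr 2 62 (.thr 0 1 (.thr 32 37 (.thr 35 51 (.thr 33 34 (.dbl 48 16 18)))))) (.nv (.thr 20 23 (.thr 28 25 (.thr 16 24 (.thr 18 17 (.thr 32 37 (.dbl 48 0 33)))))) (.nv (.thr 51 35 (.thr 2 62 (.thr 25 28 (.thr 0 1 (.dbl 17 29 34))))) (.rp 0 (.thr 51 35 (.thr 25 28 (.thr 37 32 (.thr 13 49 (.thr 5 53 (.thr 9 1 (.dbl 12 6 38))))))) .nd))))) (.rp 2 (.thr 51 35 (.thr 20 23 (.thr 25 28 (.thr 38 12 (.thr 54 6 (.thr 60 57 (.thr 0 40 (.dbl 34 17 46)))))))) (.rp 1 (.thr 35 51 (.thr 2 62 (.thr 20 23 (.thr 28 25 (.thr 16 24 (.thr 18 17 (.thr 34 50 (.dbl 33 32 48)))))))) (.rp 0 (.thr 35 51 (.thr 2 62 (.thr 20 23 (.thr 28 25 (.thr 16 24 (.thr 18 17 (.thr 34 50 (.dbl 33 32 48)))))))) .nd)))))))))))))) (.rp 15 (.str 47 (.nv (.thr 2 62 (.thr 60 41 (.thr 0 1 (.dbl 20 23 40)))) (.nv (.thr 2 62 (.thr 1 0 (.dbl 41 60 61))) (.rp 62 (.thr 37 32 (.thr 53 5 (.thr 41 60 (.thr 61 1 (.thr 45 33 (.thr 13 29 (.dbl 49 25 57))))))) (.rp 60 (.str 30 (.nv (.thr 18 26 (.thr 32 37 (.thr 48 33 (.thr 0 16 (.dbl 2 1 62))))) (.nv (.thr 62 2 (.thr 14 46 (.thr 26 18 (.thr 50 38 (.dbl 58 10 54))))) (.rp 62 (.str 61 (.nv (.thr 1 41 (.thr 37 32 (.thr 53 5 (.thr 49 57 (.thr 17 33 (.dbl 25 13 29)))))) (.nv (.thr 18 26 (.thr 41 1 (.thr 37 32 (.dbl 33 45 48)))) (.rp 41 (.thr 18 26 (.thr 37 32 (.thr 53 5 (.thr 49 57 (.thr 25 13 (.thr 17 29 (.dbl 33 1 48))))))) (.rp 37 (.thr 26 18 (.thr 10 58 (.thr 41 1 (.thr 43 40 (.thr 11 56 (.thr 59 27 (.dbl 8 9 25))))))) (.rp 33 (.thr 41 1 (.thr 40 43 (.thr 32 37 (.thr 44 36 (.thr 46 45 (.dbl 38 34 35)))))) (.rp 32 (.thr 26 18 (.thr 10 58 (.thr 41 1 (.thr 43 40 (.thr 11 56 (.thr 59 27 (.dbl 8 9 25))))))) (.rp 1 (.thr 18 26 (.thr 20 23 (.thr 32 37 (.thr 48 33 (.thr 16 0 (.thr 28 24 (.dbl 19 17 25))))))) .nd)))))))) (.rp 26 (.thr 62 2 (.thr 46 14 (.thr 38 34 (.thr 37 32 (.thr 39 36 (.thr 35 43 (.dbl 44 41 45))))))) (.rp 18 (.thr 62 2 (.thr 46 14 (.thr 32 37 (.thr 44 45 (.thr 40 36 (.thr 41 43 (.dbl 38 34 35))))))) (.rp 2 (.thr 18 26 (.thr 20 23 (.thr 32 37 (.thr 48 33 (.thr 16 0 (.thr 19 17 (.dbl 28 24 25))))))) .nd))))))) (.rp 41 (.thr 2 62 (.thr 1 0 (.thr 37 32 (.thr 5 53 (.thr 9 13 (.thr 6 12 (.thr 14 10 (.thr 38 54 (.thr 50 26 (.dbl 34 18 46)))))))))) (.rp 2 (.thr 37 32 (.thr 41 60 (.thr 45 33 (.thr 43 40 (.thr 35 39 (.dbl 44 38 46)))))) (.rp 1 (.thr 37 32 (.thr 41 60 (.thr 45 33 (.thr 43 40 (.thr 35 39 (.dbl 44 38 46)))))) (.rp 0 (.thr 37 32 (.thr 41 60 (.thr 45 33 (.thr 44 46 (.thr 35 38 (.dbl 43 39 40)))))) .nd))))))))) (.rp 2 (.str 19 (.nv (.thr 25 28 (.thr 8 59 (.thr 51 35 (.thr 12 38 (.thr 0 4 (.dbl 17 29 34)))))) (.nv (.thr 20 23 (.thr 28 25 (.thr 16 24 (.thr 18 17 (.thr 48 33 (.thr 60 41 (.dbl 0 32 40))))))) (.nv (.thr 25 28 (.thr 29 17 (.thr 51 35 (.thr 38 12 (.thr 60 41 (.dbl 54 6 57)))))) (.rp 47 (.str 15 (.nv (.thr 20 23 (.thr 28 25 (.thr 16 24 (.thr 18 17 (.thr 26 30 (.dbl 48 33 37)))))) (.nv (.thr 20 23 (.thr 60 41 (.thr 0 40 (.thr 30 45 (.thr 26 18 (.dbl 10 5 58)))))) (.nv (.thr 25 28 (.thr 29 17 (.thr 51 35 (.thr 38 12 (.thr 60 41 (.dbl 54 6 57)))))) (.rp 39 (.thr 25 28 (.thr 41 60 (.thr 9 57 (.thr 12 6 (.dbl 51 35 38))))) .nd))))) (.rp 41 (.thr 51 35 (.thr 20 23 (.thr 25 28 (.thr 38 12 (.thr 54 6 (.thr 60 57 (.thr 0 40 (.dbl 34 17 46)))))))) (.rp 28 (.thr 35 51 (.thr 41 60 (.thr 43 40 (.thr 47 39 (.thr 37 32 (.thr 45 33 (.dbl 44 38 46))))))) (.rp 25 (.thr 35 51 (.thr 41 60 (.thr 43 40 (.thr 47 39 (.thr 37 32 (.thr 45 33 (.dbl 44 38 46))))))) (.rp 17 (.thr 51 35 (.thr 25 28 (.thr 38 12 (.thr 54 6 (.dbl 60 41 57))))) (.rp 15 (.str 47 (.nv (.thr 25 28 (.thr 51 35 (.thr 12 38 (.thr 9 6 (.dbl 41 57 60))))) (.nv (.thr 41 60 (.thr 43 40 (.dbl 35 39 51))) (.rp 60 (.thr 35 51 (.thr 39 43 (.thr 37 32 (.thr 38 36 (.thr 46 34 (.dbl 44 41 45)))))) (.rp 51 (.thr 20 23 (.thr 28 25 (.thr 16 24 (.thr 18 17 (.thr 32 37 (.dbl 48 0 33)))))) (.rp 41 (.thr 20 23 (.thr 28 25 (.thr 16 24 (.thr 18 17 (.thr 32 37 (.dbl 48 0 33)))))) (.rp 35 (.thr 20 23 (.thr 28 25 (.thr 16 24 (.thr 18 17 (.thr 32 37 (.dbl 48 0 33)))))) (.rp 30 (.thr 35 51 (.thr 39 43 (.thr 37 32 (.thr 38 36 (.dbl 41 44 60))))) .nd)))))))) .nd)))))))))) (.rp 1 (.thr 2 62 (.thr 60 41 (.str 15 (.nv (.thr 20 23 (.thr 0 40 (.thr 10 5 (.thr 30 45 (.dbl 26 18 58))))) (.nv (.thr 20 23 (.thr 0 40 (.thr 5 10 (.thr 37 53 (.thr 48 26 (.dbl 32 16 47)))))) (.nv (.thr 30 45 (.thr 26 18 (.thr 10 58 (.thr 5 0 (.dbl 37 48 53))))) (.rp 37 (.thr 20 23 (.thr 0 40 (.thr 10 5 (.thr 26 58 (.dbl 30 18 45))))) (.rp 26 (.thr 20 23 (.thr 0 40 (.thr 10 5 (.thr 6 14 (.thr 30 45 (.thr 38 54 (.thr 34 46 (.thr 51 17 (.dbl 12 9 25))))))))) (.rp 10 (.thr 20 23 (.thr 0 40 (.thr 30 45 (.thr 18 26 (.thr 34 50 (.thr 17 51 (.thr 19 16 (.dbl 25 28 29)))))))) (.rp 5 (.thr 20 23 (.thr 0 40 (.thr 30 45 (.thr 18 26 (.thr 34 50 (.thr 17 51 (.thr 19 16 (.dbl 25 28 29)))))))) (.rp 0 (.thr 30 45 (.thr 26 18 (.thr 10 58 (.thr 14 6 (.thr 12 13 (.thr 28 44 (.thr 25 19 (.dbl 38 50 51)))))))) .nd))))))))))) (.rp 0 (.thr 62 2 (.thr 41 60 (.thr 61 1 (.str 37 (.nv (.thr 20 23 (.thr 53 5 (.thr 45 33 (.thr 49 57 (.dbl 13 25 29))))) (.nv (.thr 47 32 (.thr 45 33 (.thr 44 46 (.thr 35 38 (.dbl 43 39 40))))) (.nv (.thr 45 33 (.thr 13 29 (.thr 49 25 (.dbl 53 5 57)))) (.rp 49 (.thr 33 45 (.thr 40 43 (.thr 48 18 (.thr 32 47 (.thr 15 26 (.thr 44 36 (.dbl 35 34 38))))))) (.rp 47 (.str 15 (.nv (.thr 45 33 (.thr 13 29 (.thr 49 25 (.dbl 53 5 57)))) (.nv (.thr 48 26 (.dbl 33 18 45)) (.rp 45 (.thr 53 5 (.thr 57 49 (.thr 26 48 (.thr 58 10 (.dbl 56 11 59))))) (.rp 40 (.thr 20 23 (.thr 33 45 (.dbl 48 18 26))) (.rp 33 (.thr 53 5 (.thr 26 48 (.thr 58 10 (.thr 56 11 (.dbl 57 49 59))))) (.rp 20 (.thr 40 43 (.thr 33 45 (.dbl 48 18 26))) .nd))))))) (.rp 45 (.thr 53 5 (.thr 57 49 (.thr 9 25 (.thr 6 12 (.thr 38 54 (.thr 44 35 (.thr 36 39 (.dbl 40 32 43)))))))) (.rp 33 (.thr 53 5 (.thr 49 57 (.thr 13 25 (.thr 45 29 (.thr 47 32 (.thr 46 44 (.thr 30 14 (.thr 34 38 (.thr 26 18 (.thr 10 58 (.thr 48 15 (.thr 51 50 (.thr 35 19 (.dbl 43 39 40)))))))))))))) (.rp 29 (.thr 33 45 (.thr 40 43 (.thr 48 18 (.thr 32 47 (.thr 15 26 (.thr 44 36 (.dbl 35 34 38))))))) (.rp 20 (.thr 40 43 (.thr 53 5 (.thr 45 33 (.thr 13 29 (.dbl 49 25 57))))) .nd))))))))))))) .nd))))))))))) (.rp 30 (.str 3 (.nv (.thr 20 23 (.thr 60 41 (.thr 0 40 (.dbl 2 1 62)))) (.nv (.thr 2 62 (.thr 1 0 (.dbl 41 60 61))) (.rp 62 (.thr 60 41 (.thr 23 20 (.str 19 (.nv (.thr 51 35 (.thr 54 57 (.thr 38 6 (.dbl 25 12 28)))) (.nv (.thr 25 28 (.thr 31 27 (.thr 17 29 (.dbl 16 18 26)))) (.rp 46 (.str 14 (.nv (.thr 51 35 (.thr 54 57 (.thr 38 6 (.dbl 25 12 28)))) (.nv (.thr 31 27 (.thr 25 28 (.thr 16 26 (.dbl 17 18 29)))) (.rp 29 (.str 12 (.nv (.dbl 28 25 44) (.rp 44 (.thr 25 28 (.thr 31 27 (.dbl 51 35 38))) (.rp 28 (.thr 31 27 (.thr 6 9 (.thr 10 2 (.dbl 26 16 58)))) (.rp 25 (.thr 15 13 (.thr 51 35 (.dbl 27 31 39))) .nd))))) (.rp 28 (.thr 31 27 (.thr 51 35 (.thr 54 57 (.thr 38 6 (.dbl 26 16 50))))) (.rp 25 (.thr 31 27 (.thr 26 16 (.thr 10 58 (.thr 6 2 (.dbl 38 50 54))))) (.rp 12 (.str 29 (.nv (.dbl 25 17 28) (.rp 28 (.thr 31 27 (.thr 16 26 (.dbl 17 18 25))) (.rp 25 (.thr 31 27 (.thr 26 16 (.thr 10 58 (.thr 6 2 (.dbl 38 50 54))))) (.rp 17 (.thr 31 27 (.thr 26 16 (.thr 10 58 (.thr 6 2 (.dbl 38 50 54))))) .nd))))) .nd))))))) (.rp 28 (.thr 31 27 (.thr 16 26 (.thr 17 18 (.thr 25 29 (.thr 51 35 (.thr 54 57 (.dbl 38 6 12))))))) (.rp 25 (.thr 31 27 (.thr 26 16 (.thr 58 10 (.thr 51 35 (.thr 57 54 (.thr 56 59 (.thr 48 52 (.thr 49 50 (.thr 53 61 (.dbl 37 5 15)))))))))) (.rp 14 (.str 46 (.nv (.thr 25 28 (.thr 17 29 (.thr 31 27 (.dbl 16 18 26)))) (.nv (.thr 51 35 (.thr 38 34 (.dbl 54 6 57))) .nd))) (.rp 12 (.thr 25 28 (.thr 31 27 (.thr 16 26 (.dbl 17 18 29)))) .nd)))))))))) (.rp 60 (.thr 62 2 (.str 19 (.nv (.thr 23 20 (.thr 31 27 (.thr 16 26 (.thr 17 18 (.dbl 25 28 29))))) (.nv (.thr 25 28 (.thr 8 59 (.thr 51 35 (.thr 12 38 (.thr 0 4 (.dbl 17 29 34)))))) (.nv (.thr 23 20 (.thr 31 27 (.thr 25 28 (.thr 16 26 (.dbl 17 18 29))))) (.rp 45 (.str 15 (.nv (.thr 23 20 (.thr 25 28 (.thr 17 29 (.thr 31 27 (.dbl 16 18 26))))) (.nv (.thr 51 35 (.thr 27 39 (.dbl 23 20 31))) (.rp 31 (.thr 20 23 (.thr 28 25 (.thr 16 24 (.thr 18 17 (.thr 48 33 (.thr 32 0 (.dbl 37 26 47))))))) (.rp 27 (.thr 51 35 (.thr 25 28 (.thr 8 59 (.thr 12 38 (.thr 0 4 (.dbl 17 29 34)))))) (.rp 23 (.thr 51 35 (.thr 25 28 (.thr 8 59 (.thr 12 38 (.thr 0 4 (.dbl 17 29 34)))))) (.rp 20 (.thr 51 35 (.thr 25 28 (.thr 8 59 (.thr 12 38 (.thr 0 4 (.dbl 17 29 34)))))) .nd))))))) (.rp 31 (.thr 51 35 (.thr 25 28 (.thr 29 17 (.thr 8 59 (.thr 12 38 (.thr 9 6 (.thr 41 57 (.thr 40 43 (.thr 56 24 (.dbl 11 10 26)))))))))) (.rp 29 (.thr 20 23 (.thr 28 25 (.thr 16 24 (.thr 18 17 (.thr 26 31 (.thr 48 33 (.thr 32 0 (.dbl 37 15 47)))))))) (.rp 28 (.thr 51 35 (.thr 23 20 (.thr 31 27 (.thr 16 26 (.thr 17 18 (.thr 25 29 (.thr 8 59 (.thr 12 38 (.dbl 0 4 34))))))))) (.rp 25 (.thr 51 35 (.thr 23 20 (.thr 31 27 (.thr 26 16 (.thr 58 10 (.thr 50 54 (.thr 48 49 (.thr 33 18 (.thr 37 15 (.thr 45 41 (.thr 47 32 (.thr 46 44 (.dbl 38 14 34))))))))))))) (.rp 17 (.thr 51 35 (.thr 23 20 (.thr 25 28 (.thr 8 59 (.thr 12 38 (.thr 9 6 (.thr 10 11 (.thr 26 58 (.dbl 27 24 31))))))))) (.rp 15 (.str 45 (.nv (.thr 25 28 (.thr 29 17 (.thr 51 35 (.thr 12 38 (.thr 9 6 (.thr 41 57 (.dbl 61 1 13))))))) (.nv (.thr 23 20 (.thr 31 27 (.thr 16 26 (.thr 17 18 (.dbl 25 28 29))))) (.nv (.thr 25 28 (.thr 8 59 (.thr 51 35 (.thr 12 38 (.thr 0 4 (.dbl 17 29 34)))))) (.rp 51 (.thr 25 28 (.thr 29 17 (.thr 61 13 (.thr 41 1 (.thr 59 8 (.thr 43 40 (.thr 27 11 (.dbl 23 20 31)))))))) (.rp 47 (.str 31 (.nv (.thr 16 26 (.thr 17 18 (.dbl 25 28 29))) (.nv (.dbl 23 20 27) .nd))) (.rp 31 (.str 47 (.nv (.thr 35 51 (.thr 44 46 (.thr 41 38 (.dbl 43 39 40)))) (.nv (.thr 35 51 (.thr 37 32 (.thr 41 33 (.dbl 43 39 40)))) (.nv (.thr 25 28 (.thr 29 17 (.thr 37 32 (.dbl 13 49 61)))) (.rp 29 (.thr 28 25 (.thr 35 51 (.thr 46 44 (.thr 32 37 (.dbl 34 33 38))))) (.rp 28 (.str 29 (.nv (.thr 44 46 (.thr 35 51 (.thr 37 32 (.dbl 41 33 38)))) (.nv (.thr 35 51 (.thr 44 46 (.thr 41 38 (.dbl 43 39 40)))) (.nv (.thr 25 17 (.thr 13 61 (.dbl 37 32 49))) (.rp 44 (.str 12 (.nv (.thr 37 32 (.thr 61 13 (.dbl 41 1 33))) (.nv (.thr 25 17 (.dbl 51 35 38)) .nd))) .nd))))) .nd)))))) (.rp 29 (.thr 35 51 (.thr 28 25 (.thr 20 23 (.thr 16 24 (.thr 18 17 (.thr 33 48 (.thr 37 41 (.dbl 32 34 47)))))))) (.rp 28 (.thr 23 20 (.thr 31 27 (.thr 16 26 (.thr 18 17 (.thr 33 48 (.thr 37 41 (.thr 32 47 (.dbl 35 34 51)))))))) (.rp 25 (.thr 51 35 (.thr 23 20 (.thr 31 27 (.thr 26 16 (.thr 58 10 (.thr 50 54 (.thr 48 49 (.thr 33 18 (.thr 37 41 (.thr 47 32 (.thr 46 44 (.dbl 38 14 34)))))))))))) (.rp 17 (.thr 51 35 (.thr 25 28 (.thr 12 38 (.thr 9 6 (.thr 41 57 (.thr 37 33 (.thr 1 61 (.dbl 13 5 49)))))))) .nd))))))))))) (.rp 0 (.thr 51 35 (.thr 20 23 (.thr 28 25 (.thr 16 24 (.thr 18 17 (.thr 26 31 (.thr 58 10 (.thr 50 54 (.dbl 48 33 49))))))))) .nd))))))))))))) (.rp 41 (.str 19 (.nv (.thr 2 62 (.thr 0 1 (.thr 23 20 (.thr 31 27 (.thr 51 35 (.thr 17 34 (.dbl 16 18 26))))))) (.nv (.thr 2 62 (.thr 0 1 (.thr 51 35 (.thr 17 34 (.dbl 25 28 29))))) (.nv (.thr 23 20 (.thr 31 27 (.thr 16 26 (.thr 25 28 (.dbl 17 18 29))))) (.rp 17 (.thr 51 35 (.thr 2 62 (.thr 0 1 (.thr 25 28 (.thr 8 59 (.dbl 12 4 38)))))) .nd))))) (.rp 2 (.str 19 (.nv (.thr 51 35 (.thr 60 41 (.thr 54 57 (.thr 38 6 (.dbl 25 12 28))))) (.nv (.thr 23 20 (.thr 31 27 (.thr 16 26 (.thr 25 28 (.dbl 17 18 29))))) (.rp 28 (.thr 35 51 (.thr 41 60 (.thr 43 40 (.thr 47 39 (.thr 37 32 (.thr 45 33 (.dbl 44 38 46))))))) (.rp 25 (.thr 35 51 (.thr 41 60 (.thr 43 40 (.thr 47 39 (.thr 37 32 (.thr 45 33 (.dbl 44 38 46))))))) .nd))))) (.rp 1 (.str 19 (.nv (.thr 51 35 (.thr 60 41 (.thr 54 57 (.thr 38 6 (.dbl 25 12 28))))) (.nv (.thr 23 20 (.thr 31 27 (.thr 16 26 (.thr 25 28 (.dbl 17 18 29))))) (.rp 28 (.thr 35 51 (.thr 41 60 (.thr 43 40 (.thr 47 39 (.thr 37 32 (.thr 45 33 (.dbl 44 38 46))))))) (.rp 25 (.thr 35 51 (.thr 41 60 (.thr 43 40 (.thr 47 39 (.thr 37 32 (.thr 45 33 (.dbl 44 38 46))))))) .nd))))) (.rp 0 (.str 19 (.nv (.thr 51 35 (.thr 60 41 (.thr 54 57 (.thr 38 6 (.dbl 25 12 28))))) (.nv (.thr 23 20 (.thr 31 27 (.thr 16 26 (.thr 25 28 (.dbl 17 18 29))))) (.rp 60 (.thr 20 23 (.thr 28 25 (.thr 16 24 (.thr 18 17 (.thr 33 48 (.thr 35 51 (.thr 34 32 (.dbl 2 50 62)))))))) (.rp 28 (.thr 35 51 (.thr 41 60 (.thr 40 43 (.thr 44 38 (.thr 32 36 (.thr 37 47 (.dbl 33 34 45))))))) (.rp 25 (.thr 35 51 (.thr 41 60 (.thr 38 44 (.thr 34 46 (.thr 32 33 (.thr 47 37 (.dbl 43 39 40))))))) .nd)))))) .nd))))))))) (.rp 29 (.str 26 (.nv (.thr 20 23 (.thr 18 30 (.thr 16 31 (.thr 28 24 (.dbl 19 17 25))))) (.nv (.thr 30 18 (.thr 58 10 (.thr 62 2 (.thr 50 54 (.dbl 14 38 46))))) (.rp 46 (.str 12 (.nv (.thr 20 23 (.thr 16 31 (.thr 28 24 (.thr 60 44 (.thr 40 0 (.dbl 41 3 43)))))) (.nv (.thr 10 58 (.thr 2 62 (.thr 14 6 (.thr 50 38 (.dbl 18 30 34))))) (.rp 60 (.thr 18 30 (.thr 20 23 (.thr 16 31 (.thr 28 24 (.dbl 19 17 25))))) .nd)))) (.rp 30 (.thr 10 58 (.thr 2 62 (.thr 14 6 (.thr 50 38 (.thr 18 34 (.thr 20 23 (.thr 16 31 (.thr 28 24 (.dbl 19 17 25))))))))) (.rp 18 (.thr 23 20 (.thr 31 16 (.thr 19 27 (.thr 2 62 (.thr 28 25 (.str 60 (.nv (.thr 3 41 (.thr 0 1 (.thr 12 44 (.thr 4 8 (.thr 38 55 (.dbl 6 9 54)))))) (.nv (.thr 10 58 (.thr 6 14 (.thr 12 44 (.dbl 3 9 41)))) (.rp 54 (.thr 12 44 (.thr 3 41 (.thr 0 1 (.thr 4 8 (.thr 38 55 (.thr 34 46 (.dbl 51 17 35))))))) (.rp 46 (.thr 12 44 (.thr 10 58 (.thr 3 41 (.dbl 6 9 14)))) (.rp 44 (.thr 10 58 (.thr 6 14 (.thr 54 38 (.thr 51 57 (.dbl 3 35 41))))) (.rp 41 (.thr 10 58 (.thr 14 6 (.thr 12 44 (.thr 15 13 (.thr 5 0 (.dbl 37 48 53)))))) (.rp 12 (.str 46 (.nv (.thr 3 41 (.thr 0 1 (.thr 34 38 (.dbl 51 17 35)))) (.nv (.thr 38 34 (.thr 6 54 (.dbl 14 10 50))) (.rp 38 (.str 51 (.nv (.dbl 3 35 41) (.rp 41 (.thr 58 10 (.thr 57 54 (.thr 56 59 (.thr 48 52 (.thr 49 50 (.thr 53 61 (.dbl 37 5 15))))))) (.rp 35 (.thr 58 10 (.thr 57 54 (.thr 56 59 (.dbl 41 3 11)))) (.rp 3 (.thr 58 10 (.thr 57 54 (.thr 56 59 (.thr 48 52 (.thr 49 50 (.thr 53 61 (.dbl 37 5 15))))))) .nd))))) (.rp 34 (.thr 10 58 (.thr 6 14 (.thr 54 38 (.thr 51 57 (.dbl 3 35 41))))) .nd))))) (.rp 9 (.thr 10 58 (.thr 14 6 (.thr 12 44 (.thr 15 13 (.thr 5 0 (.dbl 37 48 53)))))) (.rp 6 (.thr 12 44 (.thr 3 41 (.thr 0 1 (.thr 4 8 (.thr 38 55 (.thr 34 46 (.dbl 51 17 35))))))) (.rp 3 (.thr 10 58 (.thr 14 6 (.thr 12 44 (.thr 15 13 (.thr 5 0 (.dbl 37 48 53)))))) .nd)))))))))))))))) (.rp 12 (.str 46 (.nv (.thr 2 62 (.thr 10 58 (.thr 6 14 (.dbl 38 34 54)))) (.nv (.thr 30 18 (.dbl 62 2 14)) (.rp 62 (.str 60 (.nv (.thr 10 58 (.thr 30 18 (.thr 15 45 (.thr 0 5 (.dbl 20 23 40))))) (.nv (.thr 30 18 (.thr 15 45 (.thr 48 37 (.thr 56 52 (.dbl 41 3 11))))) (.nv (.thr 20 23 (.thr 40 0 (.dbl 41 3 43))) .nd)))) (.rp 14 (.thr 18 30 (.thr 34 38 (.dbl 2 50 62))) (.rp 2 (.thr 30 18 (.thr 14 62 (.dbl 38 34 50))) .nd)))))) .nd))))))) (.rp 28 (.str 3 (.nv (.thr 2 62 (.thr 1 0 (.dbl 41 60 61))) (.rp 62 (.thr 41 60 (.thr 61 1 (.str 44 (.nv (.thr 38 35 (.thr 4 55 (.thr 6 54 (.thr 12 9 (.thr 8 0 (.dbl 25 51 59)))))) (.nv (.thr 40 43 (.thr 32 36 (.thr 38 35 (.thr 47 37 (.dbl 46 34 45))))) (.rp 40 (.thr 38 35 (.thr 4 55 (.thr 6 54 (.thr 12 9 (.thr 0 8 (.thr 34 46 (.dbl 51 17 25))))))) (.rp 38 (.thr 40 43 (.thr 32 36 (.thr 37 47 (.thr 53 5 (.thr 45 33 (.thr 13 29 (.dbl 49 25 57))))))) (.rp 35 (.thr 40 43 (.thr 32 36 (.thr 47 37 (.thr 45 46 (.thr 29 13 (.thr 25 17 (.thr 8 59 (.thr 9 57 (.thr 11 10 (.dbl 56 24 26)))))))))) .nd)))))))) (.rp 61 (.thr 2 62 (.thr 60 41 (.thr 0 1 (.dbl 20 23 40)))) (.rp 60 (.thr 62 2 (.str 12 (.nv (.thr 6 9 (.thr 38 54 (.thr 4 55 (.thr 8 0 (.dbl 25 51 59))))) (.nv (.thr 6 9 (.thr 38 54 (.thr 51 25 (.thr 34 46 (.thr 0 17 (.dbl 4 8 55)))))) (.rp 57 (.thr 23 20 (.thr 6 9 (.thr 54 38 (.thr 58 50 (.thr 26 10 (.thr 18 30 (.thr 48 33 (.thr 31 16 (.thr 24 36 (.dbl 27 19 25)))))))))) (.rp 55 (.thr 23 20 (.thr 6 9 (.thr 38 54 (.thr 51 25 (.thr 46 34 (.thr 30 14 (.thr 19 35 (.thr 31 27 (.dbl 26 16 18))))))))) (.rp 54 (.str 51 (.nv (.thr 19 35 (.thr 23 20 (.thr 25 38 (.thr 17 29 (.thr 31 27 (.dbl 16 18 26)))))) (.nv (.thr 38 25 (.thr 34 46 (.thr 0 17 (.dbl 4 8 55)))) (.rp 38 (.thr 19 35 (.thr 23 20 (.thr 31 27 (.thr 16 26 (.thr 17 18 (.thr 25 29 (.thr 8 59 (.dbl 0 4 34)))))))) (.rp 25 (.thr 19 35 (.thr 23 20 (.thr 27 31 (.thr 15 39 (.thr 14 13 (.thr 30 46 (.thr 26 18 (.thr 50 38 (.dbl 48 37 49))))))))) (.rp 17 (.thr 19 35 (.thr 23 20 (.thr 31 27 (.thr 38 25 (.thr 46 34 (.thr 30 14 (.dbl 26 16 18))))))) (.rp 0 (.thr 19 35 (.thr 25 38 (.thr 17 29 (.thr 16 18 (.thr 31 26 (.dbl 23 20 27)))))) .nd))))))) (.rp 51 (.thr 23 20 (.thr 6 9 (.thr 54 38 (.thr 58 50 (.thr 26 10 (.thr 18 30 (.thr 48 33 (.thr 31 16 (.thr 24 36 (.dbl 27 19 25)))))))))) (.rp 38 (.str 26 (.nv (.thr 9 6 (.thr 10 58 (.thr 8 11 (.thr 18 30 (.thr 25 59 (.thr 48 33 (.dbl 24 27 36))))))) (.nv (.thr 18 30 (.thr 31 16 (.thr 48 33 (.thr 24 36 (.thr 27 25 (.dbl 23 19 20)))))) (.nv (.thr 30 18 (.thr 10 58 (.thr 14 46 (.thr 15 13 (.thr 5 0 (.dbl 37 48 53)))))) (.rp 48 (.thr 30 18 (.thr 9 6 (.thr 58 10 (.thr 14 46 (.thr 13 15 (.thr 5 1 (.thr 37 53 (.thr 25 49 (.thr 59 8 (.dbl 57 41 56)))))))))) (.rp 30 (.thr 20 23 (.thr 9 6 (.thr 10 58 (.thr 8 11 (.thr 4 0 (.thr 25 59 (.thr 36 52 (.dbl 24 27 48)))))))) (.rp 18 (.thr 20 23 (.thr 9 6 (.thr 10 58 (.thr 8 11 (.thr 4 0 (.thr 25 59 (.thr 36 52 (.dbl 24 27 48)))))))) (.rp 15 (.thr 20 23 (.thr 9 6 (.thr 10 58 (.thr 8 11 (.thr 4 0 (.thr 25 59 (.thr 36 52 (.dbl 24 27 48)))))))) .nd)))))))) (.rp 25 (.thr 6 9 (.thr 38 54 (.thr 4 55 (.thr 0 8 (.thr 46 34 (.thr 30 14 (.thr 18 26 (.thr 48 33 (.thr 32 16 (.thr 37 47 (.dbl 36 24 39))))))))))) (.rp 9 (.str 26 (.nv (.thr 18 30 (.thr 23 20 (.thr 48 33 (.thr 24 36 (.thr 27 25 (.dbl 31 16 19)))))) (.nv (.thr 30 18 (.thr 14 46 (.thr 50 38 (.dbl 58 10 54)))) (.rp 30 (.thr 31 16 (.thr 20 23 (.thr 58 10 (.thr 50 54 (.thr 14 38 (.thr 15 13 (.thr 48 37 (.thr 36 24 (.thr 4 52 (.thr 8 0 (.thr 25 59 (.thr 17 29 (.thr 33 18 (.dbl 49 1 51)))))))))))))) (.rp 18 (.thr 16 31 (.thr 20 23 (.thr 58 10 (.thr 50 54 (.thr 14 38 (.thr 15 13 (.thr 48 37 (.thr 0 32 (.thr 36 24 (.dbl 4 8 52)))))))))) .nd))))) (.rp 8 (.thr 23 20 (.thr 6 9 (.thr 38 54 (.thr 51 25 (.thr 46 34 (.thr 30 14 (.thr 19 35 (.thr 31 27 (.dbl 26 16 18))))))))) (.rp 6 (.str 4 (.nv (.thr 0 8 (.thr 38 55 (.thr 51 25 (.dbl 34 17 46)))) (.nv (.thr 8 0 (.thr 25 59 (.dbl 38 51 55))) (.rp 55 (.thr 8 0 (.thr 25 59 (.thr 51 38 (.thr 17 29 (.thr 19 35 (.thr 16 18 (.thr 31 26 (.dbl 23 20 27)))))))) (.rp 51 (.thr 20 23 (.thr 0 8 (.thr 36 52 (.thr 48 24 (.thr 16 32 (.thr 26 31 (.dbl 18 30 33))))))) (.rp 38 (.thr 20 23 (.thr 0 8 (.thr 36 52 (.thr 48 24 (.thr 16 32 (.thr 26 31 (.dbl 18 30 33))))))) (.rp 25 (.thr 20 23 (.thr 0 8 (.thr 36 52 (.thr 48 24 (.thr 16 32 (.thr 26 31 (.dbl 18 30 33))))))) (.rp 14 (.str 10 (.nv (.thr 26 58 (.thr 18 30 (.thr 48 33 (.thr 36 24 (.dbl 20 23 52))))) (.nv (.thr 8 0 (.thr 25 59 (.dbl 38 51 55))) (.rp 20 (.thr 0 8 (.thr 38 55 (.thr 51 25 (.dbl 34 17 46)))) .nd)))) (.rp 10 (.str 14 (.nv (.thr 8 0 (.thr 25 59 (.dbl 38 51 55))) (.nv (.thr 30 46 (.thr 26 18 (.dbl 38 50 55))) (.rp 55 (.thr 8 0 (.thr 46 30 (.thr 38 34 (.dbl 25 51 59)))) (.rp 38 (.thr 20 23 (.thr 30 46 (.thr 18 26 (.thr 36 52 (.dbl 48 24 33))))) .nd))))) (.rp 8 (.thr 23 20 (.thr 38 55 (.thr 51 25 (.thr 46 34 (.thr 14 30 (.thr 15 13 (.thr 19 35 (.dbl 27 31 39)))))))) (.rp 0 (.thr 20 23 (.thr 36 52 (.thr 38 55 (.thr 39 37 (.thr 51 25 (.thr 46 34 (.thr 14 30 (.dbl 15 13 27)))))))) .nd))))))))))) (.rp 4 (.thr 23 20 (.thr 6 9 (.thr 38 54 (.thr 51 25 (.thr 46 34 (.thr 30 14 (.thr 19 35 (.thr 31 27 (.dbl 26 16 18))))))))) (.rp 0 (.thr 20 23 (.thr 6 9 (.thr 38 54 (.thr 46 34 (.thr 30 14 (.thr 18 26 (.thr 48 33 (.thr 36 24 (.dbl 4 52 55))))))))) .nd))))))))))))))) (.rp 41 (.str 19 (.nv (.thr 23 20 (.thr 31 27 (.thr 16 26 (.thr 17 18 (.thr 51 35 (.thr 0 34 (.dbl 2 1 62))))))) (.nv (.thr 2 62 (.thr 0 1 (.thr 23 20 (.thr 31 27 (.thr 16 26 (.thr 18 17 (.dbl 48 32 33))))))) (.nv (.thr 2 62 (.thr 0 1 (.thr 51 35 (.thr 34 17 (.thr 38 46 (.thr 6 54 (.dbl 12 9 25))))))) (.nv (.thr 2 62 (.thr 0 1 (.thr 23 20 (.thr 31 27 (.thr 16 26 (.thr 17 18 (.dbl 51 34 35))))))) (.rp 62 (.thr 51 35 (.thr 23 20 (.thr 31 27 (.thr 16 26 (.thr 17 18 (.thr 25 29 (.thr 34 0 (.dbl 38 12 46)))))))) (.rp 25 (.thr 51 35 (.thr 2 62 (.thr 0 1 (.thr 17 34 (.thr 16 18 (.thr 31 26 (.dbl 23 20 27))))))) (.rp 17 (.thr 51 35 (.thr 2 62 (.thr 0 1 (.thr 23 20 (.thr 27 31 (.thr 15 39 (.thr 10 5 (.thr 26 58 (.thr 48 37 (.dbl 18 30 33)))))))))) (.rp 2 (.thr 51 35 (.thr 23 20 (.thr 31 27 (.thr 16 26 (.thr 17 18 (.thr 25 29 (.thr 34 0 (.dbl 38 12 46)))))))) (.rp 1 (.thr 35 51 (.thr 2 62 (.thr 23 20 (.thr 31 27 (.thr 16 26 (.thr 18 17 (.thr 34 50 (.dbl 33 32 48)))))))) (.rp 0 (.thr 35 51 (.thr 2 62 (.thr 23 20 (.thr 31 27 (.thr 16 26 (.thr 18 17 (.thr 34 50 (.dbl 33 32 48)))))))) .nd))))))))))) (.rp 2 (.str 19 (.nv (.thr 23 20 (.thr 31 27 (.thr 16 26 (.thr 17 18 (.thr 25 29 (.thr 51 35 (.thr 34 0 (.dbl 38 12 46)))))))) (.nv (.thr 35 51 (.thr 41 60 (.thr 40 43 (.thr 44 38 (.thr 32 36 (.thr 37 47 (.dbl 33 34 45))))))) (.nv (.thr 20 23 (.thr 51 35 (.thr 60 41 (.thr 0 40 (.thr 34 17 (.thr 38 46 (.dbl 54 6 57))))))) (.rp 60 (.thr 51 35 (.thr 23 20 (.thr 31 27 (.thr 16 26 (.thr 17 18 (.thr 25 29 (.thr 8 59 (.thr 12 38 (.dbl 0 4 34))))))))) (.rp 51 (.thr 23 20 (.thr 31 27 (.thr 16 26 (.thr 18 17 (.thr 33 48 (.thr 41 60 (.thr 37 45 (.thr 32 47 (.thr 40 43 (.thr 44 36 (.dbl 35 34 38))))))))))) (.rp 40 (.thr 51 35 (.thr 60 41 (.thr 54 57 (.thr 38 6 (.thr 34 46 (.thr 17 0 (.dbl 25 12 29))))))) (.rp 38 (.thr 35 51 (.thr 23 20 (.thr 31 27 (.thr 16 26 (.thr 18 17 (.thr 33 48 (.thr 41 60 (.thr 37 45 (.dbl 32 34 47))))))))) (.rp 35 (.thr 23 20 (.thr 31 27 (.thr 16 26 (.thr 17 18 (.thr 25 29 (.thr 8 59 (.thr 41 60 (.thr 9 57 (.thr 12 6 (.thr 51 38 (.dbl 0 4 34))))))))))) (.rp 34 (.thr 35 51 (.thr 41 60 (.thr 43 40 (.thr 47 39 (.thr 37 32 (.thr 45 33 (.dbl 44 38 46))))))) (.rp 12 (.thr 51 35 (.thr 20 23 (.thr 60 41 (.thr 54 57 (.thr 38 6 (.thr 0 40 (.dbl 34 17 46))))))) .nd))))))))))) (.rp 1 (.str 19 (.nv (.thr 35 51 (.thr 41 60 (.thr 43 40 (.thr 44 38 (.thr 47 39 (.thr 37 32 (.dbl 45 33 46))))))) (.nv (.thr 2 62 (.thr 23 20 (.thr 31 27 (.thr 16 26 (.thr 18 17 (.thr 33 48 (.thr 35 51 (.dbl 34 32 50)))))))) (.nv (.thr 51 35 (.thr 60 41 (.thr 54 57 (.thr 38 6 (.thr 34 46 (.thr 17 0 (.dbl 25 12 29))))))) (.rp 60 (.thr 35 51 (.thr 23 20 (.thr 31 27 (.thr 16 26 (.thr 18 17 (.thr 33 48 (.thr 34 32 (.dbl 2 50 62)))))))) (.rp 51 (.thr 23 20 (.thr 31 27 (.thr 16 26 (.thr 18 17 (.thr 33 48 (.thr 41 60 (.thr 37 45 (.thr 32 47 (.thr 34 35 (.dbl 2 50 62)))))))))) (.rp 35 (.thr 23 20 (.thr 31 27 (.thr 16 26 (.thr 17 18 (.thr 25 29 (.thr 8 59 (.thr 41 60 (.thr 9 57 (.thr 12 6 (.thr 51 38 (.dbl 0 4 34))))))))))) (.rp 25 (.thr 35 51 (.thr 41 60 (.thr 43 40 (.thr 47 39 (.thr 37 32 (.thr 45 33 (.dbl 44 38 46))))))) .nd)))))))) (.rp 0 (.str 6 (.nv (.thr 2 62 (.thr 9 12 (.thr 10 14 (.thr 8 11 (.thr 25 59 (.dbl 41 57 60)))))) (.nv (.thr 2 62 (.thr 14 10 (.thr 38 54 (.thr 50 26 (.dbl 34 18 46))))) (.nv (.thr 12 9 (.thr 38 54 (.thr 51 25 (.thr 35 19 (.dbl 41 44 60))))) (.rp 60 (.thr 38 54 (.thr 34 46 (.thr 12 9 (.thr 51 25 (.thr 35 19 (.thr 32 33 (.thr 47 37 (.thr 43 39 (.dbl 41 40 44))))))))) .nd))))) .nd))))))))) (.rp 27 (.str 26 (.nv (.thr 20 23 (.thr 18 30 (.thr 16 31 (.thr 19 17 (.dbl 28 24 25))))) (.nv (.thr 30 18 (.thr 58 10 (.thr 62 2 (.thr 50 54 (.dbl 14 38 46))))) (.rp 30 (.thr 10 58 (.thr 2 62 (.thr 14 6 (.thr 50 38 (.thr 18 34 (.thr 16 31 (.thr 19 17 (.thr 20 23 (.dbl 28 24 25))))))))) (.rp 18 (.str 15 (.nv (.thr 10 58 (.thr 5 0 (.dbl 37 48 53))) (.rp 58 (.thr 16 31 (.thr 2 62 (.thr 48 37 (.thr 0 32 (.thr 3 1 (.thr 60 41 (.dbl 20 23 40))))))) (.rp 53 (.thr 16 31 (.thr 10 58 (.thr 48 37 (.dbl 0 5 32)))) (.rp 48 (.thr 20 23 (.thr 62 2 (.thr 58 10 (.thr 50 54 (.thr 14 38 (.thr 30 46 (.thr 60 45 (.thr 40 0 (.dbl 41 3 43))))))))) (.rp 37 (.thr 20 23 (.thr 2 62 (.thr 10 58 (.thr 0 5 (.thr 3 1 (.dbl 60 40 41)))))) (.rp 10 (.thr 16 31 (.thr 2 62 (.thr 48 37 (.thr 0 32 (.thr 3 1 (.thr 60 41 (.dbl 20 23 40))))))) (.rp 5 (.thr 16 31 (.thr 2 62 (.thr 48 37 (.thr 0 32 (.thr 3 1 (.thr 60 41 (.dbl 20 23 40))))))) (.rp 0 (.thr 20 23 (.thr 2 62 (.thr 10 58 (.thr 14 6 (.thr 12 13 (.thr 48 37 (.thr 24 36 (.dbl 16 28 31)))))))) .nd))))))))) .nd))))) (.rp 26 (.str 3 (.nv (.thr 2 62 (.thr 1 0 (.dbl 41 60 61))) (.rp 62 (.str 19 (.nv (.thr 51 35 (.thr 25 28 (.thr 17 29 (.thr 34 0 (.dbl 38 12 46))))) (.nv (.thr 23 20 (.thr 25 28 (.thr 27 31 (.thr 59 8 (.thr 43 11 (.dbl 41 40 60)))))) (.nv (.thr 60 41 (.thr 25 28 (.thr 51 35 (.thr 54 57 (.dbl 38 6 12))))) (.rp 60 (.str 61 (.nv (.thr 25 28 (.thr 17 29 (.thr 51 35 (.thr 34 0 (.dbl 38 12 46))))) (.nv (.thr 25 28 (.thr 17 29 (.thr 18 16 (.thr 33 48 (.dbl 1 41 49))))) (.nv (.thr 1 41 (.thr 0 2 (.thr 51 35 (.thr 17 34 (.thr 18 16 (.dbl 33 48 49)))))) (.nv (.thr 51 35 (.thr 41 1 (.thr 25 28 (.thr 9 57 (.dbl 12 6 38))))) (.rp 44 (.thr 51 35 (.thr 41 1 (.thr 25 28 (.thr 12 38 (.dbl 9 6 57))))) .nd)))))) (.rp 28 (.thr 51 35 (.thr 20 23 (.thr 60 41 (.thr 54 57 (.thr 38 6 (.thr 34 46 (.dbl 0 17 40))))))) (.rp 25 (.thr 51 35 (.thr 20 23 (.thr 60 41 (.thr 0 40 (.thr 34 17 (.thr 38 46 (.dbl 54 6 57))))))) .nd))))))) (.rp 61 (.thr 2 62 (.thr 60 41 (.thr 0 1 (.dbl 20 23 40)))) (.rp 60 (.thr 62 2 (.str 25 (.nv (.thr 8 59 (.thr 19 28 (.thr 51 35 (.thr 12 38 (.thr 0 4 (.dbl 17 29 34)))))) (.nv (.thr 17 29 (.thr 19 28 (.thr 51 35 (.thr 34 0 (.dbl 38 12 46))))) (.rp 51 (.thr 59 8 (.str 57 (.nv (.thr 9 41 (.thr 6 12 (.thr 54 38 (.dbl 58 50 56)))) (.nv (.thr 41 9 (.thr 61 1 (.thr 49 53 (.thr 13 37 (.dbl 29 17 45))))) (.rp 58 (.thr 29 17 (.thr 41 9 (.thr 61 1 (.thr 13 45 (.dbl 49 37 53))))) (.rp 41 (.thr 17 29 (.thr 19 28 (.thr 18 16 (.thr 33 48 (.thr 49 1 (.thr 53 61 (.dbl 37 5 13))))))) (.rp 29 (.thr 41 9 (.thr 58 56 (.thr 54 50 (.thr 38 6 (.thr 20 23 (.thr 40 43 (.thr 44 35 (.thr 36 32 (.dbl 4 52 55))))))))) (.rp 11 (.thr 17 29 (.thr 19 28 (.thr 18 16 (.thr 33 48 (.thr 49 1 (.thr 53 61 (.dbl 37 5 13))))))) (.rp 9 (.thr 17 29 (.thr 19 28 (.thr 18 16 (.thr 33 48 (.thr 49 1 (.thr 53 61 (.dbl 37 5 13))))))) .nd))))))))) (.rp 44 (.thr 29 17 (.thr 28 19 (.thr 30 31 (.thr 46 14 (.thr 38 34 (.thr 6 54 (.dbl 12 9 51))))))) (.rp 38 (.thr 17 29 (.thr 19 28 (.thr 35 51 (.thr 18 16 (.thr 33 48 (.thr 49 1 (.thr 37 13 (.dbl 32 34 47)))))))) (.rp 35 (.thr 29 17 (.thr 28 19 (.thr 30 31 (.thr 46 14 (.thr 38 34 (.thr 6 54 (.dbl 12 9 51))))))) (.rp 34 (.thr 17 29 (.thr 19 28 (.thr 51 35 (.thr 12 38 (.thr 9 6 (.thr 41 57 (.thr 1 61 (.thr 18 16 (.dbl 33 48 49))))))))) (.rp 29 (.thr 59 8 (.thr 19 28 (.thr 51 35 (.thr 12 38 (.thr 9 6 (.thr 41 57 (.thr 43 40 (.thr 27 11 (.dbl 23 20 31))))))))) (.rp 28 (.thr 59 8 (.str 12 (.nv (.thr 38 51 (.dbl 6 9 54)) (.rp 57 (.thr 6 9 (.dbl 38 51 54)) (.rp 54 (.thr 17 29 (.thr 9 6 (.thr 41 57 (.thr 51 38 (.thr 1 61 (.thr 49 33 (.dbl 13 5 37))))))) (.rp 51 (.str 41 (.nv (.dbl 9 6 57) (.rp 57 (.str 54 (.nv (.dbl 6 9 38) (.rp 38 (.thr 1 61 (.thr 17 29 (.thr 49 33 (.thr 13 37 (.dbl 9 5 6))))) (.rp 9 (.thr 38 6 (.thr 46 34 (.thr 61 1 (.thr 44 35 (.thr 45 47 (.dbl 29 13 17)))))) (.rp 6 (.thr 61 1 (.thr 29 17 (.thr 45 13 (.thr 33 37 (.thr 40 43 (.thr 48 18 (.thr 36 24 (.thr 44 32 (.thr 46 47 (.dbl 38 34 35)))))))))) .nd))))) (.rp 54 (.thr 57 9 (.thr 61 1 (.thr 29 17 (.thr 13 45 (.dbl 49 37 53))))) (.rp 9 (.thr 40 43 (.thr 1 61 (.thr 17 29 (.thr 33 49 (.thr 48 18 (.thr 36 24 (.thr 32 44 (.dbl 37 45 47)))))))) (.rp 6 (.thr 57 9 (.thr 61 1 (.thr 29 17 (.thr 13 45 (.dbl 49 37 53))))) .nd)))))) (.rp 38 (.thr 17 29 (.thr 9 6 (.thr 41 57 (.thr 1 61 (.thr 49 33 (.dbl 13 5 37)))))) (.rp 9 (.thr 17 29 (.thr 51 38 (.thr 34 0 (.thr 35 19 (.thr 33 32 (.thr 48 18 (.dbl 49 1 50))))))) (.rp 6 (.thr 17 29 (.thr 51 38 (.thr 34 0 (.thr 35 19 (.thr 33 32 (.thr 48 18 (.dbl 49 1 50))))))) .nd))))))))) (.rp 19 (.str 41 (.nv (.thr 8 59 (.thr 9 57 (.thr 12 6 (.thr 4 0 (.dbl 38 51 55))))) (.nv (.thr 57 9 (.thr 61 1 (.thr 49 53 (.thr 13 37 (.dbl 29 17 45))))) (.rp 58 (.thr 17 29 (.thr 1 61 (.thr 49 33 (.thr 9 57 (.dbl 13 5 37))))) (.rp 57 (.thr 17 29 (.thr 1 61 (.thr 49 33 (.thr 13 37 (.thr 9 5 (.thr 8 59 (.thr 12 6 (.thr 4 0 (.dbl 38 51 55))))))))) (.rp 9 (.thr 17 29 (.thr 1 61 (.thr 33 49 (.thr 48 18 (.thr 40 43 (.thr 8 59 (.thr 24 56 (.thr 12 36 (.thr 51 38 (.dbl 0 4 34)))))))))) .nd)))))) (.rp 17 (.thr 59 8 (.thr 19 28 (.thr 51 35 (.thr 12 38 (.thr 9 6 (.thr 41 57 (.thr 23 20 (.thr 27 31 (.dbl 43 11 40))))))))) (.rp 12 (.thr 8 59 (.thr 28 19 (.thr 20 23 (.thr 24 16 (.thr 40 56 (.thr 41 43 (.thr 61 1 (.thr 57 9 (.thr 49 53 (.thr 13 37 (.dbl 29 17 45))))))))))) (.rp 0 (.thr 17 29 (.thr 19 28 (.thr 35 51 (.thr 18 16 (.thr 33 48 (.thr 32 34 (.thr 49 1 (.dbl 37 13 47)))))))) .nd))))))))))))))) (.rp 41 (.str 19 (.nv (.thr 2 62 (.thr 1 0 (.thr 25 28 (.thr 17 29 (.thr 18 16 (.dbl 33 48 49)))))) (.nv (.thr 2 62 (.thr 0 1 (.thr 25 28 (.thr 8 59 (.thr 12 4 (.thr 6 9 (.dbl 38 51 54))))))) (.nv (.thr 25 28 (.thr 17 29 (.thr 51 35 (.thr 34 0 (.dbl 38 12 46))))) (.rp 56 (.str 11 (.nv (.thr 2 62 (.thr 0 1 (.thr 25 28 (.thr 51 35 (.dbl 17 29 34))))) (.nv (.thr 23 20 (.thr 27 31 (.thr 59 43 (.dbl 25 8 28)))) (.rp 28 (.thr 51 35 (.thr 2 62 (.thr 0 1 (.thr 34 17 (.thr 38 46 (.thr 6 54 (.dbl 12 9 25))))))) (.rp 25 (.thr 51 35 (.thr 2 62 (.thr 0 1 (.thr 34 17 (.thr 38 46 (.thr 6 54 (.thr 4 55 (.dbl 12 8 9)))))))) .nd))))) (.rp 28 (.thr 51 35 (.thr 2 62 (.thr 0 1 (.thr 34 17 (.thr 38 46 (.thr 6 54 (.dbl 12 9 25))))))) (.rp 25 (.thr 51 35 (.thr 2 62 (.thr 0 1 (.thr 34 17 (.thr 38 46 (.thr 6 54 (.thr 4 55 (.dbl 12 8 9)))))))) (.rp 12 (.thr 51 35 (.thr 2 62 (.thr 0 1 (.thr 17 34 (.dbl 25 28 29))))) (.rp 11 (.str 56 (.nv (.thr 2 62 (.thr 0 1 (.thr 20 23 (.thr 60 40 (.thr 48 52 (.thr 18 33 (.dbl 16 17 32))))))) (.nv (.thr 25 28 (.thr 17 29 (.thr 51 35 (.thr 34 0 (.dbl 38 12 46))))) (.rp 17 (.thr 51 35 (.thr 2 62 (.thr 0 1 (.thr 25 28 (.thr 8 59 (.dbl 12 4 38)))))) (.rp 0 (.thr 51 35 (.thr 25 28 (.thr 59 8 (.thr 57 58 (.thr 54 60 (.dbl 38 6 12)))))) .nd))))) (.rp 0 (.thr 35 51 (.thr 2 62 (.thr 25 28 (.thr 17 29 (.thr 18 16 (.thr 34 50 (.dbl 33 32 48))))))) .nd)))))))))) (.rp 2 (.str 19 (.nv (.thr 25 28 (.thr 41 60 (.thr 9 57 (.thr 12 6 (.dbl 51 35 38))))) (.nv (.thr 23 20 (.thr 25 28 (.thr 27 31 (.thr 59 8 (.thr 43 11 (.dbl 41 40 60)))))) (.nv (.thr 51 35 (.thr 25 28 (.thr 17 29 (.thr 34 0 (.dbl 38 12 46))))) (.rp 28 (.thr 35 51 (.thr 41 60 (.thr 43 40 (.thr 47 39 (.thr 37 32 (.thr 45 33 (.dbl 44 38 46))))))) (.rp 25 (.thr 35 51 (.thr 41 60 (.thr 43 40 (.thr 47 39 (.thr 37 32 (.thr 45 33 (.dbl 44 38 46))))))) .nd)))))) (.rp 1 (.str 19 (.nv (.thr 25 28 (.thr 41 60 (.thr 9 57 (.thr 12 6 (.dbl 51 35 38))))) (.nv (.thr 23 20 (.thr 25 28 (.thr 27 31 (.thr 59 8 (.thr 43 11 (.dbl 41 40 60)))))) (.nv (.thr 51 35 (.thr 25 28 (.thr 17 29 (.thr 34 0 (.dbl 38 12 46))))) (.rp 28 (.thr 35 51 (.thr 41 60 (.thr 43 40 (.thr 47 39 (.thr 37 32 (.thr 45 33 (.dbl 44 38 46))))))) (.rp 25 (.thr 35 51 (.thr 41 60 (.thr 43 40 (.thr 47 39 (.thr 37 32 (.thr 45 33 (.dbl 44 38 46))))))) .nd)))))) (.rp 0 (.str 19 (.nv (.thr 2 62 (.thr 25 28 (.thr 17 29 (.thr 18 16 (.thr 34 50 (.thr 35 51 (.dbl 33 32 48))))))) (.nv (.thr 23 20 (.thr 25 28 (.thr 27 31 (.thr 59 8 (.thr 43 11 (.dbl 41 40 60)))))) (.nv (.thr 25 28 (.thr 51 35 (.thr 60 41 (.thr 54 57 (.dbl 38 6 12))))) (.rp 60 (.thr 51 35 (.thr 25 28 (.thr 17 29 (.thr 18 16 (.thr 48 33 (.thr 50 49 (.dbl 2 34 62))))))) (.rp 28 (.thr 35 51 (.thr 41 60 (.thr 40 43 (.thr 44 38 (.thr 32 36 (.thr 37 47 (.dbl 33 34 45))))))) (.rp 25 (.thr 35 51 (.thr 41 60 (.thr 38 44 (.thr 34 46 (.thr 32 33 (.thr 47 37 (.dbl 43 39 40))))))) (.rp 12 (.thr 35 51 (.thr 25 28 (.thr 41 60 (.thr 44 38 (.thr 40 43 (.thr 32 36 (.thr 37 47 (.dbl 33 34 45)))))))) .nd)))))))) .nd))))))))) (.rp 25 (.str 3 (.nv (.thr 2 62 (.thr 1 0 (.dbl 41 60 61))) (.rp 62 (.str 19 (.nv (.thr 35 51 (.thr 41 60 (.thr 61 1 (.thr 38 44 (.thr 34 46 (.thr 32 33 (.thr 47 37 (.dbl 43 39 40)))))))) (.nv (.thr 20 23 (.thr 51 35 (.thr 60 41 (.thr 0 40 (.thr 1 2 (.thr 17 34 (.thr 18 16 (.dbl 33 48 49)))))))) (.nv (.thr 60 41 (.thr 20 23 (.thr 0 40 (.thr 51 35 (.thr 34 17 (.thr 38 46 (.dbl 54 6 57))))))) (.rp 60 (.str 61 (.nv (.thr 20 23 (.thr 35 51 (.thr 41 1 (.thr 43 40 (.thr 39 47 (.thr 38 44 (.thr 36 37 (.dbl 4 52 55)))))))) (.nv (.thr 51 35 (.thr 1 41 (.thr 0 2 (.thr 17 34 (.thr 18 16 (.dbl 33 48 49)))))) (.rp 57 (.thr 51 35 (.thr 23 20 (.thr 31 27 (.thr 26 16 (.thr 18 30 (.thr 48 33 (.thr 50 49 (.thr 34 2 (.dbl 38 14 46))))))))) (.rp 51 (.thr 1 41 (.thr 23 20 (.thr 31 27 (.thr 26 16 (.thr 18 30 (.thr 10 58 (.thr 48 33 (.thr 0 2 (.dbl 15 5 37))))))))) (.rp 49 (.thr 51 35 (.thr 1 41 (.thr 23 20 (.thr 31 27 (.thr 0 2 (.thr 17 34 (.dbl 16 18 26))))))) (.rp 44 (.thr 51 35 (.thr 23 20 (.thr 31 27 (.thr 26 16 (.thr 18 30 (.thr 48 33 (.thr 50 49 (.thr 34 2 (.dbl 38 14 46))))))))) (.rp 41 (.thr 51 35 (.thr 23 20 (.thr 31 27 (.thr 26 16 (.thr 18 30 (.thr 48 33 (.thr 50 49 (.thr 34 2 (.dbl 38 14 46))))))))) (.rp 38 (.thr 51 35 (.thr 23 20 (.thr 31 27 (.thr 26 16 (.thr 18 30 (.thr 48 33 (.thr 49 50 (.thr 53 57 (.dbl 37 5 15))))))))) (.rp 35 (.thr 1 41 (.thr 23 20 (.thr 31 27 (.thr 26 16 (.thr 18 30 (.thr 10 58 (.thr 48 33 (.thr 0 2 (.dbl 15 5 37))))))))) (.rp 1 (.thr 51 35 (.thr 23 20 (.thr 31 27 (.thr 26 16 (.thr 18 30 (.thr 48 33 (.thr 49 50 (.thr 53 57 (.dbl 37 5 15))))))))) .nd))))))))))) (.rp 57 (.thr 35 51 (.thr 23 20 (.thr 31 27 (.thr 26 16 (.thr 18 30 (.thr 33 48 (.thr 32 34 (.thr 37 47 (.dbl 41 45 60))))))))) (.rp 55 (.thr 51 35 (.thr 23 20 (.thr 31 27 (.thr 26 16 (.thr 18 30 (.thr 48 33 (.thr 50 49 (.thr 34 2 (.dbl 38 14 46))))))))) (.rp 51 (.thr 23 20 (.thr 31 27 (.thr 26 16 (.thr 10 58 (.thr 30 18 (.thr 60 41 (.thr 15 45 (.thr 5 0 (.dbl 37 48 53))))))))) (.rp 44 (.thr 35 51 (.thr 23 20 (.thr 31 27 (.thr 26 16 (.thr 18 30 (.thr 33 48 (.thr 32 34 (.thr 37 47 (.dbl 41 45 60))))))))) (.rp 41 (.thr 51 35 (.thr 23 20 (.thr 31 27 (.thr 26 16 (.thr 18 30 (.thr 48 33 (.thr 50 49 (.thr 34 2 (.dbl 38 14 46))))))))) (.rp 40 (.thr 35 51 (.thr 23 20 (.thr 31 27 (.thr 26 16 (.thr 18 30 (.thr 33 48 (.thr 32 34 (.thr 37 47 (.dbl 41 45 60))))))))) (.rp 39 (.thr 35 51 (.thr 41 60 (.thr 61 1 (.thr 38 44 (.thr 34 46 (.thr 33 32 (.thr 18 48 (.thr 50 2 (.dbl 26 14 30))))))))) (.rp 38 (.thr 23 20 (.thr 31 27 (.thr 26 16 (.thr 10 58 (.thr 30 18 (.thr 60 41 (.thr 15 45 (.thr 5 0 (.dbl 37 48 53))))))))) (.rp 35 (.thr 23 20 (.thr 31 27 (.thr 26 16 (.thr 10 58 (.thr 30 18 (.thr 60 41 (.thr 15 45 (.thr 5 0 (.dbl 37 48 53))))))))) (.rp 34 (.thr 35 51 (.thr 41 60 (.thr 61 1 (.thr 43 40 (.thr 47 39 (.thr 37 32 (.thr 45 33 (.dbl 44 38 46)))))))) (.rp 17 (.thr 35 51 (.thr 41 60 (.thr 61 1 (.thr 43 40 (.thr 47 39 (.thr 32 37 (.thr 38 44 (.dbl 34 33 46)))))))) .nd)))))))))))))))) (.rp 61 (.thr 2 62 (.thr 60 41 (.thr 0 1 (.dbl 20 23 40)))) (.rp 60 (.thr 62 2 (.str 26 (.nv (.thr 16 31 (.thr 18 30 (.thr 48 33 (.thr 32 0 (.dbl 37 15 47))))) (.nv (.thr 30 18 (.thr 58 10 (.thr 14 46 (.dbl 50 38 54)))) (.rp 30 (.thr 58 10 (.thr 50 54 (.thr 31 16 (.thr 23 20 (.thr 19 27 (.thr 51 35 (.thr 48 49 (.thr 33 18 (.thr 37 15 (.thr 45 41 (.thr 47 32 (.thr 46 44 (.dbl 38 14 34))))))))))))) (.rp 29 (.thr 30 18 (.thr 58 10 (.thr 50 54 (.dbl 14 38 46)))) (.rp 18 (.str 38 (.nv (.thr 50 14 (.dbl 54 6 58)) (.rp 58 (.thr 6 54 (.thr 4 55 (.thr 12 9 (.thr 0 8 (.thr 16 31 (.thr 48 32 (.thr 15 37 (.dbl 14 13 50)))))))) (.rp 54 (.thr 34 46 (.thr 50 14 (.thr 10 58 (.thr 31 16 (.thr 23 20 (.thr 19 27 (.thr 51 35 (.thr 0 17 (.thr 15 5 (.dbl 48 37 49)))))))))) (.rp 50 (.thr 34 46 (.thr 6 54 (.thr 12 9 (.thr 16 31 (.thr 20 23 (.thr 24 28 (.thr 36 48 (.dbl 4 52 55)))))))) (.rp 14 (.thr 6 54 (.thr 12 9 (.thr 16 31 (.thr 20 23 (.thr 24 28 (.thr 36 48 (.dbl 4 52 55))))))) (.rp 10 (.thr 6 54 (.thr 12 9 (.thr 16 31 (.thr 20 23 (.thr 24 28 (.thr 36 48 (.dbl 4 52 55))))))) (.rp 6 (.thr 34 46 (.thr 31 16 (.thr 23 20 (.thr 19 27 (.thr 35 51 (.thr 32 33 (.thr 47 37 (.thr 41 44 (.dbl 43 39 40))))))))) .nd)))))))) .nd))))))) (.rp 41 (.str 19 (.nv (.thr 2 62 (.thr 0 1 (.thr 51 35 (.thr 34 17 (.thr 38 46 (.thr 4 55 (.thr 6 54 (.dbl 12 8 9)))))))) (.nv (.thr 2 62 (.thr 23 20 (.thr 31 27 (.thr 26 16 (.thr 10 58 (.thr 14 6 (.thr 18 30 (.dbl 50 34 38)))))))) (.nv (.thr 51 35 (.thr 23 20 (.thr 2 62 (.thr 0 1 (.thr 17 34 (.thr 16 18 (.dbl 31 26 27))))))) (.rp 62 (.thr 51 35 (.thr 23 20 (.thr 31 27 (.thr 26 16 (.thr 18 30 (.thr 48 33 (.thr 50 49 (.thr 34 2 (.dbl 38 14 46))))))))) (.rp 61 (.thr 51 35 (.thr 23 20 (.thr 31 27 (.thr 26 16 (.thr 18 30 (.thr 48 33 (.thr 50 49 (.dbl 2 34 62)))))))) (.rp 60 (.thr 51 35 (.thr 23 20 (.thr 31 27 (.thr 26 16 (.thr 18 30 (.thr 48 33 (.thr 50 49 (.dbl 2 34 62)))))))) (.rp 57 (.str 9 (.nv (.thr 2 62 (.thr 23 20 (.thr 31 27 (.thr 26 16 (.thr 10 58 (.dbl 6 12 14)))))) (.nv (.thr 2 62 (.thr 0 1 (.thr 23 20 (.thr 31 27 (.thr 51 35 (.thr 17 34 (.dbl 16 18 26))))))) (.nv (.thr 6 12 (.thr 23 20 (.thr 31 27 (.thr 26 16 (.thr 10 58 (.dbl 2 14 62)))))) (.nv (.thr 2 62 (.thr 0 1 (.thr 6 12 (.thr 38 54 (.thr 51 35 (.dbl 34 17 46)))))) (.rp 62 (.thr 6 12 (.thr 23 20 (.thr 31 27 (.thr 26 16 (.thr 10 58 (.thr 14 2 (.dbl 38 50 54))))))) (.rp 2 (.thr 6 12 (.thr 23 20 (.thr 31 27 (.thr 26 16 (.thr 18 30 (.thr 51 35 (.thr 38 54 (.thr 50 14 (.dbl 48 33 49))))))))) .nd))))))) (.rp 38 (.thr 2 62 (.thr 0 1 (.thr 23 20 (.thr 31 27 (.thr 26 16 (.thr 18 30 (.thr 34 50 (.dbl 51 17 35)))))))) (.rp 34 (.thr 62 2 (.thr 23 20 (.thr 31 27 (.thr 26 16 (.thr 58 10 (.thr 30 18 (.thr 50 54 (.dbl 14 38 46)))))))) (.rp 23 (.thr 51 35 (.thr 2 62 (.thr 0 1 (.thr 34 17 (.thr 18 50 (.thr 26 30 (.thr 16 31 (.dbl 48 32 33)))))))) (.rp 9 (.str 57 (.nv (.thr 2 62 (.thr 0 1 (.thr 51 35 (.thr 34 17 (.thr 38 46 (.dbl 54 6 60)))))) (.nv (.thr 23 20 (.thr 31 27 (.thr 26 16 (.thr 58 10 (.thr 62 2 (.thr 54 50 (.dbl 51 35 60))))))) (.nv (.thr 51 35 (.thr 20 23 (.thr 60 54 (.thr 0 40 (.dbl 2 1 62))))) (.rp 62 (.thr 51 35 (.thr 20 23 (.thr 60 54 (.thr 0 40 (.thr 17 34 (.thr 18 16 (.thr 33 48 (.dbl 1 2 49)))))))) (.rp 60 (.thr 51 35 (.thr 23 20 (.thr 31 27 (.thr 26 16 (.thr 18 30 (.thr 48 33 (.thr 50 49 (.dbl 2 34 62)))))))) (.rp 54 (.thr 51 35 (.thr 23 20 (.thr 2 62 (.thr 0 1 (.thr 17 34 (.thr 16 18 (.dbl 31 26 27))))))) (.rp 51 (.thr 23 20 (.thr 2 62 (.thr 31 27 (.thr 26 16 (.thr 10 58 (.thr 18 30 (.thr 50 34 (.dbl 14 6 38)))))))) (.rp 35 (.thr 23 20 (.thr 2 62 (.thr 31 27 (.thr 26 16 (.thr 10 58 (.thr 18 30 (.thr 50 34 (.dbl 14 6 38)))))))) (.rp 2 (.thr 51 35 (.thr 54 60 (.thr 38 6 (.thr 34 46 (.thr 17 0 (.thr 16 18 (.thr 31 26 (.dbl 23 20 27)))))))) .nd)))))))))) (.rp 2 (.thr 51 35 (.thr 23 20 (.thr 31 27 (.thr 26 16 (.thr 58 10 (.thr 18 30 (.thr 48 33 (.thr 50 49 (.thr 54 62 (.dbl 38 6 14)))))))))) .nd))))))))))))) (.rp 2 (.str 19 (.nv (.thr 35 51 (.thr 41 60 (.thr 43 40 (.thr 47 39 (.thr 37 32 (.thr 45 33 (.dbl 44 38 46))))))) (.nv (.thr 35 51 (.thr 41 60 (.thr 38 44 (.thr 34 46 (.thr 32 33 (.thr 47 37 (.dbl 43 39 40))))))) (.nv (.thr 20 23 (.thr 51 35 (.thr 60 41 (.thr 0 40 (.thr 34 17 (.thr 38 46 (.dbl 54 6 57))))))) (.rp 60 (.thr 51 35 (.thr 23 20 (.thr 31 27 (.thr 26 16 (.thr 10 58 (.thr 18 30 (.thr 48 33 (.thr 15 37 (.thr 0 5 (.thr 34 17 (.thr 38 46 (.dbl 50 14 49)))))))))))) (.rp 57 (.thr 35 51 (.thr 23 20 (.thr 31 27 (.thr 26 16 (.thr 18 30 (.thr 33 48 (.thr 32 34 (.thr 37 47 (.dbl 41 45 60))))))))) (.rp 55 (.thr 23 20 (.thr 31 27 (.thr 26 16 (.thr 10 58 (.thr 30 18 (.thr 60 41 (.thr 15 45 (.thr 5 0 (.dbl 37 48 53))))))))) (.rp 54 (.thr 35 51 (.thr 23 20 (.thr 31 27 (.thr 26 16 (.thr 18 30 (.thr 33 48 (.thr 32 34 (.thr 37 47 (.dbl 41 45 60))))))))) (.rp 51 (.thr 23 20 (.thr 31 27 (.thr 26 16 (.thr 10 58 (.thr 30 18 (.thr 60 41 (.thr 15 45 (.thr 5 0 (.dbl 37 48 53))))))))) (.rp 46 (.thr 35 51 (.thr 23 20 (.thr 31 27 (.thr 26 16 (.thr 18 30 (.thr 33 48 (.thr 32 34 (.thr 37 47 (.dbl 41 45 60))))))))) (.rp 44 (.thr 35 51 (.thr 23 20 (.thr 31 27 (.thr 26 16 (.thr 18 30 (.thr 33 48 (.thr 32 34 (.thr 37 47 (.dbl 41 45 60))))))))) (.rp 41 (.thr 51 35 (.thr 23 20 (.thr 31 27 (.thr 26 16 (.thr 58 10 (.thr 18 30 (.thr 48 33 (.thr 50 49 (.thr 54 62 (.dbl 38 6 14)))))))))) (.rp 40 (.thr 35 51 (.thr 23 20 (.thr 31 27 (.thr 26 16 (.thr 18 30 (.thr 33 48 (.thr 32 34 (.thr 37 47 (.dbl 41 45 60))))))))) (.rp 39 (.thr 35 51 (.thr 41 60 (.thr 38 44 (.thr 34 46 (.thr 33 32 (.thr 18 48 (.thr 26 30 (.dbl 16 17 31)))))))) (.rp 38 (.thr 23 20 (.thr 31 27 (.thr 26 16 (.thr 10 58 (.thr 30 18 (.thr 60 41 (.thr 15 45 (.thr 5 0 (.dbl 37 48 53))))))))) (.rp 35 (.thr 23 20 (.thr 31 27 (.thr 26 16 (.thr 10 58 (.thr 30 18 (.thr 60 41 (.thr 15 45 (.thr 5 0 (.dbl 37 48 53))))))))) (.rp 12 (.thr 23 20 (.thr 31 27 (.thr 26 16 (.thr 10 58 (.thr 30 18 (.thr 60 41 (.thr 15 45 (.thr 5 0 (.dbl 37 48 53))))))))) .nd))))))))))))))))) (.rp 1 (.str 19 (.nv (.thr 20 23 (.thr 51 35 (.thr 60 41 (.thr 0 40 (.thr 34 17 (.thr 38 46 (.dbl 54 6 57))))))) (.nv (.thr 2 62 (.thr 23 20 (.thr 31 27 (.thr 26 16 (.thr 18 30 (.thr 48 33 (.thr 50 34 (.dbl 51 35 49)))))))) (.nv (.thr 35 51 (.thr 41 60 (.thr 38 44 (.thr 34 46 (.thr 32 33 (.thr 47 37 (.dbl 43 39 40))))))) (.nv (.thr 23 20 (.thr 31 27 (.thr 26 16 (.thr 30 18 (.thr 58 10 (.thr 62 2 (.thr 50 54 (.dbl 14 38 46)))))))) (.rp 46 (.thr 51 35 (.thr 62 2 (.thr 23 20 (.thr 31 27 (.thr 26 16 (.thr 58 10 (.thr 54 50 (.dbl 60 41 57)))))))) .nd)))))) (.rp 0 (.str 6 (.nv (.thr 2 62 (.thr 60 41 (.thr 14 10 (.thr 38 54 (.thr 50 26 (.dbl 34 18 46)))))) (.nv (.thr 2 62 (.thr 10 14 (.thr 26 58 (.thr 41 60 (.thr 61 1 (.thr 11 56 (.dbl 9 8 12))))))) (.nv (.thr 38 54 (.thr 34 46 (.thr 2 62 (.thr 50 18 (.dbl 14 10 26))))) (.rp 62 (.thr 38 54 (.thr 34 46 (.thr 41 60 (.thr 61 1 (.thr 35 44 (.thr 32 33 (.thr 47 37 (.dbl 43 39 40)))))))) (.rp 60 (.thr 54 38 (.thr 62 2 (.thr 58 50 (.thr 26 10 (.thr 18 30 (.thr 12 9 (.thr 16 31 (.thr 20 23 (.thr 48 33 (.dbl 24 28 36)))))))))) (.rp 54 (.thr 62 2 (.thr 9 12 (.thr 41 60 (.thr 1 61 (.thr 5 13 (.thr 37 53 (.thr 32 47 (.thr 40 43 (.thr 44 36 (.thr 35 38 (.thr 51 19 (.dbl 33 34 45)))))))))))) (.rp 50 (.thr 38 54 (.thr 34 46 (.thr 41 60 (.thr 35 44 (.thr 32 33 (.thr 47 37 (.dbl 43 39 40))))))) (.rp 46 (.thr 38 54 (.thr 4 55 (.thr 41 60 (.thr 40 43 (.thr 44 35 (.thr 36 32 (.dbl 20 23 52))))))) (.rp 26 (.thr 38 54 (.thr 34 46 (.thr 41 60 (.thr 35 44 (.thr 32 33 (.thr 47 37 (.dbl 43 39 40))))))) (.rp 14 (.thr 38 54 (.thr 34 46 (.thr 41 60 (.thr 35 44 (.thr 32 33 (.thr 47 37 (.dbl 43 39 40))))))) (.rp 10 (.thr 38 54 (.thr 34 46 (.thr 41 60 (.thr 35 44 (.thr 32 33 (.thr 47 37 (.dbl 43 39 40))))))) (.rp 2 (.thr 38 54 (.thr 34 46 (.thr 41 60 (.thr 35 44 (.thr 32 33 (.thr 47 37 (.dbl 43 39 40))))))) .nd))))))))))))) .nd))))))))) (.rp 24 (.str 26 (.nv (.thr 30 18 (.thr 23 20 (.thr 31 16 (.thr 28 29 (.dbl 19 25 27))))) (.nv (.thr 30 18 (.thr 58 10 (.thr 62 2 (.thr 50 54 (.dbl 14 38 46))))) (.rp 46 (.thr 18 30 (.thr 10 58 (.thr 2 62 (.thr 14 6 (.dbl 50 34 38))))) (.rp 30 (.str 60 (.nv (.thr 2 62 (.thr 3 41 (.thr 0 1 (.dbl 20 23 40)))) (.nv (.thr 20 23 (.thr 40 0 (.dbl 41 3 43))) (.rp 41 (.thr 10 58 (.thr 16 31 (.thr 20 23 (.thr 0 40 (.thr 48 32 (.dbl 15 5 37)))))) (.rp 40 (.thr 58 10 (.thr 62 2 (.thr 54 50 (.thr 57 51 (.thr 41 3 (.dbl 56 11 59)))))) (.rp 23 (.thr 10 58 (.thr 41 3 (.thr 43 40 (.thr 11 56 (.thr 8 9 (.dbl 59 25 27)))))) (.rp 20 (.thr 58 10 (.thr 62 2 (.thr 54 50 (.thr 57 51 (.thr 41 3 (.dbl 56 11 59)))))) (.rp 3 (.thr 10 58 (.thr 2 62 (.thr 14 6 (.thr 50 38 (.thr 18 34 (.thr 16 31 (.thr 19 17 (.thr 28 25 (.thr 12 44 (.thr 15 13 (.thr 48 37 (.thr 49 51 (.dbl 0 5 32))))))))))))) (.rp 0 (.thr 10 58 (.thr 41 3 (.thr 43 40 (.thr 11 56 (.thr 8 9 (.dbl 59 25 27)))))) .nd))))))))) (.rp 18 (.str 15 (.nv (.thr 10 58 (.thr 5 0 (.dbl 37 48 53))) (.rp 58 (.thr 20 23 (.thr 16 31 (.thr 2 62 (.thr 48 37 (.thr 0 32 (.thr 3 1 (.dbl 60 40 41))))))) (.rp 53 (.thr 16 31 (.thr 10 58 (.thr 48 37 (.dbl 0 5 32)))) (.rp 48 (.thr 20 23 (.thr 62 2 (.thr 58 10 (.thr 50 54 (.thr 14 38 (.thr 30 46 (.thr 60 45 (.thr 40 0 (.dbl 41 3 43))))))))) (.rp 37 (.thr 20 23 (.thr 2 62 (.thr 10 58 (.thr 0 5 (.thr 3 1 (.dbl 60 40 41)))))) (.rp 10 (.thr 20 23 (.thr 16 31 (.thr 2 62 (.thr 48 37 (.thr 0 32 (.thr 3 1 (.dbl 60 40 41))))))) (.rp 5 (.thr 20 23 (.thr 16 31 (.thr 2 62 (.thr 48 37 (.thr 0 32 (.thr 3 1 (.dbl 60 40 41))))))) (.rp 0 (.thr 23 20 (.thr 62 2 (.thr 58 10 (.thr 50 54 (.thr 48 37 (.thr 51 49 (.thr 27 39 (.dbl 31 16 19)))))))) .nd))))))))) .nd)))))) (.rp 23 (.str 3 (.nv (.thr 2 62 (.thr 1 0 (.dbl 41 60 61))) (.rp 62 (.thr 41 60 (.thr 61 1 (.str 59 (.nv (.thr 25 8 (.thr 9 57 (.thr 12 6 (.thr 19 28 (.dbl 51 35 38))))) (.nv (.thr 40 43 (.thr 8 25 (.thr 56 24 (.thr 26 11 (.dbl 58 10 57))))) (.rp 57 (.thr 43 40 (.thr 11 27 (.thr 26 56 (.thr 10 58 (.dbl 8 9 25))))) (.rp 55 (.str 39 (.nv (.thr 43 40 (.thr 35 47 (.thr 51 19 (.dbl 27 11 15)))) (.nv (.thr 25 8 (.thr 9 57 (.thr 12 6 (.thr 19 28 (.dbl 51 35 38))))) (.nv (.thr 8 25 (.thr 40 43 (.thr 56 24 (.thr 26 11 (.dbl 58 10 57))))) .nd)))) (.rp 39 (.str 55 (.nv (.thr 8 25 (.thr 40 43 (.thr 56 24 (.thr 26 11 (.dbl 58 10 57))))) (.nv (.thr 25 8 (.thr 9 57 (.thr 38 4 (.dbl 6 12 54)))) (.rp 57 (.thr 25 8 (.thr 19 28 (.thr 51 35 (.dbl 38 4 12)))) (.rp 25 (.thr 40 43 (.thr 38 4 (.thr 46 34 (.thr 44 35 (.thr 47 45 (.dbl 32 36 37)))))) (.rp 8 (.thr 38 4 (.thr 6 54 (.thr 35 44 (.thr 51 19 (.dbl 12 9 25))))) .nd)))))) (.rp 25 (.thr 43 40 (.thr 11 27 (.thr 26 56 (.thr 18 30 (.thr 10 58 (.thr 48 33 (.thr 15 37 (.thr 0 5 (.dbl 16 31 32))))))))) (.rp 8 (.thr 43 40 (.thr 11 27 (.thr 56 26 (.thr 57 58 (.thr 25 9 (.thr 29 17 (.thr 13 45 (.dbl 49 37 53)))))))) .nd)))))))))) (.rp 61 (.str 19 (.nv (.thr 2 62 (.thr 60 41 (.thr 0 1 (.thr 51 35 (.thr 34 17 (.thr 54 57 (.dbl 38 6 46))))))) (.nv (.thr 2 62 (.thr 60 41 (.thr 1 0 (.thr 25 28 (.thr 17 29 (.thr 18 16 (.dbl 33 48 49))))))) (.nv (.thr 60 41 (.thr 25 28 (.thr 51 35 (.thr 38 12 (.dbl 54 6 57))))) (.rp 60 (.thr 62 2 (.thr 51 35 (.thr 25 28 (.thr 17 29 (.thr 34 0 (.dbl 38 12 46)))))) (.rp 55 (.str 39 (.nv (.thr 25 28 (.thr 17 29 (.thr 18 16 (.thr 33 48 (.thr 1 49 (.dbl 2 0 62)))))) (.nv (.thr 51 35 (.thr 25 28 (.thr 12 38 (.thr 9 6 (.dbl 41 57 60))))) (.nv (.thr 62 2 (.thr 41 60 (.thr 43 40 (.dbl 35 47 51)))) (.rp 62 (.thr 60 41 (.thr 51 35 (.thr 25 28 (.thr 38 12 (.dbl 54 6 57))))) (.rp 60 (.thr 62 2 (.thr 51 35 (.thr 25 28 (.thr 17 29 (.thr 34 0 (.dbl 38 12 46)))))) (.rp 51 (.str 59 (.nv (.dbl 25 8 28) (.rp 62 (.thr 60 41 (.dbl 25 8 28)) (.rp 60 (.thr 62 2 (.dbl 25 8 28)) (.rp 28 (.thr 2 62 (.thr 60 41 (.thr 1 0 (.thr 25 8 (.thr 17 29 (.thr 33 49 (.dbl 18 16 48))))))) (.rp 25 (.thr 62 2 (.thr 41 60 (.thr 43 40 (.thr 11 27 (.thr 26 56 (.thr 18 30 (.dbl 16 17 31))))))) (.rp 8 (.thr 2 62 (.thr 60 41 (.thr 1 0 (.thr 25 28 (.thr 17 29 (.thr 33 49 (.dbl 18 16 48))))))) .nd))))))) .nd))))))) (.rp 46 (.thr 51 35 (.thr 25 28 (.thr 12 38 (.thr 9 6 (.dbl 41 57 60))))) (.rp 41 (.thr 51 35 (.thr 25 28 (.thr 17 29 (.thr 34 0 (.dbl 38 12 46))))) (.rp 39 (.str 55 (.nv (.thr 4 38 (.thr 25 28 (.thr 8 59 (.thr 0 12 (.dbl 2 1 62))))) (.nv (.thr 25 28 (.thr 17 29 (.thr 51 35 (.thr 0 34 (.dbl 2 1 62))))) (.nv (.thr 35 51 (.thr 38 4 (.dbl 41 44 60))) (.nv (.thr 51 35 (.thr 25 28 (.dbl 38 4 12))) (.rp 62 (.thr 60 41 (.thr 51 35 (.thr 38 4 (.dbl 54 6 57)))) (.rp 60 (.thr 62 2 (.thr 51 35 (.thr 38 4 (.dbl 25 12 28)))) .nd))))))) (.rp 25 (.thr 51 35 (.thr 2 62 (.thr 60 41 (.thr 0 1 (.thr 34 17 (.thr 38 46 (.dbl 54 6 57))))))) .nd)))))))))) (.rp 60 (.thr 62 2 (.str 38 (.nv (.thr 6 54 (.thr 12 9 (.thr 34 46 (.thr 51 25 (.thr 0 17 (.dbl 4 8 55)))))) (.nv (.thr 46 34 (.thr 14 30 (.thr 50 26 (.dbl 54 6 58)))) (.rp 55 (.str 39 (.nv (.thr 37 36 (.thr 46 34 (.thr 47 32 (.thr 35 43 (.dbl 44 41 45))))) (.nv (.thr 6 54 (.thr 12 9 (.thr 37 36 (.thr 47 32 (.thr 35 43 (.dbl 51 19 25)))))) (.nv (.thr 46 34 (.thr 14 30 (.thr 50 26 (.dbl 54 6 58)))) (.rp 59 (.str 51 (.nv (.thr 6 54 (.dbl 12 9 25)) (.nv (.thr 35 19 (.thr 37 36 (.dbl 47 32 43))) (.nv (.thr 19 35 (.dbl 25 12 28)) .nd)))) (.rp 51 (.str 59 (.nv (.thr 25 8 (.thr 37 36 (.thr 5 53 (.thr 13 49 (.thr 9 1 (.dbl 6 12 54)))))) (.nv (.thr 37 36 (.thr 47 32 (.thr 35 43 (.thr 44 41 (.dbl 46 34 45))))) (.nv (.thr 54 6 (.thr 50 58 (.thr 14 26 (.dbl 46 30 34)))) (.rp 54 (.str 57 (.nv (.thr 58 56 (.thr 26 10 (.thr 30 18 (.dbl 46 14 34)))) (.nv (.thr 25 8 (.thr 37 36 (.thr 49 13 (.dbl 53 5 61)))) (.rp 53 (.str 52 (.nv (.thr 25 8 (.thr 37 36 (.thr 47 32 (.thr 35 43 (.dbl 41 9 44))))) (.nv (.thr 58 56 (.thr 26 10 (.thr 30 18 (.dbl 14 46 50)))) (.rp 58 (.str 48 (.nv (.thr 25 8 (.thr 41 9 (.thr 35 44 (.dbl 43 40 47)))) (.nv (.thr 37 36 (.thr 18 33 (.dbl 26 15 30))) .nd))) .nd)))) (.rp 52 (.str 53 (.nv (.thr 25 8 (.thr 41 9 (.dbl 61 1 49))) (.nv (.dbl 37 5 36) (.rp 56 (.str 48 (.nv (.thr 18 33 (.thr 30 26 (.dbl 46 14 34))) (.nv (.dbl 37 5 36) .nd))) (.rp 48 (.thr 56 58 (.dbl 37 5 36)) .nd))))) .nd))))) .nd))))) .nd)))))) (.rp 54 (.thr 55 4 (.str 51 (.nv (.thr 34 46 (.thr 17 0 (.dbl 25 12 29))) (.nv (.thr 19 35 (.dbl 25 12 28)) (.rp 25 (.thr 35 19 (.thr 34 46 (.thr 17 0 (.thr 33 32 (.thr 1 49 (.dbl 41 44 61)))))) (.rp 12 (.thr 19 35 (.thr 46 34 (.thr 30 14 (.thr 18 26 (.thr 17 16 (.dbl 25 28 29)))))) (.rp 6 (.str 5 (.nv (.thr 34 46 (.thr 17 0 (.dbl 25 12 29))) (.nv (.thr 35 19 (.thr 37 53 (.thr 32 47 (.dbl 34 33 46)))) (.nv (.thr 19 35 (.dbl 25 12 28)) (.rp 14 (.str 10 (.nv (.thr 37 53 (.thr 39 36 (.dbl 15 0 27))) (.nv (.thr 19 35 (.dbl 25 12 28)) .nd))) (.rp 10 (.str 14 (.nv (.thr 19 35 (.dbl 25 12 28)) (.nv (.dbl 46 30 34) .nd))) .nd)))))) (.rp 5 (.str 6 (.nv (.dbl 12 9 25) (.rp 25 (.thr 35 19 (.thr 34 46 (.thr 17 0 (.thr 33 32 (.thr 1 49 (.dbl 41 44 61)))))) (.rp 12 (.thr 19 35 (.thr 46 34 (.thr 30 14 (.thr 18 26 (.thr 17 16 (.dbl 25 28 29)))))) (.rp 9 (.thr 19 35 (.dbl 25 12 28)) .nd))))) .nd)))))))) (.rp 46 (.thr 6 54 (.thr 55 4 (.thr 12 9 (.thr 51 25 (.thr 35 19 (.thr 41 44 (.thr 1 61 (.thr 43 40 (.thr 47 39 (.thr 32 37 (.thr 33 34 (.thr 49 17 (.dbl 48 18 50))))))))))))) (.rp 39 (.thr 55 4 (.thr 46 34 (.thr 14 30 (.thr 50 26 (.dbl 54 6 58))))) (.rp 34 (.thr 6 54 (.thr 12 9 (.thr 51 25 (.thr 35 19 (.thr 41 44 (.thr 43 40 (.thr 39 47 (.thr 36 37 (.thr 48 24 (.thr 18 33 (.thr 26 30 (.dbl 50 14 49)))))))))))) (.rp 6 (.thr 55 4 (.str 5 (.nv (.thr 34 46 (.thr 37 53 (.thr 36 39 (.thr 32 47 (.thr 44 40 (.dbl 35 33 41)))))) (.nv (.thr 46 34 (.thr 14 30 (.thr 50 26 (.thr 54 58 (.dbl 53 37 52))))) (.rp 58 (.thr 46 34 (.thr 14 30 (.thr 37 53 (.str 48 (.nv (.dbl 26 15 50) (.rp 50 (.thr 18 33 (.thr 36 39 (.thr 15 26 (.dbl 12 13 24)))) (.rp 45 (.thr 15 26 (.thr 36 39 (.dbl 12 13 24))) (.rp 26 (.thr 47 32 (.thr 45 44 (.dbl 33 18 41))) (.rp 18 (.thr 50 26 (.thr 36 39 (.thr 51 49 (.dbl 12 24 25)))) (.rp 15 (.str 45 (.nv (.dbl 33 18 41) (.nv (.dbl 47 32 44) (.rp 50 (.thr 18 33 (.dbl 47 32 44)) (.rp 47 (.str 31 (.nv (.dbl 26 16 50) (.nv (.dbl 33 18 41) (.rp 50 (.thr 18 33 (.thr 16 26 (.thr 19 17 (.thr 25 28 (.dbl 51 12 35))))) (.rp 18 (.thr 50 26 (.thr 36 39 (.thr 51 49 (.dbl 12 24 25)))) .nd))))) (.rp 18 (.thr 50 26 (.dbl 47 32 44)) .nd)))))) .nd)))))))))) (.rp 53 (.str 10 (.nv (.thr 15 0 (.thr 26 58 (.thr 48 37 (.dbl 18 30 33)))) (.nv (.thr 0 15 (.thr 34 46 (.thr 51 17 (.thr 19 35 (.dbl 25 12 28))))) (.nv (.thr 46 34 (.thr 30 14 (.dbl 26 18 58))) (.rp 58 (.str 48 (.nv (.thr 18 33 (.thr 30 26 (.dbl 46 14 34))) (.nv (.thr 0 15 (.thr 34 46 (.thr 51 17 (.thr 19 35 (.dbl 25 12 28))))) (.nv (.thr 18 33 (.thr 26 30 (.dbl 15 0 37))) (.rp 30 (.thr 34 46 (.thr 33 18 (.thr 32 35 (.dbl 0 15 16)))) .nd))))) (.rp 48 (.thr 58 26 (.thr 46 34 (.thr 14 30 (.thr 15 0 (.thr 12 13 (.thr 51 25 (.thr 35 19 (.thr 44 41 (.thr 47 45 (.dbl 39 27 43)))))))))) (.rp 30 (.thr 15 0 (.thr 26 58 (.thr 48 37 (.thr 14 50 (.thr 12 13 (.thr 25 51 (.dbl 24 27 36))))))) .nd))))))) (.rp 46 (.thr 37 53 (.thr 47 32 (.thr 39 36 (.thr 35 43 (.thr 19 51 (.thr 25 28 (.thr 13 49 (.thr 1 9 (.dbl 41 44 61))))))))) (.rp 37 (.str 14 (.nv (.dbl 46 30 34) (.rp 46 (.thr 26 50 (.thr 18 30 (.thr 10 58 (.thr 16 31 (.thr 48 33 (.dbl 0 15 32)))))) (.rp 34 (.thr 30 46 (.dbl 26 18 50)) (.rp 30 (.thr 26 50 (.thr 10 58 (.thr 15 0 (.thr 12 13 (.thr 25 51 (.thr 8 59 (.thr 11 9 (.thr 24 27 (.dbl 56 40 41))))))))) .nd))))) (.rp 34 (.thr 37 53 (.thr 47 32 (.thr 39 36 (.thr 35 43 (.thr 19 51 (.thr 25 28 (.thr 13 49 (.thr 1 9 (.dbl 41 44 61))))))))) (.rp 15 (.thr 46 34 (.thr 53 37 (.thr 54 52 (.thr 50 58 (.dbl 14 26 30))))) (.rp 14 (.str 10 (.nv (.thr 0 15 (.thr 34 46 (.thr 51 17 (.thr 19 35 (.dbl 25 12 28))))) (.nv (.thr 53 37 (.thr 58 26 (.dbl 54 50 52))) (.rp 15 (.thr 58 26 (.thr 54 50 (.dbl 53 37 52))) .nd)))) (.rp 10 (.str 14 (.nv (.thr 50 26 (.thr 53 37 (.dbl 54 52 58))) (.nv (.dbl 46 30 34) .nd))) .nd)))))))))))) .nd)))))))))) (.rp 55 (.str 39 (.nv (.thr 2 62 (.thr 1 0 (.dbl 41 60 61))) (.rp 62 (.thr 41 60 (.thr 61 1 (.thr 43 40 (.thr 35 47 (.thr 51 19 (.thr 38 44 (.thr 6 54 (.dbl 12 9 25)))))))) (.rp 61 (.thr 62 2 (.thr 41 60 (.thr 43 40 (.thr 35 47 (.thr 51 19 (.thr 38 44 (.thr 6 54 (.dbl 12 9 25)))))))) (.rp 60 (.thr 62 2 (.str 38 (.nv (.thr 37 36 (.thr 46 34 (.thr 47 32 (.thr 35 43 (.dbl 44 41 45))))) (.nv (.thr 6 54 (.thr 12 9 (.thr 37 36 (.thr 47 32 (.thr 35 43 (.dbl 51 19 25)))))) (.nv (.thr 46 34 (.thr 14 30 (.thr 50 26 (.dbl 54 6 58)))) (.rp 59 (.str 51 (.nv (.thr 6 54 (.dbl 12 9 25)) (.nv (.thr 35 19 (.thr 37 36 (.dbl 47 32 43))) (.nv (.thr 19 35 (.dbl 25 12 28)) .nd)))) (.rp 51 (.str 59 (.nv (.thr 25 8 (.thr 37 36 (.thr 5 53 (.thr 13 49 (.thr 9 1 (.dbl 6 12 54)))))) (.nv (.thr 37 36 (.thr 47 32 (.thr 35 43 (.thr 44 41 (.dbl 46 34 45))))) (.nv (.thr 54 6 (.thr 50 58 (.thr 14 26 (.dbl 46 30 34)))) (.rp 54 (.str 57 (.nv (.thr 58 56 (.thr 26 10 (.thr 30 18 (.dbl 46 14 34)))) (.nv (.thr 25 8 (.thr 37 36 (.thr 49 13 (.dbl 53 5 61)))) (.rp 53 (.str 52 (.nv (.thr 25 8 (.thr 37 36 (.thr 47 32 (.thr 35 43 (.dbl 41 9 44))))) (.nv (.thr 58 56 (.thr 26 10 (.thr 30 18 (.dbl 14 46 50)))) (.rp 58 (.str 48 (.nv (.thr 25 8 (.thr 41 9 (.thr 35 44 (.dbl 43 40 47)))) (.nv (.thr 37 36 (.thr 18 33 (.dbl 26 15 30))) .nd))) .nd)))) (.rp 52 (.str 53 (.nv (.thr 25 8 (.thr 41 9 (.dbl 61 1 49))) (.nv (.dbl 37 5 36) (.rp 56 (.str 48 (.nv (.thr 18 33 (.thr 30 26 (.dbl 46 14 34))) (.nv (.dbl 37 5 36) .nd))) (.rp 48 (.thr 56 58 (.dbl 37 5 36)) .nd))))) .nd))))) .nd))))) .nd))))))) (.rp 59 (.str 51 (.nv (.thr 19 35 (.thr 25 28 (.thr 17 29 (.thr 34 0 (.dbl 38 12 46))))) (.nv (.thr 2 62 (.thr 1 0 (.dbl 41 60 61))) (.rp 0 (.thr 35 19 (.thr 43 47 (.dbl 41 40 60))) .nd)))) (.rp 51 (.str 59 (.nv (.thr 2 62 (.thr 1 0 (.dbl 41 60 61))) (.rp 62 (.thr 25 8 (.thr 29 17 (.thr 41 60 (.thr 61 1 (.thr 57 9 (.thr 49 53 (.dbl 13 37 45))))))) (.rp 61 (.thr 62 2 (.thr 25 8 (.thr 41 60 (.thr 57 9 (.thr 43 40 (.thr 11 27 (.dbl 56 26 58))))))) (.rp 60 (.thr 25 8 (.thr 17 29 (.thr 19 28 (.thr 18 16 (.thr 33 48 (.thr 49 1 (.thr 37 13 (.thr 32 47 (.thr 34 35 (.dbl 2 50 62)))))))))) (.rp 41 (.thr 2 62 (.thr 1 0 (.thr 25 8 (.thr 17 29 (.thr 33 49 (.thr 19 28 (.dbl 18 16 48))))))) (.rp 34 (.thr 2 62 (.thr 25 8 (.thr 17 29 (.thr 1 0 (.dbl 41 60 61))))) (.rp 17 (.thr 25 8 (.thr 41 60 (.thr 57 9 (.thr 43 40 (.thr 11 27 (.dbl 56 26 58)))))) (.rp 2 (.thr 25 8 (.thr 41 60 (.thr 57 9 (.thr 43 40 (.thr 11 27 (.dbl 56 26 58)))))) (.rp 1 (.thr 25 8 (.thr 41 60 (.thr 57 9 (.thr 43 40 (.thr 11 27 (.dbl 56 26 58)))))) (.rp 0 (.thr 25 8 (.thr 41 60 (.thr 57 9 (.thr 56 58 (.thr 11 26 (.dbl 43 27 40)))))) .nd))))))))))) (.rp 41 (.str 51 (.nv (.thr 2 62 (.thr 0 1 (.thr 17 34 (.thr 25 29 (.thr 8 59 (.dbl 12 4 38)))))) (.nv (.thr 2 62 (.thr 0 1 (.thr 15 27 (.thr 5 10 (.thr 37 53 (.thr 32 47 (.dbl 48 16 26))))))) (.nv (.thr 19 35 (.thr 25 28 (.thr 17 29 (.thr 34 0 (.dbl 38 12 46))))) (.rp 0 (.thr 19 35 (.thr 27 15 (.thr 25 28 (.thr 17 29 (.thr 18 16 (.dbl 26 24 30)))))) .nd))))) (.rp 2 (.thr 41 60 (.thr 43 40 (.thr 35 47 (.thr 51 19 (.thr 38 44 (.thr 6 54 (.dbl 12 9 25))))))) (.rp 1 (.thr 41 60 (.thr 43 40 (.thr 35 47 (.thr 51 19 (.thr 38 44 (.thr 6 54 (.dbl 12 9 25))))))) (.rp 0 (.str 51 (.nv (.thr 19 35 (.thr 25 28 (.thr 12 38 (.thr 9 6 (.dbl 41 57 60))))) (.nv (.thr 35 19 (.thr 43 47 (.dbl 41 40 60))) (.rp 60 (.thr 19 35 (.thr 27 15 (.thr 25 28 (.thr 17 29 (.thr 18 16 (.dbl 26 24 30)))))) (.rp 41 (.thr 19 35 (.thr 27 15 (.thr 25 28 (.thr 17 29 (.thr 18 16 (.dbl 26 24 30)))))) (.rp 35 (.thr 15 27 (.thr 2 62 (.thr 60 41 (.thr 30 45 (.thr 18 26 (.thr 50 34 (.dbl 48 33 49))))))) (.rp 19 (.thr 62 2 (.thr 60 41 (.thr 54 57 (.thr 38 6 (.thr 46 34 (.thr 50 58 (.dbl 14 26 30))))))) .nd))))))) .nd))))))))))) (.rp 41 (.str 51 (.nv (.thr 2 62 (.thr 0 1 (.thr 19 35 (.thr 25 28 (.thr 8 59 (.dbl 12 4 38)))))) (.nv (.thr 2 62 (.thr 0 1 (.thr 17 34 (.thr 25 29 (.thr 8 59 (.dbl 12 4 38)))))) (.nv (.thr 2 62 (.thr 0 1 (.thr 34 17 (.thr 18 50 (.thr 33 48 (.dbl 35 19 32)))))) (.nv (.thr 19 35 (.thr 25 28 (.thr 17 29 (.thr 34 0 (.dbl 38 12 46))))) (.rp 55 (.str 39 (.nv (.thr 2 62 (.thr 0 1 (.thr 17 34 (.thr 25 29 (.thr 8 59 (.dbl 12 4 38)))))) (.nv (.thr 2 62 (.thr 0 1 (.thr 15 27 (.thr 5 10 (.thr 37 53 (.thr 32 47 (.dbl 48 16 26))))))) (.nv (.thr 19 35 (.thr 25 28 (.thr 17 29 (.thr 34 0 (.dbl 38 12 46))))) (.rp 0 (.thr 19 35 (.thr 27 15 (.thr 25 28 (.thr 17 29 (.thr 18 16 (.dbl 26 24 30)))))) .nd))))) (.rp 39 (.str 55 (.nv (.thr 2 62 (.thr 0 1 (.thr 34 17 (.dbl 38 4 46)))) (.nv (.thr 2 62 (.thr 0 1 (.thr 17 34 (.thr 25 29 (.dbl 19 28 35))))) (.nv (.thr 38 4 (.thr 6 54 (.dbl 12 9 25))) .nd)))) (.rp 0 (.thr 19 35 (.thr 2 62 (.thr 25 28 (.thr 17 29 (.thr 18 16 (.thr 34 50 (.dbl 38 12 46))))))) .nd)))))))) (.rp 39 (.str 55 (.nv (.thr 2 62 (.thr 1 0 (.dbl 41 60 61))) (.rp 62 (.thr 38 4 (.thr 6 54 (.thr 12 9 (.thr 51 25 (.thr 35 19 (.dbl 41 44 60)))))) (.rp 61 (.thr 62 2 (.thr 38 4 (.thr 46 34 (.thr 14 30 (.thr 50 26 (.dbl 54 6 58)))))) (.rp 60 (.thr 62 2 (.thr 38 4 (.thr 46 34 (.thr 14 30 (.thr 50 26 (.dbl 54 6 58)))))) (.rp 41 (.thr 2 62 (.thr 38 4 (.thr 6 54 (.thr 14 10 (.thr 50 26 (.dbl 34 18 46)))))) (.rp 2 (.thr 38 4 (.thr 6 54 (.thr 12 9 (.thr 51 25 (.thr 35 19 (.dbl 41 44 60)))))) (.rp 1 (.thr 2 62 (.thr 38 4 (.thr 6 54 (.thr 14 10 (.thr 50 26 (.dbl 34 18 46)))))) (.rp 0 (.thr 2 62 (.thr 38 4 (.thr 6 54 (.thr 14 10 (.thr 50 26 (.dbl 34 18 46)))))) .nd))))))))) (.rp 2 (.str 19 (.nv (.thr 51 35 (.thr 25 28 (.thr 17 29 (.thr 34 0 (.dbl 38 12 46))))) (.nv (.thr 25 28 (.thr 17 29 (.thr 18 16 (.thr 33 48 (.thr 41 60 (.dbl 1 49 61)))))) (.nv (.thr 25 28 (.thr 51 35 (.thr 60 41 (.thr 54 57 (.dbl 38 6 12))))) (.rp 55 (.str 39 (.nv (.thr 51 35 (.thr 25 28 (.thr 17 29 (.thr 34 0 (.dbl 38 12 46))))) (.nv (.thr 41 60 (.thr 43 40 (.dbl 35 47 51))) (.rp 51 (.str 59 (.nv (.dbl 25 8 28) (.rp 28 (.thr 25 8 (.thr 17 29 (.thr 18 16 (.thr 33 48 (.thr 41 60 (.dbl 1 49 61)))))) (.rp 25 (.thr 41 60 (.thr 43 40 (.thr 11 27 (.thr 26 56 (.thr 18 30 (.dbl 16 17 31)))))) (.rp 8 (.thr 25 28 (.thr 17 29 (.thr 18 16 (.thr 33 48 (.thr 41 60 (.dbl 1 49 61)))))) .nd))))) (.rp 35 (.thr 25 28 (.thr 17 29 (.thr 18 16 (.thr 33 48 (.thr 1 49 (.dbl 41 60 61)))))) (.rp 0 (.thr 51 35 (.thr 25 28 (.thr 38 12 (.thr 54 6 (.dbl 60 41 57))))) .nd)))))) (.rp 39 (.str 55 (.nv (.thr 25 28 (.thr 38 4 (.thr 6 54 (.thr 9 12 (.dbl 41 57 60))))) (.nv (.thr 35 51 (.thr 38 4 (.dbl 41 44 60))) (.nv (.thr 51 35 (.thr 25 28 (.dbl 38 4 12))) (.rp 38 (.thr 25 28 (.thr 17 29 (.thr 18 16 (.thr 33 48 (.thr 1 49 (.dbl 41 60 61)))))) (.rp 4 (.thr 51 35 (.thr 25 28 (.thr 17 29 (.thr 34 0 (.dbl 38 12 46))))) .nd)))))) (.rp 28 (.thr 35 51 (.thr 41 60 (.thr 40 43 (.thr 44 38 (.thr 32 36 (.thr 33 34 (.dbl 37 45 47))))))) (.rp 25 (.thr 35 51 (.thr 41 60 (.thr 43 40 (.thr 38 44 (.thr 34 46 (.thr 32 33 (.dbl 47 37 39))))))) (.rp 12 (.thr 35 51 (.thr 25 28 (.thr 41 60 (.thr 44 38 (.thr 40 43 (.thr 32 36 (.thr 33 34 (.dbl 37 45 47)))))))) .nd))))))))) (.rp 1 (.thr 60 41 (.thr 62 2 (.str 38 (.nv (.thr 46 34 (.thr 14 30 (.thr 50 26 (.dbl 54 6 58)))) (.nv (.thr 55 4 (.thr 6 54 (.thr 12 9 (.thr 25 51 (.dbl 28 19 44))))) (.rp 55 (.str 39 (.nv (.thr 37 36 (.thr 47 32 (.thr 35 43 (.thr 51 19 (.dbl 54 6 57))))) (.nv (.thr 46 34 (.thr 54 6 (.thr 14 30 (.dbl 50 26 58)))) (.rp 59 (.str 51 (.nv (.thr 19 35 (.dbl 25 12 28)) (.nv (.dbl 54 6 57) .nd))) (.rp 54 (.thr 37 36 (.thr 46 34 (.thr 30 14 (.thr 45 15 (.dbl 47 32 44))))) (.rp 51 (.str 59 (.nv (.thr 37 36 (.thr 46 34 (.thr 30 14 (.thr 15 45 (.dbl 26 18 48))))) (.nv (.thr 25 8 (.thr 28 19 (.thr 12 44 (.dbl 6 9 54)))) (.rp 6 (.thr 37 36 (.thr 47 32 (.thr 46 34 (.thr 44 45 (.thr 25 8 (.dbl 28 12 19)))))) .nd)))) (.rp 6 (.thr 37 36 (.thr 46 34 (.thr 47 32 (.thr 44 45 (.thr 12 28 (.thr 35 43 (.dbl 51 19 25))))))) .nd))))))) (.rp 54 (.thr 46 34 (.thr 30 14 (.thr 45 15 (.thr 47 44 (.thr 32 37 (.thr 18 26 (.thr 48 33 (.thr 16 0 (.thr 17 19 (.thr 56 52 (.thr 25 29 (.thr 12 51 (.thr 24 36 (.dbl 8 40 59)))))))))))))) (.rp 6 (.thr 46 34 (.thr 14 30 (.thr 50 26 (.thr 54 58 (.thr 51 57 (.thr 19 35 (.dbl 25 12 28))))))) .nd)))))))) (.rp 0 (.str 35 (.nv (.thr 41 60 (.thr 61 1 (.thr 38 44 (.thr 6 54 (.thr 12 9 (.dbl 51 19 25)))))) (.nv (.thr 2 62 (.thr 19 51 (.thr 25 28 (.thr 17 29 (.thr 18 16 (.thr 34 50 (.dbl 33 32 48))))))) (.nv (.thr 41 60 (.thr 40 43 (.thr 44 38 (.thr 32 36 (.thr 37 47 (.dbl 33 34 45)))))) (.nv (.thr 51 19 (.thr 41 60 (.thr 38 44 (.thr 12 25 (.dbl 6 9 54))))) (.rp 61 (.thr 51 19 (.thr 62 2 (.thr 41 60 (.thr 38 44 (.thr 6 54 (.dbl 12 9 25)))))) (.rp 60 (.thr 19 51 (.thr 25 28 (.thr 17 29 (.thr 18 16 (.thr 33 48 (.thr 32 34 (.thr 49 1 (.dbl 37 13 47)))))))) (.rp 55 (.str 39 (.nv (.thr 41 60 (.dbl 43 40 47)) (.nv (.thr 43 47 (.dbl 41 40 60)) (.rp 60 (.thr 47 43 (.thr 37 32 (.thr 38 36 (.thr 46 34 (.dbl 44 41 45))))) (.rp 59 (.thr 51 19 (.thr 43 47 (.dbl 41 40 60))) (.rp 51 (.str 59 (.nv (.thr 41 60 (.dbl 43 40 47)) (.nv (.thr 43 47 (.dbl 41 40 60)) (.rp 60 (.thr 47 43 (.thr 37 32 (.thr 38 36 (.thr 44 41 (.dbl 46 34 45))))) (.rp 47 (.thr 25 8 (.thr 41 60 (.thr 57 9 (.thr 56 58 (.thr 11 26 (.dbl 43 27 40)))))) (.rp 43 (.thr 41 60 (.thr 38 44 (.thr 34 46 (.thr 33 32 (.dbl 37 36 45))))) (.rp 41 (.thr 43 47 (.thr 27 11 (.thr 25 8 (.thr 17 29 (.thr 26 24 (.thr 18 30 (.dbl 19 16 28))))))) (.rp 40 (.thr 47 43 (.thr 37 32 (.thr 38 36 (.thr 44 41 (.dbl 46 34 45))))) (.rp 34 (.str 17 (.nv (.thr 41 60 (.dbl 43 40 47)) (.nv (.dbl 25 8 29) .nd))) (.rp 17 (.str 34 (.nv (.thr 38 46 (.dbl 41 44 60)) (.nv (.thr 47 43 (.dbl 32 33 37)) .nd))) .nd)))))))))) (.rp 47 (.thr 51 19 (.thr 41 60 (.thr 38 44 (.thr 6 54 (.dbl 12 9 25))))) (.rp 43 (.thr 51 19 (.thr 41 60 (.thr 38 44 (.thr 6 54 (.dbl 12 9 25))))) (.rp 41 (.thr 51 19 (.thr 47 43 (.thr 37 32 (.thr 38 36 (.thr 6 54 (.dbl 12 9 25)))))) (.rp 40 (.thr 47 43 (.thr 37 32 (.thr 38 36 (.thr 44 41 (.dbl 46 34 45))))) .nd)))))))))) (.rp 39 (.str 55 (.nv (.thr 41 60 (.dbl 38 4 44)) (.nv (.thr 38 4 (.thr 6 54 (.thr 12 9 (.dbl 51 19 25)))) (.nv (.thr 38 4 (.dbl 41 44 60)) (.rp 38 (.thr 19 51 (.thr 2 62 (.thr 25 28 (.thr 17 29 (.thr 18 16 (.thr 34 50 (.dbl 33 32 48))))))) (.rp 4 (.thr 51 19 (.thr 41 60 (.thr 38 44 (.thr 6 54 (.dbl 12 9 25))))) .nd)))))) .nd))))))))) .nd))))))))))) (.rp 20 (.str 26 (.nv (.thr 30 18 (.thr 58 10 (.thr 62 2 (.thr 50 54 (.dbl 14 38 46))))) (.rp 62 (.str 41 (.nv (.thr 10 58 (.thr 30 18 (.thr 60 3 (.thr 15 45 (.thr 5 0 (.dbl 37 48 53)))))) (.nv (.thr 11 56 (.thr 43 40 (.thr 59 27 (.thr 8 25 (.dbl 10 9 58))))) (.nv (.thr 60 3 (.thr 30 18 (.thr 15 45 (.thr 48 37 (.dbl 56 11 52))))) (.rp 60 (.thr 61 1 (.thr 40 43 (.thr 58 10 (.thr 56 11 (.thr 8 24 (.dbl 59 25 57)))))) (.rp 43 (.thr 10 58 (.thr 11 56 (.thr 9 8 (.thr 30 18 (.thr 31 16 (.thr 28 29 (.dbl 25 19 57))))))) .nd)))))) (.rp 58 (.str 48 (.nv (.thr 15 37 (.thr 30 18 (.thr 60 45 (.thr 41 3 (.dbl 56 11 52))))) (.nv (.thr 2 62 (.thr 18 30 (.thr 3 33 (.thr 1 0 (.dbl 41 60 61))))) (.nv (.thr 16 31 (.thr 32 0 (.dbl 37 15 47))) (.rp 60 (.thr 18 30 (.thr 16 31 (.thr 0 32 (.thr 3 33 (.dbl 2 1 62))))) .nd))))) (.rp 54 (.thr 18 30 (.thr 2 62 (.thr 10 58 (.thr 50 34 (.dbl 14 6 38))))) (.rp 50 (.str 3 (.nv (.thr 16 31 (.thr 18 30 (.thr 48 33 (.thr 0 32 (.dbl 2 1 62))))) (.nv (.thr 16 31 (.thr 18 30 (.thr 48 33 (.thr 32 0 (.dbl 37 15 47))))) (.nv (.thr 2 62 (.thr 1 0 (.dbl 41 60 61))) (.rp 0 (.thr 58 10 (.thr 41 60 (.thr 40 43 (.thr 56 11 (.thr 59 57 (.dbl 8 24 25)))))) .nd))))) (.rp 46 (.thr 18 30 (.thr 10 58 (.thr 2 62 (.thr 14 6 (.dbl 50 34 38))))) (.rp 38 (.thr 18 30 (.thr 16 31 (.thr 17 19 (.thr 2 62 (.thr 34 50 (.thr 0 51 (.thr 3 1 (.dbl 48 32 33)))))))) (.rp 30 (.str 11 (.nv (.thr 10 58 (.thr 8 9 (.thr 41 56 (.thr 59 25 (.dbl 43 27 40))))) (.nv (.thr 10 58 (.thr 9 8 (.thr 41 56 (.thr 3 60 (.thr 6 12 (.dbl 2 14 62)))))) (.nv (.thr 56 41 (.thr 58 10 (.thr 59 57 (.thr 25 8 (.dbl 27 24 43))))) (.rp 59 (.thr 10 58 (.thr 9 8 (.thr 41 56 (.thr 57 25 (.thr 3 60 (.thr 6 12 (.dbl 2 14 62))))))) (.rp 58 (.thr 41 56 (.thr 43 40 (.thr 59 27 (.thr 8 25 (.thr 9 10 (.thr 1 61 (.thr 5 13 (.thr 37 53 (.thr 48 15 (.thr 45 33 (.thr 47 32 (.thr 44 46 (.dbl 35 38 39))))))))))))) (.rp 56 (.thr 16 31 (.thr 2 62 (.thr 10 58 (.thr 14 6 (.thr 8 9 (.thr 50 38 (.thr 18 34 (.thr 19 17 (.dbl 25 28 59))))))))) (.rp 41 (.thr 16 31 (.thr 2 62 (.thr 10 58 (.thr 14 6 (.thr 8 9 (.thr 25 59 (.thr 50 38 (.thr 18 34 (.dbl 17 19 29))))))))) (.rp 10 (.thr 31 16 (.thr 41 56 (.thr 43 40 (.thr 27 59 (.thr 19 23 (.dbl 25 24 28)))))) (.rp 8 (.thr 31 16 (.thr 2 62 (.thr 10 58 (.thr 14 6 (.thr 50 38 (.thr 18 34 (.thr 41 56 (.thr 40 43 (.thr 61 1 (.thr 3 60 (.thr 48 33 (.thr 15 37 (.thr 12 13 (.thr 49 51 (.thr 57 53 (.thr 25 9 (.thr 5 0 (.thr 17 29 (.dbl 24 27 36))))))))))))))))))) .nd)))))))))) (.rp 18 (.str 11 (.nv (.thr 2 62 (.thr 10 58 (.thr 6 14 (.thr 9 8 (.thr 3 12 (.dbl 41 56 60)))))) (.nv (.thr 56 41 (.thr 58 10 (.thr 59 57 (.thr 25 8 (.dbl 27 24 43))))) (.rp 58 (.thr 41 56 (.thr 43 40 (.thr 59 27 (.thr 8 25 (.thr 9 10 (.thr 1 61 (.thr 5 13 (.thr 37 53 (.thr 48 15 (.thr 45 33 (.thr 47 32 (.thr 44 46 (.dbl 35 38 39))))))))))))) (.rp 56 (.thr 16 31 (.thr 2 62 (.thr 10 58 (.thr 6 14 (.thr 9 8 (.thr 3 12 (.thr 0 1 (.thr 15 5 (.dbl 48 32 37))))))))) (.rp 41 (.thr 16 31 (.thr 2 62 (.thr 10 58 (.thr 6 14 (.thr 9 8 (.thr 3 12 (.thr 0 1 (.thr 15 5 (.dbl 48 32 37))))))))) (.rp 10 (.thr 31 16 (.thr 41 56 (.thr 43 40 (.thr 27 59 (.thr 19 23 (.dbl 25 24 28)))))) (.rp 8 (.thr 31 16 (.thr 62 2 (.thr 58 10 (.thr 50 54 (.thr 14 38 (.thr 30 46 (.thr 41 56 (.thr 60 3 (.thr 28 29 (.thr 12 44 (.dbl 15 13 45))))))))))) .nd)))))))) (.rp 14 (.str 15 (.nv (.thr 30 18 (.thr 48 37 (.thr 60 45 (.thr 41 3 (.dbl 56 11 52))))) (.nv (.thr 10 58 (.thr 5 0 (.dbl 37 48 53))) (.rp 60 (.thr 16 31 (.thr 10 58 (.thr 0 5 (.dbl 48 32 37)))) (.rp 48 (.thr 30 18 (.thr 2 62 (.thr 60 45 (.thr 3 41 (.thr 0 1 (.dbl 10 5 58)))))) (.rp 37 (.thr 30 18 (.thr 2 62 (.thr 10 58 (.thr 0 5 (.thr 3 1 (.dbl 60 41 45)))))) .nd)))))) (.rp 10 (.thr 18 30 (.thr 16 31 (.thr 17 19 (.thr 2 62 (.thr 34 50 (.thr 0 51 (.thr 3 1 (.dbl 48 32 33)))))))) (.rp 6 (.thr 30 18 (.thr 62 2 (.thr 14 46 (.thr 58 10 (.dbl 50 38 54))))) (.rp 2 (.str 15 (.nv (.thr 30 18 (.thr 48 37 (.thr 60 45 (.thr 56 52 (.dbl 41 3 11))))) (.nv (.thr 10 58 (.thr 48 37 (.thr 16 31 (.dbl 0 5 32)))) (.rp 48 (.thr 30 18 (.thr 31 16 (.thr 28 29 (.thr 19 25 (.thr 27 23 (.thr 60 45 (.thr 3 41 (.dbl 51 35 39)))))))) (.rp 37 (.thr 30 18 (.thr 16 31 (.thr 10 58 (.thr 0 5 (.thr 60 45 (.thr 41 3 (.thr 56 11 (.dbl 48 32 52)))))))) .nd))))) .nd)))))))))))))) (.rp 19 (.thr 2 62 (.str 3 (.nv (.thr 1 0 (.dbl 41 60 61)) (.rp 61 (.thr 60 41 (.thr 0 1 (.dbl 20 23 40))) (.rp 60 (.str 61 (.nv (.dbl 1 0 41) (.rp 41 (.str 34 (.nv (.thr 0 1 (.thr 38 46 (.thr 4 55 (.thr 12 8 (.dbl 51 17 25))))) (.nv (.thr 0 1 (.thr 18 50 (.thr 48 33 (.thr 16 32 (.dbl 26 30 31))))) (.nv (.thr 50 18 (.thr 38 46 (.thr 14 26 (.dbl 6 10 54)))) (.rp 17 (.thr 38 46 (.thr 6 54 (.thr 14 10 (.dbl 50 18 26)))) .nd))))) (.rp 1 (.str 38 (.nv (.thr 34 46 (.thr 50 18 (.thr 14 26 (.dbl 6 10 54)))) (.nv (.thr 4 55 (.thr 6 54 (.thr 12 9 (.thr 8 0 (.dbl 25 51 59))))) (.nv (.thr 6 54 (.thr 14 10 (.thr 50 26 (.dbl 34 18 46)))) (.rp 54 (.thr 34 46 (.thr 50 18 (.thr 14 26 (.thr 6 10 (.thr 4 55 (.thr 12 9 (.thr 51 25 (.dbl 0 8 17)))))))) (.rp 50 (.str 58 (.nv (.thr 10 26 (.dbl 6 14 54)) (.rp 54 (.thr 26 10 (.thr 18 30 (.thr 48 33 (.thr 16 31 (.thr 32 0 (.dbl 37 15 47)))))) (.rp 26 (.thr 6 54 (.thr 4 55 (.thr 12 9 (.thr 8 0 (.dbl 25 51 59))))) (.rp 14 (.thr 6 54 (.thr 4 55 (.thr 12 9 (.thr 8 0 (.dbl 25 51 59))))) (.rp 10 (.thr 6 54 (.thr 4 55 (.thr 12 9 (.thr 8 0 (.dbl 25 51 59))))) (.rp 6 (.thr 26 10 (.thr 18 30 (.thr 48 33 (.thr 16 31 (.thr 32 0 (.dbl 37 15 47)))))) .nd))))))) (.rp 6 (.thr 34 46 (.thr 18 50 (.thr 33 48 (.thr 32 35 (.thr 37 47 (.thr 45 41 (.thr 53 5 (.thr 4 55 (.thr 49 57 (.dbl 13 25 29)))))))))) .nd))))))) (.rp 0 (.str 34 (.nv (.thr 20 23 (.thr 18 50 (.thr 33 48 (.thr 32 35 (.thr 37 47 (.dbl 41 1 45)))))) (.nv (.thr 50 18 (.thr 38 46 (.thr 14 26 (.dbl 6 10 54)))) (.rp 54 (.thr 38 46 (.thr 41 1 (.thr 35 44 (.thr 33 32 (.dbl 18 48 50))))) (.rp 50 (.thr 38 46 (.thr 41 1 (.thr 35 44 (.thr 32 33 (.thr 47 37 (.dbl 43 39 40)))))) (.rp 20 (.str 40 (.nv (.dbl 41 1 43) (.rp 43 (.thr 50 18 (.thr 38 46 (.thr 6 54 (.dbl 14 10 26)))) (.rp 41 (.thr 50 18 (.thr 38 46 (.thr 6 54 (.dbl 14 10 26)))) (.rp 1 (.thr 50 18 (.thr 38 46 (.thr 6 54 (.dbl 14 10 26)))) .nd))))) (.rp 18 (.thr 38 46 (.thr 41 1 (.thr 35 44 (.thr 32 33 (.thr 47 37 (.dbl 43 39 40)))))) .nd))))))) .nd))))) (.rp 41 (.thr 23 20 (.thr 0 1 (.str 10 (.nv (.thr 6 14 (.thr 12 9 (.thr 8 4 (.thr 25 59 (.thr 17 29 (.dbl 51 34 38)))))) (.nv (.thr 26 58 (.thr 16 31 (.thr 48 32 (.dbl 15 5 37)))) (.rp 61 (.str 60 (.nv (.thr 6 14 (.thr 12 9 (.thr 4 8 (.dbl 38 54 55)))) (.nv (.thr 26 58 (.thr 30 18 (.dbl 15 5 45))) (.rp 54 (.thr 15 5 (.thr 30 45 (.dbl 26 18 58))) (.rp 30 (.thr 15 5 (.thr 26 58 (.thr 16 31 (.dbl 48 32 37)))) (.rp 5 (.thr 6 14 (.thr 38 54 (.thr 4 55 (.dbl 12 8 9)))) .nd)))))) (.rp 60 (.str 61 (.nv (.thr 6 14 (.thr 12 9 (.thr 8 4 (.thr 25 59 (.thr 17 29 (.dbl 51 34 38)))))) (.nv (.thr 26 58 (.thr 16 31 (.thr 48 32 (.dbl 15 5 37)))) (.rp 5 (.thr 6 14 (.thr 38 54 (.thr 4 55 (.dbl 12 8 9)))) .nd)))) (.rp 5 (.thr 6 14 (.thr 38 54 (.thr 4 55 (.dbl 12 8 9)))) .nd)))))))) (.rp 1 (.thr 23 20 (.thr 60 41 (.str 26 (.nv (.thr 10 58 (.thr 30 18 (.thr 15 45 (.thr 5 0 (.dbl 37 48 53))))) (.nv (.thr 16 31 (.thr 18 30 (.thr 48 33 (.thr 32 0 (.dbl 37 15 47))))) (.nv (.thr 18 30 (.thr 10 58 (.thr 50 34 (.dbl 14 6 38)))) (.rp 48 (.thr 18 30 (.thr 50 34 (.thr 14 38 (.dbl 10 6 58)))) (.rp 30 (.thr 16 31 (.thr 10 58 (.thr 14 6 (.thr 50 38 (.thr 18 34 (.thr 48 33 (.thr 32 0 (.dbl 37 15 47)))))))) (.rp 18 (.str 25 (.nv (.thr 16 31 (.thr 8 59 (.thr 10 58 (.thr 9 11 (.dbl 6 12 14))))) (.nv (.thr 10 58 (.thr 6 14 (.thr 12 9 (.dbl 38 51 54)))) (.rp 58 (.thr 24 27 (.thr 16 31 (.thr 8 59 (.thr 56 40 (.thr 48 52 (.thr 0 32 (.dbl 12 4 36))))))) (.rp 54 (.thr 24 27 (.thr 16 31 (.thr 8 59 (.thr 56 40 (.thr 48 52 (.thr 0 32 (.dbl 12 4 36))))))) (.rp 53 (.thr 24 27 (.thr 16 31 (.thr 8 59 (.thr 56 40 (.thr 48 52 (.thr 0 32 (.dbl 12 4 36))))))) (.rp 51 (.thr 10 58 (.thr 6 14 (.thr 9 12 (.dbl 8 11 59)))) (.rp 50 (.thr 24 27 (.thr 16 31 (.thr 8 59 (.thr 56 40 (.thr 48 52 (.thr 0 32 (.dbl 12 4 36))))))) (.rp 48 (.thr 17 29 (.thr 58 10 (.thr 59 8 (.thr 57 56 (.thr 51 54 (.thr 34 0 (.dbl 38 12 46))))))) (.rp 16 (.thr 17 29 (.thr 10 58 (.thr 6 14 (.thr 12 9 (.dbl 38 51 54))))) (.rp 14 (.thr 10 58 (.thr 8 59 (.thr 9 11 (.thr 12 6 (.thr 4 0 (.dbl 38 51 55)))))) (.rp 12 (.thr 24 27 (.thr 16 31 (.thr 8 59 (.thr 56 40 (.thr 48 52 (.thr 32 0 (.dbl 37 15 47))))))) (.rp 10 (.thr 24 27 (.thr 16 31 (.thr 8 59 (.thr 56 40 (.thr 48 52 (.thr 0 32 (.dbl 12 4 36))))))) (.rp 9 (.thr 24 27 (.thr 16 31 (.thr 8 59 (.thr 56 40 (.thr 48 52 (.thr 0 32 (.dbl 12 4 36))))))) (.rp 6 (.thr 24 27 (.thr 16 31 (.thr 8 59 (.thr 56 40 (.thr 48 52 (.thr 0 32 (.dbl 12 4 36))))))) .nd))))))))))))))) .nd))))))))) (.rp 0 (.str 6 (.nv (.thr 60 41 (.thr 38 54 (.thr 34 46 (.thr 50 18 (.dbl 14 10 26))))) (.nv (.thr 9 12 (.thr 10 14 (.thr 8 11 (.thr 25 59 (.dbl 41 57 60))))) (.nv (.thr 14 10 (.thr 38 54 (.thr 50 26 (.dbl 34 18 46)))) (.rp 60 (.str 61 (.nv (.thr 20 23 (.thr 38 54 (.thr 34 46 (.thr 50 18 (.dbl 14 10 26))))) (.nv (.thr 9 12 (.thr 10 14 (.thr 8 11 (.thr 41 1 (.dbl 25 57 59))))) (.nv (.thr 14 10 (.thr 38 54 (.thr 50 26 (.dbl 34 18 46)))) (.rp 57 (.thr 10 14 (.thr 26 58 (.thr 41 1 (.thr 9 12 (.dbl 11 8 56))))) (.rp 46 (.thr 38 54 (.thr 14 10 (.thr 50 26 (.thr 18 34 (.thr 12 9 (.thr 51 25 (.dbl 48 33 49))))))) (.rp 20 (.str 40 (.nv (.dbl 41 1 43) (.rp 43 (.thr 14 10 (.thr 38 54 (.thr 34 46 (.dbl 50 18 26)))) (.rp 41 (.thr 14 10 (.thr 38 54 (.thr 34 46 (.dbl 50 18 26)))) (.rp 1 (.thr 14 10 (.thr 38 54 (.thr 34 46 (.dbl 50 18 26)))) .nd))))) (.rp 14 (.thr 38 54 (.thr 46 34 (.thr 41 1 (.thr 44 35 (.thr 47 45 (.thr 40 43 (.dbl 32 36 37))))))) (.rp 10 (.thr 38 54 (.thr 34 46 (.thr 41 1 (.thr 35 44 (.thr 33 32 (.dbl 18 48 50)))))) .nd))))))))) (.rp 46 (.thr 14 10 (.thr 38 54 (.thr 50 26 (.thr 18 34 (.thr 12 9 (.thr 51 25 (.dbl 48 33 49))))))) (.rp 14 (.thr 38 54 (.thr 46 34 (.thr 41 60 (.thr 61 1 (.thr 40 43 (.thr 44 35 (.thr 47 45 (.dbl 32 36 37)))))))) (.rp 10 (.thr 38 54 (.thr 34 46 (.thr 41 60 (.thr 61 1 (.thr 35 44 (.thr 33 32 (.dbl 18 48 50))))))) .nd)))))))) .nd)))))))) (.rp 18 (.str 3 (.nv (.thr 2 62 (.thr 1 0 (.dbl 41 60 61))) (.rp 62 (.str 19 (.nv (.thr 23 20 (.thr 25 28 (.thr 27 31 (.thr 59 8 (.thr 43 11 (.dbl 41 40 60)))))) (.nv (.thr 60 41 (.thr 25 28 (.thr 51 35 (.thr 54 57 (.dbl 38 6 12))))) (.rp 60 (.str 61 (.nv (.thr 25 28 (.thr 17 29 (.thr 51 35 (.thr 34 0 (.dbl 38 12 46))))) (.nv (.thr 23 20 (.thr 25 28 (.thr 27 31 (.thr 41 1 (.thr 59 8 (.dbl 43 11 40)))))) (.nv (.thr 51 35 (.thr 41 1 (.thr 25 28 (.thr 12 38 (.dbl 9 6 57))))) (.rp 28 (.thr 51 35 (.thr 1 41 (.thr 0 2 (.thr 34 17 (.thr 38 46 (.thr 6 54 (.dbl 12 9 25))))))) (.rp 25 (.thr 35 51 (.thr 41 1 (.thr 43 40 (.thr 47 39 (.thr 37 32 (.thr 45 33 (.dbl 44 38 46))))))) (.rp 12 (.thr 35 51 (.thr 41 1 (.thr 43 40 (.thr 47 39 (.thr 37 32 (.thr 45 33 (.dbl 44 38 46))))))) .nd))))))) (.rp 41 (.thr 51 35 (.thr 25 28 (.thr 17 29 (.thr 34 0 (.dbl 38 12 46))))) (.rp 28 (.thr 51 35 (.thr 20 23 (.thr 60 41 (.thr 54 57 (.thr 38 6 (.thr 34 46 (.dbl 0 17 40))))))) (.rp 25 (.thr 51 35 (.thr 20 23 (.thr 60 41 (.thr 0 40 (.thr 34 17 (.thr 38 46 (.dbl 54 6 57))))))) .nd))))))) (.rp 61 (.thr 2 62 (.thr 60 41 (.thr 0 1 (.dbl 20 23 40)))) (.rp 60 (.thr 2 62 (.str 61 (.nv (.dbl 1 0 41) (.rp 41 (.str 31 (.nv (.thr 0 1 (.thr 23 20 (.thr 19 27 (.thr 51 35 (.thr 17 34 (.dbl 25 28 29)))))) (.nv (.thr 0 1 (.thr 26 16 (.thr 10 58 (.thr 6 14 (.thr 12 9 (.thr 4 8 (.dbl 38 54 55))))))) (.nv (.thr 20 23 (.thr 16 26 (.thr 28 24 (.thr 25 19 (.dbl 29 17 30))))) (.rp 25 (.thr 23 20 (.thr 19 27 (.thr 51 35 (.thr 0 1 (.thr 34 17 (.thr 38 46 (.thr 6 54 (.thr 14 10 (.dbl 26 16 50))))))))) (.rp 19 (.thr 20 23 (.thr 0 1 (.thr 16 26 (.thr 28 24 (.thr 29 30 (.thr 25 17 (.thr 32 48 (.thr 37 47 (.dbl 13 45 49))))))))) (.rp 17 (.thr 23 20 (.thr 19 27 (.thr 51 35 (.thr 25 28 (.thr 8 59 (.thr 0 1 (.dbl 12 4 38))))))) .nd))))))) (.rp 1 (.str 19 (.nv (.thr 25 28 (.thr 29 17 (.thr 51 35 (.thr 12 38 (.thr 6 9 (.thr 14 10 (.dbl 13 15 45))))))) (.nv (.thr 51 35 (.thr 25 28 (.thr 17 29 (.thr 34 0 (.dbl 38 12 46))))) (.rp 51 (.thr 23 20 (.thr 31 27 (.thr 26 16 (.thr 10 58 (.thr 6 14 (.thr 9 12 (.thr 8 11 (.dbl 25 28 59)))))))) (.rp 44 (.thr 51 35 (.thr 23 20 (.thr 31 27 (.thr 26 16 (.thr 10 58 (.thr 6 14 (.thr 12 9 (.dbl 38 25 54)))))))) (.rp 38 (.thr 23 20 (.thr 31 27 (.thr 26 16 (.thr 10 58 (.thr 6 14 (.thr 9 12 (.thr 8 11 (.dbl 25 28 59)))))))) (.rp 35 (.thr 23 20 (.thr 31 27 (.thr 26 16 (.thr 10 58 (.thr 6 14 (.thr 9 12 (.thr 8 11 (.dbl 25 28 59)))))))) (.rp 29 (.thr 51 35 (.thr 23 20 (.thr 31 27 (.thr 26 16 (.thr 10 58 (.thr 6 14 (.thr 12 9 (.dbl 38 25 54)))))))) (.rp 28 (.str 12 (.nv (.thr 51 35 (.thr 25 38 (.thr 8 59 (.thr 17 29 (.dbl 0 4 34))))) (.nv (.thr 6 9 (.thr 10 14 (.thr 23 20 (.thr 31 27 (.dbl 26 16 58))))) (.nv (.thr 51 35 (.thr 38 25 (.dbl 6 9 54))) .nd)))) (.rp 25 (.thr 23 20 (.thr 31 27 (.thr 26 16 (.thr 10 58 (.thr 6 14 (.thr 9 12 (.thr 11 8 (.thr 41 56 (.thr 35 51 (.dbl 38 44 54)))))))))) (.rp 17 (.thr 51 35 (.thr 23 20 (.thr 27 31 (.thr 15 39 (.thr 25 28 (.thr 12 38 (.thr 6 9 (.dbl 14 10 13)))))))) (.rp 12 (.thr 51 35 (.thr 20 23 (.thr 28 25 (.thr 16 24 (.thr 26 31 (.thr 10 58 (.thr 14 6 (.thr 50 38 (.thr 48 49 (.thr 32 0 (.dbl 37 15 47))))))))))) .nd)))))))))))) (.rp 0 (.str 59 (.nv (.thr 20 23 (.thr 25 8 (.thr 28 19 (.thr 16 24 (.thr 29 17 (.dbl 31 26 30)))))) (.nv (.thr 20 23 (.thr 1 41 (.thr 25 8 (.thr 29 17 (.thr 13 45 (.thr 37 49 (.dbl 5 9 53))))))) (.nv (.thr 8 25 (.thr 41 1 (.thr 40 43 (.thr 56 24 (.thr 26 11 (.dbl 58 10 57)))))) (.rp 25 (.thr 41 1 (.thr 43 40 (.thr 20 23 (.thr 11 27 (.thr 26 56 (.thr 10 58 (.thr 6 14 (.dbl 9 8 12)))))))) (.rp 20 (.str 40 (.nv (.dbl 41 1 43) (.rp 43 (.thr 8 25 (.thr 56 24 (.thr 58 57 (.thr 26 10 (.dbl 41 1 11))))) (.rp 41 (.thr 25 8 (.thr 19 28 (.thr 51 35 (.thr 29 17 (.thr 13 45 (.thr 37 49 (.thr 5 53 (.thr 32 47 (.thr 44 36 (.thr 12 38 (.dbl 9 1 6))))))))))) (.rp 1 (.thr 41 43 (.thr 8 25 (.thr 56 24 (.thr 58 57 (.dbl 26 10 11))))) .nd))))) (.rp 8 (.thr 41 1 (.thr 43 40 (.thr 20 23 (.thr 11 27 (.thr 56 26 (.thr 57 58 (.thr 25 9 (.thr 29 17 (.thr 13 45 (.dbl 49 37 53)))))))))) .nd))))))) .nd)))))) (.rp 41 (.str 19 (.nv (.thr 2 62 (.thr 0 1 (.thr 25 28 (.thr 8 59 (.thr 12 4 (.thr 6 9 (.dbl 38 51 54))))))) (.nv (.thr 25 28 (.thr 17 29 (.thr 51 35 (.thr 34 0 (.dbl 38 12 46))))) (.rp 51 (.thr 2 62 (.thr 0 1 (.thr 20 23 (.thr 28 25 (.thr 16 24 (.thr 26 31 (.thr 10 58 (.thr 15 5 (.dbl 48 32 37))))))))) (.rp 38 (.thr 2 62 (.thr 0 1 (.thr 25 28 (.thr 17 29 (.dbl 51 34 35))))) (.rp 28 (.thr 51 35 (.thr 2 62 (.thr 0 1 (.thr 34 17 (.thr 38 46 (.thr 6 54 (.dbl 12 9 25))))))) (.rp 25 (.thr 51 35 (.thr 2 62 (.thr 0 1 (.thr 34 17 (.thr 38 46 (.thr 6 54 (.thr 4 55 (.dbl 12 8 9)))))))) (.rp 12 (.thr 51 35 (.thr 2 62 (.thr 0 1 (.thr 17 34 (.dbl 25 28 29))))) (.rp 0 (.thr 51 35 (.thr 62 2 (.thr 25 28 (.thr 38 12 (.thr 54 6 (.thr 46 34 (.thr 50 58 (.dbl 14 26 30)))))))) .nd))))))))) (.rp 2 (.str 34 (.nv (.thr 38 46 (.thr 4 55 (.thr 6 54 (.thr 12 9 (.thr 0 8 (.dbl 51 17 25)))))) (.nv (.thr 20 23 (.thr 60 41 (.thr 0 40 (.thr 51 17 (.thr 54 57 (.dbl 38 6 46)))))) (.nv (.thr 38 46 (.thr 41 60 (.thr 35 44 (.thr 32 33 (.thr 43 40 (.dbl 47 37 39)))))) (.nv (.thr 38 46 (.thr 6 54 (.thr 12 9 (.thr 25 51 (.thr 60 41 (.dbl 28 19 44)))))) (.rp 46 (.thr 20 23 (.thr 60 41 (.thr 0 40 (.thr 51 17 (.thr 19 35 (.thr 25 28 (.thr 8 59 (.dbl 12 4 38)))))))) (.rp 38 (.thr 20 23 (.thr 60 41 (.thr 0 40 (.thr 17 51 (.thr 25 29 (.thr 28 19 (.thr 16 24 (.thr 32 48 (.thr 35 33 (.thr 12 44 (.dbl 8 4 59))))))))))) .nd))))))) (.rp 1 (.str 19 (.nv (.thr 51 35 (.thr 25 28 (.thr 17 29 (.thr 34 0 (.dbl 38 12 46))))) (.nv (.thr 23 20 (.thr 25 28 (.thr 27 31 (.thr 59 8 (.thr 43 11 (.dbl 41 40 60)))))) (.nv (.thr 25 28 (.thr 51 35 (.thr 60 41 (.thr 54 57 (.dbl 38 6 12))))) (.rp 28 (.thr 35 51 (.thr 41 60 (.thr 43 40 (.thr 47 39 (.thr 37 32 (.thr 45 33 (.dbl 44 38 46))))))) (.rp 25 (.thr 35 51 (.thr 41 60 (.thr 43 40 (.thr 47 39 (.thr 37 32 (.thr 45 33 (.dbl 44 38 46))))))) .nd)))))) (.rp 0 (.str 19 (.nv (.thr 23 20 (.thr 25 28 (.thr 27 31 (.thr 59 8 (.thr 43 11 (.dbl 41 40 60)))))) (.nv (.thr 25 28 (.thr 51 35 (.thr 60 41 (.thr 54 57 (.dbl 38 6 12))))) (.rp 60 (.thr 51 35 (.thr 25 28 (.thr 8 59 (.thr 12 38 (.thr 9 6 (.thr 41 57 (.thr 11 10 (.thr 40 43 (.dbl 56 24 26))))))))) (.rp 41 (.thr 51 35 (.thr 62 2 (.thr 25 28 (.thr 38 12 (.thr 54 6 (.thr 46 34 (.thr 50 58 (.dbl 14 26 30)))))))) (.rp 28 (.thr 35 51 (.thr 41 60 (.thr 40 43 (.thr 44 38 (.thr 32 36 (.thr 37 47 (.dbl 33 34 45))))))) (.rp 25 (.thr 35 51 (.thr 41 60 (.thr 38 44 (.thr 34 46 (.thr 32 33 (.thr 47 37 (.dbl 43 39 40))))))) (.rp 12 (.thr 23 20 (.thr 27 31 (.thr 25 28 (.thr 8 59 (.thr 24 26 (.thr 40 56 (.dbl 41 43 60))))))) .nd)))))))) .nd))))))))) (.rp 17 (.thr 23 20 (.str 26 (.nv (.thr 2 62 (.thr 10 58 (.thr 14 6 (.thr 18 30 (.dbl 50 34 38))))) (.nv (.thr 30 18 (.thr 31 16 (.thr 19 27 (.dbl 28 25 29)))) (.rp 30 (.str 3 (.nv (.thr 2 62 (.thr 1 0 (.dbl 41 60 61))) (.rp 62 (.thr 10 58 (.thr 41 60 (.thr 61 1 (.thr 11 56 (.thr 8 9 (.thr 59 25 (.dbl 43 27 40))))))) (.rp 61 (.thr 10 58 (.thr 2 62 (.thr 60 41 (.thr 0 1 (.thr 15 5 (.thr 16 31 (.dbl 48 32 37))))))) (.rp 60 (.thr 58 10 (.thr 62 2 (.thr 50 54 (.thr 31 16 (.thr 19 27 (.thr 51 35 (.thr 48 49 (.thr 33 18 (.thr 37 15 (.thr 45 41 (.thr 47 32 (.thr 46 44 (.dbl 38 14 34))))))))))))) (.rp 51 (.thr 10 58 (.thr 2 62 (.thr 0 1 (.thr 15 5 (.thr 16 31 (.dbl 48 32 37)))))) (.rp 46 (.thr 10 58 (.thr 2 62 (.thr 14 6 (.thr 1 0 (.dbl 41 60 61))))) (.rp 41 (.thr 10 58 (.thr 2 62 (.thr 0 1 (.thr 15 5 (.thr 16 31 (.dbl 48 32 37)))))) (.rp 40 (.thr 10 58 (.thr 2 62 (.thr 0 1 (.thr 15 5 (.thr 16 31 (.dbl 48 32 37)))))) (.rp 34 (.thr 10 58 (.thr 2 62 (.thr 0 1 (.thr 15 5 (.thr 16 31 (.dbl 48 32 37)))))) (.rp 14 (.thr 10 58 (.thr 41 60 (.thr 11 56 (.thr 8 9 (.thr 59 25 (.dbl 43 27 40)))))) (.rp 2 (.thr 10 58 (.thr 41 60 (.thr 11 56 (.thr 8 9 (.thr 59 25 (.dbl 43 27 40)))))) (.rp 1 (.thr 10 58 (.thr 41 60 (.thr 11 56 (.thr 9 8 (.thr 6 12 (.dbl 2 14 62)))))) (.rp 0 (.thr 58 10 (.thr 41 60 (.thr 40 43 (.thr 56 11 (.thr 59 57 (.dbl 8 24 25)))))) .nd)))))))))))))) (.rp 18 (.thr 58 10 (.thr 62 2 (.thr 50 54 (.thr 14 38 (.thr 30 46 (.thr 31 16 (.thr 19 27 (.dbl 28 25 29)))))))) .nd)))))) (.rp 16 (.thr 2 62 (.str 3 (.nv (.thr 60 41 (.thr 0 1 (.dbl 20 23 40))) (.nv (.thr 1 0 (.dbl 41 60 61)) (.rp 60 (.str 61 (.nv (.dbl 1 0 41) (.rp 41 (.str 34 (.nv (.thr 50 18 (.thr 38 46 (.thr 14 26 (.dbl 6 10 54)))) (.nv (.thr 0 1 (.thr 38 46 (.thr 4 55 (.thr 12 8 (.dbl 51 17 25))))) (.nv (.thr 0 1 (.thr 18 50 (.thr 51 17 (.thr 35 19 (.dbl 33 32 48))))) (.rp 17 (.thr 38 46 (.thr 6 54 (.thr 14 10 (.dbl 50 18 26)))) .nd))))) (.rp 1 (.str 38 (.nv (.thr 34 46 (.thr 50 18 (.thr 14 26 (.dbl 6 10 54)))) (.nv (.thr 4 55 (.thr 6 54 (.thr 12 9 (.thr 8 0 (.dbl 25 51 59))))) (.nv (.thr 6 54 (.thr 14 10 (.thr 50 26 (.dbl 34 18 46)))) (.rp 54 (.thr 34 46 (.thr 50 18 (.thr 14 26 (.thr 6 10 (.thr 4 55 (.thr 12 9 (.thr 51 25 (.dbl 0 8 17)))))))) (.rp 50 (.str 51 (.nv (.thr 19 35 (.dbl 25 12 28)) (.nv (.thr 12 25 (.dbl 6 9 54)) (.rp 58 (.thr 54 6 (.thr 19 35 (.dbl 25 12 28))) (.rp 54 (.str 58 (.nv (.thr 10 26 (.thr 6 14 (.dbl 12 9 25))) (.nv (.thr 19 35 (.dbl 25 12 28)) (.rp 25 (.thr 35 19 (.thr 34 46 (.thr 26 10 (.thr 33 32 (.dbl 18 30 48))))) (.rp 12 (.thr 35 19 (.thr 26 10 (.thr 18 30 (.thr 33 48 (.dbl 34 32 46))))) .nd))))) (.rp 25 (.thr 34 46 (.thr 0 17 (.thr 4 55 (.thr 12 8 (.dbl 6 9 54))))) (.rp 12 (.thr 35 19 (.thr 46 34 (.thr 44 41 (.thr 47 45 (.thr 39 43 (.dbl 37 32 36)))))) .nd))))))) (.rp 6 (.thr 34 46 (.thr 18 50 (.thr 30 26 (.thr 33 48 (.thr 32 35 (.thr 37 47 (.thr 45 41 (.thr 29 13 (.thr 25 17 (.dbl 28 19 31)))))))))) .nd))))))) (.rp 0 (.thr 41 1 (.str 32 (.nv (.thr 20 23 (.thr 37 47 (.thr 45 33 (.thr 53 5 (.thr 49 57 (.dbl 13 25 29)))))) (.nv (.thr 40 43 (.thr 44 36 (.thr 38 35 (.thr 47 37 (.dbl 46 34 45))))) (.rp 47 (.thr 40 43 (.thr 44 36 (.thr 35 38 (.thr 33 34 (.thr 37 45 (.thr 53 5 (.thr 49 57 (.thr 48 18 (.dbl 51 19 50))))))))) (.rp 45 (.thr 40 43 (.thr 44 36 (.thr 38 35 (.thr 6 54 (.thr 14 10 (.thr 50 26 (.dbl 34 18 46))))))) (.rp 37 (.thr 40 43 (.thr 44 36 (.thr 38 35 (.thr 6 54 (.thr 14 10 (.thr 50 26 (.dbl 34 18 46))))))) .nd))))))) .nd))))) (.rp 41 (.str 19 (.nv (.thr 0 1 (.thr 25 28 (.thr 8 59 (.thr 12 4 (.thr 6 9 (.dbl 38 51 54)))))) (.nv (.thr 51 35 (.thr 0 1 (.thr 17 34 (.dbl 25 28 29)))) (.rp 61 (.str 60 (.nv (.thr 51 35 (.thr 54 57 (.thr 38 6 (.dbl 25 12 28)))) (.nv (.thr 0 1 (.dbl 20 23 40)) .nd))) (.rp 60 (.str 61 (.nv (.thr 1 0 (.thr 25 28 (.thr 17 29 (.thr 49 33 (.thr 37 13 (.dbl 53 5 57)))))) (.nv (.thr 0 1 (.thr 25 28 (.thr 8 59 (.thr 12 4 (.thr 6 9 (.dbl 38 51 54)))))) (.nv (.thr 51 35 (.thr 0 1 (.thr 17 34 (.dbl 25 28 29)))) (.rp 44 (.str 6 (.nv (.thr 38 54 (.thr 14 10 (.thr 34 46 (.dbl 50 18 26)))) (.nv (.thr 0 1 (.thr 12 9 (.thr 25 28 (.dbl 8 4 59)))) (.nv (.thr 12 9 (.thr 51 35 (.dbl 38 25 54))) (.rp 38 (.thr 35 51 (.thr 12 9 (.thr 25 28 (.thr 0 1 (.dbl 8 4 59))))) (.rp 12 (.thr 28 25 (.thr 51 35 (.thr 38 54 (.thr 0 1 (.dbl 34 17 46))))) .nd)))))) (.rp 28 (.thr 51 35 (.thr 0 1 (.thr 34 17 (.thr 38 46 (.thr 6 54 (.dbl 12 9 25)))))) (.rp 25 (.thr 51 35 (.thr 0 1 (.thr 34 17 (.thr 38 46 (.thr 50 18 (.thr 6 54 (.dbl 14 10 26))))))) (.rp 1 (.thr 51 35 (.thr 25 28 (.thr 17 29 (.thr 34 0 (.dbl 38 12 46))))) (.rp 0 (.str 32 (.nv (.thr 20 23 (.thr 37 47 (.thr 53 5 (.thr 49 57 (.dbl 25 13 28))))) (.nv (.thr 25 28 (.thr 37 47 (.thr 13 49 (.dbl 29 17 45)))) (.rp 49 (.thr 35 51 (.thr 34 33 (.thr 50 18 (.thr 38 46 (.thr 14 26 (.dbl 6 10 54)))))) (.rp 47 (.thr 35 51 (.thr 34 33 (.thr 50 18 (.thr 38 46 (.thr 14 26 (.dbl 6 10 54)))))) (.rp 37 (.thr 35 51 (.thr 25 28 (.thr 29 17 (.thr 34 33 (.thr 45 13 (.thr 50 18 (.thr 38 46 (.thr 14 26 (.dbl 6 10 54))))))))) (.rp 31 (.thr 25 28 (.thr 29 17 (.thr 13 45 (.dbl 37 47 49)))) (.rp 28 (.thr 35 51 (.thr 34 33 (.thr 50 18 (.thr 38 46 (.thr 14 26 (.dbl 6 10 54)))))) (.rp 25 (.thr 35 51 (.thr 34 33 (.thr 50 18 (.thr 38 46 (.thr 14 26 (.dbl 6 10 54)))))) (.rp 20 (.str 40 (.nv (.thr 44 36 (.thr 47 37 (.thr 45 46 (.thr 29 13 (.dbl 25 17 28))))) (.nv (.thr 35 51 (.thr 34 33 (.thr 36 44 (.thr 38 46 (.dbl 37 39 47))))) (.nv (.thr 37 47 (.thr 53 5 (.thr 49 57 (.dbl 25 13 28)))) (.rp 47 (.thr 35 51 (.thr 34 33 (.thr 50 18 (.thr 38 46 (.thr 14 26 (.dbl 6 10 54)))))) (.rp 37 (.str 33 (.nv (.thr 28 25 (.thr 18 48 (.dbl 34 35 50))) (.nv (.dbl 35 34 51) (.rp 35 (.thr 18 48 (.thr 26 30 (.thr 25 28 (.thr 24 27 (.dbl 8 56 59))))) (.rp 34 (.thr 48 18 (.thr 51 35 (.thr 49 50 (.thr 17 1 (.dbl 25 28 29))))) (.rp 28 (.str 24 (.nv (.thr 48 18 (.dbl 36 12 44)) (.nv (.dbl 35 34 51) (.rp 44 (.str 12 (.nv (.dbl 48 18 36) (.nv (.dbl 35 34 51) (.rp 35 (.str 38 (.nv (.dbl 48 18 36) (.nv (.dbl 6 9 54) .nd))) .nd)))) (.rp 12 (.thr 44 36 (.dbl 35 34 51)) .nd))))) .nd)))))) (.rp 28 (.str 24 (.nv (.thr 36 44 (.thr 12 48 (.thr 37 47 (.thr 38 39 (.dbl 6 9 54))))) (.nv (.thr 8 56 (.thr 25 59 (.thr 29 17 (.thr 13 45 (.dbl 37 47 49))))) (.nv (.thr 35 51 (.thr 34 33 (.thr 37 47 (.thr 38 46 (.dbl 36 39 44))))) (.nv (.thr 36 44 (.thr 12 48 (.thr 6 9 (.thr 51 35 (.dbl 38 25 54))))) (.rp 44 (.str 12 (.nv (.thr 37 47 (.thr 48 36 (.thr 18 33 (.dbl 26 15 30)))) (.nv (.thr 6 9 (.thr 51 35 (.dbl 38 25 54))) (.rp 38 (.thr 35 51 (.thr 48 36 (.dbl 33 18 34))) (.rp 35 (.str 38 (.nv (.thr 8 56 (.dbl 25 51 59)) (.nv (.dbl 6 9 54) .nd))) .nd))))) (.rp 12 (.thr 44 36 (.thr 8 56 (.thr 25 59 (.thr 29 17 (.thr 37 47 (.dbl 13 45 49)))))) .nd))))))) (.rp 24 (.thr 28 25 (.thr 35 51 (.thr 34 33 (.thr 36 44 (.thr 38 46 (.dbl 37 39 47)))))) .nd)))))))) (.rp 15 (.thr 35 51 (.thr 34 33 (.thr 50 18 (.thr 38 46 (.thr 14 26 (.dbl 6 10 54)))))) (.rp 13 (.thr 35 51 (.thr 34 33 (.thr 50 18 (.thr 38 46 (.thr 14 26 (.dbl 6 10 54)))))) .nd)))))))))))) .nd))))))))) (.rp 51 (.thr 0 1 (.thr 23 20 (.thr 31 27 (.thr 28 25 (.thr 30 29 (.thr 26 18 (.thr 10 58 (.thr 6 14 (.thr 15 5 (.thr 60 45 (.dbl 12 9 44))))))))))) (.rp 38 (.thr 0 1 (.thr 25 28 (.thr 17 29 (.dbl 51 34 35)))) (.rp 28 (.thr 51 35 (.thr 0 1 (.thr 34 17 (.thr 38 46 (.thr 6 54 (.dbl 12 9 25)))))) (.rp 25 (.thr 51 35 (.thr 0 1 (.thr 34 17 (.thr 50 18 (.thr 38 46 (.thr 6 54 (.dbl 14 10 26))))))) (.rp 1 (.thr 51 35 (.thr 25 28 (.thr 17 29 (.thr 34 0 (.dbl 38 12 46))))) (.rp 0 (.thr 51 35 (.thr 25 28 (.thr 38 12 (.thr 6 54 (.thr 14 10 (.thr 50 26 (.dbl 34 18 46))))))) .nd))))))))))) (.rp 1 (.thr 23 20 (.thr 60 41 (.str 28 (.nv (.thr 12 44 (.thr 25 19 (.thr 17 29 (.thr 8 59 (.thr 4 0 (.dbl 38 51 55)))))) (.nv (.thr 12 44 (.thr 6 9 (.thr 14 10 (.thr 38 54 (.thr 34 46 (.dbl 50 18 26)))))) (.nv (.thr 25 19 (.thr 12 44 (.thr 38 51 (.dbl 6 9 54)))) (.rp 44 (.thr 19 25 (.thr 31 27 (.thr 30 29 (.thr 26 18 (.thr 10 58 (.thr 15 45 (.thr 5 0 (.dbl 37 48 53)))))))) (.rp 38 (.thr 19 25 (.thr 31 27 (.thr 30 29 (.thr 26 18 (.thr 10 58 (.thr 6 14 (.dbl 12 9 44))))))) (.rp 25 (.str 57 (.nv (.thr 12 44 (.thr 6 9 (.dbl 54 38 51))) (.nv (.thr 54 51 (.thr 12 44 (.dbl 6 9 38))) (.rp 54 (.str 50 (.nv (.thr 12 44 (.thr 6 9 (.thr 14 10 (.thr 34 18 (.dbl 38 26 46))))) (.nv (.thr 18 34 (.thr 48 33 (.thr 56 52 (.thr 58 59 (.dbl 26 10 30))))) (.nv (.thr 18 34 (.thr 26 30 (.thr 10 58 (.dbl 14 6 38)))) (.rp 34 (.thr 12 44 (.thr 6 9 (.thr 10 14 (.thr 26 58 (.thr 30 18 (.thr 15 45 (.thr 5 0 (.dbl 37 48 53)))))))) (.rp 26 (.thr 34 18 (.thr 12 44 (.thr 6 9 (.thr 38 46 (.thr 4 55 (.thr 0 8 (.thr 51 17 (.thr 19 35 (.thr 27 31 (.thr 15 39 (.dbl 14 10 13))))))))))) (.rp 18 (.str 51 (.nv (.thr 12 44 (.thr 6 9 (.thr 10 14 (.thr 48 49 (.thr 56 52 (.dbl 58 26 59)))))) (.nv (.thr 19 35 (.thr 44 12 (.thr 27 31 (.thr 15 39 (.thr 48 49 (.thr 37 26 (.thr 47 32 (.dbl 45 30 46)))))))) (.nv (.thr 12 44 (.thr 6 9 (.thr 14 10 (.thr 19 35 (.thr 38 26 (.thr 27 31 (.dbl 15 13 39))))))) (.rp 56 (.thr 49 48 (.thr 53 61 (.thr 19 35 (.thr 27 31 (.thr 44 12 (.thr 15 39 (.thr 45 30 (.thr 37 5 (.dbl 47 32 46))))))))) (.rp 44 (.thr 48 49 (.thr 56 52 (.thr 58 59 (.thr 26 10 (.thr 19 35 (.thr 38 14 (.thr 27 31 (.dbl 15 37 39)))))))) (.rp 35 (.thr 48 49 (.thr 56 52 (.thr 58 59 (.thr 10 26 (.thr 6 14 (.dbl 12 9 44)))))) (.rp 26 (.thr 49 48 (.thr 53 61 (.thr 19 35 (.thr 27 31 (.thr 44 12 (.thr 15 39 (.thr 45 30 (.thr 37 5 (.dbl 47 32 46))))))))) (.rp 19 (.str 17 (.nv (.thr 0 34 (.thr 12 44 (.thr 4 8 (.thr 38 55 (.thr 14 26 (.dbl 6 9 10)))))) (.nv (.thr 12 44 (.thr 6 9 (.thr 48 49 (.thr 56 52 (.thr 58 59 (.dbl 10 14 26)))))) (.nv (.thr 48 49 (.thr 56 52 (.thr 58 59 (.thr 26 10 (.thr 38 14 (.dbl 34 0 46)))))) (.nv (.thr 12 44 (.thr 6 9 (.thr 34 0 (.thr 38 46 (.dbl 14 10 26))))) (.rp 38 (.thr 48 49 (.thr 56 52 (.thr 58 59 (.thr 10 26 (.thr 6 14 (.dbl 12 9 44)))))) (.rp 26 (.thr 49 48 (.thr 53 61 (.thr 0 34 (.thr 12 44 (.thr 6 9 (.thr 10 14 (.dbl 5 15 37))))))) (.rp 14 (.thr 48 49 (.thr 56 52 (.thr 58 59 (.thr 10 26 (.thr 0 34 (.thr 12 44 (.thr 9 6 (.dbl 8 4 11)))))))) (.rp 10 (.thr 48 49 (.thr 34 0 (.thr 12 44 (.thr 38 46 (.thr 36 24 (.thr 37 39 (.dbl 26 14 15))))))) .nd))))))))) (.rp 17 (.thr 19 35 (.thr 27 31 (.thr 49 48 (.thr 53 61 (.thr 44 12 (.thr 15 39 (.thr 45 30 (.thr 37 5 (.dbl 47 32 46))))))))) (.rp 12 (.thr 48 49 (.thr 56 52 (.thr 58 59 (.thr 26 10 (.thr 19 35 (.thr 27 31 (.dbl 15 37 39))))))) .nd))))))))))) (.rp 10 (.thr 18 34 (.thr 26 30 (.thr 48 33 (.thr 49 51 (.thr 53 61 (.dbl 37 5 15)))))) .nd)))))))) (.rp 51 (.thr 12 44 (.thr 6 9 (.thr 14 10 (.thr 38 54 (.thr 50 26 (.dbl 34 18 46)))))) (.rp 44 (.thr 54 51 (.thr 38 6 (.thr 34 46 (.thr 18 50 (.thr 48 33 (.thr 52 56 (.dbl 55 4 53))))))) (.rp 38 (.thr 51 54 (.thr 44 12 (.thr 19 35 (.thr 27 31 (.thr 15 39 (.thr 30 45 (.thr 18 26 (.thr 50 34 (.dbl 48 33 49))))))))) (.rp 35 (.thr 54 51 (.thr 38 6 (.thr 34 46 (.thr 18 50 (.thr 48 33 (.thr 52 56 (.dbl 55 4 53))))))) (.rp 12 (.thr 51 54 (.thr 19 35 (.thr 27 31 (.thr 15 39 (.thr 30 45 (.thr 18 26 (.thr 50 34 (.dbl 48 33 49)))))))) (.rp 9 (.thr 54 51 (.thr 38 6 (.thr 34 46 (.thr 18 50 (.thr 48 33 (.thr 52 56 (.dbl 55 4 53))))))) (.rp 6 (.thr 51 54 (.thr 19 35 (.thr 27 31 (.thr 15 39 (.thr 30 45 (.thr 18 26 (.thr 50 34 (.dbl 48 33 49)))))))) .nd))))))))))) (.rp 12 (.thr 19 25 (.thr 27 31 (.thr 51 35 (.thr 15 39 (.thr 30 45 (.thr 18 26 (.thr 50 34 (.dbl 48 33 49)))))))) .nd)))))))))) (.rp 0 (.thr 41 60 (.thr 61 1 (.str 32 (.nv (.thr 20 23 (.thr 37 47 (.thr 45 33 (.thr 53 5 (.thr 49 57 (.dbl 13 25 29)))))) (.nv (.thr 40 43 (.thr 44 36 (.thr 38 35 (.thr 47 37 (.dbl 46 34 45))))) (.rp 47 (.thr 40 43 (.thr 44 36 (.thr 35 38 (.thr 33 34 (.thr 37 45 (.thr 53 5 (.thr 49 57 (.thr 48 18 (.dbl 51 19 50))))))))) (.rp 45 (.thr 40 43 (.thr 44 36 (.thr 38 35 (.thr 6 54 (.thr 14 10 (.thr 50 26 (.dbl 34 18 46))))))) (.rp 37 (.thr 40 43 (.thr 44 36 (.thr 38 35 (.thr 6 54 (.thr 14 10 (.thr 50 26 (.dbl 34 18 46))))))) .nd)))))))) .nd)))))))) (.rp 15 (.thr 23 20 (.str 31 (.nv (.thr 2 62 (.thr 26 16 (.thr 10 58 (.thr 14 6 (.thr 18 30 (.dbl 50 34 38)))))) (.nv (.thr 19 27 (.thr 26 16 (.thr 28 25 (.dbl 30 18 29)))) (.rp 30 (.thr 19 27 (.thr 16 26 (.thr 17 18 (.dbl 25 28 29)))) (.rp 28 (.thr 27 19 (.thr 2 62 (.thr 26 16 (.thr 24 25 (.thr 18 30 (.thr 50 34 (.thr 14 38 (.dbl 10 6 58)))))))) (.rp 26 (.str 3 (.nv (.thr 2 62 (.thr 1 0 (.dbl 41 60 61))) (.rp 62 (.thr 19 27 (.thr 51 35 (.thr 25 28 (.thr 17 29 (.thr 34 0 (.dbl 38 12 46)))))) (.rp 61 (.thr 19 27 (.thr 51 35 (.thr 25 28 (.thr 17 29 (.thr 34 0 (.dbl 38 12 46)))))) (.rp 60 (.thr 19 27 (.thr 51 35 (.thr 25 28 (.thr 17 29 (.thr 0 34 (.dbl 2 1 62)))))) (.rp 48 (.str 37 (.nv (.thr 2 62 (.thr 1 0 (.dbl 41 60 61))) (.rp 62 (.thr 19 27 (.thr 51 35 (.thr 60 41 (.thr 54 57 (.thr 38 6 (.dbl 25 12 28)))))) (.rp 61 (.thr 19 27 (.thr 51 35 (.thr 60 41 (.thr 54 57 (.thr 38 6 (.dbl 25 12 28)))))) (.rp 60 (.thr 19 27 (.thr 51 35 (.thr 25 28 (.thr 17 29 (.thr 0 34 (.dbl 2 1 62)))))) (.rp 58 (.thr 53 5 (.thr 19 27 (.thr 41 60 (.thr 61 1 (.thr 49 57 (.dbl 25 13 28)))))) (.rp 53 (.str 58 (.nv (.thr 19 27 (.thr 51 35 (.thr 60 41 (.thr 54 57 (.dbl 62 2 50))))) (.nv (.thr 19 27 (.thr 25 28 (.thr 59 8 (.thr 57 56 (.dbl 41 9 60))))) (.nv (.thr 2 62 (.thr 1 0 (.dbl 41 60 61))) (.rp 60 (.thr 19 27 (.thr 51 35 (.thr 62 2 (.thr 54 50 (.thr 38 6 (.dbl 25 12 28)))))) (.rp 41 (.thr 19 27 (.thr 51 35 (.thr 2 62 (.thr 0 1 (.thr 17 34 (.dbl 25 28 29)))))) .nd)))))) (.rp 41 (.thr 19 27 (.thr 51 35 (.thr 2 62 (.thr 0 1 (.thr 17 34 (.dbl 25 28 29)))))) (.rp 40 (.thr 19 27 (.thr 51 35 (.thr 2 62 (.thr 0 1 (.thr 17 34 (.dbl 25 28 29)))))) (.rp 32 (.thr 19 27 (.thr 51 35 (.thr 2 62 (.thr 0 1 (.thr 25 28 (.dbl 17 29 34)))))) (.rp 16 (.thr 2 62 (.thr 32 47 (.thr 1 0 (.dbl 41 60 61)))) (.rp 10 (.thr 19 27 (.thr 51 35 (.thr 2 62 (.thr 0 1 (.thr 17 34 (.dbl 25 28 29)))))) (.rp 5 (.thr 19 27 (.thr 51 35 (.thr 2 62 (.thr 0 1 (.thr 17 34 (.dbl 25 28 29)))))) (.rp 2 (.thr 19 27 (.thr 51 35 (.thr 41 60 (.thr 25 28 (.thr 9 57 (.dbl 12 6 38)))))) (.rp 1 (.thr 19 27 (.thr 51 35 (.thr 41 60 (.thr 25 28 (.thr 9 57 (.dbl 12 6 38)))))) (.rp 0 (.thr 19 27 (.thr 51 35 (.thr 60 41 (.thr 54 57 (.thr 38 6 (.dbl 25 12 28)))))) .nd)))))))))))))))) (.rp 41 (.thr 19 27 (.thr 51 35 (.thr 2 62 (.thr 0 1 (.thr 17 34 (.dbl 25 28 29)))))) (.rp 40 (.thr 19 27 (.thr 51 35 (.thr 2 62 (.thr 0 1 (.thr 17 34 (.dbl 25 28 29)))))) (.rp 37 (.str 48 (.nv (.thr 19 27 (.thr 25 28 (.thr 17 29 (.dbl 18 16 33)))) (.nv (.thr 2 62 (.thr 1 0 (.dbl 41 60 61))) .nd))) (.rp 10 (.thr 19 27 (.thr 51 35 (.thr 2 62 (.thr 0 1 (.thr 17 34 (.dbl 25 28 29)))))) (.rp 5 (.thr 19 27 (.thr 51 35 (.thr 2 62 (.thr 0 1 (.thr 17 34 (.dbl 25 28 29)))))) (.rp 2 (.thr 19 27 (.thr 51 35 (.thr 25 28 (.thr 17 29 (.thr 34 0 (.dbl 38 12 46)))))) (.rp 1 (.thr 19 27 (.thr 51 35 (.thr 25 28 (.thr 17 29 (.thr 34 0 (.dbl 38 12 46)))))) (.rp 0 (.thr 19 27 (.thr 51 35 (.thr 25 28 (.thr 38 12 (.thr 54 6 (.dbl 60 41 57)))))) .nd)))))))))))))) (.rp 18 (.thr 19 27 (.thr 62 2 (.thr 26 16 (.thr 58 10 (.thr 50 54 (.thr 14 38 (.thr 30 46 (.dbl 28 25 29)))))))) (.rp 16 (.thr 19 27 (.thr 62 2 (.thr 28 25 (.thr 30 29 (.thr 26 18 (.thr 58 10 (.thr 50 54 (.dbl 14 38 46)))))))) (.rp 11 (.str 3 (.nv (.thr 19 27 (.thr 25 28 (.thr 17 29 (.dbl 16 18 26)))) (.nv (.thr 2 62 (.thr 1 0 (.dbl 41 60 61))) .nd))) (.rp 3 (.str 11 (.nv (.thr 27 19 (.thr 43 59 (.thr 41 40 (.dbl 26 16 56)))) (.nv (.thr 2 62 (.thr 26 16 (.thr 10 58 (.thr 14 6 (.thr 18 30 (.dbl 50 34 38)))))) (.nv (.thr 19 27 (.thr 26 16 (.thr 28 25 (.dbl 30 18 29)))) (.rp 26 (.thr 19 27 (.thr 25 28 (.thr 17 29 (.thr 8 59 (.thr 9 10 (.thr 41 57 (.thr 1 61 (.thr 49 33 (.dbl 13 5 37))))))))) (.rp 16 (.thr 19 27 (.thr 62 2 (.thr 28 25 (.thr 30 29 (.thr 26 18 (.thr 58 10 (.thr 50 54 (.dbl 14 38 46)))))))) .nd)))))) .nd))))))))))) (.rp 14 (.str 19 (.nv (.thr 20 23 (.thr 28 25 (.thr 16 24 (.thr 26 31 (.dbl 18 17 30))))) (.nv (.thr 23 20 (.thr 31 27 (.thr 26 16 (.thr 28 25 (.dbl 30 18 29))))) (.rp 31 (.thr 25 28 (.thr 29 17 (.str 3 (.nv (.thr 2 62 (.thr 0 1 (.thr 20 23 (.dbl 60 40 41)))) (.nv (.thr 51 35 (.thr 38 12 (.thr 60 41 (.dbl 54 6 57)))) (.rp 60 (.thr 8 59 (.thr 51 35 (.thr 12 38 (.thr 0 4 (.dbl 2 1 62))))) (.rp 47 (.str 15 (.nv (.thr 51 35 (.thr 38 12 (.thr 60 41 (.dbl 54 6 57)))) (.nv (.thr 2 62 (.thr 1 0 (.dbl 41 60 61))) (.rp 60 (.thr 8 59 (.thr 51 35 (.thr 12 38 (.thr 0 4 (.dbl 2 1 62))))) (.rp 51 (.thr 20 23 (.thr 2 62 (.thr 0 1 (.dbl 60 40 41)))) (.rp 41 (.thr 8 59 (.thr 51 35 (.thr 2 62 (.thr 0 1 (.dbl 12 4 38))))) .nd)))))) (.rp 41 (.thr 8 59 (.thr 51 35 (.thr 2 62 (.thr 0 1 (.dbl 12 4 38))))) (.rp 15 (.str 47 (.nv (.thr 8 59 (.thr 51 35 (.thr 12 38 (.thr 0 4 (.dbl 2 1 62))))) (.nv (.thr 2 62 (.thr 37 32 (.thr 5 53 (.thr 13 49 (.dbl 1 0 9))))) (.nv (.thr 51 35 (.thr 60 41 (.thr 54 57 (.dbl 38 6 12)))) (.rp 13 (.str 12 (.nv (.thr 9 6 (.dbl 41 57 60)) (.nv (.dbl 51 35 38) .nd))) (.rp 12 (.str 13 (.nv (.thr 61 45 (.dbl 41 1 60)) (.nv (.dbl 37 32 49) (.rp 60 (.str 44 (.nv (.thr 62 2 (.dbl 37 32 49)) (.nv (.dbl 45 46 61) (.rp 62 (.thr 61 45 (.str 30 (.nv (.thr 35 51 (.dbl 41 1 38)) (.nv (.dbl 37 32 49) .nd)))) (.rp 45 (.str 30 (.nv (.thr 35 51 (.thr 41 38 (.dbl 43 39 40))) (.nv (.dbl 37 32 49) (.rp 62 (.str 61 (.nv (.thr 35 51 (.dbl 41 1 38)) (.nv (.dbl 37 32 49) .nd))) (.rp 61 (.thr 62 2 (.dbl 37 32 49)) .nd))))) .nd))))) (.rp 44 (.thr 60 41 (.dbl 37 32 49)) .nd))))) .nd)))))) .nd))))))))) (.rp 30 (.thr 23 20 (.thr 31 27 (.thr 16 26 (.thr 17 18 (.dbl 25 28 29))))) (.rp 28 (.str 3 (.nv (.thr 20 23 (.thr 60 41 (.thr 0 40 (.dbl 2 1 62)))) (.nv (.thr 2 62 (.thr 1 0 (.dbl 41 60 61))) (.rp 62 (.thr 51 35 (.thr 20 23 (.thr 60 41 (.thr 54 57 (.thr 38 6 (.thr 0 40 (.dbl 34 17 46))))))) (.rp 60 (.thr 51 35 (.thr 23 20 (.thr 31 27 (.thr 16 26 (.thr 17 18 (.thr 0 34 (.dbl 2 1 62))))))) (.rp 41 (.thr 51 35 (.thr 2 62 (.thr 0 1 (.thr 17 34 (.thr 25 29 (.thr 8 59 (.dbl 12 4 38))))))) (.rp 2 (.thr 35 51 (.thr 41 60 (.thr 43 40 (.thr 47 39 (.thr 37 32 (.thr 45 33 (.dbl 44 38 46))))))) (.rp 1 (.thr 35 51 (.thr 41 60 (.thr 43 40 (.thr 47 39 (.thr 37 32 (.thr 45 33 (.dbl 44 38 46))))))) (.rp 0 (.thr 35 51 (.thr 41 60 (.thr 40 43 (.thr 44 38 (.thr 32 36 (.thr 37 47 (.dbl 33 34 45))))))) .nd))))))))) (.rp 26 (.thr 23 20 (.thr 27 31 (.thr 25 28 (.thr 29 17 (.thr 59 8 (.thr 43 11 (.thr 41 40 (.thr 61 1 (.thr 13 45 (.thr 49 37 (.dbl 57 9 53))))))))))) (.rp 25 (.str 3 (.nv (.thr 20 23 (.thr 60 41 (.thr 0 40 (.dbl 2 1 62)))) (.nv (.thr 2 62 (.thr 1 0 (.dbl 41 60 61))) (.rp 62 (.thr 35 51 (.thr 41 60 (.thr 61 1 (.thr 43 40 (.thr 47 39 (.thr 37 32 (.thr 45 33 (.dbl 44 38 46)))))))) (.rp 60 (.thr 51 35 (.thr 23 20 (.thr 31 27 (.thr 26 16 (.thr 18 30 (.thr 48 33 (.thr 50 49 (.dbl 2 34 62)))))))) (.rp 41 (.thr 51 35 (.thr 2 62 (.thr 0 1 (.thr 17 34 (.thr 16 18 (.thr 31 26 (.dbl 23 20 27))))))) (.rp 2 (.thr 35 51 (.thr 41 60 (.thr 43 40 (.thr 47 39 (.thr 37 32 (.thr 45 33 (.dbl 44 38 46))))))) (.rp 1 (.thr 35 51 (.thr 41 60 (.thr 43 40 (.thr 47 39 (.thr 37 32 (.thr 45 33 (.dbl 44 38 46))))))) (.rp 0 (.thr 35 51 (.thr 41 60 (.thr 38 44 (.thr 34 46 (.thr 32 33 (.thr 47 37 (.dbl 43 39 40))))))) .nd))))))))) (.rp 23 (.thr 2 62 (.thr 25 28 (.thr 17 29 (.thr 18 16 (.thr 34 50 (.thr 51 0 (.dbl 38 12 46))))))) (.rp 20 (.thr 25 28 (.thr 17 29 (.thr 16 18 (.thr 31 26 (.thr 27 23 (.thr 59 8 (.thr 43 11 (.thr 41 40 (.thr 9 57 (.thr 1 61 (.thr 49 33 (.dbl 13 5 37)))))))))))) (.rp 18 (.thr 23 20 (.thr 27 31 (.thr 25 28 (.thr 29 17 (.thr 59 8 (.thr 43 11 (.thr 41 40 (.thr 61 1 (.thr 13 45 (.thr 49 37 (.dbl 57 9 53))))))))))) (.rp 16 (.thr 23 20 (.thr 27 31 (.thr 25 28 (.thr 24 26 (.thr 29 17 (.thr 59 8 (.thr 43 11 (.thr 41 40 (.thr 61 1 (.thr 13 45 (.thr 49 37 (.dbl 57 9 53)))))))))))) .nd)))))))))))) (.rp 13 (.str 26 (.nv (.thr 2 62 (.thr 10 58 (.thr 14 6 (.thr 18 30 (.dbl 50 34 38))))) (.nv (.thr 23 20 (.thr 31 16 (.thr 19 27 (.thr 30 18 (.dbl 28 25 29))))) (.rp 30 (.thr 10 58 (.thr 2 62 (.thr 14 6 (.thr 50 38 (.thr 18 34 (.thr 16 31 (.thr 19 17 (.thr 20 23 (.dbl 28 24 25))))))))) (.rp 18 (.thr 58 10 (.thr 62 2 (.thr 50 54 (.thr 14 38 (.thr 30 46 (.thr 31 16 (.thr 23 20 (.thr 19 27 (.dbl 28 25 29))))))))) .nd))))) (.rp 12 (.str 26 (.nv (.thr 2 62 (.thr 10 58 (.thr 14 6 (.thr 18 30 (.dbl 50 34 38))))) (.nv (.thr 30 18 (.thr 23 20 (.thr 31 16 (.thr 19 27 (.dbl 28 25 29))))) (.rp 46 (.str 29 (.nv (.thr 16 31 (.thr 20 23 (.thr 24 28 (.dbl 25 17 27)))) (.nv (.thr 30 18 (.dbl 31 16 28)) (.rp 31 (.thr 18 30 (.thr 10 58 (.thr 2 62 (.thr 14 6 (.dbl 50 34 38))))) (.rp 28 (.thr 18 30 (.thr 17 25 (.dbl 16 19 31))) (.rp 16 (.thr 30 18 (.thr 28 31 (.dbl 25 17 19))) .nd)))))) (.rp 30 (.thr 20 23 (.thr 16 31 (.thr 28 24 (.thr 19 25 (.thr 18 17 (.thr 2 62 (.thr 10 58 (.thr 14 6 (.dbl 50 34 38))))))))) (.rp 29 (.str 46 (.nv (.thr 2 62 (.thr 10 58 (.thr 6 14 (.dbl 38 34 54)))) (.nv (.thr 30 18 (.dbl 62 2 14)) (.rp 62 (.str 60 (.nv (.thr 10 58 (.thr 30 18 (.thr 15 45 (.thr 0 5 (.dbl 20 23 40))))) (.nv (.thr 30 18 (.thr 15 45 (.thr 48 37 (.thr 56 52 (.dbl 41 3 11))))) (.nv (.thr 20 23 (.thr 40 0 (.dbl 41 3 43))) .nd)))) (.rp 14 (.thr 18 30 (.thr 34 38 (.dbl 2 50 62))) (.rp 2 (.thr 30 18 (.thr 14 62 (.dbl 38 34 50))) .nd)))))) (.rp 18 (.str 29 (.nv (.thr 31 16 (.thr 28 30 (.dbl 25 17 19))) (.rp 31 (.thr 25 17 (.thr 27 24 (.thr 59 8 (.thr 11 43 (.thr 58 10 (.dbl 56 41 57)))))) (.rp 30 (.thr 25 17 (.thr 19 28 (.thr 27 24 (.dbl 31 16 23)))) (.rp 28 (.thr 25 17 (.thr 27 24 (.thr 59 8 (.thr 11 43 (.thr 58 10 (.dbl 56 41 57)))))) (.rp 25 (.thr 31 16 (.thr 30 28 (.thr 62 2 (.thr 14 46 (.thr 58 10 (.dbl 50 38 54)))))) (.rp 19 (.thr 62 2 (.thr 58 10 (.thr 50 54 (.thr 14 38 (.thr 30 46 (.dbl 31 16 28)))))) (.rp 17 (.thr 23 20 (.thr 31 16 (.thr 19 27 (.dbl 28 25 30)))) (.rp 16 (.thr 25 17 (.thr 19 28 (.thr 24 27 (.thr 8 59 (.thr 10 58 (.thr 11 9 (.dbl 56 40 41))))))) .nd))))))))) .nd))))))) (.rp 11 (.str 26 (.nv (.thr 2 62 (.thr 10 58 (.thr 14 6 (.thr 18 30 (.dbl 50 34 38))))) (.nv (.thr 16 31 (.thr 18 30 (.thr 19 17 (.thr 28 25 (.dbl 20 23 24))))) (.rp 30 (.thr 10 58 (.thr 2 62 (.thr 14 6 (.thr 50 38 (.thr 18 34 (.thr 16 31 (.thr 19 17 (.thr 20 23 (.dbl 28 24 25))))))))) (.rp 18 (.thr 58 10 (.thr 62 2 (.thr 50 54 (.thr 14 38 (.thr 30 46 (.thr 31 16 (.thr 23 20 (.thr 19 27 (.dbl 28 25 29))))))))) (.rp 15 (.str 3 (.nv (.thr 23 20 (.thr 30 18 (.thr 31 16 (.thr 19 27 (.dbl 28 25 29))))) (.nv (.thr 2 62 (.thr 1 0 (.dbl 41 60 61))) (.rp 47 (.thr 31 16 (.thr 2 62 (.thr 1 0 (.dbl 41 60 61)))) (.rp 31 (.str 47 (.nv (.thr 18 30 (.thr 33 48 (.thr 37 32 (.dbl 41 45 60)))) (.nv (.thr 18 30 (.thr 32 37 (.thr 33 48 (.thr 34 35 (.dbl 2 50 62))))) (.nv (.thr 2 62 (.thr 1 0 (.dbl 41 60 61))) (.rp 60 (.thr 30 18 (.thr 58 10 (.thr 62 2 (.thr 14 46 (.dbl 50 38 54))))) .nd))))) .nd))))) (.rp 3 (.str 15 (.nv (.thr 16 31 (.thr 18 30 (.thr 19 17 (.thr 28 25 (.dbl 20 23 24))))) (.nv (.thr 10 58 (.thr 5 0 (.dbl 37 48 53))) (.rp 43 (.thr 23 20 (.thr 10 58 (.thr 5 0 (.dbl 37 48 53)))) (.rp 23 (.str 43 (.nv (.thr 30 18 (.thr 41 40 (.thr 45 60 (.dbl 37 33 48)))) (.nv (.thr 2 62 (.thr 18 30 (.thr 50 34 (.thr 14 38 (.dbl 10 6 58))))) (.nv (.thr 10 58 (.thr 5 0 (.dbl 37 48 53))) (.rp 55 (.str 39 (.nv (.thr 10 58 (.thr 5 0 (.dbl 37 48 53))) (.nv (.thr 47 35 (.dbl 37 32 48)) (.rp 59 (.thr 51 27 (.thr 47 35 (.dbl 37 32 48))) (.rp 51 (.str 59 (.nv (.thr 35 47 (.thr 10 58 (.thr 5 0 (.dbl 37 48 53)))) (.nv (.thr 16 31 (.thr 18 30 (.thr 19 17 (.dbl 25 8 28)))) (.nv (.thr 25 8 (.thr 19 28 (.thr 47 35 (.dbl 37 32 48)))) (.rp 35 (.str 19 (.nv (.thr 16 31 (.dbl 18 17 30)) (.nv (.dbl 25 8 28) .nd))) .nd))))) (.rp 48 (.thr 18 30 (.thr 2 62 (.thr 50 34 (.thr 14 38 (.dbl 10 6 58))))) (.rp 37 (.thr 47 35 (.thr 30 18 (.thr 62 2 (.thr 46 14 (.dbl 45 44 60))))) .nd))))))) (.rp 39 (.str 55 (.nv (.thr 2 62 (.thr 18 30 (.thr 50 34 (.dbl 38 4 14)))) (.nv (.thr 10 58 (.thr 5 0 (.dbl 37 48 53))) (.rp 2 (.thr 30 18 (.thr 41 40 (.thr 45 60 (.dbl 37 33 48)))) .nd)))) .nd)))))) .nd))))) .nd))))))) (.rp 10 (.str 28 (.nv (.thr 20 23 (.thr 16 24 (.thr 25 19 (.thr 31 26 (.dbl 29 17 30))))) (.nv (.thr 19 25 (.thr 23 20 (.thr 31 27 (.thr 26 16 (.dbl 30 18 29))))) (.rp 31 (.thr 20 23 (.thr 24 16 (.thr 25 19 (.thr 27 26 (.thr 8 59 (.thr 40 56 (.thr 60 0 (.dbl 41 3 43)))))))) (.rp 30 (.thr 20 23 (.thr 24 16 (.thr 25 19 (.thr 8 59 (.thr 40 56 (.thr 60 0 (.dbl 41 3 43))))))) (.rp 29 (.thr 20 23 (.thr 16 24 (.thr 26 31 (.thr 18 30 (.dbl 19 17 25))))) (.rp 26 (.thr 20 23 (.thr 24 16 (.thr 25 19 (.thr 8 59 (.thr 40 56 (.thr 60 0 (.dbl 41 3 43))))))) (.rp 25 (.str 3 (.nv (.thr 2 62 (.thr 60 41 (.thr 0 1 (.dbl 20 23 40)))) (.nv (.thr 2 62 (.thr 1 0 (.dbl 41 60 61))) (.rp 62 (.thr 20 23 (.thr 24 16 (.thr 60 41 (.thr 12 44 (.thr 0 40 (.thr 4 8 (.dbl 36 48 52))))))) (.rp 60 (.thr 20 23 (.thr 16 24 (.thr 26 31 (.thr 18 30 (.thr 48 33 (.thr 0 32 (.dbl 2 1 62))))))) (.rp 41 (.thr 20 23 (.thr 16 24 (.thr 26 31 (.thr 18 30 (.thr 2 62 (.thr 0 1 (.dbl 48 32 33))))))) (.rp 2 (.thr 20 23 (.thr 24 16 (.thr 60 41 (.thr 12 44 (.thr 0 40 (.thr 4 8 (.dbl 36 48 52))))))) (.rp 1 (.thr 20 23 (.thr 24 16 (.thr 60 41 (.thr 12 44 (.thr 0 40 (.thr 4 8 (.dbl 36 48 52))))))) (.rp 0 (.thr 20 23 (.thr 16 24 (.thr 26 31 (.thr 30 18 (.thr 62 2 (.thr 14 46 (.thr 60 41 (.thr 15 45 (.dbl 12 13 44))))))))) .nd))))))))) (.rp 23 (.thr 25 19 (.thr 29 17 (.thr 31 30 (.thr 16 26 (.thr 24 20 (.thr 8 59 (.thr 40 56 (.thr 41 43 (.thr 3 60 (.thr 57 9 (.thr 61 1 (.thr 49 53 (.dbl 13 37 45))))))))))))) (.rp 20 (.thr 2 62 (.thr 25 19 (.thr 29 17 (.thr 30 31 (.thr 18 26 (.thr 34 50 (.thr 38 46 (.thr 12 51 (.thr 60 44 (.thr 3 41 (.dbl 6 9 54))))))))))) (.rp 19 (.thr 2 62 (.str 3 (.nv (.thr 60 41 (.thr 0 1 (.dbl 20 23 40))) (.nv (.thr 1 0 (.dbl 41 60 61)) (.rp 60 (.str 61 (.nv (.dbl 1 0 41) (.rp 41 (.thr 20 23 (.thr 16 24 (.thr 0 1 (.thr 48 32 (.thr 18 33 (.dbl 26 30 31)))))) (.rp 1 (.str 26 (.nv (.thr 20 23 (.dbl 16 24 31)) (.nv (.thr 30 18 (.dbl 31 16 29)) (.rp 31 (.thr 18 30 (.thr 50 34 (.thr 48 33 (.thr 49 51 (.thr 57 53 (.thr 14 38 (.thr 15 37 (.thr 12 13 (.thr 9 6 (.thr 41 25 (.thr 56 11 (.thr 40 43 (.dbl 24 8 36))))))))))))) (.rp 16 (.thr 18 30 (.thr 34 50 (.thr 33 48 (.thr 32 35 (.thr 37 47 (.thr 53 5 (.thr 49 57 (.thr 13 25 (.dbl 45 29 41))))))))) .nd))))) (.rp 0 (.thr 20 23 (.thr 16 24 (.thr 31 26 (.thr 29 30 (.thr 25 17 (.thr 41 1 (.thr 57 9 (.thr 49 53 (.dbl 13 37 45))))))))) .nd))))) (.rp 41 (.thr 0 1 (.thr 20 23 (.thr 16 24 (.thr 48 32 (.thr 18 33 (.dbl 26 30 31)))))) (.rp 1 (.thr 20 23 (.thr 24 16 (.thr 60 41 (.thr 12 44 (.thr 0 40 (.thr 4 8 (.dbl 36 48 52))))))) (.rp 0 (.thr 20 23 (.thr 24 16 (.thr 60 41 (.thr 12 44 (.thr 6 9 (.thr 38 54 (.thr 34 46 (.thr 48 36 (.dbl 18 33 50))))))))) .nd)))))))) (.rp 16 (.str 60 (.nv (.thr 12 44 (.thr 25 19 (.thr 8 59 (.thr 4 0 (.dbl 38 51 55))))) (.nv (.thr 2 62 (.thr 3 41 (.thr 0 1 (.dbl 20 23 40)))) (.rp 0 (.thr 12 44 (.thr 25 19 (.thr 38 51 (.thr 6 54 (.dbl 3 9 41))))) .nd)))) .nd)))))))))))) (.rp 9 (.str 26 (.nv (.thr 2 62 (.thr 10 58 (.thr 14 6 (.thr 18 30 (.dbl 50 34 38))))) (.nv (.thr 23 20 (.thr 31 16 (.thr 19 27 (.thr 30 18 (.dbl 28 25 29))))) (.rp 30 (.thr 10 58 (.thr 2 62 (.thr 14 6 (.thr 50 38 (.thr 18 34 (.thr 16 31 (.thr 19 17 (.thr 20 23 (.dbl 28 24 25))))))))) (.rp 18 (.thr 58 10 (.thr 62 2 (.thr 50 54 (.thr 14 38 (.thr 30 46 (.thr 31 16 (.thr 23 20 (.thr 19 27 (.dbl 28 25 29))))))))) .nd))))) (.rp 8 (.str 26 (.nv (.thr 2 62 (.thr 10 58 (.thr 14 6 (.thr 18 30 (.dbl 50 34 38))))) (.nv (.thr 30 18 (.thr 23 20 (.thr 31 16 (.thr 19 27 (.dbl 28 25 29))))) (.rp 30 (.thr 20 23 (.thr 16 31 (.thr 28 24 (.thr 19 25 (.thr 18 17 (.thr 2 62 (.thr 10 58 (.thr 14 6 (.dbl 50 34 38))))))))) (.rp 18 (.thr 23 20 (.thr 31 16 (.thr 19 27 (.thr 28 25 (.thr 30 29 (.thr 62 2 (.thr 58 10 (.thr 50 54 (.dbl 14 38 46))))))))) .nd))))) (.rp 6 (.str 26 (.nv (.thr 30 18 (.thr 58 10 (.thr 62 2 (.thr 14 46 (.dbl 50 38 54))))) (.nv (.thr 23 20 (.thr 31 16 (.thr 19 27 (.thr 30 18 (.dbl 28 25 29))))) (.rp 30 (.str 3 (.nv (.thr 20 23 (.thr 60 41 (.thr 0 40 (.dbl 2 1 62)))) (.nv (.thr 2 62 (.thr 1 0 (.dbl 41 60 61))) (.rp 62 (.thr 10 58 (.thr 16 31 (.thr 20 23 (.thr 60 41 (.thr 0 40 (.thr 48 32 (.dbl 15 5 37))))))) (.rp 60 (.thr 16 31 (.thr 20 23 (.thr 28 24 (.thr 19 25 (.thr 51 35 (.thr 17 18 (.thr 0 34 (.dbl 2 1 62)))))))) (.rp 41 (.thr 10 58 (.thr 2 62 (.thr 0 1 (.thr 16 31 (.thr 48 32 (.dbl 15 5 37)))))) (.rp 5 (.str 4 (.nv (.thr 20 23 (.thr 60 41 (.thr 0 40 (.dbl 2 1 62)))) (.nv (.thr 2 62 (.thr 1 0 (.dbl 41 60 61))) (.rp 62 (.thr 23 20 (.thr 31 16 (.thr 19 27 (.thr 38 55 (.thr 51 35 (.dbl 25 12 28)))))) (.rp 60 (.thr 23 20 (.thr 31 16 (.thr 19 27 (.thr 38 55 (.thr 51 35 (.dbl 25 12 28)))))) (.rp 41 (.thr 23 20 (.thr 31 16 (.thr 19 27 (.thr 38 55 (.thr 51 35 (.dbl 25 12 28)))))) (.rp 2 (.thr 23 20 (.thr 31 16 (.thr 27 19 (.thr 41 60 (.thr 11 56 (.dbl 43 40 59)))))) (.rp 1 (.thr 23 20 (.thr 31 16 (.thr 27 19 (.thr 41 60 (.thr 11 56 (.dbl 43 40 59)))))) (.rp 0 (.thr 23 20 (.thr 31 16 (.thr 19 27 (.thr 38 55 (.thr 51 35 (.dbl 25 12 28)))))) .nd))))))))) (.rp 4 (.str 5 (.nv (.thr 2 62 (.thr 0 1 (.thr 20 23 (.dbl 60 40 41)))) (.nv (.thr 10 58 (.thr 15 0 (.dbl 37 48 53))) (.rp 0 (.thr 37 53 (.thr 48 15 (.thr 33 18 (.dbl 41 45 60)))) .nd)))) (.rp 2 (.thr 10 58 (.thr 41 60 (.thr 43 40 (.thr 11 56 (.thr 59 27 (.dbl 8 9 25)))))) (.rp 1 (.thr 10 58 (.thr 41 60 (.thr 43 40 (.thr 11 56 (.thr 59 27 (.dbl 8 9 25)))))) (.rp 0 (.thr 10 58 (.thr 41 60 (.thr 11 56 (.thr 8 9 (.thr 59 25 (.dbl 43 27 40)))))) .nd))))))))))) (.rp 29 (.thr 18 30 (.thr 20 23 (.thr 16 31 (.thr 28 24 (.dbl 19 17 25))))) (.rp 18 (.str 11 (.nv (.thr 10 58 (.thr 8 9 (.thr 16 31 (.thr 56 41 (.thr 24 40 (.dbl 20 23 28)))))) (.nv (.thr 23 20 (.thr 31 16 (.thr 41 56 (.thr 43 40 (.dbl 27 19 59))))) (.nv (.thr 10 58 (.thr 8 9 (.thr 23 20 (.thr 31 16 (.thr 19 27 (.dbl 25 28 59)))))) (.nv (.thr 41 56 (.thr 43 40 (.thr 59 27 (.thr 8 25 (.dbl 10 9 58))))) (.rp 24 (.thr 10 58 (.thr 8 9 (.thr 59 25 (.thr 43 27 (.dbl 41 40 56))))) (.rp 8 (.thr 23 20 (.thr 31 16 (.thr 58 10 (.thr 56 41 (.thr 59 57 (.dbl 27 19 43)))))) (.rp 5 (.str 4 (.nv (.thr 23 20 (.thr 31 16 (.thr 41 56 (.thr 43 40 (.dbl 27 19 59))))) (.nv (.thr 10 58 (.thr 8 9 (.thr 12 0 (.thr 38 55 (.dbl 25 51 59))))) (.nv (.thr 41 56 (.thr 43 40 (.thr 59 27 (.thr 8 25 (.dbl 10 9 58))))) (.rp 59 (.thr 20 23 (.thr 16 31 (.thr 24 28 (.thr 10 58 (.thr 8 9 (.dbl 56 40 41)))))) (.rp 8 (.thr 23 20 (.thr 31 16 (.thr 58 10 (.thr 56 41 (.thr 59 57 (.dbl 27 19 43)))))) .nd)))))) (.rp 4 (.str 5 (.nv (.thr 41 56 (.thr 1 61 (.thr 9 13 (.dbl 10 8 58)))) (.nv (.thr 10 58 (.thr 15 0 (.dbl 37 48 53))) (.rp 58 (.thr 23 20 (.thr 31 16 (.thr 41 56 (.thr 43 40 (.dbl 27 19 59))))) (.rp 10 (.thr 23 20 (.thr 31 16 (.thr 41 56 (.thr 43 40 (.dbl 27 19 59))))) (.rp 8 (.thr 20 23 (.thr 10 58 (.thr 0 15 (.thr 40 60 (.dbl 41 43 56))))) .nd)))))) .nd))))))))) (.rp 5 (.str 4 (.nv (.thr 16 31 (.thr 18 30 (.thr 19 17 (.thr 28 25 (.dbl 20 23 24))))) (.nv (.thr 30 18 (.thr 62 2 (.thr 14 46 (.dbl 38 50 55)))) (.rp 30 (.thr 58 10 (.thr 55 38 (.thr 20 23 (.thr 52 36 (.thr 54 53 (.dbl 62 2 50)))))) (.rp 29 (.thr 30 18 (.thr 62 2 (.thr 38 55 (.dbl 46 14 34)))) (.rp 18 (.thr 58 10 (.thr 55 38 (.thr 20 23 (.thr 52 36 (.thr 54 53 (.dbl 62 2 50)))))) .nd)))))) (.rp 4 (.str 5 (.nv (.thr 23 20 (.thr 30 18 (.thr 31 16 (.thr 19 27 (.dbl 28 25 29))))) (.nv (.thr 10 58 (.thr 15 0 (.dbl 37 48 53))) .nd))) .nd)))))))) (.rp 5 (.str 26 (.nv (.thr 2 62 (.thr 10 58 (.thr 18 30 (.thr 50 34 (.dbl 14 6 38))))) (.nv (.thr 23 20 (.thr 31 16 (.thr 19 27 (.thr 30 18 (.dbl 28 25 29))))) (.rp 30 (.thr 10 58 (.thr 2 62 (.thr 16 31 (.thr 20 23 (.thr 28 24 (.thr 19 25 (.thr 18 17 (.thr 50 34 (.dbl 14 6 38))))))))) (.rp 18 (.thr 58 10 (.thr 62 2 (.thr 50 54 (.thr 14 38 (.thr 30 46 (.thr 31 16 (.thr 23 20 (.thr 19 27 (.dbl 28 25 29))))))))) (.rp 6 (.str 4 (.nv (.thr 16 31 (.thr 18 30 (.thr 19 17 (.thr 28 25 (.dbl 20 23 24))))) (.nv (.thr 30 18 (.thr 62 2 (.thr 14 46 (.dbl 38 50 55)))) (.rp 30 (.thr 58 10 (.thr 55 38 (.thr 20 23 (.thr 52 36 (.thr 54 53 (.dbl 62 2 50)))))) (.rp 29 (.thr 30 18 (.thr 62 2 (.thr 38 55 (.dbl 46 14 34)))) (.rp 18 (.thr 58 10 (.thr 55 38 (.thr 20 23 (.thr 52 36 (.thr 54 53 (.dbl 62 2 50)))))) .nd)))))) (.rp 4 (.str 6 (.nv (.thr 18 30 (.thr 38 54 (.thr 34 46 (.dbl 2 50 62)))) (.nv (.thr 2 62 (.dbl 10 14 58)) (.rp 62 (.thr 10 58 (.thr 14 2 (.dbl 38 50 54))) (.rp 14 (.thr 62 2 (.thr 58 10 (.dbl 54 38 50))) (.rp 2 (.thr 30 18 (.thr 23 20 (.thr 31 16 (.thr 19 27 (.dbl 28 25 29))))) .nd)))))) .nd))))))) (.rp 4 (.str 26 (.nv (.thr 30 18 (.thr 23 20 (.thr 31 16 (.thr 19 27 (.dbl 28 25 29))))) (.nv (.thr 30 18 (.thr 58 10 (.thr 62 2 (.thr 50 54 (.dbl 14 38 46))))) (.rp 30 (.thr 20 23 (.thr 16 31 (.thr 28 24 (.thr 19 25 (.thr 18 17 (.thr 2 62 (.thr 10 58 (.thr 50 34 (.dbl 14 6 38))))))))) (.rp 18 (.thr 23 20 (.thr 31 16 (.thr 19 27 (.thr 28 25 (.thr 30 29 (.thr 62 2 (.thr 58 10 (.thr 50 54 (.dbl 14 38 46))))))))) (.rp 6 (.str 5 (.nv (.thr 23 20 (.thr 30 18 (.thr 31 16 (.thr 19 27 (.dbl 28 25 29))))) (.nv (.thr 10 58 (.thr 15 0 (.dbl 37 48 53))) .nd))) (.rp 5 (.str 6 (.nv (.thr 18 30 (.thr 38 54 (.thr 34 46 (.dbl 2 50 62)))) (.nv (.thr 2 62 (.dbl 10 14 58)) (.rp 62 (.thr 10 58 (.thr 14 2 (.dbl 38 50 54))) (.rp 14 (.thr 62 2 (.thr 58 10 (.dbl 54 38 50))) (.rp 2 (.thr 30 18 (.thr 23 20 (.thr 31 16 (.thr 19 27 (.dbl 28 25 29))))) .nd)))))) .nd))))))) (.rp 3 (.thr 23 20 (.str 26 (.nv (.thr 2 62 (.thr 10 58 (.thr 14 6 (.thr 18 30 (.dbl 50 34 38))))) (.nv (.thr 31 16 (.thr 19 27 (.thr 28 25 (.dbl 30 18 29)))) (.rp 30 (.str 11 (.nv (.thr 31 16 (.thr 27 19 (.thr 41 56 (.dbl 43 40 59)))) (.nv (.thr 31 16 (.thr 27 19 (.thr 59 43 (.dbl 25 8 24)))) (.nv (.thr 56 41 (.thr 58 10 (.thr 59 57 (.thr 25 8 (.dbl 27 24 43))))) (.rp 59 (.thr 10 58 (.thr 8 9 (.thr 31 16 (.thr 27 19 (.thr 24 25 (.dbl 56 40 41)))))) (.rp 43 (.thr 10 58 (.thr 8 9 (.thr 25 59 (.thr 31 16 (.dbl 19 27 28))))) (.rp 27 (.thr 10 58 (.thr 9 8 (.thr 41 56 (.thr 1 61 (.thr 5 13 (.thr 15 0 (.dbl 37 48 53))))))) (.rp 24 (.thr 10 58 (.thr 8 9 (.thr 59 25 (.thr 27 43 (.dbl 31 16 19))))) .nd)))))))) (.rp 18 (.thr 58 10 (.thr 62 2 (.thr 50 54 (.thr 14 38 (.thr 30 46 (.thr 31 16 (.thr 19 27 (.dbl 28 25 29)))))))) (.rp 15 (.str 11 (.nv (.thr 31 16 (.thr 41 56 (.thr 43 40 (.dbl 27 19 59)))) (.nv (.thr 2 62 (.thr 10 58 (.thr 14 6 (.thr 18 30 (.dbl 50 34 38))))) (.nv (.thr 31 16 (.thr 19 27 (.thr 28 25 (.dbl 30 18 29)))) (.rp 31 (.str 47 (.nv (.thr 2 62 (.thr 10 58 (.thr 18 30 (.thr 50 34 (.dbl 14 6 38))))) (.nv (.thr 56 41 (.thr 58 10 (.thr 59 57 (.thr 25 8 (.dbl 27 24 43))))) (.rp 58 (.thr 30 18 (.thr 62 2 (.thr 46 14 (.thr 37 32 (.thr 45 44 (.dbl 41 33 56)))))) (.rp 10 (.thr 62 2 (.thr 37 32 (.thr 41 56 (.thr 45 33 (.thr 46 44 (.dbl 30 14 18)))))) .nd))))) .nd))))) (.rp 11 (.str 15 (.nv (.thr 10 58 (.thr 5 0 (.dbl 37 48 53))) (.nv (.thr 31 16 (.thr 19 27 (.thr 28 25 (.dbl 30 18 29)))) (.nv (.thr 10 58 (.thr 48 37 (.thr 16 31 (.dbl 0 5 32)))) .nd)))) .nd)))))))) (.rp 2 (.str 19 (.nv (.thr 20 23 (.thr 28 25 (.thr 16 24 (.thr 26 31 (.dbl 18 17 30))))) (.nv (.thr 23 20 (.thr 31 27 (.thr 26 16 (.thr 28 25 (.dbl 30 18 29))))) (.rp 31 (.str 3 (.nv (.thr 25 28 (.thr 8 59 (.thr 51 35 (.thr 12 38 (.thr 0 4 (.dbl 17 29 34)))))) (.nv (.thr 20 23 (.thr 28 25 (.thr 16 24 (.thr 18 17 (.thr 48 33 (.thr 60 41 (.dbl 0 32 40))))))) (.nv (.thr 25 28 (.thr 29 17 (.thr 51 35 (.thr 38 12 (.thr 60 41 (.dbl 54 6 57)))))) (.rp 47 (.str 15 (.nv (.thr 20 23 (.thr 28 25 (.thr 16 24 (.thr 18 17 (.thr 26 30 (.dbl 48 33 37)))))) (.nv (.thr 20 23 (.thr 60 41 (.thr 0 40 (.thr 30 45 (.thr 26 18 (.dbl 10 5 58)))))) (.nv (.thr 25 28 (.thr 29 17 (.thr 51 35 (.thr 38 12 (.thr 60 41 (.dbl 54 6 57)))))) (.rp 39 (.thr 25 28 (.thr 41 60 (.thr 9 57 (.thr 12 6 (.dbl 51 35 38))))) .nd))))) (.rp 41 (.thr 51 35 (.thr 20 23 (.thr 25 28 (.thr 38 12 (.thr 54 6 (.thr 60 57 (.thr 0 40 (.dbl 34 17 46)))))))) (.rp 28 (.thr 35 51 (.thr 41 60 (.thr 43 40 (.thr 47 39 (.thr 37 32 (.thr 45 33 (.dbl 44 38 46))))))) (.rp 25 (.thr 35 51 (.thr 41 60 (.thr 43 40 (.thr 47 39 (.thr 37 32 (.thr 45 33 (.dbl 44 38 46))))))) (.rp 17 (.thr 51 35 (.thr 25 28 (.thr 38 12 (.thr 54 6 (.dbl 60 41 57))))) (.rp 15 (.str 47 (.nv (.thr 25 28 (.thr 51 35 (.thr 12 38 (.thr 9 6 (.dbl 41 57 60))))) (.nv (.thr 41 60 (.thr 43 40 (.dbl 35 39 51))) (.rp 60 (.thr 35 51 (.thr 39 43 (.thr 37 32 (.thr 38 36 (.thr 46 34 (.dbl 44 41 45)))))) (.rp 51 (.thr 20 23 (.thr 28 25 (.thr 16 24 (.thr 18 17 (.thr 32 37 (.dbl 48 0 33)))))) (.rp 41 (.thr 20 23 (.thr 28 25 (.thr 16 24 (.thr 18 17 (.thr 32 37 (.dbl 48 0 33)))))) (.rp 35 (.thr 20 23 (.thr 28 25 (.thr 16 24 (.thr 18 17 (.thr 32 37 (.dbl 48 0 33)))))) (.rp 30 (.thr 35 51 (.thr 39 43 (.thr 37 32 (.thr 38 36 (.dbl 41 44 60))))) .nd)))))))) .nd)))))))))) (.rp 30 (.thr 23 20 (.thr 31 27 (.thr 16 26 (.thr 17 18 (.dbl 25 28 29))))) (.rp 28 (.str 3 (.nv (.thr 23 20 (.thr 31 27 (.thr 16 26 (.thr 17 18 (.thr 25 29 (.thr 51 35 (.thr 34 0 (.dbl 38 12 46)))))))) (.nv (.thr 35 51 (.thr 41 60 (.thr 40 43 (.thr 44 38 (.thr 32 36 (.thr 37 47 (.dbl 33 34 45))))))) (.nv (.thr 20 23 (.thr 51 35 (.thr 60 41 (.thr 0 40 (.thr 34 17 (.thr 38 46 (.dbl 54 6 57))))))) (.rp 60 (.thr 51 35 (.thr 23 20 (.thr 31 27 (.thr 16 26 (.thr 17 18 (.thr 25 29 (.thr 8 59 (.thr 12 38 (.dbl 0 4 34))))))))) (.rp 51 (.thr 23 20 (.thr 31 27 (.thr 16 26 (.thr 18 17 (.thr 33 48 (.thr 41 60 (.thr 37 45 (.thr 32 47 (.thr 40 43 (.thr 44 36 (.dbl 35 34 38))))))))))) (.rp 40 (.thr 51 35 (.thr 60 41 (.thr 54 57 (.thr 38 6 (.thr 34 46 (.thr 17 0 (.dbl 25 12 29))))))) (.rp 38 (.thr 35 51 (.thr 23 20 (.thr 31 27 (.thr 16 26 (.thr 18 17 (.thr 33 48 (.thr 41 60 (.thr 37 45 (.dbl 32 34 47))))))))) (.rp 35 (.thr 23 20 (.thr 31 27 (.thr 16 26 (.thr 17 18 (.thr 25 29 (.thr 8 59 (.thr 41 60 (.thr 9 57 (.thr 12 6 (.thr 51 38 (.dbl 0 4 34))))))))))) (.rp 34 (.thr 35 51 (.thr 41 60 (.thr 43 40 (.thr 47 39 (.thr 37 32 (.thr 45 33 (.dbl 44 38 46))))))) (.rp 12 (.thr 51 35 (.thr 20 23 (.thr 60 41 (.thr 54 57 (.thr 38 6 (.thr 0 40 (.dbl 34 17 46))))))) .nd))))))))))) (.rp 26 (.thr 23 20 (.thr 27 31 (.thr 25 28 (.thr 29 17 (.thr 59 8 (.thr 43 11 (.thr 41 40 (.thr 61 1 (.thr 13 45 (.thr 49 37 (.dbl 57 9 53))))))))))) (.rp 25 (.str 3 (.nv (.thr 35 51 (.thr 41 60 (.thr 43 40 (.thr 47 39 (.thr 37 32 (.thr 45 33 (.dbl 44 38 46))))))) (.nv (.thr 35 51 (.thr 41 60 (.thr 38 44 (.thr 34 46 (.thr 32 33 (.thr 47 37 (.dbl 43 39 40))))))) (.nv (.thr 20 23 (.thr 51 35 (.thr 60 41 (.thr 0 40 (.thr 34 17 (.thr 38 46 (.dbl 54 6 57))))))) (.rp 60 (.thr 51 35 (.thr 23 20 (.thr 31 27 (.thr 26 16 (.thr 10 58 (.thr 18 30 (.thr 48 33 (.thr 15 37 (.thr 0 5 (.thr 34 17 (.thr 38 46 (.dbl 50 14 49)))))))))))) (.rp 57 (.thr 35 51 (.thr 23 20 (.thr 31 27 (.thr 26 16 (.thr 18 30 (.thr 33 48 (.thr 32 34 (.thr 37 47 (.dbl 41 45 60))))))))) (.rp 55 (.thr 23 20 (.thr 31 27 (.thr 26 16 (.thr 10 58 (.thr 30 18 (.thr 60 41 (.thr 15 45 (.thr 5 0 (.dbl 37 48 53))))))))) (.rp 54 (.thr 35 51 (.thr 23 20 (.thr 31 27 (.thr 26 16 (.thr 18 30 (.thr 33 48 (.thr 32 34 (.thr 37 47 (.dbl 41 45 60))))))))) (.rp 51 (.thr 23 20 (.thr 31 27 (.thr 26 16 (.thr 10 58 (.thr 30 18 (.thr 60 41 (.thr 15 45 (.thr 5 0 (.dbl 37 48 53))))))))) (.rp 46 (.thr 35 51 (.thr 23 20 (.thr 31 27 (.thr 26 16 (.thr 18 30 (.thr 33 48 (.thr 32 34 (.thr 37 47 (.dbl 41 45 60))))))))) (.rp 44 (.thr 35 51 (.thr 23 20 (.thr 31 27 (.thr 26 16 (.thr 18 30 (.thr 33 48 (.thr 32 34 (.thr 37 47 (.dbl 41 45 60))))))))) (.rp 41 (.thr 51 35 (.thr 23 20 (.thr 31 27 (.thr 26 16 (.thr 58 10 (.thr 18 30 (.thr 48 33 (.thr 50 49 (.thr 54 62 (.dbl 38 6 14)))))))))) (.rp 40 (.thr 35 51 (.thr 23 20 (.thr 31 27 (.thr 26 16 (.thr 18 30 (.thr 33 48 (.thr 32 34 (.thr 37 47 (.dbl 41 45 60))))))))) (.rp 39 (.thr 35 51 (.thr 41 60 (.thr 38 44 (.thr 34 46 (.thr 33 32 (.thr 18 48 (.thr 26 30 (.dbl 16 17 31)))))))) (.rp 38 (.thr 23 20 (.thr 31 27 (.thr 26 16 (.thr 10 58 (.thr 30 18 (.thr 60 41 (.thr 15 45 (.thr 5 0 (.dbl 37 48 53))))))))) (.rp 35 (.thr 23 20 (.thr 31 27 (.thr 26 16 (.thr 10 58 (.thr 30 18 (.thr 60 41 (.thr 15 45 (.thr 5 0 (.dbl 37 48 53))))))))) (.rp 12 (.thr 23 20 (.thr 31 27 (.thr 26 16 (.thr 10 58 (.thr 30 18 (.thr 60 41 (.thr 15 45 (.thr 5 0 (.dbl 37 48 53))))))))) .nd))))))))))))))))) (.rp 23 (.str 3 (.nv (.thr 51 35 (.thr 25 28 (.thr 17 29 (.thr 34 0 (.dbl 38 12 46))))) (.nv (.thr 25 28 (.thr 17 29 (.thr 18 16 (.thr 33 48 (.thr 41 60 (.dbl 1 49 61)))))) (.nv (.thr 25 28 (.thr 51 35 (.thr 60 41 (.thr 54 57 (.dbl 38 6 12))))) (.rp 55 (.str 39 (.nv (.thr 51 35 (.thr 25 28 (.thr 17 29 (.thr 34 0 (.dbl 38 12 46))))) (.nv (.thr 41 60 (.thr 43 40 (.dbl 35 47 51))) (.rp 51 (.str 59 (.nv (.dbl 25 8 28) (.rp 28 (.thr 25 8 (.thr 17 29 (.thr 18 16 (.thr 33 48 (.thr 41 60 (.dbl 1 49 61)))))) (.rp 25 (.thr 41 60 (.thr 43 40 (.thr 11 27 (.thr 26 56 (.thr 18 30 (.dbl 16 17 31)))))) (.rp 8 (.thr 25 28 (.thr 17 29 (.thr 18 16 (.thr 33 48 (.thr 41 60 (.dbl 1 49 61)))))) .nd))))) (.rp 35 (.thr 25 28 (.thr 17 29 (.thr 18 16 (.thr 33 48 (.thr 1 49 (.dbl 41 60 61)))))) (.rp 0 (.thr 51 35 (.thr 25 28 (.thr 38 12 (.thr 54 6 (.dbl 60 41 57))))) .nd)))))) (.rp 39 (.str 55 (.nv (.thr 25 28 (.thr 38 4 (.thr 6 54 (.thr 9 12 (.dbl 41 57 60))))) (.nv (.thr 35 51 (.thr 38 4 (.dbl 41 44 60))) (.nv (.thr 51 35 (.thr 25 28 (.dbl 38 4 12))) (.rp 38 (.thr 25 28 (.thr 17 29 (.thr 18 16 (.thr 33 48 (.thr 1 49 (.dbl 41 60 61)))))) (.rp 4 (.thr 51 35 (.thr 25 28 (.thr 17 29 (.thr 34 0 (.dbl 38 12 46))))) .nd)))))) (.rp 28 (.thr 35 51 (.thr 41 60 (.thr 40 43 (.thr 44 38 (.thr 32 36 (.thr 33 34 (.dbl 37 45 47))))))) (.rp 25 (.thr 35 51 (.thr 41 60 (.thr 43 40 (.thr 38 44 (.thr 34 46 (.thr 32 33 (.dbl 47 37 39))))))) (.rp 12 (.thr 35 51 (.thr 25 28 (.thr 41 60 (.thr 44 38 (.thr 40 43 (.thr 32 36 (.thr 33 34 (.dbl 37 45 47)))))))) .nd))))))))) (.rp 20 (.thr 25 28 (.thr 17 29 (.thr 16 18 (.thr 31 26 (.thr 27 23 (.thr 59 8 (.thr 43 11 (.thr 41 40 (.thr 9 57 (.thr 1 61 (.thr 49 33 (.dbl 13 5 37)))))))))))) (.rp 18 (.thr 23 20 (.thr 27 31 (.thr 25 28 (.thr 29 17 (.thr 59 8 (.thr 43 11 (.thr 41 40 (.thr 61 1 (.thr 13 45 (.thr 49 37 (.dbl 57 9 53))))))))))) (.rp 16 (.thr 23 20 (.thr 27 31 (.thr 25 28 (.thr 24 26 (.thr 8 59 (.thr 40 56 (.thr 41 43 (.thr 3 60 (.thr 51 35 (.thr 12 38 (.dbl 9 6 57))))))))))) .nd)))))))))))) (.rp 1 (.str 26 (.nv (.thr 2 62 (.thr 10 58 (.thr 14 6 (.thr 18 30 (.dbl 50 34 38))))) (.nv (.thr 23 20 (.thr 31 16 (.thr 19 27 (.thr 30 18 (.dbl 28 25 29))))) (.rp 30 (.thr 10 58 (.thr 2 62 (.thr 14 6 (.thr 50 38 (.thr 18 34 (.thr 16 31 (.thr 19 17 (.thr 20 23 (.dbl 28 24 25))))))))) (.rp 18 (.thr 58 10 (.thr 62 2 (.thr 50 54 (.thr 14 38 (.thr 30 46 (.thr 31 16 (.thr 23 20 (.thr 19 27 (.dbl 28 25 29))))))))) .nd))))) (.rp 0 (.str 26 (.nv (.thr 30 18 (.thr 58 10 (.thr 62 2 (.thr 50 54 (.dbl 14 38 46))))) (.nv (.thr 23 20 (.thr 31 16 (.thr 19 27 (.thr 30 18 (.dbl 28 25 29))))) (.rp 30 (.thr 10 58 (.thr 2 62 (.thr 14 6 (.thr 50 38 (.thr 18 34 (.thr 16 31 (.thr 20 23 (.thr 28 24 (.dbl 19 17 25))))))))) (.rp 18 (.thr 58 10 (.thr 62 2 (.thr 50 54 (.thr 14 38 (.thr 30 46 (.thr 31 16 (.thr 23 20 (.thr 19 27 (.dbl 28 25 29))))))))) .nd))))) .nd))))))))))))))))))))))))))))))))))))))))))))))))))))))))))))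

theorem w322 : WinAt (4398048608256, 9223372036854775936) :=
  chF (K := [(4398052802560, 9223653511831486592), (4398052802560, 9225623836668461184)]) (kc w304 (kc w309 kn)) c322 4398048608256 9223372036854775936 63
    [] (by decide +kernel) (by decide +kernel)

/-- A certificate. -/
noncomputable def c323 : Ct := (.str 4 (.nv (.thr 38 55 (.thr 36 39 (.thr 52 20 (.dbl 7 6 22)))) (.nv (.thr 7 6 (.thr 52 22 (.thr 38 55 (.dbl 36 20 39)))) (.rp 55 (.str 25 (.nv (.thr 13 49 (.thr 1 9 (.thr 61 41 (.dbl 29 17 45)))) (.nv (.thr 29 17 (.thr 13 49 (.thr 61 45 (.dbl 1 9 41)))) (.rp 61 (.thr 7 6 (.thr 52 22 (.thr 36 20 (.thr 38 39 (.thr 12 51 (.thr 48 24 (.thr 15 26 (.dbl 13 14 49)))))))) (.rp 54 (.str 52 (.nv (.dbl 7 6 22) (.rp 22 (.thr 29 17 (.thr 13 49 (.thr 61 45 (.dbl 1 9 41)))) (.rp 7 (.thr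 29 17 (.thr 13 49 (.thr 61 45 (.dbl 1 9 41)))) (.rp 6 (.thr 20 36 (.dbl 22 7 23)) .nd))))) (.rp 52 (.str 54 (.nv (.thr 6 7 (.thr 38 22 (.thr 51 12 (.thr 13 49 (.thr 57 60 (.dbl 9 1 41)))))) (.nv (.thr 29 17 (.thr 13 49 (.thr 61 45 (.dbl 1 9 41)))) (.rp 51 (.thr 13 49 (.thr 1 9 (.thr 61 41 (.dbl 29 17 45)))) (.rp 49 (.thr 6 7 (.thr 38 22 (.thr 12 51 (.thr 9 3 (.thr 1 13 (.dbl 41 57 61)))))) (.rp 41 (.thr 13 49 (.thr 9 1 (.thr 6 7 (.thr 38 22 (.dbl 12 3 51))))) (.rp 13 (.thr 17 29 (.thr 6 7 (.thr 22 38 (.thr 19 28 (.thr 16 18 (.thr 23 20 (.dbl 31 26 27))))))) (.rp 9 (.thr 17 29 (.thr 6 7 (.thr 22 38 (.thr 19 28 (.thr 16 18 (.thr 23 20 (.dbl 31 26 27))))))) (.rp 1 (.thr 17 29 (.thr 6 7 (.thr 22 38 (.thr 19 28 (.thr 16 18 (.thr 23 20 (.dbl 31 26 27))))))) .nd))))))))) (.rp 49 (.thr 7 6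 (.thr 52 22 (.thr 36 20 (.thr 38 39 (.thr 12 51 (.thr 48 24 (.thr 60 56 (.thr 28 44 (.thr 15 26 (.thr 30 45 (.dbl 29 17 31))))))))))) (.rp 45 (.thr 13 49 (.thr 7 6 (.thr 52 22 (.thr 36 20 (.thr 38 39 (.thr 12 51 (.thr 48 24 (.dbl 15 14 26)))))))) (.rp 41 (.thr 13 49 (.thr 7 6 (.thr 52 22 (.thr 36 20 (.thr 38 39 (.thr 12 51 (.thr 48 24 (.dbl 15 14 26)))))))) (.rp 29 (.thr 13 49 (.thr 7 6 (.thr 52 22 (.thr 36 20 (.thr 38 39 (.thr 12 51 (.thr 48 24 (.dbl 15 14 26)))))))) (.rp 17 (.thr 49 13 (.thr 7 6 (.thr 52 22 (.thr 36 20 (.thr 38 39 (.thr 51 12 (.thr 48 50 (.thr 15 26 (.thr 3 11 (.thr 35 19 (.thr 41 44 (.dbl 33 18 45)))))))))))) (.rp 13 (.thr 7 6 (.thr 52 22 (.thr 36 20 (.thr 38 39 (.thr 12 51 (.thr 48 24 (.thr 60 56 (.thr 28 44 (.thr 15 26 (.thr 30 45 (.dbl 29 17 31))))))))))) (.rp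 9 (.thr 13 49 (.thr 7 6 (.thr 52 22 (.thr 36 20 (.thr 38 39 (.thr 12 51 (.thr 48 24 (.dbl 15 14 26)))))))) (.rp 1 (.thr 13 49 (.thr 7 6 (.thr 52 22 (.thr 36 20 (.thr 38 39 (.thr 12 51 (.thr 48 24 (.dbl 15 14 26)))))))) .nd)))))))))))))) (.rp 52 (.thr 6 7 (.thr 38 55 (.thr 54 22 (.thr 39 36 (.str 12 (.nv (.thr 9 3 (.thr 1 13 (.thr 41 61 (.dbl 25 51 57)))) (.nv (.thr 51 25 (.thr 15 27 (.thr 14 13 (.dbl 26 48 50)))) (.rp 51 (.thr 9 3 (.thr 1 13 (.thr 41 61 (.thr 35 44 (.thr 47 43 (.thr 32 42 (.dbl 33 34 45))))))) (.rp 25 (.thr 9 3 (.thr 1 13 (.thr 41 61 (.thr 35 44 (.thr 47 43 (.thr 32 42 (.dbl 33 34 45))))))) (.rp 15 (.thr 25 51 (.thr 13 49 (.dbl 9 1 3))) (.rp 13 (.thr 51 25 (.thr 60 57 (.thr 15 27 (.thr 45 30 (.thr 41 33 (.dbl 44 28 35)))))) .nd))))))))))) (.rp 39 (.str 1 (.nv (.thr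 6 7 (.thr 9 13 (.thr 3 12 (.thr 41 61 (.thr 22 60 (.dbl 38 54 55)))))) (.nv (.thr 13 9 (.thr 25 49 (.thr 61 41 (.dbl 29 17 45)))) (.rp 61 (.thr 7 6 (.thr 22 52 (.thr 13 9 (.thr 49 25 (.thr 33 17 (.thr 41 45 (.thr 3 60 (.thr 48 18 (.dbl 15 11 26))))))))) (.rp 49 (.thr 6 7 (.thr 9 13 (.thr 3 12 (.thr 41 61 (.thr 57 25 (.thr 22 60 (.dbl 38 54 55))))))) (.rp 45 (.thr 7 6 (.thr 52 22 (.thr 36 20 (.thr 38 55 (.thr 13 9 (.thr 25 49 (.thr 12 51 (.thr 48 24 (.dbl 15 14 26))))))))) (.rp 41 (.thr 7 6 (.thr 52 22 (.thr 36 20 (.thr 38 55 (.thr 13 9 (.thr 25 49 (.thr 12 51 (.thr 48 24 (.dbl 15 14 26))))))))) (.rp 29 (.thr 13 9 (.thr 49 25 (.thr 33 17 (.dbl 41 45 61)))) (.rp 13 (.thr 7 6 (.thr 22 52 (.thr 41 61 (.thr 3 60 (.thr 15 11 (.thr 48 26 (.dbl 33 18 45))))))) (.rp 9 (.thr 7 6 (.thr 22 52 (.thr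 41 61 (.thr 33 45 (.thr 3 60 (.thr 48 18 (.dbl 15 11 26))))))) .nd)))))))))) (.rp 38 (.str 1 (.nv (.thr 41 61 (.thr 33 45 (.thr 49 17 (.dbl 13 9 25)))) (.nv (.thr 13 9 (.thr 25 49 (.thr 61 41 (.dbl 29 17 45)))) (.nv (.thr 13 9 (.thr 41 61 (.thr 33 45 (.dbl 49 17 25)))) (.rp 61 (.thr 7 6 (.thr 22 52 (.thr 13 9 (.thr 49 25 (.thr 33 17 (.thr 41 45 (.thr 3 60 (.thr 48 18 (.dbl 15 11 26))))))))) (.rp 49 (.thr 7 6 (.thr 22 52 (.thr 9 13 (.thr 41 61 (.thr 57 25 (.thr 3 60 (.thr 15 11 (.thr 48 26 (.dbl 33 18 45))))))))) (.rp 45 (.thr 7 6 (.thr 22 52 (.thr 20 23 (.thr 13 9 (.thr 25 49 (.thr 29 17 (.thr 28 19 (.thr 31 30 (.dbl 16 24 26))))))))) (.rp 41 (.thr 7 6 (.thr 22 52 (.thr 20 23 (.thr 13 9 (.thr 25 49 (.thr 29 17 (.thr 28 19 (.thr 31 30 (.dbl 16 24 26))))))))) (.rp 25 (.thr 7 6 (.thr 22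 52 (.thr 41 61 (.thr 33 45 (.thr 3 60 (.thr 48 18 (.dbl 15 11 26))))))) (.rp 17 (.thr 7 6 (.thr 22 52 (.thr 41 61 (.thr 33 45 (.thr 3 60 (.thr 48 18 (.dbl 15 11 26))))))) (.rp 13 (.thr 7 6 (.thr 22 52 (.thr 41 61 (.thr 3 60 (.thr 15 11 (.thr 48 26 (.dbl 33 18 45))))))) (.rp 9 (.thr 7 6 (.thr 22 52 (.thr 41 61 (.thr 33 45 (.thr 3 60 (.thr 48 18 (.dbl 15 11 26))))))) .nd)))))))))))) (.rp 36 (.thr 7 6 (.thr 22 52 (.thr 23 20 (.dbl 55 38 39)))) (.rp 22 (.str 1 (.nv (.thr 6 7 (.thr 9 13 (.thr 12 3 (.thr 38 55 (.thr 25 51 (.dbl 41 57 61)))))) (.nv (.thr 13 9 (.thr 41 61 (.thr 33 45 (.dbl 49 17 25)))) (.rp 61 (.thr 38 55 (.thr 39 36 (.thr 13 9 (.thr 49 25 (.thr 33 17 (.thr 41 45 (.thr 35 44 (.thr 47 43 (.dbl 32 34 42))))))))) (.rp 57 (.thr 13 9 (.thr 49 25 (.thr 41 61 (.dbl 33 17 45)))) (.rp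 41 (.thr 38 55 (.thr 36 39 (.thr 13 9 (.thr 25 49 (.thr 12 51 (.thr 15 14 (.dbl 48 24 26))))))) (.rp 25 (.thr 38 55 (.thr 36 39 (.thr 41 61 (.thr 45 33 (.thr 44 35 (.thr 47 46 (.dbl 32 40 42))))))) (.rp 17 (.thr 6 7 (.thr 38 55 (.thr 9 13 (.thr 12 3 (.thr 41 61 (.dbl 25 51 57)))))) (.rp 13 (.thr 38 55 (.thr 36 39 (.thr 41 61 (.thr 45 33 (.thr 44 35 (.thr 47 46 (.dbl 32 40 42))))))) (.rp 11 (.thr 41 61 (.thr 33 45 (.thr 49 17 (.dbl 13 9 25)))) (.rp 9 (.thr 38 55 (.thr 36 39 (.thr 41 61 (.thr 45 33 (.thr 44 35 (.thr 47 46 (.dbl 32 40 42))))))) .nd))))))))))) (.rp 20 (.thr 6 7 (.thr 38 55 (.thr 39 36 (.thr 54 22 (.str 41 (.nv (.thr 1 61 (.thr 9 13 (.thr 12 3 (.dbl 25 51 57)))) (.nv (.thr 35 44 (.thr 47 43 (.thr 33 45 (.dbl 32 34 42)))) (.rp 60 (.str 40 (.nv (.thr 1 61 (.thr 13 9 (.thr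 33 45 (.dbl 49 17 25)))) (.nv (.thr 35 44 (.dbl 43 42 47)) .nd))) (.rp 45 (.thr 35 44 (.thr 47 43 (.thr 1 61 (.thr 13 9 (.thr 49 25 (.thr 33 17 (.dbl 32 34 42))))))) (.rp 40 (.str 60 (.nv (.thr 45 33 (.thr 15 30 (.dbl 51 27 57))) (.nv (.thr 44 35 (.thr 51 57 (.dbl 12 25 28))) (.rp 57 (.thr 44 35 (.thr 12 28 (.thr 9 3 (.dbl 1 13 61)))) (.rp 51 (.thr 44 35 (.thr 12 28 (.thr 1 61 (.dbl 9 3 13)))) (.rp 44 (.str 32 (.nv (.thr 51 57 (.thr 12 25 (.thr 9 3 (.dbl 1 13 61)))) (.nv (.thr 33 45 (.thr 34 35 (.dbl 42 46 47))) .nd))) .nd)))))) .nd)))))))))) (.rp 7 (.str 1 (.nv (.thr 41 61 (.thr 33 45 (.thr 49 17 (.dbl 13 9 25)))) (.nv (.thr 13 9 (.thr 49 25 (.thr 41 61 (.dbl 33 17 45)))) (.rp 61 (.thr 38 55 (.thr 39 36 (.thr 13 9 (.thr 49 25 (.thr 33 17 (.thr 41 45 (.thr 35 44 (.thr 47 43 (.dbl 32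 34 42))))))))) (.rp 49 (.thr 38 55 (.thr 39 36 (.thr 9 13 (.thr 41 61 (.thr 57 25 (.thr 35 44 (.thr 47 43 (.thr 32 42 (.dbl 33 34 45))))))))) (.rp 45 (.thr 38 55 (.thr 13 9 (.thr 25 49 (.thr 12 51 (.thr 15 14 (.thr 48 26 (.dbl 36 24 39))))))) (.rp 41 (.thr 38 55 (.thr 13 9 (.thr 25 49 (.thr 12 51 (.thr 15 14 (.thr 48 26 (.dbl 36 24 39))))))) (.rp 33 (.thr 13 9 (.thr 25 49 (.thr 29 17 (.dbl 61 41 45)))) (.rp 25 (.thr 38 55 (.thr 39 36 (.thr 41 61 (.thr 33 45 (.thr 35 44 (.thr 32 34 (.dbl 47 42 43))))))) (.rp 17 (.thr 38 55 (.thr 39 36 (.thr 41 61 (.thr 33 45 (.thr 35 44 (.thr 47 43 (.dbl 32 34 42))))))) (.rp 13 (.thr 38 55 (.thr 39 36 (.thr 41 61 (.thr 35 44 (.thr 47 43 (.thr 32 42 (.dbl 33 34 45))))))) (.rp 9 (.thr 38 55 (.thr 39 36 (.thr 41 61 (.thr 33 45 (.thr 35 44 (.thr 32 34 (.dbl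 47 42 43))))))) .nd)))))))))))) (.rp 6 (.str 1 (.nv (.thr 41 61 (.thr 33 45 (.thr 49 17 (.dbl 13 9 25)))) (.nv (.thr 13 9 (.thr 49 25 (.thr 41 61 (.dbl 33 17 45)))) (.rp 61 (.thr 38 55 (.thr 39 36 (.thr 13 9 (.thr 49 25 (.thr 33 17 (.thr 41 45 (.thr 35 44 (.thr 47 43 (.dbl 32 34 42))))))))) (.rp 49 (.thr 38 55 (.thr 36 39 (.thr 9 13 (.thr 41 61 (.thr 57 25 (.thr 45 33 (.thr 44 35 (.thr 47 46 (.dbl 32 40 42))))))))) (.rp 45 (.thr 38 55 (.thr 36 39 (.thr 13 9 (.thr 25 49 (.thr 12 51 (.thr 48 24 (.dbl 15 14 26))))))) (.rp 41 (.thr 38 55 (.thr 36 39 (.thr 13 9 (.thr 25 49 (.thr 12 51 (.thr 48 24 (.dbl 15 14 26))))))) (.rp 33 (.thr 13 9 (.thr 25 49 (.thr 29 17 (.dbl 61 41 45)))) (.rp 25 (.thr 38 55 (.thr 36 39 (.thr 41 61 (.thr 45 33 (.thr 44 35 (.thr 47 46 (.dbl 32 40 42))))))) (.rp 17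 (.thr 38 55 (.thr 36 39 (.thr 41 61 (.thr 45 33 (.thr 44 35 (.thr 47 46 (.dbl 32 40 42))))))) (.rp 14 (.str 2 (.nv (.thr 13 9 (.thr 25 49 (.thr 61 41 (.dbl 29 17 45)))) (.nv (.thr 41 61 (.thr 33 45 (.thr 49 17 (.dbl 13 9 25)))) (.rp 61 (.thr 38 55 (.thr 39 36 (.thr 13 9 (.thr 49 25 (.thr 33 17 (.thr 41 45 (.thr 35 44 (.thr 47 43 (.dbl 32 34 42))))))))) (.rp 49 (.thr 38 55 (.thr 36 39 (.thr 9 13 (.thr 41 61 (.thr 57 25 (.thr 44 35 (.thr 32 40 (.thr 45 33 (.dbl 47 42 46))))))))) (.rp 45 (.thr 38 55 (.thr 39 36 (.thr 13 9 (.thr 49 25 (.thr 33 17 (.thr 41 61 (.thr 35 44 (.thr 47 43 (.dbl 32 34 42))))))))) (.rp 41 (.thr 38 55 (.thr 36 39 (.thr 52 20 (.thr 13 9 (.thr 25 49 (.thr 12 51 (.thr 48 24 (.thr 60 56 (.thr 28 44 (.dbl 22 7 19)))))))))) (.rp 29 (.thr 13 9 (.thr 49 25 (.thr 33 17 (.dbl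 41 45 61)))) (.rp 25 (.thr 38 55 (.thr 36 39 (.thr 41 61 (.thr 44 35 (.thr 32 40 (.thr 45 33 (.dbl 47 42 46))))))) (.rp 17 (.thr 38 55 (.thr 36 39 (.thr 41 61 (.thr 44 35 (.thr 32 40 (.thr 45 33 (.dbl 47 42 46))))))) (.rp 13 (.thr 38 55 (.thr 36 39 (.thr 41 61 (.thr 44 35 (.thr 32 40 (.thr 45 33 (.dbl 47 42 46))))))) (.rp 9 (.thr 38 55 (.thr 36 39 (.thr 41 61 (.thr 44 35 (.thr 32 40 (.thr 45 33 (.dbl 47 42 46))))))) .nd)))))))))))) (.rp 13 (.thr 38 55 (.thr 36 39 (.thr 41 61 (.thr 45 33 (.thr 44 35 (.thr 47 46 (.dbl 32 40 42))))))) (.rp 9 (.thr 38 55 (.thr 36 39 (.thr 41 61 (.thr 45 33 (.thr 44 35 (.thr 47 46 (.dbl 32 40 42))))))) (.rp 2 (.str 14 (.nv (.thr 13 9 (.thr 38 55 (.thr 26 50 (.dbl 15 12 48)))) (.nv (.thr 41 61 (.thr 33 45 (.thr 49 17 (.dbl 13 9 25)))) (.nv (.thr 13 9 (.thr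 12 15 (.thr 25 49 (.dbl 38 51 55)))) (.rp 13 (.thr 41 61 (.thr 45 33 (.thr 38 55 (.thr 36 39 (.thr 44 35 (.thr 32 40 (.dbl 47 42 46))))))) (.rp 9 (.thr 38 55 (.thr 26 50 (.thr 15 48 (.thr 12 13 (.thr 39 36 (.dbl 51 25 27)))))) .nd)))))) .nd)))))))))))))) .nd))))))))))))

theorem w323 : WinAt (137441050656, 9007199254742017) :=
  chF (K := []) kn c323 137441050656 9007199254742017 53
    [] (by decide +kernel) (by decide +kernel)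

/-- A certificate. -/
noncomputable def c324 : Ct := (.str 4 (.nv (.thr 38 55 (.thr 36 39 (.thr 52 20 (.dbl 7 6 22)))) (.nv (.thr 7 6 (.thr 52 22 (.thr 38 55 (.dbl 36 20 39)))) (.rp 55 (.str 52 (.nv (.dbl 7 6 22) (.rp 22 (.str 0 (.nv (.thr 12 8 (.thr 36 20 (.thr 48 24 (.thr 16 32 (.dbl 26 15 31))))) (.nv (.thr 12 8 (.thr 36 20 (.thr 38 39 (.thr 25 51 (.thr 29 17 (.dbl 63 42 46)))))) (.nv (.thr 20 36 (.thr 60 40 (.thr 48 56 (.thr 32 16 (.dbl 42 47 63))))) (.rp 36 (.thr 8 12 (.thr 42 63 (.thr 32 47 (.thr 48 16 (.thr 56 60 (.thr 40 24 (.thr 41 43 (.dbl 26 11 15)))))))) (.rp 20 (.thr 12 8 (.thr 63 42 (.thr 29 46 (.thr 25 17 (.thr 38 51 (.thr 36 39 (.thr 48 24 (.thr 16 32 (.dbl 26 15 31))))))))) (.rp 8 (.thr 20 36 (.thr 60 40 (.thr 42 63 (.thr 32 47 (.dbl 48 16 56))))) .nd))))))) (.rp 7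 (.thr 20 36 (.thr 23 22 (.str 0 (.nv (.thr 42 63 (.thr 32 47 (.thr 48 16 (.dbl 60 40 56)))) (.nv (.thr 60 40 (.thr 8 12 (.thr 48 56 (.thr 26 15 (.dbl 16 31 32))))) (.nv (.thr 60 40 (.thr 48 56 (.thr 32 16 (.dbl 42 47 63)))) (.rp 60 (.thr 12 8 (.thr 42 63 (.thr 32 47 (.thr 48 16 (.thr 15 26 (.thr 13 14 (.thr 25 49 (.thr 17 29 (.dbl 51 34 38))))))))) (.rp 56 (.thr 12 8 (.thr 42 63 (.thr 32 47 (.thr 48 16 (.thr 15 26 (.thr 13 14 (.thr 25 49 (.thr 17 29 (.dbl 51 34 38))))))))) (.rp 48 (.thr 12 8 (.thr 60 40 (.thr 44 28 (.thr 63 42 (.thr 62 61 (.thr 46 29 (.thr 45 47 (.dbl 30 14 15)))))))) (.rp 40 (.thr 12 8 (.thr 42 63 (.thr 32 47 (.thr 48 16 (.thr 15 26 (.thr 13 14 (.thr 25 49 (.thr 17 29 (.dbl 51 34 38))))))))) (.rp 32 (.thr 12 8 (.thr 60 40 (.thr 44 28 (.thr 63 42 (.thr 62 61 (.thr 46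 29 (.thr 45 47 (.dbl 30 14 15)))))))) (.rp 16 (.thr 12 8 (.thr 60 40 (.thr 44 28 (.thr 63 42 (.thr 62 61 (.thr 46 29 (.thr 45 47 (.dbl 30 14 15)))))))) .nd)))))))))))) (.rp 6 (.thr 20 36 (.dbl 22 7 23)) .nd))))) (.rp 52 (.thr 55 38 (.str 15 (.nv (.thr 7 6 (.thr 3 11 (.thr 23 39 (.thr 63 43 (.thr 42 0 (.dbl 47 31 32)))))) (.nv (.thr 26 48 (.thr 31 16 (.thr 63 47 (.thr 51 59 (.thr 39 27 (.dbl 7 6 23)))))) (.nv (.thr 7 6 (.thr 3 11 (.thr 23 39 (.thr 22 20 (.thr 41 60 (.thr 33 45 (.dbl 48 18 26))))))) (.nv (.thr 7 6 (.thr 39 23 (.thr 51 27 (.thr 63 59 (.thr 31 47 (.dbl 26 16 48)))))) (.rp 39 (.thr 26 48 (.thr 31 16 (.thr 63 47 (.thr 0 42 (.thr 12 8 (.thr 13 14 (.thr 25 49 (.dbl 29 17 46)))))))) (.rp 23 (.thr 26 48 (.thr 31 16 (.thr 63 47 (.thr 51 59 (.thr 27 39 (.thr 0 42 (.thr 25 24 (.dbl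 17 29 34)))))))) (.rp 11 (.thr 7 6 (.thr 39 23 (.thr 51 27 (.thr 26 48 (.thr 31 16 (.dbl 63 47 59)))))) (.rp 7 (.thr 26 48 (.thr 31 16 (.thr 63 47 (.thr 51 59 (.thr 27 39 (.thr 0 42 (.thr 25 24 (.dbl 17 29 34)))))))) (.rp 6 (.thr 26 48 (.thr 31 16 (.thr 63 47 (.thr 51 59 (.thr 27 39 (.thr 0 42 (.thr 25 24 (.dbl 17 29 34)))))))) .nd))))))))))) (.rp 39 (.str 0 (.nv (.thr 7 6 (.thr 12 8 (.thr 52 22 (.thr 36 20 (.thr 48 24 (.thr 16 32 (.dbl 26 15 31))))))) (.nv (.thr 12 8 (.thr 63 42 (.thr 29 46 (.thr 25 17 (.dbl 38 51 55))))) (.nv (.thr 7 6 (.thr 42 63 (.thr 32 47 (.thr 48 16 (.thr 52 22 (.thr 20 36 (.dbl 60 40 56))))))) (.nv (.thr 12 8 (.thr 38 55 (.thr 42 63 (.thr 51 25 (.dbl 34 17 46))))) (.rp 38 (.thr 7 6 (.thr 12 8 (.thr 42 63 (.thr 32 47 (.thr 48 16 (.thr 36 24 (.dbl 52 20 22)))))))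 .nd)))))) (.rp 38 (.str 0 (.nv (.thr 7 6 (.thr 22 52 (.thr 20 23 (.thr 60 40 (.thr 3 41 (.thr 15 11 (.thr 30 45 (.dbl 26 18 48)))))))) (.nv (.thr 8 12 (.thr 42 63 (.thr 25 59 (.thr 32 47 (.thr 48 16 (.thr 49 13 (.thr 51 50 (.dbl 17 29 34)))))))) (.nv (.thr 12 8 (.thr 42 63 (.thr 32 47 (.thr 48 16 (.thr 36 24 (.thr 20 52 (.dbl 40 44 60))))))) (.rp 55 (.thr 7 6 (.thr 12 8 (.thr 42 63 (.thr 32 47 (.thr 48 16 (.thr 36 24 (.dbl 52 20 22))))))) (.rp 48 (.thr 7 6 (.thr 22 52 (.thr 20 23 (.thr 12 8 (.thr 60 40 (.thr 28 44 (.thr 25 19 (.thr 29 17 (.dbl 63 42 46))))))))) (.rp 42 (.thr 7 6 (.thr 22 52 (.thr 20 23 (.thr 12 8 (.thr 60 40 (.thr 28 44 (.thr 25 19 (.thr 29 17 (.thr 31 30 (.dbl 16 24 26)))))))))) (.rp 15 (.thr 7 6 (.thr 22 52 (.thr 20 23 (.thr 12 8 (.thr 60 40 (.thr 28 44 (.thr 25 19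 (.thr 29 17 (.dbl 63 42 46))))))))) (.rp 8 (.thr 7 6 (.thr 22 52 (.thr 20 23 (.thr 60 40 (.thr 3 41 (.thr 42 63 (.thr 32 47 (.thr 48 16 (.dbl 15 11 26))))))))) .nd))))))))) (.rp 36 (.thr 7 6 (.thr 22 52 (.thr 23 20 (.dbl 55 38 39)))) (.rp 22 (.str 0 (.nv (.thr 38 55 (.thr 42 63 (.thr 34 46 (.thr 51 17 (.dbl 12 8 25))))) (.nv (.thr 12 8 (.thr 63 42 (.thr 29 46 (.thr 25 17 (.dbl 38 51 55))))) (.nv (.thr 12 8 (.thr 38 55 (.thr 36 39 (.thr 48 24 (.thr 16 32 (.dbl 26 15 31)))))) (.nv (.thr 12 8 (.thr 38 55 (.thr 25 51 (.thr 29 17 (.dbl 63 42 46))))) (.rp 55 (.thr 12 8 (.thr 42 63 (.thr 32 47 (.thr 48 16 (.thr 36 24 (.thr 40 44 (.dbl 20 52 60))))))) (.rp 38 (.thr 12 8 (.thr 42 63 (.thr 32 47 (.thr 48 16 (.thr 36 24 (.thr 20 52 (.dbl 40 44 60))))))) (.rp 12 (.thr 38 55 (.thr 36 39 (.thr 42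 63 (.thr 32 47 (.thr 40 44 (.dbl 20 52 60)))))) (.rp 8 (.thr 38 55 (.thr 36 39 (.thr 42 63 (.thr 32 47 (.thr 40 44 (.dbl 20 52 60)))))) .nd))))))))) (.rp 20 (.str 0 (.nv (.thr 6 7 (.thr 38 55 (.thr 54 22 (.thr 42 63 (.thr 34 46 (.thr 51 17 (.dbl 12 8 25))))))) (.nv (.thr 12 8 (.thr 38 55 (.thr 36 39 (.thr 48 24 (.thr 16 32 (.dbl 26 15 31)))))) (.nv (.thr 12 8 (.thr 38 55 (.thr 25 51 (.thr 63 42 (.dbl 29 17 46))))) (.rp 55 (.thr 7 6 (.thr 42 63 (.thr 32 47 (.thr 48 16 (.thr 15 26 (.thr 3 11 (.thr 33 18 (.thr 41 45 (.dbl 22 52 60))))))))) (.rp 54 (.thr 12 8 (.thr 63 42 (.thr 29 46 (.thr 25 17 (.dbl 38 51 55))))) (.rp 38 (.thr 8 12 (.thr 42 63 (.thr 32 47 (.thr 48 16 (.thr 25 59 (.thr 49 13 (.thr 51 50 (.dbl 17 29 34)))))))) (.rp 12 (.thr 38 55 (.thr 36 39 (.thr 42 63 (.thr 32 47 (.thr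 44 40 (.thr 35 41 (.dbl 34 33 46))))))) (.rp 8 (.thr 38 55 (.thr 36 39 (.thr 42 63 (.thr 32 47 (.thr 44 40 (.thr 35 41 (.dbl 34 33 46))))))) .nd))))))))) (.rp 7 (.str 12 (.nv (.thr 0 8 (.thr 63 42 (.thr 29 46 (.thr 25 17 (.dbl 38 51 55))))) (.nv (.thr 0 8 (.thr 42 63 (.thr 32 47 (.thr 48 16 (.thr 36 24 (.thr 40 44 (.dbl 20 52 60))))))) (.nv (.thr 38 55 (.thr 39 36 (.thr 51 25 (.thr 15 27 (.thr 14 13 (.dbl 26 48 50)))))) .nd)))) (.rp 6 (.thr 38 55 (.thr 36 39 (.thr 52 20 (.thr 7 22 (.str 42 (.nv (.thr 0 63 (.thr 12 8 (.thr 34 46 (.dbl 51 17 25)))) (.nv (.thr 0 63 (.thr 12 8 (.thr 48 24 (.thr 16 32 (.dbl 26 15 31))))) (.nv (.thr 34 46 (.thr 32 47 (.thr 35 33 (.dbl 44 40 41)))) (.rp 14 (.str 2 (.nv (.thr 0 63 (.thr 12 8 (.thr 32 47 (.dbl 48 16 24)))) (.nv (.thr 0 63 (.thr 12 8 (.thr 34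 46 (.dbl 51 17 25)))) (.nv (.thr 32 47 (.thr 44 40 (.thr 35 41 (.dbl 34 33 46)))) (.rp 0 (.thr 32 47 (.thr 34 46 (.thr 35 33 (.dbl 44 40 41)))) .nd))))) (.rp 2 (.str 14 (.nv (.thr 0 63 (.thr 12 8 (.thr 15 13 (.dbl 26 48 50)))) (.nv (.thr 32 47 (.thr 34 46 (.thr 44 40 (.dbl 35 33 41)))) (.rp 0 (.str 3 (.nv (.thr 32 47 (.thr 34 46 (.thr 35 33 (.dbl 44 40 41)))) (.nv (.thr 26 50 (.dbl 15 11 48)) (.rp 60 (.str 40 (.nv (.thr 15 11 (.dbl 26 48 50)) (.nv (.dbl 32 44 47) .nd))) (.rp 40 (.str 60 (.nv (.thr 46 34 (.thr 30 62 (.thr 45 15 (.dbl 47 32 44)))) (.nv (.thr 15 11 (.dbl 48 26 56)) (.rp 15 (.thr 34 46 (.thr 32 47 (.thr 48 56 (.dbl 33 18 35)))) .nd)))) (.rp 34 (.thr 15 11 (.dbl 26 48 50)) .nd)))))) .nd)))) .nd)))))))))) .nd))))))))))))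

theorem w324 : WinAt (137441050656, 9007199254742018) :=
  chF (K := []) kn c324 137441050656 9007199254742018 53
    [] (by decide +kernel) (by decide +kernel)

end Pool.Agent.TTT.B43
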