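import Pool.Agent.TTT.Q5
import Pool.Agent.TTT.Q12
import Pool.Agent.TTT.Q13
import Pool.Agent.TTT.Q14

/-!
Certified forced wins after the first three cells on the 4 x 4 x 4 board.
-/

set_option autoImplicit false
set_option maxRecDepth 1000000
set_option linter.all false

namespace Pool.Agent.TTT.B43

/-- A certificate. -/
noncomputable def r4 : Rt := (.rp 63 .ext (.rp 62 (.thr 63 0 .ext) (.rp 61 (.thr 63 0 .ext) (.rp 60 .ext (.rp 59 (.thr 63 0 .ext) (.rp 58 (.thr 63 0 .ext) (.rp 57 (.thr 63 0 .ext) (.rp 56 (.thr 63 0 .ext) (.rp 55 (.thr 63 0 .ext) (.rp 54 (.thr 0 63 .ext) (.rp 53 (.thr 63 0 .ext) (.rp 52 (.thr 0 63 .ext) (.rp 51 .ext (.rp 50 (.thr 0 63 (.str 3 (.nv (.thr 1 2 (.thr 41 61 (.thr 60 22 (.dbl 40 20 43)))) (.nv (.thr 2 1 (.thr 22 62 (.thr 60 41 (.dbl 20 23 40)))) (.rp 60 (.thr 1 2 (.thr 61 41 (.str 17 (.nv (.thr 25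 29 (.thr 8 59 (.thr 12 4 (.dbl 51 34 38)))) (.nv (.thr 33 49 (.thr 18 48 (.thr 51 34 (.dbl 19 16 35)))) (.nv (.thr 25 29 (.thr 49 33 (.thr 37 13 (.dbl 53 5 57)))) (.rp 34 (.str 18 (.nv (.dbl 33 48 49) (.rp 49 (.thr 16 19 (.dbl 48 32 33)) (.rp 48 (.thr 49 33 (.thr 25 29 (.thr 53 57 (.dbl 37 5 13)))) (.rp 33 (.thr 19 16 (.thr 25 29 (.thr 8 59 (.thr 12 4 (.dbl 51 35 38))))) .nd))))) (.rp 18 (.thr 34 51 (.thr 49 33 (.thr 25 29 (.thr 37 13 (.dbl 53 5 57))))) .nd)))))))) (.rp 41 (.str 51 (.nv (.thr 2 1 (.thr 19 35 (.thr 22 62 (.thr 25 28 (.thr 8 59 (.dbl 12 4 38)))))) (.nv (.thr 1 2 (.thr 19 35 (.thr 17 34 (.thr 18 16 (.dbl 33 48 49))))) (.nv (.thr 34 17 (.thr 38 46 (.thr 12 25 (.dbl 4 8 55)))) (.rp 38 (.thr 17 34 (.thr 2 1 (.thr 25 29 (.thr 22 62 (.dbl 19 28 35))))) .nd))))) (.rp 40 (.str 51 (.nv (.thr 2 1 (.thr 19 35 (.thr 22 62 (.thr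 25 28 (.thr 8 59 (.dbl 12 4 38)))))) (.nv (.thr 1 2 (.thr 19 35 (.thr 17 34 (.thr 18 16 (.dbl 33 48 49))))) (.nv (.thr 34 17 (.thr 38 46 (.thr 12 25 (.dbl 4 8 55)))) .nd)))) (.rp 22 (.str 37 (.nv (.thr 1 2 (.thr 32 47 (.thr 41 61 (.thr 33 45 (.dbl 48 16 18))))) (.nv (.thr 1 2 (.thr 41 61 (.thr 33 45 (.thr 49 17 (.thr 13 25 (.dbl 5 9 53)))))) (.nv (.thr 5 53 (.thr 15 10 (.thr 32 47 (.dbl 48 16 26)))) .nd)))) (.rp 20 (.str 51 (.nv (.thr 2 1 (.thr 19 35 (.thr 22 62 (.thr 25 28 (.thr 8 59 (.dbl 12 4 38)))))) (.nv (.thr 1 2 (.thr 19 35 (.thr 17 34 (.thr 18 16 (.dbl 33 48 49))))) (.nv (.thr 34 17 (.thr 38 46 (.thr 12 25 (.dbl 4 8 55)))) .nd)))) (.rp 2 (.str 51 (.nv (.thr 34 17 (.thr 35 19 (.thr 38 46 (.thr 41 44 (.thr 40 43 (.dbl 60 20 22)))))) (.nv (.thr 34 17 (.thr 38 46 (.thr 12 25 (.dbl 4 8 55)))) (.rp 46 (.thr 19 35 (.thr 17 34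 (.thr 18 16 (.thr 25 29 (.thr 12 38 (.dbl 8 4 59)))))) (.rp 38 (.thr 35 19 (.thr 34 17 (.thr 32 33 (.thr 37 47 (.thr 5 53 (.thr 15 10 (.dbl 48 16 26))))))) (.rp 34 (.str 18 (.nv (.thr 48 33 (.thr 32 16 (.thr 37 47 (.thr 5 53 (.dbl 15 10 26))))) (.nv (.thr 19 35 (.thr 16 17 (.dbl 48 32 33))) (.rp 48 (.thr 19 35 (.thr 17 16 (.thr 25 29 (.thr 8 59 (.dbl 12 4 38))))) (.rp 33 (.str 32 (.nv (.thr 37 47 (.thr 5 53 (.thr 15 10 (.dbl 48 16 26)))) (.nv (.thr 19 35 (.dbl 16 17 48)) (.rp 48 (.thr 19 35 (.thr 17 16 (.thr 25 29 (.thr 8 59 (.dbl 12 4 38))))) (.rp 16 (.thr 35 19 (.thr 47 37 (.thr 43 39 (.thr 41 40 (.thr 38 44 (.thr 12 25 (.dbl 4 8 55))))))) .nd))))) (.rp 32 (.thr 19 35 (.thr 33 48 (.thr 17 16 (.thr 25 29 (.thr 8 59 (.dbl 12 4 38)))))) (.rp 16 (.str 17 (.nv (.thr 33 48 (.thr 1 49 (.thr 41 61 (.thr 40 43 (.dbl 60 20 22))))) (.nv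 (.thr 25 29 (.thr 8 59 (.dbl 12 4 38))) .nd))) .nd))))))) (.rp 17 (.str 34 (.nv (.thr 35 19 (.thr 38 46 (.thr 41 44 (.thr 40 43 (.dbl 60 20 22))))) (.nv (.thr 38 46 (.thr 12 25 (.dbl 4 8 55))) (.rp 46 (.thr 35 19 (.thr 32 33 (.thr 37 47 (.thr 5 53 (.thr 15 10 (.dbl 48 16 26)))))) (.rp 38 (.thr 35 19 (.thr 32 33 (.thr 37 47 (.thr 5 53 (.thr 15 10 (.dbl 48 16 26)))))) (.rp 12 (.thr 35 19 (.thr 32 33 (.thr 37 47 (.thr 5 53 (.thr 15 10 (.dbl 48 16 26)))))) .nd)))))) (.rp 12 (.thr 35 19 (.thr 34 17 (.thr 32 33 (.thr 37 47 (.thr 5 53 (.thr 15 10 (.dbl 48 16 26))))))) .nd)))))))) (.rp 1 (.str 48 (.nv (.thr 16 32 (.thr 18 33 (.thr 26 31 (.thr 22 30 (.thr 20 23 (.dbl 60 40 41)))))) (.nv (.thr 32 16 (.thr 37 47 (.thr 5 53 (.dbl 15 10 26)))) (.rp 47 (.thr 16 32 (.thr 26 31 (.thr 15 37 (.dbl 10 5 58)))) (.rp 32 (.str 17 (.nv (.thr 25 29 (.thr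 8 59 (.thr 12 4 (.dbl 51 34 38)))) (.nv (.thr 18 33 (.thr 19 16 (.dbl 51 34 35))) (.rp 51 (.thr 18 33 (.thr 16 19 (.thr 26 31 (.thr 10 58 (.dbl 15 5 37))))) (.rp 34 (.thr 25 29 (.thr 8 59 (.thr 12 4 (.thr 24 36 (.thr 26 27 (.thr 10 58 (.dbl 9 6 11))))))) .nd))))) (.rp 31 (.thr 32 16 (.thr 37 47 (.thr 15 26 (.dbl 5 10 53)))) (.rp 26 (.thr 33 18 (.thr 32 16 (.thr 37 47 (.thr 41 45 (.thr 40 43 (.dbl 60 20 22)))))) (.rp 16 (.str 34 (.nv (.thr 38 46 (.thr 4 55 (.thr 12 8 (.dbl 51 17 25)))) (.nv (.thr 33 18 (.thr 35 32 (.dbl 51 17 19))) (.rp 51 (.thr 33 18 (.thr 32 35 (.thr 37 47 (.thr 5 53 (.dbl 15 10 26))))) (.rp 17 (.thr 38 46 (.thr 4 55 (.thr 12 8 (.thr 6 9 (.thr 22 54 (.thr 60 41 (.dbl 20 23 40))))))) .nd))))) (.rp 15 (.thr 18 33 (.thr 16 32 (.thr 17 19 (.thr 25 29 (.thr 8 59 (.thr 12 4 (.dbl 51 34 38))))))) .nd))))))))) .nd)))))))))))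 (.rp 49 (.thr 0 63 .ext) (.rp 48 .ext (.rp 47 (.thr 63 0 .ext) (.rp 46 (.thr 63 0 .ext) (.rp 45 (.thr 0 63 .ext) (.rp 44 (.thr 0 63 (.str 12 (.nv (.thr 8 4 (.thr 25 59 (.thr 51 38 (.dbl 17 29 34)))) (.nv (.thr 4 8 (.thr 38 55 (.thr 51 25 (.dbl 34 17 46)))) (.rp 51 (.thr 8 4 (.thr 59 25 (.str 10 (.nv (.thr 26 58 (.thr 16 31 (.thr 48 32 (.dbl 15 5 37)))) (.nv (.thr 9 11 (.thr 3 6 (.thr 5 15 (.dbl 1 2 13)))) (.nv (.thr 26 58 (.thr 11 9 (.thr 41 56 (.dbl 43 27 40)))) (.rp 6 (.thr 5 15 (.thr 11 9 (.thr 26 58 (.thr 41 56 (.dbl 43 27 40))))) (.rp 5 (.str 6 (.nv (.dbl 9 3 11) (.rp 11 (.thr 2 14 (.dbl 3 1 9)) (.rp 9 (.thr 14 2 (.thr 26 58 (.thr 16 31 (.thr 48 32 (.dbl 15 13 37))))) (.rp 3 (.thr 11 9 (.thr 26 58 (.thr 43 27 (.dbl 41 40 56)))) .nd))))) .nd)))))))) (.rp 38 (.str 41 (.nv (.thr 8 4 (.thr 25 59 (.thr 9 57 (.thr 11 10 (.thr 40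 43 (.dbl 56 24 26)))))) (.nv (.thr 1 61 (.thr 8 4 (.thr 25 59 (.thr 9 57 (.thr 5 13 (.dbl 10 11 15)))))) (.nv (.thr 40 43 (.thr 60 20 (.thr 1 61 (.dbl 3 2 22)))) .nd)))) (.rp 34 (.str 15 (.nv (.thr 4 8 (.thr 14 13 (.thr 38 55 (.thr 26 50 (.thr 16 31 (.dbl 48 32 37)))))) (.nv (.thr 8 4 (.thr 14 13 (.thr 10 5 (.thr 6 2 (.dbl 9 3 11))))) (.nv (.thr 5 10 (.thr 37 53 (.thr 48 26 (.dbl 32 16 47)))) .nd)))) (.rp 25 (.str 15 (.nv (.thr 4 8 (.thr 14 13 (.thr 38 55 (.thr 26 50 (.thr 16 31 (.dbl 48 32 37)))))) (.nv (.thr 8 4 (.thr 14 13 (.thr 10 5 (.thr 6 2 (.dbl 9 3 11))))) (.nv (.thr 5 10 (.thr 37 53 (.thr 48 26 (.dbl 32 16 47)))) (.rp 37 (.thr 10 5 (.thr 4 8 (.thr 26 58 (.thr 38 55 (.dbl 14 13 50))))) .nd))))) (.rp 17 (.str 15 (.nv (.thr 4 8 (.thr 14 13 (.thr 38 55 (.thr 26 50 (.thr 16 31 (.dbl 48 32 37)))))) (.nv (.thr 8 4 (.thr 14 13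 (.thr 10 5 (.thr 6 2 (.dbl 9 3 11))))) (.nv (.thr 5 10 (.thr 37 53 (.thr 48 26 (.dbl 32 16 47)))) .nd)))) (.rp 8 (.str 3 (.nv (.thr 1 2 (.thr 9 6 (.thr 41 61 (.thr 25 57 (.thr 17 29 (.dbl 51 34 38)))))) (.nv (.thr 1 2 (.thr 41 61 (.thr 40 43 (.dbl 60 20 22)))) (.rp 62 (.thr 1 2 (.thr 41 61 (.thr 60 22 (.dbl 40 20 43)))) (.rp 61 (.thr 2 1 (.thr 22 62 (.thr 60 41 (.dbl 20 23 40)))) (.rp 60 (.thr 6 9 (.thr 2 1 (.thr 10 14 (.thr 26 58 (.thr 16 31 (.thr 48 32 (.dbl 15 5 37))))))) (.rp 41 (.thr 6 9 (.thr 2 1 (.thr 22 62 (.thr 38 54 (.thr 34 46 (.dbl 51 17 25)))))) (.rp 2 (.str 5 (.nv (.thr 37 53 (.thr 32 47 (.thr 48 16 (.dbl 15 10 26)))) (.nv (.thr 9 6 (.thr 13 1 (.dbl 15 10 14))) (.rp 15 (.thr 9 6 (.thr 1 13 (.thr 41 61 (.thr 40 43 (.dbl 60 20 22))))) (.rp 10 (.thr 37 53 (.thr 32 47 (.thr 48 16 (.thr 36 24 (.thr 38 39 (.thr 51 25 (.dbl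 34 17 46))))))) .nd))))) (.rp 1 (.str 10 (.nv (.thr 26 58 (.thr 16 31 (.thr 48 32 (.dbl 15 5 37)))) (.nv (.thr 6 9 (.thr 14 2 (.dbl 15 5 13))) (.rp 15 (.thr 6 9 (.thr 2 14 (.thr 22 62 (.thr 20 23 (.dbl 60 40 41))))) (.rp 5 (.thr 26 58 (.thr 16 31 (.thr 48 32 (.thr 18 33 (.thr 22 30 (.thr 20 23 (.dbl 24 28 36))))))) .nd))))) .nd))))))))) (.rp 4 (.str 15 (.nv (.thr 5 10 (.thr 13 14 (.thr 37 53 (.thr 25 49 (.thr 17 29 (.dbl 51 34 38)))))) (.nv (.thr 5 10 (.thr 37 53 (.thr 48 26 (.dbl 32 16 47)))) (.rp 53 (.thr 14 13 (.thr 10 5 (.thr 6 2 (.thr 26 58 (.thr 48 37 (.dbl 16 31 32)))))) (.rp 48 (.thr 13 14 (.thr 5 10 (.thr 1 9 (.thr 41 61 (.thr 40 43 (.thr 60 20 (.dbl 3 2 22))))))) (.rp 37 (.thr 13 14 (.thr 5 10 (.thr 1 9 (.thr 41 61 (.thr 40 43 (.thr 60 20 (.dbl 3 2 22))))))) (.rp 10 (.str 5 (.nv (.thr 13 14 (.thr 37 53 (.thr 25 49 (.thr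 17 29 (.dbl 51 34 38))))) (.nv (.thr 37 53 (.thr 48 26 (.dbl 32 16 47))) (.rp 53 (.thr 13 14 (.thr 1 9 (.thr 41 61 (.thr 40 43 (.thr 60 20 (.dbl 3 2 22)))))) (.rp 48 (.thr 13 14 (.thr 1 9 (.thr 41 61 (.thr 40 43 (.thr 60 20 (.dbl 3 2 22)))))) (.rp 37 (.thr 13 14 (.thr 1 9 (.thr 41 61 (.thr 40 43 (.thr 60 20 (.dbl 3 2 22)))))) .nd)))))) (.rp 5 (.str 6 (.nv (.thr 3 9 (.thr 1 2 (.thr 41 61 (.thr 40 43 (.dbl 60 20 22))))) (.nv (.thr 14 13 (.thr 2 10 (.dbl 3 1 9))) (.rp 9 (.str 1 (.nv (.thr 3 2 (.thr 41 61 (.thr 40 43 (.dbl 60 20 22)))) (.nv (.thr 14 13 (.dbl 2 3 10)) (.rp 3 (.thr 14 13 (.thr 10 2 (.thr 26 58 (.thr 16 31 (.dbl 48 32 37))))) (.rp 2 (.thr 13 14 (.thr 61 41 (.thr 29 45 (.thr 25 17 (.thr 37 49 (.thr 48 26 (.dbl 32 16 47))))))) .nd))))) (.rp 3 (.thr 14 13 (.thr 10 2 (.thr 26 58 (.thr 16 31 (.dbl 48 32 37))))) (.rp 2 (.str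 10 (.nv (.thr 9 3 (.thr 8 11 (.thr 25 59 (.thr 17 29 (.dbl 51 34 38))))) (.nv (.thr 26 58 (.thr 16 31 (.dbl 48 32 37))) .nd))) (.rp 1 (.thr 14 13 (.thr 9 3 (.thr 10 2 (.thr 26 58 (.thr 16 31 (.dbl 48 32 37)))))) .nd))))))) .nd)))))))) .nd))))))))))) (.rp 43 (.thr 63 0 .ext) (.rp 41 (.thr 63 0 .ext) (.rp 40 (.thr 0 63 .ext) (.rp 39 (.thr 63 0 .ext) (.rp 38 (.thr 0 63 .ext) (.rp 37 (.thr 0 63 .ext) (.rp 36 (.thr 63 0 .ext) (.rp 35 (.thr 0 63 .ext) (.rp 34 (.thr 0 63 .ext) (.rp 33 (.thr 63 0 .ext) (.rp 32 (.thr 0 63 .ext) (.rp 31 (.thr 63 0 .ext) (.rp 30 (.thr 0 63 .ext) (.rp 29 (.thr 63 0 .ext) (.rp 28 (.thr 0 63 .ext) (.rp 27 (.thr 63 0 (.str 60 (.nv (.thr 61 62 (.thr 41 1 (.thr 3 22 (.dbl 43 23 40)))) (.nv (.thr 62 61 (.thr 22 2 (.thr 3 41 (.dbl 23 20 43)))) (.rp 62 (.str 58 (.nv (.thr 26 10 (.thr 48 53 (.thr 56 52 (.thr 41 11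 (.thr 43 40 (.dbl 3 22 23)))))) (.nv (.thr 48 53 (.thr 26 10 (.thr 31 16 (.dbl 15 37 47)))) (.rp 53 (.thr 26 10 (.thr 31 16 (.thr 15 47 (.thr 30 45 (.thr 22 18 (.thr 23 20 (.dbl 3 41 43))))))) (.rp 48 (.thr 26 10 (.str 15 (.nv (.dbl 31 16 47) (.rp 47 (.thr 30 45 (.thr 22 18 (.thr 23 20 (.dbl 3 41 43)))) (.rp 32 (.thr 16 31 (.thr 30 45 (.thr 22 18 (.thr 23 20 (.dbl 3 41 43))))) (.rp 31 (.thr 30 45 (.thr 22 18 (.thr 23 20 (.dbl 3 41 43)))) (.rp 16 (.str 32 (.nv (.dbl 47 31 37) (.rp 47 (.thr 30 45 (.thr 22 18 (.thr 23 20 (.dbl 3 41 43)))) (.rp 37 (.thr 30 45 (.thr 22 18 (.thr 23 20 (.dbl 3 41 43)))) (.rp 31 (.thr 30 45 (.thr 22 18 (.thr 23 20 (.dbl 3 41 43)))) .nd))))) .nd))))))) (.rp 37 (.thr 26 10 (.thr 31 16 (.thr 15 47 (.thr 30 45 (.thr 22 18 (.thr 23 20 (.dbl 3 41 43))))))) (.rp 26 (.thr 48 53 (.thr 56 52 (.thr 59 57 (.thr 25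 8 (.thr 29 17 (.thr 12 46 (.dbl 51 38 55))))))) (.rp 15 (.thr 48 53 (.thr 56 52 (.thr 59 57 (.thr 25 8 (.thr 29 17 (.thr 12 46 (.dbl 51 38 55))))))) (.rp 10 (.thr 48 53 (.thr 56 52 (.thr 59 57 (.thr 25 8 (.thr 29 17 (.thr 12 46 (.dbl 51 38 55))))))) (.rp 5 (.thr 48 53 (.thr 26 10 (.thr 15 37 (.dbl 31 16 47)))) .nd)))))))))) (.rp 61 (.str 29 (.nv (.thr 12 46 (.thr 25 17 (.thr 28 44 (.thr 22 19 (.thr 23 20 (.dbl 3 41 43)))))) (.nv (.thr 12 46 (.thr 25 17 (.thr 51 38 (.dbl 59 8 55)))) (.rp 51 (.thr 12 46 (.thr 28 44 (.thr 31 30 (.thr 26 16 (.thr 58 10 (.thr 48 53 (.dbl 15 37 47))))))) (.rp 46 (.thr 25 17 (.thr 59 8 (.thr 51 55 (.thr 57 54 (.thr 41 9 (.thr 43 40 (.dbl 3 22 23))))))) (.rp 25 (.thr 12 46 (.thr 28 44 (.thr 31 30 (.thr 26 16 (.thr 58 10 (.thr 48 53 (.dbl 15 37 47))))))) (.rp 17 (.thr 12 46 (.thr 28 44 (.thr 31 30 (.thr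 26 16 (.thr 58 10 (.thr 48 53 (.dbl 15 37 47))))))) (.rp 12 (.thr 25 17 (.str 51 (.nv (.dbl 59 8 55) (.rp 59 (.thr 57 54 (.thr 41 9 (.thr 43 40 (.dbl 3 22 23)))) (.rp 55 (.thr 57 54 (.thr 41 9 (.thr 43 40 (.dbl 3 22 23)))) (.rp 8 (.str 4 (.nv (.dbl 55 38 59) (.rp 59 (.thr 57 54 (.thr 41 9 (.thr 43 40 (.dbl 3 22 23)))) (.rp 55 (.thr 57 54 (.thr 41 9 (.thr 43 40 (.dbl 3 22 23)))) (.rp 38 (.thr 57 54 (.thr 41 9 (.thr 43 40 (.dbl 3 22 23)))) .nd))))) (.rp 4 (.thr 8 59 (.thr 57 54 (.thr 41 9 (.thr 43 40 (.dbl 3 22 23))))) .nd))))))) .nd)))))))) (.rp 43 (.str 59 (.nv (.thr 51 55 (.thr 57 54 (.thr 58 56 (.thr 53 48 (.dbl 61 49 62))))) (.nv (.thr 25 8 (.thr 61 62 (.thr 41 1 (.thr 57 9 (.thr 58 56 (.dbl 53 48 49)))))) (.nv (.thr 51 55 (.thr 25 8 (.thr 12 38 (.dbl 29 17 46)))) .nd)))) (.rp 41 (.str 12 (.nv (.thr 28 44 (.thr 62 61 (.thr 22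 2 (.thr 25 19 (.thr 59 8 (.dbl 51 38 55)))))) (.nv (.thr 44 28 (.thr 46 29 (.thr 45 47 (.thr 62 61 (.dbl 30 14 15))))) (.nv (.thr 29 46 (.thr 25 17 (.thr 59 8 (.dbl 51 38 55)))) .nd)))) (.rp 23 (.thr 62 61 (.str 31 (.nv (.thr 22 2 (.thr 26 16 (.thr 30 18 (.thr 29 28 (.dbl 46 12 14))))) (.nv (.thr 26 16 (.thr 58 10 (.thr 15 47 (.dbl 48 37 53)))) (.nv (.thr 15 47 (.thr 30 45 (.thr 46 14 (.dbl 29 12 28)))) (.rp 55 (.str 39 (.nv (.thr 22 2 (.thr 26 16 (.thr 30 18 (.thr 29 28 (.dbl 46 12 14))))) (.nv (.thr 26 16 (.thr 58 10 (.thr 15 47 (.dbl 48 37 53)))) (.nv (.thr 15 47 (.thr 30 45 (.thr 29 28 (.dbl 46 12 14)))) .nd)))) (.rp 39 (.str 55 (.nv (.thr 26 16 (.thr 58 10 (.thr 54 50 (.dbl 51 57 59)))) (.nv (.thr 15 47 (.thr 30 45 (.thr 29 28 (.dbl 46 12 14)))) (.rp 15 (.thr 51 59 (.thr 38 4 (.thr 22 2 (.dbl 54 6 57)))) .nd)))) .nd)))))))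 (.rp 22 (.str 37 (.nv (.thr 47 32 (.thr 15 31 (.thr 45 30 (.thr 41 33 (.dbl 61 1 62))))) (.nv (.thr 5 53 (.thr 61 62 (.thr 1 41 (.thr 13 9 (.thr 25 49 (.dbl 29 17 45)))))) (.nv (.thr 53 5 (.thr 48 58 (.thr 47 32 (.dbl 15 26 31)))) .nd)))) (.rp 3 (.thr 61 62 (.str 15 (.nv (.thr 45 30 (.thr 29 13 (.thr 25 17 (.thr 59 8 (.thr 51 55 (.dbl 12 38 46)))))) (.nv (.thr 31 47 (.thr 26 16 (.thr 58 10 (.dbl 48 37 53)))) (.rp 2 (.thr 1 41 (.thr 45 30 (.thr 29 13 (.thr 46 12 (.dbl 47 31 44))))) (.rp 1 (.str 2 (.nv (.thr 45 30 (.thr 29 13 (.thr 25 17 (.thr 59 8 (.thr 51 55 (.dbl 12 38 46)))))) (.nv (.thr 31 47 (.thr 26 16 (.thr 58 10 (.dbl 48 37 53)))) .nd))) .nd)))))) .nd))))))))))) (.rp 26 (.thr 0 63 .ext) (.rp 25 (.thr 0 63 .ext) (.rp 24 (.thr 0 63 .ext) (.rp 23 (.thr 63 0 .ext) (.rp 22 .ext (.rp 20 (.thr 0 63 .ext) (.rp 19 (.thr 63 0 .ext)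 (.rp 18 (.thr 63 0 .ext) (.rp 17 (.thr 0 63 .ext) (.rp 16 (.thr 0 63 .ext) (.rp 15 .ext (.rp 14 (.thr 63 0 .ext) (.rp 13 (.thr 0 63 .ext) (.rp 12 .ext (.rp 11 (.thr 0 63 .ext) (.rp 10 (.thr 0 63 .ext) (.rp 9 (.thr 0 63 .ext) (.rp 8 (.thr 0 63 .ext) (.rp 6 (.thr 0 63 .ext) (.rp 5 (.thr 0 63 .ext) (.rp 4 (.thr 0 63 .ext) (.rp 3 .ext (.rp 2 (.thr 0 63 .ext) (.rp 1 (.thr 0 63 .ext) (.rp 0 .ext .nd)))))))))))))))))))))))))))))))))))))))))))))))))))))))))))))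

theorem f4 : FR (cellsN 64) (Won lines) (bs 4398048608256) (bs 128) :=
  chunkR_sound bok full_eq (K := [(4398048608256, 129), (4398048608256, 136), (4398048608256, 4224), (4398048608256, 32896), (4398048608256, 4194432), (4398048608256, 281474976710784), (4398048608256, 2251799813685376), (4398048608256, 1152921504606847104), (4398048608256, 9223372036854775936), (4398048608257, 9223372036854775938), (4398048608257, 9223372036854775940), (4398048608257, 9223372036854775952), (4398048608257, 9223372036854775968), (4398048608257, 9223372036854776000), (4398048608257, 9223372036854776192), (4398048608257, 9223372036854776448), (4398048608257, 9223372036854776960), (4398048608257, 9223372036854777984), (4398048608257, 9223372036854784128), (4398048608257, 9223372036854841472), (4398048608257, 9223372036854907008), (4398048608257,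 9223372036855824512), (4398048608257, 9223372036871553152), (4398048608257, 9223372036888330368), (4398048608257, 9223372036921884800), (4398048608257, 9223372037123211392), (4398048608257, 9223372037928517760), (4398048608257, 9223372041149743232), (4398048608257, 9223372054034645120), (4398048608257, 9223372071214514304), (4398048608257, 9223372174293729408), (4398048608257, 9223372311732682880), (4398048608257, 9223373136366403712), (4398048608257, 9223407221226864768), (4398048608257, 9223934986808197248), (4398048608257, 9227875636482146432), (4398048608257, 9241386435364257920), (9223376434903384064, 16513), (9223376434903384064, 262273), (9223376434903384064, 524417), (9223376434903384064, 8388737), (9223376434903384064, 536871041), (9223376434903384064, 2147483777), (9223376434903384064, 8589934721), (9223376434903384064,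 68719476865), (9223376434903384064, 549755814017), (9223376434903384064, 2199023255681), (9223376434903384064, 8796093022337), (9223376434903384064, 70368744177793), (9223376434903384064, 140737488355457), (9223376434903384064, 9007199254741121), (9223376434903384064, 36028797018964097), (9223376434903384064, 72057594037928065), (9223376434903384064, 144115188075856001), (9223376434903384064, 288230376151711873), (9223376434903384064, 576460752303423617), (9223376434903384064, 2305843009213694081), (9223376434903384064, 4611686018427388033)]) (kc w257 (kc w259 (kc w267 (kc w270 (kc w280 (kc w305 (kc w310 (kc w319 (kc w322 (kc w94 (kc w258 (kc w260 (kc w261 (kc w262 (kc w263 (kc w264 (kc w265 (kc w266 (kc w268 (kc w271 (kc w272 (kc w275 (kc w282 (kc w283 (kc w284 (kc w285 (kc w287 (kc w289 (kc w291 (kc w292 (kc w294 (kc w295 (kc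 w297 (kc w300 (kc w306 (kc w311 (kc w313 (kc w269 (kc w273 (kc w274 (kc w281 (kc w286 (kc w288 (kc w290 (kc w293 (kc w296 (kc w298 (kc w299 (kc w301 (kc w302 (kc w312 (kc w314 (kc w315 (kc w316 (kc w317 (kc w318 (kc w320 (kc w321 kn)))))))))))))))))))))))))))))))))))))))))))))))))))))))))) r4 4398048608256 128 [] (by decide +kernel) (by decide +kernel)

end Pool.Agent.TTT.B43
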