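import Pool.Agent.TTT.B43

/-!
Certified forced wins in positions of the 4 x 4 x 4 board.
-/

set_option autoImplicit false
set_option maxRecDepth 1000000
set_option linter.all false

namespace Pool.Agent.TTT.B43

/-- A certificate. -/
noncomputable def c325 : Ct := (.str 13 (.nv (.thr 25 49 (.thr 29 17 (.thr 61 45 (.dbl 1 9 41)))) (.nv (.thr 1 9 (.thr 61 41 (.thr 25 49 (.dbl 29 17 45)))) (.rp 61 (.thr 49 25 (.str 4 (.nv (.thr 38 55 (.thr 36 39 (.thr 52 20 (.dbl 7 6 22)))) (.rp 55 (.thr 9 1 (.thr 6 7 (.thr 12 3 (.thr 0 8 (.thr 15 14 (.thr 48 26 (.thr 32 16 (.dbl 42 47 63)))))))) (.rp 54 (.thr 9 1 (.thr 6 7 (.thr 12 3 (.thr 0 8 (.thr 15 14 (.thr 48 26 (.thr 32 16 (.dbl 42 47 63)))))))) (.rp 52 (.thr 9 1 (.thr 6 7 (.thr 12 3 (.thr 0 8 (.thr 15 14 (.thr 48 26 (.thr 32 16 (.dbl 42 47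 63)))))))) (.rp 39 (.thr 9 1 (.thr 6 7 (.thr 12 3 (.thr 0 8 (.thr 15 14 (.thr 48 26 (.thr 32 16 (.dbl 42 47 63)))))))) (.rp 38 (.thr 9 1 (.thr 6 7 (.thr 12 3 (.thr 0 8 (.thr 15 14 (.thr 26 48 (.thr 31 16 (.dbl 63 42 47)))))))) (.rp 36 (.thr 9 1 (.thr 6 7 (.thr 12 3 (.thr 0 8 (.thr 15 14 (.thr 48 26 (.thr 32 16 (.dbl 42 47 63)))))))) (.rp 23 (.thr 1 9 (.thr 33 17 (.thr 41 45 (.thr 38 55 (.thr 39 36 (.thr 35 44 (.thr 47 43 (.dbl 32 34 42)))))))) (.rp 22 (.thr 1 9 (.thr 33 17 (.thr 41 45 (.thr 38 55 (.thr 39 36 (.thr 35 44 (.thr 47 43 (.dbl 32 34 42)))))))) (.rp 20 (.thr 1 9 (.thr 33 17 (.thr 41 45 (.thr 38 55 (.thr 39 36 (.thr 35 44 (.thr 47 43 (.dbl 32 34 42)))))))) (.rp 14 (.thr 6 7 (.thr 1 9 (.thr 33 17 (.thr 41 45 (.thr 38 55 (.thr 39 36 (.thr 35 44 (.thr 47 43 (.dbl 32 34 42)))))))))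 (.rp 7 (.thr 1 9 (.thr 33 17 (.thr 41 45 (.thr 38 55 (.thr 39 36 (.thr 35 44 (.thr 47 43 (.dbl 32 34 42)))))))) (.rp 6 (.str 14 (.nv (.thr 15 12 (.thr 26 48 (.dbl 38 50 55))) (.nv (.thr 38 55 (.thr 26 50 (.dbl 15 12 48))) (.rp 55 (.str 52 (.nv (.thr 15 12 (.thr 26 48 (.thr 36 20 (.dbl 38 39 50)))) (.nv (.thr 20 36 (.dbl 22 7 23)) (.rp 36 (.thr 15 12 (.thr 48 26 (.thr 60 56 (.thr 45 30 (.thr 41 33 (.dbl 22 3 7)))))) (.rp 20 (.thr 15 12 (.thr 48 26 (.thr 60 56 (.thr 45 30 (.thr 41 33 (.dbl 22 3 7)))))) .nd))))) (.rp 50 (.thr 12 15 (.thr 0 8 (.thr 42 63 (.thr 38 55 (.thr 36 39 (.thr 48 24 (.dbl 32 16 47))))))) (.rp 48 (.thr 1 9 (.thr 33 17 (.thr 41 45 (.thr 38 55 (.thr 39 36 (.thr 35 44 (.thr 32 34 (.dbl 47 42 43)))))))) (.rp 38 (.thr 12 15 (.str 22 (.nv (.thr 20 23 (.dbl 52 7 36))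 (.rp 52 (.thr 20 23 (.thr 1 9 (.thr 33 17 (.thr 41 45 (.thr 60 3 (.dbl 0 8 40)))))) (.rp 36 (.thr 20 23 (.thr 1 9 (.thr 33 17 (.thr 41 45 (.thr 60 3 (.dbl 0 8 40)))))) (.rp 23 (.thr 52 7 (.thr 36 20 (.thr 48 24 (.thr 0 8 (.thr 42 63 (.dbl 32 16 47)))))) (.rp 20 (.str 63 (.nv (.dbl 0 8 42) (.rp 42 (.thr 46 29 (.thr 30 62 (.thr 1 9 (.thr 33 17 (.thr 41 45 (.thr 3 60 (.dbl 18 26 48))))))) (.rp 8 (.thr 52 7 (.thr 46 29 (.thr 30 62 (.thr 18 26 (.thr 42 0 (.thr 47 32 (.thr 44 45 (.thr 60 28 (.thr 3 41 (.dbl 48 33 56)))))))))) (.rp 0 (.thr 46 29 (.thr 30 62 (.thr 1 9 (.thr 33 17 (.thr 41 45 (.thr 18 26 (.dbl 3 48 60))))))) .nd))))) (.rp 7 (.thr 20 23 (.thr 36 52 (.thr 48 24 (.thr 0 8 (.thr 32 16 (.dbl 40 44 60)))))) .nd)))))))) (.rp 26 (.thr 1 9 (.thr 33 17 (.thr 41 45 (.thr 38 55 (.thr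 39 36 (.thr 35 44 (.thr 32 34 (.dbl 47 42 43)))))))) (.rp 15 (.thr 1 9 (.thr 33 17 (.thr 41 45 (.thr 38 55 (.thr 39 36 (.thr 35 44 (.thr 32 34 (.dbl 47 42 43)))))))) (.rp 12 (.thr 38 55 (.thr 26 50 (.thr 48 15 (.thr 16 31 (.thr 32 0 (.thr 47 42 (.thr 36 39 (.thr 44 40 (.thr 45 46 (.dbl 41 33 35)))))))))) .nd)))))))))) .nd))))))))))))))) (.rp 49 (.str 4 (.nv (.thr 38 55 (.thr 36 39 (.thr 52 20 (.dbl 7 6 22)))) (.rp 61 (.str 57 (.nv (.thr 6 7 (.thr 9 1 (.thr 12 3 (.thr 0 8 (.thr 25 41 (.dbl 38 51 55)))))) (.nv (.thr 38 55 (.thr 36 39 (.thr 52 20 (.dbl 7 6 22)))) (.rp 55 (.thr 9 1 (.thr 25 41 (.thr 17 29 (.thr 6 7 (.thr 12 3 (.thr 0 8 (.dbl 51 34 38))))))) (.rp 38 (.thr 9 1 (.thr 25 41 (.thr 6 7 (.thr 12 3 (.thr 0 8 (.thr 63 42 (.dbl 29 17 46))))))) (.rp 22 (.thr 9 1 (.thr 25 41 (.thr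 6 7 (.thr 38 55 (.dbl 12 3 51))))) (.rp 7 (.thr 9 1 (.thr 25 41 (.thr 38 55 (.thr 12 51 (.thr 0 8 (.thr 63 42 (.dbl 29 17 46))))))) (.rp 6 (.str 14 (.nv (.thr 12 15 (.thr 0 8 (.thr 9 1 (.thr 25 41 (.dbl 38 51 55))))) (.nv (.thr 38 55 (.thr 15 12 (.dbl 26 48 50))) (.rp 55 (.thr 9 1 (.thr 25 41 (.thr 17 29 (.thr 12 15 (.thr 0 8 (.dbl 51 34 38)))))) (.rp 38 (.thr 9 1 (.thr 25 41 (.thr 12 15 (.thr 0 8 (.thr 63 42 (.dbl 29 17 46)))))) (.rp 15 (.thr 9 1 (.thr 25 41 (.thr 38 55 (.thr 12 51 (.thr 0 8 (.thr 63 42 (.dbl 29 17 46))))))) (.rp 12 (.thr 9 1 (.thr 25 41 (.thr 38 55 (.thr 26 50 (.thr 16 31 (.thr 24 27 (.thr 20 28 (.dbl 36 39 52)))))))) (.rp 9 (.thr 38 55 (.thr 26 50 (.dbl 15 12 48))) .nd)))))))) .nd)))))))) (.rp 57 (.str 61 (.nv (.thr 6 7 (.thr 41 1 (.dbl 45 29 33))) (.nv (.dbl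 1 9 41) (.rp 41 (.thr 38 55 (.thr 36 39 (.thr 52 20 (.dbl 7 6 22)))) (.rp 6 (.str 14 (.nv (.thr 38 55 (.thr 26 50 (.dbl 15 12 48))) (.nv (.dbl 1 9 41) .nd))) (.rp 1 (.thr 38 55 (.thr 36 39 (.thr 52 20 (.dbl 7 6 22)))) .nd)))))) (.rp 55 (.thr 6 7 (.thr 9 1 (.thr 12 3 (.thr 0 8 (.thr 15 14 (.thr 63 42 (.thr 31 47 (.dbl 26 16 48)))))))) (.rp 54 (.thr 6 7 (.thr 9 1 (.thr 12 3 (.thr 0 8 (.thr 15 14 (.thr 63 42 (.thr 31 47 (.dbl 26 16 48)))))))) (.rp 52 (.thr 6 7 (.thr 9 1 (.thr 12 3 (.thr 0 8 (.thr 15 14 (.thr 63 42 (.thr 31 47 (.dbl 26 16 48)))))))) (.rp 39 (.thr 38 55 (.thr 1 9 (.thr 61 41 (.thr 29 45 (.thr 25 17 (.thr 12 51 (.thr 63 46 (.dbl 0 8 42)))))))) (.rp 38 (.thr 6 7 (.thr 9 1 (.thr 12 3 (.thr 0 8 (.thr 15 14 (.thr 63 42 (.thr 31 47 (.dbl 26 16 48)))))))) (.rp 36 (.thr 38 55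 (.thr 6 7 (.thr 9 1 (.thr 12 3 (.thr 0 8 (.thr 51 25 (.thr 42 63 (.dbl 34 17 46)))))))) (.rp 23 (.thr 38 55 (.thr 39 36 (.thr 6 7 (.thr 9 1 (.thr 12 3 (.thr 0 8 (.thr 15 14 (.dbl 51 25 27)))))))) (.rp 22 (.thr 38 55 (.thr 39 36 (.thr 6 7 (.thr 9 1 (.thr 12 3 (.thr 0 8 (.thr 15 14 (.dbl 51 25 27)))))))) (.rp 20 (.thr 38 55 (.thr 39 36 (.thr 6 7 (.thr 9 1 (.thr 12 3 (.thr 0 8 (.thr 15 14 (.dbl 51 25 27)))))))) (.rp 14 (.thr 6 7 (.thr 38 55 (.thr 9 1 (.thr 12 3 (.thr 0 8 (.thr 51 25 (.thr 42 63 (.dbl 34 17 46)))))))) (.rp 7 (.thr 38 55 (.thr 1 9 (.thr 61 41 (.thr 29 45 (.thr 25 17 (.thr 12 51 (.thr 63 46 (.dbl 0 8 42)))))))) (.rp 6 (.str 14 (.nv (.thr 38 55 (.thr 26 50 (.dbl 15 12 48))) (.nv (.thr 15 12 (.thr 26 48 (.dbl 38 50 55))) (.nv (.thr 38 55 (.thr 15 12 (.dbl 26 48 50))) (.rp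 61 (.str 57 (.nv (.thr 12 15 (.thr 0 8 (.thr 9 1 (.thr 25 41 (.dbl 38 51 55))))) (.nv (.thr 38 55 (.thr 15 12 (.dbl 26 48 50))) (.rp 55 (.thr 9 1 (.thr 25 41 (.thr 17 29 (.thr 12 15 (.thr 0 8 (.dbl 51 34 38)))))) (.rp 38 (.thr 9 1 (.thr 25 41 (.thr 12 15 (.thr 0 8 (.thr 63 42 (.dbl 29 17 46)))))) (.rp 15 (.thr 9 1 (.thr 25 41 (.thr 38 55 (.thr 12 51 (.thr 0 8 (.thr 63 42 (.dbl 29 17 46))))))) (.rp 12 (.thr 9 1 (.thr 25 41 (.thr 38 55 (.thr 26 50 (.thr 16 31 (.thr 24 27 (.thr 20 28 (.dbl 36 39 52)))))))) (.rp 9 (.thr 38 55 (.thr 26 50 (.dbl 15 12 48))) .nd)))))))) (.rp 57 (.str 61 (.nv (.thr 38 55 (.thr 26 50 (.dbl 15 12 48))) (.nv (.dbl 1 9 41) .nd))) (.rp 55 (.thr 12 15 (.thr 1 9 (.thr 61 41 (.thr 29 45 (.thr 63 46 (.dbl 0 8 42)))))) (.rp 50 (.thr 38 55 (.thr 12 15 (.thr 1 9 (.thr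 61 41 (.thr 29 45 (.dbl 25 17 51)))))) (.rp 48 (.thr 38 55 (.thr 12 15 (.thr 1 9 (.thr 61 41 (.thr 29 45 (.dbl 25 17 51)))))) (.rp 38 (.thr 12 15 (.thr 1 9 (.thr 61 41 (.thr 29 45 (.thr 63 46 (.dbl 0 8 42)))))) (.rp 26 (.thr 38 55 (.thr 12 15 (.thr 1 9 (.thr 61 41 (.thr 29 45 (.dbl 25 17 51)))))) (.rp 15 (.thr 38 55 (.thr 1 9 (.thr 61 41 (.thr 29 45 (.thr 25 17 (.thr 12 51 (.thr 63 46 (.dbl 0 8 42)))))))) (.rp 12 (.thr 38 55 (.thr 36 39 (.thr 52 20 (.thr 26 50 (.thr 48 15 (.thr 56 60 (.thr 41 11 (.dbl 1 9 61)))))))) .nd))))))))))))) .nd)))))))))))))))) (.rp 45 (.str 7 (.nv (.thr 6 4 (.thr 9 1 (.thr 3 12 (.thr 22 52 (.thr 25 49 (.dbl 41 57 60)))))) (.nv (.thr 22 52 (.thr 23 20 (.thr 55 39 (.dbl 4 6 38)))) (.rp 55 (.thr 6 4 (.thr 22 52 (.thr 54 38 (.thr 9 1 (.thr 3 12 (.thr 41 60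 (.dbl 25 49 57))))))) (.rp 54 (.thr 6 4 (.thr 9 1 (.thr 3 12 (.thr 15 11 (.thr 26 48 (.thr 31 16 (.thr 63 47 (.thr 23 43 (.dbl 22 20 52))))))))) (.rp 52 (.thr 6 4 (.thr 9 1 (.thr 3 12 (.thr 25 49 (.thr 15 11 (.thr 26 48 (.thr 31 16 (.thr 63 47 (.thr 23 43 (.dbl 27 19 24)))))))))) (.rp 36 (.thr 6 4 (.thr 22 52 (.thr 20 23 (.thr 9 1 (.thr 3 12 (.thr 41 60 (.dbl 25 49 57))))))) (.rp 22 (.thr 6 4 (.thr 9 1 (.thr 3 12 (.thr 25 49 (.thr 15 11 (.thr 26 48 (.thr 31 16 (.thr 63 47 (.thr 23 43 (.dbl 27 19 24)))))))))) (.rp 20 (.thr 22 52 (.thr 1 9 (.thr 41 61 (.thr 3 60 (.thr 49 25 (.thr 33 17 (.thr 48 18 (.dbl 15 11 26)))))))) (.rp 6 (.str 14 (.nv (.thr 15 12 (.thr 3 11 (.thr 48 26 (.thr 33 18 (.thr 49 25 (.dbl 1 9 17)))))) (.nv (.thr 12 15 (.thr 25 49 (.thr 38 51 (.thr 39 36 (.dbl 55 4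 23))))) (.nv (.thr 1 9 (.thr 22 52 (.thr 41 61 (.thr 15 12 (.dbl 3 11 60))))) (.rp 49 (.thr 15 12 (.thr 22 52 (.thr 3 11 (.thr 41 60 (.dbl 1 9 61))))) (.rp 15 (.thr 22 52 (.thr 23 20 (.thr 25 49 (.thr 19 28 (.thr 31 27 (.thr 17 29 (.dbl 16 18 26))))))) (.rp 12 (.thr 22 52 (.thr 23 20 (.thr 25 49 (.thr 19 28 (.thr 31 27 (.thr 17 29 (.dbl 16 18 26))))))) .nd))))))) (.rp 4 (.thr 22 52 (.thr 20 23 (.thr 25 49 (.thr 29 17 (.thr 28 19 (.thr 31 30 (.dbl 16 24 26))))))) .nd))))))))))) (.rp 41 (.str 7 (.nv (.thr 22 52 (.thr 23 20 (.thr 55 39 (.dbl 4 6 38)))) (.rp 55 (.thr 6 4 (.thr 22 52 (.thr 54 38 (.thr 20 23 (.thr 25 49 (.thr 29 17 (.thr 28 19 (.thr 31 30 (.dbl 16 24 26))))))))) (.rp 54 (.thr 6 4 (.thr 9 1 (.thr 3 12 (.thr 15 11 (.thr 26 48 (.thr 31 16 (.thr 63 47 (.thr 23 43 (.dbl 22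 20 52))))))))) (.rp 52 (.thr 6 4 (.thr 9 1 (.thr 3 12 (.thr 25 49 (.thr 15 11 (.thr 26 48 (.thr 31 16 (.thr 63 47 (.thr 23 43 (.dbl 27 19 24)))))))))) (.rp 39 (.thr 22 52 (.thr 23 20 (.thr 25 49 (.thr 17 29 (.thr 19 28 (.thr 16 18 (.dbl 31 26 27))))))) (.rp 38 (.thr 22 52 (.thr 23 20 (.thr 25 49 (.thr 17 29 (.thr 19 28 (.thr 16 18 (.dbl 31 26 27))))))) (.rp 36 (.thr 22 52 (.thr 20 23 (.thr 25 49 (.thr 29 17 (.thr 28 19 (.thr 31 30 (.dbl 16 24 26))))))) (.rp 23 (.thr 6 4 (.thr 22 52 (.thr 9 1 (.thr 3 12 (.thr 25 49 (.thr 17 29 (.thr 19 28 (.thr 16 18 (.thr 15 11 (.dbl 26 31 48)))))))))) (.rp 22 (.thr 6 4 (.thr 9 1 (.thr 3 12 (.thr 25 49 (.thr 15 11 (.thr 26 48 (.thr 31 16 (.thr 63 47 (.thr 23 43 (.dbl 27 19 24)))))))))) (.rp 20 (.thr 22 52 (.thr 25 49 (.thr 17 29 (.thr 19 28 (.thr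 16 18 (.thr 31 26 (.thr 23 27 (.thr 55 39 (.dbl 4 6 38))))))))) (.rp 14 (.thr 6 4 (.thr 22 52 (.thr 20 23 (.thr 25 49 (.thr 29 17 (.thr 28 19 (.thr 31 30 (.dbl 16 24 26)))))))) (.rp 6 (.str 14 (.nv (.thr 12 15 (.thr 22 52 (.thr 23 20 (.thr 55 39 (.thr 25 49 (.dbl 38 4 51)))))) (.nv (.thr 15 12 (.thr 22 52 (.thr 23 20 (.thr 26 48 (.thr 55 39 (.dbl 38 4 50)))))) (.nv (.thr 12 15 (.thr 25 49 (.thr 38 51 (.thr 39 36 (.dbl 55 4 23))))) (.rp 55 (.thr 15 12 (.thr 3 11 (.thr 26 48 (.thr 31 16 (.thr 63 47 (.thr 23 43 (.dbl 22 20 52))))))) (.rp 39 (.thr 15 12 (.thr 22 52 (.thr 23 20 (.thr 3 11 (.thr 63 43 (.thr 47 31 (.dbl 42 0 32))))))) (.rp 38 (.thr 15 12 (.thr 22 52 (.thr 23 20 (.thr 3 11 (.thr 63 43 (.thr 47 31 (.dbl 42 0 32))))))) (.rp 36 (.thr 15 12 (.thr 22 52 (.thr 20 23 (.thr 25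 49 (.thr 28 19 (.thr 24 16 (.dbl 26 27 48))))))) (.rp 23 (.thr 15 12 (.thr 52 22 (.thr 26 48 (.thr 38 50 (.thr 4 55 (.dbl 36 20 39)))))) (.rp 15 (.thr 22 52 (.thr 23 20 (.thr 25 49 (.thr 19 28 (.thr 31 27 (.thr 17 29 (.dbl 16 18 26))))))) (.rp 12 (.thr 22 52 (.thr 23 20 (.thr 25 49 (.thr 19 28 (.thr 31 27 (.thr 17 29 (.dbl 16 18 26))))))) (.rp 4 (.thr 12 15 (.thr 25 49 (.thr 38 51 (.thr 39 36 (.thr 23 55 (.dbl 22 20 52)))))) .nd)))))))))))) (.rp 4 (.thr 22 52 (.thr 20 23 (.thr 25 49 (.thr 29 17 (.thr 28 19 (.thr 31 30 (.dbl 16 24 26))))))) .nd)))))))))))))) (.rp 29 (.thr 1 9 (.thr 41 61 (.thr 33 45 (.dbl 49 17 25)))) (.rp 25 (.str 15 (.nv (.thr 1 9 (.thr 41 61 (.thr 45 33 (.thr 60 30 (.thr 3 22 (.thr 26 48 (.dbl 11 7 56))))))) (.nv (.thr 14 12 (.thr 26 48 (.thr 38 50 (.thr 4 55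 (.thr 36 39 (.thr 52 20 (.dbl 7 6 22))))))) (.nv (.thr 1 9 (.thr 41 61 (.thr 45 33 (.thr 60 30 (.thr 22 3 (.thr 52 7 (.dbl 48 26 56))))))) (.rp 49 (.thr 9 1 (.thr 26 48 (.thr 31 16 (.thr 63 47 (.thr 12 14 (.thr 6 3 (.thr 0 42 (.dbl 4 7 8)))))))) (.rp 48 (.thr 1 9 (.thr 41 61 (.thr 45 33 (.thr 60 30 (.thr 3 22 (.thr 11 7 (.thr 26 56 (.thr 31 16 (.thr 63 47 (.thr 43 23 (.dbl 42 0 40))))))))))) (.rp 26 (.thr 1 9 (.thr 41 61 (.thr 45 33 (.thr 60 30 (.thr 22 3 (.thr 7 52 (.thr 23 20 (.thr 55 39 (.dbl 4 6 38))))))))) (.rp 22 (.thr 1 9 (.thr 41 61 (.thr 14 12 (.thr 26 48 (.thr 11 56 (.thr 38 50 (.thr 4 55 (.dbl 7 3 6)))))))) (.rp 14 (.str 6 (.nv (.thr 7 4 (.thr 9 1 (.dbl 3 11 12))) (.rp 12 (.thr 7 4 (.thr 22 52 (.thr 1 9 (.thr 41 61 (.dbl 3 11 60))))) (.rp 11 (.thr 7 4 (.thr 22 52 (.thr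 9 1 (.thr 3 12 (.thr 60 41 (.thr 30 45 (.dbl 26 18 48))))))) (.rp 9 (.thr 7 4 (.thr 22 52 (.thr 26 48 (.thr 30 18 (.thr 60 45 (.dbl 3 11 41)))))) (.rp 7 (.thr 9 1 (.thr 3 12 (.thr 26 48 (.thr 31 16 (.thr 63 47 (.thr 23 43 (.thr 22 20 (.thr 60 41 (.dbl 30 18 45))))))))) (.rp 4 (.thr 1 9 (.thr 41 61 (.thr 45 33 (.thr 60 30 (.thr 22 3 (.thr 52 7 (.dbl 48 26 56))))))) (.rp 3 (.thr 7 4 (.thr 52 22 (.thr 1 9 (.thr 41 61 (.thr 45 33 (.thr 60 30 (.dbl 48 26 56))))))) (.rp 1 (.thr 7 4 (.thr 22 52 (.thr 3 11 (.thr 60 41 (.thr 30 45 (.dbl 26 18 48)))))) .nd))))))))) (.rp 7 (.thr 14 12 (.thr 26 48 (.thr 31 16 (.thr 63 47 (.thr 38 50 (.thr 55 4 (.thr 51 59 (.dbl 39 27 36)))))))) (.rp 6 (.thr 14 12 (.thr 26 48 (.thr 31 16 (.thr 63 47 (.thr 38 50 (.thr 55 4 (.thr 51 59 (.dbl 39 27 36)))))))) .nd)))))))))))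 (.rp 17 (.thr 49 25 (.str 15 (.nv (.thr 1 9 (.thr 41 61 (.thr 45 33 (.thr 60 30 (.thr 3 22 (.thr 26 48 (.dbl 11 7 56))))))) (.nv (.thr 14 12 (.thr 26 48 (.thr 38 50 (.thr 4 55 (.thr 36 39 (.thr 52 20 (.dbl 7 6 22))))))) (.nv (.thr 1 9 (.thr 41 61 (.thr 45 33 (.thr 60 30 (.thr 22 3 (.thr 52 7 (.dbl 48 26 56))))))) (.rp 48 (.thr 1 9 (.thr 41 61 (.thr 45 33 (.thr 60 30 (.thr 3 22 (.thr 11 7 (.thr 26 56 (.thr 31 16 (.thr 63 47 (.thr 43 23 (.dbl 42 0 40))))))))))) (.rp 26 (.thr 1 9 (.thr 41 61 (.thr 45 33 (.thr 60 30 (.thr 22 3 (.thr 7 52 (.thr 23 20 (.thr 55 39 (.dbl 4 6 38))))))))) (.rp 22 (.thr 1 9 (.thr 41 61 (.thr 14 12 (.thr 26 48 (.thr 11 56 (.thr 38 50 (.thr 4 55 (.dbl 7 3 6)))))))) (.rp 14 (.str 6 (.nv (.thr 4 7 (.thr 38 55 (.thr 39 36 (.thr 48 26 (.dbl 51 27 50))))) (.nv (.thr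 7 4 (.thr 9 1 (.dbl 3 11 12))) (.rp 7 (.thr 1 9 (.thr 41 61 (.thr 45 33 (.thr 60 30 (.thr 22 3 (.thr 54 38 (.thr 51 57 (.dbl 48 26 50)))))))) (.rp 4 (.thr 1 9 (.thr 41 61 (.thr 45 33 (.thr 60 30 (.thr 22 3 (.thr 52 7 (.dbl 48 26 56))))))) .nd))))) (.rp 7 (.thr 14 12 (.thr 26 48 (.thr 31 16 (.thr 63 47 (.thr 38 50 (.thr 55 4 (.thr 51 59 (.dbl 39 27 36)))))))) (.rp 6 (.thr 14 12 (.thr 26 48 (.thr 31 16 (.thr 63 47 (.thr 38 50 (.thr 55 4 (.thr 51 59 (.dbl 39 27 36)))))))) .nd))))))))))) (.rp 14 (.str 6 (.nv (.thr 4 7 (.thr 25 49 (.thr 38 55 (.thr 12 51 (.dbl 9 1 3))))) (.nv (.thr 1 9 (.thr 25 49 (.thr 61 41 (.dbl 29 17 45)))) (.rp 61 (.thr 7 4 (.thr 22 52 (.thr 9 1 (.thr 3 12 (.thr 41 60 (.dbl 25 49 57)))))) (.rp 49 (.thr 7 4 (.thr 22 52 (.thr 9 1 (.thr 3 12 (.thr 60 41 (.thr 15 11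 (.thr 30 45 (.dbl 26 18 48)))))))) (.rp 25 (.thr 7 4 (.thr 22 52 (.thr 1 9 (.thr 41 61 (.thr 33 45 (.thr 3 60 (.thr 48 18 (.dbl 15 11 26)))))))) (.rp 9 (.thr 4 7 (.thr 38 55 (.thr 25 49 (.thr 29 17 (.thr 12 51 (.thr 63 46 (.dbl 0 8 42))))))) (.rp 1 (.thr 4 7 (.thr 38 55 (.thr 25 49 (.thr 12 51 (.thr 0 8 (.thr 63 42 (.dbl 29 17 46))))))) .nd)))))))) (.rp 9 (.str 31 (.nv (.thr 25 49 (.thr 26 16 (.thr 15 48 (.thr 29 17 (.thr 63 47 (.dbl 12 14 46)))))) (.nv (.thr 25 49 (.thr 26 16 (.thr 15 48 (.thr 27 24 (.thr 51 39 (.dbl 12 14 38)))))) (.nv (.thr 25 49 (.thr 29 17 (.thr 28 30 (.thr 22 19 (.thr 20 23 (.dbl 16 24 26)))))) (.rp 61 (.thr 26 16 (.thr 15 48 (.thr 63 47 (.thr 14 12 (.thr 38 50 (.thr 55 4 (.thr 51 59 (.dbl 39 27 36)))))))) (.rp 57 (.thr 26 16 (.thr 15 48 (.thr 63 47 (.thr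 14 12 (.thr 38 50 (.thr 55 4 (.thr 51 59 (.dbl 39 27 36)))))))) (.rp 49 (.str 61 (.nv (.thr 45 29 (.dbl 41 1 33)) (.rp 45 (.thr 41 1 (.thr 26 16 (.thr 15 48 (.thr 63 47 (.thr 11 56 (.thr 3 7 (.dbl 60 22 62))))))) (.rp 41 (.thr 29 45 (.thr 26 16 (.thr 15 48 (.thr 63 47 (.dbl 12 14 46))))) (.rp 33 (.thr 29 45 (.thr 26 16 (.thr 15 48 (.thr 63 47 (.dbl 12 14 46))))) (.rp 29 (.thr 41 1 (.thr 26 16 (.thr 15 48 (.thr 63 47 (.thr 60 62 (.dbl 45 30 33)))))) (.rp 14 (.str 6 (.nv (.thr 45 29 (.dbl 41 1 33)) (.rp 45 (.thr 7 4 (.thr 41 1 (.thr 26 16 (.thr 15 48 (.dbl 11 3 56))))) (.rp 41 (.thr 7 4 (.thr 22 52 (.thr 29 45 (.thr 28 30 (.dbl 25 17 19))))) (.rp 33 (.thr 7 4 (.thr 22 52 (.thr 29 45 (.thr 28 30 (.dbl 25 17 19))))) (.rp 29 (.thr 7 4 (.thr 41 1 (.thr 26 16 (.thr 15 48 (.dbl 11 3 56)))))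 (.rp 11 (.str 8 (.nv (.thr 45 29 (.dbl 41 1 33)) (.rp 45 (.thr 4 7 (.thr 0 12 (.thr 63 42 (.thr 15 47 (.dbl 26 16 48))))) (.rp 41 (.thr 45 29 (.thr 26 16 (.thr 15 48 (.thr 60 30 (.dbl 63 47 62))))) (.rp 33 (.thr 45 29 (.thr 26 16 (.thr 15 48 (.thr 60 30 (.dbl 63 47 62))))) (.rp 29 (.thr 4 7 (.thr 0 12 (.thr 63 42 (.thr 15 47 (.dbl 26 16 48))))) (.rp 1 (.thr 45 29 (.thr 26 16 (.thr 15 48 (.thr 60 30 (.dbl 63 47 62))))) .nd))))))) (.rp 8 (.str 11 (.nv (.thr 7 4 (.thr 26 16 (.dbl 15 3 48))) (.nv (.thr 45 29 (.dbl 41 1 33)) .nd))) (.rp 1 (.thr 7 4 (.thr 22 52 (.thr 29 45 (.thr 28 30 (.dbl 25 17 19))))) .nd))))))))) (.rp 11 (.str 8 (.nv (.thr 45 29 (.dbl 41 1 33)) (.rp 45 (.thr 26 16 (.thr 15 48 (.thr 63 47 (.thr 0 42 (.dbl 12 4 14))))) (.rp 41 (.thr 45 29 (.thr 26 16 (.thr 15 48 (.thr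 60 30 (.dbl 63 47 62))))) (.rp 33 (.thr 45 29 (.thr 26 16 (.thr 15 48 (.thr 60 30 (.dbl 63 47 62))))) (.rp 29 (.thr 26 16 (.thr 15 48 (.thr 63 47 (.thr 0 42 (.dbl 12 4 14))))) (.rp 14 (.str 6 (.nv (.thr 45 29 (.dbl 41 1 33)) (.rp 45 (.thr 4 7 (.thr 0 12 (.thr 63 42 (.thr 15 47 (.dbl 26 16 48))))) (.rp 41 (.thr 45 29 (.thr 26 16 (.thr 15 48 (.thr 60 30 (.dbl 63 47 62))))) (.rp 33 (.thr 45 29 (.thr 26 16 (.thr 15 48 (.thr 60 30 (.dbl 63 47 62))))) (.rp 29 (.thr 4 7 (.thr 0 12 (.thr 63 42 (.thr 15 47 (.dbl 26 16 48))))) (.rp 1 (.thr 45 29 (.thr 26 16 (.thr 15 48 (.thr 60 30 (.dbl 63 47 62))))) .nd))))))) (.rp 6 (.str 14 (.nv (.thr 41 1 (.dbl 45 29 33)) (.nv (.thr 26 16 (.dbl 15 12 48)) (.rp 12 (.str 3 (.nv (.thr 26 16 (.thr 41 1 (.thr 33 45 (.dbl 48 15 18)))) (.nv (.thr 41 1 (.dbl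 45 29 33)) (.rp 45 (.thr 26 16 (.thr 15 48 (.thr 41 1 (.thr 60 22 (.dbl 63 47 62))))) (.rp 41 (.thr 26 16 (.thr 15 48 (.thr 45 29 (.thr 60 30 (.dbl 63 47 62))))) (.rp 33 (.thr 26 16 (.thr 15 48 (.thr 45 29 (.thr 60 30 (.dbl 63 47 62))))) (.rp 1 (.thr 26 16 (.thr 48 15 (.thr 33 18 (.dbl 45 29 41)))) .nd))))))) (.rp 3 (.thr 12 15 (.str 7 (.nv (.thr 0 4 (.thr 42 63 (.thr 32 47 (.dbl 16 26 48)))) (.nv (.thr 45 29 (.dbl 41 1 33)) (.rp 0 (.thr 1 41 (.thr 29 45 (.thr 30 28 (.dbl 46 62 63)))) .nd))))) .nd))))) (.rp 1 (.thr 45 29 (.thr 26 16 (.thr 15 48 (.thr 60 30 (.dbl 63 47 62))))) .nd))))))))) (.rp 8 (.str 11 (.nv (.thr 26 16 (.dbl 41 1 56)) (.nv (.thr 45 29 (.dbl 41 1 33)) (.rp 41 (.thr 45 29 (.thr 26 16 (.thr 15 48 (.thr 63 47 (.dbl 60 30 62))))) (.rp 14 (.str 6 (.nv (.thr 7 4 (.thr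 26 16 (.dbl 15 3 48))) (.nv (.thr 45 29 (.dbl 41 1 33)) .nd))) (.rp 6 (.str 14 (.nv (.thr 41 1 (.dbl 45 29 33)) (.nv (.thr 26 16 (.dbl 15 12 48)) (.rp 12 (.str 3 (.nv (.thr 41 1 (.dbl 45 29 33)) (.nv (.thr 15 7 (.dbl 26 16 48)) (.rp 4 (.str 0 (.nv (.thr 41 1 (.dbl 45 29 33)) (.nv (.thr 26 16 (.dbl 15 7 48)) .nd))) (.rp 0 (.str 4 (.nv (.thr 41 1 (.dbl 45 29 33)) (.nv (.thr 15 7 (.dbl 26 16 48)) .nd))) .nd))))) (.rp 3 (.thr 12 15 (.thr 45 29 (.dbl 41 1 33))) .nd))))) (.rp 1 (.thr 45 29 (.thr 26 16 (.dbl 41 33 56))) .nd))))))) (.rp 6 (.str 14 (.nv (.thr 41 1 (.dbl 45 29 33)) (.nv (.thr 26 16 (.dbl 15 12 48)) (.rp 12 (.str 3 (.nv (.thr 26 16 (.thr 15 48 (.thr 11 7 (.dbl 41 1 56)))) (.nv (.thr 41 1 (.dbl 45 29 33)) (.rp 41 (.thr 45 29 (.thr 26 16 (.thr 15 48 (.thr 63 47 (.dbl 60 30 62)))))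 (.rp 11 (.str 8 (.nv (.thr 26 16 (.thr 41 1 (.thr 33 45 (.dbl 48 15 18)))) (.nv (.thr 41 1 (.dbl 45 29 33)) (.rp 45 (.thr 26 16 (.thr 15 48 (.thr 41 1 (.thr 60 22 (.dbl 63 47 62))))) (.rp 41 (.thr 26 16 (.thr 15 48 (.thr 45 29 (.thr 60 30 (.dbl 63 47 62))))) (.rp 33 (.thr 26 16 (.thr 15 48 (.thr 45 29 (.thr 60 30 (.dbl 63 47 62))))) (.rp 1 (.thr 26 16 (.thr 48 15 (.thr 33 18 (.dbl 45 29 41)))) .nd))))))) (.rp 8 (.str 11 (.nv (.thr 41 1 (.dbl 45 29 33)) (.nv (.thr 15 7 (.dbl 26 16 48)) (.rp 4 (.str 0 (.nv (.thr 41 1 (.dbl 45 29 33)) (.nv (.thr 26 16 (.dbl 15 7 48)) .nd))) (.rp 0 (.str 4 (.nv (.thr 41 1 (.dbl 45 29 33)) (.nv (.thr 15 7 (.dbl 26 16 48)) .nd))) .nd))))) (.rp 1 (.thr 45 29 (.thr 33 41 (.thr 26 16 (.dbl 48 15 18)))) .nd))))))) (.rp 11 (.str 8 (.nv (.thr 41 1 (.dbl 45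 29 33)) (.nv (.thr 26 16 (.dbl 15 12 48)) (.rp 12 (.str 3 (.nv (.thr 26 16 (.thr 41 1 (.thr 33 45 (.dbl 48 15 18)))) (.nv (.thr 41 1 (.dbl 45 29 33)) (.rp 45 (.thr 26 16 (.thr 15 48 (.thr 41 1 (.thr 60 22 (.dbl 63 47 62))))) (.rp 41 (.thr 26 16 (.thr 15 48 (.thr 45 29 (.thr 60 30 (.dbl 63 47 62))))) (.rp 33 (.thr 26 16 (.thr 15 48 (.thr 45 29 (.thr 60 30 (.dbl 63 47 62))))) (.rp 1 (.thr 26 16 (.thr 48 15 (.thr 33 18 (.dbl 45 29 41)))) .nd))))))) (.rp 3 (.thr 12 15 (.str 7 (.nv (.thr 0 4 (.thr 42 63 (.thr 32 47 (.dbl 16 26 48)))) (.nv (.thr 45 29 (.dbl 41 1 33)) (.rp 0 (.thr 1 41 (.thr 29 45 (.thr 30 28 (.dbl 46 62 63)))) .nd))))) .nd))))) (.rp 8 (.str 11 (.nv (.thr 41 1 (.dbl 45 29 33)) (.nv (.thr 26 16 (.dbl 15 12 48)) (.rp 12 (.str 3 (.nv (.thr 41 1 (.dbl 45 29 33)) (.nv (.thr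 15 7 (.dbl 26 16 48)) (.rp 4 (.str 0 (.nv (.thr 41 1 (.dbl 45 29 33)) (.nv (.thr 26 16 (.dbl 15 7 48)) .nd))) (.rp 0 (.str 4 (.nv (.thr 41 1 (.dbl 45 29 33)) (.nv (.thr 15 7 (.dbl 26 16 48)) .nd))) .nd))))) (.rp 3 (.thr 12 15 (.thr 45 29 (.dbl 41 1 33))) .nd))))) (.rp 3 (.thr 12 15 (.thr 45 29 (.dbl 41 1 33))) .nd))))))) (.rp 1 (.thr 29 45 (.thr 26 16 (.thr 15 48 (.thr 63 47 (.dbl 12 14 46))))) .nd))))))))))) (.rp 26 (.thr 25 49 (.thr 29 17 (.thr 28 30 (.thr 22 19 (.thr 23 20 (.thr 7 52 (.thr 55 39 (.dbl 4 6 38)))))))) (.rp 25 (.thr 26 16 (.thr 15 48 (.thr 63 47 (.thr 14 12 (.thr 38 50 (.thr 55 4 (.thr 51 59 (.dbl 39 27 36)))))))) (.rp 16 (.thr 25 49 (.thr 29 17 (.thr 28 30 (.thr 19 22 (.thr 27 23 (.thr 26 24 (.thr 15 48 (.thr 51 39 (.dbl 12 14 38))))))))) (.rp 14 (.str 6 (.nv (.thr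 16 26 (.thr 25 49 (.thr 29 17 (.thr 28 30 (.thr 20 24 (.dbl 22 19 23)))))) (.nv (.thr 4 7 (.thr 26 16 (.thr 15 48 (.thr 38 55 (.thr 39 36 (.thr 27 51 (.dbl 25 24 49))))))) (.nv (.thr 7 4 (.thr 22 52 (.thr 25 49 (.thr 19 28 (.dbl 23 20 27))))) (.rp 49 (.thr 7 4 (.thr 22 52 (.thr 20 23 (.thr 16 26 (.thr 28 24 (.thr 29 30 (.dbl 25 17 19))))))) (.rp 25 (.thr 7 4 (.thr 22 52 (.thr 26 16 (.thr 15 48 (.thr 30 18 (.thr 29 28 (.dbl 45 60 61))))))) (.rp 11 (.str 8 (.nv (.thr 25 49 (.thr 42 59 (.thr 47 32 (.dbl 63 0 15)))) (.nv (.thr 7 4 (.thr 22 52 (.thr 25 49 (.thr 19 28 (.dbl 23 20 27))))) (.nv (.thr 26 16 (.thr 4 7 (.thr 15 48 (.thr 63 47 (.dbl 0 12 42))))) .nd)))) (.rp 8 (.str 11 (.nv (.thr 7 4 (.thr 22 52 (.thr 25 49 (.thr 19 28 (.dbl 23 20 27))))) (.nv (.thr 26 16 (.thr 41 56 (.thr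 45 33 (.dbl 61 1 29)))) (.nv (.thr 7 4 (.thr 26 16 (.dbl 15 3 48))) .nd)))) .nd)))))))) (.rp 11 (.str 8 (.nv (.thr 26 16 (.thr 15 48 (.thr 63 47 (.thr 0 42 (.dbl 12 4 14))))) (.nv (.thr 25 49 (.thr 29 17 (.thr 28 30 (.thr 22 19 (.thr 20 23 (.dbl 16 24 26)))))) (.nv (.thr 25 49 (.thr 42 59 (.thr 47 32 (.dbl 63 0 15)))) (.rp 14 (.str 6 (.nv (.thr 25 49 (.thr 42 59 (.thr 47 32 (.dbl 63 0 15)))) (.nv (.thr 7 4 (.thr 22 52 (.thr 25 49 (.thr 19 28 (.dbl 23 20 27))))) (.nv (.thr 26 16 (.thr 4 7 (.thr 15 48 (.thr 63 47 (.dbl 0 12 42))))) .nd)))) (.rp 6 (.str 14 (.nv (.thr 12 15 (.thr 0 4 (.thr 25 49 (.dbl 42 59 63)))) (.nv (.thr 26 16 (.dbl 15 12 48)) (.rp 15 (.thr 26 16 (.thr 38 50 (.thr 4 55 (.thr 12 0 (.dbl 25 49 51))))) (.rp 12 (.str 3 (.nv (.thr 25 49 (.thr 42 59 (.thr 47 32 (.dbl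 63 0 15)))) (.nv (.thr 26 16 (.thr 48 15 (.thr 49 25 (.dbl 50 38 51)))) (.rp 57 (.thr 26 16 (.thr 48 15 (.thr 50 38 (.dbl 49 25 51)))) (.rp 49 (.thr 26 16 (.thr 48 15 (.thr 18 33 (.thr 22 30 (.thr 52 7 (.dbl 60 41 56)))))) (.rp 25 (.thr 26 16 (.thr 48 15 (.thr 18 33 (.thr 22 30 (.thr 52 7 (.dbl 60 41 56)))))) (.rp 15 (.thr 16 26 (.thr 25 49 (.thr 42 59 (.thr 32 47 (.dbl 0 48 63))))) .nd))))))) (.rp 3 (.thr 12 15 (.str 7 (.nv (.thr 26 16 (.thr 38 50 (.dbl 4 0 55))) (.nv (.thr 0 4 (.thr 25 49 (.dbl 42 59 63))) (.rp 4 (.thr 26 16 (.thr 38 50 (.dbl 25 49 51))) (.rp 0 (.str 1 (.nv (.thr 26 16 (.thr 38 50 (.thr 39 36 (.dbl 55 4 23)))) (.nv (.thr 41 61 (.thr 49 25 (.dbl 33 17 45))) .nd))) .nd)))))) .nd)))))) .nd)))))) (.rp 8 (.str 11 (.nv (.thr 26 16 (.thr 15 48 (.thr 14 12 (.thr 38 50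 (.thr 4 55 (.dbl 7 3 6)))))) (.nv (.thr 26 16 (.thr 41 56 (.thr 45 33 (.dbl 61 1 29)))) (.rp 26 (.thr 25 49 (.thr 29 17 (.thr 28 30 (.thr 22 19 (.thr 23 20 (.thr 7 52 (.thr 55 39 (.dbl 4 6 38)))))))) (.rp 24 (.thr 25 49 (.thr 29 17 (.thr 61 45 (.thr 26 16 (.dbl 41 1 56))))) (.rp 16 (.thr 25 49 (.thr 29 17 (.thr 61 45 (.thr 28 30 (.thr 19 22 (.thr 27 23 (.thr 26 24 (.dbl 41 1 56)))))))) (.rp 14 (.str 6 (.nv (.thr 7 4 (.thr 22 52 (.thr 25 49 (.thr 19 28 (.dbl 23 20 27))))) (.nv (.thr 26 16 (.thr 41 56 (.thr 45 33 (.dbl 61 1 29)))) (.nv (.thr 7 4 (.thr 26 16 (.dbl 15 3 48))) .nd)))) (.rp 6 (.str 14 (.nv (.thr 12 15 (.thr 25 49 (.thr 26 16 (.dbl 38 50 51)))) (.nv (.thr 26 16 (.dbl 15 12 48)) (.rp 26 (.thr 12 15 (.thr 25 49 (.thr 29 17 (.thr 46 63 (.dbl 30 28 62))))) (.rp 16 (.thr 12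 15 (.thr 25 49 (.thr 29 17 (.thr 46 63 (.dbl 30 28 62))))) (.rp 15 (.thr 26 16 (.thr 41 56 (.thr 61 1 (.dbl 45 29 33)))) (.rp 12 (.str 3 (.nv (.thr 26 16 (.thr 41 56 (.thr 45 33 (.dbl 61 1 29)))) (.nv (.thr 15 7 (.dbl 26 16 48)) (.rp 26 (.thr 15 7 (.thr 25 49 (.thr 29 17 (.thr 30 28 (.dbl 45 60 61))))) (.rp 16 (.thr 15 7 (.thr 25 49 (.thr 29 17 (.thr 30 28 (.dbl 45 60 61))))) (.rp 4 (.str 0 (.nv (.thr 16 26 (.thr 32 48 (.dbl 42 47 63))) (.nv (.thr 15 7 (.dbl 63 42 47)) (.nv (.thr 15 7 (.dbl 26 16 48)) .nd)))) (.rp 0 (.str 4 (.nv (.thr 26 16 (.dbl 38 50 55)) (.nv (.thr 7 15 (.thr 22 52 (.thr 23 20 (.dbl 55 38 39)))) (.nv (.thr 15 7 (.dbl 26 16 48)) .nd)))) .nd))))))) .nd))))))) .nd)))))))) (.rp 6 (.str 14 (.nv (.thr 12 15 (.thr 25 49 (.thr 26 16 (.dbl 38 50 51)))) (.nv (.thr 26 16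 (.dbl 15 12 48)) (.rp 26 (.thr 12 15 (.thr 25 49 (.thr 29 17 (.thr 46 63 (.dbl 30 28 62))))) (.rp 16 (.thr 12 15 (.thr 25 49 (.thr 29 17 (.thr 46 63 (.dbl 30 28 62))))) (.rp 15 (.thr 25 49 (.thr 29 17 (.thr 28 30 (.thr 22 19 (.thr 20 23 (.dbl 16 24 26)))))) (.rp 12 (.str 3 (.nv (.thr 25 49 (.thr 29 17 (.thr 28 30 (.thr 22 19 (.thr 41 60 (.dbl 45 33 61)))))) (.nv (.thr 26 16 (.thr 15 48 (.thr 63 47 (.thr 23 43 (.thr 22 20 (.dbl 7 11 52)))))) (.nv (.thr 49 25 (.thr 26 16 (.thr 48 15 (.dbl 50 38 51)))) (.rp 16 (.thr 25 49 (.thr 29 17 (.thr 61 45 (.thr 30 28 (.thr 62 46 (.thr 60 63 (.dbl 41 1 22))))))) (.rp 11 (.str 8 (.nv (.thr 25 49 (.thr 42 59 (.thr 47 32 (.dbl 63 0 15)))) (.nv (.thr 26 16 (.thr 48 15 (.thr 49 25 (.dbl 50 38 51)))) (.rp 57 (.thr 26 16 (.thr 48 15 (.thr 50 38 (.dbl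 49 25 51)))) (.rp 49 (.thr 26 16 (.thr 48 15 (.thr 18 33 (.thr 22 30 (.thr 52 7 (.dbl 60 41 56)))))) (.rp 25 (.thr 26 16 (.thr 48 15 (.thr 18 33 (.thr 22 30 (.thr 52 7 (.dbl 60 41 56)))))) (.rp 15 (.thr 16 26 (.thr 25 49 (.thr 42 59 (.thr 32 47 (.dbl 0 48 63))))) .nd))))))) (.rp 8 (.str 11 (.nv (.thr 26 16 (.thr 41 56 (.thr 45 33 (.dbl 61 1 29)))) (.nv (.thr 15 7 (.dbl 26 16 48)) (.rp 26 (.thr 15 7 (.thr 25 49 (.thr 29 17 (.thr 30 28 (.dbl 45 60 61))))) (.rp 16 (.thr 15 7 (.thr 25 49 (.thr 29 17 (.thr 30 28 (.dbl 45 60 61))))) (.rp 4 (.str 0 (.nv (.thr 16 26 (.thr 32 48 (.dbl 42 47 63))) (.nv (.thr 15 7 (.dbl 63 42 47)) (.nv (.thr 15 7 (.dbl 26 16 48)) .nd)))) (.rp 0 (.str 4 (.nv (.thr 26 16 (.dbl 38 50 55)) (.nv (.thr 7 15 (.thr 22 52 (.thr 23 20 (.dbl 55 38 39)))) (.nv (.thr 15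 7 (.dbl 26 16 48)) .nd)))) .nd))))))) .nd))))))) (.rp 11 (.str 8 (.nv (.thr 12 15 (.thr 0 4 (.thr 25 49 (.dbl 42 59 63)))) (.nv (.thr 26 16 (.dbl 15 12 48)) (.rp 15 (.thr 26 16 (.thr 38 50 (.thr 4 55 (.thr 12 0 (.dbl 25 49 51))))) (.rp 12 (.str 3 (.nv (.thr 25 49 (.thr 42 59 (.thr 47 32 (.dbl 63 0 15)))) (.nv (.thr 26 16 (.thr 48 15 (.thr 49 25 (.dbl 50 38 51)))) (.rp 57 (.thr 26 16 (.thr 48 15 (.thr 50 38 (.dbl 49 25 51)))) (.rp 49 (.thr 26 16 (.thr 48 15 (.thr 18 33 (.thr 22 30 (.thr 52 7 (.dbl 60 41 56)))))) (.rp 25 (.thr 26 16 (.thr 48 15 (.thr 18 33 (.thr 22 30 (.thr 52 7 (.dbl 60 41 56)))))) (.rp 15 (.thr 16 26 (.thr 25 49 (.thr 42 59 (.thr 32 47 (.dbl 0 48 63))))) .nd))))))) (.rp 3 (.thr 12 15 (.str 7 (.nv (.thr 26 16 (.thr 38 50 (.dbl 4 0 55))) (.nv (.thr 0 4 (.thr 25 49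 (.dbl 42 59 63))) (.rp 4 (.thr 26 16 (.thr 38 50 (.dbl 25 49 51))) (.rp 0 (.str 1 (.nv (.thr 26 16 (.thr 38 50 (.thr 39 36 (.dbl 55 4 23)))) (.nv (.thr 41 61 (.thr 49 25 (.dbl 33 17 45))) .nd))) .nd)))))) .nd)))))) (.rp 8 (.str 11 (.nv (.thr 12 15 (.thr 25 49 (.thr 26 16 (.dbl 38 50 51)))) (.nv (.thr 26 16 (.dbl 15 12 48)) (.rp 26 (.thr 12 15 (.thr 25 49 (.thr 29 17 (.thr 46 63 (.dbl 30 28 62))))) (.rp 16 (.thr 12 15 (.thr 25 49 (.thr 29 17 (.thr 46 63 (.dbl 30 28 62))))) (.rp 15 (.thr 26 16 (.thr 41 56 (.thr 61 1 (.dbl 45 29 33)))) (.rp 12 (.str 3 (.nv (.thr 26 16 (.thr 41 56 (.thr 45 33 (.dbl 61 1 29)))) (.nv (.thr 15 7 (.dbl 26 16 48)) (.rp 26 (.thr 15 7 (.thr 25 49 (.thr 29 17 (.thr 30 28 (.dbl 45 60 61))))) (.rp 16 (.thr 15 7 (.thr 25 49 (.thr 29 17 (.thr 30 28 (.dbl 45 60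 61))))) (.rp 4 (.str 0 (.nv (.thr 16 26 (.thr 32 48 (.dbl 42 47 63))) (.nv (.thr 15 7 (.dbl 63 42 47)) (.nv (.thr 15 7 (.dbl 26 16 48)) .nd)))) (.rp 0 (.str 4 (.nv (.thr 26 16 (.dbl 38 50 55)) (.nv (.thr 7 15 (.thr 22 52 (.thr 23 20 (.dbl 55 38 39)))) (.nv (.thr 15 7 (.dbl 26 16 48)) .nd)))) .nd))))))) .nd))))))) .nd))))))))) .nd)))))))))))))) (.rp 6 (.str 14 (.nv (.thr 1 9 (.thr 25 49 (.thr 61 41 (.dbl 29 17 45)))) (.nv (.thr 25 49 (.thr 29 17 (.thr 61 45 (.dbl 1 9 41)))) (.rp 61 (.thr 15 12 (.thr 26 48 (.thr 38 50 (.thr 55 4 (.thr 31 16 (.thr 63 47 (.thr 51 59 (.dbl 39 27 36)))))))) (.rp 49 (.thr 12 15 (.thr 1 9 (.thr 61 41 (.thr 29 45 (.thr 63 46 (.thr 25 17 (.thr 38 51 (.thr 4 55 (.dbl 0 8 42))))))))) (.rp 45 (.thr 12 15 (.thr 25 49 (.thr 38 51 (.thr 4 55 (.thr 29 17 (.thr 63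 46 (.dbl 0 8 42))))))) (.rp 41 (.thr 15 12 (.thr 25 49 (.thr 29 17 (.thr 26 48 (.thr 31 16 (.thr 30 28 (.dbl 45 60 61))))))) (.rp 29 (.thr 1 9 (.thr 41 61 (.thr 33 45 (.dbl 49 17 25)))) (.rp 25 (.thr 15 12 (.thr 26 48 (.thr 38 50 (.thr 55 4 (.thr 31 16 (.thr 63 47 (.thr 51 59 (.dbl 39 27 36)))))))) (.rp 17 (.thr 15 12 (.thr 26 48 (.thr 38 50 (.thr 55 4 (.thr 31 16 (.thr 63 47 (.thr 51 59 (.dbl 39 27 36)))))))) (.rp 9 (.thr 12 15 (.thr 25 49 (.thr 38 51 (.thr 4 55 (.thr 29 17 (.thr 63 46 (.dbl 0 8 42))))))) (.rp 1 (.thr 12 15 (.thr 25 49 (.thr 38 51 (.thr 4 55 (.thr 0 8 (.thr 63 42 (.dbl 29 17 46))))))) .nd)))))))))))) (.rp 1 (.str 38 (.nv (.thr 25 49 (.thr 12 51 (.thr 36 39 (.thr 48 24 (.dbl 15 14 26))))) (.nv (.thr 25 49 (.thr 17 29 (.thr 51 12 (.thr 0 34 (.thr 55 4 (.dbl 63 42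 59)))))) (.nv (.thr 36 39 (.thr 4 55 (.thr 52 20 (.dbl 7 6 22)))) (.rp 14 (.str 6 (.nv (.dbl 4 7 55) (.rp 55 (.thr 7 4 (.dbl 22 52 54)) (.rp 7 (.thr 55 4 (.thr 25 49 (.thr 17 29 (.thr 51 12 (.thr 0 34 (.dbl 63 42 59)))))) (.rp 4 (.thr 22 54 (.thr 25 49 (.thr 12 51 (.thr 3 9 (.thr 60 41 (.dbl 28 19 44)))))) (.rp 3 (.str 0 (.nv (.thr 25 49 (.thr 17 29 (.dbl 51 12 34))) (.nv (.dbl 4 7 55) .nd))) (.rp 0 (.str 3 (.nv (.thr 12 9 (.dbl 25 49 51)) (.nv (.dbl 4 7 55) .nd))) .nd))))))) (.rp 6 (.str 14 (.nv (.thr 15 12 (.dbl 26 48 50)) (.nv (.thr 12 15 (.dbl 25 49 51)) (.rp 15 (.thr 4 55 (.thr 25 49 (.thr 12 51 (.thr 0 8 (.thr 63 42 (.dbl 29 17 46)))))) (.rp 12 (.thr 39 36 (.thr 55 4 (.thr 23 7 (.thr 25 49 (.thr 26 50 (.thr 31 16 (.dbl 27 19 24))))))) (.rp 3 (.str 0 (.nv (.thr 25 49 (.thr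 17 29 (.dbl 51 12 34))) (.nv (.thr 12 15 (.dbl 4 8 55)) (.rp 12 (.str 9 (.nv (.thr 25 49 (.thr 17 29 (.thr 55 4 (.thr 63 42 (.dbl 51 34 59))))) (.nv (.thr 26 50 (.thr 16 31 (.dbl 48 15 32))) (.rp 34 (.thr 42 63 (.thr 32 47 (.thr 48 16 (.dbl 26 15 50)))) (.rp 26 (.thr 25 49 (.thr 17 29 (.thr 34 51 (.dbl 42 46 63)))) .nd))))) .nd)))) (.rp 0 (.str 3 (.nv (.thr 15 12 (.dbl 26 48 50)) (.nv (.thr 12 15 (.dbl 25 49 51)) (.rp 15 (.thr 39 36 (.thr 55 4 (.thr 23 7 (.thr 63 43 (.thr 51 59 (.dbl 25 12 49)))))) (.rp 12 (.thr 36 39 (.thr 4 55 (.thr 52 20 (.thr 7 22 (.thr 15 11 (.dbl 26 48 50)))))) .nd))))) .nd))))))) (.rp 3 (.str 0 (.nv (.thr 36 39 (.thr 4 55 (.thr 52 20 (.dbl 7 6 22)))) (.nv (.thr 25 49 (.thr 17 29 (.dbl 51 12 34))) (.rp 14 (.str 6 (.nv (.thr 25 49 (.thr 17 29 (.dbl 51 12 34)))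 (.nv (.dbl 4 7 55) .nd))) (.rp 6 (.str 14 (.nv (.thr 25 49 (.thr 17 29 (.dbl 51 12 34))) (.nv (.thr 12 15 (.dbl 4 8 55)) (.rp 12 (.str 9 (.nv (.thr 25 49 (.thr 17 29 (.thr 55 4 (.thr 63 42 (.dbl 51 34 59))))) (.nv (.thr 26 50 (.thr 16 31 (.dbl 48 15 32))) (.rp 34 (.thr 42 63 (.thr 32 47 (.thr 48 16 (.dbl 26 15 50)))) (.rp 26 (.thr 25 49 (.thr 17 29 (.thr 34 51 (.dbl 42 46 63)))) .nd))))) .nd)))) .nd))))) (.rp 0 (.str 3 (.nv (.thr 4 55 (.thr 25 49 (.thr 12 51 (.dbl 6 7 9)))) (.nv (.thr 25 49 (.thr 12 51 (.thr 36 39 (.thr 48 24 (.dbl 15 14 26))))) (.nv (.thr 36 39 (.thr 4 55 (.thr 52 20 (.dbl 7 6 22)))) (.rp 14 (.str 6 (.nv (.thr 12 9 (.dbl 25 49 51)) (.nv (.dbl 4 7 55) .nd))) (.rp 6 (.str 14 (.nv (.thr 15 12 (.dbl 26 48 50)) (.nv (.thr 12 15 (.dbl 25 49 51)) (.rp 15 (.thr 39 36 (.thr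 55 4 (.thr 23 7 (.thr 63 43 (.thr 51 59 (.dbl 25 12 49)))))) (.rp 12 (.thr 36 39 (.thr 4 55 (.thr 52 20 (.thr 7 22 (.thr 15 11 (.dbl 26 48 50)))))) .nd))))) .nd)))))) .nd)))))))) .nd))))))))))))))

theorem w325 : WinAt (137441050656, 9007199254742020) :=
  chF (K := []) kn c325 137441050656 9007199254742020 53
    [17476] (by decide +kernel) (by decide +kernel)

/-- A certificate. -/
noncomputable def c326 : Ct := (.str 4 (.nv (.thr 7 6 (.thr 22 52 (.thr 55 38 (.dbl 23 20 39)))) (.nv (.thr 38 55 (.thr 36 39 (.thr 52 20 (.dbl 7 6 22)))) (.rp 55 (.str 12 (.nv (.thr 0 8 (.thr 7 6 (.thr 42 63 (.thr 32 47 (.thr 48 16 (.thr 36 24 (.dbl 52 20 22))))))) (.nv (.thr 7 6 (.thr 52 22 (.thr 36 20 (.thr 38 39 (.thr 48 24 (.thr 51 25 (.thr 26 15 (.dbl 50 14 49)))))))) (.nv (.thr 0 8 (.thr 63 42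 (.thr 29 46 (.thr 25 17 (.thr 13 49 (.thr 61 45 (.dbl 1 9 41))))))) (.nv (.thr 7 6 (.thr 52 22 (.thr 36 20 (.thr 48 24 (.thr 26 15 (.thr 16 31 (.dbl 0 8 32))))))) (.rp 54 (.str 52 (.nv (.dbl 7 6 22) (.rp 22 (.thr 36 20 (.thr 0 8 (.thr 42 63 (.thr 32 47 (.dbl 48 16 24))))) (.rp 7 (.thr 36 20 (.thr 0 8 (.thr 42 63 (.thr 32 47 (.dbl 48 16 24))))) (.rp 6 (.thr 22 7 (.dbl 20 23 36)) .nd))))) (.rp 52 (.str 54 (.nv (.thr 0 8 (.thr 6 7 (.thr 38 22 (.thr 42 63 (.thr 32 47 (.thr 48 16 (.dbl 36 24 39))))))) (.nv (.thr 0 8 (.thr 63 42 (.thr 29 46 (.thr 25 17 (.thr 13 49 (.thr 61 45 (.dbl 1 9 41))))))) (.nv (.thr 6 7 (.thr 38 22 (.thr 39 36 (.thr 51 25 (.thr 15 27 (.thr 14 13 (.dbl 26 48 50))))))) (.nv (.thr 0 8 (.thr 63 42 (.thr 29 46 (.thr 25 17 (.thr 38 51 (.dbl 6 7 22)))))) (.rp 38 (.thr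 0 8 (.thr 42 63 (.thr 32 47 (.thr 48 16 (.thr 15 26 (.thr 36 24 (.thr 40 44 (.thr 20 60 (.thr 23 22 (.thr 41 43 (.thr 45 33 (.thr 61 1 (.dbl 13 14 29))))))))))))) (.rp 11 (.str 13 (.nv (.thr 7 6 (.thr 25 49 (.thr 51 38 (.thr 57 60 (.dbl 9 1 41))))) (.nv (.thr 15 14 (.thr 26 48 (.thr 31 16 (.thr 63 47 (.dbl 0 8 42))))) (.nv (.thr 1 9 (.thr 8 0 (.thr 41 61 (.thr 49 25 (.dbl 33 17 45))))) (.rp 9 (.thr 8 0 (.thr 25 49 (.thr 38 51 (.dbl 6 7 22)))) (.rp 8 (.thr 9 1 (.thr 25 49 (.thr 38 51 (.dbl 6 7 22)))) .nd)))))) .nd))))))) .nd))))))) (.rp 52 (.thr 55 38 (.str 42 (.nv (.thr 0 63 (.thr 8 12 (.thr 25 59 (.thr 13 49 (.thr 29 17 (.thr 61 45 (.dbl 1 9 41))))))) (.nv (.thr 47 32 (.thr 63 0 (.thr 15 31 (.thr 51 59 (.thr 39 27 (.dbl 7 6 23)))))) (.rp 63 (.thr 7 6 (.thr 47 32 (.thr 39 23 (.thr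 43 35 (.thr 41 40 (.thr 1 61 (.thr 33 45 (.thr 49 17 (.dbl 13 9 25))))))))) (.rp 59 (.thr 7 6 (.thr 39 23 (.thr 47 32 (.thr 43 35 (.thr 41 40 (.thr 1 61 (.thr 33 45 (.thr 49 17 (.dbl 13 9 25))))))))) (.rp 48 (.thr 7 6 (.thr 39 23 (.thr 63 0 (.thr 51 59 (.thr 15 27 (.dbl 47 31 32)))))) (.rp 43 (.thr 7 6 (.thr 39 23 (.thr 63 0 (.thr 47 32 (.thr 15 31 (.dbl 51 27 59)))))) (.rp 23 (.thr 63 0 (.thr 47 32 (.thr 15 31 (.thr 59 51 (.thr 25 8 (.thr 13 49 (.thr 12 14 (.dbl 29 17 46)))))))) (.rp 6 (.thr 63 0 (.thr 47 32 (.thr 31 15 (.thr 16 26 (.thr 59 51 (.thr 25 8 (.thr 17 29 (.thr 19 18 (.thr 22 28 (.dbl 23 20 27)))))))))) (.rp 1 (.thr 0 63 (.thr 8 12 (.thr 25 59 (.thr 32 47 (.thr 48 16 (.thr 49 13 (.thr 51 50 (.dbl 17 29 34)))))))) (.rp 0 (.thr 7 6 (.thr 39 23 (.thr 47 32 (.thr 43 35 (.thr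 41 40 (.thr 1 61 (.thr 33 45 (.thr 49 17 (.dbl 13 9 25))))))))) .nd)))))))))))) (.rp 39 (.str 13 (.nv (.thr 1 9 (.thr 25 49 (.thr 61 41 (.dbl 29 17 45)))) (.nv (.thr 25 49 (.thr 29 17 (.thr 38 55 (.thr 12 51 (.thr 63 46 (.dbl 0 8 42)))))) (.nv (.thr 25 49 (.thr 29 17 (.thr 61 45 (.dbl 1 9 41)))) (.rp 61 (.thr 38 55 (.thr 9 1 (.thr 25 49 (.thr 57 41 (.thr 12 51 (.thr 0 8 (.thr 63 42 (.dbl 29 17 46)))))))) (.rp 49 (.thr 38 55 (.thr 1 9 (.thr 61 41 (.thr 29 45 (.thr 25 17 (.thr 12 51 (.thr 63 46 (.dbl 0 8 42)))))))) (.rp 29 (.thr 1 9 (.thr 41 61 (.thr 33 45 (.dbl 49 17 25)))) (.rp 25 (.thr 38 55 (.thr 1 9 (.thr 41 61 (.thr 45 33 (.thr 44 35 (.thr 47 46 (.thr 32 42 (.thr 36 40 (.thr 52 20 (.dbl 7 6 22)))))))))) (.rp 17 (.thr 38 55 (.thr 7 6 (.thr 52 22 (.thr 36 20 (.thr 25 49 (.thr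 12 51 (.thr 48 24 (.dbl 15 14 26)))))))) (.rp 1 (.thr 38 55 (.thr 25 49 (.thr 12 51 (.thr 0 8 (.thr 63 42 (.dbl 29 17 46)))))) .nd)))))))))) (.rp 38 (.str 25 (.nv (.thr 29 17 (.thr 13 49 (.thr 61 45 (.dbl 1 9 41)))) (.rp 61 (.thr 17 29 (.thr 7 6 (.thr 22 52 (.thr 23 20 (.thr 19 28 (.thr 31 27 (.dbl 16 18 26))))))) (.rp 49 (.thr 17 29 (.thr 7 6 (.thr 22 52 (.thr 23 20 (.thr 19 28 (.thr 31 27 (.dbl 16 18 26))))))) (.rp 45 (.thr 17 29 (.thr 7 6 (.thr 22 52 (.thr 23 20 (.thr 19 28 (.thr 31 27 (.dbl 16 18 26))))))) (.rp 41 (.thr 17 29 (.thr 7 6 (.thr 22 52 (.thr 23 20 (.thr 19 28 (.thr 31 27 (.dbl 16 18 26))))))) (.rp 33 (.thr 29 17 (.thr 13 49 (.thr 1 9 (.dbl 61 41 45)))) (.rp 29 (.str 1 (.nv (.dbl 13 9 49) (.rp 49 (.thr 9 13 (.dbl 41 57 61)) (.rp 13 (.thr 7 6 (.thr 22 52 (.thr 23 20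 (.thr 19 28 (.thr 31 27 (.thr 16 26 (.thr 17 18 (.thr 33 49 (.dbl 41 45 61))))))))) (.rp 9 (.thr 49 13 (.thr 33 17 (.dbl 41 45 61))) .nd))))) (.rp 17 (.thr 13 49 (.thr 7 6 (.thr 22 52 (.thr 20 23 (.thr 28 19 (.thr 16 24 (.thr 31 26 (.thr 29 30 (.thr 61 45 (.dbl 1 9 41)))))))))) (.rp 13 (.thr 17 29 (.thr 7 6 (.thr 22 52 (.thr 23 20 (.thr 19 28 (.thr 31 27 (.dbl 16 18 26))))))) (.rp 9 (.thr 29 17 (.str 12 (.nv (.thr 63 46 (.dbl 0 8 42)) (.rp 63 (.thr 7 6 (.thr 22 52 (.thr 28 19 (.thr 31 30 (.thr 16 26 (.dbl 20 23 24)))))) (.rp 46 (.thr 13 49 (.thr 15 14 (.thr 26 48 (.thr 31 16 (.thr 63 47 (.dbl 0 8 42)))))) (.rp 42 (.thr 13 49 (.thr 15 14 (.thr 26 48 (.thr 31 16 (.dbl 63 46 47))))) (.rp 34 (.thr 13 49 (.thr 15 14 (.thr 26 48 (.thr 31 16 (.dbl 63 46 47))))) (.rp 11 (.thr 8 0 (.thr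 13 49 (.thr 15 14 (.thr 26 48 (.thr 63 46 (.dbl 31 16 47)))))) (.rp 8 (.str 11 (.nv (.thr 6 7 (.thr 13 49 (.thr 15 14 (.thr 26 48 (.thr 41 56 (.dbl 45 33 61)))))) (.nv (.thr 7 6 (.thr 22 52 (.thr 28 19 (.thr 31 30 (.thr 16 26 (.dbl 20 23 24)))))) (.nv (.thr 63 46 (.thr 42 0 (.thr 47 32 (.thr 15 31 (.dbl 13 14 49))))) (.rp 51 (.thr 13 49 (.thr 15 14 (.thr 63 46 (.thr 31 47 (.dbl 26 16 48))))) (.rp 14 (.thr 13 49 (.thr 61 45 (.thr 1 41 (.thr 63 46 (.thr 42 0 (.thr 47 32 (.thr 62 60 (.thr 22 2 (.thr 6 7 (.thr 28 19 (.dbl 31 15 30))))))))))) .nd)))))) (.rp 0 (.thr 13 49 (.thr 15 14 (.thr 26 48 (.thr 63 46 (.dbl 31 16 47))))) .nd)))))))))) (.rp 1 (.thr 17 29 (.thr 7 6 (.thr 22 52 (.thr 23 20 (.thr 19 28 (.thr 31 27 (.dbl 16 18 26))))))) .nd)))))))))))) (.rp 23 (.thr 7 6 (.thr 52 22 (.thr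 36 20 (.dbl 38 39 55)))) (.rp 22 (.str 1 (.nv (.thr 13 9 (.thr 49 25 (.thr 41 61 (.dbl 33 17 45)))) (.nv (.thr 41 61 (.thr 33 45 (.thr 49 17 (.dbl 13 9 25)))) (.rp 61 (.thr 38 55 (.thr 39 36 (.thr 13 9 (.thr 49 25 (.thr 33 17 (.thr 41 45 (.thr 35 44 (.thr 32 34 (.dbl 47 42 43))))))))) (.rp 49 (.thr 38 55 (.thr 36 39 (.thr 9 13 (.thr 41 61 (.thr 57 25 (.thr 45 33 (.thr 44 35 (.thr 47 46 (.dbl 32 40 42))))))))) (.rp 45 (.thr 38 55 (.thr 36 39 (.thr 13 9 (.thr 25 49 (.thr 12 51 (.thr 15 14 (.dbl 48 24 26))))))) (.rp 41 (.str 60 (.nv (.thr 13 9 (.thr 25 49 (.thr 29 17 (.thr 61 45 (.thr 63 62 (.thr 12 46 (.dbl 0 8 42))))))) (.nv (.thr 38 55 (.thr 36 39 (.thr 52 20 (.thr 48 56 (.thr 12 24 (.thr 13 9 (.dbl 15 14 26))))))) (.nv (.thr 13 9 (.thr 25 49 (.thr 29 17 (.thr 61 45 (.thr 38 55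 (.thr 63 62 (.dbl 12 46 51))))))) (.rp 57 (.thr 38 55 (.thr 36 39 (.thr 52 20 (.thr 48 56 (.thr 12 24 (.thr 13 9 (.dbl 25 49 51))))))) (.rp 25 (.thr 38 55 (.thr 36 39 (.thr 52 20 (.thr 48 56 (.thr 12 24 (.thr 26 15 (.thr 16 31 (.dbl 0 8 32)))))))) (.rp 13 (.thr 38 55 (.thr 36 39 (.thr 52 20 (.thr 48 56 (.thr 12 24 (.thr 51 25 (.thr 50 49 (.dbl 26 14 15)))))))) (.rp 12 (.thr 13 9 (.thr 6 7 (.thr 25 49 (.thr 29 17 (.thr 61 45 (.thr 55 38 (.thr 63 62 (.thr 42 0 (.dbl 59 8 51))))))))) (.rp 11 (.thr 7 6 (.thr 38 55 (.thr 36 39 (.thr 52 20 (.thr 48 56 (.thr 26 15 (.thr 12 24 (.thr 51 25 (.dbl 50 14 49))))))))) (.rp 9 (.thr 38 55 (.thr 36 39 (.thr 52 20 (.thr 48 56 (.thr 12 24 (.thr 25 51 (.thr 49 13 (.dbl 17 29 33)))))))) (.rp 8 (.thr 38 55 (.thr 36 39 (.thr 52 20 (.thr 48 56 (.thr 26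 15 (.thr 50 14 (.thr 51 49 (.dbl 12 24 25)))))))) .nd))))))))))) (.rp 33 (.thr 13 9 (.thr 25 49 (.thr 29 17 (.dbl 61 41 45)))) (.rp 25 (.thr 38 55 (.thr 36 39 (.thr 41 61 (.thr 45 33 (.thr 44 35 (.thr 47 46 (.dbl 32 40 42))))))) (.rp 17 (.thr 38 55 (.thr 36 39 (.thr 13 9 (.thr 25 49 (.thr 12 51 (.thr 15 14 (.dbl 48 24 26))))))) (.rp 13 (.thr 38 55 (.thr 36 39 (.thr 41 61 (.thr 45 33 (.thr 44 35 (.thr 47 46 (.dbl 32 40 42))))))) (.rp 9 (.thr 38 55 (.thr 36 39 (.thr 41 61 (.thr 45 33 (.thr 44 35 (.thr 47 46 (.dbl 32 40 42))))))) .nd)))))))))))) (.rp 20 (.str 1 (.nv (.thr 13 9 (.thr 25 49 (.thr 61 41 (.dbl 29 17 45)))) (.nv (.thr 41 61 (.thr 33 45 (.thr 49 17 (.dbl 13 9 25)))) (.rp 61 (.thr 38 55 (.thr 39 36 (.thr 13 9 (.thr 49 25 (.thr 33 17 (.thr 41 45 (.thr 35 44 (.thr 32 34 (.dbl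 47 42 43))))))))) (.rp 49 (.thr 38 55 (.thr 13 9 (.thr 61 41 (.thr 29 45 (.thr 25 17 (.thr 12 51 (.thr 63 46 (.dbl 0 8 42)))))))) (.rp 45 (.thr 38 55 (.thr 36 39 (.thr 13 9 (.thr 25 49 (.thr 12 51 (.thr 15 14 (.dbl 48 24 26))))))) (.rp 41 (.thr 38 55 (.thr 36 39 (.thr 13 9 (.thr 25 49 (.thr 12 51 (.thr 15 14 (.dbl 48 24 26))))))) (.rp 29 (.thr 13 9 (.thr 49 25 (.thr 33 17 (.dbl 41 45 61)))) (.rp 25 (.thr 38 55 (.thr 36 39 (.thr 41 61 (.thr 45 33 (.thr 44 35 (.thr 47 46 (.dbl 32 40 42))))))) (.rp 17 (.thr 38 55 (.thr 36 39 (.thr 13 9 (.thr 25 49 (.thr 12 51 (.thr 15 14 (.dbl 48 24 26))))))) (.rp 13 (.thr 38 55 (.thr 36 39 (.thr 41 61 (.thr 45 33 (.thr 44 35 (.thr 47 46 (.dbl 32 40 42))))))) (.rp 9 (.thr 38 55 (.thr 36 39 (.thr 41 61 (.thr 45 33 (.thr 44 35 (.thr 47 46 (.dbl 32 40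 42))))))) .nd)))))))))))) (.rp 7 (.str 15 (.nv (.thr 38 55 (.thr 39 36 (.thr 51 27 (.thr 12 25 (.thr 0 8 (.thr 34 17 (.dbl 42 46 63))))))) (.nv (.thr 26 48 (.thr 31 16 (.thr 63 47 (.thr 0 42 (.thr 12 8 (.thr 13 14 (.thr 29 46 (.dbl 25 17 49)))))))) (.nv (.thr 38 55 (.thr 39 36 (.thr 51 27 (.thr 12 25 (.thr 14 13 (.dbl 26 48 50)))))) (.rp 38 (.thr 26 48 (.thr 31 16 (.thr 63 47 (.thr 0 42 (.thr 12 8 (.thr 13 14 (.thr 25 49 (.dbl 29 17 46)))))))) (.rp 26 (.thr 38 55 (.thr 39 36 (.thr 51 27 (.thr 25 12 (.thr 13 49 (.thr 29 17 (.thr 61 45 (.dbl 1 9 41)))))))) (.rp 25 (.thr 38 55 (.thr 26 48 (.thr 31 16 (.thr 63 47 (.thr 0 42 (.thr 14 50 (.dbl 12 8 13))))))) (.rp 12 (.thr 38 55 (.thr 39 36 (.thr 51 27 (.thr 48 26 (.thr 49 50 (.thr 25 13 (.thr 17 29 (.thr 0 34 (.thr 32 16 (.dbl 42 47 63))))))))))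 .nd)))))))) (.rp 6 (.str 12 (.nv (.thr 0 8 (.thr 38 55 (.thr 36 39 (.thr 48 24 (.thr 32 16 (.dbl 42 47 63)))))) (.nv (.thr 0 8 (.thr 63 42 (.thr 29 46 (.thr 25 17 (.dbl 38 51 55))))) (.nv (.thr 38 55 (.thr 39 36 (.thr 51 25 (.thr 15 27 (.thr 14 13 (.dbl 26 48 50)))))) (.rp 55 (.thr 0 8 (.thr 63 42 (.thr 29 46 (.thr 25 17 (.thr 13 49 (.thr 61 45 (.dbl 1 9 41))))))) (.rp 38 (.thr 0 8 (.thr 42 63 (.thr 32 47 (.thr 48 16 (.thr 36 24 (.thr 20 52 (.dbl 40 44 60))))))) (.rp 14 (.str 2 (.nv (.thr 38 55 (.thr 25 51 (.thr 29 17 (.thr 63 46 (.dbl 0 8 42))))) (.nv (.thr 0 8 (.thr 42 63 (.thr 22 62 (.thr 52 7 (.dbl 20 23 36))))) (.nv (.thr 0 8 (.thr 38 55 (.thr 36 39 (.thr 48 24 (.thr 16 32 (.dbl 26 15 31)))))) (.nv (.thr 0 8 (.thr 38 55 (.thr 51 25 (.thr 34 17 (.dbl 42 46 63))))) (.rp 52 (.thr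 0 8 (.thr 63 42 (.thr 29 46 (.thr 25 17 (.dbl 38 51 55))))) (.rp 8 (.thr 38 55 (.thr 25 51 (.thr 13 49 (.thr 29 17 (.thr 61 45 (.dbl 1 9 41)))))) (.rp 0 (.thr 38 55 (.thr 25 51 (.thr 13 49 (.thr 1 9 (.thr 61 41 (.dbl 29 17 45)))))) .nd)))))))) (.rp 2 (.str 14 (.nv (.thr 0 8 (.thr 38 55 (.thr 25 51 (.thr 29 17 (.dbl 63 42 46))))) (.nv (.thr 0 8 (.thr 13 15 (.thr 25 49 (.thr 63 42 (.dbl 29 17 46))))) (.nv (.thr 38 55 (.thr 15 13 (.dbl 26 48 50))) (.rp 0 (.str 1 (.nv (.dbl 13 9 15) (.rp 15 (.thr 13 9 (.thr 25 49 (.dbl 38 51 55))) (.rp 13 (.thr 38 55 (.thr 26 50 (.thr 48 15 (.dbl 36 24 39)))) (.rp 9 (.thr 13 15 (.thr 25 49 (.dbl 38 51 55))) .nd))))) .nd))))) .nd)))))))) .nd))))))))))))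

theorem w326 : WinAt (137441050656, 9007199254742024) :=
  chF (K := []) kn c326 137441050656 9007199254742024 53
    [] (by decide +kernel) (by decide +kernel)

/-- A certificate. -/
noncomputable def c327 : Ct := (.str 1 (.nv (.thr 41 61 (.thr 33 45 (.thr 49 17 (.dbl 13 9 25)))) (.nv (.thr 13 9 (.thr 49 25 (.thr 41 61 (.dbl 33 17 45)))) (.rp 61 (.str 49 (.nv (.dbl 13 9 25) (.rp 25 (.str 0 (.nv (.thr 3 2 (.thr 33 17 (.thr 48 18 (.thr 16 32 (.dbl 26 15 31))))) (.nv (.thr 3 2 (.thr 33 17 (.thr 41 45 (.thr 22 60 (.thr 23 20 (.dbl 63 42 43)))))) (.nv (.thr 17 33 (.thr 51 34 (.thr 48 50 (.thr 32 16 (.dbl 42 47 63))))) (.rp 33 (.thr 2 3 (.thr 42 63 (.thr 32 47 (.thr 48 16 (.thr 50 51 (.thr 34 18 (.thr 38 46 (.dbl 26 14 15)))))))) (.rp 17 (.thr 3 2 (.thr 63 42 (.thr 23 43 (.thr 22 20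 (.thr 41 60 (.thr 33 45 (.thr 48 18 (.thr 16 32 (.dbl 26 15 31))))))))) (.rp 2 (.thr 17 33 (.thr 51 34 (.thr 42 63 (.thr 32 47 (.dbl 48 16 50))))) .nd))))))) (.rp 13 (.thr 17 33 (.thr 29 25 (.str 0 (.nv (.thr 42 63 (.thr 32 47 (.thr 48 16 (.dbl 51 34 50)))) (.nv (.thr 51 34 (.thr 2 3 (.thr 48 50 (.thr 26 15 (.dbl 16 31 32))))) (.nv (.thr 51 34 (.thr 48 50 (.thr 32 16 (.dbl 42 47 63)))) (.rp 51 (.thr 3 2 (.thr 42 63 (.thr 32 47 (.thr 48 16 (.thr 15 26 (.thr 7 11 (.thr 22 52 (.thr 20 23 (.dbl 60 40 41))))))))) (.rp 50 (.thr 3 2 (.thr 42 63 (.thr 32 47 (.thr 48 16 (.thr 15 26 (.thr 7 11 (.thr 22 52 (.thr 20 23 (.dbl 60 40 41))))))))) (.rp 48 (.thr 3 2 (.thr 51 34 (.thr 35 19 (.thr 63 42 (.thr 59 55 (.thr 43 23 (.thr 39 47 (.dbl 27 11 15)))))))) (.rp 34 (.thr 3 2 (.thr 42 63 (.thr 32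 47 (.thr 48 16 (.thr 15 26 (.thr 7 11 (.thr 22 52 (.thr 20 23 (.dbl 60 40 41))))))))) (.rp 32 (.thr 3 2 (.thr 51 34 (.thr 35 19 (.thr 63 42 (.thr 59 55 (.thr 43 23 (.thr 39 47 (.dbl 27 11 15)))))))) (.rp 16 (.thr 3 2 (.thr 51 34 (.thr 35 19 (.thr 63 42 (.thr 59 55 (.thr 43 23 (.thr 39 47 (.dbl 27 11 15)))))))) .nd)))))))))))) (.rp 9 (.thr 17 33 (.dbl 25 13 29)) .nd))))) (.rp 49 (.thr 61 41 (.str 15 (.nv (.thr 13 9 (.thr 12 14 (.thr 29 45 (.thr 63 46 (.thr 42 0 (.dbl 47 31 32)))))) (.nv (.thr 26 48 (.thr 31 16 (.thr 63 47 (.thr 60 62 (.thr 45 30 (.dbl 13 9 29)))))) (.nv (.thr 13 9 (.thr 12 14 (.thr 29 45 (.thr 25 17 (.thr 38 51 (.thr 36 39 (.dbl 48 24 26))))))) (.nv (.thr 13 9 (.thr 45 29 (.thr 60 30 (.thr 63 62 (.thr 31 47 (.dbl 26 16 48)))))) (.rp 45 (.thr 26 48 (.thr 31 16 (.thr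 63 47 (.thr 0 42 (.thr 3 2 (.thr 7 11 (.thr 22 52 (.dbl 23 20 43)))))))) (.rp 29 (.thr 26 48 (.thr 31 16 (.thr 63 47 (.thr 60 62 (.thr 30 45 (.thr 0 42 (.thr 22 18 (.dbl 20 23 40)))))))) (.rp 14 (.thr 13 9 (.thr 45 29 (.thr 60 30 (.thr 26 48 (.thr 31 16 (.dbl 63 47 62)))))) (.rp 13 (.thr 26 48 (.thr 31 16 (.thr 63 47 (.thr 60 62 (.thr 30 45 (.thr 0 42 (.thr 22 18 (.dbl 20 23 40)))))))) (.rp 9 (.thr 26 48 (.thr 31 16 (.thr 63 47 (.thr 60 62 (.thr 30 45 (.thr 0 42 (.thr 22 18 (.dbl 20 23 40)))))))) .nd))))))))))) (.rp 45 (.str 0 (.nv (.thr 41 61 (.thr 42 63 (.thr 40 43 (.thr 60 20 (.dbl 3 2 22))))) (.nv (.thr 3 2 (.thr 63 42 (.thr 23 43 (.thr 22 20 (.dbl 41 60 61))))) (.nv (.thr 3 2 (.thr 13 9 (.thr 49 25 (.thr 33 17 (.thr 48 18 (.thr 16 32 (.dbl 26 15 31))))))) (.nv (.thr 3 2 (.thr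 41 61 (.thr 42 63 (.thr 60 22 (.dbl 40 20 43))))) (.rp 41 (.thr 13 9 (.thr 3 2 (.thr 42 63 (.thr 32 47 (.thr 48 16 (.thr 33 18 (.dbl 49 17 25))))))) (.rp 3 (.thr 13 9 (.thr 49 25 (.thr 17 33 (.thr 51 34 (.thr 48 50 (.thr 32 16 (.dbl 42 47 63))))))) (.rp 2 (.thr 13 9 (.thr 49 25 (.thr 17 33 (.thr 51 34 (.thr 42 63 (.thr 32 47 (.dbl 48 16 50))))))) .nd)))))))) (.rp 41 (.str 0 (.nv (.thr 13 9 (.thr 25 49 (.thr 17 29 (.thr 51 34 (.thr 12 38 (.thr 15 14 (.thr 27 39 (.dbl 26 24 48)))))))) (.nv (.thr 2 3 (.thr 42 63 (.thr 22 62 (.thr 32 47 (.thr 48 16 (.thr 52 7 (.thr 60 56 (.dbl 20 23 40)))))))) (.nv (.thr 3 2 (.thr 42 63 (.thr 32 47 (.thr 48 16 (.thr 33 18 (.thr 17 49 (.dbl 34 35 51))))))) (.rp 61 (.thr 13 9 (.thr 3 2 (.thr 42 63 (.thr 32 47 (.thr 48 16 (.thr 33 18 (.dbl 49 17 25)))))))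 (.rp 48 (.thr 13 9 (.thr 25 49 (.thr 17 29 (.thr 3 2 (.thr 51 34 (.thr 19 35 (.thr 22 28 (.thr 23 20 (.dbl 63 42 43))))))))) (.rp 42 (.thr 13 9 (.thr 25 49 (.thr 17 29 (.thr 3 2 (.thr 51 34 (.thr 19 35 (.thr 22 28 (.thr 23 20 (.thr 31 27 (.dbl 16 18 26)))))))))) (.rp 15 (.thr 13 9 (.thr 25 49 (.thr 17 29 (.thr 3 2 (.thr 51 34 (.thr 19 35 (.thr 22 28 (.thr 23 20 (.dbl 63 42 43))))))))) (.rp 2 (.thr 13 9 (.thr 25 49 (.thr 17 29 (.thr 51 34 (.thr 12 38 (.thr 42 63 (.thr 32 47 (.thr 48 16 (.dbl 15 14 26))))))))) .nd))))))))) (.rp 33 (.thr 13 9 (.thr 25 49 (.thr 29 17 (.dbl 61 41 45)))) (.rp 25 (.str 0 (.nv (.thr 41 61 (.thr 42 63 (.thr 40 43 (.thr 60 20 (.dbl 3 2 22))))) (.nv (.thr 3 2 (.thr 63 42 (.thr 23 43 (.thr 22 20 (.dbl 41 60 61))))) (.nv (.thr 3 2 (.thr 41 61 (.thr 33 45 (.thr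 48 18 (.thr 16 32 (.dbl 26 15 31)))))) (.nv (.thr 3 2 (.thr 41 61 (.thr 22 60 (.thr 23 20 (.dbl 63 42 43))))) (.rp 61 (.thr 3 2 (.thr 42 63 (.thr 32 47 (.thr 48 16 (.thr 33 18 (.thr 34 35 (.dbl 17 49 51))))))) (.rp 41 (.thr 3 2 (.thr 42 63 (.thr 32 47 (.thr 48 16 (.thr 33 18 (.thr 17 49 (.dbl 34 35 51))))))) (.rp 3 (.thr 41 61 (.thr 33 45 (.thr 42 63 (.thr 32 47 (.thr 34 35 (.dbl 17 49 51)))))) (.rp 2 (.thr 41 61 (.thr 33 45 (.thr 42 63 (.thr 32 47 (.thr 34 35 (.dbl 17 49 51)))))) .nd))))))))) (.rp 17 (.str 0 (.nv (.thr 3 2 (.thr 63 42 (.thr 23 43 (.thr 22 20 (.dbl 41 60 61))))) (.nv (.thr 41 61 (.thr 42 63 (.thr 40 43 (.thr 60 20 (.dbl 3 2 22))))) (.nv (.thr 3 2 (.thr 41 61 (.thr 33 45 (.thr 48 18 (.thr 16 32 (.dbl 26 15 31)))))) (.nv (.thr 3 2 (.thr 41 61 (.thr 22 60 (.thr 63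 42 (.dbl 23 20 43))))) (.rp 61 (.thr 13 9 (.thr 42 63 (.thr 32 47 (.thr 48 16 (.thr 15 26 (.thr 12 14 (.thr 36 24 (.thr 38 39 (.dbl 25 49 51))))))))) (.rp 41 (.thr 2 3 (.thr 42 63 (.thr 32 47 (.thr 48 16 (.thr 22 62 (.thr 52 7 (.thr 60 56 (.dbl 20 23 40)))))))) (.rp 3 (.thr 41 61 (.thr 33 45 (.thr 42 63 (.thr 32 47 (.thr 35 34 (.thr 44 38 (.dbl 40 36 43))))))) (.rp 2 (.thr 41 61 (.thr 33 45 (.thr 42 63 (.thr 32 47 (.thr 35 34 (.thr 44 38 (.dbl 40 36 43))))))) .nd))))))))) (.rp 13 (.str 3 (.nv (.thr 0 2 (.thr 63 42 (.thr 23 43 (.thr 22 20 (.dbl 41 60 61))))) (.nv (.thr 0 2 (.thr 42 63 (.thr 32 47 (.thr 48 16 (.thr 33 18 (.thr 34 35 (.dbl 17 49 51))))))) (.nv (.thr 41 61 (.thr 45 33 (.thr 60 22 (.thr 15 30 (.thr 11 7 (.dbl 26 48 56)))))) .nd)))) (.rp 9 (.thr 41 61 (.thr 33 45 (.thr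 49 17 (.thr 13 25 (.str 42 (.nv (.thr 0 63 (.thr 3 2 (.thr 32 47 (.dbl 48 16 18)))) (.nv (.thr 0 63 (.thr 3 2 (.thr 40 43 (.dbl 60 20 22)))) (.nv (.thr 40 43 (.thr 32 47 (.thr 35 34 (.dbl 44 36 38)))) (.rp 11 (.str 8 (.nv (.thr 0 63 (.thr 3 2 (.thr 32 47 (.dbl 48 16 18)))) (.nv (.thr 0 63 (.thr 3 2 (.thr 40 43 (.dbl 60 20 22)))) (.nv (.thr 32 47 (.thr 35 34 (.thr 44 38 (.dbl 40 36 43)))) (.rp 0 (.thr 32 47 (.thr 40 43 (.thr 44 36 (.dbl 35 34 38)))) .nd))))) (.rp 8 (.str 11 (.nv (.thr 0 63 (.thr 3 2 (.thr 15 7 (.dbl 26 48 56)))) (.nv (.thr 40 43 (.thr 32 47 (.thr 35 34 (.dbl 44 36 38)))) (.rp 0 (.str 12 (.nv (.thr 32 47 (.thr 40 43 (.thr 44 36 (.dbl 35 34 38)))) (.nv (.thr 26 56 (.dbl 15 14 48)) (.rp 51 (.str 34 (.nv (.thr 15 14 (.dbl 26 48 56)) (.nv (.dbl 32 35 47) .nd))) (.rp 40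 (.thr 15 14 (.dbl 26 48 56)) (.rp 34 (.str 51 (.nv (.thr 43 40 (.thr 27 59 (.thr 39 15 (.dbl 47 32 35)))) (.nv (.thr 15 14 (.dbl 48 26 50)) (.rp 15 (.thr 40 43 (.thr 32 47 (.thr 48 50 (.dbl 36 24 44)))) .nd)))) .nd)))))) .nd)))) (.rp 0 (.thr 32 47 (.thr 40 43 (.thr 44 36 (.dbl 35 34 38)))) .nd))))))))))) .nd))))))))))))

theorem w327 : WinAt (137441050656, 9007199254742032) :=
  chF (K := []) kn c327 137441050656 9007199254742032 53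
    [] (by decide +kernel) (by decide +kernel)

/-- A certificate. -/
noncomputable def c328 : Ct := (.str 0 (.nv (.thr 60 40 (.thr 48 56 (.thr 26 15 (.dbl 16 31 32)))) (.nv (.thr 63 42 (.thr 51 59 (.dbl 60 40 57))) (.nv (.thr 60 40 (.thr 48 56 (.thr 32 16 (.dbl 42 47 63)))) (.rp 60 (.thr 8 12 (.thr 42 63 (.thr 32 47 (.thr 25 59 (.thr 28 19 (.dbl 16 24 48)))))) (.rp 40 (.thr 63 42 (.thr 51 59 (.thr 60 57 (.thr 61 62 (.dbl 41 1 3))))) (.rp 13 (.str 1 (.nv (.thr 8 12 (.thr 42 63 (.dbl 2 3 62))) (.nv (.thr 63 42 (.thr 51 59 (.dbl 60 40 57))) (.nv (.thr 3 2 (.dbl 41 60 61)) (.rp 8 (.str 11 (.nv (.thr 40 60 (.thr 41 61 (.dbl 42 43 63))) (.nv (.thr 42 63 (.dbl 2 3 62)) (.nv (.thr 3 2 (.dbl 41 60 61)) .nd)))) .nd))))) (.rp 11 (.thr 8 12 (.thr 60 40 (.thr 51 57 (.dbl 63 42 59)))) (.rp 8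 (.str 11 (.nv (.thr 60 40 (.thr 51 57 (.dbl 63 42 59))) (.nv (.thr 42 63 (.thr 32 47 (.thr 48 16 (.dbl 60 40 56)))) (.nv (.thr 60 40 (.thr 56 48 (.dbl 41 3 26))) (.rp 63 (.thr 60 40 (.thr 57 51 (.thr 56 48 (.thr 58 59 (.dbl 41 3 26))))) (.rp 60 (.thr 42 63 (.thr 32 47 (.thr 48 16 (.thr 62 2 (.thr 50 58 (.thr 51 49 (.thr 34 17 (.thr 33 35 (.thr 41 45 (.dbl 26 15 56)))))))))) (.rp 56 (.thr 42 63 (.thr 32 47 (.thr 48 16 (.thr 62 2 (.thr 50 58 (.thr 51 49 (.dbl 60 40 57))))))) (.rp 40 (.thr 42 63 (.thr 32 47 (.thr 48 16 (.thr 56 60 (.dbl 26 15 41))))) (.rp 32 (.thr 40 60 (.str 25 (.nv (.thr 28 19 (.thr 42 63 (.thr 43 41 (.thr 27 59 (.dbl 24 16 26))))) (.nv (.thr 28 19 (.thr 16 24 (.thr 29 17 (.dbl 31 26 30)))) (.nv (.thr 17 29 (.thr 51 34 (.dbl 63 42 59))) (.rp 13 (.str 1 (.nv (.thr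 17 29 (.thr 33 49 (.dbl 41 45 61))) (.nv (.thr 2 3 (.dbl 42 62 63)) .nd))) (.rp 1 (.thr 13 49 (.thr 17 29 (.thr 51 34 (.dbl 63 42 59)))) .nd))))))) (.rp 13 (.str 1 (.nv (.thr 40 60 (.thr 41 61 (.dbl 42 43 63))) (.nv (.thr 42 63 (.dbl 2 3 62)) (.nv (.thr 3 2 (.dbl 41 60 61)) .nd)))) (.rp 1 (.str 13 (.nv (.thr 25 49 (.thr 17 29 (.thr 51 34 (.dbl 63 42 59)))) (.nv (.thr 60 40 (.thr 56 48 (.dbl 41 3 26))) (.nv (.thr 25 49 (.thr 17 29 (.thr 51 34 (.dbl 60 40 57)))) .nd)))) .nd))))))))))) (.rp 1 (.str 13 (.nv (.thr 8 12 (.thr 25 49 (.thr 28 19 (.thr 24 16 (.dbl 40 56 60))))) (.nv (.thr 25 49 (.thr 17 29 (.thr 51 34 (.dbl 63 42 59)))) (.nv (.thr 60 40 (.thr 48 56 (.thr 32 16 (.dbl 42 47 63)))) (.rp 8 (.str 11 (.nv (.thr 25 49 (.thr 17 29 (.thr 51 34 (.dbl 63 42 59)))) (.nv (.thr 60 40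 (.thr 56 48 (.dbl 41 3 26))) (.nv (.thr 25 49 (.thr 17 29 (.thr 51 34 (.dbl 60 40 57)))) .nd)))) .nd))))) .nd))))))))))

theorem w328 : WinAt (58546932602109968, 9007542860514976) :=
  chF (K := []) kn c328 58546932602109968 9007542860514976 53
    [3840, 8738, 33825] (by decide +kernel) (by decide +kernel)

/-- A certificate. -/
noncomputable def c329 : Ct := (.thr 54 53 .ext)

theorem w329 : WinAt (40532534092627984, 343605773984) :=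
  chF (K := [(58546932602109968, 9007542860514976)]) (kc w328 kn) c329 40532534092627984 343605773984 38
    [3840, 8738, 33825] (by decide +kernel) (by decide +kernel)

/-- A certificate. -/
noncomputable def c330 : Ct := (.thr 55 38 .ext)

theorem w330 : WinAt (4503737073664016, 68727867040) :=
  chF (K := [(40532534092627984, 343605773984)]) (kc w329 kn) c330 4503737073664016 68727867040 36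
    [3840, 8738, 33825, 36029346783166592] (by decide +kernel) (by decide +kernel)

/-- A certificate. -/
noncomputable def c331 : Ct := (.thr 4 36 .ext)

theorem w331 : WinAt (4503737073664000, 8390304) :=
  chF (K := [(4503737073664016, 68727867040)]) (kc w330 kn) c331 4503737073664000 8390304 7
    [240, 3840, 8738, 33825, 36029346783166592] (by decide +kernel) (by decide +kernel)

/-- A certificate. -/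
noncomputable def c332 : Ct := (.str 20 (.rp 63 (.str 16 (.nv (.thr 28 24 (.thr 31 26 (.thr 29 30 (.thr 25 17 (.dbl 22 19 23))))) (.nv (.thr 22 23 (.thr 28 24 (.thr 25 19 (.thr 31 26 (.dbl 29 17 30))))) (.nv (.thr 22 23 (.thr 7 52 (.thr 26 31 (.thr 15 48 (.thr 3 11 (.thr 30 18 (.dbl 60 41 45))))))) (.nv (.thr 22 23 (.thr 28 24 (.thr 19 25 (.thr 18 17 (.dbl 26 30 31))))) (.rp 31 (.thr 22 23 (.thr 7 52 (.thr 28 24 (.thr 19 25 (.thr 18 17 (.thr 26 30 (.thr 15 48 (.thr 3 11 (.thr 60 41 (.thr 12 44 (.thr 14 13 (.thr 38 50 (.dbl 6 9 54))))))))))))) (.rp 30 (.thr 22 23 (.thr 7 52 (.thr 28 24 (.thr 26 31 (.thr 15 48 (.thr 3 11 (.thr 60 41 (.thr 12 44 (.thr 13 14 (.dbl 25 19 49)))))))))) (.rp 26 (.thr 22 23 (.thr 52 7 (.thr 4 36 (.thr 55 38 (.thr 53 54 (.thr 28 24 (.thr 25 19 (.thr 17 29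 (.thr 49 13 (.thr 1 33 (.dbl 61 41 57))))))))))) (.rp 23 (.str 0 (.nv (.thr 48 32 (.dbl 26 15 31)) (.rp 48 (.thr 28 24 (.thr 31 26 (.thr 29 30 (.thr 25 17 (.thr 60 40 (.thr 12 44 (.thr 38 51 (.dbl 4 8 55)))))))) (.rp 43 (.str 3 (.nv (.thr 1 2 (.thr 41 61 (.dbl 60 22 40))) (.nv (.thr 48 32 (.dbl 26 15 31)) .nd))) (.rp 32 (.thr 24 28 (.thr 26 31 (.thr 40 60 (.thr 8 56 (.thr 12 4 (.dbl 48 15 36)))))) (.rp 31 (.thr 48 32 (.thr 24 28 (.thr 36 12 (.thr 4 52 (.dbl 38 39 55))))) (.rp 26 (.thr 48 32 (.thr 24 28 (.thr 36 12 (.thr 4 52 (.dbl 38 39 55))))) (.rp 15 (.thr 48 32 (.thr 24 28 (.thr 36 12 (.thr 4 52 (.dbl 38 39 55))))) (.rp 3 (.str 43 (.nv (.thr 32 48 (.thr 40 60 (.dbl 42 41 47))) (.nv (.thr 48 32 (.dbl 26 15 31)) (.rp 48 (.thr 40 60 (.thr 24 28 (.thr 56 8 (.thr 41 42 (.dbl 26 11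 31))))) (.rp 32 (.thr 40 60 (.thr 24 28 (.thr 56 8 (.thr 41 42 (.dbl 26 11 31))))) .nd))))) .nd))))))))) (.rp 22 (.thr 24 28 (.thr 26 31 (.thr 15 48 (.thr 25 27 (.thr 29 17 (.thr 13 49 (.thr 45 61 (.thr 60 30 (.thr 40 0 (.thr 56 8 (.dbl 41 11 33))))))))))) (.rp 19 (.thr 22 23 (.thr 52 7 (.thr 24 28 (.thr 26 31 (.thr 27 25 (.thr 15 48 (.thr 39 51 (.dbl 36 4 38)))))))) (.rp 15 (.str 0 (.nv (.thr 22 23 (.thr 48 32 (.thr 60 40 (.dbl 52 7 56)))) (.nv (.thr 31 26 (.thr 22 23 (.thr 28 24 (.thr 25 19 (.dbl 29 17 30))))) (.nv (.thr 24 28 (.thr 48 32 (.thr 60 40 (.thr 52 56 (.dbl 36 4 12))))) (.rp 31 (.str 47 (.nv (.dbl 32 42 48) (.rp 48 (.thr 22 23 (.thr 52 7 (.thr 32 42 (.thr 40 60 (.dbl 36 4 44))))) (.rp 42 (.thr 22 23 (.thr 52 7 (.thr 48 32 (.dbl 60 40 56)))) (.rp 32 (.thr 22 23 (.thr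 52 7 (.thr 4 36 (.thr 40 60 (.thr 8 12 (.dbl 24 28 56)))))) .nd))))) .nd))))) (.rp 0 (.str 15 (.nv (.dbl 26 31 48) (.rp 48 (.thr 22 23 (.thr 31 26 (.thr 28 24 (.thr 29 30 (.dbl 25 17 19))))) (.rp 31 (.thr 22 23 (.thr 52 7 (.thr 48 26 (.thr 24 28 (.dbl 36 4 12))))) (.rp 26 (.thr 22 23 (.thr 28 24 (.thr 25 19 (.thr 29 17 (.thr 13 49 (.thr 45 61 (.dbl 30 31 60))))))) .nd))))) .nd))))))))))))) (.rp 62 (.str 0 (.nv (.thr 22 23 (.thr 52 7 (.thr 60 40 (.thr 48 56 (.thr 32 16 (.dbl 42 47 63)))))) (.nv (.thr 22 23 (.thr 42 63 (.thr 32 47 (.thr 16 48 (.thr 28 24 (.thr 19 25 (.thr 18 17 (.dbl 26 30 31)))))))) (.nv (.thr 22 23 (.thr 52 7 (.thr 60 40 (.thr 48 56 (.thr 26 15 (.thr 18 30 (.dbl 3 33 41))))))) (.nv (.thr 22 23 (.thr 42 63 (.thr 60 40 (.thr 32 47 (.thr 48 16 (.dbl 52 7 56)))))) (.rp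 60 (.thr 22 23 (.thr 52 7 (.thr 4 36 (.thr 12 8 (.thr 63 42 (.thr 29 46 (.thr 25 17 (.dbl 38 51 55)))))))) (.rp 48 (.thr 22 23 (.thr 52 7 (.thr 4 36 (.thr 55 38 (.thr 54 53 (.thr 60 40 (.thr 51 57 (.dbl 63 42 59)))))))) (.rp 23 (.thr 60 40 (.thr 42 63 (.thr 32 47 (.thr 48 16 (.thr 52 56 (.thr 22 7 (.thr 3 41 (.thr 18 33 (.dbl 26 15 30))))))))) (.rp 22 (.thr 60 40 (.thr 42 63 (.thr 32 47 (.thr 16 48 (.thr 28 24 (.thr 12 44 (.thr 8 4 (.thr 31 26 (.thr 25 59 (.dbl 29 17 30)))))))))) .nd))))))))) (.rp 61 (.str 0 (.nv (.thr 22 23 (.thr 52 7 (.thr 60 40 (.thr 48 56 (.thr 16 32 (.dbl 26 15 31)))))) (.nv (.thr 22 23 (.thr 60 40 (.thr 3 41 (.thr 42 63 (.dbl 2 1 62))))) (.rp 60 (.thr 22 23 (.thr 52 7 (.thr 4 36 (.thr 12 8 (.thr 63 42 (.thr 29 46 (.thr 25 17 (.dbl 38 51 55)))))))) (.rp 40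 (.thr 22 23 (.thr 52 7 (.thr 4 36 (.thr 12 8 (.thr 63 42 (.thr 29 46 (.thr 25 17 (.dbl 38 51 55)))))))) (.rp 23 (.thr 60 40 (.thr 42 63 (.thr 32 47 (.thr 48 16 (.thr 52 56 (.thr 22 7 (.thr 3 41 (.dbl 2 1 62)))))))) (.rp 22 (.thr 60 40 (.thr 42 63 (.thr 32 47 (.thr 16 48 (.thr 28 24 (.thr 12 44 (.thr 8 4 (.thr 31 26 (.thr 25 59 (.dbl 29 17 30)))))))))) .nd))))))) (.rp 60 (.thr 22 23 (.str 16 (.nv (.thr 24 28 (.thr 26 31 (.thr 48 15 (.thr 0 32 (.thr 52 7 (.dbl 36 4 12)))))) (.nv (.thr 28 24 (.thr 19 25 (.thr 26 31 (.dbl 18 17 30)))) (.rp 31 (.thr 28 24 (.str 48 (.nv (.thr 15 26 (.thr 7 52 (.thr 3 11 (.thr 18 33 (.dbl 19 17 25))))) (.nv (.thr 19 25 (.thr 18 17 (.dbl 26 15 30))) (.rp 27 (.thr 19 25 (.thr 26 15 (.thr 0 32 (.dbl 18 17 30)))) (.rp 26 (.thr 52 7 (.thr 4 36 (.thr 55 38 (.thr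 53 54 (.thr 0 32 (.dbl 63 42 58)))))) (.rp 25 (.thr 52 7 (.thr 4 36 (.thr 55 38 (.thr 53 54 (.thr 0 32 (.dbl 63 42 58)))))) (.rp 19 (.str 27 (.nv (.thr 0 32 (.thr 52 7 (.thr 4 36 (.thr 55 38 (.thr 53 54 (.dbl 63 42 58)))))) (.nv (.thr 0 32 (.thr 7 52 (.thr 15 26 (.thr 42 63 (.thr 3 11 (.dbl 2 1 62)))))) (.nv (.thr 15 26 (.thr 52 7 (.thr 39 51 (.dbl 36 4 38)))) (.rp 52 (.thr 15 26 (.thr 51 39 (.thr 49 50 (.thr 25 13 (.thr 17 29 (.dbl 0 32 34)))))) (.rp 42 (.thr 26 15 (.thr 0 32 (.thr 52 7 (.thr 4 36 (.thr 55 38 (.thr 53 54 (.thr 63 58 (.thr 51 59 (.thr 50 49 (.thr 34 17 (.dbl 18 2 30))))))))))) (.rp 7 (.thr 15 26 (.thr 39 51 (.thr 38 36 (.thr 32 0 (.thr 42 47 (.thr 34 46 (.thr 2 62 (.thr 18 50 (.dbl 33 3 35))))))))) .nd))))))) (.rp 18 (.thr 7 52 (.thr 0 32 (.thr 15 26 (.thr 3 11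 (.thr 2 1 (.dbl 42 62 63)))))) (.rp 17 (.thr 7 52 (.thr 0 32 (.thr 15 26 (.thr 3 11 (.thr 2 1 (.dbl 42 62 63)))))) (.rp 15 (.thr 0 32 (.thr 52 7 (.thr 4 36 (.thr 55 38 (.thr 53 54 (.dbl 63 42 58)))))) .nd))))))))))) (.rp 30 (.thr 52 7 (.thr 4 36 (.thr 55 38 (.thr 53 54 (.thr 28 24 (.thr 25 19 (.thr 17 29 (.thr 49 13 (.thr 1 33 (.dbl 61 41 57)))))))))) (.rp 28 (.thr 52 7 (.thr 4 36 (.thr 55 38 (.thr 53 54 (.thr 26 31 (.thr 48 15 (.thr 0 32 (.dbl 63 42 58)))))))) (.rp 26 (.thr 52 7 (.thr 4 36 (.thr 55 38 (.thr 53 54 (.thr 28 24 (.thr 25 19 (.thr 17 29 (.thr 49 13 (.thr 1 33 (.dbl 61 41 57)))))))))) (.rp 24 (.thr 52 7 (.thr 4 36 (.thr 55 38 (.thr 53 54 (.thr 26 31 (.thr 48 15 (.thr 0 32 (.dbl 63 42 58)))))))) (.rp 19 (.thr 52 7 (.thr 24 28 (.thr 26 31 (.thr 27 25 (.thr 48 15 (.thr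 0 32 (.dbl 36 4 12))))))) (.rp 15 (.str 0 (.nv (.thr 28 24 (.thr 19 25 (.thr 18 17 (.dbl 26 30 31)))) (.nv (.thr 32 48 (.dbl 42 47 63)) (.rp 45 (.str 30 (.nv (.thr 32 48 (.dbl 42 47 63)) (.nv (.dbl 26 18 31) .nd))) (.rp 30 (.str 45 (.nv (.thr 28 24 (.thr 25 19 (.thr 13 49 (.dbl 29 17 61)))) (.nv (.thr 32 48 (.dbl 42 47 63)) .nd))) .nd))))) (.rp 0 (.str 15 (.nv (.dbl 26 31 48) (.rp 48 (.thr 31 26 (.thr 28 24 (.thr 29 30 (.dbl 25 17 19)))) (.rp 31 (.thr 52 7 (.thr 48 26 (.thr 24 28 (.dbl 36 4 12)))) (.rp 26 (.thr 52 7 (.thr 4 36 (.thr 28 24 (.thr 25 19 (.thr 13 49 (.thr 12 14 (.dbl 38 51 55))))))) .nd))))) .nd)))))))))))) (.rp 59 (.str 0 (.nv (.thr 40 60 (.thr 42 63 (.thr 32 47 (.thr 36 44 (.thr 4 52 (.dbl 38 39 55)))))) (.nv (.thr 22 23 (.thr 52 7 (.thr 60 40 (.thr 48 56 (.thr 16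 32 (.dbl 26 15 31)))))) (.nv (.thr 22 23 (.thr 60 40 (.thr 3 41 (.thr 42 63 (.dbl 2 1 62))))) (.rp 60 (.thr 22 23 (.thr 7 52 (.thr 42 63 (.thr 32 47 (.thr 48 16 (.thr 15 26 (.thr 3 11 (.dbl 2 1 62)))))))) (.rp 55 (.thr 22 23 (.thr 60 40 (.thr 3 41 (.thr 2 1 (.dbl 42 62 63))))) (.rp 40 (.thr 22 23 (.thr 52 7 (.thr 42 63 (.thr 32 47 (.thr 48 16 (.thr 60 56 (.thr 3 41 (.dbl 2 1 62)))))))) .nd))))))) (.rp 58 (.thr 22 23 (.thr 7 52 (.str 0 (.nv (.thr 42 63 (.thr 2 62 (.thr 3 1 (.thr 15 11 (.thr 32 47 (.dbl 48 16 26)))))) (.nv (.thr 60 40 (.thr 3 41 (.thr 15 11 (.thr 30 45 (.dbl 26 18 48))))) (.nv (.thr 60 40 (.thr 3 41 (.thr 42 63 (.dbl 2 1 62)))) (.rp 60 (.thr 42 63 (.thr 32 47 (.thr 48 16 (.thr 15 26 (.thr 3 11 (.dbl 2 1 62)))))) (.rp 48 (.thr 60 40 (.thr 3 41 (.thr 2 1 (.dbl 42 62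 63)))) (.rp 42 (.str 26 (.nv (.thr 30 18 (.thr 60 40 (.thr 45 15 (.dbl 41 3 33)))) (.nv (.thr 48 15 (.dbl 16 31 32)) (.rp 15 (.thr 18 30 (.thr 16 31 (.thr 19 17 (.dbl 28 24 25)))) .nd)))) (.rp 26 (.thr 42 63 (.thr 60 40 (.thr 3 41 (.dbl 2 1 62)))) (.rp 3 (.thr 40 60 (.thr 42 63 (.thr 43 41 (.thr 32 47 (.thr 48 16 (.thr 36 44 (.thr 38 39 (.thr 4 55 (.dbl 12 8 24))))))))) .nd))))))))))) (.rp 57 (.str 0 (.nv (.thr 40 60 (.thr 42 63 (.thr 32 47 (.thr 36 44 (.thr 4 52 (.dbl 38 39 55)))))) (.nv (.thr 22 23 (.thr 52 7 (.thr 60 40 (.thr 48 56 (.thr 16 32 (.dbl 26 15 31)))))) (.nv (.thr 22 23 (.thr 42 63 (.thr 2 62 (.thr 60 40 (.dbl 3 1 41))))) (.rp 60 (.thr 22 23 (.thr 52 7 (.thr 4 36 (.thr 12 8 (.thr 63 42 (.thr 29 46 (.thr 25 17 (.dbl 38 51 55)))))))) (.rp 40 (.thr 22 23 (.thr 52 7 (.thr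 4 36 (.thr 12 8 (.thr 63 42 (.thr 29 46 (.thr 25 17 (.dbl 38 51 55)))))))) .nd)))))) (.rp 56 (.str 0 (.nv (.thr 22 23 (.thr 7 52 (.thr 60 40 (.thr 3 41 (.thr 15 11 (.thr 26 48 (.dbl 30 18 45))))))) (.nv (.thr 40 60 (.thr 42 63 (.thr 32 47 (.thr 36 44 (.thr 38 39 (.dbl 4 52 55)))))) (.nv (.thr 22 23 (.thr 42 63 (.thr 2 62 (.thr 60 40 (.dbl 3 1 41))))) (.rp 60 (.thr 22 23 (.thr 52 7 (.thr 4 36 (.thr 12 8 (.thr 63 42 (.thr 29 46 (.thr 25 17 (.dbl 38 51 55)))))))) (.rp 43 (.thr 22 23 (.thr 60 40 (.thr 3 41 (.thr 42 63 (.dbl 2 1 62))))) (.rp 42 (.thr 22 23 (.thr 60 40 (.thr 41 3 (.thr 1 61 (.thr 33 45 (.thr 17 49 (.thr 51 34 (.thr 57 54 (.dbl 25 9 29))))))))) (.rp 40 (.thr 22 23 (.thr 7 52 (.thr 42 63 (.thr 32 47 (.thr 48 16 (.thr 15 26 (.thr 2 62 (.dbl 3 1 11)))))))) .nd)))))))) (.rp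 55 (.str 0 (.nv (.thr 40 60 (.thr 42 63 (.thr 32 47 (.thr 36 44 (.thr 52 4 (.dbl 22 7 23)))))) (.nv (.thr 22 23 (.thr 7 52 (.thr 60 40 (.thr 3 41 (.thr 15 11 (.thr 26 48 (.dbl 30 18 45))))))) (.nv (.thr 22 23 (.thr 60 40 (.thr 3 41 (.thr 42 63 (.dbl 2 1 62))))) (.rp 60 (.thr 22 23 (.thr 7 52 (.thr 42 63 (.thr 32 47 (.thr 48 16 (.thr 15 26 (.thr 3 11 (.dbl 2 1 62)))))))) (.rp 42 (.thr 22 23 (.thr 60 40 (.thr 41 3 (.thr 1 61 (.thr 33 45 (.thr 17 49 (.thr 51 34 (.thr 57 54 (.dbl 25 9 29))))))))) (.rp 40 (.thr 22 23 (.thr 7 52 (.thr 42 63 (.thr 32 47 (.thr 48 16 (.thr 15 26 (.thr 3 11 (.dbl 2 1 62)))))))) (.rp 23 (.thr 40 60 (.thr 42 63 (.thr 32 47 (.thr 48 16 (.thr 36 44 (.thr 4 52 (.dbl 12 8 24))))))) (.rp 22 (.thr 40 60 (.thr 42 63 (.thr 32 47 (.thr 48 16 (.thr 36 44 (.thr 4 52 (.dbl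 12 8 24))))))) (.rp 7 (.thr 60 40 (.thr 63 42 (.thr 61 62 (.thr 41 1 (.dbl 22 3 23))))) .nd)))))))))) (.rp 54 (.str 0 (.nv (.thr 40 60 (.thr 42 63 (.thr 32 47 (.thr 36 44 (.thr 4 52 (.dbl 38 39 55)))))) (.nv (.thr 22 23 (.thr 52 7 (.thr 60 40 (.thr 48 56 (.thr 16 32 (.dbl 26 15 31)))))) (.nv (.thr 22 23 (.thr 60 40 (.thr 3 41 (.thr 42 63 (.dbl 2 1 62))))) (.rp 60 (.thr 22 23 (.thr 52 7 (.thr 4 36 (.thr 12 8 (.thr 63 42 (.thr 29 46 (.thr 25 17 (.dbl 38 51 55)))))))) (.rp 40 (.thr 22 23 (.thr 52 7 (.thr 4 36 (.thr 12 8 (.thr 63 42 (.thr 29 46 (.thr 25 17 (.dbl 38 51 55)))))))) .nd)))))) (.rp 53 (.str 0 (.nv (.thr 40 60 (.thr 42 63 (.thr 32 47 (.thr 36 44 (.thr 4 52 (.dbl 38 39 55)))))) (.nv (.thr 22 23 (.thr 52 7 (.thr 60 40 (.thr 48 56 (.thr 16 32 (.dbl 26 15 31)))))) (.nv (.thr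 22 23 (.thr 60 40 (.thr 3 41 (.thr 42 63 (.dbl 2 1 62))))) (.rp 60 (.thr 22 23 (.thr 52 7 (.thr 4 36 (.thr 12 8 (.thr 63 42 (.thr 29 46 (.thr 25 17 (.dbl 38 51 55)))))))) (.rp 48 (.thr 22 23 (.thr 60 40 (.thr 3 41 (.thr 2 1 (.dbl 42 62 63))))) (.rp 40 (.thr 22 23 (.thr 52 7 (.thr 4 36 (.thr 12 8 (.thr 63 42 (.thr 29 46 (.thr 25 17 (.dbl 38 51 55)))))))) .nd))))))) (.rp 52 (.thr 22 23 (.str 0 (.nv (.thr 60 40 (.thr 3 41 (.thr 42 63 (.dbl 2 1 62)))) (.rp 63 (.thr 60 40 (.thr 3 41 (.thr 2 1 (.thr 42 62 (.thr 32 47 (.thr 48 16 (.thr 18 33 (.dbl 26 15 30)))))))) (.rp 62 (.thr 60 40 (.thr 3 41 (.thr 42 63 (.thr 32 47 (.thr 48 16 (.thr 18 33 (.dbl 26 15 30))))))) (.rp 60 (.str 16 (.nv (.thr 42 63 (.dbl 32 47 48)) (.nv (.thr 48 32 (.dbl 26 15 31)) (.rp 48 (.str 56 (.nv (.thr 24 28 (.thr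 8 40 (.thr 42 63 (.thr 25 59 (.dbl 26 27 31))))) (.nv (.thr 26 31 (.thr 41 11 (.thr 1 61 (.thr 2 3 (.dbl 42 62 63))))) (.nv (.thr 28 24 (.thr 19 25 (.thr 26 31 (.dbl 18 17 30)))) (.rp 31 (.thr 24 28 (.thr 8 40 (.thr 12 4 (.thr 42 63 (.thr 25 59 (.thr 51 38 (.dbl 17 29 34))))))) (.rp 26 (.thr 24 28 (.thr 8 40 (.thr 12 4 (.thr 42 63 (.thr 25 59 (.thr 51 38 (.dbl 17 29 34))))))) .nd)))))) (.rp 32 (.thr 28 24 (.thr 19 25 (.thr 18 17 (.dbl 26 30 31)))) .nd))))) (.rp 42 (.thr 60 40 (.thr 41 3 (.thr 1 61 (.thr 33 45 (.thr 17 49 (.thr 51 34 (.thr 57 54 (.dbl 25 9 29)))))))) (.rp 41 (.thr 42 63 (.thr 2 62 (.thr 3 1 (.thr 32 47 (.thr 48 16 (.thr 18 33 (.dbl 26 15 30))))))) (.rp 40 (.thr 42 63 (.thr 2 62 (.thr 3 1 (.thr 32 47 (.thr 48 16 (.thr 18 33 (.dbl 26 15 30))))))) (.rp 3 (.thr 60 40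 (.thr 63 42 (.thr 61 62 (.thr 41 1 (.thr 45 33 (.thr 15 30 (.thr 31 47 (.dbl 26 16 48)))))))) (.rp 2 (.thr 60 40 (.thr 41 3 (.thr 61 1 (.dbl 63 42 62)))) (.rp 1 (.thr 60 40 (.thr 3 41 (.thr 42 63 (.thr 32 47 (.thr 48 16 (.thr 18 33 (.dbl 26 15 30))))))) .nd)))))))))))) (.rp 51 (.str 0 (.nv (.thr 40 60 (.thr 42 63 (.thr 32 47 (.thr 36 44 (.thr 4 52 (.dbl 38 39 55)))))) (.nv (.thr 22 23 (.thr 52 7 (.thr 60 40 (.thr 48 56 (.thr 16 32 (.dbl 26 15 31)))))) (.nv (.thr 22 23 (.thr 60 40 (.thr 3 41 (.thr 42 63 (.dbl 2 1 62))))) (.rp 60 (.thr 22 23 (.thr 7 52 (.thr 42 63 (.thr 32 47 (.thr 48 16 (.thr 15 26 (.thr 3 11 (.dbl 2 1 62)))))))) (.rp 55 (.thr 22 23 (.thr 60 40 (.thr 3 41 (.thr 2 1 (.dbl 42 62 63))))) (.rp 40 (.thr 22 23 (.thr 52 7 (.thr 42 63 (.thr 32 47 (.thr 48 16 (.thr 60 56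 (.thr 3 41 (.dbl 2 1 62)))))))) .nd))))))) (.rp 50 (.str 0 (.nv (.thr 40 60 (.thr 42 63 (.thr 32 47 (.thr 36 44 (.thr 4 52 (.dbl 38 39 55)))))) (.nv (.thr 22 23 (.thr 52 7 (.thr 60 40 (.thr 48 56 (.thr 16 32 (.dbl 26 15 31)))))) (.nv (.thr 22 23 (.thr 60 40 (.thr 3 41 (.thr 42 63 (.dbl 2 1 62))))) (.rp 60 (.thr 22 23 (.thr 52 7 (.thr 4 36 (.thr 12 8 (.thr 63 42 (.thr 29 46 (.thr 25 17 (.dbl 38 51 55)))))))) (.rp 40 (.thr 22 23 (.thr 52 7 (.thr 4 36 (.thr 12 8 (.thr 63 42 (.thr 29 46 (.thr 25 17 (.dbl 38 51 55)))))))) .nd)))))) (.rp 49 (.str 0 (.nv (.thr 40 60 (.thr 42 63 (.thr 32 47 (.thr 36 44 (.thr 4 52 (.dbl 38 39 55)))))) (.nv (.thr 22 23 (.thr 52 7 (.thr 60 40 (.thr 48 56 (.thr 16 32 (.dbl 26 15 31)))))) (.nv (.thr 22 23 (.thr 60 40 (.thr 3 41 (.thr 42 63 (.dbl 2 1 62)))))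 (.rp 60 (.thr 22 23 (.thr 52 7 (.thr 4 36 (.thr 12 8 (.thr 63 42 (.thr 29 46 (.thr 25 17 (.dbl 38 51 55)))))))) (.rp 40 (.thr 22 23 (.thr 52 7 (.thr 4 36 (.thr 12 8 (.thr 63 42 (.thr 29 46 (.thr 25 17 (.dbl 38 51 55)))))))) .nd)))))) (.rp 48 (.str 0 (.nv (.thr 22 23 (.thr 60 40 (.thr 3 41 (.thr 2 1 (.dbl 42 62 63))))) (.nv (.thr 40 60 (.thr 42 63 (.thr 32 47 (.thr 36 44 (.thr 38 39 (.dbl 4 52 55)))))) (.nv (.thr 22 23 (.thr 60 40 (.thr 3 41 (.thr 42 63 (.dbl 2 1 62))))) (.rp 63 (.thr 22 23 (.thr 52 7 (.thr 4 36 (.thr 12 8 (.thr 60 40 (.thr 44 28 (.thr 3 41 (.thr 2 1 (.thr 42 62 (.thr 47 32 (.thr 46 45 (.dbl 38 34 55)))))))))))) (.rp 62 (.thr 22 23 (.thr 52 7 (.thr 4 36 (.thr 55 38 (.thr 54 53 (.thr 60 40 (.thr 51 57 (.dbl 63 42 59)))))))) (.rp 60 (.thr 22 23 (.thr 52 7 (.thr 4 36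 (.thr 12 8 (.thr 63 42 (.thr 29 46 (.thr 25 17 (.dbl 38 51 55)))))))) (.rp 42 (.thr 22 23 (.thr 52 7 (.thr 4 36 (.thr 12 8 (.thr 60 40 (.thr 44 28 (.thr 41 3 (.dbl 38 35 55)))))))) (.rp 40 (.thr 22 23 (.thr 52 7 (.thr 4 36 (.thr 12 8 (.thr 63 42 (.thr 29 46 (.thr 25 17 (.dbl 38 51 55)))))))) .nd))))))))) (.rp 47 (.thr 22 23 (.str 0 (.nv (.thr 52 7 (.thr 60 40 (.thr 48 56 (.thr 16 32 (.thr 24 28 (.dbl 36 4 12)))))) (.nv (.thr 60 40 (.thr 3 41 (.thr 42 63 (.dbl 2 1 62)))) (.rp 60 (.thr 52 7 (.thr 4 36 (.thr 12 8 (.thr 63 42 (.thr 29 46 (.thr 25 17 (.dbl 38 51 55))))))) (.rp 40 (.thr 52 7 (.thr 4 36 (.thr 12 8 (.thr 63 42 (.thr 29 46 (.thr 25 17 (.dbl 38 51 55))))))) .nd)))))) (.rp 46 (.str 0 (.nv (.thr 22 23 (.thr 52 7 (.thr 60 40 (.thr 48 56 (.thr 16 32 (.dbl 26 15 31)))))) (.nv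 (.thr 22 23 (.thr 60 40 (.thr 3 41 (.thr 42 63 (.dbl 2 1 62))))) (.rp 60 (.thr 22 23 (.thr 7 52 (.thr 42 63 (.thr 32 47 (.thr 48 16 (.thr 15 26 (.thr 3 11 (.dbl 2 1 62)))))))) (.rp 40 (.thr 22 23 (.thr 52 7 (.thr 42 63 (.thr 32 47 (.thr 48 16 (.thr 60 56 (.thr 3 41 (.dbl 2 1 62)))))))) (.rp 23 (.thr 60 40 (.thr 42 63 (.thr 32 47 (.thr 48 16 (.thr 52 56 (.thr 22 7 (.thr 3 41 (.dbl 2 1 62)))))))) (.rp 22 (.thr 40 60 (.thr 42 63 (.thr 32 47 (.thr 44 36 (.thr 41 43 (.thr 33 45 (.dbl 35 34 38))))))) .nd))))))) (.rp 45 (.str 0 (.nv (.thr 22 23 (.thr 52 7 (.thr 60 40 (.thr 48 56 (.thr 16 32 (.dbl 26 15 31)))))) (.nv (.thr 22 23 (.thr 60 40 (.thr 3 41 (.thr 42 63 (.dbl 2 1 62))))) (.rp 60 (.thr 22 23 (.thr 52 7 (.thr 4 36 (.thr 12 8 (.thr 63 42 (.thr 29 46 (.thr 25 17 (.dbl 38 51 55))))))))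 (.rp 40 (.thr 22 23 (.thr 52 7 (.thr 4 36 (.thr 12 8 (.thr 63 42 (.thr 29 46 (.thr 25 17 (.dbl 38 51 55)))))))) (.rp 23 (.thr 60 40 (.thr 42 63 (.thr 32 47 (.thr 48 16 (.thr 52 56 (.thr 22 7 (.thr 3 41 (.dbl 2 1 62)))))))) (.rp 22 (.thr 40 60 (.thr 42 63 (.thr 32 47 (.thr 16 48 (.thr 24 28 (.thr 56 8 (.thr 41 43 (.dbl 26 11 31)))))))) .nd))))))) (.rp 44 (.str 0 (.nv (.thr 22 23 (.thr 42 63 (.thr 2 62 (.thr 3 1 (.dbl 60 40 41))))) (.nv (.thr 22 23 (.thr 52 7 (.thr 60 40 (.thr 48 56 (.thr 26 15 (.dbl 16 31 32)))))) (.nv (.thr 22 23 (.thr 42 63 (.thr 2 62 (.thr 60 40 (.dbl 3 1 41))))) (.rp 60 (.thr 22 23 (.thr 52 7 (.thr 4 36 (.thr 12 8 (.thr 63 42 (.thr 29 46 (.thr 25 17 (.dbl 38 51 55)))))))) (.rp 40 (.thr 22 23 (.thr 52 7 (.thr 42 63 (.thr 32 47 (.thr 48 16 (.thr 60 56 (.thr 3 41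 (.dbl 2 1 62)))))))) (.rp 23 (.thr 60 40 (.thr 63 42 (.thr 61 62 (.thr 41 1 (.thr 45 33 (.thr 15 30 (.thr 31 47 (.dbl 26 16 48)))))))) (.rp 22 (.thr 40 60 (.thr 42 63 (.thr 32 47 (.thr 16 48 (.thr 28 24 (.thr 31 26 (.thr 41 43 (.thr 61 1 (.thr 45 33 (.dbl 29 13 30)))))))))) (.rp 3 (.thr 22 23 (.thr 52 7 (.thr 60 40 (.thr 48 56 (.thr 32 16 (.dbl 42 47 63)))))) .nd))))))))) (.rp 43 (.thr 22 23 (.thr 7 52 (.str 3 (.nv (.thr 15 11 (.thr 26 48 (.thr 16 31 (.thr 18 30 (.thr 19 17 (.dbl 28 24 25)))))) (.nv (.thr 60 41 (.thr 0 40 (.thr 42 63 (.dbl 2 1 62)))) (.rp 60 (.thr 15 11 (.thr 48 26 (.thr 33 18 (.thr 41 45 (.thr 1 61 (.thr 0 2 (.thr 32 16 (.dbl 42 47 63)))))))) (.rp 15 (.str 0 (.nv (.thr 2 1 (.dbl 42 62 63)) (.nv (.dbl 60 40 41) .nd))) .nd))))))) (.rp 42 (.thr 22 23 (.thr 7 52 (.str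 26 (.nv (.thr 18 30 (.thr 16 31 (.thr 19 17 (.dbl 28 24 25)))) (.nv (.thr 15 48 (.thr 30 18 (.thr 60 45 (.dbl 3 11 41)))) (.rp 30 (.thr 16 31 (.thr 28 24 (.thr 19 25 (.thr 18 17 (.thr 48 15 (.thr 0 32 (.thr 3 33 (.dbl 60 40 41)))))))) (.rp 18 (.thr 16 31 (.thr 24 28 (.thr 48 15 (.thr 0 32 (.thr 12 36 (.thr 8 4 (.dbl 40 56 60))))))) (.rp 15 (.str 0 (.nv (.thr 16 31 (.thr 28 24 (.thr 19 25 (.dbl 18 17 30)))) (.nv (.thr 16 31 (.thr 18 30 (.thr 60 40 (.thr 48 32 (.dbl 3 33 41))))) (.nv (.thr 18 30 (.thr 16 31 (.thr 19 17 (.dbl 28 24 25)))) (.rp 63 (.thr 30 18 (.thr 31 16 (.thr 28 29 (.thr 60 40 (.thr 12 44 (.thr 4 8 (.thr 38 55 (.dbl 25 19 51)))))))) (.rp 47 (.thr 18 30 (.thr 60 40 (.thr 41 3 (.thr 33 45 (.thr 1 61 (.thr 17 49 (.dbl 16 19 31))))))) (.rp 31 (.thr 18 30 (.thr 60 40 (.thr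 41 3 (.thr 33 45 (.thr 1 61 (.thr 17 49 (.thr 19 16 (.dbl 25 28 29)))))))) (.rp 30 (.thr 16 31 (.thr 28 24 (.thr 19 25 (.thr 17 18 (.thr 51 34 (.thr 3 35 (.dbl 60 40 41))))))) (.rp 28 (.thr 18 30 (.thr 60 40 (.thr 41 3 (.thr 33 45 (.thr 1 61 (.thr 17 49 (.dbl 16 19 31))))))) (.rp 19 (.thr 30 18 (.thr 60 40 (.thr 41 3 (.thr 33 45 (.thr 1 61 (.thr 31 16 (.thr 17 49 (.dbl 29 25 28)))))))) (.rp 18 (.thr 16 31 (.thr 24 28 (.thr 48 32 (.thr 12 36 (.thr 8 4 (.dbl 40 56 60)))))) (.rp 16 (.thr 60 40 (.thr 41 3 (.thr 33 45 (.thr 1 61 (.thr 17 49 (.thr 51 34 (.thr 57 54 (.dbl 25 9 29)))))))) .nd)))))))))))) .nd)))))))) (.rp 41 (.str 0 (.nv (.thr 40 60 (.thr 42 63 (.thr 32 47 (.thr 36 44 (.thr 4 52 (.dbl 38 39 55)))))) (.nv (.thr 22 23 (.thr 52 7 (.thr 60 40 (.thr 48 56 (.thr 16 32 (.thr 24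 28 (.dbl 36 4 12))))))) (.nv (.thr 22 23 (.thr 42 63 (.thr 32 47 (.thr 16 48 (.thr 28 24 (.thr 19 25 (.thr 18 17 (.dbl 26 30 31)))))))) (.nv (.thr 22 23 (.thr 42 63 (.thr 32 47 (.thr 48 16 (.thr 60 40 (.dbl 52 7 56)))))) (.rp 48 (.thr 22 23 (.thr 52 7 (.thr 40 60 (.thr 42 63 (.thr 32 47 (.dbl 36 4 44)))))) (.rp 42 (.thr 22 23 (.thr 52 7 (.thr 4 36 (.thr 8 12 (.thr 40 60 (.thr 24 56 (.thr 28 16 (.thr 25 19 (.thr 17 29 (.thr 51 34 (.thr 49 13 (.thr 48 50 (.dbl 26 15 27))))))))))))) (.rp 32 (.thr 22 23 (.thr 52 7 (.thr 4 36 (.thr 55 38 (.thr 54 53 (.thr 63 42 (.thr 51 59 (.dbl 60 40 57)))))))) (.rp 22 (.thr 60 40 (.thr 42 63 (.thr 32 47 (.thr 16 48 (.thr 28 24 (.thr 12 44 (.thr 8 4 (.thr 31 26 (.thr 25 59 (.dbl 29 17 30)))))))))) .nd))))))))) (.rp 40 (.thr 22 23 (.str 15 (.nv (.thr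 7 52 (.thr 3 11 (.thr 41 60 (.thr 33 45 (.dbl 48 18 26))))) (.nv (.thr 26 48 (.thr 18 30 (.thr 16 31 (.thr 19 17 (.dbl 28 24 25))))) (.rp 48 (.thr 7 52 (.thr 3 11 (.thr 60 41 (.thr 30 45 (.thr 26 18 (.thr 31 16 (.thr 63 47 (.thr 62 61 (.dbl 42 0 2))))))))) (.rp 26 (.thr 7 52 (.thr 3 11 (.thr 41 60 (.thr 33 45 (.thr 48 18 (.thr 1 61 (.thr 0 2 (.thr 32 16 (.dbl 42 47 63))))))))) (.rp 18 (.thr 52 7 (.thr 48 26 (.thr 60 56 (.thr 45 30 (.dbl 41 3 33))))) .nd))))))) (.rp 39 (.str 0 (.nv (.thr 42 63 (.thr 32 47 (.thr 48 16 (.thr 60 40 (.thr 52 56 (.dbl 22 7 23)))))) (.nv (.thr 22 23 (.thr 60 40 (.thr 3 41 (.thr 42 63 (.dbl 2 1 62))))) (.rp 63 (.thr 22 23 (.thr 7 52 (.thr 60 40 (.thr 3 41 (.thr 15 11 (.thr 30 45 (.dbl 26 18 48))))))) (.rp 60 (.thr 22 23 (.thr 7 52 (.thr 42 63 (.thr 32 47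 (.thr 48 16 (.thr 15 26 (.thr 3 11 (.dbl 2 1 62)))))))) (.rp 42 (.thr 22 23 (.thr 60 40 (.thr 41 3 (.thr 1 61 (.thr 33 45 (.thr 17 49 (.thr 51 34 (.thr 57 54 (.dbl 25 9 29))))))))) (.rp 40 (.thr 22 23 (.thr 7 52 (.thr 42 63 (.thr 32 47 (.thr 48 16 (.thr 15 26 (.thr 3 11 (.dbl 2 1 62)))))))) (.rp 23 (.thr 40 60 (.thr 42 63 (.thr 32 47 (.thr 48 16 (.thr 36 44 (.thr 4 52 (.dbl 12 8 24))))))) (.rp 22 (.thr 40 60 (.thr 42 63 (.thr 32 47 (.thr 48 16 (.thr 36 44 (.thr 4 52 (.dbl 12 8 24))))))) (.rp 7 (.thr 60 40 (.thr 63 42 (.thr 61 62 (.thr 41 1 (.dbl 22 3 23))))) .nd)))))))))) (.rp 38 (.str 0 (.nv (.thr 22 23 (.thr 52 7 (.thr 60 40 (.thr 48 56 (.thr 16 32 (.dbl 26 15 31)))))) (.nv (.thr 22 23 (.thr 42 63 (.thr 2 62 (.thr 60 40 (.dbl 3 1 41))))) (.rp 60 (.thr 22 23 (.thr 7 52 (.thr 42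 63 (.thr 32 47 (.thr 48 16 (.thr 15 26 (.thr 3 11 (.dbl 2 1 62)))))))) (.rp 40 (.thr 22 23 (.thr 52 7 (.thr 42 63 (.thr 32 47 (.thr 48 16 (.thr 60 56 (.thr 3 41 (.dbl 2 1 62)))))))) (.rp 23 (.thr 40 60 (.thr 42 63 (.thr 32 47 (.thr 48 16 (.thr 36 44 (.thr 4 52 (.dbl 12 8 24))))))) (.rp 22 (.thr 40 60 (.thr 42 63 (.thr 32 47 (.thr 48 16 (.thr 36 44 (.thr 4 52 (.dbl 12 8 24))))))) .nd))))))) (.rp 36 (.str 0 (.nv (.thr 22 23 (.thr 42 63 (.thr 2 62 (.thr 3 1 (.dbl 60 40 41))))) (.nv (.thr 22 23 (.thr 52 7 (.thr 60 40 (.thr 48 56 (.thr 26 15 (.dbl 16 31 32)))))) (.nv (.thr 22 23 (.thr 60 40 (.thr 3 41 (.thr 42 63 (.dbl 2 1 62))))) (.rp 60 (.thr 22 23 (.thr 7 52 (.thr 42 63 (.thr 32 47 (.thr 48 16 (.thr 15 26 (.thr 3 11 (.dbl 2 1 62)))))))) (.rp 40 (.thr 22 23 (.thr 52 7 (.thr 42 63 (.thr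 32 47 (.thr 48 16 (.thr 60 56 (.thr 3 41 (.dbl 2 1 62)))))))) (.rp 23 (.thr 60 40 (.thr 63 42 (.thr 61 62 (.thr 41 1 (.thr 45 33 (.thr 15 30 (.thr 31 47 (.dbl 26 16 48)))))))) (.rp 22 (.thr 40 60 (.thr 42 63 (.thr 32 47 (.thr 16 48 (.thr 24 28 (.thr 56 8 (.thr 41 43 (.dbl 26 11 31)))))))) (.rp 3 (.thr 22 23 (.thr 52 7 (.thr 60 40 (.thr 48 56 (.thr 32 16 (.dbl 42 47 63)))))) .nd))))))))) (.rp 35 (.str 0 (.nv (.thr 40 60 (.thr 42 63 (.thr 32 47 (.thr 36 44 (.thr 4 52 (.dbl 38 39 55)))))) (.nv (.thr 22 23 (.thr 52 7 (.thr 60 40 (.thr 48 56 (.thr 16 32 (.dbl 26 15 31)))))) (.nv (.thr 22 23 (.thr 42 63 (.thr 2 62 (.thr 60 40 (.dbl 3 1 41))))) (.rp 60 (.thr 22 23 (.thr 52 7 (.thr 4 36 (.thr 12 8 (.thr 63 42 (.thr 29 46 (.thr 25 17 (.dbl 38 51 55)))))))) (.rp 40 (.thr 22 23 (.thr 52 7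 (.thr 4 36 (.thr 12 8 (.thr 63 42 (.thr 29 46 (.thr 25 17 (.dbl 38 51 55)))))))) .nd)))))) (.rp 34 (.str 0 (.nv (.thr 40 60 (.thr 42 63 (.thr 32 47 (.thr 36 44 (.thr 4 52 (.dbl 38 39 55)))))) (.nv (.thr 22 23 (.thr 52 7 (.thr 60 40 (.thr 48 56 (.thr 16 32 (.dbl 26 15 31)))))) (.nv (.thr 22 23 (.thr 60 40 (.thr 3 41 (.thr 42 63 (.dbl 2 1 62))))) (.rp 60 (.thr 22 23 (.thr 7 52 (.thr 42 63 (.thr 32 47 (.thr 48 16 (.thr 15 26 (.thr 3 11 (.dbl 2 1 62)))))))) (.rp 40 (.thr 22 23 (.thr 52 7 (.thr 42 63 (.thr 32 47 (.thr 48 16 (.thr 60 56 (.thr 3 41 (.dbl 2 1 62)))))))) .nd)))))) (.rp 33 (.str 0 (.nv (.thr 40 60 (.thr 42 63 (.thr 32 47 (.thr 36 44 (.thr 4 52 (.dbl 38 39 55)))))) (.nv (.thr 22 23 (.thr 52 7 (.thr 60 40 (.thr 48 56 (.thr 16 32 (.dbl 26 15 31)))))) (.nv (.thr 22 23 (.thr 60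 40 (.thr 3 41 (.thr 42 63 (.dbl 2 1 62))))) (.rp 60 (.thr 22 23 (.thr 52 7 (.thr 4 36 (.thr 12 8 (.thr 63 42 (.thr 29 46 (.thr 25 17 (.dbl 38 51 55)))))))) (.rp 40 (.thr 22 23 (.thr 52 7 (.thr 4 36 (.thr 12 8 (.thr 63 42 (.thr 29 46 (.thr 25 17 (.dbl 38 51 55)))))))) .nd)))))) (.rp 32 (.thr 22 23 (.str 0 (.nv (.thr 42 63 (.thr 2 62 (.thr 3 1 (.dbl 60 40 41)))) (.nv (.thr 52 7 (.thr 60 40 (.thr 48 56 (.thr 26 15 (.thr 18 30 (.dbl 3 33 41)))))) (.nv (.thr 60 40 (.thr 3 41 (.thr 42 63 (.dbl 2 1 62)))) (.rp 60 (.thr 52 7 (.thr 4 36 (.thr 12 8 (.thr 63 42 (.thr 29 46 (.thr 25 17 (.dbl 38 51 55))))))) (.rp 41 (.thr 52 7 (.thr 4 36 (.thr 55 38 (.thr 54 53 (.thr 63 42 (.thr 51 59 (.dbl 60 40 57))))))) (.rp 40 (.thr 7 52 (.thr 42 63 (.thr 2 62 (.thr 3 1 (.thr 15 11 (.thr 48 26 (.thr 33 18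 (.dbl 41 45 60)))))))) (.rp 3 (.thr 52 7 (.thr 4 36 (.thr 55 38 (.thr 54 53 (.thr 63 42 (.thr 51 59 (.dbl 60 40 57))))))) .nd))))))))) (.rp 31 (.str 0 (.nv (.thr 60 40 (.thr 63 42 (.thr 61 62 (.thr 41 1 (.dbl 22 3 23))))) (.nv (.thr 22 23 (.thr 52 7 (.thr 60 40 (.thr 48 56 (.thr 32 16 (.dbl 42 47 63)))))) (.nv (.thr 22 23 (.thr 60 40 (.thr 3 41 (.thr 42 63 (.dbl 2 1 62))))) (.rp 63 (.thr 22 23 (.thr 52 7 (.thr 60 40 (.thr 3 41 (.thr 48 56 (.thr 18 33 (.dbl 26 15 30))))))) (.rp 60 (.thr 22 23 (.thr 52 7 (.thr 4 36 (.thr 12 8 (.thr 63 42 (.thr 29 46 (.thr 25 17 (.dbl 38 51 55)))))))) (.rp 42 (.thr 22 23 (.thr 52 7 (.thr 60 40 (.thr 41 3 (.thr 45 33 (.thr 15 30 (.dbl 48 26 56))))))) (.rp 40 (.thr 22 23 (.thr 52 7 (.thr 4 36 (.thr 12 8 (.thr 63 42 (.thr 29 46 (.thr 25 17 (.dbl 38 51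 55)))))))) (.rp 23 (.thr 60 40 (.thr 63 42 (.thr 61 62 (.thr 41 1 (.thr 45 33 (.thr 15 30 (.thr 22 3 (.thr 52 7 (.dbl 48 26 56))))))))) (.rp 22 (.thr 40 60 (.thr 42 63 (.thr 47 32 (.thr 41 43 (.thr 61 1 (.thr 45 33 (.thr 46 44 (.thr 34 38 (.thr 17 51 (.dbl 29 13 25)))))))))) .nd)))))))))) (.rp 30 (.str 0 (.nv (.thr 40 60 (.thr 42 63 (.thr 32 47 (.thr 36 44 (.thr 4 52 (.dbl 38 39 55)))))) (.nv (.thr 22 23 (.thr 52 7 (.thr 60 40 (.thr 48 56 (.thr 16 32 (.dbl 26 15 31)))))) (.nv (.thr 22 23 (.thr 60 40 (.thr 3 41 (.thr 42 63 (.dbl 2 1 62))))) (.rp 60 (.thr 22 23 (.thr 52 7 (.thr 4 36 (.thr 12 8 (.thr 63 42 (.thr 29 46 (.thr 25 17 (.dbl 38 51 55)))))))) (.rp 40 (.thr 22 23 (.thr 52 7 (.thr 4 36 (.thr 12 8 (.thr 63 42 (.thr 29 46 (.thr 25 17 (.dbl 38 51 55)))))))) .nd)))))) (.rp 29 (.str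 0 (.nv (.thr 40 60 (.thr 42 63 (.thr 32 47 (.thr 36 44 (.thr 4 52 (.dbl 38 39 55)))))) (.nv (.thr 22 23 (.thr 52 7 (.thr 60 40 (.thr 48 56 (.thr 16 32 (.dbl 26 15 31)))))) (.nv (.thr 22 23 (.thr 60 40 (.thr 3 41 (.thr 42 63 (.dbl 2 1 62))))) (.rp 60 (.thr 22 23 (.thr 7 52 (.thr 42 63 (.thr 32 47 (.thr 48 16 (.thr 15 26 (.thr 3 11 (.dbl 2 1 62)))))))) (.rp 40 (.thr 22 23 (.thr 52 7 (.thr 42 63 (.thr 32 47 (.thr 48 16 (.thr 60 56 (.thr 3 41 (.dbl 2 1 62)))))))) .nd)))))) (.rp 28 (.str 0 (.nv (.thr 22 23 (.thr 52 7 (.thr 60 40 (.thr 48 56 (.thr 16 32 (.dbl 26 15 31)))))) (.nv (.thr 22 23 (.thr 60 40 (.thr 3 41 (.thr 42 63 (.dbl 2 1 62))))) (.rp 60 (.thr 22 23 (.thr 52 7 (.thr 4 36 (.thr 12 8 (.thr 63 42 (.thr 29 46 (.thr 25 17 (.dbl 38 51 55)))))))) (.rp 40 (.thr 22 23 (.thr 52 7 (.thr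 4 36 (.thr 12 8 (.thr 63 42 (.thr 29 46 (.thr 25 17 (.dbl 38 51 55)))))))) (.rp 23 (.thr 40 60 (.thr 42 63 (.thr 32 47 (.thr 48 16 (.thr 36 44 (.thr 12 24 (.dbl 4 8 52))))))) (.rp 22 (.thr 40 60 (.thr 42 63 (.thr 32 47 (.thr 48 16 (.thr 36 44 (.thr 12 24 (.dbl 4 8 52))))))) .nd))))))) (.rp 27 (.str 0 (.nv (.thr 40 60 (.thr 42 63 (.thr 32 47 (.thr 36 44 (.thr 4 52 (.dbl 38 39 55)))))) (.nv (.thr 22 23 (.thr 52 7 (.thr 60 40 (.thr 48 56 (.thr 16 32 (.dbl 26 15 31)))))) (.nv (.thr 22 23 (.thr 60 40 (.thr 3 41 (.thr 42 63 (.dbl 2 1 62))))) (.rp 60 (.thr 22 23 (.thr 52 7 (.thr 4 36 (.thr 12 8 (.thr 63 42 (.thr 29 46 (.thr 25 17 (.dbl 38 51 55)))))))) (.rp 40 (.thr 22 23 (.thr 52 7 (.thr 4 36 (.thr 12 8 (.thr 63 42 (.thr 29 46 (.thr 25 17 (.dbl 38 51 55)))))))) (.rp 31 (.thr 60 40 (.thr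 63 42 (.thr 61 62 (.thr 41 1 (.dbl 22 3 23))))) .nd))))))) (.rp 26 (.thr 22 23 (.str 0 (.nv (.thr 52 7 (.thr 60 40 (.thr 48 56 (.thr 32 16 (.dbl 42 47 63))))) (.nv (.thr 42 63 (.thr 2 62 (.thr 60 40 (.dbl 3 1 41)))) (.rp 63 (.thr 52 7 (.thr 60 40 (.thr 48 56 (.thr 16 32 (.thr 24 28 (.dbl 36 4 12)))))) (.rp 60 (.thr 52 7 (.thr 4 36 (.thr 8 12 (.thr 42 63 (.thr 32 47 (.thr 25 59 (.thr 28 19 (.dbl 16 24 48)))))))) (.rp 42 (.str 58 (.nv (.thr 52 7 (.thr 4 36 (.thr 55 38 (.thr 53 54 (.thr 60 40 (.thr 41 3 (.thr 63 48 (.dbl 61 1 62)))))))) (.nv (.thr 52 7 (.thr 60 40 (.thr 48 56 (.thr 16 32 (.thr 24 28 (.dbl 36 4 12)))))) (.nv (.thr 60 40 (.thr 41 3 (.thr 61 1 (.thr 63 62 (.thr 48 53 (.dbl 52 7 56)))))) (.rp 60 (.thr 52 7 (.thr 4 36 (.thr 55 38 (.thr 53 54 (.thr 48 63 (.thr 16 32 (.thr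 28 24 (.thr 25 19 (.thr 17 29 (.thr 49 13 (.dbl 51 34 50))))))))))) (.rp 52 (.thr 60 40 (.thr 41 3 (.thr 1 61 (.thr 33 45 (.thr 17 49 (.thr 51 34 (.thr 57 54 (.dbl 25 9 29)))))))) (.rp 48 (.thr 52 7 (.thr 4 36 (.thr 60 40 (.thr 41 3 (.thr 12 8 (.thr 44 28 (.dbl 38 35 55))))))) (.rp 41 (.thr 52 7 (.thr 4 36 (.thr 55 38 (.thr 53 54 (.thr 48 63 (.dbl 60 40 56)))))) (.rp 40 (.thr 52 7 (.thr 4 36 (.thr 55 38 (.thr 53 54 (.thr 63 48 (.thr 59 51 (.thr 57 56 (.thr 49 61 (.thr 25 13 (.thr 29 17 (.dbl 12 8 46))))))))))) (.rp 7 (.thr 60 40 (.thr 41 3 (.thr 1 61 (.thr 33 45 (.thr 17 49 (.thr 51 34 (.thr 57 54 (.dbl 25 9 29)))))))) .nd)))))))))) (.rp 41 (.thr 52 7 (.thr 60 40 (.thr 42 63 (.thr 32 47 (.dbl 48 16 56))))) (.rp 40 (.thr 52 7 (.thr 42 63 (.thr 2 62 (.thr 3 1 (.thr 60 41 (.thr 32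 47 (.dbl 48 16 56))))))) .nd))))))))) (.rp 25 (.str 0 (.nv (.thr 40 60 (.thr 42 63 (.thr 32 47 (.thr 36 44 (.thr 4 52 (.dbl 38 39 55)))))) (.nv (.thr 22 23 (.thr 52 7 (.thr 60 40 (.thr 48 56 (.thr 16 32 (.dbl 26 15 31)))))) (.nv (.thr 22 23 (.thr 42 63 (.thr 2 62 (.thr 60 40 (.dbl 3 1 41))))) (.rp 60 (.thr 22 23 (.thr 7 52 (.thr 42 63 (.thr 32 47 (.thr 48 16 (.thr 15 26 (.thr 3 11 (.dbl 2 1 62)))))))) (.rp 40 (.thr 22 23 (.thr 52 7 (.thr 42 63 (.thr 32 47 (.thr 48 16 (.thr 60 56 (.thr 3 41 (.dbl 2 1 62)))))))) .nd)))))) (.rp 24 (.str 0 (.nv (.thr 22 23 (.thr 7 52 (.thr 60 40 (.thr 3 41 (.thr 15 11 (.thr 26 48 (.dbl 30 18 45))))))) (.nv (.thr 40 60 (.thr 42 63 (.thr 32 47 (.thr 36 44 (.thr 38 39 (.dbl 4 52 55)))))) (.nv (.thr 22 23 (.thr 60 40 (.thr 3 41 (.thr 42 63 (.dbl 2 1 62)))))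 (.rp 60 (.thr 22 23 (.thr 52 7 (.thr 4 36 (.thr 12 8 (.thr 63 42 (.thr 29 46 (.thr 25 17 (.dbl 38 51 55)))))))) (.rp 42 (.thr 22 23 (.thr 52 7 (.thr 60 40 (.thr 41 3 (.thr 45 33 (.thr 15 30 (.dbl 48 26 56))))))) (.rp 40 (.thr 22 23 (.thr 52 7 (.thr 42 63 (.thr 32 47 (.thr 48 16 (.thr 2 62 (.thr 3 1 (.dbl 60 41 56)))))))) .nd))))))) (.rp 23 (.str 0 (.nv (.thr 40 60 (.thr 42 63 (.thr 32 47 (.thr 36 44 (.thr 38 39 (.dbl 4 52 55)))))) (.nv (.thr 42 63 (.thr 32 47 (.thr 48 16 (.thr 60 40 (.thr 52 56 (.thr 22 7 (.thr 2 62 (.dbl 3 1 41)))))))) (.nv (.thr 40 60 (.thr 42 63 (.thr 32 47 (.thr 48 16 (.thr 36 44 (.thr 12 24 (.dbl 4 8 52))))))) (.rp 63 (.str 16 (.nv (.thr 48 32 (.dbl 26 15 31)) (.rp 48 (.thr 28 24 (.thr 31 26 (.thr 29 30 (.thr 25 17 (.thr 60 40 (.thr 12 44 (.thr 38 51 (.dbl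 4 8 55)))))))) (.rp 43 (.str 3 (.nv (.thr 1 2 (.thr 41 61 (.dbl 60 22 40))) (.nv (.thr 48 32 (.dbl 26 15 31)) .nd))) (.rp 32 (.thr 24 28 (.thr 26 31 (.thr 40 60 (.thr 8 56 (.thr 12 4 (.dbl 48 15 36)))))) (.rp 31 (.thr 48 32 (.thr 24 28 (.thr 36 12 (.thr 4 52 (.dbl 38 39 55))))) (.rp 26 (.thr 48 32 (.thr 24 28 (.thr 36 12 (.thr 4 52 (.dbl 38 39 55))))) (.rp 15 (.thr 48 32 (.thr 24 28 (.thr 36 12 (.thr 4 52 (.dbl 38 39 55))))) (.rp 3 (.str 43 (.nv (.thr 32 48 (.thr 40 60 (.dbl 42 41 47))) (.nv (.thr 48 32 (.dbl 26 15 31)) (.rp 48 (.thr 40 60 (.thr 24 28 (.thr 56 8 (.thr 41 42 (.dbl 26 11 31))))) (.rp 32 (.thr 40 60 (.thr 24 28 (.thr 56 8 (.thr 41 42 (.dbl 26 11 31))))) .nd))))) .nd))))))))) (.rp 62 (.thr 60 40 (.thr 42 63 (.thr 32 47 (.thr 48 16 (.thr 52 56 (.thr 22 7 (.thr 3 41 (.thr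 18 33 (.dbl 26 15 30))))))))) (.rp 60 (.thr 42 63 (.thr 32 47 (.thr 16 48 (.thr 28 24 (.thr 31 26 (.thr 29 30 (.thr 25 17 (.thr 22 19 (.thr 52 7 (.thr 8 59 (.dbl 4 12 36))))))))))) (.rp 52 (.thr 60 40 (.thr 63 42 (.thr 61 62 (.thr 41 1 (.thr 45 33 (.thr 15 30 (.thr 31 47 (.dbl 26 16 48)))))))) (.rp 47 (.thr 60 40 (.thr 63 42 (.thr 61 62 (.thr 41 1 (.thr 45 33 (.thr 15 30 (.thr 22 3 (.thr 52 7 (.dbl 48 26 56))))))))) (.rp 43 (.str 1 (.nv (.thr 41 61 (.thr 60 40 (.dbl 3 2 22))) (.rp 63 (.thr 3 2 (.thr 41 61 (.dbl 60 22 40))) (.rp 61 (.thr 60 40 (.thr 3 2 (.thr 41 22 (.thr 33 45 (.thr 48 18 (.thr 16 32 (.dbl 26 15 31))))))) (.rp 60 (.thr 41 61 (.thr 33 45 (.thr 17 49 (.thr 34 51 (.thr 32 35 (.dbl 42 47 63)))))) (.rp 41 (.thr 40 60 (.thr 3 2 (.thr 42 63 (.thr 32 47 (.thr 36 44 (.thr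 4 52 (.dbl 38 39 55))))))) (.rp 40 (.thr 41 61 (.thr 33 45 (.thr 17 49 (.thr 34 51 (.thr 32 35 (.dbl 42 47 63)))))) (.rp 22 (.thr 41 61 (.thr 33 45 (.thr 17 49 (.thr 34 51 (.thr 32 35 (.dbl 42 47 63)))))) (.rp 3 (.thr 63 42 (.thr 41 61 (.thr 45 33 (.thr 60 40 (.thr 15 30 (.thr 31 47 (.dbl 26 16 48))))))) (.rp 2 (.thr 41 61 (.thr 33 45 (.thr 17 49 (.thr 34 51 (.thr 32 35 (.dbl 42 47 63)))))) .nd)))))))))) (.rp 42 (.str 48 (.nv (.thr 26 15 (.dbl 16 31 32)) (.rp 32 (.thr 60 40 (.thr 52 56 (.thr 36 4 (.thr 24 12 (.thr 16 28 (.dbl 26 15 31)))))) (.rp 31 (.thr 16 32 (.thr 24 28 (.thr 36 12 (.thr 4 52 (.dbl 38 39 55))))) (.rp 26 (.str 58 (.nv (.thr 16 32 (.thr 24 28 (.thr 36 12 (.thr 4 52 (.dbl 38 39 55))))) (.nv (.thr 53 63 (.thr 60 40 (.thr 56 52 (.thr 57 59 (.thr 49 61 (.dbl 51 50 54))))))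 (.nv (.thr 16 32 (.thr 24 28 (.thr 12 36 (.thr 40 60 (.dbl 8 4 56))))) (.rp 60 (.thr 16 32 (.thr 24 28 (.thr 12 36 (.thr 4 8 (.thr 63 53 (.thr 29 46 (.thr 25 17 (.dbl 38 51 55)))))))) .nd))))) (.rp 16 (.thr 60 40 (.thr 52 56 (.thr 22 7 (.thr 41 3 (.thr 45 33 (.dbl 15 26 30)))))) (.rp 15 (.thr 16 32 (.thr 24 28 (.thr 36 12 (.thr 4 52 (.dbl 38 39 55))))) .nd))))))) (.rp 40 (.thr 42 63 (.thr 32 47 (.thr 16 48 (.thr 28 24 (.thr 31 26 (.thr 29 30 (.thr 25 17 (.thr 22 19 (.thr 52 7 (.thr 8 59 (.dbl 4 12 36))))))))))) (.rp 32 (.thr 60 40 (.thr 63 42 (.thr 61 62 (.thr 41 1 (.thr 45 33 (.thr 15 30 (.thr 31 47 (.dbl 26 16 48)))))))) (.rp 31 (.thr 60 40 (.thr 63 42 (.thr 61 62 (.thr 41 1 (.thr 45 33 (.thr 15 30 (.thr 22 3 (.thr 52 7 (.dbl 48 26 56))))))))) (.rp 15 (.thr 40 60 (.thr 42 63 (.thr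 47 32 (.thr 43 41 (.thr 39 35 (.thr 38 36 (.thr 4 55 (.thr 12 8 (.thr 51 25 (.dbl 34 17 46)))))))))) (.rp 4 (.thr 60 40 (.thr 63 42 (.thr 61 62 (.thr 41 1 (.thr 45 33 (.thr 15 30 (.thr 31 47 (.dbl 26 16 48)))))))) (.rp 3 (.thr 60 40 (.thr 63 42 (.thr 61 62 (.thr 41 1 (.thr 45 33 (.thr 15 30 (.thr 31 47 (.dbl 26 16 48)))))))) .nd))))))))))))))))) (.rp 22 (.str 26 (.nv (.thr 16 31 (.thr 24 28 (.thr 25 27 (.thr 29 17 (.thr 48 15 (.thr 0 32 (.thr 63 42 (.dbl 12 36 46)))))))) (.nv (.thr 15 48 (.thr 31 16 (.thr 63 47 (.thr 0 42 (.thr 60 40 (.thr 45 30 (.thr 41 33 (.dbl 61 1 62)))))))) (.nv (.thr 16 31 (.thr 48 15 (.thr 0 32 (.thr 60 40 (.thr 52 56 (.thr 36 4 (.dbl 24 12 28))))))) (.rp 63 (.thr 16 31 (.thr 24 28 (.thr 25 27 (.thr 29 17 (.thr 15 48 (.thr 13 49 (.thr 45 61 (.thr 60 30 (.thr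 40 0 (.thr 56 8 (.dbl 41 11 33))))))))))) (.rp 48 (.str 0 (.nv (.thr 40 60 (.thr 42 63 (.thr 32 47 (.thr 36 44 (.thr 38 39 (.dbl 4 52 55)))))) (.nv (.thr 16 31 (.thr 24 28 (.thr 25 27 (.thr 29 17 (.thr 63 42 (.thr 12 46 (.thr 4 8 (.dbl 38 51 55)))))))) (.nv (.thr 31 16 (.thr 60 40 (.thr 63 42 (.thr 15 47 (.thr 45 30 (.thr 41 33 (.dbl 61 1 62))))))) (.rp 63 (.thr 16 31 (.thr 24 28 (.thr 25 27 (.thr 29 17 (.thr 40 60 (.thr 56 8 (.thr 13 49 (.thr 61 45 (.dbl 41 1 11))))))))) (.rp 62 (.thr 16 31 (.thr 24 28 (.thr 25 27 (.thr 42 63 (.thr 8 59 (.dbl 40 56 60)))))) (.rp 42 (.thr 16 31 (.thr 24 28 (.thr 25 27 (.thr 29 17 (.thr 40 60 (.thr 56 8 (.thr 13 49 (.thr 45 61 (.dbl 41 11 33))))))))) (.rp 31 (.thr 40 60 (.thr 42 63 (.thr 41 43 (.thr 56 11 (.thr 8 24 (.thr 4 12 (.thr 36 52 (.dbl 32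 44 47)))))))) .nd)))))))) (.rp 47 (.thr 16 31 (.thr 24 28 (.thr 25 27 (.thr 29 17 (.thr 15 48 (.thr 13 49 (.thr 12 14 (.thr 45 61 (.thr 60 30 (.thr 0 40 (.dbl 63 42 46))))))))))) (.rp 32 (.thr 16 31 (.thr 24 28 (.thr 25 27 (.thr 29 17 (.thr 15 48 (.thr 13 49 (.thr 12 14 (.thr 45 61 (.thr 60 30 (.thr 0 40 (.dbl 63 42 46))))))))))) (.rp 31 (.str 0 (.nv (.thr 48 15 (.thr 32 16 (.dbl 42 47 63))) (.rp 63 (.thr 15 48 (.thr 60 40 (.thr 45 30 (.thr 41 33 (.thr 11 56 (.thr 3 7 (.dbl 1 2 61))))))) (.rp 48 (.thr 40 60 (.thr 42 63 (.thr 41 43 (.thr 56 11 (.thr 8 24 (.thr 4 12 (.thr 36 52 (.dbl 32 44 47)))))))) (.rp 47 (.thr 15 48 (.thr 60 40 (.thr 45 30 (.thr 41 33 (.thr 61 1 (.dbl 63 42 62)))))) (.rp 42 (.thr 48 15 (.thr 16 32 (.thr 24 28 (.thr 12 36 (.thr 8 4 (.dbl 40 56 60)))))) (.rp 32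 (.thr 15 48 (.thr 60 40 (.thr 45 30 (.thr 41 33 (.thr 61 1 (.dbl 63 42 62)))))) (.rp 16 (.thr 15 48 (.thr 60 40 (.thr 45 30 (.thr 41 33 (.thr 61 1 (.dbl 63 42 62)))))) (.rp 15 (.thr 40 60 (.thr 42 63 (.thr 47 32 (.thr 41 43 (.thr 56 11 (.thr 8 24 (.thr 4 12 (.thr 36 52 (.dbl 38 39 55))))))))) .nd))))))))) (.rp 16 (.thr 48 15 (.str 0 (.nv (.thr 60 40 (.thr 56 52 (.thr 63 42 (.thr 58 53 (.thr 62 61 (.thr 54 50 (.dbl 57 51 59))))))) (.nv (.thr 60 40 (.thr 52 56 (.thr 4 36 (.thr 38 55 (.thr 50 14 (.thr 51 49 (.dbl 12 8 25))))))) (.nv (.thr 60 40 (.thr 56 52 (.thr 41 11 (.thr 61 1 (.dbl 63 42 62))))) (.rp 60 (.str 45 (.nv (.thr 33 41 (.thr 3 18 (.thr 1 2 (.thr 17 49 (.thr 25 29 (.thr 24 27 (.thr 12 36 (.dbl 51 34 38)))))))) (.nv (.thr 41 33 (.thr 42 63 (.thr 43 40 (.thr 47 32 (.thr 35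 39 (.dbl 44 38 46)))))) (.nv (.thr 41 33 (.thr 61 1 (.thr 13 29 (.thr 63 42 (.thr 53 58 (.dbl 49 25 57)))))) (.rp 62 (.thr 41 33 (.thr 61 1 (.thr 13 29 (.thr 49 25 (.thr 53 57 (.dbl 63 42 58)))))) (.rp 42 (.thr 41 33 (.thr 61 1 (.thr 13 29 (.thr 49 25 (.thr 50 51 (.thr 38 14 (.thr 4 55 (.dbl 36 39 52)))))))) (.rp 41 (.str 3 (.nv (.thr 2 1 (.thr 18 33 (.thr 50 34 (.thr 38 14 (.thr 4 55 (.dbl 36 39 52)))))) (.nv (.thr 42 63 (.thr 47 32 (.thr 46 44 (.thr 38 34 (.thr 4 55 (.dbl 36 39 52)))))) (.nv (.thr 1 2 (.thr 33 18 (.thr 17 49 (.thr 25 29 (.thr 24 27 (.thr 12 36 (.dbl 51 34 38))))))) (.nv (.thr 2 1 (.thr 18 33 (.thr 34 50 (.thr 42 63 (.thr 47 32 (.dbl 46 38 44)))))) (.rp 38 (.thr 33 18 (.thr 1 2 (.thr 17 49 (.thr 42 63 (.thr 34 51 (.dbl 32 35 47)))))) (.rp 34 (.str 25 (.nv (.thr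 24 27 (.thr 12 36 (.thr 4 8 (.dbl 38 51 55)))) (.nv (.thr 13 49 (.dbl 29 17 61)) .nd))) (.rp 33 (.str 25 (.nv (.thr 24 27 (.thr 12 36 (.thr 4 8 (.dbl 38 51 55)))) (.nv (.thr 13 49 (.dbl 29 17 61)) .nd))) .nd)))))))) (.rp 33 (.thr 42 63 (.thr 47 32 (.thr 46 44 (.thr 34 38 (.thr 51 17 (.thr 49 50 (.thr 25 13 (.thr 24 27 (.thr 8 59 (.dbl 12 4 36)))))))))) .nd)))))))) (.rp 56 (.thr 60 40 (.thr 63 42 (.thr 62 61 (.thr 58 53 (.thr 50 54 (.thr 38 14 (.thr 36 39 (.dbl 4 52 55)))))))) (.rp 52 (.thr 40 60 (.thr 42 63 (.thr 41 43 (.thr 45 33 (.thr 61 1 (.thr 13 29 (.thr 56 11 (.thr 8 24 (.dbl 25 49 59))))))))) (.rp 40 (.str 12 (.nv (.thr 24 36 (.thr 25 27 (.thr 17 29 (.dbl 51 34 38)))) (.nv (.thr 36 24 (.dbl 4 8 52)) (.rp 36 (.thr 4 8 (.thr 38 55 (.thr 50 14 (.dbl 51 25 49)))) (.rp 24 (.thr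 8 4 (.thr 42 63 (.thr 25 59 (.thr 17 29 (.dbl 51 34 38))))) .nd))))) .nd))))))))) (.rp 15 (.str 0 (.nv (.thr 16 31 (.thr 32 48 (.dbl 42 47 63))) (.rp 63 (.str 32 (.nv (.dbl 16 31 48) (.rp 48 (.thr 40 60 (.thr 36 44 (.thr 38 39 (.dbl 4 52 55)))) (.rp 47 (.thr 31 16 (.thr 40 60 (.thr 36 44 (.thr 4 52 (.dbl 38 39 55))))) (.rp 31 (.thr 47 42 (.thr 40 60 (.thr 36 44 (.thr 4 52 (.dbl 38 39 55))))) (.rp 16 (.thr 40 60 (.thr 36 44 (.thr 4 52 (.dbl 38 39 55)))) .nd)))))) (.rp 48 (.thr 16 31 (.thr 24 28 (.thr 25 27 (.thr 40 60 (.thr 42 63 (.thr 47 32 (.dbl 8 56 59))))))) (.rp 47 (.thr 16 31 (.thr 63 42 (.thr 24 28 (.thr 25 27 (.thr 29 17 (.thr 48 32 (.dbl 12 36 46))))))) (.rp 42 (.thr 16 31 (.thr 24 28 (.thr 48 32 (.thr 12 36 (.thr 8 4 (.dbl 40 56 60)))))) (.rp 32 (.thr 16 31 (.thr 24 28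 (.thr 25 27 (.thr 40 60 (.thr 8 56 (.dbl 42 59 63)))))) (.rp 31 (.thr 40 60 (.thr 42 63 (.thr 47 32 (.thr 41 43 (.thr 56 11 (.thr 8 24 (.thr 4 12 (.thr 36 52 (.dbl 38 39 55))))))))) (.rp 16 (.thr 40 60 (.thr 42 63 (.thr 41 43 (.thr 56 11 (.thr 8 24 (.thr 4 12 (.thr 36 52 (.dbl 32 44 47)))))))) .nd))))))))) (.rp 0 (.thr 15 48 (.thr 16 31 (.thr 24 28 (.thr 25 27 (.thr 29 17 (.thr 13 49 (.thr 12 14 (.thr 45 61 (.thr 46 63 (.thr 47 44 (.thr 42 32 (.dbl 38 34 51)))))))))))) .nd)))))))))))) (.rp 19 (.str 0 (.nv (.thr 40 60 (.thr 42 63 (.thr 32 47 (.thr 36 44 (.thr 4 52 (.dbl 38 39 55)))))) (.nv (.thr 22 23 (.thr 52 7 (.thr 60 40 (.thr 48 56 (.thr 16 32 (.dbl 26 15 31)))))) (.nv (.thr 22 23 (.thr 60 40 (.thr 3 41 (.thr 42 63 (.dbl 2 1 62))))) (.rp 60 (.thr 22 23 (.thr 52 7 (.thr 4 36 (.thr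 12 8 (.thr 63 42 (.thr 29 46 (.thr 25 17 (.dbl 38 51 55)))))))) (.rp 40 (.thr 22 23 (.thr 52 7 (.thr 4 36 (.thr 12 8 (.thr 63 42 (.thr 29 46 (.thr 25 17 (.dbl 38 51 55)))))))) (.rp 31 (.thr 60 40 (.thr 63 42 (.thr 61 62 (.thr 41 1 (.dbl 22 3 23))))) .nd))))))) (.rp 18 (.str 0 (.nv (.thr 40 60 (.thr 42 63 (.thr 32 47 (.thr 36 44 (.thr 4 52 (.dbl 38 39 55)))))) (.nv (.thr 22 23 (.thr 52 7 (.thr 60 40 (.thr 48 56 (.thr 16 32 (.dbl 26 15 31)))))) (.nv (.thr 22 23 (.thr 60 40 (.thr 3 41 (.thr 42 63 (.dbl 2 1 62))))) (.rp 60 (.thr 22 23 (.thr 52 7 (.thr 4 36 (.thr 12 8 (.thr 63 42 (.thr 29 46 (.thr 25 17 (.dbl 38 51 55)))))))) (.rp 40 (.thr 22 23 (.thr 52 7 (.thr 4 36 (.thr 12 8 (.thr 63 42 (.thr 29 46 (.thr 25 17 (.dbl 38 51 55)))))))) .nd)))))) (.rp 17 (.str 0 (.nv (.thr 40 60 (.thr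 42 63 (.thr 32 47 (.thr 36 44 (.thr 4 52 (.dbl 38 39 55)))))) (.nv (.thr 22 23 (.thr 52 7 (.thr 60 40 (.thr 48 56 (.thr 16 32 (.dbl 26 15 31)))))) (.nv (.thr 22 23 (.thr 60 40 (.thr 3 41 (.thr 42 63 (.dbl 2 1 62))))) (.rp 60 (.thr 22 23 (.thr 7 52 (.thr 42 63 (.thr 32 47 (.thr 48 16 (.thr 15 26 (.thr 3 11 (.dbl 2 1 62)))))))) (.rp 40 (.thr 22 23 (.thr 52 7 (.thr 42 63 (.thr 32 47 (.thr 48 16 (.thr 60 56 (.thr 3 41 (.dbl 2 1 62)))))))) .nd)))))) (.rp 16 (.str 0 (.nv (.thr 22 23 (.thr 7 52 (.thr 60 40 (.thr 3 41 (.thr 15 11 (.thr 26 48 (.dbl 30 18 45))))))) (.nv (.thr 40 60 (.thr 42 63 (.thr 32 47 (.thr 36 44 (.thr 4 52 (.dbl 38 39 55)))))) (.nv (.thr 22 23 (.thr 60 40 (.thr 3 41 (.thr 42 63 (.dbl 2 1 62))))) (.rp 60 (.thr 22 23 (.thr 52 7 (.thr 4 36 (.thr 12 8 (.thr 63 42 (.thr 29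 46 (.thr 25 17 (.dbl 38 51 55)))))))) (.rp 42 (.thr 22 23 (.thr 52 7 (.thr 60 40 (.thr 41 3 (.thr 45 33 (.thr 15 30 (.dbl 48 26 56))))))) (.rp 40 (.thr 22 23 (.thr 52 7 (.thr 4 36 (.thr 12 8 (.thr 63 42 (.thr 29 46 (.thr 25 17 (.dbl 38 51 55)))))))) .nd))))))) (.rp 15 (.str 0 (.nv (.thr 22 23 (.thr 52 7 (.thr 60 40 (.thr 48 56 (.thr 16 32 (.thr 24 28 (.dbl 36 4 12))))))) (.nv (.thr 22 23 (.thr 60 40 (.thr 3 41 (.thr 42 63 (.dbl 2 1 62))))) (.rp 60 (.thr 22 23 (.thr 52 7 (.thr 4 36 (.thr 12 8 (.thr 63 42 (.thr 29 46 (.thr 25 17 (.dbl 38 51 55)))))))) (.rp 40 (.thr 22 23 (.thr 52 7 (.thr 4 36 (.thr 12 8 (.thr 63 42 (.thr 29 46 (.thr 25 17 (.dbl 38 51 55)))))))) (.rp 23 (.thr 40 60 (.thr 42 63 (.thr 47 32 (.thr 43 41 (.thr 39 35 (.thr 38 36 (.thr 4 55 (.thr 12 8 (.thr 51 25 (.dbl 34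 17 46)))))))))) (.rp 22 (.thr 40 60 (.thr 42 63 (.thr 47 32 (.thr 41 43 (.thr 61 1 (.thr 45 33 (.thr 46 44 (.thr 34 38 (.thr 17 51 (.dbl 29 13 25)))))))))) (.rp 3 (.thr 23 22 (.thr 42 63 (.thr 40 60 (.thr 41 43 (.thr 61 1 (.thr 45 33 (.thr 47 32 (.thr 46 44 (.thr 34 38 (.thr 17 51 (.dbl 29 13 25))))))))))) .nd)))))))) (.rp 14 (.thr 22 23 (.thr 7 52 (.str 0 (.nv (.thr 42 63 (.thr 2 62 (.thr 3 1 (.thr 15 11 (.thr 32 47 (.dbl 48 16 26)))))) (.nv (.thr 60 40 (.thr 3 41 (.thr 15 11 (.thr 26 48 (.dbl 30 18 45))))) (.nv (.thr 60 40 (.thr 3 41 (.thr 42 63 (.dbl 2 1 62)))) (.rp 60 (.thr 42 63 (.thr 32 47 (.thr 48 16 (.thr 15 26 (.thr 3 11 (.dbl 2 1 62)))))) (.rp 42 (.thr 60 40 (.thr 41 3 (.thr 1 61 (.thr 33 45 (.thr 17 49 (.thr 51 34 (.thr 57 54 (.dbl 25 9 29)))))))) (.rp 6 (.str 2 (.nv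 (.thr 3 1 (.dbl 60 40 41)) (.nv (.dbl 42 62 63) .nd))) (.rp 3 (.thr 40 60 (.thr 42 63 (.thr 43 41 (.thr 32 47 (.thr 48 16 (.thr 36 44 (.thr 38 39 (.thr 4 55 (.dbl 12 8 24))))))))) (.rp 2 (.str 6 (.nv (.thr 38 54 (.thr 60 40 (.thr 3 41 (.thr 12 9 (.dbl 4 8 55))))) (.nv (.thr 38 54 (.thr 55 4 (.thr 63 42 (.thr 51 59 (.thr 17 34 (.dbl 25 12 29)))))) (.nv (.thr 60 40 (.thr 63 42 (.thr 41 3 (.dbl 61 1 62)))) (.rp 42 (.thr 38 54 (.thr 60 40 (.thr 41 3 (.thr 44 35 (.thr 12 28 (.dbl 4 8 55)))))) .nd))))) .nd))))))))))) (.rp 13 (.thr 22 23 (.thr 52 7 (.thr 4 36 (.thr 55 38 (.thr 53 54 (.str 0 (.nv (.thr 60 40 (.thr 48 56 (.thr 26 15 (.dbl 16 31 32)))) (.nv (.thr 63 42 (.thr 48 58 (.thr 26 15 (.dbl 16 31 32)))) (.nv (.thr 60 40 (.thr 48 56 (.dbl 63 42 58))) (.rp 48 (.thr 60 40 (.thr 3 41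 (.thr 42 63 (.dbl 2 1 62)))) (.rp 32 (.thr 63 42 (.thr 48 58 (.thr 26 15 (.dbl 60 40 56)))) (.rp 9 (.str 1 (.nv (.thr 8 12 (.thr 41 61 (.dbl 60 3 40))) (.nv (.thr 42 63 (.dbl 2 3 62)) (.rp 8 (.str 11 (.nv (.thr 41 61 (.thr 26 56 (.thr 16 31 (.dbl 48 15 32)))) (.nv (.thr 42 63 (.dbl 2 3 62)) .nd))) (.rp 3 (.thr 61 41 (.thr 60 40 (.dbl 63 42 62))) .nd))))) (.rp 1 (.str 9 (.nv (.thr 60 40 (.thr 48 56 (.dbl 63 42 58))) (.nv (.thr 63 42 (.thr 48 58 (.thr 26 15 (.dbl 16 31 32)))) (.nv (.thr 12 8 (.thr 3 6 (.dbl 60 40 41))) .nd)))) .nd))))))))))))) (.rp 12 (.str 0 (.nv (.thr 22 23 (.thr 52 7 (.thr 60 40 (.thr 48 56 (.thr 16 32 (.dbl 26 15 31)))))) (.nv (.thr 22 23 (.thr 60 40 (.thr 3 41 (.thr 42 63 (.dbl 2 1 62))))) (.rp 60 (.thr 22 23 (.thr 7 52 (.thr 42 63 (.thr 32 47 (.thr 48 16 (.thr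 15 26 (.thr 3 11 (.dbl 2 1 62)))))))) (.rp 40 (.thr 22 23 (.thr 52 7 (.thr 42 63 (.thr 32 47 (.thr 48 16 (.thr 60 56 (.thr 3 41 (.dbl 2 1 62)))))))) (.rp 23 (.thr 60 40 (.thr 63 42 (.thr 61 62 (.thr 41 1 (.thr 45 33 (.thr 15 30 (.thr 31 47 (.dbl 26 16 48)))))))) (.rp 22 (.thr 40 60 (.thr 42 63 (.thr 32 47 (.thr 44 36 (.thr 41 43 (.thr 33 45 (.dbl 35 34 38))))))) .nd))))))) (.rp 11 (.str 0 (.nv (.thr 22 23 (.thr 52 7 (.thr 60 40 (.thr 48 56 (.thr 16 32 (.dbl 26 15 31)))))) (.nv (.thr 40 60 (.thr 42 63 (.thr 32 47 (.thr 36 44 (.thr 4 52 (.dbl 38 39 55)))))) (.nv (.thr 22 23 (.thr 42 63 (.thr 2 62 (.thr 60 40 (.dbl 3 1 41))))) (.rp 60 (.thr 22 23 (.thr 42 63 (.thr 32 47 (.thr 16 48 (.thr 28 24 (.thr 19 25 (.thr 18 17 (.dbl 26 30 31)))))))) (.rp 40 (.thr 22 23 (.thr 52 7 (.thr 42 63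 (.thr 32 47 (.thr 48 16 (.thr 60 56 (.thr 2 62 (.dbl 3 1 41)))))))) (.rp 9 (.str 8 (.nv (.thr 4 12 (.thr 22 23 (.dbl 52 7 36))) (.nv (.thr 4 12 (.thr 36 52 (.dbl 38 39 55))) (.rp 52 (.thr 12 4 (.thr 40 60 (.thr 24 56 (.thr 48 36 (.dbl 16 28 32))))) (.rp 36 (.thr 12 4 (.thr 42 63 (.thr 25 59 (.thr 17 29 (.dbl 51 34 38))))) (.rp 13 (.str 1 (.nv (.thr 4 12 (.thr 36 52 (.dbl 38 39 55))) (.nv (.thr 22 23 (.thr 60 40 (.dbl 3 2 41))) (.rp 3 (.thr 61 41 (.thr 60 40 (.dbl 63 42 62))) .nd)))) (.rp 12 (.thr 60 40 (.thr 22 23 (.thr 3 41 (.thr 42 63 (.dbl 2 1 62))))) (.rp 6 (.thr 22 23 (.thr 52 7 (.dbl 4 12 36))) (.rp 4 (.thr 60 40 (.thr 22 23 (.thr 41 3 (.thr 63 42 (.dbl 61 1 62))))) (.rp 3 (.thr 12 4 (.thr 40 60 (.thr 24 56 (.thr 16 28 (.dbl 48 32 36))))) (.rp 1 (.str 13 (.nv (.thr 4 12 (.thr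 22 23 (.dbl 52 7 36))) (.nv (.thr 42 63 (.dbl 25 49 59)) .nd))) .nd))))))))))) (.rp 8 (.str 9 (.nv (.thr 22 23 (.thr 42 63 (.thr 32 47 (.thr 48 16 (.thr 52 7 (.dbl 60 40 56)))))) (.nv (.thr 40 60 (.thr 42 63 (.thr 32 47 (.thr 36 44 (.thr 4 52 (.dbl 38 39 55)))))) (.nv (.thr 22 23 (.thr 42 63 (.thr 2 62 (.thr 3 1 (.dbl 60 40 41))))) (.rp 63 (.thr 60 40 (.thr 22 23 (.thr 52 7 (.thr 4 36 (.thr 3 41 (.thr 6 12 (.dbl 38 54 55))))))) (.rp 60 (.thr 23 22 (.thr 63 42 (.thr 3 43 (.thr 12 6 (.thr 29 46 (.thr 25 17 (.thr 41 57 (.dbl 1 2 61)))))))) (.rp 42 (.thr 60 40 (.thr 22 23 (.thr 41 3 (.thr 1 61 (.thr 25 57 (.thr 17 29 (.dbl 49 13 33))))))) (.rp 40 (.thr 22 23 (.thr 52 7 (.thr 4 36 (.thr 42 63 (.thr 2 62 (.thr 3 1 (.thr 6 12 (.dbl 38 54 55)))))))) .nd)))))))) .nd)))))))) (.rp 9 (.thr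 22 23 (.thr 52 7 .ext)) (.rp 8 (.str 0 (.nv (.thr 40 60 (.thr 42 63 (.thr 32 47 (.thr 36 44 (.thr 38 39 (.dbl 4 52 55)))))) (.nv (.thr 22 23 (.thr 60 40 (.thr 3 41 (.thr 42 63 (.dbl 2 1 62))))) (.rp 63 (.thr 22 23 (.thr 52 7 (.thr 60 40 (.thr 3 41 (.thr 2 1 (.thr 42 62 (.thr 32 47 (.dbl 48 16 56)))))))) (.rp 62 (.thr 22 23 (.thr 52 7 (.thr 60 40 (.thr 42 63 (.thr 32 47 (.dbl 48 16 56)))))) (.rp 60 (.thr 22 23 (.thr 42 63 (.thr 32 47 (.thr 16 48 (.thr 28 24 (.thr 19 25 (.thr 18 17 (.dbl 26 30 31)))))))) (.rp 42 (.thr 22 23 (.thr 52 7 (.thr 60 40 (.thr 41 3 (.thr 45 33 (.thr 15 30 (.dbl 48 26 56))))))) (.rp 40 (.thr 22 23 (.thr 52 7 (.thr 42 63 (.thr 32 47 (.thr 48 16 (.thr 2 62 (.thr 3 1 (.dbl 60 41 56)))))))) (.rp 11 (.str 9 (.nv (.thr 22 23 (.thr 42 63 (.thr 32 47 (.thr 48 16 (.thr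 52 7 (.dbl 60 40 56)))))) (.nv (.thr 40 60 (.thr 42 63 (.thr 32 47 (.thr 36 44 (.thr 4 52 (.dbl 38 39 55)))))) (.nv (.thr 22 23 (.thr 42 63 (.thr 2 62 (.thr 3 1 (.dbl 60 40 41))))) (.rp 63 (.thr 60 40 (.thr 22 23 (.thr 52 7 (.thr 4 36 (.thr 3 41 (.thr 6 12 (.dbl 38 54 55))))))) (.rp 60 (.thr 23 22 (.thr 63 42 (.thr 3 43 (.thr 12 6 (.thr 29 46 (.thr 25 17 (.thr 41 57 (.dbl 1 2 61)))))))) (.rp 42 (.thr 60 40 (.thr 22 23 (.thr 41 3 (.thr 1 61 (.thr 25 57 (.thr 17 29 (.dbl 49 13 33))))))) (.rp 40 (.thr 22 23 (.thr 52 7 (.thr 4 36 (.thr 42 63 (.thr 2 62 (.thr 3 1 (.thr 6 12 (.dbl 38 54 55)))))))) .nd)))))))) (.rp 9 (.str 11 (.nv (.thr 22 23 (.thr 42 63 (.thr 2 62 (.thr 60 40 (.dbl 3 1 41))))) (.nv (.thr 22 23 (.thr 7 52 (.thr 3 15 (.thr 42 63 (.dbl 2 1 62))))) (.nv (.thr 22 23 (.thr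 7 52 (.thr 3 15 (.dbl 60 40 41)))) (.rp 23 (.thr 42 63 (.thr 32 47 (.thr 48 16 (.thr 60 40 (.thr 56 52 (.dbl 26 15 41)))))) (.rp 22 (.thr 42 63 (.thr 32 47 (.thr 16 48 (.thr 40 60 (.thr 41 43 (.dbl 26 31 56)))))) (.rp 13 (.str 1 (.nv (.thr 40 60 (.thr 41 61 (.dbl 42 43 63))) (.nv (.thr 22 23 (.thr 7 52 (.dbl 3 2 15))) .nd))) (.rp 3 (.thr 42 63 (.thr 32 47 (.thr 48 16 (.thr 60 40 (.thr 56 52 (.dbl 26 15 41)))))) (.rp 1 (.str 13 (.nv (.thr 22 23 (.thr 25 49 (.thr 28 19 (.thr 16 24 (.thr 31 26 (.dbl 29 17 30)))))) (.nv (.thr 22 23 (.thr 7 52 (.thr 3 15 (.dbl 60 40 41)))) (.rp 40 (.thr 25 49 (.thr 17 29 (.thr 63 42 (.thr 51 34 (.thr 55 59 (.dbl 38 4 12)))))) (.rp 23 (.thr 25 49 (.thr 60 40 (.thr 63 42 (.thr 61 62 (.dbl 29 17 45))))) (.rp 22 (.thr 25 49 (.thr 17 29 (.thr 63 42 (.thr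 51 34 (.thr 55 59 (.dbl 38 4 12)))))) .nd)))))) .nd))))))))) .nd)))))))))) (.rp 7 (.str 0 (.nv (.thr 40 60 (.thr 42 63 (.thr 32 47 (.thr 36 44 (.thr 4 52 (.thr 12 8 (.dbl 48 16 24))))))) (.nv (.thr 22 23 (.thr 60 40 (.thr 3 41 (.thr 42 63 (.dbl 2 1 62))))) (.rp 63 (.thr 22 23 (.thr 60 40 (.thr 3 41 (.thr 2 1 (.thr 42 62 (.thr 32 47 (.thr 48 16 (.thr 18 33 (.dbl 26 15 30))))))))) (.rp 62 (.thr 22 23 (.thr 60 40 (.thr 3 41 (.thr 42 63 (.thr 32 47 (.thr 48 16 (.thr 18 33 (.dbl 26 15 30)))))))) (.rp 60 (.thr 22 23 (.thr 42 63 (.thr 32 47 (.thr 16 48 (.thr 28 24 (.thr 19 25 (.thr 18 17 (.dbl 26 30 31)))))))) (.rp 42 (.thr 22 23 (.thr 60 40 (.thr 41 3 (.thr 1 61 (.thr 33 45 (.thr 17 49 (.thr 51 34 (.thr 57 54 (.dbl 25 9 29))))))))) (.rp 40 (.thr 22 23 (.thr 42 63 (.thr 32 47 (.thr 16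 48 (.thr 28 24 (.thr 19 25 (.thr 18 17 (.dbl 26 30 31)))))))) (.rp 6 (.str 4 (.nv (.thr 36 52 (.thr 40 60 (.thr 32 44 (.dbl 42 47 63)))) (.nv (.thr 36 52 (.dbl 38 39 55)) (.rp 52 (.thr 22 23 (.thr 60 40 (.thr 3 41 (.thr 2 1 (.dbl 42 62 63))))) (.rp 36 (.thr 22 23 (.thr 60 40 (.thr 3 41 (.thr 2 1 (.dbl 42 62 63))))) (.rp 14 (.str 2 (.nv (.thr 42 63 (.dbl 22 23 62)) (.nv (.thr 36 52 (.dbl 38 39 55)) .nd))) (.rp 2 (.str 14 (.nv (.thr 12 8 (.thr 15 13 (.thr 36 52 (.dbl 48 24 26)))) (.nv (.thr 12 8 (.thr 13 15 (.thr 25 49 (.dbl 38 51 55)))) (.nv (.thr 36 52 (.dbl 38 39 55)) .nd)))) .nd))))))) (.rp 4 (.str 6 (.nv (.thr 60 40 (.thr 63 42 (.thr 61 62 (.thr 41 1 (.dbl 22 3 23))))) (.nv (.thr 22 23 (.thr 38 54 (.thr 60 40 (.thr 3 41 (.thr 12 9 (.thr 25 51 (.dbl 28 19 44))))))) (.nv (.thr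 40 60 (.thr 42 63 (.thr 32 47 (.thr 36 44 (.thr 38 39 (.dbl 22 23 54)))))) (.nv (.thr 22 23 (.thr 60 40 (.thr 3 41 (.thr 42 63 (.dbl 2 1 62))))) (.rp 60 (.thr 22 23 (.thr 38 54 (.thr 39 36 (.thr 42 63 (.thr 47 32 (.thr 46 34 (.thr 44 45 (.dbl 35 41 43)))))))) (.rp 42 (.thr 22 23 (.thr 54 38 (.thr 60 40 (.thr 51 57 (.thr 41 3 (.thr 1 61 (.thr 33 45 (.dbl 17 34 49)))))))) (.rp 40 (.thr 22 23 (.thr 38 54 (.thr 39 36 (.thr 42 63 (.thr 46 34 (.thr 47 32 (.thr 44 45 (.dbl 35 41 43)))))))) (.rp 23 (.thr 60 40 (.thr 63 42 (.thr 61 62 (.thr 41 1 (.thr 45 33 (.thr 15 30 (.thr 31 47 (.dbl 26 16 48)))))))) (.rp 22 (.thr 40 60 (.thr 42 63 (.thr 32 47 (.thr 44 36 (.thr 41 43 (.thr 33 45 (.dbl 35 34 38))))))) .nd)))))))))) .nd)))))))))) (.rp 6 (.thr 22 23 (.thr 52 7 (.thr 4 36 (.thr 55 38 (.thr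 53 54 (.str 0 (.nv (.thr 63 42 (.thr 48 58 (.thr 26 15 (.dbl 16 31 32)))) (.nv (.thr 60 40 (.thr 48 56 (.thr 26 15 (.dbl 16 31 32)))) (.nv (.thr 42 63 (.thr 2 62 (.thr 3 1 (.dbl 60 40 41)))) (.nv (.thr 60 40 (.thr 48 56 (.dbl 63 42 58))) (.rp 14 (.str 2 (.nv (.thr 3 1 (.dbl 60 40 41)) (.nv (.dbl 42 62 63) (.rp 50 (.str 26 (.nv (.thr 3 1 (.dbl 60 40 41)) (.nv (.dbl 42 62 63) (.rp 62 (.str 58 (.nv (.thr 30 18 (.thr 3 1 (.dbl 60 40 41))) (.nv (.dbl 48 15 63) (.rp 30 (.str 46 (.nv (.thr 3 1 (.dbl 60 40 41)) (.nv (.dbl 48 15 63) .nd))) .nd)))) (.rp 58 (.thr 62 42 (.thr 3 1 (.dbl 60 40 41))) .nd))))) (.rp 26 (.str 50 (.nv (.thr 3 1 (.dbl 60 40 41)) (.nv (.dbl 42 62 63) (.rp 42 (.str 58 (.nv (.thr 34 18 (.thr 51 17 (.dbl 48 49 63))) (.nv (.thr 3 1 (.dbl 60 40 41)) (.rp 34 (.str 46 (.nv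 (.thr 3 1 (.dbl 60 40 41)) (.nv (.thr 63 48 (.dbl 12 8 29)) .nd))) .nd)))) .nd)))) .nd))))) (.rp 2 (.str 14 (.nv (.thr 12 8 (.thr 15 13 (.thr 60 40 (.dbl 48 26 56)))) (.nv (.thr 12 8 (.thr 13 15 (.thr 25 49 (.thr 29 17 (.dbl 63 42 46))))) (.nv (.thr 60 40 (.thr 48 56 (.dbl 63 42 58))) (.rp 8 (.thr 63 42 (.thr 60 40 (.dbl 48 56 58))) .nd))))) .nd)))))))))))) (.rp 4 (.thr 22 23 (.thr 7 52 (.str 0 (.nv (.thr 42 63 (.thr 2 62 (.thr 3 1 (.thr 15 11 (.thr 32 47 (.dbl 48 16 26)))))) (.nv (.thr 60 40 (.thr 3 41 (.thr 15 11 (.thr 26 48 (.dbl 30 18 45))))) (.nv (.thr 60 40 (.thr 3 41 (.thr 42 63 (.dbl 2 1 62)))) (.rp 60 (.thr 42 63 (.thr 32 47 (.thr 48 16 (.thr 15 26 (.thr 3 11 (.dbl 2 1 62)))))) (.rp 42 (.thr 60 40 (.thr 41 3 (.thr 1 61 (.thr 33 45 (.thr 17 49 (.thr 51 34 (.thr 57 54 (.dbl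 25 9 29)))))))) (.rp 3 (.thr 60 40 (.thr 63 42 (.thr 61 62 (.thr 41 1 (.thr 45 33 (.thr 15 30 (.thr 31 47 (.dbl 26 16 48)))))))) .nd))))))))) (.rp 3 (.str 0 (.nv (.thr 40 60 (.thr 42 63 (.thr 32 47 (.thr 36 44 (.thr 4 52 (.dbl 38 39 55)))))) (.nv (.thr 22 23 (.thr 63 42 (.thr 52 7 (.thr 4 36 (.thr 12 8 (.thr 29 46 (.thr 25 17 (.dbl 38 51 55)))))))) (.nv (.thr 60 40 (.thr 42 63 (.thr 32 47 (.thr 48 16 (.thr 52 56 (.dbl 22 7 23)))))) (.rp 63 (.str 4 (.nv (.thr 36 52 (.dbl 38 39 55)) (.nv (.thr 52 36 (.dbl 22 7 23)) (.rp 52 (.thr 38 55 (.thr 36 39 (.thr 12 8 (.thr 48 24 (.thr 16 32 (.dbl 26 15 31)))))) (.rp 43 (.thr 23 22 (.thr 36 52 (.dbl 38 39 55))) (.rp 36 (.thr 38 55 (.thr 12 8 (.thr 51 25 (.thr 60 40 (.thr 54 57 (.dbl 22 6 23)))))) (.rp 23 (.str 43 (.nv (.thr 36 52 (.thr 40 60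 (.thr 32 44 (.dbl 42 41 47)))) (.nv (.thr 36 52 (.dbl 38 39 55)) (.rp 52 (.thr 40 60 (.thr 41 42 (.thr 38 55 (.thr 44 35 (.dbl 36 32 39))))) (.rp 36 (.thr 12 8 (.thr 40 60 (.thr 38 55 (.thr 51 25 (.thr 34 17 (.dbl 42 41 46)))))) .nd))))) .nd))))))) (.rp 52 (.thr 23 22 (.thr 42 63 (.thr 40 60 (.thr 41 43 (.thr 33 45 (.thr 32 47 (.thr 35 34 (.dbl 44 36 38)))))))) (.rp 42 (.thr 22 23 (.thr 52 7 (.thr 60 40 (.thr 48 56 (.thr 16 32 (.dbl 26 15 31)))))) (.rp 23 (.thr 60 40 (.thr 63 42 (.thr 61 62 (.thr 41 1 (.thr 45 33 (.thr 15 30 (.thr 31 47 (.dbl 26 16 48)))))))) (.rp 22 (.thr 60 40 (.thr 42 63 (.thr 32 47 (.thr 16 48 (.thr 28 24 (.thr 12 44 (.thr 8 4 (.thr 31 26 (.thr 25 59 (.dbl 29 17 30)))))))))) (.rp 15 (.thr 23 22 (.thr 42 63 (.thr 40 60 (.thr 41 43 (.thr 61 1 (.thr 45 33 (.thr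 47 32 (.thr 46 44 (.thr 34 38 (.thr 17 51 (.dbl 29 13 25))))))))))) .nd)))))))))) (.rp 2 (.thr 22 23 (.thr 52 7 (.thr 4 36 (.thr 55 38 (.str 0 (.nv (.thr 60 40 (.thr 48 56 (.thr 26 15 (.dbl 16 31 32)))) (.nv (.thr 54 53 (.thr 63 42 (.thr 51 59 (.dbl 60 40 57)))) (.nv (.thr 53 54 (.thr 63 42 (.thr 48 58 (.thr 26 15 (.dbl 16 31 32))))) (.nv (.thr 60 40 (.thr 48 56 (.thr 32 16 (.dbl 42 47 63)))) (.rp 14 (.str 6 (.nv (.thr 53 54 (.thr 63 42 (.thr 48 58 (.thr 26 15 (.dbl 16 31 32))))) (.nv (.thr 54 53 (.thr 63 42 (.thr 51 59 (.dbl 60 40 57)))) (.nv (.thr 12 8 (.thr 60 40 (.dbl 3 9 41))) (.rp 50 (.str 26 (.nv (.thr 18 30 (.thr 12 8 (.thr 60 40 (.dbl 3 9 41)))) (.nv (.thr 16 31 (.dbl 48 15 32)) (.rp 32 (.thr 48 15 (.dbl 60 40 56)) (.rp 18 (.str 34 (.nv (.thr 16 31 (.dbl 48 15 32)) (.nv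 (.thr 63 42 (.dbl 51 17 59)) .nd))) .nd))))) (.rp 26 (.str 50 (.nv (.thr 54 53 (.thr 58 62 (.thr 63 42 (.thr 51 59 (.dbl 60 40 57))))) (.nv (.thr 42 63 (.thr 32 47 (.thr 48 16 (.dbl 60 40 56)))) (.rp 63 (.thr 12 8 (.thr 60 40 (.dbl 3 9 41))) (.rp 60 (.thr 8 12 (.thr 42 63 (.thr 32 47 (.thr 48 16 (.thr 49 51 (.dbl 25 13 59)))))) (.rp 42 (.str 58 (.nv (.thr 12 8 (.thr 60 40 (.dbl 3 9 41))) (.nv (.dbl 54 53 62) (.rp 46 (.str 34 (.nv (.thr 12 8 (.thr 60 40 (.dbl 3 9 41))) (.nv (.dbl 54 53 62) (.rp 62 (.str 30 (.nv (.thr 51 17 (.thr 48 49 (.dbl 53 54 63))) (.nv (.thr 12 8 (.thr 60 40 (.dbl 3 9 41))) (.nv (.thr 54 53 (.thr 51 17 (.dbl 60 40 57))) .nd)))) (.rp 30 (.thr 62 54 (.thr 51 17 (.thr 48 49 (.dbl 63 53 59)))) .nd))))) (.rp 34 (.str 46 (.nv (.thr 12 8 (.thr 60 40 (.dbl 3 9 41)))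 (.nv (.dbl 54 53 62) .nd))) .nd))))) (.rp 40 (.thr 54 53 (.thr 58 62 (.thr 63 42 (.thr 51 59 (.thr 48 49 (.dbl 60 56 57)))))) .nd))))))) .nd)))))) (.rp 6 (.str 14 (.nv (.thr 12 8 (.thr 15 13 (.thr 60 40 (.dbl 48 26 56)))) (.nv (.thr 12 8 (.thr 13 15 (.thr 25 49 (.thr 29 17 (.dbl 63 42 46))))) (.nv (.thr 60 40 (.thr 48 56 (.thr 32 16 (.dbl 42 47 63)))) (.rp 8 (.thr 54 53 (.thr 63 42 (.thr 60 40 (.dbl 51 57 59)))) .nd))))) .nd))))))))))) (.rp 1 (.thr 22 23 (.thr 52 7 (.thr 4 36 (.thr 55 38 (.thr 53 54 (.str 0 (.nv (.thr 60 40 (.thr 48 56 (.thr 26 15 (.dbl 16 31 32)))) (.nv (.thr 63 42 (.thr 48 58 (.thr 26 15 (.dbl 16 31 32)))) (.nv (.thr 60 40 (.thr 48 56 (.dbl 63 42 58))) (.rp 48 (.thr 40 60 (.thr 8 12 (.thr 24 56 (.thr 28 16 (.thr 25 19 (.dbl 42 59 63)))))) (.rp 32 (.thr 63 42 (.thr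 48 58 (.thr 26 15 (.dbl 60 40 56)))) (.rp 13 (.str 9 (.nv (.thr 60 40 (.thr 48 56 (.dbl 63 42 58))) (.nv (.thr 63 42 (.thr 48 58 (.thr 26 15 (.dbl 16 31 32)))) (.nv (.thr 12 8 (.thr 3 6 (.dbl 60 40 41))) .nd)))) (.rp 9 (.str 13 (.nv (.thr 8 12 (.thr 25 49 (.thr 28 19 (.thr 24 16 (.dbl 40 56 60))))) (.nv (.thr 25 49 (.thr 42 63 (.dbl 8 12 59))) (.nv (.thr 60 40 (.thr 48 56 (.dbl 63 42 58))) (.rp 8 (.str 11 (.nv (.thr 60 40 (.thr 56 48 (.dbl 41 3 26))) (.nv (.thr 25 49 (.thr 17 29 (.thr 51 34 (.dbl 63 42 59)))) .nd))) .nd))))) .nd))))))))))))) (.rp 0 (.str 15 (.nv (.thr 22 23 (.thr 7 52 (.thr 3 11 (.thr 41 60 (.thr 33 45 (.dbl 48 18 26)))))) (.nv (.thr 26 48 (.thr 16 31 (.thr 28 24 (.thr 22 23 (.thr 19 25 (.dbl 18 17 30)))))) (.rp 48 (.thr 22 23 (.thr 7 52 (.thr 3 11 (.thr 60 41 (.thr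 30 45 (.thr 26 18 (.thr 16 31 (.thr 28 24 (.thr 12 44 (.thr 13 14 (.dbl 25 19 49))))))))))) (.rp 26 (.thr 22 23 (.thr 7 52 (.thr 3 11 (.thr 41 60 (.thr 33 45 (.thr 48 18 (.thr 1 61 (.thr 49 17 (.thr 51 50 (.thr 19 35 (.dbl 25 13 28))))))))))) (.rp 23 (.str 39 (.nv (.thr 26 48 (.thr 38 36 (.thr 14 50 (.thr 12 13 (.dbl 51 25 27))))) (.nv (.thr 38 36 (.thr 48 26 (.thr 51 27 (.thr 25 12 (.dbl 49 13 50))))) (.nv (.thr 26 48 (.thr 16 31 (.thr 24 28 (.dbl 27 25 51)))) (.rp 51 (.thr 36 38 (.thr 52 4 (.thr 48 26 (.thr 60 56 (.thr 45 30 (.thr 41 33 (.dbl 22 3 7))))))) (.rp 48 (.thr 38 36 (.thr 55 4 (.thr 51 27 (.thr 12 25 (.thr 14 13 (.thr 63 59 (.thr 31 47 (.dbl 26 16 50)))))))) (.rp 27 (.thr 36 38 (.thr 52 4 (.thr 48 26 (.thr 60 56 (.thr 45 30 (.thr 41 33 (.dbl 22 3 7))))))) (.rp 26 (.thr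 38 36 (.thr 51 27 (.thr 25 12 (.thr 13 49 (.thr 29 17 (.thr 45 61 (.thr 60 30 (.thr 57 54 (.dbl 41 9 33))))))))) (.rp 25 (.thr 38 36 (.thr 55 4 (.thr 51 27 (.thr 63 59 (.thr 31 47 (.dbl 26 16 48)))))) .nd))))))))) (.rp 22 (.thr 26 48 (.thr 16 31 (.thr 24 28 (.thr 25 27 (.thr 13 49 (.thr 12 14 (.thr 29 17 (.thr 45 61 (.thr 46 63 (.thr 47 44 (.thr 42 32 (.dbl 38 34 51)))))))))))) (.rp 18 (.thr 22 23 (.thr 52 7 (.thr 48 26 (.thr 60 56 (.thr 45 30 (.dbl 41 3 33)))))) .nd)))))))) .nd))))))))))))))))))))))))))))))))))))))))))))))))))))))))))))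

theorem w332 : WinAt (137441050624, 1056) :=
  chF (K := [(4503737073664000, 8390304)]) (kc w331 kn) c332 137441050624 1056 5
    [33825] (by decide +kernel) (by decide +kernel)

/-- A certificate. -/
noncomputable def c333 : Ct := (.str 49 (.nv (.thr 5 53 (.thr 13 25 (.thr 1 9 (.thr 41 61 (.dbl 33 17 45))))) (.nv (.thr 25 13 (.thr 17 29 (.thr 1 33 (.thr 61 41 (.dbl 53 5 57))))) (.rp 61 (.thr 5 53 (.thr 13 25 (.str 42 (.nv (.thr 1 9 (.thr 33 17 (.thr 41 45 (.thr 40 43 (.thr 0 63 (.thr 60 20 (.dbl 3 2 22))))))) (.nv (.thr 1 9 (.thr 32 47 (.thr 33 17 (.thr 41 45 (.thr 40 43 (.thr 44 36 (.dbl 35 34 38))))))) (.nv (.thr 32 47 (.thr 0 63 (.thr 48 16 (.thr 51 50 (.thr 17 34 (.dbl 1 9 33)))))) (.rp 33 (.thr 63 0 (.thr 47 32 (.thr 15 31 (.thr 48 26 (.thr 51 50 (.thr 55 59 (.thr 38 4 (.dbl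 39 27 36)))))))) (.rp 17 (.thr 63 0 (.thr 47 32 (.thr 15 31 (.thr 48 26 (.thr 51 50 (.thr 55 59 (.thr 38 4 (.dbl 39 27 36)))))))) (.rp 14 (.str 2 (.nv (.thr 1 9 (.dbl 0 3 63)) (.nv (.thr 0 63 (.dbl 1 3 9)) (.rp 63 (.thr 1 9 (.thr 33 17 (.thr 41 45 (.thr 3 0 (.dbl 22 60 62))))) (.rp 9 (.thr 22 62 (.thr 20 23 (.thr 0 63 (.thr 60 40 (.dbl 3 1 41))))) (.rp 3 (.thr 0 63 (.thr 32 47 (.thr 48 16 (.thr 51 50 (.thr 17 34 (.dbl 1 9 33)))))) (.rp 1 (.thr 22 62 (.thr 63 0 (.thr 47 32 (.thr 15 31 (.thr 23 20 (.thr 3 43 (.dbl 7 11 52))))))) (.rp 0 (.thr 1 9 (.thr 33 17 (.thr 41 45 (.thr 32 47 (.thr 40 43 (.thr 44 36 (.dbl 35 34 38))))))) .nd)))))))) (.rp 9 (.thr 63 0 (.thr 47 32 (.thr 15 31 (.thr 48 26 (.thr 51 50 (.thr 55 59 (.thr 38 4 (.dbl 39 27 36)))))))) (.rp 2 (.str 14 (.nv (.thr 0 63 (.thr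 32 47 (.thr 48 16 (.dbl 15 12 26)))) (.nv (.thr 15 12 (.thr 47 32 (.dbl 63 0 31))) (.rp 63 (.thr 1 9 (.thr 33 17 (.thr 41 45 (.thr 32 47 (.thr 35 34 (.thr 40 43 (.dbl 44 36 38))))))) (.rp 47 (.thr 1 9 (.thr 17 33 (.thr 0 63 (.thr 34 51 (.thr 38 46 (.thr 26 50 (.dbl 15 12 48))))))) (.rp 32 (.thr 63 0 (.thr 15 12 (.thr 31 47 (.dbl 26 16 48)))) (.rp 31 (.thr 0 63 (.thr 15 12 (.thr 32 47 (.dbl 48 16 26)))) (.rp 15 (.thr 1 9 (.thr 33 17 (.thr 41 45 (.thr 32 47 (.thr 35 34 (.thr 40 43 (.dbl 44 36 38))))))) (.rp 12 (.thr 0 63 (.thr 32 47 (.thr 48 16 (.thr 50 51 (.thr 38 26 (.thr 36 39 (.thr 44 40 (.thr 35 41 (.dbl 34 33 46))))))))) (.rp 0 (.thr 15 12 (.thr 47 32 (.thr 31 63 (.dbl 26 16 48)))) .nd)))))))))) (.rp 1 (.thr 63 0 (.thr 47 32 (.thr 15 31 (.thr 48 26 (.thr 51 50 (.thr 55 59 (.thr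 38 4 (.dbl 39 27 36)))))))) .nd)))))))))))) (.rp 53 (.thr 25 13 (.thr 17 29 (.thr 1 33 (.thr 61 41 (.str 0 (.nv (.thr 51 34 (.thr 48 50 (.thr 26 15 (.dbl 16 31 32)))) (.nv (.thr 2 3 (.thr 42 63 (.thr 22 62 (.thr 19 28 (.thr 32 47 (.dbl 16 18 48)))))) (.nv (.thr 42 63 (.thr 8 59 (.thr 12 4 (.dbl 51 34 38)))) (.nv (.thr 51 34 (.thr 48 50 (.thr 32 16 (.dbl 42 47 63)))) (.rp 48 (.thr 51 34 (.thr 12 38 (.thr 8 4 (.dbl 42 59 63)))) (.rp 2 (.str 14 (.nv (.thr 51 34 (.thr 12 38 (.thr 8 4 (.dbl 42 59 63)))) (.nv (.thr 42 63 (.thr 8 59 (.thr 12 4 (.dbl 51 34 38)))) (.nv (.thr 51 34 (.thr 50 48 (.dbl 38 12 26))) (.rp 63 (.thr 51 34 (.thr 12 38 (.thr 8 4 (.thr 42 59 (.thr 32 47 (.dbl 48 16 50)))))) (.rp 51 (.str 20 (.nv (.thr 60 40 (.dbl 63 42 62)) (.rp 63 (.thr 22 23 (.thr 28 19 (.thr 16 24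 (.thr 48 32 (.dbl 26 15 31))))) (.rp 62 (.thr 22 23 (.thr 52 7 (.thr 4 36 (.thr 8 12 (.dbl 42 59 63))))) (.rp 60 (.thr 22 23 (.thr 52 7 (.thr 4 36 (.thr 8 12 (.dbl 42 59 63))))) (.rp 43 (.thr 22 23 (.thr 52 7 (.thr 4 36 (.thr 8 12 (.dbl 42 59 63))))) (.rp 42 (.thr 22 23 (.thr 28 19 (.thr 16 24 (.thr 48 32 (.dbl 26 15 31))))) (.rp 40 (.thr 22 23 (.thr 52 7 (.thr 4 36 (.thr 8 12 (.dbl 42 59 63))))) .nd)))))))) (.rp 38 (.thr 42 63 (.thr 32 47 (.thr 48 16 (.dbl 51 34 50)))) (.rp 34 (.thr 42 63 (.thr 32 47 (.thr 48 16 (.thr 50 51 (.dbl 26 15 38))))) (.rp 12 (.thr 63 42 (.thr 51 34 (.thr 50 48 (.thr 55 59 (.dbl 38 4 26))))) .nd))))))))) .nd))))))))))) (.rp 45 (.thr 53 5 (.thr 61 57 (.thr 1 41 (.thr 17 33 (.dbl 25 13 29))))) (.rp 41 (.thr 5 53 (.thr 25 13 (.thr 29 17 (.str 12 (.nv (.thr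 51 38 (.thr 48 50 (.thr 24 36 (.dbl 26 15 27)))) (.nv (.thr 63 46 (.thr 42 0 (.thr 59 8 (.dbl 51 38 55)))) (.rp 51 (.thr 63 46 (.thr 0 42 (.thr 4 8 (.thr 38 55 (.thr 36 39 (.thr 48 24 (.thr 16 32 (.dbl 26 15 31)))))))) (.rp 38 (.thr 63 46 (.thr 42 0 (.thr 59 8 (.thr 51 55 (.thr 48 50 (.thr 24 36 (.dbl 26 15 27))))))) (.rp 14 (.str 2 (.nv (.thr 63 46 (.thr 42 0 (.thr 59 8 (.dbl 51 38 55)))) (.nv (.thr 51 38 (.thr 48 50 (.thr 26 15 (.dbl 24 27 36)))) (.rp 51 (.thr 63 46 (.thr 0 42 (.thr 4 8 (.thr 38 55 (.thr 36 39 (.thr 48 24 (.thr 16 32 (.dbl 26 15 31)))))))) (.rp 38 (.thr 63 46 (.thr 42 0 (.thr 47 32 (.thr 59 8 (.thr 15 31 (.thr 51 55 (.dbl 48 26 50))))))) .nd))))) (.rp 2 (.str 14 (.nv (.thr 46 63 (.thr 30 62 (.thr 31 28 (.thr 26 16 (.dbl 38 50 51))))) (.nv (.thr 38 51 (.thr 26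 50 (.thr 24 27 (.dbl 36 39 48)))) (.nv (.thr 38 51 (.thr 4 55 (.thr 63 46 (.dbl 0 8 42)))) (.rp 51 (.thr 46 63 (.thr 30 62 (.thr 31 28 (.thr 26 16 (.thr 48 15 (.dbl 24 27 36)))))) (.rp 38 (.thr 46 63 (.thr 30 62 (.thr 31 28 (.thr 26 16 (.thr 48 15 (.dbl 24 27 36)))))) .nd)))))) .nd)))))))))) (.rp 33 (.thr 13 25 (.str 15 (.nv (.thr 14 12 (.thr 53 5 (.thr 61 57 (.thr 45 29 (.thr 60 30 (.thr 63 62 (.dbl 48 26 58))))))) (.nv (.thr 53 5 (.thr 48 26 (.thr 63 58 (.thr 42 0 (.dbl 47 31 32))))) (.rp 63 (.thr 53 5 (.thr 61 57 (.thr 45 29 (.thr 41 1 (.thr 60 30 (.thr 3 22 (.thr 26 48 (.dbl 11 7 56)))))))) (.rp 58 (.thr 53 5 (.thr 61 57 (.thr 45 29 (.thr 60 30 (.thr 63 62 (.thr 31 47 (.dbl 26 16 48))))))) (.rp 53 (.thr 14 12 (.thr 26 48 (.thr 31 16 (.thr 63 47 (.thr 38 50 (.thr 55 4 (.thr 51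 59 (.dbl 39 27 36)))))))) (.rp 48 (.thr 53 5 (.thr 61 57 (.thr 45 29 (.thr 60 30 (.thr 63 62 (.thr 42 0 (.dbl 47 31 32))))))) (.rp 31 (.thr 53 5 (.thr 61 57 (.thr 45 29 (.thr 48 26 (.thr 63 58 (.thr 42 0 (.dbl 60 30 62))))))) (.rp 26 (.thr 53 5 (.thr 61 57 (.thr 45 29 (.thr 60 30 (.thr 63 62 (.thr 42 0 (.dbl 47 31 32))))))) (.rp 14 (.str 2 (.nv (.thr 5 53 (.thr 1 9 (.thr 3 0 (.thr 41 61 (.thr 22 60 (.dbl 7 11 52)))))) (.nv (.thr 48 26 (.thr 53 5 (.thr 63 58 (.thr 42 0 (.dbl 47 31 32))))) (.nv (.thr 5 53 (.thr 1 9 (.thr 3 0 (.thr 11 7 (.thr 41 61 (.dbl 26 48 56)))))) (.rp 53 (.thr 26 48 (.thr 31 16 (.thr 63 47 (.thr 0 42 (.thr 3 1 (.thr 7 11 (.thr 23 43 (.dbl 22 20 52)))))))) (.rp 7 (.thr 5 53 (.thr 1 9 (.thr 26 48 (.thr 31 16 (.thr 63 47 (.dbl 0 3 42)))))) (.rp 5 (.thr 26 48 (.thr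 31 16 (.thr 63 47 (.thr 0 42 (.thr 3 1 (.thr 7 11 (.thr 23 43 (.dbl 22 20 52)))))))) (.rp 0 (.thr 53 5 (.thr 61 57 (.thr 45 29 (.thr 48 26 (.thr 60 30 (.dbl 63 58 62)))))) .nd)))))))) (.rp 7 (.thr 5 53 (.thr 14 12 (.thr 26 48 (.thr 31 16 (.thr 63 47 (.thr 38 50 (.thr 55 4 (.thr 51 59 (.dbl 39 27 36))))))))) (.rp 5 (.thr 14 12 (.thr 26 48 (.thr 31 16 (.thr 47 63 (.thr 32 42 (.thr 38 50 (.thr 36 39 (.thr 44 40 (.thr 41 35 (.thr 61 1 (.dbl 45 29 46))))))))))) (.rp 4 (.thr 5 53 (.thr 1 9 (.thr 41 61 (.thr 26 48 (.thr 31 16 (.thr 63 47 (.thr 0 42 (.thr 11 56 (.dbl 3 2 7))))))))) .nd)))))))))))))) (.rp 25 (.str 42 (.nv (.thr 47 32 (.thr 63 0 (.thr 15 31 (.thr 48 26 (.dbl 53 5 58))))) (.nv (.thr 47 32 (.thr 63 0 (.thr 53 5 (.thr 15 31 (.dbl 48 26 58))))) (.rp 63 (.thr 32 47 (.thr 53 5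 (.thr 61 57 (.thr 41 1 (.thr 40 43 (.thr 44 36 (.thr 35 38 (.dbl 33 34 45)))))))) (.rp 58 (.thr 32 47 (.thr 0 63 (.thr 48 16 (.thr 51 50 (.thr 34 17 (.thr 38 46 (.thr 39 36 (.dbl 15 26 27)))))))) (.rp 53 (.thr 32 47 (.thr 0 63 (.thr 48 16 (.thr 51 50 (.thr 34 17 (.thr 38 46 (.thr 39 36 (.dbl 15 26 27)))))))) (.rp 48 (.thr 32 47 (.thr 53 5 (.thr 61 57 (.thr 41 1 (.thr 40 43 (.thr 44 36 (.thr 35 38 (.dbl 33 34 45)))))))) (.rp 47 (.thr 0 63 (.thr 53 5 (.thr 61 57 (.thr 41 1 (.thr 40 43 (.thr 33 45 (.thr 60 20 (.thr 3 22 (.thr 48 18 (.thr 56 52 (.dbl 26 11 15))))))))))) (.rp 32 (.thr 0 63 (.thr 53 5 (.thr 61 57 (.thr 41 1 (.thr 40 43 (.thr 33 45 (.thr 60 20 (.thr 3 22 (.thr 48 18 (.thr 56 52 (.dbl 26 11 15))))))))))) (.rp 31 (.thr 32 47 (.thr 53 5 (.thr 61 57 (.thr 41 1 (.thr 40 43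 (.thr 44 36 (.thr 35 38 (.dbl 33 34 45)))))))) (.rp 26 (.thr 32 47 (.thr 0 63 (.thr 48 16 (.thr 51 50 (.thr 17 34 (.thr 1 33 (.thr 61 41 (.dbl 53 5 57)))))))) (.rp 16 (.thr 32 47 (.thr 53 5 (.thr 61 57 (.thr 41 1 (.thr 40 43 (.thr 44 36 (.thr 35 38 (.dbl 33 34 45)))))))) (.rp 15 (.thr 47 32 (.thr 0 63 (.thr 53 5 (.thr 61 57 (.thr 41 1 (.thr 43 40 (.thr 45 33 (.thr 35 39 (.dbl 44 38 46))))))))) (.rp 14 (.str 2 (.nv (.thr 0 63 (.thr 1 3 (.thr 33 17 (.dbl 41 45 61)))) (.nv (.thr 47 32 (.thr 63 0 (.thr 15 31 (.thr 48 26 (.dbl 53 5 58))))) (.nv (.thr 0 63 (.thr 53 5 (.thr 61 57 (.dbl 1 3 41)))) (.rp 63 (.thr 53 5 (.thr 22 62 (.thr 20 23 (.thr 52 7 (.thr 4 36 (.dbl 55 38 54)))))) (.rp 0 (.thr 22 62 (.thr 20 23 (.thr 52 7 (.thr 4 36 (.thr 55 38 (.dbl 53 5 54)))))) .nd)))))) (.rp 5 (.thr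 32 47 (.thr 0 63 (.thr 48 16 (.thr 51 50 (.thr 34 17 (.thr 38 46 (.thr 39 36 (.dbl 15 26 27)))))))) (.rp 2 (.str 14 (.nv (.thr 53 5 (.thr 47 32 (.thr 63 0 (.thr 15 31 (.dbl 48 26 58))))) (.nv (.thr 32 47 (.thr 0 63 (.thr 48 16 (.thr 50 51 (.dbl 26 15 38))))) (.rp 63 (.thr 53 5 (.thr 61 57 (.thr 41 1 (.thr 33 45 (.thr 32 47 (.thr 35 34 (.thr 40 43 (.dbl 44 36 38)))))))) (.rp 48 (.thr 53 5 (.thr 61 57 (.thr 41 1 (.thr 33 45 (.thr 32 47 (.thr 35 34 (.thr 40 43 (.dbl 44 36 38)))))))) (.rp 47 (.thr 53 5 (.thr 61 57 (.thr 41 1 (.thr 45 33 (.thr 13 29 (.thr 15 12 (.thr 48 26 (.dbl 63 0 58)))))))) (.rp 32 (.thr 53 5 (.thr 61 57 (.thr 41 1 (.thr 45 33 (.thr 13 29 (.thr 15 12 (.thr 48 26 (.dbl 63 0 58)))))))) (.rp 31 (.thr 53 5 (.thr 61 57 (.thr 41 1 (.thr 33 45 (.thr 32 47 (.thr 35 34 (.thr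 40 43 (.dbl 44 36 38)))))))) (.rp 26 (.thr 63 0 (.thr 47 32 (.thr 15 31 (.thr 12 13 (.thr 46 29 (.thr 30 62 (.dbl 45 44 60))))))) (.rp 16 (.thr 53 5 (.thr 61 57 (.thr 41 1 (.thr 33 45 (.thr 32 47 (.thr 35 34 (.thr 40 43 (.dbl 44 36 38)))))))) (.rp 15 (.thr 53 5 (.thr 0 63 (.thr 61 57 (.thr 41 1 (.thr 45 33 (.thr 47 32 (.thr 43 40 (.thr 35 39 (.dbl 44 38 46))))))))) (.rp 0 (.thr 5 53 (.str 1 (.nv (.thr 41 61 (.dbl 33 17 45)) (.rp 61 (.thr 33 17 (.thr 41 45 (.thr 32 47 (.thr 40 43 (.thr 44 36 (.dbl 35 34 38)))))) (.rp 45 (.thr 33 17 (.thr 41 61 (.thr 32 47 (.thr 40 43 (.thr 44 36 (.dbl 35 34 38)))))) (.rp 41 (.thr 33 17 (.thr 32 47 (.thr 34 35 (.thr 38 46 (.thr 26 50 (.thr 15 48 (.dbl 13 9 12))))))) (.rp 33 (.thr 13 9 (.thr 41 61 (.thr 12 15 (.thr 32 47 (.thr 40 43 (.thr 36 44 (.thr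 48 24 (.thr 50 51 (.dbl 38 26 39))))))))) (.rp 17 (.thr 41 61 (.thr 33 45 (.thr 32 47 (.thr 40 43 (.thr 44 36 (.dbl 35 34 38)))))) .nd)))))))) .nd)))))))))))) (.rp 0 (.thr 5 53 (.thr 32 47 (.str 41 (.nv (.thr 33 45 (.thr 40 43 (.thr 44 36 (.dbl 35 34 38)))) (.nv (.thr 1 61 (.dbl 33 17 45)) (.rp 45 (.thr 1 61 (.thr 33 17 (.thr 40 43 (.thr 44 36 (.dbl 35 34 38))))) (.rp 33 (.thr 1 61 (.str 22 (.nv (.thr 2 62 (.thr 20 23 (.thr 40 43 (.thr 36 44 (.dbl 52 4 7))))) (.nv (.thr 20 23 (.thr 52 7 (.thr 36 4 (.dbl 40 43 44)))) (.rp 52 (.thr 40 43 (.thr 60 3 (.thr 2 62 (.thr 44 36 (.thr 12 28 (.thr 13 9 (.thr 15 14 (.thr 30 45 (.dbl 26 18 48))))))))) (.rp 44 (.thr 20 23 (.thr 52 7 (.thr 36 4 (.thr 39 38 (.thr 60 3 (.thr 48 56 (.thr 51 50 (.dbl 15 26 27)))))))) (.rp 43 (.thr 20 23 (.thr 52 7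 (.thr 36 4 (.thr 44 40 (.dbl 38 35 39))))) (.rp 40 (.thr 20 23 (.thr 52 7 (.thr 36 4 (.thr 39 38 (.thr 60 3 (.thr 48 56 (.thr 51 50 (.dbl 15 26 27)))))))) (.rp 39 (.thr 52 7 (.thr 60 3 (.thr 48 56 (.thr 50 51 (.thr 2 62 (.thr 34 18 (.thr 38 46 (.dbl 26 14 15)))))))) (.rp 36 (.thr 52 7 (.thr 60 3 (.thr 48 56 (.thr 50 51 (.thr 2 62 (.thr 34 18 (.thr 38 46 (.dbl 26 14 15)))))))) (.rp 23 (.thr 52 7 (.thr 40 43 (.thr 36 44 (.thr 4 20 (.dbl 38 39 55))))) (.rp 20 (.thr 52 7 (.thr 40 43 (.thr 60 3 (.thr 48 56 (.thr 51 50 (.thr 36 44 (.thr 39 38 (.dbl 15 26 27)))))))) (.rp 7 (.thr 20 23 (.thr 40 43 (.thr 36 44 (.thr 4 52 (.dbl 38 39 55))))) (.rp 4 (.thr 23 20 (.thr 40 43 (.thr 7 52 (.thr 36 44 (.dbl 39 38 55))))) (.rp 2 (.str 14 (.nv (.thr 13 9 (.thr 12 15 (.thr 40 43 (.thr 44 36 (.dbl 60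 3 28))))) (.nv (.thr 52 7 (.thr 60 3 (.thr 48 56 (.thr 15 26 (.dbl 13 9 12))))) (.nv (.thr 20 23 (.thr 52 7 (.thr 36 4 (.dbl 40 43 44)))) (.rp 12 (.thr 52 7 (.thr 20 23 (.thr 40 43 (.dbl 36 4 44)))) .nd))))) .nd))))))))))))))) (.rp 14 (.str 2 (.nv (.thr 33 45 (.thr 40 43 (.thr 44 36 (.dbl 35 34 38)))) (.nv (.thr 1 61 (.dbl 33 17 45)) (.rp 45 (.thr 40 43 (.thr 1 61 (.thr 33 17 (.thr 44 36 (.dbl 35 34 38))))) (.rp 33 (.thr 40 43 (.thr 22 62 (.thr 20 23 (.thr 52 7 (.dbl 36 4 44))))) .nd))))) (.rp 2 (.str 14 (.nv (.thr 33 45 (.thr 40 43 (.thr 44 36 (.dbl 35 34 38)))) (.nv (.thr 1 61 (.dbl 33 17 45)) (.rp 45 (.thr 1 61 (.thr 33 17 (.thr 40 43 (.thr 44 36 (.dbl 35 34 38))))) (.rp 33 (.thr 1 61 (.thr 13 9 (.thr 12 15 (.thr 40 43 (.thr 36 44 (.thr 48 24 (.thr 50 51 (.dbl 38 26 39))))))))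 (.rp 1 (.str 3 (.nv (.thr 33 45 (.thr 35 34 (.thr 51 19 (.dbl 48 18 50)))) (.nv (.thr 43 40 (.thr 23 63 (.dbl 22 20 60))) (.nv (.thr 40 43 (.thr 33 45 (.thr 44 36 (.dbl 35 34 38)))) .nd)))) .nd)))))) .nd))))))))) .nd))))))))))))))))) (.rp 17 (.thr 53 5 (.thr 61 57 (.thr 41 1 (.thr 45 33 (.dbl 13 25 29))))) (.rp 14 (.str 2 (.nv (.thr 13 25 (.thr 53 5 (.thr 61 57 (.thr 41 1 (.dbl 45 29 33))))) (.nv (.thr 5 53 (.thr 13 25 (.thr 1 9 (.thr 41 61 (.dbl 33 17 45))))) (.nv (.thr 25 13 (.thr 17 29 (.thr 1 33 (.thr 61 41 (.dbl 53 5 57))))) (.rp 61 (.thr 5 53 (.thr 13 25 (.thr 1 9 (.thr 33 17 (.thr 3 0 (.thr 48 18 (.thr 41 45 (.thr 22 60 (.thr 7 52 (.dbl 15 11 26)))))))))) (.rp 53 (.thr 25 13 (.thr 17 29 (.thr 1 33 (.thr 0 3 (.thr 51 34 (.thr 48 50 (.thr 32 16 (.dbl 42 47 63)))))))) (.rp 45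 (.thr 53 5 (.thr 25 13 (.thr 17 29 (.thr 61 57 (.dbl 1 33 41))))) (.rp 41 (.thr 53 5 (.thr 25 13 (.thr 17 29 (.thr 1 33 (.thr 0 3 (.thr 51 34 (.thr 48 50 (.dbl 63 42 58)))))))) (.rp 33 (.thr 53 5 (.thr 61 57 (.thr 1 41 (.thr 0 3 (.thr 63 42 (.thr 48 58 (.thr 26 15 (.dbl 16 31 32)))))))) (.rp 25 (.str 0 (.nv (.thr 53 5 (.thr 63 42 (.thr 48 58 (.thr 26 15 (.dbl 16 31 32))))) (.nv (.thr 1 3 (.thr 33 17 (.dbl 41 45 61))) (.rp 12 (.thr 53 5 (.thr 61 57 (.dbl 1 3 41))) .nd)))) (.rp 13 (.thr 53 5 (.thr 61 57 (.thr 1 41 (.thr 17 33 (.thr 0 3 (.thr 51 34 (.thr 48 50 (.dbl 63 42 58)))))))) (.rp 5 (.thr 25 13 (.thr 17 29 (.thr 1 33 (.thr 0 3 (.thr 51 34 (.thr 48 50 (.thr 32 16 (.dbl 42 47 63)))))))) (.rp 1 (.str 0 (.nv (.thr 25 13 (.thr 17 29 (.thr 51 34 (.thr 48 50 (.thr 16 32 (.dbl 26 15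 31)))))) (.nv (.thr 42 63 (.thr 32 47 (.thr 48 16 (.thr 51 50 (.thr 17 34 (.dbl 25 13 29)))))) (.nv (.thr 25 13 (.thr 17 29 (.thr 42 63 (.thr 8 59 (.thr 51 34 (.dbl 12 4 38)))))) (.nv (.thr 53 5 (.thr 63 42 (.thr 48 58 (.thr 26 15 (.dbl 16 31 32))))) (.rp 15 (.thr 53 5 (.thr 42 63 (.thr 22 62 (.thr 20 23 (.thr 52 7 (.thr 4 36 (.dbl 55 38 54))))))) (.rp 13 (.thr 42 63 (.thr 22 62 (.thr 52 7 (.thr 20 23 (.thr 4 36 (.thr 55 38 (.dbl 53 5 54))))))) .nd))))))) .nd))))))))))))) (.rp 13 (.str 0 (.nv (.thr 53 5 (.thr 61 57 (.thr 63 42 (.thr 60 62 (.thr 20 40 (.thr 22 23 (.dbl 41 1 3))))))) (.nv (.thr 53 5 (.thr 63 42 (.thr 48 58 (.thr 26 15 (.dbl 16 31 32))))) (.rp 63 (.thr 53 5 (.thr 61 57 (.thr 1 41 (.thr 17 33 (.thr 51 34 (.thr 48 50 (.thr 26 15 (.dbl 16 31 32)))))))) (.rp 58 (.thr 53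 5 (.thr 61 57 (.thr 1 41 (.thr 17 33 (.thr 51 34 (.thr 48 50 (.thr 32 16 (.dbl 42 47 63)))))))) (.rp 53 (.thr 42 63 (.thr 32 47 (.thr 48 16 (.thr 51 50 (.thr 17 34 (.thr 25 29 (.thr 12 38 (.dbl 8 4 59)))))))) (.rp 42 (.thr 53 5 (.thr 61 57 (.thr 1 41 (.thr 17 33 (.thr 51 34 (.thr 48 50 (.thr 26 15 (.dbl 16 31 32)))))))) (.rp 26 (.thr 53 5 (.thr 61 57 (.thr 1 41 (.thr 17 33 (.thr 51 34 (.thr 48 50 (.dbl 63 42 58))))))) (.rp 14 (.str 2 (.nv (.thr 3 1 (.thr 42 63 (.thr 22 62 (.thr 60 41 (.dbl 20 23 40))))) (.nv (.thr 1 3 (.thr 33 17 (.dbl 41 45 61))) (.rp 41 (.thr 1 3 (.thr 17 33 (.thr 51 34 (.thr 48 50 (.thr 32 16 (.dbl 42 47 63)))))) (.rp 15 (.str 12 (.nv (.thr 1 3 (.thr 53 5 (.dbl 61 41 57))) (.nv (.thr 63 42 (.thr 29 46 (.thr 17 25 (.dbl 1 3 33)))) (.nv (.thr 1 3 (.thr 33 17 (.dbl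 41 45 61))) (.rp 3 (.thr 4 8 (.thr 38 55 (.thr 25 51 (.thr 29 17 (.dbl 63 42 46))))) (.rp 1 (.thr 4 8 (.thr 38 55 (.thr 25 51 (.thr 29 17 (.dbl 63 42 46))))) .nd)))))) (.rp 12 (.str 15 (.nv (.thr 26 48 (.thr 31 16 (.dbl 63 42 47))) (.nv (.thr 53 5 (.thr 61 57 (.dbl 1 3 41))) (.rp 9 (.thr 3 1 (.thr 5 53 (.thr 48 26 (.thr 50 51 (.dbl 18 33 34))))) (.rp 3 (.str 9 (.nv (.thr 48 26 (.thr 53 5 (.dbl 63 42 58))) (.nv (.thr 63 42 (.thr 31 47 (.dbl 26 16 48))) (.rp 63 (.thr 53 5 (.thr 61 57 (.thr 1 41 (.thr 17 33 (.thr 51 34 (.dbl 48 26 50)))))) (.rp 58 (.thr 63 42 (.thr 26 48 (.dbl 31 16 47))) (.rp 48 (.thr 53 5 (.thr 61 57 (.thr 41 1 (.thr 63 42 (.thr 60 62 (.dbl 45 30 33)))))) (.rp 42 (.thr 53 5 (.thr 61 57 (.thr 1 41 (.thr 17 33 (.thr 51 34 (.dbl 48 26 50)))))) (.rp 26 (.thr 53 5 (.thr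 61 57 (.thr 41 1 (.thr 45 33 (.thr 60 30 (.dbl 63 42 62)))))) .nd)))))))) .nd))))) (.rp 9 (.thr 42 63 (.thr 22 62 (.thr 20 23 (.thr 60 40 (.dbl 3 1 41))))) (.rp 3 (.thr 53 5 (.thr 61 57 (.thr 1 41 (.thr 17 33 (.thr 51 34 (.thr 48 50 (.dbl 63 42 58))))))) (.rp 1 (.thr 42 63 (.thr 22 62 (.thr 52 7 (.thr 20 23 (.thr 4 36 (.thr 55 38 (.dbl 53 5 54))))))) .nd))))))))) (.rp 9 (.thr 42 63 (.thr 32 47 (.thr 48 16 (.thr 51 50 (.thr 17 34 (.thr 53 5 (.thr 1 33 (.dbl 61 41 57)))))))) (.rp 7 (.thr 42 63 (.thr 32 47 (.thr 48 16 (.thr 51 50 (.thr 17 34 (.thr 1 33 (.thr 61 41 (.dbl 53 5 57)))))))) (.rp 5 (.thr 42 63 (.thr 32 47 (.thr 48 16 (.thr 51 50 (.thr 17 34 (.thr 25 29 (.thr 12 38 (.dbl 8 4 59)))))))) (.rp 4 (.thr 42 63 (.thr 32 47 (.thr 48 16 (.thr 51 50 (.thr 17 34 (.thr 1 33 (.thr 61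 41 (.dbl 53 5 57)))))))) (.rp 2 (.str 14 (.nv (.thr 53 5 (.thr 63 42 (.thr 48 58 (.thr 26 15 (.dbl 50 38 51))))) (.nv (.thr 53 5 (.thr 63 42 (.thr 48 58 (.thr 26 15 (.dbl 16 31 32))))) (.nv (.thr 42 63 (.thr 32 47 (.thr 48 16 (.thr 50 51 (.dbl 26 15 38))))) (.rp 63 (.thr 53 5 (.thr 61 57 (.thr 1 41 (.thr 17 33 (.thr 25 29 (.thr 51 34 (.thr 50 48 (.dbl 38 12 26)))))))) (.rp 48 (.thr 53 5 (.thr 61 57 (.thr 1 41 (.thr 17 33 (.thr 63 42 (.thr 62 60 (.thr 46 30 (.dbl 29 12 25)))))))) (.rp 42 (.thr 53 5 (.thr 61 57 (.thr 1 41 (.thr 17 33 (.thr 25 29 (.thr 51 34 (.thr 38 12 (.dbl 50 26 48)))))))) (.rp 26 (.thr 53 5 (.thr 61 57 (.thr 1 41 (.thr 17 33 (.thr 42 63 (.thr 32 47 (.thr 48 16 (.dbl 51 34 50)))))))) (.rp 15 (.thr 53 5 (.thr 61 57 (.thr 1 41 (.thr 17 33 (.thr 63 42 (.thr 51 34 (.dbl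 48 50 58))))))) .nd))))))))) (.rp 1 (.thr 42 63 (.thr 32 47 (.thr 48 16 (.thr 51 50 (.thr 17 34 (.thr 25 29 (.thr 12 38 (.dbl 8 4 59)))))))) .nd))))))))))))))) (.rp 5 (.thr 25 13 (.thr 17 29 (.thr 1 33 (.thr 61 41 (.thr 57 53 (.str 0 (.nv (.thr 51 34 (.thr 48 50 (.thr 26 15 (.dbl 16 31 32)))) (.nv (.thr 63 42 (.thr 60 62 (.dbl 51 34 54))) (.nv (.thr 51 34 (.thr 48 50 (.thr 32 16 (.dbl 42 47 63)))) (.rp 51 (.thr 2 3 (.thr 42 63 (.thr 32 47 (.thr 22 62 (.thr 19 28 (.dbl 16 18 48)))))) (.rp 34 (.thr 63 42 (.thr 60 62 (.thr 51 54 (.thr 55 59 (.dbl 38 4 12))))) (.rp 14 (.thr 2 3 (.thr 51 34 (.thr 60 54 (.dbl 63 42 62)))) (.rp 7 (.str 4 (.nv (.thr 2 3 (.thr 42 63 (.dbl 8 12 59))) (.nv (.thr 63 42 (.thr 60 62 (.dbl 51 34 54))) (.nv (.thr 12 8 (.dbl 38 51 55)) (.rp 2 (.str 14 (.nv (.thr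 34 51 (.thr 38 55 (.dbl 42 46 63))) (.nv (.thr 42 63 (.dbl 8 12 59)) (.nv (.thr 12 8 (.dbl 38 51 55)) .nd)))) .nd))))) (.rp 4 (.str 7 (.nv (.thr 2 3 (.thr 22 52 (.thr 19 28 (.thr 18 16 (.dbl 34 50 51))))) (.nv (.thr 22 52 (.thr 20 23 (.thr 60 40 (.dbl 63 42 62)))) (.nv (.thr 51 34 (.thr 48 50 (.thr 32 16 (.dbl 42 47 63)))) (.rp 2 (.str 14 (.nv (.thr 22 52 (.thr 20 23 (.thr 60 40 (.dbl 63 42 62)))) (.nv (.thr 51 34 (.thr 50 48 (.dbl 38 12 26))) (.nv (.thr 22 52 (.thr 20 23 (.thr 60 40 (.dbl 51 34 54)))) .nd)))) .nd))))) (.rp 2 (.str 14 (.nv (.thr 51 34 (.thr 60 54 (.dbl 63 42 62))) (.nv (.thr 42 63 (.thr 32 47 (.thr 48 16 (.dbl 51 34 50)))) (.nv (.thr 51 34 (.thr 50 48 (.dbl 38 12 26))) (.rp 63 (.thr 51 34 (.thr 54 60 (.thr 50 48 (.thr 58 62 (.dbl 38 12 26))))) (.rp 51 (.thr 42 63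 (.thr 32 47 (.thr 48 16 (.thr 59 8 (.thr 56 58 (.thr 60 52 (.thr 40 20 (.thr 36 44 (.thr 38 39 (.dbl 26 15 50)))))))))) (.rp 50 (.thr 42 63 (.thr 32 47 (.thr 48 16 (.thr 59 8 (.thr 56 58 (.thr 60 52 (.dbl 51 34 54))))))) (.rp 34 (.thr 42 63 (.thr 32 47 (.thr 48 16 (.thr 50 51 (.dbl 26 15 38))))) (.rp 32 (.thr 34 51 (.str 22 (.nv (.thr 19 28 (.thr 42 63 (.thr 46 38 (.thr 30 62 (.dbl 18 16 26))))) (.nv (.thr 19 28 (.thr 16 18 (.thr 23 20 (.dbl 31 26 27)))) (.nv (.thr 20 23 (.thr 60 40 (.dbl 63 42 62))) (.rp 7 (.str 4 (.nv (.thr 20 23 (.thr 36 52 (.dbl 38 39 55))) (.nv (.thr 8 12 (.dbl 42 59 63)) .nd))) (.rp 4 (.thr 7 52 (.thr 20 23 (.thr 60 40 (.dbl 63 42 62)))) .nd))))))) (.rp 7 (.str 4 (.nv (.thr 34 51 (.thr 38 55 (.dbl 42 46 63))) (.nv (.thr 42 63 (.dbl 8 12 59)) (.nv (.thr 12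 8 (.dbl 38 51 55)) .nd)))) (.rp 4 (.str 7 (.nv (.thr 22 52 (.thr 20 23 (.thr 60 40 (.dbl 63 42 62)))) (.nv (.thr 51 34 (.thr 50 48 (.dbl 38 12 26))) (.nv (.thr 22 52 (.thr 20 23 (.thr 60 40 (.dbl 51 34 54)))) .nd)))) .nd))))))))))) .nd))))))))))))))) (.rp 2 (.str 14 (.nv (.thr 13 25 (.thr 15 12 (.thr 48 26 (.thr 53 5 (.thr 63 58 (.thr 42 0 (.dbl 47 31 32))))))) (.nv (.thr 25 13 (.thr 17 29 (.thr 1 33 (.thr 61 41 (.dbl 53 5 57))))) (.rp 53 (.thr 13 25 (.thr 15 12 (.thr 26 48 (.thr 38 50 (.thr 55 4 (.thr 31 16 (.thr 63 47 (.thr 51 59 (.dbl 39 27 36))))))))) (.rp 25 (.thr 53 5 (.thr 61 57 (.thr 41 1 (.thr 45 33 (.thr 13 29 (.thr 15 12 (.thr 60 30 (.thr 63 62 (.dbl 48 26 58))))))))) (.rp 13 (.str 0 (.nv (.thr 53 5 (.thr 63 42 (.thr 48 58 (.thr 26 15 (.dbl 50 38 51))))) (.nv (.thr 53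 5 (.thr 63 42 (.thr 48 58 (.thr 26 15 (.dbl 16 31 32))))) (.nv (.thr 42 63 (.thr 32 47 (.thr 48 16 (.thr 50 51 (.dbl 26 15 38))))) (.rp 63 (.thr 53 5 (.thr 61 57 (.thr 1 41 (.thr 17 33 (.thr 25 29 (.thr 51 34 (.thr 50 48 (.dbl 38 12 26)))))))) (.rp 48 (.thr 53 5 (.thr 61 57 (.thr 1 41 (.thr 17 33 (.thr 63 42 (.thr 62 60 (.thr 46 30 (.dbl 29 12 25)))))))) (.rp 42 (.thr 53 5 (.thr 61 57 (.thr 1 41 (.thr 17 33 (.thr 25 29 (.thr 51 34 (.thr 38 12 (.dbl 50 26 48)))))))) (.rp 26 (.thr 53 5 (.thr 61 57 (.thr 1 41 (.thr 17 33 (.thr 42 63 (.thr 32 47 (.thr 48 16 (.dbl 51 34 50)))))))) (.rp 15 (.thr 53 5 (.thr 61 57 (.thr 1 41 (.thr 17 33 (.thr 63 42 (.thr 51 34 (.dbl 48 50 58))))))) .nd))))))))) (.rp 5 (.thr 13 25 (.thr 15 12 (.thr 26 48 (.thr 38 50 (.thr 36 39 (.thr 31 16 (.thr 47 63 (.thr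 32 42 (.thr 44 40 (.thr 41 35 (.dbl 45 33 46))))))))))) (.rp 1 (.thr 53 5 (.thr 13 25 (.thr 61 57 (.thr 45 29 (.thr 15 12 (.thr 60 30 (.thr 63 62 (.dbl 48 26 58)))))))) .nd)))))))) (.rp 1 (.thr 13 25 (.str 15 (.nv (.thr 53 5 (.thr 61 57 (.thr 45 29 (.thr 60 30 (.thr 63 62 (.dbl 48 26 58)))))) (.nv (.thr 53 5 (.thr 48 26 (.thr 63 58 (.thr 42 0 (.dbl 47 31 32))))) (.rp 63 (.thr 53 5 (.thr 61 57 (.thr 45 29 (.thr 41 33 (.thr 60 30 (.thr 3 22 (.thr 26 48 (.dbl 11 7 56)))))))) (.rp 58 (.thr 53 5 (.thr 61 57 (.thr 45 29 (.thr 60 30 (.thr 63 62 (.thr 31 47 (.dbl 26 16 48))))))) (.rp 53 (.thr 14 12 (.thr 26 48 (.thr 31 16 (.thr 63 47 (.thr 38 50 (.thr 55 4 (.thr 51 59 (.dbl 39 27 36)))))))) (.rp 48 (.thr 53 5 (.thr 61 57 (.thr 45 29 (.thr 60 30 (.thr 63 62 (.thr 42 0 (.dbl 47 31 32)))))))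 (.rp 31 (.thr 53 5 (.thr 61 57 (.thr 45 29 (.thr 48 26 (.thr 63 58 (.thr 42 0 (.dbl 60 30 62))))))) (.rp 26 (.thr 53 5 (.thr 61 57 (.thr 45 29 (.thr 60 30 (.thr 63 62 (.thr 42 0 (.dbl 47 31 32))))))) (.rp 14 (.str 2 (.nv (.thr 48 26 (.thr 50 51 (.thr 18 34 (.thr 33 3 (.thr 45 41 (.thr 61 29 (.dbl 53 5 57))))))) (.nv (.thr 53 5 (.thr 61 57 (.thr 45 29 (.thr 41 33 (.thr 60 30 (.thr 62 63 (.dbl 22 3 42))))))) (.nv (.thr 53 5 (.thr 48 26 (.thr 63 58 (.thr 42 0 (.dbl 47 31 32))))) (.rp 53 (.thr 48 26 (.thr 50 51 (.thr 18 34 (.thr 3 33 (.thr 7 11 (.thr 22 52 (.thr 42 62 (.thr 0 63 (.dbl 32 16 47))))))))) (.rp 42 (.thr 53 5 (.thr 61 57 (.thr 45 29 (.thr 26 48 (.thr 31 16 (.thr 63 47 (.dbl 60 30 62))))))) (.rp 5 (.thr 48 26 (.thr 50 51 (.thr 18 34 (.thr 3 33 (.thr 7 11 (.thr 22 52 (.thr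 42 62 (.thr 0 63 (.dbl 32 16 47))))))))) .nd))))))) (.rp 7 (.thr 5 53 (.thr 14 12 (.thr 26 48 (.thr 31 16 (.thr 63 47 (.thr 38 50 (.thr 55 4 (.thr 51 59 (.dbl 39 27 36))))))))) (.rp 5 (.thr 14 12 (.thr 26 48 (.thr 31 16 (.thr 47 63 (.thr 32 42 (.thr 38 50 (.thr 36 39 (.thr 44 40 (.thr 41 35 (.dbl 45 33 46)))))))))) (.rp 4 (.thr 14 12 (.thr 26 48 (.thr 31 16 (.thr 47 63 (.thr 32 42 (.thr 38 50 (.thr 36 39 (.thr 44 40 (.thr 41 35 (.dbl 45 33 46)))))))))) (.rp 2 (.thr 14 12 (.thr 53 5 (.thr 61 57 (.thr 45 29 (.thr 60 30 (.thr 63 62 (.dbl 48 26 58))))))) .nd))))))))))))))) .nd)))))))))))))))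

theorem w333 : WinAt (137441050624, 1088) :=
  chF (K := []) kn c333 137441050624 1088 6
    [17476] (by decide +kernel) (by decide +kernel)

/-- A certificate. -/
noncomputable def c334 : Ct := (.str 13 (.nv (.thr 25 49 (.thr 29 17 (.thr 61 45 (.dbl 1 9 41)))) (.nv (.thr 1 9 (.thr 61 41 (.thr 25 49 (.dbl 29 17 45)))) (.rp 61 (.thr 49 25 (.str 0 (.nv (.thr 1 9 (.thr 3 2 (.thr 33 17 (.thr 48 18 (.thr 16 32 (.dbl 26 15 31)))))) (.nv (.thr 42 63 (.thr 32 47 (.thr 48 16 (.thr 51 50 (.thr 17 34 (.dbl 1 9 33)))))) (.nv (.thr 1 9 (.thr 3 2 (.thr 33 17 (.thr 41 45 (.thr 22 60 (.thr 23 20 (.dbl 63 42 43))))))) (.nv (.thr 1 9 (.thr 17 33 (.thr 51 34 (.thr 48 50 (.thr 32 16 (.dbl 42 47 63)))))) (.rp 33 (.thr 42 63 (.thr 32 47 (.thr 48 16 (.thr 51 50 (.thr 34 17 (.thr 15 26 (.thr 38 46 (.dbl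 39 27 36)))))))) (.rp 17 (.thr 42 63 (.thr 32 47 (.thr 48 16 (.thr 15 26 (.thr 12 14 (.thr 4 8 (.thr 38 55 (.dbl 36 24 39)))))))) (.rp 9 (.thr 42 63 (.thr 32 47 (.thr 48 16 (.thr 51 50 (.thr 34 17 (.thr 15 26 (.thr 38 46 (.dbl 39 27 36)))))))) (.rp 2 (.thr 1 9 (.thr 17 33 (.thr 51 34 (.thr 42 63 (.thr 32 47 (.dbl 48 16 50)))))) (.rp 1 (.thr 42 63 (.thr 32 47 (.thr 48 16 (.thr 51 50 (.thr 34 17 (.thr 15 26 (.thr 38 46 (.dbl 39 27 36)))))))) .nd))))))))))) (.rp 49 (.str 61 (.nv (.dbl 1 9 41) (.rp 41 (.str 15 (.nv (.thr 12 14 (.thr 29 45 (.thr 63 46 (.thr 42 0 (.dbl 47 31 32))))) (.nv (.thr 12 14 (.thr 29 45 (.thr 25 17 (.thr 38 51 (.thr 36 39 (.dbl 48 24 26)))))) (.nv (.thr 45 29 (.thr 60 30 (.thr 63 62 (.thr 31 47 (.dbl 26 16 48))))) (.rp 45 (.thr 12 14 (.thr 48 26 (.thr 36 24 (.thr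 38 39 (.thr 25 51 (.thr 29 17 (.thr 63 46 (.thr 47 31 (.dbl 42 0 32))))))))) (.rp 29 (.thr 14 12 (.thr 26 48 (.thr 31 16 (.thr 63 47 (.thr 62 60 (.thr 30 46 (.thr 22 18 (.dbl 42 0 2)))))))) (.rp 14 (.thr 45 29 (.thr 60 30 (.thr 26 48 (.thr 31 16 (.dbl 63 47 62))))) .nd))))))) (.rp 9 (.thr 45 29 (.dbl 41 1 33)) (.rp 1 (.thr 45 29 (.thr 33 41 (.str 15 (.nv (.thr 26 48 (.thr 31 16 (.thr 60 30 (.dbl 63 47 62)))) (.nv (.thr 60 30 (.thr 14 12 (.thr 63 62 (.thr 42 0 (.dbl 47 31 32))))) (.nv (.thr 60 30 (.thr 63 62 (.thr 31 47 (.dbl 26 16 48)))) (.rp 63 (.thr 12 14 (.thr 60 30 (.thr 28 44 (.thr 48 26 (.thr 56 52 (.thr 24 36 (.thr 20 16 (.dbl 40 0 8)))))))) (.rp 62 (.thr 12 14 (.thr 26 48 (.thr 31 16 (.thr 63 47 (.thr 0 42 (.thr 4 8 (.thr 38 55 (.thr 39 36 (.dbl 51 25 27))))))))) (.rp 60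 (.thr 12 14 (.thr 26 48 (.thr 31 16 (.thr 63 47 (.thr 0 42 (.thr 4 8 (.thr 38 55 (.thr 39 36 (.dbl 51 25 27))))))))) (.rp 47 (.thr 12 14 (.thr 60 30 (.thr 28 44 (.thr 48 26 (.thr 56 52 (.thr 24 36 (.thr 20 16 (.dbl 40 0 8)))))))) (.rp 31 (.thr 12 14 (.thr 60 30 (.thr 28 44 (.thr 48 26 (.thr 56 52 (.thr 24 36 (.thr 20 16 (.dbl 40 0 8)))))))) (.rp 30 (.thr 12 14 (.thr 26 48 (.thr 31 16 (.thr 63 47 (.thr 0 42 (.thr 4 8 (.thr 38 55 (.thr 39 36 (.dbl 51 25 27))))))))) .nd)))))))))))) .nd))))) (.rp 45 (.str 15 (.nv (.thr 25 49 (.thr 26 48 (.thr 27 24 (.thr 51 39 (.dbl 12 14 38))))) (.nv (.thr 12 14 (.thr 48 26 (.thr 36 24 (.thr 38 39 (.dbl 25 49 51))))) (.nv (.thr 12 14 (.thr 25 49 (.thr 29 17 (.thr 63 46 (.thr 47 31 (.dbl 42 0 32)))))) (.nv (.thr 12 14 (.thr 25 49 (.thr 26 48 (.thr 51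 38 (.dbl 27 24 39))))) (.rp 49 (.thr 1 9 (.thr 26 48 (.thr 31 16 (.thr 63 47 (.thr 0 42 (.thr 3 2 (.thr 23 43 (.thr 22 20 (.dbl 41 60 61))))))))) (.rp 25 (.thr 14 12 (.thr 26 48 (.thr 31 16 (.thr 63 47 (.thr 38 50 (.thr 55 4 (.thr 51 59 (.dbl 39 27 36)))))))) (.rp 14 (.thr 25 49 (.thr 29 17 (.thr 26 48 (.thr 31 16 (.thr 28 30 (.thr 19 22 (.dbl 27 23 24))))))) (.rp 12 (.thr 25 49 (.thr 29 17 (.thr 26 48 (.thr 31 16 (.thr 28 30 (.thr 19 22 (.dbl 27 23 24))))))) .nd))))))))) (.rp 41 (.str 15 (.nv (.thr 12 14 (.thr 48 26 (.thr 36 24 (.thr 38 39 (.dbl 25 49 51))))) (.nv (.thr 1 9 (.thr 25 49 (.thr 26 48 (.thr 29 17 (.thr 31 16 (.thr 30 28 (.dbl 45 60 61))))))) (.nv (.thr 12 14 (.thr 25 49 (.thr 29 17 (.thr 63 46 (.thr 47 31 (.dbl 42 0 32)))))) (.nv (.thr 12 14 (.thr 26 48 (.thr 25 49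 (.thr 27 24 (.dbl 51 38 39))))) (.rp 49 (.thr 12 14 (.thr 26 48 (.thr 31 16 (.thr 63 47 (.thr 29 46 (.thr 30 28 (.dbl 45 60 61))))))) (.rp 25 (.thr 12 14 (.thr 26 48 (.thr 31 16 (.thr 63 47 (.thr 29 46 (.thr 45 61 (.dbl 30 28 60))))))) .nd))))))) (.rp 29 (.thr 1 9 (.thr 41 61 (.thr 33 45 (.dbl 49 17 25)))) (.rp 25 (.str 15 (.nv (.thr 1 9 (.thr 41 61 (.thr 45 33 (.thr 60 30 (.thr 3 22 (.thr 0 2 (.thr 40 20 (.dbl 42 43 63)))))))) (.nv (.thr 14 12 (.thr 26 48 (.thr 31 16 (.thr 38 50 (.thr 55 4 (.thr 63 47 (.thr 51 59 (.dbl 39 27 36)))))))) (.nv (.thr 12 14 (.thr 26 48 (.thr 31 16 (.thr 63 47 (.thr 29 46 (.thr 45 61 (.dbl 30 28 60))))))) (.rp 63 (.thr 1 9 (.thr 41 61 (.thr 45 33 (.thr 12 14 (.thr 60 30 (.thr 44 28 (.thr 38 35 (.thr 36 39 (.dbl 48 24 26))))))))) (.rp 49 (.thr 1 9 (.thr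 12 14 (.thr 26 48 (.thr 31 16 (.thr 63 47 (.thr 29 46 (.dbl 61 41 45))))))) (.rp 26 (.thr 1 9 (.thr 41 61 (.thr 45 33 (.thr 12 14 (.thr 60 30 (.thr 44 28 (.thr 38 35 (.thr 36 39 (.thr 32 40 (.dbl 47 42 46)))))))))) (.rp 14 (.thr 1 9 (.thr 41 61 (.thr 45 33 (.thr 60 30 (.thr 3 22 (.thr 26 48 (.thr 31 16 (.thr 63 47 (.dbl 0 2 42))))))))) (.rp 0 (.thr 1 9 (.thr 41 61 (.thr 45 33 (.thr 12 14 (.thr 60 30 (.thr 44 28 (.thr 38 35 (.thr 36 39 (.dbl 48 24 26))))))))) .nd))))))))) (.rp 17 (.str 15 (.nv (.thr 1 9 (.thr 12 14 (.thr 61 41 (.thr 29 45 (.thr 63 46 (.thr 42 0 (.dbl 47 31 32))))))) (.nv (.thr 12 14 (.thr 48 26 (.thr 36 24 (.thr 38 39 (.dbl 25 49 51))))) (.nv (.thr 1 9 (.thr 26 48 (.thr 31 16 (.thr 61 41 (.thr 45 29 (.thr 60 30 (.dbl 63 47 62))))))) (.nv (.thr 12 14 (.thr 25 49 (.thr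 26 48 (.thr 51 38 (.dbl 27 24 39))))) (.rp 25 (.thr 1 9 (.thr 12 14 (.thr 26 48 (.thr 31 16 (.thr 63 47 (.thr 29 46 (.dbl 61 41 45))))))) .nd)))))) (.rp 9 (.thr 25 49 (.thr 29 17 (.thr 61 45 (.thr 1 41 (.str 26 (.nv (.thr 15 48 (.thr 12 14 (.thr 27 24 (.dbl 51 38 39)))) (.nv (.thr 15 48 (.thr 12 14 (.thr 63 46 (.thr 47 31 (.dbl 42 0 32))))) (.nv (.thr 27 24 (.thr 31 16 (.thr 19 23 (.dbl 28 22 30)))) (.rp 11 (.str 8 (.nv (.thr 15 48 (.thr 12 14 (.thr 0 4 (.dbl 42 59 63)))) (.nv (.thr 27 24 (.thr 31 16 (.thr 28 30 (.dbl 19 22 23)))) (.rp 15 (.str 3 (.nv (.thr 27 24 (.thr 31 16 (.thr 19 23 (.dbl 28 22 30)))) (.nv (.thr 42 59 (.dbl 0 2 63)) (.rp 60 (.str 30 (.nv (.thr 0 2 (.dbl 42 59 63)) (.nv (.dbl 31 16 28) .nd))) (.rp 30 (.str 60 (.nv (.thr 24 27 (.thr 40 56 (.thr 20 0 (.dbl 16 28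 31)))) (.nv (.thr 0 2 (.dbl 63 42 62)) (.rp 0 (.thr 27 24 (.thr 31 16 (.thr 63 62 (.dbl 23 19 43)))) .nd)))) (.rp 27 (.thr 0 2 (.dbl 42 59 63)) .nd)))))) .nd)))) (.rp 8 (.str 11 (.nv (.thr 15 48 (.thr 12 14 (.thr 31 16 (.dbl 63 46 47)))) (.nv (.thr 15 48 (.thr 12 14 (.thr 27 24 (.dbl 51 38 39)))) (.nv (.thr 31 16 (.thr 28 30 (.thr 19 22 (.dbl 27 23 24)))) (.rp 15 (.thr 31 16 (.thr 27 24 (.thr 19 23 (.dbl 28 22 30)))) .nd))))) .nd)))))))))) (.rp 1 (.str 12 (.nv (.thr 15 14 (.thr 48 26 (.thr 36 24 (.thr 38 39 (.dbl 25 49 51))))) (.nv (.thr 15 14 (.thr 26 48 (.thr 31 16 (.thr 63 47 (.thr 29 46 (.thr 30 28 (.dbl 45 60 61))))))) (.nv (.thr 25 49 (.thr 17 29 (.thr 51 38 (.thr 0 34 (.thr 8 4 (.dbl 42 59 63)))))) .nd)))) .nd))))))))))))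

theorem w334 : WinAt (137441050656, 9007199254742144) :=
  chF (K := []) kn c334 137441050656 9007199254742144 53
    [] (by decide +kernel) (by decide +kernel)

/-- A certificate. -/
noncomputable def c335 : Ct := (.str 7 (.nv (.thr 22 52 (.thr 23 20 (.thr 55 39 (.dbl 4 6 38)))) (.nv (.thr 4 6 (.thr 55 38 (.thr 22 52 (.dbl 23 20 39)))) (.rp 55 (.thr 52 22 (.str 1 (.nv (.thr 41 61 (.thr 33 45 (.thr 49 17 (.dbl 13 9 25)))) (.rp 61 (.thr 6 4 (.thr 9 13 (.thr 3 12 (.thr 0 2 (.thr 15 11 (.thr 48 26 (.thr 32 16 (.dbl 42 47 63)))))))) (.rp 57 (.thr 6 4 (.thr 9 13 (.thr 3 12 (.thr 0 2 (.thr 15 11 (.thr 48 26 (.thr 32 16 (.dbl 42 47 63)))))))) (.rp 49 (.thr 6 4 (.thr 9 13 (.thr 3 12 (.thr 0 2 (.thr 15 11 (.thr 48 26 (.thr 32 16 (.dbl 42 47 63)))))))) (.rp 45 (.thr 6 4 (.thr 9 13 (.thr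 3 12 (.thr 0 2 (.thr 15 11 (.thr 48 26 (.thr 32 16 (.dbl 42 47 63)))))))) (.rp 41 (.thr 6 4 (.thr 9 13 (.thr 3 12 (.thr 0 2 (.thr 15 11 (.thr 26 48 (.thr 31 16 (.dbl 63 42 47)))))))) (.rp 33 (.thr 6 4 (.thr 9 13 (.thr 3 12 (.thr 0 2 (.thr 15 11 (.thr 48 26 (.thr 32 16 (.dbl 42 47 63)))))))) (.rp 29 (.thr 4 6 (.thr 36 20 (.thr 38 39 (.thr 41 61 (.thr 45 33 (.thr 44 35 (.thr 47 46 (.dbl 32 40 42)))))))) (.rp 25 (.thr 4 6 (.thr 36 20 (.thr 38 39 (.thr 41 61 (.thr 45 33 (.thr 44 35 (.thr 47 46 (.dbl 32 40 42)))))))) (.rp 17 (.thr 4 6 (.thr 36 20 (.thr 38 39 (.thr 41 61 (.thr 45 33 (.thr 44 35 (.thr 47 46 (.dbl 32 40 42)))))))) (.rp 13 (.thr 4 6 (.thr 36 20 (.thr 38 39 (.thr 41 61 (.thr 45 33 (.thr 44 35 (.thr 47 46 (.dbl 32 40 42)))))))) (.rp 11 (.thr 9 13 (.thr 4 6 (.thr 36 20 (.thr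 38 39 (.thr 41 61 (.thr 45 33 (.thr 44 35 (.thr 47 46 (.dbl 32 40 42))))))))) (.rp 9 (.str 11 (.nv (.thr 15 3 (.thr 26 48 (.dbl 41 56 61))) (.nv (.thr 41 61 (.thr 26 56 (.dbl 15 3 48))) (.rp 61 (.str 49 (.nv (.thr 15 3 (.thr 26 48 (.thr 33 17 (.dbl 41 45 56)))) (.nv (.thr 17 33 (.dbl 25 13 29)) (.rp 33 (.thr 15 3 (.thr 48 26 (.thr 51 50 (.thr 39 27 (.thr 38 36 (.dbl 25 12 13)))))) (.rp 17 (.thr 15 3 (.thr 48 26 (.thr 51 50 (.thr 39 27 (.thr 38 36 (.dbl 25 12 13)))))) .nd))))) (.rp 56 (.thr 3 15 (.thr 0 2 (.thr 42 63 (.thr 41 61 (.thr 33 45 (.thr 48 18 (.dbl 32 16 47))))))) (.rp 48 (.thr 4 6 (.thr 36 20 (.thr 38 39 (.thr 41 61 (.thr 45 33 (.thr 44 35 (.thr 32 40 (.dbl 47 42 46)))))))) (.rp 41 (.thr 3 15 (.str 25 (.nv (.thr 17 29 (.dbl 49 13 33)) (.rp 49 (.thr 17 29 (.thr 4 6 (.thr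 36 20 (.thr 38 39 (.thr 51 12 (.dbl 0 2 34)))))) (.rp 33 (.thr 17 29 (.thr 4 6 (.thr 36 20 (.thr 38 39 (.thr 51 12 (.dbl 0 2 34)))))) (.rp 29 (.thr 49 13 (.thr 33 17 (.thr 48 18 (.thr 0 2 (.thr 42 63 (.dbl 32 16 47)))))) (.rp 17 (.str 63 (.nv (.dbl 0 2 42) (.rp 42 (.thr 43 23 (.thr 27 59 (.thr 4 6 (.thr 36 20 (.thr 38 39 (.thr 12 51 (.dbl 24 26 48))))))) (.rp 2 (.thr 49 13 (.thr 43 23 (.thr 27 59 (.thr 24 26 (.thr 42 0 (.thr 47 32 (.thr 35 39 (.thr 51 19 (.thr 12 38 (.dbl 48 36 50)))))))))) (.rp 0 (.thr 43 23 (.thr 27 59 (.thr 4 6 (.thr 36 20 (.thr 38 39 (.thr 24 26 (.dbl 12 48 51))))))) .nd))))) (.rp 13 (.thr 17 29 (.thr 33 49 (.thr 48 18 (.thr 0 2 (.thr 32 16 (.dbl 34 35 51)))))) .nd)))))))) (.rp 26 (.thr 4 6 (.thr 36 20 (.thr 38 39 (.thr 41 61 (.thr 45 33 (.thr 44 35 (.thr 32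 40 (.dbl 47 42 46)))))))) (.rp 15 (.thr 4 6 (.thr 36 20 (.thr 38 39 (.thr 41 61 (.thr 45 33 (.thr 44 35 (.thr 32 40 (.dbl 47 42 46)))))))) (.rp 3 (.thr 41 61 (.thr 26 56 (.thr 48 15 (.thr 16 31 (.thr 32 0 (.thr 47 42 (.thr 33 45 (.thr 35 34 (.thr 39 43 (.dbl 38 36 44)))))))))) .nd)))))))))) .nd))))))))))))))) (.rp 52 (.str 1 (.nv (.thr 41 61 (.thr 33 45 (.thr 49 17 (.dbl 13 9 25)))) (.rp 61 (.thr 9 13 (.thr 6 4 (.thr 3 12 (.thr 0 2 (.thr 15 11 (.thr 63 42 (.thr 31 47 (.dbl 26 16 48)))))))) (.rp 57 (.thr 9 13 (.thr 6 4 (.thr 3 12 (.thr 0 2 (.thr 15 11 (.thr 63 42 (.thr 31 47 (.dbl 26 16 48)))))))) (.rp 55 (.str 54 (.nv (.thr 9 13 (.thr 6 4 (.thr 3 12 (.thr 0 2 (.thr 22 38 (.dbl 41 60 61)))))) (.nv (.thr 41 61 (.thr 33 45 (.thr 49 17 (.dbl 13 9 25)))) (.rp 61 (.thr 6 4 (.thr 22 38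 (.thr 20 23 (.thr 9 13 (.thr 3 12 (.thr 0 2 (.dbl 60 40 41))))))) (.rp 41 (.thr 6 4 (.thr 22 38 (.thr 9 13 (.thr 3 12 (.thr 0 2 (.thr 63 42 (.dbl 23 20 43))))))) (.rp 25 (.thr 6 4 (.thr 22 38 (.thr 9 13 (.thr 41 61 (.dbl 3 12 60))))) (.rp 13 (.thr 6 4 (.thr 22 38 (.thr 41 61 (.thr 3 60 (.thr 0 2 (.thr 63 42 (.dbl 23 20 43))))))) (.rp 9 (.str 11 (.nv (.thr 3 15 (.thr 0 2 (.thr 6 4 (.thr 22 38 (.dbl 41 60 61))))) (.nv (.thr 41 61 (.thr 15 3 (.dbl 26 48 56))) (.rp 61 (.thr 6 4 (.thr 22 38 (.thr 20 23 (.thr 3 15 (.thr 0 2 (.dbl 60 40 41)))))) (.rp 41 (.thr 6 4 (.thr 22 38 (.thr 3 15 (.thr 0 2 (.thr 63 42 (.dbl 23 20 43)))))) (.rp 15 (.thr 6 4 (.thr 22 38 (.thr 41 61 (.thr 3 60 (.thr 0 2 (.thr 63 42 (.dbl 23 20 43))))))) (.rp 6 (.thr 41 61 (.thr 26 56 (.dbl 15 3 48))) (.rp 3 (.thr 6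 4 (.thr 22 38 (.thr 41 61 (.thr 26 56 (.thr 16 31 (.thr 18 30 (.thr 17 19 (.dbl 33 45 49)))))))) .nd)))))))) .nd)))))))) (.rp 54 (.str 55 (.nv (.thr 9 13 (.thr 38 4 (.dbl 39 23 36))) (.nv (.dbl 4 6 38) (.rp 38 (.thr 41 61 (.thr 33 45 (.thr 49 17 (.dbl 13 9 25)))) (.rp 9 (.str 11 (.nv (.thr 41 61 (.thr 26 56 (.dbl 15 3 48))) (.nv (.dbl 4 6 38) .nd))) (.rp 4 (.thr 41 61 (.thr 33 45 (.thr 49 17 (.dbl 13 9 25)))) .nd)))))) (.rp 49 (.thr 9 13 (.thr 6 4 (.thr 3 12 (.thr 0 2 (.thr 15 11 (.thr 63 42 (.thr 31 47 (.dbl 26 16 48)))))))) (.rp 45 (.thr 41 61 (.thr 4 6 (.thr 55 38 (.thr 23 39 (.thr 22 20 (.thr 3 60 (.thr 63 43 (.dbl 0 2 42)))))))) (.rp 41 (.thr 9 13 (.thr 6 4 (.thr 3 12 (.thr 0 2 (.thr 15 11 (.thr 63 42 (.thr 31 47 (.dbl 26 16 48)))))))) (.rp 33 (.thr 41 61 (.thr 9 13 (.thr 6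 4 (.thr 3 12 (.thr 0 2 (.thr 60 22 (.thr 42 63 (.dbl 40 20 43)))))))) (.rp 29 (.thr 41 61 (.thr 45 33 (.thr 9 13 (.thr 6 4 (.thr 3 12 (.thr 0 2 (.thr 15 11 (.dbl 60 22 30)))))))) (.rp 25 (.thr 41 61 (.thr 45 33 (.thr 9 13 (.thr 6 4 (.thr 3 12 (.thr 0 2 (.thr 15 11 (.dbl 60 22 30)))))))) (.rp 17 (.thr 41 61 (.thr 45 33 (.thr 9 13 (.thr 6 4 (.thr 3 12 (.thr 0 2 (.thr 15 11 (.dbl 60 22 30)))))))) (.rp 13 (.thr 41 61 (.thr 4 6 (.thr 55 38 (.thr 23 39 (.thr 22 20 (.thr 3 60 (.thr 63 43 (.dbl 0 2 42)))))))) (.rp 11 (.thr 9 13 (.thr 41 61 (.thr 6 4 (.thr 3 12 (.thr 0 2 (.thr 60 22 (.thr 42 63 (.dbl 40 20 43)))))))) (.rp 9 (.str 11 (.nv (.thr 41 61 (.thr 26 56 (.dbl 15 3 48))) (.nv (.thr 15 3 (.thr 26 48 (.dbl 41 56 61))) (.nv (.thr 41 61 (.thr 15 3 (.dbl 26 48 56))) (.rp 61 (.thr 3 15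 (.thr 4 6 (.thr 55 38 (.thr 23 39 (.thr 63 43 (.dbl 0 2 42)))))) (.rp 56 (.thr 41 61 (.thr 3 15 (.thr 4 6 (.thr 55 38 (.thr 23 39 (.dbl 22 20 60)))))) (.rp 55 (.str 54 (.nv (.thr 3 15 (.thr 0 2 (.thr 6 4 (.thr 22 38 (.dbl 41 60 61))))) (.nv (.thr 41 61 (.thr 15 3 (.dbl 26 48 56))) (.rp 61 (.thr 6 4 (.thr 22 38 (.thr 20 23 (.thr 3 15 (.thr 0 2 (.dbl 60 40 41)))))) (.rp 41 (.thr 6 4 (.thr 22 38 (.thr 3 15 (.thr 0 2 (.thr 63 42 (.dbl 23 20 43)))))) (.rp 15 (.thr 6 4 (.thr 22 38 (.thr 41 61 (.thr 3 60 (.thr 0 2 (.thr 63 42 (.dbl 23 20 43))))))) (.rp 6 (.thr 41 61 (.thr 26 56 (.dbl 15 3 48))) (.rp 3 (.thr 6 4 (.thr 22 38 (.thr 41 61 (.thr 26 56 (.thr 16 31 (.thr 18 30 (.thr 17 19 (.dbl 33 45 49)))))))) .nd)))))))) (.rp 54 (.str 55 (.nv (.thr 41 61 (.thr 26 56 (.dbl 15 3 48))) (.nv (.dbl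 4 6 38) .nd))) (.rp 48 (.thr 41 61 (.thr 3 15 (.thr 4 6 (.thr 55 38 (.thr 23 39 (.dbl 22 20 60)))))) (.rp 41 (.thr 3 15 (.thr 4 6 (.thr 55 38 (.thr 23 39 (.thr 63 43 (.dbl 0 2 42)))))) (.rp 26 (.thr 41 61 (.thr 3 15 (.thr 4 6 (.thr 55 38 (.thr 23 39 (.dbl 22 20 60)))))) (.rp 15 (.thr 41 61 (.thr 4 6 (.thr 55 38 (.thr 23 39 (.thr 22 20 (.thr 3 60 (.thr 63 43 (.dbl 0 2 42)))))))) (.rp 3 (.thr 41 61 (.thr 33 45 (.thr 49 17 (.thr 26 56 (.thr 48 15 (.thr 50 51 (.thr 38 14 (.dbl 4 6 55)))))))) .nd))))))))))))) .nd)))))))))))))))) (.rp 39 (.str 13 (.nv (.thr 9 1 (.thr 6 4 (.thr 12 3 (.thr 22 52 (.thr 25 49 (.dbl 38 51 54)))))) (.nv (.thr 25 49 (.thr 29 17 (.thr 61 45 (.dbl 1 9 41)))) (.rp 61 (.thr 9 1 (.thr 25 49 (.thr 57 41 (.thr 6 4 (.thr 12 3 (.thr 38 51 (.dbl 22 52 54))))))) (.rp 57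 (.thr 9 1 (.thr 6 4 (.thr 12 3 (.thr 15 14 (.thr 26 48 (.thr 31 16 (.thr 63 47 (.thr 29 46 (.dbl 25 17 49))))))))) (.rp 49 (.thr 9 1 (.thr 6 4 (.thr 12 3 (.thr 22 52 (.thr 15 14 (.thr 26 48 (.thr 31 16 (.thr 63 47 (.thr 29 46 (.dbl 30 18 28)))))))))) (.rp 33 (.thr 9 1 (.thr 25 49 (.thr 17 29 (.thr 6 4 (.thr 12 3 (.thr 38 51 (.dbl 22 52 54))))))) (.rp 25 (.thr 9 1 (.thr 6 4 (.thr 12 3 (.thr 22 52 (.thr 15 14 (.thr 26 48 (.thr 31 16 (.thr 63 47 (.thr 29 46 (.dbl 30 18 28)))))))))) (.rp 17 (.thr 25 49 (.thr 4 6 (.thr 38 55 (.thr 12 51 (.thr 52 22 (.thr 36 20 (.thr 48 24 (.dbl 15 14 26)))))))) (.rp 9 (.str 11 (.nv (.thr 15 3 (.thr 12 14 (.thr 48 26 (.thr 36 24 (.thr 52 22 (.dbl 4 6 20)))))) (.nv (.thr 3 15 (.thr 22 52 (.thr 41 60 (.thr 45 33 (.dbl 61 1 29))))) (.nv (.thr 4 6 (.thr 25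 49 (.thr 38 55 (.thr 15 3 (.dbl 12 14 51))))) (.rp 52 (.thr 15 3 (.thr 25 49 (.thr 12 14 (.thr 38 51 (.dbl 4 6 55))))) (.rp 15 (.thr 25 49 (.thr 29 17 (.thr 22 52 (.thr 28 19 (.thr 31 30 (.thr 20 23 (.dbl 16 24 26))))))) (.rp 3 (.thr 25 49 (.thr 29 17 (.thr 22 52 (.thr 28 19 (.thr 31 30 (.thr 20 23 (.dbl 16 24 26))))))) .nd))))))) (.rp 1 (.thr 25 49 (.thr 17 29 (.thr 22 52 (.thr 23 20 (.thr 19 28 (.thr 31 27 (.dbl 16 18 26))))))) .nd))))))))))) (.rp 38 (.str 13 (.nv (.thr 25 49 (.thr 29 17 (.thr 61 45 (.dbl 1 9 41)))) (.rp 61 (.thr 9 1 (.thr 25 49 (.thr 57 41 (.thr 17 29 (.thr 22 52 (.thr 23 20 (.thr 19 28 (.thr 31 27 (.dbl 16 18 26))))))))) (.rp 57 (.thr 9 1 (.thr 6 4 (.thr 12 3 (.thr 15 14 (.thr 26 48 (.thr 31 16 (.thr 63 47 (.thr 29 46 (.dbl 25 17 49))))))))) (.rp 49 (.thr 9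 1 (.thr 6 4 (.thr 12 3 (.thr 22 52 (.thr 15 14 (.thr 26 48 (.thr 31 16 (.thr 63 47 (.thr 29 46 (.dbl 30 18 28)))))))))) (.rp 45 (.thr 25 49 (.thr 29 17 (.thr 22 52 (.thr 20 23 (.thr 28 19 (.thr 16 24 (.dbl 31 26 30))))))) (.rp 41 (.thr 25 49 (.thr 29 17 (.thr 22 52 (.thr 20 23 (.thr 28 19 (.thr 16 24 (.dbl 31 26 30))))))) (.rp 33 (.thr 25 49 (.thr 17 29 (.thr 22 52 (.thr 23 20 (.thr 19 28 (.thr 31 27 (.dbl 16 18 26))))))) (.rp 29 (.thr 9 1 (.thr 25 49 (.thr 6 4 (.thr 12 3 (.thr 22 52 (.thr 20 23 (.thr 28 19 (.thr 16 24 (.thr 15 14 (.dbl 26 31 48)))))))))) (.rp 25 (.thr 9 1 (.thr 6 4 (.thr 12 3 (.thr 22 52 (.thr 15 14 (.thr 26 48 (.thr 31 16 (.thr 63 47 (.thr 29 46 (.dbl 30 18 28)))))))))) (.rp 17 (.thr 25 49 (.thr 22 52 (.thr 20 23 (.thr 28 19 (.thr 16 24 (.thr 31 26 (.thr 29 30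 (.thr 61 45 (.dbl 1 9 41))))))))) (.rp 11 (.thr 9 1 (.thr 25 49 (.thr 17 29 (.thr 22 52 (.thr 23 20 (.thr 19 28 (.thr 31 27 (.dbl 16 18 26)))))))) (.rp 9 (.str 11 (.nv (.thr 3 15 (.thr 22 52 (.thr 20 23 (.thr 60 41 (.thr 0 40 (.thr 2 1 (.dbl 42 62 63))))))) (.nv (.thr 15 3 (.thr 25 49 (.thr 26 48 (.thr 29 17 (.thr 61 45 (.dbl 41 1 56)))))) (.nv (.thr 3 15 (.thr 22 52 (.thr 23 20 (.thr 25 49 (.thr 19 28 (.thr 27 31 (.dbl 43 59 63))))))) (.nv (.thr 3 15 (.thr 22 52 (.thr 41 60 (.thr 45 33 (.dbl 61 1 29))))) (.rp 15 (.thr 25 49 (.thr 29 17 (.thr 22 52 (.thr 28 19 (.thr 31 30 (.thr 20 23 (.dbl 16 24 26))))))) (.rp 3 (.thr 25 49 (.thr 29 17 (.thr 22 52 (.thr 28 19 (.thr 31 30 (.thr 20 23 (.dbl 16 24 26))))))) .nd))))))) (.rp 1 (.thr 25 49 (.thr 17 29 (.thr 22 52 (.thr 23 20 (.thr 19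 28 (.thr 31 27 (.dbl 16 18 26))))))) .nd)))))))))))))) (.rp 23 (.thr 4 6 (.thr 38 55 (.thr 36 39 (.dbl 52 20 22)))) (.rp 22 (.str 15 (.nv (.thr 4 6 (.thr 38 55 (.thr 39 36 (.thr 51 27 (.thr 12 25 (.thr 26 48 (.dbl 14 13 50))))))) (.nv (.thr 11 3 (.thr 26 48 (.thr 41 56 (.thr 1 61 (.thr 33 45 (.thr 49 17 (.dbl 13 9 25))))))) (.nv (.thr 4 6 (.thr 38 55 (.thr 39 36 (.thr 51 27 (.thr 25 12 (.thr 49 13 (.dbl 48 26 50))))))) (.rp 52 (.thr 6 4 (.thr 26 48 (.thr 31 16 (.thr 63 47 (.thr 3 11 (.thr 9 12 (.thr 0 42 (.dbl 1 2 13)))))))) (.rp 48 (.thr 4 6 (.thr 38 55 (.thr 39 36 (.thr 51 27 (.thr 12 25 (.thr 14 13 (.thr 26 50 (.thr 31 16 (.thr 63 47 (.thr 46 29 (.dbl 42 0 34))))))))))) (.rp 26 (.thr 4 6 (.thr 38 55 (.thr 39 36 (.thr 51 27 (.thr 25 12 (.thr 13 49 (.thr 29 17 (.thr 61 45 (.dbl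 1 9 41))))))))) (.rp 25 (.thr 4 6 (.thr 38 55 (.thr 11 3 (.thr 26 48 (.thr 14 50 (.thr 41 56 (.thr 1 61 (.dbl 13 9 12)))))))) (.rp 13 (.thr 11 3 (.thr 26 48 (.thr 31 16 (.thr 63 47 (.thr 41 56 (.thr 61 1 (.thr 60 62 (.dbl 45 30 33)))))))) (.rp 11 (.str 9 (.nv (.thr 13 1 (.thr 6 4 (.dbl 12 3 14))) (.rp 14 (.thr 13 1 (.thr 25 49 (.thr 6 4 (.thr 12 3 (.thr 51 38 (.thr 27 39 (.dbl 26 24 48))))))) (.rp 13 (.thr 6 4 (.thr 12 3 (.thr 26 48 (.thr 31 16 (.thr 63 47 (.thr 29 46 (.thr 25 17 (.thr 51 38 (.dbl 27 24 39))))))))) (.rp 12 (.thr 13 1 (.thr 49 25 (.thr 4 6 (.thr 38 55 (.thr 39 36 (.thr 51 27 (.dbl 48 26 50))))))) (.rp 6 (.thr 13 1 (.thr 25 49 (.thr 26 48 (.thr 27 24 (.thr 51 39 (.dbl 12 14 38)))))) (.rp 4 (.thr 13 1 (.thr 25 49 (.thr 12 14 (.thr 51 38 (.thr 27 39 (.dbl 26 24 48))))))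 (.rp 3 (.thr 13 1 (.thr 25 49 (.thr 4 6 (.thr 38 55 (.dbl 12 14 51))))) (.rp 1 (.thr 4 6 (.thr 38 55 (.thr 39 36 (.thr 51 27 (.thr 25 12 (.thr 49 13 (.dbl 48 26 50))))))) .nd))))))))) (.rp 9 (.thr 11 3 (.thr 26 48 (.thr 31 16 (.thr 63 47 (.thr 41 56 (.thr 61 1 (.thr 60 62 (.dbl 45 30 33)))))))) .nd))))))))))) (.rp 20 (.thr 52 22 (.str 15 (.nv (.thr 4 6 (.thr 38 55 (.thr 39 36 (.thr 51 27 (.thr 12 25 (.thr 26 48 (.dbl 14 13 50))))))) (.nv (.thr 11 3 (.thr 26 48 (.thr 41 56 (.thr 1 61 (.thr 33 45 (.thr 49 17 (.dbl 13 9 25))))))) (.nv (.thr 4 6 (.thr 38 55 (.thr 39 36 (.thr 51 27 (.thr 25 12 (.thr 49 13 (.dbl 48 26 50))))))) (.rp 48 (.thr 4 6 (.thr 38 55 (.thr 39 36 (.thr 51 27 (.thr 12 25 (.thr 14 13 (.thr 26 50 (.thr 31 16 (.thr 63 47 (.thr 46 29 (.dbl 42 0 34))))))))))) (.rp 26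 (.thr 4 6 (.thr 38 55 (.thr 39 36 (.thr 51 27 (.thr 25 12 (.thr 13 49 (.thr 29 17 (.thr 61 45 (.dbl 1 9 41))))))))) (.rp 25 (.thr 4 6 (.thr 38 55 (.thr 11 3 (.thr 26 48 (.thr 14 50 (.thr 41 56 (.thr 1 61 (.dbl 13 9 12)))))))) (.rp 13 (.thr 11 3 (.thr 26 48 (.thr 31 16 (.thr 63 47 (.thr 41 56 (.thr 61 1 (.thr 60 62 (.dbl 45 30 33)))))))) (.rp 11 (.str 9 (.nv (.thr 1 13 (.thr 41 61 (.thr 45 33 (.thr 48 26 (.dbl 60 30 56))))) (.nv (.thr 13 1 (.thr 6 4 (.dbl 12 3 14))) (.rp 13 (.thr 4 6 (.thr 38 55 (.thr 39 36 (.thr 51 27 (.thr 25 12 (.thr 57 41 (.thr 60 54 (.dbl 48 26 56)))))))) (.rp 1 (.thr 4 6 (.thr 38 55 (.thr 39 36 (.thr 51 27 (.thr 25 12 (.thr 49 13 (.dbl 48 26 50))))))) .nd))))) (.rp 9 (.thr 11 3 (.thr 26 48 (.thr 31 16 (.thr 63 47 (.thr 41 56 (.thr 61 1 (.thr 60 62 (.dbl 45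 30 33)))))))) .nd))))))))))) (.rp 11 (.str 9 (.nv (.thr 1 13 (.thr 22 52 (.thr 41 61 (.thr 3 60 (.dbl 6 4 12))))) (.nv (.thr 4 6 (.thr 22 52 (.thr 55 38 (.dbl 23 20 39)))) (.rp 55 (.thr 13 1 (.thr 25 49 (.thr 6 4 (.thr 12 3 (.thr 38 51 (.dbl 22 52 54)))))) (.rp 52 (.thr 13 1 (.thr 25 49 (.thr 6 4 (.thr 12 3 (.thr 51 38 (.thr 15 14 (.thr 27 39 (.dbl 26 24 48)))))))) (.rp 22 (.thr 13 1 (.thr 25 49 (.thr 4 6 (.thr 38 55 (.thr 36 39 (.thr 12 51 (.thr 48 24 (.dbl 15 14 26)))))))) (.rp 6 (.thr 1 13 (.thr 41 61 (.thr 22 52 (.thr 23 20 (.thr 3 60 (.thr 63 43 (.dbl 0 2 42))))))) (.rp 4 (.thr 1 13 (.thr 41 61 (.thr 22 52 (.thr 3 60 (.thr 0 2 (.thr 63 42 (.dbl 23 20 43))))))) .nd)))))))) (.rp 9 (.str 11 (.nv (.thr 4 6 (.thr 22 52 (.thr 55 38 (.dbl 23 20 39)))) (.nv (.thr 22 52 (.thr 23 20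 (.thr 55 39 (.dbl 4 6 38)))) (.rp 55 (.thr 15 3 (.thr 26 48 (.thr 41 56 (.thr 61 1 (.thr 31 16 (.thr 63 47 (.thr 60 62 (.dbl 45 30 33)))))))) (.rp 52 (.thr 3 15 (.thr 4 6 (.thr 55 38 (.thr 23 39 (.thr 63 43 (.thr 22 20 (.thr 41 60 (.thr 1 61 (.dbl 0 2 42))))))))) (.rp 39 (.thr 3 15 (.thr 22 52 (.thr 41 60 (.thr 1 61 (.thr 23 20 (.thr 63 43 (.dbl 0 2 42))))))) (.rp 38 (.thr 15 3 (.thr 22 52 (.thr 23 20 (.thr 26 48 (.thr 31 16 (.thr 27 19 (.dbl 39 51 55))))))) (.rp 23 (.thr 4 6 (.thr 38 55 (.thr 36 39 (.dbl 52 20 22)))) (.rp 22 (.thr 15 3 (.thr 26 48 (.thr 41 56 (.thr 61 1 (.thr 31 16 (.thr 63 47 (.thr 60 62 (.dbl 45 30 33)))))))) (.rp 20 (.thr 15 3 (.thr 26 48 (.thr 41 56 (.thr 61 1 (.thr 31 16 (.thr 63 47 (.thr 60 62 (.dbl 45 30 33)))))))) (.rp 6 (.thr 3 15 (.thr 22 52 (.thr 41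 60 (.thr 1 61 (.thr 23 20 (.thr 63 43 (.dbl 0 2 42))))))) (.rp 4 (.thr 3 15 (.thr 22 52 (.thr 41 60 (.thr 1 61 (.thr 0 2 (.thr 63 42 (.dbl 23 20 43))))))) .nd)))))))))))) (.rp 6 (.str 31 (.nv (.thr 22 52 (.thr 23 20 (.thr 26 16 (.thr 15 48 (.thr 63 47 (.dbl 3 11 43)))))) (.nv (.thr 22 52 (.thr 26 16 (.thr 15 48 (.thr 30 18 (.thr 60 45 (.dbl 3 11 41)))))) (.nv (.thr 22 52 (.thr 23 20 (.thr 19 27 (.thr 25 28 (.thr 17 29 (.dbl 16 18 26)))))) (.rp 55 (.thr 26 16 (.thr 15 48 (.thr 63 47 (.thr 11 3 (.thr 41 56 (.thr 61 1 (.thr 60 62 (.dbl 45 30 33)))))))) (.rp 54 (.thr 26 16 (.thr 15 48 (.thr 63 47 (.thr 11 3 (.thr 41 56 (.thr 61 1 (.thr 60 62 (.dbl 45 30 33)))))))) (.rp 52 (.str 55 (.nv (.thr 39 23 (.dbl 38 4 36)) (.rp 39 (.thr 38 4 (.thr 26 16 (.thr 15 48 (.thr 63 47 (.thr 14 50 (.thr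 12 13 (.dbl 51 25 59))))))) (.rp 38 (.thr 23 39 (.thr 26 16 (.thr 15 48 (.thr 63 47 (.dbl 3 11 43))))) (.rp 36 (.thr 23 39 (.thr 26 16 (.thr 15 48 (.thr 63 47 (.dbl 3 11 43))))) (.rp 23 (.thr 38 4 (.thr 26 16 (.thr 15 48 (.thr 63 47 (.thr 51 59 (.dbl 39 27 36)))))) (.rp 14 (.str 2 (.nv (.thr 39 23 (.dbl 38 4 36)) (.rp 39 (.thr 26 16 (.thr 15 48 (.thr 63 47 (.thr 0 42 (.dbl 3 1 11))))) (.rp 38 (.thr 39 23 (.thr 26 16 (.thr 15 48 (.thr 51 27 (.dbl 63 47 59))))) (.rp 36 (.thr 39 23 (.thr 26 16 (.thr 15 48 (.thr 51 27 (.dbl 63 47 59))))) (.rp 23 (.thr 26 16 (.thr 15 48 (.thr 63 47 (.thr 0 42 (.dbl 3 1 11))))) (.rp 11 (.str 9 (.nv (.thr 39 23 (.dbl 38 4 36)) (.rp 39 (.thr 1 13 (.thr 0 3 (.thr 63 42 (.thr 15 47 (.dbl 26 16 48))))) (.rp 38 (.thr 39 23 (.thr 26 16 (.thr 15 48 (.thr 51 27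 (.dbl 63 47 59))))) (.rp 36 (.thr 39 23 (.thr 26 16 (.thr 15 48 (.thr 51 27 (.dbl 63 47 59))))) (.rp 23 (.thr 1 13 (.thr 0 3 (.thr 63 42 (.thr 15 47 (.dbl 26 16 48))))) (.rp 4 (.thr 39 23 (.thr 26 16 (.thr 15 48 (.thr 51 27 (.dbl 63 47 59))))) .nd))))))) (.rp 9 (.str 11 (.nv (.thr 38 4 (.dbl 39 23 36)) (.nv (.thr 26 16 (.dbl 15 3 48)) (.rp 12 (.thr 3 15 (.str 13 (.nv (.thr 0 1 (.thr 42 63 (.thr 32 47 (.dbl 16 26 48)))) (.nv (.thr 39 23 (.dbl 38 4 36)) (.rp 0 (.thr 4 38 (.thr 23 39 (.thr 27 19 (.dbl 43 59 63)))) .nd))))) (.rp 3 (.str 12 (.nv (.thr 26 16 (.thr 38 4 (.thr 36 39 (.dbl 48 15 24)))) (.nv (.thr 38 4 (.dbl 39 23 36)) (.rp 39 (.thr 26 16 (.thr 15 48 (.thr 38 4 (.thr 51 25 (.dbl 63 47 59))))) (.rp 38 (.thr 26 16 (.thr 15 48 (.thr 39 23 (.thr 51 27 (.dbl 63 47 59))))) (.rp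 36 (.thr 26 16 (.thr 15 48 (.thr 39 23 (.thr 51 27 (.dbl 63 47 59))))) (.rp 4 (.thr 26 16 (.thr 48 15 (.thr 36 24 (.dbl 39 23 38)))) .nd))))))) .nd))))) (.rp 4 (.thr 39 23 (.thr 26 16 (.thr 15 48 (.thr 51 27 (.dbl 63 47 59))))) .nd))))))))) (.rp 11 (.str 9 (.nv (.thr 39 23 (.dbl 38 4 36)) (.rp 39 (.thr 13 1 (.thr 38 4 (.thr 26 16 (.thr 15 48 (.dbl 14 12 50))))) (.rp 38 (.thr 13 1 (.thr 25 49 (.thr 23 39 (.thr 19 27 (.dbl 22 20 28))))) (.rp 36 (.thr 13 1 (.thr 25 49 (.thr 23 39 (.thr 19 27 (.dbl 22 20 28))))) (.rp 23 (.thr 13 1 (.thr 38 4 (.thr 26 16 (.thr 15 48 (.dbl 14 12 50))))) (.rp 14 (.str 2 (.nv (.thr 39 23 (.dbl 38 4 36)) (.rp 39 (.thr 1 13 (.thr 0 3 (.thr 63 42 (.thr 15 47 (.dbl 26 16 48))))) (.rp 38 (.thr 39 23 (.thr 26 16 (.thr 15 48 (.thr 51 27 (.dbl 63 47 59))))) (.rp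 36 (.thr 39 23 (.thr 26 16 (.thr 15 48 (.thr 51 27 (.dbl 63 47 59))))) (.rp 23 (.thr 1 13 (.thr 0 3 (.thr 63 42 (.thr 15 47 (.dbl 26 16 48))))) (.rp 4 (.thr 39 23 (.thr 26 16 (.thr 15 48 (.thr 51 27 (.dbl 63 47 59))))) .nd))))))) (.rp 4 (.thr 13 1 (.thr 25 49 (.thr 23 39 (.thr 19 27 (.dbl 22 20 28))))) (.rp 2 (.str 14 (.nv (.thr 13 1 (.thr 26 16 (.dbl 15 12 48))) (.nv (.thr 39 23 (.dbl 38 4 36)) .nd))) .nd))))))))) (.rp 9 (.str 11 (.nv (.thr 38 4 (.dbl 39 23 36)) (.nv (.thr 26 16 (.dbl 15 3 48)) (.rp 14 (.str 2 (.nv (.thr 38 4 (.dbl 39 23 36)) (.nv (.thr 26 16 (.dbl 15 3 48)) (.rp 12 (.thr 3 15 (.str 13 (.nv (.thr 0 1 (.thr 42 63 (.thr 32 47 (.dbl 16 26 48)))) (.nv (.thr 39 23 (.dbl 38 4 36)) (.rp 0 (.thr 4 38 (.thr 23 39 (.thr 27 19 (.dbl 43 59 63)))) .nd))))) (.rp 3 (.str 12 (.nv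 (.thr 26 16 (.thr 38 4 (.thr 36 39 (.dbl 48 15 24)))) (.nv (.thr 38 4 (.dbl 39 23 36)) (.rp 39 (.thr 26 16 (.thr 15 48 (.thr 38 4 (.thr 51 25 (.dbl 63 47 59))))) (.rp 38 (.thr 26 16 (.thr 15 48 (.thr 39 23 (.thr 51 27 (.dbl 63 47 59))))) (.rp 36 (.thr 26 16 (.thr 15 48 (.thr 39 23 (.thr 51 27 (.dbl 63 47 59))))) (.rp 4 (.thr 26 16 (.thr 48 15 (.thr 36 24 (.dbl 39 23 38)))) .nd))))))) .nd))))) (.rp 12 (.thr 3 15 (.thr 39 23 (.dbl 38 4 36))) (.rp 3 (.str 12 (.nv (.thr 26 16 (.thr 15 48 (.thr 14 13 (.dbl 38 4 50)))) (.nv (.thr 38 4 (.dbl 39 23 36)) (.rp 38 (.thr 39 23 (.thr 26 16 (.thr 15 48 (.thr 63 47 (.dbl 51 27 59))))) (.rp 14 (.str 2 (.nv (.thr 26 16 (.thr 38 4 (.thr 36 39 (.dbl 48 15 24)))) (.nv (.thr 38 4 (.dbl 39 23 36)) (.rp 39 (.thr 26 16 (.thr 15 48 (.thr 38 4 (.thr 51 25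 (.dbl 63 47 59))))) (.rp 38 (.thr 26 16 (.thr 15 48 (.thr 39 23 (.thr 51 27 (.dbl 63 47 59))))) (.rp 36 (.thr 26 16 (.thr 15 48 (.thr 39 23 (.thr 51 27 (.dbl 63 47 59))))) (.rp 4 (.thr 26 16 (.thr 48 15 (.thr 36 24 (.dbl 39 23 38)))) .nd))))))) (.rp 4 (.thr 39 23 (.thr 36 38 (.thr 26 16 (.dbl 48 15 24)))) (.rp 2 (.str 14 (.nv (.thr 38 4 (.dbl 39 23 36)) (.nv (.thr 15 13 (.dbl 26 16 48)) (.rp 1 (.str 0 (.nv (.thr 38 4 (.dbl 39 23 36)) (.nv (.thr 26 16 (.dbl 15 13 48)) .nd))) (.rp 0 (.str 1 (.nv (.thr 38 4 (.dbl 39 23 36)) (.nv (.thr 15 13 (.dbl 26 16 48)) .nd))) .nd))))) .nd))))))) (.rp 2 (.str 14 (.nv (.thr 38 4 (.dbl 39 23 36)) (.nv (.thr 26 16 (.dbl 15 3 48)) (.rp 12 (.thr 3 15 (.thr 39 23 (.dbl 38 4 36))) (.rp 3 (.str 12 (.nv (.thr 38 4 (.dbl 39 23 36)) (.nv (.thr 15 13 (.dbl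 26 16 48)) (.rp 1 (.str 0 (.nv (.thr 38 4 (.dbl 39 23 36)) (.nv (.thr 26 16 (.dbl 15 13 48)) .nd))) (.rp 0 (.str 1 (.nv (.thr 38 4 (.dbl 39 23 36)) (.nv (.thr 15 13 (.dbl 26 16 48)) .nd))) .nd))))) .nd))))) .nd))))))) (.rp 4 (.thr 23 39 (.thr 26 16 (.thr 15 48 (.thr 63 47 (.dbl 3 11 43))))) (.rp 2 (.str 14 (.nv (.thr 26 16 (.dbl 38 4 50)) (.nv (.thr 39 23 (.dbl 38 4 36)) (.rp 38 (.thr 39 23 (.thr 26 16 (.thr 15 48 (.thr 63 47 (.dbl 51 27 59))))) (.rp 11 (.str 9 (.nv (.thr 13 1 (.thr 26 16 (.dbl 15 12 48))) (.nv (.thr 39 23 (.dbl 38 4 36)) .nd))) (.rp 9 (.str 11 (.nv (.thr 38 4 (.dbl 39 23 36)) (.nv (.thr 26 16 (.dbl 15 3 48)) (.rp 12 (.thr 3 15 (.thr 39 23 (.dbl 38 4 36))) (.rp 3 (.str 12 (.nv (.thr 38 4 (.dbl 39 23 36)) (.nv (.thr 15 13 (.dbl 26 16 48)) (.rp 1 (.str 0 (.nv (.thr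 38 4 (.dbl 39 23 36)) (.nv (.thr 26 16 (.dbl 15 13 48)) .nd))) (.rp 0 (.str 1 (.nv (.thr 38 4 (.dbl 39 23 36)) (.nv (.thr 15 13 (.dbl 26 16 48)) .nd))) .nd))))) .nd))))) (.rp 4 (.thr 39 23 (.thr 26 16 (.dbl 38 36 50))) .nd))))))) .nd))))))))))) (.rp 26 (.thr 22 52 (.thr 23 20 (.thr 19 27 (.thr 25 28 (.thr 29 17 (.thr 13 49 (.thr 61 45 (.dbl 1 9 41)))))))) (.rp 22 (.thr 26 16 (.thr 15 48 (.thr 63 47 (.thr 11 3 (.thr 41 56 (.thr 61 1 (.thr 60 62 (.dbl 45 30 33)))))))) (.rp 16 (.thr 22 52 (.thr 23 20 (.thr 19 27 (.thr 28 25 (.thr 30 29 (.thr 26 18 (.thr 15 48 (.thr 60 45 (.dbl 3 11 41))))))))) (.rp 14 (.str 2 (.nv (.thr 26 16 (.thr 15 48 (.thr 63 47 (.thr 0 42 (.dbl 3 1 11))))) (.nv (.thr 22 52 (.thr 23 20 (.thr 19 27 (.thr 25 28 (.thr 17 29 (.dbl 16 18 26)))))) (.nv (.thr 22 52 (.thr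 42 62 (.thr 47 32 (.dbl 63 0 15)))) (.rp 11 (.str 9 (.nv (.thr 22 52 (.thr 42 62 (.thr 47 32 (.dbl 63 0 15)))) (.nv (.thr 13 1 (.thr 22 52 (.thr 23 20 (.thr 19 27 (.dbl 25 28 49))))) (.nv (.thr 26 16 (.thr 1 13 (.thr 15 48 (.thr 63 47 (.dbl 0 3 42))))) .nd)))) (.rp 9 (.str 11 (.nv (.thr 3 15 (.thr 0 1 (.thr 22 52 (.dbl 42 62 63)))) (.nv (.thr 26 16 (.dbl 15 3 48)) (.rp 15 (.thr 26 16 (.thr 41 56 (.thr 1 61 (.thr 3 0 (.dbl 22 52 60))))) (.rp 12 (.thr 3 15 (.str 13 (.nv (.thr 26 16 (.thr 41 56 (.dbl 1 0 61))) (.nv (.thr 0 1 (.thr 22 52 (.dbl 42 62 63))) (.rp 1 (.thr 26 16 (.thr 41 56 (.dbl 22 52 60))) (.rp 0 (.str 4 (.nv (.thr 26 16 (.thr 41 56 (.thr 45 33 (.dbl 61 1 29)))) (.nv (.thr 38 55 (.thr 52 22 (.dbl 36 20 39))) .nd))) .nd)))))) (.rp 3 (.str 12 (.nv (.thr 22 52 (.thr 42 62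 (.thr 47 32 (.dbl 63 0 15)))) (.nv (.thr 26 16 (.thr 48 15 (.thr 52 22 (.dbl 56 41 60)))) (.rp 54 (.thr 26 16 (.thr 48 15 (.thr 56 41 (.dbl 52 22 60)))) (.rp 52 (.thr 26 16 (.thr 48 15 (.thr 24 36 (.thr 25 27 (.thr 49 13 (.dbl 51 38 50)))))) (.rp 22 (.thr 26 16 (.thr 48 15 (.thr 24 36 (.thr 25 27 (.thr 49 13 (.dbl 51 38 50)))))) (.rp 15 (.thr 16 26 (.thr 22 52 (.thr 42 62 (.thr 32 47 (.dbl 0 48 63))))) .nd))))))) .nd)))))) .nd)))))) (.rp 11 (.str 9 (.nv (.thr 16 26 (.thr 22 52 (.thr 23 20 (.thr 19 27 (.thr 17 18 (.dbl 25 28 29)))))) (.nv (.thr 1 13 (.thr 26 16 (.thr 15 48 (.thr 41 61 (.thr 45 33 (.thr 30 60 (.dbl 22 18 52))))))) (.nv (.thr 13 1 (.thr 25 49 (.thr 22 52 (.thr 28 19 (.dbl 29 17 30))))) (.rp 52 (.thr 13 1 (.thr 25 49 (.thr 17 29 (.thr 16 26 (.thr 19 18 (.thr 23 27 (.dbl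 22 20 28))))))) (.rp 22 (.thr 13 1 (.thr 25 49 (.thr 26 16 (.thr 15 48 (.thr 27 24 (.thr 23 19 (.dbl 39 51 55))))))) (.rp 14 (.str 2 (.nv (.thr 22 52 (.thr 42 62 (.thr 47 32 (.dbl 63 0 15)))) (.nv (.thr 13 1 (.thr 22 52 (.thr 23 20 (.thr 19 27 (.dbl 25 28 49))))) (.nv (.thr 26 16 (.thr 1 13 (.thr 15 48 (.thr 63 47 (.dbl 0 3 42))))) .nd)))) (.rp 2 (.str 14 (.nv (.thr 13 1 (.thr 22 52 (.thr 23 20 (.thr 19 27 (.dbl 25 28 49))))) (.nv (.thr 26 16 (.thr 38 50 (.thr 39 36 (.dbl 55 4 23)))) (.nv (.thr 13 1 (.thr 26 16 (.dbl 15 12 48))) .nd)))) .nd)))))))) (.rp 9 (.str 11 (.nv (.thr 3 15 (.thr 22 52 (.thr 26 16 (.dbl 41 56 60)))) (.nv (.thr 26 16 (.dbl 15 3 48)) (.rp 26 (.thr 3 15 (.thr 22 52 (.thr 23 20 (.thr 43 63 (.dbl 27 19 59))))) (.rp 16 (.thr 3 15 (.thr 22 52 (.thr 23 20 (.thr 43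 63 (.dbl 27 19 59))))) (.rp 15 (.thr 22 52 (.thr 23 20 (.thr 19 27 (.thr 25 28 (.thr 17 29 (.dbl 16 18 26)))))) (.rp 14 (.str 2 (.nv (.thr 3 15 (.thr 0 1 (.thr 22 52 (.dbl 42 62 63)))) (.nv (.thr 26 16 (.dbl 15 3 48)) (.rp 15 (.thr 26 16 (.thr 41 56 (.thr 1 61 (.thr 3 0 (.dbl 22 52 60))))) (.rp 12 (.thr 3 15 (.str 13 (.nv (.thr 26 16 (.thr 41 56 (.dbl 1 0 61))) (.nv (.thr 0 1 (.thr 22 52 (.dbl 42 62 63))) (.rp 1 (.thr 26 16 (.thr 41 56 (.dbl 22 52 60))) (.rp 0 (.str 4 (.nv (.thr 26 16 (.thr 41 56 (.thr 45 33 (.dbl 61 1 29)))) (.nv (.thr 38 55 (.thr 52 22 (.dbl 36 20 39))) .nd))) .nd)))))) (.rp 3 (.str 12 (.nv (.thr 22 52 (.thr 42 62 (.thr 47 32 (.dbl 63 0 15)))) (.nv (.thr 26 16 (.thr 48 15 (.thr 52 22 (.dbl 56 41 60)))) (.rp 54 (.thr 26 16 (.thr 48 15 (.thr 56 41 (.dbl 52 22 60))))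 (.rp 52 (.thr 26 16 (.thr 48 15 (.thr 24 36 (.thr 25 27 (.thr 49 13 (.dbl 51 38 50)))))) (.rp 22 (.thr 26 16 (.thr 48 15 (.thr 24 36 (.thr 25 27 (.thr 49 13 (.dbl 51 38 50)))))) (.rp 15 (.thr 16 26 (.thr 22 52 (.thr 42 62 (.thr 32 47 (.dbl 0 48 63))))) .nd))))))) .nd)))))) (.rp 3 (.str 12 (.nv (.thr 22 52 (.thr 23 20 (.thr 19 27 (.thr 25 28 (.thr 38 51 (.dbl 39 36 55)))))) (.nv (.thr 26 16 (.thr 15 48 (.thr 63 47 (.thr 29 46 (.thr 25 17 (.dbl 13 14 49)))))) (.nv (.thr 52 22 (.thr 26 16 (.thr 48 15 (.dbl 56 41 60)))) (.rp 16 (.thr 22 52 (.thr 23 20 (.thr 55 39 (.thr 27 19 (.thr 59 43 (.thr 51 63 (.dbl 38 4 25))))))) (.rp 14 (.str 2 (.nv (.thr 22 52 (.thr 42 62 (.thr 47 32 (.dbl 63 0 15)))) (.nv (.thr 26 16 (.thr 48 15 (.thr 52 22 (.dbl 56 41 60)))) (.rp 54 (.thr 26 16 (.thr 48 15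 (.thr 56 41 (.dbl 52 22 60)))) (.rp 52 (.thr 26 16 (.thr 48 15 (.thr 24 36 (.thr 25 27 (.thr 49 13 (.dbl 51 38 50)))))) (.rp 22 (.thr 26 16 (.thr 48 15 (.thr 24 36 (.thr 25 27 (.thr 49 13 (.dbl 51 38 50)))))) (.rp 15 (.thr 16 26 (.thr 22 52 (.thr 42 62 (.thr 32 47 (.dbl 0 48 63))))) .nd))))))) (.rp 2 (.str 14 (.nv (.thr 26 16 (.thr 38 50 (.thr 39 36 (.dbl 55 4 23)))) (.nv (.thr 15 13 (.dbl 26 16 48)) (.rp 26 (.thr 15 13 (.thr 22 52 (.thr 23 20 (.thr 27 19 (.dbl 39 51 55))))) (.rp 16 (.thr 15 13 (.thr 22 52 (.thr 23 20 (.thr 27 19 (.dbl 39 51 55))))) (.rp 1 (.str 0 (.nv (.thr 16 26 (.thr 32 48 (.dbl 42 47 63))) (.nv (.thr 15 13 (.dbl 63 42 47)) (.nv (.thr 15 13 (.dbl 26 16 48)) .nd)))) (.rp 0 (.str 1 (.nv (.thr 26 16 (.dbl 41 56 61)) (.nv (.thr 13 15 (.thr 25 49 (.thr 29 17 (.dbl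 61 41 45)))) (.nv (.thr 15 13 (.dbl 26 16 48)) .nd)))) .nd))))))) .nd))))))) (.rp 2 (.str 14 (.nv (.thr 3 15 (.thr 22 52 (.thr 26 16 (.dbl 41 56 60)))) (.nv (.thr 26 16 (.dbl 15 3 48)) (.rp 26 (.thr 3 15 (.thr 22 52 (.thr 23 20 (.thr 43 63 (.dbl 27 19 59))))) (.rp 16 (.thr 3 15 (.thr 22 52 (.thr 23 20 (.thr 43 63 (.dbl 27 19 59))))) (.rp 15 (.thr 26 16 (.thr 38 50 (.thr 55 4 (.dbl 39 23 36)))) (.rp 3 (.str 12 (.nv (.thr 26 16 (.thr 38 50 (.thr 39 36 (.dbl 55 4 23)))) (.nv (.thr 15 13 (.dbl 26 16 48)) (.rp 26 (.thr 15 13 (.thr 22 52 (.thr 23 20 (.thr 27 19 (.dbl 39 51 55))))) (.rp 16 (.thr 15 13 (.thr 22 52 (.thr 23 20 (.thr 27 19 (.dbl 39 51 55))))) (.rp 1 (.str 0 (.nv (.thr 16 26 (.thr 32 48 (.dbl 42 47 63))) (.nv (.thr 15 13 (.dbl 63 42 47)) (.nv (.thr 15 13 (.dbl 26 16 48)) .nd))))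 (.rp 0 (.str 1 (.nv (.thr 26 16 (.dbl 41 56 61)) (.nv (.thr 13 15 (.thr 25 49 (.thr 29 17 (.dbl 61 41 45)))) (.nv (.thr 15 13 (.dbl 26 16 48)) .nd)))) .nd))))))) .nd))))))) .nd))))))))) (.rp 2 (.str 14 (.nv (.thr 26 16 (.thr 15 48 (.thr 11 3 (.thr 41 56 (.thr 1 61 (.dbl 13 9 12)))))) (.nv (.thr 26 16 (.thr 38 50 (.thr 39 36 (.dbl 55 4 23)))) (.rp 26 (.thr 22 52 (.thr 23 20 (.thr 19 27 (.thr 25 28 (.thr 29 17 (.thr 13 49 (.thr 61 45 (.dbl 1 9 41)))))))) (.rp 18 (.thr 22 52 (.thr 23 20 (.thr 55 39 (.thr 26 16 (.dbl 38 4 50))))) (.rp 16 (.thr 22 52 (.thr 23 20 (.thr 55 39 (.thr 19 27 (.thr 28 25 (.thr 30 29 (.thr 26 18 (.dbl 38 4 50)))))))) (.rp 11 (.str 9 (.nv (.thr 13 1 (.thr 22 52 (.thr 23 20 (.thr 19 27 (.dbl 25 28 49))))) (.nv (.thr 26 16 (.thr 38 50 (.thr 39 36 (.dbl 55 4 23))))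 (.nv (.thr 13 1 (.thr 26 16 (.dbl 15 12 48))) .nd)))) (.rp 9 (.str 11 (.nv (.thr 3 15 (.thr 22 52 (.thr 26 16 (.dbl 41 56 60)))) (.nv (.thr 26 16 (.dbl 15 3 48)) (.rp 26 (.thr 3 15 (.thr 22 52 (.thr 23 20 (.thr 43 63 (.dbl 27 19 59))))) (.rp 16 (.thr 3 15 (.thr 22 52 (.thr 23 20 (.thr 43 63 (.dbl 27 19 59))))) (.rp 15 (.thr 26 16 (.thr 38 50 (.thr 55 4 (.dbl 39 23 36)))) (.rp 3 (.str 12 (.nv (.thr 26 16 (.thr 38 50 (.thr 39 36 (.dbl 55 4 23)))) (.nv (.thr 15 13 (.dbl 26 16 48)) (.rp 26 (.thr 15 13 (.thr 22 52 (.thr 23 20 (.thr 27 19 (.dbl 39 51 55))))) (.rp 16 (.thr 15 13 (.thr 22 52 (.thr 23 20 (.thr 27 19 (.dbl 39 51 55))))) (.rp 1 (.str 0 (.nv (.thr 16 26 (.thr 32 48 (.dbl 42 47 63))) (.nv (.thr 15 13 (.dbl 63 42 47)) (.nv (.thr 15 13 (.dbl 26 16 48)) .nd)))) (.rp 0 (.str 1 (.nv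 (.thr 26 16 (.dbl 41 56 61)) (.nv (.thr 13 15 (.thr 25 49 (.thr 29 17 (.dbl 61 41 45)))) (.nv (.thr 15 13 (.dbl 26 16 48)) .nd)))) .nd))))))) .nd))))))) .nd)))))))) .nd)))))))))))))) (.rp 4 (.str 41 (.nv (.thr 22 52 (.thr 3 60 (.thr 33 45 (.thr 48 18 (.dbl 15 11 26))))) (.nv (.thr 22 52 (.thr 20 23 (.thr 60 3 (.thr 0 40 (.thr 61 1 (.dbl 63 42 62)))))) (.nv (.thr 33 45 (.thr 1 61 (.thr 49 17 (.dbl 13 9 25)))) (.rp 12 (.str 0 (.nv (.thr 33 45 (.thr 1 61 (.thr 49 17 (.dbl 13 9 25)))) (.nv (.thr 22 52 (.thr 20 23 (.dbl 60 3 40))) (.rp 11 (.str 9 (.nv (.thr 22 52 (.thr 20 23 (.dbl 60 3 40))) (.nv (.dbl 1 13 61) .nd))) (.rp 9 (.str 11 (.nv (.thr 22 52 (.thr 20 23 (.dbl 60 3 40))) (.nv (.thr 3 15 (.dbl 1 2 61)) (.rp 3 (.str 6 (.nv (.thr 22 52 (.thr 20 23 (.thr 61 1 (.thr 63 42 (.dbl 60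 40 62))))) (.nv (.thr 26 56 (.thr 16 31 (.dbl 48 15 32))) (.rp 40 (.thr 42 63 (.thr 32 47 (.thr 48 16 (.dbl 26 15 56)))) (.rp 26 (.thr 22 52 (.thr 20 23 (.thr 40 60 (.dbl 42 43 63)))) .nd))))) .nd)))) .nd))))) (.rp 11 (.str 9 (.nv (.dbl 1 13 61) (.rp 61 (.thr 13 1 (.dbl 25 49 57)) (.rp 13 (.thr 61 1 (.thr 22 52 (.thr 20 23 (.thr 60 3 (.thr 0 40 (.dbl 63 42 62)))))) (.rp 12 (.str 0 (.nv (.thr 22 52 (.thr 20 23 (.dbl 60 3 40))) (.nv (.dbl 1 13 61) .nd))) (.rp 1 (.thr 25 57 (.thr 22 52 (.thr 3 60 (.thr 12 6 (.thr 51 38 (.dbl 19 28 35)))))) (.rp 0 (.str 12 (.nv (.thr 3 6 (.dbl 22 52 60)) (.nv (.dbl 1 13 61) .nd))) .nd))))))) (.rp 9 (.str 11 (.nv (.thr 15 3 (.dbl 26 48 56)) (.nv (.thr 3 15 (.dbl 22 52 60)) (.rp 15 (.thr 1 61 (.thr 22 52 (.thr 3 60 (.thr 0 2 (.thr 63 42 (.dbl 23 20 43))))))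 (.rp 12 (.str 0 (.nv (.thr 22 52 (.thr 20 23 (.dbl 60 3 40))) (.nv (.thr 3 15 (.dbl 1 2 61)) (.rp 3 (.str 6 (.nv (.thr 22 52 (.thr 20 23 (.thr 61 1 (.thr 63 42 (.dbl 60 40 62))))) (.nv (.thr 26 56 (.thr 16 31 (.dbl 48 15 32))) (.rp 40 (.thr 42 63 (.thr 32 47 (.thr 48 16 (.dbl 26 15 56)))) (.rp 26 (.thr 22 52 (.thr 20 23 (.thr 40 60 (.dbl 42 43 63)))) .nd))))) .nd)))) (.rp 3 (.thr 45 33 (.thr 61 1 (.thr 29 13 (.thr 22 52 (.thr 26 56 (.thr 31 16 (.dbl 30 18 28))))))) (.rp 0 (.str 12 (.nv (.thr 15 3 (.dbl 26 48 56)) (.nv (.thr 3 15 (.dbl 22 52 60)) (.rp 15 (.thr 45 33 (.thr 61 1 (.thr 29 13 (.thr 63 46 (.thr 60 62 (.dbl 22 3 52)))))) (.rp 3 (.thr 33 45 (.thr 1 61 (.thr 49 17 (.thr 13 25 (.thr 15 14 (.dbl 26 48 56)))))) .nd))))) .nd))))))) (.rp 0 (.str 12 (.nv (.thr 1 61 (.thr 22 52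 (.thr 3 60 (.dbl 9 6 13)))) (.nv (.thr 22 52 (.thr 3 60 (.thr 33 45 (.thr 48 18 (.dbl 15 11 26))))) (.nv (.thr 33 45 (.thr 1 61 (.thr 49 17 (.dbl 13 9 25)))) (.rp 11 (.str 9 (.nv (.thr 3 6 (.dbl 22 52 60)) (.nv (.dbl 1 13 61) .nd))) (.rp 9 (.str 11 (.nv (.thr 15 3 (.dbl 26 48 56)) (.nv (.thr 3 15 (.dbl 22 52 60)) (.rp 15 (.thr 45 33 (.thr 61 1 (.thr 29 13 (.thr 63 46 (.thr 60 62 (.dbl 22 3 52)))))) (.rp 3 (.thr 33 45 (.thr 1 61 (.thr 49 17 (.thr 13 25 (.thr 15 14 (.dbl 26 48 56)))))) .nd))))) .nd)))))) .nd)))))))) .nd))))))))))))))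

theorem w335 : WinAt (137441050656, 9007199254742272) :=
  chF (K := []) kn c335 137441050656 9007199254742272 53
    [3840] (by decide +kernel) (by decide +kernel)

/-- A certificate. -/
noncomputable def c336 : Ct := (.str 52 (.nv (.thr 5 53 (.thr 7 22 (.thr 4 6 (.thr 38 55 (.dbl 36 20 39))))) (.nv (.thr 22 7 (.thr 20 23 (.thr 4 36 (.thr 55 38 (.dbl 53 5 54))))) (.rp 55 (.thr 5 53 (.thr 7 22 (.str 42 (.nv (.thr 4 6 (.thr 36 20 (.thr 38 39 (.thr 34 46 (.thr 0 63 (.thr 51 17 (.dbl 12 8 25))))))) (.nv (.thr 4 6 (.thr 32 47 (.thr 36 20 (.thr 38 39 (.thr 34 46 (.thr 35 33 (.dbl 44 40 41))))))) (.nv (.thr 32 47 (.thr 0 63 (.thr 48 16 (.thr 60 56 (.thr 20 40 (.dbl 4 6 36)))))) (.rp 36 (.thr 63 0 (.thr 47 32 (.thr 15 31 (.thr 48 26 (.thr 60 56 (.thr 61 62 (.thr 41 1 (.dbl 45 30 33))))))))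 (.rp 20 (.thr 63 0 (.thr 47 32 (.thr 15 31 (.thr 48 26 (.thr 60 56 (.thr 61 62 (.thr 41 1 (.dbl 45 30 33)))))))) (.rp 11 (.str 8 (.nv (.thr 4 6 (.dbl 0 12 63)) (.nv (.thr 0 63 (.dbl 4 6 12)) (.rp 63 (.thr 4 6 (.thr 36 20 (.thr 38 39 (.thr 12 0 (.dbl 25 51 59))))) (.rp 12 (.thr 0 63 (.thr 32 47 (.thr 48 16 (.thr 60 56 (.thr 20 40 (.dbl 4 6 36)))))) (.rp 6 (.thr 25 59 (.thr 17 29 (.thr 0 63 (.thr 51 34 (.dbl 12 4 38))))) (.rp 4 (.thr 25 59 (.thr 63 0 (.thr 47 32 (.thr 15 31 (.thr 29 17 (.thr 12 46 (.dbl 13 14 49))))))) (.rp 0 (.thr 4 6 (.thr 36 20 (.thr 38 39 (.thr 32 47 (.thr 34 46 (.thr 35 33 (.dbl 44 40 41))))))) .nd)))))))) (.rp 8 (.str 11 (.nv (.thr 0 63 (.thr 32 47 (.thr 48 16 (.dbl 15 3 26)))) (.nv (.thr 15 3 (.thr 47 32 (.dbl 63 0 31))) (.rp 63 (.thr 4 6 (.thr 36 20 (.thr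 38 39 (.thr 32 47 (.thr 44 40 (.thr 34 46 (.dbl 35 33 41))))))) (.rp 47 (.thr 4 6 (.thr 20 36 (.thr 0 63 (.thr 40 60 (.thr 41 43 (.thr 26 56 (.dbl 15 3 48))))))) (.rp 32 (.thr 63 0 (.thr 15 3 (.thr 31 47 (.dbl 26 16 48)))) (.rp 31 (.thr 0 63 (.thr 15 3 (.thr 32 47 (.dbl 48 16 26)))) (.rp 15 (.thr 4 6 (.thr 36 20 (.thr 38 39 (.thr 32 47 (.thr 44 40 (.thr 34 46 (.dbl 35 33 41))))))) (.rp 3 (.thr 0 63 (.thr 32 47 (.thr 48 16 (.thr 56 60 (.thr 41 26 (.thr 33 45 (.thr 35 34 (.thr 44 38 (.dbl 40 36 43))))))))) (.rp 0 (.thr 15 3 (.thr 47 32 (.thr 31 63 (.dbl 26 16 48)))) .nd)))))))))) (.rp 6 (.thr 63 0 (.thr 47 32 (.thr 15 31 (.thr 48 26 (.thr 60 56 (.thr 61 62 (.thr 41 1 (.dbl 45 30 33)))))))) (.rp 4 (.thr 63 0 (.thr 47 32 (.thr 15 31 (.thr 48 26 (.thr 60 56 (.thr 61 62 (.thr 41 1 (.dbl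 45 30 33)))))))) .nd)))))))))))) (.rp 53 (.thr 22 7 (.thr 20 23 (.thr 4 36 (.thr 55 38 (.str 0 (.nv (.thr 60 40 (.thr 48 56 (.thr 26 15 (.dbl 16 31 32)))) (.nv (.thr 8 12 (.thr 42 63 (.thr 25 59 (.thr 28 19 (.thr 32 47 (.dbl 16 24 48)))))) (.nv (.thr 42 63 (.thr 2 62 (.thr 3 1 (.dbl 60 40 41)))) (.nv (.thr 60 40 (.thr 48 56 (.thr 32 16 (.dbl 42 47 63)))) (.rp 48 (.thr 60 40 (.thr 3 41 (.thr 2 1 (.dbl 42 62 63)))) (.rp 8 (.str 11 (.nv (.thr 60 40 (.thr 3 41 (.thr 2 1 (.dbl 42 62 63)))) (.nv (.thr 42 63 (.thr 2 62 (.thr 3 1 (.dbl 60 40 41)))) (.nv (.thr 60 40 (.thr 56 48 (.dbl 41 3 26))) (.rp 63 (.thr 60 40 (.thr 3 41 (.thr 2 1 (.thr 42 62 (.thr 32 47 (.dbl 48 16 56)))))) (.rp 60 (.str 17 (.nv (.thr 51 34 (.dbl 63 42 59)) (.rp 63 (.thr 25 29 (.thr 19 28 (.thr 16 18 (.thr 48 32 (.dbl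 26 15 31))))) (.rp 59 (.thr 25 29 (.thr 49 13 (.thr 1 33 (.thr 2 3 (.dbl 42 62 63))))) (.rp 51 (.thr 25 29 (.thr 49 13 (.thr 1 33 (.thr 2 3 (.dbl 42 62 63))))) (.rp 46 (.thr 25 29 (.thr 49 13 (.thr 1 33 (.thr 2 3 (.dbl 42 62 63))))) (.rp 42 (.thr 25 29 (.thr 19 28 (.thr 16 18 (.thr 48 32 (.dbl 26 15 31))))) (.rp 34 (.thr 25 29 (.thr 49 13 (.thr 1 33 (.thr 2 3 (.dbl 42 62 63))))) .nd)))))))) (.rp 41 (.thr 42 63 (.thr 32 47 (.thr 48 16 (.dbl 60 40 56)))) (.rp 40 (.thr 42 63 (.thr 32 47 (.thr 48 16 (.thr 56 60 (.dbl 26 15 41))))) (.rp 3 (.thr 63 42 (.thr 60 40 (.thr 56 48 (.thr 61 62 (.dbl 41 1 26))))) .nd))))))))) .nd))))))))))) (.rp 39 (.thr 53 5 (.thr 55 54 (.thr 4 38 (.thr 20 36 (.dbl 22 7 23))))) (.rp 38 (.thr 5 53 (.thr 22 7 (.thr 23 20 (.str 3 (.nv (.thr 60 41 (.thr 48 56 (.thr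 18 33 (.dbl 26 15 30)))) (.nv (.thr 63 43 (.thr 42 0 (.thr 62 2 (.dbl 60 41 61)))) (.rp 60 (.thr 63 43 (.thr 0 42 (.thr 1 2 (.thr 41 61 (.thr 33 45 (.thr 48 18 (.thr 16 32 (.dbl 26 15 31)))))))) (.rp 41 (.thr 63 43 (.thr 42 0 (.thr 62 2 (.thr 60 61 (.thr 48 56 (.thr 18 33 (.dbl 26 15 30))))))) (.rp 11 (.str 8 (.nv (.thr 63 43 (.thr 42 0 (.thr 62 2 (.dbl 60 41 61)))) (.nv (.thr 60 41 (.thr 48 56 (.thr 26 15 (.dbl 18 30 33)))) (.rp 60 (.thr 63 43 (.thr 0 42 (.thr 1 2 (.thr 41 61 (.thr 33 45 (.thr 48 18 (.thr 16 32 (.dbl 26 15 31)))))))) (.rp 41 (.thr 63 43 (.thr 42 0 (.thr 47 32 (.thr 62 2 (.thr 15 31 (.thr 60 61 (.dbl 48 26 56))))))) .nd))))) (.rp 8 (.str 11 (.nv (.thr 43 63 (.thr 27 59 (.thr 31 19 (.thr 26 16 (.dbl 41 56 60))))) (.nv (.thr 41 60 (.thr 26 56 (.thr 18 30 (.dbl 33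 45 48)))) (.nv (.thr 41 60 (.thr 1 61 (.thr 63 43 (.dbl 0 2 42)))) (.rp 60 (.thr 43 63 (.thr 27 59 (.thr 31 19 (.thr 26 16 (.thr 48 15 (.dbl 18 30 33)))))) (.rp 41 (.thr 43 63 (.thr 27 59 (.thr 31 19 (.thr 26 16 (.thr 48 15 (.dbl 18 30 33)))))) .nd)))))) .nd)))))))))) (.rp 36 (.thr 7 22 (.str 15 (.nv (.thr 11 3 (.thr 53 5 (.thr 55 54 (.thr 39 23 (.thr 51 27 (.thr 63 59 (.dbl 48 26 58))))))) (.nv (.thr 53 5 (.thr 48 26 (.thr 63 58 (.thr 42 0 (.dbl 47 31 32))))) (.rp 63 (.thr 53 5 (.thr 55 54 (.thr 39 23 (.thr 38 4 (.thr 51 27 (.thr 12 25 (.thr 26 48 (.dbl 14 13 50)))))))) (.rp 58 (.thr 53 5 (.thr 55 54 (.thr 39 23 (.thr 51 27 (.thr 63 59 (.thr 31 47 (.dbl 26 16 48))))))) (.rp 53 (.thr 11 3 (.thr 26 48 (.thr 31 16 (.thr 63 47 (.thr 41 56 (.thr 61 1 (.thr 60 62 (.dbl 45 30 33))))))))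 (.rp 48 (.thr 53 5 (.thr 55 54 (.thr 39 23 (.thr 51 27 (.thr 63 59 (.thr 42 0 (.dbl 47 31 32))))))) (.rp 31 (.thr 53 5 (.thr 55 54 (.thr 39 23 (.thr 48 26 (.thr 63 58 (.thr 42 0 (.dbl 51 27 59))))))) (.rp 26 (.thr 53 5 (.thr 55 54 (.thr 39 23 (.thr 51 27 (.thr 63 59 (.thr 42 0 (.dbl 47 31 32))))))) (.rp 13 (.thr 5 53 (.thr 11 3 (.thr 26 48 (.thr 31 16 (.thr 63 47 (.thr 41 56 (.thr 61 1 (.thr 60 62 (.dbl 45 30 33))))))))) (.rp 11 (.str 8 (.nv (.thr 5 53 (.thr 4 6 (.thr 12 0 (.thr 38 55 (.thr 25 51 (.dbl 13 14 49)))))) (.nv (.thr 48 26 (.thr 53 5 (.thr 63 58 (.thr 42 0 (.dbl 47 31 32))))) (.nv (.thr 5 53 (.thr 4 6 (.thr 12 0 (.thr 14 13 (.thr 38 55 (.dbl 26 48 50)))))) (.rp 53 (.thr 26 48 (.thr 31 16 (.thr 63 47 (.thr 0 42 (.thr 12 4 (.thr 13 14 (.thr 29 46 (.dbl 25 17 49))))))))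 (.rp 13 (.thr 5 53 (.thr 4 6 (.thr 26 48 (.thr 31 16 (.thr 63 47 (.dbl 0 12 42)))))) (.rp 5 (.thr 26 48 (.thr 31 16 (.thr 63 47 (.thr 0 42 (.thr 12 4 (.thr 13 14 (.thr 29 46 (.dbl 25 17 49)))))))) (.rp 0 (.thr 53 5 (.thr 55 54 (.thr 39 23 (.thr 48 26 (.thr 51 27 (.dbl 63 58 59)))))) .nd)))))))) (.rp 5 (.thr 11 3 (.thr 26 48 (.thr 31 16 (.thr 47 63 (.thr 32 42 (.thr 41 56 (.thr 33 45 (.thr 35 34 (.thr 38 44 (.thr 55 4 (.dbl 39 23 43))))))))))) (.rp 1 (.thr 5 53 (.thr 4 6 (.thr 38 55 (.thr 26 48 (.thr 31 16 (.thr 63 47 (.thr 0 42 (.thr 14 50 (.dbl 12 8 13))))))))) .nd)))))))))))))) (.rp 22 (.str 42 (.nv (.thr 47 32 (.thr 63 0 (.thr 15 31 (.thr 48 26 (.dbl 53 5 58))))) (.nv (.thr 47 32 (.thr 63 0 (.thr 53 5 (.thr 15 31 (.dbl 48 26 58))))) (.rp 63 (.thr 32 47 (.thr 53 5 (.thr 55 54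 (.thr 38 4 (.thr 34 46 (.thr 35 33 (.thr 44 41 (.dbl 36 39 40)))))))) (.rp 58 (.thr 32 47 (.thr 0 63 (.thr 48 16 (.thr 60 56 (.thr 40 20 (.thr 41 43 (.thr 45 33 (.dbl 15 26 30)))))))) (.rp 53 (.thr 32 47 (.thr 0 63 (.thr 48 16 (.thr 60 56 (.thr 40 20 (.thr 41 43 (.thr 45 33 (.dbl 15 26 30)))))))) (.rp 48 (.thr 32 47 (.thr 53 5 (.thr 55 54 (.thr 38 4 (.thr 34 46 (.thr 35 33 (.thr 44 41 (.dbl 36 39 40)))))))) (.rp 47 (.thr 0 63 (.thr 53 5 (.thr 55 54 (.thr 38 4 (.thr 34 46 (.thr 36 39 (.thr 51 17 (.thr 12 25 (.thr 48 24 (.thr 50 49 (.dbl 26 14 15))))))))))) (.rp 32 (.thr 0 63 (.thr 53 5 (.thr 55 54 (.thr 38 4 (.thr 34 46 (.thr 36 39 (.thr 51 17 (.thr 12 25 (.thr 48 24 (.thr 50 49 (.dbl 26 14 15))))))))))) (.rp 31 (.thr 32 47 (.thr 53 5 (.thr 55 54 (.thr 38 4 (.thr 34 46 (.thr 35 33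 (.thr 44 41 (.dbl 36 39 40)))))))) (.rp 26 (.thr 32 47 (.thr 0 63 (.thr 48 16 (.thr 60 56 (.thr 20 40 (.thr 4 36 (.thr 55 38 (.dbl 53 5 54)))))))) (.rp 16 (.thr 32 47 (.thr 53 5 (.thr 55 54 (.thr 38 4 (.thr 34 46 (.thr 35 33 (.thr 44 41 (.dbl 36 39 40)))))))) (.rp 15 (.thr 47 32 (.thr 0 63 (.thr 53 5 (.thr 55 54 (.thr 38 4 (.thr 46 34 (.thr 39 36 (.thr 44 45 (.dbl 35 41 43))))))))) (.rp 11 (.str 8 (.nv (.thr 0 63 (.thr 4 12 (.thr 36 20 (.dbl 38 39 55)))) (.nv (.thr 47 32 (.thr 63 0 (.thr 15 31 (.thr 48 26 (.dbl 53 5 58))))) (.nv (.thr 0 63 (.thr 53 5 (.thr 55 54 (.dbl 4 12 38)))) (.rp 63 (.thr 53 5 (.thr 25 59 (.thr 17 29 (.thr 49 13 (.thr 1 33 (.dbl 61 41 57)))))) (.rp 0 (.thr 25 59 (.thr 17 29 (.thr 49 13 (.thr 1 33 (.thr 61 41 (.dbl 53 5 57)))))) .nd)))))) (.rp 8 (.str 11 (.nv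 (.thr 53 5 (.thr 47 32 (.thr 63 0 (.thr 15 31 (.dbl 48 26 58))))) (.nv (.thr 32 47 (.thr 0 63 (.thr 48 16 (.thr 56 60 (.dbl 26 15 41))))) (.rp 63 (.thr 53 5 (.thr 55 54 (.thr 38 4 (.thr 36 39 (.thr 32 47 (.thr 44 40 (.thr 34 46 (.dbl 35 33 41)))))))) (.rp 48 (.thr 53 5 (.thr 55 54 (.thr 38 4 (.thr 36 39 (.thr 32 47 (.thr 44 40 (.thr 34 46 (.dbl 35 33 41)))))))) (.rp 47 (.thr 53 5 (.thr 55 54 (.thr 38 4 (.thr 39 36 (.thr 7 23 (.thr 15 3 (.thr 48 26 (.dbl 63 0 58)))))))) (.rp 32 (.thr 53 5 (.thr 55 54 (.thr 38 4 (.thr 39 36 (.thr 7 23 (.thr 15 3 (.thr 48 26 (.dbl 63 0 58)))))))) (.rp 31 (.thr 53 5 (.thr 55 54 (.thr 38 4 (.thr 36 39 (.thr 32 47 (.thr 44 40 (.thr 34 46 (.dbl 35 33 41)))))))) (.rp 26 (.thr 63 0 (.thr 47 32 (.thr 15 31 (.thr 3 7 (.thr 43 23 (.thr 27 59 (.dbl 39 35 51)))))))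 (.rp 16 (.thr 53 5 (.thr 55 54 (.thr 38 4 (.thr 36 39 (.thr 32 47 (.thr 44 40 (.thr 34 46 (.dbl 35 33 41)))))))) (.rp 15 (.thr 53 5 (.thr 0 63 (.thr 55 54 (.thr 38 4 (.thr 39 36 (.thr 47 32 (.thr 46 34 (.thr 44 45 (.dbl 35 41 43))))))))) (.rp 0 (.thr 5 53 (.str 4 (.nv (.thr 38 55 (.dbl 36 20 39)) (.rp 55 (.thr 36 20 (.thr 38 39 (.thr 32 47 (.thr 34 46 (.thr 35 33 (.dbl 44 40 41)))))) (.rp 39 (.thr 36 20 (.thr 38 55 (.thr 32 47 (.thr 34 46 (.thr 35 33 (.dbl 44 40 41)))))) (.rp 38 (.thr 36 20 (.thr 32 47 (.thr 40 44 (.thr 41 43 (.thr 26 56 (.thr 15 48 (.dbl 7 3 6))))))) (.rp 36 (.thr 7 6 (.thr 38 55 (.thr 3 15 (.thr 32 47 (.thr 34 46 (.thr 33 35 (.thr 48 18 (.thr 56 60 (.dbl 41 26 45))))))))) (.rp 20 (.thr 38 55 (.thr 36 39 (.thr 32 47 (.thr 34 46 (.thr 35 33 (.dbl 44 40 41))))))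 .nd)))))))) .nd)))))))))))) (.rp 5 (.thr 32 47 (.thr 0 63 (.thr 48 16 (.thr 60 56 (.thr 40 20 (.thr 41 43 (.thr 45 33 (.dbl 15 26 30)))))))) (.rp 0 (.thr 5 53 (.thr 32 47 (.str 38 (.nv (.thr 34 46 (.thr 35 33 (.thr 36 39 (.dbl 44 40 41)))) (.nv (.thr 4 55 (.dbl 36 20 39)) (.rp 39 (.thr 4 55 (.thr 36 20 (.thr 34 46 (.thr 35 33 (.dbl 44 40 41))))) (.rp 36 (.thr 4 55 (.str 25 (.nv (.thr 8 59 (.thr 17 29 (.thr 34 46 (.thr 33 35 (.dbl 49 1 13))))) (.nv (.thr 17 29 (.thr 49 13 (.thr 33 1 (.dbl 34 35 46)))) (.rp 49 (.thr 34 46 (.thr 51 12 (.thr 8 59 (.thr 35 33 (.thr 3 19 (.thr 7 6 (.thr 15 11 (.thr 27 39 (.dbl 26 24 48))))))))) (.rp 46 (.thr 17 29 (.thr 49 13 (.thr 33 1 (.thr 35 34 (.dbl 41 44 45))))) (.rp 45 (.thr 49 13 (.thr 51 12 (.thr 48 50 (.thr 56 60 (.thr 8 59 (.thr 40 24 (.thr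 41 43 (.dbl 26 11 15)))))))) (.rp 35 (.thr 17 29 (.thr 49 13 (.thr 33 1 (.thr 45 41 (.thr 51 12 (.thr 48 50 (.thr 60 56 (.dbl 15 26 30)))))))) (.rp 34 (.thr 17 29 (.thr 49 13 (.thr 33 1 (.thr 45 41 (.thr 51 12 (.thr 48 50 (.thr 60 56 (.dbl 15 26 30)))))))) (.rp 33 (.thr 49 13 (.thr 51 12 (.thr 48 50 (.thr 56 60 (.thr 8 59 (.thr 40 24 (.thr 41 43 (.dbl 26 11 15)))))))) (.rp 29 (.thr 49 13 (.thr 34 46 (.thr 33 35 (.thr 1 17 (.dbl 41 45 61))))) (.rp 17 (.thr 49 13 (.thr 34 46 (.thr 51 12 (.thr 48 50 (.thr 60 56 (.thr 33 35 (.thr 45 41 (.dbl 15 26 30)))))))) (.rp 13 (.thr 17 29 (.thr 34 46 (.thr 33 35 (.thr 1 49 (.dbl 41 45 61))))) (.rp 8 (.str 11 (.nv (.thr 7 6 (.thr 3 15 (.thr 34 46 (.thr 35 33 (.dbl 51 12 19))))) (.nv (.thr 49 13 (.thr 51 12 (.thr 48 50 (.thr 15 26 (.dbl 7 3 6)))))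 (.nv (.thr 17 29 (.thr 49 13 (.thr 33 1 (.dbl 34 35 46)))) (.rp 3 (.thr 49 13 (.thr 17 29 (.thr 34 46 (.dbl 33 1 35)))) .nd))))) (.rp 1 (.thr 29 17 (.thr 34 46 (.thr 13 49 (.thr 33 35 (.dbl 45 41 61))))) .nd))))))))))))))) (.rp 11 (.str 8 (.nv (.thr 34 46 (.thr 35 33 (.thr 36 39 (.dbl 44 40 41)))) (.nv (.thr 4 55 (.dbl 36 20 39)) (.rp 39 (.thr 34 46 (.thr 4 55 (.thr 36 20 (.thr 35 33 (.dbl 44 40 41))))) (.rp 36 (.thr 34 46 (.thr 25 59 (.thr 17 29 (.thr 49 13 (.dbl 33 1 35))))) .nd))))) (.rp 8 (.str 11 (.nv (.thr 34 46 (.thr 35 33 (.thr 36 39 (.dbl 44 40 41)))) (.nv (.thr 4 55 (.dbl 36 20 39)) (.rp 39 (.thr 4 55 (.thr 36 20 (.thr 34 46 (.thr 35 33 (.dbl 44 40 41))))) (.rp 36 (.thr 4 55 (.thr 7 6 (.thr 3 15 (.thr 34 46 (.thr 33 35 (.thr 48 18 (.thr 56 60 (.dbl 41 26 45)))))))) (.rp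 4 (.str 12 (.nv (.thr 36 39 (.thr 44 40 (.thr 60 28 (.dbl 48 24 56)))) (.nv (.thr 46 34 (.thr 29 63 (.dbl 25 17 51))) (.nv (.thr 34 46 (.thr 36 39 (.thr 35 33 (.dbl 44 40 41)))) .nd)))) .nd)))))) .nd))))))))) .nd))))))))))))))))) (.rp 20 (.thr 53 5 (.thr 55 54 (.thr 38 4 (.thr 39 36 (.dbl 7 22 23))))) (.rp 11 (.str 8 (.nv (.thr 7 22 (.thr 53 5 (.thr 55 54 (.thr 38 4 (.dbl 39 23 36))))) (.nv (.thr 5 53 (.thr 7 22 (.thr 4 6 (.thr 38 55 (.dbl 36 20 39))))) (.nv (.thr 22 7 (.thr 20 23 (.thr 4 36 (.thr 55 38 (.dbl 53 5 54))))) (.rp 55 (.thr 5 53 (.thr 7 22 (.thr 4 6 (.thr 36 20 (.thr 12 0 (.thr 48 24 (.thr 38 39 (.thr 25 51 (.thr 13 49 (.dbl 15 14 26)))))))))) (.rp 53 (.thr 22 7 (.thr 20 23 (.thr 4 36 (.thr 0 12 (.thr 60 40 (.thr 48 56 (.thr 32 16 (.dbl 42 47 63)))))))) (.rp 39 (.thr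 53 5 (.thr 22 7 (.thr 20 23 (.thr 55 54 (.dbl 4 36 38))))) (.rp 38 (.thr 53 5 (.thr 22 7 (.thr 20 23 (.thr 4 36 (.thr 0 12 (.thr 60 40 (.thr 48 56 (.dbl 63 42 58)))))))) (.rp 36 (.thr 53 5 (.thr 55 54 (.thr 4 38 (.thr 0 12 (.thr 63 42 (.thr 48 58 (.thr 26 15 (.dbl 16 31 32)))))))) (.rp 22 (.str 0 (.nv (.thr 53 5 (.thr 63 42 (.thr 48 58 (.thr 26 15 (.dbl 16 31 32))))) (.nv (.thr 4 12 (.thr 36 20 (.dbl 38 39 55))) (.rp 3 (.thr 53 5 (.thr 55 54 (.dbl 4 12 38))) .nd)))) (.rp 7 (.thr 53 5 (.thr 55 54 (.thr 4 38 (.thr 20 36 (.thr 0 12 (.thr 60 40 (.thr 48 56 (.dbl 63 42 58)))))))) (.rp 5 (.thr 22 7 (.thr 20 23 (.thr 4 36 (.thr 0 12 (.thr 60 40 (.thr 48 56 (.thr 32 16 (.dbl 42 47 63)))))))) (.rp 4 (.str 0 (.nv (.thr 22 7 (.thr 20 23 (.thr 60 40 (.thr 48 56 (.thr 16 32 (.dbl 26 15 31))))))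 (.nv (.thr 42 63 (.thr 32 47 (.thr 48 16 (.thr 60 56 (.thr 20 40 (.dbl 22 7 23)))))) (.nv (.thr 22 7 (.thr 20 23 (.thr 42 63 (.thr 2 62 (.thr 60 40 (.dbl 3 1 41)))))) (.nv (.thr 53 5 (.thr 63 42 (.thr 48 58 (.thr 26 15 (.dbl 16 31 32))))) (.rp 15 (.thr 53 5 (.thr 42 63 (.thr 25 59 (.thr 17 29 (.thr 49 13 (.thr 1 33 (.dbl 61 41 57))))))) (.rp 7 (.thr 42 63 (.thr 25 59 (.thr 49 13 (.thr 17 29 (.thr 1 33 (.thr 61 41 (.dbl 53 5 57))))))) .nd))))))) .nd))))))))))))) (.rp 8 (.str 11 (.nv (.thr 7 22 (.thr 15 3 (.thr 48 26 (.thr 53 5 (.thr 63 58 (.thr 42 0 (.dbl 47 31 32))))))) (.nv (.thr 22 7 (.thr 20 23 (.thr 4 36 (.thr 55 38 (.dbl 53 5 54))))) (.rp 53 (.thr 7 22 (.thr 15 3 (.thr 26 48 (.thr 41 56 (.thr 61 1 (.thr 31 16 (.thr 63 47 (.thr 60 62 (.dbl 45 30 33))))))))) (.rp 22 (.thr 53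 5 (.thr 55 54 (.thr 38 4 (.thr 39 36 (.thr 7 23 (.thr 15 3 (.thr 51 27 (.thr 63 59 (.dbl 48 26 58))))))))) (.rp 7 (.str 0 (.nv (.thr 53 5 (.thr 63 42 (.thr 48 58 (.thr 26 15 (.dbl 56 41 60))))) (.nv (.thr 53 5 (.thr 63 42 (.thr 48 58 (.thr 26 15 (.dbl 16 31 32))))) (.nv (.thr 42 63 (.thr 32 47 (.thr 48 16 (.thr 56 60 (.dbl 26 15 41))))) (.rp 63 (.thr 53 5 (.thr 55 54 (.thr 4 38 (.thr 20 36 (.thr 22 23 (.thr 60 40 (.thr 56 48 (.dbl 41 3 26)))))))) (.rp 48 (.thr 53 5 (.thr 55 54 (.thr 4 38 (.thr 20 36 (.thr 63 42 (.thr 59 51 (.thr 43 27 (.dbl 23 3 22)))))))) (.rp 42 (.thr 53 5 (.thr 55 54 (.thr 4 38 (.thr 20 36 (.thr 22 23 (.thr 60 40 (.thr 41 3 (.dbl 56 26 48)))))))) (.rp 26 (.thr 53 5 (.thr 55 54 (.thr 4 38 (.thr 20 36 (.thr 42 63 (.thr 32 47 (.thr 48 16 (.dbl 60 40 56)))))))) (.rp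 15 (.thr 53 5 (.thr 55 54 (.thr 4 38 (.thr 20 36 (.thr 63 42 (.thr 60 40 (.dbl 48 56 58))))))) .nd))))))))) (.rp 5 (.thr 7 22 (.thr 15 3 (.thr 26 48 (.thr 41 56 (.thr 33 45 (.thr 31 16 (.thr 47 63 (.thr 32 42 (.thr 35 34 (.thr 38 44 (.dbl 39 36 43))))))))))) (.rp 4 (.thr 53 5 (.thr 7 22 (.thr 55 54 (.thr 39 23 (.thr 15 3 (.thr 51 27 (.thr 63 59 (.dbl 48 26 58)))))))) .nd)))))))) (.rp 7 (.str 0 (.nv (.thr 53 5 (.thr 55 54 (.thr 63 42 (.thr 51 59 (.thr 17 34 (.thr 25 29 (.dbl 38 4 12))))))) (.nv (.thr 53 5 (.thr 63 42 (.thr 48 58 (.thr 26 15 (.dbl 16 31 32))))) (.rp 63 (.thr 53 5 (.thr 55 54 (.thr 4 38 (.thr 20 36 (.thr 60 40 (.thr 48 56 (.thr 26 15 (.dbl 16 31 32)))))))) (.rp 58 (.thr 53 5 (.thr 55 54 (.thr 4 38 (.thr 20 36 (.thr 60 40 (.thr 48 56 (.thr 32 16 (.dbl 42 47 63))))))))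 (.rp 53 (.thr 42 63 (.thr 32 47 (.thr 48 16 (.thr 60 56 (.thr 20 40 (.thr 22 23 (.thr 3 41 (.dbl 2 1 62)))))))) (.rp 42 (.thr 53 5 (.thr 55 54 (.thr 4 38 (.thr 20 36 (.thr 60 40 (.thr 48 56 (.thr 26 15 (.dbl 16 31 32)))))))) (.rp 26 (.thr 53 5 (.thr 55 54 (.thr 4 38 (.thr 20 36 (.thr 60 40 (.thr 48 56 (.dbl 63 42 58))))))) (.rp 13 (.thr 42 63 (.thr 32 47 (.thr 48 16 (.thr 60 56 (.thr 20 40 (.thr 4 36 (.thr 55 38 (.dbl 53 5 54)))))))) (.rp 11 (.str 8 (.nv (.thr 12 4 (.thr 42 63 (.thr 25 59 (.thr 51 38 (.dbl 17 29 34))))) (.nv (.thr 4 12 (.thr 36 20 (.dbl 38 39 55))) (.rp 38 (.thr 4 12 (.thr 20 36 (.thr 60 40 (.thr 48 56 (.thr 32 16 (.dbl 42 47 63)))))) (.rp 15 (.str 3 (.nv (.thr 1 2 (.thr 41 61 (.thr 60 22 (.thr 48 56 (.dbl 33 18 45))))) (.nv (.thr 4 12 (.thr 36 20 (.dbl 38 39 55)))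 (.rp 14 (.thr 53 5 (.thr 55 54 (.dbl 4 12 38))) .nd)))) (.rp 12 (.thr 53 5 (.thr 55 54 (.thr 4 38 (.thr 20 36 (.thr 60 40 (.thr 48 56 (.dbl 63 42 58))))))) (.rp 6 (.thr 42 63 (.thr 25 59 (.thr 17 29 (.thr 51 34 (.dbl 12 4 38))))) (.rp 4 (.thr 42 63 (.thr 25 59 (.thr 49 13 (.thr 17 29 (.thr 1 33 (.thr 61 41 (.dbl 53 5 57))))))) (.rp 3 (.str 15 (.nv (.thr 26 48 (.thr 31 16 (.dbl 63 42 47))) (.nv (.thr 53 5 (.thr 55 54 (.dbl 4 12 38))) (.rp 12 (.str 6 (.nv (.thr 48 26 (.thr 53 5 (.dbl 63 42 58))) (.nv (.thr 63 42 (.thr 31 47 (.dbl 26 16 48))) (.rp 63 (.thr 53 5 (.thr 55 54 (.thr 4 38 (.thr 20 36 (.thr 60 40 (.dbl 48 26 56)))))) (.rp 58 (.thr 63 42 (.thr 26 48 (.dbl 31 16 47))) (.rp 48 (.thr 53 5 (.thr 55 54 (.thr 38 4 (.thr 63 42 (.thr 51 59 (.dbl 39 27 36)))))) (.rp 42 (.thr 53 5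 (.thr 55 54 (.thr 4 38 (.thr 20 36 (.thr 60 40 (.dbl 48 26 56)))))) (.rp 26 (.thr 53 5 (.thr 55 54 (.thr 38 4 (.thr 39 36 (.thr 51 27 (.dbl 63 42 59)))))) .nd)))))))) (.rp 6 (.thr 12 4 (.thr 5 53 (.thr 48 26 (.thr 56 60 (.dbl 24 36 40))))) .nd))))) .nd))))))))) (.rp 8 (.str 11 (.nv (.thr 53 5 (.thr 63 42 (.thr 48 58 (.thr 26 15 (.dbl 56 41 60))))) (.nv (.thr 53 5 (.thr 63 42 (.thr 48 58 (.thr 26 15 (.dbl 16 31 32))))) (.nv (.thr 42 63 (.thr 32 47 (.thr 48 16 (.thr 56 60 (.dbl 26 15 41))))) (.rp 63 (.thr 53 5 (.thr 55 54 (.thr 4 38 (.thr 20 36 (.thr 22 23 (.thr 60 40 (.thr 56 48 (.dbl 41 3 26)))))))) (.rp 48 (.thr 53 5 (.thr 55 54 (.thr 4 38 (.thr 20 36 (.thr 63 42 (.thr 59 51 (.thr 43 27 (.dbl 23 3 22)))))))) (.rp 42 (.thr 53 5 (.thr 55 54 (.thr 4 38 (.thr 20 36 (.thr 22 23 (.thr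 60 40 (.thr 41 3 (.dbl 56 26 48)))))))) (.rp 26 (.thr 53 5 (.thr 55 54 (.thr 4 38 (.thr 20 36 (.thr 42 63 (.thr 32 47 (.thr 48 16 (.dbl 60 40 56)))))))) (.rp 15 (.thr 53 5 (.thr 55 54 (.thr 4 38 (.thr 20 36 (.thr 63 42 (.thr 60 40 (.dbl 48 56 58))))))) .nd))))))))) (.rp 6 (.thr 42 63 (.thr 32 47 (.thr 48 16 (.thr 60 56 (.thr 20 40 (.thr 53 5 (.thr 4 36 (.dbl 55 38 54)))))))) (.rp 5 (.thr 42 63 (.thr 32 47 (.thr 48 16 (.thr 60 56 (.thr 20 40 (.thr 22 23 (.thr 3 41 (.dbl 2 1 62)))))))) (.rp 4 (.thr 42 63 (.thr 32 47 (.thr 48 16 (.thr 60 56 (.thr 20 40 (.thr 22 23 (.thr 3 41 (.dbl 2 1 62)))))))) (.rp 1 (.thr 42 63 (.thr 32 47 (.thr 48 16 (.thr 60 56 (.thr 20 40 (.thr 4 36 (.thr 55 38 (.dbl 53 5 54)))))))) .nd))))))))))))))) (.rp 5 (.thr 22 7 (.thr 20 23 .ext)) (.rp 4 (.thr 7 22 (.str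 15 (.nv (.thr 53 5 (.thr 55 54 (.thr 39 23 (.thr 51 27 (.thr 63 59 (.dbl 48 26 58)))))) (.nv (.thr 53 5 (.thr 48 26 (.thr 63 58 (.thr 42 0 (.dbl 47 31 32))))) (.rp 63 (.thr 53 5 (.thr 55 54 (.thr 39 23 (.thr 38 36 (.thr 51 27 (.thr 12 25 (.thr 26 48 (.dbl 14 13 50)))))))) (.rp 58 (.thr 53 5 (.thr 55 54 (.thr 39 23 (.thr 51 27 (.thr 63 59 (.thr 31 47 (.dbl 26 16 48))))))) (.rp 53 (.thr 11 3 (.thr 26 48 (.thr 31 16 (.thr 63 47 (.thr 41 56 (.thr 61 1 (.thr 60 62 (.dbl 45 30 33)))))))) (.rp 48 (.thr 53 5 (.thr 55 54 (.thr 39 23 (.thr 51 27 (.thr 63 59 (.thr 42 0 (.dbl 47 31 32))))))) (.rp 31 (.thr 53 5 (.thr 55 54 (.thr 39 23 (.thr 48 26 (.thr 63 58 (.thr 42 0 (.dbl 51 27 59))))))) (.rp 26 (.thr 53 5 (.thr 55 54 (.thr 39 23 (.thr 51 27 (.thr 63 59 (.thr 42 0 (.dbl 47 31 32))))))) (.rp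 13 (.thr 5 53 (.thr 11 3 (.thr 26 48 (.thr 31 16 (.thr 63 47 (.thr 41 56 (.thr 61 1 (.thr 60 62 (.dbl 45 30 33))))))))) (.rp 11 (.str 8 (.nv (.thr 48 26 (.thr 56 60 (.thr 24 40 (.thr 36 12 (.thr 39 38 (.thr 55 23 (.dbl 53 5 54))))))) (.nv (.thr 53 5 (.thr 55 54 (.thr 39 23 (.thr 38 36 (.thr 51 27 (.thr 59 63 (.dbl 25 12 42))))))) (.nv (.thr 53 5 (.thr 48 26 (.thr 63 58 (.thr 42 0 (.dbl 47 31 32))))) (.rp 53 (.thr 48 26 (.thr 56 60 (.thr 24 40 (.thr 12 36 (.thr 13 14 (.thr 25 49 (.thr 42 59 (.thr 0 63 (.dbl 32 16 47))))))))) (.rp 42 (.thr 53 5 (.thr 55 54 (.thr 39 23 (.thr 26 48 (.thr 31 16 (.thr 63 47 (.dbl 51 27 59))))))) (.rp 5 (.thr 48 26 (.thr 56 60 (.thr 24 40 (.thr 12 36 (.thr 13 14 (.thr 25 49 (.thr 42 59 (.thr 0 63 (.dbl 32 16 47))))))))) .nd))))))) (.rp 8 (.thr 11 3 (.thr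 53 5 (.thr 55 54 (.thr 39 23 (.thr 51 27 (.thr 63 59 (.dbl 48 26 58))))))) (.rp 5 (.thr 11 3 (.thr 26 48 (.thr 31 16 (.thr 47 63 (.thr 32 42 (.thr 41 56 (.thr 33 45 (.thr 35 34 (.thr 38 44 (.dbl 39 36 43)))))))))) (.rp 1 (.thr 11 3 (.thr 26 48 (.thr 31 16 (.thr 47 63 (.thr 32 42 (.thr 41 56 (.thr 33 45 (.thr 35 34 (.thr 38 44 (.dbl 39 36 43)))))))))) .nd))))))))))))))) .nd)))))))))))))))

theorem w336 : WinAt (137441050624, 1536) :=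
  chF (K := [(4503737073664000, 8390304)]) (kc w331 kn) c336 137441050624 1536 9
    [3840] (by decide +kernel) (by decide +kernel)

/-- A certificate. -/
noncomputable def c337 : Ct := (.str 4 (.nv (.thr 38 55 (.thr 36 39 (.thr 52 20 (.dbl 7 6 22)))) (.nv (.thr 7 6 (.thr 52 22 (.thr 38 55 (.dbl 36 20 39)))) (.rp 55 (.str 13 (.nv (.thr 25 49 (.thr 29 17 (.thr 61 45 (.dbl 1 9 41)))) (.rp 61 (.thr 9 1 (.thr 6 7 (.thr 12 3 (.thr 15 14 (.thr 0 8 (.thr 48 26 (.thr 32 16 (.dbl 42 47 63)))))))) (.rp 57 (.thr 9 1 (.thr 6 7 (.thr 12 3 (.thr 15 14 (.thr 0 8 (.thr 48 26 (.thr 32 16 (.dbl 42 47 63)))))))) (.rp 54 (.str 52 (.nv (.thr 9 1 (.thr 20 36 (.dbl 22 7 23))) (.nv (.dbl 7 6 22) (.rp 22 (.thr 25 49 (.thr 29 17 (.thr 61 45 (.dbl 1 9 41)))) (.rp 9 (.str 8 (.nv (.thr 25 49 (.thr 42 59 (.dbl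 0 12 63))) (.nv (.dbl 7 6 22) .nd))) (.rp 7 (.thr 25 49 (.thr 29 17 (.thr 61 45 (.dbl 1 9 41)))) .nd)))))) (.rp 52 (.str 54 (.nv (.thr 9 1 (.thr 6 7 (.thr 12 3 (.thr 15 14 (.thr 38 22 (.dbl 25 49 51)))))) (.nv (.thr 25 49 (.thr 29 17 (.thr 61 45 (.dbl 1 9 41)))) (.rp 49 (.thr 6 7 (.thr 38 22 (.thr 39 36 (.thr 9 1 (.thr 12 3 (.thr 15 14 (.dbl 51 25 27))))))) (.rp 41 (.thr 6 7 (.thr 38 22 (.thr 9 1 (.thr 25 49 (.dbl 12 3 51))))) (.rp 25 (.thr 6 7 (.thr 38 22 (.thr 9 1 (.thr 12 3 (.thr 15 14 (.thr 48 26 (.dbl 36 24 39))))))) (.rp 9 (.str 8 (.nv (.thr 12 0 (.thr 6 7 (.thr 15 14 (.thr 38 22 (.dbl 25 49 51))))) (.nv (.thr 25 49 (.thr 0 12 (.dbl 42 59 63))) (.rp 49 (.thr 6 7 (.thr 38 22 (.thr 39 36 (.thr 12 0 (.thr 15 14 (.dbl 51 25 27)))))) (.rp 25 (.thr 6 7 (.thr 38 22 (.thr 12 0 (.thr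 15 14 (.thr 48 26 (.dbl 36 24 39)))))) (.rp 12 (.thr 6 7 (.thr 38 22 (.thr 25 49 (.thr 42 59 (.thr 47 32 (.thr 46 34 (.thr 45 44 (.dbl 29 17 61)))))))) (.rp 6 (.thr 25 49 (.thr 42 59 (.dbl 0 12 63))) (.rp 0 (.thr 6 7 (.thr 38 22 (.thr 25 49 (.thr 12 51 (.thr 15 14 (.thr 48 26 (.dbl 36 24 39))))))) .nd)))))))) (.rp 1 (.thr 6 7 (.thr 38 22 (.thr 25 49 (.thr 12 51 (.thr 15 14 (.thr 48 26 (.dbl 36 24 39))))))) .nd)))))))) (.rp 49 (.thr 9 1 (.thr 6 7 (.thr 12 3 (.thr 15 14 (.thr 0 8 (.thr 48 26 (.thr 32 16 (.dbl 42 47 63)))))))) (.rp 45 (.thr 25 49 (.thr 17 29 (.thr 9 1 (.thr 6 7 (.thr 12 3 (.thr 15 14 (.thr 0 8 (.dbl 51 34 38)))))))) (.rp 41 (.thr 25 49 (.thr 17 29 (.thr 9 1 (.thr 6 7 (.thr 12 3 (.thr 15 14 (.thr 0 8 (.dbl 51 34 38)))))))) (.rp 33 (.thr 25 49 (.thr 17 29 (.thr 9 1 (.thr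 6 7 (.thr 12 3 (.thr 15 14 (.thr 0 8 (.dbl 51 34 38)))))))) (.rp 29 (.thr 25 49 (.thr 9 1 (.thr 6 7 (.thr 12 3 (.thr 15 14 (.thr 51 38 (.thr 26 48 (.dbl 27 24 39)))))))) (.rp 25 (.thr 9 1 (.thr 6 7 (.thr 12 3 (.thr 15 14 (.thr 0 8 (.thr 48 26 (.thr 32 16 (.dbl 42 47 63)))))))) (.rp 17 (.thr 25 49 (.thr 7 6 (.thr 52 22 (.thr 36 20 (.thr 38 39 (.thr 12 51 (.thr 48 24 (.dbl 15 14 26)))))))) (.rp 9 (.str 8 (.nv (.thr 25 49 (.thr 42 59 (.dbl 0 12 63))) (.nv (.thr 0 12 (.thr 42 63 (.dbl 25 49 59))) (.nv (.thr 25 49 (.thr 0 12 (.dbl 42 59 63))) (.rp 63 (.thr 25 49 (.thr 12 0 (.thr 7 6 (.thr 52 22 (.thr 36 20 (.dbl 38 39 51)))))) (.rp 59 (.thr 25 49 (.thr 12 0 (.thr 7 6 (.thr 52 22 (.thr 36 20 (.dbl 38 39 51)))))) (.rp 54 (.str 52 (.nv (.thr 25 49 (.thr 42 59 (.dbl 0 12 63))) (.nv (.dbl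 7 6 22) .nd))) (.rp 52 (.str 54 (.nv (.thr 12 0 (.thr 6 7 (.thr 15 14 (.thr 38 22 (.dbl 25 49 51))))) (.nv (.thr 25 49 (.thr 0 12 (.dbl 42 59 63))) (.rp 49 (.thr 6 7 (.thr 38 22 (.thr 39 36 (.thr 12 0 (.thr 15 14 (.dbl 51 25 27)))))) (.rp 25 (.thr 6 7 (.thr 38 22 (.thr 12 0 (.thr 15 14 (.thr 48 26 (.dbl 36 24 39)))))) (.rp 12 (.thr 6 7 (.thr 38 22 (.thr 25 49 (.thr 42 59 (.thr 47 32 (.thr 46 34 (.thr 45 44 (.dbl 29 17 61)))))))) (.rp 6 (.thr 25 49 (.thr 42 59 (.dbl 0 12 63))) (.rp 0 (.thr 6 7 (.thr 38 22 (.thr 25 49 (.thr 12 51 (.thr 15 14 (.thr 48 26 (.dbl 36 24 39))))))) .nd)))))))) (.rp 49 (.thr 12 0 (.thr 7 6 (.thr 52 22 (.thr 36 20 (.thr 48 24 (.dbl 15 14 26)))))) (.rp 42 (.thr 25 49 (.thr 12 0 (.thr 7 6 (.thr 52 22 (.thr 36 20 (.dbl 38 39 51)))))) (.rp 25 (.thr 12 0 (.thr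 7 6 (.thr 52 22 (.thr 36 20 (.thr 48 24 (.dbl 15 14 26)))))) (.rp 12 (.thr 25 49 (.thr 29 17 (.thr 61 45 (.thr 42 59 (.thr 63 0 (.thr 62 60 (.thr 22 2 (.dbl 7 6 52)))))))) (.rp 0 (.thr 25 49 (.thr 7 6 (.thr 52 22 (.thr 36 20 (.thr 38 39 (.thr 12 51 (.thr 48 24 (.dbl 15 14 26)))))))) .nd))))))))))))) (.rp 8 (.thr 9 1 (.thr 25 49 (.thr 6 7 (.thr 12 3 (.thr 15 14 (.thr 51 38 (.thr 26 48 (.dbl 27 24 39)))))))) (.rp 1 (.thr 25 49 (.thr 7 6 (.thr 52 22 (.thr 36 20 (.thr 38 39 (.thr 12 51 (.thr 48 24 (.dbl 15 14 26)))))))) .nd)))))))))))))))) (.rp 52 (.thr 55 38 (.str 13 (.nv (.thr 25 49 (.thr 29 17 (.thr 61 45 (.dbl 1 9 41)))) (.rp 61 (.thr 6 7 (.thr 9 1 (.thr 12 3 (.thr 15 14 (.thr 0 8 (.thr 63 42 (.thr 31 47 (.dbl 26 16 48)))))))) (.rp 57 (.thr 6 7 (.thr 9 1 (.thr 12 3 (.thr 15 14 (.thr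 0 8 (.thr 63 42 (.thr 31 47 (.dbl 26 16 48)))))))) (.rp 49 (.thr 6 7 (.thr 9 1 (.thr 12 3 (.thr 15 14 (.thr 0 8 (.thr 63 42 (.thr 31 47 (.dbl 26 16 48)))))))) (.rp 45 (.thr 7 6 (.thr 23 39 (.thr 22 20 (.thr 25 49 (.thr 17 29 (.thr 19 28 (.thr 16 18 (.dbl 31 26 27)))))))) (.rp 41 (.thr 7 6 (.thr 23 39 (.thr 22 20 (.thr 25 49 (.thr 17 29 (.thr 19 28 (.thr 16 18 (.dbl 31 26 27)))))))) (.rp 33 (.thr 7 6 (.thr 23 39 (.thr 22 20 (.thr 25 49 (.thr 17 29 (.thr 19 28 (.thr 16 18 (.dbl 31 26 27)))))))) (.rp 29 (.thr 6 7 (.thr 9 1 (.thr 12 3 (.thr 15 14 (.thr 0 8 (.thr 63 42 (.thr 31 47 (.dbl 26 16 48)))))))) (.rp 25 (.thr 6 7 (.thr 9 1 (.thr 12 3 (.thr 15 14 (.thr 0 8 (.thr 42 63 (.thr 32 47 (.dbl 48 16 26)))))))) (.rp 17 (.thr 6 7 (.thr 9 1 (.thr 12 3 (.thr 15 14 (.thr 0 8 (.thr 63 42 (.thr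 31 47 (.dbl 26 16 48)))))))) (.rp 9 (.str 8 (.nv (.thr 0 12 (.thr 42 63 (.dbl 25 49 59))) (.nv (.thr 25 49 (.thr 42 59 (.dbl 0 12 63))) (.rp 63 (.thr 7 6 (.thr 23 39 (.thr 22 20 (.thr 25 49 (.thr 17 29 (.thr 19 28 (.thr 31 27 (.dbl 16 18 26)))))))) (.rp 59 (.thr 12 0 (.thr 15 14 (.thr 26 48 (.thr 25 49 (.thr 29 17 (.thr 63 46 (.dbl 31 16 47))))))) (.rp 49 (.str 61 (.nv (.thr 0 12 (.thr 29 45 (.thr 42 63 (.dbl 25 17 59)))) (.nv (.thr 45 29 (.dbl 41 1 33)) (.rp 45 (.thr 0 12 (.thr 63 42 (.thr 60 62 (.thr 20 40 (.thr 22 23 (.dbl 41 1 3)))))) (.rp 29 (.thr 0 12 (.thr 63 42 (.thr 60 62 (.thr 20 40 (.thr 22 23 (.dbl 41 1 3)))))) .nd))))) (.rp 42 (.thr 7 6 (.thr 23 39 (.thr 22 20 (.thr 25 49 (.thr 17 29 (.thr 19 28 (.thr 31 27 (.dbl 16 18 26)))))))) (.rp 25 (.thr 12 0 (.str 41 (.nv (.thr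 45 33 (.dbl 61 1 29)) (.rp 61 (.thr 45 33 (.thr 7 6 (.thr 23 39 (.thr 22 20 (.thr 60 3 (.dbl 15 14 30)))))) (.rp 45 (.str 48 (.nv (.dbl 15 14 26) (.rp 26 (.thr 24 36 (.thr 40 56 (.thr 7 6 (.thr 23 39 (.thr 22 20 (.thr 3 60 (.dbl 43 42 63))))))) (.rp 15 (.thr 24 36 (.thr 40 56 (.thr 7 6 (.thr 23 39 (.thr 22 20 (.thr 43 42 (.dbl 3 60 63))))))) (.rp 14 (.thr 61 1 (.thr 24 36 (.thr 40 56 (.thr 43 42 (.thr 26 15 (.thr 16 31 (.thr 28 20 (.thr 60 44 (.thr 3 22 (.dbl 63 23 62)))))))))) .nd))))) (.rp 33 (.thr 61 1 (.thr 29 45 (.thr 63 46 (.thr 15 14 (.thr 26 48 (.dbl 31 16 47)))))) (.rp 29 (.thr 45 33 (.thr 7 6 (.thr 23 39 (.thr 22 20 (.thr 60 3 (.dbl 15 14 30)))))) (.rp 1 (.thr 45 33 (.thr 29 61 (.thr 63 46 (.thr 15 14 (.thr 31 47 (.dbl 30 28 60)))))) .nd)))))))) (.rp 12 (.thr 25 49 (.thr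 42 59 (.thr 63 0 (.thr 47 32 (.thr 31 15 (.thr 16 26 (.thr 29 17 (.thr 28 30 (.thr 20 24 (.dbl 22 19 23)))))))))) (.rp 0 (.thr 7 6 (.thr 23 39 (.thr 22 20 (.thr 25 49 (.thr 17 29 (.thr 19 28 (.thr 31 27 (.dbl 16 18 26)))))))) .nd)))))))))) (.rp 8 (.thr 9 1 (.thr 7 6 (.thr 23 39 (.thr 22 20 (.thr 25 49 (.thr 17 29 (.thr 19 28 (.thr 16 18 (.dbl 31 26 27))))))))) (.rp 1 (.thr 7 6 (.thr 23 39 (.thr 22 20 (.thr 25 49 (.thr 17 29 (.thr 19 28 (.thr 16 18 (.dbl 31 26 27)))))))) .nd))))))))))))))) (.rp 39 (.thr 55 38 (.str 0 (.nv (.thr 7 6 (.thr 22 52 (.thr 20 23 (.thr 60 40 (.thr 3 41 (.thr 42 63 (.dbl 2 1 62))))))) (.nv (.thr 8 12 (.thr 42 63 (.thr 25 59 (.thr 13 49 (.thr 29 17 (.thr 61 45 (.dbl 1 9 41))))))) (.nv (.thr 7 6 (.thr 22 52 (.thr 20 23 (.thr 60 40 (.thr 41 3 (.thr 61 1 (.dbl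 63 42 62))))))) (.rp 63 (.thr 7 6 (.thr 22 52 (.thr 20 23 (.thr 60 40 (.thr 3 41 (.thr 2 1 (.thr 42 62 (.thr 32 47 (.thr 48 16 (.thr 18 33 (.dbl 26 15 30))))))))))) (.rp 42 (.thr 7 6 (.thr 22 52 (.thr 20 23 (.thr 60 40 (.thr 41 3 (.thr 1 61 (.thr 33 45 (.thr 49 17 (.dbl 13 9 25))))))))) (.rp 41 (.thr 7 6 (.thr 22 52 (.thr 8 12 (.thr 42 63 (.thr 2 62 (.thr 25 59 (.thr 13 49 (.dbl 1 3 9)))))))) (.rp 9 (.thr 8 12 (.thr 42 63 (.thr 32 47 (.thr 48 16 (.thr 25 59 (.thr 49 13 (.thr 51 50 (.dbl 17 29 34)))))))) (.rp 8 (.str 9 (.nv (.thr 13 1 (.thr 25 49 (.thr 17 29 (.thr 51 34 (.dbl 63 42 59))))) (.nv (.thr 1 13 (.thr 6 7 (.dbl 3 2 12))) (.rp 13 (.thr 7 6 (.thr 22 52 (.thr 20 23 (.thr 60 40 (.thr 41 3 (.thr 61 1 (.dbl 63 42 62))))))) (.rp 1 (.thr 7 6 (.thr 22 52 (.thr 20 23 (.thr 60 40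 (.thr 41 3 (.thr 57 25 (.thr 51 54 (.dbl 63 42 59)))))))) .nd))))) (.rp 1 (.thr 8 12 (.thr 42 63 (.thr 32 47 (.thr 48 16 (.thr 25 59 (.thr 49 13 (.thr 51 50 (.dbl 17 29 34)))))))) .nd))))))))))) (.rp 38 (.str 0 (.nv (.thr 7 6 (.thr 22 52 (.thr 20 23 (.thr 60 40 (.thr 3 41 (.thr 42 63 (.dbl 2 1 62))))))) (.nv (.thr 8 12 (.thr 42 63 (.thr 25 59 (.thr 13 49 (.thr 29 17 (.thr 61 45 (.dbl 1 9 41))))))) (.nv (.thr 7 6 (.thr 22 52 (.thr 20 23 (.thr 60 40 (.thr 41 3 (.thr 61 1 (.dbl 63 42 62))))))) (.rp 63 (.thr 7 6 (.thr 22 52 (.thr 20 23 (.thr 60 40 (.thr 3 41 (.thr 2 1 (.thr 42 62 (.thr 32 47 (.thr 48 16 (.thr 18 33 (.dbl 26 15 30))))))))))) (.rp 55 (.thr 6 7 (.thr 42 63 (.thr 32 47 (.thr 48 16 (.thr 12 8 (.thr 9 3 (.thr 15 26 (.dbl 13 1 14)))))))) (.rp 42 (.thr 7 6 (.thr 22 52 (.thr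 20 23 (.thr 60 40 (.thr 41 3 (.thr 1 61 (.thr 33 45 (.thr 49 17 (.dbl 13 9 25))))))))) (.rp 41 (.thr 7 6 (.thr 22 52 (.thr 8 12 (.thr 42 63 (.thr 2 62 (.thr 25 59 (.thr 13 49 (.dbl 1 3 9)))))))) (.rp 9 (.thr 8 12 (.thr 42 63 (.thr 32 47 (.thr 48 16 (.thr 25 59 (.thr 49 13 (.thr 51 50 (.dbl 17 29 34)))))))) (.rp 8 (.str 9 (.nv (.thr 1 13 (.thr 6 7 (.dbl 3 2 12))) (.rp 13 (.thr 7 6 (.thr 22 52 (.thr 20 23 (.thr 60 40 (.thr 41 3 (.thr 61 1 (.dbl 63 42 62))))))) (.rp 12 (.thr 1 13 (.thr 41 61 (.thr 7 6 (.thr 22 52 (.dbl 3 2 60))))) (.rp 7 (.thr 1 13 (.thr 41 61 (.thr 3 2 (.thr 60 22 (.thr 40 20 (.dbl 42 43 63)))))) (.rp 6 (.thr 1 13 (.thr 41 61 (.thr 42 63 (.thr 40 43 (.thr 60 20 (.dbl 3 2 22)))))) (.rp 3 (.thr 1 13 (.thr 61 41 (.thr 7 6 (.thr 22 52 (.thr 20 23 (.thr 60 40 (.dbl 63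 42 62))))))) (.rp 2 (.thr 1 13 (.thr 41 61 (.thr 6 7 (.thr 3 12 (.thr 60 22 (.thr 40 20 (.dbl 42 43 63))))))) (.rp 1 (.thr 6 7 (.thr 3 12 (.thr 42 63 (.thr 32 47 (.thr 48 16 (.thr 33 18 (.thr 41 45 (.thr 60 22 (.dbl 40 20 43))))))))) .nd))))))))) (.rp 1 (.thr 8 12 (.thr 42 63 (.thr 32 47 (.thr 48 16 (.thr 25 59 (.thr 49 13 (.thr 51 50 (.dbl 17 29 34)))))))) .nd))))))))))) (.rp 36 (.thr 7 6 (.thr 22 52 (.thr 23 20 (.dbl 55 38 39)))) (.rp 22 (.str 1 (.nv (.thr 41 61 (.thr 33 45 (.thr 49 17 (.dbl 13 9 25)))) (.rp 61 (.thr 9 13 (.thr 6 7 (.thr 3 12 (.thr 38 55 (.thr 0 2 (.thr 42 63 (.thr 32 47 (.thr 48 16 (.thr 33 18 (.dbl 34 35 46)))))))))) (.rp 57 (.thr 9 13 (.thr 6 7 (.thr 3 12 (.thr 0 2 (.thr 42 63 (.thr 32 47 (.thr 48 16 (.thr 33 18 (.dbl 41 45 61))))))))) (.rp 49 (.thr 9 13 (.thr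 41 61 (.thr 57 25 (.thr 45 33 (.thr 38 55 (.thr 36 39 (.thr 44 35 (.thr 32 40 (.dbl 47 42 46))))))))) (.rp 45 (.thr 41 61 (.thr 38 55 (.thr 39 36 (.thr 35 44 (.thr 47 43 (.thr 32 42 (.thr 33 34 (.thr 49 17 (.dbl 13 9 25))))))))) (.rp 41 (.thr 9 13 (.thr 6 7 (.thr 3 12 (.thr 38 55 (.thr 0 2 (.thr 42 63 (.thr 32 47 (.thr 48 16 (.thr 33 18 (.dbl 34 35 46)))))))))) (.rp 33 (.thr 9 13 (.thr 41 61 (.thr 6 7 (.thr 3 12 (.thr 38 55 (.thr 39 36 (.thr 35 44 (.thr 47 43 (.thr 0 2 (.dbl 42 32 63)))))))))) (.rp 29 (.thr 41 61 (.thr 45 33 (.thr 38 55 (.thr 36 39 (.thr 44 35 (.thr 32 40 (.dbl 47 42 46))))))) (.rp 25 (.thr 41 61 (.thr 33 45 (.thr 38 55 (.thr 39 36 (.thr 35 44 (.thr 47 43 (.dbl 32 34 42))))))) (.rp 17 (.thr 41 61 (.thr 33 45 (.thr 38 55 (.thr 39 36 (.thr 35 44 (.thr 47 43 (.dbl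 32 34 42))))))) (.rp 13 (.thr 41 61 (.thr 45 33 (.thr 38 55 (.thr 36 39 (.thr 44 35 (.thr 32 40 (.dbl 47 42 46))))))) (.rp 9 (.str 8 (.nv (.thr 0 12 (.thr 38 55 (.thr 36 39 (.thr 41 61 (.thr 44 35 (.thr 32 40 (.dbl 42 47 63))))))) (.nv (.thr 0 12 (.thr 3 2 (.thr 41 61 (.thr 33 45 (.thr 48 18 (.thr 16 32 (.dbl 26 15 31))))))) (.nv (.thr 12 0 (.thr 38 55 (.thr 25 51 (.thr 17 29 (.dbl 49 13 33))))) (.rp 49 (.thr 0 12 (.thr 3 2 (.thr 42 63 (.thr 32 47 (.thr 48 16 (.thr 33 18 (.dbl 41 45 61))))))) (.rp 12 (.thr 41 61 (.thr 33 45 (.thr 38 55 (.thr 35 44 (.thr 32 34 (.thr 39 36 (.dbl 47 42 43))))))) (.rp 0 (.thr 41 61 (.thr 33 45 (.thr 38 55 (.thr 35 44 (.thr 32 34 (.thr 39 36 (.dbl 47 42 43))))))) .nd))))))) (.rp 8 (.thr 9 13 (.thr 41 61 (.thr 45 33 (.thr 38 55 (.thr 36 39 (.thr 44 35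 (.thr 32 40 (.dbl 47 42 46)))))))) .nd)))))))))))))) (.rp 20 (.str 1 (.nv (.thr 9 13 (.thr 6 7 (.thr 3 12 (.thr 38 55 (.thr 41 61 (.dbl 22 54 60)))))) (.nv (.thr 41 61 (.thr 33 45 (.thr 49 17 (.dbl 13 9 25)))) (.rp 61 (.thr 9 13 (.thr 6 7 (.thr 3 12 (.thr 38 55 (.thr 0 2 (.thr 42 63 (.thr 32 47 (.thr 48 16 (.thr 33 18 (.dbl 34 35 46)))))))))) (.rp 57 (.thr 9 13 (.thr 6 7 (.thr 3 12 (.thr 0 2 (.thr 42 63 (.thr 32 47 (.thr 48 16 (.thr 33 18 (.dbl 41 45 61))))))))) (.rp 49 (.thr 9 13 (.thr 41 61 (.thr 57 25 (.thr 6 7 (.thr 3 12 (.thr 22 60 (.dbl 38 54 55))))))) (.rp 45 (.thr 41 61 (.thr 7 6 (.thr 22 52 (.thr 3 60 (.thr 55 38 (.thr 23 39 (.thr 63 43 (.dbl 0 2 42)))))))) (.rp 41 (.thr 9 13 (.thr 6 7 (.thr 3 12 (.thr 38 55 (.thr 0 2 (.thr 42 63 (.thr 32 47 (.thr 48 16 (.thr 33 18 (.dbl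 34 35 46)))))))))) (.rp 29 (.thr 9 13 (.thr 41 61 (.thr 45 33 (.thr 6 7 (.thr 3 12 (.thr 22 60 (.dbl 38 54 55))))))) (.rp 13 (.thr 41 61 (.thr 45 33 (.thr 38 55 (.thr 36 39 (.thr 44 35 (.thr 32 40 (.dbl 47 42 46))))))) (.rp 9 (.str 8 (.nv (.thr 0 12 (.thr 3 2 (.thr 42 63 (.thr 32 47 (.thr 48 16 (.thr 33 18 (.dbl 41 45 61))))))) (.nv (.thr 12 0 (.thr 38 55 (.thr 25 51 (.thr 17 29 (.dbl 49 13 33))))) (.nv (.thr 0 12 (.thr 42 63 (.thr 25 59 (.thr 49 13 (.dbl 17 29 33))))) (.nv (.thr 7 6 (.thr 22 52 (.thr 41 61 (.thr 0 12 (.dbl 3 2 60))))) (.rp 12 (.thr 41 61 (.thr 33 45 (.thr 38 55 (.thr 35 44 (.thr 32 34 (.thr 39 36 (.dbl 47 42 43))))))) (.rp 0 (.thr 41 61 (.thr 33 45 (.thr 38 55 (.thr 35 44 (.thr 32 34 (.thr 39 36 (.dbl 47 42 43))))))) .nd))))))) .nd))))))))))) (.rp 9 (.str 8 (.nv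 (.thr 7 6 (.thr 22 52 (.thr 55 38 (.dbl 23 20 39)))) (.nv (.thr 38 55 (.thr 36 39 (.thr 52 20 (.dbl 7 6 22)))) (.rp 55 (.thr 12 0 (.thr 7 6 (.thr 52 22 (.thr 36 20 (.thr 48 24 (.thr 38 39 (.thr 25 51 (.thr 13 49 (.dbl 15 14 26))))))))) (.rp 52 (.thr 0 12 (.thr 42 63 (.thr 25 59 (.thr 49 13 (.thr 32 47 (.thr 48 16 (.thr 51 50 (.dbl 17 29 34)))))))) (.rp 39 (.thr 0 12 (.thr 42 63 (.thr 25 59 (.thr 49 13 (.thr 32 47 (.thr 48 16 (.thr 51 50 (.dbl 17 29 34)))))))) (.rp 38 (.thr 0 12 (.thr 42 63 (.thr 25 59 (.thr 49 13 (.thr 32 47 (.thr 48 16 (.thr 51 50 (.dbl 17 29 34)))))))) (.rp 23 (.thr 7 6 (.thr 52 22 (.thr 36 20 (.dbl 38 39 55)))) (.rp 22 (.thr 0 12 (.thr 38 55 (.thr 36 39 (.thr 42 63 (.thr 32 47 (.thr 40 44 (.dbl 20 52 60))))))) (.rp 20 (.thr 12 0 (.thr 38 55 (.thr 25 51 (.thr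 13 49 (.thr 36 39 (.thr 48 24 (.dbl 15 14 26))))))) (.rp 7 (.thr 12 0 (.thr 38 55 (.thr 25 51 (.thr 13 49 (.thr 15 14 (.thr 48 26 (.dbl 36 24 39))))))) (.rp 6 (.thr 12 0 (.thr 38 55 (.thr 25 51 (.thr 13 49 (.thr 36 39 (.thr 48 24 (.dbl 15 14 26))))))) .nd)))))))))))) (.rp 8 (.str 9 (.nv (.thr 13 1 (.thr 25 49 (.thr 38 55 (.thr 12 51 (.dbl 6 3 7))))) (.nv (.thr 7 6 (.thr 22 52 (.thr 55 38 (.dbl 23 20 39)))) (.rp 55 (.thr 1 13 (.thr 41 61 (.thr 6 7 (.thr 3 12 (.thr 60 22 (.thr 0 2 (.thr 40 20 (.dbl 42 43 63)))))))) (.rp 52 (.thr 1 13 (.thr 41 61 (.thr 6 7 (.thr 3 12 (.thr 22 60 (.dbl 38 54 55)))))) (.rp 38 (.thr 1 13 (.thr 41 61 (.thr 7 6 (.thr 22 52 (.thr 23 20 (.thr 3 60 (.thr 63 43 (.dbl 0 2 42)))))))) (.rp 7 (.thr 13 1 (.thr 25 49 (.thr 38 55 (.thr 12 51 (.thr 15 14 (.thr 48 26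 (.dbl 36 24 39))))))) (.rp 6 (.thr 13 1 (.thr 25 49 (.thr 38 55 (.thr 36 39 (.thr 12 51 (.thr 48 24 (.dbl 15 14 26))))))) .nd)))))))) (.rp 7 (.str 25 (.nv (.thr 29 17 (.thr 38 55 (.thr 12 51 (.thr 63 46 (.dbl 0 8 42))))) (.nv (.thr 38 55 (.thr 39 36 (.thr 49 13 (.thr 51 12 (.thr 15 27 (.dbl 48 26 50)))))) (.nv (.thr 29 17 (.thr 13 49 (.thr 61 45 (.dbl 1 9 41)))) (.rp 15 (.str 3 (.nv (.thr 13 49 (.thr 38 55 (.thr 12 51 (.dbl 9 1 6)))) (.nv (.thr 29 17 (.thr 38 55 (.thr 12 51 (.thr 63 46 (.dbl 0 8 42))))) (.nv (.thr 29 17 (.thr 13 49 (.thr 61 45 (.dbl 1 9 41)))) (.rp 9 (.str 8 (.nv (.thr 0 12 (.dbl 42 59 63)) (.nv (.thr 12 0 (.dbl 38 51 55)) (.rp 12 (.thr 29 17 (.thr 13 49 (.thr 61 45 (.thr 1 41 (.thr 0 2 (.dbl 42 59 63)))))) (.rp 0 (.thr 17 29 (.thr 49 13 (.thr 33 1 (.thr 48 18 (.thr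 51 50 (.dbl 38 12 55)))))) .nd))))) (.rp 8 (.str 9 (.nv (.thr 12 6 (.dbl 38 51 55)) (.nv (.dbl 13 1 49) .nd))) .nd)))))) (.rp 9 (.str 8 (.nv (.thr 0 12 (.dbl 42 59 63)) (.nv (.thr 12 0 (.dbl 38 51 55)) (.rp 15 (.str 3 (.nv (.thr 0 12 (.dbl 42 59 63)) (.nv (.thr 12 0 (.dbl 38 51 55)) (.rp 12 (.thr 29 17 (.thr 13 49 (.thr 61 45 (.thr 1 41 (.thr 0 2 (.dbl 42 59 63)))))) (.rp 0 (.thr 17 29 (.thr 49 13 (.thr 33 1 (.thr 48 18 (.thr 51 50 (.dbl 38 12 55)))))) .nd))))) (.rp 12 (.thr 17 29 (.thr 49 13 (.thr 33 1 (.thr 38 55 (.thr 42 59 (.thr 32 47 (.dbl 34 35 46))))))) (.rp 3 (.str 15 (.nv (.thr 38 55 (.thr 39 36 (.dbl 51 12 27))) (.nv (.thr 12 0 (.dbl 13 14 49)) (.rp 12 (.str 6 (.nv (.thr 38 55 (.thr 39 36 (.thr 48 26 (.thr 49 13 (.dbl 51 27 50))))) (.nv (.thr 42 59 (.thr 47 32 (.dbl 63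 0 31))) (.rp 42 (.thr 38 55 (.thr 39 36 (.thr 27 51 (.dbl 26 24 48)))) (.rp 27 (.thr 26 48 (.thr 31 16 (.thr 63 47 (.dbl 42 0 59)))) .nd))))) .nd)))) (.rp 0 (.thr 13 49 (.thr 38 55 (.thr 12 51 (.thr 15 14 (.thr 48 26 (.dbl 36 24 39)))))) .nd))))))) (.rp 8 (.str 9 (.nv (.dbl 13 1 49) (.rp 49 (.thr 1 13 (.dbl 41 57 61)) (.rp 15 (.str 3 (.nv (.thr 12 6 (.dbl 38 51 55)) (.nv (.dbl 13 1 49) .nd))) (.rp 13 (.thr 41 57 (.thr 38 55 (.thr 12 51 (.thr 3 6 (.thr 60 22 (.dbl 44 28 35)))))) (.rp 3 (.str 15 (.nv (.thr 38 55 (.thr 39 36 (.dbl 51 12 27))) (.nv (.dbl 13 1 49) .nd))) (.rp 1 (.thr 49 13 (.thr 38 55 (.thr 39 36 (.thr 51 12 (.thr 15 27 (.dbl 48 26 50)))))) .nd))))))) (.rp 3 (.str 15 (.nv (.thr 29 17 (.thr 13 49 (.thr 61 45 (.dbl 1 9 41)))) (.nv (.thr 38 55 (.thr 39 36 (.dbl 51 12 27)))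 (.rp 9 (.str 8 (.nv (.thr 38 55 (.thr 39 36 (.dbl 51 12 27))) (.nv (.thr 12 0 (.dbl 13 14 49)) (.rp 12 (.str 6 (.nv (.thr 38 55 (.thr 39 36 (.thr 48 26 (.thr 49 13 (.dbl 51 27 50))))) (.nv (.thr 42 59 (.thr 47 32 (.dbl 63 0 31))) (.rp 42 (.thr 38 55 (.thr 39 36 (.thr 27 51 (.dbl 26 24 48)))) (.rp 27 (.thr 26 48 (.thr 31 16 (.thr 63 47 (.dbl 42 0 59)))) .nd))))) .nd)))) (.rp 8 (.str 9 (.nv (.thr 38 55 (.thr 39 36 (.dbl 51 12 27))) (.nv (.dbl 13 1 49) .nd))) .nd))))) .nd)))))))) (.rp 6 (.str 32 (.nv (.thr 38 55 (.thr 36 39 (.thr 42 47 (.thr 0 63 (.thr 48 16 (.dbl 12 8 24)))))) (.nv (.thr 38 55 (.thr 42 47 (.thr 0 63 (.thr 34 46 (.thr 51 17 (.dbl 12 8 25)))))) (.nv (.thr 38 55 (.thr 36 39 (.thr 44 40 (.thr 41 35 (.thr 45 33 (.dbl 47 42 46)))))) (.rp 55 (.str 52 (.nv (.thr 20 36 (.dbl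 22 7 23)) (.rp 36 (.thr 22 7 (.thr 42 47 (.thr 0 63 (.thr 48 16 (.thr 60 56 (.dbl 20 23 40)))))) (.rp 23 (.thr 36 20 (.thr 42 47 (.thr 0 63 (.thr 48 16 (.dbl 12 8 24))))) (.rp 22 (.thr 36 20 (.thr 42 47 (.thr 0 63 (.thr 48 16 (.dbl 12 8 24))))) (.rp 20 (.thr 22 7 (.thr 42 47 (.thr 0 63 (.thr 48 16 (.thr 2 62 (.thr 3 1 (.dbl 60 41 56))))))) (.rp 14 (.str 2 (.nv (.thr 42 47 (.dbl 22 7 62)) (.nv (.thr 20 36 (.dbl 22 7 23)) (.rp 22 (.thr 20 36 (.thr 42 47 (.thr 0 63 (.thr 48 16 (.dbl 60 40 56))))) (.rp 9 (.str 8 (.nv (.thr 20 36 (.dbl 22 7 23)) (.nv (.thr 42 47 (.dbl 0 12 63)) (.rp 12 (.str 3 (.nv (.thr 20 36 (.dbl 22 7 23)) (.nv (.thr 0 1 (.dbl 42 47 63)) (.rp 15 (.str 13 (.nv (.thr 20 36 (.dbl 22 7 23)) (.nv (.thr 0 1 (.dbl 42 47 63)) .nd))) (.rp 13 (.str 15 (.nv (.thr 20 36 (.dbl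 22 7 23)) (.nv (.thr 42 47 (.dbl 0 1 63)) .nd))) .nd))))) (.rp 3 (.thr 12 0 (.thr 20 36 (.dbl 22 7 23))) .nd))))) (.rp 8 (.str 9 (.nv (.thr 1 13 (.thr 42 47 (.dbl 0 3 63))) (.nv (.thr 20 36 (.dbl 22 7 23)) .nd))) (.rp 7 (.thr 20 36 (.thr 42 47 (.dbl 22 23 62))) .nd))))))) (.rp 9 (.str 8 (.nv (.thr 20 36 (.dbl 22 7 23)) (.nv (.thr 42 47 (.dbl 0 12 63)) (.rp 14 (.str 2 (.nv (.thr 20 36 (.dbl 22 7 23)) (.nv (.thr 42 47 (.dbl 0 12 63)) (.rp 12 (.str 3 (.nv (.thr 20 36 (.dbl 22 7 23)) (.nv (.thr 0 1 (.dbl 42 47 63)) (.rp 15 (.str 13 (.nv (.thr 20 36 (.dbl 22 7 23)) (.nv (.thr 0 1 (.dbl 42 47 63)) .nd))) (.rp 13 (.str 15 (.nv (.thr 20 36 (.dbl 22 7 23)) (.nv (.thr 42 47 (.dbl 0 1 63)) .nd))) .nd))))) (.rp 3 (.thr 12 0 (.thr 20 36 (.dbl 22 7 23))) .nd))))) (.rp 12 (.str 3 (.nv (.thr 42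 47 (.thr 0 63 (.thr 2 1 (.dbl 22 7 62)))) (.nv (.thr 22 7 (.dbl 20 23 36)) (.rp 22 (.thr 20 36 (.thr 42 47 (.thr 0 63 (.thr 48 16 (.dbl 60 40 56))))) (.rp 14 (.str 2 (.nv (.thr 20 36 (.dbl 22 7 23)) (.nv (.thr 0 1 (.dbl 42 47 63)) (.rp 15 (.str 13 (.nv (.thr 20 36 (.dbl 22 7 23)) (.nv (.thr 0 1 (.dbl 42 47 63)) .nd))) (.rp 13 (.str 15 (.nv (.thr 20 36 (.dbl 22 7 23)) (.nv (.thr 42 47 (.dbl 0 1 63)) .nd))) .nd))))) (.rp 7 (.thr 20 36 (.thr 23 22 (.thr 42 47 (.dbl 63 0 43)))) (.rp 2 (.str 14 (.nv (.thr 20 36 (.thr 23 22 (.thr 42 47 (.dbl 63 0 43)))) (.nv (.thr 22 7 (.dbl 20 23 36)) (.rp 36 (.thr 42 47 (.thr 63 0 (.thr 23 43 (.dbl 22 7 20)))) (.rp 23 (.thr 42 47 (.thr 0 63 (.thr 20 36 (.thr 60 40 (.dbl 48 16 56))))) (.rp 22 (.thr 42 47 (.thr 0 63 (.thr 20 36 (.thr 60 40 (.dbl 48 16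 56))))) (.rp 20 (.thr 42 47 (.thr 0 63 (.thr 22 7 (.thr 60 41 (.dbl 48 16 56))))) .nd))))))) .nd))))))) (.rp 3 (.thr 12 0 (.thr 20 36 (.dbl 22 7 23))) (.rp 2 (.str 14 (.nv (.thr 20 36 (.dbl 22 7 23)) (.nv (.thr 42 47 (.dbl 0 12 63)) (.rp 12 (.str 3 (.nv (.thr 20 36 (.thr 23 22 (.thr 42 47 (.dbl 63 0 43)))) (.nv (.thr 22 7 (.dbl 20 23 36)) (.rp 36 (.thr 42 47 (.thr 63 0 (.thr 23 43 (.dbl 22 7 20)))) (.rp 23 (.thr 42 47 (.thr 0 63 (.thr 20 36 (.thr 60 40 (.dbl 48 16 56))))) (.rp 22 (.thr 42 47 (.thr 0 63 (.thr 20 36 (.thr 60 40 (.dbl 48 16 56))))) (.rp 20 (.thr 42 47 (.thr 0 63 (.thr 22 7 (.thr 60 41 (.dbl 48 16 56))))) .nd))))))) (.rp 3 (.thr 12 0 (.str 1 (.nv (.thr 15 13 (.thr 26 48 (.thr 31 16 (.dbl 47 42 63)))) (.nv (.thr 20 36 (.dbl 22 7 23)) (.rp 15 (.thr 7 22 (.thr 36 20 (.thr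 40 44 (.dbl 24 48 56)))) .nd))))) .nd))))) .nd))))))) (.rp 8 (.str 9 (.nv (.thr 20 36 (.dbl 22 7 23)) (.rp 36 (.thr 1 13 (.thr 22 7 (.thr 42 47 (.thr 0 63 (.dbl 2 3 62))))) (.rp 23 (.thr 1 13 (.thr 41 61 (.thr 36 20 (.thr 44 40 (.dbl 38 35 39))))) (.rp 22 (.thr 1 13 (.thr 41 61 (.thr 36 20 (.thr 44 40 (.dbl 38 35 39))))) (.rp 20 (.thr 1 13 (.thr 22 7 (.thr 42 47 (.thr 0 63 (.dbl 2 3 62))))) (.rp 14 (.str 2 (.nv (.thr 1 13 (.thr 42 47 (.dbl 0 3 63))) (.nv (.thr 20 36 (.dbl 22 7 23)) .nd))) (.rp 7 (.thr 1 13 (.thr 41 61 (.thr 36 20 (.thr 44 40 (.dbl 38 35 39))))) (.rp 2 (.str 14 (.nv (.thr 20 36 (.dbl 22 7 23)) (.rp 36 (.thr 13 1 (.thr 15 12 (.thr 48 26 (.thr 0 16 (.dbl 42 47 63))))) (.rp 23 (.thr 20 36 (.thr 42 47 (.thr 0 63 (.thr 60 40 (.dbl 48 16 56))))) (.rp 22 (.thr 20 36 (.thr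 42 47 (.thr 0 63 (.thr 60 40 (.dbl 48 16 56))))) (.rp 20 (.thr 13 1 (.thr 15 12 (.thr 48 26 (.thr 0 16 (.dbl 42 47 63))))) (.rp 7 (.thr 20 36 (.thr 42 47 (.thr 0 63 (.thr 60 40 (.dbl 48 16 56))))) .nd))))))) .nd))))))))) (.rp 7 (.thr 36 20 (.thr 42 47 (.thr 0 63 (.thr 48 16 (.dbl 12 8 24))))) (.rp 2 (.str 14 (.nv (.thr 20 36 (.dbl 22 7 23)) (.rp 36 (.thr 42 47 (.thr 0 63 (.thr 48 16 (.thr 15 26 (.dbl 12 8 13))))) (.rp 23 (.thr 20 36 (.thr 42 47 (.thr 0 63 (.thr 60 40 (.dbl 48 16 56))))) (.rp 22 (.thr 20 36 (.thr 42 47 (.thr 0 63 (.thr 60 40 (.dbl 48 16 56))))) (.rp 20 (.thr 42 47 (.thr 0 63 (.thr 48 16 (.thr 15 26 (.dbl 12 8 13))))) (.rp 9 (.str 8 (.nv (.thr 20 36 (.dbl 22 7 23)) (.nv (.thr 42 47 (.dbl 0 12 63)) (.rp 12 (.str 3 (.nv (.thr 20 36 (.thr 23 22 (.thr 42 47 (.dbl 63 0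 43)))) (.nv (.thr 22 7 (.dbl 20 23 36)) (.rp 36 (.thr 42 47 (.thr 63 0 (.thr 23 43 (.dbl 22 7 20)))) (.rp 23 (.thr 42 47 (.thr 0 63 (.thr 20 36 (.thr 60 40 (.dbl 48 16 56))))) (.rp 22 (.thr 42 47 (.thr 0 63 (.thr 20 36 (.thr 60 40 (.dbl 48 16 56))))) (.rp 20 (.thr 42 47 (.thr 0 63 (.thr 22 7 (.thr 60 41 (.dbl 48 16 56))))) .nd))))))) (.rp 3 (.thr 12 0 (.str 1 (.nv (.thr 15 13 (.thr 26 48 (.thr 31 16 (.dbl 47 42 63)))) (.nv (.thr 20 36 (.dbl 22 7 23)) (.rp 15 (.thr 7 22 (.thr 36 20 (.thr 40 44 (.dbl 24 48 56)))) .nd))))) .nd))))) (.rp 8 (.str 9 (.nv (.thr 20 36 (.dbl 22 7 23)) (.rp 36 (.thr 13 1 (.thr 15 12 (.thr 48 26 (.thr 0 16 (.dbl 42 47 63))))) (.rp 23 (.thr 20 36 (.thr 42 47 (.thr 0 63 (.thr 60 40 (.dbl 48 16 56))))) (.rp 22 (.thr 20 36 (.thr 42 47 (.thr 0 63 (.thr 60 40 (.dbl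 48 16 56))))) (.rp 20 (.thr 13 1 (.thr 15 12 (.thr 48 26 (.thr 0 16 (.dbl 42 47 63))))) (.rp 7 (.thr 20 36 (.thr 42 47 (.thr 0 63 (.thr 60 40 (.dbl 48 16 56))))) .nd))))))) (.rp 7 (.thr 20 36 (.thr 42 47 (.thr 0 63 (.thr 60 40 (.dbl 48 16 56))))) .nd))))))))) .nd))))))))))) (.rp 54 (.thr 42 47 (.thr 0 63 (.thr 48 16 (.thr 8 12 (.thr 25 59 (.thr 49 13 (.thr 51 50 (.dbl 17 29 34)))))))) (.rp 52 (.thr 42 47 (.thr 0 63 (.thr 48 16 (.thr 8 12 (.thr 25 59 (.thr 49 13 (.thr 51 50 (.dbl 17 29 34)))))))) (.rp 47 (.thr 38 55 (.thr 36 39 (.thr 44 40 (.thr 35 41 (.thr 34 33 (.thr 42 46 (.thr 0 63 (.thr 51 17 (.dbl 12 8 25))))))))) (.rp 42 (.thr 38 55 (.thr 36 39 (.thr 44 40 (.thr 41 35 (.thr 33 45 (.thr 1 61 (.thr 49 17 (.dbl 13 9 25)))))))) (.rp 38 (.thr 42 47 (.thr 0 63 (.thr 48 16 (.thr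 8 12 (.thr 25 59 (.thr 49 13 (.thr 51 50 (.dbl 17 29 34)))))))) (.rp 14 (.str 2 (.nv (.thr 42 47 (.thr 0 63 (.thr 8 12 (.thr 25 59 (.thr 13 49 (.dbl 1 3 9)))))) (.nv (.thr 42 47 (.thr 22 62 (.thr 20 23 (.dbl 52 7 36)))) (.rp 47 (.thr 38 55 (.thr 36 39 (.thr 52 20 (.thr 44 40 (.thr 35 41 (.thr 34 33 (.thr 42 46 (.dbl 22 7 62)))))))) (.rp 46 (.thr 38 55 (.thr 36 39 (.thr 52 20 (.thr 42 47 (.dbl 22 7 62))))) (.rp 42 (.thr 38 55 (.thr 36 39 (.thr 44 40 (.thr 41 35 (.thr 33 45 (.thr 1 61 (.thr 49 17 (.dbl 13 9 25)))))))) (.rp 9 (.str 8 (.nv (.thr 12 0 (.thr 38 55 (.thr 42 47 (.dbl 25 51 59)))) (.nv (.thr 42 47 (.dbl 0 12 63)) (.rp 47 (.thr 12 0 (.thr 38 55 (.thr 36 39 (.thr 24 48 (.dbl 40 44 56))))) (.rp 42 (.thr 12 0 (.thr 38 55 (.thr 36 39 (.thr 24 48 (.dbl 40 44 56))))) (.rp 12 (.str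 3 (.nv (.thr 42 47 (.thr 22 62 (.thr 20 23 (.dbl 52 7 36)))) (.nv (.thr 0 1 (.dbl 42 47 63)) (.rp 47 (.thr 0 1 (.thr 38 55 (.thr 36 39 (.thr 40 44 (.dbl 20 52 60))))) (.rp 42 (.thr 0 1 (.thr 38 55 (.thr 36 39 (.thr 40 44 (.dbl 20 52 60))))) (.rp 15 (.str 13 (.nv (.thr 25 49 (.dbl 42 47 59)) (.nv (.thr 1 0 (.thr 25 49 (.thr 29 17 (.dbl 61 41 45)))) (.nv (.thr 0 1 (.dbl 42 47 63)) .nd)))) (.rp 13 (.str 15 (.nv (.thr 26 48 (.thr 31 16 (.dbl 47 42 63))) (.nv (.thr 0 1 (.dbl 48 16 26)) (.nv (.thr 0 1 (.dbl 42 47 63)) .nd)))) .nd))))))) (.rp 0 (.thr 42 47 (.thr 22 62 (.thr 52 7 (.dbl 20 23 36)))) .nd))))))) (.rp 8 (.str 9 (.nv (.thr 1 13 (.thr 38 55 (.thr 36 39 (.thr 41 61 (.dbl 44 35 40))))) (.nv (.thr 42 47 (.thr 22 62 (.thr 20 23 (.dbl 52 7 36)))) (.nv (.thr 1 13 (.thr 42 47 (.dbl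 0 3 63))) .nd)))) .nd)))))))) (.rp 9 (.str 8 (.nv (.thr 12 0 (.thr 38 55 (.thr 42 47 (.dbl 25 51 59)))) (.nv (.thr 42 47 (.dbl 0 12 63)) (.rp 47 (.thr 12 0 (.thr 38 55 (.thr 36 39 (.thr 24 48 (.dbl 40 44 56))))) (.rp 42 (.thr 12 0 (.thr 38 55 (.thr 36 39 (.thr 24 48 (.dbl 40 44 56))))) (.rp 14 (.str 2 (.nv (.thr 12 0 (.thr 38 55 (.thr 42 47 (.dbl 25 51 59)))) (.nv (.thr 42 47 (.dbl 0 12 63)) (.rp 47 (.thr 12 0 (.thr 38 55 (.thr 36 39 (.thr 24 48 (.dbl 40 44 56))))) (.rp 42 (.thr 12 0 (.thr 38 55 (.thr 36 39 (.thr 24 48 (.dbl 40 44 56))))) (.rp 12 (.str 3 (.nv (.thr 42 47 (.thr 22 62 (.thr 20 23 (.dbl 52 7 36)))) (.nv (.thr 0 1 (.dbl 42 47 63)) (.rp 47 (.thr 0 1 (.thr 38 55 (.thr 36 39 (.thr 40 44 (.dbl 20 52 60))))) (.rp 42 (.thr 0 1 (.thr 38 55 (.thr 36 39 (.thr 40 44 (.dbl 20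 52 60))))) (.rp 15 (.str 13 (.nv (.thr 25 49 (.dbl 42 47 59)) (.nv (.thr 1 0 (.thr 25 49 (.thr 29 17 (.dbl 61 41 45)))) (.nv (.thr 0 1 (.dbl 42 47 63)) .nd)))) (.rp 13 (.str 15 (.nv (.thr 26 48 (.thr 31 16 (.dbl 47 42 63))) (.nv (.thr 0 1 (.dbl 48 16 26)) (.nv (.thr 0 1 (.dbl 42 47 63)) .nd)))) .nd))))))) (.rp 0 (.thr 42 47 (.thr 22 62 (.thr 52 7 (.dbl 20 23 36)))) .nd))))))) (.rp 12 (.str 3 (.nv (.thr 38 55 (.thr 36 39 (.thr 44 40 (.thr 41 35 (.thr 22 60 (.dbl 20 23 52)))))) (.nv (.thr 42 47 (.thr 0 63 (.thr 48 16 (.thr 33 18 (.thr 41 45 (.dbl 1 2 61)))))) (.nv (.thr 55 38 (.thr 42 47 (.thr 63 0 (.dbl 59 25 51)))) (.rp 47 (.thr 38 55 (.thr 36 39 (.thr 52 20 (.thr 40 44 (.thr 56 24 (.thr 60 48 (.dbl 22 7 41))))))) (.rp 14 (.str 2 (.nv (.thr 42 47 (.thr 22 62 (.thr 20 23 (.dbl 52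 7 36)))) (.nv (.thr 0 1 (.dbl 42 47 63)) (.rp 47 (.thr 0 1 (.thr 38 55 (.thr 36 39 (.thr 40 44 (.dbl 20 52 60))))) (.rp 42 (.thr 0 1 (.thr 38 55 (.thr 36 39 (.thr 40 44 (.dbl 20 52 60))))) (.rp 15 (.str 13 (.nv (.thr 25 49 (.dbl 42 47 59)) (.nv (.thr 1 0 (.thr 25 49 (.thr 29 17 (.dbl 61 41 45)))) (.nv (.thr 0 1 (.dbl 42 47 63)) .nd)))) (.rp 13 (.str 15 (.nv (.thr 26 48 (.thr 31 16 (.dbl 47 42 63))) (.nv (.thr 0 1 (.dbl 48 16 26)) (.nv (.thr 0 1 (.dbl 42 47 63)) .nd)))) .nd))))))) (.rp 2 (.str 14 (.nv (.thr 38 55 (.thr 26 50 (.thr 16 31 (.dbl 48 0 15)))) (.nv (.thr 42 47 (.thr 63 0 (.thr 55 38 (.dbl 59 25 51)))) (.rp 55 (.thr 42 47 (.thr 63 0 (.thr 43 23 (.thr 41 40 (.thr 61 1 (.dbl 60 22 62)))))) (.rp 54 (.thr 42 47 (.thr 63 0 (.thr 59 25 (.dbl 55 38 51)))) (.rp 38 (.thr 42 47 (.thr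 63 0 (.thr 43 23 (.thr 41 40 (.thr 61 1 (.dbl 60 22 62)))))) (.rp 0 (.thr 47 42 (.thr 38 55 (.thr 26 50 (.thr 31 16 (.dbl 15 48 63))))) .nd))))))) .nd))))))) (.rp 2 (.str 14 (.nv (.thr 12 0 (.thr 13 15 (.thr 25 49 (.dbl 38 51 55)))) (.nv (.thr 42 47 (.dbl 0 12 63)) (.rp 12 (.str 3 (.nv (.thr 38 55 (.thr 26 50 (.thr 16 31 (.dbl 48 0 15)))) (.nv (.thr 42 47 (.thr 63 0 (.thr 55 38 (.dbl 59 25 51)))) (.rp 55 (.thr 42 47 (.thr 63 0 (.thr 43 23 (.thr 41 40 (.thr 61 1 (.dbl 60 22 62)))))) (.rp 54 (.thr 42 47 (.thr 63 0 (.thr 59 25 (.dbl 55 38 51)))) (.rp 38 (.thr 42 47 (.thr 63 0 (.thr 43 23 (.thr 41 40 (.thr 61 1 (.dbl 60 22 62)))))) (.rp 0 (.thr 47 42 (.thr 38 55 (.thr 26 50 (.thr 31 16 (.dbl 15 48 63))))) .nd))))))) (.rp 3 (.thr 12 0 (.str 1 (.nv (.thr 42 47 (.thr 25 59 (.dbl 13 15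 49))) (.nv (.thr 15 13 (.thr 38 55 (.dbl 26 48 50))) (.rp 15 (.str 7 (.nv (.thr 42 47 (.thr 25 59 (.thr 17 29 (.dbl 49 13 33)))) (.nv (.thr 22 52 (.thr 55 38 (.dbl 23 20 39))) .nd))) (.rp 13 (.thr 42 47 (.thr 25 59 (.dbl 38 51 55))) .nd)))))) (.rp 0 (.thr 42 47 (.thr 25 59 (.thr 13 49 (.thr 12 15 (.dbl 38 51 55))))) .nd)))))) (.rp 0 (.thr 38 55 (.thr 36 39 (.thr 44 40 (.thr 41 35 (.thr 45 33 (.dbl 47 42 46)))))) .nd))))))))) (.rp 8 (.str 9 (.nv (.thr 1 13 (.thr 41 61 (.thr 42 47 (.thr 40 43 (.thr 36 44 (.dbl 38 39 55)))))) (.nv (.thr 1 13 (.thr 38 55 (.thr 36 39 (.thr 40 44 (.thr 42 47 (.thr 0 63 (.dbl 20 52 60))))))) (.nv (.thr 1 13 (.thr 41 61 (.thr 38 55 (.thr 35 44 (.dbl 33 34 45))))) (.rp 55 (.thr 1 13 (.thr 41 61 (.thr 45 33 (.thr 47 42 (.thr 44 46 (.thr 36 40 (.dbl 38 35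 39))))))) (.rp 45 (.thr 1 13 (.thr 38 55 (.thr 36 39 (.thr 44 40 (.dbl 41 35 61))))) (.rp 44 (.thr 1 13 (.thr 41 61 (.thr 38 55 (.thr 39 36 (.thr 47 42 (.thr 35 43 (.dbl 33 34 45))))))) (.rp 38 (.thr 1 13 (.thr 41 61 (.thr 42 47 (.thr 0 63 (.thr 40 43 (.thr 36 44 (.dbl 20 52 60))))))) (.rp 35 (.thr 1 13 (.thr 41 61 (.thr 38 55 (.thr 36 39 (.thr 40 44 (.dbl 42 43 47)))))) (.rp 14 (.str 2 (.nv (.thr 1 13 (.thr 38 55 (.thr 36 39 (.thr 41 61 (.dbl 44 35 40))))) (.nv (.thr 42 47 (.thr 22 62 (.thr 20 23 (.dbl 52 7 36)))) (.nv (.thr 1 13 (.thr 42 47 (.dbl 0 3 63))) .nd)))) (.rp 13 (.thr 38 55 (.thr 36 39 (.thr 44 40 (.thr 41 35 (.thr 45 33 (.dbl 47 42 46)))))) (.rp 2 (.str 14 (.nv (.thr 38 55 (.thr 26 50 (.thr 16 31 (.dbl 48 0 15)))) (.nv (.thr 1 13 (.thr 38 55 (.thr 36 39 (.thr 41 61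 (.dbl 44 35 40))))) (.nv (.thr 42 47 (.thr 0 63 (.thr 48 16 (.thr 13 1 (.dbl 15 12 26))))) .nd)))) (.rp 1 (.thr 38 55 (.thr 36 39 (.thr 44 40 (.thr 41 35 (.thr 45 33 (.dbl 47 42 46)))))) .nd))))))))))))) (.rp 2 (.str 14 (.nv (.thr 42 47 (.thr 0 63 (.thr 48 16 (.thr 15 26 (.dbl 12 8 13))))) (.nv (.thr 38 55 (.thr 36 39 (.thr 44 40 (.thr 41 35 (.thr 45 33 (.dbl 47 42 46)))))) (.nv (.thr 38 55 (.thr 26 50 (.thr 16 31 (.dbl 48 0 15)))) (.rp 9 (.str 8 (.nv (.thr 12 0 (.thr 13 15 (.thr 25 49 (.dbl 38 51 55)))) (.nv (.thr 42 47 (.dbl 0 12 63)) (.rp 12 (.str 3 (.nv (.thr 38 55 (.thr 26 50 (.thr 16 31 (.dbl 48 0 15)))) (.nv (.thr 42 47 (.thr 63 0 (.thr 55 38 (.dbl 59 25 51)))) (.rp 55 (.thr 42 47 (.thr 63 0 (.thr 43 23 (.thr 41 40 (.thr 61 1 (.dbl 60 22 62)))))) (.rp 54 (.thr 42 47 (.thr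 63 0 (.thr 59 25 (.dbl 55 38 51)))) (.rp 38 (.thr 42 47 (.thr 63 0 (.thr 43 23 (.thr 41 40 (.thr 61 1 (.dbl 60 22 62)))))) (.rp 0 (.thr 47 42 (.thr 38 55 (.thr 26 50 (.thr 31 16 (.dbl 15 48 63))))) .nd))))))) (.rp 3 (.thr 12 0 (.str 1 (.nv (.thr 42 47 (.thr 25 59 (.dbl 13 15 49))) (.nv (.thr 15 13 (.thr 38 55 (.dbl 26 48 50))) (.rp 15 (.str 7 (.nv (.thr 42 47 (.thr 25 59 (.thr 17 29 (.dbl 49 13 33)))) (.nv (.thr 22 52 (.thr 55 38 (.dbl 23 20 39))) .nd))) (.rp 13 (.thr 42 47 (.thr 25 59 (.dbl 38 51 55))) .nd)))))) (.rp 0 (.thr 42 47 (.thr 25 59 (.thr 13 49 (.thr 12 15 (.dbl 38 51 55))))) .nd)))))) (.rp 8 (.str 9 (.nv (.thr 38 55 (.thr 26 50 (.thr 16 31 (.dbl 48 0 15)))) (.nv (.thr 1 13 (.thr 38 55 (.thr 36 39 (.thr 41 61 (.dbl 44 35 40))))) (.nv (.thr 42 47 (.thr 0 63 (.thr 48 16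 (.thr 13 1 (.dbl 15 12 26))))) .nd)))) .nd)))))) .nd)))))))))))))) .nd))))))))))))))

theorem w337 : WinAt (137441050656, 9007199254744064) :=
  chF (K := []) kn c337 137441050656 9007199254744064 53
    [3840] (by decide +kernel) (by decide +kernel)

/-- A certificate. -/
noncomputable def c338 : Ct := (.str 1 (.nv (.thr 13 9 (.thr 25 49 (.thr 61 41 (.dbl 29 17 45)))) (.nv (.thr 41 61 (.thr 33 45 (.thr 49 17 (.dbl 13 9 25)))) (.rp 61 (.str 3 (.nv (.thr 0 2 (.thr 13 9 (.thr 42 63 (.thr 32 47 (.thr 48 16 (.thr 33 18 (.dbl 49 17 25))))))) (.nv (.thr 13 9 (.thr 49 25 (.thr 33 17 (.thr 41 45 (.thr 48 18 (.thr 60 22 (.thr 26 15 (.dbl 56 11 52)))))))) (.nv (.thr 0 2 (.thr 63 42 (.thr 23 43 (.thr 22 20 (.thr 7 52 (.thr 55 39 (.dbl 4 6 38))))))) (.nv (.thr 13 9 (.thr 49 25 (.thr 33 17 (.thr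 48 18 (.thr 26 15 (.thr 16 31 (.dbl 0 2 32))))))) (.rp 57 (.str 49 (.nv (.dbl 13 9 25) (.rp 25 (.thr 33 17 (.thr 0 2 (.thr 42 63 (.thr 32 47 (.dbl 48 16 18))))) (.rp 13 (.thr 33 17 (.thr 0 2 (.thr 42 63 (.thr 32 47 (.dbl 48 16 18))))) (.rp 9 (.thr 25 13 (.dbl 17 29 33)) .nd))))) (.rp 49 (.str 57 (.nv (.thr 0 2 (.thr 9 13 (.thr 41 25 (.thr 42 63 (.thr 32 47 (.thr 48 16 (.dbl 33 18 45))))))) (.nv (.thr 0 2 (.thr 63 42 (.thr 23 43 (.thr 22 20 (.thr 7 52 (.thr 55 39 (.dbl 4 6 38))))))) (.nv (.thr 9 13 (.thr 41 25 (.thr 45 33 (.thr 60 22 (.thr 15 30 (.thr 11 7 (.dbl 26 48 56))))))) (.nv (.thr 0 2 (.thr 63 42 (.thr 23 43 (.thr 22 20 (.thr 41 60 (.dbl 9 13 25)))))) (.rp 41 (.thr 0 2 (.thr 42 63 (.thr 32 47 (.thr 48 16 (.thr 15 26 (.thr 33 18 (.thr 34 35 (.thr 17 51 (.thr 29 25 (.thr 38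 46 (.thr 39 36 (.thr 55 4 (.dbl 7 11 23))))))))))))) (.rp 14 (.str 7 (.nv (.thr 13 9 (.thr 22 52 (.thr 60 41 (.thr 54 51 (.dbl 6 4 38))))) (.nv (.thr 15 11 (.thr 26 48 (.thr 31 16 (.thr 63 47 (.dbl 0 2 42))))) (.nv (.thr 2 0 (.thr 4 6 (.thr 38 55 (.thr 52 22 (.dbl 36 20 39))))) (.rp 6 (.thr 2 0 (.thr 22 52 (.thr 41 60 (.dbl 9 13 25)))) (.rp 2 (.thr 6 4 (.thr 22 52 (.thr 41 60 (.dbl 9 13 25)))) .nd)))))) .nd))))))) .nd))))))) (.rp 49 (.thr 61 41 (.str 42 (.nv (.thr 0 63 (.thr 2 3 (.thr 22 62 (.thr 7 52 (.thr 23 20 (.thr 55 39 (.dbl 4 6 38))))))) (.nv (.thr 47 32 (.thr 63 0 (.thr 15 31 (.thr 60 62 (.thr 45 30 (.dbl 13 9 29)))))) (.rp 63 (.thr 13 9 (.thr 47 32 (.thr 45 29 (.thr 46 44 (.thr 38 34 (.thr 4 55 (.thr 36 39 (.thr 52 20 (.dbl 7 6 22))))))))) (.rp 62 (.thr 13 9 (.thr 45 29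 (.thr 47 32 (.thr 46 44 (.thr 38 34 (.thr 4 55 (.thr 36 39 (.thr 52 20 (.dbl 7 6 22))))))))) (.rp 48 (.thr 13 9 (.thr 45 29 (.thr 63 0 (.thr 60 62 (.thr 15 30 (.dbl 47 31 32)))))) (.rp 46 (.thr 13 9 (.thr 45 29 (.thr 63 0 (.thr 47 32 (.thr 15 31 (.dbl 60 30 62)))))) (.rp 29 (.thr 63 0 (.thr 47 32 (.thr 15 31 (.thr 62 60 (.thr 22 2 (.thr 7 52 (.thr 3 11 (.dbl 23 20 43)))))))) (.rp 9 (.thr 63 0 (.thr 47 32 (.thr 31 15 (.thr 16 26 (.thr 62 60 (.thr 22 2 (.thr 20 23 (.thr 28 24 (.thr 25 19 (.dbl 29 17 30)))))))))) (.rp 4 (.thr 0 63 (.thr 2 3 (.thr 22 62 (.thr 32 47 (.thr 48 16 (.thr 52 7 (.thr 60 56 (.dbl 20 23 40)))))))) (.rp 0 (.thr 13 9 (.thr 45 29 (.thr 47 32 (.thr 46 44 (.thr 38 34 (.thr 4 55 (.thr 36 39 (.thr 52 20 (.dbl 7 6 22))))))))) .nd)))))))))))) (.rp 45 (.str 7 (.nv (.thr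 4 6 (.thr 22 52 (.thr 55 38 (.dbl 23 20 39)))) (.nv (.thr 22 52 (.thr 23 20 (.thr 41 61 (.thr 3 60 (.thr 63 43 (.dbl 0 2 42)))))) (.nv (.thr 22 52 (.thr 23 20 (.thr 55 39 (.dbl 4 6 38)))) (.rp 55 (.thr 41 61 (.thr 6 4 (.thr 22 52 (.thr 54 38 (.thr 3 60 (.thr 0 2 (.thr 63 42 (.dbl 23 20 43)))))))) (.rp 52 (.thr 41 61 (.thr 4 6 (.thr 55 38 (.thr 23 39 (.thr 22 20 (.thr 3 60 (.thr 63 43 (.dbl 0 2 42)))))))) (.rp 23 (.thr 4 6 (.thr 38 55 (.thr 36 39 (.dbl 52 20 22)))) (.rp 22 (.thr 41 61 (.thr 4 6 (.thr 38 55 (.thr 39 36 (.thr 35 44 (.thr 47 43 (.thr 32 42 (.thr 33 34 (.thr 49 17 (.dbl 13 9 25)))))))))) (.rp 20 (.thr 41 61 (.thr 13 9 (.thr 49 25 (.thr 33 17 (.thr 22 52 (.thr 3 60 (.thr 48 18 (.dbl 15 11 26)))))))) (.rp 4 (.thr 41 61 (.thr 22 52 (.thr 3 60 (.thr 0 2 (.thr 63 42 (.dbl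 23 20 43)))))) .nd)))))))))) (.rp 41 (.str 22 (.nv (.thr 23 20 (.thr 7 52 (.thr 55 39 (.dbl 4 6 38)))) (.rp 55 (.thr 20 23 (.thr 13 9 (.thr 25 49 (.thr 29 17 (.thr 28 19 (.thr 31 30 (.dbl 16 24 26))))))) (.rp 52 (.thr 20 23 (.thr 13 9 (.thr 25 49 (.thr 29 17 (.thr 28 19 (.thr 31 30 (.dbl 16 24 26))))))) (.rp 39 (.thr 20 23 (.thr 13 9 (.thr 25 49 (.thr 29 17 (.thr 28 19 (.thr 31 30 (.dbl 16 24 26))))))) (.rp 38 (.thr 20 23 (.thr 13 9 (.thr 25 49 (.thr 29 17 (.thr 28 19 (.thr 31 30 (.dbl 16 24 26))))))) (.rp 36 (.thr 23 20 (.thr 7 52 (.thr 4 6 (.dbl 55 38 39)))) (.rp 23 (.str 4 (.nv (.dbl 7 6 52) (.rp 52 (.thr 6 7 (.dbl 38 54 55)) (.rp 7 (.thr 13 9 (.thr 25 49 (.thr 29 17 (.thr 28 19 (.thr 31 30 (.thr 16 26 (.thr 20 24 (.thr 36 52 (.dbl 38 39 55))))))))) (.rp 6 (.thr 52 7 (.thr 36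 20 (.dbl 38 39 55))) .nd))))) (.rp 20 (.thr 7 52 (.thr 13 9 (.thr 25 49 (.thr 17 29 (.thr 19 28 (.thr 16 18 (.thr 31 26 (.thr 23 27 (.thr 55 39 (.dbl 4 6 38)))))))))) (.rp 7 (.thr 20 23 (.thr 13 9 (.thr 25 49 (.thr 29 17 (.thr 28 19 (.thr 31 30 (.dbl 16 24 26))))))) (.rp 6 (.thr 23 20 (.str 3 (.nv (.thr 63 43 (.dbl 0 2 42)) (.rp 63 (.thr 13 9 (.thr 25 49 (.thr 19 28 (.thr 31 27 (.thr 16 26 (.dbl 17 18 29)))))) (.rp 43 (.thr 7 52 (.thr 15 11 (.thr 26 48 (.thr 31 16 (.thr 63 47 (.dbl 0 2 42)))))) (.rp 42 (.thr 7 52 (.thr 15 11 (.thr 26 48 (.thr 31 16 (.dbl 63 43 47))))) (.rp 40 (.thr 7 52 (.thr 15 11 (.thr 26 48 (.thr 31 16 (.dbl 63 43 47))))) (.rp 14 (.thr 2 0 (.thr 7 52 (.thr 15 11 (.thr 26 48 (.thr 63 43 (.dbl 31 16 47)))))) (.rp 2 (.str 14 (.nv (.thr 7 52 (.thr 9 13 (.thr 15 11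 (.thr 26 48 (.thr 38 50 (.dbl 39 36 55)))))) (.nv (.thr 13 9 (.thr 25 49 (.thr 19 28 (.thr 31 27 (.thr 16 26 (.dbl 17 18 29)))))) (.nv (.thr 63 43 (.thr 42 0 (.thr 47 32 (.thr 15 31 (.dbl 7 11 52))))) (.rp 60 (.thr 7 52 (.thr 15 11 (.thr 63 43 (.thr 31 47 (.dbl 26 16 48))))) (.rp 11 (.thr 7 52 (.thr 55 39 (.thr 4 38 (.thr 63 43 (.thr 42 0 (.thr 47 32 (.thr 59 51 (.thr 25 8 (.thr 9 13 (.thr 19 28 (.dbl 31 15 27))))))))))) .nd)))))) (.rp 0 (.thr 7 52 (.thr 15 11 (.thr 26 48 (.thr 63 43 (.dbl 31 16 47))))) .nd)))))))))) (.rp 4 (.thr 20 23 (.thr 13 9 (.thr 25 49 (.thr 29 17 (.thr 28 19 (.thr 31 30 (.dbl 16 24 26))))))) .nd)))))))))))) (.rp 29 (.thr 13 9 (.thr 49 25 (.thr 33 17 (.dbl 41 45 61)))) (.rp 25 (.str 4 (.nv (.thr 7 6 (.thr 52 22 (.thr 38 55 (.dbl 36 20 39)))) (.nv (.thr 38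 55 (.thr 36 39 (.thr 52 20 (.dbl 7 6 22)))) (.rp 55 (.thr 41 61 (.thr 45 33 (.thr 7 6 (.thr 52 22 (.thr 36 20 (.thr 38 39 (.thr 44 35 (.thr 32 40 (.dbl 47 42 46))))))))) (.rp 52 (.thr 41 61 (.thr 33 45 (.thr 6 7 (.thr 38 55 (.thr 54 22 (.thr 39 36 (.thr 35 44 (.thr 47 43 (.dbl 32 34 42))))))))) (.rp 39 (.thr 41 61 (.thr 33 45 (.thr 7 6 (.thr 22 52 (.thr 3 60 (.thr 15 11 (.dbl 48 18 26))))))) (.rp 38 (.str 51 (.nv (.thr 7 6 (.thr 22 52 (.thr 23 20 (.thr 55 39 (.thr 63 59 (.thr 3 43 (.dbl 0 2 42))))))) (.nv (.thr 41 61 (.thr 33 45 (.thr 49 17 (.thr 48 50 (.thr 3 18 (.thr 7 6 (.dbl 15 11 26))))))) (.nv (.thr 7 6 (.thr 22 52 (.thr 23 20 (.thr 55 39 (.thr 41 61 (.thr 63 59 (.dbl 3 43 60))))))) (.rp 54 (.thr 41 61 (.thr 33 45 (.thr 49 17 (.thr 48 50 (.thr 3 18 (.thr 7 6 (.dbl 22 52 60)))))))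 (.rp 22 (.thr 41 61 (.thr 33 45 (.thr 49 17 (.thr 48 50 (.thr 3 18 (.thr 26 15 (.thr 16 31 (.dbl 0 2 32)))))))) (.rp 14 (.thr 13 9 (.thr 41 61 (.thr 33 45 (.thr 49 17 (.thr 48 50 (.thr 26 15 (.thr 3 18 (.thr 60 22 (.dbl 56 11 52))))))))) (.rp 7 (.thr 41 61 (.thr 33 45 (.thr 49 17 (.thr 48 50 (.thr 3 18 (.thr 60 22 (.thr 56 52 (.dbl 26 11 15)))))))) (.rp 6 (.thr 41 61 (.thr 33 45 (.thr 49 17 (.thr 48 50 (.thr 3 18 (.thr 22 60 (.thr 52 7 (.dbl 20 23 36)))))))) (.rp 3 (.thr 7 6 (.thr 9 13 (.thr 22 52 (.thr 23 20 (.thr 55 39 (.thr 61 41 (.thr 63 59 (.thr 42 0 (.dbl 62 2 60))))))))) (.rp 2 (.thr 41 61 (.thr 33 45 (.thr 49 17 (.thr 48 50 (.thr 26 15 (.thr 56 11 (.thr 60 52 (.dbl 3 18 22)))))))) .nd))))))))))) (.rp 36 (.thr 7 6 (.thr 22 52 (.thr 23 20 (.dbl 55 38 39)))) (.rp 22 (.thr 41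 61 (.thr 33 45 (.thr 38 55 (.thr 39 36 (.thr 35 44 (.thr 47 43 (.dbl 32 34 42))))))) (.rp 20 (.thr 41 61 (.thr 33 45 (.thr 7 6 (.thr 22 52 (.thr 3 60 (.thr 15 11 (.dbl 48 18 26))))))) (.rp 7 (.thr 41 61 (.thr 33 45 (.thr 38 55 (.thr 39 36 (.thr 35 44 (.thr 47 43 (.dbl 32 34 42))))))) (.rp 6 (.thr 41 61 (.thr 33 45 (.thr 38 55 (.thr 39 36 (.thr 35 44 (.thr 47 43 (.dbl 32 34 42))))))) .nd)))))))))))) (.rp 17 (.str 4 (.nv (.thr 7 6 (.thr 22 52 (.thr 55 38 (.dbl 23 20 39)))) (.nv (.thr 38 55 (.thr 36 39 (.thr 52 20 (.dbl 7 6 22)))) (.rp 55 (.thr 41 61 (.thr 45 33 (.thr 7 6 (.thr 52 22 (.thr 36 20 (.thr 38 39 (.thr 44 35 (.thr 32 40 (.dbl 47 42 46))))))))) (.rp 52 (.thr 41 61 (.thr 7 6 (.thr 55 38 (.thr 23 39 (.thr 22 20 (.thr 3 60 (.thr 63 43 (.dbl 0 2 42)))))))) (.rp 39 (.thr 41 61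 (.thr 33 45 (.thr 7 6 (.thr 22 52 (.thr 3 60 (.thr 15 11 (.dbl 48 18 26))))))) (.rp 38 (.thr 41 61 (.thr 33 45 (.thr 7 6 (.thr 22 52 (.thr 3 60 (.thr 15 11 (.dbl 48 18 26))))))) (.rp 23 (.thr 7 6 (.thr 52 22 (.thr 36 20 (.dbl 38 39 55)))) (.rp 22 (.thr 41 61 (.thr 33 45 (.thr 38 55 (.thr 39 36 (.thr 35 44 (.thr 47 43 (.dbl 32 34 42))))))) (.rp 20 (.thr 41 61 (.thr 33 45 (.thr 7 6 (.thr 22 52 (.thr 3 60 (.thr 15 11 (.dbl 48 18 26))))))) (.rp 7 (.thr 41 61 (.thr 33 45 (.thr 38 55 (.thr 39 36 (.thr 35 44 (.thr 47 43 (.dbl 32 34 42))))))) (.rp 6 (.thr 41 61 (.thr 33 45 (.thr 38 55 (.thr 39 36 (.thr 35 44 (.thr 47 43 (.dbl 32 34 42))))))) .nd)))))))))))) (.rp 13 (.str 15 (.nv (.thr 41 61 (.thr 45 33 (.thr 60 30 (.thr 3 22 (.thr 0 2 (.thr 40 20 (.dbl 42 43 63))))))) (.nv (.thr 26 48 (.thr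 31 16 (.thr 63 47 (.thr 0 42 (.thr 3 2 (.thr 7 11 (.thr 23 43 (.dbl 22 20 52)))))))) (.nv (.thr 41 61 (.thr 45 33 (.thr 60 30 (.thr 3 22 (.thr 11 7 (.dbl 26 48 56)))))) (.rp 41 (.thr 26 48 (.thr 31 16 (.thr 63 47 (.thr 0 42 (.thr 3 2 (.thr 7 11 (.thr 22 52 (.dbl 23 20 43)))))))) (.rp 26 (.thr 41 61 (.thr 45 33 (.thr 60 30 (.thr 22 3 (.thr 7 52 (.thr 23 20 (.thr 55 39 (.dbl 4 6 38)))))))) (.rp 22 (.thr 41 61 (.thr 26 48 (.thr 31 16 (.thr 63 47 (.thr 0 42 (.thr 11 56 (.dbl 3 2 7))))))) (.rp 3 (.thr 41 61 (.thr 45 33 (.thr 60 30 (.thr 48 26 (.thr 52 56 (.thr 22 7 (.thr 20 23 (.thr 0 40 (.thr 32 16 (.dbl 42 47 63)))))))))) .nd)))))))) (.rp 9 (.str 3 (.nv (.thr 0 2 (.thr 41 61 (.thr 33 45 (.thr 48 18 (.thr 32 16 (.dbl 42 47 63)))))) (.nv (.thr 0 2 (.thr 63 42 (.thr 23 43 (.thr 22 20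 (.dbl 41 60 61))))) (.nv (.thr 41 61 (.thr 45 33 (.thr 60 22 (.thr 15 30 (.thr 11 7 (.dbl 26 48 56)))))) (.rp 61 (.thr 0 2 (.thr 63 42 (.thr 23 43 (.thr 22 20 (.thr 7 52 (.thr 55 39 (.dbl 4 6 38))))))) (.rp 41 (.thr 0 2 (.thr 42 63 (.thr 32 47 (.thr 48 16 (.thr 33 18 (.thr 17 49 (.dbl 34 35 51))))))) (.rp 11 (.str 8 (.nv (.thr 41 61 (.thr 22 60 (.thr 23 20 (.thr 63 43 (.dbl 0 2 42))))) (.nv (.thr 0 2 (.thr 42 63 (.thr 25 59 (.thr 49 13 (.dbl 17 29 33))))) (.nv (.thr 0 2 (.thr 41 61 (.thr 33 45 (.thr 48 18 (.thr 16 32 (.dbl 26 15 31)))))) (.nv (.thr 0 2 (.thr 41 61 (.thr 60 22 (.thr 40 20 (.dbl 42 43 63))))) (.rp 49 (.thr 0 2 (.thr 63 42 (.thr 23 43 (.thr 22 20 (.dbl 41 60 61))))) (.rp 2 (.thr 41 61 (.thr 22 60 (.thr 7 52 (.thr 23 20 (.thr 55 39 (.dbl 4 6 38)))))) (.rp 0 (.thr 41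 61 (.thr 22 60 (.thr 7 52 (.thr 4 6 (.thr 55 38 (.dbl 23 20 39)))))) .nd)))))))) (.rp 8 (.str 11 (.nv (.thr 0 2 (.thr 41 61 (.thr 22 60 (.thr 23 20 (.dbl 63 42 43))))) (.nv (.thr 0 2 (.thr 7 15 (.thr 22 52 (.thr 63 42 (.dbl 23 20 43))))) (.nv (.thr 41 61 (.thr 15 7 (.dbl 26 48 56))) (.rp 0 (.str 4 (.nv (.dbl 7 6 15) (.rp 15 (.thr 7 6 (.thr 22 52 (.dbl 41 60 61))) (.rp 7 (.thr 41 61 (.thr 26 56 (.thr 48 15 (.dbl 33 18 45)))) (.rp 6 (.thr 7 15 (.thr 22 52 (.dbl 41 60 61))) .nd))))) .nd))))) .nd)))))))) .nd))))))))))))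

theorem w338 : WinAt (137441050656, 9007199254746112) :=
  chF (K := []) kn c338 137441050656 9007199254746112 53
    [] (by decide +kernel) (by decide +kernel)

/-- A certificate. -/
noncomputable def c339 : Ct := (.str 7 (.nv (.thr 22 52 (.thr 23 20 (.thr 55 39 (.dbl 4 6 38)))) (.nv (.thr 4 6 (.thr 55 38 (.thr 22 52 (.dbl 23 20 39)))) (.rp 55 (.thr 52 22 (.str 0 (.nv (.thr 4 6 (.thr 12 8 (.thr 36 20 (.thr 48 24 (.thr 16 32 (.dbl 26 15 31)))))) (.nv (.thr 42 63 (.thr 32 47 (.thr 48 16 (.thr 60 56 (.thr 20 40 (.dbl 4 6 36)))))) (.nv (.thr 4 6 (.thr 12 8 (.thr 36 20 (.thr 38 39 (.thr 25 51 (.thr 29 17 (.dbl 63 42 46))))))) (.nv (.thr 4 6 (.thr 20 36 (.thr 60 40 (.thr 48 56 (.thr 32 16 (.dbl 42 47 63)))))) (.rp 36 (.thr 42 63 (.thr 32 47 (.thr 48 16 (.thr 60 56 (.thr 40 20 (.thr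 15 26 (.thr 41 43 (.dbl 45 30 33)))))))) (.rp 20 (.thr 42 63 (.thr 32 47 (.thr 48 16 (.thr 15 26 (.thr 3 11 (.thr 1 2 (.thr 41 61 (.dbl 33 18 45)))))))) (.rp 8 (.thr 4 6 (.thr 20 36 (.thr 60 40 (.thr 42 63 (.thr 32 47 (.dbl 48 16 56)))))) (.rp 6 (.thr 42 63 (.thr 32 47 (.thr 48 16 (.thr 60 56 (.thr 40 20 (.thr 15 26 (.thr 41 43 (.dbl 45 30 33)))))))) (.rp 4 (.thr 42 63 (.thr 32 47 (.thr 48 16 (.thr 60 56 (.thr 40 20 (.thr 15 26 (.thr 41 43 (.dbl 45 30 33)))))))) .nd))))))))))) (.rp 52 (.str 55 (.nv (.dbl 4 6 38) (.rp 38 (.str 15 (.nv (.thr 3 11 (.thr 23 39 (.thr 63 43 (.thr 42 0 (.dbl 47 31 32))))) (.nv (.thr 3 11 (.thr 23 39 (.thr 22 20 (.thr 41 60 (.thr 33 45 (.dbl 48 18 26)))))) (.nv (.thr 39 23 (.thr 51 27 (.thr 63 59 (.thr 31 47 (.dbl 26 16 48))))) (.rp 39 (.thr 3 11 (.thr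 48 26 (.thr 33 18 (.thr 41 45 (.thr 22 60 (.thr 23 20 (.thr 63 43 (.thr 47 31 (.dbl 42 0 32))))))))) (.rp 23 (.thr 11 3 (.thr 26 48 (.thr 31 16 (.thr 63 47 (.thr 59 51 (.thr 27 43 (.thr 25 24 (.dbl 42 0 8)))))))) (.rp 11 (.thr 39 23 (.thr 51 27 (.thr 26 48 (.thr 31 16 (.dbl 63 47 59))))) .nd))))))) (.rp 6 (.thr 39 23 (.dbl 38 4 36)) (.rp 4 (.thr 39 23 (.thr 36 38 (.str 15 (.nv (.thr 26 48 (.thr 31 16 (.thr 51 27 (.dbl 63 47 59)))) (.nv (.thr 51 27 (.thr 11 3 (.thr 63 59 (.thr 42 0 (.dbl 47 31 32))))) (.nv (.thr 51 27 (.thr 63 59 (.thr 31 47 (.dbl 26 16 48)))) (.rp 63 (.thr 3 11 (.thr 51 27 (.thr 19 35 (.thr 48 26 (.thr 50 49 (.thr 18 33 (.thr 17 16 (.dbl 34 0 2)))))))) (.rp 59 (.thr 3 11 (.thr 26 48 (.thr 31 16 (.thr 63 47 (.thr 0 42 (.thr 1 2 (.thr 41 61 (.thr 45 33 (.dbl 60 22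 30))))))))) (.rp 51 (.thr 3 11 (.thr 26 48 (.thr 31 16 (.thr 63 47 (.thr 0 42 (.thr 1 2 (.thr 41 61 (.thr 45 33 (.dbl 60 22 30))))))))) (.rp 47 (.thr 3 11 (.thr 51 27 (.thr 19 35 (.thr 48 26 (.thr 50 49 (.thr 18 33 (.thr 17 16 (.dbl 34 0 2)))))))) (.rp 31 (.thr 3 11 (.thr 51 27 (.thr 19 35 (.thr 48 26 (.thr 50 49 (.thr 18 33 (.thr 17 16 (.dbl 34 0 2)))))))) (.rp 27 (.thr 3 11 (.thr 26 48 (.thr 31 16 (.thr 63 47 (.thr 0 42 (.thr 1 2 (.thr 41 61 (.thr 45 33 (.dbl 60 22 30))))))))) .nd)))))))))))) .nd))))) (.rp 39 (.str 15 (.nv (.thr 22 52 (.thr 26 48 (.thr 30 18 (.thr 60 45 (.dbl 3 11 41))))) (.nv (.thr 3 11 (.thr 48 26 (.thr 33 18 (.thr 41 45 (.dbl 22 52 60))))) (.nv (.thr 3 11 (.thr 22 52 (.thr 23 20 (.thr 63 43 (.thr 47 31 (.dbl 42 0 32)))))) (.nv (.thr 3 11 (.thr 22 52 (.thr 26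 48 (.thr 60 41 (.dbl 30 18 45))))) (.rp 52 (.thr 4 6 (.thr 26 48 (.thr 31 16 (.thr 63 47 (.thr 0 42 (.thr 12 8 (.thr 29 46 (.thr 25 17 (.dbl 38 51 55))))))))) (.rp 22 (.thr 11 3 (.thr 26 48 (.thr 31 16 (.thr 63 47 (.thr 41 56 (.thr 61 1 (.thr 60 62 (.dbl 45 30 33)))))))) (.rp 11 (.thr 22 52 (.thr 23 20 (.thr 26 48 (.thr 31 16 (.thr 19 27 (.thr 28 25 (.dbl 30 18 29))))))) (.rp 3 (.thr 22 52 (.thr 23 20 (.thr 26 48 (.thr 31 16 (.thr 19 27 (.thr 28 25 (.dbl 30 18 29))))))) .nd))))))))) (.rp 38 (.str 15 (.nv (.thr 22 52 (.thr 26 48 (.thr 30 18 (.thr 60 45 (.dbl 3 11 41))))) (.nv (.thr 3 11 (.thr 48 26 (.thr 33 18 (.thr 41 45 (.dbl 22 52 60))))) (.nv (.thr 3 11 (.thr 22 52 (.thr 23 20 (.thr 63 43 (.thr 47 31 (.dbl 42 0 32)))))) (.nv (.thr 3 11 (.thr 26 48 (.thr 22 52 (.thr 30 18 (.dbl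 60 41 45))))) (.rp 52 (.thr 3 11 (.thr 26 48 (.thr 31 16 (.thr 63 47 (.thr 23 43 (.thr 27 19 (.dbl 39 51 55))))))) (.rp 22 (.thr 3 11 (.thr 26 48 (.thr 31 16 (.thr 63 47 (.thr 23 43 (.thr 39 55 (.dbl 27 19 51))))))) (.rp 11 (.thr 22 52 (.thr 23 20 (.thr 26 48 (.thr 31 16 (.thr 27 19 (.dbl 39 51 55)))))) (.rp 3 (.thr 22 52 (.thr 23 20 (.thr 26 48 (.thr 31 16 (.thr 27 19 (.dbl 39 51 55)))))) .nd))))))))) (.rp 23 (.thr 4 6 (.thr 38 55 (.thr 36 39 (.dbl 52 20 22)))) (.rp 22 (.str 15 (.nv (.thr 4 6 (.thr 38 55 (.thr 39 36 (.thr 51 27 (.thr 12 25 (.thr 0 8 (.thr 34 17 (.dbl 42 46 63)))))))) (.nv (.thr 11 3 (.thr 26 48 (.thr 31 16 (.thr 41 56 (.thr 61 1 (.thr 63 47 (.thr 60 62 (.dbl 45 30 33)))))))) (.nv (.thr 3 11 (.thr 26 48 (.thr 31 16 (.thr 63 47 (.thr 23 43 (.thr 39 55 (.dbl 27 19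 51))))))) (.rp 63 (.thr 4 6 (.thr 38 55 (.thr 39 36 (.thr 3 11 (.thr 51 27 (.thr 35 19 (.thr 41 44 (.thr 33 45 (.dbl 48 18 26))))))))) (.rp 52 (.thr 4 6 (.thr 3 11 (.thr 26 48 (.thr 31 16 (.thr 63 47 (.thr 23 43 (.dbl 55 38 39))))))) (.rp 26 (.thr 4 6 (.thr 38 55 (.thr 39 36 (.thr 3 11 (.thr 51 27 (.thr 35 19 (.thr 41 44 (.thr 33 45 (.thr 32 34 (.dbl 47 42 43)))))))))) (.rp 11 (.thr 4 6 (.thr 38 55 (.thr 39 36 (.thr 51 27 (.thr 12 25 (.thr 26 48 (.thr 31 16 (.thr 63 47 (.dbl 0 8 42))))))))) (.rp 0 (.thr 4 6 (.thr 38 55 (.thr 39 36 (.thr 3 11 (.thr 51 27 (.thr 35 19 (.thr 41 44 (.thr 33 45 (.dbl 48 18 26))))))))) .nd))))))))) (.rp 20 (.str 15 (.nv (.thr 22 52 (.thr 26 48 (.thr 30 18 (.thr 60 45 (.dbl 3 11 41))))) (.nv (.thr 3 11 (.thr 48 26 (.thr 33 18 (.thr 41 45 (.dbl 22 52 60)))))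 (.nv (.thr 3 11 (.thr 4 6 (.thr 55 38 (.thr 23 39 (.thr 63 43 (.thr 47 31 (.dbl 42 0 32))))))) (.nv (.thr 3 11 (.thr 22 52 (.thr 26 48 (.thr 60 41 (.dbl 30 18 45))))) (.rp 22 (.thr 4 6 (.thr 3 11 (.thr 26 48 (.thr 31 16 (.thr 63 47 (.thr 23 43 (.dbl 55 38 39))))))) (.rp 11 (.thr 4 6 (.thr 55 38 (.thr 39 23 (.thr 51 27 (.thr 26 48 (.thr 31 16 (.dbl 63 47 59))))))) (.rp 3 (.thr 4 6 (.thr 55 38 (.thr 39 23 (.thr 51 27 (.thr 63 59 (.thr 31 47 (.dbl 26 16 48))))))) .nd)))))))) (.rp 6 (.thr 22 52 (.thr 23 20 (.thr 55 39 (.thr 4 38 (.str 26 (.nv (.thr 15 48 (.thr 3 11 (.thr 31 16 (.dbl 63 43 47)))) (.nv (.thr 15 48 (.thr 3 11 (.thr 30 18 (.dbl 60 41 45)))) (.nv (.thr 30 18 (.thr 31 16 (.thr 19 27 (.dbl 28 25 29)))) (.rp 15 (.thr 31 16 (.thr 30 18 (.thr 28 29 (.dbl 19 25 27)))) (.rp 14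 (.str 2 (.nv (.thr 15 48 (.thr 3 11 (.thr 0 1 (.dbl 42 62 63)))) (.nv (.thr 30 18 (.thr 31 16 (.thr 19 27 (.dbl 28 25 29)))) (.rp 15 (.str 12 (.nv (.thr 30 18 (.thr 31 16 (.thr 28 29 (.dbl 19 25 27)))) (.nv (.thr 42 62 (.dbl 0 8 63)) (.rp 51 (.str 27 (.nv (.thr 0 8 (.dbl 42 62 63)) (.nv (.dbl 31 16 19) .nd))) (.rp 30 (.thr 0 8 (.dbl 42 62 63)) (.rp 27 (.str 51 (.nv (.thr 18 30 (.thr 34 50 (.thr 17 0 (.dbl 16 19 31)))) (.nv (.thr 0 8 (.dbl 63 42 59)) (.rp 0 (.thr 30 18 (.thr 31 16 (.thr 63 59 (.dbl 29 28 46)))) .nd)))) .nd)))))) .nd)))) (.rp 2 (.str 14 (.nv (.thr 15 48 (.thr 3 11 (.thr 31 16 (.dbl 63 43 47)))) (.nv (.thr 15 48 (.thr 3 11 (.thr 30 18 (.dbl 60 41 45)))) (.nv (.thr 31 16 (.thr 19 27 (.thr 28 25 (.dbl 30 18 29)))) (.rp 15 (.thr 31 16 (.thr 30 18 (.thr 28 29 (.dbl 19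 25 27)))) .nd))))) .nd))))))))))) (.rp 4 (.str 3 (.nv (.thr 15 11 (.thr 48 26 (.thr 33 18 (.thr 41 45 (.dbl 22 52 60))))) (.nv (.thr 15 11 (.thr 26 48 (.thr 31 16 (.thr 63 47 (.thr 23 43 (.thr 27 19 (.dbl 39 51 55))))))) (.nv (.thr 22 52 (.thr 20 23 (.thr 60 41 (.thr 0 40 (.thr 2 1 (.dbl 42 62 63)))))) .nd)))) .nd))))))))))))

theorem w339 : WinAt (137441050656, 9007199254750208) :=
  chF (K := []) kn c339 137441050656 9007199254750208 53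
    [] (by decide +kernel) (by decide +kernel)

/-- A certificate. -/
noncomputable def c340 : Ct := (.str 1 (.nv (.thr 41 61 (.thr 33 45 (.thr 49 17 (.dbl 13 9 25)))) (.nv (.thr 13 9 (.thr 49 25 (.thr 41 61 (.dbl 33 17 45)))) (.rp 61 (.str 7 (.nv (.thr 22 52 (.thr 23 20 (.thr 55 39 (.dbl 4 6 38)))) (.rp 57 (.str 49 (.nv (.thr 6 4 (.thr 17 33 (.dbl 25 13 29))) (.nv (.dbl 13 9 25) (.rp 25 (.thr 22 52 (.thr 23 20 (.thr 55 39 (.dbl 4 6 38)))) (.rp 13 (.thr 22 52 (.thr 23 20 (.thr 55 39 (.dbl 4 6 38)))) (.rp 6 (.str 2 (.nv (.thr 22 52 (.thr 42 62 (.dbl 0 3 63))) (.nv (.dbl 13 9 25) .nd))) .nd)))))) (.rp 55 (.thr 6 4 (.thr 9 13 (.thr 3 12 (.thr 15 11 (.thr 0 2 (.thr 48 26 (.thr 32 16 (.dbl 42 47 63)))))))) (.rp 54 (.thr 6 4 (.thr 9 13 (.thr 3 12 (.thr 15 11 (.thr 0 2 (.thr 48 26 (.thr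 32 16 (.dbl 42 47 63)))))))) (.rp 52 (.thr 6 4 (.thr 9 13 (.thr 3 12 (.thr 15 11 (.thr 0 2 (.thr 48 26 (.thr 32 16 (.dbl 42 47 63)))))))) (.rp 49 (.str 57 (.nv (.thr 6 4 (.thr 9 13 (.thr 3 12 (.thr 15 11 (.thr 41 25 (.dbl 22 52 60)))))) (.nv (.thr 22 52 (.thr 23 20 (.thr 55 39 (.dbl 4 6 38)))) (.rp 52 (.thr 9 13 (.thr 41 25 (.thr 45 33 (.thr 6 4 (.thr 3 12 (.thr 15 11 (.dbl 60 22 30))))))) (.rp 38 (.thr 9 13 (.thr 41 25 (.thr 6 4 (.thr 22 52 (.dbl 3 12 60))))) (.rp 22 (.thr 9 13 (.thr 41 25 (.thr 6 4 (.thr 3 12 (.thr 15 11 (.thr 48 26 (.dbl 33 18 45))))))) (.rp 6 (.str 2 (.nv (.thr 3 0 (.thr 9 13 (.thr 15 11 (.thr 41 25 (.dbl 22 52 60))))) (.nv (.thr 22 52 (.thr 0 3 (.dbl 42 62 63))) (.rp 52 (.thr 9 13 (.thr 41 25 (.thr 45 33 (.thr 3 0 (.thr 15 11 (.dbl 60 22 30)))))) (.rp 22 (.thr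 9 13 (.thr 41 25 (.thr 3 0 (.thr 15 11 (.thr 48 26 (.dbl 33 18 45)))))) (.rp 9 (.thr 22 52 (.thr 42 62 (.dbl 0 3 63))) (.rp 3 (.thr 9 13 (.thr 41 25 (.thr 22 52 (.thr 42 62 (.thr 47 32 (.thr 43 40 (.thr 39 35 (.dbl 23 20 55)))))))) (.rp 0 (.thr 9 13 (.thr 41 25 (.thr 22 52 (.thr 3 60 (.thr 15 11 (.thr 48 26 (.dbl 33 18 45))))))) .nd)))))))) (.rp 4 (.thr 9 13 (.thr 41 25 (.thr 22 52 (.thr 3 60 (.thr 15 11 (.thr 48 26 (.dbl 33 18 45))))))) .nd)))))))) (.rp 39 (.thr 22 52 (.thr 20 23 (.thr 6 4 (.thr 9 13 (.thr 3 12 (.thr 15 11 (.thr 0 2 (.dbl 60 40 41)))))))) (.rp 38 (.thr 22 52 (.thr 20 23 (.thr 6 4 (.thr 9 13 (.thr 3 12 (.thr 15 11 (.thr 0 2 (.dbl 60 40 41)))))))) (.rp 36 (.thr 22 52 (.thr 20 23 (.thr 6 4 (.thr 9 13 (.thr 3 12 (.thr 15 11 (.thr 0 2 (.dbl 60 40 41)))))))) (.rp 23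 (.thr 22 52 (.thr 6 4 (.thr 9 13 (.thr 3 12 (.thr 15 11 (.thr 60 41 (.thr 26 48 (.dbl 30 18 45)))))))) (.rp 22 (.thr 6 4 (.thr 9 13 (.thr 3 12 (.thr 15 11 (.thr 0 2 (.thr 48 26 (.thr 32 16 (.dbl 42 47 63)))))))) (.rp 20 (.thr 22 52 (.thr 13 9 (.thr 49 25 (.thr 33 17 (.thr 41 45 (.thr 3 60 (.thr 48 18 (.dbl 15 11 26)))))))) (.rp 6 (.str 2 (.nv (.thr 22 52 (.thr 42 62 (.dbl 0 3 63))) (.nv (.thr 0 3 (.thr 42 63 (.dbl 22 52 62))) (.nv (.thr 22 52 (.thr 0 3 (.dbl 42 62 63))) (.rp 63 (.thr 22 52 (.thr 3 0 (.thr 13 9 (.thr 49 25 (.thr 33 17 (.dbl 41 45 60)))))) (.rp 62 (.thr 22 52 (.thr 3 0 (.thr 13 9 (.thr 49 25 (.thr 33 17 (.dbl 41 45 60)))))) (.rp 57 (.str 49 (.nv (.thr 22 52 (.thr 42 62 (.dbl 0 3 63))) (.nv (.dbl 13 9 25) .nd))) (.rp 52 (.thr 3 0 (.thr 13 9 (.thr 49 25 (.thr 33 17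 (.thr 48 18 (.dbl 15 11 26)))))) (.rp 49 (.str 57 (.nv (.thr 3 0 (.thr 9 13 (.thr 15 11 (.thr 41 25 (.dbl 22 52 60))))) (.nv (.thr 22 52 (.thr 0 3 (.dbl 42 62 63))) (.rp 52 (.thr 9 13 (.thr 41 25 (.thr 45 33 (.thr 3 0 (.thr 15 11 (.dbl 60 22 30)))))) (.rp 22 (.thr 9 13 (.thr 41 25 (.thr 3 0 (.thr 15 11 (.thr 48 26 (.dbl 33 18 45)))))) (.rp 9 (.thr 22 52 (.thr 42 62 (.dbl 0 3 63))) (.rp 3 (.thr 9 13 (.thr 41 25 (.thr 22 52 (.thr 42 62 (.thr 47 32 (.thr 43 40 (.thr 39 35 (.dbl 23 20 55)))))))) (.rp 0 (.thr 9 13 (.thr 41 25 (.thr 22 52 (.thr 3 60 (.thr 15 11 (.thr 48 26 (.dbl 33 18 45))))))) .nd)))))))) (.rp 42 (.thr 22 52 (.thr 3 0 (.thr 13 9 (.thr 49 25 (.thr 33 17 (.dbl 41 45 60)))))) (.rp 22 (.thr 3 0 (.thr 13 9 (.thr 49 25 (.thr 33 17 (.thr 48 18 (.dbl 15 11 26)))))) (.rp 3 (.thr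 22 52 (.thr 23 20 (.thr 55 39 (.thr 42 62 (.thr 63 0 (.thr 59 51 (.thr 25 8 (.dbl 13 9 49)))))))) (.rp 0 (.thr 22 52 (.thr 13 9 (.thr 49 25 (.thr 33 17 (.thr 41 45 (.thr 3 60 (.thr 48 18 (.dbl 15 11 26)))))))) .nd))))))))))))) (.rp 4 (.thr 22 52 (.thr 13 9 (.thr 49 25 (.thr 33 17 (.thr 41 45 (.thr 3 60 (.thr 48 18 (.dbl 15 11 26)))))))) (.rp 2 (.thr 6 4 (.thr 22 52 (.thr 9 13 (.thr 3 12 (.thr 15 11 (.thr 60 41 (.thr 26 48 (.dbl 30 18 45)))))))) .nd)))))))))))))))) (.rp 49 (.thr 61 41 (.str 7 (.nv (.thr 22 52 (.thr 23 20 (.thr 55 39 (.dbl 4 6 38)))) (.rp 55 (.thr 9 13 (.thr 6 4 (.thr 3 12 (.thr 15 11 (.thr 0 2 (.thr 63 42 (.thr 31 47 (.dbl 26 16 48)))))))) (.rp 54 (.thr 9 13 (.thr 6 4 (.thr 3 12 (.thr 15 11 (.thr 0 2 (.thr 63 42 (.thr 31 47 (.dbl 26 16 48)))))))) (.rp 52 (.thr 9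 13 (.thr 6 4 (.thr 3 12 (.thr 15 11 (.thr 0 2 (.thr 63 42 (.thr 31 47 (.dbl 26 16 48)))))))) (.rp 39 (.thr 13 9 (.thr 29 45 (.thr 25 17 (.thr 22 52 (.thr 20 23 (.thr 28 19 (.thr 16 24 (.dbl 31 26 30)))))))) (.rp 38 (.thr 13 9 (.thr 29 45 (.thr 25 17 (.thr 22 52 (.thr 20 23 (.thr 28 19 (.thr 16 24 (.dbl 31 26 30)))))))) (.rp 36 (.thr 13 9 (.thr 29 45 (.thr 25 17 (.thr 22 52 (.thr 20 23 (.thr 28 19 (.thr 16 24 (.dbl 31 26 30)))))))) (.rp 23 (.thr 9 13 (.thr 6 4 (.thr 3 12 (.thr 15 11 (.thr 0 2 (.thr 63 42 (.thr 31 47 (.dbl 26 16 48)))))))) (.rp 22 (.thr 9 13 (.thr 6 4 (.thr 3 12 (.thr 15 11 (.thr 0 2 (.thr 42 63 (.thr 32 47 (.dbl 48 16 26)))))))) (.rp 20 (.thr 9 13 (.thr 6 4 (.thr 3 12 (.thr 15 11 (.thr 0 2 (.thr 63 42 (.thr 31 47 (.dbl 26 16 48)))))))) (.rp 6 (.str 2 (.nv (.thr 0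 3 (.thr 42 63 (.dbl 22 52 62))) (.nv (.thr 22 52 (.thr 42 62 (.dbl 0 3 63))) (.rp 63 (.thr 13 9 (.thr 29 45 (.thr 25 17 (.thr 22 52 (.thr 20 23 (.thr 28 19 (.thr 31 30 (.dbl 16 24 26)))))))) (.rp 62 (.thr 3 0 (.thr 15 11 (.thr 26 48 (.thr 22 52 (.thr 23 20 (.thr 63 43 (.dbl 31 16 47))))))) (.rp 52 (.str 55 (.nv (.thr 0 3 (.thr 23 39 (.thr 42 63 (.dbl 22 20 62)))) (.nv (.thr 39 23 (.dbl 38 4 36)) (.rp 39 (.thr 0 3 (.thr 63 42 (.thr 51 59 (.thr 17 34 (.thr 25 29 (.dbl 38 4 12)))))) (.rp 23 (.thr 0 3 (.thr 63 42 (.thr 51 59 (.thr 17 34 (.thr 25 29 (.dbl 38 4 12)))))) .nd))))) (.rp 42 (.thr 13 9 (.thr 29 45 (.thr 25 17 (.thr 22 52 (.thr 20 23 (.thr 28 19 (.thr 31 30 (.dbl 16 24 26)))))))) (.rp 22 (.thr 3 0 (.str 38 (.nv (.thr 39 36 (.dbl 55 4 23)) (.rp 55 (.thr 39 36 (.thr 13 9 (.thr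 29 45 (.thr 25 17 (.thr 51 12 (.dbl 15 11 27)))))) (.rp 39 (.str 48 (.nv (.dbl 15 11 26) (.rp 26 (.thr 18 33 (.thr 34 50 (.thr 13 9 (.thr 29 45 (.thr 25 17 (.thr 12 51 (.dbl 46 42 63))))))) (.rp 15 (.thr 18 33 (.thr 34 50 (.thr 13 9 (.thr 29 45 (.thr 25 17 (.thr 46 42 (.dbl 12 51 63))))))) (.rp 11 (.thr 55 4 (.thr 18 33 (.thr 34 50 (.thr 46 42 (.thr 26 15 (.thr 16 31 (.thr 19 17 (.thr 51 35 (.thr 12 25 (.dbl 63 29 59)))))))))) .nd))))) (.rp 36 (.thr 55 4 (.thr 23 39 (.thr 63 43 (.thr 15 11 (.thr 26 48 (.dbl 31 16 47)))))) (.rp 23 (.thr 39 36 (.thr 13 9 (.thr 29 45 (.thr 25 17 (.thr 51 12 (.dbl 15 11 27)))))) (.rp 4 (.thr 39 36 (.thr 23 55 (.thr 63 43 (.thr 15 11 (.thr 31 47 (.dbl 27 19 51)))))) .nd)))))))) (.rp 3 (.thr 22 52 (.thr 42 62 (.thr 63 0 (.thr 47 32 (.thr 31 15 (.thr 16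 26 (.thr 23 20 (.thr 19 27 (.thr 17 18 (.dbl 25 28 29)))))))))) (.rp 0 (.thr 13 9 (.thr 29 45 (.thr 25 17 (.thr 22 52 (.thr 20 23 (.thr 28 19 (.thr 31 30 (.dbl 16 24 26)))))))) .nd)))))))))) (.rp 4 (.thr 13 9 (.thr 29 45 (.thr 25 17 (.thr 22 52 (.thr 20 23 (.thr 28 19 (.thr 16 24 (.dbl 31 26 30)))))))) (.rp 2 (.thr 6 4 (.thr 13 9 (.thr 29 45 (.thr 25 17 (.thr 22 52 (.thr 20 23 (.thr 28 19 (.thr 16 24 (.dbl 31 26 30))))))))) .nd))))))))))))))) (.rp 45 (.thr 61 41 (.str 0 (.nv (.thr 13 9 (.thr 25 49 (.thr 17 29 (.thr 51 34 (.thr 12 38 (.thr 42 63 (.dbl 8 4 59))))))) (.nv (.thr 2 3 (.thr 42 63 (.thr 22 62 (.thr 32 47 (.thr 48 16 (.thr 52 7 (.thr 60 56 (.dbl 20 23 40)))))))) (.nv (.thr 13 9 (.thr 25 49 (.thr 17 29 (.thr 51 34 (.thr 38 12 (.thr 55 4 (.dbl 63 42 59))))))) (.rp 63 (.thr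 13 9 (.thr 25 49 (.thr 17 29 (.thr 51 34 (.thr 12 38 (.thr 8 4 (.thr 42 59 (.thr 32 47 (.thr 48 16 (.thr 24 36 (.dbl 26 15 27))))))))))) (.rp 42 (.thr 13 9 (.thr 25 49 (.thr 17 29 (.thr 51 34 (.thr 38 12 (.thr 4 55 (.thr 36 39 (.thr 52 20 (.dbl 7 6 22))))))))) (.rp 11 (.thr 2 3 (.thr 42 63 (.thr 22 62 (.thr 23 20 (.thr 7 52 (.thr 55 39 (.dbl 4 6 38))))))) (.rp 2 (.str 6 (.nv (.thr 7 4 (.thr 22 52 (.thr 20 23 (.thr 60 40 (.dbl 63 42 62))))) (.nv (.thr 4 7 (.thr 9 13 (.dbl 12 3 8))) (.rp 7 (.thr 13 9 (.thr 25 49 (.thr 17 29 (.thr 51 34 (.thr 38 12 (.thr 55 4 (.dbl 63 42 59))))))) (.rp 4 (.thr 13 9 (.thr 25 49 (.thr 17 29 (.thr 51 34 (.thr 38 12 (.thr 54 22 (.thr 60 57 (.dbl 63 42 62)))))))) .nd))))) .nd))))))))) (.rp 41 (.str 0 (.nv (.thr 13 9 (.thr 25 49 (.thr 17 29 (.thr 51 34 (.thr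 12 38 (.thr 42 63 (.dbl 8 4 59))))))) (.nv (.thr 2 3 (.thr 42 63 (.thr 22 62 (.thr 32 47 (.thr 48 16 (.thr 52 7 (.thr 60 56 (.dbl 20 23 40)))))))) (.nv (.thr 13 9 (.thr 25 49 (.thr 17 29 (.thr 51 34 (.thr 38 12 (.thr 55 4 (.dbl 63 42 59))))))) (.rp 63 (.thr 13 9 (.thr 25 49 (.thr 17 29 (.thr 51 34 (.thr 12 38 (.thr 8 4 (.thr 42 59 (.thr 32 47 (.thr 48 16 (.thr 24 36 (.dbl 26 15 27))))))))))) (.rp 61 (.thr 9 13 (.thr 42 63 (.thr 32 47 (.thr 48 16 (.thr 3 2 (.thr 6 12 (.thr 15 26 (.dbl 7 4 11)))))))) (.rp 42 (.thr 13 9 (.thr 25 49 (.thr 17 29 (.thr 51 34 (.thr 38 12 (.thr 4 55 (.thr 36 39 (.thr 52 20 (.dbl 7 6 22))))))))) (.rp 11 (.thr 2 3 (.thr 42 63 (.thr 22 62 (.thr 23 20 (.thr 7 52 (.thr 55 39 (.dbl 4 6 38))))))) (.rp 2 (.str 6 (.nv (.thr 4 7 (.thr 9 13 (.dbl 12 3 8))) (.rp 13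 (.thr 4 7 (.thr 38 55 (.thr 12 8 (.thr 51 25 (.thr 34 17 (.dbl 42 46 63)))))) (.rp 12 (.thr 4 7 (.thr 55 38 (.thr 13 9 (.thr 25 49 (.thr 17 29 (.thr 51 34 (.dbl 63 42 59))))))) (.rp 9 (.thr 4 7 (.thr 38 55 (.thr 42 63 (.thr 34 46 (.thr 51 17 (.dbl 12 8 25)))))) (.rp 8 (.thr 4 7 (.thr 38 55 (.thr 9 13 (.thr 12 3 (.thr 51 25 (.thr 34 17 (.dbl 42 46 63))))))) (.rp 7 (.thr 13 9 (.thr 25 49 (.thr 17 29 (.thr 51 34 (.thr 38 12 (.thr 55 4 (.dbl 63 42 59))))))) (.rp 4 (.thr 9 13 (.thr 12 3 (.thr 42 63 (.thr 32 47 (.thr 48 16 (.thr 36 24 (.thr 38 39 (.thr 51 25 (.dbl 34 17 46))))))))) (.rp 3 (.thr 4 7 (.thr 38 55 (.thr 13 9 (.thr 25 49 (.dbl 12 8 51))))) .nd))))))))) .nd))))))))) (.rp 33 (.thr 13 9 (.thr 25 49 (.thr 29 17 (.dbl 61 41 45)))) (.rp 25 (.str 4 (.nv (.thr 38 55 (.thr 36 39 (.thr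 52 20 (.dbl 7 6 22)))) (.rp 55 (.thr 6 7 (.thr 9 13 (.thr 12 3 (.thr 41 61 (.thr 0 8 (.thr 42 63 (.thr 32 47 (.thr 48 16 (.thr 36 24 (.dbl 40 43 44)))))))))) (.rp 54 (.thr 6 7 (.thr 9 13 (.thr 12 3 (.thr 0 8 (.thr 42 63 (.thr 32 47 (.thr 48 16 (.thr 36 24 (.dbl 38 39 55))))))))) (.rp 52 (.thr 6 7 (.thr 38 55 (.thr 54 22 (.thr 39 36 (.thr 41 61 (.thr 33 45 (.thr 35 44 (.thr 32 34 (.dbl 47 42 43))))))))) (.rp 39 (.thr 38 55 (.thr 41 61 (.thr 45 33 (.thr 44 35 (.thr 47 46 (.thr 32 42 (.thr 36 40 (.thr 52 20 (.dbl 7 6 22))))))))) (.rp 38 (.thr 6 7 (.thr 9 13 (.thr 12 3 (.thr 41 61 (.thr 0 8 (.thr 42 63 (.thr 32 47 (.thr 48 16 (.thr 36 24 (.dbl 40 43 44)))))))))) (.rp 36 (.thr 6 7 (.thr 38 55 (.thr 9 13 (.thr 12 3 (.thr 41 61 (.thr 45 33 (.thr 44 35 (.thr 47 46 (.thr 0 8 (.dbl 42 32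 63)))))))))) (.rp 23 (.thr 38 55 (.thr 39 36 (.thr 41 61 (.thr 33 45 (.thr 35 44 (.thr 32 34 (.dbl 47 42 43))))))) (.rp 22 (.thr 38 55 (.thr 36 39 (.thr 41 61 (.thr 45 33 (.thr 44 35 (.thr 47 46 (.dbl 32 40 42))))))) (.rp 20 (.thr 38 55 (.thr 36 39 (.thr 41 61 (.thr 45 33 (.thr 44 35 (.thr 47 46 (.dbl 32 40 42))))))) (.rp 7 (.thr 38 55 (.thr 39 36 (.thr 41 61 (.thr 33 45 (.thr 35 44 (.thr 32 34 (.dbl 47 42 43))))))) (.rp 6 (.str 2 (.nv (.thr 0 3 (.thr 38 55 (.thr 41 61 (.thr 33 45 (.thr 35 44 (.thr 32 34 (.dbl 42 47 63))))))) (.nv (.thr 0 3 (.thr 12 8 (.thr 38 55 (.thr 36 39 (.thr 48 24 (.thr 16 32 (.dbl 26 15 31))))))) (.nv (.thr 3 0 (.thr 41 61 (.thr 22 60 (.thr 20 23 (.dbl 52 7 36))))) (.rp 52 (.thr 0 3 (.thr 12 8 (.thr 42 63 (.thr 32 47 (.thr 48 16 (.thr 36 24 (.dbl 38 39 55)))))))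 (.rp 3 (.thr 38 55 (.thr 36 39 (.thr 41 61 (.thr 44 35 (.thr 32 40 (.thr 45 33 (.dbl 47 42 46))))))) (.rp 0 (.thr 38 55 (.thr 36 39 (.thr 41 61 (.thr 44 35 (.thr 32 40 (.thr 45 33 (.dbl 47 42 46))))))) .nd))))))) (.rp 2 (.thr 6 7 (.thr 38 55 (.thr 39 36 (.thr 41 61 (.thr 33 45 (.thr 35 44 (.thr 32 34 (.dbl 47 42 43)))))))) .nd)))))))))))))) (.rp 17 (.str 4 (.nv (.thr 6 7 (.thr 9 13 (.thr 12 3 (.thr 38 55 (.thr 25 51 (.dbl 41 57 61)))))) (.nv (.thr 38 55 (.thr 36 39 (.thr 52 20 (.dbl 7 6 22)))) (.rp 55 (.thr 6 7 (.thr 9 13 (.thr 12 3 (.thr 41 61 (.thr 0 8 (.thr 42 63 (.thr 32 47 (.thr 48 16 (.thr 36 24 (.dbl 40 43 44)))))))))) (.rp 54 (.thr 6 7 (.thr 9 13 (.thr 12 3 (.thr 0 8 (.thr 42 63 (.thr 32 47 (.thr 48 16 (.thr 36 24 (.dbl 38 39 55))))))))) (.rp 52 (.thr 6 7 (.thr 38 55 (.thr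 54 22 (.thr 9 13 (.thr 12 3 (.thr 25 51 (.dbl 41 57 61))))))) (.rp 39 (.thr 38 55 (.thr 13 9 (.thr 25 49 (.thr 12 51 (.thr 61 41 (.thr 29 45 (.thr 63 46 (.dbl 0 8 42)))))))) (.rp 38 (.thr 6 7 (.thr 9 13 (.thr 12 3 (.thr 41 61 (.thr 0 8 (.thr 42 63 (.thr 32 47 (.thr 48 16 (.thr 36 24 (.dbl 40 43 44)))))))))) (.rp 23 (.thr 6 7 (.thr 38 55 (.thr 39 36 (.thr 9 13 (.thr 12 3 (.thr 25 51 (.dbl 41 57 61))))))) (.rp 7 (.thr 38 55 (.thr 39 36 (.thr 41 61 (.thr 33 45 (.thr 35 44 (.thr 32 34 (.dbl 47 42 43))))))) (.rp 6 (.str 2 (.nv (.thr 3 0 (.thr 41 61 (.thr 22 60 (.thr 20 23 (.dbl 52 7 36))))) (.nv (.thr 0 3 (.thr 42 63 (.thr 22 62 (.thr 52 7 (.dbl 20 23 36))))) (.nv (.thr 13 9 (.thr 25 49 (.thr 38 55 (.thr 0 3 (.dbl 12 8 51))))) (.rp 61 (.thr 0 3 (.thr 38 55 (.thr 12 8 (.thr 25 51 (.dbl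 13 9 49))))) (.rp 52 (.thr 0 3 (.thr 12 8 (.thr 61 41 (.thr 63 42 (.thr 29 46 (.dbl 13 9 45)))))) (.rp 3 (.thr 38 55 (.thr 36 39 (.thr 41 61 (.thr 44 35 (.thr 32 40 (.thr 45 33 (.dbl 47 42 46))))))) (.rp 0 (.thr 38 55 (.thr 36 39 (.thr 41 61 (.thr 44 35 (.thr 32 40 (.thr 45 33 (.dbl 47 42 46))))))) .nd)))))))) .nd))))))))))) (.rp 13 (.str 22 (.nv (.thr 23 20 (.thr 41 61 (.thr 3 60 (.thr 63 43 (.dbl 0 2 42))))) (.nv (.thr 41 61 (.thr 45 33 (.thr 52 7 (.thr 60 3 (.thr 15 30 (.dbl 48 26 56)))))) (.nv (.thr 23 20 (.thr 7 52 (.thr 55 39 (.dbl 4 6 38)))) (.rp 15 (.str 12 (.nv (.thr 7 52 (.thr 41 61 (.thr 3 60 (.dbl 6 4 9)))) (.nv (.thr 23 20 (.thr 41 61 (.thr 3 60 (.thr 63 43 (.dbl 0 2 42))))) (.nv (.thr 23 20 (.thr 7 52 (.thr 55 39 (.dbl 4 6 38)))) (.rp 6 (.str 2 (.nv (.thr 0 3 (.dbl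 42 62 63)) (.nv (.thr 3 0 (.dbl 41 60 61)) (.rp 3 (.thr 23 20 (.thr 7 52 (.thr 55 39 (.thr 4 38 (.thr 0 8 (.dbl 42 62 63)))))) (.rp 0 (.thr 20 23 (.thr 52 7 (.thr 36 4 (.thr 48 24 (.thr 60 56 (.dbl 41 3 61)))))) .nd))))) (.rp 2 (.str 6 (.nv (.thr 3 9 (.dbl 41 60 61)) (.nv (.dbl 7 4 52) .nd))) .nd)))))) (.rp 12 (.str 15 (.nv (.thr 23 20 (.thr 7 52 (.thr 55 39 (.dbl 4 6 38)))) (.nv (.thr 41 61 (.thr 45 33 (.dbl 60 3 30))) (.rp 6 (.str 2 (.nv (.thr 41 61 (.thr 45 33 (.dbl 60 3 30))) (.nv (.thr 3 0 (.dbl 7 11 52)) (.rp 3 (.str 9 (.nv (.thr 41 61 (.thr 45 33 (.thr 30 60 (.dbl 26 18 48)))) (.nv (.thr 42 62 (.thr 47 32 (.dbl 63 0 31))) (.rp 63 (.thr 48 26 (.thr 52 7 (.thr 60 56 (.thr 45 30 (.dbl 41 33 61))))) (.rp 62 (.thr 48 26 (.thr 52 7 (.thr 60 56 (.thr 41 61 (.dbl 45 30 33))))) (.rp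 30 (.thr 26 48 (.thr 31 16 (.thr 63 47 (.dbl 42 0 62)))) .nd)))))) .nd)))) (.rp 2 (.str 6 (.nv (.thr 41 61 (.thr 45 33 (.dbl 60 3 30))) (.nv (.dbl 7 4 52) .nd))) .nd))))) (.rp 6 (.str 2 (.nv (.thr 0 3 (.dbl 42 62 63)) (.nv (.thr 3 0 (.dbl 41 60 61)) (.rp 15 (.str 12 (.nv (.thr 0 3 (.dbl 42 62 63)) (.nv (.thr 3 0 (.dbl 41 60 61)) (.rp 3 (.thr 23 20 (.thr 7 52 (.thr 55 39 (.thr 4 38 (.thr 0 8 (.dbl 42 62 63)))))) (.rp 0 (.thr 20 23 (.thr 52 7 (.thr 36 4 (.thr 48 24 (.thr 60 56 (.dbl 41 3 61)))))) .nd))))) (.rp 12 (.str 15 (.nv (.thr 41 61 (.thr 45 33 (.dbl 60 3 30))) (.nv (.thr 3 0 (.dbl 7 11 52)) (.rp 3 (.str 9 (.nv (.thr 41 61 (.thr 45 33 (.thr 30 60 (.dbl 26 18 48)))) (.nv (.thr 42 62 (.thr 47 32 (.dbl 63 0 31))) (.rp 63 (.thr 48 26 (.thr 52 7 (.thr 60 56 (.thr 45 30 (.dbl 41 33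 61))))) (.rp 62 (.thr 48 26 (.thr 52 7 (.thr 60 56 (.thr 41 61 (.dbl 45 30 33))))) (.rp 30 (.thr 26 48 (.thr 31 16 (.thr 63 47 (.dbl 42 0 62)))) .nd)))))) .nd)))) (.rp 3 (.thr 20 23 (.thr 52 7 (.thr 36 4 (.thr 41 61 (.thr 42 62 (.thr 32 47 (.dbl 40 43 44))))))) (.rp 0 (.thr 7 52 (.thr 41 61 (.thr 3 60 (.thr 15 11 (.thr 48 26 (.dbl 33 18 45)))))) .nd))))))) (.rp 2 (.str 6 (.nv (.dbl 7 4 52) (.rp 52 (.thr 4 7 (.dbl 38 54 55)) (.rp 15 (.str 12 (.nv (.thr 3 9 (.dbl 41 60 61)) (.nv (.dbl 7 4 52) .nd))) (.rp 12 (.str 15 (.nv (.thr 41 61 (.thr 45 33 (.dbl 60 3 30))) (.nv (.dbl 7 4 52) .nd))) (.rp 7 (.thr 38 54 (.thr 41 61 (.thr 3 60 (.thr 12 9 (.thr 51 25 (.dbl 35 19 44)))))) (.rp 4 (.thr 52 7 (.thr 41 61 (.thr 45 33 (.thr 60 3 (.thr 15 30 (.dbl 48 26 56)))))) .nd))))))) .nd)))))))) (.rp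 9 (.str 32 (.nv (.thr 41 61 (.thr 33 45 (.thr 42 47 (.thr 0 63 (.thr 48 16 (.dbl 3 2 18)))))) (.nv (.thr 41 61 (.thr 42 47 (.thr 0 63 (.thr 40 43 (.thr 60 20 (.dbl 3 2 22)))))) (.nv (.thr 41 61 (.thr 33 45 (.thr 35 34 (.thr 38 44 (.thr 39 36 (.dbl 47 42 43)))))) (.rp 61 (.str 49 (.nv (.thr 17 33 (.dbl 25 13 29)) (.rp 33 (.thr 25 13 (.thr 42 47 (.thr 0 63 (.thr 48 16 (.thr 51 50 (.dbl 17 29 34)))))) (.rp 29 (.thr 33 17 (.thr 42 47 (.thr 0 63 (.thr 48 16 (.dbl 3 2 18))))) (.rp 25 (.thr 33 17 (.thr 42 47 (.thr 0 63 (.thr 48 16 (.dbl 3 2 18))))) (.rp 17 (.thr 25 13 (.thr 42 47 (.thr 0 63 (.thr 48 16 (.thr 8 59 (.thr 12 4 (.dbl 51 38 50))))))) (.rp 13 (.thr 33 17 (.thr 42 47 (.thr 0 63 (.thr 48 16 (.dbl 3 2 18))))) (.rp 11 (.str 8 (.nv (.thr 42 47 (.dbl 25 13 59)) (.nv (.thr 17 33 (.dbl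 25 13 29)) (.rp 25 (.thr 17 33 (.thr 42 47 (.thr 0 63 (.thr 48 16 (.dbl 51 34 50))))) (.rp 13 (.thr 17 33 (.thr 42 47 (.dbl 25 29 59))) (.rp 6 (.str 2 (.nv (.thr 17 33 (.dbl 25 13 29)) (.nv (.thr 42 47 (.dbl 0 3 63)) (.rp 12 (.thr 3 0 (.thr 17 33 (.dbl 25 13 29))) (.rp 3 (.str 12 (.nv (.thr 17 33 (.dbl 25 13 29)) (.nv (.thr 0 4 (.dbl 42 47 63)) (.rp 15 (.str 7 (.nv (.thr 17 33 (.dbl 25 13 29)) (.nv (.thr 0 4 (.dbl 42 47 63)) .nd))) (.rp 7 (.str 15 (.nv (.thr 17 33 (.dbl 25 13 29)) (.nv (.thr 42 47 (.dbl 0 4 63)) .nd))) .nd))))) .nd))))) (.rp 2 (.str 6 (.nv (.thr 4 7 (.thr 42 47 (.dbl 0 12 63))) (.nv (.thr 17 33 (.dbl 25 13 29)) .nd))) .nd))))))) (.rp 8 (.str 11 (.nv (.thr 17 33 (.dbl 25 13 29)) (.rp 33 (.thr 42 47 (.thr 0 63 (.thr 48 16 (.thr 15 26 (.dbl 3 2 7))))) (.rp 29 (.thr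 17 33 (.thr 42 47 (.thr 0 63 (.thr 51 34 (.dbl 48 16 50))))) (.rp 25 (.thr 17 33 (.thr 42 47 (.thr 0 63 (.thr 51 34 (.dbl 48 16 50))))) (.rp 17 (.thr 42 47 (.thr 0 63 (.thr 48 16 (.thr 15 26 (.dbl 3 2 7))))) (.rp 13 (.thr 17 33 (.thr 42 47 (.thr 0 63 (.thr 51 34 (.dbl 48 16 50))))) (.rp 6 (.str 2 (.nv (.thr 17 33 (.dbl 25 13 29)) (.nv (.thr 42 47 (.dbl 0 3 63)) (.rp 12 (.thr 3 0 (.str 4 (.nv (.thr 15 7 (.thr 26 48 (.thr 31 16 (.dbl 47 42 63)))) (.nv (.thr 17 33 (.dbl 25 13 29)) (.rp 15 (.thr 13 25 (.thr 33 17 (.thr 34 35 (.dbl 18 48 50)))) .nd))))) (.rp 3 (.str 12 (.nv (.thr 17 33 (.thr 29 25 (.thr 42 47 (.dbl 63 0 46)))) (.nv (.thr 25 13 (.dbl 17 29 33)) (.rp 33 (.thr 42 47 (.thr 63 0 (.thr 29 46 (.dbl 25 13 17)))) (.rp 29 (.thr 42 47 (.thr 0 63 (.thr 17 33 (.thr 51 34 (.dbl 48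 16 50))))) (.rp 25 (.thr 42 47 (.thr 0 63 (.thr 17 33 (.thr 51 34 (.dbl 48 16 50))))) (.rp 17 (.thr 42 47 (.thr 0 63 (.thr 25 13 (.thr 51 38 (.dbl 48 16 50))))) .nd))))))) .nd))))) (.rp 2 (.str 6 (.nv (.thr 17 33 (.dbl 25 13 29)) (.rp 33 (.thr 7 4 (.thr 15 3 (.thr 48 26 (.thr 0 16 (.dbl 42 47 63))))) (.rp 29 (.thr 17 33 (.thr 42 47 (.thr 0 63 (.thr 51 34 (.dbl 48 16 50))))) (.rp 25 (.thr 17 33 (.thr 42 47 (.thr 0 63 (.thr 51 34 (.dbl 48 16 50))))) (.rp 17 (.thr 7 4 (.thr 15 3 (.thr 48 26 (.thr 0 16 (.dbl 42 47 63))))) (.rp 13 (.thr 17 33 (.thr 42 47 (.thr 0 63 (.thr 51 34 (.dbl 48 16 50))))) .nd))))))) .nd))))))))) (.rp 6 (.str 2 (.nv (.thr 17 33 (.dbl 25 13 29)) (.nv (.thr 42 47 (.dbl 0 3 63)) (.rp 12 (.thr 3 0 (.thr 17 33 (.dbl 25 13 29))) (.rp 11 (.str 8 (.nv (.thr 17 33 (.dbl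 25 13 29)) (.nv (.thr 42 47 (.dbl 0 3 63)) (.rp 12 (.thr 3 0 (.thr 17 33 (.dbl 25 13 29))) (.rp 3 (.str 12 (.nv (.thr 17 33 (.dbl 25 13 29)) (.nv (.thr 0 4 (.dbl 42 47 63)) (.rp 15 (.str 7 (.nv (.thr 17 33 (.dbl 25 13 29)) (.nv (.thr 0 4 (.dbl 42 47 63)) .nd))) (.rp 7 (.str 15 (.nv (.thr 17 33 (.dbl 25 13 29)) (.nv (.thr 42 47 (.dbl 0 4 63)) .nd))) .nd))))) .nd))))) (.rp 8 (.str 11 (.nv (.thr 17 33 (.dbl 25 13 29)) (.nv (.thr 42 47 (.dbl 0 3 63)) (.rp 12 (.thr 3 0 (.str 4 (.nv (.thr 15 7 (.thr 26 48 (.thr 31 16 (.dbl 47 42 63)))) (.nv (.thr 17 33 (.dbl 25 13 29)) (.rp 15 (.thr 13 25 (.thr 33 17 (.thr 34 35 (.dbl 18 48 50)))) .nd))))) (.rp 3 (.str 12 (.nv (.thr 17 33 (.thr 29 25 (.thr 42 47 (.dbl 63 0 46)))) (.nv (.thr 25 13 (.dbl 17 29 33)) (.rp 33 (.thr 42 47 (.thr 63 0 (.thr 29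 46 (.dbl 25 13 17)))) (.rp 29 (.thr 42 47 (.thr 0 63 (.thr 17 33 (.thr 51 34 (.dbl 48 16 50))))) (.rp 25 (.thr 42 47 (.thr 0 63 (.thr 17 33 (.thr 51 34 (.dbl 48 16 50))))) (.rp 17 (.thr 42 47 (.thr 0 63 (.thr 25 13 (.thr 51 38 (.dbl 48 16 50))))) .nd))))))) .nd))))) (.rp 3 (.str 12 (.nv (.thr 42 47 (.thr 0 63 (.thr 8 4 (.dbl 25 13 59)))) (.nv (.thr 25 13 (.dbl 17 29 33)) (.rp 25 (.thr 17 33 (.thr 42 47 (.thr 0 63 (.thr 48 16 (.dbl 51 34 50))))) (.rp 13 (.thr 17 33 (.thr 29 25 (.thr 42 47 (.dbl 63 0 46)))) (.rp 11 (.str 8 (.nv (.thr 17 33 (.dbl 25 13 29)) (.nv (.thr 0 4 (.dbl 42 47 63)) (.rp 15 (.str 7 (.nv (.thr 17 33 (.dbl 25 13 29)) (.nv (.thr 0 4 (.dbl 42 47 63)) .nd))) (.rp 7 (.str 15 (.nv (.thr 17 33 (.dbl 25 13 29)) (.nv (.thr 42 47 (.dbl 0 4 63)) .nd))) .nd))))) (.rp 8 (.str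 11 (.nv (.thr 17 33 (.thr 29 25 (.thr 42 47 (.dbl 63 0 46)))) (.nv (.thr 25 13 (.dbl 17 29 33)) (.rp 33 (.thr 42 47 (.thr 63 0 (.thr 29 46 (.dbl 25 13 17)))) (.rp 29 (.thr 42 47 (.thr 0 63 (.thr 17 33 (.thr 51 34 (.dbl 48 16 50))))) (.rp 25 (.thr 42 47 (.thr 0 63 (.thr 17 33 (.thr 51 34 (.dbl 48 16 50))))) (.rp 17 (.thr 42 47 (.thr 0 63 (.thr 25 13 (.thr 51 38 (.dbl 48 16 50))))) .nd))))))) .nd))))))) .nd))))))) (.rp 2 (.str 6 (.nv (.thr 17 33 (.dbl 25 13 29)) (.rp 33 (.thr 4 7 (.thr 25 13 (.thr 42 47 (.thr 0 63 (.dbl 8 12 59))))) (.rp 29 (.thr 4 7 (.thr 38 55 (.thr 33 17 (.thr 35 34 (.dbl 41 44 45))))) (.rp 25 (.thr 4 7 (.thr 38 55 (.thr 33 17 (.thr 35 34 (.dbl 41 44 45))))) (.rp 17 (.thr 4 7 (.thr 25 13 (.thr 42 47 (.thr 0 63 (.dbl 8 12 59))))) (.rp 13 (.thr 4 7 (.thr 38 55 (.thr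 33 17 (.thr 35 34 (.dbl 41 44 45))))) (.rp 11 (.str 8 (.nv (.thr 4 7 (.thr 42 47 (.dbl 0 12 63))) (.nv (.thr 17 33 (.dbl 25 13 29)) .nd))) (.rp 8 (.str 11 (.nv (.thr 17 33 (.dbl 25 13 29)) (.rp 33 (.thr 7 4 (.thr 15 3 (.thr 48 26 (.thr 0 16 (.dbl 42 47 63))))) (.rp 29 (.thr 17 33 (.thr 42 47 (.thr 0 63 (.thr 51 34 (.dbl 48 16 50))))) (.rp 25 (.thr 17 33 (.thr 42 47 (.thr 0 63 (.thr 51 34 (.dbl 48 16 50))))) (.rp 17 (.thr 7 4 (.thr 15 3 (.thr 48 26 (.thr 0 16 (.dbl 42 47 63))))) (.rp 13 (.thr 17 33 (.thr 42 47 (.thr 0 63 (.thr 51 34 (.dbl 48 16 50))))) .nd))))))) .nd))))))))) .nd))))))))))) (.rp 57 (.thr 42 47 (.thr 0 63 (.thr 48 16 (.thr 2 3 (.thr 22 62 (.thr 52 7 (.thr 60 56 (.dbl 20 23 40)))))))) (.rp 49 (.thr 42 47 (.thr 0 63 (.thr 48 16 (.thr 2 3 (.thr 22 62 (.thr 52 7 (.thr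 60 56 (.dbl 20 23 40)))))))) (.rp 47 (.thr 41 61 (.thr 33 45 (.thr 35 34 (.thr 44 38 (.thr 40 36 (.thr 42 43 (.thr 0 63 (.thr 60 20 (.dbl 3 2 22))))))))) (.rp 42 (.thr 41 61 (.thr 33 45 (.thr 35 34 (.thr 38 44 (.thr 36 39 (.thr 4 55 (.thr 52 20 (.dbl 7 6 22)))))))) (.rp 41 (.thr 42 47 (.thr 0 63 (.thr 48 16 (.thr 2 3 (.thr 22 62 (.thr 52 7 (.thr 60 56 (.dbl 20 23 40)))))))) (.rp 11 (.str 8 (.nv (.thr 42 47 (.thr 0 63 (.thr 2 3 (.thr 22 62 (.thr 7 52 (.dbl 4 6 12)))))) (.nv (.thr 42 47 (.thr 25 59 (.thr 17 29 (.dbl 49 13 33)))) (.rp 47 (.thr 41 61 (.thr 33 45 (.thr 49 17 (.thr 35 34 (.thr 44 38 (.thr 40 36 (.thr 42 43 (.dbl 25 13 59)))))))) (.rp 43 (.thr 41 61 (.thr 33 45 (.thr 49 17 (.thr 42 47 (.dbl 25 13 59))))) (.rp 42 (.thr 41 61 (.thr 33 45 (.thr 35 34 (.thr 38 44 (.thr 36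 39 (.thr 4 55 (.thr 52 20 (.dbl 7 6 22)))))))) (.rp 6 (.str 2 (.nv (.thr 3 0 (.thr 41 61 (.thr 42 47 (.dbl 22 60 62)))) (.nv (.thr 42 47 (.dbl 0 3 63)) (.rp 47 (.thr 3 0 (.thr 41 61 (.thr 33 45 (.thr 18 48 (.dbl 34 35 50))))) (.rp 42 (.thr 3 0 (.thr 41 61 (.thr 33 45 (.thr 18 48 (.dbl 34 35 50))))) (.rp 3 (.str 12 (.nv (.thr 42 47 (.thr 25 59 (.thr 17 29 (.dbl 49 13 33)))) (.nv (.thr 0 4 (.dbl 42 47 63)) (.rp 47 (.thr 0 4 (.thr 41 61 (.thr 33 45 (.thr 34 35 (.dbl 17 49 51))))) (.rp 42 (.thr 0 4 (.thr 41 61 (.thr 33 45 (.thr 34 35 (.dbl 17 49 51))))) (.rp 15 (.str 7 (.nv (.thr 22 52 (.dbl 42 47 62)) (.nv (.thr 4 0 (.thr 22 52 (.thr 23 20 (.dbl 55 38 39)))) (.nv (.thr 0 4 (.dbl 42 47 63)) .nd)))) (.rp 7 (.str 15 (.nv (.thr 26 48 (.thr 31 16 (.dbl 47 42 63))) (.nv (.thr 0 4 (.dbl 48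 16 26)) (.nv (.thr 0 4 (.dbl 42 47 63)) .nd)))) .nd))))))) (.rp 0 (.thr 42 47 (.thr 25 59 (.thr 49 13 (.dbl 17 29 33)))) .nd))))))) (.rp 2 (.str 6 (.nv (.thr 4 7 (.thr 38 55 (.thr 41 61 (.thr 33 45 (.dbl 35 34 44))))) (.nv (.thr 42 47 (.thr 25 59 (.thr 17 29 (.dbl 49 13 33)))) (.nv (.thr 4 7 (.thr 42 47 (.dbl 0 12 63))) .nd)))) .nd)))))))) (.rp 8 (.str 11 (.nv (.thr 42 47 (.thr 0 63 (.thr 48 16 (.thr 15 26 (.dbl 3 2 7))))) (.nv (.thr 41 61 (.thr 33 45 (.thr 35 34 (.thr 38 44 (.thr 39 36 (.dbl 47 42 43)))))) (.nv (.thr 41 61 (.thr 26 56 (.thr 16 31 (.dbl 48 0 15)))) (.rp 6 (.str 2 (.nv (.thr 3 0 (.thr 7 15 (.thr 22 52 (.dbl 41 60 61)))) (.nv (.thr 42 47 (.dbl 0 3 63)) (.rp 12 (.thr 3 0 (.str 4 (.nv (.thr 42 47 (.thr 22 62 (.dbl 7 15 52))) (.nv (.thr 15 7 (.thr 41 61 (.dbl 26 48 56)))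 (.rp 15 (.str 13 (.nv (.thr 42 47 (.thr 22 62 (.thr 20 23 (.dbl 52 7 36)))) (.nv (.thr 25 49 (.thr 61 41 (.dbl 29 17 45))) .nd))) (.rp 7 (.thr 42 47 (.thr 22 62 (.dbl 41 60 61))) .nd)))))) (.rp 3 (.str 12 (.nv (.thr 41 61 (.thr 26 56 (.thr 16 31 (.dbl 48 0 15)))) (.nv (.thr 42 47 (.thr 63 0 (.thr 61 41 (.dbl 62 22 60)))) (.rp 61 (.thr 42 47 (.thr 63 0 (.thr 46 29 (.thr 38 34 (.thr 55 4 (.dbl 51 25 59)))))) (.rp 57 (.thr 42 47 (.thr 63 0 (.thr 62 22 (.dbl 61 41 60)))) (.rp 41 (.thr 42 47 (.thr 63 0 (.thr 46 29 (.thr 38 34 (.thr 55 4 (.dbl 51 25 59)))))) (.rp 0 (.thr 47 42 (.thr 41 61 (.thr 26 56 (.thr 31 16 (.dbl 15 48 63))))) .nd))))))) (.rp 0 (.thr 42 47 (.thr 22 62 (.thr 7 52 (.thr 3 15 (.dbl 41 60 61))))) .nd)))))) (.rp 2 (.str 6 (.nv (.thr 41 61 (.thr 26 56 (.thr 16 31 (.dbl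 48 0 15)))) (.nv (.thr 4 7 (.thr 38 55 (.thr 41 61 (.thr 33 45 (.dbl 35 34 44))))) (.nv (.thr 42 47 (.thr 0 63 (.thr 48 16 (.thr 7 4 (.dbl 15 3 26))))) .nd)))) .nd)))))) (.rp 6 (.str 2 (.nv (.thr 3 0 (.thr 41 61 (.thr 42 47 (.dbl 22 60 62)))) (.nv (.thr 42 47 (.dbl 0 3 63)) (.rp 47 (.thr 3 0 (.thr 41 61 (.thr 33 45 (.thr 18 48 (.dbl 34 35 50))))) (.rp 42 (.thr 3 0 (.thr 41 61 (.thr 33 45 (.thr 18 48 (.dbl 34 35 50))))) (.rp 11 (.str 8 (.nv (.thr 3 0 (.thr 41 61 (.thr 42 47 (.dbl 22 60 62)))) (.nv (.thr 42 47 (.dbl 0 3 63)) (.rp 47 (.thr 3 0 (.thr 41 61 (.thr 33 45 (.thr 18 48 (.dbl 34 35 50))))) (.rp 42 (.thr 3 0 (.thr 41 61 (.thr 33 45 (.thr 18 48 (.dbl 34 35 50))))) (.rp 3 (.str 12 (.nv (.thr 42 47 (.thr 25 59 (.thr 17 29 (.dbl 49 13 33)))) (.nv (.thr 0 4 (.dbl 42 47 63)) (.rp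 47 (.thr 0 4 (.thr 41 61 (.thr 33 45 (.thr 34 35 (.dbl 17 49 51))))) (.rp 42 (.thr 0 4 (.thr 41 61 (.thr 33 45 (.thr 34 35 (.dbl 17 49 51))))) (.rp 15 (.str 7 (.nv (.thr 22 52 (.dbl 42 47 62)) (.nv (.thr 4 0 (.thr 22 52 (.thr 23 20 (.dbl 55 38 39)))) (.nv (.thr 0 4 (.dbl 42 47 63)) .nd)))) (.rp 7 (.str 15 (.nv (.thr 26 48 (.thr 31 16 (.dbl 47 42 63))) (.nv (.thr 0 4 (.dbl 48 16 26)) (.nv (.thr 0 4 (.dbl 42 47 63)) .nd)))) .nd))))))) (.rp 0 (.thr 42 47 (.thr 25 59 (.thr 49 13 (.dbl 17 29 33)))) .nd))))))) (.rp 8 (.str 11 (.nv (.thr 3 0 (.thr 7 15 (.thr 22 52 (.dbl 41 60 61)))) (.nv (.thr 42 47 (.dbl 0 3 63)) (.rp 12 (.thr 3 0 (.str 4 (.nv (.thr 42 47 (.thr 22 62 (.dbl 7 15 52))) (.nv (.thr 15 7 (.thr 41 61 (.dbl 26 48 56))) (.rp 15 (.str 13 (.nv (.thr 42 47 (.thr 22 62 (.thr 20 23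 (.dbl 52 7 36)))) (.nv (.thr 25 49 (.thr 61 41 (.dbl 29 17 45))) .nd))) (.rp 7 (.thr 42 47 (.thr 22 62 (.dbl 41 60 61))) .nd)))))) (.rp 3 (.str 12 (.nv (.thr 41 61 (.thr 26 56 (.thr 16 31 (.dbl 48 0 15)))) (.nv (.thr 42 47 (.thr 63 0 (.thr 61 41 (.dbl 62 22 60)))) (.rp 61 (.thr 42 47 (.thr 63 0 (.thr 46 29 (.thr 38 34 (.thr 55 4 (.dbl 51 25 59)))))) (.rp 57 (.thr 42 47 (.thr 63 0 (.thr 62 22 (.dbl 61 41 60)))) (.rp 41 (.thr 42 47 (.thr 63 0 (.thr 46 29 (.thr 38 34 (.thr 55 4 (.dbl 51 25 59)))))) (.rp 0 (.thr 47 42 (.thr 41 61 (.thr 26 56 (.thr 31 16 (.dbl 15 48 63))))) .nd))))))) (.rp 0 (.thr 42 47 (.thr 22 62 (.thr 7 52 (.thr 3 15 (.dbl 41 60 61))))) .nd)))))) (.rp 3 (.str 12 (.nv (.thr 41 61 (.thr 33 45 (.thr 35 34 (.thr 38 44 (.thr 25 51 (.dbl 17 29 49)))))) (.nv (.thr 42 47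 (.thr 0 63 (.thr 48 16 (.thr 36 24 (.thr 38 39 (.dbl 4 8 55)))))) (.nv (.thr 61 41 (.thr 42 47 (.thr 63 0 (.dbl 62 22 60)))) (.rp 47 (.thr 41 61 (.thr 33 45 (.thr 49 17 (.thr 34 35 (.thr 50 18 (.thr 51 48 (.dbl 25 13 38))))))) (.rp 11 (.str 8 (.nv (.thr 42 47 (.thr 25 59 (.thr 17 29 (.dbl 49 13 33)))) (.nv (.thr 0 4 (.dbl 42 47 63)) (.rp 47 (.thr 0 4 (.thr 41 61 (.thr 33 45 (.thr 34 35 (.dbl 17 49 51))))) (.rp 42 (.thr 0 4 (.thr 41 61 (.thr 33 45 (.thr 34 35 (.dbl 17 49 51))))) (.rp 15 (.str 7 (.nv (.thr 22 52 (.dbl 42 47 62)) (.nv (.thr 4 0 (.thr 22 52 (.thr 23 20 (.dbl 55 38 39)))) (.nv (.thr 0 4 (.dbl 42 47 63)) .nd)))) (.rp 7 (.str 15 (.nv (.thr 26 48 (.thr 31 16 (.dbl 47 42 63))) (.nv (.thr 0 4 (.dbl 48 16 26)) (.nv (.thr 0 4 (.dbl 42 47 63)) .nd)))) .nd))))))) (.rp 8 (.str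 11 (.nv (.thr 41 61 (.thr 26 56 (.thr 16 31 (.dbl 48 0 15)))) (.nv (.thr 42 47 (.thr 63 0 (.thr 61 41 (.dbl 62 22 60)))) (.rp 61 (.thr 42 47 (.thr 63 0 (.thr 46 29 (.thr 38 34 (.thr 55 4 (.dbl 51 25 59)))))) (.rp 57 (.thr 42 47 (.thr 63 0 (.thr 62 22 (.dbl 61 41 60)))) (.rp 41 (.thr 42 47 (.thr 63 0 (.thr 46 29 (.thr 38 34 (.thr 55 4 (.dbl 51 25 59)))))) (.rp 0 (.thr 47 42 (.thr 41 61 (.thr 26 56 (.thr 31 16 (.dbl 15 48 63))))) .nd))))))) .nd))))))) (.rp 0 (.thr 41 61 (.thr 33 45 (.thr 35 34 (.thr 38 44 (.thr 39 36 (.dbl 47 42 43)))))) .nd))))))))) (.rp 2 (.str 6 (.nv (.thr 4 7 (.thr 38 55 (.thr 39 36 (.thr 47 42 (.thr 35 43 (.dbl 41 44 61)))))) (.nv (.thr 4 7 (.thr 41 61 (.thr 33 45 (.thr 35 34 (.dbl 38 44 55))))) (.nv (.thr 4 7 (.thr 38 55 (.thr 41 61 (.thr 44 35 (.dbl 36 39 40)))))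 (.rp 61 (.thr 4 7 (.thr 38 55 (.thr 39 36 (.thr 47 42 (.thr 35 43 (.thr 33 34 (.dbl 41 44 45))))))) (.rp 55 (.thr 7 4 (.thr 41 61 (.thr 33 45 (.thr 35 34 (.thr 38 44 (.dbl 22 52 54)))))) (.rp 44 (.thr 4 7 (.thr 38 55 (.thr 41 61 (.thr 33 45 (.thr 34 35 (.dbl 42 46 47)))))) (.rp 41 (.thr 4 7 (.thr 38 55 (.thr 42 47 (.thr 0 63 (.thr 34 46 (.thr 33 35 (.dbl 17 49 51))))))) (.rp 38 (.thr 41 61 (.thr 33 45 (.thr 34 35 (.thr 42 47 (.thr 0 63 (.dbl 17 49 51)))))) (.rp 35 (.thr 4 7 (.thr 38 55 (.thr 41 61 (.thr 45 33 (.thr 47 42 (.thr 44 46 (.dbl 36 39 40))))))) (.rp 11 (.str 8 (.nv (.thr 4 7 (.thr 38 55 (.thr 41 61 (.thr 33 45 (.dbl 35 34 44))))) (.nv (.thr 42 47 (.thr 25 59 (.thr 17 29 (.dbl 49 13 33)))) (.nv (.thr 4 7 (.thr 42 47 (.dbl 0 12 63))) .nd)))) (.rp 8 (.str 11 (.nv (.thr 41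 61 (.thr 26 56 (.thr 16 31 (.dbl 48 0 15)))) (.nv (.thr 4 7 (.thr 38 55 (.thr 41 61 (.thr 33 45 (.dbl 35 34 44))))) (.nv (.thr 42 47 (.thr 0 63 (.thr 48 16 (.thr 7 4 (.dbl 15 3 26))))) .nd)))) (.rp 7 (.thr 41 61 (.thr 33 45 (.thr 35 34 (.thr 38 44 (.thr 39 36 (.dbl 47 42 43)))))) (.rp 4 (.thr 41 61 (.thr 33 45 (.thr 35 34 (.thr 38 44 (.thr 39 36 (.dbl 47 42 43)))))) .nd)))))))))))))) .nd)))))))))))))) (.rp 6 (.str 2 (.nv (.thr 13 9 (.thr 25 49 (.thr 61 41 (.dbl 29 17 45)))) (.nv (.thr 41 61 (.thr 33 45 (.thr 49 17 (.dbl 13 9 25)))) (.rp 61 (.thr 3 0 (.thr 13 9 (.thr 49 25 (.thr 33 17 (.thr 48 18 (.thr 41 45 (.thr 22 60 (.thr 7 52 (.dbl 15 11 26))))))))) (.rp 49 (.thr 0 3 (.thr 42 63 (.thr 22 62 (.thr 52 7 (.thr 32 47 (.thr 48 16 (.thr 60 56 (.dbl 20 23 40)))))))) (.rp 45 (.thr 0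 3 (.thr 42 63 (.thr 22 62 (.thr 52 7 (.thr 32 47 (.thr 48 16 (.thr 60 56 (.dbl 20 23 40)))))))) (.rp 41 (.thr 0 3 (.thr 42 63 (.thr 22 62 (.thr 52 7 (.thr 32 47 (.thr 48 16 (.thr 60 56 (.dbl 20 23 40)))))))) (.rp 29 (.thr 13 9 (.thr 49 25 (.thr 33 17 (.dbl 41 45 61)))) (.rp 25 (.thr 0 3 (.thr 41 61 (.thr 33 45 (.thr 42 63 (.thr 32 47 (.thr 34 35 (.dbl 17 49 51))))))) (.rp 17 (.thr 3 0 (.thr 41 61 (.thr 22 60 (.thr 7 52 (.thr 33 45 (.thr 48 18 (.dbl 15 11 26))))))) (.rp 13 (.thr 3 0 (.thr 41 61 (.thr 22 60 (.thr 7 52 (.thr 15 11 (.thr 48 26 (.dbl 33 18 45))))))) (.rp 9 (.thr 3 0 (.thr 41 61 (.thr 22 60 (.thr 7 52 (.thr 33 45 (.thr 48 18 (.dbl 15 11 26))))))) .nd)))))))))))) (.rp 2 (.str 6 (.nv (.thr 7 4 (.thr 22 52 (.thr 41 61 (.thr 3 60 (.dbl 9 12 13))))) (.nv (.thr 13 9 (.thr 25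 49 (.thr 61 41 (.dbl 29 17 45)))) (.rp 61 (.thr 4 7 (.thr 38 55 (.thr 9 13 (.thr 12 3 (.thr 51 25 (.thr 0 8 (.thr 34 17 (.dbl 42 46 63)))))))) (.rp 49 (.thr 4 7 (.thr 38 55 (.thr 9 13 (.thr 12 3 (.thr 25 51 (.dbl 41 57 61)))))) (.rp 41 (.thr 4 7 (.thr 38 55 (.thr 13 9 (.thr 25 49 (.thr 29 17 (.thr 12 51 (.thr 63 46 (.dbl 0 8 42)))))))) (.rp 13 (.thr 7 4 (.thr 22 52 (.thr 41 61 (.thr 3 60 (.thr 15 11 (.thr 48 26 (.dbl 33 18 45))))))) (.rp 9 (.thr 7 4 (.thr 22 52 (.thr 41 61 (.thr 33 45 (.thr 3 60 (.thr 48 18 (.dbl 15 11 26))))))) .nd)))))))) .nd))))))))))))))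

theorem w340 : WinAt (137441050656, 9007199254758400) :=
  chF (K := []) kn c340 137441050656 9007199254758400 53
    [17476] (by decide +kernel) (by decide +kernel)

/-- A certificate. -/
noncomputable def c341 : Ct := (.str 7 (.nv (.thr 22 52 (.thr 23 20 (.thr 55 39 (.dbl 4 6 38)))) (.nv (.thr 4 6 (.thr 55 38 (.thr 22 52 (.dbl 23 20 39)))) (.rp 55 (.thr 6 4 (.thr 22 52 (.thr 54 38 (.thr 20 23 (.str 3 (.nv (.thr 9 12 (.thr 13 1 (.thr 25 49 (.dbl 41 57 60)))) (.nv (.thr 60 41 (.thr 0 40 (.thr 2 1 (.dbl 42 62 63)))) (.rp 60 (.thr 9 12 (.thr 13 1 (.thr 25 49 (.thr 28 19 (.thr 16 24 (.thr 31 26 (.dbl 29 17 30))))))) (.rp 41 (.thr 9 12 (.thr 13 1 (.thr 25 49 (.thr 28 19 (.thr 16 24 (.thr 31 26 (.dbl 29 17 30))))))) (.rp 1 (.thr 60 41 (.thr 51 57 (.thr 0 40 (.thr 17 34 (.thr 25 29 (.dbl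 19 28 35)))))) (.rp 0 (.thr 41 60 (.thr 1 61 (.dbl 9 12 13))) .nd))))))))))) (.rp 52 (.str 41 (.nv (.thr 1 61 (.thr 13 9 (.thr 49 25 (.dbl 33 17 45)))) (.nv (.thr 33 45 (.thr 1 61 (.thr 49 17 (.dbl 13 9 25)))) (.rp 61 (.thr 4 6 (.thr 55 38 (.thr 23 39 (.thr 22 20 (.thr 3 60 (.thr 63 43 (.thr 51 59 (.thr 35 19 (.thr 0 42 (.thr 34 17 (.dbl 33 32 45))))))))))) (.rp 55 (.str 54 (.nv (.thr 6 4 (.thr 22 38 (.thr 60 3 (.thr 1 61 (.thr 57 51 (.dbl 9 13 25)))))) (.nv (.thr 33 45 (.thr 1 61 (.thr 49 17 (.dbl 13 9 25)))) (.rp 61 (.thr 6 4 (.thr 22 38 (.thr 3 60 (.thr 9 12 (.thr 13 1 (.dbl 25 49 57)))))) (.rp 60 (.thr 1 61 (.thr 13 9 (.thr 49 25 (.dbl 33 17 45)))) (.rp 25 (.thr 1 61 (.thr 9 13 (.thr 6 4 (.thr 22 38 (.dbl 3 12 60))))) (.rp 13 (.thr 45 33 (.thr 6 4 (.thr 38 22 (.thr 44 35 (.thr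 47 46 (.thr 36 39 (.dbl 32 40 42))))))) (.rp 9 (.thr 45 33 (.thr 6 4 (.thr 38 22 (.thr 44 35 (.thr 47 46 (.thr 36 39 (.dbl 32 40 42))))))) (.rp 1 (.thr 45 33 (.thr 6 4 (.thr 38 22 (.thr 44 35 (.thr 47 46 (.thr 36 39 (.dbl 32 40 42))))))) .nd))))))))) (.rp 54 (.str 55 (.nv (.dbl 4 6 38) (.rp 38 (.thr 33 45 (.thr 1 61 (.thr 49 17 (.dbl 13 9 25)))) (.rp 6 (.thr 39 23 (.dbl 38 4 36)) (.rp 4 (.thr 33 45 (.thr 1 61 (.thr 49 17 (.dbl 13 9 25)))) .nd))))) (.rp 49 (.thr 4 6 (.thr 55 38 (.thr 23 39 (.thr 22 20 (.thr 3 60 (.thr 63 43 (.thr 0 42 (.dbl 1 2 61)))))))) (.rp 45 (.thr 61 1 (.thr 4 6 (.thr 55 38 (.thr 23 39 (.thr 22 20 (.thr 60 3 (.thr 63 62 (.thr 0 42 (.thr 12 8 (.thr 28 44 (.thr 25 19 (.dbl 29 17 46)))))))))))) (.rp 33 (.thr 1 61 (.thr 4 6 (.thr 55 38 (.thr 23 39 (.thr 22 20 (.thr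 3 60 (.thr 63 43 (.dbl 0 2 42)))))))) (.rp 25 (.thr 1 61 (.thr 4 6 (.thr 55 38 (.thr 23 39 (.thr 22 20 (.thr 3 60 (.thr 63 43 (.dbl 0 2 42)))))))) (.rp 17 (.thr 1 61 (.thr 4 6 (.thr 55 38 (.thr 23 39 (.thr 22 20 (.thr 3 60 (.thr 63 43 (.dbl 0 2 42)))))))) (.rp 13 (.thr 1 61 (.thr 4 6 (.thr 55 38 (.thr 23 39 (.thr 22 20 (.thr 3 60 (.thr 63 43 (.dbl 0 2 42)))))))) (.rp 9 (.thr 1 61 (.thr 4 6 (.thr 55 38 (.thr 23 39 (.thr 22 20 (.thr 3 60 (.thr 63 43 (.dbl 0 2 42)))))))) (.rp 1 (.thr 4 6 (.thr 55 38 (.thr 23 39 (.thr 22 20 (.thr 3 60 (.thr 63 43 (.thr 51 59 (.thr 35 19 (.thr 0 42 (.thr 34 17 (.dbl 33 32 45))))))))))) .nd)))))))))))))) (.rp 39 (.thr 6 4 (.thr 22 52 (.thr 20 23 (.thr 54 38 (.str 25 (.nv (.thr 13 49 (.thr 9 1 (.thr 3 12 (.dbl 41 57 60)))) (.nv (.thr 28 19 (.thr 16 24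 (.thr 29 17 (.dbl 31 26 30)))) (.rp 51 (.str 27 (.nv (.thr 13 49 (.thr 1 9 (.thr 29 17 (.dbl 61 41 45)))) (.nv (.thr 28 19 (.dbl 24 16 26)) .nd))) (.rp 27 (.str 51 (.nv (.thr 17 29 (.thr 0 34 (.dbl 60 40 57))) (.nv (.thr 19 28 (.thr 60 57 (.dbl 3 35 41))) (.rp 60 (.thr 19 28 (.thr 3 35 (.thr 13 49 (.dbl 9 1 12)))) (.rp 57 (.thr 19 28 (.thr 3 35 (.thr 9 12 (.dbl 13 1 49)))) (.rp 19 (.str 31 (.nv (.thr 60 57 (.thr 3 41 (.thr 9 12 (.dbl 13 1 49)))) (.nv (.thr 29 17 (.thr 30 28 (.dbl 26 16 18))) .nd))) .nd)))))) (.rp 17 (.thr 28 19 (.thr 16 24 (.thr 13 49 (.thr 1 9 (.thr 61 41 (.thr 29 45 (.dbl 31 26 30))))))) .nd)))))))))) (.rp 38 (.str 13 (.nv (.thr 25 49 (.thr 29 17 (.thr 61 45 (.dbl 1 9 41)))) (.nv (.thr 1 9 (.thr 41 61 (.thr 49 25 (.dbl 33 17 45)))) (.nv (.thr 1 9 (.thr 25 49 (.thr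 29 17 (.dbl 61 41 45)))) (.rp 61 (.thr 6 4 (.thr 22 52 (.thr 9 1 (.thr 3 12 (.thr 41 60 (.dbl 25 49 57)))))) (.rp 49 (.thr 22 52 (.thr 20 23 (.thr 1 9 (.thr 61 41 (.thr 29 45 (.thr 25 17 (.thr 28 19 (.thr 16 24 (.dbl 31 26 30))))))))) (.rp 45 (.thr 6 4 (.thr 22 52 (.thr 9 1 (.thr 3 12 (.thr 25 49 (.dbl 41 57 60)))))) (.rp 41 (.thr 22 52 (.thr 23 20 (.thr 25 49 (.thr 17 29 (.thr 19 28 (.thr 16 18 (.dbl 31 26 27))))))) (.rp 25 (.thr 22 52 (.thr 23 20 (.thr 1 9 (.thr 41 61 (.thr 3 60 (.thr 0 2 (.dbl 63 42 43))))))) (.rp 17 (.thr 6 4 (.thr 22 52 (.thr 9 1 (.thr 3 12 (.thr 41 60 (.dbl 25 49 57)))))) (.rp 9 (.thr 22 52 (.thr 23 20 (.thr 25 49 (.thr 17 29 (.thr 19 28 (.thr 16 18 (.dbl 31 26 27))))))) (.rp 1 (.thr 22 52 (.thr 23 20 (.thr 25 49 (.thr 17 29 (.thr 19 28 (.thr 16 18 (.dbl 31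 26 27))))))) .nd)))))))))))) (.rp 23 (.thr 4 6 (.thr 38 55 (.thr 36 39 (.dbl 52 20 22)))) (.rp 22 (.str 13 (.nv (.thr 25 49 (.thr 29 17 (.thr 61 45 (.dbl 1 9 41)))) (.nv (.thr 1 9 (.thr 41 61 (.thr 49 25 (.dbl 33 17 45)))) (.nv (.thr 1 9 (.thr 25 49 (.thr 29 17 (.dbl 61 41 45)))) (.rp 61 (.thr 4 6 (.thr 38 55 (.thr 9 1 (.thr 25 49 (.thr 57 41 (.thr 12 51 (.thr 0 8 (.thr 63 42 (.dbl 29 17 46))))))))) (.rp 49 (.thr 4 6 (.thr 38 55 (.thr 1 9 (.thr 61 41 (.thr 29 45 (.thr 25 17 (.thr 12 51 (.thr 63 46 (.dbl 0 8 42))))))))) (.rp 45 (.thr 4 6 (.thr 38 55 (.thr 25 49 (.thr 29 17 (.thr 12 51 (.thr 63 46 (.dbl 0 8 42))))))) (.rp 41 (.thr 4 6 (.thr 38 55 (.thr 25 49 (.thr 29 17 (.thr 12 51 (.thr 63 46 (.dbl 0 8 42))))))) (.rp 25 (.thr 4 6 (.thr 38 55 (.thr 39 36 (.thr 1 9 (.thr 41 61 (.thr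 33 45 (.thr 35 44 (.thr 32 34 (.dbl 47 42 43))))))))) (.rp 17 (.thr 4 6 (.thr 38 55 (.thr 39 36 (.thr 1 9 (.thr 41 61 (.thr 33 45 (.thr 35 44 (.thr 32 34 (.dbl 47 42 43))))))))) (.rp 9 (.thr 4 6 (.thr 38 55 (.thr 25 49 (.thr 29 17 (.thr 12 51 (.thr 63 46 (.dbl 0 8 42))))))) (.rp 1 (.thr 4 6 (.thr 38 55 (.thr 25 49 (.thr 12 51 (.thr 0 8 (.thr 63 42 (.dbl 29 17 46))))))) .nd)))))))))))) (.rp 20 (.str 13 (.nv (.thr 25 49 (.thr 29 17 (.thr 61 45 (.dbl 1 9 41)))) (.nv (.thr 1 9 (.thr 25 49 (.thr 61 41 (.dbl 29 17 45)))) (.rp 61 (.thr 6 4 (.thr 9 1 (.thr 12 3 (.thr 25 49 (.thr 57 41 (.thr 38 51 (.dbl 22 52 54))))))) (.rp 49 (.thr 4 6 (.thr 38 55 (.thr 1 9 (.thr 61 41 (.thr 29 45 (.thr 25 17 (.thr 12 51 (.thr 63 46 (.dbl 0 8 42))))))))) (.rp 45 (.thr 6 4 (.thr 9 1 (.thr 12 3 (.thr 25 49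 (.thr 38 51 (.dbl 22 52 54)))))) (.rp 41 (.thr 6 4 (.thr 9 1 (.thr 12 3 (.thr 25 49 (.thr 38 51 (.dbl 22 52 54)))))) (.rp 29 (.thr 1 9 (.thr 41 61 (.thr 33 45 (.dbl 49 17 25)))) (.rp 25 (.thr 4 6 (.thr 55 38 (.thr 23 39 (.thr 22 52 (.thr 1 9 (.thr 41 61 (.thr 3 60 (.thr 63 43 (.dbl 0 2 42))))))))) (.rp 17 (.thr 4 6 (.thr 55 38 (.thr 23 39 (.thr 22 52 (.thr 1 9 (.thr 41 61 (.thr 3 60 (.thr 63 43 (.dbl 0 2 42))))))))) (.rp 9 (.thr 4 6 (.thr 38 55 (.thr 25 49 (.thr 29 17 (.thr 12 51 (.thr 63 46 (.dbl 0 8 42))))))) (.rp 1 (.thr 4 6 (.thr 38 55 (.thr 25 49 (.thr 12 51 (.thr 0 8 (.thr 63 42 (.dbl 29 17 46))))))) .nd)))))))))))) (.rp 6 (.str 13 (.nv (.thr 25 49 (.thr 29 17 (.thr 61 45 (.dbl 1 9 41)))) (.nv (.thr 1 9 (.thr 61 41 (.thr 25 49 (.dbl 29 17 45)))) (.rp 61 (.thr 22 52 (.thr 23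 20 (.thr 9 1 (.thr 25 49 (.thr 57 41 (.thr 17 29 (.thr 19 28 (.thr 16 18 (.dbl 31 26 27))))))))) (.rp 49 (.thr 22 52 (.thr 20 23 (.thr 1 9 (.thr 61 41 (.thr 29 45 (.thr 25 17 (.thr 28 19 (.thr 16 24 (.dbl 31 26 30))))))))) (.rp 45 (.thr 22 52 (.thr 23 20 (.thr 25 49 (.thr 17 29 (.thr 19 28 (.thr 16 18 (.dbl 31 26 27))))))) (.rp 41 (.thr 22 52 (.thr 23 20 (.thr 25 49 (.thr 17 29 (.thr 19 28 (.thr 16 18 (.dbl 31 26 27))))))) (.rp 29 (.thr 1 9 (.thr 41 61 (.thr 33 45 (.dbl 49 17 25)))) (.rp 25 (.thr 22 52 (.thr 23 20 (.thr 1 9 (.thr 41 61 (.thr 3 60 (.thr 63 43 (.dbl 0 2 42))))))) (.rp 17 (.thr 22 52 (.thr 23 20 (.thr 1 9 (.thr 41 61 (.thr 3 60 (.thr 63 43 (.dbl 0 2 42))))))) (.rp 14 (.str 2 (.nv (.thr 1 9 (.thr 22 52 (.thr 42 62 (.dbl 0 3 63)))) (.nv (.thr 25 49 (.thr 29 17 (.thr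 61 45 (.dbl 1 9 41)))) (.nv (.thr 1 9 (.thr 3 0 (.thr 41 61 (.dbl 22 52 60)))) (.rp 9 (.thr 22 52 (.thr 42 62 (.thr 0 63 (.thr 3 1 (.thr 20 23 (.dbl 60 40 41)))))) (.rp 1 (.thr 25 49 (.thr 17 29 (.thr 22 52 (.thr 23 20 (.thr 19 28 (.thr 31 27 (.dbl 16 18 26))))))) .nd)))))) (.rp 9 (.thr 22 52 (.thr 23 20 (.thr 25 49 (.thr 17 29 (.thr 19 28 (.thr 16 18 (.dbl 31 26 27))))))) (.rp 2 (.str 14 (.nv (.thr 1 9 (.thr 25 49 (.thr 61 41 (.dbl 29 17 45)))) (.nv (.thr 25 49 (.thr 29 17 (.thr 61 45 (.dbl 1 9 41)))) (.rp 61 (.thr 22 52 (.thr 23 20 (.thr 9 1 (.thr 25 49 (.thr 57 41 (.thr 19 28 (.thr 31 27 (.thr 17 29 (.dbl 16 18 26))))))))) (.rp 49 (.thr 22 52 (.thr 20 23 (.thr 1 9 (.thr 61 41 (.thr 29 45 (.thr 25 17 (.thr 28 19 (.thr 16 24 (.dbl 31 26 30))))))))) (.rp 45 (.thr 22 52 (.thr 23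 20 (.thr 25 49 (.thr 19 28 (.thr 31 27 (.thr 17 29 (.dbl 16 18 26))))))) (.rp 41 (.thr 22 52 (.thr 23 20 (.thr 25 49 (.thr 19 28 (.thr 31 27 (.thr 17 29 (.dbl 16 18 26))))))) (.rp 29 (.thr 1 9 (.thr 41 61 (.thr 33 45 (.dbl 49 17 25)))) (.rp 25 (.thr 22 52 (.thr 23 20 (.thr 55 39 (.thr 1 9 (.thr 41 61 (.thr 3 60 (.thr 63 43 (.thr 51 59 (.thr 35 19 (.dbl 38 4 44)))))))))) (.rp 17 (.thr 22 52 (.thr 20 23 (.thr 1 9 (.thr 61 41 (.thr 29 45 (.thr 25 49 (.thr 28 19 (.thr 16 24 (.dbl 31 26 30))))))))) (.rp 9 (.thr 22 52 (.thr 23 20 (.thr 25 49 (.thr 19 28 (.thr 31 27 (.thr 17 29 (.dbl 16 18 26))))))) (.rp 1 (.thr 22 52 (.thr 23 20 (.thr 25 49 (.thr 19 28 (.thr 31 27 (.thr 17 29 (.dbl 16 18 26))))))) .nd)))))))))))) (.rp 1 (.thr 22 52 (.thr 23 20 (.thr 25 49 (.thr 17 29 (.thr 19 28 (.thr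 16 18 (.dbl 31 26 27))))))) .nd)))))))))))))) (.rp 4 (.str 13 (.nv (.thr 25 49 (.thr 29 17 (.thr 61 45 (.dbl 1 9 41)))) (.nv (.thr 1 9 (.thr 61 41 (.thr 25 49 (.dbl 29 17 45)))) (.rp 61 (.thr 22 52 (.thr 20 23 (.thr 9 1 (.thr 25 49 (.thr 57 41 (.thr 28 19 (.thr 16 24 (.thr 31 26 (.dbl 29 17 30))))))))) (.rp 49 (.thr 22 52 (.thr 20 23 (.thr 1 9 (.thr 61 41 (.thr 29 45 (.thr 25 17 (.thr 28 19 (.thr 16 24 (.dbl 31 26 30))))))))) (.rp 45 (.thr 22 52 (.thr 20 23 (.thr 25 49 (.thr 29 17 (.thr 28 19 (.thr 16 24 (.dbl 31 26 30))))))) (.rp 41 (.thr 22 52 (.thr 20 23 (.thr 25 49 (.thr 29 17 (.thr 28 19 (.thr 31 30 (.dbl 16 24 26))))))) (.rp 29 (.thr 1 9 (.thr 41 61 (.thr 33 45 (.dbl 49 17 25)))) (.rp 25 (.thr 22 52 (.thr 1 9 (.thr 41 61 (.thr 3 60 (.thr 0 2 (.thr 63 42 (.dbl 23 20 43)))))))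 (.rp 17 (.thr 22 52 (.thr 1 9 (.thr 41 61 (.thr 3 60 (.thr 0 2 (.thr 63 42 (.dbl 23 20 43))))))) (.rp 9 (.thr 22 52 (.thr 20 23 (.thr 25 49 (.thr 29 17 (.thr 28 19 (.thr 31 30 (.dbl 16 24 26))))))) (.rp 1 (.thr 22 52 (.thr 20 23 (.thr 25 49 (.thr 28 19 (.thr 16 24 (.thr 31 26 (.dbl 29 17 30))))))) .nd)))))))))))) .nd))))))))))))

theorem w341 : WinAt (137441050656, 9007199254774784) :=
  chF (K := []) kn c341 137441050656 9007199254774784 53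
    [] (by decide +kernel) (by decide +kernel)

end Pool.Agent.TTT.B43
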