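import Pool.Agent.TTT.B43

/-!
Certified forced wins in positions of the 4 x 4 x 4 board.
-/

set_option autoImplicit false
set_option maxRecDepth 1000000
set_option linter.all false

namespace Pool.Agent.TTT.B43

/-- A certificate. -/
noncomputable def c342 : Ct := (.str 4 (.nv (.thr 38 55 (.thr 36 39 (.thr 52 20 (.dbl 7 6 22)))) (.nv (.thr 7 6 (.thr 52 22 (.thr 38 55 (.dbl 36 20 39)))) (.rp 55 (.str 52 (.nv (.dbl 7 6 22) (.rp 22 (.str 1 (.nv (.thr 41 61 (.thr 33 45 (.thr 49 17 (.dbl 13 9 25)))) (.nv (.thr 13 9 (.thr 25 49 (.thr 61 41 (.dbl 29 17 45)))) (.nv (.thr 13 9 (.thr 41 61 (.thr 33 45 (.dbl 49 17 25)))) (.rp 61 (.thr 36 20 (.thr 6 7 (.thr 9 13 (.thr 12 3 (.thr 0 8 (.thr 63 42 (.thr 29 46 (.thr 25 17 (.dbl 38 39 51))))))))) (.rp 49 (.thr 20 36 (.thr 6 7 (.thr 9 13 (.thr 3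 12 (.thr 0 2 (.thr 61 41 (.thr 60 40 (.dbl 63 42 62)))))))) (.rp 45 (.thr 36 20 (.thr 38 39 (.thr 13 9 (.thr 25 49 (.thr 12 51 (.thr 15 14 (.dbl 48 24 26))))))) (.rp 41 (.thr 36 20 (.thr 38 39 (.thr 13 9 (.thr 25 49 (.thr 12 51 (.thr 15 14 (.dbl 48 24 26))))))) (.rp 25 (.thr 36 20 (.thr 38 39 (.thr 41 61 (.thr 45 33 (.thr 44 35 (.thr 47 46 (.dbl 32 40 42))))))) (.rp 17 (.thr 36 20 (.thr 38 39 (.thr 13 9 (.thr 25 49 (.thr 12 51 (.thr 15 14 (.dbl 48 24 26))))))) (.rp 13 (.thr 36 20 (.thr 38 39 (.thr 41 61 (.thr 45 33 (.thr 44 35 (.thr 47 46 (.dbl 32 40 42))))))) (.rp 9 (.thr 36 20 (.thr 38 39 (.thr 41 61 (.thr 45 33 (.thr 44 35 (.thr 47 46 (.dbl 32 40 42))))))) .nd)))))))))))) (.rp 7 (.thr 20 36 (.str 0 (.nv (.thr 60 40 (.thr 48 56 (.thr 15 26 (.thr 45 30 (.thr 41 33 (.dbl 22 3 23))))))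 (.nv (.thr 23 22 (.thr 12 8 (.thr 63 42 (.thr 3 43 (.thr 40 60 (.thr 9 6 (.dbl 1 2 13))))))) (.nv (.thr 12 8 (.thr 63 42 (.thr 29 46 (.thr 25 17 (.thr 13 49 (.thr 61 45 (.dbl 1 9 41))))))) (.nv (.thr 60 40 (.thr 63 42 (.thr 61 62 (.thr 41 1 (.dbl 22 3 23))))) (.rp 58 (.thr 60 40 (.thr 48 56 (.thr 15 26 (.thr 42 63 (.thr 45 30 (.thr 41 33 (.dbl 22 3 23))))))) (.rp 42 (.str 26 (.nv (.thr 23 22 (.thr 60 40 (.dbl 48 15 56))) (.nv (.thr 48 15 (.dbl 60 40 56)) (.rp 60 (.thr 12 8 (.thr 15 48 (.thr 13 14 (.thr 25 49 (.thr 17 29 (.dbl 51 34 38)))))) (.rp 56 (.thr 60 40 (.thr 15 48 (.thr 30 45 (.dbl 22 18 23)))) (.rp 48 (.thr 40 60 (.thr 8 12 (.thr 24 56 (.thr 25 27 (.thr 29 17 (.thr 13 49 (.thr 1 9 (.dbl 61 41 45)))))))) (.rp 40 (.thr 12 8 (.thr 15 48 (.thr 13 14 (.thr 25 49 (.thr 17 29 (.dbl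 51 34 38)))))) (.rp 23 (.str 39 (.nv (.thr 60 40 (.dbl 48 15 56)) (.nv (.thr 48 15 (.dbl 60 40 56)) (.rp 60 (.thr 15 48 (.thr 51 27 (.thr 17 34 (.thr 12 8 (.dbl 25 29 38))))) (.rp 56 (.thr 15 48 (.thr 51 27 (.thr 17 34 (.thr 12 8 (.dbl 25 29 38))))) (.rp 48 (.thr 40 60 (.thr 8 12 (.thr 24 56 (.thr 25 27 (.thr 13 49 (.thr 1 9 (.thr 29 17 (.dbl 61 41 45)))))))) (.rp 40 (.thr 15 48 (.thr 51 27 (.thr 17 34 (.thr 12 8 (.dbl 25 29 38))))) (.rp 15 (.thr 60 40 (.thr 56 48 (.thr 41 11 (.thr 3 22 (.dbl 1 2 61))))) .nd)))))))) (.rp 15 (.thr 60 40 (.thr 56 48 (.thr 41 11 (.thr 3 22 (.dbl 1 2 61))))) .nd))))))))) (.rp 26 (.thr 12 8 (.thr 60 40 (.thr 44 28 (.thr 42 63 (.thr 47 32 (.thr 45 46 (.thr 41 33 (.dbl 22 3 23)))))))) (.rp 23 (.str 39 (.nv (.thr 42 63 (.thr 47 32 (.thr 43 35 (.dbl 40 41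 60)))) (.nv (.thr 40 60 (.thr 42 63 (.thr 47 32 (.dbl 43 35 41)))) (.rp 63 (.thr 60 40 (.thr 48 56 (.thr 15 26 (.thr 45 30 (.thr 41 33 (.thr 1 61 (.dbl 3 2 22))))))) (.rp 60 (.thr 12 8 (.thr 63 42 (.thr 29 46 (.thr 25 17 (.thr 13 49 (.thr 61 45 (.dbl 1 9 41))))))) (.rp 59 (.thr 60 40 (.thr 48 56 (.thr 15 26 (.thr 45 30 (.thr 41 33 (.thr 1 61 (.dbl 3 2 22))))))) (.rp 58 (.thr 8 12 (.thr 60 40 (.thr 48 56 (.thr 15 26 (.thr 42 63 (.thr 51 27 (.thr 49 50 (.dbl 25 13 59)))))))) (.rp 51 (.thr 12 8 (.thr 60 40 (.thr 63 42 (.thr 61 62 (.thr 29 46 (.thr 13 45 (.dbl 25 17 49))))))) (.rp 48 (.thr 12 8 (.thr 60 40 (.thr 63 42 (.thr 61 62 (.thr 29 46 (.thr 13 45 (.dbl 25 17 49))))))) (.rp 47 (.thr 12 8 (.thr 60 40 (.thr 63 42 (.thr 61 62 (.thr 29 46 (.thr 45 13 (.dbl 41 1 33))))))) (.rp 43 (.thr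 12 8 (.thr 63 42 (.thr 29 46 (.thr 25 17 (.thr 13 49 (.thr 61 45 (.dbl 60 40 62))))))) (.rp 42 (.str 26 (.nv (.thr 60 40 (.dbl 48 15 56)) (.nv (.thr 48 15 (.dbl 60 40 56)) (.rp 60 (.thr 15 48 (.thr 51 27 (.thr 17 34 (.thr 12 8 (.dbl 25 29 38))))) (.rp 56 (.thr 15 48 (.thr 51 27 (.thr 17 34 (.thr 12 8 (.dbl 25 29 38))))) (.rp 48 (.thr 40 60 (.thr 8 12 (.thr 24 56 (.thr 25 27 (.thr 13 49 (.thr 1 9 (.thr 29 17 (.dbl 61 41 45)))))))) (.rp 40 (.thr 15 48 (.thr 51 27 (.thr 17 34 (.thr 12 8 (.dbl 25 29 38))))) (.rp 15 (.thr 60 40 (.thr 56 48 (.thr 41 11 (.thr 3 22 (.dbl 1 2 61))))) .nd)))))))) (.rp 41 (.thr 12 8 (.thr 63 42 (.thr 29 46 (.thr 25 17 (.thr 13 49 (.thr 61 45 (.dbl 60 40 62))))))) (.rp 40 (.thr 12 8 (.thr 63 42 (.thr 29 46 (.thr 25 17 (.thr 13 49 (.thr 61 45 (.dbl 1 9 41)))))))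 (.rp 35 (.thr 12 8 (.thr 60 40 (.thr 63 42 (.thr 61 62 (.thr 29 46 (.thr 13 45 (.dbl 25 17 49))))))) (.rp 32 (.thr 12 8 (.thr 63 42 (.thr 29 46 (.thr 25 17 (.thr 13 49 (.thr 61 45 (.dbl 60 40 62))))))) (.rp 3 (.thr 12 8 (.thr 60 40 (.thr 63 42 (.thr 61 62 (.thr 29 46 (.thr 13 45 (.dbl 25 17 49))))))) .nd))))))))))))))))) .nd)))))))))) (.rp 6 (.thr 20 36 (.dbl 22 7 23)) .nd))))) (.rp 52 (.thr 55 38 (.str 0 (.nv (.thr 6 7 (.thr 12 8 (.thr 9 3 (.thr 13 1 (.thr 25 49 (.thr 17 29 (.thr 51 34 (.dbl 63 42 59)))))))) (.nv (.thr 7 6 (.thr 23 39 (.thr 22 20 (.thr 63 42 (.thr 3 43 (.thr 41 60 (.dbl 1 2 61))))))) (.nv (.thr 42 63 (.thr 8 12 (.thr 25 59 (.thr 29 17 (.thr 13 49 (.thr 61 45 (.dbl 1 9 41))))))) (.rp 63 (.thr 6 7 (.thr 12 8 (.thr 9 3 (.thr 13 1 (.thr 15 14 (.thr 25 49 (.thr 17 29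 (.thr 51 34 (.thr 27 39 (.dbl 26 24 48)))))))))) (.rp 61 (.thr 6 7 (.thr 12 8 (.thr 9 3 (.thr 13 1 (.thr 25 49 (.thr 57 41 (.thr 63 42 (.dbl 29 17 46)))))))) (.rp 46 (.thr 7 6 (.thr 23 39 (.thr 22 20 (.thr 42 63 (.thr 2 62 (.thr 3 1 (.thr 60 41 (.thr 15 11 (.thr 30 45 (.dbl 26 18 48)))))))))) (.rp 42 (.thr 6 7 (.thr 12 8 (.thr 9 3 (.thr 13 1 (.thr 15 14 (.thr 25 49 (.thr 17 29 (.thr 26 48 (.thr 27 24 (.dbl 51 34 39)))))))))) (.rp 1 (.thr 7 6 (.thr 23 39 (.thr 22 20 (.thr 63 42 (.thr 3 43 (.thr 41 60 (.thr 33 45 (.thr 48 18 (.dbl 15 11 26))))))))) .nd)))))))))) (.rp 39 (.str 1 (.nv (.thr 6 7 (.thr 9 13 (.thr 3 12 (.thr 41 61 (.thr 22 60 (.dbl 38 54 55)))))) (.nv (.thr 13 9 (.thr 25 49 (.thr 61 41 (.dbl 29 17 45)))) (.rp 61 (.thr 6 7 (.thr 9 13 (.thr 3 12 (.thr 0 2 (.thr 63 42 (.thr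 38 55 (.thr 23 43 (.dbl 22 20 54)))))))) (.rp 49 (.thr 6 7 (.thr 9 13 (.thr 3 12 (.thr 41 61 (.thr 57 25 (.thr 22 60 (.dbl 38 54 55))))))) (.rp 45 (.thr 7 6 (.thr 22 52 (.thr 23 20 (.thr 41 61 (.thr 3 60 (.thr 63 43 (.dbl 0 2 42))))))) (.rp 41 (.thr 38 55 (.thr 13 9 (.thr 25 49 (.thr 29 17 (.thr 12 51 (.thr 63 46 (.dbl 0 8 42))))))) (.rp 29 (.thr 13 9 (.thr 49 25 (.thr 33 17 (.dbl 41 45 61)))) (.rp 13 (.thr 7 6 (.thr 22 52 (.thr 23 20 (.thr 41 61 (.thr 3 60 (.thr 63 43 (.dbl 0 2 42))))))) (.rp 9 (.thr 7 6 (.thr 22 52 (.thr 23 20 (.thr 41 61 (.thr 3 60 (.thr 63 43 (.dbl 0 2 42))))))) .nd)))))))))) (.rp 38 (.str 0 (.nv (.thr 6 7 (.thr 12 8 (.thr 9 3 (.thr 13 1 (.thr 25 49 (.thr 63 42 (.dbl 29 17 46))))))) (.nv (.thr 7 6 (.thr 22 52 (.thr 20 23 (.thr 60 40 (.thr 3 41 (.thr 15 11 (.thr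 30 45 (.dbl 26 18 48)))))))) (.nv (.thr 8 12 (.thr 42 63 (.thr 25 59 (.thr 13 49 (.thr 29 17 (.thr 61 45 (.dbl 1 9 41))))))) (.nv (.thr 7 6 (.thr 22 52 (.thr 20 23 (.thr 60 40 (.thr 3 41 (.thr 2 1 (.dbl 42 62 63))))))) (.rp 42 (.thr 7 6 (.thr 22 52 (.thr 20 23 (.thr 60 40 (.thr 41 3 (.thr 1 61 (.thr 33 45 (.thr 49 17 (.dbl 13 9 25))))))))) .nd)))))) (.rp 36 (.thr 7 6 (.thr 22 52 (.thr 23 20 (.dbl 55 38 39)))) (.rp 22 (.str 1 (.nv (.thr 6 7 (.thr 9 13 (.thr 12 3 (.thr 38 55 (.thr 25 51 (.dbl 41 57 61)))))) (.nv (.thr 13 9 (.thr 41 61 (.thr 33 45 (.dbl 49 17 25)))) (.rp 61 (.thr 6 7 (.thr 38 55 (.thr 9 13 (.thr 12 3 (.thr 51 25 (.thr 0 8 (.thr 34 17 (.dbl 42 46 63)))))))) (.rp 57 (.thr 13 9 (.thr 49 25 (.thr 41 61 (.dbl 33 17 45)))) (.rp 41 (.thr 38 55 (.thr 36 39 (.thr 13 9 (.thr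 25 49 (.thr 12 51 (.thr 15 14 (.dbl 48 24 26))))))) (.rp 25 (.thr 38 55 (.thr 36 39 (.thr 41 61 (.thr 45 33 (.thr 44 35 (.thr 47 46 (.dbl 32 40 42))))))) (.rp 13 (.thr 38 55 (.thr 36 39 (.thr 41 61 (.thr 45 33 (.thr 44 35 (.thr 47 46 (.dbl 32 40 42))))))) (.rp 11 (.thr 41 61 (.thr 33 45 (.thr 49 17 (.dbl 13 9 25)))) (.rp 9 (.thr 38 55 (.thr 36 39 (.thr 41 61 (.thr 45 33 (.thr 44 35 (.thr 47 46 (.dbl 32 40 42))))))) .nd)))))))))) (.rp 20 (.thr 38 55 (.thr 6 7 (.thr 39 36 (.thr 54 22 (.str 51 (.nv (.thr 12 25 (.thr 0 8 (.thr 34 17 (.dbl 42 46 63)))) (.nv (.thr 15 27 (.thr 25 12 (.thr 49 13 (.dbl 48 26 50)))) (.rp 28 (.str 24 (.nv (.thr 27 15 (.dbl 25 12 26)) (.nv (.thr 25 12 (.thr 13 49 (.thr 9 1 (.dbl 57 41 60)))) (.nv (.thr 25 12 (.dbl 27 15 26)) (.rp 25 (.str 19 (.nv (.thr 15 27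 (.thr 26 48 (.thr 14 50 (.thr 12 13 (.thr 0 8 (.thr 34 17 (.dbl 42 46 63))))))) (.nv (.thr 15 27 (.thr 35 3 (.thr 41 44 (.thr 60 57 (.dbl 45 30 33))))) (.nv (.thr 3 35 (.thr 12 9 (.thr 15 27 (.thr 14 13 (.dbl 26 48 50))))) (.rp 27 (.thr 35 3 (.thr 41 44 (.thr 33 45 (.thr 32 34 (.dbl 47 42 43))))) (.rp 15 (.thr 3 35 (.str 0 (.nv (.thr 34 17 (.dbl 42 46 63)) (.nv (.dbl 12 8 9) .nd)))) .nd)))))) (.rp 12 (.thr 27 15 (.thr 25 26 (.thr 13 49 (.thr 9 1 (.dbl 57 41 60))))) .nd)))))) (.rp 25 (.thr 15 27 (.thr 26 48 (.thr 14 50 (.thr 12 13 (.thr 0 8 (.thr 34 17 (.dbl 42 46 63))))))) (.rp 24 (.str 28 (.nv (.thr 60 57 (.dbl 12 25 44)) (.nv (.thr 12 25 (.thr 0 8 (.thr 34 17 (.dbl 42 46 63)))) (.nv (.thr 12 25 (.dbl 60 44 57)) (.rp 25 (.thr 60 57 (.thr 12 44 (.thr 15 27 (.thr 26 48 (.dbl 14 13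 50))))) (.rp 12 (.str 48 (.nv (.dbl 15 26 27) (.rp 27 (.thr 50 49 (.dbl 26 14 15)) (.rp 26 (.thr 49 50 (.thr 13 25 (.thr 27 15 (.thr 1 9 (.thr 33 17 (.dbl 41 45 61)))))) (.rp 15 (.thr 49 50 (.thr 13 25 (.thr 1 9 (.thr 33 17 (.dbl 41 45 61))))) .nd))))) .nd)))))) (.rp 12 (.thr 60 57 (.thr 15 27 (.thr 45 30 (.thr 41 33 (.thr 35 44 (.thr 47 43 (.thr 63 31 (.dbl 61 1 62)))))))) .nd))))))))))) (.rp 7 (.str 1 (.nv (.thr 41 61 (.thr 33 45 (.thr 49 17 (.dbl 13 9 25)))) (.nv (.thr 13 9 (.thr 49 25 (.thr 41 61 (.dbl 33 17 45)))) (.rp 61 (.thr 38 55 (.thr 39 36 (.thr 13 9 (.thr 49 25 (.thr 33 17 (.thr 41 45 (.thr 35 44 (.thr 32 34 (.dbl 47 42 43))))))))) (.rp 49 (.thr 38 55 (.thr 13 9 (.thr 61 41 (.thr 29 45 (.thr 25 17 (.thr 12 51 (.thr 63 46 (.dbl 0 8 42)))))))) (.rp 45 (.thr 38 55 (.thr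 13 9 (.thr 25 49 (.thr 29 17 (.thr 12 51 (.thr 63 46 (.dbl 0 8 42))))))) (.rp 41 (.thr 38 55 (.thr 13 9 (.thr 25 49 (.thr 29 17 (.thr 12 51 (.thr 63 46 (.dbl 0 8 42))))))) (.rp 33 (.thr 13 9 (.thr 25 49 (.thr 29 17 (.dbl 61 41 45)))) (.rp 25 (.thr 38 55 (.thr 39 36 (.thr 41 61 (.thr 33 45 (.thr 35 44 (.thr 32 34 (.dbl 47 42 43))))))) (.rp 17 (.thr 38 55 (.thr 39 36 (.thr 41 61 (.thr 33 45 (.thr 35 44 (.thr 32 34 (.dbl 47 42 43))))))) (.rp 13 (.thr 38 55 (.thr 39 36 (.thr 41 61 (.thr 35 44 (.thr 47 43 (.thr 32 42 (.dbl 33 34 45))))))) (.rp 9 (.thr 38 55 (.thr 39 36 (.thr 41 61 (.thr 33 45 (.thr 35 44 (.thr 32 34 (.dbl 47 42 43))))))) .nd)))))))))))) (.rp 6 (.str 1 (.nv (.thr 41 61 (.thr 33 45 (.thr 49 17 (.dbl 13 9 25)))) (.nv (.thr 13 9 (.thr 49 25 (.thr 41 61 (.dbl 33 17 45))))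 (.rp 61 (.thr 38 55 (.thr 39 36 (.thr 13 9 (.thr 49 25 (.thr 33 17 (.thr 41 45 (.thr 35 44 (.thr 32 34 (.dbl 47 42 43))))))))) (.rp 49 (.thr 38 55 (.thr 13 9 (.thr 61 41 (.thr 29 45 (.thr 25 17 (.thr 12 51 (.thr 63 46 (.dbl 0 8 42)))))))) (.rp 45 (.thr 38 55 (.thr 36 39 (.thr 13 9 (.thr 25 49 (.thr 12 51 (.thr 48 24 (.dbl 15 14 26))))))) (.rp 41 (.thr 38 55 (.thr 36 39 (.thr 13 9 (.thr 25 49 (.thr 12 51 (.thr 48 24 (.dbl 15 14 26))))))) (.rp 33 (.thr 13 9 (.thr 25 49 (.thr 29 17 (.dbl 61 41 45)))) (.rp 25 (.thr 38 55 (.thr 36 39 (.thr 41 61 (.thr 45 33 (.thr 44 35 (.thr 47 46 (.dbl 32 40 42))))))) (.rp 17 (.thr 38 55 (.thr 36 39 (.thr 13 9 (.thr 25 49 (.thr 12 51 (.thr 48 24 (.dbl 15 14 26))))))) (.rp 14 (.str 2 (.nv (.thr 0 3 (.thr 38 55 (.thr 36 39 (.thr 42 63 (.thr 52 20 (.dbl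 22 7 62)))))) (.nv (.thr 41 61 (.thr 33 45 (.thr 49 17 (.dbl 13 9 25)))) (.rp 9 (.thr 3 0 (.thr 41 61 (.thr 22 60 (.thr 52 7 (.dbl 20 23 36))))) .nd)))) (.rp 13 (.thr 38 55 (.thr 36 39 (.thr 41 61 (.thr 45 33 (.thr 44 35 (.thr 47 46 (.dbl 32 40 42))))))) (.rp 9 (.thr 38 55 (.thr 36 39 (.thr 41 61 (.thr 45 33 (.thr 44 35 (.thr 47 46 (.dbl 32 40 42))))))) (.rp 2 (.str 14 (.nv (.thr 13 9 (.thr 38 55 (.thr 26 50 (.dbl 15 12 48)))) (.nv (.thr 41 61 (.thr 33 45 (.thr 49 17 (.dbl 13 9 25)))) (.nv (.thr 13 9 (.thr 12 15 (.thr 25 49 (.dbl 38 51 55)))) (.rp 13 (.thr 41 61 (.thr 45 33 (.thr 38 55 (.thr 36 39 (.thr 44 35 (.thr 32 40 (.dbl 47 42 46))))))) (.rp 9 (.thr 38 55 (.thr 26 50 (.thr 15 48 (.thr 12 13 (.thr 39 36 (.dbl 51 25 27)))))) .nd)))))) .nd)))))))))))))) .nd))))))))))))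

theorem w342 : WinAt (137441050656, 9007199254807552) :=
  chF (K := []) kn c342 137441050656 9007199254807552 53
    [] (by decide +kernel) (by decide +kernel)

/-- A certificate. -/
noncomputable def c343 : Ct := (.str 4 (.nv (.thr 38 55 (.thr 36 39 (.thr 52 20 (.dbl 7 6 22)))) (.nv (.thr 7 6 (.thr 52 22 (.thr 38 55 (.dbl 36 20 39)))) (.rp 55 (.str 52 (.nv (.dbl 7 6 22) (.rp 22 (.str 0 (.nv (.thr 20 36 (.thr 42 63 (.thr 32 47 (.thr 48 16 (.dbl 60 40 56))))) (.nv (.thr 12 8 (.thr 36 20 (.thr 42 63 (.thr 48 24 (.dbl 32 16 47))))) (.nv (.thr 6 7 (.thr 12 8 (.thr 9 3 (.thr 13 1 (.thr 15 14 (.thr 36 20 (.dbl 48 24 26))))))) (.nv (.thr 20 36 (.thr 60 40 (.thr 48 56 (.thr 26 15 (.dbl 16 31 32))))) (.rp 48 (.thr 20 36 (.thr 6 7 (.thr 12 8 (.thr 9 3 (.thr 1 13 (.thr 61 41 (.thr 60 40 (.dbl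 63 42 62)))))))) (.rp 36 (.thr 6 7 (.thr 12 8 (.thr 9 3 (.thr 13 1 (.thr 15 14 (.thr 48 26 (.thr 32 16 (.dbl 42 47 63)))))))) (.rp 20 (.thr 6 7 (.thr 12 8 (.thr 9 3 (.thr 13 1 (.thr 15 14 (.thr 48 26 (.thr 32 16 (.dbl 42 47 63)))))))) .nd)))))))) (.rp 7 (.thr 20 36 (.thr 23 22 (.str 0 (.nv (.thr 60 40 (.thr 48 56 (.thr 26 15 (.dbl 16 31 32)))) (.nv (.thr 12 8 (.thr 63 42 (.thr 3 43 (.thr 9 6 (.dbl 1 2 13))))) (.nv (.thr 60 40 (.thr 48 56 (.thr 32 16 (.dbl 42 47 63)))) (.rp 40 (.str 16 (.nv (.thr 32 48 (.dbl 42 47 63)) (.nv (.thr 26 31 (.dbl 48 15 32)) (.rp 48 (.thr 24 28 (.thr 26 31 (.thr 25 27 (.thr 8 12 (.dbl 42 59 63))))) (.rp 32 (.str 44 (.nv (.thr 28 24 (.dbl 12 8 60)) (.rp 60 (.thr 24 28 (.thr 8 12 (.thr 26 31 (.thr 25 27 (.dbl 42 59 63))))) (.rp 56 (.thr 24 28 (.thr 8 12 (.thr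 26 31 (.thr 25 27 (.dbl 42 59 63))))) (.rp 28 (.thr 12 8 (.thr 63 42 (.thr 46 29 (.thr 47 45 (.dbl 31 15 26))))) (.rp 24 (.thr 26 31 (.thr 48 15 (.thr 56 60 (.thr 63 42 (.thr 3 43 (.thr 41 11 (.dbl 1 2 61))))))) (.rp 12 (.thr 24 28 (.thr 26 31 (.thr 25 27 (.thr 13 49 (.thr 1 9 (.thr 3 2 (.dbl 63 42 43))))))) (.rp 8 (.thr 24 28 (.thr 26 31 (.thr 48 15 (.thr 56 60 (.thr 25 27 (.thr 13 49 (.thr 1 9 (.thr 11 41 (.thr 3 2 (.dbl 63 42 43)))))))))) .nd)))))))) .nd))))) (.rp 8 (.thr 60 40 (.thr 42 63 (.thr 32 47 (.dbl 48 16 56)))) .nd)))))))) (.rp 6 (.thr 20 36 (.dbl 22 7 23)) .nd))))) (.rp 52 (.thr 55 38 (.str 15 (.nv (.thr 7 6 (.thr 3 11 (.thr 23 39 (.thr 63 43 (.thr 42 0 (.dbl 47 31 32)))))) (.nv (.thr 6 7 (.thr 26 48 (.thr 31 16 (.thr 63 47 (.thr 0 42 (.thr 12 8 (.thr 9 3 (.dbl 13 1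 14)))))))) (.nv (.thr 7 6 (.thr 3 11 (.thr 23 39 (.thr 22 20 (.thr 41 60 (.thr 33 45 (.dbl 48 18 26))))))) (.nv (.thr 7 6 (.thr 39 23 (.thr 51 27 (.thr 63 59 (.thr 31 47 (.dbl 26 16 48)))))) (.rp 14 (.thr 26 48 (.thr 31 16 (.thr 63 47 (.thr 51 59 (.thr 39 27 (.dbl 7 6 23)))))) (.rp 7 (.thr 26 48 (.thr 31 16 (.thr 63 47 (.thr 51 59 (.thr 27 39 (.thr 0 42 (.thr 12 8 (.thr 25 24 (.dbl 13 14 49))))))))) (.rp 6 (.thr 26 48 (.thr 31 16 (.thr 63 47 (.thr 51 59 (.thr 27 39 (.thr 0 42 (.thr 12 8 (.thr 25 24 (.dbl 13 14 49))))))))) .nd))))))))) (.rp 39 (.str 0 (.nv (.thr 7 6 (.thr 12 8 (.thr 22 52 (.thr 20 23 (.thr 60 40 (.thr 28 44 (.thr 25 19 (.dbl 38 51 55)))))))) (.nv (.thr 6 7 (.thr 12 8 (.thr 9 3 (.thr 13 1 (.thr 15 14 (.thr 26 48 (.thr 63 42 (.dbl 31 16 47)))))))) (.nv (.thr 12 8 (.thr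 42 63 (.thr 32 47 (.thr 48 16 (.thr 36 24 (.thr 40 44 (.dbl 20 52 60))))))) (.nv (.thr 7 6 (.thr 22 52 (.thr 20 23 (.thr 60 40 (.thr 3 41 (.thr 42 63 (.dbl 2 1 62))))))) .nd))))) (.rp 38 (.str 0 (.nv (.thr 12 8 (.thr 42 63 (.thr 32 47 (.thr 48 16 (.thr 36 24 (.thr 20 52 (.dbl 40 44 60))))))) (.nv (.thr 6 7 (.thr 12 8 (.thr 9 3 (.thr 13 1 (.thr 15 14 (.thr 26 48 (.thr 63 42 (.dbl 31 16 47)))))))) (.nv (.thr 7 6 (.thr 22 52 (.thr 20 23 (.thr 42 63 (.thr 2 62 (.thr 60 40 (.dbl 3 1 41))))))) (.rp 63 (.thr 7 6 (.thr 22 52 (.thr 20 23 (.thr 60 40 (.thr 3 41 (.thr 15 11 (.thr 30 45 (.dbl 26 18 48)))))))) (.rp 48 (.thr 7 6 (.thr 22 52 (.thr 20 23 (.thr 60 40 (.thr 3 41 (.thr 2 1 (.dbl 42 62 63))))))) (.rp 42 (.thr 7 6 (.thr 22 52 (.thr 20 23 (.thr 12 8 (.thr 60 40 (.thr 28 44 (.thr 25 19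 (.thr 13 49 (.thr 41 3 (.dbl 1 9 61)))))))))) .nd))))))) (.rp 36 (.thr 7 6 (.thr 22 52 (.thr 23 20 (.dbl 55 38 39)))) (.rp 22 (.str 1 (.nv (.thr 13 9 (.thr 25 49 (.thr 38 55 (.thr 12 51 (.thr 15 14 (.thr 48 26 (.dbl 36 24 39))))))) (.nv (.thr 6 7 (.thr 38 55 (.thr 9 13 (.thr 12 3 (.thr 41 61 (.dbl 25 51 57)))))) (.rp 61 (.thr 6 7 (.thr 38 55 (.thr 9 13 (.thr 12 3 (.thr 0 8 (.thr 42 63 (.thr 32 47 (.thr 48 16 (.dbl 36 24 39))))))))) (.rp 57 (.thr 38 55 (.thr 36 39 (.thr 13 9 (.thr 25 49 (.thr 61 41 (.thr 12 51 (.thr 15 14 (.dbl 48 24 26)))))))) (.rp 55 (.thr 6 7 (.thr 9 13 (.thr 3 12 (.thr 0 2 (.thr 41 61 (.thr 42 63 (.thr 32 47 (.thr 48 16 (.dbl 33 18 45))))))))) (.rp 54 (.thr 6 7 (.thr 9 13 (.thr 3 12 (.thr 0 2 (.thr 41 61 (.thr 42 63 (.thr 32 47 (.thr 48 16 (.dbl 33 18 45)))))))))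 (.rp 52 (.thr 6 7 (.thr 9 13 (.thr 3 12 (.thr 0 2 (.thr 41 61 (.thr 42 63 (.thr 32 47 (.thr 48 16 (.dbl 33 18 45))))))))) (.rp 51 (.thr 38 55 (.thr 36 39 (.thr 41 61 (.thr 45 33 (.thr 44 35 (.thr 47 46 (.dbl 32 40 42))))))) (.rp 49 (.thr 6 7 (.thr 38 55 (.thr 9 13 (.thr 12 3 (.thr 25 51 (.dbl 41 57 61)))))) (.rp 39 (.thr 38 55 (.thr 13 9 (.thr 25 49 (.thr 12 51 (.thr 61 41 (.thr 29 45 (.thr 63 46 (.dbl 0 8 42)))))))) (.rp 38 (.thr 6 7 (.thr 9 13 (.thr 3 12 (.thr 0 2 (.thr 41 61 (.thr 42 63 (.thr 32 47 (.thr 48 16 (.dbl 33 18 45))))))))) (.rp 25 (.thr 38 55 (.thr 36 39 (.thr 41 61 (.thr 45 33 (.thr 44 35 (.thr 47 46 (.dbl 32 40 42))))))) (.rp 15 (.thr 38 55 (.thr 36 39 (.thr 41 61 (.thr 45 33 (.thr 44 35 (.thr 47 46 (.dbl 32 40 42))))))) (.rp 13 (.thr 38 55 (.thr 36 39 (.thr 41 61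 (.thr 45 33 (.thr 44 35 (.thr 47 46 (.dbl 32 40 42))))))) (.rp 12 (.thr 38 55 (.thr 36 39 (.thr 41 61 (.thr 45 33 (.thr 44 35 (.thr 47 46 (.dbl 32 40 42))))))) (.rp 11 (.thr 38 55 (.thr 36 39 (.thr 41 61 (.thr 45 33 (.thr 44 35 (.thr 47 46 (.dbl 32 40 42))))))) (.rp 9 (.thr 38 55 (.thr 36 39 (.thr 41 61 (.thr 45 33 (.thr 44 35 (.thr 47 46 (.dbl 32 40 42))))))) (.rp 6 (.thr 38 55 (.thr 36 39 (.thr 13 9 (.thr 25 49 (.thr 12 51 (.thr 48 24 (.dbl 15 14 26))))))) .nd))))))))))))))))))) (.rp 20 (.str 1 (.nv (.thr 6 7 (.thr 9 13 (.thr 3 12 (.thr 41 61 (.thr 22 60 (.dbl 38 54 55)))))) (.nv (.thr 6 7 (.thr 9 13 (.thr 12 3 (.thr 38 55 (.thr 39 36 (.thr 25 51 (.dbl 41 57 61))))))) (.nv (.thr 6 7 (.thr 38 55 (.thr 9 13 (.thr 3 12 (.thr 41 61 (.dbl 22 54 60)))))) (.rp 61 (.thr 6 7 (.thr 38 55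 (.thr 9 13 (.thr 12 3 (.thr 0 8 (.thr 42 63 (.thr 32 47 (.thr 48 16 (.dbl 36 24 39))))))))) (.rp 57 (.thr 38 55 (.thr 36 39 (.thr 13 9 (.thr 25 49 (.thr 61 41 (.thr 12 51 (.thr 15 14 (.dbl 48 24 26)))))))) (.rp 55 (.thr 6 7 (.thr 9 13 (.thr 3 12 (.thr 0 2 (.thr 41 61 (.thr 42 63 (.thr 32 47 (.thr 48 16 (.dbl 33 18 45))))))))) (.rp 54 (.thr 7 6 (.thr 22 52 (.thr 55 38 (.thr 23 39 (.thr 41 61 (.thr 3 60 (.thr 63 43 (.dbl 0 2 42)))))))) (.rp 41 (.thr 38 55 (.thr 36 39 (.thr 13 9 (.thr 25 49 (.thr 12 51 (.thr 15 14 (.dbl 48 24 26))))))) (.rp 38 (.thr 7 6 (.thr 22 52 (.thr 41 61 (.thr 33 45 (.thr 3 60 (.thr 48 18 (.dbl 15 11 26))))))) (.rp 15 (.thr 38 55 (.thr 36 39 (.thr 41 61 (.thr 45 33 (.thr 44 35 (.thr 47 46 (.dbl 32 40 42))))))) (.rp 13 (.thr 7 6 (.thr 22 52 (.thr 41 61 (.thr 3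 60 (.thr 15 11 (.thr 48 26 (.dbl 33 18 45))))))) (.rp 12 (.thr 7 6 (.thr 22 52 (.thr 41 61 (.thr 33 45 (.thr 3 60 (.thr 48 18 (.dbl 15 11 26))))))) (.rp 9 (.thr 7 6 (.thr 22 52 (.thr 41 61 (.thr 33 45 (.thr 3 60 (.thr 48 18 (.dbl 15 11 26))))))) (.rp 7 (.thr 38 55 (.thr 39 36 (.thr 41 61 (.thr 33 45 (.thr 35 44 (.thr 32 34 (.dbl 47 42 43))))))) (.rp 6 (.thr 38 55 (.thr 36 39 (.thr 13 9 (.thr 25 49 (.thr 12 51 (.thr 48 24 (.dbl 15 14 26))))))) (.rp 3 (.thr 38 55 (.thr 36 39 (.thr 13 9 (.thr 25 49 (.thr 12 51 (.thr 15 14 (.dbl 48 24 26))))))) .nd))))))))))))))))) (.rp 7 (.str 12 (.nv (.thr 0 8 (.thr 38 55 (.thr 25 51 (.thr 13 49 (.thr 63 42 (.thr 29 46 (.thr 61 45 (.dbl 1 9 41)))))))) (.nv (.thr 0 8 (.thr 42 63 (.thr 32 47 (.thr 48 16 (.thr 36 24 (.thr 40 44 (.dbl 20 52 60))))))) (.nv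 (.thr 38 55 (.thr 39 36 (.thr 51 25 (.thr 15 27 (.thr 14 13 (.dbl 26 48 50)))))) (.rp 52 (.thr 0 8 (.thr 42 63 (.thr 32 47 (.thr 48 16 (.thr 36 24 (.dbl 38 39 55)))))) (.rp 48 (.thr 38 55 (.thr 39 36 (.thr 0 8 (.thr 51 25 (.thr 15 27 (.thr 14 13 (.thr 26 50 (.thr 31 16 (.dbl 63 42 47))))))))) .nd)))))) (.rp 6 (.thr 38 55 (.thr 36 39 (.thr 52 20 (.thr 7 22 (.str 42 (.nv (.thr 0 63 (.thr 12 8 (.thr 48 24 (.thr 16 32 (.dbl 26 15 31))))) (.nv (.thr 34 46 (.thr 32 47 (.thr 35 33 (.dbl 44 40 41)))) (.rp 40 (.thr 0 63 (.thr 12 8 (.thr 32 47 (.dbl 48 16 24)))) (.rp 32 (.thr 0 63 (.thr 12 8 (.thr 48 24 (.thr 26 15 (.thr 51 25 (.dbl 50 14 49)))))) (.rp 14 (.str 2 (.nv (.thr 34 46 (.thr 32 47 (.thr 35 33 (.dbl 44 40 41)))) (.nv (.thr 0 63 (.thr 12 8 (.thr 48 24 (.thr 15 26 (.dbl 3 1 11)))))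 (.nv (.thr 32 47 (.thr 44 40 (.thr 35 41 (.dbl 34 33 46)))) (.rp 40 (.thr 0 63 (.thr 32 47 (.thr 48 16 (.dbl 12 8 24)))) .nd))))) (.rp 2 (.str 14 (.nv (.thr 0 63 (.thr 12 8 (.thr 15 13 (.dbl 26 48 50)))) (.nv (.thr 34 46 (.thr 32 47 (.thr 35 33 (.dbl 44 40 41)))) .nd))) .nd))))))))))) .nd))))))))))))

theorem w343 : WinAt (137441050656, 9007199254873088) :=
  chF (K := []) kn c343 137441050656 9007199254873088 53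
    [] (by decide +kernel) (by decide +kernel)

/-- A certificate. -/
noncomputable def c344 : Ct := (.str 4 (.nv (.thr 38 55 (.thr 36 39 (.thr 52 20 (.dbl 7 6 22)))) (.nv (.thr 7 6 (.thr 55 38 (.thr 22 52 (.dbl 23 20 39)))) (.rp 55 (.str 52 (.nv (.dbl 7 6 22) (.rp 22 (.str 26 (.nv (.thr 20 36 (.thr 48 15 (.thr 60 56 (.thr 0 40 (.dbl 16 31 32))))) (.nv (.thr 16 31 (.thr 48 15 (.thr 0 32 (.thr 12 8 (.dbl 36 20 24))))) (.nv (.thr 20 36 (.thr 16 31 (.thr 48 15 (.thr 60 56 (.dbl 0 32 40))))) (.rp 48 (.thr 20 36 (.thr 16 31 (.thr 24 28 (.thr 25 27 (.thr 29 17 (.thr 13 49 (.thr 1 9 (.dbl 61 41 45)))))))) (.rp 36 (.thr 48 15 (.thr 56 60 (.thr 41 11 (.thr 16 31 (.thr 0 32 (.thr 8 12 (.thr 40 24 (.dbl 42 43 63)))))))) (.rp 32 (.thr 36 20 (.thr 48 15 (.thr 12 24 (.thr 38 39 (.thr 50 14 (.dbl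 51 25 49)))))) (.rp 31 (.thr 20 36 (.thr 48 15 (.thr 60 56 (.thr 0 40 (.thr 32 16 (.dbl 42 47 63)))))) (.rp 20 (.thr 48 15 (.thr 56 60 (.thr 41 11 (.thr 16 31 (.thr 0 32 (.thr 8 12 (.thr 40 24 (.dbl 42 43 63)))))))) (.rp 16 (.thr 36 20 (.thr 48 15 (.thr 38 39 (.thr 50 14 (.thr 51 49 (.dbl 12 24 25)))))) (.rp 15 (.thr 20 36 (.thr 16 31 (.thr 24 28 (.thr 25 27 (.thr 29 17 (.thr 13 49 (.thr 1 9 (.dbl 61 41 45)))))))) (.rp 0 (.thr 36 20 (.thr 48 15 (.thr 12 24 (.thr 38 39 (.thr 50 14 (.dbl 51 25 49)))))) .nd)))))))))))) (.rp 7 (.thr 20 36 (.thr 23 22 (.str 26 (.nv (.thr 48 15 (.thr 60 56 (.thr 0 40 (.dbl 16 31 32)))) (.nv (.thr 48 15 (.thr 60 56 (.thr 16 31 (.dbl 0 32 40)))) (.rp 60 (.thr 16 31 (.thr 24 28 (.thr 25 27 (.thr 13 49 (.thr 29 17 (.thr 61 45 (.dbl 1 9 41))))))) (.rp 56 (.thr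 48 15 (.thr 16 31 (.thr 24 28 (.thr 25 27 (.thr 0 32 (.thr 8 12 (.dbl 42 59 63))))))) (.rp 48 (.thr 16 31 (.thr 24 28 (.thr 25 27 (.thr 13 49 (.thr 29 17 (.thr 61 45 (.dbl 1 9 41))))))) (.rp 40 (.thr 16 31 (.thr 24 28 (.thr 25 27 (.thr 13 49 (.thr 29 17 (.thr 61 45 (.dbl 1 9 41))))))) (.rp 32 (.thr 16 31 (.thr 24 28 (.thr 25 27 (.thr 13 49 (.thr 29 17 (.thr 61 45 (.dbl 1 9 41))))))) (.rp 31 (.thr 48 15 (.thr 60 56 (.thr 0 40 (.thr 32 16 (.dbl 42 47 63))))) (.rp 16 (.str 25 (.nv (.thr 13 49 (.thr 27 24 (.thr 19 31 (.thr 29 17 (.thr 61 45 (.dbl 1 9 41)))))) (.nv (.thr 48 15 (.thr 60 56 (.thr 0 40 (.thr 42 63 (.dbl 8 12 59))))) (.nv (.thr 13 49 (.thr 1 9 (.thr 61 41 (.dbl 29 17 45)))) (.rp 19 (.thr 17 29 (.thr 27 24 (.thr 13 49 (.thr 15 48 (.thr 12 14 (.dbl 51 38 39)))))) (.rp 17 (.str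 19 (.nv (.dbl 27 24 31) (.rp 31 (.thr 27 24 (.thr 13 49 (.thr 15 48 (.thr 12 14 (.dbl 51 38 39))))) (.rp 27 (.thr 13 49 (.thr 1 9 (.thr 48 15 (.thr 56 60 (.dbl 41 11 61))))) (.rp 24 (.thr 13 49 (.thr 1 9 (.thr 48 15 (.thr 56 60 (.dbl 41 11 61))))) .nd))))) .nd)))))) (.rp 15 (.thr 16 31 (.thr 24 28 (.thr 25 27 (.thr 13 49 (.thr 29 17 (.thr 61 45 (.dbl 1 9 41))))))) (.rp 11 (.thr 16 31 (.thr 24 28 (.thr 25 27 (.thr 13 49 (.thr 29 17 (.thr 61 45 (.dbl 1 9 41))))))) (.rp 3 (.thr 16 31 (.thr 24 28 (.thr 25 27 (.thr 13 49 (.thr 29 17 (.thr 61 45 (.dbl 1 9 41))))))) (.rp 0 (.thr 16 31 (.thr 24 28 (.thr 25 27 (.thr 13 49 (.thr 29 17 (.thr 61 45 (.dbl 1 9 41))))))) .nd)))))))))))))))) (.rp 6 (.thr 20 36 (.dbl 22 7 23)) .nd))))) (.rp 52 (.thr 55 38 (.str 63 (.nv (.thr 7 6 (.thr 23 39 (.thr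 3 43 (.thr 15 11 (.thr 26 48 (.dbl 31 16 47)))))) (.nv (.thr 7 6 (.thr 23 39 (.thr 22 20 (.thr 3 43 (.thr 60 41 (.thr 42 0 (.dbl 62 2 61))))))) (.nv (.thr 0 42 (.thr 6 7 (.thr 12 8 (.thr 9 3 (.thr 13 1 (.thr 25 49 (.dbl 29 17 46))))))) (.nv (.thr 42 0 (.thr 47 32 (.thr 15 31 (.thr 51 59 (.thr 39 27 (.dbl 7 6 23)))))) (.rp 7 (.thr 59 51 (.thr 42 0 (.thr 47 32 (.thr 15 31 (.thr 25 8 (.thr 13 49 (.thr 12 14 (.dbl 29 17 46)))))))) (.rp 6 (.thr 51 59 (.thr 42 0 (.thr 47 32 (.thr 15 31 (.thr 39 27 (.thr 23 7 (.dbl 43 3 35))))))) .nd)))))))) (.rp 39 (.str 1 (.nv (.thr 6 7 (.thr 9 13 (.thr 3 12 (.thr 41 61 (.thr 22 60 (.dbl 38 54 55)))))) (.nv (.thr 13 9 (.thr 25 49 (.thr 61 41 (.dbl 29 17 45)))) (.rp 61 (.thr 6 7 (.thr 9 13 (.thr 3 12 (.thr 0 2 (.thr 63 42 (.thr 38 55 (.thr 23 43 (.dbl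 22 20 54)))))))) (.rp 49 (.thr 6 7 (.thr 9 13 (.thr 3 12 (.thr 41 61 (.thr 57 25 (.thr 22 60 (.dbl 38 54 55))))))) (.rp 45 (.thr 7 6 (.thr 22 52 (.thr 23 20 (.thr 41 61 (.thr 3 60 (.thr 63 43 (.dbl 0 2 42))))))) (.rp 41 (.thr 38 55 (.thr 13 9 (.thr 25 49 (.thr 29 17 (.thr 12 51 (.thr 63 46 (.dbl 0 8 42))))))) (.rp 29 (.thr 13 9 (.thr 49 25 (.thr 33 17 (.dbl 41 45 61)))) (.rp 13 (.thr 7 6 (.thr 22 52 (.thr 23 20 (.thr 41 61 (.thr 3 60 (.thr 63 43 (.dbl 0 2 42))))))) (.rp 9 (.thr 7 6 (.thr 22 52 (.thr 23 20 (.thr 41 61 (.thr 3 60 (.thr 63 43 (.dbl 0 2 42))))))) .nd)))))))))) (.rp 38 (.str 1 (.nv (.thr 41 61 (.thr 33 45 (.thr 49 17 (.dbl 13 9 25)))) (.nv (.thr 13 9 (.thr 25 49 (.thr 61 41 (.dbl 29 17 45)))) (.nv (.thr 13 9 (.thr 41 61 (.thr 33 45 (.dbl 49 17 25)))) (.rp 61 (.thr 7 6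 (.thr 22 52 (.thr 23 20 (.thr 13 9 (.thr 49 25 (.thr 33 17 (.thr 41 45 (.thr 3 60 (.thr 63 43 (.dbl 0 2 42)))))))))) (.rp 49 (.thr 6 7 (.thr 9 13 (.thr 3 12 (.thr 0 2 (.thr 63 42 (.thr 23 43 (.thr 22 20 (.dbl 41 60 61)))))))) (.rp 45 (.thr 7 6 (.thr 22 52 (.thr 23 20 (.thr 41 61 (.thr 3 60 (.thr 63 43 (.dbl 0 2 42))))))) (.rp 41 (.thr 7 6 (.thr 22 52 (.thr 20 23 (.thr 13 9 (.thr 25 49 (.thr 29 17 (.thr 28 19 (.thr 16 24 (.dbl 31 26 30))))))))) (.rp 25 (.thr 7 6 (.thr 22 52 (.thr 23 20 (.thr 41 61 (.thr 3 60 (.thr 63 43 (.dbl 0 2 42))))))) (.rp 17 (.thr 7 6 (.thr 22 52 (.thr 23 20 (.thr 41 61 (.thr 3 60 (.thr 63 43 (.dbl 0 2 42))))))) (.rp 13 (.thr 7 6 (.thr 22 52 (.thr 23 20 (.thr 41 61 (.thr 3 60 (.thr 63 43 (.dbl 0 2 42))))))) (.rp 9 (.thr 7 6 (.thr 22 52 (.thr 23 20 (.thr 41 61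 (.thr 3 60 (.thr 63 43 (.dbl 0 2 42))))))) .nd)))))))))))) (.rp 23 (.thr 7 6 (.thr 52 22 (.thr 36 20 (.dbl 38 39 55)))) (.rp 22 (.thr 6 7 (.str 1 (.nv (.thr 13 9 (.thr 25 49 (.thr 61 41 (.dbl 29 17 45)))) (.nv (.thr 9 13 (.thr 12 3 (.thr 38 55 (.thr 25 51 (.dbl 41 57 61))))) (.nv (.thr 13 9 (.thr 41 61 (.thr 33 45 (.dbl 49 17 25)))) (.rp 61 (.thr 38 55 (.thr 9 13 (.thr 12 3 (.thr 51 25 (.thr 0 8 (.thr 34 17 (.dbl 42 46 63))))))) (.rp 41 (.thr 38 55 (.thr 13 9 (.thr 25 49 (.thr 29 17 (.thr 12 51 (.thr 63 46 (.dbl 0 8 42))))))) (.rp 30 (.str 26 (.nv (.thr 15 48 (.thr 38 55 (.thr 14 50 (.dbl 13 9 12)))) (.nv (.thr 13 9 (.thr 38 55 (.thr 14 50 (.dbl 15 12 48)))) (.nv (.thr 13 9 (.thr 25 49 (.thr 61 41 (.dbl 29 17 45)))) (.rp 13 (.thr 16 31 (.thr 48 15 (.thr 0 32 (.thr 3 2 (.dbl 12 8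 9))))) (.rp 9 (.thr 15 48 (.thr 38 55 (.thr 39 36 (.thr 14 50 (.thr 12 13 (.dbl 51 25 27)))))) .nd)))))) (.rp 26 (.str 30 (.nv (.thr 13 9 (.thr 25 49 (.thr 61 41 (.dbl 29 17 45)))) (.nv (.thr 9 13 (.thr 12 3 (.thr 38 55 (.thr 25 51 (.dbl 41 57 61))))) (.nv (.thr 13 9 (.thr 41 61 (.thr 33 45 (.dbl 49 17 25)))) (.rp 61 (.thr 38 55 (.thr 9 13 (.thr 12 3 (.thr 51 25 (.thr 0 8 (.thr 34 17 (.dbl 42 46 63))))))) (.rp 58 (.str 42 (.nv (.thr 13 9 (.thr 25 49 (.thr 29 17 (.dbl 61 41 45)))) (.nv (.thr 9 13 (.thr 3 12 (.dbl 0 2 63))) (.rp 63 (.str 48 (.nv (.thr 9 13 (.thr 3 12 (.thr 0 2 (.dbl 32 16 47)))) (.nv (.thr 13 9 (.thr 41 61 (.thr 33 45 (.dbl 49 17 25)))) (.nv (.thr 32 47 (.thr 0 16 (.thr 12 8 (.dbl 9 3 13)))) (.rp 13 (.thr 32 47 (.thr 0 16 (.thr 12 8 (.dbl 3 2 9)))) (.rp 9 (.thr 41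 61 (.thr 45 33 (.thr 47 32 (.thr 44 46 (.dbl 38 35 55))))) .nd)))))) (.rp 48 (.thr 63 0 (.thr 13 9 (.thr 41 61 (.thr 33 45 (.dbl 49 17 25))))) (.rp 13 (.thr 47 32 (.thr 63 0 (.thr 15 31 (.thr 41 61 (.dbl 45 33 60))))) (.rp 9 (.thr 47 32 (.thr 63 0 (.thr 15 31 (.thr 41 61 (.dbl 45 33 60))))) .nd))))))) (.rp 42 (.str 58 (.nv (.thr 13 9 (.thr 25 49 (.thr 61 41 (.dbl 29 17 45)))) (.nv (.thr 9 13 (.thr 12 3 (.thr 38 55 (.thr 25 51 (.dbl 41 57 61))))) (.nv (.thr 13 9 (.thr 41 61 (.thr 33 45 (.dbl 49 17 25)))) (.rp 62 (.str 2 (.nv (.thr 13 9 (.thr 25 49 (.thr 29 17 (.dbl 61 41 45)))) (.nv (.thr 9 13 (.dbl 3 0 12)) (.rp 13 (.thr 41 61 (.thr 3 0 (.thr 12 9 (.thr 38 55 (.thr 35 44 (.dbl 51 19 25)))))) (.rp 9 (.thr 41 61 (.thr 45 33 (.thr 60 15 (.thr 38 55 (.thr 44 35 (.thr 12 28 (.dbl 0 3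 8))))))) .nd))))) (.rp 61 (.thr 9 13 (.thr 38 55 (.thr 12 3 (.thr 25 51 (.thr 29 17 (.thr 28 31 (.thr 44 60 (.dbl 41 35 57)))))))) (.rp 41 (.thr 13 9 (.thr 25 49 (.thr 29 17 (.thr 38 55 (.thr 12 51 (.thr 14 15 (.dbl 46 62 63))))))) (.rp 25 (.thr 9 13 (.thr 41 61 (.thr 45 33 (.thr 60 15 (.thr 38 55 (.thr 44 35 (.dbl 12 3 28))))))) (.rp 13 (.thr 41 61 (.thr 45 33 (.thr 60 15 (.thr 38 55 (.thr 44 35 (.thr 12 28 (.thr 0 8 (.dbl 3 2 9)))))))) (.rp 11 (.thr 41 61 (.thr 33 45 (.thr 49 17 (.dbl 13 9 25)))) (.rp 9 (.thr 41 61 (.thr 45 33 (.thr 60 15 (.thr 38 55 (.thr 44 35 (.thr 12 28 (.thr 46 47 (.thr 25 51 (.dbl 29 17 63))))))))) (.rp 2 (.str 62 (.nv (.thr 38 55 (.thr 41 61 (.thr 44 35 (.thr 45 33 (.dbl 46 14 47))))) (.nv (.thr 13 9 (.thr 14 46 (.thr 12 15 (.thr 38 55 (.dbl 25 49 51)))))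 (.nv (.thr 13 9 (.thr 41 61 (.thr 33 45 (.dbl 49 17 25)))) (.rp 50 (.str 34 (.nv (.thr 14 46 (.thr 13 9 (.thr 15 12 (.thr 45 60 (.dbl 41 33 61))))) (.nv (.thr 13 9 (.thr 14 46 (.thr 12 15 (.thr 38 55 (.dbl 25 49 51))))) (.nv (.thr 38 55 (.thr 41 61 (.thr 35 44 (.dbl 33 32 45)))) (.nv (.thr 13 9 (.thr 41 61 (.thr 33 45 (.dbl 49 17 25)))) .nd))))) (.rp 49 (.thr 13 9 (.thr 61 41 (.thr 45 29 (.dbl 60 15 63)))) (.rp 34 (.thr 50 54 (.thr 13 9 (.thr 61 41 (.thr 29 45 (.dbl 25 17 49))))) .nd))))))) .nd)))))))))))) (.rp 41 (.thr 38 55 (.thr 13 9 (.thr 25 49 (.thr 29 17 (.thr 12 51 (.thr 14 15 (.dbl 46 62 63))))))) (.rp 25 (.thr 38 55 (.thr 39 36 (.thr 41 61 (.thr 35 44 (.thr 47 43 (.thr 33 45 (.dbl 32 34 42))))))) (.rp 13 (.thr 38 55 (.thr 41 61 (.thr 44 35 (.thr 45 33 (.thr 15 60 (.thr 47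 46 (.thr 63 31 (.dbl 42 0 32)))))))) (.rp 11 (.thr 41 61 (.thr 33 45 (.thr 49 17 (.dbl 13 9 25)))) (.rp 9 (.thr 38 55 (.thr 39 36 (.thr 41 61 (.thr 35 44 (.thr 47 43 (.thr 33 45 (.dbl 32 34 42))))))) .nd)))))))))))) (.rp 25 (.thr 38 55 (.thr 39 36 (.thr 41 61 (.thr 33 45 (.thr 35 44 (.thr 32 34 (.dbl 47 42 43))))))) (.rp 13 (.thr 38 55 (.thr 39 36 (.thr 41 61 (.thr 35 44 (.thr 47 43 (.thr 32 42 (.dbl 33 34 45))))))) (.rp 11 (.thr 41 61 (.thr 33 45 (.thr 49 17 (.dbl 13 9 25)))) (.rp 9 (.thr 38 55 (.thr 39 36 (.thr 41 61 (.thr 33 45 (.thr 35 44 (.thr 32 34 (.dbl 47 42 43))))))) .nd))))))))))))) (.rp 20 (.str 1 (.nv (.thr 6 7 (.thr 9 13 (.thr 3 12 (.thr 38 55 (.thr 41 61 (.dbl 22 54 60)))))) (.nv (.thr 6 7 (.thr 9 13 (.thr 12 3 (.thr 38 55 (.thr 25 51 (.dbl 41 57 61)))))) (.nv (.thr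 13 9 (.thr 25 49 (.thr 61 41 (.dbl 29 17 45)))) (.rp 61 (.thr 6 7 (.thr 38 55 (.thr 9 13 (.thr 12 3 (.thr 51 25 (.thr 0 8 (.thr 34 17 (.dbl 42 46 63)))))))) (.rp 41 (.thr 38 55 (.thr 36 39 (.thr 13 9 (.thr 25 49 (.thr 12 51 (.thr 15 14 (.dbl 48 24 26))))))) (.rp 13 (.thr 38 55 (.thr 36 39 (.thr 41 61 (.thr 45 33 (.thr 44 35 (.thr 47 46 (.dbl 32 40 42))))))) (.rp 9 (.thr 38 55 (.thr 36 39 (.thr 41 61 (.thr 45 33 (.thr 44 35 (.thr 47 46 (.dbl 32 40 42))))))) .nd)))))))) (.rp 7 (.str 1 (.nv (.thr 41 61 (.thr 33 45 (.thr 49 17 (.dbl 13 9 25)))) (.nv (.thr 13 9 (.thr 49 25 (.thr 41 61 (.dbl 33 17 45)))) (.rp 61 (.thr 38 55 (.thr 39 36 (.thr 13 9 (.thr 49 25 (.thr 33 17 (.thr 41 45 (.thr 35 44 (.thr 32 34 (.dbl 47 42 43))))))))) (.rp 49 (.thr 38 55 (.thr 13 9 (.thr 61 41 (.thr 29 45 (.thr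 25 17 (.thr 12 51 (.thr 63 46 (.dbl 0 8 42)))))))) (.rp 45 (.thr 38 55 (.thr 13 9 (.thr 25 49 (.thr 29 17 (.thr 12 51 (.thr 63 46 (.dbl 0 8 42))))))) (.rp 41 (.thr 38 55 (.thr 13 9 (.thr 25 49 (.thr 29 17 (.thr 12 51 (.thr 63 46 (.dbl 0 8 42))))))) (.rp 33 (.thr 13 9 (.thr 25 49 (.thr 29 17 (.dbl 61 41 45)))) (.rp 25 (.thr 38 55 (.thr 39 36 (.thr 41 61 (.thr 33 45 (.thr 35 44 (.thr 32 34 (.dbl 47 42 43))))))) (.rp 17 (.thr 38 55 (.thr 39 36 (.thr 41 61 (.thr 33 45 (.thr 35 44 (.thr 32 34 (.dbl 47 42 43))))))) (.rp 13 (.thr 38 55 (.thr 39 36 (.thr 41 61 (.thr 35 44 (.thr 47 43 (.thr 32 42 (.dbl 33 34 45))))))) (.rp 9 (.thr 38 55 (.thr 39 36 (.thr 41 61 (.thr 33 45 (.thr 35 44 (.thr 32 34 (.dbl 47 42 43))))))) .nd)))))))))))) (.rp 6 (.str 13 (.nv (.thr 25 49 (.thr 38 55 (.thr 12 51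 (.thr 36 39 (.thr 48 24 (.dbl 15 14 26)))))) (.nv (.thr 1 9 (.thr 61 41 (.thr 25 49 (.dbl 29 17 45)))) (.rp 61 (.thr 38 55 (.thr 36 39 (.thr 9 1 (.thr 25 49 (.thr 57 41 (.thr 12 51 (.thr 48 24 (.dbl 15 14 26)))))))) (.rp 49 (.thr 38 55 (.thr 1 9 (.thr 61 41 (.thr 29 45 (.thr 25 17 (.thr 12 51 (.thr 63 46 (.dbl 0 8 42)))))))) (.rp 25 (.thr 38 55 (.thr 39 36 (.thr 1 9 (.thr 41 61 (.thr 33 45 (.thr 35 44 (.thr 32 34 (.dbl 47 42 43)))))))) (.rp 14 (.str 2 (.nv (.thr 25 49 (.thr 29 17 (.thr 61 45 (.dbl 1 9 41)))) (.nv (.thr 1 9 (.thr 3 0 (.thr 41 61 (.thr 22 60 (.thr 20 23 (.dbl 52 7 36)))))) (.nv (.thr 1 9 (.thr 25 49 (.thr 61 41 (.dbl 29 17 45)))) (.rp 61 (.thr 1 9 (.thr 49 25 (.thr 33 17 (.thr 41 45 (.thr 3 0 (.thr 22 60 (.thr 52 7 (.dbl 20 23 36)))))))) (.rp 49 (.thr 1 9 (.thr 61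 41 (.thr 29 45 (.thr 25 17 (.thr 38 55 (.thr 0 3 (.dbl 12 8 51))))))) (.rp 41 (.thr 1 9 (.thr 25 49 (.thr 38 55 (.thr 0 3 (.dbl 12 8 51))))) (.rp 9 (.thr 25 49 (.thr 29 17 (.thr 38 55 (.thr 12 51 (.thr 63 46 (.dbl 0 8 42)))))) (.rp 1 (.thr 25 49 (.thr 38 55 (.thr 12 51 (.thr 0 8 (.thr 63 42 (.dbl 29 17 46)))))) .nd))))))))) (.rp 12 (.thr 25 49 (.thr 29 17 (.thr 61 45 (.dbl 1 9 41)))) (.rp 2 (.str 14 (.nv (.thr 15 12 (.thr 26 48 (.dbl 38 50 55))) (.nv (.thr 25 49 (.thr 29 17 (.thr 61 45 (.dbl 1 9 41)))) (.nv (.thr 38 55 (.thr 12 15 (.dbl 25 49 51))) (.rp 50 (.str 34 (.nv (.thr 12 15 (.thr 0 8 (.thr 38 55 (.dbl 42 46 63)))) (.nv (.thr 1 9 (.thr 41 61 (.thr 33 45 (.dbl 49 17 25)))) (.nv (.thr 38 55 (.thr 12 15 (.dbl 25 49 51))) (.rp 12 (.thr 25 49 (.thr 29 17 (.thr 61 45 (.dbl 1 9 41))))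 .nd))))) (.rp 34 (.str 50 (.nv (.thr 15 12 (.thr 48 26 (.dbl 49 25 51))) (.nv (.dbl 38 26 55) (.rp 26 (.thr 38 55 (.thr 12 15 (.dbl 25 49 51))) .nd)))) .nd)))))) .nd))))))))) .nd))))))))))))

theorem w344 : WinAt (137441050656, 9007199255004160) :=
  chF (K := []) kn c344 137441050656 9007199255004160 53
    [] (by decide +kernel) (by decide +kernel)

/-- A certificate. -/
noncomputable def c345 : Ct := (.str 4 (.nv (.thr 38 55 (.thr 36 39 (.thr 52 20 (.dbl 7 6 22)))) (.nv (.thr 7 6 (.thr 55 38 (.thr 22 52 (.dbl 23 20 39)))) (.rp 55 (.str 52 (.nv (.dbl 7 6 22) (.rp 22 (.str 25 (.nv (.thr 13 49 (.thr 9 1 (.thr 36 20 (.thr 38 39 (.thr 12 51 (.dbl 6 3 7)))))) (.nv (.thr 29 17 (.thr 13 49 (.thr 61 45 (.dbl 1 9 41)))) (.rp 61 (.thr 29 17 (.thr 36 20 (.thr 38 39 (.thr 12 51 (.thr 0 8 (.dbl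 63 42 46)))))) (.rp 49 (.thr 29 17 (.thr 36 20 (.thr 38 39 (.thr 12 51 (.thr 0 8 (.dbl 63 42 46)))))) (.rp 33 (.thr 29 17 (.thr 13 49 (.thr 1 9 (.dbl 61 41 45)))) (.rp 17 (.thr 13 49 (.thr 36 20 (.thr 38 39 (.thr 12 51 (.thr 48 24 (.dbl 15 14 26)))))) (.rp 13 (.thr 29 17 (.thr 36 20 (.thr 38 39 (.thr 12 51 (.thr 0 8 (.dbl 63 42 46)))))) (.rp 9 (.thr 29 17 (.thr 36 20 (.thr 38 39 (.thr 12 51 (.thr 63 46 (.dbl 0 8 42)))))) (.rp 1 (.thr 29 17 (.thr 36 20 (.thr 38 39 (.thr 12 51 (.thr 0 8 (.dbl 63 42 46)))))) .nd)))))))))) (.rp 7 (.thr 36 20 (.thr 39 38 (.str 48 (.nv (.thr 12 24 (.thr 0 8 (.thr 42 63 (.dbl 32 16 47)))) (.nv (.thr 26 15 (.thr 12 24 (.thr 16 31 (.dbl 0 8 32)))) (.nv (.thr 12 24 (.thr 0 8 (.thr 16 32 (.dbl 26 15 31)))) (.rp 32 (.thr 60 56 (.thr 12 24 (.thr 15 26 (.thr 45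 30 (.thr 41 33 (.thr 1 61 (.dbl 13 9 14))))))) (.rp 24 (.thr 60 56 (.thr 15 26 (.thr 45 30 (.thr 41 33 (.thr 61 1 (.thr 63 62 (.thr 47 31 (.dbl 42 0 32)))))))) (.rp 16 (.thr 60 56 (.thr 15 26 (.thr 45 30 (.thr 41 33 (.thr 1 61 (.thr 13 9 (.dbl 12 14 24))))))) (.rp 12 (.thr 60 56 (.thr 15 26 (.thr 45 30 (.thr 41 33 (.thr 1 61 (.thr 13 9 (.thr 49 25 (.dbl 51 27 50)))))))) (.rp 11 (.thr 60 56 (.thr 12 24 (.thr 8 0 (.thr 28 44 (.str 41 (.nv (.thr 3 22 (.thr 1 61 (.dbl 9 6 13))) (.nv (.thr 45 33 (.dbl 15 26 30)) (.rp 3 (.thr 15 26 (.dbl 45 30 33)) .nd)))))))) (.rp 8 (.thr 60 56 (.thr 15 26 (.thr 45 30 (.thr 41 33 (.thr 61 1 (.thr 13 29 (.dbl 12 14 24))))))) (.rp 0 (.thr 60 56 (.thr 12 24 (.thr 15 26 (.thr 45 30 (.thr 41 33 (.thr 1 61 (.dbl 13 9 14))))))) .nd))))))))))))) (.rp 6 (.thr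 20 36 (.dbl 22 7 23)) .nd))))) (.rp 52 (.thr 55 38 (.str 15 (.nv (.thr 26 48 (.thr 31 16 (.thr 63 47 (.thr 51 59 (.thr 39 27 (.dbl 7 6 23)))))) (.nv (.thr 6 7 (.thr 26 48 (.thr 31 16 (.thr 63 47 (.thr 0 42 (.thr 12 8 (.thr 9 3 (.dbl 13 1 14)))))))) (.nv (.thr 7 6 (.thr 23 39 (.thr 22 20 (.thr 26 48 (.thr 30 18 (.thr 60 45 (.dbl 3 11 41))))))) (.nv (.thr 7 6 (.thr 3 11 (.thr 23 39 (.thr 63 43 (.thr 47 31 (.dbl 42 0 32)))))) (.rp 63 (.thr 7 6 (.thr 23 39 (.thr 22 20 (.thr 3 11 (.thr 60 41 (.thr 30 45 (.dbl 26 18 48))))))) (.rp 7 (.thr 26 48 (.thr 31 16 (.thr 63 47 (.thr 51 59 (.thr 27 39 (.thr 0 42 (.thr 25 24 (.dbl 17 29 34)))))))) (.rp 6 (.thr 26 48 (.thr 31 16 (.thr 63 47 (.thr 51 59 (.thr 27 39 (.thr 0 42 (.thr 25 24 (.dbl 17 29 34)))))))) .nd))))))))) (.rp 39 (.str 1 (.nv (.thr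 6 7 (.thr 9 13 (.thr 3 12 (.thr 41 61 (.thr 22 60 (.dbl 38 54 55)))))) (.nv (.thr 13 9 (.thr 25 49 (.thr 61 41 (.dbl 29 17 45)))) (.rp 61 (.thr 6 7 (.thr 9 13 (.thr 3 12 (.thr 0 2 (.thr 63 42 (.thr 38 55 (.thr 23 43 (.dbl 22 20 54)))))))) (.rp 49 (.thr 6 7 (.thr 9 13 (.thr 3 12 (.thr 41 61 (.thr 57 25 (.thr 22 60 (.dbl 38 54 55))))))) (.rp 45 (.thr 7 6 (.thr 22 52 (.thr 23 20 (.thr 41 61 (.thr 3 60 (.thr 63 43 (.dbl 0 2 42))))))) (.rp 41 (.thr 38 55 (.thr 13 9 (.thr 25 49 (.thr 29 17 (.thr 12 51 (.thr 63 46 (.dbl 0 8 42))))))) (.rp 29 (.thr 13 9 (.thr 49 25 (.thr 33 17 (.dbl 41 45 61)))) (.rp 13 (.thr 7 6 (.thr 22 52 (.thr 23 20 (.thr 41 61 (.thr 3 60 (.thr 63 43 (.dbl 0 2 42))))))) (.rp 9 (.thr 7 6 (.thr 22 52 (.thr 23 20 (.thr 41 61 (.thr 3 60 (.thr 63 43 (.dbl 0 2 42))))))) .nd))))))))))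 (.rp 38 (.str 1 (.nv (.thr 41 61 (.thr 33 45 (.thr 49 17 (.dbl 13 9 25)))) (.nv (.thr 13 9 (.thr 25 49 (.thr 61 41 (.dbl 29 17 45)))) (.nv (.thr 13 9 (.thr 41 61 (.thr 33 45 (.dbl 49 17 25)))) (.rp 61 (.thr 7 6 (.thr 22 52 (.thr 23 20 (.thr 13 9 (.thr 49 25 (.thr 33 17 (.thr 41 45 (.thr 3 60 (.thr 63 43 (.dbl 0 2 42)))))))))) (.rp 49 (.thr 6 7 (.thr 9 13 (.thr 3 12 (.thr 0 2 (.thr 63 42 (.thr 23 43 (.thr 22 20 (.dbl 41 60 61)))))))) (.rp 45 (.thr 7 6 (.thr 22 52 (.thr 23 20 (.thr 41 61 (.thr 3 60 (.thr 63 43 (.dbl 0 2 42))))))) (.rp 41 (.thr 6 7 (.thr 9 13 (.thr 3 12 (.thr 0 2 (.thr 42 63 (.thr 32 47 (.thr 48 16 (.thr 33 18 (.thr 17 49 (.dbl 34 35 51)))))))))) (.rp 25 (.thr 7 6 (.thr 22 52 (.thr 23 20 (.thr 41 61 (.thr 3 60 (.thr 63 43 (.dbl 0 2 42))))))) (.rp 17 (.thr 7 6 (.thr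 22 52 (.thr 23 20 (.thr 41 61 (.thr 3 60 (.thr 63 43 (.dbl 0 2 42))))))) (.rp 13 (.thr 7 6 (.thr 22 52 (.thr 23 20 (.thr 41 61 (.thr 3 60 (.thr 63 43 (.dbl 0 2 42))))))) (.rp 9 (.thr 7 6 (.thr 22 52 (.thr 23 20 (.thr 41 61 (.thr 3 60 (.thr 63 43 (.dbl 0 2 42))))))) .nd)))))))))))) (.rp 23 (.thr 7 6 (.thr 52 22 (.thr 36 20 (.dbl 38 39 55)))) (.rp 22 (.str 25 (.nv (.thr 6 7 (.thr 13 49 (.thr 38 55 (.thr 12 51 (.dbl 9 1 3))))) (.nv (.thr 38 55 (.thr 12 51 (.thr 0 8 (.thr 63 42 (.dbl 29 17 46))))) (.nv (.thr 29 17 (.thr 13 49 (.thr 61 45 (.dbl 1 9 41)))) (.rp 9 (.thr 29 17 (.thr 38 55 (.thr 12 51 (.thr 63 46 (.dbl 0 8 42))))) .nd))))) (.rp 20 (.str 1 (.nv (.thr 6 7 (.thr 9 13 (.thr 3 12 (.thr 38 55 (.thr 41 61 (.dbl 22 54 60)))))) (.nv (.thr 13 9 (.thr 25 49 (.thr 61 41 (.dbl 29 17 45))))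 (.rp 61 (.thr 6 7 (.thr 38 55 (.thr 9 13 (.thr 12 3 (.thr 51 25 (.thr 0 8 (.thr 34 17 (.dbl 42 46 63)))))))) (.rp 49 (.thr 6 7 (.thr 38 55 (.thr 9 13 (.thr 3 12 (.thr 41 61 (.thr 57 25 (.dbl 22 54 60))))))) (.rp 45 (.thr 38 55 (.thr 36 39 (.thr 13 9 (.thr 25 49 (.thr 12 51 (.thr 15 14 (.dbl 48 24 26))))))) (.rp 41 (.thr 38 55 (.thr 36 39 (.thr 13 9 (.thr 25 49 (.thr 12 51 (.thr 15 14 (.dbl 48 24 26))))))) (.rp 29 (.thr 13 9 (.thr 49 25 (.thr 33 17 (.dbl 41 45 61)))) (.rp 13 (.thr 7 6 (.thr 22 52 (.thr 41 61 (.thr 3 60 (.thr 15 11 (.thr 48 26 (.dbl 33 18 45))))))) (.rp 9 (.thr 7 6 (.thr 22 52 (.thr 41 61 (.thr 33 45 (.thr 3 60 (.thr 48 18 (.dbl 15 11 26))))))) .nd)))))))))) (.rp 7 (.str 1 (.nv (.thr 41 61 (.thr 33 45 (.thr 49 17 (.dbl 13 9 25)))) (.nv (.thr 13 9 (.thr 25 49 (.thr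 61 41 (.dbl 29 17 45)))) (.rp 61 (.thr 38 55 (.thr 39 36 (.thr 13 9 (.thr 49 25 (.thr 33 17 (.thr 41 45 (.thr 35 44 (.thr 32 34 (.dbl 47 42 43))))))))) (.rp 49 (.thr 38 55 (.thr 13 9 (.thr 61 41 (.thr 29 45 (.thr 25 17 (.thr 12 51 (.thr 63 46 (.dbl 0 8 42)))))))) (.rp 45 (.thr 38 55 (.thr 13 9 (.thr 25 49 (.thr 29 17 (.thr 12 51 (.thr 63 46 (.dbl 0 8 42))))))) (.rp 41 (.thr 38 55 (.thr 13 9 (.thr 25 49 (.thr 29 17 (.thr 12 51 (.thr 63 46 (.dbl 0 8 42))))))) (.rp 29 (.thr 13 9 (.thr 49 25 (.thr 33 17 (.dbl 41 45 61)))) (.rp 25 (.thr 38 55 (.thr 39 36 (.thr 41 61 (.thr 33 45 (.thr 35 44 (.thr 32 34 (.dbl 47 42 43))))))) (.rp 17 (.thr 38 55 (.thr 39 36 (.thr 41 61 (.thr 33 45 (.thr 35 44 (.thr 32 34 (.dbl 47 42 43))))))) (.rp 13 (.thr 38 55 (.thr 39 36 (.thr 41 61 (.thr 35 44 (.thr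 47 43 (.thr 32 42 (.dbl 33 34 45))))))) (.rp 9 (.thr 38 55 (.thr 39 36 (.thr 41 61 (.thr 33 45 (.thr 35 44 (.thr 32 34 (.dbl 47 42 43))))))) .nd)))))))))))) (.rp 6 (.str 1 (.nv (.thr 41 61 (.thr 33 45 (.thr 49 17 (.dbl 13 9 25)))) (.nv (.thr 13 9 (.thr 25 49 (.thr 61 41 (.dbl 29 17 45)))) (.rp 61 (.thr 38 55 (.thr 39 36 (.thr 13 9 (.thr 49 25 (.thr 33 17 (.thr 41 45 (.thr 35 44 (.thr 32 34 (.dbl 47 42 43))))))))) (.rp 49 (.thr 38 55 (.thr 13 9 (.thr 61 41 (.thr 29 45 (.thr 25 17 (.thr 12 51 (.thr 63 46 (.dbl 0 8 42)))))))) (.rp 45 (.thr 38 55 (.thr 36 39 (.thr 13 9 (.thr 25 49 (.thr 12 51 (.thr 48 24 (.dbl 15 14 26))))))) (.rp 41 (.thr 38 55 (.thr 36 39 (.thr 13 9 (.thr 25 49 (.thr 12 51 (.thr 48 24 (.dbl 15 14 26))))))) (.rp 29 (.thr 13 9 (.thr 49 25 (.thr 33 17 (.dbl 41 45 61))))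 (.rp 25 (.thr 38 55 (.thr 36 39 (.thr 41 61 (.thr 45 33 (.thr 44 35 (.thr 47 46 (.dbl 32 40 42))))))) (.rp 17 (.thr 38 55 (.thr 36 39 (.thr 13 9 (.thr 25 49 (.thr 12 51 (.thr 48 24 (.dbl 15 14 26))))))) (.rp 14 (.str 2 (.nv (.thr 0 3 (.thr 38 55 (.thr 36 39 (.thr 42 63 (.thr 52 20 (.dbl 22 7 62)))))) (.nv (.thr 41 61 (.thr 33 45 (.thr 49 17 (.dbl 13 9 25)))) (.rp 9 (.thr 3 0 (.thr 41 61 (.thr 22 60 (.thr 52 7 (.dbl 20 23 36))))) .nd)))) (.rp 13 (.thr 38 55 (.thr 36 39 (.thr 41 61 (.thr 45 33 (.thr 44 35 (.thr 47 46 (.dbl 32 40 42))))))) (.rp 9 (.thr 38 55 (.thr 36 39 (.thr 41 61 (.thr 45 33 (.thr 44 35 (.thr 47 46 (.dbl 32 40 42))))))) (.rp 2 (.str 14 (.nv (.thr 13 9 (.thr 38 55 (.thr 26 50 (.dbl 15 12 48)))) (.nv (.thr 41 61 (.thr 33 45 (.thr 49 17 (.dbl 13 9 25)))) (.nv (.thr 13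 9 (.thr 12 15 (.thr 25 49 (.dbl 38 51 55)))) (.rp 13 (.thr 41 61 (.thr 45 33 (.thr 38 55 (.thr 36 39 (.thr 44 35 (.thr 32 40 (.dbl 47 42 46))))))) (.rp 9 (.thr 38 55 (.thr 26 50 (.thr 15 48 (.thr 12 13 (.thr 39 36 (.dbl 51 25 27)))))) .nd)))))) .nd)))))))))))))) .nd))))))))))))

theorem w345 : WinAt (137441050656, 9007199255266304) :=
  chF (K := []) kn c345 137441050656 9007199255266304 53
    [] (by decide +kernel) (by decide +kernel)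

/-- A certificate. -/
noncomputable def c346 : Ct := (.str 1 (.nv (.thr 41 61 (.thr 33 45 (.thr 49 17 (.dbl 13 9 25)))) (.nv (.thr 13 9 (.thr 49 25 (.thr 41 61 (.dbl 33 17 45)))) (.rp 61 (.str 49 (.nv (.dbl 13 9 25) (.rp 25 (.str 0 (.nv (.thr 17 33 (.thr 42 63 (.thr 32 47 (.thr 48 16 (.dbl 51 34 50))))) (.nv (.thr 3 2 (.thr 33 17 (.thr 42 63 (.thr 48 18 (.dbl 32 16 47))))) (.nv (.thr 3 2 (.thr 9 13 (.thr 6 12 (.thr 7 4 (.thr 15 11 (.thr 33 17 (.dbl 48 18 26))))))) (.nv (.thr 17 33 (.thr 51 34 (.thr 48 50 (.thr 26 15 (.dbl 16 31 32))))) (.rp 48 (.thr 17 33 (.thr 9 13 (.thr 3 2 (.thr 6 12 (.thr 4 7 (.thr 55 38 (.thr 51 34 (.dbl 63 42 59)))))))) (.rp 33 (.thr 9 13 (.thr 3 2 (.thr 6 12 (.thr 7 4 (.thr 15 11 (.thr 48 26 (.thr 32 16 (.dbl 42 47 63)))))))) (.rp 17 (.thr 9 13 (.thr 3 2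 (.thr 6 12 (.thr 7 4 (.thr 15 11 (.thr 48 26 (.thr 32 16 (.dbl 42 47 63)))))))) .nd)))))))) (.rp 13 (.thr 17 33 (.thr 29 25 (.str 0 (.nv (.thr 51 34 (.thr 48 50 (.thr 26 15 (.dbl 16 31 32)))) (.nv (.thr 3 2 (.thr 63 42 (.thr 12 46 (.thr 6 9 (.dbl 4 7 8))))) (.nv (.thr 51 34 (.thr 48 50 (.thr 32 16 (.dbl 42 47 63)))) (.rp 34 (.str 16 (.nv (.thr 32 48 (.dbl 42 47 63)) (.nv (.thr 26 31 (.dbl 48 15 32)) (.rp 48 (.thr 18 19 (.thr 26 31 (.thr 22 30 (.thr 2 3 (.dbl 42 62 63))))) (.rp 32 (.str 35 (.nv (.thr 19 18 (.dbl 3 2 51)) (.rp 51 (.thr 18 19 (.thr 2 3 (.thr 26 31 (.thr 22 30 (.dbl 42 62 63))))) (.rp 50 (.thr 18 19 (.thr 2 3 (.thr 26 31 (.thr 22 30 (.dbl 42 62 63))))) (.rp 19 (.thr 3 2 (.thr 63 42 (.thr 43 23 (.thr 47 39 (.dbl 31 15 26))))) (.rp 18 (.thr 26 31 (.thr 48 15 (.thr 50 51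 (.thr 63 42 (.thr 12 46 (.thr 38 14 (.dbl 4 8 55))))))) (.rp 3 (.thr 18 19 (.thr 26 31 (.thr 22 30 (.thr 7 52 (.thr 4 6 (.thr 12 8 (.dbl 63 42 46))))))) (.rp 2 (.thr 18 19 (.thr 26 31 (.thr 48 15 (.thr 50 51 (.thr 22 30 (.thr 7 52 (.thr 4 6 (.thr 14 38 (.thr 12 8 (.dbl 63 42 46)))))))))) .nd)))))))) .nd))))) (.rp 2 (.thr 51 34 (.thr 42 63 (.thr 32 47 (.dbl 48 16 50)))) .nd)))))))) (.rp 9 (.thr 17 33 (.dbl 25 13 29)) .nd))))) (.rp 49 (.thr 61 41 (.str 15 (.nv (.thr 13 9 (.thr 12 14 (.thr 29 45 (.thr 63 46 (.thr 42 0 (.dbl 47 31 32)))))) (.nv (.thr 9 13 (.thr 26 48 (.thr 31 16 (.thr 63 47 (.thr 0 42 (.thr 3 2 (.thr 6 12 (.dbl 7 4 11)))))))) (.nv (.thr 13 9 (.thr 12 14 (.thr 29 45 (.thr 25 17 (.thr 38 51 (.thr 36 39 (.dbl 48 24 26))))))) (.nv (.thr 13 9 (.thr 45 29 (.thr 60 30 (.thr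 63 62 (.thr 31 47 (.dbl 26 16 48)))))) (.rp 13 (.thr 26 48 (.thr 31 16 (.thr 63 47 (.thr 60 62 (.thr 30 45 (.thr 0 42 (.thr 3 2 (.thr 22 18 (.dbl 7 11 52))))))))) (.rp 11 (.thr 26 48 (.thr 31 16 (.thr 63 47 (.thr 60 62 (.thr 45 30 (.dbl 13 9 29)))))) (.rp 9 (.thr 26 48 (.thr 31 16 (.thr 63 47 (.thr 60 62 (.thr 30 45 (.thr 0 42 (.thr 3 2 (.thr 22 18 (.dbl 7 11 52))))))))) .nd))))))))) (.rp 45 (.str 0 (.nv (.thr 3 2 (.thr 13 9 (.thr 25 49 (.thr 17 29 (.thr 51 34 (.thr 19 35 (.thr 22 28 (.dbl 41 60 61)))))))) (.nv (.thr 3 2 (.thr 9 13 (.thr 6 12 (.thr 7 4 (.thr 15 11 (.thr 26 48 (.thr 63 42 (.dbl 31 16 47)))))))) (.nv (.thr 3 2 (.thr 42 63 (.thr 32 47 (.thr 48 16 (.thr 33 18 (.thr 34 35 (.dbl 17 49 51))))))) (.nv (.thr 13 9 (.thr 25 49 (.thr 17 29 (.thr 51 34 (.thr 12 38 (.thr 42 63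 (.dbl 8 4 59))))))) .nd))))) (.rp 41 (.str 0 (.nv (.thr 3 2 (.thr 42 63 (.thr 32 47 (.thr 48 16 (.thr 33 18 (.thr 17 49 (.dbl 34 35 51))))))) (.nv (.thr 3 2 (.thr 9 13 (.thr 6 12 (.thr 7 4 (.thr 15 11 (.thr 26 48 (.thr 63 42 (.dbl 31 16 47)))))))) (.nv (.thr 13 9 (.thr 25 49 (.thr 17 29 (.thr 42 63 (.thr 8 59 (.thr 51 34 (.dbl 12 4 38))))))) (.rp 63 (.thr 13 9 (.thr 25 49 (.thr 17 29 (.thr 51 34 (.thr 12 38 (.thr 15 14 (.thr 27 39 (.dbl 26 24 48)))))))) (.rp 48 (.thr 13 9 (.thr 25 49 (.thr 17 29 (.thr 51 34 (.thr 12 38 (.thr 8 4 (.dbl 42 59 63))))))) (.rp 42 (.thr 13 9 (.thr 25 49 (.thr 17 29 (.thr 3 2 (.thr 51 34 (.thr 19 35 (.thr 22 28 (.thr 7 52 (.thr 38 12 (.dbl 4 6 55)))))))))) .nd))))))) (.rp 33 (.thr 13 9 (.thr 25 49 (.thr 29 17 (.dbl 61 41 45)))) (.rp 25 (.str 4 (.nv (.thr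 7 6 (.thr 22 52 (.thr 41 61 (.thr 3 60 (.thr 15 11 (.thr 48 26 (.dbl 33 18 45))))))) (.nv (.thr 9 13 (.thr 41 61 (.thr 6 7 (.thr 3 12 (.thr 38 55 (.dbl 22 54 60)))))) (.rp 61 (.thr 9 13 (.thr 6 7 (.thr 12 3 (.thr 0 8 (.thr 38 55 (.thr 42 63 (.thr 32 47 (.thr 48 16 (.dbl 36 24 39))))))))) (.rp 60 (.thr 41 61 (.thr 33 45 (.thr 38 55 (.thr 39 36 (.thr 35 44 (.thr 47 43 (.dbl 32 34 42))))))) (.rp 57 (.thr 9 13 (.thr 6 7 (.thr 12 3 (.thr 0 8 (.thr 38 55 (.thr 42 63 (.thr 32 47 (.thr 48 16 (.dbl 36 24 39))))))))) (.rp 55 (.thr 9 13 (.thr 41 61 (.thr 6 7 (.thr 3 12 (.thr 0 2 (.thr 42 63 (.thr 32 47 (.thr 48 16 (.dbl 33 18 45))))))))) (.rp 54 (.thr 41 61 (.thr 33 45 (.thr 7 6 (.thr 22 52 (.thr 55 38 (.thr 3 60 (.thr 15 11 (.dbl 48 18 26)))))))) (.rp 52 (.thr 9 13 (.thr 41 61 (.thr 6 7 (.thr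 3 12 (.thr 22 60 (.dbl 38 54 55)))))) (.rp 49 (.thr 9 13 (.thr 6 7 (.thr 12 3 (.thr 0 8 (.thr 38 55 (.thr 42 63 (.thr 32 47 (.thr 48 16 (.dbl 36 24 39))))))))) (.rp 45 (.thr 41 61 (.thr 7 6 (.thr 22 52 (.thr 3 60 (.thr 55 38 (.thr 23 39 (.thr 63 43 (.dbl 0 2 42)))))))) (.rp 41 (.thr 9 13 (.thr 6 7 (.thr 12 3 (.thr 0 8 (.thr 38 55 (.thr 42 63 (.thr 32 47 (.thr 48 16 (.dbl 36 24 39))))))))) (.rp 22 (.thr 41 61 (.thr 33 45 (.thr 38 55 (.thr 39 36 (.thr 35 44 (.thr 47 43 (.dbl 32 34 42))))))) (.rp 15 (.thr 41 61 (.thr 33 45 (.thr 38 55 (.thr 39 36 (.thr 35 44 (.thr 47 43 (.dbl 32 34 42))))))) (.rp 14 (.thr 41 61 (.thr 33 45 (.thr 38 55 (.thr 39 36 (.thr 35 44 (.thr 47 43 (.dbl 32 34 42))))))) (.rp 9 (.thr 41 61 (.thr 33 45 (.thr 7 6 (.thr 22 52 (.thr 3 60 (.thr 48 18 (.dbl 15 11 26)))))))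 (.rp 7 (.thr 41 61 (.thr 33 45 (.thr 38 55 (.thr 39 36 (.thr 35 44 (.thr 47 43 (.dbl 32 34 42))))))) (.rp 6 (.thr 41 61 (.thr 33 45 (.thr 38 55 (.thr 39 36 (.thr 35 44 (.thr 47 43 (.dbl 32 34 42))))))) (.rp 3 (.thr 41 61 (.thr 33 45 (.thr 38 55 (.thr 39 36 (.thr 35 44 (.thr 47 43 (.dbl 32 34 42))))))) .nd))))))))))))))))))) (.rp 17 (.str 4 (.nv (.thr 6 7 (.thr 9 13 (.thr 3 12 (.thr 41 61 (.thr 22 60 (.dbl 38 54 55)))))) (.nv (.thr 6 7 (.thr 9 13 (.thr 12 3 (.thr 38 55 (.thr 39 36 (.thr 25 51 (.dbl 41 57 61))))))) (.nv (.thr 6 7 (.thr 38 55 (.thr 9 13 (.thr 3 12 (.thr 41 61 (.dbl 22 54 60)))))) (.rp 61 (.thr 6 7 (.thr 38 55 (.thr 9 13 (.thr 12 3 (.thr 0 8 (.thr 42 63 (.thr 32 47 (.thr 48 16 (.dbl 36 24 39))))))))) (.rp 57 (.thr 38 55 (.thr 36 39 (.thr 13 9 (.thr 25 49 (.thr 61 41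 (.thr 12 51 (.thr 15 14 (.dbl 48 24 26)))))))) (.rp 55 (.thr 6 7 (.thr 9 13 (.thr 3 12 (.thr 0 2 (.thr 41 61 (.thr 42 63 (.thr 32 47 (.thr 48 16 (.dbl 33 18 45))))))))) (.rp 54 (.thr 7 6 (.thr 22 52 (.thr 55 38 (.thr 23 39 (.thr 41 61 (.thr 3 60 (.thr 63 43 (.dbl 0 2 42)))))))) (.rp 41 (.thr 38 55 (.thr 36 39 (.thr 13 9 (.thr 25 49 (.thr 12 51 (.thr 15 14 (.dbl 48 24 26))))))) (.rp 38 (.thr 7 6 (.thr 22 52 (.thr 41 61 (.thr 33 45 (.thr 3 60 (.thr 48 18 (.dbl 15 11 26))))))) (.rp 15 (.thr 38 55 (.thr 36 39 (.thr 41 61 (.thr 45 33 (.thr 44 35 (.thr 47 46 (.dbl 32 40 42))))))) (.rp 13 (.thr 7 6 (.thr 22 52 (.thr 41 61 (.thr 3 60 (.thr 15 11 (.thr 48 26 (.dbl 33 18 45))))))) (.rp 12 (.thr 7 6 (.thr 22 52 (.thr 41 61 (.thr 33 45 (.thr 3 60 (.thr 48 18 (.dbl 15 11 26))))))) (.rp 9 (.thr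 7 6 (.thr 22 52 (.thr 41 61 (.thr 33 45 (.thr 3 60 (.thr 48 18 (.dbl 15 11 26))))))) (.rp 7 (.thr 38 55 (.thr 39 36 (.thr 41 61 (.thr 33 45 (.thr 35 44 (.thr 32 34 (.dbl 47 42 43))))))) (.rp 6 (.thr 38 55 (.thr 36 39 (.thr 13 9 (.thr 25 49 (.thr 12 51 (.thr 48 24 (.dbl 15 14 26))))))) (.rp 3 (.thr 38 55 (.thr 36 39 (.thr 13 9 (.thr 25 49 (.thr 12 51 (.thr 15 14 (.dbl 48 24 26))))))) .nd))))))))))))))))) (.rp 13 (.str 3 (.nv (.thr 0 2 (.thr 41 61 (.thr 22 60 (.thr 7 52 (.thr 63 42 (.thr 23 43 (.thr 55 39 (.dbl 4 6 38)))))))) (.nv (.thr 0 2 (.thr 42 63 (.thr 32 47 (.thr 48 16 (.thr 33 18 (.thr 34 35 (.dbl 17 49 51))))))) (.nv (.thr 41 61 (.thr 45 33 (.thr 60 22 (.thr 15 30 (.thr 11 7 (.dbl 26 48 56)))))) (.rp 49 (.thr 0 2 (.thr 42 63 (.thr 32 47 (.thr 48 16 (.thr 33 18 (.dbl 41 45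 61)))))) (.rp 48 (.thr 41 61 (.thr 45 33 (.thr 0 2 (.thr 60 22 (.thr 15 30 (.thr 11 7 (.thr 26 56 (.thr 31 16 (.dbl 63 42 47))))))))) .nd)))))) (.rp 9 (.thr 41 61 (.thr 33 45 (.thr 49 17 (.thr 13 25 (.str 42 (.nv (.thr 0 63 (.thr 3 2 (.thr 32 47 (.dbl 48 16 18)))) (.nv (.thr 0 63 (.thr 3 2 (.thr 48 18 (.thr 60 22 (.thr 56 52 (.dbl 26 11 15)))))) (.nv (.thr 40 43 (.thr 32 47 (.thr 35 34 (.dbl 44 36 38)))) (.rp 11 (.str 8 (.nv (.thr 40 43 (.thr 32 47 (.thr 44 36 (.dbl 35 34 38)))) (.nv (.thr 0 63 (.thr 3 2 (.thr 48 18 (.thr 15 26 (.dbl 12 4 14))))) (.nv (.thr 32 47 (.thr 35 34 (.thr 44 38 (.dbl 40 36 43)))) (.rp 34 (.thr 0 63 (.thr 32 47 (.thr 48 16 (.dbl 3 2 18)))) .nd))))) (.rp 8 (.str 11 (.nv (.thr 0 63 (.thr 3 2 (.thr 15 7 (.dbl 26 48 56)))) (.nv (.thr 40 43 (.thr 32 47 (.thr 35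 34 (.dbl 44 36 38)))) (.rp 0 (.thr 32 47 (.thr 40 43 (.thr 44 36 (.dbl 35 34 38)))) .nd)))) (.rp 0 (.thr 32 47 (.thr 40 43 (.thr 44 36 (.dbl 35 34 38)))) .nd))))))))))) .nd))))))))))))

theorem w346 : WinAt (137441050656, 9007199255790592) :=
  chF (K := []) kn c346 137441050656 9007199255790592 53
    [] (by decide +kernel) (by decide +kernel)

/-- A certificate. -/
noncomputable def c347 : Ct := (.str 1 (.nv (.thr 13 9 (.thr 25 49 (.thr 61 41 (.dbl 29 17 45)))) (.nv (.thr 41 61 (.thr 33 45 (.thr 49 17 (.dbl 13 9 25)))) (.rp 61 (.str 49 (.nv (.dbl 13 9 25) (.rp 25 (.thr 17 33 (.str 0 (.nv (.thr 42 63 (.thr 32 47 (.thr 48 16 (.dbl 51 34 50)))) (.nv (.thr 51 34 (.thr 2 3 (.thr 48 50 (.thr 26 15 (.dbl 16 31 32))))) (.nv (.thr 51 34 (.thr 48 50 (.thr 32 16 (.dbl 42 47 63)))) (.rp 51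 (.thr 9 13 (.thr 3 2 (.thr 42 63 (.thr 32 47 (.thr 48 16 (.thr 15 26 (.thr 7 11 (.dbl 6 4 12)))))))) (.rp 50 (.thr 9 13 (.thr 3 2 (.thr 6 12 (.thr 4 7 (.thr 38 55 (.thr 34 51 (.dbl 42 46 63))))))) (.rp 48 (.thr 9 13 (.thr 3 2 (.thr 6 12 (.thr 4 7 (.thr 55 38 (.thr 51 34 (.dbl 63 42 59))))))) (.rp 34 (.thr 9 13 (.thr 3 2 (.thr 6 12 (.thr 7 4 (.thr 15 11 (.thr 48 26 (.thr 32 16 (.dbl 42 47 63)))))))) (.rp 32 (.thr 9 13 (.thr 3 2 (.thr 6 12 (.thr 4 7 (.thr 38 55 (.thr 34 51 (.dbl 42 46 63))))))) (.rp 28 (.str 19 (.nv (.thr 42 63 (.thr 32 47 (.dbl 16 18 48))) (.nv (.thr 51 34 (.dbl 3 2 35)) (.rp 32 (.thr 3 2 (.dbl 51 34 35)) .nd)))) (.rp 19 (.str 28 (.nv (.thr 42 63 (.thr 32 47 (.thr 48 16 (.dbl 51 34 50)))) (.nv (.thr 51 34 (.thr 2 3 (.thr 48 50 (.thr 26 15 (.dbl 16 31 32))))) (.nv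 (.thr 51 34 (.thr 48 50 (.thr 32 16 (.dbl 42 47 63)))) (.rp 51 (.thr 9 13 (.thr 3 2 (.thr 42 63 (.thr 32 47 (.thr 48 16 (.thr 15 26 (.thr 7 11 (.dbl 6 4 12)))))))) (.rp 50 (.thr 9 13 (.thr 3 2 (.thr 6 12 (.thr 4 7 (.thr 38 55 (.thr 34 51 (.dbl 42 46 63))))))) (.rp 48 (.thr 9 13 (.thr 3 2 (.thr 6 12 (.thr 4 7 (.thr 55 38 (.thr 51 34 (.dbl 63 42 59))))))) (.rp 34 (.thr 9 13 (.thr 3 2 (.thr 6 12 (.thr 7 4 (.thr 15 11 (.thr 48 26 (.thr 32 16 (.dbl 42 47 63)))))))) (.rp 32 (.thr 9 13 (.thr 3 2 (.thr 6 12 (.thr 4 7 (.thr 38 55 (.thr 34 51 (.dbl 42 46 63))))))) (.rp 16 (.thr 9 13 (.thr 3 2 (.thr 6 12 (.thr 4 7 (.thr 55 38 (.thr 51 34 (.dbl 63 42 59))))))) .nd)))))))))) (.rp 16 (.thr 9 13 (.thr 3 2 (.thr 6 12 (.thr 4 7 (.thr 55 38 (.thr 51 34 (.dbl 63 42 59))))))) .nd))))))))))))) (.rp 13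 (.thr 17 33 (.str 48 (.nv (.thr 29 25 (.thr 26 15 (.thr 16 31 (.thr 0 32 (.dbl 51 34 50))))) (.nv (.thr 15 26 (.thr 51 50 (.thr 39 27 (.thr 38 36 (.dbl 25 12 29))))) (.nv (.thr 51 50 (.thr 0 34 (.thr 32 16 (.dbl 42 47 63)))) (.rp 51 (.thr 29 25 (.thr 26 15 (.thr 16 31 (.thr 0 32 (.thr 63 42 (.thr 12 46 (.thr 8 4 (.thr 24 36 (.thr 40 56 (.dbl 20 28 60)))))))))) (.rp 50 (.thr 29 25 (.thr 26 15 (.thr 16 31 (.thr 0 32 (.thr 63 42 (.thr 12 46 (.thr 36 24 (.thr 38 39 (.dbl 4 8 55))))))))) (.rp 29 (.str 45 (.nv (.thr 26 15 (.thr 51 50 (.thr 0 34 (.thr 2 3 (.dbl 16 31 32))))) (.nv (.thr 51 50 (.thr 0 34 (.thr 32 16 (.dbl 42 47 63)))) (.rp 51 (.str 32 (.nv (.thr 16 0 (.dbl 26 15 31)) (.nv (.thr 0 16 (.dbl 42 47 63)) (.rp 16 (.thr 47 42 (.thr 44 46 (.thr 36 40 (.thr 38 39 (.thr 4 55 (.thr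 52 20 (.thr 60 56 (.dbl 12 24 28)))))))) (.rp 0 (.thr 47 42 (.thr 44 46 (.thr 36 40 (.thr 12 24 (.thr 60 28 (.dbl 15 26 30)))))) .nd))))) (.rp 50 (.thr 26 15 (.thr 16 31 (.thr 32 0 (.thr 19 18 (.thr 47 42 (.thr 44 46 (.thr 36 40 (.thr 12 24 (.thr 38 39 (.thr 51 25 (.dbl 35 3 41))))))))))) (.rp 34 (.thr 51 50 (.thr 15 26 (.thr 39 27 (.thr 38 36 (.thr 55 4 (.thr 63 59 (.thr 47 31 (.dbl 42 0 32)))))))) (.rp 32 (.thr 51 50 (.thr 15 26 (.thr 39 27 (.thr 38 36 (.thr 55 4 (.thr 63 59 (.dbl 0 34 42))))))) (.rp 16 (.thr 51 50 (.thr 0 34 (.thr 63 42 (.thr 55 59 (.thr 38 4 (.thr 36 39 (.dbl 12 24 25))))))) (.rp 2 (.thr 51 50 (.thr 26 15 (.thr 16 31 (.dbl 0 32 34)))) (.rp 0 (.thr 51 50 (.thr 15 26 (.thr 39 27 (.thr 38 36 (.thr 55 4 (.thr 23 7 (.thr 63 59 (.thr 47 31 (.dbl 43 3 35))))))))) .nd))))))))))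 .nd)))))))) (.rp 9 (.thr 17 33 (.dbl 25 13 29)) .nd))))) (.rp 49 (.thr 61 41 (.str 63 (.nv (.thr 13 9 (.thr 29 45 (.thr 12 46 (.thr 15 14 (.thr 26 48 (.dbl 31 16 47)))))) (.nv (.thr 42 0 (.thr 47 32 (.thr 15 31 (.thr 60 62 (.thr 45 30 (.dbl 13 9 29)))))) (.nv (.thr 13 9 (.thr 29 45 (.thr 12 46 (.thr 25 17 (.thr 42 0 (.thr 51 38 (.dbl 59 8 55))))))) (.nv (.thr 60 62 (.thr 42 0 (.thr 13 9 (.thr 45 29 (.thr 47 32 (.dbl 15 30 31)))))) (.rp 60 (.str 3 (.nv (.dbl 0 2 42) (.rp 42 (.thr 13 9 (.thr 29 45 (.thr 12 46 (.thr 15 14 (.thr 26 48 (.dbl 31 16 47)))))) (.rp 2 (.thr 13 9 (.thr 29 45 (.thr 12 46 (.thr 42 0 (.thr 47 32 (.dbl 15 14 31)))))) (.rp 0 (.thr 13 9 (.thr 29 45 (.thr 12 46 (.thr 15 14 (.thr 26 48 (.dbl 31 16 47)))))) .nd))))) (.rp 47 (.thr 13 9 (.thr 29 45 (.thr 25 17 (.thr 60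 62 (.thr 12 46 (.thr 44 28 (.thr 51 38 (.thr 59 55 (.dbl 42 0 8))))))))) (.rp 45 (.thr 13 9 (.thr 42 0 (.thr 47 32 (.thr 15 31 (.thr 12 14 (.thr 29 46 (.thr 25 17 (.thr 51 38 (.dbl 59 8 55))))))))) (.rp 29 (.thr 9 13 (.thr 0 42 (.thr 62 60 (.thr 3 2 (.thr 6 12 (.thr 7 4 (.thr 15 11 (.thr 31 47 (.dbl 26 16 48))))))))) (.rp 13 (.thr 60 62 (.thr 42 0 (.thr 47 32 (.thr 15 31 (.thr 45 30 (.thr 46 44 (.thr 38 34 (.thr 55 4 (.thr 51 59 (.dbl 39 27 36)))))))))) (.rp 9 (.thr 60 62 (.thr 42 0 (.thr 47 32 (.thr 15 31 (.thr 45 30 (.thr 29 13 (.dbl 46 12 44))))))) .nd)))))))))))) (.rp 45 (.str 0 (.nv (.thr 13 9 (.thr 49 25 (.thr 17 33 (.thr 51 34 (.thr 48 50 (.thr 26 15 (.dbl 16 31 32))))))) (.nv (.thr 3 2 (.thr 9 13 (.thr 6 12 (.thr 7 4 (.thr 15 11 (.thr 26 48 (.thr 31 16 (.dbl 63 42 47))))))))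 (.nv (.thr 3 2 (.thr 42 63 (.thr 32 47 (.thr 48 16 (.thr 33 18 (.thr 34 35 (.dbl 17 49 51))))))) (.nv (.thr 13 9 (.thr 25 49 (.thr 17 29 (.thr 42 63 (.thr 8 59 (.thr 51 34 (.dbl 12 4 38))))))) (.rp 48 (.thr 13 9 (.thr 25 49 (.thr 17 29 (.thr 51 34 (.thr 12 38 (.thr 8 4 (.dbl 42 59 63))))))) .nd)))))) (.rp 41 (.str 25 (.nv (.dbl 13 9 49) (.rp 60 (.str 3 (.nv (.dbl 13 9 49) (.rp 49 (.thr 9 13 (.thr 17 29 (.thr 0 2 (.thr 51 34 (.dbl 12 6 38))))) (.rp 13 (.thr 17 29 (.thr 33 49 (.thr 0 2 (.thr 42 63 (.thr 32 47 (.dbl 48 16 18)))))) (.rp 9 (.thr 49 13 (.dbl 17 29 33)) .nd))))) (.rp 49 (.str 0 (.nv (.thr 3 2 (.thr 9 13 (.thr 42 63 (.thr 8 59 (.dbl 12 4 6))))) (.nv (.thr 3 2 (.thr 9 13 (.thr 17 29 (.thr 51 34 (.dbl 12 6 38))))) (.nv (.thr 17 29 (.thr 51 34 (.thr 38 12 (.thr 55 4 (.dbl 63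 42 59))))) (.rp 61 (.str 57 (.nv (.thr 3 2 (.thr 17 29 (.thr 51 34 (.thr 12 38 (.dbl 9 6 13))))) (.nv (.thr 3 2 (.thr 42 63 (.thr 8 59 (.thr 12 4 (.dbl 9 6 13))))) (.nv (.thr 17 29 (.thr 51 34 (.thr 38 12 (.thr 55 4 (.dbl 63 42 59))))) (.rp 51 (.thr 29 17 (.thr 9 13 (.thr 63 42 (.thr 12 46 (.dbl 3 2 6))))) (.rp 42 (.thr 17 29 (.thr 51 34 (.thr 38 12 (.thr 4 55 (.thr 7 6 (.thr 39 36 (.thr 15 27 (.dbl 3 2 11)))))))) (.rp 13 (.thr 29 17 (.thr 63 42 (.thr 12 46 (.thr 4 8 (.dbl 38 51 55))))) (.rp 12 (.thr 3 2 (.thr 42 63 (.thr 32 47 (.thr 48 16 (.thr 33 18 (.thr 34 35 (.dbl 17 29 51))))))) (.rp 3 (.str 60 (.nv (.thr 42 63 (.thr 8 59 (.thr 12 4 (.dbl 51 38 54)))) (.nv (.thr 17 29 (.dbl 51 34 54)) (.rp 54 (.thr 29 17 (.thr 63 42 (.thr 12 46 (.thr 4 8 (.dbl 38 51 55))))) (.rp 51 (.thr 42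 63 (.thr 59 8 (.thr 56 58 (.thr 48 52 (.dbl 32 16 47))))) .nd))))) .nd))))))))) (.rp 57 (.str 61 (.nv (.thr 29 17 (.dbl 13 9 45)) (.rp 60 (.thr 3 2 (.thr 29 17 (.dbl 13 9 45))) (.rp 45 (.thr 17 29 (.thr 9 13 (.thr 3 2 (.thr 51 34 (.dbl 12 6 38))))) (.rp 29 (.thr 9 13 (.thr 3 2 (.thr 42 63 (.thr 8 59 (.dbl 12 4 6))))) (.rp 17 (.thr 9 13 (.thr 3 2 (.thr 42 63 (.thr 8 59 (.dbl 12 4 6))))) (.rp 13 (.thr 17 29 (.thr 51 34 (.thr 12 38 (.thr 8 4 (.dbl 42 59 63))))) (.rp 9 (.thr 17 29 (.thr 51 34 (.thr 12 38 (.thr 8 4 (.dbl 42 59 63))))) (.rp 3 (.str 60 (.nv (.thr 13 9 (.dbl 29 17 45)) (.nv (.dbl 63 42 62) .nd))) .nd))))))))) (.rp 51 (.thr 29 17 (.thr 9 13 (.thr 63 42 (.thr 12 46 (.dbl 3 2 6))))) (.rp 42 (.thr 17 29 (.thr 51 34 (.thr 38 12 (.thr 4 55 (.thr 7 6 (.thr 39 36 (.thr 15 27 (.dbl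 3 2 11)))))))) (.rp 12 (.thr 3 2 (.thr 42 63 (.thr 32 47 (.thr 48 16 (.thr 33 18 (.thr 34 35 (.dbl 17 29 51))))))) (.rp 3 (.str 60 (.nv (.thr 17 29 (.thr 51 34 (.thr 38 12 (.thr 4 55 (.thr 36 39 (.dbl 20 40 52)))))) (.nv (.thr 17 29 (.thr 42 63 (.thr 8 59 (.thr 12 4 (.dbl 51 34 38))))) (.nv (.thr 13 9 (.thr 29 17 (.thr 61 45 (.dbl 63 42 62)))) (.rp 63 (.thr 13 9 (.thr 17 29 (.thr 51 34 (.thr 12 38 (.thr 15 14 (.thr 27 39 (.dbl 26 24 48))))))) (.rp 61 (.str 57 (.nv (.thr 42 63 (.thr 8 59 (.thr 12 4 (.dbl 51 38 54)))) (.nv (.thr 17 29 (.dbl 51 34 54)) (.rp 54 (.thr 29 17 (.thr 63 42 (.thr 12 46 (.thr 4 8 (.dbl 38 51 55))))) (.rp 51 (.thr 42 63 (.thr 59 8 (.thr 56 58 (.thr 48 52 (.dbl 32 16 47))))) .nd))))) (.rp 57 (.str 61 (.nv (.thr 13 9 (.dbl 29 17 45)) (.nv (.dbl 63 42 62) .nd)))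 (.rp 29 (.thr 40 20 (.thr 42 63 (.thr 32 47 (.thr 48 16 (.thr 56 52 (.dbl 8 24 59)))))) (.rp 17 (.thr 20 40 (.thr 42 63 (.thr 8 59 (.thr 4 12 (.thr 36 52 (.dbl 38 39 55)))))) (.rp 12 (.thr 40 20 (.thr 42 63 (.thr 32 47 (.thr 48 16 (.thr 56 52 (.dbl 8 24 59)))))) .nd)))))))))) .nd)))))))))) (.rp 13 (.str 3 (.nv (.thr 0 2 (.thr 17 29 (.thr 51 34 (.thr 12 38 (.thr 4 8 (.dbl 6 7 9)))))) (.nv (.thr 0 2 (.thr 42 63 (.thr 32 47 (.thr 48 16 (.thr 33 18 (.dbl 17 29 49)))))) (.nv (.thr 17 29 (.thr 33 49 (.thr 48 18 (.thr 26 15 (.thr 16 31 (.dbl 0 2 32)))))) (.nv (.thr 0 2 (.thr 42 63 (.thr 8 59 (.thr 12 4 (.thr 17 29 (.dbl 51 34 38)))))) (.rp 29 (.thr 0 2 (.thr 42 63 (.thr 32 47 (.thr 48 16 (.thr 33 18 (.thr 17 49 (.dbl 34 35 51))))))) (.rp 17 (.thr 0 2 (.thr 42 63 (.thr 32 47 (.thr 48 16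 (.thr 8 59 (.thr 12 4 (.thr 36 24 (.dbl 38 39 51)))))))) (.rp 14 (.thr 17 29 (.thr 33 49 (.thr 18 48 (.thr 19 16 (.thr 51 35 (.dbl 0 2 34)))))) (.rp 2 (.thr 17 29 (.thr 33 49 (.thr 48 18 (.thr 26 15 (.thr 24 27 (.thr 12 36 (.thr 51 38 (.thr 35 19 (.dbl 34 0 32))))))))) (.rp 0 (.thr 17 29 (.thr 33 49 (.thr 48 18 (.thr 26 15 (.thr 24 27 (.thr 12 36 (.thr 6 9 (.thr 4 7 (.dbl 38 51 55))))))))) .nd)))))))))) (.rp 9 (.thr 17 29 (.dbl 49 13 33)) (.rp 3 (.str 60 (.nv (.dbl 13 9 49) (.rp 49 (.thr 13 9 (.thr 29 17 (.thr 61 45 (.thr 63 62 (.thr 42 0 (.thr 47 32 (.thr 15 31 (.dbl 12 14 46)))))))) (.rp 13 (.str 48 (.nv (.thr 15 26 (.thr 29 17 (.thr 30 45 (.thr 31 28 (.thr 63 47 (.thr 46 12 (.dbl 62 14 61))))))) (.nv (.thr 26 15 (.thr 24 27 (.thr 12 36 (.thr 28 44 (.dbl 16 20 31))))) (.nv (.thr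 17 29 (.thr 49 33 (.thr 51 50 (.thr 0 34 (.thr 32 16 (.dbl 42 47 63)))))) .nd)))) (.rp 9 (.thr 49 13 (.dbl 17 29 33)) .nd))))) .nd))))))) (.rp 29 (.thr 13 9 (.thr 49 25 (.thr 33 17 (.dbl 41 45 61)))) (.rp 25 (.thr 9 13 (.str 6 (.nv (.thr 3 12 (.thr 0 2 (.thr 41 61 (.thr 42 63 (.thr 32 47 (.thr 48 16 (.dbl 33 18 45))))))) (.nv (.thr 7 4 (.thr 3 12 (.thr 15 11 (.thr 48 26 (.thr 41 61 (.dbl 33 18 45)))))) (.nv (.thr 3 12 (.thr 0 2 (.thr 42 63 (.thr 7 4 (.thr 32 47 (.thr 15 11 (.dbl 48 16 26))))))) (.rp 58 (.thr 7 4 (.thr 3 12 (.thr 0 2 (.thr 15 11 (.thr 48 26 (.thr 42 63 (.dbl 32 16 47))))))) (.rp 51 (.thr 4 7 (.thr 38 55 (.thr 39 36 (.thr 41 61 (.thr 35 44 (.thr 47 43 (.thr 32 42 (.dbl 33 34 45)))))))) (.rp 48 (.thr 4 7 (.thr 38 55 (.thr 39 36 (.thr 41 61 (.thr 35 44 (.thr 47 43 (.thr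 32 42 (.dbl 33 34 45)))))))) (.rp 42 (.thr 7 4 (.thr 3 12 (.thr 15 11 (.thr 26 48 (.thr 31 16 (.thr 63 47 (.thr 23 43 (.thr 39 55 (.dbl 27 19 51))))))))) (.rp 38 (.thr 4 7 (.thr 12 3 (.thr 0 8 (.thr 41 61 (.thr 42 63 (.thr 32 47 (.thr 48 16 (.thr 36 24 (.dbl 40 43 44))))))))) (.rp 29 (.thr 7 4 (.thr 3 12 (.thr 0 2 (.thr 15 11 (.thr 48 26 (.thr 32 16 (.dbl 42 47 63))))))) (.rp 28 (.str 19 (.nv (.thr 3 12 (.thr 0 2 (.thr 7 4 (.thr 15 11 (.thr 26 48 (.thr 31 16 (.dbl 63 42 47))))))) (.nv (.thr 4 7 (.thr 38 55 (.thr 41 61 (.thr 35 44 (.dbl 3 12 51))))) (.nv (.thr 3 12 (.thr 51 35 (.thr 0 2 (.thr 17 34 (.thr 18 16 (.dbl 33 48 49)))))) (.nv (.thr 3 12 (.thr 4 7 (.thr 41 61 (.thr 35 51 (.dbl 38 44 55))))) (.rp 60 (.thr 4 7 (.thr 38 55 (.thr 41 61 (.thr 44 35 (.thr 45 33 (.thr 47 46 (.thr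 32 42 (.dbl 36 39 40)))))))) (.rp 51 (.thr 4 7 (.thr 38 55 (.thr 39 36 (.thr 41 61 (.thr 35 44 (.thr 47 43 (.thr 32 42 (.dbl 33 34 45)))))))) (.rp 44 (.thr 4 7 (.thr 38 55 (.thr 12 3 (.thr 0 8 (.thr 42 63 (.thr 32 47 (.thr 48 16 (.dbl 36 24 39)))))))) (.rp 12 (.thr 4 7 (.thr 38 55 (.thr 41 61 (.thr 44 35 (.thr 45 33 (.thr 47 46 (.thr 32 42 (.dbl 36 39 40)))))))) (.rp 3 (.thr 4 7 (.thr 38 55 (.thr 39 36 (.thr 41 61 (.thr 35 44 (.thr 47 43 (.thr 32 42 (.dbl 33 34 45)))))))) .nd)))))))))) (.rp 19 (.str 28 (.nv (.thr 3 12 (.thr 0 2 (.thr 41 61 (.thr 42 63 (.thr 32 47 (.thr 48 16 (.dbl 33 18 45))))))) (.nv (.thr 3 12 (.thr 0 2 (.thr 7 4 (.thr 15 11 (.thr 26 48 (.thr 31 16 (.dbl 63 42 47))))))) (.nv (.thr 4 7 (.thr 12 3 (.thr 38 55 (.thr 44 60 (.dbl 41 35 61))))) (.rp 51 (.thr 41 61 (.thr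 4 7 (.thr 38 55 (.thr 35 44 (.thr 39 36 (.thr 47 43 (.thr 32 42 (.dbl 33 34 45)))))))) (.rp 38 (.thr 41 61 (.thr 12 3 (.thr 60 44 (.thr 4 7 (.thr 0 8 (.thr 40 20 (.dbl 42 43 63))))))) (.rp 15 (.thr 41 61 (.thr 4 7 (.thr 38 55 (.thr 44 35 (.dbl 12 3 60))))) (.rp 12 (.thr 41 61 (.thr 45 33 (.thr 4 7 (.thr 38 55 (.thr 44 35 (.thr 47 46 (.thr 32 42 (.dbl 36 39 40)))))))) (.rp 3 (.thr 41 61 (.thr 4 7 (.thr 38 55 (.thr 35 44 (.thr 39 36 (.thr 47 43 (.thr 32 42 (.dbl 33 34 45)))))))) .nd))))))))) (.rp 15 (.thr 4 7 (.thr 38 55 (.thr 39 36 (.thr 41 61 (.thr 35 44 (.thr 47 43 (.thr 32 42 (.dbl 33 34 45)))))))) (.rp 12 (.thr 4 7 (.thr 38 55 (.thr 39 36 (.thr 41 61 (.thr 35 44 (.thr 47 43 (.thr 32 42 (.dbl 33 34 45)))))))) (.rp 3 (.thr 4 7 (.thr 38 55 (.thr 39 36 (.thr 41 61 (.thr 35 44 (.thr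 47 43 (.thr 32 42 (.dbl 33 34 45)))))))) (.rp 0 (.thr 4 7 (.thr 38 55 (.thr 39 36 (.thr 41 61 (.thr 35 44 (.thr 47 43 (.thr 32 42 (.dbl 33 34 45)))))))) .nd))))))))))))))))) (.rp 17 (.str 4 (.nv (.thr 13 9 (.thr 25 49 (.thr 38 55 (.thr 12 51 (.thr 15 14 (.thr 48 26 (.dbl 36 24 39))))))) (.nv (.thr 6 7 (.thr 38 55 (.thr 9 13 (.thr 12 3 (.thr 41 61 (.dbl 25 51 57)))))) (.rp 61 (.thr 6 7 (.thr 38 55 (.thr 9 13 (.thr 12 3 (.thr 0 8 (.thr 42 63 (.thr 32 47 (.thr 48 16 (.dbl 36 24 39))))))))) (.rp 57 (.thr 38 55 (.thr 36 39 (.thr 13 9 (.thr 25 49 (.thr 61 41 (.thr 12 51 (.thr 15 14 (.dbl 48 24 26)))))))) (.rp 55 (.thr 6 7 (.thr 9 13 (.thr 3 12 (.thr 0 2 (.thr 41 61 (.thr 42 63 (.thr 32 47 (.thr 48 16 (.dbl 33 18 45))))))))) (.rp 54 (.thr 6 7 (.thr 9 13 (.thr 3 12 (.thr 0 2 (.thr 41 61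 (.thr 42 63 (.thr 32 47 (.thr 48 16 (.dbl 33 18 45))))))))) (.rp 52 (.thr 6 7 (.thr 9 13 (.thr 3 12 (.thr 0 2 (.thr 41 61 (.thr 42 63 (.thr 32 47 (.thr 48 16 (.dbl 33 18 45))))))))) (.rp 51 (.thr 38 55 (.thr 36 39 (.thr 41 61 (.thr 45 33 (.thr 44 35 (.thr 47 46 (.dbl 32 40 42))))))) (.rp 49 (.thr 6 7 (.thr 38 55 (.thr 9 13 (.thr 12 3 (.thr 25 51 (.dbl 41 57 61)))))) (.rp 39 (.thr 38 55 (.thr 13 9 (.thr 25 49 (.thr 12 51 (.thr 61 41 (.thr 29 45 (.thr 63 46 (.dbl 0 8 42)))))))) (.rp 38 (.thr 6 7 (.thr 9 13 (.thr 3 12 (.thr 0 2 (.thr 41 61 (.thr 42 63 (.thr 32 47 (.thr 48 16 (.dbl 33 18 45))))))))) (.rp 25 (.thr 38 55 (.thr 36 39 (.thr 41 61 (.thr 45 33 (.thr 44 35 (.thr 47 46 (.dbl 32 40 42))))))) (.rp 15 (.thr 38 55 (.thr 36 39 (.thr 41 61 (.thr 45 33 (.thr 44 35 (.thr 47 46 (.dbl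 32 40 42))))))) (.rp 13 (.thr 38 55 (.thr 36 39 (.thr 41 61 (.thr 45 33 (.thr 44 35 (.thr 47 46 (.dbl 32 40 42))))))) (.rp 12 (.thr 38 55 (.thr 36 39 (.thr 41 61 (.thr 45 33 (.thr 44 35 (.thr 47 46 (.dbl 32 40 42))))))) (.rp 11 (.thr 38 55 (.thr 36 39 (.thr 41 61 (.thr 45 33 (.thr 44 35 (.thr 47 46 (.dbl 32 40 42))))))) (.rp 9 (.thr 38 55 (.thr 36 39 (.thr 41 61 (.thr 45 33 (.thr 44 35 (.thr 47 46 (.dbl 32 40 42))))))) (.rp 6 (.thr 38 55 (.thr 36 39 (.thr 13 9 (.thr 25 49 (.thr 12 51 (.thr 48 24 (.dbl 15 14 26))))))) .nd))))))))))))))))))) (.rp 13 (.str 42 (.nv (.thr 0 63 (.thr 3 2 (.thr 32 47 (.thr 48 16 (.thr 33 18 (.thr 34 35 (.dbl 17 49 51))))))) (.nv (.thr 0 63 (.thr 3 2 (.thr 32 47 (.thr 48 16 (.thr 33 18 (.dbl 41 45 61)))))) (.nv (.thr 41 61 (.thr 45 33 (.thr 43 40 (.thr 47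 32 (.thr 35 39 (.dbl 44 38 46)))))) (.rp 47 (.thr 0 63 (.thr 3 2 (.thr 41 61 (.thr 45 33 (.thr 40 43 (.thr 60 20 (.thr 15 30 (.thr 11 7 (.dbl 26 48 56))))))))) (.rp 33 (.thr 47 32 (.thr 63 0 (.thr 15 31 (.thr 41 61 (.thr 43 40 (.thr 3 23 (.thr 11 7 (.dbl 26 48 56)))))))) (.rp 32 (.thr 0 63 (.thr 3 2 (.thr 41 61 (.thr 45 33 (.thr 40 43 (.thr 60 20 (.thr 15 30 (.thr 11 7 (.dbl 26 48 56))))))))) .nd))))))) (.rp 9 (.str 42 (.nv (.thr 0 63 (.thr 3 2 (.thr 32 47 (.thr 48 16 (.thr 33 18 (.thr 34 35 (.dbl 17 49 51))))))) (.nv (.thr 0 63 (.thr 3 2 (.thr 32 47 (.thr 48 16 (.thr 33 18 (.dbl 41 45 61)))))) (.nv (.thr 41 61 (.thr 43 40 (.thr 45 33 (.thr 47 32 (.thr 35 39 (.dbl 44 38 46)))))) (.rp 47 (.thr 0 63 (.thr 3 2 (.thr 41 61 (.thr 33 45 (.thr 48 18 (.thr 16 32 (.dbl 26 15 31))))))) (.rp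 33 (.thr 47 32 (.thr 63 0 (.thr 15 31 (.thr 41 61 (.thr 43 40 (.thr 3 23 (.thr 11 7 (.dbl 26 48 56)))))))) (.rp 32 (.thr 0 63 (.thr 3 2 (.thr 41 61 (.thr 45 33 (.thr 40 43 (.thr 60 20 (.thr 15 30 (.thr 11 7 (.dbl 26 48 56))))))))) (.rp 11 (.str 8 (.nv (.thr 41 61 (.thr 33 45 (.thr 49 17 (.dbl 25 13 59)))) (.nv (.thr 0 63 (.thr 12 4 (.thr 25 59 (.thr 17 29 (.dbl 51 34 38))))) (.nv (.thr 25 59 (.thr 17 29 (.dbl 49 13 33))) (.rp 59 (.thr 47 32 (.thr 41 61 (.thr 43 40 (.thr 35 39 (.thr 44 38 (.dbl 45 33 46)))))) (.rp 29 (.thr 25 59 (.thr 49 13 (.thr 33 17 (.dbl 41 45 61)))) (.rp 25 (.thr 47 32 (.thr 41 61 (.thr 43 40 (.thr 35 39 (.thr 44 38 (.dbl 45 33 46)))))) (.rp 17 (.thr 47 32 (.thr 41 61 (.thr 43 40 (.thr 35 39 (.thr 44 38 (.dbl 45 33 46)))))) .nd)))))))) (.rp 8 (.str 11 (.nv (.thr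 0 63 (.thr 3 2 (.thr 15 7 (.thr 41 61 (.dbl 26 48 56))))) (.nv (.thr 0 63 (.thr 32 47 (.thr 41 61 (.thr 33 45 (.thr 34 35 (.dbl 17 49 51)))))) (.nv (.thr 0 63 (.thr 3 2 (.thr 15 7 (.thr 32 47 (.dbl 48 16 26))))) (.rp 63 (.thr 47 32 (.thr 41 61 (.thr 45 33 (.thr 44 46 (.thr 35 38 (.dbl 43 39 40)))))) (.rp 58 (.thr 47 32 (.thr 63 0 (.thr 15 31 (.thr 41 61 (.dbl 26 48 56))))) (.rp 48 (.thr 47 32 (.thr 41 61 (.thr 45 33 (.thr 44 46 (.thr 35 38 (.dbl 43 39 40)))))) (.rp 15 (.thr 47 32 (.thr 41 61 (.thr 45 33 (.thr 44 46 (.thr 35 38 (.dbl 43 39 40)))))) (.rp 0 (.thr 47 32 (.thr 41 61 (.thr 45 33 (.thr 44 46 (.thr 35 38 (.dbl 43 39 40)))))) .nd))))))))) .nd))))))))) .nd))))))))))))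

theorem w347 : WinAt (137441050656, 9007199258936320) :=
  chF (K := []) kn c347 137441050656 9007199258936320 53
    [] (by decide +kernel) (by decide +kernel)

/-- A certificate. -/
noncomputable def c348 : Ct := (.str 13 (.nv (.thr 25 49 (.thr 29 17 (.thr 61 45 (.dbl 1 9 41)))) (.nv (.thr 1 9 (.thr 61 41 (.thr 25 49 (.dbl 29 17 45)))) (.rp 61 (.thr 49 25 (.str 0 (.nv (.thr 1 9 (.thr 3 2 (.thr 33 17 (.thr 48 18 (.thr 16 32 (.dbl 26 15 31)))))) (.nv (.thr 42 63 (.thr 32 47 (.thr 48 16 (.thr 51 50 (.thr 17 34 (.dbl 1 9 33)))))) (.nv (.thr 1 9 (.thr 3 2 (.thr 33 17 (.thr 41 45 (.thr 60 22 (.thr 40 20 (.dbl 42 43 63))))))) (.nv (.thr 1 9 (.thr 17 33 (.thr 51 34 (.thr 48 50 (.thr 32 16 (.dbl 42 47 63)))))) (.rp 33 (.thr 9 1 (.thr 42 63 (.thr 32 47 (.thr 48 16 (.thr 15 26 (.thr 12 14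 (.thr 4 8 (.dbl 6 3 7)))))))) (.rp 17 (.thr 9 1 (.thr 42 63 (.thr 32 47 (.thr 48 16 (.thr 15 26 (.thr 12 14 (.thr 4 8 (.dbl 6 3 7)))))))) (.rp 9 (.thr 42 63 (.thr 32 47 (.thr 48 16 (.thr 51 50 (.thr 34 17 (.thr 15 26 (.thr 38 46 (.dbl 39 27 36)))))))) (.rp 2 (.thr 1 9 (.thr 17 33 (.thr 51 34 (.thr 42 63 (.thr 32 47 (.dbl 48 16 50)))))) (.rp 1 (.thr 42 63 (.thr 32 47 (.thr 48 16 (.thr 51 50 (.thr 34 17 (.thr 15 26 (.thr 38 46 (.dbl 39 27 36)))))))) .nd))))))))))) (.rp 49 (.str 61 (.nv (.dbl 1 9 41) (.rp 41 (.str 15 (.nv (.thr 12 14 (.thr 29 45 (.thr 63 46 (.thr 42 0 (.dbl 47 31 32))))) (.nv (.thr 12 14 (.thr 29 45 (.thr 25 17 (.thr 38 51 (.thr 36 39 (.dbl 48 24 26)))))) (.nv (.thr 45 29 (.thr 60 30 (.thr 63 62 (.thr 31 47 (.dbl 26 16 48))))) (.rp 45 (.thr 9 1 (.thr 12 14 (.thr 6 3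 (.thr 4 7 (.thr 38 55 (.thr 39 36 (.dbl 51 25 27))))))) (.rp 29 (.thr 9 1 (.thr 12 14 (.thr 6 3 (.thr 4 7 (.thr 38 55 (.thr 39 36 (.dbl 51 25 27))))))) (.rp 14 (.thr 45 29 (.thr 60 30 (.thr 26 48 (.thr 31 16 (.dbl 63 47 62))))) .nd))))))) (.rp 9 (.thr 45 29 (.dbl 41 1 33)) (.rp 1 (.thr 45 29 (.thr 33 41 (.str 15 (.nv (.thr 60 30 (.thr 63 62 (.thr 42 0 (.dbl 47 31 32)))) (.nv (.thr 12 14 (.thr 48 26 (.thr 3 18 (.thr 6 9 (.dbl 7 4 11))))) (.nv (.thr 60 30 (.thr 63 62 (.thr 31 47 (.dbl 26 16 48)))) (.rp 30 (.thr 12 14 (.thr 26 48 (.thr 31 16 (.thr 63 47 (.thr 0 42 (.thr 4 8 (.thr 38 55 (.thr 39 36 (.dbl 51 25 27))))))))) (.rp 14 (.thr 60 30 (.thr 26 48 (.thr 31 16 (.dbl 63 47 62)))) .nd)))))))) .nd))))) (.rp 45 (.str 7 (.nv (.thr 4 6 (.thr 52 22 (.thr 38 55 (.dbl 36 20 39)))) (.rp 55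 (.thr 6 4 (.thr 9 1 (.thr 12 3 (.thr 25 49 (.thr 38 51 (.dbl 22 52 54)))))) (.rp 52 (.thr 6 4 (.thr 9 1 (.thr 12 3 (.thr 15 14 (.thr 25 49 (.thr 38 51 (.thr 36 39 (.dbl 48 24 26)))))))) (.rp 39 (.thr 6 4 (.thr 22 52 (.thr 9 1 (.thr 12 3 (.thr 25 49 (.dbl 38 51 54)))))) (.rp 38 (.thr 6 4 (.thr 22 52 (.thr 9 1 (.thr 3 12 (.thr 41 60 (.dbl 25 49 57)))))) (.rp 36 (.thr 6 4 (.thr 9 1 (.thr 12 3 (.thr 25 49 (.thr 38 51 (.dbl 22 52 54)))))) (.rp 22 (.thr 4 6 (.thr 38 55 (.thr 36 39 (.thr 25 49 (.thr 12 51 (.thr 48 24 (.dbl 15 14 26))))))) (.rp 20 (.thr 6 4 (.thr 9 1 (.thr 12 3 (.thr 25 49 (.thr 38 51 (.dbl 22 52 54)))))) (.rp 14 (.thr 6 4 (.thr 22 52 (.thr 9 1 (.thr 12 3 (.thr 25 49 (.dbl 38 51 54)))))) (.rp 6 (.thr 22 52 (.thr 1 9 (.thr 41 61 (.thr 3 60 (.thr 49 25 (.thr 33 17 (.thr 48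 18 (.dbl 15 11 26)))))))) (.rp 4 (.thr 22 52 (.thr 1 9 (.thr 41 61 (.thr 3 60 (.thr 49 25 (.thr 33 17 (.thr 48 18 (.dbl 15 11 26)))))))) (.rp 2 (.thr 6 4 (.thr 22 52 (.thr 9 1 (.thr 3 12 (.thr 41 60 (.dbl 25 49 57)))))) .nd))))))))))))) (.rp 41 (.str 15 (.nv (.thr 12 14 (.thr 48 26 (.thr 36 24 (.thr 38 39 (.dbl 25 49 51))))) (.nv (.thr 1 9 (.thr 25 49 (.thr 26 48 (.thr 29 17 (.thr 31 16 (.thr 30 28 (.dbl 45 60 61))))))) (.nv (.thr 12 14 (.thr 25 49 (.thr 29 17 (.thr 63 46 (.thr 47 31 (.dbl 42 0 32)))))) (.nv (.thr 12 14 (.thr 26 48 (.thr 25 49 (.thr 27 24 (.dbl 51 38 39))))) (.rp 49 (.thr 9 1 (.thr 12 14 (.thr 6 3 (.thr 4 7 (.thr 38 55 (.thr 39 36 (.dbl 51 25 27))))))) (.rp 25 (.thr 12 14 (.thr 26 48 (.thr 31 16 (.thr 63 47 (.thr 29 46 (.thr 45 61 (.dbl 30 28 60))))))) .nd)))))))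 (.rp 29 (.thr 1 9 (.thr 41 61 (.thr 33 45 (.dbl 49 17 25)))) (.rp 25 (.str 7 (.nv (.thr 4 6 (.thr 38 55 (.thr 36 39 (.dbl 52 20 22)))) (.rp 55 (.thr 9 1 (.thr 6 4 (.thr 3 12 (.thr 15 11 (.thr 48 26 (.thr 33 18 (.thr 41 45 (.dbl 22 52 60)))))))) (.rp 54 (.thr 4 6 (.thr 38 55 (.thr 52 22 (.dbl 36 20 39)))) (.rp 52 (.thr 9 1 (.thr 6 4 (.thr 12 3 (.thr 15 14 (.thr 26 48 (.thr 31 16 (.thr 63 47 (.thr 29 46 (.thr 45 61 (.dbl 30 28 60)))))))))) (.rp 39 (.thr 1 9 (.thr 41 61 (.thr 33 45 (.thr 22 52 (.thr 3 60 (.thr 48 18 (.dbl 15 11 26))))))) (.rp 38 (.thr 1 9 (.thr 41 61 (.thr 33 45 (.thr 22 52 (.thr 3 60 (.thr 48 18 (.dbl 15 11 26))))))) (.rp 36 (.thr 1 9 (.thr 41 61 (.thr 33 45 (.thr 22 52 (.thr 3 60 (.thr 48 18 (.dbl 15 11 26))))))) (.rp 22 (.thr 1 9 (.thr 41 61 (.thr 45 33 (.thr 4 6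 (.thr 38 55 (.thr 36 39 (.thr 44 35 (.thr 32 40 (.dbl 47 42 46))))))))) (.rp 20 (.thr 1 9 (.thr 41 61 (.thr 33 45 (.thr 22 52 (.thr 3 60 (.thr 48 18 (.dbl 15 11 26))))))) (.rp 14 (.thr 1 9 (.thr 41 61 (.thr 33 45 (.thr 22 52 (.thr 3 60 (.thr 48 18 (.dbl 15 11 26))))))) (.rp 6 (.thr 1 9 (.thr 41 61 (.thr 33 45 (.thr 22 52 (.thr 3 60 (.thr 48 18 (.dbl 15 11 26))))))) (.rp 4 (.thr 1 9 (.thr 41 61 (.thr 33 45 (.thr 22 52 (.thr 3 60 (.thr 48 18 (.dbl 15 11 26))))))) (.rp 2 (.thr 1 9 (.thr 41 61 (.thr 33 45 (.thr 22 52 (.thr 3 60 (.thr 48 18 (.dbl 15 11 26))))))) .nd)))))))))))))) (.rp 17 (.str 7 (.nv (.thr 6 4 (.thr 9 1 (.thr 3 12 (.thr 22 52 (.thr 41 60 (.dbl 25 49 57)))))) (.nv (.thr 4 6 (.thr 52 22 (.thr 38 55 (.dbl 36 20 39)))) (.rp 55 (.thr 9 1 (.thr 6 4 (.thr 3 12 (.thr 22 52 (.thr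 54 38 (.thr 41 60 (.dbl 25 49 57))))))) (.rp 52 (.thr 9 1 (.thr 6 4 (.thr 3 12 (.thr 15 11 (.thr 48 26 (.thr 25 49 (.thr 33 18 (.dbl 41 45 57)))))))) (.rp 36 (.thr 1 9 (.thr 41 61 (.thr 33 45 (.thr 22 52 (.thr 3 60 (.thr 48 18 (.dbl 15 11 26))))))) (.rp 22 (.thr 25 49 (.thr 4 6 (.thr 38 55 (.thr 36 39 (.thr 12 51 (.thr 48 24 (.dbl 15 14 26))))))) (.rp 20 (.thr 1 9 (.thr 41 61 (.thr 33 45 (.thr 22 52 (.thr 3 60 (.thr 48 18 (.dbl 15 11 26))))))) (.rp 6 (.thr 1 9 (.thr 41 61 (.thr 33 45 (.thr 22 52 (.thr 3 60 (.thr 48 18 (.dbl 15 11 26))))))) (.rp 4 (.thr 1 9 (.thr 41 61 (.thr 33 45 (.thr 22 52 (.thr 3 60 (.thr 48 18 (.dbl 15 11 26))))))) .nd)))))))))) (.rp 9 (.thr 25 49 (.thr 29 17 (.thr 61 45 (.thr 1 41 (.str 12 (.nv (.thr 15 14 (.thr 26 48 (.thr 31 16 (.dbl 63 46 47)))) (.nv (.thr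 15 14 (.thr 48 26 (.thr 36 24 (.dbl 38 39 51)))) (.nv (.thr 51 38 (.thr 63 46 (.thr 42 0 (.dbl 59 8 55)))) (.rp 51 (.thr 15 14 (.thr 63 46 (.thr 47 31 (.dbl 42 0 32)))) (.rp 11 (.str 8 (.nv (.thr 15 14 (.thr 51 38 (.thr 27 39 (.dbl 26 24 48)))) (.nv (.thr 0 4 (.dbl 42 59 63)) (.rp 56 (.str 26 (.nv (.thr 0 4 (.dbl 42 59 63)) (.nv (.dbl 15 14 48) .nd))) (.rp 26 (.str 56 (.nv (.thr 42 59 (.thr 4 0 (.dbl 38 51 55))) (.nv (.thr 24 40 (.thr 36 48 (.dbl 38 39 51))) (.nv (.thr 0 4 (.dbl 42 59 63)) (.rp 42 (.str 58 (.nv (.thr 51 38 (.thr 59 57 (.dbl 63 46 55))) (.nv (.thr 40 24 (.thr 0 4 (.thr 60 20 (.dbl 63 46 62)))) (.nv (.thr 4 0 (.dbl 38 51 55)) (.rp 40 (.str 43 (.nv (.thr 57 59 (.thr 63 46 (.thr 60 62 (.dbl 51 38 54)))) (.nv (.thr 4 0 (.dbl 38 51 55)) (.rp 60 (.thr 38 51 (.dbl 4 0 55))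 (.rp 51 (.thr 63 46 (.thr 60 62 (.thr 48 52 (.thr 36 24 (.thr 38 39 (.dbl 4 0 55)))))) (.rp 38 (.thr 4 0 (.thr 46 63 (.thr 14 15 (.thr 30 62 (.thr 7 6 (.thr 22 52 (.dbl 28 19 31))))))) (.rp 34 (.thr 0 4 (.thr 63 46 (.thr 38 51 (.thr 60 62 (.thr 48 52 (.dbl 36 24 39)))))) .nd))))))) .nd))))) .nd))))) .nd))))) (.rp 8 (.str 11 (.nv (.thr 15 14 (.thr 7 3 (.thr 6 4 (.thr 22 52 (.dbl 38 51 54))))) (.nv (.thr 63 46 (.thr 42 0 (.thr 47 32 (.dbl 15 14 31)))) (.rp 63 (.thr 15 14 (.thr 48 26 (.thr 36 24 (.dbl 38 39 51)))) (.rp 51 (.thr 15 14 (.thr 3 7 (.thr 63 46 (.dbl 0 2 42)))) (.rp 15 (.thr 38 51 (.thr 4 55 (.thr 7 6 (.thr 52 22 (.dbl 36 20 39))))) (.rp 14 (.thr 63 46 (.thr 51 38 (.thr 59 55 (.thr 27 43 (.thr 26 24 (.dbl 15 39 48)))))) .nd))))))) .nd))))))))))) (.rp 1 (.str 12 (.nv (.thr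 15 14 (.thr 48 26 (.thr 36 24 (.thr 38 39 (.dbl 25 49 51))))) (.nv (.thr 15 14 (.thr 26 48 (.thr 31 16 (.thr 63 47 (.thr 29 46 (.thr 30 28 (.dbl 45 60 61))))))) (.nv (.thr 25 49 (.thr 17 29 (.thr 51 38 (.thr 0 34 (.thr 8 4 (.dbl 42 59 63)))))) .nd)))) .nd))))))))))))

theorem w348 : WinAt (137441050656, 9007199263130624) :=
  chF (K := []) kn c348 137441050656 9007199263130624 53
    [] (by decide +kernel) (by decide +kernel)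

/-- A certificate. -/
noncomputable def c349 : Ct := (.str 1 (.nv (.thr 41 61 (.thr 33 45 (.thr 49 17 (.dbl 13 9 25)))) (.nv (.thr 13 9 (.thr 61 41 (.thr 25 49 (.dbl 29 17 45)))) (.rp 61 (.str 49 (.nv (.dbl 13 9 25) (.rp 25 (.str 26 (.nv (.thr 17 33 (.thr 48 15 (.thr 51 50 (.thr 0 34 (.dbl 16 31 32))))) (.nv (.thr 16 31 (.thr 48 15 (.thr 0 32 (.thr 3 2 (.dbl 33 17 18))))) (.nv (.thr 17 33 (.thr 16 31 (.thr 48 15 (.thr 51 50 (.dbl 0 32 34))))) (.rp 48 (.thr 17 33 (.thr 16 31 (.thr 18 19 (.thr 22 30 (.thr 23 20 (.thr 7 52 (.thr 4 6 (.dbl 55 38 39)))))))) (.rp 33 (.thr 48 15 (.thr 50 51 (.thr 38 14 (.thr 16 31 (.thr 0 32 (.thr 2 3 (.thr 34 18 (.dbl 42 46 63)))))))) (.rp 32 (.thr 33 17 (.thr 48 15 (.thr 3 18 (.thr 41 45 (.thr 56 11 (.dbl 60 22 52)))))) (.rp 31 (.thr 17 33 (.thr 48 15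 (.thr 51 50 (.thr 0 34 (.thr 32 16 (.dbl 42 47 63)))))) (.rp 17 (.thr 48 15 (.thr 50 51 (.thr 38 14 (.thr 16 31 (.thr 0 32 (.thr 2 3 (.thr 34 18 (.dbl 42 46 63)))))))) (.rp 16 (.thr 33 17 (.thr 48 15 (.thr 41 45 (.thr 56 11 (.thr 60 52 (.dbl 3 18 22)))))) (.rp 15 (.thr 17 33 (.thr 16 31 (.thr 18 19 (.thr 22 30 (.thr 23 20 (.thr 7 52 (.thr 4 6 (.dbl 55 38 39)))))))) (.rp 0 (.thr 33 17 (.thr 48 15 (.thr 3 18 (.thr 41 45 (.thr 56 11 (.dbl 60 22 52)))))) .nd)))))))))))) (.rp 13 (.thr 17 33 (.thr 29 25 (.str 26 (.nv (.thr 48 15 (.thr 51 50 (.thr 0 34 (.dbl 16 31 32)))) (.nv (.thr 48 15 (.thr 51 50 (.thr 16 31 (.dbl 0 32 34)))) (.rp 51 (.thr 16 31 (.thr 18 19 (.thr 22 30 (.thr 7 52 (.thr 23 20 (.thr 55 39 (.dbl 4 6 38))))))) (.rp 50 (.thr 48 15 (.thr 16 31 (.thr 18 19 (.thr 22 30 (.thr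 0 32 (.thr 2 3 (.dbl 42 62 63))))))) (.rp 48 (.thr 16 31 (.thr 18 19 (.thr 22 30 (.thr 7 52 (.thr 23 20 (.thr 55 39 (.dbl 4 6 38))))))) (.rp 34 (.thr 16 31 (.thr 18 19 (.thr 22 30 (.thr 7 52 (.thr 23 20 (.thr 55 39 (.dbl 4 6 38))))))) (.rp 32 (.thr 16 31 (.thr 18 19 (.thr 22 30 (.thr 7 52 (.thr 23 20 (.thr 55 39 (.dbl 4 6 38))))))) (.rp 31 (.thr 48 15 (.thr 51 50 (.thr 0 34 (.thr 32 16 (.dbl 42 47 63))))) (.rp 16 (.str 22 (.nv (.thr 7 52 (.thr 30 18 (.thr 23 20 (.thr 28 31 (.thr 55 39 (.dbl 4 6 38)))))) (.nv (.thr 48 15 (.thr 51 50 (.thr 0 34 (.thr 42 63 (.dbl 2 3 62))))) (.nv (.thr 7 52 (.thr 4 6 (.thr 55 38 (.dbl 23 20 39)))) (.rp 28 (.thr 20 23 (.thr 30 18 (.thr 7 52 (.thr 15 48 (.thr 3 11 (.dbl 60 41 45)))))) (.rp 20 (.str 28 (.nv (.dbl 30 18 31) (.rp 31 (.thr 30 18 (.thr 7 52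 (.thr 15 48 (.thr 3 11 (.dbl 60 41 45))))) (.rp 30 (.thr 7 52 (.thr 4 6 (.thr 48 15 (.thr 50 51 (.dbl 38 14 55))))) (.rp 18 (.thr 7 52 (.thr 4 6 (.thr 48 15 (.thr 50 51 (.dbl 38 14 55))))) .nd))))) .nd)))))) (.rp 15 (.thr 16 31 (.thr 18 19 (.thr 22 30 (.thr 7 52 (.thr 23 20 (.thr 55 39 (.dbl 4 6 38))))))) (.rp 14 (.thr 16 31 (.thr 18 19 (.thr 22 30 (.thr 7 52 (.thr 23 20 (.thr 55 39 (.dbl 4 6 38))))))) (.rp 12 (.thr 16 31 (.thr 18 19 (.thr 22 30 (.thr 7 52 (.thr 23 20 (.thr 55 39 (.dbl 4 6 38))))))) (.rp 0 (.thr 16 31 (.thr 18 19 (.thr 22 30 (.thr 7 52 (.thr 23 20 (.thr 55 39 (.dbl 4 6 38))))))) .nd)))))))))))))))) (.rp 9 (.thr 17 33 (.dbl 25 13 29)) .nd))))) (.rp 49 (.thr 61 41 (.str 63 (.nv (.thr 13 9 (.thr 29 45 (.thr 12 46 (.thr 15 14 (.thr 26 48 (.dbl 31 16 47)))))) (.nv (.thr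 13 9 (.thr 29 45 (.thr 25 17 (.thr 12 46 (.thr 51 38 (.thr 42 0 (.dbl 59 8 55))))))) (.nv (.thr 0 42 (.thr 3 2 (.thr 9 13 (.thr 6 12 (.thr 7 4 (.thr 22 52 (.dbl 23 20 43))))))) (.nv (.thr 42 0 (.thr 47 32 (.thr 15 31 (.thr 60 62 (.thr 45 30 (.dbl 13 9 29)))))) (.rp 13 (.thr 62 60 (.thr 42 0 (.thr 47 32 (.thr 15 31 (.thr 22 2 (.thr 7 52 (.thr 3 11 (.dbl 23 20 43)))))))) (.rp 9 (.thr 60 62 (.thr 42 0 (.thr 47 32 (.thr 15 31 (.thr 45 30 (.thr 29 13 (.dbl 46 12 44))))))) .nd)))))))) (.rp 45 (.str 4 (.nv (.thr 6 7 (.thr 9 13 (.thr 12 3 (.thr 38 55 (.thr 25 51 (.dbl 41 57 61)))))) (.nv (.thr 7 6 (.thr 22 52 (.thr 55 38 (.dbl 23 20 39)))) (.rp 55 (.thr 9 13 (.thr 6 7 (.thr 12 3 (.thr 0 8 (.thr 63 42 (.thr 41 61 (.thr 29 46 (.dbl 25 17 57)))))))) (.rp 52 (.thr 9 13 (.thr 6 7 (.thr 12 3 (.thr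 38 55 (.thr 54 22 (.thr 25 51 (.dbl 41 57 61))))))) (.rp 39 (.thr 13 9 (.thr 25 49 (.thr 29 17 (.thr 38 55 (.thr 12 51 (.thr 63 46 (.dbl 0 8 42))))))) (.rp 38 (.thr 41 61 (.thr 7 6 (.thr 22 52 (.thr 23 20 (.thr 3 60 (.thr 63 43 (.dbl 0 2 42))))))) (.rp 23 (.thr 7 6 (.thr 52 22 (.thr 36 20 (.dbl 38 39 55)))) (.rp 7 (.thr 13 9 (.thr 25 49 (.thr 29 17 (.thr 38 55 (.thr 12 51 (.thr 63 46 (.dbl 0 8 42))))))) (.rp 6 (.thr 13 9 (.thr 25 49 (.thr 29 17 (.thr 38 55 (.thr 12 51 (.thr 63 46 (.dbl 0 8 42))))))) .nd)))))))))) (.rp 41 (.str 4 (.nv (.thr 38 55 (.thr 36 39 (.thr 52 20 (.dbl 7 6 22)))) (.nv (.thr 7 6 (.thr 22 52 (.thr 55 38 (.dbl 23 20 39)))) (.nv (.thr 7 6 (.thr 38 55 (.thr 36 39 (.dbl 52 20 22)))) (.rp 55 (.thr 13 9 (.thr 25 49 (.thr 29 17 (.thr 7 6 (.thr 52 22 (.thr 36 20 (.thr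 38 39 (.thr 12 51 (.thr 63 46 (.dbl 0 8 42)))))))))) (.rp 52 (.thr 9 13 (.thr 6 7 (.thr 12 3 (.thr 0 8 (.thr 63 42 (.thr 29 46 (.thr 25 17 (.dbl 38 51 55)))))))) (.rp 39 (.thr 13 9 (.thr 25 49 (.thr 29 17 (.thr 38 55 (.thr 12 51 (.thr 63 46 (.dbl 0 8 42))))))) (.rp 38 (.thr 13 9 (.thr 25 49 (.thr 17 29 (.thr 7 6 (.thr 22 52 (.thr 23 20 (.thr 19 28 (.thr 16 18 (.dbl 31 26 27))))))))) (.rp 22 (.thr 13 9 (.thr 25 49 (.thr 29 17 (.thr 38 55 (.thr 12 51 (.thr 63 46 (.dbl 0 8 42))))))) (.rp 20 (.thr 13 9 (.thr 25 49 (.thr 29 17 (.thr 38 55 (.thr 12 51 (.thr 63 46 (.dbl 0 8 42))))))) (.rp 7 (.thr 13 9 (.thr 25 49 (.thr 29 17 (.thr 38 55 (.thr 12 51 (.thr 63 46 (.dbl 0 8 42))))))) (.rp 6 (.thr 13 9 (.thr 25 49 (.thr 29 17 (.thr 38 55 (.thr 12 51 (.thr 63 46 (.dbl 0 8 42))))))) .nd))))))))))))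 (.rp 29 (.thr 13 9 (.thr 49 25 (.thr 33 17 (.dbl 41 45 61)))) (.rp 25 (.thr 9 13 (.str 4 (.nv (.thr 7 6 (.thr 22 52 (.thr 55 38 (.dbl 23 20 39)))) (.nv (.thr 6 7 (.thr 3 12 (.thr 41 61 (.thr 22 60 (.dbl 38 54 55))))) (.nv (.thr 7 6 (.thr 38 55 (.thr 36 39 (.dbl 52 20 22)))) (.rp 55 (.thr 41 61 (.thr 6 7 (.thr 3 12 (.thr 60 22 (.thr 0 2 (.thr 40 20 (.dbl 42 43 63))))))) (.rp 38 (.thr 41 61 (.thr 7 6 (.thr 22 52 (.thr 23 20 (.thr 3 60 (.thr 63 43 (.dbl 0 2 42))))))) (.rp 27 (.str 26 (.nv (.thr 15 48 (.thr 41 61 (.thr 11 56 (.dbl 7 3 6)))) (.nv (.thr 7 6 (.thr 41 61 (.thr 11 56 (.dbl 15 3 48)))) (.nv (.thr 7 6 (.thr 22 52 (.thr 55 38 (.dbl 23 20 39)))) (.rp 7 (.thr 16 31 (.thr 48 15 (.thr 0 32 (.thr 12 8 (.dbl 3 2 6))))) (.rp 6 (.thr 15 48 (.thr 41 61 (.thr 45 33 (.thr 11 56 (.thr 3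 7 (.dbl 60 22 30)))))) .nd)))))) (.rp 26 (.str 27 (.nv (.thr 7 6 (.thr 22 52 (.thr 55 38 (.dbl 23 20 39)))) (.nv (.thr 6 7 (.thr 3 12 (.thr 41 61 (.thr 22 60 (.dbl 38 54 55))))) (.nv (.thr 7 6 (.thr 38 55 (.thr 36 39 (.dbl 52 20 22)))) (.rp 58 (.str 42 (.nv (.thr 7 6 (.thr 22 52 (.thr 23 20 (.dbl 55 38 39)))) (.nv (.thr 6 7 (.thr 12 3 (.dbl 0 8 63))) (.rp 63 (.str 48 (.nv (.thr 6 7 (.thr 3 12 (.thr 33 18 (.dbl 41 45 61)))) (.nv (.thr 7 6 (.thr 38 55 (.thr 36 39 (.dbl 52 20 22)))) (.nv (.thr 32 47 (.thr 0 16 (.thr 3 2 (.dbl 6 7 12)))) (.rp 7 (.thr 32 47 (.thr 0 16 (.thr 3 2 (.dbl 12 6 8)))) (.rp 6 (.thr 38 55 (.thr 39 36 (.thr 47 32 (.thr 35 43 (.dbl 41 44 61))))) .nd)))))) (.rp 48 (.thr 63 0 (.thr 7 6 (.thr 38 55 (.thr 36 39 (.dbl 52 20 22))))) (.rp 7 (.thr 47 32 (.thr 63 0 (.thr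 15 31 (.thr 38 55 (.dbl 39 36 51))))) (.rp 6 (.thr 47 32 (.thr 63 0 (.thr 15 31 (.thr 38 55 (.dbl 39 36 51))))) .nd))))))) (.rp 55 (.thr 41 61 (.thr 6 7 (.thr 3 12 (.thr 60 22 (.thr 0 2 (.thr 40 20 (.dbl 42 43 63))))))) (.rp 42 (.str 58 (.nv (.thr 7 6 (.thr 22 52 (.thr 55 38 (.dbl 23 20 39)))) (.nv (.thr 6 7 (.thr 3 12 (.thr 41 61 (.thr 22 60 (.dbl 38 54 55))))) (.nv (.thr 7 6 (.thr 38 55 (.thr 36 39 (.dbl 52 20 22)))) (.rp 59 (.str 8 (.nv (.thr 7 6 (.thr 22 52 (.thr 23 20 (.dbl 55 38 39)))) (.nv (.thr 6 7 (.dbl 12 0 3)) (.rp 7 (.thr 38 55 (.thr 12 0 (.thr 3 6 (.thr 41 61 (.thr 44 35 (.dbl 60 22 28)))))) (.rp 6 (.thr 38 55 (.thr 39 36 (.thr 51 15 (.thr 41 61 (.thr 35 44 (.thr 3 19 (.dbl 0 2 12))))))) .nd))))) (.rp 55 (.thr 6 7 (.thr 41 61 (.thr 3 12 (.thr 22 60 (.thr 23 20 (.thr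 19 31 (.thr 35 51 (.dbl 38 44 54)))))))) (.rp 38 (.thr 7 6 (.thr 22 52 (.thr 23 20 (.thr 41 61 (.thr 3 60 (.thr 11 15 (.dbl 43 59 63))))))) (.rp 22 (.thr 6 7 (.thr 38 55 (.thr 39 36 (.thr 51 15 (.thr 41 61 (.thr 35 44 (.dbl 3 12 19))))))) (.rp 14 (.thr 38 55 (.thr 36 39 (.thr 52 20 (.dbl 7 6 22)))) (.rp 8 (.str 59 (.nv (.thr 38 55 (.thr 39 36 (.thr 41 61 (.thr 35 44 (.dbl 43 11 47))))) (.nv (.thr 7 6 (.thr 11 43 (.thr 3 15 (.thr 41 61 (.dbl 22 52 60))))) (.nv (.thr 7 6 (.thr 38 55 (.thr 36 39 (.dbl 52 20 22)))) (.rp 56 (.str 40 (.nv (.thr 11 43 (.thr 7 6 (.thr 15 3 (.thr 39 51 (.dbl 38 36 55))))) (.nv (.thr 7 6 (.thr 11 43 (.thr 3 15 (.thr 41 61 (.dbl 22 52 60))))) (.nv (.thr 41 61 (.thr 38 55 (.thr 44 35 (.dbl 36 32 39)))) (.nv (.thr 7 6 (.thr 38 55 (.thr 36 39 (.dbl 52 20 22))))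 .nd))))) (.rp 52 (.thr 7 6 (.thr 55 38 (.thr 39 23 (.dbl 51 15 63)))) (.rp 40 (.thr 56 57 (.thr 7 6 (.thr 55 38 (.thr 23 39 (.dbl 22 20 52))))) .nd))))))) (.rp 7 (.thr 38 55 (.thr 39 36 (.thr 51 15 (.thr 41 61 (.thr 35 44 (.thr 3 19 (.thr 0 2 (.dbl 12 6 8)))))))) (.rp 6 (.thr 38 55 (.thr 39 36 (.thr 51 15 (.thr 41 61 (.thr 35 44 (.thr 3 19 (.thr 43 47 (.thr 22 60 (.dbl 23 20 63))))))))) .nd)))))))))))) (.rp 38 (.thr 41 61 (.thr 7 6 (.thr 22 52 (.thr 23 20 (.thr 3 60 (.thr 11 15 (.dbl 43 59 63))))))) (.rp 22 (.thr 41 61 (.thr 45 33 (.thr 38 55 (.thr 44 35 (.thr 47 46 (.thr 36 39 (.dbl 32 40 42))))))) (.rp 14 (.thr 38 55 (.thr 36 39 (.thr 52 20 (.dbl 7 6 22)))) (.rp 7 (.thr 41 61 (.thr 38 55 (.thr 35 44 (.thr 39 36 (.thr 15 51 (.thr 47 43 (.thr 63 31 (.dbl 42 0 32)))))))) (.rp 6 (.thr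 41 61 (.thr 45 33 (.thr 38 55 (.thr 44 35 (.thr 47 46 (.thr 36 39 (.dbl 32 40 42))))))) .nd)))))))))))) (.rp 22 (.thr 41 61 (.thr 45 33 (.thr 38 55 (.thr 36 39 (.thr 44 35 (.thr 32 40 (.dbl 47 42 46))))))) (.rp 14 (.thr 38 55 (.thr 36 39 (.thr 52 20 (.dbl 7 6 22)))) (.rp 7 (.thr 41 61 (.thr 45 33 (.thr 38 55 (.thr 44 35 (.thr 47 46 (.thr 32 42 (.dbl 36 39 40))))))) (.rp 6 (.thr 41 61 (.thr 45 33 (.thr 38 55 (.thr 36 39 (.thr 44 35 (.thr 32 40 (.dbl 47 42 46))))))) .nd))))))))))))) (.rp 17 (.str 4 (.nv (.thr 6 7 (.thr 9 13 (.thr 12 3 (.thr 38 55 (.thr 25 51 (.dbl 41 57 61)))))) (.nv (.thr 6 7 (.thr 9 13 (.thr 3 12 (.thr 41 61 (.thr 22 60 (.dbl 38 54 55)))))) (.nv (.thr 7 6 (.thr 22 52 (.thr 55 38 (.dbl 23 20 39)))) (.rp 55 (.thr 9 13 (.thr 41 61 (.thr 6 7 (.thr 3 12 (.thr 60 22 (.thr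 0 2 (.thr 40 20 (.dbl 42 43 63)))))))) (.rp 38 (.thr 41 61 (.thr 33 45 (.thr 7 6 (.thr 22 52 (.thr 3 60 (.thr 15 11 (.dbl 48 18 26))))))) (.rp 7 (.thr 41 61 (.thr 33 45 (.thr 38 55 (.thr 39 36 (.thr 35 44 (.thr 47 43 (.dbl 32 34 42))))))) (.rp 6 (.thr 41 61 (.thr 33 45 (.thr 38 55 (.thr 39 36 (.thr 35 44 (.thr 47 43 (.dbl 32 34 42))))))) .nd)))))))) (.rp 13 (.str 4 (.nv (.thr 38 55 (.thr 36 39 (.thr 52 20 (.dbl 7 6 22)))) (.nv (.thr 7 6 (.thr 52 22 (.thr 38 55 (.dbl 36 20 39)))) (.rp 55 (.thr 41 61 (.thr 45 33 (.thr 7 6 (.thr 52 22 (.thr 36 20 (.thr 38 39 (.thr 44 35 (.thr 32 40 (.dbl 47 42 46))))))))) (.rp 52 (.thr 41 61 (.thr 7 6 (.thr 55 38 (.thr 23 39 (.thr 22 20 (.thr 3 60 (.thr 63 43 (.dbl 0 2 42)))))))) (.rp 39 (.thr 41 61 (.thr 7 6 (.thr 22 52 (.thr 23 20 (.thr 3 60 (.thr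 63 43 (.dbl 0 2 42))))))) (.rp 38 (.thr 41 61 (.thr 7 6 (.thr 22 52 (.thr 23 20 (.thr 3 60 (.thr 63 43 (.dbl 0 2 42))))))) (.rp 36 (.thr 7 6 (.thr 22 52 (.thr 23 20 (.dbl 55 38 39)))) (.rp 22 (.thr 41 61 (.thr 45 33 (.thr 38 55 (.thr 36 39 (.thr 44 35 (.thr 32 40 (.dbl 47 42 46))))))) (.rp 20 (.thr 41 61 (.thr 45 33 (.thr 38 55 (.thr 36 39 (.thr 44 35 (.thr 32 40 (.dbl 47 42 46))))))) (.rp 7 (.thr 41 61 (.thr 45 33 (.thr 38 55 (.thr 44 35 (.thr 47 46 (.thr 32 42 (.dbl 36 39 40))))))) (.rp 6 (.thr 41 61 (.thr 45 33 (.thr 38 55 (.thr 36 39 (.thr 44 35 (.thr 32 40 (.dbl 47 42 46))))))) .nd)))))))))))) (.rp 9 (.str 7 (.nv (.thr 22 52 (.thr 41 61 (.thr 3 60 (.thr 33 45 (.thr 48 18 (.dbl 15 11 26)))))) (.nv (.thr 4 6 (.thr 55 38 (.thr 22 52 (.dbl 23 20 39)))) (.rp 55 (.thr 41 61 (.thr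 33 45 (.thr 6 4 (.thr 22 52 (.thr 54 38 (.thr 3 60 (.thr 48 18 (.dbl 15 11 26)))))))) (.rp 52 (.thr 41 61 (.thr 4 6 (.thr 55 38 (.thr 23 39 (.thr 22 20 (.thr 3 60 (.thr 63 43 (.dbl 0 2 42)))))))) (.rp 22 (.thr 41 61 (.thr 45 33 (.thr 4 6 (.thr 38 55 (.thr 36 39 (.thr 44 35 (.thr 32 40 (.dbl 47 42 46)))))))) (.rp 11 (.str 8 (.nv (.thr 22 52 (.thr 23 20 (.thr 55 39 (.dbl 4 6 38)))) (.nv (.thr 4 6 (.thr 12 0 (.thr 38 55 (.thr 25 51 (.thr 17 29 (.dbl 49 13 33)))))) (.nv (.thr 4 6 (.thr 22 52 (.thr 55 38 (.dbl 23 20 39)))) (.rp 55 (.thr 4 6 (.thr 52 22 (.thr 36 20 (.thr 38 39 (.thr 12 0 (.thr 25 51 (.thr 49 13 (.dbl 17 29 33)))))))) (.rp 52 (.thr 4 6 (.thr 55 38 (.thr 23 39 (.thr 22 20 (.thr 41 61 (.thr 0 12 (.dbl 3 2 60))))))) (.rp 38 (.thr 4 6 (.thr 22 52 (.thr 41 61 (.thr 0 12 (.dbl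 3 2 60))))) (.rp 6 (.thr 22 52 (.thr 23 20 (.thr 41 61 (.thr 3 60 (.thr 63 43 (.dbl 0 2 42)))))) (.rp 4 (.thr 22 52 (.thr 41 61 (.thr 3 60 (.thr 0 2 (.thr 63 42 (.dbl 23 20 43)))))) .nd))))))))) (.rp 8 (.str 11 (.nv (.thr 15 3 (.thr 26 48 (.dbl 41 56 61))) (.nv (.thr 22 52 (.thr 23 20 (.thr 55 39 (.dbl 4 6 38)))) (.nv (.thr 41 61 (.thr 3 15 (.dbl 22 52 60))) (.rp 56 (.str 40 (.nv (.thr 3 15 (.thr 0 2 (.thr 41 61 (.dbl 42 43 63)))) (.nv (.thr 4 6 (.thr 38 55 (.thr 36 39 (.dbl 52 20 22)))) (.nv (.thr 41 61 (.thr 3 15 (.dbl 22 52 60))) (.rp 3 (.thr 22 52 (.thr 23 20 (.thr 55 39 (.dbl 4 6 38)))) .nd))))) (.rp 40 (.str 56 (.nv (.thr 15 3 (.thr 48 26 (.dbl 52 22 60))) (.nv (.dbl 41 26 61) (.rp 26 (.thr 41 61 (.thr 3 15 (.dbl 22 52 60))) .nd)))) .nd)))))) (.rp 3 (.thr 22 52 (.thr 23 20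 (.thr 55 39 (.dbl 4 6 38)))) .nd))))))))) .nd))))))))))))

theorem w349 : WinAt (137441050656, 9007199271519232) :=
  chF (K := []) kn c349 137441050656 9007199271519232 53
    [] (by decide +kernel) (by decide +kernel)

/-- A certificate. -/
noncomputable def c350 : Ct := (.str 4 (.nv (.thr 7 6 (.thr 22 52 (.thr 55 38 (.dbl 23 20 39)))) (.nv (.thr 38 55 (.thr 36 39 (.thr 52 20 (.dbl 7 6 22)))) (.rp 55 (.str 52 (.nv (.dbl 7 6 22) (.rp 22 (.thr 20 36 (.str 0 (.nv (.thr 42 63 (.thr 32 47 (.thr 48 16 (.dbl 60 40 56)))) (.nv (.thr 60 40 (.thr 8 12 (.thr 48 56 (.thr 26 15 (.dbl 16 31 32))))) (.nv (.thr 60 40 (.thr 48 56 (.thr 32 16 (.dbl 42 47 63)))) (.rp 60 (.thr 6 7 (.thr 12 8 (.thr 42 63 (.thr 32 47 (.thr 48 16 (.thr 15 26 (.thr 13 14 (.dbl 9 1 3)))))))) (.rp 56 (.thr 6 7 (.thr 12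 8 (.thr 9 3 (.thr 1 13 (.thr 41 61 (.thr 40 60 (.dbl 42 43 63))))))) (.rp 48 (.thr 6 7 (.thr 12 8 (.thr 9 3 (.thr 1 13 (.thr 61 41 (.thr 60 40 (.dbl 63 42 62))))))) (.rp 40 (.thr 6 7 (.thr 12 8 (.thr 9 3 (.thr 13 1 (.thr 15 14 (.thr 48 26 (.thr 32 16 (.dbl 42 47 63)))))))) (.rp 32 (.thr 6 7 (.thr 12 8 (.thr 9 3 (.thr 1 13 (.thr 41 61 (.thr 40 60 (.dbl 42 43 63))))))) (.rp 28 (.str 19 (.nv (.thr 42 63 (.thr 32 47 (.thr 48 16 (.dbl 60 40 56)))) (.nv (.thr 60 40 (.thr 8 12 (.thr 48 56 (.thr 26 15 (.dbl 16 31 32))))) (.nv (.thr 60 40 (.thr 48 56 (.thr 32 16 (.dbl 42 47 63)))) (.rp 60 (.thr 6 7 (.thr 12 8 (.thr 42 63 (.thr 32 47 (.thr 48 16 (.thr 15 26 (.thr 13 14 (.dbl 9 1 3)))))))) (.rp 56 (.thr 6 7 (.thr 12 8 (.thr 9 3 (.thr 1 13 (.thr 41 61 (.thr 40 60 (.dbl 42 43 63))))))) (.rp 48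 (.thr 6 7 (.thr 12 8 (.thr 9 3 (.thr 1 13 (.thr 61 41 (.thr 60 40 (.dbl 63 42 62))))))) (.rp 40 (.thr 6 7 (.thr 12 8 (.thr 9 3 (.thr 13 1 (.thr 15 14 (.thr 48 26 (.thr 32 16 (.dbl 42 47 63)))))))) (.rp 32 (.thr 6 7 (.thr 12 8 (.thr 9 3 (.thr 1 13 (.thr 41 61 (.thr 40 60 (.dbl 42 43 63))))))) (.rp 16 (.thr 6 7 (.thr 12 8 (.thr 9 3 (.thr 1 13 (.thr 61 41 (.thr 60 40 (.dbl 63 42 62))))))) .nd)))))))))) (.rp 19 (.str 28 (.nv (.thr 42 63 (.thr 32 47 (.dbl 16 24 48))) (.nv (.thr 60 40 (.dbl 12 8 44)) (.rp 32 (.thr 12 8 (.dbl 60 40 44)) .nd)))) (.rp 16 (.thr 6 7 (.thr 12 8 (.thr 9 3 (.thr 1 13 (.thr 61 41 (.thr 60 40 (.dbl 63 42 62))))))) .nd))))))))))))) (.rp 7 (.thr 20 36 (.str 48 (.nv (.thr 23 22 (.thr 26 15 (.thr 16 31 (.thr 0 32 (.dbl 60 40 56))))) (.nv (.thr 15 26 (.thr 60 56 (.thr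 45 30 (.thr 41 33 (.dbl 22 3 23))))) (.nv (.thr 60 56 (.thr 0 40 (.thr 32 16 (.dbl 42 47 63)))) (.rp 60 (.thr 23 22 (.thr 26 15 (.thr 16 31 (.thr 0 32 (.thr 63 42 (.thr 3 43 (.thr 2 1 (.thr 18 33 (.thr 34 50 (.dbl 17 19 51)))))))))) (.rp 56 (.thr 23 22 (.thr 26 15 (.thr 16 31 (.thr 0 32 (.thr 63 42 (.thr 3 43 (.thr 33 18 (.thr 41 45 (.dbl 1 2 61))))))))) (.rp 23 (.str 39 (.nv (.thr 26 15 (.thr 60 56 (.thr 0 40 (.thr 8 12 (.dbl 16 31 32))))) (.nv (.thr 60 56 (.thr 0 40 (.thr 32 16 (.dbl 42 47 63)))) (.rp 60 (.str 32 (.nv (.thr 16 0 (.dbl 26 15 31)) (.nv (.thr 0 16 (.dbl 42 47 63)) (.rp 16 (.thr 47 42 (.thr 35 43 (.thr 33 34 (.thr 41 45 (.thr 1 61 (.thr 49 17 (.thr 51 50 (.dbl 3 18 19)))))))) (.rp 0 (.thr 47 42 (.thr 35 43 (.thr 33 34 (.thr 3 18 (.thr 51 19 (.dbl 15 26 27)))))) .nd)))))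 (.rp 56 (.thr 26 15 (.thr 16 31 (.thr 32 0 (.thr 28 24 (.thr 47 42 (.thr 35 43 (.thr 33 34 (.thr 3 18 (.thr 41 45 (.thr 60 22 (.dbl 44 12 38))))))))))) (.rp 40 (.thr 60 56 (.thr 15 26 (.thr 45 30 (.thr 41 33 (.thr 61 1 (.thr 63 62 (.thr 47 31 (.dbl 42 0 32)))))))) (.rp 32 (.thr 60 56 (.thr 15 26 (.thr 45 30 (.thr 41 33 (.thr 61 1 (.thr 63 62 (.dbl 0 40 42))))))) (.rp 16 (.thr 60 56 (.thr 0 40 (.thr 63 42 (.thr 61 62 (.thr 41 1 (.thr 33 45 (.dbl 3 18 22))))))) (.rp 8 (.thr 60 56 (.thr 26 15 (.thr 16 31 (.dbl 0 32 40)))) (.rp 0 (.thr 60 56 (.thr 15 26 (.thr 45 30 (.thr 41 33 (.thr 61 1 (.thr 29 13 (.thr 63 62 (.thr 47 31 (.dbl 46 12 44))))))))) .nd)))))))))) .nd)))))))) (.rp 6 (.thr 20 36 (.dbl 22 7 23)) .nd))))) (.rp 52 (.thr 55 38 (.str 63 (.nv (.thr 7 6 (.thr 23 39 (.thr 3 43 (.thr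 15 11 (.thr 26 48 (.dbl 31 16 47)))))) (.nv (.thr 42 0 (.thr 47 32 (.thr 15 31 (.thr 51 59 (.thr 39 27 (.dbl 7 6 23)))))) (.nv (.thr 7 6 (.thr 23 39 (.thr 3 43 (.thr 22 20 (.thr 42 0 (.thr 60 41 (.dbl 62 2 61))))))) (.nv (.thr 51 59 (.thr 42 0 (.thr 7 6 (.thr 39 23 (.thr 47 32 (.dbl 15 27 31)))))) (.rp 51 (.str 12 (.nv (.dbl 0 8 42) (.rp 42 (.thr 7 6 (.thr 23 39 (.thr 3 43 (.thr 15 11 (.thr 26 48 (.dbl 31 16 47)))))) (.rp 8 (.thr 7 6 (.thr 23 39 (.thr 3 43 (.thr 42 0 (.thr 47 32 (.dbl 15 11 31)))))) (.rp 0 (.thr 7 6 (.thr 23 39 (.thr 3 43 (.thr 15 11 (.thr 26 48 (.dbl 31 16 47)))))) .nd))))) (.rp 47 (.thr 7 6 (.thr 23 39 (.thr 22 20 (.thr 51 59 (.thr 3 43 (.thr 35 19 (.thr 60 41 (.thr 62 61 (.dbl 42 0 2))))))))) (.rp 39 (.thr 7 6 (.thr 42 0 (.thr 47 32 (.thr 15 31 (.thr 3 11 (.thr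 23 43 (.thr 22 20 (.thr 60 41 (.dbl 62 2 61))))))))) (.rp 23 (.thr 6 7 (.thr 0 42 (.thr 59 51 (.thr 12 8 (.thr 9 3 (.thr 13 1 (.thr 15 14 (.thr 31 47 (.dbl 26 16 48))))))))) (.rp 7 (.thr 51 59 (.thr 42 0 (.thr 47 32 (.thr 15 31 (.thr 39 27 (.thr 43 35 (.thr 41 40 (.thr 61 1 (.thr 60 62 (.dbl 45 30 33)))))))))) (.rp 6 (.thr 51 59 (.thr 42 0 (.thr 47 32 (.thr 15 31 (.thr 39 27 (.thr 23 7 (.dbl 43 3 35))))))) .nd)))))))))))) (.rp 39 (.str 0 (.nv (.thr 7 6 (.thr 52 22 (.thr 20 36 (.thr 60 40 (.thr 48 56 (.thr 26 15 (.dbl 16 31 32))))))) (.nv (.thr 6 7 (.thr 12 8 (.thr 9 3 (.thr 13 1 (.thr 15 14 (.thr 26 48 (.thr 31 16 (.dbl 63 42 47)))))))) (.nv (.thr 12 8 (.thr 42 63 (.thr 32 47 (.thr 48 16 (.thr 36 24 (.thr 40 44 (.dbl 20 52 60))))))) (.nv (.thr 7 6 (.thr 22 52 (.thr 20 23 (.thr 42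 63 (.thr 2 62 (.thr 60 40 (.dbl 3 1 41))))))) (.rp 48 (.thr 7 6 (.thr 22 52 (.thr 20 23 (.thr 60 40 (.thr 3 41 (.thr 2 1 (.dbl 42 62 63))))))) .nd)))))) (.rp 38 (.str 22 (.nv (.dbl 7 6 52) (.rp 52 (.str 0 (.nv (.thr 6 7 (.thr 12 8 (.thr 42 63 (.thr 2 62 (.dbl 3 1 9))))) (.nv (.thr 12 8 (.thr 6 7 (.thr 20 23 (.thr 60 40 (.dbl 3 9 41))))) (.nv (.thr 20 23 (.thr 60 40 (.thr 41 3 (.thr 61 1 (.dbl 63 42 62))))) (.rp 60 (.thr 23 20 (.thr 6 7 (.thr 63 42 (.thr 3 43 (.dbl 12 8 9))))) (.rp 55 (.str 54 (.nv (.thr 12 8 (.thr 20 23 (.thr 60 40 (.thr 3 41 (.dbl 6 7 9))))) (.nv (.thr 12 8 (.thr 42 63 (.thr 2 62 (.thr 3 1 (.dbl 6 7 9))))) (.nv (.thr 20 23 (.thr 60 40 (.thr 41 3 (.thr 61 1 (.dbl 63 42 62))))) (.rp 60 (.thr 23 20 (.thr 6 7 (.thr 63 42 (.thr 3 43 (.dbl 12 8 9))))) (.rp 42 (.thr 20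 23 (.thr 60 40 (.thr 41 3 (.thr 1 61 (.thr 13 9 (.thr 45 33 (.thr 15 30 (.dbl 12 8 14)))))))) (.rp 12 (.str 51 (.nv (.thr 42 63 (.thr 2 62 (.thr 3 1 (.dbl 60 41 57)))) (.nv (.thr 20 23 (.dbl 60 40 57)) (.rp 60 (.thr 42 63 (.thr 62 2 (.thr 50 58 (.thr 48 49 (.dbl 32 16 47))))) (.rp 57 (.thr 23 20 (.thr 63 42 (.thr 3 43 (.thr 1 2 (.dbl 41 60 61))))) .nd))))) (.rp 7 (.thr 23 20 (.thr 63 42 (.thr 3 43 (.thr 1 2 (.dbl 41 60 61))))) (.rp 3 (.thr 12 8 (.thr 42 63 (.thr 32 47 (.thr 48 16 (.thr 36 24 (.thr 40 44 (.dbl 20 23 60))))))) .nd))))))))) (.rp 54 (.str 55 (.nv (.thr 23 20 (.dbl 7 6 39)) (.rp 51 (.thr 12 8 (.thr 23 20 (.dbl 7 6 39))) (.rp 39 (.thr 20 23 (.thr 6 7 (.thr 12 8 (.thr 60 40 (.dbl 3 9 41))))) (.rp 23 (.thr 6 7 (.thr 12 8 (.thr 42 63 (.thr 2 62 (.dbl 3 1 9))))) (.rp 20 (.thr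 6 7 (.thr 12 8 (.thr 42 63 (.thr 2 62 (.dbl 3 1 9))))) (.rp 12 (.str 51 (.nv (.thr 7 6 (.dbl 23 20 39)) (.nv (.dbl 63 42 59) .nd))) (.rp 7 (.thr 20 23 (.thr 60 40 (.thr 3 41 (.thr 2 1 (.dbl 42 62 63))))) (.rp 6 (.thr 20 23 (.thr 60 40 (.thr 3 41 (.thr 2 1 (.dbl 42 62 63))))) .nd))))))))) (.rp 42 (.thr 20 23 (.thr 60 40 (.thr 41 3 (.thr 1 61 (.thr 13 9 (.thr 45 33 (.thr 15 30 (.dbl 12 8 14)))))))) (.rp 12 (.str 51 (.nv (.thr 20 23 (.thr 60 40 (.thr 41 3 (.thr 1 61 (.thr 33 45 (.dbl 17 34 49)))))) (.nv (.thr 20 23 (.thr 42 63 (.thr 2 62 (.thr 3 1 (.dbl 60 40 41))))) (.nv (.thr 7 6 (.thr 23 20 (.thr 55 39 (.dbl 63 42 59)))) (.rp 63 (.thr 7 6 (.thr 20 23 (.thr 60 40 (.thr 3 41 (.thr 15 11 (.thr 30 45 (.dbl 26 18 48))))))) (.rp 55 (.str 54 (.nv (.thr 42 63 (.thr 2 62 (.thr 3 1 (.dbl 60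 41 57)))) (.nv (.thr 20 23 (.dbl 60 40 57)) (.rp 60 (.thr 42 63 (.thr 62 2 (.thr 50 58 (.thr 48 49 (.dbl 32 16 47))))) (.rp 57 (.thr 23 20 (.thr 63 42 (.thr 3 43 (.thr 1 2 (.dbl 41 60 61))))) .nd))))) (.rp 54 (.str 55 (.nv (.thr 7 6 (.dbl 23 20 39)) (.nv (.dbl 63 42 59) .nd))) (.rp 23 (.thr 34 17 (.thr 42 63 (.thr 32 47 (.thr 48 16 (.thr 50 49 (.dbl 2 18 62)))))) (.rp 20 (.thr 17 34 (.thr 42 63 (.thr 2 62 (.thr 1 3 (.thr 33 49 (.dbl 41 45 61)))))) (.rp 3 (.thr 34 17 (.thr 42 63 (.thr 32 47 (.thr 48 16 (.thr 50 49 (.dbl 2 18 62)))))) .nd)))))))))) (.rp 3 (.thr 12 8 (.thr 42 63 (.thr 32 47 (.thr 48 16 (.thr 36 24 (.thr 40 44 (.dbl 20 23 60))))))) .nd)))))))))) (.rp 51 (.str 12 (.nv (.dbl 7 6 52) (.rp 52 (.thr 6 7 (.thr 20 23 (.thr 0 8 (.thr 60 40 (.dbl 3 9 41))))) (.rp 7 (.thr 20 23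 (.thr 36 52 (.thr 0 8 (.thr 42 63 (.thr 32 47 (.dbl 48 16 24)))))) (.rp 6 (.thr 52 7 (.dbl 20 23 36)) .nd))))) (.rp 12 (.str 51 (.nv (.dbl 7 6 52) (.rp 52 (.thr 7 6 (.thr 23 20 (.thr 55 39 (.thr 63 59 (.thr 42 0 (.thr 47 32 (.thr 15 31 (.dbl 3 11 43)))))))) (.rp 7 (.str 48 (.nv (.thr 15 26 (.thr 23 20 (.thr 27 39 (.thr 31 19 (.thr 63 47 (.thr 43 3 (.dbl 59 11 55))))))) (.nv (.thr 26 15 (.thr 18 30 (.thr 3 33 (.thr 19 35 (.dbl 16 17 31))))) (.nv (.thr 20 23 (.thr 52 36 (.thr 60 56 (.thr 0 40 (.thr 32 16 (.dbl 42 47 63)))))) .nd)))) (.rp 6 (.thr 52 7 (.dbl 20 23 36)) .nd))))) (.rp 7 (.str 12 (.nv (.thr 0 8 (.thr 20 23 (.thr 60 40 (.thr 3 41 (.thr 1 2 (.dbl 9 6 13)))))) (.nv (.thr 0 8 (.thr 42 63 (.thr 32 47 (.thr 48 16 (.thr 36 24 (.dbl 20 23 52)))))) (.nv (.thr 20 23 (.thr 36 52 (.thr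 48 24 (.thr 26 15 (.thr 16 31 (.dbl 0 8 32)))))) (.nv (.thr 0 8 (.thr 42 63 (.thr 2 62 (.thr 3 1 (.thr 20 23 (.dbl 60 40 41)))))) (.rp 23 (.thr 0 8 (.thr 42 63 (.thr 32 47 (.thr 48 16 (.thr 36 24 (.thr 20 52 (.dbl 40 44 60))))))) (.rp 20 (.thr 0 8 (.thr 42 63 (.thr 32 47 (.thr 48 16 (.thr 2 62 (.thr 3 1 (.thr 33 18 (.dbl 41 45 60)))))))) (.rp 11 (.thr 20 23 (.thr 36 52 (.thr 24 48 (.thr 28 16 (.thr 60 44 (.dbl 0 8 40)))))) (.rp 8 (.thr 20 23 (.thr 36 52 (.thr 48 24 (.thr 26 15 (.thr 18 30 (.thr 3 33 (.thr 60 41 (.thr 44 28 (.dbl 40 0 32))))))))) (.rp 0 (.thr 20 23 (.thr 36 52 (.thr 48 24 (.thr 26 15 (.thr 18 30 (.thr 3 33 (.thr 9 6 (.thr 1 13 (.dbl 41 60 61))))))))) .nd)))))))))) (.rp 6 (.thr 20 23 (.dbl 52 7 36)) .nd))))))) (.rp 23 (.thr 7 6 (.thr 52 22 (.thr 36 20 (.dbl 38 39 55))))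 (.rp 22 (.thr 6 7 (.str 9 (.nv (.thr 12 3 (.thr 0 8 (.thr 38 55 (.thr 42 63 (.thr 32 47 (.thr 48 16 (.dbl 36 24 39))))))) (.nv (.thr 12 3 (.thr 13 1 (.thr 15 14 (.thr 48 26 (.thr 38 55 (.dbl 36 24 39)))))) (.nv (.thr 1 13 (.thr 38 55 (.thr 39 36 (.thr 41 61 (.thr 35 44 (.thr 47 43 (.thr 32 42 (.dbl 33 34 45)))))))) (.nv (.thr 12 3 (.thr 0 8 (.thr 42 63 (.thr 13 1 (.thr 32 47 (.thr 15 14 (.dbl 48 16 26))))))) (.rp 58 (.thr 13 1 (.thr 12 3 (.thr 0 8 (.thr 15 14 (.thr 48 26 (.thr 42 63 (.dbl 32 16 47))))))) (.rp 42 (.thr 13 1 (.thr 12 3 (.thr 15 14 (.thr 26 48 (.thr 31 16 (.thr 63 47 (.thr 29 46 (.thr 45 61 (.dbl 30 28 60))))))))) (.rp 41 (.thr 1 13 (.thr 3 12 (.thr 0 2 (.thr 38 55 (.thr 42 63 (.thr 32 47 (.thr 48 16 (.thr 33 18 (.dbl 34 35 46))))))))) (.rp 28 (.str 19 (.nv (.thr 1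 13 (.thr 38 55 (.thr 41 61 (.thr 35 44 (.dbl 3 12 51))))) (.nv (.thr 1 13 (.thr 3 12 (.thr 51 35 (.thr 0 2 (.thr 17 34 (.thr 18 16 (.dbl 33 48 49))))))) (.nv (.thr 12 3 (.thr 13 1 (.thr 15 14 (.thr 38 55 (.thr 48 26 (.dbl 36 24 39)))))) (.nv (.thr 1 13 (.thr 3 12 (.thr 41 61 (.thr 35 51 (.dbl 38 44 55))))) (.rp 60 (.thr 38 55 (.thr 1 13 (.thr 41 61 (.thr 44 35 (.thr 45 33 (.thr 47 46 (.thr 32 42 (.dbl 36 39 40)))))))) (.rp 13 (.thr 38 55 (.thr 12 3 (.thr 0 8 (.thr 42 63 (.thr 32 47 (.thr 48 16 (.dbl 36 24 39))))))) (.rp 12 (.thr 38 55 (.thr 1 13 (.thr 41 61 (.thr 44 35 (.thr 45 33 (.thr 47 46 (.thr 32 42 (.dbl 36 39 40)))))))) (.rp 3 (.thr 38 55 (.thr 39 36 (.thr 1 13 (.thr 41 61 (.thr 35 44 (.thr 47 43 (.thr 32 42 (.dbl 33 34 45)))))))) (.rp 1 (.thr 38 55 (.thr 12 3 (.thr 0 8 (.thr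 42 63 (.thr 32 47 (.thr 48 16 (.dbl 36 24 39))))))) .nd)))))))))) (.rp 19 (.str 28 (.nv (.thr 1 13 (.thr 38 55 (.thr 41 61 (.thr 44 35 (.dbl 12 3 60))))) (.nv (.thr 12 3 (.thr 60 44 (.thr 0 8 (.thr 20 40 (.thr 24 16 (.dbl 36 48 52)))))) (.nv (.thr 12 3 (.thr 1 13 (.thr 38 55 (.thr 44 60 (.dbl 41 35 61))))) (.rp 60 (.thr 1 13 (.thr 41 61 (.thr 45 33 (.thr 38 55 (.thr 44 35 (.thr 47 46 (.thr 32 42 (.dbl 36 39 40)))))))) (.rp 52 (.thr 1 13 (.thr 41 61 (.thr 12 3 (.thr 44 60 (.dbl 38 35 55))))) (.rp 51 (.thr 1 13 (.thr 41 61 (.thr 38 55 (.thr 35 44 (.thr 39 36 (.thr 47 43 (.thr 32 42 (.dbl 33 34 45)))))))) (.rp 44 (.thr 13 1 (.thr 12 3 (.thr 15 14 (.thr 48 26 (.thr 38 55 (.dbl 36 24 39)))))) (.rp 35 (.thr 1 13 (.thr 41 61 (.thr 3 12 (.thr 0 2 (.thr 42 63 (.thr 32 47 (.thr 48 16 (.dbl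 33 18 45)))))))) (.rp 12 (.thr 1 13 (.thr 41 61 (.thr 45 33 (.thr 38 55 (.thr 44 35 (.thr 47 46 (.thr 32 42 (.dbl 36 39 40)))))))) (.rp 3 (.thr 1 13 (.thr 41 61 (.thr 38 55 (.thr 35 44 (.thr 39 36 (.thr 47 43 (.thr 32 42 (.dbl 33 34 45)))))))) .nd))))))))))) .nd))))))))))) (.rp 20 (.str 1 (.nv (.thr 7 6 (.thr 22 52 (.thr 41 61 (.thr 3 60 (.thr 15 11 (.thr 48 26 (.dbl 33 18 45))))))) (.nv (.thr 9 13 (.thr 41 61 (.thr 6 7 (.thr 3 12 (.thr 38 55 (.dbl 22 54 60)))))) (.rp 61 (.thr 9 13 (.thr 6 7 (.thr 12 3 (.thr 0 8 (.thr 38 55 (.thr 42 63 (.thr 32 47 (.thr 48 16 (.dbl 36 24 39))))))))) (.rp 60 (.thr 41 61 (.thr 33 45 (.thr 38 55 (.thr 39 36 (.thr 35 44 (.thr 47 43 (.dbl 32 34 42))))))) (.rp 57 (.thr 9 13 (.thr 6 7 (.thr 12 3 (.thr 0 8 (.thr 38 55 (.thr 42 63 (.thr 32 47 (.thr 48 16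 (.dbl 36 24 39))))))))) (.rp 55 (.thr 9 13 (.thr 41 61 (.thr 6 7 (.thr 3 12 (.thr 0 2 (.thr 42 63 (.thr 32 47 (.thr 48 16 (.dbl 33 18 45))))))))) (.rp 54 (.thr 41 61 (.thr 33 45 (.thr 7 6 (.thr 22 52 (.thr 55 38 (.thr 3 60 (.thr 15 11 (.dbl 48 18 26)))))))) (.rp 52 (.thr 9 13 (.thr 41 61 (.thr 6 7 (.thr 3 12 (.thr 22 60 (.dbl 38 54 55)))))) (.rp 49 (.thr 9 13 (.thr 6 7 (.thr 12 3 (.thr 0 8 (.thr 38 55 (.thr 42 63 (.thr 32 47 (.thr 48 16 (.dbl 36 24 39))))))))) (.rp 45 (.thr 41 61 (.thr 7 6 (.thr 22 52 (.thr 3 60 (.thr 55 38 (.thr 23 39 (.thr 63 43 (.dbl 0 2 42)))))))) (.rp 41 (.thr 9 13 (.thr 6 7 (.thr 12 3 (.thr 0 8 (.thr 38 55 (.thr 42 63 (.thr 32 47 (.thr 48 16 (.dbl 36 24 39))))))))) (.rp 22 (.thr 41 61 (.thr 33 45 (.thr 38 55 (.thr 39 36 (.thr 35 44 (.thr 47 43 (.dbl 32 34 42)))))))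 (.rp 15 (.thr 41 61 (.thr 33 45 (.thr 38 55 (.thr 39 36 (.thr 35 44 (.thr 47 43 (.dbl 32 34 42))))))) (.rp 14 (.thr 41 61 (.thr 33 45 (.thr 38 55 (.thr 39 36 (.thr 35 44 (.thr 47 43 (.dbl 32 34 42))))))) (.rp 9 (.thr 41 61 (.thr 33 45 (.thr 7 6 (.thr 22 52 (.thr 3 60 (.thr 48 18 (.dbl 15 11 26))))))) (.rp 7 (.thr 41 61 (.thr 33 45 (.thr 38 55 (.thr 39 36 (.thr 35 44 (.thr 47 43 (.dbl 32 34 42))))))) (.rp 6 (.thr 41 61 (.thr 33 45 (.thr 38 55 (.thr 39 36 (.thr 35 44 (.thr 47 43 (.dbl 32 34 42))))))) (.rp 3 (.thr 41 61 (.thr 33 45 (.thr 38 55 (.thr 39 36 (.thr 35 44 (.thr 47 43 (.dbl 32 34 42))))))) .nd))))))))))))))))))) (.rp 7 (.str 42 (.nv (.thr 0 63 (.thr 32 47 (.thr 38 55 (.thr 34 46 (.thr 48 16 (.thr 51 17 (.thr 50 49 (.dbl 26 14 15)))))))) (.nv (.thr 0 63 (.thr 12 8 (.thr 32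 47 (.thr 48 16 (.thr 36 24 (.thr 40 44 (.dbl 20 52 60))))))) (.nv (.thr 0 63 (.thr 12 8 (.thr 32 47 (.thr 48 16 (.thr 36 24 (.dbl 38 39 55)))))) (.nv (.thr 38 55 (.thr 39 36 (.thr 46 34 (.thr 47 32 (.thr 35 43 (.dbl 44 41 45)))))) (.rp 47 (.thr 0 63 (.thr 12 8 (.thr 38 55 (.thr 39 36 (.thr 34 46 (.thr 51 17 (.thr 15 27 (.thr 14 13 (.dbl 26 48 50))))))))) (.rp 32 (.thr 0 63 (.thr 12 8 (.thr 38 55 (.thr 39 36 (.thr 34 46 (.thr 51 17 (.thr 15 27 (.thr 14 13 (.dbl 26 48 50))))))))) .nd))))))) (.rp 6 (.str 42 (.nv (.thr 0 63 (.thr 12 8 (.thr 32 47 (.thr 48 16 (.thr 36 24 (.thr 40 44 (.dbl 20 52 60))))))) (.nv (.thr 0 63 (.thr 12 8 (.thr 32 47 (.thr 48 16 (.thr 36 24 (.dbl 38 39 55)))))) (.nv (.thr 38 55 (.thr 39 36 (.thr 46 34 (.thr 47 32 (.thr 35 43 (.dbl 44 41 45)))))) (.rp 47 (.thr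 0 63 (.thr 12 8 (.thr 38 55 (.thr 36 39 (.thr 48 24 (.thr 16 32 (.dbl 26 15 31))))))) (.rp 40 (.thr 47 32 (.thr 38 55 (.thr 46 34 (.thr 44 45 (.thr 39 36 (.dbl 35 41 43)))))) (.rp 36 (.thr 47 32 (.thr 63 0 (.thr 15 31 (.thr 38 55 (.thr 46 34 (.thr 12 29 (.thr 14 13 (.dbl 26 48 50)))))))) (.rp 32 (.thr 0 63 (.thr 12 8 (.thr 38 55 (.thr 39 36 (.thr 34 46 (.thr 51 17 (.thr 15 27 (.thr 14 13 (.dbl 26 48 50))))))))) (.rp 14 (.str 2 (.nv (.thr 38 55 (.thr 36 39 (.thr 52 20 (.dbl 22 7 62)))) (.nv (.thr 0 63 (.thr 3 1 (.thr 22 62 (.thr 20 23 (.dbl 60 40 41))))) (.nv (.thr 22 62 (.thr 20 23 (.dbl 52 7 36))) (.rp 62 (.thr 47 32 (.thr 38 55 (.thr 46 34 (.thr 44 45 (.thr 35 41 (.dbl 39 36 43)))))) (.rp 23 (.thr 22 62 (.thr 52 7 (.thr 36 20 (.dbl 38 39 55)))) (.rp 22 (.thr 47 32 (.thr 38 55 (.thr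 46 34 (.thr 44 45 (.thr 35 41 (.dbl 39 36 43)))))) (.rp 20 (.thr 47 32 (.thr 38 55 (.thr 46 34 (.thr 44 45 (.thr 35 41 (.dbl 39 36 43)))))) .nd)))))))) (.rp 2 (.str 14 (.nv (.thr 0 63 (.thr 12 8 (.thr 15 13 (.thr 38 55 (.dbl 26 48 50))))) (.nv (.thr 0 63 (.thr 32 47 (.thr 38 55 (.thr 36 39 (.thr 40 44 (.dbl 20 52 60)))))) (.nv (.thr 0 63 (.thr 12 8 (.thr 15 13 (.thr 32 47 (.dbl 48 16 26))))) (.rp 63 (.thr 47 32 (.thr 38 55 (.thr 39 36 (.thr 35 43 (.thr 44 41 (.dbl 46 34 45)))))) (.rp 58 (.thr 47 32 (.thr 63 0 (.thr 15 31 (.thr 38 55 (.dbl 26 48 50))))) (.rp 48 (.thr 47 32 (.thr 38 55 (.thr 39 36 (.thr 35 43 (.thr 44 41 (.dbl 46 34 45)))))) (.rp 15 (.thr 47 32 (.thr 38 55 (.thr 39 36 (.thr 35 43 (.thr 44 41 (.dbl 46 34 45)))))) (.rp 0 (.thr 47 32 (.thr 38 55 (.thr 39 36 (.thr 35 43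 (.thr 44 41 (.dbl 46 34 45)))))) .nd))))))))) .nd)))))))))) .nd))))))))))))

theorem w350 : WinAt (137441050656, 9007199288296448) :=
  chF (K := []) kn c350 137441050656 9007199288296448 53
    [] (by decide +kernel) (by decide +kernel)

/-- A certificate. -/
noncomputable def c351 : Ct := (.str 42 (.nv (.thr 53 5 (.thr 52 54 (.thr 32 47 (.thr 0 63 (.thr 48 16 (.thr 60 56 (.thr 20 40 (.dbl 22 7 23)))))))) (.nv (.thr 47 32 (.thr 63 0 (.thr 15 31 (.thr 51 59 (.thr 39 27 (.thr 43 35 (.dbl 23 3 7))))))) (.rp 63 (.thr 47 32 (.thr 53 5 (.thr 52 54 (.thr 7 22 (.thr 39 23 (.thr 38 36 (.thr 46 34 (.thr 44 45 (.dbl 35 41 43))))))))) (.rp 48 (.thr 47 32 (.thr 53 5 (.thr 52 54 (.thr 7 22 (.thr 39 23 (.thr 38 36 (.thr 46 34 (.thr 35 43 (.dbl 44 41 45))))))))) (.rp 47 (.thr 0 63 (.thr 53 5 (.thr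 52 54 (.thr 7 22 (.thr 39 23 (.thr 38 36 (.thr 34 46 (.thr 51 17 (.thr 15 27 (.thr 3 11 (.thr 1 2 (.thr 41 61 (.dbl 35 19 44))))))))))))) (.rp 32 (.thr 0 63 (.thr 53 5 (.thr 52 54 (.thr 7 22 (.thr 39 23 (.thr 38 36 (.thr 34 46 (.thr 51 17 (.thr 15 27 (.thr 3 11 (.thr 1 2 (.thr 41 61 (.dbl 35 19 44))))))))))))) (.rp 31 (.thr 47 32 (.thr 53 5 (.thr 52 54 (.thr 7 22 (.thr 39 23 (.thr 38 36 (.thr 46 34 (.thr 35 43 (.dbl 44 41 45))))))))) (.rp 24 (.thr 47 32 (.thr 63 0 (.thr 51 59 (.thr 53 5 (.thr 15 31 (.thr 52 54 (.thr 7 22 (.dbl 39 23 27)))))))) (.rp 23 (.thr 47 32 (.thr 63 0 (.thr 51 59 (.thr 53 5 (.thr 15 31 (.thr 54 52 (.thr 57 60 (.thr 49 61 (.dbl 48 50 58))))))))) (.rp 16 (.thr 47 32 (.thr 53 5 (.thr 52 54 (.thr 7 22 (.thr 39 23 (.thr 38 36 (.thr 46 34 (.thr 35 43 (.dbl 44 41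 45))))))))) (.rp 15 (.thr 47 32 (.thr 0 63 (.thr 53 5 (.thr 52 54 (.thr 7 22 (.thr 39 23 (.thr 38 36 (.thr 46 34 (.thr 44 45 (.dbl 35 41 43)))))))))) (.rp 8 (.thr 32 47 (.thr 0 63 (.thr 48 16 (.thr 53 5 (.thr 52 54 (.thr 60 56 (.thr 40 20 (.thr 41 43 (.dbl 22 3 7))))))))) (.rp 7 (.thr 47 32 (.thr 63 0 (.thr 51 59 (.thr 15 31 (.thr 39 27 (.thr 38 36 (.thr 46 34 (.dbl 12 25 29)))))))) (.rp 0 (.thr 5 53 (.thr 32 47 (.str 41 (.nv (.thr 1 61 (.thr 13 9 (.thr 49 25 (.dbl 33 17 45)))) (.nv (.thr 33 45 (.thr 35 34 (.thr 40 43 (.dbl 44 36 38)))) (.rp 45 (.thr 40 43 (.thr 1 61 (.thr 44 36 (.thr 35 38 (.thr 33 34 (.thr 13 9 (.dbl 49 17 25))))))) (.rp 33 (.thr 40 43 (.thr 36 44 (.thr 39 38 (.thr 7 23 (.thr 22 52 (.thr 3 60 (.thr 15 11 (.thr 51 27 (.thr 59 63 (.thr 19 35 (.dbl 25 8 28)))))))))))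 (.rp 17 (.thr 40 43 (.thr 44 36 (.thr 35 38 (.dbl 33 34 45)))) (.rp 12 (.str 8 (.nv (.thr 33 45 (.thr 35 34 (.thr 40 43 (.dbl 44 36 38)))) (.nv (.thr 1 61 (.thr 25 59 (.dbl 9 13 57))) .nd))) (.rp 8 (.str 12 (.nv (.thr 1 61 (.thr 33 45 (.thr 49 17 (.dbl 13 9 25)))) (.nv (.thr 1 61 (.thr 9 13 (.thr 3 6 (.thr 22 60 (.thr 7 52 (.dbl 23 20 39)))))) (.nv (.thr 33 45 (.thr 35 34 (.thr 40 43 (.dbl 44 36 38)))) (.rp 45 (.thr 40 43 (.thr 44 36 (.thr 1 61 (.thr 60 28 (.thr 3 22 (.dbl 9 6 13)))))) (.rp 11 (.str 9 (.nv (.dbl 1 13 61) (.rp 61 (.thr 13 1 (.dbl 25 49 57)) (.rp 13 (.thr 33 45 (.thr 35 34 (.thr 44 38 (.dbl 40 36 43)))) (.rp 1 (.thr 33 45 (.thr 35 34 (.thr 44 38 (.dbl 40 36 43)))) .nd))))) (.rp 9 (.str 11 (.nv (.thr 40 43 (.thr 44 36 (.thr 60 28 (.thr 61 1 (.thr 62 63 (.dbl 22 2 3))))))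 (.nv (.thr 45 33 (.thr 61 1 (.thr 13 29 (.thr 15 14 (.thr 3 7 (.dbl 60 22 30)))))) (.nv (.thr 33 45 (.thr 35 34 (.thr 40 43 (.dbl 44 36 38)))) .nd)))) .nd))))))) .nd)))))))))) .nd)))))))))))))))

theorem w351 : WinAt (36028934460014592, 67109904) :=
  chF (K := []) kn c351 36028934460014592 67109904 4
    [288234774265332736] (by decide +kernel) (by decide +kernel)

/-- A certificate. -/
noncomputable def c352 : Ct := (.str 50 (.nv (.thr 33 45 (.thr 1 61 (.thr 13 9 (.dbl 49 17 25)))) (.nv (.thr 33 45 (.thr 1 61 (.thr 49 17 (.dbl 13 9 25)))) (.rp 61 (.thr 47 32 (.thr 43 40 (.thr 39 35 (.thr 23 7 (.thr 3 63 (.dbl 22 20 60)))))) (.rp 49 (.thr 47 32 (.thr 43 40 (.thr 39 35 (.thr 23 7 (.thr 3 63 (.dbl 22 20 60)))))) (.rp 45 (.thr 47 32 (.thr 43 40 (.thr 39 35 (.thr 23 7 (.thr 3 63 (.dbl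 22 20 60)))))) (.rp 33 (.thr 1 61 (.thr 13 9 (.thr 49 25 (.thr 51 48 (.thr 63 59 (.thr 43 40 (.thr 3 23 (.thr 35 19 (.dbl 47 32 39))))))))) (.rp 25 (.thr 47 32 (.thr 43 40 (.thr 39 35 (.thr 23 7 (.thr 3 63 (.dbl 22 20 60)))))) (.rp 17 (.thr 47 32 (.thr 43 40 (.thr 39 35 (.thr 23 7 (.thr 3 63 (.dbl 22 20 60)))))) (.rp 13 (.thr 47 32 (.thr 43 40 (.thr 39 35 (.thr 23 7 (.thr 3 63 (.dbl 22 20 60)))))) (.rp 9 (.thr 47 32 (.thr 43 40 (.thr 39 35 (.thr 23 7 (.thr 3 63 (.dbl 22 20 60)))))) (.rp 6 (.str 2 (.nv (.thr 1 61 (.thr 13 9 (.thr 33 45 (.dbl 49 17 25)))) (.nv (.thr 22 62 (.thr 7 52 (.dbl 23 20 39))) (.rp 22 (.str 54 (.nv (.thr 1 61 (.thr 13 9 (.thr 33 45 (.dbl 49 17 25)))) (.nv (.thr 33 45 (.thr 32 47 (.dbl 34 18 35))) (.rp 45 (.thr 1 61 (.thr 32 47 (.thr 13 9 (.thr 49 25 (.thr 33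 17 (.dbl 34 18 35)))))) (.rp 33 (.thr 1 61 (.thr 58 62 (.thr 9 13 (.thr 57 25 (.thr 59 56 (.dbl 51 60 63)))))) (.rp 30 (.thr 18 34 (.thr 1 61 (.thr 33 45 (.thr 48 3 (.dbl 49 17 51))))) (.rp 18 (.str 30 (.nv (.thr 45 33 (.thr 60 15 (.thr 62 58 (.dbl 61 1 63)))) (.nv (.thr 1 61 (.thr 33 45 (.thr 49 17 (.dbl 13 9 25)))) (.nv (.thr 62 58 (.thr 61 1 (.thr 45 33 (.dbl 60 15 63)))) (.rp 61 (.thr 58 62 (.thr 45 33 (.thr 60 15 (.thr 57 51 (.thr 25 9 (.dbl 59 8 56)))))) (.rp 45 (.thr 62 58 (.thr 61 1 (.thr 47 32 (.thr 43 40 (.thr 39 35 (.thr 23 7 (.dbl 63 3 60))))))) (.rp 33 (.thr 58 62 (.thr 1 61 (.thr 9 13 (.thr 57 25 (.thr 59 56 (.dbl 51 60 63)))))) (.rp 1 (.thr 62 58 (.thr 45 33 (.thr 60 15 (.thr 51 57 (.dbl 63 59 61))))) .nd)))))))) .nd))))))) .nd)))) (.rp 2 (.str 6 (.nv (.thr 1 61 (.thr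 33 45 (.thr 49 17 (.dbl 13 9 25)))) (.nv (.thr 7 4 (.thr 23 39 (.dbl 22 20 52))) (.rp 1 (.str 3 (.nv (.thr 7 4 (.thr 23 39 (.dbl 43 40 63))) (.nv (.thr 43 40 (.thr 23 63 (.dbl 22 20 60))) (.nv (.thr 7 4 (.dbl 22 52 60)) .nd)))) .nd)))) (.rp 1 (.thr 47 32 (.thr 43 40 (.thr 39 35 (.thr 23 7 (.thr 3 63 (.dbl 22 20 60)))))) .nd))))))))))))))

theorem w352 : WinAt (36035531529781280, 9007474199774209) :=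
  chF (K := []) kn c352 36035531529781280 9007474199774209 14
    [17476] (by decide +kernel) (by decide +kernel)

/-- A certificate. -/
noncomputable def c353 : Ct := (.str 41 (.nv (.thr 33 45 (.thr 1 61 (.thr 49 17 (.dbl 13 9 25)))) (.nv (.thr 33 45 (.thr 1 61 (.thr 13 9 (.dbl 49 17 25)))) (.rp 61 (.thr 47 32 (.thr 43 40 (.thr 39 35 (.thr 23 7 (.thr 3 63 (.dbl 22 20 60)))))) (.rp 50 (.str 14 (.nv (.thr 33 45 (.thr 1 61 (.thr 49 17 (.dbl 13 9 25)))) (.nv (.thr 33 45 (.thr 1 61 (.thr 13 9 (.dbl 49 17 25)))) (.rp 61 (.thr 47 32 (.thr 43 40 (.thr 39 35 (.thr 23 7 (.thr 3 63 (.dbl 22 20 60)))))) (.rp 49 (.thr 47 32 (.thr 43 40 (.thr 39 35 (.thr 23 7 (.thr 3 63 (.dbl 22 20 60)))))) (.rp 45 (.thr 47 32 (.thr 43 40 (.thr 39 35 (.thr 23 7 (.thr 3 63 (.dbl 22 20 60)))))) (.rp 33 (.thr 1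 61 (.thr 13 9 (.thr 15 12 (.thr 47 32 (.thr 63 31 (.thr 59 51 (.dbl 25 8 49))))))) (.rp 25 (.thr 47 32 (.thr 43 40 (.thr 39 35 (.thr 23 7 (.thr 3 63 (.dbl 22 20 60)))))) (.rp 17 (.thr 47 32 (.thr 43 40 (.thr 39 35 (.thr 23 7 (.thr 3 63 (.dbl 22 20 60)))))) (.rp 13 (.thr 47 32 (.thr 43 40 (.thr 39 35 (.thr 23 7 (.thr 3 63 (.dbl 22 20 60)))))) (.rp 9 (.thr 47 32 (.thr 43 40 (.thr 39 35 (.thr 23 7 (.thr 3 63 (.dbl 22 20 60)))))) (.rp 1 (.thr 47 32 (.thr 43 40 (.thr 39 35 (.thr 23 7 (.thr 3 63 (.dbl 22 20 60)))))) .nd)))))))))))) (.rp 49 (.thr 47 32 (.thr 43 40 (.thr 39 35 (.thr 23 7 (.thr 3 63 (.dbl 22 20 60)))))) (.rp 45 (.thr 47 32 (.thr 43 40 (.thr 39 35 (.thr 23 7 (.thr 3 63 (.dbl 22 20 60)))))) (.rp 33 (.thr 40 43 (.str 22 (.nv (.thr 23 20 (.dbl 7 39 52)) (.rp 52 (.thr 23 20 (.thr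 7 39 (.thr 3 60 (.thr 1 61 (.thr 9 13 (.dbl 6 4 12)))))) (.rp 50 (.str 14 (.nv (.thr 23 20 (.dbl 7 39 52)) (.rp 52 (.thr 23 20 (.thr 7 39 (.thr 1 61 (.thr 13 9 (.thr 15 12 (.dbl 3 11 60)))))) (.rp 39 (.thr 20 23 (.thr 52 7 (.thr 36 4 (.dbl 32 44 47)))) (.rp 23 (.thr 7 52 (.thr 6 4 (.thr 1 61 (.thr 9 13 (.dbl 3 12 60))))) (.rp 20 (.thr 7 52 (.thr 1 61 (.thr 13 9 (.thr 15 12 (.dbl 3 11 60))))) (.rp 7 (.thr 62 2 (.thr 30 46 (.thr 1 61 (.thr 13 9 (.thr 15 12 (.dbl 60 3 45)))))) .nd))))))) (.rp 39 (.thr 20 23 (.thr 52 7 (.thr 36 4 (.dbl 32 44 47)))) (.rp 23 (.thr 7 52 (.thr 6 4 (.thr 3 60 (.thr 1 61 (.dbl 9 12 13))))) (.rp 20 (.thr 7 52 (.thr 3 60 (.thr 1 61 (.thr 9 13 (.dbl 6 4 12))))) (.rp 14 (.str 50 (.nv (.thr 23 20 (.dbl 7 39 52)) (.rp 52 (.thr 23 20 (.thr 7 39 (.thr 3 60 (.thr 1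 61 (.thr 9 13 (.dbl 6 4 12)))))) (.rp 39 (.thr 20 23 (.thr 52 7 (.thr 36 4 (.dbl 32 44 47)))) (.rp 23 (.thr 7 52 (.thr 6 4 (.thr 3 60 (.thr 1 61 (.dbl 9 12 13))))) (.rp 20 (.thr 7 52 (.thr 3 60 (.thr 1 61 (.thr 9 13 (.dbl 6 4 12))))) (.rp 7 (.thr 60 3 (.thr 1 61 (.thr 32 47 (.thr 44 36 (.thr 28 12 (.thr 25 19 (.dbl 9 13 57))))))) (.rp 6 (.thr 2 62 (.thr 23 20 (.dbl 7 39 52))) (.rp 2 (.str 6 (.nv (.thr 1 61 (.thr 3 60 (.dbl 9 12 13))) (.nv (.dbl 7 4 52) (.rp 3 (.thr 1 61 (.dbl 7 4 52)) (.rp 1 (.thr 3 60 (.dbl 7 4 52)) .nd))))) .nd))))))))) (.rp 7 (.thr 60 3 (.thr 1 61 (.thr 32 47 (.thr 44 36 (.thr 28 12 (.thr 25 19 (.dbl 9 13 57))))))) .nd)))))))))) (.rp 25 (.thr 47 32 (.thr 43 40 (.thr 39 35 (.thr 23 7 (.thr 3 63 (.dbl 22 20 60)))))) (.rp 17 (.thr 47 32 (.thr 43 40 (.thr 39 35 (.thr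 23 7 (.thr 3 63 (.dbl 22 20 60)))))) (.rp 14 .ext (.rp 13 (.thr 47 32 (.thr 43 40 (.thr 39 35 (.thr 23 7 (.thr 3 63 (.dbl 22 20 60)))))) (.rp 9 (.thr 47 32 (.thr 43 40 (.thr 39 35 (.thr 23 7 (.thr 3 63 (.dbl 22 20 60)))))) (.rp 1 (.thr 47 32 (.thr 43 40 (.thr 39 35 (.thr 23 7 (.thr 3 63 (.dbl 22 20 60)))))) .nd))))))))))))))

theorem w353 : WinAt (36033332506525728, 9007474199757825) :=
  chF (K := [(36035531529781280, 9007474199774209)]) (kc w352 kn) c353 36033332506525728 9007474199757825 53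
    [1126174851874816] (by decide +kernel) (by decide +kernel)

/-- A certificate. -/
noncomputable def c354 : Ct := (.thr 5 53 .ext)

theorem w354 : WinAt (36033332506525696, 274945016833) :=
  chF (K := [(36033332506525728, 9007474199757825)]) (kc w353 kn) c354 36033332506525696 274945016833 0
    [33825, 1126174851874816] (by decide +kernel) (by decide +kernel)

/-- A certificate. -/
noncomputable def c355 : Ct := (.str 41 (.nv (.thr 33 45 (.thr 1 61 (.thr 13 9 (.dbl 49 17 25)))) (.nv (.thr 33 45 (.thr 1 61 (.thr 49 17 (.dbl 13 9 25)))) (.rp 61 (.thr 47 32 (.thr 43 40 (.thr 39 35 (.thr 23 7 (.thr 3 63 (.dbl 22 20 60)))))) (.rp 49 (.thr 47 32 (.thr 43 40 (.thr 39 35 (.thr 23 7 (.thr 3 63 (.dbl 22 20 60)))))) (.rp 45 (.thr 47 32 (.thr 43 40 (.thr 39 35 (.thr 23 7 (.thr 3 63 (.dbl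 22 20 60)))))) (.rp 33 (.thr 1 61 (.thr 13 9 (.thr 49 25 (.thr 51 48 (.thr 63 59 (.thr 43 40 (.thr 3 23 (.thr 35 19 (.dbl 47 32 39))))))))) (.rp 25 (.thr 47 32 (.thr 43 40 (.thr 39 35 (.thr 23 7 (.thr 3 63 (.dbl 22 20 60)))))) (.rp 17 (.thr 47 32 (.thr 43 40 (.thr 39 35 (.thr 23 7 (.thr 3 63 (.dbl 22 20 60)))))) (.rp 13 (.thr 47 32 (.thr 43 40 (.thr 39 35 (.thr 23 7 (.thr 3 63 (.dbl 22 20 60)))))) (.rp 9 (.thr 47 32 (.thr 43 40 (.thr 39 35 (.thr 23 7 (.thr 3 63 (.dbl 22 20 60)))))) (.rp 6 (.str 2 (.nv (.thr 1 61 (.thr 13 9 (.thr 33 45 (.dbl 49 17 25)))) (.nv (.thr 22 62 (.thr 7 52 (.dbl 23 20 39))) (.rp 22 (.str 54 (.nv (.thr 1 61 (.thr 13 9 (.thr 33 45 (.dbl 49 17 25)))) (.nv (.thr 33 45 (.thr 32 47 (.dbl 34 18 35))) (.rp 45 (.thr 1 61 (.thr 32 47 (.thr 13 9 (.thr 49 25 (.thr 33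 17 (.dbl 34 18 35)))))) (.rp 33 (.thr 1 61 (.thr 58 62 (.thr 9 13 (.thr 57 25 (.thr 59 56 (.dbl 51 60 63)))))) (.rp 30 (.thr 18 34 (.thr 1 61 (.thr 33 45 (.thr 48 3 (.dbl 49 17 51))))) (.rp 18 (.str 30 (.nv (.thr 45 33 (.thr 60 15 (.thr 62 58 (.dbl 61 1 63)))) (.nv (.thr 1 61 (.thr 33 45 (.thr 49 17 (.dbl 13 9 25)))) (.nv (.thr 62 58 (.thr 61 1 (.thr 45 33 (.dbl 60 15 63)))) (.rp 61 (.thr 58 62 (.thr 45 33 (.thr 60 15 (.thr 57 51 (.thr 25 9 (.dbl 59 8 56)))))) (.rp 45 (.thr 62 58 (.thr 61 1 (.thr 47 32 (.thr 43 40 (.thr 39 35 (.thr 23 7 (.dbl 63 3 60))))))) (.rp 33 (.thr 58 62 (.thr 1 61 (.thr 9 13 (.thr 57 25 (.thr 59 56 (.dbl 51 60 63)))))) (.rp 1 (.thr 62 58 (.thr 45 33 (.thr 60 15 (.thr 51 57 (.dbl 63 59 61))))) .nd)))))))) .nd))))))) .nd)))) (.rp 2 (.str 6 (.nv (.thr 1 61 (.thr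 33 45 (.thr 49 17 (.dbl 13 9 25)))) (.nv (.thr 7 4 (.thr 23 39 (.dbl 22 20 52))) (.rp 1 (.str 3 (.nv (.thr 7 4 (.thr 23 39 (.dbl 43 40 63))) (.nv (.thr 43 40 (.thr 23 63 (.dbl 22 20 60))) (.nv (.thr 7 4 (.dbl 22 52 60)) .nd)))) .nd)))) (.rp 1 (.thr 47 32 (.thr 43 40 (.thr 39 35 (.thr 23 7 (.thr 3 63 (.dbl 22 20 60)))))) .nd))))))))))))))

theorem w355 : WinAt (37159232413368352, 9007474199774209) :=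
  chF (K := []) kn c355 37159232413368352 9007474199774209 53
    [17476] (by decide +kernel) (by decide +kernel)

/-- A certificate. -/
noncomputable def c356 : Ct := (.thr 5 53 .ext)

theorem w356 : WinAt (37159232413368320, 274945033217) :=
  chF (K := [(37159232413368352, 9007474199774209)]) (kc w355 kn) c356 37159232413368320 274945033217 0
    [17476, 33825] (by decide +kernel) (by decide +kernel)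

/-- A certificate. -/
noncomputable def c357 : Ct := (.str 50 (.nv (.thr 53 5 (.thr 54 52 (.thr 58 62 (.dbl 63 0 48)))) (.nv (.thr 63 0 (.thr 51 59 (.thr 48 49 (.dbl 53 5 58)))) (.rp 63 (.thr 32 47 (.thr 53 5 (.thr 52 54 (.thr 22 7 (.thr 2 62 (.thr 34 18 (.thr 33 35 (.thr 41 45 (.thr 61 1 (.thr 49 57 (.thr 48 51 (.dbl 60 3 56)))))))))))) (.rp 58 (.thr 32 47 (.thr 0 63 (.thr 48 16 (.thr 51 49 (.thr 34 17 (.thr 33 35 (.dbl 18 2 3))))))) (.rp 53 (.thr 32 47 (.thr 0 63 (.thr 48 16 (.thr 51 49 (.thr 34 17 (.thr 33 35 (.dbl 18 2 3))))))) (.rp 48 (.thr 32 47 (.thr 0 63 (.thr 53 5 (.thr 52 54 (.thr 22 7 (.thr 20 23 (.thr 40 60 (.dbl 36 4 44)))))))) (.rp 15 (.thr 63 0 (.thr 5 53 (.thr 51 59 (.thr 49 48 (.thr 13 25 (.thr 1 9 (.thr 33 17 (.dbl 41 45 61)))))))) (.rp 6 (.str 2 (.nv (.thr 63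 0 (.thr 51 59 (.thr 48 49 (.dbl 53 5 58)))) (.nv (.thr 22 62 (.thr 7 52 (.dbl 23 20 39))) (.rp 22 (.str 54 (.nv (.dbl 53 5 52) (.rp 53 (.thr 63 0 (.thr 51 59 (.thr 62 58 (.dbl 60 57 61)))) (.rp 52 (.thr 53 5 (.thr 58 62 (.dbl 63 0 48))) (.rp 30 (.thr 18 34 (.dbl 53 5 52)) (.rp 18 (.str 30 (.nv (.dbl 53 5 52) (.rp 53 (.thr 62 58 (.thr 63 0 (.thr 51 59 (.dbl 60 57 61)))) (.rp 52 (.thr 58 62 (.thr 53 5 (.dbl 63 0 48))) (.rp 5 (.thr 58 62 (.thr 53 52 (.dbl 63 0 48))) .nd))))) (.rp 5 (.thr 53 52 (.thr 58 62 (.dbl 63 0 48))) .nd))))))) .nd)))) (.rp 5 (.thr 32 47 (.thr 0 63 (.thr 48 16 (.thr 51 49 (.thr 34 17 (.thr 33 35 (.dbl 18 2 3))))))) (.rp 2 (.str 6 (.nv (.thr 63 0 (.thr 51 59 (.thr 48 49 (.dbl 53 5 58)))) (.nv (.thr 5 53 (.thr 7 4 (.thr 23 39 (.dbl 22 20 52)))) (.rp 53 (.thr 63 0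 (.thr 51 59 (.thr 47 32 (.thr 15 31 (.thr 39 27 (.thr 23 7 (.dbl 43 3 35))))))) (.rp 5 (.thr 47 32 (.thr 63 0 (.thr 15 31 (.thr 51 59 (.thr 39 27 (.thr 23 7 (.dbl 43 3 35))))))) .nd))))) (.rp 0 .ext .nd))))))))))))

theorem w357 : WinAt (36033332506525696, 274945033216) :=
  chF (K := [(37159232413368320, 274945033217)]) (kc w356 kn) c357 36033332506525696 274945033216 14
    [17476] (by decide +kernel) (by decide +kernel)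

/-- A certificate. -/
noncomputable def c358 : Ct := (.str 49 (.nv (.thr 53 5 (.thr 61 57 (.thr 1 41 (.thr 25 13 (.dbl 17 29 33))))) (.nv (.thr 5 53 (.thr 13 25 (.thr 1 9 (.thr 41 61 (.dbl 33 17 45))))) (.nv (.thr 53 5 (.thr 61 57 (.thr 41 1 (.thr 45 33 (.dbl 13 25 29))))) (.rp 61 (.thr 32 47 (.thr 53 5 (.thr 52 54 (.thr 22 7 (.thr 20 23 (.thr 4 36 (.thr 25 13 (.thr 28 19 (.thr 16 24 (.thr 8 59 (.dbl 0 12 48))))))))))) (.rp 53 (.thr 32 47 (.thr 25 13 (.thr 17 29 (.thr 33 1 (.thr 34 35 (.thr 0 51 (.thr 48 16 (.thr 3 18 (.thr 8 59 (.thr 12 4 (.thr 9 6 (.dbl 41 45 57)))))))))))) (.rp 50 (.str 14 (.nv (.thr 53 5 (.thr 61 57 (.thr 1 41 (.thr 25 13 (.dbl 17 29 33))))) (.nv (.thr 5 53 (.thr 13 25 (.thr 1 9 (.thr 41 61 (.dbl 33 17 45))))) (.nv (.thr 53 5 (.thr 61 57 (.thr 41 1 (.thr 45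 33 (.dbl 13 25 29))))) (.rp 61 (.thr 13 25 (.thr 5 53 (.thr 9 1 (.thr 12 15 (.thr 6 3 (.thr 7 4 (.thr 23 39 (.dbl 22 20 52)))))))) (.rp 53 (.thr 25 13 (.thr 17 29 (.thr 33 1 (.thr 8 59 (.thr 32 47 (.thr 34 35 (.thr 0 51 (.thr 12 4 (.thr 48 16 (.thr 3 18 (.thr 9 6 (.dbl 41 45 57)))))))))))) (.rp 41 (.thr 13 25 (.thr 5 53 (.thr 9 1 (.thr 12 15 (.thr 6 3 (.thr 7 4 (.thr 23 39 (.dbl 22 20 52)))))))) (.rp 33 (.thr 13 25 (.thr 5 53 (.thr 9 1 (.thr 12 15 (.thr 6 3 (.thr 7 4 (.thr 23 39 (.dbl 22 20 52)))))))) (.rp 25 (.thr 53 5 (.thr 61 57 (.thr 41 1 (.thr 47 32 (.thr 43 40 (.thr 39 35 (.thr 7 23 (.dbl 52 22 54)))))))) (.rp 13 (.thr 53 5 (.thr 61 57 (.thr 47 32 (.thr 52 54 (.thr 22 7 (.thr 62 2 (.thr 46 30 (.thr 45 44 (.dbl 41 1 33))))))))) (.rp 5 (.thr 25 13 (.thr 17 29 (.thr 1 33 (.thr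 61 41 (.thr 53 57 (.thr 32 47 (.thr 52 54 (.thr 22 7 (.thr 20 23 (.thr 28 19 (.thr 16 24 (.thr 0 48 (.dbl 2 3 62))))))))))))) (.rp 1 (.thr 13 25 (.thr 53 5 (.thr 61 57 (.thr 45 29 (.thr 47 32 (.thr 46 44 (.thr 30 62 (.dbl 15 12 60)))))))) .nd)))))))))))) (.rp 41 (.thr 32 47 (.thr 53 5 (.thr 52 54 (.thr 57 61 (.thr 22 7 (.thr 20 23 (.thr 62 2 (.thr 4 36 (.thr 25 13 (.thr 19 28 (.thr 29 17 (.thr 8 59 (.thr 0 12 (.thr 48 16 (.dbl 60 40 56))))))))))))))) (.rp 33 (.thr 32 47 (.thr 53 5 (.thr 52 54 (.thr 61 57 (.thr 41 1 (.thr 40 43 (.thr 36 44 (.thr 20 4 (.dbl 22 7 23))))))))) (.rp 25 (.thr 47 32 (.thr 53 5 (.thr 52 54 (.thr 61 57 (.thr 41 1 (.thr 43 40 (.thr 39 35 (.dbl 7 22 23)))))))) (.rp 14 (.str 50 (.nv (.thr 5 53 (.thr 13 25 (.thr 1 9 (.thr 41 61 (.dbl 33 17 45))))) (.nv (.thr 25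 13 (.thr 17 29 (.thr 1 33 (.thr 61 41 (.dbl 53 5 57))))) (.nv (.thr 51 48 (.thr 53 5 (.thr 54 52 (.dbl 57 60 61)))) (.rp 61 (.thr 48 51 (.thr 32 47 (.thr 0 16 (.thr 53 5 (.thr 52 54 (.thr 60 56 (.thr 20 40 (.dbl 22 7 23)))))))) (.rp 53 (.thr 32 47 (.thr 25 13 (.thr 17 29 (.thr 33 1 (.thr 34 35 (.dbl 51 0 48)))))) (.rp 6 (.str 2 (.nv (.thr 22 62 (.thr 7 52 (.dbl 23 20 39))) (.nv (.thr 18 34 (.thr 25 13 (.thr 17 29 (.thr 48 51 (.dbl 33 1 3))))) (.nv (.thr 62 22 (.thr 54 58 (.dbl 53 5 52))) (.rp 22 (.str 54 (.nv (.dbl 53 5 52) (.rp 53 (.thr 51 48 (.thr 58 62 (.thr 25 13 (.thr 59 8 (.dbl 57 56 60))))) (.rp 52 (.thr 51 48 (.thr 53 5 (.dbl 57 60 61))) (.rp 30 (.thr 18 34 (.dbl 53 5 52)) (.rp 18 (.str 30 (.nv (.dbl 53 5 52) (.rp 53 (.thr 58 62 (.thr 25 13 (.thr 51 48 (.thr 59 8 (.dbl 57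 56 60))))) (.rp 52 (.thr 53 5 (.thr 57 61 (.dbl 51 48 60))) (.rp 5 (.thr 51 48 (.thr 53 52 (.dbl 57 60 61))) .nd))))) (.rp 5 (.thr 51 48 (.thr 53 52 (.dbl 57 60 61))) .nd))))))) .nd))))) (.rp 5 (.thr 48 51 (.thr 32 47 (.thr 0 16 (.thr 25 13 (.thr 17 29 (.thr 1 33 (.thr 2 3 (.thr 22 62 (.thr 23 20 (.dbl 7 39 52)))))))))) (.rp 2 (.str 6 (.nv (.thr 13 25 (.thr 53 5 (.thr 61 57 (.thr 41 1 (.dbl 45 29 33))))) (.nv (.thr 5 53 (.thr 7 4 (.thr 23 39 (.dbl 22 20 52)))) (.rp 53 (.thr 32 47 (.thr 25 13 (.thr 17 29 (.thr 33 1 (.thr 34 35 (.dbl 51 0 48)))))) (.rp 5 (.thr 51 48 (.thr 25 13 (.thr 8 59 (.thr 17 29 (.thr 0 34 (.thr 12 4 (.thr 33 1 (.thr 9 3 (.dbl 41 45 57))))))))) .nd))))) .nd))))))))) (.rp 13 (.thr 32 47 (.thr 53 5 (.thr 52 54 (.thr 61 57 (.thr 1 41 (.thr 17 33 (.thr 22 7 (.thr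 2 62 (.thr 0 3 (.thr 48 16 (.dbl 51 34 50))))))))))) (.rp 5 (.thr 32 47 (.thr 25 13 (.thr 17 29 (.thr 1 33 (.thr 61 41 (.thr 53 57 (.thr 52 54 (.thr 22 7 (.thr 19 28 (.thr 16 18 (.thr 2 62 (.dbl 0 3 48)))))))))))) (.rp 1 (.thr 32 47 (.thr 53 5 (.thr 52 54 (.thr 61 57 (.thr 22 7 (.thr 13 25 (.thr 45 29 (.thr 41 33 (.thr 40 43 (.thr 36 44 (.dbl 20 4 23))))))))))) .nd))))))))))))))

theorem w358 : WinAt (36033332506525696, 9223372311799792640) :=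
  chF (K := []) kn c358 36033332506525696 9223372311799792640 63
    [1126174851874816] (by decide +kernel) (by decide +kernel)

/-- A certificate. -/
noncomputable def c359 : Ct := (.str 42 (.nv (.thr 0 63 (.thr 53 5 (.thr 52 54 (.thr 22 7 (.thr 2 62 (.thr 3 1 (.thr 20 23 (.dbl 60 40 41)))))))) (.nv (.thr 47 32 (.thr 63 0 (.thr 15 31 (.thr 51 59 (.thr 39 27 (.thr 23 7 (.dbl 43 3 35))))))) (.rp 63 .ext (.rp 50 (.str 14 (.nv (.thr 0 63 (.thr 53 5 (.thr 52 54 (.thr 22 7 (.thr 20 23 (.thr 60 40 (.thr 3 41 (.dbl 2 1 62)))))))) (.nv (.thr 47 32 (.thr 63 0 (.thr 15 31 (.thr 13 12 (.thr 25 49 (.dbl 59 8 51)))))) (.rp 63 (.thr 53 5 (.thr 52 54 (.thr 22 7 (.thr 62 2 (.thr 46 30 (.thr 47 32 (.thr 45 44 (.thr 41 33 (.thr 61 1 (.thr 13 29 (.dbl 49 25 57))))))))))) (.rp 4 (.thr 63 0 (.thr 47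 32 (.thr 15 31 (.thr 12 13 (.thr 46 29 (.thr 45 44 (.dbl 30 60 62))))))) (.rp 0 (.str 22 (.nv (.thr 23 20 (.dbl 7 39 52)) (.nv (.thr 52 7 (.dbl 53 5 54)) (.rp 52 (.thr 23 20 (.thr 39 7 (.thr 47 32 (.thr 43 35 (.thr 3 63 (.dbl 41 40 60)))))) (.rp 15 (.thr 5 53 (.thr 23 20 (.dbl 7 39 52))) (.rp 7 (.thr 62 2 (.thr 46 30 (.thr 47 32 (.thr 45 44 (.thr 41 33 (.thr 61 1 (.thr 3 60 (.thr 13 29 (.thr 49 25 (.dbl 53 5 57)))))))))) (.rp 5 (.str 15 (.nv (.thr 7 52 (.dbl 23 20 39)) (.rp 52 (.thr 12 13 (.thr 62 2 (.thr 46 30 (.thr 63 29 (.dbl 47 31 32))))) (.rp 39 (.thr 12 13 (.thr 62 2 (.thr 46 30 (.thr 63 29 (.dbl 47 31 32))))) (.rp 23 (.thr 12 13 (.thr 62 2 (.thr 46 30 (.thr 63 29 (.dbl 47 31 32))))) (.rp 20 (.thr 12 13 (.thr 62 2 (.thr 46 30 (.thr 63 29 (.dbl 47 31 32))))) (.rp 7 (.thr 12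 13 (.thr 62 2 (.thr 46 30 (.thr 63 29 (.dbl 47 31 32))))) .nd))))))) .nd))))))) .nd)))))) (.rp 23 (.thr 63 0 (.thr 59 51 (.thr 25 8 (.thr 17 29 (.thr 49 13 (.thr 1 33 (.thr 61 41 (.dbl 53 5 57)))))))) (.rp 14 .ext (.rp 7 (.thr 63 0 (.thr 59 51 (.thr 25 8 (.thr 17 29 (.thr 49 13 (.thr 1 33 (.thr 61 41 (.dbl 53 5 57)))))))) (.rp 3 (.thr 32 47 (.thr 0 63 (.thr 48 16 (.thr 53 5 (.thr 52 54 (.thr 60 56 (.thr 20 40 (.dbl 22 7 23)))))))) (.rp 0 .ext .nd))))))))))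

theorem w359 : WinAt (36028934460014592, 274945016832) :=
  chF (K := [(36033332506525696, 274945016833), (36033332506525696, 274945033216), (36033332506525696, 9223372311799792640)]) (kc w354 (kc w357 (kc w358 kn))) c359 36028934460014592 274945016832 38
    [1126174851874816, 288234774265332736] (by decide +kernel) (by decide +kernel)

/-- A certificate. -/
noncomputable def c360 : Ct := (.str 55 (.nv (.thr 53 5 (.thr 52 54 (.thr 7 22 (.thr 38 4 (.dbl 39 23 36))))) (.nv (.thr 5 53 (.thr 4 38 (.thr 7 6 (.thr 22 52 (.dbl 23 20 39))))) (.nv (.thr 53 5 (.thr 52 54 (.thr 22 7 (.thr 20 23 (.dbl 4 36 38))))) (.rp 58 (.str 42 (.nv (.thr 63 0 (.thr 51 59 (.thr 38 4 (.thr 46 34 (.dbl 12 25 29))))) (.nv (.thr 38 4 (.thr 39 36 (.thr 7 23 (.thr 52 22 (.dbl 53 5 54))))) (.rp 38 (.thr 47 32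 (.thr 63 0 (.thr 51 59 (.thr 15 31 (.thr 39 27 (.thr 43 35 (.dbl 23 3 7))))))) (.rp 5 (.thr 32 47 (.thr 38 4 (.thr 36 39 (.thr 44 40 (.thr 35 41 (.dbl 34 33 46)))))) (.rp 4 (.thr 47 32 (.thr 63 0 (.thr 51 59 (.thr 15 31 (.thr 39 27 (.thr 43 35 (.dbl 23 3 7))))))) .nd)))))) (.rp 53 (.str 42 (.nv (.thr 38 4 (.thr 39 36 (.thr 23 7 (.thr 47 32 (.thr 63 0 (.dbl 43 3 35)))))) (.nv (.thr 32 47 (.thr 38 4 (.thr 34 46 (.thr 35 33 (.thr 36 39 (.dbl 44 40 41)))))) (.nv (.thr 63 0 (.thr 51 59 (.thr 38 4 (.thr 46 34 (.dbl 12 25 29))))) (.rp 38 (.thr 47 32 (.thr 63 0 (.thr 51 59 (.thr 15 31 (.thr 39 27 (.thr 43 35 (.dbl 23 3 7))))))) (.rp 4 (.thr 47 32 (.thr 63 0 (.thr 51 59 (.thr 15 31 (.thr 39 27 (.thr 43 35 (.dbl 23 3 7))))))) .nd)))))) (.rp 52 (.str 42 (.nv (.thr 38 4 (.thr 47 32 (.thr 63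 0 (.thr 15 31 (.thr 51 59 (.dbl 39 27 36)))))) (.nv (.thr 63 0 (.thr 51 59 (.thr 38 4 (.thr 46 34 (.dbl 12 25 29))))) (.nv (.thr 32 47 (.thr 38 4 (.thr 36 39 (.thr 34 46 (.thr 44 40 (.dbl 35 33 41)))))) (.rp 38 (.thr 47 32 (.thr 63 0 (.thr 51 59 (.thr 15 31 (.thr 39 27 (.thr 43 35 (.dbl 23 3 7))))))) (.rp 36 (.thr 47 32 (.thr 63 0 (.thr 51 59 (.thr 15 31 (.thr 39 27 (.thr 43 35 (.dbl 23 3 7))))))) (.rp 4 (.thr 47 32 (.thr 63 0 (.thr 51 59 (.thr 15 31 (.thr 39 27 (.thr 43 35 (.dbl 23 3 7))))))) .nd))))))) (.rp 42 (.str 58 (.nv (.thr 5 53 (.thr 4 38 (.thr 7 6 (.thr 22 52 (.dbl 23 20 39))))) (.nv (.thr 53 5 (.thr 54 52 (.thr 63 48 (.thr 51 59 (.thr 60 57 (.dbl 62 50 61)))))) (.nv (.thr 53 5 (.thr 38 4 (.thr 39 36 (.thr 52 54 (.dbl 7 22 23))))) (.rp 53 (.thr 38 4 (.str 51 (.nv (.thr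 25 12 (.thr 49 13 (.thr 50 48 (.thr 54 62 (.thr 22 6 (.thr 7 52 (.dbl 23 20 39))))))) (.nv (.thr 39 36 (.thr 23 7 (.thr 27 15 (.thr 19 31 (.thr 3 35 (.dbl 63 43 59)))))) (.nv (.thr 25 12 (.thr 13 49 (.thr 29 17 (.thr 59 63 (.thr 61 45 (.thr 57 56 (.dbl 41 1 9))))))) (.rp 0 (.thr 39 36 (.thr 23 7 (.thr 59 63 (.thr 57 56 (.thr 54 60 (.dbl 22 6 20)))))) .nd)))))) (.rp 52 (.thr 53 5 (.thr 63 48 (.thr 51 59 (.thr 38 4 (.thr 25 12 (.thr 17 29 (.thr 49 13 (.thr 61 57 (.dbl 1 33 41))))))))) (.rp 5 (.str 51 (.nv (.thr 38 4 (.thr 25 12 (.thr 49 13 (.thr 50 48 (.thr 54 62 (.thr 52 53 (.dbl 22 6 7))))))) (.nv (.thr 38 4 (.thr 59 63 (.thr 57 56 (.thr 54 60 (.thr 52 53 (.dbl 22 6 7)))))) (.nv (.thr 38 4 (.thr 36 39 (.thr 63 59 (.thr 48 53 (.dbl 12 24 25))))) (.nv (.thr 63 59 (.thr 53 48 (.thr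 54 52 (.thr 60 57 (.dbl 62 50 61))))) (.rp 53 (.thr 59 63 (.thr 57 56 (.thr 54 60 (.thr 38 4 (.thr 39 36 (.thr 7 23 (.dbl 22 6 52))))))) (.rp 15 (.str 0 (.nv (.thr 63 59 (.thr 53 48 (.thr 54 52 (.thr 60 57 (.dbl 62 50 61))))) (.nv (.thr 17 34 (.thr 25 29 (.dbl 38 4 12))) (.rp 25 (.thr 38 4 (.thr 39 36 (.thr 7 23 (.thr 52 22 (.thr 53 54 (.dbl 63 48 59)))))) .nd)))) (.rp 0 (.str 15 (.nv (.thr 38 4 (.dbl 39 27 36)) (.nv (.thr 39 27 (.dbl 38 4 36)) (.rp 39 (.thr 63 59 (.thr 53 48 (.thr 54 52 (.thr 62 50 (.dbl 60 57 61))))) (.rp 38 (.thr 63 59 (.thr 39 27 (.thr 23 7 (.thr 43 3 (.dbl 47 31 35))))) (.rp 36 (.thr 63 59 (.thr 39 27 (.thr 23 7 (.thr 43 3 (.dbl 47 31 35))))) (.rp 27 (.thr 63 59 (.thr 53 48 (.thr 54 52 (.thr 62 50 (.dbl 60 57 61))))) (.rp 4 (.thr 63 59 (.thr 39 27 (.thr 7 23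 (.thr 53 48 (.dbl 52 22 54))))) .nd)))))))) .nd)))))))) .nd))))))) (.rp 38 .ext (.rp 23 (.str 42 (.nv (.thr 38 4 (.thr 39 36 (.thr 47 32 (.thr 63 0 (.thr 15 31 (.dbl 51 27 59)))))) (.nv (.thr 32 47 (.thr 38 4 (.thr 34 46 (.thr 35 33 (.thr 36 39 (.dbl 44 40 41)))))) (.nv (.thr 63 0 (.thr 51 59 (.thr 38 4 (.thr 46 34 (.dbl 12 25 29))))) (.rp 38 (.thr 63 0 (.thr 59 51 (.thr 25 8 (.thr 17 29 (.thr 49 13 (.thr 1 33 (.thr 61 41 (.dbl 53 5 57)))))))) (.rp 4 (.thr 47 32 (.thr 63 0 (.thr 51 59 (.thr 53 5 (.thr 15 31 (.thr 54 52 (.thr 57 60 (.thr 49 61 (.dbl 48 50 58))))))))) .nd)))))) (.rp 22 (.thr 5 53 (.thr 38 4 (.thr 36 39 (.str 42 (.nv (.thr 34 46 (.thr 32 47 (.thr 35 33 (.dbl 44 40 41)))) (.nv (.thr 63 0 (.thr 51 59 (.thr 46 34 (.dbl 12 25 29)))) (.rp 46 (.thr 0 63 (.thr 32 47 (.thr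 48 16 (.thr 44 40 (.thr 35 41 (.thr 34 33 (.thr 51 17 (.dbl 12 24 25)))))))) (.rp 34 (.thr 0 63 (.thr 32 47 (.thr 48 16 (.thr 40 44 (.thr 60 20 (.thr 56 52 (.dbl 24 8 12))))))) (.rp 30 (.str 18 (.nv (.thr 34 46 (.thr 32 47 (.thr 35 33 (.dbl 44 40 41)))) (.nv (.thr 0 63 (.thr 32 47 (.thr 44 40 (.thr 48 16 (.thr 33 3 (.dbl 41 35 45)))))) (.nv (.thr 63 0 (.thr 51 59 (.thr 46 34 (.dbl 12 25 29)))) .nd)))) (.rp 18 (.str 30 (.nv (.thr 46 34 (.thr 63 0 (.thr 12 29 (.dbl 51 25 59)))) (.nv (.thr 32 47 (.thr 34 46 (.thr 44 40 (.dbl 35 33 41)))) (.rp 46 (.thr 63 0 (.thr 47 32 (.thr 31 15 (.thr 29 28 (.thr 25 17 (.dbl 59 8 51)))))) (.rp 34 (.thr 63 0 (.thr 47 32 (.thr 15 31 (.thr 45 60 (.thr 44 46 (.dbl 41 33 35)))))) .nd))))) .nd)))))))))) (.rp 7 (.str 42 (.nv (.thr 47 32 (.thr 63 0 (.thr 15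 31 (.thr 51 59 (.thr 39 27 (.dbl 38 4 36)))))) (.nv (.thr 32 47 (.thr 38 4 (.thr 34 46 (.thr 35 33 (.thr 36 39 (.dbl 44 40 41)))))) (.nv (.thr 5 53 (.thr 38 4 (.thr 46 34 (.thr 63 0 (.thr 12 29 (.dbl 51 25 59)))))) (.rp 38 (.thr 63 0 (.thr 59 51 (.thr 25 8 (.thr 17 29 (.thr 49 13 (.thr 1 33 (.thr 61 41 (.dbl 53 5 57)))))))) (.rp 4 (.thr 47 32 (.thr 63 0 (.thr 51 59 (.thr 15 31 (.thr 39 27 (.thr 38 36 (.thr 46 34 (.dbl 12 25 29)))))))) .nd)))))) (.rp 5 (.str 42 (.nv (.thr 38 4 (.thr 46 34 (.thr 47 32 (.thr 63 0 (.thr 15 31 (.thr 12 29 (.dbl 51 25 59))))))) (.nv (.thr 47 32 (.thr 63 0 (.thr 15 31 (.thr 51 59 (.thr 39 27 (.dbl 38 4 36)))))) (.nv (.thr 32 47 (.thr 38 4 (.thr 34 46 (.thr 35 33 (.thr 36 39 (.dbl 44 40 41)))))) (.rp 47 (.thr 0 63 (.thr 38 4 (.thr 39 36 (.thr 34 46 (.thr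 51 17 (.thr 7 23 (.thr 15 27 (.thr 3 11 (.thr 2 1 (.dbl 22 52 62)))))))))) (.rp 38 (.thr 47 32 (.thr 63 0 (.thr 15 31 (.thr 51 59 (.thr 39 27 (.thr 43 35 (.dbl 23 3 7))))))) (.rp 32 (.thr 0 63 (.thr 38 4 (.thr 39 36 (.thr 34 46 (.thr 51 17 (.thr 7 23 (.thr 15 27 (.thr 3 11 (.thr 2 1 (.dbl 22 52 62)))))))))) (.rp 15 (.thr 0 63 (.thr 47 32 (.thr 38 4 (.thr 39 36 (.thr 46 34 (.thr 35 43 (.dbl 44 41 45))))))) (.rp 4 (.thr 47 32 (.thr 63 0 (.thr 15 31 (.thr 51 59 (.thr 39 27 (.thr 43 35 (.dbl 23 3 7))))))) (.rp 0 (.str 15 (.nv (.thr 47 32 (.thr 63 31 (.thr 51 59 (.thr 39 27 (.thr 43 35 (.dbl 23 3 7)))))) (.nv (.thr 32 47 (.thr 38 4 (.thr 34 46 (.thr 35 33 (.thr 36 39 (.dbl 44 40 41)))))) (.nv (.thr 38 4 (.thr 39 36 (.thr 51 27 (.thr 59 63 (.dbl 25 8 12))))) (.rp 39 (.thr 38 4 (.thr 46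 34 (.thr 47 32 (.thr 63 31 (.thr 51 59 (.dbl 12 25 29)))))) (.rp 7 (.thr 47 32 (.thr 63 31 (.thr 51 59 (.thr 39 27 (.dbl 38 4 36))))) .nd)))))) .nd)))))))))) (.rp 4 .ext .nd))))))))))))))

theorem w360 : WinAt (137441050624, 67109888) :=
  chF (K := [(36028934460014592, 67109904), (36028934460014592, 274945016832)]) (kc w351 (kc w359 kn)) c360 137441050624 67109888 26
    [288234774265332736] (by decide +kernel) (by decide +kernel)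

/-- A certificate. -/
noncomputable def c361 : Ct := (.str 13 (.nv (.thr 25 49 (.thr 29 17 (.thr 61 45 (.dbl 1 9 41)))) (.nv (.thr 1 9 (.thr 61 41 (.thr 25 49 (.dbl 29 17 45)))) (.rp 61 (.thr 9 1 (.thr 25 49 (.thr 57 41 (.thr 17 29 (.str 4 (.nv (.thr 7 6 (.thr 22 52 (.thr 23 20 (.dbl 55 38 39)))) (.nv (.thr 6 7 (.thr 12 3 (.thr 0 8 (.dbl 51 34 38)))) (.nv (.thr 6 7 (.thr 38 55 (.dbl 12 3 51))) (.rp 38 (.thr 6 7 (.thr 12 3 (.thr 0 8 (.thr 15 14 (.thr 26 48 (.thr 31 16 (.dbl 63 42 47))))))) (.rp 7 (.thr 38 55 (.thr 12 51 (.thr 15 14 (.thr 48 26 (.dbl 36 24 39))))) (.rp 6 (.thr 38 55 (.thr 36 39 (.thr 52 20 (.thr 51 12 (.thr 60 54 (.thr 48 56 (.thr 0 34 (.thr 16 32 (.dbl 26 15 31))))))))) .nd))))))))))) (.rp 49 (.str 61 (.nv (.dbl 1 9 41) (.rp 41 (.str 7 (.nv (.thr 22 52 (.thr 23 20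 (.thr 55 39 (.dbl 4 6 38)))) (.nv (.thr 4 6 (.thr 38 55 (.thr 52 22 (.dbl 36 20 39)))) (.nv (.thr 4 6 (.thr 22 52 (.thr 23 20 (.dbl 55 38 39)))) (.rp 55 (.thr 45 29 (.thr 9 1 (.thr 6 4 (.thr 3 12 (.thr 15 11 (.thr 52 22 (.thr 60 30 (.dbl 48 26 56)))))))) (.rp 52 (.thr 29 45 (.thr 9 1 (.thr 6 4 (.thr 12 3 (.thr 63 46 (.thr 15 14 (.thr 47 31 (.dbl 42 0 32)))))))) (.rp 39 (.thr 29 45 (.thr 25 17 (.thr 22 52 (.thr 20 23 (.thr 28 19 (.thr 31 30 (.dbl 16 24 26))))))) (.rp 38 (.thr 29 45 (.thr 25 17 (.thr 22 52 (.thr 20 23 (.thr 28 19 (.thr 31 30 (.dbl 16 24 26))))))) (.rp 22 (.thr 29 45 (.thr 25 17 (.thr 4 6 (.thr 38 55 (.thr 12 51 (.thr 0 8 (.dbl 63 42 46))))))) (.rp 20 (.thr 29 45 (.thr 25 17 (.thr 4 6 (.thr 38 55 (.thr 12 51 (.thr 0 8 (.dbl 63 42 46))))))) (.rp 6 (.thr 29 45 (.thr 25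 17 (.thr 22 52 (.thr 20 23 (.thr 28 19 (.thr 31 30 (.dbl 16 24 26))))))) (.rp 4 (.thr 29 45 (.thr 25 17 (.thr 22 52 (.thr 20 23 (.thr 28 19 (.thr 31 30 (.dbl 16 24 26))))))) .nd)))))))))))) (.rp 9 (.thr 45 29 (.dbl 41 1 33)) (.rp 1 (.thr 45 29 (.thr 33 41 (.str 15 (.nv (.thr 60 30 (.thr 63 62 (.thr 42 0 (.dbl 47 31 32)))) (.nv (.thr 12 14 (.thr 48 26 (.thr 3 18 (.thr 6 9 (.dbl 7 4 11))))) (.nv (.thr 60 30 (.thr 63 62 (.thr 31 47 (.dbl 26 16 48)))) (.rp 30 (.thr 12 14 (.thr 26 48 (.thr 31 16 (.thr 63 47 (.thr 0 42 (.thr 4 8 (.thr 38 55 (.thr 36 39 (.thr 52 20 (.dbl 7 6 22)))))))))) (.rp 14 (.thr 60 30 (.thr 26 48 (.thr 31 16 (.dbl 63 47 62)))) .nd)))))))) .nd))))) (.rp 45 (.str 7 (.nv (.thr 22 52 (.thr 23 20 (.thr 55 39 (.dbl 4 6 38)))) (.nv (.thr 4 6 (.thr 22 52 (.thr 55 38 (.dbl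 23 20 39)))) (.rp 55 (.thr 9 1 (.thr 25 49 (.thr 6 4 (.thr 12 3 (.thr 38 51 (.dbl 22 52 54)))))) (.rp 52 (.thr 9 1 (.thr 25 49 (.thr 6 4 (.thr 12 3 (.thr 38 51 (.thr 36 39 (.thr 15 14 (.dbl 48 24 26)))))))) (.rp 39 (.thr 9 1 (.thr 25 49 (.thr 6 4 (.thr 3 12 (.thr 22 52 (.dbl 41 57 60)))))) (.rp 38 (.thr 9 1 (.thr 25 49 (.thr 6 4 (.thr 3 12 (.thr 22 52 (.dbl 41 57 60)))))) (.rp 23 (.thr 4 6 (.thr 38 55 (.thr 36 39 (.dbl 52 20 22)))) (.rp 22 (.thr 25 49 (.thr 29 17 (.thr 4 6 (.thr 38 55 (.thr 12 51 (.thr 0 8 (.dbl 63 42 46))))))) (.rp 20 (.thr 9 1 (.thr 25 49 (.thr 6 4 (.thr 12 3 (.thr 38 51 (.dbl 22 52 54)))))) (.rp 6 (.thr 1 9 (.thr 41 61 (.thr 22 52 (.thr 23 20 (.thr 3 60 (.thr 63 43 (.dbl 0 2 42))))))) (.rp 4 (.thr 1 9 (.thr 41 61 (.thr 22 52 (.thr 3 60 (.thr 0 2 (.thr 63 42 (.dbl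 23 20 43))))))) .nd)))))))))))) (.rp 41 (.str 7 (.nv (.thr 22 52 (.thr 23 20 (.thr 55 39 (.dbl 4 6 38)))) (.nv (.thr 4 6 (.thr 38 55 (.thr 52 22 (.dbl 36 20 39)))) (.nv (.thr 4 6 (.thr 22 52 (.thr 23 20 (.dbl 55 38 39)))) (.rp 55 (.thr 9 1 (.thr 25 49 (.thr 6 4 (.thr 12 3 (.thr 38 51 (.dbl 22 52 54)))))) (.rp 52 (.thr 9 1 (.thr 25 49 (.thr 6 4 (.thr 12 3 (.thr 38 51 (.thr 36 39 (.thr 15 14 (.dbl 48 24 26)))))))) (.rp 39 (.thr 9 1 (.thr 25 49 (.thr 6 4 (.thr 12 3 (.thr 22 52 (.dbl 38 51 54)))))) (.rp 38 (.thr 25 49 (.thr 29 17 (.thr 22 52 (.thr 20 23 (.thr 28 19 (.thr 31 30 (.dbl 16 24 26))))))) (.rp 22 (.thr 25 49 (.thr 29 17 (.thr 4 6 (.thr 38 55 (.thr 12 51 (.thr 0 8 (.dbl 63 42 46))))))) (.rp 20 (.thr 9 1 (.thr 25 49 (.thr 6 4 (.thr 12 3 (.thr 38 51 (.dbl 22 52 54)))))) (.rp 6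 (.thr 25 49 (.thr 29 17 (.thr 22 52 (.thr 20 23 (.thr 28 19 (.thr 31 30 (.dbl 16 24 26))))))) (.rp 4 (.thr 25 49 (.thr 29 17 (.thr 22 52 (.thr 20 23 (.thr 28 19 (.thr 31 30 (.dbl 16 24 26))))))) .nd)))))))))))) (.rp 29 (.thr 1 9 (.thr 41 61 (.thr 33 45 (.dbl 49 17 25)))) (.rp 25 (.str 7 (.nv (.thr 22 52 (.thr 23 20 (.thr 55 39 (.dbl 4 6 38)))) (.nv (.thr 4 6 (.thr 38 55 (.thr 52 22 (.dbl 36 20 39)))) (.nv (.thr 4 6 (.thr 22 52 (.thr 23 20 (.dbl 55 38 39)))) (.rp 55 (.thr 1 9 (.thr 41 61 (.thr 33 45 (.thr 6 4 (.thr 22 52 (.thr 54 38 (.thr 3 60 (.thr 48 18 (.dbl 15 11 26))))))))) (.rp 52 (.thr 1 9 (.thr 41 61 (.thr 4 6 (.thr 55 38 (.thr 23 39 (.thr 22 20 (.thr 3 60 (.thr 63 43 (.dbl 0 2 42))))))))) (.rp 39 (.thr 1 9 (.thr 41 61 (.thr 33 45 (.thr 22 52 (.thr 3 60 (.thr 48 18 (.dbl 15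 11 26))))))) (.rp 38 (.thr 1 9 (.thr 41 61 (.thr 33 45 (.thr 22 52 (.thr 3 60 (.thr 48 18 (.dbl 15 11 26))))))) (.rp 26 (.str 24 (.nv (.thr 6 4 (.thr 9 1 (.thr 12 3 (.thr 36 48 (.thr 38 39 (.dbl 22 52 54)))))) (.nv (.thr 4 6 (.thr 22 52 (.thr 23 20 (.dbl 55 38 39)))) (.rp 58 (.str 42 (.nv (.thr 1 9 (.thr 22 52 (.thr 2 62 (.dbl 0 3 63)))) (.nv (.thr 4 6 (.thr 22 52 (.thr 23 20 (.dbl 55 38 39)))) (.nv (.thr 32 47 (.thr 0 63 (.thr 48 16 (.thr 12 36 (.dbl 4 6 8))))) (.rp 63 (.str 48 (.nv (.thr 22 52 (.thr 32 47 (.thr 16 0 (.dbl 20 23 28)))) (.nv (.thr 12 36 (.thr 9 1 (.dbl 6 3 4))) .nd))) (.rp 48 (.thr 63 0 (.thr 4 6 (.thr 52 22 (.thr 36 20 (.dbl 38 39 55))))) .nd)))))) (.rp 54 (.thr 52 22 (.thr 4 6 (.thr 38 55 (.dbl 36 20 39)))) (.rp 52 (.thr 1 9 (.thr 41 61 (.thr 4 6 (.thr 55 38 (.thr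 23 39 (.thr 22 20 (.thr 3 60 (.thr 63 43 (.dbl 0 2 42))))))))) (.rp 42 (.str 58 (.nv (.thr 6 4 (.thr 9 1 (.thr 12 3 (.thr 36 48 (.thr 38 39 (.dbl 22 52 54)))))) (.nv (.thr 4 6 (.thr 22 52 (.thr 23 20 (.dbl 55 38 39)))) (.rp 59 (.str 8 (.nv (.thr 4 6 (.thr 12 0 (.thr 36 48 (.dbl 38 39 55)))) (.nv (.thr 1 9 (.thr 22 52 (.thr 20 23 (.thr 40 56 (.thr 41 61 (.dbl 60 0 3)))))) (.nv (.thr 4 6 (.thr 22 52 (.thr 23 20 (.dbl 55 38 39)))) (.rp 55 (.thr 52 22 (.thr 4 6 (.thr 36 20 (.dbl 12 0 48)))) (.rp 43 (.str 11 (.nv (.thr 1 9 (.thr 3 15 (.thr 22 52 (.dbl 41 60 61)))) (.nv (.thr 4 6 (.thr 22 52 (.thr 23 20 (.dbl 55 38 39)))) (.nv (.thr 9 1 (.thr 6 4 (.dbl 3 12 15))) (.rp 41 (.thr 40 56 (.thr 4 6 (.thr 12 0 (.dbl 15 3 14)))) (.rp 40 (.str 41 (.nv (.thr 3 15 (.dbl 22 52 60)) (.nv (.dbl 1 9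 61) .nd))) .nd)))))) (.rp 11 (.str 43 (.nv (.thr 4 6 (.thr 12 0 (.thr 36 48 (.dbl 38 39 55)))) (.nv (.thr 1 9 (.thr 22 52 (.thr 41 61 (.thr 3 60 (.dbl 23 20 63))))) (.nv (.thr 4 6 (.thr 22 52 (.thr 23 20 (.dbl 55 38 39)))) (.rp 56 (.str 41 (.nv (.thr 22 52 (.thr 23 20 (.dbl 3 60 63))) (.nv (.dbl 1 9 61) .nd))) (.rp 55 (.thr 4 6 (.thr 52 22 (.thr 36 20 (.dbl 12 0 48)))) (.rp 41 (.thr 56 40 (.thr 4 6 (.thr 22 52 (.thr 23 20 (.dbl 55 38 39))))) .nd))))))) .nd))))))) (.rp 54 (.thr 52 22 (.thr 4 6 (.thr 38 55 (.dbl 36 20 39)))) (.rp 52 (.thr 4 6 (.thr 55 38 (.thr 23 39 (.thr 22 20 (.thr 1 9 (.thr 41 61 (.thr 33 45 (.thr 3 60 (.thr 48 18 (.thr 12 36 (.dbl 15 11 14))))))))))) (.rp 39 (.thr 22 52 (.thr 1 9 (.thr 41 61 (.thr 33 45 (.thr 3 60 (.thr 48 18 (.thr 12 36 (.dbl 15 11 14))))))))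 (.rp 38 (.thr 22 52 (.thr 1 9 (.thr 41 61 (.thr 33 45 (.thr 3 60 (.thr 48 18 (.thr 12 36 (.dbl 15 11 14)))))))) (.rp 22 (.thr 4 6 (.thr 38 55 (.thr 36 39 (.thr 12 48 (.thr 8 0 (.thr 40 56 (.thr 1 9 (.thr 41 61 (.dbl 44 32 35))))))))) (.rp 8 (.str 59 (.nv (.thr 9 1 (.thr 4 6 (.thr 22 52 (.thr 55 38 (.dbl 23 20 39))))) (.nv (.thr 52 22 (.thr 56 57 (.thr 48 60 (.thr 36 12 (.dbl 4 6 20))))) (.nv (.thr 22 52 (.thr 23 20 (.thr 4 6 (.dbl 55 38 39)))) (.rp 52 (.thr 4 6 (.thr 55 38 (.thr 23 39 (.thr 22 20 (.thr 57 56 (.thr 51 63 (.thr 60 54 (.thr 41 3 (.dbl 1 9 61))))))))) (.rp 38 (.thr 52 22 (.thr 6 4 (.thr 56 57 (.thr 48 60 (.thr 12 36 (.dbl 9 1 3)))))) (.rp 22 (.thr 4 6 (.thr 38 55 (.thr 36 39 (.thr 52 20 (.thr 56 57 (.dbl 48 12 60)))))) (.rp 20 (.thr 52 22 (.thr 4 6 (.thr 38 55 (.thr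 36 39 (.thr 56 57 (.dbl 48 12 60)))))) (.rp 9 (.str 11 (.nv (.thr 57 56 (.thr 4 6 (.thr 22 52 (.thr 23 20 (.dbl 55 38 39))))) (.nv (.thr 15 3 (.thr 12 14 (.thr 36 48 (.thr 38 39 (.dbl 4 6 55))))) (.nv (.thr 3 15 (.thr 22 52 (.thr 41 60 (.thr 45 33 (.dbl 61 1 29))))) (.nv (.thr 15 3 (.thr 12 14 (.thr 48 36 (.thr 52 22 (.dbl 56 57 60))))) (.nv (.thr 22 52 (.thr 23 20 (.thr 55 39 (.dbl 4 6 38)))) (.rp 57 (.str 41 (.nv (.thr 3 15 (.dbl 22 52 60)) (.nv (.thr 61 1 (.dbl 45 29 33)) (.rp 61 (.str 49 (.nv (.thr 4 6 (.thr 22 52 (.thr 23 20 (.dbl 55 38 39)))) (.nv (.thr 3 15 (.dbl 22 52 60)) (.rp 52 (.thr 3 15 (.thr 22 60 (.thr 23 20 (.thr 63 43 (.dbl 55 39 51))))) (.rp 39 (.thr 22 52 (.dbl 3 15 60)) (.rp 22 (.thr 15 3 (.thr 12 14 (.thr 36 48 (.thr 38 39 (.dbl 4 6 55))))) (.rp 3 (.thr 22 52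 (.thr 23 20 (.thr 55 39 (.dbl 4 6 38)))) .nd))))))) .nd)))) .nd))))))) (.rp 6 (.thr 52 22 (.thr 56 57 (.thr 48 60 (.thr 36 12 (.thr 38 39 (.dbl 4 20 55)))))) (.rp 4 (.thr 52 22 (.thr 56 57 (.thr 48 60 (.thr 12 36 (.thr 15 14 (.thr 9 1 (.dbl 3 6 11))))))) (.rp 2 (.thr 22 52 (.thr 23 20 (.thr 55 39 (.dbl 4 6 38)))) .nd)))))))))))) (.rp 6 (.thr 22 52 (.thr 1 9 (.thr 41 61 (.thr 33 45 (.thr 3 60 (.thr 48 18 (.thr 12 36 (.dbl 15 11 14)))))))) (.rp 4 (.thr 22 52 (.thr 20 23 (.thr 28 16 (.thr 1 9 (.thr 41 61 (.thr 45 33 (.thr 60 3 (.thr 12 44 (.dbl 15 14 30))))))))) (.rp 2 (.thr 22 52 (.thr 23 20 (.thr 55 39 (.dbl 4 6 38)))) .nd))))))))))))) (.rp 39 (.thr 1 9 (.thr 41 61 (.thr 22 52 (.thr 23 20 (.thr 3 60 (.thr 63 43 (.dbl 0 2 42))))))) (.rp 38 (.thr 1 9 (.thr 41 61 (.thr 22 52 (.thr 23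 20 (.thr 3 60 (.thr 63 43 (.dbl 0 2 42))))))) (.rp 22 (.thr 1 9 (.thr 41 61 (.thr 33 45 (.thr 4 6 (.thr 38 55 (.thr 35 44 (.thr 32 34 (.thr 39 36 (.dbl 47 42 43))))))))) (.rp 6 (.thr 1 9 (.thr 41 61 (.thr 22 52 (.thr 23 20 (.thr 3 60 (.thr 63 43 (.dbl 0 2 42))))))) (.rp 4 (.thr 1 9 (.thr 41 61 (.thr 33 45 (.thr 22 52 (.thr 20 23 (.thr 16 28 (.thr 3 60 (.thr 48 18 (.dbl 0 2 32))))))))) (.rp 2 (.thr 22 52 (.thr 23 20 (.thr 55 39 (.dbl 4 6 38)))) .nd))))))))))))) (.rp 24 (.str 26 (.nv (.thr 1 9 (.thr 15 48 (.thr 41 61 (.dbl 11 3 56)))) (.nv (.thr 22 52 (.thr 23 20 (.thr 55 39 (.dbl 4 6 38)))) (.nv (.thr 6 4 (.thr 9 1 (.thr 12 3 (.dbl 15 14 48)))) (.rp 15 (.thr 4 6 (.thr 22 52 (.thr 23 20 (.dbl 55 38 39)))) .nd))))) (.rp 22 (.thr 1 9 (.thr 41 61 (.thr 45 33 (.thr 4 6 (.thr 38 55 (.thr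 36 39 (.thr 44 35 (.thr 32 40 (.dbl 47 42 46))))))))) (.rp 20 (.thr 1 9 (.thr 41 61 (.thr 33 45 (.thr 22 52 (.thr 3 60 (.thr 48 18 (.dbl 15 11 26))))))) (.rp 6 (.thr 1 9 (.thr 41 61 (.thr 33 45 (.thr 22 52 (.thr 3 60 (.thr 48 18 (.dbl 15 11 26))))))) (.rp 4 (.thr 1 9 (.thr 41 61 (.thr 33 45 (.thr 22 52 (.thr 3 60 (.thr 48 18 (.dbl 15 11 26))))))) .nd)))))))))))))) (.rp 17 (.str 7 (.nv (.thr 22 52 (.thr 23 20 (.thr 55 39 (.dbl 4 6 38)))) (.nv (.thr 4 6 (.thr 22 52 (.thr 55 38 (.dbl 23 20 39)))) (.rp 55 (.thr 9 1 (.thr 6 4 (.thr 3 12 (.thr 22 52 (.thr 54 38 (.thr 41 60 (.dbl 25 49 57))))))) (.rp 52 (.thr 9 1 (.thr 6 4 (.thr 3 12 (.thr 15 11 (.thr 48 26 (.thr 25 49 (.thr 33 18 (.dbl 41 45 57)))))))) (.rp 39 (.thr 9 1 (.thr 6 4 (.thr 3 12 (.thr 22 52 (.thr 41 60 (.dbl 25 49 57))))))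 (.rp 38 (.thr 9 1 (.thr 6 4 (.thr 3 12 (.thr 22 52 (.thr 41 60 (.dbl 25 49 57)))))) (.rp 23 (.thr 4 6 (.thr 38 55 (.thr 36 39 (.dbl 52 20 22)))) (.rp 22 (.thr 1 9 (.thr 61 41 (.thr 29 45 (.thr 25 49 (.thr 4 6 (.thr 38 55 (.thr 12 51 (.thr 63 46 (.dbl 0 8 42))))))))) (.rp 20 (.thr 1 9 (.thr 41 61 (.thr 33 45 (.thr 22 52 (.thr 3 60 (.thr 48 18 (.dbl 15 11 26))))))) (.rp 6 (.thr 1 9 (.thr 41 61 (.thr 33 45 (.thr 22 52 (.thr 3 60 (.thr 48 18 (.dbl 15 11 26))))))) (.rp 4 (.thr 1 9 (.thr 41 61 (.thr 33 45 (.thr 22 52 (.thr 3 60 (.thr 48 18 (.dbl 15 11 26))))))) .nd)))))))))))) (.rp 9 (.str 12 (.nv (.thr 15 14 (.thr 26 48 (.thr 31 16 (.thr 63 47 (.thr 29 46 (.dbl 25 17 49)))))) (.nv (.thr 15 14 (.thr 25 49 (.thr 38 51 (.thr 36 39 (.dbl 48 24 26))))) (.nv (.thr 25 49 (.thr 17 29 (.thr 51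 38 (.thr 0 34 (.thr 8 4 (.dbl 42 59 63)))))) (.rp 49 (.thr 15 14 (.thr 26 48 (.thr 31 16 (.thr 63 47 (.thr 29 46 (.thr 30 28 (.dbl 45 60 61))))))) (.rp 25 (.thr 15 14 (.thr 26 48 (.thr 31 16 (.thr 63 47 (.thr 29 46 (.thr 45 61 (.dbl 30 28 60))))))) (.rp 11 (.str 8 (.nv (.thr 4 0 (.thr 7 6 (.thr 22 52 (.thr 23 20 (.dbl 55 38 39))))) (.nv (.thr 25 49 (.thr 0 4 (.dbl 42 59 63))) (.rp 59 (.str 43 (.nv (.thr 15 14 (.thr 25 49 (.thr 38 51 (.thr 36 39 (.dbl 48 24 26))))) (.nv (.thr 0 4 (.thr 15 14 (.thr 26 48 (.thr 31 16 (.dbl 63 42 47))))) (.nv (.thr 25 49 (.thr 4 0 (.dbl 38 51 55))) .nd)))) (.rp 43 (.str 59 (.nv (.dbl 25 42 49) (.rp 49 (.thr 0 4 (.dbl 42 25 63)) (.rp 42 (.thr 25 49 (.thr 4 0 (.dbl 38 51 55))) (.rp 25 (.thr 0 4 (.thr 63 42 (.thr 15 14 (.thr 31 47 (.dbl 26 16 48))))) .nd)))))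 (.rp 4 (.thr 25 49 (.thr 29 17 (.thr 63 46 (.dbl 42 0 59)))) (.rp 0 (.thr 25 49 (.thr 29 17 (.thr 59 42 (.thr 63 46 (.dbl 51 38 55))))) .nd))))))) (.rp 8 (.str 11 (.nv (.thr 15 14 (.thr 26 48 (.thr 41 56 (.thr 45 33 (.dbl 61 1 29))))) (.nv (.thr 15 14 (.thr 7 3 (.thr 22 52 (.thr 23 20 (.thr 55 39 (.dbl 4 6 38)))))) (.nv (.thr 15 14 (.thr 25 49 (.thr 38 51 (.thr 36 39 (.dbl 48 24 26))))) (.rp 15 (.thr 25 49 (.thr 38 51 (.thr 39 36 (.thr 29 17 (.thr 61 45 (.thr 63 46 (.thr 60 62 (.thr 44 28 (.dbl 41 1 35))))))))) (.rp 14 (.thr 25 49 (.thr 29 17 (.thr 63 46 (.thr 42 0 (.thr 47 32 (.thr 15 31 (.thr 48 26 (.thr 36 24 (.dbl 38 39 51))))))))) (.rp 6 (.thr 25 49 (.thr 38 51 (.thr 55 4 (.thr 39 36 (.thr 7 23 (.dbl 15 3 14)))))) (.rp 2 (.thr 25 49 (.thr 38 51 (.thr 55 4 (.thr 39 36 (.thr 7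 23 (.dbl 15 3 14)))))) .nd)))))))) .nd)))))))) (.rp 1 (.str 12 (.nv (.thr 15 14 (.thr 48 26 (.thr 36 24 (.thr 25 49 (.dbl 38 39 51))))) (.nv (.thr 15 14 (.thr 26 48 (.thr 31 16 (.thr 63 47 (.thr 29 46 (.thr 30 28 (.dbl 45 60 61))))))) (.nv (.thr 25 49 (.thr 17 29 (.thr 51 38 (.thr 0 34 (.thr 8 4 (.dbl 42 59 63)))))) (.rp 61 (.thr 15 14 (.thr 26 48 (.thr 31 16 (.thr 63 47 (.thr 29 46 (.dbl 25 17 49)))))) .nd))))) .nd))))))))))))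

theorem w361 : WinAt (137441050656, 9007199388959744) :=
  chF (K := []) kn c361 137441050656 9007199388959744 53
    [] (by decide +kernel) (by decide +kernel)

/-- A certificate. -/
noncomputable def c362 : Ct := (.str 1 (.nv (.thr 41 61 (.thr 33 45 (.thr 49 17 (.dbl 13 9 25)))) (.nv (.thr 13 9 (.thr 61 41 (.thr 25 49 (.dbl 29 17 45)))) (.rp 61 (.str 49 (.nv (.dbl 13 9 25) (.rp 25 (.str 22 (.nv (.thr 7 52 (.thr 33 17 (.thr 41 45 (.thr 3 60 (.thr 15 11 (.dbl 48 18 26)))))) (.nv (.thr 23 20 (.thr 7 52 (.thr 55 39 (.dbl 4 6 38)))) (.rp 55 (.thr 23 20 (.thr 33 17 (.thr 41 45 (.thr 3 60 (.thr 0 2 (.dbl 63 42 43)))))) (.rp 52 (.thr 23 20 (.thr 33 17 (.thr 41 45 (.thr 3 60 (.thr 0 2 (.dbl 63 42 43)))))) (.rp 7 (.thr 23 20 (.thr 33 17 (.thr 41 45 (.thr 3 60 (.thr 0 2 (.dbl 63 42 43))))))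 .nd)))))) (.rp 13 (.thr 33 17 (.thr 45 41 (.str 48 (.nv (.thr 3 18 (.thr 0 2 (.thr 42 63 (.dbl 32 16 47)))) (.nv (.thr 26 15 (.thr 3 18 (.thr 16 31 (.dbl 0 2 32)))) (.nv (.thr 3 18 (.thr 0 2 (.thr 16 32 (.dbl 26 15 31)))) (.rp 32 (.thr 51 50 (.thr 3 18 (.thr 15 26 (.thr 39 27 (.thr 38 36 (.thr 4 55 (.dbl 7 6 11))))))) (.rp 18 (.thr 51 50 (.thr 15 26 (.thr 39 27 (.thr 38 36 (.thr 55 4 (.thr 63 59 (.thr 47 31 (.dbl 42 0 32)))))))) (.rp 16 (.thr 51 50 (.thr 15 26 (.thr 39 27 (.thr 38 36 (.thr 4 55 (.thr 7 6 (.dbl 3 11 18))))))) (.rp 14 (.thr 51 50 (.thr 3 18 (.thr 2 0 (.thr 19 35 (.str 38 (.nv (.thr 12 25 (.thr 4 55 (.dbl 6 7 9))) (.nv (.thr 39 36 (.dbl 15 26 27)) (.rp 12 (.thr 15 26 (.dbl 39 27 36)) .nd)))))))) (.rp 3 (.thr 51 50 (.thr 15 26 (.thr 39 27 (.thr 38 36 (.thr 4 55 (.thr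 7 6 (.thr 52 22 (.dbl 60 30 56)))))))) (.rp 2 (.thr 51 50 (.thr 15 26 (.thr 39 27 (.thr 38 36 (.thr 55 4 (.thr 7 23 (.dbl 3 11 18))))))) (.rp 0 (.thr 51 50 (.thr 3 18 (.thr 15 26 (.thr 39 27 (.thr 38 36 (.thr 4 55 (.dbl 7 6 11))))))) .nd))))))))))))) (.rp 9 (.thr 17 33 (.dbl 25 13 29)) .nd))))) (.rp 49 (.thr 61 41 (.str 15 (.nv (.thr 26 48 (.thr 31 16 (.thr 63 47 (.thr 60 62 (.thr 45 30 (.dbl 13 9 29)))))) (.nv (.thr 9 13 (.thr 26 48 (.thr 31 16 (.thr 63 47 (.thr 0 42 (.thr 3 2 (.thr 6 12 (.dbl 7 4 11)))))))) (.nv (.thr 13 9 (.thr 26 48 (.thr 29 45 (.thr 25 17 (.thr 27 24 (.thr 51 39 (.dbl 12 14 38))))))) (.nv (.thr 13 9 (.thr 12 14 (.thr 29 45 (.thr 63 46 (.thr 47 31 (.dbl 42 0 32)))))) (.rp 63 (.thr 13 9 (.thr 29 45 (.thr 25 17 (.thr 12 14 (.thr 51 38 (.thr 27 39 (.dbl 26 24 48)))))))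 (.rp 13 (.thr 26 48 (.thr 31 16 (.thr 63 47 (.thr 60 62 (.thr 30 45 (.thr 0 42 (.thr 22 18 (.dbl 20 23 40)))))))) (.rp 9 (.thr 26 48 (.thr 31 16 (.thr 63 47 (.thr 60 62 (.thr 30 45 (.thr 0 42 (.thr 22 18 (.dbl 20 23 40)))))))) .nd))))))))) (.rp 45 (.str 4 (.nv (.thr 6 7 (.thr 9 13 (.thr 12 3 (.thr 38 55 (.thr 25 51 (.dbl 41 57 61)))))) (.nv (.thr 7 6 (.thr 22 52 (.thr 55 38 (.dbl 23 20 39)))) (.rp 55 (.thr 9 13 (.thr 6 7 (.thr 12 3 (.thr 0 8 (.thr 63 42 (.thr 41 61 (.thr 29 46 (.dbl 25 17 57)))))))) (.rp 52 (.thr 9 13 (.thr 6 7 (.thr 12 3 (.thr 38 55 (.thr 54 22 (.thr 25 51 (.dbl 41 57 61))))))) (.rp 39 (.thr 13 9 (.thr 25 49 (.thr 29 17 (.thr 38 55 (.thr 12 51 (.thr 63 46 (.dbl 0 8 42))))))) (.rp 38 (.thr 41 61 (.thr 7 6 (.thr 22 52 (.thr 23 20 (.thr 3 60 (.thr 63 43 (.dbl 0 2 42)))))))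 (.rp 23 (.thr 7 6 (.thr 52 22 (.thr 36 20 (.dbl 38 39 55)))) (.rp 7 (.thr 13 9 (.thr 25 49 (.thr 29 17 (.thr 38 55 (.thr 12 51 (.thr 63 46 (.dbl 0 8 42))))))) (.rp 6 (.thr 13 9 (.thr 25 49 (.thr 29 17 (.thr 38 55 (.thr 12 51 (.thr 63 46 (.dbl 0 8 42))))))) .nd)))))))))) (.rp 41 (.str 4 (.nv (.thr 38 55 (.thr 36 39 (.thr 52 20 (.dbl 7 6 22)))) (.nv (.thr 7 6 (.thr 22 52 (.thr 55 38 (.dbl 23 20 39)))) (.nv (.thr 7 6 (.thr 38 55 (.thr 36 39 (.dbl 52 20 22)))) (.rp 55 (.thr 13 9 (.thr 25 49 (.thr 29 17 (.thr 7 6 (.thr 52 22 (.thr 36 20 (.thr 38 39 (.thr 12 51 (.thr 63 46 (.dbl 0 8 42)))))))))) (.rp 52 (.thr 9 13 (.thr 6 7 (.thr 12 3 (.thr 0 8 (.thr 63 42 (.thr 29 46 (.thr 25 17 (.dbl 38 51 55)))))))) (.rp 39 (.thr 13 9 (.thr 25 49 (.thr 29 17 (.thr 38 55 (.thr 12 51 (.thr 63 46 (.dbl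 0 8 42))))))) (.rp 38 (.thr 9 13 (.thr 6 7 (.thr 12 3 (.thr 0 8 (.thr 42 63 (.thr 32 47 (.thr 48 16 (.thr 36 24 (.thr 20 52 (.dbl 40 44 60)))))))))) (.rp 22 (.thr 13 9 (.thr 25 49 (.thr 29 17 (.thr 38 55 (.thr 12 51 (.thr 63 46 (.dbl 0 8 42))))))) (.rp 20 (.thr 13 9 (.thr 25 49 (.thr 29 17 (.thr 38 55 (.thr 12 51 (.thr 63 46 (.dbl 0 8 42))))))) (.rp 7 (.thr 13 9 (.thr 25 49 (.thr 29 17 (.thr 38 55 (.thr 12 51 (.thr 63 46 (.dbl 0 8 42))))))) (.rp 6 (.thr 13 9 (.thr 25 49 (.thr 29 17 (.thr 38 55 (.thr 12 51 (.thr 63 46 (.dbl 0 8 42))))))) .nd)))))))))))) (.rp 29 (.thr 13 9 (.thr 49 25 (.thr 33 17 (.dbl 41 45 61)))) (.rp 25 (.str 22 (.nv (.thr 7 52 (.thr 41 61 (.thr 3 60 (.thr 15 11 (.thr 33 45 (.dbl 48 18 26)))))) (.nv (.thr 41 61 (.thr 3 60 (.thr 0 2 (.thr 63 42 (.dbl 23 20 43)))))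 (.nv (.thr 23 20 (.thr 7 52 (.thr 55 39 (.dbl 4 6 38)))) .nd)))) (.rp 17 (.str 4 (.nv (.thr 6 7 (.thr 9 13 (.thr 12 3 (.thr 38 55 (.thr 25 51 (.dbl 41 57 61)))))) (.nv (.thr 7 6 (.thr 22 52 (.thr 55 38 (.dbl 23 20 39)))) (.rp 55 (.thr 9 13 (.thr 41 61 (.thr 6 7 (.thr 3 12 (.thr 60 22 (.thr 0 2 (.thr 40 20 (.dbl 42 43 63)))))))) (.rp 52 (.thr 9 13 (.thr 41 61 (.thr 6 7 (.thr 12 3 (.thr 38 55 (.thr 54 22 (.dbl 25 51 57))))))) (.rp 39 (.thr 41 61 (.thr 33 45 (.thr 7 6 (.thr 22 52 (.thr 3 60 (.thr 15 11 (.dbl 48 18 26))))))) (.rp 38 (.thr 41 61 (.thr 33 45 (.thr 7 6 (.thr 22 52 (.thr 3 60 (.thr 15 11 (.dbl 48 18 26))))))) (.rp 23 (.thr 7 6 (.thr 52 22 (.thr 36 20 (.dbl 38 39 55)))) (.rp 7 (.thr 13 9 (.thr 25 49 (.thr 38 55 (.thr 12 51 (.thr 15 14 (.thr 48 26 (.dbl 36 24 39))))))) (.rp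 6 (.thr 13 9 (.thr 25 49 (.thr 38 55 (.thr 36 39 (.thr 12 51 (.thr 48 24 (.dbl 15 14 26))))))) .nd)))))))))) (.rp 13 (.str 4 (.nv (.thr 38 55 (.thr 36 39 (.thr 52 20 (.dbl 7 6 22)))) (.nv (.thr 7 6 (.thr 22 52 (.thr 55 38 (.dbl 23 20 39)))) (.rp 55 (.thr 41 61 (.thr 45 33 (.thr 7 6 (.thr 52 22 (.thr 36 20 (.thr 38 39 (.thr 44 35 (.thr 32 40 (.dbl 47 42 46))))))))) (.rp 52 (.thr 41 61 (.thr 7 6 (.thr 55 38 (.thr 23 39 (.thr 22 20 (.thr 3 60 (.thr 63 43 (.dbl 0 2 42)))))))) (.rp 39 (.thr 41 61 (.thr 7 6 (.thr 22 52 (.thr 23 20 (.thr 3 60 (.thr 63 43 (.dbl 0 2 42))))))) (.rp 38 (.thr 41 61 (.thr 7 6 (.thr 22 52 (.thr 23 20 (.thr 3 60 (.thr 63 43 (.dbl 0 2 42))))))) (.rp 23 (.thr 7 6 (.thr 52 22 (.thr 36 20 (.dbl 38 39 55)))) (.rp 22 (.thr 41 61 (.thr 45 33 (.thr 38 55 (.thr 36 39 (.thr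 44 35 (.thr 32 40 (.dbl 47 42 46))))))) (.rp 20 (.thr 41 61 (.thr 45 33 (.thr 38 55 (.thr 36 39 (.thr 44 35 (.thr 32 40 (.dbl 47 42 46))))))) (.rp 7 (.thr 41 61 (.thr 45 33 (.thr 38 55 (.thr 44 35 (.thr 47 46 (.thr 32 42 (.dbl 36 39 40))))))) (.rp 6 (.thr 41 61 (.thr 45 33 (.thr 38 55 (.thr 36 39 (.thr 44 35 (.thr 32 40 (.dbl 47 42 46))))))) .nd)))))))))))) (.rp 9 (.str 4 (.nv (.thr 38 55 (.thr 36 39 (.thr 52 20 (.dbl 7 6 22)))) (.nv (.thr 7 6 (.thr 22 52 (.thr 55 38 (.dbl 23 20 39)))) (.rp 55 (.thr 41 61 (.thr 45 33 (.thr 7 6 (.thr 52 22 (.thr 36 20 (.thr 38 39 (.thr 44 35 (.thr 32 40 (.dbl 47 42 46))))))))) (.rp 52 (.thr 41 61 (.thr 7 6 (.thr 55 38 (.thr 23 39 (.thr 22 20 (.thr 3 60 (.thr 63 43 (.dbl 0 2 42)))))))) (.rp 39 (.thr 41 61 (.thr 33 45 (.thr 7 6 (.thr 22 52 (.thr 3 60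 (.thr 48 18 (.dbl 15 11 26))))))) (.rp 38 (.thr 41 61 (.thr 33 45 (.thr 7 6 (.thr 22 52 (.thr 3 60 (.thr 48 18 (.dbl 15 11 26))))))) (.rp 23 (.thr 7 6 (.thr 52 22 (.thr 36 20 (.dbl 38 39 55)))) (.rp 22 (.thr 41 61 (.thr 33 45 (.thr 38 55 (.thr 39 36 (.thr 35 44 (.thr 47 43 (.dbl 32 34 42))))))) (.rp 20 (.thr 41 61 (.thr 33 45 (.thr 7 6 (.thr 22 52 (.thr 3 60 (.thr 48 18 (.dbl 15 11 26))))))) (.rp 11 (.str 8 (.nv (.thr 0 12 (.thr 41 61 (.thr 33 45 (.thr 42 63 (.thr 49 17 (.dbl 25 13 59)))))) (.nv (.thr 38 55 (.thr 36 39 (.thr 52 20 (.dbl 7 6 22)))) (.rp 6 (.thr 12 0 (.thr 38 55 (.thr 25 51 (.thr 49 13 (.dbl 17 29 33))))) .nd)))) (.rp 8 (.str 11 (.nv (.thr 7 6 (.thr 41 61 (.thr 26 56 (.dbl 15 3 48)))) (.nv (.thr 38 55 (.thr 36 39 (.thr 52 20 (.dbl 7 6 22)))) (.nv (.thr 7 6 (.thr 3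 15 (.thr 22 52 (.dbl 41 60 61)))) (.rp 7 (.thr 38 55 (.thr 39 36 (.thr 41 61 (.thr 33 45 (.thr 35 44 (.thr 32 34 (.dbl 47 42 43))))))) (.rp 6 (.thr 41 61 (.thr 26 56 (.thr 15 48 (.thr 3 7 (.thr 45 33 (.dbl 60 22 30)))))) .nd)))))) (.rp 7 (.thr 41 61 (.thr 33 45 (.thr 38 55 (.thr 39 36 (.thr 35 44 (.thr 47 43 (.dbl 32 34 42))))))) (.rp 6 (.thr 41 61 (.thr 33 45 (.thr 38 55 (.thr 39 36 (.thr 35 44 (.thr 47 43 (.dbl 32 34 42))))))) .nd)))))))))))))) .nd))))))))))))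

theorem w362 : WinAt (137441050656, 9007199523177472) :=
  chF (K := []) kn c362 137441050656 9007199523177472 53
    [] (by decide +kernel) (by decide +kernel)

/-- A certificate. -/
noncomputable def c363 : Ct := (.str 7 (.nv (.thr 22 52 (.thr 23 20 (.thr 55 39 (.dbl 4 6 38)))) (.nv (.thr 4 6 (.thr 55 38 (.thr 22 52 (.dbl 23 20 39)))) (.rp 55 (.thr 52 22 (.str 0 (.nv (.thr 4 6 (.thr 12 8 (.thr 36 20 (.thr 48 24 (.thr 16 32 (.dbl 26 15 31)))))) (.nv (.thr 42 63 (.thr 32 47 (.thr 48 16 (.thr 60 56 (.thr 20 40 (.dbl 4 6 36)))))) (.nv (.thr 4 6 (.thr 12 8 (.thr 36 20 (.thr 38 39 (.thr 51 25 (.thr 34 17 (.dbl 42 46 63))))))) (.nv (.thr 4 6 (.thr 20 36 (.thr 60 40 (.thr 48 56 (.thr 32 16 (.dbl 42 47 63)))))) (.rp 36 (.thr 6 4 (.thr 42 63 (.thr 32 47 (.thr 48 16 (.thr 15 26 (.thr 3 11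 (.thr 1 2 (.dbl 9 12 13)))))))) (.rp 20 (.thr 6 4 (.thr 42 63 (.thr 32 47 (.thr 48 16 (.thr 15 26 (.thr 3 11 (.thr 1 2 (.dbl 9 12 13)))))))) (.rp 8 (.thr 4 6 (.thr 20 36 (.thr 60 40 (.thr 42 63 (.thr 32 47 (.dbl 48 16 56)))))) (.rp 6 (.thr 42 63 (.thr 32 47 (.thr 48 16 (.thr 60 56 (.thr 40 20 (.thr 15 26 (.thr 41 43 (.dbl 45 30 33)))))))) (.rp 4 (.thr 42 63 (.thr 32 47 (.thr 48 16 (.thr 60 56 (.thr 40 20 (.thr 15 26 (.thr 41 43 (.dbl 45 30 33)))))))) .nd))))))))))) (.rp 52 (.str 55 (.nv (.dbl 4 6 38) (.rp 38 (.str 15 (.nv (.thr 3 11 (.thr 23 39 (.thr 22 20 (.thr 41 60 (.thr 33 45 (.dbl 48 18 26)))))) (.nv (.thr 3 11 (.thr 6 4 (.thr 9 12 (.thr 1 13 (.thr 41 61 (.thr 45 33 (.dbl 60 22 30))))))) (.nv (.thr 39 23 (.thr 51 27 (.thr 63 59 (.thr 31 47 (.dbl 26 16 48))))) (.rp 11 (.thr 39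 23 (.thr 51 27 (.thr 26 48 (.thr 31 16 (.dbl 63 47 59))))) .nd))))) (.rp 6 (.thr 39 23 (.dbl 38 4 36)) (.rp 4 (.thr 39 23 (.thr 36 38 (.str 15 (.nv (.thr 51 27 (.thr 63 59 (.thr 42 0 (.dbl 47 31 32)))) (.nv (.thr 3 11 (.thr 48 26 (.thr 12 24 (.thr 9 6 (.dbl 13 1 14))))) (.nv (.thr 51 27 (.thr 63 59 (.thr 31 47 (.dbl 26 16 48)))) (.rp 27 (.thr 3 11 (.thr 26 48 (.thr 31 16 (.thr 63 47 (.thr 0 42 (.thr 1 2 (.thr 41 61 (.thr 45 33 (.dbl 60 22 30))))))))) (.rp 11 (.thr 51 27 (.thr 26 48 (.thr 31 16 (.dbl 63 47 59)))) .nd)))))))) .nd))))) (.rp 39 (.str 13 (.nv (.thr 1 9 (.thr 49 25 (.thr 41 61 (.dbl 33 17 45)))) (.rp 61 (.thr 9 1 (.thr 6 4 (.thr 3 12 (.thr 22 52 (.thr 41 60 (.dbl 25 49 57)))))) (.rp 49 (.thr 9 1 (.thr 6 4 (.thr 3 12 (.thr 15 11 (.thr 22 52 (.thr 41 60 (.thr 33 45 (.dbl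 48 18 26)))))))) (.rp 45 (.thr 9 1 (.thr 25 49 (.thr 6 4 (.thr 3 12 (.thr 22 52 (.dbl 41 57 60)))))) (.rp 41 (.thr 9 1 (.thr 25 49 (.thr 6 4 (.thr 12 3 (.thr 38 51 (.dbl 22 52 54)))))) (.rp 33 (.thr 9 1 (.thr 6 4 (.thr 3 12 (.thr 22 52 (.thr 41 60 (.dbl 25 49 57)))))) (.rp 25 (.thr 1 9 (.thr 41 61 (.thr 33 45 (.thr 22 52 (.thr 3 60 (.thr 48 18 (.dbl 15 11 26))))))) (.rp 17 (.thr 9 1 (.thr 6 4 (.thr 3 12 (.thr 22 52 (.thr 41 60 (.dbl 25 49 57)))))) (.rp 11 (.thr 9 1 (.thr 25 49 (.thr 6 4 (.thr 3 12 (.thr 22 52 (.dbl 41 57 60)))))) (.rp 9 (.thr 25 49 (.thr 4 6 (.thr 38 55 (.thr 12 51 (.thr 52 22 (.thr 36 20 (.thr 48 24 (.dbl 15 14 26)))))))) (.rp 8 (.thr 9 1 (.thr 25 49 (.thr 6 4 (.thr 12 3 (.thr 38 51 (.dbl 22 52 54)))))) (.rp 1 (.thr 25 49 (.thr 4 6 (.thr 38 55 (.thr 12 51 (.thr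 52 22 (.thr 36 20 (.thr 48 24 (.dbl 15 14 26)))))))) .nd))))))))))))) (.rp 38 (.str 15 (.nv (.thr 22 52 (.thr 26 48 (.thr 30 18 (.thr 60 45 (.dbl 3 11 41))))) (.nv (.thr 3 11 (.thr 48 26 (.thr 33 18 (.thr 41 45 (.dbl 22 52 60))))) (.nv (.thr 3 11 (.thr 22 52 (.thr 23 20 (.thr 63 43 (.thr 47 31 (.dbl 42 0 32)))))) (.nv (.thr 3 11 (.thr 26 48 (.thr 22 52 (.thr 30 18 (.dbl 60 41 45))))) (.rp 52 (.thr 6 4 (.thr 3 11 (.thr 9 12 (.thr 1 13 (.thr 41 61 (.thr 45 33 (.dbl 60 22 30))))))) (.rp 30 (.thr 22 52 (.thr 3 11 (.thr 41 60 (.thr 33 45 (.dbl 48 18 26))))) (.rp 22 (.thr 3 11 (.thr 26 48 (.thr 31 16 (.thr 63 47 (.thr 23 43 (.thr 39 55 (.dbl 27 19 51))))))) (.rp 11 (.thr 22 52 (.thr 23 20 (.thr 26 48 (.thr 31 16 (.thr 27 19 (.dbl 39 51 55)))))) (.rp 3 (.thr 22 52 (.thr 23 20 (.thr 26 48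 (.thr 31 16 (.thr 27 19 (.dbl 39 51 55)))))) .nd)))))))))) (.rp 23 (.thr 4 6 (.thr 38 55 (.thr 36 39 (.dbl 52 20 22)))) (.rp 22 (.str 13 (.nv (.thr 1 9 (.thr 41 61 (.thr 33 45 (.dbl 49 17 25)))) (.rp 61 (.thr 6 4 (.thr 9 1 (.thr 12 3 (.thr 15 14 (.thr 48 26 (.thr 36 24 (.thr 38 39 (.dbl 25 49 51)))))))) (.rp 57 (.thr 1 9 (.thr 41 61 (.thr 49 25 (.dbl 33 17 45)))) (.rp 49 (.thr 6 4 (.thr 9 1 (.thr 3 12 (.thr 15 11 (.thr 26 48 (.thr 31 16 (.thr 63 47 (.thr 23 43 (.thr 39 55 (.dbl 27 19 51)))))))))) (.rp 45 (.thr 4 6 (.thr 38 55 (.thr 36 39 (.thr 25 49 (.thr 12 51 (.thr 48 24 (.dbl 15 14 26))))))) (.rp 41 (.thr 4 6 (.thr 38 55 (.thr 36 39 (.thr 25 49 (.thr 12 51 (.thr 48 24 (.dbl 15 14 26))))))) (.rp 33 (.thr 4 6 (.thr 38 55 (.thr 36 39 (.thr 25 49 (.thr 12 51 (.thr 48 24 (.dbl 15 14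 26))))))) (.rp 25 (.thr 4 6 (.thr 38 55 (.thr 39 36 (.thr 1 9 (.thr 41 61 (.thr 33 45 (.thr 35 44 (.thr 32 34 (.dbl 47 42 43))))))))) (.rp 17 (.thr 4 6 (.thr 38 55 (.thr 36 39 (.thr 25 49 (.thr 12 51 (.thr 48 24 (.dbl 15 14 26))))))) (.rp 11 (.thr 4 6 (.thr 38 55 (.thr 36 39 (.thr 25 49 (.thr 12 51 (.thr 48 24 (.dbl 15 14 26))))))) (.rp 9 (.thr 4 6 (.thr 38 55 (.thr 36 39 (.thr 25 49 (.thr 12 51 (.thr 48 24 (.dbl 15 14 26))))))) (.rp 8 (.thr 4 6 (.thr 38 55 (.thr 36 39 (.thr 25 49 (.thr 12 51 (.thr 48 24 (.dbl 15 14 26))))))) (.rp 1 (.thr 4 6 (.thr 38 55 (.thr 36 39 (.thr 25 49 (.thr 12 51 (.thr 48 24 (.dbl 15 14 26))))))) .nd)))))))))))))) (.rp 20 (.str 13 (.nv (.thr 6 4 (.thr 9 1 (.thr 12 3 (.thr 25 49 (.thr 38 51 (.dbl 22 52 54)))))) (.nv (.thr 1 9 (.thr 49 25 (.thr 41 61 (.dbl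 33 17 45)))) (.rp 61 (.thr 6 4 (.thr 9 1 (.thr 12 3 (.thr 25 49 (.thr 57 41 (.thr 38 51 (.dbl 22 52 54))))))) (.rp 49 (.thr 6 4 (.thr 9 1 (.thr 12 3 (.thr 15 14 (.thr 48 26 (.thr 22 52 (.thr 36 24 (.dbl 38 39 54)))))))) (.rp 33 (.thr 4 6 (.thr 38 55 (.thr 36 39 (.thr 25 49 (.thr 12 51 (.thr 48 24 (.dbl 15 14 26))))))) (.rp 25 (.thr 22 52 (.thr 1 9 (.thr 41 61 (.thr 33 45 (.thr 3 60 (.thr 48 18 (.dbl 15 11 26))))))) (.rp 17 (.thr 4 6 (.thr 38 55 (.thr 36 39 (.thr 25 49 (.thr 12 51 (.thr 48 24 (.dbl 15 14 26))))))) (.rp 9 (.thr 4 6 (.thr 38 55 (.thr 36 39 (.thr 25 49 (.thr 12 51 (.thr 48 24 (.dbl 15 14 26))))))) (.rp 1 (.thr 4 6 (.thr 38 55 (.thr 36 39 (.thr 25 49 (.thr 12 51 (.thr 48 24 (.dbl 15 14 26))))))) .nd)))))))))) (.rp 6 (.thr 22 52 (.thr 23 20 (.thr 55 39 (.thr 4 38 (.str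 3 (.nv (.thr 15 11 (.thr 26 48 (.thr 31 16 (.dbl 63 43 47)))) (.nv (.thr 15 11 (.thr 48 26 (.thr 33 18 (.dbl 41 45 60)))) (.nv (.thr 60 41 (.thr 63 43 (.thr 42 0 (.dbl 62 2 61)))) (.rp 60 (.thr 15 11 (.thr 63 43 (.thr 47 31 (.dbl 42 0 32)))) (.rp 14 (.str 2 (.nv (.thr 15 11 (.thr 60 41 (.thr 30 45 (.dbl 26 18 48)))) (.nv (.thr 0 1 (.dbl 42 62 63)) (.rp 50 (.str 26 (.nv (.thr 0 1 (.dbl 42 62 63)) (.nv (.dbl 15 11 48) .nd))) (.rp 26 (.str 50 (.nv (.thr 42 62 (.thr 1 0 (.dbl 41 60 61))) (.nv (.thr 18 34 (.thr 33 48 (.dbl 41 45 60))) (.nv (.thr 0 1 (.dbl 42 62 63)) (.rp 42 (.str 58 (.nv (.thr 60 41 (.thr 62 54 (.dbl 63 43 61))) (.nv (.thr 34 18 (.thr 0 1 (.thr 51 17 (.dbl 63 43 59)))) (.nv (.thr 1 0 (.dbl 41 60 61)) (.rp 34 (.str 46 (.nv (.thr 54 62 (.thr 63 43 (.thr 51 59 (.dbl 60 41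 57)))) (.nv (.thr 1 0 (.dbl 41 60 61)) (.rp 60 (.thr 63 43 (.thr 51 59 (.thr 48 49 (.thr 33 18 (.thr 41 45 (.dbl 1 0 61)))))) (.rp 51 (.thr 41 60 (.dbl 1 0 61)) (.rp 41 (.thr 1 0 (.thr 43 63 (.thr 11 15 (.thr 27 59 (.thr 13 9 (.thr 25 49 (.dbl 19 28 31))))))) (.rp 40 (.thr 0 1 (.thr 63 43 (.thr 41 60 (.thr 51 59 (.thr 48 49 (.dbl 33 18 45)))))) .nd))))))) .nd))))) .nd))))) .nd))))) (.rp 2 (.str 14 (.nv (.thr 15 11 (.thr 13 12 (.thr 9 1 (.thr 25 49 (.dbl 41 57 60))))) (.nv (.thr 63 43 (.thr 42 0 (.thr 47 32 (.dbl 15 11 31)))) (.rp 63 (.thr 15 11 (.thr 48 26 (.thr 33 18 (.dbl 41 45 60)))) (.rp 60 (.thr 15 11 (.thr 12 13 (.thr 63 43 (.dbl 0 8 42)))) (.rp 15 (.thr 41 60 (.thr 1 61 (.thr 13 9 (.thr 49 25 (.dbl 33 17 45))))) (.rp 11 (.thr 63 43 (.thr 60 41 (.thr 62 61 (.thr 30 46 (.thr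 26 18 (.dbl 15 45 48)))))) .nd))))))) .nd))))))))))) (.rp 4 (.str 3 (.nv (.thr 15 11 (.thr 48 26 (.thr 33 18 (.thr 41 45 (.dbl 22 52 60))))) (.nv (.thr 15 11 (.thr 26 48 (.thr 31 16 (.thr 63 47 (.thr 23 43 (.thr 27 19 (.dbl 39 51 55))))))) (.nv (.thr 22 52 (.thr 20 23 (.thr 60 41 (.thr 0 40 (.thr 2 1 (.dbl 42 62 63)))))) .nd)))) .nd))))))))))))

theorem w363 : WinAt (137441050656, 9007199791612928) :=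
  chF (K := []) kn c363 137441050656 9007199791612928 53
    [] (by decide +kernel) (by decide +kernel)

/-- A certificate. -/
noncomputable def c364 : Ct := (.str 7 (.nv (.thr 22 52 (.thr 23 20 (.thr 55 39 (.dbl 4 6 38)))) (.nv (.thr 4 6 (.thr 55 38 (.thr 22 52 (.dbl 23 20 39)))) (.rp 55 (.thr 6 4 (.thr 22 52 (.thr 54 38 (.thr 20 23 (.str 1 (.nv (.thr 13 9 (.thr 25 49 (.thr 29 17 (.dbl 61 41 45)))) (.nv (.thr 9 13 (.thr 3 12 (.thr 0 2 (.dbl 60 40 41)))) (.nv (.thr 9 13 (.thr 41 61 (.dbl 3 12 60))) (.rp 41 (.thr 9 13 (.thr 3 12 (.thr 0 2 (.thr 15 11 (.thr 26 48 (.thr 31 16 (.dbl 63 42 47))))))) (.rp 13 (.thr 41 61 (.thr 3 60 (.thr 15 11 (.thr 48 26 (.dbl 33 18 45))))) (.rp 9 (.thr 41 61 (.thr 33 45 (.thr 49 17 (.thr 60 3 (.thr 51 57 (.thr 48 50 (.thr 0 40 (.thr 16 32 (.dbl 26 15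 31))))))))) .nd))))))))))) (.rp 52 (.str 55 (.nv (.dbl 4 6 38) (.rp 38 (.str 13 (.nv (.thr 25 49 (.thr 29 17 (.thr 61 45 (.dbl 1 9 41)))) (.nv (.thr 1 9 (.thr 41 61 (.thr 49 25 (.dbl 33 17 45)))) (.nv (.thr 1 9 (.thr 25 49 (.thr 29 17 (.dbl 61 41 45)))) (.rp 61 (.thr 39 23 (.thr 6 4 (.thr 9 1 (.thr 12 3 (.thr 15 14 (.thr 49 25 (.thr 51 27 (.dbl 48 26 50)))))))) (.rp 49 (.thr 23 39 (.thr 6 4 (.thr 9 1 (.thr 3 12 (.thr 63 43 (.thr 15 11 (.thr 47 31 (.dbl 42 0 32)))))))) (.rp 45 (.thr 23 39 (.thr 22 20 (.thr 25 49 (.thr 17 29 (.thr 19 28 (.thr 31 27 (.dbl 16 18 26))))))) (.rp 41 (.thr 23 39 (.thr 22 20 (.thr 25 49 (.thr 17 29 (.thr 19 28 (.thr 31 27 (.dbl 16 18 26))))))) (.rp 25 (.thr 23 39 (.thr 22 20 (.thr 1 9 (.thr 41 61 (.thr 3 60 (.thr 0 2 (.dbl 63 42 43))))))) (.rp 17 (.thr 23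 39 (.thr 22 20 (.thr 1 9 (.thr 41 61 (.thr 3 60 (.thr 0 2 (.dbl 63 42 43))))))) (.rp 9 (.thr 23 39 (.thr 22 20 (.thr 25 49 (.thr 17 29 (.thr 19 28 (.thr 31 27 (.dbl 16 18 26))))))) (.rp 1 (.thr 23 39 (.thr 22 20 (.thr 25 49 (.thr 17 29 (.thr 19 28 (.thr 31 27 (.dbl 16 18 26))))))) .nd)))))))))))) (.rp 6 (.thr 39 23 (.dbl 38 4 36)) (.rp 4 (.thr 39 23 (.thr 36 38 (.str 15 (.nv (.thr 51 27 (.thr 63 59 (.thr 42 0 (.dbl 47 31 32)))) (.nv (.thr 3 11 (.thr 48 26 (.thr 12 24 (.thr 9 6 (.dbl 13 1 14))))) (.nv (.thr 51 27 (.thr 63 59 (.thr 31 47 (.dbl 26 16 48)))) (.rp 27 (.thr 3 11 (.thr 26 48 (.thr 31 16 (.thr 63 47 (.thr 0 42 (.thr 1 2 (.thr 41 61 (.thr 33 45 (.thr 49 17 (.dbl 13 9 25)))))))))) (.rp 11 (.thr 51 27 (.thr 26 48 (.thr 31 16 (.dbl 63 47 59)))) .nd)))))))) .nd))))) (.rp 39 (.str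 13 (.nv (.thr 25 49 (.thr 29 17 (.thr 61 45 (.dbl 1 9 41)))) (.nv (.thr 1 9 (.thr 25 49 (.thr 61 41 (.dbl 29 17 45)))) (.rp 61 (.thr 6 4 (.thr 22 52 (.thr 9 1 (.thr 3 12 (.thr 41 60 (.dbl 25 49 57)))))) (.rp 49 (.thr 6 4 (.thr 22 52 (.thr 9 1 (.thr 3 12 (.thr 41 60 (.thr 33 45 (.thr 15 11 (.dbl 48 18 26)))))))) (.rp 45 (.thr 6 4 (.thr 22 52 (.thr 9 1 (.thr 12 3 (.thr 25 49 (.dbl 38 51 54)))))) (.rp 41 (.thr 6 4 (.thr 22 52 (.thr 9 1 (.thr 12 3 (.thr 25 49 (.dbl 38 51 54)))))) (.rp 29 (.thr 1 9 (.thr 41 61 (.thr 33 45 (.dbl 49 17 25)))) (.rp 25 (.thr 22 52 (.thr 23 20 (.thr 1 9 (.thr 41 61 (.thr 3 60 (.thr 0 2 (.dbl 63 42 43))))))) (.rp 17 (.thr 6 4 (.thr 22 52 (.thr 9 1 (.thr 3 12 (.thr 41 60 (.dbl 25 49 57)))))) (.rp 9 (.thr 4 6 (.thr 38 55 (.thr 25 49 (.thr 29 17 (.thr 12 51 (.thr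 63 46 (.dbl 0 8 42))))))) (.rp 1 (.thr 4 6 (.thr 38 55 (.thr 25 49 (.thr 12 51 (.thr 0 8 (.thr 63 42 (.dbl 29 17 46))))))) .nd)))))))))))) (.rp 38 (.str 13 (.nv (.thr 25 49 (.thr 29 17 (.thr 61 45 (.dbl 1 9 41)))) (.nv (.thr 1 9 (.thr 41 61 (.thr 49 25 (.dbl 33 17 45)))) (.nv (.thr 1 9 (.thr 25 49 (.thr 29 17 (.dbl 61 41 45)))) (.rp 61 (.thr 6 4 (.thr 22 52 (.thr 9 1 (.thr 3 12 (.thr 41 60 (.dbl 25 49 57)))))) (.rp 49 (.thr 6 4 (.thr 22 52 (.thr 9 1 (.thr 3 12 (.thr 41 60 (.thr 33 45 (.thr 15 11 (.dbl 48 18 26)))))))) (.rp 45 (.thr 6 4 (.thr 22 52 (.thr 9 1 (.thr 3 12 (.thr 25 49 (.dbl 41 57 60)))))) (.rp 41 (.thr 22 52 (.thr 23 20 (.thr 25 49 (.thr 17 29 (.thr 19 28 (.thr 31 27 (.dbl 16 18 26))))))) (.rp 25 (.thr 22 52 (.thr 23 20 (.thr 1 9 (.thr 41 61 (.thr 3 60 (.thr 0 2 (.dbl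 63 42 43))))))) (.rp 17 (.thr 6 4 (.thr 22 52 (.thr 9 1 (.thr 3 12 (.thr 41 60 (.dbl 25 49 57)))))) (.rp 9 (.thr 22 52 (.thr 23 20 (.thr 25 49 (.thr 17 29 (.thr 19 28 (.thr 31 27 (.dbl 16 18 26))))))) (.rp 1 (.thr 22 52 (.thr 23 20 (.thr 25 49 (.thr 17 29 (.thr 19 28 (.thr 31 27 (.dbl 16 18 26))))))) .nd)))))))))))) (.rp 23 (.thr 4 6 (.thr 38 55 (.thr 36 39 (.dbl 52 20 22)))) (.rp 22 (.str 13 (.nv (.thr 25 49 (.thr 29 17 (.thr 61 45 (.dbl 1 9 41)))) (.nv (.thr 1 9 (.thr 41 61 (.thr 49 25 (.dbl 33 17 45)))) (.nv (.thr 1 9 (.thr 25 49 (.thr 29 17 (.dbl 61 41 45)))) (.rp 61 (.thr 4 6 (.thr 38 55 (.thr 36 39 (.thr 9 1 (.thr 25 49 (.thr 57 41 (.thr 12 51 (.thr 48 24 (.dbl 15 14 26))))))))) (.rp 49 (.thr 4 6 (.thr 38 55 (.thr 1 9 (.thr 61 41 (.thr 29 45 (.thr 25 17 (.thr 12 51 (.thr 63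 46 (.dbl 0 8 42))))))))) (.rp 45 (.thr 4 6 (.thr 38 55 (.thr 36 39 (.thr 25 49 (.thr 12 51 (.thr 48 24 (.dbl 15 14 26))))))) (.rp 41 (.thr 4 6 (.thr 38 55 (.thr 36 39 (.thr 25 49 (.thr 12 51 (.thr 48 24 (.dbl 15 14 26))))))) (.rp 26 (.str 18 (.nv (.thr 6 4 (.thr 9 1 (.thr 3 12 (.thr 33 48 (.thr 41 45 (.dbl 25 49 57)))))) (.nv (.thr 1 9 (.thr 25 49 (.thr 29 17 (.dbl 61 41 45)))) (.rp 58 (.str 42 (.nv (.thr 1 9 (.thr 25 49 (.thr 29 17 (.dbl 61 41 45)))) (.nv (.thr 4 6 (.thr 25 49 (.thr 8 59 (.dbl 0 12 63)))) (.nv (.thr 32 47 (.thr 0 63 (.thr 48 16 (.thr 3 33 (.dbl 1 2 9))))) (.rp 63 (.str 48 (.nv (.thr 25 49 (.thr 32 47 (.thr 16 0 (.dbl 17 19 29)))) (.nv (.thr 3 33 (.thr 6 4 (.dbl 9 1 12))) .nd))) (.rp 48 (.thr 63 0 (.thr 1 9 (.thr 49 25 (.thr 33 17 (.dbl 41 45 61))))) .nd)))))) (.rp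 57 (.thr 49 25 (.thr 1 9 (.thr 41 61 (.dbl 33 17 45)))) (.rp 49 (.thr 4 6 (.thr 38 55 (.thr 1 9 (.thr 61 41 (.thr 29 45 (.thr 25 17 (.thr 12 51 (.thr 63 46 (.dbl 0 8 42))))))))) (.rp 45 (.thr 4 6 (.thr 38 55 (.thr 25 49 (.thr 29 17 (.thr 12 51 (.thr 63 46 (.dbl 0 8 42))))))) (.rp 42 (.str 58 (.nv (.thr 6 4 (.thr 9 1 (.thr 3 12 (.thr 33 48 (.thr 41 45 (.dbl 25 49 57)))))) (.nv (.thr 1 9 (.thr 25 49 (.thr 29 17 (.dbl 61 41 45)))) (.rp 62 (.str 2 (.nv (.thr 25 49 (.thr 29 17 (.thr 61 45 (.dbl 1 9 41)))) (.nv (.thr 1 9 (.thr 3 0 (.thr 33 48 (.dbl 49 17 25)))) (.nv (.thr 1 9 (.thr 3 0 (.thr 33 48 (.dbl 41 45 61)))) (.nv (.thr 1 9 (.thr 25 49 (.thr 29 17 (.dbl 61 41 45)))) (.rp 46 (.str 14 (.nv (.thr 4 6 (.thr 12 15 (.thr 25 49 (.dbl 38 51 55)))) (.nv (.thr 1 9 (.thr 25 49 (.thr 29 17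 (.dbl 61 41 45)))) (.nv (.thr 6 4 (.thr 9 1 (.dbl 12 3 15))) (.rp 38 (.thr 34 50 (.thr 1 9 (.thr 3 0 (.dbl 15 11 12)))) (.rp 34 (.str 38 (.nv (.thr 12 15 (.dbl 25 49 51)) (.nv (.dbl 4 6 55) .nd))) .nd)))))) (.rp 14 (.str 46 (.nv (.thr 1 9 (.thr 3 0 (.thr 33 48 (.dbl 41 45 61)))) (.nv (.thr 4 6 (.thr 25 49 (.thr 38 55 (.thr 12 51 (.dbl 29 17 63))))) (.nv (.thr 1 9 (.thr 25 49 (.thr 29 17 (.dbl 61 41 45)))) (.rp 61 (.thr 1 9 (.thr 49 25 (.thr 33 17 (.dbl 3 0 48)))) (.rp 50 (.str 38 (.nv (.thr 25 49 (.thr 29 17 (.dbl 12 51 63))) (.nv (.dbl 4 6 55) .nd))) (.rp 38 (.thr 50 34 (.thr 1 9 (.thr 25 49 (.thr 29 17 (.dbl 61 41 45))))) .nd))))))) (.rp 9 (.thr 49 25 (.thr 50 34 (.thr 48 51 (.thr 33 3 (.thr 41 45 (.dbl 1 17 61)))))) (.rp 1 (.thr 25 49 (.thr 17 29 (.thr 34 50 (.thr 51 0 (.thr 4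 6 (.dbl 38 12 55)))))) .nd))))))))) (.rp 57 (.thr 49 25 (.thr 1 9 (.thr 41 61 (.dbl 33 17 45)))) (.rp 49 (.thr 1 9 (.thr 61 41 (.thr 29 45 (.thr 25 17 (.thr 4 6 (.thr 38 55 (.thr 36 39 (.thr 12 51 (.thr 48 24 (.thr 3 33 (.dbl 15 11 14))))))))))) (.rp 45 (.thr 25 49 (.thr 4 6 (.thr 38 55 (.thr 36 39 (.thr 12 51 (.thr 48 24 (.thr 3 33 (.dbl 15 11 14)))))))) (.rp 41 (.thr 25 49 (.thr 4 6 (.thr 38 55 (.thr 36 39 (.thr 12 51 (.thr 48 24 (.thr 3 33 (.dbl 15 11 14)))))))) (.rp 25 (.thr 1 9 (.thr 41 61 (.thr 33 45 (.thr 3 48 (.thr 2 0 (.thr 34 50 (.thr 4 6 (.thr 38 55 (.dbl 35 32 44))))))))) (.rp 9 (.thr 25 49 (.thr 4 6 (.thr 38 55 (.thr 36 39 (.thr 12 51 (.thr 48 24 (.thr 3 33 (.dbl 15 11 14)))))))) (.rp 8 (.thr 25 49 (.thr 29 17 (.thr 61 45 (.dbl 1 9 41)))) (.rp 2 (.str 62 (.nv (.thr 6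 4 (.thr 1 9 (.thr 25 49 (.thr 61 41 (.dbl 29 17 45))))) (.nv (.thr 49 25 (.thr 50 54 (.thr 48 51 (.thr 33 3 (.dbl 1 9 17))))) (.nv (.thr 25 49 (.thr 29 17 (.thr 1 9 (.dbl 61 41 45)))) (.rp 49 (.thr 1 9 (.thr 61 41 (.thr 29 45 (.thr 25 17 (.thr 54 50 (.thr 60 63 (.thr 51 57 (.thr 38 12 (.dbl 4 6 55))))))))) (.rp 41 (.thr 49 25 (.thr 9 1 (.thr 50 54 (.thr 48 51 (.thr 3 33 (.dbl 6 4 12)))))) (.rp 25 (.thr 1 9 (.thr 41 61 (.thr 33 45 (.thr 49 17 (.thr 50 54 (.dbl 48 3 51)))))) (.rp 17 (.thr 49 25 (.thr 1 9 (.thr 41 61 (.thr 33 45 (.thr 50 54 (.dbl 48 3 51)))))) (.rp 9 (.thr 49 25 (.thr 50 54 (.thr 48 51 (.thr 33 3 (.thr 41 45 (.dbl 1 17 61)))))) (.rp 8 (.thr 25 49 (.thr 29 17 (.thr 61 45 (.dbl 1 9 41)))) (.rp 6 (.str 14 (.nv (.thr 54 50 (.thr 1 9 (.thr 25 49 (.thr 29 17 (.dbl 61 41 45)))))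 (.nv (.thr 15 12 (.thr 3 11 (.thr 33 48 (.thr 41 45 (.dbl 1 9 61))))) (.nv (.thr 12 15 (.thr 25 49 (.thr 38 51 (.thr 39 36 (.dbl 55 4 23))))) (.nv (.thr 15 12 (.thr 3 11 (.thr 48 33 (.thr 49 25 (.dbl 50 51 54))))) (.nv (.thr 25 49 (.thr 29 17 (.thr 61 45 (.dbl 1 9 41)))) (.rp 54 (.str 38 (.nv (.thr 12 15 (.dbl 25 49 51)) (.nv (.thr 55 4 (.dbl 39 23 36)) (.rp 55 (.str 52 (.nv (.thr 1 9 (.thr 25 49 (.thr 29 17 (.dbl 61 41 45)))) (.nv (.thr 12 15 (.dbl 25 49 51)) (.rp 49 (.thr 12 15 (.thr 25 51 (.thr 29 17 (.thr 63 46 (.dbl 61 45 60))))) (.rp 45 (.thr 25 49 (.dbl 12 15 51)) (.rp 25 (.thr 15 12 (.thr 3 11 (.thr 33 48 (.thr 41 45 (.dbl 1 9 61))))) (.rp 12 (.thr 25 49 (.thr 29 17 (.thr 61 45 (.dbl 1 9 41)))) .nd))))))) .nd)))) .nd))))))) (.rp 1 (.thr 49 25 (.thr 50 54 (.thr 48 51 (.thr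 3 33 (.thr 15 11 (.thr 6 4 (.dbl 12 9 14))))))) .nd)))))))))))) (.rp 1 (.thr 25 49 (.thr 17 29 (.thr 19 16 (.thr 4 6 (.thr 38 55 (.thr 39 36 (.thr 51 12 (.thr 3 35 (.dbl 15 11 27))))))))) .nd))))))))))))) (.rp 41 (.thr 4 6 (.thr 38 55 (.thr 25 49 (.thr 29 17 (.thr 12 51 (.thr 63 46 (.dbl 0 8 42))))))) (.rp 25 (.thr 4 6 (.thr 38 55 (.thr 36 39 (.thr 1 9 (.thr 41 61 (.thr 44 35 (.thr 32 40 (.thr 45 33 (.dbl 47 42 46))))))))) (.rp 9 (.thr 4 6 (.thr 38 55 (.thr 25 49 (.thr 29 17 (.thr 12 51 (.thr 63 46 (.dbl 0 8 42))))))) (.rp 8 (.thr 25 49 (.thr 29 17 (.thr 61 45 (.dbl 1 9 41)))) (.rp 1 (.thr 4 6 (.thr 38 55 (.thr 36 39 (.thr 25 49 (.thr 17 29 (.thr 16 19 (.thr 12 51 (.thr 48 24 (.dbl 0 8 32))))))))) .nd))))))))))))) (.rp 25 (.thr 4 6 (.thr 38 55 (.thr 39 36 (.thr 1 9 (.thr 41 61 (.thr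 33 45 (.thr 35 44 (.thr 32 34 (.dbl 47 42 43))))))))) (.rp 18 (.str 26 (.nv (.thr 4 6 (.thr 15 48 (.thr 38 55 (.dbl 14 12 50)))) (.nv (.thr 25 49 (.thr 29 17 (.thr 61 45 (.dbl 1 9 41)))) (.nv (.thr 6 4 (.thr 9 1 (.thr 3 12 (.dbl 15 11 48)))) (.rp 15 (.thr 1 9 (.thr 25 49 (.thr 29 17 (.dbl 61 41 45)))) .nd))))) (.rp 17 (.thr 4 6 (.thr 38 55 (.thr 36 39 (.thr 25 49 (.thr 12 51 (.thr 48 24 (.dbl 15 14 26))))))) (.rp 9 (.thr 4 6 (.thr 38 55 (.thr 36 39 (.thr 25 49 (.thr 12 51 (.thr 48 24 (.dbl 15 14 26))))))) (.rp 1 (.thr 4 6 (.thr 38 55 (.thr 36 39 (.thr 25 49 (.thr 12 51 (.thr 48 24 (.dbl 15 14 26))))))) .nd)))))))))))))) (.rp 20 (.str 13 (.nv (.thr 25 49 (.thr 29 17 (.thr 61 45 (.dbl 1 9 41)))) (.nv (.thr 1 9 (.thr 25 49 (.thr 61 41 (.dbl 29 17 45)))) (.rp 61 (.thr 6 4 (.thr 9 1 (.thr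 12 3 (.thr 25 49 (.thr 57 41 (.thr 38 51 (.dbl 22 52 54))))))) (.rp 49 (.thr 6 4 (.thr 9 1 (.thr 12 3 (.thr 15 14 (.thr 48 26 (.thr 22 52 (.thr 36 24 (.dbl 38 39 54)))))))) (.rp 45 (.thr 6 4 (.thr 9 1 (.thr 12 3 (.thr 25 49 (.thr 38 51 (.dbl 22 52 54)))))) (.rp 41 (.thr 6 4 (.thr 9 1 (.thr 12 3 (.thr 25 49 (.thr 38 51 (.dbl 22 52 54)))))) (.rp 29 (.thr 1 9 (.thr 41 61 (.thr 33 45 (.dbl 49 17 25)))) (.rp 25 (.thr 4 6 (.thr 55 38 (.thr 23 39 (.thr 22 52 (.thr 1 9 (.thr 41 61 (.thr 3 60 (.thr 63 43 (.dbl 0 2 42))))))))) (.rp 17 (.thr 4 6 (.thr 38 55 (.thr 36 39 (.thr 25 49 (.thr 12 51 (.thr 48 24 (.dbl 15 14 26))))))) (.rp 9 (.thr 4 6 (.thr 38 55 (.thr 36 39 (.thr 25 49 (.thr 12 51 (.thr 48 24 (.dbl 15 14 26))))))) (.rp 1 (.thr 4 6 (.thr 38 55 (.thr 36 39 (.thr 25 49 (.thr 12 51 (.thr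 48 24 (.dbl 15 14 26))))))) .nd)))))))))))) (.rp 6 (.str 3 (.nv (.thr 15 11 (.thr 26 48 (.thr 31 16 (.thr 63 47 (.thr 23 43 (.dbl 22 20 52)))))) (.nv (.thr 15 11 (.thr 22 52 (.thr 41 60 (.thr 33 45 (.dbl 48 18 26))))) (.nv (.thr 22 52 (.thr 20 23 (.thr 60 41 (.thr 0 40 (.thr 2 1 (.dbl 42 62 63)))))) (.rp 52 (.thr 15 11 (.thr 26 48 (.thr 31 16 (.thr 63 47 (.thr 23 43 (.thr 27 19 (.dbl 39 51 55))))))) (.rp 22 (.thr 15 11 (.thr 26 48 (.thr 31 16 (.thr 63 47 (.thr 23 43 (.thr 39 55 (.dbl 27 19 51))))))) (.rp 14 (.str 2 (.nv (.thr 1 0 (.thr 13 9 (.thr 25 49 (.thr 29 17 (.dbl 61 41 45))))) (.nv (.thr 22 52 (.thr 0 1 (.dbl 42 62 63))) (.rp 62 (.str 46 (.nv (.thr 15 11 (.thr 22 52 (.thr 41 60 (.thr 33 45 (.dbl 48 18 26))))) (.nv (.thr 0 1 (.thr 15 11 (.thr 26 48 (.thr 31 16 (.dbl 63 42 47)))))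 (.nv (.thr 22 52 (.thr 1 0 (.dbl 41 60 61))) .nd)))) (.rp 46 (.str 62 (.nv (.dbl 22 42 52) (.rp 52 (.thr 0 1 (.dbl 42 22 63)) (.rp 42 (.thr 22 52 (.thr 1 0 (.dbl 41 60 61))) (.rp 22 (.thr 0 1 (.thr 63 42 (.thr 15 11 (.thr 31 47 (.dbl 26 16 48))))) .nd))))) (.rp 1 (.thr 22 52 (.thr 23 20 (.thr 63 43 (.dbl 42 0 62)))) (.rp 0 (.thr 22 52 (.thr 23 20 (.thr 62 42 (.thr 63 43 (.dbl 60 41 61))))) .nd))))))) (.rp 2 (.str 14 (.nv (.thr 15 11 (.thr 26 48 (.thr 38 50 (.thr 39 36 (.dbl 55 4 23))))) (.nv (.thr 15 11 (.thr 13 12 (.thr 25 49 (.thr 29 17 (.thr 61 45 (.dbl 1 9 41)))))) (.nv (.thr 15 11 (.thr 22 52 (.thr 41 60 (.thr 33 45 (.dbl 48 18 26))))) (.rp 15 (.thr 22 52 (.thr 41 60 (.thr 45 33 (.thr 23 20 (.thr 55 39 (.thr 63 43 (.thr 51 59 (.thr 35 19 (.dbl 38 4 44))))))))) (.rp 11 (.thr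 22 52 (.thr 23 20 (.thr 63 43 (.thr 42 0 (.thr 47 32 (.thr 15 31 (.thr 48 26 (.thr 33 18 (.dbl 41 45 60))))))))) (.rp 9 (.thr 22 52 (.thr 41 60 (.thr 61 1 (.thr 45 33 (.thr 13 29 (.dbl 15 11 12)))))) (.rp 8 (.thr 22 52 (.thr 41 60 (.thr 61 1 (.thr 45 33 (.thr 13 29 (.dbl 15 11 12)))))) .nd)))))))) .nd)))))))) (.rp 4 (.str 3 (.nv (.thr 15 11 (.thr 48 26 (.thr 33 18 (.thr 22 52 (.dbl 41 45 60))))) (.nv (.thr 15 11 (.thr 26 48 (.thr 31 16 (.thr 63 47 (.thr 23 43 (.thr 27 19 (.dbl 39 51 55))))))) (.nv (.thr 22 52 (.thr 20 23 (.thr 60 41 (.thr 0 40 (.thr 2 1 (.dbl 42 62 63)))))) (.rp 55 (.thr 15 11 (.thr 26 48 (.thr 31 16 (.thr 63 47 (.thr 23 43 (.dbl 22 20 52)))))) .nd))))) .nd))))))))))))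

theorem w364 : WinAt (137441050656, 9007200328483840) :=
  chF (K := []) kn c364 137441050656 9007200328483840 53
    [] (by decide +kernel) (by decide +kernel)

/-- A certificate. -/
noncomputable def c365 : Ct := (.str 7 (.nv (.thr 22 52 (.thr 23 20 (.thr 55 39 (.dbl 4 6 38)))) (.nv (.thr 4 6 (.thr 55 38 (.thr 22 52 (.dbl 23 20 39)))) (.rp 55 (.thr 52 22 (.str 1 (.nv (.thr 13 9 (.thr 49 25 (.thr 41 61 (.dbl 33 17 45)))) (.nv (.thr 41 61 (.thr 33 45 (.thr 49 17 (.dbl 13 9 25)))) (.rp 61 (.thr 6 4 (.thr 9 13 (.thr 3 12 (.thr 0 2 (.thr 15 11 (.thr 48 26 (.thr 32 16 (.dbl 42 47 63)))))))) (.rp 49 (.thr 6 4 (.thr 9 13 (.thr 3 12 (.thr 0 2 (.thr 15 11 (.thr 48 26 (.thr 32 16 (.dbl 42 47 63)))))))) (.rp 45 (.thr 4 6 (.thr 36 20 (.thr 38 39 (.thr 13 9 (.thr 25 49 (.thr 12 51 (.thr 48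 24 (.dbl 15 14 26)))))))) (.rp 41 (.thr 4 6 (.thr 36 20 (.thr 38 39 (.thr 13 9 (.thr 25 49 (.thr 12 51 (.thr 48 24 (.dbl 15 14 26)))))))) (.rp 33 (.thr 13 9 (.thr 25 49 (.thr 29 17 (.dbl 61 41 45)))) (.rp 25 (.thr 6 4 (.thr 9 13 (.thr 3 12 (.thr 41 61 (.thr 15 11 (.thr 48 26 (.dbl 33 18 45))))))) (.rp 17 (.thr 6 4 (.thr 9 13 (.thr 3 12 (.thr 41 61 (.thr 15 11 (.thr 48 26 (.dbl 33 18 45))))))) (.rp 13 (.thr 4 6 (.thr 36 20 (.thr 38 39 (.thr 41 61 (.thr 45 33 (.thr 44 35 (.thr 47 46 (.dbl 32 40 42)))))))) (.rp 9 (.thr 4 6 (.thr 36 20 (.thr 38 39 (.thr 41 61 (.thr 45 33 (.thr 44 35 (.thr 47 46 (.dbl 32 40 42)))))))) .nd))))))))))))) (.rp 52 (.str 55 (.nv (.dbl 4 6 38) (.rp 38 (.str 1 (.nv (.thr 6 4 (.thr 9 13 (.thr 3 12 (.thr 0 2 (.thr 23 39 (.dbl 63 42 43)))))) (.nv (.thr 41 61 (.thr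 33 45 (.thr 49 17 (.dbl 13 9 25)))) (.rp 25 (.thr 23 39 (.thr 22 20 (.thr 9 13 (.thr 41 61 (.thr 3 60 (.dbl 6 4 12)))))) (.rp 13 (.thr 23 39 (.thr 22 20 (.thr 41 61 (.thr 3 60 (.thr 0 2 (.dbl 63 42 43)))))) (.rp 9 (.thr 23 39 (.thr 22 20 (.thr 41 61 (.thr 3 60 (.thr 0 2 (.dbl 63 42 43)))))) .nd)))))) (.rp 6 (.thr 39 23 (.dbl 38 4 36)) (.rp 4 (.thr 23 39 (.str 63 (.nv (.thr 0 42 (.thr 51 59 (.thr 17 34 (.thr 25 29 (.thr 13 49 (.thr 1 9 (.dbl 3 2 43))))))) (.nv (.thr 3 43 (.thr 15 11 (.thr 48 26 (.thr 33 18 (.thr 41 45 (.dbl 22 20 60)))))) (.nv (.thr 3 43 (.thr 0 42 (.thr 1 2 (.thr 41 61 (.dbl 22 20 60))))) (.rp 58 (.thr 59 51 (.thr 43 3 (.thr 42 0 (.thr 41 40 (.thr 1 61 (.thr 13 9 (.dbl 25 8 49))))))) (.rp 43 (.thr 51 59 (.thr 0 42 (.thr 17 34 (.thr 25 29 (.thr 49 13 (.thr 33 1 (.thr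 48 50 (.thr 16 32 (.dbl 18 3 19))))))))) (.rp 42 (.str 26 (.nv (.thr 20 22 (.thr 3 43 (.dbl 15 11 48))) (.nv (.thr 15 48 (.dbl 3 11 43)) (.rp 48 (.thr 3 43 (.thr 11 15 (.thr 41 56 (.thr 60 22 (.dbl 61 1 62))))) (.rp 43 (.thr 51 59 (.thr 48 15 (.thr 49 50 (.thr 25 13 (.thr 29 17 (.dbl 12 38 46)))))) (.rp 20 (.str 36 (.nv (.thr 3 43 (.dbl 15 11 48)) (.nv (.thr 15 48 (.dbl 3 11 43)) (.rp 48 (.thr 3 43 (.thr 11 15 (.thr 41 56 (.thr 60 22 (.dbl 61 1 62))))) (.rp 43 (.thr 48 15 (.thr 12 24 (.thr 29 46 (.thr 25 17 (.dbl 51 38 59))))) (.rp 15 (.thr 43 3 (.thr 59 51 (.thr 27 11 (.thr 25 24 (.thr 13 49 (.thr 29 17 (.thr 61 45 (.dbl 1 9 41)))))))) (.rp 11 (.thr 48 15 (.thr 12 24 (.thr 29 46 (.thr 25 17 (.dbl 51 38 59))))) (.rp 3 (.thr 48 15 (.thr 12 24 (.thr 29 46 (.thr 25 17 (.dbl 51 38 59)))))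 .nd)))))))) (.rp 15 (.thr 43 3 (.thr 59 51 (.thr 27 11 (.thr 25 24 (.thr 29 17 (.thr 13 49 (.thr 61 45 (.dbl 1 9 41)))))))) (.rp 11 (.thr 3 43 (.thr 48 15 (.thr 18 33 (.dbl 22 20 30)))) (.rp 3 (.thr 51 59 (.thr 48 15 (.thr 49 50 (.thr 25 13 (.thr 29 17 (.dbl 12 38 46)))))) .nd))))))))) (.rp 36 (.thr 20 22 (.thr 51 59 (.thr 3 43 (.thr 0 42 (.thr 17 34 (.thr 25 29 (.thr 13 49 (.dbl 1 2 9)))))))) (.rp 26 (.thr 59 51 (.thr 43 3 (.thr 42 0 (.thr 41 40 (.thr 1 61 (.thr 13 9 (.dbl 25 8 49))))))) (.rp 20 (.str 36 (.nv (.thr 42 0 (.thr 32 47 (.thr 40 44 (.dbl 43 3 41)))) (.nv (.thr 3 43 (.thr 15 11 (.thr 48 26 (.thr 12 24 (.thr 9 6 (.dbl 13 1 14)))))) (.nv (.thr 43 3 (.thr 42 0 (.thr 32 47 (.dbl 40 41 44)))) (.rp 47 (.thr 51 59 (.thr 0 42 (.thr 17 34 (.thr 25 29 (.thr 13 49 (.thr 1 9 (.dbl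 3 2 43))))))) (.rp 43 (.thr 51 59 (.thr 0 42 (.thr 17 34 (.thr 25 29 (.thr 49 13 (.thr 48 50 (.dbl 12 24 38))))))) (.rp 42 (.str 26 (.nv (.thr 3 43 (.dbl 15 11 48)) (.nv (.thr 15 48 (.dbl 3 11 43)) (.rp 48 (.thr 3 43 (.thr 11 15 (.thr 41 56 (.thr 60 22 (.dbl 61 1 62))))) (.rp 43 (.thr 48 15 (.thr 12 24 (.thr 29 46 (.thr 25 17 (.dbl 51 38 59))))) (.rp 15 (.thr 43 3 (.thr 59 51 (.thr 27 11 (.thr 25 24 (.thr 13 49 (.thr 29 17 (.thr 61 45 (.dbl 1 9 41)))))))) (.rp 11 (.thr 48 15 (.thr 12 24 (.thr 29 46 (.thr 25 17 (.dbl 51 38 59))))) (.rp 3 (.thr 48 15 (.thr 12 24 (.thr 29 46 (.thr 25 17 (.dbl 51 38 59))))) .nd)))))))) (.rp 41 (.thr 51 59 (.thr 0 42 (.thr 17 34 (.thr 25 29 (.thr 13 49 (.thr 1 9 (.dbl 3 2 43))))))) (.rp 12 (.thr 51 59 (.thr 3 43 (.thr 0 42 (.thr 1 2 (.thr 17 34 (.thr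 49 33 (.dbl 25 13 29))))))) (.rp 8 (.thr 3 43 (.thr 0 42 (.thr 1 2 (.thr 41 61 (.thr 33 45 (.thr 49 17 (.dbl 13 9 25))))))) (.rp 3 (.thr 51 59 (.thr 0 42 (.thr 17 34 (.thr 25 29 (.thr 49 13 (.thr 48 50 (.dbl 12 24 38))))))) .nd))))))))))) (.rp 3 (.thr 20 22 (.thr 51 59 (.thr 0 42 (.thr 17 34 (.thr 25 29 (.thr 13 49 (.thr 1 9 (.thr 61 41 (.dbl 60 40 62))))))))) .nd)))))))))))) .nd))))) (.rp 39 (.str 13 (.nv (.thr 25 49 (.thr 29 17 (.thr 61 45 (.dbl 1 9 41)))) (.nv (.thr 1 9 (.thr 25 49 (.thr 61 41 (.dbl 29 17 45)))) (.rp 61 (.thr 6 4 (.thr 22 52 (.thr 9 1 (.thr 3 12 (.thr 41 60 (.dbl 25 49 57)))))) (.rp 49 (.thr 6 4 (.thr 22 52 (.thr 9 1 (.thr 3 12 (.thr 60 41 (.thr 15 11 (.thr 30 45 (.dbl 26 18 48)))))))) (.rp 45 (.thr 6 4 (.thr 22 52 (.thr 9 1 (.thr 12 3 (.thr 25 49 (.dbl 38 51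 54)))))) (.rp 41 (.thr 6 4 (.thr 22 52 (.thr 9 1 (.thr 12 3 (.thr 25 49 (.dbl 38 51 54)))))) (.rp 29 (.thr 1 9 (.thr 41 61 (.thr 33 45 (.dbl 49 17 25)))) (.rp 25 (.thr 22 52 (.thr 23 20 (.thr 1 9 (.thr 41 61 (.thr 3 60 (.thr 0 2 (.dbl 63 42 43))))))) (.rp 17 (.thr 6 4 (.thr 22 52 (.thr 9 1 (.thr 3 12 (.thr 41 60 (.dbl 25 49 57)))))) (.rp 9 (.thr 4 6 (.thr 38 55 (.thr 25 49 (.thr 29 17 (.thr 12 51 (.thr 63 46 (.dbl 0 8 42))))))) (.rp 1 (.thr 4 6 (.thr 38 55 (.thr 25 49 (.thr 12 51 (.thr 0 8 (.thr 63 42 (.dbl 29 17 46))))))) .nd)))))))))))) (.rp 38 (.str 1 (.nv (.thr 6 4 (.thr 9 13 (.thr 3 12 (.thr 22 52 (.dbl 41 60 61))))) (.nv (.thr 41 61 (.thr 33 45 (.thr 49 17 (.dbl 13 9 25)))) (.rp 61 (.thr 22 52 (.thr 20 23 (.thr 6 4 (.thr 9 13 (.thr 3 12 (.thr 0 2 (.dbl 60 40 41))))))) (.rp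 41 (.thr 22 52 (.thr 6 4 (.thr 9 13 (.thr 3 12 (.thr 0 2 (.thr 63 42 (.dbl 23 20 43))))))) (.rp 25 (.thr 22 52 (.thr 6 4 (.thr 9 13 (.thr 41 61 (.dbl 3 12 60))))) (.rp 13 (.thr 22 52 (.thr 23 20 (.thr 41 61 (.thr 3 60 (.thr 0 2 (.dbl 63 42 43)))))) (.rp 9 (.thr 22 52 (.thr 23 20 (.thr 41 61 (.thr 3 60 (.thr 0 2 (.dbl 63 42 43)))))) .nd)))))))) (.rp 23 (.thr 4 6 (.thr 38 55 (.thr 36 39 (.dbl 52 20 22)))) (.rp 22 (.str 13 (.nv (.thr 1 9 (.thr 61 41 (.thr 25 49 (.dbl 29 17 45)))) (.nv (.thr 25 49 (.thr 29 17 (.thr 61 45 (.dbl 1 9 41)))) (.rp 61 (.thr 6 4 (.thr 9 1 (.thr 12 3 (.thr 15 14 (.thr 48 26 (.thr 36 24 (.thr 38 39 (.dbl 25 49 51)))))))) (.rp 49 (.thr 4 6 (.thr 38 55 (.thr 1 9 (.thr 61 41 (.thr 29 45 (.thr 25 17 (.thr 12 51 (.thr 63 46 (.dbl 0 8 42))))))))) (.rp 45 (.thr 4 6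 (.thr 38 55 (.thr 36 39 (.thr 25 49 (.thr 12 51 (.thr 48 24 (.dbl 15 14 26))))))) (.rp 41 (.thr 4 6 (.thr 38 55 (.thr 36 39 (.thr 25 49 (.thr 12 51 (.thr 48 24 (.dbl 15 14 26))))))) (.rp 29 (.thr 1 9 (.thr 41 61 (.thr 33 45 (.dbl 49 17 25)))) (.rp 25 (.thr 4 6 (.thr 38 55 (.thr 39 36 (.thr 1 9 (.thr 41 61 (.thr 33 45 (.thr 35 44 (.thr 32 34 (.dbl 47 42 43))))))))) (.rp 17 (.thr 4 6 (.thr 38 55 (.thr 36 39 (.thr 25 49 (.thr 12 51 (.thr 48 24 (.dbl 15 14 26))))))) (.rp 9 (.thr 4 6 (.thr 38 55 (.thr 36 39 (.thr 25 49 (.thr 12 51 (.thr 48 24 (.dbl 15 14 26))))))) (.rp 1 (.thr 4 6 (.thr 38 55 (.thr 36 39 (.thr 25 49 (.thr 12 51 (.thr 48 24 (.dbl 15 14 26))))))) .nd)))))))))))) (.rp 20 (.str 13 (.nv (.thr 25 49 (.thr 29 17 (.thr 61 45 (.dbl 1 9 41)))) (.nv (.thr 1 9 (.thr 25 49 (.thr 61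 41 (.dbl 29 17 45)))) (.rp 61 (.thr 6 4 (.thr 9 1 (.thr 12 3 (.thr 25 49 (.thr 57 41 (.thr 38 51 (.dbl 22 52 54))))))) (.rp 49 (.thr 6 4 (.thr 9 1 (.thr 12 3 (.thr 15 14 (.thr 48 26 (.thr 22 52 (.thr 36 24 (.dbl 38 39 54)))))))) (.rp 45 (.thr 6 4 (.thr 9 1 (.thr 12 3 (.thr 25 49 (.thr 38 51 (.dbl 22 52 54)))))) (.rp 41 (.thr 6 4 (.thr 9 1 (.thr 12 3 (.thr 25 49 (.thr 38 51 (.dbl 22 52 54)))))) (.rp 29 (.thr 1 9 (.thr 41 61 (.thr 33 45 (.dbl 49 17 25)))) (.rp 25 (.thr 22 52 (.thr 1 9 (.thr 41 61 (.thr 33 45 (.thr 3 60 (.thr 48 18 (.dbl 15 11 26))))))) (.rp 17 (.thr 4 6 (.thr 38 55 (.thr 36 39 (.thr 25 49 (.thr 12 51 (.thr 48 24 (.dbl 15 14 26))))))) (.rp 9 (.thr 4 6 (.thr 38 55 (.thr 36 39 (.thr 25 49 (.thr 12 51 (.thr 48 24 (.dbl 15 14 26))))))) (.rp 1 (.thr 4 6 (.thr 38 55 (.thr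 36 39 (.thr 25 49 (.thr 12 51 (.thr 48 24 (.dbl 15 14 26))))))) .nd)))))))))))) (.rp 6 (.thr 22 52 (.thr 23 20 (.thr 55 39 (.thr 4 38 (.str 3 (.nv (.thr 15 11 (.thr 26 48 (.thr 30 18 (.dbl 60 41 45)))) (.nv (.thr 60 41 (.thr 63 43 (.thr 42 0 (.dbl 62 2 61)))) (.rp 63 (.thr 15 11 (.thr 48 26 (.thr 33 18 (.dbl 41 45 60)))) (.rp 60 (.thr 15 11 (.thr 48 26 (.thr 33 18 (.thr 63 43 (.thr 41 45 (.thr 1 61 (.dbl 0 2 42))))))) (.rp 41 (.thr 15 11 (.thr 26 48 (.thr 30 18 (.thr 60 45 (.thr 63 43 (.thr 62 61 (.dbl 42 0 2))))))) (.rp 14 (.str 2 (.nv (.thr 15 11 (.thr 60 41 (.thr 30 45 (.dbl 26 18 48)))) (.nv (.thr 0 1 (.dbl 42 62 63)) (.rp 50 (.str 26 (.nv (.thr 0 1 (.dbl 42 62 63)) (.nv (.dbl 15 11 48) .nd))) (.rp 26 (.str 50 (.nv (.thr 42 62 (.thr 1 0 (.dbl 41 60 61))) (.nv (.thr 18 34 (.thr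 33 48 (.dbl 41 45 60))) (.nv (.thr 0 1 (.dbl 42 62 63)) (.rp 42 (.str 58 (.nv (.thr 60 41 (.thr 62 54 (.dbl 63 43 61))) (.nv (.thr 34 18 (.thr 0 1 (.thr 51 17 (.dbl 63 43 59)))) (.nv (.thr 1 0 (.dbl 41 60 61)) (.rp 34 (.str 46 (.nv (.thr 60 41 (.thr 62 54 (.dbl 63 43 61))) (.nv (.thr 0 1 (.thr 12 8 (.dbl 63 29 43))) (.nv (.thr 1 0 (.dbl 41 60 61)) .nd)))) .nd))))) .nd))))) .nd))))) (.rp 2 (.str 14 (.nv (.thr 41 60 (.thr 33 45 (.thr 48 18 (.dbl 15 11 26)))) (.nv (.thr 15 11 (.thr 12 13 (.thr 63 43 (.dbl 0 8 42)))) (.rp 15 (.thr 41 60 (.thr 1 61 (.thr 13 9 (.thr 49 25 (.dbl 33 17 45))))) (.rp 11 (.thr 41 60 (.thr 1 61 (.thr 33 45 (.thr 49 17 (.dbl 13 9 25))))) (.rp 0 (.thr 15 11 (.thr 48 26 (.thr 33 18 (.dbl 41 45 60)))) .nd)))))) .nd)))))))))))) (.rp 4 (.str 41 (.nv (.thr 22 52 (.thr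 3 60 (.thr 15 11 (.thr 33 45 (.dbl 48 18 26))))) (.nv (.thr 22 52 (.thr 20 23 (.thr 60 3 (.thr 0 40 (.thr 61 1 (.dbl 63 42 62)))))) (.nv (.thr 33 45 (.thr 1 61 (.thr 49 17 (.dbl 13 9 25)))) .nd)))) .nd))))))))))))

theorem w365 : WinAt (137441050656, 9007201402225664) :=
  chF (K := []) kn c365 137441050656 9007201402225664 53
    [] (by decide +kernel) (by decide +kernel)

/-- A certificate. -/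
noncomputable def c366 : Ct := (.str 4 (.nv (.thr 38 55 (.thr 36 39 (.thr 52 20 (.dbl 7 6 22)))) (.nv (.thr 7 6 (.thr 52 22 (.thr 38 55 (.dbl 36 20 39)))) (.rp 55 (.str 52 (.nv (.dbl 7 6 22) (.rp 22 (.str 13 (.nv (.thr 1 9 (.thr 25 49 (.thr 61 41 (.dbl 29 17 45)))) (.nv (.thr 25 49 (.thr 29 17 (.thr 61 45 (.dbl 1 9 41)))) (.rp 61 (.thr 36 20 (.thr 6 7 (.thr 9 1 (.thr 12 3 (.thr 15 14 (.dbl 48 24 26)))))) (.rp 49 (.thr 36 20 (.thr 6 7 (.thr 9 1 (.thr 12 3 (.thr 15 14 (.dbl 48 24 26)))))) (.rp 45 (.thr 36 20 (.thr 38 39 (.thr 9 1 (.thr 25 49 (.thr 12 51 (.dbl 6 3 7)))))) (.rp 41 (.thr 36 20 (.thr 38 39 (.thr 9 1 (.thr 25 49 (.thr 12 51 (.dbl 6 3 7)))))) (.rp 29 (.thr 1 9 (.thr 41 61 (.thr 33 45 (.dbl 49 17 25)))) (.rp 25 (.thr 36 20 (.thr 6 7 (.thr 9 1 (.thr 12 3 (.thr 15 14 (.dbl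 48 24 26)))))) (.rp 17 (.thr 36 20 (.thr 38 39 (.thr 25 49 (.thr 12 51 (.thr 15 14 (.dbl 48 24 26)))))) (.rp 9 (.thr 36 20 (.thr 38 39 (.thr 25 49 (.thr 12 51 (.thr 15 14 (.dbl 48 24 26)))))) (.rp 1 (.thr 36 20 (.thr 38 39 (.thr 25 49 (.thr 12 51 (.thr 15 14 (.dbl 48 24 26)))))) .nd)))))))))))) (.rp 7 (.thr 36 20 (.str 48 (.nv (.thr 12 24 (.thr 15 26 (.thr 60 56 (.thr 45 30 (.thr 41 33 (.thr 1 61 (.dbl 13 9 14))))))) (.nv (.thr 12 24 (.thr 0 8 (.thr 63 42 (.thr 29 46 (.thr 25 17 (.dbl 38 39 51)))))) (.nv (.thr 12 24 (.thr 15 26 (.thr 13 14 (.thr 25 49 (.dbl 38 39 51))))) (.rp 58 (.thr 56 60 (.thr 24 12 (.thr 26 15 (.thr 25 27 (.thr 13 49 (.thr 1 9 (.dbl 41 11 61))))))) (.rp 42 (.thr 56 60 (.thr 24 12 (.thr 26 15 (.thr 25 27 (.thr 13 49 (.thr 1 9 (.dbl 41 11 61))))))) (.rp 39 (.str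 23 (.nv (.thr 26 15 (.thr 31 16 (.thr 27 19 (.dbl 24 12 25)))) (.nv (.thr 12 24 (.thr 0 8 (.thr 63 42 (.thr 3 43 (.thr 1 2 (.dbl 9 6 13)))))) (.nv (.thr 24 12 (.thr 26 15 (.thr 31 16 (.dbl 27 19 25)))) (.rp 26 (.str 42 (.nv (.thr 12 24 (.dbl 0 8 63)) (.nv (.thr 0 63 (.dbl 12 8 24)) (.rp 63 (.thr 12 24 (.thr 8 0 (.thr 25 59 (.thr 51 38 (.dbl 49 13 50))))) (.rp 24 (.thr 63 0 (.thr 3 43 (.thr 33 18 (.thr 41 45 (.dbl 60 22 56))))) (.rp 12 (.thr 63 0 (.thr 3 43 (.thr 33 18 (.thr 41 45 (.dbl 60 22 56))))) (.rp 8 (.thr 63 0 (.thr 3 43 (.thr 33 18 (.thr 41 45 (.dbl 60 22 56))))) (.rp 0 (.thr 24 12 (.thr 56 60 (.thr 40 8 (.thr 41 43 (.thr 1 61 (.thr 33 45 (.thr 49 17 (.dbl 13 9 25)))))))) .nd)))))))) (.rp 25 (.thr 60 56 (.thr 15 26 (.thr 45 30 (.thr 41 33 (.thr 1 61 (.thr 13 9 (.dbl 12 14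 24))))))) (.rp 24 (.thr 60 56 (.thr 15 26 (.thr 45 30 (.thr 41 33 (.thr 61 1 (.thr 63 62 (.dbl 3 22 43))))))) (.rp 16 (.thr 60 56 (.thr 15 26 (.thr 45 30 (.thr 41 33 (.thr 1 61 (.thr 13 9 (.dbl 12 14 24))))))) (.rp 12 (.thr 60 56 (.thr 15 26 (.thr 45 30 (.thr 41 33 (.thr 61 1 (.thr 63 62 (.dbl 3 22 43))))))) (.rp 11 (.thr 12 24 (.thr 15 26 (.thr 13 14 (.thr 25 49 (.thr 29 17 (.thr 61 45 (.dbl 1 9 41))))))) (.rp 3 (.thr 60 56 (.thr 12 24 (.thr 15 26 (.thr 13 14 (.thr 45 30 (.thr 61 29 (.dbl 41 1 33))))))) .nd))))))))))) (.rp 28 (.thr 60 56 (.thr 15 26 (.thr 45 30 (.thr 41 33 (.thr 1 61 (.thr 13 9 (.dbl 12 14 24))))))) (.rp 26 (.str 42 (.nv (.thr 39 38 (.thr 12 24 (.dbl 0 8 63))) (.nv (.thr 0 63 (.dbl 12 8 24)) (.rp 63 (.thr 12 24 (.thr 8 0 (.thr 25 59 (.thr 51 38 (.dbl 49 13 50)))))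 (.rp 39 (.str 23 (.nv (.thr 12 24 (.dbl 0 8 63)) (.nv (.thr 0 63 (.dbl 12 8 24)) (.rp 63 (.thr 12 24 (.thr 8 0 (.thr 25 59 (.thr 51 38 (.dbl 49 13 50))))) (.rp 24 (.thr 63 0 (.thr 3 43 (.thr 33 18 (.thr 41 45 (.dbl 60 22 56))))) (.rp 12 (.thr 63 0 (.thr 3 43 (.thr 33 18 (.thr 41 45 (.dbl 60 22 56))))) (.rp 8 (.thr 63 0 (.thr 3 43 (.thr 33 18 (.thr 41 45 (.dbl 60 22 56))))) (.rp 0 (.thr 24 12 (.thr 56 60 (.thr 40 8 (.thr 41 43 (.thr 1 61 (.thr 33 45 (.thr 49 17 (.dbl 13 9 25)))))))) .nd)))))))) (.rp 24 (.thr 60 56 (.thr 63 0 (.thr 61 62 (.thr 41 1 (.thr 33 45 (.dbl 3 18 22)))))) (.rp 12 (.thr 60 56 (.thr 63 0 (.thr 61 62 (.thr 41 1 (.thr 33 45 (.dbl 3 18 22)))))) (.rp 8 (.thr 12 24 (.thr 63 0 (.thr 46 29 (.dbl 38 34 39)))) (.rp 0 (.thr 24 12 (.thr 56 60 (.thr 40 8 (.thr 41 43 (.thr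 33 45 (.thr 1 61 (.thr 49 17 (.dbl 13 9 25)))))))) .nd))))))))) (.rp 25 (.thr 60 56 (.thr 15 26 (.thr 45 30 (.thr 41 33 (.thr 1 61 (.thr 13 9 (.dbl 12 14 24))))))) (.rp 24 (.thr 60 56 (.thr 15 26 (.thr 45 30 (.thr 41 33 (.thr 61 1 (.thr 29 13 (.thr 63 62 (.thr 47 31 (.dbl 46 12 44))))))))) (.rp 23 (.thr 39 38 (.thr 60 56 (.thr 12 24 (.thr 15 26 (.thr 45 30 (.thr 41 33 (.thr 1 61 (.dbl 13 9 14)))))))) (.rp 16 (.thr 60 56 (.thr 12 24 (.thr 28 44 (.thr 15 26 (.thr 13 14 (.thr 25 49 (.dbl 38 39 51))))))) (.rp 12 (.thr 39 38 (.thr 60 56 (.thr 15 26 (.thr 45 30 (.thr 41 33 (.thr 1 61 (.thr 13 9 (.thr 49 25 (.dbl 51 27 50))))))))) .nd))))))))))))))) (.rp 6 (.thr 20 36 (.dbl 22 7 23)) .nd))))) (.rp 52 (.thr 55 38 (.str 13 (.nv (.thr 1 9 (.thr 61 41 (.thr 25 49 (.dbl 29 17 45)))) (.nv (.thr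 25 49 (.thr 29 17 (.thr 61 45 (.dbl 1 9 41)))) (.rp 61 (.thr 6 7 (.thr 9 1 (.thr 12 3 (.thr 15 14 (.thr 0 8 (.thr 63 42 (.thr 31 47 (.dbl 26 16 48)))))))) (.rp 49 (.thr 6 7 (.thr 9 1 (.thr 12 3 (.thr 15 14 (.thr 0 8 (.thr 63 42 (.thr 31 47 (.dbl 26 16 48)))))))) (.rp 45 (.thr 6 7 (.thr 9 1 (.thr 12 3 (.thr 25 49 (.thr 0 8 (.thr 63 42 (.dbl 29 17 46))))))) (.rp 41 (.thr 6 7 (.thr 9 1 (.thr 12 3 (.thr 25 49 (.thr 0 8 (.thr 63 42 (.dbl 29 17 46))))))) (.rp 29 (.thr 1 9 (.thr 41 61 (.thr 33 45 (.dbl 49 17 25)))) (.rp 25 (.thr 7 6 (.thr 23 39 (.thr 22 20 (.thr 1 9 (.thr 41 61 (.thr 3 60 (.thr 63 43 (.dbl 0 2 42)))))))) (.rp 17 (.thr 7 6 (.thr 23 39 (.thr 22 20 (.thr 1 9 (.thr 41 61 (.thr 3 60 (.thr 63 43 (.dbl 0 2 42)))))))) (.rp 9 (.thr 7 6 (.thr 23 39 (.thr 22 20 (.thr 25 49 (.thr 17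 29 (.thr 19 28 (.thr 16 18 (.dbl 31 26 27)))))))) (.rp 1 (.thr 7 6 (.thr 23 39 (.thr 22 20 (.thr 25 49 (.thr 17 29 (.thr 19 28 (.thr 16 18 (.dbl 31 26 27)))))))) .nd))))))))))))) (.rp 39 (.str 1 (.nv (.thr 6 7 (.thr 9 13 (.thr 3 12 (.thr 41 61 (.thr 22 60 (.dbl 38 54 55)))))) (.nv (.thr 13 9 (.thr 25 49 (.thr 61 41 (.dbl 29 17 45)))) (.rp 61 (.thr 6 7 (.thr 9 13 (.thr 3 12 (.thr 0 2 (.thr 63 42 (.thr 38 55 (.thr 23 43 (.dbl 22 20 54)))))))) (.rp 49 (.thr 6 7 (.thr 9 13 (.thr 3 12 (.thr 41 61 (.thr 57 25 (.thr 22 60 (.dbl 38 54 55))))))) (.rp 45 (.thr 7 6 (.thr 22 52 (.thr 23 20 (.thr 41 61 (.thr 3 60 (.thr 63 43 (.dbl 0 2 42))))))) (.rp 41 (.thr 38 55 (.thr 13 9 (.thr 25 49 (.thr 29 17 (.thr 12 51 (.thr 63 46 (.dbl 0 8 42))))))) (.rp 29 (.thr 13 9 (.thr 49 25 (.thr 33 17 (.dbl 41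 45 61)))) (.rp 13 (.thr 7 6 (.thr 22 52 (.thr 23 20 (.thr 41 61 (.thr 3 60 (.thr 63 43 (.dbl 0 2 42))))))) (.rp 9 (.thr 7 6 (.thr 22 52 (.thr 23 20 (.thr 41 61 (.thr 3 60 (.thr 63 43 (.dbl 0 2 42))))))) .nd)))))))))) (.rp 38 (.str 1 (.nv (.thr 13 9 (.thr 49 25 (.thr 41 61 (.dbl 33 17 45)))) (.nv (.thr 41 61 (.thr 33 45 (.thr 49 17 (.dbl 13 9 25)))) (.rp 61 (.thr 7 6 (.thr 22 52 (.thr 13 9 (.thr 49 25 (.thr 33 17 (.thr 41 45 (.thr 3 60 (.thr 48 18 (.dbl 15 11 26))))))))) (.rp 49 (.thr 6 7 (.thr 9 13 (.thr 3 12 (.thr 0 2 (.thr 63 42 (.thr 23 43 (.thr 22 20 (.dbl 41 60 61)))))))) (.rp 45 (.thr 7 6 (.thr 22 52 (.thr 23 20 (.thr 41 61 (.thr 3 60 (.thr 63 43 (.dbl 0 2 42))))))) (.rp 41 (.thr 7 6 (.thr 22 52 (.thr 20 23 (.thr 13 9 (.thr 25 49 (.thr 29 17 (.thr 28 19 (.thr 31 30 (.dbl 16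 24 26))))))))) (.rp 33 (.thr 13 9 (.thr 25 49 (.thr 29 17 (.dbl 61 41 45)))) (.rp 25 (.thr 7 6 (.thr 22 52 (.thr 23 20 (.thr 41 61 (.thr 3 60 (.thr 63 43 (.dbl 0 2 42))))))) (.rp 17 (.thr 7 6 (.thr 22 52 (.thr 23 20 (.thr 41 61 (.thr 3 60 (.thr 63 43 (.dbl 0 2 42))))))) (.rp 13 (.thr 7 6 (.thr 22 52 (.thr 23 20 (.thr 41 61 (.thr 3 60 (.thr 63 43 (.dbl 0 2 42))))))) (.rp 9 (.thr 7 6 (.thr 22 52 (.thr 23 20 (.thr 41 61 (.thr 3 60 (.thr 63 43 (.dbl 0 2 42))))))) .nd)))))))))))) (.rp 36 (.thr 7 6 (.thr 22 52 (.thr 23 20 (.dbl 55 38 39)))) (.rp 22 (.str 13 (.nv (.thr 6 7 (.thr 9 1 (.thr 12 3 (.thr 38 55 (.dbl 25 49 51))))) (.nv (.thr 25 49 (.thr 29 17 (.thr 61 45 (.dbl 1 9 41)))) (.rp 49 (.thr 38 55 (.thr 39 36 (.thr 6 7 (.thr 9 1 (.thr 12 3 (.thr 15 14 (.dbl 51 25 27))))))) (.rp 41 (.thr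 38 55 (.thr 6 7 (.thr 9 1 (.thr 25 49 (.dbl 12 3 51))))) (.rp 25 (.thr 38 55 (.thr 6 7 (.thr 9 1 (.thr 12 3 (.thr 15 14 (.thr 48 26 (.dbl 36 24 39))))))) (.rp 9 (.thr 38 55 (.thr 36 39 (.thr 25 49 (.thr 12 51 (.thr 15 14 (.dbl 48 24 26)))))) (.rp 1 (.thr 38 55 (.thr 36 39 (.thr 25 49 (.thr 12 51 (.thr 15 14 (.dbl 48 24 26)))))) .nd)))))))) (.rp 20 (.str 1 (.nv (.thr 6 7 (.thr 9 13 (.thr 3 12 (.thr 38 55 (.thr 41 61 (.dbl 22 54 60)))))) (.nv (.thr 6 7 (.thr 9 13 (.thr 12 3 (.thr 38 55 (.thr 25 51 (.dbl 41 57 61)))))) (.nv (.thr 13 9 (.thr 25 49 (.thr 61 41 (.dbl 29 17 45)))) (.rp 61 (.thr 6 7 (.thr 38 55 (.thr 9 13 (.thr 12 3 (.thr 51 25 (.thr 0 8 (.thr 34 17 (.dbl 42 46 63)))))))) (.rp 41 (.thr 38 55 (.thr 36 39 (.thr 13 9 (.thr 25 49 (.thr 12 51 (.thr 15 14 (.dbl 48 24 26)))))))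 (.rp 13 (.thr 7 6 (.thr 22 52 (.thr 41 61 (.thr 3 60 (.thr 15 11 (.thr 48 26 (.dbl 33 18 45))))))) (.rp 9 (.thr 7 6 (.thr 22 52 (.thr 41 61 (.thr 33 45 (.thr 3 60 (.thr 48 18 (.dbl 15 11 26))))))) .nd)))))))) (.rp 7 (.str 25 (.nv (.thr 29 17 (.thr 38 55 (.thr 12 51 (.thr 0 8 (.dbl 63 42 46))))) (.nv (.thr 38 55 (.thr 39 36 (.thr 49 13 (.thr 51 12 (.thr 15 27 (.dbl 48 26 50)))))) (.nv (.thr 29 17 (.thr 13 49 (.thr 61 45 (.dbl 1 9 41)))) .nd)))) (.rp 6 (.thr 38 55 (.thr 36 39 (.thr 52 20 (.thr 7 22 (.str 12 (.nv (.thr 0 8 (.thr 25 51 (.thr 29 17 (.dbl 63 42 46)))) (.nv (.thr 48 24 (.thr 26 15 (.thr 51 25 (.dbl 50 14 49)))) (.rp 51 (.thr 0 8 (.thr 63 42 (.thr 29 46 (.thr 48 24 (.thr 25 17 (.thr 13 49 (.dbl 15 14 26))))))) (.rp 25 (.thr 0 8 (.thr 42 63 (.thr 34 46 (.thr 51 17 (.thr 48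 24 (.thr 50 49 (.dbl 26 14 15))))))) (.rp 15 (.thr 0 8 (.thr 63 42 (.thr 29 46 (.dbl 25 17 51)))) (.rp 14 (.str 2 (.nv (.thr 25 51 (.thr 29 17 (.thr 63 46 (.dbl 0 8 42)))) (.nv (.thr 0 8 (.thr 3 1 (.thr 48 24 (.dbl 15 11 26)))) (.rp 15 (.thr 0 8 (.thr 63 42 (.thr 29 46 (.dbl 25 17 51)))) (.rp 8 (.thr 25 51 (.thr 13 49 (.thr 29 17 (.thr 61 45 (.dbl 1 9 41))))) (.rp 0 (.thr 25 51 (.thr 13 49 (.thr 1 9 (.thr 61 41 (.dbl 29 17 45))))) .nd)))))) (.rp 2 (.str 14 (.nv (.thr 0 8 (.thr 51 25 (.thr 34 17 (.dbl 42 46 63)))) (.nv (.thr 15 13 (.dbl 26 48 50)) (.rp 62 (.str 42 (.nv (.thr 13 15 (.dbl 25 49 51)) (.nv (.dbl 0 8 63) .nd))) (.rp 42 (.str 62 (.nv (.thr 26 50 (.thr 13 15 (.dbl 25 49 51))) (.nv (.thr 46 30 (.thr 29 63 (.dbl 25 17 51))) (.nv (.thr 15 13 (.dbl 26 48 50)) (.rp 26 (.str 58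 (.nv (.thr 48 24 (.thr 50 54 (.dbl 51 25 49))) (.nv (.thr 30 46 (.thr 15 13 (.thr 60 45 (.dbl 48 24 56)))) (.nv (.thr 13 15 (.dbl 25 49 51)) (.rp 30 (.str 18 (.nv (.thr 48 24 (.thr 50 54 (.dbl 51 25 49))) (.nv (.thr 15 13 (.thr 3 11 (.dbl 48 24 33))) (.nv (.thr 13 15 (.dbl 25 49 51)) .nd)))) .nd))))) .nd))))) .nd))))) .nd)))))))))))) .nd))))))))))))

theorem w366 : WinAt (137441050656, 9007203549709312) :=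
  chF (K := []) kn c366 137441050656 9007203549709312 53
    [] (by decide +kernel) (by decide +kernel)

/-- A certificate. -/
noncomputable def c367 : Ct := (.str 4 (.nv (.thr 38 55 (.thr 36 39 (.thr 52 20 (.dbl 7 6 22)))) (.nv (.thr 7 6 (.thr 52 22 (.thr 38 55 (.dbl 36 20 39)))) (.rp 55 (.str 52 (.nv (.dbl 7 6 22) (.rp 22 (.str 0 (.nv (.thr 12 8 (.thr 36 20 (.thr 38 39 (.thr 25 51 (.thr 29 17 (.dbl 63 42 46)))))) (.nv (.thr 6 7 (.thr 12 8 (.thr 9 3 (.thr 13 1 (.thr 25 49 (.thr 17 29 (.dbl 51 34 38))))))) (.nv (.thr 20 36 (.thr 60 40 (.thr 48 56 (.thr 32 16 (.dbl 42 47 63))))) (.rp 8 (.thr 20 36 (.thr 60 40 (.thr 42 63 (.thr 32 47 (.dbl 48 16 56))))) .nd))))) (.rp 7 (.thr 20 36 (.thr 23 22 (.str 0 (.nv (.thr 60 40 (.thr 48 56 (.thr 26 15 (.dbl 16 31 32)))) (.nv (.thr 12 8 (.thr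 63 42 (.thr 3 43 (.thr 9 6 (.dbl 1 2 13))))) (.nv (.thr 60 40 (.thr 48 56 (.thr 32 16 (.dbl 42 47 63)))) (.rp 40 (.thr 12 8 (.thr 42 63 (.thr 32 47 (.thr 48 16 (.thr 15 26 (.thr 13 14 (.thr 25 49 (.thr 17 29 (.dbl 51 34 38))))))))) (.rp 8 (.thr 60 40 (.thr 42 63 (.thr 32 47 (.dbl 48 16 56)))) .nd)))))))) (.rp 6 (.thr 20 36 (.dbl 22 7 23)) .nd))))) (.rp 52 (.thr 55 38 (.str 15 (.nv (.thr 7 6 (.thr 3 11 (.thr 23 39 (.thr 63 43 (.thr 42 0 (.dbl 47 31 32)))))) (.nv (.thr 6 7 (.thr 26 48 (.thr 31 16 (.thr 63 47 (.thr 0 42 (.thr 12 8 (.thr 13 14 (.dbl 9 1 3)))))))) (.nv (.thr 7 6 (.thr 3 11 (.thr 23 39 (.thr 22 20 (.thr 60 41 (.thr 30 45 (.dbl 26 18 48))))))) (.nv (.thr 7 6 (.thr 39 23 (.thr 51 27 (.thr 63 59 (.thr 31 47 (.dbl 26 16 48)))))) (.rp 14 (.thr 26 48 (.thr 31 16 (.thr 63 47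 (.thr 51 59 (.thr 39 27 (.dbl 7 6 23)))))) (.rp 11 (.thr 7 6 (.thr 39 23 (.thr 51 27 (.thr 26 48 (.thr 31 16 (.dbl 63 47 59)))))) (.rp 7 (.thr 26 48 (.thr 31 16 (.thr 63 47 (.thr 51 59 (.thr 27 39 (.thr 0 42 (.thr 25 24 (.dbl 17 29 34)))))))) (.rp 6 (.thr 26 48 (.thr 31 16 (.thr 63 47 (.thr 51 59 (.thr 27 39 (.thr 0 42 (.thr 25 24 (.dbl 17 29 34)))))))) .nd)))))))))) (.rp 39 (.str 1 (.nv (.thr 6 7 (.thr 9 13 (.thr 3 12 (.thr 41 61 (.thr 22 60 (.dbl 38 54 55)))))) (.nv (.thr 13 9 (.thr 61 41 (.thr 25 49 (.dbl 29 17 45)))) (.rp 61 (.thr 6 7 (.thr 9 13 (.thr 3 12 (.thr 0 2 (.thr 63 42 (.thr 38 55 (.thr 23 43 (.dbl 22 20 54)))))))) (.rp 49 (.thr 6 7 (.thr 9 13 (.thr 3 12 (.thr 41 61 (.thr 57 25 (.thr 22 60 (.dbl 38 54 55))))))) (.rp 45 (.thr 7 6 (.thr 22 52 (.thr 23 20 (.thr 41 61 (.thr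 3 60 (.thr 63 43 (.dbl 0 2 42))))))) (.rp 41 (.thr 38 55 (.thr 13 9 (.thr 25 49 (.thr 29 17 (.thr 12 51 (.thr 63 46 (.dbl 0 8 42))))))) (.rp 29 (.thr 7 6 (.thr 22 52 (.thr 23 20 (.thr 41 61 (.thr 3 60 (.thr 63 43 (.dbl 0 2 42))))))) (.rp 13 (.thr 7 6 (.thr 22 52 (.thr 23 20 (.thr 41 61 (.thr 3 60 (.thr 63 43 (.dbl 0 2 42))))))) (.rp 9 (.thr 7 6 (.thr 22 52 (.thr 23 20 (.thr 41 61 (.thr 3 60 (.thr 63 43 (.dbl 0 2 42))))))) .nd)))))))))) (.rp 38 (.str 1 (.nv (.thr 13 9 (.thr 25 49 (.thr 29 17 (.dbl 61 41 45)))) (.rp 61 (.thr 6 7 (.thr 9 13 (.thr 12 3 (.thr 0 8 (.thr 42 63 (.thr 32 47 (.thr 48 16 (.thr 36 24 (.thr 20 52 (.dbl 40 44 60)))))))))) (.rp 57 (.thr 13 9 (.thr 25 49 (.thr 61 41 (.dbl 29 17 45)))) (.rp 49 (.thr 6 7 (.thr 9 13 (.thr 3 12 (.thr 0 2 (.thr 63 42 (.thr 23 43 (.thr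 22 20 (.dbl 41 60 61)))))))) (.rp 45 (.thr 7 6 (.thr 22 52 (.thr 23 20 (.thr 41 61 (.thr 3 60 (.thr 63 43 (.dbl 0 2 42))))))) (.rp 41 (.thr 7 6 (.thr 22 52 (.thr 20 23 (.thr 13 9 (.thr 25 49 (.thr 29 17 (.thr 28 19 (.thr 31 30 (.dbl 16 24 26))))))))) (.rp 29 (.thr 7 6 (.thr 22 52 (.thr 23 20 (.thr 41 61 (.thr 3 60 (.thr 63 43 (.dbl 0 2 42))))))) (.rp 25 (.thr 7 6 (.thr 22 52 (.thr 23 20 (.thr 41 61 (.thr 3 60 (.thr 63 43 (.dbl 0 2 42))))))) (.rp 17 (.thr 7 6 (.thr 22 52 (.thr 23 20 (.thr 41 61 (.thr 3 60 (.thr 63 43 (.dbl 0 2 42))))))) (.rp 13 (.thr 7 6 (.thr 22 52 (.thr 23 20 (.thr 41 61 (.thr 3 60 (.thr 63 43 (.dbl 0 2 42))))))) (.rp 11 (.thr 7 6 (.thr 22 52 (.thr 23 20 (.thr 41 61 (.thr 3 60 (.thr 63 43 (.dbl 0 2 42))))))) (.rp 9 (.thr 7 6 (.thr 22 52 (.thr 23 20 (.thr 41 61 (.thr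 3 60 (.thr 63 43 (.dbl 0 2 42))))))) (.rp 8 (.thr 7 6 (.thr 22 52 (.thr 23 20 (.thr 41 61 (.thr 3 60 (.thr 63 43 (.dbl 0 2 42))))))) .nd)))))))))))))) (.rp 36 (.thr 7 6 (.thr 22 52 (.thr 23 20 (.dbl 55 38 39)))) (.rp 22 (.str 0 (.nv (.thr 38 55 (.thr 42 63 (.thr 34 46 (.thr 51 17 (.dbl 12 8 25))))) (.nv (.thr 6 7 (.thr 12 8 (.thr 9 3 (.thr 13 1 (.thr 25 49 (.thr 17 29 (.dbl 51 34 38))))))) (.nv (.thr 12 8 (.thr 38 55 (.thr 36 39 (.thr 48 24 (.thr 16 32 (.dbl 26 15 31)))))) (.nv (.thr 12 8 (.thr 38 55 (.thr 25 51 (.thr 29 17 (.dbl 63 42 46))))) (.rp 38 (.thr 12 8 (.thr 42 63 (.thr 32 47 (.thr 48 16 (.thr 36 24 (.thr 20 52 (.dbl 40 44 60))))))) (.rp 12 (.thr 38 55 (.thr 36 39 (.thr 42 63 (.thr 32 47 (.thr 40 44 (.dbl 20 52 60)))))) (.rp 8 (.thr 38 55 (.thr 36 39 (.thr 42 63 (.thr 32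 47 (.thr 40 44 (.dbl 20 52 60)))))) .nd)))))))) (.rp 20 (.str 1 (.nv (.thr 6 7 (.thr 9 13 (.thr 3 12 (.thr 38 55 (.thr 41 61 (.dbl 22 54 60)))))) (.nv (.thr 6 7 (.thr 9 13 (.thr 12 3 (.thr 38 55 (.thr 25 51 (.dbl 41 57 61)))))) (.nv (.thr 13 9 (.thr 61 41 (.thr 25 49 (.dbl 29 17 45)))) (.rp 61 (.thr 9 13 (.thr 6 7 (.thr 12 3 (.thr 0 8 (.thr 38 55 (.thr 25 51 (.thr 29 17 (.dbl 63 42 46)))))))) (.rp 41 (.thr 13 9 (.thr 25 49 (.thr 29 17 (.thr 38 55 (.thr 12 51 (.thr 63 46 (.dbl 0 8 42))))))) (.rp 13 (.thr 41 61 (.thr 7 6 (.thr 22 52 (.thr 3 60 (.thr 55 38 (.thr 23 39 (.thr 63 43 (.dbl 0 2 42)))))))) (.rp 9 (.thr 41 61 (.thr 7 6 (.thr 22 52 (.thr 3 60 (.thr 55 38 (.thr 23 39 (.thr 63 43 (.dbl 0 2 42)))))))) .nd)))))))) (.rp 7 (.str 12 (.nv (.thr 0 8 (.thr 63 42 (.thr 29 46 (.thr 25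 17 (.dbl 38 51 55))))) (.nv (.thr 0 8 (.thr 42 63 (.thr 32 47 (.thr 48 16 (.thr 36 24 (.thr 40 44 (.dbl 20 52 60))))))) (.nv (.thr 38 55 (.thr 39 36 (.thr 51 25 (.thr 15 27 (.thr 14 13 (.dbl 26 48 50)))))) .nd)))) (.rp 6 (.thr 38 55 (.thr 36 39 (.thr 52 20 (.thr 7 22 (.str 12 (.nv (.thr 0 8 (.thr 48 24 (.thr 16 32 (.dbl 26 15 31)))) (.nv (.thr 0 8 (.thr 63 42 (.thr 29 46 (.dbl 25 17 51)))) (.nv (.thr 48 24 (.thr 26 15 (.thr 51 25 (.dbl 50 14 49)))) (.rp 26 (.thr 0 8 (.thr 42 63 (.thr 34 46 (.dbl 51 17 25)))) (.rp 14 (.str 2 (.nv (.thr 0 8 (.thr 1 3 (.thr 9 13 (.thr 41 61 (.dbl 25 51 57))))) (.nv (.thr 48 24 (.thr 26 15 (.thr 16 31 (.dbl 0 8 32)))) (.rp 51 (.thr 0 8 (.thr 3 1 (.thr 48 24 (.dbl 15 11 26)))) (.rp 48 (.thr 0 8 (.thr 63 42 (.thr 29 46 (.dbl 25 17 51)))) (.rp 8 (.thr 48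 24 (.thr 51 25 (.thr 50 49 (.thr 34 18 (.thr 42 46 (.dbl 0 17 63)))))) (.rp 0 (.thr 25 51 (.thr 13 49 (.thr 1 9 (.thr 61 41 (.dbl 29 17 45))))) .nd))))))) (.rp 2 (.str 14 (.nv (.thr 0 8 (.thr 51 25 (.thr 34 17 (.dbl 42 46 63)))) (.nv (.thr 15 13 (.dbl 26 48 50)) (.rp 62 (.str 42 (.nv (.thr 13 15 (.dbl 25 49 51)) (.nv (.dbl 0 8 63) .nd))) (.rp 42 (.str 62 (.nv (.thr 26 50 (.thr 13 15 (.dbl 25 49 51))) (.nv (.thr 46 30 (.thr 29 63 (.dbl 25 17 51))) (.nv (.thr 15 13 (.dbl 26 48 50)) (.rp 26 (.str 58 (.nv (.thr 48 24 (.thr 50 54 (.dbl 51 25 49))) (.nv (.thr 30 46 (.thr 15 13 (.thr 60 45 (.dbl 48 24 56)))) (.nv (.thr 13 15 (.dbl 25 49 51)) (.rp 30 (.str 18 (.nv (.thr 48 24 (.thr 54 50 (.thr 60 56 (.dbl 51 25 57)))) (.nv (.thr 13 15 (.dbl 25 49 51)) (.rp 60 (.thr 25 51 (.dbl 13 15 49))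 (.rp 51 (.thr 48 24 (.thr 60 56 (.thr 63 61 (.thr 29 46 (.thr 25 17 (.dbl 13 15 49)))))) (.rp 27 (.thr 15 13 (.thr 48 24 (.thr 25 51 (.thr 60 56 (.thr 63 61 (.dbl 29 17 46)))))) (.rp 25 (.thr 13 15 (.thr 24 48 (.thr 8 0 (.thr 40 56 (.thr 1 9 (.thr 41 61 (.dbl 44 32 35))))))) .nd))))))) .nd))))) .nd))))) .nd))))) .nd))))))))))) .nd))))))))))))

theorem w367 : WinAt (137441050656, 9007207844676608) :=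
  chF (K := []) kn c367 137441050656 9007207844676608 53
    [] (by decide +kernel) (by decide +kernel)

/-- A certificate. -/
noncomputable def c368 : Ct := (.str 4 (.nv (.thr 38 55 (.thr 36 39 (.thr 52 20 (.dbl 7 6 22)))) (.nv (.thr 7 6 (.thr 52 22 (.thr 38 55 (.dbl 36 20 39)))) (.rp 55 (.str 52 (.nv (.dbl 7 6 22) (.rp 22 (.str 1 (.nv (.thr 41 61 (.thr 33 45 (.thr 49 17 (.dbl 13 9 25)))) (.nv (.thr 13 9 (.thr 25 49 (.thr 61 41 (.dbl 29 17 45)))) (.nv (.thr 13 9 (.thr 41 61 (.thr 33 45 (.dbl 49 17 25)))) (.rp 61 (.thr 36 20 (.thr 6 7 (.thr 9 13 (.thr 12 3 (.thr 48 24 (.thr 0 8 (.thr 16 32 (.dbl 26 15 31)))))))) (.rp 49 (.thr 20 36 (.thr 6 7 (.thr 9 13 (.thr 3 12 (.thr 0 2 (.thr 61 41 (.thr 60 40 (.dbl 63 42 62)))))))) (.rp 45 (.thr 36 20 (.thr 38 39 (.thr 13 9 (.thr 25 49 (.thr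 12 51 (.thr 15 14 (.dbl 48 24 26))))))) (.rp 41 (.thr 36 20 (.thr 38 39 (.thr 13 9 (.thr 25 49 (.thr 12 51 (.thr 15 14 (.dbl 48 24 26))))))) (.rp 25 (.thr 36 20 (.thr 38 39 (.thr 41 61 (.thr 45 33 (.thr 44 35 (.thr 32 40 (.dbl 47 42 46))))))) (.rp 17 (.thr 36 20 (.thr 38 39 (.thr 41 61 (.thr 45 33 (.thr 44 35 (.thr 32 40 (.dbl 47 42 46))))))) (.rp 13 (.thr 36 20 (.thr 38 39 (.thr 41 61 (.thr 45 33 (.thr 44 35 (.thr 32 40 (.dbl 47 42 46))))))) (.rp 9 (.thr 36 20 (.thr 38 39 (.thr 41 61 (.thr 45 33 (.thr 44 35 (.thr 32 40 (.dbl 47 42 46))))))) .nd)))))))))))) (.rp 7 (.thr 20 36 (.thr 23 22 (.str 0 (.nv (.thr 60 40 (.thr 48 56 (.thr 26 15 (.dbl 16 31 32)))) (.nv (.thr 12 8 (.thr 63 42 (.thr 3 43 (.thr 9 6 (.dbl 1 2 13))))) (.nv (.thr 60 40 (.thr 48 56 (.thr 32 16 (.dbl 42 47 63))))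 (.rp 40 (.thr 12 8 (.thr 42 63 (.thr 32 47 (.thr 48 16 (.thr 15 26 (.thr 13 14 (.thr 25 49 (.thr 29 17 (.thr 61 45 (.dbl 1 9 41)))))))))) (.rp 8 (.thr 60 40 (.thr 42 63 (.thr 32 47 (.dbl 48 16 56)))) .nd)))))))) (.rp 6 (.thr 20 36 (.dbl 22 7 23)) .nd))))) (.rp 52 (.thr 6 7 (.thr 38 55 (.thr 54 22 (.thr 39 36 (.str 13 (.nv (.thr 1 9 (.thr 41 61 (.thr 33 45 (.dbl 49 17 25)))) (.nv (.thr 9 1 (.thr 12 3 (.thr 15 14 (.dbl 51 25 27)))) (.nv (.thr 9 1 (.thr 25 49 (.dbl 12 3 51))) (.rp 25 (.thr 9 1 (.thr 12 3 (.thr 15 14 (.thr 0 8 (.thr 42 63 (.thr 32 47 (.dbl 48 16 26))))))) (.rp 9 (.thr 25 49 (.thr 29 17 (.thr 61 45 (.thr 51 12 (.thr 60 57 (.thr 63 62 (.thr 15 27 (.thr 47 31 (.dbl 42 0 32))))))))) (.rp 1 (.thr 25 49 (.thr 12 51 (.thr 0 8 (.thr 63 42 (.dbl 29 17 46))))) .nd))))))))))) (.rp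 39 (.str 1 (.nv (.thr 6 7 (.thr 9 13 (.thr 3 12 (.thr 41 61 (.thr 22 60 (.dbl 38 54 55)))))) (.nv (.thr 13 9 (.thr 25 49 (.thr 61 41 (.dbl 29 17 45)))) (.rp 61 (.thr 6 7 (.thr 9 13 (.thr 3 12 (.thr 0 2 (.thr 63 42 (.thr 38 55 (.thr 23 43 (.dbl 22 20 54)))))))) (.rp 49 (.thr 6 7 (.thr 9 13 (.thr 3 12 (.thr 41 61 (.thr 57 25 (.thr 22 60 (.dbl 38 54 55))))))) (.rp 45 (.thr 7 6 (.thr 22 52 (.thr 23 20 (.thr 41 61 (.thr 3 60 (.thr 63 43 (.dbl 0 2 42))))))) (.rp 41 (.thr 7 6 (.thr 52 22 (.thr 36 20 (.thr 38 55 (.thr 13 9 (.thr 25 49 (.thr 12 51 (.thr 48 24 (.dbl 15 14 26))))))))) (.rp 29 (.thr 13 9 (.thr 49 25 (.thr 33 17 (.dbl 41 45 61)))) (.rp 13 (.thr 7 6 (.thr 22 52 (.thr 23 20 (.thr 41 61 (.thr 3 60 (.thr 63 43 (.dbl 0 2 42))))))) (.rp 9 (.thr 7 6 (.thr 22 52 (.thr 23 20 (.thr 41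 61 (.thr 3 60 (.thr 63 43 (.dbl 0 2 42))))))) .nd)))))))))) (.rp 38 (.str 1 (.nv (.thr 41 61 (.thr 33 45 (.thr 49 17 (.dbl 13 9 25)))) (.nv (.thr 13 9 (.thr 25 49 (.thr 61 41 (.dbl 29 17 45)))) (.nv (.thr 13 9 (.thr 41 61 (.thr 33 45 (.dbl 49 17 25)))) (.rp 61 (.thr 7 6 (.thr 22 52 (.thr 13 9 (.thr 49 25 (.thr 33 17 (.thr 41 45 (.thr 3 60 (.thr 48 18 (.dbl 15 11 26))))))))) (.rp 49 (.thr 7 6 (.thr 22 52 (.thr 23 20 (.thr 9 13 (.thr 41 61 (.thr 57 25 (.thr 3 60 (.thr 63 43 (.dbl 0 2 42))))))))) (.rp 46 (.str 42 (.nv (.thr 0 63 (.thr 2 3 (.thr 22 62 (.dbl 7 6 52)))) (.nv (.thr 13 9 (.thr 25 49 (.thr 61 41 (.dbl 29 17 45)))) (.nv (.thr 0 63 (.thr 12 8 (.thr 9 13 (.dbl 3 2 6)))) .nd)))) (.rp 45 (.thr 7 6 (.thr 22 52 (.thr 23 20 (.thr 41 61 (.thr 3 60 (.thr 63 43 (.dbl 0 2 42))))))) (.rp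 42 (.str 46 (.nv (.thr 6 7 (.thr 9 13 (.thr 12 3 (.thr 29 63 (.thr 25 17 (.dbl 41 57 61)))))) (.nv (.thr 13 9 (.thr 41 61 (.thr 33 45 (.dbl 49 17 25)))) (.rp 61 (.thr 7 6 (.thr 22 52 (.thr 13 9 (.thr 49 25 (.thr 33 17 (.thr 41 45 (.thr 3 60 (.thr 48 18 (.dbl 15 11 26))))))))) (.rp 58 (.str 26 (.nv (.thr 13 9 (.thr 25 49 (.thr 29 17 (.dbl 61 41 45)))) (.nv (.thr 7 6 (.thr 41 61 (.thr 11 56 (.dbl 15 3 48)))) (.nv (.thr 31 16 (.thr 15 48 (.thr 63 47 (.thr 12 29 (.dbl 13 9 14))))) (.rp 63 (.thr 48 15 (.thr 13 9 (.thr 61 41 (.thr 29 45 (.dbl 25 17 49))))) (.rp 48 (.str 63 (.nv (.thr 31 16 (.thr 41 61 (.thr 47 15 (.dbl 45 33 44)))) (.nv (.thr 12 29 (.thr 6 7 (.dbl 9 3 13))) .nd))) .nd)))))) (.rp 57 (.thr 61 41 (.thr 13 9 (.thr 25 49 (.dbl 29 17 45)))) (.rp 41 (.thr 7 6 (.thr 22 52 (.thr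 23 20 (.thr 13 9 (.thr 25 49 (.thr 19 28 (.thr 31 27 (.thr 17 29 (.dbl 16 18 26))))))))) (.rp 26 (.str 58 (.nv (.thr 6 7 (.thr 9 13 (.thr 12 3 (.thr 29 63 (.thr 25 17 (.dbl 41 57 61)))))) (.nv (.thr 13 9 (.thr 41 61 (.thr 33 45 (.dbl 49 17 25)))) (.rp 61 (.thr 13 9 (.thr 49 25 (.thr 33 17 (.thr 41 45 (.thr 7 6 (.thr 22 52 (.thr 23 20 (.thr 3 60 (.thr 63 43 (.thr 12 29 (.dbl 0 2 8))))))))))) (.rp 57 (.thr 61 41 (.thr 13 9 (.thr 25 49 (.dbl 29 17 45)))) (.rp 50 (.str 14 (.nv (.thr 13 9 (.thr 12 15 (.thr 29 63 (.dbl 25 17 49)))) (.nv (.thr 6 7 (.thr 9 13 (.thr 12 3 (.thr 61 41 (.thr 62 30 (.dbl 63 29 60)))))) (.nv (.thr 13 9 (.thr 41 61 (.thr 33 45 (.dbl 49 17 25)))) (.rp 18 (.str 2 (.nv (.thr 3 0 (.thr 7 6 (.thr 22 52 (.dbl 41 60 61)))) (.nv (.thr 13 9 (.thr 25 49 (.thr 61 41 (.dbl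 29 17 45)))) (.nv (.thr 6 7 (.thr 9 13 (.dbl 3 0 12))) (.rp 30 (.str 22 (.nv (.thr 3 0 (.dbl 41 60 61)) (.nv (.dbl 7 6 52) .nd))) (.rp 22 (.thr 30 62 (.thr 13 9 (.thr 12 15 (.dbl 0 3 8)))) .nd)))))) (.rp 13 (.thr 41 61 (.thr 45 33 (.thr 30 62 (.thr 60 15 (.thr 7 6 (.dbl 22 3 52)))))) (.rp 11 (.thr 41 61 (.thr 33 45 (.thr 49 17 (.dbl 13 9 25)))) (.rp 9 (.thr 61 41 (.thr 62 30 (.thr 63 60 (.thr 29 12 (.thr 25 17 (.dbl 13 45 49)))))) (.rp 2 (.str 18 (.nv (.thr 13 9 (.thr 12 15 (.thr 29 63 (.dbl 25 17 49)))) (.nv (.thr 7 6 (.thr 22 52 (.thr 41 61 (.thr 3 60 (.dbl 33 45 48))))) (.nv (.thr 6 7 (.thr 9 13 (.thr 12 3 (.thr 61 41 (.thr 62 30 (.dbl 63 29 60)))))) (.nv (.thr 13 9 (.thr 41 61 (.thr 33 45 (.dbl 49 17 25)))) (.rp 62 (.str 22 (.nv (.thr 41 61 (.thr 33 45 (.dbl 3 48 60))) (.nv (.dbl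 7 6 52) .nd))) (.rp 22 (.thr 62 30 (.thr 13 9 (.thr 41 61 (.thr 33 45 (.dbl 49 17 25))))) .nd))))))) .nd))))))))) (.rp 41 (.thr 13 9 (.thr 25 49 (.thr 29 17 (.thr 12 63 (.thr 14 15 (.thr 30 62 (.thr 7 6 (.thr 22 52 (.dbl 28 19 31))))))))) (.rp 25 (.thr 41 61 (.thr 7 6 (.thr 22 52 (.thr 23 20 (.thr 3 60 (.thr 63 43 (.thr 12 29 (.dbl 0 2 8)))))))) (.rp 17 (.thr 41 61 (.thr 7 6 (.thr 22 52 (.thr 23 20 (.thr 3 60 (.thr 63 43 (.thr 12 29 (.dbl 0 2 8)))))))) (.rp 14 (.str 50 (.nv (.thr 6 7 (.thr 9 13 (.thr 12 3 (.thr 61 41 (.thr 62 54 (.dbl 63 29 60)))))) (.nv (.thr 41 61 (.thr 33 45 (.thr 13 9 (.dbl 49 17 25)))) (.rp 61 (.thr 13 9 (.thr 49 25 (.thr 33 17 (.thr 41 45 (.thr 54 62 (.thr 51 48 (.thr 60 57 (.thr 22 3 (.dbl 7 6 52))))))))) (.rp 41 (.thr 13 9 (.thr 25 49 (.thr 29 17 (.thr 61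 45 (.thr 62 54 (.dbl 63 12 60)))))) (.rp 13 (.thr 61 41 (.thr 62 54 (.thr 63 60 (.thr 12 29 (.thr 0 8 (.thr 6 7 (.dbl 3 2 9))))))) (.rp 11 (.thr 41 61 (.thr 33 45 (.thr 49 17 (.dbl 13 9 25)))) (.rp 9 (.thr 61 41 (.thr 62 54 (.thr 63 60 (.thr 29 12 (.thr 25 17 (.dbl 13 45 49)))))) (.rp 6 (.str 2 (.nv (.thr 54 62 (.thr 13 9 (.thr 25 49 (.thr 61 41 (.dbl 29 17 45))))) (.nv (.thr 0 3 (.thr 12 8 (.thr 29 63 (.thr 25 17 (.dbl 13 9 49))))) (.nv (.thr 3 0 (.thr 41 61 (.thr 22 60 (.thr 20 23 (.dbl 52 7 36))))) (.nv (.thr 0 3 (.thr 12 8 (.thr 61 41 (.thr 63 29 (.dbl 62 54 60))))) (.nv (.thr 41 61 (.thr 33 45 (.thr 49 17 (.dbl 13 9 25)))) (.rp 54 (.str 22 (.nv (.thr 3 0 (.dbl 41 60 61)) (.nv (.thr 52 7 (.dbl 20 23 36)) (.rp 52 (.str 55 (.nv (.thr 13 9 (.thr 25 49 (.thr 61 41 (.dbl 29 17 45))))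 (.nv (.thr 3 0 (.dbl 41 60 61)) (.rp 61 (.thr 3 0 (.thr 41 60 (.thr 33 45 (.thr 48 18 (.dbl 49 17 51))))) (.rp 41 (.thr 0 3 (.thr 12 8 (.thr 29 63 (.thr 25 17 (.dbl 13 9 49))))) (.rp 17 (.thr 41 61 (.dbl 3 0 60)) (.rp 3 (.thr 41 61 (.thr 33 45 (.thr 49 17 (.dbl 13 9 25)))) .nd))))))) .nd)))) .nd))))))) .nd))))))))) (.rp 13 (.thr 41 61 (.thr 45 33 (.thr 44 47 (.thr 7 6 (.thr 22 52 (.thr 20 23 (.thr 60 3 (.thr 12 28 (.dbl 0 8 40))))))))) (.rp 11 (.thr 41 61 (.thr 33 45 (.thr 49 17 (.dbl 13 9 25)))) (.rp 9 (.thr 41 61 (.thr 7 6 (.thr 22 52 (.thr 23 20 (.thr 3 60 (.thr 63 43 (.thr 12 29 (.dbl 0 2 8)))))))) .nd))))))))))))) (.rp 25 (.thr 7 6 (.thr 22 52 (.thr 41 61 (.thr 33 45 (.thr 3 60 (.thr 48 18 (.dbl 15 11 26))))))) (.rp 17 (.thr 7 6 (.thr 22 52 (.thr 41 61 (.thr 33 45 (.thr 3 60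 (.thr 48 18 (.dbl 15 11 26))))))) (.rp 13 (.thr 7 6 (.thr 22 52 (.thr 23 20 (.thr 41 61 (.thr 45 33 (.thr 47 44 (.thr 3 60 (.thr 63 43 (.dbl 15 11 31))))))))) (.rp 11 (.thr 41 61 (.thr 33 45 (.thr 49 17 (.dbl 13 9 25)))) (.rp 9 (.thr 7 6 (.thr 22 52 (.thr 41 61 (.thr 33 45 (.thr 3 60 (.thr 48 18 (.dbl 15 11 26))))))) .nd))))))))))))) (.rp 41 (.thr 7 6 (.thr 22 52 (.thr 20 23 (.thr 13 9 (.thr 25 49 (.thr 29 17 (.thr 28 19 (.thr 31 30 (.dbl 16 24 26))))))))) (.rp 25 (.thr 7 6 (.thr 22 52 (.thr 23 20 (.thr 41 61 (.thr 3 60 (.thr 63 43 (.dbl 0 2 42))))))) (.rp 17 (.thr 7 6 (.thr 22 52 (.thr 23 20 (.thr 41 61 (.thr 3 60 (.thr 63 43 (.dbl 0 2 42))))))) (.rp 13 (.thr 7 6 (.thr 22 52 (.thr 23 20 (.thr 41 61 (.thr 3 60 (.thr 63 43 (.dbl 0 2 42))))))) (.rp 9 (.thr 7 6 (.thr 22 52 (.thr 23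 20 (.thr 41 61 (.thr 3 60 (.thr 63 43 (.dbl 0 2 42))))))) .nd)))))))))))))) (.rp 36 (.thr 7 6 (.thr 22 52 (.thr 23 20 (.dbl 55 38 39)))) (.rp 22 (.str 1 (.nv (.thr 6 7 (.thr 9 13 (.thr 12 3 (.thr 38 55 (.thr 25 51 (.dbl 41 57 61)))))) (.nv (.thr 13 9 (.thr 41 61 (.thr 33 45 (.dbl 49 17 25)))) (.rp 61 (.thr 6 7 (.thr 38 55 (.thr 9 13 (.thr 12 3 (.thr 25 51 (.thr 29 17 (.thr 0 8 (.dbl 63 42 46)))))))) (.rp 57 (.thr 13 9 (.thr 49 25 (.thr 41 61 (.dbl 33 17 45)))) (.rp 41 (.thr 38 55 (.thr 36 39 (.thr 13 9 (.thr 25 49 (.thr 12 51 (.thr 15 14 (.dbl 48 24 26))))))) (.rp 25 (.thr 38 55 (.thr 36 39 (.thr 41 61 (.thr 45 33 (.thr 44 35 (.thr 32 40 (.dbl 47 42 46))))))) (.rp 17 (.thr 6 7 (.thr 38 55 (.thr 9 13 (.thr 12 3 (.thr 41 61 (.dbl 25 51 57)))))) (.rp 13 (.thr 38 55 (.thr 36 39 (.thr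 41 61 (.thr 45 33 (.thr 44 35 (.thr 32 40 (.dbl 47 42 46))))))) (.rp 11 (.thr 41 61 (.thr 33 45 (.thr 49 17 (.dbl 13 9 25)))) (.rp 9 (.thr 38 55 (.thr 36 39 (.thr 41 61 (.thr 45 33 (.thr 44 35 (.thr 32 40 (.dbl 47 42 46))))))) .nd))))))))))) (.rp 20 (.str 1 (.nv (.thr 6 7 (.thr 9 13 (.thr 12 3 (.thr 38 55 (.thr 25 51 (.dbl 41 57 61)))))) (.nv (.thr 6 7 (.thr 9 13 (.thr 3 12 (.thr 38 55 (.thr 41 61 (.dbl 22 54 60)))))) (.nv (.thr 13 9 (.thr 25 49 (.thr 61 41 (.dbl 29 17 45)))) (.rp 61 (.thr 6 7 (.thr 38 55 (.thr 9 13 (.thr 12 3 (.thr 25 51 (.thr 29 17 (.thr 0 8 (.dbl 63 42 46)))))))) (.rp 41 (.thr 38 55 (.thr 36 39 (.thr 13 9 (.thr 25 49 (.thr 12 51 (.thr 15 14 (.dbl 48 24 26))))))) (.rp 13 (.thr 7 6 (.thr 22 52 (.thr 41 61 (.thr 3 60 (.thr 15 11 (.thr 48 26 (.dbl 33 18 45)))))))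 (.rp 9 (.thr 7 6 (.thr 22 52 (.thr 41 61 (.thr 33 45 (.thr 3 60 (.thr 48 18 (.dbl 15 11 26))))))) .nd)))))))) (.rp 7 (.str 12 (.nv (.thr 0 8 (.thr 38 55 (.thr 25 51 (.thr 29 17 (.dbl 63 42 46))))) (.nv (.thr 0 8 (.thr 42 63 (.thr 32 47 (.thr 48 16 (.thr 36 24 (.thr 40 44 (.dbl 20 52 60))))))) (.nv (.thr 38 55 (.thr 39 36 (.thr 51 25 (.thr 15 27 (.thr 14 13 (.dbl 26 48 50)))))) (.rp 52 (.thr 0 8 (.thr 42 63 (.thr 32 47 (.thr 48 16 (.thr 36 24 (.dbl 38 39 55)))))) .nd))))) (.rp 6 (.str 12 (.nv (.thr 0 8 (.thr 38 55 (.thr 25 51 (.thr 29 17 (.dbl 63 42 46))))) (.nv (.thr 0 8 (.thr 42 63 (.thr 32 47 (.thr 48 16 (.thr 36 24 (.thr 40 44 (.dbl 20 52 60))))))) (.nv (.thr 38 55 (.thr 39 36 (.thr 51 25 (.thr 15 27 (.thr 14 13 (.dbl 26 48 50)))))) (.rp 52 (.thr 0 8 (.thr 42 63 (.thr 32 47 (.thr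 48 16 (.thr 36 24 (.dbl 38 39 55)))))) (.rp 14 (.str 2 (.nv (.thr 0 8 (.thr 42 63 (.thr 22 62 (.thr 20 23 (.dbl 52 7 36))))) (.nv (.thr 0 8 (.thr 1 3 (.thr 41 61 (.thr 33 45 (.thr 49 17 (.dbl 13 9 25)))))) (.nv (.thr 0 8 (.thr 38 55 (.thr 25 51 (.thr 29 17 (.dbl 63 42 46))))) (.rp 11 (.thr 38 55 (.thr 25 51 (.thr 49 13 (.thr 17 29 (.thr 1 33 (.dbl 0 3 8)))))) (.rp 9 (.thr 38 55 (.thr 25 51 (.thr 49 13 (.thr 17 29 (.thr 1 33 (.dbl 0 3 8)))))) (.rp 8 (.thr 38 55 (.thr 36 39 (.thr 48 24 (.thr 26 15 (.thr 16 31 (.thr 0 32 (.thr 63 42 (.thr 29 46 (.dbl 25 17 51))))))))) (.rp 0 (.thr 38 55 (.thr 25 51 (.thr 17 29 (.thr 36 39 (.thr 52 20 (.thr 48 24 (.thr 60 56 (.thr 28 44 (.dbl 22 7 19))))))))) .nd)))))))) (.rp 2 (.str 14 (.nv (.thr 0 8 (.thr 38 55 (.thr 25 51 (.thr 29 17 (.dbl 63 42 46)))))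 (.nv (.thr 0 8 (.thr 13 15 (.thr 25 49 (.thr 29 17 (.dbl 63 42 46))))) (.nv (.thr 38 55 (.thr 15 13 (.dbl 26 48 50))) (.rp 50 (.str 18 (.nv (.thr 0 8 (.thr 38 55 (.thr 25 51 (.thr 29 17 (.dbl 63 42 46))))) (.nv (.thr 0 8 (.thr 15 13 (.thr 42 63 (.thr 32 47 (.dbl 48 16 26))))) (.nv (.thr 38 55 (.thr 13 15 (.dbl 25 49 51))) .nd)))) (.rp 18 (.str 50 (.nv (.dbl 38 26 55) (.rp 55 (.thr 15 13 (.dbl 26 38 48)) (.rp 38 (.thr 15 13 (.thr 48 26 (.thr 0 8 (.thr 32 16 (.dbl 42 47 63))))) (.rp 26 (.thr 38 55 (.thr 13 15 (.dbl 25 49 51))) .nd))))) .nd)))))) .nd))))))) .nd))))))))))))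

theorem w368 : WinAt (137441050656, 9007216434611200) :=
  chF (K := []) kn c368 137441050656 9007216434611200 53
    [] (by decide +kernel) (by decide +kernel)

/-- A certificate. -/
noncomputable def c369 : Ct := (.str 13 (.nv (.thr 25 49 (.thr 29 17 (.thr 61 45 (.dbl 1 9 41)))) (.nv (.thr 1 9 (.thr 49 25 (.thr 41 61 (.dbl 33 17 45)))) (.rp 61 (.thr 49 25 (.str 0 (.nv (.thr 42 63 (.thr 32 47 (.thr 48 16 (.thr 51 50 (.thr 17 34 (.dbl 1 9 33)))))) (.nv (.thr 1 9 (.thr 33 17 (.thr 41 45 (.thr 42 63 (.thr 40 43 (.thr 60 20 (.dbl 3 2 22))))))) (.nv (.thr 1 9 (.thr 3 2 (.thr 33 17 (.thr 48 18 (.thr 16 32 (.dbl 26 15 31)))))) (.rp 48 (.thr 1 9 (.thr 33 17 (.thr 41 45 (.thr 3 2 (.thr 60 22 (.thr 40 20 (.dbl 42 43 63))))))) (.rp 33 (.thr 9 1 (.thr 42 63 (.thr 32 47 (.thr 48 16 (.thr 15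 26 (.thr 12 14 (.thr 4 8 (.dbl 6 3 7)))))))) (.rp 17 (.thr 9 1 (.thr 42 63 (.thr 32 47 (.thr 48 16 (.thr 15 26 (.thr 12 14 (.thr 4 8 (.dbl 6 3 7)))))))) (.rp 9 (.thr 42 63 (.thr 32 47 (.thr 48 16 (.thr 51 50 (.thr 34 17 (.thr 15 26 (.thr 38 46 (.dbl 39 27 36)))))))) (.rp 2 (.thr 1 9 (.thr 17 33 (.thr 42 63 (.thr 51 34 (.thr 32 47 (.dbl 48 16 50)))))) (.rp 1 (.thr 42 63 (.thr 32 47 (.thr 48 16 (.thr 51 50 (.thr 34 17 (.thr 15 26 (.thr 38 46 (.dbl 39 27 36)))))))) .nd))))))))))) (.rp 49 (.str 61 (.nv (.dbl 1 9 41) (.rp 41 (.str 38 (.nv (.thr 4 55 (.thr 29 45 (.thr 25 17 (.thr 12 51 (.thr 0 8 (.dbl 63 42 46)))))) (.nv (.thr 36 39 (.thr 4 55 (.thr 52 20 (.dbl 7 6 22)))) (.rp 55 (.thr 36 39 (.thr 29 45 (.thr 25 17 (.thr 12 51 (.thr 15 14 (.dbl 48 24 26)))))) (.rp 52 (.thr 36 39 (.thr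 29 45 (.thr 25 17 (.thr 12 51 (.thr 15 14 (.dbl 48 24 26)))))) (.rp 4 (.thr 36 39 (.thr 29 45 (.thr 25 17 (.thr 12 51 (.thr 15 14 (.dbl 48 24 26)))))) .nd)))))) (.rp 9 (.thr 45 29 (.dbl 41 1 33)) (.rp 1 (.thr 29 45 (.thr 17 25 (.str 63 (.nv (.thr 12 46 (.thr 15 14 (.thr 26 48 (.dbl 31 16 47)))) (.nv (.thr 42 0 (.thr 47 32 (.thr 12 46 (.dbl 15 14 31)))) (.nv (.thr 12 46 (.thr 15 14 (.thr 47 31 (.dbl 42 0 32)))) (.rp 47 (.thr 60 62 (.thr 0 42 (.thr 20 40 (.thr 22 23 (.thr 7 52 (.thr 4 6 (.dbl 12 8 46))))))) (.rp 46 (.thr 60 62 (.thr 0 42 (.thr 20 40 (.thr 22 23 (.thr 52 7 (.thr 48 56 (.thr 16 32 (.dbl 26 15 31)))))))) (.rp 31 (.thr 60 62 (.thr 12 46 (.thr 0 42 (.thr 20 40 (.thr 22 23 (.thr 7 52 (.dbl 4 6 8))))))) (.rp 15 (.thr 60 62 (.thr 12 46 (.thr 0 42 (.thr 20 40 (.thr 22 23 (.thr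 7 52 (.dbl 4 6 8))))))) (.rp 14 (.thr 60 62 (.thr 0 42 (.thr 20 40 (.thr 22 23 (.thr 52 7 (.thr 4 36 (.dbl 12 8 46))))))) (.rp 12 (.thr 60 62 (.thr 0 42 (.thr 20 40 (.thr 22 23 (.thr 7 52 (.thr 4 6 (.thr 55 38 (.dbl 51 34 59)))))))) (.rp 2 (.thr 60 62 (.thr 12 46 (.thr 14 15 (.thr 44 28 (.str 22 (.nv (.thr 3 41 (.thr 7 52 (.dbl 6 4 9))) (.nv (.thr 20 23 (.dbl 0 40 42)) (.rp 3 (.thr 0 42 (.dbl 20 23 40)) .nd)))))))) .nd))))))))))))) .nd))))) (.rp 45 (.str 7 (.nv (.thr 22 52 (.thr 23 20 (.thr 55 39 (.dbl 4 6 38)))) (.nv (.thr 4 6 (.thr 38 55 (.thr 52 22 (.dbl 36 20 39)))) (.rp 55 (.thr 9 1 (.thr 25 49 (.thr 6 4 (.thr 3 12 (.thr 22 52 (.thr 54 38 (.dbl 41 57 60))))))) (.rp 52 (.thr 9 1 (.thr 25 49 (.thr 6 4 (.thr 12 3 (.thr 51 38 (.thr 15 14 (.thr 27 39 (.dbl 26 24 48)))))))) (.rp 39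 (.thr 9 1 (.thr 25 49 (.thr 6 4 (.thr 3 12 (.thr 22 52 (.dbl 41 57 60)))))) (.rp 38 (.thr 9 1 (.thr 25 49 (.thr 6 4 (.thr 3 12 (.thr 22 52 (.dbl 41 57 60)))))) (.rp 36 (.thr 4 6 (.thr 55 38 (.thr 23 39 (.dbl 22 20 52)))) (.rp 22 (.thr 25 49 (.thr 29 17 (.thr 4 6 (.thr 38 55 (.thr 12 51 (.thr 0 8 (.dbl 63 42 46))))))) (.rp 20 (.thr 25 49 (.thr 29 17 (.thr 4 6 (.thr 38 55 (.thr 12 51 (.thr 0 8 (.dbl 63 42 46))))))) (.rp 6 (.thr 1 9 (.thr 41 61 (.thr 22 52 (.thr 23 20 (.thr 3 60 (.thr 63 43 (.dbl 0 2 42))))))) (.rp 4 (.thr 1 9 (.thr 41 61 (.thr 22 52 (.thr 3 60 (.thr 0 2 (.thr 63 42 (.dbl 23 20 43))))))) .nd)))))))))))) (.rp 41 (.str 38 (.nv (.thr 4 55 (.thr 25 49 (.thr 12 51 (.thr 0 8 (.thr 29 17 (.dbl 63 42 46)))))) (.nv (.thr 25 49 (.thr 12 51 (.thr 15 14 (.thr 48 26 (.dbl 36 24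 39))))) (.nv (.thr 36 39 (.thr 4 55 (.thr 52 20 (.dbl 7 6 22)))) .nd)))) (.rp 33 (.thr 1 9 (.thr 61 41 (.thr 29 45 (.dbl 25 17 49)))) (.rp 25 (.str 7 (.nv (.thr 22 52 (.thr 23 20 (.thr 55 39 (.dbl 4 6 38)))) (.nv (.thr 4 6 (.thr 38 55 (.thr 52 22 (.dbl 36 20 39)))) (.nv (.thr 4 6 (.thr 22 52 (.thr 23 20 (.dbl 55 38 39)))) (.rp 55 (.thr 9 1 (.thr 6 4 (.thr 3 12 (.thr 15 11 (.thr 48 26 (.thr 33 18 (.thr 41 45 (.dbl 22 52 60)))))))) (.rp 52 (.thr 1 9 (.thr 41 61 (.thr 33 45 (.thr 4 6 (.thr 55 38 (.thr 23 39 (.thr 22 20 (.thr 3 60 (.thr 48 18 (.dbl 15 11 26)))))))))) (.rp 39 (.thr 1 9 (.thr 41 61 (.thr 33 45 (.thr 22 52 (.thr 3 60 (.thr 48 18 (.dbl 15 11 26))))))) (.rp 38 (.thr 1 9 (.thr 41 61 (.thr 33 45 (.thr 22 52 (.thr 3 60 (.thr 48 18 (.dbl 15 11 26))))))) (.rp 22 (.thr 9 1 (.thr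 6 4 (.thr 3 12 (.thr 15 11 (.thr 26 48 (.thr 31 16 (.thr 63 47 (.thr 23 43 (.thr 39 55 (.dbl 27 19 51)))))))))) (.rp 20 (.thr 1 9 (.thr 41 61 (.thr 33 45 (.thr 22 52 (.thr 3 60 (.thr 48 18 (.dbl 15 11 26))))))) (.rp 6 (.thr 1 9 (.thr 41 61 (.thr 33 45 (.thr 22 52 (.thr 3 60 (.thr 48 18 (.dbl 15 11 26))))))) (.rp 4 (.thr 1 9 (.thr 41 61 (.thr 33 45 (.thr 22 52 (.thr 3 60 (.thr 48 18 (.dbl 15 11 26))))))) .nd)))))))))))) (.rp 17 (.str 7 (.nv (.thr 22 52 (.thr 23 20 (.thr 55 39 (.dbl 4 6 38)))) (.nv (.thr 4 6 (.thr 38 55 (.thr 52 22 (.dbl 36 20 39)))) (.rp 55 (.thr 9 1 (.thr 6 4 (.thr 3 12 (.thr 22 52 (.thr 54 38 (.thr 41 60 (.dbl 25 49 57))))))) (.rp 52 (.thr 9 1 (.thr 6 4 (.thr 3 12 (.thr 15 11 (.thr 48 26 (.thr 25 49 (.thr 33 18 (.dbl 41 45 57)))))))) (.rp 39 (.thr 9 1 (.thr 6 4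 (.thr 3 12 (.thr 22 52 (.thr 41 60 (.dbl 25 49 57)))))) (.rp 38 (.thr 9 1 (.thr 6 4 (.thr 3 12 (.thr 22 52 (.thr 41 60 (.dbl 25 49 57)))))) (.rp 36 (.thr 4 6 (.thr 55 38 (.thr 23 39 (.dbl 22 20 52)))) (.rp 22 (.thr 25 49 (.thr 4 6 (.thr 38 55 (.thr 36 39 (.thr 12 51 (.thr 48 24 (.dbl 15 14 26))))))) (.rp 20 (.thr 1 9 (.thr 41 61 (.thr 33 45 (.thr 22 52 (.thr 3 60 (.thr 48 18 (.dbl 15 11 26))))))) (.rp 6 (.thr 1 9 (.thr 41 61 (.thr 33 45 (.thr 22 52 (.thr 3 60 (.thr 48 18 (.dbl 15 11 26))))))) (.rp 4 (.thr 1 9 (.thr 41 61 (.thr 33 45 (.thr 22 52 (.thr 3 60 (.thr 48 18 (.dbl 15 11 26))))))) .nd)))))))))))) (.rp 9 (.str 7 (.nv (.thr 22 52 (.thr 23 20 (.thr 55 39 (.dbl 4 6 38)))) (.nv (.thr 4 6 (.thr 38 55 (.thr 52 22 (.dbl 36 20 39)))) (.rp 55 (.thr 25 49 (.thr 4 6 (.thr 52 22 (.thr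 36 20 (.thr 38 39 (.thr 12 51 (.thr 48 24 (.dbl 15 14 26)))))))) (.rp 52 (.thr 25 49 (.thr 17 29 (.thr 4 6 (.thr 55 38 (.thr 23 39 (.thr 22 20 (.thr 19 28 (.thr 31 27 (.dbl 16 18 26))))))))) (.rp 39 (.thr 25 49 (.thr 29 17 (.thr 4 6 (.thr 38 55 (.thr 12 51 (.thr 63 46 (.dbl 0 8 42))))))) (.rp 38 (.thr 25 49 (.thr 29 17 (.thr 22 52 (.thr 20 23 (.thr 28 19 (.thr 16 24 (.dbl 31 26 30))))))) (.rp 36 (.thr 4 6 (.thr 55 38 (.thr 23 39 (.dbl 22 20 52)))) (.rp 22 (.thr 25 49 (.thr 29 17 (.thr 4 6 (.thr 38 55 (.thr 12 51 (.thr 63 46 (.dbl 0 8 42))))))) (.rp 20 (.thr 25 49 (.thr 29 17 (.thr 4 6 (.thr 38 55 (.thr 12 51 (.thr 63 46 (.dbl 0 8 42))))))) (.rp 11 (.str 8 (.nv (.thr 4 6 (.thr 25 49 (.thr 42 59 (.dbl 0 12 63)))) (.nv (.thr 22 52 (.thr 23 20 (.thr 55 39 (.dbl 4 6 38)))) (.nv (.thr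 4 6 (.thr 12 0 (.thr 38 55 (.dbl 25 49 51)))) (.rp 6 (.thr 25 49 (.thr 42 59 (.thr 0 63 (.thr 12 4 (.thr 17 29 (.dbl 51 34 38)))))) (.rp 4 (.thr 22 52 (.thr 20 23 (.thr 25 49 (.thr 29 17 (.thr 28 19 (.thr 31 30 (.dbl 16 24 26))))))) .nd)))))) (.rp 8 (.str 11 (.nv (.thr 15 3 (.thr 26 48 (.thr 41 56 (.thr 61 1 (.dbl 45 29 33))))) (.nv (.thr 22 52 (.thr 23 20 (.thr 55 39 (.dbl 4 6 38)))) (.rp 52 (.thr 15 3 (.thr 25 49 (.thr 29 17 (.thr 61 45 (.thr 26 48 (.dbl 41 1 56)))))) (.rp 6 (.thr 3 15 (.thr 22 52 (.thr 41 60 (.thr 61 1 (.dbl 45 29 33))))) .nd))))) (.rp 6 (.thr 25 49 (.thr 29 17 (.thr 22 52 (.thr 20 23 (.thr 28 19 (.thr 16 24 (.dbl 31 26 30))))))) (.rp 4 (.thr 25 49 (.thr 29 17 (.thr 22 52 (.thr 20 23 (.thr 28 19 (.thr 16 24 (.dbl 31 26 30))))))) .nd)))))))))))))) (.rp 1 (.str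 7 (.nv (.thr 22 52 (.thr 23 20 (.thr 55 39 (.dbl 4 6 38)))) (.nv (.thr 4 6 (.thr 38 55 (.thr 52 22 (.dbl 36 20 39)))) (.rp 55 (.thr 25 49 (.thr 4 6 (.thr 52 22 (.thr 36 20 (.thr 38 39 (.thr 12 51 (.thr 48 24 (.dbl 15 14 26)))))))) (.rp 52 (.thr 25 49 (.thr 17 29 (.thr 4 6 (.thr 55 38 (.thr 23 39 (.thr 22 20 (.thr 19 28 (.thr 31 27 (.dbl 16 18 26))))))))) (.rp 39 (.thr 25 49 (.thr 17 29 (.thr 22 52 (.thr 23 20 (.thr 19 28 (.thr 31 27 (.dbl 16 18 26))))))) (.rp 38 (.thr 25 49 (.thr 17 29 (.thr 22 52 (.thr 23 20 (.thr 19 28 (.thr 31 27 (.dbl 16 18 26))))))) (.rp 36 (.thr 4 6 (.thr 55 38 (.thr 23 39 (.dbl 22 20 52)))) (.rp 22 (.thr 25 49 (.thr 4 6 (.thr 38 55 (.thr 36 39 (.thr 12 51 (.thr 48 24 (.dbl 15 14 26))))))) (.rp 20 (.thr 25 49 (.thr 4 6 (.thr 38 55 (.thr 36 39 (.thr 12 51 (.thr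 48 24 (.dbl 15 14 26))))))) (.rp 6 (.thr 25 49 (.thr 17 29 (.thr 22 52 (.thr 23 20 (.thr 19 28 (.thr 31 27 (.dbl 16 18 26))))))) (.rp 4 (.thr 25 49 (.thr 17 29 (.thr 22 52 (.thr 19 28 (.thr 16 18 (.thr 31 26 (.dbl 23 20 27))))))) .nd)))))))))))) .nd))))))))))))

theorem w369 : WinAt (137441050656, 9007233614480384) :=
  chF (K := []) kn c369 137441050656 9007233614480384 53
    [] (by decide +kernel) (by decide +kernel)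

/-- A certificate. -/
noncomputable def c370 : Ct := (.str 1 (.nv (.thr 41 61 (.thr 33 45 (.thr 49 17 (.dbl 13 9 25)))) (.nv (.thr 13 9 (.thr 49 25 (.thr 41 61 (.dbl 33 17 45)))) (.rp 61 (.str 49 (.nv (.dbl 13 9 25) (.rp 25 (.str 0 (.nv (.thr 3 2 (.thr 33 17 (.thr 41 45 (.thr 22 60 (.thr 23 20 (.dbl 63 42 43)))))) (.nv (.thr 3 2 (.thr 9 13 (.thr 6 12 (.thr 7 4 (.thr 22 52 (.thr 20 23 (.dbl 60 40 41))))))) (.nv (.thr 17 33 (.thr 51 34 (.thr 48 50 (.thr 32 16 (.dbl 42 47 63))))) (.rp 2 (.thr 17 33 (.thr 51 34 (.thr 42 63 (.thr 32 47 (.dbl 48 16 50))))) .nd))))) (.rp 13 (.thr 17 33 (.thr 29 25 (.str 0 (.nv (.thr 51 34 (.thr 48 50 (.thr 26 15 (.dbl 16 31 32)))) (.nv (.thr 3 2 (.thr 63 42 (.thr 12 46 (.thr 6 9 (.dbl 4 7 8))))) (.nv (.thr 51 34 (.thr 48 50 (.thr 32 16 (.dbl 42 47 63))))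 (.rp 34 (.thr 3 2 (.thr 42 63 (.thr 32 47 (.thr 48 16 (.thr 15 26 (.thr 7 11 (.thr 22 52 (.thr 20 23 (.dbl 60 40 41))))))))) (.rp 2 (.thr 51 34 (.thr 42 63 (.thr 32 47 (.dbl 48 16 50)))) .nd)))))))) (.rp 9 (.thr 17 33 (.dbl 25 13 29)) .nd))))) (.rp 49 (.thr 61 41 (.str 15 (.nv (.thr 13 9 (.thr 12 14 (.thr 29 45 (.thr 63 46 (.thr 42 0 (.dbl 47 31 32)))))) (.nv (.thr 9 13 (.thr 26 48 (.thr 31 16 (.thr 63 47 (.thr 0 42 (.thr 3 2 (.thr 7 11 (.dbl 6 4 12)))))))) (.nv (.thr 13 9 (.thr 12 14 (.thr 29 45 (.thr 25 17 (.thr 51 38 (.thr 27 39 (.dbl 26 24 48))))))) (.nv (.thr 13 9 (.thr 45 29 (.thr 60 30 (.thr 63 62 (.thr 31 47 (.dbl 26 16 48)))))) (.rp 14 (.thr 13 9 (.thr 45 29 (.thr 60 30 (.thr 26 48 (.thr 31 16 (.dbl 63 47 62)))))) (.rp 13 (.thr 26 48 (.thr 31 16 (.thr 63 47 (.thr 60 62 (.thr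 30 45 (.thr 0 42 (.thr 22 18 (.dbl 20 23 40)))))))) (.rp 11 (.thr 26 48 (.thr 31 16 (.thr 63 47 (.thr 60 62 (.thr 45 30 (.dbl 13 9 29)))))) (.rp 9 (.thr 26 48 (.thr 31 16 (.thr 63 47 (.thr 60 62 (.thr 30 45 (.thr 0 42 (.thr 22 18 (.dbl 20 23 40)))))))) .nd)))))))))) (.rp 45 (.str 4 (.nv (.thr 6 7 (.thr 9 13 (.thr 12 3 (.thr 38 55 (.thr 25 51 (.dbl 41 57 61)))))) (.nv (.thr 7 6 (.thr 55 38 (.thr 22 52 (.dbl 23 20 39)))) (.rp 55 (.thr 9 13 (.thr 6 7 (.thr 12 3 (.thr 0 8 (.thr 63 42 (.thr 41 61 (.thr 29 46 (.dbl 25 17 57)))))))) (.rp 52 (.thr 9 13 (.thr 6 7 (.thr 12 3 (.thr 38 55 (.thr 54 22 (.thr 25 51 (.dbl 41 57 61))))))) (.rp 39 (.thr 13 9 (.thr 25 49 (.thr 29 17 (.thr 38 55 (.thr 12 51 (.thr 63 46 (.dbl 0 8 42))))))) (.rp 38 (.thr 41 61 (.thr 7 6 (.thr 22 52 (.thr 23 20 (.thr 3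 60 (.thr 63 43 (.dbl 0 2 42))))))) (.rp 23 (.thr 13 9 (.thr 25 49 (.thr 29 17 (.thr 38 55 (.thr 12 51 (.thr 63 46 (.dbl 0 8 42))))))) (.rp 7 (.thr 13 9 (.thr 25 49 (.thr 29 17 (.thr 38 55 (.thr 12 51 (.thr 63 46 (.dbl 0 8 42))))))) (.rp 6 (.thr 13 9 (.thr 25 49 (.thr 29 17 (.thr 38 55 (.thr 12 51 (.thr 63 46 (.dbl 0 8 42))))))) .nd)))))))))) (.rp 41 (.str 4 (.nv (.thr 7 6 (.thr 22 52 (.thr 23 20 (.dbl 55 38 39)))) (.rp 55 (.thr 9 13 (.thr 6 7 (.thr 3 12 (.thr 0 2 (.thr 42 63 (.thr 32 47 (.thr 48 16 (.thr 33 18 (.thr 17 49 (.dbl 34 35 51)))))))))) (.rp 54 (.thr 7 6 (.thr 22 52 (.thr 55 38 (.dbl 23 20 39)))) (.rp 52 (.thr 9 13 (.thr 6 7 (.thr 12 3 (.thr 0 8 (.thr 63 42 (.thr 29 46 (.thr 25 17 (.dbl 38 51 55)))))))) (.rp 39 (.thr 13 9 (.thr 25 49 (.thr 29 17 (.thr 38 55 (.thr 12 51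 (.thr 63 46 (.dbl 0 8 42))))))) (.rp 38 (.thr 13 9 (.thr 25 49 (.thr 17 29 (.thr 7 6 (.thr 22 52 (.thr 23 20 (.thr 19 28 (.thr 31 27 (.dbl 16 18 26))))))))) (.rp 23 (.thr 13 9 (.thr 25 49 (.thr 29 17 (.thr 38 55 (.thr 12 51 (.thr 63 46 (.dbl 0 8 42))))))) (.rp 22 (.thr 13 9 (.thr 25 49 (.thr 29 17 (.thr 38 55 (.thr 12 51 (.thr 63 46 (.dbl 0 8 42))))))) (.rp 20 (.thr 13 9 (.thr 25 49 (.thr 29 17 (.thr 38 55 (.thr 12 51 (.thr 63 46 (.dbl 0 8 42))))))) (.rp 14 (.thr 13 9 (.thr 25 49 (.thr 29 17 (.thr 38 55 (.thr 12 51 (.thr 63 46 (.dbl 0 8 42))))))) (.rp 7 (.thr 13 9 (.thr 25 49 (.thr 29 17 (.thr 38 55 (.thr 12 51 (.thr 63 46 (.dbl 0 8 42))))))) (.rp 6 (.thr 13 9 (.thr 25 49 (.thr 29 17 (.thr 38 55 (.thr 12 51 (.thr 63 46 (.dbl 0 8 42))))))) (.rp 2 (.thr 13 9 (.thr 25 49 (.thr 29 17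 (.thr 38 55 (.thr 12 51 (.thr 63 46 (.dbl 0 8 42))))))) .nd)))))))))))))) (.rp 33 (.thr 13 9 (.thr 25 49 (.thr 29 17 (.dbl 61 41 45)))) (.rp 25 (.str 0 (.nv (.thr 2 3 (.thr 42 63 (.thr 22 62 (.thr 7 52 (.thr 4 6 (.thr 23 20 (.dbl 55 38 39))))))) (.nv (.thr 3 2 (.thr 41 61 (.thr 33 45 (.thr 48 18 (.thr 16 32 (.dbl 26 15 31)))))) (.nv (.thr 3 2 (.thr 41 61 (.thr 22 60 (.thr 23 20 (.dbl 63 42 43))))) (.rp 61 (.thr 9 13 (.thr 3 2 (.thr 6 12 (.thr 7 4 (.thr 22 52 (.thr 20 23 (.dbl 60 40 41))))))) (.rp 6 (.thr 41 61 (.thr 42 63 (.thr 40 43 (.thr 60 20 (.dbl 3 2 22))))) (.rp 3 (.thr 41 61 (.thr 33 45 (.thr 42 63 (.thr 32 47 (.thr 34 35 (.dbl 17 49 51)))))) (.rp 2 (.thr 41 61 (.thr 33 45 (.thr 42 63 (.thr 32 47 (.thr 34 35 (.dbl 17 49 51)))))) .nd)))))))) (.rp 17 (.str 4 (.nv (.thr 6 7 (.thr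 9 13 (.thr 12 3 (.thr 38 55 (.thr 25 51 (.dbl 41 57 61)))))) (.nv (.thr 6 7 (.thr 9 13 (.thr 3 12 (.thr 41 61 (.thr 22 60 (.dbl 38 54 55)))))) (.nv (.thr 7 6 (.thr 55 38 (.thr 22 52 (.dbl 23 20 39)))) (.rp 55 (.thr 6 7 (.thr 9 13 (.thr 3 12 (.thr 0 2 (.thr 41 61 (.thr 22 60 (.thr 23 20 (.dbl 63 42 43)))))))) (.rp 38 (.thr 7 6 (.thr 22 52 (.thr 23 20 (.thr 41 61 (.thr 3 60 (.thr 63 43 (.dbl 0 2 42))))))) (.rp 7 (.thr 38 55 (.thr 13 9 (.thr 25 49 (.thr 12 51 (.thr 61 41 (.thr 29 45 (.thr 63 46 (.dbl 0 8 42)))))))) (.rp 6 (.thr 38 55 (.thr 13 9 (.thr 25 49 (.thr 12 51 (.thr 61 41 (.thr 29 45 (.thr 63 46 (.dbl 0 8 42)))))))) .nd)))))))) (.rp 13 (.str 3 (.nv (.thr 0 2 (.thr 63 42 (.thr 23 43 (.thr 22 20 (.dbl 41 60 61))))) (.nv (.thr 0 2 (.thr 42 63 (.thr 32 47 (.thr 48 16 (.thr 33 18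 (.thr 34 35 (.dbl 17 49 51))))))) (.nv (.thr 41 61 (.thr 45 33 (.thr 60 22 (.thr 15 30 (.thr 11 7 (.dbl 26 48 56)))))) .nd)))) (.rp 9 (.thr 41 61 (.thr 33 45 (.thr 49 17 (.thr 13 25 (.str 3 (.nv (.thr 0 2 (.thr 48 18 (.thr 16 32 (.dbl 26 15 31)))) (.nv (.thr 0 2 (.thr 63 42 (.thr 23 43 (.dbl 22 20 60)))) (.nv (.thr 48 18 (.thr 26 15 (.thr 60 22 (.dbl 56 11 52)))) (.rp 26 (.thr 0 2 (.thr 42 63 (.thr 40 43 (.dbl 60 20 22)))) (.rp 11 (.str 8 (.nv (.thr 0 2 (.thr 4 12 (.thr 6 7 (.thr 38 55 (.dbl 22 54 60))))) (.nv (.thr 48 18 (.thr 26 15 (.thr 16 31 (.dbl 0 2 32)))) (.rp 60 (.thr 0 2 (.thr 12 4 (.thr 48 18 (.dbl 15 14 26)))) (.rp 48 (.thr 0 2 (.thr 63 42 (.thr 23 43 (.dbl 22 20 60)))) (.rp 2 (.thr 48 18 (.thr 60 22 (.thr 56 52 (.thr 40 24 (.thr 42 43 (.dbl 0 20 63)))))) (.rp 0 (.thr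 22 60 (.thr 7 52 (.thr 4 6 (.thr 55 38 (.dbl 23 20 39))))) .nd))))))) (.rp 8 (.str 11 (.nv (.thr 0 2 (.thr 60 22 (.thr 40 20 (.dbl 42 43 63)))) (.nv (.thr 15 7 (.dbl 26 48 56)) (.rp 59 (.str 42 (.nv (.thr 7 15 (.dbl 22 52 60)) (.nv (.dbl 0 2 63) .nd))) (.rp 42 (.str 59 (.nv (.thr 26 56 (.thr 7 15 (.dbl 22 52 60))) (.nv (.thr 43 27 (.thr 23 63 (.dbl 22 20 60))) (.nv (.thr 15 7 (.dbl 26 48 56)) (.rp 26 (.str 58 (.nv (.thr 48 18 (.thr 56 57 (.dbl 60 22 52))) (.nv (.thr 27 43 (.thr 15 7 (.thr 51 39 (.dbl 48 18 50)))) (.nv (.thr 7 15 (.dbl 22 52 60)) (.rp 27 (.str 24 (.nv (.thr 48 18 (.thr 51 50 (.thr 57 56 (.dbl 60 22 54)))) (.nv (.thr 7 15 (.dbl 22 52 60)) (.rp 60 (.thr 48 18 (.thr 51 50 (.thr 63 55 (.thr 23 43 (.thr 22 20 (.dbl 7 15 52)))))) (.rp 51 (.thr 22 60 (.dbl 7 15 52)) (.rp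 30 (.thr 15 7 (.thr 48 18 (.thr 22 60 (.thr 51 50 (.thr 63 55 (.dbl 23 20 43)))))) (.rp 22 (.thr 7 15 (.thr 18 48 (.thr 2 0 (.thr 34 50 (.thr 4 6 (.thr 38 55 (.dbl 35 32 44))))))) .nd))))))) .nd))))) .nd))))) .nd))))) .nd))))))))))) .nd))))))))))))

theorem w370 : WinAt (137441050656, 9007267974218752) :=
  chF (K := []) kn c370 137441050656 9007267974218752 53
    [] (by decide +kernel) (by decide +kernel)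

/-- A certificate. -/
noncomputable def c371 : Ct := (.str 13 (.nv (.thr 1 9 (.thr 25 49 (.thr 61 41 (.dbl 29 17 45)))) (.nv (.thr 25 49 (.thr 29 17 (.thr 61 45 (.dbl 1 9 41)))) (.rp 61 (.thr 49 25 (.str 48 (.nv (.thr 1 9 (.thr 33 17 (.thr 3 18 (.thr 0 2 (.thr 42 63 (.dbl 32 16 47)))))) (.nv (.thr 26 15 (.thr 16 31 (.thr 0 32 (.thr 51 50 (.thr 17 34 (.dbl 1 9 33)))))) (.nv (.thr 1 9 (.thr 26 15 (.thr 33 17 (.thr 3 18 (.thr 41 45 (.thr 60 22 (.dbl 56 11 52))))))) (.nv (.thr 51 50 (.thr 26 15 (.thr 1 9 (.thr 16 31 (.thr 0 32 (.dbl 17 33 34)))))) (.rp 51 (.str 12 (.nv (.dbl 15 14 26) (.rp 26 (.thr 1 9 (.thr 33 17 (.thr 3 18 (.thr 0 2 (.thr 42 63 (.dbl 32 16 47)))))) (.rp 15 (.thr 1 9 (.thr 33 17 (.thr 3 18 (.thr 0 2 (.thr 42 63 (.dbl 32 16 47)))))) (.rp 14 (.thr 1 9 (.thr 33 17 (.thr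 3 18 (.thr 26 15 (.thr 16 31 (.dbl 0 2 32)))))) .nd))))) (.rp 33 (.thr 9 1 (.thr 15 26 (.thr 50 51 (.thr 12 14 (.thr 6 3 (.thr 4 7 (.thr 0 8 (.thr 32 16 (.dbl 42 47 63))))))))) (.rp 17 (.thr 1 9 (.thr 26 15 (.thr 16 31 (.thr 0 32 (.thr 3 2 (.thr 33 18 (.thr 41 45 (.thr 60 22 (.dbl 56 11 52))))))))) (.rp 16 (.thr 1 9 (.thr 33 17 (.thr 41 45 (.thr 51 50 (.thr 3 18 (.thr 19 35 (.thr 60 22 (.thr 56 52 (.dbl 26 11 15))))))))) (.rp 9 (.thr 51 50 (.thr 26 15 (.thr 16 31 (.thr 0 32 (.thr 17 34 (.thr 33 1 (.dbl 18 3 19))))))) (.rp 1 (.thr 51 50 (.thr 26 15 (.thr 16 31 (.thr 0 32 (.thr 17 34 (.thr 18 19 (.thr 22 30 (.thr 52 7 (.thr 60 56 (.dbl 20 23 40)))))))))) .nd)))))))))))) (.rp 49 (.str 61 (.nv (.dbl 1 9 41) (.rp 41 (.thr 45 29 (.str 15 (.nv (.thr 26 48 (.thr 31 16 (.thr 60 30 (.dbl 63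 47 62)))) (.nv (.thr 60 30 (.thr 14 12 (.thr 63 62 (.thr 42 0 (.dbl 47 31 32))))) (.nv (.thr 60 30 (.thr 63 62 (.thr 31 47 (.dbl 26 16 48)))) (.rp 63 (.thr 9 1 (.thr 12 14 (.thr 6 3 (.thr 7 4 (.thr 52 22 (.thr 60 30 (.dbl 48 26 56))))))) (.rp 62 (.thr 9 1 (.thr 12 14 (.thr 6 3 (.thr 7 4 (.thr 22 52 (.thr 30 60 (.dbl 26 18 48))))))) (.rp 60 (.thr 9 1 (.thr 12 14 (.thr 26 48 (.thr 31 16 (.thr 63 47 (.thr 0 42 (.thr 4 8 (.dbl 6 3 7)))))))) (.rp 47 (.thr 9 1 (.thr 12 14 (.thr 6 3 (.thr 7 4 (.thr 52 22 (.thr 60 30 (.dbl 48 26 56))))))) (.rp 44 (.str 35 (.nv (.thr 26 48 (.thr 31 16 (.thr 60 30 (.dbl 63 47 62)))) (.nv (.thr 60 30 (.thr 14 12 (.thr 63 62 (.thr 42 0 (.dbl 47 31 32))))) (.nv (.thr 60 30 (.thr 63 62 (.thr 31 47 (.dbl 26 16 48)))) (.rp 63 (.thr 9 1 (.thr 12 14 (.thr 6 3 (.thr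 7 4 (.thr 52 22 (.thr 60 30 (.dbl 48 26 56))))))) (.rp 62 (.thr 9 1 (.thr 12 14 (.thr 6 3 (.thr 7 4 (.thr 22 52 (.thr 30 60 (.dbl 26 18 48))))))) (.rp 60 (.thr 9 1 (.thr 12 14 (.thr 26 48 (.thr 31 16 (.thr 63 47 (.thr 0 42 (.thr 4 8 (.dbl 6 3 7)))))))) (.rp 47 (.thr 9 1 (.thr 12 14 (.thr 6 3 (.thr 7 4 (.thr 52 22 (.thr 60 30 (.dbl 48 26 56))))))) (.rp 31 (.thr 9 1 (.thr 12 14 (.thr 6 3 (.thr 7 4 (.thr 22 52 (.thr 30 60 (.dbl 26 18 48))))))) (.rp 30 (.thr 9 1 (.thr 12 14 (.thr 6 3 (.thr 4 7 (.thr 0 8 (.thr 63 42 (.thr 31 47 (.dbl 26 16 48)))))))) .nd)))))))))) (.rp 35 (.str 44 (.nv (.thr 26 48 (.thr 31 16 (.dbl 47 46 63))) (.nv (.thr 60 30 (.dbl 12 14 28)) (.rp 31 (.thr 12 14 (.dbl 60 28 30)) .nd)))) (.rp 31 (.thr 9 1 (.thr 12 14 (.thr 6 3 (.thr 7 4 (.thr 22 52 (.thr 30 60 (.dbl 26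 18 48))))))) (.rp 30 (.thr 9 1 (.thr 12 14 (.thr 6 3 (.thr 4 7 (.thr 0 8 (.thr 63 42 (.thr 31 47 (.dbl 26 16 48)))))))) .nd))))))))))))) (.rp 9 (.thr 45 29 (.dbl 41 1 33)) (.rp 1 (.thr 45 29 (.str 63 (.nv (.thr 33 41 (.thr 42 0 (.thr 47 32 (.thr 15 31 (.dbl 60 30 62))))) (.nv (.thr 0 42 (.thr 60 62 (.thr 20 40 (.thr 22 23 (.dbl 41 3 33))))) (.nv (.thr 60 62 (.thr 15 30 (.thr 31 47 (.dbl 26 16 48)))) (.rp 62 (.thr 33 41 (.thr 42 0 (.thr 47 32 (.thr 15 31 (.thr 48 26 (.thr 3 18 (.thr 23 43 (.thr 22 20 (.dbl 7 11 52))))))))) (.rp 60 (.thr 33 41 (.thr 42 0 (.thr 47 32 (.thr 15 31 (.thr 48 26 (.thr 3 18 (.thr 11 7 (.thr 43 23 (.thr 27 59 (.dbl 39 35 51)))))))))) (.rp 33 (.str 17 (.nv (.thr 42 0 (.thr 60 62 (.thr 15 30 (.thr 14 12 (.dbl 47 31 32))))) (.nv (.thr 60 62 (.thr 15 30 (.thr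 31 47 (.dbl 26 16 48)))) (.rp 62 (.thr 42 0 (.thr 47 32 (.thr 31 15 (.thr 44 46 (.thr 16 26 (.thr 19 18 (.thr 23 27 (.thr 3 43 (.thr 22 20 (.thr 60 41 (.dbl 28 12 25))))))))))) (.rp 60 (.str 31 (.nv (.thr 42 0 (.dbl 47 15 32)) (.nv (.thr 15 47 (.dbl 26 16 48)) (.rp 47 (.thr 16 26 (.thr 19 18 (.thr 23 27 (.thr 22 20 (.thr 7 52 (.thr 55 39 (.thr 51 59 (.dbl 3 35 43)))))))) (.rp 15 (.thr 16 26 (.thr 19 18 (.thr 23 27 (.thr 3 43 (.thr 51 35 (.dbl 0 34 42)))))) .nd))))) (.rp 47 (.thr 60 62 (.thr 15 30 (.thr 48 26 (.thr 52 56 (.thr 22 7 (.thr 23 20 (.dbl 3 41 43))))))) (.rp 31 (.thr 60 62 (.thr 0 42 (.thr 20 40 (.thr 22 23 (.thr 52 7 (.thr 48 56 (.dbl 15 26 30))))))) (.rp 30 (.thr 60 62 (.thr 0 42 (.thr 20 40 (.thr 22 23 (.thr 52 7 (.thr 48 56 (.thr 16 32 (.dbl 26 15 31)))))))) (.rp 15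 (.thr 60 62 (.thr 0 42 (.thr 20 40 (.thr 22 23 (.thr 52 7 (.thr 36 4 (.thr 48 56 (.thr 16 32 (.dbl 24 12 28))))))))) (.rp 14 (.thr 60 62 (.thr 42 0 (.thr 47 32 (.dbl 15 30 31)))) .nd)))))))))) .nd)))))))) .nd))))) (.rp 45 (.str 7 (.nv (.thr 6 4 (.thr 9 1 (.thr 3 12 (.thr 22 52 (.thr 41 60 (.dbl 25 49 57)))))) (.nv (.thr 1 9 (.thr 22 52 (.thr 41 61 (.thr 49 25 (.thr 3 60 (.thr 33 17 (.thr 48 18 (.dbl 15 11 26)))))))) (.nv (.thr 1 9 (.thr 22 52 (.thr 20 23 (.thr 25 49 (.thr 28 19 (.thr 16 24 (.thr 29 17 (.dbl 31 26 30)))))))) (.nv (.thr 6 4 (.thr 22 52 (.thr 9 1 (.thr 3 12 (.thr 25 49 (.dbl 41 57 60)))))) (.rp 55 (.thr 6 4 (.thr 9 1 (.thr 12 3 (.thr 15 14 (.thr 25 49 (.thr 26 48 (.thr 31 16 (.thr 63 47 (.dbl 29 17 46))))))))) (.rp 54 (.thr 6 4 (.thr 9 1 (.thr 12 3 (.thr 15 14 (.thr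 25 49 (.thr 26 48 (.thr 31 16 (.thr 63 47 (.dbl 29 17 46))))))))) (.rp 52 (.thr 6 4 (.thr 9 1 (.thr 12 3 (.thr 15 14 (.thr 25 49 (.thr 26 48 (.thr 31 16 (.thr 63 47 (.dbl 29 17 46))))))))) (.rp 49 (.thr 6 4 (.thr 22 52 (.thr 9 1 (.thr 3 12 (.thr 15 11 (.thr 26 48 (.thr 31 16 (.thr 63 47 (.dbl 23 20 43))))))))) (.rp 25 (.thr 22 52 (.thr 23 20 (.thr 1 9 (.thr 41 61 (.thr 3 60 (.thr 0 2 (.dbl 63 42 43))))))) (.rp 22 (.thr 6 4 (.thr 9 1 (.thr 12 3 (.thr 15 14 (.thr 25 49 (.thr 26 48 (.thr 31 16 (.thr 63 47 (.dbl 29 17 46))))))))) (.rp 9 (.thr 22 52 (.thr 23 20 (.thr 25 49 (.thr 17 29 (.thr 19 28 (.thr 16 18 (.dbl 31 26 27))))))) (.rp 8 (.thr 22 52 (.thr 23 20 (.thr 25 49 (.thr 17 29 (.thr 19 28 (.thr 16 18 (.dbl 31 26 27))))))) (.rp 1 (.thr 22 52 (.thr 23 20 (.thr 25 49 (.thr 17 29 (.thr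 19 28 (.thr 16 18 (.dbl 31 26 27))))))) .nd)))))))))))))) (.rp 41 (.thr 9 1 (.str 6 (.nv (.thr 12 3 (.thr 15 14 (.thr 25 49 (.thr 26 48 (.thr 31 16 (.thr 63 47 (.dbl 29 17 46))))))) (.nv (.thr 4 7 (.thr 12 3 (.thr 0 8 (.thr 25 49 (.thr 63 42 (.dbl 29 17 46)))))) (.nv (.thr 7 4 (.thr 22 52 (.thr 25 49 (.thr 17 29 (.thr 19 28 (.thr 16 18 (.thr 31 26 (.dbl 23 20 27)))))))) (.nv (.thr 12 3 (.thr 15 14 (.thr 26 48 (.thr 4 7 (.thr 31 16 (.thr 0 8 (.dbl 63 42 47))))))) (.rp 58 (.thr 4 7 (.thr 12 3 (.thr 15 14 (.thr 0 8 (.thr 63 42 (.thr 26 48 (.dbl 31 16 47))))))) (.rp 44 (.str 35 (.nv (.thr 7 4 (.thr 22 52 (.thr 25 49 (.thr 19 28 (.dbl 3 12 51))))) (.nv (.thr 3 12 (.thr 51 19 (.thr 7 4 (.thr 15 11 (.thr 39 27 (.thr 23 55 (.dbl 43 47 63))))))) (.nv (.thr 4 7 (.thr 12 3 (.thr 0 8 (.thr 25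 49 (.thr 63 42 (.dbl 29 17 46)))))) (.nv (.thr 7 4 (.thr 3 12 (.thr 22 52 (.thr 19 51 (.dbl 25 28 49))))) (.rp 60 (.thr 25 49 (.thr 7 4 (.thr 22 52 (.thr 28 19 (.thr 20 23 (.thr 16 24 (.thr 31 26 (.dbl 29 17 30)))))))) (.rp 12 (.thr 25 49 (.thr 7 4 (.thr 22 52 (.thr 28 19 (.thr 20 23 (.thr 16 24 (.thr 31 26 (.dbl 29 17 30)))))))) (.rp 7 (.thr 25 49 (.thr 12 3 (.thr 15 14 (.thr 26 48 (.thr 31 16 (.thr 63 47 (.dbl 29 17 46))))))) (.rp 4 (.thr 25 49 (.thr 12 3 (.thr 15 14 (.thr 26 48 (.thr 31 16 (.thr 63 47 (.dbl 29 17 46))))))) (.rp 3 (.thr 25 49 (.thr 17 29 (.thr 7 4 (.thr 22 52 (.thr 19 28 (.thr 16 18 (.thr 31 26 (.dbl 23 20 27)))))))) .nd)))))))))) (.rp 35 (.str 44 (.nv (.thr 4 7 (.thr 12 3 (.thr 0 8 (.thr 15 14 (.thr 26 48 (.thr 31 16 (.dbl 63 42 47))))))) (.nv (.thr 12 3 (.thr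 60 28 (.thr 15 14 (.thr 45 30 (.thr 46 47 (.dbl 29 61 63)))))) (.nv (.thr 7 4 (.thr 12 3 (.thr 25 49 (.thr 28 60 (.dbl 22 19 52))))) (.rp 60 (.thr 7 4 (.thr 22 52 (.thr 20 23 (.thr 25 49 (.thr 28 19 (.thr 16 24 (.thr 31 26 (.dbl 29 17 30)))))))) (.rp 51 (.thr 7 4 (.thr 22 52 (.thr 25 49 (.thr 19 28 (.thr 17 29 (.thr 16 18 (.thr 31 26 (.dbl 23 20 27)))))))) (.rp 19 (.thr 7 4 (.thr 22 52 (.thr 3 12 (.thr 15 11 (.thr 26 48 (.thr 31 16 (.thr 63 47 (.dbl 23 20 43)))))))) (.rp 12 (.thr 7 4 (.thr 22 52 (.thr 20 23 (.thr 25 49 (.thr 28 19 (.thr 16 24 (.thr 31 26 (.dbl 29 17 30)))))))) (.rp 3 (.thr 7 4 (.thr 22 52 (.thr 25 49 (.thr 19 28 (.thr 17 29 (.thr 16 18 (.thr 31 26 (.dbl 23 20 27)))))))) (.rp 0 (.thr 7 4 (.thr 22 52 (.thr 25 49 (.thr 28 19 (.dbl 12 3 60))))) .nd)))))))))) (.rp 26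 (.thr 4 7 (.thr 12 3 (.thr 0 8 (.thr 42 63 (.thr 32 47 (.thr 48 16 (.thr 36 24 (.thr 20 52 (.dbl 40 44 60))))))))) (.rp 22 (.thr 7 4 (.thr 3 12 (.thr 15 11 (.thr 25 49 (.thr 26 48 (.thr 31 16 (.thr 63 47 (.thr 23 43 (.dbl 27 19 24))))))))) .nd))))))))))) (.rp 29 (.thr 1 9 (.thr 41 61 (.thr 33 45 (.dbl 49 17 25)))) (.rp 25 (.str 41 (.nv (.dbl 1 9 61) (.rp 61 (.str 15 (.nv (.thr 45 33 (.thr 9 1 (.thr 12 14 (.thr 60 30 (.dbl 3 6 22))))) (.nv (.thr 12 14 (.thr 9 1 (.thr 26 48 (.thr 11 56 (.dbl 3 6 7))))) (.nv (.thr 45 33 (.thr 60 30 (.thr 22 3 (.thr 52 7 (.dbl 48 26 56))))) (.rp 60 (.thr 33 45 (.thr 9 1 (.thr 48 26 (.thr 3 18 (.dbl 12 6 14))))) (.rp 57 (.str 49 (.nv (.thr 33 45 (.dbl 1 9 17)) (.rp 51 (.thr 12 14 (.thr 33 45 (.dbl 1 9 17))) (.rp 45 (.thr 9 1 (.thr 12 14 (.thr 26 48 (.thr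 11 56 (.dbl 3 6 7))))) (.rp 33 (.thr 9 1 (.thr 12 14 (.thr 26 48 (.thr 11 56 (.dbl 3 6 7))))) (.rp 17 (.thr 45 33 (.thr 9 1 (.thr 12 14 (.thr 60 30 (.dbl 3 6 22))))) (.rp 12 (.str 51 (.nv (.thr 1 9 (.dbl 33 17 45)) (.nv (.dbl 48 26 50) .nd))) (.rp 9 (.thr 45 33 (.thr 60 30 (.thr 3 22 (.thr 11 7 (.dbl 26 48 56))))) (.rp 1 (.thr 45 33 (.thr 60 30 (.thr 3 22 (.thr 11 7 (.dbl 26 48 56))))) .nd))))))))) (.rp 49 (.str 57 (.nv (.thr 12 14 (.thr 45 33 (.thr 60 30 (.thr 3 22 (.dbl 9 1 6))))) (.nv (.thr 1 9 (.thr 26 48 (.thr 31 16 (.thr 63 47 (.thr 0 42 (.thr 3 2 (.dbl 11 7 56))))))) (.nv (.thr 45 33 (.thr 60 30 (.thr 22 3 (.thr 52 7 (.dbl 48 26 56))))) (.rp 26 (.thr 45 33 (.thr 60 30 (.thr 22 3 (.thr 7 52 (.thr 4 6 (.thr 20 23 (.thr 0 40 (.dbl 12 8 14)))))))) (.rp 22 (.thr 9 1 (.thr 12 14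 (.thr 26 48 (.thr 11 56 (.dbl 3 6 7))))) (.rp 12 (.str 51 (.nv (.thr 26 48 (.thr 11 56 (.thr 3 7 (.dbl 60 22 54)))) (.nv (.thr 45 33 (.dbl 60 30 54)) (.rp 60 (.thr 26 48 (.thr 56 11 (.thr 59 58 (.thr 63 55 (.dbl 31 16 47))))) (.rp 54 (.thr 33 45 (.thr 48 26 (.thr 3 18 (.thr 7 11 (.dbl 22 52 60))))) .nd))))) (.rp 3 (.thr 12 14 (.thr 26 48 (.thr 31 16 (.thr 63 47 (.thr 29 46 (.thr 30 28 (.dbl 45 33 60))))))) (.rp 1 (.thr 33 45 (.thr 48 26 (.thr 3 18 (.thr 7 11 (.dbl 22 52 60))))) .nd))))))))) (.rp 26 (.thr 45 33 (.thr 60 30 (.thr 22 3 (.thr 7 52 (.thr 4 6 (.thr 20 23 (.thr 0 40 (.dbl 12 8 14)))))))) (.rp 12 (.str 51 (.nv (.thr 26 48 (.thr 11 56 (.thr 27 39 (.thr 31 16 (.thr 59 43 (.dbl 63 47 55)))))) (.nv (.thr 1 9 (.thr 33 45 (.thr 49 17 (.dbl 48 26 50)))) (.rp 57 (.str 49 (.nv (.thr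 1 9 (.dbl 33 17 45)) (.nv (.dbl 48 26 50) .nd))) (.rp 49 (.str 57 (.nv (.thr 26 48 (.thr 11 56 (.thr 3 7 (.dbl 60 22 54)))) (.nv (.thr 45 33 (.dbl 60 30 54)) (.rp 60 (.thr 26 48 (.thr 56 11 (.thr 59 58 (.thr 63 55 (.dbl 31 16 47))))) (.rp 54 (.thr 33 45 (.thr 48 26 (.thr 3 18 (.thr 7 11 (.dbl 22 52 60))))) .nd))))) (.rp 48 (.thr 1 9 (.thr 45 33 (.thr 60 30 (.thr 3 22 (.thr 0 2 (.thr 40 20 (.dbl 42 43 63))))))) (.rp 26 (.thr 45 33 (.thr 60 30 (.thr 22 3 (.thr 23 20 (.thr 7 52 (.dbl 39 27 55)))))) (.rp 11 (.thr 45 33 (.thr 60 30 (.thr 22 3 (.thr 52 7 (.dbl 48 26 56))))) .nd)))))))) (.rp 3 (.thr 12 14 (.thr 26 48 (.thr 31 16 (.thr 63 47 (.thr 29 46 (.thr 30 28 (.dbl 45 33 60))))))) .nd)))))))))) (.rp 51 (.str 12 (.nv (.dbl 1 9 61) (.rp 61 (.thr 9 1 (.thr 45 33 (.thr 15 14 (.thr 60 30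 (.dbl 3 6 22))))) (.rp 9 (.thr 61 1 (.dbl 45 29 33)) (.rp 1 (.thr 45 33 (.thr 29 61 (.thr 15 14 (.thr 26 48 (.thr 31 16 (.dbl 63 46 47)))))) .nd))))) (.rp 12 (.str 51 (.nv (.dbl 1 9 61) (.rp 61 (.thr 1 9 (.thr 33 45 (.thr 49 17 (.thr 48 50 (.thr 26 15 (.thr 16 31 (.thr 0 32 (.dbl 3 2 18)))))))) (.rp 9 (.thr 61 1 (.dbl 45 29 33)) (.rp 1 (.str 63 (.nv (.thr 0 42 (.thr 33 45 (.thr 34 17 (.thr 32 35 (.thr 48 16 (.thr 18 3 (.dbl 50 2 49))))))) (.nv (.thr 42 0 (.thr 43 40 (.thr 3 23 (.thr 35 19 (.dbl 47 32 39))))) (.nv (.thr 45 33 (.thr 61 29 (.thr 60 62 (.thr 15 30 (.thr 31 47 (.dbl 26 16 48)))))) .nd)))) .nd))))) (.rp 9 (.thr 45 33 (.dbl 61 1 29)) (.rp 1 (.str 12 (.nv (.thr 15 14 (.thr 45 33 (.thr 29 61 (.thr 30 60 (.thr 31 28 (.dbl 63 46 47)))))) (.nv (.thr 15 14 (.thr 26 48 (.thr 11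 56 (.thr 3 7 (.thr 31 16 (.thr 63 47 (.thr 23 43 (.dbl 22 20 60)))))))) (.nv (.thr 45 33 (.thr 29 61 (.thr 63 46 (.thr 42 0 (.thr 47 32 (.dbl 15 14 31)))))) (.nv (.thr 15 14 (.thr 26 48 (.thr 11 56 (.thr 3 7 (.thr 45 33 (.dbl 60 22 30)))))) (.rp 63 (.thr 45 33 (.thr 15 14 (.thr 60 30 (.thr 3 22 (.thr 11 7 (.dbl 26 48 56)))))) (.rp 15 (.thr 45 33 (.thr 29 61 (.thr 63 46 (.thr 42 0 (.thr 43 40 (.thr 3 23 (.thr 6 9 (.thr 7 4 (.dbl 22 52 60))))))))) (.rp 14 (.thr 45 33 (.thr 29 61 (.thr 63 46 (.thr 42 0 (.thr 43 40 (.thr 3 23 (.thr 60 22 (.thr 28 44 (.dbl 30 15 31))))))))) (.rp 2 (.thr 45 33 (.thr 29 61 (.thr 46 63 (.thr 44 47 (.thr 60 28 (.dbl 15 14 30)))))) .nd))))))))) .nd))))))) (.rp 17 (.str 15 (.nv (.thr 1 9 (.thr 12 14 (.thr 61 41 (.thr 29 45 (.thr 63 46 (.thr 42 0 (.dbl 47 31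 32))))))) (.nv (.thr 12 14 (.thr 26 48 (.thr 31 16 (.thr 63 47 (.thr 29 46 (.thr 30 28 (.dbl 45 60 61))))))) (.nv (.thr 1 9 (.thr 26 48 (.thr 41 61 (.thr 11 56 (.thr 3 7 (.thr 45 33 (.dbl 60 22 30))))))) (.rp 63 (.thr 1 9 (.thr 41 61 (.thr 45 33 (.thr 60 30 (.thr 3 22 (.thr 11 7 (.dbl 26 48 56))))))) (.rp 61 (.thr 9 1 (.thr 12 14 (.thr 6 3 (.thr 4 7 (.thr 0 8 (.thr 63 42 (.thr 31 47 (.dbl 26 16 48)))))))) (.rp 45 (.thr 1 9 (.thr 41 61 (.thr 26 48 (.thr 31 16 (.thr 63 47 (.thr 0 42 (.thr 3 2 (.dbl 11 7 56)))))))) (.rp 30 (.thr 1 9 (.thr 61 41 (.thr 29 45 (.thr 12 14 (.thr 26 48 (.thr 31 16 (.dbl 63 46 47))))))) (.rp 26 (.thr 1 9 (.thr 61 41 (.thr 45 29 (.thr 60 30 (.thr 63 62 (.thr 42 0 (.dbl 47 31 32))))))) .nd))))))))) (.rp 9 (.str 26 (.nv (.thr 15 48 (.thr 12 14 (.thr 31 16 (.thr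 63 47 (.thr 29 46 (.thr 30 28 (.dbl 45 60 61))))))) (.nv (.thr 15 48 (.thr 12 14 (.thr 31 16 (.thr 63 47 (.thr 29 46 (.dbl 25 17 49)))))) (.nv (.thr 16 31 (.thr 25 49 (.thr 17 29 (.thr 19 18 (.thr 24 27 (.dbl 28 20 22)))))) (.rp 31 (.thr 15 48 (.thr 12 14 (.thr 25 49 (.thr 17 29 (.thr 27 24 (.thr 51 39 (.thr 0 34 (.thr 8 4 (.dbl 42 59 63))))))))) (.rp 30 (.thr 16 31 (.thr 25 49 (.thr 24 27 (.thr 28 20 (.thr 17 29 (.dbl 19 18 22)))))) (.rp 29 (.thr 16 31 (.thr 48 15 (.thr 0 32 (.thr 25 49 (.thr 24 27 (.thr 12 36 (.thr 8 4 (.dbl 42 59 63)))))))) (.rp 16 (.thr 15 48 (.thr 12 14 (.thr 25 49 (.thr 29 17 (.thr 63 46 (.thr 47 31 (.dbl 42 0 32))))))) (.rp 11 (.str 8 (.nv (.thr 15 48 (.thr 12 14 (.thr 0 4 (.thr 25 49 (.dbl 42 59 63))))) (.nv (.thr 15 48 (.thr 25 49 (.thr 29 17 (.thr 31 16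 (.thr 30 28 (.dbl 45 60 61)))))) (.nv (.thr 15 48 (.thr 12 14 (.thr 0 4 (.thr 31 16 (.dbl 63 42 47))))) (.rp 63 (.thr 16 31 (.thr 25 49 (.thr 17 29 (.thr 19 18 (.thr 28 22 (.dbl 24 20 27)))))) (.rp 58 (.thr 16 31 (.thr 48 15 (.thr 0 32 (.thr 25 49 (.dbl 42 59 63))))) (.rp 48 (.thr 16 31 (.thr 25 49 (.thr 17 29 (.thr 19 18 (.thr 28 22 (.dbl 24 20 27)))))) (.rp 15 (.thr 16 31 (.thr 25 49 (.thr 17 29 (.thr 19 18 (.thr 28 22 (.dbl 24 20 27)))))) (.rp 0 (.thr 16 31 (.thr 25 49 (.thr 17 29 (.thr 19 18 (.thr 28 22 (.dbl 24 20 27)))))) .nd))))))))) (.rp 8 (.str 11 (.nv (.thr 25 49 (.thr 29 17 (.thr 61 45 (.dbl 41 1 56)))) (.nv (.thr 15 48 (.thr 3 7 (.thr 41 56 (.thr 45 33 (.dbl 60 22 30))))) (.nv (.thr 41 56 (.thr 45 33 (.dbl 61 1 29))) (.rp 56 (.thr 16 31 (.thr 25 49 (.thr 24 27 (.thr 28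 20 (.thr 19 22 (.dbl 17 18 29)))))) (.rp 45 (.thr 16 31 (.thr 25 49 (.thr 24 27 (.thr 28 20 (.thr 19 22 (.dbl 17 18 29)))))) (.rp 41 (.thr 16 31 (.thr 25 49 (.thr 24 27 (.thr 28 20 (.thr 19 22 (.dbl 17 18 29)))))) (.rp 33 (.thr 41 56 (.thr 61 1 (.thr 29 45 (.dbl 25 17 49)))) .nd)))))))) .nd)))))))))) (.rp 1 (.str 26 (.nv (.thr 15 48 (.thr 12 14 (.thr 31 16 (.thr 63 47 (.thr 29 46 (.thr 30 28 (.dbl 45 60 61))))))) (.nv (.thr 15 48 (.thr 12 14 (.thr 31 16 (.thr 63 47 (.thr 29 46 (.dbl 25 17 49)))))) (.nv (.thr 16 31 (.thr 25 49 (.thr 17 29 (.thr 19 18 (.thr 24 27 (.dbl 28 20 22)))))) (.rp 31 (.thr 15 48 (.thr 12 14 (.thr 25 49 (.thr 17 29 (.thr 27 24 (.thr 51 39 (.thr 0 34 (.thr 8 4 (.dbl 42 59 63))))))))) (.rp 30 (.thr 16 31 (.thr 25 49 (.thr 24 27 (.thr 28 20 (.thr 17 29 (.dbl 19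 18 22)))))) (.rp 29 (.thr 16 31 (.thr 48 15 (.thr 0 32 (.thr 25 49 (.thr 24 27 (.thr 12 36 (.thr 8 4 (.dbl 42 59 63)))))))) (.rp 16 (.thr 15 48 (.thr 12 14 (.thr 25 49 (.thr 17 29 (.thr 27 24 (.thr 51 39 (.thr 0 34 (.thr 8 4 (.dbl 42 59 63))))))))) .nd)))))))) .nd))))))))))))

theorem w371 : WinAt (137441050656, 9007474132648960) :=
  chF (K := []) kn c371 137441050656 9007474132648960 53
    [] (by decide +kernel) (by decide +kernel)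

/-- A certificate. -/
noncomputable def c372 : Ct := (.str 13 (.nv (.thr 25 49 (.thr 29 17 (.thr 61 45 (.dbl 1 9 41)))) (.nv (.thr 1 9 (.thr 61 41 (.thr 25 49 (.dbl 29 17 45)))) (.rp 61 (.thr 49 25 (.str 0 (.nv (.thr 1 9 (.thr 3 2 (.thr 33 17 (.thr 48 18 (.thr 16 32 (.dbl 26 15 31)))))) (.nv (.thr 42 63 (.thr 32 47 (.thr 48 16 (.thr 51 50 (.thr 17 34 (.dbl 1 9 33)))))) (.nv (.thr 1 9 (.thr 3 2 (.thr 33 17 (.thr 41 45 (.thr 22 60 (.thr 23 20 (.dbl 63 42 43))))))) (.nv (.thr 1 9 (.thr 17 33 (.thr 51 34 (.thr 48 50 (.thr 32 16 (.dbl 42 47 63)))))) (.rp 33 (.thr 9 1 (.thr 42 63 (.thr 32 47 (.thr 48 16 (.thr 15 26 (.thr 12 14 (.thr 4 8 (.dbl 6 3 7)))))))) (.rp 17 (.thr 9 1 (.thr 42 63 (.thr 32 47 (.thr 48 16 (.thr 15 26 (.thr 12 14 (.thr 4 8 (.dbl 6 3 7)))))))) (.rp 9 (.thr 42 63 (.thr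 32 47 (.thr 48 16 (.thr 51 50 (.thr 34 17 (.thr 15 26 (.thr 12 14 (.thr 38 46 (.dbl 4 8 55))))))))) (.rp 2 (.thr 1 9 (.thr 17 33 (.thr 51 34 (.thr 42 63 (.thr 32 47 (.dbl 48 16 50)))))) (.rp 1 (.thr 42 63 (.thr 32 47 (.thr 48 16 (.thr 51 50 (.thr 34 17 (.thr 15 26 (.thr 12 14 (.thr 38 46 (.dbl 4 8 55))))))))) .nd))))))))))) (.rp 49 (.str 61 (.nv (.dbl 1 9 41) (.rp 41 (.str 15 (.nv (.thr 1 9 (.thr 26 48 (.thr 45 29 (.thr 60 30 (.thr 14 12 (.thr 63 62 (.dbl 31 16 47))))))) (.nv (.thr 12 14 (.thr 26 48 (.thr 31 16 (.thr 29 45 (.dbl 63 46 47))))) (.nv (.thr 45 29 (.thr 60 30 (.thr 63 62 (.thr 42 0 (.dbl 47 31 32))))) (.rp 63 (.thr 45 29 (.thr 9 1 (.thr 12 14 (.thr 6 3 (.thr 7 4 (.thr 52 22 (.thr 60 30 (.dbl 48 26 56)))))))) (.rp 47 (.thr 29 45 (.thr 9 1 (.thr 12 14 (.thr 6 3 (.thr 4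 7 (.thr 0 8 (.dbl 63 42 46))))))) (.rp 45 (.thr 9 1 (.thr 12 14 (.thr 6 3 (.thr 4 7 (.thr 0 8 (.thr 63 42 (.thr 31 47 (.dbl 26 16 48)))))))) (.rp 31 (.thr 29 45 (.thr 9 1 (.thr 12 14 (.thr 6 3 (.thr 4 7 (.thr 0 8 (.dbl 63 42 46))))))) (.rp 29 (.thr 9 1 (.thr 12 14 (.thr 6 3 (.thr 4 7 (.thr 0 8 (.thr 63 42 (.thr 31 47 (.dbl 26 16 48)))))))) (.rp 14 (.thr 45 29 (.thr 60 30 (.thr 26 48 (.thr 31 16 (.dbl 63 47 62))))) .nd)))))))))) (.rp 9 (.thr 45 29 (.dbl 41 1 33)) (.rp 1 (.thr 45 29 (.thr 33 41 (.str 15 (.nv (.thr 60 30 (.thr 63 62 (.thr 42 0 (.dbl 47 31 32)))) (.nv (.thr 12 14 (.thr 48 26 (.thr 3 18 (.thr 6 9 (.dbl 7 4 11))))) (.nv (.thr 60 30 (.thr 63 62 (.thr 31 47 (.dbl 26 16 48)))) (.rp 30 (.str 47 (.nv (.thr 31 63 (.dbl 26 16 48)) (.nv (.thr 42 32 (.dbl 63 0 31)) (.rp 63 (.thr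 46 44 (.thr 42 32 (.thr 38 34 (.thr 14 12 (.dbl 26 48 50))))) (.rp 31 (.str 28 (.nv (.thr 44 46 (.dbl 12 14 60)) (.rp 62 (.thr 46 44 (.thr 14 12 (.thr 42 32 (.thr 38 34 (.dbl 26 48 50))))) (.rp 60 (.thr 46 44 (.thr 14 12 (.thr 42 32 (.thr 38 34 (.dbl 26 48 50))))) (.rp 46 (.thr 42 32 (.thr 63 0 (.thr 62 60 (.thr 48 26 (.thr 3 18 (.thr 22 2 (.dbl 7 11 52))))))) (.rp 44 (.thr 12 14 (.thr 48 26 (.thr 24 36 (.thr 16 20 (.dbl 32 0 42))))) (.rp 14 (.thr 46 44 (.thr 42 32 (.thr 63 0 (.thr 62 60 (.thr 38 34 (.thr 4 55 (.thr 7 6 (.thr 2 22 (.thr 3 11 (.dbl 48 18 26)))))))))) (.rp 12 (.thr 46 44 (.thr 42 32 (.thr 38 34 (.thr 4 55 (.thr 7 6 (.thr 3 11 (.dbl 48 18 26))))))) .nd)))))))) .nd))))) (.rp 14 (.thr 60 30 (.thr 26 48 (.thr 31 16 (.dbl 63 47 62)))) .nd)))))))) .nd))))) (.rp 45 (.str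 7 (.nv (.thr 6 4 (.thr 9 1 (.thr 3 12 (.thr 22 52 (.thr 54 38 (.thr 41 60 (.dbl 25 49 57))))))) (.nv (.thr 4 6 (.thr 25 49 (.thr 38 55 (.thr 12 51 (.thr 0 8 (.thr 63 42 (.dbl 29 17 46))))))) (.nv (.thr 1 9 (.thr 22 52 (.thr 41 61 (.thr 49 25 (.thr 3 60 (.thr 33 17 (.thr 48 18 (.dbl 15 11 26)))))))) (.nv (.thr 6 4 (.thr 22 52 (.thr 9 1 (.thr 12 3 (.thr 25 49 (.dbl 38 51 54)))))) (.rp 54 (.thr 4 6 (.thr 38 55 (.thr 52 22 (.thr 36 20 (.thr 25 49 (.thr 12 51 (.thr 48 24 (.dbl 15 14 26)))))))) (.rp 52 (.thr 6 4 (.thr 9 1 (.thr 12 3 (.thr 15 14 (.thr 25 49 (.thr 26 48 (.thr 31 16 (.thr 63 47 (.dbl 29 17 46))))))))) (.rp 49 (.thr 6 4 (.thr 22 52 (.thr 9 1 (.thr 3 12 (.thr 15 11 (.thr 26 48 (.thr 31 16 (.thr 63 47 (.dbl 23 20 43))))))))) (.rp 25 (.thr 22 52 (.thr 23 20 (.thr 1 9 (.thr 41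 61 (.thr 3 60 (.thr 0 2 (.dbl 63 42 43))))))) (.rp 9 (.thr 4 6 (.thr 38 55 (.thr 25 49 (.thr 29 17 (.thr 12 51 (.thr 63 46 (.dbl 0 8 42))))))) .nd)))))))))) (.rp 41 (.str 7 (.nv (.thr 4 6 (.thr 25 49 (.thr 29 17 (.thr 38 55 (.thr 12 51 (.thr 63 46 (.dbl 0 8 42))))))) (.nv (.thr 1 9 (.thr 22 52 (.thr 20 23 (.thr 25 49 (.thr 28 19 (.thr 16 24 (.thr 29 17 (.dbl 31 26 30)))))))) (.nv (.thr 9 1 (.thr 25 49 (.thr 6 4 (.thr 12 3 (.thr 22 52 (.dbl 38 51 54)))))) (.rp 61 (.thr 9 1 (.thr 6 4 (.thr 3 12 (.thr 15 11 (.thr 22 52 (.thr 26 48 (.thr 31 16 (.thr 63 47 (.dbl 23 20 43))))))))) (.rp 57 (.thr 9 1 (.thr 6 4 (.thr 3 12 (.thr 15 11 (.thr 22 52 (.thr 26 48 (.thr 31 16 (.thr 63 47 (.dbl 23 20 43))))))))) (.rp 55 (.thr 9 1 (.thr 25 49 (.thr 6 4 (.thr 12 3 (.thr 38 51 (.dbl 22 52 54)))))) (.rp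 54 (.thr 25 49 (.thr 29 17 (.thr 4 6 (.thr 38 55 (.thr 52 22 (.thr 12 51 (.thr 0 8 (.dbl 63 42 46)))))))) (.rp 52 (.thr 9 1 (.thr 25 49 (.thr 6 4 (.thr 12 3 (.thr 15 14 (.thr 26 48 (.thr 31 16 (.thr 63 47 (.dbl 29 17 46))))))))) (.rp 49 (.thr 9 1 (.thr 6 4 (.thr 3 12 (.thr 15 11 (.thr 22 52 (.thr 26 48 (.thr 31 16 (.thr 63 47 (.dbl 23 20 43))))))))) (.rp 25 (.thr 9 1 (.thr 6 4 (.thr 3 12 (.thr 15 11 (.thr 22 52 (.thr 26 48 (.thr 31 16 (.thr 63 47 (.dbl 23 20 43))))))))) (.rp 17 (.thr 25 49 (.thr 4 6 (.thr 38 55 (.thr 12 51 (.thr 52 22 (.thr 36 20 (.thr 48 24 (.dbl 15 14 26)))))))) (.rp 1 (.thr 25 49 (.thr 17 29 (.thr 22 52 (.thr 23 20 (.thr 19 28 (.thr 31 27 (.dbl 16 18 26))))))) .nd))))))))))))) (.rp 29 (.thr 1 9 (.thr 41 61 (.thr 33 45 (.dbl 49 17 25)))) (.rp 25 (.str 15 (.nv (.thr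 1 9 (.thr 41 61 (.thr 45 33 (.thr 60 30 (.thr 3 22 (.thr 11 7 (.dbl 26 48 56))))))) (.nv (.thr 1 9 (.thr 14 12 (.thr 26 48 (.thr 38 50 (.thr 4 55 (.thr 41 61 (.thr 11 56 (.dbl 7 3 6)))))))) (.nv (.thr 12 14 (.thr 26 48 (.thr 31 16 (.thr 63 47 (.thr 29 46 (.thr 30 28 (.dbl 45 60 61))))))) (.nv (.thr 1 9 (.thr 26 48 (.thr 41 61 (.thr 45 33 (.thr 11 56 (.thr 60 30 (.dbl 3 7 22))))))) (.rp 61 (.thr 9 1 (.thr 12 14 (.thr 6 3 (.thr 4 7 (.thr 0 8 (.thr 42 63 (.thr 32 47 (.dbl 48 16 26)))))))) (.rp 60 (.thr 1 9 (.thr 12 14 (.thr 26 48 (.thr 31 16 (.thr 63 47 (.thr 29 46 (.dbl 61 41 45))))))) (.rp 48 (.thr 1 9 (.thr 41 61 (.thr 45 33 (.thr 60 30 (.thr 3 22 (.thr 0 2 (.thr 40 20 (.dbl 42 43 63)))))))) (.rp 26 (.thr 1 9 (.thr 41 61 (.thr 45 33 (.thr 12 14 (.thr 60 30 (.thr 44 28 (.thr 38 35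 (.thr 4 55 (.thr 22 3 (.dbl 7 6 52)))))))))) .nd))))))))) (.rp 17 (.str 15 (.nv (.thr 1 9 (.thr 14 12 (.thr 26 48 (.thr 38 50 (.thr 4 55 (.thr 41 61 (.thr 11 56 (.dbl 7 3 6)))))))) (.nv (.thr 1 9 (.thr 12 14 (.thr 61 41 (.thr 29 45 (.thr 63 46 (.thr 42 0 (.dbl 47 31 32))))))) (.nv (.thr 12 14 (.thr 26 48 (.thr 31 16 (.thr 63 47 (.thr 29 46 (.thr 30 28 (.dbl 45 60 61))))))) (.nv (.thr 1 9 (.thr 41 61 (.thr 45 33 (.thr 60 30 (.thr 3 22 (.thr 26 48 (.dbl 11 7 56))))))) (.rp 63 (.thr 1 9 (.thr 41 61 (.thr 45 33 (.thr 60 30 (.thr 3 22 (.thr 11 7 (.dbl 26 48 56))))))) (.rp 61 (.thr 9 1 (.thr 12 14 (.thr 6 3 (.thr 4 7 (.thr 0 8 (.thr 63 42 (.thr 31 47 (.dbl 26 16 48)))))))) .nd))))))) (.rp 9 (.thr 25 49 (.thr 29 17 (.thr 61 45 (.thr 1 41 (.str 26 (.nv (.thr 15 48 (.thr 12 14 (.thr 63 46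 (.thr 47 31 (.dbl 42 0 32))))) (.nv (.thr 27 24 (.thr 31 16 (.thr 19 23 (.dbl 28 22 30)))) (.rp 31 (.thr 15 48 (.thr 12 14 (.thr 63 46 (.thr 42 0 (.thr 51 38 (.dbl 59 8 55)))))) (.rp 30 (.thr 15 48 (.thr 12 14 (.thr 31 16 (.dbl 63 46 47)))) (.rp 11 (.str 8 (.nv (.thr 15 48 (.thr 12 14 (.thr 0 4 (.dbl 42 59 63)))) (.nv (.thr 27 24 (.thr 31 16 (.thr 19 23 (.dbl 28 22 30)))) .nd))) (.rp 8 (.str 11 (.nv (.thr 27 24 (.thr 31 16 (.thr 19 23 (.dbl 28 22 30)))) (.nv (.thr 15 48 (.thr 12 14 (.thr 63 46 (.thr 0 42 (.dbl 3 2 7))))) (.nv (.thr 31 16 (.thr 28 30 (.thr 19 22 (.dbl 27 23 24)))) (.rp 30 (.thr 15 48 (.thr 31 16 (.thr 63 47 (.dbl 12 14 46)))) .nd))))) .nd))))))))))) (.rp 1 (.str 12 (.nv (.thr 15 14 (.thr 25 49 (.thr 38 51 (.thr 4 55 (.thr 48 26 (.thr 36 24 (.thr 52 20 (.dbl 7 6 22))))))))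 (.nv (.thr 15 14 (.thr 26 48 (.thr 31 16 (.thr 63 47 (.thr 29 46 (.thr 30 28 (.dbl 45 60 61))))))) (.nv (.thr 25 49 (.thr 17 29 (.thr 51 38 (.thr 0 34 (.thr 8 4 (.dbl 42 59 63)))))) (.rp 63 (.thr 25 49 (.thr 17 29 (.thr 15 14 (.thr 51 38 (.thr 0 34 (.thr 8 4 (.thr 42 59 (.thr 32 47 (.dbl 48 16 26))))))))) (.rp 61 (.thr 15 14 (.thr 26 48 (.thr 31 16 (.thr 63 47 (.thr 29 46 (.dbl 25 17 49)))))) .nd)))))) .nd))))))))))))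

theorem w372 : WinAt (137441050656, 9007749010555904) :=
  chF (K := []) kn c372 137441050656 9007749010555904 53
    [] (by decide +kernel) (by decide +kernel)

/-- A certificate. -/
noncomputable def c373 : Ct := (.str 1 (.nv (.thr 41 61 (.thr 33 45 (.thr 49 17 (.dbl 13 9 25)))) (.nv (.thr 13 9 (.thr 49 25 (.thr 41 61 (.dbl 33 17 45)))) (.rp 61 (.str 49 (.nv (.dbl 13 9 25) (.rp 25 (.str 4 (.nv (.thr 38 55 (.thr 36 39 (.thr 52 20 (.dbl 7 6 22)))) (.nv (.thr 7 6 (.thr 22 52 (.thr 55 38 (.dbl 23 20 39)))) (.nv (.thr 7 6 (.thr 38 55 (.thr 36 39 (.dbl 52 20 22)))) (.rp 55 (.thr 33 17 (.thr 9 13 (.thr 6 7 (.thr 3 12 (.thr 48 18 (.thr 0 2 (.thr 16 32 (.dbl 26 15 31)))))))) (.rp 52 (.thr 17 33 (.thr 9 13 (.thr 6 7 (.thr 12 3 (.thr 0 8 (.thr 55 38 (.thr 51 34 (.dbl 63 42 59)))))))) (.rp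 39 (.thr 33 17 (.thr 41 45 (.thr 7 6 (.thr 22 52 (.thr 3 60 (.thr 15 11 (.dbl 48 18 26))))))) (.rp 38 (.thr 33 17 (.thr 41 45 (.thr 7 6 (.thr 22 52 (.thr 3 60 (.thr 15 11 (.dbl 48 18 26))))))) (.rp 22 (.thr 33 17 (.thr 41 45 (.thr 38 55 (.thr 39 36 (.thr 35 44 (.thr 32 34 (.dbl 47 42 43))))))) (.rp 20 (.thr 33 17 (.thr 41 45 (.thr 38 55 (.thr 39 36 (.thr 35 44 (.thr 32 34 (.dbl 47 42 43))))))) (.rp 7 (.thr 33 17 (.thr 41 45 (.thr 38 55 (.thr 39 36 (.thr 35 44 (.thr 32 34 (.dbl 47 42 43))))))) (.rp 6 (.thr 33 17 (.thr 41 45 (.thr 38 55 (.thr 39 36 (.thr 35 44 (.thr 32 34 (.dbl 47 42 43))))))) .nd)))))))))))) (.rp 13 (.thr 17 33 (.thr 29 25 (.str 0 (.nv (.thr 51 34 (.thr 48 50 (.thr 26 15 (.dbl 16 31 32)))) (.nv (.thr 3 2 (.thr 63 42 (.thr 12 46 (.thr 6 9 (.dbl 4 7 8))))) (.nv (.thr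 51 34 (.thr 48 50 (.thr 32 16 (.dbl 42 47 63)))) (.rp 34 (.thr 3 2 (.thr 42 63 (.thr 32 47 (.thr 48 16 (.thr 15 26 (.thr 7 11 (.thr 22 52 (.thr 23 20 (.thr 55 39 (.dbl 4 6 38)))))))))) (.rp 2 (.thr 51 34 (.thr 42 63 (.thr 32 47 (.dbl 48 16 50)))) .nd)))))))) (.rp 9 (.thr 17 33 (.dbl 25 13 29)) .nd))))) (.rp 49 (.thr 9 13 (.thr 41 61 (.thr 57 25 (.thr 45 33 (.str 7 (.nv (.thr 4 6 (.thr 38 55 (.thr 36 39 (.dbl 52 20 22)))) (.nv (.thr 6 4 (.thr 3 12 (.thr 15 11 (.dbl 60 22 30)))) (.nv (.thr 6 4 (.thr 22 52 (.dbl 3 12 60))) (.rp 22 (.thr 6 4 (.thr 3 12 (.thr 15 11 (.thr 0 2 (.thr 42 63 (.thr 32 47 (.dbl 48 16 26))))))) (.rp 6 (.thr 22 52 (.thr 23 20 (.thr 55 39 (.thr 60 3 (.thr 51 54 (.thr 63 59 (.thr 15 30 (.thr 47 31 (.dbl 42 0 32))))))))) (.rp 4 (.thr 22 52 (.thr 3 60 (.thr 0 2 (.thr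 63 42 (.dbl 23 20 43))))) .nd))))))))))) (.rp 45 (.str 4 (.nv (.thr 6 7 (.thr 9 13 (.thr 12 3 (.thr 38 55 (.thr 25 51 (.dbl 41 57 61)))))) (.nv (.thr 7 6 (.thr 22 52 (.thr 55 38 (.dbl 23 20 39)))) (.rp 55 (.thr 9 13 (.thr 6 7 (.thr 12 3 (.thr 0 8 (.thr 63 42 (.thr 41 61 (.thr 29 46 (.dbl 25 17 57)))))))) (.rp 52 (.thr 9 13 (.thr 6 7 (.thr 12 3 (.thr 38 55 (.thr 54 22 (.thr 25 51 (.dbl 41 57 61))))))) (.rp 39 (.thr 13 9 (.thr 25 49 (.thr 29 17 (.thr 38 55 (.thr 12 51 (.thr 63 46 (.dbl 0 8 42))))))) (.rp 38 (.thr 13 9 (.thr 49 25 (.thr 33 17 (.thr 41 61 (.thr 7 6 (.thr 22 52 (.thr 3 60 (.thr 48 18 (.dbl 15 11 26))))))))) (.rp 23 (.thr 7 6 (.thr 52 22 (.thr 36 20 (.dbl 38 39 55)))) (.rp 7 (.thr 13 9 (.thr 25 49 (.thr 29 17 (.thr 38 55 (.thr 12 51 (.thr 63 46 (.dbl 0 8 42))))))) (.rp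 6 (.thr 13 9 (.thr 25 49 (.thr 29 17 (.thr 38 55 (.thr 12 51 (.thr 63 46 (.dbl 0 8 42))))))) .nd)))))))))) (.rp 41 (.str 4 (.nv (.thr 38 55 (.thr 36 39 (.thr 52 20 (.dbl 7 6 22)))) (.nv (.thr 7 6 (.thr 22 52 (.thr 55 38 (.dbl 23 20 39)))) (.nv (.thr 7 6 (.thr 38 55 (.thr 36 39 (.dbl 52 20 22)))) (.rp 55 (.thr 13 9 (.thr 25 49 (.thr 7 6 (.thr 52 22 (.thr 36 20 (.thr 38 39 (.thr 12 51 (.thr 48 24 (.dbl 15 14 26))))))))) (.rp 52 (.thr 13 9 (.thr 25 49 (.thr 29 17 (.thr 6 7 (.thr 38 55 (.thr 54 22 (.thr 12 51 (.thr 63 46 (.dbl 0 8 42))))))))) (.rp 43 (.str 42 (.nv (.thr 0 63 (.thr 8 12 (.thr 25 59 (.dbl 13 9 49)))) (.nv (.thr 38 55 (.thr 36 39 (.thr 52 20 (.dbl 7 6 22)))) (.nv (.thr 6 7 (.thr 9 13 (.thr 3 12 (.dbl 0 2 63)))) (.rp 0 (.thr 7 6 (.thr 38 55 (.thr 36 39 (.dbl 52 20 22))))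 .nd))))) (.rp 42 (.str 43 (.nv (.thr 6 7 (.thr 9 13 (.thr 3 12 (.thr 23 63 (.thr 22 20 (.dbl 38 54 55)))))) (.nv (.thr 7 6 (.thr 38 55 (.thr 36 39 (.dbl 52 20 22)))) (.rp 58 (.str 26 (.nv (.thr 13 9 (.thr 38 55 (.thr 14 50 (.dbl 15 12 48)))) (.nv (.thr 7 6 (.thr 38 55 (.thr 36 39 (.dbl 52 20 22)))) (.nv (.thr 31 16 (.thr 15 48 (.thr 63 47 (.thr 3 23 (.dbl 7 6 11))))) (.rp 63 (.thr 48 15 (.thr 7 6 (.thr 55 38 (.thr 23 39 (.dbl 22 20 52))))) (.rp 48 (.str 63 (.nv (.thr 31 16 (.thr 38 55 (.thr 47 15 (.dbl 39 35 36)))) (.nv (.thr 3 23 (.thr 9 13 (.dbl 6 7 12))) .nd))) .nd)))))) (.rp 55 (.thr 13 9 (.thr 25 49 (.thr 7 6 (.thr 52 22 (.thr 36 20 (.thr 38 39 (.thr 12 51 (.thr 48 24 (.dbl 15 14 26))))))))) (.rp 54 (.thr 55 38 (.thr 7 6 (.thr 22 52 (.dbl 23 20 39)))) (.rp 38 (.thr 13 9 (.thr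 25 49 (.thr 29 17 (.thr 7 6 (.thr 22 52 (.thr 28 19 (.thr 31 30 (.thr 20 23 (.dbl 16 24 26))))))))) (.rp 26 (.str 58 (.nv (.thr 6 7 (.thr 9 13 (.thr 3 12 (.thr 23 63 (.thr 22 20 (.dbl 38 54 55)))))) (.nv (.thr 7 6 (.thr 38 55 (.thr 36 39 (.dbl 52 20 22)))) (.rp 56 (.str 11 (.nv (.thr 7 6 (.thr 3 15 (.thr 23 63 (.dbl 22 20 52)))) (.nv (.thr 6 7 (.thr 9 13 (.thr 3 12 (.thr 55 38 (.thr 59 27 (.dbl 63 23 51)))))) (.nv (.thr 7 6 (.thr 38 55 (.thr 36 39 (.dbl 52 20 22)))) (.rp 24 (.str 8 (.nv (.thr 12 0 (.thr 13 9 (.thr 25 49 (.dbl 38 51 55)))) (.nv (.thr 7 6 (.thr 22 52 (.thr 55 38 (.dbl 23 20 39)))) (.nv (.thr 9 13 (.thr 6 7 (.dbl 12 0 3))) (.rp 27 (.str 25 (.nv (.thr 12 0 (.dbl 38 51 55)) (.nv (.dbl 13 9 49) .nd))) (.rp 25 (.thr 27 59 (.thr 7 6 (.thr 3 15 (.dbl 0 2 12)))) .nd))))))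 (.rp 14 (.thr 38 55 (.thr 36 39 (.thr 52 20 (.dbl 7 6 22)))) (.rp 8 (.str 24 (.nv (.thr 7 6 (.thr 3 15 (.thr 23 63 (.dbl 22 20 52)))) (.nv (.thr 13 9 (.thr 25 49 (.thr 38 55 (.thr 12 51 (.dbl 36 39 48))))) (.nv (.thr 6 7 (.thr 9 13 (.thr 3 12 (.thr 55 38 (.thr 59 27 (.dbl 63 23 51)))))) (.nv (.thr 7 6 (.thr 38 55 (.thr 36 39 (.dbl 52 20 22)))) (.rp 59 (.str 25 (.nv (.thr 38 55 (.thr 36 39 (.dbl 12 48 51))) (.nv (.dbl 13 9 49) .nd))) (.rp 25 (.thr 59 27 (.thr 7 6 (.thr 38 55 (.thr 36 39 (.dbl 52 20 22))))) .nd))))))) (.rp 7 (.thr 38 55 (.thr 39 36 (.thr 27 59 (.thr 51 15 (.thr 13 9 (.dbl 25 12 49)))))) (.rp 6 (.thr 55 38 (.thr 59 27 (.thr 63 51 (.thr 23 3 (.thr 22 20 (.dbl 7 39 52)))))) .nd))))))))) (.rp 55 (.thr 7 6 (.thr 52 22 (.thr 36 20 (.thr 38 39 (.thr 13 9 (.thr 25 49 (.thr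 29 17 (.thr 12 51 (.thr 63 46 (.thr 3 23 (.dbl 0 2 8))))))))))) (.rp 54 (.thr 55 38 (.thr 7 6 (.thr 22 52 (.dbl 23 20 39)))) (.rp 38 (.thr 7 6 (.thr 22 52 (.thr 23 20 (.thr 3 63 (.thr 11 15 (.thr 27 59 (.thr 13 9 (.thr 25 49 (.dbl 19 28 31))))))))) (.rp 22 (.thr 38 55 (.thr 13 9 (.thr 25 49 (.thr 29 17 (.thr 12 51 (.thr 63 46 (.thr 3 23 (.dbl 0 2 8)))))))) (.rp 20 (.thr 38 55 (.thr 13 9 (.thr 25 49 (.thr 29 17 (.thr 12 51 (.thr 63 46 (.thr 3 23 (.dbl 0 2 8)))))))) (.rp 14 (.thr 38 55 (.thr 36 39 (.thr 52 20 (.dbl 7 6 22)))) (.rp 11 (.str 56 (.nv (.thr 9 13 (.thr 38 55 (.thr 36 39 (.thr 52 20 (.dbl 7 6 22))))) (.nv (.thr 6 7 (.thr 9 13 (.thr 3 12 (.thr 55 38 (.thr 59 57 (.dbl 63 23 51)))))) (.nv (.thr 38 55 (.thr 36 39 (.thr 7 6 (.dbl 52 20 22)))) (.rp 55 (.thr 7 6 (.thr 52 22 (.thr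 36 20 (.thr 38 39 (.thr 57 59 (.thr 60 48 (.thr 51 54 (.thr 25 12 (.dbl 13 9 49))))))))) (.rp 38 (.thr 7 6 (.thr 22 52 (.thr 23 20 (.thr 55 39 (.thr 59 57 (.dbl 63 3 51)))))) (.rp 9 (.str 8 (.nv (.thr 57 59 (.thr 7 6 (.thr 22 52 (.thr 55 38 (.dbl 23 20 39))))) (.nv (.thr 0 12 (.thr 3 2 (.thr 23 63 (.thr 22 20 (.dbl 7 6 52))))) (.nv (.thr 12 0 (.thr 38 55 (.thr 25 51 (.thr 17 29 (.dbl 49 13 33))))) (.nv (.thr 0 12 (.thr 3 2 (.thr 55 38 (.thr 63 23 (.dbl 59 51 57))))) (.nv (.thr 38 55 (.thr 36 39 (.thr 52 20 (.dbl 7 6 22)))) (.rp 57 (.str 25 (.nv (.thr 12 0 (.dbl 38 51 55)) (.nv (.thr 49 13 (.dbl 17 29 33)) (.rp 49 (.str 61 (.nv (.thr 7 6 (.thr 22 52 (.thr 55 38 (.dbl 23 20 39)))) (.nv (.thr 12 0 (.dbl 38 51 55)) (.rp 55 (.thr 12 0 (.thr 38 51 (.thr 36 39 (.thr 48 24 (.dbl 52 20 60)))))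 (.rp 38 (.thr 0 12 (.thr 3 2 (.thr 23 63 (.thr 22 20 (.dbl 7 6 52))))) (.rp 20 (.thr 38 55 (.dbl 12 0 51)) (.rp 12 (.thr 38 55 (.thr 36 39 (.thr 52 20 (.dbl 7 6 22)))) .nd))))))) .nd)))) .nd))))))) (.rp 7 (.thr 55 38 (.thr 59 57 (.thr 63 51 (.thr 3 23 (.thr 0 2 (.thr 9 13 (.dbl 12 6 8))))))) (.rp 6 (.thr 55 38 (.thr 59 57 (.thr 63 51 (.thr 23 3 (.thr 22 20 (.dbl 7 39 52)))))) .nd))))))))) (.rp 7 (.thr 38 55 (.thr 39 36 (.thr 35 47 (.thr 13 9 (.thr 25 49 (.thr 17 29 (.thr 51 12 (.thr 3 19 (.dbl 0 2 34))))))))) (.rp 6 (.thr 38 55 (.thr 13 9 (.thr 25 49 (.thr 29 17 (.thr 12 51 (.thr 63 46 (.thr 3 23 (.dbl 0 2 8)))))))) .nd))))))))))))) (.rp 22 (.thr 13 9 (.thr 25 49 (.thr 38 55 (.thr 36 39 (.thr 12 51 (.thr 48 24 (.dbl 15 14 26))))))) (.rp 20 (.thr 13 9 (.thr 25 49 (.thr 38 55 (.thr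 36 39 (.thr 12 51 (.thr 48 24 (.dbl 15 14 26))))))) (.rp 14 (.thr 38 55 (.thr 36 39 (.thr 52 20 (.dbl 7 6 22)))) (.rp 7 (.thr 13 9 (.thr 25 49 (.thr 29 17 (.thr 38 55 (.thr 39 36 (.thr 47 35 (.thr 12 51 (.thr 63 46 (.dbl 15 14 31))))))))) (.rp 6 (.thr 13 9 (.thr 25 49 (.thr 38 55 (.thr 36 39 (.thr 12 51 (.thr 48 24 (.dbl 15 14 26))))))) .nd))))))))))))) (.rp 39 (.thr 13 9 (.thr 25 49 (.thr 29 17 (.thr 38 55 (.thr 12 51 (.thr 63 46 (.dbl 0 8 42))))))) (.rp 38 (.thr 13 9 (.thr 25 49 (.thr 17 29 (.thr 7 6 (.thr 22 52 (.thr 23 20 (.thr 19 28 (.thr 31 27 (.dbl 16 18 26))))))))) (.rp 22 (.thr 13 9 (.thr 25 49 (.thr 29 17 (.thr 38 55 (.thr 12 51 (.thr 63 46 (.dbl 0 8 42))))))) (.rp 20 (.thr 13 9 (.thr 25 49 (.thr 29 17 (.thr 38 55 (.thr 12 51 (.thr 63 46 (.dbl 0 8 42))))))) (.rp 7 (.thr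 13 9 (.thr 25 49 (.thr 29 17 (.thr 38 55 (.thr 12 51 (.thr 63 46 (.dbl 0 8 42))))))) (.rp 6 (.thr 13 9 (.thr 25 49 (.thr 29 17 (.thr 38 55 (.thr 12 51 (.thr 63 46 (.dbl 0 8 42))))))) .nd)))))))))))))) (.rp 33 (.thr 13 9 (.thr 25 49 (.thr 29 17 (.dbl 61 41 45)))) (.rp 25 (.str 4 (.nv (.thr 6 7 (.thr 9 13 (.thr 3 12 (.thr 41 61 (.thr 22 60 (.dbl 38 54 55)))))) (.nv (.thr 7 6 (.thr 38 55 (.thr 36 39 (.dbl 52 20 22)))) (.rp 55 (.thr 9 13 (.thr 41 61 (.thr 6 7 (.thr 3 12 (.thr 22 60 (.thr 23 20 (.thr 0 2 (.dbl 63 42 43)))))))) (.rp 54 (.thr 7 6 (.thr 52 22 (.thr 38 55 (.dbl 36 20 39)))) (.rp 38 (.thr 41 61 (.thr 33 45 (.thr 7 6 (.thr 22 52 (.thr 3 60 (.thr 15 11 (.dbl 48 18 26))))))) (.rp 22 (.thr 41 61 (.thr 33 45 (.thr 38 55 (.thr 39 36 (.thr 35 44 (.thr 32 34 (.dbl 47 42 43)))))))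 (.rp 20 (.thr 9 13 (.thr 41 61 (.thr 6 7 (.thr 3 12 (.thr 38 55 (.dbl 22 54 60)))))) (.rp 14 (.thr 38 55 (.thr 36 39 (.thr 52 20 (.dbl 7 6 22)))) (.rp 7 (.thr 41 61 (.thr 33 45 (.thr 38 55 (.thr 39 36 (.thr 35 44 (.thr 32 34 (.dbl 47 42 43))))))) (.rp 6 (.thr 41 61 (.thr 33 45 (.thr 38 55 (.thr 39 36 (.thr 35 44 (.thr 32 34 (.dbl 47 42 43))))))) .nd))))))))))) (.rp 17 (.str 4 (.nv (.thr 6 7 (.thr 9 13 (.thr 12 3 (.thr 38 55 (.thr 25 51 (.dbl 41 57 61)))))) (.nv (.thr 6 7 (.thr 9 13 (.thr 3 12 (.thr 41 61 (.thr 22 60 (.dbl 38 54 55)))))) (.nv (.thr 7 6 (.thr 22 52 (.thr 55 38 (.dbl 23 20 39)))) (.rp 55 (.thr 9 13 (.thr 41 61 (.thr 6 7 (.thr 3 12 (.thr 22 60 (.thr 23 20 (.thr 0 2 (.dbl 63 42 43)))))))) (.rp 38 (.thr 41 61 (.thr 33 45 (.thr 7 6 (.thr 22 52 (.thr 3 60 (.thr 15 11 (.dbl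 48 18 26))))))) (.rp 7 (.thr 13 9 (.thr 25 49 (.thr 38 55 (.thr 12 51 (.thr 15 14 (.thr 48 26 (.dbl 36 24 39))))))) (.rp 6 (.thr 13 9 (.thr 25 49 (.thr 38 55 (.thr 36 39 (.thr 12 51 (.thr 48 24 (.dbl 15 14 26))))))) .nd)))))))) (.rp 13 (.str 3 (.nv (.thr 0 2 (.thr 41 61 (.thr 22 60 (.thr 23 20 (.dbl 63 42 43))))) (.nv (.thr 0 2 (.thr 42 63 (.thr 32 47 (.thr 48 16 (.thr 33 18 (.thr 34 35 (.dbl 17 49 51))))))) (.nv (.thr 41 61 (.thr 45 33 (.thr 60 22 (.thr 15 30 (.thr 11 7 (.dbl 26 48 56)))))) (.rp 49 (.thr 0 2 (.thr 42 63 (.thr 32 47 (.thr 48 16 (.thr 33 18 (.dbl 41 45 61)))))) .nd))))) (.rp 9 (.str 3 (.nv (.thr 0 2 (.thr 41 61 (.thr 22 60 (.thr 23 20 (.dbl 63 42 43))))) (.nv (.thr 0 2 (.thr 42 63 (.thr 32 47 (.thr 48 16 (.thr 33 18 (.thr 34 35 (.dbl 17 49 51))))))) (.nv (.thr 41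 61 (.thr 45 33 (.thr 60 22 (.thr 15 30 (.thr 11 7 (.dbl 26 48 56)))))) (.rp 49 (.thr 0 2 (.thr 42 63 (.thr 32 47 (.thr 48 16 (.thr 33 18 (.dbl 41 45 61)))))) (.rp 11 (.str 8 (.nv (.thr 0 2 (.thr 42 63 (.thr 25 59 (.thr 17 29 (.dbl 49 13 33))))) (.nv (.thr 0 2 (.thr 4 12 (.thr 38 55 (.thr 36 39 (.thr 52 20 (.dbl 7 6 22)))))) (.nv (.thr 0 2 (.thr 41 61 (.thr 22 60 (.thr 23 20 (.dbl 63 42 43))))) (.rp 14 (.thr 41 61 (.thr 22 60 (.thr 52 7 (.thr 20 23 (.thr 4 36 (.dbl 0 2 12)))))) (.rp 6 (.thr 41 61 (.thr 22 60 (.thr 52 7 (.thr 20 23 (.thr 4 36 (.dbl 0 2 12)))))) (.rp 2 (.thr 41 61 (.thr 33 45 (.thr 48 18 (.thr 26 15 (.thr 16 31 (.thr 0 32 (.thr 63 42 (.thr 23 43 (.dbl 22 20 60))))))))) (.rp 0 (.thr 41 61 (.thr 22 60 (.thr 20 23 (.thr 33 45 (.thr 49 17 (.thr 48 18 (.thr 51 50 (.thr 19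 35 (.dbl 25 13 28))))))))) .nd)))))))) (.rp 8 (.str 11 (.nv (.thr 0 2 (.thr 41 61 (.thr 22 60 (.thr 23 20 (.dbl 63 42 43))))) (.nv (.thr 0 2 (.thr 7 15 (.thr 22 52 (.thr 23 20 (.dbl 63 42 43))))) (.nv (.thr 41 61 (.thr 15 7 (.dbl 26 48 56))) (.rp 56 (.str 24 (.nv (.thr 0 2 (.thr 41 61 (.thr 22 60 (.thr 23 20 (.dbl 63 42 43))))) (.nv (.thr 0 2 (.thr 15 7 (.thr 42 63 (.thr 32 47 (.dbl 48 16 26))))) (.nv (.thr 41 61 (.thr 7 15 (.dbl 22 52 60))) .nd)))) (.rp 24 (.str 56 (.nv (.dbl 41 26 61) (.rp 61 (.thr 15 7 (.dbl 26 41 48)) (.rp 41 (.thr 15 7 (.thr 48 26 (.thr 0 2 (.thr 32 16 (.dbl 42 47 63))))) (.rp 26 (.thr 41 61 (.thr 7 15 (.dbl 22 52 60))) .nd))))) .nd)))))) .nd))))))) .nd))))))))))))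

theorem w373 : WinAt (137441050656, 9008298766369792) :=
  chF (K := []) kn c373 137441050656 9008298766369792 53
    [] (by decide +kernel) (by decide +kernel)

/-- A certificate. -/
noncomputable def c374 : Ct := (.str 7 (.nv (.thr 4 6 (.thr 22 52 (.thr 55 38 (.dbl 23 20 39)))) (.nv (.thr 22 52 (.thr 23 20 (.thr 55 39 (.dbl 4 6 38)))) (.rp 55 (.thr 52 22 (.str 48 (.nv (.thr 4 6 (.thr 36 20 (.thr 12 24 (.thr 0 8 (.thr 42 63 (.dbl 32 16 47)))))) (.nv (.thr 26 15 (.thr 16 31 (.thr 0 32 (.thr 60 56 (.thr 20 40 (.dbl 4 6 36)))))) (.nv (.thr 4 6 (.thr 26 15 (.thr 36 20 (.thr 12 24 (.thr 38 39 (.thr 51 25 (.dbl 50 14 49))))))) (.nv (.thr 60 56 (.thr 26 15 (.thr 4 6 (.thr 16 31 (.thr 0 32 (.dbl 20 36 40)))))) (.rp 60 (.str 3 (.nv (.dbl 15 11 26) (.rp 26 (.thr 4 6 (.thr 36 20 (.thr 12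 24 (.thr 0 8 (.thr 42 63 (.dbl 32 16 47)))))) (.rp 15 (.thr 4 6 (.thr 36 20 (.thr 12 24 (.thr 0 8 (.thr 42 63 (.dbl 32 16 47)))))) (.rp 11 (.thr 4 6 (.thr 36 20 (.thr 12 24 (.thr 26 15 (.thr 16 31 (.dbl 0 8 32)))))) .nd))))) (.rp 36 (.thr 6 4 (.thr 15 26 (.thr 56 60 (.thr 3 11 (.thr 9 12 (.thr 1 13 (.thr 0 2 (.thr 32 16 (.dbl 42 47 63))))))))) (.rp 20 (.thr 4 6 (.thr 26 15 (.thr 16 31 (.thr 0 32 (.thr 12 8 (.thr 36 24 (.thr 38 39 (.thr 51 25 (.dbl 50 14 49))))))))) (.rp 16 (.thr 4 6 (.thr 36 20 (.thr 38 39 (.thr 60 56 (.thr 12 24 (.thr 28 44 (.thr 51 25 (.thr 50 49 (.dbl 26 14 15))))))))) (.rp 6 (.thr 60 56 (.thr 26 15 (.thr 16 31 (.thr 0 32 (.thr 20 40 (.thr 36 4 (.dbl 24 12 28))))))) (.rp 4 (.thr 60 56 (.thr 26 15 (.thr 16 31 (.thr 0 32 (.thr 20 40 (.thr 24 28 (.thr 25 27 (.thr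 49 13 (.thr 51 50 (.dbl 17 29 34)))))))))) .nd)))))))))))) (.rp 52 (.str 55 (.nv (.dbl 4 6 38) (.rp 38 (.thr 39 23 (.str 15 (.nv (.thr 26 48 (.thr 31 16 (.thr 51 27 (.dbl 63 47 59)))) (.nv (.thr 51 27 (.thr 11 3 (.thr 63 59 (.thr 42 0 (.dbl 47 31 32))))) (.nv (.thr 51 27 (.thr 63 59 (.thr 31 47 (.dbl 26 16 48)))) (.rp 63 (.thr 6 4 (.thr 3 11 (.thr 9 12 (.thr 13 1 (.thr 49 25 (.thr 51 27 (.dbl 48 26 50))))))) (.rp 59 (.thr 6 4 (.thr 3 11 (.thr 9 12 (.thr 13 1 (.thr 25 49 (.thr 27 51 (.dbl 26 24 48))))))) (.rp 51 (.thr 6 4 (.thr 3 11 (.thr 26 48 (.thr 31 16 (.thr 63 47 (.thr 0 42 (.thr 1 2 (.dbl 9 12 13)))))))) (.rp 47 (.thr 6 4 (.thr 3 11 (.thr 9 12 (.thr 13 1 (.thr 49 25 (.thr 51 27 (.dbl 48 26 50))))))) (.rp 44 (.str 35 (.nv (.thr 26 48 (.thr 31 16 (.dbl 47 43 63))) (.nv (.thr 51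 27 (.dbl 3 11 19)) (.rp 31 (.thr 3 11 (.dbl 51 19 27)) .nd)))) (.rp 35 (.str 44 (.nv (.thr 26 48 (.thr 31 16 (.thr 51 27 (.dbl 63 47 59)))) (.nv (.thr 51 27 (.thr 11 3 (.thr 63 59 (.thr 42 0 (.dbl 47 31 32))))) (.nv (.thr 51 27 (.thr 63 59 (.thr 31 47 (.dbl 26 16 48)))) (.rp 63 (.thr 6 4 (.thr 3 11 (.thr 9 12 (.thr 13 1 (.thr 49 25 (.thr 51 27 (.dbl 48 26 50))))))) (.rp 59 (.thr 6 4 (.thr 3 11 (.thr 9 12 (.thr 13 1 (.thr 25 49 (.thr 27 51 (.dbl 26 24 48))))))) (.rp 51 (.thr 6 4 (.thr 3 11 (.thr 26 48 (.thr 31 16 (.thr 63 47 (.thr 0 42 (.thr 1 2 (.dbl 9 12 13)))))))) (.rp 47 (.thr 6 4 (.thr 3 11 (.thr 9 12 (.thr 13 1 (.thr 49 25 (.thr 51 27 (.dbl 48 26 50))))))) (.rp 31 (.thr 6 4 (.thr 3 11 (.thr 9 12 (.thr 13 1 (.thr 25 49 (.thr 27 51 (.dbl 26 24 48))))))) (.rp 27 (.thr 6 4 (.thr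 3 11 (.thr 9 12 (.thr 1 13 (.thr 0 2 (.thr 63 42 (.thr 31 47 (.dbl 26 16 48)))))))) .nd)))))))))) (.rp 31 (.thr 6 4 (.thr 3 11 (.thr 9 12 (.thr 13 1 (.thr 25 49 (.thr 27 51 (.dbl 26 24 48))))))) (.rp 27 (.thr 6 4 (.thr 3 11 (.thr 9 12 (.thr 1 13 (.thr 0 2 (.thr 63 42 (.thr 31 47 (.dbl 26 16 48)))))))) .nd))))))))))))) (.rp 6 (.thr 39 23 (.dbl 38 4 36)) (.rp 4 (.thr 39 23 (.str 63 (.nv (.thr 36 38 (.thr 42 0 (.thr 47 32 (.thr 15 31 (.dbl 51 27 59))))) (.nv (.thr 0 42 (.thr 51 59 (.thr 17 34 (.thr 25 29 (.dbl 38 12 36))))) (.nv (.thr 51 59 (.thr 15 27 (.thr 31 47 (.dbl 26 16 48)))) (.rp 59 (.thr 36 38 (.thr 42 0 (.thr 47 32 (.thr 15 31 (.thr 48 26 (.thr 12 24 (.thr 29 46 (.thr 25 17 (.dbl 13 14 49))))))))) (.rp 51 (.thr 36 38 (.thr 42 0 (.thr 47 32 (.thr 15 31 (.thr 48 26 (.thr 12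 24 (.thr 14 13 (.thr 46 29 (.thr 30 62 (.dbl 45 44 60)))))))))) (.rp 36 (.str 20 (.nv (.thr 42 0 (.thr 51 59 (.thr 15 27 (.thr 11 3 (.dbl 47 31 32))))) (.nv (.thr 51 59 (.thr 15 27 (.thr 31 47 (.dbl 26 16 48)))) (.rp 59 (.thr 42 0 (.thr 47 32 (.thr 31 15 (.thr 35 43 (.thr 16 26 (.thr 28 24 (.thr 29 30 (.thr 12 46 (.thr 25 17 (.thr 51 38 (.dbl 19 3 22))))))))))) (.rp 51 (.str 31 (.nv (.thr 42 0 (.dbl 47 15 32)) (.nv (.thr 15 47 (.dbl 26 16 48)) (.rp 47 (.thr 16 26 (.thr 28 24 (.thr 29 30 (.thr 25 17 (.thr 13 49 (.thr 61 45 (.thr 60 62 (.dbl 12 44 46)))))))) (.rp 15 (.thr 16 26 (.thr 28 24 (.thr 29 30 (.thr 12 46 (.thr 60 44 (.dbl 0 40 42)))))) .nd))))) (.rp 47 (.thr 51 59 (.thr 15 27 (.thr 48 26 (.thr 49 50 (.thr 25 13 (.thr 29 17 (.dbl 12 38 46))))))) (.rp 31 (.thr 51 59 (.thr 0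 42 (.thr 17 34 (.thr 25 29 (.thr 49 13 (.thr 48 50 (.dbl 15 26 27))))))) (.rp 27 (.thr 51 59 (.thr 0 42 (.thr 17 34 (.thr 25 29 (.thr 49 13 (.thr 48 50 (.thr 16 32 (.dbl 26 15 31)))))))) (.rp 15 (.thr 51 59 (.thr 0 42 (.thr 17 34 (.thr 25 29 (.thr 49 13 (.thr 33 1 (.thr 48 50 (.thr 16 32 (.dbl 18 3 19))))))))) (.rp 11 (.thr 51 59 (.thr 42 0 (.thr 47 32 (.dbl 15 27 31)))) .nd)))))))))) .nd)))))))) .nd))))) (.rp 39 (.str 13 (.nv (.thr 4 6 (.thr 25 49 (.thr 29 17 (.thr 38 55 (.thr 12 51 (.thr 63 46 (.dbl 0 8 42))))))) (.nv (.thr 1 9 (.thr 22 52 (.thr 20 23 (.thr 25 49 (.thr 28 19 (.thr 16 24 (.thr 29 17 (.dbl 31 26 30)))))))) (.nv (.thr 9 1 (.thr 25 49 (.thr 6 4 (.thr 12 3 (.thr 22 52 (.dbl 38 51 54)))))) (.rp 61 (.thr 9 1 (.thr 6 4 (.thr 3 12 (.thr 15 11 (.thr 22 52 (.thr 26 48 (.thr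 31 16 (.thr 63 47 (.dbl 23 20 43))))))))) (.rp 57 (.thr 9 1 (.thr 6 4 (.thr 3 12 (.thr 15 11 (.thr 22 52 (.thr 26 48 (.thr 31 16 (.thr 63 47 (.dbl 23 20 43))))))))) (.rp 55 (.thr 9 1 (.thr 25 49 (.thr 6 4 (.thr 12 3 (.thr 38 51 (.dbl 22 52 54)))))) (.rp 54 (.thr 25 49 (.thr 29 17 (.thr 4 6 (.thr 38 55 (.thr 52 22 (.thr 12 51 (.thr 0 8 (.dbl 63 42 46)))))))) (.rp 52 (.thr 9 1 (.thr 25 49 (.thr 6 4 (.thr 12 3 (.thr 15 14 (.thr 26 48 (.thr 31 16 (.thr 63 47 (.dbl 29 17 46))))))))) (.rp 49 (.thr 9 1 (.thr 6 4 (.thr 3 12 (.thr 15 11 (.thr 22 52 (.thr 26 48 (.thr 31 16 (.thr 63 47 (.dbl 23 20 43))))))))) (.rp 25 (.thr 9 1 (.thr 6 4 (.thr 3 12 (.thr 15 11 (.thr 22 52 (.thr 26 48 (.thr 31 16 (.thr 63 47 (.dbl 23 20 43))))))))) (.rp 17 (.thr 25 49 (.thr 4 6 (.thr 38 55 (.thr 12 51 (.thr 52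 22 (.thr 36 20 (.thr 48 24 (.dbl 15 14 26)))))))) (.rp 1 (.thr 25 49 (.thr 17 29 (.thr 22 52 (.thr 23 20 (.thr 19 28 (.thr 31 27 (.dbl 16 18 26))))))) .nd))))))))))))) (.rp 38 (.thr 6 4 (.str 9 (.nv (.thr 3 12 (.thr 15 11 (.thr 22 52 (.thr 26 48 (.thr 31 16 (.thr 63 47 (.dbl 23 20 43))))))) (.nv (.thr 1 13 (.thr 3 12 (.thr 0 2 (.thr 22 52 (.thr 63 42 (.dbl 23 20 43)))))) (.nv (.thr 3 12 (.thr 15 11 (.thr 26 48 (.thr 1 13 (.thr 31 16 (.thr 0 2 (.dbl 63 42 47))))))) (.rp 63 (.thr 13 1 (.thr 25 49 (.thr 17 29 (.thr 22 52 (.thr 19 28 (.thr 16 18 (.thr 31 26 (.dbl 23 20 27)))))))) (.rp 58 (.thr 1 13 (.thr 3 12 (.thr 15 11 (.thr 0 2 (.thr 63 42 (.thr 26 48 (.dbl 31 16 47))))))) (.rp 51 (.thr 13 1 (.thr 25 49 (.thr 17 29 (.thr 22 52 (.thr 19 28 (.thr 16 18 (.thr 31 26 (.dbl 23 20 27))))))))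 (.rp 44 (.str 35 (.nv (.thr 1 13 (.thr 3 12 (.thr 0 2 (.thr 15 11 (.thr 26 48 (.thr 31 16 (.dbl 63 42 47))))))) (.nv (.thr 3 12 (.thr 51 19 (.thr 15 11 (.thr 39 27 (.thr 43 47 (.dbl 23 55 63)))))) (.nv (.thr 3 12 (.thr 13 1 (.thr 22 52 (.thr 19 51 (.dbl 25 28 49))))) (.rp 60 (.thr 13 1 (.thr 25 49 (.thr 22 52 (.thr 28 19 (.thr 20 23 (.thr 16 24 (.thr 31 26 (.dbl 29 17 30)))))))) (.rp 51 (.thr 13 1 (.thr 25 49 (.thr 17 29 (.thr 22 52 (.thr 19 28 (.thr 16 18 (.thr 31 26 (.dbl 23 20 27)))))))) (.rp 28 (.thr 13 1 (.thr 25 49 (.thr 12 3 (.thr 15 14 (.thr 26 48 (.thr 31 16 (.thr 63 47 (.dbl 29 17 46)))))))) (.rp 12 (.thr 13 1 (.thr 25 49 (.thr 22 52 (.thr 28 19 (.thr 20 23 (.thr 16 24 (.thr 31 26 (.dbl 29 17 30)))))))) (.rp 3 (.thr 13 1 (.thr 25 49 (.thr 17 29 (.thr 22 52 (.thr 19 28 (.thr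 16 18 (.thr 31 26 (.dbl 23 20 27)))))))) (.rp 0 (.thr 13 1 (.thr 25 49 (.thr 22 52 (.thr 19 28 (.dbl 3 12 51))))) .nd)))))))))) (.rp 36 (.thr 1 13 (.thr 3 12 (.thr 15 11 (.thr 0 2 (.thr 63 42 (.thr 31 47 (.dbl 26 16 48))))))) (.rp 35 (.str 44 (.nv (.thr 3 12 (.thr 15 11 (.thr 22 52 (.thr 26 48 (.thr 31 16 (.thr 63 47 (.dbl 23 20 43))))))) (.nv (.thr 1 13 (.thr 3 12 (.thr 0 2 (.thr 15 11 (.thr 26 48 (.thr 31 16 (.dbl 63 42 47))))))) (.nv (.thr 13 1 (.thr 12 3 (.thr 25 49 (.thr 28 60 (.dbl 22 19 52))))) (.rp 51 (.thr 22 52 (.thr 13 1 (.thr 25 49 (.thr 19 28 (.thr 17 29 (.thr 16 18 (.thr 31 26 (.dbl 23 20 27)))))))) (.rp 25 (.thr 22 52 (.thr 12 3 (.thr 60 28 (.thr 13 1 (.thr 15 14 (.thr 30 45 (.dbl 26 18 48))))))) (.rp 12 (.thr 22 52 (.thr 20 23 (.thr 13 1 (.thr 25 49 (.thr 28 19 (.thr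 16 24 (.thr 31 26 (.dbl 29 17 30)))))))) (.rp 3 (.thr 22 52 (.thr 13 1 (.thr 25 49 (.thr 19 28 (.thr 17 29 (.thr 16 18 (.thr 31 26 (.dbl 23 20 27)))))))) (.rp 0 (.thr 22 52 (.thr 13 1 (.thr 25 49 (.thr 28 19 (.dbl 12 3 60))))) .nd))))))))) (.rp 26 (.thr 1 13 (.thr 3 12 (.thr 0 2 (.thr 42 63 (.thr 32 47 (.thr 48 16 (.thr 33 18 (.thr 17 49 (.dbl 34 35 51))))))))) (.rp 25 (.thr 13 1 (.thr 12 3 (.thr 15 14 (.thr 22 52 (.thr 26 48 (.thr 31 16 (.thr 63 47 (.thr 29 46 (.dbl 30 18 28))))))))) (.rp 15 (.thr 13 1 (.thr 25 49 (.thr 17 29 (.thr 22 52 (.thr 19 28 (.thr 16 18 (.thr 31 26 (.dbl 23 20 27)))))))) (.rp 12 (.thr 13 1 (.thr 25 49 (.thr 17 29 (.thr 22 52 (.thr 19 28 (.thr 16 18 (.thr 31 26 (.dbl 23 20 27)))))))) (.rp 3 (.thr 13 1 (.thr 25 49 (.thr 17 29 (.thr 22 52 (.thr 19 28 (.thr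 16 18 (.thr 31 26 (.dbl 23 20 27)))))))) (.rp 0 (.thr 13 1 (.thr 25 49 (.thr 17 29 (.thr 22 52 (.thr 19 28 (.thr 16 18 (.thr 31 26 (.dbl 23 20 27)))))))) .nd))))))))))))))))) (.rp 23 (.thr 4 6 (.thr 38 55 (.thr 36 39 (.dbl 52 20 22)))) (.rp 22 (.str 38 (.nv (.dbl 4 6 55) (.rp 60 (.str 3 (.nv (.dbl 4 6 55) (.rp 55 (.thr 6 4 (.thr 39 36 (.thr 15 11 (.thr 51 27 (.dbl 12 9 25))))) (.rp 6 (.thr 55 4 (.dbl 39 23 36)) (.rp 4 (.thr 39 36 (.thr 23 55 (.thr 15 11 (.thr 26 48 (.thr 31 16 (.dbl 63 43 47)))))) .nd))))) (.rp 55 (.str 15 (.nv (.thr 39 36 (.thr 6 4 (.thr 3 11 (.thr 51 27 (.dbl 12 9 25))))) (.nv (.thr 3 11 (.thr 6 4 (.thr 26 48 (.thr 14 50 (.dbl 12 9 13))))) (.nv (.thr 39 36 (.thr 51 27 (.thr 25 12 (.thr 49 13 (.dbl 48 26 50))))) (.rp 54 (.str 52 (.nv (.thr 36 39 (.dbl 4 6 20)) (.rp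 60 (.thr 3 11 (.thr 36 39 (.dbl 4 6 20))) (.rp 39 (.thr 6 4 (.thr 3 11 (.thr 26 48 (.thr 14 50 (.dbl 12 9 13))))) (.rp 36 (.thr 6 4 (.thr 3 11 (.thr 26 48 (.thr 14 50 (.dbl 12 9 13))))) (.rp 20 (.thr 39 36 (.thr 6 4 (.thr 3 11 (.thr 51 27 (.dbl 12 9 25))))) (.rp 6 (.thr 39 36 (.thr 51 27 (.thr 12 25 (.thr 14 13 (.dbl 26 48 50))))) (.rp 4 (.thr 39 36 (.thr 51 27 (.thr 12 25 (.thr 14 13 (.dbl 26 48 50))))) (.rp 3 (.str 60 (.nv (.thr 4 6 (.dbl 36 20 39)) (.nv (.dbl 48 26 56) .nd))) .nd))))))))) (.rp 52 (.str 54 (.nv (.thr 3 11 (.thr 39 36 (.thr 51 27 (.thr 12 25 (.dbl 6 4 9))))) (.nv (.thr 3 11 (.thr 26 48 (.thr 14 50 (.thr 12 13 (.dbl 6 4 9))))) (.nv (.thr 3 11 (.thr 26 48 (.thr 31 16 (.thr 63 47 (.thr 23 43 (.thr 27 19 (.dbl 39 36 51))))))) (.nv (.thr 39 36 (.thr 51 27 (.thr 25 12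 (.thr 49 13 (.dbl 48 26 50))))) (.rp 51 (.thr 36 39 (.thr 6 4 (.thr 48 26 (.thr 12 24 (.dbl 3 9 11))))) (.rp 26 (.thr 39 36 (.thr 51 27 (.thr 25 12 (.thr 13 49 (.thr 1 9 (.thr 17 29 (.thr 0 34 (.dbl 3 2 11)))))))) (.rp 3 (.str 60 (.nv (.thr 26 48 (.thr 14 50 (.thr 12 13 (.dbl 51 25 57)))) (.nv (.thr 39 36 (.dbl 51 27 57)) (.rp 57 (.thr 36 39 (.thr 48 26 (.thr 12 24 (.thr 13 14 (.dbl 25 49 51))))) (.rp 51 (.thr 26 48 (.thr 50 14 (.thr 62 58 (.thr 63 61 (.dbl 31 16 47))))) .nd))))) .nd)))))))) (.rp 51 (.thr 36 39 (.thr 6 4 (.thr 48 26 (.thr 12 24 (.dbl 3 9 11))))) (.rp 26 (.thr 39 36 (.thr 51 27 (.thr 25 12 (.thr 13 49 (.thr 1 9 (.thr 17 29 (.thr 0 34 (.dbl 3 2 11)))))))) (.rp 12 (.thr 3 11 (.thr 26 48 (.thr 31 16 (.thr 63 47 (.thr 23 43 (.thr 27 19 (.dbl 39 36 51))))))) (.rp 3 (.str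 60 (.nv (.thr 26 48 (.thr 14 50 (.thr 30 45 (.thr 31 16 (.thr 62 46 (.dbl 63 47 61)))))) (.nv (.thr 4 6 (.thr 36 39 (.thr 52 20 (.dbl 48 26 56)))) (.rp 54 (.str 52 (.nv (.thr 4 6 (.dbl 36 20 39)) (.nv (.dbl 48 26 56) .nd))) (.rp 52 (.str 54 (.nv (.thr 26 48 (.thr 14 50 (.thr 12 13 (.dbl 51 25 57)))) (.nv (.thr 39 36 (.dbl 51 27 57)) (.rp 57 (.thr 36 39 (.thr 48 26 (.thr 12 24 (.thr 13 14 (.dbl 25 49 51))))) (.rp 51 (.thr 26 48 (.thr 50 14 (.thr 62 58 (.thr 63 61 (.dbl 31 16 47))))) .nd))))) (.rp 48 (.thr 4 6 (.thr 39 36 (.thr 51 27 (.thr 12 25 (.thr 0 8 (.thr 34 17 (.dbl 42 46 63))))))) (.rp 26 (.thr 39 36 (.thr 51 27 (.thr 25 12 (.thr 29 17 (.thr 13 49 (.dbl 45 30 61)))))) (.rp 14 (.thr 39 36 (.thr 51 27 (.thr 25 12 (.thr 49 13 (.dbl 48 26 50))))) .nd)))))))) .nd)))))))))) (.rp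 6 (.thr 39 36 (.dbl 55 4 23)) (.rp 4 (.str 3 (.nv (.thr 15 11 (.thr 39 36 (.thr 23 55 (.thr 27 51 (.thr 31 19 (.dbl 63 43 47)))))) (.nv (.thr 15 11 (.thr 26 48 (.thr 14 50 (.thr 12 13 (.thr 31 16 (.thr 63 47 (.thr 29 46 (.dbl 25 17 51)))))))) (.nv (.thr 39 36 (.thr 23 55 (.thr 63 43 (.thr 42 0 (.thr 47 32 (.dbl 15 11 31)))))) (.nv (.thr 15 11 (.thr 26 48 (.thr 14 50 (.thr 12 13 (.thr 39 36 (.dbl 51 25 27)))))) (.rp 63 (.thr 39 36 (.thr 15 11 (.thr 51 27 (.thr 12 25 (.thr 14 13 (.dbl 26 48 50)))))) (.rp 15 (.thr 39 36 (.thr 23 55 (.thr 63 43 (.thr 42 0 (.thr 46 34 (.thr 12 29 (.thr 9 6 (.thr 13 1 (.dbl 25 49 51))))))))) (.rp 11 (.thr 39 36 (.thr 23 55 (.thr 63 43 (.thr 42 0 (.thr 46 34 (.thr 12 29 (.thr 51 25 (.thr 19 35 (.dbl 27 15 31))))))))) (.rp 8 (.thr 39 36 (.thr 23 55 (.thr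 43 63 (.thr 35 47 (.thr 51 19 (.dbl 15 11 27)))))) .nd))))))))) (.rp 3 (.str 60 (.nv (.dbl 4 6 55) (.rp 55 (.thr 4 6 (.thr 36 39 (.thr 52 20 (.thr 48 56 (.thr 26 15 (.thr 16 31 (.thr 0 32 (.dbl 12 8 24)))))))) (.rp 6 (.thr 55 4 (.dbl 39 23 36)) (.rp 4 (.str 63 (.nv (.thr 0 42 (.thr 36 39 (.thr 40 20 (.thr 32 44 (.thr 48 16 (.thr 24 12 (.dbl 56 8 52))))))) (.nv (.thr 42 0 (.thr 46 34 (.thr 12 29 (.thr 44 28 (.dbl 47 32 45))))) (.nv (.thr 39 36 (.thr 55 23 (.thr 51 59 (.thr 15 27 (.thr 31 47 (.dbl 26 16 48)))))) .nd)))) .nd))))) .nd))))))) (.rp 20 (.str 15 (.nv (.thr 4 6 (.thr 55 38 (.thr 39 23 (.thr 51 27 (.thr 63 59 (.thr 42 0 (.dbl 47 31 32))))))) (.nv (.thr 3 11 (.thr 6 4 (.thr 9 12 (.thr 1 13 (.thr 0 2 (.thr 26 48 (.thr 63 42 (.dbl 31 16 47)))))))) (.nv (.thr 3 11 (.thr 26 48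 (.thr 31 16 (.thr 63 47 (.thr 23 43 (.thr 27 19 (.dbl 39 51 55))))))) (.nv (.thr 4 6 (.thr 26 48 (.thr 38 55 (.thr 14 50 (.thr 12 13 (.thr 39 36 (.dbl 51 25 27))))))) (.rp 63 (.thr 4 6 (.thr 38 55 (.thr 39 36 (.thr 51 27 (.thr 12 25 (.thr 14 13 (.dbl 26 48 50))))))) .nd)))))) (.rp 6 (.str 26 (.nv (.thr 15 48 (.thr 3 11 (.thr 31 16 (.thr 63 47 (.thr 23 43 (.thr 27 19 (.dbl 39 51 55))))))) (.nv (.thr 15 48 (.thr 3 11 (.thr 31 16 (.thr 63 47 (.thr 23 43 (.dbl 22 20 52)))))) (.nv (.thr 16 31 (.thr 22 52 (.thr 18 30 (.thr 19 17 (.thr 20 23 (.dbl 28 24 25)))))) (.rp 31 (.thr 15 48 (.thr 3 11 (.thr 22 52 (.thr 20 23 (.thr 30 18 (.thr 60 45 (.thr 0 40 (.thr 2 1 (.dbl 42 62 63))))))))) (.rp 23 (.thr 16 31 (.thr 48 15 (.thr 0 32 (.thr 22 52 (.thr 18 30 (.thr 3 33 (.thr 2 1 (.dbl 42 62 63))))))))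 (.rp 16 (.thr 15 48 (.thr 3 11 (.thr 22 52 (.thr 23 20 (.thr 63 43 (.thr 47 31 (.dbl 42 0 32))))))) (.rp 14 (.str 2 (.nv (.thr 15 48 (.thr 3 11 (.thr 0 1 (.thr 22 52 (.dbl 42 62 63))))) (.nv (.thr 15 48 (.thr 22 52 (.thr 23 20 (.thr 31 16 (.thr 27 19 (.dbl 39 51 55)))))) (.nv (.thr 15 48 (.thr 3 11 (.thr 0 1 (.thr 31 16 (.dbl 63 42 47))))) (.rp 63 (.thr 16 31 (.thr 22 52 (.thr 20 23 (.thr 28 24 (.thr 19 25 (.dbl 18 17 30)))))) (.rp 58 (.thr 16 31 (.thr 48 15 (.thr 0 32 (.thr 22 52 (.dbl 42 62 63))))) (.rp 48 (.thr 16 31 (.thr 22 52 (.thr 20 23 (.thr 28 24 (.thr 19 25 (.dbl 18 17 30)))))) (.rp 15 (.thr 16 31 (.thr 22 52 (.thr 20 23 (.thr 28 24 (.thr 19 25 (.dbl 18 17 30)))))) (.rp 0 (.thr 16 31 (.thr 22 52 (.thr 20 23 (.thr 28 24 (.thr 19 25 (.dbl 18 17 30)))))) .nd))))))))) (.rp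 2 (.str 14 (.nv (.thr 22 52 (.thr 23 20 (.thr 55 39 (.dbl 38 4 50)))) (.nv (.thr 15 48 (.thr 12 13 (.thr 38 50 (.thr 39 36 (.dbl 51 25 27))))) (.nv (.thr 38 50 (.thr 39 36 (.dbl 55 4 23))) (.rp 50 (.thr 16 31 (.thr 22 52 (.thr 18 30 (.thr 19 17 (.thr 28 25 (.dbl 20 23 24)))))) (.rp 39 (.thr 16 31 (.thr 22 52 (.thr 18 30 (.thr 19 17 (.thr 28 25 (.dbl 20 23 24)))))) (.rp 38 (.thr 16 31 (.thr 22 52 (.thr 18 30 (.thr 19 17 (.thr 28 25 (.dbl 20 23 24)))))) (.rp 36 (.thr 38 50 (.thr 55 4 (.thr 23 39 (.dbl 22 20 52)))) .nd)))))))) .nd))))))))) (.rp 4 (.str 26 (.nv (.thr 15 48 (.thr 3 11 (.thr 31 16 (.thr 63 47 (.thr 23 43 (.thr 27 19 (.dbl 39 51 55))))))) (.nv (.thr 15 48 (.thr 3 11 (.thr 31 16 (.thr 63 47 (.thr 23 43 (.dbl 22 20 52)))))) (.nv (.thr 16 31 (.thr 22 52 (.thr 20 23 (.thr 18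 30 (.thr 28 24 (.dbl 19 17 25)))))) (.rp 31 (.thr 15 48 (.thr 3 11 (.thr 22 52 (.thr 20 23 (.thr 30 18 (.thr 60 45 (.thr 0 40 (.thr 2 1 (.dbl 42 62 63))))))))) (.rp 27 (.thr 16 31 (.thr 22 52 (.thr 18 30 (.thr 19 17 (.thr 20 23 (.dbl 28 24 25)))))) (.rp 23 (.thr 16 31 (.thr 48 15 (.thr 0 32 (.thr 22 52 (.thr 18 30 (.thr 3 33 (.thr 2 1 (.dbl 42 62 63)))))))) (.rp 16 (.thr 15 48 (.thr 3 11 (.thr 22 52 (.thr 20 23 (.thr 30 18 (.thr 60 45 (.thr 0 40 (.thr 2 1 (.dbl 42 62 63))))))))) .nd)))))))) .nd))))))))))))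

theorem w374 : WinAt (137441050656, 9009398277997568) :=
  chF (K := []) kn c374 137441050656 9009398277997568 53
    [] (by decide +kernel) (by decide +kernel)

end Pool.Agent.TTT.B43
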