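import Pool.Agent.TTT.B43

/-!
Certified forced wins in positions of the 4 x 4 x 4 board.
-/

set_option autoImplicit false
set_option maxRecDepth 1000000
set_option linter.all false

namespace Pool.Agent.TTT.B43

/-- A certificate. -/
noncomputable def c375 : Ct := (.str 52 (.nv (.thr 53 5 (.thr 55 54 (.thr 4 38 (.thr 22 7 (.dbl 20 23 36))))) (.nv (.thr 5 53 (.thr 7 22 (.thr 4 6 (.thr 38 55 (.dbl 36 20 39))))) (.nv (.thr 53 5 (.thr 55 54 (.thr 38 4 (.thr 39 36 (.dbl 7 22 23))))) (.rp 58 (.str 26 (.nv (.thr 22 7 (.thr 20 23 (.thr 4 36 (.thr 55 38 (.dbl 53 5 54))))) (.nv (.thr 22 7 (.thr 18 30 (.thr 48 15 (.thr 3 33 (.dbl 60 41 56))))) (.rp 22 (.thr 16 31 (.thr 48 15 (.thr 60 56 (.thr 0 32 (.thr 20 40 (.thr 24 28 (.dbl 36 4 12))))))) (.rp 7 (.thr 16 31 (.thr 48 15 (.thr 60 56 (.thr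 0 32 (.thr 20 40 (.thr 24 28 (.dbl 36 4 12))))))) (.rp 5 (.thr 31 16 (.thr 22 7 (.thr 23 20 (.thr 19 27 (.thr 28 25 (.dbl 30 18 29)))))) .nd)))))) (.rp 55 (.str 26 (.nv (.thr 16 31 (.thr 22 7 (.thr 48 15 (.thr 0 32 (.thr 60 56 (.dbl 20 23 40)))))) (.nv (.thr 48 15 (.thr 60 56 (.thr 22 7 (.thr 18 30 (.dbl 3 33 41))))) (.nv (.thr 22 7 (.thr 23 20 (.thr 30 18 (.thr 31 16 (.thr 19 27 (.dbl 28 25 29)))))) (.rp 23 (.thr 16 31 (.thr 48 15 (.thr 60 56 (.thr 0 32 (.thr 20 40 (.thr 24 28 (.dbl 36 4 12))))))) (.rp 22 (.thr 16 31 (.thr 48 15 (.thr 60 56 (.thr 0 32 (.thr 20 40 (.thr 24 28 (.dbl 36 4 12))))))) (.rp 7 (.thr 16 31 (.thr 48 15 (.thr 60 56 (.thr 0 32 (.thr 20 40 (.thr 24 28 (.dbl 36 4 12))))))) .nd))))))) (.rp 53 (.str 26 (.nv (.thr 16 31 (.thr 22 7 (.thr 20 23 (.thr 36 4 (.thr 48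 15 (.dbl 24 12 28)))))) (.nv (.thr 16 31 (.thr 22 7 (.thr 18 30 (.thr 19 17 (.thr 20 23 (.dbl 28 24 25)))))) (.nv (.thr 48 15 (.thr 60 56 (.thr 22 7 (.thr 18 30 (.dbl 3 33 41))))) (.rp 22 (.thr 16 31 (.thr 48 15 (.thr 60 56 (.thr 0 32 (.thr 20 40 (.thr 24 28 (.dbl 36 4 12))))))) (.rp 7 (.thr 16 31 (.thr 48 15 (.thr 60 56 (.thr 0 32 (.thr 20 40 (.thr 24 28 (.dbl 36 4 12))))))) .nd)))))) (.rp 38 (.thr 5 53 (.thr 22 7 (.thr 23 20 (.str 26 (.nv (.thr 30 18 (.thr 31 16 (.thr 19 27 (.dbl 28 25 29)))) (.nv (.thr 48 15 (.thr 60 56 (.thr 18 30 (.dbl 3 33 41)))) (.rp 46 (.str 34 (.nv (.thr 18 30 (.thr 48 15 (.thr 3 33 (.dbl 60 41 56)))) (.nv (.thr 16 31 (.thr 48 15 (.thr 32 0 (.thr 33 35 (.thr 41 45 (.dbl 60 3 56)))))) (.nv (.thr 30 18 (.thr 31 16 (.thr 19 27 (.dbl 28 25 29)))) .nd)))) (.rp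 34 (.str 46 (.nv (.thr 30 18 (.thr 31 16 (.thr 19 27 (.dbl 28 25 29)))) (.nv (.thr 15 48 (.thr 31 16 (.thr 19 27 (.thr 63 47 (.thr 29 12 (.dbl 25 17 28)))))) (.nv (.thr 48 15 (.thr 60 56 (.thr 18 30 (.dbl 3 33 41)))) .nd)))) (.rp 30 (.thr 15 48 (.thr 31 16 (.thr 63 47 (.thr 27 19 (.thr 51 39 (.thr 59 55 (.dbl 43 3 11))))))) (.rp 18 (.thr 15 48 (.thr 31 16 (.thr 63 47 (.thr 19 27 (.thr 28 25 (.thr 30 29 (.thr 60 45 (.dbl 3 41 43)))))))) .nd)))))))))) (.rp 36 (.str 26 (.nv (.thr 16 31 (.thr 22 7 (.thr 20 23 (.thr 48 15 (.thr 0 32 (.dbl 60 40 56)))))) (.nv (.thr 16 31 (.thr 22 7 (.thr 18 30 (.thr 19 17 (.thr 20 23 (.dbl 28 24 25)))))) (.nv (.thr 48 15 (.thr 60 56 (.thr 22 7 (.thr 18 30 (.dbl 3 33 41))))) (.rp 22 (.thr 48 15 (.thr 56 60 (.thr 41 11 (.thr 45 33 (.thr 61 1 (.thr 13 29 (.thr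 49 25 (.dbl 53 5 57)))))))) (.rp 7 (.thr 16 31 (.thr 48 15 (.thr 60 56 (.thr 53 5 (.thr 0 32 (.thr 54 55 (.thr 57 51 (.thr 61 49 (.dbl 63 58 62))))))))) .nd)))))) (.rp 26 (.str 58 (.nv (.thr 5 53 (.thr 7 22 (.thr 4 6 (.thr 38 55 (.dbl 36 20 39))))) (.nv (.thr 53 5 (.thr 48 63 (.thr 54 55 (.thr 60 56 (.thr 51 57 (.dbl 50 49 62)))))) (.nv (.thr 53 5 (.thr 22 7 (.thr 20 23 (.thr 55 54 (.dbl 4 36 38))))) (.rp 55 (.thr 53 5 (.thr 48 63 (.thr 60 56 (.thr 22 7 (.thr 41 3 (.thr 45 33 (.thr 61 1 (.thr 49 57 (.dbl 13 25 29))))))))) (.rp 53 (.thr 22 7 (.str 60 (.nv (.thr 41 3 (.thr 56 48 (.thr 61 1 (.thr 62 63 (.thr 54 50 (.dbl 57 51 59)))))) (.nv (.thr 20 23 (.thr 0 40 (.thr 48 56 (.thr 16 32 (.thr 24 28 (.dbl 36 4 12)))))) (.nv (.thr 20 23 (.thr 36 4 (.thr 56 48 (.thr 57 59 (.thr 54 51 (.dbl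 38 6 39)))))) (.rp 56 (.thr 20 23 (.thr 36 4 (.thr 40 0 (.thr 44 32 (.thr 41 3 (.dbl 38 35 39)))))) (.rp 48 (.thr 20 23 (.thr 4 36 (.thr 0 40 (.thr 12 8 (.thr 44 28 (.thr 41 3 (.dbl 38 35 55))))))) (.rp 23 (.thr 56 48 (.thr 57 59 (.thr 54 51 (.thr 41 3 (.thr 61 1 (.dbl 62 50 63)))))) .nd)))))))) (.rp 5 (.str 60 (.nv (.thr 22 7 (.thr 20 23 (.thr 4 36 (.thr 55 38 (.thr 53 54 (.dbl 48 56 63)))))) (.nv (.thr 22 7 (.thr 20 23 (.thr 0 40 (.thr 48 56 (.thr 16 32 (.thr 24 28 (.dbl 36 4 12))))))) (.nv (.thr 48 56 (.thr 53 63 (.thr 54 55 (.thr 51 57 (.dbl 50 49 62))))) (.rp 56 (.thr 22 7 (.thr 41 3 (.thr 61 1 (.thr 62 63 (.thr 54 50 (.thr 53 55 (.dbl 57 49 51))))))) (.rp 55 (.thr 48 56 (.thr 63 53 (.thr 61 62 (.thr 41 1 (.dbl 22 3 7))))) (.rp 48 (.thr 22 7 (.thr 41 3 (.thr 61 1 (.thr 62 63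 (.thr 54 50 (.thr 53 55 (.dbl 57 49 51))))))) (.rp 15 (.str 0 (.nv (.thr 22 7 (.dbl 20 23 40)) (.nv (.thr 20 40 (.dbl 22 7 23)) (.rp 40 (.thr 48 56 (.thr 53 63 (.thr 54 55 (.thr 50 62 (.dbl 51 49 57))))) (.rp 23 (.thr 48 56 (.thr 20 40 (.thr 36 4 (.thr 24 12 (.dbl 16 28 32))))) (.rp 22 (.thr 48 56 (.thr 20 40 (.thr 36 4 (.thr 24 12 (.dbl 16 28 32))))) (.rp 20 (.thr 48 56 (.thr 53 63 (.thr 54 55 (.thr 50 62 (.dbl 51 49 57))))) (.rp 7 (.thr 48 56 (.thr 20 40 (.thr 4 36 (.thr 53 63 (.dbl 55 38 54))))) .nd)))))))) (.rp 0 (.str 15 (.nv (.thr 48 56 (.thr 53 63 (.thr 54 55 (.thr 51 57 (.dbl 50 49 62))))) (.nv (.thr 45 30 (.thr 41 33 (.dbl 22 3 7))) (.rp 41 (.thr 22 7 (.thr 20 23 (.thr 4 36 (.thr 55 38 (.thr 53 54 (.dbl 48 56 63)))))) .nd)))) .nd))))))))) .nd))))))) (.rp 22 (.str 26 (.nv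 (.thr 48 15 (.thr 56 60 (.thr 41 11 (.thr 45 33 (.thr 61 1 (.thr 13 29 (.thr 49 25 (.dbl 53 5 57)))))))) (.nv (.thr 15 48 (.thr 53 5 (.thr 55 54 (.thr 38 4 (.thr 14 50 (.thr 12 13 (.thr 39 36 (.dbl 51 25 27)))))))) (.nv (.thr 16 31 (.thr 48 15 (.thr 0 32 (.thr 60 56 (.thr 20 40 (.thr 36 4 (.dbl 24 12 28))))))) (.rp 62 (.str 2 (.nv (.thr 15 48 (.thr 53 5 (.thr 55 54 (.thr 38 4 (.thr 39 36 (.thr 51 27 (.thr 12 25 (.dbl 14 13 50)))))))) (.nv (.thr 16 31 (.thr 48 15 (.thr 0 32 (.thr 1 3 (.thr 41 61 (.dbl 56 11 60)))))) (.rp 48 (.thr 53 5 (.thr 55 54 (.thr 38 4 (.thr 50 14 (.thr 18 34 (.thr 16 31 (.thr 17 19 (.thr 25 29 (.thr 49 13 (.thr 1 33 (.dbl 61 41 57))))))))))) (.rp 15 (.str 38 (.nv (.thr 36 39 (.dbl 4 20 55)) (.nv (.thr 55 4 (.dbl 53 5 54)) (.rp 55 (.thr 36 39 (.thr 20 4 (.thr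 16 31 (.thr 24 28 (.thr 12 48 (.dbl 25 27 51)))))) (.rp 5 (.str 0 (.nv (.thr 4 55 (.dbl 36 20 39)) (.rp 55 (.thr 3 1 (.thr 50 14 (.thr 18 34 (.thr 48 33 (.dbl 16 31 32))))) (.rp 39 (.thr 3 1 (.thr 50 14 (.thr 18 34 (.thr 48 33 (.dbl 16 31 32))))) (.rp 36 (.thr 3 1 (.thr 50 14 (.thr 18 34 (.thr 48 33 (.dbl 16 31 32))))) (.rp 20 (.thr 3 1 (.thr 50 14 (.thr 18 34 (.thr 48 33 (.dbl 16 31 32))))) (.rp 4 (.thr 3 1 (.thr 50 14 (.thr 18 34 (.thr 48 33 (.dbl 16 31 32))))) .nd))))))) (.rp 4 (.thr 50 14 (.thr 18 34 (.thr 16 31 (.thr 17 19 (.thr 25 29 (.thr 49 13 (.thr 12 51 (.thr 1 33 (.thr 61 41 (.dbl 53 5 57)))))))))) (.rp 0 (.thr 5 53 (.thr 36 39 (.dbl 4 20 55))) .nd))))))) (.rp 7 (.thr 48 15 (.thr 16 31 (.thr 0 32 (.thr 3 1 (.thr 18 33 (.thr 17 19 (.dbl 34 50 51))))))) .nd)))))) (.rp 48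 (.str 61 (.nv (.thr 53 5 (.thr 49 57 (.thr 13 25 (.thr 41 1 (.dbl 45 29 33))))) (.nv (.thr 5 53 (.thr 1 41 (.thr 13 9 (.thr 25 49 (.dbl 29 17 45))))) (.nv (.thr 53 5 (.thr 49 57 (.thr 25 13 (.thr 17 29 (.dbl 1 33 41))))) (.rp 62 (.str 2 (.nv (.thr 53 5 (.thr 49 57 (.thr 13 25 (.thr 41 1 (.dbl 45 29 33))))) (.nv (.thr 5 53 (.thr 1 41 (.thr 13 9 (.thr 25 49 (.dbl 29 17 45))))) (.nv (.thr 53 5 (.thr 49 57 (.thr 25 13 (.thr 17 29 (.dbl 1 33 41))))) (.rp 53 (.thr 41 1 (.thr 45 33 (.thr 29 13 (.thr 11 56 (.thr 31 16 (.thr 30 28 (.thr 15 60 (.thr 3 7 (.thr 63 47 (.thr 12 46 (.thr 9 6 (.dbl 25 17 57)))))))))))) (.rp 49 (.thr 1 41 (.thr 5 53 (.thr 9 13 (.thr 3 0 (.thr 6 12 (.thr 4 7 (.thr 36 20 (.dbl 38 39 55)))))))) (.rp 41 (.thr 53 5 (.thr 49 57 (.thr 25 13 (.thr 16 31 (.thr 24 27 (.thr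 20 28 (.thr 4 36 (.dbl 55 38 54)))))))) (.rp 29 (.thr 1 41 (.thr 5 53 (.thr 9 13 (.thr 3 0 (.thr 6 12 (.thr 4 7 (.thr 36 20 (.dbl 38 39 55)))))))) (.rp 25 (.thr 1 41 (.thr 5 53 (.thr 9 13 (.thr 3 0 (.thr 6 12 (.thr 4 7 (.thr 36 20 (.dbl 38 39 55)))))))) (.rp 13 (.thr 1 41 (.thr 53 5 (.thr 49 57 (.thr 17 33 (.thr 16 31 (.thr 18 19 (.thr 34 50 (.dbl 0 3 51)))))))) (.rp 5 (.thr 41 1 (.thr 45 33 (.thr 13 29 (.thr 49 25 (.thr 53 57 (.thr 31 16 (.thr 55 54 (.thr 38 4 (.thr 39 36 (.thr 35 44 (.thr 47 43 (.thr 15 63 (.dbl 14 12 50))))))))))))) (.rp 1 (.thr 53 5 (.thr 49 57 (.thr 16 31 (.thr 55 54 (.thr 38 4 (.thr 50 14 (.thr 18 34 (.thr 17 19 (.dbl 25 13 29))))))))) .nd)))))))))))) (.rp 53 (.thr 31 16 (.thr 41 1 (.thr 45 33 (.thr 29 13 (.thr 30 28 (.thr 15 60 (.thr 63 47 (.thr 12 46 (.thr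 11 56 (.thr 3 7 (.thr 9 6 (.dbl 25 17 57)))))))))))) (.rp 49 (.thr 31 16 (.thr 53 5 (.thr 55 54 (.thr 38 4 (.thr 39 36 (.thr 7 23 (.thr 41 1 (.thr 35 44 (.thr 47 43 (.thr 11 56 (.dbl 15 3 63))))))))))) (.rp 41 (.thr 16 31 (.thr 53 5 (.thr 55 54 (.thr 49 57 (.thr 25 13 (.thr 24 27 (.thr 20 28 (.dbl 4 36 38)))))))) (.rp 29 (.thr 31 16 (.thr 53 5 (.thr 55 54 (.thr 49 57 (.thr 25 13 (.thr 27 24 (.thr 23 19 (.thr 39 7 (.dbl 38 4 36))))))))) (.rp 25 (.thr 31 16 (.thr 53 5 (.thr 55 54 (.thr 57 49 (.thr 38 4 (.thr 39 36 (.thr 50 14 (.thr 7 23 (.thr 41 1 (.thr 44 35 (.thr 33 45 (.thr 11 56 (.thr 15 3 (.thr 63 47 (.dbl 51 27 59))))))))))))))) (.rp 13 (.thr 31 16 (.thr 53 5 (.thr 55 54 (.thr 49 57 (.thr 38 4 (.thr 1 41 (.thr 17 33 (.thr 25 29 (.thr 27 24 (.thr 23 19 (.dbl 39 7 36)))))))))))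 (.rp 5 (.thr 31 16 (.thr 41 1 (.thr 45 33 (.thr 13 29 (.thr 49 25 (.thr 53 57 (.thr 55 54 (.thr 38 4 (.thr 44 35 (.thr 47 46 (.thr 14 50 (.dbl 15 12 63)))))))))))) (.rp 2 (.str 62 (.nv (.thr 1 41 (.thr 5 53 (.thr 13 9 (.thr 25 49 (.dbl 29 17 45))))) (.nv (.thr 41 1 (.thr 45 33 (.thr 13 29 (.thr 49 25 (.dbl 53 5 57))))) (.nv (.thr 60 63 (.thr 53 5 (.thr 54 55 (.dbl 57 49 51)))) (.rp 53 (.thr 31 16 (.thr 41 1 (.thr 45 33 (.thr 29 13 (.thr 30 28 (.dbl 60 15 63)))))) (.rp 49 (.thr 63 60 (.thr 31 16 (.thr 15 47 (.thr 53 5 (.thr 55 54 (.thr 51 59 (.thr 39 27 (.dbl 38 4 36)))))))) (.rp 14 (.str 6 (.nv (.thr 1 41 (.thr 53 5 (.thr 49 57 (.thr 17 33 (.dbl 25 13 29))))) (.nv (.thr 5 53 (.thr 4 7 (.thr 36 20 (.dbl 38 39 55)))) (.rp 53 (.thr 31 16 (.thr 41 1 (.thr 45 33 (.thr 29 13 (.thr 30 28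 (.dbl 60 15 63)))))) (.rp 5 (.thr 60 63 (.thr 41 1 (.thr 11 56 (.thr 45 33 (.thr 15 30 (.thr 3 7 (.thr 29 13 (.thr 9 12 (.dbl 25 17 57))))))))) .nd))))) (.rp 6 (.str 14 (.nv (.thr 38 50 (.thr 36 39 (.dbl 4 20 55))) (.nv (.thr 30 46 (.thr 41 1 (.thr 45 33 (.dbl 60 15 63)))) (.nv (.thr 50 38 (.thr 54 58 (.dbl 53 5 55))) (.rp 38 (.str 54 (.nv (.dbl 53 5 55) (.rp 55 (.thr 60 63 (.thr 53 5 (.dbl 57 49 51))) (.rp 53 (.thr 60 63 (.thr 58 50 (.thr 41 1 (.thr 56 11 (.dbl 57 51 59))))) (.rp 46 (.str 34 (.nv (.dbl 53 5 55) (.rp 55 (.thr 53 5 (.thr 57 49 (.dbl 60 51 63))) (.rp 53 (.thr 58 50 (.thr 41 1 (.thr 60 63 (.thr 56 11 (.dbl 57 51 59))))) (.rp 5 (.thr 60 63 (.thr 53 55 (.dbl 57 49 51))) .nd))))) (.rp 34 (.thr 46 30 (.dbl 53 5 55)) (.rp 5 (.thr 60 63 (.thr 53 55 (.dbl 57 49 51))) .nd)))))))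 (.rp 34 (.thr 53 5 (.thr 54 55 (.dbl 50 38 58))) .nd)))))) (.rp 5 (.thr 63 60 (.thr 31 16 (.thr 15 47 (.thr 41 1 (.thr 45 33 (.thr 13 29 (.thr 14 12 (.thr 38 50 (.thr 36 39 (.dbl 4 20 55)))))))))) .nd))))))))) (.rp 1 (.thr 31 16 (.thr 53 5 (.thr 55 54 (.thr 49 57 (.thr 13 25 (.thr 45 29 (.thr 38 4 (.thr 14 50 (.thr 15 12 (.thr 63 47 (.dbl 60 30 62))))))))))) .nd)))))))))))))) (.rp 15 (.thr 5 53 (.str 25 (.nv (.thr 16 31 (.thr 24 27 (.thr 20 28 (.thr 36 4 (.thr 12 48 (.dbl 38 39 51)))))) (.nv (.thr 29 17 (.thr 13 49 (.thr 1 9 (.dbl 61 41 45)))) (.rp 62 (.str 2 (.nv (.thr 29 17 (.thr 13 49 (.thr 61 45 (.dbl 1 9 41)))) (.nv (.thr 29 17 (.thr 13 49 (.thr 1 9 (.dbl 61 41 45)))) (.rp 61 (.thr 16 31 (.thr 24 27 (.thr 20 28 (.thr 36 4 (.thr 12 48 (.dbl 38 39 51)))))) (.rp 49 (.thr 16 31 (.thr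 24 27 (.thr 20 28 (.thr 36 4 (.thr 12 48 (.dbl 38 39 51)))))) (.rp 45 (.thr 16 31 (.thr 24 27 (.thr 20 28 (.thr 36 4 (.thr 12 48 (.dbl 38 39 51)))))) (.rp 41 (.thr 16 31 (.thr 24 27 (.thr 20 28 (.thr 36 4 (.thr 12 48 (.dbl 38 39 51)))))) (.rp 29 (.thr 13 49 (.thr 1 9 (.thr 0 3 (.thr 16 31 (.thr 48 32 (.thr 56 60 (.dbl 41 11 61))))))) (.rp 17 (.thr 16 31 (.thr 24 27 (.thr 20 28 (.thr 36 4 (.thr 12 48 (.dbl 38 39 51)))))) (.rp 13 (.thr 16 31 (.thr 24 27 (.thr 20 28 (.thr 36 4 (.thr 12 48 (.dbl 38 39 51)))))) (.rp 9 (.thr 16 31 (.thr 24 27 (.thr 20 28 (.thr 36 4 (.thr 12 48 (.dbl 38 39 51)))))) (.rp 1 (.thr 16 31 (.thr 24 27 (.thr 20 28 (.thr 36 4 (.thr 12 48 (.dbl 38 39 51)))))) .nd)))))))))))) (.rp 29 (.thr 27 24 (.str 38 (.nv (.thr 36 39 (.dbl 4 20 55)) (.rp 62 (.str 2 (.nv (.thr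 36 39 (.dbl 4 20 55)) (.rp 55 (.thr 36 39 (.thr 4 20 (.thr 13 49 (.thr 1 9 (.thr 0 3 (.dbl 12 8 51)))))) (.rp 39 (.thr 4 55 (.thr 13 49 (.thr 1 9 (.thr 0 3 (.dbl 12 8 51))))) (.rp 36 (.thr 4 55 (.thr 6 7 (.thr 13 49 (.thr 9 1 (.dbl 12 3 51))))) (.rp 20 (.thr 39 36 (.thr 55 4 (.thr 23 7 (.dbl 31 16 19)))) (.rp 4 (.thr 50 14 (.thr 34 18 (.thr 13 49 (.thr 1 9 (.thr 0 3 (.dbl 51 12 17)))))) .nd))))))) (.rp 55 (.thr 36 39 (.thr 4 20 (.thr 12 51 (.thr 13 49 (.thr 9 1 (.dbl 6 3 7)))))) (.rp 39 (.thr 4 55 (.thr 12 51 (.thr 13 49 (.thr 9 1 (.dbl 6 3 7))))) (.rp 36 (.thr 4 55 (.thr 6 7 (.thr 12 51 (.thr 13 49 (.dbl 9 1 3))))) (.rp 20 (.thr 39 36 (.thr 55 4 (.thr 23 7 (.dbl 31 16 19)))) (.rp 4 (.thr 51 12 (.thr 13 49 (.thr 31 16 (.thr 19 23 (.thr 35 3 (.thr 41 44 (.dbl 9 1 57))))))) (.rp 2 (.str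 62 (.nv (.thr 36 39 (.dbl 4 20 55)) (.rp 55 (.thr 36 39 (.thr 4 20 (.thr 12 51 (.thr 13 49 (.thr 9 1 (.dbl 6 3 7)))))) (.rp 39 (.thr 4 55 (.thr 12 51 (.thr 13 49 (.thr 9 1 (.dbl 6 3 7))))) (.rp 36 (.thr 4 55 (.thr 6 7 (.thr 12 51 (.thr 13 49 (.dbl 9 1 3))))) (.rp 20 (.thr 39 36 (.thr 55 4 (.thr 23 7 (.dbl 31 16 19)))) (.rp 14 (.str 6 (.nv (.thr 12 51 (.thr 13 49 (.dbl 9 1 3))) (.nv (.dbl 4 7 55) (.rp 13 (.thr 12 51 (.dbl 4 7 55)) (.rp 12 (.thr 13 49 (.dbl 4 7 55)) .nd))))) (.rp 6 (.thr 14 50 (.thr 36 39 (.dbl 4 20 55))) (.rp 4 (.thr 51 12 (.thr 13 49 (.thr 31 16 (.thr 19 23 (.thr 35 3 (.thr 41 44 (.dbl 9 1 57))))))) .nd))))))))) .nd)))))))))) (.rp 2 (.str 62 (.nv (.thr 16 31 (.thr 24 27 (.thr 20 28 (.thr 36 4 (.thr 12 48 (.dbl 38 39 51)))))) (.nv (.thr 29 17 (.thr 13 49 (.thr 61 45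 (.dbl 1 9 41)))) (.rp 30 (.thr 29 17 (.thr 13 49 (.thr 1 9 (.dbl 61 41 45)))) (.rp 29 (.thr 13 49 (.thr 1 9 (.thr 61 41 (.thr 60 63 (.thr 48 56 (.thr 24 27 (.thr 12 36 (.thr 28 44 (.dbl 16 20 31))))))))) (.rp 14 (.str 6 (.nv (.thr 13 49 (.thr 29 17 (.thr 61 45 (.dbl 1 9 41)))) (.nv (.thr 4 7 (.thr 36 20 (.dbl 38 39 55))) (.rp 13 (.str 12 (.nv (.thr 4 7 (.thr 36 20 (.dbl 24 27 48))) (.nv (.thr 24 27 (.thr 36 48 (.dbl 38 39 51))) (.nv (.thr 4 7 (.dbl 38 51 55)) .nd)))) .nd)))) (.rp 6 (.str 14 (.nv (.thr 13 49 (.thr 1 9 (.thr 29 17 (.dbl 61 41 45)))) (.nv (.thr 38 50 (.thr 4 55 (.dbl 36 20 39))) (.rp 38 (.str 54 (.nv (.thr 13 49 (.thr 1 9 (.thr 29 17 (.dbl 61 41 45)))) (.nv (.thr 29 17 (.thr 31 16 (.dbl 30 28 46))) (.rp 46 (.str 34 (.nv (.thr 17 29 (.thr 50 58 (.thr 51 0 (.dbl 49 13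 48)))) (.nv (.thr 13 49 (.thr 29 17 (.thr 61 45 (.dbl 1 9 41)))) (.nv (.thr 50 58 (.thr 49 13 (.thr 17 29 (.dbl 51 0 48)))) (.rp 49 (.thr 58 50 (.thr 17 29 (.thr 51 0 (.thr 57 60 (.thr 41 9 (.dbl 56 11 59)))))) (.rp 29 (.thr 58 50 (.thr 13 49 (.thr 9 1 (.thr 57 41 (.thr 56 59 (.dbl 60 48 51)))))) (.rp 17 (.thr 50 58 (.thr 49 13 (.thr 16 31 (.thr 24 27 (.thr 20 28 (.thr 36 4 (.dbl 48 12 51))))))) (.rp 13 (.thr 50 58 (.thr 17 29 (.thr 51 0 (.thr 60 57 (.dbl 48 49 56))))) .nd)))))))) (.rp 34 (.thr 46 30 (.thr 13 49 (.thr 29 17 (.thr 63 12 (.dbl 61 45 60))))) (.rp 29 (.thr 13 49 (.thr 58 50 (.thr 9 1 (.thr 57 41 (.thr 56 59 (.dbl 60 48 51)))))) (.rp 17 (.thr 13 49 (.thr 31 16 (.thr 1 9 (.thr 61 41 (.thr 29 45 (.dbl 30 28 46)))))) .nd))))))) .nd)))) .nd))))))) .nd))))))) (.rp 2 (.str 62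 (.nv (.thr 53 5 (.thr 54 55 (.thr 58 50 (.dbl 48 15 63)))) (.nv (.thr 48 15 (.thr 60 56 (.thr 63 61 (.dbl 53 5 58)))) (.rp 63 (.thr 31 16 (.thr 15 48 (.thr 53 5 (.thr 55 54 (.thr 38 4 (.thr 39 36 (.thr 27 51 (.dbl 23 7 19)))))))) (.rp 58 (.thr 31 16 (.thr 15 48 (.thr 63 47 (.thr 60 61 (.thr 30 45 (.thr 29 28 (.dbl 46 12 14))))))) (.rp 53 (.thr 31 16 (.thr 15 48 (.thr 63 47 (.thr 60 61 (.thr 30 45 (.thr 29 28 (.dbl 46 12 14))))))) (.rp 48 (.thr 31 16 (.thr 53 5 (.thr 55 54 (.thr 38 4 (.thr 14 50 (.thr 30 46 (.thr 29 28 (.thr 25 17 (.thr 49 13 (.thr 61 57 (.thr 63 60 (.dbl 51 12 59)))))))))))) (.rp 15 (.thr 5 53 (.str 25 (.nv (.thr 16 31 (.thr 24 27 (.thr 20 28 (.thr 36 4 (.thr 12 48 (.dbl 38 39 51)))))) (.nv (.thr 29 17 (.thr 13 49 (.thr 61 45 (.dbl 1 9 41)))) (.rp 30 (.thr 29 17 (.thr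 13 49 (.thr 1 9 (.dbl 61 41 45)))) (.rp 29 (.thr 13 49 (.thr 1 9 (.thr 61 41 (.thr 60 63 (.thr 48 56 (.thr 24 27 (.thr 12 36 (.thr 28 44 (.dbl 16 20 31))))))))) (.rp 14 (.str 6 (.nv (.thr 13 49 (.thr 29 17 (.thr 61 45 (.dbl 1 9 41)))) (.nv (.thr 4 7 (.thr 36 20 (.dbl 38 39 55))) (.rp 13 (.str 12 (.nv (.thr 4 7 (.thr 36 20 (.dbl 24 27 48))) (.nv (.thr 24 27 (.thr 36 48 (.dbl 38 39 51))) (.nv (.thr 4 7 (.dbl 38 51 55)) .nd)))) .nd)))) (.rp 6 (.str 14 (.nv (.thr 13 49 (.thr 1 9 (.thr 29 17 (.dbl 61 41 45)))) (.nv (.thr 38 50 (.thr 4 55 (.dbl 36 20 39))) (.rp 38 (.str 54 (.nv (.thr 13 49 (.thr 1 9 (.thr 29 17 (.dbl 61 41 45)))) (.nv (.thr 29 17 (.thr 31 16 (.dbl 30 28 46))) (.rp 46 (.str 34 (.nv (.thr 17 29 (.thr 50 58 (.thr 51 0 (.dbl 49 13 48)))) (.nv (.thr 13 49 (.thr 29 17 (.thr 61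 45 (.dbl 1 9 41)))) (.nv (.thr 50 58 (.thr 49 13 (.thr 17 29 (.dbl 51 0 48)))) (.rp 49 (.thr 58 50 (.thr 17 29 (.thr 51 0 (.thr 57 60 (.thr 41 9 (.dbl 56 11 59)))))) (.rp 29 (.thr 58 50 (.thr 13 49 (.thr 9 1 (.thr 57 41 (.thr 56 59 (.dbl 60 48 51)))))) (.rp 17 (.thr 50 58 (.thr 49 13 (.thr 16 31 (.thr 24 27 (.thr 20 28 (.thr 36 4 (.dbl 48 12 51))))))) (.rp 13 (.thr 50 58 (.thr 17 29 (.thr 51 0 (.thr 60 57 (.dbl 48 49 56))))) .nd)))))))) (.rp 34 (.thr 46 30 (.thr 13 49 (.thr 29 17 (.thr 63 12 (.dbl 61 45 60))))) (.rp 29 (.thr 13 49 (.thr 58 50 (.thr 9 1 (.thr 57 41 (.thr 56 59 (.dbl 60 48 51)))))) (.rp 17 (.thr 13 49 (.thr 31 16 (.thr 1 9 (.thr 61 41 (.thr 29 45 (.dbl 30 28 46)))))) .nd))))))) .nd)))) .nd)))))))) (.rp 14 (.str 6 (.nv (.thr 48 15 (.thr 60 56 (.thr 63 61 (.dbl 53 5 58))))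 (.nv (.thr 5 53 (.thr 4 7 (.thr 36 20 (.dbl 38 39 55)))) (.rp 53 (.thr 48 15 (.thr 60 56 (.thr 16 31 (.thr 0 32 (.thr 20 40 (.thr 36 4 (.dbl 24 12 28))))))) (.rp 5 (.thr 16 31 (.thr 48 15 (.thr 0 32 (.thr 60 56 (.thr 20 40 (.thr 36 4 (.dbl 24 12 28))))))) .nd))))) (.rp 6 (.str 14 (.nv (.thr 48 15 (.thr 60 56 (.thr 63 61 (.dbl 53 5 58)))) (.nv (.thr 38 50 (.thr 36 39 (.dbl 4 20 55))) (.rp 38 (.str 54 (.nv (.dbl 53 5 55) (.rp 55 (.thr 53 5 (.thr 58 50 (.dbl 48 15 63))) (.rp 53 (.thr 48 15 (.thr 60 56 (.thr 50 58 (.dbl 51 49 57)))) (.rp 46 (.str 34 (.nv (.dbl 53 5 55) (.rp 55 (.thr 58 50 (.thr 53 5 (.dbl 48 15 63))) (.rp 53 (.thr 50 58 (.thr 48 15 (.thr 60 56 (.dbl 51 49 57)))) (.rp 5 (.thr 58 50 (.thr 53 55 (.dbl 48 15 63))) .nd))))) (.rp 34 (.thr 46 30 (.dbl 53 5 55)) (.rp 5 (.thr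 53 55 (.thr 58 50 (.dbl 48 15 63))) .nd))))))) .nd)))) (.rp 5 (.thr 31 16 (.thr 15 48 (.thr 63 47 (.thr 60 61 (.thr 30 45 (.thr 29 28 (.dbl 46 12 14))))))) (.rp 0 (.thr 48 15 (.thr 5 53 (.thr 60 56 (.thr 61 63 (.thr 1 41 (.thr 13 9 (.thr 29 45 (.dbl 25 17 49)))))))) .nd)))))))))))) .nd)))))))) (.rp 7 (.str 26 (.nv (.thr 53 5 (.thr 55 54 (.thr 31 16 (.thr 15 48 (.thr 63 47 (.thr 51 59 (.thr 39 27 (.dbl 38 4 36)))))))) (.nv (.thr 16 31 (.thr 48 15 (.thr 0 32 (.thr 60 56 (.thr 20 40 (.thr 24 28 (.dbl 36 4 12))))))) (.rp 63 (.thr 16 31 (.thr 53 5 (.thr 55 54 (.thr 4 38 (.thr 20 36 (.thr 22 23 (.thr 18 30 (.thr 28 24 (.dbl 19 17 25))))))))) (.rp 48 (.thr 16 31 (.thr 53 5 (.thr 55 54 (.thr 4 38 (.thr 20 36 (.thr 22 23 (.thr 18 30 (.thr 19 17 (.dbl 28 24 25))))))))) (.rp 47 (.thr 16 31 (.thr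 53 5 (.thr 55 54 (.thr 4 38 (.thr 20 36 (.thr 22 23 (.thr 18 30 (.thr 28 24 (.dbl 19 17 25))))))))) (.rp 43 (.thr 16 31 (.thr 48 15 (.thr 60 56 (.thr 53 5 (.thr 0 32 (.thr 55 54 (.thr 4 38 (.dbl 20 36 40)))))))) (.rp 36 (.thr 16 31 (.thr 48 15 (.thr 60 56 (.thr 53 5 (.thr 0 32 (.thr 54 55 (.thr 57 51 (.thr 61 49 (.dbl 63 58 62))))))))) (.rp 32 (.thr 16 31 (.thr 53 5 (.thr 55 54 (.thr 4 38 (.thr 20 36 (.thr 22 23 (.thr 18 30 (.thr 28 24 (.dbl 19 17 25))))))))) (.rp 31 (.thr 15 48 (.thr 53 5 (.thr 55 54 (.thr 4 38 (.thr 20 36 (.thr 22 23 (.thr 30 18 (.thr 60 45 (.thr 0 40 (.thr 12 8 (.thr 13 14 (.thr 25 49 (.dbl 28 19 44))))))))))))) (.rp 16 (.thr 15 48 (.thr 53 5 (.thr 55 54 (.thr 4 38 (.thr 20 36 (.thr 22 23 (.thr 30 18 (.thr 60 45 (.thr 0 40 (.thr 12 8 (.thr 13 14 (.thr 25 49 (.dbl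 28 19 44))))))))))))) (.rp 15 (.thr 5 53 (.thr 31 16 (.str 25 (.nv (.thr 13 49 (.thr 1 9 (.thr 61 41 (.dbl 29 17 45)))) (.nv (.thr 29 17 (.thr 28 30 (.thr 27 24 (.dbl 19 22 23)))) (.rp 45 (.thr 27 24 (.thr 19 23 (.thr 28 22 (.dbl 29 17 30)))) (.rp 29 (.thr 27 24 (.thr 23 19 (.thr 20 22 (.thr 4 36 (.thr 38 55 (.thr 12 51 (.thr 0 8 (.thr 60 40 (.thr 56 48 (.thr 44 28 (.dbl 41 11 35))))))))))) (.rp 17 (.thr 27 24 (.thr 13 49 (.thr 19 23 (.thr 28 22 (.thr 29 30 (.thr 1 9 (.dbl 61 41 45))))))) (.rp 11 (.str 3 (.nv (.thr 13 49 (.thr 29 17 (.thr 61 45 (.dbl 1 9 41)))) (.nv (.thr 13 49 (.thr 9 1 (.thr 12 6 (.thr 24 27 (.thr 36 48 (.dbl 38 39 51)))))) (.nv (.thr 29 17 (.thr 28 30 (.thr 27 24 (.dbl 19 22 23)))) (.rp 17 (.thr 27 24 (.thr 19 23 (.thr 13 49 (.thr 51 35 (.thr 12 38 (.dbl 9 1 6))))))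 (.rp 9 (.str 8 (.nv (.thr 27 24 (.thr 19 23 (.thr 49 13 (.thr 51 35 (.thr 50 48 (.dbl 38 12 14)))))) (.nv (.thr 17 29 (.thr 49 13 (.thr 1 33 (.thr 0 2 (.thr 12 4 (.dbl 51 34 38)))))) (.nv (.thr 29 17 (.thr 28 30 (.thr 27 24 (.dbl 19 22 23)))) .nd)))) (.rp 8 (.str 9 (.nv (.dbl 13 1 49) (.rp 49 (.thr 1 13 (.dbl 41 57 61)) (.rp 13 (.thr 29 17 (.thr 28 30 (.thr 19 22 (.dbl 27 23 24)))) (.rp 1 (.thr 29 17 (.thr 28 30 (.thr 19 22 (.dbl 27 23 24)))) .nd))))) .nd))))))) (.rp 3 (.str 11 (.nv (.thr 27 24 (.thr 19 23 (.thr 29 17 (.dbl 28 22 30)))) (.nv (.thr 13 49 (.thr 41 56 (.dbl 9 1 57))) .nd))) .nd)))))))))) (.rp 11 (.thr 31 16 (.thr 15 48 (.thr 63 47 (.thr 53 5 (.thr 55 54 (.thr 51 59 (.thr 27 39 (.thr 25 24 (.dbl 38 4 12))))))))) (.rp 4 (.thr 16 31 (.thr 48 15 (.thr 60 56 (.thr 0 32 (.thr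 20 40 (.thr 22 23 (.thr 18 30 (.dbl 3 33 41)))))))) (.rp 0 (.thr 16 31 (.thr 15 48 (.thr 53 5 (.thr 55 54 (.thr 4 38 (.thr 20 36 (.thr 22 23 (.thr 18 30 (.thr 19 17 (.dbl 28 24 25)))))))))) .nd))))))))))))))) (.rp 5 (.str 26 (.nv (.thr 16 31 (.thr 48 15 (.thr 0 32 (.thr 60 56 (.thr 20 40 (.thr 24 28 (.dbl 36 4 12))))))) (.nv (.thr 16 31 (.thr 48 15 (.thr 0 32 (.thr 60 56 (.thr 20 40 (.dbl 22 7 23)))))) (.nv (.thr 31 16 (.thr 22 7 (.thr 30 18 (.thr 28 29 (.thr 23 20 (.dbl 19 25 27)))))) (.rp 31 (.thr 15 48 (.thr 22 7 (.thr 20 23 (.thr 30 18 (.thr 60 45 (.thr 4 36 (.thr 0 40 (.thr 12 8 (.thr 14 13 (.dbl 38 50 55)))))))))) (.rp 20 (.thr 16 31 (.thr 48 15 (.thr 0 32 (.thr 60 56 (.thr 22 7 (.thr 18 30 (.dbl 3 33 41))))))) (.rp 16 (.thr 15 48 (.thr 22 7 (.thr 20 23 (.thr 30 18 (.thr 60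 45 (.thr 4 36 (.thr 0 40 (.thr 12 8 (.thr 14 13 (.dbl 38 50 55)))))))))) (.rp 15 (.str 0 (.nv (.thr 16 31 (.thr 48 32 (.thr 60 56 (.thr 20 40 (.thr 24 28 (.dbl 36 4 12)))))) (.nv (.thr 22 7 (.thr 23 20 (.thr 30 18 (.thr 31 16 (.thr 28 29 (.dbl 19 25 27)))))) (.nv (.thr 22 7 (.thr 20 23 (.thr 60 40 (.thr 56 48 (.dbl 41 3 11))))) (.rp 20 (.thr 22 7 (.thr 18 30 (.thr 16 31 (.thr 48 32 (.thr 60 56 (.dbl 3 33 41)))))) (.rp 4 (.thr 16 31 (.thr 48 32 (.thr 60 56 (.thr 20 40 (.dbl 22 7 23))))) .nd)))))) (.rp 0 (.thr 15 48 (.thr 16 31 (.thr 22 7 (.thr 20 23 (.thr 18 30 (.thr 28 24 (.dbl 19 17 25))))))) .nd))))))))) (.rp 4 (.str 26 (.nv (.thr 16 31 (.thr 48 15 (.thr 0 32 (.thr 60 56 (.thr 20 40 (.dbl 22 7 23)))))) (.nv (.thr 16 31 (.thr 22 7 (.thr 18 30 (.thr 19 17 (.thr 20 23 (.dbl 28 24 25))))))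 (.nv (.thr 5 53 (.thr 22 7 (.thr 18 30 (.thr 48 15 (.thr 3 33 (.dbl 60 41 56)))))) (.rp 22 (.thr 48 15 (.thr 56 60 (.thr 41 11 (.thr 45 33 (.thr 61 1 (.thr 13 29 (.thr 49 25 (.dbl 53 5 57)))))))) (.rp 7 (.thr 16 31 (.thr 48 15 (.thr 60 56 (.thr 0 32 (.thr 20 40 (.thr 22 23 (.thr 18 30 (.dbl 3 33 41)))))))) .nd)))))) .nd))))))))))))))

theorem w375 : WinAt (137441050624, 4398046512128) :=
  chF (K := []) kn c375 137441050624 4398046512128 42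
    [288234774265332736] (by decide +kernel) (by decide +kernel)

/-- A certificate. -/
noncomputable def c376 : Ct := (.str 13 (.nv (.thr 25 49 (.thr 29 17 (.thr 61 45 (.dbl 1 9 41)))) (.nv (.thr 1 9 (.thr 49 25 (.thr 41 61 (.dbl 33 17 45)))) (.rp 61 (.thr 49 25 (.str 48 (.nv (.thr 1 9 (.thr 17 33 (.thr 51 50 (.thr 0 34 (.thr 2 3 (.thr 32 16 (.dbl 42 47 63))))))) (.nv (.thr 1 9 (.thr 33 17 (.thr 41 45 (.thr 3 18 (.thr 60 22 (.thr 26 15 (.dbl 56 11 52))))))) (.nv (.thr 26 15 (.thr 16 31 (.thr 0 32 (.thr 51 50 (.thr 17 34 (.dbl 1 9 33)))))) (.rp 33 (.thr 9 1 (.thr 15 26 (.thr 12 14 (.thr 6 3 (.thr 4 7 (.thr 38 55 (.dbl 36 24 39))))))) (.rp 17 (.thr 9 1 (.thr 15 26 (.thr 12 14 (.thr 6 3 (.thr 4 7 (.thr 38 55 (.dbl 36 24 39))))))) (.rp 16 (.thr 9 1 (.thr 15 26 (.thr 12 14 (.thr 6 3 (.thr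 4 7 (.thr 38 55 (.dbl 36 24 39))))))) (.rp 9 (.thr 51 50 (.thr 26 15 (.thr 16 31 (.thr 0 32 (.thr 17 34 (.thr 33 1 (.dbl 18 3 19))))))) (.rp 1 (.thr 50 51 (.thr 26 15 (.thr 16 31 (.thr 0 32 (.thr 38 14 (.thr 4 55 (.thr 12 8 (.dbl 36 24 39)))))))) .nd)))))))))) (.rp 49 (.str 61 (.nv (.dbl 1 9 41) (.rp 41 (.str 42 (.nv (.thr 29 45 (.thr 25 17 (.thr 59 8 (.thr 63 0 (.thr 51 55 (.dbl 12 38 46)))))) (.nv (.thr 45 29 (.thr 47 32 (.thr 63 0 (.thr 60 62 (.dbl 15 30 31))))) (.rp 63 (.thr 45 29 (.thr 47 32 (.thr 46 44 (.thr 38 34 (.thr 36 39 (.thr 4 55 (.thr 7 6 (.dbl 52 20 22)))))))) (.rp 45 (.thr 63 0 (.thr 62 60 (.thr 22 2 (.thr 47 32 (.thr 15 31 (.thr 14 12 (.thr 30 46 (.dbl 26 18 48)))))))) (.rp 29 (.thr 63 0 (.thr 62 60 (.thr 22 2 (.thr 47 32 (.thr 15 31 (.thr 14 12 (.thr 30 46 (.dbl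 26 18 48)))))))) (.rp 0 (.thr 45 29 (.thr 47 32 (.thr 46 44 (.thr 38 34 (.thr 36 39 (.thr 4 55 (.thr 7 6 (.dbl 52 20 22)))))))) .nd))))))) (.rp 9 (.thr 45 29 (.dbl 41 1 33)) (.rp 1 (.thr 45 29 (.thr 33 41 (.str 42 (.nv (.thr 63 0 (.thr 60 62 (.thr 15 30 (.dbl 47 31 32)))) (.nv (.thr 63 0 (.thr 60 62 (.thr 47 32 (.dbl 15 30 31)))) (.rp 63 (.thr 47 32 (.thr 46 44 (.thr 38 34 (.thr 4 55 (.thr 36 39 (.thr 52 20 (.dbl 7 6 22))))))) (.rp 62 (.thr 63 0 (.thr 47 32 (.thr 46 44 (.thr 38 34 (.thr 15 31 (.thr 14 12 (.dbl 26 48 50))))))) (.rp 60 (.thr 47 32 (.thr 46 44 (.thr 38 34 (.thr 4 55 (.thr 36 39 (.thr 52 20 (.dbl 7 6 22))))))) (.rp 47 (.str 38 (.nv (.thr 4 55 (.thr 34 46 (.thr 35 32 (.thr 36 39 (.thr 52 20 (.dbl 7 6 22)))))) (.nv (.thr 63 0 (.thr 60 62 (.thr 15 30 (.thr 26 48 (.dbl 14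 12 50))))) (.nv (.thr 4 55 (.thr 7 6 (.thr 52 22 (.dbl 36 20 39)))) (.rp 39 (.str 35 (.nv (.dbl 34 32 46) (.rp 46 (.thr 4 55 (.thr 7 6 (.thr 63 0 (.thr 62 60 (.dbl 22 2 52))))) (.rp 34 (.thr 4 55 (.thr 7 6 (.thr 63 0 (.thr 62 60 (.dbl 22 2 52))))) (.rp 32 (.thr 34 46 (.thr 4 55 (.thr 0 63 (.thr 12 8 (.dbl 51 17 25))))) .nd))))) (.rp 35 (.thr 39 36 (.thr 34 46 (.thr 4 55 (.thr 0 63 (.thr 12 8 (.dbl 51 17 25)))))) .nd)))))) (.rp 32 (.thr 63 0 (.thr 60 62 (.thr 15 30 (.thr 31 47 (.dbl 26 16 48))))) (.rp 31 (.thr 47 32 (.thr 46 44 (.thr 38 34 (.thr 4 55 (.thr 36 39 (.thr 52 20 (.dbl 7 6 22))))))) (.rp 30 (.thr 47 32 (.thr 46 44 (.thr 38 34 (.thr 4 55 (.thr 36 39 (.thr 52 20 (.dbl 7 6 22))))))) (.rp 15 (.thr 47 32 (.thr 46 44 (.thr 38 34 (.thr 4 55 (.thr 36 39 (.thr 52 20 (.dbl 7 6 22)))))))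 (.rp 3 (.thr 47 32 (.thr 46 44 (.thr 38 34 (.thr 4 55 (.thr 36 39 (.thr 52 20 (.dbl 7 6 22))))))) (.rp 2 (.thr 47 32 (.thr 46 44 (.thr 38 34 (.thr 4 55 (.thr 36 39 (.thr 52 20 (.dbl 7 6 22))))))) (.rp 0 (.thr 47 32 (.thr 46 44 (.thr 38 34 (.thr 4 55 (.thr 36 39 (.thr 52 20 (.dbl 7 6 22))))))) .nd)))))))))))))))) .nd))))) (.rp 45 (.str 7 (.nv (.thr 22 52 (.thr 23 20 (.thr 55 39 (.dbl 4 6 38)))) (.nv (.thr 4 6 (.thr 22 52 (.thr 55 38 (.dbl 23 20 39)))) (.rp 55 (.thr 9 1 (.thr 25 49 (.thr 6 4 (.thr 12 3 (.thr 38 51 (.dbl 22 52 54)))))) (.rp 52 (.thr 9 1 (.thr 25 49 (.thr 6 4 (.thr 12 3 (.thr 51 38 (.thr 15 14 (.thr 27 39 (.dbl 26 24 48)))))))) (.rp 39 (.thr 9 1 (.thr 25 49 (.thr 6 4 (.thr 3 12 (.thr 22 52 (.dbl 41 57 60)))))) (.rp 38 (.thr 9 1 (.thr 25 49 (.thr 6 4 (.thr 3 12 (.thr 22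 52 (.dbl 41 57 60)))))) (.rp 23 (.thr 4 6 (.thr 38 55 (.thr 36 39 (.dbl 52 20 22)))) (.rp 22 (.thr 25 49 (.thr 29 17 (.thr 4 6 (.thr 38 55 (.thr 12 51 (.thr 0 8 (.dbl 63 42 46))))))) (.rp 20 (.thr 9 1 (.thr 25 49 (.thr 6 4 (.thr 12 3 (.thr 38 51 (.dbl 22 52 54)))))) (.rp 6 (.thr 25 49 (.thr 29 17 (.thr 22 52 (.thr 20 23 (.thr 28 19 (.thr 16 24 (.dbl 31 26 30))))))) (.rp 4 (.thr 25 49 (.thr 29 17 (.thr 22 52 (.thr 20 23 (.thr 28 19 (.thr 16 24 (.dbl 31 26 30))))))) .nd)))))))))))) (.rp 41 (.thr 9 1 (.str 7 (.nv (.thr 4 6 (.thr 38 55 (.thr 52 22 (.dbl 36 20 39)))) (.nv (.thr 6 4 (.thr 12 3 (.thr 25 49 (.thr 38 51 (.dbl 22 52 54))))) (.nv (.thr 4 6 (.thr 22 52 (.thr 23 20 (.dbl 55 38 39)))) (.rp 52 (.thr 25 49 (.thr 6 4 (.thr 12 3 (.thr 51 38 (.thr 15 14 (.thr 27 39 (.dbl 26 24 48)))))))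 (.rp 42 (.str 40 (.nv (.thr 4 6 (.thr 38 55 (.thr 52 22 (.dbl 36 20 39)))) (.nv (.thr 6 4 (.thr 12 3 (.thr 25 49 (.thr 38 51 (.dbl 22 52 54))))) (.nv (.thr 4 6 (.thr 22 52 (.thr 23 20 (.dbl 55 38 39)))) (.rp 58 (.str 26 (.nv (.thr 4 6 (.thr 22 52 (.thr 23 20 (.dbl 55 38 39)))) (.nv (.thr 6 4 (.thr 3 12 (.dbl 15 11 48))) (.rp 63 (.thr 48 15 (.thr 4 6 (.thr 22 52 (.thr 23 20 (.dbl 55 38 39))))) (.rp 48 (.str 63 (.nv (.thr 4 6 (.thr 22 52 (.thr 23 20 (.dbl 55 38 39)))) (.nv (.thr 16 31 (.thr 22 52 (.thr 18 30 (.thr 17 19 (.dbl 25 29 49))))) (.nv (.thr 31 16 (.thr 15 47 (.thr 12 14 (.dbl 6 3 4)))) .nd)))) (.rp 6 (.thr 16 31 (.thr 48 15 (.thr 0 32 (.thr 22 52 (.dbl 20 23 60))))) (.rp 4 (.thr 16 31 (.thr 48 15 (.thr 0 32 (.thr 22 52 (.dbl 20 23 60))))) .nd))))))) (.rp 52 (.thr 25 49 (.thr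 6 4 (.thr 12 3 (.thr 51 38 (.thr 15 14 (.thr 27 39 (.dbl 26 24 48))))))) (.rp 38 (.thr 25 49 (.thr 17 29 (.thr 22 52 (.thr 19 28 (.thr 16 18 (.thr 23 20 (.dbl 31 26 27))))))) (.rp 26 (.str 58 (.nv (.thr 4 6 (.thr 38 55 (.thr 52 22 (.dbl 36 20 39)))) (.nv (.thr 6 4 (.thr 12 3 (.thr 25 49 (.thr 38 51 (.dbl 22 52 54))))) (.nv (.thr 4 6 (.thr 22 52 (.thr 23 20 (.dbl 55 38 39)))) (.rp 56 (.str 11 (.nv (.thr 4 6 (.thr 22 52 (.thr 23 20 (.dbl 55 38 39)))) (.nv (.thr 6 4 (.dbl 3 12 15)) (.rp 6 (.thr 22 52 (.thr 20 23 (.thr 60 0 (.thr 25 49 (.thr 28 19 (.thr 12 44 (.dbl 15 3 14))))))) (.rp 4 (.thr 22 52 (.thr 3 15 (.thr 12 6 (.thr 25 49 (.thr 19 28 (.dbl 51 35 38)))))) .nd))))) (.rp 52 (.thr 6 4 (.thr 25 49 (.thr 12 3 (.thr 38 51 (.thr 36 39 (.thr 44 32 (.thr 28 60 (.dbl 22 19 54)))))))) (.rp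 38 (.thr 6 4 (.thr 22 52 (.thr 20 23 (.thr 60 0 (.thr 25 49 (.thr 28 19 (.dbl 12 3 44))))))) (.rp 22 (.thr 4 6 (.thr 38 55 (.thr 36 39 (.thr 25 49 (.thr 12 51 (.thr 8 0 (.dbl 24 48 56))))))) (.rp 11 (.str 56 (.nv (.thr 22 52 (.thr 20 23 (.thr 24 8 (.thr 25 49 (.dbl 28 16 19))))) (.nv (.thr 4 6 (.thr 8 24 (.thr 12 0 (.thr 25 49 (.dbl 38 51 55))))) (.nv (.thr 4 6 (.thr 22 52 (.thr 23 20 (.dbl 55 38 39)))) (.rp 59 (.str 27 (.nv (.thr 8 24 (.thr 4 6 (.thr 0 12 (.thr 20 60 (.dbl 22 23 52))))) (.nv (.thr 4 6 (.thr 8 24 (.thr 12 0 (.thr 25 49 (.dbl 38 51 55))))) (.nv (.thr 25 49 (.thr 22 52 (.thr 19 28 (.dbl 23 20 31)))) (.nv (.thr 4 6 (.thr 22 52 (.thr 23 20 (.dbl 55 38 39)))) .nd))))) (.rp 55 (.thr 4 6 (.thr 52 22 (.thr 20 36 (.dbl 60 0 48)))) (.rp 27 (.thr 59 57 (.thr 4 6 (.thr 52 22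 (.thr 36 20 (.dbl 38 39 55))))) .nd))))))) (.rp 6 (.thr 22 52 (.thr 20 23 (.thr 60 0 (.thr 25 49 (.thr 28 19 (.thr 12 44 (.thr 24 16 (.thr 38 51 (.dbl 36 39 48))))))))) (.rp 4 (.thr 22 52 (.thr 20 23 (.thr 60 0 (.thr 25 49 (.thr 28 19 (.thr 12 44 (.thr 15 14 (.dbl 3 6 11)))))))) (.rp 2 (.thr 22 52 (.thr 23 20 (.thr 55 39 (.dbl 4 6 38)))) .nd)))))))))))) (.rp 22 (.thr 25 49 (.thr 4 6 (.thr 38 55 (.thr 36 39 (.thr 12 51 (.thr 8 0 (.dbl 24 48 56))))))) (.rp 6 (.thr 25 49 (.thr 17 29 (.thr 22 52 (.thr 19 28 (.thr 16 18 (.thr 23 20 (.dbl 31 26 27))))))) (.rp 4 (.thr 25 49 (.thr 22 52 (.thr 28 19 (.thr 20 23 (.thr 0 60 (.thr 16 24 (.thr 48 32 (.dbl 26 15 31)))))))) (.rp 2 (.thr 22 52 (.thr 23 20 (.thr 55 39 (.dbl 4 6 38)))) .nd)))))))))))) (.rp 40 (.str 42 (.nv (.thr 6 4 (.thr 3 12 (.thr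 15 11 (.thr 47 32 (.dbl 63 0 31))))) (.nv (.thr 4 6 (.thr 22 52 (.thr 55 38 (.dbl 23 20 39)))) (.rp 44 (.thr 4 6 (.thr 0 63 (.thr 8 12 (.dbl 25 49 59)))) (.rp 6 (.thr 0 63 (.thr 25 49 (.thr 17 29 (.thr 8 59 (.thr 12 4 (.dbl 51 34 38)))))) (.rp 4 (.thr 47 32 (.thr 63 0 (.thr 15 31 (.thr 3 11 (.dbl 12 6 14))))) .nd)))))) (.rp 38 (.thr 25 49 (.thr 17 29 (.thr 22 52 (.thr 23 20 (.thr 19 28 (.thr 31 27 (.dbl 16 18 26))))))) (.rp 22 (.thr 25 49 (.thr 4 6 (.thr 38 55 (.thr 36 39 (.thr 12 51 (.thr 48 24 (.dbl 15 14 26))))))) (.rp 6 (.thr 25 49 (.thr 17 29 (.thr 22 52 (.thr 23 20 (.thr 19 28 (.thr 31 27 (.dbl 16 18 26))))))) (.rp 4 (.thr 25 49 (.thr 17 29 (.thr 22 52 (.thr 19 28 (.thr 16 18 (.thr 31 26 (.dbl 23 20 27))))))) (.rp 2 (.thr 22 52 (.thr 23 20 (.thr 55 39 (.dbl 4 6 38)))) .nd)))))))))))))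 (.rp 33 (.thr 1 9 (.thr 61 41 (.thr 29 45 (.dbl 25 17 49)))) (.rp 25 (.str 7 (.nv (.thr 22 52 (.thr 23 20 (.thr 55 39 (.dbl 4 6 38)))) (.nv (.thr 4 6 (.thr 38 55 (.thr 52 22 (.dbl 36 20 39)))) (.nv (.thr 4 6 (.thr 22 52 (.thr 23 20 (.dbl 55 38 39)))) (.rp 55 (.thr 9 1 (.thr 6 4 (.thr 3 12 (.thr 15 11 (.thr 48 26 (.thr 33 18 (.thr 41 45 (.dbl 22 52 60)))))))) (.rp 52 (.thr 1 9 (.thr 41 61 (.thr 33 45 (.thr 4 6 (.thr 55 38 (.thr 23 39 (.thr 22 20 (.thr 3 60 (.thr 48 18 (.dbl 15 11 26)))))))))) (.rp 39 (.thr 1 9 (.thr 41 61 (.thr 33 45 (.thr 22 52 (.thr 3 60 (.thr 48 18 (.dbl 15 11 26))))))) (.rp 38 (.thr 1 9 (.thr 41 61 (.thr 33 45 (.thr 22 52 (.thr 3 60 (.thr 48 18 (.dbl 15 11 26))))))) (.rp 22 (.thr 1 9 (.thr 41 61 (.thr 45 33 (.thr 4 6 (.thr 38 55 (.thr 36 39 (.thr 44 35 (.thr 47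 46 (.dbl 32 40 42))))))))) (.rp 20 (.thr 1 9 (.thr 41 61 (.thr 33 45 (.thr 22 52 (.thr 3 60 (.thr 48 18 (.dbl 15 11 26))))))) (.rp 6 (.thr 1 9 (.thr 41 61 (.thr 33 45 (.thr 22 52 (.thr 3 60 (.thr 48 18 (.dbl 15 11 26))))))) (.rp 4 (.thr 1 9 (.thr 41 61 (.thr 33 45 (.thr 22 52 (.thr 3 60 (.thr 48 18 (.dbl 15 11 26))))))) .nd)))))))))))) (.rp 17 (.str 7 (.nv (.thr 22 52 (.thr 23 20 (.thr 55 39 (.dbl 4 6 38)))) (.nv (.thr 4 6 (.thr 22 52 (.thr 55 38 (.dbl 23 20 39)))) (.rp 55 (.thr 9 1 (.thr 6 4 (.thr 3 12 (.thr 22 52 (.thr 54 38 (.thr 41 60 (.dbl 25 49 57))))))) (.rp 52 (.thr 9 1 (.thr 6 4 (.thr 3 12 (.thr 15 11 (.thr 48 26 (.thr 25 49 (.thr 33 18 (.dbl 41 45 57)))))))) (.rp 39 (.thr 9 1 (.thr 6 4 (.thr 3 12 (.thr 22 52 (.thr 41 60 (.dbl 25 49 57)))))) (.rp 38 (.thr 9 1 (.thr 6 4 (.thr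 3 12 (.thr 22 52 (.thr 41 60 (.dbl 25 49 57)))))) (.rp 23 (.thr 4 6 (.thr 38 55 (.thr 36 39 (.dbl 52 20 22)))) (.rp 22 (.thr 25 49 (.thr 4 6 (.thr 38 55 (.thr 36 39 (.thr 12 51 (.thr 48 24 (.dbl 15 14 26))))))) (.rp 20 (.thr 1 9 (.thr 41 61 (.thr 33 45 (.thr 22 52 (.thr 3 60 (.thr 48 18 (.dbl 15 11 26))))))) (.rp 6 (.thr 1 9 (.thr 41 61 (.thr 33 45 (.thr 22 52 (.thr 3 60 (.thr 48 18 (.dbl 15 11 26))))))) (.rp 4 (.thr 1 9 (.thr 41 61 (.thr 33 45 (.thr 22 52 (.thr 3 60 (.thr 48 18 (.dbl 15 11 26))))))) .nd)))))))))))) (.rp 9 (.str 4 (.nv (.thr 25 49 (.thr 29 17 (.thr 38 55 (.thr 12 51 (.thr 63 46 (.dbl 0 8 42)))))) (.nv (.thr 7 6 (.thr 52 22 (.thr 38 55 (.dbl 36 20 39)))) (.rp 55 (.thr 25 49 (.thr 7 6 (.thr 52 22 (.thr 36 20 (.thr 38 39 (.thr 12 51 (.thr 48 24 (.dbl 15 14 26))))))))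 (.rp 52 (.thr 25 49 (.thr 29 17 (.thr 6 7 (.thr 38 55 (.thr 54 22 (.thr 12 51 (.thr 63 46 (.dbl 0 8 42)))))))) (.rp 38 (.thr 25 49 (.thr 17 29 (.thr 7 6 (.thr 22 52 (.thr 23 20 (.thr 19 28 (.thr 31 27 (.dbl 16 18 26)))))))) (.rp 12 (.thr 38 55 (.thr 36 39 (.thr 52 20 (.dbl 7 6 22)))) (.rp 11 (.str 8 (.nv (.thr 0 12 (.thr 25 49 (.dbl 42 59 63))) (.nv (.thr 38 55 (.thr 36 39 (.thr 52 20 (.dbl 7 6 22)))) (.nv (.thr 25 49 (.thr 12 0 (.dbl 38 51 55))) (.rp 59 (.str 27 (.nv (.thr 12 0 (.thr 15 14 (.thr 25 49 (.dbl 26 24 48)))) (.nv (.thr 7 6 (.thr 22 52 (.thr 23 20 (.dbl 55 38 39)))) (.nv (.thr 25 49 (.thr 12 0 (.dbl 38 51 55))) (.rp 12 (.thr 38 55 (.thr 36 39 (.thr 52 20 (.dbl 7 6 22)))) .nd))))) (.rp 27 (.str 59 (.nv (.thr 0 12 (.thr 63 42 (.dbl 55 38 51))) (.nv (.dbl 25 42 49) (.rp 42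 (.thr 25 49 (.thr 12 0 (.dbl 38 51 55))) .nd)))) .nd)))))) (.rp 8 (.str 11 (.nv (.thr 38 55 (.thr 36 39 (.thr 52 20 (.dbl 7 6 22)))) (.nv (.thr 7 6 (.thr 3 15 (.thr 22 52 (.thr 41 60 (.thr 45 33 (.dbl 61 1 29)))))) (.nv (.thr 7 6 (.thr 38 55 (.thr 52 22 (.dbl 36 20 39)))) (.rp 55 (.thr 7 6 (.thr 52 22 (.thr 36 20 (.thr 38 39 (.thr 25 49 (.thr 15 3 (.dbl 12 14 51))))))) (.rp 52 (.thr 7 6 (.thr 55 38 (.thr 23 39 (.thr 22 20 (.thr 3 15 (.thr 41 60 (.thr 61 1 (.dbl 45 29 33)))))))) (.rp 22 (.thr 7 6 (.thr 38 55 (.thr 25 49 (.thr 15 3 (.dbl 12 14 51))))) (.rp 7 (.thr 38 55 (.thr 25 49 (.thr 12 51 (.thr 15 14 (.thr 48 26 (.dbl 36 24 39)))))) (.rp 6 (.thr 38 55 (.thr 36 39 (.thr 25 49 (.thr 12 51 (.thr 48 24 (.dbl 15 14 26)))))) .nd))))))))) .nd))))))))) (.rp 1 (.str 7 (.nv (.thr 22 52 (.thr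 23 20 (.thr 55 39 (.dbl 4 6 38)))) (.nv (.thr 4 6 (.thr 55 38 (.thr 22 52 (.dbl 23 20 39)))) (.rp 55 (.thr 25 49 (.thr 4 6 (.thr 52 22 (.thr 36 20 (.thr 38 39 (.thr 12 51 (.thr 48 24 (.dbl 15 14 26)))))))) (.rp 52 (.thr 25 49 (.thr 17 29 (.thr 4 6 (.thr 55 38 (.thr 23 39 (.thr 22 20 (.thr 19 28 (.thr 31 27 (.dbl 16 18 26))))))))) (.rp 39 (.thr 25 49 (.thr 17 29 (.thr 22 52 (.thr 23 20 (.thr 19 28 (.thr 31 27 (.dbl 16 18 26))))))) (.rp 38 (.thr 25 49 (.thr 17 29 (.thr 22 52 (.thr 23 20 (.thr 19 28 (.thr 31 27 (.dbl 16 18 26))))))) (.rp 23 (.thr 4 6 (.thr 38 55 (.thr 36 39 (.dbl 52 20 22)))) (.rp 22 (.thr 25 49 (.thr 4 6 (.thr 38 55 (.thr 36 39 (.thr 12 51 (.thr 48 24 (.dbl 15 14 26))))))) (.rp 20 (.thr 25 49 (.thr 4 6 (.thr 38 55 (.thr 36 39 (.thr 12 51 (.thr 48 24 (.dbl 15 14 26)))))))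 (.rp 6 (.thr 25 49 (.thr 17 29 (.thr 22 52 (.thr 23 20 (.thr 19 28 (.thr 31 27 (.dbl 16 18 26))))))) (.rp 4 (.thr 25 49 (.thr 17 29 (.thr 22 52 (.thr 19 28 (.thr 16 18 (.thr 31 26 (.dbl 23 20 27))))))) .nd)))))))))))) .nd))))))))))))

theorem w376 : WinAt (137441050656, 9015995347764224) :=
  chF (K := []) kn c376 137441050656 9015995347764224 53
    [] (by decide +kernel) (by decide +kernel)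

/-- A certificate. -/
noncomputable def c377 : Ct := (.str 7 (.nv (.thr 22 52 (.thr 23 20 (.thr 55 39 (.dbl 4 6 38)))) (.nv (.thr 4 6 (.thr 52 22 (.thr 38 55 (.dbl 36 20 39)))) (.rp 55 (.thr 52 22 (.str 0 (.nv (.thr 42 63 (.thr 32 47 (.thr 48 16 (.thr 60 56 (.thr 20 40 (.dbl 4 6 36)))))) (.nv (.thr 4 6 (.thr 36 20 (.thr 38 39 (.thr 42 63 (.thr 34 46 (.thr 51 17 (.dbl 12 8 25))))))) (.nv (.thr 4 6 (.thr 12 8 (.thr 36 20 (.thr 48 24 (.thr 16 32 (.dbl 26 15 31)))))) (.rp 48 (.thr 4 6 (.thr 36 20 (.thr 38 39 (.thr 12 8 (.thr 51 25 (.thr 34 17 (.dbl 42 46 63))))))) (.rp 36 (.thr 6 4 (.thr 42 63 (.thr 32 47 (.thr 48 16 (.thr 15 26 (.thr 3 11 (.thr 1 2 (.dbl 9 12 13)))))))) (.rp 20 (.thr 6 4 (.thr 42 63 (.thr 32 47 (.thr 48 16 (.thr 15 26 (.thr 3 11 (.thr 1 2 (.dbl 9 12 13)))))))) (.rp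 8 (.thr 4 6 (.thr 20 36 (.thr 42 63 (.thr 60 40 (.thr 32 47 (.dbl 48 16 56)))))) (.rp 6 (.thr 42 63 (.thr 32 47 (.thr 48 16 (.thr 60 56 (.thr 40 20 (.thr 15 26 (.thr 41 43 (.dbl 45 30 33)))))))) (.rp 4 (.thr 42 63 (.thr 32 47 (.thr 48 16 (.thr 60 56 (.thr 40 20 (.thr 15 26 (.thr 41 43 (.dbl 45 30 33)))))))) .nd))))))))))) (.rp 52 (.str 55 (.nv (.dbl 4 6 38) (.rp 38 (.str 41 (.nv (.thr 1 61 (.thr 23 39 (.thr 22 20 (.thr 3 60 (.thr 0 2 (.dbl 63 42 43)))))) (.nv (.thr 33 45 (.thr 1 61 (.thr 49 17 (.dbl 13 9 25)))) (.rp 61 (.thr 33 45 (.thr 23 39 (.thr 22 20 (.thr 3 60 (.thr 15 11 (.dbl 48 18 26)))))) (.rp 49 (.thr 33 45 (.thr 23 39 (.thr 22 20 (.thr 3 60 (.thr 15 11 (.dbl 48 18 26)))))) (.rp 1 (.thr 33 45 (.thr 23 39 (.thr 22 20 (.thr 3 60 (.thr 15 11 (.dbl 48 18 26)))))) .nd)))))) (.rp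 6 (.thr 39 23 (.dbl 38 4 36)) (.rp 4 (.thr 23 39 (.thr 20 22 (.str 63 (.nv (.thr 3 43 (.thr 15 11 (.thr 26 48 (.dbl 31 16 47)))) (.nv (.thr 42 0 (.thr 47 32 (.thr 3 43 (.dbl 15 11 31)))) (.nv (.thr 3 43 (.thr 15 11 (.thr 47 31 (.dbl 42 0 32)))) (.rp 47 (.thr 51 59 (.thr 0 42 (.thr 17 34 (.thr 25 29 (.thr 13 49 (.thr 1 9 (.dbl 3 2 43))))))) (.rp 43 (.thr 51 59 (.thr 0 42 (.thr 17 34 (.thr 25 29 (.thr 49 13 (.thr 48 50 (.thr 16 32 (.dbl 26 15 31)))))))) (.rp 31 (.thr 51 59 (.thr 3 43 (.thr 0 42 (.thr 17 34 (.thr 25 29 (.thr 13 49 (.dbl 1 2 9))))))) (.rp 15 (.thr 51 59 (.thr 3 43 (.thr 0 42 (.thr 17 34 (.thr 25 29 (.thr 13 49 (.dbl 1 2 9))))))) (.rp 11 (.thr 51 59 (.thr 0 42 (.thr 17 34 (.thr 25 29 (.thr 49 13 (.thr 1 33 (.dbl 3 2 43))))))) (.rp 8 (.thr 51 59 (.thr 3 43 (.thr 11 15 (.thr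 35 19 (.str 25 (.nv (.thr 12 38 (.thr 13 49 (.dbl 9 1 6))) (.nv (.thr 17 29 (.dbl 0 34 42)) (.rp 12 (.thr 0 42 (.dbl 17 29 34)) .nd)))))))) (.rp 3 (.thr 51 59 (.thr 0 42 (.thr 17 34 (.thr 25 29 (.thr 13 49 (.thr 1 9 (.thr 61 41 (.dbl 60 40 62)))))))) .nd))))))))))))) .nd))))) (.rp 39 (.str 13 (.nv (.thr 25 49 (.thr 29 17 (.thr 61 45 (.dbl 1 9 41)))) (.nv (.thr 1 9 (.thr 41 61 (.thr 49 25 (.dbl 33 17 45)))) (.rp 61 (.thr 6 4 (.thr 22 52 (.thr 9 1 (.thr 12 3 (.thr 25 49 (.thr 57 41 (.dbl 38 51 54))))))) (.rp 49 (.thr 6 4 (.thr 22 52 (.thr 9 1 (.thr 3 12 (.thr 60 41 (.thr 15 11 (.thr 30 45 (.dbl 26 18 48)))))))) (.rp 45 (.thr 6 4 (.thr 22 52 (.thr 9 1 (.thr 12 3 (.thr 25 49 (.dbl 38 51 54)))))) (.rp 41 (.thr 6 4 (.thr 22 52 (.thr 9 1 (.thr 12 3 (.thr 25 49 (.dbl 38 51 54)))))) (.rp 33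 (.thr 1 9 (.thr 61 41 (.thr 29 45 (.dbl 25 17 49)))) (.rp 25 (.thr 22 52 (.thr 23 20 (.thr 1 9 (.thr 41 61 (.thr 3 60 (.thr 0 2 (.dbl 63 42 43))))))) (.rp 17 (.thr 22 52 (.thr 23 20 (.thr 1 9 (.thr 41 61 (.thr 3 60 (.thr 0 2 (.dbl 63 42 43))))))) (.rp 9 (.thr 4 6 (.thr 38 55 (.thr 25 49 (.thr 29 17 (.thr 12 51 (.thr 63 46 (.dbl 0 8 42))))))) (.rp 1 (.thr 4 6 (.thr 38 55 (.thr 25 49 (.thr 12 51 (.thr 0 8 (.thr 63 42 (.dbl 29 17 46))))))) .nd)))))))))))) (.rp 38 (.str 41 (.nv (.thr 1 61 (.thr 22 52 (.thr 3 60 (.thr 0 2 (.thr 23 20 (.dbl 63 42 43)))))) (.nv (.thr 22 52 (.thr 3 60 (.thr 15 11 (.thr 48 26 (.dbl 33 18 45))))) (.nv (.thr 33 45 (.thr 1 61 (.thr 49 17 (.dbl 13 9 25)))) .nd)))) (.rp 36 (.thr 4 6 (.thr 55 38 (.thr 23 39 (.dbl 22 20 52)))) (.rp 22 (.str 13 (.nv (.thr 25 49 (.thr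 29 17 (.thr 61 45 (.dbl 1 9 41)))) (.nv (.thr 1 9 (.thr 41 61 (.thr 49 25 (.dbl 33 17 45)))) (.nv (.thr 1 9 (.thr 25 49 (.thr 29 17 (.dbl 61 41 45)))) (.rp 61 (.thr 6 4 (.thr 9 1 (.thr 12 3 (.thr 15 14 (.thr 48 26 (.thr 36 24 (.thr 38 39 (.dbl 25 49 51)))))))) (.rp 49 (.thr 4 6 (.thr 38 55 (.thr 36 39 (.thr 1 9 (.thr 61 41 (.thr 29 45 (.thr 25 17 (.thr 12 51 (.thr 48 24 (.dbl 15 14 26)))))))))) (.rp 45 (.thr 4 6 (.thr 38 55 (.thr 36 39 (.thr 25 49 (.thr 12 51 (.thr 48 24 (.dbl 15 14 26))))))) (.rp 41 (.thr 4 6 (.thr 38 55 (.thr 36 39 (.thr 25 49 (.thr 12 51 (.thr 48 24 (.dbl 15 14 26))))))) (.rp 25 (.thr 6 4 (.thr 9 1 (.thr 12 3 (.thr 15 14 (.thr 26 48 (.thr 31 16 (.thr 63 47 (.thr 29 46 (.thr 45 61 (.dbl 30 28 60)))))))))) (.rp 17 (.thr 4 6 (.thr 38 55 (.thr 36 39 (.thr 25 49 (.thr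 12 51 (.thr 48 24 (.dbl 15 14 26))))))) (.rp 9 (.thr 4 6 (.thr 38 55 (.thr 36 39 (.thr 25 49 (.thr 12 51 (.thr 48 24 (.dbl 15 14 26))))))) (.rp 1 (.thr 4 6 (.thr 38 55 (.thr 36 39 (.thr 25 49 (.thr 12 51 (.thr 48 24 (.dbl 15 14 26))))))) .nd)))))))))))) (.rp 20 (.str 13 (.nv (.thr 25 49 (.thr 29 17 (.thr 61 45 (.dbl 1 9 41)))) (.nv (.thr 1 9 (.thr 41 61 (.thr 49 25 (.dbl 33 17 45)))) (.rp 61 (.thr 6 4 (.thr 9 1 (.thr 12 3 (.thr 25 49 (.thr 57 41 (.thr 38 51 (.dbl 22 52 54))))))) (.rp 49 (.thr 6 4 (.thr 9 1 (.thr 12 3 (.thr 15 14 (.thr 48 26 (.thr 22 52 (.thr 36 24 (.dbl 38 39 54)))))))) (.rp 45 (.thr 6 4 (.thr 9 1 (.thr 12 3 (.thr 25 49 (.thr 38 51 (.dbl 22 52 54)))))) (.rp 41 (.thr 6 4 (.thr 9 1 (.thr 12 3 (.thr 25 49 (.thr 38 51 (.dbl 22 52 54)))))) (.rp 33 (.thr 1 9 (.thr 61 41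 (.thr 29 45 (.dbl 25 17 49)))) (.rp 25 (.thr 22 52 (.thr 1 9 (.thr 41 61 (.thr 33 45 (.thr 3 60 (.thr 48 18 (.dbl 15 11 26))))))) (.rp 17 (.thr 4 6 (.thr 38 55 (.thr 36 39 (.thr 25 49 (.thr 12 51 (.thr 48 24 (.dbl 15 14 26))))))) (.rp 9 (.thr 4 6 (.thr 38 55 (.thr 36 39 (.thr 25 49 (.thr 12 51 (.thr 48 24 (.dbl 15 14 26))))))) (.rp 1 (.thr 4 6 (.thr 38 55 (.thr 36 39 (.thr 25 49 (.thr 12 51 (.thr 48 24 (.dbl 15 14 26))))))) .nd)))))))))))) (.rp 6 (.str 13 (.nv (.thr 25 49 (.thr 29 17 (.thr 61 45 (.dbl 1 9 41)))) (.nv (.thr 1 9 (.thr 41 61 (.thr 49 25 (.dbl 33 17 45)))) (.rp 61 (.thr 22 52 (.thr 1 9 (.thr 49 25 (.thr 33 17 (.thr 41 45 (.thr 3 60 (.thr 48 18 (.dbl 15 11 26)))))))) (.rp 49 (.thr 22 52 (.thr 20 23 (.thr 1 9 (.thr 61 41 (.thr 29 45 (.thr 25 17 (.thr 28 19 (.thr 31 30 (.dbl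 16 24 26))))))))) (.rp 45 (.thr 22 52 (.thr 23 20 (.thr 1 9 (.thr 41 61 (.thr 3 60 (.thr 63 43 (.dbl 0 2 42))))))) (.rp 41 (.thr 22 52 (.thr 23 20 (.thr 25 49 (.thr 17 29 (.thr 19 28 (.thr 16 18 (.dbl 31 26 27))))))) (.rp 33 (.thr 1 9 (.thr 61 41 (.thr 29 45 (.dbl 25 17 49)))) (.rp 25 (.thr 22 52 (.thr 23 20 (.thr 1 9 (.thr 41 61 (.thr 3 60 (.thr 63 43 (.dbl 0 2 42))))))) (.rp 17 (.thr 22 52 (.thr 23 20 (.thr 1 9 (.thr 41 61 (.thr 3 60 (.thr 63 43 (.dbl 0 2 42))))))) (.rp 14 (.str 2 (.nv (.thr 1 9 (.thr 22 52 (.thr 42 62 (.dbl 0 3 63)))) (.nv (.thr 25 49 (.thr 29 17 (.thr 61 45 (.dbl 1 9 41)))) (.nv (.thr 1 9 (.thr 3 0 (.thr 41 61 (.dbl 22 52 60)))) (.rp 9 (.thr 22 52 (.thr 42 62 (.thr 0 63 (.thr 3 1 (.thr 20 23 (.dbl 60 40 41)))))) (.rp 1 (.thr 25 49 (.thr 17 29 (.thr 22 52 (.thr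 23 20 (.thr 19 28 (.thr 31 27 (.dbl 16 18 26))))))) .nd)))))) (.rp 9 (.thr 22 52 (.thr 23 20 (.thr 25 49 (.thr 17 29 (.thr 19 28 (.thr 16 18 (.dbl 31 26 27))))))) (.rp 2 (.str 14 (.nv (.thr 15 12 (.thr 26 48 (.thr 38 50 (.thr 55 4 (.dbl 39 23 36))))) (.nv (.thr 25 49 (.thr 29 17 (.thr 61 45 (.dbl 1 9 41)))) (.rp 49 (.thr 15 12 (.thr 22 52 (.thr 23 20 (.thr 55 39 (.thr 26 48 (.dbl 38 4 50)))))) (.rp 9 (.thr 12 15 (.thr 25 49 (.thr 38 51 (.thr 55 4 (.dbl 39 23 36))))) .nd))))) (.rp 1 (.thr 22 52 (.thr 23 20 (.thr 25 49 (.thr 17 29 (.thr 19 28 (.thr 16 18 (.dbl 31 26 27))))))) .nd)))))))))))))) (.rp 4 (.str 13 (.nv (.thr 25 49 (.thr 29 17 (.thr 61 45 (.dbl 1 9 41)))) (.nv (.thr 1 9 (.thr 41 61 (.thr 49 25 (.dbl 33 17 45)))) (.rp 61 (.thr 22 52 (.thr 1 9 (.thr 49 25 (.thr 33 17 (.thr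 41 45 (.thr 3 60 (.thr 48 18 (.dbl 15 11 26)))))))) (.rp 49 (.thr 22 52 (.thr 20 23 (.thr 1 9 (.thr 61 41 (.thr 29 45 (.thr 25 17 (.thr 28 19 (.thr 31 30 (.dbl 16 24 26))))))))) (.rp 45 (.thr 22 52 (.thr 20 23 (.thr 25 49 (.thr 29 17 (.thr 28 19 (.thr 31 30 (.dbl 16 24 26))))))) (.rp 41 (.thr 22 52 (.thr 20 23 (.thr 25 49 (.thr 29 17 (.thr 28 19 (.thr 31 30 (.dbl 16 24 26))))))) (.rp 33 (.thr 1 9 (.thr 61 41 (.thr 29 45 (.dbl 25 17 49)))) (.rp 25 (.thr 22 52 (.thr 1 9 (.thr 41 61 (.thr 33 45 (.thr 3 60 (.thr 48 18 (.dbl 15 11 26))))))) (.rp 17 (.thr 22 52 (.thr 1 9 (.thr 41 61 (.thr 33 45 (.thr 3 60 (.thr 48 18 (.dbl 15 11 26))))))) (.rp 9 (.thr 22 52 (.thr 20 23 (.thr 25 49 (.thr 29 17 (.thr 28 19 (.thr 31 30 (.dbl 16 24 26))))))) (.rp 1 (.thr 22 52 (.thr 20 23 (.thr 25 49 (.thr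 28 19 (.thr 16 24 (.thr 31 26 (.dbl 29 17 30))))))) .nd)))))))))))) .nd))))))))))))

theorem w377 : WinAt (137441050656, 9024791440786432) :=
  chF (K := []) kn c377 137441050656 9024791440786432 53
    [] (by decide +kernel) (by decide +kernel)

/-- A certificate. -/
noncomputable def c378 : Ct := (.str 7 (.nv (.thr 22 52 (.thr 23 20 (.thr 55 39 (.dbl 4 6 38)))) (.nv (.thr 4 6 (.thr 55 38 (.thr 22 52 (.dbl 23 20 39)))) (.rp 55 (.thr 52 22 (.str 0 (.nv (.thr 4 6 (.thr 12 8 (.thr 36 20 (.thr 48 24 (.thr 16 32 (.dbl 26 15 31)))))) (.nv (.thr 42 63 (.thr 32 47 (.thr 48 16 (.thr 60 56 (.thr 20 40 (.dbl 4 6 36)))))) (.nv (.thr 4 6 (.thr 12 8 (.thr 36 20 (.thr 38 39 (.thr 25 51 (.thr 29 17 (.dbl 63 42 46))))))) (.nv (.thr 4 6 (.thr 20 36 (.thr 60 40 (.thr 48 56 (.thr 32 16 (.dbl 42 47 63))))))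 (.rp 36 (.thr 6 4 (.thr 42 63 (.thr 32 47 (.thr 48 16 (.thr 15 26 (.thr 3 11 (.thr 1 2 (.dbl 9 12 13)))))))) (.rp 20 (.thr 6 4 (.thr 42 63 (.thr 32 47 (.thr 48 16 (.thr 15 26 (.thr 3 11 (.thr 1 2 (.dbl 9 12 13)))))))) (.rp 8 (.thr 4 6 (.thr 20 36 (.thr 60 40 (.thr 42 63 (.thr 32 47 (.dbl 48 16 56)))))) (.rp 6 (.thr 42 63 (.thr 32 47 (.thr 48 16 (.thr 60 56 (.thr 40 20 (.thr 15 26 (.thr 3 11 (.thr 41 43 (.dbl 1 2 61))))))))) (.rp 4 (.thr 42 63 (.thr 32 47 (.thr 48 16 (.thr 60 56 (.thr 40 20 (.thr 15 26 (.thr 3 11 (.thr 41 43 (.dbl 1 2 61))))))))) .nd))))))))))) (.rp 52 (.str 55 (.nv (.dbl 4 6 38) (.rp 38 (.str 15 (.nv (.thr 26 48 (.thr 31 16 (.thr 39 23 (.thr 51 27 (.dbl 63 47 59))))) (.nv (.thr 3 11 (.thr 23 39 (.thr 26 48 (.thr 63 43 (.dbl 31 16 47))))) (.nv (.thr 3 11 (.thr 6 4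 (.thr 9 12 (.thr 1 13 (.thr 0 2 (.thr 23 39 (.dbl 63 42 43))))))) (.nv (.thr 39 23 (.thr 51 27 (.thr 63 59 (.thr 42 0 (.dbl 47 31 32))))) (.rp 63 (.thr 39 23 (.thr 6 4 (.thr 3 11 (.thr 9 12 (.thr 13 1 (.thr 49 25 (.thr 51 27 (.dbl 48 26 50)))))))) (.rp 39 (.thr 6 4 (.thr 3 11 (.thr 9 12 (.thr 1 13 (.thr 0 2 (.thr 63 42 (.thr 31 47 (.dbl 26 16 48)))))))) (.rp 23 (.thr 6 4 (.thr 3 11 (.thr 9 12 (.thr 1 13 (.thr 0 2 (.thr 63 42 (.thr 31 47 (.dbl 26 16 48)))))))) .nd)))))))) (.rp 6 (.thr 39 23 (.dbl 38 4 36)) (.rp 4 (.thr 39 23 (.thr 36 38 (.str 15 (.nv (.thr 51 27 (.thr 63 59 (.thr 42 0 (.dbl 47 31 32)))) (.nv (.thr 3 11 (.thr 48 26 (.thr 12 24 (.thr 9 6 (.dbl 13 1 14))))) (.nv (.thr 51 27 (.thr 63 59 (.thr 31 47 (.dbl 26 16 48)))) (.rp 27 (.str 47 (.nv (.thr 31 63 (.dbl 26 16 48)) (.nv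 (.thr 42 32 (.dbl 63 0 31)) (.rp 63 (.thr 43 35 (.thr 42 32 (.thr 41 40 (.thr 11 3 (.dbl 26 48 56))))) (.rp 31 (.str 19 (.nv (.thr 35 43 (.dbl 3 11 51)) (.rp 59 (.thr 43 35 (.thr 11 3 (.thr 42 32 (.thr 41 40 (.dbl 26 48 56))))) (.rp 51 (.thr 43 35 (.thr 11 3 (.thr 42 32 (.thr 41 40 (.dbl 26 48 56))))) (.rp 43 (.thr 42 32 (.thr 63 0 (.thr 59 51 (.thr 48 26 (.thr 12 24 (.thr 25 8 (.dbl 13 14 49))))))) (.rp 35 (.thr 3 11 (.thr 48 26 (.thr 18 33 (.thr 16 17 (.dbl 32 0 42))))) (.rp 11 (.thr 43 35 (.thr 42 32 (.thr 63 0 (.thr 59 51 (.thr 41 40 (.thr 1 61 (.thr 13 9 (.thr 8 25 (.thr 12 14 (.dbl 48 24 26)))))))))) (.rp 3 (.thr 43 35 (.thr 42 32 (.thr 41 40 (.thr 1 61 (.thr 13 9 (.thr 12 14 (.dbl 48 24 26))))))) .nd)))))))) .nd))))) (.rp 11 (.thr 51 27 (.thr 26 48 (.thr 31 16 (.dbl 63 47 59))))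 .nd)))))))) .nd))))) (.rp 39 (.str 13 (.nv (.thr 6 4 (.thr 9 1 (.thr 3 12 (.thr 22 52 (.thr 54 38 (.thr 41 60 (.dbl 25 49 57))))))) (.nv (.thr 4 6 (.thr 25 49 (.thr 38 55 (.thr 12 51 (.thr 0 8 (.thr 63 42 (.dbl 29 17 46))))))) (.nv (.thr 1 9 (.thr 22 52 (.thr 41 61 (.thr 49 25 (.thr 3 60 (.thr 33 17 (.thr 48 18 (.dbl 15 11 26)))))))) (.nv (.thr 6 4 (.thr 22 52 (.thr 9 1 (.thr 12 3 (.thr 25 49 (.dbl 38 51 54)))))) (.rp 54 (.thr 4 6 (.thr 38 55 (.thr 52 22 (.thr 36 20 (.thr 25 49 (.thr 12 51 (.thr 48 24 (.dbl 15 14 26)))))))) (.rp 52 (.thr 6 4 (.thr 9 1 (.thr 12 3 (.thr 15 14 (.thr 25 49 (.thr 26 48 (.thr 31 16 (.thr 63 47 (.dbl 29 17 46))))))))) (.rp 49 (.thr 6 4 (.thr 22 52 (.thr 9 1 (.thr 3 12 (.thr 15 11 (.thr 26 48 (.thr 31 16 (.thr 63 47 (.dbl 23 20 43))))))))) (.rp 25 (.thr 22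 52 (.thr 23 20 (.thr 1 9 (.thr 41 61 (.thr 3 60 (.thr 0 2 (.dbl 63 42 43))))))) (.rp 9 (.thr 4 6 (.thr 38 55 (.thr 25 49 (.thr 29 17 (.thr 12 51 (.thr 63 46 (.dbl 0 8 42))))))) .nd)))))))))) (.rp 38 (.str 13 (.nv (.thr 6 4 (.thr 9 1 (.thr 3 12 (.thr 22 52 (.thr 41 60 (.dbl 25 49 57)))))) (.nv (.thr 1 9 (.thr 22 52 (.thr 41 61 (.thr 49 25 (.thr 3 60 (.thr 33 17 (.thr 48 18 (.dbl 15 11 26)))))))) (.nv (.thr 1 9 (.thr 22 52 (.thr 20 23 (.thr 25 49 (.thr 28 19 (.thr 16 24 (.thr 29 17 (.dbl 31 26 30)))))))) (.nv (.thr 6 4 (.thr 22 52 (.thr 9 1 (.thr 3 12 (.thr 25 49 (.dbl 41 57 60)))))) (.rp 55 (.thr 6 4 (.thr 9 1 (.thr 12 3 (.thr 15 14 (.thr 25 49 (.thr 26 48 (.thr 31 16 (.thr 63 47 (.dbl 29 17 46))))))))) (.rp 54 (.thr 6 4 (.thr 9 1 (.thr 12 3 (.thr 15 14 (.thr 25 49 (.thr 26 48 (.thr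 31 16 (.thr 63 47 (.dbl 29 17 46))))))))) (.rp 52 (.thr 6 4 (.thr 9 1 (.thr 12 3 (.thr 15 14 (.thr 25 49 (.thr 26 48 (.thr 31 16 (.thr 63 47 (.dbl 29 17 46))))))))) (.rp 49 (.thr 6 4 (.thr 22 52 (.thr 9 1 (.thr 3 12 (.thr 15 11 (.thr 26 48 (.thr 31 16 (.thr 63 47 (.dbl 23 20 43))))))))) (.rp 25 (.thr 22 52 (.thr 23 20 (.thr 1 9 (.thr 41 61 (.thr 3 60 (.thr 0 2 (.dbl 63 42 43))))))) (.rp 22 (.thr 6 4 (.thr 9 1 (.thr 12 3 (.thr 15 14 (.thr 25 49 (.thr 26 48 (.thr 31 16 (.thr 63 47 (.dbl 29 17 46))))))))) (.rp 9 (.thr 22 52 (.thr 23 20 (.thr 25 49 (.thr 17 29 (.thr 19 28 (.thr 16 18 (.dbl 31 26 27))))))) (.rp 8 (.thr 22 52 (.thr 23 20 (.thr 25 49 (.thr 17 29 (.thr 19 28 (.thr 16 18 (.dbl 31 26 27))))))) (.rp 1 (.thr 22 52 (.thr 23 20 (.thr 25 49 (.thr 17 29 (.thr 19 28 (.thr 16 18 (.dbl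 31 26 27))))))) .nd)))))))))))))) (.rp 23 (.thr 4 6 (.thr 38 55 (.thr 36 39 (.dbl 52 20 22)))) (.rp 22 (.str 15 (.nv (.thr 3 11 (.thr 26 48 (.thr 31 16 (.thr 63 47 (.thr 23 43 (.thr 27 19 (.dbl 39 51 55))))))) (.nv (.thr 3 11 (.thr 6 4 (.thr 9 12 (.thr 1 13 (.thr 0 2 (.thr 42 63 (.thr 48 26 (.dbl 32 16 47)))))))) (.nv (.thr 4 6 (.thr 26 48 (.thr 38 55 (.thr 39 36 (.thr 14 50 (.thr 51 27 (.dbl 12 13 25))))))) (.rp 63 (.thr 4 6 (.thr 38 55 (.thr 39 36 (.thr 51 27 (.thr 12 25 (.thr 14 13 (.dbl 26 48 50))))))) (.rp 48 (.thr 4 6 (.thr 38 55 (.thr 39 36 (.thr 51 27 (.thr 12 25 (.thr 0 8 (.thr 34 17 (.dbl 42 46 63)))))))) (.rp 26 (.thr 4 6 (.thr 38 55 (.thr 39 36 (.thr 3 11 (.thr 51 27 (.thr 35 19 (.thr 41 44 (.thr 1 61 (.thr 25 12 (.dbl 13 9 49)))))))))) .nd))))))) (.rp 20 (.str 15 (.nv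 (.thr 3 11 (.thr 4 6 (.thr 38 55 (.thr 39 36 (.thr 51 27 (.thr 35 19 (.thr 41 44 (.dbl 22 52 60)))))))) (.nv (.thr 3 11 (.thr 6 4 (.thr 9 12 (.thr 1 13 (.thr 0 2 (.thr 26 48 (.thr 63 42 (.dbl 31 16 47)))))))) (.nv (.thr 3 11 (.thr 26 48 (.thr 31 16 (.thr 63 47 (.thr 23 43 (.thr 27 19 (.dbl 39 51 55))))))) (.nv (.thr 4 6 (.thr 38 55 (.thr 39 36 (.thr 51 27 (.thr 12 25 (.thr 26 48 (.dbl 14 13 50))))))) .nd))))) (.rp 6 (.thr 22 52 (.thr 23 20 (.thr 55 39 (.thr 4 38 (.str 26 (.nv (.thr 15 48 (.thr 3 11 (.thr 31 16 (.dbl 63 43 47)))) (.nv (.thr 15 48 (.thr 3 11 (.thr 60 41 (.thr 63 43 (.thr 62 61 (.dbl 42 0 2)))))) (.nv (.thr 30 18 (.thr 31 16 (.thr 19 27 (.dbl 28 25 29)))) (.rp 15 (.thr 31 16 (.thr 30 18 (.thr 28 29 (.dbl 19 25 27)))) (.rp 14 (.str 2 (.nv (.thr 15 48 (.thr 3 11 (.thr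 0 1 (.dbl 42 62 63)))) (.nv (.thr 30 18 (.thr 31 16 (.thr 19 27 (.dbl 28 25 29)))) (.rp 15 (.thr 31 16 (.thr 30 18 (.thr 28 29 (.dbl 19 25 27)))) .nd)))) (.rp 2 (.str 14 (.nv (.thr 30 18 (.thr 31 16 (.thr 28 29 (.dbl 19 25 27)))) (.nv (.thr 15 48 (.thr 3 11 (.thr 63 43 (.thr 0 42 (.dbl 12 8 13))))) (.nv (.thr 31 16 (.thr 19 27 (.thr 28 25 (.dbl 30 18 29)))) (.rp 27 (.thr 15 48 (.thr 31 16 (.thr 63 47 (.dbl 3 11 43)))) .nd))))) .nd))))))))))) (.rp 4 (.str 3 (.nv (.thr 15 11 (.thr 22 52 (.thr 41 60 (.thr 1 61 (.thr 48 26 (.thr 33 18 (.thr 49 17 (.dbl 13 9 25)))))))) (.nv (.thr 15 11 (.thr 26 48 (.thr 31 16 (.thr 63 47 (.thr 23 43 (.thr 27 19 (.dbl 39 51 55))))))) (.nv (.thr 22 52 (.thr 20 23 (.thr 60 41 (.thr 0 40 (.thr 2 1 (.dbl 42 62 63)))))) (.rp 63 (.thr 22 52 (.thr 20 23 (.thr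 15 11 (.thr 60 41 (.thr 0 40 (.thr 2 1 (.thr 42 62 (.thr 32 47 (.dbl 48 16 26))))))))) (.rp 55 (.thr 15 11 (.thr 26 48 (.thr 31 16 (.thr 63 47 (.thr 23 43 (.dbl 22 20 52)))))) .nd)))))) .nd))))))))))))

theorem w378 : WinAt (137441050656, 9042383626830848) :=
  chF (K := []) kn c378 137441050656 9042383626830848 53
    [] (by decide +kernel) (by decide +kernel)

/-- A certificate. -/
noncomputable def c379 : Ct := (.str 7 (.nv (.thr 22 52 (.thr 23 20 (.thr 55 39 (.dbl 4 6 38)))) (.nv (.thr 4 6 (.thr 52 22 (.thr 38 55 (.dbl 36 20 39)))) (.rp 55 (.thr 52 22 (.str 48 (.nv (.thr 4 6 (.thr 20 36 (.thr 60 56 (.thr 0 40 (.thr 8 12 (.thr 32 16 (.dbl 42 47 63))))))) (.nv (.thr 4 6 (.thr 36 20 (.thr 38 39 (.thr 12 24 (.thr 51 25 (.thr 26 15 (.dbl 50 14 49))))))) (.nv (.thr 26 15 (.thr 16 31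 (.thr 0 32 (.thr 60 56 (.thr 20 40 (.dbl 4 6 36)))))) (.rp 36 (.thr 6 4 (.thr 15 26 (.thr 3 11 (.thr 9 12 (.thr 1 13 (.thr 41 61 (.dbl 33 18 45))))))) (.rp 20 (.thr 6 4 (.thr 15 26 (.thr 3 11 (.thr 9 12 (.thr 1 13 (.thr 41 61 (.dbl 33 18 45))))))) (.rp 16 (.thr 6 4 (.thr 15 26 (.thr 3 11 (.thr 9 12 (.thr 1 13 (.thr 41 61 (.dbl 33 18 45))))))) (.rp 6 (.thr 60 56 (.thr 26 15 (.thr 16 31 (.thr 0 32 (.thr 20 40 (.thr 36 4 (.dbl 24 12 28))))))) (.rp 4 (.thr 56 60 (.thr 26 15 (.thr 16 31 (.thr 0 32 (.thr 41 11 (.thr 1 61 (.thr 3 2 (.dbl 33 18 45)))))))) .nd)))))))))) (.rp 52 (.str 55 (.nv (.dbl 4 6 38) (.rp 38 (.str 42 (.nv (.thr 23 39 (.thr 22 20 (.thr 62 2 (.thr 63 0 (.thr 60 61 (.dbl 3 41 43)))))) (.nv (.thr 39 23 (.thr 47 32 (.thr 63 0 (.thr 51 59 (.dbl 15 27 31))))) (.rp 63 (.thr 39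 23 (.thr 47 32 (.thr 43 35 (.thr 41 40 (.thr 33 45 (.thr 1 61 (.thr 13 9 (.dbl 49 17 25)))))))) (.rp 39 (.thr 63 0 (.thr 59 51 (.thr 25 8 (.thr 47 32 (.thr 15 31 (.thr 11 3 (.thr 27 43 (.dbl 26 24 48)))))))) (.rp 23 (.thr 63 0 (.thr 59 51 (.thr 25 8 (.thr 47 32 (.thr 15 31 (.thr 11 3 (.thr 27 43 (.dbl 26 24 48)))))))) (.rp 0 (.thr 39 23 (.thr 47 32 (.thr 43 35 (.thr 41 40 (.thr 33 45 (.thr 1 61 (.thr 13 9 (.dbl 49 17 25)))))))) .nd))))))) (.rp 6 (.thr 39 23 (.dbl 38 4 36)) (.rp 4 (.thr 39 23 (.thr 36 38 (.str 42 (.nv (.thr 63 0 (.thr 51 59 (.thr 15 27 (.dbl 47 31 32)))) (.nv (.thr 63 0 (.thr 51 59 (.thr 47 32 (.dbl 15 27 31)))) (.rp 63 (.thr 47 32 (.thr 43 35 (.thr 41 40 (.thr 1 61 (.thr 33 45 (.thr 49 17 (.dbl 13 9 25))))))) (.rp 59 (.thr 63 0 (.thr 47 32 (.thr 43 35 (.thr 41 40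 (.thr 15 31 (.thr 11 3 (.dbl 26 48 56))))))) (.rp 51 (.thr 47 32 (.thr 43 35 (.thr 41 40 (.thr 1 61 (.thr 33 45 (.thr 49 17 (.dbl 13 9 25))))))) (.rp 47 (.str 41 (.nv (.thr 1 61 (.thr 40 43 (.thr 33 45 (.thr 44 32 (.thr 49 17 (.dbl 13 9 25)))))) (.nv (.thr 63 0 (.thr 51 59 (.thr 15 27 (.thr 26 48 (.dbl 11 3 56))))) (.nv (.thr 1 61 (.thr 13 9 (.thr 49 25 (.dbl 33 17 45)))) (.rp 45 (.str 44 (.nv (.dbl 40 32 43) (.rp 43 (.thr 1 61 (.thr 13 9 (.thr 63 0 (.thr 59 51 (.dbl 25 8 49))))) (.rp 40 (.thr 1 61 (.thr 13 9 (.thr 63 0 (.thr 59 51 (.dbl 25 8 49))))) (.rp 32 (.thr 40 43 (.thr 1 61 (.thr 0 63 (.thr 3 2 (.dbl 60 20 22))))) .nd))))) (.rp 44 (.thr 45 33 (.thr 40 43 (.thr 1 61 (.thr 0 63 (.thr 3 2 (.dbl 60 20 22)))))) .nd)))))) (.rp 32 (.thr 63 0 (.thr 51 59 (.thr 15 27 (.thr 31 47 (.dbl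 26 16 48))))) (.rp 31 (.thr 47 32 (.thr 43 35 (.thr 41 40 (.thr 1 61 (.thr 33 45 (.thr 49 17 (.dbl 13 9 25))))))) (.rp 27 (.thr 47 32 (.thr 43 35 (.thr 41 40 (.thr 1 61 (.thr 33 45 (.thr 49 17 (.dbl 13 9 25))))))) (.rp 15 (.thr 47 32 (.thr 43 35 (.thr 41 40 (.thr 1 61 (.thr 33 45 (.thr 49 17 (.dbl 13 9 25))))))) (.rp 12 (.thr 47 32 (.thr 43 35 (.thr 41 40 (.thr 1 61 (.thr 33 45 (.thr 49 17 (.dbl 13 9 25))))))) (.rp 8 (.thr 47 32 (.thr 43 35 (.thr 41 40 (.thr 1 61 (.thr 33 45 (.thr 49 17 (.dbl 13 9 25))))))) (.rp 0 (.thr 47 32 (.thr 43 35 (.thr 41 40 (.thr 1 61 (.thr 33 45 (.thr 49 17 (.dbl 13 9 25))))))) .nd)))))))))))))))) .nd))))) (.rp 39 (.str 13 (.nv (.thr 25 49 (.thr 29 17 (.thr 61 45 (.dbl 1 9 41)))) (.nv (.thr 1 9 (.thr 25 49 (.thr 61 41 (.dbl 29 17 45)))) (.rp 61 (.thr 6 4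 (.thr 22 52 (.thr 9 1 (.thr 3 12 (.thr 41 60 (.dbl 25 49 57)))))) (.rp 49 (.thr 6 4 (.thr 22 52 (.thr 9 1 (.thr 3 12 (.thr 60 41 (.thr 15 11 (.thr 30 45 (.dbl 26 18 48)))))))) (.rp 45 (.thr 6 4 (.thr 22 52 (.thr 9 1 (.thr 12 3 (.thr 25 49 (.dbl 38 51 54)))))) (.rp 41 (.thr 6 4 (.thr 22 52 (.thr 9 1 (.thr 12 3 (.thr 25 49 (.dbl 38 51 54)))))) (.rp 29 (.thr 1 9 (.thr 41 61 (.thr 33 45 (.dbl 49 17 25)))) (.rp 25 (.thr 22 52 (.thr 23 20 (.thr 1 9 (.thr 41 61 (.thr 3 60 (.thr 0 2 (.dbl 63 42 43))))))) (.rp 17 (.thr 6 4 (.thr 22 52 (.thr 9 1 (.thr 3 12 (.thr 41 60 (.dbl 25 49 57)))))) (.rp 9 (.thr 22 52 (.thr 23 20 (.thr 25 49 (.thr 17 29 (.thr 19 28 (.thr 16 18 (.dbl 31 26 27))))))) (.rp 1 (.thr 22 52 (.thr 23 20 (.thr 25 49 (.thr 17 29 (.thr 19 28 (.thr 16 18 (.dbl 31 26 27))))))) .nd))))))))))))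 (.rp 38 (.thr 6 4 (.str 13 (.nv (.thr 1 9 (.thr 41 61 (.thr 49 25 (.dbl 33 17 45)))) (.nv (.thr 9 1 (.thr 3 12 (.thr 22 52 (.thr 41 60 (.dbl 25 49 57))))) (.nv (.thr 1 9 (.thr 25 49 (.thr 29 17 (.dbl 61 41 45)))) (.rp 49 (.thr 22 52 (.thr 9 1 (.thr 3 12 (.thr 60 41 (.thr 15 11 (.thr 30 45 (.dbl 26 18 48))))))) (.rp 42 (.str 34 (.nv (.thr 1 9 (.thr 41 61 (.thr 49 25 (.dbl 33 17 45)))) (.nv (.thr 9 1 (.thr 3 12 (.thr 22 52 (.thr 41 60 (.dbl 25 49 57))))) (.nv (.thr 1 9 (.thr 25 49 (.thr 29 17 (.dbl 61 41 45)))) (.rp 58 (.str 26 (.nv (.thr 1 9 (.thr 25 49 (.thr 29 17 (.dbl 61 41 45)))) (.nv (.thr 9 1 (.thr 12 3 (.dbl 15 14 48))) (.rp 63 (.thr 48 15 (.thr 1 9 (.thr 25 49 (.thr 29 17 (.dbl 61 41 45))))) (.rp 48 (.str 63 (.nv (.thr 1 9 (.thr 25 49 (.thr 29 17 (.dbl 61 41 45)))) (.nv (.thr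 16 31 (.thr 22 52 (.thr 18 30 (.thr 17 19 (.dbl 25 29 49))))) (.nv (.thr 31 16 (.thr 15 47 (.thr 3 11 (.dbl 9 1 12)))) .nd)))) (.rp 9 (.thr 16 31 (.thr 48 15 (.thr 0 32 (.thr 25 49 (.dbl 17 29 51))))) (.rp 1 (.thr 16 31 (.thr 48 15 (.thr 0 32 (.thr 25 49 (.dbl 17 29 51))))) .nd))))))) (.rp 49 (.thr 22 52 (.thr 9 1 (.thr 3 12 (.thr 60 41 (.thr 15 11 (.thr 30 45 (.dbl 26 18 48))))))) (.rp 41 (.thr 22 52 (.thr 20 23 (.thr 25 49 (.thr 28 19 (.thr 16 24 (.thr 29 17 (.dbl 31 26 30))))))) (.rp 26 (.str 58 (.nv (.thr 1 9 (.thr 41 61 (.thr 49 25 (.dbl 33 17 45)))) (.nv (.thr 9 1 (.thr 3 12 (.thr 22 52 (.thr 41 60 (.dbl 25 49 57))))) (.nv (.thr 1 9 (.thr 25 49 (.thr 29 17 (.dbl 61 41 45)))) (.rp 50 (.str 14 (.nv (.thr 1 9 (.thr 25 49 (.thr 29 17 (.dbl 61 41 45)))) (.nv (.thr 9 1 (.dbl 12 3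 15)) (.rp 9 (.thr 25 49 (.thr 17 29 (.thr 51 0 (.thr 22 52 (.thr 19 28 (.thr 3 35 (.dbl 15 11 12))))))) (.rp 1 (.thr 25 49 (.thr 12 15 (.thr 3 9 (.thr 22 52 (.thr 28 19 (.dbl 60 41 44)))))) .nd))))) (.rp 49 (.thr 9 1 (.thr 22 52 (.thr 3 12 (.thr 41 60 (.thr 33 45 (.thr 35 32 (.thr 19 51 (.dbl 25 28 57)))))))) (.rp 41 (.thr 9 1 (.thr 25 49 (.thr 17 29 (.thr 51 0 (.thr 22 52 (.thr 19 28 (.dbl 3 12 35))))))) (.rp 25 (.thr 1 9 (.thr 41 61 (.thr 33 45 (.thr 22 52 (.thr 3 60 (.thr 2 0 (.dbl 18 48 50))))))) (.rp 14 (.str 50 (.nv (.thr 18 2 (.thr 22 52 (.thr 25 49 (.thr 17 29 (.dbl 19 16 28))))) (.nv (.thr 1 9 (.thr 2 18 (.thr 3 0 (.thr 22 52 (.dbl 41 60 61))))) (.nv (.thr 1 9 (.thr 25 49 (.thr 29 17 (.dbl 61 41 45)))) (.rp 62 (.str 30 (.nv (.thr 2 18 (.thr 1 9 (.thr 0 3 (.thr 17 51 (.dbl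 25 29 49))))) (.nv (.thr 1 9 (.thr 2 18 (.thr 3 0 (.thr 22 52 (.dbl 41 60 61))))) (.nv (.thr 22 52 (.thr 25 49 (.thr 28 19 (.dbl 29 17 31)))) (.nv (.thr 1 9 (.thr 25 49 (.thr 29 17 (.dbl 61 41 45)))) .nd))))) (.rp 61 (.thr 1 9 (.thr 49 25 (.thr 17 33 (.dbl 51 0 48)))) (.rp 30 (.thr 62 54 (.thr 1 9 (.thr 49 25 (.thr 33 17 (.dbl 41 45 61))))) .nd))))))) (.rp 9 (.thr 25 49 (.thr 17 29 (.thr 51 0 (.thr 22 52 (.thr 19 28 (.thr 3 35 (.thr 18 16 (.thr 41 60 (.dbl 33 45 48))))))))) (.rp 8 (.thr 25 49 (.thr 29 17 (.thr 61 45 (.dbl 1 9 41)))) (.rp 1 (.thr 25 49 (.thr 17 29 (.thr 51 0 (.thr 22 52 (.thr 19 28 (.thr 3 35 (.thr 15 11 (.dbl 12 9 14)))))))) .nd)))))))))))) (.rp 25 (.thr 22 52 (.thr 1 9 (.thr 41 61 (.thr 33 45 (.thr 3 60 (.thr 2 0 (.dbl 18 48 50))))))) (.rp 9 (.thr 22 52 (.thr 20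 23 (.thr 25 49 (.thr 28 19 (.thr 16 24 (.thr 29 17 (.dbl 31 26 30))))))) (.rp 8 (.thr 25 49 (.thr 29 17 (.thr 61 45 (.dbl 1 9 41)))) (.rp 1 (.thr 22 52 (.thr 25 49 (.thr 19 28 (.thr 17 29 (.thr 0 51 (.thr 16 18 (.thr 48 32 (.dbl 26 15 31)))))))) .nd)))))))))))) (.rp 41 (.thr 22 52 (.thr 20 23 (.thr 25 49 (.thr 29 17 (.thr 28 19 (.thr 31 30 (.dbl 16 24 26))))))) (.rp 34 (.str 42 (.nv (.thr 9 1 (.thr 12 3 (.thr 15 14 (.thr 47 32 (.dbl 63 0 31))))) (.nv (.thr 1 9 (.thr 25 49 (.thr 61 41 (.dbl 29 17 45)))) (.rp 35 (.thr 1 9 (.thr 0 63 (.thr 2 3 (.dbl 22 52 62)))) (.rp 9 (.thr 0 63 (.thr 22 52 (.thr 20 23 (.thr 2 62 (.thr 3 1 (.dbl 60 40 41)))))) (.rp 1 (.thr 47 32 (.thr 63 0 (.thr 15 31 (.thr 12 14 (.dbl 3 9 11))))) .nd)))))) (.rp 25 (.thr 22 52 (.thr 1 9 (.thr 41 61 (.thr 33 45 (.thr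 3 60 (.thr 48 18 (.dbl 15 11 26))))))) (.rp 9 (.thr 22 52 (.thr 20 23 (.thr 25 49 (.thr 29 17 (.thr 28 19 (.thr 31 30 (.dbl 16 24 26))))))) (.rp 8 (.thr 25 49 (.thr 29 17 (.thr 61 45 (.dbl 1 9 41)))) (.rp 1 (.thr 22 52 (.thr 20 23 (.thr 25 49 (.thr 28 19 (.thr 16 24 (.thr 31 26 (.dbl 29 17 30))))))) .nd))))))))))))) (.rp 36 (.thr 4 6 (.thr 55 38 (.thr 23 39 (.dbl 22 20 52)))) (.rp 22 (.str 13 (.nv (.thr 25 49 (.thr 29 17 (.thr 61 45 (.dbl 1 9 41)))) (.nv (.thr 1 9 (.thr 41 61 (.thr 49 25 (.dbl 33 17 45)))) (.nv (.thr 1 9 (.thr 25 49 (.thr 29 17 (.dbl 61 41 45)))) (.rp 61 (.thr 6 4 (.thr 9 1 (.thr 12 3 (.thr 15 14 (.thr 48 26 (.thr 36 24 (.thr 38 39 (.dbl 25 49 51)))))))) (.rp 49 (.thr 4 6 (.thr 38 55 (.thr 36 39 (.thr 1 9 (.thr 61 41 (.thr 29 45 (.thr 25 17 (.thr 12 51 (.thr 48 24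 (.dbl 15 14 26)))))))))) (.rp 45 (.thr 4 6 (.thr 38 55 (.thr 36 39 (.thr 25 49 (.thr 12 51 (.thr 48 24 (.dbl 15 14 26))))))) (.rp 41 (.thr 4 6 (.thr 38 55 (.thr 36 39 (.thr 25 49 (.thr 12 51 (.thr 48 24 (.dbl 15 14 26))))))) (.rp 25 (.thr 4 6 (.thr 38 55 (.thr 39 36 (.thr 1 9 (.thr 41 61 (.thr 33 45 (.thr 35 44 (.thr 47 43 (.dbl 32 34 42))))))))) (.rp 17 (.thr 4 6 (.thr 38 55 (.thr 36 39 (.thr 25 49 (.thr 12 51 (.thr 48 24 (.dbl 15 14 26))))))) (.rp 9 (.thr 4 6 (.thr 38 55 (.thr 36 39 (.thr 25 49 (.thr 12 51 (.thr 48 24 (.dbl 15 14 26))))))) (.rp 1 (.thr 4 6 (.thr 38 55 (.thr 36 39 (.thr 25 49 (.thr 12 51 (.thr 48 24 (.dbl 15 14 26))))))) .nd)))))))))))) (.rp 20 (.str 13 (.nv (.thr 25 49 (.thr 29 17 (.thr 61 45 (.dbl 1 9 41)))) (.nv (.thr 1 9 (.thr 25 49 (.thr 61 41 (.dbl 29 17 45))))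 (.rp 61 (.thr 6 4 (.thr 9 1 (.thr 12 3 (.thr 25 49 (.thr 57 41 (.thr 38 51 (.dbl 22 52 54))))))) (.rp 49 (.thr 6 4 (.thr 9 1 (.thr 12 3 (.thr 15 14 (.thr 48 26 (.thr 22 52 (.thr 36 24 (.dbl 38 39 54)))))))) (.rp 45 (.thr 6 4 (.thr 9 1 (.thr 12 3 (.thr 25 49 (.thr 38 51 (.dbl 22 52 54)))))) (.rp 41 (.thr 6 4 (.thr 9 1 (.thr 12 3 (.thr 25 49 (.thr 38 51 (.dbl 22 52 54)))))) (.rp 29 (.thr 1 9 (.thr 41 61 (.thr 33 45 (.dbl 49 17 25)))) (.rp 25 (.thr 22 52 (.thr 1 9 (.thr 41 61 (.thr 33 45 (.thr 3 60 (.thr 48 18 (.dbl 15 11 26))))))) (.rp 17 (.thr 4 6 (.thr 38 55 (.thr 36 39 (.thr 25 49 (.thr 12 51 (.thr 48 24 (.dbl 15 14 26))))))) (.rp 9 (.thr 4 6 (.thr 38 55 (.thr 36 39 (.thr 25 49 (.thr 12 51 (.thr 48 24 (.dbl 15 14 26))))))) (.rp 1 (.thr 4 6 (.thr 38 55 (.thr 36 39 (.thr 25 49 (.thr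 12 51 (.thr 48 24 (.dbl 15 14 26))))))) .nd)))))))))))) (.rp 6 (.str 1 (.nv (.thr 22 52 (.thr 23 20 (.thr 41 61 (.thr 3 60 (.thr 63 43 (.dbl 0 2 42)))))) (.nv (.thr 13 9 (.thr 49 25 (.thr 41 61 (.dbl 33 17 45)))) (.rp 61 (.thr 22 52 (.thr 13 9 (.thr 49 25 (.thr 33 17 (.thr 41 45 (.thr 3 60 (.thr 48 18 (.dbl 15 11 26)))))))) (.rp 49 (.thr 22 52 (.thr 23 20 (.thr 9 13 (.thr 41 61 (.thr 57 25 (.thr 3 60 (.thr 63 43 (.dbl 0 2 42)))))))) (.rp 41 (.thr 22 52 (.thr 20 23 (.thr 13 9 (.thr 25 49 (.thr 29 17 (.thr 28 19 (.thr 31 30 (.dbl 16 24 26)))))))) (.rp 14 (.str 2 (.nv (.thr 0 3 (.thr 22 52 (.dbl 42 62 63))) (.nv (.thr 41 61 (.thr 33 45 (.thr 49 17 (.dbl 13 9 25)))) (.nv (.thr 22 52 (.thr 3 0 (.dbl 41 60 61))) (.rp 62 (.str 30 (.nv (.thr 3 0 (.thr 15 11 (.thr 22 52 (.dbl 26 18 48))))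 (.nv (.thr 13 9 (.thr 25 49 (.thr 29 17 (.dbl 61 41 45)))) (.nv (.thr 22 52 (.thr 3 0 (.dbl 41 60 61))) (.rp 3 (.thr 41 61 (.thr 33 45 (.thr 49 17 (.dbl 13 9 25)))) .nd))))) (.rp 30 (.str 62 (.nv (.thr 0 3 (.thr 63 42 (.dbl 61 41 60))) (.nv (.dbl 22 42 52) (.rp 42 (.thr 22 52 (.thr 3 0 (.dbl 41 60 61))) .nd)))) .nd)))))) (.rp 3 (.thr 41 61 (.thr 33 45 (.thr 49 17 (.dbl 13 9 25)))) (.rp 2 (.str 14 (.nv (.thr 41 61 (.thr 33 45 (.thr 49 17 (.dbl 13 9 25)))) (.nv (.thr 13 9 (.thr 12 15 (.thr 25 49 (.thr 38 51 (.thr 39 36 (.dbl 55 4 23)))))) (.nv (.thr 13 9 (.thr 41 61 (.thr 49 25 (.dbl 33 17 45)))) (.rp 61 (.thr 13 9 (.thr 49 25 (.thr 33 17 (.thr 41 45 (.thr 22 52 (.thr 15 12 (.dbl 3 11 60))))))) (.rp 49 (.thr 13 9 (.thr 61 41 (.thr 29 45 (.thr 25 17 (.thr 12 15 (.thr 38 51 (.thr 55 4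 (.dbl 39 23 36)))))))) (.rp 25 (.thr 13 9 (.thr 41 61 (.thr 22 52 (.thr 15 12 (.dbl 3 11 60))))) (.rp 13 (.thr 41 61 (.thr 22 52 (.thr 3 60 (.thr 15 11 (.thr 48 26 (.dbl 33 18 45)))))) (.rp 9 (.thr 41 61 (.thr 33 45 (.thr 22 52 (.thr 3 60 (.thr 48 18 (.dbl 15 11 26)))))) .nd))))))))) .nd))))))))) (.rp 4 (.str 13 (.nv (.thr 25 49 (.thr 29 17 (.thr 61 45 (.dbl 1 9 41)))) (.nv (.thr 1 9 (.thr 61 41 (.thr 25 49 (.dbl 29 17 45)))) (.rp 61 (.thr 22 52 (.thr 1 9 (.thr 49 25 (.thr 33 17 (.thr 41 45 (.thr 3 60 (.thr 48 18 (.dbl 15 11 26)))))))) (.rp 49 (.thr 22 52 (.thr 20 23 (.thr 1 9 (.thr 61 41 (.thr 29 45 (.thr 25 17 (.thr 28 19 (.thr 31 30 (.dbl 16 24 26))))))))) (.rp 45 (.thr 22 52 (.thr 20 23 (.thr 25 49 (.thr 29 17 (.thr 28 19 (.thr 31 30 (.dbl 16 24 26))))))) (.rp 41 (.thr 22 52 (.thr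 20 23 (.thr 25 49 (.thr 29 17 (.thr 28 19 (.thr 31 30 (.dbl 16 24 26))))))) (.rp 29 (.thr 1 9 (.thr 41 61 (.thr 33 45 (.dbl 49 17 25)))) (.rp 25 (.thr 22 52 (.thr 1 9 (.thr 41 61 (.thr 33 45 (.thr 3 60 (.thr 48 18 (.dbl 15 11 26))))))) (.rp 17 (.thr 22 52 (.thr 1 9 (.thr 41 61 (.thr 33 45 (.thr 3 60 (.thr 48 18 (.dbl 15 11 26))))))) (.rp 9 (.thr 22 52 (.thr 20 23 (.thr 25 49 (.thr 29 17 (.thr 28 19 (.thr 31 30 (.dbl 16 24 26))))))) (.rp 1 (.thr 22 52 (.thr 20 23 (.thr 25 49 (.thr 28 19 (.thr 16 24 (.thr 31 26 (.dbl 29 17 30))))))) .nd)))))))))))) .nd))))))))))))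

theorem w379 : WinAt (137441050656, 9077567998919680) :=
  chF (K := []) kn c379 137441050656 9077567998919680 53
    [] (by decide +kernel) (by decide +kernel)

/-- A certificate. -/
noncomputable def c380 : Ct := (.str 7 (.nv (.thr 22 52 (.thr 23 20 (.thr 55 39 (.dbl 4 6 38)))) (.nv (.thr 4 6 (.thr 55 38 (.thr 22 52 (.dbl 23 20 39)))) (.rp 55 (.thr 52 22 (.str 15 (.nv (.thr 3 11 (.thr 6 4 (.thr 9 12 (.thr 1 13 (.thr 41 61 (.thr 45 33 (.thr 60 30 (.dbl 48 26 56)))))))) (.nv (.thr 4 6 (.thr 36 20 (.thr 38 39 (.thr 48 26 (.thr 12 24 (.thr 25 51 (.dbl 13 14 49))))))) (.nv (.thr 26 48 (.thr 11 3 (.thr 41 56 (.thr 33 45 (.thr 1 61 (.thr 49 17 (.dbl 13 9 25))))))) (.rp 49 (.thr 6 4 (.thr 3 11 (.thr 9 12 (.thr 1 13 (.thr 41 61 (.thr 57 25 (.thr 48 26 (.dbl 33 18 45)))))))) (.rp 48 (.thr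 6 4 (.thr 3 11 (.thr 9 12 (.thr 1 13 (.thr 0 2 (.thr 41 61 (.thr 45 33 (.thr 60 30 (.thr 40 20 (.dbl 42 43 63)))))))))) (.rp 26 (.thr 6 4 (.thr 3 11 (.thr 9 12 (.thr 1 13 (.thr 0 2 (.thr 41 61 (.thr 45 33 (.thr 42 63 (.thr 40 43 (.dbl 60 20 30)))))))))) (.rp 18 (.thr 4 6 (.thr 36 20 (.thr 38 39 (.thr 26 48 (.thr 14 50 (.thr 12 13 (.thr 51 25 (.thr 0 8 (.thr 34 17 (.dbl 42 46 63)))))))))) (.rp 13 (.thr 4 6 (.thr 36 20 (.thr 38 39 (.thr 48 26 (.thr 12 24 (.thr 25 51 (.thr 29 17 (.thr 63 46 (.dbl 0 8 42))))))))) .nd)))))))))) (.rp 52 (.str 55 (.nv (.dbl 4 6 38) (.rp 38 (.str 13 (.nv (.thr 25 49 (.thr 29 17 (.thr 61 45 (.dbl 1 9 41)))) (.nv (.thr 1 9 (.thr 41 61 (.thr 49 25 (.dbl 33 17 45)))) (.nv (.thr 1 9 (.thr 25 49 (.thr 29 17 (.dbl 61 41 45)))) (.rp 61 (.thr 39 23 (.thr 6 4 (.thr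 9 1 (.thr 12 3 (.thr 15 14 (.thr 49 25 (.thr 51 27 (.dbl 48 26 50)))))))) (.rp 49 (.thr 23 39 (.thr 6 4 (.thr 9 1 (.thr 3 12 (.thr 15 11 (.thr 48 26 (.thr 33 18 (.thr 41 45 (.dbl 22 20 60))))))))) (.rp 45 (.thr 23 39 (.thr 22 20 (.thr 1 9 (.thr 41 61 (.thr 3 60 (.thr 0 2 (.dbl 63 42 43))))))) (.rp 41 (.thr 23 39 (.thr 22 20 (.thr 25 49 (.thr 17 29 (.thr 19 28 (.thr 16 18 (.dbl 31 26 27))))))) (.rp 25 (.thr 23 39 (.thr 22 20 (.thr 1 9 (.thr 41 61 (.thr 3 60 (.thr 0 2 (.dbl 63 42 43))))))) (.rp 17 (.thr 23 39 (.thr 22 20 (.thr 1 9 (.thr 41 61 (.thr 3 60 (.thr 0 2 (.dbl 63 42 43))))))) (.rp 9 (.thr 23 39 (.thr 22 20 (.thr 25 49 (.thr 17 29 (.thr 19 28 (.thr 16 18 (.dbl 31 26 27))))))) (.rp 1 (.thr 23 39 (.thr 22 20 (.thr 25 49 (.thr 17 29 (.thr 19 28 (.thr 16 18 (.dbl 31 26 27)))))))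 .nd)))))))))))) (.rp 6 (.thr 39 23 (.dbl 38 4 36)) (.rp 4 (.thr 39 23 (.str 15 (.nv (.thr 51 27 (.thr 63 59 (.thr 0 42 (.thr 17 34 (.thr 25 29 (.dbl 38 12 36)))))) (.nv (.thr 36 38 (.thr 3 11 (.thr 48 26 (.thr 12 24 (.thr 27 51 (.thr 9 6 (.dbl 13 1 14))))))) (.nv (.thr 3 11 (.thr 48 26 (.thr 33 18 (.thr 41 45 (.thr 1 61 (.thr 49 17 (.dbl 13 9 25))))))) (.nv (.thr 51 27 (.thr 48 26 (.thr 49 50 (.thr 25 13 (.dbl 38 12 36))))) (.rp 58 (.thr 51 27 (.thr 63 59 (.thr 0 42 (.thr 26 48 (.thr 17 34 (.thr 25 29 (.dbl 38 12 36))))))) (.rp 42 (.thr 3 11 (.thr 51 27 (.thr 19 35 (.thr 26 48 (.thr 16 31 (.thr 17 18 (.thr 25 29 (.dbl 38 12 36)))))))) (.rp 36 (.str 20 (.nv (.thr 26 48 (.thr 16 31 (.thr 24 28 (.dbl 27 25 51)))) (.nv (.thr 27 51 (.thr 26 48 (.thr 16 31 (.dbl 24 25 28)))) (.rp 63 (.thr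 3 11 (.thr 51 27 (.thr 48 26 (.thr 49 50 (.thr 33 18 (.thr 1 17 (.dbl 41 45 61))))))) (.rp 60 (.thr 3 11 (.thr 51 27 (.thr 48 26 (.thr 49 50 (.thr 33 18 (.thr 1 17 (.dbl 41 45 61))))))) (.rp 58 (.thr 11 3 (.thr 51 27 (.thr 63 59 (.thr 0 42 (.thr 26 48 (.thr 60 40 (.thr 61 62 (.dbl 41 1 56)))))))) (.rp 56 (.thr 51 27 (.thr 63 59 (.thr 0 42 (.thr 17 34 (.thr 25 29 (.thr 13 49 (.dbl 12 14 38))))))) (.rp 51 (.thr 3 11 (.thr 48 26 (.thr 33 18 (.thr 41 45 (.thr 1 61 (.thr 49 17 (.dbl 13 9 25))))))) (.rp 48 (.thr 51 27 (.thr 63 59 (.thr 0 42 (.thr 17 34 (.thr 25 29 (.thr 13 49 (.dbl 12 14 38))))))) (.rp 31 (.thr 3 11 (.thr 48 26 (.thr 33 18 (.thr 41 45 (.thr 1 61 (.thr 49 17 (.dbl 51 27 50))))))) (.rp 28 (.thr 3 11 (.thr 51 27 (.thr 48 26 (.thr 49 50 (.thr 33 18 (.thr 1 17 (.dbl 41 45 61)))))))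 (.rp 27 (.thr 3 11 (.thr 48 26 (.thr 33 18 (.thr 41 45 (.thr 1 61 (.thr 49 17 (.dbl 13 9 25))))))) (.rp 26 (.str 42 (.nv (.thr 51 27 (.dbl 63 0 59)) (.nv (.thr 63 0 (.dbl 51 27 59)) (.rp 63 (.thr 27 51 (.thr 11 3 (.thr 43 59 (.thr 41 40 (.thr 1 61 (.thr 13 9 (.thr 33 45 (.dbl 49 17 25)))))))) (.rp 59 (.thr 0 63 (.thr 60 40 (.thr 45 30 (.thr 3 11 (.dbl 41 22 33))))) (.rp 51 (.thr 0 63 (.thr 60 40 (.thr 45 30 (.thr 3 11 (.dbl 41 22 33))))) (.rp 27 (.thr 0 63 (.thr 60 40 (.thr 45 30 (.thr 3 11 (.dbl 41 22 33))))) (.rp 0 (.thr 51 27 (.thr 59 63 (.thr 25 8 (.thr 12 38 (.dbl 13 14 49))))) .nd)))))))) (.rp 25 (.thr 3 11 (.thr 48 26 (.thr 33 18 (.thr 41 45 (.thr 1 61 (.thr 49 17 (.dbl 51 27 50))))))) (.rp 24 (.thr 3 11 (.thr 48 26 (.thr 33 18 (.thr 41 45 (.thr 1 61 (.thr 49 17 (.dbl 51 27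 50))))))) (.rp 16 (.thr 3 11 (.thr 51 27 (.thr 48 26 (.thr 49 50 (.thr 33 18 (.thr 17 1 (.dbl 25 13 29))))))) (.rp 12 (.thr 3 11 (.thr 51 27 (.thr 48 26 (.thr 49 50 (.thr 33 18 (.thr 1 17 (.dbl 41 45 61))))))) .nd))))))))))))))))) (.rp 26 (.str 42 (.nv (.thr 36 38 (.thr 51 27 (.dbl 63 0 59))) (.nv (.thr 63 0 (.dbl 51 27 59)) (.rp 63 (.thr 27 51 (.thr 11 3 (.thr 43 59 (.thr 41 40 (.thr 33 45 (.thr 1 61 (.thr 13 9 (.dbl 49 17 25)))))))) (.rp 59 (.thr 51 27 (.thr 0 63 (.thr 34 17 (.dbl 38 36 46)))) (.rp 51 (.thr 3 11 (.thr 0 63 (.thr 1 2 (.thr 41 61 (.thr 45 33 (.dbl 60 22 30)))))) (.rp 36 (.str 20 (.nv (.thr 51 27 (.dbl 63 0 59)) (.nv (.thr 63 0 (.dbl 51 27 59)) (.rp 63 (.thr 27 51 (.thr 11 3 (.thr 43 59 (.thr 41 40 (.thr 1 61 (.thr 13 9 (.thr 33 45 (.dbl 49 17 25)))))))) (.rp 59 (.thr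 0 63 (.thr 60 40 (.thr 45 30 (.thr 3 11 (.dbl 41 22 33))))) (.rp 51 (.thr 0 63 (.thr 60 40 (.thr 45 30 (.thr 3 11 (.dbl 41 22 33))))) (.rp 27 (.thr 0 63 (.thr 60 40 (.thr 45 30 (.thr 3 11 (.dbl 41 22 33))))) (.rp 0 (.thr 51 27 (.thr 59 63 (.thr 25 8 (.thr 12 38 (.dbl 13 14 49))))) .nd)))))))) (.rp 27 (.thr 3 11 (.thr 0 63 (.thr 1 2 (.thr 41 61 (.thr 45 33 (.dbl 60 22 30)))))) (.rp 0 (.thr 51 27 (.thr 59 63 (.thr 25 8 (.thr 12 38 (.dbl 13 14 49))))) .nd))))))))) .nd)))))))))) .nd))))) (.rp 39 (.thr 22 52 (.thr 6 4 (.thr 20 23 (.thr 54 38 (.str 60 (.nv (.thr 3 41 (.thr 15 11 (.thr 30 45 (.dbl 26 18 48)))) (.nv (.thr 0 40 (.thr 41 3 (.thr 61 1 (.dbl 63 42 62)))) (.rp 43 (.str 35 (.nv (.thr 51 57 (.dbl 3 19 41)) (.nv (.thr 0 40 (.thr 3 41 (.thr 42 63 (.dbl 2 1 62)))) (.nv (.thr 3 41 (.dbl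 51 19 57)) (.rp 41 (.thr 51 57 (.thr 3 19 (.thr 0 40 (.thr 42 63 (.dbl 2 1 62))))) (.rp 3 (.str 63 (.nv (.dbl 0 40 42) (.rp 42 (.thr 61 62 (.thr 1 41 (.thr 40 0 (.thr 13 9 (.thr 29 45 (.dbl 25 17 49)))))) (.rp 40 (.thr 62 61 (.dbl 42 0 2)) (.rp 0 (.thr 61 62 (.thr 1 41 (.thr 13 9 (.thr 29 45 (.dbl 25 17 49))))) .nd))))) .nd)))))) (.rp 41 (.thr 0 40 (.thr 42 63 (.thr 2 62 (.thr 3 1 (.thr 15 11 (.thr 30 45 (.dbl 26 18 48))))))) (.rp 35 (.str 43 (.nv (.thr 40 0 (.dbl 41 3 42)) (.nv (.thr 41 3 (.thr 1 61 (.thr 9 13 (.dbl 57 25 51)))) (.nv (.thr 41 3 (.dbl 40 0 42)) (.rp 41 (.str 44 (.nv (.thr 12 28 (.thr 9 3 (.thr 13 1 (.thr 15 14 (.thr 26 48 (.dbl 30 18 45)))))) (.nv (.thr 0 40 (.thr 28 12 (.thr 16 24 (.thr 48 32 (.dbl 26 15 31))))) (.nv (.thr 12 28 (.thr 3 9 (.thr 0 40 (.thr 2 1 (.dbl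 42 62 63))))) (.rp 28 (.thr 0 40 (.thr 42 63 (.thr 2 62 (.thr 3 1 (.thr 15 11 (.thr 30 45 (.dbl 26 18 48))))))) (.rp 12 (.thr 0 40 (.thr 42 63 (.thr 2 62 (.thr 3 1 (.thr 15 11 (.thr 30 45 (.dbl 26 18 48))))))) (.rp 0 (.thr 12 28 (.str 15 (.nv (.thr 26 48 (.dbl 30 18 45)) (.nv (.dbl 3 9 11) .nd)))) .nd))))))) (.rp 3 (.thr 40 0 (.thr 41 42 (.thr 1 61 (.thr 9 13 (.dbl 57 25 51))))) .nd)))))) (.rp 3 (.thr 51 57 (.thr 0 40 (.thr 17 34 (.thr 25 29 (.thr 28 19 (.thr 16 24 (.thr 48 32 (.dbl 49 13 50)))))))) .nd))))))))))) (.rp 38 (.str 13 (.nv (.thr 25 49 (.thr 29 17 (.thr 61 45 (.dbl 1 9 41)))) (.nv (.thr 1 9 (.thr 41 61 (.thr 49 25 (.dbl 33 17 45)))) (.nv (.thr 1 9 (.thr 25 49 (.thr 29 17 (.dbl 61 41 45)))) (.rp 61 (.thr 6 4 (.thr 22 52 (.thr 9 1 (.thr 3 12 (.thr 41 60 (.dbl 25 49 57))))))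 (.rp 49 (.thr 6 4 (.thr 22 52 (.thr 9 1 (.thr 3 12 (.thr 60 41 (.thr 15 11 (.thr 30 45 (.dbl 26 18 48)))))))) (.rp 45 (.thr 6 4 (.thr 22 52 (.thr 9 1 (.thr 3 12 (.thr 41 60 (.dbl 25 49 57)))))) (.rp 41 (.thr 22 52 (.thr 23 20 (.thr 25 49 (.thr 17 29 (.thr 19 28 (.thr 16 18 (.dbl 31 26 27))))))) (.rp 25 (.thr 22 52 (.thr 23 20 (.thr 1 9 (.thr 41 61 (.thr 3 60 (.thr 0 2 (.dbl 63 42 43))))))) (.rp 17 (.thr 6 4 (.thr 22 52 (.thr 9 1 (.thr 3 12 (.thr 41 60 (.dbl 25 49 57)))))) (.rp 9 (.thr 22 52 (.thr 23 20 (.thr 25 49 (.thr 17 29 (.thr 19 28 (.thr 16 18 (.dbl 31 26 27))))))) (.rp 1 (.thr 22 52 (.thr 23 20 (.thr 25 49 (.thr 17 29 (.thr 19 28 (.thr 16 18 (.dbl 31 26 27))))))) .nd)))))))))))) (.rp 23 (.thr 4 6 (.thr 38 55 (.thr 36 39 (.dbl 52 20 22)))) (.rp 22 (.str 15 (.nv (.thr 3 11 (.thr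 6 4 (.thr 9 12 (.thr 1 13 (.thr 41 61 (.thr 48 26 (.dbl 33 18 45))))))) (.nv (.thr 11 3 (.thr 26 48 (.thr 41 56 (.thr 1 61 (.thr 33 45 (.thr 49 17 (.dbl 13 9 25))))))) (.nv (.thr 4 6 (.thr 38 55 (.thr 39 36 (.thr 51 27 (.thr 12 25 (.thr 14 13 (.dbl 26 48 50))))))) (.rp 48 (.thr 4 6 (.thr 38 55 (.thr 39 36 (.thr 51 27 (.thr 12 25 (.thr 0 8 (.thr 34 17 (.dbl 42 46 63)))))))) (.rp 26 (.thr 4 6 (.thr 38 55 (.thr 39 36 (.thr 51 27 (.thr 25 12 (.thr 13 49 (.thr 29 17 (.thr 61 45 (.dbl 1 9 41))))))))) (.rp 13 (.thr 4 6 (.thr 38 55 (.thr 39 36 (.thr 51 27 (.thr 12 25 (.thr 0 8 (.thr 34 17 (.dbl 42 46 63)))))))) .nd))))))) (.rp 20 (.str 13 (.nv (.thr 25 49 (.thr 29 17 (.thr 61 45 (.dbl 1 9 41)))) (.nv (.thr 1 9 (.thr 25 49 (.thr 61 41 (.dbl 29 17 45)))) (.rp 61 (.thr 6 4 (.thr 9 1 (.thr 12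 3 (.thr 25 49 (.thr 57 41 (.thr 38 51 (.dbl 22 52 54))))))) (.rp 49 (.thr 6 4 (.thr 9 1 (.thr 12 3 (.thr 15 14 (.thr 48 26 (.thr 22 52 (.thr 36 24 (.dbl 38 39 54)))))))) (.rp 45 (.thr 6 4 (.thr 9 1 (.thr 12 3 (.thr 25 49 (.thr 38 51 (.dbl 22 52 54)))))) (.rp 41 (.thr 6 4 (.thr 9 1 (.thr 12 3 (.thr 25 49 (.thr 38 51 (.dbl 22 52 54)))))) (.rp 29 (.thr 1 9 (.thr 41 61 (.thr 33 45 (.dbl 49 17 25)))) (.rp 25 (.thr 22 52 (.thr 1 9 (.thr 41 61 (.thr 33 45 (.thr 3 60 (.thr 48 18 (.dbl 15 11 26))))))) (.rp 17 (.thr 4 6 (.thr 38 55 (.thr 36 39 (.thr 25 49 (.thr 12 51 (.thr 48 24 (.dbl 15 14 26))))))) (.rp 9 (.thr 4 6 (.thr 38 55 (.thr 36 39 (.thr 25 49 (.thr 12 51 (.thr 48 24 (.dbl 15 14 26))))))) (.rp 1 (.thr 4 6 (.thr 38 55 (.thr 36 39 (.thr 25 49 (.thr 12 51 (.thr 48 24 (.dbl 15 14 26)))))))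 .nd)))))))))))) (.rp 6 (.str 13 (.nv (.thr 25 49 (.thr 29 17 (.thr 61 45 (.dbl 1 9 41)))) (.nv (.thr 1 9 (.thr 61 41 (.thr 25 49 (.dbl 29 17 45)))) (.rp 61 (.thr 22 52 (.thr 1 9 (.thr 49 25 (.thr 33 17 (.thr 41 45 (.thr 3 60 (.thr 48 18 (.dbl 15 11 26)))))))) (.rp 49 (.thr 22 52 (.thr 20 23 (.thr 1 9 (.thr 61 41 (.thr 29 45 (.thr 25 17 (.thr 28 19 (.thr 31 30 (.dbl 16 24 26))))))))) (.rp 45 (.thr 22 52 (.thr 23 20 (.thr 1 9 (.thr 41 61 (.thr 3 60 (.thr 63 43 (.dbl 0 2 42))))))) (.rp 41 (.thr 22 52 (.thr 23 20 (.thr 25 49 (.thr 17 29 (.thr 19 28 (.thr 16 18 (.dbl 31 26 27))))))) (.rp 29 (.thr 1 9 (.thr 41 61 (.thr 33 45 (.dbl 49 17 25)))) (.rp 25 (.thr 22 52 (.thr 23 20 (.thr 1 9 (.thr 41 61 (.thr 3 60 (.thr 63 43 (.dbl 0 2 42))))))) (.rp 17 (.thr 22 52 (.thr 23 20 (.thr 1 9 (.thr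 41 61 (.thr 3 60 (.thr 63 43 (.dbl 0 2 42))))))) (.rp 14 (.str 2 (.nv (.thr 1 9 (.thr 22 52 (.thr 42 62 (.dbl 0 3 63)))) (.nv (.thr 25 49 (.thr 29 17 (.thr 61 45 (.dbl 1 9 41)))) (.nv (.thr 1 9 (.thr 3 0 (.thr 41 61 (.dbl 22 52 60)))) (.rp 9 (.thr 22 52 (.thr 42 62 (.thr 0 63 (.thr 3 1 (.thr 20 23 (.dbl 60 40 41)))))) (.rp 1 (.thr 25 49 (.thr 17 29 (.thr 22 52 (.thr 23 20 (.thr 19 28 (.thr 31 27 (.dbl 16 18 26))))))) .nd)))))) (.rp 9 (.thr 22 52 (.thr 23 20 (.thr 25 49 (.thr 17 29 (.thr 19 28 (.thr 16 18 (.dbl 31 26 27))))))) (.rp 2 (.str 14 (.nv (.thr 15 12 (.thr 26 48 (.thr 38 50 (.thr 55 4 (.dbl 39 23 36))))) (.nv (.thr 25 49 (.thr 29 17 (.thr 61 45 (.dbl 1 9 41)))) (.rp 49 (.thr 15 12 (.thr 22 52 (.thr 3 11 (.thr 41 60 (.dbl 1 9 61))))) (.rp 9 (.thr 12 15 (.thr 25 49 (.thr 38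 51 (.thr 55 4 (.dbl 39 23 36))))) .nd))))) (.rp 1 (.thr 22 52 (.thr 23 20 (.thr 25 49 (.thr 17 29 (.thr 19 28 (.thr 16 18 (.dbl 31 26 27))))))) .nd)))))))))))))) (.rp 4 (.str 13 (.nv (.thr 25 49 (.thr 29 17 (.thr 61 45 (.dbl 1 9 41)))) (.nv (.thr 1 9 (.thr 61 41 (.thr 25 49 (.dbl 29 17 45)))) (.rp 61 (.thr 22 52 (.thr 1 9 (.thr 49 25 (.thr 33 17 (.thr 41 45 (.thr 3 60 (.thr 48 18 (.dbl 15 11 26)))))))) (.rp 49 (.thr 22 52 (.thr 20 23 (.thr 1 9 (.thr 61 41 (.thr 29 45 (.thr 25 17 (.thr 28 19 (.thr 31 30 (.dbl 16 24 26))))))))) (.rp 45 (.thr 22 52 (.thr 20 23 (.thr 25 49 (.thr 29 17 (.thr 28 19 (.thr 31 30 (.dbl 16 24 26))))))) (.rp 41 (.thr 22 52 (.thr 20 23 (.thr 25 49 (.thr 29 17 (.thr 28 19 (.thr 31 30 (.dbl 16 24 26))))))) (.rp 29 (.thr 1 9 (.thr 41 61 (.thr 33 45 (.dbl 49 17 25))))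 (.rp 25 (.thr 22 52 (.thr 1 9 (.thr 41 61 (.thr 33 45 (.thr 3 60 (.thr 48 18 (.dbl 15 11 26))))))) (.rp 17 (.thr 22 52 (.thr 1 9 (.thr 41 61 (.thr 33 45 (.thr 3 60 (.thr 48 18 (.dbl 15 11 26))))))) (.rp 9 (.thr 22 52 (.thr 20 23 (.thr 25 49 (.thr 29 17 (.thr 28 19 (.thr 31 30 (.dbl 16 24 26))))))) (.rp 1 (.thr 22 52 (.thr 20 23 (.thr 25 49 (.thr 28 19 (.thr 16 24 (.thr 31 26 (.dbl 29 17 30))))))) .nd)))))))))))) .nd))))))))))))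

theorem w380 : WinAt (137441050656, 9147936743097344) :=
  chF (K := []) kn c380 137441050656 9147936743097344 53
    [] (by decide +kernel) (by decide +kernel)

/-- A certificate. -/
noncomputable def c381 : Ct := (.str 60 (.nv (.thr 22 23 (.thr 3 41 (.thr 38 55 (.thr 54 6 (.thr 51 57 (.thr 19 35 (.dbl 25 12 28))))))) (.nv (.thr 0 40 (.thr 12 8 (.thr 22 23 (.thr 28 44 (.thr 25 19 (.thr 29 17 (.thr 31 30 (.dbl 16 24 26)))))))) (.nv (.thr 0 40 (.thr 22 23 (.thr 3 41 (.thr 2 1 (.thr 38 55 (.thr 54 6 (.dbl 62 42 50))))))) (.rp 55 (.str 54 (.nv (.thr 0 40 (.thr 22 23 (.thr 3 41 (.thr 2 1 (.dbl 62 42 50))))) (.nv (.thr 51 57 (.thr 0 40 (.thr 17 34 (.thr 25 29 (.dbl 12 8 38))))) (.rp 51 (.str 59 (.nv (.thr 0 40 (.thr 8 12 (.thr 57 56 (.thr 25 42 (.thr 41 9 (.dbl 22 3 23)))))) (.nv (.thr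 0 40 (.thr 22 23 (.thr 3 41 (.thr 2 1 (.dbl 62 42 50))))) (.rp 50 (.str 49 (.nv (.thr 0 40 (.thr 12 8 (.thr 22 23 (.thr 3 41 (.dbl 6 9 38))))) (.nv (.thr 22 23 (.thr 25 13 (.thr 57 56 (.dbl 41 3 9)))) (.nv (.thr 25 13 (.thr 0 40 (.dbl 8 12 42))) .nd)))) (.rp 49 (.thr 50 62 (.thr 22 23 (.thr 6 38 (.thr 3 41 (.thr 12 9 (.dbl 0 8 40)))))) (.rp 42 (.thr 22 23 (.thr 6 38 (.thr 3 41 (.thr 12 9 (.dbl 0 8 40))))) (.rp 41 (.thr 22 23 (.thr 38 6 (.thr 0 40 (.thr 8 12 (.thr 42 25 (.dbl 62 2 50)))))) (.rp 40 (.thr 22 23 (.thr 6 38 (.thr 57 56 (.thr 3 41 (.thr 12 9 (.thr 8 0 (.thr 42 25 (.dbl 62 2 50)))))))) (.rp 23 (.thr 57 56 (.thr 0 40 (.thr 8 12 (.thr 25 42 (.thr 41 9 (.thr 3 22 (.dbl 1 2 61))))))) (.rp 22 (.thr 56 57 (.thr 40 0 (.thr 24 8 (.thr 16 28 (.thr 26 31 (.thr 11 41 (.dbl 27 25 43)))))))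 (.rp 3 (.thr 56 57 (.thr 40 0 (.thr 24 8 (.thr 16 28 (.thr 26 31 (.thr 27 25 (.dbl 11 41 43))))))) (.rp 0 (.thr 22 23 (.thr 6 38 (.thr 3 41 (.thr 7 5 (.thr 15 11 (.thr 30 45 (.thr 26 18 (.thr 16 31 (.thr 28 24 (.dbl 12 9 44)))))))))) .nd)))))))))))) (.rp 40 (.thr 22 23 (.thr 38 6 (.thr 51 57 (.thr 12 25 (.thr 44 28 (.dbl 41 3 35)))))) (.rp 0 (.thr 22 23 (.thr 38 6 (.thr 51 57 (.thr 12 25 (.thr 44 28 (.dbl 41 3 35)))))) .nd)))))) (.rp 54 (.thr 55 38 (.thr 0 40 (.thr 12 8 (.thr 28 44 (.thr 22 23 (.thr 25 19 (.thr 29 17 (.thr 31 30 (.dbl 16 24 26))))))))) (.rp 23 (.thr 0 40 (.str 51 (.nv (.thr 12 8 (.dbl 38 25 55)) (.nv (.thr 17 34 (.thr 25 29 (.dbl 12 8 38))) (.rp 55 (.thr 54 57 (.thr 12 8 (.thr 17 34 (.dbl 25 29 38)))) (.rp 54 (.thr 55 38 (.thr 12 8 (.thr 28 44 (.thr 17 34 (.thr 29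 25 (.thr 31 30 (.dbl 16 24 26))))))) (.rp 43 (.str 3 (.nv (.thr 12 8 (.dbl 38 25 55)) (.nv (.thr 41 22 (.dbl 1 2 61)) (.rp 55 (.thr 54 57 (.thr 1 2 (.dbl 41 22 61))) (.rp 54 (.thr 55 38 (.thr 1 2 (.dbl 41 22 61))) (.rp 41 (.str 42 (.nv (.thr 54 57 (.thr 2 1 (.dbl 62 22 50))) (.nv (.thr 34 17 (.dbl 38 46 55)) (.rp 54 (.thr 55 38 (.thr 34 17 (.thr 35 19 (.dbl 32 33 47)))) .nd)))) .nd)))))) (.rp 38 (.thr 12 8 (.thr 28 44 (.thr 17 34 (.thr 25 29 (.thr 19 22 (.dbl 16 18 24)))))) (.rp 25 (.thr 12 8 (.thr 44 28 (.thr 54 57 (.thr 38 55 (.thr 22 6 (.dbl 41 3 35)))))) (.rp 12 (.thr 54 57 (.thr 62 50 (.thr 34 17 (.thr 38 55 (.thr 22 6 (.dbl 42 2 46)))))) (.rp 8 (.thr 17 34 (.thr 25 29 (.dbl 38 12 55))) (.rp 3 (.str 43 (.nv (.thr 12 8 (.dbl 38 25 55)) (.nv (.thr 17 34 (.thr 25 29 (.dbl 38 12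 55))) (.rp 55 (.thr 54 57 (.thr 17 34 (.thr 25 29 (.dbl 12 8 38)))) (.rp 54 (.thr 55 38 (.thr 17 34 (.thr 29 25 (.thr 12 8 (.thr 28 44 (.thr 31 30 (.dbl 16 24 26))))))) (.rp 38 (.thr 17 34 (.thr 25 29 (.thr 12 8 (.thr 28 44 (.thr 19 22 (.dbl 16 18 24)))))) (.rp 33 (.str 18 (.nv (.thr 12 8 (.dbl 38 25 55)) (.nv (.thr 54 57 (.thr 50 62 (.dbl 34 2 17))) (.rp 54 (.thr 55 38 (.thr 17 34 (.thr 16 19 (.thr 28 24 (.dbl 12 8 44))))) .nd)))) (.rp 25 (.thr 34 17 (.thr 38 55 (.thr 54 57 (.thr 39 36 (.thr 42 46 (.dbl 47 32 35)))))) (.rp 18 (.str 33 (.nv (.thr 54 57 (.thr 17 34 (.thr 41 45 (.dbl 1 49 61)))) (.nv (.thr 12 8 (.dbl 38 25 55)) (.rp 54 (.thr 55 38 (.thr 17 34 (.thr 49 1 (.dbl 25 13 29)))) .nd)))) (.rp 12 (.thr 34 17 (.thr 38 55 (.thr 54 57 (.thr 62 50 (.thr 46 42 (.thr 30 14 (.thr 15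 45 (.dbl 39 27 36)))))))) .nd)))))))))) .nd)))))))))))) (.rp 22 (.thr 0 40 (.str 51 (.nv (.thr 12 8 (.dbl 38 25 55)) (.nv (.thr 17 34 (.thr 25 29 (.dbl 12 8 38))) (.rp 55 (.thr 54 57 (.thr 12 8 (.thr 17 34 (.dbl 25 29 38)))) (.rp 54 (.thr 55 38 (.str 6 (.nv (.thr 17 34 (.thr 25 29 (.thr 49 13 (.thr 1 33 (.thr 3 2 (.dbl 12 8 9)))))) (.nv (.thr 7 5 (.thr 39 23 (.thr 15 27 (.thr 3 11 (.dbl 12 8 9))))) (.rp 12 (.thr 7 5 (.thr 39 23 (.thr 15 27 (.thr 3 11 (.thr 1 2 (.thr 41 61 (.dbl 45 30 33))))))) (.rp 9 (.thr 17 34 (.thr 7 5 (.thr 39 23 (.thr 25 29 (.thr 13 49 (.thr 15 27 (.dbl 12 8 14))))))) (.rp 8 (.thr 7 5 (.thr 39 23 (.thr 15 27 (.thr 45 30 (.thr 41 33 (.thr 1 61 (.dbl 3 2 11))))))) (.rp 3 (.thr 17 34 (.thr 29 25 (.thr 12 8 (.thr 28 44 (.thr 31 30 (.dbl 16 24 26)))))) .nd))))))))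 (.rp 38 (.thr 12 8 (.thr 28 44 (.thr 17 34 (.thr 29 25 (.thr 31 30 (.dbl 16 24 26)))))) (.rp 25 (.thr 12 8 (.thr 28 44 (.thr 54 57 (.thr 50 62 (.thr 38 55 (.thr 26 14 (.dbl 16 24 31))))))) (.rp 12 (.thr 54 57 (.thr 50 62 (.thr 17 34 (.thr 38 55 (.thr 26 14 (.thr 16 31 (.thr 24 28 (.dbl 25 27 29)))))))) (.rp 8 (.thr 17 34 (.thr 25 29 (.dbl 38 12 55))) .nd)))))))))) (.rp 3 (.thr 0 40 (.str 51 (.nv (.thr 12 8 (.dbl 38 25 55)) (.nv (.thr 54 57 (.thr 38 55 (.dbl 22 6 23))) (.rp 55 (.thr 54 57 (.thr 12 8 (.thr 17 34 (.dbl 25 29 38)))) (.rp 54 (.thr 55 38 (.thr 12 8 (.thr 28 44 (.thr 17 34 (.thr 25 29 (.dbl 22 19 23)))))) (.rp 43 (.thr 23 22 (.thr 12 8 (.dbl 38 25 55))) (.rp 38 (.thr 12 8 (.thr 28 44 (.thr 17 34 (.thr 25 29 (.dbl 22 19 23))))) (.rp 33 (.str 18 (.nv (.thr 12 8 (.thr 17 34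 (.thr 16 19 (.dbl 28 24 44)))) (.nv (.thr 54 57 (.thr 38 55 (.dbl 22 6 23))) (.rp 55 (.thr 54 57 (.thr 34 17 (.dbl 50 2 62))) (.rp 54 (.thr 55 38 (.thr 17 34 (.thr 16 19 (.thr 28 24 (.dbl 12 8 44))))) (.rp 43 (.thr 23 22 (.thr 12 8 (.dbl 38 25 55))) (.rp 23 (.str 43 (.nv (.thr 12 8 (.dbl 38 25 55)) (.nv (.thr 54 57 (.thr 50 62 (.dbl 34 2 17))) (.rp 54 (.thr 55 38 (.thr 17 34 (.thr 16 19 (.thr 28 24 (.dbl 12 8 44))))) .nd)))) .nd))))))) (.rp 23 (.str 43 (.nv (.thr 12 8 (.dbl 38 25 55)) (.nv (.thr 17 34 (.thr 25 29 (.dbl 38 12 55))) (.rp 55 (.thr 54 57 (.thr 17 34 (.thr 25 29 (.dbl 12 8 38)))) (.rp 54 (.thr 55 38 (.thr 17 34 (.thr 29 25 (.thr 12 8 (.thr 28 44 (.thr 31 30 (.dbl 16 24 26))))))) (.rp 38 (.thr 17 34 (.thr 25 29 (.thr 12 8 (.thr 28 44 (.thr 19 22 (.dbl 16 18 24)))))) (.rp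 33 (.str 18 (.nv (.thr 12 8 (.dbl 38 25 55)) (.nv (.thr 54 57 (.thr 50 62 (.dbl 34 2 17))) (.rp 54 (.thr 55 38 (.thr 17 34 (.thr 16 19 (.thr 28 24 (.dbl 12 8 44))))) .nd)))) (.rp 25 (.thr 34 17 (.thr 38 55 (.thr 54 57 (.thr 39 36 (.thr 42 46 (.dbl 47 32 35)))))) (.rp 18 (.str 33 (.nv (.thr 54 57 (.thr 17 34 (.thr 41 45 (.dbl 1 49 61)))) (.nv (.thr 12 8 (.dbl 38 25 55)) (.rp 54 (.thr 55 38 (.thr 17 34 (.thr 49 1 (.dbl 25 13 29)))) .nd)))) (.rp 12 (.thr 34 17 (.thr 38 55 (.thr 54 57 (.thr 62 50 (.thr 46 42 (.thr 30 14 (.thr 15 45 (.dbl 39 27 36)))))))) .nd)))))))))) (.rp 18 (.str 33 (.nv (.thr 54 57 (.thr 17 34 (.thr 25 29 (.dbl 49 1 13)))) (.nv (.thr 12 8 (.dbl 38 25 55)) (.nv (.thr 54 57 (.thr 38 55 (.dbl 22 6 23))) (.rp 54 (.thr 55 38 (.thr 41 45 (.thr 1 61 (.dbl 17 34 49)))) (.rp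 43 (.thr 23 22 (.thr 12 8 (.dbl 38 25 55))) (.rp 23 (.str 43 (.nv (.thr 54 57 (.thr 17 34 (.thr 41 45 (.dbl 1 49 61)))) (.nv (.thr 12 8 (.dbl 38 25 55)) (.rp 54 (.thr 55 38 (.thr 17 34 (.thr 49 1 (.dbl 25 13 29)))) .nd)))) .nd))))))) .nd))))))))))) .nd)))))))))

theorem w381 : WinAt (288230513593810960, 9237164310713598976) :=
  chF (K := []) kn c381 288230513593810960 9237164310713598976 52
    [67553994410557440, 1229764173248856064] (by decide +kernel) (by decide +kernel)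

/-- A certificate. -/
noncomputable def c382 : Ct := (.str 58 (.nv (.thr 36 52 (.dbl 38 39 55)) (.nv (.thr 52 36 (.dbl 22 7 23)) (.rp 52 .ext (.rp 36 (.thr 22 23 (.thr 7 52 (.thr 6 5 (.dbl 38 54 55)))) .nd)))))

theorem w382 : WinAt (137442099216, 9232660711086228480) :=
  chF (K := [(288230513593810960, 9237164310713598976)]) (kc w381 kn) c382 137442099216 9232660711086228480 63
    [] (by decide +kernel) (by decide +kernel)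

/-- A certificate. -/
noncomputable def c383 : Ct := (.str 4 (.nv (.thr 53 5 (.thr 55 38 (.thr 52 54 (.thr 22 7 (.dbl 20 23 36))))) (.nv (.thr 38 55 (.thr 36 39 (.thr 52 20 (.thr 7 22 (.dbl 5 6 53))))) (.rp 55 (.str 22 (.nv (.thr 5 53 (.dbl 7 6 52)) (.nv (.thr 20 23 (.dbl 52 7 36)) (.rp 52 (.thr 53 5 (.str 0 (.nv (.thr 8 12 (.thr 42 63 (.thr 2 62 (.thr 1 3 (.thr 61 41 (.thr 49 57 (.dbl 25 13 59))))))) (.nv (.thr 12 8 (.thr 20 23 (.thr 60 40 (.thr 28 44 (.thr 25 19 (.thr 17 29 (.dbl 51 34 38))))))) (.nv (.thr 20 23 (.thr 60 40 (.thr 3 41 (.thr 42 63 (.dbl 2 1 62))))) (.rp 60 (.str 56 (.nv (.thr 12 8 (.thr 23 20 (.thr 63 42 (.thr 3 43 (.thr 29 46 (.thr 25 17 (.thr 38 51 (.dbl 6 9 54)))))))) (.nv (.thr 8 12 (.thr 42 63 (.thr 59 25 (.thr 57 58 (.thr 2 62 (.thr 61 49 (.dbl 1 3 41)))))))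 (.nv (.thr 20 23 (.thr 8 12 (.thr 24 40 (.thr 28 16 (.thr 25 19 (.dbl 42 59 63)))))) (.rp 63 (.thr 20 23 (.thr 8 12 (.thr 24 40 (.thr 28 16 (.thr 25 19 (.thr 59 42 (.thr 49 13 (.dbl 57 58 61)))))))) (.rp 59 (.thr 20 23 (.thr 8 12 (.thr 24 40 (.thr 28 16 (.thr 25 19 (.thr 17 29 (.thr 49 13 (.thr 1 33 (.dbl 61 41 57))))))))) (.rp 42 (.thr 20 23 (.thr 8 12 (.thr 24 40 (.thr 28 16 (.thr 25 19 (.thr 17 29 (.thr 49 13 (.thr 1 33 (.dbl 61 41 57))))))))) (.rp 25 (.thr 23 20 (.thr 63 42 (.thr 3 43 (.thr 1 2 (.thr 41 61 (.thr 26 11 (.thr 33 45 (.thr 17 49 (.thr 16 31 (.dbl 18 19 30)))))))))) (.rp 12 (.thr 23 20 (.thr 63 42 (.thr 3 43 (.thr 1 2 (.thr 41 61 (.thr 26 11 (.thr 33 45 (.thr 17 49 (.thr 16 31 (.dbl 18 19 30)))))))))) (.rp 8 (.thr 23 20 (.thr 63 42 (.thr 3 43 (.thr 1 2 (.thr 41 61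 (.thr 33 45 (.thr 17 49 (.thr 51 34 (.thr 19 35 (.dbl 25 28 29)))))))))) .nd)))))))))) (.rp 56 (.str 60 (.nv (.thr 3 41 (.thr 2 1 (.dbl 42 62 63))) (.nv (.dbl 20 23 40) .nd))) (.rp 51 (.thr 20 23 (.thr 60 40 (.thr 3 41 (.thr 2 1 (.dbl 42 62 63))))) (.rp 23 (.thr 12 8 (.thr 63 42 (.thr 29 46 (.thr 25 17 (.thr 49 13 (.thr 28 19 (.thr 60 44 (.dbl 61 57 62)))))))) .nd))))))))) (.rp 7 (.thr 23 20 (.str 1 (.nv (.thr 41 61 (.thr 33 45 (.thr 49 17 (.thr 13 25 (.dbl 5 9 53))))) (.nv (.thr 41 61 (.thr 3 60 (.thr 63 43 (.dbl 0 2 42)))) (.rp 61 (.thr 5 53 (.thr 13 9 (.thr 49 25 (.thr 33 17 (.thr 41 45 (.thr 3 60 (.thr 0 2 (.dbl 63 42 43)))))))) (.rp 41 (.thr 5 53 (.thr 13 9 (.thr 25 49 (.thr 17 29 (.thr 19 28 (.thr 16 18 (.dbl 31 26 27))))))) .nd)))))) .nd))))) (.rp 53 (.str 20 (.nv (.thr 36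 52 (.dbl 38 39 55)) (.nv (.thr 22 23 (.dbl 52 7 36)) (.rp 63 .ext (.rp 58 (.str 63 (.nv (.thr 42 0 (.thr 36 52 (.dbl 38 39 55))) (.nv (.thr 22 23 (.dbl 52 7 36)) (.rp 52 (.thr 23 22 (.thr 55 38 (.thr 39 7 (.thr 43 3 (.thr 47 35 (.dbl 42 0 32)))))) (.rp 42 (.str 26 (.nv (.thr 36 52 (.dbl 38 39 55)) (.nv (.thr 22 23 (.dbl 52 7 36)) (.rp 52 (.thr 22 23 (.thr 16 31 (.thr 28 24 (.thr 18 30 (.dbl 19 17 25))))) (.rp 36 (.thr 22 23 (.thr 7 52 (.thr 6 5 (.dbl 38 54 55)))) .nd))))) (.rp 36 (.thr 22 23 (.thr 7 52 (.thr 6 5 (.dbl 38 54 55)))) .nd)))))) (.rp 52 (.thr 55 38 (.str 63 (.nv (.thr 23 22 (.thr 39 7 (.thr 51 59 (.thr 15 27 (.thr 47 31 (.dbl 43 3 35)))))) (.nv (.thr 0 42 (.thr 22 23 (.thr 60 40 (.thr 61 62 (.dbl 41 1 3))))) (.rp 60 (.str 56 (.nv (.thr 23 22 (.thr 3 43 (.thr 7 39 (.thr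 6 5 (.thr 12 9 (.dbl 0 8 42)))))) (.nv (.thr 0 42 (.thr 8 12 (.thr 22 23 (.thr 24 40 (.thr 28 16 (.thr 25 19 (.thr 17 29 (.dbl 51 34 59)))))))) (.nv (.thr 23 22 (.thr 39 7 (.thr 51 59 (.thr 15 27 (.thr 47 31 (.dbl 43 3 35)))))) (.rp 43 (.thr 22 23 (.thr 59 51 (.thr 42 0 (.thr 25 8 (.thr 28 19 (.thr 16 24 (.thr 31 26 (.dbl 29 17 30)))))))) (.rp 23 (.thr 59 51 (.thr 57 58 (.thr 42 0 (.thr 25 8 (.thr 41 9 (.thr 11 26 (.dbl 43 27 40))))))) (.rp 22 (.thr 59 51 (.thr 57 58 (.thr 42 0 (.thr 25 8 (.thr 41 9 (.thr 11 26 (.dbl 43 27 40))))))) .nd))))))) (.rp 56 (.str 60 (.nv (.thr 22 23 (.thr 41 3 (.dbl 61 1 62))) (.nv (.dbl 0 40 42) .nd))) (.rp 43 (.thr 22 23 (.thr 0 42 (.thr 60 40 (.thr 41 3 (.dbl 61 1 62))))) (.rp 23 (.thr 0 42 (.thr 12 8 (.thr 60 40 (.thr 61 62 (.thr 41 1 (.thr 45 33 (.dbl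 29 13 46))))))) (.rp 22 (.thr 0 42 (.thr 12 8 (.thr 46 29 (.thr 60 40 (.thr 44 28 (.thr 62 61 (.thr 45 47 (.dbl 30 14 15)))))))) (.rp 3 (.thr 23 22 (.thr 39 7 (.thr 51 59 (.thr 15 27 (.thr 47 31 (.dbl 42 0 32)))))) .nd)))))))))) (.rp 36 (.thr 22 23 (.thr 7 52 (.thr 6 5 (.dbl 38 54 55)))) .nd))))))) (.rp 52 (.thr 53 5 (.thr 38 55 (.str 0 (.nv (.thr 12 8 (.thr 25 51 (.thr 17 29 (.thr 49 13 (.thr 1 33 (.dbl 61 41 57)))))) (.nv (.thr 36 39 (.thr 42 63 (.thr 32 47 (.thr 44 40 (.thr 35 41 (.dbl 34 33 46)))))) (.nv (.thr 12 8 (.thr 51 25 (.thr 42 63 (.dbl 34 17 46)))) (.rp 63 (.thr 36 39 (.thr 12 8 (.thr 51 25 (.thr 34 17 (.thr 42 46 (.thr 32 47 (.thr 35 33 (.dbl 44 40 41)))))))) (.rp 60 (.str 56 (.nv (.thr 12 8 (.thr 25 51 (.thr 17 29 (.thr 49 13 (.thr 1 33 (.dbl 61 41 57)))))) (.nv (.thr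 36 39 (.thr 42 63 (.thr 32 47 (.thr 44 40 (.thr 35 41 (.dbl 34 33 46)))))) (.nv (.thr 8 12 (.thr 36 39 (.thr 40 24 (.thr 44 32 (.thr 41 35 (.dbl 42 43 63)))))) (.nv (.thr 12 8 (.thr 51 25 (.thr 34 17 (.dbl 42 46 63)))) (.rp 63 (.thr 36 39 (.thr 12 8 (.thr 51 25 (.thr 34 17 (.thr 42 46 (.thr 32 47 (.thr 35 33 (.dbl 44 40 41)))))))) .nd)))))) (.rp 56 (.str 60 (.nv (.thr 12 8 (.thr 36 39 (.thr 40 20 (.dbl 44 28 32)))) (.nv (.thr 42 63 (.thr 34 46 (.thr 51 17 (.dbl 12 8 25)))) (.nv (.thr 36 39 (.thr 40 20 (.thr 32 44 (.dbl 42 47 63)))) .nd)))) (.rp 51 (.thr 36 39 (.thr 8 12 (.thr 42 63 (.thr 59 25 (.thr 32 47 (.thr 44 40 (.thr 35 41 (.dbl 34 33 46)))))))) .nd)))))))))) (.rp 38 (.str 25 (.nv (.thr 5 53 (.thr 13 49 (.thr 1 9 (.thr 29 17 (.dbl 61 41 45))))) (.nv (.thr 53 5 (.thr 17 29 (.thr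 49 13 (.thr 61 57 (.dbl 1 33 41))))) (.rp 61 (.thr 5 53 (.thr 17 29 (.thr 7 6 (.thr 22 52 (.thr 23 20 (.thr 19 28 (.thr 31 27 (.dbl 16 18 26)))))))) (.rp 57 (.thr 5 53 (.thr 29 17 (.thr 13 49 (.thr 61 45 (.dbl 1 9 41))))) (.rp 53 (.thr 29 17 (.thr 13 49 (.thr 61 45 (.thr 1 41 (.thr 5 9 (.thr 7 6 (.thr 22 52 (.thr 20 23 (.thr 28 19 (.thr 16 24 (.dbl 31 26 30))))))))))) (.rp 49 (.thr 5 53 (.thr 17 29 (.thr 7 6 (.thr 22 52 (.thr 23 20 (.thr 19 28 (.thr 31 27 (.dbl 16 18 26)))))))) (.rp 41 (.thr 5 53 (.thr 17 29 (.thr 7 6 (.thr 22 52 (.thr 23 20 (.thr 19 28 (.thr 31 27 (.dbl 16 18 26)))))))) (.rp 29 (.thr 5 53 (.thr 13 49 (.thr 9 1 (.thr 57 41 (.thr 6 7 (.thr 12 3 (.thr 0 8 (.thr 15 14 (.thr 63 42 (.thr 31 47 (.thr 26 16 (.thr 27 24 (.thr 23 19 (.thr 51 39 (.thr 20 22 (.dbl 60 40 54))))))))))))))))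 (.rp 17 (.thr 5 53 (.thr 13 49 (.thr 1 9 (.thr 61 41 (.thr 29 45 (.thr 7 6 (.thr 22 52 (.thr 20 23 (.thr 28 19 (.thr 16 24 (.dbl 31 26 30))))))))))) (.rp 13 (.thr 5 53 (.thr 17 29 (.thr 7 6 (.thr 22 52 (.thr 23 20 (.thr 19 28 (.thr 31 27 (.dbl 16 18 26)))))))) (.rp 9 (.thr 53 5 (.thr 17 29 (.thr 49 13 (.thr 1 33 (.dbl 61 41 57))))) (.rp 5 (.str 0 (.nv (.thr 12 8 (.thr 29 17 (.dbl 63 42 46))) (.nv (.thr 8 12 (.dbl 42 59 63)) (.rp 63 (.thr 29 17 (.thr 13 49 (.thr 45 61 (.thr 12 8 (.thr 15 14 (.thr 60 30 (.thr 28 44 (.thr 20 40 (.dbl 22 19 23))))))))) (.rp 42 (.thr 29 17 (.thr 13 49 (.thr 45 61 (.thr 12 8 (.thr 15 14 (.thr 60 30 (.thr 44 28 (.dbl 46 47 63)))))))) (.rp 12 (.thr 17 29 (.thr 49 13 (.thr 1 33 (.thr 61 41 (.thr 57 53 (.thr 51 34 (.thr 60 54 (.dbl 63 42 62)))))))) (.rp 8 (.thr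 17 29 (.thr 49 13 (.thr 34 51 (.thr 42 63 (.thr 32 47 (.dbl 33 1 35)))))) .nd))))))) (.rp 1 (.thr 5 53 (.thr 17 29 (.thr 7 6 (.thr 22 52 (.thr 23 20 (.thr 19 28 (.thr 31 27 (.dbl 16 18 26)))))))) .nd)))))))))))))) (.rp 36 (.thr 5 53 (.thr 7 6 (.thr 22 52 (.thr 23 20 (.dbl 55 38 39))))) (.rp 23 (.thr 5 53 (.thr 7 6 (.thr 52 22 (.thr 36 20 (.dbl 38 39 55))))) (.rp 22 (.str 49 (.nv (.thr 13 25 (.thr 5 53 (.thr 1 9 (.thr 33 17 (.dbl 41 45 61))))) (.nv (.thr 25 13 (.thr 29 17 (.thr 38 55 (.thr 12 51 (.thr 63 46 (.dbl 0 8 42)))))) (.nv (.thr 25 13 (.thr 53 5 (.thr 17 29 (.thr 61 57 (.dbl 1 33 41))))) (.rp 25 (.thr 53 5 (.thr 61 57 (.thr 41 1 (.thr 33 45 (.thr 38 55 (.thr 39 36 (.thr 35 44 (.thr 47 43 (.dbl 32 34 42))))))))) (.rp 17 (.thr 53 5 (.thr 13 25 (.thr 61 57 (.thr 45 29 (.dbl 41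 1 33))))) (.rp 13 (.thr 53 5 (.thr 61 57 (.thr 1 41 (.thr 17 33 (.thr 25 29 (.thr 38 55 (.thr 36 39 (.thr 20 52 (.thr 12 51 (.thr 0 8 (.thr 60 40 (.dbl 63 42 62)))))))))))) .nd))))))) (.rp 20 (.str 1 (.nv (.thr 53 5 (.thr 61 41 (.thr 49 57 (.thr 25 13 (.dbl 17 29 33))))) (.nv (.thr 5 53 (.thr 6 7 (.thr 9 13 (.thr 3 12 (.thr 38 55 (.thr 41 61 (.dbl 22 54 60))))))) (.nv (.thr 41 61 (.thr 33 45 (.thr 49 17 (.thr 13 25 (.dbl 5 9 53))))) (.rp 61 (.thr 5 53 (.thr 6 7 (.thr 38 55 (.thr 9 13 (.thr 12 3 (.thr 51 25 (.thr 0 8 (.thr 34 17 (.dbl 42 46 63))))))))) (.rp 53 (.thr 38 55 (.thr 36 39 (.thr 41 61 (.thr 45 33 (.thr 44 35 (.thr 47 46 (.dbl 32 40 42))))))) (.rp 49 (.thr 38 55 (.thr 36 39 (.thr 41 61 (.thr 45 33 (.thr 44 35 (.thr 47 46 (.dbl 32 40 42))))))) (.rp 41 (.thr 5 53 (.thr 6 7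 (.thr 38 55 (.thr 9 13 (.thr 12 3 (.thr 51 25 (.thr 0 8 (.thr 34 17 (.dbl 42 46 63))))))))) (.rp 29 (.thr 5 53 (.thr 13 9 (.thr 49 25 (.thr 33 17 (.dbl 41 45 61))))) (.rp 13 (.thr 38 55 (.thr 36 39 (.thr 41 61 (.thr 45 33 (.thr 44 35 (.thr 47 46 (.dbl 32 40 42))))))) (.rp 5 (.thr 38 55 (.thr 36 39 (.thr 41 61 (.thr 45 33 (.thr 44 35 (.thr 47 46 (.dbl 32 40 42))))))) .nd))))))))))) (.rp 7 (.str 1 (.nv (.thr 53 5 (.thr 61 41 (.thr 49 57 (.thr 25 13 (.dbl 17 29 33))))) (.nv (.thr 41 61 (.thr 33 45 (.thr 49 17 (.thr 13 25 (.dbl 5 9 53))))) (.rp 61 (.thr 5 53 (.thr 38 55 (.thr 39 36 (.thr 13 9 (.thr 49 25 (.thr 33 17 (.thr 41 45 (.thr 35 44 (.thr 32 34 (.dbl 47 42 43)))))))))) (.rp 53 (.thr 38 55 (.thr 39 36 (.thr 41 61 (.thr 33 45 (.thr 35 44 (.thr 32 34 (.dbl 47 42 43))))))) (.rp 49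 (.thr 38 55 (.thr 39 36 (.thr 41 61 (.thr 33 45 (.thr 35 44 (.thr 32 34 (.dbl 47 42 43))))))) (.rp 41 (.thr 5 53 (.thr 38 55 (.thr 13 9 (.thr 25 49 (.thr 17 29 (.thr 51 12 (.thr 0 34 (.thr 3 2 (.thr 19 35 (.thr 22 28 (.thr 23 20 (.dbl 63 42 43)))))))))))) (.rp 33 (.thr 5 53 (.thr 13 9 (.thr 25 49 (.thr 29 17 (.dbl 61 41 45))))) (.rp 29 (.thr 5 53 (.thr 13 9 (.thr 49 25 (.thr 33 17 (.dbl 41 45 61))))) (.rp 25 (.thr 38 55 (.thr 39 36 (.thr 41 61 (.thr 33 45 (.thr 35 44 (.thr 32 34 (.dbl 47 42 43))))))) (.rp 17 (.thr 38 55 (.thr 39 36 (.thr 41 61 (.thr 33 45 (.thr 35 44 (.thr 32 34 (.dbl 47 42 43))))))) (.rp 13 (.thr 38 55 (.thr 39 36 (.thr 41 61 (.thr 35 44 (.thr 47 43 (.thr 32 42 (.dbl 33 34 45))))))) (.rp 5 (.thr 38 55 (.thr 39 36 (.thr 41 61 (.thr 33 45 (.thr 35 44 (.thr 32 34 (.dbl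 47 42 43))))))) .nd))))))))))))) (.rp 5 (.str 0 (.nv (.thr 38 55 (.thr 36 39 (.thr 20 52 (.thr 42 63 (.thr 32 47 (.dbl 40 44 60)))))) (.nv (.thr 38 55 (.thr 12 8 (.thr 51 25 (.thr 34 17 (.dbl 42 46 63))))) (.rp 63 (.thr 38 55 (.thr 36 39 (.thr 20 52 (.thr 12 8 (.thr 51 25 (.thr 60 40 (.thr 54 57 (.dbl 22 6 23)))))))) (.rp 59 (.thr 38 55 (.thr 12 8 (.thr 51 25 (.thr 42 63 (.dbl 34 17 46))))) (.rp 55 (.thr 12 8 (.thr 63 42 (.thr 29 46 (.thr 25 17 (.thr 13 49 (.thr 45 61 (.thr 15 14 (.thr 31 47 (.dbl 30 28 60))))))))) (.rp 51 (.thr 38 55 (.thr 36 39 (.thr 20 52 (.thr 12 8 (.thr 60 40 (.thr 44 28 (.thr 41 35 (.dbl 22 3 23)))))))) (.rp 42 (.thr 38 55 (.thr 36 39 (.thr 20 52 (.thr 12 8 (.thr 25 51 (.thr 60 40 (.thr 28 44 (.dbl 22 19 23)))))))) (.rp 38 (.thr 8 12 (.thr 42 63 (.thr 25 59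 (.thr 29 17 (.thr 13 49 (.thr 61 45 (.thr 1 41 (.thr 2 3 (.thr 22 62 (.thr 52 7 (.dbl 20 23 36))))))))))) .nd))))))))) .nd)))))))))))))

theorem w383 : WinAt (137441050624, 281474976711680) :=
  chF (K := [(137442099216, 9232660711086228480)]) (kc w382 kn) c383 137441050624 281474976711680 48
    [] (by decide +kernel) (by decide +kernel)

/-- A certificate. -/
noncomputable def c384 : Ct := (.str 63 (.nv (.thr 48 58 (.thr 15 26 (.thr 42 0 (.dbl 47 31 32)))) (.rp 58 (.thr 42 0 (.str 15 (.nv (.dbl 47 31 32) (.rp 47 (.str 3 (.nv (.thr 7 11 (.thr 22 52 (.thr 60 41 (.dbl 62 2 61)))) (.nv (.thr 43 23 (.thr 41 40 (.thr 33 45 (.dbl 48 18 26)))) (.nv (.thr 7 11 (.thr 22 52 (.dbl 23 20 43))) .nd)))) (.rp 32 (.thr 31 47 (.dbl 26 16 48)) (.rp 31 (.str 3 (.nv (.thr 7 11 (.thr 22 52 (.thr 60 41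 (.dbl 62 2 61)))) (.nv (.thr 43 23 (.thr 41 40 (.thr 33 45 (.dbl 48 18 26)))) (.nv (.thr 7 11 (.thr 22 52 (.dbl 23 20 43))) .nd)))) .nd)))))) (.rp 48 (.str 51 (.nv (.thr 0 42 (.thr 17 34 (.thr 25 29 (.thr 55 59 (.dbl 38 4 12))))) (.nv (.thr 55 59 (.thr 52 54 (.thr 7 22 (.thr 38 4 (.dbl 39 23 36))))) (.rp 59 (.thr 0 42 (.thr 17 34 (.thr 25 29 (.thr 38 12 (.thr 55 4 (.thr 52 54 (.thr 7 22 (.dbl 39 23 36)))))))) (.rp 55 (.str 31 (.nv (.thr 0 42 (.thr 15 47 (.thr 17 34 (.thr 29 25 (.thr 30 28 (.thr 45 60 (.thr 13 61 (.dbl 12 14 46)))))))) (.nv (.thr 15 47 (.thr 27 39 (.thr 23 19 (.thr 22 20 (.thr 7 52 (.dbl 3 11 43)))))) (.nv (.thr 0 42 (.thr 26 16 (.thr 15 47 (.thr 17 34 (.thr 25 29 (.dbl 27 24 39)))))) (.rp 47 (.thr 26 16 (.thr 0 42 (.thr 17 34 (.thr 25 29 (.thr 27 24 (.thr 39 15 (.dbl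 38 12 36))))))) (.rp 15 (.thr 0 42 (.thr 26 16 (.thr 17 34 (.thr 29 25 (.thr 30 28 (.thr 22 18 (.thr 20 23 (.thr 60 40 (.thr 61 62 (.dbl 41 1 3)))))))))) .nd)))))) (.rp 38 (.thr 55 59 (.thr 52 54 (.thr 22 7 (.thr 23 20 (.thr 3 43 (.thr 41 60 (.thr 1 61 (.dbl 0 2 42)))))))) (.rp 4 (.thr 55 59 (.thr 52 54 (.thr 7 22 (.thr 39 23 (.thr 15 27 (.thr 42 0 (.dbl 47 31 32))))))) (.rp 0 (.str 15 (.nv (.thr 39 27 (.thr 55 59 (.thr 7 23 (.dbl 52 22 54)))) (.nv (.thr 55 59 (.thr 4 38 (.thr 52 54 (.thr 20 36 (.dbl 22 7 23))))) (.nv (.thr 55 59 (.thr 39 27 (.dbl 38 4 36))) (.rp 59 (.thr 39 27 (.thr 38 36 (.thr 55 4 (.thr 7 23 (.dbl 52 22 54))))) (.rp 55 (.thr 31 47 (.thr 39 27 (.thr 38 36 (.thr 12 25 (.thr 14 13 (.dbl 26 16 50)))))) (.rp 32 (.str 16 (.nv (.thr 39 27 (.thr 38 36 (.dbl 55 4 59)))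 (.nv (.dbl 31 26 47) .nd))) (.rp 16 (.str 32 (.nv (.thr 39 27 (.thr 38 36 (.dbl 55 4 59))) (.nv (.dbl 47 31 42) .nd))) .nd)))))))) .nd)))))))) (.rp 47 (.thr 48 58 (.thr 26 15 (.thr 0 42 (.dbl 16 31 32)))) (.rp 42 (.str 15 (.nv (.dbl 48 26 58) (.rp 58 (.thr 26 48 (.dbl 31 16 47)) (.rp 48 (.thr 31 47 (.str 51 (.nv (.thr 26 16 (.thr 55 59 (.thr 38 4 (.thr 14 50 (.dbl 12 13 25))))) (.nv (.thr 26 16 (.thr 27 39 (.thr 25 24 (.thr 12 38 (.dbl 29 17 46))))) (.nv (.thr 26 16 (.thr 27 39 (.thr 23 19 (.thr 43 3 (.dbl 59 11 55))))) (.nv (.thr 39 27 (.thr 38 36 (.dbl 55 4 59))) (.rp 26 (.str 58 (.nv (.thr 27 39 (.thr 23 19 (.thr 22 20 (.thr 7 52 (.dbl 3 11 43))))) (.nv (.thr 55 59 (.thr 54 52 (.thr 60 57 (.dbl 62 50 61)))) (.nv (.thr 39 27 (.thr 38 36 (.dbl 55 4 59))) .nd)))) .nd))))))) (.rp 26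 (.thr 58 48 (.str 51 (.nv (.thr 55 59 (.thr 54 52 (.thr 60 57 (.dbl 62 50 61)))) (.nv (.thr 39 27 (.thr 38 36 (.dbl 55 4 59))) (.rp 59 (.thr 39 27 (.thr 38 36 (.thr 55 4 (.thr 7 23 (.dbl 52 22 54))))) (.rp 55 (.thr 27 39 (.thr 31 47 (.thr 23 19 (.thr 22 20 (.thr 7 52 (.dbl 3 11 43)))))) (.rp 25 (.thr 59 55 (.thr 27 39 (.thr 43 11 (.thr 23 3 (.dbl 31 19 47))))) .nd))))))) .nd))))) (.rp 32 (.str 51 (.nv (.thr 0 42 (.thr 55 59 (.thr 54 52 (.thr 58 48 (.thr 60 57 (.dbl 62 50 61)))))) (.nv (.thr 0 42 (.thr 17 34 (.thr 25 29 (.thr 48 58 (.thr 26 15 (.thr 24 27 (.dbl 12 36 38))))))) (.nv (.thr 55 59 (.thr 52 54 (.thr 7 22 (.thr 38 4 (.dbl 39 23 36))))) (.rp 0 (.str 15 (.nv (.thr 39 27 (.thr 38 36 (.dbl 55 4 59))) (.nv (.dbl 48 26 58) (.rp 48 (.str 16 (.nv (.thr 39 27 (.thr 38 36 (.dbl 55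 4 59))) (.nv (.dbl 31 26 47) .nd))) .nd)))) .nd))))) (.rp 31 (.str 29 (.nv (.thr 12 46 (.thr 25 17 (.thr 38 51 (.thr 36 39 (.dbl 48 24 58))))) (.nv (.thr 12 46 (.thr 48 58 (.thr 36 24 (.thr 38 39 (.thr 4 55 (.dbl 0 8 42)))))) (.nv (.thr 25 17 (.thr 12 46 (.thr 51 38 (.thr 59 55 (.dbl 42 0 8))))) (.rp 46 (.thr 25 17 (.thr 48 58 (.thr 15 26 (.thr 42 0 (.thr 59 8 (.thr 51 55 (.thr 39 27 (.dbl 38 12 36)))))))) (.rp 38 (.thr 25 17 (.thr 12 46 (.thr 48 58 (.thr 24 36 (.dbl 26 15 27))))) (.rp 15 (.thr 0 42 (.thr 25 17 (.thr 12 46 (.thr 4 8 (.dbl 38 51 55))))) (.rp 12 (.thr 17 25 (.thr 48 58 (.thr 26 15 (.thr 0 42 (.thr 16 32 (.thr 18 19 (.thr 3 33 (.thr 23 43 (.dbl 22 20 30))))))))) (.rp 0 (.str 15 (.nv (.dbl 48 26 58) (.rp 58 (.thr 25 17 (.thr 12 46 (.thr 51 38 (.thr 27 39 (.dbl 26 24 48)))))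 (.rp 48 (.thr 25 17 (.thr 12 46 (.thr 51 38 (.thr 39 27 (.thr 55 59 (.thr 52 54 (.dbl 7 22 23))))))) (.rp 26 (.thr 25 17 (.thr 12 46 (.thr 51 38 (.thr 39 27 (.thr 55 59 (.thr 52 54 (.dbl 7 22 23))))))) .nd))))) .nd))))))))) (.rp 26 (.thr 0 42 (.thr 58 48 (.str 51 (.nv (.thr 55 59 (.thr 54 52 (.thr 60 57 (.dbl 62 50 61)))) (.nv (.thr 17 34 (.thr 55 59 (.thr 25 29 (.dbl 38 4 12)))) (.rp 59 (.thr 17 34 (.thr 25 29 (.thr 38 12 (.thr 55 4 (.thr 54 52 (.thr 62 50 (.dbl 60 57 61))))))) (.rp 55 (.str 35 (.nv (.thr 3 19 (.thr 1 2 (.thr 23 43 (.thr 22 20 (.dbl 41 60 61))))) (.nv (.thr 3 19 (.thr 17 34 (.thr 25 29 (.thr 38 12 (.thr 43 23 (.dbl 39 36 47)))))) (.nv (.thr 34 17 (.thr 33 32 (.thr 3 19 (.thr 41 45 (.dbl 1 2 61))))) (.rp 19 (.thr 34 17 (.thr 33 32 (.thr 41 45 (.thr 1 61 (.thr 3 2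 (.thr 23 43 (.dbl 22 20 60))))))) (.rp 3 (.thr 17 34 (.thr 25 29 (.thr 38 12 (.thr 41 44 (.thr 61 1 (.thr 60 62 (.dbl 57 9 54))))))) .nd)))))) (.rp 25 (.thr 59 55 (.thr 57 56 (.thr 60 54 (.thr 20 40 (.thr 22 23 (.thr 41 3 (.dbl 61 1 62))))))) .nd)))))))) (.rp 15 (.thr 0 42 (.str 60 (.nv (.thr 20 40 (.thr 22 23 (.thr 52 7 (.dbl 48 56 58)))) (.nv (.thr 20 40 (.thr 61 62 (.thr 22 23 (.dbl 41 1 3)))) (.nv (.thr 58 48 (.thr 62 61 (.thr 54 50 (.thr 51 57 (.dbl 55 52 59))))) (.rp 58 (.str 26 (.nv (.thr 16 31 (.thr 20 40 (.thr 24 28 (.thr 48 32 (.thr 36 12 (.dbl 52 4 56)))))) (.nv (.thr 16 31 (.thr 48 32 (.thr 52 56 (.thr 22 7 (.thr 18 30 (.dbl 3 33 41)))))) (.nv (.thr 20 40 (.thr 22 23 (.thr 61 62 (.dbl 41 1 3)))) (.rp 41 (.thr 16 31 (.thr 48 32 (.thr 52 56 (.thr 22 7 (.dbl 20 23 40)))))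 .nd))))) .nd)))))) (.rp 0 (.str 15 (.nv (.dbl 48 26 58) (.rp 58 (.thr 31 47 (.dbl 26 16 48)) (.rp 48 (.str 51 (.nv (.thr 39 27 (.thr 55 59 (.thr 7 23 (.dbl 52 22 54)))) (.nv (.thr 55 59 (.thr 4 38 (.thr 52 54 (.thr 20 36 (.dbl 22 7 23))))) (.nv (.thr 55 59 (.thr 39 27 (.dbl 38 4 36))) (.rp 59 (.thr 39 27 (.thr 38 36 (.thr 55 4 (.thr 7 23 (.dbl 52 22 54))))) (.rp 55 (.thr 31 47 (.thr 39 27 (.thr 38 36 (.thr 12 25 (.thr 14 13 (.dbl 26 16 50)))))) (.rp 32 (.str 16 (.nv (.thr 39 27 (.thr 38 36 (.dbl 55 4 59))) (.nv (.dbl 31 26 47) .nd))) (.rp 16 (.str 32 (.nv (.thr 39 27 (.thr 38 36 (.dbl 55 4 59))) (.nv (.dbl 47 31 42) .nd))) .nd)))))))) (.rp 26 (.str 29 (.nv (.thr 12 46 (.thr 25 17 (.thr 47 31 (.thr 42 32 (.thr 59 8 (.dbl 51 38 55)))))) (.nv (.thr 31 47 (.thr 30 28 (.thr 60 45 (.thr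 62 61 (.dbl 46 12 14))))) (.rp 58 (.str 42 (.nv (.dbl 47 31 32) (.rp 47 (.thr 12 46 (.thr 25 17 (.thr 59 8 (.dbl 51 38 55)))) (.rp 32 (.thr 12 46 (.thr 25 17 (.thr 59 8 (.dbl 51 38 55)))) (.rp 31 (.thr 12 46 (.thr 25 17 (.thr 59 8 (.dbl 51 38 55)))) .nd))))) (.rp 47 (.thr 25 17 (.thr 12 46 (.thr 51 38 (.thr 39 27 (.thr 55 59 (.thr 7 23 (.dbl 52 22 54))))))) (.rp 46 (.thr 31 47 (.thr 30 28 (.thr 45 60 (.thr 61 13 (.dbl 41 1 33))))) (.rp 42 (.thr 58 48 (.thr 31 47 (.thr 30 28 (.thr 45 60 (.thr 61 13 (.dbl 41 1 33)))))) (.rp 31 (.thr 25 17 (.thr 12 46 (.thr 51 38 (.thr 39 27 (.thr 55 59 (.thr 52 54 (.dbl 7 22 23))))))) (.rp 12 (.thr 25 17 (.thr 31 47 (.thr 28 30 (.thr 22 19 (.thr 23 20 (.thr 3 43 (.dbl 7 11 52))))))) .nd))))))))) .nd))))) .nd)))))))))))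

theorem w384 : WinAt (9007336695791616, 562949953422368) :=
  chF (K := []) kn c384 9007336695791616 562949953422368 5
    [33825] (by decide +kernel) (by decide +kernel)

/-- A certificate. -/
noncomputable def c385 : Ct := (.str 4 (.nv (.thr 38 55 (.thr 36 39 (.thr 52 20 (.dbl 7 6 22)))) (.nv (.thr 7 6 (.thr 52 22 (.thr 38 55 (.dbl 36 20 39)))) (.rp 55 (.str 52 (.nv (.dbl 7 6 22) (.rp 22 (.str 1 (.nv (.thr 13 9 (.thr 25 49 (.thr 61 41 (.dbl 29 17 45)))) (.nv (.thr 41 61 (.thr 33 45 (.thr 49 17 (.dbl 13 9 25)))) (.rp 61 (.thr 36 20 (.thr 6 7 (.thr 9 13 (.thr 12 3 (.thr 48 24 (.thr 0 8 (.thr 16 32 (.dbl 26 15 31)))))))) (.rp 49 (.thr 20 36 (.thr 6 7 (.thr 9 13 (.thr 3 12 (.thr 0 2 (.thr 61 41 (.thr 60 40 (.dbl 63 42 62)))))))) (.rp 45 (.thr 36 20 (.thr 38 39 (.thr 13 9 (.thr 25 49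 (.thr 12 51 (.thr 48 24 (.dbl 15 14 26))))))) (.rp 41 (.thr 36 20 (.thr 38 39 (.thr 13 9 (.thr 25 49 (.thr 12 51 (.thr 48 24 (.dbl 15 14 26))))))) (.rp 29 (.thr 13 9 (.thr 49 25 (.thr 33 17 (.dbl 41 45 61)))) (.rp 25 (.thr 36 20 (.thr 38 39 (.thr 41 61 (.thr 45 33 (.thr 44 35 (.thr 47 46 (.dbl 32 40 42))))))) (.rp 17 (.thr 36 20 (.thr 38 39 (.thr 13 9 (.thr 25 49 (.thr 12 51 (.thr 48 24 (.dbl 15 14 26))))))) (.rp 13 (.thr 36 20 (.thr 38 39 (.thr 41 61 (.thr 45 33 (.thr 44 35 (.thr 47 46 (.dbl 32 40 42))))))) (.rp 9 (.thr 36 20 (.thr 38 39 (.thr 41 61 (.thr 45 33 (.thr 44 35 (.thr 47 46 (.dbl 32 40 42))))))) .nd)))))))))))) (.rp 7 (.thr 20 36 (.thr 23 22 (.str 0 (.nv (.thr 60 40 (.thr 48 56 (.thr 26 15 (.dbl 16 31 32)))) (.nv (.thr 12 8 (.thr 63 42 (.thr 3 43 (.thr 9 6 (.dbl 1 2 13)))))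 (.nv (.thr 60 40 (.thr 48 56 (.thr 32 16 (.dbl 42 47 63)))) (.rp 40 (.thr 12 8 (.thr 63 42 (.thr 29 46 (.thr 25 17 (.thr 13 49 (.thr 61 45 (.dbl 1 9 41))))))) (.rp 8 (.thr 60 40 (.thr 42 63 (.thr 32 47 (.dbl 48 16 56)))) .nd)))))))) (.rp 6 (.thr 20 36 (.dbl 22 7 23)) .nd))))) (.rp 52 (.thr 55 38 (.str 26 (.nv (.thr 7 6 (.thr 15 48 (.thr 3 11 (.thr 23 39 (.thr 22 20 (.thr 30 18 (.dbl 60 41 45))))))) (.nv (.thr 6 7 (.thr 15 48 (.thr 31 16 (.thr 63 47 (.thr 0 42 (.thr 12 8 (.thr 9 3 (.dbl 13 1 14)))))))) (.nv (.thr 7 6 (.thr 23 39 (.thr 22 20 (.thr 30 18 (.thr 31 16 (.thr 28 29 (.dbl 19 25 27))))))) (.nv (.thr 31 16 (.thr 15 48 (.thr 63 47 (.thr 51 59 (.thr 39 27 (.dbl 7 6 23)))))) (.rp 7 (.thr 48 15 (.thr 16 31 (.thr 0 32 (.thr 12 8 (.thr 24 36 (.thr 25 27 (.thr 29 17 (.dbl 63 42 46))))))))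 (.rp 6 (.thr 48 15 (.thr 16 31 (.thr 0 32 (.thr 12 8 (.thr 24 36 (.thr 25 27 (.thr 29 17 (.dbl 63 42 46)))))))) .nd)))))))) (.rp 39 (.str 1 (.nv (.thr 6 7 (.thr 9 13 (.thr 3 12 (.thr 41 61 (.thr 22 60 (.dbl 38 54 55)))))) (.nv (.thr 13 9 (.thr 41 61 (.thr 49 25 (.dbl 33 17 45)))) (.rp 61 (.thr 6 7 (.thr 9 13 (.thr 3 12 (.thr 0 2 (.thr 63 42 (.thr 38 55 (.thr 23 43 (.dbl 22 20 54)))))))) (.rp 49 (.thr 6 7 (.thr 9 13 (.thr 3 12 (.thr 41 61 (.thr 57 25 (.thr 22 60 (.dbl 38 54 55))))))) (.rp 45 (.thr 7 6 (.thr 22 52 (.thr 23 20 (.thr 41 61 (.thr 3 60 (.thr 63 43 (.dbl 0 2 42))))))) (.rp 41 (.thr 6 7 (.thr 9 13 (.thr 12 3 (.thr 0 8 (.thr 63 42 (.thr 29 46 (.thr 25 17 (.dbl 38 51 55)))))))) (.rp 13 (.thr 7 6 (.thr 22 52 (.thr 23 20 (.thr 41 61 (.thr 3 60 (.thr 63 43 (.dbl 0 2 42)))))))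 (.rp 9 (.thr 7 6 (.thr 22 52 (.thr 23 20 (.thr 41 61 (.thr 3 60 (.thr 63 43 (.dbl 0 2 42))))))) .nd))))))))) (.rp 38 (.str 26 (.nv (.thr 7 6 (.thr 15 48 (.thr 3 11 (.thr 22 52 (.thr 30 18 (.dbl 60 41 45)))))) (.nv (.thr 6 7 (.thr 15 48 (.thr 31 16 (.thr 63 47 (.thr 0 42 (.thr 12 8 (.thr 13 14 (.dbl 9 1 3)))))))) (.nv (.thr 7 6 (.thr 16 31 (.thr 22 52 (.thr 18 30 (.thr 19 17 (.thr 20 23 (.dbl 28 24 25))))))) (.rp 14 (.thr 16 31 (.thr 48 15 (.thr 0 32 (.thr 12 8 (.thr 36 24 (.thr 52 20 (.dbl 7 6 22))))))) (.rp 7 (.thr 16 31 (.thr 48 15 (.thr 0 32 (.thr 12 8 (.thr 24 36 (.thr 25 27 (.thr 29 17 (.dbl 63 42 46)))))))) (.rp 6 (.thr 16 31 (.thr 48 15 (.thr 0 32 (.thr 12 8 (.thr 24 36 (.thr 25 27 (.thr 29 17 (.dbl 63 42 46)))))))) .nd))))))) (.rp 36 (.thr 7 6 (.thr 22 52 (.thr 23 20 (.dbl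 55 38 39)))) (.rp 22 (.str 1 (.nv (.thr 6 7 (.thr 9 13 (.thr 12 3 (.thr 38 55 (.thr 25 51 (.dbl 41 57 61)))))) (.nv (.thr 41 61 (.thr 33 45 (.thr 49 17 (.dbl 13 9 25)))) (.rp 61 (.thr 6 7 (.thr 38 55 (.thr 9 13 (.thr 12 3 (.thr 51 25 (.thr 0 8 (.thr 34 17 (.dbl 42 46 63)))))))) (.rp 57 (.thr 13 9 (.thr 49 25 (.thr 41 61 (.dbl 33 17 45)))) (.rp 49 (.thr 6 7 (.thr 38 55 (.thr 9 13 (.thr 12 3 (.thr 51 25 (.thr 0 8 (.thr 34 17 (.dbl 42 46 63)))))))) (.rp 41 (.thr 38 55 (.thr 36 39 (.thr 13 9 (.thr 25 49 (.thr 12 51 (.thr 48 24 (.dbl 15 14 26))))))) (.rp 25 (.thr 38 55 (.thr 36 39 (.thr 41 61 (.thr 45 33 (.thr 44 35 (.thr 47 46 (.dbl 32 40 42))))))) (.rp 13 (.thr 38 55 (.thr 36 39 (.thr 41 61 (.thr 45 33 (.thr 44 35 (.thr 47 46 (.dbl 32 40 42))))))) (.rp 9 (.thr 38 55 (.thr 36 39 (.thr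 41 61 (.thr 45 33 (.thr 44 35 (.thr 47 46 (.dbl 32 40 42))))))) .nd)))))))))) (.rp 20 (.str 1 (.nv (.thr 6 7 (.thr 9 13 (.thr 3 12 (.thr 38 55 (.thr 41 61 (.dbl 22 54 60)))))) (.nv (.thr 13 9 (.thr 41 61 (.thr 49 25 (.dbl 33 17 45)))) (.rp 61 (.thr 6 7 (.thr 38 55 (.thr 9 13 (.thr 12 3 (.thr 51 25 (.thr 0 8 (.thr 34 17 (.dbl 42 46 63)))))))) (.rp 49 (.thr 6 7 (.thr 38 55 (.thr 9 13 (.thr 3 12 (.thr 41 61 (.thr 57 25 (.dbl 22 54 60))))))) (.rp 45 (.thr 6 7 (.thr 38 55 (.thr 9 13 (.thr 12 3 (.thr 25 51 (.dbl 41 57 61)))))) (.rp 41 (.thr 38 55 (.thr 36 39 (.thr 13 9 (.thr 25 49 (.thr 12 51 (.thr 48 24 (.dbl 15 14 26))))))) (.rp 13 (.thr 7 6 (.thr 22 52 (.thr 41 61 (.thr 3 60 (.thr 15 11 (.thr 48 26 (.dbl 33 18 45))))))) (.rp 9 (.thr 7 6 (.thr 22 52 (.thr 41 61 (.thr 33 45 (.thr 3 60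 (.thr 48 18 (.dbl 15 11 26))))))) .nd))))))))) (.rp 7 (.str 1 (.nv (.thr 41 61 (.thr 33 45 (.thr 49 17 (.dbl 13 9 25)))) (.nv (.thr 13 9 (.thr 49 25 (.thr 41 61 (.dbl 33 17 45)))) (.rp 61 (.thr 38 55 (.thr 39 36 (.thr 13 9 (.thr 49 25 (.thr 33 17 (.thr 41 45 (.thr 35 44 (.thr 32 34 (.dbl 47 42 43))))))))) (.rp 49 (.thr 38 55 (.thr 39 36 (.thr 9 13 (.thr 41 61 (.thr 57 25 (.thr 35 44 (.thr 47 43 (.thr 32 42 (.dbl 33 34 45))))))))) (.rp 45 (.thr 38 55 (.thr 39 36 (.thr 13 9 (.thr 49 25 (.thr 33 17 (.thr 41 61 (.thr 35 44 (.thr 32 34 (.dbl 47 42 43))))))))) (.rp 41 (.thr 38 55 (.thr 39 36 (.thr 13 9 (.thr 25 49 (.thr 17 29 (.thr 51 12 (.thr 0 34 (.thr 15 27 (.thr 48 26 (.thr 32 16 (.dbl 42 47 63))))))))))) (.rp 33 (.thr 13 9 (.thr 25 49 (.thr 29 17 (.dbl 61 41 45)))) (.rp 25 (.thr 38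 55 (.thr 39 36 (.thr 41 61 (.thr 33 45 (.thr 35 44 (.thr 32 34 (.dbl 47 42 43))))))) (.rp 17 (.thr 38 55 (.thr 39 36 (.thr 41 61 (.thr 33 45 (.thr 35 44 (.thr 32 34 (.dbl 47 42 43))))))) (.rp 13 (.thr 38 55 (.thr 39 36 (.thr 41 61 (.thr 35 44 (.thr 47 43 (.thr 32 42 (.dbl 33 34 45))))))) (.rp 9 (.thr 38 55 (.thr 39 36 (.thr 41 61 (.thr 33 45 (.thr 35 44 (.thr 32 34 (.dbl 47 42 43))))))) .nd)))))))))))) (.rp 6 (.str 15 (.nv (.thr 38 55 (.thr 39 36 (.thr 51 27 (.thr 25 12 (.thr 13 49 (.thr 29 17 (.thr 61 45 (.dbl 1 9 41)))))))) (.nv (.thr 38 55 (.thr 36 39 (.thr 48 26 (.thr 52 20 (.thr 60 56 (.thr 45 30 (.thr 41 33 (.dbl 22 3 7)))))))) (.nv (.thr 26 48 (.thr 31 16 (.thr 63 47 (.thr 0 42 (.thr 12 8 (.thr 29 46 (.thr 25 17 (.dbl 13 14 49)))))))) (.nv (.thr 38 55 (.thr 36 39 (.thr 48 26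 (.thr 12 24 (.thr 25 51 (.dbl 13 14 49)))))) (.rp 48 (.thr 38 55 (.thr 39 36 (.thr 51 27 (.thr 12 25 (.thr 0 8 (.thr 34 17 (.dbl 42 46 63))))))) (.rp 38 (.thr 26 48 (.thr 31 16 (.thr 63 47 (.thr 0 42 (.thr 12 8 (.thr 46 29 (.thr 14 13 (.thr 30 62 (.thr 22 18 (.thr 52 7 (.dbl 20 23 36))))))))))) (.rp 14 (.str 2 (.nv (.thr 26 48 (.thr 31 16 (.thr 63 47 (.thr 0 42 (.thr 12 8 (.thr 29 46 (.thr 25 17 (.dbl 38 51 55)))))))) (.nv (.thr 38 55 (.thr 39 36 (.thr 51 27 (.thr 25 12 (.thr 13 49 (.thr 17 29 (.thr 0 34 (.dbl 1 3 9)))))))) (.nv (.thr 26 48 (.thr 31 16 (.thr 63 47 (.thr 0 42 (.thr 3 1 (.thr 7 11 (.thr 23 43 (.dbl 22 20 52)))))))) (.nv (.thr 38 55 (.thr 36 39 (.thr 52 20 (.thr 48 26 (.thr 60 56 (.thr 45 30 (.thr 41 33 (.dbl 22 3 7)))))))) (.nv (.thr 38 55 (.thr 39 36 (.thr 51 27 (.thr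 12 25 (.thr 26 48 (.thr 31 16 (.thr 63 47 (.dbl 0 8 42)))))))) (.rp 48 (.thr 38 55 (.thr 39 36 (.thr 51 27 (.thr 12 25 (.thr 0 8 (.thr 34 17 (.dbl 42 46 63))))))) .nd))))))) (.rp 2 (.str 14 (.nv (.thr 12 13 (.thr 0 8 (.thr 42 63 (.thr 32 47 (.dbl 48 16 26))))) (.nv (.thr 38 55 (.thr 39 36 (.thr 12 13 (.dbl 51 25 27)))) (.rp 34 (.str 18 (.nv (.thr 26 48 (.thr 22 30 (.thr 20 23 (.dbl 52 7 36)))) (.nv (.thr 12 13 (.thr 0 8 (.thr 42 63 (.thr 32 47 (.dbl 48 16 26))))) (.nv (.thr 38 55 (.thr 39 36 (.thr 12 13 (.dbl 51 25 27)))) .nd)))) (.rp 18 (.str 34 (.nv (.thr 38 55 (.thr 42 46 (.thr 47 32 (.dbl 63 0 31)))) (.nv (.thr 12 13 (.thr 0 8 (.thr 42 63 (.thr 32 47 (.dbl 48 16 26))))) (.nv (.thr 38 55 (.thr 39 36 (.thr 12 13 (.dbl 51 25 27)))) .nd)))) (.rp 13 (.thr 38 55 (.thr 36 39 (.thr 48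 26 (.thr 12 24 (.thr 0 8 (.thr 32 16 (.dbl 42 47 63))))))) (.rp 12 (.thr 38 55 (.thr 36 39 (.thr 52 20 (.thr 48 26 (.thr 60 56 (.thr 45 30 (.thr 41 33 (.dbl 22 3 7)))))))) .nd))))))) .nd))))))))) .nd))))))))))))

theorem w385 : WinAt (137441050656, 10133099161584640) :=
  chF (K := []) kn c385 137441050656 10133099161584640 53
    [] (by decide +kernel) (by decide +kernel)

/-- A certificate. -/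
noncomputable def c386 : Ct := (.str 4 (.nv (.thr 38 55 (.thr 36 39 (.thr 52 20 (.dbl 7 6 22)))) (.nv (.thr 7 6 (.thr 22 52 (.thr 55 38 (.dbl 23 20 39)))) (.nv (.thr 7 6 (.thr 52 22 (.thr 36 20 (.dbl 38 39 55)))) (.rp 55 (.str 63 (.nv (.thr 0 42 (.thr 7 6 (.thr 52 22 (.thr 20 36 (.thr 60 40 (.thr 48 56 (.thr 26 15 (.dbl 16 31 32)))))))) (.nv (.thr 0 42 (.thr 12 8 (.thr 29 46 (.thr 25 17 (.thr 13 49 (.thr 61 45 (.dbl 1 9 41))))))) (.nv (.thr 7 6 (.thr 42 0 (.thr 47 32 (.thr 15 31 (.thr 3 11 (.thr 23 43 (.dbl 22 20 52))))))) (.rp 54 (.str 52 (.nv (.dbl 7 6 22) (.rp 60 (.str 57 (.nv (.dbl 7 6 22) (.rp 22 (.thr 36 20 (.thr 0 42 (.thr 12 8 (.thr 48 24 (.thr 26 15 (.dbl 16 31 32)))))) (.rp 7 (.thr 36 20 (.thr 0 42 (.thr 12 8 (.thr 48 24 (.thr 26 15 (.dbl 16 31 32)))))) (.rp 6 (.thr 22 7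 (.dbl 20 23 36)) .nd))))) (.rp 57 (.str 60 (.nv (.thr 61 62 (.thr 20 36 (.dbl 0 40 42))) (.nv (.dbl 7 6 22) (.rp 61 (.str 49 (.nv (.thr 0 42 (.dbl 20 36 40)) (.nv (.dbl 7 6 22) .nd))) .nd)))) (.rp 22 (.thr 20 36 (.thr 0 42 (.thr 60 40 (.thr 48 56 (.thr 26 15 (.dbl 16 31 32)))))) (.rp 7 (.thr 20 36 (.thr 0 42 (.thr 60 40 (.thr 61 62 (.thr 41 1 (.dbl 22 3 23)))))) (.rp 6 (.thr 20 36 (.dbl 22 7 23)) .nd))))))) (.rp 52 (.str 54 (.nv (.thr 0 42 (.thr 6 7 (.thr 22 38 (.thr 23 20 (.thr 3 43 (.thr 1 2 (.dbl 41 60 61))))))) (.nv (.thr 0 42 (.thr 12 8 (.thr 29 46 (.thr 25 17 (.thr 13 49 (.thr 61 45 (.dbl 1 9 41))))))) (.nv (.thr 6 7 (.thr 22 38 (.thr 23 20 (.thr 3 43 (.thr 12 9 (.dbl 0 8 42)))))) (.rp 42 (.thr 6 7 (.thr 22 38 (.thr 23 20 (.thr 3 43 (.thr 41 60 (.thr 1 61 (.dbl 9 12 13)))))))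 (.rp 38 (.thr 6 7 (.thr 0 42 (.thr 12 8 (.thr 9 3 (.thr 13 1 (.thr 25 49 (.dbl 29 17 46))))))) (.rp 25 (.thr 6 7 (.thr 38 22 (.thr 39 36 (.thr 42 0 (.thr 47 32 (.thr 35 43 (.thr 44 41 (.dbl 46 34 45)))))))) (.rp 12 (.thr 6 7 (.thr 38 22 (.thr 39 36 (.thr 42 0 (.thr 47 32 (.thr 35 43 (.thr 44 41 (.dbl 46 34 45)))))))) (.rp 0 (.thr 6 7 (.thr 22 38 (.thr 23 20 (.thr 3 43 (.thr 12 9 (.thr 29 46 (.thr 60 41 (.thr 61 62 (.thr 13 45 (.dbl 25 17 49)))))))))) .nd))))))))) (.rp 48 (.thr 6 7 (.thr 0 42 (.thr 12 8 (.thr 29 46 (.thr 25 17 (.thr 9 3 (.dbl 13 1 49))))))) (.rp 42 (.str 26 (.nv (.thr 31 16 (.dbl 15 47 48)) (.rp 54 (.str 52 (.nv (.thr 15 48 (.dbl 31 16 47)) (.nv (.dbl 7 6 22) (.rp 60 (.str 57 (.nv (.thr 15 48 (.dbl 31 16 47)) (.nv (.dbl 7 6 22) .nd))) (.rp 57 (.str 60 (.nv (.dbl 48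 15 56) (.nv (.dbl 7 6 22) (.rp 61 (.str 49 (.nv (.dbl 7 6 22) (.nv (.dbl 48 15 56) .nd))) (.rp 49 (.thr 61 62 (.dbl 7 6 22)) .nd))))) .nd))))) (.rp 52 (.str 54 (.nv (.thr 31 16 (.dbl 15 47 48)) (.rp 48 (.thr 6 7 (.thr 22 38 (.thr 23 20 (.thr 31 16 (.thr 30 18 (.thr 28 29 (.dbl 19 25 27))))))) (.rp 47 (.thr 6 7 (.thr 22 38 (.thr 23 20 (.thr 48 15 (.thr 18 30 (.dbl 3 33 43)))))) (.rp 31 (.thr 6 7 (.thr 22 38 (.thr 23 20 (.thr 48 15 (.thr 18 30 (.dbl 3 33 43)))))) (.rp 16 (.thr 6 7 (.thr 22 38 (.thr 23 20 (.thr 48 15 (.thr 18 30 (.dbl 3 33 43)))))) (.rp 15 (.thr 6 7 (.thr 22 38 (.thr 23 20 (.thr 31 16 (.thr 30 18 (.thr 28 29 (.dbl 19 25 27))))))) .nd))))))) (.rp 48 (.thr 7 6 (.thr 31 16 (.thr 15 47 (.thr 3 11 (.thr 23 43 (.dbl 22 20 52)))))) (.rp 47 (.thr 7 6 (.thr 15 48 (.thr 3 11 (.thr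 23 43 (.dbl 22 20 52))))) (.rp 31 (.thr 7 6 (.thr 15 48 (.thr 3 11 (.thr 23 43 (.dbl 22 20 52))))) (.rp 16 (.thr 7 6 (.thr 15 48 (.thr 3 11 (.thr 23 43 (.dbl 22 20 52))))) (.rp 15 (.thr 16 31 (.str 22 (.nv (.thr 52 7 (.dbl 20 23 36)) (.nv (.dbl 7 6 52) (.rp 52 (.str 54 (.nv (.dbl 6 7 38) (.rp 39 (.str 27 (.nv (.thr 18 30 (.thr 17 19 (.dbl 25 24 29))) (.nv (.dbl 6 7 38) (.rp 23 (.thr 7 6 (.thr 18 30 (.thr 17 19 (.dbl 25 24 29)))) (.rp 7 (.thr 23 20 (.thr 18 30 (.thr 17 19 (.dbl 25 24 29)))) .nd))))) (.rp 38 (.thr 20 23 (.thr 18 30 (.thr 19 17 (.dbl 28 24 25)))) (.rp 27 (.str 39 (.nv (.thr 23 20 (.dbl 38 6 36)) (.nv (.dbl 6 7 38) (.rp 38 (.thr 18 30 (.thr 20 23 (.thr 19 17 (.dbl 28 24 25)))) (.rp 23 (.str 19 (.nv (.dbl 18 17 30) (.nv (.dbl 6 7 38) .nd))) (.rp 6 (.thr 18 30 (.thr 20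 23 (.thr 19 17 (.dbl 28 24 25)))) .nd)))))) (.rp 7 (.thr 18 30 (.thr 19 17 (.thr 28 25 (.dbl 20 23 24)))) (.rp 6 (.thr 20 23 (.thr 18 30 (.thr 19 17 (.dbl 28 24 25)))) .nd))))))) (.rp 39 (.str 27 (.nv (.dbl 7 6 52) (.rp 54 (.thr 52 7 (.thr 23 20 (.thr 18 30 (.thr 17 19 (.dbl 25 24 29))))) (.rp 52 (.str 54 (.nv (.thr 18 30 (.thr 17 19 (.dbl 25 24 29))) (.nv (.dbl 6 7 38) (.rp 23 (.thr 7 6 (.thr 18 30 (.thr 17 19 (.dbl 25 24 29)))) (.rp 7 (.thr 23 20 (.thr 18 30 (.thr 17 19 (.dbl 25 24 29)))) .nd))))) (.rp 7 (.thr 23 20 (.thr 18 30 (.thr 17 19 (.dbl 25 24 29)))) (.rp 6 (.thr 24 25 (.dbl 20 23 28)) .nd)))))) (.rp 27 (.str 39 (.nv (.thr 36 38 (.dbl 20 23 52)) (.nv (.dbl 7 6 52) (.rp 54 (.thr 52 7 (.dbl 20 23 36)) (.rp 52 (.str 54 (.nv (.thr 23 20 (.dbl 38 6 36)) (.nv (.dbl 6 7 38) (.rp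 38 (.thr 18 30 (.thr 20 23 (.thr 19 17 (.dbl 28 24 25)))) (.rp 23 (.str 19 (.nv (.dbl 18 17 30) (.nv (.dbl 6 7 38) .nd))) (.rp 6 (.thr 18 30 (.thr 20 23 (.thr 19 17 (.dbl 28 24 25)))) .nd)))))) (.rp 23 (.str 19 (.nv (.dbl 18 17 30) (.nv (.dbl 7 6 52) (.rp 54 (.thr 52 7 (.dbl 36 20 38)) (.rp 52 (.str 54 (.nv (.dbl 18 17 30) (.nv (.dbl 6 7 38) .nd))) .nd))))) (.rp 19 (.thr 23 20 (.dbl 7 6 52)) .nd))))))) (.rp 7 (.thr 18 30 (.thr 19 17 (.thr 28 25 (.dbl 20 23 24)))) .nd)))))))) .nd))))))))) (.rp 8 (.thr 7 6 (.thr 52 22 (.thr 36 20 (.thr 38 39 (.thr 42 0 (.thr 32 47 (.thr 34 46 (.thr 35 33 (.dbl 44 40 41))))))))) (.rp 0 (.str 52 (.nv (.dbl 7 6 22) (.rp 34 (.str 17 (.nv (.dbl 7 6 22) (.rp 22 (.thr 6 7 (.thr 29 25 (.thr 12 46 (.thr 9 3 (.thr 1 13 (.thr 33 49 (.dbl 41 45 61))))))) (.rp 7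 (.thr 36 20 (.thr 29 25 (.thr 12 46 (.thr 48 24 (.thr 60 56 (.thr 28 44 (.thr 31 30 (.dbl 15 26 47)))))))) (.rp 6 (.thr 20 36 (.dbl 22 7 23)) .nd))))) (.rp 22 (.thr 20 36 (.str 60 (.nv (.thr 48 56 (.thr 15 26 (.thr 30 45 (.thr 31 47 (.thr 29 28 (.thr 46 12 (.dbl 62 14 61))))))) (.nv (.thr 61 62 (.thr 1 41 (.thr 13 9 (.thr 29 45 (.dbl 25 17 49))))) (.nv (.thr 48 56 (.thr 61 62 (.thr 41 1 (.thr 45 33 (.dbl 15 26 30))))) (.rp 62 (.thr 6 7 (.thr 48 56 (.thr 26 15 (.thr 16 31 (.thr 28 24 (.thr 12 44 (.thr 29 46 (.thr 17 25 (.thr 18 19 (.dbl 3 9 33)))))))))) (.rp 61 (.thr 6 7 (.thr 48 56 (.thr 26 15 (.thr 16 31 (.thr 28 24 (.thr 12 44 (.thr 29 46 (.thr 17 25 (.thr 18 19 (.dbl 3 9 33)))))))))) (.rp 45 (.thr 61 62 (.thr 48 56 (.thr 26 15 (.thr 16 31 (.thr 24 28 (.thr 1 41 (.thr 13 9 (.dbl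 25 27 49)))))))) (.rp 42 (.thr 6 7 (.thr 48 56 (.thr 26 15 (.thr 16 31 (.thr 28 24 (.thr 12 44 (.thr 29 46 (.thr 17 25 (.thr 18 19 (.dbl 3 9 33)))))))))) (.rp 41 (.thr 7 6 (.thr 62 61 (.thr 48 56 (.thr 15 26 (.thr 11 3 (.thr 30 45 (.thr 31 47 (.thr 29 28 (.dbl 46 12 14))))))))) (.rp 34 (.str 17 (.nv (.thr 48 56 (.thr 15 26 (.thr 61 62 (.thr 41 1 (.dbl 45 30 33))))) (.nv (.thr 25 29 (.thr 48 56 (.thr 26 15 (.thr 16 31 (.dbl 24 27 28))))) (.nv (.thr 25 29 (.thr 49 13 (.thr 61 62 (.dbl 1 33 41)))) .nd)))) (.rp 17 (.str 34 (.nv (.thr 48 56 (.thr 61 62 (.thr 1 41 (.thr 13 9 (.thr 45 29 (.dbl 15 26 30)))))) (.nv (.thr 48 56 (.thr 15 26 (.thr 47 31 (.thr 42 32 (.thr 46 38 (.dbl 45 30 44)))))) (.nv (.thr 61 62 (.thr 48 56 (.thr 15 26 (.thr 41 1 (.dbl 45 30 33))))) (.rp 56 (.thr 61 62 (.thr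 1 41 (.thr 13 9 (.thr 45 29 (.thr 15 30 (.thr 31 47 (.dbl 26 16 48))))))) (.rp 48 (.thr 6 7 (.thr 61 62 (.thr 1 41 (.thr 9 13 (.thr 12 3 (.thr 44 28 (.thr 46 29 (.thr 47 45 (.dbl 42 32 38))))))))) (.rp 45 (.thr 61 62 (.thr 48 56 (.thr 26 15 (.thr 16 31 (.thr 24 28 (.thr 1 41 (.thr 13 9 (.dbl 25 27 49)))))))) (.rp 42 (.thr 6 7 (.thr 48 56 (.thr 26 15 (.thr 16 31 (.thr 28 24 (.thr 12 44 (.thr 3 9 (.thr 33 18 (.thr 41 45 (.dbl 61 1 62)))))))))) (.rp 41 (.thr 7 6 (.thr 62 61 (.thr 48 56 (.thr 15 26 (.thr 11 3 (.thr 47 31 (.thr 30 45 (.thr 42 32 (.dbl 46 14 38))))))))) (.rp 30 (.thr 61 62 (.thr 48 56 (.thr 26 15 (.thr 16 31 (.thr 1 41 (.thr 13 9 (.thr 25 49 (.dbl 24 27 28)))))))) (.rp 26 (.thr 61 62 (.thr 48 56 (.thr 41 1 (.thr 33 45 (.thr 32 35 (.thr 42 47 (.thr 43 40 (.dbl 3 18 23))))))))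 (.rp 15 (.thr 61 62 (.thr 48 56 (.thr 41 1 (.thr 33 45 (.thr 32 35 (.thr 3 18 (.thr 42 47 (.dbl 43 23 40)))))))) .nd)))))))))))) .nd)))))))))))) (.rp 17 (.str 34 (.nv (.dbl 7 6 22) (.rp 22 (.thr 36 20 (.thr 38 39 (.thr 42 46 (.thr 32 47 (.thr 35 33 (.dbl 44 40 41)))))) (.rp 7 (.thr 20 36 (.thr 23 22 (.str 60 (.nv (.thr 61 62 (.thr 41 1 (.thr 33 45 (.thr 32 35 (.thr 42 47 (.dbl 43 3 40)))))) (.nv (.thr 48 56 (.thr 15 26 (.thr 47 31 (.thr 42 32 (.thr 46 38 (.dbl 45 30 44)))))) (.nv (.thr 61 62 (.thr 48 56 (.thr 3 43 (.thr 41 1 (.dbl 33 18 45))))) (.rp 45 (.thr 48 56 (.thr 15 26 (.thr 47 31 (.thr 43 3 (.thr 35 39 (.dbl 32 33 42)))))) (.rp 42 (.thr 48 56 (.thr 3 43 (.thr 33 18 (.thr 41 45 (.dbl 61 1 62))))) (.rp 41 (.thr 62 61 (.thr 48 56 (.thr 26 15 (.thr 16 31 (.thr 28 24 (.thr 12 44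 (.thr 46 29 (.thr 14 30 (.dbl 38 42 50))))))))) .nd))))))))) (.rp 6 (.thr 22 7 (.dbl 20 23 36)) .nd))))) (.rp 7 (.thr 20 36 (.thr 23 22 (.str 61 (.nv (.thr 3 43 (.thr 41 1 (.thr 33 45 (.thr 48 18 (.dbl 60 56 62))))) (.nv (.thr 1 41 (.thr 13 9 (.thr 29 45 (.dbl 25 17 49)))) (.rp 60 (.thr 1 41 (.thr 3 43 (.thr 13 9 (.thr 29 45 (.dbl 25 17 49))))) (.rp 45 (.thr 60 62 (.thr 1 41 (.thr 13 9 (.thr 3 43 (.thr 48 56 (.thr 33 18 (.dbl 49 17 25))))))) (.rp 41 (.thr 60 62 (.thr 48 56 (.thr 26 15 (.thr 31 16 (.thr 27 19 (.thr 25 24 (.thr 13 49 (.dbl 29 17 45)))))))) (.rp 34 (.str 17 (.nv (.thr 3 43 (.thr 29 25 (.thr 12 46 (.thr 9 6 (.dbl 13 1 45))))) (.nv (.thr 1 41 (.thr 3 43 (.thr 33 49 (.thr 48 18 (.dbl 60 56 62))))) (.nv (.thr 25 29 (.thr 49 13 (.dbl 1 33 41))) (.rp 1 (.thr 60 62 (.thr 29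 25 (.thr 45 13 (.thr 15 30 (.dbl 48 26 56))))) .nd))))) (.rp 17 (.str 34 (.nv (.thr 3 43 (.thr 41 1 (.thr 33 45 (.thr 48 18 (.dbl 60 56 62))))) (.nv (.thr 1 41 (.thr 60 62 (.thr 13 9 (.thr 45 29 (.thr 15 30 (.dbl 48 26 56)))))) (.nv (.thr 41 1 (.thr 33 45 (.thr 32 35 (.thr 42 47 (.dbl 43 3 40))))) (.nv (.thr 60 62 (.thr 3 43 (.thr 41 1 (.thr 33 45 (.dbl 48 18 56))))) (.rp 45 (.thr 60 62 (.thr 43 3 (.thr 48 56 (.thr 15 26 (.thr 47 31 (.thr 42 32 (.dbl 41 1 40))))))) (.rp 41 (.thr 60 62 (.thr 3 43 (.thr 48 56 (.thr 26 15 (.thr 16 31 (.thr 28 24 (.thr 12 44 (.thr 29 46 (.thr 9 6 (.dbl 13 1 45)))))))))) (.rp 1 (.thr 60 62 (.thr 3 43 (.thr 48 56 (.thr 33 18 (.thr 45 41 (.dbl 15 26 30)))))) .nd)))))))) (.rp 3 (.thr 60 62 (.thr 1 41 (.thr 13 9 (.thr 29 45 (.dbl 25 17 49))))) (.rp 1 (.thr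 60 62 (.thr 3 43 (.thr 48 56 (.thr 33 18 (.thr 45 41 (.dbl 15 26 30)))))) .nd)))))))))))) (.rp 6 (.thr 20 36 (.dbl 22 7 23)) .nd))))))) .nd)))))))))) (.rp 52 (.thr 55 38 (.str 13 (.nv (.thr 1 9 (.thr 25 49 (.thr 61 41 (.dbl 29 17 45)))) (.nv (.thr 25 49 (.thr 29 17 (.thr 61 45 (.dbl 1 9 41)))) (.nv (.thr 1 9 (.thr 41 61 (.thr 33 45 (.dbl 49 17 25)))) (.rp 61 (.thr 6 7 (.thr 9 1 (.thr 12 3 (.thr 15 14 (.thr 0 8 (.thr 63 42 (.thr 31 47 (.dbl 26 16 48)))))))) (.rp 49 (.thr 6 7 (.thr 9 1 (.thr 12 3 (.thr 15 14 (.thr 0 8 (.thr 63 42 (.thr 31 47 (.dbl 26 16 48)))))))) (.rp 45 (.thr 6 7 (.thr 9 1 (.thr 12 3 (.thr 25 49 (.thr 0 8 (.thr 63 42 (.dbl 29 17 46))))))) (.rp 41 (.thr 6 7 (.thr 9 1 (.thr 12 3 (.thr 25 49 (.thr 0 8 (.thr 63 42 (.dbl 29 17 46))))))) (.rp 25 (.str 12 (.nv (.thr 6 7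 (.dbl 9 1 3)) (.rp 9 (.thr 15 14 (.thr 26 48 (.thr 31 16 (.thr 63 47 (.dbl 0 8 42))))) (.rp 7 (.thr 15 14 (.thr 0 8 (.thr 42 63 (.thr 32 47 (.dbl 48 16 26))))) (.rp 6 (.thr 0 8 (.thr 42 63 (.thr 32 47 (.thr 48 16 (.dbl 15 14 26))))) (.rp 3 (.thr 15 14 (.thr 0 8 (.thr 42 63 (.thr 32 47 (.dbl 48 16 26))))) (.rp 1 (.thr 15 14 (.thr 0 8 (.thr 42 63 (.thr 32 47 (.dbl 48 16 26))))) .nd))))))) (.rp 17 (.thr 7 6 (.thr 23 39 (.thr 22 20 (.thr 1 9 (.thr 41 61 (.thr 3 60 (.thr 63 43 (.dbl 0 2 42)))))))) (.rp 9 (.thr 7 6 (.thr 23 39 (.thr 22 20 (.thr 25 49 (.thr 17 29 (.thr 19 28 (.thr 16 18 (.dbl 31 26 27)))))))) (.rp 1 (.thr 7 6 (.thr 23 39 (.thr 22 20 (.thr 25 49 (.thr 17 29 (.thr 19 28 (.thr 16 18 (.dbl 31 26 27)))))))) .nd))))))))))))) (.rp 39 (.str 15 (.nv (.thr 7 6 (.thr 22 52 (.thr 26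 48 (.thr 30 18 (.thr 60 45 (.dbl 3 11 41)))))) (.nv (.thr 7 6 (.thr 3 11 (.thr 22 52 (.thr 23 20 (.thr 63 43 (.thr 42 0 (.dbl 47 31 32))))))) (.nv (.thr 6 7 (.thr 26 48 (.thr 31 16 (.thr 63 47 (.thr 0 42 (.thr 12 8 (.thr 14 13 (.dbl 38 50 55)))))))) (.nv (.thr 7 6 (.thr 22 52 (.thr 3 11 (.thr 60 41 (.thr 30 45 (.dbl 26 18 48)))))) (.rp 55 (.thr 7 6 (.thr 3 11 (.thr 48 26 (.thr 33 18 (.thr 41 45 (.dbl 22 52 60)))))) (.rp 14 (.thr 26 48 (.thr 31 16 (.thr 63 47 (.thr 0 42 (.thr 12 8 (.thr 29 46 (.thr 30 28 (.thr 22 18 (.dbl 7 6 52))))))))) (.rp 11 (.thr 7 6 (.thr 22 52 (.thr 23 20 (.thr 26 48 (.thr 31 16 (.thr 19 27 (.thr 28 25 (.dbl 30 18 29)))))))) (.rp 7 (.thr 26 48 (.thr 31 16 (.thr 63 47 (.thr 0 42 (.thr 12 8 (.thr 14 13 (.dbl 38 50 55))))))) (.rp 6 (.thr 38 55 (.thr 26 48 (.thr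 31 16 (.thr 63 47 (.thr 0 42 (.thr 12 8 (.dbl 14 13 50))))))) .nd)))))))))) (.rp 38 (.str 25 (.nv (.thr 13 49 (.thr 1 9 (.thr 61 41 (.dbl 29 17 45)))) (.nv (.thr 29 17 (.thr 13 49 (.thr 61 45 (.dbl 1 9 41)))) (.rp 61 (.thr 17 29 (.thr 7 6 (.thr 22 52 (.thr 23 20 (.thr 19 28 (.thr 31 27 (.dbl 16 18 26))))))) (.rp 50 (.thr 17 29 (.thr 7 6 (.thr 22 52 (.thr 23 20 (.thr 19 28 (.thr 31 27 (.dbl 16 18 26))))))) (.rp 49 (.thr 17 29 (.thr 7 6 (.thr 22 52 (.thr 23 20 (.thr 19 28 (.thr 31 27 (.dbl 16 18 26))))))) (.rp 48 (.thr 17 29 (.thr 7 6 (.thr 22 52 (.thr 23 20 (.thr 19 28 (.thr 31 27 (.dbl 16 18 26))))))) (.rp 45 (.thr 17 29 (.thr 7 6 (.thr 22 52 (.thr 23 20 (.thr 19 28 (.thr 31 27 (.dbl 16 18 26))))))) (.rp 41 (.thr 17 29 (.thr 7 6 (.thr 22 52 (.thr 23 20 (.thr 19 28 (.thr 31 27 (.dbl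 16 18 26))))))) (.rp 29 (.thr 13 49 (.thr 9 1 (.thr 6 7 (.thr 12 3 (.thr 0 8 (.thr 15 14 (.thr 63 42 (.thr 31 47 (.dbl 26 16 48))))))))) (.rp 17 (.thr 13 49 (.thr 1 9 (.thr 61 41 (.thr 29 45 (.thr 7 6 (.thr 22 52 (.thr 20 23 (.thr 28 19 (.thr 16 24 (.dbl 31 26 30)))))))))) (.rp 13 (.thr 17 29 (.thr 7 6 (.thr 22 52 (.thr 23 20 (.thr 19 28 (.thr 31 27 (.dbl 16 18 26))))))) (.rp 9 (.thr 17 29 (.thr 7 6 (.thr 22 52 (.thr 23 20 (.thr 19 28 (.thr 31 27 (.dbl 16 18 26))))))) (.rp 1 (.thr 17 29 (.thr 7 6 (.thr 22 52 (.thr 23 20 (.thr 19 28 (.thr 31 27 (.dbl 16 18 26))))))) .nd)))))))))))))) (.rp 22 (.str 1 (.nv (.thr 41 61 (.thr 33 45 (.thr 49 17 (.dbl 13 9 25)))) (.nv (.thr 13 9 (.thr 25 49 (.thr 61 41 (.dbl 29 17 45)))) (.nv (.thr 13 9 (.thr 41 61 (.thr 33 45 (.dbl 49 17 25)))) (.rp 61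 (.thr 6 7 (.thr 9 13 (.thr 12 3 (.thr 0 8 (.thr 42 63 (.thr 32 47 (.thr 48 16 (.thr 36 24 (.dbl 38 39 55))))))))) (.rp 49 (.thr 6 7 (.thr 9 13 (.thr 12 3 (.thr 0 8 (.thr 63 42 (.thr 29 46 (.thr 25 17 (.dbl 41 57 61)))))))) (.rp 45 (.thr 6 7 (.thr 9 13 (.thr 12 3 (.thr 0 8 (.thr 63 42 (.thr 29 46 (.thr 25 17 (.dbl 41 57 61)))))))) (.rp 41 (.thr 6 7 (.thr 9 13 (.thr 3 12 (.thr 0 2 (.thr 42 63 (.thr 32 47 (.thr 48 16 (.thr 33 18 (.thr 34 35 (.dbl 38 46 55)))))))))) (.rp 25 (.thr 38 55 (.thr 36 39 (.thr 41 61 (.thr 45 33 (.thr 44 35 (.thr 47 46 (.dbl 32 40 42))))))) (.rp 17 (.thr 38 55 (.thr 36 39 (.thr 41 61 (.thr 45 33 (.thr 44 35 (.thr 47 46 (.dbl 32 40 42))))))) (.rp 13 (.thr 38 55 (.thr 36 39 (.thr 41 61 (.thr 45 33 (.thr 44 35 (.thr 47 46 (.dbl 32 40 42))))))) (.rp 9 (.thr 38 55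 (.thr 36 39 (.thr 41 61 (.thr 45 33 (.thr 44 35 (.thr 47 46 (.dbl 32 40 42))))))) .nd)))))))))))) (.rp 20 (.str 1 (.nv (.thr 6 7 (.thr 9 13 (.thr 3 12 (.thr 38 55 (.thr 41 61 (.dbl 22 54 60)))))) (.nv (.thr 13 9 (.thr 41 61 (.thr 33 45 (.dbl 49 17 25)))) (.rp 61 (.thr 7 6 (.thr 22 52 (.thr 13 9 (.thr 49 25 (.thr 33 17 (.thr 41 45 (.thr 3 60 (.thr 48 18 (.dbl 15 11 26))))))))) (.rp 57 (.thr 13 9 (.thr 49 25 (.thr 41 61 (.dbl 33 17 45)))) (.rp 49 (.thr 6 7 (.thr 38 55 (.thr 9 13 (.thr 3 12 (.thr 41 61 (.thr 57 25 (.dbl 22 54 60))))))) (.rp 45 (.thr 7 6 (.thr 22 52 (.thr 55 38 (.thr 23 39 (.thr 41 61 (.thr 3 60 (.thr 63 43 (.dbl 0 2 42)))))))) (.rp 41 (.thr 7 6 (.thr 22 52 (.thr 55 38 (.thr 23 39 (.thr 13 9 (.thr 25 49 (.thr 17 29 (.thr 19 28 (.thr 16 18 (.dbl 31 26 27)))))))))) (.rp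 13 (.thr 7 6 (.thr 22 52 (.thr 41 61 (.thr 3 60 (.thr 15 11 (.thr 48 26 (.dbl 33 18 45))))))) (.rp 9 (.thr 7 6 (.thr 22 52 (.thr 41 61 (.thr 33 45 (.thr 3 60 (.thr 48 18 (.dbl 15 11 26))))))) .nd)))))))))) (.rp 7 (.str 1 (.nv (.thr 41 61 (.thr 33 45 (.thr 49 17 (.dbl 13 9 25)))) (.nv (.thr 13 9 (.thr 41 61 (.thr 49 25 (.dbl 33 17 45)))) (.nv (.thr 13 9 (.thr 61 41 (.thr 29 45 (.dbl 25 17 49)))) (.rp 61 (.thr 38 55 (.thr 39 36 (.thr 13 9 (.thr 49 25 (.thr 33 17 (.thr 41 45 (.thr 35 44 (.thr 47 43 (.dbl 32 34 42))))))))) (.rp 49 (.thr 38 55 (.thr 39 36 (.thr 9 13 (.thr 41 61 (.thr 57 25 (.thr 35 44 (.thr 47 43 (.thr 32 42 (.dbl 33 34 45))))))))) (.rp 45 (.thr 38 55 (.thr 39 36 (.thr 13 9 (.thr 49 25 (.thr 33 17 (.thr 41 61 (.thr 35 44 (.thr 47 43 (.dbl 32 34 42))))))))) (.rp 41 (.str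 0 (.nv (.thr 13 9 (.thr 25 49 (.thr 42 63 (.dbl 8 12 59)))) (.nv (.thr 9 13 (.thr 12 8 (.dbl 3 2 6))) (.rp 13 (.thr 12 8 (.thr 42 63 (.thr 32 47 (.thr 48 16 (.thr 36 24 (.dbl 38 39 55)))))) (.rp 12 (.thr 13 9 (.thr 3 2 (.thr 42 63 (.thr 32 47 (.thr 48 16 (.thr 33 18 (.dbl 49 17 25))))))) (.rp 9 (.thr 8 12 (.thr 42 63 (.thr 55 38 (.thr 25 59 (.thr 49 13 (.dbl 17 29 33)))))) (.rp 8 (.thr 3 2 (.thr 42 63 (.thr 32 47 (.thr 48 16 (.thr 33 18 (.thr 34 35 (.dbl 38 46 55))))))) .nd))))))) (.rp 25 (.thr 38 55 (.thr 39 36 (.thr 41 61 (.thr 33 45 (.thr 35 44 (.thr 32 34 (.dbl 47 42 43))))))) (.rp 17 (.thr 38 55 (.thr 39 36 (.thr 41 61 (.thr 33 45 (.thr 35 44 (.thr 47 43 (.dbl 32 34 42))))))) (.rp 13 (.thr 38 55 (.thr 39 36 (.thr 41 61 (.thr 35 44 (.thr 47 43 (.thr 32 42 (.dbl 33 34 45)))))))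 (.rp 9 (.thr 38 55 (.thr 39 36 (.thr 41 61 (.thr 33 45 (.thr 35 44 (.thr 32 34 (.dbl 47 42 43))))))) .nd)))))))))))) (.rp 6 (.str 1 (.nv (.thr 13 9 (.thr 49 25 (.thr 41 61 (.dbl 33 17 45)))) (.nv (.thr 41 61 (.thr 33 45 (.thr 49 17 (.dbl 13 9 25)))) (.rp 61 (.thr 38 55 (.thr 39 36 (.thr 13 9 (.thr 49 25 (.thr 33 17 (.thr 41 45 (.thr 35 44 (.thr 47 43 (.dbl 32 34 42))))))))) (.rp 49 (.thr 38 55 (.thr 36 39 (.thr 9 13 (.thr 41 61 (.thr 57 25 (.thr 45 33 (.thr 44 35 (.thr 47 46 (.dbl 32 40 42))))))))) (.rp 45 (.thr 38 55 (.thr 39 36 (.thr 13 9 (.thr 49 25 (.thr 33 17 (.thr 41 61 (.thr 35 44 (.thr 47 43 (.dbl 32 34 42))))))))) (.rp 41 (.str 20 (.nv (.thr 36 52 (.dbl 38 39 55)) (.nv (.thr 52 36 (.dbl 22 7 23)) (.rp 52 (.thr 22 23 (.thr 13 9 (.thr 25 49 (.thr 29 17 (.thr 28 19 (.thr 31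 30 (.dbl 16 24 26))))))) (.rp 36 (.thr 22 23 (.thr 13 9 (.thr 25 49 (.thr 29 17 (.thr 28 19 (.thr 31 30 (.dbl 16 24 26))))))) (.rp 14 (.str 2 (.nv (.thr 36 52 (.dbl 38 39 55)) (.nv (.thr 0 3 (.thr 22 23 (.dbl 42 62 63))) (.nv (.thr 52 36 (.dbl 22 7 23)) .nd)))) (.rp 2 (.str 14 (.nv (.thr 13 9 (.thr 38 55 (.thr 26 50 (.dbl 15 12 48)))) (.nv (.thr 52 36 (.dbl 22 7 23)) (.rp 52 (.thr 13 9 (.thr 25 49 (.thr 29 17 (.thr 12 15 (.thr 63 46 (.dbl 0 8 42)))))) .nd)))) .nd))))))) (.rp 33 (.thr 13 9 (.thr 25 49 (.thr 29 17 (.dbl 61 41 45)))) (.rp 25 (.thr 38 55 (.thr 36 39 (.thr 41 61 (.thr 45 33 (.thr 44 35 (.thr 47 46 (.dbl 32 40 42))))))) (.rp 17 (.thr 38 55 (.thr 36 39 (.thr 41 61 (.thr 45 33 (.thr 44 35 (.thr 47 46 (.dbl 32 40 42))))))) (.rp 14 (.str 2 (.nv (.thr 0 3 (.thr 42 63 (.thr 22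 62 (.thr 52 7 (.dbl 20 23 36))))) (.nv (.thr 41 61 (.thr 33 45 (.thr 49 17 (.dbl 13 9 25)))) (.rp 61 (.thr 0 3 (.thr 12 8 (.thr 63 42 (.thr 29 46 (.thr 25 17 (.dbl 13 9 49)))))) (.rp 9 (.thr 3 0 (.thr 41 61 (.thr 22 60 (.thr 52 7 (.dbl 20 23 36))))) (.rp 0 (.thr 13 9 (.thr 49 25 (.thr 41 61 (.dbl 33 17 45)))) .nd)))))) (.rp 13 (.thr 38 55 (.thr 36 39 (.thr 41 61 (.thr 45 33 (.thr 44 35 (.thr 47 46 (.dbl 32 40 42))))))) (.rp 9 (.thr 38 55 (.thr 36 39 (.thr 41 61 (.thr 45 33 (.thr 44 35 (.thr 47 46 (.dbl 32 40 42))))))) (.rp 2 (.str 14 (.nv (.thr 13 9 (.thr 12 15 (.thr 61 41 (.thr 29 45 (.thr 63 46 (.dbl 0 8 42)))))) (.nv (.thr 13 9 (.thr 38 55 (.thr 26 50 (.dbl 15 12 48)))) (.nv (.thr 41 61 (.thr 33 45 (.thr 49 17 (.dbl 13 9 25)))) (.rp 13 (.thr 41 61 (.thr 45 33 (.thr 38 55 (.thr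 36 39 (.thr 44 35 (.thr 32 40 (.dbl 47 42 46))))))) (.rp 9 (.thr 41 61 (.thr 45 33 (.thr 38 55 (.thr 36 39 (.thr 44 35 (.thr 32 40 (.dbl 47 42 46))))))) .nd)))))) .nd)))))))))))))) .nd))))))))))))

theorem w386 : WinAt (137441050656, 11258999068427264) :=
  chF (K := []) kn c386 137441050656 11258999068427264 53
    [] (by decide +kernel) (by decide +kernel)

/-- A certificate. -/
noncomputable def c387 : Ct := (.str 63 (.nv (.thr 48 58 (.thr 15 26 (.thr 42 0 (.dbl 47 31 32)))) (.rp 58 (.thr 42 0 (.str 15 (.nv (.dbl 47 31 32) (.rp 47 (.str 12 (.nv (.thr 13 14 (.thr 25 49 (.thr 51 38 (.dbl 59 8 55)))) (.nv (.thr 46 29 (.thr 38 34 (.thr 36 39 (.dbl 48 24 26)))) (.nv (.thr 13 14 (.thr 25 49 (.dbl 29 17 46))) .nd)))) (.rp 32 (.thr 31 47 (.dbl 26 16 48)) (.rp 31 (.str 12 (.nv (.thr 13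 14 (.thr 25 49 (.thr 51 38 (.dbl 59 8 55)))) (.nv (.thr 46 29 (.thr 38 34 (.thr 36 39 (.dbl 48 24 26)))) (.nv (.thr 13 14 (.thr 25 49 (.dbl 29 17 46))) .nd)))) .nd)))))) (.rp 48 (.str 60 (.nv (.thr 0 42 (.thr 20 40 (.thr 22 23 (.thr 61 62 (.dbl 41 1 3))))) (.nv (.thr 61 62 (.thr 49 57 (.thr 13 25 (.thr 41 1 (.dbl 45 29 33))))) (.rp 62 (.thr 0 42 (.thr 20 40 (.thr 22 23 (.thr 41 3 (.thr 61 1 (.thr 49 57 (.thr 13 25 (.dbl 45 29 33)))))))) (.rp 61 (.str 31 (.nv (.thr 0 42 (.thr 15 47 (.thr 20 40 (.thr 23 22 (.thr 27 19 (.thr 39 51 (.thr 7 55 (.dbl 3 11 43)))))))) (.nv (.thr 15 47 (.thr 30 45 (.thr 29 28 (.thr 25 17 (.thr 13 49 (.dbl 12 14 46)))))) (.nv (.thr 0 42 (.thr 26 16 (.thr 15 47 (.thr 20 40 (.thr 22 23 (.dbl 30 18 45)))))) (.rp 47 (.thr 26 16 (.thr 0 42 (.thr 20 40 (.thr 22 23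 (.thr 30 18 (.thr 45 15 (.dbl 41 3 33))))))) (.rp 15 (.thr 0 42 (.thr 26 16 (.thr 20 40 (.thr 23 22 (.thr 27 19 (.thr 25 24 (.thr 17 29 (.thr 51 34 (.thr 55 59 (.dbl 38 4 12)))))))))) .nd)))))) (.rp 41 (.thr 61 62 (.thr 49 57 (.thr 25 13 (.thr 29 17 (.thr 12 46 (.thr 38 51 (.thr 4 55 (.dbl 0 8 42)))))))) (.rp 1 (.thr 61 62 (.thr 49 57 (.thr 13 25 (.thr 45 29 (.thr 15 30 (.thr 42 0 (.dbl 47 31 32))))))) (.rp 0 (.str 15 (.nv (.thr 45 30 (.thr 61 62 (.thr 13 29 (.dbl 49 25 57)))) (.nv (.thr 61 62 (.thr 1 41 (.thr 49 57 (.thr 17 33 (.dbl 25 13 29))))) (.nv (.thr 61 62 (.thr 45 30 (.dbl 41 1 33))) (.rp 62 (.thr 45 30 (.thr 41 33 (.thr 61 1 (.thr 13 29 (.dbl 49 25 57))))) (.rp 61 (.thr 31 47 (.thr 45 30 (.thr 41 33 (.thr 3 22 (.thr 11 7 (.dbl 26 16 56)))))) (.rp 32 (.str 16 (.nv (.thr 45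 30 (.thr 41 33 (.dbl 61 1 62))) (.nv (.dbl 31 26 47) .nd))) (.rp 16 (.str 32 (.nv (.thr 45 30 (.thr 41 33 (.dbl 61 1 62))) (.nv (.dbl 47 31 42) .nd))) .nd)))))))) .nd)))))))) (.rp 47 (.thr 48 58 (.thr 26 15 (.thr 0 42 (.dbl 16 31 32)))) (.rp 42 (.str 15 (.nv (.dbl 48 26 58) (.rp 58 (.thr 26 48 (.dbl 31 16 47)) (.rp 48 (.thr 31 47 (.str 60 (.nv (.thr 26 16 (.thr 61 62 (.thr 41 1 (.thr 11 56 (.dbl 3 7 22))))) (.nv (.thr 26 16 (.thr 30 45 (.thr 22 18 (.thr 3 41 (.dbl 23 20 43))))) (.nv (.thr 26 16 (.thr 30 45 (.thr 29 28 (.thr 46 12 (.dbl 62 14 61))))) (.nv (.thr 45 30 (.thr 41 33 (.dbl 61 1 62))) (.rp 26 (.str 58 (.nv (.thr 30 45 (.thr 29 28 (.thr 25 17 (.thr 13 49 (.dbl 12 14 46))))) (.nv (.thr 61 62 (.thr 57 49 (.thr 51 54 (.dbl 59 55 56)))) (.nv (.thr 45 30 (.thr 41 33 (.dbl 61 1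 62))) .nd)))) .nd))))))) (.rp 26 (.thr 58 48 (.str 60 (.nv (.thr 61 62 (.thr 57 49 (.thr 51 54 (.dbl 59 55 56)))) (.nv (.thr 45 30 (.thr 41 33 (.dbl 61 1 62))) (.rp 62 (.thr 45 30 (.thr 41 33 (.thr 61 1 (.thr 13 29 (.dbl 49 25 57))))) (.rp 61 (.thr 30 45 (.thr 31 47 (.thr 29 28 (.thr 25 17 (.thr 13 49 (.dbl 12 14 46)))))) (.rp 22 (.thr 62 61 (.thr 30 45 (.thr 46 14 (.thr 29 12 (.dbl 31 28 47))))) .nd))))))) .nd))))) (.rp 32 (.str 60 (.nv (.thr 0 42 (.thr 58 48 (.thr 61 62 (.thr 57 49 (.thr 51 54 (.dbl 59 55 56)))))) (.nv (.thr 0 42 (.thr 20 40 (.thr 22 23 (.thr 48 58 (.thr 26 15 (.thr 18 30 (.dbl 3 33 41))))))) (.nv (.thr 61 62 (.thr 49 57 (.thr 13 25 (.thr 41 1 (.dbl 45 29 33))))) (.rp 0 (.str 15 (.nv (.thr 45 30 (.thr 41 33 (.dbl 61 1 62))) (.nv (.dbl 48 26 58) (.rp 48 (.str 16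 (.nv (.thr 45 30 (.thr 41 33 (.dbl 61 1 62))) (.nv (.dbl 31 26 47) .nd))) .nd)))) .nd))))) (.rp 31 (.str 23 (.nv (.thr 3 43 (.thr 22 20 (.thr 41 60 (.thr 33 45 (.dbl 48 18 58))))) (.nv (.thr 3 43 (.thr 48 58 (.thr 33 18 (.thr 41 45 (.thr 1 61 (.dbl 0 2 42)))))) (.nv (.thr 22 20 (.thr 3 43 (.thr 60 41 (.thr 62 61 (.dbl 42 0 2))))) (.rp 43 (.thr 22 20 (.thr 48 58 (.thr 15 26 (.thr 42 0 (.thr 62 2 (.thr 60 61 (.thr 45 30 (.dbl 41 3 33)))))))) (.rp 41 (.thr 22 20 (.thr 3 43 (.thr 48 58 (.thr 18 33 (.dbl 26 15 30))))) (.rp 15 (.thr 0 42 (.thr 22 20 (.thr 3 43 (.thr 1 2 (.dbl 41 60 61))))) (.rp 3 (.thr 20 22 (.thr 48 58 (.thr 26 15 (.thr 0 42 (.thr 16 32 (.thr 24 28 (.thr 12 36 (.thr 29 46 (.dbl 25 17 27))))))))) (.rp 0 (.str 15 (.nv (.dbl 48 26 58) (.rp 58 (.thr 22 20 (.thr 3 43 (.thr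 60 41 (.thr 30 45 (.dbl 26 18 48))))) (.rp 48 (.thr 22 20 (.thr 3 43 (.thr 60 41 (.thr 45 30 (.thr 61 62 (.thr 49 57 (.dbl 13 25 29))))))) (.rp 26 (.thr 22 20 (.thr 3 43 (.thr 60 41 (.thr 45 30 (.thr 61 62 (.thr 49 57 (.dbl 13 25 29))))))) .nd))))) .nd))))))))) (.rp 26 (.thr 0 42 (.thr 58 48 (.str 60 (.nv (.thr 61 62 (.thr 57 49 (.thr 51 54 (.dbl 59 55 56)))) (.nv (.thr 20 40 (.thr 61 62 (.thr 22 23 (.dbl 41 1 3)))) (.rp 62 (.thr 20 40 (.thr 22 23 (.thr 41 3 (.thr 61 1 (.thr 57 49 (.thr 59 56 (.dbl 51 54 55))))))) (.rp 61 (.str 44 (.nv (.thr 12 28 (.thr 4 8 (.thr 29 46 (.thr 25 17 (.dbl 38 51 55))))) (.nv (.thr 12 28 (.thr 20 40 (.thr 22 23 (.thr 41 3 (.thr 46 29 (.dbl 45 33 47)))))) (.nv (.thr 40 20 (.thr 36 32 (.thr 12 28 (.thr 38 39 (.dbl 4 8 55))))) (.rp 28 (.thr 40 20 (.thr 36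 32 (.thr 38 39 (.thr 4 55 (.thr 12 8 (.thr 29 46 (.dbl 25 17 51))))))) (.rp 12 (.thr 20 40 (.thr 22 23 (.thr 41 3 (.thr 38 35 (.thr 55 4 (.thr 51 59 (.dbl 54 6 57))))))) .nd)))))) (.rp 22 (.thr 62 61 (.thr 54 50 (.thr 51 57 (.thr 17 34 (.thr 25 29 (.thr 38 12 (.dbl 55 4 59))))))) .nd)))))))) (.rp 15 (.thr 0 42 (.str 51 (.nv (.thr 17 34 (.thr 25 29 (.thr 49 13 (.dbl 48 50 58)))) (.nv (.thr 17 34 (.thr 55 59 (.thr 25 29 (.dbl 38 4 12)))) (.nv (.thr 58 48 (.thr 59 55 (.thr 57 56 (.thr 60 54 (.dbl 61 49 62))))) (.rp 58 (.str 26 (.nv (.thr 16 31 (.thr 17 34 (.thr 18 19 (.thr 48 32 (.thr 33 3 (.dbl 49 1 50)))))) (.nv (.thr 16 31 (.thr 48 32 (.thr 49 50 (.thr 25 13 (.thr 24 27 (.dbl 12 36 38)))))) (.nv (.thr 17 34 (.thr 25 29 (.thr 55 59 (.dbl 38 4 12)))) (.rp 38 (.thr 16 31 (.thr 48 32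 (.thr 49 50 (.thr 25 13 (.dbl 17 29 34))))) .nd))))) .nd)))))) (.rp 0 (.str 15 (.nv (.dbl 48 26 58) (.rp 58 (.thr 31 47 (.dbl 26 16 48)) (.rp 48 (.str 60 (.nv (.thr 45 30 (.thr 61 62 (.thr 13 29 (.dbl 49 25 57)))) (.nv (.thr 61 62 (.thr 1 41 (.thr 49 57 (.thr 17 33 (.dbl 25 13 29))))) (.nv (.thr 61 62 (.thr 45 30 (.dbl 41 1 33))) (.rp 62 (.thr 45 30 (.thr 41 33 (.thr 61 1 (.thr 13 29 (.dbl 49 25 57))))) (.rp 61 (.thr 31 47 (.thr 45 30 (.thr 41 33 (.thr 3 22 (.thr 11 7 (.dbl 26 16 56)))))) (.rp 32 (.str 16 (.nv (.thr 45 30 (.thr 41 33 (.dbl 61 1 62))) (.nv (.dbl 31 26 47) .nd))) (.rp 16 (.str 32 (.nv (.thr 45 30 (.thr 41 33 (.dbl 61 1 62))) (.nv (.dbl 47 31 42) .nd))) .nd)))))))) (.rp 26 (.str 23 (.nv (.thr 3 43 (.thr 22 20 (.thr 47 31 (.thr 42 32 (.thr 62 2 (.dbl 60 41 61)))))) (.nv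 (.thr 31 47 (.thr 27 19 (.thr 51 39 (.thr 59 55 (.dbl 43 3 11))))) (.rp 58 (.str 42 (.nv (.dbl 47 31 32) (.rp 47 (.thr 3 43 (.thr 22 20 (.thr 62 2 (.dbl 60 41 61)))) (.rp 32 (.thr 3 43 (.thr 22 20 (.thr 62 2 (.dbl 60 41 61)))) (.rp 31 (.thr 3 43 (.thr 22 20 (.thr 62 2 (.dbl 60 41 61)))) .nd))))) (.rp 47 (.thr 22 20 (.thr 3 43 (.thr 60 41 (.thr 45 30 (.thr 61 62 (.thr 13 29 (.dbl 49 25 57))))))) (.rp 43 (.thr 31 47 (.thr 27 19 (.thr 39 51 (.thr 55 7 (.dbl 38 4 36))))) (.rp 42 (.thr 58 48 (.thr 31 47 (.thr 27 19 (.thr 39 51 (.thr 55 7 (.dbl 38 4 36)))))) (.rp 31 (.thr 22 20 (.thr 3 43 (.thr 60 41 (.thr 45 30 (.thr 61 62 (.thr 49 57 (.dbl 13 25 29))))))) (.rp 3 (.thr 22 20 (.thr 31 47 (.thr 19 27 (.thr 25 28 (.thr 29 17 (.thr 12 46 (.dbl 13 14 49))))))) .nd))))))))) .nd))))) .nd)))))))))))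

theorem w387 : WinAt (9007336695791616, 4503599627371552) :=
  chF (K := []) kn c387 9007336695791616 4503599627371552 5
    [33825] (by decide +kernel) (by decide +kernel)

/-- A certificate. -/
noncomputable def c388 : Ct := (.str 20 (.rp 63 (.str 48 (.nv (.thr 22 23 (.thr 26 15 (.thr 18 30 (.thr 3 33 (.thr 60 41 (.thr 0 40 (.dbl 16 31 32))))))) (.nv (.thr 22 23 (.thr 52 7 (.thr 36 4 (.thr 12 24 (.thr 60 56 (.thr 44 28 (.dbl 40 0 32))))))) (.nv (.thr 22 23 (.thr 52 7 (.thr 60 56 (.thr 3 41 (.thr 18 33 (.dbl 26 15 30)))))) (.rp 60 (.thr 22 23 (.thr 52 7 (.thr 36 4 (.thr 24 12 (.thr 26 15 (.dbl 16 28 31)))))) (.rp 43 (.thr 23 22 (.thr 26 15 (.thr 31 16 (.thr 27 19 (.thr 25 24 (.thr 49 13 (.thr 51 50 (.thr 17 29 (.thr 33 1 (.thr 0 34 (.thr 60 40 (.thr 57 54 (.dbl 41 9 45)))))))))))))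 (.rp 23 (.str 3 (.nv (.thr 15 26 (.thr 7 11 (.thr 22 52 (.thr 33 18 (.dbl 41 45 60))))) (.nv (.thr 33 18 (.thr 41 45 (.thr 60 22 (.thr 0 40 (.dbl 1 2 61))))) (.rp 60 (.thr 15 26 (.thr 7 11 (.thr 52 22 (.thr 36 4 (.thr 38 39 (.thr 12 24 (.thr 25 51 (.dbl 13 14 49)))))))) (.rp 45 (.thr 18 33 (.thr 26 15 (.thr 22 30 (.thr 60 41 (.dbl 52 7 56))))) (.rp 41 (.thr 18 33 (.thr 26 15 (.thr 22 30 (.thr 52 7 (.thr 36 4 (.thr 24 12 (.dbl 16 28 31))))))) (.rp 33 (.thr 15 26 (.thr 7 11 (.thr 52 22 (.thr 36 4 (.thr 38 39 (.thr 12 24 (.thr 25 51 (.dbl 13 14 49)))))))) (.rp 26 (.thr 33 18 (.thr 41 45 (.thr 1 61 (.thr 0 2 (.dbl 60 22 40))))) (.rp 22 (.thr 33 18 (.thr 41 45 (.thr 1 61 (.thr 0 2 (.thr 16 32 (.dbl 26 15 31)))))) (.rp 18 (.thr 15 26 (.thr 7 11 (.thr 22 52 (.thr 41 60 (.thr 45 33 (.thr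 61 1 (.thr 13 29 (.thr 12 14 (.thr 36 24 (.thr 38 39 (.dbl 6 9 54))))))))))) .nd)))))))))) (.rp 22 (.str 36 (.nv (.thr 24 12 (.thr 16 28 (.dbl 26 15 31))) (.nv (.thr 38 39 (.dbl 4 52 55)) .nd))) (.rp 3 (.thr 23 22 (.thr 26 15 (.thr 31 16 (.thr 27 19 (.thr 25 24 (.thr 49 13 (.thr 51 50 (.thr 17 29 (.thr 33 1 (.thr 0 34 (.thr 60 40 (.thr 57 54 (.dbl 41 9 45))))))))))))) .nd))))))))) (.rp 62 (.str 16 (.nv (.thr 24 28 (.thr 26 31 (.thr 48 15 (.thr 36 12 (.thr 4 52 (.dbl 38 39 55)))))) (.nv (.thr 22 23 (.thr 26 31 (.thr 48 15 (.thr 0 32 (.thr 52 7 (.dbl 60 40 56)))))) (.nv (.thr 22 23 (.thr 24 28 (.thr 52 7 (.thr 36 4 (.thr 48 12 (.thr 0 32 (.dbl 60 40 56))))))) (.nv (.thr 22 23 (.thr 28 24 (.thr 19 25 (.thr 26 31 (.dbl 18 17 30))))) .nd))))) (.rp 61 (.thr 22 23 (.thr 52 7 (.thr 4 36 (.thr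 55 38 (.str 60 (.nv (.thr 0 40 (.thr 3 41 (.thr 2 1 (.dbl 42 62 63)))) (.nv (.thr 3 41 (.thr 48 56 (.thr 18 33 (.dbl 26 15 30)))) (.nv (.thr 48 56 (.thr 0 40 (.thr 32 16 (.dbl 42 47 63)))) (.rp 57 (.str 49 (.nv (.thr 25 13 (.thr 28 19 (.thr 0 40 (.dbl 12 8 44)))) (.nv (.thr 41 3 (.thr 45 33 (.thr 15 30 (.dbl 48 26 56)))) (.rp 45 (.thr 3 41 (.thr 48 56 (.thr 18 33 (.dbl 26 15 30)))) .nd)))) (.rp 49 (.str 57 (.nv (.thr 3 41 (.thr 48 56 (.thr 18 33 (.dbl 26 15 30)))) (.nv (.thr 51 54 (.thr 63 59 (.dbl 0 40 42))) .nd))) .nd)))))))))) (.rp 60 (.thr 22 23 (.str 26 (.nv (.thr 48 15 (.thr 52 7 (.thr 36 4 (.thr 24 12 (.dbl 16 28 31))))) (.nv (.thr 16 31 (.thr 28 24 (.thr 19 25 (.dbl 18 17 30)))) (.rp 31 (.thr 52 7 (.thr 36 4 (.thr 48 15 (.thr 24 12 (.thr 28 16 (.dbl 25 19 27)))))) (.rp 30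 (.thr 52 7 (.thr 36 4 (.thr 39 38 (.thr 15 48 (.thr 27 51 (.thr 16 31 (.dbl 24 25 28))))))) (.rp 28 (.thr 52 7 (.thr 4 36 (.thr 15 48 (.thr 31 16 (.thr 63 47 (.thr 0 42 (.thr 12 8 (.thr 14 13 (.dbl 38 50 55))))))))) (.rp 24 (.thr 15 48 (.thr 31 16 (.thr 63 47 (.thr 30 18 (.thr 29 28 (.thr 12 46 (.thr 13 14 (.dbl 25 17 49)))))))) (.rp 16 (.str 62 (.nv (.thr 30 18 (.thr 14 46 (.thr 52 7 (.thr 4 36 (.dbl 38 50 55))))) (.nv (.thr 18 30 (.thr 2 42 (.thr 50 34 (.thr 38 14 (.dbl 54 6 58))))) (.rp 50 (.thr 52 7 (.thr 36 4 (.thr 48 15 (.thr 12 24 (.thr 30 18 (.thr 46 14 (.thr 63 29 (.dbl 42 0 2)))))))) (.rp 38 (.thr 52 7 (.thr 36 4 (.thr 48 15 (.thr 12 24 (.thr 30 18 (.thr 46 14 (.thr 63 29 (.dbl 42 0 2)))))))) (.rp 30 (.thr 52 7 (.thr 36 4 (.thr 39 38 (.thr 42 2 (.thr 47 32 (.thr 43 35 (.thr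 41 40 (.thr 11 56 (.thr 27 59 (.dbl 15 48 51)))))))))) (.rp 18 (.thr 52 7 (.thr 36 4 (.thr 48 15 (.thr 24 12 (.thr 25 27 (.thr 42 2 (.thr 8 59 (.thr 40 56 (.dbl 32 44 47))))))))) (.rp 14 (.thr 52 7 (.thr 36 4 (.thr 18 30 (.thr 2 42 (.thr 50 34 (.thr 54 58 (.dbl 38 6 39))))))) .nd)))))))) .nd))))))))) (.rp 59 (.str 16 (.nv (.thr 24 28 (.thr 26 31 (.thr 48 15 (.thr 36 12 (.thr 4 52 (.dbl 38 39 55)))))) (.nv (.thr 22 23 (.thr 26 31 (.thr 48 15 (.thr 0 32 (.thr 52 7 (.dbl 60 40 56)))))) (.nv (.thr 22 23 (.thr 24 28 (.thr 52 7 (.thr 36 4 (.thr 48 12 (.thr 0 32 (.dbl 60 40 56))))))) (.nv (.thr 22 23 (.thr 26 31 (.thr 18 30 (.thr 28 24 (.dbl 19 17 25))))) .nd))))) (.rp 58 (.thr 22 23 (.str 48 (.nv (.thr 52 7 (.thr 60 56 (.thr 0 40 (.thr 32 16 (.dbl 42 47 63))))) (.nv (.thr 26 15 (.thr 16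 31 (.thr 28 24 (.thr 19 25 (.dbl 18 17 30))))) (.nv (.thr 26 15 (.thr 18 30 (.thr 3 33 (.thr 60 41 (.dbl 52 7 56))))) (.rp 26 (.str 42 (.nv (.thr 52 7 (.thr 60 56 (.thr 40 0 (.dbl 41 3 43)))) (.nv (.thr 32 47 (.dbl 0 16 63)) (.rp 0 (.thr 52 7 (.thr 62 2 (.thr 60 56 (.thr 61 63 (.dbl 41 1 3))))) .nd)))) (.rp 0 (.thr 52 7 (.thr 60 56 (.thr 3 41 (.thr 18 33 (.dbl 26 15 30))))) .nd))))))) (.rp 57 (.thr 22 23 (.thr 52 7 (.thr 4 36 (.thr 55 38 (.str 60 (.nv (.thr 3 41 (.thr 48 56 (.thr 18 33 (.dbl 26 15 30)))) (.nv (.thr 48 56 (.thr 0 40 (.thr 32 16 (.dbl 42 47 63)))) (.nv (.thr 41 3 (.thr 61 1 (.thr 63 62 (.dbl 0 40 42)))) (.rp 61 (.str 49 (.nv (.thr 25 13 (.thr 28 19 (.thr 0 40 (.dbl 12 8 44)))) (.nv (.thr 41 3 (.thr 45 33 (.thr 15 30 (.dbl 48 26 56)))) (.rp 45 (.thr 3 41 (.thr 48 56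 (.thr 18 33 (.dbl 26 15 30)))) .nd)))) (.rp 49 (.str 61 (.nv (.thr 0 40 (.dbl 63 42 62)) (.nv (.dbl 41 1 3) .nd))) .nd)))))))))) (.rp 56 (.str 16 (.nv (.thr 22 23 (.thr 7 52 (.thr 26 31 (.thr 30 18 (.thr 15 48 (.thr 60 45 (.dbl 3 11 41))))))) (.nv (.thr 24 28 (.thr 26 31 (.thr 48 15 (.thr 36 12 (.thr 4 52 (.dbl 38 39 55)))))) (.nv (.thr 22 23 (.thr 26 31 (.thr 18 30 (.thr 19 17 (.dbl 28 24 25))))) (.rp 31 (.thr 22 23 (.thr 28 24 (.thr 19 25 (.thr 18 17 (.thr 26 30 (.thr 48 15 (.thr 3 33 (.thr 0 32 (.dbl 60 40 41))))))))) (.rp 30 (.thr 22 23 (.thr 52 7 (.thr 36 4 (.thr 24 28 (.thr 48 12 (.dbl 26 15 31)))))) (.rp 26 (.thr 22 23 (.thr 52 7 (.thr 36 4 (.thr 24 28 (.thr 48 12 (.thr 0 32 (.thr 60 40 (.thr 41 3 (.thr 61 1 (.dbl 63 42 62)))))))))) .nd))))))) (.rp 55 (.str 60 (.nv (.thr 22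 23 (.thr 41 3 (.thr 45 33 (.thr 15 30 (.thr 48 26 (.dbl 52 7 56)))))) (.nv (.thr 0 40 (.thr 42 63 (.thr 32 47 (.thr 48 16 (.thr 52 56 (.dbl 22 7 23)))))) (.nv (.thr 22 23 (.thr 0 40 (.thr 3 41 (.thr 2 1 (.dbl 42 62 63))))) (.rp 63 (.thr 22 23 (.thr 0 40 (.thr 3 41 (.thr 2 1 (.thr 42 62 (.thr 32 47 (.thr 48 16 (.dbl 52 7 56)))))))) (.rp 54 (.str 52 (.nv (.dbl 22 7 23) (.rp 23 (.thr 48 56 (.thr 26 15 (.thr 16 31 (.dbl 0 32 40)))) (.rp 22 (.thr 48 56 (.thr 26 15 (.thr 16 31 (.dbl 0 32 40)))) (.rp 7 (.thr 48 56 (.thr 26 15 (.thr 16 31 (.dbl 0 32 40)))) .nd))))) (.rp 52 (.str 54 (.nv (.thr 0 40 (.thr 51 57 (.thr 17 34 (.thr 25 29 (.thr 38 12 (.dbl 22 6 23)))))) (.nv (.thr 22 23 (.thr 0 40 (.thr 3 41 (.thr 2 1 (.dbl 42 62 63))))) (.rp 63 (.thr 22 23 (.thr 38 6 (.thr 51 57 (.thr 12 25 (.thr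 44 28 (.dbl 41 3 35)))))) (.rp 40 (.thr 22 23 (.thr 38 6 (.thr 51 57 (.thr 12 25 (.thr 44 28 (.dbl 41 3 35)))))) (.rp 23 (.thr 51 57 (.thr 0 40 (.thr 17 34 (.thr 25 29 (.thr 12 38 (.thr 8 4 (.dbl 42 59 63))))))) (.rp 22 (.thr 51 57 (.thr 0 40 (.thr 17 34 (.thr 25 29 (.thr 12 38 (.thr 8 4 (.dbl 42 59 63))))))) (.rp 0 (.thr 22 23 (.thr 38 6 (.thr 51 57 (.thr 12 25 (.thr 44 28 (.dbl 41 3 35)))))) .nd)))))))) (.rp 42 (.thr 22 23 (.thr 41 3 (.thr 61 1 (.thr 63 62 (.thr 45 33 (.thr 15 30 (.thr 31 47 (.dbl 26 16 48)))))))) (.rp 23 (.thr 0 40 (.thr 63 42 (.thr 61 62 (.thr 41 1 (.thr 45 33 (.thr 15 30 (.thr 31 47 (.dbl 26 16 48)))))))) (.rp 22 (.thr 0 40 (.thr 42 63 (.thr 32 47 (.thr 48 16 (.thr 52 56 (.thr 36 4 (.thr 38 39 (.thr 34 46 (.thr 51 17 (.dbl 12 24 25)))))))))) (.rp 7 (.thr 0 40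 (.thr 63 42 (.thr 61 62 (.thr 41 1 (.dbl 22 3 23))))) .nd))))))))))) (.rp 54 (.thr 22 23 (.thr 52 7 (.thr 4 36 (.thr 55 38 (.str 60 (.nv (.thr 0 40 (.thr 3 41 (.thr 2 1 (.dbl 42 62 63)))) (.nv (.thr 3 41 (.thr 48 56 (.thr 18 33 (.dbl 26 15 30)))) (.nv (.thr 48 56 (.thr 0 40 (.thr 32 16 (.dbl 42 47 63)))) .nd)))))))) (.rp 52 (.thr 22 23 (.str 26 (.nv (.thr 15 48 (.thr 30 18 (.thr 60 45 (.thr 0 40 (.thr 63 42 (.dbl 31 16 47)))))) (.nv (.thr 16 31 (.thr 28 24 (.thr 18 30 (.dbl 19 17 25)))) (.rp 55 (.str 54 (.nv (.thr 18 30 (.thr 38 6 (.thr 50 14 (.thr 2 34 (.dbl 62 42 58))))) (.nv (.thr 15 48 (.thr 38 6 (.thr 14 50 (.thr 12 13 (.thr 39 36 (.dbl 51 25 27)))))) (.nv (.thr 16 31 (.thr 28 24 (.thr 18 30 (.dbl 19 17 25)))) (.rp 39 (.str 7 (.nv (.thr 15 48 (.thr 3 11 (.thr 60 41 (.thr 0 40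 (.thr 2 1 (.dbl 42 62 63)))))) (.nv (.thr 18 30 (.thr 16 31 (.thr 19 17 (.dbl 28 24 25)))) .nd))) (.rp 7 (.str 39 (.nv (.dbl 38 6 36) (.rp 38 (.thr 15 48 (.thr 27 51 (.thr 16 31 (.dbl 24 25 28)))) (.rp 36 (.thr 15 48 (.thr 27 51 (.thr 24 25 (.dbl 16 28 31)))) (.rp 6 (.thr 36 38 (.thr 48 15 (.thr 24 12 (.dbl 16 28 31)))) .nd))))) .nd)))))) (.rp 54 (.str 55 (.nv (.thr 15 48 (.thr 30 18 (.thr 31 16 (.thr 60 45 (.thr 0 40 (.dbl 63 42 47)))))) (.nv (.thr 15 48 (.thr 38 4 (.thr 14 50 (.thr 12 13 (.thr 39 36 (.dbl 51 25 27)))))) (.nv (.thr 16 31 (.thr 28 24 (.thr 18 30 (.dbl 19 17 25)))) .nd)))) (.rp 31 (.thr 15 48 (.thr 30 18 (.thr 60 45 (.thr 0 40 (.thr 63 42 (.thr 61 62 (.dbl 41 1 3))))))) (.rp 30 (.thr 15 48 (.thr 31 16 (.thr 63 47 (.thr 0 42 (.thr 60 40 (.thr 61 62 (.dbl 41 1 3)))))))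 (.rp 18 (.thr 15 48 (.thr 31 16 (.thr 63 47 (.thr 0 42 (.thr 60 40 (.thr 61 62 (.dbl 41 1 3))))))) (.rp 16 (.thr 15 48 (.thr 30 18 (.thr 60 45 (.thr 0 40 (.thr 63 42 (.thr 61 62 (.dbl 41 1 3))))))) .nd)))))))))) (.rp 51 (.str 16 (.nv (.thr 24 28 (.thr 26 31 (.thr 48 15 (.thr 36 12 (.thr 4 52 (.dbl 38 39 55)))))) (.nv (.thr 22 23 (.thr 26 31 (.thr 48 15 (.thr 0 32 (.thr 52 7 (.dbl 60 40 56)))))) (.nv (.thr 22 23 (.thr 24 28 (.thr 52 7 (.thr 36 4 (.thr 48 12 (.thr 0 32 (.dbl 60 40 56))))))) (.nv (.thr 22 23 (.thr 26 31 (.thr 18 30 (.thr 28 24 (.dbl 19 17 25))))) .nd))))) (.rp 50 (.str 16 (.nv (.thr 24 28 (.thr 26 31 (.thr 48 15 (.thr 36 12 (.thr 4 52 (.dbl 38 39 55)))))) (.nv (.thr 22 23 (.thr 26 31 (.thr 48 15 (.thr 0 32 (.thr 52 7 (.dbl 60 40 56)))))) (.nv (.thr 22 23 (.thr 24 28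 (.thr 52 7 (.thr 36 4 (.thr 48 12 (.thr 0 32 (.dbl 60 40 56))))))) (.nv (.thr 22 23 (.thr 28 24 (.thr 19 25 (.thr 26 31 (.dbl 18 17 30))))) .nd))))) (.rp 49 (.thr 22 23 (.thr 52 7 (.thr 4 36 (.thr 55 38 (.str 60 (.nv (.thr 0 40 (.thr 3 41 (.thr 2 1 (.dbl 42 62 63)))) (.nv (.thr 3 41 (.thr 48 56 (.thr 18 33 (.dbl 26 15 30)))) (.nv (.thr 48 56 (.thr 0 40 (.thr 32 16 (.dbl 42 47 63)))) (.rp 61 (.str 57 (.nv (.thr 3 41 (.thr 48 56 (.thr 18 33 (.dbl 26 15 30)))) (.nv (.thr 51 54 (.thr 63 59 (.dbl 0 40 42))) .nd))) (.rp 57 (.str 61 (.nv (.thr 0 40 (.dbl 63 42 62)) (.nv (.dbl 41 1 3) .nd))) .nd)))))))))) (.rp 48 (.str 4 (.nv (.thr 36 52 (.dbl 38 39 55)) (.nv (.thr 22 23 (.dbl 52 7 36)) (.rp 63 .ext (.rp 58 (.str 63 (.nv (.thr 42 0 (.thr 36 52 (.dbl 38 39 55))) (.nv (.thr 22 23 (.dbl 52 7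 36)) (.rp 52 (.thr 23 22 (.thr 55 38 (.thr 39 7 (.thr 43 3 (.thr 47 35 (.dbl 42 0 32)))))) (.rp 42 (.str 26 (.nv (.thr 36 52 (.dbl 38 39 55)) (.nv (.thr 22 23 (.dbl 52 7 36)) (.rp 52 (.thr 22 23 (.thr 16 31 (.thr 28 24 (.thr 18 30 (.dbl 19 17 25))))) (.rp 36 (.thr 22 23 (.thr 7 52 (.thr 6 5 (.dbl 38 54 55)))) .nd))))) (.rp 36 (.thr 22 23 (.thr 7 52 (.thr 6 5 (.dbl 38 54 55)))) .nd)))))) (.rp 52 (.thr 55 38 (.str 63 (.nv (.thr 23 22 (.thr 39 7 (.thr 51 59 (.thr 15 27 (.thr 47 31 (.dbl 43 3 35)))))) (.nv (.thr 0 42 (.thr 22 23 (.thr 60 40 (.thr 61 62 (.dbl 41 1 3))))) (.rp 60 (.str 56 (.nv (.thr 23 22 (.thr 3 43 (.thr 7 39 (.thr 6 5 (.thr 12 9 (.dbl 0 8 42)))))) (.nv (.thr 0 42 (.thr 8 12 (.thr 22 23 (.thr 24 40 (.thr 28 16 (.thr 25 19 (.thr 17 29 (.dbl 51 34 59)))))))) (.nv (.thr 23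 22 (.thr 39 7 (.thr 51 59 (.thr 15 27 (.thr 47 31 (.dbl 43 3 35)))))) (.rp 43 (.thr 22 23 (.thr 59 51 (.thr 42 0 (.thr 25 8 (.thr 28 19 (.thr 16 24 (.thr 31 26 (.dbl 29 17 30)))))))) (.rp 23 (.thr 59 51 (.thr 57 58 (.thr 42 0 (.thr 25 8 (.thr 41 9 (.thr 11 26 (.dbl 43 27 40))))))) (.rp 22 (.thr 59 51 (.thr 57 58 (.thr 42 0 (.thr 25 8 (.thr 41 9 (.thr 11 26 (.dbl 43 27 40))))))) .nd))))))) (.rp 56 (.str 60 (.nv (.thr 22 23 (.thr 41 3 (.dbl 61 1 62))) (.nv (.dbl 0 40 42) .nd))) (.rp 43 (.thr 22 23 (.thr 0 42 (.thr 60 40 (.thr 41 3 (.dbl 61 1 62))))) (.rp 23 (.thr 0 42 (.thr 12 8 (.thr 60 40 (.thr 61 62 (.thr 41 1 (.thr 45 33 (.dbl 29 13 46))))))) (.rp 22 (.thr 0 42 (.thr 12 8 (.thr 46 29 (.thr 60 40 (.thr 44 28 (.thr 62 61 (.thr 45 47 (.dbl 30 14 15)))))))) (.rp 3 (.thr 23 22 (.thr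 39 7 (.thr 51 59 (.thr 15 27 (.thr 47 31 (.dbl 42 0 32)))))) .nd)))))))))) (.rp 36 (.thr 22 23 (.thr 7 52 (.thr 6 5 (.dbl 38 54 55)))) .nd))))))) (.rp 47 (.str 0 (.nv (.thr 22 23 (.thr 52 7 (.thr 60 40 (.thr 48 56 (.thr 16 32 (.dbl 26 15 31)))))) (.nv (.thr 22 23 (.thr 60 40 (.thr 3 41 (.thr 2 1 (.dbl 42 62 63))))) (.rp 60 (.thr 22 23 (.thr 52 7 (.thr 4 36 (.thr 12 8 (.thr 63 42 (.thr 29 46 (.thr 25 17 (.dbl 38 51 55)))))))) (.rp 40 (.thr 22 23 (.thr 52 7 (.thr 4 36 (.thr 12 8 (.thr 63 42 (.thr 29 46 (.thr 25 17 (.dbl 38 51 55)))))))) (.rp 23 (.thr 60 40 (.thr 63 42 (.thr 61 62 (.thr 41 1 (.thr 45 33 (.thr 29 13 (.thr 30 15 (.thr 28 31 (.dbl 12 44 46))))))))) (.rp 22 (.thr 40 60 (.thr 42 63 (.thr 41 43 (.thr 61 1 (.thr 45 33 (.thr 29 13 (.thr 17 25 (.thr 34 51 (.thr 38 46 (.thr 36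 39 (.thr 35 44 (.dbl 4 52 55)))))))))))) .nd))))))) (.rp 46 (.str 16 (.nv (.thr 24 28 (.thr 26 31 (.thr 48 15 (.thr 36 12 (.thr 4 52 (.dbl 38 39 55)))))) (.nv (.thr 22 23 (.thr 26 31 (.thr 48 15 (.thr 0 32 (.thr 52 7 (.dbl 60 40 56)))))) (.nv (.thr 22 23 (.thr 24 28 (.thr 52 7 (.thr 36 4 (.thr 48 12 (.thr 0 32 (.dbl 60 40 56))))))) (.nv (.thr 22 23 (.thr 28 24 (.thr 19 25 (.thr 26 31 (.dbl 18 17 30))))) .nd))))) (.rp 45 (.str 16 (.nv (.thr 24 28 (.thr 26 31 (.thr 48 15 (.thr 36 12 (.thr 4 52 (.dbl 38 39 55)))))) (.nv (.thr 22 23 (.thr 26 31 (.thr 48 15 (.thr 0 32 (.thr 52 7 (.dbl 60 40 56)))))) (.nv (.thr 22 23 (.thr 24 28 (.thr 52 7 (.thr 36 4 (.thr 48 12 (.thr 0 32 (.dbl 60 40 56))))))) (.nv (.thr 22 23 (.thr 28 24 (.thr 19 25 (.thr 26 31 (.dbl 18 17 30))))) .nd))))) (.rp 44 (.str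 16 (.nv (.thr 22 23 (.thr 26 31 (.thr 48 15 (.thr 0 32 (.thr 52 7 (.dbl 60 40 56)))))) (.nv (.thr 22 23 (.thr 24 28 (.thr 52 7 (.thr 36 4 (.thr 48 12 (.thr 60 56 (.dbl 0 32 40))))))) (.nv (.thr 22 23 (.thr 28 24 (.thr 19 25 (.thr 26 31 (.dbl 18 17 30))))) (.rp 23 (.thr 24 28 (.thr 26 31 (.thr 48 15 (.thr 0 32 (.thr 36 12 (.thr 60 40 (.dbl 52 4 56))))))) (.rp 22 (.thr 24 28 (.thr 26 31 (.thr 48 15 (.thr 0 32 (.thr 36 12 (.thr 60 40 (.dbl 52 4 56))))))) .nd)))))) (.rp 43 (.str 16 (.nv (.thr 22 23 (.thr 26 31 (.thr 48 15 (.thr 0 32 (.thr 52 7 (.dbl 60 40 56)))))) (.nv (.thr 24 28 (.thr 26 31 (.thr 48 15 (.thr 36 12 (.thr 4 52 (.dbl 38 39 55)))))) (.nv (.thr 22 23 (.thr 24 28 (.thr 52 7 (.thr 36 4 (.thr 48 12 (.thr 0 32 (.dbl 60 40 56))))))) (.nv (.thr 22 23 (.thr 28 24 (.thr 19 25 (.thr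 26 31 (.dbl 18 17 30))))) (.rp 63 (.thr 28 24 (.thr 31 26 (.thr 29 30 (.thr 25 17 (.dbl 22 19 23))))) .nd)))))) (.rp 42 (.str 26 (.nv (.thr 16 31 (.thr 24 28 (.thr 48 15 (.thr 36 12 (.thr 4 52 (.dbl 38 39 55)))))) (.nv (.thr 15 48 (.thr 22 23 (.thr 7 52 (.thr 3 11 (.thr 30 18 (.dbl 60 41 45)))))) (.nv (.thr 22 23 (.thr 18 30 (.thr 16 31 (.thr 28 24 (.dbl 19 17 25))))) (.rp 30 (.thr 22 23 (.thr 16 31 (.thr 48 15 (.thr 0 32 (.thr 52 7 (.dbl 60 40 56)))))) .nd))))) (.rp 41 (.str 16 (.nv (.thr 24 28 (.thr 26 31 (.thr 48 15 (.thr 36 12 (.thr 4 52 (.dbl 38 39 55)))))) (.nv (.thr 22 23 (.thr 26 31 (.thr 48 15 (.thr 0 32 (.thr 52 7 (.dbl 60 40 56)))))) (.nv (.thr 22 23 (.thr 24 28 (.thr 52 7 (.thr 36 4 (.thr 48 12 (.thr 0 32 (.dbl 60 40 56))))))) (.nv (.thr 22 23 (.thr 26 31 (.thr 18 30 (.thr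 28 24 (.dbl 19 17 25))))) .nd))))) (.rp 40 (.str 16 (.nv (.thr 22 23 (.thr 7 52 (.thr 26 31 (.thr 15 48 (.thr 3 11 (.thr 30 18 (.dbl 60 41 45))))))) (.nv (.thr 24 28 (.thr 26 31 (.thr 48 15 (.thr 36 12 (.thr 4 52 (.dbl 38 39 55)))))) (.nv (.thr 22 23 (.thr 26 31 (.thr 18 30 (.thr 19 17 (.dbl 28 24 25))))) (.rp 31 (.thr 22 23 (.thr 52 7 (.thr 36 4 (.thr 24 28 (.thr 48 12 (.thr 15 26 (.thr 60 56 (.thr 41 3 (.dbl 45 30 33))))))))) (.rp 30 (.thr 22 23 (.thr 52 7 (.thr 36 4 (.thr 24 28 (.thr 48 12 (.dbl 26 15 31)))))) (.rp 26 (.thr 22 23 (.thr 52 7 (.thr 36 4 (.thr 24 28 (.thr 48 12 (.thr 0 32 (.thr 60 56 (.thr 41 3 (.thr 61 1 (.dbl 63 42 62)))))))))) .nd))))))) (.rp 39 (.str 0 (.nv (.thr 42 63 (.thr 32 47 (.thr 48 16 (.thr 60 40 (.thr 52 56 (.dbl 22 7 23)))))) (.nv (.thr 22 23 (.thr 60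 40 (.thr 3 41 (.thr 2 1 (.dbl 42 62 63))))) (.rp 63 (.thr 22 23 (.thr 7 52 (.thr 60 40 (.thr 3 41 (.thr 15 11 (.thr 30 45 (.dbl 26 18 48))))))) (.rp 60 (.thr 22 23 (.thr 7 52 (.thr 42 63 (.thr 32 47 (.thr 48 16 (.thr 15 26 (.thr 3 11 (.dbl 2 1 62)))))))) (.rp 43 (.thr 22 23 (.thr 60 40 (.thr 3 41 (.thr 42 63 (.dbl 2 1 62))))) (.rp 42 (.thr 22 23 (.thr 60 40 (.thr 41 3 (.thr 61 1 (.thr 63 62 (.thr 45 33 (.thr 15 30 (.thr 31 47 (.dbl 26 16 48))))))))) (.rp 40 (.thr 22 23 (.thr 7 52 (.thr 42 63 (.thr 32 47 (.thr 48 16 (.thr 15 26 (.thr 3 11 (.dbl 2 1 62)))))))) (.rp 23 (.thr 40 60 (.thr 42 63 (.thr 32 47 (.thr 48 16 (.thr 36 44 (.thr 4 52 (.dbl 12 8 24))))))) (.rp 22 (.thr 40 60 (.thr 42 63 (.thr 32 47 (.thr 48 16 (.thr 36 44 (.thr 4 52 (.dbl 12 8 24))))))) (.rp 7 (.thr 60 40 (.thr 63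 42 (.thr 61 62 (.thr 41 1 (.dbl 22 3 23))))) .nd))))))))))) (.rp 38 (.str 16 (.nv (.thr 22 23 (.thr 26 31 (.thr 48 15 (.thr 0 32 (.thr 52 7 (.dbl 60 40 56)))))) (.nv (.thr 22 23 (.thr 24 28 (.thr 52 7 (.thr 36 4 (.thr 48 12 (.thr 0 32 (.dbl 60 40 56))))))) (.nv (.thr 22 23 (.thr 26 31 (.thr 18 30 (.thr 28 24 (.dbl 19 17 25))))) (.rp 23 (.thr 24 28 (.thr 26 31 (.thr 48 15 (.thr 0 32 (.thr 36 12 (.thr 52 4 (.dbl 60 40 56))))))) (.rp 22 (.thr 24 28 (.thr 26 31 (.thr 48 15 (.thr 0 32 (.thr 36 12 (.thr 52 4 (.dbl 60 40 56))))))) .nd)))))) (.rp 36 (.str 0 (.nv (.thr 22 23 (.thr 42 63 (.thr 2 62 (.thr 3 1 (.dbl 60 40 41))))) (.nv (.thr 22 23 (.thr 52 7 (.thr 60 40 (.thr 48 56 (.thr 26 15 (.dbl 16 31 32)))))) (.nv (.thr 22 23 (.thr 60 40 (.thr 3 41 (.thr 2 1 (.dbl 42 62 63))))) (.rp 60 (.thr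 22 23 (.thr 7 52 (.thr 42 63 (.thr 32 47 (.thr 48 16 (.thr 15 26 (.thr 3 11 (.dbl 2 1 62)))))))) (.rp 40 (.thr 22 23 (.thr 52 7 (.thr 42 63 (.thr 32 47 (.thr 48 16 (.thr 60 56 (.thr 3 41 (.dbl 2 1 62)))))))) (.rp 23 (.thr 60 40 (.thr 63 42 (.thr 61 62 (.thr 41 1 (.thr 45 33 (.thr 15 30 (.thr 31 47 (.dbl 26 16 48)))))))) (.rp 22 (.thr 40 60 (.thr 42 63 (.thr 32 47 (.thr 48 16 (.thr 41 43 (.thr 33 45 (.thr 3 18 (.dbl 1 2 61)))))))) (.rp 3 (.thr 22 23 (.thr 52 7 (.thr 60 40 (.thr 48 56 (.thr 32 16 (.dbl 42 47 63)))))) .nd))))))))) (.rp 35 (.str 16 (.nv (.thr 24 28 (.thr 26 31 (.thr 48 15 (.thr 36 12 (.thr 4 52 (.dbl 38 39 55)))))) (.nv (.thr 22 23 (.thr 26 31 (.thr 48 15 (.thr 0 32 (.thr 52 7 (.dbl 60 40 56)))))) (.nv (.thr 22 23 (.thr 24 28 (.thr 52 7 (.thr 36 4 (.thr 48 12 (.thr 0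 32 (.dbl 60 40 56))))))) (.nv (.thr 22 23 (.thr 28 24 (.thr 19 25 (.thr 26 31 (.dbl 18 17 30))))) .nd))))) (.rp 34 (.str 16 (.nv (.thr 24 28 (.thr 26 31 (.thr 48 15 (.thr 36 12 (.thr 4 52 (.dbl 38 39 55)))))) (.nv (.thr 22 23 (.thr 26 31 (.thr 48 15 (.thr 0 32 (.thr 52 7 (.dbl 60 40 56)))))) (.nv (.thr 22 23 (.thr 24 28 (.thr 52 7 (.thr 36 4 (.thr 48 12 (.thr 0 32 (.dbl 60 40 56))))))) (.nv (.thr 22 23 (.thr 28 24 (.thr 19 25 (.thr 26 31 (.dbl 18 17 30))))) .nd))))) (.rp 33 (.str 16 (.nv (.thr 24 28 (.thr 26 31 (.thr 48 15 (.thr 36 12 (.thr 4 52 (.dbl 38 39 55)))))) (.nv (.thr 22 23 (.thr 26 31 (.thr 48 15 (.thr 0 32 (.thr 52 7 (.dbl 60 40 56)))))) (.nv (.thr 22 23 (.thr 24 28 (.thr 52 7 (.thr 36 4 (.thr 48 12 (.thr 0 32 (.dbl 60 40 56))))))) (.nv (.thr 22 23 (.thr 28 24 (.thr 19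 25 (.thr 26 31 (.dbl 18 17 30))))) .nd))))) (.rp 32 (.str 16 (.nv (.thr 22 23 (.thr 7 52 (.thr 26 31 (.thr 15 48 (.thr 3 11 (.thr 30 18 (.dbl 60 41 45))))))) (.nv (.thr 24 28 (.thr 26 31 (.thr 48 15 (.thr 36 12 (.thr 4 52 (.dbl 38 39 55)))))) (.nv (.thr 22 23 (.thr 28 24 (.thr 19 25 (.thr 26 31 (.dbl 18 17 30))))) (.rp 31 (.thr 22 23 (.thr 52 7 (.thr 36 4 (.thr 24 28 (.thr 48 12 (.thr 15 26 (.thr 60 56 (.thr 41 3 (.dbl 45 30 33))))))))) (.rp 30 (.thr 22 23 (.thr 52 7 (.thr 36 4 (.thr 24 28 (.thr 48 12 (.dbl 26 15 31)))))) (.rp 26 (.thr 22 23 (.thr 52 7 (.thr 36 4 (.thr 24 28 (.thr 48 12 (.thr 60 56 (.thr 41 3 (.thr 61 1 (.thr 63 62 (.dbl 0 40 42)))))))))) .nd))))))) (.rp 31 (.str 0 (.nv (.thr 60 40 (.thr 63 42 (.thr 61 62 (.thr 41 1 (.dbl 22 3 23))))) (.nv (.thr 22 23 (.thr 52 7 (.thr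 36 4 (.thr 60 40 (.thr 48 56 (.thr 16 32 (.dbl 24 12 28))))))) (.nv (.thr 22 23 (.thr 60 40 (.thr 3 41 (.thr 2 1 (.dbl 42 62 63))))) (.rp 60 (.thr 22 23 (.thr 52 7 (.thr 4 36 (.thr 12 8 (.thr 63 42 (.thr 29 46 (.thr 25 17 (.dbl 38 51 55)))))))) (.rp 40 (.thr 22 23 (.thr 52 7 (.thr 4 36 (.thr 12 8 (.thr 63 42 (.thr 29 46 (.thr 25 17 (.dbl 38 51 55)))))))) (.rp 23 (.thr 60 40 (.thr 63 42 (.thr 61 62 (.thr 41 1 (.thr 45 33 (.thr 15 30 (.thr 22 3 (.thr 52 7 (.dbl 48 26 56))))))))) (.rp 22 (.thr 40 60 (.thr 42 63 (.thr 47 32 (.thr 41 43 (.thr 61 1 (.thr 45 33 (.thr 29 13 (.thr 46 44 (.thr 17 25 (.dbl 34 38 51)))))))))) .nd)))))))) (.rp 30 (.str 0 (.nv (.thr 40 60 (.thr 42 63 (.thr 32 47 (.thr 36 44 (.thr 4 52 (.dbl 38 39 55)))))) (.nv (.thr 22 23 (.thr 52 7 (.thr 60 40 (.thr 48 56 (.thr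 16 32 (.dbl 26 15 31)))))) (.nv (.thr 22 23 (.thr 60 40 (.thr 3 41 (.thr 2 1 (.dbl 42 62 63))))) (.rp 60 (.thr 22 23 (.thr 52 7 (.thr 4 36 (.thr 12 8 (.thr 63 42 (.thr 29 46 (.thr 25 17 (.dbl 38 51 55)))))))) (.rp 40 (.thr 22 23 (.thr 52 7 (.thr 4 36 (.thr 12 8 (.thr 63 42 (.thr 29 46 (.thr 25 17 (.dbl 38 51 55)))))))) .nd)))))) (.rp 29 (.str 16 (.nv (.thr 22 23 (.thr 7 52 (.thr 26 31 (.thr 30 18 (.thr 15 48 (.thr 3 11 (.dbl 60 41 45))))))) (.nv (.thr 22 23 (.thr 24 28 (.thr 52 7 (.thr 36 4 (.thr 48 12 (.thr 0 32 (.dbl 60 40 56))))))) (.nv (.thr 22 23 (.thr 28 24 (.thr 19 25 (.thr 26 31 (.dbl 18 17 30))))) (.rp 31 (.thr 22 23 (.thr 52 7 (.thr 28 24 (.thr 19 25 (.thr 18 17 (.thr 26 30 (.thr 48 15 (.thr 3 33 (.dbl 60 41 56))))))))) (.rp 30 (.thr 22 23 (.thr 52 7 (.thr 28 24 (.thr 26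 31 (.thr 48 15 (.thr 0 32 (.dbl 60 40 56))))))) (.rp 23 (.thr 26 31 (.thr 48 15 (.thr 0 32 (.thr 60 40 (.thr 52 56 (.thr 36 4 (.dbl 24 12 28))))))) (.rp 22 (.thr 26 31 (.thr 48 15 (.thr 0 32 (.thr 60 40 (.thr 52 56 (.thr 36 4 (.dbl 24 12 28))))))) .nd)))))))) (.rp 28 (.str 0 (.nv (.thr 22 23 (.thr 52 7 (.thr 60 40 (.thr 48 56 (.thr 16 32 (.dbl 26 15 31)))))) (.nv (.thr 22 23 (.thr 60 40 (.thr 3 41 (.thr 2 1 (.dbl 42 62 63))))) (.rp 60 (.thr 22 23 (.thr 52 7 (.thr 4 36 (.thr 12 8 (.thr 63 42 (.thr 29 46 (.thr 25 17 (.dbl 38 51 55)))))))) (.rp 40 (.thr 22 23 (.thr 52 7 (.thr 4 36 (.thr 12 8 (.thr 63 42 (.thr 29 46 (.thr 25 17 (.dbl 38 51 55)))))))) (.rp 23 (.thr 40 60 (.thr 42 63 (.thr 32 47 (.thr 48 16 (.thr 36 44 (.thr 12 24 (.dbl 4 8 52))))))) (.rp 22 (.thr 40 60 (.thr 42 63 (.thr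 32 47 (.thr 48 16 (.thr 36 44 (.thr 12 24 (.dbl 4 8 52))))))) .nd))))))) (.rp 27 (.str 0 (.nv (.thr 40 60 (.thr 42 63 (.thr 32 47 (.thr 36 44 (.thr 4 52 (.dbl 38 39 55)))))) (.nv (.thr 22 23 (.thr 52 7 (.thr 60 40 (.thr 48 56 (.thr 16 32 (.dbl 26 15 31)))))) (.nv (.thr 22 23 (.thr 60 40 (.thr 3 41 (.thr 2 1 (.dbl 42 62 63))))) (.rp 60 (.thr 22 23 (.thr 52 7 (.thr 4 36 (.thr 12 8 (.thr 63 42 (.thr 29 46 (.thr 25 17 (.dbl 38 51 55)))))))) (.rp 40 (.thr 22 23 (.thr 52 7 (.thr 4 36 (.thr 12 8 (.thr 63 42 (.thr 29 46 (.thr 25 17 (.dbl 38 51 55)))))))) (.rp 31 (.thr 60 40 (.thr 63 42 (.thr 61 62 (.thr 41 1 (.dbl 22 3 23))))) .nd))))))) (.rp 26 (.str 42 (.nv (.thr 0 63 (.thr 32 47 (.thr 40 60 (.thr 36 44 (.thr 4 52 (.dbl 38 39 55)))))) (.nv (.thr 22 23 (.thr 32 47 (.thr 52 7 (.thr 36 4 (.thr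 40 44 (.dbl 0 60 63)))))) (.nv (.thr 0 63 (.thr 60 40 (.thr 22 23 (.thr 2 62 (.dbl 3 1 41))))) (.rp 63 (.thr 32 47 (.thr 22 23 (.thr 52 7 (.thr 36 4 (.thr 40 44 (.thr 60 0 (.dbl 41 3 43))))))) (.rp 60 (.thr 63 0 (.thr 47 32 (.thr 23 22 (.thr 43 3 (.thr 41 40 (.thr 45 33 (.thr 44 46 (.dbl 35 38 39)))))))) (.rp 40 (.thr 63 0 (.thr 47 32 (.thr 23 22 (.thr 43 3 (.thr 39 35 (.thr 55 7 (.dbl 38 4 36))))))) (.rp 0 (.str 52 (.nv (.dbl 22 7 23) (.rp 23 (.thr 36 4 (.thr 32 47 (.thr 44 40 (.thr 38 39 (.thr 34 46 (.dbl 35 33 41)))))) (.rp 22 (.thr 36 4 (.thr 32 47 (.thr 44 40 (.thr 38 39 (.thr 34 46 (.dbl 35 33 41)))))) (.rp 15 (.str 5 (.nv (.dbl 22 7 23) (.rp 23 (.thr 4 36 (.dbl 7 6 22)) (.rp 22 (.thr 36 4 (.thr 38 39 (.thr 32 47 (.thr 44 40 (.thr 34 46 (.dbl 35 33 41)))))) (.rp 7 (.thr 36 4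 (.thr 38 39 (.thr 32 47 (.thr 44 40 (.thr 34 46 (.dbl 35 33 41)))))) .nd))))) (.rp 7 (.thr 36 4 (.thr 32 47 (.thr 44 40 (.thr 38 39 (.thr 34 46 (.dbl 35 33 41)))))) (.rp 5 (.str 15 (.nv (.dbl 22 7 23) (.rp 23 (.thr 36 4 (.thr 38 39 (.thr 32 47 (.thr 44 40 (.thr 34 46 (.dbl 35 33 41)))))) (.rp 22 (.thr 36 4 (.thr 38 39 (.thr 32 47 (.thr 44 40 (.thr 34 46 (.dbl 35 33 41)))))) (.rp 7 (.thr 23 22 (.thr 47 32 (.thr 31 63 (.thr 27 19 (.thr 39 51 (.dbl 36 4 38)))))) .nd))))) .nd))))))) .nd)))))))) (.rp 25 (.str 0 (.nv (.thr 40 60 (.thr 42 63 (.thr 32 47 (.thr 36 44 (.thr 4 52 (.dbl 38 39 55)))))) (.nv (.thr 22 23 (.thr 52 7 (.thr 60 40 (.thr 48 56 (.thr 16 32 (.dbl 26 15 31)))))) (.nv (.thr 22 23 (.thr 60 40 (.thr 41 3 (.thr 61 1 (.dbl 63 42 62))))) (.rp 60 (.thr 22 23 (.thr 7 52 (.thr 42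 63 (.thr 32 47 (.thr 48 16 (.thr 15 26 (.thr 3 11 (.dbl 2 1 62)))))))) (.rp 40 (.thr 22 23 (.thr 52 7 (.thr 42 63 (.thr 32 47 (.thr 48 16 (.thr 60 56 (.thr 3 41 (.dbl 2 1 62)))))))) .nd)))))) (.rp 24 (.str 0 (.nv (.thr 22 23 (.thr 7 52 (.thr 60 40 (.thr 3 41 (.thr 15 11 (.thr 30 45 (.dbl 26 18 48))))))) (.nv (.thr 40 60 (.thr 42 63 (.thr 32 47 (.thr 36 44 (.thr 4 52 (.dbl 38 39 55)))))) (.nv (.thr 22 23 (.thr 60 40 (.thr 3 41 (.thr 2 1 (.dbl 42 62 63))))) (.rp 60 (.thr 22 23 (.thr 52 7 (.thr 4 36 (.thr 12 8 (.thr 63 42 (.thr 29 46 (.thr 25 17 (.dbl 38 51 55)))))))) (.rp 56 (.thr 22 23 (.thr 42 63 (.thr 2 62 (.thr 3 1 (.dbl 60 40 41))))) (.rp 42 (.thr 22 23 (.thr 52 7 (.thr 60 40 (.thr 41 3 (.thr 45 33 (.thr 15 30 (.dbl 48 26 56))))))) (.rp 40 (.thr 22 23 (.thr 52 7 (.thr 42 63 (.thr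 32 47 (.thr 48 16 (.thr 2 62 (.thr 3 1 (.dbl 60 41 56)))))))) .nd)))))))) (.rp 23 (.str 36 (.nv (.thr 4 52 (.dbl 38 39 55)) (.rp 55 (.thr 52 4 (.str 32 (.nv (.thr 7 22 (.thr 42 47 (.thr 0 63 (.thr 48 16 (.dbl 60 40 56))))) (.nv (.thr 44 40 (.thr 47 42 (.thr 45 46 (.thr 41 33 (.dbl 38 35 39))))) (.nv (.thr 40 44 (.thr 0 60 (.dbl 42 47 63))) (.rp 47 (.thr 40 44 (.thr 60 0 (.thr 48 56 (.thr 15 26 (.thr 45 30 (.thr 41 33 (.dbl 22 3 7))))))) (.rp 42 (.thr 39 38 (.thr 22 7 (.thr 40 44 (.thr 60 0 (.thr 41 3 (.thr 45 33 (.thr 15 30 (.dbl 48 26 56)))))))) (.rp 40 (.thr 39 38 (.thr 22 7 (.thr 42 47 (.thr 0 63 (.thr 48 16 (.thr 2 62 (.thr 3 1 (.dbl 60 41 56)))))))) (.rp 7 (.thr 39 38 (.thr 40 44 (.thr 0 60 (.dbl 42 47 63)))) .nd))))))))) (.rp 54 (.thr 38 39 (.dbl 4 52 55)) (.rp 52 (.thr 38 39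 (.thr 55 4 (.str 32 (.nv (.thr 42 47 (.thr 46 34 (.thr 63 0 (.thr 12 29 (.dbl 51 25 59))))) (.nv (.thr 40 44 (.thr 0 60 (.dbl 42 47 63))) (.nv (.thr 44 40 (.thr 35 41 (.thr 42 47 (.dbl 34 33 46)))) (.rp 47 (.thr 40 44 (.thr 0 60 (.thr 48 16 (.thr 63 42 (.thr 51 59 (.dbl 12 24 25)))))) (.rp 42 (.thr 40 44 (.thr 0 60 (.thr 48 16 (.thr 12 24 (.thr 51 25 (.thr 50 49 (.dbl 26 14 15))))))) .nd)))))))) (.rp 39 (.thr 4 52 (.thr 55 38 (.str 48 (.nv (.thr 12 24 (.thr 0 8 (.thr 32 16 (.dbl 42 47 63)))) (.nv (.thr 24 12 (.thr 16 28 (.dbl 26 15 31))) (.rp 24 (.thr 26 15 (.thr 16 31 (.thr 0 32 (.thr 63 42 (.thr 51 59 (.thr 49 50 (.thr 25 13 (.dbl 17 29 34)))))))) (.rp 16 (.thr 12 24 (.thr 0 8 (.thr 40 60 (.thr 32 44 (.dbl 42 47 63))))) (.rp 12 (.thr 26 15 (.thr 16 31 (.thr 0 32 (.thr 24 28 (.thr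 63 42 (.thr 51 59 (.thr 49 50 (.dbl 25 13 27)))))))) .nd)))))))) (.rp 38 (.str 16 (.nv (.thr 24 28 (.thr 48 12 (.thr 0 32 (.thr 52 4 (.dbl 60 40 56))))) (.nv (.thr 26 31 (.thr 48 15 (.thr 0 32 (.thr 52 4 (.dbl 60 40 56))))) (.nv (.thr 24 28 (.thr 48 12 (.dbl 26 15 31))) (.rp 60 (.thr 24 28 (.thr 26 31 (.dbl 48 12 15))) (.rp 48 (.thr 52 4 (.thr 22 7 (.thr 28 24 (.thr 19 25 (.thr 18 17 (.dbl 26 30 31)))))) .nd)))))) (.rp 4 (.str 16 (.nv (.thr 24 28 (.thr 12 48 (.thr 26 31 (.thr 38 39 (.dbl 25 27 51))))) (.nv (.thr 24 28 (.thr 48 12 (.dbl 26 15 31))) (.rp 48 (.thr 38 39 (.thr 28 24 (.thr 31 26 (.thr 29 30 (.thr 25 17 (.thr 12 51 (.thr 60 44 (.thr 63 46 (.dbl 0 40 42))))))))) (.rp 31 (.thr 24 28 (.thr 48 12 (.thr 0 32 (.thr 15 26 (.thr 60 40 (.thr 52 56 (.thr 22 7 (.thr 41 3 (.dbl 45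 30 33))))))))) (.rp 28 (.thr 38 39 (.thr 26 31 (.thr 48 15 (.thr 12 24 (.thr 51 25 (.dbl 50 14 49)))))) (.rp 26 (.thr 24 28 (.thr 48 12 (.thr 0 32 (.thr 60 40 (.thr 52 56 (.thr 22 7 (.thr 41 3 (.thr 61 1 (.dbl 63 42 62))))))))) (.rp 24 (.thr 38 39 (.thr 26 31 (.thr 48 15 (.thr 0 32 (.thr 50 14 (.thr 51 49 (.thr 17 34 (.dbl 25 12 29)))))))) (.rp 12 (.thr 39 38 (.thr 24 28 (.thr 26 31 (.thr 15 48 (.dbl 27 25 51))))) .nd))))))))) .nd)))))))) (.rp 22 (.str 38 (.nv (.thr 36 39 (.dbl 4 52 55)) (.rp 55 (.thr 39 36 (.str 15 (.nv (.thr 26 48 (.thr 16 31 (.thr 24 28 (.dbl 27 25 51)))) (.nv (.thr 51 27 (.thr 25 12 (.thr 49 13 (.dbl 48 26 50)))) (.rp 54 (.str 52 (.nv (.thr 48 26 (.thr 60 56 (.thr 0 40 (.thr 32 16 (.dbl 42 47 63))))) (.nv (.thr 51 27 (.thr 25 12 (.thr 49 13 (.dbl 48 26 50))))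 (.rp 48 (.thr 51 27 (.thr 12 25 (.thr 14 13 (.thr 26 50 (.thr 31 16 (.thr 63 47 (.thr 46 29 (.dbl 42 0 34)))))))) (.rp 26 (.thr 51 27 (.thr 25 12 (.thr 49 13 (.thr 48 50 (.thr 17 29 (.thr 0 34 (.dbl 60 40 56))))))) (.rp 24 (.thr 51 27 (.thr 12 25 (.thr 26 48 (.dbl 14 13 50)))) .nd)))))) (.rp 52 (.str 54 (.nv (.thr 51 27 (.thr 60 57 (.thr 0 40 (.thr 34 17 (.dbl 42 46 63))))) (.nv (.thr 51 27 (.thr 25 12 (.thr 49 13 (.dbl 48 26 50)))) (.rp 51 (.thr 26 48 (.thr 50 14 (.thr 31 16 (.thr 63 47 (.thr 0 42 (.thr 60 40 (.dbl 62 58 61))))))) (.rp 49 (.thr 51 27 (.thr 12 25 (.thr 14 13 (.dbl 26 48 50)))) (.rp 27 (.thr 26 48 (.thr 14 50 (.thr 12 13 (.thr 51 25 (.thr 60 57 (.thr 28 44 (.dbl 16 24 31))))))) .nd)))))) (.rp 51 (.thr 26 48 (.thr 31 16 (.thr 63 47 (.thr 0 42 (.thr 60 40 (.thr 62 61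 (.thr 30 45 (.dbl 14 46 50)))))))) (.rp 48 (.thr 51 27 (.thr 12 25 (.thr 14 13 (.thr 26 50 (.thr 31 16 (.thr 63 47 (.thr 46 29 (.dbl 42 0 34)))))))) (.rp 27 (.thr 26 48 (.thr 31 16 (.thr 63 47 (.thr 14 50 (.thr 12 13 (.thr 29 46 (.dbl 25 17 51))))))) (.rp 26 (.thr 51 27 (.thr 25 12 (.thr 49 13 (.thr 48 50 (.thr 17 29 (.thr 0 34 (.thr 32 16 (.dbl 42 47 63)))))))) (.rp 25 (.thr 26 48 (.thr 31 16 (.thr 63 47 (.thr 14 50 (.thr 12 13 (.thr 46 29 (.dbl 42 0 34))))))) (.rp 24 (.thr 51 27 (.thr 12 25 (.thr 26 48 (.dbl 14 13 50)))) (.rp 12 (.thr 27 51 (.thr 26 48 (.thr 24 25 (.dbl 16 28 31)))) .nd))))))))))))) (.rp 52 (.thr 36 39 (.thr 55 4 (.str 32 (.nv (.thr 40 44 (.thr 0 60 (.dbl 42 47 63))) (.nv (.thr 42 47 (.thr 46 34 (.thr 63 0 (.thr 12 29 (.dbl 51 25 59))))) (.nv (.thr 44 40 (.thr 41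 35 (.thr 45 33 (.dbl 47 42 46)))) (.rp 47 (.thr 40 44 (.thr 0 60 (.thr 48 16 (.thr 63 42 (.thr 51 59 (.dbl 12 24 25)))))) (.rp 42 (.thr 40 44 (.thr 0 60 (.thr 48 16 (.thr 12 24 (.thr 51 25 (.thr 50 49 (.dbl 26 14 15))))))) .nd)))))))) (.rp 39 (.str 0 (.nv (.thr 40 60 (.thr 42 63 (.thr 32 47 (.thr 44 36 (.dbl 41 35 43))))) (.nv (.thr 4 55 (.thr 12 8 (.thr 60 40 (.thr 28 44 (.thr 24 16 (.dbl 36 48 52)))))) (.nv (.thr 55 4 (.thr 63 42 (.thr 51 59 (.thr 25 12 (.dbl 17 29 34))))) .nd)))) (.rp 36 (.str 0 (.nv (.thr 40 60 (.thr 42 63 (.thr 32 47 (.thr 41 43 (.thr 33 45 (.dbl 34 35 46)))))) (.nv (.thr 4 55 (.thr 12 8 (.thr 25 51 (.thr 29 17 (.dbl 63 42 46))))) (.rp 63 (.thr 4 55 (.thr 12 8 (.thr 51 25 (.thr 34 17 (.thr 60 40 (.thr 42 46 (.thr 32 47 (.thr 35 33 (.dbl 44 28 41))))))))) (.rp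 46 (.thr 55 4 (.thr 63 42 (.thr 51 59 (.thr 17 34 (.dbl 25 12 29))))) (.rp 42 (.thr 4 55 (.thr 12 8 (.thr 25 51 (.thr 29 17 (.thr 63 46 (.thr 13 49 (.thr 61 45 (.dbl 60 40 62)))))))) .nd)))))) (.rp 4 (.str 32 (.nv (.thr 42 47 (.thr 0 63 (.thr 34 46 (.thr 35 33 (.thr 40 60 (.dbl 41 43 44)))))) (.nv (.thr 36 39 (.thr 40 44 (.thr 0 60 (.dbl 42 47 63)))) (.nv (.thr 36 39 (.thr 44 40 (.thr 41 35 (.thr 45 33 (.dbl 47 42 46))))) (.rp 47 (.thr 36 39 (.thr 40 44 (.thr 0 60 (.thr 48 16 (.thr 63 42 (.thr 12 24 (.thr 25 51 (.dbl 29 17 46)))))))) (.rp 44 (.thr 36 39 (.thr 42 47 (.thr 0 63 (.thr 48 16 (.thr 12 24 (.thr 51 25 (.dbl 34 17 46))))))) (.rp 42 (.thr 36 39 (.thr 40 44 (.thr 0 60 (.thr 48 16 (.thr 12 24 (.thr 51 25 (.thr 50 49 (.dbl 26 14 15)))))))) (.rp 41 (.thr 36 39 (.thr 40 44 (.thr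 42 47 (.dbl 0 60 63)))) (.rp 40 (.thr 39 36 (.thr 47 42 (.thr 35 43 (.thr 41 44 (.dbl 33 34 45))))) .nd))))))))) .nd))))))) (.rp 19 (.str 0 (.nv (.thr 40 60 (.thr 42 63 (.thr 32 47 (.thr 36 44 (.thr 4 52 (.dbl 38 39 55)))))) (.nv (.thr 22 23 (.thr 52 7 (.thr 60 40 (.thr 48 56 (.thr 16 32 (.dbl 26 15 31)))))) (.nv (.thr 22 23 (.thr 60 40 (.thr 3 41 (.thr 2 1 (.dbl 42 62 63))))) (.rp 60 (.thr 22 23 (.thr 52 7 (.thr 4 36 (.thr 12 8 (.thr 63 42 (.thr 29 46 (.thr 25 17 (.dbl 38 51 55)))))))) (.rp 40 (.thr 22 23 (.thr 52 7 (.thr 4 36 (.thr 12 8 (.thr 63 42 (.thr 29 46 (.thr 25 17 (.dbl 38 51 55)))))))) (.rp 31 (.thr 60 40 (.thr 63 42 (.thr 61 62 (.thr 41 1 (.dbl 22 3 23))))) .nd))))))) (.rp 18 (.str 16 (.nv (.thr 24 28 (.thr 26 31 (.thr 48 15 (.thr 36 12 (.thr 4 52 (.dbl 38 39 55))))))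 (.nv (.thr 22 23 (.thr 26 31 (.thr 48 15 (.thr 0 32 (.thr 52 7 (.dbl 60 40 56)))))) (.nv (.thr 22 23 (.thr 24 28 (.thr 52 7 (.thr 36 4 (.thr 48 12 (.thr 0 32 (.dbl 60 40 56))))))) (.nv (.thr 22 23 (.thr 28 24 (.thr 25 19 (.thr 29 17 (.dbl 31 26 30))))) .nd))))) (.rp 17 (.str 0 (.nv (.thr 40 60 (.thr 42 63 (.thr 32 47 (.thr 36 44 (.thr 4 52 (.dbl 38 39 55)))))) (.nv (.thr 22 23 (.thr 52 7 (.thr 60 40 (.thr 48 56 (.thr 16 32 (.dbl 26 15 31)))))) (.nv (.thr 22 23 (.thr 60 40 (.thr 3 41 (.thr 42 63 (.dbl 2 1 62))))) (.rp 60 (.thr 22 23 (.thr 7 52 (.thr 42 63 (.thr 32 47 (.thr 48 16 (.thr 15 26 (.thr 3 11 (.dbl 2 1 62)))))))) (.rp 48 (.thr 22 23 (.thr 60 40 (.thr 3 41 (.thr 2 1 (.dbl 42 62 63))))) (.rp 40 (.thr 22 23 (.thr 52 7 (.thr 42 63 (.thr 32 47 (.thr 48 16 (.thr 60 56 (.thr 3 41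 (.dbl 2 1 62)))))))) .nd))))))) (.rp 16 (.str 0 (.nv (.thr 22 23 (.thr 7 52 (.thr 60 40 (.thr 3 41 (.thr 15 11 (.thr 30 45 (.dbl 26 18 48))))))) (.nv (.thr 40 60 (.thr 42 63 (.thr 32 47 (.thr 36 44 (.thr 4 52 (.dbl 38 39 55)))))) (.nv (.thr 22 23 (.thr 60 40 (.thr 3 41 (.thr 2 1 (.dbl 42 62 63))))) (.rp 60 (.thr 22 23 (.thr 52 7 (.thr 4 36 (.thr 12 8 (.thr 63 42 (.thr 29 46 (.thr 25 17 (.dbl 38 51 55)))))))) (.rp 42 (.thr 22 23 (.thr 52 7 (.thr 60 40 (.thr 41 3 (.thr 45 33 (.thr 15 30 (.dbl 48 26 56))))))) (.rp 40 (.thr 22 23 (.thr 52 7 (.thr 4 36 (.thr 12 8 (.thr 63 42 (.thr 29 46 (.thr 25 17 (.dbl 38 51 55)))))))) .nd))))))) (.rp 15 (.str 0 (.nv (.thr 22 23 (.thr 52 7 (.thr 36 4 (.thr 60 40 (.thr 48 56 (.thr 16 32 (.dbl 24 12 28))))))) (.nv (.thr 22 23 (.thr 60 40 (.thr 3 41 (.thr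 2 1 (.dbl 42 62 63))))) (.rp 60 (.thr 22 23 (.thr 52 7 (.thr 4 36 (.thr 12 8 (.thr 63 42 (.thr 29 46 (.thr 25 17 (.dbl 38 51 55)))))))) (.rp 40 (.thr 22 23 (.thr 52 7 (.thr 4 36 (.thr 12 8 (.thr 63 42 (.thr 29 46 (.thr 25 17 (.dbl 38 51 55)))))))) (.rp 23 (.thr 60 40 (.thr 63 42 (.thr 61 62 (.thr 41 1 (.thr 45 33 (.thr 29 13 (.thr 12 46 (.thr 28 44 (.thr 22 3 (.dbl 25 17 19)))))))))) (.rp 22 (.thr 40 60 (.thr 42 63 (.thr 47 32 (.thr 41 43 (.thr 61 1 (.thr 45 33 (.thr 29 13 (.thr 46 44 (.thr 17 25 (.dbl 34 38 51)))))))))) (.rp 3 (.thr 22 23 (.thr 60 40 (.thr 63 42 (.thr 61 62 (.thr 41 1 (.thr 45 33 (.thr 29 13 (.thr 12 46 (.thr 28 44 (.dbl 25 17 19)))))))))) .nd)))))))) (.rp 14 (.thr 22 23 (.str 42 (.nv (.thr 32 47 (.thr 52 7 (.thr 36 4 (.thr 40 44 (.dbl 0 60 63))))) (.nv (.thr 0 63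 (.thr 60 40 (.thr 3 41 (.dbl 2 1 62)))) (.rp 63 (.thr 52 7 (.thr 36 4 (.thr 32 47 (.thr 40 44 (.thr 60 0 (.dbl 41 3 43)))))) (.rp 60 (.thr 7 52 (.thr 0 63 (.thr 32 47 (.thr 48 16 (.thr 15 26 (.thr 3 11 (.dbl 2 1 62))))))) (.rp 40 (.thr 52 7 (.thr 63 0 (.thr 47 32 (.thr 15 31 (.thr 48 26 (.thr 60 56 (.dbl 62 2 61))))))) (.rp 6 (.thr 2 62 (.thr 0 63 (.thr 60 40 (.dbl 3 1 41)))) (.rp 2 (.str 6 (.nv (.thr 0 63 (.thr 32 47 (.thr 40 60 (.thr 36 44 (.dbl 38 39 54))))) (.nv (.thr 0 63 (.thr 32 47 (.thr 48 16 (.thr 60 40 (.dbl 52 7 56))))) (.nv (.thr 38 54 (.thr 52 7 (.dbl 4 36 55))) .nd)))) (.rp 0 (.thr 52 7 (.thr 36 4 (.thr 39 38 (.thr 47 32 (.thr 43 35 (.thr 41 40 (.thr 1 61 (.thr 33 45 (.thr 49 17 (.thr 13 25 (.thr 3 60 (.thr 48 18 (.thr 12 24 (.dbl 9 5 6)))))))))))))) .nd)))))))))) (.rp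 13 (.str 16 (.nv (.thr 22 23 (.thr 26 31 (.thr 48 15 (.thr 0 32 (.thr 52 7 (.dbl 60 40 56)))))) (.nv (.thr 22 23 (.thr 24 28 (.thr 52 7 (.thr 36 4 (.thr 48 12 (.thr 0 32 (.dbl 60 40 56))))))) (.nv (.thr 22 23 (.thr 28 24 (.thr 19 25 (.thr 26 31 (.dbl 18 17 30))))) (.rp 23 (.thr 24 28 (.thr 26 31 (.thr 48 15 (.thr 0 32 (.thr 12 36 (.thr 8 4 (.dbl 40 56 60))))))) (.rp 22 (.thr 24 28 (.thr 26 31 (.thr 48 15 (.thr 0 32 (.thr 12 36 (.thr 8 4 (.dbl 40 56 60))))))) .nd)))))) (.rp 12 (.str 0 (.nv (.thr 22 23 (.thr 52 7 (.thr 60 40 (.thr 48 56 (.thr 16 32 (.dbl 26 15 31)))))) (.nv (.thr 22 23 (.thr 60 40 (.thr 3 41 (.thr 2 1 (.dbl 42 62 63))))) (.rp 60 (.thr 22 23 (.thr 7 52 (.thr 42 63 (.thr 32 47 (.thr 48 16 (.thr 15 26 (.thr 3 11 (.dbl 2 1 62)))))))) (.rp 40 (.thr 22 23 (.thr 52 7 (.thr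 42 63 (.thr 32 47 (.thr 48 16 (.thr 60 56 (.thr 3 41 (.dbl 2 1 62)))))))) (.rp 23 (.thr 60 40 (.thr 63 42 (.thr 61 62 (.thr 41 1 (.thr 45 33 (.thr 15 30 (.thr 31 47 (.dbl 26 16 48)))))))) (.rp 22 (.thr 40 60 (.thr 42 63 (.thr 32 47 (.thr 44 36 (.thr 41 43 (.thr 33 45 (.dbl 35 34 38))))))) .nd))))))) (.rp 11 (.thr 22 23 (.str 16 (.nv (.thr 26 31 (.thr 48 15 (.thr 0 32 (.thr 60 40 (.dbl 52 7 56))))) (.nv (.thr 24 28 (.thr 52 7 (.thr 36 4 (.thr 48 12 (.thr 0 32 (.dbl 60 40 56)))))) (.nv (.thr 28 24 (.thr 19 25 (.thr 26 31 (.dbl 18 17 30)))) (.rp 9 (.str 8 (.nv (.thr 52 7 (.thr 4 36 (.thr 0 12 (.thr 48 32 (.dbl 60 40 56))))) (.nv (.thr 26 31 (.thr 18 30 (.thr 28 24 (.dbl 19 17 25)))) .nd))) (.rp 8 (.str 9 (.nv (.thr 24 28 (.thr 52 7 (.thr 36 4 (.thr 48 12 (.thr 0 32 (.dbl 60 40 56))))))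 (.nv (.thr 26 31 (.thr 18 30 (.thr 19 17 (.dbl 28 24 25)))) (.rp 28 (.thr 26 31 (.thr 48 15 (.thr 0 32 (.thr 60 40 (.dbl 52 7 56))))) (.rp 24 (.thr 52 7 (.thr 26 31 (.thr 18 30 (.thr 48 15 (.thr 3 33 (.dbl 60 41 56)))))) .nd))))) .nd))))))) (.rp 9 (.thr 22 23 (.thr 52 7 (.thr 4 36 (.thr 55 38 (.str 0 (.nv (.thr 60 40 (.thr 48 56 (.thr 26 15 (.dbl 16 31 32)))) (.nv (.thr 8 12 (.thr 42 63 (.thr 25 59 (.thr 28 19 (.thr 32 47 (.dbl 16 24 48)))))) (.nv (.thr 42 63 (.thr 2 62 (.thr 3 1 (.dbl 60 40 41)))) (.nv (.thr 60 40 (.thr 48 56 (.thr 32 16 (.dbl 42 47 63)))) (.rp 48 (.thr 60 40 (.thr 3 41 (.thr 2 1 (.dbl 42 62 63)))) (.rp 8 (.str 11 (.nv (.thr 60 40 (.thr 3 41 (.thr 2 1 (.dbl 42 62 63)))) (.nv (.thr 42 63 (.thr 2 62 (.thr 3 1 (.dbl 60 40 41)))) (.nv (.thr 60 40 (.thr 56 48 (.dbl 41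 3 26))) (.rp 63 (.thr 60 40 (.thr 3 41 (.thr 2 1 (.thr 42 62 (.thr 32 47 (.dbl 48 16 56)))))) (.rp 60 (.str 17 (.nv (.thr 51 34 (.dbl 63 42 59)) (.rp 63 (.thr 25 29 (.thr 19 28 (.thr 16 18 (.thr 48 32 (.dbl 26 15 31))))) (.rp 59 (.thr 25 29 (.thr 49 13 (.thr 1 33 (.thr 2 3 (.dbl 42 62 63))))) (.rp 51 (.thr 25 29 (.thr 49 13 (.thr 1 33 (.thr 2 3 (.dbl 42 62 63))))) (.rp 46 (.thr 25 29 (.thr 49 13 (.thr 1 33 (.thr 2 3 (.dbl 42 62 63))))) (.rp 42 (.thr 25 29 (.thr 19 28 (.thr 16 18 (.thr 48 32 (.dbl 26 15 31))))) (.rp 34 (.thr 25 29 (.thr 49 13 (.thr 1 33 (.thr 2 3 (.dbl 42 62 63))))) .nd)))))))) (.rp 41 (.thr 42 63 (.thr 32 47 (.thr 48 16 (.dbl 60 40 56)))) (.rp 40 (.thr 42 63 (.thr 32 47 (.thr 48 16 (.thr 56 60 (.dbl 26 15 41))))) (.rp 3 (.thr 63 42 (.thr 60 40 (.thr 56 48 (.thr 61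 62 (.dbl 41 1 26))))) .nd))))))))) .nd))))))))))) (.rp 8 (.thr 22 23 (.thr 52 7 (.thr 4 36 (.thr 55 38 (.str 26 (.nv (.thr 16 31 (.thr 48 15 (.thr 0 32 (.dbl 60 40 56)))) (.nv (.thr 18 30 (.thr 48 15 (.thr 3 33 (.dbl 60 41 56)))) (.nv (.thr 18 30 (.thr 16 31 (.thr 19 17 (.dbl 28 24 25)))) (.rp 11 (.str 9 (.nv (.thr 18 30 (.thr 48 15 (.thr 3 33 (.dbl 60 41 56)))) (.nv (.thr 18 30 (.thr 16 31 (.thr 19 17 (.dbl 28 24 25)))) (.rp 30 (.thr 15 48 (.thr 31 16 (.thr 63 47 (.thr 0 42 (.thr 60 40 (.thr 41 3 (.dbl 61 1 62))))))) (.rp 18 (.thr 15 48 (.thr 31 16 (.thr 63 47 (.thr 0 42 (.thr 60 40 (.thr 45 30 (.dbl 41 3 33))))))) (.rp 15 (.str 3 (.nv (.thr 16 31 (.thr 28 24 (.thr 19 25 (.dbl 18 17 30)))) (.nv (.thr 12 6 (.thr 16 31 (.thr 60 41 (.dbl 28 24 44)))) (.nv (.thr 18 30 (.thr 48 33 (.dbl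 60 41 56))) (.rp 5 (.str 0 (.nv (.thr 2 1 (.dbl 42 62 63)) (.nv (.dbl 60 40 41) .nd))) (.rp 0 (.str 5 (.nv (.thr 16 31 (.thr 28 24 (.thr 19 25 (.dbl 18 17 30)))) (.nv (.thr 1 13 (.dbl 41 60 61)) (.rp 12 (.thr 41 60 (.dbl 1 13 61)) .nd)))) .nd)))))) (.rp 3 (.thr 15 48 (.thr 16 31 (.thr 18 30 (.thr 19 17 (.dbl 28 24 25))))) .nd))))))) (.rp 9 (.str 11 (.nv (.thr 16 31 (.thr 18 30 (.thr 19 17 (.dbl 28 24 25)))) (.nv (.thr 48 15 (.dbl 56 41 60)) .nd))) .nd)))))))))) (.rp 7 (.str 60 (.nv (.thr 0 40 (.thr 63 42 (.thr 61 62 (.thr 41 1 (.dbl 22 3 23))))) (.nv (.thr 0 40 (.thr 22 23 (.thr 41 3 (.thr 63 42 (.dbl 61 1 62))))) (.nv (.thr 22 23 (.thr 0 40 (.thr 3 41 (.thr 2 1 (.dbl 42 62 63))))) (.rp 63 (.thr 22 23 (.thr 0 40 (.thr 3 41 (.thr 2 1 (.thr 42 62 (.thr 32 47 (.thr 48 16 (.thr 18 33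 (.dbl 26 15 30))))))))) (.rp 62 (.thr 22 23 (.thr 0 40 (.thr 63 42 (.thr 41 3 (.thr 45 33 (.thr 15 30 (.thr 31 47 (.dbl 26 16 48)))))))) (.rp 42 (.thr 22 23 (.thr 41 3 (.thr 61 1 (.thr 63 62 (.thr 45 33 (.thr 15 30 (.thr 31 47 (.dbl 26 16 48)))))))) (.rp 41 (.thr 22 23 (.thr 0 40 (.thr 42 63 (.thr 2 62 (.thr 3 1 (.thr 32 47 (.thr 48 16 (.thr 18 33 (.dbl 26 15 30))))))))) (.rp 40 (.thr 22 23 (.thr 41 3 (.thr 61 1 (.thr 63 62 (.thr 45 33 (.thr 15 30 (.thr 31 47 (.dbl 26 16 48)))))))) (.rp 23 (.thr 0 40 (.thr 63 42 (.thr 61 62 (.thr 41 1 (.thr 45 33 (.thr 15 30 (.thr 31 47 (.dbl 26 16 48)))))))) (.rp 22 (.thr 0 40 (.thr 42 63 (.thr 32 47 (.thr 48 16 (.thr 52 56 (.thr 4 36 (.thr 38 55 (.thr 34 46 (.thr 51 17 (.dbl 12 8 25)))))))))) (.rp 3 (.thr 0 40 (.thr 63 42 (.thr 61 62 (.thr 41 1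 (.thr 45 33 (.thr 15 30 (.thr 31 47 (.dbl 26 16 48)))))))) (.rp 1 (.thr 22 23 (.thr 0 40 (.thr 63 42 (.thr 41 3 (.thr 45 33 (.thr 15 30 (.thr 31 47 (.dbl 26 16 48)))))))) (.rp 0 (.thr 22 23 (.thr 41 3 (.thr 45 33 (.thr 15 30 (.thr 48 26 (.thr 52 56 (.thr 36 4 (.thr 12 24 (.thr 13 14 (.dbl 61 1 29)))))))))) .nd)))))))))))))) (.rp 6 (.thr 22 23 (.thr 52 7 (.thr 4 36 (.thr 55 38 (.str 60 (.nv (.thr 0 40 (.thr 3 41 (.thr 2 1 (.dbl 42 62 63)))) (.nv (.thr 3 41 (.thr 48 56 (.thr 18 33 (.dbl 26 15 30)))) (.nv (.thr 48 56 (.thr 0 40 (.thr 32 16 (.dbl 42 47 63)))) (.rp 14 (.str 2 (.nv (.thr 3 41 (.thr 48 56 (.thr 18 33 (.dbl 26 15 30)))) (.nv (.thr 42 62 (.dbl 0 40 63)) (.rp 50 (.str 26 (.nv (.thr 0 40 (.dbl 3 1 41)) (.nv (.dbl 48 15 56) .nd))) (.rp 30 (.thr 0 40 (.dbl 3 1 41)) (.rp 26 (.str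 50 (.nv (.thr 3 41 (.thr 18 34 (.dbl 48 33 56))) (.nv (.thr 42 62 (.dbl 0 40 63)) (.rp 46 (.thr 0 40 (.dbl 3 1 41)) (.rp 42 (.str 58 (.nv (.thr 54 62 (.thr 51 57 (.dbl 48 49 56))) (.nv (.thr 0 40 (.dbl 3 1 41)) (.rp 46 (.thr 34 18 (.thr 0 40 (.dbl 3 1 41))) (.rp 34 (.str 46 (.nv (.thr 54 62 (.thr 51 57 (.dbl 48 49 56))) (.nv (.thr 0 40 (.dbl 3 1 41)) .nd))) .nd))))) .nd))))) .nd)))))) (.rp 2 (.str 14 (.nv (.thr 0 40 (.thr 41 3 (.thr 61 1 (.dbl 63 42 62)))) (.nv (.thr 3 41 (.thr 48 56 (.thr 18 33 (.dbl 26 15 30)))) (.nv (.thr 48 56 (.thr 0 40 (.thr 32 16 (.dbl 42 47 63)))) .nd)))) .nd)))))))))) (.rp 5 (.str 0 (.nv (.thr 40 60 (.thr 42 63 (.thr 32 47 (.thr 36 44 (.thr 4 52 (.dbl 38 39 55)))))) (.nv (.thr 22 23 (.thr 52 7 (.thr 60 40 (.thr 48 56 (.thr 16 32 (.dbl 26 15 31)))))) (.nv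 (.thr 22 23 (.thr 60 40 (.thr 3 41 (.thr 42 63 (.dbl 2 1 62))))) (.rp 60 (.thr 22 23 (.thr 52 7 (.thr 4 36 (.thr 12 8 (.thr 63 42 (.thr 29 46 (.thr 25 17 (.dbl 38 51 55)))))))) (.rp 48 (.thr 22 23 (.thr 60 40 (.thr 3 41 (.thr 2 1 (.dbl 42 62 63))))) (.rp 40 (.thr 22 23 (.thr 52 7 (.thr 4 36 (.thr 12 8 (.thr 63 42 (.thr 29 46 (.thr 25 17 (.dbl 38 51 55)))))))) .nd))))))) (.rp 4 (.str 0 (.nv (.thr 22 23 (.thr 52 7 (.thr 60 40 (.thr 48 56 (.thr 16 32 (.dbl 26 15 31)))))) (.nv (.thr 22 23 (.thr 60 40 (.thr 3 41 (.thr 2 1 (.dbl 42 62 63))))) (.rp 60 (.thr 22 23 (.thr 7 52 (.thr 42 63 (.thr 32 47 (.thr 48 16 (.thr 15 26 (.thr 3 11 (.dbl 2 1 62)))))))) (.rp 40 (.thr 22 23 (.thr 52 7 (.thr 42 63 (.thr 32 47 (.thr 48 16 (.thr 60 56 (.thr 3 41 (.dbl 2 1 62)))))))) (.rp 23 (.thr 60 40 (.thr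 63 42 (.thr 61 62 (.thr 41 1 (.thr 45 33 (.thr 15 30 (.thr 31 47 (.dbl 26 16 48)))))))) (.rp 22 (.thr 40 60 (.thr 42 63 (.thr 32 47 (.thr 44 36 (.thr 41 43 (.thr 33 45 (.dbl 35 34 38))))))) .nd))))))) (.rp 3 (.str 16 (.nv (.thr 22 23 (.thr 26 31 (.thr 48 15 (.thr 0 32 (.thr 60 40 (.dbl 52 7 56)))))) (.nv (.thr 24 28 (.thr 26 31 (.thr 48 15 (.thr 36 12 (.thr 4 52 (.dbl 38 39 55)))))) (.nv (.thr 22 23 (.thr 24 28 (.thr 52 7 (.thr 36 4 (.thr 48 12 (.thr 0 32 (.dbl 60 40 56))))))) (.nv (.thr 22 23 (.thr 28 24 (.thr 19 25 (.thr 26 31 (.dbl 18 17 30))))) (.rp 63 (.thr 28 24 (.thr 31 26 (.thr 29 30 (.thr 25 17 (.dbl 22 19 23))))) .nd)))))) (.rp 2 (.thr 22 23 (.thr 52 7 (.thr 4 36 (.thr 55 38 (.str 60 (.nv (.thr 0 40 (.thr 41 3 (.thr 61 1 (.dbl 63 42 62)))) (.nv (.thr 3 41 (.thr 48 56 (.thr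 18 33 (.dbl 26 15 30)))) (.nv (.thr 48 56 (.thr 0 40 (.thr 32 16 (.dbl 42 47 63)))) (.rp 14 (.str 6 (.nv (.thr 0 40 (.thr 3 41 (.dbl 12 8 9))) (.nv (.thr 3 41 (.thr 48 56 (.thr 18 33 (.dbl 26 15 30)))) (.nv (.thr 48 56 (.thr 0 40 (.thr 32 16 (.dbl 42 47 63)))) (.rp 50 (.str 26 (.nv (.thr 0 40 (.thr 3 41 (.dbl 12 8 9))) (.nv (.dbl 48 15 56) (.rp 34 (.thr 18 30 (.dbl 48 15 56)) (.rp 18 (.str 34 (.nv (.thr 0 40 (.thr 3 41 (.dbl 12 8 9))) (.nv (.dbl 48 15 56) .nd))) .nd))))) (.rp 26 (.str 50 (.nv (.thr 0 40 (.thr 42 63 (.thr 32 47 (.dbl 48 16 56)))) (.nv (.thr 41 3 (.thr 1 61 (.thr 33 45 (.thr 48 56 (.dbl 49 17 51))))) (.nv (.thr 0 40 (.thr 12 8 (.dbl 3 9 41))) (.rp 58 (.str 42 (.nv (.thr 63 0 (.thr 61 62 (.dbl 41 1 3))) (.nv (.dbl 0 40 63) (.rp 63 (.thr 48 56 (.thr 32 47 (.dbl 0 16 40)))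 (.rp 0 (.thr 48 56 (.thr 49 51 (.thr 41 3 (.thr 1 61 (.dbl 33 17 45))))) .nd))))) (.rp 56 (.thr 0 40 (.thr 41 3 (.thr 61 1 (.dbl 63 42 62)))) (.rp 42 (.str 58 (.nv (.thr 0 40 (.thr 12 8 (.dbl 3 9 41))) (.nv (.thr 54 62 (.thr 56 48 (.dbl 57 51 59))) (.nv (.thr 62 54 (.thr 61 63 (.dbl 41 1 3))) (.rp 46 (.str 34 (.nv (.thr 56 48 (.thr 57 59 (.dbl 54 51 62))) (.nv (.thr 0 40 (.thr 48 56 (.dbl 51 17 49))) (.nv (.thr 62 54 (.thr 61 63 (.dbl 41 1 3))) (.rp 62 (.str 30 (.nv (.thr 41 3 (.thr 1 61 (.dbl 45 15 33))) (.nv (.thr 56 48 (.thr 57 59 (.thr 51 54 (.dbl 0 17 40)))) (.nv (.thr 45 15 (.dbl 41 3 33)) .nd)))) .nd))))) (.rp 34 (.str 46 (.nv (.thr 0 40 (.thr 12 8 (.dbl 3 9 41))) (.nv (.thr 54 62 (.thr 51 57 (.dbl 48 49 56))) (.rp 56 (.thr 62 54 (.thr 61 63 (.dbl 41 1 3))) .nd)))) .nd))))))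 (.rp 3 (.thr 48 56 (.thr 51 49 (.thr 0 40 (.dbl 63 42 59)))) .nd)))))))) .nd)))))) (.rp 6 (.str 14 (.nv (.thr 0 40 (.thr 41 3 (.thr 61 1 (.dbl 63 42 62)))) (.nv (.thr 3 41 (.thr 48 56 (.thr 18 33 (.dbl 26 15 30)))) (.nv (.thr 48 56 (.thr 0 40 (.thr 32 16 (.dbl 42 47 63)))) .nd)))) .nd)))))))))) (.rp 1 (.str 16 (.nv (.thr 24 28 (.thr 26 31 (.thr 48 15 (.thr 36 12 (.thr 4 52 (.dbl 38 39 55)))))) (.nv (.thr 22 23 (.thr 26 31 (.thr 48 15 (.thr 0 32 (.thr 52 7 (.dbl 60 40 56)))))) (.nv (.thr 22 23 (.thr 24 28 (.thr 52 7 (.thr 36 4 (.thr 48 12 (.thr 0 32 (.dbl 60 40 56))))))) (.nv (.thr 22 23 (.thr 28 24 (.thr 19 25 (.thr 26 31 (.dbl 18 17 30))))) .nd))))) (.rp 0 (.thr 22 23 (.str 15 (.nv (.thr 26 48 (.thr 18 30 (.thr 16 31 (.thr 19 17 (.dbl 28 24 25))))) (.nv (.thr 7 52 (.thr 3 11 (.thr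 60 41 (.thr 30 45 (.dbl 26 18 48))))) (.rp 48 (.thr 7 52 (.thr 3 11 (.thr 60 41 (.thr 30 45 (.thr 26 18 (.thr 16 31 (.thr 28 24 (.thr 12 44 (.thr 13 14 (.dbl 25 19 49)))))))))) (.rp 30 (.thr 7 52 (.thr 3 11 (.thr 41 60 (.thr 33 45 (.dbl 48 18 26))))) (.rp 26 (.thr 7 52 (.thr 3 11 (.thr 41 60 (.thr 33 45 (.thr 1 61 (.thr 49 17 (.thr 13 25 (.thr 12 14 (.dbl 9 5 6))))))))) (.rp 18 (.thr 52 7 (.thr 48 26 (.thr 60 56 (.thr 45 30 (.dbl 41 3 33))))) .nd)))))))) .nd))))))))))))))))))))))))))))))))))))))))))))))))))))))))))))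

theorem w388 : WinAt (137441050624, 9007199254742016) :=
  chF (K := [(137442099216, 9232660711086228480)]) (kc w382 kn) c388 137441050624 9007199254742016 53
    [] (by decide +kernel) (by decide +kernel)

/-- A certificate. -/
noncomputable def c389 : Ct := (.str 1 (.nv (.thr 53 5 (.thr 61 41 (.thr 49 57 (.thr 25 13 (.dbl 17 29 33))))) (.nv (.thr 41 61 (.thr 33 45 (.thr 49 17 (.thr 13 25 (.dbl 5 9 53))))) (.rp 61 (.str 0 (.nv (.thr 3 2 (.thr 42 63 (.thr 32 47 (.thr 48 16 (.thr 33 18 (.thr 34 35 (.dbl 17 49 51))))))) (.nv (.thr 53 5 (.thr 63 42 (.thr 48 58 (.thr 26 15 (.dbl 16 31 32))))) (.rp 63 (.thr 5 53 (.thr 13 9 (.thr 49 25 (.thr 17 33 (.thr 51 34 (.thr 48 50 (.thr 26 15 (.dbl 16 31 32)))))))) (.rp 62 (.thr 5 53 (.thr 13 9 (.thr 49 25 (.thr 33 17 (.thr 3 2 (.thr 48 18 (.thr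 16 32 (.dbl 26 15 31)))))))) (.rp 48 (.thr 5 53 (.thr 9 13 (.thr 3 2 (.thr 6 12 (.thr 7 4 (.thr 63 42 (.thr 23 43 (.dbl 22 20 52)))))))) (.rp 42 (.thr 5 53 (.thr 13 9 (.thr 49 25 (.thr 17 33 (.thr 51 34 (.thr 48 50 (.thr 26 15 (.dbl 16 31 32)))))))) (.rp 32 (.thr 5 53 (.thr 9 13 (.thr 3 2 (.thr 6 12 (.thr 7 4 (.thr 63 42 (.thr 23 43 (.dbl 22 20 52)))))))) (.rp 31 (.thr 5 53 (.thr 13 9 (.thr 49 25 (.thr 17 33 (.thr 51 34 (.thr 48 50 (.thr 32 16 (.dbl 42 47 63)))))))) (.rp 16 (.thr 5 53 (.thr 9 13 (.thr 3 2 (.thr 6 12 (.thr 7 4 (.thr 63 42 (.thr 23 43 (.dbl 22 20 52)))))))) (.rp 15 (.thr 5 53 (.thr 13 9 (.thr 49 25 (.thr 17 33 (.thr 51 34 (.thr 48 50 (.thr 32 16 (.dbl 42 47 63)))))))) .nd))))))))))) (.rp 53 (.thr 41 61 (.thr 33 45 (.thr 49 17 (.thr 13 25 (.str 22 (.nv (.thr 52 7 (.thr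 3 60 (.thr 23 20 (.thr 63 43 (.dbl 0 2 42))))) (.nv (.thr 3 60 (.thr 0 2 (.thr 48 18 (.thr 16 32 (.dbl 26 15 31))))) (.nv (.thr 5 9 (.thr 23 20 (.thr 7 52 (.thr 55 39 (.dbl 4 6 38))))) (.rp 52 (.str 55 (.nv (.thr 3 60 (.thr 0 2 (.thr 48 18 (.thr 16 32 (.dbl 26 15 31))))) (.nv (.thr 23 20 (.thr 39 7 (.dbl 38 4 36))) .nd))) .nd))))))))) (.rp 49 (.str 0 (.nv (.thr 3 2 (.thr 41 61 (.thr 33 45 (.thr 48 18 (.thr 16 32 (.dbl 26 15 31)))))) (.nv (.thr 3 2 (.thr 41 61 (.thr 42 63 (.thr 60 22 (.dbl 40 20 43))))) (.nv (.thr 53 5 (.thr 63 42 (.thr 48 58 (.thr 26 15 (.dbl 16 31 32))))) (.rp 53 (.thr 3 2 (.thr 63 42 (.thr 23 43 (.thr 22 20 (.dbl 41 60 61))))) .nd))))) (.rp 41 (.str 16 (.nv (.thr 53 5 (.thr 26 31 (.thr 48 15 (.thr 0 32 (.dbl 63 42 58))))) (.rp 63 (.thr 5 53 (.thr 13 9 (.thr 25 49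 (.thr 17 29 (.thr 19 18 (.thr 28 22 (.thr 24 20 (.dbl 26 27 31)))))))) (.rp 58 (.thr 5 53 (.thr 13 9 (.thr 25 49 (.thr 17 29 (.thr 19 18 (.thr 28 22 (.thr 24 20 (.dbl 26 27 31)))))))) (.rp 53 (.thr 26 31 (.thr 48 15 (.thr 0 32 (.thr 3 2 (.thr 18 33 (.thr 22 30 (.thr 23 20 (.dbl 63 42 43)))))))) (.rp 48 (.thr 5 53 (.thr 13 9 (.thr 25 49 (.thr 17 29 (.thr 19 18 (.thr 28 22 (.thr 24 20 (.dbl 26 27 31)))))))) (.rp 47 (.thr 5 53 (.thr 13 9 (.thr 25 49 (.thr 17 29 (.thr 19 18 (.thr 28 22 (.thr 24 20 (.dbl 26 27 31)))))))) (.rp 42 (.thr 5 53 (.thr 13 9 (.thr 25 49 (.thr 17 29 (.thr 19 18 (.thr 28 22 (.thr 24 20 (.dbl 26 27 31)))))))) (.rp 32 (.thr 5 53 (.thr 13 9 (.thr 25 49 (.thr 17 29 (.thr 19 18 (.thr 28 22 (.thr 24 20 (.dbl 26 27 31)))))))) (.rp 31 (.thr 5 53 (.thr 13 9 (.thr 25 49 (.thr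 17 29 (.thr 19 18 (.thr 28 22 (.thr 24 20 (.thr 26 27 (.thr 48 15 (.thr 12 36 (.thr 0 32 (.dbl 51 34 38)))))))))))) (.rp 26 (.thr 5 53 (.thr 13 9 (.thr 25 49 (.thr 17 29 (.thr 19 18 (.thr 22 28 (.thr 23 20 (.thr 7 52 (.thr 55 39 (.dbl 4 6 38)))))))))) (.rp 15 (.thr 5 53 (.thr 13 9 (.thr 25 49 (.thr 17 29 (.thr 19 18 (.thr 28 22 (.thr 24 20 (.dbl 26 27 31)))))))) (.rp 5 (.thr 26 31 (.thr 48 15 (.thr 0 32 (.thr 3 2 (.thr 18 33 (.thr 22 30 (.thr 23 20 (.dbl 63 42 43)))))))) (.rp 0 (.thr 5 53 (.thr 13 9 (.thr 25 49 (.thr 17 29 (.thr 19 18 (.thr 28 22 (.thr 24 20 (.dbl 26 27 31)))))))) .nd)))))))))))))) (.rp 33 (.thr 5 53 (.thr 13 9 (.thr 25 49 (.thr 29 17 (.dbl 61 41 45))))) (.rp 29 (.thr 5 53 (.thr 13 9 (.thr 49 25 (.thr 33 17 (.dbl 41 45 61))))) (.rp 25 (.str 16 (.nv (.thr 26 31 (.thr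 41 61 (.thr 33 45 (.thr 17 49 (.thr 18 19 (.thr 3 48 (.dbl 22 30 60))))))) (.nv (.thr 53 5 (.thr 26 31 (.thr 48 15 (.thr 0 32 (.dbl 63 42 58))))) (.rp 53 (.thr 41 61 (.thr 33 45 (.thr 26 31 (.thr 48 15 (.thr 0 32 (.dbl 3 2 18)))))) (.rp 48 (.thr 41 61 (.thr 33 45 (.thr 17 49 (.thr 18 19 (.thr 26 31 (.thr 22 30 (.thr 23 20 (.thr 7 52 (.thr 55 39 (.thr 4 38 (.dbl 5 6 53))))))))))) (.rp 31 (.thr 53 5 (.thr 41 61 (.thr 33 45 (.thr 17 49 (.thr 18 19 (.thr 48 3 (.thr 0 32 (.dbl 63 42 58)))))))) (.rp 26 (.thr 53 5 (.thr 41 61 (.thr 33 45 (.thr 17 49 (.thr 18 19 (.thr 48 3 (.thr 0 32 (.dbl 63 42 58)))))))) .nd))))))) (.rp 17 (.str 0 (.nv (.thr 3 2 (.thr 41 61 (.thr 33 45 (.thr 48 18 (.thr 16 32 (.dbl 26 15 31)))))) (.nv (.thr 3 2 (.thr 41 61 (.thr 42 63 (.thr 60 22 (.dbl 40 20 43))))) (.nv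 (.thr 53 5 (.thr 63 42 (.thr 48 58 (.thr 26 15 (.dbl 16 31 32))))) .nd)))) (.rp 13 (.str 0 (.nv (.thr 3 2 (.thr 41 61 (.thr 42 63 (.thr 60 22 (.dbl 40 20 43))))) (.nv (.thr 53 5 (.thr 63 42 (.thr 48 58 (.thr 26 15 (.dbl 16 31 32))))) (.rp 63 (.thr 41 61 (.thr 45 33 (.thr 3 2 (.thr 60 22 (.thr 15 30 (.thr 11 7 (.dbl 26 48 56))))))) (.rp 42 (.thr 5 53 (.thr 41 61 (.thr 3 2 (.thr 22 60 (.thr 23 20 (.thr 7 52 (.thr 55 39 (.dbl 4 6 38)))))))) (.rp 14 (.thr 41 61 (.thr 42 63 (.thr 40 43 (.thr 60 20 (.dbl 3 2 22))))) .nd)))))) (.rp 5 (.str 0 (.nv (.thr 41 61 (.thr 33 45 (.thr 17 49 (.thr 34 51 (.thr 42 63 (.dbl 32 35 47)))))) (.nv (.thr 3 2 (.thr 41 61 (.thr 33 45 (.thr 48 18 (.thr 16 32 (.dbl 26 15 31)))))) (.nv (.thr 41 61 (.thr 42 63 (.thr 40 43 (.thr 60 20 (.dbl 3 2 22))))) (.rp 61 (.thr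 3 2 (.thr 42 63 (.thr 32 47 (.thr 48 16 (.thr 33 18 (.thr 17 49 (.dbl 34 35 51))))))) (.rp 41 (.thr 3 2 (.thr 42 63 (.thr 32 47 (.thr 48 16 (.thr 33 18 (.thr 17 49 (.dbl 34 35 51))))))) .nd)))))) .nd)))))))))))))

theorem w389 : WinAt (137441050624, 18014398509483008) :=
  chF (K := []) kn c389 137441050624 18014398509483008 54
    [] (by decide +kernel) (by decide +kernel)

/-- A certificate. -/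
noncomputable def c390 : Ct := (.str 48 (.nv (.thr 63 58 (.thr 0 42 (.thr 26 15 (.dbl 16 31 32)))) (.rp 63 (.str 51 (.nv (.thr 15 26 (.thr 39 27 (.thr 38 36 (.thr 49 50 (.dbl 25 12 13))))) (.nv (.thr 49 50 (.thr 61 57 (.thr 1 41 (.thr 25 13 (.dbl 17 29 33))))) (.rp 50 (.thr 15 26 (.thr 39 27 (.thr 38 36 (.thr 25 12 (.thr 49 13 (.thr 61 57 (.thr 1 41 (.dbl 17 29 33)))))))) (.rp 49 (.str 32 (.nv (.thr 0 16 (.thr 15 26 (.thr 39 27 (.thr 36 38 (.thr 24 12 (.thr 40 44 (.thr 56 8 (.dbl 60 20 52)))))))) (.nv (.thr 0 16 (.thr 34 17 (.thr 33 35 (.thr 41 45 (.thr 1 61 (.dbl 3 2 18)))))) (.nv (.thr 0 16 (.thr 15 26 (.thr 42 47 (.thr 39 27 (.thr 38 36 (.dbl 34 17 46)))))) (.rp 16 (.thr 42 47 (.thr 15 26 (.thr 39 27 (.thr 38 36 (.thr 34 46 (.thr 17 0 (.dbl 25 12 29))))))) (.rp 0 (.thr 15 26 (.thr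 42 47 (.thr 39 27 (.thr 36 38 (.thr 40 44 (.thr 41 43 (.thr 45 33 (.thr 60 30 (.thr 52 56 (.dbl 22 3 7)))))))))) .nd)))))) (.rp 25 (.thr 49 50 (.thr 61 57 (.thr 41 1 (.thr 33 45 (.thr 3 18 (.thr 22 60 (.thr 7 52 (.dbl 15 11 26)))))))) (.rp 15 (.str 0 (.nv (.thr 17 34 (.thr 49 50 (.thr 1 33 (.dbl 61 41 57)))) (.nv (.thr 49 50 (.thr 13 25 (.thr 61 57 (.thr 41 1 (.dbl 45 29 33))))) (.nv (.thr 49 50 (.thr 17 34 (.dbl 25 13 29))) (.rp 50 (.thr 17 34 (.thr 25 29 (.thr 49 13 (.thr 1 33 (.dbl 61 41 57))))) (.rp 49 (.thr 32 16 (.thr 17 34 (.thr 25 29 (.thr 12 38 (.thr 8 4 (.dbl 42 47 59)))))) (.rp 47 (.str 31 (.nv (.thr 17 34 (.thr 25 29 (.dbl 49 13 50))) (.nv (.dbl 16 26 32) .nd))) (.rp 31 (.str 47 (.nv (.thr 17 34 (.thr 25 29 (.dbl 49 13 50))) (.nv (.dbl 32 16 42) .nd))) .nd)))))))) (.rp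 13 (.thr 49 50 (.thr 61 57 (.thr 1 41 (.thr 17 33 (.thr 0 34 (.thr 26 15 (.dbl 16 31 32))))))) .nd)))))))) (.rp 58 (.thr 26 15 (.str 0 (.nv (.dbl 16 31 32) (.rp 32 (.str 3 (.nv (.thr 1 2 (.thr 41 61 (.thr 56 11 (.dbl 60 22 52)))) (.nv (.thr 18 33 (.thr 22 30 (.thr 23 20 (.dbl 63 42 43)))) (.nv (.thr 1 2 (.thr 41 61 (.dbl 33 18 45))) .nd)))) (.rp 31 (.thr 32 16 (.dbl 42 47 63)) (.rp 16 (.str 3 (.nv (.thr 1 2 (.thr 41 61 (.thr 56 11 (.dbl 60 22 52)))) (.nv (.thr 18 33 (.thr 22 30 (.thr 23 20 (.dbl 63 42 43)))) (.nv (.thr 1 2 (.thr 41 61 (.dbl 33 18 45))) .nd)))) .nd)))))) (.rp 42 (.thr 15 26 (.thr 58 63 (.str 51 (.nv (.thr 49 50 (.thr 57 61 (.thr 60 54 (.dbl 56 52 59)))) (.nv (.thr 39 27 (.thr 49 50 (.thr 38 36 (.dbl 25 12 13)))) (.rp 50 (.thr 39 27 (.thr 38 36 (.thr 25 12 (.thr 49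 13 (.thr 57 61 (.thr 56 59 (.dbl 60 52 54))))))) (.rp 49 (.str 19 (.nv (.thr 3 35 (.thr 7 11 (.thr 33 18 (.thr 41 45 (.dbl 22 52 60))))) (.nv (.thr 3 35 (.thr 18 33 (.thr 17 16 (.thr 25 29 (.thr 39 27 (.dbl 38 12 36)))))) (.nv (.thr 27 39 (.thr 23 31 (.thr 3 35 (.thr 22 20 (.dbl 7 11 52))))) (.rp 35 (.thr 27 39 (.thr 23 31 (.thr 22 20 (.thr 7 52 (.thr 3 11 (.thr 33 18 (.dbl 41 45 60))))))) (.rp 3 (.thr 39 27 (.thr 38 36 (.thr 25 12 (.thr 22 28 (.thr 52 7 (.thr 60 56 (.dbl 54 6 57))))))) .nd)))))) (.rp 38 (.thr 50 49 (.thr 54 62 (.thr 60 57 (.thr 45 30 (.thr 41 33 (.thr 22 3 (.dbl 52 7 56))))))) .nd)))))))) (.rp 32 (.str 36 (.nv (.thr 12 24 (.thr 38 39 (.thr 25 51 (.thr 29 17 (.dbl 63 46 58))))) (.nv (.thr 12 24 (.thr 63 58 (.thr 29 46 (.thr 25 17 (.thr 13 49 (.dbl 15 14 26)))))) (.nv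 (.thr 38 39 (.thr 12 24 (.thr 51 25 (.thr 50 49 (.dbl 26 14 15))))) (.rp 25 (.thr 38 39 (.thr 12 24 (.thr 63 58 (.thr 46 29 (.dbl 42 0 34))))) (.rp 24 (.thr 38 39 (.thr 63 58 (.thr 0 42 (.thr 26 15 (.thr 50 14 (.thr 51 49 (.thr 17 34 (.dbl 25 12 29)))))))) (.rp 15 (.str 0 (.nv (.dbl 63 42 58) (.rp 63 (.thr 38 39 (.thr 12 24 (.thr 51 25 (.thr 17 34 (.thr 49 50 (.thr 61 57 (.dbl 1 33 41))))))) (.rp 58 (.thr 38 39 (.thr 12 24 (.thr 51 25 (.thr 34 17 (.dbl 42 46 63))))) (.rp 42 (.thr 38 39 (.thr 12 24 (.thr 51 25 (.thr 17 34 (.thr 49 50 (.thr 61 57 (.dbl 1 33 41))))))) .nd))))) (.rp 12 (.thr 39 38 (.thr 63 58 (.thr 42 0 (.thr 15 26 (.thr 47 31 (.thr 43 35 (.thr 3 23 (.thr 33 18 (.dbl 41 40 45))))))))) (.rp 0 (.thr 15 26 (.thr 38 39 (.thr 12 24 (.thr 13 14 (.dbl 25 49 51))))) .nd)))))))))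 (.rp 31 (.str 51 (.nv (.thr 15 26 (.thr 49 50 (.thr 57 61 (.thr 58 63 (.thr 56 59 (.dbl 60 52 54)))))) (.nv (.thr 15 26 (.thr 39 27 (.thr 38 36 (.thr 63 58 (.thr 42 0 (.thr 46 34 (.dbl 12 25 29))))))) (.nv (.thr 49 50 (.thr 61 57 (.thr 1 41 (.thr 25 13 (.dbl 17 29 33))))) (.rp 15 (.str 0 (.nv (.thr 17 34 (.thr 25 29 (.dbl 49 13 50))) (.nv (.dbl 63 42 58) (.rp 63 (.str 47 (.nv (.thr 17 34 (.thr 25 29 (.dbl 49 13 50))) (.nv (.dbl 32 16 42) .nd))) .nd)))) .nd))))) (.rp 26 (.str 0 (.nv (.dbl 63 42 58) (.rp 63 (.thr 32 16 (.str 51 (.nv (.thr 42 47 (.thr 49 50 (.thr 25 13 (.thr 8 59 (.dbl 12 4 38))))) (.nv (.thr 17 34 (.thr 25 29 (.thr 42 47 (.thr 8 59 (.dbl 12 4 38))))) (.nv (.thr 42 47 (.thr 17 34 (.thr 49 50 (.thr 1 33 (.dbl 61 41 57))))) (.nv (.thr 17 34 (.thr 25 29 (.dbl 49 13 50)))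 (.rp 42 (.str 58 (.nv (.thr 34 17 (.thr 33 35 (.thr 41 45 (.thr 1 61 (.dbl 3 2 18))))) (.nv (.thr 49 50 (.thr 57 61 (.thr 60 54 (.dbl 56 52 59)))) (.nv (.thr 17 34 (.thr 25 29 (.dbl 49 13 50))) .nd)))) .nd))))))) (.rp 58 (.thr 42 63 (.dbl 32 16 47)) (.rp 42 (.thr 58 63 (.str 51 (.nv (.thr 49 50 (.thr 57 61 (.thr 60 54 (.dbl 56 52 59)))) (.nv (.thr 17 34 (.thr 25 29 (.dbl 49 13 50))) (.rp 50 (.thr 17 34 (.thr 25 29 (.thr 49 13 (.thr 1 33 (.dbl 61 41 57))))) (.rp 49 (.thr 34 17 (.thr 32 16 (.thr 33 35 (.thr 41 45 (.thr 1 61 (.dbl 3 2 18)))))) (.rp 38 (.thr 50 49 (.thr 34 17 (.thr 18 2 (.thr 33 3 (.dbl 32 16 35))))) .nd))))))) .nd))))) (.rp 16 (.thr 63 58 (.thr 42 0 (.thr 15 26 (.dbl 47 31 32)))) (.rp 15 (.str 0 (.nv (.dbl 63 42 58) (.rp 63 (.str 51 (.nv (.thr 17 34 (.thr 49 50 (.thr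 1 33 (.dbl 61 41 57)))) (.nv (.thr 49 50 (.thr 13 25 (.thr 61 57 (.thr 41 1 (.dbl 45 29 33))))) (.nv (.thr 49 50 (.thr 17 34 (.dbl 25 13 29))) (.rp 50 (.thr 17 34 (.thr 25 29 (.thr 49 13 (.thr 1 33 (.dbl 61 41 57))))) (.rp 49 (.thr 32 16 (.thr 17 34 (.thr 25 29 (.thr 12 38 (.thr 8 4 (.dbl 42 47 59)))))) (.rp 47 (.str 31 (.nv (.thr 17 34 (.thr 25 29 (.dbl 49 13 50))) (.nv (.dbl 16 26 32) .nd))) (.rp 31 (.str 47 (.nv (.thr 17 34 (.thr 25 29 (.dbl 49 13 50))) (.nv (.dbl 32 16 42) .nd))) .nd)))))))) (.rp 58 (.thr 32 16 (.dbl 42 47 63)) (.rp 42 (.str 36 (.nv (.thr 12 24 (.thr 16 32 (.thr 26 31 (.thr 38 39 (.thr 50 14 (.dbl 51 25 49)))))) (.nv (.thr 32 16 (.thr 40 44 (.thr 60 20 (.thr 56 52 (.dbl 24 8 12))))) (.rp 58 (.str 26 (.nv (.dbl 16 31 32) (.rp 32 (.thr 12 24 (.thr 38 39 (.thr 50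 14 (.dbl 51 25 49)))) (.rp 31 (.thr 12 24 (.thr 38 39 (.thr 50 14 (.dbl 51 25 49)))) (.rp 16 (.thr 12 24 (.thr 38 39 (.thr 50 14 (.dbl 51 25 49)))) .nd))))) (.rp 32 (.thr 38 39 (.thr 12 24 (.thr 51 25 (.thr 17 34 (.thr 49 50 (.thr 61 57 (.dbl 1 33 41))))))) (.rp 26 (.thr 58 63 (.thr 32 16 (.thr 40 44 (.thr 20 60 (.thr 52 4 (.dbl 22 7 23)))))) (.rp 24 (.thr 32 16 (.thr 40 44 (.thr 20 60 (.thr 52 4 (.dbl 22 7 23))))) (.rp 16 (.thr 38 39 (.thr 12 24 (.thr 51 25 (.thr 17 34 (.thr 49 50 (.thr 1 33 (.dbl 61 41 57))))))) (.rp 12 (.thr 38 39 (.thr 32 16 (.thr 44 40 (.thr 41 35 (.thr 33 45 (.thr 3 18 (.dbl 1 2 61))))))) .nd))))))))) .nd))))) (.rp 0 (.thr 15 26 (.str 60 (.nv (.thr 45 30 (.thr 41 33 (.thr 61 1 (.dbl 63 58 62)))) (.nv (.thr 45 30 (.thr 52 56 (.thr 41 33 (.dbl 22 3 7)))) (.nv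 (.thr 58 63 (.thr 56 52 (.thr 57 59 (.thr 51 54 (.dbl 49 50 61))))) (.rp 58 (.str 42 (.nv (.thr 47 32 (.thr 52 56 (.thr 22 7 (.thr 63 31 (.dbl 62 2 61))))) (.nv (.thr 47 32 (.thr 63 31 (.thr 61 62 (.thr 41 1 (.dbl 45 30 33))))) (.nv (.thr 45 30 (.thr 41 33 (.thr 52 56 (.dbl 22 3 7)))) (.rp 41 (.thr 47 32 (.thr 63 31 (.thr 62 61 (.thr 22 2 (.dbl 52 7 56))))) .nd))))) .nd)))))) .nd)))))))))))

theorem w390 : WinAt (9007336695791616, 36028797018965024) :=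
  chF (K := []) kn c390 9007336695791616 36028797018965024 5
    [33825] (by decide +kernel) (by decide +kernel)

/-- A certificate. -/
noncomputable def c391 : Ct := (.str 1 (.nv (.thr 41 61 (.thr 33 45 (.thr 49 17 (.dbl 13 9 25)))) (.nv (.thr 13 9 (.thr 49 25 (.thr 41 61 (.dbl 33 17 45)))) (.rp 61 (.str 49 (.nv (.dbl 13 9 25) (.rp 25 (.str 4 (.nv (.thr 7 6 (.thr 22 52 (.thr 55 38 (.dbl 23 20 39)))) (.nv (.thr 38 55 (.thr 36 39 (.thr 52 20 (.dbl 7 6 22)))) (.rp 55 (.thr 33 17 (.thr 9 13 (.thr 6 7 (.thr 3 12 (.thr 48 18 (.thr 0 2 (.thr 16 32 (.dbl 26 15 31)))))))) (.rp 52 (.thr 17 33 (.thr 9 13 (.thr 6 7 (.thr 12 3 (.thr 0 8 (.thr 55 38 (.thr 51 34 (.dbl 63 42 59)))))))) (.rp 39 (.thr 33 17 (.thr 41 45 (.thr 7 6 (.thr 22 52 (.thr 3 60 (.thr 48 18 (.dbl 15 11 26))))))) (.rp 38 (.thr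 33 17 (.thr 41 45 (.thr 7 6 (.thr 22 52 (.thr 3 60 (.thr 48 18 (.dbl 15 11 26))))))) (.rp 23 (.thr 7 6 (.thr 52 22 (.thr 36 20 (.dbl 38 39 55)))) (.rp 22 (.thr 33 17 (.thr 41 45 (.thr 38 55 (.thr 39 36 (.thr 35 44 (.thr 47 43 (.dbl 32 34 42))))))) (.rp 20 (.thr 33 17 (.thr 41 45 (.thr 7 6 (.thr 22 52 (.thr 3 60 (.thr 48 18 (.dbl 15 11 26))))))) (.rp 7 (.thr 33 17 (.thr 41 45 (.thr 38 55 (.thr 39 36 (.thr 35 44 (.thr 47 43 (.dbl 32 34 42))))))) (.rp 6 (.thr 33 17 (.thr 41 45 (.thr 38 55 (.thr 39 36 (.thr 35 44 (.thr 47 43 (.dbl 32 34 42))))))) .nd)))))))))))) (.rp 13 (.thr 17 33 (.thr 29 25 (.str 0 (.nv (.thr 51 34 (.thr 48 50 (.thr 26 15 (.dbl 16 31 32)))) (.nv (.thr 3 2 (.thr 63 42 (.thr 12 46 (.thr 6 9 (.dbl 4 7 8))))) (.nv (.thr 51 34 (.thr 48 50 (.thr 32 16 (.dbl 42 47 63))))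 (.rp 34 (.thr 3 2 (.thr 63 42 (.thr 23 43 (.thr 22 20 (.thr 7 52 (.thr 55 39 (.dbl 4 6 38))))))) (.rp 2 (.thr 51 34 (.thr 42 63 (.thr 32 47 (.dbl 48 16 50)))) .nd)))))))) (.rp 9 (.thr 17 33 (.dbl 25 13 29)) .nd))))) (.rp 49 (.thr 61 41 (.str 26 (.nv (.thr 13 9 (.thr 15 48 (.thr 12 14 (.thr 29 45 (.thr 25 17 (.thr 27 24 (.dbl 51 38 39))))))) (.nv (.thr 9 13 (.thr 15 48 (.thr 31 16 (.thr 63 47 (.thr 0 42 (.thr 3 2 (.thr 6 12 (.dbl 7 4 11)))))))) (.nv (.thr 13 9 (.thr 29 45 (.thr 25 17 (.thr 27 24 (.thr 31 16 (.thr 19 23 (.dbl 28 22 30))))))) (.nv (.thr 31 16 (.thr 15 48 (.thr 63 47 (.thr 60 62 (.thr 45 30 (.dbl 13 9 29)))))) (.rp 13 (.thr 48 15 (.thr 16 31 (.thr 0 32 (.thr 3 2 (.thr 18 33 (.thr 22 30 (.thr 23 20 (.dbl 63 42 43)))))))) (.rp 9 (.thr 48 15 (.thr 16 31 (.thr 0 32 (.thr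 3 2 (.thr 18 33 (.thr 22 30 (.thr 23 20 (.dbl 63 42 43)))))))) .nd)))))))) (.rp 45 (.str 4 (.nv (.thr 6 7 (.thr 9 13 (.thr 12 3 (.thr 38 55 (.thr 25 51 (.dbl 41 57 61)))))) (.nv (.thr 7 6 (.thr 38 55 (.thr 52 22 (.dbl 36 20 39)))) (.rp 55 (.thr 9 13 (.thr 6 7 (.thr 12 3 (.thr 0 8 (.thr 63 42 (.thr 41 61 (.thr 29 46 (.dbl 25 17 57)))))))) (.rp 52 (.thr 9 13 (.thr 6 7 (.thr 12 3 (.thr 38 55 (.thr 54 22 (.thr 25 51 (.dbl 41 57 61))))))) (.rp 39 (.thr 13 9 (.thr 25 49 (.thr 29 17 (.thr 38 55 (.thr 12 51 (.thr 63 46 (.dbl 0 8 42))))))) (.rp 38 (.thr 9 13 (.thr 6 7 (.thr 3 12 (.thr 0 2 (.thr 63 42 (.thr 23 43 (.thr 22 20 (.dbl 41 60 61)))))))) (.rp 7 (.thr 13 9 (.thr 25 49 (.thr 29 17 (.thr 38 55 (.thr 12 51 (.thr 63 46 (.dbl 0 8 42))))))) (.rp 6 (.thr 13 9 (.thr 25 49 (.thr 29 17 (.thr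 38 55 (.thr 12 51 (.thr 63 46 (.dbl 0 8 42))))))) .nd))))))))) (.rp 41 (.str 26 (.nv (.thr 13 9 (.thr 15 48 (.thr 12 14 (.thr 25 49 (.thr 27 24 (.dbl 51 38 39)))))) (.nv (.thr 9 13 (.thr 15 48 (.thr 31 16 (.thr 63 47 (.thr 0 42 (.thr 3 2 (.thr 7 11 (.dbl 6 4 12)))))))) (.nv (.thr 13 9 (.thr 16 31 (.thr 25 49 (.thr 17 29 (.thr 19 18 (.thr 24 27 (.dbl 28 20 22))))))) (.rp 13 (.thr 16 31 (.thr 48 15 (.thr 0 32 (.thr 3 2 (.thr 18 33 (.thr 22 30 (.thr 23 20 (.dbl 63 42 43)))))))) (.rp 11 (.thr 16 31 (.thr 48 15 (.thr 0 32 (.thr 3 2 (.thr 33 18 (.thr 49 17 (.dbl 13 9 25))))))) (.rp 9 (.thr 16 31 (.thr 48 15 (.thr 0 32 (.thr 3 2 (.thr 18 33 (.thr 22 30 (.thr 23 20 (.dbl 63 42 43)))))))) .nd))))))) (.rp 33 (.thr 13 9 (.thr 25 49 (.thr 29 17 (.dbl 61 41 45)))) (.rp 25 (.str 4 (.nv (.thr 6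 7 (.thr 9 13 (.thr 3 12 (.thr 41 61 (.thr 22 60 (.dbl 38 54 55)))))) (.nv (.thr 38 55 (.thr 36 39 (.thr 52 20 (.dbl 7 6 22)))) (.rp 55 (.thr 9 13 (.thr 41 61 (.thr 6 7 (.thr 3 12 (.thr 60 22 (.thr 0 2 (.thr 40 20 (.dbl 42 43 63)))))))) (.rp 54 (.thr 7 6 (.thr 52 22 (.thr 38 55 (.dbl 36 20 39)))) (.rp 52 (.thr 9 13 (.thr 41 61 (.thr 6 7 (.thr 3 12 (.thr 60 22 (.thr 0 2 (.thr 40 20 (.dbl 42 43 63)))))))) (.rp 38 (.thr 41 61 (.thr 33 45 (.thr 7 6 (.thr 22 52 (.thr 3 60 (.thr 48 18 (.dbl 15 11 26))))))) (.rp 22 (.thr 41 61 (.thr 33 45 (.thr 38 55 (.thr 39 36 (.thr 35 44 (.thr 47 43 (.dbl 32 34 42))))))) (.rp 7 (.thr 41 61 (.thr 33 45 (.thr 38 55 (.thr 39 36 (.thr 35 44 (.thr 47 43 (.dbl 32 34 42))))))) (.rp 6 (.thr 41 61 (.thr 33 45 (.thr 38 55 (.thr 39 36 (.thr 35 44 (.thr 47 43 (.dbl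 32 34 42))))))) .nd)))))))))) (.rp 17 (.str 4 (.nv (.thr 6 7 (.thr 9 13 (.thr 12 3 (.thr 38 55 (.thr 25 51 (.dbl 41 57 61)))))) (.nv (.thr 7 6 (.thr 38 55 (.thr 52 22 (.dbl 36 20 39)))) (.rp 55 (.thr 9 13 (.thr 41 61 (.thr 6 7 (.thr 3 12 (.thr 60 22 (.thr 0 2 (.thr 40 20 (.dbl 42 43 63)))))))) (.rp 52 (.thr 9 13 (.thr 41 61 (.thr 6 7 (.thr 12 3 (.thr 38 55 (.thr 54 22 (.dbl 25 51 57))))))) (.rp 39 (.thr 9 13 (.thr 41 61 (.thr 6 7 (.thr 3 12 (.thr 22 60 (.dbl 38 54 55)))))) (.rp 38 (.thr 41 61 (.thr 33 45 (.thr 7 6 (.thr 22 52 (.thr 3 60 (.thr 48 18 (.dbl 15 11 26))))))) (.rp 7 (.thr 13 9 (.thr 25 49 (.thr 38 55 (.thr 12 51 (.thr 15 14 (.thr 48 26 (.dbl 36 24 39))))))) (.rp 6 (.thr 13 9 (.thr 25 49 (.thr 38 55 (.thr 36 39 (.thr 12 51 (.thr 48 24 (.dbl 15 14 26))))))) .nd))))))))) (.rp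 13 (.str 4 (.nv (.thr 38 55 (.thr 36 39 (.thr 52 20 (.dbl 7 6 22)))) (.nv (.thr 7 6 (.thr 52 22 (.thr 38 55 (.dbl 36 20 39)))) (.rp 55 (.thr 41 61 (.thr 45 33 (.thr 7 6 (.thr 52 22 (.thr 36 20 (.thr 38 39 (.thr 44 35 (.thr 32 40 (.dbl 47 42 46))))))))) (.rp 52 (.thr 41 61 (.thr 45 33 (.thr 6 7 (.thr 38 55 (.thr 54 22 (.thr 44 35 (.thr 47 46 (.thr 32 42 (.dbl 36 39 40))))))))) (.rp 39 (.thr 41 61 (.thr 45 33 (.thr 7 6 (.thr 52 22 (.thr 36 20 (.thr 38 55 (.thr 44 35 (.thr 32 40 (.dbl 47 42 46))))))))) (.rp 38 (.thr 41 61 (.thr 45 33 (.thr 7 6 (.thr 22 52 (.thr 20 23 (.thr 60 3 (.thr 0 40 (.thr 15 30 (.thr 48 26 (.thr 32 16 (.dbl 42 47 63))))))))))) (.rp 36 (.thr 7 6 (.thr 22 52 (.thr 23 20 (.dbl 55 38 39)))) (.rp 22 (.thr 41 61 (.thr 45 33 (.thr 38 55 (.thr 36 39 (.thr 44 35 (.thr 32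 40 (.dbl 47 42 46))))))) (.rp 20 (.thr 41 61 (.thr 45 33 (.thr 38 55 (.thr 36 39 (.thr 44 35 (.thr 32 40 (.dbl 47 42 46))))))) (.rp 7 (.thr 41 61 (.thr 45 33 (.thr 38 55 (.thr 44 35 (.thr 47 46 (.thr 32 42 (.dbl 36 39 40))))))) (.rp 6 (.thr 41 61 (.thr 45 33 (.thr 38 55 (.thr 36 39 (.thr 44 35 (.thr 32 40 (.dbl 47 42 46))))))) .nd)))))))))))) (.rp 9 (.str 15 (.nv (.thr 41 61 (.thr 45 33 (.thr 60 30 (.thr 22 3 (.thr 7 52 (.thr 23 20 (.thr 55 39 (.dbl 4 6 38)))))))) (.nv (.thr 41 61 (.thr 33 45 (.thr 48 26 (.thr 49 17 (.thr 51 50 (.thr 39 27 (.thr 38 36 (.dbl 25 12 13)))))))) (.nv (.thr 26 48 (.thr 31 16 (.thr 63 47 (.thr 0 42 (.thr 3 2 (.thr 23 43 (.thr 22 20 (.dbl 7 11 52)))))))) (.nv (.thr 41 61 (.thr 33 45 (.thr 48 26 (.thr 3 18 (.thr 22 60 (.dbl 7 11 52)))))) (.rp 48 (.thr 41 61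 (.thr 45 33 (.thr 60 30 (.thr 3 22 (.thr 0 2 (.thr 40 20 (.dbl 42 43 63))))))) (.rp 41 (.thr 26 48 (.thr 31 16 (.thr 63 47 (.thr 0 42 (.thr 3 2 (.thr 43 23 (.thr 11 7 (.thr 27 59 (.thr 25 24 (.thr 49 13 (.dbl 17 29 33))))))))))) (.rp 11 (.str 8 (.nv (.thr 26 48 (.thr 31 16 (.thr 63 47 (.thr 0 42 (.thr 12 4 (.thr 13 14 (.thr 29 46 (.dbl 25 17 49)))))))) (.nv (.thr 41 61 (.thr 45 33 (.thr 60 30 (.thr 22 3 (.thr 7 52 (.thr 20 23 (.thr 0 40 (.dbl 4 6 12)))))))) (.nv (.thr 26 48 (.thr 31 16 (.thr 63 47 (.thr 0 42 (.thr 3 2 (.thr 23 43 (.thr 22 20 (.dbl 41 60 61)))))))) (.nv (.thr 41 61 (.thr 33 45 (.thr 49 17 (.thr 48 26 (.thr 51 50 (.thr 39 27 (.thr 38 36 (.dbl 25 12 13)))))))) (.nv (.thr 41 61 (.thr 45 33 (.thr 60 30 (.thr 3 22 (.thr 26 48 (.thr 31 16 (.thr 63 47 (.dbl 0 2 42))))))))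 (.rp 48 (.thr 41 61 (.thr 45 33 (.thr 60 30 (.thr 3 22 (.thr 0 2 (.thr 40 20 (.dbl 42 43 63))))))) .nd))))))) (.rp 8 (.str 11 (.nv (.thr 3 7 (.thr 0 2 (.thr 42 63 (.thr 32 47 (.dbl 48 16 26))))) (.nv (.thr 41 61 (.thr 45 33 (.thr 3 7 (.dbl 60 22 30)))) (.rp 40 (.str 24 (.nv (.thr 26 48 (.thr 25 27 (.thr 17 29 (.dbl 49 13 33)))) (.nv (.thr 3 7 (.thr 0 2 (.thr 42 63 (.thr 32 47 (.dbl 48 16 26))))) (.nv (.thr 41 61 (.thr 45 33 (.thr 3 7 (.dbl 60 22 30)))) .nd)))) (.rp 24 (.str 40 (.nv (.thr 41 61 (.thr 42 43 (.thr 47 32 (.dbl 63 0 31)))) (.nv (.thr 3 7 (.thr 0 2 (.thr 42 63 (.thr 32 47 (.dbl 48 16 26))))) (.nv (.thr 41 61 (.thr 45 33 (.thr 3 7 (.dbl 60 22 30)))) .nd)))) (.rp 7 (.thr 41 61 (.thr 33 45 (.thr 48 26 (.thr 3 18 (.thr 0 2 (.thr 32 16 (.dbl 42 47 63))))))) (.rp 3 (.thr 41 61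 (.thr 33 45 (.thr 49 17 (.thr 48 26 (.thr 51 50 (.thr 39 27 (.thr 38 36 (.dbl 25 12 13)))))))) .nd))))))) .nd))))))))) .nd))))))))))))

theorem w391 : WinAt (137441050656, 81064793292669952) :=
  chF (K := []) kn c391 137441050656 81064793292669952 53
    [] (by decide +kernel) (by decide +kernel)

/-- A certificate. -/
noncomputable def c392 : Ct := (.str 4 (.nv (.thr 53 5 (.thr 55 38 (.thr 52 54 (.thr 22 7 (.dbl 20 23 36))))) (.nv (.thr 38 55 (.thr 36 39 (.thr 52 20 (.thr 7 22 (.dbl 5 6 53))))) (.rp 55 (.str 0 (.nv (.thr 12 8 (.thr 42 63 (.thr 32 47 (.thr 48 16 (.thr 36 24 (.thr 40 44 (.dbl 20 52 60))))))) (.nv (.thr 53 5 (.thr 63 42 (.thr 48 58 (.thr 26 15 (.dbl 16 31 32))))) (.rp 63 (.thr 5 53 (.thr 7 6 (.thr 52 22 (.thr 20 36 (.thr 60 40 (.thr 48 56 (.thr 26 15 (.dbl 16 31 32))))))))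 (.rp 59 (.thr 5 53 (.thr 7 6 (.thr 52 22 (.thr 36 20 (.thr 12 8 (.thr 48 24 (.thr 16 32 (.dbl 26 15 31)))))))) (.rp 48 (.thr 5 53 (.thr 6 7 (.thr 12 8 (.thr 9 3 (.thr 13 1 (.thr 63 42 (.thr 29 46 (.dbl 25 17 49)))))))) (.rp 42 (.thr 5 53 (.thr 7 6 (.thr 52 22 (.thr 20 36 (.thr 60 40 (.thr 48 56 (.thr 26 15 (.dbl 16 31 32)))))))) (.rp 32 (.thr 5 53 (.thr 6 7 (.thr 12 8 (.thr 9 3 (.thr 13 1 (.thr 63 42 (.thr 29 46 (.dbl 25 17 49)))))))) (.rp 31 (.thr 5 53 (.thr 7 6 (.thr 52 22 (.thr 20 36 (.thr 60 40 (.thr 48 56 (.thr 32 16 (.dbl 42 47 63)))))))) (.rp 16 (.thr 5 53 (.thr 6 7 (.thr 12 8 (.thr 9 3 (.thr 13 1 (.thr 63 42 (.thr 29 46 (.dbl 25 17 49)))))))) (.rp 15 (.thr 5 53 (.thr 7 6 (.thr 52 22 (.thr 20 36 (.thr 60 40 (.thr 48 56 (.thr 32 16 (.dbl 42 47 63)))))))) .nd))))))))))) (.rp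 53 (.thr 38 55 (.thr 36 39 (.thr 52 20 (.thr 7 22 (.str 25 (.nv (.thr 49 13 (.thr 12 51 (.thr 29 17 (.thr 63 46 (.dbl 0 8 42))))) (.nv (.thr 12 51 (.thr 0 8 (.thr 48 24 (.thr 16 32 (.dbl 26 15 31))))) (.nv (.thr 5 6 (.thr 29 17 (.thr 13 49 (.thr 61 45 (.dbl 1 9 41))))) (.rp 49 (.str 61 (.nv (.thr 6 5 (.thr 12 51 (.thr 48 24 (.thr 15 26 (.dbl 3 9 11))))) (.nv (.thr 29 17 (.thr 45 13 (.dbl 41 1 33))) .nd))) .nd))))))))) (.rp 52 (.str 0 (.nv (.thr 12 8 (.thr 38 55 (.thr 36 39 (.thr 48 24 (.thr 16 32 (.dbl 26 15 31)))))) (.nv (.thr 12 8 (.thr 38 55 (.thr 42 63 (.thr 51 25 (.dbl 34 17 46))))) (.nv (.thr 53 5 (.thr 63 42 (.thr 48 58 (.thr 26 15 (.dbl 16 31 32))))) (.rp 53 (.thr 12 8 (.thr 63 42 (.thr 29 46 (.thr 25 17 (.dbl 38 51 55))))) .nd))))) (.rp 38 (.str 16 (.nv (.thr 53 5 (.thr 26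 31 (.thr 48 15 (.thr 0 32 (.dbl 63 42 58))))) (.rp 63 (.thr 5 53 (.thr 7 6 (.thr 22 52 (.thr 20 23 (.thr 28 24 (.thr 19 25 (.thr 18 17 (.dbl 26 30 31)))))))) (.rp 58 (.thr 5 53 (.thr 7 6 (.thr 22 52 (.thr 20 23 (.thr 28 24 (.thr 19 25 (.thr 18 17 (.dbl 26 30 31)))))))) (.rp 53 (.thr 26 31 (.thr 48 15 (.thr 0 32 (.thr 12 8 (.thr 24 36 (.thr 25 27 (.thr 29 17 (.dbl 63 42 46)))))))) (.rp 48 (.thr 5 53 (.thr 7 6 (.thr 22 52 (.thr 20 23 (.thr 28 24 (.thr 19 25 (.thr 18 17 (.dbl 26 30 31)))))))) (.rp 47 (.thr 5 53 (.thr 7 6 (.thr 22 52 (.thr 20 23 (.thr 28 24 (.thr 19 25 (.thr 18 17 (.dbl 26 30 31)))))))) (.rp 42 (.thr 5 53 (.thr 7 6 (.thr 22 52 (.thr 20 23 (.thr 28 24 (.thr 19 25 (.thr 18 17 (.dbl 26 30 31)))))))) (.rp 32 (.thr 5 53 (.thr 7 6 (.thr 22 52 (.thr 20 23 (.thr 28 24 (.thr 19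 25 (.thr 18 17 (.dbl 26 30 31)))))))) (.rp 31 (.thr 5 53 (.thr 7 6 (.thr 22 52 (.thr 20 23 (.thr 28 24 (.thr 19 25 (.thr 18 17 (.thr 26 30 (.thr 48 15 (.thr 3 33 (.thr 0 32 (.dbl 60 40 41)))))))))))) (.rp 26 (.thr 5 53 (.thr 7 6 (.thr 22 52 (.thr 20 23 (.thr 28 24 (.thr 25 19 (.thr 29 17 (.thr 13 49 (.thr 61 45 (.dbl 1 9 41)))))))))) (.rp 15 (.thr 5 53 (.thr 7 6 (.thr 22 52 (.thr 20 23 (.thr 28 24 (.thr 19 25 (.thr 18 17 (.dbl 26 30 31)))))))) (.rp 5 (.thr 26 31 (.thr 48 15 (.thr 0 32 (.thr 12 8 (.thr 24 36 (.thr 25 27 (.thr 29 17 (.dbl 63 42 46)))))))) (.rp 0 (.thr 5 53 (.thr 7 6 (.thr 22 52 (.thr 20 23 (.thr 28 24 (.thr 19 25 (.thr 18 17 (.dbl 26 30 31)))))))) .nd)))))))))))))) (.rp 36 (.thr 5 53 (.thr 7 6 (.thr 22 52 (.thr 23 20 (.dbl 55 38 39))))) (.rp 23 (.thr 5 53 (.thr 7 6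 (.thr 52 22 (.thr 36 20 (.dbl 38 39 55))))) (.rp 22 (.str 16 (.nv (.thr 26 31 (.thr 38 55 (.thr 36 39 (.thr 20 52 (.thr 24 28 (.thr 12 48 (.dbl 25 27 51))))))) (.nv (.thr 53 5 (.thr 26 31 (.thr 48 15 (.thr 0 32 (.dbl 63 42 58))))) (.rp 53 (.thr 38 55 (.thr 36 39 (.thr 26 31 (.thr 48 15 (.thr 0 32 (.dbl 12 8 24)))))) (.rp 48 (.thr 38 55 (.thr 36 39 (.thr 20 52 (.thr 24 28 (.thr 26 31 (.thr 25 27 (.thr 29 17 (.thr 13 49 (.thr 61 45 (.thr 1 41 (.dbl 5 9 53))))))))))) (.rp 31 (.thr 53 5 (.thr 38 55 (.thr 36 39 (.thr 20 52 (.thr 24 28 (.thr 48 12 (.thr 0 32 (.dbl 63 42 58)))))))) (.rp 26 (.thr 53 5 (.thr 38 55 (.thr 36 39 (.thr 20 52 (.thr 24 28 (.thr 48 12 (.thr 0 32 (.dbl 63 42 58)))))))) .nd))))))) (.rp 20 (.str 0 (.nv (.thr 12 8 (.thr 38 55 (.thr 36 39 (.thr 48 24 (.thr 16 32 (.dbl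 26 15 31)))))) (.nv (.thr 12 8 (.thr 38 55 (.thr 42 63 (.thr 51 25 (.dbl 34 17 46))))) (.nv (.thr 53 5 (.thr 63 42 (.thr 48 58 (.thr 26 15 (.dbl 16 31 32))))) .nd)))) (.rp 7 (.str 0 (.nv (.thr 12 8 (.thr 38 55 (.thr 42 63 (.thr 51 25 (.dbl 34 17 46))))) (.nv (.thr 53 5 (.thr 63 42 (.thr 48 58 (.thr 26 15 (.dbl 16 31 32))))) (.rp 63 (.thr 38 55 (.thr 39 36 (.thr 12 8 (.thr 51 25 (.thr 15 27 (.thr 14 13 (.dbl 26 48 50))))))) (.rp 42 (.thr 5 53 (.thr 38 55 (.thr 12 8 (.thr 25 51 (.thr 29 17 (.thr 13 49 (.thr 61 45 (.dbl 1 9 41)))))))) (.rp 11 (.thr 38 55 (.thr 42 63 (.thr 34 46 (.thr 51 17 (.dbl 12 8 25))))) .nd)))))) (.rp 5 (.str 0 (.nv (.thr 38 55 (.thr 36 39 (.thr 20 52 (.thr 40 60 (.thr 42 63 (.dbl 32 44 47)))))) (.nv (.thr 12 8 (.thr 38 55 (.thr 36 39 (.thr 48 24 (.thr 16 32 (.dbl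 26 15 31)))))) (.nv (.thr 38 55 (.thr 42 63 (.thr 34 46 (.thr 51 17 (.dbl 12 8 25))))) (.rp 55 (.thr 12 8 (.thr 42 63 (.thr 32 47 (.thr 48 16 (.thr 36 24 (.thr 20 52 (.dbl 40 44 60))))))) (.rp 38 (.thr 12 8 (.thr 42 63 (.thr 32 47 (.thr 48 16 (.thr 36 24 (.thr 20 52 (.dbl 40 44 60))))))) .nd)))))) .nd)))))))))))))

theorem w392 : WinAt (137441050624, 144115188075856896) :=
  chF (K := []) kn c392 137441050624 144115188075856896 57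
    [] (by decide +kernel) (by decide +kernel)

/-- A certificate. -/
noncomputable def c393 : Ct := (.str 4 (.nv (.thr 53 5 (.thr 55 38 (.thr 52 54 (.thr 22 7 (.dbl 20 23 36))))) (.nv (.thr 38 55 (.thr 36 39 (.thr 52 20 (.thr 7 22 (.dbl 5 6 53))))) (.rp 55 (.str 26 (.nv (.thr 5 53 (.thr 48 15 (.thr 7 6 (.thr 52 22 (.thr 20 36 (.thr 60 56 (.thr 0 40 (.dbl 16 31 32)))))))) (.nv (.thr 5 53 (.thr 7 6 (.thr 16 31 (.thr 48 15 (.thr 0 32 (.thr 52 22 (.thr 20 36 (.dbl 60 40 56)))))))) (.nv (.thr 16 31 (.thr 48 15 (.thr 0 32 (.thr 12 8 (.thr 24 36 (.thr 25 27 (.thr 29 17 (.dbl 63 42 46)))))))) (.nv (.thr 5 53 (.thr 7 6 (.thr 16 31 (.thr 48 15 (.thr 0 32 (.thr 52 22 (.thr 36 20 (.dbl 12 8 24)))))))) (.rp 48 (.str 63 (.nv (.thr 31 16 (.thr 47 15 (.dbl 42 0 32))) (.rp 47 (.thr 0 42 (.thr 12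 8 (.thr 29 46 (.thr 25 17 (.thr 13 49 (.thr 14 15 (.dbl 38 50 51))))))) (.rp 42 (.thr 5 53 (.thr 7 6 (.thr 31 16 (.thr 15 47 (.thr 3 11 (.thr 23 43 (.dbl 22 20 52))))))) (.rp 32 (.thr 31 16 (.thr 0 42 (.thr 15 47 (.thr 12 8 (.thr 29 46 (.thr 13 14 (.dbl 25 17 49))))))) (.rp 31 (.thr 0 42 (.thr 12 8 (.thr 29 46 (.thr 25 17 (.thr 13 49 (.thr 14 15 (.dbl 38 50 51))))))) (.rp 16 (.thr 0 42 (.thr 12 8 (.thr 29 46 (.thr 25 17 (.thr 13 49 (.thr 14 15 (.dbl 38 50 51))))))) (.rp 15 (.thr 5 53 (.thr 6 7 (.thr 0 42 (.thr 12 8 (.thr 29 46 (.thr 25 17 (.thr 13 49 (.dbl 9 1 3)))))))) (.rp 5 (.thr 31 16 (.thr 15 47 (.thr 0 42 (.thr 12 8 (.thr 29 46 (.thr 13 14 (.dbl 25 17 49))))))) (.rp 0 (.thr 5 53 (.thr 7 6 (.thr 52 22 (.thr 20 36 (.thr 16 31 (.thr 24 28 (.thr 25 27 (.thr 13 49 (.thr 29 17 (.thr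 61 45 (.dbl 1 9 41))))))))))) .nd)))))))))) (.rp 36 (.thr 31 16 (.thr 15 48 (.thr 5 53 (.thr 63 47 (.thr 7 6 (.thr 3 11 (.thr 23 43 (.dbl 22 20 52)))))))) (.rp 32 (.thr 48 15 (.thr 5 53 (.thr 7 6 (.thr 52 22 (.thr 36 20 (.thr 38 39 (.thr 12 24 (.thr 51 25 (.dbl 50 14 49))))))))) (.rp 31 (.thr 48 15 (.thr 5 53 (.thr 7 6 (.thr 52 22 (.thr 20 36 (.thr 60 56 (.thr 0 40 (.thr 32 16 (.dbl 42 47 63))))))))) (.rp 16 (.thr 48 15 (.thr 5 53 (.thr 7 6 (.thr 52 22 (.thr 36 20 (.thr 38 39 (.thr 24 12 (.thr 56 60 (.thr 40 8 (.thr 44 32 (.dbl 41 11 35))))))))))) (.rp 15 (.thr 16 31 (.thr 5 53 (.thr 7 6 (.thr 52 22 (.thr 20 36 (.thr 24 28 (.thr 25 27 (.thr 29 17 (.thr 13 49 (.thr 1 9 (.dbl 61 41 45))))))))))) (.rp 0 (.thr 48 15 (.thr 5 53 (.thr 7 6 (.thr 52 22 (.thr 36 20 (.thr 38 39 (.thr 12 24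 (.thr 51 25 (.dbl 50 14 49))))))))) .nd)))))))))))) (.rp 53 (.str 48 (.nv (.thr 26 15 (.thr 16 31 (.thr 0 32 (.thr 12 8 (.thr 24 36 (.thr 25 27 (.thr 29 17 (.dbl 63 42 46)))))))) (.nv (.thr 26 15 (.thr 16 31 (.thr 0 32 (.thr 12 8 (.thr 38 55 (.thr 50 14 (.dbl 51 25 49))))))) (.nv (.thr 38 55 (.thr 36 39 (.thr 12 24 (.thr 51 25 (.thr 50 49 (.dbl 26 14 15)))))) (.nv (.thr 26 15 (.thr 16 31 (.thr 0 32 (.thr 12 8 (.thr 36 24 (.dbl 38 39 55)))))) (.rp 26 (.str 42 (.nv (.thr 0 63 (.thr 12 8 (.thr 36 24 (.dbl 38 39 55)))) (.nv (.thr 0 63 (.dbl 32 16 47)) (.rp 63 (.thr 38 55 (.thr 32 47 (.thr 0 16 (.thr 12 8 (.dbl 36 24 39))))) (.rp 0 (.thr 38 55 (.thr 46 34 (.thr 47 32 (.thr 44 45 (.thr 39 36 (.dbl 35 41 43)))))) .nd))))) (.rp 15 (.thr 38 55 (.thr 36 39 (.thr 12 24 (.thr 0 8 (.thr 32 16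 (.dbl 42 47 63)))))) (.rp 12 (.thr 38 55 (.thr 36 39 (.thr 52 20 (.thr 56 60 (.thr 26 15 (.thr 16 31 (.thr 41 11 (.thr 44 35 (.dbl 32 0 40))))))))) .nd)))))))) (.rp 52 (.str 42 (.nv (.thr 32 47 (.thr 0 63 (.thr 48 16 (.thr 12 8 (.thr 36 24 (.dbl 38 39 55)))))) (.nv (.thr 32 47 (.thr 38 55 (.thr 34 46 (.thr 35 33 (.thr 36 39 (.dbl 44 40 41)))))) (.nv (.thr 38 55 (.thr 34 46 (.thr 0 63 (.thr 51 17 (.dbl 12 8 25))))) (.rp 55 (.thr 32 47 (.thr 0 63 (.thr 12 8 (.thr 48 16 (.thr 36 24 (.thr 38 39 (.thr 34 46 (.dbl 51 17 25)))))))) (.rp 38 (.thr 32 47 (.thr 0 63 (.thr 8 12 (.thr 25 59 (.thr 49 13 (.thr 48 16 (.thr 51 50 (.dbl 17 29 34)))))))) .nd)))))) (.rp 42 (.str 26 (.nv (.thr 53 5 (.thr 55 38 (.thr 52 54 (.thr 20 36 (.dbl 22 7 23))))) (.nv (.thr 16 31 (.thr 38 55 (.thr 48 15 (.thr 0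 32 (.thr 12 8 (.dbl 36 24 39)))))) (.nv (.thr 38 55 (.thr 36 39 (.thr 5 53 (.thr 52 20 (.dbl 7 6 22))))) (.rp 55 (.thr 16 31 (.thr 48 15 (.thr 0 32 (.thr 12 8 (.thr 24 36 (.thr 25 27 (.thr 17 29 (.dbl 51 34 38)))))))) (.rp 38 (.thr 16 31 (.thr 48 15 (.thr 0 32 (.thr 12 8 (.thr 36 24 (.thr 52 20 (.thr 7 22 (.dbl 5 6 53)))))))) (.rp 36 (.thr 5 53 (.thr 7 6 (.thr 22 52 (.thr 23 20 (.dbl 55 38 39))))) .nd))))))) (.rp 38 (.thr 5 53 (.str 26 (.nv (.thr 6 7 (.thr 31 16 (.thr 15 48 (.thr 63 47 (.thr 0 42 (.thr 12 8 (.thr 9 3 (.dbl 13 1 14)))))))) (.nv (.thr 7 6 (.thr 22 52 (.thr 23 20 (.thr 30 18 (.thr 31 16 (.thr 28 29 (.dbl 19 25 27))))))) (.nv (.thr 16 31 (.thr 48 15 (.thr 0 32 (.thr 12 8 (.thr 36 24 (.thr 52 20 (.dbl 7 6 22))))))) (.rp 63 (.thr 48 15 (.thr 7 6 (.thr 31 16 (.thr 22 52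 (.thr 30 18 (.thr 23 20 (.thr 28 29 (.dbl 19 25 27)))))))) (.rp 48 (.str 63 (.nv (.thr 31 16 (.thr 47 15 (.dbl 42 0 32))) (.rp 47 (.thr 7 6 (.thr 22 52 (.thr 23 20 (.thr 3 43 (.thr 11 15 (.dbl 41 56 60)))))) (.rp 42 (.thr 7 6 (.thr 22 52 (.thr 23 20 (.thr 31 16 (.thr 15 47 (.dbl 3 11 43)))))) (.rp 32 (.thr 7 6 (.thr 22 52 (.thr 23 20 (.thr 3 43 (.thr 15 11 (.dbl 31 16 47)))))) (.rp 31 (.thr 7 6 (.thr 22 52 (.thr 23 20 (.thr 3 43 (.thr 11 15 (.dbl 41 56 60)))))) (.rp 16 (.thr 7 6 (.thr 22 52 (.thr 23 20 (.thr 3 43 (.thr 11 15 (.dbl 41 56 60)))))) (.rp 15 (.thr 7 6 (.thr 22 52 (.thr 20 23 (.thr 16 31 (.thr 28 24 (.thr 18 30 (.dbl 19 17 25))))))) (.rp 0 (.thr 7 6 (.thr 22 52 (.thr 23 20 (.thr 3 43 (.thr 15 11 (.dbl 31 16 47)))))) .nd))))))))) (.rp 31 (.thr 7 6 (.thr 48 15 (.thr 22 52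 (.thr 18 30 (.thr 20 23 (.thr 3 33 (.thr 60 41 (.thr 0 40 (.thr 2 1 (.dbl 42 62 63)))))))))) (.rp 16 (.thr 7 6 (.thr 48 15 (.thr 22 52 (.thr 18 30 (.thr 20 23 (.thr 3 33 (.thr 60 41 (.thr 0 40 (.thr 2 1 (.dbl 42 62 63)))))))))) (.rp 7 (.thr 16 31 (.thr 48 15 (.thr 0 32 (.thr 12 8 (.thr 24 36 (.thr 25 27 (.thr 29 17 (.dbl 63 42 46)))))))) (.rp 6 (.thr 16 31 (.thr 48 15 (.thr 0 32 (.thr 12 8 (.thr 24 36 (.thr 25 27 (.thr 29 17 (.dbl 63 42 46)))))))) .nd))))))))))) (.rp 36 (.thr 5 53 (.thr 7 6 (.thr 22 52 (.thr 23 20 (.dbl 55 38 39))))) (.rp 26 (.str 42 (.nv (.thr 0 63 (.thr 12 8 (.thr 32 47 (.thr 48 16 (.thr 36 24 (.thr 20 52 (.dbl 40 44 60))))))) (.nv (.thr 38 55 (.thr 36 39 (.thr 52 20 (.thr 7 22 (.dbl 5 6 53))))) (.nv (.thr 38 55 (.thr 34 46 (.thr 0 63 (.thr 51 17 (.dbl 12 8 25)))))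 (.rp 53 (.thr 47 32 (.thr 38 55 (.thr 39 36 (.thr 35 43 (.thr 44 41 (.dbl 46 34 45)))))) .nd))))) (.rp 23 (.thr 5 53 (.thr 7 6 (.thr 52 22 (.thr 36 20 (.dbl 38 39 55))))) (.rp 22 (.str 26 (.nv (.thr 5 53 (.thr 7 6 (.thr 31 16 (.thr 15 48 (.thr 63 47 (.thr 3 11 (.thr 23 43 (.dbl 55 38 39)))))))) (.nv (.thr 15 48 (.thr 38 55 (.thr 14 50 (.thr 12 13 (.thr 39 36 (.dbl 51 25 27)))))) (.nv (.thr 16 31 (.thr 38 55 (.thr 48 15 (.thr 0 32 (.thr 12 8 (.dbl 36 24 39)))))) (.rp 63 (.thr 16 31 (.thr 38 55 (.thr 36 39 (.thr 20 52 (.thr 24 28 (.dbl 48 12 15)))))) (.rp 55 (.thr 16 31 (.thr 48 15 (.thr 0 32 (.thr 12 8 (.thr 24 36 (.thr 25 27 (.thr 17 29 (.dbl 51 34 38)))))))) (.rp 48 (.thr 16 31 (.thr 53 5 (.thr 38 55 (.thr 36 39 (.thr 20 52 (.thr 24 28 (.thr 25 27 (.thr 49 13 (.thr 61 57 (.thr 1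 41 (.dbl 17 29 33))))))))))) (.rp 39 (.thr 16 31 (.thr 48 15 (.thr 0 32 (.thr 12 8 (.thr 24 36 (.thr 38 55 (.dbl 25 27 51))))))) (.rp 38 (.thr 16 31 (.thr 48 15 (.thr 0 32 (.thr 12 8 (.thr 24 36 (.thr 25 27 (.thr 29 17 (.dbl 63 42 46)))))))) (.rp 15 (.thr 16 31 (.thr 38 55 (.thr 36 39 (.thr 20 52 (.thr 24 28 (.thr 12 48 (.dbl 25 27 51))))))) .nd)))))))))) (.rp 20 (.str 42 (.nv (.thr 0 63 (.thr 12 8 (.thr 32 47 (.thr 38 55 (.thr 36 39 (.dbl 48 16 24)))))) (.nv (.thr 32 47 (.thr 38 55 (.thr 34 46 (.thr 35 33 (.thr 36 39 (.dbl 44 40 41)))))) (.nv (.thr 38 55 (.thr 34 46 (.thr 0 63 (.thr 51 17 (.dbl 12 8 25))))) (.rp 55 (.thr 32 47 (.thr 0 63 (.thr 12 8 (.thr 5 53 (.thr 48 16 (.thr 6 7 (.thr 9 3 (.thr 13 1 (.dbl 15 14 26))))))))) (.rp 38 (.thr 32 47 (.thr 0 63 (.thr 8 12 (.thr 25 59 (.thr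 49 13 (.thr 48 16 (.thr 51 50 (.dbl 17 29 34)))))))) .nd)))))) (.rp 7 (.str 42 (.nv (.thr 0 63 (.thr 12 8 (.thr 38 55 (.thr 51 25 (.dbl 34 17 46))))) (.nv (.thr 0 63 (.thr 12 8 (.thr 32 47 (.thr 48 16 (.thr 36 24 (.thr 20 52 (.dbl 40 44 60))))))) (.nv (.thr 38 55 (.thr 39 36 (.thr 46 34 (.thr 47 32 (.thr 35 43 (.dbl 44 41 45)))))) .nd)))) (.rp 5 (.thr 38 55 (.thr 39 36 (.str 15 (.nv (.thr 26 48 (.thr 14 50 (.thr 12 13 (.thr 0 8 (.thr 31 16 (.dbl 63 42 47)))))) (.nv (.thr 51 27 (.thr 12 25 (.thr 0 8 (.thr 34 17 (.dbl 42 46 63))))) (.nv (.thr 51 27 (.thr 12 25 (.thr 26 48 (.dbl 14 13 50)))) (.rp 63 (.thr 51 27 (.thr 12 25 (.thr 14 13 (.dbl 26 48 50)))) (.rp 51 (.thr 26 48 (.thr 31 16 (.thr 63 47 (.thr 0 42 (.thr 12 8 (.dbl 14 13 50)))))) (.rp 42 (.thr 26 48 (.thr 51 27 (.thr 12 25 (.dbl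 14 13 50)))) (.rp 26 (.str 42 (.nv (.thr 34 46 (.thr 51 27 (.thr 17 0 (.dbl 25 12 29)))) (.nv (.thr 63 0 (.dbl 47 31 32)) (.rp 0 (.thr 46 34 (.thr 47 32 (.thr 44 45 (.dbl 35 41 43)))) .nd)))) (.rp 12 (.thr 27 51 (.thr 26 48 (.thr 24 25 (.thr 31 16 (.thr 63 47 (.thr 23 19 (.thr 22 20 (.thr 7 52 (.dbl 3 11 43))))))))) .nd))))))))))) .nd)))))))))))))))

theorem w393 : WinAt (137441050624, 288230376151712768) :=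
  chF (K := []) kn c393 137441050624 288230376151712768 58
    [288234774265332736] (by decide +kernel) (by decide +kernel)

/-- A certificate. -/
noncomputable def c394 : Ct := (.str 13 (.nv (.thr 25 49 (.thr 29 17 (.thr 61 45 (.dbl 1 9 41)))) (.nv (.thr 1 9 (.thr 61 41 (.thr 25 49 (.dbl 29 17 45)))) (.rp 61 (.thr 49 25 (.str 42 (.nv (.thr 0 63 (.thr 1 9 (.thr 3 2 (.thr 33 17 (.thr 41 45 (.thr 40 43 (.dbl 60 20 22))))))) (.nv (.thr 1 9 (.thr 33 17 (.thr 41 45 (.thr 40 43 (.thr 32 47 (.thr 44 36 (.dbl 35 34 38))))))) (.nv (.thr 32 47 (.thr 0 63 (.thr 48 16 (.thr 51 50 (.thr 17 34 (.dbl 1 9 33)))))) (.rp 33 (.thr 9 1 (.thr 0 63 (.thr 32 47 (.thr 48 16 (.thr 15 26 (.thr 12 14 (.thr 6 3 (.dbl 4 7 8)))))))) (.rp 17 (.thr 9 1 (.thr 0 63 (.thr 32 47 (.thr 48 16 (.thr 15 26 (.thr 12 14 (.thr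 6 3 (.dbl 4 7 8)))))))) (.rp 9 (.thr 63 0 (.thr 47 32 (.thr 15 31 (.thr 12 14 (.thr 46 29 (.thr 38 34 (.thr 36 39 (.dbl 48 24 26)))))))) (.rp 1 (.thr 63 0 (.thr 47 32 (.thr 15 31 (.thr 12 14 (.thr 46 29 (.thr 38 34 (.thr 36 39 (.dbl 48 24 26)))))))) .nd))))))))) (.rp 49 (.str 61 (.nv (.dbl 1 9 41) (.rp 41 (.str 7 (.nv (.thr 4 6 (.thr 22 52 (.thr 55 38 (.dbl 23 20 39)))) (.nv (.thr 22 52 (.thr 23 20 (.thr 55 39 (.dbl 4 6 38)))) (.rp 55 (.thr 45 29 (.thr 9 1 (.thr 6 4 (.thr 3 12 (.thr 15 11 (.thr 52 22 (.thr 60 30 (.dbl 48 26 56)))))))) (.rp 52 (.thr 29 45 (.thr 9 1 (.thr 6 4 (.thr 12 3 (.thr 63 46 (.thr 15 14 (.thr 47 31 (.dbl 42 0 32)))))))) (.rp 39 (.thr 29 45 (.thr 25 17 (.thr 4 6 (.thr 38 55 (.thr 12 51 (.thr 63 46 (.dbl 0 8 42))))))) (.rp 38 (.thr 29 45 (.thr 25 17 (.thr 22 52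 (.thr 20 23 (.thr 28 19 (.thr 16 24 (.dbl 31 26 30))))))) (.rp 23 (.thr 4 6 (.thr 38 55 (.thr 36 39 (.dbl 52 20 22)))) (.rp 22 (.thr 29 45 (.thr 25 17 (.thr 4 6 (.thr 38 55 (.thr 12 51 (.thr 63 46 (.dbl 0 8 42))))))) (.rp 20 (.thr 29 45 (.thr 25 17 (.thr 4 6 (.thr 38 55 (.thr 12 51 (.thr 63 46 (.dbl 0 8 42))))))) (.rp 6 (.thr 29 45 (.thr 25 17 (.thr 22 52 (.thr 20 23 (.thr 28 19 (.thr 16 24 (.dbl 31 26 30))))))) (.rp 4 (.thr 29 45 (.thr 25 17 (.thr 22 52 (.thr 20 23 (.thr 28 19 (.thr 16 24 (.dbl 31 26 30))))))) .nd)))))))))))) (.rp 9 (.thr 45 29 (.dbl 41 1 33)) (.rp 1 (.thr 45 29 (.thr 33 41 (.str 15 (.nv (.thr 60 30 (.thr 63 62 (.thr 42 0 (.dbl 47 31 32)))) (.nv (.thr 12 14 (.thr 48 26 (.thr 3 18 (.thr 6 9 (.dbl 7 4 11))))) (.nv (.thr 60 30 (.thr 63 62 (.thr 31 47 (.dbl 26 16 48))))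 (.rp 30 (.thr 12 14 (.thr 48 26 (.thr 36 24 (.thr 38 39 (.thr 4 55 (.thr 52 20 (.dbl 7 6 22))))))) (.rp 14 (.thr 60 30 (.thr 26 48 (.thr 31 16 (.dbl 63 47 62)))) .nd)))))))) .nd))))) (.rp 45 (.str 7 (.nv (.thr 22 52 (.thr 23 20 (.thr 55 39 (.dbl 4 6 38)))) (.nv (.thr 4 6 (.thr 22 52 (.thr 55 38 (.dbl 23 20 39)))) (.rp 55 (.thr 9 1 (.thr 25 49 (.thr 6 4 (.thr 3 12 (.thr 22 52 (.thr 54 38 (.dbl 41 57 60))))))) (.rp 52 (.thr 9 1 (.thr 25 49 (.thr 6 4 (.thr 12 3 (.thr 51 38 (.thr 15 14 (.thr 27 39 (.dbl 26 24 48)))))))) (.rp 39 (.thr 9 1 (.thr 25 49 (.thr 6 4 (.thr 3 12 (.thr 22 52 (.dbl 41 57 60)))))) (.rp 38 (.thr 9 1 (.thr 25 49 (.thr 6 4 (.thr 3 12 (.thr 22 52 (.dbl 41 57 60)))))) (.rp 23 (.thr 4 6 (.thr 38 55 (.thr 36 39 (.dbl 52 20 22)))) (.rp 22 (.thr 25 49 (.thr 29 17 (.thr 4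 6 (.thr 38 55 (.thr 12 51 (.thr 63 46 (.dbl 0 8 42))))))) (.rp 20 (.thr 9 1 (.thr 25 49 (.thr 6 4 (.thr 12 3 (.thr 38 51 (.dbl 22 52 54)))))) (.rp 6 (.thr 1 9 (.thr 41 61 (.thr 22 52 (.thr 23 20 (.thr 3 60 (.thr 63 43 (.dbl 0 2 42))))))) (.rp 4 (.thr 1 9 (.thr 41 61 (.thr 22 52 (.thr 3 60 (.thr 0 2 (.thr 63 42 (.dbl 23 20 43))))))) .nd)))))))))))) (.rp 41 (.str 7 (.nv (.thr 4 6 (.thr 22 52 (.thr 55 38 (.dbl 23 20 39)))) (.nv (.thr 22 52 (.thr 23 20 (.thr 55 39 (.dbl 4 6 38)))) (.rp 55 (.thr 9 1 (.thr 25 49 (.thr 6 4 (.thr 12 3 (.thr 51 38 (.thr 15 14 (.thr 27 39 (.dbl 26 24 48)))))))) (.rp 52 (.thr 9 1 (.thr 25 49 (.thr 6 4 (.thr 12 3 (.thr 51 38 (.thr 15 14 (.thr 27 39 (.dbl 26 24 48)))))))) (.rp 39 (.thr 9 1 (.thr 25 49 (.thr 6 4 (.thr 12 3 (.thr 38 51 (.dbl 22 52 54)))))) (.rp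 38 (.thr 25 49 (.thr 29 17 (.thr 22 52 (.thr 20 23 (.thr 28 19 (.thr 16 24 (.dbl 31 26 30))))))) (.rp 23 (.thr 4 6 (.thr 38 55 (.thr 36 39 (.dbl 52 20 22)))) (.rp 22 (.thr 25 49 (.thr 29 17 (.thr 4 6 (.thr 38 55 (.thr 12 51 (.thr 63 46 (.dbl 0 8 42))))))) (.rp 20 (.thr 9 1 (.thr 25 49 (.thr 6 4 (.thr 12 3 (.thr 38 51 (.dbl 22 52 54)))))) (.rp 6 (.thr 25 49 (.thr 29 17 (.thr 22 52 (.thr 20 23 (.thr 28 19 (.thr 16 24 (.dbl 31 26 30))))))) (.rp 4 (.thr 25 49 (.thr 29 17 (.thr 22 52 (.thr 20 23 (.thr 28 19 (.thr 16 24 (.dbl 31 26 30))))))) .nd)))))))))))) (.rp 29 (.thr 1 9 (.thr 41 61 (.thr 33 45 (.dbl 49 17 25)))) (.rp 25 (.str 42 (.nv (.thr 0 63 (.thr 1 9 (.thr 3 2 (.thr 32 47 (.thr 48 16 (.thr 33 18 (.dbl 41 45 61))))))) (.nv (.thr 0 63 (.thr 1 9 (.thr 3 2 (.thr 41 61 (.thr 60 22 (.dbl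 40 20 43)))))) (.nv (.thr 1 9 (.thr 32 47 (.thr 41 61 (.thr 33 45 (.thr 35 34 (.thr 40 43 (.dbl 44 36 38))))))) (.rp 61 (.thr 9 1 (.thr 32 47 (.thr 0 63 (.thr 48 16 (.thr 15 26 (.thr 12 14 (.thr 6 3 (.dbl 4 7 8)))))))) (.rp 57 (.thr 47 32 (.thr 63 0 (.thr 15 31 (.thr 12 14 (.thr 29 46 (.thr 61 45 (.dbl 1 9 41))))))) (.rp 41 (.thr 9 1 (.thr 32 47 (.thr 0 63 (.thr 48 16 (.thr 15 26 (.thr 12 14 (.thr 6 3 (.dbl 4 7 8)))))))) (.rp 11 (.thr 47 32 (.thr 63 0 (.thr 15 31 (.thr 12 14 (.thr 29 46 (.thr 61 45 (.dbl 1 9 41))))))) (.rp 9 (.thr 47 32 (.thr 63 0 (.thr 15 31 (.thr 12 14 (.thr 46 29 (.thr 38 34 (.thr 36 39 (.dbl 48 24 26)))))))) (.rp 8 (.thr 47 32 (.thr 63 0 (.thr 15 31 (.thr 12 14 (.thr 29 46 (.thr 61 45 (.dbl 1 9 41))))))) (.rp 1 (.thr 47 32 (.thr 63 0 (.thr 15 31 (.thr 12 14 (.thr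 46 29 (.thr 38 34 (.thr 36 39 (.dbl 48 24 26)))))))) .nd))))))))))) (.rp 17 (.str 7 (.nv (.thr 22 52 (.thr 23 20 (.thr 55 39 (.dbl 4 6 38)))) (.nv (.thr 4 6 (.thr 22 52 (.thr 55 38 (.dbl 23 20 39)))) (.rp 55 (.thr 9 1 (.thr 6 4 (.thr 3 12 (.thr 22 52 (.thr 54 38 (.thr 41 60 (.dbl 25 49 57))))))) (.rp 52 (.thr 9 1 (.thr 6 4 (.thr 3 12 (.thr 15 11 (.thr 48 26 (.thr 25 49 (.thr 33 18 (.dbl 41 45 57)))))))) (.rp 39 (.thr 9 1 (.thr 6 4 (.thr 3 12 (.thr 22 52 (.thr 41 60 (.dbl 25 49 57)))))) (.rp 38 (.thr 9 1 (.thr 6 4 (.thr 3 12 (.thr 22 52 (.thr 41 60 (.dbl 25 49 57)))))) (.rp 23 (.thr 4 6 (.thr 38 55 (.thr 36 39 (.dbl 52 20 22)))) (.rp 22 (.thr 9 1 (.thr 6 4 (.thr 12 3 (.thr 15 14 (.thr 48 26 (.thr 36 24 (.thr 38 39 (.dbl 25 49 51)))))))) (.rp 20 (.thr 1 9 (.thr 41 61 (.thr 33 45 (.thr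 22 52 (.thr 3 60 (.thr 48 18 (.dbl 15 11 26))))))) (.rp 6 (.thr 1 9 (.thr 41 61 (.thr 33 45 (.thr 22 52 (.thr 3 60 (.thr 48 18 (.dbl 15 11 26))))))) (.rp 4 (.thr 1 9 (.thr 41 61 (.thr 33 45 (.thr 22 52 (.thr 3 60 (.thr 48 18 (.dbl 15 11 26))))))) .nd)))))))))))) (.rp 9 (.str 0 (.nv (.thr 25 49 (.thr 17 29 (.thr 51 34 (.thr 38 12 (.thr 4 55 (.thr 36 39 (.thr 52 20 (.dbl 7 6 22)))))))) (.nv (.thr 25 49 (.thr 29 17 (.thr 61 45 (.thr 63 42 (.thr 60 62 (.thr 20 40 (.thr 22 23 (.dbl 41 1 3)))))))) (.nv (.thr 42 63 (.thr 32 47 (.thr 48 16 (.thr 15 26 (.thr 12 14 (.thr 36 24 (.thr 38 39 (.dbl 4 8 55)))))))) (.nv (.thr 25 49 (.thr 29 17 (.thr 63 42 (.thr 12 46 (.thr 38 51 (.dbl 4 8 55)))))) (.rp 63 (.thr 25 49 (.thr 17 29 (.thr 51 34 (.thr 12 38 (.thr 15 14 (.thr 27 39 (.dbl 26 24 48)))))))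 (.rp 25 (.thr 42 63 (.thr 32 47 (.thr 48 16 (.thr 15 26 (.thr 12 14 (.thr 24 36 (.thr 8 4 (.thr 40 56 (.thr 41 43 (.thr 61 1 (.dbl 45 29 33))))))))))) (.rp 11 (.str 8 (.nv (.thr 12 4 (.thr 15 14 (.thr 26 48 (.thr 31 16 (.dbl 63 42 47))))) (.nv (.thr 25 49 (.thr 17 29 (.thr 12 4 (.dbl 51 34 38)))) (.rp 43 (.str 27 (.nv (.thr 25 49 (.thr 26 24 (.thr 16 31 (.dbl 48 15 32)))) (.nv (.thr 12 4 (.thr 15 14 (.thr 26 48 (.thr 31 16 (.dbl 63 42 47))))) (.nv (.thr 25 49 (.thr 17 29 (.thr 12 4 (.dbl 51 34 38)))) .nd)))) (.rp 27 (.str 43 (.nv (.thr 42 63 (.thr 41 40 (.thr 45 33 (.dbl 61 1 29)))) (.nv (.thr 12 4 (.thr 15 14 (.thr 26 48 (.thr 31 16 (.dbl 63 42 47))))) (.nv (.thr 25 49 (.thr 17 29 (.thr 12 4 (.dbl 51 34 38)))) .nd)))) (.rp 12 (.thr 25 49 (.thr 29 17 (.thr 61 45 (.thr 63 42 (.thr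 60 62 (.thr 20 40 (.thr 22 23 (.dbl 41 1 3)))))))) (.rp 4 (.thr 25 49 (.thr 29 17 (.thr 63 42 (.thr 12 46 (.thr 15 14 (.thr 31 47 (.dbl 26 16 48))))))) .nd))))))) (.rp 8 (.str 11 (.nv (.thr 42 63 (.thr 32 47 (.thr 48 16 (.thr 15 26 (.thr 12 14 (.thr 36 24 (.thr 38 39 (.dbl 25 49 51)))))))) (.nv (.thr 25 49 (.thr 17 29 (.thr 51 34 (.thr 38 12 (.thr 4 55 (.thr 36 39 (.thr 52 20 (.dbl 7 6 22)))))))) (.nv (.thr 42 63 (.thr 32 47 (.thr 48 16 (.thr 15 26 (.thr 3 7 (.thr 1 2 (.thr 33 18 (.dbl 41 45 61)))))))) (.nv (.thr 25 49 (.thr 29 17 (.thr 61 45 (.thr 63 42 (.thr 60 62 (.thr 20 40 (.thr 22 23 (.dbl 41 1 3)))))))) (.nv (.thr 25 49 (.thr 17 29 (.thr 51 34 (.thr 12 38 (.thr 42 63 (.thr 32 47 (.thr 48 16 (.dbl 15 14 26)))))))) (.rp 63 (.thr 25 49 (.thr 17 29 (.thr 51 34 (.thr 12 38 (.thr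 15 14 (.thr 27 39 (.dbl 26 24 48))))))) .nd))))))) .nd))))))))) (.rp 1 (.str 7 (.nv (.thr 22 52 (.thr 23 20 (.thr 55 39 (.dbl 4 6 38)))) (.nv (.thr 4 6 (.thr 55 38 (.thr 22 52 (.dbl 23 20 39)))) (.rp 55 (.thr 25 49 (.thr 17 29 (.thr 6 4 (.thr 22 52 (.thr 54 38 (.thr 19 28 (.thr 16 18 (.thr 31 26 (.dbl 23 20 27))))))))) (.rp 52 (.thr 25 49 (.thr 17 29 (.thr 4 6 (.thr 55 38 (.thr 23 39 (.thr 22 20 (.thr 19 28 (.thr 31 27 (.dbl 16 18 26))))))))) (.rp 39 (.thr 25 49 (.thr 17 29 (.thr 22 52 (.thr 23 20 (.thr 19 28 (.thr 31 27 (.dbl 16 18 26))))))) (.rp 38 (.thr 25 49 (.thr 17 29 (.thr 22 52 (.thr 23 20 (.thr 19 28 (.thr 31 27 (.dbl 16 18 26))))))) (.rp 23 (.thr 4 6 (.thr 38 55 (.thr 36 39 (.dbl 52 20 22)))) (.rp 22 (.thr 25 49 (.thr 17 29 (.thr 4 6 (.thr 38 55 (.thr 39 36 (.thr 51 12 (.thr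 15 27 (.thr 0 34 (.thr 63 42 (.thr 31 47 (.dbl 26 16 48))))))))))) (.rp 20 (.thr 25 49 (.thr 17 29 (.thr 4 6 (.thr 55 38 (.thr 23 39 (.thr 22 52 (.thr 19 28 (.thr 31 27 (.dbl 16 18 26))))))))) (.rp 6 (.thr 25 49 (.thr 17 29 (.thr 22 52 (.thr 23 20 (.thr 19 28 (.thr 31 27 (.dbl 16 18 26))))))) (.rp 4 (.thr 25 49 (.thr 17 29 (.thr 22 52 (.thr 19 28 (.thr 16 18 (.thr 31 26 (.dbl 23 20 27))))))) .nd)))))))))))) .nd))))))))))))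

theorem w394 : WinAt (137441050656, 585467951558165504) :=
  chF (K := []) kn c394 137441050656 585467951558165504 53
    [] (by decide +kernel) (by decide +kernel)

/-- A certificate. -/
noncomputable def c395 : Ct := (.str 1 (.nv (.thr 41 61 (.thr 33 45 (.thr 49 17 (.dbl 13 9 25)))) (.nv (.thr 13 9 (.thr 25 49 (.thr 61 41 (.dbl 29 17 45)))) (.nv (.thr 13 9 (.thr 49 25 (.thr 33 17 (.dbl 41 45 61)))) (.rp 61 (.str 63 (.nv (.thr 0 42 (.thr 13 9 (.thr 49 25 (.thr 17 33 (.thr 51 34 (.thr 48 50 (.thr 26 15 (.dbl 16 31 32)))))))) (.nv (.thr 0 42 (.thr 3 2 (.thr 23 43 (.thr 22 20 (.thr 7 52 (.thr 55 39 (.dbl 4 6 38))))))) (.nv (.thr 13 9 (.thr 42 0 (.thr 47 32 (.thr 15 31 (.thr 12 14 (.thr 29 46 (.dbl 25 17 49))))))) (.rp 57 (.str 49 (.nv (.dbl 13 9 25) (.rp 54 (.str 51 (.nv (.thr 55 59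 (.thr 17 33 (.dbl 0 34 42))) (.nv (.dbl 13 9 25) (.rp 55 (.str 52 (.nv (.thr 0 42 (.dbl 17 33 34)) (.nv (.dbl 13 9 25) .nd))) .nd)))) (.rp 51 (.str 54 (.nv (.dbl 13 9 25) (.rp 25 (.thr 33 17 (.thr 0 42 (.thr 3 2 (.thr 48 18 (.thr 26 15 (.dbl 16 31 32)))))) (.rp 13 (.thr 33 17 (.thr 0 42 (.thr 3 2 (.thr 48 18 (.thr 26 15 (.dbl 16 31 32)))))) (.rp 9 (.thr 25 13 (.dbl 17 29 33)) .nd))))) (.rp 25 (.thr 17 33 (.thr 0 42 (.thr 51 34 (.thr 48 50 (.thr 26 15 (.dbl 16 31 32)))))) (.rp 13 (.thr 17 33 (.thr 0 42 (.thr 51 34 (.thr 55 59 (.thr 38 4 (.dbl 25 12 29)))))) (.rp 9 (.thr 17 33 (.dbl 25 13 29)) .nd))))))) (.rp 49 (.str 57 (.nv (.thr 0 42 (.thr 9 13 (.thr 25 41 (.thr 29 17 (.thr 12 46 (.thr 4 8 (.dbl 38 51 55))))))) (.nv (.thr 0 42 (.thr 3 2 (.thr 23 43 (.thr 22 20 (.thr 7 52 (.thr 55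 39 (.dbl 4 6 38))))))) (.nv (.thr 9 13 (.thr 25 41 (.thr 29 17 (.thr 12 46 (.thr 3 6 (.dbl 0 2 42)))))) (.rp 42 (.thr 9 13 (.thr 25 41 (.thr 29 17 (.thr 12 46 (.thr 38 51 (.thr 4 55 (.dbl 6 3 7))))))) (.rp 41 (.thr 9 13 (.thr 0 42 (.thr 3 2 (.thr 6 12 (.thr 7 4 (.thr 22 52 (.dbl 23 20 43))))))) (.rp 22 (.thr 9 13 (.thr 41 25 (.thr 45 33 (.thr 42 0 (.thr 47 32 (.thr 44 46 (.thr 35 38 (.dbl 43 39 40)))))))) (.rp 3 (.thr 9 13 (.thr 41 25 (.thr 45 33 (.thr 42 0 (.thr 47 32 (.thr 44 46 (.thr 35 38 (.dbl 43 39 40)))))))) (.rp 0 (.thr 9 13 (.thr 25 41 (.thr 29 17 (.thr 12 46 (.thr 3 6 (.thr 23 43 (.thr 51 38 (.thr 55 59 (.thr 7 39 (.dbl 22 20 52)))))))))) .nd))))))))) (.rp 48 (.thr 9 13 (.thr 0 42 (.thr 3 2 (.thr 23 43 (.thr 22 20 (.thr 6 12 (.dbl 7 4 52))))))) (.rp 42 (.str 26 (.nv (.thr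 31 16 (.dbl 15 47 48)) (.rp 57 (.str 49 (.nv (.thr 15 48 (.dbl 31 16 47)) (.nv (.dbl 13 9 25) (.rp 54 (.str 51 (.nv (.dbl 48 15 50) (.nv (.dbl 13 9 25) (.rp 55 (.str 52 (.nv (.dbl 13 9 25) (.nv (.dbl 48 15 50) .nd))) (.rp 52 (.thr 55 59 (.dbl 13 9 25)) .nd))))) (.rp 51 (.str 54 (.nv (.thr 15 48 (.dbl 31 16 47)) (.nv (.dbl 13 9 25) .nd))) .nd))))) (.rp 49 (.str 57 (.nv (.thr 31 16 (.dbl 15 47 48)) (.rp 48 (.thr 9 13 (.thr 25 41 (.thr 29 17 (.thr 31 16 (.thr 27 24 (.thr 19 23 (.dbl 28 22 30))))))) (.rp 47 (.thr 9 13 (.thr 25 41 (.thr 29 17 (.thr 48 15 (.thr 24 27 (.dbl 12 36 46)))))) (.rp 31 (.thr 9 13 (.thr 25 41 (.thr 29 17 (.thr 48 15 (.thr 24 27 (.dbl 12 36 46)))))) (.rp 16 (.thr 9 13 (.thr 25 41 (.thr 29 17 (.thr 48 15 (.thr 24 27 (.dbl 12 36 46)))))) (.rp 15 (.thr 9 13 (.thr 25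 41 (.thr 29 17 (.thr 31 16 (.thr 27 24 (.thr 19 23 (.dbl 28 22 30))))))) .nd))))))) (.rp 48 (.thr 13 9 (.thr 31 16 (.thr 15 47 (.thr 12 14 (.thr 29 46 (.dbl 25 17 49)))))) (.rp 47 (.thr 13 9 (.thr 15 48 (.thr 12 14 (.thr 29 46 (.dbl 25 17 49))))) (.rp 31 (.thr 13 9 (.thr 15 48 (.thr 12 14 (.thr 29 46 (.dbl 25 17 49))))) (.rp 16 (.thr 13 9 (.thr 15 48 (.thr 12 14 (.thr 29 46 (.dbl 25 17 49))))) (.rp 15 (.thr 16 31 (.str 25 (.nv (.thr 49 13 (.dbl 17 29 33)) (.nv (.dbl 13 9 49) (.rp 49 (.str 57 (.nv (.dbl 9 13 41) (.rp 45 (.str 30 (.nv (.thr 22 18 (.thr 20 23 (.dbl 24 27 28))) (.nv (.dbl 9 13 41) (.rp 29 (.thr 13 9 (.thr 24 27 (.thr 20 28 (.dbl 22 18 23)))) (.rp 13 (.thr 29 17 (.thr 24 27 (.thr 20 28 (.dbl 22 18 23)))) .nd))))) (.rp 41 (.thr 17 29 (.thr 24 27 (.thr 28 20 (.dbl 19 18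 22)))) (.rp 30 (.str 45 (.nv (.thr 29 17 (.dbl 41 9 33)) (.nv (.dbl 9 13 41) (.rp 41 (.thr 24 27 (.thr 17 29 (.thr 28 20 (.dbl 19 18 22)))) (.rp 29 (.str 28 (.nv (.dbl 24 20 27) (.nv (.dbl 9 13 41) .nd))) (.rp 9 (.thr 24 27 (.thr 17 29 (.thr 28 20 (.dbl 19 18 22)))) .nd)))))) (.rp 13 (.thr 24 27 (.thr 28 20 (.thr 19 22 (.dbl 17 18 29)))) (.rp 9 (.thr 17 29 (.thr 24 27 (.thr 28 20 (.dbl 19 18 22)))) .nd))))))) (.rp 45 (.str 30 (.nv (.dbl 13 9 49) (.rp 57 (.thr 49 13 (.thr 29 17 (.thr 24 27 (.thr 20 28 (.dbl 22 18 23))))) (.rp 49 (.str 57 (.nv (.thr 22 18 (.thr 20 23 (.dbl 24 27 28))) (.nv (.dbl 9 13 41) (.rp 29 (.thr 13 9 (.thr 24 27 (.thr 20 28 (.dbl 22 18 23)))) (.rp 13 (.thr 29 17 (.thr 24 27 (.thr 20 28 (.dbl 22 18 23)))) .nd))))) (.rp 13 (.thr 29 17 (.thr 24 27 (.thr 20 28 (.dbl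 22 18 23)))) (.rp 9 (.thr 18 22 (.dbl 17 19 29)) .nd)))))) (.rp 30 (.str 45 (.nv (.thr 33 41 (.dbl 17 29 49)) (.nv (.dbl 13 9 49) (.rp 57 (.thr 49 13 (.dbl 17 29 33)) (.rp 49 (.str 57 (.nv (.thr 29 17 (.dbl 41 9 33)) (.nv (.dbl 9 13 41) (.rp 41 (.thr 24 27 (.thr 17 29 (.thr 28 20 (.dbl 19 18 22)))) (.rp 29 (.str 28 (.nv (.dbl 24 20 27) (.nv (.dbl 9 13 41) .nd))) (.rp 9 (.thr 24 27 (.thr 17 29 (.thr 28 20 (.dbl 19 18 22)))) .nd)))))) (.rp 29 (.str 28 (.nv (.dbl 24 20 27) (.nv (.dbl 13 9 49) (.rp 57 (.thr 49 13 (.dbl 33 17 41)) (.rp 49 (.str 57 (.nv (.dbl 24 20 27) (.nv (.dbl 9 13 41) .nd))) .nd))))) (.rp 28 (.thr 29 17 (.dbl 13 9 49)) .nd))))))) (.rp 13 (.thr 24 27 (.thr 28 20 (.thr 19 22 (.dbl 17 18 29)))) .nd)))))))) .nd))))))))) (.rp 2 (.thr 13 9 (.thr 49 25 (.thr 33 17 (.thr 41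 45 (.thr 42 0 (.thr 32 47 (.thr 40 43 (.thr 44 36 (.dbl 35 34 38))))))))) (.rp 0 (.str 49 (.nv (.dbl 13 9 25) (.rp 40 (.str 20 (.nv (.dbl 13 9 25) (.rp 25 (.thr 9 13 (.thr 23 22 (.thr 3 43 (.thr 6 12 (.thr 4 7 (.thr 36 52 (.dbl 38 39 55))))))) (.rp 13 (.thr 33 17 (.thr 23 22 (.thr 3 43 (.thr 48 18 (.thr 51 50 (.thr 19 35 (.thr 31 27 (.dbl 15 26 47)))))))) (.rp 9 (.thr 17 33 (.dbl 25 13 29)) .nd))))) (.rp 25 (.thr 17 33 (.str 51 (.nv (.thr 48 50 (.thr 15 26 (.thr 27 39 (.thr 31 47 (.thr 23 19 (.thr 43 3 (.dbl 59 11 55))))))) (.nv (.thr 55 59 (.thr 4 38 (.thr 7 6 (.thr 23 39 (.dbl 22 20 52))))) (.nv (.thr 48 50 (.thr 55 59 (.thr 38 4 (.thr 39 36 (.dbl 15 26 27))))) (.rp 59 (.thr 9 13 (.thr 48 50 (.thr 26 15 (.thr 16 31 (.thr 19 18 (.thr 3 35 (.thr 23 43 (.thr 20 22 (.thr 24 28 (.dbl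 12 6 36)))))))))) (.rp 55 (.thr 9 13 (.thr 48 50 (.thr 26 15 (.thr 16 31 (.thr 19 18 (.thr 3 35 (.thr 23 43 (.thr 20 22 (.thr 24 28 (.dbl 12 6 36)))))))))) (.rp 42 (.thr 9 13 (.thr 48 50 (.thr 26 15 (.thr 16 31 (.thr 19 18 (.thr 3 35 (.thr 23 43 (.thr 20 22 (.thr 24 28 (.dbl 12 6 36)))))))))) (.rp 40 (.str 20 (.nv (.thr 48 50 (.thr 15 26 (.thr 55 59 (.thr 38 4 (.dbl 39 27 36))))) (.nv (.thr 22 23 (.thr 48 50 (.thr 26 15 (.thr 16 31 (.dbl 18 19 30))))) (.nv (.thr 22 23 (.thr 52 7 (.thr 55 59 (.dbl 4 36 38)))) .nd)))) (.rp 39 (.thr 55 59 (.thr 48 50 (.thr 26 15 (.thr 16 31 (.thr 18 19 (.thr 4 38 (.thr 7 6 (.dbl 22 30 52)))))))) (.rp 38 (.thr 13 9 (.thr 59 55 (.thr 48 50 (.thr 15 26 (.thr 14 12 (.thr 27 39 (.thr 31 47 (.thr 23 19 (.dbl 43 3 11))))))))) (.rp 20 (.str 40 (.nv (.thr 48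 50 (.thr 55 59 (.thr 4 38 (.thr 7 6 (.thr 39 23 (.dbl 15 26 27)))))) (.nv (.thr 48 50 (.thr 15 26 (.thr 47 31 (.thr 42 32 (.thr 43 41 (.dbl 39 27 35)))))) (.nv (.thr 55 59 (.thr 48 50 (.thr 15 26 (.thr 38 4 (.dbl 39 27 36))))) (.rp 50 (.thr 55 59 (.thr 4 38 (.thr 7 6 (.thr 39 23 (.thr 15 27 (.thr 31 47 (.dbl 26 16 48))))))) (.rp 48 (.thr 9 13 (.thr 55 59 (.thr 4 38 (.thr 6 7 (.thr 3 12 (.thr 35 19 (.thr 43 23 (.thr 47 39 (.dbl 42 32 41))))))))) (.rp 42 (.thr 9 13 (.thr 48 50 (.thr 26 15 (.thr 16 31 (.thr 19 18 (.thr 3 35 (.thr 12 6 (.thr 36 24 (.thr 38 39 (.dbl 55 4 59)))))))))) (.rp 39 (.thr 55 59 (.thr 48 50 (.thr 26 15 (.thr 16 31 (.thr 18 19 (.thr 4 38 (.thr 7 6 (.dbl 22 30 52)))))))) (.rp 38 (.thr 13 9 (.thr 59 55 (.thr 48 50 (.thr 15 26 (.thr 14 12 (.thr 47 31 (.thr 27 39 (.thr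 42 32 (.dbl 43 11 41))))))))) (.rp 27 (.thr 55 59 (.thr 48 50 (.thr 26 15 (.thr 16 31 (.thr 4 38 (.thr 7 6 (.thr 22 52 (.dbl 18 19 30)))))))) (.rp 26 (.thr 55 59 (.thr 48 50 (.thr 38 4 (.thr 36 39 (.thr 32 44 (.thr 42 47 (.thr 46 34 (.dbl 12 24 29)))))))) (.rp 15 (.thr 55 59 (.thr 48 50 (.thr 38 4 (.thr 36 39 (.thr 32 44 (.thr 12 24 (.thr 42 47 (.dbl 46 29 34)))))))) .nd)))))))))))) .nd)))))))))))) (.rp 20 (.str 40 (.nv (.dbl 13 9 25) (.rp 25 (.thr 33 17 (.thr 41 45 (.thr 42 43 (.thr 32 47 (.thr 44 36 (.dbl 35 34 38)))))) (.rp 13 (.thr 17 33 (.thr 29 25 (.str 51 (.nv (.thr 55 59 (.thr 38 4 (.thr 36 39 (.thr 32 44 (.thr 42 47 (.dbl 46 12 34)))))) (.nv (.thr 48 50 (.thr 15 26 (.thr 47 31 (.thr 42 32 (.thr 43 41 (.dbl 39 27 35)))))) (.nv (.thr 55 59 (.thr 48 50 (.thr 12 46 (.thr 38 4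 (.dbl 36 24 39))))) (.rp 42 (.thr 48 50 (.thr 12 46 (.thr 36 24 (.thr 38 39 (.dbl 55 4 59))))) (.rp 39 (.thr 48 50 (.thr 15 26 (.thr 47 31 (.thr 46 12 (.thr 44 45 (.dbl 32 36 42)))))) (.rp 38 (.thr 59 55 (.thr 48 50 (.thr 26 15 (.thr 16 31 (.thr 19 18 (.thr 3 35 (.thr 43 23 (.thr 11 27 (.dbl 41 42 56))))))))) .nd))))))))) (.rp 9 (.thr 25 13 (.dbl 17 29 33)) .nd))))) (.rp 13 (.thr 17 33 (.thr 29 25 (.str 55 (.nv (.thr 12 46 (.thr 38 4 (.thr 36 39 (.thr 48 24 (.dbl 51 50 59))))) (.nv (.thr 4 38 (.thr 7 6 (.thr 23 39 (.dbl 22 20 52)))) (.rp 51 (.thr 4 38 (.thr 12 46 (.thr 7 6 (.thr 23 39 (.dbl 22 20 52))))) (.rp 40 (.str 20 (.nv (.thr 12 46 (.thr 23 22 (.thr 3 43 (.thr 6 9 (.dbl 7 4 39))))) (.nv (.thr 4 38 (.thr 12 46 (.thr 36 52 (.thr 48 24 (.dbl 51 50 59))))) (.nv (.thr 22 23 (.thr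 52 7 (.dbl 4 36 38))) (.rp 4 (.thr 51 59 (.thr 23 22 (.thr 39 7 (.thr 15 27 (.dbl 48 26 50))))) .nd))))) (.rp 39 (.thr 51 59 (.thr 4 38 (.thr 7 6 (.thr 12 46 (.thr 48 50 (.thr 36 24 (.dbl 52 20 22))))))) (.rp 38 (.thr 51 59 (.thr 48 50 (.thr 26 15 (.thr 31 16 (.thr 30 28 (.thr 22 18 (.thr 7 52 (.dbl 23 20 39)))))))) (.rp 20 (.str 40 (.nv (.thr 12 46 (.thr 38 4 (.thr 36 39 (.thr 48 24 (.dbl 51 50 59))))) (.nv (.thr 4 38 (.thr 51 59 (.thr 7 6 (.thr 39 23 (.thr 15 27 (.dbl 48 26 50)))))) (.nv (.thr 38 4 (.thr 36 39 (.thr 32 44 (.thr 42 47 (.dbl 46 12 34))))) (.nv (.thr 51 59 (.thr 12 46 (.thr 38 4 (.thr 36 39 (.dbl 48 24 50))))) (.rp 39 (.thr 51 59 (.thr 46 12 (.thr 48 50 (.thr 15 26 (.thr 47 31 (.thr 42 32 (.dbl 38 4 34))))))) (.rp 38 (.thr 51 59 (.thr 12 46 (.thr 48 50 (.thr 26 15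 (.thr 16 31 (.thr 19 18 (.thr 3 35 (.thr 23 43 (.thr 6 9 (.dbl 7 4 39)))))))))) (.rp 4 (.thr 51 59 (.thr 12 46 (.thr 48 50 (.thr 36 24 (.thr 39 38 (.dbl 15 26 27)))))) .nd)))))))) (.rp 12 (.thr 51 59 (.thr 4 38 (.thr 7 6 (.thr 23 39 (.dbl 22 20 52))))) (.rp 4 (.thr 51 59 (.thr 12 46 (.thr 48 50 (.thr 36 24 (.thr 39 38 (.dbl 15 26 27)))))) .nd)))))))))))) (.rp 9 (.thr 17 33 (.dbl 25 13 29)) .nd))))))) .nd)))))))))) (.rp 49 (.thr 61 41 (.str 7 (.nv (.thr 4 6 (.thr 22 52 (.thr 55 38 (.dbl 23 20 39)))) (.nv (.thr 22 52 (.thr 23 20 (.thr 55 39 (.dbl 4 6 38)))) (.nv (.thr 4 6 (.thr 38 55 (.thr 36 39 (.dbl 52 20 22)))) (.rp 55 (.thr 9 13 (.thr 6 4 (.thr 3 12 (.thr 15 11 (.thr 0 2 (.thr 63 42 (.thr 31 47 (.dbl 26 16 48)))))))) (.rp 52 (.thr 9 13 (.thr 6 4 (.thr 3 12 (.thr 15 11 (.thr 0 2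 (.thr 63 42 (.thr 31 47 (.dbl 26 16 48)))))))) (.rp 39 (.thr 9 13 (.thr 6 4 (.thr 3 12 (.thr 22 52 (.thr 0 2 (.thr 63 42 (.dbl 23 20 43))))))) (.rp 38 (.thr 9 13 (.thr 6 4 (.thr 3 12 (.thr 22 52 (.thr 0 2 (.thr 63 42 (.dbl 23 20 43))))))) (.rp 22 (.str 3 (.nv (.thr 9 13 (.dbl 6 4 12)) (.rp 13 (.thr 15 11 (.thr 0 2 (.thr 42 63 (.thr 32 47 (.dbl 48 16 26))))) (.rp 12 (.thr 15 11 (.thr 0 2 (.thr 42 63 (.thr 32 47 (.dbl 48 16 26))))) (.rp 9 (.thr 0 2 (.thr 42 63 (.thr 32 47 (.thr 48 16 (.dbl 15 11 26))))) (.rp 6 (.thr 15 11 (.thr 26 48 (.thr 31 16 (.thr 63 47 (.dbl 0 2 42))))) (.rp 4 (.thr 15 11 (.thr 0 2 (.thr 42 63 (.thr 32 47 (.dbl 48 16 26))))) .nd))))))) (.rp 20 (.thr 13 9 (.thr 29 45 (.thr 25 17 (.thr 4 6 (.thr 38 55 (.thr 12 51 (.thr 63 46 (.dbl 0 8 42)))))))) (.rp 6 (.thr 13 9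 (.thr 29 45 (.thr 25 17 (.thr 22 52 (.thr 20 23 (.thr 28 19 (.thr 16 24 (.dbl 31 26 30)))))))) (.rp 4 (.thr 13 9 (.thr 29 45 (.thr 25 17 (.thr 22 52 (.thr 20 23 (.thr 28 19 (.thr 16 24 (.dbl 31 26 30)))))))) .nd))))))))))))) (.rp 45 (.str 15 (.nv (.thr 13 9 (.thr 25 49 (.thr 26 48 (.thr 27 24 (.thr 51 39 (.dbl 12 14 38)))))) (.nv (.thr 13 9 (.thr 12 14 (.thr 25 49 (.thr 29 17 (.thr 63 46 (.thr 42 0 (.dbl 47 31 32))))))) (.nv (.thr 9 13 (.thr 26 48 (.thr 31 16 (.thr 63 47 (.thr 0 42 (.thr 3 2 (.thr 11 7 (.dbl 41 56 61)))))))) (.nv (.thr 13 9 (.thr 25 49 (.thr 12 14 (.thr 51 38 (.thr 27 39 (.dbl 26 24 48)))))) (.rp 61 (.thr 13 9 (.thr 12 14 (.thr 48 26 (.thr 36 24 (.thr 38 39 (.dbl 25 49 51)))))) (.rp 14 (.thr 13 9 (.thr 25 49 (.thr 29 17 (.thr 26 48 (.thr 31 16 (.thr 28 30 (.thr 19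 22 (.dbl 27 23 24)))))))) (.rp 13 (.thr 26 48 (.thr 31 16 (.thr 63 47 (.thr 0 42 (.thr 3 2 (.thr 11 7 (.dbl 41 56 61))))))) (.rp 11 (.thr 26 48 (.thr 31 16 (.thr 63 47 (.thr 0 42 (.thr 3 2 (.thr 23 43 (.thr 27 19 (.thr 25 24 (.dbl 13 9 49))))))))) (.rp 9 (.thr 41 61 (.thr 26 48 (.thr 31 16 (.thr 63 47 (.thr 0 42 (.thr 3 2 (.dbl 11 7 56))))))) .nd)))))))))) (.rp 41 (.str 22 (.nv (.thr 7 52 (.thr 4 6 (.thr 55 38 (.dbl 23 20 39)))) (.nv (.thr 23 20 (.thr 7 52 (.thr 55 39 (.dbl 4 6 38)))) (.rp 56 (.thr 20 23 (.thr 13 9 (.thr 25 49 (.thr 29 17 (.thr 28 19 (.thr 31 30 (.dbl 16 24 26))))))) (.rp 55 (.thr 20 23 (.thr 13 9 (.thr 25 49 (.thr 29 17 (.thr 28 19 (.thr 31 30 (.dbl 16 24 26))))))) (.rp 52 (.thr 20 23 (.thr 13 9 (.thr 25 49 (.thr 29 17 (.thr 28 19 (.thr 31 30 (.dbl 16 24 26)))))))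 (.rp 48 (.thr 20 23 (.thr 13 9 (.thr 25 49 (.thr 29 17 (.thr 28 19 (.thr 31 30 (.dbl 16 24 26))))))) (.rp 39 (.thr 20 23 (.thr 13 9 (.thr 25 49 (.thr 29 17 (.thr 28 19 (.thr 31 30 (.dbl 16 24 26))))))) (.rp 38 (.thr 20 23 (.thr 13 9 (.thr 25 49 (.thr 29 17 (.thr 28 19 (.thr 31 30 (.dbl 16 24 26))))))) (.rp 23 (.thr 7 52 (.thr 6 4 (.thr 9 13 (.thr 3 12 (.thr 0 2 (.thr 15 11 (.thr 63 42 (.thr 31 47 (.dbl 26 16 48))))))))) (.rp 20 (.thr 7 52 (.thr 4 6 (.thr 55 38 (.thr 23 39 (.thr 13 9 (.thr 25 49 (.thr 17 29 (.thr 19 28 (.thr 16 18 (.dbl 31 26 27)))))))))) (.rp 7 (.thr 20 23 (.thr 13 9 (.thr 25 49 (.thr 29 17 (.thr 28 19 (.thr 31 30 (.dbl 16 24 26))))))) (.rp 6 (.thr 20 23 (.thr 13 9 (.thr 25 49 (.thr 29 17 (.thr 28 19 (.thr 31 30 (.dbl 16 24 26))))))) (.rp 4 (.thr 20 23 (.thr 13 9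 (.thr 25 49 (.thr 29 17 (.thr 28 19 (.thr 31 30 (.dbl 16 24 26))))))) .nd)))))))))))))) (.rp 25 (.str 4 (.nv (.thr 38 55 (.thr 36 39 (.thr 52 20 (.dbl 7 6 22)))) (.nv (.thr 7 6 (.thr 22 52 (.thr 55 38 (.dbl 23 20 39)))) (.nv (.thr 7 6 (.thr 38 55 (.thr 36 39 (.dbl 52 20 22)))) (.rp 55 (.thr 9 13 (.thr 6 7 (.thr 3 12 (.thr 0 2 (.thr 42 63 (.thr 32 47 (.thr 48 16 (.thr 33 18 (.dbl 41 45 61))))))))) (.rp 52 (.thr 9 13 (.thr 6 7 (.thr 3 12 (.thr 0 2 (.thr 63 42 (.thr 23 43 (.thr 22 20 (.dbl 38 54 55)))))))) (.rp 39 (.thr 9 13 (.thr 6 7 (.thr 3 12 (.thr 0 2 (.thr 63 42 (.thr 23 43 (.thr 22 20 (.dbl 38 54 55)))))))) (.rp 38 (.thr 9 13 (.thr 6 7 (.thr 12 3 (.thr 0 8 (.thr 42 63 (.thr 32 47 (.thr 48 16 (.thr 36 24 (.thr 40 44 (.dbl 41 43 61)))))))))) (.rp 22 (.thr 41 61 (.thr 33 45 (.thr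 38 55 (.thr 39 36 (.thr 35 44 (.thr 47 43 (.dbl 32 34 42))))))) (.rp 20 (.thr 41 61 (.thr 33 45 (.thr 38 55 (.thr 39 36 (.thr 35 44 (.thr 47 43 (.dbl 32 34 42))))))) (.rp 7 (.thr 41 61 (.thr 33 45 (.thr 38 55 (.thr 39 36 (.thr 35 44 (.thr 47 43 (.dbl 32 34 42))))))) (.rp 6 (.thr 41 61 (.thr 33 45 (.thr 38 55 (.thr 39 36 (.thr 35 44 (.thr 47 43 (.dbl 32 34 42))))))) .nd)))))))))))) (.rp 17 (.str 4 (.nv (.thr 6 7 (.thr 9 13 (.thr 12 3 (.thr 41 61 (.thr 38 55 (.dbl 25 51 57)))))) (.nv (.thr 7 6 (.thr 38 55 (.thr 36 39 (.dbl 52 20 22)))) (.rp 55 (.thr 13 9 (.thr 25 49 (.thr 7 6 (.thr 52 22 (.thr 36 20 (.thr 38 39 (.thr 12 51 (.thr 48 24 (.dbl 15 14 26))))))))) (.rp 54 (.thr 7 6 (.thr 52 22 (.thr 38 55 (.dbl 36 20 39)))) (.rp 52 (.thr 9 13 (.thr 41 61 (.thr 6 7 (.thr 12 3 (.thr 38 55 (.thr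 54 22 (.dbl 25 51 57))))))) (.rp 39 (.thr 13 9 (.thr 25 49 (.thr 61 41 (.thr 29 45 (.thr 38 55 (.thr 12 51 (.thr 63 46 (.dbl 0 8 42)))))))) (.rp 38 (.thr 13 9 (.thr 25 49 (.thr 61 41 (.thr 29 45 (.thr 7 6 (.thr 22 52 (.thr 20 23 (.thr 28 19 (.thr 16 24 (.dbl 31 26 30)))))))))) (.rp 7 (.thr 13 9 (.thr 25 49 (.thr 38 55 (.thr 12 51 (.thr 15 14 (.thr 48 26 (.dbl 36 24 39))))))) (.rp 6 (.thr 13 9 (.thr 25 49 (.thr 38 55 (.thr 36 39 (.thr 12 51 (.thr 48 24 (.dbl 15 14 26))))))) .nd)))))))))) (.rp 13 (.str 4 (.nv (.thr 38 55 (.thr 36 39 (.thr 52 20 (.dbl 7 6 22)))) (.nv (.thr 7 6 (.thr 38 55 (.thr 52 22 (.dbl 36 20 39)))) (.nv (.thr 7 6 (.thr 55 38 (.thr 23 39 (.dbl 22 20 52)))) (.rp 55 (.thr 41 61 (.thr 45 33 (.thr 7 6 (.thr 52 22 (.thr 36 20 (.thr 38 39 (.thr 44 35 (.thr 47 46 (.dbl 32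 40 42))))))))) (.rp 52 (.thr 41 61 (.thr 45 33 (.thr 6 7 (.thr 38 55 (.thr 54 22 (.thr 44 35 (.thr 47 46 (.thr 32 42 (.dbl 36 39 40))))))))) (.rp 39 (.thr 41 61 (.thr 45 33 (.thr 7 6 (.thr 52 22 (.thr 36 20 (.thr 38 55 (.thr 44 35 (.thr 47 46 (.dbl 32 40 42))))))))) (.rp 38 (.str 0 (.nv (.thr 7 6 (.thr 22 52 (.thr 42 63 (.dbl 2 3 62)))) (.nv (.thr 6 7 (.thr 3 2 (.dbl 12 8 9))) (.rp 7 (.thr 3 2 (.thr 42 63 (.thr 32 47 (.thr 48 16 (.thr 33 18 (.dbl 41 45 61)))))) (.rp 6 (.thr 2 3 (.thr 42 63 (.thr 61 41 (.thr 22 62 (.thr 52 7 (.dbl 20 23 36)))))) (.rp 3 (.thr 7 6 (.thr 12 8 (.thr 42 63 (.thr 32 47 (.thr 48 16 (.thr 36 24 (.dbl 52 20 22))))))) (.rp 2 (.thr 12 8 (.thr 42 63 (.thr 32 47 (.thr 48 16 (.thr 36 24 (.thr 40 44 (.dbl 41 43 61))))))) .nd))))))) (.rp 22 (.thr 41 61 (.thr 45 33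 (.thr 38 55 (.thr 36 39 (.thr 44 35 (.thr 32 40 (.dbl 47 42 46))))))) (.rp 20 (.thr 41 61 (.thr 45 33 (.thr 38 55 (.thr 36 39 (.thr 44 35 (.thr 47 46 (.dbl 32 40 42))))))) (.rp 7 (.thr 41 61 (.thr 45 33 (.thr 38 55 (.thr 44 35 (.thr 47 46 (.thr 32 42 (.dbl 36 39 40))))))) (.rp 6 (.thr 41 61 (.thr 45 33 (.thr 38 55 (.thr 36 39 (.thr 44 35 (.thr 32 40 (.dbl 47 42 46))))))) .nd)))))))))))) (.rp 9 (.str 4 (.nv (.thr 7 6 (.thr 52 22 (.thr 38 55 (.dbl 36 20 39)))) (.nv (.thr 38 55 (.thr 36 39 (.thr 52 20 (.dbl 7 6 22)))) (.rp 55 (.thr 41 61 (.thr 45 33 (.thr 7 6 (.thr 52 22 (.thr 36 20 (.thr 38 39 (.thr 44 35 (.thr 47 46 (.dbl 32 40 42))))))))) (.rp 52 (.thr 41 61 (.thr 33 45 (.thr 6 7 (.thr 38 55 (.thr 54 22 (.thr 39 36 (.thr 35 44 (.thr 47 43 (.dbl 32 34 42))))))))) (.rp 39 (.thr 41 61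 (.thr 45 33 (.thr 7 6 (.thr 52 22 (.thr 36 20 (.thr 38 55 (.thr 44 35 (.thr 47 46 (.dbl 32 40 42))))))))) (.rp 38 (.str 17 (.nv (.thr 33 49 (.dbl 41 45 61)) (.nv (.thr 49 33 (.dbl 25 13 29)) (.rp 49 (.thr 25 29 (.thr 7 6 (.thr 22 52 (.thr 23 20 (.thr 19 28 (.thr 31 27 (.dbl 16 18 26))))))) (.rp 33 (.thr 25 29 (.thr 7 6 (.thr 22 52 (.thr 23 20 (.thr 19 28 (.thr 31 27 (.dbl 16 18 26))))))) (.rp 11 (.str 8 (.nv (.thr 33 49 (.dbl 41 45 61)) (.nv (.thr 0 12 (.thr 25 29 (.dbl 42 59 63))) (.nv (.thr 49 33 (.dbl 25 13 29)) .nd)))) (.rp 8 (.str 11 (.nv (.thr 7 6 (.thr 41 61 (.thr 26 56 (.dbl 15 3 48)))) (.nv (.thr 49 33 (.dbl 25 13 29)) (.rp 49 (.thr 7 6 (.thr 22 52 (.thr 23 20 (.thr 3 15 (.thr 63 43 (.dbl 0 2 42)))))) .nd)))) .nd))))))) (.rp 36 (.thr 7 6 (.thr 22 52 (.thr 23 20 (.dbl 55 38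 39)))) (.rp 22 (.thr 41 61 (.thr 33 45 (.thr 38 55 (.thr 39 36 (.thr 35 44 (.thr 47 43 (.dbl 32 34 42))))))) (.rp 20 (.thr 41 61 (.thr 33 45 (.thr 38 55 (.thr 39 36 (.thr 35 44 (.thr 47 43 (.dbl 32 34 42))))))) (.rp 11 (.str 8 (.nv (.thr 0 12 (.thr 42 63 (.thr 25 59 (.thr 49 13 (.dbl 17 29 33))))) (.nv (.thr 38 55 (.thr 36 39 (.thr 52 20 (.dbl 7 6 22)))) (.rp 55 (.thr 0 12 (.thr 3 2 (.thr 63 42 (.thr 23 43 (.thr 22 20 (.dbl 7 6 52)))))) (.rp 6 (.thr 12 0 (.thr 38 55 (.thr 25 51 (.thr 49 13 (.dbl 17 29 33))))) (.rp 0 (.thr 7 6 (.thr 52 22 (.thr 38 55 (.dbl 36 20 39)))) .nd)))))) (.rp 8 (.str 11 (.nv (.thr 7 6 (.thr 3 15 (.thr 55 38 (.thr 23 39 (.thr 63 43 (.dbl 0 2 42)))))) (.nv (.thr 7 6 (.thr 41 61 (.thr 26 56 (.dbl 15 3 48)))) (.nv (.thr 38 55 (.thr 36 39 (.thr 52 20 (.dbl 7 6 22))))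 (.rp 7 (.thr 38 55 (.thr 39 36 (.thr 41 61 (.thr 33 45 (.thr 35 44 (.thr 32 34 (.dbl 47 42 43))))))) (.rp 6 (.thr 38 55 (.thr 39 36 (.thr 41 61 (.thr 33 45 (.thr 35 44 (.thr 32 34 (.dbl 47 42 43))))))) .nd)))))) (.rp 7 (.thr 41 61 (.thr 33 45 (.thr 38 55 (.thr 39 36 (.thr 35 44 (.thr 47 43 (.dbl 32 34 42))))))) (.rp 6 (.thr 41 61 (.thr 33 45 (.thr 38 55 (.thr 39 36 (.thr 35 44 (.thr 47 43 (.dbl 32 34 42))))))) .nd)))))))))))))) .nd))))))))))))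

theorem w395 : WinAt (137441050656, 1161928703861588992) :=
  chF (K := []) kn c395 137441050656 1161928703861588992 53
    [] (by decide +kernel) (by decide +kernel)

/-- A certificate. -/
noncomputable def c396 : Ct := (.str 48 (.nv (.thr 63 58 (.thr 0 42 (.thr 26 15 (.dbl 16 31 32)))) (.rp 63 (.str 60 (.nv (.thr 15 26 (.thr 45 30 (.thr 41 33 (.thr 52 56 (.dbl 22 3 7))))) (.nv (.thr 52 56 (.thr 55 54 (.thr 4 38 (.thr 22 7 (.dbl 20 23 36))))) (.rp 56 (.thr 15 26 (.thr 45 30 (.thr 41 33 (.thr 22 3 (.thr 52 7 (.thr 55 54 (.thr 4 38 (.dbl 20 23 36)))))))) (.rp 52 (.str 32 (.nv (.thr 0 16 (.thr 15 26 (.thr 45 30 (.thr 33 41 (.thr 18 3 (.thr 34 35 (.thr 50 2 (.dbl 51 17 49)))))))) (.nv (.thr 0 16 (.thr 40 20 (.thr 36 44 (.thr 38 39 (.thr 4 55 (.dbl 12 8 24)))))) (.nv (.thr 0 16 (.thr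 15 26 (.thr 42 47 (.thr 45 30 (.thr 41 33 (.dbl 40 20 43)))))) (.rp 16 (.thr 42 47 (.thr 15 26 (.thr 45 30 (.thr 41 33 (.thr 40 43 (.thr 20 0 (.dbl 22 3 23))))))) (.rp 0 (.thr 15 26 (.thr 42 47 (.thr 45 30 (.thr 33 41 (.thr 34 35 (.thr 38 46 (.thr 39 36 (.thr 51 27 (.thr 49 50 (.dbl 25 12 13)))))))))) .nd)))))) (.rp 22 (.thr 52 56 (.thr 55 54 (.thr 38 4 (.thr 36 39 (.thr 12 24 (.thr 25 51 (.thr 13 49 (.dbl 15 14 26)))))))) (.rp 15 (.str 0 (.nv (.thr 20 40 (.thr 52 56 (.thr 4 36 (.dbl 55 38 54)))) (.nv (.thr 52 56 (.thr 7 22 (.thr 55 54 (.thr 38 4 (.dbl 39 23 36))))) (.nv (.thr 52 56 (.thr 20 40 (.dbl 22 7 23))) (.rp 56 (.thr 20 40 (.thr 22 23 (.thr 52 7 (.thr 4 36 (.dbl 55 38 54))))) (.rp 52 (.thr 32 16 (.thr 20 40 (.thr 22 23 (.thr 3 41 (.thr 2 1 (.dbl 42 47 62)))))) (.rp 47 (.str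 31 (.nv (.thr 20 40 (.thr 22 23 (.dbl 52 7 56))) (.nv (.dbl 16 26 32) .nd))) (.rp 31 (.str 47 (.nv (.thr 20 40 (.thr 22 23 (.dbl 52 7 56))) (.nv (.dbl 32 16 42) .nd))) .nd)))))))) (.rp 7 (.thr 52 56 (.thr 55 54 (.thr 4 38 (.thr 20 36 (.thr 0 40 (.thr 26 15 (.dbl 16 31 32))))))) .nd)))))))) (.rp 58 (.thr 26 15 (.str 0 (.nv (.dbl 16 31 32) (.rp 32 (.str 12 (.nv (.thr 4 8 (.thr 38 55 (.thr 50 14 (.dbl 51 25 49)))) (.nv (.thr 24 36 (.thr 25 27 (.thr 29 17 (.dbl 63 42 46)))) (.nv (.thr 4 8 (.thr 38 55 (.dbl 36 24 39))) .nd)))) (.rp 31 (.thr 32 16 (.dbl 42 47 63)) (.rp 16 (.str 12 (.nv (.thr 4 8 (.thr 38 55 (.thr 50 14 (.dbl 51 25 49)))) (.nv (.thr 24 36 (.thr 25 27 (.thr 29 17 (.dbl 63 42 46)))) (.nv (.thr 4 8 (.thr 38 55 (.dbl 36 24 39))) .nd)))) .nd)))))) (.rp 42 (.thr 15 26 (.thr 58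 63 (.str 60 (.nv (.thr 52 56 (.thr 54 55 (.thr 51 57 (.dbl 50 49 62)))) (.nv (.thr 45 30 (.thr 52 56 (.thr 41 33 (.dbl 22 3 7)))) (.rp 56 (.thr 45 30 (.thr 41 33 (.thr 22 3 (.thr 52 7 (.thr 54 55 (.thr 50 62 (.dbl 51 49 57))))))) (.rp 52 (.str 28 (.nv (.thr 12 44 (.thr 13 14 (.thr 36 24 (.thr 38 39 (.dbl 25 49 51))))) (.nv (.thr 12 44 (.thr 24 36 (.thr 20 16 (.thr 22 23 (.thr 45 30 (.dbl 41 3 33)))))) (.nv (.thr 30 45 (.thr 29 31 (.thr 12 44 (.thr 25 17 (.dbl 13 14 49))))) (.rp 44 (.thr 30 45 (.thr 29 31 (.thr 25 17 (.thr 13 49 (.thr 12 14 (.thr 36 24 (.dbl 38 39 51))))))) (.rp 12 (.thr 45 30 (.thr 41 33 (.thr 22 3 (.thr 25 19 (.thr 49 13 (.thr 51 50 (.dbl 57 9 54))))))) .nd)))))) (.rp 41 (.thr 56 52 (.thr 57 59 (.thr 51 54 (.thr 39 27 (.thr 38 36 (.thr 25 12 (.dbl 49 13 50)))))))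 .nd)))))))) (.rp 32 (.str 33 (.nv (.thr 3 18 (.thr 41 45 (.thr 22 60 (.thr 23 20 (.dbl 63 43 58))))) (.nv (.thr 3 18 (.thr 63 58 (.thr 23 43 (.thr 22 20 (.thr 7 52 (.dbl 15 11 26)))))) (.nv (.thr 41 45 (.thr 3 18 (.thr 60 22 (.thr 56 52 (.dbl 26 11 15))))) (.rp 22 (.thr 41 45 (.thr 3 18 (.thr 63 58 (.thr 43 23 (.dbl 42 0 40))))) (.rp 18 (.thr 41 45 (.thr 63 58 (.thr 0 42 (.thr 26 15 (.thr 56 11 (.thr 60 52 (.thr 20 40 (.dbl 22 3 23)))))))) (.rp 15 (.str 0 (.nv (.dbl 63 42 58) (.rp 63 (.thr 41 45 (.thr 3 18 (.thr 60 22 (.thr 20 40 (.thr 52 56 (.thr 55 54 (.dbl 4 36 38))))))) (.rp 58 (.thr 41 45 (.thr 3 18 (.thr 60 22 (.thr 40 20 (.dbl 42 43 63))))) (.rp 42 (.thr 41 45 (.thr 3 18 (.thr 60 22 (.thr 20 40 (.thr 52 56 (.thr 55 54 (.dbl 4 36 38))))))) .nd))))) (.rp 3 (.thr 45 41 (.thr 63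 58 (.thr 42 0 (.thr 15 26 (.thr 47 31 (.thr 46 44 (.thr 12 29 (.thr 36 24 (.dbl 38 34 39))))))))) (.rp 0 (.thr 15 26 (.thr 41 45 (.thr 3 18 (.thr 7 11 (.dbl 22 52 60))))) .nd))))))))) (.rp 31 (.str 60 (.nv (.thr 15 26 (.thr 52 56 (.thr 54 55 (.thr 51 57 (.thr 50 49 (.dbl 58 62 63)))))) (.nv (.thr 15 26 (.thr 45 30 (.thr 41 33 (.thr 63 58 (.thr 42 0 (.thr 43 40 (.dbl 3 22 23))))))) (.nv (.thr 52 56 (.thr 55 54 (.thr 4 38 (.thr 22 7 (.dbl 20 23 36))))) (.rp 15 (.str 0 (.nv (.thr 20 40 (.thr 22 23 (.dbl 52 7 56))) (.nv (.dbl 63 42 58) (.rp 63 (.str 47 (.nv (.thr 20 40 (.thr 22 23 (.dbl 52 7 56))) (.nv (.dbl 32 16 42) .nd))) .nd)))) .nd))))) (.rp 26 (.str 0 (.nv (.dbl 63 42 58) (.rp 63 (.thr 32 16 (.str 60 (.nv (.thr 42 47 (.thr 52 56 (.thr 22 7 (.thr 2 62 (.dbl 3 1 41))))) (.nv (.thr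 20 40 (.thr 22 23 (.thr 42 47 (.thr 2 62 (.dbl 3 1 41))))) (.nv (.thr 42 47 (.thr 20 40 (.thr 52 56 (.thr 4 36 (.dbl 55 38 54))))) (.nv (.thr 20 40 (.thr 22 23 (.dbl 52 7 56))) (.rp 42 (.str 58 (.nv (.thr 40 20 (.thr 36 44 (.thr 38 39 (.thr 4 55 (.dbl 12 8 24))))) (.nv (.thr 52 56 (.thr 54 55 (.thr 51 57 (.dbl 50 49 62)))) (.nv (.thr 20 40 (.thr 22 23 (.dbl 52 7 56))) .nd)))) .nd))))))) (.rp 58 (.thr 42 63 (.dbl 32 16 47)) (.rp 42 (.thr 58 63 (.str 60 (.nv (.thr 52 56 (.thr 54 55 (.thr 51 57 (.dbl 50 49 62)))) (.nv (.thr 20 40 (.thr 22 23 (.dbl 52 7 56))) (.rp 56 (.thr 20 40 (.thr 22 23 (.thr 52 7 (.thr 4 36 (.dbl 55 38 54))))) (.rp 52 (.thr 40 20 (.thr 32 16 (.thr 36 44 (.thr 38 39 (.thr 4 55 (.dbl 12 8 24)))))) (.rp 41 (.thr 56 52 (.thr 40 20 (.thr 24 8 (.thr 36 12 (.dbl 32 16 44)))))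 .nd))))))) .nd))))) (.rp 16 (.thr 63 58 (.thr 42 0 (.thr 15 26 (.dbl 47 31 32)))) (.rp 15 (.str 0 (.nv (.dbl 63 42 58) (.rp 63 (.str 60 (.nv (.thr 20 40 (.thr 52 56 (.thr 4 36 (.dbl 55 38 54)))) (.nv (.thr 52 56 (.thr 7 22 (.thr 55 54 (.thr 38 4 (.dbl 39 23 36))))) (.nv (.thr 52 56 (.thr 20 40 (.dbl 22 7 23))) (.rp 56 (.thr 20 40 (.thr 22 23 (.thr 52 7 (.thr 4 36 (.dbl 55 38 54))))) (.rp 52 (.thr 32 16 (.thr 20 40 (.thr 22 23 (.thr 3 41 (.thr 2 1 (.dbl 42 47 62)))))) (.rp 47 (.str 31 (.nv (.thr 20 40 (.thr 22 23 (.dbl 52 7 56))) (.nv (.dbl 16 26 32) .nd))) (.rp 31 (.str 47 (.nv (.thr 20 40 (.thr 22 23 (.dbl 52 7 56))) (.nv (.dbl 32 16 42) .nd))) .nd)))))))) (.rp 58 (.thr 32 16 (.dbl 42 47 63)) (.rp 42 (.str 33 (.nv (.thr 3 18 (.thr 16 32 (.thr 26 31 (.thr 41 45 (.thr 56 11 (.dbl 60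 22 52)))))) (.nv (.thr 32 16 (.thr 34 35 (.thr 51 17 (.thr 50 49 (.dbl 18 2 3))))) (.rp 58 (.str 26 (.nv (.dbl 16 31 32) (.rp 32 (.thr 3 18 (.thr 41 45 (.thr 56 11 (.dbl 60 22 52)))) (.rp 31 (.thr 3 18 (.thr 41 45 (.thr 56 11 (.dbl 60 22 52)))) (.rp 16 (.thr 3 18 (.thr 41 45 (.thr 56 11 (.dbl 60 22 52)))) .nd))))) (.rp 32 (.thr 41 45 (.thr 3 18 (.thr 60 22 (.thr 20 40 (.thr 52 56 (.thr 55 54 (.dbl 4 36 38))))))) (.rp 26 (.thr 58 63 (.thr 32 16 (.thr 34 35 (.thr 17 51 (.thr 49 1 (.dbl 25 13 29)))))) (.rp 18 (.thr 32 16 (.thr 34 35 (.thr 17 51 (.thr 49 1 (.dbl 25 13 29))))) (.rp 16 (.thr 41 45 (.thr 3 18 (.thr 60 22 (.thr 20 40 (.thr 52 56 (.thr 4 36 (.dbl 55 38 54))))))) (.rp 3 (.thr 41 45 (.thr 32 16 (.thr 35 34 (.thr 38 44 (.thr 36 39 (.thr 12 24 (.dbl 4 8 55))))))) .nd)))))))))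 .nd))))) (.rp 0 (.thr 15 26 (.str 51 (.nv (.thr 39 27 (.thr 38 36 (.thr 55 4 (.dbl 63 58 59)))) (.nv (.thr 39 27 (.thr 49 50 (.thr 38 36 (.dbl 25 12 13)))) (.nv (.thr 58 63 (.thr 50 49 (.thr 54 62 (.thr 60 57 (.dbl 52 55 56))))) (.rp 58 (.str 42 (.nv (.thr 47 32 (.thr 49 50 (.thr 25 13 (.thr 63 31 (.dbl 59 8 55))))) (.nv (.thr 47 32 (.thr 63 31 (.thr 55 59 (.thr 38 4 (.dbl 39 27 36))))) (.nv (.thr 39 27 (.thr 38 36 (.thr 49 50 (.dbl 25 12 13)))) (.rp 38 (.thr 47 32 (.thr 63 31 (.thr 59 55 (.thr 25 8 (.dbl 49 13 50))))) .nd))))) .nd)))))) .nd)))))))))))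

theorem w396 : WinAt (9007336695791616, 2305843009213695008) :=
  chF (K := []) kn c396 9007336695791616 2305843009213695008 5
    [33825] (by decide +kernel) (by decide +kernel)

/-- A certificate. -/
noncomputable def c397 : Ct := (.str 7 (.nv (.thr 22 52 (.thr 23 20 (.thr 55 39 (.dbl 4 6 38)))) (.nv (.thr 4 6 (.thr 55 38 (.thr 22 52 (.dbl 23 20 39)))) (.rp 55 (.thr 52 22 (.str 42 (.nv (.thr 0 63 (.thr 4 6 (.thr 12 8 (.thr 36 20 (.thr 38 39 (.thr 34 46 (.dbl 51 17 25))))))) (.nv (.thr 4 6 (.thr 36 20 (.thr 38 39 (.thr 34 46 (.thr 32 47 (.thr 35 33 (.dbl 44 40 41))))))) (.nv (.thr 32 47 (.thr 0 63 (.thr 48 16 (.thr 60 56 (.thr 20 40 (.dbl 4 6 36)))))) (.rp 36 (.thr 6 4 (.thr 0 63 (.thr 32 47 (.thr 48 16 (.thr 15 26 (.thr 3 11 (.thr 9 12 (.dbl 1 2 13)))))))) (.rp 20 (.thr 6 4 (.thr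 0 63 (.thr 32 47 (.thr 48 16 (.thr 15 26 (.thr 3 11 (.thr 9 12 (.dbl 1 2 13)))))))) (.rp 6 (.thr 63 0 (.thr 47 32 (.thr 15 31 (.thr 3 11 (.thr 43 23 (.thr 41 40 (.thr 33 45 (.dbl 48 18 26)))))))) (.rp 4 (.thr 63 0 (.thr 47 32 (.thr 15 31 (.thr 3 11 (.thr 43 23 (.thr 41 40 (.thr 33 45 (.dbl 48 18 26)))))))) .nd))))))))) (.rp 52 (.str 55 (.nv (.dbl 4 6 38) (.rp 38 (.str 13 (.nv (.thr 1 9 (.thr 25 49 (.thr 61 41 (.dbl 29 17 45)))) (.nv (.thr 25 49 (.thr 29 17 (.thr 61 45 (.dbl 1 9 41)))) (.rp 61 (.thr 39 23 (.thr 6 4 (.thr 9 1 (.thr 12 3 (.thr 15 14 (.thr 49 25 (.thr 51 27 (.dbl 48 26 50)))))))) (.rp 49 (.thr 23 39 (.thr 6 4 (.thr 9 1 (.thr 3 12 (.thr 63 43 (.thr 15 11 (.thr 47 31 (.dbl 42 0 32)))))))) (.rp 45 (.thr 23 39 (.thr 22 20 (.thr 1 9 (.thr 41 61 (.thr 3 60 (.thr 63 43 (.dbl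 0 2 42))))))) (.rp 41 (.thr 23 39 (.thr 22 20 (.thr 25 49 (.thr 17 29 (.thr 19 28 (.thr 16 18 (.dbl 31 26 27))))))) (.rp 29 (.thr 1 9 (.thr 41 61 (.thr 33 45 (.dbl 49 17 25)))) (.rp 25 (.thr 23 39 (.thr 22 20 (.thr 1 9 (.thr 41 61 (.thr 3 60 (.thr 63 43 (.dbl 0 2 42))))))) (.rp 17 (.thr 23 39 (.thr 22 20 (.thr 1 9 (.thr 41 61 (.thr 3 60 (.thr 63 43 (.dbl 0 2 42))))))) (.rp 9 (.thr 23 39 (.thr 22 20 (.thr 25 49 (.thr 17 29 (.thr 19 28 (.thr 16 18 (.dbl 31 26 27))))))) (.rp 1 (.thr 23 39 (.thr 22 20 (.thr 25 49 (.thr 17 29 (.thr 19 28 (.thr 16 18 (.dbl 31 26 27))))))) .nd)))))))))))) (.rp 6 (.thr 39 23 (.dbl 38 4 36)) (.rp 4 (.thr 39 23 (.thr 36 38 (.str 15 (.nv (.thr 51 27 (.thr 63 59 (.thr 42 0 (.dbl 47 31 32)))) (.nv (.thr 3 11 (.thr 48 26 (.thr 12 24 (.thr 9 6 (.dbl 13 1 14)))))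 (.nv (.thr 51 27 (.thr 63 59 (.thr 31 47 (.dbl 26 16 48)))) (.rp 27 (.thr 3 11 (.thr 48 26 (.thr 33 18 (.thr 41 45 (.thr 1 61 (.thr 49 17 (.dbl 13 9 25))))))) (.rp 11 (.thr 51 27 (.thr 26 48 (.thr 31 16 (.dbl 63 47 59)))) .nd)))))))) .nd))))) (.rp 39 (.str 13 (.nv (.thr 25 49 (.thr 29 17 (.thr 61 45 (.dbl 1 9 41)))) (.nv (.thr 1 9 (.thr 25 49 (.thr 61 41 (.dbl 29 17 45)))) (.rp 61 (.thr 6 4 (.thr 22 52 (.thr 9 1 (.thr 12 3 (.thr 25 49 (.thr 57 41 (.dbl 38 51 54))))))) (.rp 49 (.thr 6 4 (.thr 22 52 (.thr 9 1 (.thr 3 12 (.thr 60 41 (.thr 15 11 (.thr 30 45 (.dbl 26 18 48)))))))) (.rp 45 (.thr 6 4 (.thr 22 52 (.thr 9 1 (.thr 12 3 (.thr 25 49 (.dbl 38 51 54)))))) (.rp 41 (.thr 6 4 (.thr 22 52 (.thr 9 1 (.thr 12 3 (.thr 25 49 (.dbl 38 51 54)))))) (.rp 29 (.thr 1 9 (.thr 41 61 (.thr 33 45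 (.dbl 49 17 25)))) (.rp 25 (.thr 22 52 (.thr 23 20 (.thr 1 9 (.thr 41 61 (.thr 3 60 (.thr 63 43 (.dbl 0 2 42))))))) (.rp 17 (.thr 6 4 (.thr 22 52 (.thr 9 1 (.thr 3 12 (.thr 41 60 (.dbl 25 49 57)))))) (.rp 9 (.thr 4 6 (.thr 38 55 (.thr 25 49 (.thr 29 17 (.thr 12 51 (.thr 63 46 (.dbl 0 8 42))))))) (.rp 1 (.thr 4 6 (.thr 38 55 (.thr 25 49 (.thr 12 51 (.thr 0 8 (.thr 63 42 (.dbl 29 17 46))))))) .nd)))))))))))) (.rp 38 (.str 13 (.nv (.thr 1 9 (.thr 25 49 (.thr 61 41 (.dbl 29 17 45)))) (.nv (.thr 25 49 (.thr 29 17 (.thr 61 45 (.dbl 1 9 41)))) (.rp 61 (.thr 6 4 (.thr 22 52 (.thr 9 1 (.thr 3 12 (.thr 60 41 (.thr 15 11 (.thr 30 45 (.dbl 26 18 48)))))))) (.rp 49 (.thr 6 4 (.thr 22 52 (.thr 9 1 (.thr 3 12 (.thr 60 41 (.thr 15 11 (.thr 30 45 (.dbl 26 18 48)))))))) (.rp 45 (.thr 6 4 (.thr 22 52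 (.thr 9 1 (.thr 3 12 (.thr 41 60 (.dbl 25 49 57)))))) (.rp 41 (.thr 22 52 (.thr 23 20 (.thr 25 49 (.thr 17 29 (.thr 19 28 (.thr 16 18 (.dbl 31 26 27))))))) (.rp 29 (.thr 1 9 (.thr 41 61 (.thr 33 45 (.dbl 49 17 25)))) (.rp 25 (.thr 22 52 (.thr 23 20 (.thr 1 9 (.thr 41 61 (.thr 3 60 (.thr 63 43 (.dbl 0 2 42))))))) (.rp 17 (.thr 6 4 (.thr 22 52 (.thr 9 1 (.thr 3 12 (.thr 41 60 (.dbl 25 49 57)))))) (.rp 9 (.thr 22 52 (.thr 23 20 (.thr 25 49 (.thr 17 29 (.thr 19 28 (.thr 16 18 (.dbl 31 26 27))))))) (.rp 1 (.thr 22 52 (.thr 23 20 (.thr 25 49 (.thr 17 29 (.thr 19 28 (.thr 16 18 (.dbl 31 26 27))))))) .nd)))))))))))) (.rp 23 (.thr 4 6 (.thr 38 55 (.thr 36 39 (.dbl 52 20 22)))) (.rp 22 (.str 42 (.nv (.thr 0 63 (.thr 4 6 (.thr 12 8 (.thr 32 47 (.thr 48 16 (.thr 36 24 (.dbl 38 39 55))))))) (.nv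 (.thr 0 63 (.thr 4 6 (.thr 12 8 (.thr 38 55 (.thr 51 25 (.dbl 34 17 46)))))) (.nv (.thr 4 6 (.thr 32 47 (.thr 38 55 (.thr 34 46 (.thr 35 33 (.thr 36 39 (.dbl 44 40 41))))))) (.rp 55 (.thr 6 4 (.thr 32 47 (.thr 0 63 (.thr 48 16 (.thr 15 26 (.thr 3 11 (.thr 9 12 (.dbl 1 2 13)))))))) (.rp 54 (.thr 47 32 (.thr 63 0 (.thr 15 31 (.thr 3 11 (.thr 23 43 (.thr 55 39 (.dbl 4 6 38))))))) (.rp 38 (.thr 6 4 (.thr 32 47 (.thr 0 63 (.thr 48 16 (.thr 15 26 (.thr 3 11 (.thr 9 12 (.dbl 1 2 13)))))))) (.rp 14 (.thr 47 32 (.thr 63 0 (.thr 15 31 (.thr 3 11 (.thr 23 43 (.thr 55 39 (.dbl 4 6 38))))))) (.rp 6 (.thr 47 32 (.thr 63 0 (.thr 15 31 (.thr 3 11 (.thr 43 23 (.thr 41 40 (.thr 33 45 (.dbl 48 18 26)))))))) (.rp 4 (.thr 47 32 (.thr 63 0 (.thr 15 31 (.thr 3 11 (.thr 43 23 (.thr 41 40 (.thr 33 45 (.dbl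 48 18 26)))))))) (.rp 2 (.thr 47 32 (.thr 63 0 (.thr 15 31 (.thr 3 11 (.thr 23 43 (.thr 55 39 (.dbl 4 6 38))))))) .nd))))))))))) (.rp 20 (.str 13 (.nv (.thr 25 49 (.thr 29 17 (.thr 61 45 (.dbl 1 9 41)))) (.nv (.thr 1 9 (.thr 25 49 (.thr 61 41 (.dbl 29 17 45)))) (.rp 61 (.thr 6 4 (.thr 9 1 (.thr 12 3 (.thr 25 49 (.thr 57 41 (.thr 38 51 (.dbl 22 52 54))))))) (.rp 49 (.thr 6 4 (.thr 9 1 (.thr 12 3 (.thr 15 14 (.thr 48 26 (.thr 22 52 (.thr 36 24 (.dbl 38 39 54)))))))) (.rp 45 (.thr 6 4 (.thr 9 1 (.thr 12 3 (.thr 25 49 (.thr 38 51 (.dbl 22 52 54)))))) (.rp 41 (.thr 6 4 (.thr 9 1 (.thr 12 3 (.thr 25 49 (.thr 38 51 (.dbl 22 52 54)))))) (.rp 29 (.thr 1 9 (.thr 41 61 (.thr 33 45 (.dbl 49 17 25)))) (.rp 25 (.thr 6 4 (.thr 9 1 (.thr 3 12 (.thr 15 11 (.thr 48 26 (.thr 33 18 (.thr 41 45 (.dbl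 22 52 60)))))))) (.rp 17 (.thr 4 6 (.thr 38 55 (.thr 36 39 (.thr 25 49 (.thr 12 51 (.thr 48 24 (.dbl 15 14 26))))))) (.rp 9 (.thr 4 6 (.thr 38 55 (.thr 36 39 (.thr 25 49 (.thr 12 51 (.thr 48 24 (.dbl 15 14 26))))))) (.rp 1 (.thr 4 6 (.thr 38 55 (.thr 36 39 (.thr 25 49 (.thr 12 51 (.thr 48 24 (.dbl 15 14 26))))))) .nd)))))))))))) (.rp 6 (.str 0 (.nv (.thr 22 52 (.thr 20 23 (.thr 60 40 (.thr 41 3 (.thr 1 61 (.thr 33 45 (.thr 49 17 (.dbl 13 9 25)))))))) (.nv (.thr 22 52 (.thr 23 20 (.thr 55 39 (.thr 63 42 (.thr 51 59 (.thr 17 34 (.thr 25 29 (.dbl 38 4 12)))))))) (.nv (.thr 42 63 (.thr 32 47 (.thr 48 16 (.thr 15 26 (.thr 3 11 (.thr 33 18 (.thr 41 45 (.dbl 1 2 61)))))))) (.nv (.thr 22 52 (.thr 23 20 (.thr 63 42 (.thr 3 43 (.thr 41 60 (.dbl 1 2 61)))))) (.rp 63 (.thr 22 52 (.thr 20 23 (.thr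 60 40 (.thr 3 41 (.thr 15 11 (.thr 30 45 (.dbl 26 18 48))))))) (.rp 22 (.thr 42 63 (.thr 32 47 (.thr 48 16 (.thr 15 26 (.thr 3 11 (.thr 18 33 (.thr 2 1 (.thr 34 50 (.thr 38 46 (.thr 55 4 (.dbl 39 23 36))))))))))) (.rp 14 (.str 2 (.nv (.thr 3 1 (.thr 15 11 (.thr 26 48 (.thr 31 16 (.dbl 63 42 47))))) (.nv (.thr 22 52 (.thr 20 23 (.thr 3 1 (.dbl 60 40 41)))) (.rp 46 (.str 30 (.nv (.thr 22 52 (.thr 26 18 (.thr 16 31 (.dbl 48 15 32)))) (.nv (.thr 3 1 (.thr 15 11 (.thr 26 48 (.thr 31 16 (.dbl 63 42 47))))) (.nv (.thr 22 52 (.thr 20 23 (.thr 3 1 (.dbl 60 40 41)))) .nd)))) (.rp 30 (.str 46 (.nv (.thr 42 63 (.thr 38 34 (.thr 39 36 (.dbl 55 4 23)))) (.nv (.thr 3 1 (.thr 15 11 (.thr 26 48 (.thr 31 16 (.dbl 63 42 47))))) (.nv (.thr 22 52 (.thr 20 23 (.thr 3 1 (.dbl 60 40 41)))) .nd)))) (.rp 3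 (.thr 22 52 (.thr 23 20 (.thr 55 39 (.thr 63 42 (.thr 51 59 (.thr 17 34 (.thr 25 29 (.dbl 38 4 12)))))))) (.rp 1 (.thr 22 52 (.thr 23 20 (.thr 63 42 (.thr 3 43 (.thr 15 11 (.thr 31 47 (.dbl 26 16 48))))))) .nd))))))) (.rp 2 (.str 14 (.nv (.thr 42 63 (.thr 32 47 (.thr 48 16 (.thr 15 26 (.thr 12 13 (.thr 4 8 (.thr 36 24 (.dbl 38 39 55)))))))) (.nv (.thr 22 52 (.thr 20 23 (.thr 60 40 (.thr 41 3 (.thr 1 61 (.thr 33 45 (.thr 49 17 (.dbl 13 9 25)))))))) (.nv (.thr 42 63 (.thr 32 47 (.thr 48 16 (.thr 15 26 (.thr 3 11 (.thr 33 18 (.thr 41 45 (.dbl 22 52 60)))))))) (.nv (.thr 22 52 (.thr 23 20 (.thr 55 39 (.thr 63 42 (.thr 51 59 (.thr 17 34 (.thr 25 29 (.dbl 38 4 12)))))))) (.nv (.thr 22 52 (.thr 20 23 (.thr 60 40 (.thr 3 41 (.thr 42 63 (.thr 32 47 (.thr 48 16 (.dbl 15 11 26)))))))) (.rp 63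 (.thr 22 52 (.thr 20 23 (.thr 60 40 (.thr 3 41 (.thr 15 11 (.thr 30 45 (.dbl 26 18 48))))))) .nd))))))) .nd))))))))) (.rp 4 (.str 13 (.nv (.thr 25 49 (.thr 29 17 (.thr 61 45 (.dbl 1 9 41)))) (.nv (.thr 1 9 (.thr 61 41 (.thr 25 49 (.dbl 29 17 45)))) (.rp 61 (.thr 22 52 (.thr 20 23 (.thr 9 1 (.thr 25 49 (.thr 57 41 (.thr 28 19 (.thr 16 24 (.thr 31 26 (.dbl 29 17 30))))))))) (.rp 49 (.thr 22 52 (.thr 20 23 (.thr 1 9 (.thr 61 41 (.thr 29 45 (.thr 25 17 (.thr 28 19 (.thr 31 30 (.dbl 16 24 26))))))))) (.rp 45 (.thr 22 52 (.thr 20 23 (.thr 25 49 (.thr 29 17 (.thr 28 19 (.thr 31 30 (.dbl 16 24 26))))))) (.rp 41 (.thr 22 52 (.thr 20 23 (.thr 25 49 (.thr 29 17 (.thr 28 19 (.thr 31 30 (.dbl 16 24 26))))))) (.rp 29 (.thr 1 9 (.thr 41 61 (.thr 33 45 (.dbl 49 17 25)))) (.rp 25 (.thr 22 52 (.thr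 20 23 (.thr 1 9 (.thr 41 61 (.thr 45 33 (.thr 60 3 (.thr 15 30 (.thr 0 40 (.thr 63 42 (.thr 31 47 (.dbl 26 16 48))))))))))) (.rp 17 (.thr 22 52 (.thr 20 23 (.thr 1 9 (.thr 61 41 (.thr 29 45 (.thr 25 49 (.thr 28 19 (.thr 31 30 (.dbl 16 24 26))))))))) (.rp 9 (.thr 22 52 (.thr 20 23 (.thr 25 49 (.thr 29 17 (.thr 28 19 (.thr 31 30 (.dbl 16 24 26))))))) (.rp 1 (.thr 22 52 (.thr 20 23 (.thr 25 49 (.thr 28 19 (.thr 16 24 (.thr 31 26 (.dbl 29 17 30))))))) .nd)))))))))))) .nd))))))))))))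

theorem w397 : WinAt (137441050656, 4620693217682129920) :=
  chF (K := []) kn c397 137441050656 4620693217682129920 53
    [] (by decide +kernel) (by decide +kernel)

/-- A certificate. -/
noncomputable def c398 : Ct := (.str 7 (.nv (.thr 52 22 (.thr 53 5 (.thr 55 54 (.thr 38 4 (.dbl 39 23 36))))) (.nv (.thr 22 52 (.thr 23 20 (.thr 55 39 (.thr 4 38 (.dbl 5 6 53))))) (.rp 55 (.thr 53 5 (.thr 22 52 (.str 15 (.nv (.thr 3 11 (.thr 41 60 (.thr 45 33 (.thr 61 1 (.thr 13 29 (.dbl 49 25 57)))))) (.nv (.thr 23 20 (.thr 26 48 (.thr 31 16 (.thr 19 27 (.thr 28 25 (.dbl 30 18 29)))))) (.nv (.thr 3 11 (.thr 60 41 (.thr 26 48 (.dbl 30 18 45)))) (.rp 60 (.thr 23 20 (.thr 11 3 (.thr 26 48 (.thr 56 41 (.thr 31 16 (.thr 19 27 (.thr 28 25 (.dbl 30 18 29)))))))) (.rp 59 (.str 51 (.nv (.thr 3 11 (.thr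 23 20 (.thr 19 35 (.dbl 27 31 39)))) (.nv (.thr 26 48 (.thr 30 18 (.thr 60 45 (.dbl 3 11 41)))) (.nv (.thr 23 20 (.thr 27 39 (.thr 31 19 (.dbl 26 16 48)))) .nd)))) (.rp 51 (.str 59 (.nv (.thr 3 11 (.thr 41 60 (.thr 45 33 (.thr 61 1 (.thr 13 29 (.dbl 49 25 57)))))) (.nv (.thr 11 3 (.thr 23 20 (.thr 27 43 (.thr 19 31 (.thr 25 28 (.dbl 26 24 48)))))) (.nv (.thr 3 11 (.thr 60 41 (.thr 30 45 (.dbl 26 18 48)))) (.rp 48 (.thr 23 20 (.thr 3 11 (.thr 60 41 (.thr 30 45 (.thr 26 18 (.thr 31 16 (.thr 28 29 (.dbl 19 25 27)))))))) (.rp 11 (.thr 23 20 (.thr 26 48 (.thr 30 18 (.thr 31 16 (.thr 28 29 (.dbl 19 25 27)))))) (.rp 3 (.thr 23 20 (.thr 26 48 (.thr 31 16 (.thr 19 27 (.thr 28 25 (.dbl 30 18 29)))))) .nd))))))) (.rp 48 (.thr 23 20 (.thr 3 11 (.thr 60 41 (.thr 30 45 (.thr 26 18 (.thr 31 16 (.thr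 28 29 (.dbl 19 25 27)))))))) .nd)))))))))) (.rp 53 (.str 39 (.nv (.thr 22 52 (.dbl 23 20 55)) (.nv (.thr 38 36 (.dbl 55 4 23)) (.rp 58 (.str 48 (.nv (.thr 26 15 (.thr 22 52 (.dbl 23 20 55))) (.nv (.thr 38 36 (.dbl 55 4 23)) (.rp 55 (.thr 36 38 (.thr 52 22 (.thr 20 4 (.thr 24 12 (.thr 16 28 (.dbl 26 15 31)))))) (.rp 26 (.str 42 (.nv (.thr 22 52 (.dbl 23 20 55)) (.nv (.thr 38 36 (.dbl 55 4 23)) (.rp 55 (.thr 38 36 (.thr 47 32 (.thr 35 43 (.thr 46 34 (.dbl 44 41 45))))) (.rp 23 (.thr 38 36 (.thr 4 55 (.thr 6 5 (.dbl 22 52 54)))) .nd))))) (.rp 23 (.thr 38 36 (.thr 4 55 (.thr 6 5 (.dbl 22 52 54)))) .nd)))))) (.rp 55 (.thr 52 22 (.str 48 (.nv (.thr 36 38 (.thr 20 4 (.thr 60 56 (.thr 0 40 (.thr 16 32 (.dbl 24 12 28)))))) (.nv (.thr 15 26 (.thr 38 36 (.thr 51 27 (.thr 49 50 (.dbl 25 12 13)))))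 (.rp 59 (.str 51 (.nv (.thr 38 36 (.thr 25 12 (.dbl 49 13 50))) (.nv (.dbl 15 26 27) .nd))) (.rp 51 (.str 59 (.nv (.thr 15 26 (.thr 36 38 (.thr 4 20 (.thr 6 5 (.thr 12 24 (.dbl 3 9 11)))))) (.nv (.thr 26 15 (.thr 56 60 (.thr 57 58 (.thr 41 11 (.thr 25 9 (.thr 8 42 (.dbl 24 27 40))))))) (.nv (.thr 36 38 (.thr 20 4 (.thr 60 56 (.thr 0 40 (.thr 16 32 (.dbl 24 12 28)))))) (.rp 25 (.thr 36 38 (.thr 12 24 (.thr 20 4 (.thr 60 56 (.thr 40 0 (.dbl 44 28 32)))))) (.rp 24 (.thr 38 36 (.thr 56 60 (.thr 26 15 (.thr 41 11 (.thr 35 44 (.thr 47 43 (.thr 32 42 (.dbl 33 34 45)))))))) .nd)))))) (.rp 38 (.thr 15 26 (.thr 3 11 (.thr 18 33 (.thr 51 27 (.thr 19 35 (.thr 50 49 (.thr 17 16 (.dbl 34 0 2)))))))) (.rp 36 (.thr 15 26 (.thr 3 11 (.thr 51 27 (.thr 49 50 (.thr 25 13 (.thr 17 29 (.dbl 33 1 18)))))))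 (.rp 24 (.thr 38 36 (.thr 15 26 (.thr 51 27 (.thr 25 12 (.dbl 49 13 50))))) (.rp 12 (.thr 36 38 (.thr 20 4 (.thr 60 56 (.thr 0 40 (.thr 16 32 (.dbl 26 15 31)))))) .nd)))))))))) (.rp 48 (.str 58 (.nv (.thr 22 52 (.dbl 23 20 55)) (.nv (.thr 55 23 (.dbl 38 4 36)) (.rp 55 (.str 51 (.nv (.thr 38 36 (.thr 12 25 (.thr 22 52 (.thr 54 6 (.thr 60 57 (.thr 41 3 (.dbl 44 28 35))))))) (.nv (.thr 15 27 (.thr 3 11 (.thr 35 19 (.thr 38 36 (.thr 41 44 (.thr 33 45 (.thr 32 34 (.dbl 47 42 43)))))))) (.nv (.thr 15 27 (.thr 38 36 (.thr 12 25 (.thr 14 13 (.thr 22 52 (.thr 54 6 (.dbl 50 26 62))))))) (.rp 54 (.thr 52 22 (.thr 15 27 (.thr 3 11 (.thr 35 19 (.thr 38 36 (.thr 41 44 (.thr 33 45 (.thr 32 34 (.dbl 47 42 43))))))))) (.rp 52 (.str 54 (.nv (.thr 15 27 (.thr 38 36 (.thr 12 25 (.thr 14 13 (.dbl 50 26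 62))))) (.nv (.thr 60 57 (.thr 15 27 (.thr 45 30 (.thr 41 33 (.dbl 3 11 22))))) (.rp 60 (.str 56 (.nv (.thr 15 27 (.thr 11 3 (.thr 57 59 (.thr 41 26 (.thr 25 9 (.dbl 38 12 36)))))) (.nv (.thr 15 27 (.thr 38 36 (.thr 12 25 (.thr 14 13 (.dbl 50 26 62))))) (.rp 62 (.str 61 (.nv (.thr 15 27 (.thr 3 11 (.thr 38 36 (.thr 6 22 (.dbl 12 9 25))))) (.nv (.thr 38 36 (.thr 41 1 (.thr 57 59 (.dbl 25 9 12)))) (.nv (.thr 41 1 (.thr 15 27 (.dbl 11 3 26))) .nd)))) (.rp 61 (.thr 62 50 (.thr 38 36 (.thr 6 22 (.thr 12 25 (.thr 3 9 (.dbl 15 11 27)))))) (.rp 38 (.thr 59 57 (.thr 27 15 (.thr 43 11 (.thr 47 35 (.thr 42 32 (.thr 8 25 (.dbl 40 24 41))))))) (.rp 36 (.thr 57 59 (.thr 15 27 (.thr 11 3 (.thr 41 26 (.thr 25 9 (.thr 12 38 (.dbl 13 14 49))))))) (.rp 27 (.thr 38 36 (.thr 6 22 (.thr 57 59 (.thr 12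 25 (.thr 3 9 (.thr 11 15 (.thr 26 41 (.dbl 50 14 62)))))))) (.rp 26 (.thr 38 36 (.thr 6 22 (.thr 12 25 (.thr 3 9 (.dbl 15 11 27))))) (.rp 25 (.thr 38 36 (.thr 22 6 (.thr 15 27 (.thr 11 3 (.thr 26 41 (.dbl 50 14 62)))))) (.rp 15 (.thr 38 36 (.thr 6 22 (.thr 12 25 (.thr 4 5 (.thr 0 8 (.thr 34 17 (.thr 42 46 (.thr 47 32 (.thr 35 43 (.dbl 3 9 19)))))))))) (.rp 12 (.thr 59 57 (.thr 27 15 (.thr 43 11 (.thr 47 35 (.thr 42 32 (.thr 40 41 (.dbl 8 24 25))))))) .nd)))))))))))) (.rp 27 (.thr 38 36 (.thr 22 6 (.thr 60 57 (.thr 3 41 (.thr 19 35 (.dbl 25 12 28)))))) (.rp 15 (.thr 38 36 (.thr 22 6 (.thr 60 57 (.thr 3 41 (.thr 19 35 (.dbl 25 12 28)))))) .nd)))))) (.rp 38 (.thr 15 27 (.str 60 (.nv (.thr 3 11 (.dbl 22 41 52)) (.nv (.thr 45 30 (.thr 41 33 (.dbl 3 11 22))) (.rp 54 (.thr 52 22 (.str 6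 (.nv (.thr 45 30 (.thr 41 33 (.thr 61 1 (.thr 13 29 (.thr 12 14 (.dbl 3 9 11)))))) (.nv (.thr 4 5 (.thr 20 36 (.thr 0 40 (.thr 12 8 (.dbl 3 9 11))))) (.rp 12 (.thr 45 30 (.thr 33 41 (.thr 3 11 (.thr 35 19 (.thr 32 34 (.dbl 47 42 43)))))) (.rp 11 (.thr 4 5 (.thr 20 36 (.thr 0 40 (.thr 17 34 (.thr 25 29 (.thr 13 49 (.dbl 12 8 14))))))) (.rp 9 (.thr 45 30 (.thr 4 5 (.thr 20 36 (.thr 41 33 (.thr 1 61 (.thr 0 40 (.dbl 3 2 11))))))) (.rp 3 (.thr 4 5 (.thr 20 36 (.thr 0 40 (.thr 12 8 (.thr 13 14 (.thr 25 49 (.dbl 17 29 34))))))) .nd)))))))) (.rp 52 (.thr 54 57 (.thr 3 11 (.thr 45 30 (.dbl 41 22 33)))) (.rp 41 (.thr 3 11 (.thr 35 19 (.thr 54 57 (.thr 62 50 (.thr 22 52 (.thr 42 2 (.dbl 47 32 43))))))) (.rp 22 (.thr 3 11 (.thr 35 19 (.thr 45 30 (.thr 33 41 (.thr 32 34 (.dbl 47 42 43)))))) (.rp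 11 (.thr 45 30 (.thr 41 33 (.dbl 22 3 52))) (.rp 3 (.thr 54 57 (.thr 62 50 (.thr 45 30 (.thr 22 52 (.thr 42 2 (.thr 47 32 (.thr 43 35 (.dbl 41 33 40)))))))) .nd)))))))))) (.rp 36 (.thr 15 27 (.str 60 (.nv (.thr 3 11 (.dbl 22 41 52)) (.nv (.thr 45 30 (.thr 41 33 (.dbl 3 11 22))) (.rp 54 (.thr 52 22 (.thr 3 11 (.thr 35 19 (.thr 45 30 (.thr 33 41 (.thr 32 34 (.dbl 47 42 43))))))) (.rp 52 (.thr 54 57 (.thr 3 11 (.thr 45 30 (.dbl 41 22 33)))) (.rp 41 (.thr 3 11 (.thr 19 35 (.thr 54 57 (.thr 22 52 (.thr 38 6 (.dbl 25 12 28)))))) (.rp 24 (.str 12 (.nv (.thr 3 11 (.dbl 22 41 52)) (.nv (.thr 25 38 (.dbl 13 14 49)) (.rp 54 (.thr 52 22 (.thr 13 14 (.dbl 25 38 49))) (.rp 52 (.thr 54 57 (.thr 13 14 (.dbl 25 38 49))) (.rp 25 (.str 26 (.nv (.thr 54 57 (.thr 14 13 (.dbl 50 38 62))) (.nv (.thr 30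 45 (.dbl 22 18 52)) (.rp 54 (.thr 52 22 (.thr 30 45 (.thr 28 44 (.dbl 31 16 29)))) .nd)))) .nd)))))) (.rp 22 (.thr 3 11 (.thr 35 19 (.thr 45 30 (.thr 41 33 (.thr 44 38 (.dbl 47 43 46)))))) (.rp 12 (.str 24 (.nv (.thr 3 11 (.dbl 22 41 52)) (.nv (.thr 45 30 (.thr 41 33 (.dbl 22 3 52))) (.rp 54 (.thr 52 22 (.thr 45 30 (.thr 33 41 (.thr 3 11 (.thr 35 19 (.thr 32 34 (.dbl 47 42 43))))))) (.rp 52 (.thr 54 57 (.thr 45 30 (.thr 41 33 (.dbl 3 11 22)))) (.rp 46 (.str 29 (.nv (.thr 54 57 (.thr 25 17 (.thr 45 30 (.dbl 13 49 61)))) (.nv (.thr 3 11 (.dbl 22 41 52)) (.rp 54 (.thr 52 22 (.thr 45 30 (.thr 61 13 (.dbl 41 1 33)))) .nd)))) (.rp 41 (.thr 30 45 (.thr 22 52 (.thr 54 57 (.thr 20 23 (.thr 26 18 (.dbl 16 28 31)))))) (.rp 29 (.str 46 (.nv (.thr 3 11 (.dbl 22 41 52)) (.nv (.thr 54 57 (.thr 62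 50 (.dbl 30 14 45))) (.rp 54 (.thr 52 22 (.thr 45 30 (.thr 47 44 (.thr 35 43 (.dbl 3 11 19))))) .nd)))) (.rp 22 (.thr 45 30 (.thr 41 33 (.thr 3 11 (.thr 35 19 (.thr 44 38 (.dbl 47 43 46)))))) (.rp 3 (.thr 30 45 (.thr 22 52 (.thr 54 57 (.thr 50 62 (.thr 18 26 (.thr 34 2 (.thr 0 17 (.dbl 20 23 40)))))))) .nd)))))))))) (.rp 11 (.thr 45 30 (.thr 41 33 (.dbl 22 3 52))) (.rp 3 (.thr 54 57 (.thr 50 62 (.thr 30 45 (.thr 22 52 (.thr 38 6 (.dbl 26 14 18)))))) .nd)))))))))))) (.rp 12 (.thr 15 27 (.str 60 (.nv (.thr 3 11 (.dbl 22 41 52)) (.nv (.thr 54 57 (.thr 22 52 (.dbl 38 6 36))) (.rp 54 (.thr 52 22 (.thr 3 11 (.thr 35 19 (.thr 45 30 (.thr 41 33 (.dbl 38 36 44)))))) (.rp 52 (.thr 54 57 (.thr 3 11 (.thr 45 30 (.dbl 41 22 33)))) (.rp 46 (.str 29 (.nv (.thr 36 38 (.thr 25 17 (.thr 13 49 (.dbl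 45 30 61)))) (.nv (.thr 3 11 (.dbl 22 41 52)) (.nv (.thr 54 57 (.thr 22 52 (.dbl 38 6 36))) (.rp 54 (.thr 52 22 (.thr 25 17 (.thr 13 49 (.dbl 45 30 61)))) (.rp 52 (.thr 54 57 (.thr 3 11 (.thr 45 30 (.dbl 41 22 33)))) (.rp 36 (.str 24 (.nv (.thr 54 57 (.thr 25 17 (.thr 45 30 (.dbl 13 49 61)))) (.nv (.thr 3 11 (.dbl 22 41 52)) (.rp 54 (.thr 52 22 (.thr 45 30 (.thr 61 13 (.dbl 41 1 33)))) .nd)))) .nd))))))) (.rp 36 (.str 24 (.nv (.thr 3 11 (.dbl 22 41 52)) (.nv (.thr 45 30 (.thr 41 33 (.dbl 22 3 52))) (.rp 54 (.thr 52 22 (.thr 45 30 (.thr 33 41 (.thr 3 11 (.thr 35 19 (.thr 32 34 (.dbl 47 42 43))))))) (.rp 52 (.thr 54 57 (.thr 45 30 (.thr 41 33 (.dbl 3 11 22)))) (.rp 46 (.str 29 (.nv (.thr 54 57 (.thr 25 17 (.thr 45 30 (.dbl 13 49 61)))) (.nv (.thr 3 11 (.dbl 22 41 52)) (.rp 54 (.thr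 52 22 (.thr 45 30 (.thr 61 13 (.dbl 41 1 33)))) .nd)))) (.rp 41 (.thr 30 45 (.thr 22 52 (.thr 54 57 (.thr 20 23 (.thr 26 18 (.dbl 16 28 31)))))) (.rp 29 (.str 46 (.nv (.thr 3 11 (.dbl 22 41 52)) (.nv (.thr 54 57 (.thr 62 50 (.dbl 30 14 45))) (.rp 54 (.thr 52 22 (.thr 45 30 (.thr 47 44 (.thr 35 43 (.dbl 3 11 19))))) .nd)))) (.rp 22 (.thr 45 30 (.thr 41 33 (.thr 3 11 (.thr 35 19 (.thr 44 38 (.dbl 47 43 46)))))) (.rp 3 (.thr 30 45 (.thr 22 52 (.thr 54 57 (.thr 50 62 (.thr 18 26 (.thr 34 2 (.thr 0 17 (.dbl 20 23 40)))))))) .nd)))))))))) (.rp 29 (.str 46 (.nv (.thr 3 11 (.thr 35 19 (.thr 45 30 (.dbl 47 43 44)))) (.nv (.thr 54 57 (.thr 22 52 (.dbl 38 6 36))) (.rp 54 (.thr 52 22 (.thr 45 30 (.thr 47 44 (.thr 35 43 (.dbl 3 11 19))))) (.rp 52 (.thr 54 57 (.thr 30 45 (.dbl 62 14 50))) (.rp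 36 (.str 24 (.nv (.thr 3 11 (.dbl 22 41 52)) (.nv (.thr 54 57 (.thr 62 50 (.dbl 30 14 45))) (.rp 54 (.thr 52 22 (.thr 45 30 (.thr 47 44 (.thr 35 43 (.dbl 3 11 19))))) .nd)))) (.rp 24 (.thr 36 38 (.thr 3 11 (.dbl 22 41 52))) .nd))))))) (.rp 24 (.thr 36 38 (.thr 3 11 (.dbl 22 41 52))) (.rp 22 (.thr 3 11 (.thr 35 19 (.thr 45 30 (.thr 41 33 (.dbl 38 36 44))))) .nd))))))))))) .nd))))))))) (.rp 23 (.thr 38 36 (.thr 4 55 (.thr 6 5 (.dbl 22 52 54)))) .nd))))) (.rp 23 (.thr 38 36 (.thr 4 55 (.thr 6 5 (.dbl 22 52 54)))) .nd))))))) (.rp 52 (.str 38 (.nv (.thr 4 55 (.dbl 5 6 53)) (.nv (.thr 39 36 (.dbl 55 4 23)) (.rp 55 (.thr 53 5 (.str 15 (.nv (.thr 11 3 (.thr 26 48 (.thr 14 50 (.thr 13 12 (.thr 49 25 (.thr 61 57 (.dbl 41 1 56))))))) (.nv (.thr 3 11 (.thr 39 36 (.thr 51 27 (.thr 35 19 (.thr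 41 44 (.thr 45 33 (.dbl 60 22 30))))))) (.nv (.thr 39 36 (.thr 51 27 (.thr 12 25 (.thr 26 48 (.dbl 14 13 50))))) (.rp 60 (.thr 39 36 (.thr 51 27 (.thr 12 25 (.thr 14 13 (.dbl 26 48 50))))) (.rp 59 (.str 51 (.nv (.thr 12 25 (.thr 14 13 (.dbl 26 48 50))) (.nv (.dbl 39 27 36) .nd))) (.rp 51 (.str 59 (.nv (.thr 3 11 (.thr 36 39 (.thr 48 26 (.thr 12 24 (.thr 33 18 (.thr 41 45 (.thr 22 60 (.dbl 6 9 54)))))))) (.nv (.thr 11 3 (.thr 26 48 (.thr 56 41 (.thr 57 58 (.thr 14 50 (.thr 49 61 (.dbl 13 12 25))))))) (.nv (.thr 39 36 (.thr 11 3 (.thr 43 27 (.thr 35 47 (.thr 41 44 (.dbl 26 48 56)))))) (.rp 56 (.thr 39 36 (.thr 11 3 (.thr 43 27 (.thr 35 47 (.thr 41 44 (.thr 45 33 (.thr 61 1 (.thr 13 29 (.dbl 49 25 57))))))))) (.rp 48 (.thr 39 36 (.thr 11 3 (.thr 43 27 (.thr 35 47 (.thr 41 44 (.thr 56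 26 (.thr 61 1 (.dbl 57 49 58)))))))) (.rp 41 (.thr 36 39 (.thr 48 26 (.thr 12 24 (.thr 13 14 (.thr 25 49 (.thr 42 8 (.thr 29 17 (.thr 45 61 (.thr 47 32 (.dbl 46 34 44)))))))))) (.rp 26 (.thr 39 36 (.thr 11 3 (.thr 43 27 (.thr 35 47 (.thr 41 44 (.thr 45 33 (.thr 61 1 (.thr 13 29 (.dbl 49 25 57))))))))) (.rp 11 (.thr 36 39 (.thr 48 26 (.thr 12 24 (.thr 13 14 (.thr 25 49 (.thr 29 17 (.thr 45 61 (.thr 60 30 (.thr 44 28 (.dbl 41 33 35)))))))))) (.rp 3 (.thr 36 39 (.thr 48 26 (.thr 12 24 (.thr 13 14 (.thr 25 49 (.thr 42 8 (.thr 29 17 (.thr 45 61 (.thr 47 32 (.dbl 46 34 44)))))))))) .nd)))))))))) (.rp 36 (.thr 3 11 (.thr 48 26 (.thr 33 18 (.thr 41 45 (.thr 61 1 (.thr 35 44 (.thr 51 19 (.dbl 49 50 57)))))))) .nd))))))))) (.rp 4 (.thr 36 39 (.str 13 (.nv (.thr 25 49 (.thr 29 17 (.thr 61 45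 (.thr 1 41 (.dbl 5 9 53))))) (.nv (.thr 25 49 (.thr 12 51 (.thr 48 24 (.dbl 15 14 26)))) (.rp 49 (.thr 5 53 (.thr 1 9 (.thr 61 41 (.thr 29 45 (.thr 25 17 (.thr 12 51 (.thr 15 14 (.dbl 48 24 26)))))))) (.rp 25 (.thr 5 53 (.thr 1 9 (.thr 41 61 (.thr 45 33 (.thr 44 35 (.thr 47 46 (.dbl 32 40 42))))))) .nd)))))) .nd))))) (.rp 39 (.str 13 (.nv (.thr 49 25 (.thr 53 5 (.thr 61 57 (.thr 41 1 (.dbl 45 29 33))))) (.nv (.thr 25 49 (.thr 29 17 (.thr 61 45 (.thr 1 41 (.dbl 5 9 53))))) (.rp 61 (.thr 22 52 (.thr 23 20 (.thr 25 49 (.thr 17 29 (.thr 19 28 (.thr 16 18 (.dbl 31 26 27))))))) (.rp 53 (.thr 22 52 (.thr 23 20 (.thr 25 49 (.thr 17 29 (.thr 19 28 (.thr 16 18 (.dbl 31 26 27))))))) (.rp 49 (.thr 5 53 (.thr 6 4 (.thr 22 52 (.thr 9 1 (.thr 3 12 (.thr 60 41 (.thr 15 11 (.thr 30 45 (.dbl 26 18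 48))))))))) (.rp 45 (.thr 5 53 (.thr 6 4 (.thr 22 52 (.thr 9 1 (.thr 12 3 (.thr 25 49 (.dbl 38 51 54))))))) (.rp 41 (.thr 5 53 (.thr 6 4 (.thr 22 52 (.thr 9 1 (.thr 12 3 (.thr 25 49 (.dbl 38 51 54))))))) (.rp 33 (.thr 5 53 (.thr 1 9 (.thr 61 41 (.thr 29 45 (.dbl 25 17 49))))) (.rp 29 (.thr 5 53 (.thr 1 9 (.thr 41 61 (.thr 33 45 (.dbl 49 17 25))))) (.rp 25 (.thr 5 53 (.thr 6 4 (.thr 22 52 (.thr 9 1 (.thr 3 12 (.thr 60 41 (.thr 15 11 (.thr 30 45 (.dbl 26 18 48))))))))) (.rp 5 (.thr 22 52 (.thr 23 20 (.thr 25 49 (.thr 17 29 (.thr 19 28 (.thr 16 18 (.dbl 31 26 27))))))) (.rp 1 (.thr 22 52 (.thr 23 20 (.thr 25 49 (.thr 17 29 (.thr 19 28 (.thr 16 18 (.dbl 31 26 27))))))) .nd))))))))))))) (.rp 38 (.str 61 (.nv (.thr 5 53 (.thr 1 41 (.thr 13 9 (.thr 25 49 (.dbl 29 17 45))))) (.nv (.thr 22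 52 (.thr 41 1 (.thr 3 60 (.thr 33 45 (.thr 48 18 (.dbl 15 11 26)))))) (.nv (.thr 41 1 (.thr 53 5 (.thr 45 33 (.thr 49 57 (.dbl 13 25 29))))) (.rp 45 (.thr 53 5 (.thr 1 41 (.thr 49 57 (.thr 17 33 (.dbl 25 13 29))))) (.rp 41 (.thr 53 5 (.thr 49 57 (.thr 25 13 (.thr 29 17 (.thr 22 52 (.thr 20 23 (.thr 28 19 (.thr 16 24 (.dbl 31 26 30))))))))) (.rp 1 (.thr 53 5 (.thr 49 57 (.thr 13 25 (.thr 45 29 (.thr 41 33 (.thr 22 52 (.thr 23 20 (.thr 39 55 (.thr 3 60 (.thr 15 11 (.thr 51 27 (.dbl 48 26 50)))))))))))) .nd))))))) (.rp 36 (.thr 5 53 (.thr 4 6 (.thr 55 38 (.thr 23 39 (.dbl 22 20 52))))) (.rp 23 (.thr 5 53 (.thr 4 6 (.thr 38 55 (.thr 36 39 (.dbl 52 20 22))))) (.rp 22 (.str 41 (.nv (.thr 33 45 (.thr 5 53 (.thr 1 61 (.thr 13 9 (.dbl 49 17 25))))) (.nv (.thr 53 5 (.thr 45 33 (.thr 61 1 (.thr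 49 57 (.dbl 13 25 29))))) (.rp 61 (.thr 5 53 (.thr 45 33 (.thr 4 6 (.thr 38 55 (.thr 36 39 (.thr 44 35 (.thr 32 40 (.dbl 47 42 46)))))))) (.rp 57 (.thr 5 53 (.thr 33 45 (.thr 1 61 (.thr 49 17 (.dbl 13 9 25))))) (.rp 53 (.thr 33 45 (.thr 1 61 (.thr 49 17 (.thr 13 25 (.thr 5 9 (.thr 4 6 (.thr 38 55 (.thr 39 36 (.thr 35 44 (.thr 47 43 (.dbl 32 34 42))))))))))) (.rp 49 (.thr 5 53 (.thr 45 33 (.thr 4 6 (.thr 38 55 (.thr 36 39 (.thr 44 35 (.thr 32 40 (.dbl 47 42 46)))))))) (.rp 45 (.thr 5 53 (.thr 1 61 (.thr 13 9 (.thr 49 25 (.thr 33 17 (.thr 4 6 (.thr 38 55 (.thr 39 36 (.thr 35 44 (.thr 47 43 (.dbl 32 34 42))))))))))) (.rp 33 (.thr 5 53 (.thr 1 61 (.thr 9 13 (.thr 57 25 (.thr 6 4 (.thr 3 12 (.thr 15 11 (.thr 0 2 (.thr 48 26 (.thr 32 16 (.thr 42 47 (.thr 40 43 (.thr 36 44 (.thr 60 20 (.thr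 39 38 (.dbl 51 27 54)))))))))))))))) (.rp 25 (.thr 5 53 (.thr 45 33 (.thr 4 6 (.thr 38 55 (.thr 36 39 (.thr 44 35 (.thr 32 40 (.dbl 47 42 46)))))))) (.rp 13 (.thr 5 53 (.thr 45 33 (.thr 4 6 (.thr 38 55 (.thr 36 39 (.thr 44 35 (.thr 32 40 (.dbl 47 42 46)))))))) (.rp 9 (.thr 53 5 (.thr 45 33 (.thr 61 1 (.thr 13 29 (.dbl 49 25 57))))) (.rp 5 (.str 15 (.nv (.thr 3 11 (.thr 33 45 (.dbl 48 18 26))) (.nv (.thr 11 3 (.dbl 26 48 56)) (.rp 48 (.thr 33 45 (.thr 1 61 (.thr 17 49 (.thr 3 11 (.thr 0 2 (.thr 51 34 (.thr 35 19 (.thr 39 27 (.dbl 38 36 44))))))))) (.rp 26 (.thr 33 45 (.thr 1 61 (.thr 17 49 (.thr 3 11 (.thr 0 2 (.thr 51 34 (.thr 19 35 (.dbl 18 16 48)))))))) (.rp 11 (.thr 45 33 (.thr 61 1 (.thr 30 60 (.thr 26 48 (.thr 31 16 (.dbl 29 13 28)))))) (.rp 3 (.thr 45 33 (.thr 61 1 (.thr 13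 29 (.thr 49 25 (.thr 57 53 (.thr 60 30 (.thr 51 54 (.dbl 48 26 50)))))))) .nd))))))) (.rp 1 (.thr 5 53 (.thr 45 33 (.thr 4 6 (.thr 38 55 (.thr 36 39 (.thr 44 35 (.thr 32 40 (.dbl 47 42 46)))))))) .nd)))))))))))))) (.rp 5 (.str 15 (.nv (.thr 22 52 (.thr 23 20 (.thr 26 48 (.thr 31 16 (.thr 39 55 (.dbl 27 19 51)))))) (.nv (.thr 22 52 (.thr 3 11 (.thr 60 41 (.thr 30 45 (.dbl 26 18 48))))) (.rp 60 (.thr 22 52 (.thr 23 20 (.thr 39 55 (.thr 3 11 (.thr 51 27 (.thr 19 35 (.thr 25 28 (.dbl 38 12 36)))))))) (.rp 56 (.thr 22 52 (.thr 3 11 (.thr 60 41 (.thr 26 48 (.dbl 30 18 45))))) (.rp 52 (.thr 3 11 (.thr 48 26 (.thr 33 18 (.thr 41 45 (.thr 1 61 (.thr 17 49 (.thr 0 2 (.thr 32 16 (.dbl 34 35 51))))))))) (.rp 48 (.thr 22 52 (.thr 23 20 (.thr 39 55 (.thr 3 11 (.thr 60 41 (.thr 51 27 (.thr 54 57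 (.dbl 38 6 36)))))))) (.rp 26 (.thr 22 52 (.thr 23 20 (.thr 39 55 (.thr 3 11 (.thr 41 60 (.thr 51 27 (.thr 35 19 (.dbl 38 36 44)))))))) (.rp 22 (.thr 11 3 (.thr 26 48 (.thr 41 56 (.thr 33 45 (.thr 1 61 (.thr 49 17 (.thr 13 25 (.thr 14 12 (.thr 38 50 (.thr 55 4 (.dbl 39 23 36))))))))))) .nd))))))))) (.rp 4 (.str 13 (.nv (.thr 49 25 (.thr 53 5 (.thr 61 57 (.thr 41 1 (.dbl 45 29 33))))) (.nv (.thr 25 49 (.thr 29 17 (.thr 61 45 (.thr 1 41 (.dbl 5 9 53))))) (.rp 61 (.thr 22 52 (.thr 20 23 (.thr 25 49 (.thr 29 17 (.thr 28 19 (.thr 31 30 (.dbl 16 24 26))))))) (.rp 53 (.thr 22 52 (.thr 20 23 (.thr 25 49 (.thr 29 17 (.thr 28 19 (.thr 31 30 (.dbl 16 24 26))))))) (.rp 49 (.thr 5 53 (.thr 22 52 (.thr 20 23 (.thr 1 9 (.thr 61 41 (.thr 29 45 (.thr 25 17 (.thr 28 19 (.thr 31 30 (.dbl 16 24 26))))))))))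 (.rp 45 (.thr 22 52 (.thr 20 23 (.thr 25 49 (.thr 29 17 (.thr 28 19 (.thr 31 30 (.dbl 16 24 26))))))) (.rp 41 (.thr 22 52 (.thr 20 23 (.thr 25 49 (.thr 29 17 (.thr 28 19 (.thr 31 30 (.dbl 16 24 26))))))) (.rp 33 (.thr 5 53 (.thr 1 9 (.thr 61 41 (.thr 29 45 (.dbl 25 17 49))))) (.rp 29 (.thr 5 53 (.thr 1 9 (.thr 41 61 (.thr 33 45 (.dbl 49 17 25))))) (.rp 25 (.thr 5 53 (.thr 22 52 (.thr 1 9 (.thr 41 61 (.thr 45 33 (.thr 60 3 (.thr 15 30 (.thr 12 14 (.thr 44 28 (.thr 38 35 (.thr 36 39 (.dbl 48 24 26)))))))))))) (.rp 5 (.thr 22 52 (.thr 20 23 (.thr 25 49 (.thr 29 17 (.thr 28 19 (.thr 31 30 (.dbl 16 24 26))))))) (.rp 1 (.thr 22 52 (.thr 20 23 (.thr 25 49 (.thr 28 19 (.thr 16 24 (.thr 31 26 (.dbl 29 17 30))))))) .nd))))))))))))) .nd)))))))))))))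

theorem w398 : WinAt (137441050624, 9223372036854776832) :=
  chF (K := []) kn c398 137441050624 9223372036854776832 63
    [] (by decide +kernel) (by decide +kernel)

end Pool.Agent.TTT.B43
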