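import Pool.Agent.TTT.Q14
import Pool.Agent.TTT.Q15
import Pool.Agent.TTT.Q16
import Pool.Agent.TTT.Q17

/-!
Certified forced wins after the first three cells on the 4 x 4 x 4 board.
-/

set_option autoImplicit false
set_option maxRecDepth 1000000
set_option linter.all false

namespace Pool.Agent.TTT.B43

/-- A certificate. -/
noncomputable def r5 : Rt := (.rp 63 .ext (.rp 62 (.thr 5 53 .ext) (.rp 61 (.thr 53 5 .ext) (.rp 60 (.thr 5 53 .ext) (.rp 59 (.thr 5 53 .ext) (.rp 58 .ext (.rp 57 .ext (.rp 56 (.thr 5 53 .ext) (.rp 55 (.thr 53 5 .ext) (.rp 54 .ext (.rp 53 .ext (.rp 52 (.thr 53 5 .ext) (.rp 51 (.thr 5 53 .ext) (.rp 50 (.thr 5 53 .ext) (.rp 49 (.thr 53 5 .ext) (.rp 48 .ext (.rp 47 (.thr 5 53 .ext) (.rp 46 (.thr 5 53 .ext) (.rp 45 (.thr 5 53 .ext) (.rp 44 (.thr 5 53 .ext) (.rp 43 (.thr 5 53 .ext) (.rp 42 .ext (.rp 41 (.thr 5 53 .ext) (.rp 40 (.thr 5 53 .ext) (.rp 39 (.thr 5 53 .ext) (.rp 38 (.thr 5 53 .ext) (.rp 36 (.thr 5 53 .ext) (.rp 35 (.thr 5 53 .ext) (.rp 34 (.thr 5 53 .ext) (.rp 33 (.thr 5 53 .ext) (.rp 32 (.thr 5 53 .ext)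 (.rp 31 (.thr 5 53 .ext) (.rp 30 (.thr 5 53 .ext) (.rp 29 (.thr 5 53 .ext) (.rp 28 (.thr 5 53 .ext) (.rp 27 (.thr 5 53 .ext) (.rp 26 .ext (.rp 25 (.thr 5 53 .ext) (.rp 24 (.thr 5 53 .ext) (.rp 23 (.thr 5 53 .ext) (.rp 22 (.thr 5 53 .ext) (.rp 20 (.thr 5 53 .ext) (.rp 19 (.thr 5 53 .ext) (.rp 18 (.thr 5 53 .ext) (.rp 17 (.thr 5 53 .ext) (.rp 16 (.thr 5 53 .ext) (.rp 15 (.thr 5 53 .ext) (.rp 14 (.thr 5 53 .ext) (.rp 13 (.thr 5 53 .ext) (.rp 12 (.thr 5 53 .ext) (.rp 11 (.thr 5 53 .ext) (.rp 9 .ext (.rp 8 (.thr 5 53 .ext) (.rp 7 (.thr 5 53 .ext) (.rp 6 .ext (.rp 5 .ext (.rp 4 (.thr 5 53 .ext) (.rp 3 (.thr 5 53 .ext) (.rp 2 (.thr 5 53 .ext) (.rp 1 (.thr 5 53 .ext) (.rp 0 (.thr 5 53 .ext) .nd)))))))))))))))))))))))))))))))))))))))))))))))))))))))))))))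

theorem f5 : FR (cellsN 64) (Won lines) (bs 137441050624) (bs 1024) :=
  chunkR_sound bok full_eq (K := [(137441050624, 1056), (137441050624, 1088), (137441050624, 1536), (137441050624, 67109888), (137441050624, 4398046512128), (137441050624, 281474976711680), (137441050624, 9007199254742016), (137441050624, 18014398509483008), (137441050624, 144115188075856896), (137441050624, 288230376151712768), (137441050624, 9223372036854776832), (137441050656, 9007199254742017), (137441050656, 9007199254742018), (137441050656, 9007199254742020), (137441050656, 9007199254742024), (137441050656, 9007199254742032), (137441050656, 9007199254742144), (137441050656, 9007199254742272), (137441050656, 9007199254744064), (137441050656, 9007199254746112), (137441050656, 9007199254750208), (137441050656, 9007199254758400), (137441050656, 9007199254774784), (137441050656, 9007199254807552), (137441050656, 9007199254873088), (137441050656, 9007199255004160), (137441050656, 9007199255266304), (137441050656, 9007199255790592), (137441050656, 9007199258936320),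 (137441050656, 9007199263130624), (137441050656, 9007199271519232), (137441050656, 9007199288296448), (137441050656, 9007199388959744), (137441050656, 9007199523177472), (137441050656, 9007199791612928), (137441050656, 9007200328483840), (137441050656, 9007201402225664), (137441050656, 9007203549709312), (137441050656, 9007207844676608), (137441050656, 9007216434611200), (137441050656, 9007233614480384), (137441050656, 9007267974218752), (137441050656, 9007474132648960), (137441050656, 9007749010555904), (137441050656, 9008298766369792), (137441050656, 9009398277997568), (137441050656, 9015995347764224), (137441050656, 9024791440786432), (137441050656, 9042383626830848), (137441050656, 9077567998919680), (137441050656, 9147936743097344), (137441050656, 10133099161584640), (137441050656, 11258999068427264), (137441050656, 81064793292669952), (137441050656, 585467951558165504), (137441050656, 1161928703861588992), (137441050656, 4620693217682129920), (9007336695791616, 562949953422368), (9007336695791616, 4503599627371552), (9007336695791616,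 36028797018965024), (9007336695791616, 2305843009213695008)]) (kc w332 (kc w333 (kc w336 (kc w360 (kc w375 (kc w383 (kc w388 (kc w389 (kc w392 (kc w393 (kc w398 (kc w323 (kc w324 (kc w325 (kc w326 (kc w327 (kc w334 (kc w335 (kc w337 (kc w338 (kc w339 (kc w340 (kc w341 (kc w342 (kc w343 (kc w344 (kc w345 (kc w346 (kc w347 (kc w348 (kc w349 (kc w350 (kc w361 (kc w362 (kc w363 (kc w364 (kc w365 (kc w366 (kc w367 (kc w368 (kc w369 (kc w370 (kc w371 (kc w372 (kc w373 (kc w374 (kc w376 (kc w377 (kc w378 (kc w379 (kc w380 (kc w385 (kc w386 (kc w391 (kc w394 (kc w395 (kc w397 (kc w384 (kc w387 (kc w390 (kc w396 kn))))))))))))))))))))))))))))))))))))))))))))))))))))))))))))) r5 137441050624 1024 [] (by decide +kernel) (by decide +kernel)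

end Pool.Agent.TTT.B43
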