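import Pool.Agent.TTT.B43

/-!
Certified forced wins in positions of the 4 x 4 x 4 board.
-/

set_option autoImplicit false
set_option maxRecDepth 1000000
set_option linter.all false

namespace Pool.Agent.TTT.B43

/-- A certificate. -/
noncomputable def c438 : Ct := (.str 12 (.nv (.thr 8 4 (.thr 25 59 (.thr 51 38 (.dbl 17 29 34)))) (.nv (.thr 4 8 (.thr 38 55 (.thr 34 46 (.dbl 51 17 25)))) (.rp 59 (.thr 4 8 (.thr 38 55 (.thr 51 25 (.dbl 34 17 46)))) (.rp 51 (.thr 4 8 (.thr 55 38 (.str 6 (.nv (.thr 5 7 (.thr 37 53 (.thr 32 47 (.thr 48 16 (.dbl 15 10 26))))) (.nv (.thr 3 9 (.thr 2 1 (.thr 5 7 (.dbl 10 14 15)))) (.rp 39 (.str 15 (.nv (.thr 14 13 (.thr 2 10 (.dbl 3 1 9))) (.nv (.dbl 5 7 10) (.rp 37 (.str 36 (.nv (.thr 7 5 (.dbl 3 9 11)) (.nv (.dbl 5 7 10) (.rp 7 (.thr 52 20 (.thr 14 13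 (.dbl 10 2 5))) (.rp 5 (.thr 14 13 (.thr 2 10 (.dbl 3 1 9))) .nd))))) (.rp 36 (.str 37 (.nv (.thr 32 47 (.dbl 48 16 26)) (.nv (.dbl 5 7 10) .nd))) (.rp 10 (.thr 7 5 (.dbl 3 9 11)) .nd)))))) (.rp 37 (.thr 3 9 (.thr 2 1 (.thr 10 14 (.dbl 5 7 15)))) (.rp 15 (.str 39 (.nv (.dbl 7 5 23) (.rp 47 (.str 31 (.nv (.dbl 7 5 23) (.rp 23 (.thr 26 16 (.thr 10 58 (.thr 2 14 (.dbl 3 1 9)))) (.rp 7 (.thr 26 16 (.thr 10 58 (.thr 2 14 (.dbl 3 1 9)))) (.rp 5 (.thr 26 16 (.thr 10 58 (.thr 2 14 (.dbl 3 1 9)))) .nd))))) (.rp 31 (.str 47 (.nv (.dbl 7 5 23) (.rp 23 (.str 19 (.nv (.thr 3 9 (.thr 1 2 (.thr 41 61 (.dbl 43 35 40)))) (.nv (.thr 37 32 (.dbl 5 7 53)) (.rp 43 (.thr 3 9 (.thr 5 7 (.dbl 37 32 53))) (.rp 3 (.thr 43 35 (.thr 37 32 (.dbl 5 7 53))) .nd))))) (.rp 19 (.thr 23 7 (.thr 43 35 (.thr 3 9 (.thr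 41 40 (.dbl 1 2 61))))) (.rp 7 (.thr 43 35 (.thr 41 40 (.thr 3 9 (.dbl 1 2 61)))) (.rp 5 (.thr 43 35 (.thr 41 40 (.thr 3 9 (.dbl 1 2 61)))) .nd)))))) (.rp 23 (.thr 5 7 (.thr 3 9 (.thr 1 2 (.thr 37 53 (.thr 47 32 (.thr 43 35 (.dbl 41 40 61))))))) (.rp 7 (.thr 3 9 (.thr 1 2 (.thr 41 61 (.thr 43 40 (.thr 47 35 (.thr 37 32 (.thr 33 45 (.thr 53 5 (.thr 52 54 (.thr 36 20 (.dbl 48 18 24))))))))))) (.rp 5 (.str 47 (.nv (.thr 3 9 (.thr 32 37 (.thr 35 43 (.thr 33 34 (.dbl 48 16 18))))) (.nv (.thr 32 37 (.thr 48 16 (.thr 36 24 (.thr 40 44 (.dbl 20 52 60))))) (.nv (.thr 3 9 (.thr 1 2 (.thr 43 35 (.dbl 41 40 61)))) (.rp 35 (.thr 32 37 (.thr 7 23 (.thr 48 16 (.thr 36 24 (.thr 20 52 (.dbl 40 44 60)))))) .nd))))) .nd))))))) (.rp 10 (.thr 5 7 (.thr 37 53 (.thr 32 47 (.thr 48 16 (.thr 36 24 (.thr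 20 52 (.dbl 40 44 60))))))) (.rp 7 (.thr 3 9 (.thr 2 1 (.thr 10 14 (.thr 26 58 (.thr 16 31 (.thr 48 32 (.dbl 15 5 37))))))) (.rp 5 (.thr 3 9 (.thr 1 2 (.thr 41 61 (.thr 40 43 (.thr 60 20 (.thr 44 28 (.thr 32 36 (.thr 37 47 (.thr 33 45 (.dbl 48 16 18)))))))))) .nd))))))))))) (.rp 38 (.str 6 (.nv (.thr 3 9 (.thr 2 1 (.thr 10 14 (.thr 26 58 (.thr 16 31 (.thr 48 32 (.dbl 15 5 37))))))) (.nv (.thr 8 4 (.thr 9 3 (.thr 11 10 (.thr 25 59 (.thr 41 57 (.thr 56 26 (.dbl 40 24 43))))))) (.nv (.thr 4 8 (.thr 5 7 (.thr 37 53 (.thr 32 47 (.thr 48 16 (.dbl 15 10 26)))))) (.nv (.thr 4 8 (.thr 5 7 (.thr 3 9 (.thr 2 1 (.dbl 10 14 15))))) (.rp 10 (.thr 9 3 (.thr 4 8 (.thr 5 7 (.thr 13 1 (.thr 15 14 (.thr 37 53 (.thr 32 47 (.dbl 48 16 26)))))))) .nd)))))) (.rp 34 (.str 15 (.nv (.thr 4 8 (.thr 14 13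 (.thr 38 55 (.thr 26 50 (.thr 16 31 (.dbl 48 32 37)))))) (.nv (.thr 4 8 (.thr 5 10 (.thr 13 14 (.thr 9 1 (.dbl 6 3 7))))) (.nv (.thr 5 10 (.thr 37 53 (.thr 32 47 (.dbl 48 16 26)))) .nd)))) (.rp 25 (.str 26 (.nv (.thr 8 4 (.thr 16 31 (.thr 48 32 (.thr 24 36 (.thr 40 56 (.dbl 20 28 60)))))) (.nv (.thr 4 8 (.thr 38 55 (.thr 14 50 (.thr 15 13 (.dbl 10 5 58))))) (.nv (.thr 10 58 (.thr 15 5 (.thr 16 31 (.dbl 48 32 37)))) (.rp 28 (.str 19 (.nv (.thr 4 8 (.thr 10 58 (.thr 15 5 (.thr 14 13 (.dbl 38 50 55))))) (.nv (.thr 4 8 (.thr 16 31 (.thr 17 18 (.thr 34 51 (.dbl 38 46 55))))) (.nv (.thr 10 58 (.thr 15 5 (.thr 16 31 (.dbl 48 32 37)))) (.rp 15 (.thr 4 8 (.thr 38 55 (.thr 34 46 (.thr 50 14 (.thr 18 2 (.dbl 16 17 31)))))) .nd))))) (.rp 19 (.str 28 (.nv (.thr 4 8 (.thr 10 58 (.thr 15 5 (.thr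 14 13 (.dbl 38 50 55))))) (.nv (.thr 60 44 (.thr 20 40 (.dbl 16 24 31))) (.rp 31 (.str 23 (.nv (.thr 10 58 (.thr 15 5 (.thr 48 37 (.thr 16 32 (.dbl 24 20 36))))) (.nv (.thr 4 8 (.thr 38 55 (.thr 14 50 (.thr 15 13 (.dbl 10 5 58))))) (.nv (.thr 8 4 (.thr 60 44 (.thr 40 20 (.thr 56 24 (.dbl 41 11 43))))) (.rp 47 (.str 15 (.nv (.thr 4 8 (.thr 14 13 (.dbl 38 50 55))) (.nv (.dbl 10 5 58) .nd))) (.rp 15 (.str 47 (.nv (.thr 4 8 (.thr 37 32 (.thr 5 53 (.thr 7 6 (.dbl 55 38 39))))) (.nv (.thr 32 37 (.thr 16 48 (.thr 20 24 (.dbl 60 40 44)))) (.nv (.thr 4 8 (.thr 38 55 (.thr 46 34 (.dbl 44 45 60)))) (.rp 51 (.str 39 (.nv (.thr 60 44 (.thr 40 20 (.dbl 43 35 41))) (.nv (.thr 4 8 (.dbl 55 7 38)) (.rp 59 (.thr 55 7 (.dbl 4 8 38)) (.rp 55 (.str 59 (.nv (.thr 35 43 (.thr 37 32 (.thr 38 36 (.dbl 44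 41 60)))) (.nv (.thr 4 8 (.thr 37 32 (.thr 36 38 (.thr 20 52 (.dbl 24 16 48))))) (.nv (.thr 60 44 (.thr 40 20 (.dbl 43 35 41))) (.rp 35 (.str 3 (.nv (.thr 1 2 (.thr 41 61 (.thr 40 43 (.dbl 60 20 44)))) (.nv (.thr 10 58 (.thr 8 4 (.dbl 9 6 11))) .nd))) .nd))))) (.rp 35 (.str 3 (.nv (.thr 2 1 (.thr 6 9 (.dbl 10 14 58))) (.nv (.thr 4 8 (.dbl 55 7 38)) (.rp 59 (.thr 55 7 (.dbl 4 8 38)) (.rp 55 (.str 59 (.nv (.thr 1 2 (.thr 41 61 (.thr 40 43 (.dbl 60 20 44)))) (.nv (.thr 10 58 (.thr 8 4 (.dbl 9 6 11))) .nd))) .nd))))) (.rp 3 (.thr 35 43 (.thr 4 8 (.dbl 55 7 38))) .nd))))))) (.rp 39 (.str 51 (.nv (.thr 44 60 (.thr 32 37 (.thr 36 40 (.dbl 48 16 24)))) (.nv (.thr 4 8 (.thr 38 55 (.dbl 34 17 46))) .nd))) .nd)))))) .nd)))))) (.rp 23 (.thr 31 16 (.thr 30 29 (.thr 60 44 (.thr 15 45 (.dbl 10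 5 58))))) .nd))))) (.rp 15 (.thr 4 8 (.thr 38 55 (.thr 34 46 (.thr 51 17 (.thr 50 14 (.thr 48 49 (.dbl 16 31 32))))))) .nd))))))) (.rp 17 (.str 15 (.nv (.thr 4 8 (.thr 14 13 (.thr 38 55 (.thr 26 50 (.thr 16 31 (.dbl 48 32 37)))))) (.nv (.thr 4 8 (.thr 5 10 (.thr 13 14 (.thr 9 1 (.dbl 6 3 7))))) (.nv (.thr 5 10 (.thr 37 53 (.thr 32 47 (.dbl 48 16 26)))) .nd)))) (.rp 8 (.str 32 (.nv (.thr 37 47 (.thr 48 16 (.thr 36 24 (.thr 38 39 (.thr 34 46 (.dbl 51 17 25)))))) (.nv (.thr 48 16 (.thr 37 47 (.thr 5 53 (.dbl 15 10 26)))) (.rp 48 (.thr 37 47 (.str 15 (.nv (.dbl 5 10 53) (.rp 58 (.thr 53 5 (.thr 13 14 (.thr 25 49 (.thr 17 29 (.dbl 51 34 38))))) (.rp 53 (.str 58 (.nv (.dbl 10 5 26) (.rp 26 (.thr 13 14 (.thr 25 49 (.thr 17 29 (.dbl 51 34 38)))) (.rp 10 (.thr 13 14 (.thr 25 49 (.thr 17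 29 (.dbl 51 34 38)))) (.rp 5 (.thr 13 14 (.thr 25 49 (.thr 17 29 (.dbl 51 34 38)))) .nd))))) (.rp 10 (.thr 13 14 (.thr 25 49 (.thr 17 29 (.dbl 51 34 38)))) (.rp 5 (.thr 13 14 (.thr 25 49 (.thr 17 29 (.dbl 51 34 38)))) .nd))))))) (.rp 47 (.thr 48 16 (.thr 36 24 (.thr 40 44 (.thr 41 43 (.thr 1 61 (.thr 3 2 (.thr 33 18 (.thr 17 49 (.dbl 34 35 51))))))))) (.rp 37 (.thr 48 16 (.thr 36 24 (.thr 40 44 (.thr 41 43 (.thr 1 61 (.thr 3 2 (.thr 33 18 (.thr 17 49 (.dbl 34 35 51))))))))) (.rp 31 (.thr 48 16 (.thr 37 47 (.thr 15 26 (.dbl 5 10 53)))) (.rp 26 (.thr 37 47 (.thr 5 53 (.thr 15 10 (.thr 13 14 (.thr 25 49 (.thr 17 29 (.dbl 51 34 38))))))) (.rp 16 (.thr 37 47 (.thr 5 53 (.thr 15 10 (.thr 13 14 (.thr 25 49 (.thr 17 29 (.dbl 51 34 38))))))) (.rp 15 (.thr 48 16 (.thr 36 24 (.thr 40 44 (.thr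 20 60 (.thr 4 52 (.thr 38 55 (.dbl 37 39 47))))))) .nd)))))))))) (.rp 4 (.str 32 (.nv (.thr 37 47 (.thr 48 16 (.thr 36 24 (.thr 38 39 (.thr 34 46 (.dbl 51 17 25)))))) (.nv (.thr 48 16 (.thr 37 47 (.thr 5 53 (.dbl 15 10 26)))) (.rp 48 (.thr 37 47 (.str 15 (.nv (.dbl 5 10 53) (.rp 58 (.thr 53 5 (.thr 13 14 (.thr 25 49 (.thr 17 29 (.dbl 51 34 38))))) (.rp 53 (.str 58 (.nv (.dbl 10 5 26) (.rp 26 (.thr 13 14 (.thr 25 49 (.thr 17 29 (.dbl 51 34 38)))) (.rp 10 (.thr 13 14 (.thr 25 49 (.thr 17 29 (.dbl 51 34 38)))) (.rp 5 (.thr 13 14 (.thr 25 49 (.thr 17 29 (.dbl 51 34 38)))) .nd))))) (.rp 10 (.thr 13 14 (.thr 25 49 (.thr 17 29 (.dbl 51 34 38)))) (.rp 5 (.thr 13 14 (.thr 25 49 (.thr 17 29 (.dbl 51 34 38)))) .nd))))))) (.rp 47 (.thr 48 16 (.thr 36 24 (.thr 40 44 (.thr 41 43 (.thr 1 61 (.thr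 3 2 (.thr 33 18 (.thr 17 49 (.dbl 34 35 51))))))))) (.rp 37 (.thr 48 16 (.thr 36 24 (.thr 40 44 (.thr 41 43 (.thr 1 61 (.thr 3 2 (.thr 33 18 (.thr 17 49 (.dbl 34 35 51))))))))) (.rp 31 (.thr 48 16 (.thr 37 47 (.thr 15 26 (.dbl 5 10 53)))) (.rp 26 (.thr 37 47 (.thr 5 53 (.thr 15 10 (.thr 13 14 (.thr 25 49 (.thr 17 29 (.dbl 51 34 38))))))) (.rp 16 (.thr 37 47 (.thr 5 53 (.thr 15 10 (.thr 13 14 (.thr 25 49 (.thr 17 29 (.dbl 51 34 38))))))) (.rp 15 (.thr 48 16 (.thr 36 24 (.thr 40 44 (.thr 41 43 (.thr 1 61 (.thr 3 2 (.thr 33 18 (.dbl 37 45 47)))))))) .nd)))))))))) .nd)))))))))))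

theorem w438 : WinAt (4398048608257, 9223372036993187840) :=
  chF (K := []) kn c438 4398048608257 9223372036993187840 63
    [] (by decide +kernel) (by decide +kernel)

/-- A certificate. -/
noncomputable def c439 : Ct := (.str 25 (.nv (.thr 8 59 (.thr 12 4 (.thr 51 38 (.dbl 17 29 34)))) (.nv (.thr 17 29 (.thr 51 34 (.thr 8 59 (.dbl 12 4 38)))) (.rp 59 (.str 51 (.nv (.dbl 17 29 34) (.rp 34 (.str 49 (.nv (.thr 12 38 (.thr 48 50 (.thr 16 32 (.thr 26 31 (.dbl 24 27 36))))) (.nv (.thr 13 37 (.thr 29 17 (.thr 61 45 (.thr 41 1 (.dbl 57 9 53))))) (.nv (.thr 48 50 (.thr 37 13 (.dbl 32 16 47))) .nd)))) (.rp 29 (.thr 34 17 (.dbl 38 12 46)) (.rp 17 (.str 49 (.nv (.thr 12 38 (.thr 48 50 (.thr 16 32 (.thr 26 31 (.dbl 24 27 36))))) (.nv (.thr 37 13 (.thr 5 53 (.thr 15 10 (.thr 27 39 (.dbl 26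 24 48))))) (.nv (.thr 48 50 (.thr 37 13 (.dbl 32 16 47))) (.rp 48 (.thr 37 13 (.thr 53 5 (.thr 57 61 (.thr 60 54 (.thr 40 20 (.dbl 41 9 43)))))) .nd))))) .nd))))) (.rp 51 (.str 1 (.nv (.thr 17 29 (.thr 49 33 (.thr 37 13 (.thr 53 5 (.dbl 61 41 57))))) (.nv (.thr 2 3 (.thr 41 61 (.thr 43 40 (.thr 57 9 (.thr 59 8 (.thr 11 27 (.dbl 56 26 58))))))) (.nv (.thr 29 17 (.thr 61 41 (.thr 13 45 (.thr 5 9 (.dbl 37 49 53))))) (.rp 61 (.thr 3 2 (.thr 17 29 (.thr 49 33 (.thr 13 37 (.thr 9 5 (.thr 12 6 (.dbl 8 4 59))))))) (.rp 59 (.str 55 (.nv (.thr 29 17 (.thr 61 41 (.thr 13 45 (.thr 5 9 (.dbl 37 49 53))))) (.nv (.thr 17 29 (.thr 49 33 (.thr 37 13 (.thr 53 5 (.dbl 61 41 57))))) (.nv (.thr 3 2 (.thr 4 38 (.thr 12 8 (.thr 41 61 (.dbl 9 6 57))))) (.rp 61 (.thr 3 2 (.thr 38 4 (.thr 17 29 (.thr 33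 49 (.thr 48 18 (.thr 32 16 (.dbl 34 35 46))))))) (.rp 41 (.thr 3 2 (.thr 38 4 (.thr 17 29 (.thr 33 49 (.thr 48 18 (.thr 32 16 (.dbl 34 35 46))))))) .nd)))))) (.rp 55 (.thr 59 8 (.thr 41 61 (.thr 57 9 (.thr 56 58 (.thr 11 26 (.dbl 43 27 40)))))) (.rp 41 (.thr 17 29 (.thr 49 33 (.thr 37 13 (.thr 5 53 (.thr 32 47 (.thr 48 16 (.dbl 15 10 26))))))) .nd)))))))) (.rp 38 (.thr 29 17 (.thr 59 8 (.str 41 (.nv (.thr 61 1 (.thr 13 45 (.thr 49 37 (.dbl 57 9 53)))) (.nv (.thr 43 40 (.thr 57 9 (.thr 11 27 (.dbl 56 26 58)))) (.rp 57 (.thr 43 40 (.thr 11 27 (.thr 1 61 (.thr 3 2 (.thr 15 7 (.thr 10 5 (.dbl 26 56 58))))))) (.rp 54 (.str 6 (.nv (.thr 43 40 (.thr 11 27 (.thr 56 26 (.dbl 57 9 58)))) (.nv (.thr 1 61 (.thr 3 2 (.dbl 9 12 57))) (.rp 57 (.thr 1 61 (.thr 3 2 (.thr 9 12 (.thr 5 13 (.thr 15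 10 (.dbl 7 4 11)))))) (.rp 9 (.thr 1 61 (.thr 2 3 (.thr 10 14 (.thr 26 58 (.thr 43 40 (.dbl 11 27 56)))))) .nd))))) (.rp 9 (.thr 43 40 (.thr 11 27 (.thr 56 26 (.thr 57 58 (.thr 61 1 (.thr 13 45 (.dbl 49 37 53))))))) (.rp 6 (.str 54 (.nv (.thr 61 1 (.thr 13 45 (.thr 49 37 (.dbl 57 9 53)))) (.nv (.thr 40 43 (.thr 60 20 (.dbl 57 9 51))) (.rp 57 (.thr 40 43 (.thr 60 20 (.thr 61 1 (.thr 45 13 (.thr 15 30 (.thr 5 10 (.dbl 37 33 53))))))) (.rp 9 (.thr 40 43 (.thr 60 20 (.thr 57 51 (.thr 61 1 (.thr 49 53 (.dbl 13 37 45)))))) .nd))))) .nd))))))))) (.rp 34 (.str 49 (.nv (.thr 8 59 (.thr 12 4 (.thr 17 29 (.thr 1 33 (.thr 3 2 (.thr 41 61 (.dbl 9 6 57))))))) (.nv (.thr 37 13 (.thr 5 53 (.thr 15 10 (.thr 32 47 (.dbl 48 16 26))))) (.rp 32 (.thr 17 29 (.thr 37 13 (.thr 53 5 (.thr 61 57 (.dbl 1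 33 41))))) (.rp 13 (.thr 8 59 (.thr 17 29 (.thr 1 33 (.thr 3 2 (.thr 12 4 (.thr 9 6 (.dbl 41 57 61))))))) .nd))))) (.rp 29 (.thr 8 59 (.thr 12 4 (.str 15 (.nv (.thr 13 14 (.thr 37 49 (.thr 32 47 (.dbl 48 16 26)))) (.nv (.thr 51 38 (.thr 10 5 (.thr 26 58 (.dbl 27 24 39)))) (.nv (.thr 13 14 (.thr 37 49 (.dbl 5 10 53))) (.rp 51 (.str 55 (.nv (.thr 13 14 (.thr 37 49 (.thr 32 47 (.dbl 48 16 26)))) (.nv (.thr 5 10 (.thr 37 53 (.thr 32 47 (.dbl 48 16 26)))) (.nv (.thr 10 5 (.thr 9 11 (.thr 6 3 (.dbl 14 2 13)))) (.nv (.thr 5 10 (.thr 37 53 (.dbl 13 14 49))) (.rp 31 (.str 30 (.nv (.thr 13 14 (.thr 37 49 (.thr 32 47 (.dbl 48 16 26)))) (.nv (.thr 10 5 (.thr 26 58 (.thr 48 37 (.dbl 24 27 36)))) (.nv (.thr 13 14 (.thr 5 10 (.dbl 37 49 53))) (.rp 37 (.thr 14 13 (.thr 10 5 (.thr 6 2 (.dbl 9 3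 11)))) .nd))))) (.rp 30 (.str 31 (.nv (.thr 13 14 (.thr 37 49 (.dbl 26 16 48))) (.nv (.thr 26 16 (.dbl 10 5 58)) (.rp 26 (.str 18 (.nv (.thr 10 5 (.thr 9 11 (.thr 6 3 (.dbl 14 2 13)))) (.nv (.thr 5 10 (.thr 37 53 (.dbl 13 14 49))) (.rp 14 (.thr 10 5 (.thr 9 11 (.thr 41 57 (.thr 1 61 (.dbl 3 2 6))))) (.rp 13 (.thr 5 10 (.thr 37 53 (.thr 32 47 (.thr 48 16 (.thr 24 36 (.thr 40 56 (.thr 41 43 (.dbl 33 3 45)))))))) (.rp 10 (.thr 13 14 (.thr 37 49 (.thr 5 53 (.thr 9 1 (.thr 32 47 (.thr 48 16 (.dbl 3 6 33))))))) (.rp 5 (.thr 13 14 (.thr 37 49 (.thr 32 47 (.thr 48 16 (.thr 24 36 (.thr 40 56 (.thr 41 43 (.dbl 33 3 45)))))))) .nd))))))) (.rp 16 (.thr 5 10 (.thr 37 53 (.dbl 13 14 49))) .nd))))) .nd))))))) (.rp 31 (.str 30 (.nv (.thr 14 13 (.thr 46 62 (.dbl 38 34 51))) (.nv (.thr 51 38 (.thr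 10 5 (.thr 26 58 (.dbl 27 24 39)))) (.nv (.thr 13 14 (.thr 37 49 (.dbl 5 10 53))) (.rp 51 (.str 55 (.nv (.thr 13 14 (.thr 37 49 (.thr 32 47 (.dbl 48 16 26)))) (.nv (.thr 10 5 (.thr 26 58 (.thr 48 37 (.dbl 24 27 36)))) (.nv (.thr 13 14 (.thr 5 10 (.dbl 37 49 53))) (.rp 37 (.thr 14 13 (.thr 10 5 (.thr 6 2 (.dbl 9 3 11)))) .nd))))) .nd))))) (.rp 30 (.str 31 (.nv (.thr 51 38 (.thr 13 14 (.thr 37 49 (.dbl 26 16 48)))) (.nv (.thr 26 16 (.dbl 10 5 58)) (.rp 51 (.str 55 (.nv (.thr 13 14 (.thr 37 49 (.dbl 26 16 48))) (.nv (.thr 26 16 (.dbl 10 5 58)) (.rp 26 (.str 18 (.nv (.thr 10 5 (.thr 9 11 (.thr 6 3 (.dbl 14 2 13)))) (.nv (.thr 5 10 (.thr 37 53 (.dbl 13 14 49))) (.rp 14 (.thr 10 5 (.thr 9 11 (.thr 41 57 (.thr 1 61 (.dbl 3 2 6))))) (.rp 13 (.thr 5 10 (.thr 37 53 (.thr 32 47 (.thr 48 16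 (.thr 24 36 (.thr 40 56 (.thr 41 43 (.dbl 33 3 45)))))))) (.rp 10 (.thr 13 14 (.thr 37 49 (.thr 5 53 (.thr 9 1 (.thr 32 47 (.thr 48 16 (.dbl 3 6 33))))))) (.rp 5 (.thr 13 14 (.thr 37 49 (.thr 32 47 (.thr 48 16 (.thr 24 36 (.thr 40 56 (.thr 41 43 (.dbl 33 3 45)))))))) .nd))))))) (.rp 16 (.thr 5 10 (.thr 37 53 (.dbl 13 14 49))) .nd))))) (.rp 26 (.str 18 (.nv (.thr 51 38 (.thr 17 34 (.thr 19 16 (.dbl 27 23 39)))) (.nv (.thr 5 10 (.thr 37 53 (.dbl 13 14 49))) (.rp 51 (.str 55 (.nv (.thr 10 5 (.thr 9 11 (.thr 6 3 (.dbl 14 2 13)))) (.nv (.thr 5 10 (.thr 37 53 (.dbl 13 14 49))) (.rp 14 (.thr 10 5 (.thr 9 11 (.thr 41 57 (.thr 1 61 (.dbl 3 2 6))))) (.rp 13 (.thr 5 10 (.thr 37 53 (.thr 32 47 (.thr 48 16 (.thr 24 36 (.thr 40 56 (.thr 41 43 (.dbl 33 3 45)))))))) (.rp 10 (.thr 13 14 (.thr 37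 49 (.thr 5 53 (.thr 9 1 (.thr 32 47 (.thr 48 16 (.dbl 3 6 33))))))) (.rp 5 (.thr 13 14 (.thr 37 49 (.thr 32 47 (.thr 48 16 (.thr 24 36 (.thr 40 56 (.thr 41 43 (.dbl 33 3 45)))))))) .nd))))))) (.rp 14 (.thr 10 5 (.thr 9 11 (.thr 41 57 (.thr 1 61 (.dbl 3 2 6))))) .nd))))) (.rp 16 (.thr 13 14 (.thr 5 10 (.dbl 37 49 53))) .nd)))))) .nd))))))))) (.rp 17 (.str 3 (.nv (.thr 1 2 (.thr 41 61 (.thr 9 57 (.thr 5 13 (.thr 10 15 (.thr 11 8 (.dbl 26 56 58))))))) (.nv (.thr 1 2 (.thr 8 59 (.thr 12 4 (.thr 9 6 (.thr 5 13 (.dbl 10 11 15)))))) (.nv (.thr 1 2 (.thr 41 61 (.thr 8 59 (.thr 12 4 (.dbl 9 6 57))))) (.rp 12 (.thr 1 2 (.thr 8 59 (.thr 41 61 (.thr 9 57 (.thr 10 11 (.dbl 5 13 15)))))) (.rp 9 (.thr 1 2 (.thr 59 8 (.thr 41 61 (.thr 43 40 (.thr 11 27 (.thr 15 7 (.thr 10 5 (.dbl 26 56 58))))))))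 (.rp 8 (.thr 1 2 (.thr 41 61 (.thr 9 57 (.thr 5 13 (.thr 15 10 (.thr 7 11 (.dbl 6 4 12))))))) (.rp 2 (.thr 8 59 (.thr 12 4 (.thr 9 6 (.thr 41 57 (.thr 40 43 (.thr 56 24 (.dbl 11 10 26))))))) (.rp 1 (.thr 8 59 (.thr 12 4 (.thr 9 6 (.thr 41 57 (.thr 40 43 (.thr 11 10 (.dbl 56 24 26))))))) .nd))))))))) (.rp 12 (.thr 59 8 (.thr 29 17 (.str 41 (.nv (.thr 61 1 (.thr 13 45 (.thr 49 37 (.dbl 57 9 53)))) (.nv (.thr 43 40 (.thr 57 9 (.thr 11 27 (.dbl 56 26 58)))) (.rp 60 (.str 44 (.nv (.thr 57 9 (.thr 43 40 (.thr 11 27 (.dbl 56 26 58)))) (.nv (.thr 61 1 (.thr 38 35 (.thr 46 34 (.dbl 45 13 47)))) (.rp 61 (.str 62 (.nv (.thr 38 35 (.thr 46 34 (.thr 14 30 (.thr 26 50 (.thr 56 11 (.dbl 57 9 58)))))) (.nv (.thr 38 35 (.thr 46 34 (.thr 47 45 (.thr 32 37 (.dbl 40 36 43))))) (.nv (.thr 43 40 (.thr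 11 27 (.thr 57 9 (.dbl 56 26 58)))) .nd)))) .nd)))) (.rp 57 (.thr 43 40 (.thr 11 27 (.thr 1 61 (.thr 3 2 (.thr 15 7 (.thr 10 5 (.dbl 26 56 58))))))) (.rp 44 (.str 60 (.nv (.dbl 40 20 43) (.rp 43 (.thr 57 9 (.thr 61 1 (.thr 13 45 (.dbl 49 37 53)))) (.rp 40 (.thr 57 9 (.thr 61 1 (.thr 13 45 (.dbl 49 37 53)))) (.rp 20 (.thr 57 9 (.thr 61 1 (.thr 13 45 (.dbl 49 37 53)))) .nd))))) (.rp 9 (.thr 43 40 (.thr 11 27 (.thr 56 26 (.thr 57 58 (.thr 61 1 (.thr 13 45 (.dbl 49 37 53))))))) .nd))))))))) (.rp 8 (.str 49 (.nv (.thr 37 13 (.thr 5 53 (.thr 15 10 (.thr 32 47 (.dbl 48 16 26))))) (.nv (.thr 17 29 (.thr 51 34 (.thr 48 50 (.thr 16 32 (.thr 33 1 (.dbl 18 3 19)))))) (.nv (.thr 13 37 (.thr 29 17 (.thr 61 45 (.thr 41 1 (.dbl 57 9 53))))) .nd)))) (.rp 4 (.str 49 (.nv (.thr 17 29 (.thr 1 33 (.thr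 13 37 (.thr 9 5 (.dbl 41 57 61))))) (.nv (.thr 17 29 (.thr 51 34 (.thr 48 50 (.thr 16 32 (.thr 33 1 (.dbl 18 3 19)))))) (.nv (.thr 37 13 (.thr 5 53 (.thr 15 10 (.thr 32 47 (.dbl 48 16 26))))) .nd)))) .nd))))))))))))

theorem w439 : WinAt (4398048608257, 9223372037127405568) :=
  chF (K := []) kn c439 4398048608257 9223372037127405568 63
    [306708480] (by decide +kernel) (by decide +kernel)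

/-- A certificate. -/
noncomputable def c440 : Ct := (.str 47 (.nv (.thr 15 31 (.thr 37 32 (.thr 48 26 (.dbl 53 5 58)))) (.nv (.thr 37 32 (.thr 53 5 (.thr 48 58 (.dbl 15 26 31)))) (.rp 58 (.str 44 (.nv (.thr 15 31 (.thr 46 45 (.thr 38 34 (.thr 55 4 (.thr 51 59 (.thr 39 27 (.dbl 37 32 36))))))) (.nv (.thr 15 31 (.thr 46 45 (.thr 38 34 (.thr 55 4 (.thr 51 59 (.thr 39 27 (.dbl 35 41 43))))))) (.nv (.thr 15 31 (.thr 37 32 (.thr 45 46 (.thr 41 33 (.thr 61 1 (.dbl 60 30 62)))))) (.nv (.thr 32 37 (.thr 40 36 (.thr 41 43 (.thr 38 35 (.dbl 46 34 45))))) (.rp 46 (.thr 15 31 (.thr 32 37 (.thr 40 36 (.thr 43 41 (.thr 3 23 (.thr 39 35 (.thr 27 51 (.dbl 11 7 59)))))))) (.rp 45 (.thr 32 37 (.thr 40 36 (.thr 41 43 (.thr 61 1 (.thr 60 62 (.thr 12 28 (.thr 38 35 (.thr 55 4 (.dbl 51 25 59)))))))))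 (.rp 34 (.thr 45 46 (.thr 37 32 (.thr 41 33 (.thr 35 38 (.dbl 43 39 40))))) .nd)))))))) (.rp 53 (.str 44 (.nv (.thr 15 31 (.thr 46 45 (.thr 38 34 (.thr 55 4 (.thr 51 59 (.thr 39 27 (.dbl 37 32 36))))))) (.nv (.thr 15 31 (.thr 46 45 (.thr 38 34 (.thr 55 4 (.thr 51 59 (.thr 39 27 (.dbl 35 41 43))))))) (.nv (.thr 15 31 (.thr 37 32 (.thr 45 46 (.thr 41 33 (.thr 61 1 (.dbl 60 30 62)))))) (.nv (.thr 32 37 (.thr 40 36 (.thr 41 43 (.thr 38 35 (.dbl 46 34 45))))) (.rp 46 (.thr 15 31 (.thr 32 37 (.thr 40 36 (.thr 43 41 (.thr 3 23 (.thr 39 35 (.thr 27 51 (.dbl 11 7 59)))))))) (.rp 45 (.thr 31 15 (.thr 32 37 (.thr 40 36 (.thr 41 43 (.thr 26 16 (.thr 56 11 (.thr 8 24 (.thr 59 25 (.dbl 58 10 57))))))))) (.rp 34 (.thr 45 46 (.thr 37 32 (.thr 41 33 (.thr 35 38 (.dbl 43 39 40))))) .nd)))))))) (.rp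 48 (.str 44 (.nv (.thr 15 31 (.thr 46 45 (.thr 38 34 (.thr 55 4 (.thr 51 59 (.thr 39 27 (.dbl 35 41 43))))))) (.nv (.thr 32 37 (.thr 15 31 (.thr 40 36 (.thr 41 43 (.thr 45 46 (.thr 61 1 (.dbl 60 30 62))))))) (.nv (.thr 46 45 (.thr 38 34 (.thr 41 35 (.thr 40 43 (.dbl 32 36 37))))) (.rp 61 (.thr 32 37 (.thr 40 36 (.thr 41 43 (.thr 38 35 (.dbl 46 34 45))))) (.rp 46 (.thr 15 31 (.thr 32 37 (.thr 40 36 (.thr 43 41 (.thr 3 23 (.thr 39 35 (.thr 27 51 (.dbl 11 7 59)))))))) (.rp 45 (.thr 32 37 (.thr 40 36 (.thr 41 43 (.thr 61 1 (.thr 60 62 (.thr 12 28 (.thr 38 35 (.thr 55 4 (.dbl 51 25 59))))))))) (.rp 43 (.thr 46 45 (.thr 38 34 (.thr 55 4 (.thr 41 35 (.thr 61 1 (.thr 60 62 (.thr 12 28 (.dbl 51 25 59)))))))) (.rp 41 (.thr 46 45 (.thr 15 31 (.thr 38 34 (.thr 55 4 (.thr 51 59 (.thr 39 27 (.dbl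 37 32 36))))))) (.rp 38 (.thr 45 46 (.thr 31 15 (.thr 37 32 (.thr 16 26 (.thr 41 33 (.thr 40 43 (.thr 61 1 (.thr 60 62 (.thr 28 12 (.thr 24 20 (.thr 8 56 (.thr 25 59 (.thr 57 9 (.dbl 53 5 49)))))))))))))) (.rp 32 (.str 16 (.nv (.dbl 31 15 26) (.rp 31 (.thr 46 45 (.thr 38 34 (.thr 35 41 (.thr 43 39 (.thr 55 4 (.thr 51 59 (.dbl 3 19 23))))))) (.rp 26 (.thr 46 45 (.thr 38 34 (.thr 35 41 (.thr 39 43 (.thr 55 4 (.thr 51 59 (.dbl 15 27 31))))))) (.rp 15 (.thr 46 45 (.thr 38 34 (.thr 35 41 (.thr 43 39 (.thr 55 4 (.thr 51 59 (.dbl 3 19 23))))))) .nd))))) .nd))))))))))) (.rp 37 (.str 41 (.nv (.thr 43 40 (.thr 35 39 (.thr 38 44 (.thr 55 4 (.thr 3 23 (.dbl 51 19 59)))))) (.nv (.thr 31 15 (.thr 26 16 (.thr 10 58 (.thr 11 56 (.thr 8 9 (.thr 59 25 (.dbl 43 27 40))))))) (.nv (.thr 15 31 (.thr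 43 40 (.thr 39 35 (.thr 51 27 (.thr 55 59 (.dbl 23 3 7)))))) (.rp 59 (.thr 31 15 (.thr 61 1 (.thr 43 40 (.thr 35 39 (.thr 38 44 (.thr 46 34 (.thr 26 16 (.thr 14 50 (.dbl 62 30 60))))))))) (.rp 52 (.str 7 (.nv (.thr 43 40 (.thr 39 35 (.dbl 23 3 55))) (.nv (.thr 15 31 (.thr 3 11 (.dbl 43 23 40))) (.rp 43 (.thr 31 15 (.thr 26 16 (.thr 10 58 (.thr 11 56 (.thr 8 9 (.thr 59 25 (.thr 55 51 (.thr 38 4 (.thr 44 35 (.dbl 46 34 45)))))))))) (.rp 40 (.thr 15 31 (.thr 3 11 (.thr 43 23 (.thr 35 39 (.thr 38 44 (.thr 55 4 (.dbl 51 19 59))))))) (.rp 23 (.thr 15 31 (.thr 11 3 (.thr 43 40 (.thr 39 35 (.dbl 27 51 59))))) (.rp 3 (.thr 15 31 (.thr 43 40 (.thr 39 35 (.thr 51 27 (.dbl 55 23 59))))) .nd))))))) (.rp 43 (.thr 31 15 (.thr 26 16 (.thr 10 58 (.thr 11 56 (.thr 8 9 (.thr 59 25 (.thr 55 51 (.thr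 38 4 (.thr 44 35 (.dbl 46 34 45)))))))))) (.rp 40 (.thr 31 15 (.thr 26 16 (.thr 10 58 (.thr 11 56 (.thr 8 9 (.thr 59 25 (.thr 43 27 (.thr 35 39 (.thr 51 55 (.dbl 3 19 23)))))))))) (.rp 19 (.thr 15 31 (.thr 43 40 (.thr 39 35 (.thr 27 51 (.thr 3 23 (.dbl 11 7 59)))))) (.rp 7 (.str 52 (.nv (.thr 43 40 (.thr 35 39 (.thr 38 44 (.thr 3 23 (.thr 55 4 (.dbl 51 19 59)))))) (.nv (.thr 61 1 (.thr 60 62 (.thr 56 48 (.thr 26 11 (.dbl 31 15 16))))) (.rp 60 (.thr 31 15 (.thr 26 16 (.thr 10 58 (.thr 11 56 (.thr 8 9 (.thr 59 25 (.dbl 43 27 40))))))) (.rp 32 (.thr 61 1 (.thr 60 62 (.thr 48 56 (.thr 53 58 (.thr 57 49 (.dbl 54 51 55)))))) (.rp 3 (.thr 43 40 (.thr 35 39 (.thr 38 44 (.thr 55 4 (.thr 53 54 (.thr 48 58 (.thr 60 56 (.dbl 61 1 62)))))))) .nd)))))) .nd)))))))))) (.rp 32 (.str 43 (.nv (.thr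 3 23 (.thr 35 39 (.thr 41 40 (.thr 51 19 (.thr 55 59 (.dbl 38 4 44)))))) (.nv (.thr 3 23 (.thr 15 31 (.thr 11 7 (.thr 41 40 (.thr 26 56 (.thr 58 10 (.dbl 48 37 53))))))) (.nv (.thr 3 23 (.thr 39 35 (.thr 15 31 (.thr 27 51 (.dbl 11 7 59))))) (.rp 48 (.str 16 (.nv (.dbl 31 15 26) (.rp 31 (.thr 41 40 (.thr 35 39 (.thr 44 38 (.thr 45 46 (.thr 1 61 (.thr 3 23 (.thr 19 51 (.thr 17 18 (.dbl 33 37 49))))))))) (.rp 26 (.thr 39 35 (.thr 23 3 (.thr 55 7 (.thr 51 59 (.dbl 15 27 31))))) (.rp 15 (.thr 41 40 (.thr 35 39 (.thr 3 23 (.thr 51 19 (.thr 55 59 (.dbl 38 4 44)))))) .nd))))) (.rp 39 (.thr 23 3 (.thr 31 15 (.thr 27 19 (.thr 11 59 (.thr 41 40 (.dbl 26 16 56)))))) (.rp 31 (.thr 39 35 (.thr 23 3 (.thr 55 7 (.thr 51 59 (.thr 15 27 (.thr 38 4 (.thr 37 36 (.thr 48 26 (.dbl 53 5 58))))))))) (.rp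 28 (.thr 39 35 (.thr 23 3 (.thr 55 7 (.thr 51 59 (.dbl 15 27 31))))) (.rp 27 (.thr 35 39 (.thr 3 23 (.thr 51 19 (.thr 31 15 (.thr 55 59 (.thr 38 4 (.dbl 41 40 44))))))) (.rp 23 (.thr 35 39 (.thr 15 31 (.thr 41 40 (.thr 61 1 (.thr 44 38 (.thr 45 46 (.dbl 60 30 62))))))) (.rp 16 (.str 48 (.nv (.thr 3 23 (.thr 33 18 (.thr 41 40 (.thr 37 45 (.dbl 53 5 58))))) (.nv (.thr 3 23 (.thr 15 31 (.thr 39 35 (.thr 27 51 (.dbl 11 7 59))))) (.nv (.thr 53 58 (.thr 37 5 (.dbl 15 26 31))) .nd)))) (.rp 7 (.thr 35 39 (.thr 15 31 (.thr 41 40 (.thr 61 1 (.thr 44 38 (.thr 45 46 (.dbl 60 30 62))))))) (.rp 3 (.thr 35 39 (.thr 15 31 (.thr 41 40 (.thr 44 38 (.thr 45 46 (.thr 37 33 (.thr 53 5 (.dbl 48 26 58)))))))) .nd))))))))))))) (.rp 31 (.str 51 (.nv (.thr 37 32 (.thr 53 5 (.thr 48 58 (.thr 15 26 (.thr 39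 27 (.thr 38 36 (.thr 49 50 (.dbl 25 12 13)))))))) (.nv (.thr 32 37 (.thr 55 59 (.thr 38 4 (.thr 34 46 (.thr 35 33 (.thr 41 44 (.dbl 43 39 40))))))) (.nv (.thr 59 55 (.thr 37 32 (.thr 25 8 (.thr 49 13 (.thr 48 50 (.dbl 53 5 58)))))) (.rp 37 (.thr 55 59 (.thr 38 4 (.thr 46 34 (.thr 12 25 (.thr 44 45 (.thr 41 35 (.thr 61 1 (.dbl 60 28 62)))))))) (.rp 32 (.thr 55 59 (.thr 38 4 (.thr 46 34 (.thr 44 45 (.thr 35 41 (.thr 43 39 (.dbl 3 19 23))))))) (.rp 30 (.str 28 (.nv (.thr 37 32 (.thr 53 5 (.thr 48 58 (.thr 49 50 (.thr 59 55 (.dbl 25 8 13)))))) (.nv (.thr 55 59 (.thr 38 4 (.thr 12 25 (.thr 46 34 (.dbl 44 45 60))))) (.rp 59 (.thr 37 32 (.thr 53 5 (.thr 48 58 (.thr 49 50 (.thr 25 13 (.thr 38 12 (.thr 39 36 (.dbl 15 26 27)))))))) (.rp 55 (.thr 37 32 (.thr 53 5 (.thr 48 58 (.thr 49 50 (.thr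 61 57 (.thr 25 13 (.thr 12 38 (.dbl 60 44 62)))))))) (.rp 26 (.str 18 (.nv (.thr 37 32 (.thr 53 5 (.thr 48 58 (.thr 3 33 (.thr 35 19 (.dbl 43 23 39)))))) (.nv (.thr 55 59 (.thr 38 4 (.thr 12 25 (.thr 46 34 (.dbl 44 45 60))))) (.rp 27 (.thr 55 59 (.thr 38 4 (.thr 46 34 (.thr 44 45 (.dbl 12 25 60))))) .nd)))) (.rp 25 (.thr 55 59 (.thr 37 32 (.thr 38 4 (.thr 39 36 (.thr 43 35 (.dbl 23 3 7)))))) (.rp 18 (.str 26 (.nv (.thr 55 59 (.thr 38 4 (.thr 12 25 (.thr 46 34 (.dbl 44 45 60))))) (.nv (.thr 58 10 (.thr 48 53 (.dbl 37 15 32))) .nd))) .nd)))))))) (.rp 28 (.str 30 (.nv (.thr 37 32 (.thr 53 5 (.thr 48 58 (.thr 15 26 (.thr 49 50 (.thr 57 61 (.dbl 60 45 54))))))) (.nv (.thr 37 32 (.thr 53 5 (.thr 48 58 (.thr 15 26 (.thr 39 27 (.thr 43 35 (.thr 55 59 (.dbl 23 3 7)))))))) (.nv (.thr 55 59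 (.thr 38 4 (.thr 46 34 (.thr 62 14 (.thr 45 44 (.dbl 60 15 61)))))) (.rp 25 (.str 19 (.nv (.thr 32 37 (.thr 55 59 (.thr 38 4 (.thr 34 46 (.dbl 35 3 33))))) (.nv (.thr 3 35 (.thr 37 32 (.thr 53 5 (.thr 48 58 (.thr 15 26 (.thr 33 18 (.dbl 45 41 60))))))) (.nv (.thr 35 3 (.thr 43 39 (.thr 41 40 (.thr 55 59 (.dbl 38 4 44))))) (.rp 35 (.thr 55 59 (.thr 38 4 (.thr 46 34 (.thr 62 14 (.thr 45 44 (.dbl 60 15 61)))))) (.rp 3 (.thr 55 59 (.thr 38 4 (.thr 46 34 (.thr 62 14 (.thr 45 44 (.dbl 60 15 61)))))) .nd)))))) (.rp 19 (.str 25 (.nv (.dbl 59 8 55) (.rp 59 (.thr 37 32 (.thr 53 5 (.thr 49 13 (.dbl 48 50 58)))) (.rp 55 (.thr 37 32 (.thr 53 5 (.thr 49 13 (.dbl 48 50 58)))) (.rp 27 (.str 23 (.nv (.dbl 59 8 55) (.rp 59 (.thr 43 3 (.thr 39 35 (.thr 55 7 (.dbl 38 4 12)))) (.rp 55 (.thr 43 3 (.thr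 39 35 (.thr 38 12 (.dbl 37 32 36)))) (.rp 8 (.thr 55 59 (.dbl 38 4 12)) .nd))))) (.rp 23 (.str 27 (.nv (.thr 26 24 (.thr 37 32 (.dbl 15 39 48))) (.nv (.dbl 59 8 55) .nd))) (.rp 8 (.thr 55 59 (.dbl 38 4 12)) .nd))))))) (.rp 15 (.thr 55 59 (.thr 38 4 (.thr 37 32 (.thr 39 36 (.thr 43 35 (.dbl 23 3 7)))))) .nd))))))) (.rp 12 (.thr 59 55 (.thr 37 32 (.thr 53 5 (.thr 48 58 (.thr 49 50 (.dbl 25 8 13)))))) .nd))))))))) (.rp 26 (.thr 15 31 (.str 30 (.nv (.thr 45 60 (.thr 44 46 (.thr 37 32 (.thr 41 33 (.thr 35 38 (.dbl 43 39 40)))))) (.nv (.thr 45 60 (.thr 46 44 (.thr 14 62 (.thr 12 13 (.thr 38 34 (.thr 55 4 (.dbl 51 25 59))))))) (.nv (.thr 37 32 (.thr 53 5 (.thr 60 45 (.thr 61 62 (.thr 57 49 (.thr 48 58 (.thr 54 51 (.dbl 52 55 56)))))))) (.rp 60 (.thr 37 32 (.thr 53 5 (.thr 48 58 (.str 3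 (.nv (.thr 11 7 (.thr 43 23 (.thr 27 59 (.dbl 39 35 51)))) (.nv (.thr 43 23 (.thr 33 18 (.dbl 41 40 45))) (.rp 43 (.thr 33 18 (.thr 41 45 (.thr 61 1 (.thr 49 57 (.thr 51 50 (.thr 59 55 (.dbl 25 8 13))))))) (.rp 40 (.str 20 (.nv (.thr 43 23 (.thr 39 35 (.thr 27 51 (.dbl 11 7 59)))) (.nv (.thr 7 11 (.thr 23 43 (.thr 55 39 (.thr 4 38 (.dbl 52 36 54))))) (.nv (.thr 43 23 (.thr 39 35 (.thr 11 7 (.dbl 27 51 59)))) (.rp 59 (.thr 33 18 (.thr 43 23 (.thr 39 35 (.thr 36 38 (.thr 12 24 (.thr 14 13 (.thr 46 62 (.dbl 45 41 44)))))))) (.rp 44 (.str 36 (.nv (.thr 12 24 (.thr 39 38 (.dbl 43 23 35))) (.nv (.thr 4 52 (.dbl 38 39 55)) (.rp 39 (.thr 4 52 (.thr 38 55 (.thr 46 34 (.thr 14 62 (.dbl 12 13 24))))) (.rp 38 (.thr 52 4 (.thr 23 43 (.thr 7 11 (.dbl 55 39 54)))) (.rp 12 (.str 28 (.nv (.thr 39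 38 (.dbl 43 23 35)) (.nv (.thr 4 52 (.dbl 38 39 55)) (.rp 39 (.thr 4 52 (.thr 55 38 (.thr 43 23 (.thr 11 7 (.dbl 59 27 51))))) (.rp 38 (.thr 23 43 (.thr 7 11 (.thr 55 39 (.dbl 52 4 54)))) (.rp 4 (.str 8 (.nv (.thr 7 11 (.thr 59 25 (.thr 51 55 (.dbl 39 27 38)))) (.nv (.thr 43 23 (.dbl 39 35 38)) (.rp 39 (.thr 43 23 (.thr 59 25 (.dbl 11 7 27))) (.rp 38 (.thr 7 11 (.thr 23 43 (.thr 55 39 (.dbl 59 25 51)))) (.rp 27 (.thr 39 38 (.dbl 43 23 35)) (.rp 7 (.str 6 (.nv (.thr 59 25 (.thr 51 55 (.dbl 39 27 38))) (.nv (.thr 43 23 (.dbl 39 35 38)) (.rp 39 (.thr 33 18 (.thr 25 59 (.thr 49 13 (.thr 1 17 (.dbl 61 41 57))))) (.rp 38 (.thr 43 23 (.thr 59 25 (.thr 51 55 (.dbl 39 27 35)))) (.rp 27 (.thr 39 38 (.dbl 43 23 35)) .nd)))))) .nd))))))) .nd)))))) .nd)))))) (.rp 43 (.thr 33 18 (.thr 41 45 (.thr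 61 1 (.thr 49 57 (.thr 51 50 (.thr 59 55 (.dbl 25 8 13))))))) (.rp 39 (.thr 33 18 (.thr 41 45 (.thr 61 1 (.thr 49 57 (.thr 51 50 (.thr 59 55 (.dbl 25 8 13))))))) (.rp 36 (.str 44 (.nv (.thr 11 7 (.thr 43 23 (.thr 27 59 (.dbl 39 35 51)))) (.nv (.thr 33 18 (.dbl 45 41 46)) .nd))) (.rp 27 (.thr 33 18 (.thr 41 45 (.thr 61 1 (.thr 49 57 (.thr 51 50 (.thr 59 55 (.dbl 25 8 13))))))) (.rp 23 (.thr 33 18 (.thr 41 45 (.thr 61 1 (.thr 49 57 (.thr 51 50 (.thr 59 55 (.dbl 25 8 13))))))) (.rp 11 (.thr 33 18 (.thr 43 23 (.thr 39 35 (.thr 41 45 (.thr 61 1 (.thr 49 57 (.dbl 51 27 50))))))) (.rp 7 (.thr 33 18 (.thr 43 23 (.thr 39 35 (.thr 41 45 (.thr 61 1 (.thr 49 57 (.dbl 51 27 50))))))) .nd))))))))))))) (.rp 27 (.thr 33 18 (.thr 41 45 (.dbl 43 23 40))) (.rp 23 (.thr 33 18 (.thr 41 45 (.thr 61 1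 (.thr 49 57 (.thr 51 50 (.thr 59 55 (.dbl 25 8 13))))))) (.rp 20 (.str 40 (.nv (.dbl 43 23 41) (.rp 43 (.thr 33 18 (.thr 45 41 (.thr 46 44 (.thr 14 62 (.thr 12 13 (.thr 38 34 (.dbl 36 24 39))))))) (.rp 41 (.thr 43 23 (.thr 39 35 (.thr 11 7 (.dbl 27 51 59)))) (.rp 23 (.thr 33 18 (.dbl 41 43 45)) .nd))))) .nd))))))))))) (.rp 45 (.str 61 (.nv (.thr 41 1 (.thr 43 40 (.thr 3 23 (.thr 39 35 (.thr 27 51 (.dbl 11 7 59)))))) (.nv (.thr 37 32 (.thr 53 5 (.thr 48 58 (.thr 49 57 (.thr 25 13 (.thr 59 8 (.dbl 51 50 55))))))) (.nv (.thr 41 1 (.thr 43 40 (.thr 35 39 (.thr 38 44 (.thr 34 46 (.dbl 32 33 37)))))) (.rp 1 (.thr 62 60 (.thr 14 46 (.thr 13 12 (.thr 37 32 (.thr 53 5 (.dbl 49 25 57)))))) .nd))))) .nd))))))) (.rp 15 (.str 44 (.nv (.thr 37 32 (.thr 46 45 (.thr 38 34 (.thr 35 41 (.dbl 39 36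 43))))) (.nv (.thr 46 45 (.thr 38 34 (.thr 41 35 (.thr 40 43 (.dbl 32 36 37))))) (.nv (.thr 37 32 (.thr 45 46 (.thr 41 33 (.thr 35 38 (.dbl 43 39 40))))) (.rp 46 (.thr 32 37 (.thr 40 36 (.thr 41 43 (.thr 61 1 (.thr 60 62 (.thr 12 28 (.thr 38 35 (.thr 55 4 (.dbl 51 25 59))))))))) (.rp 45 (.thr 32 37 (.thr 40 36 (.thr 41 43 (.thr 61 1 (.thr 60 62 (.thr 12 28 (.thr 38 35 (.thr 55 4 (.dbl 51 25 59))))))))) (.rp 43 (.thr 46 45 (.thr 38 34 (.thr 55 4 (.thr 41 35 (.thr 61 1 (.thr 60 62 (.thr 12 28 (.dbl 51 25 59)))))))) (.rp 41 (.thr 46 45 (.thr 37 32 (.thr 38 34 (.thr 39 36 (.thr 55 4 (.thr 23 7 (.dbl 43 3 35))))))) (.rp 38 (.thr 45 46 (.thr 37 32 (.thr 41 33 (.thr 43 40 (.thr 61 1 (.thr 60 62 (.thr 3 23 (.thr 35 39 (.thr 51 19 (.thr 54 57 (.thr 55 59 (.dbl 53 5 52)))))))))))) (.rp 37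 (.thr 46 45 (.thr 38 34 (.thr 55 4 (.thr 41 35 (.thr 61 1 (.thr 60 62 (.thr 12 28 (.dbl 51 25 59)))))))) (.rp 35 (.thr 46 45 (.thr 32 37 (.thr 40 36 (.thr 41 43 (.thr 61 1 (.thr 60 62 (.thr 12 28 (.thr 38 34 (.thr 55 4 (.dbl 51 25 59)))))))))) (.rp 32 (.thr 46 45 (.thr 38 34 (.thr 55 4 (.thr 35 41 (.thr 43 39 (.thr 3 23 (.dbl 51 19 59))))))) (.rp 10 (.str 5 (.nv (.dbl 37 32 53) (.rp 53 (.thr 46 45 (.thr 37 32 (.thr 38 34 (.thr 39 36 (.dbl 35 41 43))))) (.rp 37 (.thr 46 45 (.thr 38 34 (.thr 55 4 (.thr 41 35 (.thr 61 1 (.thr 60 62 (.thr 12 28 (.dbl 51 25 59)))))))) (.rp 32 (.thr 46 45 (.thr 37 53 (.thr 38 34 (.thr 39 36 (.dbl 35 41 43))))) .nd))))) (.rp 5 (.str 10 (.nv (.thr 32 37 (.thr 40 36 (.thr 41 43 (.thr 38 35 (.dbl 46 34 45))))) (.nv (.thr 26 58 (.thr 46 45 (.thr 38 34 (.thr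 14 50 (.thr 41 35 (.thr 61 1 (.dbl 62 30 60))))))) (.nv (.thr 45 46 (.thr 37 32 (.thr 41 33 (.thr 35 38 (.dbl 43 39 40))))) (.rp 46 (.thr 26 58 (.thr 32 37 (.thr 40 36 (.thr 41 43 (.thr 11 56 (.thr 8 9 (.thr 59 25 (.thr 38 35 (.dbl 55 4 51))))))))) (.rp 45 (.thr 26 58 (.thr 32 37 (.thr 40 36 (.thr 41 43 (.thr 11 56 (.thr 8 9 (.thr 59 25 (.thr 38 35 (.dbl 55 4 51))))))))) (.rp 41 (.thr 46 45 (.thr 26 58 (.thr 38 34 (.thr 55 4 (.thr 14 50 (.thr 51 59 (.thr 12 25 (.thr 62 30 (.dbl 60 28 61))))))))) (.rp 38 (.thr 45 46 (.thr 26 58 (.thr 37 32 (.thr 41 33 (.thr 43 40 (.thr 11 56 (.thr 8 9 (.dbl 59 25 27)))))))) (.rp 35 (.thr 46 45 (.thr 26 58 (.thr 32 37 (.thr 40 36 (.thr 41 43 (.thr 61 1 (.thr 38 34 (.thr 14 50 (.dbl 62 30 60))))))))) (.rp 32 (.thr 46 45 (.thr 38 34 (.thr 55 4 (.thr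 35 41 (.thr 43 39 (.thr 3 23 (.dbl 51 19 59))))))) .nd)))))))))) .nd)))))))))))))) (.rp 5 (.str 44 (.nv (.thr 15 31 (.thr 46 45 (.thr 38 34 (.thr 55 4 (.thr 51 59 (.thr 39 27 (.dbl 37 32 36))))))) (.nv (.thr 15 31 (.thr 46 45 (.thr 38 34 (.thr 55 4 (.thr 51 59 (.thr 39 27 (.dbl 35 41 43))))))) (.nv (.thr 15 31 (.thr 37 32 (.thr 45 46 (.thr 41 33 (.thr 61 1 (.dbl 60 30 62)))))) (.nv (.thr 32 37 (.thr 40 36 (.thr 41 43 (.thr 38 35 (.dbl 46 34 45))))) (.rp 46 (.thr 15 31 (.thr 32 37 (.thr 40 36 (.thr 43 41 (.thr 3 23 (.thr 39 35 (.thr 27 51 (.dbl 11 7 59)))))))) (.rp 45 (.thr 32 37 (.thr 40 36 (.thr 41 43 (.thr 61 1 (.thr 60 62 (.thr 12 28 (.thr 38 35 (.thr 55 4 (.dbl 51 25 59))))))))) (.rp 34 (.thr 45 46 (.thr 37 32 (.thr 41 33 (.thr 35 38 (.dbl 43 39 40))))) (.rp 15 (.str 10 (.nv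 (.thr 32 37 (.thr 40 36 (.thr 41 43 (.thr 38 35 (.dbl 46 34 45))))) (.nv (.thr 26 58 (.thr 46 45 (.thr 38 34 (.thr 14 50 (.thr 41 35 (.thr 61 1 (.dbl 62 30 60))))))) (.nv (.thr 45 46 (.thr 37 32 (.thr 41 33 (.thr 35 38 (.dbl 43 39 40))))) (.rp 46 (.thr 26 58 (.thr 32 37 (.thr 40 36 (.thr 41 43 (.thr 11 56 (.thr 8 9 (.thr 59 25 (.thr 38 35 (.dbl 55 4 51))))))))) (.rp 45 (.thr 26 58 (.thr 32 37 (.thr 40 36 (.thr 41 43 (.thr 11 56 (.thr 8 9 (.thr 59 25 (.thr 38 35 (.dbl 55 4 51))))))))) (.rp 41 (.thr 46 45 (.thr 26 58 (.thr 38 34 (.thr 55 4 (.thr 14 50 (.thr 51 59 (.thr 12 25 (.thr 62 30 (.dbl 60 28 61))))))))) (.rp 38 (.thr 45 46 (.thr 26 58 (.thr 37 32 (.thr 41 33 (.thr 43 40 (.thr 11 56 (.thr 8 9 (.dbl 59 25 27)))))))) (.rp 35 (.thr 46 45 (.thr 26 58 (.thr 32 37 (.thr 40 36 (.thr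 41 43 (.thr 61 1 (.thr 38 34 (.thr 14 50 (.dbl 62 30 60))))))))) (.rp 32 (.thr 46 45 (.thr 38 34 (.thr 55 4 (.thr 35 41 (.thr 43 39 (.thr 3 23 (.dbl 51 19 59))))))) .nd)))))))))) .nd))))))))) .nd))))))))))))

theorem w440 : WinAt (9223376434903384064, 541065217) :=
  chF (K := []) kn c440 9223376434903384064 541065217 0
    [] (by decide +kernel) (by decide +kernel)

/-- A certificate. -/
noncomputable def c441 : Ct := (.str 26 (.nv (.thr 10 58 (.thr 15 5 (.thr 48 37 (.dbl 16 31 32)))) (.nv (.thr 10 58 (.thr 15 5 (.thr 16 31 (.dbl 48 32 37)))) (.rp 58 (.str 3 (.nv (.thr 1 2 (.thr 41 61 (.thr 11 56 (.thr 15 7 (.thr 5 10 (.dbl 37 48 53)))))) (.nv (.thr 2 1 (.thr 16 31 (.thr 48 32 (.thr 18 33 (.thr 17 19 (.dbl 34 50 51)))))) (.nv (.thr 1 2 (.thr 16 31 (.thr 41 61 (.thr 48 32 (.thr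 15 37 (.dbl 11 7 56)))))) (.rp 53 (.str 48 (.nv (.dbl 16 31 32) (.rp 32 (.thr 33 18 (.thr 1 2 (.thr 41 61 (.dbl 37 15 45)))) (.rp 31 (.thr 32 16 (.dbl 37 15 47)) (.rp 16 (.thr 33 18 (.thr 1 2 (.thr 41 61 (.dbl 37 15 45)))) .nd))))) (.rp 48 (.str 53 (.nv (.thr 2 1 (.thr 5 37 (.thr 10 15 (.thr 6 14 (.thr 12 9 (.dbl 4 7 8)))))) (.nv (.thr 1 2 (.thr 37 5 (.thr 61 41 (.thr 49 57 (.thr 25 13 (.dbl 17 29 33)))))) (.rp 37 (.thr 1 2 (.thr 41 61 (.thr 40 43 (.thr 56 11 (.thr 24 8 (.thr 16 31 (.dbl 20 28 60))))))) (.rp 5 (.thr 1 2 (.thr 41 61 (.thr 40 43 (.thr 56 11 (.thr 24 8 (.thr 16 31 (.dbl 20 28 60))))))) (.rp 2 (.thr 5 37 (.thr 16 31 (.thr 15 10 (.thr 7 11 (.thr 6 4 (.thr 9 12 (.thr 1 13 (.thr 41 61 (.thr 40 43 (.thr 25 57 (.thr 24 27 (.thr 59 8 (.dbl 20 28 60))))))))))))) (.rp 1 (.thr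 5 37 (.thr 15 10 (.thr 7 11 (.thr 4 6 (.thr 38 55 (.thr 14 50 (.dbl 12 8 13))))))) .nd))))))) (.rp 15 (.thr 1 2 (.thr 41 61 (.thr 40 43 (.thr 60 20 (.thr 56 11 (.thr 48 52 (.dbl 16 31 32))))))) (.rp 2 (.thr 16 31 (.thr 48 32 (.thr 15 37 (.thr 7 11 (.thr 5 10 (.thr 18 33 (.thr 17 19 (.thr 34 51 (.thr 38 46 (.dbl 4 6 55)))))))))) (.rp 1 (.thr 16 31 (.thr 48 32 (.thr 18 33 (.thr 17 19 (.thr 34 51 (.thr 38 46 (.dbl 50 2 14))))))) .nd))))))))) (.rp 53 (.thr 16 31 (.thr 10 58 (.thr 48 32 (.dbl 15 5 37)))) (.rp 48 (.thr 31 16 (.str 25 (.nv (.thr 17 29 (.thr 27 24 (.thr 51 34 (.thr 15 39 (.dbl 10 5 58))))) (.nv (.thr 58 10 (.thr 59 8 (.thr 56 57 (.thr 11 41 (.dbl 27 24 43))))) (.nv (.thr 8 59 (.thr 12 4 (.thr 17 29 (.dbl 51 34 38)))) (.rp 58 (.str 53 (.nv (.thr 17 29 (.thr 37 5 (.thr 49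 13 (.thr 1 33 (.dbl 61 41 57))))) (.nv (.thr 5 37 (.thr 10 15 (.thr 24 27 (.thr 8 59 (.thr 56 40 (.dbl 11 9 41)))))) (.nv (.thr 17 29 (.thr 51 34 (.thr 8 59 (.dbl 12 4 38)))) .nd)))) .nd)))))) (.rp 37 (.str 11 (.nv (.thr 56 41 (.thr 58 10 (.thr 59 57 (.thr 25 8 (.dbl 27 24 43))))) (.nv (.thr 10 58 (.thr 5 15 (.thr 8 9 (.thr 4 12 (.thr 38 55 (.thr 14 50 (.dbl 6 2 7))))))) (.nv (.thr 10 58 (.thr 8 9 (.thr 41 56 (.thr 43 40 (.dbl 59 25 27))))) (.rp 59 (.thr 10 58 (.thr 9 8 (.thr 5 15 (.thr 1 13 (.dbl 41 56 61))))) (.rp 58 (.thr 41 56 (.thr 43 40 (.thr 59 27 (.thr 8 25 (.thr 10 9 (.thr 15 5 (.thr 1 61 (.dbl 3 2 7)))))))) (.rp 52 (.str 7 (.nv (.thr 3 15 (.thr 1 2 (.dbl 41 56 61))) (.nv (.thr 10 58 (.dbl 15 3 5)) (.rp 15 (.thr 10 58 (.thr 8 9 (.thr 25 59 (.thr 24 27 (.dbl 56 40 41)))))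 (.rp 3 (.thr 10 58 (.thr 8 9 (.thr 5 15 (.dbl 4 6 12)))) .nd))))) (.rp 10 (.thr 31 16 (.thr 41 56 (.thr 43 40 (.thr 27 59 (.thr 19 23 (.thr 1 61 (.thr 3 2 (.thr 51 35 (.dbl 15 7 39))))))))) (.rp 8 (.thr 10 58 (.thr 15 5 (.thr 41 56 (.thr 1 61 (.dbl 3 2 7))))) (.rp 7 (.str 52 (.nv (.thr 10 58 (.thr 8 9 (.thr 25 59 (.thr 24 27 (.dbl 56 40 41))))) (.nv (.thr 16 31 (.thr 48 32 (.dbl 56 41 60))) (.rp 56 (.thr 10 58 (.thr 8 9 (.thr 59 25 (.thr 43 27 (.thr 4 12 (.thr 20 36 (.dbl 40 41 60))))))) (.rp 48 (.thr 56 41 (.thr 58 10 (.thr 59 57 (.thr 27 43 (.dbl 25 8 24))))) (.rp 41 (.thr 10 58 (.thr 8 9 (.thr 25 59 (.thr 17 29 (.thr 51 34 (.dbl 12 4 38)))))) .nd)))))) .nd)))))))))) (.rp 32 (.str 11 (.nv (.thr 10 58 (.thr 9 8 (.thr 15 5 (.thr 3 7 (.thr 2 1 (.dbl 6 12 14)))))) (.nv (.thr 56 41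 (.thr 58 10 (.thr 59 57 (.thr 25 8 (.dbl 27 24 43))))) (.rp 58 (.thr 41 56 (.thr 1 61 (.thr 3 2 (.thr 15 7 (.thr 5 10 (.dbl 37 48 53)))))) (.rp 10 (.thr 31 16 (.thr 41 56 (.thr 43 40 (.thr 27 59 (.thr 19 23 (.thr 1 61 (.thr 3 2 (.thr 15 7 (.dbl 51 35 39))))))))) (.rp 8 (.thr 10 58 (.thr 15 5 (.thr 3 7 (.thr 1 2 (.dbl 41 56 61))))) (.rp 3 (.thr 10 58 (.thr 9 8 (.thr 5 15 (.thr 1 13 (.dbl 41 56 61))))) .nd))))))) (.rp 31 (.thr 10 58 (.thr 15 5 (.str 12 (.nv (.thr 14 13 (.thr 38 50 (.thr 34 46 (.dbl 51 17 25)))) (.nv (.thr 48 37 (.thr 8 4 (.thr 24 36 (.dbl 25 27 59)))) (.nv (.thr 14 13 (.thr 4 8 (.dbl 38 50 55))) (.rp 48 (.str 53 (.nv (.thr 14 13 (.thr 38 50 (.thr 34 46 (.dbl 51 17 25)))) (.nv (.thr 8 4 (.thr 25 59 (.thr 51 38 (.dbl 17 29 34)))) (.nv (.thr 4 8 (.thr 14 13 (.dbl 38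 50 55))) (.rp 38 (.thr 8 4 (.thr 14 13 (.thr 6 2 (.dbl 9 3 11)))) (.rp 29 (.str 28 (.nv (.thr 14 13 (.thr 38 50 (.thr 34 46 (.dbl 51 17 25)))) (.nv (.thr 8 4 (.thr 60 44 (.thr 40 20 (.thr 41 43 (.dbl 11 9 56))))) (.nv (.thr 4 8 (.thr 38 55 (.dbl 14 13 50))) .nd)))) (.rp 28 (.str 29 (.nv (.thr 14 13 (.thr 25 17 (.dbl 38 50 51))) (.nv (.thr 25 17 (.dbl 8 4 59)) (.rp 25 (.str 19 (.nv (.thr 8 4 (.thr 11 9 (.thr 41 56 (.thr 1 61 (.dbl 3 2 7))))) (.nv (.thr 4 8 (.thr 38 55 (.dbl 14 13 50))) (.rp 59 (.thr 4 8 (.thr 14 13 (.dbl 38 50 55))) (.rp 13 (.thr 4 8 (.thr 38 55 (.thr 14 50 (.thr 2 6 (.thr 34 46 (.thr 51 17 (.dbl 3 1 35))))))) (.rp 8 (.thr 14 13 (.thr 2 6 (.thr 38 50 (.thr 34 46 (.thr 51 17 (.dbl 3 1 35)))))) (.rp 4 (.thr 14 13 (.thr 6 2 (.thr 38 50 (.thr 34 46 (.thr 51 17 (.dbl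 3 9 35)))))) .nd))))))) (.rp 17 (.thr 4 8 (.thr 14 13 (.dbl 38 50 55))) .nd))))) .nd))))))) (.rp 38 (.thr 14 13 (.thr 6 2 (.thr 9 3 (.dbl 8 4 11)))) (.rp 29 (.str 28 (.nv (.thr 14 13 (.thr 4 8 (.dbl 38 50 55))) (.nv (.thr 48 37 (.thr 16 32 (.dbl 24 20 36))) (.rp 48 (.str 53 (.nv (.thr 14 13 (.thr 38 50 (.thr 34 46 (.dbl 51 17 25)))) (.nv (.thr 8 4 (.thr 60 44 (.thr 40 20 (.thr 41 43 (.dbl 11 9 56))))) (.nv (.thr 4 8 (.thr 38 55 (.dbl 14 13 50))) .nd)))) .nd)))) (.rp 28 (.str 29 (.nv (.thr 48 37 (.thr 24 36 (.dbl 25 17 27))) (.nv (.thr 25 17 (.dbl 8 4 59)) (.rp 48 (.str 53 (.nv (.thr 14 13 (.thr 25 17 (.dbl 38 50 51))) (.nv (.thr 25 17 (.dbl 8 4 59)) (.rp 25 (.str 19 (.nv (.thr 8 4 (.thr 11 9 (.thr 41 56 (.thr 1 61 (.dbl 3 2 7))))) (.nv (.thr 4 8 (.thr 38 55 (.dbl 14 13 50))) (.rp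 59 (.thr 4 8 (.thr 14 13 (.dbl 38 50 55))) (.rp 13 (.thr 4 8 (.thr 38 55 (.thr 14 50 (.thr 2 6 (.thr 34 46 (.thr 51 17 (.dbl 3 1 35))))))) (.rp 8 (.thr 14 13 (.thr 2 6 (.thr 38 50 (.thr 34 46 (.thr 51 17 (.dbl 3 1 35)))))) (.rp 4 (.thr 14 13 (.thr 6 2 (.thr 38 50 (.thr 34 46 (.thr 51 17 (.dbl 3 9 35)))))) .nd))))))) (.rp 17 (.thr 4 8 (.thr 14 13 (.dbl 38 50 55))) .nd))))) (.rp 25 (.str 19 (.nv (.thr 48 37 (.thr 8 4 (.thr 11 9 (.thr 24 36 (.dbl 56 40 41))))) (.nv (.thr 4 8 (.thr 38 55 (.dbl 14 13 50))) (.rp 48 (.str 53 (.nv (.thr 8 4 (.thr 11 9 (.thr 41 56 (.thr 1 61 (.dbl 3 2 7))))) (.nv (.thr 4 8 (.thr 38 55 (.dbl 14 13 50))) (.rp 59 (.thr 4 8 (.thr 14 13 (.dbl 38 50 55))) (.rp 13 (.thr 4 8 (.thr 38 55 (.thr 14 50 (.thr 2 6 (.thr 34 46 (.thr 51 17 (.dbl 3 1 35))))))) (.rp 8 (.thr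 14 13 (.thr 2 6 (.thr 38 50 (.thr 34 46 (.thr 51 17 (.dbl 3 1 35)))))) (.rp 4 (.thr 14 13 (.thr 6 2 (.thr 38 50 (.thr 34 46 (.thr 51 17 (.dbl 3 9 35)))))) .nd))))))) (.rp 38 (.thr 14 13 (.thr 6 2 (.thr 9 3 (.dbl 8 4 11)))) (.rp 13 (.thr 4 8 (.thr 38 55 (.thr 34 46 (.thr 51 17 (.thr 39 27 (.dbl 37 36 48)))))) (.rp 8 (.thr 14 13 (.thr 6 2 (.thr 38 50 (.thr 34 46 (.thr 51 17 (.dbl 3 9 35)))))) (.rp 4 (.thr 14 13 (.thr 6 2 (.thr 38 50 (.thr 34 46 (.thr 51 17 (.dbl 3 9 35)))))) .nd)))))))) (.rp 17 (.thr 14 13 (.thr 4 8 (.dbl 38 50 55))) .nd)))))) .nd)))))))))) (.rp 16 (.str 11 (.nv (.thr 10 58 (.thr 9 8 (.thr 15 5 (.thr 3 7 (.thr 2 1 (.dbl 6 12 14)))))) (.nv (.thr 56 41 (.thr 58 10 (.thr 59 57 (.thr 25 8 (.dbl 27 24 43))))) (.rp 58 (.thr 41 56 (.thr 1 61 (.thr 3 2 (.thr 15 7 (.thr 5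 10 (.dbl 37 48 53)))))) (.rp 10 (.thr 41 56 (.thr 43 40 (.thr 27 59 (.thr 1 61 (.thr 3 2 (.thr 15 7 (.thr 51 39 (.thr 17 34 (.dbl 25 24 29))))))))) (.rp 8 (.thr 10 58 (.thr 15 5 (.thr 3 7 (.thr 1 2 (.dbl 41 56 61))))) (.rp 3 (.thr 10 58 (.thr 9 8 (.thr 5 15 (.thr 1 13 (.dbl 41 56 61))))) .nd))))))) (.rp 15 (.thr 31 16 (.str 41 (.nv (.thr 40 43 (.thr 56 11 (.thr 8 24 (.thr 58 10 (.dbl 59 25 57))))) (.nv (.thr 10 58 (.thr 11 56 (.thr 8 9 (.thr 43 40 (.dbl 59 25 27))))) (.rp 60 (.str 45 (.nv (.thr 11 56 (.thr 43 40 (.thr 59 27 (.thr 8 25 (.dbl 10 9 58))))) (.nv (.thr 61 1 (.thr 13 29 (.thr 37 33 (.thr 53 5 (.dbl 49 25 57))))) (.rp 61 (.str 62 (.nv (.thr 58 10 (.thr 50 54 (.thr 38 14 (.thr 44 35 (.dbl 46 34 47))))) (.nv (.thr 10 58 (.thr 11 56 (.thr 8 9 (.thr 43 40 (.dbl 59 25 27)))))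 (.nv (.thr 37 33 (.thr 43 40 (.thr 47 32 (.thr 35 39 (.dbl 44 38 46))))) .nd)))) (.rp 25 (.thr 43 40 (.thr 37 33 (.thr 47 32 (.thr 44 46 (.dbl 35 38 39))))) .nd))))) (.rp 59 (.thr 1 61 (.thr 2 3 (.thr 10 58 (.thr 14 6 (.thr 38 50 (.thr 34 46 (.thr 35 44 (.thr 33 32 (.dbl 17 49 51))))))))) (.rp 58 (.thr 40 43 (.thr 1 61 (.thr 3 2 (.thr 56 11 (.thr 8 24 (.thr 12 4 (.thr 9 6 (.dbl 25 57 59)))))))) (.rp 57 (.thr 43 40 (.thr 11 56 (.thr 10 58 (.thr 59 27 (.dbl 8 9 25))))) (.rp 56 (.thr 1 61 (.thr 2 3 (.thr 10 58 (.thr 14 6 (.thr 38 50 (.thr 34 46 (.thr 35 44 (.thr 33 32 (.dbl 17 49 51))))))))) (.rp 45 (.str 60 (.nv (.dbl 40 20 43) (.rp 43 (.thr 56 11 (.thr 58 10 (.thr 59 57 (.thr 8 25 (.dbl 40 20 24))))) (.rp 40 (.thr 56 11 (.thr 58 10 (.thr 57 59 (.thr 51 54 (.thr 17 34 (.dbl 25 9 29))))))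 (.rp 20 (.thr 56 11 (.thr 40 43 (.thr 58 10 (.thr 59 57 (.dbl 8 24 25))))) .nd))))) (.rp 43 (.thr 1 61 (.thr 11 56 (.thr 10 58 (.thr 8 9 (.thr 4 12 (.thr 38 55 (.thr 14 50 (.dbl 2 3 6)))))))) (.rp 40 (.thr 1 61 (.thr 2 3 (.thr 11 56 (.thr 10 58 (.thr 14 6 (.thr 38 50 (.thr 4 55 (.dbl 8 9 12)))))))) (.rp 27 (.thr 40 43 (.thr 58 10 (.thr 56 11 (.thr 59 57 (.dbl 8 24 25))))) (.rp 25 (.thr 40 43 (.thr 56 11 (.thr 8 24 (.thr 4 12 (.thr 38 55 (.thr 44 35 (.thr 36 32 (.dbl 20 52 60)))))))) (.rp 11 (.thr 1 61 (.thr 3 2 (.thr 40 43 (.thr 60 20 (.str 27 (.nv (.thr 24 25 (.thr 8 56 (.thr 12 4 (.thr 36 48 (.dbl 44 28 32))))) (.nv (.thr 19 23 (.thr 51 35 (.thr 57 54 (.dbl 25 9 24)))) (.rp 28 (.thr 24 25 (.thr 19 23 (.thr 56 8 (.thr 51 35 (.thr 57 54 (.dbl 58 10 59)))))) (.rp 25 (.thr 58 10 (.thr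 19 23 (.thr 51 35 (.thr 17 34 (.thr 54 57 (.thr 50 62 (.dbl 49 33 48))))))) (.rp 24 (.str 28 (.nv (.thr 19 23 (.thr 51 35 (.thr 17 34 (.thr 57 54 (.dbl 25 9 29))))) (.nv (.thr 12 44 (.thr 8 4 (.thr 9 6 (.dbl 25 57 59)))) (.nv (.thr 19 23 (.thr 35 51 (.dbl 44 12 38))) (.rp 38 (.thr 12 44 (.thr 8 4 (.thr 25 59 (.dbl 9 6 57)))) .nd))))) (.rp 19 (.thr 25 24 (.str 28 (.nv (.thr 57 9 (.thr 51 54 (.dbl 17 29 34))) (.nv (.thr 17 29 (.thr 8 59 (.dbl 12 4 44))) (.nv (.thr 12 44 (.dbl 9 6 57)) (.rp 17 (.str 18 (.nv (.thr 8 59 (.dbl 12 4 44)) (.nv (.thr 12 44 (.dbl 9 6 57)) (.rp 44 (.thr 9 57 (.thr 8 59 (.dbl 12 4 6))) (.rp 12 (.thr 57 9 (.thr 48 33 (.thr 56 52 (.dbl 59 8 58)))) .nd))))) .nd)))))) .nd))))))))))) (.rp 10 (.thr 40 43 (.thr 56 11 (.thr 8 24 (.thr 4 12 (.thr 38 55 (.thr 44 35 (.thr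 36 32 (.dbl 20 52 60)))))))) (.rp 8 (.thr 1 61 (.thr 2 3 (.thr 10 58 (.thr 14 6 (.thr 38 50 (.thr 34 46 (.thr 35 44 (.thr 33 32 (.dbl 17 49 51))))))))) .nd))))))))))))))))) (.rp 10 (.str 3 (.nv (.thr 1 2 (.thr 41 61 (.thr 40 43 (.thr 56 11 (.thr 60 20 (.thr 48 52 (.dbl 16 31 32))))))) (.nv (.thr 2 1 (.thr 16 31 (.thr 48 32 (.thr 18 33 (.thr 34 50 (.dbl 17 19 51)))))) (.rp 48 (.thr 1 2 (.thr 31 16 (.thr 41 61 (.thr 43 40 (.thr 11 56 (.thr 15 7 (.thr 27 59 (.thr 19 23 (.dbl 51 35 39))))))))) (.rp 32 (.thr 1 2 (.thr 41 61 (.thr 40 43 (.thr 60 20 (.thr 56 11 (.thr 48 52 (.thr 37 15 (.dbl 33 18 45)))))))) (.rp 31 (.thr 1 2 (.thr 41 61 (.thr 40 43 (.thr 60 20 (.thr 56 11 (.thr 48 52 (.thr 33 18 (.dbl 37 15 45)))))))) (.rp 16 (.thr 1 2 (.thr 41 61 (.thr 40 43 (.thr 60 20 (.thr 56 11 (.thr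 48 52 (.thr 37 15 (.dbl 33 18 45)))))))) (.rp 2 (.thr 16 31 (.thr 48 32 (.thr 15 37 (.thr 18 33 (.thr 17 19 (.thr 34 51 (.thr 38 46 (.thr 14 50 (.thr 12 13 (.dbl 4 8 55)))))))))) (.rp 1 (.thr 16 31 (.thr 48 32 (.thr 18 33 (.thr 17 19 (.thr 34 51 (.thr 38 46 (.dbl 50 2 14))))))) .nd))))))))) (.rp 5 (.str 11 (.nv (.thr 10 58 (.thr 8 9 (.thr 12 4 (.thr 16 31 (.thr 48 32 (.thr 24 36 (.dbl 25 27 59))))))) (.nv (.thr 16 31 (.thr 41 56 (.thr 1 61 (.thr 3 2 (.thr 15 7 (.dbl 48 32 37)))))) (.nv (.thr 56 41 (.thr 58 10 (.thr 59 57 (.thr 25 8 (.dbl 27 24 43))))) .nd)))) .nd)))))))))))))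

theorem w441 : WinAt (4398048608257, 9223372037932711936) :=
  chF (K := []) kn c441 4398048608257 9223372037932711936 63
    [1145307136] (by decide +kernel) (by decide +kernel)

/-- A certificate. -/
noncomputable def c442 : Ct := (.str 55 (.nv (.thr 51 59 (.thr 38 4 (.thr 46 34 (.dbl 12 25 29)))) (.rp 59 (.str 23 (.nv (.thr 38 4 (.thr 43 3 (.thr 41 40 (.thr 35 44 (.dbl 39 7 47))))) (.nv (.thr 38 4 (.thr 39 7 (.thr 43 3 (.thr 47 35 (.dbl 37 32 36))))) (.nv (.thr 38 4 (.thr 39 7 (.thr 37 36 (.thr 46 34 (.thr 47 32 (.thr 44 45 (.dbl 35 41 43))))))) (.nv (.thr 39 7 (.thr 43 3 (.thr 35 47 (.thr 41 40 (.dbl 38 4 44))))) (.rp 47 (.thr 39 7 (.thr 38 4 (.thr 46 34 (.thr 37 36 (.thr 12 29 (.thr 51 25 (.thr 15 27 (.thr 26 48 (.dbl 14 13 50))))))))) (.rp 43 (.thr 39 7 (.thr 38 4 (.thr 46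 34 (.thr 37 36 (.thr 5 53 (.thr 47 32 (.thr 12 29 (.thr 51 25 (.thr 44 45 (.thr 35 41 (.thr 3 19 (.thr 28 60 (.thr 9 6 (.thr 13 1 (.dbl 15 14 27))))))))))))))) (.rp 41 (.thr 39 7 (.thr 38 4 (.thr 37 36 (.thr 47 32 (.dbl 43 3 35))))) (.rp 39 (.thr 43 3 (.thr 38 4 (.thr 46 34 (.thr 41 40 (.thr 1 61 (.thr 44 35 (.thr 45 47 (.thr 33 37 (.thr 17 49 (.dbl 29 12 25)))))))))) (.rp 38 (.thr 39 7 (.thr 43 3 (.thr 47 35 (.thr 37 32 (.thr 5 53 (.thr 41 40 (.thr 33 45 (.thr 1 61 (.thr 49 17 (.dbl 13 9 25)))))))))) (.rp 35 (.thr 39 7 (.thr 38 4 (.thr 46 34 (.thr 37 36 (.thr 12 29 (.thr 51 25 (.thr 15 27 (.thr 26 48 (.dbl 14 13 50))))))))) (.rp 7 (.thr 43 3 (.thr 38 4 (.thr 34 46 (.thr 41 40 (.thr 35 44 (.thr 47 39 (.dbl 32 33 37))))))) (.rp 4 (.thr 39 7 (.thr 43 3 (.thr 47 35 (.thr 37 32 (.thr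 5 53 (.thr 41 40 (.thr 33 45 (.thr 1 61 (.thr 49 17 (.dbl 13 9 25)))))))))) .nd))))))))))))) (.rp 51 (.thr 38 4 (.thr 34 46 (.str 37 (.nv (.thr 53 5 (.thr 54 52 (.thr 58 48 (.thr 50 62 (.dbl 26 10 14))))) (.nv (.thr 36 39 (.thr 32 47 (.thr 35 33 (.dbl 44 40 41)))) (.rp 36 (.thr 32 47 (.thr 33 35 (.thr 53 5 (.thr 48 58 (.thr 3 18 (.thr 43 23 (.dbl 41 40 45))))))) (.rp 32 (.thr 39 36 (.thr 23 7 (.thr 43 3 (.thr 35 47 (.dbl 41 40 44))))) (.rp 15 (.thr 39 36 (.thr 47 32 (.thr 43 35 (.dbl 23 3 7)))) (.rp 12 (.str 8 (.nv (.thr 39 36 (.thr 23 7 (.thr 47 32 (.dbl 43 3 35)))) (.nv (.thr 5 53 (.thr 25 59 (.thr 13 49 (.thr 1 9 (.thr 29 17 (.dbl 61 41 45)))))) (.nv (.thr 36 39 (.thr 32 47 (.thr 35 33 (.dbl 44 40 41)))) .nd)))) (.rp 8 (.str 12 (.nv (.thr 53 5 (.thr 54 52 (.thr 58 48 (.thr 50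 62 (.dbl 26 10 14))))) (.nv (.thr 32 47 (.thr 35 33 (.thr 44 41 (.dbl 36 39 40)))) (.nv (.thr 36 39 (.thr 48 24 (.dbl 53 5 58))) (.rp 36 (.thr 53 5 (.thr 52 54 (.thr 32 47 (.thr 35 33 (.thr 44 41 (.thr 60 28 (.dbl 48 56 58))))))) .nd))))) .nd)))))))))) (.rp 46 (.str 54 (.nv (.thr 38 4 (.thr 53 52 (.thr 58 48 (.thr 26 10 (.dbl 50 14 62))))) (.nv (.thr 38 4 (.thr 51 59 (.thr 12 25 (.thr 60 57 (.thr 61 62 (.thr 41 1 (.dbl 44 28 35))))))) (.nv (.thr 38 4 (.thr 51 59 (.thr 12 25 (.thr 53 52 (.thr 37 5 (.thr 36 39 (.dbl 48 24 58))))))) (.nv (.thr 51 59 (.thr 60 57 (.thr 62 61 (.thr 58 50 (.dbl 53 48 52))))) (.rp 58 (.thr 53 52 (.thr 51 59 (.thr 57 60 (.thr 49 61 (.thr 38 4 (.thr 37 5 (.dbl 25 12 13))))))) .nd)))))) (.rp 38 (.thr 51 59 (.str 54 (.nv (.thr 53 52 (.thr 37 5 (.thr 48 58 (.thr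 57 60 (.dbl 49 50 61))))) (.nv (.thr 53 52 (.thr 60 57 (.thr 62 61 (.dbl 58 48 50)))) (.rp 61 (.thr 53 52 (.thr 48 58 (.thr 37 5 (.thr 47 32 (.thr 15 26 (.thr 39 27 (.thr 43 35 (.dbl 23 3 7)))))))) (.rp 60 (.thr 53 52 (.thr 48 58 (.thr 49 50 (.thr 37 5 (.thr 25 13 (.thr 17 29 (.thr 1 33 (.dbl 61 41 57)))))))) (.rp 58 (.thr 53 52 (.thr 57 60 (.thr 49 61 (.thr 48 50 (.thr 37 5 (.thr 25 13 (.thr 29 17 (.thr 12 46 (.thr 24 36 (.dbl 26 15 27)))))))))) (.rp 57 (.thr 53 52 (.thr 58 48 (.thr 62 50 (.thr 60 61 (.thr 26 10 (.thr 37 5 (.str 15 (.nv (.thr 39 27 (.thr 23 7 (.thr 43 3 (.dbl 47 32 35)))) (.nv (.thr 32 47 (.thr 45 30 (.thr 41 33 (.thr 11 56 (.thr 3 7 (.dbl 43 23 40)))))) (.nv (.thr 27 39 (.thr 25 24 (.thr 29 17 (.thr 30 45 (.dbl 46 12 14))))) (.rp 32 (.str 16 (.nv (.thr 27 39 (.thr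 25 24 (.thr 29 17 (.thr 13 49 (.dbl 12 14 46))))) (.nv (.thr 45 30 (.thr 41 33 (.thr 11 56 (.thr 3 7 (.dbl 43 23 40))))) (.nv (.thr 27 39 (.thr 25 24 (.thr 13 49 (.thr 30 45 (.dbl 14 12 46))))) .nd)))) .nd))))))))))) (.rp 53 (.thr 60 57 (.thr 61 62 (.thr 41 1 (.thr 43 40 (.thr 3 23 (.thr 19 35 (.str 29 (.nv (.thr 45 13 (.thr 46 12 (.thr 47 44 (.dbl 37 32 33)))) (.nv (.thr 17 25 (.thr 18 16 (.thr 45 13 (.dbl 33 37 48)))) (.rp 58 (.str 56 (.nv (.thr 11 26 (.thr 45 13 (.dbl 15 7 30))) (.nv (.thr 17 25 (.thr 18 16 (.dbl 48 33 52))) (.rp 18 (.thr 48 52 (.thr 49 50 (.thr 25 17 (.dbl 13 37 45)))) .nd)))) (.rp 56 (.str 58 (.nv (.thr 12 46 (.thr 6 9 (.thr 13 45 (.thr 14 15 (.dbl 10 2 26))))) (.nv (.thr 17 25 (.thr 18 16 (.thr 45 13 (.dbl 33 37 48)))) (.rp 45 (.thr 25 17 (.thr 26 10 (.thr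 24 27 (.thr 12 46 (.thr 48 36 (.thr 49 50 (.dbl 37 13 15))))))) (.rp 24 (.str 8 (.nv (.thr 17 25 (.thr 18 16 (.thr 45 13 (.dbl 33 37 48)))) (.nv (.thr 12 46 (.thr 9 6 (.dbl 10 11 26))) (.rp 26 (.thr 45 13 (.thr 46 12 (.thr 47 44 (.dbl 37 32 33)))) (.rp 9 (.thr 17 25 (.thr 18 16 (.thr 26 10 (.thr 48 33 (.thr 15 37 (.dbl 45 13 30)))))) .nd))))) (.rp 13 (.thr 25 17 (.thr 26 10 (.thr 24 27 (.thr 12 46 (.thr 48 36 (.thr 33 18 (.dbl 37 15 45))))))) (.rp 9 (.thr 17 25 (.thr 18 16 (.thr 48 33 (.thr 26 10 (.thr 15 37 (.dbl 45 13 30)))))) (.rp 8 (.str 24 (.nv (.thr 12 46 (.thr 45 13 (.thr 48 36 (.dbl 33 18 37)))) (.nv (.thr 25 17 (.dbl 26 10 27)) (.rp 33 (.thr 26 10 (.dbl 25 17 27)) (.rp 12 (.str 4 (.nv (.thr 17 25 (.thr 18 16 (.thr 45 13 (.dbl 33 37 48)))) (.nv (.thr 26 10 (.thr 45 13 (.thr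 15 30 (.dbl 37 33 48)))) (.nv (.thr 25 17 (.dbl 26 10 27)) (.rp 33 (.thr 26 10 (.dbl 25 17 27)) .nd))))) .nd))))) .nd)))))))) (.rp 45 (.thr 17 25 (.thr 18 16 (.thr 48 33 (.thr 50 49 (.thr 56 52 (.thr 26 11 (.thr 10 58 (.thr 12 46 (.thr 6 9 (.dbl 2 14 34)))))))))) (.rp 37 (.thr 17 25 (.thr 18 16 (.thr 48 33 (.thr 50 49 (.thr 13 45 (.thr 12 46 (.thr 6 9 (.thr 14 15 (.dbl 2 10 34))))))))) (.rp 33 (.thr 45 13 (.thr 15 30 (.thr 27 39 (.thr 11 7 (.thr 26 56 (.thr 58 10 (.dbl 25 17 24))))))) (.rp 32 (.thr 25 17 (.thr 45 13 (.thr 15 30 (.thr 27 39 (.thr 26 24 (.dbl 37 33 48)))))) (.rp 13 (.thr 17 25 (.thr 18 16 (.thr 48 33 (.thr 56 52 (.thr 26 11 (.thr 50 49 (.thr 37 15 (.thr 32 47 (.thr 2 34 (.thr 10 58 (.thr 6 14 (.dbl 12 9 46)))))))))))) (.rp 9 (.thr 17 25 (.thr 18 16 (.thr 48 33 (.thr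 56 52 (.thr 26 11 (.thr 13 45 (.thr 12 46 (.dbl 15 14 37)))))))) (.rp 5 (.thr 17 25 (.thr 18 16 (.thr 12 46 (.thr 45 13 (.thr 9 6 (.dbl 33 37 48)))))) .nd)))))))))))))))))) (.rp 52 (.thr 60 57 (.thr 62 61 (.thr 58 50 (.thr 53 48 (.thr 26 10 (.thr 37 5 (.str 15 (.nv (.thr 39 27 (.thr 23 7 (.thr 43 3 (.dbl 47 32 35)))) (.nv (.thr 32 47 (.thr 45 30 (.thr 41 33 (.thr 11 56 (.thr 3 7 (.dbl 43 23 40)))))) (.nv (.thr 27 39 (.thr 25 24 (.thr 29 17 (.thr 30 45 (.dbl 46 12 14))))) (.rp 32 (.str 16 (.nv (.thr 27 39 (.thr 25 24 (.thr 29 17 (.thr 13 49 (.dbl 12 14 46))))) (.nv (.thr 45 30 (.thr 41 33 (.thr 11 56 (.thr 3 7 (.dbl 43 23 40))))) (.nv (.thr 27 39 (.thr 25 24 (.thr 13 49 (.thr 30 45 (.dbl 14 12 46))))) .nd)))) .nd))))))))))) (.rp 50 (.thr 53 52 (.thr 60 57 (.thr 61 62 (.thr 41 1 (.thr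 37 5 (.thr 45 33 (.thr 15 30 (.dbl 48 26 58)))))))) (.rp 48 (.thr 53 52 (.thr 60 57 (.thr 61 62 (.thr 41 1 (.thr 43 40 (.thr 3 23 (.thr 37 5 (.thr 33 45 (.thr 32 47 (.dbl 35 19 34)))))))))) (.rp 37 (.thr 60 57 (.thr 62 61 (.thr 58 50 (.dbl 53 48 52)))) .nd))))))))))))) (.rp 34 (.thr 51 59 (.str 23 (.nv (.thr 38 4 (.thr 43 3 (.thr 41 40 (.thr 35 44 (.dbl 39 7 47))))) (.nv (.thr 38 4 (.thr 39 7 (.thr 15 27 (.thr 37 36 (.thr 48 26 (.dbl 53 5 58)))))) (.nv (.thr 39 7 (.thr 43 3 (.thr 35 47 (.thr 41 40 (.dbl 38 4 44))))) (.rp 43 (.thr 39 7 (.thr 38 4 (.thr 37 36 (.thr 5 53 (.thr 47 32 (.thr 12 25 (.thr 46 29 (.thr 44 45 (.thr 35 41 (.thr 3 19 (.thr 28 60 (.thr 9 6 (.thr 13 1 (.dbl 15 14 27)))))))))))))) (.rp 39 (.thr 3 43 (.thr 35 19 (.thr 38 4 (.thr 41 44 (.thr 61 1 (.thr 60 62 (.thr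 57 54 (.dbl 25 9 12)))))))) (.rp 38 (.thr 39 7 (.thr 15 27 (.thr 43 3 (.thr 47 35 (.thr 41 40 (.thr 37 32 (.thr 33 45 (.thr 53 5 (.dbl 48 26 58))))))))) (.rp 20 (.thr 39 7 (.thr 43 3 (.thr 35 47 (.thr 38 4 (.dbl 41 40 44))))) (.rp 7 (.thr 3 43 (.thr 35 19 (.thr 38 4 (.thr 41 44 (.thr 61 1 (.thr 60 62 (.thr 57 54 (.dbl 25 9 12)))))))) (.rp 4 (.thr 39 7 (.thr 15 27 (.thr 43 3 (.thr 47 35 (.thr 41 40 (.thr 37 32 (.thr 33 45 (.thr 48 26 (.dbl 53 5 58))))))))) .nd))))))))))) (.rp 29 (.str 60 (.nv (.thr 38 4 (.thr 51 59 (.thr 54 57 (.thr 53 52 (.thr 58 48 (.thr 26 10 (.dbl 50 14 62))))))) (.nv (.thr 38 4 (.thr 61 62 (.thr 41 1 (.thr 35 44 (.thr 43 40 (.thr 39 47 (.dbl 23 3 7))))))) (.nv (.thr 51 59 (.thr 62 61 (.thr 54 57 (.thr 58 50 (.dbl 53 48 52))))) (.rp 62 (.thr 51 59 (.thr 54 57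 (.thr 53 52 (.thr 38 4 (.thr 37 5 (.thr 36 39 (.thr 12 25 (.dbl 48 24 58)))))))) (.rp 30 (.str 28 (.nv (.thr 38 4 (.thr 61 62 (.thr 41 1 (.dbl 44 12 35)))) (.nv (.thr 51 59 (.thr 54 57 (.thr 53 52 (.thr 58 48 (.dbl 62 50 61))))) (.nv (.thr 51 59 (.thr 38 4 (.dbl 12 25 44))) (.rp 26 (.str 18 (.nv (.thr 38 4 (.thr 61 62 (.thr 41 1 (.dbl 44 12 35)))) (.nv (.thr 51 59 (.thr 54 57 (.thr 53 52 (.thr 58 48 (.dbl 62 50 61))))) (.nv (.thr 51 59 (.thr 38 4 (.dbl 12 25 44))) .nd)))) (.rp 18 (.str 26 (.nv (.thr 58 10 (.thr 53 48 (.thr 54 52 (.dbl 62 50 61)))) (.nv (.thr 51 59 (.thr 38 4 (.dbl 12 25 44))) .nd))) .nd)))))) (.rp 28 (.str 30 (.nv (.thr 51 59 (.thr 54 57 (.thr 53 52 (.thr 58 48 (.dbl 62 50 61))))) (.nv (.thr 62 61 (.thr 46 14 (.dbl 38 4 34))) (.rp 62 (.thr 51 59 (.thr 54 57 (.thr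 53 52 (.thr 37 5 (.thr 15 45 (.dbl 48 26 58)))))) (.rp 61 (.thr 51 59 (.thr 54 57 (.thr 53 52 (.thr 58 48 (.thr 50 62 (.thr 38 4 (.dbl 26 10 14))))))) (.rp 25 (.str 19 (.nv (.thr 51 59 (.thr 3 35 (.thr 23 43 (.thr 39 7 (.dbl 15 27 45))))) (.nv (.thr 62 61 (.thr 46 14 (.dbl 38 4 34))) (.rp 45 (.thr 38 4 (.thr 46 34 (.dbl 62 14 61))) .nd)))) (.rp 19 (.str 25 (.nv (.thr 62 61 (.thr 46 14 (.dbl 38 4 34))) (.nv (.dbl 59 8 51) (.rp 27 (.str 23 (.nv (.thr 7 39 (.thr 15 45 (.dbl 3 11 43))) (.nv (.dbl 59 8 51) .nd))) (.rp 23 (.str 27 (.nv (.thr 62 61 (.thr 46 14 (.dbl 38 4 34))) (.nv (.dbl 59 8 51) .nd))) .nd))))) .nd))))))) .nd))))))) (.rp 25 (.thr 51 59 (.str 19 (.nv (.thr 38 4 (.thr 34 46 (.thr 35 3 (.thr 41 44 (.thr 32 33 (.thr 47 37 (.dbl 43 39 40))))))) (.nv (.thr 35 3 (.thr 38 4 (.thr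 41 44 (.thr 43 40 (.thr 47 39 (.thr 34 46 (.dbl 32 33 37))))))) (.rp 47 (.thr 3 35 (.thr 43 23 (.thr 41 40 (.thr 61 1 (.thr 60 62 (.thr 54 57 (.thr 53 52 (.thr 37 5 (.thr 33 45 (.dbl 48 18 58)))))))))) (.rp 46 (.thr 3 35 (.thr 43 23 (.thr 41 40 (.thr 61 1 (.thr 60 62 (.thr 54 57 (.thr 53 52 (.thr 37 5 (.thr 33 45 (.dbl 48 18 58)))))))))) (.rp 44 (.thr 3 35 (.thr 43 23 (.thr 41 40 (.thr 61 1 (.thr 60 62 (.thr 54 57 (.thr 53 52 (.thr 37 5 (.thr 33 45 (.dbl 48 18 58)))))))))) (.rp 43 (.thr 35 3 (.thr 38 4 (.thr 34 46 (.thr 32 33 (.thr 37 47 (.thr 36 39 (.dbl 44 40 41))))))) (.rp 41 (.thr 3 35 (.thr 23 43 (.thr 39 7 (.thr 38 4 (.thr 46 34 (.thr 37 36 (.thr 5 53 (.thr 12 29 (.thr 9 6 (.thr 13 1 (.dbl 15 14 27))))))))))) (.rp 40 (.thr 35 3 (.thr 38 4 (.thr 34 46 (.thr 32 33 (.thr 37 47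 (.thr 53 5 (.thr 48 58 (.thr 50 49 (.dbl 26 14 15))))))))) (.rp 39 (.thr 35 3 (.thr 38 4 (.thr 34 46 (.thr 32 33 (.thr 37 47 (.thr 53 5 (.thr 48 58 (.thr 50 49 (.dbl 26 14 15))))))))) (.rp 38 (.thr 3 35 (.thr 43 23 (.thr 41 40 (.thr 61 1 (.thr 60 62 (.thr 54 57 (.thr 53 52 (.thr 37 5 (.thr 33 45 (.dbl 48 18 58)))))))))) (.rp 37 (.thr 3 35 (.thr 43 23 (.thr 38 4 (.thr 46 34 (.thr 41 40 (.thr 61 1 (.thr 12 29 (.thr 6 9 (.thr 60 62 (.thr 54 57 (.thr 52 53 (.thr 56 48 (.thr 26 11 (.thr 10 58 (.dbl 14 2 50))))))))))))))) (.rp 35 (.str 26 (.nv (.thr 38 4 (.thr 50 14 (.thr 48 49 (.dbl 58 10 53)))) (.nv (.thr 58 10 (.thr 53 48 (.thr 54 52 (.thr 60 57 (.dbl 62 50 61))))) (.nv (.thr 58 10 (.thr 48 53 (.thr 38 4 (.dbl 50 14 49)))) (.rp 58 (.thr 38 4 (.thr 46 34 (.thr 12 29 (.thr 50 14 (.thr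 48 49 (.thr 36 24 (.dbl 37 15 39))))))) (.rp 53 (.thr 38 4 (.thr 46 34 (.thr 12 29 (.thr 50 14 (.thr 48 49 (.thr 36 24 (.dbl 37 15 39))))))) (.rp 50 (.thr 58 10 (.thr 48 53 (.thr 38 4 (.thr 46 34 (.thr 12 29 (.thr 36 24 (.dbl 37 15 39))))))) (.rp 48 (.thr 38 4 (.thr 46 34 (.thr 12 29 (.thr 14 50 (.thr 30 62 (.thr 15 13 (.thr 39 27 (.thr 37 36 (.thr 45 60 (.dbl 47 32 44)))))))))) (.rp 10 (.thr 38 4 (.thr 50 14 (.thr 48 49 (.thr 53 58 (.dbl 37 5 15))))) .nd))))))))) (.rp 34 (.thr 3 35 (.thr 43 23 (.thr 41 40 (.thr 61 1 (.thr 60 62 (.thr 54 57 (.thr 53 52 (.thr 37 5 (.thr 33 45 (.dbl 48 18 58)))))))))) (.rp 33 (.thr 35 3 (.thr 38 4 (.thr 46 34 (.thr 12 29 (.thr 41 44 (.thr 43 40 (.thr 39 47 (.thr 15 27 (.thr 14 13 (.thr 26 50 (.dbl 37 36 48))))))))))) (.rp 32 (.thr 3 35 (.thr 43 23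 (.thr 41 40 (.thr 61 1 (.thr 60 62 (.thr 54 57 (.thr 53 52 (.thr 37 5 (.thr 33 45 (.dbl 48 18 58)))))))))) (.rp 12 (.thr 3 35 (.thr 43 23 (.thr 41 40 (.thr 61 1 (.thr 60 62 (.thr 54 57 (.thr 53 52 (.thr 37 5 (.thr 33 45 (.dbl 48 18 58)))))))))) (.rp 8 (.thr 3 35 (.thr 43 23 (.thr 41 40 (.thr 61 1 (.thr 60 62 (.thr 54 57 (.thr 53 52 (.thr 37 5 (.thr 33 45 (.dbl 48 18 58)))))))))) (.rp 4 (.thr 3 35 (.thr 43 23 (.thr 41 40 (.thr 61 1 (.thr 60 62 (.thr 54 57 (.thr 53 52 (.thr 37 5 (.thr 33 45 (.dbl 48 18 58)))))))))) (.rp 3 (.str 60 (.nv (.thr 38 4 (.thr 54 57 (.thr 53 52 (.thr 58 48 (.thr 26 10 (.dbl 50 14 62)))))) (.nv (.thr 38 4 (.thr 46 34 (.thr 54 57 (.thr 62 61 (.thr 14 30 (.dbl 50 26 58)))))) (.nv (.thr 62 61 (.thr 54 57 (.thr 58 50 (.dbl 53 48 52)))) (.rp 62 (.thr 54 57 (.thr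 53 52 (.thr 38 4 (.thr 46 34 (.thr 37 5 (.thr 36 39 (.thr 12 29 (.dbl 48 24 58)))))))) (.rp 58 (.thr 62 61 (.thr 38 4 (.thr 46 34 (.thr 12 29 (.thr 44 28 (.thr 30 14 (.dbl 45 15 47))))))) (.rp 57 (.thr 62 61 (.thr 38 4 (.thr 46 34 (.thr 12 29 (.thr 44 28 (.thr 30 14 (.dbl 45 15 47))))))) (.rp 54 (.thr 62 61 (.thr 38 4 (.thr 46 34 (.thr 12 29 (.thr 44 28 (.thr 30 14 (.dbl 45 15 47))))))) (.rp 53 (.thr 62 61 (.thr 38 4 (.thr 46 34 (.thr 12 29 (.thr 44 28 (.thr 30 14 (.dbl 45 15 47))))))) (.rp 50 (.thr 62 61 (.thr 38 4 (.thr 46 34 (.thr 12 29 (.thr 44 28 (.thr 30 14 (.dbl 45 15 47))))))) (.rp 41 (.thr 62 61 (.thr 38 4 (.thr 46 34 (.thr 12 29 (.thr 44 28 (.thr 30 14 (.dbl 45 15 47))))))) (.rp 9 (.thr 62 61 (.thr 38 4 (.thr 46 34 (.thr 12 29 (.thr 44 28 (.thr 30 14 (.dbl 45 15 47)))))))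 (.rp 2 (.str 1 (.nv (.dbl 61 41 62) (.rp 62 (.thr 38 4 (.thr 46 34 (.thr 12 29 (.thr 41 61 (.dbl 44 28 35))))) (.rp 61 (.thr 38 4 (.thr 54 57 (.thr 53 52 (.thr 58 48 (.thr 50 62 (.dbl 26 10 14)))))) (.rp 41 (.thr 38 4 (.thr 62 61 (.thr 46 34 (.thr 30 14 (.thr 45 15 (.thr 44 47 (.dbl 12 28 29))))))) .nd))))) (.rp 1 (.str 2 (.nv (.thr 38 4 (.thr 34 46 (.thr 50 18 (.thr 48 49 (.thr 52 56 (.dbl 53 54 58)))))) (.nv (.thr 38 4 (.thr 46 34 (.thr 62 61 (.thr 14 30 (.thr 26 50 (.dbl 10 6 58)))))) (.nv (.thr 62 61 (.thr 54 57 (.thr 58 50 (.dbl 53 48 52)))) (.rp 58 (.thr 57 54 (.thr 38 4 (.thr 34 46 (.thr 61 62 (.thr 50 18 (.dbl 49 48 53)))))) (.rp 50 (.thr 62 61 (.thr 38 4 (.thr 46 34 (.thr 30 14 (.thr 12 29 (.thr 44 28 (.dbl 45 15 47))))))) .nd)))))) .nd)))))))))))))) (.rp 2 (.thr 3 35 (.thr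 43 23 (.thr 41 40 (.thr 61 1 (.thr 60 62 (.thr 54 57 (.thr 53 52 (.thr 37 5 (.thr 33 45 (.dbl 48 18 58)))))))))) (.rp 1 (.thr 3 35 (.str 7 (.nv (.dbl 23 39 43) (.rp 43 (.thr 39 23 (.dbl 15 11 27)) (.rp 39 (.thr 11 15 (.thr 43 23 (.thr 38 4 (.thr 41 40 (.thr 26 56 (.thr 50 14 (.thr 48 49 (.dbl 58 10 53)))))))) (.rp 23 (.thr 15 11 (.thr 38 4 (.thr 46 34 (.thr 12 29 (.thr 14 13 (.thr 26 50 (.thr 10 58 (.dbl 6 2 9)))))))) .nd)))))) .nd))))))))))))))))))))))) (.rp 12 (.thr 51 59 (.str 53 (.nv (.thr 4 38 (.thr 54 52 (.thr 48 58 (.thr 57 60 (.dbl 49 50 61))))) (.nv (.thr 37 5 (.thr 48 58 (.thr 15 26 (.thr 39 27 (.dbl 38 4 36))))) (.nv (.thr 48 58 (.thr 49 50 (.thr 57 61 (.dbl 54 52 60)))) (.rp 58 (.thr 54 52 (.thr 57 60 (.thr 49 61 (.thr 48 50 (.thr 37 5 (.thr 15 26 (.thr 39 27 (.dbl 38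 4 36)))))))) (.rp 57 (.thr 54 52 (.thr 58 48 (.thr 50 62 (.thr 26 10 (.dbl 38 4 14))))) (.rp 48 (.thr 54 52 (.thr 60 57 (.thr 61 62 (.thr 41 1 (.thr 40 43 (.thr 37 5 (.thr 32 47 (.thr 36 44 (.dbl 38 4 39))))))))) (.rp 4 (.str 8 (.nv (.thr 54 52 (.thr 48 58 (.thr 57 60 (.dbl 49 50 61)))) (.nv (.thr 48 58 (.thr 49 50 (.thr 57 61 (.dbl 54 52 60)))) (.rp 61 (.thr 37 5 (.thr 47 32 (.thr 48 58 (.thr 15 26 (.thr 39 27 (.thr 43 35 (.dbl 23 3 7))))))) (.rp 60 (.thr 37 5 (.thr 47 32 (.thr 48 58 (.thr 15 26 (.thr 39 27 (.thr 43 35 (.dbl 23 3 7))))))) (.rp 58 (.thr 54 52 (.thr 57 60 (.thr 61 49 (.thr 41 1 (.thr 9 25 (.thr 40 43 (.thr 56 24 (.dbl 11 10 26)))))))) (.rp 57 (.thr 37 5 (.thr 52 54 (.thr 48 58 (.thr 56 60 (.thr 40 24 (.thr 41 43 (.dbl 26 11 15))))))) (.rp 54 (.thr 37 5 (.thr 47 32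 (.thr 48 58 (.thr 15 26 (.thr 39 27 (.thr 43 35 (.dbl 23 3 7))))))) (.rp 52 (.thr 37 5 (.thr 47 32 (.thr 48 58 (.thr 15 26 (.thr 39 27 (.thr 43 35 (.dbl 23 3 7))))))) (.rp 50 (.thr 37 5 (.thr 47 32 (.thr 48 58 (.thr 15 26 (.thr 39 27 (.thr 43 35 (.dbl 23 3 7))))))) (.rp 49 (.thr 58 48 (.thr 54 52 (.thr 60 57 (.dbl 62 50 61)))) (.rp 48 (.thr 37 5 (.thr 32 47 (.thr 54 52 (.thr 60 57 (.thr 61 62 (.thr 41 1 (.thr 33 45 (.thr 43 40 (.thr 3 23 (.dbl 35 19 34)))))))))) .nd)))))))))))) .nd))))))))) (.rp 8 (.thr 51 59 (.thr 38 4 (.thr 12 25 (.dbl 46 29 34)))) (.rp 4 (.thr 51 59 (.str 53 (.nv (.thr 54 52 (.thr 48 58 (.thr 57 60 (.dbl 49 50 61)))) (.nv (.thr 37 5 (.thr 48 58 (.thr 49 50 (.thr 25 13 (.thr 12 38 (.dbl 29 17 46)))))) (.nv (.thr 48 58 (.thr 49 50 (.thr 57 61 (.dbl 54 52 60))))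 (.rp 58 (.thr 54 52 (.thr 57 60 (.thr 49 61 (.thr 37 5 (.thr 25 13 (.thr 29 17 (.dbl 12 38 46))))))) (.rp 57 (.thr 54 52 (.thr 58 48 (.thr 50 62 (.thr 26 10 (.thr 38 14 (.thr 46 34 (.dbl 12 25 29))))))) (.rp 54 (.thr 48 58 (.thr 37 5 (.thr 47 32 (.thr 15 26 (.thr 39 27 (.thr 43 35 (.dbl 23 3 7))))))) (.rp 50 (.thr 54 52 (.thr 57 60 (.thr 49 61 (.thr 37 5 (.thr 25 13 (.thr 29 17 (.dbl 12 38 46))))))) (.rp 49 (.thr 54 52 (.thr 60 57 (.thr 58 48 (.dbl 62 50 61)))) (.rp 48 (.thr 54 52 (.thr 60 57 (.thr 61 62 (.thr 41 1 (.thr 40 43 (.thr 37 5 (.thr 33 45 (.thr 32 47 (.thr 35 34 (.dbl 44 36 38)))))))))) (.rp 12 (.str 8 (.nv (.thr 54 52 (.thr 48 58 (.thr 57 60 (.dbl 49 50 61)))) (.nv (.thr 48 58 (.thr 49 50 (.thr 57 61 (.dbl 54 52 60)))) (.rp 61 (.thr 37 5 (.thr 47 32 (.thr 48 58 (.thr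 15 26 (.thr 39 27 (.thr 43 35 (.dbl 23 3 7))))))) (.rp 60 (.thr 37 5 (.thr 47 32 (.thr 48 58 (.thr 15 26 (.thr 39 27 (.thr 43 35 (.dbl 23 3 7))))))) (.rp 58 (.thr 54 52 (.thr 57 60 (.thr 61 49 (.thr 41 1 (.thr 9 25 (.thr 40 43 (.thr 56 24 (.dbl 11 10 26)))))))) (.rp 57 (.thr 37 5 (.thr 52 54 (.thr 48 58 (.thr 56 60 (.thr 40 24 (.thr 41 43 (.dbl 26 11 15))))))) (.rp 54 (.thr 37 5 (.thr 47 32 (.thr 48 58 (.thr 15 26 (.thr 39 27 (.thr 43 35 (.dbl 23 3 7))))))) (.rp 52 (.thr 37 5 (.thr 47 32 (.thr 48 58 (.thr 15 26 (.thr 39 27 (.thr 43 35 (.dbl 23 3 7))))))) (.rp 50 (.thr 37 5 (.thr 47 32 (.thr 48 58 (.thr 15 26 (.thr 39 27 (.thr 43 35 (.dbl 23 3 7))))))) (.rp 49 (.thr 58 48 (.thr 54 52 (.thr 60 57 (.dbl 62 50 61)))) (.rp 48 (.thr 37 5 (.thr 32 47 (.thr 54 52 (.thr 60 57 (.thr 61 62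 (.thr 41 1 (.thr 33 45 (.thr 43 40 (.thr 3 23 (.dbl 35 19 34)))))))))) .nd)))))))))))) (.rp 8 (.str 12 (.nv (.thr 48 58 (.thr 49 50 (.thr 54 52 (.dbl 57 60 61)))) (.nv (.thr 29 46 (.dbl 25 17 38)) .nd))) .nd))))))))))))) .nd))))))))))))

theorem w442 : WinAt (9223376434903384064, 2151677953) :=
  chF (K := []) kn c442 9223376434903384064 2151677953 0
    [] (by decide +kernel) (by decide +kernel)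

/-- A certificate. -/
noncomputable def c443 : Ct := (.str 12 (.nv (.thr 8 4 (.thr 25 59 (.thr 51 38 (.dbl 17 29 34)))) (.nv (.thr 4 8 (.thr 38 55 (.thr 34 46 (.dbl 51 17 25)))) (.rp 59 (.thr 4 8 (.thr 38 55 (.thr 51 25 (.dbl 34 17 46)))) (.rp 51 (.thr 4 8 (.str 5 (.nv (.thr 55 38 (.thr 6 7 (.thr 3 9 (.thr 10 15 (.dbl 2 1 14))))) (.nv (.thr 15 10 (.thr 37 53 (.thr 48 26 (.thr 36 24 (.dbl 38 39 55))))) (.nv (.thr 15 10 (.thr 13 14 (.thr 9 1 (.dbl 6 3 7)))) (.rp 55 (.str 59 (.nv (.thr 6 7 (.thr 3 9 (.thr 10 15 (.dbl 2 1 14)))) (.nv (.thr 15 10 (.thr 13 14 (.thr 9 1 (.dbl 6 3 7)))) (.rp 15 (.thr 37 53 (.thr 6 7 (.thr 3 9 (.thr 1 2 (.thr 41 61 (.thr 33 45 (.thr 40 43 (.thr 48 18 (.thr 36 24 (.dbl 20 52 60)))))))))) (.rp 14 (.thr 6 7 (.thr 9 3 (.thr 1 13 (.thr 41 61 (.thr 57 25 (.thr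 58 56 (.dbl 10 15 26))))))) (.rp 10 (.thr 6 7 (.thr 9 3 (.thr 1 13 (.thr 41 61 (.thr 57 25 (.thr 43 40 (.thr 11 27 (.dbl 56 26 58)))))))) (.rp 9 (.thr 37 53 (.thr 7 6 (.thr 15 10 (.thr 11 3 (.thr 43 27 (.thr 41 40 (.dbl 26 48 56))))))) (.rp 7 (.thr 37 53 (.thr 15 10 (.thr 13 14 (.thr 25 49 (.thr 29 17 (.thr 61 45 (.dbl 1 9 41))))))) (.rp 6 (.thr 37 53 (.thr 15 10 (.thr 48 26 (.thr 36 24 (.thr 52 20 (.thr 14 13 (.thr 38 39 (.thr 46 34 (.thr 30 62 (.dbl 60 45 56)))))))))) (.rp 3 (.thr 37 53 (.thr 15 10 (.thr 13 14 (.thr 25 49 (.thr 29 17 (.thr 61 45 (.dbl 1 9 41))))))) (.rp 2 (.thr 15 10 (.thr 13 14 (.thr 6 7 (.dbl 9 1 3)))) (.rp 1 (.thr 37 53 (.thr 15 10 (.thr 7 6 (.thr 11 3 (.thr 43 27 (.thr 41 40 (.dbl 26 48 56))))))) .nd)))))))))))) (.rp 15 (.thr 6 7 (.thr 3 9 (.thr 1 2 (.thr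 41 61 (.thr 40 43 (.thr 60 20 (.thr 44 28 (.dbl 38 35 55)))))))) (.rp 10 (.thr 6 7 (.thr 9 3 (.thr 13 1 (.thr 15 14 (.thr 37 53 (.thr 48 26 (.thr 36 24 (.dbl 38 39 55)))))))) (.rp 9 (.thr 6 7 (.thr 10 15 (.thr 14 2 (.thr 26 58 (.dbl 38 50 55))))) .nd))))))))) (.rp 38 (.thr 8 4 (.str 56 (.nv (.thr 25 59 (.thr 40 24 (.thr 41 43 (.thr 1 61 (.thr 3 2 (.dbl 9 6 57)))))) (.nv (.thr 24 40 (.thr 25 59 (.thr 26 27 (.thr 10 58 (.thr 15 5 (.dbl 48 36 37)))))) (.nv (.thr 40 24 (.thr 41 43 (.thr 26 11 (.thr 58 10 (.dbl 59 25 57))))) (.rp 59 (.thr 40 24 (.thr 41 43 (.thr 1 61 (.thr 11 26 (.thr 9 10 (.dbl 3 2 6)))))) (.rp 54 (.str 6 (.nv (.thr 3 9 (.thr 2 1 (.thr 10 14 (.thr 24 40 (.thr 25 59 (.dbl 26 27 58)))))) (.nv (.thr 9 3 (.thr 10 11 (.thr 58 26 (.dbl 59 25 57)))) (.nv (.thr 3 9 (.thr 1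 2 (.thr 40 24 (.dbl 41 43 61)))) (.rp 9 (.thr 40 24 (.thr 59 25 (.thr 58 57 (.thr 41 43 (.dbl 26 10 11))))) (.rp 3 (.thr 24 40 (.thr 25 59 (.thr 26 27 (.thr 10 58 (.dbl 11 9 41))))) .nd)))))) (.rp 43 (.thr 24 40 (.thr 25 59 (.thr 26 27 (.thr 11 41 (.dbl 10 9 58))))) (.rp 40 (.thr 59 25 (.thr 58 57 (.thr 10 26 (.thr 5 15 (.thr 9 11 (.thr 1 13 (.dbl 3 2 6))))))) (.rp 27 (.thr 40 24 (.thr 25 59 (.thr 41 43 (.thr 11 26 (.dbl 9 10 57))))) (.rp 25 (.thr 40 24 (.thr 60 20 (.thr 41 43 (.thr 26 11 (.thr 10 58 (.thr 15 5 (.dbl 48 37 52))))))) (.rp 24 (.thr 59 25 (.thr 58 57 (.thr 26 10 (.thr 31 16 (.thr 41 11 (.thr 40 43 (.thr 60 20 (.thr 28 44 (.thr 30 29 (.thr 15 45 (.dbl 48 37 52))))))))))) (.rp 11 (.thr 40 24 (.thr 60 20 (.thr 52 48 (.thr 59 25 (.thr 41 43 (.thr 61 1 (.thr 57 58 (.thr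 53 49 (.dbl 54 51 55))))))))) (.rp 6 (.str 54 (.nv (.thr 40 24 (.thr 41 43 (.thr 11 26 (.thr 9 10 (.dbl 25 57 59))))) (.nv (.thr 40 24 (.thr 60 20 (.thr 57 51 (.dbl 59 25 58)))) (.rp 59 (.thr 40 24 (.thr 60 20 (.thr 41 43 (.thr 11 26 (.thr 9 10 (.dbl 57 25 51)))))) (.rp 57 (.thr 24 40 (.thr 25 59 (.thr 26 27 (.thr 10 58 (.dbl 11 9 41))))) (.rp 40 (.thr 25 59 (.thr 17 29 (.thr 51 34 (.thr 60 57 (.thr 48 52 (.thr 50 49 (.thr 58 62 (.thr 26 10 (.dbl 24 27 36))))))))) (.rp 25 (.thr 40 24 (.thr 60 20 (.thr 57 51 (.thr 41 43 (.thr 26 11 (.dbl 58 10 59)))))) (.rp 24 (.thr 59 25 (.thr 57 58 (.thr 60 51 (.thr 52 48 (.thr 53 55 (.thr 40 20 (.thr 41 43 (.dbl 61 1 49)))))))) (.rp 7 (.str 5 (.nv (.thr 40 24 (.thr 60 20 (.thr 52 48 (.dbl 53 37 55)))) (.nv (.thr 10 15 (.thr 11 9 (.dbl 26 41 58)))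 (.rp 52 (.thr 37 53 (.thr 24 40 (.thr 15 10 (.dbl 48 26 36)))) (.rp 37 (.str 52 (.nv (.thr 59 25 (.thr 58 57 (.dbl 10 15 26))) (.nv (.thr 40 24 (.dbl 60 20 48)) (.rp 39 (.str 36 (.nv (.thr 59 25 (.thr 58 57 (.dbl 10 15 26))) (.nv (.dbl 48 24 60) (.rp 55 (.str 23 (.nv (.thr 59 25 (.thr 58 57 (.dbl 10 15 26))) (.nv (.dbl 24 40 48) (.rp 59 (.str 51 (.nv (.dbl 60 48 57) (.nv (.dbl 24 40 48) (.rp 48 (.thr 40 24 (.dbl 60 20 57)) .nd)))) .nd)))) (.rp 23 (.thr 55 53 (.dbl 48 24 60)) .nd))))) (.rp 36 (.str 39 (.nv (.thr 59 25 (.thr 58 57 (.dbl 10 15 26))) (.nv (.thr 40 24 (.dbl 60 20 48)) (.rp 40 (.str 44 (.nv (.thr 10 15 (.thr 11 9 (.dbl 26 41 58))) (.nv (.dbl 60 28 48) (.rp 48 (.thr 60 28 (.thr 15 10 (.dbl 51 27 57))) .nd)))) .nd)))) .nd))))) .nd))))) (.rp 5 (.str 7 (.nv (.thr 40 24 (.thr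 41 43 (.thr 1 61 (.thr 3 2 (.dbl 11 15 26))))) (.nv (.thr 40 24 (.thr 60 20 (.thr 57 51 (.dbl 59 25 58)))) (.rp 60 (.thr 24 40 (.thr 25 59 (.thr 26 27 (.thr 10 58 (.dbl 11 9 41))))) (.rp 40 (.thr 25 59 (.thr 17 29 (.thr 51 34 (.thr 57 60 (.thr 41 9 (.thr 11 26 (.thr 3 15 (.dbl 1 2 61)))))))) (.rp 24 (.thr 59 25 (.thr 57 58 (.thr 60 51 (.thr 52 48 (.thr 53 55 (.thr 40 20 (.thr 41 43 (.dbl 61 1 49)))))))) .nd)))))) .nd)))))))))) .nd)))))))))))))) (.rp 34 (.thr 8 4 (.str 28 (.nv (.thr 25 59 (.thr 29 17 (.thr 30 31 (.thr 60 44 (.thr 40 20 (.thr 41 43 (.thr 61 1 (.dbl 45 13 15)))))))) (.nv (.thr 25 59 (.thr 29 17 (.thr 31 30 (.thr 26 16 (.thr 10 58 (.thr 15 5 (.thr 13 14 (.dbl 37 48 49)))))))) (.nv (.thr 60 44 (.thr 40 20 (.thr 56 24 (.thr 41 43 (.thr 26 11 (.thr 59 25 (.dbl 58 10 57)))))))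 (.rp 59 (.thr 60 44 (.thr 40 20 (.thr 56 24 (.thr 41 43 (.thr 1 61 (.thr 11 26 (.thr 9 10 (.dbl 3 2 6)))))))) (.rp 35 (.str 33 (.nv (.thr 60 44 (.thr 40 20 (.thr 25 59 (.thr 51 38 (.thr 41 43 (.dbl 57 9 54)))))) (.nv (.thr 25 59 (.thr 17 29 (.thr 1 49 (.thr 3 2 (.thr 18 48 (.thr 16 19 (.thr 26 31 (.dbl 24 20 27)))))))) (.nv (.thr 60 44 (.thr 40 20 (.thr 25 59 (.thr 17 29 (.thr 1 49 (.dbl 41 43 61)))))) (.rp 59 (.thr 60 44 (.thr 40 20 (.thr 56 24 (.thr 41 43 (.thr 1 61 (.thr 3 2 (.dbl 48 18 52))))))) (.rp 51 (.thr 60 44 (.thr 40 20 (.thr 41 43 (.thr 1 61 (.thr 17 49 (.dbl 25 29 59)))))) (.rp 25 (.thr 60 44 (.thr 40 20 (.thr 56 24 (.thr 41 43 (.thr 37 45 (.thr 26 11 (.dbl 48 15 52))))))) (.rp 20 (.thr 25 59 (.thr 17 29 (.thr 1 49 (.thr 41 61 (.thr 3 2 (.dbl 9 6 57)))))) .nd))))))))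 (.rp 33 (.str 35 (.nv (.thr 44 60 (.thr 25 59 (.dbl 38 41 51))) (.rp 62 (.thr 60 44 (.thr 40 20 (.thr 41 43 (.thr 25 59 (.thr 57 9 (.dbl 51 38 54)))))) (.rp 61 (.thr 60 44 (.thr 40 20 (.thr 41 43 (.thr 25 59 (.thr 57 9 (.dbl 51 38 54)))))) (.rp 60 (.thr 25 59 (.thr 29 17 (.thr 31 30 (.thr 26 16 (.thr 27 24 (.thr 19 23 (.dbl 51 3 38))))))) (.rp 59 (.thr 60 44 (.thr 40 20 (.thr 41 43 (.thr 1 61 (.thr 3 2 (.thr 9 6 (.thr 5 13 (.dbl 10 11 15)))))))) (.rp 55 (.thr 60 44 (.thr 40 20 (.thr 41 43 (.thr 25 59 (.thr 51 38 (.dbl 57 9 54)))))) (.rp 51 (.thr 44 60 (.thr 41 38 (.thr 43 40 (.thr 59 25 (.thr 11 27 (.thr 10 9 (.dbl 26 56 58))))))) (.rp 44 (.thr 25 59 (.thr 51 38 (.thr 3 19 (.thr 1 2 (.thr 41 61 (.dbl 9 6 57)))))) (.rp 41 (.thr 60 44 (.thr 40 20 (.thr 25 59 (.thr 29 17 (.thr 31 30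 (.thr 26 16 (.dbl 24 27 56))))))) (.rp 38 (.thr 60 44 (.thr 40 20 (.thr 41 43 (.thr 1 61 (.thr 3 2 (.thr 25 59 (.dbl 9 6 57))))))) (.rp 25 (.thr 60 44 (.thr 40 20 (.thr 41 43 (.thr 1 61 (.thr 3 2 (.thr 9 6 (.thr 10 11 (.dbl 5 13 15)))))))) (.rp 3 (.thr 44 60 (.thr 41 38 (.thr 43 40 (.thr 59 25 (.thr 11 27 (.thr 10 9 (.dbl 26 56 58))))))) .nd))))))))))))) (.rp 25 (.thr 60 44 (.thr 40 20 (.thr 56 24 (.thr 41 43 (.thr 1 61 (.thr 3 2 (.thr 9 6 (.dbl 11 10 26)))))))) .nd))))))))) (.rp 25 (.str 37 (.nv (.thr 4 8 (.thr 38 55 (.thr 36 39 (.thr 5 53 (.thr 48 24 (.dbl 15 10 26)))))) (.nv (.thr 5 53 (.thr 15 10 (.thr 13 14 (.thr 4 8 (.thr 9 1 (.dbl 6 3 7)))))) (.rp 53 (.thr 4 8 (.thr 38 55 (.thr 39 36 (.thr 34 46 (.thr 51 17 (.thr 15 27 (.thr 14 13 (.dbl 26 48 50)))))))) (.rp 48 (.thr 4 8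 (.thr 38 55 (.thr 39 36 (.thr 34 46 (.thr 51 17 (.thr 15 27 (.dbl 5 10 53))))))) (.rp 28 (.str 19 (.nv (.thr 4 8 (.thr 5 53 (.thr 6 7 (.thr 38 55 (.thr 34 46 (.thr 51 17 (.dbl 3 9 35))))))) (.nv (.thr 4 8 (.thr 38 55 (.thr 36 39 (.thr 5 53 (.thr 48 24 (.dbl 15 10 26)))))) (.nv (.thr 5 53 (.thr 15 10 (.thr 13 14 (.thr 9 1 (.thr 4 8 (.dbl 6 3 7)))))) (.rp 53 (.thr 4 8 (.thr 38 55 (.thr 34 46 (.thr 39 36 (.thr 51 17 (.thr 15 27 (.thr 14 13 (.dbl 26 48 50)))))))) (.rp 48 (.thr 4 8 (.thr 38 55 (.thr 34 46 (.thr 39 36 (.thr 51 17 (.thr 15 27 (.dbl 5 10 53))))))) (.rp 8 (.thr 5 53 (.thr 15 10 (.thr 13 14 (.thr 9 1 (.thr 6 3 (.thr 4 7 (.thr 38 55 (.thr 48 26 (.dbl 36 24 39))))))))) (.rp 7 (.thr 4 8 (.thr 38 55 (.thr 5 53 (.thr 15 10 (.thr 14 13 (.dbl 26 48 50)))))) (.rp 5 (.thr 4 8 (.thr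 38 55 (.thr 34 46 (.thr 39 36 (.thr 51 17 (.thr 15 27 (.thr 14 13 (.dbl 26 48 50)))))))) (.rp 4 (.thr 5 53 (.thr 15 10 (.thr 13 14 (.thr 1 9 (.thr 41 61 (.thr 45 33 (.thr 40 43 (.dbl 60 20 30)))))))) .nd)))))))))) (.rp 19 (.str 28 (.nv (.thr 60 44 (.thr 40 20 (.thr 41 43 (.thr 45 33 (.thr 15 30 (.dbl 5 10 53)))))) (.nv (.thr 4 8 (.thr 5 53 (.thr 6 7 (.thr 3 9 (.thr 2 1 (.dbl 10 14 15)))))) (.nv (.thr 60 44 (.thr 4 8 (.thr 20 40 (.thr 36 52 (.dbl 24 16 48))))) .nd)))) (.rp 15 (.thr 4 8 (.thr 38 55 (.thr 36 39 (.thr 20 52 (.thr 60 40 (.thr 28 44 (.dbl 24 16 48))))))) (.rp 10 (.thr 4 8 (.thr 38 55 (.thr 36 39 (.thr 20 52 (.thr 60 40 (.thr 28 44 (.dbl 24 16 48))))))) (.rp 8 (.thr 5 53 (.thr 15 10 (.thr 13 14 (.thr 9 1 (.thr 6 3 (.thr 4 7 (.thr 38 55 (.thr 48 26 (.dbl 36 24 39)))))))))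 (.rp 7 (.thr 4 8 (.thr 38 55 (.thr 5 53 (.thr 15 10 (.thr 14 13 (.dbl 26 48 50)))))) (.rp 5 (.thr 4 8 (.thr 38 55 (.thr 36 39 (.thr 20 52 (.thr 60 40 (.thr 28 44 (.dbl 24 16 48))))))) (.rp 4 (.thr 5 53 (.thr 15 10 (.thr 13 14 (.thr 1 9 (.thr 41 61 (.thr 40 43 (.thr 45 33 (.dbl 60 20 30)))))))) .nd))))))))))))) (.rp 17 (.str 60 (.nv (.thr 4 8 (.thr 38 55 (.thr 40 20 (.thr 41 43 (.dbl 44 28 35))))) (.nv (.thr 8 4 (.thr 25 59 (.thr 40 20 (.thr 41 43 (.thr 51 38 (.dbl 57 9 54)))))) (.nv (.thr 28 44 (.thr 4 8 (.thr 20 40 (.thr 36 52 (.dbl 24 16 48))))) (.rp 40 (.thr 44 28 (.thr 4 8 (.thr 38 55 (.thr 41 35 (.thr 1 61 (.thr 3 2 (.thr 9 6 (.dbl 25 51 57)))))))) (.rp 20 (.thr 44 28 (.thr 4 8 (.thr 38 55 (.thr 41 35 (.thr 1 61 (.thr 3 2 (.thr 9 6 (.dbl 25 51 57)))))))) (.rp 8 (.thr 44 28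 (.thr 40 20 (.thr 41 43 (.thr 1 61 (.thr 38 35 (.thr 25 51 (.thr 9 57 (.dbl 3 2 6)))))))) (.rp 4 (.thr 44 28 (.thr 40 20 (.thr 41 43 (.thr 1 61 (.thr 38 35 (.thr 25 51 (.thr 9 57 (.dbl 3 2 6)))))))) .nd)))))))) (.rp 8 (.str 15 (.nv (.thr 5 10 (.thr 13 14 (.thr 9 1 (.thr 6 3 (.thr 4 7 (.thr 38 55 (.thr 34 46 (.dbl 51 17 25)))))))) (.nv (.thr 5 10 (.thr 13 14 (.thr 37 53 (.thr 25 49 (.thr 29 17 (.thr 61 45 (.dbl 1 9 41))))))) (.nv (.thr 10 5 (.thr 26 58 (.thr 48 37 (.thr 24 36 (.thr 25 27 (.thr 17 29 (.dbl 51 34 38))))))) (.nv (.thr 14 13 (.thr 10 5 (.thr 26 58 (.thr 38 50 (.thr 34 46 (.dbl 51 17 25)))))) (.rp 25 (.thr 14 13 (.thr 10 5 (.thr 26 58 (.thr 38 50 (.thr 34 46 (.thr 51 17 (.thr 39 27 (.dbl 37 36 48)))))))) (.rp 17 (.thr 13 14 (.thr 5 10 (.thr 37 53 (.thr 25 49 (.thr 38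 51 (.thr 36 39 (.dbl 48 24 26))))))) (.rp 10 (.thr 14 13 (.str 46 (.nv (.thr 30 62 (.thr 38 34 (.thr 26 50 (.thr 31 16 (.thr 28 29 (.dbl 60 44 45)))))) (.nv (.thr 38 34 (.thr 25 51 (.thr 26 50 (.thr 24 27 (.dbl 48 36 37))))) (.nv (.thr 30 62 (.thr 60 45 (.thr 28 44 (.thr 29 31 (.thr 25 17 (.dbl 38 34 51)))))) (.rp 38 (.thr 30 62 (.thr 60 45 (.thr 28 44 (.thr 29 31 (.thr 25 17 (.thr 40 20 (.thr 41 43 (.thr 1 61 (.thr 3 2 (.dbl 9 6 57)))))))))) (.rp 34 (.thr 30 62 (.thr 60 45 (.thr 28 44 (.thr 29 31 (.thr 25 17 (.thr 40 20 (.thr 41 43 (.thr 51 38 (.dbl 57 9 54))))))))) (.rp 11 (.str 9 (.nv (.thr 38 34 (.thr 25 51 (.thr 26 50 (.thr 48 37 (.dbl 24 27 36))))) (.nv (.thr 3 6 (.thr 1 2 (.thr 30 62 (.thr 60 45 (.thr 40 20 (.dbl 41 43 61)))))) (.rp 38 (.thr 30 62 (.thr 60 45 (.thr 28 44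 (.thr 29 31 (.thr 25 17 (.thr 40 20 (.dbl 41 43 57))))))) (.rp 2 (.thr 38 34 (.thr 51 25 (.thr 39 27 (.thr 37 36 (.dbl 26 48 50))))) .nd))))) (.rp 9 (.str 11 (.nv (.thr 30 62 (.thr 34 38 (.thr 17 51 (.thr 60 45 (.thr 28 44 (.dbl 29 25 31)))))) (.nv (.thr 38 34 (.thr 25 51 (.thr 26 50 (.thr 24 27 (.dbl 48 36 37))))) (.nv (.thr 3 7 (.thr 1 2 (.thr 30 62 (.thr 60 45 (.thr 40 20 (.dbl 41 43 61)))))) (.rp 5 (.str 1 (.nv (.thr 38 34 (.thr 41 61 (.dbl 26 50 56))) (.nv (.dbl 3 2 7) .nd))) (.rp 1 (.str 5 (.nv (.thr 7 3 (.thr 4 6 (.dbl 38 34 55))) (.nv (.thr 37 53 (.thr 38 34 (.dbl 26 48 50))) (.rp 38 (.thr 3 7 (.thr 30 62 (.thr 37 53 (.thr 48 26 (.thr 33 18 (.dbl 45 41 60)))))) (.rp 34 (.thr 7 3 (.thr 4 6 (.thr 38 55 (.thr 37 53 (.dbl 26 48 50))))) .nd))))) .nd)))))) .nd))))))))) (.rp 5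 (.str 45 (.nv (.thr 60 30 (.thr 40 20 (.thr 41 43 (.thr 44 28 (.thr 38 35 (.dbl 46 34 47)))))) (.nv (.thr 13 14 (.thr 29 61 (.thr 25 17 (.thr 37 49 (.thr 26 48 (.thr 51 38 (.dbl 27 24 39))))))) (.nv (.thr 13 14 (.thr 61 29 (.thr 41 1 (.thr 40 43 (.dbl 60 20 30))))) (.rp 60 (.thr 13 14 (.thr 61 29 (.thr 41 1 (.thr 37 33 (.thr 48 26 (.thr 36 24 (.thr 38 39 (.dbl 25 49 51)))))))) (.rp 29 (.thr 13 14 (.thr 60 30 (.thr 40 20 (.thr 41 43 (.thr 37 33 (.thr 25 49 (.thr 57 9 (.dbl 51 38 54)))))))) .nd)))))) .nd))))))))) (.rp 4 (.str 5 (.nv (.thr 15 10 (.thr 13 14 (.thr 1 9 (.thr 37 53 (.thr 41 61 (.thr 33 45 (.thr 48 26 (.dbl 3 2 18)))))))) (.nv (.thr 15 10 (.thr 13 14 (.thr 1 9 (.thr 61 41 (.thr 29 45 (.thr 25 17 (.dbl 37 49 53))))))) (.nv (.thr 15 10 (.thr 37 53 (.thr 48 26 (.thr 36 24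 (.thr 38 39 (.thr 34 46 (.dbl 51 17 25))))))) (.rp 53 (.thr 15 10 (.thr 13 14 (.thr 1 9 (.thr 41 61 (.thr 40 43 (.thr 60 20 (.thr 45 30 (.thr 44 28 (.thr 46 47 (.dbl 38 34 35)))))))))) (.rp 37 (.thr 15 10 (.thr 13 14 (.thr 1 9 (.thr 41 61 (.thr 40 43 (.thr 60 20 (.thr 45 30 (.thr 44 28 (.thr 46 47 (.dbl 38 34 35)))))))))) (.rp 15 (.str 13 (.nv (.thr 1 9 (.thr 61 41 (.thr 29 45 (.thr 25 17 (.dbl 37 49 53))))) (.nv (.thr 1 9 (.thr 37 53 (.thr 41 61 (.thr 49 25 (.dbl 33 17 45))))) (.nv (.thr 37 53 (.thr 25 49 (.thr 17 29 (.dbl 51 34 38)))) (.rp 61 (.thr 9 1 (.thr 37 53 (.thr 25 49 (.thr 57 41 (.thr 17 29 (.dbl 51 34 38)))))) (.rp 53 (.thr 1 9 (.thr 41 61 (.thr 40 43 (.thr 60 20 (.thr 44 28 (.thr 38 35 (.thr 34 46 (.dbl 51 17 25)))))))) (.rp 49 (.thr 1 9 (.thr 41 61 (.thr 40 43 (.thr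 60 20 (.thr 44 28 (.thr 38 35 (.thr 34 46 (.dbl 51 17 25)))))))) (.rp 47 (.str 31 (.nv (.thr 1 9 (.thr 61 41 (.thr 29 45 (.thr 25 17 (.dbl 37 49 53))))) (.nv (.thr 9 1 (.thr 26 16 (.thr 10 58 (.thr 8 11 (.thr 25 59 (.dbl 37 49 53)))))) (.nv (.thr 37 53 (.thr 25 49 (.thr 17 29 (.dbl 51 34 38)))) (.rp 57 (.thr 1 9 (.thr 41 61 (.thr 37 53 (.thr 49 25 (.dbl 33 17 45))))) (.rp 53 (.thr 1 9 (.thr 26 16 (.thr 41 61 (.thr 40 43 (.thr 58 10 (.thr 56 11 (.thr 8 24 (.dbl 59 25 57)))))))) (.rp 49 (.thr 9 1 (.thr 26 16 (.thr 10 58 (.thr 8 11 (.thr 25 59 (.thr 17 29 (.dbl 51 34 38))))))) (.rp 37 (.thr 9 1 (.thr 26 16 (.thr 10 58 (.thr 8 11 (.thr 25 59 (.thr 17 29 (.dbl 51 34 38))))))) (.rp 25 (.thr 1 9 (.thr 26 16 (.thr 41 61 (.thr 40 43 (.thr 60 20 (.thr 10 58 (.thr 56 11 (.thr 24 8 (.dbl 48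 36 52))))))))) .nd))))))))) (.rp 37 (.thr 1 9 (.thr 41 61 (.thr 40 43 (.thr 60 20 (.thr 44 28 (.thr 38 35 (.thr 34 46 (.dbl 51 17 25)))))))) (.rp 31 (.str 47 (.nv (.thr 1 9 (.thr 61 41 (.thr 29 45 (.thr 25 17 (.dbl 37 49 53))))) (.nv (.thr 1 9 (.thr 37 53 (.thr 41 61 (.thr 49 25 (.dbl 33 17 45))))) (.nv (.thr 37 53 (.thr 25 49 (.thr 17 29 (.dbl 51 34 38)))) (.nv (.thr 1 9 (.thr 37 53 (.thr 25 49 (.thr 29 17 (.dbl 61 41 45))))) (.rp 61 (.thr 9 1 (.thr 37 53 (.thr 25 49 (.thr 57 41 (.thr 17 29 (.dbl 51 34 38)))))) (.rp 53 (.thr 1 9 (.thr 3 2 (.thr 41 61 (.thr 43 40 (.thr 35 39 (.thr 51 19 (.dbl 38 25 44))))))) (.rp 49 (.thr 1 9 (.thr 3 2 (.thr 41 61 (.thr 43 40 (.thr 35 39 (.thr 51 19 (.dbl 38 25 44))))))) (.rp 37 (.thr 1 9 (.thr 3 2 (.thr 41 61 (.thr 43 40 (.thr 35 39 (.thr 51 19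 (.dbl 38 25 44))))))) (.rp 25 (.thr 1 9 (.thr 41 61 (.thr 43 40 (.thr 35 39 (.thr 44 38 (.thr 45 46 (.dbl 37 33 53))))))) (.rp 17 (.thr 1 9 (.thr 3 2 (.thr 41 61 (.thr 43 40 (.thr 35 39 (.thr 51 19 (.dbl 38 25 44))))))) .nd))))))))))) (.rp 25 (.thr 1 9 (.thr 3 2 (.thr 41 61 (.thr 40 43 (.thr 37 53 (.thr 33 45 (.thr 48 18 (.thr 24 36 (.thr 56 8 (.dbl 60 20 52)))))))))) (.rp 17 (.thr 1 9 (.thr 41 61 (.thr 40 43 (.thr 60 20 (.thr 44 28 (.thr 38 35 (.thr 37 53 (.dbl 25 49 51)))))))) .nd)))))))))))) (.rp 10 (.str 15 (.nv (.thr 13 14 (.thr 1 9 (.thr 37 53 (.thr 41 61 (.thr 33 45 (.thr 48 26 (.dbl 3 2 18))))))) (.nv (.thr 13 14 (.thr 1 9 (.thr 61 41 (.thr 29 45 (.thr 25 17 (.dbl 37 49 53)))))) (.nv (.thr 37 53 (.thr 48 26 (.thr 36 24 (.thr 38 39 (.thr 34 46 (.dbl 51 17 25)))))) (.rp 53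 (.thr 13 14 (.thr 1 9 (.thr 41 61 (.thr 40 43 (.thr 60 20 (.thr 45 30 (.thr 44 28 (.thr 46 47 (.dbl 38 34 35))))))))) (.rp 37 (.thr 13 14 (.thr 1 9 (.thr 41 61 (.thr 40 43 (.thr 60 20 (.thr 45 30 (.thr 44 28 (.thr 46 47 (.dbl 38 34 35))))))))) .nd)))))) .nd)))))))) .nd)))))))))))

theorem w443 : WinAt (4398048608257, 9223372041153937408) :=
  chF (K := []) kn c443 4398048608257 9223372041153937408 63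
    [] (by decide +kernel) (by decide +kernel)

/-- A certificate. -/
noncomputable def c444 : Ct := (.str 12 (.nv (.thr 8 4 (.thr 25 59 (.thr 51 38 (.dbl 17 29 34)))) (.nv (.thr 4 8 (.thr 38 55 (.thr 34 46 (.dbl 51 17 25)))) (.rp 59 (.thr 4 8 (.thr 38 55 (.thr 51 25 (.dbl 34 17 46)))) (.rp 51 (.thr 4 8 (.str 5 (.nv (.thr 15 10 (.thr 13 14 (.thr 9 1 (.dbl 6 3 7)))) (.nv (.thr 37 53 (.thr 32 47 (.thr 48 16 (.dbl 15 10 26)))) (.rp 59 (.thr 55 38 (.thr 6 7 (.thr 9 3 (.thr 13 1 (.dbl 15 10 14))))) (.rp 55 (.str 59 (.nv (.thr 15 10 (.thr 13 14 (.thr 9 1 (.dbl 6 3 7)))) (.nv (.thr 37 53 (.thr 32 47 (.thr 48 16 (.dbl 15 10 26)))) (.rp 15 (.thr 37 53 (.thr 6 7 (.thr 3 9 (.thr 1 2 (.thr 41 61 (.thr 40 43 (.thr 60 20 (.thr 44 28 (.dbl 32 36 47))))))))) (.rp 10 (.thr 37 53 (.thr 32 47 (.thr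 48 16 (.thr 36 24 (.thr 40 44 (.dbl 20 52 60)))))) .nd))))) (.rp 15 (.thr 6 7 (.thr 3 9 (.thr 1 2 (.thr 41 61 (.thr 40 43 (.thr 60 20 (.thr 44 28 (.dbl 38 35 55)))))))) (.rp 10 (.thr 37 53 (.thr 32 47 (.thr 48 16 (.thr 36 24 (.dbl 38 39 55))))) .nd)))))))) (.rp 38 (.str 6 (.nv (.thr 3 9 (.thr 2 1 (.thr 10 14 (.thr 26 58 (.thr 16 31 (.thr 48 32 (.dbl 15 5 37))))))) (.nv (.thr 8 4 (.thr 9 3 (.thr 10 11 (.thr 15 5 (.dbl 14 2 13))))) (.nv (.thr 4 8 (.thr 5 7 (.thr 37 53 (.thr 32 47 (.thr 48 16 (.dbl 15 10 26)))))) (.nv (.thr 4 8 (.thr 5 7 (.thr 10 15 (.thr 3 9 (.dbl 2 1 14))))) (.rp 15 (.thr 9 3 (.thr 8 4 (.thr 11 10 (.thr 25 59 (.thr 41 57 (.thr 56 26 (.dbl 40 24 43))))))) (.rp 10 (.thr 9 3 (.thr 4 8 (.thr 5 7 (.thr 13 1 (.thr 15 14 (.thr 37 53 (.thr 32 47 (.dbl 48 16 26)))))))) (.rp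 5 (.thr 9 3 (.thr 8 4 (.thr 11 10 (.thr 25 59 (.thr 41 57 (.thr 56 26 (.dbl 40 24 43))))))) .nd)))))))) (.rp 34 (.str 32 (.nv (.thr 4 8 (.thr 37 47 (.thr 38 55 (.thr 36 39 (.thr 20 52 (.dbl 40 44 60)))))) (.nv (.thr 4 8 (.thr 48 16 (.thr 36 24 (.thr 40 44 (.dbl 20 52 60))))) (.nv (.thr 48 16 (.thr 37 47 (.thr 5 53 (.dbl 15 10 26)))) .nd)))) (.rp 25 (.str 15 (.nv (.thr 4 8 (.thr 14 13 (.thr 38 55 (.thr 26 50 (.thr 16 31 (.dbl 48 32 37)))))) (.nv (.thr 4 8 (.thr 5 10 (.thr 13 14 (.thr 9 1 (.dbl 6 3 7))))) (.nv (.thr 5 10 (.thr 37 53 (.thr 32 47 (.dbl 48 16 26)))) (.rp 28 (.str 19 (.nv (.thr 4 8 (.thr 14 13 (.thr 38 55 (.thr 26 50 (.thr 16 31 (.dbl 48 32 37)))))) (.nv (.thr 4 8 (.thr 5 10 (.thr 13 14 (.thr 9 1 (.dbl 6 3 7))))) (.nv (.thr 5 10 (.thr 37 53 (.thr 32 47 (.dbl 48 16 26))))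 .nd)))) (.rp 19 (.str 28 (.nv (.thr 4 8 (.thr 14 13 (.thr 38 55 (.thr 60 44 (.thr 30 45 (.dbl 46 34 62)))))) (.nv (.thr 5 10 (.thr 37 53 (.thr 32 47 (.dbl 48 16 26)))) (.rp 37 (.thr 13 14 (.thr 5 10 (.thr 9 1 (.thr 6 3 (.dbl 4 7 8))))) .nd)))) .nd)))))) (.rp 17 (.str 1 (.nv (.thr 4 8 (.thr 38 55 (.thr 41 61 (.thr 44 35 (.thr 60 28 (.dbl 40 20 43)))))) (.nv (.thr 3 2 (.thr 9 6 (.thr 5 13 (.thr 8 4 (.dbl 10 11 15))))) (.rp 38 (.thr 3 2 (.thr 8 4 (.thr 25 59 (.thr 41 61 (.dbl 9 6 57))))) (.rp 8 (.thr 3 2 (.thr 9 6 (.thr 5 13 (.thr 37 53 (.thr 32 47 (.thr 48 16 (.dbl 15 10 26))))))) (.rp 4 (.thr 3 2 (.thr 9 6 (.thr 5 13 (.thr 10 15 (.thr 11 8 (.thr 41 61 (.dbl 26 56 58))))))) .nd)))))) (.rp 8 (.str 3 (.nv (.thr 1 2 (.thr 9 6 (.thr 41 61 (.thr 25 57 (.thr 17 29 (.dbl 51 34 38)))))) (.nv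 (.thr 1 2 (.thr 41 61 (.thr 40 43 (.thr 60 20 (.thr 44 28 (.thr 38 35 (.thr 34 46 (.dbl 51 17 25)))))))) (.nv (.thr 9 6 (.thr 1 2 (.thr 5 13 (.thr 37 53 (.thr 32 47 (.thr 48 16 (.dbl 15 10 26))))))) (.rp 38 (.thr 6 9 (.thr 2 1 (.thr 10 14 (.thr 26 58 (.thr 16 31 (.thr 48 32 (.dbl 15 5 37))))))) (.rp 2 (.str 5 (.nv (.thr 37 53 (.thr 32 47 (.thr 48 16 (.dbl 15 10 26)))) (.nv (.thr 6 9 (.thr 7 4 (.dbl 15 10 11))) (.rp 15 (.thr 6 9 (.thr 4 7 (.thr 38 55 (.thr 34 46 (.dbl 51 17 25))))) (.rp 10 (.thr 37 53 (.thr 32 47 (.thr 48 16 (.thr 36 24 (.thr 38 39 (.thr 34 46 (.dbl 51 17 25))))))) .nd))))) (.rp 1 (.str 5 (.nv (.thr 37 53 (.thr 32 47 (.thr 48 16 (.dbl 15 10 26)))) (.nv (.thr 6 9 (.thr 7 4 (.dbl 15 10 11))) (.rp 49 (.str 17 (.nv (.thr 6 9 (.thr 7 4 (.dbl 15 10 11))) (.nv (.thr 25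 29 (.dbl 51 34 38)) .nd))) (.rp 17 (.str 49 (.nv (.thr 37 53 (.thr 25 13 (.thr 51 38 (.thr 48 50 (.dbl 32 16 47))))) (.nv (.thr 6 9 (.thr 7 4 (.dbl 15 10 11))) (.rp 6 (.thr 15 10 (.thr 37 53 (.dbl 13 14 25))) .nd)))) (.rp 15 (.thr 6 9 (.thr 4 7 (.thr 38 55 (.thr 34 46 (.dbl 51 17 25))))) (.rp 10 (.thr 37 53 (.thr 32 47 (.thr 48 16 (.thr 36 24 (.thr 38 39 (.thr 34 46 (.dbl 51 17 25))))))) .nd))))))) .nd))))))) (.rp 4 (.str 5 (.nv (.thr 15 10 (.thr 13 14 (.thr 37 53 (.thr 25 49 (.thr 17 29 (.dbl 51 34 38)))))) (.nv (.thr 15 10 (.thr 37 53 (.thr 32 47 (.dbl 48 16 26)))) (.rp 58 (.thr 15 10 (.thr 37 53 (.thr 48 26 (.dbl 32 16 47)))) (.rp 53 (.thr 15 10 (.thr 13 14 (.thr 1 9 (.thr 41 61 (.thr 40 43 (.thr 60 20 (.thr 45 30 (.thr 44 28 (.thr 46 47 (.dbl 38 34 35)))))))))) (.rp 48 (.thr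 15 10 (.thr 13 14 (.thr 1 9 (.thr 41 61 (.thr 40 43 (.thr 60 20 (.thr 45 30 (.thr 44 28 (.thr 46 47 (.dbl 38 34 35)))))))))) (.rp 37 (.thr 15 10 (.thr 13 14 (.thr 1 9 (.thr 41 61 (.thr 40 43 (.thr 60 20 (.thr 45 30 (.thr 44 28 (.thr 46 47 (.dbl 38 34 35)))))))))) (.rp 15 (.thr 37 53 (.str 48 (.nv (.dbl 32 16 47) (.rp 47 (.str 31 (.nv (.dbl 16 26 32) (.rp 32 (.thr 36 24 (.thr 38 39 (.thr 34 46 (.dbl 51 17 25)))) (.rp 26 (.thr 36 24 (.thr 38 39 (.thr 34 46 (.dbl 51 17 25)))) (.rp 16 (.thr 36 24 (.thr 38 39 (.thr 34 46 (.dbl 51 17 25)))) .nd))))) (.rp 32 (.thr 36 24 (.thr 38 39 (.thr 34 46 (.dbl 51 17 25)))) (.rp 31 (.thr 47 32 (.thr 36 24 (.thr 38 39 (.thr 34 46 (.dbl 51 17 25))))) (.rp 16 (.thr 36 24 (.thr 38 39 (.thr 34 46 (.dbl 51 17 25)))) .nd))))))) (.rp 10 (.thr 37 53 (.thr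 32 47 (.thr 48 16 (.thr 36 24 (.thr 38 39 (.thr 34 46 (.dbl 51 17 25))))))) .nd))))))))) .nd)))))))))))

theorem w444 : WinAt (4398048608257, 9223372045448904704) :=
  chF (K := []) kn c444 4398048608257 9223372045448904704 63
    [] (by decide +kernel) (by decide +kernel)

/-- A certificate. -/
noncomputable def c445 : Ct := (.str 32 (.nv (.thr 48 16 (.thr 37 47 (.thr 5 53 (.dbl 15 10 26)))) (.rp 53 (.thr 48 16 (.str 1 (.nv (.thr 41 61 (.thr 40 43 (.thr 36 44 (.thr 12 24 (.thr 4 8 (.dbl 20 52 60)))))) (.nv (.thr 3 2 (.thr 41 61 (.thr 37 47 (.dbl 33 18 45)))) (.rp 62 (.thr 3 2 (.thr 37 47 (.thr 15 26 (.thr 7 11 (.thr 5 10 (.thr 6 4 (.dbl 9 12 13))))))) (.rp 61 (.thr 3 2 (.thr 37 47 (.thr 15 26 (.thr 7 11 (.thr 5 10 (.thr 6 4 (.dbl 9 12 13))))))) (.rp 60 (.thr 3 2 (.thr 37 47 (.thr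 15 26 (.thr 7 11 (.thr 5 10 (.thr 6 4 (.dbl 9 12 13))))))) (.rp 57 (.thr 3 2 (.thr 37 47 (.thr 15 26 (.thr 7 11 (.thr 5 10 (.thr 6 4 (.dbl 9 12 13))))))) (.rp 49 (.thr 3 2 (.thr 37 47 (.thr 15 26 (.thr 7 11 (.thr 5 10 (.thr 6 4 (.dbl 9 12 13))))))) (.rp 41 (.thr 3 2 (.thr 37 47 (.thr 15 26 (.thr 5 10 (.thr 9 13 (.thr 6 12 (.dbl 7 4 11))))))) (.rp 3 (.thr 41 61 (.thr 37 47 (.thr 33 45 (.thr 49 17 (.thr 15 26 (.thr 5 10 (.dbl 13 9 25))))))) .nd))))))))))) (.rp 48 (.thr 37 47 (.thr 53 5 (.str 41 (.nv (.thr 40 43 (.thr 44 36 (.thr 60 20 (.thr 12 28 (.thr 4 8 (.dbl 38 35 55)))))) (.nv (.thr 45 33 (.thr 61 1 (.thr 49 57 (.dbl 13 25 29)))) (.rp 31 (.str 15 (.nv (.thr 61 1 (.thr 49 57 (.thr 13 25 (.dbl 45 29 33)))) (.nv (.thr 40 43 (.thr 60 20 (.dbl 45 30 33))) (.rp 45 (.thr 40 43 (.thr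 44 36 (.thr 60 20 (.thr 12 28 (.thr 4 8 (.dbl 38 35 55)))))) (.rp 33 (.thr 40 43 (.thr 44 36 (.thr 60 20 (.thr 12 28 (.thr 4 8 (.dbl 38 35 55)))))) .nd))))) (.rp 25 (.thr 45 33 (.thr 61 1 (.thr 13 29 (.thr 40 43 (.thr 44 36 (.thr 60 20 (.thr 15 30 (.dbl 12 14 28)))))))) (.rp 15 (.str 31 (.nv (.thr 26 16 (.thr 10 58 (.thr 43 40 (.thr 11 56 (.thr 59 27 (.dbl 8 9 25)))))) (.nv (.thr 45 33 (.thr 61 1 (.thr 49 57 (.dbl 13 25 29)))) (.rp 25 (.thr 61 1 (.thr 57 49 (.thr 26 16 (.thr 56 11 (.dbl 58 10 59))))) (.rp 9 (.thr 45 33 (.thr 61 1 (.thr 13 29 (.dbl 49 25 57)))) .nd))))) (.rp 3 (.thr 61 1 (.thr 49 57 (.thr 13 25 (.dbl 45 29 33)))) .nd))))))))) (.rp 47 (.thr 48 16 (.str 36 (.nv (.thr 12 24 (.thr 4 8 (.thr 38 55 (.thr 37 39 (.thr 15 26 (.dbl 5 10 53)))))) (.nv (.thr 40 44 (.thr 60 20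 (.thr 24 12 (.dbl 56 8 52)))) (.rp 56 (.thr 40 44 (.thr 12 24 (.thr 20 60 (.dbl 4 8 52)))) (.rp 40 (.thr 12 24 (.thr 8 4 (.thr 25 59 (.thr 51 38 (.thr 49 50 (.thr 37 13 (.thr 5 53 (.dbl 15 10 26)))))))) (.rp 31 (.str 15 (.nv (.thr 12 24 (.thr 4 8 (.thr 40 44 (.dbl 20 52 60)))) (.nv (.thr 10 5 (.dbl 26 37 58)) .nd))) (.rp 24 (.thr 40 44 (.thr 20 60 (.thr 4 52 (.thr 38 55 (.thr 37 39 (.thr 15 26 (.dbl 5 10 53))))))) (.rp 20 (.thr 40 44 (.thr 24 12 (.thr 56 8 (.thr 41 43 (.thr 26 11 (.thr 10 58 (.dbl 15 5 37))))))) (.rp 15 (.str 31 (.nv (.thr 24 12 (.thr 40 44 (.thr 60 20 (.dbl 56 8 52)))) (.nv (.thr 44 40 (.thr 12 24 (.thr 28 60 (.thr 8 4 (.thr 25 59 (.dbl 29 17 30)))))) (.nv (.thr 12 24 (.thr 4 8 (.thr 40 44 (.dbl 20 52 60)))) (.rp 60 (.thr 12 24 (.thr 8 4 (.thr 40 44 (.thr 25 59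 (.thr 41 43 (.thr 9 57 (.thr 3 6 (.dbl 1 2 61)))))))) (.rp 45 (.thr 12 24 (.thr 4 8 (.thr 20 52 (.dbl 40 44 60)))) (.rp 44 (.thr 12 24 (.thr 4 8 (.thr 20 52 (.thr 38 55 (.thr 51 25 (.thr 50 49 (.thr 26 14 (.thr 58 10 (.thr 54 62 (.dbl 60 40 57)))))))))) (.rp 40 (.thr 12 24 (.thr 8 4 (.thr 25 59 (.thr 51 38 (.thr 29 17 (.thr 49 50 (.thr 13 37 (.thr 61 45 (.thr 57 53 (.dbl 41 1 9)))))))))) (.rp 24 (.thr 40 44 (.thr 20 60 (.thr 4 52 (.thr 12 8 (.thr 38 55 (.thr 51 25 (.thr 49 50 (.thr 37 39 (.thr 53 5 (.thr 61 57 (.dbl 41 1 43))))))))))) (.rp 12 (.thr 40 44 (.thr 60 20 (.thr 56 52 (.thr 41 43 (.thr 26 11 (.thr 58 10 (.thr 59 57 (.dbl 8 24 25)))))))) (.rp 8 (.thr 12 24 (.thr 40 44 (.thr 41 43 (.thr 1 61 (.thr 3 2 (.thr 9 6 (.thr 5 13 (.thr 37 53 (.dbl 33 18 45))))))))) .nd)))))))))))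 (.rp 12 (.thr 40 44 (.thr 60 20 (.thr 56 52 (.thr 41 43 (.thr 26 11 (.thr 10 58 (.dbl 15 5 37))))))) (.rp 8 (.thr 40 44 (.thr 60 20 (.thr 56 52 (.thr 41 43 (.thr 26 11 (.thr 10 58 (.dbl 15 5 37))))))) .nd)))))))))))) (.rp 37 (.str 40 (.nv (.thr 41 43 (.thr 44 36 (.thr 38 35 (.thr 4 55 (.thr 12 8 (.dbl 60 20 28)))))) (.nv (.thr 16 48 (.thr 26 31 (.thr 41 43 (.thr 56 11 (.thr 58 10 (.thr 59 57 (.dbl 8 24 25))))))) (.nv (.thr 48 16 (.thr 36 44 (.thr 12 24 (.thr 4 8 (.dbl 20 52 60))))) (.rp 52 (.str 7 (.nv (.thr 41 43 (.thr 44 36 (.thr 38 35 (.thr 60 20 (.thr 4 55 (.dbl 12 8 28)))))) (.nv (.thr 41 43 (.thr 1 61 (.thr 3 2 (.thr 11 15 (.thr 26 56 (.dbl 16 31 48)))))) (.rp 60 (.thr 41 43 (.thr 44 36 (.thr 38 35 (.thr 4 55 (.thr 5 6 (.thr 15 10 (.thr 3 11 (.dbl 1 2 61)))))))) (.rp 47 (.thr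 41 43 (.thr 1 61 (.thr 3 2 (.thr 15 11 (.thr 5 10 (.thr 6 4 (.dbl 9 12 13))))))) (.rp 43 (.thr 36 44 (.thr 48 16 (.thr 12 24 (.thr 4 8 (.thr 5 6 (.thr 15 10 (.thr 14 13 (.thr 38 55 (.thr 50 26 (.dbl 51 25 49)))))))))) (.rp 41 (.thr 36 44 (.thr 48 16 (.thr 12 24 (.thr 4 8 (.thr 5 6 (.thr 15 10 (.thr 14 13 (.thr 38 55 (.thr 50 26 (.dbl 51 25 49)))))))))) (.rp 23 (.thr 36 44 (.thr 48 16 (.thr 12 24 (.thr 4 8 (.thr 6 5 (.thr 3 9 (.thr 1 2 (.dbl 41 43 61)))))))) (.rp 3 (.thr 36 44 (.thr 48 16 (.thr 12 24 (.thr 4 8 (.thr 5 6 (.thr 15 10 (.thr 14 13 (.thr 38 55 (.thr 50 26 (.dbl 51 25 49)))))))))) .nd))))))))) (.rp 8 (.thr 44 36 (.thr 60 20 (.thr 12 28 (.thr 41 43 (.thr 1 61 (.thr 38 35 (.thr 25 51 (.thr 9 57 (.dbl 3 2 6))))))))) (.rp 7 (.str 52 (.nv (.thr 48 16 (.dbl 60 20 56)) (.nv (.thr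 36 44 (.dbl 20 4 60)) (.rp 60 (.thr 36 44 (.thr 4 20 (.thr 48 16 (.dbl 12 8 24)))) (.rp 20 (.thr 36 44 (.thr 48 16 (.thr 56 60 (.dbl 24 8 12)))) .nd))))) .nd))))))) (.rp 31 (.thr 48 16 (.thr 37 47 (.thr 15 26 (.dbl 5 10 53)))) (.rp 26 (.thr 48 16 (.str 18 (.nv (.thr 33 3 (.thr 37 47 (.thr 5 53 (.thr 41 45 (.thr 1 61 (.thr 49 17 (.dbl 13 9 25))))))) (.nv (.thr 3 33 (.thr 1 2 (.thr 41 61 (.thr 40 43 (.thr 36 44 (.thr 12 24 (.thr 4 8 (.dbl 20 52 60)))))))) (.nv (.thr 3 33 (.thr 1 2 (.thr 37 47 (.thr 5 53 (.thr 9 13 (.thr 6 12 (.thr 15 10 (.dbl 7 4 11)))))))) (.rp 33 (.str 3 (.nv (.thr 1 2 (.thr 37 47 (.thr 5 53 (.thr 13 9 (.thr 25 49 (.thr 29 17 (.dbl 61 41 45))))))) (.nv (.thr 1 2 (.thr 41 61 (.thr 40 43 (.thr 36 44 (.thr 12 24 (.thr 4 8 (.dbl 20 52 60))))))) (.nv (.thr 1 2 (.thr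 37 47 (.thr 5 53 (.thr 9 13 (.thr 6 12 (.thr 15 10 (.dbl 7 4 11))))))) (.rp 2 (.thr 37 47 (.thr 5 53 (.thr 15 10 (.thr 7 11 (.thr 6 4 (.thr 9 12 (.thr 1 13 (.thr 41 61 (.thr 40 43 (.thr 57 25 (.thr 60 20 (.thr 51 54 (.thr 36 44 (.dbl 39 27 38)))))))))))))) (.rp 1 (.thr 37 47 (.thr 5 53 (.thr 15 10 (.thr 7 11 (.thr 4 6 (.thr 38 55 (.thr 36 39 (.dbl 12 8 24)))))))) .nd)))))) (.rp 3 (.thr 37 47 (.thr 5 53 (.thr 15 10 (.str 60 (.nv (.thr 40 20 (.thr 56 52 (.thr 24 8 (.dbl 36 12 44)))) (.nv (.thr 45 30 (.thr 41 33 (.dbl 40 20 43))) (.rp 43 (.str 23 (.nv (.thr 40 20 (.thr 36 44 (.thr 24 12 (.dbl 56 8 52)))) (.nv (.thr 20 40 (.thr 52 56 (.thr 4 36 (.thr 55 38 (.dbl 7 6 39))))) (.nv (.thr 40 20 (.thr 36 44 (.thr 56 52 (.dbl 24 8 12)))) (.rp 56 (.thr 45 30 (.thr 40 20 (.thr 36 44 (.thr 41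 33 (.thr 61 1 (.thr 13 29 (.dbl 12 14 24))))))) (.rp 52 (.thr 45 30 (.thr 40 20 (.thr 36 44 (.thr 41 33 (.thr 61 1 (.thr 13 29 (.dbl 12 14 24))))))) (.rp 40 (.thr 45 30 (.thr 41 33 (.thr 61 1 (.thr 13 29 (.thr 12 14 (.thr 8 4 (.dbl 25 49 59))))))) (.rp 39 (.str 35 (.nv (.thr 45 30 (.thr 41 33 (.thr 1 61 (.thr 13 9 (.thr 12 14 (.dbl 44 28 38)))))) (.nv (.thr 56 52 (.thr 40 20 (.thr 24 8 (.dbl 36 12 44)))) (.nv (.thr 45 30 (.thr 40 20 (.thr 41 33 (.dbl 44 36 38)))) (.rp 44 (.thr 45 30 (.thr 41 33 (.thr 61 1 (.thr 13 29 (.thr 12 14 (.thr 8 4 (.dbl 25 49 59))))))) .nd))))) (.rp 36 (.thr 45 30 (.thr 41 33 (.thr 61 1 (.thr 13 29 (.thr 12 14 (.thr 8 4 (.dbl 25 49 59))))))) (.rp 35 (.str 39 (.nv (.thr 51 27 (.thr 36 38 (.dbl 40 20 44))) (.nv (.thr 55 7 (.dbl 38 4 36)) (.rp 51 (.str 19 (.nv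 (.thr 36 38 (.dbl 40 20 44)) (.nv (.thr 55 7 (.dbl 38 4 36)) (.rp 55 (.str 59 (.nv (.thr 25 8 (.thr 13 49 (.thr 29 17 (.dbl 45 30 61)))) (.nv (.thr 40 20 (.dbl 36 38 44)) (.rp 54 (.thr 52 56 (.thr 20 40 (.dbl 36 4 38))) (.rp 52 (.str 54 (.nv (.thr 25 8 (.thr 13 49 (.thr 29 17 (.dbl 45 30 61)))) (.nv (.thr 40 20 (.dbl 36 38 44)) .nd))) .nd))))) (.rp 38 (.thr 20 40 (.thr 52 56 (.thr 4 36 (.dbl 7 6 55)))) (.rp 36 (.thr 55 7 (.thr 4 38 (.thr 40 20 (.thr 56 52 (.dbl 8 12 24))))) .nd)))))) (.rp 38 (.thr 7 55 (.thr 20 40 (.thr 52 56 (.dbl 4 6 36)))) (.rp 36 (.thr 55 7 (.thr 38 4 (.thr 51 27 (.thr 49 50 (.dbl 25 12 13))))) .nd)))))) (.rp 24 (.thr 45 30 (.thr 41 33 (.thr 61 1 (.thr 13 29 (.thr 12 14 (.thr 8 4 (.dbl 25 49 59))))))) (.rp 20 (.thr 45 30 (.thr 41 33 (.thr 61 1 (.thr 13 29 (.thr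 12 14 (.thr 8 4 (.dbl 25 49 59))))))) (.rp 8 (.thr 45 30 (.thr 40 20 (.thr 36 44 (.thr 41 33 (.thr 61 1 (.thr 13 29 (.dbl 12 14 24))))))) .nd))))))))))))) (.rp 40 (.thr 45 30 (.thr 41 33 (.thr 61 1 (.thr 13 29 (.thr 12 14 (.thr 8 4 (.dbl 25 49 59))))))) (.rp 23 (.str 43 (.nv (.dbl 40 20 41) (.rp 41 (.thr 40 20 (.thr 36 44 (.thr 56 52 (.dbl 24 8 12)))) (.rp 40 (.thr 45 30 (.thr 41 33 (.thr 1 61 (.thr 13 9 (.thr 12 14 (.thr 8 4 (.dbl 25 49 59))))))) (.rp 20 (.thr 45 30 (.dbl 41 33 40)) .nd))))) (.rp 20 (.thr 45 30 (.thr 41 33 (.thr 61 1 (.thr 13 29 (.thr 12 14 (.thr 8 4 (.dbl 25 49 59))))))) .nd)))))))))) (.rp 1 (.thr 3 33 (.thr 37 47 (.thr 5 53 (.thr 15 10 (.thr 7 11 (.thr 4 6 (.thr 38 55 (.thr 36 39 (.dbl 12 8 24))))))))) .nd)))))))) (.rp 16 (.str 41 (.nv (.thr 40 43 (.thr 44 36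 (.thr 38 35 (.thr 4 55 (.thr 12 8 (.dbl 60 20 28)))))) (.nv (.thr 37 47 (.thr 45 33 (.thr 53 5 (.thr 61 1 (.thr 49 57 (.dbl 13 25 29)))))) (.rp 47 (.thr 40 43 (.thr 36 44 (.thr 20 60 (.thr 4 52 (.thr 12 8 (.thr 48 24 (.thr 38 55 (.thr 51 25 (.thr 50 49 (.thr 26 14 (.dbl 37 15 39))))))))))) .nd)))) (.rp 15 (.thr 48 16 (.str 36 (.nv (.thr 40 44 (.thr 20 60 (.thr 4 52 (.thr 38 55 (.dbl 37 39 47))))) (.nv (.thr 47 37 (.thr 24 12 (.thr 40 44 (.thr 60 20 (.dbl 56 8 52))))) (.nv (.thr 12 24 (.thr 8 4 (.thr 25 59 (.thr 51 38 (.thr 49 50 (.dbl 37 13 47)))))) (.nv (.thr 40 44 (.thr 12 24 (.thr 4 8 (.dbl 20 52 60)))) (.rp 47 (.str 31 (.nv (.thr 24 12 (.thr 40 44 (.thr 60 20 (.dbl 56 8 52)))) (.nv (.thr 44 40 (.thr 12 24 (.thr 28 60 (.thr 8 4 (.thr 25 59 (.dbl 29 17 30)))))) (.nv (.thr 12 24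 (.thr 4 8 (.thr 40 44 (.dbl 20 52 60)))) (.rp 60 (.thr 12 24 (.thr 8 4 (.thr 40 44 (.thr 25 59 (.thr 41 43 (.thr 9 57 (.thr 3 6 (.dbl 1 2 61)))))))) (.rp 45 (.thr 12 24 (.thr 4 8 (.thr 20 52 (.dbl 40 44 60)))) (.rp 44 (.thr 12 24 (.thr 4 8 (.thr 20 52 (.thr 38 55 (.thr 51 25 (.thr 50 49 (.thr 26 14 (.thr 58 10 (.thr 54 62 (.dbl 60 40 57)))))))))) (.rp 40 (.thr 12 24 (.thr 8 4 (.thr 25 59 (.thr 51 38 (.thr 29 17 (.thr 49 50 (.thr 13 37 (.thr 61 45 (.thr 57 53 (.dbl 41 1 9)))))))))) (.rp 24 (.thr 40 44 (.thr 20 60 (.thr 4 52 (.thr 12 8 (.thr 38 55 (.thr 51 25 (.thr 49 50 (.thr 37 39 (.thr 53 5 (.thr 61 57 (.dbl 41 1 43))))))))))) (.rp 12 (.thr 40 44 (.thr 60 20 (.thr 56 52 (.thr 41 43 (.thr 26 11 (.thr 58 10 (.thr 59 57 (.dbl 8 24 25)))))))) (.rp 8 (.thr 12 24 (.thr 40 44 (.thr 41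 43 (.thr 1 61 (.thr 3 2 (.thr 9 6 (.thr 5 13 (.thr 37 53 (.dbl 33 18 45))))))))) .nd))))))))))) (.rp 20 (.thr 44 40 (.thr 12 24 (.thr 28 60 (.thr 8 4 (.thr 25 59 (.thr 51 38 (.thr 49 50 (.dbl 37 13 47)))))))) (.rp 12 (.thr 40 44 (.thr 60 20 (.thr 56 52 (.thr 41 43 (.thr 26 11 (.thr 58 10 (.thr 59 57 (.dbl 8 24 25)))))))) .nd))))))))) (.rp 10 (.str 1 (.nv (.thr 37 47 (.thr 5 53 (.thr 13 9 (.thr 25 49 (.thr 29 17 (.dbl 61 41 45)))))) (.nv (.thr 3 2 (.thr 41 61 (.thr 48 16 (.thr 37 47 (.thr 15 26 (.dbl 33 18 45)))))) (.nv (.thr 37 47 (.thr 53 5 (.thr 61 41 (.thr 49 57 (.thr 25 13 (.dbl 17 29 33)))))) (.rp 61 (.thr 48 16 (.thr 3 2 (.thr 37 47 (.thr 5 53 (.thr 13 9 (.thr 49 25 (.dbl 33 17 18))))))) (.rp 47 (.thr 48 16 (.thr 41 61 (.thr 40 43 (.thr 60 20 (.thr 56 52 (.thr 24 8 (.dbl 36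 12 44))))))) (.rp 41 (.thr 48 16 (.thr 3 2 (.thr 37 47 (.thr 5 53 (.thr 15 26 (.thr 9 13 (.thr 6 12 (.dbl 7 4 11)))))))) (.rp 37 (.thr 48 16 (.thr 41 61 (.thr 40 43 (.thr 60 20 (.thr 36 44 (.thr 24 12 (.dbl 56 8 52))))))) (.rp 15 (.thr 48 16 (.thr 41 61 (.thr 40 43 (.thr 60 20 (.thr 56 52 (.thr 24 8 (.dbl 36 12 44))))))) .nd))))))))) (.rp 5 (.str 38 (.nv (.thr 4 55 (.thr 12 8 (.thr 48 16 (.thr 36 24 (.thr 40 44 (.dbl 20 52 60)))))) (.nv (.thr 37 47 (.thr 36 39 (.thr 40 44 (.thr 20 60 (.dbl 4 52 55))))) (.nv (.thr 48 16 (.thr 37 47 (.thr 4 55 (.thr 12 8 (.dbl 36 24 39))))) (.rp 55 (.thr 48 16 (.thr 37 47 (.thr 36 39 (.thr 12 24 (.thr 8 4 (.dbl 25 51 59)))))) (.rp 36 (.thr 48 16 (.thr 4 55 (.thr 37 47 (.thr 15 26 (.thr 12 8 (.thr 13 14 (.dbl 25 49 51))))))) (.rp 12 (.thr 4 55 (.thr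 37 47 (.thr 36 39 (.thr 20 52 (.dbl 40 44 60))))) (.rp 4 (.thr 48 16 (.thr 37 47 (.thr 39 36 (.thr 15 26 (.thr 51 27 (.thr 49 50 (.dbl 25 12 13))))))) .nd)))))))) .nd))))))))))))

theorem w445 : WinAt (4398048608257, 9223372054038839296) :=
  chF (K := []) kn c445 4398048608257 9223372054038839296 63
    [] (by decide +kernel) (by decide +kernel)

/-- A certificate. -/
noncomputable def c446 : Ct := (.str 15 (.nv (.thr 47 31 (.thr 37 32 (.thr 48 26 (.dbl 53 5 58)))) (.nv (.thr 31 47 (.thr 26 16 (.thr 58 10 (.dbl 48 37 53)))) (.rp 58 (.str 3 (.nv (.thr 11 7 (.thr 31 47 (.thr 26 16 (.thr 41 56 (.dbl 43 23 40))))) (.nv (.thr 43 23 (.thr 41 40 (.thr 47 31 (.thr 37 32 (.thr 33 45 (.dbl 48 18 26)))))) (.nv (.thr 7 11 (.thr 23 43 (.thr 31 47 (.thr 39 55 (.dbl 27 19 51))))) (.rp 47 (.thr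 11 7 (.thr 43 23 (.thr 59 27 (.thr 25 8 (.thr 29 17 (.thr 12 46 (.dbl 51 38 55))))))) (.rp 43 (.thr 7 11 (.thr 47 31 (.thr 37 32 (.thr 5 53 (.thr 6 4 (.thr 12 9 (.thr 13 14 (.thr 25 49 (.dbl 29 17 46))))))))) (.rp 31 (.thr 11 7 (.thr 43 23 (.thr 41 40 (.thr 61 1 (.thr 26 56 (.thr 37 48 (.thr 45 33 (.dbl 60 30 62)))))))) (.rp 23 (.thr 11 7 (.thr 31 47 (.thr 26 16 (.thr 41 56 (.thr 61 1 (.thr 60 62 (.thr 45 30 (.dbl 37 33 48)))))))) .nd)))))))) (.rp 53 (.str 43 (.nv (.thr 3 23 (.thr 41 40 (.thr 47 31 (.thr 37 32 (.thr 33 45 (.dbl 48 18 26)))))) (.nv (.thr 3 23 (.thr 11 7 (.thr 59 27 (.thr 25 8 (.thr 29 17 (.thr 12 46 (.dbl 51 38 55))))))) (.nv (.thr 3 23 (.thr 31 47 (.thr 26 16 (.thr 41 40 (.dbl 11 7 56))))) (.rp 31 (.thr 3 23 (.thr 11 7 (.thr 41 40 (.thr 26 56 (.thr 10 58 (.thr 8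 9 (.dbl 59 25 27))))))) (.rp 23 (.thr 47 31 (.thr 37 32 (.thr 41 40 (.thr 61 1 (.thr 60 62 (.dbl 45 30 33)))))) (.rp 3 (.thr 31 47 (.thr 41 40 (.thr 26 16 (.thr 10 58 (.thr 11 56 (.thr 59 27 (.dbl 8 9 25))))))) .nd))))))) (.rp 48 (.thr 31 47 (.thr 16 26 (.str 30 (.nv (.thr 29 28 (.thr 25 17 (.thr 59 8 (.thr 51 55 (.dbl 12 38 46))))) (.nv (.thr 60 45 (.thr 62 61 (.thr 29 28 (.dbl 46 12 14)))) (.rp 46 (.thr 29 28 (.thr 25 17 (.thr 59 8 (.thr 51 55 (.thr 27 39 (.thr 43 11 (.dbl 23 3 19))))))) (.rp 43 (.str 39 (.nv (.thr 60 45 (.thr 62 61 (.thr 46 14 (.dbl 29 12 28)))) (.nv (.thr 29 28 (.thr 25 17 (.thr 51 27 (.dbl 59 8 55)))) (.rp 29 (.thr 51 27 (.thr 59 55 (.thr 25 8 (.thr 12 38 (.thr 14 13 (.thr 62 46 (.dbl 60 45 61))))))) (.rp 28 (.thr 51 27 (.thr 59 55 (.thr 25 8 (.thr 12 38 (.dbl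 29 17 46))))) .nd))))) (.rp 39 (.str 43 (.nv (.thr 29 28 (.thr 17 25 (.thr 19 18 (.dbl 23 3 27)))) (.nv (.thr 41 40 (.thr 60 45 (.dbl 61 1 62))) .nd))) (.rp 29 (.thr 60 45 (.thr 61 62 (.thr 41 1 (.thr 43 40 (.thr 3 23 (.thr 11 7 (.thr 59 27 (.thr 25 8 (.thr 57 9 (.dbl 51 54 55)))))))))) (.rp 28 (.thr 60 45 (.thr 62 61 (.thr 46 14 (.thr 38 34 (.thr 55 4 (.thr 51 59 (.dbl 12 25 29))))))) (.rp 25 (.thr 60 45 (.thr 62 61 (.thr 46 14 (.dbl 29 12 28)))) (.rp 12 (.thr 29 28 (.thr 17 25 (.thr 19 18 (.thr 60 45 (.thr 61 62 (.thr 41 1 (.thr 43 40 (.dbl 23 3 27)))))))) .nd)))))))))))) (.rp 47 (.str 3 (.nv (.thr 7 11 (.thr 23 43 (.thr 39 55 (.thr 27 51 (.thr 31 19 (.thr 26 16 (.thr 48 37 (.dbl 58 10 53)))))))) (.nv (.thr 11 7 (.thr 43 23 (.thr 59 27 (.thr 25 8 (.thr 29 17 (.thr 12 46 (.dbl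 51 38 55))))))) (.nv (.thr 11 7 (.thr 43 23 (.thr 41 40 (.thr 26 56 (.thr 58 10 (.dbl 48 37 53)))))) (.rp 55 (.thr 43 23 (.thr 41 40 (.thr 61 1 (.thr 60 62 (.thr 45 30 (.thr 37 33 (.thr 53 5 (.dbl 48 26 58)))))))) (.rp 43 (.str 39 (.nv (.thr 51 27 (.thr 59 55 (.thr 25 8 (.thr 12 38 (.dbl 29 17 46))))) (.nv (.thr 7 11 (.thr 55 23 (.dbl 51 27 59))) (.rp 59 (.thr 7 11 (.thr 27 51 (.thr 23 55 (.thr 31 19 (.thr 26 16 (.thr 58 10 (.dbl 48 37 53))))))) (.rp 55 (.str 9 (.nv (.thr 12 6 (.thr 13 14 (.thr 1 5 (.thr 29 46 (.dbl 61 41 45))))) (.nv (.thr 11 7 (.thr 8 10 (.thr 25 59 (.thr 27 51 (.thr 26 24 (.dbl 41 56 57)))))) (.nv (.thr 51 27 (.thr 12 6 (.thr 46 29 (.dbl 38 25 34)))) .nd)))) (.rp 51 (.thr 7 11 (.thr 55 23 (.thr 38 4 (.thr 37 36 (.thr 53 5 (.dbl 48 26 58)))))) (.rp 27 (.str 59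 (.nv (.thr 25 8 (.thr 29 17 (.thr 12 46 (.dbl 51 38 55)))) (.nv (.thr 7 11 (.dbl 55 23 51)) (.rp 55 (.thr 25 8 (.thr 29 17 (.thr 12 46 (.thr 13 14 (.thr 37 49 (.dbl 38 36 51)))))) (.rp 51 (.thr 7 11 (.thr 55 23 (.thr 38 4 (.thr 37 36 (.thr 53 5 (.dbl 48 26 58)))))) .nd))))) .nd))))))) (.rp 39 (.thr 43 23 (.thr 41 40 (.thr 61 1 (.thr 60 62 (.thr 45 30 (.thr 37 33 (.thr 53 5 (.dbl 48 26 58)))))))) (.rp 37 (.thr 43 23 (.thr 41 40 (.thr 61 1 (.thr 60 62 (.thr 45 30 (.thr 29 13 (.thr 25 17 (.thr 9 57 (.dbl 12 6 46))))))))) (.rp 23 (.str 43 (.nv (.thr 11 7 (.thr 59 27 (.thr 25 8 (.thr 29 17 (.thr 12 46 (.dbl 51 38 55)))))) (.nv (.thr 11 7 (.thr 41 40 (.thr 26 56 (.thr 58 10 (.dbl 48 37 53))))) (.rp 55 (.thr 41 40 (.thr 61 1 (.thr 60 62 (.thr 45 30 (.thr 37 33 (.thr 53 5 (.dbl 48 26 58)))))))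 (.rp 52 (.thr 41 40 (.thr 61 1 (.thr 60 62 (.thr 45 30 (.thr 11 7 (.thr 37 33 (.dbl 26 48 56))))))) (.rp 39 (.thr 41 40 (.thr 61 1 (.thr 60 62 (.thr 45 30 (.thr 37 33 (.thr 53 5 (.dbl 48 26 58))))))) (.rp 37 (.thr 41 40 (.thr 61 1 (.thr 60 62 (.thr 45 30 (.thr 29 13 (.thr 25 17 (.thr 9 57 (.dbl 12 6 46)))))))) (.rp 11 (.thr 41 40 (.thr 61 1 (.thr 60 62 (.thr 45 30 (.thr 37 33 (.thr 53 5 (.dbl 48 26 58))))))) (.rp 8 (.thr 11 7 (.thr 27 59 (.thr 41 40 (.thr 26 56 (.thr 24 25 (.thr 58 10 (.dbl 48 37 53))))))) (.rp 7 (.thr 41 40 (.thr 61 1 (.thr 60 62 (.thr 45 30 (.thr 37 33 (.thr 53 5 (.dbl 48 26 58))))))) .nd)))))))))) (.rp 11 (.thr 43 23 (.thr 41 40 (.thr 61 1 (.thr 60 62 (.thr 45 30 (.thr 37 33 (.thr 53 5 (.dbl 48 26 58)))))))) (.rp 7 (.thr 43 23 (.thr 41 40 (.thr 61 1 (.thr 60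 62 (.thr 45 30 (.thr 37 33 (.thr 53 5 (.dbl 48 26 58)))))))) .nd))))))))))) (.rp 37 (.thr 31 47 (.thr 26 16 (.thr 58 10 (.thr 48 53 (.str 38 (.nv (.thr 46 34 (.thr 12 29 (.thr 24 36 (.dbl 25 27 51)))) (.nv (.thr 50 14 (.thr 55 4 (.dbl 51 49 59))) (.nv (.thr 14 50 (.thr 12 13 (.dbl 46 29 34))) (.rp 52 (.str 7 (.nv (.thr 14 50 (.thr 12 13 (.dbl 46 29 34))) (.nv (.thr 55 4 (.thr 3 11 (.dbl 23 39 43))) (.rp 55 (.str 54 (.nv (.dbl 50 14 62) (.rp 62 (.thr 14 50 (.thr 46 34 (.dbl 12 13 29))) (.rp 50 (.thr 46 34 (.thr 12 29 (.thr 24 36 (.dbl 25 27 51)))) (.rp 43 (.str 39 (.nv (.thr 46 34 (.thr 12 29 (.dbl 51 25 27))) (.nv (.dbl 50 14 62) .nd))) (.rp 39 (.str 43 (.nv (.dbl 50 14 62) (.nv (.dbl 3 11 23) .nd))) (.rp 14 (.thr 50 62 (.thr 46 34 (.thr 51 49 (.dbl 12 25 29)))) .nd))))))) (.rp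 43 (.str 39 (.nv (.thr 50 14 (.dbl 51 27 49)) (.nv (.dbl 55 4 23) (.rp 55 (.str 54 (.nv (.thr 46 34 (.thr 12 29 (.dbl 51 25 27))) (.nv (.dbl 50 14 62) .nd))) .nd)))) (.rp 39 (.str 43 (.nv (.thr 55 4 (.thr 50 14 (.dbl 51 49 59))) (.nv (.dbl 3 11 23) (.rp 55 (.str 54 (.nv (.dbl 50 14 62) (.nv (.dbl 3 11 23) .nd))) .nd)))) (.rp 12 (.thr 50 14 (.thr 51 49 (.dbl 55 4 59))) .nd))))))) (.rp 43 (.str 39 (.nv (.thr 14 50 (.thr 12 13 (.dbl 46 29 34))) (.nv (.thr 51 27 (.dbl 55 4 59)) (.rp 52 (.str 7 (.nv (.thr 50 14 (.dbl 51 27 49)) (.nv (.dbl 55 4 23) (.rp 55 (.str 54 (.nv (.thr 46 34 (.thr 12 29 (.dbl 51 25 27))) (.nv (.dbl 50 14 62) .nd))) .nd)))) (.rp 7 (.str 52 (.nv (.thr 14 50 (.thr 12 13 (.dbl 46 29 34))) (.nv (.thr 51 27 (.dbl 55 4 59)) .nd))) .nd))))) (.rp 39 (.str 43 (.nv (.thr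 14 50 (.thr 12 13 (.dbl 46 29 34))) (.nv (.thr 3 23 (.thr 41 40 (.dbl 11 7 56))) (.rp 52 (.str 7 (.nv (.thr 55 4 (.thr 50 14 (.dbl 51 49 59))) (.nv (.dbl 3 11 23) (.rp 55 (.str 54 (.nv (.dbl 50 14 62) (.nv (.dbl 3 11 23) .nd))) .nd)))) (.rp 7 (.str 52 (.nv (.thr 55 4 (.thr 50 14 (.dbl 51 49 59))) (.nv (.thr 56 60 (.dbl 41 11 40)) (.rp 55 (.thr 23 3 (.thr 56 60 (.dbl 41 11 40))) .nd)))) .nd))))) (.rp 12 (.thr 50 14 (.thr 51 49 (.dbl 55 4 59))) (.rp 7 (.str 52 (.nv (.thr 4 55 (.thr 46 34 (.thr 12 29 (.dbl 36 20 24)))) (.nv (.thr 50 14 (.thr 62 54 (.dbl 60 56 61))) (.rp 43 (.str 39 (.nv (.thr 14 50 (.thr 12 13 (.dbl 46 29 34))) (.nv (.thr 51 27 (.dbl 55 4 59)) .nd))) (.rp 39 (.str 43 (.nv (.thr 55 4 (.thr 50 14 (.dbl 51 49 59))) (.nv (.thr 56 60 (.dbl 41 11 40)) (.rp 55 (.thr 23 3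 (.thr 56 60 (.dbl 41 11 40))) .nd)))) .nd))))) .nd))))))))))))) (.rp 32 (.thr 31 47 (.thr 26 16 (.thr 48 37 (.dbl 58 10 53)))) (.rp 31 (.str 29 (.nv (.thr 12 46 (.thr 13 14 (.thr 25 17 (.thr 37 49 (.thr 53 5 (.dbl 48 26 58)))))) (.nv (.thr 12 46 (.thr 25 17 (.thr 59 8 (.dbl 51 38 55)))) (.rp 51 (.thr 12 46 (.thr 13 14 (.thr 61 45 (.thr 1 41 (.thr 5 9 (.thr 37 53 (.dbl 25 17 49))))))) (.rp 46 (.thr 25 17 (.thr 59 8 (.thr 51 55 (.thr 27 39 (.thr 26 24 (.thr 58 10 (.dbl 48 37 53))))))) (.rp 34 (.thr 12 46 (.thr 25 17 (.thr 51 38 (.dbl 59 8 55)))) (.rp 25 (.thr 12 46 (.thr 13 14 (.thr 61 45 (.thr 41 1 (.thr 43 40 (.thr 3 23 (.thr 9 6 (.thr 11 7 (.thr 10 8 (.dbl 26 56 58)))))))))) (.rp 17 (.thr 12 46 (.thr 13 14 (.thr 61 45 (.thr 1 41 (.thr 5 9 (.thr 37 53 (.thr 25 49 (.thr 59 8 (.dbl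 51 38 55))))))))) (.rp 12 (.thr 25 17 (.str 51 (.nv (.dbl 59 8 55) (.rp 59 (.thr 27 39 (.thr 26 24 (.thr 58 10 (.dbl 48 37 53)))) (.rp 55 (.thr 27 39 (.thr 26 24 (.thr 58 10 (.dbl 48 37 53)))) (.rp 8 (.str 4 (.nv (.dbl 55 38 59) (.rp 59 (.thr 27 39 (.thr 26 24 (.thr 58 10 (.dbl 48 37 53)))) (.rp 55 (.thr 27 39 (.thr 26 24 (.thr 58 10 (.dbl 48 37 53)))) (.rp 38 (.thr 27 39 (.thr 26 24 (.thr 58 10 (.dbl 48 37 53)))) .nd))))) (.rp 4 (.thr 8 59 (.thr 27 39 (.thr 26 24 (.thr 58 10 (.dbl 48 37 53))))) .nd))))))) .nd))))))))) (.rp 26 (.str 30 (.nv (.thr 45 60 (.thr 47 31 (.thr 46 44 (.thr 12 29 (.dbl 14 13 62))))) (.nv (.thr 31 47 (.thr 29 28 (.thr 25 17 (.thr 59 8 (.thr 51 55 (.dbl 12 38 46)))))) (.nv (.thr 31 47 (.thr 29 28 (.thr 60 45 (.thr 62 61 (.dbl 46 12 14))))) (.rp 47 (.thr 60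 45 (.thr 62 61 (.thr 46 14 (.thr 38 34 (.thr 55 4 (.thr 51 59 (.dbl 12 25 29))))))) (.rp 46 (.thr 45 60 (.thr 31 47 (.thr 29 28 (.thr 13 61 (.thr 12 14 (.thr 25 17 (.thr 59 8 (.dbl 51 38 55)))))))) (.rp 31 (.thr 60 45 (.thr 62 61 (.thr 46 14 (.thr 38 34 (.thr 55 4 (.thr 51 59 (.dbl 12 25 29))))))) (.rp 29 (.thr 45 60 (.thr 47 31 (.thr 46 44 (.thr 14 62 (.thr 12 13 (.thr 38 34 (.thr 55 4 (.dbl 51 25 59)))))))) (.rp 12 (.thr 60 45 (.thr 31 47 (.thr 29 28 (.thr 61 62 (.thr 41 1 (.thr 25 17 (.thr 57 9 (.thr 51 54 (.dbl 59 8 55))))))))) .nd))))))))) .nd)))))))))))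

theorem w446 : WinAt (9223376434903384064, 34363932673) :=
  chF (K := []) kn c446 9223376434903384064 34363932673 0
    [] (by decide +kernel) (by decide +kernel)

/-- A certificate. -/
noncomputable def c447 : Ct := (.str 15 (.nv (.thr 47 31 (.thr 37 32 (.thr 48 26 (.dbl 53 5 58)))) (.nv (.thr 31 47 (.thr 26 16 (.thr 58 10 (.dbl 48 37 53)))) (.rp 58 (.str 12 (.nv (.thr 13 14 (.thr 47 31 (.thr 37 32 (.thr 25 49 (.thr 51 38 (.dbl 59 8 55)))))) (.nv (.thr 13 14 (.thr 29 46 (.thr 31 47 (.thr 45 61 (.dbl 30 28 60))))) (.nv (.thr 29 46 (.thr 25 17 (.thr 59 8 (.dbl 51 38 55)))) .nd)))) (.rp 53 (.str 12 (.nv (.thr 13 14 (.thr 47 31 (.thr 37 32 (.thr 25 49 (.thr 51 38 (.dbl 59 8 55)))))) (.nv (.thr 13 14 (.thr 29 46 (.thr 31 47 (.thr 45 61 (.dbl 30 28 60))))) (.nv (.thr 29 46 (.thr 25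 17 (.thr 59 8 (.dbl 51 38 55)))) .nd)))) (.rp 48 (.thr 31 47 (.thr 16 26 (.str 30 (.nv (.thr 29 28 (.thr 25 17 (.thr 59 8 (.thr 51 55 (.dbl 12 38 46))))) (.nv (.thr 60 45 (.thr 62 61 (.thr 29 28 (.dbl 46 12 14)))) (.rp 46 (.thr 29 28 (.thr 25 17 (.thr 59 8 (.thr 51 55 (.thr 27 39 (.thr 23 19 (.dbl 43 3 11))))))) (.rp 29 (.thr 60 45 (.thr 61 62 (.thr 41 1 (.thr 43 40 (.thr 3 23 (.thr 11 7 (.thr 59 27 (.thr 25 8 (.thr 57 9 (.dbl 51 54 55)))))))))) (.rp 28 (.thr 60 45 (.thr 62 61 (.thr 46 14 (.thr 38 34 (.thr 55 4 (.thr 51 59 (.dbl 12 25 29))))))) (.rp 25 (.thr 60 45 (.thr 62 61 (.thr 46 14 (.dbl 29 12 28)))) (.rp 24 (.str 12 (.nv (.thr 14 13 (.thr 62 46 (.dbl 60 45 61))) (.nv (.dbl 29 28 46) (.rp 46 (.thr 28 29 (.dbl 60 44 45)) (.rp 27 (.str 25 (.nv (.thr 51 38 (.dbl 59 8 55)) (.nv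 (.dbl 29 17 28) .nd))) (.rp 25 (.str 27 (.nv (.thr 28 29 (.dbl 60 44 45)) (.nv (.dbl 29 28 46) (.rp 29 (.thr 14 13 (.thr 62 46 (.dbl 60 45 61))) (.rp 28 (.thr 19 23 (.thr 14 13 (.dbl 46 29 62))) .nd))))) .nd)))))) (.rp 12 (.str 24 (.nv (.dbl 28 20 29) (.rp 29 (.str 8 (.nv (.thr 56 40 (.thr 59 25 (.thr 51 55 (.thr 57 58 (.dbl 60 45 54))))) (.nv (.thr 59 25 (.thr 51 55 (.thr 27 39 (.thr 43 11 (.dbl 23 3 19))))) (.nv (.thr 60 45 (.thr 61 62 (.thr 40 56 (.dbl 41 1 43)))) (.rp 56 (.thr 59 25 (.thr 28 20 (.thr 51 55 (.thr 27 39 (.thr 23 19 (.dbl 43 3 11)))))) .nd))))) (.rp 28 (.thr 60 45 (.thr 61 62 (.thr 41 1 (.thr 40 43 (.thr 8 56 (.thr 25 59 (.thr 57 9 (.thr 17 29 (.thr 19 18 (.thr 27 23 (.dbl 51 39 54))))))))))) (.rp 20 (.thr 29 28 (.thr 60 45 (.thr 61 62 (.thr 25 17 (.thr 8 59 (.thr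 40 56 (.dbl 41 1 43))))))) (.rp 8 (.str 4 (.nv (.dbl 28 20 29) (.rp 29 (.thr 38 55 (.thr 46 34 (.thr 62 14 (.dbl 60 45 61)))) (.rp 28 (.thr 38 55 (.thr 46 34 (.thr 62 14 (.dbl 60 45 61)))) (.rp 20 (.thr 38 55 (.thr 46 34 (.thr 62 14 (.dbl 60 45 61)))) .nd))))) (.rp 4 (.str 8 (.nv (.dbl 28 20 29) (.rp 52 (.thr 20 28 (.thr 40 56 (.thr 60 45 (.thr 41 43 (.dbl 61 1 62))))) (.rp 29 (.thr 40 56 (.thr 41 43 (.thr 60 45 (.dbl 61 1 62)))) (.rp 28 (.thr 40 56 (.thr 41 43 (.thr 60 45 (.dbl 61 1 62)))) (.rp 20 (.str 52 (.nv (.thr 40 56 (.thr 41 43 (.thr 60 45 (.dbl 61 1 62)))) (.nv (.thr 25 59 (.dbl 29 17 28)) (.rp 60 (.thr 40 56 (.thr 25 59 (.dbl 29 17 28))) (.rp 40 (.thr 60 45 (.thr 29 28 (.dbl 25 17 59))) .nd))))) .nd)))))) .nd))))))) .nd))))))))))) (.rp 47 (.str 59 (.nv (.thr 25 8 (.thr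 51 55 (.thr 27 39 (.thr 26 24 (.thr 58 10 (.dbl 48 37 53)))))) (.nv (.thr 51 55 (.thr 25 8 (.thr 29 17 (.dbl 12 38 46)))) (.rp 55 (.thr 25 8 (.thr 29 17 (.thr 12 46 (.thr 13 14 (.thr 37 49 (.thr 53 5 (.dbl 48 26 58))))))) (.rp 51 (.thr 25 8 (.str 12 (.nv (.dbl 29 17 46) (.rp 46 (.thr 13 14 (.thr 37 49 (.thr 53 5 (.dbl 48 26 58)))) (.rp 34 (.thr 17 29 (.thr 13 14 (.thr 37 49 (.thr 53 5 (.dbl 48 26 58))))) (.rp 29 (.thr 13 14 (.thr 37 49 (.thr 53 5 (.dbl 48 26 58)))) (.rp 17 (.str 34 (.nv (.dbl 46 29 38) (.rp 46 (.thr 13 14 (.thr 37 49 (.thr 53 5 (.dbl 48 26 58)))) (.rp 38 (.thr 13 14 (.thr 37 49 (.thr 53 5 (.dbl 48 26 58)))) (.rp 29 (.thr 13 14 (.thr 37 49 (.thr 53 5 (.dbl 48 26 58)))) .nd))))) .nd))))))) (.rp 38 (.thr 25 8 (.thr 29 17 (.thr 12 46 (.thr 13 14 (.thr 37 49 (.thr 53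 5 (.dbl 48 26 58))))))) (.rp 25 (.thr 51 55 (.thr 27 39 (.thr 43 11 (.thr 41 40 (.thr 61 1 (.thr 60 62 (.thr 57 54 (.thr 53 49 (.dbl 58 48 56))))))))) (.rp 12 (.thr 51 55 (.thr 27 39 (.thr 43 11 (.thr 23 3 (.thr 31 19 (.thr 26 16 (.dbl 25 8 24))))))) (.rp 8 (.thr 51 55 (.thr 27 39 (.thr 43 11 (.thr 41 40 (.thr 61 1 (.thr 60 62 (.thr 57 54 (.thr 53 49 (.dbl 58 48 56))))))))) (.rp 4 (.thr 51 55 (.thr 25 8 (.thr 12 38 (.dbl 29 17 46)))) .nd)))))))))) (.rp 37 (.str 38 (.nv (.thr 31 47 (.thr 26 16 (.thr 14 50 (.thr 12 13 (.thr 55 4 (.dbl 51 25 59)))))) (.nv (.thr 31 47 (.thr 26 16 (.thr 14 50 (.thr 12 13 (.dbl 46 29 34))))) (.nv (.thr 46 34 (.thr 12 29 (.thr 55 4 (.dbl 51 25 59)))) (.rp 52 (.str 7 (.nv (.thr 31 47 (.thr 26 16 (.thr 14 50 (.thr 12 13 (.dbl 46 29 34))))) (.nv (.thr 3 11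 (.thr 23 43 (.dbl 55 4 39))) (.rp 20 (.thr 4 55 (.thr 6 5 (.thr 3 11 (.thr 12 9 (.dbl 46 29 34))))) (.rp 4 (.str 20 (.nv (.thr 46 34 (.thr 12 29 (.thr 51 25 (.thr 39 27 (.dbl 55 23 59))))) (.nv (.thr 31 47 (.thr 26 16 (.thr 14 50 (.thr 12 13 (.dbl 46 29 34))))) (.nv (.thr 3 11 (.thr 43 23 (.thr 47 31 (.thr 35 39 (.dbl 41 40 44))))) (.rp 12 (.str 8 (.nv (.thr 25 59 (.thr 29 17 (.thr 31 47 (.thr 16 26 (.dbl 28 24 30))))) (.nv (.thr 3 11 (.thr 59 25 (.thr 23 43 (.dbl 55 39 51)))) (.nv (.thr 31 47 (.thr 26 16 (.thr 10 58 (.dbl 11 3 9)))) (.rp 48 (.str 24 (.nv (.thr 3 11 (.thr 43 23 (.dbl 40 41 56))) (.nv (.thr 31 47 (.dbl 16 26 28)) (.rp 60 (.thr 56 40 (.thr 31 47 (.dbl 16 26 28))) (.rp 56 (.str 60 (.nv (.thr 30 45 (.thr 46 34 (.dbl 62 14 61))) (.nv (.thr 31 47 (.dbl 16 26 28)) (.rp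 32 (.thr 16 28 (.dbl 31 26 47)) (.rp 16 (.str 32 (.nv (.thr 3 11 (.thr 43 23 (.thr 41 40 (.dbl 61 1 62)))) (.nv (.thr 46 34 (.thr 47 31 (.dbl 45 30 44))) .nd))) .nd))))) (.rp 32 (.thr 16 28 (.dbl 31 26 47)) (.rp 16 (.str 32 (.nv (.thr 3 11 (.thr 34 46 (.thr 59 25 (.thr 51 55 (.dbl 35 19 33))))) (.nv (.thr 3 11 (.thr 43 23 (.dbl 40 41 56))) (.rp 60 (.thr 56 40 (.thr 25 59 (.thr 26 27 (.dbl 11 3 41)))) (.rp 56 (.str 60 (.nv (.thr 3 11 (.thr 43 23 (.thr 41 40 (.dbl 61 1 62)))) (.nv (.thr 46 34 (.thr 47 31 (.dbl 45 30 44))) .nd))) (.rp 11 (.thr 34 46 (.thr 35 33 (.thr 41 44 (.dbl 40 43 56)))) (.rp 3 (.thr 46 34 (.thr 47 31 (.thr 44 45 (.thr 41 35 (.dbl 40 43 56))))) .nd))))))) .nd))))))) (.rp 24 (.str 48 (.nv (.thr 11 3 (.thr 59 25 (.thr 27 43 (.dbl 51 39 55)))) (.nv (.thr 31 47 (.thr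 26 16 (.dbl 58 10 53))) .nd))) .nd)))))) (.rp 8 (.str 12 (.nv (.thr 14 13 (.thr 26 50 (.dbl 31 16 47))) (.nv (.dbl 46 29 34) .nd))) .nd)))))) .nd))))) (.rp 25 (.thr 31 47 (.thr 46 34 (.thr 12 29 (.thr 26 16 (.dbl 14 13 50))))) (.rp 12 (.thr 31 47 (.thr 26 16 (.thr 58 10 (.thr 48 53 (.thr 50 14 (.thr 51 49 (.dbl 55 4 59))))))) (.rp 7 (.str 52 (.nv (.thr 31 47 (.thr 26 16 (.thr 14 50 (.thr 12 13 (.dbl 46 29 34))))) (.nv (.thr 31 47 (.thr 26 16 (.thr 50 14 (.thr 58 10 (.thr 54 62 (.dbl 53 48 55)))))) (.nv (.thr 46 34 (.thr 12 29 (.thr 55 4 (.dbl 51 25 59)))) (.rp 46 (.thr 31 47 (.thr 55 4 (.thr 53 54 (.thr 26 16 (.dbl 58 10 48))))) .nd))))) .nd)))))))) (.rp 32 (.thr 31 47 (.thr 26 16 (.thr 48 37 (.dbl 58 10 53)))) (.rp 31 (.str 59 (.nv (.thr 25 8 (.thr 51 55 (.thr 27 39 (.thr 26 24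 (.thr 58 10 (.dbl 48 37 53)))))) (.nv (.thr 51 55 (.thr 25 8 (.thr 29 17 (.dbl 12 38 46)))) (.rp 55 (.thr 25 8 (.thr 29 17 (.thr 12 46 (.thr 13 14 (.thr 37 49 (.thr 53 5 (.dbl 48 26 58))))))) (.rp 51 (.thr 25 8 (.str 12 (.nv (.dbl 29 17 46) (.rp 46 (.thr 13 14 (.thr 37 49 (.thr 53 5 (.dbl 48 26 58)))) (.rp 34 (.thr 17 29 (.thr 13 14 (.thr 37 49 (.thr 53 5 (.dbl 48 26 58))))) (.rp 29 (.thr 13 14 (.thr 37 49 (.thr 53 5 (.dbl 48 26 58)))) (.rp 17 (.str 34 (.nv (.dbl 46 29 38) (.rp 46 (.thr 13 14 (.thr 37 49 (.thr 53 5 (.dbl 48 26 58)))) (.rp 38 (.thr 13 14 (.thr 37 49 (.thr 53 5 (.dbl 48 26 58)))) (.rp 29 (.thr 13 14 (.thr 37 49 (.thr 53 5 (.dbl 48 26 58)))) .nd))))) .nd))))))) (.rp 38 (.thr 25 8 (.thr 29 17 (.thr 12 46 (.thr 13 14 (.thr 37 49 (.thr 53 5 (.dbl 48 26 58))))))) (.rp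 25 (.thr 51 55 (.thr 27 39 (.thr 43 11 (.thr 41 40 (.thr 61 1 (.thr 60 62 (.thr 57 54 (.thr 53 49 (.dbl 58 48 56))))))))) (.rp 12 (.thr 51 55 (.thr 27 39 (.thr 43 11 (.thr 41 40 (.thr 61 1 (.thr 60 62 (.thr 57 54 (.dbl 25 8 9)))))))) (.rp 8 (.thr 51 55 (.thr 27 39 (.thr 43 11 (.thr 41 40 (.thr 61 1 (.thr 60 62 (.thr 57 54 (.thr 53 49 (.dbl 58 48 56))))))))) (.rp 4 (.thr 51 55 (.thr 25 8 (.thr 12 38 (.dbl 29 17 46)))) .nd)))))))))) (.rp 26 (.str 30 (.nv (.thr 45 60 (.thr 47 31 (.thr 37 32 (.thr 41 33 (.thr 44 46 (.thr 35 38 (.dbl 43 39 40))))))) (.nv (.thr 31 47 (.thr 29 28 (.thr 25 17 (.thr 59 8 (.thr 51 55 (.dbl 12 38 46)))))) (.nv (.thr 31 47 (.thr 29 28 (.thr 60 45 (.thr 62 61 (.dbl 46 12 14))))) (.rp 47 (.thr 60 45 (.thr 62 61 (.thr 46 14 (.thr 38 34 (.thr 55 4 (.thr 51 59 (.dbl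 12 25 29))))))) (.rp 46 (.thr 45 60 (.thr 31 47 (.thr 29 28 (.thr 13 61 (.thr 12 14 (.thr 25 17 (.thr 59 8 (.dbl 51 38 55)))))))) (.rp 31 (.thr 60 45 (.thr 62 61 (.thr 46 14 (.thr 38 34 (.thr 55 4 (.thr 51 59 (.dbl 12 25 29))))))) .nd))))))) .nd)))))))))))

theorem w447 : WinAt (9223376434903384064, 68723671041) :=
  chF (K := []) kn c447 9223376434903384064 68723671041 0
    [] (by decide +kernel) (by decide +kernel)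

/-- A certificate. -/
noncomputable def c448 : Ct := (.str 41 (.nv (.thr 4 55 (.thr 40 43 (.thr 44 35 (.thr 36 32 (.thr 48 24 (.thr 52 20 (.dbl 60 28 56))))))) (.nv (.thr 46 34 (.thr 61 1 (.thr 63 29 (.thr 60 62 (.dbl 44 28 35))))) (.rp 60 (.thr 44 35 (.thr 46 34 (.thr 45 47 (.thr 29 63 (.dbl 61 1 13))))) (.rp 52 (.str 7 (.nv (.thr 43 40 (.thr 46 34 (.thr 55 4 (.thr 23 39 (.dbl 63 3 29))))) (.nv (.thr 44 35 (.thr 46 34 (.thr 61 1 (.thr 63 29 (.dbl 60 28 62))))) (.nv (.thr 35 44 (.thr 55 4 (.thr 39 23 (.dbl 43 40 47)))) (.rp 49 (.str 13 (.nv (.thr 4 55 (.thr 6 5 (.thr 3 9 (.dbl 15 11 14)))) (.nv (.thr 46 34 (.thr 29 63 (.dbl 61 1 45))) (.rp 28 (.str 19 (.nv (.thr 1 61 (.thr 4 55 (.dbl 5 6 9))) (.nv (.thr 15 14 (.thr 3 11 (.dbl 35 44 51))) .nd))) (.rp 19 (.str 28 (.nv (.thr 1 61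 (.thr 4 55 (.dbl 5 6 9))) (.nv (.dbl 44 35 60) .nd))) .nd))))) (.rp 28 (.str 19 (.nv (.thr 43 40 (.thr 35 44 (.thr 39 47 (.dbl 55 4 23)))) (.nv (.thr 35 44 (.thr 3 51 (.thr 43 40 (.thr 63 23 (.dbl 46 29 34))))) (.nv (.thr 43 40 (.thr 55 4 (.thr 23 39 (.thr 63 3 (.dbl 46 29 34))))) (.nv (.thr 35 44 (.thr 3 51 (.thr 6 9 (.dbl 4 5 55)))) (.rp 49 (.str 13 (.nv (.thr 1 61 (.thr 4 55 (.dbl 5 6 9))) (.nv (.thr 15 14 (.thr 3 11 (.dbl 35 44 51))) .nd))) (.rp 13 (.str 49 (.nv (.thr 1 61 (.thr 17 33 (.thr 16 18 (.thr 55 4 (.thr 23 39 (.dbl 31 26 27)))))) (.nv (.thr 35 44 (.thr 55 4 (.thr 39 23 (.dbl 43 40 47)))) (.nv (.thr 1 61 (.thr 33 17 (.thr 34 46 (.dbl 35 32 44)))) .nd)))) .nd))))))) (.rp 19 (.str 28 (.nv (.dbl 44 35 60) (.rp 60 (.thr 35 44 (.thr 55 4 (.thr 39 23 (.dbl 43 40 47)))) (.rp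 49 (.str 13 (.nv (.thr 1 61 (.thr 4 55 (.dbl 5 6 9))) (.nv (.dbl 44 35 60) .nd))) (.rp 44 (.thr 43 40 (.thr 46 34 (.thr 63 29 (.thr 23 3 (.dbl 55 4 39))))) (.rp 35 (.thr 46 34 (.thr 63 29 (.thr 61 1 (.dbl 60 44 62)))) (.rp 13 (.str 49 (.nv (.dbl 44 35 60) (.rp 60 (.thr 1 61 (.thr 33 17 (.thr 34 46 (.dbl 35 32 44)))) (.rp 44 (.thr 46 34 (.thr 43 40 (.thr 55 4 (.thr 23 39 (.dbl 63 3 29))))) (.rp 35 (.thr 60 44 (.thr 61 1 (.thr 46 34 (.dbl 63 29 62)))) .nd))))) .nd))))))) (.rp 13 (.str 49 (.nv (.thr 43 40 (.thr 46 34 (.thr 55 4 (.thr 23 39 (.dbl 63 3 29))))) (.nv (.thr 35 44 (.thr 55 4 (.thr 39 23 (.dbl 43 40 47)))) (.nv (.thr 35 44 (.thr 1 61 (.thr 33 17 (.dbl 34 32 46)))) (.rp 28 (.str 19 (.nv (.thr 1 61 (.thr 17 33 (.thr 16 18 (.thr 55 4 (.thr 23 39 (.dbl 31 26 27)))))) (.nv (.thr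 35 44 (.thr 55 4 (.thr 39 23 (.dbl 43 40 47)))) (.nv (.thr 1 61 (.thr 33 17 (.thr 34 46 (.dbl 35 32 44)))) .nd)))) (.rp 19 (.str 28 (.nv (.dbl 44 35 60) (.rp 60 (.thr 1 61 (.thr 33 17 (.thr 34 46 (.dbl 35 32 44)))) (.rp 44 (.thr 46 34 (.thr 43 40 (.thr 55 4 (.thr 23 39 (.dbl 63 3 29))))) (.rp 35 (.thr 60 44 (.thr 61 1 (.thr 46 34 (.dbl 63 29 62)))) .nd))))) .nd)))))) .nd)))))))) (.rp 49 (.str 13 (.nv (.thr 15 14 (.thr 44 35 (.thr 61 1 (.thr 45 29 (.dbl 60 28 30))))) (.nv (.thr 15 14 (.thr 44 35 (.thr 46 34 (.thr 45 47 (.dbl 60 28 30))))) (.nv (.thr 46 34 (.thr 29 63 (.dbl 61 1 45))) (.rp 52 (.str 7 (.nv (.thr 4 55 (.thr 6 5 (.thr 3 9 (.dbl 15 11 14)))) (.nv (.thr 46 34 (.thr 29 63 (.dbl 61 1 45))) (.rp 28 (.str 19 (.nv (.thr 1 61 (.thr 4 55 (.dbl 5 6 9))) (.nv (.thr 15 14 (.thr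 3 11 (.dbl 35 44 51))) .nd))) (.rp 19 (.str 28 (.nv (.thr 1 61 (.thr 4 55 (.dbl 5 6 9))) (.nv (.dbl 44 35 60) .nd))) .nd))))) (.rp 45 (.thr 14 15 (.thr 46 34 (.thr 63 29 (.thr 61 1 (.dbl 62 30 60))))) (.rp 28 (.str 19 (.nv (.thr 15 14 (.thr 35 44 (.thr 43 40 (.thr 51 3 (.dbl 39 27 47))))) (.nv (.thr 46 34 (.thr 29 63 (.dbl 61 1 45))) (.rp 52 (.str 7 (.nv (.thr 1 61 (.thr 4 55 (.dbl 5 6 9))) (.nv (.thr 15 14 (.thr 3 11 (.dbl 35 44 51))) .nd))) (.rp 51 (.thr 61 1 (.thr 29 45 (.dbl 46 34 63))) (.rp 7 (.str 52 (.nv (.thr 4 55 (.thr 36 20 (.thr 40 43 (.dbl 44 32 35)))) (.nv (.thr 46 34 (.thr 29 63 (.dbl 61 1 45))) .nd))) (.rp 1 (.thr 46 34 (.thr 44 35 (.thr 45 47 (.dbl 29 61 63)))) .nd))))))) (.rp 19 (.str 28 (.nv (.thr 46 34 (.thr 29 63 (.dbl 61 1 45))) (.nv (.dbl 44 35 60) (.rp 52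 (.str 7 (.nv (.thr 1 61 (.thr 4 55 (.dbl 5 6 9))) (.nv (.dbl 44 35 60) .nd))) (.rp 7 (.str 52 (.nv (.thr 46 34 (.thr 29 63 (.dbl 61 1 45))) (.nv (.dbl 44 35 60) .nd))) .nd))))) (.rp 17 (.thr 15 14 (.thr 43 40 (.thr 35 44 (.thr 47 39 (.thr 63 31 (.dbl 46 29 34)))))) (.rp 7 (.str 52 (.nv (.thr 4 55 (.thr 36 20 (.thr 40 43 (.dbl 44 32 35)))) (.nv (.thr 46 34 (.thr 29 63 (.dbl 61 1 45))) (.rp 28 (.str 19 (.nv (.thr 4 55 (.thr 36 20 (.thr 40 43 (.dbl 44 32 35)))) (.nv (.thr 46 34 (.thr 29 63 (.dbl 61 1 45))) .nd))) (.rp 19 (.str 28 (.nv (.thr 46 34 (.thr 29 63 (.dbl 61 1 45))) (.nv (.dbl 44 35 60) .nd))) .nd))))) .nd)))))))))) (.rp 44 (.thr 46 34 (.thr 29 63 (.thr 61 1 (.thr 13 45 (.thr 14 15 (.thr 30 62 (.thr 26 50 (.dbl 31 16 28)))))))) (.rp 35 (.thr 46 34 (.thr 29 63 (.thr 61 1 (.thr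 13 45 (.thr 14 15 (.thr 30 62 (.thr 26 50 (.dbl 31 16 28)))))))) (.rp 34 (.thr 35 44 (.str 51 (.nv (.thr 43 40 (.thr 39 47 (.thr 27 15 (.thr 55 4 (.dbl 59 11 63))))) (.nv (.thr 19 3 (.thr 43 40 (.thr 39 47 (.thr 27 15 (.thr 55 4 (.dbl 23 7 31)))))) (.nv (.thr 43 40 (.thr 55 4 (.thr 63 59 (.dbl 3 19 23)))) (.rp 63 (.thr 43 40 (.thr 39 47 (.thr 55 4 (.thr 7 23 (.thr 15 27 (.dbl 3 11 19)))))) (.rp 60 (.thr 40 43 (.str 48 (.nv (.thr 24 36 (.thr 56 8 (.thr 26 11 (.dbl 50 14 49)))) (.nv (.thr 49 50 (.thr 1 61 (.thr 33 17 (.dbl 3 18 19)))) (.rp 52 (.str 7 (.nv (.thr 4 55 (.thr 6 5 (.dbl 3 9 19))) (.nv (.thr 49 50 (.thr 1 61 (.thr 33 17 (.dbl 3 18 19)))) (.rp 49 (.str 13 (.nv (.thr 1 61 (.thr 4 55 (.dbl 5 6 9))) (.nv (.thr 15 14 (.dbl 3 11 19)) (.rp 28 (.thr 19 3 (.thr 15 14 (.thr 55 4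 (.dbl 39 23 27)))) (.rp 19 (.str 28 (.nv (.thr 14 15 (.thr 26 50 (.thr 16 31 (.dbl 24 20 36)))) (.nv (.thr 4 55 (.thr 5 6 (.dbl 1 9 61))) (.rp 5 (.thr 55 4 (.thr 39 23 (.dbl 15 14 27))) .nd)))) .nd))))) (.rp 28 (.thr 19 3 (.thr 24 36 (.thr 56 8 (.thr 26 11 (.dbl 50 14 49))))) (.rp 19 (.str 28 (.nv (.thr 24 36 (.thr 20 16 (.thr 56 8 (.thr 26 11 (.dbl 50 14 49))))) (.nv (.thr 49 50 (.thr 61 1 (.thr 53 57 (.thr 63 58 (.dbl 55 4 59))))) (.nv (.thr 4 55 (.thr 24 36 (.thr 16 20 (.thr 56 8 (.dbl 26 11 31))))) (.rp 56 (.thr 49 50 (.thr 55 4 (.thr 61 1 (.thr 53 57 (.dbl 63 58 59))))) (.rp 49 (.str 13 (.nv (.thr 14 15 (.thr 26 50 (.thr 16 31 (.dbl 24 20 36)))) (.nv (.thr 4 55 (.thr 5 6 (.dbl 1 9 61))) (.rp 5 (.thr 55 4 (.thr 39 23 (.dbl 15 14 27))) .nd)))) .nd)))))) (.rp 3 (.thr 24 36 (.thr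 56 8 (.thr 26 11 (.dbl 50 14 49)))) .nd))))))) (.rp 50 (.thr 55 4 (.thr 63 59 (.thr 58 53 (.thr 24 36 (.thr 56 8 (.dbl 26 10 11)))))) (.rp 49 (.str 13 (.nv (.thr 55 4 (.thr 63 59 (.thr 29 46 (.dbl 61 1 45)))) (.nv (.thr 15 14 (.thr 24 36 (.thr 56 8 (.thr 11 26 (.dbl 3 7 19))))) (.rp 52 (.str 7 (.nv (.thr 1 61 (.thr 4 55 (.dbl 5 6 9))) (.nv (.thr 15 14 (.dbl 3 11 19)) (.rp 28 (.thr 19 3 (.thr 15 14 (.thr 55 4 (.dbl 39 23 27)))) (.rp 19 (.str 28 (.nv (.thr 14 15 (.thr 26 50 (.thr 16 31 (.dbl 24 20 36)))) (.nv (.thr 4 55 (.thr 5 6 (.dbl 1 9 61))) (.rp 5 (.thr 55 4 (.thr 39 23 (.dbl 15 14 27))) .nd)))) .nd))))) (.rp 28 (.thr 19 3 (.thr 14 15 (.thr 24 36 (.thr 56 8 (.dbl 26 11 50))))) (.rp 19 (.str 28 (.nv (.thr 55 4 (.thr 61 1 (.thr 29 45 (.dbl 63 46 59)))) (.nv (.thr 24 36 (.thr 16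 20 (.thr 56 8 (.dbl 26 11 31)))) (.rp 52 (.str 7 (.nv (.thr 14 15 (.thr 26 50 (.thr 16 31 (.dbl 24 20 36)))) (.nv (.thr 4 55 (.thr 5 6 (.dbl 1 9 61))) (.rp 5 (.thr 55 4 (.thr 39 23 (.dbl 15 14 27))) .nd)))) (.rp 7 (.str 52 (.nv (.thr 14 15 (.thr 24 36 (.thr 16 20 (.dbl 26 31 50)))) (.nv (.thr 55 4 (.thr 53 54 (.dbl 63 58 59))) (.nv (.thr 36 24 (.dbl 4 20 55)) .nd)))) (.rp 4 (.thr 24 36 (.thr 14 15 (.thr 26 50 (.dbl 16 20 31)))) .nd)))))) (.rp 11 (.thr 1 61 (.thr 9 5 (.dbl 3 6 19))) (.rp 7 (.str 52 (.nv (.thr 1 61 (.thr 9 5 (.dbl 3 6 19))) (.nv (.thr 4 55 (.dbl 36 20 24)) (.rp 28 (.thr 19 3 (.thr 4 55 (.dbl 36 20 24))) (.rp 19 (.str 28 (.nv (.thr 14 15 (.thr 24 36 (.thr 16 20 (.dbl 26 31 50)))) (.nv (.thr 55 4 (.thr 53 54 (.dbl 63 58 59))) (.nv (.thr 36 24 (.dbl 4 20 55)) .nd))))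 (.rp 4 (.thr 14 15 (.thr 24 36 (.thr 56 8 (.dbl 26 11 50)))) .nd)))))) .nd)))))))) (.rp 28 (.thr 19 3 (.thr 24 36 (.thr 56 8 (.thr 26 11 (.dbl 50 14 49))))) (.rp 19 (.str 28 (.nv (.thr 49 50 (.thr 55 4 (.thr 61 1 (.thr 53 57 (.dbl 63 58 59))))) (.nv (.thr 24 36 (.thr 56 8 (.thr 16 20 (.dbl 26 11 31)))) (.rp 52 (.str 7 (.nv (.thr 24 36 (.thr 20 16 (.thr 56 8 (.thr 26 11 (.dbl 50 14 49))))) (.nv (.thr 49 50 (.thr 61 1 (.thr 53 57 (.thr 63 58 (.dbl 55 4 59))))) (.nv (.thr 4 55 (.thr 24 36 (.thr 16 20 (.thr 56 8 (.dbl 26 11 31))))) (.rp 56 (.thr 49 50 (.thr 55 4 (.thr 61 1 (.thr 53 57 (.dbl 63 58 59))))) (.rp 49 (.str 13 (.nv (.thr 14 15 (.thr 26 50 (.thr 16 31 (.dbl 24 20 36)))) (.nv (.thr 4 55 (.thr 5 6 (.dbl 1 9 61))) (.rp 5 (.thr 55 4 (.thr 39 23 (.dbl 15 14 27))) .nd)))) .nd))))))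 (.rp 49 (.str 13 (.nv (.thr 55 4 (.thr 61 1 (.thr 29 45 (.dbl 63 46 59)))) (.nv (.thr 24 36 (.thr 16 20 (.thr 56 8 (.dbl 26 11 31)))) (.rp 52 (.str 7 (.nv (.thr 14 15 (.thr 26 50 (.thr 16 31 (.dbl 24 20 36)))) (.nv (.thr 4 55 (.thr 5 6 (.dbl 1 9 61))) (.rp 5 (.thr 55 4 (.thr 39 23 (.dbl 15 14 27))) .nd)))) (.rp 7 (.str 52 (.nv (.thr 14 15 (.thr 24 36 (.thr 16 20 (.dbl 26 31 50)))) (.nv (.thr 55 4 (.thr 53 54 (.dbl 63 58 59))) (.nv (.thr 36 24 (.dbl 4 20 55)) .nd)))) (.rp 4 (.thr 24 36 (.thr 14 15 (.thr 26 50 (.dbl 16 20 31)))) .nd)))))) (.rp 7 (.str 52 (.nv (.thr 24 36 (.thr 16 20 (.thr 26 31 (.dbl 50 14 49)))) (.nv (.thr 49 50 (.thr 55 4 (.thr 53 54 (.dbl 61 1 57)))) (.nv (.thr 36 24 (.dbl 4 20 55)) (.rp 49 (.str 13 (.nv (.thr 14 15 (.thr 24 36 (.thr 16 20 (.dbl 26 31 50)))) (.nv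 (.thr 55 4 (.thr 53 54 (.dbl 63 58 59))) (.nv (.thr 36 24 (.dbl 4 20 55)) .nd)))) .nd))))) (.rp 4 (.thr 24 36 (.thr 56 8 (.thr 26 11 (.dbl 50 14 49)))) .nd))))))) (.rp 7 (.str 52 (.nv (.thr 49 50 (.thr 1 61 (.thr 33 17 (.dbl 3 18 19)))) (.nv (.thr 4 55 (.dbl 36 20 24)) (.rp 49 (.str 13 (.nv (.thr 1 61 (.thr 9 5 (.dbl 3 6 19))) (.nv (.thr 4 55 (.dbl 36 20 24)) (.rp 28 (.thr 19 3 (.thr 4 55 (.dbl 36 20 24))) (.rp 19 (.str 28 (.nv (.thr 14 15 (.thr 24 36 (.thr 16 20 (.dbl 26 31 50)))) (.nv (.thr 55 4 (.thr 53 54 (.dbl 63 58 59))) (.nv (.thr 36 24 (.dbl 4 20 55)) .nd)))) (.rp 4 (.thr 14 15 (.thr 24 36 (.thr 56 8 (.dbl 26 11 50)))) .nd)))))) (.rp 28 (.thr 19 3 (.thr 4 55 (.dbl 36 20 24))) (.rp 19 (.str 28 (.nv (.thr 24 36 (.thr 16 20 (.thr 26 31 (.dbl 50 14 49)))) (.nv (.thr 49 50 (.thr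 55 4 (.thr 53 54 (.dbl 61 1 57)))) (.nv (.thr 36 24 (.dbl 4 20 55)) (.rp 49 (.str 13 (.nv (.thr 14 15 (.thr 24 36 (.thr 16 20 (.dbl 26 31 50)))) (.nv (.thr 55 4 (.thr 53 54 (.dbl 63 58 59))) (.nv (.thr 36 24 (.dbl 4 20 55)) .nd)))) .nd))))) .nd)))))) .nd)))))))))) (.rp 55 (.thr 43 40 (.thr 39 47 (.thr 1 61 (.thr 15 27 (.thr 13 14 (.thr 9 5 (.dbl 3 6 19))))))) (.rp 52 (.str 7 (.nv (.thr 43 40 (.thr 39 47 (.thr 15 27 (.dbl 3 11 19)))) (.nv (.thr 4 55 (.thr 6 5 (.dbl 3 9 19))) (.nv (.thr 55 4 (.thr 39 23 (.dbl 43 40 47))) (.rp 49 (.str 13 (.nv (.thr 1 61 (.thr 4 55 (.dbl 5 6 9))) (.nv (.thr 15 14 (.dbl 3 11 19)) (.rp 28 (.thr 19 3 (.thr 43 40 (.thr 39 47 (.dbl 15 14 27)))) (.rp 19 (.str 28 (.nv (.thr 15 14 (.thr 43 40 (.dbl 39 27 47))) (.nv (.thr 1 61 (.thr 4 55 (.dbl 5 6 9))) (.nv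 (.thr 15 14 (.thr 55 4 (.dbl 39 23 27))) .nd)))) .nd))))) (.rp 28 (.thr 19 3 (.thr 43 40 (.thr 39 47 (.dbl 55 4 23)))) (.rp 19 (.str 28 (.nv (.thr 55 4 (.thr 23 39 (.thr 63 59 (.dbl 43 3 40)))) (.nv (.thr 43 40 (.thr 55 4 (.dbl 39 23 47))) (.rp 55 (.thr 43 40 (.thr 39 47 (.thr 15 27 (.thr 11 3 (.thr 26 56 (.dbl 14 13 50)))))) (.rp 49 (.str 13 (.nv (.thr 15 14 (.thr 43 40 (.dbl 39 27 47))) (.nv (.thr 1 61 (.thr 4 55 (.dbl 5 6 9))) (.nv (.thr 15 14 (.thr 55 4 (.dbl 39 23 27))) .nd)))) (.rp 43 (.thr 55 4 (.thr 39 23 (.thr 63 59 (.thr 29 46 (.thr 31 30 (.dbl 15 27 47)))))) (.rp 40 (.thr 55 4 (.thr 39 23 (.thr 43 47 (.thr 27 15 (.dbl 59 11 63))))) (.rp 39 (.thr 43 40 (.thr 55 4 (.thr 59 63 (.thr 11 27 (.thr 15 3 (.thr 26 56 (.dbl 14 13 50))))))) (.rp 36 (.thr 4 55 (.thr 6 5 (.thr 3 9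 (.thr 15 11 (.thr 39 27 (.dbl 43 40 47)))))) (.rp 23 (.thr 43 40 (.thr 39 47 (.thr 27 15 (.thr 55 4 (.dbl 59 11 63))))) (.rp 20 (.thr 4 55 (.thr 6 5 (.thr 3 9 (.thr 15 11 (.thr 39 27 (.dbl 43 40 47)))))) (.rp 13 (.str 49 (.nv (.thr 48 50 (.thr 61 1 (.thr 53 57 (.thr 63 58 (.dbl 55 4 59))))) (.nv (.thr 55 4 (.thr 39 23 (.dbl 43 40 47))) (.rp 55 (.thr 48 50 (.thr 40 43 (.thr 24 36 (.thr 56 8 (.thr 26 11 (.dbl 16 20 31)))))) (.rp 4 (.thr 43 40 (.thr 39 47 (.thr 23 55 (.thr 15 27 (.dbl 3 11 63))))) .nd))))) (.rp 4 (.thr 43 40 (.thr 39 47 (.thr 15 27 (.thr 3 11 (.dbl 23 55 63))))) .nd))))))))))))) (.rp 13 (.str 49 (.nv (.thr 1 61 (.thr 33 17 (.thr 48 50 (.dbl 3 18 19)))) (.nv (.thr 55 4 (.thr 39 23 (.dbl 43 40 47))) (.rp 28 (.thr 19 3 (.thr 43 40 (.thr 39 47 (.dbl 55 4 23)))) (.rp 19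 (.str 28 (.nv (.thr 48 50 (.thr 61 1 (.thr 53 57 (.thr 63 58 (.dbl 55 4 59))))) (.nv (.thr 55 4 (.thr 39 23 (.dbl 43 40 47))) (.rp 55 (.thr 48 50 (.thr 40 43 (.thr 24 36 (.thr 56 8 (.thr 26 11 (.dbl 16 20 31)))))) (.rp 4 (.thr 43 40 (.thr 39 47 (.thr 23 55 (.thr 15 27 (.dbl 3 11 63))))) .nd))))) .nd))))) .nd)))))))) (.rp 49 (.str 13 (.nv (.thr 55 4 (.thr 61 1 (.thr 63 59 (.dbl 29 45 46)))) (.nv (.thr 15 14 (.thr 39 27 (.dbl 43 40 47))) (.rp 52 (.str 7 (.nv (.thr 1 61 (.thr 4 55 (.dbl 5 6 9))) (.nv (.thr 15 14 (.dbl 3 11 19)) (.rp 28 (.thr 19 3 (.thr 43 40 (.thr 39 47 (.dbl 15 14 27)))) (.rp 19 (.str 28 (.nv (.thr 15 14 (.thr 43 40 (.dbl 39 27 47))) (.nv (.thr 1 61 (.thr 4 55 (.dbl 5 6 9))) (.nv (.thr 15 14 (.thr 55 4 (.dbl 39 23 27))) .nd)))) .nd))))) (.rp 28 (.thr 19 3 (.thr 43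 40 (.thr 39 47 (.dbl 15 14 27)))) (.rp 19 (.str 28 (.nv (.thr 15 14 (.thr 43 40 (.dbl 39 27 47))) (.nv (.thr 55 4 (.thr 63 59 (.thr 29 46 (.dbl 61 1 45)))) (.rp 52 (.str 7 (.nv (.thr 15 14 (.thr 43 40 (.dbl 39 27 47))) (.nv (.thr 1 61 (.thr 4 55 (.dbl 5 6 9))) (.nv (.thr 15 14 (.thr 55 4 (.dbl 39 23 27))) .nd)))) (.rp 47 (.thr 55 4 (.thr 63 59 (.thr 61 1 (.dbl 29 45 46)))) (.rp 7 (.str 52 (.nv (.thr 55 4 (.thr 61 1 (.thr 63 59 (.dbl 29 45 46)))) (.nv (.thr 43 40 (.thr 15 14 (.dbl 39 27 47))) .nd))) .nd)))))) (.rp 7 (.str 52 (.nv (.thr 55 4 (.thr 61 1 (.thr 63 59 (.dbl 29 45 46)))) (.nv (.thr 15 14 (.thr 39 27 (.dbl 43 40 47))) (.rp 28 (.thr 19 3 (.thr 43 40 (.thr 39 47 (.dbl 15 14 27)))) (.rp 19 (.str 28 (.nv (.thr 55 4 (.thr 61 1 (.thr 63 59 (.dbl 29 45 46)))) (.nv (.thr 43 40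 (.thr 15 14 (.dbl 39 27 47))) .nd))) .nd))))) .nd))))))) (.rp 43 (.thr 61 1 (.thr 55 4 (.thr 63 59 (.thr 62 60 (.thr 46 29 (.thr 14 30 (.thr 26 50 (.thr 31 16 (.dbl 15 13 47))))))))) (.rp 40 (.thr 61 1 (.thr 55 4 (.thr 63 59 (.thr 60 62 (.thr 57 54 (.thr 49 53 (.thr 50 48 (.thr 14 26 (.thr 15 13 (.thr 47 31 (.dbl 39 27 43))))))))))) (.rp 36 (.thr 61 1 (.thr 55 4 (.thr 63 59 (.thr 62 60 (.thr 46 29 (.thr 14 30 (.thr 26 50 (.thr 31 16 (.dbl 15 13 47))))))))) (.rp 32 (.thr 61 1 (.thr 55 4 (.thr 63 59 (.thr 62 60 (.thr 46 29 (.thr 14 30 (.thr 26 50 (.thr 58 10 (.thr 48 53 (.thr 31 16 (.dbl 15 13 47))))))))))) (.rp 20 (.thr 61 1 (.thr 55 4 (.thr 63 59 (.thr 43 40 (.thr 60 62 (.dbl 3 19 23)))))) (.rp 19 (.str 28 (.nv (.thr 55 4 (.thr 63 59 (.thr 29 46 (.thr 31 30 (.thr 47 15 (.dbl 43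 39 40)))))) (.nv (.thr 43 40 (.thr 55 4 (.thr 59 63 (.thr 27 11 (.dbl 39 15 47))))) (.rp 63 (.thr 43 40 (.thr 39 47 (.thr 55 4 (.thr 1 61 (.thr 15 27 (.thr 13 14 (.thr 9 5 (.thr 3 6 (.dbl 7 11 23))))))))) (.rp 60 (.thr 55 4 (.thr 63 59 (.thr 29 46 (.thr 31 30 (.thr 26 16 (.thr 14 50 (.dbl 15 13 47))))))) (.rp 59 (.thr 43 40 (.thr 39 47 (.thr 55 4 (.thr 1 61 (.thr 15 27 (.thr 13 14 (.thr 9 5 (.thr 3 6 (.dbl 7 11 23))))))))) (.rp 55 (.thr 43 40 (.thr 39 47 (.thr 61 1 (.thr 15 27 (.thr 13 14 (.thr 29 45 (.thr 46 63 (.thr 31 30 (.thr 26 16 (.thr 58 10 (.thr 56 11 (.thr 57 59 (.thr 49 53 (.thr 48 50 (.dbl 60 52 54))))))))))))))) (.rp 52 (.str 7 (.nv (.thr 55 4 (.thr 23 39 (.thr 63 59 (.dbl 43 3 40)))) (.nv (.thr 43 40 (.thr 55 4 (.dbl 39 23 47))) (.rp 55 (.thr 43 40 (.thr 39 47 (.thr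 15 27 (.thr 11 3 (.thr 26 56 (.dbl 14 13 50)))))) (.rp 49 (.str 13 (.nv (.thr 15 14 (.thr 43 40 (.dbl 39 27 47))) (.nv (.thr 1 61 (.thr 4 55 (.dbl 5 6 9))) (.nv (.thr 15 14 (.thr 55 4 (.dbl 39 23 27))) .nd)))) (.rp 43 (.thr 55 4 (.thr 39 23 (.thr 63 59 (.thr 29 46 (.thr 31 30 (.dbl 15 27 47)))))) (.rp 40 (.thr 55 4 (.thr 39 23 (.thr 43 47 (.thr 27 15 (.dbl 59 11 63))))) (.rp 39 (.thr 43 40 (.thr 55 4 (.thr 59 63 (.thr 11 27 (.thr 15 3 (.thr 26 56 (.dbl 14 13 50))))))) (.rp 36 (.thr 4 55 (.thr 6 5 (.thr 3 9 (.thr 15 11 (.thr 39 27 (.dbl 43 40 47)))))) (.rp 23 (.thr 43 40 (.thr 39 47 (.thr 27 15 (.thr 55 4 (.dbl 59 11 63))))) (.rp 20 (.thr 4 55 (.thr 6 5 (.thr 3 9 (.thr 15 11 (.thr 39 27 (.dbl 43 40 47)))))) (.rp 13 (.str 49 (.nv (.thr 48 50 (.thr 61 1 (.thr 53 57 (.thr 63 58 (.dbl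 55 4 59))))) (.nv (.thr 55 4 (.thr 39 23 (.dbl 43 40 47))) (.rp 55 (.thr 48 50 (.thr 40 43 (.thr 24 36 (.thr 56 8 (.thr 26 11 (.dbl 16 20 31)))))) (.rp 4 (.thr 43 40 (.thr 39 47 (.thr 23 55 (.thr 15 27 (.dbl 3 11 63))))) .nd))))) (.rp 4 (.thr 43 40 (.thr 39 47 (.thr 15 27 (.thr 3 11 (.dbl 23 55 63))))) .nd))))))))))))) (.rp 49 (.str 13 (.nv (.thr 15 14 (.thr 43 40 (.dbl 39 27 47))) (.nv (.thr 55 4 (.thr 63 59 (.thr 29 46 (.dbl 61 1 45)))) (.rp 52 (.str 7 (.nv (.thr 15 14 (.thr 43 40 (.dbl 39 27 47))) (.nv (.thr 1 61 (.thr 4 55 (.dbl 5 6 9))) (.nv (.thr 15 14 (.thr 55 4 (.dbl 39 23 27))) .nd)))) (.rp 47 (.thr 55 4 (.thr 63 59 (.thr 61 1 (.dbl 29 45 46)))) (.rp 7 (.str 52 (.nv (.thr 55 4 (.thr 61 1 (.thr 63 59 (.dbl 29 45 46)))) (.nv (.thr 43 40 (.thr 15 14 (.dbl 39 27 47))) .nd)))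 .nd)))))) (.rp 47 (.thr 55 4 (.thr 63 59 (.thr 61 1 (.thr 60 62 (.thr 57 54 (.thr 49 53 (.thr 29 46 (.thr 45 13 (.dbl 30 15 31))))))))) (.rp 43 (.thr 55 4 (.thr 63 59 (.thr 29 46 (.thr 30 31 (.thr 61 1 (.thr 60 62 (.dbl 45 13 15))))))) (.rp 40 (.thr 55 4 (.thr 63 59 (.thr 29 46 (.thr 30 31 (.thr 61 1 (.thr 60 62 (.dbl 45 13 15))))))) (.rp 39 (.thr 55 4 (.thr 63 59 (.thr 29 46 (.thr 30 31 (.thr 61 1 (.thr 60 62 (.dbl 45 13 15))))))) (.rp 15 (.thr 43 40 (.thr 39 47 (.thr 55 4 (.thr 63 59 (.dbl 23 3 7))))) (.rp 13 (.str 49 (.nv (.thr 40 43 (.thr 50 48 (.thr 26 14 (.thr 16 31 (.thr 24 20 (.dbl 56 8 11)))))) (.nv (.thr 48 50 (.thr 55 4 (.thr 63 59 (.thr 53 58 (.dbl 61 1 57))))) (.nv (.thr 43 40 (.thr 55 4 (.thr 59 63 (.thr 27 11 (.dbl 39 15 47))))) (.rp 52 (.str 7 (.nv (.thr 48 50 (.thr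 61 1 (.thr 53 57 (.thr 63 58 (.dbl 55 4 59))))) (.nv (.thr 55 4 (.thr 39 23 (.dbl 43 40 47))) (.rp 55 (.thr 48 50 (.thr 40 43 (.thr 24 36 (.thr 56 8 (.thr 26 11 (.dbl 16 20 31)))))) (.rp 4 (.thr 43 40 (.thr 39 47 (.thr 23 55 (.thr 15 27 (.dbl 3 11 63))))) .nd))))) (.rp 7 (.str 52 (.nv (.thr 40 43 (.thr 48 50 (.thr 24 36 (.dbl 56 8 60)))) (.nv (.thr 55 4 (.thr 53 54 (.dbl 61 1 57))) .nd))) .nd)))))) (.rp 7 (.str 52 (.nv (.thr 4 55 (.thr 20 36 (.thr 16 24 (.thr 26 31 (.thr 50 14 (.thr 56 11 (.dbl 48 49 60))))))) (.nv (.thr 61 1 (.thr 55 4 (.thr 54 53 (.thr 60 57 (.dbl 63 59 62))))) (.rp 60 (.thr 55 4 (.thr 53 54 (.thr 63 59 (.thr 48 58 (.thr 61 1 (.dbl 49 50 57)))))) (.rp 55 (.thr 43 40 (.thr 39 47 (.thr 61 1 (.thr 15 27 (.thr 13 14 (.thr 45 29 (.thr 60 30 (.thr 48 56 (.thr 57 54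 (.dbl 49 50 53)))))))))) (.rp 49 (.str 13 (.nv (.thr 55 4 (.thr 61 1 (.thr 63 59 (.dbl 29 45 46)))) (.nv (.thr 43 40 (.thr 15 14 (.dbl 39 27 47))) .nd))) (.rp 13 (.str 49 (.nv (.thr 40 43 (.thr 48 50 (.thr 24 36 (.dbl 56 8 60)))) (.nv (.thr 55 4 (.thr 53 54 (.dbl 61 1 57))) .nd))) (.rp 4 (.thr 43 40 (.thr 39 47 (.thr 61 1 (.thr 15 27 (.thr 13 14 (.thr 45 29 (.thr 60 30 (.thr 48 56 (.thr 57 54 (.dbl 49 50 53)))))))))) (.rp 3 (.thr 43 40 (.thr 39 47 (.thr 55 4 (.thr 59 63 (.dbl 27 11 15))))) .nd))))))))) (.rp 4 (.thr 43 40 (.thr 39 47 (.thr 1 61 (.thr 15 27 (.thr 13 14 (.thr 9 5 (.thr 3 6 (.thr 7 11 (.dbl 23 55 63))))))))) .nd))))))))))))))))) (.rp 13 (.str 49 (.nv (.thr 43 40 (.thr 55 4 (.thr 59 63 (.thr 27 11 (.dbl 39 15 47))))) (.nv (.thr 1 61 (.thr 33 17 (.thr 48 50 (.dbl 3 18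 19)))) (.rp 52 (.str 7 (.nv (.thr 1 61 (.thr 33 17 (.thr 48 50 (.dbl 3 18 19)))) (.nv (.thr 55 4 (.thr 39 23 (.dbl 43 40 47))) (.rp 28 (.thr 19 3 (.thr 43 40 (.thr 39 47 (.dbl 55 4 23)))) (.rp 19 (.str 28 (.nv (.thr 48 50 (.thr 61 1 (.thr 53 57 (.thr 63 58 (.dbl 55 4 59))))) (.nv (.thr 55 4 (.thr 39 23 (.dbl 43 40 47))) (.rp 55 (.thr 48 50 (.thr 40 43 (.thr 24 36 (.thr 56 8 (.thr 26 11 (.dbl 16 20 31)))))) (.rp 4 (.thr 43 40 (.thr 39 47 (.thr 23 55 (.thr 15 27 (.dbl 3 11 63))))) .nd))))) .nd))))) (.rp 28 (.thr 19 3 (.thr 43 40 (.thr 39 47 (.thr 55 4 (.thr 59 63 (.dbl 27 11 15)))))) (.rp 19 (.str 28 (.nv (.thr 40 43 (.thr 50 48 (.thr 26 14 (.thr 16 31 (.thr 24 20 (.dbl 56 8 11)))))) (.nv (.thr 48 50 (.thr 55 4 (.thr 63 59 (.thr 53 58 (.dbl 61 1 57))))) (.nv (.thr 43 40 (.thr 55 4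 (.thr 59 63 (.thr 27 11 (.dbl 39 15 47))))) (.rp 52 (.str 7 (.nv (.thr 48 50 (.thr 61 1 (.thr 53 57 (.thr 63 58 (.dbl 55 4 59))))) (.nv (.thr 55 4 (.thr 39 23 (.dbl 43 40 47))) (.rp 55 (.thr 48 50 (.thr 40 43 (.thr 24 36 (.thr 56 8 (.thr 26 11 (.dbl 16 20 31)))))) (.rp 4 (.thr 43 40 (.thr 39 47 (.thr 23 55 (.thr 15 27 (.dbl 3 11 63))))) .nd))))) (.rp 7 (.str 52 (.nv (.thr 40 43 (.thr 48 50 (.thr 24 36 (.dbl 56 8 60)))) (.nv (.thr 55 4 (.thr 53 54 (.dbl 61 1 57))) .nd))) .nd)))))) (.rp 7 (.str 52 (.nv (.thr 40 43 (.thr 48 50 (.thr 24 36 (.dbl 56 8 60)))) (.nv (.thr 55 4 (.thr 53 54 (.dbl 61 1 57))) (.rp 28 (.thr 19 3 (.thr 48 50 (.thr 4 55 (.dbl 36 20 24)))) (.rp 19 (.str 28 (.nv (.thr 40 43 (.thr 48 50 (.thr 24 36 (.dbl 56 8 60)))) (.nv (.thr 55 4 (.thr 53 54 (.dbl 61 1 57))) .nd)))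 .nd))))) .nd))))))) (.rp 7 (.str 52 (.nv (.thr 55 4 (.thr 54 53 (.thr 60 57 (.thr 63 59 (.dbl 61 1 62))))) (.nv (.thr 43 40 (.thr 55 4 (.thr 63 59 (.dbl 3 19 23)))) (.rp 63 (.thr 40 43 (.thr 4 55 (.thr 36 20 (.thr 48 24 (.thr 56 60 (.thr 26 11 (.dbl 50 14 49))))))) (.rp 60 (.thr 61 1 (.thr 55 4 (.thr 63 59 (.thr 53 54 (.thr 49 57 (.dbl 48 50 58)))))) (.rp 59 (.thr 43 40 (.thr 39 47 (.thr 1 61 (.thr 15 27 (.thr 13 14 (.thr 9 5 (.dbl 3 6 19))))))) (.rp 55 (.thr 43 40 (.thr 39 47 (.thr 1 61 (.thr 15 27 (.thr 13 14 (.thr 9 5 (.dbl 3 6 19))))))) (.rp 49 (.str 13 (.nv (.thr 55 4 (.thr 61 1 (.thr 63 59 (.dbl 29 45 46)))) (.nv (.thr 15 14 (.thr 39 27 (.dbl 43 40 47))) (.rp 28 (.thr 19 3 (.thr 43 40 (.thr 39 47 (.dbl 15 14 27)))) (.rp 19 (.str 28 (.nv (.thr 55 4 (.thr 61 1 (.thr 63 59 (.dbl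 29 45 46)))) (.nv (.thr 43 40 (.thr 15 14 (.dbl 39 27 47))) .nd))) .nd))))) (.rp 28 (.thr 19 3 (.thr 43 40 (.thr 39 47 (.thr 55 4 (.thr 59 63 (.dbl 27 11 15)))))) (.rp 19 (.str 28 (.nv (.thr 4 55 (.thr 20 36 (.thr 16 24 (.thr 26 31 (.thr 50 14 (.thr 56 11 (.dbl 48 49 60))))))) (.nv (.thr 61 1 (.thr 55 4 (.thr 54 53 (.thr 60 57 (.dbl 63 59 62))))) (.rp 60 (.thr 55 4 (.thr 53 54 (.thr 63 59 (.thr 48 58 (.thr 61 1 (.dbl 49 50 57)))))) (.rp 55 (.thr 43 40 (.thr 39 47 (.thr 61 1 (.thr 15 27 (.thr 13 14 (.thr 45 29 (.thr 60 30 (.thr 48 56 (.thr 57 54 (.dbl 49 50 53)))))))))) (.rp 49 (.str 13 (.nv (.thr 55 4 (.thr 61 1 (.thr 63 59 (.dbl 29 45 46)))) (.nv (.thr 43 40 (.thr 15 14 (.dbl 39 27 47))) .nd))) (.rp 13 (.str 49 (.nv (.thr 40 43 (.thr 48 50 (.thr 24 36 (.dbl 56 8 60)))) (.nv (.thr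 55 4 (.thr 53 54 (.dbl 61 1 57))) .nd))) (.rp 4 (.thr 43 40 (.thr 39 47 (.thr 61 1 (.thr 15 27 (.thr 13 14 (.thr 45 29 (.thr 60 30 (.thr 48 56 (.thr 57 54 (.dbl 49 50 53)))))))))) (.rp 3 (.thr 43 40 (.thr 39 47 (.thr 55 4 (.thr 59 63 (.dbl 27 11 15))))) .nd))))))))) (.rp 13 (.str 49 (.nv (.thr 40 43 (.thr 48 50 (.thr 24 36 (.dbl 56 8 60)))) (.nv (.thr 55 4 (.thr 53 54 (.dbl 61 1 57))) (.rp 28 (.thr 19 3 (.thr 48 50 (.thr 4 55 (.dbl 36 20 24)))) (.rp 19 (.str 28 (.nv (.thr 40 43 (.thr 48 50 (.thr 24 36 (.dbl 56 8 60)))) (.nv (.thr 55 4 (.thr 53 54 (.dbl 61 1 57))) .nd))) .nd))))) (.rp 6 (.thr 40 43 (.thr 4 55 (.thr 36 20 (.thr 48 24 (.thr 56 60 (.thr 26 11 (.dbl 50 14 49))))))) (.rp 5 (.thr 40 43 (.thr 4 55 (.thr 36 20 (.thr 48 24 (.thr 56 60 (.thr 26 11 (.dbl 50 14 49))))))) (.rp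 4 (.thr 43 40 (.thr 39 47 (.thr 19 3 (.thr 27 15 (.thr 11 59 (.thr 31 23 (.dbl 26 16 56))))))) .nd)))))))))))))) (.rp 4 (.thr 43 40 (.thr 39 47 (.thr 27 15 (.thr 59 11 (.thr 63 55 (.dbl 3 19 23)))))) .nd))))))))))))))))))) (.rp 28 (.str 19 (.nv (.thr 44 35 (.thr 46 34 (.thr 29 63 (.thr 45 47 (.dbl 61 1 13))))) (.nv (.thr 35 44 (.thr 3 51 (.thr 43 40 (.thr 23 63 (.thr 55 4 (.dbl 39 7 47)))))) (.nv (.thr 35 44 (.thr 46 34 (.thr 51 3 (.thr 55 4 (.dbl 63 29 59))))) (.rp 63 (.thr 34 46 (.thr 35 44 (.thr 33 32 (.thr 3 51 (.thr 18 48 (.thr 16 17 (.thr 26 31 (.dbl 50 2 14)))))))) (.rp 52 (.str 7 (.nv (.thr 43 40 (.thr 35 44 (.thr 39 47 (.dbl 55 4 23)))) (.nv (.thr 35 44 (.thr 3 51 (.thr 43 40 (.thr 63 23 (.dbl 46 29 34))))) (.nv (.thr 43 40 (.thr 55 4 (.thr 23 39 (.thr 63 3 (.dbl 46 29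 34))))) (.nv (.thr 35 44 (.thr 3 51 (.thr 6 9 (.dbl 4 5 55)))) (.rp 49 (.str 13 (.nv (.thr 1 61 (.thr 4 55 (.dbl 5 6 9))) (.nv (.thr 15 14 (.thr 3 11 (.dbl 35 44 51))) .nd))) (.rp 13 (.str 49 (.nv (.thr 1 61 (.thr 17 33 (.thr 16 18 (.thr 55 4 (.thr 23 39 (.dbl 31 26 27)))))) (.nv (.thr 35 44 (.thr 55 4 (.thr 39 23 (.dbl 43 40 47)))) (.nv (.thr 1 61 (.thr 33 17 (.thr 34 46 (.dbl 35 32 44)))) .nd)))) .nd))))))) (.rp 51 (.thr 1 61 (.thr 34 46 (.str 13 (.nv (.thr 9 5 (.thr 3 6 (.thr 35 44 (.thr 33 32 (.thr 17 49 (.dbl 18 16 48)))))) (.nv (.thr 35 44 (.thr 33 32 (.thr 17 49 (.thr 16 18 (.thr 26 31 (.dbl 14 15 50)))))) (.nv (.thr 9 5 (.thr 6 3 (.thr 14 15 (.thr 10 2 (.dbl 26 50 58))))) (.rp 52 (.str 7 (.nv (.thr 9 5 (.thr 3 6 (.dbl 15 11 14))) (.nv (.thr 35 44 (.thr 43 40 (.thr 55 4 (.dbl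 39 23 47)))) (.nv (.thr 5 9 (.dbl 4 6 55)) .nd)))) (.rp 50 (.thr 9 5 (.thr 6 3 (.thr 14 15 (.thr 10 2 (.thr 11 8 (.dbl 26 56 58)))))) (.rp 48 (.thr 9 5 (.thr 15 14 (.thr 3 6 (.thr 7 11 (.thr 43 40 (.thr 23 63 (.dbl 55 4 39))))))) (.rp 15 (.thr 35 44 (.thr 33 32 (.thr 17 49 (.thr 16 18 (.thr 26 31 (.thr 9 5 (.thr 10 58 (.dbl 11 8 56)))))))) (.rp 7 (.str 52 (.nv (.thr 14 15 (.thr 26 50 (.thr 10 58 (.thr 6 2 (.dbl 9 3 5))))) (.nv (.thr 40 43 (.thr 44 35 (.thr 36 32 (.dbl 4 20 55)))) (.rp 48 (.thr 44 35 (.thr 4 55 (.thr 36 20 (.dbl 40 32 43)))) (.rp 39 (.thr 35 44 (.thr 33 32 (.thr 17 49 (.thr 16 18 (.thr 26 31 (.dbl 14 15 50)))))) .nd))))) .nd))))))))))) (.rp 49 (.str 13 (.nv (.thr 15 14 (.thr 35 44 (.thr 43 40 (.thr 51 3 (.dbl 39 27 47))))) (.nv (.thr 46 34 (.thr 29 63 (.dbl 61 1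 45))) (.rp 52 (.str 7 (.nv (.thr 1 61 (.thr 4 55 (.dbl 5 6 9))) (.nv (.thr 15 14 (.thr 3 11 (.dbl 35 44 51))) .nd))) (.rp 51 (.thr 61 1 (.thr 29 45 (.dbl 46 34 63))) (.rp 7 (.str 52 (.nv (.thr 4 55 (.thr 36 20 (.thr 40 43 (.dbl 44 32 35)))) (.nv (.thr 46 34 (.thr 29 63 (.dbl 61 1 45))) .nd))) (.rp 1 (.thr 46 34 (.thr 44 35 (.thr 45 47 (.dbl 29 61 63)))) .nd))))))) (.rp 44 (.thr 46 34 (.thr 43 40 (.thr 63 29 (.thr 3 23 (.thr 55 4 (.dbl 51 35 59)))))) (.rp 35 (.thr 46 34 (.thr 43 40 (.thr 63 29 (.thr 23 3 (.thr 31 27 (.thr 26 16 (.thr 15 47 (.dbl 14 13 50)))))))) (.rp 34 (.thr 35 44 (.thr 43 40 (.thr 39 47 (.thr 55 4 (.thr 51 3 (.thr 27 15 (.dbl 23 7 31))))))) (.rp 13 (.str 49 (.nv (.thr 35 44 (.thr 46 34 (.thr 51 3 (.thr 55 4 (.dbl 63 29 59))))) (.nv (.thr 1 61 (.thr 33 17 (.thr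 34 46 (.dbl 35 32 44)))) (.rp 52 (.str 7 (.nv (.thr 1 61 (.thr 17 33 (.thr 16 18 (.thr 55 4 (.thr 23 39 (.dbl 31 26 27)))))) (.nv (.thr 35 44 (.thr 55 4 (.thr 39 23 (.dbl 43 40 47)))) (.nv (.thr 1 61 (.thr 33 17 (.thr 34 46 (.dbl 35 32 44)))) .nd)))) (.rp 46 (.thr 55 4 (.thr 35 44 (.thr 3 51 (.thr 43 40 (.thr 23 63 (.dbl 39 7 47)))))) (.rp 44 (.thr 46 34 (.thr 63 29 (.thr 55 4 (.thr 51 59 (.thr 3 35 (.dbl 43 23 40)))))) (.rp 35 (.thr 61 1 (.thr 53 57 (.thr 46 34 (.thr 63 29 (.thr 55 4 (.thr 51 59 (.dbl 48 50 58))))))) (.rp 34 (.thr 1 61 (.thr 17 33 (.thr 35 44 (.thr 16 18 (.thr 26 31 (.thr 50 14 (.dbl 51 3 48))))))) (.rp 29 (.thr 34 46 (.thr 35 44 (.thr 33 32 (.dbl 1 17 61)))) (.rp 7 (.str 52 (.nv (.thr 35 44 (.thr 3 51 (.thr 43 40 (.thr 63 23 (.dbl 46 29 34))))) (.nv (.thr 55 4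 (.thr 53 54 (.dbl 61 1 57))) (.rp 55 (.thr 35 44 (.thr 34 46 (.thr 33 32 (.dbl 1 17 61)))) .nd)))) (.rp 1 (.thr 46 34 (.thr 63 29 (.thr 55 4 (.thr 51 59 (.dbl 35 3 44))))) .nd))))))))))) (.rp 7 (.str 52 (.nv (.thr 35 44 (.thr 46 34 (.thr 51 3 (.thr 55 4 (.dbl 63 29 59))))) (.nv (.thr 44 35 (.thr 46 34 (.thr 29 63 (.thr 61 1 (.dbl 45 13 47))))) (.nv (.thr 4 55 (.thr 40 43 (.thr 44 35 (.dbl 36 20 32)))) (.rp 49 (.str 13 (.nv (.thr 4 55 (.thr 36 20 (.thr 40 43 (.dbl 44 32 35)))) (.nv (.thr 46 34 (.thr 29 63 (.dbl 61 1 45))) .nd))) (.rp 44 (.thr 43 40 (.thr 55 4 (.thr 46 34 (.thr 63 29 (.thr 3 23 (.dbl 51 35 59)))))) (.rp 35 (.thr 4 55 (.thr 36 20 (.thr 46 34 (.thr 61 1 (.thr 63 29 (.thr 60 62 (.dbl 48 24 56))))))) (.rp 13 (.str 49 (.nv (.thr 35 44 (.thr 3 51 (.thr 43 40 (.thr 63 23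 (.dbl 46 29 34))))) (.nv (.thr 55 4 (.thr 53 54 (.dbl 61 1 57))) (.rp 55 (.thr 35 44 (.thr 34 46 (.thr 33 32 (.dbl 1 17 61)))) .nd)))) .nd)))))))) .nd))))))))))))) (.rp 19 (.str 28 (.nv (.dbl 44 35 60) (.rp 60 (.thr 44 35 (.thr 46 34 (.thr 45 47 (.thr 29 63 (.dbl 61 1 13))))) (.rp 52 (.str 7 (.nv (.dbl 44 35 60) (.rp 60 (.thr 35 44 (.thr 55 4 (.thr 39 23 (.dbl 43 40 47)))) (.rp 49 (.str 13 (.nv (.thr 1 61 (.thr 4 55 (.dbl 5 6 9))) (.nv (.dbl 44 35 60) .nd))) (.rp 44 (.thr 43 40 (.thr 46 34 (.thr 63 29 (.thr 23 3 (.dbl 55 4 39))))) (.rp 35 (.thr 46 34 (.thr 63 29 (.thr 61 1 (.dbl 60 44 62)))) (.rp 13 (.str 49 (.nv (.dbl 44 35 60) (.rp 60 (.thr 1 61 (.thr 33 17 (.thr 34 46 (.dbl 35 32 44)))) (.rp 44 (.thr 46 34 (.thr 43 40 (.thr 55 4 (.thr 23 39 (.dbl 63 3 29))))) (.rp 35 (.thr 60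 44 (.thr 61 1 (.thr 46 34 (.dbl 63 29 62)))) .nd))))) .nd))))))) (.rp 49 (.str 13 (.nv (.thr 46 34 (.thr 29 63 (.dbl 61 1 45))) (.nv (.dbl 44 35 60) (.rp 52 (.str 7 (.nv (.thr 1 61 (.thr 4 55 (.dbl 5 6 9))) (.nv (.dbl 44 35 60) .nd))) (.rp 7 (.str 52 (.nv (.thr 46 34 (.thr 29 63 (.dbl 61 1 45))) (.nv (.dbl 44 35 60) .nd))) .nd))))) (.rp 44 (.thr 46 34 (.thr 29 63 (.thr 30 31 (.thr 61 1 (.thr 13 45 (.dbl 14 15 62)))))) (.rp 35 (.thr 46 34 (.thr 63 29 (.thr 61 1 (.dbl 60 44 62)))) (.rp 13 (.str 49 (.nv (.dbl 44 35 60) (.rp 60 (.thr 1 61 (.thr 33 17 (.thr 34 46 (.dbl 35 32 44)))) (.rp 52 (.str 7 (.nv (.dbl 44 35 60) (.rp 60 (.thr 1 61 (.thr 33 17 (.thr 34 46 (.dbl 35 32 44)))) (.rp 44 (.thr 46 34 (.thr 43 40 (.thr 55 4 (.thr 23 39 (.dbl 63 3 29))))) (.rp 35 (.thr 60 44 (.thr 61 1 (.thr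 46 34 (.dbl 63 29 62)))) .nd))))) (.rp 44 (.thr 61 1 (.thr 53 57 (.thr 46 34 (.thr 55 4 (.thr 63 29 (.thr 48 58 (.dbl 51 50 59))))))) (.rp 35 (.thr 60 44 (.thr 61 1 (.thr 46 34 (.dbl 63 29 62)))) (.rp 7 (.str 52 (.nv (.thr 55 4 (.thr 53 54 (.dbl 61 1 57))) (.nv (.dbl 44 35 60) .nd))) .nd))))))) (.rp 7 (.str 52 (.nv (.dbl 44 35 60) (.rp 60 (.thr 4 55 (.thr 36 20 (.thr 40 43 (.dbl 44 32 35)))) (.rp 49 (.str 13 (.nv (.thr 46 34 (.thr 29 63 (.dbl 61 1 45))) (.nv (.dbl 44 35 60) .nd))) (.rp 44 (.thr 61 1 (.thr 46 34 (.thr 29 63 (.thr 13 45 (.thr 30 31 (.dbl 14 15 62)))))) (.rp 35 (.thr 60 44 (.thr 48 56 (.thr 36 24 (.dbl 4 20 55)))) (.rp 13 (.str 49 (.nv (.thr 55 4 (.thr 53 54 (.dbl 61 1 57))) (.nv (.dbl 44 35 60) .nd))) .nd))))))) .nd))))))))) (.rp 13 (.str 49 (.nv (.thr 46 34 (.thr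 61 1 (.thr 63 29 (.thr 60 62 (.dbl 44 28 35))))) (.nv (.thr 1 61 (.thr 33 17 (.thr 34 46 (.dbl 35 32 44)))) (.rp 61 (.thr 4 55 (.thr 44 35 (.thr 40 43 (.thr 36 32 (.thr 52 20 (.thr 48 24 (.dbl 60 28 56))))))) (.rp 52 (.str 7 (.nv (.thr 43 40 (.thr 46 34 (.thr 55 4 (.thr 23 39 (.dbl 63 3 29))))) (.nv (.thr 35 44 (.thr 55 4 (.thr 39 23 (.dbl 43 40 47)))) (.nv (.thr 35 44 (.thr 1 61 (.thr 33 17 (.dbl 34 32 46)))) (.rp 28 (.str 19 (.nv (.thr 1 61 (.thr 17 33 (.thr 16 18 (.thr 55 4 (.thr 23 39 (.dbl 31 26 27)))))) (.nv (.thr 35 44 (.thr 55 4 (.thr 39 23 (.dbl 43 40 47)))) (.nv (.thr 1 61 (.thr 33 17 (.thr 34 46 (.dbl 35 32 44)))) .nd)))) (.rp 19 (.str 28 (.nv (.dbl 44 35 60) (.rp 60 (.thr 1 61 (.thr 33 17 (.thr 34 46 (.dbl 35 32 44)))) (.rp 44 (.thr 46 34 (.thr 43 40 (.thr 55 4 (.thr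 23 39 (.dbl 63 3 29))))) (.rp 35 (.thr 60 44 (.thr 61 1 (.thr 46 34 (.dbl 63 29 62)))) .nd))))) .nd)))))) (.rp 46 (.thr 4 55 (.thr 44 35 (.thr 40 43 (.thr 36 32 (.thr 52 20 (.thr 48 24 (.dbl 60 28 56))))))) (.rp 44 (.thr 61 1 (.thr 53 57 (.thr 46 34 (.thr 55 4 (.thr 63 29 (.thr 48 58 (.dbl 51 50 59))))))) (.rp 35 (.thr 61 1 (.thr 53 57 (.thr 46 34 (.thr 55 4 (.thr 63 29 (.thr 48 58 (.dbl 51 50 59))))))) (.rp 34 (.thr 35 44 (.str 51 (.nv (.thr 43 40 (.thr 55 4 (.thr 59 63 (.thr 27 11 (.dbl 39 15 47))))) (.nv (.thr 1 61 (.thr 33 17 (.thr 48 50 (.dbl 3 18 19)))) (.rp 52 (.str 7 (.nv (.thr 1 61 (.thr 33 17 (.thr 48 50 (.dbl 3 18 19)))) (.nv (.thr 55 4 (.thr 39 23 (.dbl 43 40 47))) (.rp 28 (.thr 19 3 (.thr 43 40 (.thr 39 47 (.dbl 55 4 23)))) (.rp 19 (.str 28 (.nv (.thr 48 50 (.thr 61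 1 (.thr 53 57 (.thr 63 58 (.dbl 55 4 59))))) (.nv (.thr 55 4 (.thr 39 23 (.dbl 43 40 47))) (.rp 55 (.thr 48 50 (.thr 40 43 (.thr 24 36 (.thr 56 8 (.thr 26 11 (.dbl 16 20 31)))))) (.rp 4 (.thr 43 40 (.thr 39 47 (.thr 23 55 (.thr 15 27 (.dbl 3 11 63))))) .nd))))) .nd))))) (.rp 28 (.thr 19 3 (.thr 43 40 (.thr 39 47 (.thr 55 4 (.thr 59 63 (.dbl 27 11 15)))))) (.rp 19 (.str 28 (.nv (.thr 40 43 (.thr 50 48 (.thr 26 14 (.thr 16 31 (.thr 24 20 (.dbl 56 8 11)))))) (.nv (.thr 48 50 (.thr 55 4 (.thr 63 59 (.thr 53 58 (.dbl 61 1 57))))) (.nv (.thr 43 40 (.thr 55 4 (.thr 59 63 (.thr 27 11 (.dbl 39 15 47))))) (.rp 52 (.str 7 (.nv (.thr 48 50 (.thr 61 1 (.thr 53 57 (.thr 63 58 (.dbl 55 4 59))))) (.nv (.thr 55 4 (.thr 39 23 (.dbl 43 40 47))) (.rp 55 (.thr 48 50 (.thr 40 43 (.thr 24 36 (.thr 56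 8 (.thr 26 11 (.dbl 16 20 31)))))) (.rp 4 (.thr 43 40 (.thr 39 47 (.thr 23 55 (.thr 15 27 (.dbl 3 11 63))))) .nd))))) (.rp 7 (.str 52 (.nv (.thr 40 43 (.thr 48 50 (.thr 24 36 (.dbl 56 8 60)))) (.nv (.thr 55 4 (.thr 53 54 (.dbl 61 1 57))) .nd))) .nd)))))) (.rp 7 (.str 52 (.nv (.thr 40 43 (.thr 48 50 (.thr 24 36 (.dbl 56 8 60)))) (.nv (.thr 55 4 (.thr 53 54 (.dbl 61 1 57))) (.rp 28 (.thr 19 3 (.thr 48 50 (.thr 4 55 (.dbl 36 20 24)))) (.rp 19 (.str 28 (.nv (.thr 40 43 (.thr 48 50 (.thr 24 36 (.dbl 56 8 60)))) (.nv (.thr 55 4 (.thr 53 54 (.dbl 61 1 57))) .nd))) .nd))))) .nd)))))))) (.rp 29 (.thr 34 46 (.thr 35 44 (.thr 33 32 (.dbl 1 17 61)))) (.rp 28 (.str 19 (.nv (.thr 35 44 (.thr 46 34 (.thr 51 3 (.thr 55 4 (.dbl 63 29 59))))) (.nv (.thr 1 61 (.thr 33 17 (.thr 34 46 (.dbl 35 32 44))))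 (.rp 52 (.str 7 (.nv (.thr 1 61 (.thr 17 33 (.thr 16 18 (.thr 55 4 (.thr 23 39 (.dbl 31 26 27)))))) (.nv (.thr 35 44 (.thr 55 4 (.thr 39 23 (.dbl 43 40 47)))) (.nv (.thr 1 61 (.thr 33 17 (.thr 34 46 (.dbl 35 32 44)))) .nd)))) (.rp 46 (.thr 55 4 (.thr 35 44 (.thr 3 51 (.thr 43 40 (.thr 23 63 (.dbl 39 7 47)))))) (.rp 44 (.thr 46 34 (.thr 63 29 (.thr 55 4 (.thr 51 59 (.thr 3 35 (.dbl 43 23 40)))))) (.rp 35 (.thr 61 1 (.thr 53 57 (.thr 46 34 (.thr 63 29 (.thr 55 4 (.thr 51 59 (.dbl 48 50 58))))))) (.rp 34 (.thr 1 61 (.thr 17 33 (.thr 35 44 (.thr 16 18 (.thr 26 31 (.thr 50 14 (.dbl 51 3 48))))))) (.rp 29 (.thr 34 46 (.thr 35 44 (.thr 33 32 (.dbl 1 17 61)))) (.rp 7 (.str 52 (.nv (.thr 35 44 (.thr 3 51 (.thr 43 40 (.thr 63 23 (.dbl 46 29 34))))) (.nv (.thr 55 4 (.thr 53 54 (.dbl 61 1 57)))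 (.rp 55 (.thr 35 44 (.thr 34 46 (.thr 33 32 (.dbl 1 17 61)))) .nd)))) (.rp 1 (.thr 46 34 (.thr 63 29 (.thr 55 4 (.thr 51 59 (.dbl 35 3 44))))) .nd))))))))))) (.rp 19 (.str 28 (.nv (.dbl 44 35 60) (.rp 60 (.thr 1 61 (.thr 33 17 (.thr 34 46 (.dbl 35 32 44)))) (.rp 52 (.str 7 (.nv (.dbl 44 35 60) (.rp 60 (.thr 1 61 (.thr 33 17 (.thr 34 46 (.dbl 35 32 44)))) (.rp 44 (.thr 46 34 (.thr 43 40 (.thr 55 4 (.thr 23 39 (.dbl 63 3 29))))) (.rp 35 (.thr 60 44 (.thr 61 1 (.thr 46 34 (.dbl 63 29 62)))) .nd))))) (.rp 44 (.thr 61 1 (.thr 53 57 (.thr 46 34 (.thr 55 4 (.thr 63 29 (.thr 48 58 (.dbl 51 50 59))))))) (.rp 35 (.thr 60 44 (.thr 61 1 (.thr 46 34 (.dbl 63 29 62)))) (.rp 7 (.str 52 (.nv (.thr 55 4 (.thr 53 54 (.dbl 61 1 57))) (.nv (.dbl 44 35 60) .nd))) .nd))))))) (.rp 17 (.thr 4 55 (.thr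 44 35 (.thr 40 43 (.thr 36 32 (.thr 52 20 (.thr 48 24 (.dbl 60 28 56))))))) (.rp 7 (.str 52 (.nv (.thr 4 55 (.thr 36 20 (.thr 40 43 (.dbl 44 32 35)))) (.nv (.thr 1 61 (.thr 33 17 (.thr 34 46 (.dbl 35 32 44)))) (.nv (.thr 55 4 (.thr 53 54 (.dbl 61 1 57))) (.rp 28 (.str 19 (.nv (.thr 35 44 (.thr 3 51 (.thr 43 40 (.thr 63 23 (.dbl 46 29 34))))) (.nv (.thr 55 4 (.thr 53 54 (.dbl 61 1 57))) (.rp 55 (.thr 35 44 (.thr 34 46 (.thr 33 32 (.dbl 1 17 61)))) .nd)))) (.rp 19 (.str 28 (.nv (.thr 55 4 (.thr 53 54 (.dbl 61 1 57))) (.nv (.dbl 44 35 60) .nd))) .nd)))))) (.rp 1 (.thr 46 34 (.thr 55 4 (.thr 63 29 (.thr 51 59 (.thr 35 44 (.thr 43 40 (.dbl 3 19 23))))))) .nd))))))))))))))) (.rp 7 (.str 52 (.nv (.thr 46 34 (.thr 61 1 (.thr 63 29 (.thr 60 62 (.dbl 44 28 35))))) (.nv (.thr 40 43 (.thr 4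 55 (.thr 36 20 (.dbl 44 32 35)))) (.rp 49 (.str 13 (.nv (.thr 4 55 (.thr 36 20 (.thr 40 43 (.dbl 44 32 35)))) (.nv (.thr 46 34 (.thr 29 63 (.dbl 61 1 45))) (.rp 28 (.str 19 (.nv (.thr 4 55 (.thr 36 20 (.thr 40 43 (.dbl 44 32 35)))) (.nv (.thr 46 34 (.thr 29 63 (.dbl 61 1 45))) .nd))) (.rp 19 (.str 28 (.nv (.thr 46 34 (.thr 29 63 (.dbl 61 1 45))) (.nv (.dbl 44 35 60) .nd))) .nd))))) (.rp 44 (.thr 61 1 (.thr 46 34 (.thr 4 55 (.thr 36 20 (.thr 48 24 (.thr 60 56 (.dbl 63 29 62))))))) (.rp 35 (.thr 4 55 (.thr 36 20 (.thr 48 24 (.thr 60 56 (.thr 40 43 (.dbl 44 28 32)))))) (.rp 28 (.str 19 (.nv (.thr 35 44 (.thr 46 34 (.thr 51 3 (.thr 55 4 (.dbl 63 29 59))))) (.nv (.thr 44 35 (.thr 46 34 (.thr 29 63 (.thr 61 1 (.dbl 45 13 47))))) (.nv (.thr 4 55 (.thr 40 43 (.thr 44 35 (.dbl 36 20 32))))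 (.rp 49 (.str 13 (.nv (.thr 4 55 (.thr 36 20 (.thr 40 43 (.dbl 44 32 35)))) (.nv (.thr 46 34 (.thr 29 63 (.dbl 61 1 45))) .nd))) (.rp 44 (.thr 43 40 (.thr 55 4 (.thr 46 34 (.thr 63 29 (.thr 3 23 (.dbl 51 35 59)))))) (.rp 35 (.thr 4 55 (.thr 36 20 (.thr 46 34 (.thr 61 1 (.thr 63 29 (.thr 60 62 (.dbl 48 24 56))))))) (.rp 13 (.str 49 (.nv (.thr 35 44 (.thr 3 51 (.thr 43 40 (.thr 63 23 (.dbl 46 29 34))))) (.nv (.thr 55 4 (.thr 53 54 (.dbl 61 1 57))) (.rp 55 (.thr 35 44 (.thr 34 46 (.thr 33 32 (.dbl 1 17 61)))) .nd)))) .nd)))))))) (.rp 19 (.str 28 (.nv (.dbl 44 35 60) (.rp 60 (.thr 4 55 (.thr 36 20 (.thr 40 43 (.dbl 44 32 35)))) (.rp 49 (.str 13 (.nv (.thr 46 34 (.thr 29 63 (.dbl 61 1 45))) (.nv (.dbl 44 35 60) .nd))) (.rp 44 (.thr 61 1 (.thr 46 34 (.thr 29 63 (.thr 13 45 (.thr 30 31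 (.dbl 14 15 62)))))) (.rp 35 (.thr 60 44 (.thr 48 56 (.thr 36 24 (.dbl 4 20 55)))) (.rp 13 (.str 49 (.nv (.thr 55 4 (.thr 53 54 (.dbl 61 1 57))) (.nv (.dbl 44 35 60) .nd))) .nd))))))) (.rp 13 (.str 49 (.nv (.thr 4 55 (.thr 36 20 (.thr 40 43 (.dbl 44 32 35)))) (.nv (.thr 1 61 (.thr 33 17 (.thr 34 46 (.dbl 35 32 44)))) (.nv (.thr 55 4 (.thr 53 54 (.dbl 61 1 57))) (.rp 28 (.str 19 (.nv (.thr 35 44 (.thr 3 51 (.thr 43 40 (.thr 63 23 (.dbl 46 29 34))))) (.nv (.thr 55 4 (.thr 53 54 (.dbl 61 1 57))) (.rp 55 (.thr 35 44 (.thr 34 46 (.thr 33 32 (.dbl 1 17 61)))) .nd)))) (.rp 19 (.str 28 (.nv (.thr 55 4 (.thr 53 54 (.dbl 61 1 57))) (.nv (.dbl 44 35 60) .nd))) .nd)))))) .nd))))))))) .nd)))))))))))))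

theorem w448 : WinAt (4672926519296, 137476702209) :=
  chF (K := []) kn c448 4672926519296 137476702209 25
    [306708480, 563087425937408, 4503737070518400] (by decide +kernel) (by decide +kernel)

/-- A certificate. -/
noncomputable def c449 : Ct := (.str 49 (.nv (.thr 34 46 (.thr 17 51 (.thr 33 1 (.dbl 35 32 44)))) (.nv (.thr 1 61 (.thr 17 33 (.dbl 34 46 51))) (.rp 52 (.str 7 (.nv (.thr 35 44 (.thr 43 40 (.thr 55 4 (.dbl 39 23 47)))) (.nv (.thr 1 61 (.thr 17 33 (.dbl 34 46 51))) (.rp 28 (.str 19 (.nv (.thr 1 61 (.thr 17 33 (.dbl 34 46 51))) (.nv (.thr 43 40 (.thr 55 4 (.thr 39 23 (.dbl 35 44 47)))) (.nv (.thr 34 46 (.thr 51 17 (.dbl 35 3 44))) .nd)))) (.rp 19 (.str 28 (.nv (.thr 34 46 (.thr 35 44 (.thr 33 32 (.dbl 1 17 61)))) (.nv (.thr 1 61 (.thr 17 33 (.dbl 34 46 51))) (.nv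 (.thr 4 55 (.thr 12 8 (.dbl 44 35 60))) .nd)))) .nd))))) (.rp 51 (.thr 1 61 (.thr 33 17 (.thr 35 44 (.dbl 34 32 46)))) (.rp 46 (.thr 4 55 (.thr 40 43 (.thr 20 60 (.thr 44 35 (.dbl 36 32 52))))) (.rp 34 (.thr 4 55 (.thr 40 43 (.thr 20 60 (.thr 44 35 (.dbl 36 32 52))))) (.rp 33 (.thr 4 55 (.thr 40 43 (.thr 20 60 (.thr 44 35 (.dbl 36 32 52))))) (.rp 29 (.thr 4 55 (.thr 40 43 (.thr 20 60 (.thr 44 35 (.dbl 36 32 52))))) (.rp 28 (.str 19 (.nv (.thr 1 61 (.thr 17 33 (.dbl 34 46 51))) (.nv (.thr 1 61 (.thr 3 2 (.dbl 35 44 51))) (.nv (.thr 34 46 (.thr 51 17 (.dbl 35 3 44))) (.rp 52 (.str 7 (.nv (.thr 1 61 (.thr 17 33 (.dbl 34 46 51))) (.nv (.thr 43 40 (.thr 55 4 (.thr 39 23 (.dbl 35 44 47)))) (.nv (.thr 34 46 (.thr 51 17 (.dbl 35 3 44))) .nd)))) (.rp 51 (.thr 1 61 (.thr 33 17 (.thr 35 44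 (.dbl 34 32 46)))) (.rp 29 (.thr 35 44 (.thr 51 3 (.dbl 34 17 46))) (.rp 7 (.str 52 (.nv (.thr 34 46 (.thr 35 44 (.dbl 51 3 17))) (.nv (.thr 55 4 (.thr 53 54 (.dbl 61 1 57))) .nd))) .nd)))))))) (.rp 19 (.str 28 (.nv (.thr 1 61 (.thr 17 33 (.dbl 34 46 51))) (.nv (.thr 40 43 (.thr 60 20 (.dbl 44 12 35))) (.rp 60 (.thr 34 46 (.thr 17 51 (.dbl 1 33 61))) (.rp 52 (.str 7 (.nv (.thr 34 46 (.thr 35 44 (.thr 33 32 (.dbl 1 17 61)))) (.nv (.thr 1 61 (.thr 17 33 (.dbl 34 46 51))) (.nv (.thr 4 55 (.thr 12 8 (.dbl 44 35 60))) .nd)))) (.rp 7 (.str 52 (.nv (.thr 40 43 (.thr 44 35 (.dbl 60 12 20))) (.nv (.thr 61 1 (.thr 53 57 (.dbl 55 4 54))) .nd))) .nd)))))) (.rp 17 (.thr 4 55 (.thr 40 43 (.thr 20 60 (.thr 44 35 (.dbl 36 32 52))))) (.rp 7 (.str 52 (.nv (.thr 34 46 (.thr 35 44 (.thr 33 32 (.dbl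 17 1 51)))) (.nv (.thr 55 4 (.thr 53 54 (.dbl 61 1 57))) (.rp 28 (.str 19 (.nv (.thr 34 46 (.thr 35 44 (.dbl 51 3 17))) (.nv (.thr 55 4 (.thr 53 54 (.dbl 61 1 57))) .nd))) (.rp 19 (.str 28 (.nv (.thr 40 43 (.thr 44 35 (.dbl 60 12 20))) (.nv (.thr 61 1 (.thr 53 57 (.dbl 55 4 54))) .nd))) (.rp 1 (.thr 4 55 (.thr 20 36 (.dbl 40 43 60))) .nd)))))) (.rp 1 (.thr 4 55 (.thr 40 43 (.thr 20 60 (.thr 44 35 (.dbl 36 32 52))))) .nd))))))))))))))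

theorem w449 : WinAt (6871949770753, 9223372174331486208) :=
  chF (K := []) kn c449 6871949770753 9223372174331486208 13
    [306708480, 4503737070518400] (by decide +kernel) (by decide +kernel)

/-- A certificate. -/
noncomputable def c450 : Ct := (.str 28 (.nv (.thr 4 55 (.thr 8 12 (.thr 40 43 (.thr 20 60 (.dbl 24 16 56))))) (.nv (.thr 40 43 (.thr 60 20 (.dbl 44 12 35))) (.nv (.thr 4 55 (.thr 12 8 (.dbl 44 35 60))) (.rp 60 (.thr 35 44 (.thr 34 46 (.thr 33 32 (.thr 17 51 (.dbl 1 49 61))))) (.rp 52 (.str 7 (.nv (.thr 40 43 (.thr 44 35 (.dbl 60 12 20))) (.nv (.thr 1 61 (.thr 3 2 (.thr 15 11 (.thr 5 10 (.dbl 4 6 55))))) (.nv (.thr 4 55 (.thr 12 8 (.dbl 44 35 60))) (.rp 60 (.thr 43 40 (.thr 35 44 (.thr 39 47 (.dbl 55 4 23)))) (.rp 49 (.str 13 (.nv (.thr 35 44 (.thr 43 40 (.thr 39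 47 (.dbl 55 4 23)))) (.nv (.thr 1 61 (.thr 3 2 (.thr 5 9 (.dbl 15 10 11)))) (.nv (.thr 4 55 (.thr 12 8 (.dbl 44 35 60))) .nd)))) (.rp 13 (.str 49 (.nv (.thr 34 46 (.thr 35 44 (.thr 33 32 (.dbl 1 17 61)))) (.nv (.thr 1 61 (.thr 17 33 (.dbl 34 46 51))) (.nv (.thr 4 55 (.thr 12 8 (.dbl 44 35 60))) .nd)))) .nd))))))) (.rp 49 (.str 13 (.nv (.thr 1 61 (.thr 3 2 (.thr 4 55 (.thr 9 5 (.dbl 12 6 8))))) (.nv (.thr 46 34 (.thr 61 1 (.thr 45 29 (.dbl 44 35 47)))) (.nv (.thr 4 55 (.thr 12 8 (.dbl 44 35 60))) (.rp 52 (.str 7 (.nv (.thr 35 44 (.thr 43 40 (.thr 39 47 (.dbl 55 4 23)))) (.nv (.thr 1 61 (.thr 3 2 (.thr 5 9 (.dbl 15 10 11)))) (.nv (.thr 4 55 (.thr 12 8 (.dbl 44 35 60))) .nd)))) (.rp 7 (.str 52 (.nv (.thr 4 55 (.thr 20 36 (.dbl 40 43 60))) (.nv (.thr 46 34 (.thr 61 1 (.thr 45 29 (.dbl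 44 35 47)))) (.nv (.thr 40 43 (.thr 60 20 (.dbl 44 12 35))) .nd)))) .nd)))))) (.rp 13 (.str 49 (.nv (.thr 1 61 (.thr 17 33 (.dbl 34 46 51))) (.nv (.thr 40 43 (.thr 60 20 (.dbl 44 12 35))) (.rp 60 (.thr 34 46 (.thr 17 51 (.dbl 1 33 61))) (.rp 52 (.str 7 (.nv (.thr 34 46 (.thr 35 44 (.thr 33 32 (.dbl 1 17 61)))) (.nv (.thr 1 61 (.thr 17 33 (.dbl 34 46 51))) (.nv (.thr 4 55 (.thr 12 8 (.dbl 44 35 60))) .nd)))) (.rp 7 (.str 52 (.nv (.thr 40 43 (.thr 44 35 (.dbl 60 12 20))) (.nv (.thr 61 1 (.thr 53 57 (.dbl 55 4 54))) .nd))) .nd)))))) (.rp 12 (.thr 40 43 (.thr 44 35 (.thr 36 32 (.thr 20 60 (.dbl 4 52 55))))) (.rp 7 (.str 52 (.nv (.thr 4 55 (.thr 20 36 (.dbl 40 43 60))) (.nv (.thr 1 61 (.thr 34 46 (.thr 17 51 (.thr 35 44 (.dbl 33 32 49))))) (.nv (.thr 40 43 (.thr 60 20 (.dbl 44 12 35)))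 (.rp 60 (.thr 4 55 (.thr 36 20 (.thr 44 35 (.dbl 40 32 43)))) (.rp 49 (.str 13 (.nv (.thr 4 55 (.thr 20 36 (.dbl 40 43 60))) (.nv (.thr 46 34 (.thr 61 1 (.thr 45 29 (.dbl 44 35 47)))) (.nv (.thr 40 43 (.thr 60 20 (.dbl 44 12 35))) .nd)))) (.rp 13 (.str 49 (.nv (.thr 40 43 (.thr 44 35 (.dbl 60 12 20))) (.nv (.thr 61 1 (.thr 53 57 (.dbl 55 4 54))) .nd))) .nd))))))) .nd))))))))))

theorem w450 : WinAt (6871949770753, 9223372174332002304) :=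
  chF (K := []) kn c450 6871949770753 9223372174332002304 19
    [563087425937408, 4503737070518400] (by decide +kernel) (by decide +kernel)

/-- A certificate. -/
noncomputable def c451 : Ct := (.str 19 (.nv (.thr 1 61 (.thr 2 3 (.thr 34 46 (.thr 17 51 (.dbl 18 16 50))))) (.nv (.thr 34 46 (.thr 51 17 (.dbl 35 3 44))) (.nv (.thr 1 61 (.thr 3 2 (.dbl 35 44 51))) (.rp 52 (.str 7 (.nv (.thr 1 61 (.thr 2 3 (.thr 34 46 (.thr 17 51 (.dbl 18 16 50))))) (.nv (.thr 43 40 (.thr 55 4 (.thr 39 23 (.dbl 35 44 47)))) (.nv (.thr 1 61 (.thr 3 2 (.dbl 35 44 51))) (.rp 49 (.str 13 (.nv (.thr 35 44 (.thr 43 40 (.thr 39 47 (.dbl 55 4 23)))) (.nv (.thr 4 55 (.thr 5 6 (.thr 12 8 (.dbl 15 10 14)))) (.nv (.thr 1 61 (.thr 3 2 (.dbl 35 44 51))) .nd)))) (.rp 13 (.str 49 (.nv (.thr 1 61 (.thr 17 33 (.dbl 34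 46 51))) (.nv (.thr 43 40 (.thr 55 4 (.thr 39 23 (.dbl 35 44 47)))) (.nv (.thr 34 46 (.thr 51 17 (.dbl 35 3 44))) .nd)))) .nd)))))) (.rp 51 (.thr 44 35 (.thr 40 43 (.thr 36 32 (.thr 20 60 (.dbl 4 52 55))))) (.rp 49 (.str 13 (.nv (.thr 35 44 (.thr 34 46 (.dbl 51 3 17))) (.nv (.thr 1 61 (.thr 2 3 (.thr 34 46 (.thr 17 51 (.dbl 18 16 50))))) (.nv (.thr 44 35 (.thr 46 34 (.thr 45 47 (.dbl 61 1 29)))) (.nv (.thr 1 61 (.thr 3 2 (.dbl 35 44 51))) (.rp 52 (.str 7 (.nv (.thr 35 44 (.thr 43 40 (.thr 39 47 (.dbl 55 4 23)))) (.nv (.thr 4 55 (.thr 5 6 (.thr 12 8 (.dbl 15 10 14)))) (.nv (.thr 1 61 (.thr 3 2 (.dbl 35 44 51))) .nd)))) (.rp 7 (.str 52 (.nv (.thr 40 43 (.thr 44 35 (.thr 36 32 (.dbl 4 20 55)))) (.nv (.thr 4 55 (.thr 20 36 (.dbl 40 43 60))) (.nv (.thr 1 61 (.thr 3 2 (.dbl 35 44 51)))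 .nd)))) .nd))))))) (.rp 13 (.str 49 (.nv (.thr 1 61 (.thr 17 33 (.dbl 34 46 51))) (.nv (.thr 1 61 (.thr 3 2 (.dbl 35 44 51))) (.nv (.thr 34 46 (.thr 51 17 (.dbl 35 3 44))) (.rp 52 (.str 7 (.nv (.thr 1 61 (.thr 17 33 (.dbl 34 46 51))) (.nv (.thr 43 40 (.thr 55 4 (.thr 39 23 (.dbl 35 44 47)))) (.nv (.thr 34 46 (.thr 51 17 (.dbl 35 3 44))) .nd)))) (.rp 51 (.thr 1 61 (.thr 33 17 (.thr 35 44 (.dbl 34 32 46)))) (.rp 29 (.thr 35 44 (.thr 51 3 (.dbl 34 17 46))) (.rp 7 (.str 52 (.nv (.thr 34 46 (.thr 35 44 (.dbl 51 3 17))) (.nv (.thr 55 4 (.thr 53 54 (.dbl 61 1 57))) .nd))) .nd)))))))) (.rp 7 (.str 52 (.nv (.thr 4 55 (.thr 20 36 (.dbl 40 43 60))) (.nv (.thr 34 46 (.thr 51 17 (.dbl 35 3 44))) (.rp 51 (.thr 40 43 (.thr 20 60 (.dbl 4 36 55))) (.rp 49 (.str 13 (.nv (.thr 40 43 (.thr 44 35 (.thr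 36 32 (.dbl 4 20 55)))) (.nv (.thr 4 55 (.thr 20 36 (.dbl 40 43 60))) (.nv (.thr 1 61 (.thr 3 2 (.dbl 35 44 51))) .nd)))) (.rp 13 (.str 49 (.nv (.thr 34 46 (.thr 35 44 (.dbl 51 3 17))) (.nv (.thr 55 4 (.thr 53 54 (.dbl 61 1 57))) .nd))) .nd)))))) (.rp 3 (.thr 34 46 (.thr 35 44 (.thr 33 32 (.thr 17 51 (.dbl 1 49 61))))) .nd))))))))))

theorem w451 : WinAt (6871949770753, 9223372174599913472) :=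
  chF (K := []) kn c451 6871949770753 9223372174599913472 28
    [563087425937408, 4503737070518400] (by decide +kernel) (by decide +kernel)

/-- A certificate. -/
noncomputable def c452 : Ct := (.str 13 (.nv (.thr 1 61 (.thr 3 2 (.thr 4 55 (.thr 9 5 (.dbl 12 6 8))))) (.nv (.thr 4 55 (.thr 12 8 (.thr 40 43 (.thr 60 20 (.dbl 44 28 35))))) (.nv (.thr 44 35 (.thr 61 1 (.thr 45 29 (.dbl 46 34 47)))) (.rp 52 (.str 7 (.nv (.thr 1 61 (.thr 3 2 (.thr 5 9 (.dbl 15 10 11)))) (.nv (.thr 35 44 (.thr 43 40 (.thr 39 47 (.dbl 55 4 23)))) (.nv (.thr 1 61 (.thr 5 9 (.dbl 4 6 55))) (.rp 28 (.str 19 (.nv (.thr 35 44 (.thr 43 40 (.thr 39 47 (.dbl 55 4 23)))) (.nv (.thr 4 55 (.thr 5 6 (.thr 12 8 (.dbl 15 10 14)))) (.nv (.thr 1 61 (.thr 3 2 (.dbl 35 44 51))) .nd)))) (.rp 19 (.str 28 (.nv (.thr 35 44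 (.thr 43 40 (.thr 39 47 (.dbl 55 4 23)))) (.nv (.thr 1 61 (.thr 3 2 (.thr 5 9 (.dbl 15 10 11)))) (.nv (.thr 4 55 (.thr 12 8 (.dbl 44 35 60))) .nd)))) .nd)))))) (.rp 28 (.str 19 (.nv (.thr 35 44 (.thr 34 46 (.dbl 51 3 17))) (.nv (.thr 1 61 (.thr 2 3 (.thr 34 46 (.thr 17 51 (.dbl 18 16 50))))) (.nv (.thr 44 35 (.thr 46 34 (.thr 45 47 (.dbl 61 1 29)))) (.nv (.thr 1 61 (.thr 3 2 (.dbl 35 44 51))) (.rp 52 (.str 7 (.nv (.thr 35 44 (.thr 43 40 (.thr 39 47 (.dbl 55 4 23)))) (.nv (.thr 4 55 (.thr 5 6 (.thr 12 8 (.dbl 15 10 14)))) (.nv (.thr 1 61 (.thr 3 2 (.dbl 35 44 51))) .nd)))) (.rp 7 (.str 52 (.nv (.thr 40 43 (.thr 44 35 (.thr 36 32 (.dbl 4 20 55)))) (.nv (.thr 4 55 (.thr 20 36 (.dbl 40 43 60))) (.nv (.thr 1 61 (.thr 3 2 (.dbl 35 44 51))) .nd)))) .nd))))))) (.rp 19 (.str 28 (.nv (.thr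 1 61 (.thr 3 2 (.thr 4 55 (.thr 9 5 (.dbl 12 6 8))))) (.nv (.thr 46 34 (.thr 61 1 (.thr 45 29 (.dbl 44 35 47)))) (.nv (.thr 4 55 (.thr 12 8 (.dbl 44 35 60))) (.rp 52 (.str 7 (.nv (.thr 35 44 (.thr 43 40 (.thr 39 47 (.dbl 55 4 23)))) (.nv (.thr 1 61 (.thr 3 2 (.thr 5 9 (.dbl 15 10 11)))) (.nv (.thr 4 55 (.thr 12 8 (.dbl 44 35 60))) .nd)))) (.rp 7 (.str 52 (.nv (.thr 4 55 (.thr 20 36 (.dbl 40 43 60))) (.nv (.thr 46 34 (.thr 61 1 (.thr 45 29 (.dbl 44 35 47)))) (.nv (.thr 40 43 (.thr 60 20 (.dbl 44 12 35))) .nd)))) .nd)))))) (.rp 7 (.str 52 (.nv (.thr 44 35 (.thr 46 34 (.thr 61 1 (.dbl 45 29 47)))) (.nv (.thr 4 55 (.thr 20 36 (.dbl 40 43 60))) (.rp 28 (.str 19 (.nv (.thr 40 43 (.thr 44 35 (.thr 36 32 (.dbl 4 20 55)))) (.nv (.thr 4 55 (.thr 20 36 (.dbl 40 43 60))) (.nv (.thr 1 61 (.thr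 3 2 (.dbl 35 44 51))) .nd)))) (.rp 19 (.str 28 (.nv (.thr 4 55 (.thr 20 36 (.dbl 40 43 60))) (.nv (.thr 46 34 (.thr 61 1 (.thr 45 29 (.dbl 44 35 47)))) (.nv (.thr 40 43 (.thr 60 20 (.dbl 44 12 35))) .nd)))) .nd))))) .nd))))))))

theorem w452 : WinAt (6871949770753, 9223935124284899328) :=
  chF (K := []) kn c452 6871949770753 9223935124284899328 49
    [306708480, 4503737070518400] (by decide +kernel) (by decide +kernel)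

/-- A certificate. -/
noncomputable def c453 : Ct := (.str 7 (.nv (.thr 1 61 (.thr 3 2 (.thr 4 55 (.thr 5 6 (.dbl 15 10 11))))) (.nv (.thr 1 61 (.thr 3 2 (.thr 34 46 (.thr 51 17 (.dbl 35 19 44))))) (.nv (.thr 35 44 (.thr 55 4 (.thr 39 23 (.dbl 43 40 47)))) (.rp 49 (.str 13 (.nv (.thr 1 61 (.thr 3 2 (.thr 5 9 (.dbl 15 10 11)))) (.nv (.thr 35 44 (.thr 43 40 (.thr 39 47 (.dbl 55 4 23)))) (.nv (.thr 1 61 (.thr 5 9 (.dbl 4 6 55))) (.rp 28 (.str 19 (.nv (.thr 35 44 (.thr 43 40 (.thr 39 47 (.dbl 55 4 23)))) (.nv (.thr 4 55 (.thr 5 6 (.thr 12 8 (.dbl 15 10 14)))) (.nv (.thr 1 61 (.thr 3 2 (.dbl 35 44 51))) .nd)))) (.rp 19 (.str 28 (.nv (.thr 35 44 (.thr 43 40 (.thr 39 47 (.dbl 55 4 23)))) (.nv (.thr 1 61 (.thr 3 2 (.thr 5 9 (.dbl 15 10 11)))) (.nv (.thr 4 55 (.thr 12 8 (.dbl 44 35 60)))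 .nd)))) .nd)))))) (.rp 28 (.str 19 (.nv (.thr 1 61 (.thr 2 3 (.thr 34 46 (.thr 17 51 (.dbl 18 16 50))))) (.nv (.thr 43 40 (.thr 55 4 (.thr 39 23 (.dbl 35 44 47)))) (.nv (.thr 1 61 (.thr 3 2 (.dbl 35 44 51))) (.rp 49 (.str 13 (.nv (.thr 35 44 (.thr 43 40 (.thr 39 47 (.dbl 55 4 23)))) (.nv (.thr 4 55 (.thr 5 6 (.thr 12 8 (.dbl 15 10 14)))) (.nv (.thr 1 61 (.thr 3 2 (.dbl 35 44 51))) .nd)))) (.rp 13 (.str 49 (.nv (.thr 1 61 (.thr 17 33 (.dbl 34 46 51))) (.nv (.thr 43 40 (.thr 55 4 (.thr 39 23 (.dbl 35 44 47)))) (.nv (.thr 34 46 (.thr 51 17 (.dbl 35 3 44))) .nd)))) .nd)))))) (.rp 19 (.str 28 (.nv (.thr 40 43 (.thr 44 35 (.dbl 60 12 20))) (.nv (.thr 1 61 (.thr 3 2 (.thr 15 11 (.thr 5 10 (.dbl 4 6 55))))) (.nv (.thr 4 55 (.thr 12 8 (.dbl 44 35 60))) (.rp 60 (.thr 43 40 (.thr 35 44 (.thr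 39 47 (.dbl 55 4 23)))) (.rp 49 (.str 13 (.nv (.thr 35 44 (.thr 43 40 (.thr 39 47 (.dbl 55 4 23)))) (.nv (.thr 1 61 (.thr 3 2 (.thr 5 9 (.dbl 15 10 11)))) (.nv (.thr 4 55 (.thr 12 8 (.dbl 44 35 60))) .nd)))) (.rp 13 (.str 49 (.nv (.thr 34 46 (.thr 35 44 (.thr 33 32 (.dbl 1 17 61)))) (.nv (.thr 1 61 (.thr 17 33 (.dbl 34 46 51))) (.nv (.thr 4 55 (.thr 12 8 (.dbl 44 35 60))) .nd)))) .nd))))))) (.rp 13 (.str 49 (.nv (.thr 35 44 (.thr 43 40 (.thr 55 4 (.dbl 39 23 47)))) (.nv (.thr 1 61 (.thr 17 33 (.dbl 34 46 51))) (.rp 28 (.str 19 (.nv (.thr 1 61 (.thr 17 33 (.dbl 34 46 51))) (.nv (.thr 43 40 (.thr 55 4 (.thr 39 23 (.dbl 35 44 47)))) (.nv (.thr 34 46 (.thr 51 17 (.dbl 35 3 44))) .nd)))) (.rp 19 (.str 28 (.nv (.thr 34 46 (.thr 35 44 (.thr 33 32 (.dbl 1 17 61)))) (.nv (.thr 1 61 (.thr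 17 33 (.dbl 34 46 51))) (.nv (.thr 4 55 (.thr 12 8 (.dbl 44 35 60))) .nd)))) .nd))))) .nd))))))))

theorem w453 : WinAt (6871949770753, 9227875773958848512) :=
  chF (K := []) kn c453 6871949770753 9227875773958848512 52
    [306708480, 563087425937408] (by decide +kernel) (by decide +kernel)

/-- A certificate. -/
noncomputable def c454 : Ct := (.str 41 (.nv (.thr 35 44 (.thr 34 46 (.thr 33 32 (.thr 17 0 (.dbl 1 49 61))))) (.nv (.thr 1 61 (.thr 34 46 (.thr 0 17 (.thr 3 2 (.dbl 35 19 44))))) (.rp 61 (.thr 40 43 (.thr 44 35 (.thr 36 32 (.thr 34 46 (.thr 0 17 (.thr 4 55 (.dbl 20 52 60))))))) (.rp 52 (.str 7 (.nv (.thr 1 61 (.thr 34 46 (.thr 0 17 (.thr 3 2 (.dbl 35 19 44))))) (.nv (.thr 43 40 (.thr 55 4 (.thr 39 23 (.dbl 35 44 47)))) (.rp 49 (.str 13 (.nv (.thr 44 35 (.thr 46 34 (.thr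 45 47 (.dbl 61 1 29)))) (.nv (.thr 35 44 (.thr 43 40 (.thr 39 47 (.dbl 55 4 23)))) (.nv (.thr 4 55 (.thr 5 6 (.dbl 1 9 61))) (.rp 28 (.str 19 (.nv (.thr 1 61 (.thr 4 55 (.dbl 5 6 9))) (.nv (.dbl 35 3 44) .nd))) (.rp 19 (.str 28 (.nv (.thr 44 35 (.thr 46 34 (.thr 45 47 (.dbl 61 1 29)))) (.nv (.thr 35 44 (.thr 43 40 (.thr 39 47 (.dbl 55 4 23)))) (.nv (.thr 4 55 (.thr 5 6 (.dbl 1 9 61))) .nd)))) .nd)))))) (.rp 44 (.thr 55 4 (.thr 39 23 (.thr 15 27 (.thr 3 11 (.thr 43 40 (.dbl 35 19 47)))))) (.rp 35 (.thr 1 61 (.thr 34 46 (.thr 55 4 (.thr 39 23 (.thr 15 27 (.thr 3 11 (.dbl 0 2 17))))))) (.rp 28 (.str 19 (.nv (.dbl 35 3 44) (.rp 49 (.str 13 (.nv (.thr 1 61 (.thr 4 55 (.dbl 5 6 9))) (.nv (.dbl 35 3 44) .nd))) (.rp 44 (.thr 3 35 (.thr 15 11 (.thr 39 27 (.dbl 55 4 23)))) (.rp 35 (.thr 1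 61 (.thr 34 46 (.thr 17 0 (.thr 49 33 (.thr 18 16 (.dbl 50 2 48)))))) (.rp 13 (.str 49 (.nv (.thr 1 61 (.thr 17 33 (.dbl 34 0 46))) (.nv (.dbl 35 3 44) .nd))) (.rp 3 (.thr 55 4 (.thr 39 23 (.thr 43 40 (.dbl 35 44 47)))) .nd))))))) (.rp 19 (.str 28 (.nv (.thr 4 55 (.thr 34 46 (.thr 0 17 (.thr 12 8 (.thr 40 43 (.dbl 60 20 44)))))) (.nv (.thr 1 61 (.thr 34 46 (.thr 17 0 (.thr 35 44 (.dbl 33 32 49))))) (.nv (.thr 35 44 (.thr 43 40 (.thr 55 4 (.dbl 39 23 47)))) (.rp 49 (.str 13 (.nv (.thr 44 35 (.thr 46 34 (.thr 45 47 (.dbl 61 1 29)))) (.nv (.thr 35 44 (.thr 43 40 (.thr 39 47 (.dbl 55 4 23)))) (.nv (.thr 4 55 (.thr 5 6 (.dbl 1 9 61))) .nd)))) (.rp 44 (.thr 55 4 (.thr 39 23 (.thr 34 46 (.thr 1 61 (.thr 0 17 (.thr 3 2 (.dbl 15 11 27))))))) (.rp 13 (.str 49 (.nv (.thr 35 44 (.thr 43 40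 (.thr 55 4 (.dbl 39 23 47)))) (.nv (.thr 34 46 (.thr 17 0 (.dbl 1 33 61))) .nd))) .nd))))))) (.rp 13 (.str 49 (.nv (.thr 35 44 (.thr 43 40 (.thr 55 4 (.dbl 39 23 47)))) (.nv (.thr 34 46 (.thr 17 0 (.dbl 1 33 61))) (.rp 28 (.str 19 (.nv (.thr 1 61 (.thr 17 33 (.dbl 34 0 46))) (.nv (.dbl 35 3 44) .nd))) (.rp 19 (.str 28 (.nv (.thr 35 44 (.thr 43 40 (.thr 55 4 (.dbl 39 23 47)))) (.nv (.thr 34 46 (.thr 17 0 (.dbl 1 33 61))) .nd))) .nd))))) .nd))))))))) (.rp 49 (.str 13 (.nv (.thr 1 61 (.thr 34 46 (.thr 0 17 (.thr 3 2 (.dbl 35 19 44))))) (.nv (.thr 61 1 (.thr 45 29 (.thr 46 34 (.dbl 44 35 47)))) (.rp 61 (.thr 34 46 (.thr 4 55 (.thr 0 17 (.thr 12 8 (.thr 44 35 (.thr 40 43 (.dbl 60 20 28))))))) (.rp 52 (.str 7 (.nv (.thr 44 35 (.thr 46 34 (.thr 45 47 (.dbl 61 1 29)))) (.nv (.thr 35 44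 (.thr 43 40 (.thr 39 47 (.dbl 55 4 23)))) (.nv (.thr 4 55 (.thr 5 6 (.dbl 1 9 61))) (.rp 28 (.str 19 (.nv (.thr 1 61 (.thr 4 55 (.dbl 5 6 9))) (.nv (.dbl 35 3 44) .nd))) (.rp 19 (.str 28 (.nv (.thr 44 35 (.thr 46 34 (.thr 45 47 (.dbl 61 1 29)))) (.nv (.thr 35 44 (.thr 43 40 (.thr 39 47 (.dbl 55 4 23)))) (.nv (.thr 4 55 (.thr 5 6 (.dbl 1 9 61))) .nd)))) .nd)))))) (.rp 46 (.thr 44 35 (.str 12 (.nv (.thr 4 55 (.thr 8 0 (.thr 40 43 (.thr 24 56 (.dbl 36 32 48))))) (.nv (.thr 15 14 (.thr 61 1 (.thr 45 29 (.dbl 60 28 30)))) (.rp 52 (.str 7 (.nv (.thr 15 14 (.thr 11 3 (.thr 27 39 (.dbl 43 40 59)))) (.nv (.thr 4 55 (.thr 5 6 (.dbl 1 9 61))) (.rp 28 (.str 19 (.nv (.thr 15 14 (.thr 11 3 (.thr 27 39 (.dbl 43 40 59)))) (.nv (.thr 4 55 (.thr 5 6 (.dbl 1 9 61))) .nd))) (.rp 19 (.thr 28 60 (.thr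 15 14 (.thr 55 4 (.dbl 39 23 27)))) .nd))))) (.rp 28 (.str 19 (.nv (.thr 1 61 (.thr 9 5 (.thr 6 3 (.thr 14 15 (.thr 10 2 (.dbl 26 50 58)))))) (.nv (.thr 4 55 (.thr 8 0 (.thr 40 43 (.thr 24 56 (.dbl 36 32 48))))) (.nv (.thr 1 61 (.thr 4 55 (.thr 0 8 (.thr 3 2 (.dbl 9 5 6))))) (.rp 52 (.str 7 (.nv (.thr 15 14 (.thr 11 3 (.thr 27 39 (.dbl 43 40 59)))) (.nv (.thr 4 55 (.thr 5 6 (.dbl 1 9 61))) .nd))) (.rp 7 (.str 52 (.nv (.thr 1 61 (.thr 5 9 (.thr 15 14 (.thr 0 10 (.dbl 4 8 55))))) (.nv (.thr 4 55 (.thr 36 20 (.dbl 40 32 43))) (.rp 55 (.thr 40 43 (.thr 36 32 (.thr 20 4 (.thr 48 24 (.dbl 60 0 56))))) (.rp 4 (.thr 15 14 (.thr 43 40 (.thr 27 39 (.thr 11 59 (.thr 26 56 (.dbl 31 16 23)))))) .nd))))) (.rp 3 (.thr 15 14 (.thr 4 55 (.thr 0 8 (.thr 5 10 (.dbl 1 9 61))))) .nd))))))) (.rp 19 (.thr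 28 60 (.thr 40 43 (.thr 36 32 (.thr 4 55 (.thr 8 0 (.dbl 24 48 56)))))) (.rp 7 (.str 52 (.nv (.thr 15 14 (.thr 61 1 (.thr 45 29 (.dbl 60 28 30)))) (.nv (.thr 4 55 (.thr 36 20 (.dbl 40 32 43))) (.rp 28 (.str 19 (.nv (.thr 1 61 (.thr 5 9 (.thr 15 14 (.thr 0 10 (.dbl 4 8 55))))) (.nv (.thr 4 55 (.thr 36 20 (.dbl 40 32 43))) (.rp 55 (.thr 40 43 (.thr 36 32 (.thr 20 4 (.thr 48 24 (.dbl 60 0 56))))) (.rp 4 (.thr 15 14 (.thr 43 40 (.thr 27 39 (.thr 11 59 (.thr 26 56 (.dbl 31 16 23)))))) .nd))))) (.rp 19 (.thr 28 60 (.thr 40 43 (.thr 36 32 (.dbl 4 20 55)))) .nd))))) .nd)))))))) (.rp 44 (.thr 1 61 (.thr 5 9 (.thr 34 46 (.thr 4 55 (.thr 0 17 (.thr 15 10 (.dbl 12 8 14))))))) (.rp 35 (.thr 1 61 (.thr 5 9 (.thr 34 46 (.thr 4 55 (.thr 0 17 (.thr 15 10 (.dbl 12 8 14))))))) (.rp 34 (.thr 55 4 (.thr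 35 44 (.thr 43 40 (.thr 39 47 (.thr 7 23 (.thr 15 27 (.dbl 3 11 19))))))) (.rp 29 (.thr 55 4 (.thr 35 44 (.thr 43 40 (.thr 39 47 (.thr 7 23 (.thr 15 27 (.dbl 3 11 19))))))) (.rp 28 (.str 19 (.nv (.dbl 35 3 44) (.rp 52 (.str 7 (.nv (.thr 1 61 (.thr 4 55 (.dbl 5 6 9))) (.nv (.dbl 35 3 44) .nd))) (.rp 44 (.thr 3 35 (.thr 1 61 (.thr 34 46 (.dbl 0 2 17)))) (.rp 35 (.thr 1 61 (.thr 5 9 (.thr 34 46 (.thr 4 55 (.thr 0 17 (.thr 15 10 (.dbl 12 8 14))))))) (.rp 7 (.str 52 (.nv (.dbl 35 3 44) (.rp 44 (.thr 3 35 (.thr 1 61 (.thr 34 46 (.dbl 0 2 17)))) (.rp 35 (.thr 34 46 (.thr 40 43 (.thr 4 55 (.thr 20 36 (.dbl 0 17 60))))) (.rp 3 (.thr 61 1 (.thr 45 29 (.thr 46 34 (.dbl 44 35 47)))) .nd))))) (.rp 3 (.thr 61 1 (.thr 45 29 (.thr 46 34 (.dbl 44 35 47)))) .nd))))))) (.rp 19 (.str 28 (.nv (.thr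 4 55 (.thr 44 35 (.thr 12 60 (.thr 0 8 (.dbl 34 17 46))))) (.nv (.thr 4 55 (.thr 40 43 (.thr 44 35 (.thr 60 12 (.thr 20 0 (.dbl 36 32 52)))))) (.nv (.thr 61 1 (.thr 45 29 (.thr 46 34 (.dbl 44 35 47)))) (.rp 52 (.str 7 (.nv (.thr 44 35 (.thr 46 34 (.thr 45 47 (.dbl 61 1 29)))) (.nv (.thr 35 44 (.thr 43 40 (.thr 39 47 (.dbl 55 4 23)))) (.nv (.thr 4 55 (.thr 5 6 (.dbl 1 9 61))) .nd)))) (.rp 46 (.thr 61 1 (.thr 29 45 (.thr 44 35 (.thr 31 30 (.thr 26 16 (.thr 14 50 (.dbl 12 15 60))))))) (.rp 44 (.thr 1 61 (.thr 5 9 (.thr 34 46 (.thr 0 17 (.thr 4 55 (.thr 12 8 (.dbl 15 10 14))))))) (.rp 35 (.thr 34 46 (.thr 0 17 (.thr 4 55 (.thr 12 8 (.thr 60 44 (.dbl 40 20 43)))))) (.rp 7 (.str 52 (.nv (.thr 4 55 (.thr 20 36 (.thr 34 46 (.thr 0 17 (.dbl 40 43 60))))) (.nv (.thr 4 55 (.thr 36 20 (.thr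 40 43 (.dbl 44 32 35)))) (.nv (.thr 61 1 (.thr 45 29 (.thr 46 34 (.dbl 44 35 47)))) .nd)))) .nd))))))))) (.rp 17 (.thr 46 34 (.thr 44 35 (.thr 45 47 (.dbl 61 1 29)))) (.rp 7 (.str 52 (.nv (.thr 4 55 (.thr 20 36 (.thr 34 46 (.thr 0 17 (.dbl 40 43 60))))) (.nv (.thr 4 55 (.thr 36 20 (.thr 40 43 (.dbl 44 32 35)))) (.nv (.thr 44 35 (.thr 61 1 (.thr 45 29 (.dbl 46 34 47)))) (.rp 28 (.str 19 (.nv (.dbl 35 3 44) (.rp 44 (.thr 3 35 (.thr 1 61 (.thr 34 46 (.dbl 0 2 17)))) (.rp 35 (.thr 34 46 (.thr 40 43 (.thr 4 55 (.thr 20 36 (.dbl 0 17 60))))) (.rp 3 (.thr 61 1 (.thr 45 29 (.thr 46 34 (.dbl 44 35 47)))) .nd))))) (.rp 19 (.str 28 (.nv (.thr 4 55 (.thr 20 36 (.thr 34 46 (.thr 0 17 (.dbl 40 43 60))))) (.nv (.thr 4 55 (.thr 36 20 (.thr 40 43 (.dbl 44 32 35)))) (.nv (.thr 61 1 (.thr 45 29 (.thr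 46 34 (.dbl 44 35 47)))) .nd)))) .nd)))))) (.rp 1 (.thr 55 4 (.thr 35 44 (.thr 43 40 (.thr 39 47 (.thr 7 23 (.thr 15 27 (.dbl 3 11 19))))))) .nd))))))))))))))) (.rp 46 (.thr 44 35 (.str 12 (.nv (.thr 4 55 (.thr 8 0 (.thr 40 43 (.thr 24 56 (.dbl 36 32 48))))) (.nv (.thr 4 55 (.thr 40 43 (.thr 36 32 (.thr 48 24 (.thr 52 20 (.dbl 60 28 56)))))) (.nv (.thr 40 43 (.thr 4 55 (.thr 0 8 (.dbl 60 20 28)))) (.rp 55 (.thr 40 43 (.thr 36 32 (.thr 24 48 (.thr 8 56 (.thr 0 4 (.dbl 60 20 28)))))) (.rp 52 (.str 7 (.nv (.thr 4 55 (.thr 0 8 (.thr 6 5 (.thr 3 9 (.dbl 1 2 61))))) (.nv (.thr 40 43 (.thr 4 55 (.thr 0 8 (.dbl 60 20 28)))) (.rp 55 (.thr 40 43 (.thr 36 32 (.thr 28 60 (.thr 24 48 (.thr 56 8 (.thr 16 20 (.dbl 26 11 31))))))) (.rp 54 (.thr 43 40 (.thr 55 4 (.thr 39 23 (.thr 15 27 (.thr 11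 3 (.thr 26 56 (.dbl 14 13 50))))))) (.rp 53 (.thr 43 40 (.thr 55 4 (.thr 39 23 (.thr 15 27 (.thr 11 3 (.thr 26 56 (.dbl 14 13 50))))))) (.rp 49 (.str 13 (.nv (.thr 15 14 (.thr 11 3 (.thr 27 39 (.dbl 43 40 59)))) (.nv (.thr 4 55 (.thr 5 6 (.dbl 1 9 61))) (.rp 28 (.str 19 (.nv (.thr 15 14 (.thr 11 3 (.thr 27 39 (.dbl 43 40 59)))) (.nv (.thr 4 55 (.thr 5 6 (.dbl 1 9 61))) .nd))) (.rp 19 (.thr 28 60 (.thr 15 14 (.thr 55 4 (.dbl 39 23 27)))) .nd))))) (.rp 28 (.str 19 (.nv (.thr 4 55 (.thr 8 0 (.thr 40 43 (.thr 36 32 (.dbl 24 48 56))))) (.nv (.thr 1 61 (.thr 4 55 (.thr 6 5 (.thr 3 9 (.dbl 0 2 8))))) (.rp 55 (.thr 40 43 (.thr 36 32 (.thr 1 61 (.thr 48 24 (.thr 49 50 (.thr 33 17 (.thr 3 18 (.thr 15 11 (.thr 9 6 (.dbl 13 5 14)))))))))) (.rp 54 (.thr 43 40 (.thr 55 4 (.thr 39 23 (.thr 15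 27 (.thr 11 3 (.thr 26 56 (.dbl 14 13 50))))))) (.rp 53 (.thr 43 40 (.thr 55 4 (.thr 39 23 (.thr 15 27 (.thr 11 3 (.thr 26 56 (.dbl 14 13 50))))))) (.rp 49 (.str 13 (.nv (.thr 15 14 (.thr 11 3 (.thr 27 39 (.dbl 43 40 59)))) (.nv (.thr 4 55 (.thr 5 6 (.dbl 1 9 61))) .nd))) (.rp 13 (.str 49 (.nv (.thr 1 61 (.thr 4 55 (.thr 0 8 (.dbl 17 33 34)))) (.nv (.thr 40 43 (.thr 48 50 (.dbl 36 24 32))) .nd))) (.rp 8 (.thr 4 55 (.thr 6 5 (.thr 3 9 (.thr 11 15 (.thr 26 56 (.thr 14 50 (.dbl 10 2 58))))))) (.rp 4 (.thr 40 43 (.thr 36 32 (.thr 1 61 (.thr 48 24 (.thr 49 50 (.thr 33 17 (.thr 3 18 (.thr 15 11 (.thr 9 6 (.dbl 13 5 14)))))))))) (.rp 3 (.thr 4 55 (.thr 5 6 (.thr 0 8 (.thr 15 10 (.thr 1 61 (.dbl 13 9 14)))))) (.rp 0 (.thr 43 40 (.thr 55 4 (.thr 39 23 (.thr 15 27 (.thr 11 3 (.thr 26 56 (.dbl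 14 13 50))))))) .nd)))))))))))) (.rp 19 (.thr 28 60 (.thr 40 43 (.thr 36 32 (.thr 4 55 (.thr 8 0 (.dbl 24 48 56)))))) (.rp 13 (.str 49 (.nv (.thr 1 61 (.thr 4 55 (.thr 0 8 (.dbl 17 33 34)))) (.nv (.thr 48 50 (.thr 36 24 (.dbl 40 32 43))) (.rp 28 (.str 19 (.nv (.thr 1 61 (.thr 4 55 (.thr 0 8 (.dbl 17 33 34)))) (.nv (.thr 40 43 (.thr 48 50 (.dbl 36 24 32))) .nd))) (.rp 19 (.thr 28 60 (.thr 40 43 (.thr 36 32 (.dbl 48 24 50)))) .nd))))) (.rp 8 (.thr 40 43 (.thr 36 32 (.thr 61 1 (.thr 48 24 (.thr 49 50 (.thr 57 53 (.dbl 60 28 54))))))) (.rp 4 (.thr 40 43 (.thr 36 32 (.thr 61 1 (.thr 48 24 (.thr 49 50 (.thr 57 53 (.dbl 60 28 54))))))) (.rp 3 (.thr 1 61 (.thr 4 55 (.thr 0 8 (.thr 5 6 (.thr 13 9 (.dbl 15 10 14)))))) (.rp 0 (.thr 43 40 (.thr 55 4 (.thr 39 23 (.thr 15 27 (.thr 11 3 (.thr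 26 56 (.dbl 14 13 50))))))) .nd)))))))))))))) (.rp 49 (.str 13 (.nv (.thr 4 55 (.thr 8 0 (.thr 40 43 (.thr 24 56 (.dbl 36 32 48))))) (.nv (.thr 15 14 (.thr 61 1 (.thr 45 29 (.dbl 60 28 30)))) (.rp 52 (.str 7 (.nv (.thr 15 14 (.thr 11 3 (.thr 27 39 (.dbl 43 40 59)))) (.nv (.thr 4 55 (.thr 5 6 (.dbl 1 9 61))) (.rp 28 (.str 19 (.nv (.thr 15 14 (.thr 11 3 (.thr 27 39 (.dbl 43 40 59)))) (.nv (.thr 4 55 (.thr 5 6 (.dbl 1 9 61))) .nd))) (.rp 19 (.thr 28 60 (.thr 15 14 (.thr 55 4 (.dbl 39 23 27)))) .nd))))) (.rp 28 (.str 19 (.nv (.thr 1 61 (.thr 9 5 (.thr 6 3 (.thr 14 15 (.thr 10 2 (.dbl 26 50 58)))))) (.nv (.thr 4 55 (.thr 8 0 (.thr 40 43 (.thr 24 56 (.dbl 36 32 48))))) (.nv (.thr 1 61 (.thr 4 55 (.thr 0 8 (.thr 3 2 (.dbl 9 5 6))))) (.rp 52 (.str 7 (.nv (.thr 15 14 (.thr 11 3 (.thr 27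 39 (.dbl 43 40 59)))) (.nv (.thr 4 55 (.thr 5 6 (.dbl 1 9 61))) .nd))) (.rp 7 (.str 52 (.nv (.thr 1 61 (.thr 5 9 (.thr 15 14 (.thr 0 10 (.dbl 4 8 55))))) (.nv (.thr 4 55 (.thr 36 20 (.dbl 40 32 43))) (.rp 55 (.thr 40 43 (.thr 36 32 (.thr 20 4 (.thr 48 24 (.dbl 60 0 56))))) (.rp 4 (.thr 15 14 (.thr 43 40 (.thr 27 39 (.thr 11 59 (.thr 26 56 (.dbl 31 16 23)))))) .nd))))) (.rp 3 (.thr 15 14 (.thr 4 55 (.thr 0 8 (.thr 5 10 (.dbl 1 9 61))))) .nd))))))) (.rp 19 (.thr 28 60 (.thr 40 43 (.thr 36 32 (.thr 4 55 (.thr 8 0 (.dbl 24 48 56)))))) (.rp 7 (.str 52 (.nv (.thr 15 14 (.thr 61 1 (.thr 45 29 (.dbl 60 28 30)))) (.nv (.thr 4 55 (.thr 36 20 (.dbl 40 32 43))) (.rp 28 (.str 19 (.nv (.thr 1 61 (.thr 5 9 (.thr 15 14 (.thr 0 10 (.dbl 4 8 55))))) (.nv (.thr 4 55 (.thr 36 20 (.dbl 40 32 43))) (.rp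 55 (.thr 40 43 (.thr 36 32 (.thr 20 4 (.thr 48 24 (.dbl 60 0 56))))) (.rp 4 (.thr 15 14 (.thr 43 40 (.thr 27 39 (.thr 11 59 (.thr 26 56 (.dbl 31 16 23)))))) .nd))))) (.rp 19 (.thr 28 60 (.thr 40 43 (.thr 36 32 (.dbl 4 20 55)))) .nd))))) .nd))))))) (.rp 47 (.thr 1 61 (.thr 4 55 (.thr 0 8 (.thr 2 3 (.thr 34 17 (.thr 50 18 (.thr 26 14 (.thr 10 58 (.thr 15 5 (.thr 16 31 (.dbl 48 32 49))))))))))) (.rp 43 (.thr 1 61 (.thr 4 55 (.thr 0 8 (.thr 3 2 (.thr 9 6 (.thr 13 5 (.thr 14 15 (.thr 50 26 (.thr 48 49 (.thr 32 16 (.dbl 36 24 40))))))))))) (.rp 40 (.thr 1 61 (.thr 4 55 (.thr 0 8 (.thr 2 3 (.thr 34 17 (.thr 50 18 (.thr 26 14 (.thr 16 31 (.dbl 48 32 49))))))))) (.rp 39 (.thr 1 61 (.thr 4 55 (.thr 0 8 (.thr 2 3 (.thr 34 17 (.thr 50 18 (.thr 26 14 (.thr 16 31 (.dbl 48 32 49))))))))) (.rp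 28 (.str 19 (.nv (.thr 4 55 (.thr 0 8 (.thr 17 34 (.thr 16 18 (.thr 26 31 (.thr 50 14 (.dbl 48 32 49))))))) (.nv (.thr 4 55 (.thr 8 0 (.thr 40 43 (.thr 24 56 (.dbl 36 32 48))))) (.rp 55 (.thr 40 43 (.thr 36 32 (.thr 61 1 (.thr 48 24 (.thr 49 50 (.thr 57 53 (.thr 60 54 (.thr 52 56 (.dbl 20 0 4))))))))) (.rp 52 (.str 7 (.nv (.thr 4 55 (.thr 8 0 (.thr 40 43 (.thr 36 32 (.dbl 24 48 56))))) (.nv (.thr 1 61 (.thr 4 55 (.thr 6 5 (.thr 3 9 (.dbl 0 2 8))))) (.rp 55 (.thr 40 43 (.thr 36 32 (.thr 1 61 (.thr 48 24 (.thr 49 50 (.thr 33 17 (.thr 3 18 (.thr 15 11 (.thr 9 6 (.dbl 13 5 14)))))))))) (.rp 54 (.thr 43 40 (.thr 55 4 (.thr 39 23 (.thr 15 27 (.thr 11 3 (.thr 26 56 (.dbl 14 13 50))))))) (.rp 53 (.thr 43 40 (.thr 55 4 (.thr 39 23 (.thr 15 27 (.thr 11 3 (.thr 26 56 (.dbl 14 13 50)))))))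 (.rp 49 (.str 13 (.nv (.thr 15 14 (.thr 11 3 (.thr 27 39 (.dbl 43 40 59)))) (.nv (.thr 4 55 (.thr 5 6 (.dbl 1 9 61))) .nd))) (.rp 13 (.str 49 (.nv (.thr 1 61 (.thr 4 55 (.thr 0 8 (.dbl 17 33 34)))) (.nv (.thr 40 43 (.thr 48 50 (.dbl 36 24 32))) .nd))) (.rp 8 (.thr 4 55 (.thr 6 5 (.thr 3 9 (.thr 11 15 (.thr 26 56 (.thr 14 50 (.dbl 10 2 58))))))) (.rp 4 (.thr 40 43 (.thr 36 32 (.thr 1 61 (.thr 48 24 (.thr 49 50 (.thr 33 17 (.thr 3 18 (.thr 15 11 (.thr 9 6 (.dbl 13 5 14)))))))))) (.rp 3 (.thr 4 55 (.thr 5 6 (.thr 0 8 (.thr 15 10 (.thr 1 61 (.dbl 13 9 14)))))) (.rp 0 (.thr 43 40 (.thr 55 4 (.thr 39 23 (.thr 15 27 (.thr 11 3 (.thr 26 56 (.dbl 14 13 50))))))) .nd)))))))))))) (.rp 49 (.str 13 (.nv (.thr 1 61 (.thr 9 5 (.thr 6 3 (.thr 14 15 (.thr 10 2 (.dbl 26 50 58)))))) (.nv (.thr 4 55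 (.thr 8 0 (.thr 40 43 (.thr 24 56 (.dbl 36 32 48))))) (.nv (.thr 1 61 (.thr 4 55 (.thr 0 8 (.thr 3 2 (.dbl 9 5 6))))) (.rp 52 (.str 7 (.nv (.thr 15 14 (.thr 11 3 (.thr 27 39 (.dbl 43 40 59)))) (.nv (.thr 4 55 (.thr 5 6 (.dbl 1 9 61))) .nd))) (.rp 7 (.str 52 (.nv (.thr 1 61 (.thr 5 9 (.thr 15 14 (.thr 0 10 (.dbl 4 8 55))))) (.nv (.thr 4 55 (.thr 36 20 (.dbl 40 32 43))) (.rp 55 (.thr 40 43 (.thr 36 32 (.thr 20 4 (.thr 48 24 (.dbl 60 0 56))))) (.rp 4 (.thr 15 14 (.thr 43 40 (.thr 27 39 (.thr 11 59 (.thr 26 56 (.dbl 31 16 23)))))) .nd))))) (.rp 3 (.thr 15 14 (.thr 4 55 (.thr 0 8 (.thr 5 10 (.dbl 1 9 61))))) .nd))))))) (.rp 48 (.thr 40 43 (.thr 36 32 (.thr 4 55 (.thr 0 8 (.dbl 20 52 60))))) (.rp 47 (.thr 4 55 (.thr 0 8 (.thr 17 34 (.thr 16 18 (.thr 32 48 (.dbl 40 36 43)))))) (.rp 32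 (.thr 4 55 (.thr 0 8 (.thr 1 61 (.thr 3 2 (.thr 9 6 (.thr 13 5 (.thr 17 34 (.thr 33 49 (.dbl 18 16 48))))))))) (.rp 13 (.str 49 (.nv (.thr 40 43 (.thr 48 50 (.dbl 36 24 32))) (.nv (.thr 4 55 (.thr 0 8 (.thr 17 34 (.dbl 1 33 61)))) (.rp 52 (.str 7 (.nv (.thr 1 61 (.thr 4 55 (.thr 0 8 (.dbl 17 33 34)))) (.nv (.thr 40 43 (.thr 48 50 (.dbl 36 24 32))) .nd))) (.rp 32 (.thr 4 55 (.thr 0 8 (.thr 1 61 (.dbl 17 33 34)))) (.rp 7 (.str 52 (.nv (.thr 40 43 (.thr 36 32 (.dbl 48 24 50))) (.nv (.thr 55 4 (.thr 53 54 (.dbl 61 1 57))) (.nv (.thr 48 50 (.thr 4 55 (.dbl 36 20 24))) .nd)))) .nd)))))) (.rp 8 (.thr 40 43 (.thr 36 32 (.thr 4 55 (.thr 61 1 (.thr 48 24 (.thr 49 50 (.thr 57 53 (.thr 60 54 (.dbl 52 20 56))))))))) (.rp 7 (.str 52 (.nv (.thr 4 55 (.thr 0 8 (.thr 20 36 (.dbl 40 43 60)))) (.nv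 (.thr 40 43 (.thr 4 55 (.dbl 36 20 32))) (.rp 55 (.thr 40 43 (.thr 36 32 (.thr 48 24 (.thr 60 56 (.dbl 20 0 4))))) (.rp 49 (.str 13 (.nv (.thr 1 61 (.thr 5 9 (.thr 15 14 (.thr 0 10 (.dbl 4 8 55))))) (.nv (.thr 4 55 (.thr 36 20 (.dbl 40 32 43))) (.rp 55 (.thr 40 43 (.thr 36 32 (.thr 20 4 (.thr 48 24 (.dbl 60 0 56))))) (.rp 4 (.thr 15 14 (.thr 43 40 (.thr 27 39 (.thr 11 59 (.thr 26 56 (.dbl 31 16 23)))))) .nd))))) (.rp 43 (.thr 4 55 (.thr 36 20 (.thr 40 32 (.thr 24 48 (.dbl 8 0 56))))) (.rp 40 (.thr 4 55 (.thr 36 20 (.thr 0 8 (.thr 17 34 (.thr 16 18 (.dbl 48 24 32)))))) (.rp 39 (.thr 55 4 (.thr 54 53 (.thr 60 57 (.thr 48 56 (.thr 36 24 (.dbl 40 32 43)))))) (.rp 36 (.thr 40 43 (.thr 4 55 (.thr 8 0 (.thr 56 24 (.thr 48 60 (.thr 26 11 (.dbl 50 14 49))))))) (.rp 23 (.thr 55 4 (.thr 54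 53 (.thr 60 57 (.thr 48 56 (.thr 36 24 (.dbl 40 32 43)))))) (.rp 20 (.thr 40 43 (.thr 36 32 (.thr 24 48 (.thr 4 55 (.dbl 8 0 56))))) (.rp 13 (.str 49 (.nv (.thr 40 43 (.thr 36 32 (.dbl 48 24 50))) (.nv (.thr 55 4 (.thr 53 54 (.dbl 61 1 57))) (.nv (.thr 48 50 (.thr 4 55 (.dbl 36 20 24))) .nd)))) (.rp 4 (.thr 40 43 (.thr 36 32 (.thr 48 24 (.thr 56 60 (.thr 26 11 (.dbl 50 14 49)))))) .nd))))))))))))) (.rp 4 (.thr 40 43 (.thr 36 32 (.thr 1 61 (.thr 48 24 (.thr 49 50 (.thr 17 33 (.thr 34 0 (.thr 16 18 (.thr 26 31 (.thr 10 58 (.thr 11 56 (.thr 9 8 (.thr 13 5 (.thr 15 14 (.dbl 3 6 7))))))))))))))) (.rp 0 (.thr 40 43 (.thr 36 32 (.thr 4 55 (.thr 61 1 (.thr 48 24 (.thr 49 50 (.thr 57 53 (.thr 60 54 (.dbl 52 20 56))))))))) .nd)))))))))))))) (.rp 23 (.thr 1 61 (.thr 4 55 (.thr 0 8 (.thr 40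 43 (.thr 3 2 (.dbl 60 20 28)))))) (.rp 19 (.thr 28 60 (.thr 40 43 (.thr 36 32 (.thr 4 55 (.thr 8 0 (.dbl 24 48 56)))))) (.rp 13 (.str 49 (.nv (.thr 1 61 (.thr 4 55 (.thr 0 8 (.dbl 17 33 34)))) (.nv (.thr 48 50 (.thr 36 24 (.dbl 40 32 43))) (.rp 52 (.str 7 (.nv (.thr 1 61 (.thr 4 55 (.thr 0 8 (.dbl 17 33 34)))) (.nv (.thr 48 50 (.thr 36 24 (.dbl 40 32 43))) (.rp 28 (.str 19 (.nv (.thr 1 61 (.thr 4 55 (.thr 0 8 (.dbl 17 33 34)))) (.nv (.thr 40 43 (.thr 48 50 (.dbl 36 24 32))) .nd))) (.rp 19 (.thr 28 60 (.thr 40 43 (.thr 36 32 (.dbl 48 24 50)))) .nd))))) (.rp 28 (.str 19 (.nv (.thr 40 43 (.thr 48 50 (.dbl 36 24 32))) (.nv (.thr 4 55 (.thr 0 8 (.thr 17 34 (.dbl 1 33 61)))) (.rp 52 (.str 7 (.nv (.thr 1 61 (.thr 4 55 (.thr 0 8 (.dbl 17 33 34)))) (.nv (.thr 40 43 (.thr 48 50 (.dbl 36 24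 32))) .nd))) (.rp 32 (.thr 4 55 (.thr 0 8 (.thr 1 61 (.dbl 17 33 34)))) (.rp 7 (.str 52 (.nv (.thr 40 43 (.thr 36 32 (.dbl 48 24 50))) (.nv (.thr 55 4 (.thr 53 54 (.dbl 61 1 57))) (.nv (.thr 48 50 (.thr 4 55 (.dbl 36 20 24))) .nd)))) .nd)))))) (.rp 19 (.thr 28 60 (.thr 40 43 (.thr 36 32 (.dbl 48 24 50)))) (.rp 7 (.str 52 (.nv (.thr 4 55 (.thr 36 20 (.dbl 40 32 43))) (.nv (.thr 48 50 (.dbl 60 28 56)) (.rp 28 (.str 19 (.nv (.thr 40 43 (.thr 36 32 (.dbl 48 24 50))) (.nv (.thr 55 4 (.thr 53 54 (.dbl 61 1 57))) (.nv (.thr 48 50 (.thr 4 55 (.dbl 36 20 24))) .nd)))) (.rp 19 (.thr 28 60 (.thr 40 43 (.thr 36 32 (.dbl 48 24 50)))) .nd))))) .nd))))))) (.rp 7 (.str 52 (.nv (.thr 40 43 (.thr 36 32 (.thr 48 24 (.dbl 60 28 56)))) (.nv (.thr 55 4 (.thr 54 53 (.dbl 60 28 57))) (.nv (.thr 4 55 (.thr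 36 20 (.dbl 40 32 43))) (.rp 49 (.str 13 (.nv (.thr 15 14 (.thr 61 1 (.thr 45 29 (.dbl 60 28 30)))) (.nv (.thr 4 55 (.thr 36 20 (.dbl 40 32 43))) (.rp 28 (.str 19 (.nv (.thr 1 61 (.thr 5 9 (.thr 15 14 (.thr 0 10 (.dbl 4 8 55))))) (.nv (.thr 4 55 (.thr 36 20 (.dbl 40 32 43))) (.rp 55 (.thr 40 43 (.thr 36 32 (.thr 20 4 (.thr 48 24 (.dbl 60 0 56))))) (.rp 4 (.thr 15 14 (.thr 43 40 (.thr 27 39 (.thr 11 59 (.thr 26 56 (.dbl 31 16 23)))))) .nd))))) (.rp 19 (.thr 28 60 (.thr 40 43 (.thr 36 32 (.dbl 4 20 55)))) .nd))))) (.rp 28 (.str 19 (.nv (.thr 4 55 (.thr 0 8 (.thr 20 36 (.dbl 40 43 60)))) (.nv (.thr 40 43 (.thr 4 55 (.dbl 36 20 32))) (.rp 55 (.thr 40 43 (.thr 36 32 (.thr 48 24 (.thr 60 56 (.dbl 20 0 4))))) (.rp 49 (.str 13 (.nv (.thr 1 61 (.thr 5 9 (.thr 15 14 (.thr 0 10 (.dbl 4 8 55)))))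 (.nv (.thr 4 55 (.thr 36 20 (.dbl 40 32 43))) (.rp 55 (.thr 40 43 (.thr 36 32 (.thr 20 4 (.thr 48 24 (.dbl 60 0 56))))) (.rp 4 (.thr 15 14 (.thr 43 40 (.thr 27 39 (.thr 11 59 (.thr 26 56 (.dbl 31 16 23)))))) .nd))))) (.rp 43 (.thr 4 55 (.thr 36 20 (.thr 40 32 (.thr 24 48 (.dbl 8 0 56))))) (.rp 40 (.thr 4 55 (.thr 36 20 (.thr 0 8 (.thr 17 34 (.thr 16 18 (.dbl 48 24 32)))))) (.rp 39 (.thr 55 4 (.thr 54 53 (.thr 60 57 (.thr 48 56 (.thr 36 24 (.dbl 40 32 43)))))) (.rp 36 (.thr 40 43 (.thr 4 55 (.thr 8 0 (.thr 56 24 (.thr 48 60 (.thr 26 11 (.dbl 50 14 49))))))) (.rp 23 (.thr 55 4 (.thr 54 53 (.thr 60 57 (.thr 48 56 (.thr 36 24 (.dbl 40 32 43)))))) (.rp 20 (.thr 40 43 (.thr 36 32 (.thr 24 48 (.thr 4 55 (.dbl 8 0 56))))) (.rp 13 (.str 49 (.nv (.thr 40 43 (.thr 36 32 (.dbl 48 24 50))) (.nv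 (.thr 55 4 (.thr 53 54 (.dbl 61 1 57))) (.nv (.thr 48 50 (.thr 4 55 (.dbl 36 20 24))) .nd)))) (.rp 4 (.thr 40 43 (.thr 36 32 (.thr 48 24 (.thr 56 60 (.thr 26 11 (.dbl 50 14 49)))))) .nd))))))))))))) (.rp 19 (.thr 28 60 (.thr 40 43 (.thr 36 32 (.dbl 4 20 55)))) (.rp 13 (.str 49 (.nv (.thr 4 55 (.thr 36 20 (.dbl 40 32 43))) (.nv (.thr 48 50 (.dbl 60 28 56)) (.rp 28 (.str 19 (.nv (.thr 40 43 (.thr 36 32 (.dbl 48 24 50))) (.nv (.thr 55 4 (.thr 53 54 (.dbl 61 1 57))) (.nv (.thr 48 50 (.thr 4 55 (.dbl 36 20 24))) .nd)))) (.rp 19 (.thr 28 60 (.thr 40 43 (.thr 36 32 (.dbl 48 24 50)))) .nd))))) .nd)))))))) (.rp 4 (.thr 40 43 (.thr 36 32 (.thr 61 1 (.thr 48 24 (.thr 49 50 (.thr 57 53 (.dbl 60 28 54))))))) (.rp 3 (.thr 43 40 (.str 15 (.nv (.thr 27 39 (.thr 11 59 (.thr 26 56 (.dbl 14 13 50))))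 (.nv (.thr 13 14 (.thr 61 1 (.thr 45 29 (.dbl 60 28 30)))) (.rp 52 (.str 7 (.nv (.thr 13 14 (.thr 61 1 (.thr 45 29 (.dbl 60 28 30)))) (.nv (.thr 55 4 (.dbl 39 23 27)) (.rp 28 (.str 19 (.nv (.thr 27 39 (.thr 11 59 (.thr 26 56 (.dbl 14 13 50)))) (.nv (.thr 13 14 (.thr 1 61 (.thr 4 55 (.dbl 5 6 9)))) (.nv (.thr 39 27 (.dbl 55 4 23)) (.rp 13 (.str 49 (.nv (.thr 27 39 (.thr 11 59 (.thr 26 56 (.dbl 31 16 23)))) (.nv (.thr 4 55 (.thr 5 6 (.dbl 0 8 10))) (.nv (.thr 39 27 (.dbl 55 4 23)) .nd)))) .nd))))) (.rp 19 (.thr 28 60 (.thr 55 4 (.dbl 39 23 27))) (.rp 13 (.str 49 (.nv (.thr 61 1 (.thr 57 53 (.dbl 60 28 54))) (.nv (.thr 55 4 (.dbl 39 23 27)) (.rp 55 (.thr 50 48 (.thr 27 39 (.thr 11 59 (.dbl 26 14 56)))) (.rp 28 (.str 19 (.nv (.thr 27 39 (.thr 11 59 (.thr 26 56 (.dbl 31 16 23)))) (.nv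 (.thr 4 55 (.thr 5 6 (.dbl 0 8 10))) (.nv (.thr 39 27 (.dbl 55 4 23)) .nd)))) (.rp 19 (.thr 28 60 (.thr 55 4 (.dbl 39 23 27))) .nd)))))) .nd)))))) (.rp 28 (.str 19 (.nv (.thr 13 14 (.thr 1 61 (.thr 4 55 (.thr 5 9 (.dbl 0 8 10))))) (.nv (.thr 27 39 (.thr 11 59 (.thr 31 23 (.dbl 26 16 56)))) (.rp 55 (.thr 27 39 (.thr 11 59 (.thr 26 56 (.dbl 14 13 50)))) (.rp 52 (.str 7 (.nv (.thr 27 39 (.thr 11 59 (.thr 26 56 (.dbl 14 13 50)))) (.nv (.thr 13 14 (.thr 1 61 (.thr 4 55 (.dbl 5 6 9)))) (.nv (.thr 39 27 (.dbl 55 4 23)) (.rp 13 (.str 49 (.nv (.thr 27 39 (.thr 11 59 (.thr 26 56 (.dbl 31 16 23)))) (.nv (.thr 4 55 (.thr 5 6 (.dbl 0 8 10))) (.nv (.thr 39 27 (.dbl 55 4 23)) .nd)))) .nd))))) (.rp 13 (.str 49 (.nv (.thr 1 61 (.thr 4 55 (.thr 17 33 (.dbl 0 8 34)))) (.nv (.thr 27 39 (.thr 11 59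 (.thr 31 23 (.dbl 26 16 56)))) (.rp 55 (.thr 27 39 (.thr 50 48 (.thr 26 14 (.dbl 31 16 23)))) (.rp 52 (.str 7 (.nv (.thr 27 39 (.thr 11 59 (.thr 26 56 (.dbl 31 16 23)))) (.nv (.thr 4 55 (.thr 5 6 (.dbl 0 8 10))) (.nv (.thr 39 27 (.dbl 55 4 23)) .nd)))) (.rp 7 (.str 52 (.nv (.thr 48 50 (.thr 56 60 (.thr 11 26 (.dbl 27 39 59)))) (.nv (.thr 55 4 (.thr 53 54 (.dbl 61 1 57))) (.rp 61 (.thr 4 55 (.thr 36 20 (.dbl 48 24 50))) .nd)))) .nd)))))) (.rp 7 (.str 52 (.nv (.thr 27 39 (.thr 23 31 (.thr 11 59 (.thr 26 56 (.dbl 14 13 50))))) (.nv (.thr 13 14 (.thr 1 61 (.thr 5 9 (.thr 0 10 (.dbl 4 8 55))))) (.nv (.thr 55 4 (.thr 27 39 (.thr 31 23 (.thr 11 59 (.dbl 26 16 56))))) (.rp 13 (.str 49 (.nv (.thr 48 50 (.thr 56 60 (.thr 11 26 (.dbl 27 39 59)))) (.nv (.thr 55 4 (.thr 53 54 (.dbl 61 1 57)))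 (.rp 61 (.thr 4 55 (.thr 36 20 (.dbl 48 24 50))) .nd)))) (.rp 11 (.thr 13 14 (.thr 4 55 (.thr 1 61 (.thr 5 9 (.dbl 0 8 10))))) .nd)))))) .nd))))))) (.rp 19 (.thr 28 60 (.thr 27 39 (.thr 11 59 (.thr 26 56 (.dbl 14 13 50))))) (.rp 14 (.thr 4 55 (.thr 0 8 (.thr 10 5 (.thr 27 39 (.thr 11 59 (.dbl 26 56 58)))))) (.rp 13 (.str 49 (.nv (.thr 4 55 (.thr 0 8 (.thr 17 34 (.dbl 1 33 61)))) (.nv (.thr 27 39 (.thr 11 59 (.thr 48 50 (.thr 56 26 (.dbl 60 28 52))))) (.rp 56 (.thr 61 1 (.thr 57 53 (.dbl 60 28 54))) (.rp 52 (.str 7 (.nv (.thr 61 1 (.thr 57 53 (.dbl 60 28 54))) (.nv (.thr 55 4 (.dbl 39 23 27)) (.rp 55 (.thr 50 48 (.thr 27 39 (.thr 11 59 (.dbl 26 14 56)))) (.rp 28 (.str 19 (.nv (.thr 27 39 (.thr 11 59 (.thr 26 56 (.dbl 31 16 23)))) (.nv (.thr 4 55 (.thr 5 6 (.dbl 0 8 10))) (.nv (.thr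 39 27 (.dbl 55 4 23)) .nd)))) (.rp 19 (.thr 28 60 (.thr 55 4 (.dbl 39 23 27))) .nd)))))) (.rp 28 (.str 19 (.nv (.thr 1 61 (.thr 4 55 (.thr 17 33 (.dbl 0 8 34)))) (.nv (.thr 27 39 (.thr 11 59 (.thr 31 23 (.dbl 26 16 56)))) (.rp 55 (.thr 27 39 (.thr 50 48 (.thr 26 14 (.dbl 31 16 23)))) (.rp 52 (.str 7 (.nv (.thr 27 39 (.thr 11 59 (.thr 26 56 (.dbl 31 16 23)))) (.nv (.thr 4 55 (.thr 5 6 (.dbl 0 8 10))) (.nv (.thr 39 27 (.dbl 55 4 23)) .nd)))) (.rp 7 (.str 52 (.nv (.thr 48 50 (.thr 56 60 (.thr 11 26 (.dbl 27 39 59)))) (.nv (.thr 55 4 (.thr 53 54 (.dbl 61 1 57))) (.rp 61 (.thr 4 55 (.thr 36 20 (.dbl 48 24 50))) .nd)))) .nd)))))) (.rp 19 (.thr 28 60 (.thr 50 48 (.thr 27 39 (.thr 11 59 (.dbl 26 14 56))))) (.rp 7 (.str 52 (.nv (.thr 55 4 (.thr 53 54 (.dbl 61 1 57))) (.nv (.thr 48 50 (.dbl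 60 28 56)) (.rp 28 (.str 19 (.nv (.thr 48 50 (.thr 56 60 (.thr 11 26 (.dbl 27 39 59)))) (.nv (.thr 55 4 (.thr 53 54 (.dbl 61 1 57))) (.rp 61 (.thr 4 55 (.thr 36 20 (.dbl 48 24 50))) .nd)))) (.rp 19 (.thr 28 60 (.thr 48 50 (.thr 4 55 (.dbl 36 20 24)))) .nd))))) .nd)))))))) (.rp 7 (.str 52 (.nv (.thr 55 4 (.thr 54 53 (.dbl 60 28 57))) (.nv (.thr 13 14 (.thr 61 1 (.thr 45 29 (.dbl 60 28 30)))) (.rp 60 (.thr 27 39 (.thr 11 59 (.thr 26 56 (.dbl 14 13 50)))) (.rp 28 (.str 19 (.nv (.thr 27 39 (.thr 23 31 (.thr 11 59 (.thr 26 56 (.dbl 14 13 50))))) (.nv (.thr 13 14 (.thr 1 61 (.thr 5 9 (.thr 0 10 (.dbl 4 8 55))))) (.nv (.thr 55 4 (.thr 27 39 (.thr 31 23 (.thr 11 59 (.dbl 26 16 56))))) (.rp 13 (.str 49 (.nv (.thr 48 50 (.thr 56 60 (.thr 11 26 (.dbl 27 39 59)))) (.nv (.thr 55 4 (.thr 53 54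 (.dbl 61 1 57))) (.rp 61 (.thr 4 55 (.thr 36 20 (.dbl 48 24 50))) .nd)))) (.rp 11 (.thr 13 14 (.thr 4 55 (.thr 1 61 (.thr 5 9 (.dbl 0 8 10))))) .nd)))))) (.rp 19 (.thr 28 60 (.thr 27 39 (.thr 11 59 (.thr 26 56 (.dbl 14 13 50))))) (.rp 13 (.str 49 (.nv (.thr 55 4 (.thr 53 54 (.dbl 61 1 57))) (.nv (.thr 48 50 (.dbl 60 28 56)) (.rp 28 (.str 19 (.nv (.thr 48 50 (.thr 56 60 (.thr 11 26 (.dbl 27 39 59)))) (.nv (.thr 55 4 (.thr 53 54 (.dbl 61 1 57))) (.rp 61 (.thr 4 55 (.thr 36 20 (.dbl 48 24 50))) .nd)))) (.rp 19 (.thr 28 60 (.thr 48 50 (.thr 4 55 (.dbl 36 20 24)))) .nd))))) .nd))))))) .nd)))))))))) .nd))))))))))))))))))) (.rp 44 (.thr 34 46 (.thr 17 0 (.thr 1 61 (.thr 49 33 (.thr 50 48 (.thr 18 2 (.thr 26 14 (.dbl 16 19 31)))))))) (.rp 35 (.thr 34 46 (.thr 17 0 (.thr 1 61 (.thr 49 33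 (.thr 50 48 (.thr 18 2 (.thr 26 14 (.dbl 16 19 31)))))))) (.rp 34 (.thr 43 40 (.thr 35 44 (.thr 39 47 (.thr 55 4 (.thr 7 23 (.thr 15 27 (.dbl 3 11 19))))))) (.rp 29 (.thr 43 40 (.thr 35 44 (.thr 39 47 (.thr 55 4 (.thr 7 23 (.thr 15 27 (.dbl 3 11 19))))))) (.rp 28 (.str 19 (.nv (.dbl 35 3 44) (.rp 52 (.str 7 (.nv (.dbl 35 3 44) (.rp 49 (.str 13 (.nv (.thr 1 61 (.thr 4 55 (.dbl 5 6 9))) (.nv (.dbl 35 3 44) .nd))) (.rp 44 (.thr 3 35 (.thr 15 11 (.thr 39 27 (.dbl 55 4 23)))) (.rp 35 (.thr 1 61 (.thr 34 46 (.thr 17 0 (.thr 49 33 (.thr 18 16 (.dbl 50 2 48)))))) (.rp 13 (.str 49 (.nv (.thr 1 61 (.thr 17 33 (.dbl 34 0 46))) (.nv (.dbl 35 3 44) .nd))) (.rp 3 (.thr 55 4 (.thr 39 23 (.thr 43 40 (.dbl 35 44 47)))) .nd))))))) (.rp 49 (.str 13 (.nv (.dbl 35 3 44) (.rp 52 (.str 7 (.nv (.thr 1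 61 (.thr 4 55 (.dbl 5 6 9))) (.nv (.dbl 35 3 44) .nd))) (.rp 44 (.thr 3 35 (.thr 1 61 (.thr 34 46 (.dbl 0 2 17)))) (.rp 35 (.thr 1 61 (.thr 5 9 (.thr 34 46 (.thr 4 55 (.thr 0 17 (.thr 15 10 (.dbl 12 8 14))))))) (.rp 7 (.str 52 (.nv (.dbl 35 3 44) (.rp 44 (.thr 3 35 (.thr 1 61 (.thr 34 46 (.dbl 0 2 17)))) (.rp 35 (.thr 34 46 (.thr 40 43 (.thr 4 55 (.thr 20 36 (.dbl 0 17 60))))) (.rp 3 (.thr 61 1 (.thr 45 29 (.thr 46 34 (.dbl 44 35 47)))) .nd))))) (.rp 3 (.thr 61 1 (.thr 45 29 (.thr 46 34 (.dbl 44 35 47)))) .nd))))))) (.rp 44 (.thr 34 46 (.thr 0 17 (.thr 1 61 (.dbl 3 2 35)))) (.rp 35 (.thr 34 46 (.thr 17 0 (.thr 18 16 (.thr 1 61 (.thr 49 33 (.dbl 50 2 48)))))) (.rp 13 (.str 49 (.nv (.thr 1 61 (.thr 17 33 (.dbl 34 0 46))) (.nv (.dbl 35 3 44) (.rp 52 (.str 7 (.nv (.thr 1 61 (.thr 17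 33 (.dbl 34 0 46))) (.nv (.dbl 35 3 44) .nd))) (.rp 7 (.str 52 (.nv (.thr 1 61 (.thr 17 33 (.dbl 34 0 46))) (.nv (.dbl 35 3 44) .nd))) .nd))))) (.rp 7 (.str 52 (.nv (.dbl 35 3 44) (.rp 49 (.str 13 (.nv (.dbl 35 3 44) (.rp 44 (.thr 3 35 (.thr 1 61 (.thr 34 46 (.dbl 0 2 17)))) (.rp 35 (.thr 34 46 (.thr 40 43 (.thr 4 55 (.thr 20 36 (.dbl 0 17 60))))) (.rp 3 (.thr 61 1 (.thr 45 29 (.thr 46 34 (.dbl 44 35 47)))) .nd))))) (.rp 44 (.thr 34 46 (.thr 0 17 (.thr 1 61 (.dbl 3 2 35)))) (.rp 35 (.thr 40 43 (.thr 34 46 (.thr 0 17 (.thr 20 60 (.dbl 4 36 55))))) (.rp 13 (.str 49 (.nv (.thr 1 61 (.thr 17 33 (.dbl 34 0 46))) (.nv (.dbl 35 3 44) .nd))) (.rp 3 (.thr 44 35 (.thr 4 55 (.thr 36 20 (.dbl 40 32 43)))) .nd))))))) (.rp 3 (.thr 35 44 (.thr 34 46 (.thr 33 32 (.thr 17 0 (.dbl 1 49 61))))) .nd)))))))))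 (.rp 19 (.str 28 (.nv (.thr 34 46 (.thr 17 0 (.thr 35 44 (.thr 33 32 (.dbl 1 49 61))))) (.nv (.thr 4 55 (.thr 40 43 (.thr 44 35 (.thr 60 12 (.thr 20 0 (.dbl 36 32 52)))))) (.nv (.thr 4 55 (.thr 44 35 (.thr 12 60 (.thr 0 8 (.dbl 34 17 46))))) (.rp 52 (.str 7 (.nv (.thr 4 55 (.thr 34 46 (.thr 0 17 (.thr 12 8 (.thr 40 43 (.dbl 60 20 44)))))) (.nv (.thr 1 61 (.thr 34 46 (.thr 17 0 (.thr 35 44 (.dbl 33 32 49))))) (.nv (.thr 35 44 (.thr 43 40 (.thr 55 4 (.dbl 39 23 47)))) (.rp 49 (.str 13 (.nv (.thr 44 35 (.thr 46 34 (.thr 45 47 (.dbl 61 1 29)))) (.nv (.thr 35 44 (.thr 43 40 (.thr 39 47 (.dbl 55 4 23)))) (.nv (.thr 4 55 (.thr 5 6 (.dbl 1 9 61))) .nd)))) (.rp 44 (.thr 55 4 (.thr 39 23 (.thr 34 46 (.thr 1 61 (.thr 0 17 (.thr 3 2 (.dbl 15 11 27))))))) (.rp 13 (.str 49 (.nv (.thr 35 44 (.thr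 43 40 (.thr 55 4 (.dbl 39 23 47)))) (.nv (.thr 34 46 (.thr 17 0 (.dbl 1 33 61))) .nd))) .nd))))))) (.rp 49 (.str 13 (.nv (.thr 4 55 (.thr 44 35 (.thr 12 60 (.thr 0 8 (.dbl 34 17 46))))) (.nv (.thr 4 55 (.thr 40 43 (.thr 44 35 (.thr 60 12 (.thr 20 0 (.dbl 36 32 52)))))) (.nv (.thr 61 1 (.thr 45 29 (.thr 46 34 (.dbl 44 35 47)))) (.rp 52 (.str 7 (.nv (.thr 44 35 (.thr 46 34 (.thr 45 47 (.dbl 61 1 29)))) (.nv (.thr 35 44 (.thr 43 40 (.thr 39 47 (.dbl 55 4 23)))) (.nv (.thr 4 55 (.thr 5 6 (.dbl 1 9 61))) .nd)))) (.rp 46 (.thr 61 1 (.thr 29 45 (.thr 44 35 (.thr 31 30 (.thr 26 16 (.thr 14 50 (.dbl 12 15 60))))))) (.rp 44 (.thr 1 61 (.thr 5 9 (.thr 34 46 (.thr 0 17 (.thr 4 55 (.thr 12 8 (.dbl 15 10 14))))))) (.rp 35 (.thr 34 46 (.thr 0 17 (.thr 4 55 (.thr 12 8 (.thr 60 44 (.dbl 40 20 43))))))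 (.rp 7 (.str 52 (.nv (.thr 4 55 (.thr 20 36 (.thr 34 46 (.thr 0 17 (.dbl 40 43 60))))) (.nv (.thr 4 55 (.thr 36 20 (.thr 40 43 (.dbl 44 32 35)))) (.nv (.thr 61 1 (.thr 45 29 (.thr 46 34 (.dbl 44 35 47)))) .nd)))) .nd))))))))) (.rp 46 (.thr 44 35 (.thr 40 43 (.thr 36 32 (.thr 4 55 (.thr 12 60 (.thr 24 48 (.dbl 20 16 52))))))) (.rp 44 (.thr 34 46 (.thr 40 43 (.thr 0 17 (.thr 20 60 (.thr 16 24 (.thr 26 31 (.thr 48 32 (.dbl 50 14 49)))))))) (.rp 35 (.thr 34 46 (.thr 40 43 (.thr 0 17 (.thr 60 20 (.thr 4 55 (.dbl 12 8 44)))))) (.rp 13 (.str 49 (.nv (.thr 44 35 (.thr 61 1 (.thr 57 53 (.dbl 60 12 54)))) (.nv (.thr 34 46 (.thr 17 0 (.dbl 1 33 61))) (.rp 61 (.thr 34 46 (.thr 35 44 (.thr 33 32 (.dbl 17 0 1)))) (.rp 52 (.str 7 (.nv (.thr 35 44 (.thr 43 40 (.thr 55 4 (.dbl 39 23 47)))) (.nv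 (.thr 34 46 (.thr 17 0 (.dbl 1 33 61))) .nd))) (.rp 12 (.thr 1 61 (.thr 17 33 (.dbl 34 0 46))) (.rp 7 (.str 52 (.nv (.thr 55 4 (.thr 53 54 (.dbl 61 1 57))) (.nv (.thr 48 50 (.thr 60 56 (.dbl 44 12 35))) .nd))) (.rp 1 (.thr 48 50 (.thr 34 46 (.thr 35 44 (.thr 32 33 (.dbl 0 16 17))))) .nd)))))))) (.rp 12 (.thr 61 1 (.thr 46 34 (.str 49 (.nv (.thr 4 55 (.thr 40 43 (.thr 48 50 (.thr 57 53 (.thr 60 54 (.thr 52 56 (.dbl 20 0 36))))))) (.nv (.thr 44 35 (.thr 45 47 (.thr 29 13 (.thr 31 30 (.thr 26 16 (.dbl 50 14 48)))))) (.nv (.thr 57 53 (.thr 54 60 (.thr 50 48 (.thr 58 62 (.dbl 26 10 14))))) (.rp 52 (.str 7 (.nv (.thr 50 48 (.thr 26 14 (.thr 56 11 (.thr 58 10 (.dbl 57 53 59))))) (.nv (.thr 43 40 (.thr 35 44 (.thr 39 47 (.dbl 55 4 23)))) (.rp 36 (.thr 44 35 (.thr 45 47 (.thr 29 13 (.thr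 31 30 (.thr 26 16 (.dbl 50 14 48)))))) (.rp 15 (.thr 35 44 (.thr 55 4 (.thr 39 23 (.dbl 43 40 47)))) .nd))))) (.rp 50 (.thr 57 53 (.thr 60 54 (.thr 44 35 (.thr 45 47 (.thr 29 13 (.dbl 30 15 31)))))) (.rp 48 (.thr 44 35 (.thr 45 47 (.thr 29 13 (.thr 31 30 (.thr 26 16 (.thr 57 53 (.thr 58 10 (.dbl 56 11 59)))))))) (.rp 7 (.str 52 (.nv (.thr 48 50 (.thr 57 53 (.dbl 60 54 56))) (.nv (.thr 4 55 (.thr 36 20 (.thr 40 43 (.dbl 44 32 35)))) (.nv (.thr 53 57 (.dbl 55 4 54)) .nd)))) .nd)))))))))) (.rp 7 (.str 52 (.nv (.thr 4 55 (.thr 20 36 (.thr 34 46 (.thr 0 17 (.dbl 40 43 60))))) (.nv (.thr 1 61 (.thr 34 46 (.thr 17 0 (.thr 35 44 (.dbl 33 32 49))))) (.nv (.thr 4 55 (.thr 36 20 (.thr 44 35 (.dbl 40 32 43)))) (.rp 49 (.str 13 (.nv (.thr 4 55 (.thr 20 36 (.thr 34 46 (.thr 0 17 (.dbl 40 43 60)))))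 (.nv (.thr 4 55 (.thr 36 20 (.thr 40 43 (.dbl 44 32 35)))) (.nv (.thr 61 1 (.thr 45 29 (.thr 46 34 (.dbl 44 35 47)))) .nd)))) (.rp 13 (.str 49 (.nv (.thr 55 4 (.thr 53 54 (.dbl 61 1 57))) (.nv (.thr 48 50 (.thr 60 56 (.dbl 44 12 35))) .nd))) .nd)))))) (.rp 0 (.thr 46 34 (.thr 44 35 (.thr 45 47 (.thr 60 12 (.thr 30 15 (.thr 31 29 (.thr 26 16 (.dbl 14 50 62)))))))) .nd))))))))))))) (.rp 17 (.thr 43 40 (.thr 35 44 (.thr 39 47 (.thr 55 4 (.thr 7 23 (.thr 15 27 (.dbl 3 11 19))))))) (.rp 13 (.str 49 (.nv (.thr 1 61 (.thr 33 17 (.thr 35 44 (.thr 48 50 (.dbl 3 18 19))))) (.nv (.thr 34 46 (.thr 17 0 (.dbl 1 33 61))) (.rp 61 (.thr 35 44 (.thr 34 46 (.thr 33 32 (.dbl 17 0 1)))) (.rp 52 (.str 7 (.nv (.thr 35 44 (.thr 43 40 (.thr 55 4 (.dbl 39 23 47)))) (.nv (.thr 34 46 (.thr 17 0 (.dbl 1 33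 61))) (.rp 28 (.str 19 (.nv (.thr 1 61 (.thr 17 33 (.dbl 34 0 46))) (.nv (.dbl 35 3 44) .nd))) (.rp 19 (.str 28 (.nv (.thr 35 44 (.thr 43 40 (.thr 55 4 (.dbl 39 23 47)))) (.nv (.thr 34 46 (.thr 17 0 (.dbl 1 33 61))) .nd))) .nd))))) (.rp 33 (.thr 50 48 (.thr 34 46 (.thr 0 17 (.thr 1 61 (.dbl 2 3 18))))) (.rp 29 (.thr 48 50 (.thr 40 43 (.thr 44 35 (.thr 32 36 (.thr 0 16 (.dbl 34 17 46)))))) (.rp 28 (.str 19 (.nv (.thr 1 61 (.thr 17 33 (.dbl 34 0 46))) (.nv (.dbl 35 3 44) (.rp 52 (.str 7 (.nv (.thr 1 61 (.thr 17 33 (.dbl 34 0 46))) (.nv (.dbl 35 3 44) .nd))) (.rp 7 (.str 52 (.nv (.thr 1 61 (.thr 17 33 (.dbl 34 0 46))) (.nv (.dbl 35 3 44) .nd))) .nd))))) (.rp 19 (.str 28 (.nv (.thr 44 35 (.thr 61 1 (.thr 57 53 (.dbl 60 12 54)))) (.nv (.thr 34 46 (.thr 17 0 (.dbl 1 33 61))) (.rp 61 (.thr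 34 46 (.thr 35 44 (.thr 33 32 (.dbl 17 0 1)))) (.rp 52 (.str 7 (.nv (.thr 35 44 (.thr 43 40 (.thr 55 4 (.dbl 39 23 47)))) (.nv (.thr 34 46 (.thr 17 0 (.dbl 1 33 61))) .nd))) (.rp 12 (.thr 1 61 (.thr 17 33 (.dbl 34 0 46))) (.rp 7 (.str 52 (.nv (.thr 55 4 (.thr 53 54 (.dbl 61 1 57))) (.nv (.thr 48 50 (.thr 60 56 (.dbl 44 12 35))) .nd))) (.rp 1 (.thr 48 50 (.thr 34 46 (.thr 35 44 (.thr 32 33 (.dbl 0 16 17))))) .nd)))))))) (.rp 17 (.thr 48 50 (.thr 35 44 (.thr 34 46 (.thr 33 32 (.dbl 3 18 19))))) (.rp 7 (.str 52 (.nv (.thr 4 55 (.thr 36 20 (.thr 40 43 (.dbl 44 32 35)))) (.nv (.thr 34 46 (.thr 17 0 (.dbl 1 33 61))) (.rp 28 (.str 19 (.nv (.thr 1 61 (.thr 17 33 (.dbl 34 0 46))) (.nv (.dbl 35 3 44) .nd))) (.rp 19 (.str 28 (.nv (.thr 55 4 (.thr 53 54 (.dbl 61 1 57))) (.nv (.thr 48 50 (.thr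 60 56 (.dbl 44 12 35))) .nd))) .nd))))) (.rp 1 (.thr 48 50 (.thr 35 44 (.thr 34 46 (.thr 32 33 (.dbl 0 16 17))))) .nd)))))))))))) (.rp 12 (.thr 43 40 (.thr 35 44 (.thr 39 47 (.thr 55 4 (.thr 7 23 (.thr 15 27 (.dbl 3 11 19))))))) (.rp 7 (.str 52 (.nv (.thr 4 55 (.thr 20 36 (.thr 34 46 (.thr 0 17 (.dbl 40 43 60))))) (.nv (.thr 1 61 (.thr 34 46 (.thr 0 17 (.thr 3 2 (.dbl 35 19 44))))) (.nv (.thr 4 55 (.thr 36 20 (.thr 44 35 (.dbl 40 32 43)))) (.rp 49 (.str 13 (.nv (.thr 4 55 (.thr 20 36 (.thr 34 46 (.thr 0 17 (.dbl 40 43 60))))) (.nv (.thr 4 55 (.thr 36 20 (.thr 40 43 (.dbl 44 32 35)))) (.nv (.thr 44 35 (.thr 61 1 (.thr 45 29 (.dbl 46 34 47)))) (.rp 28 (.str 19 (.nv (.dbl 35 3 44) (.rp 44 (.thr 3 35 (.thr 1 61 (.thr 34 46 (.dbl 0 2 17)))) (.rp 35 (.thr 34 46 (.thr 40 43 (.thr 4 55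 (.thr 20 36 (.dbl 0 17 60))))) (.rp 3 (.thr 61 1 (.thr 45 29 (.thr 46 34 (.dbl 44 35 47)))) .nd))))) (.rp 19 (.str 28 (.nv (.thr 4 55 (.thr 20 36 (.thr 34 46 (.thr 0 17 (.dbl 40 43 60))))) (.nv (.thr 4 55 (.thr 36 20 (.thr 40 43 (.dbl 44 32 35)))) (.nv (.thr 61 1 (.thr 45 29 (.thr 46 34 (.dbl 44 35 47)))) .nd)))) .nd)))))) (.rp 28 (.str 19 (.nv (.dbl 35 3 44) (.rp 49 (.str 13 (.nv (.dbl 35 3 44) (.rp 44 (.thr 3 35 (.thr 1 61 (.thr 34 46 (.dbl 0 2 17)))) (.rp 35 (.thr 34 46 (.thr 40 43 (.thr 4 55 (.thr 20 36 (.dbl 0 17 60))))) (.rp 3 (.thr 61 1 (.thr 45 29 (.thr 46 34 (.dbl 44 35 47)))) .nd))))) (.rp 44 (.thr 34 46 (.thr 0 17 (.thr 1 61 (.dbl 3 2 35)))) (.rp 35 (.thr 40 43 (.thr 34 46 (.thr 0 17 (.thr 20 60 (.dbl 4 36 55))))) (.rp 13 (.str 49 (.nv (.thr 1 61 (.thr 17 33 (.dbl 34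 0 46))) (.nv (.dbl 35 3 44) .nd))) (.rp 3 (.thr 44 35 (.thr 4 55 (.thr 36 20 (.dbl 40 32 43)))) .nd))))))) (.rp 19 (.str 28 (.nv (.thr 4 55 (.thr 20 36 (.thr 34 46 (.thr 0 17 (.dbl 40 43 60))))) (.nv (.thr 1 61 (.thr 34 46 (.thr 17 0 (.thr 35 44 (.dbl 33 32 49))))) (.nv (.thr 4 55 (.thr 36 20 (.thr 44 35 (.dbl 40 32 43)))) (.rp 49 (.str 13 (.nv (.thr 4 55 (.thr 20 36 (.thr 34 46 (.thr 0 17 (.dbl 40 43 60))))) (.nv (.thr 4 55 (.thr 36 20 (.thr 40 43 (.dbl 44 32 35)))) (.nv (.thr 61 1 (.thr 45 29 (.thr 46 34 (.dbl 44 35 47)))) .nd)))) (.rp 13 (.str 49 (.nv (.thr 55 4 (.thr 53 54 (.dbl 61 1 57))) (.nv (.thr 48 50 (.thr 60 56 (.dbl 44 12 35))) .nd))) .nd)))))) (.rp 13 (.str 49 (.nv (.thr 4 55 (.thr 36 20 (.thr 40 43 (.dbl 44 32 35)))) (.nv (.thr 34 46 (.thr 17 0 (.dbl 1 33 61))) (.rp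 28 (.str 19 (.nv (.thr 1 61 (.thr 17 33 (.dbl 34 0 46))) (.nv (.dbl 35 3 44) .nd))) (.rp 19 (.str 28 (.nv (.thr 55 4 (.thr 53 54 (.dbl 61 1 57))) (.nv (.thr 48 50 (.thr 60 56 (.dbl 44 12 35))) .nd))) .nd))))) .nd)))))))) (.rp 1 (.thr 40 43 (.thr 44 35 (.thr 36 32 (.thr 34 46 (.thr 0 17 (.thr 20 60 (.dbl 4 52 55))))))) (.rp 0 (.thr 43 40 (.thr 35 44 (.thr 39 47 (.thr 55 4 (.thr 7 23 (.thr 15 27 (.dbl 3 11 19))))))) .nd)))))))))))))))))))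

theorem w454 : WinAt (2256472740200448, 9223372174331478016) :=
  chF (K := []) kn c454 2256472740200448 9223372174331478016 25
    [306708480, 563087425937408, 4503737070518400] (by decide +kernel) (by decide +kernel)

/-- A certificate. -/
noncomputable def c455 : Ct := (.str 38 (.nv (.thr 55 4 (.thr 63 0 (.thr 51 59 (.thr 46 34 (.dbl 12 25 29))))) (.rp 63 (.str 51 (.nv (.thr 34 46 (.thr 17 0 (.dbl 25 12 29))) (.rp 52 (.str 7 (.nv (.thr 34 46 (.thr 17 0 (.dbl 25 12 29))) (.rp 46 (.thr 4 55 (.thr 6 5 (.thr 12 25 (.thr 3 9 (.thr 0 8 (.thr 1 2 (.thr 41 61 (.dbl 35 19 44)))))))) (.rp 34 (.thr 4 55 (.thr 6 5 (.thr 12 25 (.thr 3 9 (.thr 0 8 (.thr 1 2 (.thr 41 61 (.dbl 35 19 44)))))))) (.rp 29 (.thr 4 55 (.thr 34 46 (.thr 12 25 (.dbl 0 8 17)))) (.rp 25 (.thr 55 4 (.thr 39 23 (.thr 15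 27 (.thr 3 11 (.thr 34 46 (.thr 0 17 (.thr 1 2 (.thr 41 61 (.dbl 35 19 44))))))))) (.rp 17 (.thr 4 55 (.thr 6 5 (.thr 12 25 (.thr 3 9 (.thr 0 8 (.thr 1 2 (.thr 41 61 (.dbl 35 19 44)))))))) (.rp 12 (.str 26 (.nv (.thr 10 58 (.thr 55 4 (.thr 39 23 (.thr 15 27 (.thr 0 5 (.dbl 34 17 46)))))) (.nv (.thr 16 31 (.thr 50 14 (.thr 48 49 (.thr 0 32 (.dbl 34 17 46))))) (.nv (.thr 14 50 (.thr 4 55 (.thr 6 5 (.dbl 10 2 58)))) (.rp 46 (.str 29 (.nv (.thr 25 17 (.thr 27 24 (.thr 15 39 (.thr 11 3 (.dbl 59 8 43))))) (.nv (.thr 4 55 (.thr 6 5 (.thr 14 50 (.dbl 10 2 58)))) (.rp 6 (.thr 25 17 (.thr 55 4 (.thr 39 23 (.dbl 27 15 24)))) .nd)))) (.rp 29 (.thr 46 34 (.thr 10 58 (.thr 14 50 (.thr 4 55 (.dbl 6 2 5))))) .nd)))))) (.rp 0 (.thr 55 4 (.thr 39 23 (.thr 15 27 (.thr 3 11 (.thr 12 25 (.thr 9 6 (.thr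 13 14 (.thr 1 5 (.thr 41 61 (.dbl 35 19 44)))))))))) .nd))))))))) (.rp 46 (.thr 25 12 (.thr 29 17 (.str 26 (.nv (.thr 50 14 (.thr 58 10 (.thr 59 8 (.thr 57 56 (.dbl 54 60 62))))) (.nv (.thr 27 24 (.thr 31 16 (.thr 39 15 (.thr 55 4 (.dbl 23 7 19))))) (.nv (.thr 8 59 (.thr 24 27 (.thr 10 58 (.thr 56 40 (.dbl 11 9 41))))) (.rp 52 (.str 7 (.nv (.thr 27 24 (.thr 15 39 (.thr 11 3 (.dbl 59 8 43)))) (.nv (.thr 4 55 (.thr 6 5 (.thr 14 50 (.dbl 10 2 58)))) (.rp 6 (.thr 55 4 (.thr 39 23 (.dbl 27 15 24))) .nd)))) (.rp 24 (.thr 31 16 (.thr 59 8 (.thr 58 10 (.thr 56 57 (.thr 11 41 (.thr 27 43 (.thr 19 23 (.thr 3 35 (.dbl 15 7 39))))))))) (.rp 8 (.thr 16 31 (.thr 27 24 (.thr 50 14 (.thr 48 49 (.thr 0 32 (.thr 10 58 (.dbl 15 5 39))))))) (.rp 7 (.str 52 (.nv (.thr 58 10 (.thr 55 4 (.thr 54 53 (.dbl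 50 14 62)))) (.nv (.thr 8 59 (.thr 10 58 (.thr 11 9 (.thr 24 27 (.dbl 56 40 41))))) (.nv (.thr 4 55 (.thr 20 36 (.thr 24 27 (.dbl 16 28 31)))) .nd)))) .nd)))))))))) (.rp 34 (.str 41 (.nv (.thr 55 4 (.thr 35 44 (.thr 43 40 (.thr 39 47 (.thr 7 23 (.thr 15 27 (.dbl 3 11 19))))))) (.nv (.thr 25 12 (.thr 8 59 (.thr 9 57 (.thr 11 10 (.thr 56 26 (.dbl 40 24 43)))))) (.nv (.thr 1 61 (.thr 4 55 (.thr 12 25 (.thr 0 8 (.thr 35 44 (.dbl 3 2 19)))))) (.rp 52 (.str 7 (.nv (.thr 35 44 (.thr 3 19 (.thr 15 11 (.thr 39 27 (.dbl 43 40 47))))) (.nv (.thr 1 61 (.thr 4 55 (.thr 5 6 (.thr 9 13 (.dbl 25 12 57))))) (.nv (.thr 43 40 (.thr 55 4 (.thr 39 23 (.dbl 35 44 47)))) .nd)))) (.rp 7 (.str 52 (.nv (.thr 25 12 (.thr 55 4 (.thr 54 53 (.dbl 57 9 60)))) (.nv (.thr 25 12 (.thr 57 9 (.thr 60 54 (.thr 56 48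 (.dbl 59 8 58))))) (.nv (.thr 4 55 (.thr 36 20 (.thr 40 43 (.dbl 44 32 35)))) .nd)))) .nd)))))) (.rp 29 (.thr 4 55 (.thr 34 46 (.thr 12 25 (.dbl 0 8 17)))) (.rp 25 .ext (.rp 17 (.str 50 (.nv (.thr 25 12 (.thr 26 14 (.thr 58 10 (.thr 54 62 (.thr 59 8 (.dbl 57 56 60)))))) (.nv (.thr 48 49 (.thr 4 55 (.thr 26 14 (.thr 16 31 (.thr 0 32 (.dbl 12 8 25)))))) (.rp 52 (.str 7 (.nv (.thr 4 55 (.thr 6 5 (.thr 12 25 (.thr 0 8 (.thr 3 9 (.thr 34 46 (.dbl 2 1 18))))))) (.nv (.thr 55 4 (.thr 39 23 (.thr 27 15 (.thr 26 14 (.dbl 25 12 24))))) (.nv (.thr 4 55 (.thr 6 5 (.thr 14 26 (.thr 2 10 (.dbl 34 18 46))))) (.rp 55 (.thr 26 14 (.thr 58 10 (.thr 54 62 (.thr 25 12 (.thr 59 8 (.dbl 57 56 60)))))) (.rp 4 (.thr 26 14 (.thr 25 12 (.thr 27 24 (.thr 15 39 (.thr 11 3 (.dbl 59 8 43)))))) .nd)))))) (.rp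 26 (.thr 48 49 (.thr 4 55 (.thr 34 46 (.thr 18 2 (.thr 33 3 (.thr 32 35 (.thr 0 16 (.dbl 12 8 25)))))))) (.rp 25 (.thr 55 4 (.thr 26 14 (.thr 58 10 (.thr 54 62 (.thr 52 53 (.thr 60 57 (.dbl 48 49 56))))))) (.rp 15 (.thr 48 49 (.thr 55 4 (.thr 26 14 (.thr 58 10 (.thr 54 62 (.thr 52 53 (.dbl 60 56 57))))))) (.rp 14 (.thr 48 49 (.thr 4 55 (.thr 34 46 (.thr 18 2 (.thr 33 3 (.thr 32 35 (.thr 0 16 (.dbl 12 8 25)))))))) (.rp 13 (.thr 55 4 (.thr 26 14 (.thr 58 10 (.thr 54 62 (.thr 52 53 (.thr 60 57 (.dbl 48 49 56))))))) (.rp 12 (.thr 48 49 (.thr 55 4 (.thr 26 14 (.thr 58 10 (.thr 54 62 (.thr 52 53 (.dbl 60 56 57))))))) (.rp 8 (.thr 48 49 (.thr 55 4 (.thr 26 14 (.thr 58 10 (.thr 54 62 (.thr 52 53 (.dbl 60 56 57))))))) (.rp 7 (.str 52 (.nv (.thr 26 14 (.thr 48 49 (.thr 58 10 (.thr 54 62 (.dbl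 60 56 57))))) (.nv (.thr 4 55 (.thr 12 25 (.thr 36 20 (.dbl 48 24 49)))) (.nv (.thr 26 14 (.thr 55 4 (.thr 54 53 (.dbl 58 10 62)))) .nd)))) (.rp 4 (.thr 48 49 (.thr 34 46 (.thr 18 2 (.thr 33 3 (.thr 32 35 (.thr 26 14 (.dbl 16 0 31))))))) (.rp 0 (.thr 48 49 (.thr 55 4 (.thr 26 14 (.thr 58 10 (.thr 54 62 (.thr 52 53 (.dbl 60 56 57))))))) .nd)))))))))))))) (.rp 12 (.str 41 (.nv (.thr 35 44 (.thr 3 19 (.thr 43 40 (.thr 39 47 (.thr 15 27 (.thr 7 11 (.dbl 55 4 23))))))) (.nv (.thr 35 44 (.thr 1 61 (.thr 3 19 (.thr 0 2 (.dbl 34 17 46))))) (.rp 60 (.thr 43 40 (.thr 44 35 (.thr 46 34 (.thr 45 47 (.thr 61 1 (.thr 29 13 (.thr 25 17 (.thr 59 8 (.thr 11 27 (.thr 56 26 (.dbl 57 9 58))))))))))) (.rp 52 (.str 7 (.nv (.thr 46 34 (.thr 35 44 (.thr 43 40 (.thr 39 47 (.dbl 55 4 23))))) (.nv (.thr 1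 61 (.thr 35 44 (.thr 3 19 (.thr 0 2 (.dbl 34 17 46))))) (.nv (.thr 43 40 (.thr 55 4 (.thr 39 23 (.dbl 35 44 47)))) (.rp 46 (.str 29 (.nv (.thr 1 61 (.thr 17 25 (.thr 0 34 (.thr 3 2 (.dbl 35 19 44))))) (.nv (.thr 1 61 (.thr 4 55 (.thr 5 6 (.thr 9 13 (.dbl 25 17 57))))) (.nv (.thr 43 40 (.thr 55 4 (.thr 39 23 (.dbl 35 44 47)))) .nd)))) (.rp 44 (.thr 55 4 (.thr 39 23 (.thr 15 27 (.thr 3 11 (.thr 43 40 (.dbl 35 19 47)))))) (.rp 35 (.thr 1 61 (.thr 55 4 (.thr 39 23 (.thr 15 27 (.thr 3 11 (.thr 0 2 (.dbl 34 17 46))))))) .nd))))))) (.rp 46 (.str 29 (.nv (.thr 40 43 (.thr 25 17 (.thr 9 57 (.thr 8 59 (.thr 11 10 (.dbl 56 24 26)))))) (.nv (.thr 1 61 (.thr 35 44 (.thr 3 19 (.thr 0 2 (.dbl 17 25 34))))) (.rp 52 (.str 7 (.nv (.thr 1 61 (.thr 17 25 (.thr 0 34 (.thr 3 2 (.dbl 35 19 44))))) (.nv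 (.thr 1 61 (.thr 4 55 (.thr 5 6 (.thr 9 13 (.dbl 25 17 57))))) (.nv (.thr 43 40 (.thr 55 4 (.thr 39 23 (.dbl 35 44 47)))) .nd)))) (.rp 25 (.thr 44 35 (.thr 61 1 (.str 48 (.nv (.thr 40 43 (.thr 32 36 (.thr 16 0 (.thr 26 31 (.dbl 50 14 49))))) (.nv (.thr 13 45 (.thr 50 49 (.thr 26 14 (.thr 56 11 (.thr 58 10 (.thr 57 59 (.dbl 54 60 62))))))) (.nv (.thr 49 50 (.thr 57 53 (.thr 40 43 (.thr 32 36 (.thr 0 16 (.dbl 60 20 54)))))) (.rp 52 (.str 7 (.nv (.thr 40 43 (.thr 32 36 (.thr 16 0 (.thr 26 31 (.dbl 50 14 49))))) (.nv (.thr 13 45 (.thr 50 49 (.thr 26 14 (.thr 56 11 (.thr 58 10 (.thr 57 59 (.dbl 54 60 62))))))) (.nv (.thr 49 50 (.thr 57 53 (.thr 40 43 (.thr 32 36 (.thr 0 16 (.dbl 60 20 54)))))) (.rp 50 (.thr 40 43 (.thr 32 36 (.thr 0 16 (.thr 60 20 (.thr 4 55 (.thr 5 6 (.thr 15 10 (.dbl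 45 13 30)))))))) (.rp 49 (.thr 13 45 (.thr 40 43 (.thr 32 36 (.thr 16 0 (.thr 26 31 (.thr 10 58 (.thr 14 50 (.thr 4 55 (.dbl 6 2 5))))))))) (.rp 43 (.thr 49 50 (.thr 57 53 (.thr 60 54 (.thr 55 4 (.thr 45 13 (.thr 15 30 (.dbl 39 23 27))))))) (.rp 28 (.str 19 (.nv (.thr 13 45 (.thr 43 40 (.thr 50 49 (.thr 26 14 (.thr 11 56 (.thr 27 59 (.dbl 15 3 39))))))) (.nv (.thr 49 50 (.thr 40 43 (.thr 32 36 (.thr 0 16 (.thr 57 53 (.dbl 60 20 54)))))) (.nv (.thr 50 49 (.thr 13 45 (.thr 26 14 (.thr 16 31 (.thr 17 18 (.dbl 0 32 34)))))) (.rp 50 (.thr 40 43 (.thr 32 36 (.thr 16 0 (.thr 18 17 (.thr 26 31 (.thr 11 56 (.dbl 3 15 33))))))) (.rp 49 (.thr 13 45 (.thr 40 43 (.thr 32 36 (.thr 16 0 (.thr 26 31 (.thr 10 58 (.thr 14 50 (.thr 4 55 (.dbl 6 2 5))))))))) .nd)))))) (.rp 19 (.str 28 (.nv (.thr 30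 31 (.thr 45 13 (.thr 49 50 (.thr 57 53 (.dbl 60 15 54))))) (.nv (.thr 13 45 (.thr 40 43 (.thr 32 36 (.thr 16 0 (.dbl 31 26 30))))) (.nv (.thr 31 30 (.thr 26 16 (.dbl 50 14 49))) (.rp 31 (.thr 49 50 (.thr 57 53 (.thr 40 43 (.thr 32 36 (.thr 0 16 (.dbl 60 20 54)))))) (.rp 30 (.thr 40 43 (.thr 32 36 (.thr 16 0 (.thr 26 31 (.dbl 50 14 49))))) (.rp 13 (.thr 49 50 (.thr 31 30 (.thr 40 43 (.thr 32 36 (.dbl 16 0 26))))) .nd))))))) .nd))))))))) (.rp 50 (.thr 40 43 (.thr 32 36 (.thr 55 4 (.thr 0 16 (.thr 60 20 (.thr 52 56 (.dbl 54 53 57))))))) (.rp 49 (.thr 13 45 (.thr 40 43 (.thr 32 36 (.thr 55 4 (.thr 0 16 (.thr 60 20 (.thr 52 56 (.dbl 54 53 57)))))))) (.rp 43 (.thr 50 49 (.thr 13 45 (.thr 55 4 (.thr 26 14 (.thr 58 10 (.thr 56 11 (.thr 52 60 (.dbl 54 53 62)))))))) (.rp 28 (.str 19 (.nv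 (.thr 49 50 (.thr 40 43 (.thr 32 36 (.thr 0 16 (.thr 57 53 (.dbl 60 20 54)))))) (.nv (.thr 50 49 (.thr 13 45 (.thr 26 14 (.thr 16 31 (.thr 17 18 (.dbl 0 32 34)))))) (.nv (.thr 4 55 (.thr 49 50 (.thr 57 53 (.thr 60 54 (.thr 52 56 (.thr 20 36 (.dbl 40 0 43))))))) (.rp 52 (.str 7 (.nv (.thr 13 45 (.thr 43 40 (.thr 50 49 (.thr 26 14 (.thr 11 56 (.thr 27 59 (.dbl 15 3 39))))))) (.nv (.thr 49 50 (.thr 40 43 (.thr 32 36 (.thr 0 16 (.thr 57 53 (.dbl 60 20 54)))))) (.nv (.thr 50 49 (.thr 13 45 (.thr 26 14 (.thr 16 31 (.thr 17 18 (.dbl 0 32 34)))))) (.rp 50 (.thr 40 43 (.thr 32 36 (.thr 16 0 (.thr 18 17 (.thr 26 31 (.thr 11 56 (.dbl 3 15 33))))))) (.rp 49 (.thr 13 45 (.thr 40 43 (.thr 32 36 (.thr 16 0 (.thr 26 31 (.thr 10 58 (.thr 14 50 (.thr 4 55 (.dbl 6 2 5))))))))) .nd)))))) (.rp 50 (.thr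 40 43 (.thr 32 36 (.thr 16 0 (.thr 26 31 (.thr 58 10 (.thr 56 11 (.thr 52 60 (.thr 8 24 (.thr 55 4 (.thr 53 54 (.dbl 57 49 59))))))))))) (.rp 49 (.thr 13 45 (.thr 40 43 (.thr 32 36 (.thr 16 0 (.thr 26 31 (.thr 58 10 (.thr 50 14 (.thr 56 11 (.thr 52 60 (.thr 8 24 (.thr 55 4 (.dbl 54 53 62)))))))))))) (.rp 7 (.str 52 (.nv (.thr 13 45 (.thr 40 43 (.thr 32 36 (.thr 0 16 (.dbl 60 20 56))))) (.nv (.thr 49 50 (.thr 53 57 (.dbl 55 4 54))) .nd))) (.rp 0 (.thr 50 49 (.thr 13 45 (.thr 43 40 (.thr 26 14 (.thr 31 16 (.thr 27 23 (.dbl 11 56 59))))))) .nd))))))))) (.rp 19 (.str 28 (.nv (.thr 30 31 (.thr 45 13 (.thr 49 50 (.thr 57 53 (.dbl 60 15 54))))) (.nv (.thr 13 45 (.thr 40 43 (.thr 32 36 (.thr 16 0 (.dbl 31 26 30))))) (.nv (.thr 31 30 (.thr 26 16 (.dbl 50 14 49))) (.rp 52 (.str 7 (.nv (.thr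 30 31 (.thr 45 13 (.thr 49 50 (.thr 57 53 (.dbl 60 15 54))))) (.nv (.thr 13 45 (.thr 40 43 (.thr 32 36 (.thr 16 0 (.dbl 31 26 30))))) (.nv (.thr 31 30 (.thr 26 16 (.dbl 50 14 49))) (.rp 31 (.thr 49 50 (.thr 57 53 (.thr 40 43 (.thr 32 36 (.thr 0 16 (.dbl 60 20 54)))))) (.rp 30 (.thr 40 43 (.thr 32 36 (.thr 16 0 (.thr 26 31 (.dbl 50 14 49))))) (.rp 13 (.thr 49 50 (.thr 31 30 (.thr 40 43 (.thr 32 36 (.dbl 16 0 26))))) .nd))))))) (.rp 31 (.thr 49 50 (.thr 57 53 (.thr 60 54 (.thr 40 43 (.thr 32 36 (.dbl 0 16 20)))))) (.rp 30 (.thr 40 43 (.thr 32 36 (.thr 16 0 (.thr 26 31 (.dbl 50 14 49))))) (.rp 13 (.thr 49 50 (.thr 40 43 (.thr 32 36 (.thr 31 30 (.dbl 16 0 26))))) (.rp 7 (.str 52 (.nv (.thr 13 45 (.thr 31 30 (.thr 26 16 (.dbl 56 11 60)))) (.nv (.thr 49 50 (.thr 53 57 (.dbl 55 4 54)))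 .nd))) .nd))))))))) (.rp 7 (.str 52 (.nv (.thr 13 45 (.thr 40 43 (.thr 32 36 (.thr 0 16 (.dbl 60 20 56))))) (.nv (.thr 49 50 (.thr 53 57 (.dbl 55 4 54))) (.rp 28 (.str 19 (.nv (.thr 13 45 (.thr 40 43 (.thr 32 36 (.thr 0 16 (.dbl 60 20 56))))) (.nv (.thr 49 50 (.thr 53 57 (.dbl 55 4 54))) .nd))) (.rp 19 (.str 28 (.nv (.thr 13 45 (.thr 31 30 (.thr 26 16 (.dbl 56 11 60)))) (.nv (.thr 49 50 (.thr 53 57 (.dbl 55 4 54))) .nd))) .nd))))) .nd))))))))))))) (.rp 17 (.thr 43 40 (.thr 35 44 (.thr 55 4 (.thr 61 1 (.thr 39 47 (.thr 45 13 (.thr 15 27 (.thr 7 23 (.dbl 3 11 19))))))))) (.rp 7 (.str 52 (.nv (.thr 25 17 (.thr 57 9 (.thr 60 54 (.thr 56 48 (.dbl 59 8 58))))) (.nv (.thr 4 55 (.thr 36 20 (.thr 44 35 (.dbl 40 32 43)))) (.rp 36 (.thr 25 17 (.thr 55 4 (.thr 54 53 (.dbl 57 9 60)))) .nd))))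 (.rp 3 (.thr 35 44 (.thr 17 25 (.thr 34 0 (.thr 33 32 (.dbl 1 49 61))))) .nd)))))))) (.rp 44 (.thr 61 1 (.thr 46 34 (.str 60 (.nv (.thr 40 43 (.thr 57 54 (.thr 25 9 (.thr 8 59 (.thr 49 53 (.thr 48 50 (.dbl 56 24 52))))))) (.nv (.thr 4 55 (.thr 40 43 (.thr 20 0 (.thr 52 36 (.thr 56 48 (.thr 24 8 (.thr 16 28 (.dbl 26 11 31)))))))) (.nv (.thr 54 57 (.thr 55 4 (.thr 52 53 (.thr 48 56 (.thr 50 49 (.thr 14 26 (.dbl 62 30 58))))))) (.nv (.thr 43 40 (.thr 57 54 (.thr 25 9 (.thr 59 8 (.thr 11 27 (.dbl 56 26 58)))))) (.nv (.thr 4 55 (.thr 40 43 (.thr 20 0 (.thr 52 36 (.thr 48 56 (.thr 57 54 (.dbl 49 50 53))))))) (.rp 56 (.thr 57 54 (.thr 49 53 (.thr 48 50 (.thr 40 43 (.thr 0 20 (.thr 16 32 (.thr 26 31 (.thr 25 9 (.thr 27 24 (.thr 15 39 (.dbl 10 5 58))))))))))) (.rp 52 (.str 7 (.nv (.thr 40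 43 (.thr 57 54 (.thr 25 9 (.thr 8 59 (.thr 20 0 (.thr 24 56 (.thr 16 28 (.dbl 26 27 31)))))))) (.nv (.thr 55 4 (.thr 39 23 (.thr 15 27 (.thr 45 30 (.thr 29 13 (.thr 25 17 (.dbl 57 9 54))))))) (.nv (.thr 4 55 (.thr 57 54 (.thr 53 49 (.thr 25 9 (.thr 59 8 (.thr 56 58 (.thr 11 26 (.dbl 43 27 40)))))))) (.nv (.thr 43 40 (.thr 55 4 (.thr 39 23 (.thr 35 47 (.thr 15 27 (.dbl 3 11 19)))))) (.rp 55 (.thr 43 40 (.thr 57 54 (.thr 53 49 (.thr 25 9 (.thr 59 8 (.thr 56 58 (.dbl 11 26 27))))))) (.rp 43 (.str 3 (.nv (.thr 11 15 (.thr 26 56 (.thr 54 57 (.thr 58 10 (.dbl 50 14 62))))) (.nv (.thr 55 4 (.thr 39 23 (.dbl 15 11 27))) (.rp 15 (.thr 57 54 (.thr 49 53 (.thr 55 4 (.thr 48 50 (.thr 19 35 (.thr 25 9 (.thr 17 29 (.dbl 18 16 33)))))))) (.rp 11 (.thr 57 54 (.thr 49 53 (.thr 55 4 (.thr 48 50 (.thr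 19 35 (.thr 25 9 (.thr 17 29 (.dbl 18 16 33)))))))) (.rp 0 (.thr 57 54 (.thr 15 11 (.thr 45 30 (.thr 29 13 (.dbl 25 9 17))))) .nd)))))) (.rp 27 (.thr 40 43 (.thr 4 55 (.thr 5 6 (.thr 0 20 (.thr 15 10 (.thr 45 30 (.thr 29 13 (.thr 25 17 (.dbl 57 9 54))))))))) (.rp 8 (.thr 40 43 (.thr 4 55 (.thr 5 6 (.thr 0 20 (.thr 15 10 (.thr 45 30 (.thr 29 13 (.thr 25 17 (.dbl 57 9 54))))))))) (.rp 3 (.thr 43 40 (.thr 57 54 (.thr 55 4 (.thr 39 23 (.thr 27 15 (.thr 59 11 (.dbl 25 8 9))))))) .nd)))))))))) (.rp 7 (.str 52 (.nv (.thr 48 56 (.thr 49 50 (.dbl 57 53 54))) (.nv (.thr 4 55 (.thr 20 36 (.dbl 40 0 43))) (.nv (.thr 54 57 (.dbl 55 4 53)) .nd)))) .nd))))))))))) (.rp 35 (.thr 61 1 (.thr 43 40 (.str 25 (.nv (.thr 29 17 (.thr 4 55 (.thr 57 9 (.thr 59 8 (.thr 11 27 (.dbl 56 26 58)))))) (.nv (.thr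 46 34 (.thr 57 9 (.thr 53 49 (.thr 54 60 (.dbl 55 4 52))))) (.nv (.thr 59 8 (.thr 11 27 (.thr 56 26 (.dbl 57 9 58)))) (.nv (.thr 57 9 (.thr 53 49 (.thr 55 4 (.dbl 54 52 60)))) (.rp 57 (.thr 29 17 (.thr 45 13 (.thr 46 34 (.thr 59 8 (.thr 27 11 (.thr 15 39 (.thr 30 60 (.thr 14 62 (.dbl 26 24 50))))))))) (.rp 52 (.str 7 (.nv (.thr 8 59 (.thr 9 57 (.thr 11 10 (.thr 55 4 (.thr 39 23 (.dbl 15 3 27)))))) (.nv (.thr 29 17 (.thr 55 4 (.thr 39 23 (.thr 27 15 (.dbl 59 8 11))))) (.nv (.thr 57 9 (.thr 59 8 (.thr 11 27 (.dbl 56 26 58)))) (.rp 59 (.thr 29 17 (.thr 45 13 (.thr 55 4 (.thr 39 23 (.thr 15 27 (.thr 60 30 (.dbl 57 9 54))))))) (.rp 29 (.thr 46 34 (.thr 57 9 (.thr 59 8 (.thr 11 27 (.dbl 56 26 58))))) (.rp 27 (.thr 9 57 (.thr 4 55 (.thr 5 6 (.thr 8 59 (.thr 10 11 (.thr 0 15 (.dbl 17 29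 34))))))) (.rp 11 (.thr 29 17 (.thr 45 13 (.thr 55 4 (.thr 39 23 (.thr 15 27 (.thr 60 30 (.dbl 57 9 54))))))) (.rp 8 (.thr 4 55 (.str 26 (.nv (.thr 46 34 (.thr 50 14 (.thr 57 9 (.dbl 49 48 53)))) (.nv (.thr 24 27 (.thr 10 58 (.thr 14 50 (.dbl 6 2 5)))) (.nv (.thr 5 6 (.thr 10 58 (.thr 15 0 (.dbl 11 3 56)))) (.nv (.thr 29 17 (.thr 50 14 (.thr 49 48 (.dbl 57 9 53)))) (.nv (.thr 14 50 (.thr 6 5 (.dbl 10 2 58))) (.rp 54 (.str 53 (.nv (.thr 24 27 (.thr 49 57 (.dbl 50 14 48))) (.nv (.thr 6 5 (.thr 10 58 (.dbl 14 2 50))) (.nv (.dbl 57 9 49) (.rp 46 (.thr 29 17 (.dbl 57 9 49)) (.rp 29 (.thr 46 34 (.dbl 57 9 49)) (.rp 24 (.thr 56 11 (.dbl 57 9 49)) .nd))))))) (.rp 53 (.str 54 (.nv (.thr 24 27 (.thr 50 14 (.dbl 58 10 62))) (.nv (.dbl 57 9 60) (.rp 58 (.str 48 (.nv (.thr 24 27 (.dbl 57 9 60))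 (.nv (.dbl 50 14 49) (.rp 46 (.thr 29 17 (.dbl 50 14 49)) (.rp 29 (.thr 46 34 (.dbl 50 14 49)) (.rp 24 (.thr 56 11 (.dbl 50 14 49)) .nd)))))) (.rp 48 (.thr 58 10 (.dbl 57 9 60)) (.rp 46 (.thr 29 17 (.dbl 57 9 60)) (.rp 29 (.thr 46 34 (.dbl 57 9 60)) (.rp 24 (.thr 56 11 (.dbl 57 9 60)) .nd)))))))) (.rp 24 (.thr 56 11 (.thr 6 5 (.thr 10 58 (.dbl 14 2 50)))) .nd)))))))))) (.rp 4 (.thr 9 57 (.thr 8 59 (.thr 11 10 (.thr 15 3 (.thr 27 39 (.dbl 26 24 56)))))) .nd)))))))))) (.rp 9 (.thr 59 8 (.thr 11 27 (.thr 56 26 (.thr 57 58 (.thr 53 49 (.thr 54 60 (.dbl 55 4 52))))))) (.rp 7 (.str 52 (.nv (.thr 29 17 (.thr 57 9 (.thr 49 53 (.thr 48 50 (.dbl 60 54 56))))) (.nv (.thr 46 34 (.thr 59 8 (.thr 11 27 (.thr 56 26 (.dbl 57 9 58))))) (.nv (.thr 55 4 (.thr 53 54 (.dbl 57 9 49))) (.rp 57 (.thr 46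 34 (.thr 29 17 (.thr 59 8 (.thr 45 13 (.thr 27 11 (.thr 15 39 (.thr 30 60 (.thr 14 62 (.dbl 26 24 50))))))))) (.rp 9 (.thr 59 8 (.thr 11 27 (.thr 56 26 (.thr 57 58 (.dbl 60 48 54))))) .nd)))))) (.rp 4 (.thr 57 9 (.thr 49 53 (.thr 54 60 (.thr 50 48 (.thr 58 62 (.dbl 26 10 14)))))) .nd)))))))))))) (.rp 29 (.thr 46 34 (.thr 43 40 (.thr 35 44 (.thr 39 47 (.thr 3 19 (.thr 55 4 (.thr 7 23 (.dbl 15 11 27)))))))) (.rp 28 (.thr 43 40 (.thr 44 35 (.thr 46 34 (.thr 45 47 (.thr 61 1 (.thr 29 13 (.thr 25 17 (.thr 59 8 (.thr 11 27 (.thr 56 26 (.dbl 57 9 58))))))))))) (.rp 25 (.thr 43 40 (.thr 35 44 (.thr 39 47 (.thr 55 4 (.thr 7 23 (.thr 15 27 (.dbl 3 11 19))))))) (.rp 19 (.thr 43 40 (.thr 44 35 (.thr 46 34 (.thr 45 47 (.thr 61 1 (.thr 29 13 (.thr 25 17 (.thr 59 8 (.thr 11 27 (.thr 56 26 (.dbl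 57 9 58))))))))))) (.rp 7 (.str 52 (.nv (.thr 1 61 (.thr 35 44 (.thr 3 19 (.thr 0 2 (.dbl 34 17 46))))) (.nv (.thr 4 55 (.thr 36 20 (.thr 44 35 (.dbl 40 32 43)))) (.rp 46 (.str 29 (.nv (.thr 25 17 (.thr 57 9 (.thr 60 54 (.thr 56 48 (.dbl 59 8 58))))) (.nv (.thr 4 55 (.thr 36 20 (.thr 44 35 (.dbl 40 32 43)))) (.rp 36 (.thr 25 17 (.thr 55 4 (.thr 54 53 (.dbl 57 9 60)))) .nd)))) (.rp 44 (.thr 40 43 (.thr 55 4 (.thr 54 53 (.thr 60 57 (.thr 0 20 (.dbl 34 17 46)))))) (.rp 35 (.thr 40 43 (.thr 4 55 (.thr 20 36 (.thr 0 60 (.dbl 34 17 46))))) (.rp 29 (.thr 46 34 (.thr 40 43 (.thr 44 35 (.thr 4 55 (.dbl 36 20 32))))) .nd))))))) (.rp 3 (.thr 43 40 (.thr 44 35 (.thr 46 34 (.thr 45 47 (.thr 61 1 (.thr 29 13 (.thr 25 17 (.thr 59 8 (.thr 11 27 (.thr 56 26 (.dbl 57 9 58))))))))))) .nd))))))))))))))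 (.rp 7 (.str 52 (.nv (.thr 34 46 (.thr 17 0 (.dbl 25 12 29))) (.rp 46 (.thr 4 55 (.thr 36 20 (.thr 12 25 (.thr 48 24 (.thr 0 8 (.thr 16 32 (.thr 26 31 (.dbl 50 14 49)))))))) (.rp 34 (.thr 4 55 (.thr 36 20 (.thr 12 25 (.thr 48 24 (.thr 0 8 (.thr 16 32 (.thr 26 31 (.dbl 50 14 49)))))))) (.rp 29 (.thr 4 55 (.thr 34 46 (.thr 12 25 (.dbl 0 8 17)))) (.rp 25 (.thr 55 4 (.thr 54 53 (.thr 60 57 (.thr 48 56 (.thr 34 46 (.thr 0 17 (.thr 16 32 (.thr 26 31 (.dbl 50 14 49))))))))) (.rp 17 (.thr 4 55 (.thr 36 20 (.thr 12 25 (.thr 48 24 (.thr 0 8 (.thr 16 32 (.thr 26 31 (.dbl 50 14 49)))))))) (.rp 12 (.str 41 (.nv (.thr 1 61 (.thr 35 44 (.thr 3 19 (.thr 0 2 (.dbl 34 17 46))))) (.nv (.thr 4 55 (.thr 36 20 (.thr 44 35 (.dbl 40 32 43)))) (.rp 46 (.str 29 (.nv (.thr 25 17 (.thr 57 9 (.thr 60 54 (.thr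 56 48 (.dbl 59 8 58))))) (.nv (.thr 4 55 (.thr 36 20 (.thr 44 35 (.dbl 40 32 43)))) (.rp 36 (.thr 25 17 (.thr 55 4 (.thr 54 53 (.dbl 57 9 60)))) .nd)))) (.rp 44 (.thr 40 43 (.thr 55 4 (.thr 54 53 (.thr 60 57 (.thr 0 20 (.dbl 34 17 46)))))) (.rp 35 (.thr 40 43 (.thr 4 55 (.thr 20 36 (.thr 0 60 (.dbl 34 17 46))))) (.rp 29 (.thr 46 34 (.thr 40 43 (.thr 44 35 (.thr 4 55 (.dbl 36 20 32))))) .nd))))))) (.rp 0 (.thr 55 4 (.thr 54 53 (.thr 60 57 (.thr 48 56 (.thr 12 25 (.thr 24 36 (.thr 28 44 (.thr 16 20 (.thr 26 31 (.dbl 50 14 49)))))))))) .nd))))))))) (.rp 0 (.str 50 (.nv (.thr 4 55 (.thr 25 12 (.thr 26 14 (.thr 58 10 (.thr 54 62 (.thr 59 8 (.dbl 57 56 60))))))) (.nv (.thr 48 49 (.thr 34 46 (.thr 18 2 (.thr 3 33 (.thr 19 35 (.thr 17 16 (.dbl 25 12 29))))))) (.rp 52 (.str 7 (.nv (.thr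 26 14 (.thr 16 31 (.thr 34 46 (.thr 18 2 (.thr 17 19 (.dbl 25 12 29)))))) (.nv (.thr 4 55 (.thr 6 5 (.thr 12 25 (.thr 3 9 (.thr 34 46 (.thr 18 2 (.dbl 48 33 49))))))) (.nv (.thr 12 25 (.thr 55 4 (.thr 39 23 (.thr 15 27 (.dbl 14 13 26))))) (.nv (.thr 34 46 (.thr 2 18 (.thr 4 55 (.thr 6 5 (.dbl 14 10 26))))) (.rp 15 (.thr 55 4 (.thr 23 39 (.thr 26 14 (.thr 31 16 (.thr 27 19 (.dbl 25 12 24)))))) (.rp 12 (.str 25 (.nv (.thr 8 59 (.thr 26 14 (.thr 10 58 (.thr 11 9 (.thr 24 27 (.dbl 56 40 41)))))) (.nv (.thr 4 55 (.thr 6 5 (.thr 29 17 (.thr 34 46 (.thr 2 18 (.dbl 14 10 26)))))) (.nv (.thr 55 4 (.thr 8 59 (.thr 26 14 (.thr 27 24 (.dbl 39 15 23))))) (.rp 46 (.thr 29 17 (.thr 26 14 (.thr 55 4 (.thr 8 59 (.thr 39 23 (.dbl 27 15 24)))))) (.rp 29 (.thr 46 34 (.thr 26 14 (.thr 55 4 (.thr 8 59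 (.thr 39 23 (.dbl 27 15 24)))))) (.rp 26 (.thr 34 46 (.thr 29 17 (.thr 18 2 (.thr 55 4 (.thr 8 59 (.thr 39 23 (.thr 15 27 (.thr 48 49 (.dbl 3 11 33))))))))) (.rp 15 (.thr 34 46 (.thr 29 17 (.thr 14 26 (.thr 48 49 (.thr 4 55 (.thr 6 5 (.thr 10 2 (.thr 8 59 (.thr 9 11 (.thr 41 57 (.thr 35 44 (.thr 3 19 (.dbl 33 18 32))))))))))))) (.rp 14 (.thr 46 34 (.thr 17 29 (.thr 4 55 (.thr 5 6 (.thr 49 48 (.thr 1 33 (.thr 41 61 (.dbl 9 13 57)))))))) .nd))))))))) .nd))))))) (.rp 46 (.thr 4 55 (.thr 26 14 (.thr 58 10 (.thr 25 12 (.thr 29 17 (.thr 59 8 (.thr 57 56 (.dbl 54 60 62)))))))) (.rp 29 (.thr 48 49 (.thr 55 4 (.thr 26 14 (.thr 58 10 (.thr 54 62 (.thr 52 53 (.dbl 60 56 57))))))) (.rp 25 (.thr 55 4 (.thr 26 14 (.thr 58 10 (.thr 54 62 (.thr 52 53 (.thr 60 57 (.dbl 48 49 56))))))) (.rp 13 (.thr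 34 46 (.thr 18 2 (.thr 26 14 (.thr 16 31 (.thr 17 19 (.dbl 25 12 29)))))) (.rp 12 (.thr 48 49 (.thr 26 14 (.thr 58 10 (.thr 54 62 (.thr 60 57 (.thr 52 56 (.dbl 55 4 53))))))) (.rp 7 (.str 52 (.nv (.thr 26 14 (.thr 48 49 (.thr 58 10 (.thr 54 62 (.dbl 60 56 57))))) (.nv (.thr 48 49 (.thr 4 55 (.thr 36 20 (.dbl 12 24 25)))) (.nv (.thr 26 14 (.thr 55 4 (.thr 54 53 (.dbl 58 10 62)))) .nd)))) (.rp 2 (.thr 26 14 (.thr 10 58 (.thr 25 12 (.thr 24 27 (.thr 8 59 (.thr 56 40 (.dbl 11 9 41))))))) .nd))))))))))) .nd))))))))))) (.rp 59 (.thr 4 55 (.thr 34 46 (.thr 0 63 (.thr 51 17 (.dbl 12 8 25))))) (.rp 55 (.str 44 (.nv (.thr 46 34 (.thr 45 47 (.thr 63 0 (.thr 12 29 (.thr 60 28 (.thr 62 61 (.dbl 30 14 15))))))) (.nv (.thr 41 35 (.thr 46 34 (.thr 45 47 (.thr 63 0 (.thr 29 12 (.dbl 61 1 13))))))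 (.nv (.thr 0 63 (.thr 41 35 (.thr 40 43 (.thr 60 20 (.thr 12 28 (.thr 8 4 (.dbl 25 51 59))))))) (.nv (.thr 41 35 (.thr 61 1 (.thr 63 0 (.thr 60 62 (.thr 12 28 (.dbl 46 29 34)))))) (.rp 63 (.thr 46 34 (.thr 45 47 (.thr 41 35 (.thr 43 40 (.thr 61 1 (.thr 29 13 (.thr 25 17 (.thr 59 8 (.thr 11 27 (.thr 56 26 (.dbl 57 9 58))))))))))) (.rp 52 (.str 7 (.nv (.thr 0 63 (.thr 41 35 (.thr 1 61 (.thr 3 2 (.thr 15 11 (.thr 5 10 (.thr 6 4 (.dbl 9 12 13)))))))) (.nv (.thr 46 34 (.thr 45 47 (.thr 63 0 (.thr 12 29 (.thr 60 28 (.thr 62 61 (.dbl 30 14 15))))))) (.nv (.thr 41 35 (.thr 46 34 (.thr 47 45 (.thr 63 0 (.thr 15 31 (.thr 3 11 (.dbl 43 23 40))))))) (.nv (.thr 41 35 (.thr 61 1 (.thr 63 0 (.thr 60 62 (.thr 12 28 (.dbl 46 29 34)))))) (.rp 63 (.thr 46 34 (.thr 45 47 (.thr 41 35 (.thr 43 40 (.thr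 61 1 (.thr 29 13 (.thr 25 17 (.thr 59 8 (.thr 11 27 (.thr 56 26 (.dbl 57 9 58))))))))))) (.rp 54 (.str 53 (.nv (.thr 46 34 (.thr 45 47 (.thr 63 0 (.thr 12 29 (.thr 60 28 (.thr 62 61 (.dbl 30 14 15))))))) (.nv (.thr 41 35 (.thr 46 34 (.thr 45 47 (.thr 61 1 (.thr 29 13 (.thr 57 49 (.dbl 25 9 17))))))) (.nv (.thr 41 35 (.thr 43 40 (.thr 63 0 (.thr 3 23 (.thr 11 15 (.thr 26 56 (.dbl 58 10 48))))))) (.nv (.thr 41 35 (.thr 46 34 (.thr 61 1 (.thr 63 0 (.thr 12 29 (.dbl 60 28 62)))))) .nd))))) (.rp 53 (.str 54 (.nv (.thr 0 63 (.thr 41 35 (.thr 40 43 (.thr 60 20 (.thr 51 57 (.dbl 34 17 46)))))) (.nv (.thr 0 63 (.thr 41 35 (.thr 40 43 (.thr 60 20 (.thr 12 28 (.dbl 51 25 57)))))) (.nv (.thr 41 35 (.thr 46 34 (.thr 45 47 (.thr 61 1 (.thr 29 13 (.dbl 63 0 12)))))) (.nv (.thr 63 0 (.thr 46 34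 (.thr 12 29 (.thr 60 28 (.dbl 51 25 57))))) (.rp 63 (.thr 46 34 (.thr 45 47 (.thr 41 35 (.thr 61 1 (.thr 29 13 (.thr 25 17 (.thr 51 12 (.dbl 57 9 60)))))))) (.rp 0 (.thr 46 34 (.thr 45 47 (.thr 41 35 (.thr 61 1 (.thr 29 13 (.thr 12 63 (.dbl 25 17 51))))))) .nd))))))) (.rp 0 (.thr 46 34 (.thr 45 47 (.thr 41 35 (.thr 61 1 (.thr 29 13 (.thr 12 63 (.dbl 25 17 51))))))) .nd))))))))) (.rp 12 (.thr 63 0 (.thr 46 34 (.thr 47 45 (.thr 31 15 (.thr 26 16 (.thr 14 50 (.thr 41 35 (.thr 61 1 (.dbl 62 30 60))))))))) (.rp 7 (.str 52 (.nv (.thr 0 63 (.thr 34 46 (.thr 51 17 (.thr 12 25 (.thr 4 8 (.thr 20 36 (.dbl 60 28 40))))))) (.nv (.thr 41 35 (.thr 61 1 (.thr 63 0 (.thr 60 62 (.thr 12 28 (.dbl 46 29 34)))))) (.nv (.thr 41 35 (.thr 40 43 (.thr 36 32 (.thr 20 4 (.dbl 0 60 63))))) (.rp 63 (.thr 41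 35 (.thr 40 43 (.thr 36 32 (.thr 20 4 (.thr 60 0 (.thr 12 28 (.dbl 48 24 56))))))) (.rp 60 (.thr 63 0 (.thr 46 34 (.thr 45 47 (.thr 29 12 (.thr 61 13 (.dbl 41 1 35)))))) (.rp 39 (.str 23 (.nv (.thr 63 0 (.thr 41 35 (.dbl 43 3 40))) (.rp 63 (.thr 46 34 (.thr 45 47 (.thr 41 35 (.thr 43 40 (.thr 61 1 (.thr 29 13 (.thr 25 17 (.thr 59 8 (.thr 11 27 (.thr 56 26 (.dbl 57 9 58))))))))))) (.rp 43 (.thr 63 0 (.thr 46 34 (.thr 12 29 (.thr 60 28 (.thr 61 62 (.dbl 41 1 35)))))) (.rp 41 (.thr 63 0 (.thr 46 34 (.thr 45 47 (.thr 12 29 (.thr 60 28 (.thr 30 15 (.dbl 62 14 61))))))) (.rp 40 (.thr 63 0 (.thr 3 43 (.thr 46 34 (.thr 12 29 (.thr 35 41 (.dbl 51 19 25)))))) (.rp 35 (.thr 63 0 (.thr 43 3 (.thr 41 40 (.thr 46 34 (.thr 45 47 (.thr 29 12 (.dbl 61 1 13))))))) (.rp 3 (.thr 63 0 (.thr 46 34 (.thr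 45 47 (.thr 29 12 (.thr 61 13 (.dbl 41 1 35)))))) (.rp 0 (.thr 46 34 (.thr 45 47 (.thr 41 35 (.thr 43 40 (.thr 61 1 (.thr 29 13 (.dbl 63 3 12))))))) .nd))))))))) (.rp 34 (.thr 0 63 (.thr 41 35 (.thr 40 43 (.thr 20 60 (.dbl 36 4 32))))) (.rp 23 (.str 39 (.nv (.thr 41 35 (.thr 40 43 (.thr 36 32 (.thr 20 4 (.dbl 0 60 63))))) (.nv (.thr 46 34 (.thr 47 45 (.dbl 35 41 43))) (.rp 43 (.thr 63 0 (.thr 46 34 (.thr 45 47 (.thr 29 12 (.thr 61 13 (.dbl 41 1 35)))))) (.rp 41 (.thr 63 0 (.thr 46 34 (.thr 12 29 (.thr 51 25 (.thr 15 27 (.dbl 47 31 45)))))) (.rp 35 (.thr 63 0 (.thr 46 34 (.thr 47 45 (.thr 12 29 (.thr 15 31 (.dbl 51 25 27)))))) (.rp 34 (.thr 63 0 (.thr 41 35 (.thr 61 1 (.thr 60 62 (.thr 12 28 (.thr 29 46 (.dbl 25 17 51))))))) (.rp 33 (.thr 63 0 (.thr 46 34 (.thr 45 47 (.thr 29 12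 (.thr 61 13 (.dbl 41 1 35)))))) .nd)))))))) (.rp 0 (.thr 46 34 (.thr 45 47 (.thr 41 35 (.thr 61 1 (.thr 29 13 (.thr 12 63 (.dbl 25 17 51))))))) .nd)))))))))) (.rp 0 (.thr 46 34 (.thr 45 47 (.thr 41 35 (.thr 61 1 (.thr 29 13 (.thr 12 63 (.dbl 25 17 51))))))) .nd)))))))))) (.rp 52 (.str 7 (.nv (.thr 34 46 (.thr 4 55 (.thr 0 63 (.thr 12 8 (.dbl 51 17 25))))) (.nv (.thr 55 4 (.thr 63 0 (.thr 51 59 (.thr 46 34 (.dbl 12 25 29))))) (.rp 63 (.str 41 (.nv (.thr 43 40 (.thr 55 4 (.thr 39 23 (.dbl 35 44 47)))) (.rp 55 (.thr 34 46 (.thr 35 44 (.thr 33 32 (.thr 1 61 (.thr 17 49 (.thr 51 0 (.dbl 25 12 29))))))) (.rp 47 (.thr 35 44 (.thr 4 55 (.thr 5 6 (.thr 1 61 (.thr 9 13 (.thr 25 57 (.thr 8 59 (.thr 51 12 (.thr 11 10 (.dbl 3 15 19)))))))))) (.rp 44 (.thr 40 43 (.thr 4 55 (.thr 5 6 (.thr 1 61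 (.thr 9 13 (.thr 25 57 (.thr 8 59 (.thr 51 12 (.thr 11 10 (.dbl 56 24 26)))))))))) (.rp 43 (.thr 34 46 (.thr 35 44 (.thr 33 32 (.thr 1 61 (.thr 17 49 (.thr 51 0 (.dbl 25 12 29))))))) (.rp 40 (.thr 46 34 (.thr 44 35 (.thr 45 47 (.thr 4 55 (.thr 61 1 (.thr 29 13 (.thr 25 17 (.thr 6 5 (.thr 9 57 (.dbl 12 3 51)))))))))) (.rp 39 (.thr 34 46 (.thr 35 44 (.thr 33 32 (.thr 1 61 (.thr 17 49 (.thr 51 0 (.dbl 25 12 29))))))) (.rp 36 (.thr 34 46 (.thr 35 44 (.thr 40 43 (.thr 33 32 (.thr 1 61 (.thr 17 49 (.thr 51 0 (.dbl 25 12 29)))))))) (.rp 35 (.thr 40 43 (.thr 4 55 (.thr 5 6 (.thr 1 61 (.thr 9 13 (.thr 25 57 (.thr 8 59 (.thr 51 12 (.thr 11 10 (.dbl 56 24 26)))))))))) (.rp 23 (.thr 34 46 (.thr 35 44 (.thr 33 32 (.thr 1 61 (.thr 17 49 (.thr 51 0 (.dbl 25 12 29))))))) (.rp 20 (.thr 35 44 (.thr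 43 40 (.thr 39 47 (.dbl 55 4 23)))) (.rp 4 (.thr 34 46 (.thr 35 44 (.thr 33 32 (.thr 1 61 (.thr 17 49 (.thr 51 0 (.dbl 25 12 29))))))) .nd))))))))))))) (.rp 59 (.thr 4 55 (.thr 34 46 (.thr 0 63 (.thr 51 17 (.dbl 12 8 25))))) (.rp 55 (.thr 0 63 (.thr 34 46 (.thr 51 17 (.thr 12 25 (.thr 4 8 (.thr 6 5 (.thr 3 9 (.thr 1 2 (.thr 41 61 (.dbl 35 19 44)))))))))) (.rp 51 (.str 41 (.nv (.thr 0 63 (.thr 1 61 (.thr 3 2 (.thr 15 11 (.thr 5 10 (.dbl 4 6 55)))))) (.nv (.thr 35 44 (.thr 55 4 (.thr 39 23 (.dbl 43 40 47)))) (.rp 55 (.thr 46 34 (.thr 44 35 (.thr 45 47 (.thr 61 1 (.thr 29 13 (.dbl 63 0 12)))))) (.rp 4 (.thr 35 44 (.thr 43 40 (.thr 39 47 (.thr 63 0 (.dbl 23 3 55))))) .nd))))) (.rp 46 (.thr 55 4 (.thr 39 23 (.thr 63 0 (.thr 51 59 (.thr 15 27 (.thr 31 47 (.thr 26 16 (.thr 14 50 (.dbl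 12 13 25))))))))) (.rp 34 (.thr 55 4 (.thr 39 23 (.thr 63 0 (.thr 51 59 (.thr 15 27 (.thr 31 47 (.thr 26 16 (.thr 14 50 (.dbl 12 13 25))))))))) (.rp 25 (.thr 55 4 (.thr 39 23 (.thr 0 63 (.thr 34 46 (.thr 51 17 (.thr 15 27 (.thr 3 11 (.thr 1 2 (.thr 41 61 (.dbl 35 19 44)))))))))) (.rp 12 (.str 26 (.nv (.thr 0 63 (.thr 4 55 (.thr 5 6 (.dbl 10 15 58)))) (.nv (.thr 0 63 (.thr 10 58 (.thr 15 5 (.thr 3 11 (.thr 2 1 (.dbl 14 6 50)))))) (.nv (.thr 14 50 (.thr 4 55 (.thr 6 5 (.dbl 10 2 58)))) (.rp 58 (.thr 34 46 (.thr 50 14 (.thr 18 2 (.thr 16 31 (.thr 17 19 (.dbl 0 51 63)))))) (.rp 53 (.thr 14 50 (.thr 10 58 (.thr 6 2 (.dbl 4 5 55)))) (.rp 10 (.thr 50 14 (.thr 0 63 (.thr 16 31 (.thr 48 32 (.thr 51 49 (.dbl 34 17 46)))))) (.rp 6 (.thr 50 14 (.thr 0 63 (.thr 16 31 (.thr 48 32 (.thr 51 49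 (.dbl 34 17 46)))))) (.rp 5 (.thr 34 46 (.thr 50 14 (.thr 18 2 (.thr 16 31 (.thr 17 19 (.dbl 0 51 63)))))) .nd))))))))) (.rp 8 (.thr 55 4 (.thr 46 34 (.thr 63 0 (.thr 12 29 (.dbl 51 25 59))))) (.rp 4 (.thr 63 0 (.thr 46 34 (.thr 12 29 (.thr 51 25 (.thr 55 59 (.thr 39 23 (.thr 15 27 (.thr 31 47 (.thr 26 16 (.dbl 14 13 50)))))))))) (.rp 0 (.str 26 (.nv (.thr 10 58 (.thr 4 55 (.thr 6 5 (.dbl 14 2 50)))) (.rp 58 (.thr 34 46 (.thr 50 14 (.thr 18 2 (.thr 55 4 (.thr 16 31 (.thr 17 19 (.thr 25 29 (.thr 39 23 (.thr 27 24 (.dbl 51 12 15)))))))))) (.rp 55 (.thr 46 34 (.thr 14 50 (.thr 30 62 (.thr 31 16 (.thr 29 28 (.thr 12 63 (.dbl 25 17 51))))))) (.rp 54 (.thr 46 34 (.thr 14 50 (.thr 58 10 (.thr 30 62 (.thr 31 16 (.thr 29 28 (.thr 12 63 (.dbl 25 17 51)))))))) (.rp 53 (.thr 14 50 (.thr 10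 58 (.thr 6 2 (.dbl 4 5 55)))) (.rp 50 (.thr 58 10 (.thr 55 4 (.thr 23 39 (.thr 31 16 (.thr 27 19 (.thr 25 24 (.thr 59 8 (.thr 12 51 (.thr 11 43 (.dbl 56 41 57)))))))))) (.rp 14 (.thr 58 10 (.thr 55 4 (.thr 23 39 (.thr 31 16 (.thr 27 19 (.thr 25 24 (.thr 59 8 (.thr 12 51 (.thr 11 43 (.dbl 56 41 57)))))))))) (.rp 10 (.thr 46 34 (.thr 14 50 (.thr 30 62 (.thr 31 16 (.thr 29 28 (.thr 12 63 (.dbl 25 17 51))))))) (.rp 6 (.thr 46 34 (.thr 14 50 (.thr 30 62 (.thr 31 16 (.thr 29 28 (.thr 12 63 (.dbl 25 17 51))))))) (.rp 5 (.thr 46 34 (.thr 14 50 (.thr 30 62 (.thr 31 16 (.thr 29 28 (.thr 12 63 (.dbl 25 17 51))))))) (.rp 4 (.thr 46 34 (.thr 14 50 (.thr 30 62 (.thr 31 16 (.thr 29 28 (.thr 12 63 (.dbl 25 17 51))))))) (.rp 2 (.thr 14 50 (.thr 55 4 (.thr 23 39 (.thr 31 16 (.thr 27 19 (.thr 25 24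 (.thr 59 8 (.thr 12 51 (.thr 11 43 (.dbl 15 3 13)))))))))) .nd))))))))))))) .nd)))))))))))))) (.rp 51 (.str 41 (.nv (.thr 0 63 (.thr 40 43 (.thr 44 35 (.thr 60 20 (.thr 12 28 (.dbl 4 8 55)))))) (.nv (.thr 40 43 (.thr 44 35 (.thr 36 32 (.thr 0 63 (.thr 20 60 (.dbl 4 52 55)))))) (.nv (.thr 55 4 (.thr 61 1 (.thr 63 0 (.thr 60 62 (.thr 44 35 (.thr 12 28 (.dbl 46 29 34))))))) (.rp 63 (.thr 55 4 (.str 25 (.nv (.thr 17 29 (.thr 35 44 (.thr 1 61 (.thr 33 49 (.dbl 34 32 46))))) (.nv (.thr 61 1 (.thr 44 35 (.thr 29 17 (.thr 45 13 (.dbl 46 34 47))))) (.nv (.thr 8 59 (.thr 9 57 (.thr 11 10 (.thr 40 43 (.dbl 56 24 26))))) (.rp 52 (.str 7 (.nv (.thr 8 59 (.thr 9 57 (.thr 11 10 (.thr 40 43 (.dbl 56 24 26))))) (.nv (.thr 1 61 (.thr 17 29 (.thr 33 49 (.thr 35 44 (.dbl 34 32 46))))) (.nv (.thr 39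 23 (.thr 43 40 (.dbl 35 44 47))) (.rp 36 (.str 20 (.nv (.thr 8 59 (.thr 9 57 (.thr 11 10 (.thr 56 26 (.dbl 40 24 43))))) (.nv (.thr 39 23 (.thr 43 40 (.dbl 35 44 47))) (.rp 43 (.thr 61 1 (.thr 44 35 (.thr 29 17 (.thr 45 13 (.dbl 46 34 47))))) (.rp 40 (.thr 61 1 (.thr 44 35 (.thr 46 34 (.thr 45 47 (.dbl 29 13 17))))) .nd))))) (.rp 20 (.str 36 (.nv (.thr 35 44 (.thr 39 23 (.dbl 43 40 47))) (.nv (.thr 40 43 (.dbl 44 32 35)) (.rp 44 (.thr 43 40 (.thr 59 8 (.thr 11 27 (.thr 57 9 (.dbl 56 26 58))))) (.rp 43 (.thr 61 1 (.thr 44 35 (.thr 29 17 (.thr 45 13 (.dbl 46 34 47))))) (.rp 40 (.thr 61 1 (.thr 44 35 (.thr 46 34 (.thr 45 47 (.dbl 29 13 17))))) (.rp 35 (.thr 43 40 (.thr 59 8 (.thr 11 27 (.thr 57 9 (.dbl 56 26 58))))) (.rp 23 (.thr 44 35 (.dbl 40 32 43)) .nd)))))))) .nd)))))) (.rp 7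 (.str 52 (.nv (.thr 1 61 (.thr 34 46 (.thr 35 44 (.thr 33 32 (.dbl 17 29 49))))) (.nv (.thr 8 59 (.thr 40 43 (.thr 56 24 (.thr 11 26 (.dbl 9 10 57))))) (.nv (.thr 53 54 (.thr 57 9 (.dbl 61 1 49))) (.rp 6 (.str 5 (.nv (.thr 53 54 (.thr 57 9 (.dbl 61 1 49))) (.nv (.thr 9 57 (.dbl 1 13 61)) (.rp 61 (.thr 57 9 (.thr 59 8 (.thr 56 58 (.thr 43 40 (.dbl 11 26 27))))) (.rp 57 (.thr 35 44 (.thr 1 61 (.thr 34 46 (.thr 33 32 (.dbl 17 29 49))))) (.rp 54 (.thr 1 61 (.dbl 9 13 57)) (.rp 9 (.thr 35 44 (.thr 1 61 (.thr 17 29 (.thr 33 49 (.dbl 34 32 46))))) (.rp 1 (.thr 57 9 (.thr 59 8 (.thr 56 58 (.thr 43 40 (.dbl 11 26 27))))) .nd)))))))) (.rp 5 (.str 6 (.nv (.thr 1 61 (.thr 34 46 (.thr 35 44 (.thr 33 32 (.dbl 17 29 49))))) (.nv (.thr 8 59 (.thr 40 43 (.thr 56 24 (.thr 11 26 (.dbl 9 10 57)))))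 (.nv (.thr 53 54 (.thr 57 9 (.dbl 61 1 49))) .nd)))) .nd)))))) .nd))))))) (.rp 60 (.thr 44 35 (.thr 46 34 (.thr 45 47 (.thr 61 1 (.thr 29 13 (.dbl 63 0 12)))))) (.rp 55 (.thr 44 35 (.thr 46 34 (.thr 45 47 (.thr 61 1 (.thr 29 13 (.dbl 63 0 12)))))) (.rp 52 (.str 7 (.nv (.thr 0 63 (.thr 1 61 (.thr 3 2 (.thr 15 11 (.thr 5 10 (.dbl 4 6 55)))))) (.nv (.thr 35 44 (.thr 55 4 (.thr 39 23 (.dbl 43 40 47)))) (.rp 55 (.thr 46 34 (.thr 44 35 (.thr 45 47 (.thr 61 1 (.thr 29 13 (.dbl 63 0 12)))))) (.rp 4 (.thr 35 44 (.thr 43 40 (.thr 39 47 (.thr 63 0 (.dbl 23 3 55))))) .nd))))) (.rp 44 (.thr 34 46 (.thr 0 63 (.thr 1 61 (.thr 2 3 (.thr 50 18 (.thr 26 14 (.thr 10 58 (.thr 11 56 (.thr 8 9 (.dbl 4 12 55)))))))))) (.rp 35 (.thr 61 1 (.thr 63 0 (.thr 60 62 (.thr 43 40 (.thr 3 23 (.str 29 (.nv (.dbl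 46 12 34) (.rp 52 (.str 7 (.nv (.thr 17 25 (.thr 15 11 (.dbl 45 13 30))) (.nv (.dbl 46 12 34) (.rp 17 (.thr 34 46 (.thr 45 13 (.dbl 15 11 30))) .nd)))) (.rp 46 (.thr 45 13 (.thr 30 15 (.thr 28 31 (.thr 12 44 (.thr 9 6 (.dbl 25 17 57)))))) (.rp 34 (.thr 17 25 (.thr 12 46 (.thr 28 44 (.thr 30 31 (.dbl 45 13 15))))) (.rp 17 (.thr 34 46 (.thr 45 13 (.thr 30 15 (.thr 28 31 (.thr 12 44 (.thr 4 55 (.thr 9 6 (.thr 25 57 (.thr 8 59 (.thr 10 11 (.thr 58 26 (.thr 48 53 (.thr 36 24 (.dbl 52 20 56)))))))))))))) (.rp 12 (.thr 45 13 (.thr 15 30 (.thr 47 31 (.dbl 46 34 44)))) (.rp 7 (.str 52 (.nv (.thr 48 56 (.thr 53 58 (.dbl 55 4 54))) (.nv (.dbl 46 12 34) (.rp 55 (.str 39 (.nv (.dbl 46 12 34) (.rp 46 (.thr 48 56 (.thr 53 58 (.thr 57 49 (.dbl 25 9 17)))) (.rp 34 (.thr 17 25 (.thr 12 46 (.thr 28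 44 (.thr 30 31 (.dbl 45 13 15))))) (.rp 17 (.thr 34 46 (.thr 45 13 (.thr 30 15 (.thr 31 28 (.thr 26 16 (.dbl 56 11 48)))))) (.rp 12 (.thr 45 13 (.thr 15 30 (.thr 47 31 (.dbl 46 34 44)))) .nd)))))) (.rp 39 (.thr 55 4 (.dbl 46 12 34)) (.rp 34 (.thr 17 25 (.thr 55 4 (.thr 53 54 (.dbl 48 56 58)))) (.rp 17 (.thr 34 46 (.thr 55 4 (.thr 53 54 (.dbl 48 56 58)))) .nd))))))) .nd))))))))))))) (.rp 19 (.thr 43 40 (.thr 35 44 (.thr 39 47 (.thr 63 0 (.thr 23 3 (.dbl 55 4 7)))))) (.rp 7 (.str 52 (.nv (.thr 0 63 (.thr 40 43 (.thr 60 20 (.thr 48 56 (.thr 32 16 (.dbl 44 35 36)))))) (.nv (.thr 40 43 (.thr 44 35 (.thr 36 32 (.dbl 4 20 55)))) (.nv (.thr 4 55 (.thr 20 36 (.thr 40 43 (.dbl 0 60 63)))) (.rp 55 (.thr 44 35 (.thr 40 43 (.thr 36 32 (.thr 20 4 (.dbl 0 60 63))))) (.rp 43 (.thr 44 35 (.thr 63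 0 (.thr 61 1 (.thr 60 62 (.thr 12 28 (.dbl 46 29 34)))))) (.rp 40 (.thr 46 34 (.thr 44 35 (.thr 45 47 (.thr 61 1 (.thr 29 13 (.dbl 63 0 12)))))) (.rp 36 (.thr 46 34 (.thr 44 35 (.thr 45 47 (.thr 61 1 (.thr 29 13 (.dbl 63 0 12)))))) (.rp 20 (.thr 46 34 (.thr 44 35 (.thr 45 47 (.thr 61 1 (.thr 29 13 (.dbl 63 0 12)))))) .nd))))))))) (.rp 4 (.thr 44 35 (.thr 46 34 (.thr 45 47 (.thr 61 1 (.thr 29 13 (.dbl 63 0 12)))))) (.rp 3 (.thr 40 43 (.thr 35 44 (.thr 34 46 (.thr 33 32 (.thr 1 61 (.thr 17 49 (.thr 25 29 (.thr 8 59 (.thr 56 24 (.thr 11 26 (.dbl 9 10 57))))))))))) (.rp 0 (.thr 40 43 (.thr 35 44 (.thr 34 46 (.thr 33 32 (.thr 1 61 (.thr 17 49 (.thr 25 29 (.thr 8 59 (.thr 56 24 (.thr 11 26 (.dbl 9 10 57))))))))))) .nd))))))))))))))) (.rp 46 (.thr 63 0 (.str 41 (.nv (.thr 35 44 (.thr 43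 40 (.thr 23 3 (.thr 55 4 (.dbl 39 7 47))))) (.nv (.thr 35 44 (.thr 43 40 (.thr 3 23 (.thr 51 19 (.thr 59 55 (.thr 27 11 (.dbl 39 15 47))))))) (.nv (.thr 44 35 (.thr 55 4 (.thr 51 59 (.thr 61 1 (.thr 60 62 (.dbl 12 25 28)))))) (.nv (.thr 55 4 (.thr 51 59 (.thr 43 40 (.thr 3 23 (.dbl 35 19 44))))) (.rp 60 (.thr 35 44 (.thr 55 4 (.thr 51 59 (.thr 3 19 (.dbl 43 23 40))))) (.rp 55 (.thr 43 40 (.thr 35 44 (.thr 47 39 (.thr 23 3 (.thr 31 15 (.thr 26 16 (.thr 27 19 (.dbl 11 56 59)))))))) (.rp 52 (.str 7 (.nv (.thr 43 40 (.thr 3 23 (.thr 15 11 (.thr 47 31 (.dbl 35 39 44))))) (.nv (.thr 55 4 (.thr 23 39 (.dbl 43 3 40))) (.rp 43 (.thr 61 1 (.thr 55 4 (.thr 51 59 (.thr 12 25 (.thr 44 35 (.dbl 60 28 62)))))) (.rp 40 (.thr 55 4 (.thr 23 39 (.thr 3 43 (.thr 51 59 (.dbl 35 19 44))))) (.rp 39 (.thr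 55 4 (.thr 59 51 (.thr 43 40 (.thr 3 23 (.dbl 11 15 27))))) (.rp 23 (.thr 61 1 (.thr 55 4 (.thr 51 59 (.thr 12 25 (.thr 44 35 (.dbl 60 28 62)))))) (.rp 20 (.thr 61 1 (.thr 35 44 (.thr 43 40 (.thr 60 62 (.thr 47 39 (.thr 15 31 (.dbl 3 11 23))))))) (.rp 3 (.thr 55 4 (.thr 39 23 (.thr 35 44 (.dbl 43 40 47)))) .nd))))))))) (.rp 44 (.thr 61 1 (.thr 60 62 (.thr 55 4 (.thr 51 59 (.thr 57 54 (.dbl 25 9 12)))))) (.rp 35 (.thr 61 1 (.thr 60 62 (.thr 55 4 (.thr 51 59 (.thr 57 54 (.dbl 25 9 12)))))) (.rp 7 (.str 52 (.nv (.thr 55 4 (.thr 51 59 (.thr 54 53 (.thr 60 57 (.dbl 61 1 62))))) (.nv (.thr 4 55 (.thr 36 20 (.thr 40 43 (.dbl 44 32 35)))) (.rp 55 (.thr 44 35 (.thr 40 43 (.thr 36 32 (.thr 61 1 (.thr 60 62 (.thr 48 56 (.dbl 12 24 28))))))) (.rp 4 (.thr 61 1 (.thr 60 62 (.thr 48 56 (.thr 53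 58 (.thr 57 49 (.dbl 54 51 55)))))) .nd))))) (.rp 3 (.thr 40 43 (.thr 55 4 (.thr 59 51 (.thr 8 25 (.thr 56 24 (.thr 58 57 (.dbl 26 10 11))))))) .nd))))))))))))) (.rp 34 (.thr 0 63 (.str 41 (.nv (.thr 40 43 (.thr 44 35 (.thr 60 20 (.thr 12 28 (.dbl 4 8 55))))) (.nv (.thr 4 55 (.thr 40 43 (.thr 20 60 (.thr 44 35 (.dbl 36 32 52))))) (.nv (.thr 1 61 (.thr 3 2 (.thr 4 55 (.thr 12 8 (.thr 9 6 (.dbl 25 51 57)))))) (.nv (.thr 4 55 (.thr 12 8 (.thr 40 43 (.thr 60 20 (.dbl 44 28 35))))) (.rp 60 (.thr 43 40 (.thr 4 55 (.thr 8 12 (.thr 59 25 (.thr 11 27 (.thr 10 9 (.dbl 26 56 58))))))) (.rp 55 (.thr 40 43 (.thr 44 35 (.thr 60 20 (.thr 12 28 (.thr 8 4 (.dbl 25 51 59)))))) (.rp 52 (.str 7 (.nv (.thr 1 61 (.thr 3 2 (.thr 15 11 (.thr 5 10 (.thr 9 13 (.dbl 6 4 12)))))) (.nv (.thr 35 44 (.thr 55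 4 (.thr 39 23 (.dbl 43 40 47)))) (.rp 4 (.thr 35 44 (.thr 43 40 (.thr 39 47 (.thr 1 61 (.thr 3 2 (.thr 15 11 (.dbl 51 19 27))))))) .nd)))) (.rp 7 (.str 52 (.nv (.thr 40 43 (.thr 20 60 (.thr 36 4 (.dbl 44 32 35)))) (.nv (.thr 4 55 (.thr 20 36 (.dbl 40 43 60))) (.rp 60 (.thr 4 55 (.thr 36 20 (.thr 44 35 (.dbl 40 32 43)))) (.rp 43 (.thr 4 55 (.thr 20 36 (.thr 60 40 (.thr 12 8 (.dbl 44 28 35))))) (.rp 40 (.thr 1 61 (.thr 4 55 (.thr 12 8 (.thr 51 25 (.thr 35 44 (.dbl 3 2 19)))))) (.rp 36 (.thr 4 55 (.thr 8 12 (.thr 40 43 (.thr 60 20 (.dbl 56 24 48))))) (.rp 23 (.thr 1 61 (.thr 44 35 (.thr 40 43 (.thr 3 2 (.thr 32 36 (.thr 48 16 (.dbl 60 20 56))))))) (.rp 20 (.thr 1 61 (.thr 4 55 (.thr 12 8 (.thr 51 25 (.thr 35 44 (.dbl 3 2 19)))))) (.rp 4 (.thr 44 35 (.thr 40 43 (.thr 32 36 (.thr 48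 16 (.dbl 60 20 56))))) .nd)))))))))) (.rp 4 (.thr 40 43 (.thr 44 35 (.thr 32 36 (.thr 20 60 (.thr 16 48 (.thr 26 31 (.thr 24 28 (.dbl 56 8 11)))))))) (.rp 3 (.thr 44 35 (.thr 4 55 (.thr 12 8 (.thr 60 28 (.dbl 40 20 43))))) .nd)))))))))))) (.rp 29 (.thr 4 55 (.thr 0 63 (.thr 34 46 (.thr 12 8 (.dbl 51 17 25))))) (.rp 25 (.thr 0 63 (.str 41 (.nv (.thr 40 43 (.thr 20 60 (.thr 44 35 (.thr 36 32 (.dbl 4 52 55))))) (.nv (.thr 34 46 (.thr 17 51 (.thr 35 44 (.thr 33 32 (.dbl 1 49 61))))) (.nv (.thr 1 61 (.thr 3 2 (.thr 34 46 (.thr 35 44 (.dbl 51 17 19))))) (.nv (.thr 4 55 (.thr 12 8 (.thr 40 43 (.thr 60 20 (.dbl 44 28 35))))) (.rp 52 .ext (.rp 49 .ext (.rp 44 (.thr 40 43 (.thr 60 20 (.thr 4 55 (.thr 8 12 (.thr 56 24 (.thr 26 11 (.thr 16 31 (.dbl 48 32 52)))))))) (.rp 35 (.thr 40 43 (.thr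 60 20 (.thr 4 55 (.thr 8 12 (.thr 56 24 (.thr 26 11 (.thr 16 31 (.dbl 48 32 52)))))))) (.rp 28 .ext (.rp 19 .ext (.rp 13 .ext (.rp 7 (.str 52 (.nv (.thr 40 43 (.thr 44 35 (.thr 36 32 (.dbl 4 20 55)))) (.nv (.thr 1 61 (.thr 3 2 (.thr 34 46 (.thr 35 44 (.dbl 51 17 19))))) (.nv (.thr 4 55 (.thr 20 36 (.dbl 40 43 60))) (.rp 49 (.str 13 (.nv (.thr 44 35 (.thr 46 34 (.thr 61 1 (.dbl 45 29 47)))) (.nv (.thr 4 55 (.thr 20 36 (.dbl 40 43 60))) (.rp 28 (.str 19 (.nv (.thr 40 43 (.thr 44 35 (.thr 36 32 (.dbl 4 20 55)))) (.nv (.thr 4 55 (.thr 20 36 (.dbl 40 43 60))) (.nv (.thr 1 61 (.thr 3 2 (.dbl 35 44 51))) .nd)))) (.rp 19 (.str 28 (.nv (.thr 4 55 (.thr 20 36 (.dbl 40 43 60))) (.nv (.thr 46 34 (.thr 61 1 (.thr 45 29 (.dbl 44 35 47)))) (.nv (.thr 40 43 (.thr 60 20 (.dbl 44 12 35))) .nd))))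 .nd))))) (.rp 28 (.str 19 (.nv (.thr 4 55 (.thr 20 36 (.dbl 40 43 60))) (.nv (.thr 34 46 (.thr 51 17 (.dbl 35 3 44))) (.rp 51 (.thr 40 43 (.thr 20 60 (.dbl 4 36 55))) (.rp 49 (.str 13 (.nv (.thr 40 43 (.thr 44 35 (.thr 36 32 (.dbl 4 20 55)))) (.nv (.thr 4 55 (.thr 20 36 (.dbl 40 43 60))) (.nv (.thr 1 61 (.thr 3 2 (.dbl 35 44 51))) .nd)))) (.rp 13 (.str 49 (.nv (.thr 34 46 (.thr 35 44 (.dbl 51 3 17))) (.nv (.thr 55 4 (.thr 53 54 (.dbl 61 1 57))) .nd))) .nd)))))) (.rp 19 (.str 28 (.nv (.thr 4 55 (.thr 20 36 (.dbl 40 43 60))) (.nv (.thr 1 61 (.thr 34 46 (.thr 17 51 (.thr 35 44 (.dbl 33 32 49))))) (.nv (.thr 40 43 (.thr 60 20 (.dbl 44 12 35))) (.rp 60 (.thr 4 55 (.thr 36 20 (.thr 44 35 (.dbl 40 32 43)))) (.rp 49 (.str 13 (.nv (.thr 4 55 (.thr 20 36 (.dbl 40 43 60))) (.nv (.thr 46 34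 (.thr 61 1 (.thr 45 29 (.dbl 44 35 47)))) (.nv (.thr 40 43 (.thr 60 20 (.dbl 44 12 35))) .nd)))) (.rp 13 (.str 49 (.nv (.thr 40 43 (.thr 44 35 (.dbl 60 12 20))) (.nv (.thr 61 1 (.thr 53 57 (.dbl 55 4 54))) .nd))) .nd))))))) (.rp 13 (.str 49 (.nv (.thr 34 46 (.thr 35 44 (.thr 33 32 (.dbl 17 1 51)))) (.nv (.thr 55 4 (.thr 53 54 (.dbl 61 1 57))) (.rp 28 (.str 19 (.nv (.thr 34 46 (.thr 35 44 (.dbl 51 3 17))) (.nv (.thr 55 4 (.thr 53 54 (.dbl 61 1 57))) .nd))) (.rp 19 (.str 28 (.nv (.thr 40 43 (.thr 44 35 (.dbl 60 12 20))) (.nv (.thr 61 1 (.thr 53 57 (.dbl 55 4 54))) .nd))) (.rp 1 (.thr 4 55 (.thr 20 36 (.dbl 40 43 60))) .nd)))))) .nd)))))))) .nd)))))))))))))) (.rp 12 (.str 41 (.nv (.thr 35 44 (.thr 43 40 (.thr 39 47 (.thr 63 0 (.thr 23 3 (.dbl 55 4 7)))))) (.nv (.thr 40 43 (.thr 44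 35 (.thr 36 32 (.thr 4 55 (.thr 0 63 (.dbl 20 52 60)))))) (.nv (.thr 0 63 (.thr 1 61 (.thr 3 2 (.thr 35 44 (.thr 51 19 (.dbl 34 17 46)))))) (.rp 63 (.thr 43 40 (.thr 44 35 (.thr 46 34 (.thr 45 47 (.thr 61 1 (.thr 29 13 (.thr 25 17 (.thr 59 8 (.thr 11 27 (.thr 56 26 (.dbl 57 9 58))))))))))) (.rp 60 (.thr 43 40 (.thr 44 35 (.thr 46 34 (.thr 45 47 (.thr 61 1 (.thr 29 13 (.thr 25 17 (.thr 59 8 (.thr 11 27 (.thr 56 26 (.dbl 57 9 58))))))))))) (.rp 52 (.str 7 (.nv (.thr 43 40 (.thr 35 44 (.thr 39 47 (.dbl 55 4 23)))) (.nv (.thr 0 63 (.thr 1 61 (.thr 3 2 (.thr 35 44 (.thr 51 19 (.dbl 34 17 46)))))) (.nv (.thr 43 40 (.thr 55 4 (.thr 23 39 (.dbl 63 0 3)))) .nd)))) (.rp 46 (.thr 43 40 (.thr 35 44 (.thr 63 0 (.thr 3 23 (.thr 51 19 (.dbl 55 4 59)))))) (.rp 44 (.thr 1 61 (.thr 0 63 (.thr 3 2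 (.thr 40 43 (.thr 60 20 (.str 17 (.nv (.dbl 34 46 51) (.rp 52 (.str 7 (.nv (.thr 15 11 (.thr 5 10 (.dbl 4 6 55))) (.nv (.dbl 34 46 51) (.rp 46 (.thr 29 25 (.thr 4 55 (.thr 5 6 (.dbl 15 10 11)))) (.rp 36 (.thr 4 55 (.dbl 34 46 51)) (.rp 29 (.thr 46 34 (.thr 4 55 (.thr 5 6 (.dbl 15 10 11)))) (.rp 4 (.str 36 (.nv (.dbl 34 46 51) (.rp 51 (.thr 33 49 (.thr 48 18 (.thr 32 16 (.dbl 34 35 46)))) (.rp 46 (.thr 29 25 (.thr 51 34 (.thr 19 35 (.thr 18 16 (.dbl 33 48 49))))) (.rp 34 (.thr 15 11 (.thr 5 10 (.thr 9 13 (.dbl 25 29 57)))) (.rp 29 (.thr 46 34 (.thr 33 49 (.thr 18 48 (.thr 16 19 (.thr 26 31 (.dbl 11 15 56)))))) .nd)))))) .nd))))))) (.rp 51 (.thr 33 49 (.thr 48 18 (.thr 32 16 (.dbl 34 35 46)))) (.rp 46 (.thr 29 25 (.thr 51 34 (.thr 19 35 (.thr 18 16 (.dbl 33 48 49))))) (.rp 34 (.thr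 33 49 (.thr 18 48 (.thr 19 16 (.thr 51 35 (.thr 57 54 (.dbl 25 9 29)))))) (.rp 29 (.thr 46 34 (.thr 33 49 (.thr 18 48 (.thr 19 16 (.thr 51 35 (.thr 55 4 (.thr 57 54 (.thr 25 9 (.thr 59 8 (.thr 58 56 (.thr 10 26 (.thr 15 5 (.thr 39 27 (.dbl 7 11 23)))))))))))))) (.rp 7 (.str 52 (.nv (.thr 29 25 (.thr 48 56 (.dbl 33 18 49))) (.nv (.dbl 34 46 51) (.rp 29 (.thr 46 34 (.thr 33 49 (.dbl 48 18 56))) .nd)))) .nd))))))))))))) (.rp 35 (.thr 46 34 (.thr 63 0 (.thr 61 1 (.thr 62 60 (.thr 14 30 (.thr 26 50 (.thr 58 10 (.thr 56 11 (.thr 59 57 (.dbl 55 4 51)))))))))) (.rp 7 (.str 52 (.nv (.thr 0 63 (.thr 4 55 (.thr 20 36 (.dbl 40 43 60)))) (.nv (.thr 0 63 (.thr 1 61 (.thr 3 2 (.thr 35 44 (.thr 51 19 (.dbl 34 17 46)))))) (.nv (.thr 4 55 (.thr 36 20 (.thr 40 43 (.dbl 44 32 35)))) .nd)))) (.rp 3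 (.thr 35 44 (.thr 34 46 (.thr 33 32 (.thr 1 61 (.thr 17 49 (.dbl 0 51 63)))))) (.rp 0 (.thr 4 55 (.str 25 (.nv (.thr 17 29 (.thr 35 44 (.thr 1 61 (.thr 33 49 (.dbl 34 32 46))))) (.nv (.thr 44 35 (.thr 61 1 (.thr 46 34 (.thr 45 47 (.dbl 29 13 17))))) (.nv (.thr 8 59 (.thr 9 57 (.thr 11 10 (.thr 40 43 (.dbl 56 24 26))))) (.rp 52 (.str 7 (.nv (.thr 1 61 (.thr 34 46 (.thr 35 44 (.thr 33 32 (.dbl 17 29 49))))) (.nv (.thr 5 6 (.thr 9 57 (.dbl 1 13 61))) (.rp 61 (.thr 43 40 (.thr 59 8 (.thr 11 27 (.thr 57 9 (.dbl 56 26 58))))) (.rp 54 (.str 53 (.nv (.thr 1 61 (.thr 5 6 (.dbl 9 13 57))) (.nv (.thr 57 9 (.dbl 61 1 49)) (.rp 61 (.thr 9 57 (.thr 8 59 (.thr 11 10 (.thr 40 43 (.dbl 56 24 26))))) (.rp 57 (.thr 44 35 (.thr 61 1 (.thr 29 17 (.thr 45 13 (.dbl 46 34 47))))) (.rp 9 (.thr 44 35 (.thr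 61 1 (.thr 46 34 (.thr 45 47 (.dbl 29 13 17))))) (.rp 6 (.thr 61 1 (.dbl 57 9 49)) (.rp 1 (.thr 9 57 (.thr 8 59 (.thr 11 10 (.thr 40 43 (.dbl 56 24 26))))) .nd)))))))) (.rp 53 (.str 54 (.nv (.thr 1 61 (.thr 34 46 (.thr 35 44 (.thr 33 32 (.dbl 17 29 49))))) (.nv (.thr 5 6 (.thr 9 57 (.dbl 1 13 61))) (.rp 61 (.thr 57 9 (.thr 59 8 (.thr 43 40 (.thr 11 27 (.dbl 56 26 58))))) (.rp 57 (.thr 44 35 (.thr 61 1 (.thr 29 17 (.thr 45 13 (.dbl 46 34 47))))) (.rp 49 (.thr 57 9 (.thr 59 8 (.thr 43 40 (.thr 11 27 (.dbl 56 26 58))))) (.rp 1 (.thr 9 57 (.thr 8 59 (.thr 11 10 (.thr 40 43 (.dbl 56 24 26))))) .nd))))))) (.rp 1 (.thr 43 40 (.thr 59 8 (.thr 11 27 (.thr 57 9 (.dbl 56 26 58))))) .nd))))))) (.rp 7 (.str 52 (.nv (.thr 1 61 (.thr 17 29 (.thr 33 49 (.thr 35 44 (.dbl 34 32 46))))) (.nv (.thr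 8 59 (.thr 9 57 (.thr 11 10 (.thr 40 43 (.dbl 56 24 26))))) (.nv (.thr 36 20 (.thr 40 43 (.dbl 44 32 35))) (.rp 39 (.str 23 (.nv (.thr 1 61 (.thr 17 29 (.thr 33 49 (.thr 35 44 (.dbl 34 32 46))))) (.nv (.thr 8 59 (.thr 9 57 (.thr 11 10 (.thr 56 26 (.dbl 40 24 43))))) (.nv (.thr 36 20 (.thr 40 43 (.dbl 44 32 35))) .nd)))) (.rp 23 (.str 39 (.nv (.thr 36 20 (.thr 40 43 (.dbl 44 32 35))) (.nv (.thr 43 40 (.dbl 35 44 47)) (.rp 44 (.thr 40 43 (.thr 8 59 (.thr 56 24 (.thr 9 57 (.dbl 11 10 26))))) (.rp 43 (.thr 1 61 (.thr 35 44 (.thr 34 46 (.thr 33 32 (.dbl 17 29 49))))) (.rp 40 (.thr 1 61 (.thr 35 44 (.thr 17 29 (.thr 33 49 (.dbl 34 32 46))))) (.rp 35 (.thr 40 43 (.thr 8 59 (.thr 56 24 (.thr 9 57 (.dbl 11 10 26))))) (.rp 20 (.thr 35 44 (.dbl 43 40 47)) .nd)))))))) .nd)))))) .nd))))))) .nd)))))))))))))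 (.rp 8 (.thr 55 4 (.thr 46 34 (.thr 63 0 (.thr 12 29 (.dbl 51 25 59))))) (.rp 7 (.str 52 (.nv (.thr 34 46 (.thr 4 55 (.thr 0 63 (.thr 12 8 (.dbl 51 17 25))))) (.nv (.thr 55 4 (.thr 63 0 (.thr 51 59 (.thr 46 34 (.dbl 12 25 29))))) (.rp 63 (.str 26 (.nv (.thr 58 10 (.thr 55 4 (.thr 54 53 (.dbl 50 14 62)))) (.rp 62 (.thr 50 14 (.thr 4 55 (.thr 20 36 (.thr 16 31 (.thr 24 28 (.thr 25 27 (.thr 8 59 (.thr 51 12 (.thr 56 40 (.dbl 48 49 60)))))))))) (.rp 58 (.thr 34 46 (.thr 50 14 (.thr 18 2 (.thr 16 31 (.thr 17 19 (.thr 51 0 (.dbl 25 12 29))))))) (.rp 55 (.thr 34 46 (.thr 50 14 (.thr 18 2 (.thr 16 31 (.thr 17 19 (.thr 51 0 (.dbl 25 12 29))))))) (.rp 54 (.thr 34 46 (.thr 50 14 (.thr 18 2 (.thr 16 31 (.thr 17 19 (.thr 51 0 (.dbl 25 12 29))))))) (.rp 53 (.thr 34 46 (.thr 50 14 (.thr 18 2 (.thr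 16 31 (.thr 17 19 (.thr 51 0 (.dbl 25 12 29))))))) (.rp 50 (.thr 10 58 (.thr 4 55 (.thr 20 36 (.thr 16 31 (.thr 24 28 (.thr 25 27 (.thr 8 59 (.thr 51 12 (.thr 56 40 (.dbl 11 9 41)))))))))) (.rp 14 (.thr 10 58 (.thr 4 55 (.thr 20 36 (.thr 16 31 (.thr 24 28 (.thr 25 27 (.thr 8 59 (.thr 51 12 (.thr 56 40 (.dbl 11 9 41)))))))))) (.rp 10 (.thr 46 34 (.thr 14 50 (.thr 30 62 (.thr 4 55 (.thr 31 16 (.thr 29 28 (.thr 25 17 (.thr 36 20 (.thr 24 27 (.dbl 12 48 51)))))))))) (.rp 6 (.thr 34 46 (.thr 50 14 (.thr 10 58 (.thr 18 2 (.thr 16 31 (.thr 17 19 (.thr 51 0 (.dbl 25 12 29)))))))) (.rp 5 (.thr 50 14 (.thr 58 10 (.thr 54 62 (.dbl 55 4 53)))) (.rp 4 (.thr 34 46 (.thr 50 14 (.thr 18 2 (.thr 16 31 (.thr 17 19 (.thr 51 0 (.dbl 25 12 29))))))) .nd))))))))))))) (.rp 59 (.thr 4 55 (.thr 34 46 (.thr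 0 63 (.thr 51 17 (.dbl 12 8 25))))) (.rp 55 (.thr 0 63 (.thr 34 46 (.thr 51 17 (.thr 12 25 (.thr 4 8 (.thr 36 20 (.thr 48 24 (.thr 16 32 (.thr 26 31 (.dbl 50 14 49)))))))))) (.rp 51 (.str 26 (.nv (.thr 55 4 (.thr 53 54 (.thr 58 10 (.dbl 63 0 48)))) (.nv (.thr 14 50 (.thr 31 16 (.thr 63 0 (.thr 15 47 (.thr 12 13 (.dbl 46 29 34)))))) (.nv (.thr 50 14 (.thr 55 4 (.thr 54 53 (.dbl 58 10 62)))) .nd)))) (.rp 46 (.thr 55 4 (.thr 54 53 (.thr 63 0 (.thr 51 59 (.thr 60 57 (.thr 61 62 (.thr 41 1 (.thr 44 35 (.dbl 12 25 28))))))))) (.rp 34 (.thr 55 4 (.thr 54 53 (.thr 63 0 (.thr 51 59 (.thr 60 57 (.thr 61 62 (.thr 41 1 (.thr 44 35 (.dbl 12 25 28))))))))) (.rp 25 (.thr 55 4 (.thr 54 53 (.thr 0 63 (.thr 34 46 (.thr 51 17 (.thr 60 57 (.thr 48 56 (.thr 16 32 (.thr 26 31 (.dbl 50 14 49))))))))))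 (.rp 12 (.str 41 (.nv (.thr 0 63 (.thr 4 55 (.thr 20 36 (.dbl 40 43 60)))) (.nv (.thr 0 63 (.thr 1 61 (.thr 3 2 (.thr 35 44 (.thr 51 19 (.dbl 34 17 46)))))) (.nv (.thr 4 55 (.thr 36 20 (.thr 40 43 (.dbl 44 32 35)))) .nd)))) (.rp 8 (.thr 55 4 (.thr 46 34 (.thr 63 0 (.thr 12 29 (.dbl 51 25 59))))) (.rp 4 (.thr 63 0 (.thr 46 34 (.thr 12 29 (.thr 51 25 (.thr 55 59 (.thr 54 53 (.thr 60 57 (.thr 61 62 (.thr 41 1 (.dbl 44 28 35)))))))))) (.rp 0 (.str 41 (.nv (.thr 40 43 (.thr 4 55 (.thr 36 20 (.dbl 44 32 35)))) (.rp 55 (.thr 46 34 (.thr 44 35 (.thr 45 47 (.thr 61 1 (.thr 29 13 (.thr 12 63 (.dbl 25 17 51))))))) (.rp 44 (.thr 43 40 (.thr 55 4 (.thr 53 54 (.thr 61 1 (.thr 57 49 (.thr 25 9 (.thr 59 8 (.thr 12 51 (.thr 56 58 (.dbl 11 26 27)))))))))) (.rp 43 (.thr 34 46 (.thr 35 44 (.thr 33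 32 (.thr 55 4 (.thr 1 61 (.thr 17 49 (.thr 25 29 (.thr 54 53 (.thr 57 9 (.dbl 51 12 60)))))))))) (.rp 40 (.thr 46 34 (.thr 44 35 (.thr 45 47 (.thr 61 1 (.thr 29 13 (.thr 12 63 (.dbl 25 17 51))))))) (.rp 39 (.thr 46 34 (.thr 44 35 (.thr 43 40 (.thr 45 47 (.thr 61 1 (.thr 29 13 (.thr 12 63 (.dbl 25 17 51)))))))) (.rp 36 (.thr 46 34 (.thr 44 35 (.thr 45 47 (.thr 61 1 (.thr 29 13 (.thr 12 63 (.dbl 25 17 51))))))) (.rp 35 (.thr 43 40 (.thr 55 4 (.thr 53 54 (.thr 61 1 (.thr 57 49 (.thr 25 9 (.thr 59 8 (.thr 12 51 (.thr 56 58 (.dbl 11 26 27)))))))))) (.rp 32 (.thr 44 35 (.thr 55 4 (.thr 53 54 (.thr 61 1 (.thr 57 49 (.thr 25 9 (.thr 59 8 (.thr 12 51 (.thr 56 58 (.dbl 60 28 48)))))))))) (.rp 23 (.thr 44 35 (.thr 40 43 (.thr 36 32 (.dbl 4 20 55)))) (.rp 20 (.thr 46 34 (.thr 44 35 (.thr 45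 47 (.thr 61 1 (.thr 29 13 (.thr 12 63 (.dbl 25 17 51))))))) (.rp 4 (.thr 46 34 (.thr 44 35 (.thr 45 47 (.thr 61 1 (.thr 29 13 (.thr 12 63 (.dbl 25 17 51))))))) .nd))))))))))))) .nd)))))))))))))) (.rp 4 (.str 35 (.nv (.thr 34 46 (.thr 33 32 (.thr 0 63 (.thr 51 17 (.thr 3 19 (.thr 2 1 (.dbl 18 48 50))))))) (.nv (.thr 0 63 (.thr 34 46 (.thr 17 51 (.thr 33 32 (.thr 41 44 (.dbl 1 49 61)))))) (.nv (.thr 0 63 (.thr 41 44 (.thr 1 61 (.thr 3 2 (.thr 51 19 (.dbl 34 17 46)))))) (.rp 63 (.thr 34 46 (.thr 33 32 (.thr 41 44 (.thr 1 61 (.thr 17 49 (.thr 51 0 (.dbl 25 12 29))))))) (.rp 52 (.str 7 (.nv (.thr 0 63 (.thr 41 44 (.thr 1 61 (.thr 3 2 (.thr 51 19 (.thr 17 34 (.dbl 25 12 29))))))) (.nv (.thr 0 63 (.thr 34 46 (.thr 33 32 (.thr 51 17 (.thr 3 19 (.thr 2 1 (.dbl 18 48 50))))))) (.nv (.thr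 41 44 (.thr 43 40 (.thr 39 47 (.thr 23 55 (.dbl 63 0 3))))) (.rp 63 (.thr 34 46 (.thr 33 32 (.thr 41 44 (.thr 1 61 (.thr 17 49 (.thr 51 0 (.dbl 25 12 29))))))) (.rp 36 (.str 20 (.nv (.thr 0 63 (.thr 41 44 (.dbl 40 43 60))) (.rp 63 (.thr 34 46 (.thr 33 32 (.thr 41 44 (.thr 40 43 (.thr 1 61 (.thr 17 49 (.dbl 0 51 60))))))) (.rp 60 (.thr 0 63 (.thr 34 46 (.thr 33 32 (.thr 17 51 (.thr 1 49 (.dbl 41 44 61)))))) (.rp 44 (.thr 0 63 (.thr 40 60 (.thr 41 43 (.thr 34 46 (.thr 33 32 (.thr 17 51 (.dbl 1 49 61))))))) (.rp 43 (.thr 0 63 (.thr 60 40 (.thr 34 46 (.thr 51 17 (.thr 44 41 (.dbl 12 25 28)))))) (.rp 41 (.thr 0 63 (.thr 34 46 (.thr 33 32 (.thr 51 17 (.thr 3 19 (.thr 18 48 (.dbl 2 1 50))))))) (.rp 40 (.thr 0 63 (.thr 34 46 (.thr 51 17 (.thr 3 19 (.thr 1 2 (.dbl 41 44 61)))))) (.rp 0 (.thr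 34 46 (.thr 33 32 (.thr 41 44 (.thr 40 43 (.thr 1 61 (.thr 17 49 (.thr 25 29 (.thr 8 59 (.thr 56 24 (.thr 11 26 (.dbl 9 10 57))))))))))) .nd))))))))) (.rp 20 (.str 36 (.nv (.thr 41 44 (.thr 43 40 (.thr 39 47 (.thr 23 55 (.dbl 63 0 3))))) (.nv (.thr 34 46 (.thr 32 33 (.dbl 44 40 41))) (.rp 46 (.thr 0 63 (.thr 41 44 (.thr 1 61 (.thr 3 2 (.thr 51 19 (.thr 17 34 (.dbl 25 12 29))))))) (.rp 45 (.thr 0 63 (.thr 34 46 (.thr 33 32 (.thr 17 51 (.thr 1 49 (.dbl 41 44 61)))))) (.rp 44 (.thr 0 63 (.thr 34 46 (.thr 32 33 (.thr 51 17 (.thr 48 16 (.dbl 12 24 25)))))) (.rp 41 (.thr 0 63 (.thr 34 46 (.thr 51 17 (.thr 12 25 (.thr 48 24 (.dbl 32 16 33)))))) (.rp 40 (.thr 0 63 (.thr 34 46 (.thr 33 32 (.thr 17 51 (.thr 1 49 (.dbl 41 44 61)))))) .nd)))))))) (.rp 3 (.thr 0 63 (.thr 34 46 (.thr 33 32 (.thr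 17 51 (.thr 1 49 (.dbl 41 44 61)))))) (.rp 0 (.thr 41 44 (.thr 43 40 (.thr 39 47 (.thr 23 55 (.thr 3 63 (.thr 51 19 (.dbl 15 11 27))))))) .nd))))))))) (.rp 51 (.thr 0 63 (.thr 34 46 (.thr 32 33 (.thr 16 48 (.thr 26 31 (.thr 50 14 (.thr 41 44 (.thr 1 61 (.dbl 2 3 18))))))))) (.rp 46 (.thr 0 63 (.thr 41 44 (.thr 1 61 (.thr 3 2 (.thr 51 19 (.thr 17 34 (.dbl 25 12 29))))))) (.rp 34 (.thr 63 0 (.thr 41 44 (.thr 43 40 (.thr 3 23 (.thr 51 19 (.thr 59 55 (.dbl 25 8 12))))))) (.rp 17 (.thr 63 0 (.thr 41 44 (.thr 43 40 (.thr 3 23 (.thr 51 19 (.thr 59 55 (.dbl 25 8 12))))))) (.rp 7 (.str 52 (.nv (.thr 34 46 (.thr 33 32 (.thr 0 63 (.thr 51 17 (.thr 3 19 (.thr 2 1 (.dbl 18 48 50))))))) (.nv (.thr 0 63 (.thr 34 46 (.thr 32 33 (.thr 41 44 (.thr 48 16 (.thr 60 56 (.dbl 40 20 43))))))) (.nv (.thr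 0 63 (.thr 41 44 (.thr 1 61 (.thr 3 2 (.thr 51 19 (.dbl 34 17 46)))))) (.rp 63 (.thr 34 46 (.thr 33 32 (.thr 41 44 (.thr 1 61 (.thr 17 49 (.thr 51 0 (.dbl 25 12 29))))))) (.rp 46 (.thr 0 63 (.thr 41 44 (.thr 1 61 (.thr 3 2 (.thr 51 19 (.thr 17 34 (.dbl 25 12 29))))))) (.rp 34 (.thr 63 0 (.thr 41 44 (.thr 43 40 (.thr 3 23 (.thr 51 19 (.thr 59 55 (.thr 39 47 (.dbl 27 11 15)))))))) (.rp 6 (.str 5 (.nv (.thr 34 46 (.thr 33 32 (.thr 0 63 (.thr 51 17 (.thr 3 19 (.thr 2 1 (.dbl 18 48 50))))))) (.nv (.thr 0 63 (.thr 10 15 (.thr 26 58 (.thr 41 44 (.thr 40 43 (.thr 60 20 (.dbl 56 11 48))))))) (.nv (.thr 0 63 (.thr 34 46 (.thr 41 44 (.thr 1 61 (.thr 51 17 (.dbl 3 2 19)))))) (.rp 63 (.thr 34 46 (.thr 33 32 (.thr 41 44 (.thr 1 61 (.thr 17 49 (.thr 51 0 (.dbl 25 12 29))))))) (.rp 3 (.thr 0 63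 (.thr 34 46 (.thr 33 32 (.thr 17 51 (.thr 1 49 (.dbl 41 44 61)))))) (.rp 0 (.thr 34 46 (.thr 33 32 (.thr 41 44 (.thr 1 61 (.thr 17 49 (.thr 25 29 (.dbl 9 13 57))))))) .nd))))))) (.rp 5 (.str 6 (.nv (.thr 41 44 (.thr 43 40 (.thr 63 0 (.thr 3 23 (.thr 12 9 (.dbl 46 29 34)))))) (.nv (.thr 0 63 (.thr 41 44 (.thr 1 61 (.thr 3 2 (.thr 12 9 (.dbl 51 19 25)))))) (.nv (.thr 34 46 (.thr 33 32 (.thr 41 44 (.thr 1 61 (.thr 17 49 (.dbl 0 51 63)))))) (.nv (.thr 0 63 (.thr 34 46 (.thr 51 17 (.thr 3 19 (.dbl 12 9 25))))) (.rp 63 (.thr 34 46 (.thr 33 32 (.thr 41 44 (.thr 1 61 (.thr 17 49 (.thr 51 0 (.dbl 25 12 29))))))) (.rp 0 (.thr 34 46 (.thr 33 32 (.thr 41 44 (.thr 1 61 (.thr 17 49 (.thr 25 29 (.thr 12 51 (.dbl 9 3 57)))))))) .nd))))))) (.rp 0 (.thr 34 46 (.thr 33 32 (.thr 41 44 (.thr 40 43 (.thr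 1 61 (.thr 17 49 (.thr 25 29 (.thr 8 59 (.thr 56 24 (.thr 11 26 (.dbl 9 10 57))))))))))) .nd)))))))))) (.rp 1 (.thr 63 0 (.thr 46 34 (.thr 41 44 (.thr 43 40 (.thr 3 23 (.thr 51 19 (.dbl 12 25 29))))))) (.rp 0 (.thr 34 46 (.thr 33 32 (.thr 41 44 (.thr 40 43 (.thr 1 61 (.thr 17 49 (.thr 25 29 (.thr 8 59 (.thr 56 24 (.thr 11 26 (.dbl 9 10 57))))))))))) .nd))))))))))))) (.rp 0 (.str 12 (.nv (.thr 46 34 (.thr 29 63 (.dbl 25 17 51))) (.rp 63 (.str 14 (.nv (.thr 4 55 (.thr 25 51 (.thr 59 8 (.thr 26 50 (.thr 27 24 (.thr 11 43 (.thr 56 41 (.dbl 58 10 57)))))))) (.nv (.thr 4 55 (.thr 26 50 (.thr 10 58 (.thr 6 2 (.thr 3 9 (.thr 7 5 (.dbl 15 11 13))))))) (.nv (.thr 15 13 (.thr 46 34 (.thr 30 62 (.thr 60 45 (.thr 28 44 (.thr 29 31 (.dbl 25 17 51))))))) (.rp 52 (.str 7 (.nv (.thr 15 13 (.thr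 3 11 (.thr 6 9 (.thr 10 2 (.dbl 26 50 58))))) (.nv (.thr 15 13 (.thr 55 4 (.thr 39 23 (.dbl 51 25 27)))) (.nv (.thr 4 55 (.thr 26 50 (.thr 6 5 (.dbl 10 2 58)))) .nd)))) (.rp 51 (.thr 15 13 (.thr 26 50 (.thr 10 58 (.thr 6 2 (.thr 3 9 (.thr 7 11 (.dbl 4 5 55))))))) (.rp 34 (.thr 55 4 (.thr 26 50 (.thr 10 58 (.thr 25 51 (.thr 17 29 (.thr 8 59 (.thr 9 11 (.dbl 6 2 3)))))))) (.rp 7 (.str 52 (.nv (.thr 4 55 (.thr 15 13 (.thr 36 20 (.thr 46 34 (.thr 30 62 (.thr 48 24 (.dbl 60 45 56))))))) (.nv (.thr 4 55 (.thr 36 20 (.thr 48 24 (.thr 51 25 (.dbl 50 26 49))))) (.nv (.thr 46 34 (.thr 62 30 (.thr 55 4 (.thr 54 53 (.dbl 50 26 58))))) (.rp 55 (.thr 46 34 (.thr 30 62 (.thr 26 50 (.thr 31 16 (.thr 29 28 (.dbl 25 17 51)))))) (.rp 51 (.str 25 (.nv (.thr 17 29 (.thr 26 50 (.thr 24 27 (.thr 48 36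 (.thr 56 60 (.dbl 8 40 59)))))) (.nv (.thr 17 29 (.thr 46 34 (.thr 55 4 (.thr 54 53 (.thr 62 30 (.dbl 50 26 58)))))) (.nv (.thr 4 55 (.thr 59 8 (.thr 26 50 (.thr 24 27 (.dbl 36 20 48))))) (.rp 59 (.thr 55 4 (.thr 46 34 (.thr 17 29 (.thr 62 30 (.thr 54 53 (.dbl 50 26 58)))))) (.rp 55 (.thr 59 8 (.thr 26 50 (.thr 58 10 (.thr 56 57 (.thr 24 27 (.dbl 48 36 60)))))) (.rp 50 (.thr 34 46 (.thr 29 17 (.thr 55 4 (.thr 53 54 (.thr 13 15 (.thr 61 45 (.thr 41 1 (.dbl 57 9 49)))))))) (.rp 48 (.thr 46 34 (.thr 17 29 (.thr 50 26 (.thr 15 13 (.thr 55 4 (.thr 54 53 (.thr 58 62 (.thr 59 8 (.thr 57 56 (.thr 41 9 (.thr 44 35 (.thr 60 28 (.dbl 45 30 47))))))))))))) (.rp 26 (.thr 46 34 (.thr 17 29 (.thr 30 62 (.thr 4 55 (.thr 59 8 (.thr 36 20 (.thr 48 24 (.thr 15 13 (.dbl 60 45 56))))))))) (.rp 17 (.thr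 34 46 (.thr 26 50 (.thr 4 55 (.thr 59 8 (.thr 36 20 (.dbl 24 27 48)))))) .nd)))))))))) (.rp 48 (.thr 4 55 (.thr 20 36 (.thr 26 50 (.thr 16 31 (.thr 24 28 (.dbl 25 27 51)))))) (.rp 4 (.thr 46 34 (.thr 30 62 (.thr 26 50 (.thr 31 16 (.thr 29 28 (.dbl 25 17 51)))))) .nd)))))))) .nd)))))))) (.rp 52 (.str 7 (.nv (.thr 46 34 (.thr 29 63 (.dbl 25 17 51))) (.rp 63 (.thr 4 55 (.thr 6 5 (.thr 3 9 (.thr 15 11 (.thr 51 25 (.thr 27 39 (.thr 19 35 (.thr 31 23 (.thr 26 16 (.dbl 14 13 50)))))))))) (.rp 51 (.str 41 (.nv (.thr 4 55 (.thr 6 5 (.thr 3 9 (.thr 43 40 (.thr 63 23 (.dbl 46 29 34)))))) (.nv (.thr 44 35 (.thr 60 28 (.thr 61 1 (.thr 63 62 (.dbl 46 29 34))))) (.nv (.thr 35 44 (.thr 55 4 (.thr 39 23 (.dbl 43 40 47)))) (.rp 34 (.str 17 (.nv (.thr 1 61 (.thr 25 29 (.thr 9 57 (.thr 3 6 (.thr 13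 5 (.dbl 15 11 14)))))) (.nv (.thr 35 44 (.thr 55 4 (.thr 39 23 (.dbl 43 40 47)))) .nd))) (.rp 17 (.thr 34 46 (.thr 43 40 (.thr 35 44 (.thr 55 4 (.dbl 39 23 47))))) .nd)))))) (.rp 46 (.thr 55 4 (.thr 39 23 (.thr 51 25 (.thr 15 27 (.thr 63 59 (.thr 31 47 (.thr 26 16 (.dbl 14 13 50)))))))) (.rp 34 (.thr 55 4 (.thr 39 23 (.thr 51 25 (.thr 15 27 (.thr 63 59 (.thr 31 47 (.thr 26 16 (.dbl 14 13 50)))))))) (.rp 29 (.thr 55 4 (.thr 39 23 (.thr 51 25 (.thr 15 27 (.thr 63 59 (.thr 31 47 (.thr 26 16 (.dbl 14 13 50)))))))) (.rp 25 (.thr 4 55 (.thr 6 5 (.thr 3 9 (.thr 15 11 (.thr 46 34 (.thr 63 29 (.thr 31 47 (.thr 26 16 (.dbl 14 13 50))))))))) (.rp 17 (.thr 55 4 (.thr 46 34 (.thr 51 25 (.dbl 63 29 59)))) .nd))))))))) (.rp 51 (.str 41 (.nv (.thr 4 55 (.thr 40 43 (.thr 44 35 (.thr 36 32 (.thr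 48 24 (.thr 52 20 (.dbl 60 28 56))))))) (.nv (.thr 44 35 (.thr 61 1 (.thr 60 28 (.thr 63 62 (.dbl 46 29 34))))) (.rp 63 (.thr 40 43 (.thr 44 35 (.thr 36 32 (.thr 60 28 (.thr 48 24 (.thr 52 56 (.dbl 4 20 55))))))) (.rp 60 (.thr 40 43 (.thr 35 44 (.thr 34 46 (.thr 33 32 (.thr 1 61 (.thr 17 49 (.thr 25 29 (.thr 8 59 (.thr 56 24 (.thr 11 26 (.dbl 9 10 57))))))))))) (.rp 52 (.str 7 (.nv (.thr 4 55 (.thr 6 5 (.thr 3 9 (.thr 43 40 (.thr 63 23 (.dbl 46 29 34)))))) (.nv (.thr 44 35 (.thr 60 28 (.thr 61 1 (.thr 63 62 (.dbl 46 29 34))))) (.nv (.thr 35 44 (.thr 55 4 (.thr 39 23 (.dbl 43 40 47)))) (.rp 34 (.str 17 (.nv (.thr 1 61 (.thr 25 29 (.thr 9 57 (.thr 3 6 (.thr 13 5 (.dbl 15 11 14)))))) (.nv (.thr 35 44 (.thr 55 4 (.thr 39 23 (.dbl 43 40 47)))) .nd))) (.rp 17 (.thr 34 46 (.thr 43 40 (.thr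 35 44 (.thr 55 4 (.dbl 39 23 47))))) .nd)))))) (.rp 44 (.thr 1 61 (.thr 40 43 (.str 25 (.nv (.thr 34 46 (.thr 9 57 (.thr 5 13 (.thr 6 3 (.dbl 4 7 55))))) (.nv (.thr 8 59 (.thr 56 24 (.thr 11 26 (.dbl 9 10 57)))) (.nv (.thr 9 57 (.thr 5 13 (.thr 4 55 (.dbl 6 3 7)))) (.rp 63 (.thr 9 57 (.thr 5 13 (.thr 4 55 (.thr 59 8 (.dbl 6 3 7))))) (.rp 57 (.thr 8 59 (.thr 56 24 (.thr 11 26 (.thr 9 10 (.thr 5 13 (.thr 6 3 (.dbl 4 7 55))))))) (.rp 55 (.thr 9 57 (.thr 13 5 (.thr 6 3 (.thr 14 15 (.thr 10 2 (.dbl 26 50 58)))))) (.rp 52 (.str 7 (.nv (.thr 34 46 (.thr 9 57 (.thr 5 13 (.dbl 6 3 4)))) (.nv (.thr 8 59 (.thr 56 24 (.thr 11 26 (.dbl 9 10 57)))) (.nv (.thr 4 55 (.thr 5 6 (.dbl 9 13 57))) (.rp 57 (.thr 8 59 (.thr 56 24 (.thr 11 26 (.thr 9 10 (.dbl 3 6 15))))) (.rp 34 (.thr 17 29 (.thr 4 55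 (.thr 5 6 (.dbl 9 13 57)))) (.rp 9 (.thr 34 46 (.thr 17 29 (.thr 8 59 (.thr 33 49 (.thr 24 56 (.thr 48 36 (.thr 18 3 (.thr 50 2 (.dbl 26 14 27))))))))) .nd))))))) (.rp 34 (.thr 17 29 (.thr 9 57 (.thr 4 55 (.thr 6 3 (.dbl 5 7 13))))) (.rp 9 (.thr 17 29 (.thr 33 49 (.thr 34 46 (.thr 8 59 (.thr 24 56 (.thr 48 36 (.thr 18 3 (.thr 50 2 (.dbl 26 14 27))))))))) (.rp 7 (.str 52 (.nv (.thr 4 55 (.thr 59 8 (.thr 36 20 (.thr 48 24 (.thr 57 9 (.dbl 56 58 60)))))) (.nv (.thr 17 29 (.thr 4 55 (.thr 36 20 (.thr 24 48 (.dbl 8 56 59))))) (.nv (.thr 9 57 (.thr 8 59 (.thr 56 24 (.dbl 11 10 26)))) (.rp 59 (.thr 55 4 (.str 26 (.nv (.thr 27 24 (.thr 9 57 (.thr 14 50 (.dbl 13 5 15)))) (.nv (.thr 11 56 (.thr 58 10 (.thr 50 14 (.dbl 54 53 62)))) (.nv (.thr 53 54 (.thr 58 10 (.thr 48 63 (.dbl 24 27 36))))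 (.nv (.thr 17 29 (.thr 14 50 (.thr 13 15 (.dbl 9 5 57)))) (.nv (.thr 50 14 (.thr 54 53 (.dbl 58 10 62))) (.rp 17 (.thr 34 46 (.thr 54 53 (.thr 58 10 (.dbl 50 14 62)))) (.rp 6 (.str 5 (.nv (.thr 17 29 (.thr 13 9 (.dbl 14 15 50))) (.nv (.thr 50 14 (.thr 54 53 (.dbl 58 10 62))) (.nv (.dbl 9 13 57) (.rp 27 (.thr 11 56 (.dbl 9 13 57)) (.rp 17 (.thr 34 46 (.dbl 9 13 57)) (.rp 11 (.thr 27 24 (.dbl 9 13 57)) .nd))))))) (.rp 5 (.str 6 (.nv (.thr 17 29 (.thr 14 50 (.dbl 10 2 58))) (.nv (.dbl 9 3 57) (.rp 27 (.thr 11 56 (.dbl 9 3 57)) (.rp 17 (.thr 34 46 (.dbl 9 3 57)) (.rp 15 (.thr 10 58 (.dbl 9 3 57)) (.rp 11 (.thr 27 24 (.dbl 9 3 57)) (.rp 10 (.str 15 (.nv (.thr 11 56 (.dbl 9 3 57)) (.nv (.dbl 14 13 50) (.rp 34 (.thr 17 29 (.dbl 14 13 50)) (.rp 17 (.thr 34 46 (.dbl 14 13 50)) (.rp 11 (.thr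 27 24 (.dbl 14 13 50)) .nd)))))) .nd)))))))) .nd)))))))))) (.rp 56 (.thr 17 29 (.thr 33 49 (.thr 4 55 (.thr 36 20 (.thr 48 24 (.thr 3 18 (.dbl 9 6 57))))))) (.rp 55 (.thr 57 9 (.thr 59 8 (.thr 56 58 (.thr 48 60 (.thr 24 36 (.dbl 26 11 27)))))) (.rp 24 (.thr 57 9 (.thr 55 4 (.thr 53 54 (.thr 59 8 (.thr 58 56 (.thr 63 48 (.dbl 29 17 46))))))) (.rp 17 (.thr 34 46 (.thr 9 57 (.thr 8 59 (.thr 56 24 (.dbl 11 10 26))))) (.rp 8 (.thr 17 29 (.thr 33 49 (.thr 4 55 (.thr 36 20 (.thr 48 24 (.thr 3 18 (.dbl 9 6 57))))))) .nd)))))))))) .nd))))))))))))) (.rp 35 (.thr 1 61 (.thr 34 46 (.str 3 (.nv (.thr 9 6 (.thr 13 5 (.thr 15 14 (.thr 25 57 (.thr 43 40 (.thr 59 8 (.dbl 11 7 27))))))) (.nv (.thr 4 55 (.thr 6 9 (.thr 7 5 (.thr 15 11 (.thr 14 13 (.thr 10 2 (.dbl 26 50 58))))))) (.nv (.thr 9 6 (.thr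 25 57 (.thr 8 59 (.thr 40 43 (.thr 56 24 (.dbl 11 10 26)))))) (.nv (.thr 9 6 (.thr 43 40 (.thr 23 63 (.thr 55 4 (.thr 7 39 (.thr 15 11 (.dbl 13 5 14))))))) (.rp 52 (.str 7 (.nv (.thr 9 6 (.thr 13 5 (.dbl 15 11 14))) (.nv (.thr 43 40 (.thr 23 63 (.dbl 55 4 39))) (.nv (.thr 6 9 (.dbl 4 5 55)) .nd)))) (.rp 11 (.thr 9 6 (.thr 13 5 (.thr 15 14 (.thr 43 40 (.thr 63 23 (.thr 31 47 (.thr 26 16 (.thr 25 57 (.thr 24 27 (.thr 48 36 (.dbl 58 10 53))))))))))) (.rp 9 (.thr 43 40 (.thr 23 63 (.thr 55 4 (.thr 7 39 (.thr 11 15 (.thr 27 59 (.thr 31 19 (.dbl 26 16 56)))))))) (.rp 7 (.str 52 (.nv (.thr 4 55 (.thr 9 6 (.thr 25 57 (.thr 17 29 (.thr 36 20 (.thr 48 24 (.dbl 33 18 49))))))) (.nv (.thr 9 6 (.thr 5 13 (.thr 25 57 (.thr 8 59 (.thr 11 10 (.thr 56 26 (.dbl 40 24 43))))))) (.nv (.thr 40 43 (.thr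 4 55 (.thr 36 20 (.thr 44 32 (.thr 48 24 (.dbl 60 28 56)))))) (.rp 63 (.thr 43 40 (.thr 9 6 (.thr 25 57 (.thr 4 55 (.thr 59 8 (.thr 27 11 (.thr 24 26 (.dbl 36 20 48)))))))) (.rp 60 (.thr 40 43 (.thr 9 6 (.thr 4 55 (.thr 36 20 (.thr 24 48 (.thr 8 56 (.dbl 25 57 59))))))) (.rp 59 (.thr 43 40 (.thr 55 4 (.thr 53 54 (.thr 63 23 (.thr 48 58 (.thr 33 18 (.thr 17 49 (.thr 25 29 (.dbl 9 6 57))))))))) (.rp 55 (.thr 43 40 (.thr 9 6 (.thr 25 57 (.thr 23 63 (.thr 59 8 (.thr 27 11 (.thr 31 19 (.dbl 26 16 24)))))))) (.rp 48 (.thr 40 43 (.thr 9 6 (.thr 25 57 (.thr 8 59 (.thr 11 10 (.dbl 56 24 26)))))) (.rp 40 (.str 60 (.nv (.thr 6 9 (.thr 56 48 (.thr 26 11 (.thr 10 58 (.dbl 14 2 50))))) (.nv (.thr 4 55 (.thr 36 20 (.dbl 48 24 56))) (.rp 63 (.thr 9 6 (.thr 48 56 (.thr 33 18 (.thr 17 49 (.dbl 25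 29 57))))) (.rp 56 (.thr 9 6 (.thr 13 5 (.thr 4 55 (.thr 15 14 (.thr 28 44 (.thr 25 57 (.thr 29 17 (.dbl 30 31 45)))))))) (.rp 48 (.thr 9 6 (.thr 13 5 (.thr 4 55 (.thr 15 14 (.thr 28 44 (.thr 25 57 (.thr 29 17 (.dbl 30 31 45)))))))) .nd)))))) (.rp 24 (.thr 43 40 (.thr 55 4 (.thr 53 54 (.thr 63 23 (.thr 48 58 (.thr 33 18 (.thr 17 49 (.thr 25 29 (.dbl 9 6 57))))))))) .nd))))))))))) (.rp 6 (.thr 43 40 (.thr 23 63 (.thr 55 4 (.thr 7 39 (.thr 11 15 (.thr 27 59 (.thr 31 19 (.dbl 26 16 56)))))))) .nd)))))))))))) (.rp 34 (.str 17 (.nv (.thr 25 29 (.thr 57 9 (.thr 59 8 (.thr 56 58 (.thr 11 26 (.dbl 43 27 40)))))) (.nv (.thr 44 35 (.thr 60 28 (.thr 61 1 (.thr 63 62 (.dbl 29 25 46))))) (.rp 52 (.str 7 (.nv (.thr 1 61 (.thr 25 29 (.thr 9 57 (.thr 3 6 (.thr 13 5 (.dbl 15 11 14)))))) (.nv (.thr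 35 44 (.thr 55 4 (.thr 39 23 (.dbl 43 40 47)))) .nd))) (.rp 29 (.thr 40 43 (.thr 44 35 (.thr 4 55 (.thr 1 61 (.thr 36 32 (.thr 33 49 (.thr 48 24 (.thr 52 20 (.dbl 60 28 56))))))))) (.rp 25 (.thr 35 44 (.thr 1 61 (.str 15 (.nv (.thr 43 40 (.thr 47 39 (.thr 31 63 (.thr 26 16 (.dbl 14 13 50))))) (.nv (.thr 13 14 (.thr 9 5 (.thr 3 6 (.thr 7 11 (.thr 55 4 (.thr 23 39 (.dbl 43 40 63))))))) (.rp 63 (.thr 13 14 (.thr 9 5 (.thr 3 6 (.thr 7 11 (.thr 43 40 (.thr 39 47 (.dbl 55 4 23))))))) (.rp 55 (.thr 13 14 (.thr 9 5 (.thr 3 6 (.thr 43 40 (.thr 47 39 (.dbl 63 23 31)))))) (.rp 52 (.str 7 (.nv (.thr 49 33 (.thr 43 40 (.thr 39 47 (.dbl 55 4 23)))) (.nv (.thr 13 14 (.thr 3 11 (.dbl 9 5 6))) (.rp 28 (.str 19 (.nv (.thr 43 40 (.thr 39 47 (.dbl 55 4 23))) (.nv (.thr 13 14 (.thr 3 11 (.dbl 9 5 6)))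 (.rp 13 (.thr 49 33 (.thr 3 11 (.thr 6 9 (.dbl 4 5 55)))) .nd)))) (.rp 19 (.str 28 (.nv (.thr 49 33 (.thr 43 40 (.thr 39 47 (.dbl 55 4 23)))) (.nv (.thr 13 14 (.thr 3 11 (.dbl 9 5 6))) .nd))) .nd))))) (.rp 43 (.thr 14 13 (.thr 49 33 (.thr 26 50 (.thr 10 58 (.thr 11 56 (.thr 9 8 (.dbl 3 6 7))))))) (.rp 40 (.thr 14 13 (.thr 49 33 (.thr 4 55 (.thr 26 50 (.thr 10 58 (.thr 11 56 (.thr 7 3 (.dbl 6 2 5)))))))) (.rp 39 (.thr 14 13 (.thr 49 33 (.thr 26 50 (.thr 10 58 (.thr 11 56 (.thr 9 8 (.dbl 3 6 7))))))) (.rp 28 (.str 19 (.nv (.thr 13 14 (.thr 9 5 (.thr 3 6 (.thr 18 16 (.dbl 33 48 49))))) (.nv (.thr 49 33 (.thr 43 40 (.thr 47 39 (.thr 31 63 (.dbl 16 18 26))))) (.nv (.thr 16 18 (.thr 26 31 (.dbl 14 13 50))) (.rp 52 (.str 7 (.nv (.thr 43 40 (.thr 39 47 (.dbl 55 4 23))) (.nv (.thr 13 14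 (.thr 3 11 (.dbl 9 5 6))) (.rp 13 (.thr 49 33 (.thr 3 11 (.thr 6 9 (.dbl 4 5 55)))) .nd)))) (.rp 49 (.thr 13 14 (.thr 43 40 (.thr 47 39 (.thr 16 18 (.dbl 31 26 63))))) (.rp 18 (.thr 43 40 (.thr 47 39 (.thr 31 63 (.thr 26 16 (.dbl 14 13 50))))) (.rp 16 (.thr 13 14 (.thr 9 5 (.thr 3 6 (.thr 43 40 (.thr 47 39 (.dbl 63 23 31)))))) (.rp 7 (.str 52 (.nv (.thr 13 14 (.thr 9 5 (.thr 18 16 (.thr 33 49 (.dbl 3 6 48))))) (.nv (.thr 49 33 (.thr 43 40 (.thr 47 39 (.thr 31 63 (.dbl 16 18 26))))) (.nv (.thr 16 18 (.thr 26 31 (.dbl 14 13 50))) (.rp 49 (.thr 13 14 (.thr 16 18 (.thr 43 40 (.thr 47 39 (.dbl 31 26 63))))) (.rp 18 (.thr 43 40 (.thr 47 39 (.thr 31 63 (.thr 26 16 (.dbl 14 13 50))))) (.rp 16 (.thr 13 14 (.thr 9 5 (.thr 43 40 (.thr 47 39 (.thr 63 31 (.dbl 3 6 23)))))) .nd))))))) .nd)))))))))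 (.rp 19 (.str 28 (.nv (.thr 13 14 (.thr 9 5 (.thr 43 40 (.thr 39 47 (.thr 55 4 (.thr 7 23 (.dbl 3 6 11))))))) (.nv (.thr 14 13 (.thr 49 33 (.thr 26 50 (.thr 31 16 (.thr 29 30 (.dbl 63 46 47)))))) (.nv (.thr 13 14 (.thr 9 5 (.thr 3 6 (.thr 7 11 (.thr 55 4 (.thr 23 39 (.dbl 43 40 63))))))) (.rp 52 (.str 7 (.nv (.thr 49 33 (.thr 43 40 (.thr 39 47 (.dbl 55 4 23)))) (.nv (.thr 13 14 (.thr 3 11 (.dbl 9 5 6))) .nd))) (.rp 14 (.thr 43 40 (.thr 47 39 (.thr 31 63 (.thr 26 16 (.thr 10 58 (.thr 11 56 (.thr 7 3 (.thr 59 27 (.thr 4 55 (.thr 5 6 (.dbl 9 8 13))))))))))) (.rp 13 (.thr 49 33 (.thr 43 40 (.thr 47 39 (.thr 31 63 (.thr 26 16 (.thr 10 58 (.thr 14 50 (.thr 11 56 (.thr 7 3 (.thr 59 27 (.thr 4 55 (.dbl 6 2 5)))))))))))) (.rp 7 (.str 52 (.nv (.thr 14 13 (.thr 49 33 (.thr 26 50 (.thr 16 31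 (.thr 20 24 (.dbl 4 36 55)))))) (.nv (.thr 13 14 (.thr 9 5 (.thr 43 40 (.thr 47 39 (.thr 63 31 (.dbl 3 6 23)))))) (.nv (.thr 14 13 (.thr 49 33 (.thr 26 50 (.thr 31 16 (.thr 29 30 (.dbl 63 46 47)))))) (.rp 31 (.thr 14 13 (.thr 49 33 (.thr 40 43 (.thr 26 50 (.thr 56 11 (.thr 24 8 (.dbl 48 36 60))))))) (.rp 14 (.thr 43 40 (.thr 47 39 (.thr 31 63 (.thr 30 29 (.thr 26 16 (.thr 56 11 (.dbl 60 45 48))))))) (.rp 13 (.thr 49 33 (.thr 43 40 (.thr 47 39 (.thr 31 63 (.thr 26 16 (.thr 58 10 (.thr 50 14 (.thr 55 4 (.dbl 54 53 62))))))))) .nd))))))) .nd)))))))) (.rp 14 (.thr 43 40 (.thr 47 39 (.thr 4 55 (.thr 63 31 (.thr 3 23 (.thr 7 11 (.dbl 6 5 9))))))) (.rp 13 (.thr 49 33 (.thr 43 40 (.thr 47 39 (.thr 4 55 (.thr 63 31 (.thr 3 23 (.thr 7 11 (.dbl 6 5 9)))))))) (.rp 7 (.str 52 (.nv (.thr 43 40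 (.thr 47 39 (.thr 31 63 (.thr 26 16 (.dbl 14 13 50))))) (.nv (.thr 14 13 (.thr 49 33 (.thr 26 50 (.thr 10 58 (.thr 11 56 (.thr 9 8 (.dbl 6 2 3))))))) (.nv (.thr 13 14 (.thr 9 5 (.thr 43 40 (.thr 47 39 (.thr 63 31 (.dbl 3 6 23)))))) (.rp 40 (.thr 13 14 (.thr 9 5 (.thr 3 6 (.thr 4 55 (.thr 33 49 (.thr 48 18 (.dbl 36 20 24))))))) (.rp 28 (.str 19 (.nv (.thr 13 14 (.thr 9 5 (.thr 18 16 (.thr 33 49 (.dbl 3 6 48))))) (.nv (.thr 49 33 (.thr 43 40 (.thr 47 39 (.thr 31 63 (.dbl 16 18 26))))) (.nv (.thr 16 18 (.thr 26 31 (.dbl 14 13 50))) (.rp 49 (.thr 13 14 (.thr 16 18 (.thr 43 40 (.thr 47 39 (.dbl 31 26 63))))) (.rp 18 (.thr 43 40 (.thr 47 39 (.thr 31 63 (.thr 26 16 (.dbl 14 13 50))))) (.rp 16 (.thr 13 14 (.thr 9 5 (.thr 43 40 (.thr 47 39 (.thr 63 31 (.dbl 3 6 23)))))) .nd))))))) (.rp 19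 (.str 28 (.nv (.thr 14 13 (.thr 49 33 (.thr 26 50 (.thr 16 31 (.thr 20 24 (.dbl 4 36 55)))))) (.nv (.thr 13 14 (.thr 9 5 (.thr 43 40 (.thr 47 39 (.thr 63 31 (.dbl 3 6 23)))))) (.nv (.thr 14 13 (.thr 49 33 (.thr 26 50 (.thr 31 16 (.thr 29 30 (.dbl 63 46 47)))))) (.rp 31 (.thr 14 13 (.thr 49 33 (.thr 40 43 (.thr 26 50 (.thr 56 11 (.thr 24 8 (.dbl 48 36 60))))))) (.rp 14 (.thr 43 40 (.thr 47 39 (.thr 31 63 (.thr 30 29 (.thr 26 16 (.thr 56 11 (.dbl 60 45 48))))))) (.rp 13 (.thr 49 33 (.thr 43 40 (.thr 47 39 (.thr 31 63 (.thr 26 16 (.thr 58 10 (.thr 50 14 (.thr 55 4 (.dbl 54 53 62))))))))) .nd))))))) (.rp 14 (.thr 43 40 (.thr 47 39 (.thr 63 31 (.thr 3 23 (.thr 55 4 (.thr 53 54 (.thr 48 58 (.dbl 33 18 49)))))))) (.rp 13 (.thr 49 33 (.thr 43 40 (.thr 47 39 (.thr 31 63 (.thr 26 16 (.thr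 58 10 (.thr 50 14 (.thr 55 4 (.dbl 54 53 62))))))))) .nd))))))))) .nd)))))))))))))))) (.rp 7 (.str 52 (.nv (.thr 29 25 (.thr 44 35 (.thr 61 1 (.thr 63 46 (.dbl 60 28 62))))) (.nv (.thr 25 29 (.thr 55 4 (.thr 53 54 (.thr 57 9 (.dbl 61 1 49))))) (.nv (.thr 40 43 (.thr 4 55 (.thr 36 20 (.dbl 44 32 35)))) .nd)))) .nd))))))) (.rp 28 (.thr 40 43 (.thr 35 44 (.thr 34 46 (.thr 33 32 (.thr 1 61 (.thr 17 49 (.thr 25 29 (.thr 8 59 (.thr 56 24 (.thr 11 26 (.dbl 9 10 57))))))))))) (.rp 19 (.thr 40 43 (.thr 35 44 (.thr 34 46 (.thr 33 32 (.thr 1 61 (.thr 17 49 (.thr 25 29 (.thr 8 59 (.thr 56 24 (.thr 11 26 (.dbl 9 10 57))))))))))) (.rp 17 (.thr 34 46 (.thr 40 43 (.thr 44 35 (.thr 36 32 (.thr 60 28 (.thr 4 55 (.thr 52 20 (.dbl 48 24 56)))))))) (.rp 7 (.str 52 (.nv (.thr 34 46 (.thr 40 43 (.thr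 44 35 (.thr 36 32 (.dbl 4 20 55))))) (.nv (.thr 44 35 (.thr 60 28 (.thr 61 1 (.thr 63 62 (.dbl 46 29 34))))) (.nv (.thr 40 43 (.thr 4 55 (.thr 36 20 (.dbl 44 32 35)))) (.rp 44 (.thr 61 1 (.thr 4 55 (.thr 36 20 (.thr 48 24 (.thr 60 56 (.thr 63 62 (.dbl 46 29 34))))))) (.rp 35 (.thr 4 55 (.thr 36 20 (.thr 48 24 (.thr 60 56 (.thr 40 43 (.dbl 44 28 32)))))) (.rp 34 (.str 17 (.nv (.thr 29 25 (.thr 44 35 (.thr 61 1 (.thr 63 46 (.dbl 60 28 62))))) (.nv (.thr 25 29 (.thr 55 4 (.thr 53 54 (.thr 57 9 (.dbl 61 1 49))))) (.nv (.thr 40 43 (.thr 4 55 (.thr 36 20 (.dbl 44 32 35)))) .nd)))) .nd))))))) (.rp 3 (.thr 40 43 (.thr 35 44 (.thr 34 46 (.thr 33 32 (.thr 1 61 (.thr 17 49 (.thr 25 29 (.thr 8 59 (.thr 56 24 (.thr 11 26 (.dbl 9 10 57))))))))))) .nd)))))))))))))) (.rp 46 (.str 41 (.nv (.thr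 1 61 (.thr 4 55 (.thr 25 51 (.thr 17 29 (.thr 9 57 (.thr 6 3 (.dbl 5 7 13))))))) (.nv (.thr 4 55 (.thr 44 35 (.thr 40 43 (.thr 36 32 (.thr 52 20 (.thr 48 24 (.dbl 60 28 56))))))) (.nv (.thr 25 51 (.thr 43 40 (.thr 57 9 (.thr 59 8 (.thr 56 58 (.dbl 11 26 27)))))) (.rp 60 (.thr 40 43 (.thr 44 35 (.thr 36 32 (.thr 25 51 (.thr 8 59 (.dbl 24 48 56)))))) (.rp 52 (.str 7 (.nv (.thr 1 61 (.thr 25 51 (.thr 9 57 (.thr 3 6 (.thr 13 5 (.dbl 15 11 14)))))) (.nv (.thr 35 44 (.thr 55 4 (.thr 39 23 (.dbl 43 40 47)))) .nd))) (.rp 7 (.str 52 (.nv (.thr 40 43 (.thr 44 35 (.thr 36 32 (.thr 48 24 (.dbl 60 28 56))))) (.nv (.thr 25 51 (.thr 55 4 (.thr 53 54 (.thr 57 9 (.dbl 61 1 49))))) (.nv (.thr 40 43 (.thr 4 55 (.thr 36 20 (.dbl 44 32 35)))) .nd)))) .nd))))))) (.rp 34 (.thr 25 51 (.thr 17 29 (.str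 26 (.nv (.thr 8 59 (.thr 10 58 (.thr 9 11 (.thr 14 50 (.dbl 6 2 3))))) (.nv (.thr 24 27 (.thr 16 31 (.thr 36 48 (.thr 4 55 (.dbl 20 28 52))))) (.nv (.thr 27 24 (.thr 58 10 (.thr 59 8 (.thr 11 43 (.dbl 56 41 57))))) (.rp 59 (.thr 31 16 (.thr 24 27 (.thr 14 50 (.thr 15 13 (.thr 63 47 (.thr 58 10 (.dbl 48 36 53))))))) (.rp 52 (.str 7 (.nv (.thr 10 58 (.thr 14 50 (.thr 15 13 (.thr 3 11 (.dbl 6 2 9))))) (.nv (.thr 27 24 (.thr 55 4 (.thr 23 39 (.dbl 31 16 19)))) .nd))) (.rp 27 (.thr 16 31 (.thr 8 59 (.thr 10 58 (.thr 11 9 (.thr 56 41 (.thr 24 40 (.thr 28 20 (.thr 60 44 (.dbl 48 36 52))))))))) (.rp 7 (.str 52 (.nv (.thr 24 27 (.thr 48 36 (.thr 56 60 (.dbl 8 40 59)))) (.nv (.thr 50 14 (.thr 55 4 (.thr 54 53 (.dbl 58 10 62)))) (.rp 54 (.thr 4 55 (.thr 36 20 (.dbl 24 27 48))) .nd)))) .nd))))))))))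 (.rp 29 (.str 14 (.nv (.thr 25 51 (.thr 8 59 (.thr 26 50 (.thr 10 58 (.thr 6 2 (.dbl 9 3 11)))))) (.nv (.thr 4 55 (.thr 26 50 (.thr 10 58 (.thr 6 2 (.thr 3 9 (.thr 7 5 (.dbl 15 11 13))))))) (.nv (.thr 15 13 (.thr 55 4 (.thr 26 50 (.thr 31 16 (.thr 63 47 (.dbl 51 25 59)))))) (.rp 55 (.thr 15 13 (.thr 46 34 (.thr 30 62 (.thr 45 60 (.thr 47 44 (.thr 26 50 (.dbl 31 16 63))))))) (.rp 52 (.str 7 (.nv (.thr 15 13 (.thr 3 11 (.thr 6 9 (.thr 10 2 (.dbl 26 50 58))))) (.nv (.thr 15 13 (.thr 55 4 (.thr 39 23 (.dbl 51 25 27)))) (.nv (.thr 4 55 (.thr 26 50 (.thr 6 5 (.dbl 10 2 58)))) .nd)))) (.rp 50 (.thr 15 13 (.thr 55 4 (.thr 46 34 (.thr 30 62 (.thr 45 60 (.thr 47 44 (.thr 63 31 (.dbl 51 25 59)))))))) (.rp 26 (.thr 15 13 (.thr 55 4 (.thr 46 34 (.thr 30 62 (.thr 45 60 (.thr 47 44 (.thr 63 31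 (.dbl 51 25 59)))))))) (.rp 7 (.str 52 (.nv (.thr 4 55 (.thr 36 20 (.thr 24 48 (.thr 26 50 (.dbl 25 27 51))))) (.nv (.thr 50 26 (.thr 55 4 (.thr 54 53 (.thr 62 58 (.dbl 46 30 34))))) (.rp 55 (.thr 26 50 (.thr 25 51 (.thr 24 27 (.thr 48 36 (.thr 56 60 (.dbl 8 40 59)))))) (.rp 50 (.thr 15 13 (.thr 4 55 (.thr 36 20 (.thr 48 24 (.thr 60 56 (.thr 46 34 (.dbl 30 45 62))))))) (.rp 48 (.thr 55 4 (.thr 54 53 (.thr 46 34 (.thr 62 30 (.dbl 50 26 58))))) (.rp 26 (.thr 15 13 (.thr 4 55 (.thr 36 20 (.thr 48 24 (.thr 60 56 (.thr 46 34 (.dbl 30 45 62))))))) (.rp 4 (.thr 26 50 (.thr 10 58 (.thr 6 2 (.thr 25 51 (.thr 8 59 (.dbl 9 3 11)))))) .nd)))))))) .nd))))))))) (.rp 25 .ext (.rp 17 (.thr 55 4 (.thr 46 34 (.thr 51 25 (.dbl 63 29 59)))) (.rp 7 (.str 52 (.nv (.thr 46 34 (.thr 29 63 (.dbl 25 17 51)))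 (.rp 63 (.thr 4 55 (.thr 36 20 (.thr 48 24 (.thr 60 56 (.thr 51 25 (.thr 57 54 (.thr 49 50 (.thr 61 53 (.thr 41 1 (.dbl 44 28 35)))))))))) (.rp 51 (.str 26 (.nv (.thr 4 55 (.thr 36 20 (.thr 48 24 (.thr 58 10 (.thr 63 53 (.dbl 46 29 34)))))) (.nv (.thr 14 50 (.thr 15 13 (.thr 31 16 (.thr 63 47 (.dbl 46 29 34))))) (.nv (.thr 50 14 (.thr 55 4 (.thr 54 53 (.dbl 58 10 62)))) (.rp 34 (.str 17 (.nv (.thr 25 29 (.thr 24 27 (.thr 48 36 (.thr 56 60 (.dbl 8 40 59))))) (.nv (.thr 50 14 (.thr 55 4 (.thr 54 53 (.dbl 58 10 62)))) (.rp 54 (.thr 25 29 (.thr 4 55 (.thr 36 20 (.dbl 24 27 48)))) .nd)))) (.rp 17 (.thr 34 46 (.thr 58 10 (.thr 50 14 (.thr 55 4 (.dbl 54 53 62))))) .nd)))))) (.rp 46 (.thr 55 4 (.thr 54 53 (.thr 51 25 (.thr 60 57 (.thr 63 59 (.thr 61 62 (.thr 41 1 (.dbl 44 28 35))))))))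 (.rp 34 (.thr 55 4 (.thr 54 53 (.thr 51 25 (.thr 60 57 (.thr 63 59 (.thr 61 62 (.thr 41 1 (.dbl 44 28 35)))))))) (.rp 29 (.thr 55 4 (.thr 54 53 (.thr 51 25 (.thr 60 57 (.thr 63 59 (.thr 61 62 (.thr 41 1 (.dbl 44 28 35)))))))) (.rp 25 (.thr 4 55 (.thr 36 20 (.thr 48 24 (.thr 60 56 (.thr 46 34 (.thr 63 29 (.thr 61 62 (.thr 41 1 (.dbl 44 28 35))))))))) (.rp 17 (.thr 55 4 (.thr 46 34 (.thr 51 25 (.dbl 63 29 59)))) .nd))))))))) .nd))))))))))) .nd))))))))))))))))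

theorem w455 : WinAt (4398048608256, 137443147776) :=
  chF (K := [(4672926519296, 137476702209), (6871949770753, 9223372174331486208), (6871949770753, 9223372174332002304), (6871949770753, 9223372174599913472), (6871949770753, 9223935124284899328), (6871949770753, 9227875773958848512), (2256472740200448, 9223372174331478016)]) (kc w448 (kc w449 (kc w450 (kc w451 (kc w452 (kc w453 (kc w454 kn))))))) c455 4398048608256 137443147776 37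
    [4503737070518400] (by decide +kernel) (by decide +kernel)

end Pool.Agent.TTT.B43
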