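import Pool.Agent.TTT.Q20
import Pool.Agent.TTT.Q21

/-!
Certified forced wins in positions of the 4 x 4 x 4 board.
-/

set_option autoImplicit false
set_option maxRecDepth 1000000
set_option linter.all false

namespace Pool.Agent.TTT.B43

/-- A certificate. -/
noncomputable def c477 : Ct := (.str 37 (.nv (.thr 32 47 (.thr 48 16 (.thr 15 26 (.dbl 5 10 53)))) (.nv (.thr 5 53 (.thr 15 10 (.thr 32 47 (.dbl 48 16 26)))) (.rp 53 (.thr 32 47 (.thr 48 16 (.str 51 (.nv (.thr 49 50 (.thr 25 13 (.thr 8 59 (.dbl 12 4 38)))) (.nv (.thr 15 26 (.thr 34 17 (.thr 38 46 (.dbl 39 27 36)))) (.nv (.thr 49 50 (.thr 25 13 (.dbl 17 29 34))) (.rp 55 (.str 54 (.nv (.thr 15 26 (.thr 60 57 (.thr 40 20 (.thr 36 44 (.dbl 39 27 38))))) (.nv (.thr 49 50 (.thr 25 13 (.dbl 17 29 34))) (.rp 49 (.thr 34 17 (.thr 38 46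 (.thr 39 36 (.dbl 15 26 27)))) (.rp 15 (.str 31 (.nv (.thr 49 50 (.thr 25 13 (.thr 8 59 (.dbl 12 4 38)))) (.nv (.thr 34 17 (.thr 38 46 (.thr 12 25 (.dbl 36 24 39)))) (.nv (.thr 49 50 (.thr 17 34 (.dbl 25 13 29))) (.rp 25 (.thr 50 49 (.thr 34 17 (.thr 18 2 (.dbl 33 3 35)))) .nd))))) .nd))))) (.rp 54 (.str 55 (.nv (.thr 15 26 (.thr 49 50 (.thr 25 13 (.dbl 38 4 12)))) (.nv (.thr 38 4 (.dbl 34 17 46)) (.rp 38 (.str 6 (.nv (.thr 15 26 (.thr 5 10 (.thr 7 4 (.dbl 39 23 27)))) (.nv (.thr 17 34 (.thr 25 29 (.dbl 49 13 50))) (.rp 50 (.thr 34 17 (.thr 33 35 (.thr 41 45 (.thr 1 61 (.dbl 3 2 18))))) (.rp 15 (.str 31 (.nv (.thr 34 17 (.thr 33 35 (.thr 18 3 (.dbl 50 2 49)))) (.nv (.thr 17 34 (.thr 25 29 (.dbl 49 13 50))) (.rp 50 (.thr 34 17 (.thr 33 35 (.thr 41 45 (.thr 1 61 (.dbl 3 2 18))))) (.rp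 49 (.thr 17 34 (.thr 25 29 (.thr 8 59 (.thr 12 4 (.thr 36 24 (.thr 40 44 (.thr 41 43 (.dbl 9 3 57)))))))) (.rp 34 (.thr 49 50 (.thr 25 13 (.thr 17 29 (.thr 33 1 (.thr 8 59 (.thr 12 4 (.dbl 3 9 18))))))) (.rp 17 (.thr 49 50 (.thr 25 13 (.thr 8 59 (.thr 12 4 (.thr 36 24 (.thr 40 44 (.thr 41 43 (.dbl 9 3 57)))))))) .nd))))))) .nd))))) (.rp 15 (.str 31 (.nv (.thr 49 50 (.thr 25 13 (.dbl 38 4 12))) (.nv (.thr 38 4 (.dbl 34 17 46)) (.rp 38 (.str 6 (.nv (.thr 34 17 (.thr 33 35 (.thr 18 3 (.dbl 50 2 49)))) (.nv (.thr 17 34 (.thr 25 29 (.dbl 49 13 50))) (.rp 50 (.thr 34 17 (.thr 33 35 (.thr 41 45 (.thr 1 61 (.dbl 3 2 18))))) (.rp 49 (.thr 17 34 (.thr 25 29 (.thr 8 59 (.thr 12 4 (.thr 36 24 (.thr 40 44 (.thr 41 43 (.dbl 9 3 57)))))))) (.rp 34 (.thr 49 50 (.thr 25 13 (.thr 17 29 (.thr 33 1 (.thr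 8 59 (.thr 12 4 (.dbl 3 9 18))))))) (.rp 17 (.thr 49 50 (.thr 25 13 (.thr 8 59 (.thr 12 4 (.thr 36 24 (.thr 40 44 (.thr 41 43 (.dbl 9 3 57)))))))) .nd))))))) (.rp 4 (.thr 17 34 (.thr 25 29 (.dbl 49 13 50))) .nd))))) (.rp 4 (.thr 49 50 (.thr 17 34 (.dbl 25 13 29))) .nd)))))) (.rp 15 (.str 31 (.nv (.thr 49 50 (.thr 25 13 (.thr 8 59 (.dbl 12 4 38)))) (.nv (.thr 17 34 (.thr 25 29 (.thr 8 59 (.dbl 12 4 38)))) (.nv (.thr 34 17 (.thr 33 35 (.thr 18 3 (.dbl 50 2 49)))) (.nv (.thr 17 34 (.thr 25 29 (.dbl 49 13 50))) (.rp 55 (.str 54 (.nv (.thr 49 50 (.thr 25 13 (.thr 8 59 (.dbl 12 4 38)))) (.nv (.thr 34 17 (.thr 38 46 (.thr 12 25 (.dbl 36 24 39)))) (.nv (.thr 49 50 (.thr 17 34 (.dbl 25 13 29))) (.rp 25 (.thr 50 49 (.thr 34 17 (.thr 18 2 (.dbl 33 3 35)))) .nd))))) (.rp 54 (.str 55 (.nv (.thr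 49 50 (.thr 25 13 (.dbl 38 4 12))) (.nv (.thr 38 4 (.dbl 34 17 46)) (.rp 38 (.str 6 (.nv (.thr 34 17 (.thr 33 35 (.thr 18 3 (.dbl 50 2 49)))) (.nv (.thr 17 34 (.thr 25 29 (.dbl 49 13 50))) (.rp 50 (.thr 34 17 (.thr 33 35 (.thr 41 45 (.thr 1 61 (.dbl 3 2 18))))) (.rp 49 (.thr 17 34 (.thr 25 29 (.thr 8 59 (.thr 12 4 (.thr 36 24 (.thr 40 44 (.thr 41 43 (.dbl 9 3 57)))))))) (.rp 34 (.thr 49 50 (.thr 25 13 (.thr 17 29 (.thr 33 1 (.thr 8 59 (.thr 12 4 (.dbl 3 9 18))))))) (.rp 17 (.thr 49 50 (.thr 25 13 (.thr 8 59 (.thr 12 4 (.thr 36 24 (.thr 40 44 (.thr 41 43 (.dbl 9 3 57)))))))) .nd))))))) (.rp 4 (.thr 17 34 (.thr 25 29 (.dbl 49 13 50))) .nd))))) .nd))))))) .nd))))))))) (.rp 48 (.thr 47 32 (.thr 53 5 (.str 41 (.nv (.thr 61 1 (.thr 49 57 (.thr 13 25 (.dbl 45 29 33)))) (.nv (.thr 43 40 (.thr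 45 33 (.thr 35 39 (.dbl 44 38 46)))) (.rp 60 (.str 56 (.nv (.thr 45 33 (.thr 43 40 (.thr 35 39 (.dbl 44 38 46)))) (.nv (.thr 61 1 (.thr 26 11 (.thr 58 10 (.dbl 57 49 59)))) (.rp 61 (.str 62 (.nv (.thr 26 11 (.thr 45 33 (.thr 44 46 (.thr 58 10 (.thr 50 54 (.dbl 38 14 35)))))) (.nv (.thr 26 11 (.thr 58 10 (.thr 59 57 (.thr 8 25 (.dbl 40 24 43))))) (.nv (.thr 43 40 (.thr 35 39 (.thr 45 33 (.dbl 44 38 46)))) .nd)))) .nd)))) (.rp 56 (.str 60 (.nv (.dbl 40 20 43) (.rp 43 (.thr 45 33 (.thr 61 1 (.thr 49 57 (.dbl 13 25 29)))) (.rp 40 (.thr 45 33 (.thr 61 1 (.thr 49 57 (.dbl 13 25 29)))) (.rp 20 (.thr 45 33 (.thr 61 1 (.thr 49 57 (.dbl 13 25 29)))) .nd))))) (.rp 45 (.thr 43 40 (.thr 35 39 (.thr 1 61 (.thr 3 2 (.thr 51 19 (.thr 34 17 (.dbl 38 44 46))))))) (.rp 33 (.thr 43 40 (.thr 35 39 (.thr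 44 38 (.thr 45 46 (.thr 61 1 (.thr 49 57 (.dbl 13 25 29))))))) .nd))))))))) (.rp 47 (.str 15 (.nv (.dbl 5 10 53) (.rp 53 (.thr 10 5 (.dbl 26 48 58)) (.rp 10 (.str 13 (.nv (.thr 5 53 (.thr 9 1 (.thr 12 14 (.thr 4 8 (.dbl 6 3 7))))) (.nv (.thr 5 53 (.thr 25 49 (.thr 29 17 (.thr 61 45 (.dbl 1 9 41))))) (.nv (.thr 12 14 (.thr 25 49 (.dbl 8 4 59))) .nd)))) (.rp 5 (.str 13 (.nv (.thr 12 14 (.thr 4 8 (.thr 38 55 (.thr 36 39 (.dbl 48 24 26))))) (.nv (.thr 25 49 (.thr 17 29 (.thr 26 48 (.thr 27 24 (.dbl 51 34 39))))) (.nv (.thr 12 14 (.thr 25 49 (.dbl 8 4 59))) (.rp 12 (.thr 25 49 (.thr 29 17 (.thr 45 61 (.thr 60 30 (.thr 40 20 (.dbl 41 33 43)))))) .nd))))) .nd))))) (.rp 32 (.str 13 (.nv (.thr 25 49 (.thr 17 29 (.thr 51 34 (.thr 12 38 (.dbl 8 4 59))))) (.nv (.thr 5 53 (.thr 15 10 (.thr 12 14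 (.thr 4 8 (.thr 9 1 (.dbl 6 3 7)))))) (.nv (.thr 49 25 (.thr 53 5 (.thr 61 57 (.thr 41 1 (.dbl 45 29 33))))) .nd)))) (.rp 26 (.thr 53 5 (.thr 47 32 (.str 41 (.nv (.thr 61 1 (.thr 49 57 (.thr 13 25 (.dbl 45 29 33)))) (.nv (.thr 43 40 (.thr 45 33 (.thr 35 39 (.dbl 44 38 46)))) (.rp 45 (.thr 43 40 (.thr 35 39 (.thr 1 61 (.thr 3 2 (.thr 51 19 (.thr 34 17 (.dbl 38 44 46))))))) (.rp 33 (.thr 43 40 (.thr 35 39 (.thr 44 38 (.thr 45 46 (.thr 61 1 (.thr 49 57 (.dbl 13 25 29))))))) (.rp 30 (.str 18 (.nv (.thr 43 40 (.thr 35 39 (.thr 44 38 (.dbl 45 33 46)))) (.nv (.thr 1 61 (.thr 3 2 (.dbl 33 45 48))) (.rp 45 (.thr 1 61 (.thr 3 2 (.thr 33 48 (.thr 17 49 (.thr 51 34 (.dbl 19 16 35)))))) (.rp 33 (.thr 1 61 (.thr 2 3 (.thr 34 50 (.thr 38 46 (.thr 43 40 (.dbl 35 39 44)))))) .nd))))) (.rp 18 (.str 30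 (.nv (.thr 61 1 (.thr 49 57 (.thr 13 25 (.dbl 45 29 33)))) (.nv (.thr 40 43 (.thr 60 20 (.dbl 45 15 33))) (.rp 45 (.thr 40 43 (.thr 60 20 (.thr 61 1 (.thr 57 49 (.thr 51 54 (.thr 17 34 (.dbl 25 9 29))))))) (.rp 33 (.thr 40 43 (.thr 60 20 (.thr 45 15 (.thr 61 1 (.thr 13 29 (.dbl 49 25 57)))))) .nd))))) .nd))))))))) (.rp 16 (.str 13 (.nv (.thr 5 53 (.thr 1 9 (.thr 3 2 (.thr 15 10 (.thr 11 7 (.thr 41 61 (.dbl 26 48 56))))))) (.nv (.thr 25 49 (.thr 17 29 (.thr 8 59 (.thr 51 34 (.dbl 12 4 38))))) (.rp 49 (.thr 5 53 (.thr 9 1 (.thr 15 10 (.thr 12 14 (.thr 6 3 (.dbl 4 7 8)))))) .nd)))) (.rp 15 (.str 1 (.nv (.thr 5 53 (.thr 13 9 (.thr 25 49 (.thr 29 17 (.dbl 61 41 45))))) (.nv (.thr 2 3 (.thr 41 61 (.thr 43 40 (.thr 45 33 (.thr 47 32 (.thr 35 39 (.dbl 44 38 46))))))) (.nv (.thr 53 5 (.thr 61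 41 (.thr 49 57 (.thr 17 33 (.dbl 25 13 29))))) (.rp 61 (.thr 3 2 (.thr 5 53 (.thr 13 9 (.thr 49 25 (.thr 33 17 (.thr 48 18 (.dbl 32 16 47))))))) (.rp 47 (.str 31 (.nv (.thr 3 2 (.thr 5 53 (.thr 9 13 (.thr 12 6 (.thr 8 4 (.thr 10 11 (.dbl 26 16 58))))))) (.nv (.thr 5 53 (.thr 13 9 (.thr 25 49 (.thr 29 17 (.dbl 61 41 45))))) (.nv (.thr 3 2 (.thr 16 26 (.thr 48 32 (.thr 41 61 (.dbl 33 18 45))))) (.rp 48 (.thr 41 61 (.thr 33 45 (.thr 49 17 (.thr 13 25 (.dbl 5 9 53))))) .nd))))) (.rp 41 (.thr 5 53 (.thr 13 9 (.thr 25 49 (.thr 17 29 (.thr 8 59 (.thr 12 4 (.dbl 51 34 38))))))) (.rp 31 (.thr 47 32 (.thr 41 61 (.thr 45 33 (.thr 44 46 (.thr 35 38 (.dbl 43 39 40)))))) .nd)))))))) (.rp 10 (.str 13 (.nv (.thr 5 53 (.thr 1 9 (.thr 3 2 (.thr 32 47 (.thr 41 61 (.thr 48 16 (.dbl 33 18 45))))))) (.nv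 (.thr 25 49 (.thr 17 29 (.thr 8 59 (.thr 51 34 (.dbl 12 4 38))))) (.rp 49 (.thr 32 47 (.thr 5 53 (.thr 1 9 (.thr 3 2 (.thr 48 16 (.thr 33 18 (.dbl 41 45 61))))))) (.rp 8 (.thr 5 53 (.thr 25 49 (.thr 29 17 (.thr 61 45 (.dbl 1 9 41))))) .nd))))) (.rp 5 (.str 3 (.nv (.thr 1 2 (.thr 41 61 (.thr 33 45 (.thr 17 49 (.thr 34 51 (.thr 35 32 (.dbl 38 44 46))))))) (.nv (.thr 1 2 (.thr 32 47 (.thr 48 16 (.thr 33 18 (.thr 17 49 (.dbl 34 35 51)))))) (.nv (.thr 1 2 (.thr 41 61 (.thr 32 47 (.thr 48 16 (.dbl 33 18 45))))) (.rp 48 (.thr 1 2 (.thr 32 47 (.thr 41 61 (.thr 33 45 (.thr 34 35 (.dbl 17 49 51)))))) (.rp 33 (.thr 1 2 (.thr 47 32 (.thr 41 61 (.thr 43 40 (.thr 35 39 (.thr 51 19 (.thr 34 17 (.dbl 38 44 46)))))))) (.rp 32 (.thr 1 2 (.thr 41 61 (.thr 33 45 (.thr 17 49 (.thr 51 34 (.thr 19 35 (.dbl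 18 16 48))))))) (.rp 2 (.thr 32 47 (.thr 48 16 (.thr 33 18 (.thr 41 45 (.thr 40 43 (.thr 44 36 (.dbl 35 34 38))))))) (.rp 1 (.thr 32 47 (.thr 48 16 (.thr 33 18 (.thr 41 45 (.thr 40 43 (.thr 35 34 (.dbl 44 36 38))))))) .nd))))))))) .nd))))))))))))

theorem w477 : WinAt (4398048608257, 9227875636486340608) :=
  chF (K := []) kn c477 4398048608257 9227875636486340608 63
    [4503737070518400] (by decide +kernel) (by decide +kernel)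

/-- A certificate. -/
noncomputable def c478 : Ct := (.str 59 (.nv (.thr 51 55 (.thr 25 8 (.thr 12 38 (.dbl 29 17 46)))) (.nv (.thr 25 8 (.thr 29 17 (.thr 12 46 (.dbl 51 38 55)))) (.rp 55 (.str 15 (.nv (.thr 25 8 (.thr 29 17 (.thr 12 46 (.thr 13 14 (.thr 37 49 (.thr 48 26 (.thr 36 24 (.dbl 38 39 51)))))))) (.nv (.thr 8 25 (.thr 31 47 (.thr 26 16 (.thr 10 58 (.thr 11 9 (.thr 41 56 (.dbl 43 27 40))))))) (.nv (.thr 47 31 (.thr 25 8 (.thr 37 32 (.thr 13 49 (.thr 12 14 (.dbl 29 17 46)))))) (.rp 54 (.str 52 (.nv (.thr 25 8 (.thr 29 17 (.thr 12 46 (.thr 13 14 (.thr 47 31 (.dbl 37 32 49)))))) (.nv (.thr 31 47 (.thr 26 16 (.thr 48 37 (.thr 58 10 (.dbl 56 57 60))))) (.rp 47 (.thr 25 8 (.thr 29 17 (.thr 12 46 (.thr 13 14 (.thr 37 49 (.thr 26 48 (.thr 27 24 (.dbl 51 38 39)))))))) (.rp 38 (.str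 6 (.nv (.thr 25 8 (.thr 29 17 (.thr 12 46 (.thr 3 9 (.thr 11 7 (.dbl 43 23 27)))))) (.nv (.thr 31 47 (.thr 26 16 (.thr 48 37 (.thr 58 10 (.dbl 56 57 60))))) (.rp 39 (.thr 31 47 (.thr 26 16 (.thr 58 10 (.thr 56 57 (.dbl 48 37 60))))) .nd)))) (.rp 37 (.thr 31 47 (.thr 25 8 (.thr 26 16 (.thr 27 24 (.thr 43 11 (.dbl 23 3 19)))))) (.rp 31 (.thr 25 8 (.thr 29 17 (.thr 12 46 (.thr 13 14 (.thr 61 45 (.thr 37 49 (.thr 48 26 (.dbl 60 56 62)))))))) (.rp 6 (.str 38 (.nv (.thr 31 47 (.thr 26 16 (.thr 48 37 (.thr 58 10 (.dbl 56 57 60))))) (.nv (.thr 46 34 (.thr 12 29 (.dbl 25 8 51))) .nd))) .nd)))))))) (.rp 52 (.str 54 (.nv (.thr 25 8 (.thr 31 47 (.thr 26 16 (.thr 27 24 (.thr 23 19 (.dbl 43 3 11)))))) (.nv (.thr 25 8 (.thr 29 17 (.thr 12 46 (.thr 51 38 (.thr 60 57 (.thr 61 62 (.dbl 13 14 45)))))))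 (.nv (.thr 31 47 (.thr 26 16 (.thr 58 10 (.thr 62 50 (.thr 57 56 (.dbl 60 51 61)))))) (.rp 37 (.str 7 (.nv (.thr 8 25 (.thr 31 47 (.thr 26 16 (.thr 10 58 (.dbl 11 3 9))))) (.nv (.thr 3 11 (.thr 25 8 (.thr 29 17 (.thr 12 46 (.thr 9 6 (.thr 51 38 (.dbl 57 41 60))))))) (.nv (.thr 11 3 (.thr 31 47 (.thr 43 27 (.thr 41 40 (.dbl 26 16 56))))) (.rp 11 (.thr 31 47 (.thr 26 16 (.thr 58 10 (.thr 62 50 (.thr 57 56 (.dbl 60 51 61)))))) (.rp 3 (.thr 31 47 (.thr 26 16 (.thr 58 10 (.thr 62 50 (.thr 57 56 (.dbl 60 51 61)))))) .nd)))))) (.rp 7 (.str 37 (.nv (.dbl 47 31 32) (.rp 47 (.thr 25 8 (.thr 29 17 (.thr 13 49 (.dbl 12 14 46)))) (.rp 39 (.str 23 (.nv (.dbl 47 31 32) (.rp 47 (.thr 43 3 (.thr 27 11 (.thr 31 19 (.dbl 26 16 48)))) (.rp 32 (.thr 31 47 (.dbl 26 16 48)) (.rp 31 (.thr 43 3 (.thr 27 11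 (.thr 26 48 (.dbl 25 8 24)))) .nd))))) (.rp 32 (.thr 31 47 (.dbl 26 16 48)) (.rp 31 (.thr 25 8 (.thr 29 17 (.thr 13 49 (.dbl 12 14 46)))) (.rp 23 (.str 39 (.nv (.thr 25 8 (.thr 27 51 (.dbl 26 24 48))) (.nv (.dbl 47 31 32) .nd))) .nd))))))) .nd)))))) (.rp 48 (.thr 47 31 (.thr 25 8 (.thr 29 17 (.thr 12 46 (.thr 13 14 (.dbl 37 32 49)))))) (.rp 25 (.thr 31 47 (.thr 26 16 (.thr 58 10 (.thr 48 37 (.thr 56 57 (.thr 41 11 (.thr 61 1 (.dbl 60 52 62)))))))) (.rp 8 (.thr 31 47 (.thr 26 16 (.thr 58 10 (.thr 56 57 (.thr 11 41 (.thr 43 27 (.dbl 3 7 23))))))) .nd))))))))) (.rp 51 (.str 56 (.nv (.thr 25 8 (.thr 58 57 (.thr 26 10 (.thr 11 41 (.dbl 27 24 43))))) (.nv (.thr 58 57 (.thr 26 10 (.thr 41 11 (.thr 40 43 (.dbl 8 24 25))))) (.nv (.thr 25 8 (.thr 57 58 (.thr 41 9 (.thr 11 26 (.dbl 43 27 40)))))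 (.rp 58 (.thr 8 25 (.thr 40 24 (.thr 41 43 (.thr 61 1 (.thr 60 62 (.thr 48 52 (.thr 26 11 (.thr 31 16 (.dbl 15 37 47))))))))) (.rp 57 (.thr 8 25 (.thr 40 24 (.thr 41 43 (.thr 61 1 (.thr 60 62 (.thr 48 52 (.thr 26 11 (.thr 31 16 (.dbl 15 37 47))))))))) (.rp 43 (.thr 58 57 (.thr 26 10 (.thr 31 16 (.thr 41 11 (.thr 61 1 (.thr 60 62 (.thr 48 52 (.dbl 15 37 47)))))))) (.rp 41 (.thr 58 57 (.thr 25 8 (.thr 26 10 (.thr 27 24 (.thr 31 16 (.thr 23 19 (.dbl 43 3 11))))))) (.rp 34 (.str 17 (.nv (.dbl 25 8 29) (.rp 29 (.thr 58 57 (.thr 25 8 (.thr 26 10 (.thr 27 24 (.dbl 11 41 43))))) (.rp 25 (.thr 58 57 (.thr 26 10 (.thr 31 16 (.thr 41 11 (.thr 61 1 (.thr 60 62 (.thr 48 52 (.dbl 15 37 47)))))))) (.rp 8 (.thr 58 57 (.thr 25 29 (.thr 26 10 (.thr 27 24 (.dbl 11 41 43))))) .nd))))) (.rp 26 (.thr 57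 58 (.thr 25 8 (.thr 41 9 (.thr 43 40 (.thr 61 1 (.thr 60 62 (.thr 3 23 (.thr 11 27 (.thr 15 7 (.thr 30 45 (.thr 31 47 (.dbl 29 17 28)))))))))))) (.rp 25 (.thr 58 57 (.thr 26 10 (.thr 31 16 (.thr 41 11 (.thr 61 1 (.thr 60 62 (.thr 48 52 (.dbl 15 37 47)))))))) (.rp 17 (.str 34 (.nv (.thr 38 46 (.thr 58 57 (.thr 26 10 (.thr 8 25 (.thr 41 11 (.dbl 40 24 43)))))) (.nv (.thr 57 58 (.thr 25 8 (.thr 41 9 (.thr 11 26 (.dbl 43 27 40))))) (.rp 58 (.thr 38 46 (.thr 8 25 (.thr 40 24 (.thr 41 43 (.thr 35 44 (.thr 32 33 (.thr 47 37 (.thr 26 11 (.dbl 31 15 16))))))))) (.rp 57 (.thr 38 46 (.thr 8 25 (.thr 40 24 (.thr 41 43 (.thr 35 44 (.thr 32 33 (.thr 47 37 (.thr 26 11 (.dbl 31 15 16))))))))) (.rp 43 (.thr 58 57 (.thr 38 46 (.thr 26 10 (.thr 41 11 (.thr 61 1 (.thr 50 14 (.dbl 62 54 60))))))) (.rp 41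 (.thr 58 57 (.thr 38 46 (.thr 26 10 (.thr 31 16 (.thr 50 14 (.thr 15 47 (.thr 48 37 (.thr 62 54 (.dbl 60 52 61))))))))) (.rp 40 (.thr 58 57 (.thr 25 8 (.thr 26 10 (.thr 27 24 (.dbl 11 41 43))))) (.rp 26 (.thr 57 58 (.thr 38 46 (.thr 25 8 (.thr 41 9 (.thr 43 40 (.thr 35 44 (.thr 32 33 (.dbl 47 37 39)))))))) (.rp 25 (.thr 58 57 (.thr 38 46 (.thr 26 10 (.thr 41 11 (.thr 61 1 (.thr 50 14 (.dbl 62 54 60))))))) (.rp 11 (.thr 58 57 (.thr 38 46 (.thr 8 25 (.thr 40 24 (.thr 41 43 (.thr 61 1 (.thr 26 10 (.thr 50 14 (.dbl 62 54 60))))))))) (.rp 8 (.thr 58 57 (.thr 26 10 (.thr 31 16 (.thr 11 41 (.thr 43 27 (.thr 3 23 (.dbl 15 7 47))))))) .nd)))))))))))) (.rp 11 (.thr 58 57 (.thr 8 25 (.thr 40 24 (.thr 41 43 (.thr 61 1 (.thr 60 62 (.thr 48 52 (.thr 26 10 (.thr 31 16 (.dbl 15 37 47)))))))))) (.rp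 8 (.thr 58 57 (.thr 26 10 (.thr 31 16 (.thr 11 41 (.thr 43 27 (.thr 3 23 (.dbl 15 7 47))))))) .nd)))))))))))))) (.rp 46 (.str 56 (.nv (.thr 8 25 (.thr 40 24 (.thr 41 43 (.thr 51 55 (.thr 57 58 (.thr 61 1 (.dbl 60 54 62))))))) (.nv (.thr 25 8 (.thr 51 55 (.thr 57 58 (.thr 41 9 (.thr 61 1 (.dbl 60 54 62)))))) (.nv (.thr 8 25 (.thr 40 24 (.thr 41 43 (.thr 26 11 (.dbl 58 10 57))))) (.rp 58 (.thr 51 55 (.thr 8 25 (.thr 40 24 (.thr 43 41 (.thr 3 23 (.thr 27 11 (.thr 39 15 (.dbl 35 19 47)))))))) (.rp 57 (.thr 8 25 (.thr 40 24 (.thr 41 43 (.thr 61 1 (.thr 60 62 (.thr 48 52 (.thr 26 11 (.thr 31 16 (.dbl 15 37 47))))))))) (.rp 41 (.thr 58 57 (.thr 51 55 (.thr 25 8 (.thr 26 10 (.thr 27 24 (.thr 31 16 (.dbl 15 39 47))))))) (.rp 25 (.thr 58 57 (.thr 51 55 (.thr 26 10 (.thr 31 16 (.thr 15 47 (.thr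 27 39 (.dbl 11 41 43))))))) (.rp 8 (.thr 58 57 (.thr 51 55 (.thr 26 10 (.thr 31 16 (.thr 11 41 (.thr 27 43 (.dbl 15 39 47))))))) .nd))))))))) (.rp 38 (.thr 51 55 (.str 54 (.nv (.thr 57 60 (.thr 56 58 (.thr 25 8 (.thr 41 9 (.thr 11 26 (.dbl 43 27 40)))))) (.nv (.thr 57 60 (.thr 58 56 (.thr 26 10 (.thr 31 16 (.thr 15 47 (.thr 48 37 (.dbl 50 49 62))))))) (.nv (.thr 25 8 (.thr 29 17 (.thr 60 57 (.thr 61 62 (.thr 45 13 (.thr 12 46 (.thr 30 15 (.dbl 28 31 44)))))))) (.rp 60 (.thr 25 8 (.thr 29 17 (.thr 12 46 (.str 3 (.nv (.thr 35 19 (.thr 43 23 (.thr 39 47 (.dbl 27 11 15)))) (.nv (.thr 43 23 (.thr 9 6 (.dbl 41 40 57))) (.rp 43 (.thr 9 6 (.thr 41 57 (.thr 61 1 (.thr 13 45 (.thr 15 14 (.thr 47 31 (.dbl 37 32 49))))))) (.rp 40 (.str 20 (.nv (.thr 43 23 (.thr 27 11 (.thr 39 15 (.dbl 35 19 47))))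 (.nv (.thr 19 35 (.thr 23 43 (.thr 31 27 (.thr 16 26 (.dbl 28 24 30))))) (.nv (.thr 43 23 (.thr 27 11 (.thr 35 19 (.dbl 39 15 47)))) (.rp 56 (.str 24 (.nv (.thr 48 36 (.thr 27 26 (.dbl 43 11 23))) (.nv (.thr 16 28 (.dbl 26 27 31)) (.rp 48 (.str 52 (.nv (.thr 27 26 (.dbl 43 11 23)) (.nv (.thr 16 28 (.dbl 26 27 31)) (.rp 27 (.thr 16 28 (.thr 31 26 (.thr 43 23 (.thr 35 19 (.dbl 47 15 39))))) (.rp 26 (.thr 23 43 (.thr 19 35 (.thr 31 27 (.dbl 28 16 30)))) (.rp 16 (.str 32 (.nv (.thr 19 35 (.thr 47 37 (.thr 15 31 (.dbl 27 26 39)))) (.nv (.thr 43 23 (.dbl 27 11 26)) (.rp 39 (.thr 27 26 (.dbl 43 11 23)) (.rp 27 (.thr 43 23 (.thr 47 37 (.dbl 35 19 39))) (.rp 26 (.thr 19 35 (.thr 23 43 (.thr 31 27 (.dbl 47 15 37)))) (.rp 19 (.str 18 (.nv (.thr 47 37 (.thr 15 31 (.dbl 27 26 39))) (.nv (.thr 43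 23 (.dbl 27 11 26)) (.rp 39 (.thr 27 26 (.dbl 43 11 23)) (.rp 27 (.thr 9 6 (.thr 37 47 (.thr 13 49 (.thr 1 5 (.dbl 61 41 45))))) (.rp 26 (.thr 43 23 (.thr 47 37 (.thr 15 31 (.dbl 27 11 39)))) .nd)))))) .nd))))))) .nd)))))) (.rp 27 (.thr 16 28 (.thr 26 31 (.thr 58 10 (.thr 50 62 (.dbl 48 36 49))))) (.rp 26 (.thr 28 16 (.thr 23 43 (.thr 19 35 (.dbl 31 27 30)))) .nd)))))) (.rp 47 (.thr 9 6 (.thr 43 23 (.thr 27 11 (.thr 24 26 (.thr 48 36 (.thr 50 49 (.thr 58 62 (.dbl 57 41 56)))))))) (.rp 43 (.thr 9 6 (.thr 41 57 (.thr 61 1 (.thr 13 45 (.thr 15 14 (.thr 47 31 (.dbl 37 32 49))))))) (.rp 39 (.thr 9 6 (.thr 41 57 (.thr 61 1 (.thr 13 45 (.thr 15 14 (.thr 47 31 (.dbl 37 32 49))))))) (.rp 35 (.thr 9 6 (.thr 43 23 (.thr 27 11 (.thr 41 57 (.thr 61 1 (.thr 13 45 (.dbl 15 14 39))))))) (.rp 27 (.thr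 9 6 (.thr 41 57 (.thr 61 1 (.thr 13 45 (.thr 15 14 (.thr 47 31 (.dbl 37 32 49))))))) (.rp 24 (.str 56 (.nv (.thr 35 19 (.thr 43 23 (.thr 39 47 (.dbl 27 11 15)))) (.nv (.thr 9 6 (.dbl 57 41 58)) .nd))) (.rp 23 (.thr 9 6 (.thr 41 57 (.thr 61 1 (.thr 13 45 (.thr 15 14 (.thr 47 31 (.dbl 37 32 49))))))) (.rp 19 (.thr 9 6 (.thr 43 23 (.thr 27 11 (.thr 41 57 (.thr 61 1 (.thr 13 45 (.dbl 15 14 39))))))) .nd))))))))))))) (.rp 39 (.thr 9 6 (.thr 41 57 (.dbl 43 23 40))) (.rp 23 (.thr 9 6 (.thr 41 57 (.thr 61 1 (.thr 13 45 (.thr 15 14 (.thr 47 31 (.dbl 37 32 49))))))) (.rp 20 (.str 40 (.nv (.dbl 43 23 41) (.rp 43 (.thr 9 6 (.thr 57 41 (.thr 58 56 (.thr 50 62 (.thr 48 49 (.thr 26 10 (.dbl 24 27 36))))))) (.rp 41 (.thr 43 23 (.thr 27 11 (.thr 35 19 (.dbl 39 15 47)))) (.rp 23 (.thr 9 6 (.dbl 41 43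 57)) .nd))))) .nd))))))))))) (.rp 57 (.str 61 (.nv (.thr 41 1 (.thr 43 40 (.thr 3 23 (.thr 27 11 (.thr 39 15 (.dbl 35 19 47)))))) (.nv (.thr 25 8 (.thr 29 17 (.thr 12 46 (.thr 13 45 (.thr 15 14 (.thr 47 31 (.dbl 37 32 49))))))) (.nv (.thr 41 1 (.thr 43 40 (.thr 11 27 (.thr 26 56 (.thr 10 58 (.dbl 8 9 25)))))) .nd)))) .nd))))))) (.rp 29 (.str 56 (.nv (.thr 8 25 (.thr 40 24 (.thr 41 43 (.thr 51 55 (.thr 57 58 (.thr 61 1 (.dbl 60 54 62))))))) (.nv (.thr 25 8 (.thr 51 55 (.thr 57 58 (.thr 41 9 (.thr 61 1 (.dbl 60 54 62)))))) (.nv (.thr 8 25 (.thr 40 24 (.thr 41 43 (.thr 26 11 (.dbl 58 10 57))))) (.rp 58 (.thr 51 55 (.thr 8 25 (.thr 40 24 (.thr 43 41 (.thr 3 23 (.thr 27 11 (.thr 39 15 (.dbl 35 19 47)))))))) (.rp 57 (.thr 55 51 (.thr 8 25 (.thr 40 24 (.thr 41 43 (.thr 38 4 (.thr 44 35 (.thr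 32 36 (.thr 47 37 (.dbl 46 34 45))))))))) (.rp 41 (.thr 58 57 (.thr 51 55 (.thr 25 8 (.thr 26 10 (.thr 27 24 (.thr 31 16 (.dbl 15 39 47))))))) (.rp 25 (.thr 58 57 (.thr 51 55 (.thr 26 10 (.thr 31 16 (.thr 15 47 (.thr 27 39 (.dbl 11 41 43))))))) (.rp 8 (.thr 58 57 (.thr 51 55 (.thr 26 10 (.thr 31 16 (.thr 11 41 (.thr 27 43 (.dbl 15 39 47))))))) .nd))))))))) (.rp 25 (.str 41 (.nv (.thr 43 40 (.thr 11 27 (.thr 26 56 (.thr 31 16 (.thr 3 23 (.dbl 15 7 47)))))) (.nv (.thr 1 61 (.thr 55 51 (.thr 38 4 (.thr 34 46 (.thr 35 44 (.thr 32 33 (.thr 47 37 (.dbl 43 39 40)))))))) (.nv (.thr 51 55 (.thr 43 40 (.thr 27 11 (.thr 15 39 (.thr 31 47 (.dbl 23 3 19)))))) (.rp 47 (.thr 55 51 (.thr 61 1 (.thr 43 40 (.thr 11 27 (.thr 26 56 (.thr 58 10 (.thr 38 4 (.thr 50 14 (.dbl 62 54 60))))))))) (.rp 43 (.thr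 55 51 (.thr 38 4 (.thr 34 46 (.thr 35 44 (.thr 32 33 (.thr 47 37 (.thr 31 15 (.thr 26 16 (.thr 56 11 (.dbl 58 10 57)))))))))) (.rp 40 (.thr 55 51 (.thr 38 4 (.thr 34 46 (.thr 35 44 (.thr 32 33 (.thr 47 37 (.thr 43 39 (.thr 11 27 (.thr 15 31 (.dbl 3 7 23)))))))))) (.rp 28 (.str 19 (.nv (.thr 43 40 (.thr 27 11 (.dbl 23 3 31))) (.nv (.thr 51 55 (.thr 3 35 (.dbl 43 23 40))) (.rp 43 (.thr 55 51 (.thr 38 4 (.thr 34 46 (.thr 35 44 (.thr 32 33 (.thr 47 37 (.thr 31 15 (.thr 26 16 (.thr 56 11 (.dbl 58 10 57)))))))))) (.rp 40 (.thr 51 55 (.thr 3 35 (.thr 43 23 (.thr 11 27 (.thr 26 56 (.thr 31 16 (.dbl 15 7 47))))))) (.rp 23 (.thr 51 55 (.thr 35 3 (.thr 43 40 (.thr 27 11 (.dbl 39 15 47))))) (.rp 3 (.thr 51 55 (.thr 43 40 (.thr 27 11 (.thr 15 39 (.dbl 31 23 47))))) .nd))))))) (.rp 19 (.str 28 (.nv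 (.thr 43 40 (.thr 11 27 (.thr 26 56 (.thr 3 23 (.thr 31 16 (.dbl 15 7 47)))))) (.nv (.thr 61 1 (.thr 60 62 (.thr 44 12 (.thr 38 35 (.dbl 55 4 51))))) (.rp 60 (.thr 55 51 (.thr 38 4 (.thr 34 46 (.thr 35 44 (.thr 32 33 (.thr 47 37 (.dbl 43 39 40))))))) (.rp 8 (.thr 61 1 (.thr 60 62 (.thr 12 44 (.thr 29 46 (.thr 45 13 (.dbl 30 15 31)))))) (.rp 3 (.thr 43 40 (.thr 11 27 (.thr 26 56 (.thr 31 16 (.thr 29 30 (.thr 12 46 (.thr 60 44 (.dbl 61 1 62)))))))) .nd)))))) (.rp 7 (.thr 51 55 (.thr 43 40 (.thr 27 11 (.thr 39 15 (.thr 3 23 (.dbl 35 19 47)))))) .nd)))))))))) (.rp 17 (.str 56 (.nv (.thr 8 25 (.thr 40 24 (.thr 41 43 (.thr 51 55 (.thr 57 58 (.thr 61 1 (.dbl 60 54 62))))))) (.nv (.thr 51 55 (.thr 25 8 (.thr 57 58 (.thr 41 9 (.thr 61 1 (.dbl 60 54 62)))))) (.nv (.thr 8 25 (.thr 40 24 (.thr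 41 43 (.thr 26 11 (.dbl 58 10 57))))) (.rp 58 (.thr 51 55 (.thr 8 25 (.thr 40 24 (.thr 43 41 (.thr 3 23 (.thr 27 11 (.thr 39 15 (.dbl 35 19 47)))))))) (.rp 57 (.thr 8 25 (.thr 40 24 (.thr 41 43 (.thr 61 1 (.thr 60 62 (.thr 48 52 (.thr 26 11 (.thr 31 16 (.dbl 15 37 47))))))))) (.rp 51 (.str 34 (.nv (.thr 38 46 (.thr 58 57 (.thr 26 10 (.thr 8 25 (.thr 41 11 (.dbl 40 24 43)))))) (.nv (.thr 57 58 (.thr 25 8 (.thr 41 9 (.thr 11 26 (.dbl 43 27 40))))) (.rp 58 (.thr 38 46 (.thr 8 25 (.thr 40 24 (.thr 41 43 (.thr 35 44 (.thr 32 33 (.thr 47 37 (.thr 26 11 (.dbl 31 15 16))))))))) (.rp 57 (.thr 38 46 (.thr 8 25 (.thr 40 24 (.thr 41 43 (.thr 35 44 (.thr 32 33 (.thr 47 37 (.thr 26 11 (.dbl 31 15 16))))))))) (.rp 43 (.thr 58 57 (.thr 38 46 (.thr 26 10 (.thr 41 11 (.thr 61 1 (.thr 50 14 (.dbl 62 54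 60))))))) (.rp 41 (.thr 58 57 (.thr 38 46 (.thr 26 10 (.thr 31 16 (.thr 50 14 (.thr 15 47 (.thr 48 37 (.thr 62 54 (.dbl 60 52 61))))))))) (.rp 40 (.thr 58 57 (.thr 25 8 (.thr 26 10 (.thr 27 24 (.dbl 11 41 43))))) (.rp 26 (.thr 57 58 (.thr 38 46 (.thr 25 8 (.thr 41 9 (.thr 43 40 (.thr 35 44 (.thr 32 33 (.dbl 47 37 39)))))))) (.rp 25 (.thr 58 57 (.thr 38 46 (.thr 26 10 (.thr 41 11 (.thr 61 1 (.thr 50 14 (.dbl 62 54 60))))))) (.rp 11 (.thr 58 57 (.thr 38 46 (.thr 8 25 (.thr 40 24 (.thr 41 43 (.thr 61 1 (.thr 26 10 (.thr 50 14 (.dbl 62 54 60))))))))) (.rp 8 (.thr 58 57 (.thr 26 10 (.thr 31 16 (.thr 11 41 (.thr 43 27 (.thr 3 23 (.dbl 15 7 47))))))) .nd)))))))))))) (.rp 41 (.thr 58 57 (.thr 51 55 (.thr 25 8 (.thr 26 10 (.thr 27 24 (.thr 31 16 (.dbl 15 39 47))))))) (.rp 25 (.thr 58 57 (.thr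 51 55 (.thr 26 10 (.thr 31 16 (.thr 15 47 (.thr 27 39 (.dbl 11 41 43))))))) (.rp 8 (.thr 58 57 (.thr 51 55 (.thr 26 10 (.thr 31 16 (.thr 11 41 (.thr 27 43 (.dbl 15 39 47))))))) .nd)))))))))) (.rp 12 (.str 56 (.nv (.thr 51 55 (.thr 58 57 (.thr 26 10 (.thr 31 16 (.thr 15 47 (.thr 27 39 (.dbl 11 41 43))))))) (.nv (.thr 8 25 (.thr 40 24 (.thr 41 43 (.thr 51 55 (.thr 57 58 (.thr 61 1 (.dbl 60 54 62))))))) (.nv (.thr 58 57 (.thr 26 10 (.thr 41 11 (.thr 40 43 (.dbl 8 24 25))))) (.rp 61 (.thr 8 25 (.thr 40 24 (.thr 41 43 (.thr 26 11 (.dbl 58 10 57))))) (.rp 58 (.thr 51 55 (.thr 8 25 (.thr 40 24 (.thr 43 41 (.thr 3 23 (.thr 27 11 (.thr 39 15 (.dbl 35 19 47)))))))) (.rp 57 (.thr 8 25 (.thr 40 24 (.thr 41 43 (.thr 61 1 (.thr 60 62 (.thr 48 52 (.thr 26 11 (.thr 31 16 (.dbl 15 37 47))))))))) (.rp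 43 (.thr 58 57 (.thr 26 10 (.thr 31 16 (.thr 41 11 (.thr 61 1 (.thr 60 62 (.thr 48 52 (.dbl 15 37 47)))))))) (.rp 41 (.thr 58 57 (.thr 51 55 (.thr 26 10 (.thr 31 16 (.thr 15 47 (.thr 27 39 (.dbl 25 8 24))))))) (.rp 26 (.thr 57 58 (.thr 55 51 (.thr 25 8 (.thr 4 38 (.thr 41 9 (.thr 40 43 (.thr 61 1 (.thr 60 62 (.thr 52 48 (.thr 36 20 (.thr 32 44 (.thr 37 47 (.thr 45 33 (.dbl 29 13 17)))))))))))))) (.rp 8 (.str 4 (.nv (.dbl 55 38 51) (.rp 55 (.thr 58 57 (.thr 26 10 (.thr 11 41 (.thr 43 27 (.thr 31 16 (.thr 15 47 (.dbl 3 7 23))))))) (.rp 51 (.thr 58 57 (.thr 26 10 (.thr 11 41 (.thr 43 27 (.thr 31 16 (.thr 15 47 (.dbl 3 7 23))))))) (.rp 38 (.thr 58 57 (.thr 26 10 (.thr 11 41 (.thr 27 43 (.thr 31 16 (.thr 15 47 (.dbl 51 39 55))))))) .nd))))) .nd))))))))))) (.rp 8 (.str 43 (.nv (.thr 3 23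 (.thr 11 27 (.thr 15 7 (.thr 31 47 (.thr 26 16 (.dbl 41 40 56)))))) (.nv (.thr 11 27 (.thr 41 40 (.thr 56 26 (.thr 57 58 (.thr 61 1 (.thr 60 62 (.dbl 51 54 55))))))) (.nv (.thr 3 23 (.thr 27 11 (.thr 51 55 (.thr 39 15 (.dbl 35 19 47))))) (.rp 55 (.thr 27 11 (.thr 23 3 (.thr 31 19 (.thr 15 47 (.thr 51 39 (.thr 26 16 (.thr 25 24 (.thr 12 38 (.dbl 29 17 46))))))))) (.rp 27 (.thr 23 3 (.thr 55 51 (.thr 39 7 (.thr 35 47 (.thr 41 40 (.dbl 38 4 44)))))) (.rp 12 (.str 4 (.nv (.dbl 55 38 51) (.rp 55 (.thr 41 40 (.thr 11 27 (.thr 56 26 (.thr 57 58 (.thr 1 61 (.thr 3 23 (.thr 7 15 (.thr 5 6 (.dbl 9 13 25))))))))) (.rp 51 (.thr 41 40 (.thr 11 27 (.thr 3 23 (.thr 15 7 (.thr 31 47 (.dbl 26 16 56)))))) (.rp 38 (.thr 27 11 (.thr 23 3 (.thr 31 19 (.thr 15 47 (.dbl 51 39 55))))) .nd))))) (.rp 11 (.thr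 3 23 (.thr 51 55 (.thr 35 19 (.thr 41 40 (.thr 38 44 (.thr 46 34 (.dbl 12 25 29))))))) (.rp 4 (.str 12 (.nv (.thr 3 23 (.thr 9 6 (.thr 29 46 (.thr 41 40 (.dbl 25 17 57))))) (.nv (.thr 3 23 (.thr 27 11 (.thr 51 55 (.thr 39 15 (.dbl 35 19 47))))) (.nv (.thr 29 46 (.thr 25 17 (.dbl 51 38 55))) .nd)))) (.rp 3 (.thr 11 27 (.thr 51 55 (.thr 41 40 (.thr 56 26 (.thr 57 58 (.thr 25 9 (.thr 29 17 (.dbl 12 38 46)))))))) .nd)))))))))) .nd))))))))))))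

theorem w478 : WinAt (9223376434903384064, 9007199258935297) :=
  chF (K := []) kn c478 9223376434903384064 9007199258935297 0
    [] (by decide +kernel) (by decide +kernel)

/-- A certificate. -/
noncomputable def c479 : Ct := (.str 38 (.nv (.thr 34 46 (.thr 51 17 (.thr 12 25 (.dbl 4 8 55)))) (.nv (.thr 34 46 (.thr 51 17 (.thr 4 55 (.dbl 12 8 25)))) (.rp 55 (.thr 34 46 (.thr 51 17 (.str 48 (.nv (.thr 50 49 (.thr 26 14 (.thr 10 58 (.dbl 15 5 37)))) (.nv (.thr 12 25 (.thr 32 16 (.thr 36 24 (.dbl 37 39 47)))) (.nv (.thr 50 49 (.thr 16 32 (.dbl 26 14 31))) (.rp 53 (.str 52 (.nv (.thr 50 49 (.thr 16 32 (.dbl 26 14 31))) (.nv (.thr 12 25 (.thr 4 8 (.dbl 36 20 24))) (.rp 12 (.str 29 (.nv (.thr 50 49 (.thr 26 14 (.thr 10 58 (.dbl 15 5 37)))) (.nv (.thr 32 16 (.thr 60 56 (.thr 40 20 (.thr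 41 43 (.dbl 35 33 44))))) (.nv (.thr 16 32 (.thr 26 31 (.dbl 50 14 49))) .nd)))) .nd)))) (.rp 52 (.str 53 (.nv (.thr 12 25 (.thr 36 24 (.dbl 37 5 39))) (.nv (.thr 37 5 (.dbl 32 16 47)) (.rp 37 (.str 7 (.nv (.thr 12 25 (.thr 32 16 (.thr 35 33 (.thr 36 24 (.dbl 44 40 41))))) (.nv (.thr 16 32 (.thr 26 31 (.dbl 50 14 49))) (.rp 49 (.thr 16 32 (.thr 26 31 (.thr 10 58 (.thr 15 5 (.thr 27 39 (.dbl 25 12 24)))))) (.rp 32 (.thr 50 49 (.thr 18 2 (.thr 26 14 (.thr 10 58 (.thr 15 5 (.dbl 3 11 33)))))) (.rp 26 (.thr 50 49 (.thr 18 2 (.thr 33 3 (.dbl 32 16 35)))) (.rp 16 (.thr 50 49 (.thr 18 2 (.thr 26 14 (.thr 10 58 (.thr 15 5 (.dbl 3 11 33)))))) (.rp 12 (.str 29 (.nv (.thr 32 16 (.thr 35 33 (.thr 41 44 (.thr 1 61 (.dbl 3 2 19))))) (.nv (.thr 16 32 (.thr 26 31 (.dbl 50 14 49))) (.rp 49 (.thr 16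 32 (.thr 26 31 (.thr 50 14 (.thr 2 18 (.thr 10 58 (.thr 15 5 (.dbl 3 1 11))))))) (.rp 47 (.thr 16 32 (.thr 50 49 (.dbl 26 14 31))) (.rp 32 (.thr 50 49 (.thr 2 18 (.thr 26 14 (.thr 10 58 (.thr 15 5 (.dbl 3 1 11)))))) (.rp 16 (.thr 50 49 (.thr 18 2 (.thr 26 14 (.thr 10 58 (.thr 15 5 (.dbl 3 11 33)))))) .nd))))))) .nd)))))))) (.rp 12 (.str 29 (.nv (.thr 37 5 (.thr 15 26 (.dbl 39 27 36))) (.nv (.thr 37 5 (.dbl 32 16 47)) (.rp 37 (.str 7 (.nv (.thr 32 16 (.thr 35 33 (.thr 41 44 (.thr 1 61 (.dbl 3 2 19))))) (.nv (.thr 16 32 (.thr 26 31 (.dbl 50 14 49))) (.rp 49 (.thr 16 32 (.thr 26 31 (.thr 50 14 (.thr 2 18 (.thr 10 58 (.thr 15 5 (.dbl 3 1 11))))))) (.rp 47 (.thr 16 32 (.thr 50 49 (.dbl 26 14 31))) (.rp 32 (.thr 50 49 (.thr 2 18 (.thr 26 14 (.thr 10 58 (.thr 15 5 (.dbl 3 1 11)))))) (.rp 16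 (.thr 50 49 (.thr 18 2 (.thr 26 14 (.thr 10 58 (.thr 15 5 (.dbl 3 11 33)))))) .nd))))))) (.rp 5 (.thr 16 32 (.thr 50 49 (.dbl 26 14 31))) .nd))))) (.rp 5 (.thr 50 49 (.thr 16 32 (.dbl 26 14 31))) .nd)))))) (.rp 26 (.thr 50 49 (.thr 18 2 (.thr 33 3 (.dbl 32 16 35)))) (.rp 12 (.str 29 (.nv (.thr 50 49 (.thr 26 14 (.thr 10 58 (.dbl 15 5 37)))) (.nv (.thr 32 16 (.thr 37 47 (.thr 15 26 (.dbl 5 10 53)))) (.nv (.thr 16 32 (.thr 50 49 (.dbl 26 14 31))) (.rp 53 (.str 52 (.nv (.thr 50 49 (.thr 26 14 (.thr 10 58 (.dbl 15 5 37)))) (.nv (.thr 32 16 (.thr 60 56 (.thr 40 20 (.thr 41 43 (.dbl 35 33 44))))) (.nv (.thr 16 32 (.thr 26 31 (.dbl 50 14 49))) .nd)))) (.rp 52 (.str 53 (.nv (.thr 37 5 (.thr 15 26 (.dbl 39 27 36))) (.nv (.thr 37 5 (.dbl 32 16 47)) (.rp 37 (.str 7 (.nv (.thr 32 16 (.thr 35 33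 (.thr 41 44 (.thr 1 61 (.dbl 3 2 19))))) (.nv (.thr 16 32 (.thr 26 31 (.dbl 50 14 49))) (.rp 49 (.thr 16 32 (.thr 26 31 (.thr 50 14 (.thr 2 18 (.thr 10 58 (.thr 15 5 (.dbl 3 1 11))))))) (.rp 47 (.thr 16 32 (.thr 50 49 (.dbl 26 14 31))) (.rp 32 (.thr 50 49 (.thr 2 18 (.thr 26 14 (.thr 10 58 (.thr 15 5 (.dbl 3 1 11)))))) (.rp 16 (.thr 50 49 (.thr 18 2 (.thr 26 14 (.thr 10 58 (.thr 15 5 (.dbl 3 11 33)))))) .nd))))))) (.rp 5 (.thr 16 32 (.thr 50 49 (.dbl 26 14 31))) .nd))))) (.rp 26 (.thr 32 16 (.thr 50 49 (.thr 18 2 (.dbl 33 3 35)))) .nd))))))) .nd)))))))))) (.rp 51 (.thr 55 4 (.str 41 (.nv (.thr 40 43 (.thr 44 35 (.thr 32 36 (.thr 46 34 (.dbl 47 37 45))))) (.nv (.thr 34 46 (.thr 35 44 (.thr 32 33 (.thr 43 40 (.dbl 47 37 39))))) (.rp 60 (.str 57 (.nv (.thr 35 44 (.thr 43 40 (.thr 47 39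 (.thr 32 37 (.dbl 34 33 46))))) (.nv (.thr 61 1 (.thr 25 9 (.thr 29 17 (.thr 49 53 (.dbl 13 37 45))))) (.rp 61 (.str 62 (.nv (.thr 46 34 (.thr 14 30 (.thr 26 50 (.thr 56 11 (.dbl 58 10 59))))) (.nv (.thr 34 46 (.thr 35 44 (.thr 32 33 (.thr 43 40 (.dbl 47 37 39))))) (.nv (.thr 25 9 (.thr 43 40 (.thr 59 8 (.thr 11 27 (.dbl 56 26 58))))) .nd)))) (.rp 37 (.thr 43 40 (.thr 25 9 (.thr 59 8 (.thr 56 58 (.dbl 11 26 27))))) .nd))))) (.rp 57 (.str 60 (.nv (.dbl 40 20 43) (.rp 43 (.thr 44 35 (.thr 46 34 (.thr 47 45 (.thr 32 37 (.dbl 40 20 36))))) (.rp 40 (.thr 44 35 (.thr 46 34 (.thr 45 47 (.thr 15 30 (.thr 5 10 (.dbl 37 33 53)))))) (.rp 20 (.thr 44 35 (.thr 40 43 (.thr 46 34 (.thr 47 45 (.dbl 32 36 37))))) .nd))))) (.rp 47 (.thr 1 61 (.thr 2 3 (.thr 34 46 (.thr 50 18 (.thr 26 14 (.thr 10 58 (.thr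 11 56 (.thr 9 8 (.dbl 5 13 15))))))))) (.rp 46 (.thr 40 43 (.thr 1 61 (.thr 3 2 (.thr 44 35 (.thr 32 36 (.thr 48 16 (.thr 33 18 (.dbl 37 45 47)))))))) (.rp 45 (.thr 43 40 (.thr 35 44 (.thr 34 46 (.thr 47 39 (.dbl 32 33 37))))) (.rp 44 (.thr 1 61 (.thr 2 3 (.thr 34 46 (.thr 50 18 (.thr 26 14 (.thr 10 58 (.thr 11 56 (.thr 9 8 (.dbl 5 13 15))))))))) (.rp 43 (.thr 1 61 (.thr 35 44 (.thr 34 46 (.thr 32 33 (.thr 16 48 (.thr 26 31 (.thr 50 14 (.dbl 2 3 18)))))))) (.rp 40 (.thr 1 61 (.thr 2 3 (.thr 35 44 (.thr 34 46 (.thr 50 18 (.thr 26 14 (.thr 16 31 (.dbl 32 33 48)))))))) (.rp 39 (.thr 40 43 (.thr 46 34 (.thr 44 35 (.thr 47 45 (.dbl 32 36 37))))) (.rp 37 (.thr 40 43 (.thr 44 35 (.thr 32 36 (.thr 16 48 (.thr 26 31 (.thr 56 11 (.thr 24 8 (.dbl 20 28 60)))))))) (.rp 35 (.thr 1 61 (.thr 3 2 (.thr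 40 43 (.thr 60 20 (.str 39 (.nv (.thr 36 37 (.thr 32 44 (.thr 48 16 (.thr 24 12 (.dbl 56 8 52))))) (.nv (.thr 7 23 (.thr 15 11 (.thr 45 30 (.dbl 37 33 36)))) (.rp 52 (.thr 36 37 (.thr 7 23 (.thr 44 32 (.thr 15 11 (.thr 45 30 (.dbl 46 34 47)))))) (.rp 37 (.thr 46 34 (.thr 7 23 (.thr 15 11 (.thr 5 10 (.thr 30 45 (.thr 14 62 (.dbl 13 9 12))))))) (.rp 36 (.str 52 (.nv (.thr 7 23 (.thr 15 11 (.thr 5 10 (.thr 45 30 (.dbl 37 33 53))))) (.nv (.thr 48 56 (.thr 32 16 (.thr 33 18 (.dbl 37 45 47)))) (.nv (.thr 7 23 (.thr 11 15 (.dbl 56 26 48))) (.rp 26 (.thr 48 56 (.thr 32 16 (.thr 37 47 (.dbl 33 18 45)))) .nd))))) (.rp 7 (.thr 37 36 (.str 52 (.nv (.thr 45 33 (.thr 15 30 (.dbl 5 10 53))) (.nv (.thr 5 53 (.thr 32 47 (.dbl 48 16 56))) (.nv (.thr 48 56 (.dbl 33 18 45)) (.rp 5 (.str 6 (.nv (.thr 32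 47 (.dbl 48 16 56)) (.nv (.thr 12 9 (.thr 44 28 (.thr 45 33 (.dbl 46 34 47)))) (.nv (.thr 48 56 (.dbl 33 18 45)) .nd)))) .nd)))))) .nd))))))))))) (.rp 34 (.thr 40 43 (.thr 44 35 (.thr 32 36 (.thr 16 48 (.thr 26 31 (.thr 56 11 (.thr 24 8 (.dbl 20 28 60)))))))) (.rp 32 (.thr 1 61 (.thr 2 3 (.thr 34 46 (.thr 50 18 (.thr 26 14 (.thr 10 58 (.thr 11 56 (.thr 9 8 (.dbl 5 13 15))))))))) .nd))))))))))))))))) (.rp 46 (.str 3 (.nv (.thr 1 2 (.thr 41 61 (.thr 35 44 (.thr 51 19 (.thr 17 34 (.dbl 25 12 29)))))) (.nv (.thr 2 1 (.thr 4 55 (.thr 12 8 (.thr 6 9 (.thr 5 7 (.dbl 10 14 15)))))) (.nv (.thr 1 2 (.thr 4 55 (.thr 41 61 (.thr 12 8 (.thr 51 25 (.dbl 35 19 44)))))) (.rp 51 (.thr 1 2 (.thr 41 61 (.thr 40 43 (.thr 60 20 (.thr 44 35 (.thr 12 28 (.dbl 4 8 55))))))) (.rp 29 (.str 12 (.nv (.dbl 4 8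 55) (.rp 55 (.thr 8 4 (.dbl 25 51 59)) (.rp 8 (.thr 9 6 (.thr 1 2 (.thr 41 61 (.dbl 25 51 57)))) (.rp 4 (.thr 9 6 (.thr 1 2 (.thr 41 61 (.dbl 25 51 57)))) .nd))))) (.rp 12 (.str 29 (.nv (.thr 1 2 (.thr 4 55 (.thr 41 61 (.thr 40 43 (.thr 44 35 (.thr 36 32 (.dbl 20 52 60))))))) (.nv (.thr 2 1 (.thr 17 25 (.thr 34 51 (.thr 18 50 (.thr 48 33 (.dbl 16 19 32)))))) (.nv (.thr 1 2 (.thr 25 17 (.thr 61 41 (.thr 13 45 (.thr 37 49 (.dbl 5 9 53)))))) (.rp 2 (.thr 17 25 (.thr 4 55 (.thr 51 34 (.thr 19 35 (.thr 18 16 (.thr 33 48 (.thr 1 49 (.thr 41 61 (.thr 40 43 (.thr 37 45 (.thr 36 39 (.thr 47 32 (.dbl 20 52 60))))))))))))) (.rp 1 (.thr 17 25 (.thr 51 34 (.thr 19 35 (.thr 16 18 (.thr 26 31 (.thr 50 14 (.dbl 48 32 49))))))) .nd)))))) (.rp 2 (.thr 4 55 (.thr 12 8 (.thr 51 25 (.thr 19 35 (.thr 17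 34 (.thr 6 9 (.thr 5 7 (.thr 10 15 (.thr 26 58 (.dbl 16 18 31)))))))))) (.rp 1 (.thr 4 55 (.thr 12 8 (.thr 6 9 (.thr 5 7 (.thr 10 15 (.thr 26 58 (.dbl 14 2 50))))))) .nd))))))))) (.rp 34 (.str 3 (.nv (.thr 1 2 (.thr 41 61 (.thr 40 43 (.thr 44 35 (.thr 60 20 (.thr 12 28 (.dbl 4 8 55))))))) (.nv (.thr 2 1 (.thr 4 55 (.thr 12 8 (.thr 6 9 (.thr 10 14 (.dbl 5 7 15)))))) (.rp 55 (.thr 1 2 (.thr 41 61 (.thr 40 43 (.thr 60 20 (.thr 44 35 (.thr 12 28 (.thr 9 6 (.dbl 25 51 57)))))))) (.rp 12 (.thr 1 2 (.thr 55 4 (.thr 41 61 (.thr 43 40 (.thr 35 44 (.thr 51 19 (.thr 39 47 (.thr 7 23 (.dbl 15 11 27))))))))) (.rp 8 (.thr 1 2 (.thr 41 61 (.thr 40 43 (.thr 60 20 (.thr 44 35 (.thr 12 28 (.thr 25 51 (.dbl 9 6 57)))))))) (.rp 4 (.thr 1 2 (.thr 41 61 (.thr 40 43 (.thr 60 20 (.thr 44 35 (.thr 12 28 (.thr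 25 51 (.dbl 9 6 57)))))))) (.rp 2 (.thr 4 55 (.thr 12 8 (.thr 51 25 (.thr 6 9 (.thr 5 7 (.thr 10 15 (.thr 26 58 (.thr 50 14 (.thr 48 49 (.dbl 16 31 32)))))))))) (.rp 1 (.thr 4 55 (.thr 12 8 (.thr 6 9 (.thr 5 7 (.thr 10 15 (.thr 26 58 (.dbl 14 2 50))))))) .nd))))))))) (.rp 29 (.thr 4 55 (.thr 34 46 (.thr 12 8 (.dbl 51 17 25)))) (.rp 25 (.str 35 (.nv (.thr 4 55 (.thr 12 8 (.thr 34 46 (.thr 32 33 (.thr 48 16 (.thr 36 24 (.dbl 37 39 47))))))) (.nv (.thr 4 55 (.thr 12 8 (.thr 34 46 (.thr 41 44 (.thr 1 61 (.thr 3 2 (.dbl 51 17 19))))))) (.nv (.thr 34 46 (.thr 32 33 (.thr 41 44 (.thr 43 40 (.dbl 47 37 39))))) (.rp 47 (.thr 34 46 (.thr 33 32 (.thr 17 51 (.thr 1 49 (.dbl 41 44 61))))) (.rp 46 (.thr 41 44 (.thr 43 40 (.thr 47 39 (.thr 32 37 (.thr 34 33 (.thr 51 17 (.thr 1 61 (.dbl 3 2 19))))))))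 (.rp 34 (.thr 55 4 (.thr 41 44 (.thr 43 40 (.thr 39 47 (.thr 7 23 (.thr 1 61 (.thr 3 2 (.thr 15 11 (.dbl 51 19 27))))))))) (.rp 28 (.str 19 (.nv (.thr 3 51 (.thr 1 2 (.dbl 41 44 61))) (.nv (.thr 34 46 (.dbl 51 3 17)) (.rp 51 (.thr 34 46 (.thr 32 33 (.thr 37 47 (.thr 36 39 (.dbl 44 40 41))))) (.rp 3 (.thr 34 46 (.thr 32 33 (.thr 17 51 (.dbl 16 18 48)))) .nd))))) (.rp 19 (.str 28 (.nv (.thr 34 46 (.thr 32 33 (.thr 37 47 (.thr 36 39 (.dbl 44 40 41))))) (.nv (.thr 4 55 (.thr 12 8 (.dbl 44 41 60))) (.rp 44 (.thr 34 46 (.thr 32 33 (.thr 47 37 (.thr 43 39 (.thr 16 48 (.thr 20 24 (.dbl 40 41 60))))))) (.rp 41 (.thr 34 46 (.thr 32 33 (.thr 37 47 (.thr 5 53 (.thr 15 10 (.dbl 48 16 26)))))) (.rp 12 (.thr 44 41 (.thr 46 34 (.thr 47 45 (.thr 39 43 (.dbl 37 32 36))))) .nd)))))) (.rp 12 (.thr 46 34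 (.thr 44 41 (.thr 47 45 (.thr 39 43 (.dbl 37 32 36))))) .nd)))))))))) (.rp 17 (.str 35 (.nv (.thr 4 55 (.thr 12 8 (.thr 34 46 (.thr 32 33 (.thr 48 16 (.thr 36 24 (.dbl 37 39 47))))))) (.nv (.thr 4 55 (.thr 12 8 (.thr 41 44 (.thr 1 61 (.thr 3 2 (.dbl 51 19 25)))))) (.nv (.thr 44 41 (.thr 46 34 (.thr 47 45 (.thr 37 32 (.dbl 39 36 43))))) .nd)))) (.rp 12 (.thr 55 4 (.str 37 (.nv (.thr 5 53 (.thr 15 10 (.thr 39 36 (.thr 51 27 (.dbl 34 17 46))))) (.nv (.thr 46 34 (.thr 47 32 (.thr 44 45 (.thr 35 41 (.dbl 39 36 43))))) (.nv (.thr 32 47 (.thr 48 16 (.thr 5 53 (.dbl 15 10 26)))) (.rp 46 (.str 29 (.nv (.thr 25 17 (.thr 13 49 (.thr 61 45 (.thr 1 41 (.dbl 5 9 53))))) (.nv (.thr 5 53 (.thr 25 17 (.thr 13 49 (.thr 1 9 (.dbl 61 41 45))))) (.nv (.thr 5 53 (.thr 15 10 (.thr 32 47 (.dbl 48 16 26))))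 (.rp 53 (.thr 36 39 (.thr 32 47 (.thr 44 40 (.thr 35 41 (.thr 34 33 (.dbl 17 25 51)))))) (.rp 45 (.thr 5 53 (.thr 15 10 (.thr 48 26 (.dbl 32 16 47)))) (.rp 5 (.thr 36 39 (.thr 32 47 (.thr 44 40 (.thr 35 41 (.thr 34 33 (.dbl 17 25 51)))))) .nd))))))) .nd)))))) (.rp 8 (.str 35 (.nv (.thr 4 55 (.thr 41 44 (.thr 1 61 (.thr 3 2 (.thr 51 19 (.thr 17 34 (.dbl 25 12 29))))))) (.nv (.thr 34 46 (.thr 33 32 (.thr 51 17 (.thr 3 19 (.thr 2 1 (.dbl 18 48 50)))))) (.nv (.thr 44 41 (.thr 46 34 (.thr 47 45 (.thr 37 32 (.dbl 39 36 43))))) (.rp 34 (.thr 55 4 (.thr 41 44 (.thr 43 40 (.thr 39 47 (.thr 7 23 (.thr 1 61 (.thr 3 2 (.thr 51 19 (.dbl 15 11 27))))))))) (.rp 3 (.thr 34 46 (.thr 33 32 (.thr 17 51 (.thr 1 49 (.dbl 41 44 61))))) .nd)))))) (.rp 4 (.str 35 (.nv (.thr 34 46 (.thr 33 32 (.thr 51 17 (.thr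 3 19 (.thr 2 1 (.dbl 18 48 50)))))) (.nv (.thr 44 41 (.thr 46 34 (.thr 47 45 (.thr 37 32 (.dbl 39 36 43))))) (.rp 46 (.thr 41 44 (.thr 1 61 (.thr 3 2 (.thr 51 19 (.thr 17 34 (.dbl 25 12 29)))))) (.rp 34 (.thr 41 44 (.thr 43 40 (.thr 39 47 (.thr 1 61 (.thr 3 2 (.thr 51 19 (.thr 15 27 (.thr 5 10 (.dbl 37 36 53))))))))) (.rp 32 (.thr 34 46 (.thr 51 17 (.thr 3 19 (.thr 1 2 (.dbl 41 44 61))))) (.rp 3 (.thr 34 46 (.thr 33 32 (.thr 17 51 (.thr 1 49 (.dbl 41 44 61))))) .nd))))))) .nd)))))))))))))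

theorem w479 : WinAt (4398048608257, 9241386435368452096) :=
  chF (K := []) kn c479 4398048608257 9241386435368452096 63
    [18014673391583296] (by decide +kernel) (by decide +kernel)

/-- A certificate. -/
noncomputable def c480 : Ct := (.str 31 (.nv (.thr 15 47 (.thr 26 16 (.thr 58 10 (.dbl 48 37 53)))) (.rp 58 (.str 30 (.nv (.thr 26 16 (.thr 29 28 (.thr 46 12 (.thr 38 34 (.dbl 14 50 62))))) (.nv (.thr 15 47 (.thr 26 16 (.thr 48 37 (.thr 60 45 (.thr 61 62 (.thr 41 1 (.dbl 56 11 52))))))) (.nv (.thr 15 47 (.thr 26 16 (.thr 29 28 (.thr 25 17 (.thr 24 27 (.thr 48 37 (.dbl 12 36 46))))))) (.nv (.thr 15 47 (.thr 60 45 (.thr 62 61 (.thr 46 14 (.dbl 29 12 28))))) (.rp 46 (.thr 29 28 (.thr 15 47 (.thr 45 60 (.thr 13 61 (.thr 26 16 (.thr 25 17 (.dbl 37 48 49))))))) .nd)))))) (.rp 53 (.str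 60 (.nv (.thr 15 47 (.thr 26 16 (.thr 48 37 (.thr 61 62 (.thr 41 1 (.dbl 56 11 52)))))) (.nv (.thr 15 47 (.thr 62 61 (.thr 30 45 (.thr 46 14 (.dbl 29 12 28))))) (.rp 62 (.thr 15 47 (.thr 30 45 (.thr 29 28 (.thr 26 16 (.thr 25 17 (.thr 24 27 (.thr 48 37 (.dbl 12 36 46)))))))) (.rp 61 (.thr 15 47 (.thr 30 45 (.thr 29 28 (.thr 46 12 (.thr 14 62 (.thr 26 16 (.dbl 38 34 50))))))) (.rp 54 (.str 52 (.nv (.thr 26 16 (.thr 61 62 (.thr 41 1 (.dbl 56 11 48)))) (.nv (.thr 15 47 (.thr 30 45 (.thr 29 28 (.thr 46 12 (.dbl 62 14 61))))) (.nv (.thr 15 47 (.thr 26 16 (.dbl 48 37 56))) (.rp 38 (.str 6 (.nv (.thr 26 16 (.thr 61 62 (.thr 41 1 (.dbl 56 11 48)))) (.nv (.thr 15 47 (.thr 30 45 (.thr 29 28 (.thr 46 12 (.dbl 62 14 61))))) (.nv (.thr 15 47 (.thr 26 16 (.dbl 48 37 56))) .nd)))) (.rp 6 (.str 38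 (.nv (.thr 46 34 (.thr 29 12 (.thr 30 28 (.dbl 62 14 61)))) (.nv (.thr 15 47 (.thr 26 16 (.dbl 48 37 56))) .nd))) .nd)))))) (.rp 52 (.str 54 (.nv (.thr 15 47 (.thr 30 45 (.thr 29 28 (.thr 46 12 (.dbl 62 14 61))))) (.nv (.thr 62 61 (.thr 58 50 (.dbl 26 10 16))) (.rp 62 (.thr 15 47 (.thr 30 45 (.thr 29 28 (.thr 25 17 (.thr 51 57 (.dbl 12 38 46)))))) (.rp 61 (.thr 15 47 (.thr 30 45 (.thr 29 28 (.thr 46 12 (.thr 14 62 (.thr 26 16 (.dbl 38 34 50))))))) (.rp 37 (.str 7 (.nv (.thr 15 47 (.thr 3 11 (.thr 23 43 (.thr 27 19 (.dbl 51 39 57))))) (.nv (.thr 62 61 (.thr 58 50 (.dbl 26 10 16))) (.rp 57 (.thr 26 16 (.thr 58 10 (.dbl 62 50 61))) .nd)))) (.rp 7 (.str 37 (.nv (.thr 62 61 (.thr 58 50 (.dbl 26 10 16))) (.nv (.dbl 47 15 32) (.rp 39 (.str 23 (.nv (.thr 19 27 (.thr 51 57 (.dbl 3 35 43))) (.nv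 (.dbl 47 15 32) .nd))) (.rp 23 (.str 39 (.nv (.thr 62 61 (.thr 58 50 (.dbl 26 10 16))) (.nv (.dbl 47 15 32) .nd))) .nd))))) .nd))))))) (.rp 47 (.thr 61 62 (.thr 41 1 (.thr 43 40 (.thr 26 16 (.thr 11 56 (.thr 27 59 (.dbl 23 3 19))))))) (.rp 15 (.thr 61 62 (.thr 41 1 (.thr 43 40 (.thr 26 16 (.thr 11 56 (.thr 27 59 (.dbl 23 3 19))))))) .nd))))))))) (.rp 48 (.thr 15 47 (.str 29 (.nv (.thr 16 26 (.thr 30 28 (.thr 12 46 (.thr 45 60 (.dbl 13 14 61))))) (.nv (.thr 12 46 (.thr 25 17 (.thr 51 38 (.thr 27 39 (.dbl 26 16 24))))) (.nv (.thr 12 46 (.thr 13 14 (.thr 45 61 (.dbl 30 28 60)))) (.rp 46 (.thr 30 28 (.thr 45 60 (.thr 13 61 (.thr 12 14 (.thr 25 17 (.thr 51 38 (.thr 27 39 (.dbl 26 16 24)))))))) (.rp 45 (.thr 30 28 (.thr 46 12 (.thr 14 62 (.thr 38 34 (.dbl 26 16 50))))) (.rp 16 (.str 32 (.nv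 (.thr 30 28 (.thr 12 46 (.thr 45 60 (.dbl 13 14 61)))) (.nv (.thr 12 46 (.thr 13 14 (.thr 45 61 (.dbl 30 28 60)))) (.rp 61 (.thr 25 17 (.thr 59 8 (.thr 12 46 (.thr 51 38 (.thr 27 39 (.thr 43 11 (.dbl 23 3 19))))))) (.rp 60 (.thr 25 17 (.thr 59 8 (.thr 12 46 (.thr 51 38 (.thr 27 39 (.thr 43 11 (.dbl 23 3 19))))))) (.rp 46 (.thr 30 28 (.thr 45 60 (.thr 61 13 (.thr 41 1 (.thr 33 37 (.thr 40 43 (.thr 44 36 (.dbl 35 34 38)))))))) (.rp 45 (.thr 25 17 (.thr 28 30 (.thr 12 46 (.thr 44 60 (.thr 40 36 (.thr 41 43 (.dbl 38 35 51))))))) (.rp 30 (.thr 25 17 (.thr 59 8 (.thr 12 46 (.thr 51 38 (.thr 27 39 (.thr 43 11 (.dbl 23 3 19))))))) (.rp 28 (.thr 25 17 (.thr 59 8 (.thr 12 46 (.thr 51 38 (.thr 27 39 (.thr 43 11 (.dbl 23 3 19))))))) (.rp 14 (.thr 25 17 (.thr 59 8 (.thr 12 46 (.thr 51 38 (.thr 27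 39 (.thr 43 11 (.dbl 23 3 19))))))) (.rp 13 (.thr 46 12 (.thr 30 28 (.thr 60 45 (.dbl 62 14 61)))) (.rp 12 (.thr 25 17 (.thr 8 59 (.thr 30 28 (.thr 60 45 (.thr 61 62 (.thr 41 1 (.thr 9 57 (.thr 43 40 (.thr 3 23 (.dbl 11 7 10)))))))))) .nd)))))))))))) (.rp 12 (.thr 30 28 (.thr 60 45 (.thr 61 62 (.thr 41 1 (.thr 40 43 (.thr 25 17 (.thr 8 59 (.thr 24 56 (.dbl 26 16 27))))))))) .nd))))))))) (.rp 47 (.str 23 (.nv (.thr 26 16 (.thr 43 3 (.thr 41 40 (.thr 11 56 (.dbl 27 19 59))))) (.nv (.thr 26 16 (.thr 27 19 (.thr 43 3 (.thr 59 11 (.dbl 25 8 24))))) (.nv (.thr 26 16 (.thr 27 19 (.thr 25 24 (.thr 58 10 (.thr 59 8 (.thr 56 57 (.dbl 11 41 43))))))) (.nv (.thr 27 19 (.thr 43 3 (.thr 11 59 (.thr 41 40 (.dbl 26 16 56))))) (.rp 59 (.thr 27 19 (.thr 26 16 (.thr 58 10 (.thr 25 24 (.thr 48 53 (.thr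 15 37 (.thr 51 39 (.thr 38 12 (.dbl 50 14 49))))))))) (.rp 43 (.thr 27 19 (.thr 26 16 (.thr 58 10 (.thr 25 24 (.thr 17 29 (.thr 59 8 (.thr 48 53 (.thr 15 37 (.thr 56 57 (.thr 11 41 (.thr 3 7 (.thr 52 60 (.thr 33 18 (.thr 49 1 (.dbl 51 39 50))))))))))))))) (.rp 41 (.thr 27 19 (.thr 26 16 (.thr 25 24 (.thr 59 8 (.dbl 43 3 11))))) (.rp 27 (.thr 43 3 (.thr 26 16 (.thr 58 10 (.thr 41 40 (.thr 1 61 (.thr 56 11 (.thr 57 59 (.thr 9 25 (.thr 5 13 (.dbl 53 37 48)))))))))) (.rp 26 (.thr 27 19 (.thr 43 3 (.thr 59 11 (.thr 25 8 (.thr 17 29 (.thr 41 40 (.thr 9 57 (.thr 1 61 (.thr 13 5 (.dbl 49 33 37)))))))))) (.rp 19 (.thr 43 3 (.thr 26 16 (.thr 10 58 (.thr 41 40 (.thr 11 56 (.thr 59 27 (.dbl 8 9 25))))))) (.rp 16 (.thr 27 19 (.thr 43 3 (.thr 59 11 (.thr 25 8 (.thr 17 29 (.thr 41 40 (.thr 9 57 (.thr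 1 61 (.thr 13 5 (.dbl 49 33 37)))))))))) (.rp 11 (.thr 27 19 (.thr 26 16 (.thr 58 10 (.thr 25 24 (.thr 48 53 (.thr 15 37 (.thr 51 39 (.thr 38 12 (.dbl 50 14 49))))))))) .nd))))))))))))) (.rp 37 (.thr 15 47 (.str 7 (.nv (.thr 26 16 (.thr 10 58 (.thr 11 3 (.thr 41 56 (.thr 8 9 (.thr 59 25 (.dbl 43 27 40))))))) (.nv (.thr 11 3 (.thr 26 16 (.thr 41 56 (.thr 43 40 (.thr 59 27 (.thr 10 58 (.dbl 8 9 25))))))) (.rp 59 (.thr 3 11 (.thr 43 23 (.thr 41 40 (.thr 61 1 (.thr 60 62 (.thr 30 45 (.thr 29 28 (.thr 25 17 (.thr 9 57 (.dbl 12 6 46)))))))))) (.rp 58 (.thr 3 11 (.thr 43 23 (.thr 41 40 (.thr 61 1 (.thr 60 62 (.thr 30 45 (.thr 29 28 (.thr 25 17 (.thr 9 57 (.dbl 12 6 46)))))))))) (.rp 56 (.thr 3 11 (.thr 43 23 (.thr 41 40 (.thr 61 1 (.thr 60 62 (.thr 30 45 (.thr 29 28 (.thr 25 17 (.thr 9 57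 (.dbl 12 6 46)))))))))) (.rp 48 (.thr 3 11 (.thr 43 23 (.thr 41 40 (.thr 61 1 (.thr 60 62 (.thr 30 45 (.thr 29 28 (.thr 25 17 (.thr 9 57 (.dbl 12 6 46)))))))))) (.rp 43 (.thr 11 3 (.thr 26 16 (.thr 10 58 (.thr 8 9 (.thr 25 59 (.thr 24 27 (.dbl 56 40 41))))))) (.rp 41 (.thr 3 11 (.thr 23 43 (.thr 27 19 (.thr 26 16 (.thr 58 10 (.thr 25 24 (.thr 17 29 (.thr 48 53 (.thr 33 18 (.thr 49 1 (.dbl 51 39 50))))))))))) (.rp 40 (.thr 11 3 (.thr 26 16 (.thr 10 58 (.thr 8 9 (.thr 25 59 (.thr 29 17 (.thr 12 46 (.thr 14 13 (.dbl 38 50 51))))))))) (.rp 32 (.thr 3 11 (.thr 43 23 (.thr 41 40 (.thr 61 1 (.thr 60 62 (.thr 30 45 (.thr 29 28 (.thr 25 17 (.thr 9 57 (.dbl 12 6 46)))))))))) (.rp 27 (.thr 11 3 (.thr 26 16 (.thr 10 58 (.thr 8 9 (.thr 25 59 (.thr 29 17 (.thr 12 46 (.thr 14 13 (.dbl 38 50 51)))))))))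 (.rp 26 (.thr 3 11 (.thr 43 23 (.thr 41 40 (.thr 61 1 (.thr 60 62 (.thr 30 45 (.thr 29 28 (.thr 25 17 (.thr 9 57 (.dbl 12 6 46)))))))))) (.rp 25 (.thr 3 11 (.thr 43 23 (.thr 26 16 (.thr 58 10 (.thr 41 40 (.thr 61 1 (.thr 48 53 (.thr 18 33 (.thr 60 62 (.thr 30 45 (.thr 28 29 (.thr 44 12 (.thr 38 35 (.thr 34 46 (.dbl 50 2 14))))))))))))))) (.rp 16 (.thr 3 11 (.thr 43 23 (.thr 41 40 (.thr 61 1 (.thr 60 62 (.thr 30 45 (.thr 29 28 (.thr 25 17 (.thr 9 57 (.dbl 12 6 46)))))))))) (.rp 11 (.str 38 (.nv (.thr 26 16 (.thr 14 50 (.thr 12 13 (.dbl 46 29 34)))) (.nv (.thr 46 34 (.thr 29 12 (.thr 30 28 (.thr 60 45 (.dbl 62 14 61))))) (.nv (.thr 46 34 (.thr 12 29 (.thr 26 16 (.dbl 14 13 50)))) (.rp 46 (.thr 26 16 (.thr 58 10 (.thr 48 53 (.thr 14 50 (.thr 12 13 (.thr 24 36 (.dbl 25 27 51))))))) (.rp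 34 (.thr 26 16 (.thr 14 50 (.thr 12 13 (.thr 29 46 (.dbl 25 17 51))))) (.rp 29 (.thr 26 16 (.thr 58 10 (.thr 48 53 (.thr 14 50 (.thr 12 13 (.thr 24 36 (.dbl 25 27 51))))))) (.rp 14 (.thr 46 34 (.thr 12 29 (.thr 26 16 (.thr 58 10 (.thr 48 53 (.thr 24 36 (.dbl 25 27 51))))))) (.rp 12 (.thr 26 16 (.thr 58 10 (.thr 48 53 (.thr 50 14 (.thr 54 62 (.thr 51 49 (.thr 27 39 (.thr 25 24 (.thr 57 60 (.dbl 59 8 56)))))))))) .nd))))))))) (.rp 10 (.thr 3 11 (.thr 43 23 (.thr 41 40 (.thr 61 1 (.thr 60 62 (.thr 30 45 (.thr 29 28 (.thr 25 17 (.thr 9 57 (.dbl 12 6 46)))))))))) (.rp 9 (.thr 11 3 (.thr 26 16 (.thr 58 10 (.thr 48 53 (.thr 41 56 (.thr 43 40 (.thr 27 59 (.thr 51 39 (.thr 50 49 (.thr 38 14 (.dbl 25 12 24))))))))))) (.rp 8 (.thr 3 11 (.thr 43 23 (.thr 41 40 (.thr 61 1 (.thr 60 62 (.thr 30 45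 (.thr 29 28 (.thr 25 17 (.thr 9 57 (.dbl 12 6 46)))))))))) (.rp 3 (.str 60 (.nv (.thr 26 16 (.thr 30 45 (.thr 29 28 (.thr 46 12 (.thr 14 62 (.dbl 38 34 50)))))) (.nv (.thr 26 16 (.thr 30 45 (.thr 58 10 (.thr 62 61 (.thr 50 54 (.dbl 14 38 46)))))) (.nv (.thr 62 61 (.thr 30 45 (.thr 46 14 (.dbl 29 12 28)))) (.rp 62 (.thr 30 45 (.thr 29 28 (.thr 26 16 (.thr 58 10 (.thr 25 17 (.thr 24 27 (.thr 48 53 (.dbl 12 36 46)))))))) (.rp 46 (.thr 62 61 (.thr 26 16 (.thr 58 10 (.thr 48 53 (.thr 56 52 (.thr 54 50 (.dbl 57 51 59))))))) (.rp 45 (.thr 62 61 (.thr 26 16 (.thr 58 10 (.thr 48 53 (.thr 56 52 (.thr 54 50 (.dbl 57 51 59))))))) (.rp 41 (.thr 62 61 (.thr 26 16 (.thr 58 10 (.thr 48 53 (.thr 56 52 (.thr 54 50 (.dbl 57 51 59))))))) (.rp 33 (.thr 62 61 (.thr 26 16 (.thr 58 10 (.thr 48 53 (.thr 56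 52 (.thr 54 50 (.dbl 57 51 59))))))) (.rp 30 (.thr 62 61 (.thr 26 16 (.thr 58 10 (.thr 48 53 (.thr 56 52 (.thr 54 50 (.dbl 57 51 59))))))) (.rp 29 (.thr 62 61 (.thr 26 16 (.thr 58 10 (.thr 48 53 (.thr 56 52 (.thr 54 50 (.dbl 57 51 59))))))) (.rp 14 (.thr 62 61 (.thr 26 16 (.thr 58 10 (.thr 48 53 (.thr 56 52 (.thr 54 50 (.dbl 57 51 59))))))) (.rp 2 (.str 1 (.nv (.dbl 61 41 62) (.rp 62 (.thr 26 16 (.thr 58 10 (.thr 48 53 (.thr 41 61 (.dbl 56 11 52))))) (.rp 61 (.thr 26 16 (.thr 30 45 (.thr 29 28 (.thr 46 12 (.thr 14 62 (.dbl 38 34 50)))))) (.rp 41 (.thr 26 16 (.thr 62 61 (.thr 58 10 (.thr 54 50 (.thr 57 51 (.thr 56 59 (.dbl 48 52 53))))))) .nd))))) (.rp 1 (.str 2 (.nv (.thr 26 16 (.thr 10 58 (.thr 14 6 (.thr 12 13 (.thr 28 44 (.dbl 29 30 46)))))) (.nv (.thr 26 16 (.thr 58 10 (.thr 62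 61 (.thr 50 54 (.thr 38 14 (.dbl 34 18 46)))))) (.nv (.thr 62 61 (.thr 30 45 (.thr 46 14 (.dbl 29 12 28)))) (.rp 46 (.thr 45 30 (.thr 26 16 (.thr 10 58 (.thr 61 62 (.thr 14 6 (.dbl 13 12 29)))))) (.rp 14 (.thr 62 61 (.thr 26 16 (.thr 58 10 (.thr 54 50 (.thr 48 53 (.thr 56 52 (.dbl 57 51 59))))))) .nd)))))) .nd)))))))))))))) (.rp 2 (.thr 3 11 (.thr 43 23 (.thr 41 40 (.thr 61 1 (.thr 60 62 (.thr 30 45 (.thr 29 28 (.thr 25 17 (.thr 9 57 (.dbl 12 6 46)))))))))) (.rp 1 (.thr 3 11 (.str 19 (.nv (.dbl 23 27 43) (.rp 43 (.thr 27 23 (.dbl 51 35 39)) (.rp 27 (.thr 35 51 (.thr 43 23 (.thr 26 16 (.thr 41 40 (.thr 38 44 (.thr 14 50 (.thr 12 13 (.dbl 46 29 34)))))))) (.rp 23 (.thr 51 35 (.thr 26 16 (.thr 58 10 (.thr 48 53 (.thr 50 49 (.thr 38 14 (.thr 34 46 (.dbl 18 2 33)))))))) .nd)))))) .nd)))))))))))))))))))))))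 (.rp 32 (.thr 15 47 (.thr 26 16 (.thr 48 37 (.dbl 58 10 53)))) (.rp 26 (.thr 15 47 (.str 30 (.nv (.thr 29 28 (.thr 25 17 (.thr 12 46 (.thr 45 60 (.dbl 13 14 61))))) (.nv (.thr 29 28 (.thr 60 45 (.thr 62 61 (.dbl 46 12 14)))) (.rp 61 (.thr 29 28 (.thr 12 46 (.thr 25 17 (.thr 59 8 (.thr 51 38 (.thr 27 39 (.thr 43 11 (.dbl 23 3 19)))))))) (.rp 60 (.thr 29 28 (.thr 12 46 (.thr 13 14 (.thr 25 17 (.thr 37 49 (.thr 5 53 (.thr 1 9 (.dbl 61 41 45)))))))) (.rp 46 (.thr 29 28 (.thr 45 60 (.thr 13 61 (.thr 12 14 (.thr 25 17 (.thr 37 49 (.thr 53 5 (.thr 48 58 (.thr 36 24 (.dbl 38 39 51)))))))))) (.rp 45 (.thr 29 28 (.thr 46 12 (.thr 62 14 (.thr 60 61 (.thr 38 34 (.thr 25 17 (.str 51 (.nv (.thr 27 39 (.thr 23 19 (.thr 43 3 (.dbl 59 8 11)))) (.nv (.thr 8 59 (.thr 57 54 (.thr 41 9 (.thr 35 44 (.thr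 3 19 (.dbl 43 23 40)))))) (.nv (.thr 39 27 (.thr 37 36 (.thr 53 5 (.thr 54 57 (.dbl 58 48 50))))) (.rp 8 (.str 4 (.nv (.thr 39 27 (.thr 37 36 (.thr 49 13 (.thr 48 50 (.dbl 53 5 58))))) (.nv (.thr 57 54 (.thr 41 9 (.thr 35 44 (.thr 3 19 (.dbl 43 23 40))))) (.nv (.thr 39 27 (.thr 37 36 (.thr 49 13 (.thr 54 57 (.dbl 50 48 58))))) .nd)))) .nd))))))))))) (.rp 29 (.thr 60 45 (.thr 61 62 (.thr 41 1 (.thr 43 40 (.thr 3 23 (.thr 7 11 (.str 53 (.nv (.thr 57 49 (.thr 58 48 (.thr 59 56 (.dbl 25 8 9)))) (.nv (.thr 5 37 (.thr 6 4 (.thr 57 49 (.dbl 9 12 25)))) (.rp 57 (.thr 5 37 (.thr 6 4 (.thr 12 9 (.thr 14 13 (.thr 44 28 (.thr 38 35 (.thr 34 46 (.thr 48 58 (.thr 18 33 (.dbl 2 10 50)))))))))) (.rp 49 (.thr 5 37 (.thr 6 4 (.thr 12 9 (.thr 44 28 (.thr 38 35 (.thr 14 13 (.thr 25 51 (.thr 8 59 (.thr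 2 10 (.thr 34 46 (.thr 18 50 (.dbl 48 33 58)))))))))))) (.rp 46 (.str 44 (.nv (.thr 35 38 (.thr 57 49 (.dbl 51 19 54))) (.nv (.thr 5 37 (.thr 6 4 (.dbl 12 9 28))) (.rp 6 (.thr 12 28 (.thr 13 14 (.thr 37 5 (.dbl 49 25 57)))) .nd)))) (.rp 44 (.str 46 (.nv (.thr 48 58 (.thr 18 33 (.thr 49 57 (.thr 50 51 (.dbl 34 2 38))))) (.nv (.thr 5 37 (.thr 6 4 (.thr 57 49 (.dbl 9 12 25)))) (.rp 57 (.thr 37 5 (.thr 38 34 (.thr 36 39 (.thr 48 58 (.thr 12 24 (.thr 13 14 (.dbl 25 49 51))))))) (.rp 49 (.thr 37 5 (.thr 38 34 (.thr 36 39 (.thr 48 58 (.thr 12 24 (.thr 9 6 (.dbl 25 51 57))))))) (.rp 36 (.str 32 (.nv (.thr 5 37 (.thr 6 4 (.thr 57 49 (.dbl 9 12 25)))) (.nv (.thr 48 58 (.thr 33 18 (.dbl 34 35 38))) (.rp 38 (.thr 57 49 (.thr 58 48 (.thr 59 56 (.dbl 25 8 9)))) (.rp 33 (.thr 5 37 (.thr 6 4 (.thr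 38 34 (.thr 12 9 (.thr 51 25 (.dbl 57 49 54)))))) .nd))))) (.rp 33 (.thr 5 37 (.thr 6 4 (.thr 12 9 (.thr 38 34 (.thr 51 25 (.dbl 57 49 54)))))) (.rp 32 (.str 36 (.nv (.thr 48 58 (.thr 12 24 (.thr 57 49 (.dbl 9 6 25)))) (.nv (.thr 37 5 (.dbl 38 34 39)) (.rp 48 (.str 16 (.nv (.thr 5 37 (.thr 6 4 (.thr 57 49 (.dbl 9 12 25)))) (.nv (.thr 38 34 (.thr 57 49 (.thr 51 54 (.dbl 25 9 12)))) (.nv (.thr 37 5 (.dbl 38 34 39)) (.rp 9 (.thr 38 34 (.dbl 37 5 39)) .nd))))) (.rp 9 (.thr 38 34 (.dbl 37 5 39)) .nd))))) .nd)))))))) (.rp 33 (.thr 5 37 (.thr 6 4 (.thr 12 9 (.thr 44 28 (.thr 38 35 (.thr 49 57 (.thr 48 58 (.dbl 51 25 50)))))))) (.rp 25 (.thr 5 37 (.thr 6 4 (.thr 12 9 (.thr 14 13 (.thr 49 57 (.thr 48 58 (.thr 18 33 (.thr 50 51 (.dbl 2 10 34))))))))) (.rp 17 (.thr 5 37 (.thr 6 4 (.thr 48 58 (.thr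 57 49 (.thr 33 18 (.dbl 9 12 25)))))) (.rp 9 (.thr 57 49 (.thr 51 54 (.thr 39 27 (.thr 35 19 (.thr 38 44 (.thr 46 34 (.dbl 37 5 36))))))) (.rp 8 (.thr 37 5 (.thr 57 49 (.thr 51 54 (.thr 39 27 (.thr 38 36 (.dbl 25 9 12)))))) .nd)))))))))))))))))) (.rp 28 (.thr 60 45 (.thr 62 61 (.thr 46 14 (.thr 29 12 (.thr 38 34 (.thr 25 17 (.str 51 (.nv (.thr 27 39 (.thr 23 19 (.thr 43 3 (.dbl 59 8 11)))) (.nv (.thr 8 59 (.thr 57 54 (.thr 41 9 (.thr 35 44 (.thr 3 19 (.dbl 43 23 40)))))) (.nv (.thr 39 27 (.thr 37 36 (.thr 53 5 (.thr 54 57 (.dbl 58 48 50))))) (.rp 8 (.str 4 (.nv (.thr 39 27 (.thr 37 36 (.thr 49 13 (.thr 48 50 (.dbl 53 5 58))))) (.nv (.thr 57 54 (.thr 41 9 (.thr 35 44 (.thr 3 19 (.dbl 43 23 40))))) (.nv (.thr 39 27 (.thr 37 36 (.thr 49 13 (.thr 54 57 (.dbl 50 48 58))))) .nd)))) .nd)))))))))))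 (.rp 25 (.thr 60 45 (.thr 62 61 (.thr 46 14 (.dbl 29 12 28)))) (.rp 14 (.thr 29 28 (.thr 60 45 (.thr 61 62 (.thr 41 1 (.thr 25 17 (.thr 57 9 (.thr 51 54 (.dbl 12 38 46)))))))) (.rp 12 (.thr 29 28 (.thr 60 45 (.thr 61 62 (.thr 41 1 (.thr 43 40 (.thr 3 23 (.thr 25 17 (.thr 9 57 (.thr 8 59 (.dbl 11 7 10)))))))))) .nd))))))))))))) (.rp 16 (.thr 15 47 (.str 29 (.nv (.thr 30 28 (.thr 12 46 (.thr 45 60 (.dbl 13 14 61)))) (.nv (.thr 12 46 (.thr 13 14 (.thr 25 17 (.thr 37 49 (.thr 48 26 (.dbl 53 5 58)))))) (.nv (.thr 12 46 (.thr 13 14 (.thr 45 61 (.dbl 30 28 60)))) (.rp 48 (.str 32 (.nv (.thr 30 28 (.thr 12 46 (.thr 45 60 (.dbl 13 14 61)))) (.nv (.thr 12 46 (.thr 13 14 (.thr 45 61 (.dbl 30 28 60)))) (.rp 61 (.thr 25 17 (.thr 59 8 (.thr 12 46 (.thr 51 38 (.thr 27 39 (.thr 43 11 (.dbl 23 3 19)))))))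 (.rp 60 (.thr 25 17 (.thr 59 8 (.thr 12 46 (.thr 51 38 (.thr 27 39 (.thr 43 11 (.dbl 23 3 19))))))) (.rp 46 (.thr 30 28 (.thr 45 60 (.thr 61 13 (.thr 41 1 (.thr 33 37 (.thr 40 43 (.thr 44 36 (.dbl 35 34 38)))))))) (.rp 45 (.thr 25 17 (.thr 28 30 (.thr 12 46 (.thr 44 60 (.thr 40 36 (.thr 41 43 (.dbl 38 35 51))))))) (.rp 30 (.thr 25 17 (.thr 59 8 (.thr 12 46 (.thr 51 38 (.thr 27 39 (.thr 43 11 (.dbl 23 3 19))))))) (.rp 28 (.thr 25 17 (.thr 59 8 (.thr 12 46 (.thr 51 38 (.thr 27 39 (.thr 43 11 (.dbl 23 3 19))))))) (.rp 14 (.thr 25 17 (.thr 59 8 (.thr 12 46 (.thr 51 38 (.thr 27 39 (.thr 43 11 (.dbl 23 3 19))))))) (.rp 13 (.thr 46 12 (.thr 30 28 (.thr 60 45 (.dbl 62 14 61)))) (.rp 12 (.thr 25 17 (.thr 8 59 (.thr 30 28 (.thr 60 45 (.thr 61 62 (.thr 41 1 (.thr 9 57 (.thr 43 40 (.thr 3 23 (.dbl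 11 7 10)))))))))) .nd)))))))))))) (.rp 46 (.thr 30 28 (.thr 45 60 (.thr 13 61 (.thr 25 17 (.thr 37 49 (.thr 53 5 (.dbl 48 26 58))))))) (.rp 45 (.thr 30 28 (.thr 46 12 (.thr 14 62 (.thr 38 34 (.thr 26 50 (.thr 58 10 (.dbl 48 37 53))))))) (.rp 32 (.str 48 (.nv (.thr 12 46 (.thr 13 14 (.thr 30 28 (.dbl 45 60 61)))) (.nv (.thr 53 58 (.dbl 37 5 26)) .nd))) (.rp 30 (.thr 12 46 (.thr 25 17 (.thr 59 8 (.thr 51 38 (.thr 27 39 (.thr 43 11 (.dbl 23 3 19))))))) (.rp 14 (.thr 30 28 (.thr 45 60 (.thr 13 61 (.thr 25 17 (.thr 37 49 (.thr 53 5 (.dbl 48 26 58))))))) (.rp 13 (.thr 30 28 (.thr 60 45 (.thr 46 12 (.dbl 62 14 61)))) (.rp 12 (.thr 30 28 (.thr 60 45 (.thr 61 62 (.thr 41 1 (.thr 40 43 (.thr 25 17 (.thr 9 57 (.thr 8 59 (.thr 11 10 (.dbl 56 24 26)))))))))) .nd))))))))))))) (.rp 15 (.thr 26 16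 (.thr 10 58 (.str 25 (.nv (.thr 29 17 (.thr 30 28 (.thr 46 12 (.thr 14 62 (.dbl 38 34 50))))) (.nv (.thr 24 27 (.thr 8 59 (.thr 11 9 (.dbl 56 40 41)))) (.rp 51 (.thr 27 24 (.thr 59 8 (.thr 43 11 (.dbl 23 3 19)))) (.rp 48 (.str 32 (.nv (.thr 8 59 (.thr 9 11 (.thr 37 47 (.thr 5 53 (.dbl 13 1 49))))) (.nv (.thr 29 17 (.thr 30 28 (.thr 46 12 (.thr 14 62 (.dbl 38 34 50))))) (.nv (.thr 24 27 (.thr 8 59 (.thr 11 9 (.dbl 56 40 41)))) (.rp 8 (.thr 27 24 (.thr 23 19 (.thr 43 3 (.thr 11 59 (.dbl 41 40 56))))) .nd))))) (.rp 32 (.str 48 (.nv (.thr 29 17 (.thr 30 28 (.thr 46 12 (.thr 14 62 (.dbl 38 34 50))))) (.nv (.thr 8 59 (.thr 11 9 (.thr 56 41 (.dbl 24 27 40)))) (.nv (.thr 24 27 (.thr 12 36 (.dbl 29 17 46))) (.rp 24 (.thr 29 17 (.thr 28 30 (.thr 8 59 (.thr 11 9 (.thr 56 41 (.thr 60 52 (.dbl 12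 44 46))))))) .nd))))) (.rp 24 (.thr 8 59 (.thr 9 11 (.thr 29 17 (.thr 12 46 (.thr 3 6 (.thr 43 23 (.dbl 41 40 57))))))) (.rp 8 (.thr 27 24 (.thr 23 19 (.thr 43 3 (.thr 11 59 (.dbl 41 40 56))))) .nd)))))))))) (.rp 10 (.thr 15 47 (.str 23 (.nv (.thr 26 16 (.thr 43 3 (.thr 41 40 (.thr 11 56 (.dbl 27 19 59))))) (.nv (.thr 26 16 (.thr 27 19 (.thr 25 24 (.thr 51 39 (.thr 12 38 (.dbl 29 17 46)))))) (.nv (.thr 27 19 (.thr 43 3 (.thr 11 59 (.thr 41 40 (.dbl 26 16 56))))) (.rp 43 (.thr 27 19 (.thr 26 16 (.thr 25 24 (.thr 17 29 (.thr 59 8 (.thr 48 37 (.thr 58 53 (.thr 56 57 (.thr 11 41 (.thr 3 7 (.thr 52 60 (.thr 33 18 (.thr 49 1 (.dbl 51 39 50)))))))))))))) (.rp 27 (.thr 3 43 (.thr 11 7 (.thr 26 16 (.thr 41 56 (.thr 61 1 (.thr 60 62 (.thr 45 30 (.dbl 37 33 48)))))))) (.rp 26 (.thr 27 19 (.thr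 51 39 (.thr 43 3 (.thr 59 11 (.thr 41 40 (.thr 25 8 (.thr 9 57 (.thr 29 17 (.dbl 12 38 46))))))))) (.rp 20 (.thr 27 19 (.thr 43 3 (.thr 11 59 (.thr 26 16 (.dbl 41 40 56))))) (.rp 19 (.thr 3 43 (.thr 11 7 (.thr 26 16 (.thr 41 56 (.thr 61 1 (.thr 60 62 (.thr 45 30 (.dbl 37 33 48)))))))) (.rp 16 (.thr 27 19 (.thr 51 39 (.thr 43 3 (.thr 59 11 (.thr 41 40 (.thr 25 8 (.thr 9 57 (.thr 12 38 (.dbl 29 17 46))))))))) .nd))))))))))) .nd))))))))))))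

theorem w480 : WinAt (9223376434903384064, 36028797023158273) :=
  chF (K := []) kn c480 9223376434903384064 36028797023158273 0
    [] (by decide +kernel) (by decide +kernel)

/-- A certificate. -/
noncomputable def c481 : Ct := (.str 12 (.nv (.thr 8 4 (.thr 25 59 (.thr 51 38 (.dbl 17 29 34)))) (.nv (.thr 4 8 (.thr 38 55 (.thr 34 46 (.dbl 51 17 25)))) (.rp 59 (.thr 4 8 (.thr 38 55 (.thr 51 25 (.dbl 34 17 46)))) (.rp 51 (.thr 4 8 (.thr 55 38 (.str 6 (.nv (.thr 5 7 (.thr 37 53 (.thr 32 47 (.thr 48 16 (.dbl 15 10 26))))) (.nv (.thr 3 9 (.thr 2 1 (.thr 5 7 (.dbl 10 14 15)))) (.rp 40 (.str 24 (.nv (.thr 3 9 (.thr 2 1 (.thr 10 14 (.dbl 5 7 15)))) (.nv (.thr 5 7 (.thr 37 53 (.thr 48 36 (.dbl 32 16 47)))) (.rp 7 (.thr 48 36 (.thr 32 16 (.thr 37 47 (.thr 15 26 (.dbl 5 10 53))))) (.rp 5 (.thr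 48 36 (.thr 32 16 (.thr 37 47 (.thr 15 26 (.thr 14 13 (.thr 2 10 (.dbl 3 1 9))))))) .nd))))) (.rp 37 (.thr 3 9 (.thr 2 1 (.thr 10 14 (.dbl 5 7 15)))) (.rp 24 (.str 40 (.nv (.thr 5 7 (.thr 53 37 (.thr 52 54 (.dbl 20 36 60)))) (.nv (.thr 41 43 (.thr 3 9 (.dbl 1 2 61))) .nd))) (.rp 15 (.thr 5 7 (.thr 53 37 (.thr 52 54 (.thr 3 9 (.thr 1 2 (.thr 41 61 (.thr 40 43 (.dbl 20 36 60)))))))) (.rp 10 (.thr 5 7 (.thr 37 53 (.thr 32 47 (.thr 48 16 (.thr 36 24 (.thr 40 44 (.dbl 20 52 60))))))) (.rp 7 (.thr 3 9 (.thr 2 1 (.thr 10 14 (.thr 26 58 (.thr 16 31 (.thr 48 32 (.dbl 15 5 37))))))) (.rp 5 (.thr 3 9 (.thr 1 2 (.thr 41 61 (.thr 40 43 (.thr 60 20 (.thr 44 28 (.thr 32 36 (.thr 37 47 (.thr 33 45 (.dbl 48 16 18)))))))))) .nd)))))))))))) (.rp 38 (.str 6 (.nv (.thr 3 9 (.thr 2 1 (.thr 10 14 (.thr 26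 58 (.thr 16 31 (.thr 48 32 (.dbl 15 5 37))))))) (.nv (.thr 4 8 (.thr 5 7 (.thr 37 53 (.thr 32 47 (.thr 48 16 (.dbl 15 10 26)))))) (.nv (.thr 4 8 (.thr 5 7 (.thr 3 9 (.thr 2 1 (.dbl 10 14 15))))) (.rp 37 (.thr 9 3 (.thr 8 4 (.thr 10 11 (.thr 14 2 (.dbl 15 5 13))))) (.rp 15 (.thr 3 9 (.thr 4 8 (.thr 5 7 (.thr 1 2 (.thr 41 61 (.thr 37 53 (.thr 33 45 (.thr 48 18 (.dbl 32 16 47))))))))) (.rp 10 (.thr 9 3 (.thr 4 8 (.thr 5 7 (.thr 13 1 (.thr 15 14 (.thr 37 53 (.thr 32 47 (.dbl 48 16 26)))))))) (.rp 5 (.thr 9 3 (.thr 8 4 (.thr 10 11 (.thr 14 2 (.thr 15 13 (.thr 26 58 (.thr 16 31 (.dbl 48 32 37)))))))) .nd)))))))) (.rp 34 (.str 60 (.nv (.thr 4 8 (.thr 38 55 (.thr 40 20 (.thr 41 43 (.dbl 44 28 35))))) (.nv (.thr 8 4 (.thr 25 59 (.thr 40 20 (.thr 41 43 (.thr 51 38 (.dbl 57 9 54)))))) (.nv (.thr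 28 44 (.thr 20 40 (.thr 4 8 (.thr 24 16 (.dbl 36 48 52))))) (.rp 40 (.thr 28 44 (.thr 8 4 (.thr 25 59 (.thr 29 17 (.thr 30 31 (.thr 15 45 (.thr 13 14 (.thr 37 49 (.dbl 5 10 53))))))))) (.rp 20 (.thr 44 28 (.thr 4 8 (.thr 38 55 (.thr 41 35 (.thr 1 61 (.thr 3 2 (.thr 9 6 (.dbl 25 51 57)))))))) (.rp 8 (.thr 44 28 (.thr 40 20 (.thr 32 36 (.thr 37 47 (.thr 5 53 (.thr 15 10 (.dbl 48 16 26))))))) (.rp 4 (.thr 44 28 (.thr 40 20 (.thr 41 43 (.thr 1 61 (.thr 38 35 (.thr 25 51 (.thr 9 57 (.dbl 3 2 6)))))))) .nd)))))))) (.rp 25 (.thr 4 8 (.thr 38 55 (.thr 34 46 (.thr 51 17 (.str 26 (.nv (.thr 10 58 (.thr 15 5 (.thr 16 31 (.dbl 48 32 37)))) (.nv (.thr 16 31 (.thr 48 32 (.dbl 50 14 49))) (.nv (.thr 14 50 (.thr 15 13 (.dbl 10 5 58))) (.rp 40 (.str 24 (.nv (.thr 14 50 (.thr 15 13 (.dbl 10 5 58))) (.nv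 (.thr 48 36 (.dbl 16 31 32)) (.rp 28 (.str 19 (.nv (.thr 3 35 (.thr 2 1 (.dbl 50 14 18))) (.nv (.thr 48 36 (.dbl 16 31 32)) .nd))) (.rp 19 (.str 28 (.nv (.thr 48 36 (.dbl 50 14 49)) (.nv (.dbl 16 20 31) (.rp 16 (.str 18 (.nv (.thr 10 58 (.thr 15 5 (.dbl 48 36 37))) (.nv (.dbl 50 2 14) .nd))) .nd)))) .nd))))) (.rp 28 (.str 19 (.nv (.thr 10 58 (.thr 15 5 (.thr 27 39 (.dbl 31 16 23)))) (.nv (.thr 50 14 (.thr 2 18 (.dbl 3 1 35))) (.rp 40 (.str 24 (.nv (.thr 3 35 (.thr 2 1 (.dbl 50 14 18))) (.nv (.thr 48 36 (.dbl 16 31 32)) .nd))) (.rp 24 (.str 40 (.nv (.thr 16 31 (.thr 48 32 (.dbl 50 14 49))) (.nv (.thr 35 3 (.dbl 41 43 44)) (.rp 16 (.thr 20 60 (.thr 35 3 (.dbl 41 43 44))) .nd)))) .nd))))) (.rp 24 (.str 40 (.nv (.thr 10 58 (.thr 14 50 (.dbl 15 5 13))) (.nv (.thr 60 20 (.thr 41 43 (.dbl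 44 28 35))) (.rp 28 (.str 19 (.nv (.thr 16 31 (.thr 48 32 (.dbl 50 14 49))) (.nv (.thr 35 3 (.dbl 41 43 44)) (.rp 16 (.thr 20 60 (.thr 35 3 (.dbl 41 43 44))) .nd)))) (.rp 19 (.str 28 (.nv (.thr 16 31 (.thr 48 32 (.dbl 50 14 49))) (.nv (.dbl 60 20 44) (.rp 16 (.str 18 (.nv (.dbl 50 2 14) (.nv (.dbl 60 20 44) .nd))) .nd)))) .nd))))) (.rp 19 (.str 28 (.nv (.thr 14 50 (.thr 15 13 (.dbl 10 5 58))) (.nv (.thr 16 31 (.thr 24 20 (.dbl 48 32 36))) (.rp 40 (.str 24 (.nv (.thr 48 36 (.dbl 50 14 49)) (.nv (.dbl 16 20 31) (.rp 16 (.str 18 (.nv (.thr 10 58 (.thr 15 5 (.dbl 48 36 37))) (.nv (.dbl 50 2 14) .nd))) .nd)))) (.rp 24 (.str 40 (.nv (.thr 16 31 (.thr 48 32 (.dbl 50 14 49))) (.nv (.dbl 60 20 44) (.rp 16 (.str 18 (.nv (.dbl 50 2 14) (.nv (.dbl 60 20 44) .nd))) .nd)))) (.rp 16 (.str 18 (.nv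 (.dbl 50 2 14) (.rp 50 (.thr 10 58 (.thr 15 5 (.thr 39 27 (.dbl 37 36 48)))) (.rp 40 (.str 24 (.nv (.thr 10 58 (.thr 15 5 (.dbl 48 36 37))) (.nv (.dbl 50 2 14) .nd))) (.rp 24 (.str 40 (.nv (.dbl 50 2 14) (.nv (.dbl 60 20 44) .nd))) (.rp 14 (.thr 50 2 (.thr 10 58 (.thr 48 49 (.dbl 15 5 37)))) (.rp 2 (.thr 14 50 (.thr 10 58 (.dbl 15 5 13))) .nd))))))) (.rp 15 (.thr 50 14 (.thr 48 49 (.dbl 16 31 32))) .nd))))))) (.rp 15 (.thr 50 14 (.thr 48 49 (.dbl 16 31 32))) .nd))))))))))))) (.rp 17 (.str 40 (.nv (.thr 4 8 (.thr 38 55 (.thr 46 34 (.thr 60 20 (.thr 44 28 (.thr 32 36 (.dbl 47 37 45))))))) (.nv (.thr 8 4 (.thr 25 59 (.thr 41 43 (.thr 1 61 (.thr 3 2 (.dbl 9 6 57)))))) (.nv (.thr 4 8 (.thr 20 60 (.thr 36 52 (.thr 48 24 (.dbl 32 16 44))))) (.nv (.thr 4 8 (.thr 38 55 (.thr 41 43 (.thr 60 20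 (.dbl 44 28 35))))) (.rp 60 (.thr 4 8 (.thr 41 43 (.thr 38 55 (.thr 46 34 (.thr 44 35 (.thr 32 36 (.dbl 47 37 45))))))) (.rp 8 (.thr 60 20 (.thr 44 28 (.thr 32 36 (.thr 37 47 (.thr 5 53 (.thr 15 10 (.dbl 48 16 26))))))) (.rp 4 (.thr 60 20 (.thr 44 28 (.thr 41 43 (.thr 38 35 (.thr 46 34 (.thr 47 45 (.dbl 32 36 37))))))) .nd)))))))) (.rp 8 (.str 60 (.nv (.thr 40 20 (.thr 41 43 (.thr 1 61 (.thr 3 2 (.thr 9 6 (.thr 25 57 (.thr 17 29 (.dbl 51 34 38)))))))) (.nv (.thr 40 20 (.thr 44 28 (.thr 32 36 (.thr 37 47 (.thr 5 53 (.thr 15 10 (.dbl 48 16 26))))))) (.nv (.thr 44 28 (.thr 40 20 (.thr 41 43 (.thr 38 35 (.thr 34 46 (.dbl 51 17 25)))))) (.rp 40 (.str 24 (.nv (.thr 48 36 (.thr 32 16 (.thr 37 47 (.thr 5 53 (.dbl 15 10 26))))) (.nv (.thr 28 44 (.thr 16 20 (.dbl 48 32 36))) (.rp 48 (.thr 28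 44 (.thr 16 20 (.thr 26 31 (.thr 25 27 (.thr 17 29 (.dbl 51 34 38)))))) (.rp 36 (.str 32 (.nv (.thr 37 47 (.thr 5 53 (.thr 15 10 (.dbl 48 16 26)))) (.nv (.thr 28 44 (.dbl 16 20 48)) (.rp 48 (.thr 28 44 (.thr 16 20 (.thr 26 31 (.thr 25 27 (.thr 17 29 (.dbl 51 34 38)))))) (.rp 16 (.thr 37 47 (.thr 5 53 (.thr 15 10 (.thr 13 14 (.thr 25 49 (.dbl 26 27 48)))))) .nd))))) (.rp 32 (.thr 28 44 (.thr 36 48 (.thr 20 16 (.thr 4 52 (.thr 38 55 (.thr 34 46 (.dbl 51 17 25))))))) (.rp 16 (.str 45 (.nv (.thr 44 28 (.thr 47 46 (.thr 37 32 (.thr 48 36 (.dbl 15 26 30))))) (.nv (.thr 15 30 (.thr 5 10 (.thr 13 14 (.thr 61 29 (.dbl 1 9 41))))) (.nv (.thr 48 36 (.thr 15 30 (.thr 10 5 (.dbl 26 37 58)))) (.rp 30 (.thr 44 28 (.thr 36 48 (.thr 46 47 (.thr 38 34 (.thr 37 39 (.dbl 41 33 35)))))) (.rp 26 (.thr 44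 28 (.thr 47 46 (.thr 37 32 (.thr 5 53 (.dbl 15 10 30))))) (.rp 15 (.thr 44 28 (.thr 36 48 (.thr 47 46 (.thr 37 32 (.thr 41 33 (.dbl 38 35 39)))))) .nd))))))) .nd))))))) (.rp 25 (.thr 40 20 (.thr 41 43 (.thr 1 61 (.thr 3 2 (.thr 9 6 (.thr 5 13 (.thr 37 53 (.thr 45 33 (.dbl 15 10 30))))))))) (.rp 20 (.str 40 (.nv (.thr 41 43 (.thr 1 61 (.thr 3 2 (.thr 9 6 (.thr 25 57 (.thr 17 29 (.dbl 51 34 38))))))) (.nv (.thr 44 28 (.thr 32 36 (.thr 37 47 (.thr 5 53 (.thr 15 10 (.dbl 48 16 26)))))) (.nv (.thr 44 28 (.thr 41 43 (.thr 38 35 (.thr 34 46 (.dbl 51 17 25))))) (.rp 25 (.thr 41 43 (.thr 1 61 (.thr 3 2 (.thr 9 6 (.thr 5 13 (.thr 37 53 (.thr 45 33 (.dbl 15 10 30)))))))) .nd))))) .nd))))))) (.rp 4 (.str 5 (.nv (.thr 15 10 (.thr 13 14 (.thr 37 53 (.thr 25 49 (.thr 17 29 (.dbl 51 34 38)))))) (.nv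 (.thr 15 10 (.thr 37 53 (.thr 32 47 (.dbl 48 16 26)))) (.rp 58 (.thr 15 10 (.thr 37 53 (.thr 48 26 (.dbl 32 16 47)))) (.rp 53 (.thr 15 10 (.thr 13 14 (.thr 1 9 (.thr 61 41 (.thr 29 45 (.thr 25 17 (.thr 37 49 (.thr 32 47 (.dbl 48 16 26))))))))) (.rp 48 (.thr 15 10 (.thr 13 14 (.thr 1 9 (.thr 61 41 (.thr 29 45 (.thr 25 17 (.dbl 37 49 53))))))) (.rp 37 (.thr 15 10 (.thr 13 14 (.thr 1 9 (.thr 41 61 (.thr 40 43 (.thr 60 20 (.thr 45 30 (.thr 44 28 (.thr 46 47 (.dbl 38 34 35)))))))))) (.rp 15 (.thr 37 53 (.str 48 (.nv (.dbl 32 16 47) (.rp 47 (.str 31 (.nv (.dbl 16 26 32) (.rp 32 (.thr 36 24 (.thr 38 39 (.thr 34 46 (.dbl 51 17 25)))) (.rp 26 (.thr 36 24 (.thr 38 39 (.thr 34 46 (.dbl 51 17 25)))) (.rp 16 (.thr 36 24 (.thr 38 39 (.thr 34 46 (.dbl 51 17 25)))) .nd))))) (.rp 32 (.thr 36 24 (.thr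 38 39 (.thr 34 46 (.dbl 51 17 25)))) (.rp 31 (.thr 47 32 (.thr 36 24 (.thr 38 39 (.thr 34 46 (.dbl 51 17 25))))) (.rp 16 (.thr 36 24 (.thr 38 39 (.thr 34 46 (.dbl 51 17 25)))) .nd))))))) (.rp 10 (.thr 37 53 (.thr 32 47 (.thr 48 16 (.thr 36 24 (.thr 38 39 (.thr 34 46 (.dbl 51 17 25))))))) .nd))))))))) .nd)))))))))))

theorem w481 : WinAt (4398048608257, 9295429630896898048) :=
  chF (K := []) kn c481 4398048608257 9295429630896898048 63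
    [] (by decide +kernel) (by decide +kernel)

/-- A certificate. -/
noncomputable def c482 : Ct := (.str 15 (.nv (.thr 47 31 (.thr 37 32 (.thr 48 26 (.dbl 53 5 58)))) (.nv (.thr 31 47 (.thr 26 16 (.thr 58 10 (.dbl 48 37 53)))) (.rp 58 (.str 59 (.nv (.thr 25 8 (.thr 31 47 (.thr 26 16 (.thr 27 24 (.thr 23 19 (.dbl 43 3 11)))))) (.nv (.thr 31 47 (.thr 51 55 (.thr 27 39 (.thr 43 11 (.dbl 23 3 19))))) (.nv (.thr 51 55 (.thr 25 8 (.thr 29 17 (.dbl 12 38 46)))) .nd)))) (.rp 53 (.str 61 (.nv (.thr 31 47 (.thr 26 16 (.thr 41 1 (.thr 11 56 (.thr 3 7 (.dbl 43 23 40)))))) (.nv (.thr 60 62 (.thr 45 30 (.thr 29 13 (.thr 47 31 (.dbl 46 12 44))))) (.rp 47 (.thr 60 62 (.thr 45 30 (.thr 29 13 (.thr 25 17 (.thr 59 8 (.thr 51 55 (.dbl 12 38 46))))))) (.rp 31 (.thr 60 62 (.thr 45 30 (.thr 29 13 (.thr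 46 12 (.thr 44 47 (.thr 41 1 (.dbl 38 34 35))))))) (.rp 26 (.thr 60 62 (.thr 47 31 (.thr 37 32 (.thr 41 1 (.dbl 45 30 33))))) .nd)))))) (.rp 48 (.thr 31 47 (.str 29 (.nv (.thr 12 46 (.thr 13 14 (.thr 45 61 (.dbl 30 28 60)))) (.nv (.thr 25 17 (.thr 59 8 (.thr 51 55 (.dbl 12 38 46)))) (.rp 46 (.thr 25 17 (.thr 59 8 (.thr 51 55 (.thr 27 39 (.dbl 26 16 24))))) (.rp 32 (.thr 16 26 (.thr 30 28 (.thr 45 60 (.thr 13 61 (.dbl 12 14 46))))) (.rp 16 (.str 32 (.nv (.thr 12 46 (.thr 13 14 (.thr 45 61 (.dbl 30 28 60)))) (.nv (.thr 25 17 (.thr 59 8 (.thr 51 55 (.dbl 12 38 46)))) (.rp 46 (.thr 25 17 (.thr 59 8 (.thr 51 55 (.thr 27 39 (.thr 43 11 (.dbl 23 3 19)))))) (.rp 12 (.thr 25 17 (.thr 30 28 (.thr 60 45 (.thr 61 62 (.thr 41 1 (.thr 43 40 (.thr 3 23 (.thr 11 7 (.dbl 59 8 27))))))))) .nd))))) (.rp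 12 (.thr 30 28 (.thr 60 45 (.thr 61 62 (.thr 41 1 (.thr 43 40 (.thr 3 23 (.thr 11 7 (.dbl 26 16 56)))))))) .nd)))))))) (.rp 47 (.str 60 (.nv (.thr 45 30 (.thr 61 62 (.thr 41 1 (.thr 37 33 (.thr 53 5 (.dbl 48 26 58)))))) (.nv (.thr 61 62 (.thr 41 1 (.thr 43 40 (.thr 3 23 (.thr 11 7 (.thr 26 56 (.thr 58 10 (.dbl 48 37 53)))))))) (.nv (.thr 45 30 (.thr 61 62 (.thr 29 13 (.thr 25 17 (.thr 59 8 (.thr 51 55 (.dbl 12 38 46))))))) (.rp 62 (.str 29 (.nv (.thr 25 17 (.thr 59 8 (.thr 51 55 (.dbl 12 38 46)))) (.nv (.thr 30 45 (.thr 28 31 (.dbl 12 44 46))) (.rp 46 (.thr 25 17 (.thr 59 8 (.thr 51 55 (.thr 27 39 (.thr 26 24 (.thr 58 10 (.dbl 48 37 53))))))) (.rp 12 (.thr 30 45 (.thr 31 28 (.thr 26 16 (.thr 58 10 (.dbl 48 37 53))))) .nd))))) (.rp 61 (.str 29 (.nv (.thr 25 17 (.thr 59 8 (.thr 51 55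 (.dbl 12 38 46)))) (.nv (.thr 30 45 (.thr 28 31 (.dbl 12 44 46))) (.rp 53 (.str 49 (.nv (.thr 25 17 (.thr 37 13 (.thr 48 26 (.thr 51 50 (.dbl 59 8 55))))) (.nv (.thr 30 45 (.thr 28 31 (.dbl 12 44 46))) (.rp 30 (.thr 12 46 (.thr 25 17 (.dbl 13 14 37))) .nd)))) (.rp 49 (.str 53 (.nv (.thr 30 45 (.thr 28 31 (.dbl 12 44 46))) (.nv (.thr 37 5 (.dbl 48 26 58)) .nd))) (.rp 46 (.thr 25 17 (.thr 59 8 (.thr 51 55 (.thr 27 39 (.thr 26 24 (.thr 58 10 (.dbl 48 37 53))))))) (.rp 12 (.thr 30 45 (.thr 31 28 (.thr 26 16 (.thr 58 10 (.dbl 48 37 53))))) .nd))))))) (.rp 26 (.thr 30 45 (.thr 62 61 (.thr 46 14 (.thr 38 34 (.thr 55 4 (.thr 51 59 (.dbl 12 25 29))))))) .nd))))))) (.rp 37 (.str 12 (.nv (.thr 14 13 (.thr 31 47 (.thr 26 16 (.thr 38 50 (.thr 55 4 (.dbl 51 25 59)))))) (.nv (.thr 13 14 (.thr 29 46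 (.thr 31 47 (.thr 45 61 (.dbl 30 28 60))))) (.nv (.thr 29 46 (.thr 25 17 (.thr 59 8 (.dbl 51 38 55)))) (.rp 52 (.str 7 (.nv (.thr 3 11 (.thr 13 14 (.thr 43 23 (.thr 41 40 (.thr 1 61 (.dbl 9 5 6)))))) (.nv (.thr 29 46 (.thr 25 17 (.thr 59 8 (.dbl 51 38 55)))) .nd))) (.rp 7 (.str 52 (.nv (.thr 14 13 (.thr 31 47 (.thr 26 16 (.thr 38 50 (.thr 55 4 (.dbl 51 25 59)))))) (.nv (.thr 13 14 (.thr 29 46 (.thr 31 47 (.thr 45 61 (.dbl 30 28 60))))) (.nv (.thr 29 46 (.thr 25 17 (.thr 59 8 (.dbl 51 38 55)))) .nd)))) .nd)))))) (.rp 32 (.thr 31 47 (.thr 26 16 (.thr 48 37 (.dbl 58 10 53)))) (.rp 31 (.str 29 (.nv (.thr 12 46 (.thr 13 14 (.thr 25 17 (.thr 37 49 (.thr 53 5 (.dbl 48 26 58)))))) (.nv (.thr 12 46 (.thr 25 17 (.thr 59 8 (.dbl 51 38 55)))) (.rp 51 (.thr 12 46 (.thr 13 14 (.thr 61 45 (.thr 41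 1 (.thr 43 40 (.thr 3 23 (.thr 9 6 (.thr 11 7 (.thr 10 8 (.dbl 26 56 58)))))))))) (.rp 46 (.thr 25 17 (.thr 59 8 (.thr 51 55 (.thr 27 39 (.thr 26 24 (.thr 58 10 (.dbl 48 37 53))))))) (.rp 34 (.thr 12 46 (.thr 25 17 (.thr 51 38 (.dbl 59 8 55)))) (.rp 25 (.thr 12 46 (.thr 13 14 (.thr 61 45 (.thr 41 1 (.thr 43 40 (.thr 3 23 (.thr 9 6 (.thr 11 7 (.thr 10 8 (.dbl 26 56 58)))))))))) (.rp 17 (.thr 12 46 (.thr 13 14 (.thr 61 45 (.thr 41 1 (.thr 43 40 (.thr 3 23 (.thr 9 6 (.thr 11 7 (.thr 10 8 (.dbl 26 56 58)))))))))) (.rp 12 (.thr 25 17 (.str 51 (.nv (.dbl 59 8 55) (.rp 59 (.thr 27 39 (.thr 26 24 (.thr 58 10 (.dbl 48 37 53)))) (.rp 55 (.thr 27 39 (.thr 26 24 (.thr 58 10 (.dbl 48 37 53)))) (.rp 8 (.str 4 (.nv (.dbl 55 38 59) (.rp 59 (.thr 27 39 (.thr 26 24 (.thr 58 10 (.dbl 48 37 53)))) (.rp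 55 (.thr 27 39 (.thr 26 24 (.thr 58 10 (.dbl 48 37 53)))) (.rp 38 (.thr 27 39 (.thr 26 24 (.thr 58 10 (.dbl 48 37 53)))) .nd))))) (.rp 4 (.thr 8 59 (.thr 27 39 (.thr 26 24 (.thr 58 10 (.dbl 48 37 53))))) .nd))))))) .nd))))))))) (.rp 26 (.str 30 (.nv (.thr 31 47 (.thr 29 28 (.thr 25 17 (.thr 59 8 (.thr 51 55 (.dbl 12 38 46)))))) (.nv (.thr 45 60 (.thr 47 31 (.thr 37 32 (.thr 41 33 (.thr 44 46 (.thr 35 38 (.dbl 43 39 40))))))) (.nv (.thr 31 47 (.thr 29 28 (.thr 46 12 (.thr 60 45 (.dbl 62 14 61))))) (.rp 47 (.thr 60 45 (.thr 62 61 (.thr 46 14 (.thr 38 34 (.thr 55 4 (.thr 51 59 (.dbl 12 25 29))))))) (.rp 46 (.thr 45 60 (.thr 31 47 (.thr 29 28 (.thr 13 61 (.thr 12 14 (.thr 25 17 (.thr 59 8 (.dbl 51 38 55)))))))) (.rp 31 (.thr 60 45 (.thr 62 61 (.thr 46 14 (.thr 38 34 (.thr 55 4 (.thr 51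 59 (.dbl 12 25 29))))))) .nd))))))) .nd)))))))))))

theorem w482 : WinAt (9223376434903384064, 144115188080050177) :=
  chF (K := []) kn c482 9223376434903384064 144115188080050177 0
    [] (by decide +kernel) (by decide +kernel)

/-- A certificate. -/
noncomputable def c483 : Ct := (.str 59 (.nv (.thr 51 55 (.thr 25 8 (.thr 29 17 (.dbl 12 38 46)))) (.rp 55 (.str 41 (.nv (.thr 43 40 (.thr 3 23 (.thr 11 27 (.thr 26 56 (.thr 31 16 (.dbl 15 7 47)))))) (.nv (.thr 1 61 (.thr 25 8 (.thr 17 29 (.thr 9 57 (.thr 49 33 (.dbl 13 5 37)))))) (.rp 8 (.thr 43 40 (.thr 27 11 (.thr 23 3 (.thr 31 19 (.thr 15 47 (.thr 51 39 (.thr 26 16 (.thr 48 37 (.thr 50 49 (.thr 38 14 (.dbl 25 12 24))))))))))) .nd)))) (.rp 51 (.thr 25 8 (.thr 17 29 (.str 41 (.nv (.thr 43 40 (.thr 3 23 (.thr 11 27 (.thr 15 7 (.thr 31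 47 (.dbl 26 16 56)))))) (.nv (.thr 9 57 (.thr 1 61 (.thr 49 33 (.dbl 13 5 37)))) (.rp 60 (.thr 1 61 (.thr 49 33 (.thr 13 37 (.dbl 9 5 57)))) (.rp 37 (.thr 9 57 (.thr 1 61 (.thr 13 5 (.thr 43 40 (.thr 11 27 (.thr 3 23 (.thr 12 6 (.dbl 15 7 14)))))))) (.rp 12 (.str 4 (.nv (.thr 38 55 (.thr 34 46 (.thr 35 44 (.thr 33 32 (.dbl 1 49 61))))) (.nv (.thr 9 57 (.thr 1 61 (.thr 49 33 (.dbl 13 5 37)))) (.rp 61 (.thr 40 43 (.thr 38 55 (.thr 44 35 (.thr 32 36 (.thr 47 37 (.dbl 46 34 45)))))) (.rp 60 (.thr 1 61 (.thr 49 33 (.thr 13 37 (.dbl 9 5 57)))) (.rp 49 (.thr 40 43 (.thr 38 55 (.thr 44 35 (.thr 32 36 (.thr 47 37 (.dbl 46 34 45)))))) (.rp 45 (.thr 9 57 (.thr 1 61 (.thr 13 5 (.dbl 49 33 37)))) (.rp 33 (.thr 40 43 (.thr 38 55 (.thr 44 35 (.thr 32 36 (.thr 47 37 (.dbl 46 34 45)))))) (.rp 1 (.thr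 40 43 (.thr 38 55 (.thr 44 35 (.thr 32 36 (.thr 47 37 (.dbl 46 34 45)))))) .nd))))))))) (.rp 4 (.str 12 (.nv (.thr 1 61 (.thr 49 33 (.thr 13 37 (.dbl 9 5 57)))) (.nv (.thr 43 40 (.thr 3 23 (.dbl 9 6 57))) (.rp 57 (.thr 43 40 (.thr 11 27 (.thr 3 23 (.thr 15 7 (.thr 31 47 (.dbl 26 16 56)))))) (.rp 9 (.thr 43 40 (.thr 11 27 (.thr 3 23 (.thr 15 7 (.thr 31 47 (.dbl 26 16 56)))))) .nd))))) .nd))))))))) (.rp 46 (.str 61 (.nv (.thr 25 8 (.thr 29 17 (.thr 13 45 (.thr 37 49 (.thr 5 53 (.dbl 1 9 41)))))) (.nv (.thr 41 1 (.thr 51 55 (.thr 25 8 (.thr 12 38 (.thr 60 62 (.dbl 57 9 54)))))) (.nv (.thr 1 41 (.thr 25 8 (.thr 17 29 (.thr 49 33 (.thr 37 13 (.dbl 53 5 57)))))) (.rp 41 (.thr 51 55 (.thr 60 62 (.thr 25 8 (.thr 29 17 (.thr 12 38 (.thr 45 13 (.thr 30 15 (.dbl 28 31 44)))))))) (.rp 25 (.thr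 51 55 (.thr 41 1 (.thr 43 40 (.thr 3 23 (.thr 27 11 (.thr 39 15 (.dbl 35 19 47))))))) (.rp 12 (.thr 51 55 (.thr 41 1 (.thr 43 40 (.thr 3 23 (.thr 35 19 (.thr 39 47 (.dbl 27 11 15))))))) (.rp 8 (.thr 51 55 (.thr 41 1 (.thr 43 40 (.thr 3 23 (.thr 35 19 (.thr 39 47 (.dbl 27 11 15))))))) (.rp 1 (.thr 51 55 (.thr 60 62 (.thr 25 8 (.thr 29 17 (.thr 13 45 (.thr 49 37 (.dbl 57 53 54))))))) .nd))))))))) (.rp 38 (.thr 51 55 (.str 54 (.nv (.thr 25 8 (.thr 29 17 (.thr 60 57 (.thr 61 62 (.thr 45 13 (.thr 15 30 (.thr 47 31 (.dbl 46 12 44)))))))) (.nv (.thr 60 57 (.thr 61 62 (.thr 41 1 (.thr 43 40 (.thr 3 23 (.thr 27 11 (.thr 39 15 (.dbl 35 19 47)))))))) (.nv (.thr 25 8 (.thr 29 17 (.thr 60 57 (.thr 61 62 (.thr 13 45 (.thr 37 49 (.thr 5 53 (.dbl 1 9 41)))))))) (.rp 62 (.thr 57 60 (.thr 25 8 (.thr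 29 17 (.thr 41 9 (.thr 61 1 (.thr 49 53 (.dbl 13 37 45))))))) (.rp 61 (.thr 60 57 (.thr 25 8 (.thr 29 17 (.thr 12 46 (.thr 28 44 (.thr 31 30 (.thr 26 16 (.thr 27 24 (.dbl 15 39 47))))))))) (.rp 60 (.thr 25 8 (.thr 29 17 (.thr 12 46 (.str 3 (.nv (.thr 35 19 (.thr 43 23 (.thr 39 47 (.dbl 27 11 15)))) (.nv (.thr 9 6 (.thr 41 57 (.dbl 43 23 40))) (.rp 43 (.thr 9 6 (.thr 41 57 (.thr 1 61 (.thr 13 5 (.thr 15 14 (.thr 47 31 (.dbl 37 32 49))))))) (.rp 40 (.str 20 (.nv (.thr 43 23 (.thr 27 11 (.thr 39 15 (.dbl 35 19 47)))) (.nv (.thr 19 35 (.thr 23 43 (.thr 31 27 (.thr 16 26 (.dbl 28 24 30))))) (.nv (.thr 43 23 (.thr 27 11 (.thr 35 19 (.dbl 39 15 47)))) (.rp 56 (.str 24 (.nv (.thr 48 36 (.thr 27 26 (.dbl 43 11 23))) (.nv (.thr 16 28 (.dbl 26 27 31)) (.rp 48 (.str 52 (.nv (.thr 27 26 (.dbl 43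 11 23)) (.nv (.thr 16 28 (.dbl 26 27 31)) (.rp 27 (.thr 16 28 (.thr 31 26 (.thr 43 23 (.thr 35 19 (.dbl 47 15 39))))) (.rp 26 (.thr 23 43 (.thr 19 35 (.thr 31 27 (.dbl 28 16 30)))) (.rp 16 (.str 32 (.nv (.thr 9 6 (.thr 37 47 (.thr 5 53 (.dbl 13 1 49)))) (.nv (.thr 43 23 (.dbl 27 11 26)) (.rp 19 (.str 18 (.nv (.thr 9 6 (.thr 37 47 (.thr 5 53 (.dbl 13 1 49)))) (.nv (.thr 43 23 (.dbl 27 11 26)) .nd))) (.rp 18 (.thr 19 35 (.thr 23 43 (.dbl 27 26 31))) .nd))))) .nd)))))) (.rp 27 (.thr 16 28 (.thr 26 31 (.thr 48 36 (.thr 49 50 (.dbl 37 13 15))))) (.rp 26 (.thr 28 16 (.thr 23 43 (.thr 19 35 (.dbl 31 27 30)))) .nd)))))) (.rp 47 (.thr 9 6 (.thr 43 23 (.thr 27 11 (.thr 41 57 (.thr 1 61 (.thr 13 5 (.dbl 15 14 39))))))) (.rp 43 (.thr 9 6 (.thr 41 57 (.thr 1 61 (.thr 13 5 (.thr 15 14 (.thr 47 31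 (.dbl 37 32 49))))))) (.rp 39 (.thr 9 6 (.thr 41 57 (.thr 1 61 (.thr 13 5 (.thr 15 14 (.thr 47 31 (.dbl 37 32 49))))))) (.rp 35 (.thr 9 6 (.thr 43 23 (.thr 27 11 (.thr 41 57 (.thr 1 61 (.thr 13 5 (.dbl 15 14 39))))))) (.rp 27 (.thr 9 6 (.thr 41 57 (.thr 1 61 (.thr 13 5 (.thr 15 14 (.thr 47 31 (.dbl 37 32 49))))))) (.rp 24 (.str 56 (.nv (.thr 9 6 (.thr 41 57 (.thr 1 61 (.thr 11 26 (.thr 13 5 (.dbl 15 7 14)))))) (.nv (.thr 35 19 (.thr 43 23 (.thr 39 47 (.dbl 27 11 15)))) (.nv (.thr 9 6 (.thr 43 23 (.thr 41 57 (.dbl 11 26 27)))) (.rp 11 (.thr 9 6 (.thr 41 57 (.thr 1 61 (.thr 13 5 (.thr 15 14 (.thr 47 31 (.dbl 37 32 49))))))) .nd))))) (.rp 23 (.thr 9 6 (.thr 41 57 (.thr 1 61 (.thr 13 5 (.thr 15 14 (.thr 47 31 (.dbl 37 32 49))))))) (.rp 19 (.thr 9 6 (.thr 43 23 (.thr 27 11 (.thr 41 57 (.thr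 1 61 (.thr 13 5 (.dbl 15 14 39))))))) .nd))))))))))))) (.rp 23 (.thr 9 6 (.thr 41 57 (.thr 1 61 (.thr 13 5 (.thr 15 14 (.thr 47 31 (.dbl 37 32 49))))))) (.rp 20 (.str 40 (.nv (.dbl 43 23 41) (.rp 43 (.thr 9 6 (.thr 41 57 (.thr 61 1 (.thr 13 45 (.thr 15 14 (.thr 47 31 (.dbl 37 32 49))))))) (.rp 41 (.thr 43 23 (.thr 27 11 (.thr 35 19 (.dbl 39 15 47)))) (.rp 23 (.thr 9 6 (.dbl 41 43 57)) .nd))))) .nd)))))))))) (.rp 57 (.str 60 (.nv (.thr 25 8 (.thr 29 17 (.thr 61 62 (.thr 1 41 (.thr 13 45 (.thr 5 9 (.dbl 37 49 53))))))) (.nv (.thr 61 62 (.thr 41 1 (.thr 43 40 (.thr 27 11 (.thr 15 39 (.thr 31 47 (.dbl 23 3 19))))))) (.nv (.thr 61 62 (.thr 25 8 (.thr 29 17 (.thr 45 13 (.thr 30 15 (.thr 12 46 (.dbl 28 31 44))))))) (.rp 62 (.thr 25 8 (.thr 29 17 (.thr 12 46 (.thr 28 44 (.thr 30 31 (.thr 45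 15 (.thr 61 13 (.thr 41 1 (.thr 43 40 (.thr 33 37 (.thr 3 23 (.thr 48 18 (.thr 27 11 (.dbl 24 26 36)))))))))))))) (.rp 61 (.thr 25 8 (.thr 29 17 (.thr 12 46 (.thr 28 44 (.thr 31 30 (.thr 26 16 (.thr 27 24 (.dbl 15 39 47)))))))) .nd)))))) .nd))))))))) (.rp 29 (.str 26 (.nv (.thr 25 8 (.thr 24 27 (.thr 51 55 (.thr 12 38 (.thr 48 36 (.thr 37 15 (.dbl 49 13 50))))))) (.nv (.thr 31 16 (.thr 15 47 (.thr 51 55 (.thr 27 39 (.thr 43 11 (.dbl 23 3 19)))))) (.nv (.thr 25 8 (.thr 27 24 (.thr 43 11 (.thr 23 3 (.dbl 31 16 19))))) (.nv (.thr 51 55 (.thr 25 8 (.thr 31 16 (.thr 15 47 (.dbl 27 24 39))))) (.rp 27 (.thr 51 55 (.thr 31 16 (.thr 25 8 (.thr 12 38 (.thr 15 47 (.thr 13 14 (.dbl 37 48 49))))))) (.rp 15 (.thr 31 16 (.thr 25 8 (.thr 27 24 (.thr 23 19 (.dbl 43 3 11))))) .nd))))))) (.rp 25 (.str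 43 (.nv (.thr 3 23 (.thr 11 27 (.thr 41 40 (.thr 26 56 (.thr 31 16 (.dbl 15 7 47)))))) (.nv (.thr 23 3 (.thr 41 40 (.thr 55 51 (.thr 38 4 (.thr 35 44 (.dbl 39 7 47)))))) (.nv (.thr 51 55 (.thr 27 11 (.thr 15 39 (.thr 31 47 (.dbl 23 3 19))))) (.rp 47 (.thr 11 27 (.thr 3 23 (.thr 15 7 (.thr 41 40 (.thr 61 1 (.thr 26 56 (.thr 37 48 (.thr 45 33 (.dbl 60 30 62))))))))) (.rp 28 (.str 19 (.nv (.thr 3 23 (.dbl 51 35 55)) (.nv (.thr 27 11 (.dbl 23 3 31)) (.rp 23 (.thr 27 11 (.thr 51 55 (.thr 35 3 (.dbl 39 15 47)))) (.rp 3 (.thr 27 11 (.thr 31 23 (.thr 51 55 (.dbl 15 39 47)))) .nd))))) (.rp 23 (.thr 55 51 (.thr 41 40 (.thr 38 4 (.thr 34 46 (.thr 35 44 (.thr 47 39 (.dbl 32 33 37))))))) (.rp 19 (.str 28 (.nv (.thr 41 40 (.thr 11 27 (.thr 26 56 (.thr 3 23 (.thr 31 16 (.dbl 15 7 47)))))) (.nv (.thr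 41 40 (.thr 61 1 (.thr 60 62 (.thr 44 12 (.thr 38 35 (.dbl 55 4 51)))))) (.rp 60 (.thr 27 11 (.thr 51 55 (.thr 15 39 (.thr 31 47 (.thr 29 30 (.thr 12 46 (.thr 14 13 (.thr 26 16 (.thr 50 38 (.dbl 48 37 49)))))))))) (.rp 41 (.thr 27 11 (.thr 51 55 (.thr 15 39 (.thr 31 47 (.thr 29 30 (.thr 12 46 (.thr 14 13 (.thr 26 16 (.thr 50 38 (.dbl 48 37 49)))))))))) (.rp 40 (.thr 27 11 (.thr 51 55 (.thr 15 39 (.thr 31 47 (.thr 29 30 (.thr 12 46 (.thr 14 13 (.thr 26 16 (.thr 50 38 (.dbl 48 37 49)))))))))) (.rp 20 (.thr 27 11 (.thr 51 55 (.thr 15 39 (.thr 31 47 (.thr 30 29 (.thr 60 45 (.thr 61 62 (.dbl 41 1 40)))))))) (.rp 8 (.thr 41 40 (.thr 61 1 (.thr 60 62 (.thr 12 44 (.thr 29 46 (.thr 30 31 (.dbl 45 13 15))))))) (.rp 3 (.thr 41 40 (.thr 11 27 (.thr 26 56 (.thr 31 16 (.thr 29 30 (.thr 12 46 (.thr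 60 44 (.dbl 61 1 62)))))))) .nd))))))))) (.rp 7 (.thr 27 11 (.thr 3 23 (.thr 51 55 (.thr 39 15 (.dbl 35 19 47))))) (.rp 3 (.thr 55 51 (.thr 41 40 (.thr 38 4 (.thr 34 46 (.thr 35 44 (.thr 47 39 (.dbl 32 33 37))))))) .nd)))))))))) (.rp 17 (.thr 51 55 (.str 61 (.nv (.thr 41 1 (.thr 43 40 (.thr 3 23 (.thr 27 11 (.thr 39 15 (.dbl 35 19 47)))))) (.nv (.thr 60 62 (.thr 41 1 (.thr 25 8 (.dbl 57 9 54)))) (.rp 60 (.thr 41 1 (.thr 25 8 (.thr 57 9 (.thr 49 53 (.thr 12 38 (.thr 29 46 (.dbl 13 37 45))))))) (.rp 49 (.thr 60 62 (.thr 25 8 (.thr 12 38 (.thr 28 44 (.thr 29 46 (.thr 30 31 (.dbl 45 13 15))))))) (.rp 41 (.thr 60 62 (.thr 25 8 (.thr 12 38 (.thr 29 46 (.thr 45 13 (.thr 30 15 (.dbl 28 31 44))))))) (.rp 33 (.thr 60 62 (.thr 25 8 (.thr 12 38 (.thr 28 44 (.thr 29 46 (.thr 30 31 (.dbl 45 13 15)))))))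 (.rp 3 (.thr 60 62 (.thr 25 8 (.thr 12 38 (.thr 28 44 (.thr 29 46 (.thr 30 31 (.dbl 45 13 15))))))) (.rp 2 (.thr 60 62 (.thr 25 8 (.thr 12 38 (.thr 28 44 (.thr 29 46 (.thr 30 31 (.dbl 45 13 15))))))) (.rp 1 (.thr 60 62 (.thr 25 8 (.thr 12 38 (.thr 28 44 (.thr 29 46 (.thr 30 31 (.dbl 45 13 15))))))) .nd))))))))))) (.rp 12 (.thr 51 55 (.str 27 (.nv (.thr 43 11 (.thr 23 3 (.thr 31 19 (.thr 26 16 (.dbl 25 8 24))))) (.nv (.thr 8 25 (.thr 39 15 (.thr 43 11 (.thr 3 23 (.dbl 35 19 47))))) (.nv (.thr 15 39 (.thr 47 31 (.thr 37 32 (.thr 48 26 (.thr 49 50 (.dbl 25 8 13)))))) (.nv (.thr 43 11 (.thr 15 39 (.thr 31 47 (.dbl 23 3 19)))) (.rp 23 (.thr 11 43 (.thr 15 39 (.thr 7 3 (.thr 47 31 (.thr 37 32 (.thr 48 26 (.thr 49 50 (.dbl 25 8 13)))))))) (.rp 15 (.thr 43 11 (.thr 3 23 (.thr 35 19 (.thr 41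 40 (.thr 38 44 (.thr 34 46 (.thr 32 33 (.dbl 47 37 39)))))))) (.rp 8 (.str 4 (.nv (.thr 39 15 (.thr 43 11 (.thr 3 23 (.dbl 35 19 47)))) (.nv (.thr 11 43 (.thr 15 39 (.thr 7 3 (.thr 47 31 (.thr 37 32 (.dbl 5 6 53)))))) (.nv (.thr 15 39 (.thr 31 47 (.thr 43 11 (.dbl 23 3 19)))) (.rp 47 (.thr 15 39 (.thr 43 11 (.thr 41 40 (.thr 61 1 (.thr 60 62 (.thr 45 30 (.thr 29 13 (.thr 25 17 (.dbl 57 9 54))))))))) (.rp 43 (.thr 15 39 (.thr 47 31 (.thr 37 32 (.thr 48 26 (.thr 5 53 (.thr 49 50 (.thr 13 25 (.thr 1 9 (.thr 33 17 (.dbl 41 45 61)))))))))) (.rp 39 (.thr 43 11 (.thr 23 3 (.thr 31 19 (.thr 15 47 (.thr 26 16 (.thr 48 37 (.thr 49 50 (.thr 25 24 (.thr 17 29 (.thr 1 33 (.dbl 41 40 61))))))))))) (.rp 15 (.thr 43 11 (.thr 3 23 (.thr 35 19 (.thr 41 40 (.thr 38 44 (.thr 34 46 (.thr 32 33 (.dbl 47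 37 39)))))))) (.rp 11 (.thr 15 39 (.thr 31 47 (.thr 23 19 (.thr 26 16 (.thr 48 37 (.thr 50 49 (.thr 38 14 (.thr 34 46 (.thr 18 2 (.dbl 3 33 43)))))))))) (.rp 9 (.thr 15 39 (.thr 31 47 (.thr 23 19 (.dbl 43 3 11)))) (.rp 3 (.thr 15 39 (.thr 47 31 (.thr 43 11 (.thr 37 32 (.thr 41 40 (.thr 45 33 (.thr 60 30 (.dbl 61 1 62)))))))) .nd))))))))))) .nd))))))))) (.rp 8 (.thr 51 55 (.str 27 (.nv (.thr 15 39 (.thr 31 47 (.thr 26 16 (.thr 25 24 (.thr 12 38 (.dbl 29 17 46)))))) (.nv (.thr 43 11 (.thr 3 23 (.thr 39 15 (.dbl 35 19 47)))) (.rp 47 (.thr 43 11 (.thr 3 23 (.thr 35 19 (.thr 41 40 (.thr 38 44 (.thr 46 34 (.dbl 12 25 29))))))) (.rp 43 (.thr 15 39 (.thr 47 31 (.thr 37 32 (.thr 48 26 (.thr 49 50 (.thr 25 13 (.thr 29 17 (.dbl 12 38 46)))))))) (.rp 39 (.thr 43 11 (.thr 23 3 (.thr 31 19 (.thr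 26 16 (.thr 25 24 (.thr 12 38 (.dbl 29 17 46))))))) (.rp 35 (.thr 43 11 (.thr 15 39 (.thr 23 3 (.dbl 31 19 47)))) (.rp 23 (.thr 43 11 (.thr 39 15 (.thr 35 47 (.thr 41 40 (.thr 38 44 (.thr 46 34 (.dbl 12 25 29))))))) (.rp 15 (.thr 43 11 (.thr 3 23 (.thr 35 19 (.thr 41 40 (.thr 38 44 (.thr 46 34 (.dbl 12 25 29))))))) (.rp 12 (.str 4 (.nv (.thr 39 15 (.thr 43 11 (.thr 3 23 (.dbl 35 19 47)))) (.nv (.thr 11 43 (.thr 15 39 (.thr 7 3 (.thr 47 31 (.thr 37 32 (.dbl 5 6 53)))))) (.nv (.thr 15 39 (.thr 31 47 (.thr 43 11 (.dbl 23 3 19)))) (.rp 47 (.thr 15 39 (.thr 43 11 (.thr 41 40 (.thr 61 1 (.thr 60 62 (.thr 45 30 (.thr 29 13 (.thr 25 17 (.dbl 57 9 54))))))))) (.rp 43 (.thr 15 39 (.thr 47 31 (.thr 37 32 (.thr 48 26 (.thr 5 53 (.thr 49 50 (.thr 13 25 (.thr 1 9 (.thr 33 17 (.dbl 41 45 61))))))))))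 (.rp 39 (.thr 43 11 (.thr 23 3 (.thr 31 19 (.thr 15 47 (.thr 26 16 (.thr 48 37 (.thr 49 50 (.thr 25 24 (.thr 17 29 (.thr 1 33 (.dbl 41 40 61))))))))))) (.rp 15 (.thr 43 11 (.thr 3 23 (.thr 35 19 (.thr 41 40 (.thr 38 44 (.thr 34 46 (.thr 32 33 (.dbl 47 37 39)))))))) (.rp 11 (.thr 15 39 (.thr 31 47 (.thr 23 19 (.thr 26 16 (.thr 48 37 (.thr 50 49 (.thr 38 14 (.thr 34 46 (.thr 18 2 (.dbl 3 33 43)))))))))) (.rp 9 (.thr 15 39 (.thr 31 47 (.thr 23 19 (.dbl 43 3 11)))) (.rp 3 (.thr 15 39 (.thr 47 31 (.thr 43 11 (.thr 37 32 (.thr 41 40 (.thr 45 33 (.thr 60 30 (.dbl 61 1 62)))))))) .nd))))))))))) (.rp 4 (.str 12 (.nv (.thr 15 39 (.thr 31 47 (.thr 43 11 (.dbl 23 3 19)))) (.nv (.thr 46 29 (.dbl 38 25 34)) .nd))) .nd)))))))))))) (.rp 4 (.thr 51 55 (.thr 25 8 (.thr 12 38 (.dbl 29 17 46)))) .nd))))))))))))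

theorem w483 : WinAt (9223376434903384064, 288230376155906049) :=
  chF (K := []) kn c483 9223376434903384064 288230376155906049 0
    [] (by decide +kernel) (by decide +kernel)

/-- A certificate. -/
noncomputable def c484 : Ct := (.str 15 (.nv (.thr 47 31 (.thr 37 32 (.thr 48 26 (.dbl 53 5 58)))) (.nv (.thr 31 47 (.thr 26 16 (.thr 58 10 (.dbl 48 37 53)))) (.rp 58 (.thr 47 31 (.str 7 (.nv (.thr 37 32 (.thr 5 53 (.thr 4 6 (.thr 38 55 (.thr 39 36 (.thr 3 11 (.dbl 43 23 35))))))) (.nv (.thr 3 11 (.thr 37 32 (.thr 5 53 (.thr 6 4 (.thr 12 9 (.thr 13 14 (.thr 25 49 (.dbl 29 17 46)))))))) (.nv (.thr 3 11 (.thr 43 23 (.thr 35 39 (.thr 41 40 (.thr 38 44 (.thr 32 37 (.dbl 34 33 46))))))) (.rp 57 (.str 56 (.nv (.thr 11 3 (.thr 37 32 (.dbl 26 41 48))) (.rp 60 (.thr 11 3 (.thr 41 26 (.thr 40 43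 (.thr 32 37 (.thr 44 36 (.thr 46 45 (.dbl 38 34 35))))))) (.rp 48 (.thr 11 3 (.thr 41 26 (.thr 40 43 (.thr 32 37 (.thr 44 36 (.thr 46 45 (.dbl 38 34 35))))))) (.rp 41 (.thr 3 11 (.thr 43 23 (.thr 37 32 (.thr 5 53 (.thr 4 6 (.thr 38 55 (.dbl 39 35 36))))))) (.rp 37 (.thr 3 11 (.thr 43 23 (.thr 41 40 (.thr 61 1 (.thr 60 62 (.thr 45 30 (.thr 46 44 (.dbl 29 12 13)))))))) (.rp 32 (.thr 3 11 (.thr 43 23 (.thr 41 40 (.thr 61 1 (.thr 60 62 (.thr 45 30 (.thr 29 13 (.dbl 46 12 44)))))))) (.rp 26 (.thr 3 11 (.thr 43 23 (.thr 41 40 (.thr 61 1 (.thr 60 62 (.thr 37 32 (.dbl 45 30 33))))))) (.rp 16 (.thr 3 11 (.thr 43 23 (.thr 41 40 (.thr 37 32 (.thr 48 26 (.dbl 33 18 45)))))) (.rp 11 (.thr 37 32 (.thr 48 26 (.thr 60 52 (.thr 61 62 (.thr 41 1 (.dbl 45 30 33)))))) (.rp 3 (.thr 37 32 (.thr 5 53 (.thr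 4 6 (.thr 38 55 (.thr 36 39 (.thr 52 20 (.dbl 48 26 60))))))) (.rp 2 (.thr 3 11 (.thr 43 23 (.thr 41 40 (.thr 37 32 (.thr 33 45 (.dbl 48 18 26)))))) (.rp 1 (.thr 3 11 (.thr 43 23 (.thr 41 40 (.thr 37 32 (.thr 33 45 (.dbl 48 18 26)))))) .nd))))))))))))) (.rp 56 (.str 57 (.nv (.thr 37 32 (.thr 53 5 (.thr 61 49 (.thr 41 1 (.thr 60 62 (.dbl 45 30 33)))))) (.nv (.thr 3 11 (.thr 43 23 (.thr 35 39 (.thr 41 40 (.thr 25 9 (.thr 38 44 (.dbl 51 12 19))))))) (.nv (.thr 3 11 (.thr 43 23 (.thr 37 32 (.thr 53 5 (.thr 61 49 (.dbl 41 1 40)))))) (.rp 41 (.thr 37 32 (.thr 5 53 (.thr 4 6 (.thr 38 55 (.thr 39 36 (.thr 43 35 (.dbl 3 11 23))))))) (.rp 32 (.thr 3 11 (.thr 43 23 (.thr 35 39 (.thr 41 40 (.thr 61 1 (.thr 60 62 (.dbl 51 19 54))))))) (.rp 3 (.thr 37 32 (.thr 53 5 (.thr 61 49 (.thr 60 62 (.thr 45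 30 (.dbl 41 1 33)))))) .nd))))))) (.rp 43 (.thr 37 32 (.thr 5 53 (.thr 4 6 (.thr 38 55 (.thr 46 34 (.thr 12 29 (.thr 13 14 (.dbl 25 49 51)))))))) (.rp 37 (.thr 3 11 (.thr 43 23 (.thr 35 39 (.thr 41 40 (.thr 61 1 (.thr 60 62 (.thr 45 30 (.dbl 44 38 46)))))))) (.rp 32 (.thr 3 11 (.thr 43 23 (.thr 35 39 (.thr 41 40 (.thr 61 1 (.thr 44 38 (.thr 45 46 (.dbl 60 30 62)))))))) (.rp 11 (.thr 37 32 (.thr 5 53 (.thr 4 6 (.thr 38 55 (.thr 46 34 (.thr 12 29 (.thr 13 14 (.dbl 25 49 51)))))))) (.rp 3 (.thr 37 32 (.thr 5 53 (.thr 4 6 (.thr 38 55 (.thr 46 34 (.thr 12 29 (.thr 13 14 (.dbl 25 49 51)))))))) .nd)))))))))))) (.rp 53 (.str 3 (.nv (.thr 11 7 (.thr 31 47 (.thr 26 16 (.thr 41 56 (.dbl 43 23 40))))) (.nv (.thr 43 23 (.thr 41 40 (.thr 47 31 (.thr 37 32 (.thr 33 45 (.dbl 48 18 26)))))) (.nv (.thr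 7 11 (.thr 31 47 (.thr 23 43 (.thr 27 19 (.dbl 39 51 55))))) (.rp 47 (.thr 11 7 (.thr 43 23 (.thr 41 40 (.thr 61 1 (.thr 26 56 (.thr 37 48 (.thr 45 33 (.dbl 60 30 62)))))))) (.rp 43 (.thr 11 7 (.thr 31 47 (.thr 26 16 (.thr 41 56 (.thr 61 1 (.thr 60 62 (.thr 45 30 (.dbl 37 33 48)))))))) (.rp 31 (.thr 11 7 (.thr 43 23 (.thr 41 40 (.thr 61 1 (.thr 26 56 (.thr 37 48 (.thr 45 33 (.dbl 60 30 62)))))))) (.rp 23 (.thr 11 7 (.thr 31 47 (.thr 26 16 (.thr 41 56 (.thr 61 1 (.thr 60 62 (.thr 45 30 (.dbl 37 33 48)))))))) .nd)))))))) (.rp 48 (.thr 31 47 (.str 29 (.nv (.thr 16 26 (.thr 30 28 (.thr 12 46 (.thr 45 60 (.dbl 13 14 61))))) (.nv (.thr 12 46 (.thr 25 17 (.thr 51 38 (.thr 27 39 (.dbl 26 16 24))))) (.nv (.thr 12 46 (.thr 13 14 (.thr 45 61 (.dbl 30 28 60)))) (.rp 46 (.thr 30 28 (.thr 45 60 (.thr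 13 61 (.thr 12 14 (.thr 25 17 (.thr 51 38 (.thr 27 39 (.dbl 26 16 24)))))))) (.rp 45 (.thr 30 28 (.thr 46 12 (.thr 14 62 (.thr 38 34 (.dbl 26 16 50))))) (.rp 16 (.str 32 (.nv (.thr 30 28 (.thr 12 46 (.thr 45 60 (.dbl 13 14 61)))) (.nv (.thr 12 46 (.thr 13 14 (.thr 45 61 (.dbl 30 28 60)))) (.rp 61 (.thr 25 17 (.thr 12 46 (.thr 28 30 (.thr 44 60 (.thr 40 36 (.thr 41 43 (.dbl 38 35 51))))))) (.rp 60 (.thr 25 17 (.thr 12 46 (.thr 13 14 (.thr 37 49 (.thr 5 53 (.thr 1 9 (.dbl 61 41 45))))))) (.rp 46 (.thr 30 28 (.thr 45 60 (.thr 61 13 (.thr 41 1 (.thr 33 37 (.thr 40 43 (.thr 44 36 (.dbl 35 34 38)))))))) (.rp 45 (.thr 25 17 (.thr 28 30 (.thr 12 46 (.thr 44 60 (.thr 40 36 (.thr 41 43 (.dbl 38 35 51))))))) (.rp 30 (.thr 25 17 (.thr 12 46 (.thr 51 38 (.thr 27 39 (.thr 19 23 (.thr 14 13 (.thr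 26 24 (.thr 10 58 (.thr 6 2 (.dbl 3 9 35)))))))))) (.rp 28 (.thr 25 17 (.thr 12 46 (.thr 13 14 (.thr 37 49 (.thr 5 53 (.thr 1 9 (.dbl 61 41 45))))))) (.rp 14 (.thr 30 28 (.thr 45 60 (.thr 61 13 (.thr 41 1 (.thr 33 37 (.thr 34 35 (.dbl 46 12 38))))))) (.rp 13 (.thr 46 12 (.thr 30 28 (.thr 60 45 (.dbl 62 14 61)))) (.rp 12 (.thr 25 17 (.thr 30 28 (.thr 60 45 (.thr 61 62 (.thr 41 1 (.thr 57 9 (.thr 43 40 (.thr 51 54 (.thr 27 39 (.dbl 23 3 19)))))))))) .nd)))))))))))) (.rp 12 (.thr 30 28 (.thr 60 45 (.thr 61 62 (.thr 41 1 (.thr 43 40 (.thr 3 23 (.thr 11 7 (.dbl 26 16 56)))))))) .nd))))))))) (.rp 47 (.str 12 (.nv (.thr 13 14 (.thr 29 46 (.thr 45 61 (.thr 30 60 (.thr 31 28 (.thr 26 16 (.thr 48 37 (.dbl 58 10 53)))))))) (.nv (.thr 13 14 (.thr 29 46 (.thr 25 17 (.thr 37 49 (.thr 5 53 (.thr 1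 9 (.dbl 61 41 45))))))) (.nv (.thr 46 29 (.thr 38 34 (.thr 51 25 (.thr 39 27 (.thr 37 36 (.thr 53 5 (.dbl 48 26 58))))))) (.nv (.thr 14 13 (.thr 46 29 (.thr 38 34 (.thr 26 50 (.thr 58 10 (.dbl 48 37 53)))))) (.rp 53 (.thr 13 14 (.thr 29 46 (.thr 25 17 (.thr 37 49 (.thr 26 48 (.thr 27 24 (.dbl 51 38 39))))))) (.rp 46 (.thr 14 13 (.str 10 (.nv (.thr 6 2 (.thr 3 9 (.thr 26 58 (.thr 38 50 (.thr 4 55 (.dbl 7 5 11)))))) (.nv (.thr 26 58 (.thr 37 48 (.thr 38 50 (.thr 39 36 (.dbl 51 25 27))))) (.nv (.thr 6 2 (.thr 3 9 (.thr 7 11 (.thr 5 4 (.thr 37 53 (.dbl 26 48 58)))))) (.rp 58 (.thr 6 2 (.thr 3 9 (.thr 7 11 (.thr 5 4 (.thr 37 53 (.thr 43 23 (.thr 41 40 (.thr 48 26 (.dbl 33 18 45))))))))) (.rp 45 (.str 44 (.nv (.thr 6 2 (.thr 3 9 (.thr 7 11 (.thr 5 4 (.thr 26 58 (.dbl 37 48 53)))))) (.nv (.thr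 26 58 (.thr 37 48 (.thr 38 50 (.thr 39 36 (.dbl 51 25 27))))) (.nv (.thr 6 2 (.thr 3 9 (.thr 43 23 (.thr 41 40 (.thr 60 28 (.dbl 61 1 62)))))) (.rp 61 (.str 29 (.nv (.thr 28 60 (.thr 31 30 (.dbl 26 16 58))) (.nv (.thr 25 17 (.thr 26 58 (.dbl 38 50 51))) (.rp 58 (.thr 28 60 (.thr 31 30 (.thr 26 16 (.thr 25 17 (.dbl 38 50 51))))) (.rp 26 (.thr 60 28 (.thr 6 2 (.thr 25 17 (.thr 51 38 (.thr 57 54 (.dbl 9 3 41)))))) .nd))))) (.rp 29 (.str 61 (.nv (.thr 26 58 (.thr 41 1 (.dbl 38 35 50))) (.nv (.dbl 60 28 62) .nd))) .nd)))))) (.rp 44 (.str 45 (.nv (.thr 6 2 (.thr 3 9 (.thr 43 23 (.thr 41 40 (.thr 60 30 (.dbl 61 1 62)))))) (.nv (.thr 26 58 (.thr 30 60 (.thr 31 16 (.thr 29 28 (.thr 25 17 (.dbl 38 50 51)))))) (.nv (.thr 6 2 (.thr 3 9 (.thr 7 11 (.thr 5 4 (.thr 37 53 (.dbl 26 48 58)))))) (.rp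 26 (.thr 6 2 (.thr 3 9 (.thr 7 11 (.thr 5 4 (.thr 37 53 (.thr 43 23 (.dbl 41 33 40))))))) (.rp 3 (.thr 60 30 (.thr 61 62 (.thr 26 58 (.thr 37 48 (.dbl 41 1 33))))) .nd)))))) (.rp 26 (.thr 6 2 (.thr 3 9 (.thr 7 11 (.thr 5 4 (.thr 37 53 (.thr 43 23 (.thr 41 40 (.thr 61 1 (.thr 60 62 (.dbl 45 30 33)))))))))) .nd))))))))) (.rp 37 (.thr 14 13 (.thr 46 29 (.thr 38 34 (.thr 26 50 (.thr 58 10 (.thr 48 53 (.thr 24 36 (.dbl 25 27 51)))))))) (.rp 29 (.str 9 (.nv (.thr 3 6 (.thr 11 7 (.thr 10 8 (.thr 26 58 (.thr 43 23 (.dbl 41 40 56)))))) (.nv (.thr 3 6 (.thr 11 7 (.thr 10 8 (.thr 13 14 (.thr 5 1 (.thr 26 58 (.dbl 37 48 53))))))) (.nv (.thr 13 14 (.thr 1 5 (.thr 41 61 (.thr 43 40 (.dbl 3 6 23))))) (.rp 6 (.thr 13 14 (.thr 5 1 (.thr 37 53 (.thr 26 48 (.thr 25 49 (.thr 27 24 (.dbl 51 38 39)))))))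 (.rp 5 (.thr 13 14 (.thr 3 6 (.thr 43 23 (.thr 41 40 (.thr 25 57 (.thr 37 49 (.thr 33 45 (.dbl 48 18 26)))))))) (.rp 3 (.thr 13 14 (.thr 1 5 (.thr 41 61 (.thr 25 57 (.thr 51 38 (.thr 27 39 (.thr 26 24 (.dbl 37 48 49)))))))) .nd))))))) .nd))))))))) (.rp 37 (.str 25 (.nv (.thr 29 17 (.thr 12 46 (.thr 13 14 (.thr 51 38 (.thr 61 45 (.thr 41 1 (.thr 57 9 (.dbl 60 54 62)))))))) (.nv (.thr 17 29 (.thr 31 47 (.thr 26 16 (.thr 27 24 (.thr 23 19 (.thr 3 43 (.thr 7 11 (.dbl 39 51 55)))))))) (.nv (.thr 29 17 (.thr 12 46 (.thr 13 14 (.thr 31 47 (.thr 45 61 (.dbl 30 28 60)))))) (.rp 52 (.str 7 (.nv (.thr 3 11 (.thr 43 23 (.thr 41 40 (.thr 9 57 (.thr 12 6 (.dbl 29 17 46)))))) (.nv (.thr 29 17 (.thr 12 46 (.thr 13 14 (.thr 31 47 (.thr 30 28 (.dbl 45 60 61)))))) (.nv (.thr 3 11 (.thr 31 47 (.thr 23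 43 (.thr 27 19 (.dbl 39 51 55))))) .nd)))) (.rp 51 (.thr 31 47 (.thr 26 16 (.thr 24 27 (.thr 58 10 (.thr 48 53 (.thr 12 36 (.dbl 29 17 46))))))) (.rp 47 (.thr 29 17 (.thr 12 46 (.thr 13 14 (.thr 45 61 (.thr 30 60 (.thr 31 28 (.thr 26 16 (.thr 51 38 (.dbl 27 24 39))))))))) (.rp 29 (.thr 31 47 (.thr 26 16 (.thr 27 24 (.thr 23 19 (.thr 3 43 (.thr 7 11 (.dbl 39 51 55))))))) (.rp 17 (.thr 31 47 (.thr 26 16 (.thr 24 27 (.thr 58 10 (.thr 48 53 (.thr 12 36 (.thr 14 13 (.dbl 38 50 51)))))))) (.rp 7 (.str 52 (.nv (.thr 29 17 (.thr 12 46 (.thr 13 14 (.thr 51 38 (.thr 61 45 (.thr 41 1 (.thr 57 9 (.dbl 60 54 62)))))))) (.nv (.thr 31 47 (.thr 26 16 (.thr 27 24 (.thr 29 17 (.thr 51 39 (.dbl 12 38 46)))))) (.nv (.thr 29 17 (.thr 12 46 (.thr 13 14 (.thr 45 61 (.thr 31 47 (.dbl 30 28 60)))))) (.rp 51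 (.thr 31 47 (.thr 26 16 (.thr 58 10 (.thr 24 27 (.thr 48 53 (.thr 12 36 (.dbl 29 17 46))))))) (.rp 47 (.thr 29 17 (.thr 12 46 (.thr 13 14 (.thr 45 61 (.thr 30 60 (.thr 31 28 (.thr 26 16 (.thr 51 38 (.dbl 27 24 39))))))))) (.rp 46 (.thr 31 47 (.thr 26 16 (.thr 58 10 (.thr 48 53 (.thr 60 56 (.thr 29 17 (.dbl 30 28 45))))))) (.rp 29 (.thr 31 47 (.thr 26 16 (.thr 58 10 (.thr 24 27 (.thr 48 53 (.thr 12 36 (.thr 14 13 (.dbl 38 50 51)))))))) (.rp 17 (.thr 31 47 (.thr 26 16 (.thr 58 10 (.thr 24 27 (.thr 48 53 (.thr 12 36 (.thr 14 13 (.dbl 38 50 51)))))))) (.rp 12 (.thr 31 47 (.thr 26 16 (.thr 58 10 (.thr 48 53 (.thr 60 56 (.thr 30 45 (.dbl 29 17 28))))))) .nd)))))))))) .nd)))))))))) (.rp 32 (.thr 31 47 (.thr 26 16 (.thr 48 37 (.dbl 58 10 53)))) (.rp 31 (.str 29 (.nv (.thr 12 46 (.thr 13 14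 (.thr 61 45 (.thr 1 41 (.thr 5 9 (.thr 37 53 (.dbl 25 17 49))))))) (.nv (.thr 12 46 (.thr 25 17 (.thr 51 38 (.thr 27 39 (.thr 26 24 (.thr 58 10 (.dbl 48 37 53))))))) (.rp 53 (.thr 12 46 (.thr 13 14 (.thr 25 17 (.thr 37 49 (.thr 26 48 (.thr 27 24 (.dbl 51 38 39))))))) (.rp 46 (.str 12 (.nv (.thr 13 14 (.thr 61 45 (.thr 1 41 (.thr 5 9 (.thr 37 53 (.dbl 25 17 49)))))) (.nv (.thr 25 17 (.thr 51 38 (.thr 27 39 (.thr 26 24 (.thr 58 10 (.dbl 48 37 53)))))) (.rp 53 (.thr 13 14 (.thr 25 17 (.thr 37 49 (.thr 26 48 (.thr 27 24 (.dbl 51 38 39)))))) (.rp 37 (.thr 13 14 (.thr 61 45 (.thr 41 1 (.thr 43 40 (.thr 3 23 (.thr 9 6 (.dbl 25 17 57))))))) (.rp 25 (.thr 13 14 (.thr 61 45 (.thr 41 1 (.thr 43 40 (.thr 3 23 (.thr 9 6 (.thr 11 7 (.thr 10 8 (.dbl 26 56 58))))))))) (.rp 17 (.thr 13 14 (.thr 61 45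 (.thr 41 1 (.thr 43 40 (.thr 3 23 (.thr 9 6 (.thr 11 7 (.thr 10 8 (.dbl 26 56 58))))))))) .nd))))))) (.rp 37 (.thr 12 46 (.thr 13 14 (.thr 61 45 (.thr 41 1 (.thr 43 40 (.thr 3 23 (.thr 9 6 (.dbl 25 17 57)))))))) (.rp 25 (.thr 12 46 (.thr 13 14 (.thr 61 45 (.thr 41 1 (.thr 43 40 (.thr 3 23 (.thr 9 6 (.thr 11 7 (.thr 10 8 (.dbl 26 56 58)))))))))) (.rp 17 (.thr 12 46 (.thr 13 14 (.thr 61 45 (.thr 41 1 (.thr 43 40 (.thr 3 23 (.thr 9 6 (.thr 11 7 (.thr 10 8 (.dbl 26 56 58)))))))))) (.rp 12 (.str 13 (.nv (.thr 61 45 (.thr 1 41 (.thr 5 9 (.thr 37 53 (.dbl 25 17 49))))) (.nv (.thr 25 17 (.thr 49 37 (.thr 61 45 (.thr 41 1 (.dbl 57 9 53))))) (.nv (.thr 25 17 (.thr 37 49 (.thr 53 5 (.dbl 48 26 58)))) (.rp 53 (.thr 61 45 (.thr 41 1 (.thr 43 40 (.thr 3 23 (.thr 11 7 (.thr 26 56 (.thr 25 17 (.dbl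 37 48 49)))))))) (.rp 49 (.thr 61 45 (.thr 41 1 (.thr 43 40 (.thr 3 23 (.thr 11 7 (.thr 26 56 (.thr 58 10 (.dbl 48 37 53)))))))) (.rp 37 (.thr 61 45 (.thr 60 62 (.thr 41 1 (.thr 43 40 (.thr 25 17 (.thr 57 9 (.thr 51 54 (.thr 39 27 (.thr 35 47 (.dbl 3 19 23)))))))))) (.rp 25 (.thr 61 45 (.thr 41 1 (.thr 43 40 (.thr 3 23 (.thr 11 7 (.thr 26 56 (.thr 58 10 (.dbl 48 37 53)))))))) (.rp 17 (.thr 61 45 (.thr 41 1 (.thr 43 40 (.thr 3 23 (.thr 11 7 (.thr 26 56 (.thr 58 10 (.dbl 48 37 53)))))))) (.rp 8 (.str 4 (.nv (.thr 61 45 (.thr 1 41 (.thr 5 9 (.thr 37 53 (.dbl 25 17 49))))) (.nv (.thr 25 17 (.thr 49 37 (.thr 61 45 (.thr 41 1 (.dbl 57 9 53))))) (.nv (.thr 25 17 (.thr 37 49 (.thr 53 5 (.dbl 48 26 58)))) (.rp 53 (.thr 45 61 (.thr 38 55 (.thr 46 34 (.thr 47 44 (.thr 37 32 (.dbl 25 17 49))))))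 (.rp 49 (.thr 45 61 (.thr 38 55 (.thr 46 34 (.thr 47 44 (.thr 37 32 (.thr 53 5 (.dbl 48 26 58))))))) (.rp 37 (.thr 61 45 (.thr 38 55 (.thr 41 1 (.thr 43 40 (.thr 3 23 (.thr 46 34 (.thr 35 44 (.thr 39 47 (.dbl 51 19 27))))))))) (.rp 25 (.thr 45 61 (.thr 38 55 (.thr 46 34 (.thr 47 44 (.thr 37 32 (.thr 53 5 (.dbl 48 26 58))))))) (.rp 17 (.thr 61 45 (.thr 38 55 (.thr 41 1 (.thr 43 40 (.thr 34 46 (.thr 35 44 (.thr 47 39 (.dbl 32 33 37)))))))) (.rp 1 (.thr 45 61 (.thr 38 55 (.thr 46 34 (.thr 47 44 (.thr 37 32 (.dbl 25 17 49)))))) .nd)))))))))) (.rp 4 (.str 8 (.nv (.thr 61 45 (.thr 1 41 (.thr 5 9 (.thr 37 53 (.dbl 25 17 49))))) (.nv (.thr 25 17 (.thr 49 37 (.thr 61 45 (.thr 41 1 (.dbl 57 9 53))))) (.nv (.thr 25 17 (.thr 37 49 (.thr 48 26 (.dbl 53 5 58)))) (.nv (.thr 61 45 (.thr 25 17 (.thr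 37 49 (.thr 5 53 (.dbl 1 9 41))))) (.rp 53 (.thr 61 45 (.thr 60 62 (.thr 41 1 (.thr 40 43 (.thr 56 24 (.thr 48 52 (.dbl 26 11 37))))))) (.rp 49 (.thr 61 45 (.thr 60 62 (.thr 41 1 (.thr 40 43 (.thr 56 24 (.thr 48 52 (.dbl 26 11 37))))))) (.rp 37 (.thr 61 45 (.thr 41 1 (.thr 40 43 (.thr 56 24 (.thr 11 26 (.thr 9 10 (.dbl 25 17 57))))))) (.rp 25 (.thr 61 45 (.thr 60 62 (.thr 41 1 (.thr 40 43 (.thr 56 24 (.thr 48 52 (.dbl 26 11 37))))))) (.rp 17 (.thr 61 45 (.thr 60 62 (.thr 41 1 (.thr 40 43 (.thr 56 24 (.thr 48 52 (.dbl 26 11 37))))))) (.rp 1 (.thr 45 61 (.thr 25 17 (.thr 37 49 (.thr 33 41 (.thr 53 5 (.dbl 48 26 58)))))) .nd))))))))))) (.rp 1 (.thr 45 61 (.thr 25 17 (.thr 37 49 (.thr 33 41 (.thr 53 5 (.dbl 48 26 58)))))) .nd)))))))))))) .nd))))))))) (.rp 26 (.thr 47 31 (.str 35 (.nv (.thr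 32 37 (.thr 34 33 (.thr 46 38 (.thr 12 29 (.thr 14 13 (.thr 30 62 (.dbl 45 44 60))))))) (.nv (.thr 37 32 (.thr 39 43 (.thr 38 36 (.thr 46 34 (.thr 12 29 (.dbl 51 25 27)))))) (.nv (.thr 37 32 (.thr 43 39 (.thr 41 40 (.thr 45 33 (.thr 61 1 (.dbl 60 30 62)))))) (.nv (.thr 32 37 (.thr 34 33 (.thr 38 46 (.thr 41 44 (.dbl 43 39 40))))) (.rp 44 (.thr 43 39 (.thr 3 23 (.thr 19 51 (.thr 32 37 (.thr 41 40 (.thr 1 61 (.thr 33 34 (.thr 17 49 (.dbl 18 16 48))))))))) (.rp 39 (.thr 32 37 (.thr 34 33 (.thr 38 46 (.thr 4 55 (.thr 41 44 (.thr 43 40 (.thr 3 23 (.thr 7 11 (.thr 6 5 (.thr 12 9 (.dbl 51 19 25))))))))))) (.rp 37 (.thr 43 39 (.thr 3 23 (.thr 41 40 (.thr 38 44 (.thr 46 34 (.thr 12 29 (.dbl 51 19 25))))))) (.rp 32 (.thr 43 39 (.thr 41 40 (.thr 61 1 (.thr 44 38 (.thr 45 46 (.dbl 60 30 62))))))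 (.rp 30 (.str 18 (.nv (.thr 43 39 (.thr 41 40 (.thr 44 38 (.thr 45 46 (.dbl 37 32 33))))) (.nv (.thr 43 39 (.thr 3 23 (.thr 33 48 (.dbl 32 34 37)))) (.rp 43 (.thr 37 32 (.thr 53 5 (.thr 48 58 (.thr 3 33 (.thr 51 19 (.thr 50 49 (.thr 34 2 (.thr 38 46 (.dbl 39 27 36))))))))) (.rp 39 (.thr 32 37 (.thr 33 34 (.thr 3 48 (.thr 19 51 (.thr 17 16 (.thr 43 23 (.thr 41 40 (.dbl 1 49 61)))))))) (.rp 37 (.thr 43 39 (.thr 3 23 (.thr 33 48 (.thr 41 40 (.thr 38 44 (.dbl 34 32 46)))))) (.rp 33 (.thr 39 43 (.thr 37 32 (.thr 38 36 (.thr 46 34 (.dbl 44 41 45))))) (.rp 32 (.thr 43 39 (.thr 3 23 (.thr 41 40 (.thr 44 38 (.thr 45 46 (.dbl 33 37 48)))))) (.rp 29 (.str 28 (.nv (.thr 43 39 (.thr 41 40 (.thr 44 38 (.thr 60 12 (.dbl 61 1 62))))) (.nv (.thr 43 39 (.thr 3 23 (.thr 33 48 (.dbl 32 34 37)))) (.rp 43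 (.thr 37 32 (.thr 53 5 (.thr 48 58 (.thr 33 3 (.thr 41 45 (.thr 44 38 (.thr 60 12 (.dbl 61 1 62)))))))) (.rp 39 (.thr 32 37 (.thr 33 34 (.thr 3 48 (.thr 19 51 (.thr 17 16 (.thr 43 23 (.thr 41 40 (.dbl 1 49 61)))))))) (.rp 37 (.thr 43 39 (.thr 41 40 (.thr 61 1 (.thr 60 62 (.dbl 44 12 38))))) .nd)))))) (.rp 28 (.str 29 (.nv (.thr 43 39 (.thr 3 23 (.thr 19 51 (.dbl 17 16 25)))) (.nv (.thr 46 12 (.thr 44 45 (.dbl 38 34 41))) (.rp 25 (.str 19 (.nv (.thr 32 37 (.thr 34 33 (.dbl 46 12 38))) (.nv (.thr 43 39 (.dbl 3 23 51)) (.rp 27 (.str 24 (.nv (.thr 32 37 (.thr 34 33 (.dbl 46 12 38))) (.nv (.thr 43 39 (.dbl 3 23 51)) (.rp 43 (.str 11 (.nv (.thr 32 37 (.thr 34 33 (.dbl 46 12 38))) (.nv (.dbl 3 7 51) (.rp 7 (.thr 12 46 (.thr 3 51 (.dbl 48 33 36))) .nd)))) .nd)))) (.rp 24 (.str 27 (.nv (.thr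 32 37 (.thr 34 33 (.dbl 46 12 38))) (.nv (.dbl 51 3 39) (.rp 20 (.thr 16 17 (.dbl 51 3 39)) (.rp 16 (.str 20 (.nv (.thr 32 37 (.thr 34 33 (.dbl 46 12 38))) (.nv (.dbl 39 43 51) (.rp 32 (.str 48 (.nv (.dbl 3 33 51) (.nv (.dbl 39 43 51) (.rp 51 (.thr 43 39 (.dbl 3 23 33)) .nd)))) .nd)))) .nd))))) .nd))))) (.rp 19 (.thr 25 17 (.thr 39 43 (.thr 12 46 (.dbl 51 27 38)))) .nd))))) .nd)))))))))) (.rp 18 (.str 30 (.nv (.thr 32 37 (.thr 34 33 (.thr 46 38 (.dbl 45 44 60)))) (.nv (.thr 43 39 (.thr 41 40 (.thr 60 45 (.dbl 61 1 62)))) (.rp 60 (.thr 39 43 (.thr 37 32 (.thr 38 36 (.thr 46 34 (.dbl 44 41 45))))) (.rp 45 (.thr 43 39 (.thr 32 37 (.thr 34 33 (.thr 41 40 (.dbl 38 44 46))))) (.rp 41 (.thr 39 43 (.thr 37 32 (.thr 38 36 (.thr 46 34 (.dbl 45 44 60))))) (.rp 39 (.thr 37 32 (.thr 45 60 (.thr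 41 33 (.dbl 44 38 46)))) .nd))))))) .nd)))))))))))) .nd)))))))))))

theorem w484 : WinAt (9223376434903384064, 576460752307617793) :=
  chF (K := []) kn c484 9223376434903384064 576460752307617793 0
    [] (by decide +kernel) (by decide +kernel)

/-- A certificate. -/
noncomputable def c485 : Ct := (.str 26 (.nv (.thr 58 10 (.thr 59 8 (.thr 56 57 (.thr 27 24 (.dbl 11 41 43))))) (.nv (.thr 27 24 (.thr 58 10 (.thr 59 8 (.thr 11 43 (.dbl 56 41 57))))) (.rp 62 (.str 61 (.nv (.thr 8 59 (.thr 10 58 (.thr 11 9 (.dbl 41 1 56)))) (.nv (.thr 41 1 (.thr 24 27 (.thr 56 11 (.dbl 8 40 59)))) (.rp 59 (.thr 41 1 (.thr 57 9 (.thr 29 17 (.thr 13 45 (.dbl 49 37 53))))) (.rp 56 (.thr 41 1 (.thr 57 9 (.thr 29 17 (.thr 13 45 (.dbl 49 37 53))))) (.rp 41 (.str 3 (.nv (.thr 8 59 (.thr 10 58 (.thr 9 11 (.thr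 12 6 (.thr 27 24 (.thr 31 16 (.thr 19 23 (.dbl 51 35 38)))))))) (.nv (.thr 16 31 (.thr 17 29 (.thr 19 18 (.thr 51 35 (.thr 34 0 (.dbl 38 12 46)))))) (.nv (.thr 59 8 (.thr 27 24 (.thr 11 43 (.thr 15 7 (.thr 29 17 (.thr 13 45 (.dbl 37 48 49))))))) .nd)))) (.rp 11 (.thr 41 1 (.thr 57 9 (.thr 29 17 (.thr 13 45 (.dbl 49 37 53))))) (.rp 8 (.thr 41 1 (.thr 57 9 (.thr 29 17 (.thr 13 45 (.dbl 49 37 53))))) (.rp 1 (.thr 24 27 (.thr 10 58 (.thr 8 59 (.thr 11 9 (.dbl 56 40 41))))) .nd))))))))) (.rp 61 (.str 62 (.nv (.thr 24 27 (.thr 10 58 (.thr 8 59 (.thr 11 9 (.dbl 56 40 41))))) (.nv (.thr 27 24 (.thr 58 10 (.thr 59 8 (.thr 11 43 (.dbl 56 41 57))))) (.rp 59 (.thr 29 17 (.thr 31 16 (.thr 30 28 (.thr 58 10 (.thr 50 54 (.dbl 14 38 46)))))) (.rp 58 (.thr 24 27 (.thr 29 17 (.thr 31 16 (.thr 30 28 (.thr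 14 46 (.thr 38 50 (.thr 12 51 (.thr 48 36 (.dbl 15 13 37))))))))) (.rp 57 (.thr 24 27 (.thr 8 59 (.thr 56 40 (.thr 10 58 (.dbl 11 9 41))))) (.rp 56 (.thr 29 17 (.thr 31 16 (.thr 30 28 (.thr 58 10 (.thr 50 54 (.dbl 14 38 46)))))) (.rp 41 (.str 3 (.nv (.thr 17 29 (.thr 16 31 (.thr 18 19 (.thr 48 33 (.thr 32 0 (.dbl 37 15 47)))))) (.nv (.thr 8 59 (.thr 10 58 (.thr 11 9 (.thr 15 7 (.thr 5 0 (.dbl 37 48 53)))))) (.nv (.thr 31 16 (.thr 27 24 (.thr 19 23 (.thr 51 35 (.thr 58 10 (.thr 50 54 (.dbl 38 12 14))))))) (.rp 20 (.thr 10 58 (.thr 17 29 (.thr 8 59 (.thr 9 11 (.thr 12 6 (.thr 0 4 (.dbl 51 34 38))))))) .nd))))) (.rp 40 (.thr 27 24 (.thr 58 10 (.thr 59 8 (.thr 56 57 (.dbl 11 41 43))))) (.rp 27 (.thr 29 17 (.thr 31 16 (.thr 30 28 (.thr 58 10 (.thr 50 54 (.dbl 14 38 46)))))) (.rp 24 (.thr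 17 29 (.thr 16 31 (.thr 18 19 (.thr 58 10 (.thr 50 54 (.thr 34 2 (.dbl 38 14 46))))))) (.rp 11 (.thr 29 17 (.thr 31 16 (.thr 30 28 (.thr 58 10 (.thr 50 54 (.dbl 14 38 46)))))) (.rp 10 (.thr 24 27 (.thr 29 17 (.thr 31 16 (.thr 30 28 (.thr 14 46 (.thr 38 50 (.thr 12 51 (.thr 48 36 (.dbl 15 13 37))))))))) (.rp 8 (.thr 29 17 (.thr 31 16 (.thr 30 28 (.thr 58 10 (.thr 50 54 (.dbl 14 38 46)))))) (.rp 3 (.str 41 (.nv (.thr 8 59 (.thr 9 57 (.dbl 10 11 58))) (.nv (.thr 27 24 (.thr 59 8 (.dbl 11 43 56))) (.rp 59 (.thr 58 10 (.thr 31 16 (.thr 29 17 (.thr 30 28 (.thr 14 46 (.dbl 50 38 54)))))) (.rp 56 (.thr 58 10 (.thr 31 16 (.thr 29 17 (.thr 30 28 (.thr 14 46 (.dbl 50 38 54)))))) (.rp 43 (.str 23 (.nv (.thr 8 59 (.thr 11 56 (.dbl 9 10 57))) (.nv (.thr 27 24 (.dbl 31 16 19)) .nd))) (.rp 23 (.thr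 43 40 (.thr 11 56 (.dbl 27 24 59))) (.rp 11 (.thr 58 10 (.thr 31 16 (.thr 29 17 (.thr 30 28 (.thr 14 46 (.dbl 50 38 54)))))) (.rp 8 (.thr 58 10 (.thr 31 16 (.thr 29 17 (.thr 30 28 (.thr 14 46 (.dbl 50 38 54)))))) .nd))))))))) .nd))))))))))))))) (.rp 59 (.thr 58 10 (.str 51 (.nv (.thr 12 38 (.thr 24 27 (.thr 48 36 (.thr 49 50 (.dbl 37 13 15))))) (.nv (.thr 17 29 (.thr 34 0 (.dbl 38 12 46))) (.rp 62 (.str 61 (.nv (.thr 41 1 (.thr 57 9 (.thr 49 53 (.thr 48 50 (.dbl 37 13 15))))) (.nv (.thr 17 29 (.thr 34 0 (.dbl 38 12 46))) (.rp 41 (.str 3 (.nv (.thr 17 29 (.thr 34 0 (.dbl 38 12 46))) (.nv (.thr 19 35 (.thr 27 24 (.dbl 31 16 23))) (.rp 38 (.thr 17 29 (.thr 16 31 (.dbl 19 18 35))) .nd)))) (.rp 15 (.thr 29 17 (.thr 41 1 (.thr 57 9 (.thr 49 53 (.dbl 13 37 45))))) (.rp 5 (.thr 24 27 (.thr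 12 38 (.thr 48 36 (.thr 49 50 (.dbl 37 13 15))))) .nd)))))) (.rp 61 (.str 62 (.nv (.thr 17 29 (.thr 34 0 (.dbl 38 12 46))) (.nv (.thr 50 54 (.dbl 38 12 14)) (.rp 41 (.str 3 (.nv (.thr 27 24 (.thr 31 16 (.dbl 19 23 35))) (.nv (.thr 50 54 (.dbl 38 12 14)) .nd))) (.rp 38 (.thr 17 29 (.thr 16 31 (.thr 18 19 (.thr 34 0 (.dbl 50 2 54))))) (.rp 12 (.thr 50 54 (.thr 48 49 (.thr 27 24 (.dbl 15 37 39)))) (.rp 3 (.str 41 (.nv (.thr 17 29 (.thr 34 0 (.dbl 38 12 46))) (.nv (.thr 50 54 (.dbl 38 12 14)) (.rp 43 (.str 23 (.nv (.thr 11 56 (.thr 38 12 (.dbl 50 14 54))) (.nv (.thr 27 24 (.dbl 31 16 19)) .nd))) (.rp 38 (.thr 16 31 (.thr 17 29 (.thr 18 19 (.thr 34 0 (.dbl 50 2 54))))) (.rp 23 (.thr 43 40 (.thr 50 54 (.dbl 38 12 14))) (.rp 12 (.thr 50 54 (.thr 48 49 (.thr 27 24 (.dbl 15 37 39)))) .nd)))))))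 .nd))))))) (.rp 41 (.str 3 (.nv (.thr 17 29 (.thr 34 0 (.dbl 38 12 46))) (.nv (.thr 19 35 (.thr 27 24 (.dbl 31 16 23))) (.rp 62 (.str 61 (.nv (.thr 17 29 (.thr 34 0 (.dbl 38 12 46))) (.nv (.thr 19 35 (.thr 27 24 (.dbl 31 16 23))) (.rp 38 (.thr 17 29 (.thr 16 31 (.dbl 19 18 35))) .nd)))) (.rp 61 (.str 62 (.nv (.thr 27 24 (.thr 31 16 (.dbl 19 23 35))) (.nv (.thr 50 54 (.dbl 38 12 14)) .nd))) (.rp 38 (.thr 27 24 (.thr 31 16 (.dbl 19 23 35))) .nd)))))) (.rp 38 (.thr 27 24 (.thr 17 29 (.thr 16 31 (.thr 0 34 (.thr 48 32 (.dbl 15 37 39)))))) (.rp 15 (.thr 24 27 (.thr 17 29 (.thr 0 34 (.thr 12 38 (.thr 48 36 (.dbl 16 31 32)))))) (.rp 12 (.thr 27 24 (.thr 16 31 (.thr 15 39 (.thr 48 37 (.thr 0 32 (.dbl 17 29 34)))))) (.rp 3 (.str 41 (.nv (.thr 29 17 (.thr 57 9 (.thr 61 1 (.thr 49 53 (.dbl 13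 37 45))))) (.nv (.thr 12 38 (.thr 24 27 (.thr 48 36 (.thr 49 50 (.dbl 37 13 15))))) (.nv (.thr 17 29 (.thr 34 0 (.dbl 38 12 46))) (.rp 62 (.thr 61 1 (.thr 57 9 (.thr 49 53 (.thr 50 48 (.dbl 38 12 14))))) (.rp 61 (.str 62 (.nv (.thr 17 29 (.thr 34 0 (.dbl 38 12 46))) (.nv (.thr 50 54 (.dbl 38 12 14)) (.rp 43 (.str 23 (.nv (.thr 11 56 (.thr 38 12 (.dbl 50 14 54))) (.nv (.thr 27 24 (.dbl 31 16 19)) .nd))) (.rp 38 (.thr 16 31 (.thr 17 29 (.thr 18 19 (.thr 34 0 (.dbl 50 2 54))))) (.rp 23 (.thr 43 40 (.thr 50 54 (.dbl 38 12 14))) (.rp 12 (.thr 50 54 (.thr 48 49 (.thr 27 24 (.dbl 15 37 39)))) .nd))))))) (.rp 43 (.str 23 (.nv (.thr 11 56 (.thr 17 29 (.thr 34 0 (.dbl 38 12 46)))) (.nv (.thr 27 24 (.dbl 31 16 19)) (.rp 62 (.thr 61 1 (.thr 27 24 (.dbl 31 16 19))) (.rp 61 (.str 62 (.nv (.thr 11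 56 (.thr 38 12 (.dbl 50 14 54))) (.nv (.thr 27 24 (.dbl 31 16 19)) .nd))) .nd))))) (.rp 23 (.thr 43 40 (.thr 27 24 (.thr 39 15 (.thr 38 12 (.dbl 35 44 47))))) (.rp 12 (.thr 61 1 (.thr 29 17 (.thr 13 45 (.thr 49 37 (.dbl 57 9 53))))) .nd))))))))) .nd))))))))))) (.rp 58 (.thr 59 8 (.str 41 (.nv (.thr 27 24 (.dbl 43 11 40)) (.rp 62 (.thr 61 1 (.thr 27 24 (.dbl 43 11 40))) (.rp 61 (.str 62 (.nv (.thr 27 24 (.dbl 11 43 56)) (.rp 56 (.thr 24 27 (.thr 31 16 (.thr 29 17 (.thr 30 28 (.thr 14 46 (.thr 38 50 (.thr 12 51 (.thr 15 13 (.dbl 48 36 37))))))))) (.rp 53 (.str 48 (.nv (.thr 16 31 (.thr 32 0 (.dbl 37 15 47))) (.nv (.thr 27 24 (.dbl 43 11 40)) (.rp 57 (.str 49 (.nv (.thr 51 50 (.thr 11 56 (.dbl 27 24 43))) (.nv (.dbl 37 13 15) (.rp 51 (.str 54 (.nv (.thr 11 56 (.dbl 27 24 43)) (.nv (.dbl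 37 13 15) .nd))) .nd)))) (.rp 49 (.thr 57 9 (.thr 27 24 (.dbl 43 11 40))) (.rp 40 (.thr 24 27 (.thr 16 31 (.thr 20 28 (.thr 32 0 (.dbl 37 15 47))))) .nd)))))) (.rp 48 (.str 53 (.nv (.thr 27 24 (.dbl 43 11 40)) (.nv (.thr 43 40 (.dbl 27 11 24)) (.rp 56 (.str 52 (.nv (.thr 24 27 (.thr 16 31 (.thr 20 28 (.thr 4 36 (.dbl 55 38 54))))) (.nv (.thr 55 54 (.thr 38 4 (.thr 46 34 (.dbl 14 30 50)))) (.rp 55 (.thr 40 43 (.thr 37 5 (.thr 32 47 (.thr 44 36 (.thr 33 45 (.dbl 35 34 38)))))) (.rp 54 (.thr 40 43 (.thr 37 5 (.thr 32 47 (.thr 44 36 (.thr 33 45 (.dbl 35 34 38)))))) (.rp 38 (.thr 57 9 (.thr 40 43 (.thr 24 27 (.thr 37 5 (.thr 54 55 (.thr 47 32 (.thr 45 33 (.thr 46 44 (.thr 30 14 (.thr 29 17 (.dbl 31 16 28))))))))))) (.rp 30 (.thr 40 43 (.thr 37 5 (.thr 55 54 (.thr 38 4 (.thr 36 39 (.dbl 44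 32 35)))))) (.rp 24 (.thr 40 43 (.thr 55 54 (.thr 38 4 (.thr 14 50 (.dbl 46 30 34))))) (.rp 12 (.thr 40 43 (.thr 37 5 (.thr 32 47 (.thr 33 45 (.thr 35 34 (.dbl 44 36 38)))))) (.rp 4 (.thr 40 43 (.thr 37 5 (.thr 32 47 (.thr 44 36 (.thr 33 45 (.dbl 35 34 38)))))) .nd)))))))))) (.rp 52 (.thr 56 11 (.thr 40 43 (.thr 37 5 (.thr 32 47 (.thr 44 36 (.thr 33 45 (.dbl 35 34 38))))))) (.rp 43 (.thr 37 5 (.thr 47 32 (.thr 45 33 (.thr 46 44 (.thr 14 30 (.dbl 38 34 50)))))) (.rp 40 (.thr 37 5 (.thr 47 32 (.thr 45 33 (.thr 44 46 (.thr 35 38 (.thr 43 39 (.dbl 27 11 24))))))) (.rp 27 (.thr 40 43 (.thr 37 5 (.thr 32 47 (.thr 44 36 (.thr 33 45 (.dbl 35 34 38)))))) (.rp 24 (.thr 40 43 (.thr 37 5 (.thr 32 47 (.thr 33 45 (.thr 35 34 (.dbl 44 36 38)))))) (.rp 11 (.thr 40 43 (.thr 37 5 (.thr 32 47 (.thr 44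 36 (.thr 33 45 (.dbl 35 34 38)))))) .nd)))))))))) (.rp 43 (.thr 24 27 (.thr 31 16 (.thr 29 17 (.thr 30 28 (.thr 14 46 (.thr 38 50 (.thr 12 51 (.thr 15 13 (.dbl 48 36 37))))))))) (.rp 40 (.thr 24 27 (.thr 31 16 (.thr 29 17 (.thr 30 28 (.thr 14 46 (.thr 38 50 (.thr 12 51 (.thr 15 13 (.dbl 48 36 37))))))))) (.rp 27 (.thr 40 43 (.thr 31 16 (.thr 29 17 (.thr 30 28 (.thr 46 14 (.thr 38 34 (.thr 44 35 (.thr 47 45 (.dbl 32 36 37))))))))) (.rp 24 (.str 37 (.nv (.thr 5 53 (.thr 48 15 (.thr 16 31 (.thr 47 32 (.thr 17 29 (.thr 18 19 (.dbl 33 3 45))))))) (.nv (.thr 40 43 (.thr 33 45 (.thr 32 47 (.thr 35 34 (.dbl 44 36 38))))) (.nv (.thr 9 57 (.thr 13 49 (.thr 53 5 (.thr 15 48 (.thr 12 14 (.thr 3 6 (.dbl 11 7 56))))))) (.nv (.thr 45 33 (.thr 47 32 (.thr 44 46 (.thr 35 38 (.dbl 43 39 40))))) (.rp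 53 (.thr 48 15 (.thr 47 32 (.thr 16 31 (.thr 17 29 (.thr 18 19 (.dbl 33 3 45)))))) (.rp 48 (.thr 53 5 (.thr 40 43 (.thr 32 47 (.thr 33 45 (.thr 35 34 (.dbl 44 36 38)))))) (.rp 40 (.thr 56 11 (.thr 48 15 (.thr 47 32 (.thr 16 31 (.thr 17 29 (.thr 18 19 (.dbl 33 3 45))))))) .nd)))))))) (.rp 11 (.thr 24 27 (.thr 31 16 (.thr 29 17 (.thr 30 28 (.thr 14 46 (.thr 38 50 (.thr 12 51 (.thr 15 13 (.dbl 48 36 37))))))))) .nd)))))))))) (.rp 56 (.thr 57 9 (.thr 61 1 (.thr 29 17 (.thr 13 45 (.dbl 49 37 53))))) (.rp 53 (.str 48 (.nv (.thr 16 31 (.thr 32 0 (.dbl 37 15 47))) (.nv (.thr 27 24 (.dbl 43 11 40)) (.rp 62 (.thr 61 1 (.thr 27 24 (.dbl 43 11 40))) (.rp 61 (.str 62 (.nv (.thr 16 31 (.thr 32 0 (.dbl 37 15 47))) (.nv (.thr 27 24 (.dbl 43 11 40)) (.rp 57 (.str 49 (.nv (.thr 51 50 (.thr 11 56 (.dbl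 27 24 43))) (.nv (.dbl 37 13 15) (.rp 51 (.str 54 (.nv (.thr 11 56 (.dbl 27 24 43)) (.nv (.dbl 37 13 15) .nd))) .nd)))) (.rp 49 (.thr 57 9 (.thr 27 24 (.dbl 43 11 40))) (.rp 40 (.thr 24 27 (.thr 16 31 (.thr 20 28 (.thr 32 0 (.dbl 37 15 47))))) .nd)))))) (.rp 40 (.thr 61 1 (.thr 29 17 (.thr 37 15 (.dbl 45 13 33)))) .nd)))))) (.rp 48 (.str 53 (.nv (.thr 27 24 (.dbl 43 11 40)) (.nv (.thr 61 1 (.dbl 57 9 49)) (.rp 61 (.str 62 (.nv (.thr 27 24 (.dbl 43 11 40)) (.nv (.thr 43 40 (.dbl 27 11 24)) (.rp 56 (.str 52 (.nv (.thr 24 27 (.thr 16 31 (.thr 20 28 (.thr 4 36 (.dbl 55 38 54))))) (.nv (.thr 55 54 (.thr 38 4 (.thr 46 34 (.dbl 14 30 50)))) (.rp 55 (.thr 40 43 (.thr 37 5 (.thr 32 47 (.thr 44 36 (.thr 33 45 (.dbl 35 34 38)))))) (.rp 54 (.thr 40 43 (.thr 37 5 (.thr 32 47 (.thr 44 36 (.thr 33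 45 (.dbl 35 34 38)))))) (.rp 38 (.thr 57 9 (.thr 40 43 (.thr 24 27 (.thr 37 5 (.thr 54 55 (.thr 47 32 (.thr 45 33 (.thr 46 44 (.thr 30 14 (.thr 29 17 (.dbl 31 16 28))))))))))) (.rp 30 (.thr 40 43 (.thr 37 5 (.thr 55 54 (.thr 38 4 (.thr 36 39 (.dbl 44 32 35)))))) (.rp 24 (.thr 40 43 (.thr 55 54 (.thr 38 4 (.thr 14 50 (.dbl 46 30 34))))) (.rp 12 (.thr 40 43 (.thr 37 5 (.thr 32 47 (.thr 33 45 (.thr 35 34 (.dbl 44 36 38)))))) (.rp 4 (.thr 40 43 (.thr 37 5 (.thr 32 47 (.thr 44 36 (.thr 33 45 (.dbl 35 34 38)))))) .nd)))))))))) (.rp 52 (.thr 56 11 (.thr 40 43 (.thr 37 5 (.thr 32 47 (.thr 44 36 (.thr 33 45 (.dbl 35 34 38))))))) (.rp 43 (.thr 37 5 (.thr 47 32 (.thr 45 33 (.thr 46 44 (.thr 14 30 (.dbl 38 34 50)))))) (.rp 40 (.thr 37 5 (.thr 47 32 (.thr 45 33 (.thr 44 46 (.thr 35 38 (.thr 43 39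 (.dbl 27 11 24))))))) (.rp 27 (.thr 40 43 (.thr 37 5 (.thr 32 47 (.thr 44 36 (.thr 33 45 (.dbl 35 34 38)))))) (.rp 24 (.thr 40 43 (.thr 37 5 (.thr 32 47 (.thr 33 45 (.thr 35 34 (.dbl 44 36 38)))))) (.rp 11 (.thr 40 43 (.thr 37 5 (.thr 32 47 (.thr 44 36 (.thr 33 45 (.dbl 35 34 38)))))) .nd)))))))))) (.rp 56 (.str 52 (.nv (.thr 24 27 (.thr 5 37 (.thr 9 57 (.dbl 1 13 61)))) (.nv (.thr 17 29 (.thr 37 5 (.thr 33 45 (.dbl 1 49 61)))) (.nv (.thr 61 1 (.dbl 57 9 49)) (.rp 61 (.str 62 (.nv (.thr 24 27 (.thr 16 31 (.thr 20 28 (.thr 4 36 (.dbl 55 38 54))))) (.nv (.thr 55 54 (.thr 38 4 (.thr 46 34 (.dbl 14 30 50)))) (.rp 55 (.thr 40 43 (.thr 37 5 (.thr 32 47 (.thr 44 36 (.thr 33 45 (.dbl 35 34 38)))))) (.rp 54 (.thr 40 43 (.thr 37 5 (.thr 32 47 (.thr 44 36 (.thr 33 45 (.dbl 35 34 38)))))) (.rp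 38 (.thr 57 9 (.thr 40 43 (.thr 24 27 (.thr 37 5 (.thr 54 55 (.thr 47 32 (.thr 45 33 (.thr 46 44 (.thr 30 14 (.thr 29 17 (.dbl 31 16 28))))))))))) (.rp 30 (.thr 40 43 (.thr 37 5 (.thr 55 54 (.thr 38 4 (.thr 36 39 (.dbl 44 32 35)))))) (.rp 24 (.thr 40 43 (.thr 55 54 (.thr 38 4 (.thr 14 50 (.dbl 46 30 34))))) (.rp 12 (.thr 40 43 (.thr 37 5 (.thr 32 47 (.thr 33 45 (.thr 35 34 (.dbl 44 36 38)))))) (.rp 4 (.thr 40 43 (.thr 37 5 (.thr 32 47 (.thr 44 36 (.thr 33 45 (.dbl 35 34 38)))))) .nd)))))))))) (.rp 24 (.thr 40 43 (.thr 57 9 (.dbl 61 1 49))) (.rp 1 (.thr 24 27 (.thr 55 54 (.thr 16 31 (.thr 20 28 (.dbl 4 36 38))))) .nd))))))) (.rp 52 (.thr 56 11 (.thr 61 1 (.dbl 57 9 49))) .nd)))))) (.rp 43 (.thr 57 9 (.thr 61 1 (.thr 29 17 (.thr 13 45 (.dbl 49 37 53))))) (.rp 40 (.thr 57 9 (.thr 61 1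 (.thr 29 17 (.thr 13 45 (.dbl 49 37 53))))) (.rp 27 (.thr 57 9 (.thr 61 1 (.thr 29 17 (.thr 13 45 (.dbl 49 37 53))))) (.rp 24 (.thr 57 9 (.thr 61 1 (.thr 29 17 (.thr 13 45 (.dbl 49 37 53))))) (.rp 11 (.thr 61 1 (.thr 29 17 (.thr 13 45 (.thr 49 37 (.dbl 57 9 53))))) .nd))))))))))))) (.rp 57 (.thr 24 27 (.thr 8 59 (.thr 56 40 (.thr 10 58 (.dbl 11 9 41))))) (.rp 56 (.str 48 (.nv (.thr 8 59 (.thr 24 27 (.thr 12 36 (.thr 0 4 (.dbl 16 31 32))))) (.nv (.thr 15 37 (.thr 24 27 (.thr 12 36 (.thr 14 13 (.dbl 38 50 51))))) (.nv (.thr 16 31 (.thr 32 0 (.dbl 37 15 47))) (.rp 62 (.str 61 (.nv (.thr 8 59 (.thr 24 27 (.thr 12 36 (.thr 0 4 (.dbl 16 31 32))))) (.nv (.thr 29 17 (.thr 13 45 (.dbl 37 15 49))) (.rp 41 (.str 3 (.nv (.thr 8 59 (.thr 24 27 (.thr 12 36 (.thr 0 4 (.dbl 16 31 32))))) (.nv (.thr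 29 17 (.thr 13 45 (.dbl 37 15 49))) .nd))) (.rp 3 (.thr 41 1 (.thr 29 17 (.thr 45 13 (.dbl 37 15 33)))) .nd))))) (.rp 61 (.str 62 (.nv (.thr 58 10 (.thr 50 54 (.thr 38 14 (.dbl 51 12 49)))) (.nv (.thr 16 31 (.thr 32 0 (.dbl 37 15 47))) (.rp 41 (.str 3 (.nv (.thr 58 10 (.thr 50 54 (.thr 38 14 (.dbl 51 12 49)))) (.nv (.thr 16 31 (.thr 32 0 (.dbl 37 15 47))) .nd))) (.rp 3 (.str 41 (.nv (.thr 58 10 (.thr 50 54 (.thr 51 49 (.dbl 38 12 14)))) (.nv (.thr 16 31 (.thr 32 0 (.dbl 37 15 47))) (.rp 43 (.str 23 (.nv (.thr 16 31 (.thr 32 0 (.dbl 37 15 47))) (.nv (.thr 31 16 (.dbl 27 19 24)) (.rp 31 (.thr 58 10 (.thr 50 54 (.thr 51 49 (.dbl 38 12 14)))) (.rp 16 (.thr 58 10 (.thr 50 54 (.thr 51 49 (.dbl 38 12 14)))) .nd))))) (.rp 23 (.thr 43 40 (.thr 16 31 (.thr 0 32 (.thr 10 58 (.dbl 15 5 37)))))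 .nd))))) .nd))))) (.rp 41 (.str 3 (.nv (.thr 8 59 (.thr 24 27 (.thr 12 36 (.thr 9 6 (.dbl 10 11 58))))) (.nv (.thr 16 31 (.thr 32 0 (.dbl 37 15 47))) (.rp 62 (.str 61 (.nv (.thr 8 59 (.thr 24 27 (.thr 12 36 (.thr 0 4 (.dbl 16 31 32))))) (.nv (.thr 29 17 (.thr 13 45 (.dbl 37 15 49))) .nd))) (.rp 61 (.str 62 (.nv (.thr 58 10 (.thr 50 54 (.thr 38 14 (.dbl 51 12 49)))) (.nv (.thr 16 31 (.thr 32 0 (.dbl 37 15 47))) .nd))) .nd))))) (.rp 3 (.str 41 (.nv (.thr 8 59 (.thr 24 27 (.thr 12 36 (.thr 0 4 (.dbl 16 31 32))))) (.nv (.thr 61 1 (.thr 29 17 (.thr 13 45 (.dbl 37 15 49)))) (.nv (.thr 16 31 (.thr 32 0 (.dbl 37 15 47))) (.rp 61 (.str 62 (.nv (.thr 58 10 (.thr 50 54 (.thr 51 49 (.dbl 38 12 14)))) (.nv (.thr 16 31 (.thr 32 0 (.dbl 37 15 47))) (.rp 43 (.str 23 (.nv (.thr 16 31 (.thr 32 0 (.dbl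 37 15 47))) (.nv (.thr 31 16 (.dbl 27 19 24)) (.rp 31 (.thr 58 10 (.thr 50 54 (.thr 51 49 (.dbl 38 12 14)))) (.rp 16 (.thr 58 10 (.thr 50 54 (.thr 51 49 (.dbl 38 12 14)))) .nd))))) (.rp 23 (.thr 43 40 (.thr 16 31 (.thr 0 32 (.thr 10 58 (.dbl 15 5 37))))) .nd))))) (.rp 43 (.str 23 (.nv (.thr 29 17 (.thr 61 1 (.thr 13 45 (.dbl 37 15 49)))) (.nv (.thr 31 16 (.dbl 27 19 24)) (.rp 62 (.thr 61 1 (.thr 27 24 (.dbl 31 16 19))) (.rp 61 (.str 62 (.nv (.thr 16 31 (.thr 32 0 (.dbl 37 15 47))) (.nv (.thr 31 16 (.dbl 27 19 24)) (.rp 31 (.thr 58 10 (.thr 50 54 (.thr 51 49 (.dbl 38 12 14)))) (.rp 16 (.thr 58 10 (.thr 50 54 (.thr 51 49 (.dbl 38 12 14)))) .nd))))) .nd))))) (.rp 23 (.thr 43 40 (.thr 57 9 (.thr 61 1 (.thr 49 53 (.dbl 37 13 15))))) (.rp 0 (.thr 57 9 (.thr 37 15 (.thr 49 13 (.dbl 53 5 61))))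 .nd)))))))) .nd)))))))) (.rp 43 (.thr 24 27 (.thr 10 58 (.thr 8 59 (.thr 11 9 (.dbl 56 40 41))))) (.rp 41 (.str 3 (.nv (.thr 8 59 (.thr 10 58 (.thr 11 9 (.thr 15 7 (.thr 27 24 (.thr 31 16 (.thr 19 23 (.dbl 51 35 39)))))))) (.nv (.thr 8 59 (.thr 10 58 (.thr 9 11 (.thr 12 6 (.thr 0 4 (.thr 1 2 (.dbl 5 13 15))))))) (.nv (.thr 17 29 (.thr 16 31 (.thr 19 18 (.thr 51 35 (.thr 34 0 (.dbl 38 12 46)))))) (.rp 62 (.str 61 (.nv (.thr 8 59 (.thr 10 58 (.thr 9 11 (.thr 12 6 (.thr 27 24 (.thr 31 16 (.thr 19 23 (.dbl 51 35 38)))))))) (.nv (.thr 16 31 (.thr 17 29 (.thr 19 18 (.thr 51 35 (.thr 34 0 (.dbl 38 12 46)))))) (.nv (.thr 59 8 (.thr 27 24 (.thr 11 43 (.thr 15 7 (.thr 29 17 (.thr 13 45 (.dbl 37 48 49))))))) .nd)))) (.rp 61 (.str 62 (.nv (.thr 17 29 (.thr 16 31 (.thr 18 19 (.thr 48 33 (.thr 32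 0 (.dbl 37 15 47)))))) (.nv (.thr 8 59 (.thr 10 58 (.thr 11 9 (.thr 15 7 (.thr 5 0 (.dbl 37 48 53)))))) (.nv (.thr 31 16 (.thr 27 24 (.thr 19 23 (.thr 51 35 (.thr 58 10 (.thr 50 54 (.dbl 38 12 14))))))) (.rp 20 (.thr 10 58 (.thr 17 29 (.thr 8 59 (.thr 9 11 (.thr 12 6 (.thr 0 4 (.dbl 51 34 38))))))) .nd))))) (.rp 51 (.thr 17 29 (.thr 16 31 (.thr 18 19 (.thr 48 33 (.thr 32 0 (.dbl 37 15 47)))))) (.rp 15 (.thr 8 59 (.thr 10 58 (.thr 9 11 (.thr 12 6 (.thr 4 0 (.dbl 38 51 55)))))) .nd)))))))) (.rp 27 (.thr 58 10 (.str 61 (.nv (.thr 29 17 (.thr 13 45 (.thr 49 37 (.thr 57 53 (.dbl 59 8 56))))) (.nv (.thr 29 17 (.thr 13 45 (.thr 37 49 (.thr 5 53 (.dbl 1 9 41))))) (.nv (.thr 41 1 (.thr 59 8 (.dbl 56 11 57))) (.rp 41 (.str 3 (.nv (.thr 16 31 (.thr 17 29 (.thr 19 18 (.thr 51 35 (.thr 34 0 (.dbl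 38 12 46)))))) (.nv (.thr 59 8 (.thr 57 56 (.thr 49 53 (.thr 29 17 (.dbl 13 37 45))))) (.rp 40 (.thr 17 29 (.thr 16 31 (.thr 19 18 (.thr 51 35 (.thr 0 34 (.thr 8 59 (.dbl 12 4 38))))))) (.rp 29 (.thr 59 8 (.thr 57 56 (.thr 49 53 (.thr 37 13 (.thr 48 15 (.thr 51 50 (.thr 19 35 (.thr 18 33 (.dbl 16 17 31))))))))) (.rp 17 (.thr 59 8 (.thr 57 56 (.thr 49 53 (.thr 37 13 (.thr 48 15 (.thr 51 50 (.thr 35 19 (.thr 47 32 (.thr 39 43 (.dbl 38 12 36)))))))))) .nd)))))) .nd)))))) (.rp 24 (.str 61 (.nv (.thr 29 17 (.thr 13 45 (.thr 41 1 (.thr 57 9 (.dbl 49 37 53))))) (.nv (.thr 41 1 (.thr 56 11 (.thr 58 10 (.dbl 57 9 59)))) (.rp 57 (.thr 29 17 (.thr 13 45 (.thr 37 49 (.thr 5 53 (.dbl 1 9 41))))) (.rp 41 (.str 3 (.nv (.thr 8 59 (.thr 10 58 (.thr 9 11 (.thr 12 6 (.thr 4 0 (.dbl 38 51 55)))))) (.nv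 (.thr 17 29 (.thr 16 31 (.thr 19 18 (.thr 51 35 (.thr 34 0 (.dbl 38 12 46)))))) (.nv (.thr 29 17 (.thr 13 45 (.thr 37 49 (.thr 5 53 (.thr 1 9 (.thr 0 2 (.dbl 10 15 58))))))) (.rp 0 (.thr 17 29 (.thr 16 31 (.thr 18 19 (.thr 33 48 (.thr 49 1 (.thr 53 57 (.dbl 37 5 13))))))) .nd))))) (.rp 9 (.thr 58 10 (.thr 29 17 (.thr 13 45 (.thr 49 37 (.thr 57 53 (.dbl 59 8 56)))))) (.rp 1 (.thr 58 10 (.thr 59 8 (.thr 29 17 (.thr 13 45 (.thr 49 37 (.dbl 57 53 56)))))) .nd))))))) (.rp 11 (.thr 29 17 (.str 57 (.nv (.thr 41 9 (.thr 61 1 (.thr 13 45 (.dbl 49 37 53)))) (.nv (.thr 58 10 (.dbl 59 8 56)) (.rp 62 (.str 61 (.nv (.thr 13 45 (.dbl 49 37 53)) (.nv (.dbl 41 1 9) (.rp 41 (.str 3 (.nv (.thr 13 45 (.dbl 49 37 53)) (.nv (.thr 59 8 (.dbl 58 10 56)) .nd))) .nd)))) (.rp 61 (.str 62 (.nv (.thr 58 10 (.dbl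 59 8 56)) (.rp 59 (.thr 58 10 (.thr 31 16 (.thr 30 28 (.thr 14 46 (.dbl 50 38 54))))) (.rp 58 (.thr 24 27 (.thr 31 16 (.thr 30 28 (.thr 14 46 (.thr 38 50 (.thr 12 51 (.thr 15 13 (.dbl 48 36 37)))))))) (.rp 56 (.thr 58 10 (.thr 31 16 (.thr 30 28 (.thr 14 46 (.dbl 50 38 54))))) (.rp 41 (.str 3 (.nv (.thr 58 10 (.dbl 59 8 56)) (.rp 59 (.thr 58 10 (.thr 50 54 (.thr 31 16 (.thr 30 28 (.dbl 14 38 46))))) (.rp 58 (.thr 31 16 (.thr 27 24 (.thr 19 23 (.thr 51 35 (.thr 38 12 (.thr 46 34 (.dbl 14 30 50))))))) (.rp 56 (.thr 58 10 (.thr 50 54 (.thr 31 16 (.thr 30 28 (.dbl 14 38 46))))) (.rp 10 (.thr 31 16 (.thr 27 24 (.thr 19 23 (.thr 51 35 (.thr 38 12 (.thr 46 34 (.dbl 14 30 50))))))) (.rp 9 (.thr 31 16 (.thr 30 28 (.thr 14 46 (.thr 50 38 (.dbl 58 10 54))))) (.rp 8 (.thr 31 16 (.thr 30 28 (.thr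 14 46 (.thr 50 38 (.dbl 58 10 54))))) .nd)))))))) (.rp 10 (.thr 24 27 (.thr 31 16 (.thr 30 28 (.thr 14 46 (.thr 38 50 (.thr 12 51 (.thr 15 13 (.dbl 48 36 37)))))))) (.rp 9 (.thr 31 16 (.thr 30 28 (.thr 14 46 (.thr 50 38 (.dbl 58 10 54))))) (.rp 8 (.thr 31 16 (.thr 30 28 (.thr 14 46 (.thr 50 38 (.dbl 58 10 54))))) (.rp 3 (.thr 41 9 (.thr 31 16 (.thr 30 28 (.thr 14 46 (.thr 50 38 (.dbl 58 10 54)))))) .nd)))))))))) (.rp 41 (.str 3 (.nv (.thr 58 10 (.dbl 59 8 56)) (.rp 62 (.str 61 (.nv (.thr 13 45 (.dbl 49 37 53)) (.nv (.thr 59 8 (.dbl 58 10 56)) .nd))) (.rp 61 (.str 62 (.nv (.thr 58 10 (.dbl 59 8 56)) (.rp 59 (.thr 58 10 (.thr 50 54 (.thr 31 16 (.thr 30 28 (.dbl 14 38 46))))) (.rp 58 (.thr 31 16 (.thr 27 24 (.thr 19 23 (.thr 51 35 (.thr 38 12 (.thr 46 34 (.dbl 14 30 50))))))) (.rp 56 (.thr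 58 10 (.thr 50 54 (.thr 31 16 (.thr 30 28 (.dbl 14 38 46))))) (.rp 10 (.thr 31 16 (.thr 27 24 (.thr 19 23 (.thr 51 35 (.thr 38 12 (.thr 46 34 (.dbl 14 30 50))))))) (.rp 9 (.thr 31 16 (.thr 30 28 (.thr 14 46 (.thr 50 38 (.dbl 58 10 54))))) (.rp 8 (.thr 31 16 (.thr 30 28 (.thr 14 46 (.thr 50 38 (.dbl 58 10 54))))) .nd)))))))) (.rp 59 (.thr 10 58 (.thr 31 16 (.thr 27 24 (.thr 19 23 (.thr 51 35 (.thr 15 39 (.thr 5 0 (.dbl 37 48 53)))))))) (.rp 58 (.thr 31 16 (.thr 27 24 (.thr 19 23 (.thr 51 35 (.thr 15 39 (.thr 37 48 (.thr 53 5 (.dbl 49 13 61)))))))) (.rp 56 (.thr 10 58 (.thr 31 16 (.thr 27 24 (.thr 19 23 (.thr 51 35 (.thr 15 39 (.thr 5 0 (.dbl 37 48 53)))))))) (.rp 10 (.thr 31 16 (.thr 27 24 (.thr 19 23 (.thr 51 35 (.thr 15 39 (.thr 37 48 (.thr 53 5 (.dbl 49 13 61)))))))) (.rp 9 (.thr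 10 58 (.thr 31 16 (.thr 27 24 (.thr 19 23 (.thr 51 35 (.thr 15 39 (.thr 5 0 (.dbl 37 48 53)))))))) (.rp 8 (.thr 10 58 (.thr 31 16 (.thr 27 24 (.thr 19 23 (.thr 51 35 (.thr 15 39 (.thr 5 0 (.dbl 37 48 53)))))))) .nd)))))))))) (.rp 10 (.thr 41 9 (.thr 8 59 (.thr 61 1 (.thr 13 45 (.dbl 49 37 53))))) (.rp 9 (.str 61 (.nv (.thr 8 59 (.thr 49 53 (.dbl 13 37 45))) (.nv (.thr 13 45 (.dbl 49 37 53)) (.rp 53 (.thr 13 45 (.thr 58 10 (.thr 8 59 (.thr 27 24 (.thr 37 49 (.thr 15 48 (.thr 12 14 (.dbl 51 38 39)))))))) (.rp 49 (.thr 45 13 (.thr 27 24 (.thr 1 41 (.str 3 (.nv (.thr 0 2 (.thr 8 59 (.thr 10 58 (.thr 12 4 (.thr 15 5 (.dbl 51 38 39)))))) (.nv (.thr 8 59 (.thr 0 2 (.thr 12 4 (.thr 31 16 (.thr 19 23 (.dbl 51 35 38)))))) (.nv (.thr 10 58 (.thr 0 2 (.thr 15 5 (.thr 16 31 (.dbl 48 32 37))))) (.rp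 2 (.thr 10 58 (.thr 31 16 (.thr 19 23 (.thr 51 35 (.thr 15 39 (.thr 5 0 (.dbl 37 48 53))))))) (.rp 0 (.thr 31 16 (.thr 19 23 (.thr 51 35 (.thr 38 12 (.thr 46 34 (.thr 14 50 (.dbl 30 28 62))))))) .nd))))))))) (.rp 45 (.thr 24 27 (.thr 31 16 (.thr 30 28 (.thr 49 53 (.thr 37 13 (.thr 48 15 (.thr 12 36 (.dbl 51 38 50)))))))) (.rp 41 (.str 3 (.nv (.thr 8 59 (.thr 13 45 (.dbl 49 37 53))) (.nv (.thr 49 53 (.dbl 13 37 45)) (.rp 53 (.thr 13 45 (.thr 37 49 (.thr 31 16 (.thr 27 24 (.thr 19 23 (.thr 51 35 (.dbl 15 39 48))))))) (.rp 49 (.thr 13 45 (.thr 31 16 (.thr 27 24 (.thr 19 23 (.thr 51 35 (.thr 15 39 (.dbl 12 14 38))))))) (.rp 45 (.thr 49 53 (.thr 37 13 (.thr 31 16 (.thr 27 24 (.thr 19 23 (.thr 51 35 (.dbl 15 39 48))))))) (.rp 37 (.thr 49 53 (.thr 31 16 (.thr 27 24 (.thr 19 23 (.thr 51 35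 (.thr 38 12 (.dbl 50 14 48))))))) (.rp 13 (.thr 49 53 (.thr 31 16 (.thr 27 24 (.thr 19 23 (.thr 51 35 (.thr 15 39 (.dbl 48 37 50))))))) (.rp 8 (.thr 10 58 (.thr 13 45 (.dbl 49 37 53))) .nd))))))))) (.rp 37 (.thr 45 13 (.thr 1 41 (.str 3 (.nv (.thr 0 2 (.thr 16 31 (.thr 48 32 (.thr 49 53 (.thr 51 50 (.thr 12 38 (.dbl 8 4 59))))))) (.nv (.thr 0 2 (.thr 8 59 (.thr 12 4 (.thr 49 53 (.thr 51 38 (.thr 48 50 (.dbl 24 27 36))))))) (.nv (.thr 0 2 (.thr 10 58 (.thr 15 5 (.thr 27 24 (.thr 31 16 (.thr 19 23 (.dbl 51 35 39))))))) (.nv (.thr 8 59 (.thr 0 2 (.thr 12 4 (.thr 16 31 (.thr 48 32 (.dbl 24 27 36)))))) (.rp 52 (.str 7 (.nv (.thr 0 2 (.thr 8 59 (.thr 12 4 (.thr 49 53 (.thr 51 38 (.thr 48 50 (.dbl 24 27 36))))))) (.nv (.thr 8 59 (.thr 0 2 (.thr 12 4 (.thr 16 31 (.thr 48 32 (.dbl 24 27 36))))))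 (.nv (.thr 0 2 (.thr 10 58 (.thr 5 15 (.thr 4 6 (.dbl 8 12 59))))) (.rp 59 (.thr 10 58 (.thr 0 2 (.thr 5 15 (.thr 4 6 (.thr 12 8 (.dbl 38 51 55)))))) (.rp 56 (.str 48 (.nv (.thr 24 27 (.thr 12 36 (.thr 49 53 (.dbl 51 38 50)))) (.nv (.thr 0 2 (.dbl 16 31 32)) (.rp 10 (.thr 8 59 (.thr 16 31 (.dbl 0 2 32))) (.rp 8 (.thr 10 58 (.thr 16 31 (.dbl 0 2 32))) .nd))))) (.rp 48 (.str 56 (.nv (.dbl 58 10 59) (.rp 59 (.thr 53 49 (.thr 10 58 (.thr 0 2 (.thr 5 15 (.thr 4 6 (.thr 12 8 (.dbl 38 51 55))))))) (.rp 58 (.thr 53 49 (.thr 24 27 (.dbl 8 40 59))) (.rp 10 (.thr 8 59 (.dbl 24 27 40)) (.rp 8 (.thr 10 58 (.thr 53 49 (.thr 31 16 (.thr 27 24 (.thr 19 23 (.thr 51 35 (.thr 15 39 (.dbl 0 2 5)))))))) .nd)))))) (.rp 12 (.thr 10 58 (.thr 31 16 (.thr 0 2 (.thr 15 5 (.thr 27 24 (.thr 19 23 (.dbl 51 35 39)))))))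 (.rp 8 (.thr 10 58 (.thr 31 16 (.thr 2 0 (.thr 14 6 (.thr 38 50 (.thr 30 28 (.dbl 46 34 62))))))) (.rp 4 (.thr 49 53 (.thr 31 16 (.thr 27 24 (.thr 19 23 (.thr 51 35 (.thr 38 12 (.dbl 50 14 48))))))) (.rp 2 (.thr 49 53 (.thr 31 16 (.thr 27 24 (.thr 19 23 (.thr 51 35 (.thr 38 12 (.dbl 50 14 48))))))) (.rp 0 (.thr 49 53 (.thr 31 16 (.thr 27 24 (.thr 19 23 (.thr 51 35 (.thr 38 12 (.dbl 50 14 48))))))) .nd)))))))))))) (.rp 51 (.thr 16 31 (.thr 0 2 (.thr 48 32 (.thr 24 27 (.thr 12 36 (.dbl 8 4 59)))))) (.rp 48 (.thr 31 16 (.thr 0 2 (.thr 27 24 (.thr 19 23 (.thr 51 35 (.thr 15 39 (.dbl 10 5 58))))))) (.rp 8 (.thr 10 58 (.thr 31 16 (.thr 2 0 (.thr 14 6 (.thr 38 50 (.thr 30 28 (.dbl 46 34 62))))))) (.rp 7 (.str 52 (.nv (.thr 10 58 (.thr 2 0 (.thr 14 6 (.thr 38 50 (.thr 53 49 (.dbl 55 4 54))))))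 (.nv (.thr 0 2 (.thr 16 31 (.thr 24 27 (.thr 20 28 (.thr 48 32 (.dbl 36 4 12)))))) (.nv (.thr 53 49 (.thr 0 2 (.thr 55 54 (.thr 8 59 (.dbl 4 12 38))))) (.rp 10 (.thr 8 59 (.thr 53 49 (.thr 0 2 (.thr 4 12 (.dbl 55 38 54))))) (.rp 4 (.thr 49 53 (.thr 0 2 (.thr 24 27 (.thr 16 31 (.thr 48 32 (.thr 12 36 (.dbl 51 38 50))))))) (.rp 2 (.thr 53 49 (.thr 24 27 (.thr 16 31 (.thr 20 28 (.thr 4 36 (.dbl 55 38 54)))))) (.rp 0 (.thr 53 49 (.thr 24 27 (.thr 16 31 (.thr 20 28 (.thr 4 36 (.dbl 55 38 54)))))) .nd)))))))) (.rp 2 (.thr 49 53 (.thr 31 16 (.thr 27 24 (.thr 19 23 (.thr 51 35 (.thr 38 12 (.dbl 50 14 48))))))) (.rp 0 (.thr 49 53 (.thr 31 16 (.thr 27 24 (.thr 19 23 (.thr 51 35 (.thr 38 12 (.dbl 50 14 48))))))) .nd)))))))))))))) (.rp 13 (.thr 10 58 (.thr 27 24 (.thr 53 49 (.thr 5 37 (.thr 15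 0 (.thr 51 39 (.thr 38 12 (.thr 4 55 (.thr 14 50 (.dbl 6 2 7)))))))))) (.rp 8 (.thr 10 58 (.thr 13 45 (.dbl 49 37 53))) (.rp 3 (.thr 41 1 (.thr 13 45 (.dbl 49 37 53))) .nd))))))))))) (.rp 8 (.thr 41 9 (.thr 10 58 (.thr 61 1 (.thr 13 45 (.dbl 49 37 53))))) .nd)))))))))) (.rp 10 (.thr 29 17 (.str 61 (.nv (.thr 41 1 (.thr 13 45 (.thr 49 37 (.dbl 57 9 53)))) (.nv (.thr 27 24 (.thr 59 8 (.thr 11 43 (.dbl 41 1 56)))) (.rp 41 (.str 3 (.nv (.thr 13 45 (.thr 27 24 (.thr 31 16 (.thr 19 23 (.thr 51 35 (.thr 15 39 (.dbl 12 14 38))))))) (.nv (.thr 13 45 (.thr 16 31 (.thr 37 49 (.thr 5 53 (.thr 1 9 (.thr 0 2 (.dbl 32 47 48))))))) (.nv (.thr 27 24 (.thr 59 8 (.thr 11 43 (.thr 13 45 (.thr 15 7 (.dbl 37 48 49)))))) (.rp 45 (.thr 31 16 (.thr 27 24 (.thr 19 23 (.thr 51 35 (.thr 15 39 (.thr 59 8 (.dbl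 11 7 43))))))) (.rp 37 (.thr 31 16 (.thr 27 24 (.thr 19 23 (.thr 51 35 (.thr 15 39 (.thr 59 8 (.dbl 11 7 43))))))) (.rp 33 (.thr 27 24 (.thr 59 8 (.thr 11 43 (.thr 15 7 (.thr 13 45 (.dbl 37 48 49)))))) (.rp 15 (.thr 31 16 (.thr 27 24 (.thr 19 23 (.thr 51 35 (.thr 38 12 (.thr 46 34 (.thr 14 50 (.dbl 30 28 62)))))))) (.rp 13 (.thr 31 16 (.thr 27 24 (.thr 19 23 (.thr 51 35 (.thr 15 39 (.thr 59 8 (.dbl 11 7 43))))))) .nd))))))))) (.rp 1 (.thr 13 45 (.thr 24 27 (.thr 8 59 (.thr 40 56 (.thr 49 37 (.thr 57 53 (.dbl 41 9 43))))))) .nd)))))) (.rp 8 (.thr 29 17 (.str 51 (.nv (.thr 10 58 (.thr 16 31 (.thr 27 24 (.thr 15 39 (.thr 0 5 (.dbl 48 32 37)))))) (.nv (.thr 31 16 (.thr 38 12 (.thr 14 50 (.thr 46 34 (.dbl 30 28 62))))) (.nv (.thr 24 27 (.thr 12 38 (.thr 48 36 (.thr 49 50 (.dbl 37 13 15)))))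 (.rp 62 (.str 61 (.nv (.thr 10 58 (.thr 27 24 (.thr 15 39 (.thr 5 0 (.dbl 37 48 53))))) (.nv (.thr 41 1 (.thr 57 9 (.thr 49 53 (.dbl 13 37 45)))) (.nv (.thr 27 24 (.thr 13 45 (.thr 15 39 (.dbl 12 14 38)))) (.rp 41 (.str 3 (.nv (.thr 13 45 (.thr 37 49 (.thr 15 48 (.dbl 12 14 38)))) (.nv (.thr 19 35 (.thr 31 16 (.dbl 27 23 24))) (.rp 38 (.thr 31 16 (.thr 27 24 (.dbl 19 23 35))) .nd)))) .nd))))) (.rp 61 (.str 62 (.nv (.thr 38 12 (.thr 46 34 (.dbl 14 30 50))) (.nv (.thr 10 58 (.thr 27 24 (.thr 15 39 (.thr 5 0 (.dbl 37 48 53))))) (.nv (.thr 58 10 (.thr 50 54 (.dbl 38 12 14))) (.rp 41 (.str 3 (.nv (.thr 58 10 (.thr 50 54 (.dbl 38 12 14))) (.nv (.thr 31 16 (.thr 19 35 (.dbl 27 23 24))) (.rp 38 (.thr 27 24 (.thr 31 16 (.dbl 19 23 35))) .nd)))) (.rp 12 (.thr 27 24 (.thr 58 10 (.thr 50 54 (.thr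 48 49 (.dbl 15 37 39))))) (.rp 3 (.str 41 (.nv (.thr 43 40 (.thr 38 12 (.thr 14 50 (.dbl 46 30 34)))) (.nv (.thr 10 58 (.thr 27 24 (.thr 15 39 (.thr 5 0 (.dbl 37 48 53))))) (.nv (.thr 58 10 (.thr 50 54 (.dbl 38 12 14))) (.rp 43 (.str 23 (.nv (.thr 38 12 (.thr 14 50 (.dbl 46 30 34))) (.nv (.thr 31 16 (.dbl 27 19 24)) .nd))) (.rp 12 (.thr 27 24 (.thr 58 10 (.thr 50 54 (.thr 48 49 (.dbl 15 37 39))))) .nd)))))) .nd))))))) (.rp 41 (.str 3 (.nv (.thr 10 58 (.thr 27 24 (.thr 15 39 (.thr 5 0 (.dbl 37 48 53))))) (.nv (.thr 19 35 (.thr 31 16 (.dbl 27 23 24))) (.rp 62 (.str 61 (.nv (.thr 13 45 (.thr 37 49 (.thr 15 48 (.dbl 12 14 38)))) (.nv (.thr 19 35 (.thr 31 16 (.dbl 27 23 24))) (.rp 38 (.thr 31 16 (.thr 27 24 (.dbl 19 23 35))) .nd)))) (.rp 61 (.str 62 (.nv (.thr 58 10 (.thr 50 54 (.dbl 38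 12 14))) (.nv (.thr 31 16 (.thr 19 35 (.dbl 27 23 24))) (.rp 38 (.thr 27 24 (.thr 31 16 (.dbl 19 23 35))) .nd)))) (.rp 27 (.thr 31 16 (.thr 38 12 (.thr 46 34 (.thr 14 50 (.dbl 30 28 62))))) (.rp 24 (.thr 31 16 (.thr 38 12 (.thr 46 34 (.thr 14 50 (.dbl 30 28 62))))) .nd))))))) (.rp 3 (.str 41 (.nv (.thr 31 16 (.thr 38 12 (.thr 14 50 (.thr 46 34 (.dbl 30 28 62))))) (.nv (.thr 12 38 (.thr 24 27 (.thr 48 36 (.thr 49 50 (.dbl 37 13 15))))) (.nv (.thr 61 1 (.thr 13 45 (.thr 49 37 (.dbl 57 9 53)))) (.rp 61 (.str 62 (.nv (.thr 43 40 (.thr 38 12 (.thr 14 50 (.dbl 46 30 34)))) (.nv (.thr 10 58 (.thr 27 24 (.thr 15 39 (.thr 5 0 (.dbl 37 48 53))))) (.nv (.thr 58 10 (.thr 50 54 (.dbl 38 12 14))) (.rp 43 (.str 23 (.nv (.thr 38 12 (.thr 14 50 (.dbl 46 30 34))) (.nv (.thr 31 16 (.dbl 27 19 24)) .nd)))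 (.rp 12 (.thr 27 24 (.thr 58 10 (.thr 50 54 (.thr 48 49 (.dbl 15 37 39))))) .nd)))))) (.rp 43 (.str 23 (.nv (.thr 27 24 (.thr 38 12 (.thr 39 15 (.dbl 55 4 7)))) (.nv (.thr 31 16 (.dbl 27 19 24)) (.rp 62 (.thr 61 1 (.thr 31 16 (.dbl 27 19 24))) (.rp 61 (.str 62 (.nv (.thr 38 12 (.thr 14 50 (.dbl 46 30 34))) (.nv (.thr 31 16 (.dbl 27 19 24)) .nd))) (.rp 31 (.thr 57 9 (.thr 61 1 (.thr 49 53 (.dbl 13 37 45)))) (.rp 27 (.thr 57 9 (.thr 61 1 (.thr 49 53 (.dbl 13 37 45)))) (.rp 24 (.thr 57 9 (.thr 61 1 (.thr 49 53 (.dbl 13 37 45)))) .nd)))))))) (.rp 23 (.thr 43 40 (.thr 61 1 (.thr 57 9 (.thr 49 53 (.dbl 13 37 45))))) .nd))))))) .nd))))))))) (.rp 3 (.str 41 (.nv (.thr 8 59 (.thr 9 57 (.dbl 10 11 58))) (.nv (.thr 27 24 (.thr 59 8 (.dbl 11 43 56))) (.rp 62 (.thr 61 1 (.thr 24 27 (.thr 56 11 (.dbl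 40 8 43)))) (.rp 61 (.str 62 (.nv (.thr 8 59 (.thr 9 57 (.dbl 10 11 58))) (.nv (.thr 27 24 (.thr 59 8 (.dbl 11 43 56))) (.rp 59 (.thr 58 10 (.thr 31 16 (.thr 29 17 (.thr 30 28 (.thr 14 46 (.dbl 50 38 54)))))) (.rp 56 (.thr 58 10 (.thr 31 16 (.thr 29 17 (.thr 30 28 (.thr 14 46 (.dbl 50 38 54)))))) (.rp 43 (.str 23 (.nv (.thr 8 59 (.thr 11 56 (.dbl 9 10 57))) (.nv (.thr 27 24 (.dbl 31 16 19)) .nd))) (.rp 23 (.thr 43 40 (.thr 11 56 (.dbl 27 24 59))) (.rp 11 (.thr 58 10 (.thr 31 16 (.thr 29 17 (.thr 30 28 (.thr 14 46 (.dbl 50 38 54)))))) (.rp 8 (.thr 58 10 (.thr 31 16 (.thr 29 17 (.thr 30 28 (.thr 14 46 (.dbl 50 38 54)))))) .nd))))))))) (.rp 59 (.thr 57 9 (.thr 61 1 (.thr 29 17 (.thr 13 45 (.dbl 49 37 53))))) (.rp 56 (.thr 57 9 (.thr 61 1 (.thr 29 17 (.thr 13 45 (.dbl 49 37 53))))) (.rp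 43 (.str 23 (.nv (.thr 8 59 (.thr 11 56 (.dbl 9 10 57))) (.nv (.thr 27 24 (.dbl 31 16 19)) (.rp 62 (.thr 61 1 (.thr 27 24 (.dbl 31 16 19))) (.rp 61 (.str 62 (.nv (.thr 8 59 (.thr 11 56 (.dbl 9 10 57))) (.nv (.thr 27 24 (.dbl 31 16 19)) .nd))) .nd))))) (.rp 23 (.thr 43 40 (.thr 27 24 (.dbl 11 56 59))) (.rp 11 (.thr 57 9 (.thr 61 1 (.thr 29 17 (.thr 13 45 (.dbl 49 37 53))))) (.rp 8 (.thr 57 9 (.thr 61 1 (.thr 29 17 (.thr 13 45 (.dbl 49 37 53))))) .nd))))))))))) .nd)))))))))))))))))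

theorem w485 : WinAt (4398082162688, 10376293541465817088) :=
  chF (K := []) kn c485 4398082162688 10376293541465817088 63
    [1152923703634296840, 17293822569102704640] (by decide +kernel) (by decide +kernel)

/-- A certificate. -/
noncomputable def c486 : Ct := (.str 25 (.nv (.thr 29 17 (.thr 59 8 (.thr 63 0 (.thr 12 46 (.dbl 51 38 55))))) (.nv (.thr 8 59 (.thr 0 63 (.thr 12 4 (.thr 17 29 (.dbl 51 34 38))))) (.rp 63 .ext (.rp 59 (.thr 29 17 (.str 41 (.nv (.thr 9 57 (.thr 63 0 (.thr 12 46 (.thr 3 6 (.dbl 43 23 40))))) (.nv (.thr 57 9 (.thr 61 1 (.thr 49 53 (.dbl 13 37 45)))) (.rp 57 (.thr 63 0 (.thr 46 12 (.thr 61 1 (.thr 45 13 (.thr 44 47 (.dbl 38 34 35)))))) (.rp 9 (.thr 63 0 (.thr 12 46 (.thr 61 1 (.thr 13 45 (.thr 15 14 (.thr 47 31 (.dbl 37 32 49))))))) .nd)))))) (.rp 55 (.thr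 8 59 (.thr 17 29 (.thr 0 63 (.thr 51 34 (.dbl 12 4 38))))) (.rp 51 (.thr 59 8 (.str 57 (.nv (.thr 41 9 (.thr 29 17 (.thr 61 1 (.thr 49 53 (.dbl 13 37 45))))) (.nv (.thr 56 58 (.thr 41 9 (.thr 11 26 (.dbl 43 27 40)))) (.rp 41 (.str 3 (.nv (.thr 58 56 (.thr 63 0 (.thr 43 23 (.thr 27 11 (.dbl 26 10 24))))) (.nv (.thr 17 29 (.thr 0 63 (.thr 1 2 (.thr 49 33 (.thr 37 13 (.dbl 53 5 61)))))) (.rp 63 (.thr 58 56 (.thr 26 10 (.thr 16 31 (.thr 17 29 (.thr 18 19 (.thr 48 33 (.thr 32 0 (.dbl 37 15 47)))))))) (.rp 17 (.str 34 (.nv (.thr 0 63 (.thr 2 1 (.thr 38 46 (.thr 50 18 (.thr 26 14 (.dbl 58 10 56)))))) (.nv (.thr 63 0 (.thr 43 23 (.thr 27 11 (.thr 26 24 (.dbl 58 10 56))))) (.rp 63 (.thr 58 56 (.thr 26 10 (.thr 24 27 (.thr 16 31 (.thr 20 28 (.thr 38 46 (.thr 4 55 (.thr 50 14 (.thr 2 18 (.thr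 0 1 (.thr 48 32 (.dbl 36 12 52)))))))))))) (.rp 58 (.thr 63 0 (.thr 43 23 (.thr 27 11 (.thr 26 24 (.thr 31 16 (.thr 47 15 (.thr 35 39 (.dbl 32 33 37)))))))) (.rp 56 (.thr 63 0 (.thr 43 23 (.thr 11 27 (.thr 15 7 (.thr 31 47 (.thr 26 16 (.thr 58 10 (.dbl 48 37 53)))))))) (.rp 26 (.thr 63 0 (.thr 43 23 (.thr 58 56 (.thr 11 27 (.thr 48 53 (.thr 18 33 (.thr 50 2 (.thr 46 38 (.thr 15 7 (.thr 12 29 (.thr 14 13 (.dbl 62 30 54)))))))))))) (.rp 12 (.thr 58 56 (.thr 26 10 (.thr 0 63 (.thr 2 1 (.thr 50 18 (.dbl 38 14 46)))))) (.rp 10 (.thr 58 56 (.thr 63 0 (.thr 48 53 (.thr 43 23 (.thr 11 27 (.thr 15 7 (.thr 37 26 (.dbl 47 31 32)))))))) (.rp 0 (.thr 56 58 (.thr 38 46 (.thr 4 55 (.str 37 (.nv (.thr 49 13 (.dbl 53 5 61)) (.rp 61 (.thr 5 53 (.thr 6 7 (.thr 9 12 (.dbl 13 1 49)))) (.rp 53 (.thr 39 36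 (.thr 47 32 (.thr 43 35 (.thr 11 27 (.thr 63 23 (.dbl 15 7 31)))))) (.rp 49 (.thr 39 36 (.thr 5 53 (.thr 7 6 (.thr 47 32 (.thr 43 35 (.dbl 11 15 27)))))) (.rp 40 (.str 20 (.nv (.thr 49 13 (.dbl 53 5 61)) (.nv (.dbl 36 39 52) .nd))) (.rp 20 (.str 40 (.nv (.thr 36 39 (.dbl 32 44 47)) (.nv (.thr 49 13 (.dbl 53 5 61)) .nd))) (.rp 13 (.thr 39 36 (.thr 5 53 (.thr 7 6 (.thr 47 32 (.thr 43 35 (.dbl 11 15 27)))))) (.rp 5 (.thr 39 36 (.thr 47 32 (.thr 43 35 (.thr 11 27 (.thr 63 23 (.dbl 15 7 31)))))) .nd)))))))))))) .nd)))))))))) (.rp 12 (.thr 58 56 (.thr 26 10 (.thr 0 63 (.thr 16 31 (.thr 48 32 (.thr 18 33 (.dbl 17 19 29))))))) (.rp 0 (.thr 58 56 (.thr 26 10 (.thr 16 31 (.thr 17 29 (.thr 18 19 (.thr 48 33 (.thr 53 63 (.dbl 37 5 15)))))))) .nd))))))) (.rp 11 (.thr 58 56 (.thr 41 9 (.thr 10 26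 (.thr 63 0 (.thr 61 1 (.dbl 53 48 49)))))) (.rp 9 (.thr 56 58 (.str 11 (.nv (.thr 41 26 (.dbl 43 27 40)) (.nv (.thr 27 43 (.dbl 26 24 41)) (.rp 43 (.thr 41 26 (.thr 61 1 (.thr 49 53 (.thr 29 17 (.dbl 13 37 45))))) (.rp 41 (.str 3 (.nv (.thr 63 0 (.dbl 43 23 27)) (.nv (.thr 43 27 (.dbl 63 0 23)) (.rp 63 (.thr 27 43 (.thr 26 24 (.thr 15 7 (.thr 37 48 (.thr 53 5 (.dbl 49 13 61)))))) (.rp 43 (.thr 0 63 (.thr 1 2 (.thr 17 29 (.thr 49 33 (.thr 37 13 (.dbl 53 5 61)))))) (.rp 27 (.thr 0 63 (.thr 1 2 (.thr 17 29 (.thr 49 33 (.thr 37 13 (.dbl 53 5 61)))))) (.rp 23 (.thr 27 43 (.thr 26 24 (.thr 63 0 (.thr 31 16 (.dbl 15 7 47))))) (.rp 0 (.thr 27 43 (.thr 26 24 (.thr 31 16 (.thr 15 7 (.thr 47 63 (.dbl 37 32 48)))))) .nd)))))))) (.rp 27 (.thr 41 26 (.thr 61 1 (.thr 49 53 (.thr 29 17 (.dbl 13 37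 45))))) (.rp 26 (.thr 43 27 (.thr 41 40 (.thr 61 1 (.thr 49 53 (.thr 29 17 (.dbl 13 37 45)))))) .nd)))))))) .nd))))))) (.rp 41 (.str 3 (.nv (.thr 0 63 (.thr 1 2 (.thr 8 59 (.thr 12 4 (.thr 9 6 (.thr 5 13 (.dbl 10 11 15))))))) (.nv (.thr 0 63 (.thr 1 2 (.thr 17 29 (.thr 33 49 (.thr 18 48 (.thr 19 16 (.dbl 51 34 35))))))) (.nv (.thr 59 8 (.thr 63 0 (.thr 51 55 (.thr 29 17 (.dbl 12 38 46))))) (.rp 63 (.str 26 (.nv (.thr 8 59 (.thr 10 58 (.thr 11 9 (.thr 15 7 (.thr 27 24 (.thr 31 16 (.thr 19 23 (.dbl 51 35 39)))))))) (.nv (.thr 8 59 (.thr 10 58 (.thr 9 11 (.thr 12 6 (.thr 0 4 (.thr 1 2 (.dbl 5 13 15))))))) (.nv (.thr 17 29 (.thr 16 31 (.thr 19 18 (.thr 51 35 (.thr 34 0 (.dbl 38 12 46)))))) (.rp 62 (.str 61 (.nv (.thr 8 59 (.thr 10 58 (.thr 9 11 (.thr 12 6 (.thr 27 24 (.thr 31 16 (.thr 19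 23 (.dbl 51 35 38)))))))) (.nv (.thr 16 31 (.thr 17 29 (.thr 19 18 (.thr 51 35 (.thr 34 0 (.dbl 38 12 46)))))) (.nv (.thr 59 8 (.thr 27 24 (.thr 11 43 (.thr 15 7 (.thr 29 17 (.thr 13 45 (.dbl 37 48 49))))))) .nd)))) (.rp 61 (.str 62 (.nv (.thr 17 29 (.thr 16 31 (.thr 18 19 (.thr 48 33 (.thr 32 0 (.dbl 37 15 47)))))) (.nv (.thr 8 59 (.thr 10 58 (.thr 11 9 (.thr 15 7 (.thr 5 0 (.dbl 37 48 53)))))) (.nv (.thr 31 16 (.thr 27 24 (.thr 19 23 (.thr 51 35 (.thr 58 10 (.thr 50 54 (.dbl 38 12 14))))))) (.rp 20 (.thr 10 58 (.thr 17 29 (.thr 8 59 (.thr 9 11 (.thr 12 6 (.thr 0 4 (.dbl 51 34 38))))))) .nd))))) (.rp 51 (.thr 17 29 (.thr 16 31 (.thr 18 19 (.thr 48 33 (.thr 32 0 (.dbl 37 15 47)))))) (.rp 15 (.thr 8 59 (.thr 10 58 (.thr 9 11 (.thr 12 6 (.thr 4 0 (.dbl 38 51 55)))))) .nd)))))))) (.rp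 51 (.thr 59 8 (.thr 63 0 (.thr 43 23 (.thr 27 11 (.thr 26 24 (.thr 31 16 (.thr 15 47 (.thr 48 37 (.dbl 58 10 53))))))))) (.rp 12 (.thr 8 59 (.thr 29 17 (.str 31 (.nv (.thr 63 0 (.thr 15 47 (.thr 11 7 (.thr 10 9 (.dbl 26 16 58))))) (.nv (.thr 26 16 (.thr 10 58 (.thr 11 9 (.thr 15 7 (.dbl 0 5 63))))) (.nv (.thr 63 0 (.thr 23 43 (.thr 27 19 (.dbl 26 16 24)))) (.rp 63 (.thr 26 16 (.thr 10 58 (.thr 11 9 (.thr 15 7 (.thr 5 0 (.dbl 37 48 53)))))) (.rp 44 (.thr 28 30 (.thr 26 16 (.thr 27 24 (.thr 63 0 (.dbl 23 19 43))))) (.rp 28 (.str 44 (.nv (.thr 26 16 (.thr 24 27 (.thr 10 58 (.thr 11 9 (.thr 15 7 (.dbl 0 5 63)))))) (.nv (.thr 63 0 (.thr 47 15 (.thr 45 46 (.thr 13 61 (.dbl 37 32 49))))) (.nv (.thr 63 0 (.thr 23 43 (.thr 27 19 (.dbl 26 16 24)))) (.rp 63 (.thr 26 16 (.thr 10 58 (.thr 11 9 (.thr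 15 7 (.thr 5 0 (.dbl 37 48 53)))))) (.rp 0 (.thr 26 16 (.thr 10 58 (.thr 11 9 (.thr 15 7 (.thr 47 63 (.dbl 37 32 48)))))) .nd)))))) (.rp 26 (.thr 63 0 (.thr 47 15 (.thr 37 32 (.thr 43 23 (.thr 39 35 (.thr 38 36 (.thr 13 49 (.thr 45 61 (.dbl 46 34 44))))))))) (.rp 16 (.thr 63 0 (.thr 15 47 (.thr 11 7 (.thr 10 9 (.thr 23 43 (.thr 26 58 (.dbl 27 19 24))))))) (.rp 0 (.thr 26 16 (.thr 10 58 (.thr 11 9 (.thr 15 7 (.thr 47 63 (.dbl 37 32 48)))))) .nd)))))))))))) (.rp 0 (.str 12 (.nv (.thr 29 17 (.thr 51 38 (.thr 59 8 (.dbl 63 46 55)))) (.nv (.thr 29 17 (.thr 46 63 (.dbl 38 34 51))) (.rp 63 (.thr 9 6 (.thr 17 29 (.thr 8 59 (.thr 10 11 (.thr 26 58 (.thr 16 31 (.thr 19 18 (.dbl 51 35 38)))))))) (.rp 51 (.thr 9 6 (.thr 17 29 (.thr 8 59 (.thr 10 11 (.thr 26 58 (.thr 16 31 (.thr 18 19 (.thr 48 33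 (.dbl 24 27 36))))))))) (.rp 46 (.thr 59 8 (.thr 51 38 (.thr 35 19 (.thr 63 55 (.thr 43 23 (.thr 39 47 (.dbl 27 11 15))))))) (.rp 40 (.str 20 (.nv (.thr 29 17 (.thr 51 38 (.thr 59 8 (.dbl 63 46 55)))) (.nv (.thr 29 17 (.thr 46 63 (.dbl 38 34 51))) (.rp 63 (.thr 9 6 (.thr 8 59 (.thr 10 11 (.thr 26 58 (.thr 16 31 (.dbl 24 27 28)))))) (.rp 51 (.thr 9 6 (.thr 8 59 (.thr 10 11 (.thr 26 58 (.thr 16 31 (.dbl 24 27 28)))))) (.rp 46 (.thr 9 6 (.thr 8 59 (.thr 10 11 (.thr 26 58 (.thr 16 31 (.dbl 24 27 28)))))) (.rp 38 (.thr 29 17 (.thr 63 46 (.thr 43 23 (.thr 59 8 (.thr 27 11 (.thr 51 55 (.thr 39 15 (.dbl 35 19 47)))))))) (.rp 29 (.thr 9 6 (.thr 8 59 (.thr 10 11 (.thr 26 58 (.thr 16 31 (.dbl 24 27 28)))))) (.rp 17 (.thr 9 6 (.thr 8 59 (.thr 10 11 (.thr 26 58 (.thr 16 31 (.dbl 24 27 28)))))) .nd)))))))))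 (.rp 38 (.thr 29 17 (.thr 63 46 (.thr 43 23 (.thr 59 8 (.thr 27 11 (.thr 51 55 (.thr 39 15 (.dbl 35 19 47)))))))) (.rp 29 (.thr 59 8 (.thr 51 38 (.thr 35 19 (.thr 63 55 (.thr 43 23 (.thr 39 47 (.dbl 27 11 15))))))) (.rp 20 (.str 40 (.nv (.thr 8 59 (.thr 9 6 (.thr 10 11 (.thr 24 56 (.dbl 26 27 58))))) (.nv (.thr 29 17 (.thr 46 63 (.dbl 38 34 51))) (.rp 38 (.thr 29 17 (.thr 63 46 (.thr 8 59 (.thr 24 56 (.thr 26 27 (.thr 58 10 (.dbl 48 36 53))))))) .nd)))) (.rp 17 (.thr 59 8 (.thr 51 38 (.thr 35 19 (.thr 63 55 (.thr 43 23 (.thr 39 47 (.dbl 27 11 15))))))) .nd))))))))))) .nd)))))))) (.rp 38 (.thr 17 29 (.thr 59 8 (.str 41 (.nv (.thr 1 61 (.thr 49 33 (.thr 9 57 (.dbl 13 5 37)))) (.nv (.thr 43 40 (.thr 57 9 (.thr 11 27 (.dbl 56 26 58)))) (.rp 57 (.thr 43 40 (.thr 27 11 (.thr 0 63 (.thr 51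 34 (.thr 15 39 (.thr 10 5 (.dbl 26 24 58))))))) (.rp 54 (.str 6 (.nv (.thr 1 61 (.thr 49 33 (.thr 13 37 (.dbl 9 5 57)))) (.nv (.thr 57 9 (.thr 43 40 (.thr 11 27 (.dbl 56 26 58)))) (.rp 57 (.str 51 (.nv (.dbl 63 0 55) (.rp 63 (.thr 0 34 (.thr 43 40 (.thr 27 11 (.thr 15 39 (.thr 10 5 (.dbl 26 24 58)))))) (.rp 55 (.dbl 0 34 63) (.rp 0 (.thr 63 55 (.thr 1 61 (.thr 49 33 (.thr 13 37 (.thr 9 5 (.thr 12 3 (.thr 15 14 (.thr 39 27 (.thr 47 31 (.dbl 43 35 40)))))))))) .nd))))) (.rp 9 (.thr 61 1 (.thr 0 63 (.thr 43 40 (.thr 11 27 (.thr 56 26 (.thr 57 58 (.thr 53 49 (.thr 5 37 (.thr 15 10 (.dbl 7 3 4)))))))))) .nd))))) (.rp 9 (.thr 63 0 (.thr 51 55 (.thr 1 61 (.thr 49 33 (.thr 48 50 (.thr 53 58 (.dbl 37 5 13))))))) (.rp 6 (.str 54 (.nv (.thr 1 61 (.thr 49 33 (.thr 63 0 (.thr 55 51 (.thr 53 52 (.dbl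 37 5 13)))))) (.nv (.thr 43 40 (.thr 57 9 (.thr 11 27 (.dbl 56 26 58)))) (.nv (.thr 1 61 (.thr 49 33 (.thr 9 57 (.dbl 13 5 37)))) .nd)))) .nd))))))))) (.rp 34 (.thr 59 8 (.thr 63 0 (.thr 29 17 (.thr 51 55 (.dbl 12 38 46))))) (.rp 29 (.thr 8 59 (.str 41 (.nv (.thr 40 43 (.thr 56 24 (.thr 11 26 (.dbl 9 10 57)))) (.nv (.thr 0 63 (.thr 9 57 (.thr 12 4 (.thr 3 6 (.dbl 1 2 61))))) (.nv (.thr 40 43 (.thr 56 24 (.thr 9 57 (.dbl 11 10 26)))) (.rp 57 (.thr 0 63 (.thr 12 4 (.thr 40 43 (.thr 56 24 (.thr 11 26 (.thr 9 10 (.thr 3 6 (.dbl 1 2 61)))))))) (.rp 56 (.thr 57 9 (.thr 61 1 (.thr 49 53 (.thr 0 63 (.thr 12 4 (.thr 51 38 (.thr 48 50 (.thr 32 16 (.dbl 37 13 47))))))))) (.rp 9 (.thr 0 63 (.thr 12 4 (.thr 40 43 (.thr 24 56 (.thr 48 36 (.thr 16 32 (.dbl 26 27 31))))))) .nd)))))))) (.rp 17 (.str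 41 (.nv (.thr 8 59 (.thr 40 43 (.thr 9 57 (.thr 56 24 (.dbl 11 10 26))))) (.nv (.thr 0 63 (.thr 8 59 (.thr 9 57 (.thr 12 4 (.thr 3 6 (.dbl 1 2 61)))))) (.nv (.thr 57 9 (.thr 59 8 (.thr 56 58 (.thr 43 40 (.dbl 11 26 27))))) (.rp 59 (.thr 57 9 (.thr 61 1 (.thr 49 53 (.thr 13 37 (.thr 29 45 (.thr 63 0 (.thr 12 46 (.thr 15 14 (.thr 47 31 (.thr 51 38 (.thr 39 27 (.dbl 43 35 40)))))))))))) (.rp 57 (.thr 0 63 (.thr 8 59 (.thr 12 4 (.thr 40 43 (.thr 56 24 (.thr 11 26 (.thr 9 10 (.thr 3 6 (.dbl 1 2 61))))))))) (.rp 56 (.thr 57 9 (.thr 61 1 (.thr 49 53 (.thr 13 37 (.thr 29 45 (.thr 63 0 (.thr 12 46 (.thr 59 8 (.dbl 51 38 55))))))))) (.rp 9 (.thr 0 63 (.thr 8 59 (.thr 12 4 (.thr 40 43 (.thr 24 56 (.thr 48 36 (.thr 16 32 (.dbl 26 27 31)))))))) (.rp 8 (.thr 57 9 (.thr 61 1 (.thr 49 53 (.thr 13 37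 (.thr 29 45 (.thr 63 0 (.thr 12 46 (.thr 15 14 (.thr 47 31 (.thr 51 38 (.thr 39 27 (.dbl 43 35 40)))))))))))) .nd))))))))) (.rp 12 (.thr 29 17 (.thr 8 59 (.str 41 (.nv (.thr 61 1 (.thr 57 9 (.thr 49 53 (.dbl 13 37 45)))) (.nv (.thr 9 57 (.thr 11 10 (.thr 40 43 (.dbl 56 24 26)))) (.rp 57 (.thr 40 43 (.thr 56 24 (.thr 11 26 (.thr 10 9 (.thr 0 63 (.thr 15 5 (.thr 3 7 (.dbl 1 2 61)))))))) (.rp 44 (.str 28 (.nv (.thr 31 30 (.thr 26 16 (.thr 24 27 (.dbl 40 43 56)))) (.nv (.thr 57 9 (.thr 61 1 (.thr 13 45 (.dbl 49 37 53)))) (.nv (.thr 9 57 (.thr 11 10 (.thr 40 43 (.dbl 56 24 26)))) .nd)))) (.rp 28 (.str 44 (.nv (.thr 38 35 (.thr 46 34 (.thr 61 1 (.dbl 45 13 47)))) (.nv (.thr 9 57 (.thr 11 10 (.thr 40 43 (.dbl 56 24 26)))) (.rp 51 (.thr 57 9 (.thr 61 1 (.thr 13 45 (.dbl 49 37 53)))) .nd))))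 (.rp 9 (.thr 40 43 (.thr 63 0 (.thr 61 1 (.thr 13 45 (.thr 49 37 (.thr 53 57 (.thr 58 48 (.thr 26 10 (.dbl 24 27 56))))))))) .nd))))))))) (.rp 8 (.str 41 (.nv (.thr 9 57 (.thr 29 17 (.thr 63 0 (.thr 12 46 (.thr 3 6 (.dbl 43 23 40)))))) (.nv (.thr 29 17 (.thr 57 9 (.thr 61 1 (.thr 49 53 (.dbl 13 37 45))))) (.rp 57 (.thr 63 0 (.thr 61 1 (.thr 29 17 (.thr 13 45 (.thr 12 46 (.thr 15 14 (.thr 47 31 (.dbl 37 32 49)))))))) (.rp 29 (.thr 57 9 (.thr 63 0 (.thr 61 1 (.thr 53 49 (.thr 58 48 (.thr 56 59 (.dbl 26 10 11))))))) (.rp 17 (.thr 57 9 (.thr 63 0 (.thr 61 1 (.thr 49 53 (.thr 13 37 (.thr 29 45 (.thr 12 46 (.thr 15 14 (.thr 47 31 (.thr 51 38 (.thr 39 27 (.dbl 43 35 40)))))))))))) (.rp 9 (.thr 63 0 (.thr 61 1 (.thr 29 17 (.thr 13 45 (.thr 12 46 (.thr 15 14 (.thr 47 31 (.dbl 37 32 49))))))))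 .nd))))))) (.rp 3 (.str 41 (.nv (.thr 0 63 (.thr 8 59 (.thr 12 4 (.thr 17 29 (.dbl 51 34 38))))) (.nv (.thr 29 17 (.thr 57 9 (.thr 61 1 (.thr 13 45 (.dbl 49 37 53))))) (.nv (.thr 9 57 (.thr 40 43 (.thr 8 59 (.thr 56 24 (.dbl 11 10 26))))) .nd)))) (.rp 0 (.str 41 (.nv (.thr 1 61 (.thr 17 29 (.thr 49 33 (.thr 13 37 (.dbl 9 5 57))))) (.nv (.thr 40 43 (.thr 8 59 (.thr 56 24 (.thr 9 57 (.dbl 11 10 26))))) (.rp 57 (.thr 17 29 (.thr 1 61 (.thr 49 33 (.thr 13 37 (.thr 9 5 (.thr 8 59 (.thr 40 43 (.thr 56 24 (.dbl 11 10 26))))))))) (.rp 40 (.str 20 (.nv (.thr 57 9 (.thr 61 1 (.thr 49 53 (.thr 13 37 (.dbl 29 17 45))))) (.nv (.thr 1 61 (.thr 17 29 (.thr 9 57 (.thr 49 33 (.dbl 13 5 37))))) (.rp 61 (.str 56 (.nv (.thr 26 11 (.thr 16 31 (.dbl 24 27 28))) (.nv (.thr 57 9 (.dbl 59 8 58)) (.rp 63 (.str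 62 (.nv (.thr 26 11 (.thr 16 31 (.dbl 24 27 28))) (.nv (.thr 57 9 (.dbl 59 8 58)) .nd))) (.rp 62 (.str 63 (.nv (.thr 26 11 (.thr 16 31 (.dbl 24 27 28))) (.nv (.thr 57 9 (.dbl 59 8 58)) .nd))) .nd))))) (.rp 57 (.str 11 (.nv (.thr 26 56 (.thr 24 27 (.dbl 16 28 31))) (.nv (.thr 8 59 (.thr 10 9 (.dbl 26 56 58))) (.rp 59 (.thr 26 56 (.thr 58 10 (.thr 24 27 (.dbl 16 28 31)))) (.rp 58 (.thr 59 8 (.thr 27 43 (.dbl 26 24 56))) (.rp 56 (.thr 1 61 (.thr 17 29 (.thr 49 33 (.thr 13 37 (.thr 9 5 (.dbl 8 10 59)))))) (.rp 54 (.str 51 (.nv (.thr 59 8 (.thr 55 63 (.dbl 38 4 12))) (.nv (.thr 8 59 (.thr 10 9 (.dbl 26 56 58))) (.rp 59 (.thr 26 56 (.thr 58 10 (.thr 24 27 (.dbl 16 28 31)))) (.rp 56 (.thr 1 61 (.thr 17 29 (.thr 49 33 (.thr 13 37 (.thr 9 5 (.dbl 8 10 59)))))) (.rp 38 (.str 6 (.nv (.thr 26 56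 (.thr 24 27 (.dbl 16 28 31))) (.nv (.thr 8 59 (.thr 10 9 (.dbl 26 56 58))) (.rp 59 (.thr 26 56 (.thr 58 10 (.thr 24 27 (.dbl 16 28 31)))) (.rp 58 (.thr 59 8 (.thr 27 43 (.dbl 26 24 56))) (.rp 56 (.thr 1 61 (.thr 17 29 (.thr 49 33 (.thr 13 37 (.thr 9 5 (.dbl 8 10 59)))))) (.rp 26 (.thr 8 59 (.thr 9 10 (.thr 3 12 (.thr 1 61 (.thr 5 13 (.dbl 7 4 15)))))) .nd))))))) (.rp 8 (.thr 26 56 (.thr 24 27 (.dbl 16 28 31))) (.rp 6 (.thr 38 12 (.thr 26 56 (.thr 24 27 (.dbl 16 28 31)))) .nd)))))))) (.rp 51 (.str 54 (.nv (.thr 17 29 (.thr 8 59 (.thr 10 9 (.dbl 26 56 58)))) (.nv (.thr 59 8 (.thr 27 43 (.dbl 26 24 56))) (.rp 59 (.thr 26 56 (.thr 58 10 (.thr 24 27 (.dbl 16 28 31)))) (.rp 56 (.thr 1 61 (.thr 17 29 (.thr 49 33 (.thr 13 37 (.thr 9 5 (.dbl 8 10 59)))))) (.rp 26 (.thr 8 59 (.thr 9 10 (.thr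 1 61 (.thr 17 29 (.thr 49 33 (.dbl 13 5 37)))))) (.rp 17 (.str 34 (.nv (.thr 8 59 (.thr 10 9 (.dbl 26 56 58))) (.nv (.thr 59 8 (.thr 27 43 (.dbl 26 24 56))) (.rp 59 (.thr 26 56 (.thr 58 10 (.thr 24 27 (.dbl 16 28 31)))) (.rp 56 (.thr 38 46 (.thr 35 44 (.thr 32 33 (.thr 47 37 (.thr 43 39 (.dbl 59 8 27)))))) (.rp 26 (.thr 59 8 (.thr 43 27 (.thr 38 46 (.thr 35 44 (.thr 32 33 (.dbl 47 37 39)))))) (.rp 8 (.thr 26 56 (.thr 24 27 (.dbl 16 28 31))) .nd))))))) (.rp 8 (.thr 26 56 (.thr 24 27 (.dbl 16 28 31))) .nd)))))))) (.rp 26 (.thr 8 59 (.thr 9 10 (.thr 1 61 (.thr 17 29 (.thr 49 33 (.dbl 13 5 37)))))) .nd))))))))) (.rp 49 (.str 56 (.nv (.thr 26 11 (.thr 16 31 (.dbl 24 27 28))) (.nv (.thr 57 9 (.dbl 59 8 58)) .nd))) (.rp 45 (.thr 9 57 (.thr 17 29 (.thr 1 61 (.thr 13 5 (.dbl 49 33 37))))) (.rp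 37 (.str 56 (.nv (.thr 26 11 (.thr 16 31 (.dbl 24 27 28))) (.nv (.thr 57 9 (.dbl 59 8 58)) (.rp 52 (.str 7 (.nv (.thr 26 11 (.thr 16 31 (.dbl 24 27 28))) (.nv (.thr 57 9 (.dbl 59 8 58)) .nd))) (.rp 7 (.str 52 (.nv (.thr 26 11 (.thr 16 31 (.dbl 24 27 28))) (.nv (.thr 57 9 (.dbl 59 8 58)) .nd))) .nd))))) (.rp 29 (.str 56 (.nv (.thr 26 11 (.thr 16 31 (.dbl 24 27 28))) (.nv (.thr 57 9 (.dbl 59 8 58)) .nd))) (.rp 17 (.str 38 (.nv (.thr 1 61 (.thr 4 55 (.thr 9 57 (.thr 5 13 (.thr 6 7 (.dbl 12 3 51)))))) (.nv (.thr 4 55 (.thr 34 46 (.thr 35 44 (.thr 33 32 (.thr 36 52 (.dbl 37 39 45)))))) (.nv (.thr 4 55 (.thr 9 57 (.thr 36 52 (.thr 37 39 (.thr 13 49 (.dbl 1 5 61)))))) (.rp 55 (.thr 57 9 (.thr 61 1 (.thr 49 53 (.thr 13 37 (.thr 45 29 (.thr 44 35 (.dbl 46 34 47))))))) (.rp 54 (.thr 57 9 (.thr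 61 1 (.thr 49 53 (.thr 13 37 (.thr 45 29 (.thr 44 35 (.dbl 46 34 47))))))) (.rp 53 (.thr 61 1 (.thr 46 34 (.thr 51 12 (.thr 44 35 (.thr 45 47 (.thr 13 29 (.dbl 37 33 49))))))) (.rp 52 (.thr 57 9 (.thr 61 1 (.thr 49 53 (.thr 34 46 (.thr 35 44 (.thr 32 33 (.dbl 37 13 47))))))) (.rp 51 (.thr 34 46 (.thr 4 55 (.thr 36 52 (.thr 37 39 (.thr 33 45 (.dbl 32 35 47)))))) (.rp 39 (.thr 57 9 (.thr 61 1 (.thr 49 53 (.thr 13 37 (.thr 45 29 (.thr 44 35 (.dbl 46 34 47))))))) (.rp 37 (.thr 9 57 (.thr 1 61 (.thr 5 13 (.thr 4 55 (.thr 52 36 (.thr 6 7 (.dbl 12 3 51))))))) (.rp 34 (.thr 51 12 (.thr 57 9 (.thr 61 1 (.thr 4 55 (.thr 36 52 (.thr 37 39 (.dbl 53 5 49))))))) (.rp 4 (.thr 57 9 (.thr 61 1 (.thr 49 53 (.thr 13 37 (.thr 45 29 (.thr 44 35 (.dbl 46 34 47))))))) .nd))))))))))))) (.rp 13 (.str 56 (.nv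 (.thr 26 11 (.thr 16 31 (.dbl 24 27 28))) (.nv (.thr 57 9 (.dbl 59 8 58)) .nd))) (.rp 9 (.str 56 (.nv (.thr 59 8 (.thr 58 57 (.dbl 26 10 11))) (.nv (.thr 26 11 (.thr 16 31 (.dbl 24 27 28))) (.rp 26 (.thr 29 17 (.thr 61 1 (.thr 13 45 (.thr 49 37 (.thr 57 53 (.dbl 59 8 58)))))) (.rp 11 (.thr 29 17 (.thr 61 1 (.thr 13 45 (.thr 49 37 (.thr 57 53 (.dbl 59 8 58)))))) (.rp 10 (.thr 8 59 (.thr 26 11 (.thr 16 31 (.dbl 24 27 28)))) (.rp 8 (.thr 26 11 (.thr 10 58 (.thr 16 31 (.dbl 24 27 28)))) .nd))))))) (.rp 5 (.thr 57 9 (.thr 29 17 (.thr 61 1 (.thr 13 45 (.dbl 49 37 53))))) (.rp 1 (.str 56 (.nv (.thr 26 11 (.thr 16 31 (.dbl 24 27 28))) (.nv (.thr 57 9 (.dbl 59 8 58)) (.rp 3 (.str 2 (.nv (.thr 26 11 (.thr 16 31 (.dbl 24 27 28))) (.nv (.thr 59 8 (.dbl 57 9 58)) .nd))) (.rp 2 (.str 3 (.nv (.thr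 26 11 (.thr 16 31 (.dbl 24 27 28))) (.nv (.thr 59 8 (.dbl 57 9 58)) .nd))) .nd))))) .nd)))))))))))))) (.rp 9 (.thr 29 17 (.thr 61 1 (.thr 13 45 (.thr 49 37 (.thr 57 53 (.thr 59 8 (.thr 56 58 (.thr 11 26 (.dbl 43 27 40))))))))) .nd)))))) .nd))))))))))))))))

theorem w486 : WinAt (4398048608256, 1152921504611041280) :=
  chF (K := [(4398082162688, 10376293541465817088)]) (kc w485 kn) c486 4398048608256 1152921504611041280 60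
    [1152923703634296840] (by decide +kernel) (by decide +kernel)

/-- A certificate. -/
noncomputable def c487 : Ct := (.str 51 (.nv (.thr 55 59 (.thr 38 4 (.thr 12 25 (.dbl 46 29 34)))) (.nv (.thr 59 55 (.thr 25 8 (.thr 29 17 (.dbl 12 38 46)))) (.rp 59 (.str 26 (.nv (.thr 31 16 (.thr 15 47 (.thr 27 39 (.thr 25 24 (.thr 29 17 (.dbl 12 38 46)))))) (.nv (.thr 31 16 (.thr 58 10 (.thr 15 47 (.dbl 48 37 53)))) (.rp 48 (.thr 58 10 (.str 15 (.nv (.dbl 31 16 47) (.rp 47 (.thr 27 39 (.thr 25 24 (.thr 29 17 (.dbl 12 38 46)))) (.rp 32 (.thr 16 31 (.thr 27 39 (.thr 25 24 (.thr 29 17 (.dbl 12 38 46))))) (.rp 31 (.thr 27 39 (.thr 25 24 (.thr 29 17 (.dbl 12 38 46)))) (.rp 16 (.str 32 (.nv (.dbl 47 31 37) (.rp 47 (.thr 27 39 (.thr 25 24 (.thr 29 17 (.dbl 12 38 46)))) (.rp 37 (.thr 27 39 (.thr 25 24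 (.thr 29 17 (.dbl 12 38 46)))) (.rp 31 (.thr 27 39 (.thr 25 24 (.thr 29 17 (.dbl 12 38 46)))) .nd))))) .nd))))))) (.rp 47 (.thr 58 10 (.thr 48 53 (.thr 15 37 (.thr 27 39 (.thr 25 24 (.thr 29 17 (.dbl 12 38 46))))))) (.rp 32 (.thr 58 10 (.thr 48 53 (.thr 31 16 (.dbl 15 37 47)))) (.rp 31 (.thr 58 10 (.thr 48 53 (.thr 15 37 (.thr 27 39 (.thr 25 24 (.thr 29 17 (.dbl 12 38 46))))))) (.rp 16 (.thr 58 10 (.thr 48 53 (.thr 15 37 (.thr 27 39 (.thr 25 24 (.thr 29 17 (.dbl 12 38 46))))))) (.rp 15 (.str 50 (.nv (.thr 38 14 (.thr 12 25 (.dbl 46 29 34))) (.nv (.thr 48 49 (.dbl 58 10 53)) (.rp 10 (.str 5 (.nv (.thr 38 14 (.thr 12 25 (.dbl 46 29 34))) (.nv (.thr 48 49 (.dbl 53 37 58)) .nd))) (.rp 5 (.thr 10 58 (.thr 38 14 (.thr 46 34 (.dbl 12 25 29)))) .nd))))) .nd))))))))) (.rp 55 (.str 31 (.nv (.thr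 15 47 (.thr 26 16 (.thr 27 39 (.thr 25 24 (.thr 29 17 (.dbl 12 38 46)))))) (.nv (.thr 15 47 (.thr 26 16 (.thr 58 10 (.dbl 48 37 53)))) (.rp 48 (.thr 15 47 (.thr 27 39 (.thr 23 19 (.thr 43 3 (.thr 11 59 (.thr 41 40 (.dbl 26 16 56))))))) (.rp 47 (.thr 26 16 (.thr 58 10 (.thr 48 53 (.thr 15 37 (.thr 27 39 (.thr 25 24 (.thr 29 17 (.dbl 12 38 46)))))))) (.rp 32 (.thr 15 47 (.thr 26 16 (.thr 48 37 (.dbl 58 10 53)))) (.rp 26 (.thr 15 47 (.thr 27 39 (.thr 23 19 (.thr 43 3 (.thr 59 11 (.thr 25 8 (.thr 29 17 (.dbl 12 38 46)))))))) (.rp 16 (.thr 15 47 (.thr 27 39 (.thr 23 19 (.thr 43 3 (.thr 59 11 (.thr 25 8 (.thr 12 38 (.dbl 29 17 46)))))))) (.rp 15 (.thr 26 16 (.thr 10 58 (.str 25 (.nv (.thr 8 59 (.thr 11 9 (.thr 24 27 (.dbl 56 40 41)))) (.nv (.thr 29 17 (.dbl 12 38 46)) (.rp 48 (.str 32 (.nv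 (.thr 8 59 (.thr 11 9 (.thr 24 27 (.dbl 56 40 41)))) (.nv (.thr 29 17 (.dbl 12 38 46)) .nd))) (.rp 32 (.str 48 (.nv (.thr 12 38 (.dbl 29 17 46)) (.nv (.thr 8 59 (.thr 11 9 (.thr 24 27 (.dbl 56 40 41)))) (.nv (.thr 24 27 (.dbl 12 36 38)) .nd)))) .nd))))))) .nd))))))))) (.rp 46 (.str 48 (.nv (.thr 49 50 (.thr 59 55 (.thr 25 8 (.thr 37 13 (.thr 15 26 (.dbl 47 31 32)))))) (.nv (.thr 50 49 (.thr 59 55 (.thr 58 53 (.thr 57 56 (.dbl 54 60 62))))) (.nv (.thr 53 58 (.thr 37 5 (.thr 47 32 (.dbl 15 26 31)))) .nd)))) (.rp 38 (.thr 59 55 (.str 48 (.nv (.thr 53 58 (.thr 37 5 (.thr 47 32 (.dbl 15 26 31)))) (.nv (.thr 25 8 (.thr 49 50 (.thr 37 13 (.thr 47 32 (.dbl 15 26 31))))) (.nv (.thr 50 49 (.thr 58 53 (.thr 57 56 (.dbl 54 60 62)))) (.rp 54 (.str 6 (.nv (.thr 25 8 (.thr 29 17 (.thr 12 46 (.thr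 24 36 (.thr 26 27 (.dbl 58 10 53)))))) (.nv (.thr 53 58 (.thr 37 5 (.thr 47 32 (.dbl 15 26 31)))) (.rp 58 (.thr 25 8 (.thr 29 17 (.thr 12 46 (.thr 3 9 (.thr 24 36 (.thr 27 26 (.dbl 43 11 23))))))) (.rp 53 (.str 52 (.nv (.thr 49 50 (.thr 56 60 (.thr 58 57 (.thr 26 10 (.thr 15 37 (.dbl 31 16 47)))))) (.nv (.thr 8 25 (.thr 56 60 (.thr 40 24 (.thr 41 43 (.thr 26 11 (.dbl 58 10 57)))))) (.nv (.thr 49 50 (.thr 25 8 (.thr 37 13 (.thr 47 32 (.dbl 15 26 31))))) (.rp 58 (.thr 56 60 (.thr 8 25 (.thr 40 24 (.thr 43 41 (.thr 3 23 (.thr 9 12 (.dbl 11 10 27))))))) (.rp 49 (.str 57 (.nv (.dbl 56 58 60) (.rp 60 (.thr 58 56 (.thr 26 10 (.thr 31 16 (.dbl 15 37 47)))) (.rp 58 (.thr 25 8 (.thr 29 17 (.thr 12 46 (.dbl 9 3 41)))) (.rp 56 (.thr 25 8 (.thr 29 17 (.thr 12 46 (.dbl 9 3 41)))) .nd))))) (.rp 26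 (.thr 56 60 (.thr 57 58 (.thr 25 8 (.thr 29 17 (.thr 12 46 (.dbl 9 3 41)))))) .nd))))))) (.rp 37 (.thr 49 50 (.thr 25 8 (.thr 17 29 (.thr 33 1 (.thr 3 18 (.thr 43 23 (.thr 41 40 (.dbl 9 12 57)))))))) (.rp 26 (.thr 53 58 (.thr 25 8 (.thr 37 5 (.dbl 49 13 50)))) (.rp 10 (.thr 49 50 (.thr 25 8 (.thr 37 13 (.dbl 53 5 58)))) .nd)))))))) (.rp 6 (.str 54 (.nv (.thr 25 8 (.thr 49 50 (.thr 37 13 (.dbl 53 5 58)))) (.nv (.thr 58 53 (.dbl 57 56 60)) (.rp 58 (.thr 49 50 (.thr 25 8 (.thr 37 13 (.thr 47 32 (.dbl 15 26 31))))) (.rp 53 (.thr 50 49 (.thr 57 60 (.dbl 58 56 62))) .nd))))) .nd))))))) (.rp 29 (.thr 55 59 (.str 48 (.nv (.thr 53 58 (.thr 37 5 (.thr 15 26 (.dbl 47 31 32)))) (.nv (.thr 38 4 (.thr 12 25 (.thr 36 24 (.thr 37 39 (.thr 47 32 (.dbl 15 26 31)))))) (.nv (.thr 50 49 (.thr 38 4 (.thr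 26 14 (.dbl 58 10 53)))) (.rp 45 (.str 13 (.nv (.thr 53 58 (.thr 37 5 (.thr 15 26 (.dbl 47 31 32)))) (.nv (.thr 38 4 (.thr 49 50 (.dbl 25 12 37))) (.rp 37 (.thr 50 49 (.thr 38 4 (.thr 12 25 (.dbl 14 15 26)))) .nd)))) (.rp 26 (.thr 49 50 (.thr 53 58 (.thr 38 4 (.thr 37 5 (.dbl 25 12 13))))) (.rp 13 (.str 45 (.nv (.thr 38 4 (.thr 58 53 (.thr 26 10 (.dbl 50 14 49)))) (.nv (.thr 38 4 (.thr 46 34 (.thr 47 44 (.thr 12 25 (.thr 37 32 (.dbl 36 24 39)))))) (.nv (.thr 58 53 (.thr 26 10 (.thr 31 16 (.dbl 15 37 47)))) .nd)))) .nd)))))))) (.rp 25 (.str 48 (.nv (.thr 58 53 (.thr 59 55 (.thr 57 56 (.thr 54 60 (.dbl 50 49 62))))) (.nv (.thr 53 58 (.thr 37 5 (.thr 47 32 (.dbl 15 26 31)))) (.rp 58 (.thr 50 49 (.thr 55 59 (.thr 38 4 (.thr 26 14 (.thr 31 16 (.dbl 15 37 47)))))) (.rp 53 (.thr 55 59 (.thr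 38 4 (.thr 46 34 (.thr 12 29 (.thr 36 24 (.thr 37 39 (.thr 47 32 (.dbl 15 26 31)))))))) (.rp 28 (.str 19 (.nv (.thr 3 35 (.thr 18 33 (.thr 55 59 (.thr 38 4 (.thr 34 46 (.dbl 50 2 49)))))) (.nv (.thr 53 58 (.thr 37 5 (.thr 47 32 (.dbl 15 26 31)))) (.rp 32 (.thr 58 53 (.thr 26 10 (.thr 31 16 (.dbl 15 37 47)))) .nd)))) (.rp 19 (.str 28 (.nv (.thr 58 53 (.thr 59 55 (.thr 57 56 (.thr 54 60 (.dbl 50 49 62))))) (.nv (.thr 53 58 (.thr 37 5 (.thr 47 32 (.dbl 15 26 31)))) (.rp 58 (.thr 50 49 (.thr 55 59 (.thr 38 4 (.thr 26 14 (.thr 31 16 (.dbl 15 37 47)))))) (.rp 53 (.thr 55 59 (.thr 38 4 (.thr 46 34 (.thr 12 29 (.thr 36 24 (.thr 37 39 (.thr 32 47 (.dbl 44 40 60)))))))) .nd))))) .nd))))))) (.rp 12 (.thr 59 55 (.str 58 (.nv (.thr 8 25 (.thr 26 10 (.thr 31 16 (.thr 15 47 (.dbl 48 37 53))))) (.nv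 (.thr 48 53 (.thr 50 49 (.thr 57 56 (.dbl 54 60 62)))) (.rp 53 (.thr 26 10 (.thr 31 16 (.thr 15 47 (.thr 27 39 (.dbl 25 8 24))))) (.rp 48 (.thr 56 57 (.thr 8 25 (.thr 26 10 (.thr 41 11 (.dbl 40 24 43))))) (.rp 8 (.str 4 (.nv (.thr 26 10 (.thr 31 16 (.thr 15 47 (.thr 27 39 (.thr 23 19 (.dbl 43 3 11)))))) (.nv (.thr 48 53 (.thr 50 49 (.thr 57 56 (.dbl 54 60 62)))) (.rp 48 (.thr 26 10 (.thr 56 57 (.thr 11 41 (.thr 27 43 (.thr 15 39 (.dbl 31 16 47)))))) .nd)))) .nd))))))) (.rp 4 (.thr 59 55 (.thr 25 8 (.thr 12 38 (.dbl 29 17 46)))) .nd)))))))))))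

theorem w487 : WinAt (9223376434903384064, 2305843009217888257) :=
  chF (K := []) kn c487 9223376434903384064 2305843009217888257 0
    [] (by decide +kernel) (by decide +kernel)

/-- A certificate. -/
noncomputable def c488 : Ct := (.str 51 (.nv (.thr 55 59 (.thr 38 4 (.thr 12 25 (.dbl 46 29 34)))) (.nv (.thr 59 55 (.thr 25 8 (.thr 29 17 (.dbl 12 38 46)))) (.rp 59 (.str 26 (.nv (.thr 58 10 (.thr 48 53 (.thr 50 49 (.thr 38 14 (.thr 12 25 (.dbl 46 29 34)))))) (.nv (.thr 31 16 (.thr 15 47 (.thr 27 39 (.thr 25 24 (.thr 29 17 (.dbl 12 38 46)))))) (.nv (.thr 58 10 (.thr 48 53 (.thr 31 16 (.dbl 15 37 47)))) (.rp 48 (.thr 58 10 (.str 15 (.nv (.dbl 31 16 47) (.rp 47 (.thr 27 39 (.thr 25 24 (.thr 29 17 (.dbl 12 38 46)))) (.rp 32 (.thr 16 31 (.thr 27 39 (.thr 25 24 (.thr 29 17 (.dbl 12 38 46)))))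 (.rp 31 (.thr 27 39 (.thr 25 24 (.thr 29 17 (.dbl 12 38 46)))) (.rp 16 (.str 32 (.nv (.dbl 47 31 37) (.rp 47 (.thr 27 39 (.thr 25 24 (.thr 29 17 (.dbl 12 38 46)))) (.rp 37 (.thr 27 39 (.thr 25 24 (.thr 29 17 (.dbl 12 38 46)))) (.rp 31 (.thr 27 39 (.thr 25 24 (.thr 29 17 (.dbl 12 38 46)))) .nd))))) .nd))))))) (.rp 15 (.str 48 (.nv (.dbl 58 10 53) (.rp 58 (.thr 50 49 (.thr 38 14 (.thr 46 34 (.dbl 12 25 29)))) (.rp 53 (.thr 50 49 (.thr 38 14 (.thr 46 34 (.dbl 12 25 29)))) (.rp 10 (.str 5 (.nv (.dbl 53 37 58) (.rp 58 (.thr 50 49 (.thr 38 14 (.thr 46 34 (.dbl 12 25 29)))) (.rp 53 (.thr 50 49 (.thr 38 14 (.thr 46 34 (.dbl 12 25 29)))) (.rp 37 (.thr 50 49 (.thr 38 14 (.thr 46 34 (.dbl 12 25 29)))) .nd))))) (.rp 5 (.thr 10 58 (.thr 50 49 (.thr 38 14 (.thr 46 34 (.dbl 12 25 29))))) .nd))))))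 .nd)))))) (.rp 55 (.str 31 (.nv (.thr 15 47 (.thr 26 16 (.thr 27 39 (.thr 25 24 (.thr 29 17 (.dbl 12 38 46)))))) (.nv (.thr 15 47 (.thr 26 16 (.thr 58 10 (.dbl 48 37 53)))) (.rp 48 (.thr 15 47 (.thr 27 39 (.thr 23 19 (.thr 43 3 (.thr 11 59 (.thr 41 40 (.dbl 26 16 56))))))) (.rp 47 (.thr 26 16 (.thr 58 10 (.thr 48 53 (.thr 50 49 (.thr 38 14 (.thr 46 34 (.dbl 12 25 29))))))) (.rp 32 (.thr 15 47 (.thr 26 16 (.thr 48 37 (.dbl 58 10 53)))) (.rp 26 (.thr 15 47 (.thr 27 39 (.thr 23 19 (.thr 43 3 (.thr 59 11 (.thr 25 8 (.thr 29 17 (.dbl 12 38 46)))))))) (.rp 16 (.thr 15 47 (.thr 27 39 (.thr 23 19 (.thr 43 3 (.thr 59 11 (.thr 25 8 (.thr 12 38 (.dbl 29 17 46)))))))) (.rp 15 (.thr 26 16 (.str 48 (.nv (.dbl 58 10 53) (.rp 58 (.thr 50 49 (.thr 38 14 (.thr 46 34 (.dbl 12 25 29)))) (.rp 53 (.thr 50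 49 (.thr 38 14 (.thr 46 34 (.dbl 12 25 29)))) (.rp 10 (.str 5 (.nv (.dbl 53 37 58) (.rp 58 (.thr 50 49 (.thr 38 14 (.thr 46 34 (.dbl 12 25 29)))) (.rp 53 (.thr 50 49 (.thr 38 14 (.thr 46 34 (.dbl 12 25 29)))) (.rp 37 (.thr 50 49 (.thr 38 14 (.thr 46 34 (.dbl 12 25 29)))) .nd))))) (.rp 5 (.thr 10 58 (.thr 50 49 (.thr 38 14 (.thr 46 34 (.dbl 12 25 29))))) .nd))))))) .nd))))))))) (.rp 46 (.thr 59 55 (.str 58 (.nv (.thr 25 8 (.thr 53 48 (.thr 57 56 (.thr 49 61 (.dbl 37 5 13))))) (.nv (.thr 8 25 (.thr 56 57 (.thr 40 24 (.thr 41 43 (.dbl 26 10 11))))) (.nv (.thr 48 53 (.thr 26 10 (.thr 31 16 (.dbl 15 37 47)))) (.rp 30 (.str 14 (.nv (.thr 25 8 (.thr 48 53 (.thr 50 49 (.dbl 38 12 26)))) (.nv (.thr 48 53 (.thr 26 10 (.thr 15 37 (.dbl 31 16 47)))) (.nv (.thr 26 10 (.thr 38 50 (.dbl 25 8 12)))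 (.rp 26 (.str 18 (.nv (.thr 25 8 (.thr 12 38 (.thr 15 13 (.thr 17 29 (.thr 27 39 (.thr 31 47 (.dbl 19 16 23))))))) (.nv (.thr 25 8 (.thr 17 29 (.thr 19 16 (.thr 3 35 (.dbl 48 33 53))))) (.nv (.thr 25 8 (.thr 12 38 (.thr 48 53 (.thr 49 50 (.dbl 13 15 37))))) (.rp 25 (.thr 48 53 (.thr 3 33 (.thr 43 23 (.thr 27 11 (.thr 39 15 (.dbl 35 19 47)))))) (.rp 12 (.thr 53 48 (.thr 37 5 (.thr 57 56 (.thr 49 61 (.dbl 25 8 13))))) (.rp 8 (.thr 48 53 (.thr 3 33 (.thr 35 19 (.thr 43 23 (.thr 27 11 (.dbl 39 15 47)))))) .nd))))))) .nd))))) (.rp 14 (.str 30 (.nv (.thr 25 8 (.thr 53 48 (.thr 57 56 (.thr 49 61 (.dbl 37 5 13))))) (.nv (.thr 26 10 (.thr 48 53 (.thr 15 37 (.thr 56 57 (.dbl 60 45 52))))) (.nv (.thr 25 8 (.thr 29 17 (.thr 31 28 (.dbl 26 10 16)))) .nd)))) .nd))))))) (.rp 38 (.thr 59 55 (.str 58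 (.nv (.thr 25 8 (.thr 53 48 (.thr 57 56 (.thr 49 61 (.dbl 37 5 13))))) (.nv (.thr 8 25 (.thr 56 57 (.thr 40 24 (.thr 41 43 (.dbl 26 10 11))))) (.nv (.thr 48 53 (.thr 26 10 (.thr 31 16 (.dbl 15 37 47)))) (.rp 54 (.str 6 (.nv (.thr 25 8 (.thr 29 17 (.thr 12 46 (.thr 9 3 (.dbl 57 41 56))))) (.nv (.thr 26 10 (.thr 31 16 (.thr 15 47 (.dbl 48 37 53)))) (.rp 53 (.str 52 (.nv (.thr 25 8 (.thr 26 10 (.thr 31 16 (.thr 15 47 (.dbl 27 24 39))))) (.nv (.thr 25 8 (.thr 29 17 (.thr 12 46 (.thr 57 56 (.dbl 9 3 41))))) (.nv (.thr 26 10 (.thr 31 16 (.thr 15 47 (.thr 48 37 (.dbl 56 57 60))))) .nd)))) (.rp 52 (.thr 53 48 (.thr 37 5 (.thr 25 8 (.thr 49 13 (.dbl 57 56 61))))) .nd))))) (.rp 6 (.str 54 (.nv (.dbl 57 56 60) (.rp 60 (.thr 48 53 (.thr 26 10 (.thr 31 16 (.dbl 15 37 47)))) (.rp 57 (.thr 48 53 (.thr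 26 10 (.thr 31 16 (.dbl 15 37 47)))) (.rp 56 (.thr 48 53 (.thr 26 10 (.thr 31 16 (.dbl 15 37 47)))) .nd))))) .nd))))))) (.rp 29 (.str 48 (.nv (.thr 50 49 (.thr 55 59 (.thr 38 4 (.thr 26 14 (.thr 15 37 (.dbl 31 16 47)))))) (.nv (.thr 49 50 (.thr 55 59 (.thr 53 58 (.thr 54 52 (.dbl 57 60 61))))) (.nv (.thr 58 53 (.thr 26 10 (.thr 31 16 (.dbl 15 37 47)))) (.rp 37 (.thr 50 49 (.thr 58 53 (.thr 55 59 (.thr 26 10 (.dbl 38 4 14))))) .nd))))) (.rp 25 (.thr 55 59 (.str 19 (.nv (.thr 3 35 (.thr 23 43 (.thr 27 31 (.dbl 39 7 15)))) (.rp 47 (.thr 3 35 (.thr 23 43 (.thr 39 7 (.dbl 27 15 31)))) (.rp 43 (.thr 35 3 (.thr 38 4 (.thr 34 46 (.thr 32 33 (.thr 37 47 (.thr 36 39 (.dbl 44 40 41))))))) (.rp 39 (.thr 35 3 (.thr 38 4 (.thr 34 46 (.thr 32 33 (.thr 37 47 (.thr 53 5 (.thr 48 58 (.thr 50 49 (.dbl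 26 14 15))))))))) (.rp 35 (.str 23 (.nv (.thr 27 31 (.dbl 39 7 15)) (.rp 39 (.thr 31 27 (.thr 26 16 (.thr 58 10 (.thr 48 53 (.dbl 15 37 47))))) (.rp 31 (.thr 39 7 (.thr 15 27 (.thr 38 4 (.thr 46 34 (.thr 37 36 (.thr 26 48 (.thr 14 50 (.dbl 12 13 29)))))))) (.rp 27 (.thr 39 7 (.thr 43 3 (.thr 38 4 (.thr 37 36 (.thr 41 40 (.thr 33 45 (.thr 1 61 (.thr 49 17 (.thr 48 50 (.dbl 53 5 58)))))))))) (.rp 15 (.thr 31 27 (.thr 26 16 (.thr 38 4 (.thr 50 14 (.thr 48 49 (.dbl 58 10 53)))))) (.rp 7 (.thr 31 27 (.thr 15 47 (.thr 26 16 (.thr 58 10 (.dbl 48 37 53))))) .nd))))))) (.rp 31 (.thr 35 3 (.thr 38 4 (.thr 34 46 (.thr 32 33 (.thr 47 37 (.thr 43 39 (.dbl 41 40 44))))))) (.rp 27 (.thr 35 3 (.thr 38 4 (.thr 34 46 (.thr 32 33 (.thr 47 37 (.thr 43 39 (.dbl 41 40 44))))))) (.rp 23 (.thr 35 3 (.thr 38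 4 (.thr 34 46 (.thr 32 33 (.thr 47 37 (.thr 39 43 (.dbl 15 27 31))))))) (.rp 15 (.thr 35 3 (.thr 38 4 (.thr 34 46 (.thr 32 33 (.thr 47 37 (.thr 43 39 (.dbl 41 40 44))))))) (.rp 7 (.thr 35 3 (.thr 38 4 (.thr 34 46 (.thr 32 33 (.thr 37 47 (.thr 36 39 (.dbl 44 40 41))))))) (.rp 3 (.str 60 (.nv (.thr 38 4 (.thr 46 34 (.thr 12 29 (.thr 54 57 (.thr 53 52 (.thr 37 5 (.thr 36 39 (.dbl 48 24 58)))))))) (.nv (.thr 38 4 (.thr 46 34 (.thr 12 29 (.thr 44 28 (.thr 41 35 (.thr 40 43 (.thr 47 45 (.dbl 32 36 37)))))))) (.nv (.thr 54 57 (.thr 53 52 (.thr 37 5 (.thr 47 32 (.thr 15 31 (.dbl 48 26 58)))))) (.rp 41 (.thr 38 4 (.thr 46 34 (.thr 12 29 (.thr 44 28 (.thr 47 45 (.thr 37 32 (.thr 39 36 (.dbl 15 27 31)))))))) (.rp 37 (.thr 54 57 (.thr 52 53 (.thr 56 48 (.thr 38 4 (.thr 46 34 (.thr 12 29 (.thr 44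 28 (.thr 41 35 (.thr 47 45 (.thr 26 11 (.dbl 31 15 16))))))))))) (.rp 2 (.str 1 (.nv (.thr 54 57 (.thr 53 52 (.thr 37 5 (.thr 47 32 (.thr 15 31 (.dbl 48 26 58)))))) (.nv (.thr 38 4 (.thr 41 61 (.thr 44 35 (.thr 12 28 (.dbl 46 29 34))))) (.rp 41 (.thr 38 4 (.thr 46 34 (.thr 12 29 (.thr 44 28 (.thr 47 45 (.thr 37 32 (.thr 39 36 (.dbl 15 27 31)))))))) .nd)))) (.rp 1 (.str 2 (.nv (.thr 38 4 (.thr 34 46 (.thr 50 18 (.thr 48 49 (.thr 58 53 (.dbl 26 10 14)))))) (.nv (.thr 38 4 (.thr 46 34 (.thr 12 29 (.thr 44 28 (.thr 41 35 (.thr 40 43 (.thr 32 36 (.dbl 47 37 45)))))))) (.nv (.thr 54 57 (.thr 53 52 (.thr 37 5 (.thr 47 32 (.thr 15 31 (.dbl 48 26 58)))))) (.rp 37 (.thr 54 57 (.thr 52 53 (.thr 38 4 (.thr 34 46 (.thr 50 18 (.dbl 48 49 56)))))) .nd))))) .nd)))))))) .nd))))))))))))) (.rp 12 (.thr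 59 55 (.str 27 (.nv (.thr 43 11 (.thr 23 3 (.thr 31 19 (.thr 26 16 (.dbl 25 8 24))))) (.nv (.thr 8 25 (.thr 11 43 (.thr 10 9 (.thr 26 58 (.thr 31 16 (.dbl 15 39 47)))))) (.nv (.thr 15 39 (.thr 47 31 (.thr 37 32 (.thr 48 26 (.dbl 53 5 58))))) (.nv (.thr 43 11 (.thr 15 39 (.thr 31 47 (.dbl 23 3 19)))) (.rp 31 (.thr 43 11 (.thr 39 15 (.thr 35 47 (.dbl 3 19 23)))) (.rp 15 (.thr 43 11 (.thr 3 23 (.thr 35 19 (.thr 41 40 (.thr 38 44 (.thr 34 46 (.thr 32 33 (.dbl 47 37 39)))))))) (.rp 8 (.str 4 (.nv (.thr 39 15 (.thr 43 11 (.thr 3 23 (.dbl 35 19 47)))) (.nv (.thr 15 39 (.thr 47 31 (.thr 37 32 (.thr 48 26 (.dbl 53 5 58))))) (.nv (.thr 15 39 (.thr 31 47 (.thr 43 11 (.dbl 23 3 19)))) (.rp 47 (.thr 15 39 (.thr 43 11 (.thr 23 3 (.thr 31 19 (.thr 26 16 (.thr 48 37 (.dbl 58 10 53))))))) (.rp 39 (.thr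 43 11 (.thr 23 3 (.thr 31 19 (.thr 15 47 (.thr 26 16 (.thr 48 37 (.dbl 58 10 53))))))) (.rp 23 (.thr 11 43 (.thr 15 39 (.thr 7 3 (.thr 47 31 (.thr 37 32 (.dbl 5 6 53)))))) (.rp 15 (.thr 43 11 (.thr 3 23 (.thr 35 19 (.thr 41 40 (.thr 38 44 (.thr 34 46 (.thr 32 33 (.dbl 47 37 39)))))))) .nd)))))))) .nd))))))))) (.rp 4 (.thr 59 55 (.thr 25 8 (.thr 12 38 (.dbl 29 17 46)))) .nd)))))))))))

theorem w488 : WinAt (9223376434903384064, 4611686018431582209) :=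
  chF (K := []) kn c488 9223376434903384064 4611686018431582209 0
    [] (by decide +kernel) (by decide +kernel)

/-- A certificate. -/
noncomputable def c489 : Ct := (.str 23 (.nv (.thr 53 5 (.thr 61 1 (.thr 49 57 (.thr 13 25 (.dbl 45 29 33))))) (.nv (.thr 1 61 (.thr 33 45 (.thr 5 53 (.thr 49 17 (.dbl 13 9 25))))) (.rp 61 (.str 35 (.nv (.thr 38 44 (.thr 55 4 (.dbl 39 7 36))) (.nv (.thr 33 45 (.dbl 32 34 47)) (.rp 62 (.str 60 (.nv (.thr 38 44 (.thr 55 4 (.dbl 39 7 36))) (.nv (.thr 32 47 (.dbl 33 34 45)) .nd))) (.rp 60 (.str 62 (.nv (.thr 38 44 (.thr 55 4 (.dbl 39 7 36))) (.nv (.thr 32 47 (.dbl 33 34 45)) .nd))) .nd))))) (.rp 53 (.str 26 (.nv (.thr 11 56 (.thr 31 16 (.thr 27 19 (.thr 25 24 (.thr 8 59 (.dbl 9 10 57)))))) (.nv (.thr 1 61 (.thr 10 58 (.thr 48 15 (.thr 47 32 (.thr 11 56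 (.thr 9 8 (.thr 13 5 (.dbl 25 49 57)))))))) (.nv (.thr 31 16 (.thr 27 19 (.thr 25 24 (.thr 33 45 (.thr 49 13 (.dbl 1 17 61)))))) (.rp 58 (.thr 48 15 (.thr 33 45 (.thr 1 61 (.thr 31 16 (.thr 27 19 (.thr 25 24 (.dbl 17 29 49))))))) (.rp 48 (.thr 58 10 (.thr 31 16 (.thr 27 19 (.thr 25 24 (.thr 57 9 (.dbl 59 8 56)))))) (.rp 25 (.thr 45 33 (.thr 61 1 (.thr 29 13 (.thr 31 16 (.thr 19 27 (.thr 30 28 (.dbl 15 48 60))))))) (.rp 24 (.thr 33 45 (.thr 1 61 (.thr 49 17 (.thr 13 25 (.thr 9 5 (.thr 11 56 (.dbl 10 8 58))))))) .nd)))))))) (.rp 49 (.str 35 (.nv (.thr 38 44 (.thr 55 4 (.dbl 39 7 36))) (.nv (.thr 33 45 (.dbl 32 34 47)) .nd))) (.rp 45 (.str 35 (.nv (.thr 32 47 (.thr 34 33 (.dbl 38 44 46))) (.nv (.thr 38 44 (.thr 55 4 (.dbl 39 7 36))) (.rp 47 (.thr 38 44 (.thr 46 34 (.thr 55 4 (.dbl 39 7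 36)))) (.rp 46 (.thr 47 32 (.thr 38 44 (.thr 55 4 (.dbl 39 7 36)))) (.rp 44 (.thr 5 53 (.thr 1 61 (.thr 13 9 (.thr 49 25 (.thr 33 17 (.dbl 32 34 47)))))) (.rp 38 (.thr 5 53 (.thr 1 61 (.thr 13 9 (.thr 49 25 (.thr 33 17 (.dbl 32 34 47)))))) .nd))))))) (.rp 33 (.str 44 (.nv (.thr 38 35 (.thr 39 36 (.dbl 55 4 7))) (.nv (.thr 47 32 (.thr 46 45 (.dbl 38 34 35))) (.rp 48 (.str 18 (.nv (.thr 53 5 (.thr 47 32 (.thr 46 45 (.dbl 38 34 35)))) (.nv (.thr 32 47 (.thr 36 40 (.dbl 38 35 39))) (.rp 53 (.str 58 (.nv (.thr 47 32 (.thr 46 45 (.dbl 38 34 35))) (.nv (.thr 32 47 (.thr 36 40 (.dbl 38 35 39))) (.rp 47 (.thr 38 35 (.thr 39 36 (.dbl 55 4 7))) (.rp 38 (.thr 32 47 (.thr 40 36 (.thr 26 10 (.thr 56 11 (.thr 59 57 (.dbl 8 24 25)))))) (.rp 35 (.thr 26 10 (.thr 56 11 (.thr 59 57 (.thr 8 25 (.thr 40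 24 (.dbl 32 36 47)))))) (.rp 32 (.thr 38 35 (.thr 34 46 (.thr 39 36 (.dbl 55 4 7)))) .nd))))))) (.rp 47 (.thr 38 35 (.thr 39 36 (.dbl 55 4 7))) (.rp 38 (.thr 47 32 (.thr 45 46 (.thr 61 1 (.thr 53 5 (.thr 49 57 (.dbl 13 25 29)))))) (.rp 35 (.thr 61 1 (.thr 53 5 (.thr 49 57 (.thr 13 25 (.thr 45 29 (.dbl 47 32 46)))))) (.rp 32 (.thr 38 35 (.thr 34 46 (.thr 39 36 (.dbl 55 4 7)))) .nd)))))))) (.rp 38 (.thr 47 32 (.thr 45 46 (.thr 61 1 (.thr 53 5 (.thr 49 57 (.dbl 13 25 29)))))) (.rp 35 (.thr 61 1 (.thr 53 5 (.thr 49 57 (.thr 13 25 (.thr 45 29 (.dbl 47 32 46)))))) (.rp 34 (.thr 32 47 (.thr 36 40 (.dbl 38 35 39))) (.rp 32 (.thr 38 35 (.thr 34 46 (.thr 39 36 (.dbl 55 4 7)))) (.rp 18 (.str 48 (.nv (.thr 26 15 (.thr 38 35 (.thr 34 46 (.thr 39 36 (.dbl 55 4 7))))) (.nv (.thr 32 47 (.thr 16 0 (.dbl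 26 15 31))) (.nv (.thr 47 32 (.thr 46 45 (.dbl 38 34 35))) (.rp 47 (.thr 38 35 (.thr 39 36 (.dbl 55 4 7))) (.rp 35 (.thr 61 1 (.thr 53 5 (.thr 49 57 (.thr 13 25 (.thr 45 29 (.dbl 47 32 46)))))) (.rp 26 (.str 30 (.nv (.thr 38 35 (.thr 39 36 (.dbl 55 4 7))) (.nv (.thr 47 32 (.thr 46 45 (.dbl 38 34 35))) (.rp 38 (.thr 47 32 (.thr 45 46 (.thr 60 15 (.thr 61 1 (.thr 29 13 (.dbl 28 12 31)))))) (.rp 35 (.thr 61 1 (.thr 53 5 (.thr 49 57 (.thr 13 25 (.thr 45 29 (.dbl 47 32 46)))))) (.rp 34 (.thr 32 47 (.thr 36 40 (.dbl 38 35 39))) (.rp 32 (.thr 38 35 (.thr 34 46 (.thr 39 36 (.dbl 55 4 7)))) .nd))))))) .nd))))))) .nd))))))))) (.rp 29 (.thr 33 45 (.thr 5 53 (.thr 1 61 (.thr 13 9 (.dbl 49 17 25))))) (.rp 25 (.str 35 (.nv (.thr 38 44 (.thr 55 4 (.dbl 39 7 36))) (.nv (.thr 33 45 (.dbl 32 34 47))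 (.rp 28 (.str 19 (.nv (.thr 38 44 (.thr 55 4 (.dbl 39 7 36))) (.nv (.thr 33 45 (.dbl 32 34 47)) .nd))) (.rp 19 (.str 28 (.nv (.thr 38 44 (.thr 55 4 (.dbl 39 7 36))) (.nv (.thr 33 45 (.dbl 32 34 47)) .nd))) .nd))))) (.rp 13 (.str 35 (.nv (.thr 38 44 (.thr 55 4 (.dbl 39 7 36))) (.nv (.thr 33 45 (.dbl 32 34 47)) .nd))) (.rp 9 (.thr 45 33 (.thr 53 5 (.thr 61 1 (.thr 13 29 (.dbl 49 25 57))))) (.rp 5 (.str 35 (.nv (.thr 38 44 (.thr 55 4 (.dbl 39 7 36))) (.nv (.thr 33 45 (.dbl 32 34 47)) .nd))) (.rp 1 (.str 35 (.nv (.thr 38 44 (.thr 55 4 (.dbl 39 7 36))) (.nv (.thr 33 45 (.dbl 32 34 47)) (.rp 2 (.str 0 (.nv (.thr 38 44 (.thr 55 4 (.dbl 39 7 36))) (.nv (.thr 33 45 (.dbl 32 34 47)) .nd))) (.rp 0 (.str 2 (.nv (.thr 38 44 (.thr 55 4 (.dbl 39 7 36))) (.nv (.thr 33 45 (.dbl 32 34 47)) .nd))) .nd)))))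 .nd))))))))))))))

theorem w489 : WinAt (6734510817280, 9223380832951992328) :=
  chF (K := []) kn c489 6734510817280 9223380832951992328 43
    [] (by decide +kernel) (by decide +kernel)

/-- A certificate. -/
noncomputable def c490 : Ct := (.str 38 (.nv (.thr 34 46 (.thr 35 44 (.thr 32 33 (.thr 43 40 (.dbl 47 37 39))))) (.nv (.thr 40 43 (.thr 44 35 (.thr 32 36 (.thr 46 34 (.dbl 47 37 45))))) (.rp 47 (.thr 43 40 (.thr 55 4 (.thr 61 1 (.thr 46 34 (.str 26 (.nv (.thr 56 11 (.thr 58 10 (.thr 57 59 (.thr 53 49 (.thr 54 52 (.dbl 50 14 62)))))) (.nv (.thr 50 14 (.thr 58 10 (.thr 54 62 (.thr 53 52 (.thr 57 49 (.dbl 56 11 59)))))) (.nv (.thr 56 11 (.thr 58 10 (.thr 57 59 (.thr 50 14 (.thr 54 62 (.dbl 53 49 52)))))) (.rp 62 (.thr 58 10 (.thr 56 11 (.thr 57 59 (.thr 53 49 (.thr 52 54 (.thr 48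 60 (.dbl 37 5 15))))))) (.rp 59 (.thr 50 14 (.thr 58 10 (.thr 54 62 (.thr 53 52 (.thr 49 57 (.thr 48 51 (.dbl 37 5 15))))))) (.rp 58 (.thr 56 11 (.str 48 (.nv (.thr 15 37 (.thr 14 50 (.thr 13 12 (.thr 45 29 (.dbl 30 60 62))))) (.nv (.thr 31 16 (.thr 37 15 (.thr 50 14 (.thr 49 51 (.dbl 53 5 57))))) (.nv (.thr 31 16 (.thr 37 15 (.thr 53 5 (.dbl 52 54 60)))) (.nv (.thr 52 60 (.thr 53 54 (.thr 50 14 (.dbl 49 51 57)))) (.rp 28 (.str 19 (.nv (.thr 50 14 (.thr 49 51 (.thr 53 57 (.dbl 52 54 60)))) (.nv (.thr 37 15 (.thr 31 16 (.thr 23 27 (.dbl 39 7 36)))) (.rp 31 (.thr 15 37 (.thr 35 44 (.thr 51 3 (.dbl 50 14 49)))) (.rp 15 (.thr 31 16 (.thr 35 44 (.thr 50 14 (.dbl 51 3 49)))) .nd))))) (.rp 19 (.str 28 (.nv (.thr 15 37 (.thr 44 35 (.dbl 60 12 52))) (.nv (.thr 31 16 (.thr 30 29 (.dbl 14 50 62)))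 .nd))) (.rp 15 (.thr 31 16 (.thr 52 60 (.thr 53 54 (.thr 50 14 (.dbl 49 51 57))))) (.rp 0 (.thr 60 52 (.thr 44 35 (.thr 31 16 (.thr 37 15 (.thr 36 39 (.dbl 12 24 28)))))) .nd)))))))))) (.rp 57 (.thr 44 35 (.thr 31 16 (.thr 14 50 (.thr 30 62 (.thr 28 29 (.thr 60 12 (.thr 15 45 (.thr 48 37 (.dbl 56 11 52))))))))) (.rp 56 (.thr 50 14 (.thr 58 10 (.thr 54 62 (.thr 53 52 (.thr 49 57 (.thr 48 51 (.dbl 37 5 15))))))) (.rp 54 (.thr 35 44 (.thr 31 16 (.thr 50 14 (.thr 11 56 (.thr 27 59 (.thr 19 23 (.thr 51 3 (.thr 48 49 (.dbl 15 37 39))))))))) (.rp 53 (.thr 44 35 (.thr 31 16 (.thr 14 50 (.thr 30 62 (.thr 28 29 (.thr 60 12 (.thr 15 45 (.thr 48 37 (.dbl 56 11 52))))))))) (.rp 52 (.thr 50 14 (.thr 58 10 (.thr 54 62 (.thr 56 11 (.thr 57 59 (.thr 49 53 (.dbl 51 48 60))))))) (.rp 50 (.thr 58 10 (.thr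 56 11 (.thr 57 59 (.thr 53 49 (.thr 52 54 (.thr 48 60 (.dbl 37 5 15))))))) (.rp 49 (.thr 50 14 (.thr 58 10 (.thr 54 62 (.thr 52 53 (.thr 56 11 (.thr 57 59 (.dbl 60 48 51))))))) (.rp 31 (.str 15 (.nv (.thr 37 48 (.thr 39 36 (.thr 7 23 (.dbl 11 3 56)))) (.nv (.thr 14 50 (.thr 13 12 (.thr 45 29 (.dbl 30 60 62)))) (.rp 28 (.str 19 (.nv (.thr 11 56 (.thr 3 7 (.thr 27 59 (.dbl 51 35 39)))) (.nv (.thr 14 50 (.thr 13 12 (.thr 45 29 (.dbl 30 60 62)))) (.rp 30 (.str 29 (.nv (.thr 11 56 (.thr 3 7 (.dbl 35 44 51))) (.nv (.thr 13 45 (.dbl 14 12 50)) .nd))) (.rp 29 (.str 30 (.nv (.thr 37 48 (.dbl 45 33 60)) (.nv (.dbl 14 50 62) .nd))) (.rp 8 (.thr 35 44 (.thr 3 51 (.dbl 11 7 56))) .nd)))))) (.rp 19 (.str 28 (.nv (.thr 14 50 (.thr 12 13 (.thr 30 62 (.dbl 60 44 45)))) (.nv (.thr 11 56 (.thr 7 3 (.thr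 39 23 (.dbl 27 51 59)))) (.rp 27 (.str 23 (.nv (.thr 14 50 (.thr 12 13 (.dbl 44 35 60))) (.nv (.thr 7 39 (.dbl 11 3 56)) .nd))) (.rp 23 (.str 27 (.nv (.thr 37 48 (.dbl 39 36 51)) (.nv (.dbl 11 56 59) .nd))) (.rp 2 (.thr 44 35 (.thr 12 60 (.dbl 14 13 50))) .nd)))))) (.rp 12 (.thr 11 56 (.thr 27 59 (.thr 7 3 (.dbl 39 23 51)))) .nd)))))) (.rp 28 (.str 19 (.nv (.thr 31 16 (.thr 27 23 (.dbl 11 56 59))) (.rp 59 (.thr 35 44 (.thr 31 16 (.thr 23 27 (.thr 3 51 (.thr 11 56 (.dbl 7 15 39)))))) (.rp 56 (.thr 35 44 (.thr 31 16 (.thr 27 23 (.thr 51 3 (.thr 15 39 (.thr 48 37 (.dbl 50 14 49))))))) (.rp 31 (.str 15 (.nv (.thr 11 56 (.thr 3 7 (.thr 27 59 (.dbl 51 35 39)))) (.nv (.thr 14 50 (.thr 13 12 (.thr 45 29 (.dbl 30 60 62)))) (.rp 30 (.str 29 (.nv (.thr 11 56 (.thr 3 7 (.dbl 35 44 51))) (.nv (.thr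 13 45 (.dbl 14 12 50)) .nd))) (.rp 29 (.str 30 (.nv (.thr 37 48 (.dbl 45 33 60)) (.nv (.dbl 14 50 62) .nd))) (.rp 8 (.thr 35 44 (.thr 3 51 (.dbl 11 7 56))) .nd)))))) (.rp 27 (.thr 56 11 (.thr 58 10 (.thr 57 59 (.thr 53 49 (.thr 54 52 (.dbl 50 14 62)))))) (.rp 24 (.thr 56 11 (.thr 58 10 (.thr 57 59 (.thr 53 49 (.thr 54 52 (.dbl 50 14 62)))))) (.rp 23 (.thr 56 11 (.thr 58 10 (.thr 57 59 (.thr 53 49 (.thr 54 52 (.dbl 50 14 62)))))) (.rp 20 (.thr 11 56 (.thr 27 59 (.dbl 31 16 23))) (.rp 16 (.thr 56 11 (.thr 58 10 (.thr 57 59 (.thr 53 49 (.thr 54 52 (.dbl 50 14 62)))))) (.rp 11 (.thr 35 44 (.thr 31 16 (.thr 27 23 (.thr 51 3 (.thr 15 39 (.thr 48 37 (.dbl 50 14 49))))))) .nd))))))))))) (.rp 19 (.str 28 (.nv (.thr 31 16 (.thr 30 29 (.dbl 14 50 62))) (.rp 62 (.thr 44 35 (.thr 31 16 (.thr 29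 30 (.thr 12 60 (.thr 14 50 (.dbl 13 15 45)))))) (.rp 50 (.thr 44 35 (.thr 31 16 (.thr 30 29 (.thr 60 12 (.thr 15 45 (.thr 48 37 (.dbl 56 11 52))))))) (.rp 31 (.str 15 (.nv (.thr 14 50 (.thr 12 13 (.thr 30 62 (.dbl 60 44 45)))) (.nv (.thr 11 56 (.thr 7 3 (.thr 39 23 (.dbl 27 51 59)))) (.rp 27 (.str 23 (.nv (.thr 14 50 (.thr 12 13 (.dbl 44 35 60))) (.nv (.thr 7 39 (.dbl 11 3 56)) .nd))) (.rp 23 (.str 27 (.nv (.thr 37 48 (.dbl 39 36 51)) (.nv (.dbl 11 56 59) .nd))) (.rp 2 (.thr 44 35 (.thr 12 60 (.dbl 14 13 50))) .nd)))))) (.rp 30 (.thr 50 14 (.thr 58 10 (.thr 54 62 (.thr 53 52 (.thr 57 49 (.dbl 56 11 59)))))) (.rp 29 (.thr 50 14 (.thr 58 10 (.thr 54 62 (.thr 53 52 (.thr 57 49 (.dbl 56 11 59)))))) (.rp 18 (.thr 50 14 (.thr 58 10 (.thr 54 62 (.thr 53 52 (.thr 57 49 (.dbl 56 11 59))))))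 (.rp 17 (.thr 14 50 (.thr 30 62 (.dbl 31 16 29))) (.rp 16 (.thr 50 14 (.thr 58 10 (.thr 54 62 (.thr 53 52 (.thr 57 49 (.dbl 56 11 59)))))) (.rp 14 (.thr 44 35 (.thr 31 16 (.thr 30 29 (.thr 60 12 (.thr 15 45 (.thr 48 37 (.dbl 56 11 52))))))) .nd))))))))))) (.rp 15 (.thr 31 16 (.thr 50 14 (.thr 58 10 (.thr 54 62 (.thr 53 52 (.thr 57 49 (.dbl 56 11 59))))))) (.rp 14 (.thr 58 10 (.thr 56 11 (.thr 57 59 (.thr 53 49 (.thr 52 54 (.thr 48 60 (.dbl 37 5 15))))))) (.rp 11 (.thr 50 14 (.thr 58 10 (.thr 54 62 (.thr 53 52 (.thr 49 57 (.thr 48 51 (.dbl 37 5 15))))))) (.rp 10 (.thr 44 35 (.thr 31 16 (.thr 14 50 (.thr 30 62 (.thr 28 29 (.thr 60 12 (.thr 15 45 (.thr 48 37 (.dbl 56 11 52))))))))) .nd))))))))))))))))))))))))) (.rp 46 (.thr 4 55 (.str 12 (.nv (.thr 8 0 (.thr 40 43 (.thr 24 56 (.thr 44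 35 (.dbl 36 32 48))))) (.nv (.thr 0 8 (.thr 40 43 (.thr 60 20 (.dbl 44 28 35)))) (.rp 59 (.str 51 (.nv (.thr 0 8 (.thr 34 17 (.thr 35 44 (.thr 43 40 (.thr 47 39 (.dbl 32 33 37)))))) (.nv (.thr 0 8 (.thr 1 61 (.thr 3 2 (.dbl 35 19 44)))) (.rp 44 (.thr 40 43 (.thr 0 8 (.thr 20 60 (.thr 36 52 (.thr 37 39 (.thr 48 24 (.dbl 32 16 47))))))) (.rp 35 (.thr 40 43 (.thr 0 8 (.thr 20 60 (.thr 36 52 (.thr 32 44 (.dbl 37 39 47)))))) (.rp 28 (.str 19 (.nv (.dbl 35 3 44) (.rp 44 (.thr 0 8 (.thr 3 35 (.dbl 1 2 61))) (.rp 35 (.thr 0 8 (.thr 40 43 (.thr 20 60 (.thr 36 52 (.thr 32 44 (.dbl 37 39 47)))))) (.rp 3 (.thr 0 8 (.thr 43 40 (.thr 35 44 (.thr 47 39 (.thr 32 37 (.dbl 34 17 33)))))) .nd))))) (.rp 19 (.str 28 (.nv (.dbl 44 35 60) (.rp 60 (.thr 8 0 (.thr 44 35 (.thr 40 43 (.thr 36 32 (.dbl 24 48 56)))))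 (.rp 44 (.thr 0 8 (.thr 40 43 (.thr 20 60 (.thr 24 16 (.dbl 36 48 52))))) (.rp 35 (.thr 60 44 (.thr 0 8 (.dbl 40 20 43))) .nd))))) (.rp 8 (.thr 44 35 (.thr 40 43 (.thr 36 32 (.thr 20 52 (.dbl 60 0 28))))) (.rp 0 (.thr 44 35 (.thr 40 43 (.thr 36 32 (.thr 52 20 (.thr 48 24 (.dbl 60 28 56)))))) .nd))))))))) (.rp 51 (.str 59 (.nv (.thr 43 40 (.thr 11 27 (.thr 26 56 (.thr 10 58 (.dbl 8 0 9))))) (.nv (.thr 0 8 (.thr 40 43 (.thr 60 20 (.dbl 44 28 35)))) (.rp 43 (.thr 1 61 (.thr 0 8 (.thr 3 2 (.thr 6 9 (.thr 5 7 (.thr 37 53 (.thr 33 45 (.thr 48 18 (.dbl 36 24 39))))))))) (.rp 40 (.thr 1 61 (.thr 0 8 (.thr 3 2 (.thr 6 9 (.thr 5 7 (.thr 37 53 (.thr 33 45 (.thr 48 18 (.dbl 36 24 39))))))))) (.rp 28 (.str 19 (.nv (.thr 40 43 (.thr 0 8 (.thr 44 35 (.thr 36 32 (.dbl 20 52 60))))) (.nv (.thr 43 40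 (.thr 11 27 (.thr 26 56 (.thr 10 58 (.dbl 8 0 9))))) (.rp 43 (.thr 0 8 (.thr 1 61 (.thr 3 2 (.thr 9 6 (.thr 5 13 (.thr 37 53 (.thr 36 39 (.thr 48 24 (.dbl 32 16 47))))))))) (.rp 40 (.thr 0 8 (.thr 1 61 (.thr 3 2 (.thr 9 6 (.thr 5 13 (.thr 37 53 (.thr 36 39 (.thr 32 47 (.dbl 48 16 24))))))))) (.rp 39 (.thr 40 43 (.thr 0 8 (.thr 20 60 (.thr 36 52 (.dbl 44 32 35))))) (.rp 8 (.thr 43 40 (.thr 27 11 (.thr 31 23 (.thr 26 16 (.thr 10 58 (.thr 14 50 (.thr 6 2 (.thr 15 13 (.dbl 5 0 7))))))))) (.rp 0 (.thr 43 40 (.thr 11 27 (.thr 26 56 (.thr 10 58 (.thr 14 50 (.thr 6 2 (.dbl 9 3 8))))))) .nd)))))))) (.rp 19 (.str 28 (.nv (.dbl 44 35 60) (.rp 60 (.thr 43 40 (.thr 11 27 (.thr 26 56 (.thr 10 58 (.dbl 8 0 9))))) (.rp 44 (.thr 43 40 (.thr 11 27 (.thr 26 56 (.thr 10 58 (.dbl 8 0 9))))) (.rp 35 (.str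 3 (.nv (.thr 6 9 (.thr 43 40 (.thr 11 27 (.dbl 7 5 15)))) (.nv (.thr 0 8 (.dbl 1 2 61)) .nd))) (.rp 3 (.thr 35 44 (.thr 43 40 (.thr 11 27 (.thr 26 56 (.thr 10 58 (.dbl 8 0 9)))))) .nd)))))) (.rp 8 (.thr 40 43 (.thr 44 35 (.thr 36 32 (.thr 20 52 (.dbl 60 0 28))))) (.rp 0 (.thr 40 43 (.thr 44 35 (.thr 28 60 (.thr 36 32 (.thr 20 52 (.dbl 24 16 48)))))) .nd))))))))) (.rp 44 (.thr 0 8 (.thr 40 43 (.thr 20 60 (.thr 36 52 (.thr 37 39 (.thr 48 24 (.dbl 32 16 47))))))) (.rp 43 (.thr 0 8 (.thr 1 61 (.thr 3 2 (.thr 6 9 (.thr 5 7 (.thr 37 53 (.thr 33 45 (.thr 48 18 (.dbl 15 10 26))))))))) (.rp 40 (.thr 0 8 (.thr 1 61 (.thr 3 2 (.thr 6 9 (.thr 5 7 (.thr 37 53 (.thr 33 45 (.thr 48 18 (.dbl 15 10 26))))))))) (.rp 35 (.thr 8 0 (.thr 40 43 (.thr 24 56 (.thr 36 48 (.thr 32 44 (.dbl 37 39 47)))))) (.rp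 28 (.str 19 (.nv (.thr 8 0 (.thr 40 43 (.thr 24 56 (.thr 44 35 (.dbl 36 32 48))))) (.nv (.thr 1 61 (.thr 0 8 (.thr 3 2 (.dbl 35 44 51)))) (.rp 59 (.str 51 (.nv (.dbl 35 3 44) (.rp 44 (.thr 0 8 (.thr 3 35 (.dbl 1 2 61))) (.rp 35 (.thr 0 8 (.thr 40 43 (.thr 20 60 (.thr 36 52 (.thr 32 44 (.dbl 37 39 47)))))) (.rp 3 (.thr 0 8 (.thr 43 40 (.thr 35 44 (.thr 47 39 (.thr 32 37 (.dbl 34 17 33)))))) .nd))))) (.rp 51 (.str 59 (.nv (.thr 40 43 (.thr 0 8 (.thr 44 35 (.thr 36 32 (.dbl 20 52 60))))) (.nv (.thr 43 40 (.thr 11 27 (.thr 26 56 (.thr 10 58 (.dbl 8 0 9))))) (.rp 43 (.thr 0 8 (.thr 1 61 (.thr 3 2 (.thr 9 6 (.thr 5 13 (.thr 37 53 (.thr 36 39 (.thr 48 24 (.dbl 32 16 47))))))))) (.rp 40 (.thr 0 8 (.thr 1 61 (.thr 3 2 (.thr 9 6 (.thr 5 13 (.thr 37 53 (.thr 36 39 (.thr 32 47 (.dbl 48 16 24)))))))))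 (.rp 39 (.thr 40 43 (.thr 0 8 (.thr 20 60 (.thr 36 52 (.dbl 44 32 35))))) (.rp 8 (.thr 43 40 (.thr 27 11 (.thr 31 23 (.thr 26 16 (.thr 10 58 (.thr 14 50 (.thr 6 2 (.thr 15 13 (.dbl 5 0 7))))))))) (.rp 0 (.thr 43 40 (.thr 11 27 (.thr 26 56 (.thr 10 58 (.thr 14 50 (.thr 6 2 (.dbl 9 3 8))))))) .nd)))))))) (.rp 44 (.thr 0 8 (.thr 40 43 (.thr 20 60 (.thr 36 52 (.thr 37 39 (.thr 48 24 (.dbl 32 16 47))))))) (.rp 35 (.thr 8 0 (.thr 40 43 (.thr 24 56 (.thr 36 48 (.thr 32 44 (.dbl 37 39 47)))))) (.rp 8 (.thr 35 44 (.thr 43 40 (.thr 47 39 (.thr 32 37 (.thr 33 34 (.thr 51 3 (.thr 1 61 (.thr 49 17 (.thr 48 50 (.thr 16 0 (.thr 26 31 (.thr 56 11 (.thr 36 24 (.dbl 52 20 60)))))))))))))) (.rp 3 (.thr 0 8 (.thr 35 44 (.thr 43 40 (.thr 47 39 (.thr 32 37 (.thr 33 34 (.thr 1 61 (.thr 16 48 (.dbl 17 18 49)))))))))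 (.rp 0 (.thr 35 44 (.thr 43 40 (.thr 47 39 (.thr 32 37 (.thr 33 34 (.thr 51 3 (.thr 1 61 (.thr 49 17 (.thr 50 48 (.thr 26 14 (.thr 31 16 (.thr 11 56 (.dbl 27 23 59))))))))))))) .nd)))))))))) (.rp 23 (.thr 0 8 (.thr 44 35 (.thr 1 61 (.thr 3 2 (.thr 40 43 (.dbl 60 20 28)))))) (.rp 19 (.str 28 (.nv (.dbl 44 35 60) (.rp 60 (.thr 8 0 (.thr 40 43 (.thr 44 35 (.thr 36 32 (.dbl 24 48 56))))) (.rp 59 (.str 51 (.nv (.dbl 44 35 60) (.rp 60 (.thr 8 0 (.thr 44 35 (.thr 40 43 (.thr 36 32 (.dbl 24 48 56))))) (.rp 44 (.thr 0 8 (.thr 40 43 (.thr 20 60 (.thr 24 16 (.dbl 36 48 52))))) (.rp 35 (.thr 60 44 (.thr 0 8 (.dbl 40 20 43))) .nd))))) (.rp 51 (.str 59 (.nv (.dbl 44 35 60) (.rp 60 (.thr 43 40 (.thr 11 27 (.thr 26 56 (.thr 10 58 (.dbl 8 0 9))))) (.rp 44 (.thr 43 40 (.thr 11 27 (.thr 26 56 (.thr 10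 58 (.dbl 8 0 9))))) (.rp 35 (.str 3 (.nv (.thr 6 9 (.thr 43 40 (.thr 11 27 (.dbl 7 5 15)))) (.nv (.thr 0 8 (.dbl 1 2 61)) .nd))) (.rp 3 (.thr 35 44 (.thr 43 40 (.thr 11 27 (.thr 26 56 (.thr 10 58 (.dbl 8 0 9)))))) .nd)))))) (.rp 44 (.thr 8 0 (.thr 40 43 (.thr 24 56 (.thr 20 16 (.dbl 36 48 52))))) (.rp 35 (.thr 0 8 (.thr 40 43 (.dbl 60 20 44))) .nd))))))) (.rp 8 (.thr 40 43 (.thr 44 35 (.thr 36 32 (.thr 20 52 (.dbl 60 0 28))))) (.rp 3 (.thr 0 8 (.thr 43 40 (.thr 35 44 (.thr 47 39 (.thr 32 37 (.thr 16 48 (.thr 26 31 (.thr 50 14 (.thr 34 33 (.thr 18 2 (.dbl 17 19 51))))))))))) (.rp 0 (.thr 40 43 (.thr 44 35 (.thr 36 32 (.thr 28 60 (.thr 20 52 (.dbl 24 16 48)))))) .nd)))))))))))))))) (.rp 45 (.thr 43 40 (.thr 35 44 (.thr 34 46 (.thr 47 39 (.dbl 32 33 37))))) (.rp 44 (.thr 46 34 (.thr 61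 1 (.str 26 (.nv (.thr 50 14 (.thr 55 4 (.thr 56 11 (.thr 58 10 (.thr 57 59 (.thr 53 49 (.dbl 54 52 62))))))) (.nv (.thr 4 55 (.thr 10 58 (.thr 11 56 (.thr 8 9 (.thr 0 12 (.thr 16 31 (.thr 48 32 (.dbl 15 5 37)))))))) (.nv (.thr 31 16 (.thr 56 11 (.thr 58 10 (.thr 57 59 (.thr 55 4 (.thr 50 14 (.thr 54 62 (.dbl 53 49 52)))))))) (.rp 59 (.thr 58 10 (.thr 55 4 (.thr 50 14 (.thr 54 62 (.thr 53 52 (.thr 37 5 (.thr 49 57 (.dbl 48 15 51)))))))) (.rp 58 (.thr 40 43 (.thr 56 11 (.thr 8 24 (.thr 4 55 (.thr 16 31 (.thr 0 12 (.thr 60 20 (.dbl 48 32 52)))))))) (.rp 57 (.thr 40 43 (.thr 56 11 (.thr 8 24 (.thr 4 55 (.thr 16 31 (.thr 0 12 (.thr 60 20 (.dbl 48 32 52)))))))) (.rp 56 (.thr 58 10 (.thr 55 4 (.thr 50 14 (.thr 54 62 (.thr 53 52 (.thr 37 5 (.thr 49 57 (.dbl 48 15 51)))))))) (.rp 55 (.thr 58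 10 (.thr 56 11 (.thr 50 14 (.thr 54 62 (.thr 57 59 (.thr 51 60 (.dbl 49 48 53))))))) (.rp 53 (.thr 40 43 (.thr 56 11 (.thr 8 24 (.thr 4 55 (.thr 16 31 (.thr 0 12 (.thr 60 20 (.dbl 48 32 52)))))))) (.rp 28 (.str 19 (.nv (.thr 11 56 (.thr 31 16 (.thr 27 23 (.dbl 43 40 59)))) (.rp 60 (.str 12 (.nv (.thr 4 55 (.thr 0 8 (.thr 14 50 (.thr 15 13 (.dbl 10 5 58))))) (.nv (.thr 31 16 (.thr 11 56 (.thr 27 23 (.dbl 43 40 59)))) (.rp 59 (.thr 10 58 (.thr 14 50 (.thr 15 13 (.thr 5 0 (.dbl 37 48 53))))) .nd)))) (.rp 59 (.thr 43 40 (.thr 31 16 (.thr 23 27 (.thr 55 4 (.thr 39 7 (.thr 47 35 (.dbl 37 32 36))))))) (.rp 56 (.thr 43 40 (.thr 31 16 (.thr 23 27 (.thr 55 4 (.thr 39 7 (.thr 47 35 (.dbl 37 32 36))))))) (.rp 43 (.thr 56 11 (.thr 58 10 (.thr 50 14 (.thr 54 62 (.thr 55 4 (.thr 53 52 (.dbl 57 49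 59))))))) (.rp 40 (.thr 56 11 (.thr 58 10 (.thr 57 59 (.thr 49 53 (.thr 50 14 (.thr 54 62 (.dbl 51 48 60))))))) (.rp 31 (.thr 56 11 (.thr 58 10 (.thr 57 59 (.thr 49 53 (.thr 50 14 (.thr 54 62 (.dbl 51 48 60))))))) (.rp 27 (.thr 56 11 (.thr 58 10 (.thr 50 14 (.thr 54 62 (.thr 55 4 (.thr 53 52 (.dbl 57 49 59))))))) (.rp 24 (.thr 56 11 (.thr 58 10 (.thr 57 59 (.thr 49 53 (.thr 50 14 (.thr 54 62 (.dbl 51 48 60))))))) (.rp 23 (.thr 56 11 (.thr 58 10 (.thr 57 59 (.thr 49 53 (.thr 50 14 (.thr 54 62 (.dbl 51 48 60))))))) (.rp 20 (.thr 43 40 (.thr 11 56 (.thr 27 59 (.dbl 31 16 23)))) (.rp 16 (.thr 56 11 (.thr 58 10 (.thr 57 59 (.thr 49 53 (.thr 50 14 (.thr 54 62 (.dbl 51 48 60))))))) (.rp 12 (.str 60 (.nv (.thr 14 50 (.thr 30 62 (.thr 15 45 (.thr 48 37 (.dbl 56 11 52))))) (.nv (.thr 11 56 (.thr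 31 16 (.thr 27 23 (.dbl 43 40 59)))) (.rp 56 (.thr 40 43 (.thr 16 31 (.thr 10 58 (.thr 0 20 (.thr 48 32 (.dbl 15 5 37)))))) (.rp 11 (.thr 40 43 (.thr 16 31 (.thr 10 58 (.thr 0 20 (.thr 48 32 (.dbl 15 5 37)))))) .nd))))) (.rp 11 (.thr 43 40 (.thr 31 16 (.thr 23 27 (.thr 55 4 (.thr 39 7 (.thr 47 35 (.dbl 37 32 36))))))) .nd))))))))))))))) (.rp 19 (.str 28 (.nv (.thr 16 31 (.thr 24 20 (.thr 40 43 (.dbl 56 8 11)))) (.nv (.thr 31 16 (.thr 30 29 (.dbl 14 50 62))) (.rp 31 (.thr 40 43 (.thr 56 11 (.thr 24 8 (.thr 4 55 (.thr 20 16 (.thr 52 36 (.dbl 60 0 48))))))) (.rp 16 (.thr 14 50 (.thr 30 62 (.thr 29 31 (.thr 45 13 (.thr 15 60 (.dbl 37 33 48)))))) .nd))))) (.rp 11 (.thr 58 10 (.thr 55 4 (.thr 50 14 (.thr 54 62 (.thr 53 52 (.thr 37 5 (.thr 49 57 (.dbl 48 15 51)))))))) (.rp 10 (.thr 40 43 (.thr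 56 11 (.thr 8 24 (.thr 4 55 (.thr 16 31 (.thr 0 12 (.thr 60 20 (.dbl 48 32 52)))))))) (.rp 9 (.thr 58 10 (.thr 55 4 (.thr 50 14 (.thr 54 62 (.thr 53 52 (.thr 57 49 (.dbl 56 11 59))))))) (.rp 8 (.thr 58 10 (.thr 55 4 (.thr 50 14 (.thr 54 62 (.thr 53 52 (.thr 57 49 (.dbl 56 11 59))))))) (.rp 6 (.thr 58 10 (.thr 56 11 (.thr 57 59 (.thr 55 4 (.thr 53 49 (.thr 54 52 (.dbl 50 14 62))))))) (.rp 4 (.thr 58 10 (.thr 56 11 (.thr 57 59 (.thr 49 53 (.thr 50 14 (.thr 54 62 (.dbl 51 48 60))))))) .nd)))))))))))))))))))) (.rp 43 (.thr 1 61 (.str 3 (.nv (.thr 2 0 (.thr 34 46 (.thr 18 50 (.thr 35 44 (.dbl 33 32 48))))) (.nv (.thr 0 2 (.thr 34 46 (.thr 51 17 (.dbl 35 19 44)))) (.rp 62 (.str 60 (.nv (.thr 2 0 (.thr 34 46 (.thr 18 50 (.thr 35 44 (.dbl 33 32 48))))) (.nv (.thr 0 2 (.thr 4 55 (.thr 12 8 (.dbl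 44 28 35)))) (.rp 44 (.thr 34 46 (.thr 0 2 (.thr 17 51 (.thr 33 49 (.thr 32 35 (.dbl 37 45 47)))))) (.rp 35 (.thr 34 46 (.thr 0 2 (.thr 17 51 (.thr 33 49 (.thr 37 45 (.thr 48 18 (.dbl 32 16 47))))))) (.rp 28 (.str 19 (.nv (.dbl 35 44 51) (.rp 51 (.thr 2 0 (.thr 35 44 (.thr 34 46 (.thr 33 32 (.dbl 18 48 50))))) (.rp 44 (.thr 51 35 (.thr 0 2 (.dbl 34 17 46))) (.rp 35 (.thr 0 2 (.thr 34 46 (.thr 17 51 (.thr 18 16 (.dbl 33 48 49))))) .nd))))) (.rp 19 (.str 28 (.nv (.dbl 44 12 35) (.rp 44 (.thr 0 2 (.thr 34 46 (.thr 17 51 (.thr 33 49 (.thr 32 35 (.dbl 37 45 47)))))) (.rp 35 (.thr 0 2 (.thr 12 44 (.dbl 4 8 55))) (.rp 12 (.thr 0 2 (.thr 46 34 (.thr 44 35 (.thr 47 45 (.thr 32 37 (.dbl 40 20 36)))))) .nd))))) (.rp 12 (.thr 44 35 (.thr 46 34 (.thr 47 45 (.thr 32 37 (.thr 40 36 (.dbl 0 2 20))))))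 (.rp 2 (.thr 35 44 (.thr 34 46 (.thr 33 32 (.thr 17 49 (.dbl 51 0 19))))) (.rp 0 (.thr 35 44 (.thr 34 46 (.thr 33 32 (.thr 49 17 (.thr 48 18 (.dbl 51 19 50)))))) .nd)))))))))) (.rp 60 (.str 62 (.nv (.thr 46 34 (.thr 14 30 (.thr 26 50 (.thr 10 58 (.dbl 2 0 6))))) (.nv (.thr 0 2 (.thr 34 46 (.thr 51 17 (.dbl 35 19 44)))) (.rp 46 (.thr 4 55 (.thr 0 2 (.thr 12 8 (.thr 9 6 (.thr 5 13 (.thr 37 53 (.thr 36 39 (.thr 48 24 (.dbl 33 18 45))))))))) (.rp 34 (.thr 4 55 (.thr 0 2 (.thr 12 8 (.thr 9 6 (.thr 5 13 (.thr 37 53 (.thr 36 39 (.thr 48 24 (.dbl 33 18 45))))))))) (.rp 28 (.str 19 (.nv (.dbl 35 44 51) (.rp 51 (.thr 46 34 (.thr 14 30 (.thr 26 50 (.thr 10 58 (.dbl 2 0 6))))) (.rp 44 (.str 12 (.nv (.thr 9 6 (.thr 46 34 (.thr 14 30 (.dbl 13 5 15)))) (.nv (.thr 0 2 (.dbl 4 8 55)) .nd))) (.rp 35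 (.thr 46 34 (.thr 14 30 (.thr 26 50 (.thr 10 58 (.dbl 2 0 6))))) (.rp 12 (.thr 44 35 (.thr 46 34 (.thr 14 30 (.thr 26 50 (.thr 10 58 (.dbl 2 0 6)))))) .nd)))))) (.rp 19 (.str 28 (.nv (.thr 34 46 (.thr 0 2 (.thr 35 44 (.thr 33 32 (.dbl 17 49 51))))) (.nv (.thr 46 34 (.thr 14 30 (.thr 26 50 (.thr 10 58 (.dbl 2 0 6))))) (.rp 46 (.thr 0 2 (.thr 4 55 (.thr 12 8 (.thr 6 9 (.thr 5 7 (.thr 37 53 (.thr 33 45 (.thr 48 18 (.dbl 32 16 47))))))))) (.rp 45 (.thr 34 46 (.thr 0 2 (.thr 17 51 (.thr 33 49 (.dbl 35 32 44))))) (.rp 34 (.thr 0 2 (.thr 4 55 (.thr 12 8 (.thr 6 9 (.thr 5 7 (.thr 37 53 (.thr 33 45 (.thr 32 47 (.dbl 48 16 18))))))))) (.rp 2 (.thr 46 34 (.thr 30 14 (.thr 31 29 (.thr 26 16 (.thr 10 58 (.thr 11 56 (.thr 9 8 (.thr 15 7 (.dbl 5 0 13))))))))) (.rp 0 (.thr 46 34 (.thr 14 30 (.thr 26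 50 (.thr 10 58 (.thr 11 56 (.thr 9 8 (.dbl 6 2 12))))))) .nd)))))))) (.rp 2 (.thr 34 46 (.thr 35 44 (.thr 33 32 (.thr 17 49 (.dbl 51 0 19))))) (.rp 0 (.thr 34 46 (.thr 35 44 (.thr 19 51 (.thr 33 32 (.thr 17 49 (.dbl 18 16 48)))))) .nd))))))))) (.rp 46 (.thr 0 2 (.thr 4 55 (.thr 12 8 (.thr 9 6 (.thr 5 13 (.thr 37 53 (.thr 36 39 (.thr 48 24 (.dbl 15 10 26))))))))) (.rp 44 (.thr 2 0 (.thr 34 46 (.thr 18 50 (.thr 33 48 (.thr 32 35 (.dbl 37 45 47)))))) (.rp 35 (.thr 0 2 (.thr 34 46 (.thr 17 51 (.thr 33 49 (.thr 37 45 (.thr 48 18 (.dbl 32 16 47))))))) (.rp 34 (.thr 0 2 (.thr 4 55 (.thr 12 8 (.thr 9 6 (.thr 5 13 (.thr 37 53 (.thr 36 39 (.thr 48 24 (.dbl 15 10 26))))))))) (.rp 29 (.thr 0 2 (.thr 35 44 (.thr 4 55 (.thr 12 8 (.thr 34 46 (.dbl 51 17 19)))))) (.rp 28 (.str 19 (.nv (.dbl 35 44 51)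 (.rp 62 (.str 60 (.nv (.dbl 35 44 51) (.rp 51 (.thr 2 0 (.thr 35 44 (.thr 34 46 (.thr 33 32 (.dbl 18 48 50))))) (.rp 44 (.thr 51 35 (.thr 0 2 (.dbl 34 17 46))) (.rp 35 (.thr 0 2 (.thr 34 46 (.thr 17 51 (.thr 18 16 (.dbl 33 48 49))))) .nd))))) (.rp 60 (.str 62 (.nv (.dbl 35 44 51) (.rp 51 (.thr 46 34 (.thr 14 30 (.thr 26 50 (.thr 10 58 (.dbl 2 0 6))))) (.rp 44 (.str 12 (.nv (.thr 9 6 (.thr 46 34 (.thr 14 30 (.dbl 13 5 15)))) (.nv (.thr 0 2 (.dbl 4 8 55)) .nd))) (.rp 35 (.thr 46 34 (.thr 14 30 (.thr 26 50 (.thr 10 58 (.dbl 2 0 6))))) (.rp 12 (.thr 44 35 (.thr 46 34 (.thr 14 30 (.thr 26 50 (.thr 10 58 (.dbl 2 0 6)))))) .nd)))))) (.rp 51 (.thr 2 0 (.thr 34 46 (.thr 35 44 (.thr 33 32 (.dbl 18 48 50))))) (.rp 44 (.thr 0 2 (.thr 34 46 (.dbl 51 17 35))) (.rp 35 (.thr 2 0 (.thr 34 46 (.thr 18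 50 (.thr 17 16 (.dbl 33 48 49))))) .nd))))))) (.rp 19 (.str 28 (.nv (.thr 2 0 (.thr 34 46 (.thr 18 50 (.thr 35 44 (.dbl 33 32 48))))) (.nv (.thr 4 55 (.thr 0 2 (.thr 12 8 (.dbl 44 35 60)))) (.rp 62 (.str 60 (.nv (.dbl 44 12 35) (.rp 44 (.thr 0 2 (.thr 34 46 (.thr 17 51 (.thr 33 49 (.thr 32 35 (.dbl 37 45 47)))))) (.rp 35 (.thr 0 2 (.thr 12 44 (.dbl 4 8 55))) (.rp 12 (.thr 0 2 (.thr 46 34 (.thr 44 35 (.thr 47 45 (.thr 32 37 (.dbl 40 20 36)))))) .nd))))) (.rp 60 (.str 62 (.nv (.thr 34 46 (.thr 0 2 (.thr 35 44 (.thr 33 32 (.dbl 17 49 51))))) (.nv (.thr 46 34 (.thr 14 30 (.thr 26 50 (.thr 10 58 (.dbl 2 0 6))))) (.rp 46 (.thr 0 2 (.thr 4 55 (.thr 12 8 (.thr 6 9 (.thr 5 7 (.thr 37 53 (.thr 33 45 (.thr 48 18 (.dbl 32 16 47))))))))) (.rp 45 (.thr 34 46 (.thr 0 2 (.thr 17 51 (.thr 33 49 (.dbl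 35 32 44))))) (.rp 34 (.thr 0 2 (.thr 4 55 (.thr 12 8 (.thr 6 9 (.thr 5 7 (.thr 37 53 (.thr 33 45 (.thr 32 47 (.dbl 48 16 18))))))))) (.rp 2 (.thr 46 34 (.thr 30 14 (.thr 31 29 (.thr 26 16 (.thr 10 58 (.thr 11 56 (.thr 9 8 (.thr 15 7 (.dbl 5 0 13))))))))) (.rp 0 (.thr 46 34 (.thr 14 30 (.thr 26 50 (.thr 10 58 (.thr 11 56 (.thr 9 8 (.dbl 6 2 12))))))) .nd)))))))) (.rp 44 (.thr 2 0 (.thr 34 46 (.thr 18 50 (.thr 33 48 (.thr 32 35 (.dbl 37 45 47)))))) (.rp 35 (.thr 0 2 (.thr 34 46 (.thr 17 51 (.thr 33 49 (.thr 37 45 (.thr 48 18 (.dbl 32 16 47))))))) (.rp 12 (.thr 0 2 (.thr 44 35 (.thr 46 34 (.thr 47 45 (.thr 32 37 (.thr 36 40 (.thr 4 55 (.thr 16 48 (.dbl 20 24 52))))))))) (.rp 2 (.thr 44 35 (.thr 46 34 (.thr 47 45 (.thr 32 37 (.thr 36 40 (.thr 60 12 (.thr 4 55 (.thr 52 20 (.thr 48 56 (.thr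 16 0 (.thr 26 31 (.thr 50 14 (.thr 33 18 (.dbl 49 17 51)))))))))))))) (.rp 0 (.thr 44 35 (.thr 46 34 (.thr 47 45 (.thr 32 37 (.thr 36 40 (.thr 60 12 (.thr 4 55 (.thr 52 20 (.thr 56 48 (.thr 26 11 (.thr 31 16 (.thr 14 50 (.dbl 30 29 62))))))))))))) .nd)))))))))) (.rp 12 (.thr 0 2 (.thr 46 34 (.thr 44 35 (.thr 47 45 (.thr 32 37 (.thr 16 48 (.thr 26 31 (.thr 56 11 (.thr 40 36 (.thr 24 8 (.dbl 20 28 60))))))))))) (.rp 2 (.thr 34 46 (.thr 35 44 (.thr 33 32 (.thr 17 49 (.dbl 51 0 19))))) (.rp 0 (.thr 34 46 (.thr 35 44 (.thr 33 32 (.thr 19 51 (.thr 17 49 (.dbl 18 16 48)))))) .nd)))))))))))))))) (.rp 40 (.thr 61 1 (.thr 55 4 (.thr 46 34 (.str 26 (.nv (.thr 50 14 (.thr 58 10 (.thr 54 62 (.thr 53 52 (.thr 57 49 (.dbl 56 11 59)))))) (.nv (.thr 14 50 (.thr 44 35 (.thr 45 47 (.thr 13 29 (.thr 15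 12 (.dbl 37 33 48)))))) (.nv (.thr 56 11 (.thr 58 10 (.thr 57 59 (.thr 50 14 (.thr 54 62 (.dbl 53 49 52)))))) (.rp 50 (.thr 44 35 (.thr 45 47 (.thr 58 10 (.thr 56 11 (.thr 57 59 (.thr 53 49 (.dbl 37 5 33))))))) (.rp 28 (.str 19 (.nv (.thr 14 50 (.thr 30 62 (.thr 44 35 (.thr 45 47 (.thr 13 29 (.dbl 15 12 60)))))) (.nv (.thr 50 14 (.thr 58 10 (.thr 54 62 (.thr 56 11 (.thr 57 59 (.dbl 53 49 52)))))) (.nv (.thr 31 16 (.thr 23 27 (.thr 44 35 (.thr 45 47 (.thr 39 7 (.dbl 37 33 36)))))) .nd)))) (.rp 19 (.str 28 (.nv (.thr 14 50 (.thr 30 62 (.thr 44 35 (.thr 60 12 (.dbl 45 15 47))))) (.nv (.thr 44 35 (.thr 45 47 (.thr 29 13 (.dbl 31 16 30)))) (.nv (.thr 31 16 (.thr 30 29 (.dbl 14 50 62))) (.rp 30 (.thr 44 35 (.thr 45 47 (.thr 12 60 (.thr 13 29 (.dbl 14 15 50))))) .nd))))) (.rp 14 (.thr 44 35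 (.thr 45 47 (.thr 58 10 (.thr 56 11 (.thr 57 59 (.thr 53 49 (.dbl 37 5 33))))))) (.rp 2 (.thr 58 10 (.thr 56 11 (.thr 57 59 (.thr 53 49 (.thr 54 52 (.dbl 50 14 62)))))) .nd)))))))))))) (.rp 39 (.thr 40 43 (.thr 46 34 (.thr 44 35 (.thr 47 45 (.dbl 32 36 37))))) (.rp 37 (.str 0 (.nv (.thr 40 43 (.thr 20 60 (.thr 44 35 (.thr 36 32 (.dbl 4 52 55))))) (.nv (.thr 34 46 (.thr 17 51 (.thr 35 44 (.thr 33 32 (.dbl 1 49 61))))) (.nv (.thr 1 61 (.thr 3 2 (.thr 34 46 (.thr 35 44 (.dbl 51 17 19))))) (.nv (.thr 4 55 (.thr 12 8 (.thr 40 43 (.thr 60 20 (.dbl 44 28 35))))) (.rp 52 .ext (.rp 49 .ext (.rp 44 (.thr 40 43 (.thr 60 20 (.thr 4 55 (.thr 8 12 (.thr 56 24 (.thr 26 11 (.thr 16 31 (.dbl 48 32 52)))))))) (.rp 35 (.thr 40 43 (.thr 60 20 (.thr 4 55 (.thr 8 12 (.thr 56 24 (.thr 26 11 (.thr 16 31 (.dbl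 48 32 52)))))))) (.rp 28 .ext (.rp 19 .ext (.rp 13 .ext (.rp 7 (.str 52 (.nv (.thr 40 43 (.thr 44 35 (.thr 36 32 (.dbl 4 20 55)))) (.nv (.thr 1 61 (.thr 3 2 (.thr 34 46 (.thr 35 44 (.dbl 51 17 19))))) (.nv (.thr 4 55 (.thr 20 36 (.dbl 40 43 60))) (.rp 49 (.str 13 (.nv (.thr 44 35 (.thr 46 34 (.thr 61 1 (.dbl 45 29 47)))) (.nv (.thr 4 55 (.thr 20 36 (.dbl 40 43 60))) (.rp 28 (.str 19 (.nv (.thr 40 43 (.thr 44 35 (.thr 36 32 (.dbl 4 20 55)))) (.nv (.thr 4 55 (.thr 20 36 (.dbl 40 43 60))) (.nv (.thr 1 61 (.thr 3 2 (.dbl 35 44 51))) .nd)))) (.rp 19 (.str 28 (.nv (.thr 4 55 (.thr 20 36 (.dbl 40 43 60))) (.nv (.thr 46 34 (.thr 61 1 (.thr 45 29 (.dbl 44 35 47)))) (.nv (.thr 40 43 (.thr 60 20 (.dbl 44 12 35))) .nd)))) .nd))))) (.rp 28 (.str 19 (.nv (.thr 4 55 (.thr 20 36 (.dbl 40 43 60))) (.nv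 (.thr 34 46 (.thr 51 17 (.dbl 35 3 44))) (.rp 51 (.thr 40 43 (.thr 20 60 (.dbl 4 36 55))) (.rp 49 (.str 13 (.nv (.thr 40 43 (.thr 44 35 (.thr 36 32 (.dbl 4 20 55)))) (.nv (.thr 4 55 (.thr 20 36 (.dbl 40 43 60))) (.nv (.thr 1 61 (.thr 3 2 (.dbl 35 44 51))) .nd)))) (.rp 13 (.str 49 (.nv (.thr 34 46 (.thr 35 44 (.dbl 51 3 17))) (.nv (.thr 55 4 (.thr 53 54 (.dbl 61 1 57))) .nd))) .nd)))))) (.rp 19 (.str 28 (.nv (.thr 4 55 (.thr 20 36 (.dbl 40 43 60))) (.nv (.thr 1 61 (.thr 34 46 (.thr 17 51 (.thr 35 44 (.dbl 33 32 49))))) (.nv (.thr 40 43 (.thr 60 20 (.dbl 44 12 35))) (.rp 60 (.thr 4 55 (.thr 36 20 (.thr 44 35 (.dbl 40 32 43)))) (.rp 49 (.str 13 (.nv (.thr 4 55 (.thr 20 36 (.dbl 40 43 60))) (.nv (.thr 46 34 (.thr 61 1 (.thr 45 29 (.dbl 44 35 47)))) (.nv (.thr 40 43 (.thr 60 20 (.dbl 44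 12 35))) .nd)))) (.rp 13 (.str 49 (.nv (.thr 40 43 (.thr 44 35 (.dbl 60 12 20))) (.nv (.thr 61 1 (.thr 53 57 (.dbl 55 4 54))) .nd))) .nd))))))) (.rp 13 (.str 49 (.nv (.thr 34 46 (.thr 35 44 (.thr 33 32 (.dbl 17 1 51)))) (.nv (.thr 55 4 (.thr 53 54 (.dbl 61 1 57))) (.rp 28 (.str 19 (.nv (.thr 34 46 (.thr 35 44 (.dbl 51 3 17))) (.nv (.thr 55 4 (.thr 53 54 (.dbl 61 1 57))) .nd))) (.rp 19 (.str 28 (.nv (.thr 40 43 (.thr 44 35 (.dbl 60 12 20))) (.nv (.thr 61 1 (.thr 53 57 (.dbl 55 4 54))) .nd))) (.rp 1 (.thr 4 55 (.thr 20 36 (.dbl 40 43 60))) .nd)))))) .nd)))))))) .nd))))))))))))) (.rp 35 (.thr 43 40 (.thr 55 4 (.str 26 (.nv (.thr 31 16 (.thr 50 14 (.thr 58 10 (.thr 54 62 (.thr 61 1 (.thr 56 11 (.thr 57 59 (.dbl 53 49 52)))))))) (.nv (.thr 1 61 (.thr 10 58 (.thr 14 50 (.thr 2 6 (.thr 0 3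 (.thr 16 31 (.thr 48 32 (.dbl 15 5 37)))))))) (.nv (.thr 50 14 (.thr 56 11 (.thr 58 10 (.thr 57 59 (.thr 61 1 (.thr 53 49 (.dbl 54 52 62))))))) (.rp 62 (.thr 58 10 (.thr 61 1 (.thr 56 11 (.thr 57 59 (.thr 53 49 (.thr 37 5 (.thr 52 54 (.dbl 48 15 60)))))))) (.rp 61 (.thr 58 10 (.thr 50 14 (.thr 56 11 (.thr 57 59 (.thr 54 62 (.thr 60 51 (.dbl 52 48 53))))))) (.rp 58 (.thr 34 46 (.thr 50 14 (.thr 2 18 (.thr 1 61 (.thr 16 31 (.thr 0 3 (.thr 51 17 (.dbl 48 32 49)))))))) (.rp 54 (.thr 34 46 (.thr 50 14 (.thr 2 18 (.thr 1 61 (.thr 16 31 (.thr 0 3 (.thr 51 17 (.dbl 48 32 49)))))))) (.rp 53 (.thr 34 46 (.thr 50 14 (.thr 2 18 (.thr 1 61 (.thr 16 31 (.thr 0 3 (.thr 51 17 (.dbl 48 32 49)))))))) (.rp 50 (.thr 58 10 (.thr 61 1 (.thr 56 11 (.thr 57 59 (.thr 53 49 (.thr 37 5 (.thr 52 54 (.dbl 48 15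 60)))))))) (.rp 28 (.str 19 (.nv (.thr 16 31 (.thr 18 17 (.thr 34 46 (.dbl 50 2 14)))) (.nv (.thr 31 16 (.thr 27 23 (.dbl 11 56 59))) (.rp 31 (.thr 34 46 (.thr 50 14 (.thr 18 2 (.thr 1 61 (.thr 17 16 (.thr 49 33 (.dbl 51 0 48))))))) (.rp 16 (.thr 11 56 (.thr 27 59 (.thr 23 31 (.thr 39 7 (.thr 15 51 (.dbl 37 36 48)))))) .nd))))) (.rp 19 (.str 28 (.nv (.thr 14 50 (.thr 31 16 (.thr 30 29 (.dbl 46 34 62)))) (.rp 62 (.thr 46 34 (.thr 31 16 (.thr 29 30 (.thr 61 1 (.thr 45 13 (.thr 47 44 (.dbl 37 32 33))))))) (.rp 51 (.str 3 (.nv (.thr 1 61 (.thr 0 2 (.thr 11 56 (.thr 15 7 (.dbl 10 5 58))))) (.nv (.thr 31 16 (.thr 14 50 (.thr 30 29 (.dbl 46 34 62)))) (.rp 62 (.thr 10 58 (.thr 11 56 (.thr 15 7 (.thr 5 0 (.dbl 37 48 53))))) .nd)))) (.rp 50 (.thr 46 34 (.thr 31 16 (.thr 29 30 (.thr 61 1 (.thr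 45 13 (.thr 47 44 (.dbl 37 32 33))))))) (.rp 46 (.thr 50 14 (.thr 58 10 (.thr 56 11 (.thr 57 59 (.thr 61 1 (.thr 53 49 (.dbl 54 52 62))))))) (.rp 34 (.thr 50 14 (.thr 58 10 (.thr 54 62 (.thr 52 53 (.thr 56 11 (.thr 57 59 (.dbl 60 48 51))))))) (.rp 31 (.thr 50 14 (.thr 58 10 (.thr 54 62 (.thr 52 53 (.thr 56 11 (.thr 57 59 (.dbl 60 48 51))))))) (.rp 30 (.thr 50 14 (.thr 58 10 (.thr 56 11 (.thr 57 59 (.thr 61 1 (.thr 53 49 (.dbl 54 52 62))))))) (.rp 29 (.thr 50 14 (.thr 58 10 (.thr 54 62 (.thr 52 53 (.thr 56 11 (.thr 57 59 (.dbl 60 48 51))))))) (.rp 18 (.thr 50 14 (.thr 58 10 (.thr 54 62 (.thr 52 53 (.thr 56 11 (.thr 57 59 (.dbl 60 48 51))))))) (.rp 17 (.thr 46 34 (.thr 14 50 (.thr 30 62 (.dbl 31 16 29)))) (.rp 16 (.thr 50 14 (.thr 58 10 (.thr 54 62 (.thr 52 53 (.thr 56 11 (.thr 57 59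 (.dbl 60 48 51))))))) (.rp 14 (.thr 46 34 (.thr 31 16 (.thr 29 30 (.thr 61 1 (.thr 45 13 (.thr 47 44 (.dbl 37 32 33))))))) (.rp 3 (.str 51 (.nv (.thr 11 56 (.thr 27 59 (.thr 15 39 (.thr 48 37 (.dbl 50 14 49))))) (.nv (.thr 14 50 (.thr 31 16 (.thr 30 29 (.dbl 46 34 62)))) (.rp 50 (.thr 34 46 (.thr 16 31 (.thr 10 58 (.thr 0 17 (.thr 48 32 (.dbl 15 5 37)))))) (.rp 14 (.thr 34 46 (.thr 16 31 (.thr 10 58 (.thr 0 17 (.thr 48 32 (.dbl 15 5 37)))))) .nd))))) .nd))))))))))))))) (.rp 14 (.thr 58 10 (.thr 61 1 (.thr 56 11 (.thr 57 59 (.thr 53 49 (.thr 37 5 (.thr 52 54 (.dbl 48 15 60)))))))) (.rp 10 (.thr 34 46 (.thr 50 14 (.thr 2 18 (.thr 1 61 (.thr 16 31 (.thr 0 3 (.thr 51 17 (.dbl 48 32 49)))))))) (.rp 9 (.thr 58 10 (.thr 50 14 (.thr 54 62 (.thr 61 1 (.thr 53 52 (.thr 57 49 (.dbl 56 11 59)))))))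 (.rp 6 (.thr 58 10 (.thr 61 1 (.thr 56 11 (.thr 57 59 (.thr 53 49 (.thr 54 52 (.dbl 50 14 62))))))) (.rp 2 (.thr 58 10 (.thr 61 1 (.thr 56 11 (.thr 57 59 (.thr 53 49 (.thr 54 52 (.dbl 50 14 62))))))) (.rp 1 (.thr 58 10 (.thr 50 14 (.thr 54 62 (.thr 52 53 (.thr 56 11 (.thr 57 59 (.dbl 60 48 51))))))) .nd)))))))))))))))))))) (.rp 34 (.thr 55 4 (.thr 61 1 (.thr 43 40 (.str 26 (.nv (.thr 11 56 (.thr 35 44 (.thr 39 47 (.thr 7 23 (.thr 15 3 (.dbl 37 36 48)))))) (.nv (.thr 50 14 (.thr 58 10 (.thr 54 62 (.thr 56 11 (.thr 57 59 (.dbl 53 49 52)))))) (.rp 56 (.thr 35 44 (.thr 39 47 (.thr 58 10 (.thr 50 14 (.thr 54 62 (.thr 53 52 (.dbl 37 5 36))))))) (.rp 46 (.thr 56 11 (.thr 58 10 (.thr 57 59 (.thr 53 49 (.thr 54 52 (.dbl 50 14 62)))))) (.rp 28 (.str 19 (.nv (.thr 11 56 (.thr 27 59 (.thr 35 44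 (.thr 51 3 (.dbl 39 15 47))))) (.nv (.thr 35 44 (.thr 39 47 (.thr 23 7 (.dbl 31 16 27)))) (.nv (.thr 31 16 (.thr 27 23 (.dbl 11 56 59))) (.rp 27 (.thr 35 44 (.thr 39 47 (.thr 3 51 (.thr 7 23 (.dbl 11 15 56))))) .nd))))) (.rp 19 (.str 28 (.nv (.thr 11 56 (.thr 27 59 (.thr 35 44 (.thr 39 47 (.thr 7 23 (.dbl 15 3 51)))))) (.nv (.thr 56 11 (.thr 58 10 (.thr 57 59 (.thr 50 14 (.thr 54 62 (.dbl 53 49 52)))))) (.nv (.thr 31 16 (.thr 29 30 (.thr 35 44 (.thr 39 47 (.thr 45 13 (.dbl 37 33 36)))))) .nd)))) (.rp 11 (.thr 35 44 (.thr 39 47 (.thr 58 10 (.thr 50 14 (.thr 54 62 (.thr 53 52 (.dbl 37 5 36))))))) (.rp 8 (.thr 58 10 (.thr 50 14 (.thr 54 62 (.thr 53 52 (.thr 57 49 (.dbl 56 11 59)))))) (.rp 2 (.thr 35 44 (.thr 39 47 (.thr 31 16 (.thr 23 7 (.thr 11 56 (.dbl 27 19 59)))))) .nd)))))))))))))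 (.rp 32 (.str 26 (.nv (.thr 16 31 (.thr 40 43 (.thr 35 44 (.thr 34 46 (.thr 14 50 (.thr 4 55 (.thr 11 56 (.thr 10 58 (.thr 8 9 (.thr 12 0 (.thr 2 6 (.thr 15 13 (.thr 3 7 (.thr 37 48 (.thr 53 5 (.thr 1 61 (.thr 39 36 (.dbl 51 19 27)))))))))))))))))) (.nv (.thr 61 1 (.thr 56 11 (.thr 58 10 (.thr 57 59 (.thr 53 49 (.thr 55 4 (.thr 52 54 (.thr 48 60 (.dbl 37 5 15))))))))) (.rp 61 (.thr 40 43 (.thr 46 34 (.thr 35 44 (.thr 31 16 (.thr 50 14 (.thr 10 58 (.thr 56 11 (.thr 8 24 (.thr 4 55 (.thr 0 12 (.thr 15 5 (.thr 48 37 (.dbl 60 20 52))))))))))))) (.rp 60 (.thr 40 43 (.thr 46 34 (.thr 35 44 (.thr 31 16 (.thr 50 14 (.thr 58 10 (.thr 54 62 (.thr 61 1 (.thr 56 11 (.thr 8 24 (.thr 55 4 (.thr 53 52 (.dbl 57 49 59))))))))))))) (.rp 59 (.thr 40 43 (.thr 46 34 (.thr 35 44 (.thr 31 16 (.thr 50 14 (.thr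 58 10 (.thr 54 62 (.thr 11 56 (.thr 55 4 (.thr 53 52 (.thr 37 5 (.thr 36 39 (.thr 45 33 (.thr 61 1 (.thr 49 57 (.dbl 48 15 51)))))))))))))))) (.rp 58 (.thr 40 43 (.thr 46 34 (.thr 35 44 (.thr 16 31 (.thr 50 14 (.thr 56 11 (.thr 8 24 (.thr 4 55 (.thr 0 12 (.thr 60 20 (.thr 48 52 (.thr 51 49 (.thr 1 61 (.dbl 3 2 19)))))))))))))) (.rp 57 (.thr 40 43 (.thr 46 34 (.thr 35 44 (.thr 31 16 (.thr 50 14 (.thr 58 10 (.thr 54 62 (.thr 56 11 (.thr 55 4 (.thr 52 53 (.thr 48 60 (.thr 61 1 (.thr 51 49 (.thr 37 15 (.thr 36 39 (.dbl 24 8 12)))))))))))))))) (.rp 56 (.thr 40 43 (.thr 46 34 (.thr 35 44 (.thr 31 16 (.thr 50 14 (.thr 58 10 (.thr 54 62 (.thr 55 4 (.thr 53 52 (.thr 37 5 (.thr 36 39 (.thr 45 33 (.thr 61 1 (.thr 49 57 (.dbl 48 15 51))))))))))))))) (.rp 55 (.thr 40 43 (.thr 46 34 (.thr 35 44 (.thr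 31 16 (.thr 14 50 (.thr 62 30 (.thr 10 58 (.thr 11 56 (.thr 9 8 (.thr 1 61 (.thr 13 5 (.thr 12 15 (.dbl 6 2 3))))))))))))) (.rp 54 (.thr 40 43 (.thr 46 34 (.thr 35 44 (.thr 31 16 (.thr 50 14 (.thr 10 58 (.thr 56 11 (.thr 8 24 (.thr 4 55 (.thr 0 12 (.thr 15 5 (.thr 48 37 (.dbl 60 20 52))))))))))))) (.rp 53 (.thr 40 43 (.thr 46 34 (.thr 35 44 (.thr 31 16 (.thr 14 50 (.thr 30 62 (.thr 28 29 (.thr 58 10 (.thr 56 11 (.thr 59 57 (.thr 8 24 (.thr 4 55 (.thr 0 12 (.thr 60 20 (.thr 15 45 (.dbl 48 37 52)))))))))))))))) (.rp 52 (.thr 40 43 (.thr 46 34 (.thr 35 44 (.thr 31 16 (.thr 50 14 (.thr 10 58 (.thr 11 56 (.thr 8 9 (.thr 4 55 (.thr 0 12 (.thr 60 20 (.thr 15 5 (.thr 45 30 (.dbl 37 33 48)))))))))))))) (.rp 51 (.thr 40 43 (.thr 46 34 (.thr 35 44 (.thr 31 16 (.thr 50 14 (.thr 58 10 (.thr 54 62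 (.thr 56 11 (.thr 8 24 (.thr 55 4 (.thr 53 52 (.thr 37 5 (.thr 36 39 (.thr 45 33 (.thr 61 1 (.dbl 57 49 59)))))))))))))))) (.rp 49 (.thr 40 43 (.thr 46 34 (.thr 35 44 (.thr 31 16 (.thr 50 14 (.thr 58 10 (.thr 54 62 (.thr 56 11 (.thr 59 57 (.thr 55 4 (.thr 52 53 (.thr 61 1 (.thr 48 60 (.thr 37 15 (.thr 36 39 (.dbl 24 8 12)))))))))))))))) (.rp 48 (.thr 40 43 (.thr 46 34 (.thr 35 44 (.thr 16 31 (.thr 50 14 (.thr 58 10 (.thr 54 62 (.thr 56 11 (.thr 8 24 (.thr 55 4 (.thr 53 52 (.thr 37 5 (.thr 36 39 (.thr 45 33 (.thr 61 1 (.dbl 57 49 59)))))))))))))))) (.rp 43 (.thr 46 34 (.thr 35 44 (.thr 31 16 (.thr 50 14 (.thr 58 10 (.thr 54 62 (.thr 56 11 (.thr 55 4 (.thr 53 52 (.thr 37 5 (.thr 36 39 (.thr 45 33 (.thr 61 1 (.dbl 57 49 59)))))))))))))) (.rp 37 (.thr 40 43 (.thr 46 34 (.thr 35 44 (.thr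 31 16 (.thr 50 14 (.thr 58 10 (.thr 54 62 (.thr 56 11 (.thr 55 4 (.thr 52 53 (.thr 60 48 (.thr 0 20 (.dbl 57 51 59))))))))))))) (.rp 28 (.str 19 (.nv (.thr 1 61 (.thr 10 58 (.thr 14 50 (.thr 2 6 (.thr 35 44 (.dbl 3 0 51)))))) (.nv (.thr 34 46 (.thr 50 14 (.thr 18 2 (.dbl 16 17 31)))) (.nv (.thr 11 56 (.thr 31 16 (.thr 27 23 (.dbl 43 40 59)))) .nd)))) (.rp 27 (.thr 40 43 (.thr 46 34 (.thr 35 44 (.thr 31 16 (.thr 50 14 (.thr 58 10 (.thr 54 62 (.thr 56 11 (.thr 59 57 (.thr 55 4 (.thr 52 53 (.thr 48 60 (.thr 61 1 (.thr 51 49 (.thr 37 15 (.thr 36 39 (.dbl 24 8 12))))))))))))))))) (.rp 19 (.str 28 (.nv (.thr 40 43 (.thr 56 11 (.thr 24 8 (.dbl 16 20 31)))) (.nv (.thr 14 50 (.thr 31 16 (.thr 30 29 (.dbl 46 34 62)))) (.rp 31 (.thr 40 43 (.thr 56 11 (.thr 24 8 (.thr 44 35 (.thr 60 12 (.dbl 20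 0 16)))))) (.rp 16 (.thr 40 43 (.thr 56 11 (.thr 8 24 (.thr 4 55 (.thr 44 35 (.dbl 12 0 60)))))) .nd))))) (.rp 15 (.thr 40 43 (.thr 46 34 (.thr 35 44 (.thr 31 16 (.thr 50 14 (.thr 58 10 (.thr 54 62 (.thr 56 11 (.thr 8 24 (.thr 55 4 (.thr 53 52 (.thr 61 1 (.dbl 57 49 59))))))))))))) (.rp 13 (.thr 40 43 (.thr 46 34 (.thr 35 44 (.thr 31 16 (.thr 50 14 (.thr 58 10 (.thr 54 62 (.thr 56 11 (.thr 8 24 (.thr 55 4 (.thr 53 52 (.thr 61 1 (.dbl 57 49 59))))))))))))) (.rp 11 (.thr 40 43 (.thr 46 34 (.thr 35 44 (.thr 31 16 (.thr 50 14 (.thr 58 10 (.thr 54 62 (.thr 55 4 (.thr 53 52 (.thr 37 5 (.thr 36 39 (.thr 45 33 (.thr 61 1 (.thr 49 57 (.dbl 48 15 51))))))))))))))) (.rp 10 (.thr 40 43 (.thr 46 34 (.thr 35 44 (.thr 31 16 (.thr 14 50 (.thr 30 62 (.thr 28 29 (.thr 56 11 (.thr 8 24 (.thr 4 55 (.thr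 0 12 (.thr 60 20 (.thr 48 52 (.dbl 15 37 45)))))))))))))) (.rp 9 (.thr 40 43 (.thr 46 34 (.thr 35 44 (.thr 31 16 (.thr 50 14 (.thr 58 10 (.thr 54 62 (.thr 56 11 (.thr 8 24 (.thr 55 4 (.thr 53 52 (.thr 37 5 (.thr 36 39 (.thr 45 33 (.thr 61 1 (.thr 13 29 (.dbl 57 49 59))))))))))))))))) (.rp 8 (.thr 40 43 (.thr 46 34 (.thr 35 44 (.thr 31 16 (.thr 50 14 (.thr 58 10 (.thr 54 62 (.thr 11 56 (.thr 55 4 (.thr 53 52 (.thr 37 5 (.thr 36 39 (.thr 45 33 (.thr 61 1 (.thr 49 57 (.dbl 48 15 51)))))))))))))))) (.rp 5 (.thr 40 43 (.thr 46 34 (.thr 35 44 (.thr 31 16 (.thr 50 14 (.thr 58 10 (.thr 54 62 (.thr 56 11 (.thr 8 24 (.thr 55 4 (.thr 53 52 (.thr 61 1 (.dbl 57 49 59))))))))))))) (.rp 4 (.thr 40 43 (.thr 46 34 (.thr 35 44 (.thr 31 16 (.thr 14 50 (.thr 62 30 (.thr 10 58 (.thr 11 56 (.thr 9 8 (.thr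 1 61 (.thr 13 5 (.thr 12 15 (.dbl 6 2 3))))))))))))) (.rp 1 (.thr 40 43 (.thr 46 34 (.thr 35 44 (.thr 31 16 (.thr 50 14 (.thr 58 10 (.thr 54 62 (.thr 56 11 (.thr 55 4 (.thr 52 53 (.thr 60 48 (.thr 0 20 (.dbl 57 51 59))))))))))))) .nd)))))))))))))))))))))))))))))) (.rp 28 (.str 19 (.nv (.thr 34 46 (.thr 43 40 (.thr 35 44 (.thr 47 39 (.dbl 32 33 37))))) (.nv (.thr 1 61 (.thr 34 46 (.thr 35 44 (.thr 3 51 (.thr 2 0 (.thr 18 50 (.dbl 33 32 48))))))) (.nv (.thr 40 43 (.thr 44 35 (.thr 32 36 (.thr 46 34 (.dbl 47 37 45))))) (.rp 47 (.thr 55 4 (.thr 43 40 (.thr 44 35 (.str 31 (.nv (.thr 27 23 (.thr 11 59 (.dbl 26 16 56))) (.rp 59 (.thr 23 27 (.thr 39 7 (.thr 37 36 (.thr 33 45 (.thr 1 61 (.thr 17 49 (.dbl 16 18 26))))))) (.rp 56 (.thr 23 27 (.thr 39 7 (.thr 37 36 (.thr 33 45 (.thr 1 61 (.thr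 17 49 (.dbl 16 18 26))))))) (.rp 27 (.thr 26 16 (.thr 56 11 (.thr 58 10 (.thr 57 59 (.thr 50 14 (.thr 54 62 (.thr 53 52 (.dbl 61 1 49)))))))) (.rp 26 (.thr 27 23 (.str 18 (.nv (.thr 17 16 (.thr 34 46 (.thr 2 50 (.thr 0 51 (.dbl 1 3 61))))) (.nv (.thr 1 61 (.thr 17 16 (.thr 33 49 (.thr 37 45 (.thr 39 36 (.thr 51 15 (.dbl 34 0 46))))))) (.nv (.thr 1 61 (.thr 34 46 (.thr 2 50 (.thr 0 3 (.dbl 17 16 51))))) (.rp 61 (.thr 34 46 (.thr 17 16 (.thr 11 59 (.thr 50 2 (.thr 51 0 (.thr 48 49 (.thr 3 33 (.dbl 15 7 39)))))))) (.rp 51 (.thr 34 46 (.thr 17 16 (.thr 2 50 (.thr 1 61 (.thr 3 0 (.dbl 33 48 49)))))) (.rp 46 (.thr 17 16 (.thr 11 59 (.thr 1 61 (.thr 33 49 (.thr 37 45 (.thr 39 36 (.thr 3 48 (.dbl 15 7 51)))))))) (.rp 34 (.thr 17 16 (.thr 11 59 (.thr 1 61 (.thr 33 49 (.thr 37 45 (.thr 39 36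 (.thr 3 48 (.dbl 15 7 51)))))))) (.rp 29 (.thr 17 16 (.thr 1 61 (.thr 33 49 (.thr 3 48 (.thr 0 2 (.dbl 34 46 51)))))) (.rp 17 (.thr 34 46 (.thr 11 59 (.thr 2 50 (.thr 1 61 (.thr 3 0 (.thr 33 48 (.thr 37 45 (.thr 39 36 (.dbl 15 7 51))))))))) (.rp 16 (.thr 34 46 (.thr 11 59 (.thr 2 50 (.thr 1 61 (.thr 3 0 (.thr 15 7 (.thr 39 51 (.thr 37 36 (.dbl 33 45 48))))))))) (.rp 1 (.thr 34 46 (.thr 17 16 (.thr 11 59 (.thr 51 0 (.thr 15 39 (.thr 3 7 (.thr 48 33 (.dbl 50 2 49)))))))) (.rp 0 (.thr 17 16 (.thr 11 59 (.thr 1 61 (.thr 33 49 (.thr 37 45 (.thr 39 36 (.thr 15 51 (.dbl 3 7 48)))))))) .nd)))))))))))))) (.rp 23 (.thr 26 16 (.thr 56 11 (.thr 58 10 (.thr 57 59 (.thr 50 14 (.thr 54 62 (.thr 53 52 (.dbl 61 1 49)))))))) (.rp 16 (.thr 34 46 (.thr 27 23 (.thr 11 59 (.thr 26 56 (.thr 50 14 (.thr 2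 18 (.thr 1 61 (.thr 3 0 (.thr 15 7 (.thr 51 39 (.dbl 48 37 49))))))))))) (.rp 11 (.thr 23 27 (.thr 39 7 (.thr 37 36 (.thr 33 45 (.thr 1 61 (.thr 17 49 (.dbl 16 18 26))))))) .nd)))))))))))) (.rp 46 (.thr 43 40 (.thr 35 44 (.thr 47 39 (.thr 32 37 (.thr 33 34 (.thr 1 61 (.thr 3 51 (.thr 48 18 (.dbl 0 2 16))))))))) (.rp 44 (.str 50 (.nv (.thr 1 61 (.thr 34 46 (.thr 18 2 (.thr 17 16 (.thr 49 33 (.dbl 51 0 48)))))) (.nv (.thr 26 14 (.thr 11 56 (.thr 31 16 (.thr 27 23 (.dbl 43 40 59))))) (.nv (.thr 34 46 (.thr 18 2 (.thr 16 17 (.dbl 26 14 31)))) (.rp 60 (.str 12 (.nv (.thr 4 55 (.thr 0 8 (.thr 34 46 (.thr 18 2 (.dbl 17 16 51))))) (.nv (.thr 4 55 (.thr 8 0 (.thr 26 14 (.thr 10 58 (.dbl 11 9 56))))) (.nv (.thr 34 46 (.thr 18 2 (.thr 16 17 (.dbl 26 14 31)))) (.rp 62 (.thr 61 1 (.thr 34 46 (.thr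 18 2 (.thr 16 17 (.dbl 26 14 31))))) (.rp 61 (.str 62 (.nv (.thr 26 14 (.dbl 58 10 54)) (.nv (.thr 46 34 (.dbl 14 26 30)) (.rp 26 (.thr 34 46 (.thr 18 2 (.thr 4 55 (.thr 0 8 (.dbl 17 16 51))))) (.rp 14 (.thr 34 46 (.thr 58 54 (.thr 26 10 (.thr 16 31 (.dbl 18 2 17))))) .nd))))) .nd)))))) (.rp 16 (.thr 43 40 (.thr 34 46 (.thr 1 61 (.thr 2 18 (.thr 3 0 (.thr 35 51 (.thr 32 33 (.dbl 47 37 39)))))))) (.rp 12 (.str 60 (.nv (.thr 1 61 (.thr 40 43 (.thr 0 20 (.thr 3 2 (.thr 51 35 (.dbl 34 17 46)))))) (.nv (.thr 4 55 (.thr 26 14 (.thr 40 43 (.thr 20 0 (.thr 52 36 (.dbl 56 11 48)))))) (.nv (.thr 26 14 (.thr 16 31 (.thr 18 17 (.dbl 34 2 46)))) (.rp 46 (.str 29 (.nv (.thr 43 40 (.thr 26 14 (.thr 31 16 (.thr 27 23 (.dbl 11 56 59))))) (.nv (.thr 61 1 (.thr 45 13 (.thr 37 33 (.thr 26 14 (.dbl 15 30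 48))))) (.rp 62 (.thr 40 43 (.thr 20 0 (.thr 4 55 (.thr 52 36 (.thr 56 48 (.thr 24 8 (.dbl 26 11 14))))))) (.rp 47 (.str 45 (.nv (.thr 15 30 (.thr 37 33 (.dbl 26 14 48))) (.nv (.dbl 61 1 13) (.rp 15 (.str 31 (.nv (.dbl 61 1 13) (.nv (.dbl 26 14 16) (.rp 14 (.thr 13 61 (.thr 37 33 (.thr 39 36 (.thr 23 27 (.dbl 55 4 7))))) (.rp 13 (.thr 14 26 (.thr 37 33 (.thr 39 36 (.thr 55 4 (.dbl 23 7 27))))) .nd))))) .nd)))) (.rp 45 (.str 47 (.nv (.thr 26 14 (.thr 56 11 (.thr 58 10 (.thr 57 59 (.dbl 54 51 62))))) (.nv (.thr 43 40 (.thr 39 35 (.dbl 37 32 36))) (.rp 43 (.thr 37 32 (.thr 26 14 (.thr 56 11 (.dbl 48 15 52)))) .nd)))) (.rp 30 (.thr 40 43 (.thr 20 0 (.thr 4 55 (.thr 52 36 (.thr 56 48 (.thr 24 8 (.dbl 26 11 14))))))) (.rp 26 (.thr 40 43 (.thr 20 0 (.thr 4 55 (.thr 36 52 (.thr 37 39 (.thr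 45 33 (.dbl 61 1 13))))))) (.rp 15 (.thr 40 43 (.thr 20 0 (.thr 4 55 (.thr 52 36 (.thr 56 48 (.thr 24 8 (.dbl 26 11 14))))))) (.rp 14 (.thr 40 43 (.thr 20 0 (.thr 4 55 (.thr 36 52 (.thr 37 39 (.thr 45 33 (.dbl 61 1 13))))))) (.rp 13 (.thr 40 43 (.thr 20 0 (.thr 4 55 (.thr 52 36 (.thr 56 48 (.thr 24 8 (.dbl 26 11 14))))))) .nd))))))))))) (.rp 29 (.thr 46 34 (.thr 43 40 (.thr 26 14 (.thr 31 16 (.thr 27 23 (.dbl 11 56 59)))))) .nd)))))) .nd))))))) (.rp 35 (.str 50 (.nv (.thr 1 61 (.thr 34 46 (.thr 18 2 (.thr 17 16 (.thr 49 33 (.dbl 51 0 48)))))) (.nv (.thr 26 14 (.thr 11 56 (.thr 31 16 (.thr 27 23 (.dbl 43 40 59))))) (.nv (.thr 34 46 (.thr 18 2 (.thr 16 17 (.dbl 26 14 31)))) (.rp 16 (.thr 40 43 (.thr 34 46 (.thr 1 61 (.thr 18 2 (.thr 4 55 (.thr 26 14 (.thr 10 58 (.thr 11 56 (.thr 9 8 (.thr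 5 13 (.thr 6 7 (.thr 15 0 (.dbl 37 48 53))))))))))))) .nd))))) (.rp 34 (.thr 43 40 (.thr 35 44 (.thr 39 47 (.thr 51 3 (.thr 55 4 (.thr 23 7 (.dbl 27 15 31))))))) (.rp 32 (.thr 35 44 (.thr 34 46 (.thr 1 61 (.thr 51 3 (.thr 17 0 (.thr 16 18 (.thr 26 31 (.thr 50 14 (.dbl 49 33 48))))))))) .nd)))))))))) (.rp 19 (.str 28 (.nv (.thr 40 43 (.thr 46 34 (.thr 44 35 (.thr 47 45 (.dbl 32 36 37))))) (.nv (.thr 4 55 (.thr 40 43 (.thr 44 35 (.thr 60 12 (.thr 20 0 (.dbl 36 32 52)))))) (.nv (.thr 34 46 (.thr 35 44 (.thr 32 33 (.thr 43 40 (.dbl 47 37 39))))) (.rp 47 (.thr 61 1 (.thr 46 34 (.thr 35 44 (.str 31 (.nv (.thr 30 29 (.thr 14 62 (.dbl 26 16 50))) (.rp 62 (.thr 29 30 (.thr 45 13 (.thr 37 33 (.thr 36 39 (.thr 4 55 (.thr 20 52 (.dbl 16 24 26))))))) (.rp 50 (.thr 29 30 (.thr 45 13 (.thr 37 33 (.thr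 36 39 (.thr 4 55 (.thr 20 52 (.dbl 16 24 26))))))) (.rp 30 (.thr 26 16 (.thr 50 14 (.thr 58 10 (.thr 54 62 (.thr 56 11 (.thr 57 59 (.thr 53 49 (.dbl 55 4 52)))))))) (.rp 29 (.thr 26 16 (.thr 50 14 (.thr 58 10 (.thr 54 62 (.thr 56 11 (.thr 57 59 (.thr 53 49 (.dbl 55 4 52)))))))) (.rp 26 (.thr 30 29 (.str 24 (.nv (.thr 20 16 (.thr 40 43 (.thr 0 60 (.thr 8 56 (.dbl 4 12 55))))) (.nv (.thr 4 55 (.thr 20 16 (.thr 36 52 (.thr 37 39 (.thr 45 33 (.thr 60 15 (.dbl 40 0 43))))))) (.nv (.thr 4 55 (.thr 40 43 (.thr 8 56 (.thr 0 12 (.dbl 20 16 60))))) (.rp 60 (.thr 40 43 (.thr 20 16 (.thr 8 56 (.thr 4 55 (.thr 12 0 (.dbl 36 48 52)))))) (.rp 55 (.thr 40 43 (.thr 20 16 (.thr 14 62 (.thr 56 8 (.thr 60 0 (.thr 48 52 (.thr 12 36 (.dbl 15 13 45)))))))) (.rp 43 (.thr 20 16 (.thr 14 62 (.thr 4 55 (.thr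 36 52 (.thr 37 39 (.thr 45 33 (.thr 12 48 (.dbl 15 13 60)))))))) (.rp 40 (.thr 20 16 (.thr 14 62 (.thr 4 55 (.thr 36 52 (.thr 37 39 (.thr 45 33 (.thr 12 48 (.dbl 15 13 60)))))))) (.rp 23 (.thr 20 16 (.thr 4 55 (.thr 36 52 (.thr 12 48 (.thr 0 8 (.dbl 40 43 60)))))) (.rp 20 (.thr 40 43 (.thr 14 62 (.thr 8 56 (.thr 4 55 (.thr 12 0 (.thr 36 48 (.thr 37 39 (.thr 45 33 (.dbl 15 13 60))))))))) (.rp 16 (.thr 40 43 (.thr 14 62 (.thr 8 56 (.thr 4 55 (.thr 12 0 (.thr 15 13 (.thr 45 60 (.thr 37 33 (.dbl 36 39 48))))))))) (.rp 4 (.thr 40 43 (.thr 20 16 (.thr 14 62 (.thr 60 0 (.thr 15 45 (.thr 12 13 (.thr 48 36 (.dbl 56 8 52)))))))) (.rp 0 (.thr 20 16 (.thr 14 62 (.thr 4 55 (.thr 36 52 (.thr 37 39 (.thr 45 33 (.thr 15 60 (.dbl 12 13 48)))))))) .nd)))))))))))))) (.rp 16 (.thr 40 43 (.thr 30 29 (.thr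 14 62 (.thr 26 50 (.thr 56 11 (.thr 8 24 (.thr 4 55 (.thr 12 0 (.thr 15 13 (.thr 60 45 (.dbl 48 37 52))))))))))) (.rp 14 (.thr 29 30 (.thr 45 13 (.thr 37 33 (.thr 36 39 (.thr 4 55 (.thr 20 52 (.dbl 16 24 26))))))) .nd)))))))))))) (.rp 46 (.thr 44 35 (.thr 40 43 (.thr 36 32 (.thr 4 55 (.thr 20 52 (.dbl 60 0 12)))))) (.rp 44 (.str 56 (.nv (.thr 40 43 (.thr 24 8 (.thr 16 20 (.dbl 26 11 31)))) (.rp 43 (.thr 46 34 (.thr 26 11 (.thr 31 16 (.thr 30 29 (.dbl 14 50 62))))) (.rp 40 (.thr 46 34 (.thr 26 11 (.thr 31 16 (.thr 30 29 (.dbl 14 50 62))))) (.rp 31 (.thr 40 43 (.thr 4 55 (.thr 24 8 (.thr 20 16 (.thr 60 0 (.dbl 52 36 48)))))) (.rp 26 (.thr 40 43 (.thr 4 55 (.thr 24 8 (.thr 20 16 (.thr 60 0 (.dbl 52 36 48)))))) (.rp 24 (.thr 46 34 (.thr 26 11 (.thr 31 16 (.thr 30 29 (.dbl 14 50 62)))))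 (.rp 23 (.thr 46 34 (.thr 26 11 (.thr 31 16 (.thr 30 29 (.dbl 14 50 62))))) (.rp 20 (.thr 46 34 (.thr 26 11 (.thr 31 16 (.thr 30 29 (.dbl 14 50 62))))) (.rp 16 (.thr 34 46 (.thr 40 43 (.thr 4 55 (.thr 24 8 (.thr 1 61 (.thr 26 11 (.thr 10 58 (.thr 14 50 (.thr 6 2 (.thr 5 7 (.thr 9 13 (.thr 15 0 (.dbl 37 48 53))))))))))))) (.rp 11 (.thr 40 43 (.thr 4 55 (.thr 24 8 (.thr 20 16 (.thr 60 0 (.dbl 52 36 48)))))) (.rp 8 (.thr 46 34 (.thr 26 11 (.thr 31 16 (.thr 30 29 (.dbl 14 50 62))))) (.rp 3 (.thr 26 11 (.thr 16 31 (.thr 24 20 (.dbl 40 8 43)))) .nd))))))))))))) (.rp 43 (.thr 46 34 (.thr 44 35 (.thr 47 45 (.thr 32 37 (.thr 36 40 (.thr 4 55 (.thr 12 60 (.thr 48 24 (.dbl 0 8 16))))))))) (.rp 40 (.thr 46 34 (.thr 44 35 (.thr 45 47 (.thr 60 12 (.thr 61 1 (.thr 29 13 (.dbl 30 15 31))))))) (.rp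 35 (.str 56 (.nv (.thr 4 55 (.thr 40 43 (.thr 24 8 (.thr 20 16 (.thr 52 36 (.dbl 60 0 48)))))) (.nv (.thr 26 11 (.thr 14 50 (.thr 31 16 (.thr 30 29 (.dbl 46 34 62))))) (.nv (.thr 40 43 (.thr 24 8 (.thr 16 20 (.dbl 26 11 31)))) (.rp 51 (.str 3 (.nv (.thr 1 61 (.thr 0 2 (.thr 40 43 (.thr 24 8 (.dbl 20 16 60))))) (.nv (.thr 1 61 (.thr 2 0 (.thr 26 11 (.thr 10 58 (.dbl 14 6 50))))) (.nv (.thr 40 43 (.thr 24 8 (.thr 16 20 (.dbl 26 11 31)))) (.rp 59 (.thr 55 4 (.thr 40 43 (.thr 24 8 (.thr 16 20 (.dbl 26 11 31))))) (.rp 55 (.str 59 (.nv (.thr 26 11 (.dbl 58 10 57)) (.nv (.thr 43 40 (.dbl 11 26 27)) (.rp 26 (.thr 40 43 (.thr 24 8 (.thr 1 61 (.thr 0 2 (.dbl 20 16 60))))) (.rp 11 (.thr 40 43 (.thr 58 57 (.thr 26 10 (.thr 16 31 (.dbl 24 8 20))))) .nd))))) .nd)))))) (.rp 16 (.thr 46 34 (.thr 40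 43 (.thr 4 55 (.thr 8 24 (.thr 12 0 (.thr 44 60 (.thr 32 36 (.dbl 47 37 45)))))))) (.rp 3 (.str 51 (.nv (.thr 4 55 (.thr 34 46 (.thr 0 17 (.thr 12 8 (.thr 60 44 (.dbl 40 20 43)))))) (.nv (.thr 1 61 (.thr 26 11 (.thr 34 46 (.thr 17 0 (.thr 49 33 (.dbl 50 14 48)))))) (.nv (.thr 26 11 (.thr 16 31 (.thr 24 20 (.dbl 40 8 43)))) (.rp 43 (.str 23 (.nv (.thr 46 34 (.thr 26 11 (.thr 31 16 (.thr 30 29 (.dbl 14 50 62))))) (.nv (.thr 55 4 (.thr 39 7 (.thr 37 36 (.thr 26 11 (.dbl 15 27 48))))) (.rp 59 (.thr 34 46 (.thr 17 0 (.thr 1 61 (.thr 49 33 (.thr 50 48 (.thr 18 2 (.dbl 26 11 14))))))) (.rp 47 (.str 39 (.nv (.thr 15 27 (.thr 37 36 (.dbl 26 11 48))) (.nv (.dbl 55 4 7) (.rp 15 (.str 31 (.nv (.dbl 55 4 7) (.nv (.dbl 26 11 16) (.rp 11 (.thr 7 55 (.thr 37 36 (.thr 45 33 (.thr 29 30 (.dbl 61 1 13)))))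 (.rp 7 (.thr 11 26 (.thr 37 36 (.thr 45 33 (.thr 61 1 (.dbl 29 13 30))))) .nd))))) .nd)))) (.rp 39 (.str 47 (.nv (.thr 26 11 (.thr 50 14 (.thr 58 10 (.thr 54 62 (.dbl 57 59 60))))) (.nv (.thr 46 34 (.thr 45 44 (.dbl 37 32 33))) (.rp 46 (.thr 37 32 (.thr 26 11 (.thr 50 14 (.dbl 48 15 49)))) .nd)))) (.rp 27 (.thr 34 46 (.thr 17 0 (.thr 1 61 (.thr 49 33 (.thr 50 48 (.thr 18 2 (.dbl 26 11 14))))))) (.rp 26 (.thr 34 46 (.thr 17 0 (.thr 1 61 (.thr 33 49 (.thr 37 45 (.thr 39 36 (.dbl 55 4 7))))))) (.rp 15 (.thr 34 46 (.thr 17 0 (.thr 1 61 (.thr 49 33 (.thr 50 48 (.thr 18 2 (.dbl 26 11 14))))))) (.rp 11 (.thr 34 46 (.thr 17 0 (.thr 1 61 (.thr 33 49 (.thr 37 45 (.thr 39 36 (.dbl 55 4 7))))))) (.rp 7 (.thr 34 46 (.thr 17 0 (.thr 1 61 (.thr 49 33 (.thr 50 48 (.thr 18 2 (.dbl 26 11 14))))))) .nd)))))))))))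 (.rp 23 (.thr 43 40 (.thr 46 34 (.thr 26 11 (.thr 31 16 (.thr 30 29 (.dbl 14 50 62)))))) .nd)))))) .nd))))))) (.rp 32 (.thr 44 35 (.thr 40 43 (.thr 4 55 (.thr 60 12 (.thr 20 0 (.thr 16 24 (.thr 26 31 (.thr 56 11 (.dbl 52 36 48))))))))) .nd))))))))))) .nd))))))))))))))))

theorem w490 : WinAt (6597071863808, 9223372036892524544) :=
  chF (K := [(6871949770753, 9223372174331486208), (6871949770753, 9223372174332002304), (6871949770753, 9223372174599913472), (6871949770753, 9223935124284899328), (6871949770753, 9227875773958848512)]) (kc w449 (kc w450 (kc w451 (kc w452 (kc w453 kn))))) c490 6597071863808 9223372036892524544 25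
    [306708480] (by decide +kernel) (by decide +kernel)

/-- A certificate. -/
noncomputable def c491 : Ct := (.str 26 (.nv (.thr 10 58 (.thr 11 56 (.thr 8 9 (.thr 43 40 (.dbl 59 25 27))))) (.nv (.thr 40 43 (.thr 56 11 (.thr 8 24 (.thr 58 10 (.dbl 59 25 57))))) (.rp 59 (.thr 43 40 (.thr 31 16 (.thr 61 1 (.thr 58 10 (.str 38 (.nv (.thr 11 56 (.thr 44 35 (.thr 46 34 (.thr 45 47 (.thr 29 13 (.thr 28 30 (.thr 12 60 (.dbl 25 17 51)))))))) (.nv (.thr 14 50 (.thr 46 34 (.thr 30 62 (.thr 29 28 (.thr 13 45 (.thr 12 15 (.dbl 25 17 51))))))) (.nv (.thr 44 35 (.thr 46 34 (.thr 45 47 (.thr 14 50 (.thr 30 62 (.dbl 29 13 28)))))) (.rp 55 (.str 51 (.nv (.thr 25 12 (.thr 27 24 (.thr 19 23 (.dbl 35 3 44)))) (.nv (.thr 50 14 (.thr 49 48 (.thr 57 53 (.dbl 54 60 62)))) (.rp 52 (.str 7 (.nv (.thr 35 44 (.thr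 3 19 (.thr 15 11 (.dbl 39 27 47)))) (.nv (.thr 50 14 (.thr 49 48 (.thr 57 53 (.dbl 54 60 62)))) (.rp 54 (.str 53 (.nv (.thr 35 44 (.thr 3 19 (.dbl 11 15 56))) (.nv (.thr 49 57 (.dbl 50 14 48)) .nd))) (.rp 53 (.str 54 (.nv (.thr 25 12 (.dbl 57 9 60)) (.nv (.dbl 50 14 62) .nd))) (.rp 32 (.thr 11 56 (.thr 3 15 (.dbl 35 19 44))) .nd)))))) (.rp 48 (.thr 35 44 (.thr 39 47 (.thr 19 3 (.dbl 27 15 23)))) (.rp 7 (.str 52 (.nv (.thr 50 14 (.thr 48 49 (.thr 54 62 (.dbl 60 56 57)))) (.nv (.thr 35 44 (.thr 19 3 (.thr 27 23 (.dbl 39 15 47)))) (.rp 39 (.str 23 (.nv (.thr 50 14 (.thr 48 49 (.dbl 56 11 60))) (.nv (.thr 19 27 (.dbl 35 3 44)) .nd))) (.rp 23 (.str 39 (.nv (.thr 25 12 (.dbl 27 15 24)) (.nv (.dbl 35 44 47) .nd))) (.rp 2 (.thr 56 11 (.thr 48 60 (.dbl 50 14 49))) .nd)))))) .nd)))))) (.rp 52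 (.str 7 (.nv (.thr 55 4 (.thr 39 23 (.dbl 35 44 47))) (.rp 55 (.str 51 (.nv (.thr 35 44 (.thr 3 19 (.thr 15 11 (.dbl 39 27 47)))) (.nv (.thr 50 14 (.thr 49 48 (.thr 57 53 (.dbl 54 60 62)))) (.rp 54 (.str 53 (.nv (.thr 35 44 (.thr 3 19 (.dbl 11 15 56))) (.nv (.thr 49 57 (.dbl 50 14 48)) .nd))) (.rp 53 (.str 54 (.nv (.thr 25 12 (.dbl 57 9 60)) (.nv (.dbl 50 14 62) .nd))) (.rp 32 (.thr 11 56 (.thr 3 15 (.dbl 35 19 44))) .nd)))))) (.rp 47 (.thr 11 56 (.thr 55 4 (.thr 23 39 (.thr 3 15 (.thr 35 44 (.dbl 19 27 51)))))) (.rp 44 (.thr 11 56 (.thr 55 4 (.thr 39 23 (.thr 15 3 (.thr 51 27 (.thr 12 25 (.dbl 14 13 50))))))) (.rp 39 (.thr 44 35 (.thr 46 34 (.thr 45 47 (.thr 29 13 (.thr 30 28 (.dbl 14 50 62)))))) (.rp 36 (.thr 44 35 (.thr 46 34 (.thr 45 47 (.thr 29 13 (.thr 30 28 (.dbl 14 50 62))))))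 (.rp 35 (.thr 11 56 (.thr 55 4 (.thr 39 23 (.thr 15 3 (.thr 51 27 (.thr 12 25 (.dbl 14 13 50))))))) (.rp 23 (.thr 44 35 (.thr 46 34 (.thr 45 47 (.thr 29 13 (.thr 30 28 (.dbl 14 50 62)))))) (.rp 20 (.thr 35 44 (.thr 39 47 (.dbl 55 4 23))) (.rp 4 (.thr 44 35 (.thr 46 34 (.thr 45 47 (.thr 29 13 (.thr 30 28 (.dbl 14 50 62)))))) .nd))))))))))) (.rp 51 (.thr 55 4 (.thr 14 50 (.thr 46 34 (.thr 30 62 (.thr 29 28 (.thr 45 13 (.dbl 44 35 47))))))) (.rp 46 (.thr 44 35 (.str 12 (.nv (.thr 51 25 (.thr 50 14 (.thr 49 48 (.thr 57 53 (.dbl 54 60 62))))) (.nv (.thr 14 50 (.thr 13 15 (.thr 25 51 (.thr 55 4 (.dbl 29 17 45))))) (.nv (.thr 25 51 (.thr 55 4 (.thr 29 17 (.dbl 28 30 60)))) (.nv (.thr 28 60 (.thr 29 30 (.thr 14 50 (.dbl 13 15 45)))) (.rp 52 (.str 7 (.nv (.thr 14 50 (.thr 13 15 (.thr 29 45 (.dbl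 28 30 60)))) (.nv (.thr 25 51 (.thr 55 4 (.thr 23 39 (.dbl 27 19 24)))) (.rp 55 (.thr 51 25 (.thr 11 56 (.thr 15 3 (.dbl 14 13 50)))) (.rp 51 (.thr 55 4 (.thr 11 56 (.thr 14 50 (.dbl 15 3 13)))) .nd))))) (.rp 51 (.thr 55 4 (.thr 28 60 (.thr 29 30 (.thr 14 50 (.dbl 13 15 45))))) (.rp 7 (.str 52 (.nv (.thr 51 25 (.thr 56 11 (.dbl 60 28 48))) (.nv (.thr 55 4 (.thr 54 53 (.dbl 50 14 62))) .nd))) (.rp 0 (.thr 60 28 (.thr 56 11 (.thr 55 4 (.thr 25 51 (.thr 24 27 (.dbl 48 36 52)))))) .nd)))))))))) (.rp 45 (.thr 56 11 (.thr 55 4 (.thr 50 14 (.thr 54 62 (.thr 52 53 (.thr 60 48 (.thr 51 57 (.thr 12 25 (.dbl 44 28 35))))))))) (.rp 34 (.thr 56 11 (.thr 55 4 (.thr 50 14 (.thr 54 62 (.thr 52 53 (.thr 60 48 (.thr 51 57 (.thr 12 25 (.dbl 44 28 35))))))))) (.rp 30 (.thr 11 56 (.thr 55 4 (.thr 14 50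 (.thr 35 44 (.thr 39 47 (.thr 7 23 (.thr 15 3 (.thr 12 13 (.dbl 51 25 27))))))))) (.rp 29 (.thr 56 11 (.thr 55 4 (.thr 50 14 (.thr 54 62 (.thr 52 53 (.thr 60 48 (.thr 51 57 (.thr 12 25 (.dbl 44 28 35))))))))) (.rp 28 (.thr 14 50 (.thr 46 34 (.thr 30 62 (.thr 44 35 (.thr 45 47 (.thr 13 29 (.dbl 15 12 60))))))) (.rp 13 (.thr 14 50 (.thr 46 34 (.thr 30 62 (.thr 28 29 (.thr 44 35 (.thr 45 47 (.dbl 60 12 15))))))) (.rp 7 (.str 52 (.nv (.thr 55 4 (.thr 54 53 (.dbl 50 14 62))) (.rp 62 (.thr 56 11 (.thr 55 4 (.thr 53 54 (.thr 48 60 (.thr 50 14 (.dbl 49 51 57)))))) (.rp 55 (.str 51 (.nv (.thr 50 14 (.thr 48 49 (.thr 54 62 (.dbl 60 56 57)))) (.nv (.thr 35 44 (.thr 19 3 (.thr 27 23 (.dbl 39 15 47)))) (.rp 39 (.str 23 (.nv (.thr 50 14 (.thr 48 49 (.dbl 56 11 60))) (.nv (.thr 19 27 (.dbl 35 3 44))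 .nd))) (.rp 23 (.str 39 (.nv (.thr 25 12 (.dbl 27 15 24)) (.nv (.dbl 35 44 47) .nd))) (.rp 2 (.thr 56 11 (.thr 48 60 (.dbl 50 14 49))) .nd)))))) (.rp 54 (.thr 14 50 (.thr 46 34 (.thr 30 62 (.thr 29 28 (.thr 45 13 (.dbl 44 35 47)))))) (.rp 53 (.thr 14 50 (.thr 46 34 (.thr 30 62 (.thr 29 28 (.thr 45 13 (.dbl 44 35 47)))))) (.rp 50 (.thr 56 11 (.thr 55 4 (.thr 54 53 (.thr 60 48 (.thr 51 57 (.thr 12 25 (.dbl 44 28 35))))))) (.rp 14 (.thr 56 11 (.thr 55 4 (.thr 54 53 (.thr 60 48 (.thr 51 57 (.thr 12 25 (.dbl 44 28 35))))))) (.rp 6 (.thr 14 50 (.thr 46 34 (.thr 30 62 (.thr 29 28 (.thr 45 13 (.dbl 44 35 47)))))) (.rp 5 (.thr 50 14 (.thr 54 62 (.dbl 55 4 53))) (.rp 4 (.thr 14 50 (.thr 46 34 (.thr 30 62 (.thr 29 28 (.thr 45 13 (.dbl 44 35 47)))))) .nd))))))))))) .nd))))))))))))))))))) (.rp 58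 (.thr 16 31 (.str 48 (.nv (.thr 32 0 (.thr 40 43 (.thr 36 44 (.thr 56 11 (.dbl 24 8 12))))) (.nv (.thr 0 32 (.thr 40 43 (.thr 60 20 (.dbl 56 11 52)))) (.rp 56 (.thr 0 32 (.thr 40 43 (.thr 20 60 (.thr 24 28 (.thr 25 27 (.thr 12 36 (.dbl 8 4 59))))))) (.rp 52 (.str 7 (.nv (.thr 32 0 (.thr 40 43 (.thr 36 44 (.thr 56 11 (.dbl 24 8 12))))) (.nv (.thr 1 61 (.thr 0 32 (.thr 3 2 (.dbl 11 15 56)))) (.rp 56 (.thr 0 32 (.thr 40 43 (.thr 20 60 (.thr 24 28 (.thr 25 27 (.thr 12 36 (.dbl 8 4 59))))))) (.rp 47 (.str 15 (.nv (.dbl 11 3 56) (.rp 56 (.thr 0 32 (.thr 3 11 (.dbl 1 2 61))) (.rp 11 (.thr 0 32 (.thr 40 43 (.thr 20 60 (.thr 24 28 (.thr 8 56 (.dbl 25 27 59)))))) (.rp 3 (.thr 0 32 (.thr 43 40 (.thr 11 56 (.thr 59 27 (.thr 8 25 (.dbl 10 5 9)))))) .nd))))) (.rp 32 (.thr 11 56 (.thr 43 40 (.thr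 59 27 (.thr 8 25 (.thr 9 10 (.thr 15 3 (.thr 1 61 (.thr 13 5 (.thr 12 14 (.thr 4 0 (.thr 38 55 (.thr 44 35 (.thr 24 36 (.dbl 28 20 60)))))))))))))) (.rp 15 (.str 47 (.nv (.thr 40 43 (.thr 0 32 (.thr 56 11 (.thr 24 8 (.dbl 20 28 60))))) (.nv (.thr 43 40 (.thr 35 39 (.thr 38 44 (.thr 34 46 (.dbl 32 0 33))))) (.rp 43 (.thr 0 32 (.thr 1 61 (.thr 3 2 (.thr 33 18 (.thr 17 49 (.thr 25 29 (.thr 24 27 (.thr 12 36 (.dbl 8 4 59))))))))) (.rp 40 (.thr 0 32 (.thr 1 61 (.thr 3 2 (.thr 33 18 (.thr 17 49 (.thr 25 29 (.thr 24 27 (.thr 8 59 (.dbl 12 4 36))))))))) (.rp 32 (.thr 43 40 (.thr 39 35 (.thr 55 23 (.thr 38 4 (.thr 34 46 (.thr 50 14 (.thr 18 2 (.thr 51 49 (.dbl 17 0 19))))))))) (.rp 27 (.thr 40 43 (.thr 0 32 (.thr 20 60 (.thr 24 28 (.dbl 56 8 11))))) (.rp 0 (.thr 43 40 (.thr 35 39 (.thr 38 44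 (.thr 34 46 (.thr 50 14 (.thr 18 2 (.dbl 33 3 32))))))) .nd)))))))) (.rp 11 (.thr 32 0 (.thr 40 43 (.thr 36 44 (.thr 24 12 (.thr 8 56 (.dbl 25 27 59)))))) (.rp 3 (.thr 0 32 (.thr 11 56 (.thr 43 40 (.thr 59 27 (.thr 8 25 (.thr 9 10 (.thr 1 61 (.thr 4 12 (.dbl 5 6 13))))))))) (.rp 0 (.thr 11 56 (.thr 43 40 (.thr 59 27 (.thr 8 25 (.thr 9 10 (.thr 15 3 (.thr 1 61 (.thr 13 5 (.thr 14 12 (.thr 38 50 (.thr 55 4 (.thr 35 44 (.dbl 39 23 47))))))))))))) .nd)))))))))) (.rp 47 (.str 15 (.nv (.thr 0 32 (.thr 10 5 (.thr 11 56 (.thr 43 40 (.thr 59 27 (.dbl 8 9 25)))))) (.nv (.thr 0 32 (.thr 1 61 (.thr 3 2 (.dbl 11 7 56)))) (.rp 56 (.thr 40 43 (.thr 0 32 (.thr 20 60 (.thr 24 28 (.thr 25 27 (.thr 12 36 (.dbl 8 4 59))))))) (.rp 52 (.str 7 (.nv (.dbl 11 3 56) (.rp 56 (.thr 0 32 (.thr 3 11 (.dbl 1 2 61)))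 (.rp 11 (.thr 0 32 (.thr 40 43 (.thr 20 60 (.thr 24 28 (.thr 8 56 (.dbl 25 27 59)))))) (.rp 3 (.thr 0 32 (.thr 43 40 (.thr 11 56 (.thr 59 27 (.thr 8 25 (.dbl 10 5 9)))))) .nd))))) (.rp 32 (.thr 56 11 (.thr 40 43 (.thr 24 8 (.thr 20 28 (.dbl 60 0 52))))) (.rp 11 (.thr 40 43 (.thr 0 32 (.thr 20 60 (.thr 24 28 (.thr 8 56 (.dbl 25 27 59)))))) (.rp 7 (.str 52 (.nv (.dbl 56 11 60) (.rp 60 (.thr 32 0 (.thr 56 11 (.thr 40 43 (.thr 24 8 (.dbl 36 12 44))))) (.rp 56 (.thr 0 32 (.thr 40 43 (.thr 20 60 (.thr 36 4 (.dbl 24 12 28))))) (.rp 11 (.thr 60 56 (.thr 0 32 (.dbl 40 20 43))) .nd))))) (.rp 0 (.thr 56 11 (.thr 40 43 (.thr 24 8 (.thr 28 20 (.thr 12 36 (.dbl 60 44 52)))))) .nd))))))))) (.rp 43 (.thr 0 32 (.thr 1 61 (.thr 3 2 (.thr 18 33 (.thr 17 19 (.thr 25 29 (.thr 9 57 (.thr 12 6 (.dbl 51 34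 38))))))))) (.rp 40 (.thr 0 32 (.thr 1 61 (.thr 3 2 (.thr 18 33 (.thr 17 19 (.thr 25 29 (.thr 9 57 (.thr 12 6 (.dbl 51 34 38))))))))) (.rp 32 (.thr 40 43 (.thr 56 11 (.thr 24 8 (.thr 20 28 (.dbl 60 0 52))))) (.rp 23 (.thr 0 32 (.thr 56 11 (.thr 1 61 (.thr 3 2 (.thr 40 43 (.dbl 60 20 52)))))) (.rp 15 (.str 47 (.nv (.thr 43 40 (.thr 35 39 (.thr 38 44 (.thr 34 46 (.dbl 32 0 33))))) (.nv (.thr 0 32 (.thr 40 43 (.thr 60 20 (.dbl 56 11 52)))) (.rp 52 (.str 7 (.nv (.thr 40 43 (.thr 0 32 (.thr 56 11 (.thr 24 8 (.dbl 20 28 60))))) (.nv (.thr 43 40 (.thr 35 39 (.thr 38 44 (.thr 34 46 (.dbl 32 0 33))))) (.rp 43 (.thr 0 32 (.thr 1 61 (.thr 3 2 (.thr 33 18 (.thr 17 49 (.thr 25 29 (.thr 24 27 (.thr 12 36 (.dbl 8 4 59))))))))) (.rp 40 (.thr 0 32 (.thr 1 61 (.thr 3 2 (.thr 33 18 (.thr 17 49 (.thr 25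 29 (.thr 24 27 (.thr 8 59 (.dbl 12 4 36))))))))) (.rp 32 (.thr 43 40 (.thr 39 35 (.thr 55 23 (.thr 38 4 (.thr 34 46 (.thr 50 14 (.thr 18 2 (.thr 51 49 (.dbl 17 0 19))))))))) (.rp 27 (.thr 40 43 (.thr 0 32 (.thr 20 60 (.thr 24 28 (.dbl 56 8 11))))) (.rp 0 (.thr 43 40 (.thr 35 39 (.thr 38 44 (.thr 34 46 (.thr 50 14 (.thr 18 2 (.dbl 33 3 32))))))) .nd)))))))) (.rp 43 (.thr 1 61 (.thr 0 32 (.thr 3 2 (.thr 18 33 (.thr 17 19 (.thr 25 29 (.thr 9 57 (.thr 12 6 (.dbl 24 27 36))))))))) (.rp 40 (.thr 1 61 (.thr 0 32 (.thr 3 2 (.thr 18 33 (.thr 17 19 (.thr 25 29 (.thr 9 57 (.thr 12 6 (.dbl 24 27 36))))))))) (.rp 32 (.thr 40 43 (.thr 56 11 (.thr 24 8 (.thr 20 28 (.dbl 60 0 52))))) (.rp 7 (.str 52 (.nv (.dbl 56 11 60) (.rp 60 (.thr 43 40 (.thr 35 39 (.thr 38 44 (.thr 34 46 (.dbl 32 0 33))))) (.rp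 56 (.thr 43 40 (.thr 35 39 (.thr 38 44 (.thr 34 46 (.dbl 32 0 33))))) (.rp 11 (.str 3 (.nv (.thr 18 33 (.thr 43 40 (.thr 35 39 (.dbl 19 17 51)))) (.nv (.thr 0 32 (.dbl 1 2 61)) .nd))) (.rp 3 (.thr 11 56 (.thr 43 40 (.thr 35 39 (.thr 38 44 (.thr 34 46 (.dbl 32 0 33)))))) .nd)))))) (.rp 0 (.thr 40 43 (.thr 56 11 (.thr 52 60 (.thr 24 8 (.thr 20 28 (.dbl 36 4 12)))))) .nd))))))))) (.rp 11 (.thr 32 0 (.thr 40 43 (.thr 36 44 (.thr 24 12 (.thr 8 56 (.dbl 25 27 59)))))) (.rp 7 (.str 52 (.nv (.dbl 56 11 60) (.rp 60 (.thr 32 0 (.thr 40 43 (.thr 56 11 (.thr 24 8 (.dbl 36 12 44))))) (.rp 56 (.thr 32 0 (.thr 40 43 (.thr 36 44 (.thr 20 4 (.dbl 24 12 28))))) (.rp 47 (.str 15 (.nv (.dbl 56 11 60) (.rp 60 (.thr 32 0 (.thr 56 11 (.thr 40 43 (.thr 24 8 (.dbl 36 12 44))))) (.rp 56 (.thr 0 32 (.thr 40 43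 (.thr 20 60 (.thr 36 4 (.dbl 24 12 28))))) (.rp 11 (.thr 60 56 (.thr 0 32 (.dbl 40 20 43))) .nd))))) (.rp 15 (.str 47 (.nv (.dbl 56 11 60) (.rp 60 (.thr 43 40 (.thr 35 39 (.thr 38 44 (.thr 34 46 (.dbl 32 0 33))))) (.rp 56 (.thr 43 40 (.thr 35 39 (.thr 38 44 (.thr 34 46 (.dbl 32 0 33))))) (.rp 11 (.str 3 (.nv (.thr 18 33 (.thr 43 40 (.thr 35 39 (.dbl 19 17 51)))) (.nv (.thr 0 32 (.dbl 1 2 61)) .nd))) (.rp 3 (.thr 11 56 (.thr 43 40 (.thr 35 39 (.thr 38 44 (.thr 34 46 (.dbl 32 0 33)))))) .nd)))))) (.rp 11 (.thr 0 32 (.thr 40 43 (.dbl 60 20 56))) .nd))))))) (.rp 3 (.thr 0 32 (.thr 43 40 (.thr 11 56 (.thr 59 27 (.thr 8 25 (.thr 4 12 (.thr 38 55 (.thr 14 50 (.thr 10 9 (.thr 6 2 (.dbl 5 7 15))))))))))) (.rp 0 (.thr 40 43 (.thr 56 11 (.thr 24 8 (.thr 52 60 (.thr 20 28 (.dbl 36 4 12)))))) .nd))))))))))))))))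 (.rp 57 (.thr 43 40 (.thr 11 56 (.thr 10 58 (.thr 59 27 (.dbl 8 9 25))))) (.rp 56 (.thr 58 10 (.thr 61 1 (.str 38 (.nv (.thr 31 16 (.thr 44 35 (.thr 46 34 (.thr 45 47 (.thr 14 50 (.thr 29 13 (.dbl 30 28 62))))))) (.nv (.thr 4 55 (.thr 14 50 (.thr 44 35 (.thr 46 34 (.thr 30 62 (.thr 45 47 (.thr 15 60 (.dbl 13 12 29)))))))) (.nv (.thr 4 55 (.thr 14 50 (.thr 31 16 (.thr 46 34 (.thr 30 62 (.thr 29 28 (.thr 45 13 (.dbl 44 35 47)))))))) (.nv (.thr 4 55 (.thr 16 31 (.thr 40 43 (.thr 44 35 (.thr 32 36 (.thr 0 48 (.thr 12 8 (.dbl 60 20 28)))))))) (.nv (.thr 55 4 (.thr 44 35 (.thr 46 34 (.thr 45 47 (.thr 31 16 (.thr 14 50 (.thr 30 62 (.dbl 29 13 28)))))))) (.rp 52 (.str 7 (.nv (.thr 35 44 (.thr 55 4 (.thr 39 23 (.dbl 43 40 47)))) (.rp 60 (.str 48 (.nv (.thr 16 31 (.thr 0 32 (.thr 50 14 (.thr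 51 49 (.dbl 34 17 46))))) (.nv (.thr 55 4 (.thr 35 44 (.thr 39 23 (.dbl 43 40 47)))) (.rp 47 (.thr 34 46 (.thr 50 14 (.thr 51 49 (.thr 17 0 (.dbl 25 12 29))))) .nd)))) (.rp 55 (.thr 44 35 (.thr 46 34 (.thr 45 47 (.thr 13 29 (.thr 14 50 (.thr 30 62 (.dbl 15 12 60))))))) (.rp 48 (.str 60 (.nv (.thr 4 55 (.thr 34 46 (.thr 40 43 (.thr 0 20 (.thr 12 8 (.dbl 51 17 25)))))) (.nv (.thr 44 35 (.thr 12 28 (.thr 50 14 (.thr 54 62 (.dbl 51 25 57))))) (.nv (.thr 35 44 (.thr 55 4 (.thr 39 23 (.dbl 43 40 47)))) .nd)))) (.rp 47 (.thr 43 40 (.thr 55 4 (.thr 23 39 (.thr 31 16 (.thr 27 19 (.thr 59 11 (.dbl 25 8 24))))))) (.rp 44 (.thr 43 40 (.thr 55 4 (.thr 23 39 (.thr 31 16 (.thr 27 19 (.thr 59 11 (.dbl 25 8 24))))))) (.rp 43 (.thr 44 35 (.thr 46 34 (.thr 14 50 (.thr 30 62 (.thr 31 16 (.thr 29 28 (.dbl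 45 13 47))))))) (.rp 40 (.thr 44 35 (.thr 46 34 (.thr 45 47 (.thr 13 29 (.thr 14 50 (.thr 30 62 (.dbl 15 12 60))))))) (.rp 39 (.thr 44 35 (.thr 46 34 (.thr 14 50 (.thr 30 62 (.thr 31 16 (.thr 29 28 (.dbl 45 13 47))))))) (.rp 36 (.thr 44 35 (.thr 46 34 (.thr 45 47 (.thr 13 29 (.thr 14 50 (.thr 30 62 (.dbl 15 12 60))))))) (.rp 35 (.thr 43 40 (.thr 55 4 (.thr 23 39 (.thr 31 16 (.thr 27 19 (.thr 59 11 (.dbl 25 8 24))))))) (.rp 23 (.thr 44 35 (.thr 46 34 (.thr 45 47 (.thr 13 29 (.thr 14 50 (.thr 30 62 (.dbl 15 12 60))))))) (.rp 20 (.thr 43 40 (.thr 35 44 (.thr 39 47 (.dbl 55 4 23)))) (.rp 4 (.thr 44 35 (.thr 46 34 (.thr 45 47 (.thr 13 29 (.thr 14 50 (.thr 30 62 (.dbl 15 12 60))))))) .nd))))))))))))))) (.rp 47 (.thr 46 34 (.thr 31 16 (.thr 14 50 (.thr 30 62 (.thr 29 28 (.thr 25 17 (.thr 13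 45 (.dbl 12 15 51)))))))) (.rp 44 (.thr 46 34 (.thr 31 16 (.thr 14 50 (.thr 30 62 (.thr 29 28 (.thr 25 17 (.thr 13 45 (.dbl 12 15 51)))))))) (.rp 35 (.thr 46 34 (.thr 31 16 (.thr 14 50 (.thr 30 62 (.thr 29 28 (.thr 25 17 (.thr 13 45 (.dbl 12 15 51)))))))) (.rp 7 (.str 52 (.nv (.thr 4 55 (.thr 36 20 (.thr 40 43 (.dbl 44 32 35)))) (.nv (.thr 55 4 (.thr 54 53 (.dbl 50 14 62))) (.rp 55 (.thr 40 43 (.thr 44 35 (.thr 36 32 (.thr 16 31 (.thr 20 4 (.thr 28 24 (.dbl 60 0 12))))))) (.rp 4 (.thr 50 14 (.thr 54 62 (.thr 53 55 (.thr 57 49 (.thr 51 60 (.dbl 25 9 12)))))) .nd))))) .nd))))))))))))) (.rp 52 (.str 7 (.nv (.thr 10 58 (.thr 43 40 (.thr 11 56 (.thr 59 27 (.dbl 8 9 25))))) (.nv (.thr 1 61 (.thr 10 58 (.thr 11 56 (.thr 3 15 (.thr 2 0 (.thr 6 14 (.dbl 9 8 12))))))) (.nv (.thr 40 43 (.thr 56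 11 (.thr 8 24 (.thr 58 10 (.dbl 59 25 57))))) (.rp 59 (.thr 31 16 (.thr 43 40 (.thr 56 11 (.str 55 (.nv (.thr 39 23 (.thr 35 47 (.dbl 38 4 44))) (.rp 47 (.thr 23 39 (.thr 27 19 (.thr 25 24 (.thr 9 57 (.thr 1 61 (.thr 5 13 (.dbl 4 6 38))))))) (.rp 44 (.thr 23 39 (.thr 27 19 (.thr 25 24 (.thr 9 57 (.thr 1 61 (.thr 5 13 (.dbl 4 6 38))))))) (.rp 39 (.thr 38 4 (.thr 44 35 (.thr 46 34 (.thr 45 47 (.thr 14 50 (.thr 30 62 (.thr 29 28 (.dbl 61 1 13)))))))) (.rp 38 (.thr 39 23 (.str 6 (.nv (.thr 5 4 (.thr 10 58 (.thr 2 14 (.thr 0 15 (.dbl 1 3 61))))) (.nv (.thr 1 61 (.thr 5 4 (.thr 9 13 (.thr 25 57 (.thr 27 24 (.thr 15 51 (.dbl 10 0 58))))))) (.nv (.thr 1 61 (.thr 10 58 (.thr 2 14 (.thr 0 3 (.dbl 5 4 15))))) (.rp 61 (.thr 10 58 (.thr 5 4 (.thr 35 47 (.thr 14 2 (.thr 15 0 (.thr 12 13 (.thr 3 9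 (.dbl 51 19 27)))))))) (.rp 58 (.thr 5 4 (.thr 35 47 (.thr 1 61 (.thr 9 13 (.thr 25 57 (.thr 27 24 (.thr 3 12 (.dbl 51 15 19)))))))) (.rp 53 (.thr 5 4 (.thr 1 61 (.thr 9 13 (.thr 3 12 (.thr 0 2 (.dbl 10 15 58)))))) (.rp 15 (.thr 10 58 (.thr 5 4 (.thr 2 14 (.thr 1 61 (.thr 3 0 (.dbl 9 12 13)))))) (.rp 10 (.thr 5 4 (.thr 35 47 (.thr 1 61 (.thr 9 13 (.thr 25 57 (.thr 27 24 (.thr 3 12 (.dbl 51 15 19)))))))) (.rp 5 (.thr 10 58 (.thr 35 47 (.thr 2 14 (.thr 1 61 (.thr 3 0 (.thr 9 12 (.thr 25 57 (.thr 27 24 (.dbl 51 15 19))))))))) (.rp 4 (.thr 10 58 (.thr 35 47 (.thr 2 14 (.thr 1 61 (.thr 3 0 (.thr 51 19 (.thr 27 15 (.thr 25 24 (.dbl 9 12 57))))))))) (.rp 1 (.thr 10 58 (.thr 5 4 (.thr 35 47 (.thr 15 0 (.thr 51 27 (.thr 3 19 (.thr 12 9 (.dbl 14 2 13)))))))) (.rp 0 (.thr 5 4 (.thr 35 47 (.thr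 1 61 (.thr 9 13 (.thr 25 57 (.thr 27 24 (.thr 51 15 (.dbl 3 12 19)))))))) .nd)))))))))))))) (.rp 35 (.thr 23 39 (.thr 27 19 (.thr 25 24 (.thr 9 57 (.thr 1 61 (.thr 5 13 (.dbl 4 6 38))))))) (.rp 23 (.thr 38 4 (.thr 44 35 (.thr 46 34 (.thr 45 47 (.thr 14 50 (.thr 30 62 (.thr 29 28 (.dbl 61 1 13)))))))) (.rp 4 (.thr 10 58 (.thr 39 23 (.thr 35 47 (.thr 38 44 (.thr 14 50 (.thr 2 6 (.thr 1 61 (.thr 3 0 (.thr 51 19 (.thr 15 27 (.dbl 12 13 25))))))))))) .nd)))))))))))) (.rp 58 (.thr 43 40 (.thr 11 56 (.thr 59 27 (.thr 8 25 (.thr 9 10 (.thr 1 61 (.thr 3 15 (.thr 12 6 (.dbl 0 2 4))))))))) (.rp 56 (.str 14 (.nv (.thr 1 61 (.thr 10 58 (.thr 6 2 (.thr 5 4 (.thr 13 9 (.dbl 15 0 12)))))) (.nv (.thr 38 50 (.thr 35 44 (.thr 43 40 (.thr 39 47 (.dbl 55 4 23))))) (.nv (.thr 10 58 (.thr 6 2 (.thr 4 5 (.dbl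 38 50 55)))) (.rp 60 (.str 48 (.nv (.thr 10 58 (.thr 6 2 (.thr 5 4 (.thr 0 15 (.dbl 16 31 32))))) (.nv (.thr 16 31 (.thr 32 0 (.thr 38 50 (.thr 34 46 (.dbl 35 33 44))))) (.nv (.thr 10 58 (.thr 6 2 (.thr 4 5 (.dbl 38 50 55)))) (.rp 62 (.thr 61 1 (.thr 10 58 (.thr 6 2 (.thr 4 5 (.dbl 38 50 55))))) (.rp 61 (.str 62 (.nv (.thr 38 50 (.dbl 46 30 34)) (.nv (.thr 58 10 (.dbl 50 38 54)) (.rp 50 (.thr 10 58 (.thr 46 30 (.thr 38 34 (.thr 4 55 (.dbl 6 2 5))))) (.rp 38 (.thr 10 58 (.thr 6 2 (.thr 16 31 (.thr 0 32 (.dbl 5 4 15))))) .nd))))) .nd)))))) (.rp 48 (.str 60 (.nv (.thr 1 61 (.thr 40 43 (.thr 0 20 (.thr 3 2 (.thr 15 11 (.dbl 10 5 58)))))) (.nv (.thr 16 31 (.thr 38 50 (.thr 40 43 (.thr 20 0 (.thr 28 24 (.dbl 44 12 35)))))) (.nv (.thr 38 50 (.thr 4 55 (.thr 6 5 (.dbl 10 2 58)))) (.rp 58 (.str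 53 (.nv (.thr 43 40 (.thr 38 50 (.thr 35 44 (.thr 39 47 (.dbl 55 4 23))))) (.nv (.thr 61 1 (.thr 57 49 (.thr 25 9 (.thr 38 50 (.dbl 51 12 54))))) (.rp 62 (.thr 40 43 (.thr 20 0 (.thr 16 31 (.thr 28 24 (.thr 44 12 (.thr 36 32 (.dbl 38 35 50))))))) (.rp 59 (.str 57 (.nv (.thr 51 54 (.thr 25 9 (.dbl 38 12 50))) (.nv (.dbl 61 1 49) (.rp 51 (.str 55 (.nv (.dbl 61 1 49) (.nv (.dbl 38 4 50) (.rp 50 (.thr 49 61 (.thr 25 9 (.thr 27 24 (.thr 23 39 (.dbl 31 16 19))))) (.rp 49 (.thr 50 38 (.thr 25 9 (.thr 27 24 (.thr 31 16 (.dbl 23 19 39))))) .nd))))) .nd)))) (.rp 57 (.str 59 (.nv (.thr 38 50 (.thr 44 35 (.thr 46 34 (.thr 45 47 (.dbl 30 15 62))))) (.nv (.thr 43 40 (.thr 27 11 (.dbl 25 8 24))) (.rp 43 (.thr 25 8 (.thr 38 50 (.thr 44 35 (.dbl 12 28 51)))) .nd)))) (.rp 54 (.thr 40 43 (.thr 20 0 (.thr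 16 31 (.thr 28 24 (.thr 44 12 (.thr 36 32 (.dbl 38 35 50))))))) (.rp 51 (.thr 40 43 (.thr 20 0 (.thr 16 31 (.thr 28 24 (.thr 44 12 (.thr 36 32 (.dbl 38 35 50))))))) (.rp 50 (.thr 40 43 (.thr 20 0 (.thr 16 31 (.thr 24 28 (.thr 25 27 (.thr 57 9 (.dbl 61 1 49))))))) (.rp 49 (.thr 40 43 (.thr 20 0 (.thr 16 31 (.thr 28 24 (.thr 44 12 (.thr 36 32 (.dbl 38 35 50))))))) (.rp 38 (.thr 40 43 (.thr 20 0 (.thr 16 31 (.thr 24 28 (.thr 25 27 (.thr 57 9 (.dbl 61 1 49))))))) .nd))))))))))) (.rp 53 (.thr 58 10 (.thr 43 40 (.thr 38 50 (.thr 55 4 (.thr 39 23 (.dbl 35 44 47)))))) .nd)))))) (.rp 4 (.thr 43 40 (.thr 10 58 (.thr 1 61 (.thr 2 6 (.thr 3 0 (.thr 11 15 (.thr 8 9 (.dbl 59 25 27)))))))) .nd))))))) (.rp 11 (.str 14 (.nv (.thr 1 61 (.thr 10 58 (.thr 6 2 (.thr 5 4 (.thr 13 9 (.dbl 15 0 12)))))) (.nv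 (.thr 38 50 (.thr 35 44 (.thr 43 40 (.thr 39 47 (.dbl 55 4 23))))) (.nv (.thr 10 58 (.thr 6 2 (.thr 4 5 (.dbl 38 50 55)))) (.rp 4 (.thr 40 43 (.thr 10 58 (.thr 1 61 (.thr 6 2 (.thr 16 31 (.thr 38 50 (.thr 34 46 (.thr 35 44 (.thr 33 32 (.thr 17 49 (.thr 18 19 (.thr 51 0 (.dbl 25 12 29))))))))))))) .nd))))) (.rp 10 (.thr 43 40 (.thr 11 56 (.thr 27 59 (.thr 15 3 (.thr 31 16 (.thr 23 19 (.dbl 39 51 55))))))) (.rp 8 (.thr 11 56 (.thr 10 58 (.thr 1 61 (.thr 15 3 (.thr 5 0 (.thr 4 6 (.thr 38 55 (.thr 14 50 (.dbl 13 9 12))))))))) .nd)))))))))) (.rp 43 (.thr 1 61 (.str 3 (.nv (.thr 10 58 (.thr 11 56 (.thr 7 15 (.thr 9 8 (.thr 5 13 (.dbl 6 4 12)))))) (.nv (.thr 2 0 (.thr 10 58 (.thr 6 14 (.thr 11 56 (.dbl 9 8 12))))) (.nv (.thr 0 2 (.thr 10 58 (.thr 15 5 (.dbl 11 7 56)))) (.rp 62 (.str 60 (.nv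 (.thr 2 0 (.thr 10 58 (.thr 6 14 (.thr 11 56 (.dbl 9 8 12))))) (.nv (.thr 0 2 (.thr 16 31 (.thr 48 32 (.dbl 56 11 52)))) (.rp 56 (.thr 10 58 (.thr 0 2 (.thr 5 15 (.thr 9 13 (.thr 8 11 (.dbl 25 57 59)))))) (.rp 52 (.str 7 (.nv (.dbl 11 15 56) (.rp 56 (.thr 15 11 (.thr 0 2 (.dbl 10 5 58))) (.rp 15 (.thr 2 0 (.thr 11 56 (.thr 10 58 (.thr 9 8 (.dbl 6 12 14))))) (.rp 11 (.thr 0 2 (.thr 10 58 (.thr 5 15 (.thr 6 4 (.dbl 9 12 13))))) .nd))))) (.rp 48 (.thr 56 11 (.thr 58 10 (.thr 59 57 (.thr 8 25 (.thr 40 24 (.dbl 0 2 20)))))) (.rp 11 (.thr 10 58 (.thr 0 2 (.thr 5 15 (.thr 9 13 (.thr 25 57 (.thr 12 6 (.dbl 8 4 59))))))) (.rp 7 (.str 52 (.nv (.dbl 56 11 48) (.rp 56 (.thr 0 2 (.thr 10 58 (.thr 5 15 (.thr 9 13 (.thr 8 11 (.dbl 25 57 59)))))) (.rp 48 (.thr 0 2 (.thr 58 10 (.thr 56 11 (.thr 59 57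 (.thr 8 25 (.dbl 40 20 24)))))) (.rp 11 (.thr 0 2 (.thr 48 56 (.dbl 16 31 32))) .nd))))) (.rp 2 (.thr 11 56 (.thr 10 58 (.thr 9 8 (.thr 5 13 (.dbl 15 0 7))))) (.rp 0 (.thr 11 56 (.thr 10 58 (.thr 9 8 (.thr 13 5 (.thr 12 6 (.dbl 15 7 14)))))) .nd)))))))))) (.rp 60 (.str 62 (.nv (.thr 58 10 (.thr 50 54 (.thr 38 14 (.thr 34 46 (.dbl 2 0 18))))) (.nv (.thr 0 2 (.thr 10 58 (.thr 15 5 (.dbl 11 7 56)))) (.rp 58 (.thr 16 31 (.thr 0 2 (.thr 48 32 (.thr 33 18 (.thr 17 49 (.thr 25 29 (.thr 24 27 (.thr 12 36 (.dbl 9 6 57))))))))) (.rp 52 (.str 7 (.nv (.dbl 11 15 56) (.rp 56 (.str 48 (.nv (.thr 33 18 (.thr 58 10 (.thr 50 54 (.dbl 49 17 51)))) (.nv (.thr 0 2 (.dbl 16 31 32)) .nd))) (.rp 48 (.thr 56 11 (.thr 58 10 (.thr 50 54 (.thr 38 14 (.thr 34 46 (.dbl 2 0 18)))))) (.rp 15 (.thr 58 10 (.thr 50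 54 (.thr 38 14 (.thr 34 46 (.dbl 2 0 18))))) (.rp 11 (.thr 58 10 (.thr 50 54 (.thr 38 14 (.thr 34 46 (.dbl 2 0 18))))) .nd)))))) (.rp 10 (.thr 16 31 (.thr 0 2 (.thr 48 32 (.thr 33 18 (.thr 17 49 (.thr 25 29 (.thr 24 27 (.thr 12 36 (.dbl 9 6 57))))))))) (.rp 7 (.str 52 (.nv (.thr 10 58 (.thr 0 2 (.thr 11 56 (.thr 9 8 (.dbl 5 13 15))))) (.nv (.thr 58 10 (.thr 50 54 (.thr 38 14 (.thr 34 46 (.dbl 2 0 18))))) (.rp 58 (.thr 0 2 (.thr 16 31 (.thr 48 32 (.thr 18 33 (.thr 17 19 (.thr 25 29 (.thr 9 57 (.thr 12 6 (.dbl 8 4 59))))))))) (.rp 57 (.thr 10 58 (.thr 0 2 (.thr 5 15 (.thr 9 13 (.dbl 11 8 56))))) (.rp 10 (.thr 0 2 (.thr 16 31 (.thr 48 32 (.thr 18 33 (.thr 17 19 (.thr 25 29 (.thr 9 57 (.thr 8 59 (.dbl 12 4 6))))))))) (.rp 2 (.thr 58 10 (.thr 54 50 (.thr 55 53 (.thr 38 4 (.thr 34 46 (.thr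 35 44 (.thr 33 32 (.thr 51 19 (.dbl 17 0 49))))))))) (.rp 0 (.thr 58 10 (.thr 50 54 (.thr 38 14 (.thr 34 46 (.thr 35 44 (.thr 33 32 (.dbl 18 2 48))))))) .nd)))))))) (.rp 2 (.thr 10 58 (.thr 11 56 (.thr 9 8 (.thr 5 13 (.dbl 15 0 7))))) (.rp 0 (.thr 10 58 (.thr 11 56 (.thr 7 15 (.thr 9 8 (.thr 5 13 (.dbl 6 4 12)))))) .nd))))))))) (.rp 58 (.thr 0 2 (.thr 16 31 (.thr 48 32 (.thr 33 18 (.thr 17 49 (.thr 25 29 (.thr 24 27 (.thr 12 36 (.dbl 51 34 38))))))))) (.rp 56 (.thr 2 0 (.thr 10 58 (.thr 6 14 (.thr 9 12 (.thr 8 11 (.dbl 25 57 59)))))) (.rp 53 (.thr 0 2 (.thr 11 56 (.thr 16 31 (.thr 48 32 (.thr 10 58 (.dbl 15 5 7)))))) (.rp 52 (.str 7 (.nv (.dbl 11 15 56) (.rp 62 (.str 60 (.nv (.dbl 11 15 56) (.rp 56 (.thr 15 11 (.thr 0 2 (.dbl 10 5 58))) (.rp 15 (.thr 2 0 (.thr 11 56 (.thr 10 58 (.thr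 9 8 (.dbl 6 12 14))))) (.rp 11 (.thr 0 2 (.thr 10 58 (.thr 5 15 (.thr 6 4 (.dbl 9 12 13))))) .nd))))) (.rp 60 (.str 62 (.nv (.dbl 11 15 56) (.rp 56 (.str 48 (.nv (.thr 33 18 (.thr 58 10 (.thr 50 54 (.dbl 49 17 51)))) (.nv (.thr 0 2 (.dbl 16 31 32)) .nd))) (.rp 48 (.thr 56 11 (.thr 58 10 (.thr 50 54 (.thr 38 14 (.thr 34 46 (.dbl 2 0 18)))))) (.rp 15 (.thr 58 10 (.thr 50 54 (.thr 38 14 (.thr 34 46 (.dbl 2 0 18))))) (.rp 11 (.thr 58 10 (.thr 50 54 (.thr 38 14 (.thr 34 46 (.dbl 2 0 18))))) .nd)))))) (.rp 56 (.thr 0 2 (.thr 10 58 (.dbl 15 5 11))) (.rp 15 (.thr 2 0 (.thr 10 58 (.thr 11 56 (.thr 9 8 (.dbl 6 12 14))))) (.rp 11 (.thr 2 0 (.thr 10 58 (.thr 6 14 (.thr 5 4 (.dbl 9 12 13))))) .nd))))))) (.rp 48 (.thr 0 2 (.thr 58 10 (.thr 56 11 (.thr 59 57 (.thr 8 25 (.thr 4 12 (.thr 38 55 (.thr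 44 35 (.thr 40 24 (.thr 36 32 (.dbl 20 52 60))))))))))) (.rp 11 (.thr 0 2 (.thr 10 58 (.thr 5 15 (.thr 9 13 (.thr 25 57 (.thr 12 6 (.dbl 8 4 59))))))) (.rp 10 (.thr 0 2 (.thr 16 31 (.thr 48 32 (.thr 33 18 (.thr 17 49 (.thr 25 29 (.thr 24 27 (.thr 12 36 (.dbl 51 34 38))))))))) (.rp 7 (.str 52 (.nv (.thr 2 0 (.thr 10 58 (.thr 6 14 (.thr 11 56 (.dbl 9 8 12))))) (.nv (.thr 16 31 (.thr 0 2 (.thr 48 32 (.dbl 56 11 60)))) (.rp 62 (.str 60 (.nv (.dbl 56 11 48) (.rp 56 (.thr 0 2 (.thr 10 58 (.thr 5 15 (.thr 9 13 (.thr 8 11 (.dbl 25 57 59)))))) (.rp 48 (.thr 0 2 (.thr 58 10 (.thr 56 11 (.thr 59 57 (.thr 8 25 (.dbl 40 20 24)))))) (.rp 11 (.thr 0 2 (.thr 48 56 (.dbl 16 31 32))) .nd))))) (.rp 60 (.str 62 (.nv (.thr 10 58 (.thr 0 2 (.thr 11 56 (.thr 9 8 (.dbl 5 13 15))))) (.nv (.thr 58 10 (.thr 50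 54 (.thr 38 14 (.thr 34 46 (.dbl 2 0 18))))) (.rp 58 (.thr 0 2 (.thr 16 31 (.thr 48 32 (.thr 18 33 (.thr 17 19 (.thr 25 29 (.thr 9 57 (.thr 12 6 (.dbl 8 4 59))))))))) (.rp 57 (.thr 10 58 (.thr 0 2 (.thr 5 15 (.thr 9 13 (.dbl 11 8 56))))) (.rp 10 (.thr 0 2 (.thr 16 31 (.thr 48 32 (.thr 18 33 (.thr 17 19 (.thr 25 29 (.thr 9 57 (.thr 8 59 (.dbl 12 4 6))))))))) (.rp 2 (.thr 58 10 (.thr 54 50 (.thr 55 53 (.thr 38 4 (.thr 34 46 (.thr 35 44 (.thr 33 32 (.thr 51 19 (.dbl 17 0 49))))))))) (.rp 0 (.thr 58 10 (.thr 50 54 (.thr 38 14 (.thr 34 46 (.thr 35 44 (.thr 33 32 (.dbl 18 2 48))))))) .nd)))))))) (.rp 56 (.thr 2 0 (.thr 10 58 (.thr 6 14 (.thr 9 12 (.thr 8 11 (.dbl 25 57 59)))))) (.rp 48 (.thr 0 2 (.thr 56 11 (.thr 58 10 (.thr 59 57 (.thr 8 25 (.thr 24 40 (.thr 16 31 (.thr 4 12 (.dbl 20 28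 36))))))))) (.rp 11 (.thr 0 2 (.thr 10 58 (.thr 5 15 (.thr 9 13 (.thr 25 57 (.thr 12 6 (.dbl 8 4 59))))))) (.rp 2 (.thr 56 11 (.thr 58 10 (.thr 59 57 (.thr 8 25 (.thr 24 40 (.thr 60 48 (.thr 16 31 (.thr 28 20 (.thr 12 44 (.thr 4 0 (.thr 38 55 (.thr 14 50 (.thr 9 6 (.dbl 13 5 15)))))))))))))) (.rp 0 (.thr 56 11 (.thr 58 10 (.thr 59 57 (.thr 8 25 (.thr 24 40 (.thr 60 48 (.thr 16 31 (.thr 28 20 (.thr 44 12 (.thr 38 35 (.thr 55 4 (.thr 50 14 (.dbl 54 53 62))))))))))))) .nd)))))))))) .nd))))))))))))))) (.rp 40 (.thr 61 1 (.thr 31 16 (.thr 58 10 (.str 38 (.nv (.thr 14 50 (.thr 46 34 (.thr 30 62 (.thr 29 28 (.thr 45 13 (.dbl 44 35 47)))))) (.nv (.thr 50 14 (.thr 56 11 (.thr 57 59 (.thr 49 53 (.thr 51 48 (.dbl 25 9 12)))))) (.nv (.thr 44 35 (.thr 46 34 (.thr 45 47 (.thr 14 50 (.thr 30 62 (.dbl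 29 13 28)))))) (.rp 52 (.str 7 (.nv (.thr 4 55 (.thr 50 14 (.thr 54 62 (.thr 56 11 (.thr 57 59 (.thr 51 60 (.dbl 25 9 12))))))) (.nv (.thr 35 44 (.thr 55 4 (.thr 23 39 (.thr 19 27 (.thr 11 56 (.dbl 3 15 51)))))) (.nv (.thr 14 50 (.thr 46 34 (.thr 30 62 (.thr 44 35 (.thr 45 47 (.dbl 29 13 28)))))) .nd)))) (.rp 50 (.thr 56 11 (.thr 57 59 (.thr 46 34 (.thr 44 35 (.thr 45 47 (.thr 29 13 (.dbl 25 9 17))))))) (.rp 14 (.thr 56 11 (.thr 57 59 (.thr 46 34 (.thr 44 35 (.thr 45 47 (.thr 29 13 (.dbl 25 9 17))))))) (.rp 7 (.str 52 (.nv (.thr 50 14 (.thr 54 62 (.thr 56 11 (.thr 60 48 (.dbl 57 51 59))))) (.nv (.thr 56 11 (.thr 57 59 (.thr 53 49 (.dbl 55 4 54)))) (.nv (.thr 55 4 (.thr 54 53 (.dbl 50 14 62))) (.rp 54 (.thr 56 11 (.thr 57 59 (.thr 48 60 (.thr 49 53 (.dbl 50 14 51))))) .nd))))) (.rp 2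 (.thr 46 34 (.thr 44 35 (.thr 45 47 (.thr 29 13 (.thr 30 28 (.dbl 14 50 62)))))) .nd)))))))))))) (.rp 27 (.thr 40 43 (.thr 58 10 (.thr 56 11 (.thr 59 57 (.dbl 8 24 25))))) (.rp 25 (.str 0 (.nv (.thr 40 43 (.thr 20 60 (.thr 56 11 (.thr 24 8 (.dbl 16 28 31))))) (.nv (.thr 10 58 (.thr 5 15 (.thr 11 56 (.thr 9 8 (.dbl 1 13 61))))) (.nv (.thr 1 61 (.thr 3 2 (.thr 10 58 (.thr 11 56 (.dbl 15 5 7))))) (.nv (.thr 16 31 (.thr 48 32 (.thr 40 43 (.thr 60 20 (.dbl 56 11 52))))) (.rp 56 (.thr 40 43 (.thr 60 20 (.thr 16 31 (.thr 32 48 (.thr 44 36 (.thr 38 35 (.thr 4 55 (.dbl 12 8 28)))))))) (.rp 52 .ext (.rp 49 .ext (.rp 28 .ext (.rp 19 (.str 28 (.nv (.thr 40 43 (.thr 56 11 (.thr 24 8 (.dbl 16 20 31)))) (.nv (.thr 1 61 (.thr 3 2 (.thr 10 58 (.thr 11 56 (.dbl 15 5 7))))) (.nv (.thr 16 31 (.thr 20 24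 (.dbl 40 43 60))) (.rp 52 (.str 7 (.nv (.thr 16 31 (.thr 20 24 (.dbl 40 43 60))) (.nv (.thr 10 58 (.thr 15 5 (.dbl 11 3 56))) (.rp 49 (.str 13 (.nv (.thr 10 58 (.thr 11 56 (.dbl 15 3 5))) (.nv (.thr 31 16 (.thr 29 30 (.dbl 61 1 45))) .nd))) (.rp 15 (.thr 40 43 (.thr 20 60 (.dbl 16 24 31))) (.rp 13 (.str 49 (.nv (.thr 40 43 (.thr 56 11 (.thr 24 8 (.dbl 16 20 31)))) (.nv (.thr 16 31 (.thr 20 24 (.dbl 40 43 60))) (.nv (.thr 1 61 (.thr 3 2 (.dbl 11 15 56))) .nd)))) .nd)))))) (.rp 49 (.str 13 (.nv (.thr 10 58 (.thr 11 56 (.thr 9 8 (.dbl 5 1 15)))) (.nv (.thr 31 16 (.thr 29 30 (.dbl 61 1 45))) (.rp 52 (.str 7 (.nv (.thr 10 58 (.thr 11 56 (.dbl 15 3 5))) (.nv (.thr 31 16 (.thr 29 30 (.dbl 61 1 45))) .nd))) (.rp 7 (.str 52 (.nv (.thr 40 43 (.thr 56 11 (.dbl 60 20 48))) (.nv (.thr 61 1 (.thr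 29 45 (.dbl 31 16 30))) .nd))) (.rp 1 (.thr 16 31 (.thr 20 24 (.dbl 40 43 60))) .nd)))))) (.rp 13 (.str 49 (.nv (.thr 56 11 (.thr 58 10 (.thr 61 1 (.dbl 57 53 59)))) (.nv (.thr 16 31 (.thr 20 24 (.dbl 40 43 60))) (.rp 52 (.str 7 (.nv (.thr 40 43 (.thr 56 11 (.thr 24 8 (.dbl 16 20 31)))) (.nv (.thr 16 31 (.thr 20 24 (.dbl 40 43 60))) (.nv (.thr 1 61 (.thr 3 2 (.dbl 11 15 56))) .nd)))) (.rp 7 (.str 52 (.nv (.thr 16 31 (.thr 20 24 (.dbl 40 43 60))) (.nv (.thr 58 10 (.thr 61 1 (.thr 57 53 (.dbl 56 11 59)))) (.nv (.thr 40 43 (.thr 60 20 (.dbl 56 11 48))) .nd)))) .nd))))) (.rp 7 (.str 52 (.nv (.thr 16 31 (.thr 20 24 (.dbl 40 43 60))) (.nv (.thr 10 58 (.thr 5 15 (.thr 11 56 (.thr 9 8 (.dbl 1 13 61))))) (.nv (.thr 40 43 (.thr 60 20 (.dbl 56 11 48))) (.rp 49 (.str 13 (.nv (.thr 40 43 (.thr 56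 11 (.dbl 60 20 48))) (.nv (.thr 61 1 (.thr 29 45 (.dbl 31 16 30))) .nd))) (.rp 40 (.thr 16 31 (.thr 48 32 (.dbl 56 11 60))) (.rp 13 (.str 49 (.nv (.thr 16 31 (.thr 20 24 (.dbl 40 43 60))) (.nv (.thr 58 10 (.thr 61 1 (.thr 57 53 (.dbl 56 11 59)))) (.nv (.thr 40 43 (.thr 60 20 (.dbl 56 11 48))) .nd)))) .nd))))))) .nd)))))))) (.rp 13 .ext (.rp 11 (.thr 40 43 (.thr 60 20 (.thr 16 31 (.thr 32 48 (.thr 44 36 (.thr 38 35 (.thr 4 55 (.dbl 12 8 28)))))))) (.rp 7 .ext .nd))))))))))))) (.rp 11 (.thr 43 40 (.thr 31 16 (.str 38 (.nv (.thr 1 61 (.thr 4 55 (.thr 34 46 (.thr 50 14 (.thr 2 18 (.thr 0 3 (.thr 12 8 (.dbl 51 17 25)))))))) (.nv (.thr 1 61 (.thr 4 55 (.thr 10 58 (.thr 14 50 (.thr 2 6 (.thr 0 3 (.thr 12 8 (.dbl 15 5 13)))))))) (.nv (.thr 44 35 (.thr 46 34 (.thr 45 47 (.thr 14 50 (.thr 61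 1 (.thr 29 13 (.dbl 30 28 62))))))) (.rp 62 (.thr 46 34 (.thr 61 1 (.thr 44 35 (.thr 45 47 (.thr 29 13 (.thr 25 17 (.thr 28 30 (.dbl 12 51 60)))))))) (.rp 61 (.thr 46 34 (.thr 14 50 (.thr 44 35 (.thr 45 47 (.thr 30 62 (.thr 60 15 (.dbl 28 12 29))))))) (.rp 52 (.str 7 (.nv (.thr 4 55 (.thr 6 5 (.thr 10 58 (.dbl 14 2 50)))) (.nv (.thr 55 4 (.thr 39 23 (.dbl 35 44 47))) (.rp 55 (.thr 10 58 (.thr 14 50 (.thr 6 2 (.thr 1 61 (.thr 5 4 (.thr 13 9 (.dbl 15 0 12))))))) (.rp 4 (.thr 35 44 (.thr 39 47 (.thr 23 55 (.thr 27 19 (.thr 51 15 (.dbl 25 12 24)))))) .nd))))) (.rp 50 (.thr 46 34 (.thr 61 1 (.thr 44 35 (.thr 45 47 (.thr 29 13 (.thr 25 17 (.thr 28 30 (.dbl 12 51 60)))))))) (.rp 14 (.thr 46 34 (.thr 61 1 (.thr 44 35 (.thr 45 47 (.thr 29 13 (.thr 25 17 (.thr 28 30 (.dbl 12 51 60)))))))) (.rp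 7 (.str 52 (.nv (.thr 50 14 (.thr 55 4 (.thr 54 53 (.dbl 58 10 62)))) (.rp 62 (.thr 58 10 (.thr 55 4 (.thr 53 54 (.thr 61 1 (.thr 57 49 (.thr 59 56 (.dbl 25 8 9))))))) (.rp 58 (.thr 14 50 (.thr 46 34 (.thr 44 35 (.thr 45 47 (.thr 61 1 (.thr 29 13 (.dbl 30 28 62))))))) (.rp 55 (.thr 14 50 (.thr 46 34 (.thr 30 62 (.thr 28 29 (.thr 44 35 (.thr 45 47 (.dbl 60 12 15))))))) (.rp 54 (.thr 14 50 (.thr 46 34 (.thr 44 35 (.thr 45 47 (.thr 61 1 (.thr 29 13 (.dbl 30 28 62))))))) (.rp 53 (.thr 14 50 (.thr 46 34 (.thr 30 62 (.thr 28 29 (.thr 44 35 (.thr 45 47 (.dbl 60 12 15))))))) (.rp 50 (.thr 58 10 (.thr 55 4 (.thr 53 54 (.thr 61 1 (.thr 57 49 (.thr 59 56 (.dbl 25 8 9))))))) (.rp 15 (.str 3 (.nv (.thr 1 61 (.thr 0 2 (.thr 35 44 (.thr 51 19 (.dbl 34 17 46))))) (.nv (.thr 55 4 (.thr 50 14 (.thr 54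 53 (.dbl 58 10 62)))) (.rp 62 (.thr 34 46 (.thr 35 44 (.thr 51 19 (.thr 17 0 (.dbl 25 12 29))))) .nd)))) (.rp 14 (.thr 58 10 (.thr 55 4 (.thr 53 54 (.thr 61 1 (.thr 57 49 (.thr 59 56 (.dbl 25 8 9))))))) (.rp 10 (.thr 14 50 (.thr 46 34 (.thr 30 62 (.thr 28 29 (.thr 44 35 (.thr 45 47 (.dbl 60 12 15))))))) (.rp 6 (.thr 14 50 (.thr 46 34 (.thr 30 62 (.thr 28 29 (.thr 44 35 (.thr 45 47 (.dbl 60 12 15))))))) (.rp 5 (.thr 58 10 (.thr 50 14 (.thr 54 62 (.dbl 55 4 53)))) (.rp 4 (.thr 14 50 (.thr 46 34 (.thr 30 62 (.thr 28 29 (.thr 44 35 (.thr 45 47 (.dbl 60 12 15))))))) (.rp 3 (.str 15 (.nv (.thr 14 50 (.thr 12 13 (.thr 35 44 (.thr 39 47 (.dbl 51 25 27))))) (.nv (.thr 50 14 (.thr 55 4 (.thr 54 53 (.dbl 58 10 62)))) (.rp 50 (.thr 10 58 (.thr 4 55 (.thr 34 46 (.thr 0 5 (.thr 12 8 (.dbl 51 17 25))))))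 (.rp 14 (.thr 10 58 (.thr 4 55 (.thr 34 46 (.thr 0 5 (.thr 12 8 (.dbl 51 17 25)))))) .nd))))) .nd))))))))))))))) (.rp 2 (.thr 46 34 (.thr 61 1 (.thr 44 35 (.thr 45 47 (.thr 29 13 (.thr 30 28 (.dbl 14 50 62))))))) (.rp 1 (.thr 46 34 (.thr 14 50 (.thr 30 62 (.thr 28 29 (.thr 44 35 (.thr 45 47 (.dbl 60 12 15))))))) .nd)))))))))))))) (.rp 10 (.thr 31 16 (.thr 61 1 (.thr 43 40 (.str 38 (.nv (.thr 44 35 (.thr 46 34 (.thr 45 47 (.thr 29 13 (.thr 30 28 (.dbl 14 50 62)))))) (.nv (.thr 11 56 (.thr 14 50 (.thr 27 59 (.thr 46 34 (.thr 30 62 (.thr 29 28 (.dbl 25 17 24))))))) (.nv (.thr 11 56 (.thr 27 59 (.thr 19 23 (.thr 35 44 (.thr 51 3 (.dbl 25 12 24)))))) (.nv (.thr 14 50 (.thr 46 34 (.thr 30 62 (.thr 44 35 (.thr 45 47 (.dbl 29 13 28)))))) (.rp 52 (.str 7 (.nv (.thr 11 56 (.thr 15 3 (.thr 27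 59 (.thr 51 39 (.dbl 25 12 24))))) (.nv (.thr 55 4 (.thr 39 23 (.dbl 35 44 47))) (.rp 39 (.thr 11 56 (.thr 27 59 (.thr 3 15 (.thr 19 23 (.dbl 35 44 51))))) .nd)))) (.rp 7 (.str 52 (.nv (.thr 35 44 (.thr 39 47 (.thr 11 56 (.thr 27 59 (.thr 19 23 (.dbl 51 3 15)))))) (.nv (.thr 44 35 (.thr 46 34 (.thr 45 47 (.thr 14 50 (.thr 30 62 (.dbl 29 13 28)))))) (.nv (.thr 11 56 (.thr 55 4 (.thr 53 54 (.thr 27 59 (.thr 57 49 (.dbl 25 9 24)))))) .nd)))) .nd)))))))))) (.rp 8 (.str 38 (.nv (.thr 16 31 (.thr 40 43 (.thr 35 44 (.thr 34 46 (.thr 32 33 (.thr 0 48 (.thr 14 50 (.thr 51 17 (.thr 3 19 (.dbl 1 2 61)))))))))) (.nv (.thr 61 1 (.thr 44 35 (.thr 46 34 (.thr 45 47 (.thr 29 13 (.thr 31 16 (.thr 28 30 (.thr 12 60 (.dbl 25 17 51))))))))) (.rp 61 (.thr 40 43 (.thr 58 10 (.thr 11 56 (.thr 55 4 (.thr 14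 50 (.thr 34 46 (.thr 44 35 (.thr 32 36 (.thr 16 31 (.thr 0 48 (.thr 51 17 (.thr 12 25 (.dbl 60 20 28))))))))))))) (.rp 52 (.str 7 (.nv (.thr 1 61 (.thr 10 58 (.thr 11 56 (.thr 3 15 (.thr 14 50 (.dbl 2 0 6)))))) (.nv (.thr 43 40 (.thr 35 44 (.thr 39 47 (.dbl 55 4 23)))) (.nv (.thr 4 55 (.thr 6 5 (.thr 14 50 (.dbl 10 2 58)))) .nd)))) (.rp 51 (.thr 40 43 (.thr 58 10 (.thr 11 56 (.thr 55 4 (.thr 14 50 (.thr 46 34 (.thr 30 62 (.thr 44 35 (.thr 32 36 (.thr 31 16 (.thr 29 28 (.thr 61 1 (.dbl 45 13 47))))))))))))) (.rp 49 (.thr 40 43 (.thr 58 10 (.thr 11 56 (.thr 55 4 (.thr 14 50 (.thr 46 34 (.thr 30 62 (.thr 44 35 (.thr 32 36 (.thr 31 16 (.thr 29 28 (.thr 61 1 (.dbl 45 13 47))))))))))))) (.rp 47 (.thr 40 43 (.thr 58 10 (.thr 11 56 (.thr 55 4 (.thr 14 50 (.thr 46 34 (.thr 30 62 (.thr 35 44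 (.thr 31 16 (.thr 29 28 (.thr 25 17 (.thr 24 27 (.thr 57 9 (.thr 61 1 (.thr 13 45 (.dbl 12 15 51)))))))))))))))) (.rp 46 (.thr 40 43 (.thr 58 10 (.thr 11 56 (.thr 4 55 (.thr 14 50 (.thr 44 35 (.thr 32 36 (.thr 16 31 (.thr 0 48 (.thr 60 20 (.thr 12 28 (.thr 15 13 (.thr 1 61 (.dbl 3 2 7)))))))))))))) (.rp 45 (.thr 40 43 (.thr 58 10 (.thr 11 56 (.thr 55 4 (.thr 14 50 (.thr 46 34 (.thr 30 62 (.thr 44 35 (.thr 31 16 (.thr 28 29 (.thr 12 60 (.thr 61 1 (.thr 15 13 (.thr 25 51 (.thr 24 27 (.dbl 36 32 48)))))))))))))))) (.rp 44 (.thr 40 43 (.thr 58 10 (.thr 11 56 (.thr 55 4 (.thr 14 50 (.thr 46 34 (.thr 30 62 (.thr 31 16 (.thr 29 28 (.thr 25 17 (.thr 24 27 (.thr 57 9 (.thr 61 1 (.thr 13 45 (.dbl 12 15 51))))))))))))))) (.rp 43 (.thr 58 10 (.thr 11 56 (.thr 55 4 (.thr 14 50 (.thr 46 34 (.thr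 30 62 (.thr 44 35 (.thr 31 16 (.thr 29 28 (.thr 25 17 (.thr 24 27 (.thr 57 9 (.thr 61 1 (.dbl 45 13 47)))))))))))))) (.rp 35 (.thr 40 43 (.thr 58 10 (.thr 11 56 (.thr 55 4 (.thr 14 50 (.thr 46 34 (.thr 30 62 (.thr 31 16 (.thr 29 28 (.thr 25 17 (.thr 24 27 (.thr 57 9 (.thr 61 1 (.thr 13 45 (.dbl 12 15 51))))))))))))))) (.rp 34 (.thr 40 43 (.thr 58 10 (.thr 11 56 (.thr 55 4 (.thr 50 14 (.thr 54 62 (.thr 52 53 (.thr 44 35 (.thr 32 36 (.thr 16 31 (.thr 0 48 (.thr 60 20 (.thr 12 28 (.dbl 51 25 57)))))))))))))) (.rp 33 (.thr 40 43 (.thr 58 10 (.thr 11 56 (.thr 55 4 (.thr 14 50 (.thr 46 34 (.thr 30 62 (.thr 44 35 (.thr 32 36 (.thr 31 16 (.thr 29 28 (.thr 25 17 (.thr 24 27 (.thr 57 9 (.thr 61 1 (.thr 49 53 (.dbl 45 13 47))))))))))))))))) (.rp 32 (.thr 40 43 (.thr 58 10 (.thr 11 56 (.thr 55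 4 (.thr 14 50 (.thr 46 34 (.thr 30 62 (.thr 35 44 (.thr 31 16 (.thr 29 28 (.thr 25 17 (.thr 24 27 (.thr 57 9 (.thr 61 1 (.thr 13 45 (.dbl 12 15 51)))))))))))))))) (.rp 31 (.thr 40 43 (.thr 58 10 (.thr 11 56 (.thr 55 4 (.thr 50 14 (.thr 62 54 (.thr 34 46 (.thr 35 44 (.thr 33 32 (.thr 1 61 (.thr 49 17 (.thr 48 51 (.dbl 18 2 3))))))))))))) (.rp 29 (.thr 40 43 (.thr 58 10 (.thr 11 56 (.thr 55 4 (.thr 50 14 (.thr 54 62 (.thr 52 53 (.thr 46 34 (.thr 44 35 (.thr 47 45 (.thr 32 36 (.thr 16 31 (.thr 0 48 (.thr 60 20 (.thr 51 57 (.dbl 12 25 28)))))))))))))))) (.rp 28 (.thr 40 43 (.thr 58 10 (.thr 11 56 (.thr 55 4 (.thr 14 50 (.thr 34 46 (.thr 35 44 (.thr 32 33 (.thr 16 31 (.thr 0 48 (.thr 60 20 (.thr 51 17 (.thr 57 54 (.dbl 25 9 12)))))))))))))) (.rp 25 (.thr 40 43 (.thr 58 10 (.thr 11 56 (.thr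 55 4 (.thr 14 50 (.thr 46 34 (.thr 30 62 (.thr 44 35 (.thr 31 16 (.thr 28 29 (.thr 60 12 (.thr 0 20 (.dbl 45 15 47))))))))))))) (.rp 17 (.thr 40 43 (.thr 58 10 (.thr 11 56 (.thr 55 4 (.thr 14 50 (.thr 46 34 (.thr 30 62 (.thr 44 35 (.thr 32 36 (.thr 31 16 (.thr 29 28 (.thr 61 1 (.dbl 45 13 47))))))))))))) (.rp 16 (.thr 40 43 (.thr 58 10 (.thr 11 56 (.thr 55 4 (.thr 50 14 (.thr 62 54 (.thr 34 46 (.thr 35 44 (.thr 33 32 (.thr 1 61 (.thr 49 17 (.thr 48 51 (.dbl 18 2 3))))))))))))) (.rp 15 (.thr 40 43 (.thr 58 10 (.thr 11 56 (.thr 55 4 (.thr 14 50 (.thr 46 34 (.thr 30 62 (.thr 44 35 (.thr 32 36 (.thr 31 16 (.thr 29 28 (.thr 25 17 (.thr 24 27 (.thr 57 9 (.thr 61 1 (.dbl 45 13 47)))))))))))))))) (.rp 12 (.thr 40 43 (.thr 58 10 (.thr 11 56 (.thr 4 55 (.thr 14 50 (.thr 46 34 (.thr 30 62 (.thr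 44 35 (.thr 32 36 (.thr 31 16 (.thr 29 28 (.thr 25 17 (.thr 24 27 (.thr 57 9 (.thr 61 1 (.dbl 45 13 47)))))))))))))))) (.rp 7 (.str 52 (.nv (.thr 50 14 (.thr 55 4 (.thr 54 53 (.dbl 58 10 62)))) (.nv (.thr 4 55 (.thr 36 20 (.thr 44 35 (.dbl 40 32 43)))) (.rp 55 (.thr 40 43 (.thr 44 35 (.thr 36 32 (.thr 56 11 (.thr 60 48 (.dbl 20 0 4)))))) (.rp 4 (.thr 40 43 (.thr 44 35 (.thr 32 36 (.thr 16 31 (.thr 56 11 (.dbl 48 0 60)))))) .nd))))) (.rp 1 (.thr 40 43 (.thr 58 10 (.thr 11 56 (.thr 55 4 (.thr 14 50 (.thr 46 34 (.thr 30 62 (.thr 44 35 (.thr 31 16 (.thr 28 29 (.thr 60 12 (.thr 0 20 (.dbl 45 15 47))))))))))))) .nd)))))))))))))))))))))))))) (.rp 7 (.str 52 (.nv (.thr 40 43 (.thr 58 10 (.thr 56 11 (.thr 59 57 (.dbl 8 24 25))))) (.nv (.thr 16 31 (.thr 40 43 (.thr 56 11 (.thr 60 48 (.thr 20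 0 (.dbl 24 8 28)))))) (.nv (.thr 10 58 (.thr 11 56 (.thr 8 9 (.thr 43 40 (.dbl 59 25 27))))) (.rp 59 (.thr 61 1 (.thr 58 10 (.thr 11 56 (.str 55 (.nv (.thr 54 53 (.thr 50 62 (.dbl 38 4 14))) (.rp 62 (.thr 53 54 (.thr 57 49 (.thr 25 9 (.thr 24 27 (.thr 16 31 (.thr 20 28 (.dbl 4 36 38))))))) (.rp 54 (.thr 38 4 (.thr 14 50 (.thr 46 34 (.thr 30 62 (.thr 44 35 (.thr 45 47 (.thr 29 13 (.dbl 31 16 28)))))))) (.rp 53 (.thr 38 4 (.thr 14 50 (.thr 46 34 (.thr 30 62 (.thr 44 35 (.thr 45 47 (.thr 29 13 (.dbl 31 16 28)))))))) (.rp 50 (.thr 53 54 (.thr 57 49 (.thr 25 9 (.thr 24 27 (.thr 16 31 (.thr 20 28 (.dbl 4 36 38))))))) (.rp 38 (.thr 54 53 (.str 36 (.nv (.thr 20 4 (.thr 40 43 (.thr 0 60 (.thr 32 44 (.dbl 16 31 48))))) (.nv (.thr 16 31 (.thr 20 4 (.thr 24 28 (.thr 25 27 (.thr 57 9 (.thr 60 51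 (.dbl 40 0 43))))))) (.nv (.thr 16 31 (.thr 40 43 (.thr 32 44 (.thr 0 48 (.dbl 20 4 60))))) (.rp 60 (.thr 40 43 (.thr 20 4 (.thr 32 44 (.thr 16 31 (.thr 48 0 (.dbl 24 12 28)))))) (.rp 43 (.thr 20 4 (.thr 50 62 (.thr 16 31 (.thr 24 28 (.thr 25 27 (.thr 57 9 (.thr 48 12 (.dbl 51 49 60)))))))) (.rp 40 (.thr 20 4 (.thr 50 62 (.thr 16 31 (.thr 24 28 (.thr 25 27 (.thr 57 9 (.thr 48 12 (.dbl 51 49 60)))))))) (.rp 31 (.thr 40 43 (.thr 20 4 (.thr 50 62 (.thr 44 32 (.thr 60 0 (.thr 12 28 (.thr 48 24 (.dbl 51 49 57)))))))) (.rp 23 (.thr 20 4 (.thr 16 31 (.thr 24 28 (.thr 48 12 (.thr 0 32 (.dbl 40 43 60)))))) (.rp 20 (.thr 40 43 (.thr 50 62 (.thr 32 44 (.thr 16 31 (.thr 48 0 (.thr 24 12 (.thr 25 27 (.thr 57 9 (.dbl 51 49 60))))))))) (.rp 16 (.thr 40 43 (.thr 20 4 (.thr 50 62 (.thr 60 0 (.thr 51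 57 (.thr 48 49 (.thr 12 24 (.dbl 44 28 32)))))))) (.rp 4 (.thr 40 43 (.thr 50 62 (.thr 32 44 (.thr 16 31 (.thr 48 0 (.thr 51 49 (.thr 57 60 (.thr 25 9 (.dbl 24 12 27))))))))) (.rp 0 (.thr 20 4 (.thr 50 62 (.thr 16 31 (.thr 24 28 (.thr 25 27 (.thr 57 9 (.thr 51 60 (.dbl 48 12 49)))))))) .nd)))))))))))))) (.rp 14 (.thr 53 54 (.thr 57 49 (.thr 25 9 (.thr 24 27 (.thr 16 31 (.thr 20 28 (.dbl 4 36 38))))))) (.rp 4 (.thr 40 43 (.thr 54 53 (.thr 50 62 (.thr 38 14 (.thr 44 35 (.thr 32 36 (.thr 16 31 (.thr 48 0 (.thr 51 49 (.thr 60 57 (.dbl 12 25 28))))))))))) .nd)))))))))))) (.rp 58 (.thr 56 11 (.thr 40 43 (.thr 24 8 (.thr 16 31 (.thr 20 28 (.dbl 60 0 48)))))) (.rp 56 (.str 44 (.nv (.thr 38 35 (.thr 50 14 (.thr 55 4 (.thr 54 53 (.dbl 58 10 62))))) (.nv (.thr 40 43 (.thr 36 32 (.thr 4 20 (.dbl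 38 35 55)))) (.rp 55 (.thr 40 43 (.thr 16 31 (.thr 36 32 (.thr 20 4 (.thr 60 0 (.dbl 28 12 24)))))) (.rp 38 (.thr 40 43 (.thr 16 31 (.thr 36 32 (.thr 20 4 (.thr 60 0 (.dbl 28 12 24)))))) (.rp 35 (.thr 40 43 (.thr 16 31 (.thr 36 32 (.thr 20 4 (.thr 60 0 (.dbl 28 12 24)))))) (.rp 4 (.thr 10 58 (.thr 40 43 (.thr 16 31 (.thr 36 32 (.thr 1 61 (.thr 38 35 (.thr 34 46 (.thr 50 14 (.thr 18 2 (.thr 17 19 (.thr 33 49 (.thr 51 0 (.dbl 25 12 29))))))))))))) .nd))))))) (.rp 43 (.thr 58 10 (.thr 56 11 (.thr 59 57 (.thr 8 25 (.thr 24 40 (.thr 16 31 (.thr 48 60 (.thr 12 36 (.dbl 0 4 32))))))))) (.rp 40 (.thr 58 10 (.thr 56 11 (.thr 57 59 (.thr 60 48 (.thr 61 1 (.thr 53 49 (.dbl 54 51 55))))))) (.rp 11 (.str 44 (.nv (.thr 38 35 (.thr 50 14 (.thr 55 4 (.thr 54 53 (.dbl 58 10 62))))) (.nv (.thr 40 43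 (.thr 36 32 (.thr 4 20 (.dbl 38 35 55)))) (.rp 55 (.thr 40 43 (.thr 16 31 (.thr 36 32 (.thr 20 4 (.thr 60 0 (.dbl 28 12 24)))))) (.rp 38 (.thr 40 43 (.thr 16 31 (.thr 36 32 (.thr 20 4 (.thr 60 0 (.dbl 28 12 24)))))) (.rp 35 (.thr 40 43 (.thr 16 31 (.thr 36 32 (.thr 20 4 (.thr 60 0 (.dbl 28 12 24)))))) (.rp 15 (.str 3 (.nv (.thr 1 61 (.thr 0 2 (.thr 40 43 (.thr 36 32 (.dbl 20 4 60))))) (.nv (.thr 1 61 (.thr 2 0 (.thr 10 58 (.thr 38 35 (.dbl 14 6 50))))) (.nv (.thr 40 43 (.thr 36 32 (.thr 4 20 (.dbl 38 35 55)))) (.rp 47 (.thr 31 16 (.thr 40 43 (.thr 36 32 (.thr 4 20 (.dbl 38 35 55))))) (.rp 31 (.str 47 (.nv (.thr 38 35 (.dbl 46 34 45)) (.nv (.thr 43 40 (.dbl 35 38 39)) (.rp 38 (.thr 40 43 (.thr 36 32 (.thr 1 61 (.thr 0 2 (.dbl 20 4 60))))) (.rp 35 (.thr 40 43 (.thr 46 45 (.thr 38 34 (.thr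 4 55 (.dbl 36 20 32))))) .nd))))) .nd)))))) (.rp 4 (.thr 58 10 (.thr 40 43 (.thr 16 31 (.thr 32 36 (.thr 48 0 (.thr 56 60 (.thr 8 24 (.dbl 59 25 57)))))))) (.rp 3 (.str 15 (.nv (.thr 10 58 (.thr 0 5 (.thr 16 31 (.thr 48 32 (.thr 60 56 (.dbl 40 20 43)))))) (.nv (.thr 1 61 (.thr 10 58 (.thr 5 0 (.thr 13 9 (.thr 38 35 (.dbl 14 12 50)))))) (.nv (.thr 38 35 (.thr 4 55 (.thr 36 20 (.dbl 40 32 43)))) (.rp 43 (.str 23 (.nv (.thr 1 61 (.thr 10 58 (.thr 5 0 (.thr 9 13 (.thr 25 57 (.thr 27 24 (.dbl 31 16 19))))))) (.nv (.thr 1 61 (.thr 10 58 (.thr 5 0 (.thr 13 9 (.thr 14 12 (.thr 6 2 (.dbl 38 35 50))))))) (.nv (.thr 31 16 (.thr 27 19 (.thr 25 24 (.thr 38 35 (.dbl 51 12 39))))) (.rp 59 (.str 27 (.nv (.thr 51 39 (.thr 25 24 (.dbl 38 12 35))) (.nv (.dbl 31 16 19) (.rp 51 (.str 55 (.nv (.dbl 31 16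 19) (.nv (.dbl 38 4 35) (.rp 35 (.thr 19 31 (.thr 25 24 (.thr 57 9 (.thr 53 54 (.dbl 61 1 49))))) (.rp 19 (.thr 35 38 (.thr 25 24 (.thr 57 9 (.thr 61 1 (.dbl 53 49 54))))) .nd))))) .nd)))) (.rp 27 (.str 59 (.nv (.thr 38 35 (.thr 14 50 (.thr 46 34 (.thr 30 62 (.dbl 45 47 60))))) (.nv (.thr 58 10 (.thr 57 56 (.dbl 25 8 9))) (.rp 58 (.thr 25 8 (.thr 38 35 (.thr 14 50 (.dbl 12 13 51)))) .nd)))) .nd)))))) (.rp 23 (.thr 43 40 (.thr 58 10 (.thr 38 35 (.thr 55 4 (.thr 54 53 (.dbl 50 14 62)))))) .nd)))))) .nd))))))))) (.rp 8 (.thr 56 11 (.thr 40 43 (.thr 16 31 (.thr 60 48 (.thr 20 0 (.thr 4 36 (.thr 38 55 (.thr 44 35 (.dbl 28 12 24))))))))) .nd))))))))))) .nd))))))))))))))))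

theorem w491 : WinAt (6597071863808, 9223372174297923584) :=
  chF (K := [(6597138972673, 9223372174331478144), (6597138972673, 9223372174331486208), (6597138972673, 9223372174599913472), (6597138972673, 9223935124284899328), (6597138972673, 9227875773958848512)]) (kc w427 (kc w428 (kc w429 (kc w430 (kc w431 kn))))) c491 6597071863808 9223372174297923584 37
    [4503737070518400] (by decide +kernel) (by decide +kernel)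

/-- A certificate. -/
noncomputable def c492 : Ct := (.str 37 (.nv (.thr 53 5 (.thr 61 1 (.thr 49 57 (.thr 45 33 (.dbl 13 25 29))))) (.rp 61 (.thr 53 5 (.str 44 (.nv (.thr 32 47 (.thr 36 40 (.dbl 38 35 39))) (.nv (.thr 45 33 (.dbl 47 32 46)) (.rp 62 (.str 60 (.nv (.thr 32 47 (.thr 36 40 (.dbl 38 35 39))) (.nv (.thr 45 33 (.dbl 47 32 46)) (.rp 47 (.thr 12 28 (.thr 45 33 (.thr 38 35 (.thr 39 36 (.thr 15 30 (.dbl 51 25 27)))))) (.rp 32 (.thr 45 33 (.thr 46 47 (.dbl 38 34 35))) (.rp 23 (.str 3 (.nv (.thr 12 28 (.thr 9 6 (.thr 25 57 (.dbl 38 35 51)))) (.nv (.thr 45 33 (.dbl 47 32 46)) .nd))) (.rp 3 (.str 23 (.nv (.thr 38 35 (.thr 39 36 (.dbl 55 4 7))) (.nv (.thr 47 32 (.dbl 45 33 46)) .nd))) .nd))))))) (.rp 60 (.str 62 (.nv (.thr 32 47 (.thr 36 40 (.dbl 38 35 39))) (.nv (.thr 45 33 (.dbl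 47 32 46)) (.rp 47 (.thr 38 35 (.thr 39 36 (.thr 46 34 (.thr 14 30 (.thr 26 50 (.thr 15 48 (.thr 51 27 (.dbl 12 13 25)))))))) (.rp 32 (.thr 45 33 (.thr 46 47 (.dbl 38 34 35))) (.rp 23 (.str 3 (.nv (.thr 32 47 (.thr 36 40 (.dbl 38 35 39))) (.nv (.thr 45 33 (.dbl 47 32 46)) (.rp 47 (.thr 33 45 (.thr 35 38 (.thr 32 34 (.thr 48 18 (.thr 16 0 (.dbl 26 15 31)))))) (.rp 32 (.thr 45 33 (.thr 46 47 (.dbl 38 34 35))) .nd))))) (.rp 3 (.str 23 (.nv (.thr 38 35 (.thr 39 36 (.dbl 55 4 7))) (.nv (.thr 47 32 (.dbl 45 33 46)) .nd))) .nd))))))) (.rp 47 (.thr 38 35 (.thr 39 36 (.str 15 (.nv (.thr 45 33 (.thr 48 26 (.thr 55 4 (.thr 52 54 (.dbl 60 30 56))))) (.nv (.thr 34 46 (.thr 51 27 (.thr 17 0 (.dbl 25 12 29)))) (.nv (.thr 26 48 (.thr 11 56 (.thr 55 4 (.dbl 7 3 23)))) (.rp 62 (.str 60 (.nv (.thr 12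 28 (.dbl 51 25 27)) (.nv (.dbl 45 30 33) (.rp 23 (.str 3 (.nv (.thr 11 7 (.dbl 26 48 56)) (.nv (.dbl 45 30 33) .nd))) (.rp 3 (.str 23 (.nv (.thr 51 27 (.dbl 12 25 28)) (.nv (.dbl 45 30 33) (.rp 51 (.str 19 (.nv (.dbl 45 30 33) (.nv (.dbl 55 4 7) (.rp 55 (.str 59 (.nv (.thr 31 27 (.dbl 26 16 48)) (.nv (.dbl 45 30 33) .nd))) .nd)))) .nd)))) .nd))))) (.rp 60 (.str 62 (.nv (.thr 26 48 (.thr 50 14 (.dbl 58 10 54))) (.nv (.thr 34 46 (.thr 51 27 (.thr 17 0 (.dbl 25 12 29)))) (.nv (.thr 46 34 (.thr 14 30 (.dbl 26 48 50))) (.rp 23 (.str 3 (.nv (.thr 11 7 (.dbl 26 48 56)) (.nv (.thr 48 26 (.dbl 33 18 45)) (.rp 48 (.thr 11 7 (.thr 46 34 (.thr 14 30 (.dbl 26 50 56)))) (.rp 26 (.thr 34 46 (.thr 51 27 (.thr 17 0 (.dbl 25 12 29)))) .nd))))) (.rp 3 (.str 23 (.nv (.thr 26 48 (.thr 14 50 (.dbl 46 30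 34))) (.nv (.dbl 55 4 7) (.rp 51 (.str 19 (.nv (.thr 26 48 (.dbl 31 16 27)) (.nv (.dbl 55 4 7) (.rp 57 (.str 54 (.nv (.thr 31 27 (.dbl 26 16 48)) (.nv (.dbl 55 4 7) (.rp 55 (.str 59 (.nv (.thr 25 8 (.thr 17 29 (.thr 31 27 (.dbl 16 18 26)))) (.nv (.thr 50 58 (.dbl 26 14 48)) (.rp 26 (.thr 46 34 (.thr 25 8 (.thr 13 49 (.dbl 14 12 30)))) .nd)))) .nd)))) (.rp 55 (.str 59 (.nv (.thr 25 8 (.thr 13 49 (.thr 14 12 (.dbl 46 30 34)))) (.nv (.thr 31 27 (.dbl 26 16 48)) (.rp 57 (.str 54 (.nv (.thr 25 8 (.thr 17 29 (.thr 31 27 (.dbl 16 18 26)))) (.nv (.thr 50 58 (.dbl 26 14 48)) (.rp 26 (.thr 46 34 (.thr 25 8 (.thr 13 49 (.dbl 14 12 30)))) .nd)))) (.rp 54 (.str 57 (.nv (.thr 26 48 (.dbl 31 16 27)) (.nv (.dbl 25 8 9) .nd))) (.rp 48 (.thr 46 34 (.thr 31 27 (.thr 26 16 (.dbl 14 30 50)))) .nd))))))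 (.rp 54 (.str 57 (.nv (.thr 26 48 (.dbl 31 16 27)) (.nv (.dbl 55 4 7) (.rp 55 (.str 59 (.nv (.thr 26 48 (.dbl 31 16 27)) (.nv (.dbl 25 8 9) .nd))) .nd)))) .nd)))))) (.rp 19 (.thr 51 27 (.dbl 55 4 7)) .nd))))) .nd)))))) (.rp 23 (.str 3 (.nv (.thr 11 7 (.dbl 26 48 56)) (.nv (.thr 48 26 (.dbl 33 18 45)) (.rp 62 (.str 60 (.nv (.thr 11 7 (.dbl 26 48 56)) (.nv (.dbl 45 30 33) .nd))) (.rp 60 (.str 62 (.nv (.thr 11 7 (.dbl 26 48 56)) (.nv (.thr 48 26 (.dbl 33 18 45)) (.rp 48 (.thr 11 7 (.thr 46 34 (.thr 14 30 (.dbl 26 50 56)))) (.rp 26 (.thr 34 46 (.thr 51 27 (.thr 17 0 (.dbl 25 12 29)))) .nd))))) (.rp 48 (.thr 45 33 (.thr 51 27 (.thr 12 25 (.dbl 60 28 30)))) (.rp 26 (.thr 34 46 (.thr 51 27 (.thr 17 0 (.dbl 25 12 29)))) .nd))))))) (.rp 3 (.str 23 (.nv (.thr 26 48 (.thr 31 16 (.dbl 27 19 51)))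 (.nv (.dbl 55 4 7) (.rp 62 (.str 60 (.nv (.thr 51 27 (.dbl 12 25 28)) (.nv (.dbl 45 30 33) (.rp 51 (.str 19 (.nv (.dbl 45 30 33) (.nv (.dbl 55 4 7) (.rp 55 (.str 59 (.nv (.thr 31 27 (.dbl 26 16 48)) (.nv (.dbl 45 30 33) .nd))) .nd)))) .nd)))) (.rp 60 (.str 62 (.nv (.thr 26 48 (.thr 14 50 (.dbl 46 30 34))) (.nv (.dbl 55 4 7) (.rp 51 (.str 19 (.nv (.thr 26 48 (.dbl 31 16 27)) (.nv (.dbl 55 4 7) (.rp 57 (.str 54 (.nv (.thr 31 27 (.dbl 26 16 48)) (.nv (.dbl 55 4 7) (.rp 55 (.str 59 (.nv (.thr 25 8 (.thr 17 29 (.thr 31 27 (.dbl 16 18 26)))) (.nv (.thr 50 58 (.dbl 26 14 48)) (.rp 26 (.thr 46 34 (.thr 25 8 (.thr 13 49 (.dbl 14 12 30)))) .nd)))) .nd)))) (.rp 55 (.str 59 (.nv (.thr 25 8 (.thr 13 49 (.thr 14 12 (.dbl 46 30 34)))) (.nv (.thr 31 27 (.dbl 26 16 48)) (.rp 57 (.str 54 (.nv (.thr 25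 8 (.thr 17 29 (.thr 31 27 (.dbl 16 18 26)))) (.nv (.thr 50 58 (.dbl 26 14 48)) (.rp 26 (.thr 46 34 (.thr 25 8 (.thr 13 49 (.dbl 14 12 30)))) .nd)))) (.rp 54 (.str 57 (.nv (.thr 26 48 (.dbl 31 16 27)) (.nv (.dbl 25 8 9) .nd))) (.rp 48 (.thr 46 34 (.thr 31 27 (.thr 26 16 (.dbl 14 30 50)))) .nd)))))) (.rp 54 (.str 57 (.nv (.thr 26 48 (.dbl 31 16 27)) (.nv (.dbl 55 4 7) (.rp 55 (.str 59 (.nv (.thr 26 48 (.dbl 31 16 27)) (.nv (.dbl 25 8 9) .nd))) .nd)))) .nd)))))) (.rp 19 (.thr 51 27 (.dbl 55 4 7)) .nd))))) (.rp 51 (.str 19 (.nv (.thr 26 48 (.dbl 31 16 27)) (.nv (.dbl 55 4 7) (.rp 62 (.str 60 (.nv (.dbl 45 30 33) (.nv (.dbl 55 4 7) (.rp 55 (.str 59 (.nv (.thr 31 27 (.dbl 26 16 48)) (.nv (.dbl 45 30 33) .nd))) .nd)))) (.rp 60 (.str 62 (.nv (.thr 26 48 (.dbl 31 16 27)) (.nv (.dbl 55 4 7) (.rp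 57 (.str 54 (.nv (.thr 31 27 (.dbl 26 16 48)) (.nv (.dbl 55 4 7) (.rp 55 (.str 59 (.nv (.thr 25 8 (.thr 17 29 (.thr 31 27 (.dbl 16 18 26)))) (.nv (.thr 50 58 (.dbl 26 14 48)) (.rp 26 (.thr 46 34 (.thr 25 8 (.thr 13 49 (.dbl 14 12 30)))) .nd)))) .nd)))) (.rp 55 (.str 59 (.nv (.thr 25 8 (.thr 13 49 (.thr 14 12 (.dbl 46 30 34)))) (.nv (.thr 31 27 (.dbl 26 16 48)) (.rp 57 (.str 54 (.nv (.thr 25 8 (.thr 17 29 (.thr 31 27 (.dbl 16 18 26)))) (.nv (.thr 50 58 (.dbl 26 14 48)) (.rp 26 (.thr 46 34 (.thr 25 8 (.thr 13 49 (.dbl 14 12 30)))) .nd)))) (.rp 54 (.str 57 (.nv (.thr 26 48 (.dbl 31 16 27)) (.nv (.dbl 25 8 9) .nd))) (.rp 48 (.thr 46 34 (.thr 31 27 (.thr 26 16 (.dbl 14 30 50)))) .nd)))))) (.rp 54 (.str 57 (.nv (.thr 26 48 (.dbl 31 16 27)) (.nv (.dbl 55 4 7) (.rp 55 (.str 59 (.nv (.thr 26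 48 (.dbl 31 16 27)) (.nv (.dbl 25 8 9) .nd))) .nd)))) .nd)))))) (.rp 55 (.str 59 (.nv (.thr 26 48 (.thr 56 11 (.dbl 58 10 57))) (.nv (.thr 31 27 (.dbl 26 16 48)) (.rp 62 (.str 60 (.nv (.thr 31 27 (.dbl 26 16 48)) (.nv (.dbl 45 30 33) .nd))) (.rp 60 (.str 62 (.nv (.thr 25 8 (.thr 13 49 (.thr 14 12 (.dbl 46 30 34)))) (.nv (.thr 31 27 (.dbl 26 16 48)) (.rp 57 (.str 54 (.nv (.thr 25 8 (.thr 17 29 (.thr 31 27 (.dbl 16 18 26)))) (.nv (.thr 50 58 (.dbl 26 14 48)) (.rp 26 (.thr 46 34 (.thr 25 8 (.thr 13 49 (.dbl 14 12 30)))) .nd)))) (.rp 54 (.str 57 (.nv (.thr 26 48 (.dbl 31 16 27)) (.nv (.dbl 25 8 9) .nd))) (.rp 48 (.thr 46 34 (.thr 31 27 (.thr 26 16 (.dbl 14 30 50)))) .nd)))))) (.rp 48 (.thr 31 27 (.thr 26 16 (.thr 56 11 (.dbl 58 10 57)))) (.rp 26 (.thr 45 33 (.thr 31 27 (.thr 25 8 (.thr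 29 17 (.dbl 30 28 60))))) .nd))))))) .nd)))))) (.rp 19 (.thr 51 27 (.dbl 55 4 7)) .nd))))))) .nd)))))))))) (.rp 32 (.thr 45 33 (.thr 46 47 (.dbl 38 34 35))) (.rp 23 (.str 3 (.nv (.thr 32 47 (.thr 36 40 (.dbl 38 35 39))) (.nv (.thr 45 33 (.dbl 47 32 46)) (.rp 62 (.str 60 (.nv (.thr 12 28 (.thr 9 6 (.thr 25 57 (.dbl 38 35 51)))) (.nv (.thr 45 33 (.dbl 47 32 46)) .nd))) (.rp 60 (.str 62 (.nv (.thr 32 47 (.thr 36 40 (.dbl 38 35 39))) (.nv (.thr 45 33 (.dbl 47 32 46)) (.rp 47 (.thr 33 45 (.thr 35 38 (.thr 32 34 (.thr 48 18 (.thr 16 0 (.dbl 26 15 31)))))) (.rp 32 (.thr 45 33 (.thr 46 47 (.dbl 38 34 35))) .nd))))) (.rp 47 (.thr 33 45 (.thr 35 38 (.thr 32 34 (.thr 48 18 (.thr 16 0 (.dbl 26 15 31)))))) (.rp 32 (.thr 45 33 (.thr 46 47 (.dbl 38 34 35))) .nd))))))) (.rp 3 (.str 23 (.nv (.thr 38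 35 (.thr 39 36 (.dbl 55 4 7))) (.nv (.thr 47 32 (.dbl 45 33 46)) (.rp 62 (.str 60 (.nv (.thr 38 35 (.thr 39 36 (.dbl 55 4 7))) (.nv (.thr 47 32 (.dbl 45 33 46)) .nd))) (.rp 60 (.str 62 (.nv (.thr 38 35 (.thr 39 36 (.dbl 55 4 7))) (.nv (.thr 47 32 (.dbl 45 33 46)) .nd))) .nd))))) .nd)))))))))) (.rp 57 (.thr 33 45 (.thr 1 61 (.thr 49 17 (.thr 5 53 (.dbl 13 9 25))))) (.rp 53 (.thr 33 45 (.str 3 (.nv (.thr 1 61 (.thr 32 47 (.thr 35 34 (.thr 49 17 (.thr 51 19 (.dbl 48 18 50)))))) (.nv (.thr 1 61 (.thr 0 2 (.thr 48 18 (.dbl 32 16 47)))) (.nv (.thr 48 18 (.thr 32 47 (.thr 16 0 (.dbl 26 15 31)))) (.rp 48 (.str 58 (.nv (.thr 1 61 (.thr 49 17 (.thr 0 2 (.thr 10 26 (.thr 5 15 (.dbl 13 9 25)))))) (.nv (.thr 1 61 (.thr 26 10 (.thr 49 17 (.thr 56 11 (.thr 59 57 (.dbl 25 8 13)))))) (.rp 62 (.thr 26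 10 (.thr 32 47 (.thr 35 34 (.thr 51 19 (.thr 11 56 (.thr 15 7 (.thr 39 27 (.dbl 38 36 44)))))))) (.rp 61 (.thr 26 10 (.thr 32 47 (.thr 35 34 (.thr 51 19 (.thr 11 56 (.thr 15 7 (.thr 39 27 (.dbl 38 36 44)))))))) (.rp 60 (.thr 26 10 (.thr 32 47 (.thr 35 34 (.thr 56 11 (.thr 59 57 (.thr 8 25 (.thr 40 24 (.dbl 44 36 38)))))))) (.rp 49 (.thr 26 10 (.thr 32 47 (.thr 35 34 (.thr 51 19 (.thr 11 56 (.thr 15 7 (.thr 39 27 (.dbl 38 36 44)))))))) (.rp 29 (.thr 26 10 (.thr 32 47 (.thr 35 34 (.thr 51 19 (.thr 11 56 (.thr 15 7 (.thr 39 27 (.dbl 38 36 44)))))))) (.rp 26 (.thr 1 61 (.thr 49 17 (.thr 13 25 (.thr 9 5 (.thr 32 47 (.thr 35 34 (.thr 0 2 (.thr 12 6 (.thr 4 8 (.dbl 38 44 55)))))))))) (.rp 25 (.thr 1 61 (.thr 26 10 (.thr 16 31 (.thr 11 56 (.thr 15 7 (.thr 32 47 (.thr 35 34 (.thr 19 51 (.dbl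 17 18 49))))))))) (.rp 17 (.thr 1 61 (.thr 10 26 (.thr 2 0 (.thr 6 14 (.thr 9 12 (.thr 13 5 (.dbl 25 49 57))))))) (.rp 13 (.thr 26 10 (.thr 32 47 (.thr 35 34 (.thr 51 19 (.thr 11 56 (.thr 15 7 (.thr 39 27 (.dbl 38 36 44)))))))) (.rp 10 (.thr 1 61 (.thr 49 17 (.thr 13 25 (.thr 9 5 (.thr 32 47 (.thr 35 34 (.thr 0 2 (.thr 44 38 (.thr 40 36 (.thr 60 20 (.dbl 12 6 28))))))))))) (.rp 9 (.thr 26 10 (.thr 32 47 (.thr 35 34 (.thr 51 19 (.thr 11 56 (.thr 15 7 (.thr 39 27 (.dbl 38 36 44)))))))) (.rp 1 (.thr 26 10 (.thr 32 47 (.thr 35 34 (.thr 51 19 (.thr 11 56 (.thr 15 7 (.thr 39 27 (.dbl 38 36 44)))))))) .nd))))))))))))))) (.rp 47 (.thr 1 61 (.thr 0 2 (.thr 48 18 (.thr 16 32 (.dbl 26 15 31))))) (.rp 32 (.thr 1 61 (.thr 49 17 (.thr 13 25 (.thr 9 5 (.thr 12 6 (.thr 15 14 (.dbl 48 18 26))))))) (.rp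 18 (.thr 1 61 (.thr 49 17 (.thr 13 25 (.thr 5 9 (.thr 0 2 (.thr 15 10 (.thr 11 7 (.dbl 26 48 56)))))))) (.rp 16 (.thr 1 61 (.thr 49 17 (.thr 13 25 (.thr 9 5 (.thr 12 6 (.thr 15 14 (.dbl 48 18 26))))))) .nd)))))))))) (.rp 49 (.thr 33 45 (.str 3 (.nv (.thr 1 61 (.thr 2 0 (.thr 18 48 (.thr 32 47 (.dbl 34 35 50))))) (.nv (.thr 1 61 (.thr 0 2 (.thr 48 18 (.dbl 32 16 47)))) (.nv (.thr 32 47 (.thr 48 18 (.thr 16 0 (.dbl 26 15 31)))) (.rp 48 (.thr 1 61 (.thr 0 2 (.thr 32 47 (.thr 35 34 (.thr 44 38 (.thr 40 36 (.thr 60 20 (.thr 12 28 (.thr 6 9 (.thr 4 8 (.dbl 5 7 53))))))))))) (.rp 47 (.thr 1 61 (.thr 0 2 (.thr 48 18 (.thr 16 32 (.dbl 26 15 31))))) (.rp 32 (.thr 5 53 (.thr 48 18 (.thr 26 15 (.thr 10 58 (.thr 11 56 (.thr 9 8 (.dbl 1 13 61))))))) (.rp 18 (.str 26 (.nv (.thr 1 61 (.thr 0 2 (.thr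 10 58 (.dbl 5 15 53)))) (.nv (.thr 11 56 (.dbl 15 7 48)) (.rp 48 (.thr 11 56 (.thr 15 7 (.thr 1 61 (.thr 0 2 (.dbl 10 5 58))))) (.rp 15 (.thr 10 58 (.thr 11 56 (.thr 9 8 (.thr 1 61 (.dbl 5 13 53))))) .nd))))) (.rp 0 (.thr 5 53 (.thr 48 18 (.thr 26 15 (.thr 10 58 (.thr 11 56 (.thr 9 8 (.dbl 1 13 61))))))) .nd)))))))))) (.rp 45 (.thr 5 53 (.str 48 (.nv (.thr 32 47 (.thr 16 0 (.dbl 26 15 31))) (.nv (.thr 1 61 (.thr 26 15 (.thr 10 58 (.thr 11 56 (.dbl 9 8 13))))) (.nv (.thr 15 26 (.thr 0 10 (.dbl 32 16 47))) (.rp 47 (.thr 1 61 (.thr 26 15 (.thr 31 16 (.thr 10 58 (.thr 11 56 (.dbl 9 8 13)))))) (.rp 26 (.thr 1 61 (.thr 13 9 (.thr 49 25 (.thr 33 17 (.thr 32 47 (.thr 0 16 (.dbl 3 2 18))))))) (.rp 23 (.str 3 (.nv (.thr 1 61 (.thr 13 9 (.thr 49 25 (.dbl 33 17 18)))) (.nv (.thr 32 47 (.thr 16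 0 (.dbl 26 15 31))) (.nv (.thr 15 26 (.thr 0 10 (.dbl 1 2 61))) .nd)))) (.rp 15 (.thr 1 61 (.thr 13 9 (.thr 49 25 (.thr 33 17 (.thr 3 18 (.thr 0 2 (.dbl 32 16 47))))))) (.rp 3 (.str 23 (.nv (.thr 32 47 (.thr 16 0 (.dbl 26 15 31))) (.nv (.thr 1 61 (.thr 26 15 (.thr 10 58 (.thr 11 56 (.dbl 9 8 13))))) (.nv (.thr 15 26 (.thr 0 10 (.dbl 32 16 47))) (.rp 47 (.thr 1 61 (.thr 13 9 (.thr 26 15 (.thr 31 16 (.thr 27 19 (.dbl 25 24 49)))))) (.rp 26 (.thr 1 61 (.thr 32 47 (.thr 0 16 (.thr 13 9 (.thr 49 25 (.thr 51 50 (.dbl 17 33 34))))))) (.rp 15 (.thr 1 61 (.thr 13 9 (.thr 49 25 (.thr 51 50 (.thr 17 33 (.thr 0 34 (.dbl 32 16 47))))))) .nd))))))) .nd)))))))))) (.rp 33 (.str 44 (.nv (.thr 32 47 (.thr 36 40 (.dbl 38 35 39))) (.nv (.thr 47 32 (.thr 46 45 (.dbl 38 34 35))) (.rp 47 (.thr 5 53 (.thr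 1 61 (.thr 9 13 (.thr 38 35 (.thr 39 36 (.thr 4 55 (.thr 6 7 (.thr 3 12 (.thr 0 2 (.thr 15 10 (.thr 51 27 (.dbl 34 17 46)))))))))))) (.rp 38 (.thr 53 5 (.thr 61 1 (.thr 49 57 (.thr 13 25 (.thr 45 29 (.dbl 47 32 46)))))) (.rp 35 (.thr 53 5 (.thr 61 1 (.thr 49 57 (.thr 13 25 (.thr 45 29 (.dbl 47 32 46)))))) (.rp 32 (.thr 53 5 (.thr 61 1 (.thr 49 57 (.thr 13 25 (.thr 45 29 (.thr 46 47 (.dbl 38 34 35))))))) (.rp 23 (.str 3 (.nv (.thr 32 47 (.thr 36 40 (.dbl 38 35 39))) (.nv (.thr 47 32 (.thr 46 45 (.dbl 38 34 35))) (.rp 47 (.thr 1 61 (.thr 0 2 (.thr 5 53 (.thr 15 10 (.thr 11 7 (.dbl 26 48 56)))))) (.rp 38 (.thr 47 32 (.thr 45 46 (.thr 61 1 (.thr 53 5 (.thr 49 57 (.dbl 13 25 29)))))) (.rp 35 (.thr 1 61 (.thr 0 2 (.thr 5 53 (.thr 15 10 (.thr 11 7 (.dbl 26 48 56)))))) (.rp 32 (.thr 1 61 (.thr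 0 2 (.thr 5 53 (.thr 15 10 (.thr 11 7 (.dbl 26 48 56)))))) .nd))))))) (.rp 3 (.str 23 (.nv (.thr 38 35 (.thr 39 36 (.dbl 55 4 7))) (.nv (.thr 47 32 (.thr 46 45 (.dbl 38 34 35))) (.rp 48 (.str 18 (.nv (.thr 53 5 (.thr 47 32 (.thr 46 45 (.dbl 38 34 35)))) (.nv (.thr 32 47 (.thr 36 40 (.dbl 38 35 39))) (.rp 53 (.str 58 (.nv (.thr 47 32 (.thr 46 45 (.dbl 38 34 35))) (.nv (.thr 32 47 (.thr 36 40 (.dbl 38 35 39))) (.rp 47 (.thr 38 35 (.thr 39 36 (.dbl 55 4 7))) (.rp 38 (.thr 32 47 (.thr 40 36 (.thr 26 10 (.thr 56 11 (.thr 59 57 (.dbl 8 24 25)))))) (.rp 35 (.thr 26 10 (.thr 56 11 (.thr 59 57 (.thr 8 25 (.thr 40 24 (.dbl 32 36 47)))))) (.rp 32 (.thr 38 35 (.thr 34 46 (.thr 39 36 (.dbl 55 4 7)))) .nd))))))) (.rp 47 (.thr 38 35 (.thr 39 36 (.dbl 55 4 7))) (.rp 38 (.thr 47 32 (.thr 45 46 (.thr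 61 1 (.thr 53 5 (.thr 49 57 (.dbl 13 25 29)))))) (.rp 35 (.thr 61 1 (.thr 53 5 (.thr 49 57 (.thr 13 25 (.thr 45 29 (.dbl 47 32 46)))))) (.rp 32 (.thr 38 35 (.thr 34 46 (.thr 39 36 (.dbl 55 4 7)))) .nd)))))))) (.rp 38 (.thr 47 32 (.thr 45 46 (.thr 61 1 (.thr 53 5 (.thr 49 57 (.dbl 13 25 29)))))) (.rp 35 (.thr 61 1 (.thr 53 5 (.thr 49 57 (.thr 13 25 (.thr 45 29 (.dbl 47 32 46)))))) (.rp 34 (.thr 32 47 (.thr 36 40 (.dbl 38 35 39))) (.rp 32 (.thr 38 35 (.thr 34 46 (.thr 39 36 (.dbl 55 4 7)))) (.rp 18 (.str 48 (.nv (.thr 26 15 (.thr 38 35 (.thr 34 46 (.thr 39 36 (.dbl 55 4 7))))) (.nv (.thr 32 47 (.thr 16 0 (.dbl 26 15 31))) (.nv (.thr 47 32 (.thr 46 45 (.dbl 38 34 35))) (.rp 47 (.thr 38 35 (.thr 39 36 (.dbl 55 4 7))) (.rp 35 (.thr 61 1 (.thr 53 5 (.thr 49 57 (.thr 13 25 (.thr 45 29 (.dbl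 47 32 46)))))) (.rp 26 (.str 30 (.nv (.thr 38 35 (.thr 39 36 (.dbl 55 4 7))) (.nv (.thr 47 32 (.thr 46 45 (.dbl 38 34 35))) (.rp 38 (.thr 47 32 (.thr 45 46 (.thr 60 15 (.thr 61 1 (.thr 29 13 (.dbl 28 12 31)))))) (.rp 35 (.thr 61 1 (.thr 53 5 (.thr 49 57 (.thr 13 25 (.thr 45 29 (.dbl 47 32 46)))))) (.rp 34 (.thr 32 47 (.thr 36 40 (.dbl 38 35 39))) (.rp 32 (.thr 38 35 (.thr 34 46 (.thr 39 36 (.dbl 55 4 7)))) .nd))))))) .nd))))))) .nd))))))))) .nd))))))))) (.rp 29 (.thr 33 45 (.thr 5 53 (.thr 1 61 (.thr 13 9 (.dbl 49 17 25))))) (.rp 25 (.thr 53 5 (.thr 33 45 (.str 3 (.nv (.thr 1 61 (.thr 0 2 (.thr 17 49 (.thr 18 48 (.thr 19 16 (.dbl 51 34 35)))))) (.nv (.thr 1 61 (.thr 0 2 (.thr 17 49 (.thr 34 51 (.dbl 32 35 47))))) (.nv (.thr 32 47 (.thr 48 18 (.thr 16 0 (.dbl 26 15 31)))) (.rp 48 (.thr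 1 61 (.thr 17 49 (.thr 0 2 (.thr 32 47 (.dbl 34 35 51))))) (.rp 35 (.thr 1 61 (.thr 0 2 (.thr 48 18 (.dbl 32 16 47)))) (.rp 28 (.str 19 (.nv (.thr 1 61 (.thr 17 49 (.dbl 18 16 48))) (.nv (.thr 35 51 (.dbl 32 34 47)) .nd))) (.rp 19 (.str 28 (.nv (.thr 1 61 (.thr 0 2 (.thr 48 18 (.thr 16 32 (.dbl 26 15 31))))) (.nv (.thr 1 61 (.thr 0 2 (.thr 17 49 (.thr 34 51 (.dbl 32 35 47))))) (.nv (.thr 32 47 (.thr 48 18 (.thr 16 0 (.dbl 26 15 31)))) (.rp 48 (.thr 32 47 (.thr 1 61 (.thr 17 49 (.thr 0 2 (.dbl 34 35 51))))) (.rp 32 (.thr 48 18 (.thr 61 1 (.thr 57 49 (.thr 26 15 (.thr 56 11 (.dbl 58 10 59)))))) (.rp 0 (.thr 32 47 (.thr 35 34 (.thr 44 38 (.thr 36 40 (.thr 48 18 (.dbl 12 24 60)))))) .nd))))))) (.rp 0 (.thr 1 61 (.thr 17 49 (.thr 32 47 (.thr 35 34 (.thr 19 51 (.dbl 18 16 48)))))) .nd)))))))))))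 (.rp 23 (.str 3 (.nv (.thr 1 61 (.thr 0 2 (.thr 5 53 (.thr 15 10 (.thr 11 7 (.dbl 26 48 56)))))) (.nv (.thr 32 47 (.thr 33 45 (.thr 48 18 (.thr 16 0 (.dbl 26 15 31))))) (.nv (.thr 45 33 (.thr 53 5 (.thr 61 1 (.thr 49 57 (.dbl 13 25 29))))) .nd)))) (.rp 13 (.str 26 (.nv (.thr 15 48 (.thr 11 56 (.thr 3 7 (.thr 1 61 (.thr 0 2 (.dbl 5 10 53)))))) (.nv (.thr 53 5 (.thr 10 58 (.thr 11 56 (.thr 61 1 (.thr 9 8 (.dbl 57 25 49)))))) (.rp 61 (.thr 5 53 (.thr 45 33 (.thr 10 58 (.thr 48 15 (.thr 47 32 (.thr 31 16 (.thr 56 11 (.thr 44 46 (.thr 35 38 (.thr 60 52 (.thr 12 28 (.thr 24 36 (.thr 27 25 (.thr 19 23 (.thr 3 51 (.thr 8 40 (.thr 6 9 (.dbl 4 0 7)))))))))))))))))) (.rp 58 (.thr 5 53 (.thr 48 15 (.thr 33 45 (.thr 61 1 (.thr 32 47 (.thr 31 16 (.thr 35 34 (.thr 3 18 (.thr 19 51 (.thr 27 23 (.thr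 25 24 (.thr 9 57 (.thr 17 29 (.thr 59 8 (.thr 56 11 (.thr 12 6 (.thr 60 52 (.dbl 44 28 38)))))))))))))))))) (.rp 56 (.thr 5 53 (.thr 33 45 (.thr 61 1 (.thr 10 58 (.thr 48 15 (.thr 32 47 (.thr 31 16 (.thr 35 34 (.thr 3 18 (.thr 19 51 (.thr 27 23 (.thr 24 25 (.thr 12 36 (.thr 6 9 (.thr 2 14 (.thr 4 7 (.dbl 38 44 55))))))))))))))))) (.rp 53 (.thr 33 45 (.thr 61 1 (.thr 10 58 (.thr 48 15 (.thr 47 32 (.thr 31 16 (.thr 3 18 (.thr 11 56 (.thr 9 8 (.thr 6 12 (.thr 14 2 (.thr 50 38 (.thr 51 49 (.thr 19 35 (.thr 27 23 (.dbl 25 24 57)))))))))))))))) (.rp 23 (.str 3 (.nv (.thr 33 45 (.dbl 48 15 18)) (.nv (.thr 11 56 (.dbl 15 7 48)) (.rp 48 (.thr 1 61 (.thr 0 2 (.thr 11 56 (.thr 15 7 (.dbl 5 10 53))))) (.rp 15 (.thr 53 5 (.thr 10 58 (.thr 11 56 (.thr 61 1 (.thr 9 8 (.dbl 57 25 49)))))) .nd)))))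 (.rp 11 (.thr 5 53 (.thr 33 45 (.thr 61 1 (.thr 10 58 (.thr 48 15 (.thr 32 47 (.thr 31 16 (.thr 35 34 (.thr 3 18 (.thr 19 51 (.thr 27 23 (.thr 24 25 (.thr 12 36 (.thr 6 9 (.thr 2 14 (.thr 4 7 (.dbl 38 44 55))))))))))))))))) (.rp 10 (.thr 5 53 (.thr 33 45 (.thr 61 1 (.thr 32 47 (.thr 35 34 (.thr 31 16 (.thr 48 15 (.thr 3 18 (.thr 19 51 (.thr 27 23 (.thr 25 24 (.thr 9 57 (.thr 17 29 (.thr 59 8 (.thr 56 11 (.thr 12 6 (.thr 60 52 (.dbl 44 28 38)))))))))))))))))) (.rp 5 (.thr 33 45 (.thr 10 58 (.thr 47 32 (.thr 31 16 (.thr 48 15 (.thr 3 18 (.thr 11 56 (.thr 61 1 (.thr 9 8 (.thr 57 25 (.thr 49 53 (.thr 50 51 (.thr 38 14 (.thr 12 6 (.dbl 36 24 39))))))))))))))) (.rp 3 (.str 23 (.nv (.thr 31 16 (.thr 27 19 (.thr 25 24 (.thr 11 56 (.thr 9 57 (.dbl 8 10 59)))))) (.nv (.thr 53 5 (.thr 10 58 (.thr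 11 56 (.thr 61 1 (.thr 9 8 (.dbl 57 25 49)))))) (.rp 59 (.thr 5 53 (.thr 33 45 (.thr 61 1 (.thr 10 58 (.thr 48 15 (.thr 32 47 (.thr 31 16 (.thr 27 19 (.thr 35 34 (.thr 44 38 (.thr 36 40 (.dbl 24 12 25)))))))))))) (.rp 58 (.thr 5 53 (.thr 48 15 (.thr 33 45 (.thr 61 1 (.thr 32 47 (.thr 31 16 (.thr 27 19 (.thr 35 34 (.thr 11 56 (.thr 44 38 (.thr 36 40 (.dbl 24 12 25)))))))))))) (.rp 57 (.thr 5 53 (.thr 33 45 (.thr 61 1 (.thr 10 58 (.thr 48 15 (.thr 32 47 (.thr 31 16 (.thr 27 19 (.thr 35 34 (.thr 44 38 (.thr 36 40 (.dbl 24 12 25)))))))))))) (.rp 56 (.thr 5 53 (.thr 33 45 (.thr 61 1 (.thr 10 58 (.thr 48 15 (.thr 32 47 (.thr 31 16 (.thr 27 19 (.thr 35 34 (.thr 44 38 (.thr 36 40 (.dbl 24 12 25)))))))))))) (.rp 40 (.thr 10 58 (.thr 31 16 (.thr 27 19 (.thr 25 24 (.thr 9 57 (.dbl 11 8 56))))))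 (.rp 25 (.str 19 (.nv (.dbl 31 16 27) (.rp 31 (.str 35 (.nv (.thr 38 44 (.thr 55 4 (.dbl 39 7 36))) (.nv (.thr 33 45 (.dbl 32 34 47)) (.rp 47 (.thr 15 48 (.thr 33 45 (.thr 34 32 (.dbl 38 44 46)))) (.rp 15 (.thr 47 32 (.thr 45 33 (.dbl 44 38 46))) .nd))))) (.rp 27 (.thr 33 45 (.thr 16 31 (.thr 17 18 (.dbl 1 49 61)))) (.rp 16 (.thr 27 31 (.thr 15 48 (.thr 39 51 (.thr 55 7 (.dbl 38 4 36))))) .nd))))) (.rp 24 (.thr 5 53 (.thr 33 45 (.thr 61 1 (.thr 58 10 (.thr 32 47 (.thr 35 34 (.thr 31 16 (.thr 27 19 (.thr 15 48 (.thr 51 39 (.thr 56 11 (.thr 57 59 (.thr 54 60 (.thr 50 62 (.dbl 38 14 44))))))))))))))) (.rp 11 (.thr 5 53 (.thr 33 45 (.thr 61 1 (.thr 58 10 (.thr 32 47 (.thr 35 34 (.thr 31 16 (.thr 27 19 (.thr 15 48 (.thr 51 39 (.thr 25 24 (.dbl 38 12 44)))))))))))) (.rp 10 (.thr 5 53 (.thr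 33 45 (.thr 61 1 (.thr 32 47 (.thr 35 34 (.thr 31 16 (.thr 27 19 (.thr 48 15 (.thr 11 56 (.thr 44 38 (.thr 36 40 (.dbl 24 12 25)))))))))))) (.rp 9 (.thr 5 53 (.thr 33 45 (.thr 61 1 (.thr 10 58 (.thr 48 15 (.thr 32 47 (.thr 31 16 (.thr 27 19 (.thr 35 34 (.thr 11 56 (.thr 44 38 (.thr 36 40 (.dbl 24 12 25))))))))))))) (.rp 8 (.thr 5 53 (.thr 33 45 (.thr 61 1 (.thr 10 58 (.thr 48 15 (.thr 32 47 (.thr 31 16 (.thr 27 19 (.thr 35 34 (.thr 11 56 (.thr 44 38 (.thr 36 40 (.dbl 24 12 25))))))))))))) .nd)))))))))))))) (.rp 1 (.thr 5 53 (.thr 33 45 (.thr 10 58 (.thr 48 15 (.thr 47 32 (.thr 31 16 (.thr 3 18 (.thr 11 56 (.thr 9 8 (.thr 57 25 (.thr 6 12 (.thr 14 2 (.thr 4 7 (.dbl 38 50 55)))))))))))))) .nd))))))))))))) (.rp 9 (.thr 45 33 (.thr 61 1 (.thr 53 5 (.thr 13 29 (.dbl 49 25 57))))) (.rp 5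 (.thr 33 45 (.str 3 (.nv (.thr 1 61 (.thr 0 2 (.thr 17 49 (.thr 18 48 (.thr 19 16 (.dbl 51 34 35)))))) (.nv (.thr 1 61 (.thr 0 2 (.thr 17 49 (.thr 34 51 (.dbl 32 35 47))))) (.nv (.thr 32 47 (.thr 48 18 (.thr 16 0 (.dbl 26 15 31)))) (.rp 48 (.thr 1 61 (.thr 17 49 (.thr 0 2 (.thr 32 47 (.dbl 34 35 51))))) (.rp 35 (.thr 1 61 (.thr 0 2 (.thr 48 18 (.dbl 32 16 47)))) (.rp 0 (.thr 1 61 (.thr 17 49 (.thr 32 47 (.thr 35 34 (.thr 19 51 (.dbl 18 16 48)))))) .nd)))))))) (.rp 3 .ext (.rp 1 (.str 44 (.nv (.thr 32 47 (.thr 36 40 (.dbl 38 35 39))) (.nv (.thr 47 32 (.dbl 45 33 46)) (.rp 47 (.thr 33 45 (.thr 38 35 (.thr 39 36 (.thr 5 53 (.thr 46 34 (.thr 55 4 (.thr 23 7 (.str 26 (.nv (.thr 15 48 (.thr 58 10 (.thr 27 51 (.dbl 31 16 19)))) (.nv (.thr 15 48 (.thr 58 10 (.thr 14 50 (.thr 12 13 (.dbl 51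 25 27))))) (.nv (.thr 31 16 (.thr 27 19 (.dbl 15 48 51))) (.rp 58 (.thr 48 15 (.thr 31 16 (.thr 27 19 (.thr 25 24 (.thr 51 12 (.dbl 49 13 50)))))) (.rp 52 (.str 20 (.nv (.thr 15 48 (.thr 58 10 (.thr 27 51 (.dbl 31 16 19)))) (.nv (.thr 15 48 (.thr 58 10 (.thr 14 50 (.thr 12 13 (.dbl 51 25 27))))) (.nv (.thr 31 16 (.thr 27 19 (.dbl 15 48 51))) (.rp 58 (.thr 48 15 (.thr 31 16 (.thr 27 19 (.thr 25 24 (.thr 51 12 (.dbl 49 13 50)))))) (.rp 51 (.thr 58 10 (.thr 56 11 (.thr 59 57 (.thr 8 25 (.thr 24 40 (.dbl 16 28 31)))))) (.rp 48 (.thr 58 10 (.thr 31 16 (.thr 27 19 (.thr 51 15 (.dbl 25 12 24))))) (.rp 27 (.thr 16 31 (.thr 15 48 (.thr 58 10 (.thr 14 50 (.thr 12 13 (.dbl 28 24 60)))))) (.rp 15 (.thr 31 16 (.thr 27 19 (.thr 25 24 (.thr 8 59 (.thr 9 57 (.dbl 11 10 56)))))) .nd))))))))) (.rp 51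 (.thr 31 16 (.thr 14 50 (.thr 30 62 (.thr 28 29 (.thr 60 12 (.thr 56 11 (.dbl 48 15 52))))))) (.rp 48 (.thr 58 10 (.thr 31 16 (.thr 27 19 (.thr 51 15 (.dbl 25 12 24))))) (.rp 27 (.thr 31 16 (.thr 58 10 (.thr 14 50 (.thr 30 62 (.thr 28 29 (.thr 15 48 (.dbl 12 13 60))))))) (.rp 20 (.str 52 (.nv (.thr 48 15 (.thr 31 16 (.dbl 56 11 60))) (.nv (.thr 15 48 (.thr 58 10 (.thr 31 16 (.dbl 27 19 51)))) (.nv (.thr 56 11 (.dbl 48 15 60)) (.rp 48 (.thr 58 10 (.thr 31 16 (.thr 27 19 (.thr 51 15 (.dbl 25 12 24))))) (.rp 31 (.thr 15 48 (.thr 58 10 (.thr 51 27 (.thr 14 50 (.dbl 12 13 25))))) (.rp 15 (.thr 31 16 (.thr 14 50 (.thr 30 62 (.thr 28 29 (.thr 60 12 (.dbl 56 11 48)))))) .nd))))))) (.rp 15 (.thr 31 16 (.thr 27 19 (.thr 25 24 (.thr 8 59 (.thr 9 57 (.dbl 11 10 56)))))) .nd)))))))))))))))))) (.rp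 32 (.thr 45 33 (.thr 46 47 (.dbl 38 34 35))) (.rp 23 (.str 3 (.nv (.thr 32 47 (.thr 36 40 (.dbl 38 35 39))) (.nv (.thr 47 32 (.dbl 45 33 46)) (.rp 47 (.thr 35 38 (.thr 33 45 (.thr 32 34 (.thr 48 18 (.thr 16 0 (.dbl 26 15 31)))))) (.rp 32 (.thr 45 33 (.thr 46 47 (.dbl 38 34 35))) .nd))))) (.rp 3 (.str 23 (.nv (.thr 38 35 (.thr 39 36 (.dbl 55 4 7))) (.nv (.thr 47 32 (.dbl 45 33 46)) (.rp 2 (.str 0 (.nv (.thr 38 35 (.thr 39 36 (.dbl 55 4 7))) (.nv (.thr 47 32 (.dbl 45 33 46)) .nd))) (.rp 0 (.str 2 (.nv (.thr 38 35 (.thr 39 36 (.dbl 55 4 7))) (.nv (.thr 47 32 (.dbl 45 33 46)) .nd))) .nd))))) .nd))))))) .nd))))))))))))))))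

theorem w492 : WinAt (6597071863808, 9223380832951992320) :=
  chF (K := [(6734510817280, 9223380832951992328)]) (kc w489 kn) c492 6597071863808 9223380832951992320 43
    [9223380832956186632] (by decide +kernel) (by decide +kernel)

end Pool.Agent.TTT.B43
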