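import Pool.Agent.TTT.Q3
import Pool.Agent.TTT.Q23

/-!
Certified forced wins in positions of the 4 x 4 x 4 board.
-/

set_option autoImplicit false
set_option maxRecDepth 1000000
set_option linter.all false

namespace Pool.Agent.TTT.B43

/-- A certificate. -/
noncomputable def c493 : Ct := (.str 38 (.nv (.thr 34 46 (.thr 35 44 (.thr 32 33 (.thr 43 40 (.dbl 47 37 39))))) (.nv (.thr 40 43 (.thr 44 35 (.thr 32 36 (.thr 46 34 (.dbl 47 37 45))))) (.rp 62 (.str 60 (.nv (.thr 4 55 (.thr 34 46 (.thr 40 43 (.thr 0 20 (.thr 12 8 (.dbl 51 17 25)))))) (.nv (.thr 40 43 (.thr 44 35 (.thr 32 36 (.thr 46 34 (.dbl 47 37 45))))) (.nv (.thr 4 55 (.thr 44 35 (.thr 12 28 (.thr 8 0 (.dbl 25 51 59))))) .nd)))) (.rp 60 (.str 62 (.nv (.thr 34 46 (.thr 35 44 (.thr 32 33 (.thr 43 40 (.dbl 47 37 39))))) (.nv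 (.thr 40 43 (.thr 44 35 (.thr 32 36 (.thr 46 34 (.dbl 47 37 45))))) (.rp 47 (.thr 46 34 (.thr 40 43 (.thr 14 30 (.thr 26 50 (.thr 58 10 (.thr 56 11 (.thr 59 57 (.dbl 8 24 25)))))))) (.rp 46 (.str 25 (.nv (.thr 29 17 (.thr 8 59 (.thr 40 43 (.thr 9 57 (.thr 56 24 (.dbl 11 10 26)))))) (.nv (.thr 12 51 (.thr 40 43 (.thr 44 35 (.thr 36 32 (.thr 24 48 (.dbl 8 56 59)))))) (.nv (.thr 43 40 (.thr 57 9 (.thr 59 8 (.thr 11 27 (.dbl 56 26 58))))) (.rp 59 (.thr 40 43 (.thr 44 35 (.thr 36 32 (.thr 12 51 (.thr 55 4 (.thr 24 48 (.thr 56 8 (.dbl 26 11 27)))))))) (.rp 57 (.thr 43 40 (.thr 29 17 (.thr 51 12 (.thr 59 8 (.thr 27 11 (.thr 39 15 (.dbl 35 44 47))))))) (.rp 56 (.thr 40 43 (.thr 44 35 (.thr 36 32 (.thr 39 37 (.thr 29 17 (.thr 51 12 (.thr 59 8 (.thr 4 55 (.thr 52 20 (.thr 9 57 (.thr 27 15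 (.thr 26 24 (.thr 58 10 (.dbl 50 14 54)))))))))))))) (.rp 43 (.thr 59 8 (.thr 57 9 (.thr 58 56 (.thr 50 54 (.dbl 26 10 14))))) (.rp 40 (.thr 29 17 (.thr 51 12 (.thr 59 8 (.thr 57 9 (.thr 56 58 (.thr 11 26 (.thr 27 43 (.thr 15 39 (.thr 3 7 (.dbl 35 19 44)))))))))) (.rp 24 (.thr 43 40 (.thr 57 9 (.thr 59 8 (.thr 56 58 (.dbl 11 26 27))))) (.rp 8 (.thr 40 43 (.thr 44 35 (.thr 36 32 (.thr 12 51 (.thr 24 48 (.thr 26 27 (.thr 50 14 (.dbl 58 10 54)))))))) .nd))))))))))) (.rp 45 (.thr 34 46 (.thr 43 40 (.thr 35 44 (.thr 47 39 (.dbl 32 33 37))))) (.rp 44 (.thr 46 34 (.thr 40 43 (.thr 14 30 (.thr 26 50 (.thr 58 10 (.thr 56 11 (.thr 59 57 (.dbl 8 24 25)))))))) (.rp 43 (.thr 46 34 (.thr 4 55 (.thr 14 30 (.thr 26 50 (.thr 10 58 (.thr 11 56 (.thr 8 9 (.thr 12 0 (.dbl 25 51 59))))))))) (.rp 40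 (.thr 46 34 (.thr 4 55 (.thr 14 30 (.thr 26 50 (.thr 16 31 (.thr 10 58 (.thr 11 56 (.thr 8 9 (.thr 0 12 (.thr 48 32 (.dbl 15 5 37))))))))))) (.rp 39 (.thr 46 34 (.thr 44 35 (.thr 40 43 (.thr 47 45 (.dbl 32 36 37))))) (.rp 37 (.thr 46 34 (.thr 40 43 (.thr 14 30 (.thr 26 50 (.thr 58 10 (.thr 56 11 (.thr 59 57 (.dbl 8 24 25)))))))) (.rp 35 (.thr 46 34 (.thr 40 43 (.thr 14 30 (.thr 26 50 (.thr 58 10 (.thr 56 11 (.thr 59 57 (.dbl 8 24 25)))))))) (.rp 34 (.str 56 (.nv (.thr 4 55 (.thr 40 43 (.thr 8 24 (.thr 12 0 (.dbl 25 51 59))))) (.nv (.thr 26 11 (.thr 50 14 (.dbl 58 10 54))) .nd))) (.rp 32 (.thr 46 34 (.thr 40 43 (.thr 14 30 (.thr 26 50 (.thr 58 10 (.thr 56 11 (.thr 59 57 (.dbl 8 24 25)))))))) .nd)))))))))))))) (.rp 47 (.thr 43 40 (.thr 44 35 (.str 26 (.nv (.thr 4 55 (.thr 10 58 (.thr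 11 56 (.thr 8 9 (.thr 12 0 (.dbl 25 51 59)))))) (.nv (.thr 31 16 (.thr 11 56 (.thr 59 27 (.thr 8 25 (.dbl 10 9 58))))) (.nv (.thr 10 58 (.thr 11 56 (.thr 59 27 (.dbl 8 9 25)))) (.rp 62 (.str 60 (.nv (.thr 10 58 (.thr 11 56 (.thr 8 9 (.dbl 59 25 27)))) (.nv (.thr 4 55 (.thr 12 28 (.thr 8 0 (.dbl 25 51 59)))) (.rp 59 (.thr 12 28 (.thr 56 11 (.thr 14 50 (.thr 15 13 (.dbl 48 37 52))))) (.rp 31 (.str 15 (.nv (.thr 14 50 (.dbl 12 13 28)) (.nv (.thr 56 11 (.dbl 48 37 52)) .nd))) (.rp 25 (.thr 10 58 (.thr 11 56 (.thr 8 9 (.thr 4 55 (.dbl 12 0 28))))) (.rp 15 (.thr 31 16 (.thr 12 28 (.thr 11 56 (.thr 27 59 (.dbl 25 24 51))))) (.rp 8 (.thr 12 28 (.thr 56 11 (.thr 25 51 (.thr 24 27 (.dbl 48 36 52))))) .nd)))))))) (.rp 60 (.str 62 (.nv (.thr 10 58 (.thr 11 56 (.thr 8 9 (.dbl 59 25 27)))) (.nv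 (.thr 31 16 (.thr 14 50 (.dbl 46 30 34))) (.nv (.thr 58 10 (.dbl 50 14 54)) (.rp 31 (.str 15 (.nv (.thr 11 56 (.thr 27 59 (.thr 51 39 (.dbl 25 12 24)))) (.nv (.thr 58 10 (.dbl 50 14 54)) (.rp 58 (.thr 46 34 (.dbl 14 30 50)) (.rp 20 (.str 0 (.nv (.thr 14 50 (.dbl 46 30 34)) (.nv (.dbl 10 5 58) .nd))) (.rp 0 (.str 20 (.nv (.thr 4 55 (.thr 37 48 (.thr 53 5 (.dbl 36 39 52)))) (.nv (.thr 58 10 (.dbl 50 14 54)) .nd))) .nd)))))) (.rp 20 (.str 0 (.nv (.thr 4 55 (.thr 8 12 (.thr 11 56 (.dbl 59 25 27)))) (.nv (.thr 58 10 (.dbl 50 14 54)) (.rp 31 (.str 15 (.nv (.thr 14 50 (.dbl 46 30 34)) (.nv (.dbl 10 5 58) .nd))) (.rp 15 (.thr 31 16 (.thr 58 10 (.dbl 50 14 54))) .nd))))) (.rp 0 (.str 20 (.nv (.thr 10 58 (.thr 11 56 (.thr 8 9 (.dbl 59 25 27)))) (.nv (.thr 14 50 (.dbl 46 30 34)) (.rp 31 (.str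 15 (.nv (.thr 4 55 (.thr 37 48 (.thr 53 5 (.dbl 36 39 52)))) (.nv (.thr 58 10 (.dbl 50 14 54)) .nd))) (.rp 15 (.thr 31 16 (.thr 14 50 (.dbl 46 30 34))) .nd))))) .nd))))))) (.rp 59 (.thr 31 16 (.thr 14 50 (.str 60 (.nv (.thr 12 28 (.thr 56 11 (.thr 48 52 (.thr 24 36 (.dbl 25 27 51))))) (.nv (.thr 28 12 (.thr 30 29 (.dbl 46 34 62))) (.rp 55 (.str 51 (.nv (.dbl 12 25 28) (.rp 28 (.thr 57 54 (.dbl 25 9 12)) (.rp 25 (.thr 28 12 (.thr 30 29 (.dbl 46 34 62))) (.rp 12 (.thr 11 56 (.thr 57 54 (.thr 9 25 (.dbl 10 8 58)))) .nd))))) (.rp 51 (.thr 55 4 (.thr 28 12 (.thr 30 29 (.dbl 46 34 62)))) (.rp 28 (.thr 56 11 (.thr 46 34 (.thr 30 62 (.thr 15 45 (.dbl 48 37 52))))) (.rp 12 (.thr 56 11 (.thr 46 34 (.thr 30 62 (.thr 15 45 (.dbl 48 37 52))))) .nd))))))))) (.rp 58 (.thr 11 56 (.thr 59 27 (.thr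 8 25 (.thr 10 9 (.thr 4 55 (.thr 14 50 (.thr 6 2 (.thr 5 7 (.dbl 0 12 15))))))))) (.rp 56 (.thr 10 58 (.thr 4 55 (.thr 14 50 (.thr 6 2 (.thr 5 7 (.thr 15 0 (.dbl 37 48 53))))))) (.rp 31 (.str 15 (.nv (.thr 11 56 (.thr 27 59 (.thr 51 39 (.dbl 25 12 24)))) (.nv (.thr 10 58 (.thr 5 0 (.dbl 37 48 53))) (.rp 62 (.str 60 (.nv (.thr 14 50 (.dbl 12 13 28)) (.nv (.thr 56 11 (.dbl 48 37 52)) .nd))) (.rp 60 (.str 62 (.nv (.thr 11 56 (.thr 27 59 (.thr 51 39 (.dbl 25 12 24)))) (.nv (.thr 58 10 (.dbl 50 14 54)) (.rp 58 (.thr 46 34 (.dbl 14 30 50)) (.rp 20 (.str 0 (.nv (.thr 14 50 (.dbl 46 30 34)) (.nv (.dbl 10 5 58) .nd))) (.rp 0 (.str 20 (.nv (.thr 4 55 (.thr 37 48 (.thr 53 5 (.dbl 36 39 52)))) (.nv (.thr 58 10 (.dbl 50 14 54)) .nd))) .nd)))))) (.rp 58 (.thr 11 56 (.thr 59 27 (.thr 14 50 (.thr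 12 13 (.dbl 25 8 51))))) .nd)))))) (.rp 25 (.thr 10 58 (.thr 4 55 (.thr 14 50 (.thr 6 2 (.thr 5 7 (.thr 15 0 (.dbl 37 48 53))))))) (.rp 11 (.thr 10 58 (.thr 4 55 (.thr 14 50 (.thr 6 2 (.thr 5 7 (.thr 15 0 (.dbl 37 48 53))))))) (.rp 10 (.thr 11 56 (.thr 27 59 (.thr 55 4 (.thr 31 16 (.thr 23 19 (.thr 39 7 (.thr 37 36 (.dbl 15 48 51)))))))) (.rp 9 (.thr 10 58 (.thr 4 55 (.thr 14 50 (.thr 6 2 (.thr 5 7 (.thr 15 0 (.dbl 37 48 53))))))) (.rp 8 (.thr 10 58 (.thr 4 55 (.thr 14 50 (.thr 6 2 (.thr 5 7 (.thr 15 0 (.dbl 37 48 53))))))) .nd))))))))))))))))) (.rp 46 (.thr 40 43 (.thr 44 35 (.thr 36 32 (.thr 4 55 (.thr 20 52 (.thr 60 0 (.thr 12 28 (.thr 48 24 (.thr 25 51 (.thr 59 8 (.thr 9 57 (.thr 3 6 (.thr 33 18 (.dbl 37 39 45)))))))))))))) (.rp 45 (.thr 43 40 (.thr 35 44 (.thr 34 46 (.thr 47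 39 (.dbl 32 33 37))))) (.rp 44 (.str 26 (.nv (.thr 10 58 (.thr 43 40 (.thr 11 56 (.thr 59 27 (.dbl 8 9 25))))) (.nv (.thr 4 55 (.thr 40 43 (.thr 56 11 (.thr 8 24 (.thr 12 0 (.dbl 25 51 59)))))) (.nv (.thr 4 55 (.thr 10 58 (.thr 14 50 (.thr 6 2 (.thr 5 7 (.thr 15 0 (.dbl 37 48 53))))))) (.nv (.thr 40 43 (.thr 56 11 (.thr 8 24 (.thr 58 10 (.dbl 59 25 57))))) (.rp 62 (.str 60 (.nv (.thr 4 55 (.thr 40 43 (.thr 0 20 (.thr 12 8 (.thr 51 25 (.dbl 34 17 46)))))) (.nv (.thr 16 31 (.thr 56 11 (.thr 48 52 (.thr 32 0 (.dbl 37 15 47))))) (.rp 0 (.thr 40 43 (.thr 58 10 (.thr 56 11 (.thr 59 57 (.dbl 8 24 25))))) .nd)))) (.rp 60 (.str 62 (.nv (.thr 46 34 (.dbl 14 30 50)) (.nv (.thr 58 10 (.dbl 50 14 54)) (.rp 50 (.thr 40 43 (.thr 58 10 (.thr 56 11 (.thr 59 57 (.dbl 8 24 25))))) (.rp 28 (.str 12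 (.nv (.thr 4 55 (.thr 8 0 (.dbl 25 51 59))) (.nv (.thr 58 10 (.dbl 50 14 54)) (.rp 25 (.str 19 (.nv (.thr 4 55 (.thr 8 0 (.thr 40 43 (.dbl 56 11 24)))) (.nv (.thr 58 10 (.dbl 50 14 54)) .nd))) (.rp 19 (.thr 25 51 (.thr 58 10 (.dbl 50 14 54))) .nd))))) (.rp 14 (.thr 40 43 (.thr 58 10 (.thr 56 11 (.thr 59 57 (.dbl 8 24 25))))) (.rp 12 (.str 28 (.nv (.thr 16 31 (.thr 24 20 (.thr 40 43 (.dbl 56 8 11)))) (.nv (.thr 46 34 (.dbl 14 30 50)) (.rp 46 (.str 29 (.nv (.thr 50 14 (.dbl 58 10 54)) (.nv (.dbl 31 16 30) (.rp 47 (.str 45 (.nv (.thr 50 14 (.dbl 58 10 54)) (.nv (.dbl 31 16 30) (.rp 31 (.str 15 (.nv (.thr 50 14 (.dbl 58 10 54)) (.nv (.dbl 37 33 48) .nd))) .nd)))) (.rp 45 (.str 47 (.nv (.thr 50 14 (.dbl 58 10 54)) (.nv (.dbl 31 16 30) (.rp 30 (.str 15 (.nv (.thr 50 14 (.dbl 58 10 54))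 (.nv (.dbl 37 32 48) .nd))) (.rp 15 (.thr 30 31 (.thr 58 10 (.dbl 50 14 54))) .nd))))) .nd))))) .nd)))) .nd))))))) (.rp 59 (.thr 34 46 (.thr 50 14 (.thr 18 2 (.thr 16 31 (.thr 17 19 (.thr 51 0 (.dbl 25 12 29))))))) .nd)))))))) (.rp 43 (.str 12 (.nv (.thr 4 55 (.thr 8 0 (.dbl 25 51 59))) (.rp 62 (.str 60 (.nv (.thr 4 55 (.thr 8 0 (.dbl 25 51 59))) (.nv (.dbl 44 28 35) (.rp 23 (.str 3 (.nv (.thr 9 6 (.dbl 25 51 57)) (.nv (.dbl 44 28 35) .nd))) (.rp 3 (.str 23 (.nv (.thr 4 55 (.thr 8 0 (.dbl 25 51 59))) (.nv (.dbl 44 28 35) .nd))) .nd))))) (.rp 60 (.str 62 (.nv (.thr 4 55 (.thr 51 25 (.thr 0 8 (.dbl 34 17 46)))) (.nv (.thr 4 55 (.thr 8 0 (.dbl 25 51 59))) (.rp 55 (.thr 25 51 (.thr 59 8 (.thr 57 9 (.thr 58 56 (.thr 50 54 (.dbl 26 10 14)))))) (.rp 51 (.thr 46 34 (.thr 14 30 (.thr 15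 13 (.thr 26 50 (.thr 10 58 (.thr 0 5 (.dbl 4 8 55))))))) (.rp 25 (.thr 4 55 (.thr 8 0 (.thr 46 34 (.thr 14 30 (.thr 26 50 (.thr 10 58 (.dbl 11 9 56))))))) (.rp 23 (.str 3 (.nv (.thr 35 44 (.dbl 51 19 25)) (.nv (.thr 9 6 (.dbl 25 51 57)) (.rp 51 (.thr 6 9 (.thr 46 34 (.thr 14 30 (.thr 10 2 (.dbl 26 50 58))))) (.rp 25 (.thr 4 55 (.thr 0 8 (.thr 35 44 (.thr 34 46 (.dbl 51 17 19))))) .nd))))) (.rp 8 (.thr 44 35 (.thr 46 34 (.thr 14 30 (.thr 15 13 (.thr 26 50 (.thr 37 48 (.dbl 47 32 45))))))) (.rp 4 (.thr 25 51 (.thr 59 8 (.thr 57 9 (.thr 58 56 (.thr 50 54 (.dbl 26 10 14)))))) (.rp 3 (.str 23 (.nv (.thr 4 55 (.thr 8 0 (.dbl 25 51 59))) (.nv (.thr 4 55 (.thr 0 8 (.thr 34 46 (.dbl 51 17 25)))) (.rp 59 (.thr 4 55 (.thr 51 25 (.thr 0 8 (.dbl 34 17 46)))) (.rp 55 (.thr 46 34 (.thr 14 30 (.thr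 26 50 (.thr 31 16 (.thr 27 19 (.dbl 25 24 51)))))) (.rp 51 (.thr 55 4 (.thr 39 7 (.thr 37 36 (.thr 35 44 (.thr 33 45 (.dbl 34 32 46)))))) (.rp 25 (.thr 55 4 (.thr 39 7 (.thr 37 36 (.thr 44 35 (.thr 45 33 (.dbl 47 32 46)))))) (.rp 8 (.thr 55 4 (.thr 39 7 (.thr 37 36 (.thr 44 35 (.thr 45 33 (.dbl 47 32 46)))))) (.rp 4 (.thr 46 34 (.thr 14 30 (.thr 25 51 (.thr 26 50 (.thr 27 24 (.dbl 31 16 19)))))) (.rp 0 (.thr 55 4 (.thr 39 7 (.thr 37 36 (.thr 44 35 (.thr 45 33 (.dbl 47 32 46)))))) .nd)))))))))) (.rp 0 (.thr 25 51 (.thr 59 8 (.thr 57 9 (.thr 58 56 (.thr 50 54 (.dbl 26 10 14)))))) .nd))))))))))) (.rp 59 (.thr 34 46 (.thr 4 55 (.thr 51 25 (.dbl 0 8 17)))) (.rp 55 (.thr 35 44 (.thr 34 46 (.thr 33 32 (.thr 25 51 (.thr 59 8 (.thr 17 29 (.thr 49 1 (.dbl 37 13 45)))))))) (.rp 51 (.thr 44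 35 (.thr 46 34 (.thr 47 45 (.thr 32 37 (.thr 36 40 (.thr 48 24 (.thr 0 16 (.dbl 4 8 55)))))))) (.rp 25 (.thr 44 35 (.thr 46 34 (.thr 47 45 (.thr 32 37 (.thr 36 40 (.thr 4 55 (.thr 0 8 (.dbl 48 16 24)))))))) (.rp 23 (.str 3 (.nv (.thr 35 44 (.dbl 51 19 25)) (.nv (.thr 9 6 (.dbl 25 51 57)) (.rp 62 (.str 60 (.nv (.thr 9 6 (.dbl 25 51 57)) (.nv (.dbl 44 28 35) .nd))) (.rp 60 (.str 62 (.nv (.thr 35 44 (.dbl 51 19 25)) (.nv (.thr 9 6 (.dbl 25 51 57)) (.rp 51 (.thr 6 9 (.thr 46 34 (.thr 14 30 (.thr 10 2 (.dbl 26 50 58))))) (.rp 25 (.thr 4 55 (.thr 0 8 (.thr 35 44 (.thr 34 46 (.dbl 51 17 19))))) .nd))))) (.rp 51 (.thr 35 44 (.thr 34 46 (.thr 33 32 (.thr 48 18 (.thr 36 24 (.dbl 37 39 45)))))) (.rp 25 (.thr 35 44 (.thr 34 46 (.thr 4 55 (.thr 0 8 (.dbl 51 17 19))))) .nd))))))) (.rp 8 (.thr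 35 44 (.thr 34 46 (.thr 33 32 (.thr 25 51 (.thr 17 29 (.thr 49 1 (.dbl 37 13 45))))))) (.rp 4 (.thr 35 44 (.thr 34 46 (.thr 33 32 (.thr 25 51 (.thr 17 29 (.thr 49 1 (.dbl 37 13 45))))))) (.rp 3 (.str 23 (.nv (.thr 4 55 (.thr 51 25 (.thr 0 8 (.dbl 34 17 46)))) (.nv (.thr 4 55 (.thr 8 0 (.dbl 25 51 59))) (.rp 62 (.str 60 (.nv (.thr 4 55 (.thr 8 0 (.dbl 25 51 59))) (.nv (.dbl 44 28 35) .nd))) (.rp 60 (.str 62 (.nv (.thr 4 55 (.thr 8 0 (.dbl 25 51 59))) (.nv (.thr 4 55 (.thr 0 8 (.thr 34 46 (.dbl 51 17 25)))) (.rp 59 (.thr 4 55 (.thr 51 25 (.thr 0 8 (.dbl 34 17 46)))) (.rp 55 (.thr 46 34 (.thr 14 30 (.thr 26 50 (.thr 31 16 (.thr 27 19 (.dbl 25 24 51)))))) (.rp 51 (.thr 55 4 (.thr 39 7 (.thr 37 36 (.thr 35 44 (.thr 33 45 (.dbl 34 32 46)))))) (.rp 25 (.thr 55 4 (.thr 39 7 (.thr 37 36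 (.thr 44 35 (.thr 45 33 (.dbl 47 32 46)))))) (.rp 8 (.thr 55 4 (.thr 39 7 (.thr 37 36 (.thr 44 35 (.thr 45 33 (.dbl 47 32 46)))))) (.rp 4 (.thr 46 34 (.thr 14 30 (.thr 25 51 (.thr 26 50 (.thr 27 24 (.dbl 31 16 19)))))) (.rp 0 (.thr 55 4 (.thr 39 7 (.thr 37 36 (.thr 44 35 (.thr 45 33 (.dbl 47 32 46)))))) .nd)))))))))) (.rp 55 (.thr 34 46 (.thr 35 44 (.thr 33 32 (.thr 25 51 (.thr 59 8 (.thr 17 29 (.thr 49 1 (.dbl 37 13 45)))))))) (.rp 51 (.thr 46 34 (.thr 55 4 (.thr 39 7 (.thr 37 36 (.thr 45 33 (.dbl 47 32 44)))))) (.rp 25 (.thr 46 34 (.thr 44 35 (.thr 47 45 (.thr 55 4 (.thr 39 7 (.dbl 37 32 36)))))) (.rp 8 (.thr 46 34 (.thr 44 35 (.thr 47 45 (.thr 55 4 (.thr 39 7 (.dbl 37 32 36)))))) (.rp 4 (.thr 34 46 (.thr 35 44 (.thr 33 32 (.thr 25 51 (.thr 17 29 (.thr 49 1 (.dbl 37 13 45)))))))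 (.rp 0 (.thr 46 34 (.thr 44 35 (.thr 47 45 (.thr 55 4 (.thr 39 7 (.dbl 37 32 36)))))) .nd))))))))))) (.rp 0 (.thr 35 44 (.thr 34 46 (.thr 33 32 (.thr 25 51 (.thr 17 29 (.thr 49 1 (.dbl 37 13 45))))))) .nd))))))))))))) (.rp 40 (.thr 44 35 (.str 60 (.nv (.thr 4 55 (.thr 12 28 (.thr 8 0 (.dbl 25 51 59)))) (.rp 59 (.thr 46 34 (.thr 45 47 (.thr 28 12 (.thr 30 15 (.thr 31 29 (.thr 26 16 (.dbl 14 50 62))))))) (.rp 55 (.thr 46 34 (.thr 45 47 (.thr 28 12 (.thr 30 15 (.thr 31 29 (.thr 26 16 (.dbl 14 50 62))))))) (.rp 51 (.thr 46 34 (.thr 45 47 (.thr 28 12 (.thr 30 15 (.thr 31 29 (.thr 26 16 (.dbl 14 50 62))))))) (.rp 28 (.str 25 (.nv (.thr 57 9 (.dbl 51 12 54)) (.rp 57 (.thr 46 34 (.thr 12 51 (.thr 45 47 (.thr 15 30 (.thr 13 14 (.dbl 37 33 49)))))) (.rp 54 (.thr 46 34 (.thr 12 51 (.thr 45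 47 (.thr 15 30 (.thr 13 14 (.dbl 37 33 49)))))) (.rp 51 (.thr 57 9 (.thr 46 34 (.thr 59 8 (.thr 56 58 (.thr 48 52 (.thr 45 47 (.thr 15 30 (.dbl 37 26 33)))))))) (.rp 12 (.thr 57 9 (.thr 46 34 (.thr 55 4 (.thr 54 51 (.thr 53 52 (.thr 37 5 (.dbl 45 33 47))))))) (.rp 9 (.thr 46 34 (.thr 12 51 (.thr 45 47 (.thr 15 30 (.thr 13 14 (.dbl 37 33 49)))))) .nd))))))) (.rp 25 (.thr 46 34 (.thr 45 47 (.thr 28 12 (.thr 30 15 (.thr 31 29 (.thr 26 16 (.dbl 14 50 62))))))) (.rp 19 (.thr 46 34 (.thr 45 47 (.thr 28 12 (.thr 30 15 (.thr 31 29 (.thr 26 16 (.dbl 14 50 62))))))) (.rp 12 (.str 25 (.nv (.thr 4 55 (.thr 46 34 (.thr 45 47 (.thr 15 30 (.thr 57 9 (.thr 51 54 (.thr 39 27 (.dbl 37 33 36)))))))) (.nv (.thr 29 17 (.thr 46 34 (.thr 45 47 (.thr 30 15 (.thr 31 28 (.thr 14 62 (.dbl 26 16 50)))))))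 (.rp 51 (.thr 57 9 (.thr 46 34 (.thr 59 8 (.thr 56 58 (.thr 48 52 (.thr 45 47 (.thr 15 30 (.dbl 37 26 33)))))))) (.rp 47 (.thr 57 9 (.thr 59 8 (.thr 56 58 (.thr 48 52 (.thr 51 54 (.thr 50 49 (.dbl 26 11 14))))))) (.rp 46 (.thr 29 17 (.thr 57 9 (.thr 59 8 (.thr 56 58 (.thr 48 52 (.thr 51 54 (.thr 50 49 (.dbl 26 11 14)))))))) (.rp 45 (.thr 57 9 (.thr 59 8 (.thr 56 58 (.thr 48 52 (.thr 51 54 (.thr 50 49 (.dbl 26 11 14))))))) (.rp 43 (.thr 57 9 (.thr 46 34 (.thr 55 4 (.thr 54 51 (.thr 53 52 (.thr 37 5 (.dbl 45 33 47))))))) (.rp 39 (.thr 57 9 (.thr 46 34 (.thr 55 4 (.thr 54 51 (.thr 53 52 (.thr 37 5 (.dbl 45 33 47))))))) (.rp 34 (.thr 57 9 (.thr 59 8 (.thr 56 58 (.thr 48 52 (.thr 51 54 (.thr 50 49 (.dbl 26 11 14))))))) (.rp 33 (.thr 57 9 (.thr 59 8 (.thr 56 58 (.thr 48 52 (.thr 51 54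 (.thr 50 49 (.dbl 26 11 14))))))) (.rp 32 (.thr 57 9 (.thr 59 8 (.thr 56 58 (.thr 48 52 (.thr 51 54 (.thr 50 49 (.dbl 26 11 14))))))) (.rp 30 (.thr 57 9 (.thr 46 34 (.thr 55 4 (.thr 54 51 (.thr 53 52 (.thr 37 5 (.dbl 45 33 47))))))) (.rp 29 (.thr 46 34 (.thr 57 9 (.thr 55 4 (.thr 54 51 (.thr 53 52 (.thr 37 5 (.dbl 45 33 47))))))) (.rp 26 (.thr 57 9 (.thr 46 34 (.thr 55 4 (.thr 54 51 (.thr 53 52 (.thr 37 5 (.dbl 45 33 47))))))) (.rp 15 (.thr 57 9 (.thr 46 34 (.thr 55 4 (.thr 54 51 (.thr 53 52 (.thr 37 5 (.dbl 45 33 47))))))) .nd)))))))))))))))) (.rp 8 (.thr 46 34 (.thr 45 47 (.thr 28 12 (.thr 30 15 (.thr 31 29 (.thr 26 16 (.dbl 14 50 62))))))) (.rp 4 (.thr 46 34 (.thr 45 47 (.thr 28 12 (.thr 30 15 (.thr 31 29 (.thr 26 16 (.dbl 14 50 62))))))) (.rp 0 (.thr 46 34 (.thr 45 47 (.thr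 28 12 (.thr 30 15 (.thr 31 29 (.thr 26 16 (.dbl 14 50 62))))))) .nd))))))))))))) (.rp 39 (.thr 40 43 (.thr 46 34 (.thr 44 35 (.thr 47 45 (.dbl 32 36 37))))) (.rp 37 (.thr 44 35 (.str 60 (.nv (.thr 12 28 (.thr 34 46 (.thr 40 43 (.thr 0 20 (.dbl 51 17 25))))) (.nv (.thr 40 43 (.thr 20 0 (.thr 36 32 (.dbl 4 52 55)))) (.nv (.thr 4 55 (.thr 12 28 (.thr 8 0 (.dbl 25 51 59)))) (.rp 52 (.str 7 (.nv (.thr 34 46 (.thr 40 43 (.thr 0 20 (.thr 51 17 (.dbl 12 25 28))))) (.nv (.thr 12 28 (.thr 4 55 (.thr 8 0 (.dbl 25 51 59)))) (.rp 51 (.thr 12 28 (.thr 40 43 (.thr 0 20 (.dbl 4 8 55)))) (.rp 28 (.thr 4 55 (.thr 40 43 (.thr 0 20 (.thr 12 8 (.thr 34 46 (.dbl 51 17 25)))))) (.rp 25 (.thr 4 55 (.thr 40 43 (.thr 0 20 (.dbl 12 8 28)))) (.rp 12 (.thr 4 55 (.thr 5 6 (.thr 40 43 (.thr 0 20 (.thr 15 10 (.thr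 45 30 (.dbl 46 34 47))))))) (.rp 4 (.thr 12 28 (.thr 40 43 (.thr 0 20 (.thr 36 32 (.thr 34 46 (.dbl 51 17 25)))))) (.rp 0 (.thr 12 28 (.thr 4 55 (.thr 6 5 (.thr 9 3 (.dbl 25 51 57))))) .nd))))))))) (.rp 7 (.str 52 (.nv (.thr 12 28 (.thr 40 43 (.thr 36 32 (.dbl 48 24 56)))) (.nv (.thr 12 28 (.thr 55 4 (.thr 54 53 (.dbl 51 25 57)))) (.nv (.thr 4 55 (.thr 20 36 (.dbl 40 0 43))) .nd)))) (.rp 0 (.thr 40 43 (.thr 36 32 (.thr 4 55 (.thr 52 20 (.thr 48 56 (.dbl 12 24 28)))))) .nd)))))))) (.rp 35 (.str 56 (.nv (.thr 40 43 (.thr 4 55 (.thr 8 24 (.thr 12 0 (.dbl 25 51 59))))) (.nv (.thr 11 26 (.thr 43 40 (.thr 59 27 (.thr 25 8 (.dbl 57 9 58))))) (.rp 62 (.str 60 (.nv (.thr 11 26 (.thr 43 40 (.thr 59 27 (.thr 25 8 (.dbl 57 9 58))))) (.nv (.thr 40 43 (.thr 4 55 (.thr 8 24 (.dbl 0 12 20)))) (.nv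 (.thr 48 52 (.thr 26 11 (.thr 16 31 (.thr 32 0 (.dbl 37 15 47))))) .nd)))) (.rp 60 (.str 62 (.nv (.thr 4 55 (.thr 40 43 (.thr 8 24 (.thr 12 0 (.dbl 25 51 59))))) (.nv (.thr 26 11 (.thr 50 14 (.dbl 58 10 54))) .nd))) (.rp 59 (.thr 34 46 (.thr 26 11 (.thr 16 31 (.thr 50 14 (.thr 18 2 (.thr 17 19 (.thr 51 0 (.dbl 25 12 29)))))))) (.rp 43 (.thr 34 46 (.thr 26 11 (.thr 16 31 (.thr 50 14 (.thr 18 2 (.thr 17 19 (.thr 51 0 (.dbl 25 12 29)))))))) (.rp 40 (.thr 34 46 (.thr 26 11 (.thr 16 31 (.thr 50 14 (.thr 18 2 (.thr 17 19 (.thr 51 0 (.dbl 25 12 29)))))))) (.rp 25 (.thr 40 43 (.thr 4 55 (.thr 8 24 (.thr 0 12 (.thr 60 20 (.thr 48 52 (.thr 16 32 (.dbl 26 11 31)))))))) (.rp 8 (.thr 34 46 (.thr 26 11 (.thr 16 31 (.thr 50 14 (.thr 18 2 (.thr 17 19 (.thr 51 0 (.dbl 25 12 29)))))))) .nd))))))))))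 (.rp 34 (.thr 4 55 (.str 59 (.nv (.thr 8 25 (.thr 12 0 (.thr 40 43 (.thr 24 56 (.thr 44 35 (.dbl 36 32 48)))))) (.nv (.thr 25 8 (.thr 43 40 (.thr 11 27 (.thr 57 9 (.dbl 56 26 58))))) (.rp 62 (.str 60 (.nv (.thr 40 43 (.thr 20 0 (.thr 44 35 (.dbl 36 32 52)))) (.nv (.thr 25 8 (.thr 57 9 (.dbl 51 12 54))) (.rp 51 (.thr 8 25 (.thr 40 43 (.dbl 0 12 20))) .nd)))) (.rp 60 (.str 62 (.nv (.thr 25 8 (.thr 57 9 (.thr 56 58 (.thr 11 26 (.dbl 43 27 40))))) (.nv (.thr 8 25 (.thr 12 0 (.thr 40 43 (.thr 24 56 (.thr 44 35 (.dbl 36 32 48)))))) (.nv (.thr 25 8 (.thr 43 40 (.thr 11 27 (.thr 57 9 (.dbl 56 26 58))))) (.rp 56 (.thr 43 40 (.thr 27 11 (.thr 25 8 (.thr 24 26 (.thr 35 44 (.thr 39 47 (.dbl 51 12 15))))))) (.rp 43 (.thr 25 8 (.thr 57 9 (.thr 58 56 (.thr 50 54 (.dbl 26 10 14))))) (.rp 40 (.str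 54 (.nv (.thr 25 8 (.thr 58 50 (.dbl 57 9 56))) (.nv (.thr 50 58 (.thr 26 14 (.thr 11 56 (.thr 27 43 (.dbl 25 8 24))))) (.nv (.thr 58 50 (.thr 26 10 (.dbl 56 11 57))) (.rp 58 (.thr 25 8 (.thr 9 57 (.thr 12 51 (.thr 6 3 (.thr 5 7 (.thr 13 1 (.dbl 37 49 53))))))) (.rp 56 (.thr 58 50 (.thr 26 10 (.thr 25 8 (.thr 24 27 (.thr 12 51 (.thr 16 31 (.thr 20 28 (.dbl 36 48 52)))))))) (.rp 50 (.thr 25 8 (.thr 9 57 (.thr 12 51 (.thr 6 3 (.thr 5 7 (.thr 13 1 (.dbl 37 49 53))))))) (.rp 20 (.str 0 (.nv (.thr 58 50 (.thr 26 10 (.dbl 56 11 57))) (.nv (.dbl 8 12 25) .nd))) (.rp 0 (.str 20 (.nv (.thr 25 8 (.thr 50 58 (.thr 26 14 (.thr 16 31 (.dbl 24 27 28))))) (.nv (.thr 58 50 (.thr 26 10 (.dbl 56 11 57))) (.nv (.thr 25 8 (.thr 57 9 (.dbl 58 50 56))) (.rp 58 (.thr 36 52 (.thr 37 39 (.thr 25 8 (.thr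 9 57 (.thr 12 51 (.thr 17 29 (.thr 6 3 (.dbl 5 7 53)))))))) (.rp 56 (.thr 58 50 (.thr 26 10 (.thr 25 8 (.thr 24 27 (.dbl 16 28 31))))) (.rp 51 (.str 17 (.nv (.thr 58 50 (.thr 26 10 (.dbl 56 11 57))) (.nv (.dbl 25 8 29) .nd))) (.rp 50 (.thr 36 52 (.thr 37 39 (.thr 25 8 (.thr 9 57 (.thr 12 51 (.thr 17 29 (.thr 6 3 (.dbl 5 7 53)))))))) (.rp 17 (.str 51 (.nv (.thr 58 50 (.thr 26 10 (.dbl 56 11 57))) (.nv (.dbl 25 8 12) .nd))) .nd))))))))) .nd))))))))) (.rp 25 (.thr 43 40 (.thr 11 27 (.thr 26 56 (.thr 58 10 (.dbl 50 14 54))))) (.rp 8 (.str 47 (.nv (.thr 43 40 (.thr 39 35 (.dbl 37 32 36))) (.nv (.thr 44 35 (.thr 45 46 (.dbl 37 32 33))) (.nv (.thr 35 44 (.dbl 43 39 40)) (.rp 35 (.thr 43 40 (.thr 11 27 (.thr 37 32 (.thr 33 45 (.thr 5 53 (.thr 7 6 (.thr 15 3 (.dbl 26 48 56)))))))) .nd)))))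 .nd))))))))) (.rp 56 (.thr 43 40 (.thr 27 11 (.thr 25 8 (.thr 24 26 (.thr 35 44 (.thr 39 47 (.dbl 51 12 15))))))) (.rp 43 (.thr 25 8 (.thr 57 9 (.thr 56 58 (.thr 44 35 (.thr 12 51 (.thr 60 28 (.thr 48 52 (.thr 24 36 (.dbl 26 11 27))))))))) (.rp 40 (.thr 25 8 (.thr 9 57 (.thr 12 51 (.thr 6 3 (.thr 5 7 (.thr 13 1 (.dbl 37 49 53))))))) (.rp 25 (.thr 43 40 (.thr 11 27 (.thr 26 56 (.thr 10 58 (.thr 8 9 (.thr 16 31 (.thr 0 12 (.thr 48 32 (.dbl 15 5 37))))))))) (.rp 24 (.thr 43 40 (.thr 11 27 (.thr 56 26 (.thr 25 8 (.dbl 57 9 58))))) (.rp 8 (.thr 43 40 (.thr 11 27 (.thr 56 26 (.thr 57 58 (.thr 25 9 (.thr 35 44 (.thr 39 47 (.thr 36 37 (.thr 52 20 (.thr 51 12 (.dbl 60 48 54))))))))))) .nd)))))))))))) (.rp 32 (.thr 4 55 (.str 25 (.nv (.thr 9 57 (.thr 12 51 (.thr 59 8 (.thr 6 3 (.thr 5 7 (.thr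 13 1 (.dbl 37 49 53))))))) (.nv (.thr 59 8 (.thr 43 40 (.thr 11 27 (.thr 57 9 (.dbl 56 26 58))))) (.rp 62 (.str 60 (.nv (.thr 44 35 (.dbl 12 28 51)) (.nv (.thr 57 9 (.dbl 51 12 54)) (.rp 59 (.thr 51 12 (.dbl 57 9 54)) (.rp 51 (.thr 59 8 (.thr 57 9 (.thr 56 58 (.thr 43 40 (.dbl 11 26 27))))) (.rp 12 (.thr 57 9 (.thr 59 8 (.thr 56 58 (.thr 43 40 (.dbl 11 26 27))))) .nd)))))) (.rp 60 (.str 62 (.nv (.thr 8 59 (.thr 51 12 (.thr 40 43 (.thr 46 34 (.thr 14 30 (.thr 26 50 (.dbl 24 27 56))))))) (.nv (.thr 9 57 (.thr 46 34 (.thr 14 30 (.thr 26 50 (.thr 10 58 (.dbl 8 11 59)))))) (.nv (.thr 59 8 (.thr 43 40 (.thr 11 27 (.thr 57 9 (.dbl 56 26 58))))) (.rp 59 (.thr 51 12 (.thr 46 34 (.thr 14 30 (.thr 26 50 (.thr 31 16 (.thr 27 24 (.thr 19 23 (.dbl 35 3 44)))))))) (.rp 56 (.thr 29 17 (.thr 57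 9 (.thr 46 34 (.thr 14 30 (.thr 26 50 (.thr 58 10 (.thr 8 59 (.thr 51 12 (.thr 43 40 (.thr 31 16 (.thr 27 24 (.thr 19 23 (.dbl 35 3 44))))))))))))) (.rp 26 (.thr 17 29 (.thr 46 34 (.thr 59 8 (.thr 51 12 (.thr 43 40 (.thr 27 11 (.thr 39 15 (.dbl 35 44 47)))))))) (.rp 11 (.thr 29 17 (.thr 57 9 (.thr 46 34 (.thr 14 30 (.thr 26 50 (.thr 58 10 (.thr 8 59 (.thr 51 12 (.thr 43 40 (.thr 31 16 (.thr 27 24 (.thr 19 23 (.dbl 35 3 44))))))))))))) (.rp 8 (.thr 46 34 (.thr 14 30 (.thr 26 50 (.thr 51 12 (.thr 31 16 (.thr 27 24 (.thr 19 23 (.dbl 35 3 44)))))))) .nd))))))))) (.rp 59 (.thr 51 12 (.thr 57 9 (.thr 60 54 (.thr 40 43 (.thr 0 20 (.dbl 17 29 34)))))) (.rp 57 (.thr 59 8 (.thr 51 12 (.thr 43 40 (.thr 27 11 (.thr 39 15 (.dbl 35 44 47)))))) (.rp 43 (.thr 57 9 (.thr 59 8 (.thr 56 58 (.thr 12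 51 (.thr 44 35 (.thr 60 28 (.thr 48 52 (.thr 24 36 (.dbl 26 11 27))))))))) (.rp 11 (.thr 57 9 (.thr 51 12 (.thr 60 54 (.thr 40 43 (.thr 0 20 (.dbl 17 29 34)))))) (.rp 9 (.thr 29 17 (.thr 46 34 (.thr 8 59 (.thr 51 12 (.thr 40 43 (.thr 56 24 (.thr 35 44 (.thr 11 26 (.thr 3 19 (.thr 7 15 (.thr 5 6 (.thr 37 53 (.thr 33 45 (.thr 36 39 (.thr 52 20 (.dbl 48 18 60)))))))))))))))) (.rp 8 (.thr 57 9 (.thr 51 12 (.thr 60 54 (.thr 40 43 (.thr 0 20 (.dbl 17 29 34)))))) .nd)))))))))))) .nd))))))))))))))))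

theorem w493 : WinAt (6597071863808, 11529215046072664064) :=
  chF (K := []) kn c493 6597071863808 11529215046072664064 61
    [17293822569102704640] (by decide +kernel) (by decide +kernel)

/-- A certificate. -/
noncomputable def c494 : Ct := (.str 41 (.rp 62 (.thr 43 40 (.thr 61 1 (.str 53 (.nv (.thr 57 49 (.thr 25 9 (.thr 59 8 (.thr 11 27 (.dbl 56 26 58))))) (.nv (.thr 37 5 (.thr 47 32 (.thr 35 39 (.thr 44 38 (.dbl 45 33 46))))) (.nv (.thr 49 57 (.thr 37 5 (.thr 45 33 (.dbl 13 25 29)))) (.rp 33 (.thr 49 57 (.thr 37 5 (.thr 47 32 (.thr 35 39 (.thr 44 38 (.thr 45 46 (.dbl 13 25 29))))))) (.rp 13 (.thr 57 49 (.thr 5 37 (.thr 25 9 (.thr 59 8 (.thr 56 58 (.dbl 11 26 27)))))) (.rp 9 (.thr 49 57 (.thr 37 5 (.thr 13 25 (.dbl 45 29 33)))) (.rp 5 (.thr 57 49 (.thr 25 9 (.str 13 (.nv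 (.thr 59 8 (.thr 11 27 (.dbl 56 26 58))) (.nv (.dbl 29 17 45) (.rp 33 (.thr 17 29 (.thr 59 8 (.thr 11 27 (.dbl 56 26 58)))) (.rp 17 (.str 33 (.nv (.thr 59 8 (.thr 11 27 (.dbl 56 26 58))) (.nv (.dbl 45 29 37) .nd))) .nd))))))) .nd)))))))))) (.rp 61 .ext (.rp 60 (.thr 61 1 (.str 57 (.nv (.thr 25 9 (.thr 43 40 (.thr 59 8 (.thr 11 27 (.dbl 56 26 58))))) (.nv (.thr 49 53 (.thr 25 9 (.thr 29 17 (.dbl 13 37 45)))) (.rp 58 (.thr 25 9 (.thr 29 17 (.thr 13 45 (.dbl 49 37 53)))) (.rp 25 (.thr 53 49 (.thr 37 5 (.thr 33 45 (.thr 32 47 (.thr 40 43 (.thr 44 36 (.dbl 35 34 38))))))) (.rp 13 (.thr 53 49 (.thr 25 9 (.thr 5 37 (.thr 59 8 (.thr 56 58 (.thr 43 40 (.dbl 11 26 27))))))) (.rp 9 (.str 37 (.nv (.dbl 53 5 49) (.rp 53 (.thr 33 45 (.thr 40 43 (.thr 32 47 (.thr 44 36 (.dbl 35 34 38))))) (.rp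 49 (.thr 33 45 (.thr 40 43 (.thr 32 47 (.thr 44 36 (.dbl 35 34 38))))) (.rp 13 (.thr 5 53 (.thr 33 45 (.thr 40 43 (.thr 32 47 (.thr 44 36 (.dbl 35 34 38)))))) (.rp 5 (.str 13 (.nv (.dbl 49 25 53) (.nv (.dbl 45 29 33) .nd))) .nd)))))) (.rp 5 (.thr 49 53 (.thr 25 9 (.thr 13 37 (.dbl 29 17 45)))) .nd))))))))) (.rp 59 (.str 37 (.nv (.thr 53 5 (.thr 61 1 (.thr 49 57 (.thr 45 33 (.dbl 13 25 29))))) (.nv (.thr 43 40 (.thr 45 33 (.thr 47 32 (.thr 35 39 (.dbl 44 38 46))))) (.rp 55 (.str 51 (.nv (.thr 40 43 (.thr 33 45 (.thr 32 47 (.thr 35 34 (.dbl 44 36 38))))) (.nv (.thr 53 5 (.thr 61 1 (.thr 49 57 (.thr 45 33 (.dbl 13 25 29))))) (.rp 45 (.thr 43 40 (.thr 47 32 (.thr 39 35 (.thr 5 53 (.thr 15 27 (.thr 10 0 (.dbl 26 48 58))))))) (.rp 33 (.thr 32 47 (.thr 61 1 (.thr 53 5 (.thr 49 57 (.thr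 48 50 (.thr 16 0 (.dbl 26 15 31))))))) .nd))))) (.rp 51 (.str 55 (.nv (.thr 32 47 (.thr 38 4 (.thr 36 39 (.dbl 40 43 44)))) (.nv (.thr 1 61 (.thr 5 53 (.thr 13 9 (.thr 33 45 (.dbl 49 17 25))))) (.nv (.thr 33 45 (.thr 38 4 (.thr 35 44 (.dbl 32 34 47)))) .nd)))) (.rp 45 (.thr 40 43 (.thr 32 47 (.thr 44 36 (.thr 35 38 (.thr 33 34 (.thr 1 61 (.thr 49 17 (.thr 5 53 (.dbl 13 9 25))))))))) (.rp 33 (.thr 43 40 (.thr 47 32 (.thr 35 39 (.thr 44 38 (.thr 45 46 (.thr 61 1 (.thr 53 5 (.thr 49 57 (.dbl 13 25 29))))))))) .nd))))))) (.rp 58 (.str 25 (.nv (.thr 8 59 (.thr 40 43 (.thr 9 57 (.thr 56 24 (.dbl 11 10 26))))) (.nv (.thr 29 17 (.thr 61 1 (.thr 13 45 (.thr 57 9 (.dbl 49 37 53))))) (.rp 57 (.thr 40 43 (.thr 8 59 (.thr 56 24 (.thr 11 26 (.thr 9 10 (.thr 1 61 (.thr 13 5 (.thr 17 29 (.dbl 49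 33 37))))))))) (.rp 53 (.str 48 (.nv (.thr 8 59 (.thr 40 43 (.thr 56 24 (.thr 11 26 (.dbl 9 10 57))))) (.nv (.thr 17 29 (.thr 1 61 (.thr 49 33 (.thr 51 50 (.thr 34 0 (.dbl 38 12 46)))))) (.nv (.thr 9 57 (.thr 40 43 (.thr 8 59 (.thr 56 24 (.dbl 11 10 26))))) (.rp 51 (.thr 9 57 (.thr 17 29 (.thr 1 61 (.thr 49 33 (.dbl 13 5 37))))) .nd))))) (.rp 48 (.str 53 (.nv (.thr 1 61 (.thr 17 29 (.thr 33 49 (.dbl 37 5 45)))) (.nv (.thr 57 9 (.dbl 61 1 49)) (.rp 61 (.thr 9 57 (.thr 40 43 (.thr 8 59 (.thr 56 24 (.dbl 11 10 26))))) (.rp 49 (.thr 9 57 (.thr 5 37 (.dbl 1 13 61))) (.rp 1 (.thr 57 9 (.thr 49 61 (.dbl 37 5 13))) .nd)))))) (.rp 9 (.thr 29 17 (.str 53 (.nv (.thr 61 1 (.thr 49 57 (.dbl 37 5 13))) (.nv (.thr 37 5 (.thr 13 49 (.dbl 61 1 45))) (.rp 61 (.thr 37 5 (.thr 45 33 (.thr 47 32 (.thr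 44 46 (.thr 43 40 (.dbl 35 38 39)))))) (.rp 49 (.thr 37 5 (.thr 33 45 (.thr 32 47 (.thr 40 43 (.thr 44 36 (.dbl 35 34 38)))))) (.rp 37 (.str 52 (.nv (.thr 8 59 (.thr 40 43 (.thr 56 24 (.thr 60 48 (.thr 0 20 (.thr 12 4 (.thr 51 38 (.dbl 54 55 57)))))))) (.nv (.thr 61 1 (.thr 55 54 (.thr 38 4 (.thr 46 34 (.thr 44 35 (.dbl 45 13 47)))))) (.rp 55 (.thr 61 1 (.thr 49 57 (.thr 59 8 (.thr 43 40 (.thr 11 27 (.thr 56 26 (.thr 48 60 (.thr 51 50 (.thr 38 12 (.thr 46 34 (.thr 44 35 (.dbl 45 13 47)))))))))))) (.rp 54 (.thr 8 59 (.thr 40 43 (.thr 56 24 (.thr 60 48 (.thr 0 20 (.thr 12 4 (.thr 28 44 (.thr 31 30 (.dbl 26 11 16))))))))) (.rp 51 (.thr 8 59 (.thr 55 54 (.thr 40 43 (.thr 56 24 (.thr 60 48 (.thr 0 20 (.dbl 4 12 38))))))) (.rp 38 (.thr 8 59 (.thr 40 43 (.thr 56 24 (.thr 60 48 (.thr 0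 20 (.thr 12 4 (.thr 28 44 (.thr 31 30 (.dbl 26 11 16))))))))) (.rp 4 (.thr 8 59 (.thr 40 43 (.thr 56 24 (.thr 60 48 (.thr 54 55 (.thr 51 57 (.thr 12 38 (.thr 28 44 (.thr 31 30 (.dbl 26 11 16)))))))))) (.rp 0 (.thr 61 1 (.thr 8 59 (.thr 55 54 (.thr 38 4 (.thr 46 34 (.thr 51 12 (.thr 44 35 (.dbl 45 13 47)))))))) .nd))))))))) (.rp 13 (.thr 37 5 (.thr 1 61 (.thr 45 33 (.thr 47 32 (.thr 44 46 (.thr 43 40 (.dbl 35 38 39))))))) (.rp 5 (.thr 61 1 (.thr 13 45 (.dbl 49 37 57))) (.rp 1 (.thr 37 5 (.thr 13 49 (.thr 33 45 (.thr 32 47 (.thr 40 43 (.thr 44 36 (.dbl 35 34 38))))))) .nd)))))))))) .nd))))))) (.rp 57 (.str 37 (.nv (.thr 1 61 (.thr 33 45 (.thr 5 53 (.thr 49 17 (.dbl 13 9 25))))) (.nv (.thr 43 40 (.thr 45 33 (.thr 47 32 (.thr 35 39 (.dbl 44 38 46))))) (.rp 45 (.thr 40 43 (.thr 32 47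 (.thr 44 36 (.thr 35 38 (.thr 33 34 (.thr 1 61 (.thr 49 17 (.thr 5 53 (.dbl 13 9 25))))))))) (.rp 33 (.str 29 (.nv (.thr 61 1 (.thr 13 45 (.dbl 25 17 49))) (.rp 61 (.thr 25 17 (.thr 49 13 (.thr 5 53 (.thr 8 59 (.thr 40 43 (.thr 56 24 (.thr 11 26 (.thr 10 9 (.thr 0 15 (.thr 60 20 (.thr 48 52 (.dbl 32 16 47)))))))))))) (.rp 49 (.thr 47 32 (.thr 43 40 (.thr 35 39 (.thr 44 38 (.thr 45 46 (.dbl 61 1 13)))))) (.rp 45 (.thr 25 17 (.thr 5 53 (.thr 8 59 (.thr 40 43 (.thr 56 24 (.thr 11 26 (.thr 9 10 (.dbl 13 1 49)))))))) (.rp 25 (.thr 61 1 (.thr 45 13 (.thr 47 32 (.thr 44 46 (.thr 43 40 (.dbl 35 38 39)))))) (.rp 17 (.thr 47 32 (.thr 43 40 (.thr 35 39 (.thr 44 38 (.thr 45 46 (.dbl 61 1 13)))))) (.rp 13 (.thr 25 17 (.thr 5 53 (.thr 8 59 (.thr 40 43 (.thr 56 24 (.thr 11 26 (.thr 10 9 (.thr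 0 15 (.thr 60 20 (.thr 48 52 (.dbl 32 16 47))))))))))) (.rp 1 (.thr 47 32 (.thr 43 40 (.thr 35 39 (.thr 44 38 (.thr 45 46 (.thr 13 61 (.dbl 25 17 49))))))) .nd))))))))) .nd))))) (.rp 56 (.str 37 (.nv (.thr 40 43 (.thr 33 45 (.thr 32 47 (.thr 35 34 (.dbl 44 36 38))))) (.nv (.thr 53 5 (.thr 61 1 (.thr 49 57 (.thr 45 33 (.dbl 13 25 29))))) (.rp 45 (.thr 40 43 (.thr 32 47 (.thr 44 36 (.thr 35 38 (.thr 33 34 (.thr 1 61 (.thr 49 17 (.thr 5 53 (.dbl 13 9 25))))))))) (.rp 33 (.thr 43 40 (.thr 47 32 (.thr 35 39 (.thr 44 38 (.thr 45 46 (.thr 61 1 (.thr 53 5 (.thr 49 57 (.dbl 13 25 29))))))))) .nd))))) (.rp 55 (.str 37 (.nv (.thr 40 43 (.thr 33 45 (.thr 32 47 (.thr 35 34 (.dbl 44 36 38))))) (.nv (.thr 53 5 (.thr 61 1 (.thr 49 57 (.thr 45 33 (.dbl 13 25 29))))) (.rp 59 (.str 51 (.nv (.thr 40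 43 (.thr 33 45 (.thr 32 47 (.thr 35 34 (.dbl 44 36 38))))) (.nv (.thr 53 5 (.thr 61 1 (.thr 49 57 (.thr 45 33 (.dbl 13 25 29))))) (.rp 45 (.thr 43 40 (.thr 47 32 (.thr 39 35 (.thr 5 53 (.thr 15 27 (.thr 10 0 (.dbl 26 48 58))))))) (.rp 33 (.thr 32 47 (.thr 61 1 (.thr 53 5 (.thr 49 57 (.thr 48 50 (.thr 16 0 (.dbl 26 15 31))))))) .nd))))) (.rp 51 (.str 59 (.nv (.thr 43 40 (.thr 11 27 (.thr 25 8 (.thr 57 9 (.dbl 56 26 58))))) (.nv (.thr 25 8 (.thr 33 45 (.thr 49 13 (.dbl 1 17 61)))) (.rp 25 (.thr 33 45 (.thr 32 47 (.thr 35 34 (.thr 40 43 (.dbl 44 36 38))))) (.rp 8 (.thr 33 45 (.thr 5 53 (.thr 1 61 (.thr 13 9 (.dbl 49 17 25))))) .nd))))) (.rp 45 (.thr 40 43 (.thr 32 47 (.thr 44 36 (.thr 35 38 (.thr 33 34 (.thr 1 61 (.thr 49 17 (.thr 5 53 (.dbl 13 9 25))))))))) (.rp 33 (.thr 43 40 (.thr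 47 32 (.thr 35 39 (.thr 44 38 (.thr 45 46 (.thr 61 1 (.thr 53 5 (.thr 49 57 (.dbl 13 25 29))))))))) .nd))))))) (.rp 54 (.str 25 (.nv (.thr 8 59 (.thr 9 57 (.thr 11 10 (.thr 40 43 (.dbl 56 24 26))))) (.nv (.thr 29 17 (.thr 61 1 (.thr 13 45 (.thr 57 9 (.dbl 49 37 53))))) (.rp 57 (.thr 40 43 (.thr 8 59 (.thr 56 24 (.thr 11 26 (.thr 9 10 (.thr 1 61 (.thr 13 5 (.thr 17 29 (.dbl 49 33 37))))))))) (.rp 38 (.str 6 (.nv (.thr 8 59 (.thr 9 57 (.thr 11 10 (.thr 40 43 (.dbl 56 24 26))))) (.nv (.thr 29 17 (.thr 61 1 (.thr 13 45 (.thr 57 9 (.dbl 49 37 53))))) (.rp 57 (.thr 40 43 (.thr 8 59 (.thr 56 24 (.thr 11 26 (.thr 9 10 (.thr 1 61 (.thr 13 5 (.thr 17 29 (.dbl 49 33 37))))))))) (.rp 9 (.thr 43 40 (.thr 59 8 (.thr 11 27 (.thr 56 26 (.thr 57 58 (.thr 61 1 (.thr 29 17 (.thr 13 45 (.dbl 49 37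 53))))))))) .nd))))) (.rp 9 (.thr 43 40 (.thr 59 8 (.thr 11 27 (.thr 56 26 (.thr 57 58 (.thr 61 1 (.thr 29 17 (.thr 13 45 (.dbl 49 37 53))))))))) (.rp 6 (.str 38 (.nv (.thr 17 29 (.thr 35 44 (.thr 1 61 (.thr 33 49 (.dbl 34 32 46))))) (.nv (.thr 8 59 (.thr 9 57 (.thr 11 10 (.thr 40 43 (.dbl 56 24 26))))) (.nv (.thr 35 44 (.thr 43 40 (.thr 47 39 (.thr 34 46 (.dbl 32 33 37))))) .nd)))) .nd))))))) (.rp 53 (.str 25 (.nv (.thr 17 29 (.thr 9 57 (.thr 1 61 (.thr 49 33 (.dbl 13 5 37))))) (.nv (.thr 43 40 (.thr 57 9 (.thr 59 8 (.thr 11 27 (.dbl 56 26 58))))) (.rp 58 (.str 48 (.nv (.thr 8 59 (.thr 40 43 (.thr 56 24 (.thr 11 26 (.dbl 9 10 57))))) (.nv (.thr 17 29 (.thr 1 61 (.thr 49 33 (.thr 51 50 (.thr 34 0 (.dbl 38 12 46)))))) (.nv (.thr 9 57 (.thr 40 43 (.thr 8 59 (.thr 56 24 (.dbl 11 10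 26))))) (.rp 51 (.thr 9 57 (.thr 17 29 (.thr 1 61 (.thr 49 33 (.dbl 13 5 37))))) .nd))))) (.rp 57 (.thr 40 43 (.thr 8 59 (.thr 56 24 (.thr 11 26 (.thr 9 10 (.thr 17 29 (.thr 1 61 (.thr 49 33 (.dbl 13 5 37))))))))) (.rp 48 (.str 58 (.nv (.thr 8 59 (.thr 26 10 (.thr 24 27 (.dbl 40 43 56)))) (.nv (.thr 57 9 (.dbl 59 8 56)) (.rp 59 (.thr 9 57 (.thr 17 29 (.thr 1 61 (.thr 49 33 (.dbl 13 5 37))))) (.rp 56 (.thr 9 57 (.thr 10 26 (.dbl 8 11 59))) (.rp 8 (.thr 57 9 (.thr 56 59 (.dbl 26 10 11))) .nd)))))) (.rp 9 (.str 44 (.nv (.thr 29 17 (.thr 35 38 (.thr 43 40 (.thr 47 39 (.thr 45 46 (.dbl 61 1 13)))))) (.nv (.thr 1 61 (.thr 35 38 (.thr 40 43 (.thr 32 36 (.thr 33 34 (.dbl 17 29 49)))))) (.nv (.thr 29 17 (.thr 38 35 (.thr 46 34 (.thr 61 1 (.dbl 45 13 47))))) (.nv (.thr 40 43 (.thr 32 36 (.thr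 29 17 (.thr 61 1 (.thr 13 45 (.dbl 37 47 49)))))) (.nv (.thr 35 38 (.thr 43 40 (.thr 47 39 (.thr 37 32 (.dbl 45 33 46))))) (.rp 58 (.str 48 (.nv (.thr 40 43 (.thr 32 36 (.thr 16 0 (.thr 26 31 (.dbl 37 15 47))))) (.nv (.thr 1 61 (.thr 17 29 (.thr 49 33 (.thr 51 50 (.dbl 38 12 35))))) (.nv (.thr 40 43 (.thr 36 32 (.thr 12 24 (.dbl 38 35 51)))) .nd)))) (.rp 48 (.str 58 (.nv (.thr 8 59 (.thr 26 10 (.thr 24 27 (.dbl 40 43 56)))) (.nv (.thr 59 8 (.thr 56 57 (.dbl 26 10 11))) (.rp 59 (.thr 40 43 (.thr 32 36 (.thr 47 37 (.thr 46 45 (.dbl 38 34 35))))) (.rp 56 (.thr 40 43 (.thr 32 36 (.thr 47 37 (.thr 46 45 (.dbl 38 34 35))))) (.rp 26 (.thr 40 43 (.thr 32 36 (.thr 37 47 (.thr 33 45 (.dbl 35 34 38))))) (.rp 11 (.thr 40 43 (.thr 32 36 (.thr 47 37 (.thr 46 45 (.dbl 38 34 35))))) (.rp 10 (.thr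 43 40 (.thr 59 8 (.thr 11 27 (.dbl 56 26 57)))) (.rp 8 (.thr 40 43 (.thr 32 36 (.thr 47 37 (.thr 46 45 (.dbl 38 34 35))))) .nd))))))))) .nd)))))))) .nd))))))) (.rp 52 (.str 37 (.nv (.thr 40 43 (.thr 33 45 (.thr 32 47 (.thr 35 34 (.dbl 44 36 38))))) (.nv (.thr 53 5 (.thr 61 1 (.thr 49 57 (.thr 45 33 (.dbl 13 25 29))))) (.rp 45 (.thr 40 43 (.thr 32 47 (.thr 44 36 (.thr 35 38 (.thr 33 34 (.thr 1 61 (.thr 49 17 (.thr 5 53 (.dbl 13 9 25))))))))) (.rp 33 (.thr 43 40 (.thr 47 32 (.thr 35 39 (.thr 44 38 (.thr 45 46 (.thr 61 1 (.thr 53 5 (.thr 49 57 (.dbl 13 25 29))))))))) .nd))))) (.rp 51 (.str 37 (.nv (.thr 40 43 (.thr 33 45 (.thr 32 47 (.thr 35 34 (.dbl 44 36 38))))) (.nv (.thr 53 5 (.thr 61 1 (.thr 49 57 (.thr 45 33 (.dbl 13 25 29))))) (.rp 59 (.str 55 (.nv (.thr 32 47 (.thr 38 4 (.thr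 36 39 (.dbl 40 43 44)))) (.nv (.thr 1 61 (.thr 5 53 (.thr 13 9 (.thr 33 45 (.dbl 49 17 25))))) (.nv (.thr 33 45 (.thr 38 4 (.thr 35 44 (.dbl 32 34 47)))) .nd)))) (.rp 55 (.str 59 (.nv (.thr 43 40 (.thr 11 27 (.thr 25 8 (.thr 57 9 (.dbl 56 26 58))))) (.nv (.thr 25 8 (.thr 33 45 (.thr 49 13 (.dbl 1 17 61)))) (.rp 25 (.thr 33 45 (.thr 32 47 (.thr 35 34 (.thr 40 43 (.dbl 44 36 38))))) (.rp 8 (.thr 33 45 (.thr 5 53 (.thr 1 61 (.thr 13 9 (.dbl 49 17 25))))) .nd))))) (.rp 45 (.thr 40 43 (.thr 32 47 (.thr 44 36 (.thr 35 38 (.thr 33 34 (.thr 1 61 (.thr 5 53 (.thr 13 9 (.dbl 49 17 25))))))))) (.rp 33 (.thr 43 40 (.thr 47 32 (.thr 35 39 (.thr 44 38 (.thr 45 46 (.thr 61 1 (.thr 53 5 (.thr 49 57 (.dbl 13 25 29))))))))) .nd))))))) (.rp 50 (.str 25 (.nv (.thr 17 29 (.thr 9 57 (.thr 1 61 (.thr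 13 5 (.dbl 49 33 37))))) (.nv (.thr 43 40 (.thr 59 8 (.thr 11 27 (.thr 57 9 (.dbl 56 26 58))))) (.rp 57 (.thr 17 29 (.thr 1 61 (.thr 49 33 (.thr 13 37 (.thr 9 5 (.thr 8 59 (.thr 11 10 (.thr 40 43 (.dbl 56 24 26))))))))) (.rp 9 (.thr 29 17 (.thr 61 1 (.thr 13 45 (.thr 49 37 (.thr 57 53 (.thr 59 8 (.thr 43 40 (.thr 11 27 (.dbl 56 26 58))))))))) .nd))))) (.rp 49 (.str 9 (.nv (.thr 25 57 (.thr 61 1 (.thr 8 59 (.thr 11 10 (.thr 56 26 (.dbl 40 24 43)))))) (.nv (.thr 25 57 (.thr 8 59 (.thr 11 10 (.thr 40 43 (.dbl 56 24 26))))) (.rp 61 (.str 53 (.nv (.thr 37 5 (.thr 32 47 (.thr 33 45 (.thr 35 34 (.thr 44 38 (.dbl 40 36 43)))))) (.nv (.thr 40 43 (.thr 25 57 (.thr 8 59 (.thr 56 24 (.dbl 11 10 26))))) (.rp 62 (.str 60 (.nv (.thr 37 5 (.thr 45 33 (.thr 15 30 (.thr 26 48 (.thr 10 58 (.dbl 11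 8 56)))))) (.nv (.thr 37 5 (.thr 32 47 (.thr 33 45 (.thr 35 34 (.thr 44 38 (.dbl 40 36 43)))))) (.nv (.thr 40 43 (.thr 25 57 (.thr 8 59 (.thr 56 24 (.dbl 11 10 26))))) .nd)))) (.rp 60 (.str 62 (.nv (.thr 37 5 (.thr 43 40 (.thr 45 33 (.thr 47 32 (.thr 35 39 (.dbl 44 38 46)))))) (.nv (.thr 40 43 (.thr 25 57 (.thr 8 59 (.thr 56 24 (.dbl 11 10 26))))) (.rp 43 (.thr 25 57 (.thr 37 5 (.thr 33 45 (.thr 32 47 (.thr 8 59 (.thr 11 10 (.thr 56 26 (.thr 40 24 (.thr 44 36 (.dbl 35 34 38)))))))))) (.rp 40 (.thr 25 57 (.thr 5 37 (.thr 17 29 (.thr 8 59 (.thr 10 11 (.thr 0 15 (.thr 12 4 (.dbl 51 34 38)))))))) .nd))))) (.rp 43 (.thr 25 57 (.thr 37 5 (.thr 33 45 (.thr 32 47 (.thr 8 59 (.thr 11 10 (.thr 56 26 (.thr 40 24 (.thr 44 36 (.dbl 35 34 38)))))))))) (.rp 40 (.thr 25 57 (.thr 5 37 (.thr 17 29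 (.thr 8 59 (.thr 10 11 (.thr 0 15 (.thr 12 4 (.dbl 51 34 38)))))))) .nd))))))) (.rp 59 (.thr 57 25 (.thr 1 61 (.thr 5 13 (.thr 37 53 (.thr 45 33 (.thr 47 32 (.thr 43 40 (.thr 35 39 (.dbl 44 38 46))))))))) (.rp 58 (.thr 25 57 (.thr 40 43 (.thr 8 59 (.thr 56 24 (.dbl 11 10 26))))) (.rp 57 (.thr 61 1 (.str 11 (.nv (.thr 8 10 (.thr 43 40 (.dbl 59 25 27))) (.nv (.thr 10 8 (.dbl 26 56 58)) (.rp 33 (.str 17 (.nv (.thr 25 29 (.thr 43 40 (.dbl 59 8 27))) (.nv (.thr 10 8 (.dbl 26 56 58)) (.rp 8 (.thr 25 29 (.thr 43 40 (.thr 27 59 (.dbl 26 24 56)))) .nd)))) (.rp 17 (.str 33 (.nv (.thr 8 10 (.thr 43 40 (.dbl 59 25 27))) (.nv (.thr 10 8 (.dbl 26 56 58)) (.rp 10 (.thr 37 45 (.thr 32 47 (.thr 35 34 (.thr 40 43 (.dbl 44 36 38))))) (.rp 8 (.thr 37 45 (.thr 32 47 (.thr 35 34 (.thr 40 43 (.dbl 44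 36 38))))) .nd))))) (.rp 10 (.thr 43 40 (.str 37 (.nv (.thr 26 56 (.thr 15 48 (.thr 47 32 (.thr 39 35 (.dbl 27 51 59))))) (.nv (.thr 47 32 (.thr 35 39 (.thr 44 38 (.dbl 45 33 46)))) (.rp 47 (.thr 33 45 (.thr 26 56 (.thr 31 16 (.thr 48 15 (.thr 3 18 (.thr 12 6 (.thr 24 36 (.dbl 27 25 59)))))))) (.rp 44 (.thr 26 56 (.thr 15 48 (.thr 3 7 (.thr 12 6 (.thr 14 13 (.thr 38 50 (.thr 51 25 (.dbl 39 27 36)))))))) (.rp 39 (.thr 33 45 (.thr 26 56 (.thr 48 15 (.thr 3 18 (.thr 12 6 (.thr 24 36 (.dbl 27 25 59))))))) (.rp 36 (.thr 59 27 (.thr 33 45 (.thr 25 8 (.thr 17 29 (.thr 32 47 (.thr 34 35 (.thr 51 0 (.dbl 38 12 46)))))))) (.rp 35 (.thr 33 45 (.thr 26 56 (.thr 48 15 (.thr 3 18 (.thr 12 6 (.thr 24 36 (.dbl 27 25 59))))))) (.rp 33 (.str 17 (.nv (.thr 59 27 (.dbl 25 8 29)) (.rp 59 (.thr 29 25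 (.thr 45 13 (.thr 47 32 (.thr 35 39 (.dbl 44 38 46))))) (.rp 29 (.thr 47 32 (.thr 35 39 (.thr 26 56 (.thr 16 31 (.thr 19 18 (.thr 3 51 (.dbl 15 7 48))))))) (.rp 27 (.thr 29 25 (.thr 45 13 (.thr 47 32 (.thr 35 39 (.dbl 44 38 46))))) (.rp 25 (.thr 47 32 (.thr 35 39 (.thr 26 56 (.thr 16 31 (.thr 19 18 (.thr 3 51 (.dbl 15 7 48))))))) (.rp 8 (.thr 27 59 (.thr 25 29 (.dbl 26 24 56))) .nd))))))) (.rp 32 (.thr 26 56 (.thr 15 48 (.thr 3 7 (.thr 12 6 (.thr 14 13 (.thr 38 50 (.thr 51 25 (.dbl 35 19 44)))))))) (.rp 17 (.thr 33 45 (.thr 47 32 (.thr 39 35 (.thr 26 56 (.thr 15 48 (.dbl 27 51 59)))))) .nd)))))))))))) (.rp 8 (.thr 26 56 (.thr 31 16 (.thr 58 10 (.str 37 (.nv (.thr 33 45 (.thr 32 47 (.thr 35 34 (.thr 44 38 (.dbl 40 36 43))))) (.nv (.thr 15 48 (.thr 3 7 (.thr 12 6 (.thr 14 13 (.thr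 38 50 (.thr 51 25 (.dbl 39 27 36))))))) (.nv (.thr 40 43 (.thr 32 47 (.thr 44 36 (.thr 33 45 (.dbl 35 34 38))))) (.rp 40 (.str 24 (.nv (.thr 33 45 (.thr 5 53 (.thr 48 15 (.thr 12 36 (.dbl 3 6 18))))) (.nv (.thr 27 25 (.thr 43 59 (.thr 47 32 (.thr 39 35 (.dbl 15 48 51))))) (.nv (.thr 33 45 (.thr 48 15 (.thr 3 18 (.dbl 12 6 36)))) (.rp 48 (.thr 25 27 (.thr 32 47 (.thr 17 29 (.thr 33 45 (.thr 34 35 (.thr 51 0 (.dbl 38 12 46))))))) (.rp 36 (.thr 27 25 (.thr 15 48 (.thr 3 7 (.thr 19 23 (.dbl 51 35 39))))) (.rp 33 (.str 17 (.nv (.dbl 25 27 29) (.rp 29 (.thr 27 25 (.thr 15 48 (.thr 19 23 (.thr 3 7 (.dbl 51 35 39))))) (.rp 27 (.thr 29 25 (.thr 45 13 (.thr 15 48 (.dbl 30 28 60)))) (.rp 25 (.thr 48 15 (.thr 5 53 (.thr 12 36 (.thr 6 3 (.thr 4 7 (.thr 38 55 (.thr 44 35 (.thr 28 60 (.thr 29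 30 (.thr 45 13 (.dbl 47 32 46))))))))))) .nd))))) (.rp 15 (.thr 27 25 (.thr 43 59 (.thr 47 32 (.thr 35 39 (.thr 44 38 (.dbl 45 33 46)))))) .nd)))))))) (.rp 38 (.thr 32 47 (.thr 15 48 (.thr 33 45 (.thr 3 7 (.thr 35 34 (.thr 51 19 (.thr 27 39 (.dbl 43 40 59)))))))) (.rp 36 (.thr 15 48 (.thr 3 7 (.thr 12 6 (.thr 14 13 (.thr 38 50 (.thr 51 25 (.dbl 35 19 44))))))) (.rp 33 (.str 17 (.nv (.thr 25 29 (.thr 24 27 (.thr 32 47 (.thr 40 43 (.thr 36 44 (.dbl 48 12 15)))))) (.nv (.thr 29 25 (.thr 45 13 (.thr 15 48 (.dbl 30 28 60)))) (.rp 48 (.thr 25 29 (.thr 32 47 (.thr 27 24 (.thr 40 43 (.thr 23 19 (.thr 36 44 (.thr 39 38 (.thr 7 55 (.dbl 15 3 51))))))))) (.rp 45 (.thr 25 29 (.thr 15 48 (.thr 3 7 (.thr 12 6 (.thr 14 13 (.dbl 38 50 51)))))) (.rp 40 (.str 24 (.nv (.dbl 25 27 29) (.rp 29 (.thr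 27 25 (.thr 15 48 (.thr 19 23 (.thr 3 7 (.dbl 51 35 39))))) (.rp 27 (.thr 29 25 (.thr 45 13 (.thr 15 48 (.dbl 30 28 60)))) (.rp 25 (.thr 48 15 (.thr 5 53 (.thr 12 36 (.thr 6 3 (.thr 4 7 (.thr 38 55 (.thr 44 35 (.thr 28 60 (.thr 29 30 (.thr 45 13 (.dbl 47 32 46))))))))))) .nd))))) (.rp 32 (.thr 5 53 (.thr 25 29 (.thr 48 15 (.thr 24 27 (.thr 12 36 (.thr 6 3 (.thr 4 7 (.dbl 38 51 55)))))))) (.rp 29 (.thr 15 48 (.thr 3 7 (.thr 12 6 (.thr 14 13 (.thr 38 50 (.thr 51 25 (.dbl 35 19 44))))))) (.rp 25 (.thr 15 48 (.thr 3 7 (.thr 32 47 (.thr 40 43 (.thr 36 44 (.thr 12 6 (.thr 14 13 (.dbl 38 39 50)))))))) (.rp 24 (.thr 40 43 (.thr 29 25 (.thr 45 13 (.thr 15 48 (.dbl 30 28 60))))) (.rp 15 (.thr 29 25 (.thr 45 13 (.thr 47 32 (.thr 44 46 (.thr 35 38 (.dbl 43 39 40)))))) (.rp 3 (.thr 29 25 (.thr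 45 13 (.thr 47 32 (.thr 44 46 (.thr 35 38 (.dbl 43 39 40)))))) .nd)))))))))))) (.rp 32 (.thr 48 15 (.thr 33 45 (.thr 3 18 (.thr 12 6 (.thr 24 36 (.thr 27 25 (.dbl 43 40 59))))))) .nd)))))))))))) .nd)))))))) (.rp 56 (.thr 57 25 (.thr 1 61 (.thr 5 13 (.thr 37 53 (.thr 45 33 (.thr 47 32 (.thr 43 40 (.thr 35 39 (.dbl 44 38 46))))))))) (.rp 55 (.thr 57 25 (.thr 1 61 (.thr 5 13 (.thr 37 53 (.thr 45 33 (.thr 47 32 (.thr 43 40 (.thr 35 39 (.dbl 44 38 46))))))))) (.rp 51 (.thr 57 25 (.thr 1 61 (.thr 5 13 (.thr 37 53 (.thr 45 33 (.thr 47 32 (.thr 43 40 (.thr 35 39 (.dbl 44 38 46))))))))) (.rp 43 (.str 3 (.nv (.thr 1 61 (.thr 0 2 (.thr 12 6 (.thr 8 4 (.dbl 25 57 59))))) (.nv (.thr 1 61 (.thr 0 2 (.thr 5 13 (.thr 15 10 (.thr 11 7 (.thr 26 56 (.dbl 37 48 53))))))) (.nv (.thr 12 6 (.thr 25 57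 (.thr 8 59 (.thr 4 0 (.dbl 38 51 55))))) (.rp 61 (.str 5 (.nv (.thr 6 12 (.thr 25 57 (.thr 53 37 (.thr 7 4 (.thr 8 59 (.dbl 11 10 15)))))) (.nv (.thr 1 13 (.thr 0 2 (.thr 37 53 (.thr 57 25 (.thr 32 47 (.thr 48 16 (.dbl 33 18 45))))))) (.nv (.thr 12 6 (.thr 13 1 (.thr 15 14 (.thr 10 0 (.dbl 11 7 8))))) (.rp 62 (.str 60 (.nv (.thr 1 13 (.thr 0 2 (.thr 15 10 (.thr 45 30 (.dbl 37 33 53))))) (.nv (.thr 12 6 (.thr 44 28 (.thr 38 35 (.dbl 25 51 57)))) (.rp 57 (.thr 53 37 (.thr 13 1 (.thr 12 6 (.thr 15 14 (.thr 10 0 (.dbl 11 7 8)))))) (.rp 53 (.thr 57 25 (.thr 13 1 (.thr 12 6 (.thr 15 14 (.thr 10 0 (.dbl 11 7 8)))))) (.rp 25 (.thr 13 1 (.thr 12 6 (.thr 15 14 (.thr 10 0 (.dbl 11 7 8))))) (.rp 6 (.thr 1 13 (.thr 0 2 (.thr 10 15 (.thr 8 11 (.dbl 25 57 59))))) .nd))))))) (.rp 60 (.str 62 (.nv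 (.thr 6 12 (.thr 25 57 (.thr 53 37 (.thr 7 4 (.thr 8 59 (.dbl 11 10 15)))))) (.nv (.thr 1 13 (.thr 0 2 (.thr 37 53 (.thr 57 25 (.thr 32 47 (.thr 48 16 (.dbl 33 18 45))))))) (.nv (.thr 13 1 (.thr 12 6 (.thr 15 14 (.thr 10 0 (.dbl 11 7 8))))) (.rp 57 (.thr 53 37 (.thr 13 1 (.thr 12 6 (.thr 15 14 (.thr 10 0 (.dbl 11 7 8)))))) (.rp 53 (.thr 57 25 (.thr 13 1 (.thr 12 6 (.thr 15 14 (.thr 11 7 (.dbl 10 0 8)))))) (.rp 15 (.thr 1 13 (.thr 12 6 (.thr 0 2 (.thr 8 4 (.dbl 25 57 59))))) .nd))))))) (.rp 57 (.thr 53 37 (.thr 13 1 (.thr 12 6 (.thr 15 14 (.thr 10 0 (.dbl 11 7 8)))))) (.rp 53 (.thr 57 25 (.thr 13 1 (.thr 12 6 (.thr 15 14 (.thr 11 7 (.dbl 10 0 8)))))) (.rp 15 (.thr 1 13 (.thr 0 2 (.thr 12 6 (.thr 8 4 (.dbl 25 57 59))))) .nd))))))))) (.rp 57 (.str 5 (.nv (.dbl 1 13 61) (.rp 61 (.thr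 53 37 (.thr 13 1 (.thr 12 6 (.thr 15 14 (.thr 10 0 (.dbl 11 7 8)))))) (.rp 53 (.thr 61 1 (.thr 6 12 (.thr 7 4 (.thr 11 15 (.thr 26 56 (.dbl 10 8 58)))))) (.rp 13 (.thr 6 12 (.thr 7 4 (.thr 15 11 (.thr 0 10 (.dbl 1 2 61))))) (.rp 1 (.thr 6 12 (.thr 7 4 (.thr 11 15 (.thr 26 56 (.dbl 10 8 58))))) .nd)))))) (.rp 53 (.thr 25 57 (.thr 61 1 (.thr 8 59 (.thr 12 6 (.thr 4 0 (.dbl 38 51 55)))))) (.rp 25 (.thr 1 61 (.thr 2 0 (.thr 6 12 (.thr 10 14 (.thr 26 58 (.dbl 11 8 56)))))) (.rp 6 (.thr 1 61 (.thr 5 13 (.thr 0 2 (.thr 10 15 (.thr 26 58 (.dbl 11 8 56)))))) (.rp 0 (.thr 25 57 (.thr 8 59 (.thr 11 10 (.thr 6 12 (.thr 7 15 (.thr 5 4 (.dbl 1 13 61))))))) .nd)))))))))) (.rp 40 (.thr 1 61 (.thr 5 13 (.thr 25 57 (.thr 53 37 (.thr 8 59 (.thr 10 11 (.thr 0 15 (.thr 3 2 (.dbl 12 4 6))))))))) (.rp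 26 (.thr 57 25 (.thr 1 61 (.thr 5 13 (.thr 37 53 (.thr 45 33 (.thr 47 32 (.thr 43 40 (.thr 35 39 (.dbl 44 38 46))))))))) (.rp 25 (.thr 43 40 (.str 37 (.nv (.thr 47 32 (.thr 35 39 (.thr 44 38 (.dbl 45 33 46)))) (.nv (.thr 5 53 (.dbl 1 13 61)) (.rp 28 (.str 19 (.nv (.thr 47 32 (.thr 35 39 (.thr 44 38 (.dbl 45 33 46)))) (.nv (.thr 5 53 (.dbl 1 13 61)) .nd))) (.rp 19 (.str 28 (.nv (.thr 47 32 (.thr 35 39 (.thr 44 38 (.dbl 45 33 46)))) (.nv (.thr 1 61 (.dbl 5 13 53)) .nd))) .nd)))))) (.rp 24 (.thr 57 25 (.thr 1 61 (.thr 5 13 (.thr 37 53 (.thr 45 33 (.thr 47 32 (.thr 43 40 (.thr 35 39 (.dbl 44 38 46))))))))) (.rp 11 (.thr 57 25 (.thr 1 61 (.thr 5 13 (.thr 37 53 (.thr 45 33 (.thr 47 32 (.thr 43 40 (.thr 35 39 (.dbl 44 38 46))))))))) (.rp 10 (.thr 57 25 (.thr 1 61 (.thr 5 13 (.thr 37 53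 (.thr 45 33 (.thr 47 32 (.thr 43 40 (.thr 35 39 (.dbl 44 38 46))))))))) (.rp 8 (.thr 57 25 (.thr 1 61 (.thr 5 13 (.thr 37 53 (.thr 45 33 (.thr 47 32 (.thr 43 40 (.thr 35 39 (.dbl 44 38 46))))))))) .nd)))))))))))))))))) (.rp 48 (.str 25 (.nv (.thr 17 29 (.thr 9 57 (.thr 1 61 (.thr 13 5 (.dbl 49 33 37))))) (.nv (.thr 57 9 (.thr 43 40 (.thr 59 8 (.thr 11 27 (.dbl 56 26 58))))) (.rp 58 (.str 53 (.nv (.thr 1 61 (.thr 17 29 (.thr 33 49 (.dbl 37 5 45)))) (.nv (.thr 57 9 (.dbl 61 1 49)) (.rp 61 (.thr 9 57 (.thr 40 43 (.thr 8 59 (.thr 56 24 (.dbl 11 10 26))))) (.rp 49 (.thr 9 57 (.thr 5 37 (.dbl 1 13 61))) (.rp 1 (.thr 57 9 (.thr 49 61 (.dbl 37 5 13))) .nd)))))) (.rp 57 (.thr 40 43 (.thr 8 59 (.thr 56 24 (.thr 11 26 (.thr 9 10 (.thr 1 61 (.thr 17 29 (.thr 49 33 (.dbl 13 5 37))))))))) (.rp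 53 (.str 58 (.nv (.thr 8 59 (.thr 26 10 (.thr 24 27 (.dbl 40 43 56)))) (.nv (.thr 57 9 (.dbl 59 8 56)) (.rp 59 (.thr 9 57 (.thr 17 29 (.thr 1 61 (.thr 49 33 (.dbl 13 5 37))))) (.rp 56 (.thr 9 57 (.thr 10 26 (.dbl 8 11 59))) (.rp 8 (.thr 57 9 (.thr 56 59 (.dbl 26 10 11))) .nd)))))) (.rp 9 (.str 53 (.nv (.thr 61 1 (.thr 49 57 (.dbl 37 5 13))) (.rp 61 (.thr 37 5 (.thr 45 33 (.thr 47 32 (.thr 44 46 (.thr 43 40 (.dbl 35 38 39)))))) (.rp 57 (.thr 37 5 (.thr 13 49 (.thr 45 33 (.dbl 61 1 29)))) (.rp 49 (.thr 37 5 (.thr 45 33 (.thr 47 32 (.thr 44 46 (.thr 43 40 (.dbl 35 38 39)))))) (.rp 37 (.thr 61 1 (.thr 57 49 (.thr 59 8 (.thr 56 58 (.thr 43 40 (.dbl 11 26 27)))))) (.rp 13 (.thr 59 8 (.thr 43 40 (.thr 11 27 (.thr 56 26 (.thr 57 58 (.dbl 61 1 49)))))) (.rp 5 (.thr 29 17 (.thr 61 1 (.thr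 13 45 (.dbl 49 37 57)))) (.rp 1 (.thr 37 5 (.thr 13 49 (.thr 33 45 (.thr 32 47 (.thr 40 43 (.thr 44 36 (.dbl 35 34 38))))))) .nd))))))))) .nd))))))) (.rp 47 (.str 25 (.nv (.thr 29 17 (.thr 61 1 (.thr 13 45 (.thr 57 9 (.dbl 49 37 53))))) (.nv (.thr 43 40 (.thr 57 9 (.thr 59 8 (.thr 11 27 (.dbl 56 26 58))))) (.rp 57 (.thr 40 43 (.thr 8 59 (.thr 56 24 (.thr 11 26 (.thr 9 10 (.thr 1 61 (.thr 13 5 (.thr 17 29 (.dbl 49 33 37))))))))) (.rp 31 (.str 15 (.nv (.thr 8 59 (.thr 9 57 (.thr 11 10 (.thr 40 43 (.dbl 56 24 26))))) (.nv (.thr 29 17 (.thr 61 1 (.thr 13 45 (.thr 57 9 (.dbl 49 37 53))))) (.rp 57 (.thr 43 40 (.thr 59 8 (.thr 27 11 (.thr 17 29 (.thr 51 39 (.thr 34 0 (.dbl 38 12 46))))))) (.rp 9 (.thr 8 59 (.thr 61 1 (.thr 29 17 (.thr 13 45 (.thr 12 14 (.thr 4 0 (.dbl 38 51 55))))))) .nd)))))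 (.rp 15 (.str 31 (.nv (.thr 26 16 (.thr 24 27 (.thr 40 43 (.dbl 8 56 59)))) (.nv (.thr 1 61 (.thr 9 57 (.thr 17 29 (.thr 49 33 (.dbl 13 5 37))))) (.nv (.thr 9 57 (.thr 26 16 (.thr 11 56 (.dbl 8 10 59)))) .nd)))) (.rp 9 (.thr 43 40 (.thr 59 8 (.thr 11 27 (.thr 56 26 (.thr 57 58 (.thr 61 1 (.thr 29 17 (.thr 13 45 (.dbl 49 37 53))))))))) .nd))))))) (.rp 46 (.str 37 (.nv (.thr 40 43 (.thr 33 45 (.thr 32 47 (.thr 44 36 (.dbl 35 34 38))))) (.nv (.thr 53 5 (.thr 61 1 (.thr 49 57 (.thr 45 33 (.dbl 13 25 29))))) (.rp 45 (.thr 40 43 (.thr 32 47 (.thr 44 36 (.thr 35 38 (.thr 33 34 (.thr 1 61 (.thr 49 17 (.thr 5 53 (.dbl 13 9 25))))))))) (.rp 33 (.thr 53 5 (.str 29 (.nv (.thr 61 1 (.thr 13 45 (.dbl 25 17 49))) (.nv (.thr 25 17 (.thr 49 13 (.dbl 61 1 57))) (.rp 61 (.thr 25 17 (.thr 57 9 (.thr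 59 8 (.thr 56 58 (.thr 43 40 (.dbl 11 26 27)))))) (.rp 49 (.thr 25 17 (.thr 1 61 (.thr 57 9 (.thr 59 8 (.thr 56 58 (.thr 43 40 (.dbl 11 26 27))))))) (.rp 25 (.str 28 (.nv (.thr 31 30 (.thr 32 47 (.thr 40 43 (.thr 44 36 (.thr 60 12 (.thr 0 20 (.dbl 16 26 48))))))) (.nv (.thr 61 1 (.thr 31 30 (.thr 26 16 (.thr 58 10 (.thr 56 11 (.dbl 57 49 59)))))) (.rp 62 (.thr 32 47 (.thr 40 43 (.thr 44 36 (.thr 60 12 (.thr 0 20 (.thr 48 16 (.thr 30 31 (.dbl 15 26 45)))))))) (.rp 31 (.thr 61 1 (.thr 13 45 (.thr 47 32 (.thr 43 40 (.thr 35 39 (.thr 44 38 (.thr 12 60 (.thr 15 14 (.thr 26 48 (.thr 58 10 (.thr 56 11 (.dbl 57 49 59)))))))))))) (.rp 30 (.thr 32 47 (.thr 40 43 (.thr 44 36 (.thr 60 12 (.thr 0 20 (.thr 48 16 (.thr 52 56 (.thr 55 54 (.dbl 38 4 35))))))))) (.rp 26 (.thr 32 47 (.thr 40 43 (.thr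 44 36 (.thr 60 12 (.thr 0 20 (.thr 48 16 (.thr 52 56 (.thr 55 54 (.dbl 38 4 35))))))))) (.rp 16 (.thr 32 47 (.thr 40 43 (.thr 44 36 (.thr 60 12 (.thr 30 31 (.thr 15 45 (.thr 48 26 (.thr 52 56 (.thr 55 54 (.dbl 38 4 35)))))))))) (.rp 14 (.thr 32 47 (.thr 40 43 (.thr 44 36 (.thr 60 12 (.thr 0 20 (.thr 48 16 (.thr 30 31 (.dbl 15 26 45)))))))) (.rp 0 (.thr 61 1 (.thr 32 47 (.thr 31 30 (.thr 26 16 (.thr 58 10 (.thr 15 48 (.thr 56 11 (.dbl 57 49 59)))))))) .nd)))))))))) (.rp 17 (.thr 61 1 (.thr 49 57 (.dbl 13 25 45))) (.rp 13 (.thr 25 17 (.thr 9 57 (.thr 8 59 (.thr 40 43 (.thr 56 24 (.dbl 11 10 26)))))) (.rp 1 (.thr 25 17 (.thr 49 13 (.thr 9 57 (.thr 8 59 (.thr 40 43 (.thr 56 24 (.dbl 11 10 26))))))) .nd)))))))))) (.rp 29 (.str 12 (.nv (.thr 32 47 (.thr 40 43 (.thr 44 36 (.thr 35 38 (.dbl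 33 34 45))))) (.nv (.thr 5 53 (.thr 1 61 (.thr 13 9 (.thr 15 14 (.thr 10 0 (.dbl 26 48 58)))))) (.nv (.thr 33 45 (.thr 40 43 (.thr 32 47 (.thr 44 36 (.dbl 35 34 38))))) (.rp 15 (.thr 33 45 (.thr 5 53 (.thr 1 61 (.thr 13 9 (.dbl 49 17 25))))) .nd))))) (.rp 12 (.str 29 (.nv (.thr 1 61 (.thr 5 53 (.thr 9 13 (.dbl 25 17 57)))) (.nv (.thr 45 33 (.dbl 61 1 13)) (.rp 61 (.thr 33 45 (.thr 40 43 (.thr 32 47 (.thr 44 36 (.dbl 35 34 38))))) (.rp 13 (.thr 33 45 (.thr 17 25 (.dbl 1 49 61))) (.rp 1 (.thr 45 33 (.thr 13 61 (.dbl 25 17 49))) .nd)))))) .nd))))))) (.rp 45 (.str 25 (.nv (.thr 17 29 (.thr 9 57 (.thr 1 61 (.thr 13 5 (.dbl 49 33 37))))) (.nv (.thr 43 40 (.thr 57 9 (.thr 59 8 (.thr 11 27 (.dbl 56 26 58))))) (.rp 57 (.thr 40 43 (.thr 8 59 (.thr 56 24 (.thr 11 26 (.thr 9 10 (.thr 1 61 (.thr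 13 5 (.thr 17 29 (.dbl 49 33 37))))))))) (.rp 9 (.str 53 (.nv (.thr 61 1 (.thr 49 57 (.dbl 37 5 13))) (.rp 61 (.thr 37 5 (.thr 13 49 (.thr 17 29 (.thr 32 47 (.thr 40 43 (.thr 44 36 (.thr 35 38 (.thr 34 33 (.thr 0 51 (.thr 60 20 (.thr 12 28 (.dbl 8 4 59)))))))))))) (.rp 57 (.thr 37 5 (.thr 17 29 (.thr 32 47 (.thr 40 43 (.thr 44 36 (.thr 35 38 (.thr 33 34 (.dbl 49 1 13)))))))) (.rp 49 (.thr 37 5 (.thr 17 29 (.thr 32 47 (.thr 40 43 (.thr 44 36 (.thr 35 38 (.thr 34 33 (.thr 0 51 (.thr 60 20 (.thr 12 28 (.dbl 8 4 59))))))))))) (.rp 37 (.thr 61 1 (.thr 57 49 (.thr 59 8 (.thr 56 58 (.thr 43 40 (.dbl 11 26 27)))))) (.rp 13 (.thr 59 8 (.thr 43 40 (.thr 11 27 (.thr 56 26 (.thr 57 58 (.dbl 61 1 49)))))) (.rp 5 (.thr 59 8 (.thr 43 40 (.thr 11 27 (.thr 56 26 (.thr 57 58 (.dbl 61 1 49)))))) (.rp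 1 (.thr 59 8 (.thr 43 40 (.thr 11 27 (.thr 56 26 (.thr 57 58 (.thr 49 61 (.dbl 37 5 13))))))) .nd))))))))) .nd))))) (.rp 44 (.str 25 (.nv (.thr 8 59 (.thr 9 57 (.thr 11 10 (.thr 40 43 (.dbl 56 24 26))))) (.nv (.thr 29 17 (.thr 61 1 (.thr 13 45 (.thr 57 9 (.dbl 49 37 53))))) (.rp 57 (.thr 40 43 (.thr 8 59 (.thr 56 24 (.thr 11 26 (.thr 9 10 (.thr 1 61 (.thr 13 5 (.thr 17 29 (.dbl 49 33 37))))))))) (.rp 9 (.thr 43 40 (.thr 59 8 (.thr 11 27 (.thr 56 26 (.thr 57 58 (.thr 61 1 (.thr 29 17 (.thr 13 45 (.dbl 49 37 53))))))))) .nd))))) (.rp 43 .ext (.rp 40 (.str 37 (.nv (.thr 53 5 (.thr 61 1 (.thr 49 57 (.thr 45 33 (.dbl 13 25 29))))) (.rp 61 (.thr 45 33 (.str 60 (.nv (.thr 5 53 (.thr 15 30 (.thr 10 0 (.dbl 26 48 58)))) (.rp 58 (.thr 53 5 (.thr 47 32 (.thr 44 46 (.thr 12 28 (.thr 15 30 (.thr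 26 48 (.thr 14 13 (.dbl 38 35 50)))))))) (.rp 57 (.thr 47 32 (.thr 44 46 (.thr 12 28 (.thr 15 30 (.thr 26 48 (.thr 14 13 (.dbl 38 35 50))))))) (.rp 53 (.thr 47 32 (.thr 44 46 (.thr 12 28 (.thr 15 30 (.thr 26 48 (.thr 58 10 (.thr 14 13 (.dbl 38 35 50)))))))) (.rp 49 (.thr 47 32 (.thr 44 46 (.thr 12 28 (.thr 15 30 (.thr 26 48 (.thr 14 13 (.dbl 38 35 50))))))) (.rp 48 (.thr 53 5 (.thr 47 32 (.thr 44 46 (.thr 35 38 (.thr 39 43 (.thr 15 30 (.thr 51 27 (.thr 54 57 (.thr 55 52 (.thr 7 23 (.dbl 3 11 19))))))))))) (.rp 30 (.str 26 (.nv (.thr 56 11 (.dbl 48 15 52)) (.rp 56 (.thr 15 48 (.thr 47 32 (.thr 44 46 (.thr 12 28 (.thr 14 13 (.dbl 38 35 50)))))) (.rp 52 (.thr 15 48 (.thr 47 32 (.thr 44 46 (.thr 12 28 (.thr 14 13 (.dbl 38 35 50)))))) (.rp 48 (.thr 58 10 (.thr 56 11 (.thr 57 59 (.thr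 53 5 (.thr 54 51 (.thr 55 52 (.thr 38 4 (.dbl 50 14 62)))))))) (.rp 15 (.thr 58 10 (.thr 56 11 (.thr 57 59 (.thr 48 52 (.thr 51 54 (.thr 49 50 (.dbl 25 9 13))))))) (.rp 11 (.thr 15 48 (.thr 47 32 (.thr 44 46 (.thr 12 28 (.thr 14 13 (.dbl 38 35 50)))))) .nd))))))) (.rp 26 (.thr 53 5 (.thr 47 32 (.thr 44 46 (.thr 30 15 (.thr 28 12 (.thr 29 31 (.thr 25 17 (.thr 57 9 (.thr 54 51 (.thr 55 52 (.dbl 38 4 35))))))))))) (.rp 18 (.thr 53 5 (.thr 47 32 (.thr 44 46 (.thr 30 15 (.thr 28 12 (.thr 29 31 (.thr 25 17 (.thr 57 9 (.thr 54 51 (.thr 55 52 (.dbl 38 4 35))))))))))) (.rp 15 (.str 26 (.nv (.thr 10 58 (.thr 47 32 (.thr 53 5 (.thr 56 11 (.thr 52 48 (.thr 55 54 (.thr 38 4 (.dbl 44 35 46)))))))) (.nv (.thr 10 58 (.thr 11 56 (.thr 8 9 (.thr 47 32 (.thr 44 46 (.thr 35 38 (.thr 43 39 (.dbl 59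 25 27)))))))) (.nv (.thr 47 32 (.thr 44 46 (.thr 12 28 (.thr 56 11 (.thr 48 52 (.thr 36 24 (.dbl 38 35 39))))))) (.rp 56 (.thr 53 5 (.thr 47 32 (.thr 44 46 (.thr 31 16 (.thr 28 12 (.thr 29 30 (.thr 25 17 (.thr 57 9 (.thr 54 51 (.thr 55 52 (.dbl 38 4 35))))))))))) (.rp 48 (.thr 58 10 (.thr 56 11 (.thr 57 59 (.thr 47 32 (.thr 44 46 (.thr 12 28 (.thr 51 54 (.dbl 25 9 38)))))))) (.rp 47 (.thr 31 16 (.thr 58 10 (.thr 56 11 (.thr 57 59 (.thr 48 52 (.thr 51 54 (.thr 49 50 (.dbl 25 9 13)))))))) (.rp 46 (.thr 58 10 (.thr 56 11 (.thr 57 59 (.thr 48 52 (.thr 51 54 (.thr 49 50 (.dbl 25 9 13))))))) (.rp 44 (.thr 58 10 (.thr 56 11 (.thr 57 59 (.thr 48 52 (.thr 51 54 (.thr 49 50 (.dbl 25 9 13))))))) (.rp 38 (.thr 56 11 (.thr 53 5 (.thr 52 48 (.thr 54 55 (.thr 57 51 (.thr 59 58 (.dbl 25 8 9)))))))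 (.rp 35 (.thr 58 10 (.thr 56 11 (.thr 57 59 (.thr 48 52 (.thr 51 54 (.thr 49 50 (.dbl 25 9 13))))))) (.rp 34 (.thr 58 10 (.thr 56 11 (.thr 57 59 (.thr 48 52 (.thr 51 54 (.thr 49 50 (.dbl 25 9 13))))))) (.rp 32 (.thr 58 10 (.thr 56 11 (.thr 57 59 (.thr 48 52 (.thr 51 54 (.thr 49 50 (.dbl 25 9 13))))))) (.rp 11 (.thr 53 5 (.thr 47 32 (.thr 44 46 (.thr 31 16 (.thr 28 12 (.thr 29 30 (.thr 25 17 (.thr 57 9 (.thr 54 51 (.thr 55 52 (.dbl 38 4 35))))))))))) .nd)))))))))))))) (.rp 10 (.thr 47 32 (.thr 44 46 (.thr 12 28 (.thr 15 30 (.thr 26 48 (.thr 14 13 (.dbl 38 35 50))))))) (.rp 5 (.thr 47 32 (.thr 44 46 (.thr 12 28 (.thr 15 30 (.thr 26 48 (.thr 14 13 (.dbl 38 35 50))))))) (.rp 0 (.thr 15 30 (.thr 26 48 (.thr 58 10 (.thr 56 11 (.thr 57 59 (.thr 51 54 (.thr 27 39 (.dbl 25 9 24)))))))) .nd)))))))))))))))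 (.rp 57 (.thr 33 45 (.thr 1 61 (.thr 49 17 (.thr 5 53 (.dbl 13 9 25))))) (.rp 53 (.str 48 (.nv (.thr 1 61 (.thr 33 45 (.thr 3 18 (.thr 0 2 (.dbl 32 16 47))))) (.nv (.thr 32 47 (.thr 16 0 (.dbl 26 15 31))) (.rp 60 (.thr 33 45 (.thr 32 47 (.thr 0 16 (.thr 3 18 (.dbl 1 2 61))))) (.rp 47 (.thr 33 45 (.thr 1 61 (.thr 3 18 (.thr 0 2 (.thr 16 32 (.dbl 26 15 31)))))) (.rp 32 (.thr 33 45 (.thr 1 61 (.thr 49 17 (.thr 50 51 (.thr 18 3 (.thr 34 2 (.thr 38 46 (.dbl 26 14 15)))))))) (.rp 26 (.thr 33 45 (.thr 32 47 (.thr 0 16 (.thr 1 61 (.dbl 3 2 18))))) (.rp 16 (.thr 33 45 (.thr 32 47 (.thr 34 35 (.thr 1 61 (.thr 49 17 (.thr 50 51 (.dbl 18 2 3))))))) (.rp 0 (.thr 33 45 (.thr 32 47 (.thr 34 35 (.thr 1 61 (.thr 49 17 (.thr 50 51 (.dbl 18 2 3))))))) .nd))))))))) (.rp 49 (.str 48 (.nv (.thr 5 53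 (.thr 15 26 (.thr 0 10 (.dbl 32 16 47)))) (.nv (.thr 32 47 (.thr 16 0 (.dbl 26 15 31))) (.rp 47 (.thr 33 45 (.thr 1 61 (.thr 3 18 (.thr 0 2 (.thr 16 32 (.dbl 26 15 31)))))) (.rp 32 (.thr 1 61 (.thr 26 15 (.thr 58 10 (.thr 56 11 (.thr 57 59 (.thr 5 53 (.dbl 9 13 25))))))) (.rp 26 (.thr 33 45 (.thr 32 47 (.thr 0 16 (.thr 1 61 (.dbl 3 2 18))))) (.rp 16 (.thr 1 61 (.thr 26 15 (.thr 58 10 (.thr 56 11 (.thr 57 59 (.thr 5 53 (.dbl 9 13 25))))))) (.rp 15 (.thr 33 45 (.thr 1 61 (.thr 3 18 (.thr 0 2 (.dbl 32 16 47))))) (.rp 0 (.thr 1 61 (.thr 26 15 (.thr 56 11 (.thr 58 10 (.thr 5 53 (.thr 57 59 (.dbl 9 13 25))))))) .nd))))))))) (.rp 45 (.str 48 (.nv (.thr 5 53 (.thr 15 26 (.thr 0 10 (.dbl 32 16 47)))) (.nv (.thr 32 47 (.thr 16 0 (.dbl 26 15 31))) (.rp 47 (.thr 61 1 (.thr 53 5 (.thr 57 49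 (.thr 26 15 (.thr 31 16 (.thr 56 11 (.dbl 58 10 59))))))) (.rp 32 (.thr 61 1 (.thr 53 5 (.thr 57 49 (.thr 26 15 (.thr 56 11 (.dbl 58 10 59)))))) (.rp 26 (.thr 32 47 (.thr 0 16 (.thr 61 1 (.thr 53 5 (.thr 49 57 (.thr 51 50 (.thr 17 34 (.dbl 25 13 29)))))))) (.rp 16 (.thr 61 1 (.thr 53 5 (.thr 57 49 (.thr 26 15 (.thr 56 11 (.dbl 58 10 59)))))) (.rp 15 (.thr 1 61 (.thr 5 53 (.thr 13 9 (.thr 49 25 (.thr 51 50 (.thr 17 33 (.thr 0 34 (.dbl 32 16 47)))))))) (.rp 0 (.thr 1 61 (.thr 5 53 (.thr 26 15 (.thr 10 58 (.thr 11 56 (.dbl 9 8 13)))))) .nd))))))))) (.rp 33 (.str 48 (.nv (.thr 5 53 (.thr 15 26 (.thr 0 10 (.dbl 32 16 47)))) (.nv (.thr 32 47 (.thr 16 0 (.dbl 26 15 31))) (.rp 47 (.thr 61 1 (.thr 26 15 (.thr 31 16 (.thr 58 10 (.thr 56 11 (.thr 57 59 (.dbl 53 5 49))))))) (.rp 32 (.thr 61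 1 (.thr 26 15 (.thr 58 10 (.thr 56 11 (.thr 57 59 (.dbl 53 5 49)))))) (.rp 26 (.thr 32 47 (.thr 0 16 (.thr 61 1 (.thr 53 5 (.thr 49 57 (.thr 51 50 (.thr 17 34 (.dbl 25 13 29)))))))) (.rp 16 (.thr 61 1 (.thr 26 15 (.thr 58 10 (.thr 56 11 (.thr 57 59 (.dbl 53 5 49)))))) (.rp 15 (.str 49 (.nv (.thr 47 32 (.thr 1 61 (.thr 5 53 (.dbl 13 9 25)))) (.nv (.thr 61 1 (.dbl 53 5 57)) (.rp 61 (.thr 51 50 (.thr 25 13 (.thr 59 8 (.thr 57 9 (.thr 60 54 (.dbl 56 52 58)))))) (.rp 53 (.thr 51 50 (.thr 25 13 (.thr 17 29 (.thr 34 0 (.dbl 38 12 46))))) (.rp 47 (.str 31 (.nv (.thr 61 1 (.dbl 53 5 57)) (.rp 61 (.thr 51 50 (.thr 26 16 (.thr 25 13 (.thr 24 27 (.dbl 12 36 38))))) (.rp 57 (.thr 13 25 (.thr 5 53 (.dbl 1 9 61))) (.rp 53 (.thr 51 50 (.thr 26 16 (.thr 25 13 (.thr 24 27 (.dbl 12 36 38))))) (.rp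 5 (.thr 61 1 (.thr 57 53 (.dbl 25 9 13))) (.rp 1 (.thr 53 5 (.thr 57 61 (.dbl 25 9 13))) .nd))))))) (.rp 5 (.thr 61 1 (.thr 57 53 (.dbl 25 9 13))) (.rp 1 (.thr 53 5 (.thr 57 61 (.dbl 25 9 13))) .nd)))))))) (.rp 0 (.thr 1 61 (.thr 5 53 (.thr 9 13 (.thr 26 15 (.thr 10 58 (.dbl 11 8 56)))))) .nd))))))))) (.rp 29 (.thr 33 45 (.thr 5 53 (.thr 1 61 (.thr 13 9 (.dbl 49 17 25))))) (.rp 25 (.thr 33 45 (.thr 32 47 (.thr 34 35 (.thr 1 61 (.thr 17 49 (.thr 0 51 (.thr 48 16 (.dbl 3 2 18)))))))) (.rp 13 (.str 15 (.nv (.thr 5 53 (.thr 48 26 (.thr 0 10 (.dbl 32 16 47)))) (.nv (.thr 5 53 (.thr 10 0 (.dbl 26 48 58))) (.rp 53 (.thr 32 47 (.thr 1 61 (.thr 48 26 (.thr 0 16 (.thr 3 2 (.dbl 33 18 45)))))) (.rp 48 (.thr 45 33 (.thr 47 32 (.thr 44 46 (.thr 35 38 (.thr 39 43 (.thr 51 27 (.thr 3 19 (.thr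 1 61 (.thr 0 2 (.dbl 5 10 53)))))))))) (.rp 26 (.thr 33 45 (.thr 32 47 (.thr 34 35 (.thr 5 53 (.thr 0 10 (.thr 17 51 (.dbl 1 49 61))))))) (.rp 10 (.thr 32 47 (.thr 1 61 (.thr 48 26 (.thr 0 16 (.thr 3 2 (.dbl 33 18 45)))))) (.rp 5 (.thr 32 47 (.thr 1 61 (.thr 48 26 (.thr 0 16 (.thr 3 2 (.dbl 33 18 45)))))) (.rp 0 (.thr 61 1 (.thr 26 48 (.thr 58 10 (.thr 56 11 (.thr 57 59 (.dbl 53 5 49)))))) .nd))))))))) (.rp 9 (.thr 45 33 (.thr 61 1 (.thr 53 5 (.thr 13 29 (.dbl 49 25 57))))) (.rp 5 (.thr 33 45 (.thr 32 47 (.thr 34 35 (.thr 1 61 (.thr 17 49 (.thr 0 51 (.thr 48 16 (.dbl 3 2 18)))))))) (.rp 1 (.str 15 (.nv (.thr 5 53 (.thr 10 0 (.dbl 26 48 58))) (.nv (.thr 5 53 (.thr 0 10 (.thr 32 47 (.dbl 48 16 26)))) (.rp 58 (.thr 32 47 (.thr 5 53 (.thr 48 26 (.dbl 0 10 16)))) (.rp 53 (.thr 33 45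 (.thr 32 47 (.thr 34 35 (.thr 48 26 (.thr 18 3 (.thr 50 2 (.thr 0 16 (.dbl 51 17 49)))))))) (.rp 48 (.thr 45 33 (.thr 47 32 (.thr 44 46 (.thr 35 38 (.thr 39 43 (.thr 51 27 (.thr 3 19 (.thr 53 5 (.thr 60 30 (.thr 54 57 (.thr 55 52 (.dbl 7 11 23)))))))))))) (.rp 26 (.thr 33 45 (.thr 32 47 (.thr 34 35 (.thr 5 53 (.thr 0 10 (.thr 51 17 (.thr 39 27 (.dbl 38 36 46)))))))) (.rp 10 (.thr 45 33 (.thr 47 32 (.thr 44 46 (.thr 60 30 (.thr 12 28 (.thr 14 13 (.thr 26 48 (.dbl 38 35 50)))))))) (.rp 5 (.thr 33 45 (.thr 32 47 (.thr 34 35 (.thr 48 26 (.thr 18 3 (.thr 50 2 (.thr 0 16 (.dbl 51 17 49)))))))) (.rp 0 (.thr 53 5 (.thr 26 48 (.thr 58 10 (.thr 56 11 (.thr 57 59 (.thr 49 61 (.dbl 25 9 13))))))) .nd)))))))))) .nd)))))))))))))) (.rp 39 (.str 25 (.nv (.thr 43 40 (.thr 59 8 (.thr 11 27 (.thr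 57 9 (.dbl 56 26 58))))) (.nv (.thr 29 17 (.thr 57 9 (.thr 61 1 (.thr 13 45 (.dbl 49 37 53))))) (.rp 57 (.thr 17 29 (.thr 1 61 (.thr 49 33 (.thr 13 37 (.thr 9 5 (.thr 8 59 (.thr 11 10 (.thr 40 43 (.dbl 56 24 26))))))))) (.rp 9 (.thr 29 17 (.thr 61 1 (.thr 13 45 (.thr 49 37 (.thr 57 53 (.thr 59 8 (.thr 43 40 (.thr 11 27 (.dbl 56 26 58))))))))) .nd))))) (.rp 38 (.str 25 (.nv (.thr 8 59 (.thr 9 57 (.thr 11 10 (.thr 40 43 (.dbl 56 24 26))))) (.nv (.thr 29 17 (.thr 61 1 (.thr 13 45 (.thr 57 9 (.dbl 49 37 53))))) (.rp 57 (.thr 40 43 (.thr 8 59 (.thr 56 24 (.thr 11 26 (.thr 9 10 (.thr 1 61 (.thr 13 5 (.thr 17 29 (.dbl 49 33 37))))))))) (.rp 54 (.str 6 (.nv (.thr 8 59 (.thr 9 57 (.thr 11 10 (.thr 40 43 (.dbl 56 24 26))))) (.nv (.thr 29 17 (.thr 61 1 (.thr 13 45 (.thr 57 9 (.dbl 49 37 53)))))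 (.rp 57 (.thr 40 43 (.thr 8 59 (.thr 56 24 (.thr 11 26 (.thr 9 10 (.thr 1 61 (.thr 13 5 (.thr 17 29 (.dbl 49 33 37))))))))) (.rp 9 (.thr 43 40 (.thr 59 8 (.thr 11 27 (.thr 56 26 (.thr 57 58 (.thr 61 1 (.thr 29 17 (.thr 13 45 (.dbl 49 37 53))))))))) .nd))))) (.rp 9 (.thr 43 40 (.thr 59 8 (.thr 11 27 (.thr 56 26 (.thr 57 58 (.thr 61 1 (.thr 29 17 (.thr 13 45 (.dbl 49 37 53))))))))) (.rp 6 (.str 54 (.nv (.thr 8 59 (.thr 9 57 (.thr 11 10 (.thr 56 26 (.dbl 40 24 43))))) (.nv (.thr 29 17 (.thr 57 9 (.thr 61 1 (.thr 13 45 (.dbl 49 37 53))))) (.rp 57 (.thr 17 29 (.thr 1 61 (.thr 49 33 (.thr 13 37 (.thr 9 5 (.thr 8 59 (.thr 40 43 (.thr 56 24 (.dbl 11 10 26))))))))) (.rp 9 (.thr 29 17 (.thr 61 1 (.thr 13 45 (.thr 49 37 (.thr 57 53 (.thr 59 8 (.thr 58 56 (.thr 50 62 (.dbl 51 48 60)))))))))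 .nd))))) .nd))))))) (.rp 37 .ext (.rp 36 (.str 25 (.nv (.thr 8 59 (.thr 9 57 (.thr 11 10 (.thr 40 43 (.dbl 56 24 26))))) (.nv (.thr 29 17 (.thr 61 1 (.thr 13 45 (.thr 57 9 (.dbl 49 37 53))))) (.rp 57 (.thr 40 43 (.thr 8 59 (.thr 56 24 (.thr 11 26 (.thr 9 10 (.thr 1 61 (.thr 13 5 (.thr 17 29 (.dbl 49 33 37))))))))) (.rp 9 (.thr 43 40 (.thr 59 8 (.thr 11 27 (.thr 56 26 (.thr 57 58 (.thr 61 1 (.thr 29 17 (.thr 13 45 (.dbl 49 37 53))))))))) .nd))))) (.rp 35 (.str 25 (.nv (.thr 17 29 (.thr 9 57 (.thr 1 61 (.thr 13 5 (.dbl 49 33 37))))) (.nv (.thr 43 40 (.thr 59 8 (.thr 11 27 (.thr 57 9 (.dbl 56 26 58))))) (.rp 57 (.thr 17 29 (.thr 1 61 (.thr 49 33 (.thr 13 37 (.thr 9 5 (.thr 8 59 (.thr 11 10 (.thr 40 43 (.dbl 56 24 26))))))))) (.rp 9 (.thr 29 17 (.thr 61 1 (.thr 13 45 (.thr 49 37 (.thr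 57 53 (.thr 59 8 (.thr 43 40 (.thr 11 27 (.dbl 56 26 58))))))))) .nd))))) (.rp 34 (.str 25 (.nv (.thr 17 29 (.thr 9 57 (.thr 1 61 (.thr 13 5 (.dbl 49 33 37))))) (.nv (.thr 43 40 (.thr 59 8 (.thr 11 27 (.thr 57 9 (.dbl 56 26 58))))) (.rp 57 (.thr 17 29 (.thr 1 61 (.thr 49 33 (.thr 13 37 (.thr 9 5 (.thr 8 59 (.thr 11 10 (.thr 40 43 (.dbl 56 24 26))))))))) (.rp 9 (.thr 29 17 (.thr 61 1 (.thr 13 45 (.thr 49 37 (.thr 57 53 (.thr 59 8 (.thr 43 40 (.thr 11 27 (.dbl 56 26 58))))))))) .nd))))) (.rp 33 (.str 25 (.nv (.thr 29 17 (.thr 57 9 (.thr 61 1 (.thr 49 53 (.dbl 13 37 45))))) (.nv (.thr 43 40 (.thr 59 8 (.thr 11 27 (.thr 57 9 (.dbl 56 26 58))))) (.rp 58 (.thr 9 57 (.thr 40 43 (.thr 8 59 (.thr 56 24 (.dbl 11 10 26))))) (.rp 57 (.str 11 (.nv (.thr 8 59 (.thr 10 9 (.dbl 26 56 58))) (.nv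 (.thr 59 8 (.dbl 43 27 40)) (.rp 59 (.thr 40 43 (.thr 26 56 (.thr 58 10 (.thr 16 31 (.thr 24 27 (.thr 20 28 (.thr 0 60 (.thr 48 32 (.thr 12 36 (.thr 51 38 (.dbl 17 29 34))))))))))) (.rp 8 (.thr 43 40 (.thr 27 59 (.dbl 26 24 56))) .nd))))) (.rp 9 (.str 35 (.nv (.thr 38 44 (.thr 43 40 (.thr 39 47 (.thr 51 12 (.thr 59 8 (.dbl 27 11 15)))))) (.nv (.thr 29 17 (.thr 43 40 (.thr 47 39 (.thr 44 38 (.thr 45 46 (.dbl 61 1 13)))))) (.nv (.thr 1 61 (.thr 38 44 (.thr 51 12 (.thr 3 19 (.thr 0 2 (.dbl 17 29 34)))))) (.rp 46 (.thr 8 59 (.thr 40 43 (.thr 24 56 (.thr 44 38 (.thr 36 32 (.thr 12 48 (.thr 0 4 (.dbl 60 20 28)))))))) (.rp 44 (.thr 17 29 (.thr 61 1 (.thr 59 8 (.thr 43 40 (.thr 11 27 (.thr 47 39 (.thr 56 26 (.thr 57 58 (.thr 53 49 (.dbl 37 5 32)))))))))) (.rp 38 (.thr 61 1 (.thr 59 8 (.thr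 43 40 (.thr 11 27 (.thr 47 39 (.thr 37 32 (.thr 56 26 (.thr 57 58 (.dbl 53 5 49))))))))) (.rp 29 (.thr 59 8 (.thr 43 40 (.thr 39 47 (.thr 38 44 (.thr 46 34 (.thr 51 12 (.dbl 27 11 15))))))) .nd)))))))) .nd)))))) (.rp 32 (.str 25 (.nv (.thr 57 9 (.thr 43 40 (.thr 59 8 (.thr 11 27 (.dbl 56 26 58))))) (.nv (.thr 29 17 (.thr 57 9 (.thr 61 1 (.thr 13 45 (.dbl 49 37 53))))) (.rp 57 (.thr 40 43 (.thr 8 59 (.thr 56 24 (.thr 11 26 (.thr 9 10 (.thr 1 61 (.thr 17 29 (.thr 49 33 (.dbl 13 5 37))))))))) (.rp 9 (.thr 43 40 (.thr 59 8 (.thr 11 27 (.thr 56 26 (.thr 57 58 (.thr 61 1 (.thr 29 17 (.thr 13 45 (.dbl 49 37 53))))))))) .nd))))) (.rp 31 (.str 25 (.nv (.thr 8 59 (.thr 9 57 (.thr 11 10 (.thr 40 43 (.dbl 56 24 26))))) (.nv (.thr 29 17 (.thr 61 1 (.thr 13 45 (.thr 57 9 (.dbl 49 37 53))))) (.rp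 57 (.thr 40 43 (.thr 8 59 (.thr 56 24 (.thr 11 26 (.thr 9 10 (.thr 1 61 (.thr 13 5 (.thr 17 29 (.dbl 49 33 37))))))))) (.rp 47 (.str 15 (.nv (.thr 8 59 (.thr 9 57 (.thr 11 10 (.thr 40 43 (.dbl 56 24 26))))) (.nv (.thr 29 17 (.thr 61 1 (.thr 13 45 (.thr 57 9 (.dbl 49 37 53))))) (.rp 57 (.thr 43 40 (.thr 59 8 (.thr 27 11 (.thr 17 29 (.thr 51 39 (.thr 34 0 (.dbl 38 12 46))))))) (.rp 9 (.thr 8 59 (.thr 61 1 (.thr 29 17 (.thr 13 45 (.thr 12 14 (.thr 4 0 (.dbl 38 51 55))))))) .nd))))) (.rp 15 (.str 47 (.nv (.thr 1 61 (.thr 8 59 (.thr 9 57 (.thr 11 10 (.thr 40 43 (.dbl 56 24 26)))))) (.nv (.thr 43 40 (.thr 35 39 (.thr 37 32 (.thr 45 33 (.dbl 44 38 46))))) (.nv (.thr 9 57 (.thr 37 32 (.thr 13 49 (.dbl 1 5 61)))) .nd)))) (.rp 9 (.thr 43 40 (.thr 59 8 (.thr 11 27 (.thr 56 26 (.thr 57 58 (.thr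 61 1 (.thr 29 17 (.thr 13 45 (.dbl 49 37 53))))))))) .nd))))))) (.rp 30 (.str 37 (.nv (.thr 40 43 (.thr 33 45 (.thr 32 47 (.thr 35 34 (.dbl 44 36 38))))) (.nv (.thr 53 5 (.thr 61 1 (.thr 49 57 (.thr 45 33 (.dbl 13 25 29))))) (.rp 45 (.thr 40 43 (.thr 32 47 (.thr 44 36 (.thr 35 38 (.thr 33 34 (.thr 1 61 (.thr 49 17 (.thr 5 53 (.dbl 13 9 25))))))))) (.rp 33 (.thr 43 40 (.thr 47 32 (.thr 35 39 (.thr 44 38 (.thr 45 46 (.thr 61 1 (.thr 53 5 (.thr 49 57 (.dbl 13 25 29))))))))) (.rp 26 (.str 18 (.nv (.thr 40 43 (.thr 33 45 (.thr 32 47 (.thr 35 34 (.dbl 44 36 38))))) (.nv (.thr 53 5 (.thr 61 1 (.thr 49 57 (.thr 45 33 (.dbl 13 25 29))))) (.rp 45 (.thr 40 43 (.thr 32 47 (.thr 44 36 (.thr 35 38 (.thr 33 34 (.thr 1 61 (.thr 49 17 (.thr 5 53 (.dbl 13 9 25))))))))) (.rp 33 (.thr 43 40 (.thr 47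 32 (.thr 35 39 (.thr 44 38 (.thr 45 46 (.thr 61 1 (.thr 53 5 (.thr 49 57 (.dbl 13 25 29))))))))) .nd))))) (.rp 18 (.str 26 (.nv (.thr 1 61 (.thr 5 53 (.thr 9 13 (.thr 11 56 (.dbl 10 8 58))))) (.nv (.thr 40 43 (.thr 33 45 (.thr 32 47 (.thr 35 34 (.dbl 44 36 38))))) (.nv (.thr 11 56 (.thr 43 40 (.thr 59 27 (.thr 10 58 (.dbl 8 9 25))))) .nd)))) .nd))))))) (.rp 29 (.str 37 (.nv (.thr 1 61 (.thr 5 53 (.thr 13 9 (.thr 33 45 (.dbl 49 17 25))))) (.nv (.thr 43 40 (.thr 45 33 (.thr 47 32 (.thr 35 39 (.dbl 44 38 46))))) (.rp 46 (.str 12 (.nv (.thr 32 47 (.thr 40 43 (.thr 44 36 (.thr 35 38 (.dbl 33 34 45))))) (.nv (.thr 5 53 (.thr 1 61 (.thr 13 9 (.thr 15 14 (.thr 10 0 (.dbl 26 48 58)))))) (.nv (.thr 33 45 (.thr 40 43 (.thr 32 47 (.thr 44 36 (.dbl 35 34 38))))) (.rp 15 (.thr 33 45 (.thr 5 53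 (.thr 1 61 (.thr 13 9 (.dbl 49 17 25))))) .nd))))) (.rp 45 (.thr 40 43 (.thr 32 47 (.thr 44 36 (.thr 35 38 (.thr 33 34 (.thr 5 53 (.thr 1 61 (.thr 13 9 (.dbl 49 17 25))))))))) (.rp 33 (.str 56 (.nv (.thr 11 26 (.thr 43 40 (.thr 53 5 (.thr 59 27 (.thr 57 58 (.dbl 61 1 49)))))) (.nv (.thr 1 61 (.thr 11 26 (.thr 40 43 (.thr 8 24 (.thr 9 10 (.dbl 5 13 53)))))) (.nv (.thr 26 11 (.thr 53 5 (.thr 58 10 (.thr 61 1 (.dbl 57 49 59))))) (.nv (.thr 40 43 (.thr 8 24 (.thr 53 5 (.thr 61 1 (.thr 49 57 (.dbl 25 13 59)))))) (.nv (.thr 11 26 (.thr 43 40 (.thr 59 27 (.thr 25 8 (.dbl 57 9 58))))) (.rp 46 (.str 12 (.nv (.thr 40 43 (.thr 8 24 (.thr 4 0 (.thr 38 55 (.dbl 25 51 59))))) (.nv (.thr 1 61 (.thr 5 53 (.thr 13 9 (.thr 15 14 (.dbl 26 11 48))))) (.nv (.thr 40 43 (.thr 24 8 (.thr 48 36 (.dbl 26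 11 15)))) .nd)))) (.rp 12 (.str 46 (.nv (.thr 11 26 (.thr 40 43 (.thr 8 24 (.thr 9 10 (.dbl 25 57 59))))) (.nv (.thr 47 32 (.thr 44 45 (.dbl 38 34 35))) .nd))) .nd)))))))) (.rp 12 (.str 46 (.nv (.thr 32 47 (.thr 38 34 (.thr 36 39 (.dbl 40 43 44)))) (.nv (.thr 45 33 (.dbl 47 32 44)) (.rp 47 (.thr 33 45 (.thr 5 53 (.thr 1 61 (.thr 13 9 (.dbl 49 17 25))))) (.rp 44 (.thr 33 45 (.thr 34 38 (.dbl 32 35 47))) (.rp 32 (.thr 45 33 (.thr 44 47 (.dbl 38 34 35))) .nd)))))) .nd))))))) (.rp 28 (.str 25 (.nv (.thr 8 59 (.thr 9 57 (.thr 11 10 (.thr 40 43 (.dbl 56 24 26))))) (.nv (.thr 29 17 (.thr 61 1 (.thr 13 45 (.thr 57 9 (.dbl 49 37 53))))) (.rp 57 (.thr 40 43 (.thr 8 59 (.thr 56 24 (.thr 11 26 (.thr 9 10 (.thr 1 61 (.thr 13 5 (.thr 17 29 (.dbl 49 33 37))))))))) (.rp 9 (.thr 43 40 (.thr 59 8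 (.thr 11 27 (.thr 56 26 (.thr 57 58 (.thr 61 1 (.thr 29 17 (.thr 13 45 (.dbl 49 37 53))))))))) .nd))))) (.rp 27 (.str 37 (.nv (.thr 43 40 (.thr 47 32 (.thr 35 39 (.thr 45 33 (.dbl 44 38 46))))) (.nv (.thr 45 33 (.thr 53 5 (.thr 61 1 (.thr 49 57 (.dbl 13 25 29))))) (.rp 45 (.thr 5 53 (.thr 1 61 (.thr 13 9 (.thr 49 25 (.thr 33 17 (.thr 32 47 (.thr 35 34 (.thr 40 43 (.dbl 44 36 38))))))))) (.rp 33 (.thr 53 5 (.thr 61 1 (.thr 49 57 (.thr 13 25 (.thr 45 29 (.thr 47 32 (.thr 43 40 (.thr 35 39 (.dbl 44 38 46))))))))) .nd))))) (.rp 26 (.str 37 (.nv (.thr 40 43 (.thr 33 45 (.thr 32 47 (.thr 35 34 (.dbl 44 36 38))))) (.nv (.thr 53 5 (.thr 61 1 (.thr 49 57 (.thr 45 33 (.dbl 13 25 29))))) (.rp 45 (.thr 40 43 (.thr 32 47 (.thr 44 36 (.thr 35 38 (.thr 33 34 (.thr 1 61 (.thr 49 17 (.thr 5 53 (.dbl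 13 9 25))))))))) (.rp 33 (.thr 43 40 (.thr 47 32 (.thr 35 39 (.thr 44 38 (.thr 45 46 (.thr 61 1 (.thr 53 5 (.thr 49 57 (.dbl 13 25 29))))))))) (.rp 30 (.str 18 (.nv (.thr 40 43 (.thr 33 45 (.thr 32 47 (.thr 35 34 (.dbl 44 36 38))))) (.nv (.thr 53 5 (.thr 61 1 (.thr 49 57 (.thr 45 33 (.dbl 13 25 29))))) (.rp 45 (.thr 40 43 (.thr 32 47 (.thr 44 36 (.thr 35 38 (.thr 33 34 (.thr 1 61 (.thr 49 17 (.thr 5 53 (.dbl 13 9 25))))))))) (.rp 33 (.thr 43 40 (.thr 47 32 (.thr 35 39 (.thr 44 38 (.thr 45 46 (.thr 61 1 (.thr 53 5 (.thr 49 57 (.dbl 13 25 29))))))))) .nd))))) (.rp 18 (.str 30 (.nv (.thr 1 61 (.thr 33 45 (.thr 49 17 (.thr 13 25 (.dbl 5 9 53))))) (.nv (.thr 43 40 (.thr 45 33 (.thr 47 32 (.thr 35 39 (.dbl 44 38 46))))) (.rp 45 (.thr 5 53 (.thr 1 61 (.thr 13 9 (.thr 49 25 (.thr 33 17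 (.thr 32 47 (.thr 40 43 (.thr 44 36 (.dbl 35 34 38))))))))) (.rp 33 (.thr 53 5 (.thr 61 1 (.thr 49 57 (.thr 13 25 (.thr 45 29 (.thr 47 32 (.thr 46 44 (.thr 14 62 (.dbl 15 12 60))))))))) .nd))))) .nd))))))) (.rp 25 .ext (.rp 24 (.str 37 (.nv (.thr 40 43 (.thr 33 45 (.thr 32 47 (.thr 35 34 (.dbl 44 36 38))))) (.nv (.thr 53 5 (.thr 61 1 (.thr 49 57 (.thr 45 33 (.dbl 13 25 29))))) (.rp 45 (.thr 40 43 (.thr 32 47 (.thr 44 36 (.thr 35 38 (.thr 33 34 (.thr 1 61 (.thr 49 17 (.thr 5 53 (.dbl 13 9 25))))))))) (.rp 33 (.thr 43 40 (.thr 47 32 (.thr 35 39 (.thr 44 38 (.thr 45 46 (.thr 61 1 (.thr 53 5 (.thr 49 57 (.dbl 13 25 29))))))))) .nd))))) (.rp 23 (.str 37 (.nv (.thr 1 61 (.thr 5 53 (.thr 13 9 (.thr 33 45 (.dbl 49 17 25))))) (.nv (.thr 43 40 (.thr 47 32 (.thr 35 39 (.thr 45 33 (.dbl 44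 38 46))))) (.rp 45 (.thr 5 53 (.thr 1 61 (.thr 13 9 (.thr 49 25 (.thr 33 17 (.thr 32 47 (.thr 35 34 (.thr 44 38 (.dbl 40 36 43))))))))) (.rp 43 (.str 3 (.nv (.thr 1 61 (.thr 0 2 (.thr 5 53 (.thr 15 10 (.thr 11 7 (.dbl 26 48 56)))))) (.nv (.thr 32 47 (.thr 33 45 (.thr 48 18 (.thr 16 0 (.dbl 26 15 31))))) (.nv (.thr 45 33 (.thr 53 5 (.thr 61 1 (.thr 49 57 (.dbl 13 25 29))))) .nd)))) (.rp 33 (.thr 53 5 (.thr 61 1 (.thr 49 57 (.thr 13 25 (.thr 45 29 (.thr 47 32 (.thr 43 40 (.thr 35 39 (.dbl 44 38 46))))))))) .nd)))))) (.rp 20 (.str 37 (.nv (.thr 40 43 (.thr 33 45 (.thr 32 47 (.thr 35 34 (.dbl 44 36 38))))) (.nv (.thr 53 5 (.thr 61 1 (.thr 49 57 (.thr 45 33 (.dbl 13 25 29))))) (.rp 45 (.thr 40 43 (.thr 32 47 (.thr 44 36 (.thr 35 38 (.thr 33 34 (.thr 1 61 (.thr 49 17 (.thr 5 53 (.dbl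 13 9 25))))))))) (.rp 33 (.thr 43 40 (.thr 47 32 (.thr 35 39 (.thr 44 38 (.thr 45 46 (.thr 61 1 (.thr 53 5 (.thr 49 57 (.dbl 13 25 29))))))))) .nd))))) (.rp 19 (.str 25 (.nv (.thr 17 29 (.thr 9 57 (.thr 1 61 (.thr 13 5 (.dbl 49 33 37))))) (.nv (.thr 43 40 (.thr 59 8 (.thr 11 27 (.thr 57 9 (.dbl 56 26 58))))) (.rp 57 (.thr 17 29 (.thr 1 61 (.thr 49 33 (.thr 13 37 (.thr 9 5 (.thr 8 59 (.thr 11 10 (.thr 40 43 (.dbl 56 24 26))))))))) (.rp 9 (.thr 29 17 (.thr 61 1 (.thr 13 45 (.thr 49 37 (.thr 57 53 (.thr 59 8 (.thr 43 40 (.thr 11 27 (.dbl 56 26 58))))))))) .nd))))) (.rp 18 (.str 25 (.nv (.thr 17 29 (.thr 9 57 (.thr 1 61 (.thr 13 5 (.dbl 49 33 37))))) (.nv (.thr 43 40 (.thr 59 8 (.thr 11 27 (.thr 57 9 (.dbl 56 26 58))))) (.rp 57 (.thr 17 29 (.thr 1 61 (.thr 49 33 (.thr 13 37 (.thr 9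 5 (.thr 8 59 (.thr 11 10 (.thr 40 43 (.dbl 56 24 26))))))))) (.rp 30 (.str 26 (.nv (.thr 24 27 (.thr 40 43 (.dbl 8 56 59))) (.nv (.thr 1 61 (.thr 9 57 (.thr 13 5 (.thr 17 29 (.dbl 49 33 37))))) (.nv (.thr 9 57 (.thr 11 56 (.dbl 8 10 59))) .nd)))) (.rp 26 (.str 30 (.nv (.thr 17 29 (.thr 9 57 (.thr 1 61 (.thr 13 5 (.dbl 49 33 37))))) (.nv (.thr 29 17 (.thr 61 1 (.thr 13 45 (.thr 57 9 (.dbl 49 37 53))))) (.rp 61 (.str 60 (.nv (.thr 9 57 (.thr 15 45 (.thr 40 43 (.thr 0 20 (.thr 10 5 (.dbl 8 11 59)))))) (.nv (.thr 8 59 (.thr 40 43 (.thr 0 20 (.thr 12 4 (.thr 44 28 (.dbl 38 35 51)))))) (.nv (.thr 17 29 (.thr 57 9 (.thr 51 54 (.thr 34 0 (.dbl 38 12 46))))) (.rp 0 (.thr 57 9 (.thr 29 17 (.thr 28 31 (.thr 12 44 (.dbl 51 38 54))))) .nd))))) (.rp 57 (.thr 40 43 (.thr 8 59 (.thr 61 1 (.thr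 29 17 (.thr 45 13 (.thr 60 15 (.thr 0 20 (.thr 12 4 (.dbl 28 31 44))))))))) (.rp 53 (.thr 9 57 (.thr 17 29 (.thr 1 61 (.thr 49 33 (.dbl 13 5 37))))) (.rp 49 (.str 12 (.nv (.thr 29 17 (.thr 28 31 (.thr 44 60 (.dbl 38 35 51)))) (.nv (.thr 8 59 (.thr 4 0 (.dbl 38 51 55))) (.rp 51 (.thr 40 43 (.thr 29 17 (.thr 28 31 (.thr 60 44 (.thr 0 20 (.dbl 8 4 59)))))) (.rp 38 (.thr 8 59 (.thr 0 4 (.thr 1 61 (.thr 3 2 (.dbl 9 6 57))))) .nd))))) (.rp 37 (.thr 9 57 (.thr 43 40 (.thr 8 59 (.thr 10 11 (.thr 61 1 (.thr 29 17 (.thr 45 13 (.thr 15 60 (.thr 28 31 (.thr 0 5 (.thr 12 4 (.thr 6 3 (.thr 14 2 (.thr 46 62 (.dbl 38 34 51))))))))))))))) (.rp 33 (.thr 57 9 (.thr 61 1 (.thr 29 17 (.thr 49 53 (.dbl 13 37 45))))) (.rp 29 (.str 12 (.nv (.thr 1 61 (.thr 9 57 (.thr 3 6 (.thr 0 2 (.dbl 8 4 59))))) (.nv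 (.thr 38 51 (.thr 44 35 (.thr 60 28 (.thr 45 15 (.dbl 46 34 47))))) (.nv (.thr 8 59 (.thr 4 0 (.dbl 38 51 55))) (.rp 59 (.thr 9 57 (.thr 1 61 (.thr 3 6 (.thr 0 2 (.thr 4 8 (.dbl 38 51 55)))))) (.rp 38 (.thr 9 57 (.thr 8 59 (.thr 0 4 (.thr 1 61 (.dbl 3 2 6))))) .nd)))))) (.rp 17 (.thr 9 57 (.thr 8 59 (.thr 10 11 (.thr 1 61 (.thr 5 13 (.thr 0 15 (.thr 12 4 (.dbl 3 2 6)))))))) (.rp 13 (.str 12 (.nv (.thr 29 17 (.thr 28 31 (.thr 44 60 (.dbl 38 35 51)))) (.nv (.thr 8 59 (.thr 4 0 (.dbl 38 51 55))) (.rp 51 (.thr 9 57 (.thr 1 61 (.thr 3 6 (.thr 0 2 (.dbl 8 4 59))))) (.rp 38 (.thr 9 57 (.thr 8 59 (.thr 0 4 (.thr 1 61 (.dbl 3 2 6))))) .nd))))) (.rp 9 (.str 12 (.nv (.thr 29 17 (.thr 28 31 (.thr 60 44 (.thr 61 1 (.dbl 45 13 15))))) (.nv (.thr 8 59 (.thr 4 0 (.dbl 38 51 55))) .nd))) (.rp 1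 (.str 12 (.nv (.thr 29 17 (.thr 28 31 (.thr 44 60 (.dbl 38 35 51)))) (.nv (.thr 8 59 (.thr 4 0 (.dbl 38 51 55))) (.rp 51 (.thr 40 43 (.thr 29 17 (.thr 28 31 (.thr 60 44 (.thr 0 20 (.dbl 8 4 59)))))) (.rp 38 (.thr 40 43 (.thr 8 59 (.thr 0 4 (.thr 60 20 (.thr 28 44 (.dbl 29 17 31)))))) .nd))))) .nd)))))))))))))) (.rp 9 (.thr 29 17 (.thr 61 1 (.thr 13 45 (.thr 49 37 (.thr 57 53 (.thr 59 8 (.thr 43 40 (.thr 11 27 (.dbl 56 26 58))))))))) .nd))))))) (.rp 17 (.thr 43 40 (.str 37 (.nv (.thr 47 32 (.thr 35 39 (.thr 44 38 (.dbl 45 33 46)))) (.nv (.thr 45 33 (.thr 53 5 (.thr 61 1 (.thr 49 57 (.dbl 13 25 29))))) (.nv (.thr 45 33 (.thr 47 32 (.thr 35 39 (.dbl 44 38 46)))) (.rp 45 (.str 11 (.nv (.thr 53 5 (.thr 59 27 (.thr 61 1 (.thr 49 57 (.dbl 25 8 13))))) (.nv (.thr 1 61 (.thr 26 56 (.thr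 15 48 (.thr 3 7 (.thr 0 2 (.dbl 5 10 53)))))) (.nv (.thr 59 27 (.thr 25 8 (.thr 57 9 (.dbl 56 26 58)))) (.rp 8 (.thr 59 27 (.thr 53 5 (.thr 61 1 (.thr 56 26 (.dbl 57 49 58))))) .nd))))) (.rp 33 (.thr 53 5 (.thr 61 1 (.thr 49 57 (.thr 13 25 (.thr 45 29 (.thr 47 32 (.thr 35 39 (.dbl 44 38 46)))))))) .nd))))))) (.rp 16 (.str 37 (.nv (.thr 40 43 (.thr 33 45 (.thr 32 47 (.thr 35 34 (.dbl 44 36 38))))) (.nv (.thr 53 5 (.thr 61 1 (.thr 49 57 (.thr 45 33 (.dbl 13 25 29))))) (.rp 45 (.thr 40 43 (.thr 32 47 (.thr 44 36 (.thr 35 38 (.thr 33 34 (.thr 1 61 (.thr 49 17 (.thr 5 53 (.dbl 13 9 25))))))))) (.rp 33 (.thr 43 40 (.thr 47 32 (.thr 35 39 (.thr 44 38 (.thr 45 46 (.thr 61 1 (.thr 53 5 (.thr 49 57 (.dbl 13 25 29))))))))) .nd))))) (.rp 15 (.str 25 (.nv (.thr 8 59 (.thr 9 57 (.thr 11 10 (.thr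 40 43 (.dbl 56 24 26))))) (.nv (.thr 29 17 (.thr 61 1 (.thr 13 45 (.thr 57 9 (.dbl 49 37 53))))) (.rp 57 (.thr 40 43 (.thr 8 59 (.thr 56 24 (.thr 11 26 (.thr 9 10 (.thr 1 61 (.thr 17 29 (.thr 49 33 (.dbl 13 5 37))))))))) (.rp 47 (.str 31 (.nv (.thr 26 16 (.thr 24 27 (.thr 40 43 (.dbl 8 56 59)))) (.nv (.thr 1 61 (.thr 9 57 (.thr 17 29 (.thr 49 33 (.dbl 13 5 37))))) (.nv (.thr 9 57 (.thr 26 16 (.thr 11 56 (.dbl 8 10 59)))) .nd)))) (.rp 31 (.str 47 (.nv (.thr 1 61 (.thr 8 59 (.thr 9 57 (.thr 11 10 (.thr 40 43 (.dbl 56 24 26)))))) (.nv (.thr 43 40 (.thr 35 39 (.thr 37 32 (.thr 45 33 (.dbl 44 38 46))))) (.nv (.thr 9 57 (.thr 37 32 (.thr 13 49 (.dbl 1 5 61)))) .nd)))) (.rp 9 (.thr 43 40 (.thr 59 8 (.thr 11 27 (.thr 56 26 (.thr 57 58 (.thr 61 1 (.thr 29 17 (.thr 13 45 (.dbl 49 37 53)))))))))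 .nd))))))) (.rp 14 (.str 37 (.nv (.thr 1 61 (.thr 5 53 (.thr 13 9 (.thr 33 45 (.dbl 49 17 25))))) (.nv (.thr 43 40 (.thr 47 32 (.thr 35 39 (.thr 45 33 (.dbl 44 38 46))))) (.rp 45 (.thr 5 53 (.thr 1 61 (.thr 13 9 (.thr 49 25 (.thr 33 17 (.thr 32 47 (.thr 35 34 (.thr 40 43 (.dbl 44 36 38))))))))) (.rp 33 (.thr 53 5 (.thr 61 1 (.thr 49 57 (.thr 13 25 (.thr 45 29 (.thr 47 32 (.thr 43 40 (.thr 35 39 (.dbl 44 38 46))))))))) .nd))))) (.rp 13 (.str 33 (.nv (.thr 37 45 (.thr 61 1 (.thr 32 47 (.thr 35 34 (.thr 44 38 (.dbl 40 36 43)))))) (.nv (.thr 37 45 (.thr 32 47 (.thr 35 34 (.thr 40 43 (.dbl 44 36 38))))) (.rp 61 (.str 29 (.nv (.thr 25 17 (.thr 8 59 (.thr 9 57 (.thr 11 10 (.thr 56 26 (.dbl 40 24 43)))))) (.nv (.thr 40 43 (.thr 37 45 (.thr 32 47 (.thr 44 36 (.dbl 35 34 38))))) (.rp 62 (.str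 60 (.nv (.thr 25 17 (.thr 57 9 (.thr 51 54 (.thr 38 12 (.thr 34 46 (.dbl 35 32 44)))))) (.nv (.thr 25 17 (.thr 8 59 (.thr 9 57 (.thr 11 10 (.thr 56 26 (.dbl 40 24 43)))))) (.nv (.thr 40 43 (.thr 37 45 (.thr 32 47 (.thr 44 36 (.dbl 35 34 38))))) .nd)))) (.rp 60 (.str 62 (.nv (.thr 25 17 (.thr 43 40 (.thr 57 9 (.thr 59 8 (.thr 11 27 (.dbl 56 26 58)))))) (.nv (.thr 40 43 (.thr 37 45 (.thr 32 47 (.thr 44 36 (.dbl 35 34 38))))) (.rp 43 (.thr 37 45 (.thr 25 17 (.thr 9 57 (.thr 8 59 (.thr 32 47 (.thr 35 34 (.thr 44 38 (.thr 40 36 (.thr 56 24 (.dbl 11 10 26)))))))))) (.rp 40 (.thr 37 45 (.thr 17 25 (.thr 5 53 (.thr 32 47 (.thr 34 35 (.thr 0 51 (.thr 48 16 (.dbl 15 10 26)))))))) .nd))))) (.rp 43 (.thr 37 45 (.thr 25 17 (.thr 9 57 (.thr 8 59 (.thr 32 47 (.thr 35 34 (.thr 44 38 (.thr 40 36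 (.thr 56 24 (.dbl 11 10 26)))))))))) (.rp 40 (.thr 37 45 (.thr 17 25 (.thr 5 53 (.thr 32 47 (.thr 34 35 (.thr 0 51 (.thr 48 16 (.dbl 15 10 26)))))))) .nd))))))) (.rp 47 (.thr 45 37 (.thr 1 61 (.thr 17 49 (.thr 25 29 (.thr 57 9 (.thr 59 8 (.thr 43 40 (.thr 11 27 (.dbl 56 26 58))))))))) (.rp 46 (.thr 37 45 (.thr 40 43 (.thr 32 47 (.thr 44 36 (.dbl 35 34 38))))) (.rp 45 (.thr 61 1 (.str 35 (.nv (.thr 32 34 (.thr 43 40 (.dbl 47 37 39))) (.nv (.thr 34 32 (.dbl 38 44 46)) (.rp 34 (.thr 43 40 (.str 25 (.nv (.thr 38 44 (.thr 51 12 (.thr 59 8 (.thr 27 11 (.dbl 39 15 47))))) (.nv (.thr 59 8 (.thr 11 27 (.thr 56 26 (.dbl 57 9 58)))) (.rp 59 (.thr 9 57 (.thr 38 44 (.thr 55 4 (.thr 12 51 (.thr 3 6 (.thr 48 18 (.thr 36 24 (.dbl 39 37 47)))))))) (.rp 56 (.thr 38 44 (.thr 51 12 (.thr 3 19 (.thr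 48 18 (.thr 50 49 (.thr 26 14 (.thr 15 37 (.dbl 27 24 39)))))))) (.rp 27 (.thr 9 57 (.thr 38 44 (.thr 12 51 (.thr 3 6 (.thr 48 18 (.thr 36 24 (.dbl 39 37 47))))))) (.rp 24 (.thr 47 39 (.thr 9 57 (.thr 37 32 (.thr 5 53 (.thr 8 59 (.thr 10 11 (.thr 15 0 (.dbl 26 48 58)))))))) (.rp 11 (.thr 9 57 (.thr 38 44 (.thr 12 51 (.thr 3 6 (.thr 48 18 (.thr 36 24 (.dbl 39 37 47))))))) (.rp 9 (.str 5 (.nv (.thr 47 39 (.dbl 37 32 53)) (.rp 53 (.thr 59 8 (.thr 11 27 (.thr 38 44 (.thr 4 55 (.thr 7 6 (.thr 3 15 (.dbl 51 12 19))))))) (.rp 47 (.thr 53 37 (.thr 57 49 (.thr 59 8 (.thr 11 27 (.dbl 56 26 58))))) (.rp 39 (.thr 53 37 (.thr 57 49 (.thr 59 8 (.thr 11 27 (.dbl 56 26 58))))) (.rp 37 (.thr 59 8 (.thr 11 27 (.thr 38 44 (.thr 4 55 (.thr 7 6 (.thr 3 15 (.dbl 51 12 19))))))) (.rp 32 (.thr 39 47 (.thr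 37 53 (.dbl 38 36 44))) .nd))))))) (.rp 8 (.thr 38 44 (.thr 51 12 (.thr 3 19 (.thr 48 18 (.thr 50 49 (.thr 26 14 (.thr 15 37 (.dbl 11 7 56)))))))) (.rp 5 (.thr 9 57 (.thr 59 8 (.thr 27 11 (.thr 38 44 (.thr 51 12 (.dbl 39 15 47)))))) .nd)))))))))))) (.rp 32 (.thr 38 44 (.thr 55 4 (.thr 46 34 (.str 25 (.nv (.thr 9 57 (.thr 8 59 (.thr 11 10 (.thr 56 26 (.dbl 40 24 43))))) (.nv (.thr 8 59 (.thr 9 57 (.thr 12 51 (.thr 3 6 (.thr 48 18 (.thr 24 36 (.dbl 40 43 56))))))) (.nv (.thr 40 43 (.thr 8 59 (.thr 56 24 (.thr 9 57 (.dbl 11 10 26))))) (.rp 59 (.thr 51 12 (.thr 3 19 (.thr 48 18 (.thr 50 49 (.thr 26 14 (.thr 15 37 (.dbl 27 24 39))))))) (.rp 57 (.thr 51 12 (.thr 3 19 (.thr 48 18 (.thr 50 49 (.thr 26 14 (.thr 15 37 (.dbl 27 24 39))))))) (.rp 56 (.thr 51 12 (.thr 3 19 (.thr 48 18 (.thr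 50 49 (.thr 26 14 (.thr 15 37 (.dbl 27 24 39))))))) (.rp 43 (.thr 51 12 (.thr 3 19 (.thr 48 18 (.thr 50 49 (.thr 26 14 (.thr 15 37 (.dbl 27 24 39))))))) (.rp 40 (.str 36 (.nv (.thr 9 57 (.thr 12 51 (.thr 17 29 (.thr 48 24 (.dbl 3 6 18))))) (.nv (.thr 39 37 (.thr 43 47 (.thr 59 8 (.thr 27 11 (.dbl 51 12 15))))) (.nv (.thr 9 57 (.thr 12 51 (.thr 3 6 (.dbl 48 18 24)))) (.rp 51 (.thr 39 37 (.thr 43 47 (.thr 59 8 (.thr 11 27 (.thr 56 26 (.dbl 57 9 58)))))) (.rp 24 (.thr 39 37 (.thr 51 12 (.thr 3 19 (.thr 7 23 (.dbl 15 11 27))))) (.rp 12 (.thr 37 39 (.thr 8 59 (.thr 5 53 (.thr 9 57 (.thr 10 11 (.thr 15 0 (.dbl 26 48 58))))))) (.rp 9 (.str 5 (.nv (.dbl 37 39 53) (.rp 53 (.thr 39 37 (.thr 51 12 (.thr 7 23 (.thr 3 19 (.dbl 15 11 27))))) (.rp 39 (.thr 53 37 (.thr 57 49 (.thr 51 12 (.dbl 54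 52 60)))) (.rp 37 (.thr 12 51 (.thr 17 29 (.thr 48 24 (.thr 18 3 (.thr 16 19 (.thr 26 31 (.thr 56 11 (.thr 52 60 (.thr 53 54 (.thr 57 49 (.dbl 59 8 58))))))))))) .nd))))) .nd)))))))) (.rp 26 (.thr 8 59 (.thr 51 12 (.thr 9 57 (.thr 3 19 (.thr 11 10 (.thr 15 7 (.thr 39 27 (.dbl 43 40 47)))))))) (.rp 24 (.thr 51 12 (.thr 3 19 (.thr 48 18 (.thr 50 49 (.thr 26 14 (.thr 15 37 (.dbl 11 7 56))))))) (.rp 9 (.str 5 (.nv (.thr 8 59 (.thr 37 53 (.thr 36 39 (.thr 40 43 (.thr 24 56 (.dbl 12 48 51)))))) (.nv (.thr 53 37 (.thr 57 49 (.thr 51 12 (.dbl 54 52 60)))) (.rp 57 (.thr 37 53 (.thr 51 12 (.thr 3 19 (.thr 48 18 (.thr 50 49 (.dbl 26 14 15)))))) (.rp 53 (.thr 51 12 (.thr 3 19 (.thr 48 18 (.thr 50 49 (.thr 26 14 (.thr 15 37 (.dbl 11 7 56))))))) (.rp 51 (.thr 53 37 (.thr 57 49 (.thr 59 8 (.thr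 56 58 (.thr 11 26 (.dbl 43 27 40)))))) (.rp 40 (.str 36 (.nv (.dbl 37 39 53) (.rp 53 (.thr 39 37 (.thr 51 12 (.thr 7 23 (.thr 3 19 (.dbl 15 11 27))))) (.rp 39 (.thr 53 37 (.thr 57 49 (.thr 51 12 (.dbl 54 52 60)))) (.rp 37 (.thr 12 51 (.thr 17 29 (.thr 48 24 (.thr 18 3 (.thr 16 19 (.thr 26 31 (.thr 56 11 (.thr 52 60 (.thr 53 54 (.thr 57 49 (.dbl 59 8 58))))))))))) .nd))))) (.rp 37 (.thr 51 12 (.thr 3 19 (.thr 8 59 (.thr 40 43 (.thr 24 56 (.thr 48 18 (.thr 50 49 (.dbl 26 14 27)))))))) (.rp 36 (.thr 40 43 (.thr 53 37 (.thr 57 49 (.thr 51 12 (.dbl 54 52 60))))) (.rp 12 (.thr 37 53 (.thr 8 59 (.thr 39 36 (.thr 40 43 (.thr 23 7 (.thr 24 56 (.thr 27 26 (.thr 19 31 (.dbl 51 3 15))))))))) (.rp 8 (.thr 17 29 (.thr 37 53 (.thr 12 51 (.thr 36 39 (.thr 48 24 (.thr 18 3 (.thr 16 19 (.dbl 26 15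 31)))))))) (.rp 3 (.thr 53 37 (.thr 57 49 (.thr 59 8 (.thr 56 58 (.thr 11 26 (.dbl 43 27 40)))))) .nd)))))))))))) (.rp 8 (.thr 12 51 (.thr 9 57 (.thr 3 6 (.thr 48 18 (.thr 36 24 (.thr 39 37 (.dbl 43 40 47))))))) .nd)))))))))))))))) (.rp 9 (.str 5 (.nv (.thr 37 53 (.thr 43 40 (.dbl 47 32 39))) (.nv (.thr 34 32 (.dbl 38 44 46)) (.rp 32 (.thr 37 53 (.thr 43 40 (.thr 39 47 (.dbl 38 36 44)))) .nd)))) (.rp 5 (.str 9 (.nv (.thr 32 34 (.thr 43 40 (.dbl 47 37 39))) (.nv (.thr 34 32 (.dbl 38 44 46)) (.rp 34 (.thr 25 57 (.thr 8 59 (.thr 11 10 (.thr 40 43 (.dbl 56 24 26))))) (.rp 32 (.thr 25 57 (.thr 8 59 (.thr 11 10 (.thr 40 43 (.dbl 56 24 26))))) .nd))))) .nd)))))))) (.rp 44 (.thr 45 37 (.thr 1 61 (.thr 17 49 (.thr 25 29 (.thr 57 9 (.thr 59 8 (.thr 43 40 (.thr 11 27 (.dbl 56 26 58)))))))))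 (.rp 43 (.str 3 (.nv (.thr 1 61 (.thr 0 2 (.thr 48 18 (.thr 32 16 (.dbl 37 45 47))))) (.nv (.thr 1 61 (.thr 0 2 (.thr 17 49 (.thr 51 34 (.thr 35 19 (.thr 38 44 (.dbl 25 12 29))))))) (.nv (.thr 37 45 (.thr 32 47 (.thr 48 18 (.thr 16 0 (.dbl 26 15 31))))) (.rp 61 (.str 17 (.nv (.thr 18 48 (.thr 29 25 (.thr 37 45 (.thr 19 16 (.thr 32 47 (.dbl 35 34 51)))))) (.nv (.thr 1 49 (.thr 0 2 (.thr 25 29 (.thr 45 37 (.thr 8 59 (.thr 12 4 (.dbl 9 6 57))))))) (.nv (.thr 48 18 (.thr 49 1 (.thr 51 50 (.thr 34 0 (.dbl 35 19 32))))) (.rp 62 (.str 60 (.nv (.thr 1 49 (.thr 0 2 (.thr 51 34 (.thr 57 54 (.dbl 25 9 29))))) (.nv (.thr 48 18 (.thr 56 52 (.thr 26 11 (.dbl 37 15 45)))) (.rp 45 (.thr 29 25 (.thr 49 1 (.thr 48 18 (.thr 51 50 (.thr 34 0 (.dbl 35 19 32)))))) (.rp 37 (.thr 49 1 (.thr 48 18 (.thr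 51 50 (.thr 34 0 (.dbl 35 19 32))))) (.rp 29 (.thr 45 37 (.thr 49 1 (.thr 48 18 (.thr 51 50 (.thr 34 0 (.dbl 35 19 32)))))) (.rp 18 (.thr 1 49 (.thr 0 2 (.thr 34 51 (.thr 32 35 (.dbl 37 45 47))))) .nd))))))) (.rp 60 (.str 62 (.nv (.thr 18 48 (.thr 29 25 (.thr 37 45 (.thr 19 16 (.thr 32 47 (.dbl 35 34 51)))))) (.nv (.thr 1 49 (.thr 0 2 (.thr 25 29 (.thr 45 37 (.thr 8 59 (.thr 12 4 (.dbl 9 6 57))))))) (.nv (.thr 49 1 (.thr 48 18 (.thr 51 50 (.thr 34 0 (.dbl 35 19 32))))) (.rp 51 (.thr 1 49 (.thr 48 18 (.thr 0 2 (.thr 32 16 (.dbl 37 45 47))))) (.rp 45 (.thr 29 25 (.thr 49 1 (.thr 48 18 (.thr 51 50 (.thr 34 0 (.dbl 35 19 32)))))) (.rp 29 (.thr 45 37 (.thr 49 1 (.thr 48 18 (.thr 51 50 (.thr 35 19 (.dbl 34 0 32)))))) .nd))))))) (.rp 51 (.thr 1 49 (.thr 0 2 (.thr 48 18 (.thr 32 16 (.dbl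 37 45 47))))) (.rp 45 (.thr 29 25 (.thr 49 1 (.thr 48 18 (.thr 51 50 (.thr 34 0 (.dbl 35 19 32)))))) (.rp 29 (.thr 45 37 (.thr 49 1 (.thr 48 18 (.thr 51 50 (.thr 35 19 (.dbl 34 0 32)))))) .nd))))))))) (.rp 45 (.str 17 (.nv (.dbl 1 49 61) (.rp 61 (.thr 29 25 (.thr 49 1 (.thr 48 18 (.thr 51 50 (.thr 34 0 (.dbl 35 19 32)))))) (.rp 49 (.thr 18 48 (.thr 19 16 (.thr 51 35 (.thr 0 34 (.dbl 1 2 61))))) (.rp 29 (.thr 61 1 (.thr 18 48 (.thr 19 16 (.thr 35 51 (.thr 38 44 (.dbl 34 32 46)))))) (.rp 1 (.thr 18 48 (.thr 19 16 (.thr 35 51 (.thr 38 44 (.dbl 34 32 46))))) .nd)))))) (.rp 37 (.thr 1 61 (.thr 2 0 (.thr 18 48 (.thr 34 50 (.thr 38 46 (.dbl 35 32 44)))))) (.rp 29 (.thr 37 45 (.thr 61 1 (.thr 32 47 (.thr 48 18 (.thr 16 0 (.dbl 26 15 31)))))) (.rp 18 (.thr 1 61 (.thr 17 49 (.thr 0 2 (.thr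 34 51 (.thr 38 46 (.dbl 35 32 44)))))) (.rp 0 (.thr 37 45 (.thr 32 47 (.thr 35 34 (.thr 18 48 (.thr 19 51 (.thr 17 16 (.dbl 1 49 61))))))) .nd)))))))))) (.rp 40 (.thr 1 61 (.thr 17 49 (.thr 37 45 (.thr 29 25 (.thr 32 47 (.thr 34 35 (.thr 0 51 (.thr 3 2 (.dbl 48 16 18))))))))) (.rp 38 (.thr 45 37 (.thr 1 61 (.thr 17 49 (.thr 25 29 (.thr 57 9 (.thr 59 8 (.thr 43 40 (.thr 11 27 (.dbl 56 26 58))))))))) (.rp 37 (.thr 43 40 (.str 25 (.nv (.thr 59 8 (.thr 11 27 (.thr 56 26 (.dbl 57 9 58)))) (.nv (.thr 17 29 (.dbl 1 49 61)) (.rp 52 (.str 7 (.nv (.thr 59 8 (.thr 11 27 (.thr 56 26 (.dbl 57 9 58)))) (.nv (.thr 17 29 (.dbl 1 49 61)) .nd))) (.rp 7 (.str 52 (.nv (.thr 59 8 (.thr 11 27 (.thr 56 26 (.dbl 57 9 58)))) (.nv (.thr 1 61 (.dbl 17 29 49)) .nd))) .nd)))))) (.rp 36 (.thr 45 37 (.thr 1 61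 (.thr 17 49 (.thr 25 29 (.thr 57 9 (.thr 59 8 (.thr 43 40 (.thr 11 27 (.dbl 56 26 58))))))))) (.rp 35 (.thr 45 37 (.thr 1 61 (.thr 17 49 (.thr 25 29 (.thr 57 9 (.thr 59 8 (.thr 43 40 (.thr 11 27 (.dbl 56 26 58))))))))) (.rp 34 (.thr 45 37 (.thr 1 61 (.thr 17 49 (.thr 25 29 (.thr 57 9 (.thr 59 8 (.thr 43 40 (.thr 11 27 (.dbl 56 26 58))))))))) (.rp 32 (.thr 45 37 (.thr 1 61 (.thr 17 49 (.thr 25 29 (.thr 57 9 (.thr 59 8 (.thr 43 40 (.thr 11 27 (.dbl 56 26 58))))))))) (.rp 31 (.thr 45 37 (.thr 1 61 (.thr 17 49 (.thr 25 29 (.thr 57 9 (.thr 59 8 (.thr 43 40 (.thr 11 27 (.dbl 56 26 58))))))))) (.rp 15 (.thr 45 37 (.thr 1 61 (.thr 17 49 (.thr 25 29 (.thr 57 9 (.thr 59 8 (.thr 43 40 (.thr 11 27 (.dbl 56 26 58))))))))) .nd)))))))))))))))))) (.rp 12 (.str 37 (.nv (.thr 1 61 (.thr 5 53 (.thr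 13 9 (.thr 33 45 (.dbl 49 17 25))))) (.nv (.thr 45 33 (.thr 43 40 (.thr 47 32 (.thr 35 39 (.dbl 44 38 46))))) (.rp 46 (.str 29 (.nv (.thr 1 61 (.thr 5 53 (.thr 9 13 (.dbl 25 17 57)))) (.nv (.thr 45 33 (.dbl 61 1 13)) (.rp 61 (.thr 33 45 (.thr 40 43 (.thr 32 47 (.thr 44 36 (.dbl 35 34 38))))) (.rp 13 (.thr 33 45 (.thr 17 25 (.dbl 1 49 61))) (.rp 1 (.thr 45 33 (.thr 13 61 (.dbl 25 17 49))) .nd)))))) (.rp 45 (.thr 40 43 (.thr 32 47 (.thr 44 36 (.thr 35 38 (.thr 33 34 (.thr 1 61 (.thr 5 53 (.thr 13 9 (.dbl 49 17 25))))))))) (.rp 33 (.str 29 (.nv (.thr 61 1 (.thr 13 45 (.dbl 25 17 49))) (.rp 61 (.thr 25 17 (.thr 57 9 (.thr 59 8 (.thr 56 58 (.thr 43 40 (.dbl 11 26 27)))))) (.rp 49 (.thr 47 32 (.thr 43 40 (.thr 35 39 (.thr 44 38 (.thr 45 46 (.dbl 61 1 13)))))) (.rp 45 (.thr 25 17 (.thr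 49 13 (.thr 57 9 (.dbl 61 1 53)))) (.rp 25 (.thr 61 1 (.thr 45 13 (.thr 47 32 (.thr 44 46 (.thr 43 40 (.dbl 35 38 39)))))) (.rp 17 (.thr 53 5 (.thr 61 1 (.thr 49 57 (.dbl 13 25 45)))) (.rp 13 (.thr 25 17 (.thr 57 9 (.thr 59 8 (.thr 56 58 (.thr 43 40 (.dbl 11 26 27)))))) (.rp 1 (.thr 25 17 (.thr 49 13 (.thr 9 57 (.thr 8 59 (.thr 40 43 (.thr 56 24 (.dbl 11 10 26))))))) .nd))))))))) (.rp 29 (.str 46 (.nv (.thr 32 47 (.thr 38 34 (.thr 36 39 (.dbl 40 43 44)))) (.nv (.thr 45 33 (.dbl 47 32 44)) (.rp 47 (.thr 33 45 (.thr 5 53 (.thr 1 61 (.thr 13 9 (.dbl 49 17 25))))) (.rp 44 (.thr 33 45 (.thr 34 38 (.dbl 32 35 47))) (.rp 32 (.thr 45 33 (.thr 44 47 (.dbl 38 34 35))) .nd)))))) .nd))))))) (.rp 11 (.str 37 (.nv (.thr 1 61 (.thr 5 53 (.thr 13 9 (.thr 33 45 (.dbl 49 17 25))))) (.nv (.thr 43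 40 (.thr 47 32 (.thr 35 39 (.thr 45 33 (.dbl 44 38 46))))) (.rp 45 (.thr 5 53 (.thr 1 61 (.thr 13 9 (.thr 49 25 (.thr 33 17 (.thr 32 47 (.thr 35 34 (.thr 40 43 (.dbl 44 36 38))))))))) (.rp 33 (.thr 53 5 (.thr 61 1 (.thr 49 57 (.thr 13 25 (.thr 45 29 (.thr 47 32 (.thr 43 40 (.thr 35 39 (.dbl 44 38 46))))))))) .nd))))) (.rp 10 (.str 37 (.nv (.thr 1 61 (.thr 5 53 (.thr 13 9 (.thr 33 45 (.dbl 49 17 25))))) (.nv (.thr 43 40 (.thr 47 32 (.thr 35 39 (.thr 45 33 (.dbl 44 38 46))))) (.rp 45 (.thr 5 53 (.thr 1 61 (.thr 13 9 (.thr 49 25 (.thr 33 17 (.thr 32 47 (.thr 35 34 (.thr 40 43 (.dbl 44 36 38))))))))) (.rp 33 (.thr 53 5 (.thr 61 1 (.thr 49 57 (.thr 13 25 (.thr 45 29 (.thr 47 32 (.thr 43 40 (.thr 35 39 (.dbl 44 38 46))))))))) .nd))))) (.rp 9 (.str 37 (.nv (.thr 45 33 (.thr 53 5 (.thr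 61 1 (.thr 13 29 (.dbl 49 25 57))))) (.nv (.thr 43 40 (.thr 47 32 (.thr 35 39 (.thr 45 33 (.dbl 44 38 46))))) (.rp 46 (.thr 33 45 (.thr 40 43 (.thr 32 47 (.thr 44 36 (.dbl 35 34 38))))) (.rp 45 (.str 35 (.nv (.thr 32 47 (.thr 34 33 (.dbl 38 44 46))) (.nv (.thr 47 32 (.dbl 43 39 40)) (.rp 47 (.thr 40 43 (.thr 38 44 (.thr 46 34 (.thr 4 55 (.thr 36 39 (.thr 20 52 (.thr 0 60 (.thr 12 8 (.thr 48 24 (.thr 15 26 (.dbl 5 10 53))))))))))) (.rp 32 (.thr 43 40 (.thr 39 47 (.dbl 38 36 44))) .nd))))) (.rp 33 (.str 11 (.nv (.thr 43 40 (.thr 47 32 (.thr 26 56 (.thr 15 48 (.thr 27 59 (.dbl 39 35 51)))))) (.nv (.thr 53 5 (.thr 43 40 (.thr 59 27 (.thr 56 26 (.thr 57 58 (.dbl 61 1 49)))))) (.nv (.thr 1 61 (.thr 26 56 (.thr 15 48 (.thr 3 7 (.thr 0 2 (.dbl 5 10 53)))))) (.rp 58 (.thr 32 47 (.thr 40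 43 (.thr 36 44 (.thr 56 26 (.thr 24 8 (.thr 48 12 (.thr 0 16 (.dbl 60 20 52)))))))) (.rp 56 (.thr 5 53 (.thr 61 1 (.thr 47 32 (.thr 43 40 (.thr 35 39 (.thr 59 27 (.thr 44 38 (.thr 45 46 (.thr 29 13 (.dbl 25 8 17)))))))))) (.rp 53 (.thr 47 32 (.thr 43 40 (.thr 27 59 (.thr 26 56 (.thr 58 10 (.thr 15 48 (.dbl 39 35 51))))))) (.rp 26 (.thr 61 1 (.thr 47 32 (.thr 43 40 (.thr 35 39 (.thr 59 27 (.thr 25 8 (.thr 44 38 (.thr 45 46 (.dbl 29 13 17))))))))) .nd)))))))) .nd)))))) (.rp 8 (.str 37 (.nv (.thr 45 33 (.thr 43 40 (.thr 47 32 (.thr 35 39 (.dbl 44 38 46))))) (.nv (.thr 45 33 (.thr 53 5 (.thr 61 1 (.thr 49 57 (.dbl 13 25 29))))) (.rp 45 (.thr 40 43 (.thr 32 47 (.thr 44 36 (.thr 35 38 (.thr 33 34 (.thr 1 61 (.thr 5 53 (.thr 13 9 (.dbl 49 17 25))))))))) (.rp 33 (.thr 43 40 (.thr 47 32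 (.thr 35 39 (.thr 44 38 (.thr 45 46 (.thr 61 1 (.thr 53 5 (.thr 49 57 (.dbl 13 25 29))))))))) .nd))))) (.rp 7 (.str 37 (.nv (.thr 1 61 (.thr 5 53 (.thr 13 9 (.thr 33 45 (.dbl 49 17 25))))) (.nv (.thr 43 40 (.thr 47 32 (.thr 35 39 (.thr 45 33 (.dbl 44 38 46))))) (.rp 45 (.thr 5 53 (.thr 1 61 (.thr 13 9 (.thr 49 25 (.thr 33 17 (.thr 32 47 (.thr 35 34 (.thr 40 43 (.dbl 44 36 38))))))))) (.rp 33 (.thr 53 5 (.thr 61 1 (.thr 49 57 (.thr 13 25 (.thr 45 29 (.thr 47 32 (.thr 43 40 (.thr 35 39 (.dbl 44 38 46))))))))) .nd))))) (.rp 6 (.str 37 (.nv (.thr 1 61 (.thr 5 53 (.thr 13 9 (.thr 33 45 (.dbl 49 17 25))))) (.nv (.thr 43 40 (.thr 47 32 (.thr 35 39 (.thr 45 33 (.dbl 44 38 46))))) (.rp 54 (.str 38 (.nv (.thr 36 39 (.thr 40 43 (.dbl 32 44 47))) (.nv (.thr 1 61 (.thr 5 53 (.thr 13 9 (.thr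 33 45 (.dbl 49 17 25))))) (.nv (.thr 33 45 (.thr 35 44 (.dbl 32 34 47))) .nd)))) (.rp 45 (.thr 5 53 (.thr 1 61 (.thr 13 9 (.thr 49 25 (.thr 33 17 (.thr 32 47 (.thr 35 34 (.thr 40 43 (.dbl 44 36 38))))))))) (.rp 38 (.str 54 (.nv (.thr 33 45 (.thr 5 53 (.thr 1 61 (.thr 13 9 (.dbl 49 17 25))))) (.nv (.thr 53 5 (.thr 61 1 (.thr 49 57 (.thr 45 33 (.dbl 13 25 29))))) (.rp 61 (.str 60 (.nv (.thr 33 45 (.thr 40 43 (.thr 0 20 (.thr 51 57 (.thr 34 17 (.dbl 32 35 47)))))) (.nv (.thr 32 47 (.thr 40 43 (.thr 0 20 (.thr 48 16 (.thr 56 52 (.dbl 26 11 15)))))) (.nv (.thr 5 53 (.thr 45 33 (.thr 15 30 (.thr 10 0 (.dbl 26 48 58))))) (.rp 0 (.thr 45 33 (.thr 53 5 (.thr 52 55 (.thr 48 56 (.dbl 15 26 30))))) .nd))))) (.rp 57 (.thr 33 45 (.thr 1 61 (.thr 49 17 (.thr 5 53 (.dbl 13 9 25))))) (.rp 53 (.str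 48 (.nv (.thr 1 61 (.thr 33 45 (.thr 3 18 (.thr 0 2 (.dbl 32 16 47))))) (.nv (.thr 26 15 (.thr 56 11 (.thr 60 52 (.thr 57 51 (.dbl 58 10 59))))) (.nv (.thr 32 47 (.thr 16 0 (.dbl 26 15 31))) (.rp 47 (.thr 33 45 (.thr 1 61 (.thr 3 18 (.thr 0 2 (.thr 16 32 (.dbl 26 15 31)))))) (.rp 26 (.thr 33 45 (.thr 32 47 (.thr 0 16 (.thr 1 61 (.dbl 3 2 18))))) .nd)))))) (.rp 49 (.str 48 (.nv (.thr 53 5 (.thr 52 55 (.thr 56 60 (.dbl 26 11 15)))) (.nv (.thr 32 47 (.thr 16 0 (.dbl 26 15 31))) (.rp 26 (.thr 33 45 (.thr 32 47 (.thr 0 16 (.thr 1 61 (.dbl 3 2 18))))) (.rp 15 (.thr 33 45 (.thr 1 61 (.thr 3 18 (.thr 0 2 (.dbl 32 16 47))))) .nd))))) (.rp 45 (.thr 40 43 (.thr 32 47 (.thr 61 1 (.thr 53 5 (.thr 57 49 (.thr 60 51 (.thr 0 20 (.thr 48 16 (.dbl 52 55 56))))))))) (.rp 33 (.str 48 (.nv (.thr 53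 5 (.thr 52 55 (.thr 56 60 (.dbl 26 11 15)))) (.nv (.thr 32 47 (.thr 16 0 (.dbl 26 15 31))) (.rp 26 (.thr 61 1 (.thr 53 5 (.thr 52 55 (.thr 60 56 (.dbl 57 49 51))))) (.rp 15 (.thr 61 1 (.thr 53 5 (.thr 52 55 (.thr 60 56 (.dbl 57 49 51))))) .nd))))) (.rp 25 (.thr 33 45 (.thr 43 40 (.thr 32 47 (.thr 34 35 (.thr 61 1 (.thr 53 5 (.thr 57 49 (.thr 51 60 (.thr 52 55 (.thr 0 17 (.thr 48 16 (.thr 18 3 (.thr 50 2 (.thr 58 62 (.dbl 26 10 15))))))))))))))) (.rp 13 (.str 48 (.nv (.thr 53 5 (.thr 52 55 (.thr 56 60 (.dbl 26 11 15)))) (.nv (.thr 32 47 (.thr 16 0 (.dbl 26 15 31))) (.rp 26 (.thr 32 47 (.thr 0 16 (.thr 1 61 (.thr 3 2 (.dbl 33 18 45))))) (.rp 15 (.thr 40 43 (.thr 53 5 (.thr 52 55 (.thr 60 56 (.thr 0 20 (.dbl 32 16 47)))))) .nd))))) (.rp 9 (.thr 45 33 (.thr 61 1 (.thr 53 5 (.thr 13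 29 (.dbl 49 25 57))))) (.rp 5 (.thr 33 45 (.thr 32 47 (.thr 34 35 (.thr 1 61 (.thr 17 49 (.thr 0 51 (.thr 48 16 (.dbl 3 2 18)))))))) (.rp 1 (.str 48 (.nv (.thr 53 5 (.thr 52 55 (.thr 56 60 (.dbl 26 11 15)))) (.nv (.thr 32 47 (.thr 16 0 (.dbl 26 15 31))) (.rp 26 (.thr 40 43 (.thr 32 47 (.thr 0 16 (.thr 60 20 (.thr 52 56 (.dbl 53 5 55)))))) (.rp 15 (.thr 40 43 (.thr 53 5 (.thr 52 55 (.thr 60 56 (.thr 0 20 (.dbl 32 16 47)))))) .nd))))) .nd)))))))))))))) (.rp 33 (.thr 53 5 (.thr 61 1 (.thr 49 57 (.thr 13 25 (.thr 45 29 (.thr 47 32 (.thr 43 40 (.thr 35 39 (.dbl 44 38 46))))))))) .nd))))))) (.rp 5 (.thr 43 40 (.str 25 (.nv (.thr 59 8 (.thr 11 27 (.thr 56 26 (.dbl 57 9 58)))) (.nv (.thr 29 17 (.thr 57 9 (.thr 61 1 (.thr 13 45 (.dbl 49 37 53))))) (.nv (.thr 57 9 (.thr 59 8 (.thr 11 27 (.dbl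 56 26 58)))) (.rp 57 (.str 35 (.nv (.thr 29 17 (.thr 47 39 (.thr 61 1 (.thr 13 45 (.dbl 37 32 49))))) (.nv (.thr 1 61 (.thr 38 44 (.thr 51 12 (.thr 3 19 (.thr 0 2 (.dbl 17 29 34)))))) (.nv (.thr 47 39 (.thr 37 32 (.thr 45 33 (.dbl 44 38 46)))) (.rp 32 (.thr 47 39 (.thr 29 17 (.thr 61 1 (.thr 44 38 (.dbl 45 13 46))))) .nd))))) (.rp 9 (.thr 29 17 (.thr 61 1 (.thr 13 45 (.thr 49 37 (.thr 57 53 (.thr 59 8 (.thr 11 27 (.dbl 56 26 58)))))))) .nd))))))) (.rp 4 (.str 25 (.nv (.thr 8 59 (.thr 9 57 (.thr 11 10 (.thr 40 43 (.dbl 56 24 26))))) (.nv (.thr 29 17 (.thr 61 1 (.thr 13 45 (.thr 57 9 (.dbl 49 37 53))))) (.rp 57 (.thr 40 43 (.thr 8 59 (.thr 56 24 (.thr 11 26 (.thr 9 10 (.thr 1 61 (.thr 13 5 (.thr 17 29 (.dbl 49 33 37))))))))) (.rp 9 (.thr 43 40 (.thr 59 8 (.thr 11 27 (.thr 56 26 (.thr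 57 58 (.thr 61 1 (.thr 29 17 (.thr 13 45 (.dbl 49 37 53))))))))) .nd))))) (.rp 3 (.str 37 (.nv (.thr 1 61 (.thr 33 45 (.thr 49 17 (.thr 13 25 (.dbl 5 9 53))))) (.nv (.thr 43 40 (.thr 47 32 (.thr 35 39 (.thr 45 33 (.dbl 44 38 46))))) (.rp 45 (.thr 5 53 (.thr 1 61 (.thr 13 9 (.thr 49 25 (.thr 33 17 (.thr 32 47 (.thr 35 34 (.thr 44 38 (.dbl 40 36 43))))))))) (.rp 43 .ext (.rp 33 (.thr 53 5 (.thr 61 1 (.thr 49 57 (.thr 13 25 (.thr 45 29 (.thr 47 32 (.thr 43 40 (.thr 35 39 (.dbl 44 38 46))))))))) .nd)))))) (.rp 2 (.str 37 (.nv (.thr 1 61 (.thr 5 53 (.thr 13 9 (.thr 33 45 (.dbl 49 17 25))))) (.nv (.thr 43 40 (.thr 47 32 (.thr 35 39 (.thr 45 33 (.dbl 44 38 46))))) (.rp 45 (.thr 5 53 (.thr 1 61 (.thr 13 9 (.thr 49 25 (.thr 33 17 (.thr 32 47 (.thr 35 34 (.thr 40 43 (.dbl 44 36 38)))))))))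 (.rp 33 (.thr 53 5 (.thr 61 1 (.thr 49 57 (.thr 13 25 (.thr 45 29 (.thr 47 32 (.thr 43 40 (.thr 35 39 (.dbl 44 38 46))))))))) .nd))))) (.rp 1 (.str 44 (.nv (.thr 40 43 (.thr 32 36 (.thr 38 35 (.thr 47 37 (.dbl 46 34 45))))) (.nv (.thr 35 38 (.thr 43 40 (.thr 47 39 (.thr 37 32 (.dbl 45 33 46))))) (.rp 47 (.str 26 (.nv (.thr 10 58 (.thr 11 56 (.thr 8 9 (.thr 38 35 (.thr 4 55 (.thr 12 0 (.dbl 25 51 59))))))) (.nv (.thr 31 16 (.thr 56 11 (.thr 58 10 (.thr 59 57 (.thr 8 25 (.dbl 40 24 43)))))) (.nv (.thr 10 58 (.thr 43 40 (.thr 11 56 (.thr 59 27 (.dbl 8 9 25))))) (.rp 59 (.thr 58 10 (.thr 56 11 (.thr 43 40 (.thr 31 16 (.thr 38 35 (.thr 55 4 (.thr 46 34 (.thr 14 50 (.thr 30 62 (.thr 28 29 (.thr 60 12 (.thr 45 15 (.thr 52 48 (.thr 53 54 (.dbl 37 5 33))))))))))))))) (.rp 58 (.thr 56 11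 (.thr 40 43 (.thr 24 8 (.thr 31 16 (.thr 36 32 (.thr 48 12 (.thr 37 15 (.dbl 38 35 39)))))))) (.rp 56 (.thr 10 58 (.thr 31 16 (.thr 38 35 (.thr 4 55 (.thr 34 46 (.thr 14 50 (.thr 6 2 (.thr 5 7 (.thr 0 15 (.thr 12 8 (.dbl 51 17 25))))))))))) (.rp 43 (.thr 58 10 (.thr 56 11 (.thr 59 57 (.thr 8 25 (.thr 40 24 (.thr 36 32 (.thr 38 35 (.thr 39 37 (.thr 4 55 (.thr 0 12 (.dbl 20 52 60))))))))))) (.rp 31 (.str 15 (.nv (.thr 35 38 (.thr 40 43 (.thr 32 36 (.thr 33 34 (.dbl 37 45 48))))) (.nv (.thr 11 56 (.thr 43 40 (.thr 59 27 (.thr 8 25 (.dbl 10 9 58))))) (.nv (.thr 10 58 (.thr 5 0 (.dbl 37 48 53))) .nd)))) (.rp 25 (.thr 56 11 (.thr 40 43 (.thr 24 8 (.thr 36 32 (.thr 12 48 (.thr 28 60 (.dbl 16 20 31))))))) (.rp 11 (.thr 10 58 (.thr 40 43 (.thr 31 16 (.thr 36 32 (.thr 38 35 (.thr 39 37 (.thr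 4 55 (.thr 34 46 (.thr 14 50 (.thr 6 2 (.thr 20 52 (.thr 7 5 (.thr 0 60 (.thr 12 8 (.dbl 51 17 25))))))))))))))) (.rp 10 (.thr 56 11 (.thr 40 43 (.thr 8 24 (.thr 36 32 (.thr 38 35 (.thr 39 37 (.thr 4 55 (.thr 12 0 (.dbl 25 51 59))))))))) (.rp 9 (.thr 58 10 (.thr 40 43 (.thr 56 11 (.thr 8 24 (.dbl 59 25 57))))) (.rp 8 (.thr 10 58 (.thr 56 11 (.thr 40 43 (.thr 31 16 (.thr 36 32 (.thr 38 35 (.thr 39 37 (.thr 4 55 (.thr 52 20 (.thr 48 60 (.thr 24 12 (.thr 27 25 (.thr 14 50 (.thr 6 2 (.thr 5 7 (.dbl 15 0 51)))))))))))))))) .nd)))))))))))))) (.rp 46 (.thr 40 43 (.thr 32 36 (.thr 37 47 (.thr 33 45 (.dbl 35 34 38))))) (.rp 45 (.thr 40 43 (.thr 36 32 (.thr 38 35 (.thr 34 46 (.thr 4 55 (.thr 20 52 (.thr 0 60 (.thr 12 8 (.dbl 51 17 25))))))))) (.rp 43 (.str 37 (.nv (.thr 32 47 (.thr 36 40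 (.dbl 38 35 39))) (.nv (.thr 47 32 (.dbl 45 33 46)) (.rp 47 (.thr 33 45 (.thr 38 35 (.thr 39 36 (.thr 5 53 (.thr 46 34 (.thr 55 4 (.thr 23 7 (.str 26 (.nv (.thr 15 48 (.thr 58 10 (.thr 27 51 (.dbl 31 16 19)))) (.nv (.thr 15 48 (.thr 58 10 (.thr 14 50 (.thr 12 13 (.dbl 51 25 27))))) (.nv (.thr 31 16 (.thr 27 19 (.dbl 15 48 51))) (.rp 58 (.thr 48 15 (.thr 31 16 (.thr 27 19 (.thr 25 24 (.thr 51 12 (.dbl 49 13 50)))))) (.rp 52 (.str 20 (.nv (.thr 15 48 (.thr 58 10 (.thr 27 51 (.dbl 31 16 19)))) (.nv (.thr 15 48 (.thr 58 10 (.thr 14 50 (.thr 12 13 (.dbl 51 25 27))))) (.nv (.thr 31 16 (.thr 27 19 (.dbl 15 48 51))) (.rp 58 (.thr 48 15 (.thr 31 16 (.thr 27 19 (.thr 25 24 (.thr 51 12 (.dbl 49 13 50)))))) (.rp 51 (.thr 58 10 (.thr 56 11 (.thr 59 57 (.thr 8 25 (.thr 24 40 (.dbl 16 28 31))))))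 (.rp 48 (.thr 58 10 (.thr 31 16 (.thr 27 19 (.thr 51 15 (.dbl 25 12 24))))) (.rp 27 (.thr 16 31 (.thr 15 48 (.thr 58 10 (.thr 14 50 (.thr 12 13 (.dbl 28 24 60)))))) (.rp 15 (.thr 31 16 (.thr 27 19 (.thr 25 24 (.thr 8 59 (.thr 9 57 (.dbl 11 10 56)))))) .nd))))))))) (.rp 51 (.thr 31 16 (.thr 14 50 (.thr 30 62 (.thr 28 29 (.thr 60 12 (.thr 56 11 (.dbl 48 15 52))))))) (.rp 48 (.thr 58 10 (.thr 31 16 (.thr 27 19 (.thr 51 15 (.dbl 25 12 24))))) (.rp 27 (.thr 31 16 (.thr 58 10 (.thr 14 50 (.thr 30 62 (.thr 28 29 (.thr 15 48 (.dbl 12 13 60))))))) (.rp 20 (.str 52 (.nv (.thr 48 15 (.thr 31 16 (.dbl 56 11 60))) (.nv (.thr 15 48 (.thr 58 10 (.thr 31 16 (.dbl 27 19 51)))) (.nv (.thr 56 11 (.dbl 48 15 60)) (.rp 48 (.thr 58 10 (.thr 31 16 (.thr 27 19 (.thr 51 15 (.dbl 25 12 24))))) (.rp 31 (.thr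 15 48 (.thr 58 10 (.thr 51 27 (.thr 14 50 (.dbl 12 13 25))))) (.rp 15 (.thr 31 16 (.thr 14 50 (.thr 30 62 (.thr 28 29 (.thr 60 12 (.dbl 56 11 48)))))) .nd))))))) (.rp 15 (.thr 31 16 (.thr 27 19 (.thr 25 24 (.thr 8 59 (.thr 9 57 (.dbl 11 10 56)))))) .nd)))))))))))))))))) (.rp 32 (.thr 45 33 (.thr 46 47 (.dbl 38 34 35))) (.rp 23 (.str 3 (.nv (.thr 32 47 (.thr 36 40 (.dbl 38 35 39))) (.nv (.thr 47 32 (.dbl 45 33 46)) (.rp 47 (.thr 35 38 (.thr 33 45 (.thr 32 34 (.thr 48 18 (.thr 16 0 (.dbl 26 15 31)))))) (.rp 32 (.thr 45 33 (.thr 46 47 (.dbl 38 34 35))) .nd))))) (.rp 3 (.str 23 (.nv (.thr 38 35 (.thr 39 36 (.dbl 55 4 7))) (.nv (.thr 47 32 (.dbl 45 33 46)) (.rp 2 (.str 0 (.nv (.thr 38 35 (.thr 39 36 (.dbl 55 4 7))) (.nv (.thr 47 32 (.dbl 45 33 46)) .nd))) (.rp 0 (.str 2 (.nv (.thr 38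 35 (.thr 39 36 (.dbl 55 4 7))) (.nv (.thr 47 32 (.dbl 45 33 46)) .nd))) .nd))))) .nd))))))) (.rp 40 (.thr 38 35 (.str 12 (.nv (.thr 4 55 (.thr 51 25 (.thr 0 8 (.dbl 34 17 46)))) (.nv (.thr 4 55 (.thr 8 0 (.dbl 25 51 59))) (.rp 55 (.thr 46 34 (.thr 45 47 (.thr 60 28 (.thr 15 30 (.thr 13 14 (.thr 29 61 (.dbl 25 17 51))))))) (.rp 51 (.thr 46 34 (.thr 45 47 (.thr 60 28 (.thr 15 30 (.thr 14 13 (.thr 26 50 (.dbl 37 33 48))))))) (.rp 25 (.str 15 (.nv (.thr 4 55 (.thr 0 8 (.thr 10 5 (.thr 26 58 (.dbl 14 13 50))))) (.nv (.thr 46 34 (.thr 45 47 (.dbl 60 28 30))) (.rp 28 (.str 19 (.nv (.thr 46 34 (.thr 45 47 (.thr 30 60 (.dbl 14 13 62)))) (.nv (.thr 4 55 (.thr 0 8 (.thr 5 10 (.thr 37 53 (.thr 36 39 (.dbl 48 24 26)))))) (.nv (.thr 14 13 (.thr 46 34 (.thr 30 62 (.dbl 45 47 60)))) (.rp 47 (.thr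 14 13 (.thr 4 55 (.thr 0 8 (.thr 26 50 (.dbl 10 5 58))))) .nd))))) (.rp 19 (.thr 28 60 (.thr 14 13 (.thr 46 34 (.thr 47 45 (.thr 26 50 (.dbl 37 32 48)))))) .nd))))) (.rp 8 (.thr 46 34 (.thr 45 47 (.thr 60 28 (.thr 15 30 (.thr 13 14 (.thr 29 61 (.dbl 25 17 51))))))) (.rp 4 (.thr 46 34 (.thr 45 47 (.thr 60 28 (.thr 15 30 (.thr 13 14 (.thr 29 61 (.dbl 25 17 51))))))) (.rp 0 (.thr 46 34 (.thr 45 47 (.thr 60 28 (.thr 15 30 (.thr 13 14 (.thr 29 61 (.dbl 25 17 51))))))) .nd)))))))))) (.rp 38 (.str 26 (.nv (.thr 10 58 (.thr 11 56 (.thr 8 9 (.thr 43 40 (.dbl 59 25 27))))) (.nv (.thr 16 31 (.thr 40 43 (.thr 32 36 (.thr 48 0 (.dbl 37 15 47))))) (.nv (.thr 40 43 (.thr 56 11 (.thr 8 24 (.thr 58 10 (.dbl 59 25 57))))) (.rp 54 (.str 6 (.nv (.thr 10 58 (.thr 11 56 (.thr 8 9 (.thr 43 40 (.dbl 59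 25 27))))) (.nv (.thr 16 31 (.thr 40 43 (.thr 32 36 (.thr 48 0 (.dbl 37 15 47))))) (.nv (.thr 40 43 (.thr 56 11 (.thr 8 24 (.thr 58 10 (.dbl 59 25 57))))) (.rp 43 (.thr 11 56 (.thr 10 58 (.thr 9 8 (.thr 3 12 (.thr 15 7 (.thr 0 5 (.thr 16 31 (.dbl 48 32 37)))))))) (.rp 40 (.str 12 (.nv (.thr 10 58 (.thr 11 56 (.dbl 9 3 8))) (.nv (.thr 9 3 (.thr 25 57 (.thr 29 17 (.thr 31 16 (.dbl 28 30 60))))) (.nv (.thr 9 3 (.thr 11 56 (.dbl 10 8 58))) (.rp 9 (.thr 60 28 (.thr 56 11 (.thr 10 58 (.thr 14 2 (.thr 48 52 (.dbl 15 13 37)))))) (.rp 3 (.thr 11 56 (.thr 10 58 (.thr 8 9 (.thr 0 4 (.thr 14 2 (.dbl 15 5 13)))))) .nd)))))) .nd)))))) (.rp 43 (.thr 58 10 (.thr 56 11 (.thr 59 57 (.thr 8 25 (.thr 40 24 (.thr 16 31 (.thr 32 36 (.thr 48 0 (.dbl 37 15 47))))))))) (.rp 40 (.str 12 (.nv (.thr 10 58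 (.thr 11 56 (.thr 8 9 (.thr 0 4 (.thr 16 31 (.thr 48 32 (.dbl 15 5 37))))))) (.nv (.thr 28 60 (.thr 31 16 (.thr 29 30 (.thr 56 11 (.thr 58 10 (.thr 57 59 (.dbl 25 9 17))))))) (.nv (.thr 56 11 (.thr 60 28 (.thr 48 52 (.thr 37 15 (.thr 47 32 (.dbl 45 33 46)))))) (.rp 56 (.thr 28 60 (.thr 31 16 (.thr 29 30 (.thr 25 17 (.thr 24 27 (.thr 48 36 (.thr 37 15 (.thr 45 33 (.thr 49 13 (.dbl 47 32 46)))))))))) (.rp 54 (.str 6 (.nv (.thr 10 58 (.thr 11 56 (.dbl 9 3 8))) (.nv (.thr 9 3 (.thr 25 57 (.thr 29 17 (.thr 31 16 (.dbl 28 30 60))))) (.nv (.thr 9 3 (.thr 11 56 (.dbl 10 8 58))) (.rp 9 (.thr 60 28 (.thr 56 11 (.thr 10 58 (.thr 14 2 (.thr 48 52 (.dbl 15 13 37)))))) (.rp 3 (.thr 11 56 (.thr 10 58 (.thr 8 9 (.thr 0 4 (.thr 14 2 (.dbl 15 5 13)))))) .nd)))))) (.rp 15 (.thr 60 28 (.thr 58 10 (.thr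 56 11 (.thr 57 59 (.thr 48 52 (.thr 24 36 (.dbl 25 9 27))))))) (.rp 11 (.thr 28 60 (.thr 10 58 (.thr 31 16 (.thr 29 30 (.thr 25 17 (.thr 8 59 (.thr 0 4 (.thr 15 5 (.thr 13 14 (.dbl 37 48 49)))))))))) (.rp 6 (.str 54 (.nv (.thr 56 11 (.thr 58 10 (.thr 57 59 (.dbl 60 28 51)))) (.nv (.thr 16 31 (.thr 56 11 (.thr 60 28 (.thr 48 52 (.thr 32 0 (.dbl 37 15 47)))))) (.nv (.thr 60 28 (.thr 56 11 (.thr 57 51 (.dbl 58 10 59)))) (.rp 60 (.thr 10 58 (.thr 11 56 (.thr 8 9 (.thr 16 31 (.thr 0 4 (.thr 48 32 (.dbl 15 5 37))))))) (.rp 56 (.thr 60 28 (.thr 58 10 (.thr 16 31 (.thr 50 62 (.thr 51 57 (.thr 48 49 (.thr 32 0 (.dbl 37 15 47)))))))) (.rp 28 (.thr 10 58 (.thr 11 56 (.thr 8 9 (.thr 16 31 (.thr 0 4 (.thr 48 32 (.dbl 15 5 37))))))) (.rp 11 (.thr 60 28 (.thr 58 10 (.thr 57 51 (.thr 59 56 (.dbl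 25 8 9))))) .nd)))))))) .nd))))))))) (.rp 6 (.str 54 (.nv (.thr 16 31 (.thr 40 43 (.thr 32 36 (.thr 48 0 (.dbl 37 15 47))))) (.nv (.thr 10 58 (.thr 43 40 (.thr 11 56 (.thr 59 27 (.dbl 8 9 25))))) (.rp 48 (.thr 58 10 (.thr 40 43 (.thr 56 11 (.thr 8 24 (.dbl 59 25 57))))) (.rp 43 (.thr 58 10 (.thr 56 11 (.thr 59 57 (.thr 8 25 (.thr 40 24 (.thr 32 36 (.thr 16 31 (.thr 48 0 (.dbl 37 15 47))))))))) (.rp 40 (.str 60 (.nv (.thr 16 31 (.thr 28 12 (.thr 24 20 (.thr 25 27 (.dbl 57 9 51))))) (.nv (.thr 16 31 (.thr 56 11 (.thr 48 52 (.thr 32 0 (.dbl 37 15 47))))) (.nv (.thr 56 11 (.thr 57 51 (.dbl 58 10 59))) .nd)))) .nd)))))) .nd)))))))) (.rp 37 (.str 60 (.nv (.thr 40 43 (.thr 36 32 (.thr 38 35 (.thr 4 55 (.dbl 20 0 52))))) (.nv (.thr 12 28 (.thr 40 43 (.thr 36 32 (.thr 48 24 (.thr 52 56 (.dbl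 20 0 4)))))) (.nv (.thr 12 28 (.thr 38 35 (.thr 4 55 (.thr 8 0 (.dbl 25 51 59))))) (.rp 52 (.str 7 (.nv (.thr 40 43 (.thr 38 35 (.thr 4 55 (.thr 0 20 (.dbl 12 8 28))))) (.nv (.thr 12 28 (.thr 38 35 (.thr 25 51 (.thr 9 57 (.thr 3 6 (.thr 11 15 (.dbl 8 10 59))))))) (.nv (.thr 12 28 (.thr 40 43 (.thr 0 20 (.thr 8 4 (.thr 36 32 (.dbl 24 48 56)))))) (.nv (.thr 12 28 (.thr 38 35 (.thr 4 55 (.thr 8 0 (.dbl 25 51 59))))) (.rp 28 (.thr 40 43 (.thr 0 20 (.thr 38 35 (.thr 4 55 (.thr 12 8 (.thr 34 46 (.dbl 51 17 25))))))) (.rp 12 (.thr 40 43 (.thr 0 20 (.thr 38 35 (.thr 4 55 (.thr 5 6 (.thr 15 10 (.thr 45 30 (.dbl 46 34 47)))))))) (.rp 8 (.thr 12 28 (.thr 40 43 (.thr 0 20 (.thr 38 35 (.thr 34 46 (.dbl 51 17 25)))))) (.rp 3 (.thr 12 28 (.thr 38 35 (.thr 4 55 (.thr 0 8 (.dbl 40 20 43))))) .nd)))))))))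 (.rp 7 (.str 52 (.nv (.thr 12 28 (.thr 38 35 (.thr 55 4 (.thr 54 53 (.dbl 51 25 57))))) (.nv (.thr 40 43 (.thr 36 32 (.dbl 20 0 4))) (.rp 4 (.thr 48 56 (.thr 12 28 (.thr 36 24 (.dbl 40 32 43)))) .nd)))) (.rp 4 (.thr 12 28 (.thr 40 43 (.thr 0 20 (.thr 38 35 (.thr 34 46 (.dbl 51 17 25)))))) (.rp 3 (.thr 12 28 (.thr 38 35 (.thr 4 55 (.thr 0 8 (.dbl 40 20 43))))) (.rp 0 (.thr 12 28 (.thr 40 43 (.thr 36 32 (.thr 48 24 (.thr 52 56 (.thr 38 35 (.dbl 4 20 55))))))) .nd))))))))) (.rp 35 (.str 56 (.nv (.thr 26 11 (.thr 16 31 (.thr 40 43 (.thr 32 36 (.thr 48 0 (.dbl 37 15 47)))))) (.nv (.thr 11 26 (.thr 43 40 (.thr 59 27 (.thr 25 8 (.dbl 57 9 58))))) (.rp 59 (.thr 40 43 (.thr 36 32 (.thr 24 8 (.thr 12 48 (.thr 28 60 (.thr 16 20 (.dbl 26 11 31))))))) (.rp 43 (.thr 26 11 (.thr 58 10 (.thr 59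 57 (.thr 8 25 (.thr 40 24 (.thr 32 36 (.thr 16 31 (.thr 48 0 (.dbl 37 15 47))))))))) (.rp 40 (.str 57 (.nv (.thr 25 9 (.dbl 59 8 58)) (.nv (.thr 26 11 (.dbl 58 10 59)) (.rp 59 (.thr 25 9 (.thr 29 17 (.thr 26 11 (.thr 31 16 (.thr 28 30 (.thr 60 12 (.thr 48 52 (.thr 51 54 (.thr 49 50 (.dbl 37 13 15)))))))))) (.rp 58 (.thr 25 9 (.thr 26 11 (.thr 16 31 (.thr 24 27 (.thr 28 20 (.thr 60 12 (.thr 48 52 (.thr 32 0 (.dbl 37 15 47))))))))) .nd))))) (.rp 27 (.thr 40 43 (.thr 8 24 (.thr 25 59 (.thr 11 26 (.dbl 9 10 57))))) (.rp 26 (.thr 40 43 (.thr 32 36 (.thr 8 24 (.thr 47 37 (.thr 46 45 (.thr 38 34 (.thr 4 55 (.thr 12 0 (.dbl 25 51 59))))))))) (.rp 11 (.thr 40 43 (.thr 32 36 (.thr 8 24 (.thr 59 25 (.thr 58 57 (.thr 26 10 (.thr 16 31 (.thr 48 0 (.dbl 37 15 47))))))))) .nd))))))))) (.rp 32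 (.str 12 (.nv (.thr 38 35 (.thr 34 46 (.thr 40 43 (.thr 51 25 (.thr 0 17 (.dbl 60 20 28)))))) (.nv (.thr 40 43 (.thr 60 28 (.thr 0 20 (.thr 4 8 (.dbl 38 35 55))))) (.nv (.thr 38 35 (.thr 34 46 (.thr 4 55 (.thr 0 8 (.dbl 51 17 25))))) (.rp 38 (.thr 60 28 (.thr 40 43 (.thr 0 20 (.thr 8 4 (.thr 25 59 (.thr 57 9 (.thr 17 29 (.dbl 51 34 54)))))))) (.rp 35 (.thr 60 28 (.thr 40 43 (.thr 0 20 (.thr 8 4 (.thr 25 59 (.thr 57 9 (.dbl 51 38 54))))))) (.rp 25 (.thr 40 43 (.thr 38 35 (.thr 4 55 (.thr 0 8 (.dbl 60 20 28))))) (.rp 0 (.thr 43 40 (.thr 38 35 (.thr 25 51 (.thr 57 9 (.thr 59 8 (.thr 56 58 (.dbl 11 26 27))))))) .nd)))))))) .nd)))))))))))) (.rp 0 (.str 37 (.nv (.thr 1 61 (.thr 5 53 (.thr 13 9 (.thr 33 45 (.dbl 49 17 25))))) (.nv (.thr 33 45 (.thr 40 43 (.thr 32 47 (.thr 44 36 (.dbl 35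 34 38))))) (.rp 45 (.thr 40 43 (.thr 32 47 (.thr 44 36 (.thr 35 38 (.thr 33 34 (.thr 1 61 (.thr 5 53 (.thr 13 9 (.dbl 49 17 25))))))))) (.rp 33 (.thr 43 40 (.thr 47 32 (.thr 35 39 (.thr 44 38 (.thr 45 46 (.thr 61 1 (.thr 53 5 (.thr 49 57 (.dbl 13 25 29))))))))) .nd))))) .nd))))))))))))))))))))))))))))))))))))))))))))))))))))))))))))

theorem w494 : WinAt (4398048608256, 9223372036858970112) :=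
  chF (K := [(6597071863808, 9223372036892524544), (6597071863808, 9223372174297923584), (6597071863808, 9223380832951992320), (6597071863808, 11529215046072664064), (6734510817280, 9223380832951992328)]) (kc w490 (kc w491 (kc w492 (kc w493 (kc w489 kn))))) c494 4398048608256 9223372036858970112 63
    [] (by decide +kernel) (by decide +kernel)

/-- A certificate. -/
noncomputable def c495 : Ct := (.str 22 (.nv (.thr 5 53 (.thr 7 52 (.thr 4 6 (.thr 23 20 (.dbl 55 38 39))))) (.nv (.thr 20 23 (.thr 53 5 (.thr 52 7 (.thr 55 54 (.dbl 4 36 38))))) (.rp 55 (.str 41 (.nv (.thr 3 60 (.thr 33 45 (.thr 48 18 (.thr 53 5 (.thr 63 58 (.dbl 23 20 43)))))) (.nv (.thr 33 45 (.thr 5 53 (.thr 1 61 (.thr 13 9 (.dbl 49 17 25))))) (.rp 53 (.thr 3 60 (.thr 1 61 (.thr 33 45 (.thr 49 17 (.thr 48 18 (.thr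 51 50 (.thr 19 35 (.dbl 25 13 28)))))))) (.rp 45 (.thr 53 5 (.thr 52 7 (.thr 60 3 (.thr 48 56 (.thr 63 58 (.dbl 61 1 62)))))) (.rp 33 (.thr 53 5 (.thr 52 7 (.thr 60 3 (.thr 48 56 (.thr 63 58 (.dbl 61 1 62)))))) (.rp 5 (.thr 3 60 (.thr 1 61 (.thr 33 45 (.thr 49 17 (.thr 48 18 (.thr 51 50 (.thr 19 35 (.dbl 25 13 28)))))))) .nd))))))) (.rp 54 (.thr 23 20 (.thr 5 53 (.thr 7 52 (.thr 55 39 (.dbl 4 6 38))))) (.rp 53 (.str 41 (.nv (.thr 20 23 (.thr 52 7 (.thr 36 4 (.thr 60 3 (.thr 48 56 (.thr 12 24 (.thr 44 28 (.dbl 38 35 39)))))))) (.nv (.thr 1 61 (.thr 3 60 (.thr 33 45 (.thr 48 18 (.thr 49 17 (.thr 51 50 (.thr 19 35 (.dbl 25 13 28)))))))) (.nv (.thr 20 23 (.thr 52 7 (.thr 36 4 (.thr 33 45 (.thr 3 60 (.thr 48 18 (.thr 12 24 (.thr 6 9 (.dbl 38 39 54))))))))) (.rp 60 (.thr 33 45 (.thr 1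 61 (.thr 49 17 (.thr 13 25 (.thr 5 9 (.thr 7 52 (.thr 4 6 (.thr 55 38 (.dbl 23 20 39))))))))) (.rp 48 (.thr 33 45 (.thr 1 61 (.thr 49 17 (.thr 13 25 (.thr 5 9 (.thr 7 52 (.thr 4 6 (.thr 23 20 (.dbl 55 38 39))))))))) (.rp 38 (.thr 33 45 (.thr 1 61 (.thr 49 17 (.thr 13 25 (.thr 9 5 (.thr 3 60 (.thr 12 6 (.thr 7 52 (.dbl 15 11 14))))))))) (.rp 25 (.thr 45 33 (.thr 61 1 (.thr 13 29 (.thr 3 60 (.thr 7 52 (.thr 15 11 (.thr 12 14 (.thr 6 9 (.thr 4 5 (.dbl 38 54 55)))))))))) (.rp 20 (.thr 33 45 (.thr 1 61 (.thr 49 17 (.thr 60 3 (.thr 52 7 (.thr 48 56 (.thr 51 50 (.thr 57 54 (.dbl 25 9 13))))))))) (.rp 15 (.thr 33 45 (.thr 1 61 (.thr 49 17 (.thr 13 25 (.thr 5 9 (.thr 7 52 (.thr 4 6 (.thr 23 20 (.dbl 55 38 39))))))))) (.rp 3 (.thr 33 45 (.thr 1 61 (.thr 49 17 (.thr 13 25 (.thr 5 9 (.thr 7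 52 (.thr 23 20 (.thr 55 39 (.dbl 4 6 38))))))))) .nd))))))))))) (.rp 52 (.str 41 (.nv (.thr 3 60 (.thr 33 45 (.thr 48 18 (.thr 53 5 (.thr 63 58 (.dbl 23 20 43)))))) (.nv (.thr 33 45 (.thr 5 53 (.thr 1 61 (.thr 13 9 (.dbl 49 17 25))))) (.rp 53 (.thr 33 45 (.thr 1 61 (.thr 49 17 (.thr 3 60 (.thr 48 18 (.thr 51 50 (.thr 19 35 (.dbl 25 13 28)))))))) (.rp 45 (.thr 53 5 (.thr 61 1 (.thr 57 49 (.thr 9 25 (.thr 3 60 (.thr 6 12 (.thr 38 54 (.thr 44 35 (.thr 36 39 (.thr 40 32 (.thr 23 20 (.dbl 43 42 63)))))))))))) (.rp 33 (.thr 5 53 (.thr 1 61 (.thr 9 13 (.thr 3 60 (.thr 6 12 (.thr 4 7 (.dbl 38 54 55))))))) (.rp 5 (.thr 33 45 (.thr 1 61 (.thr 49 17 (.thr 3 60 (.thr 48 18 (.thr 51 50 (.thr 19 35 (.dbl 25 13 28)))))))) .nd))))))) (.rp 38 (.thr 7 52 (.str 41 (.nv (.thr 1 61 (.thr 3 60 (.thr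 5 53 (.thr 6 4 (.dbl 9 12 13))))) (.nv (.thr 3 60 (.thr 33 45 (.thr 48 18 (.thr 53 5 (.thr 63 58 (.dbl 23 20 43)))))) (.nv (.thr 33 45 (.thr 5 53 (.thr 1 61 (.thr 13 9 (.dbl 49 17 25))))) (.rp 53 (.thr 33 45 (.thr 1 61 (.thr 49 17 (.thr 13 25 (.thr 9 5 (.thr 3 60 (.thr 15 11 (.dbl 12 6 14)))))))) (.rp 50 (.str 14 (.nv (.thr 3 60 (.thr 15 11 (.thr 13 12 (.thr 45 33 (.dbl 61 1 29))))) (.nv (.thr 3 60 (.thr 15 11 (.thr 12 13 (.thr 6 9 (.dbl 5 4 53))))) (.nv (.thr 33 45 (.thr 5 53 (.thr 1 61 (.thr 13 9 (.dbl 49 17 25))))) (.rp 13 (.thr 60 3 (.thr 45 33 (.thr 30 15 (.thr 62 46 (.dbl 61 1 63))))) .nd))))) (.rp 14 (.str 50 (.nv (.thr 1 61 (.thr 3 60 (.thr 5 53 (.thr 6 4 (.dbl 9 12 13))))) (.nv (.thr 1 61 (.thr 3 60 (.thr 33 45 (.thr 48 18 (.dbl 49 17 51))))) (.nv (.thr 33 45 (.thr 5 53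 (.thr 1 61 (.thr 13 9 (.dbl 49 17 25))))) (.rp 61 (.thr 53 5 (.thr 3 60 (.thr 33 45 (.thr 48 18 (.thr 63 58 (.dbl 23 20 43)))))) (.rp 49 (.thr 53 5 (.thr 3 60 (.thr 33 45 (.thr 48 18 (.thr 63 58 (.dbl 23 20 43)))))) (.rp 13 (.thr 3 60 (.thr 33 45 (.thr 48 18 (.thr 49 51 (.dbl 1 17 61))))) (.rp 1 (.thr 53 5 (.thr 3 60 (.thr 33 45 (.thr 48 18 (.thr 63 58 (.dbl 23 20 43)))))) .nd)))))))) (.rp 5 (.thr 33 45 (.thr 1 61 (.thr 49 17 (.thr 13 25 (.thr 3 60 (.thr 15 11 (.thr 48 18 (.thr 14 12 (.thr 51 50 (.thr 27 39 (.thr 19 35 (.dbl 23 20 31)))))))))))) .nd))))))))) (.rp 23 (.str 41 (.nv (.thr 1 61 (.thr 3 60 (.thr 5 53 (.thr 7 52 (.thr 6 4 (.dbl 9 12 13)))))) (.nv (.thr 33 45 (.thr 5 53 (.thr 1 61 (.thr 13 9 (.dbl 49 17 25))))) (.rp 61 (.thr 5 53 (.thr 7 52 (.thr 6 4 (.thr 3 60 (.thr 12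 9 (.thr 33 45 (.thr 48 18 (.thr 36 24 (.dbl 38 39 54))))))))) (.rp 57 (.thr 5 53 (.thr 33 45 (.thr 1 61 (.thr 49 17 (.dbl 13 9 25))))) (.rp 53 (.thr 3 60 (.thr 1 61 (.thr 33 45 (.thr 49 17 (.thr 48 18 (.thr 51 50 (.thr 19 35 (.dbl 25 13 28)))))))) (.rp 49 (.thr 53 5 (.thr 52 7 (.thr 60 3 (.thr 48 56 (.thr 63 58 (.dbl 61 1 62)))))) (.rp 13 (.thr 53 5 (.thr 52 7 (.thr 60 3 (.thr 48 56 (.thr 63 58 (.dbl 61 1 62)))))) (.rp 9 (.thr 53 5 (.thr 45 33 (.thr 61 1 (.thr 13 29 (.dbl 49 25 57))))) (.rp 5 (.thr 3 60 (.thr 1 61 (.thr 33 45 (.thr 49 17 (.thr 48 18 (.thr 51 50 (.thr 19 35 (.dbl 25 13 28)))))))) (.rp 1 (.thr 5 53 (.thr 7 52 (.thr 6 4 (.thr 3 60 (.thr 12 9 (.thr 33 45 (.thr 48 18 (.thr 36 24 (.dbl 38 39 54))))))))) .nd))))))))))) (.rp 20 (.str 60 (.nv (.thr 5 53 (.thr 41 3 (.thr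 33 45 (.thr 1 61 (.thr 49 17 (.dbl 13 9 25)))))) (.nv (.thr 52 7 (.thr 53 5 (.thr 54 55 (.thr 48 56 (.thr 51 57 (.thr 58 63 (.dbl 50 49 62))))))) (.nv (.thr 5 53 (.thr 41 3 (.thr 1 61 (.thr 13 9 (.thr 33 45 (.dbl 49 17 25)))))) (.rp 53 (.thr 52 7 (.thr 48 56 (.thr 41 3 (.thr 1 61 (.thr 33 45 (.thr 49 17 (.thr 51 50 (.thr 57 54 (.dbl 25 9 13))))))))) (.rp 49 (.thr 52 7 (.thr 53 5 (.thr 48 56 (.thr 63 58 (.thr 61 62 (.dbl 41 1 3)))))) (.rp 41 (.thr 52 7 (.thr 53 5 (.thr 54 55 (.thr 57 51 (.thr 61 49 (.thr 63 62 (.dbl 48 56 58))))))) (.rp 5 (.thr 52 7 (.thr 48 56 (.thr 41 3 (.thr 1 61 (.thr 33 45 (.thr 49 17 (.thr 51 50 (.thr 57 54 (.dbl 25 9 13))))))))) .nd)))))))) (.rp 7 (.str 41 (.nv (.thr 3 60 (.thr 33 45 (.thr 48 18 (.thr 53 5 (.thr 63 58 (.dbl 23 20 43)))))) (.nv (.thr 33 45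 (.thr 5 53 (.thr 1 61 (.thr 13 9 (.dbl 49 17 25))))) (.rp 53 (.thr 3 60 (.thr 1 61 (.thr 33 45 (.thr 49 17 (.thr 48 18 (.thr 51 50 (.thr 19 35 (.dbl 25 13 28)))))))) (.rp 45 (.thr 53 5 (.thr 3 60 (.thr 61 1 (.thr 57 49 (.thr 9 25 (.thr 6 12 (.thr 38 54 (.thr 36 39 (.thr 44 35 (.thr 23 20 (.thr 40 32 (.dbl 43 42 63)))))))))))) (.rp 33 (.str 49 (.nv (.thr 1 61 (.thr 5 53 (.dbl 13 9 25))) (.nv (.thr 61 1 (.dbl 53 5 57)) (.rp 61 (.thr 3 60 (.thr 25 13 (.thr 9 57 (.thr 19 28 (.thr 51 35 (.dbl 12 6 38)))))) (.rp 53 (.thr 3 60 (.thr 25 13 (.thr 9 57 (.thr 19 28 (.thr 51 35 (.dbl 12 6 38)))))) (.rp 5 (.thr 61 1 (.thr 57 53 (.dbl 25 9 13))) (.rp 1 (.thr 53 5 (.thr 57 61 (.dbl 25 9 13))) .nd))))))) (.rp 5 (.thr 3 60 (.thr 1 61 (.thr 33 45 (.thr 49 17 (.thr 48 18 (.thr 51 50 (.thr 19 35 (.dbl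 25 13 28)))))))) .nd))))))) (.rp 6 (.thr 20 23 (.thr 53 5 (.thr 52 7 (.thr 4 36 (.dbl 55 38 54))))) (.rp 5 .ext (.rp 4 (.str 41 (.nv (.thr 3 60 (.thr 33 45 (.thr 48 18 (.thr 53 5 (.thr 63 58 (.dbl 23 20 43)))))) (.nv (.thr 33 45 (.thr 5 53 (.thr 1 61 (.thr 13 9 (.dbl 49 17 25))))) (.rp 53 (.thr 33 45 (.thr 1 61 (.thr 49 17 (.thr 3 60 (.thr 48 18 (.thr 51 50 (.thr 19 35 (.dbl 25 13 28)))))))) (.rp 45 (.thr 5 53 (.thr 1 61 (.thr 13 9 (.thr 49 25 (.thr 33 17 (.thr 3 60 (.thr 48 18 (.thr 51 50 (.thr 19 35 (.thr 7 52 (.thr 15 11 (.thr 27 39 (.dbl 23 20 31))))))))))))) (.rp 33 (.thr 53 5 (.thr 61 1 (.thr 49 57 (.thr 13 25 (.thr 29 45 (.thr 3 60 (.thr 7 52 (.thr 15 11 (.thr 12 14 (.thr 63 46 (.dbl 23 20 43))))))))))) (.rp 12 (.str 8 (.nv (.thr 3 60 (.thr 33 45 (.thr 48 18 (.thr 53 5 (.thr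 63 58 (.dbl 23 20 43)))))) (.nv (.thr 5 53 (.thr 33 45 (.thr 1 61 (.thr 49 17 (.dbl 13 9 25))))) (.rp 53 (.thr 33 45 (.thr 1 61 (.thr 49 17 (.thr 13 25 (.thr 9 5 (.thr 3 60 (.thr 7 52 (.dbl 11 10 15)))))))) (.rp 45 (.thr 53 5 (.thr 61 1 (.thr 57 49 (.thr 9 25 (.thr 3 60 (.thr 7 52 (.dbl 11 10 15))))))) (.rp 33 (.thr 5 53 (.thr 1 61 (.thr 9 13 (.thr 3 60 (.thr 7 52 (.dbl 11 10 15)))))) (.rp 5 (.thr 33 45 (.thr 1 61 (.thr 49 17 (.thr 3 60 (.thr 48 18 (.thr 51 50 (.thr 19 35 (.dbl 25 13 28)))))))) .nd))))))) (.rp 8 (.str 12 (.nv (.thr 1 61 (.thr 5 53 (.thr 13 9 (.thr 33 45 (.dbl 49 17 25))))) (.nv (.thr 60 3 (.thr 28 44 (.thr 25 19 (.thr 51 38 (.dbl 57 9 54))))) (.nv (.thr 5 53 (.thr 3 60 (.thr 9 6 (.dbl 1 13 61)))) (.rp 9 (.thr 53 5 (.thr 45 33 (.thr 61 1 (.thr 13 29 (.dbl 49 25 57)))))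 (.rp 1 (.thr 3 60 (.thr 9 6 (.thr 25 57 (.thr 19 28 (.dbl 51 35 38))))) .nd)))))) (.rp 5 (.thr 33 45 (.thr 1 61 (.thr 49 17 (.thr 3 60 (.thr 48 18 (.thr 51 50 (.thr 19 35 (.dbl 25 13 28)))))))) .nd))))))))) .nd))))))))))))))

theorem w495 : WinAt (137441050624, 67108865) :=
  chF (K := [(137445244928, 67108897)]) (kc w47 kn) c495 137441050624 67108865 0
    [] (by decide +kernel) (by decide +kernel)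

/-- A certificate. -/
noncomputable def c496 : Ct := (.str 4 (.nv (.thr 7 6 (.thr 38 55 (.thr 52 22 (.dbl 36 20 39)))) (.nv (.thr 7 6 (.thr 22 52 (.thr 23 20 (.dbl 55 38 39)))) (.rp 55 (.thr 7 6 (.thr 52 22 (.thr 36 20 (.thr 38 39 (.str 0 (.nv (.thr 12 8 (.thr 25 51 (.thr 63 42 (.dbl 29 17 46)))) (.nv (.thr 12 8 (.thr 25 51 (.thr 13 49 (.dbl 15 10 14)))) (.nv (.thr 42 63 (.thr 32 47 (.thr 44 40 (.thr 35 41 (.dbl 34 33 46))))) (.nv (.thr 12 8 (.thr 42 63 (.thr 34 46 (.dbl 51 17 25)))) (.rp 63 (.thr 12 8 (.thr 51 25 (.thr 34 17 (.thr 42 46 (.thr 32 47 (.dbl 48 16 24)))))) (.rp 51 (.thr 8 12 (.thr 42 63 (.thr 59 25 (.thr 32 47 (.thr 48 16 (.thr 56 60 (.dbl 40 24 44))))))) (.rp 30 (.str 18 (.nv (.thr 12 8 (.thr 48 24 (.thr 16 32 (.thr 17 19 (.dbl 25 29 51))))) (.nv (.thr 15 10 (.thr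 42 63 (.thr 32 47 (.thr 48 16 (.dbl 3 11 33))))) (.nv (.thr 12 8 (.thr 25 51 (.thr 29 17 (.dbl 63 42 46)))) (.rp 51 (.thr 12 8 (.thr 48 24 (.thr 3 33 (.dbl 15 10 11)))) .nd))))) (.rp 18 (.str 30 (.nv (.thr 12 8 (.thr 25 51 (.thr 13 49 (.dbl 15 10 14)))) (.nv (.thr 15 10 (.thr 60 45 (.thr 12 8 (.dbl 48 24 56)))) (.nv (.thr 15 10 (.thr 60 45 (.thr 48 56 (.thr 32 16 (.dbl 42 47 63))))) (.nv (.thr 12 8 (.thr 42 63 (.thr 34 46 (.dbl 51 17 25)))) (.rp 48 (.thr 15 10 (.thr 12 8 (.thr 25 51 (.dbl 13 14 49)))) .nd)))))) .nd))))))))))))) (.rp 52 (.str 0 (.nv (.thr 6 7 (.thr 12 8 (.thr 38 55 (.thr 54 22 (.thr 25 51 (.thr 13 49 (.dbl 15 10 14))))))) (.nv (.thr 7 6 (.thr 15 10 (.thr 3 11 (.thr 55 38 (.thr 23 39 (.dbl 63 42 43)))))) (.nv (.thr 12 8 (.thr 63 42 (.thr 29 46 (.thr 25 17 (.dbl 38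 51 55))))) (.rp 63 (.thr 12 8 (.thr 15 10 (.thr 13 14 (.thr 25 49 (.dbl 38 51 55))))) (.rp 55 (.str 54 (.nv (.thr 6 7 (.thr 10 15 (.thr 22 38 (.thr 42 63 (.dbl 2 14 62))))) (.nv (.thr 6 7 (.thr 12 8 (.thr 3 9 (.thr 22 38 (.thr 60 41 (.dbl 20 23 40)))))) (.nv (.thr 6 7 (.thr 12 8 (.thr 38 22 (.thr 25 51 (.thr 29 17 (.dbl 63 42 46)))))) (.nv (.thr 6 7 (.thr 22 38 (.thr 23 20 (.thr 12 8 (.thr 3 9 (.dbl 63 42 43)))))) (.rp 39 (.thr 12 8 (.thr 15 10 (.thr 13 14 (.thr 25 49 (.thr 17 29 (.dbl 51 34 38)))))) (.rp 38 (.thr 7 6 (.thr 15 10 (.thr 3 11 (.thr 42 63 (.thr 32 47 (.thr 48 16 (.thr 33 18 (.thr 41 45 (.thr 40 43 (.dbl 60 20 22)))))))))) (.rp 23 (.thr 12 8 (.thr 15 10 (.thr 13 14 (.thr 25 49 (.thr 17 29 (.dbl 51 34 38)))))) (.rp 22 (.thr 12 8 (.thr 15 10 (.thr 13 14 (.thr 25 49 (.thr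 17 29 (.dbl 51 34 38)))))) (.rp 7 (.thr 12 8 (.thr 15 10 (.thr 13 14 (.thr 25 49 (.thr 17 29 (.dbl 51 34 38)))))) (.rp 6 (.thr 12 8 (.thr 42 63 (.thr 32 47 (.thr 48 16 (.thr 36 24 (.thr 38 39 (.thr 34 46 (.dbl 51 17 25)))))))) .nd))))))))))) (.rp 54 (.thr 55 38 (.thr 6 7 (.thr 12 8 (.thr 3 9 (.thr 42 63 (.thr 32 47 (.thr 48 16 (.thr 33 18 (.thr 41 45 (.thr 36 24 (.dbl 40 43 44))))))))))) (.rp 38 (.thr 7 6 (.thr 15 10 (.thr 3 11 (.thr 42 63 (.thr 32 47 (.thr 48 16 (.thr 33 18 (.thr 41 45 (.thr 40 43 (.dbl 60 20 22)))))))))) (.rp 10 (.thr 12 8 (.thr 42 63 (.thr 32 47 (.thr 48 16 (.thr 36 24 (.dbl 38 39 55)))))) (.rp 8 (.thr 7 6 (.thr 55 38 (.thr 23 39 (.thr 63 42 (.thr 3 43 (.dbl 15 10 11)))))) .nd)))))))))) (.rp 39 (.str 0 (.nv (.thr 7 6 (.thr 12 8 (.thr 42 63 (.thr 32 47 (.thr 48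 16 (.thr 36 24 (.dbl 52 20 22))))))) (.nv (.thr 7 6 (.thr 22 52 (.thr 20 23 (.thr 60 40 (.thr 3 41 (.dbl 15 10 11)))))) (.nv (.thr 12 8 (.thr 63 42 (.thr 29 46 (.thr 25 17 (.dbl 38 51 55))))) (.rp 42 (.thr 38 55 (.thr 12 8 (.thr 25 51 (.thr 13 49 (.dbl 15 10 14))))) .nd))))) (.rp 38 (.str 0 (.nv (.thr 7 6 (.thr 22 52 (.thr 20 23 (.thr 60 40 (.thr 41 3 (.thr 45 33 (.dbl 15 10 30))))))) (.nv (.thr 7 6 (.thr 15 10 (.thr 3 11 (.thr 22 52 (.thr 23 20 (.dbl 63 42 43)))))) (.nv (.thr 12 8 (.thr 42 63 (.thr 32 47 (.thr 48 16 (.thr 36 24 (.thr 40 44 (.dbl 20 52 60))))))) (.nv (.thr 7 6 (.thr 22 52 (.thr 20 23 (.thr 60 40 (.thr 15 10 (.dbl 3 11 41)))))) (.rp 52 (.thr 7 6 (.thr 15 10 (.thr 3 11 (.thr 42 63 (.thr 32 47 (.thr 48 16 (.thr 33 18 (.thr 41 45 (.thr 40 43 (.dbl 60 20 22))))))))))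 (.rp 50 (.str 14 (.nv (.thr 6 7 (.dbl 10 2 15)) (.nv (.thr 12 8 (.dbl 15 10 13)) (.rp 15 (.thr 12 8 (.thr 6 7 (.thr 2 10 (.thr 42 63 (.thr 22 62 (.thr 20 23 (.thr 60 40 (.dbl 3 9 41)))))))) (.rp 10 (.thr 12 8 (.thr 15 13 (.thr 7 6 (.thr 22 52 (.thr 20 23 (.thr 60 40 (.dbl 3 11 41))))))) .nd))))) (.rp 41 (.thr 7 6 (.thr 12 8 (.thr 42 63 (.thr 32 47 (.thr 48 16 (.thr 36 24 (.dbl 52 20 22))))))) (.rp 20 (.thr 7 6 (.thr 22 52 (.thr 15 10 (.thr 3 11 (.thr 41 60 (.thr 33 45 (.thr 48 18 (.thr 32 16 (.dbl 42 47 63))))))))) (.rp 15 (.thr 7 6 (.thr 22 52 (.thr 20 23 (.thr 12 8 (.thr 60 40 (.thr 28 44 (.thr 25 19 (.thr 29 17 (.dbl 63 42 46))))))))) (.rp 14 (.str 50 (.nv (.thr 7 6 (.thr 22 52 (.thr 20 23 (.thr 60 40 (.thr 3 41 (.dbl 15 10 11)))))) (.nv (.thr 42 63 (.thr 32 47 (.thr 48 16 (.thr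 49 51 (.thr 25 13 (.dbl 8 12 59)))))) (.rp 55 (.thr 7 6 (.thr 12 8 (.thr 42 63 (.thr 32 47 (.thr 48 16 (.thr 36 24 (.dbl 52 20 22))))))) (.rp 42 (.thr 7 6 (.thr 22 52 (.thr 20 23 (.thr 60 40 (.thr 41 3 (.thr 45 33 (.dbl 15 10 30))))))) (.rp 15 (.thr 7 6 (.thr 22 52 (.thr 42 63 (.thr 2 62 (.thr 34 18 (.thr 17 51 (.thr 25 29 (.dbl 8 12 59)))))))) .nd)))))) .nd))))))))))) (.rp 22 (.thr 38 55 (.thr 36 39 (.thr 52 20 (.thr 7 6 (.str 0 (.nv (.thr 12 8 (.thr 25 51 (.thr 63 42 (.dbl 29 17 46)))) (.nv (.thr 12 8 (.thr 25 51 (.thr 13 49 (.dbl 15 10 14)))) (.nv (.thr 42 63 (.thr 32 47 (.thr 44 40 (.thr 35 41 (.dbl 34 33 46))))) (.nv (.thr 12 8 (.thr 42 63 (.thr 34 46 (.dbl 51 17 25)))) (.rp 63 (.thr 12 8 (.thr 51 25 (.thr 34 17 (.thr 42 46 (.thr 32 47 (.dbl 48 16 24)))))) (.rp 51 (.thr 8 12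 (.thr 42 63 (.thr 59 25 (.thr 32 47 (.thr 48 16 (.thr 56 60 (.dbl 40 24 44))))))) (.rp 30 (.str 18 (.nv (.thr 12 8 (.thr 48 24 (.thr 16 32 (.thr 17 19 (.dbl 25 29 51))))) (.nv (.thr 15 10 (.thr 42 63 (.thr 32 47 (.thr 48 16 (.dbl 3 11 33))))) (.nv (.thr 12 8 (.thr 25 51 (.thr 29 17 (.dbl 63 42 46)))) (.rp 51 (.thr 12 8 (.thr 48 24 (.thr 3 33 (.dbl 15 10 11)))) .nd))))) (.rp 18 (.str 30 (.nv (.thr 12 8 (.thr 25 51 (.thr 13 49 (.dbl 15 10 14)))) (.nv (.thr 15 10 (.thr 60 45 (.thr 12 8 (.dbl 48 24 56)))) (.nv (.thr 15 10 (.thr 60 45 (.thr 48 56 (.thr 32 16 (.dbl 42 47 63))))) (.nv (.thr 12 8 (.thr 42 63 (.thr 34 46 (.dbl 51 17 25)))) (.rp 48 (.thr 15 10 (.thr 12 8 (.thr 25 51 (.dbl 13 14 49)))) .nd)))))) .nd))))))))))))) (.rp 20 (.str 0 (.nv (.thr 12 8 (.thr 38 55 (.thr 25 51 (.thr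 13 49 (.dbl 15 10 14))))) (.nv (.thr 12 8 (.thr 15 10 (.thr 13 14 (.thr 25 49 (.thr 17 29 (.dbl 51 34 38)))))) (.nv (.thr 7 6 (.thr 55 38 (.thr 23 39 (.thr 63 42 (.thr 3 43 (.dbl 15 10 11)))))) (.nv (.thr 12 8 (.thr 38 55 (.thr 25 51 (.thr 63 42 (.dbl 29 17 46))))) (.rp 38 (.thr 7 6 (.thr 22 52 (.thr 15 10 (.thr 3 11 (.thr 41 60 (.thr 33 45 (.thr 48 18 (.thr 32 16 (.dbl 42 47 63))))))))) (.rp 10 (.thr 38 55 (.thr 12 8 (.thr 51 25 (.thr 34 17 (.dbl 42 46 63))))) .nd))))))) (.rp 7 (.str 0 (.nv (.thr 12 8 (.thr 38 55 (.thr 25 51 (.thr 29 17 (.dbl 63 42 46))))) (.nv (.thr 12 8 (.thr 15 10 (.thr 13 14 (.thr 25 49 (.thr 17 29 (.dbl 51 34 38)))))) (.nv (.thr 38 55 (.thr 39 36 (.thr 12 8 (.thr 51 25 (.dbl 15 10 27))))) (.rp 51 (.thr 12 8 (.thr 42 63 (.thr 32 47 (.thr 48 16 (.thr 36 24 (.dbl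 38 39 55)))))) (.rp 42 (.thr 38 55 (.thr 12 8 (.thr 25 51 (.thr 13 49 (.dbl 15 10 14))))) (.rp 38 (.thr 12 8 (.thr 42 63 (.thr 32 47 (.thr 48 16 (.thr 36 24 (.thr 20 52 (.dbl 40 44 60))))))) (.rp 25 (.thr 38 55 (.thr 39 36 (.thr 15 10 (.thr 42 63 (.thr 34 46 (.dbl 51 17 27)))))) (.rp 12 (.thr 38 55 (.thr 39 36 (.thr 15 10 (.thr 51 27 (.thr 34 17 (.dbl 42 46 63)))))) (.rp 8 (.thr 38 55 (.thr 39 36 (.thr 15 10 (.thr 51 27 (.thr 17 34 (.dbl 25 12 29)))))) .nd)))))))))) (.rp 6 (.str 0 (.nv (.thr 38 55 (.thr 39 36 (.thr 12 8 (.thr 51 25 (.dbl 15 10 27))))) (.nv (.thr 12 8 (.thr 42 63 (.thr 32 47 (.thr 48 16 (.thr 36 24 (.dbl 38 39 55)))))) (.nv (.thr 12 8 (.thr 38 55 (.thr 25 51 (.thr 63 42 (.dbl 29 17 46))))) (.rp 55 (.thr 12 8 (.thr 42 63 (.thr 32 47 (.thr 48 16 (.thr 36 24 (.thr 40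 44 (.dbl 20 52 60))))))) (.rp 42 (.thr 38 55 (.thr 12 8 (.thr 25 51 (.thr 13 49 (.dbl 15 10 14))))) (.rp 38 (.thr 12 8 (.thr 42 63 (.thr 32 47 (.thr 48 16 (.thr 36 24 (.thr 20 52 (.dbl 40 44 60))))))) (.rp 25 (.thr 38 55 (.thr 36 39 (.thr 12 8 (.thr 42 63 (.thr 32 47 (.dbl 48 16 24)))))) (.rp 12 (.thr 38 55 (.thr 36 39 (.thr 42 63 (.thr 32 47 (.thr 40 44 (.dbl 20 52 60)))))) (.rp 8 (.thr 38 55 (.thr 36 39 (.thr 42 63 (.thr 32 47 (.thr 40 44 (.dbl 20 52 60)))))) .nd)))))))))) .nd)))))))))))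

theorem w496 : WinAt (137441050656, 9007199321849858) :=
  chF (K := []) kn c496 137441050656 9007199321849858 53
    [] (by decide +kernel) (by decide +kernel)

/-- A certificate. -/
noncomputable def c497 : Ct := (.str 7 (.nv (.thr 4 6 (.thr 22 52 (.thr 55 38 (.dbl 23 20 39)))) (.nv (.thr 22 52 (.thr 23 20 (.thr 55 39 (.dbl 4 6 38)))) (.rp 55 (.str 13 (.nv (.thr 52 22 (.thr 1 9 (.thr 41 61 (.thr 49 25 (.dbl 33 17 45))))) (.nv (.thr 1 9 (.thr 25 49 (.thr 29 17 (.dbl 61 41 45)))) (.rp 61 (.thr 6 4 (.thr 22 52 (.thr 54 38 (.thr 9 1 (.thr 3 12 (.thr 41 60 (.dbl 25 49 57))))))) (.rp 52 (.str 54 (.nv (.thr 6 4 (.thr 25 49 (.thr 38 22 (.thr 12 51 (.thr 3 9 (.dbl 15 11 14)))))) (.nv (.thr 1 9 (.thr 25 49 (.thr 29 17 (.dbl 61 41 45)))) (.rp 61 (.thr 6 4 (.thr 38 22 (.thr 9 1 (.thr 25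 49 (.thr 57 41 (.dbl 12 3 51)))))) (.rp 57 (.thr 1 9 (.thr 61 41 (.thr 25 49 (.dbl 29 17 45)))) (.rp 49 (.thr 6 4 (.thr 22 38 (.thr 20 23 (.thr 9 1 (.thr 3 12 (.thr 60 41 (.thr 0 40 (.dbl 15 10 11)))))))) (.rp 25 (.thr 6 4 (.thr 38 22 (.thr 36 39 (.thr 1 9 (.thr 41 61 (.thr 45 33 (.thr 44 35 (.thr 47 46 (.dbl 32 40 42))))))))) (.rp 9 (.thr 6 4 (.thr 38 22 (.thr 25 49 (.thr 29 17 (.thr 12 51 (.thr 63 46 (.thr 15 14 (.dbl 0 10 42)))))))) .nd)))))))) (.rp 49 (.thr 6 4 (.thr 22 52 (.thr 54 38 (.thr 20 23 (.thr 9 1 (.thr 3 12 (.thr 60 41 (.thr 0 40 (.dbl 15 10 11))))))))) (.rp 45 (.thr 6 4 (.thr 22 52 (.thr 54 38 (.thr 9 1 (.thr 3 12 (.thr 41 60 (.dbl 25 49 57))))))) (.rp 41 (.thr 4 6 (.thr 52 22 (.thr 36 20 (.thr 38 39 (.thr 25 49 (.thr 12 51 (.thr 0 8 (.dbl 15 10 14)))))))) (.rp 25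 (.thr 4 6 (.thr 52 22 (.thr 36 20 (.thr 38 39 (.thr 1 9 (.thr 41 61 (.thr 45 33 (.thr 44 35 (.thr 47 46 (.dbl 32 40 42)))))))))) (.rp 17 (.thr 6 4 (.thr 22 52 (.thr 54 38 (.thr 9 1 (.thr 3 12 (.thr 41 60 (.dbl 25 49 57))))))) (.rp 9 (.thr 4 6 (.thr 52 22 (.thr 36 20 (.thr 38 39 (.thr 25 49 (.thr 12 51 (.thr 0 8 (.dbl 15 10 14)))))))) (.rp 1 (.thr 4 6 (.thr 52 22 (.thr 36 20 (.thr 38 39 (.thr 25 49 (.thr 12 51 (.thr 0 8 (.dbl 15 10 14)))))))) .nd)))))))))))) (.rp 52 (.str 41 (.nv (.thr 33 45 (.thr 1 61 (.thr 49 17 (.dbl 13 9 25)))) (.rp 61 (.thr 4 6 (.thr 55 38 (.thr 23 39 (.thr 22 20 (.thr 3 60 (.thr 63 43 (.thr 15 11 (.dbl 0 10 42)))))))) (.rp 55 (.str 54 (.nv (.thr 1 61 (.thr 6 4 (.thr 22 38 (.thr 3 60 (.dbl 9 12 13))))) (.nv (.thr 33 45 (.thr 1 61 (.thr 49 17 (.dbl 13 9 25))))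 (.rp 61 (.thr 6 4 (.thr 22 38 (.thr 3 60 (.thr 9 12 (.thr 13 1 (.dbl 25 49 57)))))) (.rp 49 (.thr 6 4 (.thr 22 38 (.thr 3 60 (.thr 9 12 (.dbl 1 13 61))))) (.rp 13 (.thr 45 33 (.thr 6 4 (.thr 22 38 (.thr 60 3 (.thr 15 30 (.thr 20 23 (.dbl 0 10 40))))))) (.rp 9 (.thr 45 33 (.thr 6 4 (.thr 22 38 (.thr 60 3 (.thr 15 30 (.thr 20 23 (.dbl 0 10 40))))))) (.rp 1 (.thr 45 33 (.thr 6 4 (.thr 22 38 (.thr 20 23 (.thr 60 3 (.thr 0 40 (.dbl 15 10 30))))))) .nd)))))))) (.rp 54 (.str 55 (.nv (.dbl 4 6 38) (.rp 38 (.thr 33 45 (.thr 1 61 (.thr 49 17 (.dbl 13 9 25)))) (.rp 6 (.thr 39 23 (.dbl 38 4 36)) (.rp 4 (.thr 33 45 (.thr 1 61 (.thr 49 17 (.dbl 13 9 25)))) .nd))))) (.rp 49 (.thr 4 6 (.thr 55 38 (.thr 23 39 (.thr 22 20 (.thr 3 60 (.thr 63 43 (.thr 15 11 (.dbl 0 10 42)))))))) (.rp 45 (.thr 4 6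 (.thr 55 38 (.thr 23 39 (.thr 22 20 (.thr 3 60 (.thr 63 43 (.thr 15 11 (.dbl 0 10 42)))))))) (.rp 33 (.thr 4 6 (.thr 55 38 (.thr 23 39 (.thr 22 20 (.thr 3 60 (.thr 63 43 (.thr 15 11 (.dbl 0 10 42)))))))) (.rp 29 (.thr 33 45 (.thr 1 61 (.thr 13 9 (.dbl 49 17 25)))) (.rp 25 (.thr 45 33 (.thr 1 61 (.thr 9 13 (.thr 6 4 (.thr 3 12 (.thr 15 11 (.dbl 60 22 30))))))) (.rp 17 (.thr 45 33 (.thr 1 61 (.thr 9 13 (.thr 6 4 (.thr 3 12 (.thr 15 11 (.dbl 60 22 30))))))) (.rp 13 (.thr 4 6 (.thr 55 38 (.thr 23 39 (.thr 22 20 (.thr 3 60 (.thr 63 43 (.thr 15 11 (.dbl 0 10 42)))))))) (.rp 9 (.thr 4 6 (.thr 55 38 (.thr 23 39 (.thr 22 20 (.thr 3 60 (.thr 63 43 (.thr 15 11 (.dbl 0 10 42)))))))) (.rp 1 (.thr 4 6 (.thr 55 38 (.thr 23 39 (.thr 22 20 (.thr 3 60 (.thr 63 43 (.thr 15 11 (.dbl 0 10 42))))))))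 .nd)))))))))))))) (.rp 39 (.str 13 (.nv (.thr 1 9 (.thr 41 61 (.thr 49 25 (.dbl 33 17 45)))) (.nv (.thr 1 9 (.thr 25 49 (.thr 29 17 (.dbl 61 41 45)))) (.rp 61 (.thr 6 4 (.thr 22 52 (.thr 9 1 (.thr 3 12 (.thr 41 60 (.dbl 25 49 57)))))) (.rp 49 (.thr 6 4 (.thr 22 52 (.thr 20 23 (.thr 9 1 (.thr 3 12 (.thr 60 41 (.thr 0 40 (.dbl 15 10 11)))))))) (.rp 45 (.thr 4 6 (.thr 38 55 (.thr 25 49 (.thr 12 51 (.thr 0 8 (.dbl 15 10 14)))))) (.rp 41 (.thr 4 6 (.thr 38 55 (.thr 25 49 (.thr 12 51 (.thr 0 8 (.dbl 15 10 14)))))) (.rp 25 (.thr 6 4 (.thr 22 52 (.thr 20 23 (.thr 9 1 (.thr 3 12 (.thr 60 41 (.thr 0 40 (.dbl 15 10 11)))))))) (.rp 17 (.thr 4 6 (.thr 38 55 (.thr 25 49 (.thr 12 51 (.thr 0 8 (.dbl 15 10 14)))))) (.rp 9 (.thr 4 6 (.thr 38 55 (.thr 25 49 (.thr 12 51 (.thr 0 8 (.dbl 15 10 14))))))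 (.rp 1 (.thr 4 6 (.thr 38 55 (.thr 25 49 (.thr 12 51 (.thr 0 8 (.dbl 15 10 14)))))) .nd))))))))))) (.rp 38 (.str 0 (.nv (.thr 22 52 (.thr 20 23 (.thr 60 40 (.thr 41 3 (.thr 61 1 (.dbl 63 42 62)))))) (.nv (.thr 4 6 (.thr 10 15 (.thr 8 12 (.thr 9 11 (.thr 13 1 (.thr 25 49 (.dbl 42 59 63))))))) (.nv (.thr 22 52 (.thr 20 23 (.thr 60 40 (.thr 15 10 (.dbl 3 11 41))))) (.rp 54 (.thr 6 4 (.thr 15 10 (.thr 3 11 (.thr 9 12 (.thr 1 13 (.thr 41 61 (.dbl 22 52 60))))))) (.rp 50 (.str 14 (.nv (.thr 15 10 (.thr 12 13 (.dbl 4 6 8))) (.nv (.thr 15 10 (.thr 22 52 (.thr 20 23 (.thr 60 40 (.dbl 3 11 41))))) (.nv (.thr 4 6 (.thr 12 8 (.dbl 15 10 13))) (.rp 34 (.str 18 (.nv (.thr 22 52 (.thr 20 23 (.thr 60 40 (.thr 3 41 (.dbl 15 10 11))))) (.nv (.thr 15 10 (.thr 12 13 (.dbl 4 6 8))) (.rp 46 (.thr 42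 63 (.thr 4 6 (.thr 15 10 (.dbl 12 8 13)))) (.rp 42 (.str 46 (.nv (.thr 22 52 (.thr 20 23 (.thr 30 62 (.thr 60 40 (.dbl 15 10 45))))) (.nv (.thr 4 6 (.thr 12 8 (.dbl 15 10 13))) (.rp 62 (.thr 22 52 (.thr 4 6 (.thr 12 8 (.dbl 15 10 13)))) (.rp 58 (.thr 10 15 (.thr 22 52 (.thr 20 23 (.thr 62 30 (.thr 60 40 (.thr 41 3 (.dbl 61 1 63))))))) (.rp 54 (.thr 6 4 (.thr 52 22 (.thr 62 30 (.str 3 (.nv (.dbl 15 10 11) (.rp 58 (.thr 10 15 (.thr 48 33 (.thr 60 56 (.thr 63 61 (.dbl 12 9 29))))) (.rp 15 (.thr 48 33 (.thr 60 56 (.thr 63 61 (.dbl 12 9 29)))) (.rp 11 (.thr 12 9 (.dbl 15 10 13)) (.rp 10 (.str 58 (.nv (.thr 9 12 (.thr 1 13 (.thr 33 48 (.dbl 41 45 61)))) (.nv (.thr 12 9 (.dbl 15 11 13)) (.rp 13 (.thr 48 33 (.thr 60 56 (.thr 63 61 (.dbl 12 9 29)))) (.rp 12 (.thr 33 48 (.thr 41 45 (.thr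 1 61 (.thr 49 17 (.dbl 13 9 25))))) (.rp 9 (.thr 48 33 (.thr 60 56 (.thr 63 61 (.thr 12 29 (.dbl 15 11 13))))) .nd)))))) .nd))))))))) (.rp 22 (.thr 62 30 (.thr 6 4 (.str 3 (.nv (.dbl 15 10 11) (.rp 58 (.thr 10 15 (.thr 9 12 (.thr 1 13 (.thr 41 61 (.dbl 33 45 48))))) (.rp 15 (.thr 33 48 (.thr 9 12 (.thr 1 13 (.dbl 41 45 61)))) (.rp 11 (.thr 12 9 (.dbl 15 10 13)) (.rp 10 (.str 58 (.nv (.thr 9 12 (.thr 1 13 (.thr 33 48 (.dbl 41 45 61)))) (.nv (.thr 12 9 (.dbl 15 11 13)) (.rp 13 (.thr 33 48 (.thr 41 45 (.thr 61 1 (.thr 12 9 (.dbl 63 29 60))))) (.rp 12 (.thr 33 48 (.thr 41 45 (.thr 1 61 (.thr 49 17 (.dbl 13 9 25))))) (.rp 9 (.thr 33 48 (.thr 41 45 (.thr 1 61 (.thr 49 17 (.thr 13 25 (.dbl 15 11 12)))))) .nd)))))) .nd)))))))) (.rp 15 (.thr 22 52 (.thr 20 23 (.thr 62 30 (.thr 60 40 (.thr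 61 63 (.dbl 41 1 3)))))) (.rp 10 (.str 58 (.nv (.thr 22 52 (.thr 20 23 (.thr 60 40 (.thr 41 3 (.thr 61 1 (.dbl 62 30 63)))))) (.nv (.thr 4 6 (.thr 12 8 (.thr 13 15 (.thr 25 49 (.dbl 29 17 63))))) (.nv (.thr 22 52 (.thr 30 62 (.thr 20 23 (.thr 60 40 (.thr 15 45 (.dbl 3 11 41)))))) (.rp 62 (.thr 22 52 (.thr 4 6 (.thr 12 8 (.thr 13 15 (.thr 25 49 (.dbl 29 17 63)))))) (.rp 54 (.thr 6 4 (.thr 62 30 (.str 20 (.nv (.dbl 22 23 52) (.rp 55 (.thr 52 22 (.thr 60 40 (.thr 63 61 (.thr 12 29 (.thr 13 15 (.dbl 9 1 3)))))) (.rp 52 (.str 55 (.nv (.dbl 23 22 39) (.rp 39 (.thr 22 23 (.thr 60 40 (.thr 61 63 (.dbl 41 1 3)))) (.rp 23 (.thr 60 40 (.thr 63 61 (.thr 12 29 (.thr 13 15 (.dbl 9 1 3))))) (.rp 22 (.thr 23 39 (.thr 60 40 (.thr 63 61 (.thr 12 29 (.dbl 3 9 43))))) .nd))))) (.rp 23 (.thr 60 40 (.thr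 61 63 (.thr 41 1 (.dbl 22 3 52)))) (.rp 22 (.thr 60 40 (.thr 63 61 (.thr 12 29 (.thr 13 15 (.dbl 9 1 3))))) .nd)))))))) (.rp 22 (.thr 62 30 (.str 15 (.nv (.thr 6 4 (.thr 12 13 (.dbl 3 9 11))) (.nv (.thr 12 13 (.dbl 4 6 8)) (.rp 13 (.thr 3 11 (.thr 33 48 (.thr 41 45 (.thr 61 1 (.thr 6 4 (.thr 63 60 (.dbl 12 9 29))))))) (.rp 12 (.thr 3 11 (.thr 33 48 (.thr 41 45 (.thr 1 61 (.thr 49 17 (.dbl 13 9 25)))))) (.rp 6 (.str 54 (.nv (.thr 12 13 (.thr 63 29 (.thr 61 60 (.thr 41 1 (.thr 45 33 (.dbl 47 31 44)))))) (.nv (.thr 13 12 (.thr 25 49 (.thr 17 29 (.thr 16 19 (.thr 48 32 (.dbl 3 11 33)))))) (.nv (.thr 3 11 (.thr 13 12 (.thr 9 1 (.thr 33 48 (.thr 41 45 (.dbl 25 49 57)))))) (.nv (.thr 12 13 (.thr 63 29 (.thr 61 60 (.thr 41 1 (.thr 33 45 (.dbl 3 11 48)))))) (.rp 33 (.thr 3 11 (.thr 12 13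 (.thr 63 29 (.thr 23 43 (.thr 39 55 (.thr 27 51 (.dbl 31 19 47))))))) (.rp 13 (.thr 3 11 (.thr 33 48 (.thr 41 45 (.thr 61 1 (.thr 63 60 (.thr 23 43 (.thr 39 55 (.thr 31 47 (.dbl 27 19 51))))))))) (.rp 12 (.thr 3 11 (.thr 33 48 (.thr 41 45 (.thr 1 61 (.thr 49 17 (.dbl 13 9 25)))))) .nd)))))))) (.rp 4 (.thr 3 11 (.thr 33 48 (.thr 41 45 (.thr 1 61 (.dbl 13 9 12))))) .nd)))))))) .nd))))))) .nd))))))))) (.rp 15 (.thr 22 52 (.thr 20 23 (.thr 60 40 (.thr 41 3 (.thr 61 1 (.dbl 63 42 62)))))) (.rp 10 (.thr 4 6 (.thr 12 8 (.thr 13 15 (.thr 25 49 (.thr 29 17 (.dbl 63 42 46)))))) .nd))))))) (.rp 18 (.str 34 (.nv (.thr 6 4 (.thr 15 10 (.thr 12 13 (.dbl 3 9 11)))) (.nv (.thr 4 6 (.thr 8 12 (.thr 17 51 (.thr 25 29 (.dbl 42 59 63))))) (.nv (.thr 15 10 (.thr 3 11 (.thr 22 52 (.thr 20 23 (.dbl 60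 40 41))))) (.nv (.thr 4 6 (.thr 12 8 (.dbl 15 10 13))) (.rp 30 (.thr 22 52 (.thr 4 6 (.thr 15 10 (.dbl 12 8 13)))) (.rp 22 (.str 30 (.nv (.thr 15 10 (.thr 60 45 (.thr 62 46 (.dbl 63 42 61)))) (.nv (.thr 15 10 (.thr 12 13 (.dbl 4 6 8))) (.rp 62 (.thr 42 63 (.thr 15 10 (.thr 12 13 (.dbl 4 6 8)))) (.rp 58 (.thr 17 51 (.thr 25 29 (.thr 49 13 (.thr 33 1 (.thr 32 35 (.dbl 42 47 63)))))) (.rp 54 (.thr 6 4 (.thr 15 10 (.thr 12 13 (.dbl 3 9 11)))) (.rp 42 (.thr 62 46 (.thr 17 51 (.thr 25 29 (.thr 49 13 (.thr 33 1 (.thr 45 41 (.dbl 15 10 60))))))) (.rp 15 (.thr 17 51 (.thr 42 63 (.thr 25 29 (.thr 49 13 (.thr 33 1 (.dbl 32 35 47)))))) (.rp 10 (.thr 17 51 (.thr 42 63 (.thr 32 47 (.thr 33 35 (.thr 49 1 (.dbl 25 13 29)))))) (.rp 6 (.str 54 (.nv (.thr 15 10 (.thr 60 45 (.thr 62 46 (.dbl 63 42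 61)))) (.nv (.thr 51 17 (.thr 60 57 (.thr 62 46 (.dbl 63 42 61)))) (.nv (.thr 15 10 (.thr 60 45 (.dbl 51 17 57))) (.rp 62 (.thr 42 63 (.thr 51 17 (.thr 15 10 (.dbl 60 45 57)))) (.rp 60 (.thr 17 51 (.thr 15 10 (.thr 13 12 (.dbl 25 29 49)))) (.rp 42 (.thr 62 46 (.thr 51 17 (.thr 60 57 (.dbl 15 10 45)))) .nd))))))) .nd)))))))))) .nd))))))) (.rp 15 (.thr 22 52 (.thr 20 23 (.thr 63 42 (.thr 60 40 (.thr 61 62 (.dbl 41 1 3)))))) (.rp 10 (.thr 4 6 (.thr 12 8 (.thr 13 15 (.thr 25 49 (.thr 29 17 (.dbl 63 42 46)))))) .nd)))))))) (.rp 42 (.thr 22 52 (.thr 20 23 (.thr 60 40 (.thr 41 3 (.thr 45 33 (.dbl 15 10 30)))))) (.rp 41 (.thr 4 6 (.thr 12 8 (.thr 42 63 (.thr 32 47 (.thr 48 16 (.thr 36 24 (.dbl 52 20 22))))))) (.rp 22 (.thr 6 4 (.thr 15 10 (.thr 3 11 (.thr 9 12 (.thr 1 13 (.thr 41 61 (.thr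 45 33 (.thr 42 63 (.thr 40 43 (.dbl 60 20 30)))))))))) (.rp 14 (.str 50 (.nv (.thr 22 52 (.thr 20 23 (.thr 60 40 (.thr 41 3 (.thr 45 33 (.dbl 15 10 30)))))) (.nv (.thr 6 4 (.thr 22 52 (.thr 20 23 (.thr 60 40 (.thr 41 3 (.thr 61 1 (.dbl 63 42 62))))))) (.nv (.thr 6 4 (.thr 15 10 (.thr 3 11 (.thr 9 12 (.thr 1 13 (.thr 41 61 (.dbl 22 52 60))))))) (.nv (.thr 22 52 (.thr 20 23 (.thr 6 4 (.thr 15 10 (.thr 60 40 (.dbl 3 11 41)))))) (.rp 60 (.thr 22 52 (.thr 23 20 (.thr 63 42 (.thr 3 43 (.dbl 15 10 11))))) (.rp 52 (.thr 6 4 (.thr 15 10 (.thr 3 11 (.thr 9 12 (.thr 1 13 (.thr 41 61 (.thr 60 22 (.dbl 45 30 33)))))))) (.rp 41 (.thr 22 52 (.thr 23 20 (.thr 55 39 (.thr 63 42 (.thr 51 59 (.thr 49 48 (.thr 25 13 (.dbl 17 29 34)))))))) (.rp 22 (.thr 42 63 (.thr 32 47 (.thr 48 16 (.thr 51 49 (.thr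 17 34 (.thr 25 29 (.thr 8 59 (.dbl 4 6 12)))))))) (.rp 6 (.thr 10 15 (.thr 22 52 (.thr 20 23 (.thr 63 42 (.thr 60 40 (.thr 61 62 (.dbl 41 1 3))))))) (.rp 3 (.thr 52 22 (.thr 42 63 (.thr 32 47 (.thr 48 16 (.thr 60 56 (.thr 20 40 (.dbl 4 6 36))))))) .nd))))))))))) .nd)))))))))) (.rp 23 (.thr 4 6 (.thr 38 55 (.thr 36 39 (.dbl 52 20 22)))) (.rp 22 (.str 42 (.nv (.thr 0 63 (.thr 4 6 (.thr 32 47 (.thr 38 55 (.thr 36 39 (.thr 40 44 (.dbl 20 52 60))))))) (.nv (.thr 4 6 (.thr 32 47 (.thr 0 63 (.thr 48 16 (.thr 12 8 (.thr 36 24 (.dbl 38 39 55))))))) (.nv (.thr 4 6 (.thr 0 63 (.thr 12 8 (.thr 38 55 (.thr 34 46 (.dbl 51 17 25)))))) (.rp 63 (.thr 4 6 (.thr 47 32 (.thr 38 55 (.thr 46 34 (.thr 44 45 (.thr 35 41 (.dbl 39 36 43))))))) (.rp 55 (.thr 4 6 (.thr 0 63 (.thr 10 15 (.thr 8 12 (.thr 9 11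 (.thr 13 1 (.dbl 25 49 59))))))) (.rp 54 (.thr 47 32 (.thr 63 0 (.thr 15 31 (.thr 3 11 (.thr 23 43 (.thr 55 39 (.dbl 4 6 38))))))) (.rp 48 (.thr 4 6 (.thr 47 32 (.thr 38 55 (.thr 46 34 (.thr 44 45 (.thr 35 41 (.dbl 39 36 43))))))) (.rp 38 (.thr 6 4 (.thr 47 32 (.thr 63 0 (.thr 15 31 (.thr 3 11 (.thr 12 9 (.thr 29 46 (.thr 25 17 (.dbl 13 14 49))))))))) (.rp 30 (.str 18 (.nv (.thr 0 63 (.thr 4 6 (.thr 12 8 (.thr 38 55 (.thr 34 46 (.dbl 51 17 25)))))) (.nv (.thr 32 47 (.thr 0 63 (.thr 48 16 (.thr 3 33 (.dbl 15 10 11))))) (.rp 63 (.thr 4 6 (.thr 38 55 (.thr 39 36 (.thr 47 32 (.thr 35 43 (.thr 46 34 (.dbl 44 41 45))))))) (.rp 48 (.thr 4 6 (.thr 38 55 (.thr 39 36 (.thr 47 32 (.thr 35 43 (.thr 46 34 (.dbl 44 41 45))))))) (.rp 10 (.thr 0 63 (.thr 32 47 (.thr 48 16 (.thr 33 3 (.thr 34 35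 (.thr 38 46 (.dbl 4 6 55))))))) (.rp 0 (.thr 4 6 (.thr 38 55 (.thr 39 36 (.thr 47 32 (.thr 35 43 (.thr 46 34 (.dbl 44 41 45))))))) .nd))))))) (.rp 18 (.str 30 (.nv (.thr 0 63 (.thr 4 6 (.thr 10 15 (.thr 12 8 (.thr 38 55 (.thr 36 39 (.thr 48 24 (.dbl 32 16 47)))))))) (.nv (.thr 0 63 (.thr 4 6 (.thr 32 47 (.thr 38 55 (.thr 36 39 (.thr 40 44 (.dbl 20 52 60))))))) (.nv (.thr 0 63 (.thr 4 6 (.thr 12 8 (.thr 15 10 (.thr 14 13 (.thr 45 60 (.thr 47 32 (.dbl 46 44 62)))))))) (.nv (.thr 4 6 (.thr 38 55 (.thr 0 63 (.thr 12 8 (.thr 34 46 (.dbl 51 17 25)))))) (.rp 63 (.thr 4 6 (.thr 38 55 (.thr 36 39 (.thr 32 47 (.thr 44 40 (.thr 34 46 (.dbl 35 33 41))))))) (.rp 58 (.thr 4 6 (.thr 38 55 (.thr 36 39 (.thr 32 47 (.thr 0 63 (.thr 48 16 (.dbl 12 8 24))))))) (.rp 54 (.thr 63 0 (.thr 47 32 (.thr 15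 31 (.thr 45 60 (.thr 46 44 (.thr 14 62 (.dbl 12 13 29))))))) (.rp 50 (.str 34 (.nv (.thr 38 46 (.dbl 4 6 55)) (.rp 55 (.thr 4 6 (.thr 38 46 (.thr 0 63 (.thr 12 8 (.dbl 51 17 25))))) (.rp 46 (.thr 4 6 (.thr 0 63 (.thr 12 8 (.thr 38 55 (.dbl 51 17 25))))) (.rp 38 (.str 14 (.nv (.thr 47 32 (.thr 62 46 (.thr 63 0 (.thr 15 31 (.dbl 60 45 61))))) (.nv (.thr 0 63 (.thr 15 10 (.thr 12 13 (.dbl 4 6 8)))) (.rp 63 (.thr 32 47 (.thr 33 35 (.thr 41 45 (.thr 1 61 (.thr 13 9 (.dbl 49 17 25)))))) (.rp 54 (.thr 6 4 (.thr 0 63 (.thr 15 10 (.thr 12 13 (.dbl 3 9 11))))) (.rp 48 (.thr 47 32 (.thr 46 62 (.thr 45 44 (.thr 15 60 (.dbl 0 10 63))))) (.rp 15 (.thr 32 47 (.thr 33 35 (.thr 41 45 (.thr 1 61 (.thr 13 9 (.dbl 49 17 25)))))) (.rp 6 (.str 54 (.nv (.thr 46 62 (.thr 47 32 (.thr 63 0 (.thr 12 29 (.dbl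 15 13 31))))) (.nv (.thr 0 63 (.thr 15 10 (.thr 60 45 (.dbl 51 17 57)))) (.rp 63 (.thr 32 47 (.thr 33 35 (.thr 41 45 (.thr 1 61 (.thr 49 17 (.dbl 13 9 25)))))) (.rp 48 (.thr 46 62 (.thr 63 0 (.thr 29 12 (.thr 31 28 (.dbl 47 15 32))))) (.rp 15 (.thr 62 46 (.thr 63 0 (.thr 32 47 (.thr 33 35 (.thr 61 60 (.dbl 41 1 45)))))) (.rp 0 (.thr 46 62 (.thr 47 32 (.thr 45 44 (.thr 15 60 (.thr 63 31 (.dbl 12 13 29)))))) .nd))))))) (.rp 0 (.thr 47 32 (.thr 46 62 (.thr 45 44 (.thr 15 60 (.thr 12 13 (.dbl 63 29 31)))))) .nd))))))))) (.rp 6 (.thr 38 46 (.thr 39 36 (.dbl 55 4 23))) (.rp 4 (.thr 38 46 (.thr 39 36 (.thr 0 63 (.thr 15 10 (.dbl 51 17 27))))) .nd))))))) (.rp 48 (.thr 4 6 (.thr 38 55 (.thr 36 39 (.thr 32 47 (.thr 44 40 (.thr 34 46 (.dbl 35 33 41))))))) (.rp 38 (.thr 63 0 (.thr 47 32 (.thr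 15 31 (.thr 45 60 (.thr 46 44 (.thr 14 62 (.dbl 12 13 29))))))) (.rp 34 (.str 50 (.nv (.thr 0 63 (.thr 4 6 (.thr 8 12 (.thr 10 15 (.thr 9 11 (.thr 13 1 (.dbl 25 49 59))))))) (.nv (.thr 47 32 (.thr 63 0 (.thr 15 31 (.thr 3 11 (.thr 43 23 (.thr 45 60 (.dbl 41 33 40))))))) (.nv (.thr 0 63 (.thr 4 6 (.thr 12 8 (.thr 38 55 (.thr 51 25 (.thr 36 39 (.dbl 48 24 49))))))) (.rp 63 (.thr 47 32 (.thr 4 6 (.thr 38 55 (.thr 39 36 (.thr 35 43 (.thr 44 41 (.thr 45 46 (.thr 60 15 (.thr 12 28 (.thr 8 0 (.dbl 25 51 59))))))))))) (.rp 48 (.thr 47 32 (.thr 4 6 (.thr 38 55 (.thr 39 36 (.thr 35 43 (.thr 44 41 (.thr 45 46 (.thr 60 15 (.thr 12 28 (.dbl 0 8 63)))))))))) (.rp 0 (.thr 47 32 (.thr 4 6 (.thr 38 55 (.thr 39 36 (.thr 35 43 (.thr 44 41 (.thr 45 46 (.thr 60 15 (.thr 28 12 (.thr 29 31 (.thr 13 61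 (.dbl 25 17 49)))))))))))) .nd))))))) (.rp 10 (.thr 63 0 (.thr 47 32 (.thr 15 31 (.thr 45 60 (.thr 46 44 (.thr 14 62 (.dbl 12 13 29))))))) (.rp 6 (.thr 63 0 (.thr 47 32 (.thr 15 31 (.thr 45 60 (.thr 46 44 (.thr 14 62 (.dbl 12 13 29))))))) (.rp 4 (.thr 63 0 (.thr 47 32 (.thr 15 31 (.thr 45 60 (.thr 46 44 (.thr 14 62 (.dbl 12 13 29))))))) (.rp 0 (.thr 4 6 (.thr 38 55 (.thr 36 39 (.thr 32 47 (.thr 44 40 (.thr 34 46 (.dbl 35 33 41))))))) .nd)))))))))))))))) (.rp 14 (.thr 47 32 (.thr 63 0 (.thr 15 31 (.thr 3 11 (.thr 23 43 (.thr 55 39 (.dbl 4 6 38))))))) (.rp 10 (.thr 47 32 (.thr 63 0 (.thr 15 31 (.thr 3 11 (.thr 23 43 (.thr 55 39 (.dbl 4 6 38))))))) (.rp 6 (.thr 47 32 (.thr 63 0 (.thr 15 31 (.thr 3 11 (.thr 43 23 (.thr 39 35 (.thr 38 36 (.thr 55 4 (.dbl 51 27 59))))))))) (.rp 4 (.thr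 47 32 (.thr 63 0 (.thr 15 31 (.thr 3 11 (.thr 43 23 (.thr 35 39 (.thr 41 40 (.thr 45 33 (.dbl 44 38 46))))))))) (.rp 0 (.thr 4 6 (.thr 47 32 (.thr 38 55 (.thr 46 34 (.thr 44 45 (.thr 35 41 (.dbl 39 36 43))))))) .nd)))))))))))))))) (.rp 20 (.str 13 (.nv (.thr 1 9 (.thr 41 61 (.thr 49 25 (.dbl 33 17 45)))) (.nv (.thr 1 9 (.thr 25 49 (.thr 29 17 (.dbl 61 41 45)))) (.rp 61 (.thr 4 6 (.thr 38 55 (.thr 9 1 (.thr 25 49 (.thr 57 41 (.thr 12 51 (.thr 0 8 (.dbl 15 10 14)))))))) (.rp 49 (.thr 4 6 (.thr 38 55 (.thr 1 9 (.thr 61 41 (.thr 29 45 (.thr 25 17 (.thr 12 51 (.thr 63 46 (.dbl 0 8 42))))))))) (.rp 45 (.thr 4 6 (.thr 38 55 (.thr 25 49 (.thr 12 51 (.thr 0 8 (.dbl 15 10 14)))))) (.rp 41 (.thr 4 6 (.thr 38 55 (.thr 25 49 (.thr 12 51 (.thr 0 8 (.dbl 15 10 14)))))) (.rp 25 (.thr 4 6 (.thr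 38 55 (.thr 39 36 (.thr 1 9 (.thr 41 61 (.thr 33 45 (.thr 35 44 (.thr 32 34 (.dbl 47 42 43))))))))) (.rp 17 (.thr 4 6 (.thr 38 55 (.thr 25 49 (.thr 12 51 (.thr 0 8 (.dbl 15 10 14)))))) (.rp 9 (.thr 4 6 (.thr 38 55 (.thr 25 49 (.thr 12 51 (.thr 0 8 (.dbl 15 10 14)))))) (.rp 1 (.thr 4 6 (.thr 38 55 (.thr 25 49 (.thr 12 51 (.thr 0 8 (.dbl 15 10 14)))))) .nd))))))))))) (.rp 6 (.thr 22 52 (.str 55 (.nv (.dbl 23 20 39) (.rp 39 (.str 0 (.nv (.thr 63 42 (.thr 51 59 (.thr 17 34 (.thr 25 29 (.dbl 38 4 12))))) (.nv (.thr 20 23 (.thr 60 40 (.thr 3 41 (.dbl 15 10 11)))) (.rp 42 (.thr 20 23 (.thr 60 40 (.thr 41 3 (.thr 45 33 (.dbl 15 10 30))))) (.rp 14 (.thr 10 15 (.thr 20 23 (.thr 60 40 (.thr 41 3 (.thr 61 1 (.dbl 63 42 62)))))) (.rp 10 (.str 14 (.nv (.thr 4 38 (.thr 12 8 (.thr 15 13 (.thr 20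 23 (.thr 60 40 (.dbl 3 11 41)))))) (.nv (.thr 20 23 (.thr 38 4 (.thr 40 60 (.thr 42 63 (.thr 32 47 (.thr 44 36 (.dbl 41 35 43))))))) (.nv (.thr 4 38 (.thr 12 8 (.thr 13 15 (.thr 25 49 (.thr 17 29 (.thr 51 34 (.dbl 63 42 59))))))) (.nv (.thr 20 23 (.thr 60 40 (.thr 41 3 (.thr 61 1 (.dbl 63 42 62))))) (.rp 58 (.thr 42 63 (.str 48 (.nv (.dbl 32 16 47) (.rp 47 (.thr 38 4 (.thr 34 46 (.thr 51 17 (.thr 49 50 (.dbl 25 12 13))))) (.rp 32 (.thr 38 4 (.thr 34 46 (.thr 51 17 (.thr 49 50 (.dbl 25 12 13))))) (.rp 16 (.thr 38 4 (.thr 34 46 (.thr 51 17 (.thr 49 50 (.dbl 25 12 13))))) .nd)))))) (.rp 42 (.str 58 (.nv (.thr 20 23 (.thr 60 40 (.thr 41 3 (.thr 45 33 (.thr 30 15 (.thr 62 46 (.dbl 61 1 63))))))) (.nv (.thr 4 38 (.thr 12 8 (.thr 13 15 (.thr 25 49 (.thr 28 19 (.thr 29 17 (.thr 46 63 (.dbl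 30 31 62)))))))) (.nv (.thr 4 38 (.thr 12 8 (.thr 13 15 (.thr 20 23 (.thr 25 49 (.thr 28 19 (.dbl 60 40 44))))))) (.nv (.thr 20 23 (.thr 60 40 (.thr 41 3 (.thr 33 45 (.thr 1 61 (.thr 49 17 (.dbl 13 9 25))))))) (.rp 61 (.thr 4 38 (.thr 20 23 (.thr 12 8 (.thr 15 13 (.thr 60 40 (.dbl 3 11 41)))))) (.rp 12 (.str 9 (.nv (.thr 13 1 (.thr 25 49 (.thr 57 41 (.thr 17 29 (.thr 51 34 (.dbl 59 56 63)))))) (.nv (.thr 1 13 (.thr 20 23 (.thr 60 40 (.dbl 41 3 61)))) (.rp 41 (.thr 13 1 (.thr 25 49 (.thr 17 29 (.thr 51 34 (.thr 63 59 (.thr 23 20 (.thr 19 28 (.dbl 3 35 43)))))))) (.rp 40 (.thr 1 13 (.thr 41 61 (.thr 57 25 (.thr 59 56 (.thr 51 63 (.dbl 60 3 54)))))) (.rp 13 (.thr 20 23 (.thr 60 40 (.thr 41 3 (.thr 57 25 (.thr 59 56 (.dbl 51 54 63)))))) (.rp 1 (.thr 20 23 (.thr 60 40 (.thr 41 3 (.thr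 57 25 (.thr 59 56 (.dbl 51 54 63)))))) .nd))))))) (.rp 9 (.str 11 (.nv (.thr 3 15 (.thr 20 23 (.dbl 60 40 41))) (.nv (.thr 15 3 (.thr 12 13 (.dbl 4 8 38))) (.rp 15 (.thr 4 38 (.thr 20 23 (.thr 12 8 (.thr 60 40 (.thr 41 3 (.thr 45 33 (.thr 61 1 (.thr 29 13 (.dbl 63 46 62))))))))) (.rp 3 (.str 12 (.nv (.dbl 4 8 38) (.rp 38 (.thr 13 15 (.thr 20 23 (.thr 60 40 (.thr 28 44 (.dbl 25 19 49))))) (.rp 8 (.thr 13 15 (.thr 38 4 (.dbl 25 49 51))) (.rp 4 (.thr 13 15 (.thr 25 49 (.thr 17 29 (.dbl 51 34 38)))) .nd))))) .nd))))) .nd)))))))) .nd))))))) .nd)))))) (.rp 23 (.thr 38 4 (.thr 36 39 (.str 1 (.nv (.thr 13 9 (.thr 25 49 (.thr 61 41 (.dbl 29 17 45)))) (.nv (.thr 41 61 (.thr 44 35 (.thr 32 40 (.thr 45 33 (.dbl 47 42 46))))) (.nv (.thr 41 61 (.thr 33 45 (.thr 49 17 (.dbl 13 9 25)))) (.rp 61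 (.thr 13 9 (.thr 49 25 (.thr 33 17 (.thr 41 45 (.thr 3 60 (.thr 48 18 (.thr 35 44 (.dbl 51 19 50)))))))) (.rp 49 (.thr 9 13 (.thr 41 61 (.thr 57 25 (.thr 45 33 (.thr 44 35 (.thr 47 46 (.dbl 32 40 42))))))) (.rp 45 (.thr 13 9 (.thr 25 49 (.thr 19 28 (.thr 51 12 (.thr 3 35 (.dbl 41 60 61)))))) (.rp 41 (.thr 13 9 (.thr 25 49 (.thr 29 17 (.thr 12 51 (.thr 63 46 (.thr 0 42 (.dbl 15 10 14))))))) (.rp 14 (.str 10 (.nv (.thr 15 0 (.thr 3 11 (.dbl 41 60 61))) (.nv (.thr 41 61 (.thr 33 45 (.thr 49 17 (.dbl 13 9 25)))) (.nv (.thr 9 13 (.thr 11 8 (.dbl 15 0 3))) .nd)))) (.rp 10 (.str 14 (.nv (.thr 41 61 (.thr 44 35 (.thr 32 40 (.thr 45 33 (.dbl 47 42 46))))) (.nv (.thr 13 9 (.thr 12 15 (.dbl 25 49 51))) (.rp 58 (.str 42 (.nv (.thr 63 0 (.thr 13 9 (.thr 12 15 (.dbl 25 49 51)))) (.nv (.thr 32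 47 (.thr 44 40 (.dbl 41 35 61))) (.rp 63 (.str 48 (.nv (.thr 41 61 (.thr 44 35 (.dbl 32 40 47))) (.nv (.thr 12 24 (.dbl 13 9 15)) (.rp 43 (.str 3 (.nv (.thr 47 32 (.thr 12 24 (.dbl 13 9 15))) (.nv (.dbl 41 60 61) (.rp 47 (.str 35 (.nv (.thr 12 24 (.dbl 13 9 15)) (.nv (.dbl 41 44 60) (.rp 31 (.thr 15 11 (.dbl 12 13 24)) (.rp 15 (.str 31 (.nv (.dbl 41 44 60) (.nv (.thr 51 19 (.dbl 12 24 25)) (.rp 51 (.str 27 (.nv (.thr 33 18 (.dbl 34 32 46)) (.nv (.dbl 41 44 60) .nd))) .nd)))) .nd))))) .nd)))) (.rp 3 (.str 43 (.nv (.thr 12 24 (.dbl 13 9 15)) (.nv (.dbl 41 40 61) (.rp 12 (.thr 9 13 (.dbl 41 40 61)) (.rp 9 (.thr 12 24 (.dbl 41 40 61)) .nd))))) .nd))))) .nd)))) (.rp 49 (.thr 61 41 (.thr 13 9 (.thr 29 45 (.thr 12 15 (.dbl 25 17 51))))) (.rp 42 (.str 58 (.nv (.thr 41 61 (.thr 33 45 (.thr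 49 17 (.dbl 13 9 25)))) (.nv (.thr 13 9 (.thr 12 15 (.dbl 25 49 51))) (.rp 49 (.thr 61 41 (.thr 13 9 (.thr 12 15 (.thr 29 45 (.dbl 25 17 51))))) (.rp 25 (.thr 41 61 (.thr 3 60 (.thr 15 11 (.dbl 13 9 12)))) (.rp 13 (.thr 41 61 (.thr 44 35 (.thr 60 3 (.thr 45 33 (.thr 30 15 (.dbl 46 47 62)))))) (.rp 9 (.thr 41 61 (.thr 35 44 (.thr 3 60 (.thr 51 19 (.thr 12 25 (.dbl 15 11 13)))))) .nd))))))) .nd)))))) .nd)))))))))))) (.rp 20 (.thr 39 23 (.dbl 38 4 36)) (.rp 14 (.str 10 (.nv (.dbl 23 20 39) (.rp 50 (.thr 38 4 (.dbl 23 20 39)) (.rp 39 (.thr 20 23 (.thr 0 15 (.thr 63 42 (.thr 60 40 (.thr 41 3 (.dbl 61 1 62)))))) (.rp 38 (.str 50 (.nv (.dbl 23 20 39) (.rp 39 (.thr 20 23 (.thr 0 15 (.thr 63 42 (.thr 60 40 (.thr 41 3 (.dbl 61 1 62)))))) (.rp 23 (.thr 15 0 (.thr 3 11 (.thr 41 60 (.thr 33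 45 (.thr 48 18 (.thr 49 51 (.dbl 1 17 61))))))) (.rp 20 (.thr 39 23 (.thr 15 0 (.thr 3 11 (.thr 51 27 (.thr 19 35 (.thr 49 48 (.dbl 25 13 28))))))) .nd))))) (.rp 23 (.thr 38 4 (.thr 0 15 (.thr 63 42 (.thr 51 59 (.thr 17 34 (.dbl 25 12 29)))))) (.rp 20 (.thr 39 23 (.dbl 38 4 36)) .nd))))))) (.rp 10 (.str 14 (.nv (.dbl 23 20 39) (.rp 58 (.str 42 (.nv (.thr 63 0 (.thr 39 23 (.dbl 38 4 36))) (.nv (.dbl 23 20 39) (.rp 63 (.str 48 (.nv (.dbl 23 20 39) (.rp 39 (.thr 38 4 (.thr 20 23 (.thr 32 47 (.thr 0 16 (.thr 40 60 (.thr 44 36 (.dbl 41 35 43))))))) (.rp 23 (.thr 38 4 (.thr 36 39 (.thr 12 24 (.thr 13 15 (.dbl 25 49 51))))) (.rp 20 (.thr 39 23 (.dbl 38 4 36)) .nd))))) (.rp 39 (.thr 23 20 (.thr 63 0 (.thr 3 43 (.thr 15 11 (.dbl 47 31 32))))) (.rp 23 (.thr 38 4 (.thr 63 0 (.thr 46 34 (.thr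 12 29 (.dbl 51 25 59))))) .nd)))))) (.rp 42 (.str 58 (.nv (.dbl 23 20 39) (.rp 39 (.str 12 (.nv (.thr 13 15 (.thr 1 9 (.thr 25 49 (.thr 29 17 (.dbl 61 41 45))))) (.nv (.thr 13 15 (.thr 38 4 (.dbl 25 49 51))) (.rp 51 (.thr 15 13 (.thr 20 23 (.thr 4 38 (.thr 0 8 (.thr 60 40 (.dbl 3 11 41)))))) (.rp 49 (.thr 13 15 (.thr 38 4 (.thr 1 9 (.thr 61 41 (.thr 29 45 (.dbl 25 17 51)))))) (.rp 27 (.thr 15 13 (.thr 20 23 (.thr 4 38 (.thr 0 8 (.thr 60 40 (.dbl 3 11 41)))))) (.rp 25 (.thr 13 15 (.thr 38 4 (.thr 1 9 (.thr 41 61 (.thr 44 35 (.dbl 60 3 28)))))) (.rp 15 (.thr 38 4 (.thr 51 25 (.thr 59 63 (.thr 57 56 (.thr 60 54 (.thr 44 28 (.dbl 41 3 35))))))) (.rp 13 (.thr 38 4 (.thr 25 51 (.thr 29 17 (.thr 46 63 (.thr 30 62 (.dbl 28 19 31)))))) .nd))))))))) (.rp 23 (.str 12 (.nv (.thr 13 15 (.thr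 1 9 (.thr 25 49 (.thr 29 17 (.dbl 61 41 45))))) (.nv (.thr 13 15 (.thr 38 4 (.dbl 25 49 51))) (.rp 49 (.thr 15 13 (.thr 38 4 (.thr 51 25 (.dbl 39 27 36)))) (.rp 25 (.thr 13 15 (.thr 38 4 (.thr 1 9 (.thr 41 61 (.thr 44 35 (.dbl 60 3 28)))))) (.rp 15 (.thr 38 4 (.thr 25 51 (.thr 13 49 (.thr 29 17 (.thr 61 45 (.dbl 1 9 41)))))) (.rp 13 (.thr 38 4 (.thr 25 51 (.thr 29 17 (.thr 46 63 (.thr 30 62 (.dbl 28 19 31)))))) .nd))))))) (.rp 20 (.thr 39 23 (.dbl 38 4 36)) .nd))))) (.rp 39 (.str 42 (.nv (.thr 47 32 (.thr 63 0 (.thr 15 31 (.thr 3 11 (.thr 43 23 (.dbl 41 40 60)))))) (.nv (.thr 38 4 (.thr 46 34 (.thr 63 0 (.thr 12 29 (.dbl 51 25 59))))) (.nv (.thr 23 20 (.thr 47 32 (.thr 63 0 (.thr 3 43 (.dbl 15 11 31))))) (.rp 63 (.thr 38 4 (.thr 47 32 (.thr 46 34 (.thr 45 44 (.thr 30 62 (.thr 60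 15 (.dbl 41 3 33))))))) (.rp 3 (.thr 38 4 (.thr 47 32 (.thr 46 34 (.thr 45 44 (.thr 30 62 (.thr 15 60 (.dbl 63 0 31))))))) (.rp 0 (.thr 38 4 (.thr 47 32 (.thr 46 34 (.thr 45 44 (.thr 30 62 (.thr 60 15 (.dbl 41 3 33))))))) .nd))))))) (.rp 23 (.str 42 (.nv (.thr 38 4 (.thr 63 0 (.thr 46 34 (.thr 12 29 (.dbl 51 25 59))))) (.nv (.thr 47 32 (.thr 63 0 (.thr 15 31 (.thr 13 12 (.thr 25 49 (.dbl 59 8 51)))))) (.nv (.thr 32 47 (.thr 38 4 (.thr 36 39 (.thr 34 46 (.thr 44 40 (.dbl 35 33 41)))))) (.rp 4 (.thr 63 0 (.thr 47 32 (.thr 15 31 (.thr 12 13 (.thr 46 29 (.thr 45 44 (.dbl 30 60 62))))))) .nd))))) (.rp 20 (.thr 39 23 (.dbl 38 4 36)) .nd))))))) .nd)))))))) (.rp 4 (.str 41 (.nv (.thr 22 52 (.thr 20 23 (.thr 60 3 (.thr 0 40 (.thr 61 1 (.dbl 63 42 62)))))) (.nv (.thr 22 52 (.thr 20 23 (.thr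 45 33 (.thr 60 3 (.thr 0 40 (.dbl 15 10 30)))))) (.nv (.thr 33 45 (.thr 1 61 (.thr 49 17 (.dbl 13 9 25)))) .nd)))) .nd))))))))))))

theorem w497 : WinAt (137441050656, 9007199321849860) :=
  chF (K := []) kn c497 137441050656 9007199321849860 53
    [] (by decide +kernel) (by decide +kernel)

/-- A certificate. -/
noncomputable def c498 : Ct := (.str 38 (.nv (.thr 39 36 (.thr 55 4 (.thr 52 54 (.dbl 7 22 23)))) (.rp 55 (.str 49 (.nv (.thr 13 25 (.thr 61 57 (.thr 41 1 (.dbl 45 29 33)))) (.nv (.thr 25 13 (.thr 12 51 (.thr 29 17 (.thr 36 39 (.thr 48 24 (.dbl 63 46 58)))))) (.nv (.thr 25 13 (.thr 17 29 (.thr 61 57 (.dbl 1 33 41)))) (.rp 29 (.thr 36 39 (.thr 61 57 (.thr 41 1 (.thr 45 33 (.thr 44 35 (.thr 47 46 (.dbl 32 40 42))))))) (.rp 25 (.thr 36 39 (.thr 61 57 (.thr 41 1 (.thr 45 33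 (.thr 44 35 (.thr 47 46 (.dbl 32 40 42))))))) (.rp 13 (.thr 61 57 (.thr 1 41 (.thr 17 33 (.thr 25 29 (.thr 51 12 (.thr 0 34 (.thr 48 50 (.dbl 63 42 58)))))))) (.rp 1 (.thr 36 39 (.thr 61 57 (.thr 13 25 (.thr 45 29 (.thr 41 33 (.thr 44 35 (.thr 47 46 (.dbl 32 40 42)))))))) .nd)))))))) (.rp 54 (.str 49 (.nv (.thr 25 13 (.thr 51 12 (.thr 48 50 (.thr 55 4 (.dbl 63 58 59))))) (.nv (.thr 25 13 (.thr 17 29 (.thr 61 57 (.dbl 1 33 41)))) (.rp 51 (.thr 25 13 (.thr 17 29 (.thr 1 33 (.dbl 61 41 57)))) (.rp 25 (.thr 36 39 (.thr 61 57 (.thr 41 1 (.thr 45 33 (.thr 44 35 (.thr 47 46 (.dbl 32 40 42))))))) (.rp 13 (.thr 55 4 (.thr 61 57 (.thr 1 41 (.thr 17 33 (.thr 25 29 (.thr 51 12 (.thr 0 34 (.dbl 63 42 59)))))))) (.rp 9 (.thr 61 57 (.thr 1 41 (.thr 25 13 (.dbl 17 29 33)))) (.rp 1 (.thr 55 4 (.thr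 57 61 (.thr 25 13 (.thr 9 41 (.thr 51 12 (.thr 48 50 (.dbl 63 58 59))))))) .nd)))))))) (.rp 52 (.str 49 (.nv (.thr 25 13 (.thr 51 12 (.thr 48 50 (.thr 55 4 (.dbl 63 58 59))))) (.nv (.thr 25 13 (.thr 17 29 (.thr 61 57 (.dbl 1 33 41)))) (.rp 25 (.thr 36 39 (.thr 61 57 (.thr 41 1 (.thr 45 33 (.thr 44 35 (.thr 47 46 (.dbl 32 40 42))))))) (.rp 13 (.thr 55 4 (.thr 61 57 (.thr 1 41 (.thr 17 33 (.thr 25 29 (.thr 51 12 (.thr 0 34 (.dbl 63 42 59)))))))) (.rp 9 (.thr 61 57 (.thr 1 41 (.thr 25 13 (.dbl 17 29 33)))) (.rp 1 (.thr 55 4 (.thr 57 61 (.thr 25 13 (.thr 9 41 (.thr 51 12 (.thr 48 50 (.dbl 63 58 59))))))) .nd))))))) (.rp 39 (.str 49 (.nv (.thr 55 4 (.thr 54 52 (.thr 57 61 (.thr 51 60 (.dbl 25 12 13))))) (.nv (.thr 25 13 (.thr 51 12 (.thr 48 50 (.thr 55 4 (.dbl 63 58 59))))) (.nv (.thr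 25 13 (.thr 17 29 (.thr 61 57 (.dbl 1 33 41)))) (.rp 25 (.thr 55 4 (.thr 54 52 (.thr 57 61 (.thr 51 60 (.thr 48 50 (.dbl 63 58 59)))))) (.rp 13 (.thr 55 4 (.thr 54 52 (.thr 57 61 (.thr 51 60 (.thr 48 50 (.dbl 63 58 59)))))) .nd)))))) (.rp 36 (.str 0 (.nv (.thr 55 4 (.thr 63 42 (.thr 51 59 (.thr 25 12 (.thr 49 13 (.dbl 48 50 58)))))) (.nv (.thr 42 63 (.thr 32 47 (.thr 34 46 (.thr 48 16 (.thr 51 17 (.thr 49 50 (.dbl 25 12 13))))))) (.nv (.thr 4 55 (.thr 12 8 (.thr 51 25 (.thr 34 17 (.dbl 42 46 63))))) (.rp 63 (.thr 4 55 (.thr 12 8 (.thr 51 25 (.thr 34 17 (.thr 42 46 (.thr 32 47 (.thr 48 16 (.thr 49 50 (.thr 33 35 (.thr 61 57 (.dbl 41 1 45))))))))))) (.rp 51 (.thr 55 4 (.thr 52 54 (.thr 42 63 (.thr 32 47 (.thr 48 16 (.thr 60 56 (.thr 20 40 (.dbl 22 7 23)))))))) (.rp 42 (.thr 4 55 (.thr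 12 8 (.thr 25 51 (.thr 17 29 (.thr 49 13 (.thr 1 33 (.dbl 61 41 57))))))) (.rp 25 (.thr 55 4 (.thr 52 54 (.thr 42 63 (.thr 32 47 (.thr 48 16 (.thr 60 56 (.thr 20 40 (.dbl 22 7 23)))))))) (.rp 12 (.thr 55 4 (.thr 63 42 (.thr 51 59 (.thr 17 34 (.thr 25 29 (.thr 49 13 (.dbl 48 50 58))))))) .nd))))))))) (.rp 23 (.str 63 (.nv (.thr 55 4 (.thr 36 39 (.thr 51 59 (.thr 12 25 (.dbl 48 24 58))))) (.nv (.thr 39 36 (.thr 42 0 (.thr 47 32 (.thr 35 43 (.thr 44 41 (.dbl 46 34 45)))))) (.nv (.thr 55 4 (.thr 51 59 (.thr 25 12 (.thr 17 29 (.dbl 0 34 42))))) (.rp 42 (.thr 55 4 (.thr 51 59 (.thr 25 12 (.thr 49 13 (.dbl 48 50 58))))) .nd))))) (.rp 22 (.thr 36 39 (.str 41 (.nv (.thr 45 33 (.thr 61 1 (.thr 13 29 (.dbl 49 25 57)))) (.nv (.thr 45 33 (.thr 44 35 (.thr 32 40 (.dbl 47 42 46)))) (.rp 48 (.thr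 44 35 (.thr 32 40 (.thr 47 42 (.dbl 45 33 46)))) (.rp 45 (.thr 44 35 (.thr 40 32 (.thr 4 55 (.thr 20 52 (.thr 0 60 (.dbl 42 43 63)))))) (.rp 33 (.thr 44 35 (.thr 32 40 (.thr 47 42 (.thr 45 46 (.thr 61 1 (.thr 49 57 (.dbl 13 25 29))))))) (.rp 30 (.str 18 (.nv (.thr 44 35 (.thr 32 40 (.thr 45 33 (.dbl 47 42 46)))) (.nv (.thr 61 1 (.thr 49 57 (.thr 45 33 (.dbl 13 25 29)))) (.rp 45 (.thr 55 4 (.thr 54 52 (.thr 61 1 (.thr 57 49 (.thr 60 51 (.thr 63 62 (.thr 48 58 (.thr 12 24 (.dbl 44 28 35))))))))) (.rp 33 (.thr 61 1 (.thr 49 57 (.thr 44 35 (.thr 32 40 (.thr 47 42 (.thr 45 46 (.dbl 13 25 29))))))) .nd))))) (.rp 18 (.str 30 (.nv (.thr 4 55 (.thr 20 52 (.thr 44 35 (.thr 40 32 (.thr 0 60 (.dbl 42 43 63)))))) (.nv (.thr 61 1 (.thr 49 57 (.thr 13 25 (.dbl 45 29 33)))) (.rp 48 (.thr 33 45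 (.thr 4 55 (.thr 20 52 (.thr 1 61 (.thr 44 35 (.thr 40 32 (.thr 17 49 (.thr 29 25 (.thr 28 31 (.dbl 60 0 12)))))))))) (.rp 33 (.str 48 (.nv (.thr 4 55 (.thr 12 24 (.thr 52 20 (.thr 60 56 (.dbl 44 28 35))))) (.nv (.thr 44 35 (.thr 32 40 (.thr 0 16 (.dbl 42 47 63)))) (.nv (.thr 61 1 (.thr 49 57 (.thr 12 24 (.dbl 25 13 51)))) .nd)))) (.rp 19 (.thr 55 4 (.thr 54 52 (.thr 61 1 (.thr 57 49 (.thr 51 60 (.dbl 25 9 12)))))) (.rp 0 (.thr 44 35 (.thr 32 40 (.thr 47 42 (.dbl 45 33 46)))) .nd))))))) .nd))))))))) (.rp 7 (.thr 39 36 (.thr 4 55 (.str 0 (.nv (.thr 12 8 (.thr 25 51 (.thr 17 29 (.thr 49 13 (.thr 1 33 (.dbl 61 41 57)))))) (.nv (.thr 42 63 (.thr 46 34 (.thr 47 32 (.thr 44 45 (.dbl 35 41 43))))) (.nv (.thr 12 8 (.thr 51 25 (.thr 34 17 (.dbl 42 46 63)))) (.rp 63 (.thr 12 8 (.thr 51 25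 (.thr 34 17 (.thr 42 46 (.thr 32 47 (.thr 48 16 (.thr 49 50 (.thr 33 35 (.thr 61 57 (.dbl 41 1 45)))))))))) (.rp 59 (.thr 12 8 (.thr 51 25 (.thr 42 63 (.dbl 34 17 46)))) (.rp 51 (.thr 8 12 (.thr 42 63 (.thr 59 25 (.thr 47 32 (.thr 46 34 (.thr 44 45 (.dbl 35 41 43))))))) (.rp 15 (.str 11 (.nv (.thr 12 8 (.thr 25 51 (.thr 17 29 (.thr 49 13 (.thr 1 33 (.dbl 61 41 57)))))) (.nv (.thr 42 63 (.thr 46 34 (.thr 47 32 (.thr 44 45 (.dbl 35 41 43))))) (.nv (.thr 63 42 (.thr 12 8 (.thr 29 46 (.dbl 25 17 51)))) (.rp 63 (.thr 12 8 (.thr 51 25 (.thr 34 17 (.thr 42 46 (.thr 47 32 (.thr 43 35 (.thr 40 41 (.thr 60 20 (.thr 57 54 (.thr 49 61 (.thr 48 50 (.thr 56 52 (.dbl 59 27 58))))))))))))) (.rp 59 (.thr 63 42 (.thr 12 8 (.thr 25 51 (.dbl 29 17 46)))) (.rp 51 (.thr 8 12 (.thr 42 63 (.thr 59 25 (.thr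 47 32 (.dbl 43 27 35))))) .nd))))))) (.rp 11 (.str 15 (.nv (.thr 42 63 (.thr 34 46 (.dbl 51 17 27))) (.nv (.thr 12 8 (.dbl 51 25 27)) (.rp 56 (.str 41 (.nv (.thr 33 45 (.thr 35 44 (.thr 32 34 (.dbl 42 47 63)))) (.nv (.thr 51 27 (.dbl 12 8 25)) .nd))) (.rp 51 (.thr 63 42 (.thr 12 8 (.thr 13 14 (.thr 29 46 (.dbl 25 17 49))))) (.rp 41 (.str 56 (.nv (.thr 42 63 (.thr 34 46 (.dbl 51 17 27))) (.nv (.thr 12 8 (.dbl 51 25 27)) (.rp 60 (.str 22 (.nv (.thr 42 63 (.thr 34 46 (.dbl 51 17 27))) (.nv (.thr 12 8 (.dbl 51 25 27)) (.rp 51 (.thr 12 8 (.thr 13 14 (.thr 63 42 (.thr 29 46 (.dbl 25 17 49))))) (.rp 27 (.thr 12 8 (.thr 13 14 (.dbl 25 49 51))) (.rp 12 (.thr 42 63 (.thr 51 27 (.dbl 34 17 46))) .nd)))))) (.rp 51 (.thr 12 8 (.thr 13 14 (.thr 63 42 (.thr 29 46 (.dbl 25 17 49))))) (.rp 27 (.thr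 12 8 (.thr 13 14 (.dbl 25 49 51))) (.rp 22 (.str 60 (.nv (.thr 30 45 (.thr 48 52 (.dbl 63 42 58))) (.nv (.thr 40 20 (.dbl 8 12 24)) (.rp 30 (.str 18 (.nv (.thr 12 8 (.dbl 51 25 27)) (.nv (.thr 48 52 (.dbl 63 42 58)) .nd))) .nd)))) (.rp 12 (.thr 42 63 (.thr 51 27 (.dbl 34 17 46))) .nd)))))))) (.rp 27 (.thr 12 8 (.thr 13 14 (.dbl 25 49 51))) (.rp 12 (.thr 42 63 (.thr 51 27 (.dbl 34 17 46))) .nd)))))))) .nd))))))))))) (.rp 6 (.thr 39 36 (.thr 55 4 (.thr 7 23 (.dbl 52 22 54)))) (.rp 4 (.str 7 (.nv (.thr 39 36 (.thr 23 55 (.dbl 22 20 52))) (.rp 55 (.str 61 (.nv (.thr 49 57 (.thr 13 25 (.thr 41 1 (.dbl 45 29 33)))) (.nv (.thr 49 57 (.thr 25 13 (.thr 17 29 (.dbl 1 33 41)))) (.rp 57 (.thr 39 36 (.thr 41 1 (.thr 33 45 (.thr 35 44 (.thr 32 34 (.dbl 47 42 43)))))) (.rp 49 (.thr 39 36 (.thr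 41 1 (.thr 33 45 (.thr 35 44 (.thr 32 34 (.dbl 47 42 43)))))) (.rp 41 (.thr 22 52 (.thr 20 23 (.thr 54 6 (.thr 57 49 (.thr 60 51 (.thr 63 62 (.dbl 0 40 42))))))) (.rp 33 (.thr 52 22 (.thr 49 57 (.thr 25 13 (.thr 51 12 (.thr 48 50 (.thr 60 56 (.dbl 63 58 62))))))) (.rp 29 (.thr 22 52 (.thr 54 6 (.thr 57 49 (.thr 51 60 (.thr 41 1 (.dbl 25 9 12)))))) (.rp 25 (.thr 39 36 (.thr 41 1 (.thr 33 45 (.thr 35 44 (.thr 32 34 (.dbl 47 42 43)))))) (.rp 13 (.thr 22 52 (.thr 20 23 (.thr 54 6 (.thr 57 49 (.thr 60 51 (.thr 63 62 (.dbl 0 40 42))))))) (.rp 1 (.thr 22 52 (.thr 20 23 (.thr 54 6 (.thr 57 49 (.thr 60 51 (.thr 63 62 (.dbl 0 40 42))))))) .nd))))))))))) (.rp 52 (.thr 36 39 (.str 44 (.nv (.thr 32 40 (.thr 42 47 (.thr 46 34 (.thr 63 0 (.thr 12 29 (.dbl 48 24 58)))))) (.nv (.thr 41 35 (.thr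 61 1 (.thr 49 57 (.thr 13 25 (.dbl 45 29 33))))) (.nv (.thr 32 40 (.thr 42 47 (.thr 34 46 (.dbl 35 33 41)))) (.rp 47 (.thr 40 32 (.thr 41 35 (.thr 43 42 (.thr 61 1 (.thr 49 57 (.thr 13 25 (.dbl 45 29 33))))))) (.rp 43 (.thr 32 40 (.thr 47 42 (.thr 41 35 (.dbl 45 33 46)))) (.rp 35 (.thr 32 40 (.thr 47 42 (.thr 45 46 (.thr 41 33 (.thr 61 1 (.thr 13 29 (.dbl 49 25 57))))))) .nd)))))))) (.rp 39 (.str 63 (.nv (.thr 52 22 (.thr 55 54 (.thr 51 59 (.thr 25 12 (.thr 49 13 (.dbl 48 50 58)))))) (.nv (.thr 42 0 (.thr 46 34 (.thr 12 29 (.thr 51 25 (.thr 55 59 (.dbl 52 22 54)))))) (.nv (.thr 0 42 (.thr 22 52 (.thr 20 23 (.thr 60 40 (.thr 61 62 (.thr 57 49 (.dbl 54 6 51))))))) (.rp 54 (.thr 42 0 (.thr 47 32 (.thr 15 31 (.thr 46 34 (.thr 12 29 (.thr 13 14 (.dbl 25 49 51))))))) (.rp 52 (.thr 42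 0 (.thr 47 32 (.thr 15 31 (.thr 46 34 (.thr 12 29 (.thr 13 14 (.dbl 25 49 51))))))) (.rp 51 (.thr 22 52 (.thr 54 6 (.thr 58 48 (.thr 42 0 (.dbl 62 2 50))))) (.rp 22 (.thr 42 0 (.thr 47 32 (.thr 15 31 (.thr 46 34 (.thr 12 29 (.thr 13 14 (.dbl 25 49 51))))))) (.rp 0 (.thr 52 22 (.thr 54 55 (.thr 48 58 (.thr 60 56 (.thr 61 62 (.dbl 57 49 51)))))) .nd))))))))) (.rp 36 (.thr 22 52 (.thr 20 23 (.str 63 (.nv (.thr 54 6 (.thr 58 48 (.thr 62 50 (.dbl 42 0 2)))) (.nv (.thr 54 6 (.thr 42 0 (.thr 58 48 (.dbl 62 2 50)))) (.nv (.thr 0 42 (.thr 60 40 (.thr 61 62 (.thr 57 49 (.dbl 54 6 51))))) (.rp 62 (.thr 54 6 (.thr 0 42 (.thr 60 40 (.thr 51 57 (.thr 17 34 (.dbl 25 12 29)))))) (.rp 60 (.thr 42 0 (.thr 47 32 (.thr 15 31 (.thr 46 34 (.thr 12 29 (.thr 13 14 (.dbl 25 49 51))))))) (.rp 58 (.thr 54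 6 (.thr 42 0 (.thr 46 34 (.thr 12 29 (.thr 51 25 (.thr 60 57 (.dbl 62 2 61))))))) (.rp 54 (.thr 0 42 (.thr 60 40 (.thr 61 62 (.thr 49 57 (.thr 13 25 (.thr 45 29 (.dbl 41 1 33))))))) (.rp 42 (.thr 54 6 (.thr 58 48 (.thr 62 50 (.thr 60 61 (.thr 51 57 (.thr 0 40 (.thr 17 34 (.dbl 25 12 29)))))))) (.rp 6 (.thr 58 48 (.thr 0 42 (.thr 60 40 (.thr 61 62 (.thr 57 49 (.thr 51 54 (.dbl 59 55 56))))))) (.rp 0 (.thr 54 6 (.thr 58 48 (.thr 62 50 (.thr 60 61 (.thr 51 57 (.thr 12 25 (.thr 46 29 (.dbl 42 2 34)))))))) .nd))))))))))))) (.rp 23 (.str 63 (.nv (.thr 22 52 (.thr 42 0 (.thr 54 6 (.thr 58 48 (.dbl 62 2 50))))) (.nv (.thr 52 22 (.thr 55 54 (.thr 51 59 (.thr 25 12 (.thr 17 29 (.dbl 0 34 42)))))) (.nv (.thr 36 39 (.thr 48 58 (.thr 12 24 (.thr 29 46 (.dbl 25 17 51))))) (.rp 42 (.thr 52 22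 (.thr 55 54 (.thr 51 59 (.thr 25 12 (.thr 49 13 (.dbl 48 50 58)))))) (.rp 12 (.thr 52 22 (.thr 54 55 (.thr 48 58 (.thr 60 56 (.thr 61 62 (.dbl 57 49 51)))))) .nd)))))) (.rp 22 (.str 41 (.nv (.thr 33 45 (.thr 35 44 (.thr 32 34 (.thr 39 36 (.dbl 47 42 43))))) (.nv (.thr 45 33 (.thr 61 1 (.thr 13 29 (.dbl 49 25 57)))) (.rp 45 (.str 0 (.nv (.thr 1 61 (.thr 42 63 (.thr 34 46 (.thr 17 51 (.thr 49 33 (.dbl 25 13 29)))))) (.nv (.thr 42 63 (.thr 43 40 (.thr 35 44 (.dbl 47 32 39)))) (.rp 63 (.thr 36 39 (.thr 61 1 (.thr 49 57 (.thr 44 35 (.thr 32 40 (.thr 48 16 (.thr 51 50 (.dbl 12 24 25)))))))) (.rp 47 (.thr 39 36 (.thr 55 23 (.thr 63 42 (.thr 51 59 (.thr 17 34 (.dbl 25 12 29)))))) (.rp 44 (.thr 39 36 (.thr 55 23 (.thr 63 42 (.thr 51 59 (.thr 17 34 (.dbl 25 12 29)))))) (.rp 43 (.thr 39 36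 (.thr 55 23 (.thr 63 42 (.thr 51 59 (.thr 17 34 (.dbl 25 12 29)))))) (.rp 42 (.thr 36 39 (.thr 61 1 (.thr 49 57 (.thr 44 35 (.thr 32 40 (.thr 48 16 (.thr 51 50 (.dbl 12 24 25)))))))) (.rp 35 (.thr 39 36 (.thr 55 23 (.thr 63 42 (.thr 51 59 (.thr 17 34 (.dbl 25 12 29)))))) (.rp 30 (.str 18 (.nv (.thr 1 61 (.thr 42 63 (.thr 34 46 (.thr 17 51 (.thr 49 33 (.dbl 25 13 29)))))) (.nv (.thr 42 63 (.thr 43 40 (.thr 35 44 (.dbl 47 32 39)))) (.rp 63 (.thr 36 39 (.thr 44 35 (.thr 32 40 (.thr 16 48 (.thr 17 19 (.thr 51 34 (.dbl 25 12 29))))))) (.rp 60 (.str 15 (.nv (.thr 39 36 (.thr 51 27 (.thr 17 34 (.dbl 25 12 29)))) (.nv (.thr 36 39 (.thr 44 35 (.thr 32 40 (.dbl 42 47 63)))) (.rp 51 (.thr 63 42 (.thr 47 31 (.thr 39 36 (.dbl 35 43 44)))) (.rp 39 (.thr 42 63 (.thr 32 47 (.thr 16 48 (.thr 17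 19 (.dbl 34 46 51))))) (.rp 36 (.thr 42 63 (.thr 32 47 (.thr 16 48 (.thr 17 19 (.dbl 34 46 51))))) .nd)))))) (.rp 47 (.thr 39 36 (.thr 55 23 (.thr 63 42 (.thr 51 59 (.thr 17 34 (.dbl 25 12 29)))))) (.rp 44 (.thr 39 36 (.thr 55 23 (.thr 63 42 (.thr 51 59 (.thr 17 34 (.dbl 25 12 29)))))) (.rp 43 (.thr 39 36 (.thr 55 23 (.thr 63 42 (.thr 51 59 (.thr 17 34 (.dbl 25 12 29)))))) (.rp 42 (.thr 36 39 (.thr 44 35 (.thr 32 40 (.thr 16 48 (.thr 17 19 (.thr 51 34 (.dbl 25 12 29))))))) (.rp 35 (.thr 39 36 (.thr 55 23 (.thr 63 42 (.thr 51 59 (.thr 17 34 (.dbl 25 12 29)))))) (.rp 15 (.str 60 (.nv (.thr 36 39 (.thr 40 20 (.dbl 44 32 35))) (.nv (.thr 61 1 (.dbl 63 42 62)) .nd))) .nd))))))))))) (.rp 18 (.str 30 (.nv (.thr 1 61 (.thr 42 63 (.thr 34 46 (.thr 17 51 (.thr 33 49 (.dbl 32 35 47)))))) (.nv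 (.thr 42 63 (.thr 43 40 (.thr 35 44 (.dbl 47 32 39)))) (.rp 63 (.thr 36 39 (.thr 61 1 (.thr 44 35 (.thr 40 32 (.thr 60 20 (.thr 12 28 (.thr 57 49 (.dbl 25 9 51)))))))) (.rp 48 (.str 33 (.nv (.thr 35 44 (.thr 39 36 (.thr 42 63 (.dbl 43 40 47)))) (.nv (.thr 1 61 (.thr 17 49 (.thr 51 34 (.dbl 25 12 29)))) (.nv (.thr 35 44 (.thr 32 34 (.dbl 42 47 63))) .nd)))) (.rp 47 (.thr 39 36 (.thr 55 23 (.thr 63 42 (.thr 51 59 (.thr 25 12 (.dbl 17 29 34)))))) (.rp 44 (.thr 39 36 (.thr 55 23 (.thr 63 42 (.thr 51 59 (.thr 25 12 (.dbl 17 29 34)))))) (.rp 43 (.thr 39 36 (.thr 55 23 (.thr 63 42 (.thr 51 59 (.thr 25 12 (.dbl 17 29 34)))))) (.rp 42 (.thr 36 39 (.thr 61 1 (.thr 44 35 (.thr 40 32 (.thr 60 20 (.thr 12 28 (.thr 57 49 (.dbl 25 9 51)))))))) (.rp 35 (.thr 39 36 (.thr 55 23 (.thr 63 42 (.thr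 51 59 (.thr 25 12 (.dbl 17 29 34)))))) (.rp 33 (.str 48 (.nv (.thr 32 16 (.thr 36 39 (.dbl 44 35 40))) (.nv (.dbl 63 42 58) .nd))) (.rp 32 (.thr 39 36 (.thr 55 23 (.thr 63 42 (.thr 51 59 (.thr 25 12 (.dbl 17 29 34)))))) .nd)))))))))))) .nd))))))))))) (.rp 33 (.thr 61 1 (.thr 49 57 (.thr 13 25 (.thr 45 29 (.thr 44 35 (.thr 47 46 (.thr 36 39 (.dbl 32 40 42)))))))) (.rp 30 (.str 18 (.nv (.thr 33 45 (.thr 35 44 (.thr 32 34 (.thr 39 36 (.dbl 47 42 43))))) (.nv (.thr 61 1 (.thr 49 57 (.thr 45 33 (.dbl 13 25 29)))) (.rp 45 (.str 0 (.nv (.thr 1 61 (.thr 42 63 (.thr 34 46 (.thr 17 51 (.thr 49 33 (.dbl 25 13 29)))))) (.nv (.thr 42 63 (.thr 43 40 (.thr 35 44 (.dbl 47 32 39)))) (.rp 63 (.thr 36 39 (.thr 44 35 (.thr 32 40 (.thr 16 48 (.thr 17 19 (.thr 51 34 (.dbl 25 12 29))))))) (.rp 60 (.str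 15 (.nv (.thr 39 36 (.thr 51 27 (.thr 17 34 (.dbl 25 12 29)))) (.nv (.thr 36 39 (.thr 44 35 (.thr 32 40 (.dbl 42 47 63)))) (.rp 51 (.thr 63 42 (.thr 47 31 (.thr 39 36 (.dbl 35 43 44)))) (.rp 39 (.thr 42 63 (.thr 32 47 (.thr 16 48 (.thr 17 19 (.dbl 34 46 51))))) (.rp 36 (.thr 42 63 (.thr 32 47 (.thr 16 48 (.thr 17 19 (.dbl 34 46 51))))) .nd)))))) (.rp 47 (.thr 39 36 (.thr 55 23 (.thr 63 42 (.thr 51 59 (.thr 17 34 (.dbl 25 12 29)))))) (.rp 44 (.thr 39 36 (.thr 55 23 (.thr 63 42 (.thr 51 59 (.thr 17 34 (.dbl 25 12 29)))))) (.rp 43 (.thr 39 36 (.thr 55 23 (.thr 63 42 (.thr 51 59 (.thr 17 34 (.dbl 25 12 29)))))) (.rp 42 (.thr 36 39 (.thr 44 35 (.thr 32 40 (.thr 16 48 (.thr 17 19 (.thr 51 34 (.dbl 25 12 29))))))) (.rp 35 (.thr 39 36 (.thr 55 23 (.thr 63 42 (.thr 51 59 (.thr 17 34 (.dbl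 25 12 29)))))) (.rp 15 (.str 60 (.nv (.thr 36 39 (.thr 40 20 (.dbl 44 32 35))) (.nv (.thr 61 1 (.dbl 63 42 62)) .nd))) .nd))))))))))) (.rp 33 (.thr 36 39 (.thr 61 1 (.thr 49 57 (.thr 44 35 (.thr 32 40 (.thr 47 42 (.thr 45 46 (.dbl 13 25 29)))))))) .nd))))) (.rp 18 (.str 30 (.nv (.thr 61 1 (.thr 49 57 (.thr 13 25 (.dbl 45 29 33)))) (.nv (.thr 33 45 (.thr 39 36 (.thr 35 44 (.thr 47 43 (.dbl 32 34 42))))) (.rp 45 (.str 48 (.nv (.thr 35 44 (.thr 39 36 (.thr 47 43 (.thr 63 58 (.dbl 42 0 32))))) (.nv (.thr 61 1 (.thr 49 57 (.thr 51 50 (.dbl 25 12 13)))) (.rp 0 (.thr 63 58 (.thr 36 39 (.thr 12 24 (.thr 25 51 (.dbl 29 17 46))))) .nd)))) (.rp 33 (.str 48 (.nv (.thr 35 44 (.thr 39 36 (.thr 43 47 (.thr 63 58 (.dbl 42 0 40))))) (.nv (.thr 61 1 (.thr 49 57 (.thr 51 50 (.dbl 25 12 13)))) (.rp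 0 (.thr 63 58 (.thr 36 39 (.thr 12 24 (.thr 25 51 (.dbl 29 17 46))))) .nd)))) .nd))))) .nd))))))) (.rp 20 (.thr 39 36 (.thr 52 22 (.dbl 55 23 54))) .nd))))))))) .nd))))))))))))

theorem w498 : WinAt (9007336695791616, 67108904) :=
  chF (K := []) kn c498 9007336695791616 67108904 5
    [] (by decide +kernel) (by decide +kernel)

/-- A certificate. -/
noncomputable def c499 : Ct := (.str 1 (.nv (.thr 13 9 (.thr 41 61 (.thr 49 25 (.dbl 33 17 45)))) (.nv (.thr 13 9 (.thr 25 49 (.thr 29 17 (.dbl 61 41 45)))) (.rp 61 (.thr 13 9 (.thr 49 25 (.thr 33 17 (.thr 41 45 (.str 0 (.nv (.thr 3 2 (.thr 22 60 (.thr 63 42 (.dbl 23 20 43)))) (.nv (.thr 3 2 (.thr 22 60 (.thr 7 52 (.dbl 15 10 11)))) (.nv (.thr 42 63 (.thr 32 47 (.thr 35 34 (.thr 44 38 (.dbl 40 36 43))))) (.nv (.thr 3 2 (.thr 42 63 (.thr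 40 43 (.dbl 60 20 22)))) (.rp 63 (.thr 3 2 (.thr 60 22 (.thr 40 20 (.thr 42 43 (.thr 32 47 (.dbl 48 16 18)))))) (.rp 60 (.thr 2 3 (.thr 42 63 (.thr 62 22 (.thr 32 47 (.thr 48 16 (.thr 50 51 (.dbl 34 18 35))))))) (.rp 27 (.str 24 (.nv (.thr 3 2 (.thr 48 18 (.thr 16 32 (.thr 20 28 (.dbl 22 23 60))))) (.nv (.thr 15 10 (.thr 42 63 (.thr 32 47 (.thr 48 16 (.dbl 12 14 36))))) (.nv (.thr 3 2 (.thr 22 60 (.thr 23 20 (.dbl 63 42 43)))) (.rp 60 (.thr 3 2 (.thr 48 18 (.thr 12 36 (.dbl 15 10 14)))) .nd))))) (.rp 24 (.str 27 (.nv (.thr 3 2 (.thr 22 60 (.thr 7 52 (.dbl 15 10 11)))) (.nv (.thr 15 10 (.thr 51 39 (.thr 3 2 (.dbl 48 18 50)))) (.nv (.thr 15 10 (.thr 51 39 (.thr 48 50 (.thr 32 16 (.dbl 42 47 63))))) (.nv (.thr 3 2 (.thr 42 63 (.thr 40 43 (.dbl 60 20 22)))) (.rp 48 (.thr 15 10 (.thr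 3 2 (.thr 22 60 (.dbl 7 11 52)))) .nd)))))) .nd))))))))))))) (.rp 49 (.str 0 (.nv (.thr 3 2 (.thr 9 13 (.thr 41 61 (.thr 57 25 (.thr 22 60 (.thr 7 52 (.dbl 15 10 11))))))) (.nv (.thr 13 9 (.thr 15 10 (.thr 12 14 (.thr 61 41 (.thr 29 45 (.dbl 63 42 46)))))) (.nv (.thr 3 2 (.thr 63 42 (.thr 23 43 (.thr 22 20 (.dbl 41 60 61))))) (.rp 63 (.thr 3 2 (.thr 15 10 (.thr 7 11 (.thr 22 52 (.dbl 41 60 61))))) (.rp 61 (.str 57 (.nv (.thr 9 13 (.thr 10 15 (.thr 25 41 (.thr 42 63 (.dbl 8 11 59))))) (.nv (.thr 3 2 (.thr 15 10 (.thr 7 11 (.thr 22 52 (.thr 20 23 (.dbl 60 40 41)))))) (.nv (.thr 3 2 (.thr 63 42 (.thr 23 43 (.thr 22 20 (.thr 41 60 (.dbl 9 13 25)))))) (.nv (.thr 9 13 (.thr 25 41 (.thr 29 17 (.thr 3 2 (.thr 12 6 (.dbl 63 42 46)))))) (.rp 42 (.thr 9 13 (.thr 25 41 (.thr 3 2 (.thr 12 6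 (.thr 51 38 (.dbl 17 29 34)))))) (.rp 41 (.thr 13 9 (.thr 15 10 (.thr 12 14 (.thr 42 63 (.thr 32 47 (.thr 48 16 (.thr 36 24 (.thr 38 39 (.thr 34 46 (.dbl 51 17 25)))))))))) (.rp 10 (.thr 9 13 (.thr 41 25 (.thr 3 2 (.thr 60 22 (.thr 40 20 (.dbl 42 43 63)))))) (.rp 9 (.thr 3 2 (.thr 42 63 (.thr 32 47 (.thr 48 16 (.thr 33 18 (.thr 41 45 (.thr 40 43 (.dbl 60 20 22)))))))) .nd))))))))) (.rp 57 (.thr 61 41 (.thr 9 13 (.thr 3 2 (.thr 12 6 (.thr 42 63 (.thr 32 47 (.thr 48 16 (.thr 36 24 (.thr 38 39 (.thr 33 18 (.dbl 34 35 46))))))))))) (.rp 41 (.thr 13 9 (.thr 15 10 (.thr 12 14 (.thr 42 63 (.thr 32 47 (.thr 48 16 (.thr 36 24 (.thr 38 39 (.thr 34 46 (.dbl 51 17 25)))))))))) (.rp 10 (.thr 3 2 (.thr 42 63 (.thr 32 47 (.thr 48 16 (.thr 33 18 (.dbl 41 45 61)))))) (.rp 2 (.thr 13 9 (.thr 61 41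 (.thr 29 45 (.thr 63 42 (.thr 12 46 (.dbl 15 10 14)))))) .nd)))))))))) (.rp 45 (.str 0 (.nv (.thr 3 2 (.thr 13 9 (.thr 42 63 (.thr 32 47 (.thr 48 16 (.thr 33 18 (.dbl 49 17 25))))))) (.nv (.thr 13 9 (.thr 25 49 (.thr 17 29 (.thr 51 34 (.thr 12 38 (.dbl 15 10 14)))))) (.nv (.thr 3 2 (.thr 63 42 (.thr 23 43 (.thr 22 20 (.dbl 41 60 61))))) (.rp 42 (.thr 41 61 (.thr 3 2 (.thr 22 60 (.thr 7 52 (.dbl 15 10 11))))) .nd))))) (.rp 41 (.str 0 (.nv (.thr 13 9 (.thr 25 49 (.thr 17 29 (.thr 51 34 (.thr 38 12 (.thr 39 36 (.dbl 15 10 27))))))) (.nv (.thr 13 9 (.thr 15 10 (.thr 12 14 (.thr 25 49 (.thr 29 17 (.dbl 63 42 46)))))) (.nv (.thr 3 2 (.thr 42 63 (.thr 32 47 (.thr 48 16 (.thr 33 18 (.thr 34 35 (.dbl 17 49 51))))))) (.nv (.thr 13 9 (.thr 25 49 (.thr 17 29 (.thr 51 34 (.thr 15 10 (.dbl 12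 14 38)))))) (.rp 56 (.str 11 (.nv (.thr 9 13 (.dbl 10 8 15)) (.nv (.thr 3 2 (.dbl 15 7 10)) (.rp 15 (.thr 3 2 (.thr 9 13 (.thr 8 10 (.thr 42 63 (.thr 25 59 (.thr 17 29 (.thr 51 34 (.dbl 12 6 38)))))))) (.rp 10 (.thr 3 2 (.thr 15 7 (.thr 13 9 (.thr 25 49 (.thr 17 29 (.thr 51 34 (.dbl 12 14 38))))))) .nd))))) (.rp 49 (.thr 13 9 (.thr 15 10 (.thr 12 14 (.thr 42 63 (.thr 32 47 (.thr 48 16 (.thr 36 24 (.thr 38 39 (.thr 34 46 (.dbl 51 17 25)))))))))) (.rp 38 (.thr 13 9 (.thr 3 2 (.thr 42 63 (.thr 32 47 (.thr 48 16 (.thr 33 18 (.dbl 49 17 25))))))) (.rp 17 (.thr 13 9 (.thr 25 49 (.thr 15 10 (.thr 12 14 (.thr 38 51 (.thr 36 39 (.thr 48 24 (.thr 32 16 (.dbl 42 47 63))))))))) (.rp 15 (.thr 13 9 (.thr 25 49 (.thr 17 29 (.thr 3 2 (.thr 51 34 (.thr 19 35 (.thr 22 28 (.thr 23 20 (.dbl 63 42 43)))))))))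 (.rp 11 (.str 56 (.nv (.thr 13 9 (.thr 25 49 (.thr 17 29 (.thr 51 34 (.thr 12 38 (.dbl 15 10 14)))))) (.nv (.thr 42 63 (.thr 32 47 (.thr 48 16 (.thr 52 60 (.thr 22 7 (.dbl 2 3 62)))))) (.rp 61 (.thr 13 9 (.thr 3 2 (.thr 42 63 (.thr 32 47 (.thr 48 16 (.thr 33 18 (.dbl 49 17 25))))))) (.rp 42 (.thr 13 9 (.thr 25 49 (.thr 17 29 (.thr 51 34 (.thr 38 12 (.thr 39 36 (.dbl 15 10 27))))))) (.rp 15 (.thr 13 9 (.thr 25 49 (.thr 42 63 (.thr 8 59 (.thr 40 24 (.thr 20 60 (.thr 22 23 (.dbl 2 3 62)))))))) .nd)))))) .nd))))))))))) (.rp 25 (.thr 41 61 (.thr 33 45 (.thr 49 17 (.thr 13 9 (.str 0 (.nv (.thr 3 2 (.thr 22 60 (.thr 63 42 (.dbl 23 20 43)))) (.nv (.thr 3 2 (.thr 22 60 (.thr 7 52 (.dbl 15 10 11)))) (.nv (.thr 42 63 (.thr 32 47 (.thr 35 34 (.thr 44 38 (.dbl 40 36 43))))) (.nv (.thr 3 2 (.thr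 42 63 (.thr 40 43 (.dbl 60 20 22)))) (.rp 63 (.thr 3 2 (.thr 60 22 (.thr 40 20 (.thr 42 43 (.thr 32 47 (.dbl 48 16 18)))))) (.rp 60 (.thr 2 3 (.thr 42 63 (.thr 62 22 (.thr 32 47 (.thr 48 16 (.thr 50 51 (.dbl 34 18 35))))))) (.rp 27 (.str 24 (.nv (.thr 3 2 (.thr 48 18 (.thr 16 32 (.thr 20 28 (.dbl 22 23 60))))) (.nv (.thr 15 10 (.thr 42 63 (.thr 32 47 (.thr 48 16 (.dbl 12 14 36))))) (.nv (.thr 3 2 (.thr 22 60 (.thr 23 20 (.dbl 63 42 43)))) (.rp 60 (.thr 3 2 (.thr 48 18 (.thr 12 36 (.dbl 15 10 14)))) .nd))))) (.rp 24 (.str 27 (.nv (.thr 3 2 (.thr 22 60 (.thr 7 52 (.dbl 15 10 11)))) (.nv (.thr 15 10 (.thr 51 39 (.thr 3 2 (.dbl 48 18 50)))) (.nv (.thr 15 10 (.thr 51 39 (.thr 48 50 (.thr 32 16 (.dbl 42 47 63))))) (.nv (.thr 3 2 (.thr 42 63 (.thr 40 43 (.dbl 60 20 22)))) (.rp 48 (.thr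 15 10 (.thr 3 2 (.thr 22 60 (.dbl 7 11 52)))) .nd)))))) .nd))))))))))))) (.rp 17 (.str 0 (.nv (.thr 3 2 (.thr 41 61 (.thr 33 45 (.thr 42 63 (.thr 32 47 (.dbl 48 16 18)))))) (.nv (.thr 3 2 (.thr 15 10 (.thr 7 11 (.thr 22 52 (.thr 20 23 (.dbl 60 40 41)))))) (.nv (.thr 41 61 (.thr 45 33 (.thr 3 2 (.thr 60 22 (.dbl 15 10 30))))) (.nv (.thr 3 2 (.thr 41 61 (.thr 22 60 (.thr 63 42 (.dbl 23 20 43))))) (.rp 60 (.thr 13 9 (.thr 61 41 (.thr 29 45 (.thr 15 10 (.thr 12 14 (.dbl 63 42 46)))))) (.rp 42 (.thr 41 61 (.thr 3 2 (.thr 22 60 (.thr 7 52 (.dbl 15 10 11))))) (.rp 41 (.thr 13 9 (.thr 25 49 (.thr 15 10 (.thr 12 14 (.thr 38 51 (.thr 36 39 (.thr 48 24 (.thr 32 16 (.dbl 42 47 63))))))))) (.rp 3 (.thr 13 9 (.thr 61 41 (.thr 29 45 (.thr 15 10 (.thr 12 14 (.dbl 63 42 46)))))) (.rp 2 (.thr 13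 9 (.thr 61 41 (.thr 29 45 (.thr 63 42 (.thr 12 46 (.dbl 15 10 14)))))) .nd)))))))))) (.rp 13 (.str 0 (.nv (.thr 3 2 (.thr 41 61 (.thr 22 60 (.thr 23 20 (.dbl 63 42 43))))) (.nv (.thr 3 2 (.thr 15 10 (.thr 7 11 (.thr 22 52 (.thr 20 23 (.dbl 60 40 41)))))) (.nv (.thr 41 61 (.thr 45 33 (.thr 3 2 (.thr 60 22 (.dbl 15 10 30))))) (.rp 60 (.thr 3 2 (.thr 42 63 (.thr 32 47 (.thr 48 16 (.thr 33 18 (.dbl 41 45 61)))))) (.rp 42 (.thr 41 61 (.thr 3 2 (.thr 22 60 (.thr 7 52 (.dbl 15 10 11))))) (.rp 41 (.thr 3 2 (.thr 42 63 (.thr 32 47 (.thr 48 16 (.thr 33 18 (.thr 17 49 (.dbl 34 35 51))))))) (.rp 22 (.thr 41 61 (.thr 45 33 (.thr 15 10 (.thr 42 63 (.thr 40 43 (.dbl 60 20 30)))))) (.rp 3 (.thr 41 61 (.thr 45 33 (.thr 15 10 (.thr 60 30 (.thr 40 20 (.dbl 42 43 63)))))) (.rp 2 (.thr 41 61 (.thr 45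 33 (.thr 15 10 (.thr 60 30 (.thr 20 40 (.dbl 22 3 23)))))) .nd)))))))))) (.rp 9 (.str 0 (.nv (.thr 41 61 (.thr 45 33 (.thr 3 2 (.thr 60 22 (.dbl 15 10 30))))) (.nv (.thr 3 2 (.thr 42 63 (.thr 32 47 (.thr 48 16 (.thr 33 18 (.dbl 41 45 61)))))) (.nv (.thr 3 2 (.thr 41 61 (.thr 22 60 (.thr 63 42 (.dbl 23 20 43))))) (.rp 61 (.thr 3 2 (.thr 42 63 (.thr 32 47 (.thr 48 16 (.thr 33 18 (.thr 34 35 (.dbl 17 49 51))))))) (.rp 42 (.thr 41 61 (.thr 3 2 (.thr 22 60 (.thr 7 52 (.dbl 15 10 11))))) (.rp 41 (.thr 3 2 (.thr 42 63 (.thr 32 47 (.thr 48 16 (.thr 33 18 (.thr 17 49 (.dbl 34 35 51))))))) (.rp 22 (.thr 41 61 (.thr 33 45 (.thr 3 2 (.thr 42 63 (.thr 32 47 (.dbl 48 16 18)))))) (.rp 3 (.thr 41 61 (.thr 33 45 (.thr 42 63 (.thr 32 47 (.thr 34 35 (.dbl 17 49 51)))))) (.rp 2 (.thr 41 61 (.thr 33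 45 (.thr 42 63 (.thr 32 47 (.thr 34 35 (.dbl 17 49 51)))))) .nd)))))))))) .nd)))))))))))

theorem w499 : WinAt (137441050656, 9007199321849872) :=
  chF (K := []) kn c499 137441050656 9007199321849872 53
    [] (by decide +kernel) (by decide +kernel)

/-- A certificate. -/
noncomputable def c500 : Ct := (.str 41 (.nv (.thr 52 7 (.thr 4 36 (.thr 60 3 (.thr 0 40 (.thr 12 8 (.thr 44 28 (.dbl 38 35 55))))))) (.nv (.thr 1 61 (.thr 3 60 (.thr 0 2 (.thr 33 45 (.thr 17 49 (.thr 48 18 (.thr 32 16 (.dbl 34 35 51)))))))) (.nv (.thr 1 61 (.thr 3 60 (.thr 0 2 (.thr 52 7 (.thr 4 36 (.thr 12 8 (.thr 6 9 (.dbl 38 54 55)))))))) (.rp 63 (.thr 45 33 (.thr 61 1 (.thr 13 29 (.thr 49 25 (.thr 53 57 (.thr 52 7 (.thr 4 36 (.dbl 55 38 54)))))))) (.rp 60 (.thr 45 33 (.thr 61 1 (.thr 13 29 (.thr 49 25 (.thr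 53 57 (.thr 52 7 (.thr 4 36 (.dbl 55 38 54)))))))) (.rp 58 (.str 10 (.nv (.thr 33 45 (.thr 3 60 (.thr 18 48 (.thr 1 61 (.thr 17 49 (.thr 19 16 (.dbl 25 28 29))))))) (.nv (.thr 52 7 (.thr 4 36 (.thr 1 61 (.thr 3 60 (.thr 2 0 (.thr 6 14 (.dbl 38 54 55))))))) (.rp 63 (.thr 45 33 (.thr 61 1 (.thr 13 29 (.thr 49 25 (.thr 53 57 (.thr 52 7 (.thr 4 36 (.dbl 55 38 54)))))))) (.rp 62 (.thr 60 3 (.thr 0 40 (.thr 52 7 (.thr 4 36 (.thr 12 8 (.thr 44 28 (.dbl 38 35 55))))))) (.rp 61 (.thr 60 3 (.thr 0 40 (.thr 52 7 (.thr 4 36 (.thr 12 8 (.thr 44 28 (.dbl 38 35 55))))))) (.rp 60 (.thr 45 33 (.thr 61 1 (.thr 13 29 (.thr 49 25 (.thr 53 57 (.thr 52 7 (.thr 4 36 (.dbl 55 38 54)))))))) (.rp 52 (.thr 33 45 (.thr 1 61 (.thr 17 49 (.thr 60 3 (.thr 0 40 (.thr 51 34 (.thr 57 54 (.dbl 25 9 29)))))))) (.rp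 3 (.thr 45 33 (.thr 61 1 (.thr 13 29 (.thr 49 25 (.thr 53 57 (.thr 52 7 (.thr 4 36 (.dbl 55 38 54)))))))) (.rp 1 (.thr 60 3 (.thr 0 40 (.thr 52 7 (.thr 4 36 (.thr 12 8 (.thr 44 28 (.dbl 38 35 55))))))) (.rp 0 (.thr 33 45 (.thr 1 61 (.thr 49 17 (.thr 3 60 (.thr 48 18 (.thr 51 50 (.thr 19 35 (.dbl 25 13 28)))))))) .nd))))))))))) (.rp 10 (.str 58 (.nv (.thr 45 33 (.thr 60 3 (.thr 61 1 (.thr 13 29 (.thr 49 25 (.thr 53 57 (.dbl 63 48 62))))))) (.nv (.thr 3 60 (.thr 33 45 (.thr 48 18 (.thr 52 7 (.thr 4 36 (.thr 55 38 (.dbl 53 54 63))))))) (.nv (.thr 61 1 (.thr 60 3 (.thr 63 62 (.thr 48 53 (.dbl 52 7 56))))) (.rp 63 (.thr 52 7 (.thr 4 36 (.thr 55 38 (.thr 53 54 (.thr 61 1 (.thr 49 57 (.thr 45 33 (.dbl 13 25 29)))))))) (.rp 60 (.thr 52 7 (.thr 4 36 (.thr 55 38 (.thr 53 54 (.thr 61 1 (.thr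 57 49 (.thr 59 56 (.dbl 63 48 51)))))))) (.rp 53 (.thr 52 7 (.thr 4 36 (.thr 60 3 (.thr 56 48 (.thr 57 59 (.thr 54 51 (.dbl 38 6 55))))))) (.rp 48 (.thr 52 7 (.thr 4 36 (.thr 55 38 (.thr 54 53 (.thr 60 3 (.thr 61 1 (.dbl 62 50 63))))))) (.rp 15 (.str 0 (.nv (.dbl 60 3 40) (.rp 60 (.thr 52 7 (.thr 4 36 (.thr 55 38 (.thr 53 54 (.thr 61 1 (.thr 57 49 (.thr 59 56 (.dbl 63 48 51)))))))) (.rp 40 (.thr 3 60 (.dbl 1 2 61)) (.rp 3 (.thr 60 40 (.thr 61 1 (.thr 63 62 (.thr 48 53 (.dbl 52 7 56))))) .nd))))) (.rp 3 (.thr 52 7 (.thr 4 36 (.thr 55 38 (.thr 53 54 (.thr 61 1 (.thr 49 57 (.thr 45 33 (.dbl 13 25 29)))))))) (.rp 0 (.str 15 (.nv (.thr 45 33 (.dbl 60 3 30)) (.nv (.thr 7 52 (.dbl 3 11 60)) (.rp 60 (.thr 52 7 (.thr 4 36 (.thr 55 38 (.thr 53 54 (.thr 45 33 (.thr 61 1 (.thr 13 29 (.dbl 49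 25 57)))))))) (.rp 3 (.thr 52 7 (.thr 45 33 (.thr 60 30 (.thr 48 56 (.thr 63 53 (.dbl 61 1 62)))))) .nd))))) .nd))))))))))) (.rp 3 (.thr 45 33 (.thr 61 1 (.thr 13 29 (.thr 49 25 (.thr 53 57 (.thr 52 7 (.thr 4 36 (.dbl 55 38 54)))))))) (.rp 0 (.thr 33 45 (.thr 1 61 (.thr 49 17 (.thr 3 60 (.thr 48 18 (.thr 51 50 (.thr 19 35 (.dbl 25 13 28)))))))) .nd))))))))))

theorem w500 : WinAt (137446293504, 4398122008608) :=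
  chF (K := []) kn c500 137446293504 4398122008608 23
    [288234774265332736] (by decide +kernel) (by decide +kernel)

/-- A certificate. -/
noncomputable def c501 : Ct := (.str 20 (.rp 63 (.str 4 (.nv (.thr 36 52 (.dbl 38 39 55)) (.nv (.thr 52 36 (.dbl 22 7 23)) (.rp 52 (.str 0 (.nv (.thr 12 8 (.thr 22 23 (.thr 60 40 (.thr 28 44 (.thr 25 19 (.thr 17 29 (.dbl 51 34 38))))))) (.nv (.thr 22 23 (.thr 38 55 (.thr 54 6 (.thr 60 40 (.thr 51 57 (.dbl 12 8 25)))))) (.nv (.thr 12 8 (.thr 60 40 (.thr 28 44 (.thr 24 16 (.thr 36 48 (.dbl 38 39 55)))))) (.rp 60 (.thr 38 55 (.thr 36 39 (.thr 12 8 (.thr 51 25 (.thr 34 17 (.thr 42 46 (.thr 32 47 (.dbl 48 16 24)))))))) (.rp 40 (.thr 22 23 (.thr 38 55 (.thr 54 6 (.thr 12 8 (.thr 51 25 (.thr 60 57 (.thr 44 28 (.dbl 41 3 35)))))))) (.rp 38 (.thr 22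 23 (.thr 12 8 (.thr 60 40 (.thr 28 44 (.thr 25 19 (.thr 17 29 (.thr 51 34 (.thr 57 54 (.dbl 41 3 9))))))))) (.rp 12 (.thr 22 23 (.thr 38 55 (.thr 39 36 (.thr 54 6 (.thr 60 40 (.thr 51 57 (.thr 15 27 (.thr 45 30 (.dbl 41 3 33))))))))) (.rp 8 (.thr 22 23 (.thr 38 55 (.thr 54 6 (.thr 60 40 (.thr 51 57 (.thr 17 34 (.dbl 25 12 29))))))) .nd))))))))) (.rp 36 (.str 0 (.nv (.thr 12 8 (.thr 22 23 (.thr 60 40 (.thr 3 41 (.thr 6 9 (.dbl 38 54 55)))))) (.nv (.thr 12 8 (.thr 22 23 (.thr 38 55 (.thr 6 54 (.thr 3 9 (.thr 1 2 (.dbl 41 60 61))))))) (.nv (.thr 12 8 (.thr 38 55 (.thr 60 40 (.thr 44 28 (.thr 41 35 (.dbl 22 3 23)))))) (.rp 60 (.thr 22 23 (.thr 38 55 (.thr 6 54 (.thr 12 8 (.thr 51 25 (.thr 34 17 (.thr 3 9 (.thr 42 46 (.dbl 2 1 62))))))))) (.rp 55 (.thr 22 23 (.thr 60 40 (.thr 3 41 (.thr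 2 1 (.thr 42 62 (.thr 32 47 (.thr 48 16 (.dbl 52 7 56)))))))) (.rp 41 (.thr 22 23 (.thr 38 55 (.thr 54 6 (.thr 12 8 (.thr 51 25 (.dbl 60 40 57)))))) (.rp 38 (.thr 22 23 (.thr 52 7 (.thr 60 40 (.thr 3 41 (.thr 2 1 (.thr 42 62 (.thr 32 47 (.dbl 48 16 56)))))))) (.rp 23 (.thr 38 55 (.thr 12 8 (.thr 60 40 (.thr 44 28 (.thr 41 35 (.thr 1 61 (.dbl 3 2 22))))))) (.rp 22 (.thr 38 55 (.thr 12 8 (.thr 51 25 (.thr 34 17 (.thr 60 40 (.thr 42 46 (.thr 32 47 (.thr 16 48 (.dbl 28 24 44))))))))) (.rp 12 (.thr 22 23 (.thr 52 7 (.thr 60 40 (.thr 3 41 (.thr 2 1 (.thr 42 62 (.thr 32 47 (.dbl 48 16 56)))))))) (.rp 8 (.thr 22 23 (.thr 38 55 (.thr 54 6 (.thr 60 40 (.thr 51 57 (.thr 17 34 (.dbl 25 12 29))))))) (.rp 3 (.thr 38 55 (.thr 12 8 (.thr 51 25 (.thr 60 40 (.thr 54 57 (.dbl 22 6 23)))))) .nd)))))))))))))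 .nd))))) (.rp 62 (.str 0 (.nv (.thr 22 23 (.thr 52 7 (.thr 60 40 (.thr 48 56 (.thr 16 32 (.thr 24 28 (.dbl 36 4 12))))))) (.nv (.thr 22 23 (.thr 52 7 (.thr 4 36 (.thr 12 8 (.thr 63 42 (.thr 29 46 (.thr 25 17 (.dbl 38 51 55)))))))) (.nv (.thr 22 23 (.thr 42 63 (.thr 60 40 (.thr 32 47 (.thr 48 16 (.dbl 52 7 56)))))) (.rp 52 (.thr 22 23 (.thr 60 40 (.thr 41 3 (.thr 1 61 (.thr 33 45 (.thr 17 49 (.thr 51 34 (.thr 57 54 (.dbl 25 9 29))))))))) (.rp 23 (.thr 60 40 (.thr 42 63 (.thr 32 47 (.thr 16 48 (.thr 28 24 (.thr 12 44 (.thr 8 4 (.thr 25 59 (.thr 17 29 (.dbl 19 18 22)))))))))) (.rp 22 (.thr 60 40 (.thr 42 63 (.thr 32 47 (.thr 16 48 (.thr 28 24 (.thr 12 44 (.thr 8 4 (.thr 25 59 (.thr 17 29 (.dbl 51 34 38)))))))))) (.rp 7 (.thr 22 23 (.thr 60 40 (.thr 41 3 (.thr 1 61 (.thr 33 45 (.thr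 17 49 (.thr 51 34 (.thr 57 54 (.dbl 25 9 29))))))))) .nd)))))))) (.rp 61 (.str 0 (.nv (.thr 22 23 (.thr 52 7 (.thr 60 40 (.thr 48 56 (.thr 32 16 (.dbl 42 47 63)))))) (.nv (.thr 22 23 (.thr 42 63 (.thr 2 62 (.thr 60 40 (.dbl 3 1 41))))) (.rp 63 (.thr 22 23 (.thr 52 7 (.thr 60 40 (.thr 48 56 (.thr 16 32 (.thr 24 28 (.dbl 36 4 12))))))) (.rp 60 (.thr 22 23 (.thr 52 7 (.thr 4 36 (.thr 12 8 (.thr 63 42 (.thr 29 46 (.thr 25 17 (.dbl 38 51 55)))))))) (.rp 42 (.thr 22 23 (.thr 52 7 (.thr 60 40 (.thr 48 56 (.thr 16 32 (.thr 24 28 (.dbl 36 4 12))))))) (.rp 41 (.thr 22 23 (.thr 52 7 (.thr 60 40 (.thr 42 63 (.thr 32 47 (.dbl 48 16 56)))))) (.rp 40 (.thr 22 23 (.thr 52 7 (.thr 4 36 (.thr 12 8 (.thr 63 42 (.thr 29 46 (.thr 25 17 (.dbl 38 51 55)))))))) (.rp 23 (.thr 60 40 (.thr 42 63 (.thr 32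 47 (.thr 48 16 (.thr 52 56 (.thr 22 7 (.thr 2 62 (.dbl 3 1 41)))))))) (.rp 22 (.thr 60 40 (.thr 42 63 (.thr 32 47 (.thr 16 48 (.thr 28 24 (.thr 12 44 (.thr 8 4 (.thr 25 59 (.thr 17 29 (.dbl 51 34 38)))))))))) .nd)))))))))) (.rp 60 (.thr 22 23 (.str 4 (.nv (.dbl 52 7 36) (.rp 52 (.str 0 (.nv (.thr 12 8 (.thr 42 63 (.thr 32 47 (.thr 48 16 (.thr 36 24 (.dbl 38 39 55)))))) (.nv (.thr 12 8 (.thr 63 42 (.thr 29 46 (.thr 25 17 (.dbl 38 51 55))))) (.rp 63 (.thr 38 55 (.thr 12 8 (.thr 51 25 (.thr 34 17 (.thr 42 46 (.thr 32 47 (.thr 48 16 (.dbl 36 24 39)))))))) (.rp 56 (.str 48 (.nv (.thr 12 8 (.thr 38 55 (.dbl 36 24 39))) (.nv (.thr 32 16 (.dbl 42 47 63)) (.rp 41 (.str 11 (.nv (.thr 12 8 (.thr 38 55 (.dbl 36 24 39))) (.nv (.thr 32 16 (.dbl 42 47 63)) .nd))) (.rp 11 (.str 41 (.nv (.thr 12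 8 (.thr 38 55 (.dbl 36 24 39))) (.nv (.thr 32 16 (.dbl 42 47 63)) .nd))) .nd))))) (.rp 55 (.thr 12 8 (.thr 63 42 (.thr 29 46 (.thr 25 17 (.thr 28 19 (.thr 31 30 (.thr 15 47 (.dbl 13 14 49)))))))) (.rp 48 (.str 56 (.nv (.thr 8 12 (.thr 24 40 (.thr 28 16 (.thr 25 19 (.dbl 42 59 63))))) (.nv (.thr 12 8 (.thr 63 42 (.thr 29 46 (.thr 25 17 (.dbl 38 51 55))))) (.rp 63 (.thr 38 55 (.thr 12 8 (.thr 51 25 (.thr 34 17 (.thr 42 46 (.thr 32 47 (.thr 35 33 (.thr 3 19 (.dbl 2 1 62))))))))) (.rp 59 (.thr 38 55 (.thr 12 8 (.thr 51 25 (.thr 42 63 (.dbl 34 17 46))))) (.rp 42 (.thr 38 55 (.thr 12 8 (.thr 25 51 (.thr 17 29 (.thr 49 13 (.thr 1 33 (.thr 3 2 (.dbl 6 9 54)))))))) (.rp 25 (.thr 38 55 (.thr 39 36 (.thr 42 63 (.thr 46 34 (.thr 47 32 (.thr 44 45 (.dbl 35 41 43))))))) (.rp 17 (.thr 8 12 (.thr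 24 40 (.thr 28 16 (.thr 42 63 (.dbl 25 19 59))))) (.rp 12 (.thr 38 55 (.thr 42 63 (.thr 46 34 (.thr 47 32 (.thr 44 45 (.thr 35 41 (.dbl 39 36 43))))))) (.rp 8 (.thr 38 55 (.thr 39 36 (.thr 42 63 (.thr 46 34 (.thr 47 32 (.thr 44 45 (.dbl 35 41 43))))))) .nd)))))))))) (.rp 42 (.thr 38 55 (.thr 12 8 (.thr 25 51 (.thr 28 19 (.thr 24 16 (.dbl 36 39 48)))))) (.rp 38 (.thr 8 12 (.thr 42 63 (.thr 32 47 (.thr 25 59 (.thr 28 19 (.dbl 16 24 48)))))) (.rp 25 (.thr 38 55 (.thr 12 8 (.thr 42 63 (.thr 32 47 (.thr 48 16 (.dbl 36 24 39)))))) (.rp 12 (.thr 38 55 (.thr 39 36 (.thr 42 63 (.thr 47 32 (.thr 46 34 (.thr 44 45 (.dbl 35 41 43))))))) (.rp 8 (.thr 38 55 (.thr 39 36 (.thr 42 63 (.thr 47 32 (.thr 46 34 (.thr 44 45 (.dbl 35 41 43))))))) .nd)))))))))))) (.rp 36 (.str 0 (.nv (.thr 12 8 (.thr 38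 55 (.thr 42 63 (.thr 51 25 (.dbl 34 17 46))))) (.nv (.thr 12 8 (.thr 38 55 (.thr 6 54 (.thr 3 9 (.thr 42 63 (.dbl 2 1 62)))))) (.nv (.thr 12 8 (.thr 63 42 (.thr 29 46 (.thr 25 17 (.dbl 38 51 55))))) (.rp 63 (.thr 38 55 (.thr 6 54 (.thr 12 8 (.thr 51 25 (.thr 34 17 (.thr 3 9 (.thr 42 46 (.dbl 2 1 62)))))))) (.rp 55 (.thr 12 8 (.thr 63 42 (.thr 29 46 (.thr 25 17 (.thr 28 19 (.thr 31 30 (.thr 15 47 (.dbl 13 14 49)))))))) (.rp 51 (.thr 55 38 (.thr 42 63 (.thr 8 12 (.thr 25 59 (.thr 28 19 (.thr 32 47 (.dbl 16 24 48))))))) (.rp 42 (.thr 7 52 (.thr 38 55 (.thr 12 8 (.thr 25 51 (.thr 13 49 (.thr 15 14 (.thr 3 11 (.dbl 6 9 54)))))))) (.rp 38 (.thr 8 12 (.thr 42 63 (.thr 32 47 (.thr 25 59 (.thr 28 19 (.dbl 16 24 48)))))) (.rp 12 (.thr 38 55 (.thr 54 6 (.thr 42 63 (.thr 62 2 (.thr 50 58 (.thr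 32 47 (.thr 48 16 (.thr 51 49 (.dbl 34 17 46))))))))) (.rp 8 (.thr 38 55 (.thr 6 54 (.thr 42 63 (.thr 34 46 (.thr 51 17 (.thr 12 25 (.thr 3 9 (.dbl 2 1 62)))))))) .nd))))))))))) (.rp 7 (.thr 36 52 (.dbl 38 39 55)) .nd)))))) (.rp 59 (.str 0 (.nv (.thr 22 23 (.thr 60 40 (.thr 3 41 (.thr 2 1 (.dbl 42 62 63))))) (.nv (.thr 40 60 (.thr 42 63 (.thr 32 47 (.thr 36 44 (.thr 4 52 (.dbl 38 39 55)))))) (.nv (.thr 22 23 (.thr 42 63 (.thr 2 62 (.thr 60 40 (.dbl 3 1 41))))) (.rp 63 (.thr 22 23 (.thr 52 7 (.thr 60 40 (.thr 48 56 (.thr 16 32 (.thr 24 28 (.dbl 36 4 12))))))) (.rp 62 (.thr 22 23 (.thr 52 7 (.thr 60 40 (.thr 48 56 (.thr 32 16 (.dbl 42 47 63)))))) (.rp 60 (.thr 22 23 (.thr 52 7 (.thr 4 36 (.thr 12 8 (.thr 42 63 (.thr 32 47 (.thr 16 48 (.thr 28 24 (.thr 25 19 (.dbl 38 51 55))))))))))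 (.rp 42 (.thr 22 23 (.thr 52 7 (.thr 60 40 (.thr 48 56 (.thr 16 32 (.thr 24 28 (.dbl 36 4 12))))))) (.rp 40 (.thr 22 23 (.thr 52 7 (.thr 42 63 (.thr 32 47 (.thr 48 16 (.thr 60 56 (.thr 2 62 (.dbl 3 1 41)))))))) .nd))))))))) (.rp 58 (.thr 22 23 (.str 60 (.nv (.thr 0 40 (.thr 52 7 (.thr 48 56 (.thr 16 32 (.thr 24 28 (.dbl 36 4 12)))))) (.nv (.thr 0 40 (.thr 41 3 (.thr 61 1 (.dbl 63 42 62)))) (.rp 42 (.str 10 (.nv (.thr 0 40 (.thr 41 3 (.thr 1 61 (.thr 33 45 (.thr 17 49 (.thr 51 34 (.thr 57 54 (.dbl 25 9 29)))))))) (.nv (.thr 52 7 (.thr 0 40 (.thr 48 56 (.thr 16 32 (.thr 24 28 (.dbl 36 4 12)))))) (.rp 57 (.thr 52 7 (.thr 4 36 (.thr 0 40 (.thr 12 8 (.thr 44 28 (.thr 41 3 (.dbl 38 35 55))))))) (.rp 43 (.thr 52 7 (.thr 4 36 (.thr 55 38 (.thr 54 53 (.thr 51 57 (.thr 41 3 (.thr 63 59 (.thr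 56 48 (.dbl 61 1 62))))))))) (.rp 41 (.thr 7 52 (.thr 40 0 (.str 25 (.nv (.thr 13 49 (.thr 28 19 (.thr 12 44 (.thr 14 15 (.thr 6 2 (.dbl 38 51 54)))))) (.nv (.thr 28 19 (.thr 24 16 (.thr 12 44 (.thr 38 51 (.dbl 36 39 48))))) (.nv (.thr 13 49 (.thr 29 17 (.thr 45 61 (.thr 30 15 (.dbl 28 19 31))))) (.rp 56 (.str 11 (.nv (.thr 13 49 (.thr 15 3 (.thr 29 17 (.dbl 45 30 61)))) (.nv (.thr 3 15 (.thr 9 8 (.thr 12 6 (.dbl 28 19 44)))) (.rp 59 (.str 57 (.nv (.thr 28 19 (.thr 12 44 (.dbl 51 38 54))) (.nv (.thr 13 49 (.thr 15 3 (.thr 45 30 (.dbl 29 17 61)))) (.nv (.thr 3 15 (.thr 19 28 (.dbl 51 35 54))) .nd)))) (.rp 57 (.str 59 (.nv (.thr 13 49 (.thr 15 3 (.thr 29 17 (.dbl 45 30 61)))) (.nv (.thr 3 15 (.thr 9 8 (.thr 12 6 (.dbl 28 19 44)))) (.rp 15 (.thr 9 8 (.thr 28 19 (.thr 12 44 (.thr 6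 3 (.dbl 38 51 54))))) (.rp 3 (.thr 29 17 (.thr 28 19 (.thr 12 44 (.thr 63 46 (.dbl 51 38 55))))) .nd))))) (.rp 15 (.thr 9 8 (.thr 28 19 (.thr 12 44 (.thr 6 3 (.dbl 38 51 54))))) (.rp 3 (.thr 29 17 (.thr 28 19 (.thr 13 49 (.thr 45 61 (.dbl 30 15 31))))) .nd))))))) (.rp 51 (.thr 28 19 (.thr 12 44 (.thr 13 49 (.thr 15 14 (.thr 30 45 (.dbl 29 17 31)))))) (.rp 31 (.thr 29 17 (.thr 13 49 (.thr 45 61 (.thr 15 30 (.thr 12 14 (.dbl 28 19 44)))))) (.rp 28 (.thr 29 17 (.thr 13 49 (.thr 61 45 (.thr 63 62 (.thr 12 46 (.thr 14 15 (.thr 6 2 (.dbl 38 51 54)))))))) (.rp 19 (.thr 29 17 (.thr 13 49 (.thr 45 61 (.thr 15 30 (.thr 12 14 (.thr 44 28 (.dbl 46 47 63))))))) (.rp 11 (.str 56 (.nv (.thr 28 19 (.dbl 24 8 16)) (.nv (.thr 24 8 (.dbl 28 16 19)) (.rp 28 (.thr 24 8 (.thr 29 17 (.thr 13 49 (.thr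 45 61 (.thr 15 30 (.thr 12 14 (.thr 36 48 (.dbl 38 39 51)))))))) (.rp 24 (.thr 29 17 (.thr 28 19 (.thr 13 49 (.thr 45 61 (.dbl 30 15 31))))) (.rp 19 (.thr 24 8 (.thr 28 16 (.thr 12 44 (.thr 38 51 (.dbl 36 39 48))))) (.rp 16 (.thr 24 8 (.thr 28 19 (.thr 12 44 (.thr 38 51 (.dbl 36 39 48))))) (.rp 8 (.thr 29 17 (.thr 28 19 (.thr 13 49 (.thr 45 61 (.dbl 30 15 31))))) .nd)))))))) .nd)))))))))))) (.rp 40 (.thr 52 7 (.thr 4 36 (.thr 55 38 (.thr 54 53 (.thr 41 3 (.thr 61 1 (.thr 63 62 (.dbl 51 57 59)))))))) (.rp 0 (.thr 52 7 (.thr 4 36 (.thr 55 38 (.thr 54 53 (.thr 41 3 (.thr 51 57 (.thr 56 48 (.thr 63 59 (.dbl 61 1 62))))))))) .nd)))))))) (.rp 41 (.thr 52 7 (.thr 0 40 (.thr 42 63 (.thr 32 47 (.dbl 48 16 56))))) (.rp 40 (.thr 41 3 (.thr 61 1 (.thr 63 62 (.thr 45 33 (.thr 15 30 (.thr 47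 31 (.dbl 42 0 32))))))) (.rp 10 (.str 42 (.nv (.dbl 0 40 63) (.rp 63 (.thr 0 40 (.thr 2 62 (.dbl 3 1 41))) (.rp 40 (.thr 62 2 (.dbl 63 0 61)) (.rp 0 (.str 15 (.nv (.thr 47 32 (.thr 63 31 (.dbl 62 2 61))) (.nv (.thr 45 30 (.dbl 41 3 33)) .nd))) .nd))))) (.rp 0 (.thr 52 7 (.thr 4 36 (.thr 55 38 (.thr 54 53 (.thr 51 57 (.thr 56 48 (.thr 63 59 (.thr 61 62 (.dbl 41 1 3))))))))) .nd))))))))) (.rp 57 (.str 0 (.nv (.thr 40 60 (.thr 42 63 (.thr 32 47 (.thr 36 44 (.thr 4 52 (.dbl 38 39 55)))))) (.nv (.thr 22 23 (.thr 42 63 (.thr 2 62 (.thr 60 40 (.dbl 3 1 41))))) (.rp 63 (.thr 22 23 (.thr 52 7 (.thr 60 40 (.thr 48 56 (.thr 16 32 (.thr 24 28 (.dbl 36 4 12))))))) (.rp 62 (.thr 22 23 (.thr 52 7 (.thr 60 40 (.thr 48 56 (.thr 32 16 (.dbl 42 47 63)))))) (.rp 60 (.thr 22 23 (.thr 52 7 (.thr 4 36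 (.thr 12 8 (.thr 63 42 (.thr 29 46 (.thr 25 17 (.dbl 38 51 55)))))))) (.rp 42 (.thr 22 23 (.thr 52 7 (.thr 60 40 (.thr 48 56 (.thr 16 32 (.thr 24 28 (.dbl 36 4 12))))))) (.rp 40 (.thr 22 23 (.thr 52 7 (.thr 4 36 (.thr 12 8 (.thr 63 42 (.thr 29 46 (.thr 25 17 (.dbl 38 51 55)))))))) .nd)))))))) (.rp 56 (.thr 22 23 (.str 41 (.nv (.thr 60 3 (.thr 0 40 (.thr 63 42 (.dbl 61 1 62)))) (.nv (.thr 61 1 (.thr 60 3 (.thr 63 62 (.dbl 0 40 42)))) (.rp 63 (.thr 45 33 (.thr 61 1 (.thr 13 29 (.thr 49 25 (.thr 53 57 (.thr 52 7 (.thr 4 36 (.dbl 55 38 54)))))))) (.rp 62 (.thr 33 45 (.thr 1 61 (.thr 17 49 (.thr 60 3 (.thr 0 40 (.thr 51 34 (.thr 57 54 (.dbl 25 9 29)))))))) (.rp 61 (.thr 60 3 (.thr 0 40 (.thr 52 7 (.thr 4 36 (.thr 55 38 (.thr 54 53 (.thr 63 42 (.dbl 51 57 59)))))))) (.rp 60 (.thr 45 33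 (.thr 61 1 (.thr 13 29 (.thr 49 25 (.thr 53 57 (.thr 52 7 (.thr 4 36 (.dbl 55 38 54)))))))) (.rp 42 (.thr 33 45 (.thr 1 61 (.thr 17 49 (.thr 60 3 (.thr 0 40 (.thr 51 34 (.thr 57 54 (.dbl 25 9 29)))))))) (.rp 40 (.thr 33 45 (.thr 1 61 (.thr 3 60 (.thr 0 2 (.thr 48 18 (.thr 32 16 (.dbl 42 47 63))))))) (.rp 3 (.thr 45 33 (.thr 61 1 (.thr 13 29 (.thr 49 25 (.thr 53 57 (.thr 52 7 (.thr 4 36 (.dbl 55 38 54)))))))) (.rp 1 (.thr 60 3 (.thr 0 40 (.thr 52 7 (.thr 4 36 (.thr 55 38 (.thr 54 53 (.thr 51 57 (.dbl 63 42 59)))))))) (.rp 0 (.thr 33 45 (.thr 1 61 (.thr 49 17 (.thr 3 60 (.thr 48 18 (.thr 51 50 (.thr 19 35 (.dbl 25 13 28)))))))) .nd))))))))))))) (.rp 55 (.str 0 (.nv (.thr 42 63 (.thr 32 47 (.thr 48 16 (.thr 60 40 (.thr 52 56 (.dbl 22 7 23)))))) (.nv (.thr 22 23 (.thr 60 40 (.thr 63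 42 (.thr 41 3 (.dbl 61 1 62))))) (.rp 63 (.thr 22 23 (.thr 60 40 (.thr 3 41 (.thr 2 1 (.thr 42 62 (.thr 32 47 (.thr 48 16 (.dbl 52 7 56)))))))) (.rp 60 (.thr 22 23 (.thr 42 63 (.thr 32 47 (.thr 16 48 (.thr 28 24 (.thr 25 19 (.thr 17 29 (.thr 51 34 (.thr 12 38 (.dbl 8 4 59)))))))))) (.rp 42 (.thr 22 23 (.thr 60 40 (.thr 41 3 (.thr 1 61 (.thr 33 45 (.thr 17 49 (.thr 51 34 (.thr 57 54 (.dbl 25 9 29))))))))) (.rp 41 (.thr 22 23 (.thr 60 40 (.thr 42 63 (.thr 32 47 (.thr 48 16 (.dbl 52 7 56)))))) (.rp 40 (.thr 22 23 (.thr 42 63 (.thr 32 47 (.thr 48 16 (.thr 2 62 (.thr 3 1 (.thr 33 18 (.dbl 41 45 60)))))))) (.rp 23 (.thr 40 60 (.thr 42 63 (.thr 32 47 (.thr 48 16 (.thr 36 44 (.thr 4 52 (.dbl 12 8 24))))))) (.rp 22 (.thr 40 60 (.thr 42 63 (.thr 32 47 (.thr 48 16 (.thr 36 44 (.thr 4 52 (.dbl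 12 8 24))))))) (.rp 7 (.thr 60 40 (.thr 63 42 (.thr 61 62 (.thr 41 1 (.dbl 22 3 23))))) .nd))))))))))) (.rp 54 (.str 0 (.nv (.thr 40 60 (.thr 42 63 (.thr 32 47 (.thr 36 44 (.thr 38 39 (.dbl 4 52 55)))))) (.nv (.thr 22 23 (.thr 60 40 (.thr 3 41 (.thr 42 63 (.dbl 2 1 62))))) (.rp 63 (.thr 22 23 (.thr 52 7 (.thr 60 40 (.thr 48 56 (.thr 16 32 (.thr 24 28 (.dbl 36 4 12))))))) (.rp 62 (.thr 22 23 (.thr 52 7 (.thr 60 40 (.thr 48 56 (.thr 32 16 (.dbl 42 47 63)))))) (.rp 60 (.thr 22 23 (.thr 52 7 (.thr 4 36 (.thr 12 8 (.thr 63 42 (.thr 29 46 (.thr 25 17 (.dbl 38 51 55)))))))) (.rp 42 (.thr 22 23 (.thr 52 7 (.thr 60 40 (.thr 48 56 (.thr 16 32 (.thr 24 28 (.dbl 36 4 12))))))) (.rp 40 (.thr 22 23 (.thr 52 7 (.thr 4 36 (.thr 12 8 (.thr 63 42 (.thr 29 46 (.thr 25 17 (.dbl 38 51 55)))))))) .nd))))))))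 (.rp 53 (.str 0 (.nv (.thr 22 23 (.thr 52 7 (.thr 60 40 (.thr 42 63 (.thr 48 56 (.dbl 32 16 47)))))) (.nv (.thr 40 60 (.thr 42 63 (.thr 32 47 (.thr 36 44 (.thr 4 52 (.dbl 38 39 55)))))) (.nv (.thr 22 23 (.thr 60 40 (.thr 41 3 (.thr 63 42 (.dbl 61 1 62))))) (.rp 63 (.thr 22 23 (.thr 52 7 (.thr 60 40 (.thr 48 56 (.thr 16 32 (.thr 24 28 (.dbl 36 4 12))))))) (.rp 60 (.thr 22 23 (.thr 52 7 (.thr 4 36 (.thr 12 8 (.thr 63 42 (.thr 29 46 (.thr 25 17 (.dbl 38 51 55)))))))) (.rp 42 (.thr 22 23 (.thr 52 7 (.thr 60 40 (.thr 48 56 (.thr 16 32 (.thr 24 28 (.dbl 36 4 12))))))) (.rp 40 (.thr 22 23 (.thr 52 7 (.thr 4 36 (.thr 12 8 (.thr 63 42 (.thr 29 46 (.thr 25 17 (.dbl 38 51 55)))))))) .nd)))))))) (.rp 52 (.str 0 (.nv (.thr 40 60 (.thr 42 63 (.thr 32 47 (.thr 41 43 (.thr 33 45 (.thr 35 34 (.dbl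 44 36 38))))))) (.nv (.thr 22 23 (.thr 60 40 (.thr 42 63 (.thr 2 62 (.dbl 3 1 41))))) (.rp 63 (.thr 22 23 (.thr 60 40 (.thr 3 41 (.thr 2 1 (.thr 42 62 (.thr 32 47 (.thr 16 48 (.thr 28 24 (.thr 12 44 (.thr 25 19 (.dbl 8 4 59))))))))))) (.rp 62 (.thr 22 23 (.thr 60 40 (.thr 41 3 (.thr 1 61 (.thr 33 45 (.thr 17 49 (.thr 51 34 (.thr 57 54 (.dbl 25 9 29))))))))) (.rp 60 (.str 48 (.nv (.thr 32 16 (.dbl 42 47 63)) (.rp 63 (.thr 22 23 (.thr 16 32 (.thr 28 24 (.thr 25 19 (.thr 17 29 (.thr 51 34 (.dbl 49 13 50))))))) (.rp 47 (.thr 22 23 (.thr 16 32 (.thr 28 24 (.thr 25 19 (.thr 17 29 (.thr 51 34 (.dbl 49 13 50))))))) (.rp 42 (.thr 22 23 (.thr 16 32 (.thr 28 24 (.thr 25 19 (.thr 17 29 (.thr 51 34 (.dbl 49 13 50))))))) (.rp 32 (.thr 23 22 (.thr 63 42 (.thr 3 43 (.thr 18 33 (.thr 2 1 (.thr 34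 50 (.thr 17 51 (.thr 29 25 (.thr 12 46 (.thr 24 36 (.dbl 16 19 28))))))))))) (.rp 16 (.str 4 (.nv (.thr 12 8 (.thr 63 42 (.thr 29 46 (.thr 25 17 (.dbl 38 51 55))))) (.nv (.thr 12 8 (.thr 38 55 (.dbl 36 24 39))) (.rp 55 (.thr 12 8 (.thr 36 24 (.thr 38 39 (.thr 25 51 (.thr 29 17 (.dbl 63 42 46)))))) (.rp 38 (.thr 8 12 (.thr 22 23 (.thr 42 63 (.thr 25 59 (.thr 13 49 (.thr 29 17 (.thr 61 45 (.thr 1 41 (.dbl 2 3 62))))))))) (.rp 12 (.thr 38 55 (.thr 36 39 (.thr 42 63 (.thr 32 47 (.thr 44 40 (.thr 35 41 (.dbl 34 33 46))))))) (.rp 8 (.thr 38 55 (.thr 36 39 (.thr 12 24 (.thr 25 51 (.thr 29 17 (.dbl 63 42 46)))))) .nd))))))) .nd))))))) (.rp 43 (.thr 22 23 (.thr 60 40 (.thr 3 41 (.thr 42 63 (.dbl 2 1 62))))) (.rp 42 (.thr 22 23 (.thr 60 40 (.thr 41 3 (.thr 1 61 (.thr 33 45 (.thr 17 49 (.thr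 51 34 (.thr 57 54 (.dbl 25 9 29))))))))) (.rp 41 (.thr 40 60 (.thr 42 63 (.thr 32 47 (.thr 48 16 (.thr 36 44 (.thr 38 39 (.thr 4 55 (.dbl 12 8 24)))))))) (.rp 40 (.thr 22 23 (.thr 42 63 (.thr 32 47 (.thr 48 16 (.thr 2 62 (.thr 3 1 (.thr 33 18 (.dbl 41 45 60)))))))) (.rp 23 (.thr 40 60 (.thr 42 63 (.thr 32 47 (.thr 48 16 (.thr 36 44 (.thr 38 39 (.thr 12 24 (.dbl 4 8 55)))))))) (.rp 3 (.thr 23 22 (.thr 42 63 (.thr 40 60 (.thr 41 43 (.thr 33 45 (.thr 32 47 (.thr 35 34 (.dbl 44 36 38)))))))) .nd)))))))))))) (.rp 51 (.str 0 (.nv (.thr 22 23 (.thr 60 40 (.thr 3 41 (.thr 2 1 (.dbl 42 62 63))))) (.nv (.thr 40 60 (.thr 42 63 (.thr 32 47 (.thr 36 44 (.thr 4 52 (.dbl 38 39 55)))))) (.nv (.thr 22 23 (.thr 42 63 (.thr 2 62 (.thr 60 40 (.dbl 3 1 41))))) (.rp 63 (.thr 22 23 (.thr 52 7 (.thr 60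 40 (.thr 48 56 (.thr 16 32 (.thr 24 28 (.dbl 36 4 12))))))) (.rp 62 (.thr 22 23 (.thr 52 7 (.thr 60 40 (.thr 48 56 (.thr 32 16 (.dbl 42 47 63)))))) (.rp 60 (.thr 22 23 (.thr 52 7 (.thr 4 36 (.thr 55 38 (.thr 42 63 (.thr 8 12 (.thr 25 59 (.thr 28 19 (.thr 32 47 (.dbl 16 24 48)))))))))) (.rp 42 (.thr 22 23 (.thr 52 7 (.thr 60 40 (.thr 48 56 (.thr 16 32 (.thr 24 28 (.dbl 36 4 12))))))) (.rp 40 (.thr 22 23 (.thr 52 7 (.thr 42 63 (.thr 32 47 (.thr 48 16 (.thr 60 56 (.thr 2 62 (.dbl 3 1 41)))))))) .nd))))))))) (.rp 50 (.thr 22 23 (.str 0 (.nv (.thr 42 63 (.thr 32 47 (.thr 48 16 (.thr 52 7 (.dbl 60 40 56))))) (.nv (.thr 60 40 (.thr 3 41 (.thr 42 63 (.dbl 2 1 62)))) (.rp 63 (.thr 52 7 (.thr 60 40 (.thr 48 56 (.thr 16 32 (.thr 24 28 (.dbl 36 4 12)))))) (.rp 60 (.thr 52 7 (.thr 4 36 (.thr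 12 8 (.thr 63 42 (.thr 29 46 (.thr 25 17 (.dbl 38 51 55))))))) (.rp 56 (.thr 60 40 (.thr 41 3 (.thr 61 1 (.dbl 63 42 62)))) (.rp 42 (.thr 52 7 (.thr 60 40 (.thr 48 56 (.thr 16 32 (.thr 24 28 (.dbl 36 4 12)))))) (.rp 40 (.thr 52 7 (.thr 4 36 (.thr 12 8 (.thr 63 42 (.thr 29 46 (.thr 25 17 (.dbl 38 51 55))))))) (.rp 38 (.str 14 (.nv (.thr 52 7 (.thr 60 40 (.thr 48 56 (.thr 32 16 (.dbl 42 47 63))))) (.nv (.thr 42 63 (.thr 2 62 (.thr 60 40 (.dbl 3 1 41)))) (.rp 63 (.thr 52 7 (.thr 60 40 (.thr 48 56 (.thr 16 32 (.thr 24 28 (.dbl 36 4 12)))))) (.rp 60 (.thr 52 7 (.thr 4 36 (.thr 63 42 (.thr 12 8 (.thr 13 15 (.thr 25 49 (.dbl 29 17 46))))))) (.rp 42 (.thr 52 7 (.thr 60 40 (.thr 48 56 (.thr 16 32 (.thr 24 28 (.dbl 36 4 12)))))) (.rp 41 (.thr 52 7 (.thr 42 63 (.thr 32 47 (.thr 48 16 (.dbl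 60 40 56))))) (.rp 40 (.thr 7 52 (.thr 42 63 (.thr 2 62 (.thr 3 1 (.thr 6 10 (.thr 15 11 (.dbl 12 9 13))))))) .nd)))))))) (.rp 14 (.str 38 (.nv (.thr 42 63 (.thr 2 62 (.thr 3 1 (.dbl 60 40 41)))) (.nv (.thr 52 7 (.dbl 4 36 55)) .nd))) (.rp 3 (.thr 52 7 (.thr 60 40 (.thr 48 56 (.thr 32 16 (.dbl 42 47 63))))) .nd)))))))))))) (.rp 49 (.str 0 (.nv (.thr 40 60 (.thr 42 63 (.thr 32 47 (.thr 36 44 (.thr 4 52 (.dbl 38 39 55)))))) (.nv (.thr 22 23 (.thr 42 63 (.thr 2 62 (.thr 60 40 (.dbl 3 1 41))))) (.rp 63 (.thr 22 23 (.thr 52 7 (.thr 60 40 (.thr 48 56 (.thr 16 32 (.thr 24 28 (.dbl 36 4 12))))))) (.rp 62 (.thr 22 23 (.thr 52 7 (.thr 60 40 (.thr 48 56 (.thr 32 16 (.dbl 42 47 63)))))) (.rp 60 (.thr 22 23 (.thr 52 7 (.thr 4 36 (.thr 12 8 (.thr 63 42 (.thr 29 46 (.thr 25 17 (.dbl 38 51 55))))))))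 (.rp 42 (.thr 22 23 (.thr 52 7 (.thr 60 40 (.thr 48 56 (.thr 16 32 (.thr 24 28 (.dbl 36 4 12))))))) (.rp 40 (.thr 22 23 (.thr 52 7 (.thr 4 36 (.thr 12 8 (.thr 63 42 (.thr 29 46 (.thr 25 17 (.dbl 38 51 55)))))))) .nd)))))))) (.rp 48 (.str 0 (.nv (.thr 22 23 (.thr 60 40 (.thr 3 41 (.thr 2 1 (.dbl 42 62 63))))) (.nv (.thr 40 60 (.thr 42 63 (.thr 32 47 (.thr 36 44 (.thr 38 39 (.dbl 4 52 55)))))) (.nv (.thr 22 23 (.thr 42 63 (.thr 2 62 (.thr 60 40 (.dbl 3 1 41))))) (.rp 63 (.thr 22 23 (.thr 52 7 (.thr 4 36 (.thr 12 8 (.thr 60 40 (.thr 3 41 (.thr 6 9 (.dbl 38 54 55)))))))) (.rp 62 (.thr 22 23 (.thr 52 7 (.thr 4 36 (.thr 55 38 (.thr 54 53 (.thr 60 40 (.thr 51 57 (.dbl 63 42 59)))))))) (.rp 60 (.thr 22 23 (.thr 52 7 (.thr 4 36 (.thr 12 8 (.thr 63 42 (.thr 29 46 (.thr 25 17 (.dbl 38 51 55))))))))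 (.rp 43 (.thr 22 23 (.thr 60 40 (.thr 3 41 (.thr 42 63 (.dbl 2 1 62))))) (.rp 42 (.thr 22 23 (.thr 52 7 (.thr 4 36 (.thr 12 8 (.thr 60 40 (.thr 44 28 (.thr 41 3 (.dbl 38 35 55)))))))) (.rp 40 (.thr 22 23 (.thr 52 7 (.thr 4 36 (.thr 12 8 (.thr 63 42 (.thr 29 46 (.thr 25 17 (.dbl 38 51 55)))))))) .nd)))))))))) (.rp 47 (.thr 22 23 (.str 0 (.nv (.thr 52 7 (.thr 60 40 (.thr 48 56 (.thr 16 32 (.thr 24 28 (.dbl 36 4 12)))))) (.nv (.thr 60 40 (.thr 41 3 (.thr 63 42 (.dbl 61 1 62)))) (.rp 60 (.thr 52 7 (.thr 4 36 (.thr 12 8 (.thr 63 42 (.thr 29 46 (.thr 25 17 (.dbl 38 51 55))))))) (.rp 41 (.thr 52 7 (.thr 4 36 (.thr 55 38 (.thr 54 53 (.thr 60 40 (.thr 51 57 (.dbl 63 42 59))))))) (.rp 40 (.thr 52 7 (.thr 4 36 (.thr 12 8 (.thr 63 42 (.thr 29 46 (.thr 25 17 (.dbl 38 51 55))))))) .nd)))))))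 (.rp 46 (.str 0 (.nv (.thr 22 23 (.thr 52 7 (.thr 60 40 (.thr 48 56 (.thr 32 16 (.dbl 42 47 63)))))) (.nv (.thr 22 23 (.thr 60 40 (.thr 41 3 (.thr 61 1 (.dbl 63 42 62))))) (.rp 63 (.thr 22 23 (.thr 52 7 (.thr 60 40 (.thr 48 56 (.thr 16 32 (.thr 24 28 (.dbl 36 4 12))))))) (.rp 60 (.thr 22 23 (.thr 52 7 (.thr 42 63 (.thr 32 47 (.thr 16 48 (.thr 28 24 (.thr 25 19 (.thr 8 59 (.dbl 4 12 36))))))))) (.rp 42 (.thr 22 23 (.thr 52 7 (.thr 60 40 (.thr 48 56 (.thr 16 32 (.thr 24 28 (.dbl 36 4 12))))))) (.rp 41 (.thr 22 23 (.thr 52 7 (.thr 60 40 (.thr 42 63 (.thr 32 47 (.dbl 48 16 56)))))) (.rp 40 (.thr 22 23 (.thr 52 7 (.thr 42 63 (.thr 32 47 (.thr 48 16 (.thr 60 56 (.thr 2 62 (.dbl 3 1 41)))))))) (.rp 23 (.thr 60 40 (.thr 42 63 (.thr 32 47 (.thr 48 16 (.thr 52 56 (.thr 22 7 (.thr 2 62 (.dbl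 3 1 41)))))))) (.rp 22 (.thr 40 60 (.thr 42 63 (.thr 32 47 (.thr 44 36 (.thr 41 43 (.thr 33 45 (.dbl 35 34 38))))))) .nd)))))))))) (.rp 45 (.str 0 (.nv (.thr 22 23 (.thr 52 7 (.thr 60 40 (.thr 48 56 (.thr 32 16 (.dbl 42 47 63)))))) (.nv (.thr 22 23 (.thr 42 63 (.thr 2 62 (.thr 60 40 (.dbl 3 1 41))))) (.rp 63 (.thr 22 23 (.thr 52 7 (.thr 60 40 (.thr 48 56 (.thr 16 32 (.thr 24 28 (.dbl 36 4 12))))))) (.rp 60 (.thr 22 23 (.thr 52 7 (.thr 4 36 (.thr 12 8 (.thr 63 42 (.thr 29 46 (.thr 25 17 (.dbl 38 51 55)))))))) (.rp 42 (.thr 22 23 (.thr 52 7 (.thr 60 40 (.thr 48 56 (.thr 16 32 (.thr 24 28 (.dbl 36 4 12))))))) (.rp 41 (.thr 22 23 (.thr 52 7 (.thr 60 40 (.thr 42 63 (.thr 32 47 (.dbl 48 16 56)))))) (.rp 40 (.thr 22 23 (.thr 52 7 (.thr 4 36 (.thr 12 8 (.thr 63 42 (.thr 29 46 (.thr 25 17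 (.dbl 38 51 55)))))))) (.rp 23 (.thr 60 40 (.thr 42 63 (.thr 32 47 (.thr 48 16 (.thr 52 56 (.thr 22 7 (.thr 2 62 (.dbl 3 1 41)))))))) (.rp 22 (.thr 40 60 (.thr 42 63 (.thr 32 47 (.thr 44 36 (.thr 41 43 (.thr 35 38 (.thr 34 33 (.thr 51 17 (.thr 3 19 (.dbl 1 2 61)))))))))) .nd)))))))))) (.rp 44 (.str 0 (.nv (.thr 42 63 (.thr 32 47 (.thr 48 16 (.thr 60 40 (.thr 52 56 (.dbl 22 7 23)))))) (.nv (.thr 22 23 (.thr 42 63 (.thr 2 62 (.thr 60 40 (.dbl 3 1 41))))) (.rp 63 (.thr 22 23 (.thr 52 7 (.thr 60 40 (.thr 3 41 (.thr 2 1 (.thr 42 62 (.thr 32 47 (.dbl 48 16 56)))))))) (.rp 60 (.thr 22 23 (.thr 52 7 (.thr 4 36 (.thr 12 8 (.thr 63 42 (.thr 29 46 (.thr 25 17 (.dbl 38 51 55)))))))) (.rp 42 (.thr 22 23 (.thr 60 40 (.thr 41 3 (.thr 1 61 (.thr 33 45 (.thr 17 49 (.thr 51 34 (.thr 57 54 (.dbl 25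 9 29))))))))) (.rp 41 (.thr 22 23 (.thr 52 7 (.thr 60 40 (.thr 42 63 (.thr 32 47 (.dbl 48 16 56)))))) (.rp 40 (.thr 22 23 (.thr 52 7 (.thr 42 63 (.thr 32 47 (.thr 48 16 (.thr 60 56 (.thr 2 62 (.dbl 3 1 41)))))))) (.rp 32 (.thr 22 23 (.thr 42 63 (.thr 2 62 (.thr 3 1 (.dbl 60 40 41))))) (.rp 23 (.thr 60 40 (.thr 42 63 (.thr 32 47 (.thr 48 16 (.thr 52 56 (.thr 22 7 (.thr 2 62 (.dbl 3 1 41)))))))) (.rp 22 (.thr 60 40 (.thr 42 63 (.thr 32 47 (.thr 48 16 (.thr 52 56 (.thr 4 36 (.thr 8 12 (.thr 25 59 (.thr 49 13 (.thr 51 50 (.dbl 17 29 34))))))))))) .nd))))))))))) (.rp 43 (.thr 22 23 (.str 63 (.nv (.thr 0 42 (.thr 60 40 (.thr 41 3 (.dbl 61 1 62)))) (.rp 62 (.thr 52 7 (.thr 4 36 (.thr 55 38 (.thr 54 53 (.thr 51 59 (.thr 60 57 (.dbl 0 40 42))))))) (.rp 61 (.thr 52 7 (.thr 4 36 (.thr 55 38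 (.thr 53 54 (.thr 48 58 (.thr 60 56 (.dbl 0 40 42))))))) (.rp 60 (.thr 52 7 (.thr 4 36 (.thr 0 42 (.thr 12 8 (.thr 29 46 (.thr 25 17 (.dbl 38 51 55))))))) (.rp 58 (.thr 7 52 (.thr 42 0 (.thr 62 2 (.thr 60 61 (.thr 3 41 (.thr 47 32 (.dbl 15 11 31))))))) (.rp 42 (.thr 52 7 (.thr 4 36 (.thr 55 38 (.thr 54 53 (.thr 51 59 (.thr 60 57 (.thr 61 62 (.dbl 41 1 3)))))))) (.rp 41 (.thr 52 7 (.thr 4 36 (.thr 55 38 (.thr 54 53 (.thr 51 59 (.thr 60 57 (.dbl 0 40 42))))))) (.rp 40 (.thr 7 52 (.thr 42 0 (.thr 62 2 (.thr 60 61 (.thr 3 41 (.thr 47 32 (.dbl 15 11 31))))))) (.rp 10 (.thr 52 7 (.thr 4 36 (.thr 55 38 (.thr 54 53 (.thr 51 59 (.thr 60 57 (.dbl 0 40 42))))))) (.rp 3 (.thr 52 7 (.thr 4 36 (.thr 55 38 (.thr 53 54 (.thr 48 58 (.thr 60 56 (.dbl 0 40 42))))))) (.rp 1 (.thr 52 7 (.thr 4 36 (.thr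 55 38 (.thr 53 54 (.thr 48 58 (.thr 60 56 (.dbl 0 40 42))))))) (.rp 0 (.thr 52 7 (.thr 4 36 (.thr 55 38 (.thr 53 54 (.thr 48 58 (.thr 60 56 (.thr 41 3 (.dbl 61 1 62)))))))) .nd)))))))))))))) (.rp 42 (.thr 22 23 .ext) (.rp 41 (.str 4 (.nv (.thr 36 52 (.dbl 38 39 55)) (.nv (.thr 52 36 (.dbl 22 7 23)) (.rp 56 (.str 11 (.nv (.thr 36 52 (.dbl 38 39 55)) (.nv (.thr 22 23 (.dbl 52 7 36)) (.rp 52 (.str 60 (.nv (.thr 38 55 (.thr 36 39 (.thr 0 40 (.thr 12 8 (.thr 24 48 (.dbl 28 16 44)))))) (.nv (.thr 0 40 (.thr 8 12 (.thr 22 23 (.thr 42 63 (.thr 25 59 (.thr 28 19 (.thr 16 24 (.dbl 32 47 48)))))))) (.nv (.thr 23 22 (.thr 55 38 (.thr 7 39 (.thr 3 15 (.thr 63 43 (.dbl 0 40 42)))))) (.nv (.thr 0 40 (.thr 42 63 (.thr 38 55 (.thr 34 46 (.thr 51 17 (.dbl 12 8 25)))))) (.rp 55 (.thr 23 22 (.thr 0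 40 (.thr 63 42 (.thr 43 3 (.thr 27 59 (.thr 31 19 (.thr 15 47 (.thr 30 45 (.thr 28 29 (.dbl 12 8 44)))))))))) (.rp 42 (.thr 22 23 (.thr 38 55 (.thr 54 6 (.thr 51 57 (.thr 25 12 (.thr 17 29 (.dbl 0 34 40))))))) (.rp 40 (.thr 22 23 (.thr 38 55 (.thr 39 36 (.thr 54 6 (.thr 51 57 (.thr 15 27 (.thr 3 7 (.thr 25 12 (.dbl 19 28 35))))))))) (.rp 0 (.thr 22 23 (.thr 38 55 (.thr 39 36 (.thr 54 6 (.thr 51 57 (.thr 15 27 (.thr 3 7 (.thr 25 12 (.dbl 19 28 35))))))))) .nd))))))))) (.rp 36 (.thr 23 22 (.thr 55 38 (.thr 7 39 (.thr 3 15 (.thr 63 43 (.thr 0 42 (.thr 40 60 (.thr 2 1 (.thr 51 59 (.thr 35 19 (.thr 34 17 (.thr 33 32 (.dbl 18 48 50))))))))))))) .nd))))) (.rp 52 (.thr 22 23 (.thr 38 55 (.thr 54 6 (.thr 39 36 (.str 0 (.nv (.thr 42 63 (.thr 34 46 (.thr 51 17 (.dbl 60 40 57)))) (.nv (.thr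 12 8 (.thr 60 40 (.dbl 51 25 57))) (.nv (.thr 12 8 (.thr 25 51 (.thr 29 17 (.dbl 63 42 46)))) (.rp 56 (.str 11 (.nv (.thr 60 40 (.thr 42 63 (.thr 51 57 (.dbl 34 17 46)))) (.nv (.thr 42 63 (.thr 34 46 (.thr 51 17 (.dbl 60 40 57)))) (.nv (.thr 42 63 (.thr 34 46 (.thr 51 17 (.dbl 12 8 25)))) (.nv (.thr 12 8 (.thr 51 25 (.dbl 60 40 57))) (.rp 60 (.str 48 (.nv (.thr 16 32 (.thr 28 24 (.thr 25 19 (.dbl 12 8 51)))) (.nv (.thr 12 8 (.thr 25 51 (.thr 29 17 (.dbl 63 42 46)))) (.nv (.thr 32 16 (.dbl 42 47 63)) .nd)))) (.rp 59 (.thr 12 8 (.thr 51 25 (.thr 42 63 (.dbl 34 17 46)))) (.rp 51 (.thr 8 12 (.thr 42 63 (.thr 59 25 (.thr 47 32 (.dbl 43 27 35))))) (.rp 42 (.thr 12 8 (.thr 25 51 (.thr 28 19 (.dbl 60 40 44)))) .nd))))))))) (.rp 51 (.thr 12 8 (.thr 63 42 (.thr 29 46 (.thr 25 17 (.thr 28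 19 (.dbl 60 40 44)))))) (.rp 42 (.thr 12 8 (.thr 25 51 (.thr 28 19 (.dbl 60 40 44)))) (.rp 12 (.thr 60 40 (.thr 51 57 (.thr 34 17 (.dbl 42 46 63)))) (.rp 11 (.str 56 (.nv (.thr 42 63 (.thr 60 40 (.thr 51 57 (.dbl 34 17 46)))) (.nv (.thr 12 8 (.thr 25 51 (.thr 29 17 (.dbl 63 42 46)))) (.nv (.thr 40 60 (.dbl 8 12 24)) .nd)))) .nd))))))))))))) (.rp 36 (.thr 22 23 (.thr 7 52 (.thr 38 55 (.thr 54 6 (.str 0 (.nv (.thr 42 63 (.thr 34 46 (.thr 51 17 (.dbl 60 40 57)))) (.nv (.thr 12 8 (.thr 60 40 (.dbl 51 25 57))) (.nv (.thr 12 8 (.thr 25 51 (.thr 29 17 (.dbl 63 42 46)))) (.rp 56 (.str 11 (.nv (.thr 12 8 (.thr 15 3 (.thr 13 14 (.dbl 25 49 51)))) (.nv (.thr 60 40 (.thr 51 57 (.dbl 12 8 25))) (.nv (.thr 3 15 (.thr 2 1 (.dbl 42 62 63))) (.rp 60 (.str 48 (.nv (.thr 12 8 (.thr 15 3 (.thr 13 14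 (.dbl 25 49 51)))) (.nv (.thr 32 16 (.dbl 42 47 63)) (.rp 63 (.thr 16 32 (.thr 28 24 (.thr 25 19 (.dbl 12 8 51)))) .nd)))) .nd))))) (.rp 51 (.thr 12 8 (.thr 63 42 (.thr 29 46 (.thr 25 17 (.thr 28 19 (.dbl 60 40 44)))))) (.rp 42 (.thr 12 8 (.thr 25 51 (.thr 28 19 (.dbl 60 40 44)))) (.rp 12 (.thr 60 40 (.thr 51 57 (.thr 34 17 (.dbl 42 46 63)))) (.rp 11 (.str 56 (.nv (.thr 42 63 (.thr 60 40 (.thr 51 57 (.dbl 34 17 46)))) (.nv (.thr 12 8 (.thr 25 51 (.thr 29 17 (.dbl 63 42 46)))) (.nv (.thr 40 60 (.dbl 8 12 24)) .nd)))) .nd))))))))))))) (.rp 11 (.str 56 (.nv (.thr 36 52 (.dbl 38 39 55)) (.nv (.thr 52 36 (.dbl 22 7 23)) (.rp 52 (.str 32 (.nv (.thr 38 55 (.thr 36 39 (.thr 42 47 (.thr 0 63 (.thr 12 8 (.dbl 48 16 24)))))) (.nv (.thr 38 55 (.thr 36 39 (.thr 40 44 (.thr 42 47 (.dbl 0 60 63)))))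 (.nv (.thr 38 55 (.thr 36 39 (.thr 40 44 (.thr 0 60 (.dbl 8 12 24))))) (.nv (.thr 42 47 (.thr 0 63 (.thr 8 12 (.dbl 40 24 60)))) (.rp 0 (.thr 38 55 (.thr 36 39 (.thr 40 44 (.thr 24 8 (.thr 28 16 (.thr 12 48 (.thr 25 51 (.dbl 22 19 23)))))))) .nd)))))) (.rp 36 (.thr 55 38 (.thr 22 23 (.thr 52 7 (.thr 60 48 (.thr 0 40 (.thr 54 53 (.thr 51 57 (.dbl 63 42 59)))))))) .nd))))) .nd))))))) (.rp 40 (.thr 22 23 (.str 63 (.nv (.thr 42 0 (.thr 52 7 (.thr 62 2 (.thr 60 61 (.thr 48 56 (.thr 53 58 (.thr 55 54 (.dbl 4 36 38)))))))) (.nv (.thr 42 0 (.thr 47 32 (.thr 15 31 (.thr 62 2 (.thr 60 61 (.thr 45 30 (.dbl 41 3 33))))))) (.nv (.thr 52 7 (.thr 4 36 (.thr 55 38 (.thr 54 53 (.thr 51 59 (.thr 60 57 (.thr 61 62 (.dbl 41 1 3)))))))) (.nv (.thr 0 42 (.thr 52 7 (.thr 4 36 (.thr 12 8 (.thr 29 46 (.thr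 25 17 (.dbl 38 51 55))))))) (.nv (.thr 7 52 (.thr 42 0 (.thr 47 32 (.thr 62 2 (.thr 60 61 (.thr 3 41 (.dbl 15 11 31))))))) (.rp 41 (.thr 52 7 (.thr 4 36 (.thr 55 38 (.thr 53 54 (.thr 48 58 (.thr 42 0 (.thr 62 2 (.dbl 60 56 61)))))))) (.rp 36 (.thr 52 7 (.thr 42 0 (.thr 62 2 (.thr 60 61 (.thr 48 56 (.thr 58 53 (.thr 50 54 (.thr 49 51 (.thr 25 13 (.thr 28 19 (.thr 12 44 (.thr 32 47 (.dbl 29 17 46))))))))))))) .nd))))))))) (.rp 39 (.str 0 (.nv (.thr 40 60 (.thr 42 63 (.thr 32 47 (.thr 36 44 (.thr 52 4 (.dbl 22 7 23)))))) (.nv (.thr 22 23 (.thr 42 63 (.thr 2 62 (.thr 60 40 (.dbl 3 1 41))))) (.rp 63 (.thr 22 23 (.thr 60 40 (.thr 3 41 (.thr 2 1 (.thr 42 62 (.thr 32 47 (.thr 48 16 (.dbl 52 7 56)))))))) (.rp 62 (.thr 22 23 (.thr 60 40 (.thr 42 63 (.thr 32 47 (.thr 48 16 (.dbl 52 7 56))))))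 (.rp 60 (.thr 22 23 (.thr 42 63 (.thr 32 47 (.thr 16 48 (.thr 28 24 (.thr 25 19 (.thr 17 29 (.thr 51 34 (.thr 12 38 (.dbl 8 4 59)))))))))) (.rp 43 (.thr 22 23 (.thr 60 40 (.thr 3 41 (.thr 42 63 (.dbl 2 1 62))))) (.rp 42 (.thr 22 23 (.thr 60 40 (.thr 41 3 (.thr 1 61 (.thr 33 45 (.thr 17 49 (.thr 51 34 (.thr 57 54 (.dbl 25 9 29))))))))) (.rp 40 (.thr 22 23 (.thr 42 63 (.thr 32 47 (.thr 48 16 (.thr 2 62 (.thr 3 1 (.thr 33 18 (.dbl 41 45 60)))))))) (.rp 23 (.thr 40 60 (.thr 42 63 (.thr 32 47 (.thr 48 16 (.thr 36 44 (.thr 4 52 (.dbl 12 8 24))))))) (.rp 22 (.thr 40 60 (.thr 42 63 (.thr 32 47 (.thr 48 16 (.thr 36 44 (.thr 4 52 (.dbl 12 8 24))))))) (.rp 7 (.thr 60 40 (.thr 63 42 (.thr 61 62 (.thr 41 1 (.dbl 22 3 23))))) .nd)))))))))))) (.rp 38 (.thr 22 23 (.str 0 (.nv (.thr 52 7 (.thr 60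 40 (.thr 48 56 (.thr 32 16 (.dbl 42 47 63))))) (.nv (.thr 42 63 (.thr 2 62 (.thr 60 40 (.dbl 3 1 41)))) (.rp 63 (.thr 52 7 (.thr 60 40 (.thr 48 56 (.thr 16 32 (.thr 24 28 (.dbl 36 4 12)))))) (.rp 60 (.thr 52 7 (.thr 4 36 (.thr 8 12 (.thr 42 63 (.thr 32 47 (.thr 25 59 (.thr 28 19 (.dbl 16 24 48)))))))) (.rp 50 (.str 14 (.nv (.thr 52 7 (.thr 60 40 (.thr 48 56 (.thr 32 16 (.dbl 42 47 63))))) (.nv (.thr 42 63 (.thr 2 62 (.thr 60 40 (.dbl 3 1 41)))) (.rp 63 (.thr 52 7 (.thr 60 40 (.thr 48 56 (.thr 16 32 (.thr 24 28 (.dbl 36 4 12)))))) (.rp 60 (.thr 52 7 (.thr 4 36 (.thr 63 42 (.thr 12 8 (.thr 13 15 (.thr 25 49 (.dbl 29 17 46))))))) (.rp 42 (.thr 52 7 (.thr 60 40 (.thr 48 56 (.thr 16 32 (.thr 24 28 (.dbl 36 4 12)))))) (.rp 41 (.thr 52 7 (.thr 42 63 (.thr 32 47 (.thr 48 16 (.dbl 60 40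 56))))) (.rp 40 (.thr 7 52 (.thr 42 63 (.thr 2 62 (.thr 3 1 (.thr 6 10 (.thr 15 11 (.dbl 12 9 13))))))) .nd)))))))) (.rp 42 (.thr 52 7 (.thr 60 40 (.thr 48 56 (.thr 16 32 (.thr 24 28 (.dbl 36 4 12)))))) (.rp 41 (.thr 52 7 (.thr 60 40 (.thr 42 63 (.thr 32 47 (.dbl 48 16 56))))) (.rp 40 (.thr 52 7 (.thr 42 63 (.thr 2 62 (.thr 3 1 (.thr 60 41 (.thr 32 47 (.dbl 48 16 56))))))) (.rp 14 (.str 50 (.nv (.thr 42 63 (.thr 2 62 (.thr 3 1 (.thr 18 34 (.thr 32 47 (.dbl 48 16 33)))))) (.nv (.thr 52 7 (.thr 60 40 (.thr 48 56 (.thr 32 16 (.dbl 42 47 63))))) (.nv (.thr 42 63 (.thr 2 62 (.thr 60 40 (.dbl 3 1 41)))) (.rp 63 (.thr 52 7 (.thr 60 40 (.thr 48 56 (.thr 16 32 (.thr 24 28 (.dbl 36 4 12)))))) (.rp 60 (.thr 42 63 (.thr 32 47 (.thr 48 16 (.thr 51 49 (.thr 34 17 (.dbl 2 18 62)))))) (.rp 42 (.thr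 52 7 (.thr 60 40 (.thr 48 56 (.thr 16 32 (.thr 24 28 (.dbl 36 4 12)))))) .nd))))))) .nd))))))))))) (.rp 36 (.str 60 (.nv (.thr 22 23 (.thr 52 7 (.thr 48 56 (.thr 0 40 (.thr 32 16 (.dbl 42 47 63)))))) (.nv (.thr 0 40 (.thr 22 23 (.thr 42 63 (.thr 2 62 (.dbl 3 1 41))))) (.rp 63 (.thr 22 23 (.thr 52 7 (.thr 48 56 (.thr 0 40 (.thr 32 16 (.thr 42 47 (.thr 2 62 (.dbl 3 1 41)))))))) (.rp 42 (.thr 22 23 (.thr 0 40 (.thr 41 3 (.thr 1 61 (.thr 33 45 (.thr 17 49 (.thr 51 34 (.thr 57 54 (.dbl 25 9 29))))))))) (.rp 41 (.thr 22 23 (.thr 52 7 (.thr 0 40 (.thr 42 63 (.thr 32 47 (.dbl 48 16 56)))))) (.rp 40 (.thr 22 23 (.thr 41 3 (.thr 61 1 (.thr 63 62 (.thr 45 33 (.thr 15 30 (.thr 47 31 (.dbl 42 0 32)))))))) (.rp 32 (.thr 22 23 (.thr 41 3 (.thr 61 1 (.thr 63 62 (.dbl 0 40 42))))) (.rp 23 (.thr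 0 40 (.thr 42 63 (.thr 32 47 (.thr 48 16 (.thr 52 56 (.thr 22 7 (.thr 2 62 (.dbl 3 1 41)))))))) (.rp 22 (.thr 0 40 (.thr 42 63 (.thr 32 47 (.thr 16 48 (.thr 28 24 (.thr 12 44 (.thr 8 4 (.thr 25 59 (.thr 17 29 (.dbl 51 34 38)))))))))) (.rp 0 (.thr 22 23 (.thr 52 7 (.thr 48 56 (.thr 41 3 (.thr 1 61 (.thr 33 45 (.thr 49 17 (.thr 51 50 (.thr 57 54 (.dbl 25 9 13)))))))))) .nd))))))))))) (.rp 35 (.str 0 (.nv (.thr 22 23 (.thr 42 63 (.thr 32 47 (.thr 48 16 (.thr 52 7 (.dbl 60 40 56)))))) (.nv (.thr 40 60 (.thr 42 63 (.thr 32 47 (.thr 36 44 (.thr 4 52 (.dbl 38 39 55)))))) (.nv (.thr 22 23 (.thr 42 63 (.thr 2 62 (.thr 60 40 (.dbl 3 1 41))))) (.rp 63 (.thr 22 23 (.thr 52 7 (.thr 60 40 (.thr 48 56 (.thr 16 32 (.thr 24 28 (.dbl 36 4 12))))))) (.rp 60 (.thr 22 23 (.thr 52 7 (.thr 4 36 (.thr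 12 8 (.thr 63 42 (.thr 29 46 (.thr 25 17 (.dbl 38 51 55)))))))) (.rp 43 (.thr 22 23 (.thr 60 40 (.thr 3 41 (.thr 42 63 (.dbl 2 1 62))))) (.rp 42 (.thr 22 23 (.thr 52 7 (.thr 60 40 (.thr 48 56 (.thr 16 32 (.thr 24 28 (.dbl 36 4 12))))))) (.rp 40 (.thr 22 23 (.thr 52 7 (.thr 4 36 (.thr 12 8 (.thr 63 42 (.thr 29 46 (.thr 25 17 (.dbl 38 51 55)))))))) .nd))))))))) (.rp 34 (.str 0 (.nv (.thr 40 60 (.thr 42 63 (.thr 32 47 (.thr 36 44 (.thr 4 52 (.dbl 38 39 55)))))) (.nv (.thr 22 23 (.thr 42 63 (.thr 2 62 (.thr 60 40 (.dbl 3 1 41))))) (.rp 63 (.thr 22 23 (.thr 52 7 (.thr 60 40 (.thr 48 56 (.thr 16 32 (.thr 24 28 (.dbl 36 4 12))))))) (.rp 62 (.thr 22 23 (.thr 52 7 (.thr 60 40 (.thr 48 56 (.thr 32 16 (.dbl 42 47 63)))))) (.rp 60 (.thr 22 23 (.thr 52 7 (.thr 4 36 (.thr 8 12 (.thr 42 63 (.thr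 32 47 (.thr 25 59 (.thr 28 19 (.dbl 16 24 48))))))))) (.rp 42 (.thr 22 23 (.thr 52 7 (.thr 60 40 (.thr 48 56 (.thr 16 32 (.thr 24 28 (.dbl 36 4 12))))))) (.rp 40 (.thr 22 23 (.thr 52 7 (.thr 42 63 (.thr 32 47 (.thr 48 16 (.thr 60 56 (.thr 2 62 (.dbl 3 1 41)))))))) .nd)))))))) (.rp 33 (.str 0 (.nv (.thr 40 60 (.thr 42 63 (.thr 32 47 (.thr 36 44 (.thr 4 52 (.dbl 38 39 55)))))) (.nv (.thr 22 23 (.thr 42 63 (.thr 2 62 (.thr 60 40 (.dbl 3 1 41))))) (.rp 63 (.thr 22 23 (.thr 52 7 (.thr 60 40 (.thr 48 56 (.thr 16 32 (.thr 24 28 (.dbl 36 4 12))))))) (.rp 62 (.thr 22 23 (.thr 52 7 (.thr 60 40 (.thr 48 56 (.thr 32 16 (.dbl 42 47 63)))))) (.rp 60 (.thr 22 23 (.thr 52 7 (.thr 4 36 (.thr 12 8 (.thr 63 42 (.thr 29 46 (.thr 25 17 (.dbl 38 51 55)))))))) (.rp 42 (.thr 22 23 (.thr 52 7 (.thr 60 40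 (.thr 48 56 (.thr 16 32 (.thr 24 28 (.dbl 36 4 12))))))) (.rp 40 (.thr 22 23 (.thr 52 7 (.thr 4 36 (.thr 12 8 (.thr 63 42 (.thr 29 46 (.thr 25 17 (.dbl 38 51 55)))))))) .nd)))))))) (.rp 32 (.thr 22 23 (.str 60 (.nv (.thr 41 3 (.thr 61 1 (.thr 63 62 (.dbl 0 40 42)))) (.nv (.thr 0 40 (.thr 63 42 (.thr 41 3 (.dbl 61 1 62)))) (.nv (.thr 0 40 (.thr 42 63 (.thr 2 62 (.dbl 3 1 41)))) (.rp 63 (.thr 52 7 (.thr 48 56 (.thr 40 0 (.thr 41 3 (.thr 43 42 (.thr 1 61 (.thr 33 45 (.thr 49 17 (.thr 51 50 (.thr 57 54 (.dbl 25 9 13))))))))))) (.rp 62 (.thr 52 7 (.thr 4 36 (.thr 55 38 (.thr 54 53 (.thr 51 57 (.thr 63 59 (.dbl 0 40 42))))))) (.rp 42 (.thr 52 7 (.thr 4 36 (.thr 55 38 (.thr 54 53 (.thr 51 57 (.thr 63 59 (.thr 61 62 (.dbl 41 1 3)))))))) (.rp 41 (.thr 52 7 (.thr 4 36 (.thr 55 38 (.thr 54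 53 (.thr 51 57 (.thr 63 59 (.dbl 0 40 42))))))) (.rp 40 (.thr 52 7 (.thr 48 56 (.thr 41 3 (.thr 61 1 (.thr 63 62 (.thr 53 58 (.thr 57 49 (.dbl 54 51 55)))))))) (.rp 3 (.thr 52 7 (.thr 4 36 (.thr 55 38 (.thr 54 53 (.thr 51 57 (.thr 63 59 (.dbl 0 40 42))))))) (.rp 1 (.thr 52 7 (.thr 4 36 (.thr 55 38 (.thr 54 53 (.thr 51 57 (.thr 63 59 (.dbl 0 40 42))))))) (.rp 0 (.thr 52 7 (.thr 4 36 (.thr 55 38 (.thr 54 53 (.thr 51 57 (.thr 63 59 (.thr 61 62 (.dbl 41 1 3)))))))) .nd))))))))))))) (.rp 31 (.str 0 (.nv (.thr 60 40 (.thr 63 42 (.thr 61 62 (.thr 41 1 (.dbl 22 3 23))))) (.nv (.thr 22 23 (.thr 52 7 (.thr 60 40 (.thr 48 56 (.thr 16 32 (.thr 24 28 (.dbl 36 4 12))))))) (.nv (.thr 22 23 (.thr 60 40 (.thr 41 3 (.thr 63 42 (.dbl 61 1 62))))) (.rp 60 (.thr 22 23 (.thr 52 7 (.thr 4 36 (.thr 12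 8 (.thr 63 42 (.thr 29 46 (.thr 25 17 (.dbl 38 51 55)))))))) (.rp 41 (.thr 22 23 (.thr 52 7 (.thr 4 36 (.thr 55 38 (.thr 54 53 (.thr 60 40 (.thr 51 57 (.dbl 63 42 59)))))))) (.rp 40 (.thr 22 23 (.thr 52 7 (.thr 4 36 (.thr 12 8 (.thr 63 42 (.thr 29 46 (.thr 25 17 (.dbl 38 51 55)))))))) (.rp 23 (.thr 60 40 (.thr 63 42 (.thr 61 62 (.thr 41 1 (.thr 45 33 (.thr 22 3 (.thr 52 7 (.thr 4 36 (.thr 12 8 (.dbl 29 13 46)))))))))) (.rp 22 (.thr 40 60 (.thr 42 63 (.thr 47 32 (.thr 41 43 (.thr 61 1 (.thr 45 33 (.thr 46 44 (.thr 34 38 (.thr 17 51 (.dbl 29 13 25)))))))))) .nd))))))))) (.rp 30 (.thr 22 23 (.str 0 (.nv (.thr 42 63 (.thr 32 47 (.thr 48 16 (.thr 52 7 (.dbl 60 40 56))))) (.nv (.thr 60 40 (.thr 3 41 (.thr 42 63 (.dbl 2 1 62)))) (.rp 63 (.thr 52 7 (.thr 60 40 (.thr 48 56 (.thr 16 32 (.thr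 24 28 (.dbl 36 4 12)))))) (.rp 60 (.thr 52 7 (.thr 4 36 (.thr 12 8 (.thr 63 42 (.thr 29 46 (.thr 25 17 (.dbl 38 51 55))))))) (.rp 56 (.thr 60 40 (.thr 41 3 (.thr 61 1 (.dbl 63 42 62)))) (.rp 42 (.thr 52 7 (.thr 60 40 (.thr 48 56 (.thr 16 32 (.thr 24 28 (.dbl 36 4 12)))))) (.rp 40 (.thr 52 7 (.thr 4 36 (.thr 12 8 (.thr 63 42 (.thr 29 46 (.thr 25 17 (.dbl 38 51 55))))))) (.rp 3 (.thr 52 7 (.thr 60 40 (.thr 48 56 (.thr 32 16 (.dbl 42 47 63))))) .nd)))))))))) (.rp 29 (.str 0 (.nv (.thr 22 23 (.thr 42 63 (.thr 32 47 (.thr 48 16 (.thr 52 7 (.dbl 60 40 56)))))) (.nv (.thr 40 60 (.thr 42 63 (.thr 32 47 (.thr 36 44 (.thr 4 52 (.dbl 38 39 55)))))) (.nv (.thr 22 23 (.thr 60 40 (.thr 41 3 (.thr 63 42 (.dbl 61 1 62))))) (.rp 63 (.thr 22 23 (.thr 52 7 (.thr 60 40 (.thr 48 56 (.thr 16 32 (.thr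 24 28 (.dbl 36 4 12))))))) (.rp 60 (.thr 22 23 (.thr 52 7 (.thr 42 63 (.thr 32 47 (.thr 16 48 (.thr 28 24 (.thr 25 19 (.thr 8 59 (.dbl 4 12 36))))))))) (.rp 42 (.thr 22 23 (.thr 52 7 (.thr 60 40 (.thr 48 56 (.thr 16 32 (.thr 24 28 (.dbl 36 4 12))))))) (.rp 40 (.thr 22 23 (.thr 52 7 (.thr 42 63 (.thr 32 47 (.thr 48 16 (.thr 60 56 (.thr 2 62 (.dbl 3 1 41)))))))) .nd)))))))) (.rp 28 (.str 0 (.nv (.thr 22 23 (.thr 52 7 (.thr 60 40 (.thr 48 56 (.thr 32 16 (.dbl 42 47 63)))))) (.nv (.thr 22 23 (.thr 42 63 (.thr 2 62 (.thr 60 40 (.dbl 3 1 41))))) (.rp 63 (.thr 22 23 (.thr 52 7 (.thr 4 36 (.thr 12 8 (.thr 60 40 (.thr 3 41 (.thr 6 9 (.dbl 38 54 55)))))))) (.rp 60 (.thr 22 23 (.thr 52 7 (.thr 4 36 (.thr 12 8 (.thr 63 42 (.thr 29 46 (.thr 25 17 (.dbl 38 51 55)))))))) (.rp 42 (.thr 22 23 (.thr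 60 40 (.thr 41 3 (.thr 1 61 (.thr 33 45 (.thr 17 49 (.thr 51 34 (.thr 57 54 (.dbl 25 9 29))))))))) (.rp 41 (.thr 22 23 (.thr 52 7 (.thr 60 40 (.thr 42 63 (.thr 32 47 (.dbl 48 16 56)))))) (.rp 40 (.thr 22 23 (.thr 52 7 (.thr 4 36 (.thr 12 8 (.thr 63 42 (.thr 29 46 (.thr 25 17 (.dbl 38 51 55)))))))) (.rp 23 (.thr 40 60 (.thr 42 63 (.thr 32 47 (.thr 48 16 (.thr 36 44 (.thr 12 24 (.dbl 4 8 52))))))) (.rp 22 (.thr 40 60 (.thr 42 63 (.thr 32 47 (.thr 48 16 (.thr 36 44 (.thr 12 24 (.dbl 4 8 52))))))) .nd)))))))))) (.rp 27 (.str 0 (.nv (.thr 40 60 (.thr 42 63 (.thr 32 47 (.thr 36 44 (.thr 4 52 (.dbl 38 39 55)))))) (.nv (.thr 22 23 (.thr 42 63 (.thr 2 62 (.thr 60 40 (.dbl 3 1 41))))) (.rp 63 (.thr 22 23 (.thr 52 7 (.thr 60 40 (.thr 48 56 (.thr 16 32 (.thr 24 28 (.dbl 36 4 12))))))) (.rp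 62 (.thr 22 23 (.thr 52 7 (.thr 60 40 (.thr 48 56 (.thr 32 16 (.dbl 42 47 63)))))) (.rp 60 (.thr 22 23 (.thr 52 7 (.thr 4 36 (.thr 12 8 (.thr 63 42 (.thr 29 46 (.thr 25 17 (.dbl 38 51 55)))))))) (.rp 42 (.thr 22 23 (.thr 52 7 (.thr 60 40 (.thr 48 56 (.thr 16 32 (.thr 24 28 (.dbl 36 4 12))))))) (.rp 40 (.thr 22 23 (.thr 52 7 (.thr 4 36 (.thr 12 8 (.thr 63 42 (.thr 29 46 (.thr 25 17 (.dbl 38 51 55)))))))) (.rp 31 (.thr 60 40 (.thr 63 42 (.thr 61 62 (.thr 41 1 (.dbl 22 3 23))))) (.rp 25 (.str 24 (.nv (.thr 42 63 (.thr 32 47 (.dbl 16 28 48))) (.nv (.thr 22 23 (.thr 40 60 (.thr 8 56 (.thr 52 7 (.dbl 4 12 36))))) (.nv (.thr 16 28 (.thr 32 48 (.dbl 42 47 63))) .nd)))) (.rp 24 (.str 25 (.nv (.thr 22 23 (.thr 52 7 (.thr 4 36 (.thr 12 8 (.dbl 38 51 55))))) (.nv (.thr 22 23 (.thr 42 63 (.thr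 2 62 (.thr 3 1 (.dbl 60 40 41))))) (.nv (.thr 17 29 (.thr 51 34 (.thr 12 38 (.thr 42 63 (.dbl 8 4 59))))) .nd)))) .nd))))))))))) (.rp 25 (.thr 22 23 (.str 60 (.nv (.thr 0 40 (.thr 52 7 (.thr 48 56 (.thr 32 16 (.dbl 42 47 63))))) (.nv (.thr 0 40 (.thr 42 63 (.thr 2 62 (.dbl 3 1 41)))) (.rp 63 (.thr 52 7 (.thr 48 56 (.thr 0 40 (.thr 16 32 (.thr 24 28 (.dbl 36 4 12)))))) (.rp 42 (.thr 52 7 (.thr 48 56 (.thr 0 40 (.thr 16 32 (.thr 24 28 (.dbl 36 4 12)))))) (.rp 41 (.thr 52 7 (.thr 0 40 (.thr 42 63 (.thr 32 47 (.dbl 48 16 56))))) (.rp 40 (.thr 41 3 (.thr 61 1 (.thr 63 62 (.thr 45 33 (.thr 15 30 (.thr 47 31 (.dbl 42 0 32))))))) (.rp 27 (.str 24 (.nv (.thr 52 7 (.thr 48 56 (.dbl 36 4 12))) (.nv (.thr 0 40 (.thr 16 28 (.thr 32 48 (.dbl 42 47 63)))) (.rp 48 (.thr 0 40 (.thr 63 42 (.thr 61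 62 (.dbl 41 1 3)))) (.rp 31 (.str 19 (.nv (.thr 52 7 (.thr 48 56 (.dbl 36 4 12))) (.nv (.thr 0 40 (.thr 41 3 (.thr 61 1 (.dbl 63 42 62)))) (.nv (.thr 52 7 (.thr 56 48 (.dbl 40 0 8))) .nd)))) (.rp 19 (.str 31 (.nv (.thr 52 7 (.thr 48 56 (.dbl 36 4 12))) (.nv (.thr 0 40 (.thr 16 28 (.thr 32 48 (.dbl 42 47 63)))) (.rp 48 (.thr 28 16 (.thr 30 29 (.thr 45 15 (.dbl 41 3 33)))) .nd)))) .nd)))))) (.rp 24 (.str 27 (.nv (.thr 41 3 (.thr 61 1 (.thr 63 62 (.dbl 0 40 42)))) (.nv (.thr 0 40 (.thr 42 63 (.thr 32 47 (.thr 48 16 (.dbl 52 7 56))))) (.nv (.thr 0 40 (.thr 42 63 (.thr 2 62 (.dbl 3 1 41)))) (.rp 63 (.thr 52 7 (.thr 3 41 (.thr 0 40 (.thr 2 1 (.thr 42 62 (.thr 32 47 (.dbl 48 16 56))))))) (.rp 43 (.thr 3 41 (.thr 0 40 (.thr 42 63 (.dbl 2 1 62)))) (.rp 42 (.thr 52 7 (.thr 41 3 (.thr 45 33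 (.thr 15 30 (.thr 39 51 (.dbl 36 4 38)))))) (.rp 40 (.thr 52 7 (.thr 41 3 (.thr 45 33 (.thr 15 30 (.thr 39 51 (.dbl 36 4 38)))))) (.rp 3 (.thr 52 7 (.thr 4 36 (.thr 55 38 (.thr 53 54 (.thr 48 56 (.thr 63 58 (.dbl 0 40 42))))))) (.rp 0 (.thr 52 7 (.thr 41 3 (.thr 45 33 (.thr 15 30 (.thr 39 51 (.dbl 36 4 38)))))) .nd)))))))))) (.rp 0 (.thr 52 7 (.thr 4 36 (.thr 55 38 (.thr 54 53 (.thr 51 57 (.thr 63 59 (.thr 61 62 (.dbl 41 1 3)))))))) .nd))))))))))) (.rp 24 (.thr 22 23 (.str 0 (.nv (.thr 42 63 (.thr 32 47 (.thr 48 16 (.thr 52 7 (.dbl 60 40 56))))) (.nv (.thr 42 63 (.thr 2 62 (.thr 60 40 (.dbl 3 1 41)))) (.rp 63 (.thr 52 7 (.thr 60 40 (.thr 3 41 (.thr 2 1 (.thr 42 62 (.thr 32 47 (.dbl 48 16 56))))))) (.rp 60 (.thr 52 7 (.thr 4 36 (.thr 12 8 (.thr 63 42 (.thr 29 46 (.thr 25 17 (.dbl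 38 51 55))))))) (.rp 56 (.thr 42 63 (.thr 2 62 (.thr 3 1 (.dbl 60 40 41)))) (.rp 43 (.thr 60 40 (.thr 3 41 (.thr 42 63 (.dbl 2 1 62)))) (.rp 42 (.thr 52 7 (.thr 4 36 (.thr 12 8 (.thr 60 40 (.thr 56 48 (.thr 44 28 (.thr 41 3 (.dbl 38 35 55)))))))) (.rp 40 (.thr 52 7 (.thr 42 63 (.thr 2 62 (.thr 3 1 (.thr 60 41 (.thr 32 47 (.dbl 48 16 56))))))) (.rp 27 (.str 25 (.nv (.thr 19 28 (.thr 42 63 (.thr 2 62 (.thr 3 1 (.dbl 60 40 41))))) (.nv (.thr 52 7 (.thr 4 36 (.thr 12 8 (.dbl 38 51 55)))) (.rp 40 (.thr 52 7 (.thr 4 36 (.thr 42 63 (.dbl 8 12 59)))) (.rp 19 (.str 31 (.nv (.thr 17 29 (.thr 49 13 (.thr 1 33 (.thr 3 2 (.dbl 41 60 61))))) (.nv (.thr 52 7 (.thr 4 36 (.thr 12 8 (.dbl 38 51 55)))) .nd))) .nd))))) (.rp 25 (.str 27 (.nv (.thr 42 63 (.thr 32 47 (.thr 48 16 (.thr 52 7 (.dbl 60 40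 56))))) (.nv (.thr 42 63 (.thr 2 62 (.thr 60 40 (.dbl 3 1 41)))) (.rp 63 (.thr 52 7 (.thr 60 40 (.thr 3 41 (.thr 2 1 (.thr 42 62 (.thr 32 47 (.dbl 48 16 56))))))) (.rp 60 (.str 3 (.nv (.thr 42 63 (.dbl 2 1 62)) (.rp 63 (.thr 52 7 (.thr 4 36 (.thr 12 8 (.thr 6 9 (.dbl 38 54 55))))) (.rp 62 (.thr 52 7 (.thr 4 36 (.thr 12 8 (.thr 6 9 (.dbl 38 54 55))))) (.rp 61 (.thr 2 1 (.dbl 42 62 63)) (.rp 42 (.thr 1 2 (.thr 7 52 (.thr 15 11 (.thr 51 39 (.thr 17 34 (.thr 33 49 (.dbl 41 45 61))))))) (.rp 2 (.thr 52 7 (.thr 4 36 (.thr 12 8 (.thr 6 9 (.dbl 38 54 55))))) (.rp 1 (.thr 7 52 (.thr 15 11 (.thr 51 39 (.thr 35 19 (.thr 34 17 (.thr 42 63 (.dbl 32 33 47))))))) .nd)))))))) (.rp 56 (.thr 42 63 (.thr 2 62 (.thr 3 1 (.dbl 60 40 41)))) (.rp 43 (.thr 63 42 (.thr 60 40 (.thr 41 3 (.dbl 61 1 62))))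 (.rp 42 (.thr 52 7 (.thr 60 40 (.thr 41 3 (.thr 45 33 (.thr 15 30 (.thr 39 51 (.dbl 36 4 38))))))) (.rp 40 (.thr 52 7 (.thr 42 63 (.thr 32 47 (.thr 48 16 (.thr 2 62 (.thr 3 1 (.dbl 60 41 56))))))) (.rp 3 (.thr 52 7 (.thr 40 60 (.thr 42 63 (.thr 43 41 (.thr 32 47 (.dbl 36 4 44)))))) .nd)))))))))) (.rp 3 (.thr 52 7 (.thr 40 60 (.thr 42 63 (.thr 43 41 (.thr 32 47 (.dbl 36 4 44)))))) .nd))))))))))))) (.rp 23 (.str 4 (.nv (.thr 36 52 (.dbl 38 39 55)) (.rp 55 (.str 0 (.nv (.thr 8 12 (.thr 42 63 (.thr 32 47 (.thr 16 48 (.thr 24 28 (.dbl 40 56 60)))))) (.nv (.thr 12 8 (.thr 36 52 (.thr 42 63 (.thr 32 47 (.dbl 48 16 24))))) (.nv (.thr 40 60 (.thr 42 63 (.thr 32 47 (.dbl 36 44 52)))) (.nv (.thr 36 52 (.thr 12 8 (.thr 60 40 (.thr 24 48 (.dbl 28 16 44))))) (.rp 39 (.str 7 (.nv (.dbl 52 22 36)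 (.rp 52 (.thr 12 8 (.thr 60 40 (.thr 28 44 (.thr 42 63 (.thr 32 47 (.dbl 16 24 48)))))) (.rp 36 (.thr 52 22 (.thr 60 40 (.thr 48 56 (.thr 32 16 (.dbl 42 47 63))))) (.rp 22 (.thr 36 52 (.thr 40 60 (.thr 32 44 (.dbl 42 47 63)))) .nd))))) (.rp 7 (.str 39 (.nv (.dbl 36 38 52) (.rp 52 (.thr 36 38 (.thr 40 60 (.thr 32 44 (.dbl 42 47 63)))) (.rp 38 (.thr 36 52 (.thr 40 60 (.thr 32 44 (.dbl 42 47 63)))) (.rp 36 (.thr 40 60 (.thr 42 63 (.thr 47 32 (.dbl 43 35 41)))) .nd))))) .nd))))))) (.rp 52 (.str 0 (.nv (.thr 38 55 (.thr 40 60 (.thr 42 63 (.thr 32 47 (.dbl 36 39 44))))) (.nv (.thr 8 12 (.thr 42 63 (.thr 32 47 (.thr 16 48 (.thr 24 28 (.dbl 40 56 60)))))) (.nv (.thr 12 8 (.thr 38 55 (.thr 60 40 (.thr 28 44 (.thr 24 16 (.dbl 36 39 48)))))) (.nv (.thr 12 8 (.thr 63 42 (.thr 29 46 (.thr 25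 17 (.dbl 38 51 55))))) .nd))))) (.rp 39 (.thr 52 36 (.str 0 (.nv (.thr 7 22 (.thr 42 63 (.thr 32 47 (.thr 48 16 (.dbl 60 40 56))))) (.nv (.thr 12 8 (.thr 63 42 (.thr 29 46 (.thr 25 17 (.dbl 38 51 55))))) (.nv (.thr 60 40 (.thr 48 56 (.thr 32 16 (.dbl 42 47 63)))) (.rp 63 (.thr 22 7 (.thr 55 38 (.thr 60 40 (.thr 3 41 (.thr 2 1 (.thr 42 62 (.thr 32 47 (.dbl 48 16 56)))))))) (.rp 42 (.thr 22 7 (.thr 55 38 (.thr 53 54 (.thr 60 40 (.thr 41 3 (.thr 61 1 (.thr 63 62 (.dbl 48 56 58)))))))) (.rp 7 (.thr 55 38 (.thr 53 54 (.thr 60 40 (.thr 48 56 (.dbl 63 42 58))))) .nd)))))))) (.rp 38 (.thr 52 36 (.str 0 (.nv (.thr 60 40 (.thr 48 56 (.thr 32 16 (.dbl 42 47 63)))) (.nv (.thr 22 7 (.thr 42 63 (.thr 2 62 (.thr 3 1 (.dbl 60 40 41))))) (.nv (.thr 42 63 (.thr 32 47 (.thr 48 16 (.dbl 60 40 56))))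 (.rp 63 (.thr 22 7 (.thr 60 40 (.thr 3 41 (.thr 2 1 (.thr 42 62 (.thr 32 47 (.dbl 48 16 56))))))) (.rp 60 (.thr 22 7 (.thr 8 12 (.thr 42 63 (.thr 32 47 (.thr 25 59 (.thr 28 19 (.dbl 16 24 48))))))) (.rp 50 (.str 14 (.nv (.thr 12 8 (.thr 15 13 (.thr 22 7 (.thr 60 40 (.thr 45 30 (.dbl 41 3 33)))))) (.nv (.thr 12 8 (.thr 13 15 (.thr 25 49 (.thr 29 17 (.dbl 63 42 46))))) (.nv (.thr 42 63 (.thr 32 47 (.thr 48 16 (.dbl 60 40 56)))) (.rp 15 (.thr 60 40 (.thr 48 56 (.thr 32 16 (.dbl 42 47 63)))) .nd))))) (.rp 42 (.thr 22 7 (.thr 12 8 (.thr 60 40 (.thr 41 3 (.thr 61 1 (.thr 63 62 (.thr 45 33 (.dbl 29 13 46)))))))) (.rp 40 (.thr 22 7 (.thr 8 12 (.thr 42 63 (.thr 32 47 (.thr 25 59 (.thr 28 19 (.dbl 16 24 48))))))) (.rp 14 (.str 50 (.nv (.thr 60 40 (.thr 48 56 (.thr 32 16 (.dbl 42 47 63))))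 (.nv (.thr 8 12 (.thr 42 63 (.thr 25 59 (.thr 32 47 (.thr 48 16 (.dbl 49 13 51)))))) (.nv (.thr 22 7 (.thr 42 63 (.thr 2 62 (.thr 3 1 (.dbl 60 40 41))))) (.nv (.thr 42 63 (.thr 32 47 (.thr 48 16 (.dbl 60 40 56)))) (.rp 63 (.thr 22 7 (.thr 60 40 (.thr 3 41 (.thr 2 1 (.thr 18 34 (.dbl 48 33 56)))))) (.rp 42 (.thr 60 40 (.thr 48 56 (.thr 51 49 (.thr 54 57 (.thr 53 55 (.dbl 58 62 63)))))) .nd))))))) .nd))))))))))) (.rp 36 (.str 0 (.nv (.thr 12 8 (.thr 42 63 (.thr 32 47 (.thr 16 48 (.thr 60 40 (.dbl 28 24 44)))))) (.nv (.thr 38 55 (.thr 12 8 (.thr 25 51 (.thr 29 17 (.dbl 63 42 46))))) (.rp 63 (.thr 38 55 (.thr 12 8 (.thr 60 40 (.thr 44 28 (.thr 41 35 (.thr 1 61 (.dbl 3 2 22))))))) (.rp 42 (.thr 38 55 (.thr 12 8 (.thr 60 40 (.thr 44 28 (.thr 41 35 (.thr 1 61 (.dbl 3 2 22))))))) (.rp 12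 (.thr 38 55 (.thr 40 60 (.thr 42 63 (.thr 47 32 (.thr 46 34 (.thr 44 45 (.dbl 41 35 43))))))) (.rp 8 (.thr 38 55 (.thr 40 60 (.thr 42 63 (.thr 32 47 (.thr 34 46 (.thr 33 35 (.dbl 41 43 45))))))) .nd))))))) .nd))))))) (.rp 22 (.str 38 (.nv (.thr 36 39 (.dbl 4 52 55)) (.rp 55 (.thr 39 36 (.str 42 (.nv (.thr 46 34 (.thr 47 32 (.thr 63 0 (.thr 12 29 (.thr 15 31 (.dbl 51 25 27)))))) (.nv (.thr 0 63 (.thr 40 60 (.thr 47 32 (.dbl 43 35 41)))) (.nv (.thr 46 34 (.thr 47 32 (.thr 44 45 (.dbl 35 41 43)))) (.rp 47 (.thr 0 63 (.thr 40 60 (.thr 41 43 (.thr 34 46 (.thr 45 33 (.thr 35 44 (.thr 51 17 (.thr 3 19 (.dbl 1 2 61))))))))) (.rp 35 (.thr 0 63 (.thr 32 47 (.thr 34 46 (.thr 48 16 (.thr 51 17 (.thr 49 50 (.dbl 25 12 13))))))) (.rp 32 (.thr 0 63 (.thr 40 60 (.thr 41 43 (.thr 34 46 (.thr 35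 44 (.thr 51 17 (.thr 3 19 (.dbl 1 2 61)))))))) (.rp 30 (.str 18 (.nv (.thr 0 63 (.thr 40 60 (.thr 47 32 (.dbl 43 35 41)))) (.nv (.thr 0 63 (.thr 34 46 (.thr 50 2 (.thr 51 17 (.thr 49 48 (.dbl 25 12 13)))))) (.nv (.thr 46 34 (.thr 47 32 (.thr 35 43 (.dbl 44 41 45)))) .nd)))) (.rp 18 (.str 30 (.nv (.thr 0 63 (.thr 40 60 (.thr 47 32 (.dbl 43 35 41)))) (.nv (.thr 0 63 (.thr 34 46 (.thr 51 17 (.thr 15 27 (.dbl 60 40 45))))) (.nv (.thr 46 34 (.thr 47 32 (.thr 44 45 (.dbl 35 41 43)))) .nd)))) .nd)))))))))) (.rp 52 (.thr 36 39 (.str 32 (.nv (.thr 4 55 (.thr 42 47 (.thr 0 63 (.thr 12 8 (.dbl 48 16 24))))) (.nv (.thr 4 55 (.thr 40 44 (.thr 0 60 (.thr 12 8 (.dbl 48 16 24))))) (.nv (.thr 44 40 (.thr 41 35 (.thr 45 33 (.dbl 47 42 46)))) (.rp 30 (.str 18 (.nv (.thr 4 55 (.thr 42 47 (.thr 0 63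 (.thr 12 8 (.dbl 48 16 24))))) (.nv (.thr 4 55 (.thr 40 44 (.thr 0 60 (.thr 12 8 (.dbl 48 16 24))))) (.nv (.thr 44 40 (.thr 41 35 (.thr 45 33 (.dbl 47 42 46)))) .nd)))) (.rp 18 (.str 30 (.nv (.thr 4 55 (.thr 42 47 (.thr 0 63 (.thr 12 8 (.dbl 48 16 24))))) (.nv (.thr 4 55 (.thr 40 44 (.thr 0 60 (.thr 12 8 (.dbl 48 16 24))))) (.nv (.thr 44 40 (.thr 42 47 (.thr 34 46 (.dbl 35 33 41)))) .nd)))) .nd))))))) (.rp 39 (.str 32 (.nv (.thr 4 55 (.thr 36 52 (.thr 40 44 (.thr 0 60 (.thr 12 8 (.dbl 48 16 24)))))) (.nv (.thr 42 47 (.thr 46 34 (.thr 55 4 (.thr 63 0 (.thr 12 29 (.dbl 51 25 59)))))) (.nv (.thr 42 47 (.thr 0 63 (.thr 40 60 (.thr 44 36 (.dbl 41 35 43))))) (.rp 30 (.str 18 (.nv (.thr 4 55 (.thr 36 52 (.thr 44 40 (.thr 41 35 (.thr 45 33 (.dbl 47 42 46)))))) (.nv (.thr 4 55 (.thr 36 52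 (.thr 40 44 (.thr 0 60 (.thr 12 8 (.dbl 48 16 24)))))) (.nv (.thr 42 47 (.thr 0 63 (.thr 16 48 (.thr 17 19 (.dbl 34 46 51))))) (.nv (.thr 42 47 (.thr 0 63 (.thr 40 60 (.thr 44 36 (.dbl 41 35 43))))) .nd))))) (.rp 18 (.str 30 (.nv (.thr 4 55 (.thr 36 52 (.thr 40 44 (.thr 0 60 (.thr 12 8 (.dbl 48 16 24)))))) (.nv (.thr 42 47 (.thr 46 34 (.thr 55 4 (.thr 63 0 (.thr 12 29 (.dbl 51 25 59)))))) (.nv (.thr 42 47 (.thr 0 63 (.thr 40 60 (.thr 44 36 (.dbl 41 35 43))))) (.rp 0 (.thr 4 55 (.thr 36 52 (.thr 47 42 (.thr 44 40 (.thr 45 46 (.dbl 41 33 35)))))) .nd))))) (.rp 0 (.thr 4 55 (.thr 36 52 (.thr 44 40 (.thr 35 41 (.thr 34 33 (.dbl 42 46 47)))))) .nd))))))) (.rp 36 (.thr 4 55 (.str 0 (.nv (.thr 12 8 (.thr 60 40 (.thr 44 28 (.thr 41 35 (.thr 61 1 (.dbl 63 42 62)))))) (.nv (.thr 12 8 (.thr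 25 51 (.thr 29 17 (.dbl 63 42 46)))) (.rp 63 (.thr 12 8 (.thr 51 25 (.thr 34 17 (.thr 60 40 (.thr 42 46 (.thr 32 47 (.thr 16 48 (.dbl 28 24 44)))))))) (.rp 42 (.thr 12 8 (.thr 25 51 (.thr 29 17 (.thr 63 46 (.thr 13 49 (.thr 61 45 (.dbl 60 40 62))))))) (.rp 30 (.str 18 (.nv (.thr 12 8 (.thr 60 40 (.thr 44 28 (.thr 41 35 (.thr 61 1 (.dbl 63 42 62)))))) (.nv (.thr 42 63 (.thr 32 47 (.thr 48 16 (.thr 33 3 (.dbl 34 35 46))))) (.nv (.thr 12 8 (.thr 25 51 (.thr 29 17 (.dbl 63 42 46)))) (.rp 63 (.thr 12 8 (.thr 51 25 (.thr 17 34 (.thr 60 40 (.thr 16 19 (.dbl 28 24 44)))))) (.rp 42 (.thr 12 8 (.thr 25 51 (.thr 17 29 (.thr 16 19 (.thr 28 24 (.dbl 60 40 44)))))) .nd)))))) (.rp 25 (.thr 12 8 (.thr 60 40 (.thr 42 63 (.thr 28 44 (.thr 32 47 (.dbl 16 24 48)))))) (.rp 18 (.str 30 (.nv (.thr 42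 63 (.thr 46 34 (.thr 60 40 (.thr 45 15 (.dbl 47 32 44))))) (.nv (.thr 12 8 (.thr 60 40 (.thr 45 15 (.thr 41 33 (.dbl 44 28 35))))) (.nv (.thr 12 8 (.thr 42 63 (.thr 34 46 (.dbl 51 17 25)))) .nd)))) (.rp 12 (.thr 40 60 (.thr 42 63 (.thr 32 47 (.thr 41 43 (.thr 33 45 (.dbl 35 34 44)))))) (.rp 8 (.thr 40 60 (.thr 42 63 (.thr 32 47 (.thr 34 46 (.thr 33 35 (.dbl 41 43 45)))))) .nd))))))))))) (.rp 30 (.str 18 (.nv (.thr 4 55 (.dbl 36 39 52)) (.rp 55 (.str 0 (.nv (.thr 42 63 (.thr 32 47 (.thr 16 48 (.thr 17 19 (.dbl 34 46 51))))) (.nv (.thr 36 39 (.thr 4 52 (.thr 12 8 (.thr 24 48 (.thr 28 16 (.dbl 60 40 44)))))) (.nv (.thr 39 36 (.thr 42 63 (.thr 47 32 (.thr 43 35 (.dbl 40 41 60))))) .nd)))) (.rp 52 (.str 3 (.nv (.thr 4 55 (.thr 36 39 (.thr 48 33 (.thr 12 24 (.thr 0 8 (.thr 40 60 (.dbl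 32 16 44))))))) (.nv (.thr 4 55 (.thr 36 39 (.thr 48 33 (.thr 12 24 (.thr 0 8 (.thr 32 16 (.dbl 42 47 63))))))) (.nv (.thr 33 48 (.thr 41 45 (.thr 1 61 (.thr 0 2 (.thr 42 63 (.dbl 40 43 60)))))) (.nv (.thr 39 36 (.thr 33 48 (.thr 41 45 (.thr 35 44 (.thr 32 34 (.dbl 47 42 43)))))) (.rp 48 (.thr 55 4 (.thr 39 36 (.thr 7 23 (.thr 15 11 (.thr 51 27 (.thr 19 35 (.thr 17 16 (.dbl 25 12 29)))))))) (.rp 33 (.thr 55 4 (.thr 39 36 (.thr 7 23 (.thr 15 11 (.thr 51 27 (.thr 19 35 (.thr 17 16 (.dbl 25 12 29)))))))) .nd))))))) (.rp 39 (.str 0 (.nv (.thr 4 55 (.thr 36 52 (.thr 12 8 (.thr 60 40 (.thr 24 48 (.dbl 28 16 44)))))) (.nv (.thr 40 60 (.thr 42 63 (.thr 32 47 (.thr 44 36 (.dbl 41 35 43))))) (.nv (.thr 4 55 (.thr 12 8 (.thr 25 51 (.thr 29 17 (.dbl 63 42 46))))) .nd)))) (.rp 36 (.str 0 (.nv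 (.thr 40 60 (.thr 42 63 (.thr 32 47 (.thr 41 43 (.thr 48 16 (.dbl 33 3 45)))))) (.nv (.thr 4 55 (.thr 12 8 (.thr 25 51 (.thr 29 17 (.dbl 63 42 46))))) (.rp 63 (.thr 4 55 (.thr 12 8 (.thr 51 25 (.thr 17 34 (.thr 60 40 (.thr 16 19 (.dbl 28 24 44))))))) (.rp 42 (.thr 4 55 (.thr 12 8 (.thr 25 51 (.thr 17 29 (.thr 16 19 (.thr 28 24 (.dbl 60 40 44))))))) .nd))))) (.rp 4 (.str 42 (.nv (.thr 0 63 (.thr 34 46 (.thr 2 50 (.thr 1 3 (.thr 40 60 (.dbl 41 43 61)))))) (.nv (.thr 0 63 (.thr 32 47 (.thr 16 48 (.thr 17 19 (.thr 51 34 (.dbl 25 12 29)))))) (.nv (.thr 39 36 (.thr 46 34 (.thr 47 32 (.thr 35 43 (.dbl 44 41 45))))) (.rp 34 (.thr 36 39 (.thr 0 63 (.thr 40 60 (.dbl 32 44 47)))) (.rp 7 (.str 6 (.nv (.thr 0 63 (.thr 34 46 (.thr 2 50 (.thr 1 3 (.thr 40 60 (.dbl 41 43 61)))))) (.nv (.thr 0 63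 (.thr 32 47 (.thr 16 48 (.thr 17 19 (.thr 51 34 (.dbl 25 12 29)))))) (.nv (.thr 39 36 (.thr 46 34 (.thr 47 32 (.thr 35 43 (.dbl 44 41 45))))) (.rp 34 (.thr 36 39 (.thr 0 63 (.thr 40 60 (.dbl 32 44 47)))) .nd))))) (.rp 6 (.str 7 (.nv (.thr 0 63 (.thr 34 46 (.thr 2 50 (.thr 1 3 (.thr 40 60 (.dbl 41 43 61)))))) (.nv (.thr 0 63 (.thr 32 47 (.thr 16 48 (.thr 17 19 (.thr 51 34 (.dbl 25 12 29)))))) (.nv (.thr 39 36 (.thr 46 34 (.thr 47 32 (.thr 35 43 (.dbl 44 41 45))))) (.rp 34 (.thr 36 39 (.thr 0 63 (.thr 40 60 (.dbl 32 44 47)))) .nd))))) .nd))))))) .nd))))))) (.rp 18 (.str 30 (.nv (.thr 4 55 (.dbl 36 39 52)) (.rp 55 (.str 60 (.nv (.thr 0 40 (.thr 45 15 (.thr 41 33 (.thr 61 1 (.dbl 63 42 62))))) (.nv (.thr 36 39 (.thr 52 4 (.thr 48 56 (.thr 0 40 (.thr 24 12 (.dbl 16 28 32)))))) (.nv (.thr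 0 40 (.thr 42 63 (.thr 45 15 (.thr 47 32 (.dbl 46 34 44))))) (.rp 40 (.thr 45 15 (.thr 41 33 (.thr 61 1 (.thr 62 63 (.thr 46 14 (.dbl 44 35 47)))))) (.rp 0 (.thr 36 39 (.thr 52 4 (.thr 15 45 (.thr 48 56 (.thr 12 24 (.thr 13 14 (.dbl 25 49 51))))))) .nd)))))) (.rp 52 (.str 60 (.nv (.thr 0 40 (.thr 4 55 (.thr 12 8 (.thr 15 45 (.thr 13 14 (.dbl 25 49 51)))))) (.nv (.thr 0 40 (.thr 4 55 (.thr 12 8 (.thr 25 51 (.thr 29 17 (.dbl 28 31 44)))))) (.nv (.thr 0 40 (.thr 42 63 (.thr 45 15 (.thr 47 32 (.dbl 46 34 44))))) (.rp 40 (.thr 45 15 (.thr 41 33 (.thr 61 1 (.thr 62 63 (.thr 46 14 (.dbl 44 35 47)))))) (.rp 0 (.thr 55 4 (.thr 39 36 (.thr 15 45 (.thr 51 27 (.thr 63 59 (.thr 62 61 (.thr 14 46 (.dbl 12 13 25)))))))) .nd)))))) (.rp 39 (.str 63 (.nv (.thr 42 0 (.thr 47 32 (.thr 15 31 (.thr 45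 60 (.thr 44 46 (.dbl 41 33 35)))))) (.nv (.thr 55 4 (.thr 51 59 (.thr 25 12 (.thr 17 29 (.dbl 0 34 42))))) (.rp 42 (.thr 55 4 (.thr 51 59 (.thr 25 12 (.thr 29 17 (.thr 31 28 (.thr 15 47 (.thr 13 49 (.dbl 45 60 61)))))))) (.rp 0 (.thr 55 4 (.thr 51 59 (.thr 12 25 (.thr 29 46 (.thr 28 31 (.thr 60 44 (.thr 61 62 (.dbl 45 13 15)))))))) .nd))))) (.rp 36 (.str 63 (.nv (.thr 55 4 (.thr 51 59 (.thr 25 12 (.thr 17 29 (.dbl 0 34 42))))) (.nv (.thr 42 0 (.thr 47 32 (.thr 15 31 (.thr 45 60 (.dbl 46 34 44))))) (.nv (.thr 4 55 (.thr 0 42 (.thr 12 8 (.thr 25 51 (.dbl 29 17 46))))) (.rp 42 (.thr 55 4 (.thr 51 59 (.thr 25 12 (.thr 29 17 (.thr 31 28 (.thr 15 47 (.thr 13 49 (.dbl 45 60 61)))))))) (.rp 0 (.thr 55 4 (.thr 51 59 (.thr 12 25 (.thr 29 46 (.thr 28 31 (.thr 60 44 (.thr 61 62 (.dbl 45 13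 15)))))))) .nd)))))) (.rp 4 (.str 42 (.nv (.thr 0 63 (.thr 34 46 (.thr 39 36 (.thr 51 17 (.thr 15 27 (.dbl 60 40 45)))))) (.nv (.thr 0 63 (.thr 36 39 (.thr 40 60 (.thr 44 32 (.dbl 41 35 43))))) (.nv (.thr 39 36 (.thr 46 34 (.thr 47 32 (.thr 44 45 (.dbl 35 41 43))))) (.nv (.thr 0 63 (.thr 47 32 (.thr 60 40 (.thr 45 15 (.dbl 46 34 44))))) (.rp 36 (.thr 63 0 (.thr 47 32 (.thr 15 31 (.thr 45 60 (.dbl 46 34 44))))) (.rp 7 (.str 6 (.nv (.thr 0 63 (.thr 32 47 (.thr 40 60 (.thr 44 36 (.dbl 41 35 43))))) (.nv (.thr 0 63 (.thr 34 46 (.thr 39 36 (.thr 51 17 (.thr 15 27 (.dbl 60 40 45)))))) (.nv (.thr 46 34 (.thr 47 32 (.thr 44 45 (.thr 39 36 (.dbl 35 41 43))))) (.rp 36 (.thr 63 0 (.thr 47 32 (.thr 15 31 (.thr 45 60 (.dbl 46 34 44))))) .nd))))) (.rp 6 (.str 7 (.nv (.thr 0 63 (.thr 34 46 (.thr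 39 36 (.thr 51 17 (.thr 15 27 (.dbl 60 40 45)))))) (.nv (.thr 0 63 (.thr 36 39 (.thr 40 60 (.thr 44 32 (.dbl 41 35 43))))) (.nv (.thr 39 36 (.thr 46 34 (.thr 47 32 (.thr 44 45 (.dbl 35 41 43))))) (.nv (.thr 0 63 (.thr 47 32 (.thr 60 40 (.thr 45 15 (.dbl 46 34 44))))) (.rp 36 (.thr 63 0 (.thr 47 32 (.thr 15 31 (.thr 45 60 (.dbl 46 34 44))))) .nd)))))) .nd)))))))) .nd))))))) (.rp 4 (.str 42 (.nv (.thr 0 63 (.thr 32 47 (.thr 34 46 (.thr 35 33 (.thr 40 60 (.dbl 41 43 44)))))) (.nv (.thr 0 63 (.thr 32 47 (.thr 40 60 (.dbl 36 39 44)))) (.nv (.thr 46 34 (.thr 47 32 (.thr 44 45 (.thr 39 36 (.dbl 35 41 43))))) (.rp 47 (.thr 36 39 (.thr 0 63 (.thr 40 60 (.thr 44 32 (.dbl 41 35 43))))) (.rp 44 (.thr 39 36 (.thr 0 63 (.thr 40 60 (.thr 47 32 (.dbl 43 35 41))))) (.rp 41 (.thr 36 39 (.thr 0 63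 (.thr 32 47 (.dbl 40 44 60)))) (.rp 32 (.thr 0 63 (.thr 40 60 (.thr 41 43 (.thr 34 46 (.thr 33 45 (.thr 17 51 (.dbl 1 49 61))))))) (.rp 30 (.str 18 (.nv (.thr 0 63 (.thr 34 46 (.thr 2 50 (.thr 1 3 (.thr 40 60 (.dbl 41 43 61)))))) (.nv (.thr 0 63 (.thr 32 47 (.thr 16 48 (.thr 17 19 (.thr 51 34 (.dbl 25 12 29)))))) (.nv (.thr 39 36 (.thr 46 34 (.thr 47 32 (.thr 35 43 (.dbl 44 41 45))))) (.rp 34 (.thr 36 39 (.thr 0 63 (.thr 40 60 (.dbl 32 44 47)))) (.rp 7 (.str 6 (.nv (.thr 0 63 (.thr 34 46 (.thr 2 50 (.thr 1 3 (.thr 40 60 (.dbl 41 43 61)))))) (.nv (.thr 0 63 (.thr 32 47 (.thr 16 48 (.thr 17 19 (.thr 51 34 (.dbl 25 12 29)))))) (.nv (.thr 39 36 (.thr 46 34 (.thr 47 32 (.thr 35 43 (.dbl 44 41 45))))) (.rp 34 (.thr 36 39 (.thr 0 63 (.thr 40 60 (.dbl 32 44 47)))) .nd))))) (.rp 6 (.str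 7 (.nv (.thr 0 63 (.thr 34 46 (.thr 2 50 (.thr 1 3 (.thr 40 60 (.dbl 41 43 61)))))) (.nv (.thr 0 63 (.thr 32 47 (.thr 16 48 (.thr 17 19 (.thr 51 34 (.dbl 25 12 29)))))) (.nv (.thr 39 36 (.thr 46 34 (.thr 47 32 (.thr 35 43 (.dbl 44 41 45))))) (.rp 34 (.thr 36 39 (.thr 0 63 (.thr 40 60 (.dbl 32 44 47)))) .nd))))) .nd))))))) (.rp 18 (.str 30 (.nv (.thr 0 63 (.thr 34 46 (.thr 39 36 (.thr 51 17 (.thr 15 27 (.dbl 60 40 45)))))) (.nv (.thr 0 63 (.thr 36 39 (.thr 40 60 (.thr 44 32 (.dbl 41 35 43))))) (.nv (.thr 39 36 (.thr 46 34 (.thr 47 32 (.thr 44 45 (.dbl 35 41 43))))) (.nv (.thr 0 63 (.thr 47 32 (.thr 60 40 (.thr 45 15 (.dbl 46 34 44))))) (.rp 36 (.thr 63 0 (.thr 47 32 (.thr 15 31 (.thr 45 60 (.dbl 46 34 44))))) (.rp 7 (.str 6 (.nv (.thr 0 63 (.thr 32 47 (.thr 40 60 (.thr 44 36 (.dbl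 41 35 43))))) (.nv (.thr 0 63 (.thr 34 46 (.thr 39 36 (.thr 51 17 (.thr 15 27 (.dbl 60 40 45)))))) (.nv (.thr 46 34 (.thr 47 32 (.thr 44 45 (.thr 39 36 (.dbl 35 41 43))))) (.rp 36 (.thr 63 0 (.thr 47 32 (.thr 15 31 (.thr 45 60 (.dbl 46 34 44))))) .nd))))) (.rp 6 (.str 7 (.nv (.thr 0 63 (.thr 34 46 (.thr 39 36 (.thr 51 17 (.thr 15 27 (.dbl 60 40 45)))))) (.nv (.thr 0 63 (.thr 36 39 (.thr 40 60 (.thr 44 32 (.dbl 41 35 43))))) (.nv (.thr 39 36 (.thr 46 34 (.thr 47 32 (.thr 44 45 (.dbl 35 41 43))))) (.nv (.thr 0 63 (.thr 47 32 (.thr 60 40 (.thr 45 15 (.dbl 46 34 44))))) (.rp 36 (.thr 63 0 (.thr 47 32 (.thr 15 31 (.thr 45 60 (.dbl 46 34 44))))) .nd)))))) .nd)))))))) (.rp 7 (.str 6 (.nv (.thr 0 63 (.thr 32 47 (.thr 34 46 (.thr 35 33 (.thr 40 60 (.dbl 41 43 44)))))) (.nv (.thr 0 63 (.thr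 32 47 (.thr 40 60 (.dbl 36 39 44)))) (.nv (.thr 46 34 (.thr 47 32 (.thr 44 45 (.thr 39 36 (.dbl 35 41 43))))) (.rp 47 (.thr 36 39 (.thr 0 63 (.thr 40 60 (.thr 44 32 (.dbl 41 35 43))))) (.rp 44 (.thr 39 36 (.thr 0 63 (.thr 40 60 (.thr 47 32 (.dbl 43 35 41))))) (.rp 41 (.thr 36 39 (.thr 0 63 (.thr 32 47 (.dbl 40 44 60)))) (.rp 32 (.thr 0 63 (.thr 40 60 (.thr 41 43 (.thr 34 46 (.thr 33 45 (.thr 17 51 (.dbl 1 49 61))))))) (.rp 30 (.str 18 (.nv (.thr 0 63 (.thr 34 46 (.thr 2 50 (.thr 1 3 (.thr 40 60 (.dbl 41 43 61)))))) (.nv (.thr 0 63 (.thr 32 47 (.thr 16 48 (.thr 17 19 (.thr 51 34 (.dbl 25 12 29)))))) (.nv (.thr 39 36 (.thr 46 34 (.thr 47 32 (.thr 35 43 (.dbl 44 41 45))))) (.rp 34 (.thr 36 39 (.thr 0 63 (.thr 40 60 (.dbl 32 44 47)))) .nd))))) (.rp 18 (.str 30 (.nv (.thr 0 63 (.thr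 32 47 (.thr 40 60 (.thr 44 36 (.dbl 41 35 43))))) (.nv (.thr 0 63 (.thr 34 46 (.thr 39 36 (.thr 51 17 (.thr 15 27 (.dbl 60 40 45)))))) (.nv (.thr 46 34 (.thr 47 32 (.thr 44 45 (.thr 39 36 (.dbl 35 41 43))))) (.rp 36 (.thr 63 0 (.thr 47 32 (.thr 15 31 (.thr 45 60 (.dbl 46 34 44))))) .nd))))) .nd)))))))))) (.rp 6 (.str 7 (.nv (.thr 0 63 (.thr 32 47 (.thr 34 46 (.thr 35 33 (.thr 40 60 (.dbl 41 43 44)))))) (.nv (.thr 0 63 (.thr 32 47 (.thr 40 60 (.dbl 36 39 44)))) (.nv (.thr 46 34 (.thr 47 32 (.thr 44 45 (.thr 39 36 (.dbl 35 41 43))))) (.rp 47 (.thr 36 39 (.thr 0 63 (.thr 40 60 (.thr 44 32 (.dbl 41 35 43))))) (.rp 44 (.thr 39 36 (.thr 23 55 (.thr 63 0 (.thr 43 3 (.dbl 47 32 35))))) (.rp 41 (.thr 36 39 (.thr 0 63 (.thr 32 47 (.dbl 40 44 60)))) (.rp 32 (.thr 39 36 (.thr 23 55 (.thr 63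 0 (.thr 43 3 (.thr 35 47 (.dbl 41 40 44)))))) (.rp 30 (.str 18 (.nv (.thr 0 63 (.thr 34 46 (.thr 2 50 (.thr 1 3 (.thr 40 60 (.dbl 41 43 61)))))) (.nv (.thr 0 63 (.thr 32 47 (.thr 16 48 (.thr 17 19 (.thr 51 34 (.dbl 25 12 29)))))) (.nv (.thr 39 36 (.thr 46 34 (.thr 47 32 (.thr 35 43 (.dbl 44 41 45))))) (.rp 34 (.thr 36 39 (.thr 0 63 (.thr 40 60 (.dbl 32 44 47)))) .nd))))) (.rp 18 (.str 30 (.nv (.thr 0 63 (.thr 34 46 (.thr 39 36 (.thr 51 17 (.thr 15 27 (.dbl 60 40 45)))))) (.nv (.thr 0 63 (.thr 36 39 (.thr 40 60 (.thr 44 32 (.dbl 41 35 43))))) (.nv (.thr 39 36 (.thr 46 34 (.thr 47 32 (.thr 44 45 (.dbl 35 41 43))))) (.nv (.thr 0 63 (.thr 47 32 (.thr 60 40 (.thr 45 15 (.dbl 46 34 44))))) (.rp 36 (.thr 63 0 (.thr 47 32 (.thr 15 31 (.thr 45 60 (.dbl 46 34 44))))) .nd)))))) .nd))))))))))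 .nd)))))))))))) .nd))))))))) (.rp 19 (.str 0 (.nv (.thr 40 60 (.thr 42 63 (.thr 32 47 (.thr 36 44 (.thr 4 52 (.dbl 38 39 55)))))) (.nv (.thr 22 23 (.thr 42 63 (.thr 2 62 (.thr 60 40 (.dbl 3 1 41))))) (.rp 63 (.thr 22 23 (.thr 52 7 (.thr 60 40 (.thr 48 56 (.thr 16 32 (.thr 24 28 (.dbl 36 4 12))))))) (.rp 62 (.thr 22 23 (.thr 52 7 (.thr 60 40 (.thr 48 56 (.thr 32 16 (.dbl 42 47 63)))))) (.rp 60 (.thr 22 23 (.thr 52 7 (.thr 4 36 (.thr 12 8 (.thr 63 42 (.thr 29 46 (.thr 25 17 (.dbl 38 51 55)))))))) (.rp 42 (.thr 22 23 (.thr 52 7 (.thr 60 40 (.thr 48 56 (.thr 16 32 (.thr 24 28 (.dbl 36 4 12))))))) (.rp 40 (.thr 22 23 (.thr 52 7 (.thr 4 36 (.thr 12 8 (.thr 63 42 (.thr 29 46 (.thr 25 17 (.dbl 38 51 55)))))))) (.rp 31 (.thr 60 40 (.thr 63 42 (.thr 61 62 (.thr 41 1 (.dbl 22 3 23))))) .nd)))))))))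 (.rp 18 (.thr 22 23 (.str 0 (.nv (.thr 52 7 (.thr 60 40 (.thr 48 56 (.thr 32 16 (.dbl 42 47 63))))) (.nv (.thr 42 63 (.thr 2 62 (.thr 60 40 (.dbl 3 1 41)))) (.rp 63 (.thr 52 7 (.thr 60 40 (.thr 48 56 (.thr 16 32 (.thr 24 28 (.dbl 36 4 12)))))) (.rp 60 (.thr 52 7 (.thr 4 36 (.thr 12 8 (.thr 63 42 (.thr 29 46 (.thr 25 17 (.dbl 38 51 55))))))) (.rp 42 (.thr 52 7 (.thr 60 40 (.thr 48 56 (.thr 16 32 (.thr 24 28 (.dbl 36 4 12)))))) (.rp 41 (.thr 52 7 (.thr 60 40 (.thr 42 63 (.thr 32 47 (.dbl 48 16 56))))) (.rp 40 (.thr 52 7 (.thr 4 36 (.thr 12 8 (.thr 63 42 (.thr 29 46 (.thr 25 17 (.dbl 38 51 55))))))) .nd))))))))) (.rp 17 (.str 0 (.nv (.thr 40 60 (.thr 42 63 (.thr 32 47 (.thr 36 44 (.thr 4 52 (.dbl 38 39 55)))))) (.nv (.thr 22 23 (.thr 42 63 (.thr 2 62 (.thr 60 40 (.dbl 3 1 41))))) (.rp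 63 (.thr 22 23 (.thr 52 7 (.thr 60 40 (.thr 48 56 (.thr 16 32 (.thr 24 28 (.dbl 36 4 12))))))) (.rp 62 (.thr 22 23 (.thr 52 7 (.thr 60 40 (.thr 48 56 (.thr 32 16 (.dbl 42 47 63)))))) (.rp 60 (.thr 22 23 (.thr 52 7 (.thr 4 36 (.thr 8 12 (.thr 42 63 (.thr 32 47 (.thr 25 59 (.thr 28 19 (.dbl 16 24 48))))))))) (.rp 42 (.thr 22 23 (.thr 52 7 (.thr 60 40 (.thr 48 56 (.thr 16 32 (.thr 24 28 (.dbl 36 4 12))))))) (.rp 40 (.thr 22 23 (.thr 52 7 (.thr 42 63 (.thr 32 47 (.thr 48 16 (.thr 60 56 (.thr 2 62 (.dbl 3 1 41)))))))) .nd)))))))) (.rp 16 (.str 0 (.nv (.thr 40 60 (.thr 42 63 (.thr 32 47 (.thr 36 44 (.thr 4 52 (.dbl 38 39 55)))))) (.nv (.thr 22 23 (.thr 42 63 (.thr 2 62 (.thr 60 40 (.dbl 3 1 41))))) (.rp 63 (.thr 22 23 (.thr 52 7 (.thr 4 36 (.thr 12 8 (.thr 60 40 (.thr 3 41 (.thr 6 9 (.dbl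 38 54 55)))))))) (.rp 62 (.thr 22 23 (.thr 52 7 (.thr 4 36 (.thr 55 38 (.thr 53 54 (.thr 60 40 (.thr 48 56 (.dbl 63 42 58)))))))) (.rp 60 (.thr 22 23 (.thr 52 7 (.thr 4 36 (.thr 12 8 (.thr 63 42 (.thr 29 46 (.thr 25 17 (.dbl 38 51 55)))))))) (.rp 42 (.thr 22 23 (.thr 52 7 (.thr 4 36 (.thr 12 8 (.thr 60 40 (.thr 44 28 (.thr 41 3 (.dbl 38 35 55)))))))) (.rp 40 (.thr 22 23 (.thr 52 7 (.thr 4 36 (.thr 12 8 (.thr 63 42 (.thr 29 46 (.thr 25 17 (.dbl 38 51 55)))))))) .nd)))))))) (.rp 15 (.str 0 (.nv (.thr 22 23 (.thr 52 7 (.thr 60 40 (.thr 48 56 (.thr 16 32 (.thr 24 28 (.dbl 36 4 12))))))) (.nv (.thr 22 23 (.thr 60 40 (.thr 63 42 (.thr 61 62 (.dbl 41 1 3))))) (.rp 60 (.thr 22 23 (.thr 52 7 (.thr 4 36 (.thr 12 8 (.thr 63 42 (.thr 29 46 (.thr 25 17 (.dbl 38 51 55)))))))) (.rp 41 (.thr 22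 23 (.thr 52 7 (.thr 4 36 (.thr 55 38 (.thr 54 53 (.thr 60 40 (.thr 51 57 (.dbl 63 42 59)))))))) (.rp 40 (.thr 22 23 (.thr 52 7 (.thr 4 36 (.thr 12 8 (.thr 63 42 (.thr 29 46 (.thr 25 17 (.dbl 38 51 55)))))))) (.rp 23 (.thr 40 60 (.thr 42 63 (.thr 47 32 (.thr 43 41 (.thr 39 35 (.thr 38 36 (.thr 4 55 (.thr 12 8 (.thr 51 25 (.dbl 34 17 46)))))))))) (.rp 22 (.thr 40 60 (.thr 42 63 (.thr 47 32 (.thr 41 43 (.thr 61 1 (.thr 45 33 (.thr 46 44 (.thr 34 38 (.thr 17 51 (.dbl 29 13 25)))))))))) (.rp 3 (.thr 23 22 (.thr 42 63 (.thr 40 60 (.thr 41 43 (.thr 61 1 (.thr 45 33 (.thr 47 32 (.thr 46 44 (.thr 34 38 (.thr 17 51 (.dbl 29 13 25))))))))))) .nd))))))))) (.rp 14 (.thr 22 23 (.str 0 (.nv (.thr 42 63 (.thr 32 47 (.thr 48 16 (.thr 52 7 (.dbl 60 40 56))))) (.nv (.thr 60 40 (.thr 3 41 (.thr 42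 63 (.dbl 2 1 62)))) (.rp 63 (.thr 52 7 (.thr 60 40 (.thr 48 56 (.thr 16 32 (.thr 24 28 (.dbl 36 4 12)))))) (.rp 60 (.thr 52 7 (.thr 4 36 (.thr 12 8 (.thr 63 42 (.thr 29 46 (.thr 25 17 (.dbl 38 51 55))))))) (.rp 56 (.thr 60 40 (.thr 41 3 (.thr 61 1 (.dbl 63 42 62)))) (.rp 50 (.str 38 (.nv (.thr 42 63 (.thr 2 62 (.thr 3 1 (.dbl 60 40 41)))) (.nv (.thr 52 7 (.dbl 4 36 55)) .nd))) (.rp 42 (.thr 52 7 (.thr 60 40 (.thr 48 56 (.thr 16 32 (.thr 24 28 (.dbl 36 4 12)))))) (.rp 40 (.thr 52 7 (.thr 4 36 (.thr 12 8 (.thr 63 42 (.thr 29 46 (.thr 25 17 (.dbl 38 51 55))))))) (.rp 38 (.str 50 (.nv (.thr 42 63 (.thr 2 62 (.thr 3 1 (.thr 18 34 (.thr 32 47 (.dbl 48 16 33)))))) (.nv (.thr 52 7 (.thr 60 40 (.thr 48 56 (.thr 32 16 (.dbl 42 47 63))))) (.nv (.thr 42 63 (.thr 2 62 (.thr 60 40 (.dbl 3 1 41))))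 (.rp 63 (.thr 52 7 (.thr 60 40 (.thr 48 56 (.thr 16 32 (.thr 24 28 (.dbl 36 4 12)))))) (.rp 60 (.thr 42 63 (.thr 32 47 (.thr 48 16 (.thr 51 49 (.thr 34 17 (.dbl 2 18 62)))))) (.rp 42 (.thr 52 7 (.thr 60 40 (.thr 48 56 (.thr 16 32 (.thr 24 28 (.dbl 36 4 12)))))) .nd))))))) (.rp 3 (.thr 52 7 (.thr 60 40 (.thr 48 56 (.thr 32 16 (.dbl 42 47 63))))) .nd)))))))))))) (.rp 13 (.thr 22 23 (.str 0 (.nv (.thr 52 7 (.thr 60 40 (.thr 48 56 (.thr 32 16 (.dbl 42 47 63))))) (.nv (.thr 42 63 (.thr 2 62 (.thr 60 40 (.dbl 3 1 41)))) (.rp 63 (.thr 52 7 (.thr 60 40 (.thr 48 56 (.thr 16 32 (.thr 24 28 (.dbl 36 4 12)))))) (.rp 60 (.thr 52 7 (.thr 4 36 (.thr 12 8 (.thr 63 42 (.thr 29 46 (.thr 25 17 (.dbl 38 51 55))))))) (.rp 42 (.thr 52 7 (.thr 60 40 (.thr 48 56 (.thr 16 32 (.thr 24 28 (.dbl 36 4 12))))))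 (.rp 41 (.thr 52 7 (.thr 60 40 (.thr 42 63 (.thr 32 47 (.dbl 48 16 56))))) (.rp 40 (.thr 52 7 (.thr 4 36 (.thr 12 8 (.thr 63 42 (.thr 29 46 (.thr 25 17 (.dbl 38 51 55))))))) (.rp 9 (.str 1 (.nv (.thr 40 60 (.thr 41 61 (.dbl 42 43 63))) (.nv (.thr 2 3 (.dbl 42 62 63)) (.nv (.thr 3 2 (.dbl 41 60 61)) .nd)))) (.rp 1 (.str 9 (.nv (.thr 40 60 (.thr 42 63 (.thr 43 41 (.thr 32 47 (.thr 36 44 (.thr 4 52 (.dbl 38 39 55))))))) (.nv (.thr 52 7 (.thr 4 36 (.thr 12 8 (.thr 6 3 (.dbl 38 54 55))))) (.nv (.thr 42 63 (.thr 32 47 (.thr 48 16 (.thr 60 40 (.dbl 52 7 56))))) (.nv (.thr 52 7 (.thr 4 36 (.thr 12 8 (.thr 3 6 (.dbl 60 40 41))))) (.rp 52 (.thr 60 40 (.thr 3 41 (.thr 12 6 (.thr 4 8 (.thr 38 55 (.thr 25 51 (.dbl 28 19 44))))))) .nd)))))) .nd))))))))))) (.rp 12 (.str 60 (.nv (.thr 0 40 (.thr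 22 23 (.thr 52 7 (.thr 48 56 (.thr 32 16 (.dbl 42 47 63)))))) (.nv (.thr 22 23 (.thr 0 40 (.thr 63 42 (.thr 61 62 (.dbl 41 1 3))))) (.rp 63 (.thr 22 23 (.thr 52 7 (.thr 48 56 (.thr 0 40 (.thr 32 16 (.thr 42 47 (.thr 2 62 (.dbl 3 1 41)))))))) (.rp 42 (.thr 22 23 (.thr 52 7 (.thr 4 36 (.thr 55 38 (.thr 54 53 (.thr 51 57 (.thr 63 59 (.thr 61 62 (.dbl 41 1 3))))))))) (.rp 41 (.thr 22 23 (.thr 52 7 (.thr 0 40 (.thr 42 63 (.thr 32 47 (.dbl 48 16 56)))))) (.rp 40 (.thr 22 23 (.thr 41 3 (.thr 61 1 (.thr 63 62 (.thr 45 33 (.thr 15 30 (.thr 47 31 (.dbl 42 0 32)))))))) (.rp 23 (.thr 0 40 (.thr 42 63 (.thr 32 47 (.thr 48 16 (.thr 52 56 (.thr 22 7 (.thr 2 62 (.dbl 3 1 41)))))))) (.rp 22 (.thr 0 40 (.thr 42 63 (.thr 32 47 (.thr 48 16 (.thr 52 56 (.thr 4 36 (.thr 55 38 (.thr 54 53 (.thr 51 57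 (.thr 34 17 (.thr 33 35 (.thr 18 3 (.dbl 50 2 49))))))))))))) (.rp 0 (.thr 22 23 (.thr 52 7 (.thr 4 36 (.thr 55 38 (.thr 54 53 (.thr 51 57 (.thr 63 59 (.thr 61 62 (.dbl 41 1 3))))))))) .nd)))))))))) (.rp 11 (.thr 22 23 (.str 60 (.nv (.thr 0 40 (.thr 42 63 (.thr 32 47 (.thr 48 16 (.dbl 52 7 56))))) (.nv (.thr 0 40 (.thr 42 63 (.thr 2 62 (.dbl 3 1 41)))) (.rp 63 (.thr 52 7 (.thr 4 36 (.thr 55 38 (.thr 54 53 (.thr 51 57 (.thr 0 40 (.thr 17 34 (.thr 25 29 (.thr 28 19 (.dbl 12 8 44)))))))))) (.rp 56 (.thr 41 3 (.thr 0 40 (.thr 63 42 (.dbl 61 1 62)))) (.rp 43 (.thr 0 40 (.thr 63 42 (.thr 41 3 (.dbl 61 1 62)))) (.rp 42 (.thr 52 7 (.thr 4 36 (.thr 55 38 (.thr 54 53 (.thr 51 57 (.thr 63 59 (.thr 61 62 (.dbl 41 1 3)))))))) (.rp 41 (.str 56 (.nv (.dbl 52 7 48) (.rp 52 (.thr 40 0 (.thr 24 8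 (.thr 28 16 (.thr 12 44 (.thr 25 19 (.thr 38 51 (.dbl 36 39 48))))))) (.rp 48 (.thr 52 7 (.thr 4 36 (.thr 55 38 (.thr 54 53 (.thr 51 57 (.thr 63 59 (.dbl 0 40 42))))))) (.rp 7 (.thr 48 52 (.thr 0 40 (.thr 42 63 (.dbl 32 16 47)))) .nd))))) (.rp 40 (.thr 41 3 (.thr 61 1 (.thr 63 62 (.thr 45 33 (.thr 15 30 (.thr 47 31 (.dbl 42 0 32))))))) (.rp 3 (.thr 0 40 (.thr 63 42 (.thr 61 62 (.thr 41 1 (.thr 45 33 (.thr 15 30 (.thr 47 31 (.thr 46 44 (.dbl 29 12 13))))))))) (.rp 0 (.thr 52 7 (.thr 4 36 (.thr 55 38 (.thr 54 53 (.thr 51 57 (.thr 63 59 (.thr 61 62 (.dbl 41 1 3)))))))) .nd)))))))))))) (.rp 10 (.thr 22 23 (.str 0 (.nv (.thr 52 7 (.thr 60 40 (.thr 48 56 (.thr 32 16 (.dbl 42 47 63))))) (.nv (.thr 42 63 (.thr 2 62 (.thr 60 40 (.dbl 3 1 41)))) (.rp 63 (.thr 52 7 (.thr 60 40 (.thr 48 56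 (.thr 16 32 (.thr 24 28 (.dbl 36 4 12)))))) (.rp 60 (.thr 52 7 (.thr 4 36 (.thr 8 12 (.thr 42 63 (.thr 32 47 (.thr 25 59 (.thr 28 19 (.dbl 16 24 48)))))))) (.rp 42 (.str 58 (.nv (.thr 52 7 (.thr 4 36 (.thr 55 38 (.thr 53 54 (.thr 60 40 (.thr 41 3 (.thr 63 48 (.dbl 61 1 62)))))))) (.nv (.thr 52 7 (.thr 60 40 (.thr 48 56 (.thr 16 32 (.thr 24 28 (.dbl 36 4 12)))))) (.nv (.thr 60 40 (.thr 41 3 (.thr 61 1 (.thr 63 62 (.thr 48 53 (.dbl 52 7 56)))))) (.rp 60 (.thr 52 7 (.thr 4 36 (.thr 55 38 (.thr 53 54 (.thr 48 63 (.thr 16 32 (.thr 28 24 (.thr 25 19 (.thr 17 29 (.thr 49 13 (.dbl 51 34 50))))))))))) (.rp 52 (.thr 60 40 (.thr 41 3 (.thr 1 61 (.thr 33 45 (.thr 17 49 (.thr 51 34 (.thr 57 54 (.dbl 25 9 29)))))))) (.rp 48 (.thr 52 7 (.thr 4 36 (.thr 60 40 (.thr 41 3 (.thr 12 8 (.thr 44 28 (.dbl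 38 35 55))))))) (.rp 41 (.thr 52 7 (.thr 4 36 (.thr 55 38 (.thr 53 54 (.thr 48 63 (.dbl 60 40 56)))))) (.rp 40 (.thr 52 7 (.thr 4 36 (.thr 55 38 (.thr 53 54 (.thr 63 48 (.thr 59 51 (.thr 57 56 (.thr 49 61 (.thr 25 13 (.thr 29 17 (.dbl 12 8 46))))))))))) (.rp 7 (.thr 60 40 (.thr 41 3 (.thr 1 61 (.thr 33 45 (.thr 17 49 (.thr 51 34 (.thr 57 54 (.dbl 25 9 29)))))))) .nd)))))))))) (.rp 41 (.thr 52 7 (.thr 60 40 (.thr 42 63 (.thr 32 47 (.dbl 48 16 56))))) (.rp 40 (.thr 52 7 (.thr 42 63 (.thr 2 62 (.thr 3 1 (.thr 60 41 (.thr 32 47 (.dbl 48 16 56))))))) .nd))))))))) (.rp 9 (.thr 22 23 (.str 41 (.nv (.thr 52 7 (.thr 60 3 (.thr 0 40 (.thr 48 56 (.thr 32 16 (.dbl 42 47 63)))))) (.nv (.thr 60 3 (.thr 0 40 (.thr 63 42 (.dbl 61 1 62)))) (.rp 63 (.thr 45 33 (.thr 61 1 (.thr 13 29 (.thr 49 25 (.thr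 53 57 (.thr 52 7 (.thr 4 36 (.dbl 55 38 54)))))))) (.rp 60 (.thr 45 33 (.thr 61 1 (.thr 13 29 (.thr 49 25 (.thr 53 57 (.thr 52 7 (.thr 4 36 (.dbl 55 38 54)))))))) (.rp 43 (.thr 45 33 (.thr 61 1 (.thr 13 29 (.thr 60 3 (.thr 63 62 (.dbl 0 40 42)))))) (.rp 42 (.thr 33 45 (.thr 1 61 (.thr 17 49 (.thr 3 60 (.thr 18 48 (.thr 19 16 (.dbl 25 28 29))))))) (.rp 40 (.thr 33 45 (.thr 1 61 (.thr 17 49 (.thr 3 60 (.thr 18 48 (.thr 19 16 (.dbl 25 28 29))))))) (.rp 13 (.thr 1 61 (.thr 60 3 (.thr 0 40 (.thr 52 7 (.thr 48 56 (.thr 32 16 (.dbl 42 47 63))))))) (.rp 12 (.thr 33 45 (.thr 1 61 (.thr 17 49 (.thr 3 60 (.thr 18 48 (.thr 19 16 (.dbl 25 28 29))))))) (.rp 6 (.thr 33 45 (.thr 1 61 (.thr 17 49 (.thr 3 60 (.thr 18 48 (.thr 19 16 (.dbl 25 28 29))))))) (.rp 3 (.thr 45 33 (.thr 61 1 (.thr 13 29 (.thr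 49 25 (.thr 53 57 (.thr 52 7 (.thr 4 36 (.dbl 55 38 54)))))))) (.rp 1 (.str 13 (.nv (.thr 60 3 (.thr 0 40 (.thr 63 42 (.thr 61 62 (.dbl 45 29 33))))) (.nv (.thr 45 33 (.thr 29 61 (.dbl 25 17 49))) (.rp 61 (.thr 33 45 (.thr 25 49 (.thr 17 29 (.thr 3 60 (.thr 18 48 (.dbl 19 16 28)))))) (.rp 45 (.thr 60 3 (.thr 0 40 (.thr 52 7 (.thr 48 56 (.thr 32 16 (.dbl 42 47 63)))))) (.rp 33 (.thr 60 3 (.thr 0 40 (.thr 52 7 (.thr 48 56 (.thr 32 16 (.dbl 42 47 63)))))) (.rp 29 (.thr 45 33 (.thr 60 3 (.thr 15 30 (.thr 12 14 (.thr 28 44 (.dbl 25 19 49)))))) .nd))))))) (.rp 0 (.thr 33 45 (.thr 1 61 (.thr 49 17 (.thr 3 60 (.thr 48 18 (.thr 51 50 (.thr 19 35 (.dbl 25 13 28)))))))) .nd))))))))))))))) (.rp 8 (.str 0 (.nv (.thr 40 60 (.thr 42 63 (.thr 32 47 (.thr 36 44 (.thr 4 52 (.dbl 38 39 55)))))) (.nv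 (.thr 22 23 (.thr 42 63 (.thr 2 62 (.thr 60 40 (.dbl 3 1 41))))) (.rp 63 (.thr 22 23 (.thr 52 7 (.thr 60 40 (.thr 3 41 (.thr 2 1 (.thr 42 62 (.thr 32 47 (.dbl 48 16 56)))))))) (.rp 62 (.thr 22 23 (.thr 52 7 (.thr 60 40 (.thr 42 63 (.thr 32 47 (.dbl 48 16 56)))))) (.rp 60 (.thr 22 23 (.thr 42 63 (.thr 32 47 (.thr 16 48 (.thr 28 24 (.thr 25 19 (.thr 17 29 (.thr 34 51 (.thr 49 13 (.dbl 33 1 35)))))))))) (.rp 56 (.thr 22 23 (.thr 42 63 (.thr 2 62 (.thr 3 1 (.dbl 60 40 41))))) (.rp 42 (.thr 22 23 (.thr 60 40 (.thr 41 3 (.thr 1 61 (.thr 33 45 (.thr 17 49 (.thr 51 34 (.thr 57 54 (.dbl 25 9 29))))))))) (.rp 40 (.thr 22 23 (.thr 52 7 (.thr 42 63 (.thr 32 47 (.thr 48 16 (.thr 2 62 (.thr 3 1 (.dbl 60 41 56)))))))) .nd))))))))) (.rp 7 (.str 0 (.nv (.thr 40 60 (.thr 42 63 (.thr 32 47 (.thr 36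 44 (.thr 4 52 (.thr 12 8 (.dbl 48 16 24))))))) (.nv (.thr 22 23 (.thr 60 40 (.thr 42 63 (.thr 2 62 (.dbl 3 1 41))))) (.rp 63 (.thr 22 23 (.thr 60 40 (.thr 3 41 (.thr 2 1 (.thr 42 62 (.thr 32 47 (.thr 16 48 (.thr 28 24 (.thr 12 44 (.thr 25 19 (.dbl 8 4 59))))))))))) (.rp 62 (.thr 22 23 (.thr 60 40 (.thr 41 3 (.thr 1 61 (.thr 33 45 (.thr 17 49 (.thr 51 34 (.thr 57 54 (.dbl 25 9 29))))))))) (.rp 60 (.thr 22 23 (.thr 42 63 (.thr 32 47 (.thr 16 48 (.thr 28 24 (.thr 25 19 (.thr 17 29 (.thr 51 34 (.thr 12 38 (.dbl 8 4 59)))))))))) (.rp 42 (.thr 22 23 (.thr 60 40 (.thr 41 3 (.thr 1 61 (.thr 33 45 (.thr 17 49 (.thr 51 34 (.thr 57 54 (.dbl 25 9 29))))))))) (.rp 40 (.thr 22 23 (.thr 42 63 (.thr 32 47 (.thr 48 16 (.thr 2 62 (.thr 3 1 (.thr 33 18 (.dbl 41 45 60)))))))) (.rp 6 (.str 4 (.nv (.thr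 36 52 (.thr 40 60 (.thr 32 44 (.dbl 42 47 63)))) (.nv (.thr 36 52 (.dbl 38 39 55)) (.rp 52 (.thr 22 23 (.thr 60 40 (.thr 3 41 (.thr 2 1 (.dbl 42 62 63))))) (.rp 36 (.thr 22 23 (.thr 60 40 (.thr 3 41 (.thr 2 1 (.dbl 42 62 63))))) .nd))))) (.rp 4 (.str 6 (.nv (.thr 60 40 (.thr 63 42 (.thr 61 62 (.thr 41 1 (.dbl 22 3 23))))) (.nv (.thr 22 23 (.thr 38 54 (.thr 60 40 (.thr 3 41 (.thr 12 9 (.thr 25 51 (.dbl 28 19 44))))))) (.nv (.thr 40 60 (.thr 42 63 (.thr 32 47 (.thr 36 44 (.thr 38 39 (.dbl 22 23 54)))))) (.nv (.thr 22 23 (.thr 42 63 (.thr 2 62 (.thr 60 40 (.dbl 3 1 41))))) (.rp 60 (.thr 22 23 (.thr 38 54 (.thr 39 36 (.thr 42 63 (.thr 47 32 (.thr 46 34 (.thr 44 45 (.dbl 35 41 43)))))))) (.rp 43 (.thr 22 23 (.thr 60 40 (.thr 3 41 (.thr 42 63 (.dbl 2 1 62))))) (.rp 42 (.thr 22 23 (.thr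 54 38 (.thr 60 40 (.thr 51 57 (.thr 41 3 (.thr 1 61 (.thr 33 45 (.dbl 17 34 49)))))))) (.rp 40 (.thr 22 23 (.thr 38 54 (.thr 39 36 (.thr 42 63 (.thr 46 34 (.thr 47 32 (.thr 44 45 (.dbl 35 41 43)))))))) (.rp 23 (.thr 60 40 (.thr 63 42 (.thr 61 62 (.thr 41 1 (.thr 22 3 (.thr 54 38 (.thr 57 51 (.thr 49 53 (.dbl 25 9 13))))))))) (.rp 22 (.thr 40 60 (.thr 42 63 (.thr 32 47 (.thr 44 36 (.thr 41 43 (.thr 33 45 (.dbl 35 34 38))))))) .nd))))))))))) .nd)))))))))) (.rp 6 (.thr 22 23 (.thr 52 7 (.thr 4 36 (.str 0 (.nv (.thr 12 8 (.thr 63 42 (.thr 29 46 (.thr 25 17 (.dbl 38 51 55))))) (.nv (.thr 42 63 (.thr 2 62 (.thr 60 40 (.dbl 3 1 41)))) (.rp 63 (.thr 60 40 (.thr 3 41 (.thr 2 1 (.thr 42 62 (.thr 32 47 (.dbl 48 16 56)))))) (.rp 55 (.str 39 (.nv (.thr 42 63 (.thr 2 62 (.thr 3 1 (.dbl 60 40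 41)))) (.nv (.thr 60 40 (.thr 48 56 (.thr 32 16 (.dbl 42 47 63)))) (.rp 63 (.thr 60 40 (.thr 3 41 (.thr 2 1 (.thr 42 62 (.thr 32 47 (.dbl 48 16 56)))))) (.rp 60 (.thr 12 8 (.thr 63 42 (.thr 29 46 (.thr 25 17 (.thr 13 49 (.thr 15 14 (.dbl 51 27 38))))))) (.rp 42 (.thr 12 8 (.thr 60 40 (.thr 44 28 (.thr 41 3 (.thr 45 33 (.thr 47 46 (.dbl 35 38 43))))))) (.rp 41 (.thr 60 40 (.thr 42 63 (.thr 32 47 (.dbl 48 16 56)))) (.rp 40 (.thr 42 63 (.thr 32 47 (.thr 48 16 (.thr 60 56 (.thr 2 62 (.dbl 3 1 41)))))) .nd)))))))) (.rp 42 (.thr 12 8 (.thr 60 40 (.thr 44 28 (.thr 41 3 (.dbl 38 35 55))))) (.rp 39 (.thr 55 38 (.thr 53 54 (.thr 60 40 (.thr 48 56 (.dbl 63 42 58))))) .nd)))))))))) (.rp 4 (.thr 22 23 (.str 0 (.nv (.thr 7 52 (.thr 60 40 (.thr 3 41 (.thr 42 63 (.dbl 2 1 62))))) (.nv (.thr 42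 63 (.thr 32 47 (.thr 48 16 (.thr 60 40 (.dbl 52 7 56))))) (.nv (.thr 60 40 (.thr 42 63 (.thr 2 62 (.dbl 3 1 41)))) (.rp 63 (.thr 60 40 (.thr 3 41 (.thr 2 1 (.thr 42 62 (.thr 32 47 (.thr 48 16 (.dbl 52 7 56))))))) (.rp 60 (.thr 42 63 (.thr 32 47 (.thr 16 48 (.thr 28 24 (.thr 25 19 (.thr 17 29 (.thr 34 51 (.thr 49 13 (.dbl 33 1 35))))))))) (.rp 42 (.thr 60 40 (.thr 41 3 (.thr 1 61 (.thr 33 45 (.thr 17 49 (.thr 51 34 (.thr 57 54 (.dbl 25 9 29)))))))) (.rp 40 (.thr 42 63 (.thr 2 62 (.thr 3 1 (.thr 60 41 (.thr 32 47 (.thr 48 16 (.dbl 52 7 56))))))) (.rp 7 (.str 6 (.nv (.thr 38 54 (.thr 40 60 (.thr 42 63 (.thr 32 47 (.dbl 36 39 44))))) (.nv (.thr 38 54 (.thr 60 40 (.thr 3 41 (.thr 12 9 (.thr 25 51 (.dbl 28 19 44)))))) (.nv (.thr 42 63 (.thr 2 62 (.thr 60 40 (.dbl 3 1 41)))) (.rp 60 (.thr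 38 54 (.thr 39 36 (.thr 42 63 (.thr 47 32 (.thr 46 34 (.thr 44 45 (.dbl 35 41 43))))))) (.rp 55 (.str 39 (.nv (.dbl 38 36 54) (.rp 54 (.thr 36 38 (.thr 40 60 (.thr 32 44 (.dbl 42 47 63)))) (.rp 38 (.thr 60 40 (.thr 3 41 (.thr 2 1 (.dbl 42 62 63)))) (.rp 36 (.thr 60 40 (.thr 3 41 (.thr 2 1 (.dbl 42 62 63)))) .nd))))) (.rp 43 (.thr 60 40 (.thr 3 41 (.thr 42 63 (.dbl 2 1 62)))) (.rp 42 (.thr 54 38 (.thr 60 40 (.thr 51 57 (.thr 41 3 (.thr 1 61 (.thr 33 45 (.dbl 17 34 49))))))) (.rp 40 (.thr 38 54 (.thr 39 36 (.thr 42 63 (.thr 46 34 (.thr 47 32 (.thr 44 45 (.dbl 35 41 43))))))) (.rp 39 (.str 55 (.nv (.thr 38 54 (.thr 63 42 (.thr 51 59 (.thr 17 34 (.dbl 25 12 29))))) (.nv (.thr 42 63 (.thr 2 62 (.thr 60 40 (.dbl 3 1 41)))) (.rp 63 (.thr 54 38 (.thr 53 52 (.thr 60 40 (.thr 57 51 (.thr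 61 49 (.dbl 41 1 3)))))) (.rp 42 (.thr 54 38 (.thr 53 52 (.thr 60 40 (.thr 57 51 (.thr 61 49 (.dbl 41 1 3)))))) .nd))))) (.rp 3 (.thr 38 54 (.thr 39 36 (.thr 40 60 (.thr 42 63 (.thr 43 41 (.dbl 47 32 35)))))) .nd))))))))))) (.rp 3 (.thr 60 40 (.thr 63 42 (.thr 61 62 (.thr 41 1 (.thr 45 33 (.thr 15 30 (.thr 47 31 (.thr 46 44 (.dbl 29 12 13))))))))) .nd))))))))))) (.rp 3 (.str 0 (.nv (.thr 23 22 (.thr 42 63 (.thr 32 47 (.thr 40 60 (.thr 41 43 (.thr 33 45 (.thr 35 34 (.dbl 44 36 38)))))))) (.nv (.thr 22 23 (.thr 63 42 (.thr 52 7 (.thr 4 36 (.thr 12 8 (.thr 29 46 (.thr 25 17 (.dbl 38 51 55)))))))) (.nv (.thr 60 40 (.thr 42 63 (.thr 32 47 (.thr 48 16 (.thr 52 56 (.dbl 22 7 23)))))) (.rp 63 (.str 4 (.nv (.thr 36 52 (.dbl 38 39 55)) (.nv (.thr 52 36 (.dbl 22 7 23)) (.rp 52 (.thr 38 55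 (.thr 36 39 (.thr 12 8 (.thr 48 24 (.thr 32 16 (.dbl 40 44 60)))))) (.rp 43 (.thr 23 22 (.thr 36 52 (.dbl 38 39 55))) (.rp 36 (.thr 38 55 (.thr 12 8 (.thr 51 25 (.thr 60 40 (.thr 54 57 (.dbl 22 6 23)))))) (.rp 23 (.str 43 (.nv (.thr 36 52 (.thr 40 60 (.thr 32 44 (.dbl 42 41 47)))) (.nv (.thr 36 52 (.dbl 38 39 55)) (.rp 52 (.thr 40 60 (.thr 41 42 (.thr 38 55 (.thr 44 35 (.dbl 36 32 39))))) (.rp 36 (.thr 12 8 (.thr 40 60 (.thr 38 55 (.thr 51 25 (.thr 34 17 (.dbl 42 41 46)))))) .nd))))) .nd))))))) (.rp 42 (.thr 22 23 (.thr 52 7 (.thr 60 40 (.thr 48 56 (.thr 16 32 (.thr 24 28 (.dbl 36 4 12))))))) (.rp 23 (.thr 60 40 (.thr 63 42 (.thr 61 62 (.thr 41 1 (.thr 45 33 (.thr 15 30 (.thr 47 31 (.thr 46 44 (.dbl 29 12 13))))))))) (.rp 22 (.thr 60 40 (.thr 42 63 (.thr 32 47 (.thr 16 48 (.thr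 28 24 (.thr 12 44 (.thr 8 4 (.thr 25 59 (.thr 17 29 (.dbl 51 34 38)))))))))) (.rp 15 (.thr 23 22 (.thr 42 63 (.thr 40 60 (.thr 41 43 (.thr 61 1 (.thr 45 33 (.thr 47 32 (.thr 46 44 (.thr 34 38 (.thr 17 51 (.dbl 29 13 25))))))))))) .nd))))))))) (.rp 2 (.str 0 (.nv (.thr 40 60 (.thr 42 63 (.thr 32 47 (.thr 36 44 (.thr 4 52 (.dbl 38 39 55)))))) (.nv (.thr 22 23 (.thr 52 7 (.thr 60 40 (.thr 48 56 (.thr 16 32 (.thr 24 28 (.dbl 36 4 12))))))) (.nv (.thr 22 23 (.thr 60 40 (.thr 63 42 (.thr 41 3 (.dbl 61 1 62))))) (.rp 60 (.thr 22 23 (.thr 52 7 (.thr 4 36 (.thr 12 8 (.thr 63 42 (.thr 29 46 (.thr 25 17 (.dbl 38 51 55)))))))) (.rp 40 (.thr 22 23 (.thr 52 7 (.thr 4 36 (.thr 12 8 (.thr 63 42 (.thr 29 46 (.thr 25 17 (.dbl 38 51 55)))))))) .nd)))))) (.rp 1 (.thr 22 23 (.str 0 (.nv (.thr 40 60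 (.thr 42 63 (.thr 32 47 (.thr 36 44 (.thr 4 52 (.thr 48 16 (.dbl 12 8 24))))))) (.nv (.thr 40 60 (.thr 42 63 (.thr 43 41 (.thr 47 32 (.thr 39 35 (.thr 52 7 (.dbl 36 4 38))))))) (.nv (.thr 42 63 (.thr 32 47 (.thr 48 16 (.thr 60 40 (.dbl 52 7 56))))) (.rp 63 (.thr 52 7 (.thr 60 40 (.thr 48 56 (.thr 16 32 (.thr 24 28 (.dbl 36 4 12)))))) (.rp 60 (.thr 52 7 (.thr 4 36 (.thr 12 8 (.thr 63 42 (.thr 29 46 (.thr 25 17 (.dbl 38 51 55))))))) (.rp 52 (.thr 60 40 (.thr 42 63 (.thr 32 47 (.thr 16 48 (.thr 28 24 (.thr 12 44 (.thr 25 19 (.dbl 8 4 59)))))))) (.rp 47 (.thr 52 7 (.thr 60 40 (.thr 48 56 (.thr 16 32 (.thr 24 28 (.dbl 36 4 12)))))) (.rp 43 (.thr 52 7 (.thr 60 40 (.thr 48 56 (.thr 32 16 (.dbl 42 47 63))))) (.rp 42 (.thr 52 7 (.thr 60 40 (.thr 48 56 (.thr 16 32 (.thr 24 28 (.dbl 36 4 12))))))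 (.rp 40 (.thr 52 7 (.thr 4 36 (.thr 12 8 (.thr 63 42 (.thr 29 46 (.thr 25 17 (.dbl 38 51 55))))))) (.rp 32 (.thr 52 7 (.thr 4 36 (.thr 55 38 (.thr 54 53 (.thr 63 42 (.thr 51 59 (.dbl 60 40 57))))))) (.rp 13 (.str 9 (.nv (.thr 40 60 (.thr 42 63 (.thr 43 41 (.thr 32 47 (.thr 36 44 (.thr 4 52 (.dbl 38 39 55))))))) (.nv (.thr 52 7 (.thr 4 36 (.thr 12 8 (.thr 6 3 (.dbl 38 54 55))))) (.nv (.thr 42 63 (.thr 32 47 (.thr 48 16 (.thr 60 40 (.dbl 52 7 56))))) (.nv (.thr 52 7 (.thr 4 36 (.thr 12 8 (.thr 3 6 (.dbl 60 40 41))))) (.rp 52 (.thr 60 40 (.thr 3 41 (.thr 12 6 (.thr 4 8 (.thr 38 55 (.thr 25 51 (.dbl 28 19 44))))))) .nd)))))) (.rp 9 (.str 13 (.nv (.thr 52 7 (.thr 4 36 (.thr 25 49 (.thr 17 29 (.thr 51 34 (.dbl 38 12 55)))))) (.nv (.thr 60 40 (.thr 63 42 (.thr 61 62 (.thr 45 29 (.dbl 41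 3 33))))) (.rp 29 (.thr 52 7 (.thr 4 36 (.thr 25 49 (.thr 12 8 (.dbl 38 51 55))))) .nd)))) .nd))))))))))))))) (.rp 0 (.str 38 (.nv (.thr 36 39 (.dbl 4 52 55)) (.rp 55 (.thr 36 39 (.thr 52 4 (.dbl 22 7 23))) (.rp 52 (.thr 39 36 (.thr 55 4 (.dbl 23 7 22))) (.rp 39 (.thr 4 55 (.thr 52 36 (.dbl 22 7 23))) (.rp 36 (.thr 22 23 (.thr 7 52 (.str 3 (.nv (.thr 6 54 (.thr 12 9 (.thr 25 51 (.thr 13 49 (.dbl 15 11 14))))) (.nv (.thr 6 54 (.thr 15 11 (.thr 12 9 (.thr 13 14 (.dbl 25 49 51))))) (.nv (.thr 54 6 (.thr 60 41 (.thr 51 57 (.thr 19 35 (.dbl 25 12 28))))) (.rp 54 (.thr 15 11 (.thr 41 60 (.thr 61 1 (.thr 45 33 (.thr 13 29 (.thr 12 14 (.dbl 25 49 51))))))) (.rp 51 (.thr 6 54 (.thr 15 11 (.thr 12 9 (.thr 13 14 (.thr 25 49 (.thr 28 19 (.dbl 60 41 44))))))) (.rp 25 (.thr 6 54 (.thr 15 11 (.thr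 12 9 (.thr 13 14 (.thr 41 60 (.thr 61 1 (.dbl 45 29 33))))))) (.rp 15 (.str 10 (.nv (.thr 6 54 (.thr 2 14 (.thr 41 60 (.thr 35 44 (.thr 42 62 (.thr 32 47 (.dbl 33 34 45))))))) (.nv (.thr 6 54 (.thr 2 14 (.thr 12 9 (.thr 42 62 (.thr 46 34 (.thr 29 63 (.dbl 25 17 51))))))) (.nv (.thr 54 6 (.thr 60 41 (.thr 51 57 (.thr 19 35 (.dbl 25 12 28))))) (.rp 60 (.thr 55 4 (.thr 6 54 (.thr 2 14 (.thr 12 9 (.thr 51 25 (.thr 63 59 (.thr 46 29 (.dbl 42 34 62)))))))) (.rp 54 (.thr 41 60 (.thr 45 33 (.thr 35 44 (.thr 51 19 (.thr 61 1 (.thr 13 29 (.dbl 25 12 49))))))) (.rp 51 (.thr 6 54 (.thr 2 14 (.thr 12 9 (.thr 42 62 (.thr 47 32 (.thr 60 41 (.thr 44 28 (.dbl 46 34 45)))))))) (.rp 12 (.thr 6 54 (.thr 41 60 (.thr 45 33 (.thr 44 35 (.thr 46 47 (.thr 61 1 (.thr 2 14 (.thr 13 29 (.dbl 42 34 62)))))))))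 (.rp 6 (.thr 41 60 (.thr 45 33 (.thr 35 44 (.thr 19 51 (.thr 61 1 (.thr 13 29 (.dbl 25 28 49))))))) .nd))))))))) (.rp 12 (.thr 41 60 (.thr 1 61 (.thr 33 45 (.thr 48 18 (.thr 49 17 (.thr 51 50 (.dbl 35 19 44))))))) (.rp 11 (.thr 6 54 (.thr 12 9 (.thr 51 25 (.thr 35 19 (.dbl 41 44 60))))) (.rp 10 (.thr 15 11 (.thr 6 54 (.thr 41 60 (.thr 35 44 (.thr 51 19 (.dbl 12 9 25)))))) (.rp 9 (.thr 54 6 (.thr 60 41 (.thr 51 57 (.thr 25 12 (.dbl 19 28 35))))) (.rp 6 (.thr 15 11 (.thr 41 60 (.thr 61 1 (.thr 45 33 (.thr 13 29 (.thr 12 14 (.dbl 25 49 51))))))) .nd))))))))))))))) (.rp 15 (.str 10 (.nv (.thr 4 55 (.dbl 36 39 52)) (.rp 55 (.thr 36 39 (.thr 52 4 (.dbl 22 7 23))) (.rp 52 (.thr 39 36 (.thr 23 22 (.dbl 55 4 7))) (.rp 39 (.thr 4 55 (.thr 52 36 (.dbl 22 7 23))) (.rp 36 (.str 12 (.nv (.thr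 22 23 (.thr 6 54 (.thr 2 14 (.thr 42 62 (.thr 46 34 (.thr 29 63 (.dbl 25 17 51))))))) (.nv (.thr 22 23 (.thr 51 25 (.thr 54 6 (.thr 60 57 (.thr 44 28 (.dbl 41 3 35)))))) (.rp 60 (.thr 22 23 (.thr 7 52 (.thr 6 54 (.thr 2 14 (.thr 42 62 (.thr 9 3 (.thr 8 11 (.dbl 25 51 59)))))))) (.rp 54 (.thr 22 23 (.thr 25 51 (.thr 17 29 (.thr 28 19 (.thr 60 44 (.thr 49 13 (.thr 1 33 (.dbl 41 3 61)))))))) (.rp 51 (.thr 22 23 (.thr 6 54 (.thr 2 14 (.thr 42 62 (.thr 3 9 (.thr 60 41 (.thr 44 28 (.thr 47 32 (.dbl 46 34 45))))))))) (.rp 25 (.thr 22 23 (.thr 6 54 (.thr 2 14 (.thr 42 62 (.thr 3 9 (.thr 41 60 (.thr 47 32 (.thr 46 34 (.dbl 44 35 45))))))))) (.rp 23 (.thr 55 4 (.thr 51 25 (.thr 63 59 (.thr 46 29 (.thr 42 34 (.thr 47 32 (.thr 44 45 (.thr 60 28 (.thr 61 62 (.dbl 41 1 35)))))))))) (.rp 22 (.thr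 55 4 (.thr 51 25 (.thr 63 59 (.thr 46 29 (.thr 42 34 (.thr 47 32 (.thr 44 45 (.thr 35 41 (.thr 43 39 (.dbl 3 19 23)))))))))) (.rp 6 (.thr 22 23 (.thr 25 51 (.thr 17 29 (.thr 28 19 (.thr 44 60 (.thr 49 13 (.thr 1 33 (.dbl 41 35 61)))))))) (.rp 3 (.thr 22 23 (.thr 6 54 (.thr 55 4 (.thr 2 14 (.thr 42 62 (.thr 46 34 (.thr 63 29 (.dbl 51 25 59)))))))) .nd))))))))))) (.rp 4 (.thr 36 39 (.thr 22 23 (.thr 6 54 (.thr 2 14 (.thr 42 62 (.thr 32 47 (.thr 44 40 (.thr 35 41 (.dbl 34 33 46))))))))) .nd))))))) (.rp 10 (.str 15 (.nv (.thr 36 39 (.dbl 4 52 55)) (.rp 58 (.str 42 (.nv (.thr 36 39 (.dbl 4 52 55)) (.rp 55 (.thr 36 39 (.thr 52 4 (.dbl 22 7 23))) (.rp 52 (.thr 39 36 (.thr 23 22 (.dbl 55 4 7))) (.rp 39 (.thr 4 55 (.thr 52 36 (.dbl 22 7 23))) (.rp 36 (.thr 23 22 (.thr 55 4 (.thr 7 39 (.thr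 3 11 (.thr 63 43 (.dbl 47 31 32)))))) (.rp 4 (.thr 36 39 (.thr 32 47 (.thr 44 40 (.thr 34 46 (.dbl 35 33 41))))) .nd))))))) (.rp 55 (.thr 36 39 (.thr 52 4 (.dbl 22 7 23))) (.rp 52 (.thr 39 36 (.thr 55 4 (.dbl 23 7 22))) (.rp 42 (.str 58 (.nv (.thr 36 39 (.dbl 4 52 55)) (.rp 55 (.thr 36 39 (.thr 52 4 (.dbl 22 7 23))) (.rp 52 (.thr 23 22 (.thr 39 36 (.dbl 55 4 7))) (.rp 39 (.thr 4 55 (.thr 52 36 (.dbl 22 7 23))) (.rp 36 (.thr 22 23 (.thr 6 54 (.thr 7 52 (.thr 3 11 (.thr 41 60 (.thr 35 44 (.thr 51 19 (.dbl 12 9 25)))))))) (.rp 4 (.thr 22 23 (.thr 39 36 (.thr 54 6 (.thr 7 52 (.thr 51 27 (.thr 60 57 (.dbl 3 11 41))))))) .nd))))))) (.rp 39 (.thr 4 55 (.thr 52 36 (.dbl 22 7 23))) (.rp 36 (.thr 22 23 (.thr 7 52 (.thr 6 54 (.thr 3 11 (.thr 41 60 (.thr 35 44 (.thr 51 19 (.dbl 12 9 25))))))))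 (.rp 4 (.thr 39 36 (.thr 23 22 (.thr 7 55 (.thr 3 11 (.thr 63 43 (.thr 31 47 (.dbl 27 19 51))))))) .nd))))))))) (.rp 4 (.thr 39 36 (.thr 22 23 (.thr 7 52 (.str 12 (.nv (.thr 25 51 (.thr 13 49 (.thr 15 14 (.thr 3 11 (.thr 28 19 (.dbl 60 41 44)))))) (.nv (.thr 6 54 (.thr 3 9 (.thr 15 11 (.thr 13 14 (.dbl 25 49 51))))) (.nv (.thr 54 6 (.thr 51 25 (.thr 60 57 (.thr 44 28 (.dbl 41 3 35))))) (.rp 51 (.thr 6 54 (.thr 3 9 (.thr 15 11 (.thr 13 14 (.thr 25 49 (.thr 28 19 (.dbl 60 41 44))))))) (.rp 41 (.thr 6 54 (.thr 3 9 (.thr 25 51 (.thr 13 49 (.dbl 15 11 14))))) (.rp 25 (.thr 6 54 (.thr 3 9 (.thr 15 11 (.thr 41 60 (.thr 35 44 (.dbl 51 19 27)))))) (.rp 15 (.str 10 (.nv (.thr 6 54 (.thr 2 14 (.thr 25 51 (.thr 42 62 (.thr 8 59 (.dbl 9 3 11)))))) (.nv (.thr 6 54 (.thr 2 14 (.thr 42 62 (.thr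 47 32 (.thr 35 43 (.thr 44 41 (.dbl 46 34 45))))))) (.nv (.thr 51 25 (.thr 54 6 (.thr 60 57 (.thr 44 28 (.dbl 41 3 35))))) (.rp 54 (.thr 25 51 (.thr 17 29 (.thr 28 19 (.thr 60 44 (.thr 49 13 (.thr 1 33 (.dbl 41 3 61))))))) (.rp 6 (.thr 25 51 (.thr 17 29 (.thr 28 19 (.thr 44 60 (.thr 49 13 (.thr 1 33 (.dbl 41 35 61))))))) (.rp 3 (.thr 6 54 (.thr 2 14 (.thr 42 62 (.thr 47 32 (.thr 46 34 (.thr 44 45 (.dbl 35 41 43))))))) .nd))))))) (.rp 10 (.str 15 (.nv (.thr 3 11 (.dbl 6 9 54)) (.nv (.dbl 51 25 27) (.rp 58 (.str 42 (.nv (.thr 3 11 (.dbl 6 9 54)) (.nv (.dbl 51 25 27) .nd))) (.rp 42 (.str 58 (.nv (.thr 3 11 (.dbl 6 9 54)) (.nv (.dbl 51 25 27) .nd))) .nd))))) (.rp 3 (.thr 54 6 (.thr 51 25 (.thr 60 57 (.thr 44 28 (.thr 41 35 (.thr 45 33 (.dbl 15 27 30))))))) .nd))))))))))))) .nd)))))))))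 .nd))))))))))))))))))))))))))))))))))))))))))))))))))))))))))))

theorem w501 : WinAt (137441050624, 67108896) :=
  chF (K := [(137446293504, 4398122008608)]) (kc w500 kn) c501 137441050624 67108896 5
    [] (by decide +kernel) (by decide +kernel)

/-- A certificate. -/
noncomputable def c502 : Ct := (.str 13 (.nv (.thr 1 9 (.thr 25 49 (.thr 61 41 (.dbl 29 17 45)))) (.nv (.thr 25 49 (.thr 29 17 (.thr 61 45 (.dbl 1 9 41)))) (.rp 61 (.str 42 (.nv (.thr 0 63 (.thr 1 9 (.thr 49 25 (.thr 17 33 (.thr 51 34 (.thr 48 50 (.dbl 32 16 47))))))) (.nv (.thr 47 32 (.thr 63 0 (.thr 15 31 (.thr 12 14 (.thr 29 46 (.dbl 25 17 49)))))) (.nv (.thr 9 1 (.thr 0 63 (.thr 10 15 (.thr 8 11 (.dbl 25 49 59))))) (.rp 63 (.thr 1 9 (.thr 32 47 (.thr 49 25 (.thr 33 17 (.thr 41 45 (.thr 40 43 (.thr 44 36 (.dbl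 35 34 38)))))))) (.rp 62 (.thr 47 32 (.thr 63 0 (.thr 15 31 (.thr 12 14 (.thr 46 29 (.thr 38 34 (.dbl 25 49 51))))))) (.rp 57 (.thr 49 25 (.thr 32 47 (.thr 0 63 (.thr 48 16 (.thr 51 50 (.thr 17 34 (.dbl 1 9 33))))))) (.rp 49 (.str 57 (.nv (.thr 0 63 (.thr 9 1 (.thr 25 41 (.thr 8 59 (.thr 12 4 (.thr 17 29 (.dbl 51 34 38))))))) (.nv (.thr 0 63 (.thr 9 1 (.thr 15 10 (.thr 41 25 (.thr 40 43 (.thr 60 20 (.dbl 45 30 33))))))) (.nv (.thr 9 1 (.thr 25 41 (.thr 0 63 (.thr 10 15 (.dbl 8 11 59))))) (.rp 63 (.thr 9 1 (.thr 41 25 (.thr 33 45 (.thr 32 47 (.thr 40 43 (.thr 44 36 (.dbl 35 34 38))))))) (.rp 62 (.thr 9 1 (.thr 41 25 (.thr 33 45 (.thr 32 47 (.thr 40 43 (.thr 44 36 (.dbl 35 34 38))))))) (.rp 60 (.thr 9 1 (.thr 41 25 (.thr 33 45 (.thr 32 47 (.thr 40 43 (.thr 44 36 (.dbl 35 34 38)))))))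 (.rp 58 (.thr 9 1 (.thr 41 25 (.thr 33 45 (.thr 32 47 (.thr 40 43 (.thr 44 36 (.dbl 35 34 38))))))) (.rp 48 (.thr 9 1 (.thr 41 25 (.thr 33 45 (.thr 32 47 (.thr 40 43 (.thr 44 36 (.dbl 35 34 38))))))) (.rp 41 (.thr 63 0 (.thr 47 32 (.thr 15 31 (.thr 12 14 (.thr 29 46 (.thr 25 17 (.thr 59 8 (.dbl 51 38 55)))))))) (.rp 33 (.thr 1 9 (.thr 0 63 (.thr 15 10 (.thr 12 14 (.thr 2 3 (.thr 8 4 (.thr 25 59 (.thr 17 29 (.dbl 51 34 38))))))))) (.rp 25 (.thr 1 9 (.thr 0 63 (.thr 32 47 (.thr 48 16 (.thr 3 2 (.thr 33 18 (.thr 41 45 (.thr 40 43 (.dbl 60 20 22))))))))) (.rp 17 (.thr 63 0 (.thr 47 32 (.thr 15 31 (.thr 12 14 (.thr 46 29 (.thr 38 34 (.thr 51 25 (.dbl 55 4 59)))))))) (.rp 9 (.thr 63 0 (.thr 47 32 (.thr 15 31 (.thr 12 14 (.thr 29 46 (.thr 25 17 (.thr 59 8 (.dbl 51 38 55)))))))) (.rp 1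 (.thr 63 0 (.thr 47 32 (.thr 15 31 (.thr 12 14 (.thr 46 29 (.thr 38 34 (.thr 55 4 (.dbl 51 25 59)))))))) (.rp 0 (.thr 9 1 (.thr 41 25 (.thr 33 45 (.thr 32 47 (.thr 40 43 (.thr 44 36 (.dbl 35 34 38))))))) .nd)))))))))))))))) (.rp 48 (.thr 9 1 (.thr 63 0 (.thr 25 49 (.thr 57 41 (.thr 59 8 (.thr 51 55 (.thr 12 38 (.dbl 29 17 46)))))))) (.rp 47 (.thr 9 1 (.thr 0 63 (.thr 25 49 (.thr 57 41 (.thr 8 59 (.dbl 10 11 15)))))) (.rp 25 (.thr 1 9 (.thr 32 47 (.thr 0 63 (.thr 3 2 (.thr 48 16 (.thr 33 18 (.thr 34 35 (.dbl 17 49 51)))))))) (.rp 0 (.thr 1 9 (.thr 32 47 (.thr 49 25 (.thr 33 17 (.thr 41 45 (.thr 40 43 (.thr 44 36 (.dbl 35 34 38)))))))) .nd)))))))))))) (.rp 49 (.str 63 (.nv (.thr 1 9 (.thr 61 41 (.thr 29 45 (.thr 42 0 (.thr 47 32 (.thr 15 31 (.dbl 12 14 46))))))) (.nv (.thr 0 42 (.thr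 10 15 (.thr 1 9 (.thr 3 2 (.thr 23 43 (.thr 22 20 (.dbl 41 60 61))))))) (.rp 61 (.str 57 (.nv (.thr 9 1 (.thr 41 25 (.thr 33 45 (.thr 42 0 (.thr 32 47 (.thr 35 34 (.thr 40 43 (.dbl 44 36 38)))))))) (.nv (.thr 0 42 (.thr 1 9 (.thr 3 2 (.thr 23 43 (.thr 22 20 (.thr 7 52 (.dbl 15 10 11))))))) (.nv (.thr 0 42 (.thr 10 15 (.thr 9 1 (.thr 8 11 (.thr 12 4 (.thr 29 46 (.dbl 25 17 41))))))) (.rp 42 (.str 38 (.nv (.thr 39 36 (.thr 55 4 (.thr 51 59 (.thr 15 27 (.dbl 12 14 25))))) (.nv (.thr 9 1 (.thr 25 41 (.thr 12 51 (.dbl 29 17 46)))) (.nv (.thr 55 4 (.thr 51 59 (.thr 25 12 (.dbl 9 1 41)))) (.rp 58 (.str 10 (.nv (.thr 9 1 (.thr 25 41 (.thr 12 51 (.dbl 29 17 46)))) (.nv (.thr 9 1 (.thr 8 11 (.thr 0 15 (.dbl 4 12 55)))) (.nv (.thr 15 0 (.thr 12 14 (.thr 39 36 (.dbl 51 25 27)))) (.rp 12 (.thr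 55 4 (.thr 51 59 (.thr 39 36 (.dbl 15 0 27)))) .nd))))) (.rp 51 (.thr 39 36 (.thr 55 4 (.thr 23 7 (.thr 43 3 (.thr 35 47 (.thr 41 44 (.dbl 9 1 25))))))) (.rp 25 (.thr 39 36 (.thr 55 4 (.thr 23 7 (.thr 43 3 (.thr 47 35 (.thr 15 31 (.dbl 51 27 59))))))) (.rp 12 (.thr 39 36 (.thr 55 4 (.thr 23 7 (.thr 51 59 (.thr 60 54 (.thr 3 43 (.dbl 22 20 41))))))) (.rp 10 (.str 58 (.nv (.thr 9 1 (.thr 25 41 (.thr 12 51 (.dbl 29 17 46)))) (.nv (.thr 55 4 (.dbl 59 51 56)) (.rp 56 (.thr 55 4 (.thr 51 59 (.thr 25 12 (.dbl 9 1 41)))) (.rp 51 (.thr 39 36 (.thr 55 4 (.thr 23 7 (.thr 43 3 (.thr 35 47 (.thr 41 44 (.dbl 9 1 25))))))) (.rp 14 (.str 2 (.nv (.thr 9 1 (.thr 25 41 (.thr 12 51 (.dbl 29 17 46)))) (.nv (.thr 55 4 (.dbl 59 51 56)) (.rp 56 (.thr 9 1 (.thr 55 4 (.thr 51 59 (.dbl 25 12 41)))) (.rp 51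 (.thr 1 9 (.thr 3 0 (.thr 23 43 (.thr 55 4 (.dbl 39 7 36))))) .nd))))) (.rp 2 (.str 14 (.nv (.thr 9 1 (.thr 12 15 (.dbl 25 41 51))) (.nv (.thr 55 4 (.dbl 59 51 56)) (.rp 62 (.str 22 (.nv (.thr 9 1 (.thr 23 20 (.thr 3 43 (.dbl 41 25 60)))) (.nv (.thr 55 4 (.dbl 59 51 56)) .nd))) (.rp 51 (.thr 12 15 (.thr 29 46 (.thr 25 17 (.dbl 9 1 41)))) (.rp 22 (.str 62 (.nv (.thr 55 4 (.dbl 59 51 56)) (.nv (.thr 12 15 (.dbl 46 29 30)) (.rp 30 (.str 18 (.nv (.thr 9 1 (.thr 12 15 (.dbl 25 41 51))) (.nv (.thr 55 4 (.dbl 59 51 56)) (.rp 51 (.thr 9 1 (.thr 25 41 (.thr 12 15 (.dbl 29 17 46)))) .nd)))) (.rp 18 (.thr 30 46 (.thr 55 4 (.dbl 59 51 56))) .nd))))) .nd)))))) .nd))))))) .nd))))))))) (.rp 41 (.thr 42 0 (.thr 47 32 (.thr 15 31 (.thr 12 14 (.thr 29 46 (.thr 25 17 (.thr 59 8 (.dbl 51 38 55))))))))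 (.rp 9 (.thr 42 0 (.thr 47 32 (.thr 15 31 (.thr 12 14 (.thr 29 46 (.thr 25 17 (.thr 59 8 (.dbl 51 38 55)))))))) (.rp 3 (.thr 9 1 (.thr 25 41 (.thr 17 29 (.thr 0 42 (.thr 51 34 (.thr 55 59 (.dbl 38 4 12))))))) (.rp 1 (.thr 42 0 (.thr 47 32 (.thr 15 31 (.thr 12 14 (.thr 46 29 (.thr 38 34 (.thr 55 4 (.dbl 51 25 59)))))))) (.rp 0 (.str 25 (.nv (.dbl 9 1 41) (.rp 41 (.thr 29 17 (.thr 12 46 (.thr 15 14 (.thr 47 31 (.thr 42 32 (.thr 59 8 (.dbl 51 38 55))))))) (.rp 9 (.thr 29 17 (.thr 12 46 (.thr 15 14 (.thr 47 31 (.thr 42 32 (.thr 59 8 (.dbl 51 38 55))))))) (.rp 1 (.thr 41 9 (.thr 29 17 (.thr 33 45 (.thr 12 46 (.thr 15 14 (.thr 47 31 (.thr 42 32 (.thr 59 8 (.dbl 51 38 55))))))))) .nd))))) .nd)))))))))) (.rp 57 (.str 61 (.nv (.dbl 1 9 41) (.rp 41 (.thr 29 45 (.thr 12 46 (.thr 15 14 (.dbl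 0 10 42)))) (.rp 9 (.thr 45 29 (.dbl 41 1 33)) (.rp 1 (.thr 29 45 (.thr 12 46 (.thr 15 14 (.dbl 0 10 42)))) .nd))))) (.rp 42 (.thr 1 9 (.thr 61 41 (.thr 29 45 (.thr 25 17 (.thr 12 46 (.thr 38 51 (.thr 4 55 (.thr 0 8 (.dbl 15 10 14))))))))) (.rp 41 (.thr 42 0 (.thr 47 32 (.thr 15 31 (.thr 12 14 (.thr 29 46 (.thr 25 17 (.thr 59 8 (.dbl 51 38 55)))))))) (.rp 15 (.thr 1 9 (.thr 0 42 (.thr 3 2 (.thr 23 43 (.thr 22 20 (.dbl 41 60 61)))))) (.rp 9 (.thr 42 0 (.thr 47 32 (.thr 15 31 (.thr 12 14 (.thr 29 46 (.thr 25 17 (.thr 59 8 (.dbl 51 38 55)))))))) (.rp 3 (.thr 42 0 (.thr 47 32 (.thr 15 31 (.thr 1 9 (.thr 12 14 (.thr 61 41 (.dbl 29 45 46))))))) (.rp 1 (.thr 42 0 (.thr 47 32 (.thr 15 31 (.thr 12 14 (.thr 46 29 (.thr 38 34 (.thr 55 4 (.dbl 51 25 59)))))))) (.rp 0 (.thr 1 9 (.thr 61 41 (.thr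 29 45 (.thr 25 17 (.thr 12 46 (.thr 51 38 (.thr 59 55 (.thr 42 8 (.thr 47 32 (.dbl 15 14 31)))))))))) .nd)))))))))))) (.rp 45 (.str 63 (.nv (.thr 0 42 (.thr 10 15 (.thr 1 9 (.thr 3 2 (.thr 23 43 (.thr 22 20 (.dbl 41 60 61))))))) (.nv (.thr 25 49 (.thr 17 29 (.thr 0 42 (.thr 51 34 (.thr 55 59 (.dbl 38 4 12)))))) (.rp 61 (.thr 42 0 (.thr 47 32 (.thr 15 31 (.thr 12 14 (.thr 29 46 (.dbl 25 17 49)))))) (.rp 42 (.thr 25 49 (.thr 29 17 (.thr 12 46 (.thr 38 51 (.thr 4 55 (.thr 0 8 (.dbl 15 10 14))))))) (.rp 10 (.thr 25 49 (.thr 29 17 (.thr 12 46 (.thr 51 38 (.thr 59 55 (.dbl 42 0 8)))))) (.rp 0 (.thr 25 49 (.thr 29 17 (.thr 12 46 (.thr 51 38 (.thr 59 55 (.thr 42 8 (.thr 47 32 (.dbl 15 14 31)))))))) .nd))))))) (.rp 41 (.str 63 (.nv (.thr 42 0 (.thr 47 32 (.thr 15 31 (.thr 12 14 (.thr 29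 46 (.dbl 25 17 49)))))) (.nv (.thr 25 49 (.thr 29 17 (.thr 12 46 (.thr 42 0 (.thr 59 8 (.dbl 51 38 55)))))) (.rp 56 (.str 11 (.nv (.thr 25 49 (.thr 29 17 (.thr 12 46 (.thr 15 14 (.dbl 0 10 42))))) (.nv (.thr 9 1 (.thr 10 8 (.dbl 0 15 42))) (.rp 42 (.thr 9 1 (.thr 25 49 (.thr 10 8 (.thr 15 0 (.thr 12 14 (.dbl 29 17 46)))))) (.rp 15 (.thr 9 1 (.thr 25 49 (.thr 8 10 (.dbl 42 0 59)))) (.rp 10 (.thr 25 49 (.thr 29 17 (.thr 46 12 (.thr 42 0 (.thr 47 32 (.dbl 45 44 61)))))) (.rp 1 (.thr 25 49 (.thr 17 29 (.thr 0 42 (.thr 51 34 (.thr 55 59 (.dbl 38 4 12)))))) (.rp 0 (.thr 25 49 (.thr 29 17 (.thr 12 46 (.thr 15 14 (.thr 31 47 (.thr 30 28 (.dbl 45 60 61))))))) .nd)))))))) (.rp 49 (.thr 42 0 (.thr 47 32 (.thr 15 31 (.thr 12 14 (.thr 29 46 (.thr 25 17 (.thr 59 8 (.dbl 51 38 55)))))))) (.rp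 46 (.thr 25 49 (.thr 17 29 (.thr 0 42 (.thr 51 34 (.thr 38 12 (.dbl 55 4 59)))))) (.rp 42 (.thr 25 49 (.thr 29 17 (.thr 12 46 (.thr 38 51 (.thr 4 55 (.thr 0 8 (.dbl 15 10 14))))))) (.rp 38 (.thr 25 49 (.thr 29 17 (.thr 12 46 (.thr 42 0 (.thr 47 32 (.dbl 15 14 31)))))) (.rp 29 (.thr 25 49 (.thr 42 0 (.thr 47 32 (.thr 15 31 (.thr 12 14 (.thr 59 8 (.dbl 51 38 55))))))) (.rp 25 (.thr 42 0 (.thr 47 32 (.thr 15 31 (.thr 12 14 (.thr 46 29 (.thr 38 34 (.thr 55 4 (.thr 51 59 (.dbl 39 27 36))))))))) (.rp 17 (.thr 25 49 (.thr 42 0 (.thr 47 32 (.thr 15 31 (.thr 12 14 (.thr 46 29 (.dbl 38 34 51))))))) (.rp 12 (.thr 25 49 (.thr 17 29 (.thr 0 42 (.thr 51 34 (.thr 55 59 (.thr 38 4 (.thr 39 36 (.dbl 15 10 27)))))))) (.rp 11 (.str 56 (.nv (.thr 25 49 (.thr 29 17 (.thr 42 0 (.thr 46 12 (.thr 47 32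 (.dbl 45 44 61)))))) (.nv (.thr 42 0 (.thr 47 32 (.thr 15 31 (.thr 12 14 (.thr 29 46 (.dbl 25 17 49)))))) (.nv (.thr 0 42 (.thr 25 49 (.thr 29 17 (.thr 12 46 (.dbl 15 10 14))))) (.rp 49 (.thr 42 0 (.thr 47 32 (.thr 15 31 (.thr 12 14 (.thr 46 29 (.thr 38 34 (.thr 55 4 (.dbl 51 25 59)))))))) (.rp 46 (.thr 0 42 (.thr 25 49 (.thr 17 29 (.thr 51 34 (.thr 38 12 (.dbl 55 4 59)))))) (.rp 42 (.thr 25 49 (.thr 29 17 (.thr 12 46 (.thr 15 14 (.thr 31 47 (.thr 30 28 (.dbl 45 60 61))))))) (.rp 29 (.thr 42 0 (.thr 47 32 (.thr 15 31 (.thr 12 14 (.thr 25 49 (.thr 59 8 (.dbl 51 38 55))))))) (.rp 25 (.thr 42 0 (.thr 47 32 (.thr 15 31 (.thr 12 14 (.thr 46 29 (.thr 38 34 (.thr 55 4 (.thr 39 36 (.dbl 51 27 59))))))))) (.rp 17 (.thr 42 0 (.thr 47 32 (.thr 15 31 (.thr 12 14 (.thr 46 29 (.thr 25 49 (.dbl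 38 34 51))))))) (.rp 12 (.thr 0 42 (.thr 25 49 (.thr 29 17 (.thr 61 45 (.thr 60 62 (.thr 52 48 (.thr 22 7 (.dbl 20 23 40)))))))) (.rp 0 (.thr 25 49 (.thr 29 17 (.thr 12 46 (.thr 15 14 (.thr 31 47 (.thr 30 28 (.dbl 45 60 61))))))) .nd)))))))))))) (.rp 0 (.thr 25 49 (.thr 29 17 (.thr 12 46 (.thr 15 14 (.thr 31 47 (.thr 30 28 (.dbl 45 60 61))))))) .nd)))))))))))))) (.rp 29 (.thr 1 9 (.thr 41 61 (.thr 33 45 (.dbl 49 17 25)))) (.rp 25 (.thr 1 9 (.thr 41 61 (.thr 33 45 (.thr 49 17 (.str 3 (.nv (.thr 0 2 (.thr 42 63 (.thr 60 22 (.dbl 40 20 43)))) (.nv (.thr 0 2 (.thr 42 63 (.thr 32 47 (.dbl 48 16 18)))) (.nv (.thr 22 60 (.thr 23 20 (.thr 63 43 (.dbl 0 2 42)))) (.rp 63 (.thr 0 2 (.thr 60 22 (.thr 40 20 (.thr 42 43 (.thr 32 47 (.dbl 48 16 18)))))) (.rp 60 (.thr 0 2 (.thr 63 42 (.thr 23 43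 (.thr 22 20 (.thr 7 52 (.dbl 15 10 11)))))) (.rp 42 (.thr 0 2 (.thr 22 60 (.thr 7 52 (.dbl 15 10 11)))) (.rp 27 (.str 24 (.nv (.thr 0 2 (.thr 42 63 (.thr 32 47 (.dbl 48 16 18)))) (.nv (.thr 48 18 (.thr 36 12 (.thr 38 39 (.thr 51 50 (.dbl 35 19 44))))) (.nv (.thr 0 2 (.thr 22 60 (.thr 23 20 (.dbl 63 42 43)))) (.rp 2 (.thr 48 18 (.thr 12 36 (.thr 22 60 (.thr 7 52 (.dbl 15 11 14))))) .nd))))) (.rp 24 (.str 27 (.nv (.thr 0 2 (.thr 15 10 (.thr 14 12 (.thr 51 39 (.dbl 48 18 50))))) (.nv (.thr 22 60 (.thr 23 20 (.thr 63 43 (.dbl 0 2 42)))) (.nv (.thr 48 18 (.thr 51 50 (.thr 39 15 (.thr 38 36 (.dbl 35 19 44))))) (.nv (.thr 0 2 (.thr 42 63 (.thr 40 43 (.dbl 60 20 22)))) (.rp 2 (.thr 48 18 (.thr 22 60 (.thr 7 52 (.thr 15 11 (.dbl 51 39 50))))) .nd)))))) (.rp 2 (.thr 22 60 (.thr 7 52 (.thr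 15 11 (.thr 23 20 (.thr 63 43 (.dbl 0 10 42)))))) (.rp 0 (.thr 48 18 (.thr 51 50 (.thr 19 35 (.thr 22 60 (.thr 7 52 (.thr 15 11 (.thr 27 39 (.dbl 23 20 31)))))))) .nd))))))))))))))) (.rp 17 (.str 63 (.nv (.thr 1 9 (.thr 42 0 (.thr 47 32 (.thr 15 31 (.thr 61 41 (.thr 29 45 (.dbl 12 14 46))))))) (.nv (.thr 0 42 (.thr 10 15 (.thr 1 9 (.thr 3 2 (.thr 23 43 (.thr 22 20 (.dbl 41 60 61))))))) (.rp 61 (.thr 1 9 (.thr 0 42 (.thr 3 2 (.thr 23 43 (.thr 22 20 (.thr 7 52 (.dbl 15 10 11))))))) (.rp 42 (.thr 25 49 (.thr 1 9 (.thr 61 41 (.thr 29 45 (.thr 12 46 (.thr 38 51 (.thr 4 55 (.thr 0 8 (.dbl 15 10 14))))))))) (.rp 41 (.thr 25 49 (.thr 42 0 (.thr 47 32 (.thr 15 31 (.thr 12 14 (.thr 46 29 (.dbl 38 34 51))))))) (.rp 15 (.thr 1 9 (.thr 41 61 (.thr 0 42 (.thr 3 2 (.thr 23 43 (.dbl 22 20 60))))))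 (.rp 9 (.thr 25 49 (.thr 42 0 (.thr 47 32 (.thr 15 31 (.thr 12 14 (.thr 46 29 (.dbl 38 34 51))))))) (.rp 3 (.thr 25 49 (.thr 42 0 (.thr 47 32 (.thr 15 31 (.thr 12 14 (.thr 46 29 (.dbl 38 34 51))))))) (.rp 1 (.thr 42 0 (.thr 47 32 (.thr 15 31 (.thr 12 14 (.thr 46 29 (.thr 38 34 (.thr 51 25 (.dbl 39 27 36)))))))) (.rp 0 (.thr 25 49 (.thr 1 9 (.thr 61 41 (.thr 29 45 (.thr 12 46 (.thr 51 38 (.thr 59 55 (.thr 42 8 (.thr 47 32 (.dbl 15 14 31)))))))))) .nd))))))))))) (.rp 9 (.thr 25 49 (.thr 29 17 (.thr 61 45 (.str 12 (.nv (.thr 38 51 (.thr 4 55 (.thr 63 46 (.dbl 0 8 42)))) (.nv (.thr 1 41 (.thr 15 14 (.thr 38 51 (.thr 4 55 (.dbl 0 8 10))))) (.nv (.thr 63 46 (.thr 0 42 (.dbl 15 10 14))) (.rp 63 (.thr 1 41 (.thr 15 14 (.thr 0 10 (.thr 2 3 (.thr 38 51 (.dbl 4 8 55)))))) (.rp 38 (.thr 63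 46 (.thr 42 0 (.thr 47 32 (.dbl 15 14 31)))) (.rp 34 (.thr 15 14 (.thr 63 46 (.dbl 0 10 42))) (.rp 1 (.str 33 (.nv (.thr 38 51 (.thr 4 55 (.thr 63 46 (.dbl 0 8 42)))) (.nv (.thr 15 14 (.thr 38 51 (.thr 4 55 (.dbl 0 8 10)))) (.nv (.thr 63 46 (.thr 0 42 (.dbl 15 10 14))) (.rp 63 (.thr 15 14 (.thr 38 51 (.thr 36 39 (.thr 48 24 (.thr 3 18 (.thr 7 11 (.thr 22 52 (.thr 41 60 (.thr 44 35 (.thr 32 40 (.dbl 0 10 16))))))))))) (.rp 38 (.thr 63 46 (.thr 42 0 (.thr 47 32 (.dbl 15 14 31)))) (.rp 34 (.thr 15 14 (.thr 63 46 (.dbl 0 10 42))) (.rp 0 (.thr 15 14 (.thr 63 46 (.thr 47 31 (.thr 42 32 (.thr 59 8 (.dbl 51 38 55)))))) .nd)))))))) (.rp 0 (.thr 15 14 (.thr 63 46 (.thr 47 31 (.thr 42 32 (.thr 59 8 (.dbl 51 38 55)))))) .nd)))))))))))) (.rp 1 (.thr 25 49 (.thr 17 29 (.str 51 (.nv (.thr 0 34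 (.thr 38 12 (.thr 55 4 (.dbl 63 42 59)))) (.nv (.thr 0 34 (.thr 15 10 (.dbl 12 14 38))) (.rp 61 (.str 57 (.nv (.thr 0 34 (.thr 60 54 (.thr 20 40 (.thr 22 23 (.dbl 41 3 9))))) (.nv (.thr 0 34 (.thr 15 10 (.dbl 12 14 38))) (.rp 38 (.thr 9 41 (.thr 0 34 (.thr 10 15 (.thr 42 63 (.dbl 8 11 59))))) (.rp 34 (.thr 41 9 (.thr 45 33 (.thr 60 54 (.thr 15 30 (.dbl 12 14 38))))) (.rp 0 (.thr 41 9 (.thr 45 33 (.thr 60 54 (.thr 15 30 (.dbl 12 14 38))))) .nd)))))) (.rp 57 (.str 61 (.nv (.thr 0 34 (.thr 38 12 (.thr 55 4 (.dbl 63 42 59)))) (.nv (.thr 0 34 (.thr 15 10 (.dbl 12 14 38))) (.rp 42 (.thr 0 34 (.thr 38 12 (.thr 39 36 (.dbl 15 10 27)))) (.rp 38 (.thr 0 34 (.thr 15 10 (.thr 42 63 (.thr 8 59 (.dbl 12 4 14))))) (.rp 34 (.thr 38 12 (.thr 55 4 (.thr 63 59 (.thr 0 42 (.thr 39 36 (.dbl 15 10 27))))))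 (.rp 12 (.thr 0 34 (.thr 15 10 (.thr 39 27 (.thr 38 36 (.thr 55 4 (.dbl 63 42 59)))))) (.rp 0 (.str 3 (.nv (.thr 38 12 (.thr 39 36 (.thr 15 27 (.thr 7 11 (.dbl 55 4 23))))) (.nv (.thr 19 35 (.thr 18 16 (.thr 22 28 (.thr 41 60 (.dbl 33 45 48))))) (.nv (.thr 19 35 (.thr 22 28 (.thr 20 23 (.thr 52 7 (.thr 4 36 (.dbl 38 12 55)))))) (.rp 12 (.thr 19 35 (.thr 22 28 (.thr 60 41 (.thr 63 62 (.dbl 23 20 43))))) .nd))))) .nd)))))))) (.rp 42 (.thr 0 34 (.thr 38 12 (.thr 39 36 (.dbl 15 10 27)))) (.rp 38 (.thr 0 34 (.thr 15 10 (.thr 42 63 (.thr 8 59 (.dbl 12 4 14))))) (.rp 34 (.thr 38 12 (.thr 55 4 (.thr 63 59 (.thr 0 42 (.thr 39 36 (.dbl 15 10 27)))))) (.rp 12 (.thr 0 34 (.thr 15 10 (.thr 39 27 (.thr 38 36 (.thr 55 4 (.dbl 63 42 59)))))) (.rp 0 (.str 3 (.nv (.thr 38 12 (.thr 39 36 (.thr 15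 27 (.thr 7 11 (.dbl 55 4 23))))) (.nv (.thr 19 35 (.thr 22 28 (.thr 23 20 (.thr 63 43 (.thr 55 59 (.dbl 7 39 52)))))) (.nv (.thr 35 19 (.thr 38 12 (.thr 41 44 (.thr 57 9 (.dbl 60 22 54))))) (.rp 63 (.thr 19 35 (.thr 18 16 (.thr 22 28 (.thr 41 60 (.dbl 33 45 48))))) (.rp 61 (.str 57 (.nv (.thr 35 19 (.thr 38 12 (.dbl 41 9 44))) (.nv (.thr 41 9 (.dbl 60 22 54)) (.rp 41 (.thr 35 19 (.thr 38 12 (.thr 39 36 (.thr 43 47 (.thr 63 23 (.dbl 55 4 59)))))) (.rp 9 (.thr 19 35 (.thr 60 54 (.dbl 22 28 41))) .nd))))) (.rp 57 (.str 61 (.nv (.thr 38 12 (.thr 39 36 (.thr 15 27 (.thr 7 11 (.dbl 55 4 23))))) (.nv (.thr 19 35 (.thr 18 16 (.thr 22 28 (.thr 41 60 (.dbl 33 45 48))))) (.nv (.thr 19 35 (.thr 22 28 (.thr 20 23 (.thr 52 7 (.thr 4 36 (.dbl 38 12 55)))))) (.rp 12 (.thr 19 35 (.thr 22 28 (.thr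 60 41 (.thr 63 62 (.dbl 23 20 43))))) .nd))))) .nd))))))) .nd)))))))))))) .nd))))))))))))

theorem w502 : WinAt (137441050656, 9007199321849920) :=
  chF (K := []) kn c502 137441050656 9007199321849920 53
    [] (by decide +kernel) (by decide +kernel)

end Pool.Agent.TTT.B43
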