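import Pool.Agent.TTT.B43

/-!
Certified forced wins in positions of the 4 x 4 x 4 board.
-/

set_option autoImplicit false
set_option maxRecDepth 1000000
set_option linter.all false

namespace Pool.Agent.TTT.B43

/-- A certificate. -/
noncomputable def c503 : Ct := (.str 1 (.nv (.thr 13 9 (.thr 41 61 (.thr 49 25 (.dbl 33 17 45)))) (.nv (.thr 13 9 (.thr 25 49 (.thr 29 17 (.dbl 61 41 45)))) (.rp 61 (.thr 13 9 (.thr 49 25 (.thr 33 17 (.thr 41 45 (.str 0 (.nv (.thr 3 2 (.thr 48 18 (.thr 42 63 (.dbl 32 16 47)))) (.nv (.thr 42 63 (.thr 32 47 (.thr 35 34 (.thr 44 38 (.dbl 40 36 43))))) (.nv (.thr 3 2 (.thr 22 60 (.thr 23 20 (.dbl 63 42 43)))) (.rp 63 (.thr 3 2 (.thr 60 22 (.thr 40 20 (.thr 42 43 (.thr 32 47 (.dbl 48 16 18)))))) (.rp 62 (.thr 3 2 (.thr 60 22 (.thr 42 63 (.dbl 40 20 43))))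 (.rp 60 (.thr 2 3 (.thr 42 63 (.thr 62 22 (.thr 32 47 (.thr 48 16 (.thr 50 51 (.dbl 34 18 35))))))) (.rp 42 (.thr 3 2 (.thr 22 60 (.thr 20 23 (.thr 48 18 (.thr 16 32 (.thr 24 28 (.thr 12 36 (.dbl 15 10 14)))))))) (.rp 27 (.str 24 (.nv (.thr 3 2 (.thr 48 18 (.thr 16 32 (.thr 20 28 (.dbl 22 23 60))))) (.nv (.thr 15 10 (.thr 42 63 (.thr 32 47 (.thr 48 16 (.dbl 12 14 36))))) (.nv (.thr 15 10 (.thr 12 14 (.thr 48 36 (.dbl 3 2 18)))) (.nv (.thr 3 2 (.thr 22 60 (.thr 23 20 (.dbl 63 42 43)))) .nd))))) (.rp 24 (.str 27 (.nv (.thr 15 10 (.thr 39 51 (.thr 12 14 (.thr 38 36 (.dbl 4 8 55))))) (.nv (.thr 3 2 (.thr 42 63 (.thr 40 43 (.dbl 60 20 22)))) (.rp 58 (.thr 3 2 (.thr 48 18 (.thr 42 63 (.dbl 32 16 47)))) (.rp 42 (.thr 3 2 (.thr 48 18 (.thr 22 60 (.thr 23 20 (.thr 19 31 (.dbl 51 35 50))))))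 (.rp 2 (.thr 15 10 (.thr 51 39 (.thr 48 50 (.thr 32 16 (.dbl 42 47 63))))) .nd)))))) .nd)))))))))))))) (.rp 49 (.str 0 (.nv (.thr 13 9 (.thr 15 10 (.thr 61 41 (.thr 45 29 (.thr 60 30 (.dbl 63 42 62)))))) (.nv (.thr 3 2 (.thr 63 42 (.thr 23 43 (.thr 22 20 (.dbl 41 60 61))))) (.nv (.thr 3 2 (.thr 9 13 (.thr 10 15 (.thr 12 6 (.dbl 8 4 11))))) (.rp 61 (.str 57 (.nv (.thr 9 13 (.thr 25 41 (.thr 42 63 (.thr 8 59 (.dbl 10 11 15))))) (.nv (.thr 3 2 (.thr 63 42 (.thr 23 43 (.thr 22 20 (.thr 41 60 (.dbl 9 13 25)))))) (.nv (.thr 3 2 (.thr 9 13 (.thr 10 15 (.thr 12 6 (.dbl 8 4 11))))) (.rp 13 (.thr 3 2 (.thr 10 15 (.thr 63 42 (.thr 23 43 (.thr 22 20 (.thr 41 60 (.thr 9 25 (.thr 12 6 (.dbl 8 4 11))))))))) (.rp 10 (.thr 9 13 (.thr 25 41 (.thr 3 2 (.thr 42 63 (.thr 8 59 (.dbl 12 4 6)))))) (.rp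 9 (.thr 3 2 (.thr 42 63 (.thr 32 47 (.thr 48 16 (.thr 33 18 (.thr 41 45 (.thr 40 43 (.dbl 60 20 22)))))))) .nd))))))) (.rp 57 (.thr 61 41 (.thr 9 13 (.thr 3 2 (.thr 12 6 (.thr 8 4 (.dbl 10 11 15)))))) (.rp 10 (.thr 3 2 (.thr 42 63 (.thr 32 47 (.thr 48 16 (.thr 33 18 (.dbl 41 45 61)))))) .nd))))))) (.rp 45 (.str 0 (.nv (.thr 3 2 (.thr 63 42 (.thr 23 43 (.thr 22 20 (.dbl 41 60 61))))) (.nv (.thr 9 13 (.thr 3 2 (.thr 12 6 (.thr 8 4 (.dbl 10 11 15))))) (.rp 61 (.thr 13 9 (.thr 15 10 (.thr 12 14 (.thr 8 4 (.thr 42 63 (.dbl 25 49 59)))))) (.rp 10 (.thr 41 61 (.thr 3 2 (.thr 60 22 (.thr 40 20 (.dbl 42 43 63))))) (.rp 3 (.thr 13 9 (.thr 25 49 (.thr 17 29 (.thr 51 34 (.thr 12 38 (.dbl 15 10 14)))))) (.rp 2 (.thr 13 9 (.thr 25 49 (.thr 17 29 (.thr 51 34 (.thr 12 38 (.dbl 15 10 14))))))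 .nd))))))) (.rp 41 (.str 0 (.nv (.thr 13 9 (.thr 15 10 (.thr 25 49 (.thr 17 29 (.thr 51 34 (.dbl 12 14 38)))))) (.nv (.thr 3 2 (.thr 42 63 (.thr 32 47 (.thr 48 16 (.thr 33 18 (.thr 17 49 (.dbl 34 35 51))))))) (.nv (.thr 9 13 (.thr 3 2 (.thr 12 6 (.thr 10 15 (.dbl 8 4 11))))) (.rp 56 (.str 11 (.nv (.thr 10 15 (.dbl 9 8 13)) (.rp 15 (.thr 3 2 (.thr 9 13 (.thr 8 10 (.dbl 12 4 6)))) (.rp 13 (.thr 3 2 (.thr 42 63 (.thr 32 47 (.thr 48 16 (.thr 33 18 (.thr 34 35 (.dbl 17 49 51))))))) (.rp 10 (.thr 3 2 (.thr 13 9 (.thr 42 63 (.thr 32 47 (.thr 48 16 (.thr 33 18 (.dbl 49 17 25))))))) (.rp 9 (.thr 3 2 (.thr 42 63 (.thr 32 47 (.thr 48 16 (.thr 33 18 (.thr 34 35 (.dbl 17 49 51))))))) (.rp 8 (.thr 15 10 (.thr 13 9 (.thr 25 49 (.thr 12 14 (.thr 17 29 (.dbl 51 34 38)))))) .nd))))))) (.rp 15 (.thr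 13 9 (.thr 25 49 (.thr 17 29 (.thr 51 34 (.thr 12 38 (.thr 8 4 (.dbl 42 59 63))))))) (.rp 11 (.str 56 (.nv (.thr 13 9 (.thr 25 49 (.thr 17 29 (.thr 51 34 (.thr 12 38 (.dbl 15 10 14)))))) (.nv (.thr 3 2 (.thr 42 63 (.thr 32 47 (.thr 48 16 (.thr 33 18 (.thr 17 49 (.dbl 34 35 51))))))) (.nv (.thr 3 2 (.thr 9 13 (.thr 12 6 (.thr 8 4 (.thr 24 40 (.thr 42 63 (.thr 48 36 (.dbl 32 16 47)))))))) (.rp 42 (.thr 13 9 (.thr 25 49 (.thr 17 29 (.thr 51 34 (.thr 38 12 (.thr 39 36 (.dbl 15 10 27))))))) (.rp 3 (.thr 15 10 (.thr 42 63 (.thr 32 47 (.thr 48 16 (.thr 60 52 (.thr 40 20 (.thr 36 44 (.dbl 24 8 12)))))))) .nd)))))) .nd))))))) (.rp 25 (.thr 41 61 (.thr 33 45 (.thr 13 9 (.thr 49 17 (.str 0 (.nv (.thr 3 2 (.thr 48 18 (.thr 42 63 (.dbl 32 16 47)))) (.nv (.thr 42 63 (.thr 32 47 (.thr 35 34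 (.thr 44 38 (.dbl 40 36 43))))) (.nv (.thr 3 2 (.thr 22 60 (.thr 23 20 (.dbl 63 42 43)))) (.rp 63 (.thr 3 2 (.thr 60 22 (.thr 40 20 (.thr 42 43 (.thr 32 47 (.dbl 48 16 18)))))) (.rp 62 (.thr 3 2 (.thr 60 22 (.thr 42 63 (.dbl 40 20 43)))) (.rp 60 (.thr 2 3 (.thr 42 63 (.thr 62 22 (.thr 32 47 (.thr 48 16 (.thr 50 51 (.dbl 34 18 35))))))) (.rp 42 (.thr 3 2 (.thr 22 60 (.thr 20 23 (.thr 48 18 (.thr 16 32 (.thr 24 28 (.thr 12 36 (.dbl 15 10 14)))))))) (.rp 27 (.str 24 (.nv (.thr 3 2 (.thr 48 18 (.thr 16 32 (.thr 20 28 (.dbl 22 23 60))))) (.nv (.thr 15 10 (.thr 42 63 (.thr 32 47 (.thr 48 16 (.dbl 12 14 36))))) (.nv (.thr 15 10 (.thr 12 14 (.thr 48 36 (.dbl 3 2 18)))) (.nv (.thr 3 2 (.thr 22 60 (.thr 23 20 (.dbl 63 42 43)))) .nd))))) (.rp 24 (.str 27 (.nv (.thr 15 10 (.thr 39 51 (.thr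 12 14 (.thr 38 36 (.dbl 4 8 55))))) (.nv (.thr 3 2 (.thr 42 63 (.thr 40 43 (.dbl 60 20 22)))) (.rp 58 (.thr 3 2 (.thr 48 18 (.thr 42 63 (.dbl 32 16 47)))) (.rp 42 (.thr 3 2 (.thr 48 18 (.thr 22 60 (.thr 23 20 (.thr 19 31 (.dbl 51 35 50)))))) (.rp 2 (.thr 15 10 (.thr 51 39 (.thr 48 50 (.thr 32 16 (.dbl 42 47 63))))) .nd)))))) .nd)))))))))))))) (.rp 17 (.str 0 (.nv (.thr 3 2 (.thr 41 61 (.thr 22 60 (.thr 23 20 (.dbl 63 42 43))))) (.nv (.thr 3 2 (.thr 9 13 (.thr 10 15 (.thr 12 6 (.dbl 8 4 11))))) (.rp 3 (.thr 13 9 (.thr 25 49 (.thr 15 10 (.thr 12 14 (.thr 8 4 (.dbl 42 59 63)))))) (.rp 2 (.thr 13 9 (.thr 25 49 (.thr 15 10 (.thr 42 63 (.thr 8 59 (.dbl 12 4 14)))))) .nd))))) (.rp 13 (.str 42 (.nv (.thr 0 63 (.thr 3 2 (.thr 32 47 (.thr 48 16 (.thr 33 18 (.thr 34 35 (.dbl 17 49 51)))))))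 (.nv (.thr 0 63 (.thr 3 2 (.thr 15 10 (.thr 41 61 (.thr 45 33 (.dbl 60 22 30)))))) (.nv (.thr 41 61 (.thr 45 33 (.thr 43 40 (.thr 47 32 (.thr 44 46 (.dbl 35 38 39)))))) (.rp 49 (.thr 32 47 (.thr 0 63 (.thr 3 2 (.thr 48 16 (.thr 33 18 (.dbl 41 45 61)))))) (.rp 33 (.thr 0 63 (.thr 3 2 (.thr 41 61 (.thr 40 43 (.dbl 60 20 22))))) .nd)))))) (.rp 9 (.str 0 (.nv (.thr 15 10 (.thr 41 61 (.thr 42 63 (.thr 40 43 (.thr 45 33 (.dbl 60 20 30)))))) (.nv (.thr 3 2 (.thr 42 63 (.thr 32 47 (.thr 48 16 (.thr 33 18 (.dbl 41 45 61)))))) (.nv (.thr 3 2 (.thr 41 61 (.thr 22 60 (.thr 23 20 (.dbl 63 42 43))))) (.rp 63 (.thr 41 61 (.thr 45 33 (.thr 3 2 (.thr 60 22 (.dbl 15 10 30))))) (.rp 61 (.thr 3 2 (.thr 42 63 (.thr 32 47 (.thr 48 16 (.thr 33 18 (.thr 34 35 (.dbl 17 49 51))))))) (.rp 42 (.thr 41 61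 (.thr 33 45 (.thr 3 2 (.thr 48 18 (.thr 32 16 (.thr 34 35 (.dbl 17 49 51))))))) (.rp 41 (.thr 3 2 (.thr 42 63 (.thr 32 47 (.thr 48 16 (.thr 33 18 (.thr 17 49 (.dbl 34 35 51))))))) (.rp 3 (.thr 41 61 (.thr 33 45 (.thr 42 63 (.thr 32 47 (.thr 34 35 (.dbl 17 49 51)))))) .nd))))))))) .nd)))))))))))

theorem w503 : WinAt (137441050656, 9007199321849984) :=
  chF (K := []) kn c503 137441050656 9007199321849984 53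
    [] (by decide +kernel) (by decide +kernel)

/-- A certificate. -/
noncomputable def c504 : Ct := (.str 13 (.nv (.thr 1 9 (.thr 25 49 (.thr 61 41 (.dbl 29 17 45)))) (.nv (.thr 25 49 (.thr 29 17 (.thr 61 45 (.dbl 1 9 41)))) (.rp 61 (.str 7 (.nv (.thr 49 25 (.thr 4 6 (.thr 38 55 (.thr 52 22 (.dbl 36 20 39))))) (.nv (.thr 4 6 (.thr 22 52 (.thr 23 20 (.dbl 55 38 39)))) (.rp 55 (.thr 9 1 (.thr 25 49 (.thr 57 41 (.thr 6 4 (.thr 12 3 (.thr 38 51 (.dbl 22 52 54))))))) (.rp 52 (.thr 9 1 (.thr 25 49 (.thr 57 41 (.thr 17 29 (.thr 6 4 (.thr 12 3 (.thr 51 38 (.thr 0 34 (.dbl 15 10 14))))))))) (.rp 49 (.str 57 (.nv (.thr 9 1 (.thr 22 52 (.thr 41 25 (.thr 3 60 (.thr 12 6 (.dbl 15 11 14)))))) (.nv (.thr 4 6 (.thr 22 52 (.thr 23 20 (.dbl 55 38 39)))) (.rp 55 (.thr 9 1 (.thr 41 25 (.thr 6 4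 (.thr 22 52 (.thr 54 38 (.dbl 3 12 60)))))) (.rp 54 (.thr 4 6 (.thr 55 38 (.thr 22 52 (.dbl 23 20 39)))) (.rp 52 (.thr 9 1 (.thr 25 41 (.thr 17 29 (.thr 6 4 (.thr 12 3 (.thr 51 38 (.thr 0 34 (.dbl 15 10 14)))))))) (.rp 22 (.thr 9 1 (.thr 41 25 (.thr 33 45 (.thr 4 6 (.thr 38 55 (.thr 39 36 (.thr 35 44 (.thr 47 43 (.dbl 32 34 42))))))))) (.rp 6 (.thr 9 1 (.thr 41 25 (.thr 22 52 (.thr 23 20 (.thr 3 60 (.thr 63 43 (.thr 15 11 (.dbl 0 10 42)))))))) .nd)))))))) (.rp 39 (.thr 9 1 (.thr 25 49 (.thr 57 41 (.thr 6 4 (.thr 12 3 (.thr 38 51 (.dbl 22 52 54))))))) (.rp 38 (.thr 1 9 (.thr 49 25 (.thr 33 17 (.thr 41 45 (.thr 22 52 (.thr 3 60 (.thr 0 2 (.dbl 15 10 11)))))))) (.rp 22 (.thr 1 9 (.thr 49 25 (.thr 33 17 (.thr 41 45 (.thr 4 6 (.thr 38 55 (.thr 39 36 (.thr 35 44 (.thr 47 43 (.dbl 32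 34 42)))))))))) (.rp 20 (.thr 9 1 (.thr 25 49 (.thr 57 41 (.thr 6 4 (.thr 12 3 (.thr 38 51 (.dbl 22 52 54))))))) (.rp 6 (.thr 1 9 (.thr 49 25 (.thr 33 17 (.thr 41 45 (.thr 22 52 (.thr 3 60 (.thr 0 2 (.dbl 15 10 11)))))))) (.rp 4 (.thr 1 9 (.thr 49 25 (.thr 33 17 (.thr 41 45 (.thr 22 52 (.thr 3 60 (.thr 0 2 (.dbl 15 10 11)))))))) .nd)))))))))))) (.rp 49 (.str 38 (.nv (.thr 36 39 (.thr 4 55 (.thr 52 20 (.dbl 7 6 22)))) (.rp 61 (.str 57 (.nv (.thr 4 55 (.thr 9 1 (.thr 25 41 (.thr 12 51 (.dbl 6 3 7))))) (.nv (.thr 36 39 (.thr 4 55 (.thr 52 20 (.dbl 7 6 22)))) (.rp 55 (.thr 9 1 (.thr 25 41 (.thr 12 51 (.thr 6 3 (.thr 7 4 (.dbl 22 52 54)))))) (.rp 52 (.thr 9 1 (.thr 25 41 (.thr 12 51 (.thr 6 3 (.dbl 4 7 55))))) (.rp 7 (.thr 39 36 (.thr 9 1 (.thr 25 41 (.thr 51 12 (.thr 15 27 (.thr 17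 29 (.dbl 0 10 34))))))) (.rp 6 (.thr 39 36 (.thr 9 1 (.thr 25 41 (.thr 51 12 (.thr 15 27 (.thr 17 29 (.dbl 0 10 34))))))) (.rp 4 (.thr 39 36 (.thr 9 1 (.thr 25 41 (.thr 17 29 (.thr 51 12 (.thr 0 34 (.dbl 15 10 27))))))) .nd)))))))) (.rp 57 (.str 61 (.nv (.dbl 1 9 41) (.rp 41 (.thr 36 39 (.thr 4 55 (.thr 52 20 (.dbl 7 6 22)))) (.rp 9 (.thr 45 29 (.dbl 41 1 33)) (.rp 1 (.thr 36 39 (.thr 4 55 (.thr 52 20 (.dbl 7 6 22)))) .nd))))) (.rp 55 (.thr 1 9 (.thr 61 41 (.thr 29 45 (.thr 25 17 (.thr 12 51 (.thr 63 46 (.thr 15 14 (.dbl 0 10 42)))))))) (.rp 52 (.thr 1 9 (.thr 61 41 (.thr 29 45 (.thr 25 17 (.thr 12 51 (.thr 63 46 (.thr 15 14 (.dbl 0 10 42)))))))) (.rp 39 (.thr 1 9 (.thr 61 41 (.thr 29 45 (.thr 25 17 (.thr 12 51 (.thr 63 46 (.thr 15 14 (.dbl 0 10 42)))))))) (.rp 36 (.thr 1 9 (.thr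 61 41 (.thr 29 45 (.thr 25 17 (.thr 12 51 (.thr 63 46 (.thr 15 14 (.dbl 0 10 42)))))))) (.rp 23 (.thr 36 39 (.thr 4 55 (.thr 7 6 (.dbl 52 20 22)))) (.rp 22 (.thr 39 36 (.thr 4 55 (.thr 6 7 (.thr 9 1 (.thr 12 3 (.thr 15 14 (.dbl 51 25 27))))))) (.rp 20 (.thr 39 36 (.thr 4 55 (.thr 6 7 (.thr 9 1 (.thr 12 3 (.thr 15 14 (.dbl 51 25 27))))))) (.rp 7 (.thr 1 9 (.thr 61 41 (.thr 29 45 (.thr 25 17 (.thr 12 51 (.thr 63 46 (.thr 15 14 (.dbl 0 10 42)))))))) (.rp 6 (.thr 1 9 (.thr 61 41 (.thr 29 45 (.thr 25 17 (.thr 12 51 (.thr 63 46 (.thr 15 14 (.dbl 0 10 42)))))))) (.rp 4 (.thr 1 9 (.thr 61 41 (.thr 29 45 (.thr 25 17 (.thr 12 51 (.thr 63 46 (.thr 15 14 (.dbl 0 10 42)))))))) .nd)))))))))))))) (.rp 45 (.str 7 (.nv (.thr 1 9 (.thr 22 52 (.thr 41 61 (.thr 3 60 (.thr 0 2 (.dbl 15 10 11))))))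 (.nv (.thr 4 6 (.thr 22 52 (.thr 23 20 (.dbl 55 38 39)))) (.rp 55 (.thr 9 1 (.thr 25 49 (.thr 6 4 (.thr 12 3 (.thr 38 51 (.dbl 22 52 54)))))) (.rp 54 (.thr 4 6 (.thr 55 38 (.thr 22 52 (.dbl 23 20 39)))) (.rp 52 (.thr 9 1 (.thr 25 49 (.thr 17 29 (.thr 6 4 (.thr 12 3 (.thr 51 38 (.thr 0 34 (.dbl 15 10 14)))))))) (.rp 22 (.thr 9 1 (.thr 25 49 (.thr 17 29 (.thr 6 4 (.thr 12 3 (.thr 51 38 (.thr 0 34 (.dbl 15 10 14)))))))) .nd))))))) (.rp 41 (.str 0 (.nv (.thr 25 49 (.thr 17 29 (.thr 51 34 (.thr 38 12 (.thr 55 4 (.dbl 63 42 59)))))) (.nv (.thr 1 9 (.thr 10 15 (.thr 2 3 (.thr 6 14 (.thr 7 4 (.thr 22 52 (.dbl 42 62 63))))))) (.nv (.thr 25 49 (.thr 17 29 (.thr 51 34 (.thr 15 10 (.dbl 12 14 38))))) (.rp 57 (.thr 9 1 (.thr 15 10 (.thr 12 14 (.thr 6 3 (.thr 4 7 (.thr 38 55 (.dbl 25 49 51)))))))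 (.rp 56 (.str 11 (.nv (.thr 15 10 (.thr 3 7 (.dbl 1 2 9))) (.nv (.thr 15 10 (.thr 25 49 (.thr 17 29 (.thr 51 34 (.dbl 12 14 38))))) (.nv (.thr 1 9 (.thr 3 2 (.dbl 15 7 10))) (.rp 40 (.str 24 (.nv (.thr 25 49 (.thr 17 29 (.thr 51 34 (.thr 12 38 (.dbl 15 10 14))))) (.nv (.thr 15 10 (.thr 3 7 (.dbl 1 2 9))) (.rp 43 (.thr 42 63 (.thr 1 9 (.thr 15 10 (.dbl 3 2 7)))) (.rp 42 (.str 43 (.nv (.thr 25 49 (.thr 17 29 (.thr 27 59 (.thr 51 34 (.dbl 15 10 39))))) (.nv (.thr 1 9 (.thr 3 2 (.dbl 15 7 10))) (.rp 59 (.thr 25 49 (.thr 1 9 (.thr 3 2 (.dbl 15 7 10)))) (.rp 58 (.thr 10 15 (.thr 25 49 (.thr 17 29 (.thr 59 27 (.thr 51 34 (.thr 38 12 (.dbl 55 4 63))))))) (.rp 57 (.thr 9 1 (.thr 49 25 (.thr 59 27 (.str 12 (.nv (.dbl 15 10 14) (.rp 58 (.thr 10 15 (.thr 48 36 (.thr 51 50 (.thr 63 55 (.dbl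 3 6 23))))) (.rp 15 (.thr 48 36 (.thr 51 50 (.thr 63 55 (.dbl 3 6 23)))) (.rp 14 (.thr 3 6 (.dbl 15 7 10)) (.rp 10 (.str 58 (.nv (.thr 6 3 (.thr 4 7 (.thr 36 48 (.dbl 38 39 55)))) (.nv (.thr 3 6 (.dbl 15 7 14)) (.rp 7 (.thr 48 36 (.thr 51 50 (.thr 63 55 (.dbl 3 6 23)))) (.rp 6 (.thr 48 36 (.thr 51 50 (.thr 63 55 (.thr 3 23 (.dbl 15 7 14))))) (.rp 3 (.thr 36 48 (.thr 38 39 (.thr 4 55 (.thr 52 20 (.dbl 7 6 22))))) .nd)))))) .nd))))))))) (.rp 25 (.thr 59 27 (.thr 9 1 (.str 12 (.nv (.dbl 15 10 14) (.rp 58 (.thr 10 15 (.thr 6 3 (.thr 4 7 (.thr 38 55 (.dbl 36 39 48))))) (.rp 15 (.thr 36 48 (.thr 6 3 (.thr 4 7 (.dbl 38 39 55)))) (.rp 14 (.thr 3 6 (.dbl 15 7 10)) (.rp 10 (.str 58 (.nv (.thr 6 3 (.thr 4 7 (.thr 36 48 (.dbl 38 39 55)))) (.nv (.thr 3 6 (.dbl 15 7 14)) (.rp 7 (.thr 36 48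 (.thr 38 39 (.thr 55 4 (.thr 3 6 (.dbl 63 23 51))))) (.rp 6 (.thr 36 48 (.thr 38 39 (.thr 4 55 (.thr 52 20 (.thr 7 22 (.dbl 15 3 14)))))) (.rp 3 (.thr 36 48 (.thr 38 39 (.thr 4 55 (.thr 52 20 (.dbl 7 6 22))))) .nd)))))) .nd)))))))) (.rp 15 (.thr 25 49 (.thr 17 29 (.thr 59 27 (.thr 51 34 (.thr 55 63 (.dbl 38 4 12)))))) (.rp 10 (.str 58 (.nv (.thr 25 49 (.thr 17 29 (.thr 51 34 (.thr 38 12 (.thr 55 4 (.dbl 59 27 63)))))) (.nv (.thr 1 9 (.thr 3 2 (.thr 7 15 (.thr 22 52 (.dbl 23 20 63))))) (.nv (.thr 25 49 (.thr 27 59 (.thr 17 29 (.thr 51 34 (.thr 15 39 (.dbl 12 14 38)))))) (.rp 59 (.thr 25 49 (.thr 1 9 (.thr 3 2 (.thr 7 15 (.thr 22 52 (.dbl 23 20 63)))))) (.rp 57 (.thr 9 1 (.thr 59 27 (.str 17 (.nv (.dbl 25 29 49) (.rp 61 (.thr 49 25 (.thr 51 34 (.thr 63 55 (.thr 3 23 (.thr 7 15 (.dbl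 6 4 12)))))) (.rp 49 (.str 61 (.nv (.dbl 29 25 45) (.rp 45 (.thr 25 29 (.thr 51 34 (.thr 55 63 (.dbl 38 4 12)))) (.rp 29 (.thr 51 34 (.thr 63 55 (.thr 3 23 (.thr 7 15 (.dbl 6 4 12))))) (.rp 25 (.thr 29 45 (.thr 51 34 (.thr 63 55 (.thr 3 23 (.dbl 12 6 46))))) .nd))))) (.rp 29 (.thr 51 34 (.thr 55 63 (.thr 38 4 (.dbl 25 12 49)))) (.rp 25 (.thr 51 34 (.thr 63 55 (.thr 3 23 (.thr 7 15 (.dbl 6 4 12))))) .nd)))))))) (.rp 25 (.thr 59 27 (.str 15 (.nv (.thr 9 1 (.thr 3 7 (.dbl 12 6 14))) (.nv (.thr 3 7 (.dbl 1 2 9)) (.rp 9 (.str 57 (.nv (.thr 3 7 (.thr 63 23 (.thr 55 51 (.thr 38 4 (.thr 39 36 (.dbl 47 31 35)))))) (.nv (.thr 7 3 (.thr 22 52 (.thr 20 23 (.thr 16 28 (.thr 48 32 (.dbl 12 14 36)))))) (.nv (.thr 7 3 (.thr 6 4 (.thr 12 14 (.thr 36 48 (.thr 38 39 (.dbl 22 52 54)))))) (.nv (.thr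 3 7 (.thr 63 23 (.thr 55 51 (.thr 38 4 (.thr 36 39 (.dbl 12 14 48)))))) (.rp 36 (.thr 12 14 (.thr 3 7 (.thr 63 23 (.thr 29 46 (.thr 45 61 (.thr 30 60 (.dbl 31 28 47))))))) (.rp 7 (.thr 12 14 (.thr 36 48 (.thr 38 39 (.thr 55 4 (.thr 63 51 (.thr 29 46 (.thr 45 61 (.thr 31 47 (.dbl 30 28 60))))))))) (.rp 3 (.thr 12 14 (.thr 36 48 (.thr 38 39 (.thr 4 55 (.thr 52 20 (.dbl 7 6 22)))))) .nd)))))))) (.rp 7 (.thr 12 14 (.thr 36 48 (.thr 38 39 (.thr 55 4 (.thr 9 1 (.thr 63 51 (.dbl 3 6 23))))))) (.rp 3 (.thr 12 14 (.thr 36 48 (.thr 38 39 (.thr 4 55 (.thr 52 20 (.dbl 7 6 22)))))) (.rp 1 (.thr 12 14 (.thr 36 48 (.thr 38 39 (.thr 4 55 (.dbl 7 3 6))))) .nd)))))))) .nd))))))) .nd))))))))) (.rp 15 (.thr 25 49 (.thr 17 29 (.thr 51 34 (.thr 38 12 (.thr 55 4 (.dbl 63 42 59)))))) (.rp 10 (.thr 1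 9 (.thr 3 2 (.thr 7 15 (.thr 22 52 (.thr 23 20 (.dbl 63 42 43)))))) .nd))))))) (.rp 24 (.str 40 (.nv (.thr 1 9 (.thr 2 3 (.thr 20 60 (.thr 22 23 (.dbl 42 62 63))))) (.nv (.thr 15 10 (.thr 7 3 (.thr 20 60 (.dbl 22 23 52)))) (.nv (.thr 1 9 (.thr 3 2 (.dbl 15 7 10))) (.rp 27 (.thr 25 49 (.thr 1 9 (.thr 15 10 (.dbl 3 2 7)))) (.rp 25 (.str 27 (.nv (.thr 15 10 (.thr 51 39 (.thr 59 43 (.dbl 63 42 55)))) (.nv (.thr 15 10 (.thr 3 7 (.dbl 1 2 9))) (.rp 59 (.thr 42 63 (.thr 15 10 (.thr 3 7 (.dbl 1 2 9)))) (.rp 58 (.thr 20 60 (.thr 22 23 (.thr 52 7 (.thr 36 4 (.thr 32 44 (.dbl 42 47 63)))))) (.rp 57 (.thr 9 1 (.thr 15 10 (.thr 3 7 (.dbl 12 6 14)))) (.rp 42 (.thr 59 43 (.thr 20 60 (.thr 22 23 (.thr 52 7 (.thr 36 4 (.thr 39 38 (.dbl 15 10 51))))))) (.rp 15 (.thr 20 60 (.thr 42 63 (.thr 22 23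 (.thr 52 7 (.thr 36 4 (.dbl 32 44 47)))))) (.rp 10 (.thr 20 60 (.thr 42 63 (.thr 32 47 (.thr 36 44 (.thr 52 4 (.dbl 22 7 23)))))) (.rp 9 (.str 57 (.nv (.thr 15 10 (.thr 51 39 (.thr 59 43 (.dbl 63 42 55)))) (.nv (.thr 59 43 (.thr 60 20 (.thr 51 54 (.dbl 63 42 55)))) (.nv (.thr 15 10 (.thr 51 39 (.dbl 60 20 54))) (.rp 59 (.thr 42 63 (.thr 60 20 (.thr 15 10 (.dbl 51 39 54)))) (.rp 51 (.thr 20 60 (.thr 15 10 (.thr 7 3 (.dbl 22 23 52)))) (.rp 42 (.thr 59 43 (.thr 60 20 (.thr 51 54 (.dbl 15 10 39)))) .nd))))))) .nd)))))))))) (.rp 3 (.thr 25 49 (.thr 29 17 (.thr 61 45 (.thr 60 20 (.dbl 63 42 62))))) .nd))))))) (.rp 15 (.thr 25 49 (.thr 17 29 (.thr 63 42 (.thr 51 34 (.thr 55 59 (.dbl 38 4 12)))))) (.rp 10 (.thr 1 9 (.thr 3 2 (.thr 7 15 (.thr 22 52 (.thr 23 20 (.dbl 63 42 43)))))) .nd))))))))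 (.rp 42 (.thr 25 49 (.thr 17 29 (.thr 51 34 (.thr 38 12 (.thr 39 36 (.dbl 15 10 27)))))) (.rp 38 (.thr 1 9 (.thr 3 2 (.thr 42 63 (.thr 32 47 (.thr 48 16 (.thr 33 18 (.dbl 49 17 25))))))) (.rp 25 (.thr 9 1 (.thr 15 10 (.thr 12 14 (.thr 6 3 (.thr 4 7 (.thr 38 55 (.thr 39 36 (.thr 42 63 (.thr 34 46 (.dbl 51 17 27)))))))))) (.rp 11 (.str 56 (.nv (.thr 25 49 (.thr 17 29 (.thr 51 34 (.thr 38 12 (.thr 39 36 (.dbl 15 10 27)))))) (.nv (.thr 9 1 (.thr 25 49 (.thr 17 29 (.thr 51 34 (.thr 38 12 (.thr 55 4 (.dbl 63 42 59))))))) (.nv (.thr 9 1 (.thr 15 10 (.thr 12 14 (.thr 6 3 (.thr 4 7 (.thr 38 55 (.dbl 25 49 51))))))) (.nv (.thr 25 49 (.thr 17 29 (.thr 9 1 (.thr 15 10 (.thr 51 34 (.dbl 12 14 38)))))) (.rp 51 (.thr 25 49 (.thr 29 17 (.thr 63 42 (.thr 12 46 (.dbl 15 10 14))))) (.rp 49 (.thr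 9 1 (.thr 15 10 (.thr 12 14 (.thr 6 3 (.thr 4 7 (.thr 38 55 (.thr 51 25 (.dbl 39 27 36)))))))) (.rp 38 (.thr 25 49 (.thr 29 17 (.thr 61 45 (.thr 63 42 (.thr 60 62 (.thr 52 48 (.thr 22 7 (.dbl 20 23 40)))))))) (.rp 25 (.thr 42 63 (.thr 32 47 (.thr 48 16 (.thr 60 52 (.thr 20 40 (.thr 22 23 (.thr 2 62 (.dbl 1 3 9)))))))) (.rp 12 (.thr 49 25 (.thr 42 63 (.thr 32 47 (.thr 48 16 (.thr 51 50 (.thr 17 34 (.dbl 1 9 33))))))) (.rp 9 (.thr 10 15 (.thr 25 49 (.thr 17 29 (.thr 63 42 (.thr 51 34 (.thr 55 59 (.dbl 38 4 12))))))) .nd))))))))))) .nd)))))))))) (.rp 29 (.thr 1 9 (.thr 41 61 (.thr 33 45 (.dbl 49 17 25)))) (.rp 25 (.str 42 (.nv (.thr 0 63 (.thr 1 9 (.thr 32 47 (.thr 41 61 (.thr 33 45 (.thr 34 35 (.dbl 17 49 51))))))) (.nv (.thr 1 9 (.thr 32 47 (.thr 0 63 (.thr 48 16 (.thr 3 2 (.thr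 33 18 (.dbl 41 45 61))))))) (.nv (.thr 1 9 (.thr 0 63 (.thr 3 2 (.thr 41 61 (.thr 40 43 (.dbl 60 20 22)))))) (.rp 63 (.thr 1 9 (.thr 47 32 (.thr 41 61 (.thr 43 40 (.thr 35 39 (.thr 44 38 (.dbl 45 33 46))))))) (.rp 61 (.thr 1 9 (.thr 0 63 (.thr 10 15 (.thr 2 3 (.thr 6 14 (.thr 7 4 (.dbl 22 52 62))))))) (.rp 57 (.thr 47 32 (.thr 63 0 (.thr 15 31 (.thr 12 14 (.thr 29 46 (.thr 61 45 (.dbl 1 9 41))))))) (.rp 48 (.thr 1 9 (.thr 47 32 (.thr 41 61 (.thr 43 40 (.thr 35 39 (.thr 44 38 (.dbl 45 33 46))))))) (.rp 41 (.thr 9 1 (.thr 47 32 (.thr 63 0 (.thr 15 31 (.thr 12 14 (.thr 3 6 (.thr 23 43 (.thr 22 20 (.dbl 7 11 52))))))))) (.rp 27 (.str 24 (.nv (.thr 0 63 (.thr 1 9 (.thr 3 2 (.thr 41 61 (.thr 40 43 (.dbl 60 20 22)))))) (.nv (.thr 32 47 (.thr 0 63 (.thr 48 16 (.thr 12 36 (.dbl 15 10 14)))))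 (.rp 63 (.thr 1 9 (.thr 41 61 (.thr 45 33 (.thr 47 32 (.thr 44 46 (.thr 43 40 (.dbl 35 38 39))))))) (.rp 48 (.thr 1 9 (.thr 41 61 (.thr 45 33 (.thr 47 32 (.thr 44 46 (.thr 43 40 (.dbl 35 38 39))))))) (.rp 10 (.thr 0 63 (.thr 32 47 (.thr 48 16 (.thr 36 12 (.thr 40 44 (.thr 41 43 (.dbl 1 9 61))))))) (.rp 0 (.thr 1 9 (.thr 41 61 (.thr 45 33 (.thr 47 32 (.thr 44 46 (.thr 43 40 (.dbl 35 38 39))))))) .nd))))))) (.rp 24 (.str 27 (.nv (.thr 0 63 (.thr 1 9 (.thr 32 47 (.thr 41 61 (.thr 33 45 (.thr 34 35 (.dbl 17 49 51))))))) (.nv (.thr 0 63 (.thr 1 9 (.thr 3 2 (.thr 15 10 (.thr 11 7 (.thr 39 51 (.thr 47 32 (.dbl 43 35 59)))))))) (.nv (.thr 1 9 (.thr 41 61 (.thr 0 63 (.thr 3 2 (.thr 40 43 (.dbl 60 20 22)))))) (.rp 63 (.thr 1 9 (.thr 41 61 (.thr 33 45 (.thr 32 47 (.thr 35 34 (.thr 40 43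 (.dbl 44 36 38))))))) (.rp 58 (.thr 1 9 (.thr 41 61 (.thr 33 45 (.thr 32 47 (.thr 0 63 (.thr 48 16 (.dbl 3 2 18))))))) (.rp 57 (.thr 63 0 (.thr 47 32 (.thr 15 31 (.thr 39 51 (.thr 43 35 (.thr 11 59 (.dbl 3 7 23))))))) (.rp 56 (.str 40 (.nv (.thr 41 43 (.dbl 1 9 61)) (.rp 61 (.thr 1 9 (.thr 41 43 (.thr 0 63 (.thr 3 2 (.dbl 60 20 22))))) (.rp 43 (.thr 1 9 (.thr 0 63 (.thr 3 2 (.thr 41 61 (.dbl 60 20 22))))) (.rp 41 (.str 11 (.nv (.thr 47 32 (.thr 59 43 (.thr 63 0 (.thr 15 31 (.dbl 51 39 55))))) (.nv (.thr 0 63 (.thr 15 10 (.thr 3 7 (.dbl 1 2 9)))) (.rp 63 (.thr 32 47 (.thr 36 44 (.thr 38 39 (.thr 4 55 (.thr 7 6 (.dbl 52 20 22)))))) (.rp 57 (.thr 9 1 (.thr 0 63 (.thr 15 10 (.thr 3 7 (.dbl 12 6 14))))) (.rp 48 (.thr 47 32 (.thr 43 59 (.thr 39 35 (.thr 15 51 (.dbl 0 10 63))))) (.rp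 15 (.thr 32 47 (.thr 36 44 (.thr 38 39 (.thr 4 55 (.thr 7 6 (.dbl 52 20 22)))))) (.rp 9 (.str 57 (.nv (.thr 43 59 (.thr 47 32 (.thr 63 0 (.thr 3 23 (.dbl 15 7 31))))) (.nv (.thr 0 63 (.thr 15 10 (.thr 51 39 (.dbl 60 20 54)))) (.rp 63 (.thr 32 47 (.thr 36 44 (.thr 38 39 (.thr 4 55 (.thr 52 20 (.dbl 7 6 22)))))) (.rp 48 (.thr 43 59 (.thr 63 0 (.thr 23 3 (.thr 31 19 (.dbl 47 15 32))))) (.rp 15 (.thr 59 43 (.thr 63 0 (.thr 32 47 (.thr 36 44 (.thr 55 51 (.dbl 38 4 39)))))) (.rp 0 (.thr 43 59 (.thr 47 32 (.thr 39 35 (.thr 15 51 (.thr 63 31 (.dbl 3 7 23)))))) .nd))))))) (.rp 0 (.thr 47 32 (.thr 43 59 (.thr 39 35 (.thr 15 51 (.thr 3 7 (.dbl 63 23 31)))))) .nd))))))))) (.rp 9 (.thr 41 43 (.thr 45 33 (.dbl 61 1 29))) (.rp 1 (.thr 41 43 (.thr 45 33 (.thr 0 63 (.thr 15 10 (.dbl 60 20 30)))))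 .nd))))))) (.rp 48 (.thr 1 9 (.thr 41 61 (.thr 33 45 (.thr 32 47 (.thr 35 34 (.thr 40 43 (.dbl 44 36 38))))))) (.rp 43 (.thr 1 9 (.thr 41 61 (.thr 33 45 (.thr 0 63 (.thr 3 2 (.thr 32 47 (.dbl 48 16 18))))))) (.rp 41 (.thr 63 0 (.thr 47 32 (.thr 15 31 (.thr 39 51 (.thr 43 35 (.thr 11 59 (.dbl 3 7 23))))))) (.rp 40 (.str 56 (.nv (.thr 0 63 (.thr 1 9 (.thr 2 3 (.thr 10 15 (.thr 6 14 (.thr 7 4 (.dbl 22 52 62))))))) (.nv (.thr 47 32 (.thr 63 0 (.thr 15 31 (.thr 12 14 (.thr 46 29 (.thr 39 51 (.dbl 38 34 36))))))) (.nv (.thr 0 63 (.thr 1 9 (.thr 3 2 (.thr 41 61 (.thr 60 22 (.thr 33 45 (.dbl 48 18 52))))))) (.rp 63 (.thr 47 32 (.thr 1 9 (.thr 41 61 (.thr 45 33 (.thr 44 46 (.thr 35 38 (.thr 39 43 (.thr 51 15 (.thr 3 19 (.thr 2 0 (.dbl 22 60 62))))))))))) (.rp 48 (.thr 47 32 (.thr 1 9 (.thr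 41 61 (.thr 45 33 (.thr 44 46 (.thr 35 38 (.thr 39 43 (.thr 51 15 (.thr 3 19 (.dbl 0 2 63)))))))))) (.rp 0 (.thr 47 32 (.thr 1 9 (.thr 41 61 (.thr 45 33 (.thr 44 46 (.thr 35 38 (.thr 39 43 (.thr 51 15 (.thr 19 3 (.thr 23 31 (.thr 7 55 (.dbl 22 20 52)))))))))))) .nd))))))) (.rp 11 (.thr 63 0 (.thr 47 32 (.thr 15 31 (.thr 39 51 (.thr 12 14 (.thr 46 29 (.dbl 38 34 36))))))) (.rp 10 (.thr 63 0 (.thr 47 32 (.thr 15 31 (.thr 39 51 (.thr 43 35 (.thr 11 59 (.dbl 3 7 23))))))) (.rp 9 (.thr 63 0 (.thr 47 32 (.thr 15 31 (.thr 39 51 (.thr 43 35 (.thr 11 59 (.dbl 3 7 23))))))) (.rp 1 (.thr 63 0 (.thr 47 32 (.thr 15 31 (.thr 39 51 (.thr 43 35 (.thr 11 59 (.dbl 3 7 23))))))) (.rp 0 (.thr 1 9 (.thr 41 61 (.thr 33 45 (.thr 32 47 (.thr 35 34 (.thr 40 43 (.dbl 44 36 38))))))) .nd)))))))))))))))))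 (.rp 11 (.thr 47 32 (.thr 63 0 (.thr 15 31 (.thr 12 14 (.thr 29 46 (.thr 61 45 (.dbl 1 9 41))))))) (.rp 10 (.thr 47 32 (.thr 63 0 (.thr 15 31 (.thr 12 14 (.thr 29 46 (.thr 61 45 (.dbl 1 9 41))))))) (.rp 9 (.thr 47 32 (.thr 63 0 (.thr 15 31 (.thr 12 14 (.thr 46 29 (.thr 45 44 (.thr 41 33 (.thr 61 1 (.dbl 60 30 62))))))))) (.rp 1 (.thr 47 32 (.thr 63 0 (.thr 15 31 (.thr 12 14 (.thr 46 29 (.thr 44 45 (.thr 38 34 (.thr 39 36 (.dbl 35 41 43))))))))) (.rp 0 (.thr 1 9 (.thr 47 32 (.thr 41 61 (.thr 43 40 (.thr 35 39 (.thr 44 38 (.dbl 45 33 46))))))) .nd)))))))))))))))) (.rp 17 (.str 7 (.nv (.thr 1 9 (.thr 22 52 (.thr 41 61 (.thr 3 60 (.thr 0 2 (.dbl 15 10 11)))))) (.nv (.thr 4 6 (.thr 22 52 (.thr 23 20 (.dbl 55 38 39)))) (.rp 55 (.thr 1 9 (.thr 41 61 (.thr 6 4 (.thr 22 52 (.thr 54 38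 (.thr 3 60 (.thr 0 2 (.dbl 15 10 11)))))))) (.rp 54 (.thr 4 6 (.thr 55 38 (.thr 22 52 (.dbl 23 20 39)))) (.rp 52 (.thr 1 9 (.thr 41 61 (.thr 4 6 (.thr 55 38 (.thr 23 39 (.thr 22 20 (.thr 3 60 (.thr 63 43 (.dbl 0 2 42))))))))) (.rp 22 (.thr 1 9 (.thr 41 61 (.thr 45 33 (.thr 4 6 (.thr 38 55 (.thr 36 39 (.thr 44 35 (.thr 32 40 (.dbl 47 42 46))))))))) .nd))))))) (.rp 9 (.thr 25 49 (.str 61 (.nv (.dbl 29 17 45) (.rp 45 (.str 0 (.nv (.thr 63 42 (.thr 60 62 (.thr 20 40 (.thr 22 23 (.dbl 41 1 3))))) (.nv (.thr 17 29 (.thr 51 34 (.thr 12 38 (.dbl 15 10 14)))) (.rp 42 (.thr 17 29 (.thr 51 34 (.thr 38 12 (.thr 39 36 (.dbl 15 10 27))))) (.rp 11 (.thr 10 15 (.thr 17 29 (.thr 51 34 (.thr 38 12 (.thr 55 4 (.dbl 63 42 59)))))) (.rp 10 (.str 11 (.nv (.thr 1 41 (.thr 3 2 (.thr 15 7 (.thr 17 29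 (.thr 51 34 (.dbl 12 14 38)))))) (.nv (.thr 17 29 (.thr 34 51 (.thr 41 1 (.thr 42 63 (.thr 32 47 (.thr 35 33 (.dbl 38 44 46))))))) (.nv (.thr 1 41 (.thr 3 2 (.thr 7 15 (.thr 22 52 (.thr 20 23 (.thr 60 40 (.dbl 63 42 62))))))) (.nv (.thr 17 29 (.thr 51 34 (.thr 38 12 (.thr 55 4 (.dbl 63 42 59))))) (.rp 58 (.thr 42 63 (.str 48 (.nv (.dbl 32 16 47) (.rp 47 (.thr 41 1 (.thr 40 43 (.thr 60 20 (.thr 52 56 (.dbl 22 3 7))))) (.rp 32 (.thr 41 1 (.thr 40 43 (.thr 60 20 (.thr 52 56 (.dbl 22 3 7))))) (.rp 16 (.thr 41 1 (.thr 40 43 (.thr 60 20 (.thr 52 56 (.dbl 22 3 7))))) .nd)))))) (.rp 42 (.str 58 (.nv (.thr 17 29 (.thr 51 34 (.thr 38 12 (.thr 39 36 (.thr 27 15 (.thr 59 43 (.dbl 55 4 63))))))) (.nv (.thr 1 41 (.thr 3 2 (.thr 7 15 (.thr 22 52 (.thr 19 28 (.thr 23 20 (.thr 43 63 (.dbl 27 31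 59)))))))) (.nv (.thr 1 41 (.thr 3 2 (.thr 7 15 (.thr 17 29 (.thr 22 52 (.thr 19 28 (.dbl 51 34 35))))))) (.nv (.thr 17 29 (.thr 51 34 (.thr 38 12 (.thr 36 39 (.thr 4 55 (.thr 52 20 (.dbl 7 6 22))))))) (.rp 55 (.thr 1 41 (.thr 17 29 (.thr 3 2 (.thr 15 7 (.thr 51 34 (.dbl 12 14 38)))))) (.rp 6 (.str 14 (.nv (.thr 12 15 (.thr 17 29 (.dbl 51 34 38))) (.nv (.thr 15 12 (.thr 3 7 (.dbl 1 2 41))) (.rp 15 (.thr 1 41 (.thr 17 29 (.thr 3 2 (.thr 51 34 (.thr 38 12 (.thr 39 36 (.thr 55 4 (.thr 23 7 (.dbl 63 43 59))))))))) (.rp 12 (.str 3 (.nv (.dbl 1 2 41) (.rp 41 (.thr 7 15 (.thr 17 29 (.thr 51 34 (.thr 19 35 (.dbl 22 28 52))))) (.rp 2 (.thr 7 15 (.thr 41 1 (.dbl 22 52 60))) (.rp 1 (.thr 7 15 (.thr 22 52 (.thr 20 23 (.dbl 60 40 41)))) .nd))))) .nd))))) (.rp 3 (.str 6 (.nv (.thr 7 4 (.thr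 22 52 (.thr 54 38 (.thr 20 23 (.thr 60 40 (.dbl 62 50 63)))))) (.nv (.thr 4 7 (.thr 17 29 (.thr 51 34 (.dbl 38 12 55)))) (.rp 38 (.thr 7 4 (.thr 22 52 (.thr 20 23 (.thr 60 40 (.thr 63 62 (.thr 29 17 (.thr 28 19 (.dbl 12 44 46)))))))) (.rp 34 (.thr 4 7 (.thr 38 55 (.thr 54 22 (.thr 62 50 (.thr 60 63 (.dbl 51 12 57)))))) (.rp 7 (.thr 17 29 (.thr 51 34 (.thr 38 12 (.thr 54 22 (.thr 62 50 (.dbl 60 57 63)))))) (.rp 4 (.thr 17 29 (.thr 51 34 (.thr 38 12 (.thr 54 22 (.thr 62 50 (.dbl 60 57 63)))))) .nd))))))) .nd)))))))) .nd))))))) .nd)))))) (.rp 29 (.thr 41 1 (.thr 33 45 (.str 4 (.nv (.thr 7 6 (.thr 22 52 (.thr 55 38 (.dbl 23 20 39)))) (.nv (.thr 38 55 (.thr 35 44 (.thr 32 34 (.thr 39 36 (.dbl 47 42 43))))) (.nv (.thr 38 55 (.thr 36 39 (.thr 52 20 (.dbl 7 6 22)))) (.rp 55 (.thr 7 6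 (.thr 52 22 (.thr 36 20 (.thr 38 39 (.thr 12 51 (.thr 48 24 (.thr 44 35 (.dbl 60 28 56)))))))) (.rp 52 (.thr 6 7 (.thr 38 55 (.thr 54 22 (.thr 39 36 (.thr 35 44 (.thr 47 43 (.dbl 32 34 42))))))) (.rp 39 (.thr 7 6 (.thr 22 52 (.thr 28 19 (.thr 60 3 (.thr 12 44 (.dbl 38 51 55)))))) (.rp 38 (.thr 7 6 (.thr 22 52 (.thr 23 20 (.thr 3 60 (.thr 63 43 (.thr 0 42 (.dbl 15 10 11))))))) (.rp 11 (.str 10 (.nv (.thr 15 0 (.thr 12 14 (.dbl 38 51 55))) (.nv (.thr 38 55 (.thr 36 39 (.thr 52 20 (.dbl 7 6 22)))) (.nv (.thr 6 7 (.thr 14 2 (.dbl 15 0 12))) .nd)))) (.rp 10 (.str 11 (.nv (.thr 38 55 (.thr 35 44 (.thr 32 34 (.thr 39 36 (.dbl 47 42 43))))) (.nv (.thr 7 6 (.thr 3 15 (.dbl 22 52 60))) (.rp 58 (.str 42 (.nv (.thr 63 0 (.thr 7 6 (.thr 3 15 (.dbl 22 52 60)))) (.nv (.thr 32 47 (.thr 35 34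 (.dbl 38 44 55))) (.rp 63 (.str 48 (.nv (.thr 38 55 (.thr 35 44 (.dbl 32 34 47))) (.nv (.thr 3 18 (.dbl 7 6 15)) (.rp 46 (.str 12 (.nv (.thr 47 32 (.thr 3 18 (.dbl 7 6 15))) (.nv (.dbl 38 51 55) (.rp 47 (.str 44 (.nv (.thr 3 18 (.dbl 7 6 15)) (.nv (.dbl 38 35 51) (.rp 31 (.thr 15 14 (.dbl 3 7 18)) (.rp 15 (.str 31 (.nv (.dbl 38 35 51) (.nv (.thr 60 28 (.dbl 3 18 22)) (.rp 60 (.str 30 (.nv (.thr 36 24 (.dbl 40 32 43)) (.nv (.dbl 38 35 51) .nd))) .nd)))) .nd))))) .nd)))) (.rp 12 (.str 46 (.nv (.thr 3 18 (.dbl 7 6 15)) (.nv (.dbl 38 34 55) (.rp 6 (.thr 3 18 (.dbl 38 34 55)) (.rp 3 (.thr 6 7 (.dbl 38 34 55)) .nd))))) .nd))))) .nd)))) (.rp 52 (.thr 55 38 (.thr 7 6 (.thr 23 39 (.thr 3 15 (.dbl 22 20 60))))) (.rp 42 (.str 58 (.nv (.thr 38 55 (.thr 36 39 (.thr 52 20 (.dbl 7 6 22)))) (.nv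 (.thr 7 6 (.thr 3 15 (.dbl 22 52 60))) (.rp 52 (.thr 55 38 (.thr 7 6 (.thr 3 15 (.thr 23 39 (.dbl 22 20 60))))) (.rp 22 (.thr 38 55 (.thr 12 51 (.thr 15 14 (.dbl 7 3 6)))) (.rp 7 (.thr 38 55 (.thr 35 44 (.thr 51 12 (.thr 39 36 (.thr 27 15 (.dbl 43 47 59)))))) (.rp 6 (.thr 38 55 (.thr 44 35 (.thr 12 51 (.thr 60 28 (.thr 3 22 (.dbl 15 7 14)))))) .nd))))))) .nd)))))) .nd)))))))))))) (.rp 17 (.thr 45 29 (.dbl 41 1 33)) (.rp 11 (.str 10 (.nv (.dbl 29 17 45) (.rp 56 (.thr 41 1 (.dbl 29 17 45)) (.rp 45 (.thr 17 29 (.thr 0 15 (.thr 63 42 (.thr 51 34 (.thr 38 12 (.dbl 55 4 59)))))) (.rp 41 (.str 56 (.nv (.dbl 29 17 45) (.rp 45 (.thr 17 29 (.thr 0 15 (.thr 63 42 (.thr 51 34 (.thr 38 12 (.dbl 55 4 59)))))) (.rp 29 (.thr 15 0 (.thr 12 14 (.thr 38 51 (.thr 36 39 (.thr 48 24 (.thr 52 60 (.dbl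 4 20 55))))))) (.rp 17 (.thr 45 29 (.thr 15 0 (.thr 12 14 (.thr 60 30 (.thr 28 44 (.thr 52 48 (.dbl 22 7 19))))))) .nd))))) (.rp 29 (.thr 41 1 (.thr 0 15 (.thr 63 42 (.thr 60 62 (.thr 20 40 (.dbl 22 3 23)))))) (.rp 17 (.thr 45 29 (.dbl 41 1 33)) .nd))))))) (.rp 10 (.str 11 (.nv (.dbl 29 17 45) (.rp 58 (.str 42 (.nv (.thr 63 0 (.thr 45 29 (.dbl 41 1 33))) (.nv (.dbl 29 17 45) (.rp 63 (.str 48 (.nv (.dbl 29 17 45) (.rp 45 (.thr 41 1 (.thr 17 29 (.thr 32 47 (.thr 0 16 (.thr 34 51 (.thr 35 33 (.dbl 38 44 46))))))) (.rp 29 (.thr 41 1 (.thr 33 45 (.thr 3 18 (.thr 7 15 (.dbl 22 52 60))))) (.rp 17 (.thr 45 29 (.dbl 41 1 33)) .nd))))) (.rp 45 (.thr 29 17 (.thr 63 0 (.thr 12 46 (.thr 15 14 (.dbl 47 31 32))))) (.rp 29 (.thr 41 1 (.thr 63 0 (.thr 43 40 (.thr 3 23 (.dbl 60 22 62))))) .nd))))))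 (.rp 45 (.str 42 (.nv (.thr 47 32 (.thr 63 0 (.thr 15 31 (.thr 12 14 (.thr 46 29 (.dbl 38 34 51)))))) (.nv (.thr 41 1 (.thr 43 40 (.thr 63 0 (.thr 3 23 (.dbl 60 22 62))))) (.nv (.thr 29 17 (.thr 47 32 (.thr 63 0 (.thr 12 46 (.dbl 15 14 31))))) (.rp 63 (.thr 41 1 (.thr 47 32 (.thr 43 40 (.thr 39 35 (.thr 27 59 (.thr 51 15 (.dbl 38 12 36))))))) (.rp 12 (.thr 41 1 (.thr 47 32 (.thr 43 40 (.thr 39 35 (.thr 27 59 (.thr 15 51 (.dbl 63 0 31))))))) (.rp 0 (.thr 41 1 (.thr 47 32 (.thr 43 40 (.thr 39 35 (.thr 27 59 (.thr 51 15 (.dbl 38 12 36))))))) .nd))))))) (.rp 42 (.str 58 (.nv (.dbl 29 17 45) (.rp 45 (.str 3 (.nv (.thr 7 15 (.thr 4 6 (.thr 22 52 (.thr 23 20 (.dbl 55 38 39))))) (.nv (.thr 7 15 (.thr 41 1 (.dbl 22 52 60))) (.rp 60 (.thr 15 7 (.thr 17 29 (.thr 1 41 (.thr 0 2 (.thr 51 34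 (.dbl 12 14 38)))))) (.rp 52 (.thr 7 15 (.thr 41 1 (.thr 4 6 (.thr 55 38 (.thr 23 39 (.dbl 22 20 60)))))) (.rp 30 (.thr 15 7 (.thr 17 29 (.thr 1 41 (.thr 0 2 (.thr 51 34 (.dbl 12 14 38)))))) (.rp 22 (.thr 7 15 (.thr 41 1 (.thr 4 6 (.thr 38 55 (.thr 35 44 (.dbl 51 12 19)))))) (.rp 15 (.thr 41 1 (.thr 60 22 (.thr 62 63 (.thr 54 50 (.thr 51 57 (.thr 35 19 (.dbl 38 12 44))))))) (.rp 7 (.thr 41 1 (.thr 22 60 (.thr 23 20 (.thr 43 63 (.thr 27 59 (.dbl 19 28 31)))))) .nd))))))))) (.rp 29 (.str 3 (.nv (.thr 7 15 (.thr 4 6 (.thr 22 52 (.thr 23 20 (.dbl 55 38 39))))) (.nv (.thr 7 15 (.thr 41 1 (.dbl 22 52 60))) (.rp 52 (.thr 15 7 (.thr 41 1 (.thr 60 22 (.dbl 45 30 33)))) (.rp 22 (.thr 7 15 (.thr 41 1 (.thr 4 6 (.thr 38 55 (.thr 35 44 (.dbl 51 12 19)))))) (.rp 15 (.thr 41 1 (.thr 22 60 (.thr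 7 52 (.thr 23 20 (.thr 55 39 (.dbl 4 6 38)))))) (.rp 7 (.thr 41 1 (.thr 22 60 (.thr 23 20 (.thr 43 63 (.thr 27 59 (.dbl 19 28 31)))))) .nd))))))) (.rp 17 (.thr 45 29 (.dbl 41 1 33)) .nd))))) (.rp 29 (.str 42 (.nv (.thr 41 1 (.thr 63 0 (.thr 43 40 (.thr 3 23 (.dbl 60 22 62))))) (.nv (.thr 47 32 (.thr 63 0 (.thr 15 31 (.thr 7 3 (.thr 22 52 (.dbl 62 2 60)))))) (.nv (.thr 32 47 (.thr 41 1 (.thr 33 45 (.thr 35 34 (.thr 40 43 (.dbl 44 36 38)))))) (.rp 1 (.thr 63 0 (.thr 47 32 (.thr 15 31 (.thr 3 7 (.thr 43 23 (.thr 39 35 (.dbl 27 51 59))))))) .nd))))) (.rp 17 (.thr 45 29 (.dbl 41 1 33)) .nd))))))) .nd)))))))) (.rp 1 (.str 38 (.nv (.thr 25 49 (.thr 17 29 (.thr 51 12 (.thr 0 34 (.thr 55 4 (.dbl 63 42 59)))))) (.nv (.thr 25 49 (.thr 17 29 (.thr 39 36 (.thr 51 12 (.thr 0 34 (.dbl 15 10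 27)))))) (.nv (.thr 36 39 (.thr 4 55 (.thr 52 20 (.dbl 7 6 22)))) .nd)))) .nd))))))))))))

theorem w504 : WinAt (137441050656, 9007199321850112) :=
  chF (K := []) kn c504 137441050656 9007199321850112 53
    [] (by decide +kernel) (by decide +kernel)

/-- A certificate. -/
noncomputable def c505 : Ct := (.str 7 (.nv (.thr 4 6 (.thr 22 52 (.thr 55 38 (.dbl 23 20 39)))) (.nv (.thr 22 52 (.thr 23 20 (.thr 55 39 (.dbl 4 6 38)))) (.rp 55 (.str 42 (.nv (.thr 0 63 (.thr 4 6 (.thr 52 22 (.thr 20 36 (.thr 60 40 (.thr 48 56 (.dbl 32 16 47))))))) (.nv (.thr 47 32 (.thr 63 0 (.thr 15 31 (.thr 3 11 (.thr 23 43 (.dbl 22 20 52)))))) (.nv (.thr 6 4 (.thr 0 63 (.thr 10 15 (.thr 2 14 (.dbl 22 52 62))))) (.rp 63 (.thr 4 6 (.thr 32 47 (.thr 52 22 (.thr 36 20 (.thr 38 39 (.thr 34 46 (.thr 35 33 (.dbl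 44 40 41)))))))) (.rp 59 (.thr 47 32 (.thr 63 0 (.thr 15 31 (.thr 3 11 (.thr 43 23 (.thr 41 40 (.dbl 22 52 60))))))) (.rp 54 (.thr 52 22 (.thr 32 47 (.thr 0 63 (.thr 48 16 (.thr 60 56 (.thr 20 40 (.dbl 4 6 36))))))) (.rp 52 (.str 54 (.nv (.thr 0 63 (.thr 6 4 (.thr 22 38 (.thr 2 62 (.thr 3 1 (.thr 20 23 (.dbl 60 40 41))))))) (.nv (.thr 0 63 (.thr 6 4 (.thr 15 10 (.thr 38 22 (.thr 34 46 (.thr 51 17 (.dbl 39 27 36))))))) (.nv (.thr 6 4 (.thr 22 38 (.thr 0 63 (.thr 10 15 (.dbl 2 14 62))))) (.rp 63 (.thr 6 4 (.thr 38 22 (.thr 36 39 (.thr 32 47 (.thr 34 46 (.thr 35 33 (.dbl 44 40 41))))))) (.rp 59 (.thr 6 4 (.thr 38 22 (.thr 36 39 (.thr 32 47 (.thr 34 46 (.thr 35 33 (.dbl 44 40 41))))))) (.rp 58 (.thr 6 4 (.thr 38 22 (.thr 36 39 (.thr 32 47 (.thr 34 46 (.thr 35 33 (.dbl 44 40 41)))))))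 (.rp 51 (.thr 6 4 (.thr 38 22 (.thr 36 39 (.thr 32 47 (.thr 34 46 (.thr 35 33 (.dbl 44 40 41))))))) (.rp 48 (.thr 6 4 (.thr 38 22 (.thr 36 39 (.thr 32 47 (.thr 34 46 (.thr 35 33 (.dbl 44 40 41))))))) (.rp 38 (.thr 63 0 (.thr 47 32 (.thr 15 31 (.thr 3 11 (.thr 23 43 (.thr 22 20 (.thr 62 2 (.dbl 60 41 61)))))))) (.rp 36 (.thr 4 6 (.thr 0 63 (.thr 15 10 (.thr 3 11 (.thr 8 12 (.thr 2 1 (.thr 22 62 (.thr 20 23 (.dbl 60 40 41))))))))) (.rp 22 (.thr 4 6 (.thr 0 63 (.thr 32 47 (.thr 48 16 (.thr 12 8 (.thr 36 24 (.thr 38 39 (.thr 34 46 (.dbl 51 17 25))))))))) (.rp 20 (.thr 63 0 (.thr 47 32 (.thr 15 31 (.thr 3 11 (.thr 43 23 (.thr 41 40 (.thr 60 22 (.dbl 61 1 62)))))))) (.rp 6 (.thr 63 0 (.thr 47 32 (.thr 15 31 (.thr 3 11 (.thr 23 43 (.thr 22 20 (.thr 62 2 (.dbl 60 41 61)))))))) (.rp 4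 (.thr 63 0 (.thr 47 32 (.thr 15 31 (.thr 3 11 (.thr 43 23 (.thr 41 40 (.thr 61 1 (.dbl 60 22 62)))))))) (.rp 0 (.thr 6 4 (.thr 38 22 (.thr 36 39 (.thr 32 47 (.thr 34 46 (.thr 35 33 (.dbl 44 40 41))))))) .nd)))))))))))))))) (.rp 48 (.thr 6 4 (.thr 63 0 (.thr 22 52 (.thr 54 38 (.thr 62 2 (.thr 60 61 (.thr 3 41 (.dbl 23 20 43)))))))) (.rp 47 (.thr 6 4 (.thr 0 63 (.thr 22 52 (.thr 54 38 (.thr 2 62 (.dbl 10 14 15)))))) (.rp 22 (.thr 4 6 (.thr 32 47 (.thr 0 63 (.thr 12 8 (.thr 48 16 (.thr 36 24 (.thr 40 44 (.dbl 20 52 60)))))))) (.rp 0 (.thr 4 6 (.thr 32 47 (.thr 52 22 (.thr 36 20 (.thr 38 39 (.thr 34 46 (.thr 35 33 (.dbl 44 40 41)))))))) .nd)))))))))))) (.rp 52 (.str 63 (.nv (.thr 4 6 (.thr 55 38 (.thr 23 39 (.thr 42 0 (.thr 47 32 (.thr 15 31 (.dbl 3 11 43))))))) (.nv (.thr 0 42 (.thr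 10 15 (.thr 4 6 (.thr 12 8 (.thr 29 46 (.thr 25 17 (.dbl 38 51 55))))))) (.rp 55 (.str 54 (.nv (.thr 6 4 (.thr 38 22 (.thr 36 39 (.thr 42 0 (.thr 32 47 (.thr 34 46 (.thr 35 33 (.dbl 44 40 41)))))))) (.nv (.thr 0 42 (.thr 4 6 (.thr 12 8 (.thr 29 46 (.thr 25 17 (.thr 13 49 (.dbl 15 10 14))))))) (.nv (.thr 0 42 (.thr 10 15 (.thr 6 4 (.thr 2 14 (.thr 3 1 (.thr 23 43 (.dbl 22 20 38))))))) (.rp 42 (.str 41 (.nv (.thr 45 33 (.thr 61 1 (.thr 60 62 (.thr 15 30 (.dbl 3 11 22))))) (.nv (.thr 6 4 (.thr 22 38 (.thr 3 60 (.dbl 23 20 43)))) (.nv (.thr 61 1 (.thr 60 62 (.thr 22 3 (.dbl 6 4 38)))) (.rp 60 (.thr 45 33 (.thr 61 1 (.thr 29 13 (.thr 46 12 (.thr 44 47 (.thr 38 35 (.dbl 6 4 22))))))) (.rp 58 (.str 10 (.nv (.thr 6 4 (.thr 22 38 (.thr 3 60 (.dbl 23 20 43)))) (.nv (.thr 6 4 (.thr 2 14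 (.thr 0 15 (.dbl 1 3 61)))) (.nv (.thr 15 0 (.thr 3 11 (.thr 45 33 (.dbl 60 22 30)))) (.rp 3 (.thr 61 1 (.thr 60 62 (.thr 45 33 (.dbl 15 0 30)))) .nd))))) (.rp 22 (.thr 45 33 (.thr 61 1 (.thr 29 13 (.thr 46 12 (.thr 47 44 (.thr 15 31 (.dbl 60 30 62))))))) (.rp 10 (.str 58 (.nv (.thr 6 4 (.thr 22 38 (.thr 3 60 (.dbl 23 20 43)))) (.nv (.thr 61 1 (.dbl 62 50 60)) (.rp 60 (.thr 45 33 (.thr 61 1 (.thr 29 13 (.thr 46 12 (.thr 44 47 (.thr 38 35 (.dbl 6 4 22))))))) (.rp 50 (.thr 61 1 (.thr 60 62 (.thr 22 3 (.dbl 6 4 38)))) (.rp 11 (.str 8 (.nv (.thr 6 4 (.thr 22 38 (.thr 3 60 (.dbl 23 20 43)))) (.nv (.thr 61 1 (.dbl 62 50 60)) (.rp 60 (.thr 4 6 (.thr 12 0 (.thr 29 46 (.thr 61 1 (.dbl 45 13 33))))) (.rp 50 (.thr 6 4 (.thr 61 1 (.thr 60 62 (.dbl 22 3 38)))) .nd))))) (.rp 8 (.str 11 (.nv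 (.thr 3 15 (.thr 6 4 (.dbl 22 38 60))) (.nv (.thr 61 1 (.dbl 62 50 60)) (.rp 60 (.thr 3 15 (.thr 23 43 (.thr 22 20 (.dbl 6 4 38)))) (.rp 59 (.str 25 (.nv (.thr 3 15 (.thr 6 4 (.dbl 22 38 60))) (.nv (.thr 61 1 (.dbl 62 50 60)) (.rp 60 (.thr 29 17 (.thr 45 33 (.dbl 61 1 13))) .nd)))) (.rp 25 (.str 59 (.nv (.thr 61 1 (.dbl 62 50 60)) (.nv (.thr 3 15 (.dbl 43 23 27)) (.rp 27 (.str 24 (.nv (.thr 3 15 (.thr 6 4 (.dbl 22 38 60))) (.nv (.thr 61 1 (.dbl 62 50 60)) (.rp 60 (.thr 6 4 (.thr 22 38 (.thr 3 15 (.dbl 23 20 43)))) .nd)))) (.rp 24 (.thr 27 43 (.thr 61 1 (.dbl 62 50 60))) .nd))))) .nd)))))) .nd))))))) (.rp 3 (.thr 45 33 (.thr 61 1 (.thr 29 13 (.thr 60 62 (.thr 51 57 (.thr 12 46 (.dbl 25 17 38))))))) .nd))))))))) (.rp 38 (.thr 42 0 (.thr 47 32 (.thr 15 31 (.thr 3 11 (.thr 23 43 (.thr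 22 20 (.thr 62 2 (.dbl 60 41 61)))))))) (.rp 12 (.thr 6 4 (.thr 22 38 (.thr 20 23 (.thr 0 42 (.thr 60 40 (.thr 61 62 (.dbl 41 1 3))))))) (.rp 6 (.thr 42 0 (.thr 47 32 (.thr 15 31 (.thr 3 11 (.thr 23 43 (.thr 22 20 (.thr 62 2 (.dbl 60 41 61)))))))) (.rp 4 (.thr 42 0 (.thr 47 32 (.thr 15 31 (.thr 3 11 (.thr 43 23 (.thr 41 40 (.thr 61 1 (.dbl 60 22 62)))))))) (.rp 0 (.str 22 (.nv (.dbl 6 4 38) (.rp 38 (.thr 23 20 (.thr 3 43 (.thr 15 11 (.thr 47 31 (.thr 42 32 (.thr 62 2 (.dbl 60 41 61))))))) (.rp 6 (.thr 23 20 (.thr 3 43 (.thr 15 11 (.thr 47 31 (.thr 42 32 (.thr 62 2 (.dbl 60 41 61))))))) (.rp 4 (.thr 38 6 (.thr 23 20 (.thr 36 39 (.thr 3 43 (.thr 15 11 (.thr 47 31 (.thr 42 32 (.thr 62 2 (.dbl 60 41 61))))))))) .nd))))) .nd)))))))))) (.rp 54 (.str 55 (.nv (.dbl 4 6 38) (.rp 38 (.thr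 23 39 (.thr 3 43 (.thr 15 11 (.dbl 0 10 42)))) (.rp 6 (.thr 39 23 (.dbl 38 4 36)) (.rp 4 (.thr 23 39 (.thr 3 43 (.thr 15 11 (.dbl 0 10 42)))) .nd))))) (.rp 42 (.thr 4 6 (.thr 55 38 (.thr 23 39 (.thr 22 20 (.thr 3 43 (.thr 41 60 (.thr 1 61 (.thr 0 2 (.dbl 15 10 11))))))))) (.rp 38 (.thr 42 0 (.thr 47 32 (.thr 15 31 (.thr 3 11 (.thr 23 43 (.thr 22 20 (.thr 62 2 (.dbl 60 41 61)))))))) (.rp 15 (.thr 4 6 (.thr 0 42 (.thr 12 8 (.thr 29 46 (.thr 25 17 (.dbl 38 51 55)))))) (.rp 12 (.thr 42 0 (.thr 47 32 (.thr 15 31 (.thr 4 6 (.thr 3 11 (.thr 55 38 (.dbl 23 39 43))))))) (.rp 6 (.thr 42 0 (.thr 47 32 (.thr 15 31 (.thr 3 11 (.thr 23 43 (.thr 22 20 (.thr 62 2 (.dbl 60 41 61)))))))) (.rp 4 (.thr 42 0 (.thr 47 32 (.thr 15 31 (.thr 3 11 (.thr 43 23 (.thr 41 40 (.thr 61 1 (.dbl 60 22 62))))))))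 (.rp 0 (.thr 4 6 (.thr 55 38 (.thr 23 39 (.thr 22 20 (.thr 3 43 (.thr 60 41 (.thr 62 61 (.thr 42 2 (.thr 47 32 (.dbl 15 11 31)))))))))) .nd)))))))))))) (.rp 39 (.str 63 (.nv (.thr 0 42 (.thr 10 15 (.thr 4 6 (.thr 12 8 (.thr 29 46 (.thr 25 17 (.dbl 38 51 55))))))) (.nv (.thr 22 52 (.thr 20 23 (.thr 0 42 (.thr 60 40 (.thr 61 62 (.dbl 41 1 3)))))) (.rp 55 (.thr 42 0 (.thr 47 32 (.thr 15 31 (.thr 3 11 (.thr 23 43 (.dbl 22 20 52)))))) (.rp 42 (.thr 22 52 (.thr 23 20 (.thr 3 43 (.thr 41 60 (.thr 1 61 (.thr 0 2 (.dbl 15 10 11))))))) (.rp 10 (.thr 22 52 (.thr 23 20 (.thr 3 43 (.thr 60 41 (.thr 62 61 (.dbl 42 0 2)))))) (.rp 0 (.thr 22 52 (.thr 23 20 (.thr 3 43 (.thr 60 41 (.thr 62 61 (.thr 42 2 (.thr 47 32 (.dbl 15 11 31)))))))) .nd))))))) (.rp 38 (.str 63 (.nv (.thr 42 0 (.thr 47 32 (.thr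 15 31 (.thr 3 11 (.thr 23 43 (.dbl 22 20 52)))))) (.nv (.thr 22 52 (.thr 23 20 (.thr 3 43 (.thr 42 0 (.thr 62 2 (.dbl 60 41 61)))))) (.rp 52 (.thr 42 0 (.thr 47 32 (.thr 15 31 (.thr 3 11 (.thr 23 43 (.thr 22 20 (.thr 62 2 (.dbl 60 41 61)))))))) (.rp 50 (.str 14 (.nv (.thr 22 52 (.thr 23 20 (.thr 3 43 (.thr 15 11 (.dbl 0 10 42))))) (.nv (.thr 6 4 (.thr 10 2 (.dbl 0 15 42))) (.rp 42 (.thr 6 4 (.thr 22 52 (.thr 10 2 (.thr 15 0 (.thr 3 11 (.dbl 23 20 43)))))) (.rp 15 (.thr 6 4 (.thr 22 52 (.thr 2 10 (.dbl 42 0 62)))) (.rp 10 (.thr 22 52 (.thr 23 20 (.thr 43 3 (.thr 42 0 (.thr 47 32 (.dbl 39 35 55)))))) (.rp 4 (.thr 22 52 (.thr 20 23 (.thr 0 42 (.thr 60 40 (.thr 61 62 (.dbl 41 1 3)))))) (.rp 0 (.thr 22 52 (.thr 23 20 (.thr 3 43 (.thr 15 11 (.thr 31 47 (.thr 27 19 (.dbl 39 51 55)))))))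 .nd)))))))) (.rp 43 (.thr 22 52 (.thr 20 23 (.thr 0 42 (.thr 60 40 (.thr 41 3 (.dbl 61 1 62)))))) (.rp 42 (.thr 22 52 (.thr 23 20 (.thr 3 43 (.thr 41 60 (.thr 1 61 (.thr 0 2 (.dbl 15 10 11))))))) (.rp 41 (.thr 22 52 (.thr 23 20 (.thr 3 43 (.thr 42 0 (.thr 47 32 (.dbl 15 11 31)))))) (.rp 23 (.thr 22 52 (.thr 42 0 (.thr 47 32 (.thr 15 31 (.thr 3 11 (.thr 62 2 (.dbl 60 41 61))))))) (.rp 22 (.thr 42 0 (.thr 47 32 (.thr 15 31 (.thr 3 11 (.thr 43 23 (.thr 41 40 (.thr 61 1 (.thr 60 62 (.dbl 45 30 33))))))))) (.rp 20 (.thr 22 52 (.thr 42 0 (.thr 47 32 (.thr 15 31 (.thr 3 11 (.thr 43 23 (.dbl 41 40 60))))))) (.rp 14 (.str 50 (.nv (.thr 22 52 (.thr 23 20 (.thr 42 0 (.thr 43 3 (.thr 47 32 (.dbl 39 35 55)))))) (.nv (.thr 42 0 (.thr 47 32 (.thr 15 31 (.thr 3 11 (.thr 23 43 (.dbl 22 20 52))))))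 (.nv (.thr 0 42 (.thr 22 52 (.thr 23 20 (.thr 3 43 (.dbl 15 10 11))))) (.rp 52 (.thr 42 0 (.thr 47 32 (.thr 15 31 (.thr 3 11 (.thr 43 23 (.thr 41 40 (.thr 61 1 (.dbl 60 22 62)))))))) (.rp 43 (.thr 0 42 (.thr 22 52 (.thr 20 23 (.thr 60 40 (.thr 41 3 (.dbl 61 1 62)))))) (.rp 42 (.thr 22 52 (.thr 23 20 (.thr 3 43 (.thr 15 11 (.thr 31 47 (.thr 27 19 (.dbl 39 51 55))))))) (.rp 23 (.thr 42 0 (.thr 47 32 (.thr 15 31 (.thr 3 11 (.thr 22 52 (.thr 62 2 (.dbl 60 41 61))))))) (.rp 22 (.thr 42 0 (.thr 47 32 (.thr 15 31 (.thr 3 11 (.thr 43 23 (.thr 41 40 (.thr 61 1 (.thr 45 33 (.dbl 60 30 62))))))))) (.rp 20 (.thr 42 0 (.thr 47 32 (.thr 15 31 (.thr 3 11 (.thr 43 23 (.thr 22 52 (.dbl 41 40 60))))))) (.rp 3 (.thr 0 42 (.thr 22 52 (.thr 23 20 (.thr 55 39 (.thr 51 59 (.thr 49 48 (.thr 25 13 (.dbl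 17 29 34)))))))) (.rp 0 (.thr 22 52 (.thr 23 20 (.thr 3 43 (.thr 15 11 (.thr 31 47 (.thr 27 19 (.dbl 39 51 55))))))) .nd)))))))))))) (.rp 3 (.thr 22 52 (.thr 20 23 (.thr 0 42 (.thr 60 40 (.thr 61 62 (.thr 41 1 (.thr 45 33 (.dbl 15 10 30)))))))) (.rp 0 (.thr 22 52 (.thr 23 20 (.thr 3 43 (.thr 15 11 (.thr 31 47 (.thr 27 19 (.dbl 39 51 55))))))) .nd)))))))))))))) (.rp 23 (.thr 4 6 (.thr 38 55 (.thr 36 39 (.dbl 52 20 22)))) (.rp 22 (.thr 4 6 (.thr 38 55 (.thr 36 39 (.thr 52 20 (.str 12 (.nv (.thr 0 8 (.thr 42 63 (.thr 51 25 (.dbl 34 17 46)))) (.nv (.thr 0 8 (.thr 42 63 (.thr 32 47 (.dbl 48 16 24)))) (.nv (.thr 25 51 (.thr 29 17 (.thr 63 46 (.dbl 0 8 42)))) (.rp 63 (.thr 0 8 (.thr 51 25 (.thr 34 17 (.thr 42 46 (.thr 32 47 (.dbl 48 16 24)))))) (.rp 51 (.thr 0 8 (.thr 63 42 (.thr 29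 46 (.thr 25 17 (.thr 13 49 (.dbl 15 10 14)))))) (.rp 42 (.thr 0 8 (.thr 25 51 (.thr 13 49 (.dbl 15 10 14)))) (.rp 30 (.str 18 (.nv (.thr 0 8 (.thr 42 63 (.thr 32 47 (.dbl 48 16 24)))) (.nv (.thr 48 24 (.thr 33 3 (.thr 41 45 (.thr 60 56 (.dbl 44 28 35))))) (.nv (.thr 0 8 (.thr 25 51 (.thr 29 17 (.dbl 63 42 46)))) (.rp 8 (.thr 48 24 (.thr 3 33 (.thr 25 51 (.thr 13 49 (.dbl 15 11 14))))) .nd))))) (.rp 18 (.str 30 (.nv (.thr 0 8 (.thr 15 10 (.thr 11 3 (.thr 60 45 (.dbl 48 24 56))))) (.nv (.thr 25 51 (.thr 29 17 (.thr 63 46 (.dbl 0 8 42)))) (.nv (.thr 48 24 (.thr 60 56 (.thr 45 15 (.thr 41 33 (.dbl 44 28 35))))) (.nv (.thr 0 8 (.thr 42 63 (.thr 34 46 (.dbl 51 17 25)))) (.rp 8 (.thr 48 24 (.thr 25 51 (.thr 13 49 (.thr 15 14 (.dbl 60 45 56))))) .nd)))))) (.rp 8 (.thr 25 51 (.thr 13 49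 (.thr 15 14 (.thr 29 17 (.thr 63 46 (.dbl 0 10 42)))))) (.rp 0 (.thr 48 24 (.thr 60 56 (.thr 28 44 (.thr 25 51 (.thr 13 49 (.thr 15 14 (.thr 30 45 (.dbl 29 17 31)))))))) .nd))))))))))))))) (.rp 20 (.str 63 (.nv (.thr 4 6 (.thr 42 0 (.thr 47 32 (.thr 15 31 (.thr 55 38 (.thr 23 39 (.dbl 3 11 43))))))) (.nv (.thr 0 42 (.thr 10 15 (.thr 4 6 (.thr 12 8 (.thr 29 46 (.thr 25 17 (.dbl 38 51 55))))))) (.rp 55 (.thr 4 6 (.thr 0 42 (.thr 12 8 (.thr 29 46 (.thr 25 17 (.thr 13 49 (.dbl 15 10 14))))))) (.rp 42 (.thr 22 52 (.thr 4 6 (.thr 55 38 (.thr 23 39 (.thr 3 43 (.thr 41 60 (.thr 1 61 (.thr 0 2 (.dbl 15 10 11))))))))) (.rp 38 (.thr 22 52 (.thr 42 0 (.thr 47 32 (.thr 15 31 (.thr 3 11 (.thr 43 23 (.dbl 41 40 60))))))) (.rp 15 (.thr 4 6 (.thr 38 55 (.thr 0 42 (.thr 12 8 (.thr 29 46 (.dbl 25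 17 51)))))) (.rp 12 (.thr 22 52 (.thr 42 0 (.thr 47 32 (.thr 15 31 (.thr 3 11 (.thr 43 23 (.dbl 41 40 60))))))) (.rp 6 (.thr 22 52 (.thr 42 0 (.thr 47 32 (.thr 15 31 (.thr 3 11 (.thr 43 23 (.dbl 41 40 60))))))) (.rp 4 (.thr 42 0 (.thr 47 32 (.thr 15 31 (.thr 3 11 (.thr 43 23 (.thr 41 40 (.thr 60 22 (.dbl 45 30 33)))))))) (.rp 0 (.thr 22 52 (.thr 4 6 (.thr 55 38 (.thr 23 39 (.thr 3 43 (.thr 60 41 (.thr 62 61 (.thr 42 2 (.thr 47 32 (.dbl 15 11 31)))))))))) .nd))))))))))) (.rp 6 (.thr 22 52 (.thr 23 20 (.thr 55 39 (.str 3 (.nv (.thr 41 60 (.thr 1 61 (.thr 63 43 (.dbl 0 2 42)))) (.nv (.thr 4 38 (.thr 15 11 (.thr 41 60 (.thr 1 61 (.dbl 0 2 10))))) (.nv (.thr 63 43 (.thr 0 42 (.dbl 15 10 11))) (.rp 63 (.thr 4 38 (.thr 15 11 (.thr 0 10 (.thr 8 12 (.thr 41 60 (.dbl 1 2 61)))))) (.rp 41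 (.thr 63 43 (.thr 42 0 (.thr 47 32 (.dbl 15 11 31)))) (.rp 40 (.thr 15 11 (.thr 63 43 (.dbl 0 10 42))) (.rp 4 (.str 36 (.nv (.thr 41 60 (.thr 1 61 (.thr 63 43 (.dbl 0 2 42)))) (.nv (.thr 15 11 (.thr 41 60 (.thr 1 61 (.dbl 0 2 10)))) (.nv (.thr 63 43 (.thr 0 42 (.dbl 15 10 11))) (.rp 63 (.thr 15 11 (.thr 41 60 (.thr 33 45 (.thr 48 18 (.thr 12 24 (.thr 13 14 (.thr 25 49 (.thr 38 51 (.thr 35 44 (.thr 32 34 (.dbl 0 10 16))))))))))) (.rp 41 (.thr 63 43 (.thr 42 0 (.thr 47 32 (.dbl 15 11 31)))) (.rp 40 (.thr 15 11 (.thr 63 43 (.dbl 0 10 42))) (.rp 0 (.thr 15 11 (.thr 63 43 (.thr 47 31 (.thr 42 32 (.thr 62 2 (.dbl 60 41 61)))))) .nd)))))))) (.rp 0 (.thr 15 11 (.thr 63 43 (.thr 47 31 (.thr 42 32 (.thr 62 2 (.dbl 60 41 61)))))) .nd)))))))))))) (.rp 4 (.thr 22 52 (.thr 20 23 (.str 60 (.nv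 (.thr 0 40 (.thr 41 3 (.thr 61 1 (.dbl 63 42 62)))) (.nv (.thr 0 40 (.thr 15 10 (.dbl 3 11 41))) (.rp 55 (.str 54 (.nv (.thr 0 40 (.thr 51 57 (.thr 17 34 (.thr 25 29 (.dbl 38 6 12))))) (.nv (.thr 0 40 (.thr 15 10 (.dbl 3 11 41))) (.rp 41 (.thr 6 38 (.thr 0 40 (.thr 10 15 (.thr 42 63 (.dbl 2 14 62))))) (.rp 40 (.thr 38 6 (.thr 39 36 (.thr 51 57 (.thr 15 27 (.dbl 3 11 41))))) (.rp 0 (.thr 38 6 (.thr 39 36 (.thr 51 57 (.thr 15 27 (.dbl 3 11 41))))) .nd)))))) (.rp 54 (.str 55 (.nv (.thr 0 40 (.thr 41 3 (.thr 61 1 (.dbl 63 42 62)))) (.nv (.thr 0 40 (.thr 15 10 (.dbl 3 11 41))) (.rp 42 (.thr 0 40 (.thr 41 3 (.thr 45 33 (.dbl 15 10 30)))) (.rp 41 (.thr 0 40 (.thr 15 10 (.thr 42 63 (.thr 2 62 (.dbl 3 1 11))))) (.rp 40 (.thr 41 3 (.thr 61 1 (.thr 63 62 (.thr 0 42 (.thr 45 33 (.dbl 15 10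 30)))))) (.rp 3 (.thr 0 40 (.thr 15 10 (.thr 45 30 (.thr 41 33 (.thr 61 1 (.dbl 63 42 62)))))) (.rp 0 (.str 12 (.nv (.thr 41 3 (.thr 45 33 (.thr 15 30 (.thr 13 14 (.dbl 61 1 29))))) (.nv (.thr 28 44 (.thr 24 16 (.thr 25 19 (.thr 38 51 (.dbl 36 39 48))))) (.nv (.thr 28 44 (.thr 25 19 (.thr 17 29 (.thr 49 13 (.thr 1 33 (.dbl 41 3 61)))))) (.rp 3 (.thr 28 44 (.thr 25 19 (.thr 51 38 (.thr 63 59 (.dbl 29 17 46))))) .nd))))) .nd)))))))) (.rp 42 (.thr 0 40 (.thr 41 3 (.thr 45 33 (.dbl 15 10 30)))) (.rp 41 (.thr 0 40 (.thr 15 10 (.thr 42 63 (.thr 2 62 (.dbl 3 1 11))))) (.rp 40 (.thr 41 3 (.thr 61 1 (.thr 63 62 (.thr 0 42 (.thr 45 33 (.dbl 15 10 30)))))) (.rp 3 (.thr 0 40 (.thr 15 10 (.thr 45 30 (.thr 41 33 (.thr 61 1 (.dbl 63 42 62)))))) (.rp 0 (.str 12 (.nv (.thr 41 3 (.thr 45 33 (.thr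 15 30 (.thr 13 14 (.dbl 61 1 29))))) (.nv (.thr 28 44 (.thr 25 19 (.thr 29 17 (.thr 63 46 (.thr 61 62 (.dbl 13 45 49)))))) (.nv (.thr 44 28 (.thr 41 3 (.thr 38 35 (.thr 54 6 (.dbl 51 25 57))))) (.rp 63 (.thr 28 44 (.thr 24 16 (.thr 25 19 (.thr 38 51 (.dbl 36 39 48))))) (.rp 55 (.str 54 (.nv (.thr 38 6 (.thr 41 3 (.dbl 44 28 35))) (.nv (.thr 38 6 (.dbl 51 25 57)) (.rp 38 (.thr 44 28 (.thr 41 3 (.thr 45 33 (.thr 46 47 (.thr 63 29 (.dbl 61 1 62)))))) (.rp 6 (.thr 28 44 (.thr 51 57 (.dbl 25 19 38))) .nd))))) (.rp 54 (.str 55 (.nv (.thr 41 3 (.thr 45 33 (.thr 15 30 (.thr 13 14 (.dbl 61 1 29))))) (.nv (.thr 28 44 (.thr 24 16 (.thr 25 19 (.thr 38 51 (.dbl 36 39 48))))) (.nv (.thr 28 44 (.thr 25 19 (.thr 17 29 (.thr 49 13 (.thr 1 33 (.dbl 41 3 61)))))) (.rp 3 (.thr 28 44 (.thr 25 19 (.thr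 51 38 (.thr 63 59 (.dbl 29 17 46))))) .nd))))) .nd))))))) .nd)))))))))))) .nd))))))))))))

theorem w505 : WinAt (137441050656, 9007199321850368) :=
  chF (K := []) kn c505 137441050656 9007199321850368 53
    [] (by decide +kernel) (by decide +kernel)

/-- A certificate. -/
noncomputable def c506 : Ct := (.str 56 (.nv (.thr 5 53 (.thr 7 52 (.thr 4 6 (.thr 23 20 (.dbl 55 38 39))))) (.rp 55 (.str 63 (.nv (.thr 42 0 (.thr 52 7 (.thr 60 48 (.dbl 62 2 61)))) (.nv (.thr 53 5 (.thr 48 58 (.dbl 52 7 60))) (.rp 60 (.thr 53 5 (.thr 58 48 (.thr 59 57 (.thr 42 0 (.thr 25 8 (.thr 29 17 (.thr 28 19 (.thr 31 30 (.dbl 47 15 32))))))))) (.rp 52 (.thr 53 5 (.thr 58 48 (.thr 57 59 (.thr 61 49 (.thr 62 60 (.dbl 42 0 2)))))) (.rp 48 (.thr 20 23 (.thr 53 5 (.thr 42 0 (.thr 62 2 (.thr 61 60 (.thr 49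 57 (.thr 25 13 (.thr 8 59 (.thr 24 40 (.dbl 28 16 19)))))))))) (.rp 42 (.thr 53 5 (.thr 52 7 (.dbl 48 58 60))) (.rp 7 (.thr 53 5 (.thr 48 58 (.thr 60 52 (.thr 62 61 (.dbl 42 0 2))))) .nd)))))))) (.rp 54 (.thr 5 53 (.thr 23 20 (.thr 7 52 (.thr 55 39 (.dbl 4 6 38))))) (.rp 53 (.thr 20 23 (.thr 52 7 (.thr 36 4 (.thr 48 60 (.thr 24 12 (.thr 8 40 (.thr 28 16 (.thr 25 19 (.thr 42 59 (.thr 17 29 (.thr 49 13 (.thr 51 50 (.dbl 0 34 63))))))))))))) (.rp 52 (.str 0 (.nv (.thr 5 53 (.thr 20 23 (.thr 40 60 (.thr 8 24 (.thr 4 12 (.thr 6 7 (.dbl 38 54 55))))))) (.nv (.thr 5 53 (.thr 10 15 (.thr 42 63 (.thr 2 62 (.thr 3 1 (.thr 6 14 (.thr 4 7 (.dbl 38 54 55)))))))) (.nv (.thr 20 23 (.thr 40 60 (.thr 24 8 (.thr 16 28 (.thr 32 48 (.dbl 42 47 63)))))) (.rp 60 (.thr 53 5 (.thr 20 23 (.thr 42 63 (.thr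 32 47 (.thr 16 48 (.thr 28 24 (.thr 25 19 (.thr 59 8 (.thr 57 58 (.dbl 49 13 61)))))))))) (.rp 48 (.thr 20 23 (.thr 40 60 (.thr 8 24 (.thr 12 4 (.thr 42 63 (.thr 25 59 (.thr 51 38 (.dbl 17 29 34)))))))) (.rp 12 (.thr 20 23 (.thr 40 60 (.thr 24 8 (.thr 42 63 (.thr 32 47 (.dbl 16 28 48)))))) .nd))))))) (.rp 39 (.thr 53 5 (.thr 20 23 (.thr 52 7 (.thr 55 54 (.dbl 4 36 38))))) (.rp 38 (.thr 53 5 (.thr 52 7 (.thr 54 55 (.thr 60 48 (.thr 57 51 (.thr 59 58 (.thr 49 61 (.thr 25 13 (.thr 42 8 (.thr 0 63 (.dbl 20 23 40))))))))))) (.rp 23 (.thr 53 5 (.thr 52 7 (.thr 55 54 (.thr 4 38 (.thr 36 20 (.thr 48 60 (.thr 12 24 (.thr 0 8 (.dbl 63 42 58))))))))) (.rp 20 (.thr 53 5 (.thr 52 7 (.thr 54 55 (.thr 48 60 (.thr 58 63 (.thr 59 57 (.thr 62 50 (.thr 42 2 (.thr 25 8 (.thr 19 28 (.thr 17 29 (.thr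 32 47 (.dbl 16 0 18))))))))))))) (.rp 7 (.str 0 (.nv (.thr 20 23 (.thr 40 60 (.thr 8 24 (.thr 4 12 (.thr 36 52 (.dbl 38 39 55)))))) (.nv (.thr 42 63 (.thr 32 47 (.thr 48 16 (.thr 60 52 (.dbl 20 23 40))))) (.rp 60 (.thr 53 5 (.thr 63 42 (.thr 58 48 (.thr 59 57 (.thr 55 51 (.thr 54 52 (.dbl 38 4 6))))))) (.rp 52 (.thr 20 23 (.thr 40 60 (.thr 24 8 (.thr 16 28 (.thr 32 48 (.dbl 42 47 63)))))) (.rp 40 (.thr 53 5 (.thr 20 23 (.thr 42 63 (.thr 32 47 (.thr 48 16 (.thr 52 60 (.thr 4 36 (.dbl 55 38 54)))))))) (.rp 23 (.thr 53 5 (.thr 63 42 (.thr 58 48 (.thr 59 57 (.thr 55 51 (.thr 54 52 (.dbl 38 4 6))))))) (.rp 20 (.thr 53 5 (.thr 63 42 (.thr 58 48 (.thr 59 57 (.thr 55 51 (.thr 54 52 (.dbl 38 4 6))))))) (.rp 15 (.str 3 (.nv (.thr 23 20 (.dbl 63 42 43)) (.nv (.thr 2 1 (.dbl 42 62 63)) (.rp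 63 (.thr 2 1 (.thr 20 23 (.thr 60 40 (.thr 48 52 (.thr 32 16 (.dbl 42 47 62)))))) (.rp 42 (.thr 20 23 (.thr 40 60 (.thr 8 24 (.thr 4 12 (.thr 36 52 (.dbl 38 39 55)))))) .nd))))) (.rp 3 (.str 15 (.nv (.dbl 5 10 53) (.rp 53 (.thr 20 23 (.thr 60 40 (.thr 48 52 (.thr 32 16 (.dbl 42 47 63))))) (.rp 10 (.thr 53 5 (.thr 20 23 (.thr 60 40 (.thr 48 52 (.dbl 63 42 58))))) (.rp 5 (.thr 20 23 (.thr 60 40 (.thr 48 52 (.thr 32 16 (.dbl 42 47 63))))) .nd))))) .nd)))))))))) (.rp 6 (.thr 53 5 (.thr 20 23 (.thr 52 7 (.thr 4 36 (.dbl 55 38 54))))) (.rp 5 (.thr 20 23 (.thr 52 7 (.thr 4 36 (.thr 55 38 (.thr 54 53 (.thr 60 48 (.thr 0 40 (.thr 51 57 (.dbl 63 42 59))))))))) (.rp 4 (.str 0 (.nv (.thr 42 63 (.thr 32 47 (.thr 48 16 (.dbl 52 7 60)))) (.nv (.thr 20 23 (.thr 60 40 (.dbl 52 7 48))) (.rp 60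 (.thr 53 5 (.thr 20 23 (.thr 42 63 (.thr 32 47 (.thr 16 48 (.thr 28 24 (.thr 25 19 (.thr 59 8 (.thr 57 58 (.dbl 49 13 61)))))))))) (.rp 52 (.thr 20 23 (.thr 40 60 (.thr 24 8 (.thr 16 28 (.thr 32 48 (.dbl 42 47 63)))))) (.rp 48 (.thr 20 23 (.thr 40 60 (.thr 8 24 (.thr 42 63 (.thr 25 59 (.thr 17 29 (.thr 49 13 (.thr 1 33 (.dbl 2 3 62))))))))) (.rp 42 (.thr 20 23 (.thr 52 7 (.dbl 60 40 48))) (.rp 7 (.thr 20 23 (.thr 60 40 (.thr 48 52 (.thr 32 16 (.dbl 42 47 63))))) .nd)))))))) .nd))))))))))))))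

theorem w506 : WinAt (137445244928, 2199090366464) :=
  chF (K := []) kn c506 137445244928 2199090366464 41
    [] (by decide +kernel) (by decide +kernel)

/-- A certificate. -/
noncomputable def c507 : Ct := (.str 22 (.nv (.thr 23 20 (.thr 5 53 (.thr 7 52 (.thr 4 6 (.dbl 55 38 39))))) (.rp 56 (.str 41 (.nv (.thr 1 61 (.thr 3 60 (.thr 0 2 (.thr 23 20 (.dbl 63 42 43))))) (.nv (.thr 20 23 (.thr 52 7 (.thr 4 36 (.thr 53 5 (.dbl 55 38 54))))) (.nv (.thr 33 45 (.thr 1 61 (.thr 49 17 (.thr 5 53 (.dbl 13 9 25))))) .nd)))) (.rp 55 (.str 41 (.nv (.thr 20 23 (.thr 60 3 (.thr 0 40 (.thr 61 1 (.dbl 63 42 62))))) (.nv (.thr 53 5 (.thr 45 33 (.thr 61 1 (.thr 13 29 (.dbl 49 25 57))))) (.rp 61 (.thr 53 5 (.thr 33 45 (.thr 3 60 (.thr 23 20 (.thr 63 43 (.dbl 48 18 58)))))) (.rp 1 (.thr 53 5 (.thr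 33 45 (.thr 3 60 (.thr 23 20 (.thr 63 43 (.dbl 48 18 58)))))) .nd))))) (.rp 54 (.thr 23 20 (.thr 5 53 (.thr 7 52 (.thr 55 39 (.dbl 4 6 38))))) (.rp 53 (.thr 23 20 (.str 41 (.nv (.thr 3 60 (.thr 63 43 (.thr 0 42 (.dbl 1 2 61)))) (.nv (.thr 1 61 (.thr 3 60 (.thr 0 2 (.dbl 63 42 43)))) (.rp 63 (.thr 45 33 (.thr 61 1 (.thr 13 29 (.thr 60 3 (.thr 15 30 (.thr 12 14 (.thr 28 44 (.dbl 25 19 49)))))))) (.rp 61 (.thr 3 60 (.thr 63 43 (.thr 7 52 (.thr 55 39 (.thr 4 38 (.thr 6 5 (.thr 12 9 (.dbl 0 8 42)))))))) (.rp 60 (.thr 33 45 (.thr 1 61 (.thr 49 17 (.thr 13 25 (.thr 5 9 (.thr 7 52 (.thr 55 39 (.dbl 4 6 38)))))))) (.rp 43 (.thr 45 33 (.thr 61 1 (.thr 60 3 (.thr 63 62 (.thr 15 30 (.thr 47 31 (.dbl 42 0 32))))))) (.rp 42 (.thr 45 33 (.thr 61 1 (.thr 29 13 (.thr 3 60 (.thr 63 43 (.thr 12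 46 (.thr 9 6 (.dbl 25 17 57)))))))) (.rp 3 (.thr 33 45 (.thr 1 61 (.thr 49 17 (.thr 13 25 (.thr 5 9 (.thr 7 52 (.thr 55 39 (.dbl 4 6 38)))))))) (.rp 2 (.thr 45 33 (.thr 61 1 (.thr 29 13 (.thr 3 60 (.thr 63 43 (.thr 12 46 (.thr 9 6 (.dbl 25 17 57)))))))) (.rp 1 (.thr 3 60 (.thr 63 43 (.thr 7 52 (.thr 55 39 (.thr 4 38 (.thr 6 5 (.thr 0 42 (.dbl 12 8 9)))))))) (.rp 0 (.thr 33 45 (.thr 1 61 (.thr 49 17 (.thr 13 25 (.thr 5 9 (.thr 7 52 (.thr 55 39 (.dbl 4 6 38)))))))) .nd))))))))))))) (.rp 52 (.str 41 (.nv (.thr 3 60 (.thr 23 20 (.thr 33 45 (.thr 48 18 (.thr 53 5 (.dbl 63 43 58)))))) (.nv (.thr 20 23 (.thr 60 3 (.thr 0 40 (.thr 61 1 (.dbl 63 42 62))))) (.nv (.thr 45 33 (.thr 61 1 (.thr 13 29 (.thr 53 5 (.dbl 49 25 57))))) .nd)))) (.rp 41 .ext (.rp 39 (.thr 20 23 (.thr 53 5 (.thr 52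 7 (.thr 55 54 (.dbl 4 36 38))))) (.rp 38 (.thr 20 23 (.thr 5 53 (.str 41 (.nv (.thr 60 3 (.thr 0 40 (.thr 61 1 (.dbl 63 42 62)))) (.nv (.thr 45 33 (.thr 60 3 (.thr 0 40 (.dbl 15 10 30)))) (.nv (.thr 33 45 (.thr 1 61 (.thr 49 17 (.dbl 13 9 25)))) (.rp 50 (.str 14 (.nv (.thr 7 52 (.thr 6 4 (.thr 10 2 (.thr 0 15 (.dbl 60 3 40))))) (.nv (.thr 33 45 (.thr 1 61 (.thr 49 17 (.dbl 13 9 25)))) .nd))) (.rp 14 (.str 50 (.nv (.thr 60 3 (.thr 0 40 (.thr 61 1 (.dbl 63 42 62)))) (.nv (.thr 45 33 (.thr 60 3 (.thr 0 40 (.dbl 15 10 30)))) (.nv (.thr 33 45 (.thr 1 61 (.thr 49 17 (.dbl 13 9 25)))) .nd)))) .nd)))))))) (.rp 23 (.str 41 (.nv (.thr 1 61 (.thr 3 60 (.thr 0 2 (.thr 33 45 (.thr 48 18 (.thr 32 16 (.dbl 42 47 63))))))) (.nv (.thr 3 60 (.thr 5 53 (.thr 7 52 (.thr 6 4 (.thr 9 12 (.dbl 1 13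 61)))))) (.nv (.thr 53 5 (.thr 45 33 (.thr 61 1 (.thr 13 29 (.dbl 49 25 57))))) (.rp 61 (.thr 5 53 (.thr 45 33 (.thr 60 3 (.thr 15 30 (.thr 0 10 (.thr 40 20 (.dbl 42 43 63))))))) (.rp 13 (.thr 5 53 (.thr 45 33 (.thr 61 1 (.thr 60 3 (.thr 63 62 (.thr 15 30 (.dbl 0 10 42))))))) (.rp 1 (.thr 5 53 (.thr 45 33 (.thr 60 3 (.thr 15 30 (.thr 0 10 (.thr 40 20 (.dbl 42 43 63))))))) .nd))))))) (.rp 20 (.str 41 (.nv (.thr 1 61 (.thr 3 60 (.thr 5 53 (.thr 7 52 (.thr 9 13 (.dbl 6 4 12)))))) (.nv (.thr 1 61 (.thr 3 60 (.thr 0 2 (.thr 33 45 (.thr 48 18 (.thr 32 16 (.dbl 42 47 63))))))) (.nv (.thr 45 33 (.thr 61 1 (.thr 13 29 (.thr 53 5 (.dbl 49 25 57))))) (.rp 61 (.thr 53 5 (.thr 3 60 (.thr 33 45 (.thr 48 18 (.thr 63 58 (.thr 43 23 (.dbl 42 0 40))))))) (.rp 45 (.thr 53 5 (.thr 52 7 (.thr 54 55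 (.thr 61 1 (.thr 57 49 (.dbl 60 3 51)))))) (.rp 29 (.thr 5 53 (.thr 1 61 (.thr 13 9 (.thr 33 45 (.dbl 49 17 25))))) (.rp 13 (.thr 5 53 (.thr 60 3 (.thr 61 1 (.thr 63 62 (.thr 45 33 (.thr 15 30 (.dbl 0 10 42))))))) (.rp 1 (.thr 53 5 (.thr 3 60 (.thr 33 45 (.thr 48 18 (.thr 63 58 (.thr 43 23 (.dbl 42 0 40))))))) .nd))))))))) (.rp 7 (.thr 23 20 (.thr 5 53 (.str 41 (.nv (.thr 3 60 (.thr 63 43 (.thr 0 42 (.dbl 1 2 61)))) (.nv (.thr 33 45 (.thr 1 61 (.thr 49 17 (.dbl 13 9 25)))) (.rp 61 (.thr 3 60 (.thr 63 43 (.thr 33 45 (.thr 0 42 (.thr 1 2 (.thr 13 9 (.dbl 49 17 25))))))) (.rp 3 (.str 15 (.nv (.thr 45 33 (.thr 60 30 (.thr 61 1 (.thr 63 62 (.dbl 0 10 42))))) (.nv (.thr 33 45 (.thr 1 61 (.thr 49 17 (.dbl 13 9 25)))) (.rp 61 (.thr 45 33 (.thr 30 60 (.thr 0 10 (.thr 42 63 (.thr 62 2 (.thr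 47 32 (.dbl 46 14 44))))))) (.rp 49 (.thr 45 33 (.thr 30 60 (.thr 0 10 (.thr 42 63 (.thr 62 2 (.thr 47 32 (.dbl 46 14 44))))))) (.rp 45 (.thr 1 61 (.thr 13 9 (.thr 12 14 (.thr 0 10 (.thr 8 4 (.thr 42 63 (.dbl 25 49 59))))))) (.rp 33 (.thr 1 61 (.thr 13 9 (.thr 12 14 (.thr 0 10 (.thr 8 4 (.thr 42 63 (.dbl 25 49 59))))))) (.rp 17 (.thr 1 61 (.thr 13 9 (.thr 12 14 (.thr 45 33 (.thr 60 30 (.thr 28 44 (.dbl 25 19 49))))))) (.rp 1 (.thr 45 33 (.thr 30 60 (.thr 0 10 (.thr 42 63 (.thr 62 2 (.thr 47 32 (.dbl 46 14 44))))))) .nd))))))))) (.rp 1 (.thr 45 33 (.thr 60 3 (.thr 15 30 (.thr 0 10 (.thr 42 63 (.thr 43 40 (.thr 47 32 (.thr 44 46 (.dbl 35 38 39))))))))) .nd)))))))) (.rp 6 (.thr 20 23 (.thr 53 5 (.thr 52 7 (.thr 4 36 (.dbl 55 38 54))))) (.rp 5 (.thr 20 23 (.str 60 (.nv (.thr 0 40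 (.thr 42 63 (.thr 32 47 (.thr 48 16 (.dbl 52 7 56))))) (.nv (.thr 0 40 (.thr 42 63 (.thr 2 62 (.dbl 3 1 41)))) (.rp 63 (.thr 52 7 (.thr 4 36 (.thr 55 38 (.thr 54 53 (.thr 51 57 (.thr 0 40 (.thr 17 34 (.thr 25 29 (.thr 28 19 (.dbl 12 8 44)))))))))) (.rp 56 (.thr 41 3 (.thr 0 40 (.thr 63 42 (.dbl 61 1 62)))) (.rp 43 (.thr 0 40 (.thr 63 42 (.thr 41 3 (.dbl 61 1 62)))) (.rp 42 (.thr 52 7 (.thr 4 36 (.thr 55 38 (.thr 54 53 (.thr 51 57 (.thr 63 59 (.thr 61 62 (.dbl 41 1 3)))))))) (.rp 41 (.str 56 (.nv (.dbl 52 7 48) (.rp 52 (.thr 40 0 (.thr 24 8 (.thr 28 16 (.thr 12 44 (.thr 25 19 (.thr 38 51 (.dbl 36 39 48))))))) (.rp 48 (.thr 52 7 (.thr 4 36 (.thr 55 38 (.thr 54 53 (.thr 51 57 (.thr 63 59 (.dbl 0 40 42))))))) (.rp 7 (.thr 48 52 (.thr 0 40 (.thr 42 63 (.dbl 32 16 47)))) .nd))))) (.rp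 40 (.thr 41 3 (.thr 61 1 (.thr 63 62 (.thr 45 33 (.thr 15 30 (.thr 47 31 (.dbl 42 0 32))))))) (.rp 3 (.thr 0 40 (.thr 63 42 (.thr 61 62 (.thr 41 1 (.thr 45 33 (.thr 15 30 (.thr 47 31 (.thr 46 44 (.dbl 29 12 13))))))))) (.rp 0 (.thr 52 7 (.thr 4 36 (.thr 55 38 (.thr 54 53 (.thr 51 57 (.thr 63 59 (.thr 61 62 (.dbl 41 1 3)))))))) .nd)))))))))))) (.rp 4 (.str 41 (.nv (.thr 20 23 (.thr 60 3 (.thr 0 40 (.thr 61 1 (.dbl 63 42 62))))) (.nv (.thr 1 61 (.thr 33 45 (.thr 5 53 (.thr 49 17 (.dbl 13 9 25))))) (.rp 61 (.thr 5 53 (.thr 20 23 (.thr 60 3 (.thr 45 33 (.thr 15 30 (.dbl 0 10 40)))))) (.rp 1 (.thr 5 53 (.thr 20 23 (.thr 60 3 (.thr 45 33 (.thr 15 30 (.dbl 0 10 40)))))) .nd))))) .nd))))))))))))))))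

theorem w507 : WinAt (137441050624, 67110912) :=
  chF (K := [(137445244928, 2199090366464)]) (kc w506 kn) c507 137441050624 67110912 11
    [72059793128294400] (by decide +kernel) (by decide +kernel)

/-- A certificate. -/
noncomputable def c508 : Ct := (.str 41 (.nv (.thr 45 33 (.thr 61 1 (.thr 49 57 (.dbl 13 25 29)))) (.rp 61 (.str 52 (.nv (.thr 7 22 (.thr 55 54 (.thr 38 4 (.dbl 39 23 36)))) (.nv (.thr 22 7 (.thr 3 60 (.thr 23 20 (.thr 33 45 (.thr 48 18 (.dbl 63 43 58)))))) (.nv (.thr 22 7 (.thr 20 23 (.thr 55 54 (.dbl 4 36 38)))) (.rp 23 (.thr 33 45 (.thr 55 54 (.thr 38 4 (.thr 39 36 (.thr 35 44 (.thr 47 43 (.dbl 32 34 42))))))) (.rp 22 (.thr 33 45 (.thr 55 54 (.thr 38 4 (.thr 39 36 (.thr 35 44 (.thr 47 43 (.dbl 32 34 42))))))) (.rp 7 (.thr 55 54 (.thr 4 38 (.thr 20 36 (.thr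 22 23 (.thr 60 3 (.thr 0 40 (.thr 48 56 (.dbl 63 42 58)))))))) (.rp 4 (.thr 33 45 (.thr 55 54 (.thr 7 22 (.thr 39 23 (.thr 38 36 (.thr 35 44 (.thr 47 43 (.dbl 32 34 42)))))))) .nd)))))))) (.rp 57 (.str 52 (.nv (.thr 22 7 (.thr 60 3 (.thr 48 56 (.thr 61 1 (.dbl 63 58 62))))) (.nv (.thr 22 7 (.thr 20 23 (.thr 55 54 (.dbl 4 36 38)))) (.rp 60 (.thr 22 7 (.thr 20 23 (.thr 4 36 (.dbl 55 38 54)))) (.rp 22 (.thr 33 45 (.thr 55 54 (.thr 38 4 (.thr 39 36 (.thr 35 44 (.thr 47 43 (.dbl 32 34 42))))))) (.rp 7 (.thr 61 1 (.thr 55 54 (.thr 4 38 (.thr 20 36 (.thr 22 23 (.thr 60 3 (.thr 0 40 (.dbl 63 42 62)))))))) (.rp 6 (.thr 55 54 (.thr 4 38 (.thr 22 7 (.dbl 20 23 36)))) (.rp 4 (.thr 61 1 (.thr 54 55 (.thr 22 7 (.thr 6 38 (.thr 60 3 (.thr 48 56 (.dbl 63 58 62))))))) .nd)))))))) (.rp 49 (.str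 52 (.nv (.thr 22 7 (.thr 60 3 (.thr 48 56 (.thr 61 1 (.dbl 63 58 62))))) (.nv (.thr 22 7 (.thr 20 23 (.thr 55 54 (.dbl 4 36 38)))) (.rp 22 (.thr 33 45 (.thr 55 54 (.thr 38 4 (.thr 39 36 (.thr 35 44 (.thr 47 43 (.dbl 32 34 42))))))) (.rp 7 (.thr 61 1 (.thr 55 54 (.thr 4 38 (.thr 20 36 (.thr 22 23 (.thr 60 3 (.thr 0 40 (.dbl 63 42 62)))))))) (.rp 6 (.thr 55 54 (.thr 4 38 (.thr 22 7 (.dbl 20 23 36)))) (.rp 4 (.thr 61 1 (.thr 54 55 (.thr 22 7 (.thr 6 38 (.thr 60 3 (.thr 48 56 (.dbl 63 58 62))))))) .nd))))))) (.rp 45 (.str 52 (.nv (.thr 54 55 (.thr 61 1 (.thr 57 49 (.thr 60 51 (.dbl 22 3 7))))) (.nv (.thr 22 7 (.thr 60 3 (.thr 48 56 (.thr 61 1 (.dbl 63 58 62))))) (.nv (.thr 22 7 (.thr 20 23 (.thr 55 54 (.dbl 4 36 38)))) (.rp 22 (.thr 61 1 (.thr 57 49 (.thr 54 55 (.thr 60 51 (.thr 48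 56 (.dbl 63 58 62)))))) (.rp 7 (.thr 61 1 (.thr 57 49 (.thr 54 55 (.thr 60 51 (.thr 48 56 (.dbl 63 58 62)))))) .nd)))))) (.rp 33 (.str 0 (.nv (.thr 61 1 (.thr 63 42 (.thr 60 62 (.thr 22 3 (.thr 52 7 (.dbl 48 56 58)))))) (.nv (.thr 42 63 (.thr 32 47 (.thr 40 43 (.thr 48 16 (.thr 60 20 (.thr 52 56 (.dbl 22 3 7))))))) (.nv (.thr 1 61 (.thr 3 2 (.thr 60 22 (.thr 40 20 (.dbl 42 43 63))))) (.rp 63 (.thr 1 61 (.thr 3 2 (.thr 60 22 (.thr 40 20 (.thr 42 43 (.thr 32 47 (.thr 48 16 (.thr 52 56 (.thr 36 44 (.thr 55 54 (.dbl 38 4 39))))))))))) (.rp 60 (.thr 61 1 (.thr 49 57 (.thr 42 63 (.thr 32 47 (.thr 48 16 (.thr 51 50 (.thr 17 34 (.dbl 25 13 29)))))))) (.rp 42 (.thr 1 61 (.thr 3 2 (.thr 22 60 (.thr 20 23 (.thr 52 7 (.thr 4 36 (.dbl 55 38 54))))))) (.rp 22 (.thr 61 1 (.thr 49 57 (.thr 42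 63 (.thr 32 47 (.thr 48 16 (.thr 51 50 (.thr 17 34 (.dbl 25 13 29)))))))) (.rp 3 (.thr 61 1 (.thr 63 42 (.thr 60 62 (.thr 20 40 (.thr 22 23 (.thr 52 7 (.dbl 48 56 58))))))) .nd))))))))) (.rp 29 (.str 63 (.nv (.thr 61 1 (.thr 33 45 (.thr 60 62 (.thr 3 22 (.dbl 48 18 58))))) (.nv (.thr 42 0 (.thr 32 47 (.thr 40 43 (.thr 44 36 (.thr 35 38 (.dbl 33 34 45)))))) (.nv (.thr 61 1 (.thr 60 62 (.thr 22 3 (.thr 20 23 (.dbl 0 40 42))))) (.rp 42 (.thr 61 1 (.thr 60 62 (.thr 22 3 (.thr 52 7 (.dbl 48 56 58))))) .nd))))) (.rp 25 (.thr 33 45 (.str 38 (.nv (.thr 39 36 (.thr 55 4 (.thr 7 23 (.dbl 52 22 54)))) (.nv (.thr 39 36 (.thr 35 44 (.thr 32 34 (.dbl 47 42 43)))) (.rp 48 (.thr 35 44 (.thr 32 34 (.thr 47 42 (.dbl 39 36 43)))) (.rp 39 (.thr 35 44 (.thr 34 32 (.thr 1 61 (.thr 17 49 (.thr 0 51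 (.dbl 42 46 63)))))) (.rp 36 (.thr 35 44 (.thr 32 34 (.thr 47 42 (.thr 39 43 (.thr 55 4 (.thr 52 54 (.dbl 7 22 23))))))) (.rp 27 (.str 24 (.nv (.thr 39 36 (.thr 35 44 (.thr 32 34 (.dbl 47 42 43)))) (.nv (.thr 55 4 (.thr 52 54 (.thr 39 36 (.dbl 7 22 23)))) (.rp 39 (.thr 61 1 (.thr 57 49 (.thr 55 4 (.thr 54 52 (.thr 51 60 (.thr 63 59 (.thr 48 58 (.thr 3 18 (.dbl 35 19 44))))))))) (.rp 36 (.thr 55 4 (.thr 52 54 (.thr 35 44 (.thr 32 34 (.thr 47 42 (.thr 39 43 (.dbl 7 22 23))))))) .nd))))) (.rp 24 (.str 27 (.nv (.thr 1 61 (.thr 17 49 (.thr 35 44 (.thr 34 32 (.thr 0 51 (.dbl 42 46 63)))))) (.nv (.thr 55 4 (.thr 52 54 (.thr 7 22 (.dbl 39 23 36)))) (.rp 48 (.thr 36 39 (.thr 1 61 (.thr 17 49 (.thr 4 55 (.thr 35 44 (.thr 34 32 (.thr 20 52 (.thr 23 22 (.thr 19 31 (.dbl 51 0 3)))))))))) (.rp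 36 (.str 48 (.nv (.thr 1 61 (.thr 3 18 (.thr 49 17 (.thr 51 50 (.dbl 35 19 44))))) (.nv (.thr 35 44 (.thr 32 34 (.thr 0 16 (.dbl 42 47 63)))) (.nv (.thr 55 4 (.thr 52 54 (.thr 3 18 (.dbl 22 7 60)))) .nd)))) (.rp 28 (.thr 61 1 (.thr 57 49 (.thr 55 4 (.thr 54 52 (.thr 60 51 (.dbl 22 3 6)))))) (.rp 0 (.thr 35 44 (.thr 32 34 (.thr 47 42 (.dbl 39 36 43)))) .nd))))))) .nd))))))))) (.rp 13 (.thr 45 33 (.thr 1 61 (.str 0 (.nv (.thr 3 2 (.thr 22 60 (.thr 20 23 (.thr 52 7 (.thr 4 36 (.dbl 55 38 54)))))) (.nv (.thr 42 63 (.thr 43 40 (.thr 47 32 (.thr 35 39 (.dbl 44 38 46))))) (.nv (.thr 3 2 (.thr 60 22 (.thr 40 20 (.dbl 42 43 63)))) (.rp 63 (.thr 3 2 (.thr 60 22 (.thr 40 20 (.thr 42 43 (.thr 32 47 (.thr 48 16 (.thr 52 56 (.thr 36 44 (.thr 55 54 (.dbl 38 4 39)))))))))) (.rp 62 (.thr 3 2 (.thr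 60 22 (.thr 42 63 (.dbl 40 20 43)))) (.rp 60 (.thr 2 3 (.thr 42 63 (.thr 62 22 (.thr 47 32 (.thr 43 40 (.thr 35 39 (.dbl 44 38 46))))))) (.rp 15 (.str 14 (.nv (.thr 3 2 (.thr 22 60 (.thr 20 23 (.thr 52 7 (.thr 4 36 (.dbl 55 38 54)))))) (.nv (.thr 42 63 (.thr 43 40 (.thr 47 32 (.thr 35 39 (.dbl 44 38 46))))) (.nv (.thr 63 42 (.thr 3 2 (.thr 23 43 (.dbl 22 20 60)))) (.rp 63 (.thr 3 2 (.thr 60 22 (.thr 40 20 (.thr 42 43 (.thr 47 32 (.thr 46 44 (.thr 34 38 (.thr 51 17 (.thr 54 57 (.thr 52 55 (.thr 48 56 (.thr 50 49 (.dbl 62 30 58))))))))))))) (.rp 62 (.thr 63 42 (.thr 3 2 (.thr 22 60 (.dbl 23 20 43)))) (.rp 60 (.thr 2 3 (.thr 42 63 (.thr 62 22 (.thr 47 32 (.dbl 46 30 44))))) .nd))))))) (.rp 14 (.str 15 (.nv (.thr 42 63 (.thr 40 43 (.dbl 60 20 30))) (.nv (.thr 3 2 (.dbl 60 22 30))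 (.rp 60 (.thr 63 42 (.thr 3 2 (.thr 7 11 (.thr 23 43 (.dbl 22 20 52))))) (.rp 50 (.str 38 (.nv (.thr 36 39 (.thr 44 35 (.thr 32 40 (.dbl 42 47 63)))) (.nv (.thr 60 30 (.dbl 3 2 22)) .nd))) (.rp 38 (.str 50 (.nv (.thr 42 63 (.thr 40 43 (.dbl 60 20 30))) (.nv (.thr 3 2 (.dbl 60 22 30)) (.rp 60 (.thr 3 2 (.thr 7 11 (.thr 63 42 (.thr 23 43 (.dbl 22 20 52))))) (.rp 51 (.str 25 (.nv (.thr 42 63 (.thr 40 43 (.dbl 60 20 30))) (.nv (.thr 3 2 (.dbl 60 22 30)) (.rp 60 (.thr 3 2 (.thr 7 11 (.thr 63 42 (.thr 23 43 (.dbl 22 20 52))))) (.rp 30 (.thr 3 2 (.thr 7 11 (.dbl 22 52 60))) (.rp 3 (.thr 42 63 (.thr 60 30 (.dbl 40 20 43))) .nd)))))) (.rp 30 (.thr 3 2 (.thr 7 11 (.dbl 22 52 60))) (.rp 25 (.str 51 (.nv (.thr 27 39 (.thr 48 49 (.dbl 63 42 58))) (.nv (.thr 34 17 (.dbl 2 3 18)) (.rp 27 (.str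 24 (.nv (.thr 3 2 (.dbl 60 22 30)) (.nv (.thr 48 49 (.dbl 63 42 58)) .nd))) .nd)))) (.rp 3 (.thr 42 63 (.thr 60 30 (.dbl 40 20 43))) .nd)))))))) (.rp 30 (.thr 3 2 (.thr 7 11 (.dbl 22 52 60))) (.rp 3 (.thr 42 63 (.thr 60 30 (.dbl 40 20 43))) .nd)))))))) .nd))))))))))) (.rp 9 (.thr 45 33 (.thr 61 1 (.thr 13 29 (.dbl 49 25 57)))) (.rp 1 (.str 13 (.nv (.thr 45 33 (.thr 29 61 (.dbl 25 17 49))) (.rp 61 (.str 55 (.nv (.thr 52 54 (.thr 7 22 (.thr 38 4 (.dbl 39 23 36)))) (.nv (.thr 52 54 (.thr 22 7 (.thr 20 23 (.dbl 4 36 38)))) (.rp 54 (.thr 45 33 (.thr 38 4 (.thr 36 39 (.thr 44 35 (.thr 32 40 (.dbl 47 42 46)))))) (.rp 52 (.thr 45 33 (.thr 38 4 (.thr 36 39 (.thr 44 35 (.thr 32 40 (.dbl 47 42 46)))))) (.rp 38 (.thr 25 49 (.thr 17 29 (.thr 57 9 (.thr 54 52 (.thr 51 60 (.thr 63 59 (.dbl 0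 34 42))))))) (.rp 36 (.thr 49 25 (.thr 52 54 (.thr 22 7 (.thr 60 3 (.thr 48 56 (.thr 51 50 (.dbl 63 58 59))))))) (.rp 23 (.thr 25 49 (.thr 57 9 (.thr 54 52 (.thr 60 51 (.thr 38 4 (.dbl 22 3 6)))))) (.rp 22 (.thr 45 33 (.thr 38 4 (.thr 36 39 (.thr 44 35 (.thr 32 40 (.dbl 47 42 46)))))) (.rp 7 (.thr 25 49 (.thr 17 29 (.thr 57 9 (.thr 54 52 (.thr 51 60 (.thr 63 59 (.dbl 0 34 42))))))) (.rp 4 (.thr 25 49 (.thr 17 29 (.thr 57 9 (.thr 54 52 (.thr 51 60 (.thr 63 59 (.dbl 0 34 42))))))) .nd))))))))))) (.rp 49 (.thr 33 45 (.str 35 (.nv (.thr 32 34 (.thr 42 47 (.thr 43 40 (.thr 63 0 (.thr 3 23 (.dbl 48 18 58)))))) (.nv (.thr 38 44 (.thr 55 4 (.thr 52 54 (.thr 7 22 (.dbl 39 23 36))))) (.nv (.thr 32 34 (.thr 42 47 (.thr 40 43 (.dbl 44 36 38)))) (.rp 47 (.thr 34 32 (.thr 38 44 (.thr 46 42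 (.thr 55 4 (.thr 52 54 (.thr 7 22 (.dbl 39 23 36))))))) (.rp 46 (.thr 32 34 (.thr 47 42 (.thr 38 44 (.dbl 39 36 43)))) (.rp 44 (.thr 32 34 (.thr 47 42 (.thr 39 43 (.thr 38 36 (.thr 55 4 (.thr 7 23 (.dbl 52 22 54))))))) .nd)))))))) (.rp 45 (.str 63 (.nv (.thr 49 25 (.thr 61 57 (.thr 60 62 (.thr 22 3 (.thr 52 7 (.dbl 48 56 58)))))) (.nv (.thr 42 0 (.thr 43 40 (.thr 3 23 (.thr 60 22 (.thr 61 62 (.dbl 49 25 57)))))) (.nv (.thr 0 42 (.thr 25 49 (.thr 17 29 (.thr 51 34 (.thr 55 59 (.thr 54 52 (.dbl 57 9 60))))))) (.rp 60 (.thr 25 49 (.thr 57 9 (.thr 58 48 (.thr 42 0 (.dbl 59 8 56))))) (.rp 57 (.thr 42 0 (.thr 47 32 (.thr 15 31 (.thr 43 40 (.thr 3 23 (.thr 7 11 (.dbl 22 52 60))))))) (.rp 49 (.thr 42 0 (.thr 47 32 (.thr 15 31 (.thr 43 40 (.thr 3 23 (.thr 7 11 (.dbl 22 52 60))))))) (.rp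 25 (.thr 42 0 (.thr 47 32 (.thr 15 31 (.thr 43 40 (.thr 3 23 (.thr 7 11 (.dbl 22 52 60))))))) (.rp 0 (.thr 49 25 (.thr 57 61 (.thr 48 58 (.thr 51 50 (.thr 55 59 (.dbl 54 52 60)))))) .nd))))))))) (.rp 33 (.thr 25 49 (.thr 17 29 (.str 63 (.nv (.thr 57 9 (.thr 58 48 (.thr 59 56 (.dbl 42 0 8)))) (.nv (.thr 57 9 (.thr 42 0 (.thr 58 48 (.dbl 59 8 56)))) (.nv (.thr 0 42 (.thr 51 34 (.thr 55 59 (.thr 54 52 (.dbl 57 9 60))))) (.rp 59 (.thr 57 9 (.thr 0 42 (.thr 51 34 (.thr 60 54 (.thr 20 40 (.dbl 22 3 23)))))) (.rp 58 (.thr 57 9 (.thr 42 0 (.thr 43 40 (.thr 3 23 (.thr 60 22 (.thr 51 54 (.dbl 59 8 55))))))) (.rp 57 (.thr 0 42 (.thr 51 34 (.thr 55 59 (.thr 52 54 (.thr 7 22 (.thr 39 23 (.dbl 38 4 36))))))) (.rp 51 (.thr 42 0 (.thr 47 32 (.thr 15 31 (.thr 43 40 (.thr 3 23 (.thr 7 11 (.dbl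 22 52 60))))))) (.rp 42 (.thr 57 9 (.thr 58 48 (.thr 59 56 (.thr 51 55 (.thr 60 54 (.thr 0 34 (.thr 20 40 (.dbl 22 3 23)))))))) (.rp 9 (.thr 58 48 (.thr 0 42 (.thr 51 34 (.thr 55 59 (.thr 54 52 (.thr 60 57 (.dbl 62 50 61))))))) (.rp 0 (.thr 57 9 (.thr 58 48 (.thr 59 56 (.thr 51 55 (.thr 60 54 (.thr 3 22 (.thr 43 23 (.dbl 42 8 40)))))))) .nd))))))))))))) (.rp 29 (.str 63 (.nv (.thr 25 49 (.thr 42 0 (.thr 57 9 (.thr 58 48 (.dbl 59 8 56))))) (.nv (.thr 49 25 (.thr 61 57 (.thr 60 62 (.thr 22 3 (.thr 20 23 (.dbl 0 40 42)))))) (.nv (.thr 33 45 (.thr 48 58 (.thr 3 18 (.thr 23 43 (.dbl 22 20 60))))) (.rp 42 (.thr 49 25 (.thr 61 57 (.thr 60 62 (.thr 22 3 (.thr 52 7 (.dbl 48 56 58)))))) (.rp 3 (.thr 49 25 (.thr 57 61 (.thr 48 58 (.thr 51 50 (.thr 55 59 (.dbl 54 52 60)))))) .nd)))))) (.rp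 25 (.str 38 (.nv (.thr 36 39 (.thr 44 35 (.thr 32 40 (.thr 45 33 (.dbl 47 42 46))))) (.nv (.thr 39 36 (.thr 55 4 (.thr 7 23 (.dbl 52 22 54)))) (.rp 39 (.str 0 (.nv (.thr 4 55 (.thr 42 63 (.thr 40 43 (.thr 20 60 (.thr 52 36 (.dbl 22 7 23)))))) (.nv (.thr 42 63 (.thr 46 34 (.thr 44 35 (.dbl 47 32 45)))) (.rp 63 (.thr 33 45 (.thr 55 4 (.thr 52 54 (.thr 35 44 (.thr 32 34 (.thr 48 16 (.thr 60 56 (.dbl 3 18 22)))))))) (.rp 47 (.thr 45 33 (.thr 61 29 (.thr 63 42 (.thr 60 62 (.thr 20 40 (.dbl 22 3 23)))))) (.rp 46 (.thr 45 33 (.thr 61 29 (.thr 63 42 (.thr 60 62 (.thr 20 40 (.dbl 22 3 23)))))) (.rp 44 (.thr 45 33 (.thr 61 29 (.thr 63 42 (.thr 60 62 (.thr 20 40 (.dbl 22 3 23)))))) (.rp 42 (.thr 33 45 (.thr 55 4 (.thr 52 54 (.thr 35 44 (.thr 32 34 (.thr 48 16 (.thr 60 56 (.dbl 3 18 22))))))))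 (.rp 35 (.thr 45 33 (.thr 61 29 (.thr 63 42 (.thr 60 62 (.thr 20 40 (.dbl 22 3 23)))))) (.rp 27 (.str 24 (.nv (.thr 4 55 (.thr 42 63 (.thr 40 43 (.thr 20 60 (.thr 52 36 (.dbl 22 7 23)))))) (.nv (.thr 42 63 (.thr 46 34 (.thr 44 35 (.dbl 47 32 45)))) (.rp 63 (.thr 33 45 (.thr 35 44 (.thr 32 34 (.thr 16 48 (.thr 20 28 (.thr 60 40 (.dbl 22 3 23))))))) (.rp 51 (.str 15 (.nv (.thr 42 63 (.thr 32 47 (.thr 16 48 (.thr 20 28 (.dbl 40 43 60))))) (.nv (.thr 45 33 (.thr 60 30 (.thr 20 40 (.dbl 22 3 23)))) (.nv (.thr 35 44 (.thr 33 45 (.thr 32 34 (.dbl 42 47 63)))) (.rp 60 (.thr 63 42 (.thr 47 31 (.thr 45 33 (.dbl 44 35 46)))) .nd))))) (.rp 47 (.thr 45 33 (.thr 61 29 (.thr 63 42 (.thr 60 62 (.thr 20 40 (.dbl 22 3 23)))))) (.rp 46 (.thr 45 33 (.thr 61 29 (.thr 63 42 (.thr 60 62 (.thr 20 40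 (.dbl 22 3 23)))))) (.rp 44 (.thr 45 33 (.thr 61 29 (.thr 63 42 (.thr 60 62 (.thr 20 40 (.dbl 22 3 23)))))) (.rp 42 (.thr 33 45 (.thr 35 44 (.thr 32 34 (.thr 16 48 (.thr 20 28 (.thr 60 40 (.dbl 22 3 23))))))) (.rp 35 (.thr 45 33 (.thr 61 29 (.thr 63 42 (.thr 60 62 (.thr 20 40 (.dbl 22 3 23)))))) (.rp 15 (.str 51 (.nv (.thr 33 45 (.thr 34 17 (.dbl 35 32 44))) (.nv (.thr 55 4 (.dbl 63 42 59)) .nd))) .nd))))))))))) (.rp 24 (.str 27 (.nv (.thr 4 55 (.thr 42 63 (.thr 40 43 (.thr 20 60 (.thr 36 52 (.dbl 32 44 47)))))) (.nv (.thr 42 63 (.thr 46 34 (.thr 44 35 (.dbl 47 32 45)))) (.rp 63 (.thr 33 45 (.thr 55 4 (.thr 35 44 (.thr 34 32 (.thr 51 17 (.thr 3 19 (.thr 54 52 (.dbl 22 6 60)))))))) (.rp 48 (.str 36 (.nv (.thr 33 45 (.thr 35 44 (.thr 32 34 (.dbl 42 47 63)))) (.nv (.thr 4 55 (.thr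 20 52 (.thr 60 40 (.dbl 22 3 23)))) (.nv (.thr 44 35 (.thr 32 40 (.dbl 42 47 63))) .nd)))) (.rp 47 (.thr 45 33 (.thr 61 29 (.thr 63 42 (.thr 60 62 (.thr 22 3 (.dbl 20 23 40)))))) (.rp 46 (.thr 45 33 (.thr 61 29 (.thr 63 42 (.thr 60 62 (.thr 22 3 (.dbl 20 23 40)))))) (.rp 44 (.thr 45 33 (.thr 61 29 (.thr 63 42 (.thr 60 62 (.thr 22 3 (.dbl 20 23 40)))))) (.rp 42 (.thr 33 45 (.thr 55 4 (.thr 35 44 (.thr 34 32 (.thr 51 17 (.thr 3 19 (.thr 54 52 (.dbl 22 6 60)))))))) (.rp 36 (.str 48 (.nv (.thr 32 16 (.thr 33 45 (.dbl 35 34 44))) (.nv (.dbl 63 42 58) .nd))) (.rp 35 (.thr 45 33 (.thr 61 29 (.thr 63 42 (.thr 60 62 (.thr 22 3 (.dbl 20 23 40)))))) (.rp 32 (.thr 45 33 (.thr 61 29 (.thr 63 42 (.thr 60 62 (.thr 22 3 (.dbl 20 23 40)))))) .nd)))))))))))) .nd))))))))))) (.rp 36 (.thr 55 4 (.thr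 52 54 (.thr 7 22 (.thr 39 23 (.thr 35 44 (.thr 47 43 (.thr 33 45 (.dbl 32 34 42)))))))) (.rp 27 (.str 24 (.nv (.thr 33 45 (.thr 35 44 (.thr 32 34 (.thr 39 36 (.dbl 47 42 43))))) (.nv (.thr 55 4 (.thr 52 54 (.thr 39 36 (.dbl 7 22 23)))) (.rp 39 (.str 0 (.nv (.thr 4 55 (.thr 42 63 (.thr 40 43 (.thr 20 60 (.thr 52 36 (.dbl 22 7 23)))))) (.nv (.thr 42 63 (.thr 46 34 (.thr 44 35 (.dbl 47 32 45)))) (.rp 63 (.thr 33 45 (.thr 35 44 (.thr 32 34 (.thr 16 48 (.thr 20 28 (.thr 60 40 (.dbl 22 3 23))))))) (.rp 51 (.str 15 (.nv (.thr 42 63 (.thr 32 47 (.thr 16 48 (.thr 20 28 (.dbl 40 43 60))))) (.nv (.thr 45 33 (.thr 60 30 (.thr 20 40 (.dbl 22 3 23)))) (.nv (.thr 35 44 (.thr 33 45 (.thr 32 34 (.dbl 42 47 63)))) (.rp 60 (.thr 63 42 (.thr 47 31 (.thr 45 33 (.dbl 44 35 46)))) .nd))))) (.rp 47 (.thr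 45 33 (.thr 61 29 (.thr 63 42 (.thr 60 62 (.thr 20 40 (.dbl 22 3 23)))))) (.rp 46 (.thr 45 33 (.thr 61 29 (.thr 63 42 (.thr 60 62 (.thr 20 40 (.dbl 22 3 23)))))) (.rp 44 (.thr 45 33 (.thr 61 29 (.thr 63 42 (.thr 60 62 (.thr 20 40 (.dbl 22 3 23)))))) (.rp 42 (.thr 33 45 (.thr 35 44 (.thr 32 34 (.thr 16 48 (.thr 20 28 (.thr 60 40 (.dbl 22 3 23))))))) (.rp 35 (.thr 45 33 (.thr 61 29 (.thr 63 42 (.thr 60 62 (.thr 20 40 (.dbl 22 3 23)))))) (.rp 15 (.str 51 (.nv (.thr 33 45 (.thr 34 17 (.dbl 35 32 44))) (.nv (.thr 55 4 (.dbl 63 42 59)) .nd))) .nd))))))))))) (.rp 36 (.thr 33 45 (.thr 55 4 (.thr 52 54 (.thr 35 44 (.thr 32 34 (.thr 47 42 (.thr 39 43 (.dbl 7 22 23)))))))) .nd))))) (.rp 24 (.str 27 (.nv (.thr 55 4 (.thr 52 54 (.thr 7 22 (.dbl 39 23 36)))) (.nv (.thr 36 39 (.thr 45 33 (.thr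 44 35 (.thr 47 46 (.dbl 32 40 42))))) (.rp 39 (.str 48 (.nv (.thr 44 35 (.thr 45 33 (.thr 47 46 (.thr 63 58 (.dbl 42 0 32))))) (.nv (.thr 55 4 (.thr 52 54 (.thr 60 56 (.dbl 22 3 7)))) (.rp 0 (.thr 63 58 (.thr 33 45 (.thr 3 18 (.thr 22 60 (.dbl 23 20 43))))) .nd)))) (.rp 36 (.str 48 (.nv (.thr 44 35 (.thr 45 33 (.thr 46 47 (.thr 63 58 (.dbl 42 0 34))))) (.nv (.thr 55 4 (.thr 52 54 (.thr 60 56 (.dbl 22 3 7)))) (.rp 0 (.thr 63 58 (.thr 33 45 (.thr 3 18 (.thr 22 60 (.dbl 23 20 43))))) .nd)))) .nd))))) .nd))))))) (.rp 17 (.thr 45 33 (.thr 49 25 (.dbl 61 29 57))) .nd))))))))) .nd))))))))))))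

theorem w508 : WinAt (9007336695791616, 67112992) :=
  chF (K := []) kn c508 9007336695791616 67112992 5
    [] (by decide +kernel) (by decide +kernel)

/-- A certificate. -/
noncomputable def c509 : Ct := (.str 4 (.nv (.thr 7 6 (.thr 38 55 (.thr 52 22 (.dbl 36 20 39)))) (.nv (.thr 7 6 (.thr 22 52 (.thr 23 20 (.dbl 55 38 39)))) (.rp 55 (.thr 7 6 (.thr 52 22 (.thr 36 20 (.thr 38 39 (.str 0 (.nv (.thr 12 8 (.thr 48 24 (.thr 42 63 (.dbl 32 16 47)))) (.nv (.thr 42 63 (.thr 32 47 (.thr 44 40 (.thr 35 41 (.dbl 34 33 46))))) (.nv (.thr 12 8 (.thr 25 51 (.thr 29 17 (.dbl 63 42 46)))) (.rp 63 (.thr 12 8 (.thr 51 25 (.thr 34 17 (.thr 42 46 (.thr 32 47 (.dbl 48 16 24)))))) (.rp 59 (.thr 12 8 (.thr 51 25 (.thr 42 63 (.dbl 34 17 46)))) (.rp 51 (.thr 8 12 (.thr 42 63 (.thr 59 25 (.thr 32 47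 (.thr 48 16 (.thr 56 60 (.dbl 40 24 44))))))) (.rp 42 (.thr 12 8 (.thr 25 51 (.thr 17 29 (.thr 48 24 (.thr 16 32 (.thr 18 19 (.thr 3 33 (.dbl 15 10 11)))))))) (.rp 30 (.str 18 (.nv (.thr 12 8 (.thr 48 24 (.thr 16 32 (.thr 17 19 (.dbl 25 29 51))))) (.nv (.thr 15 10 (.thr 42 63 (.thr 32 47 (.thr 48 16 (.dbl 3 11 33))))) (.nv (.thr 15 10 (.thr 3 11 (.thr 48 33 (.dbl 12 8 24)))) (.nv (.thr 12 8 (.thr 25 51 (.thr 29 17 (.dbl 63 42 46)))) .nd))))) (.rp 18 (.str 30 (.nv (.thr 15 10 (.thr 45 60 (.thr 3 11 (.thr 41 33 (.dbl 1 2 61))))) (.nv (.thr 12 8 (.thr 42 63 (.thr 34 46 (.dbl 51 17 25)))) (.rp 58 (.thr 12 8 (.thr 48 24 (.thr 42 63 (.dbl 32 16 47)))) (.rp 42 (.thr 12 8 (.thr 48 24 (.thr 25 51 (.thr 29 17 (.thr 28 31 (.dbl 60 44 56)))))) (.rp 8 (.thr 15 10 (.thr 60 45 (.thr 48 56 (.thr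 32 16 (.dbl 42 47 63))))) .nd)))))) .nd)))))))))))))) (.rp 52 (.str 0 (.nv (.thr 7 6 (.thr 15 10 (.thr 55 38 (.thr 39 23 (.thr 51 27 (.dbl 63 42 59)))))) (.nv (.thr 12 8 (.thr 63 42 (.thr 29 46 (.thr 25 17 (.dbl 38 51 55))))) (.nv (.thr 6 7 (.thr 12 8 (.thr 3 9 (.thr 10 15 (.dbl 2 1 14))))) (.rp 55 (.str 54 (.nv (.thr 6 7 (.thr 22 38 (.thr 42 63 (.thr 2 62 (.dbl 10 14 15))))) (.nv (.thr 6 7 (.thr 12 8 (.thr 38 22 (.thr 25 51 (.thr 29 17 (.dbl 63 42 46)))))) (.nv (.thr 6 7 (.thr 12 8 (.thr 3 9 (.thr 10 15 (.dbl 2 1 14))))) (.rp 39 (.thr 12 8 (.thr 63 42 (.thr 29 46 (.thr 25 17 (.thr 38 51 (.dbl 6 7 22)))))) (.rp 23 (.thr 12 8 (.thr 63 42 (.thr 29 46 (.thr 25 17 (.thr 38 51 (.dbl 6 7 22)))))) (.rp 7 (.thr 12 8 (.thr 10 15 (.thr 63 42 (.thr 29 46 (.thr 25 17 (.thr 38 51 (.thr 6 22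 (.thr 3 9 (.dbl 2 1 14))))))))) (.rp 6 (.thr 12 8 (.thr 42 63 (.thr 32 47 (.thr 48 16 (.thr 36 24 (.thr 38 39 (.thr 34 46 (.dbl 51 17 25)))))))) .nd)))))))) (.rp 54 (.thr 55 38 (.thr 6 7 (.thr 12 8 (.thr 3 9 (.thr 2 1 (.dbl 10 14 15)))))) (.rp 10 (.thr 12 8 (.thr 42 63 (.thr 32 47 (.thr 48 16 (.thr 36 24 (.dbl 38 39 55)))))) .nd))))))) (.rp 39 (.str 0 (.nv (.thr 7 6 (.thr 15 10 (.thr 3 11 (.thr 2 1 (.thr 42 63 (.dbl 22 52 62)))))) (.nv (.thr 12 8 (.thr 63 42 (.thr 29 46 (.thr 25 17 (.dbl 38 51 55))))) (.nv (.thr 6 7 (.thr 12 8 (.thr 3 9 (.thr 2 1 (.dbl 10 14 15))))) (.rp 10 (.thr 38 55 (.thr 12 8 (.thr 51 25 (.thr 34 17 (.dbl 42 46 63))))) (.rp 8 (.thr 7 6 (.thr 22 52 (.thr 20 23 (.thr 60 40 (.thr 3 41 (.dbl 15 10 11)))))) .nd)))))) (.rp 38 (.str 0 (.nv (.thr 7 6 (.thr 15 10 (.thr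 22 52 (.thr 20 23 (.thr 60 40 (.dbl 3 11 41)))))) (.nv (.thr 7 6 (.thr 12 8 (.thr 42 63 (.thr 32 47 (.thr 48 16 (.thr 36 24 (.dbl 52 20 22))))))) (.nv (.thr 6 7 (.thr 12 8 (.thr 3 9 (.thr 10 15 (.dbl 2 1 14))))) (.rp 50 (.str 14 (.nv (.thr 10 15 (.dbl 6 2 7)) (.rp 15 (.thr 12 8 (.thr 6 7 (.thr 2 10 (.dbl 3 1 9)))) (.rp 10 (.thr 12 8 (.thr 7 6 (.thr 42 63 (.thr 32 47 (.thr 48 16 (.thr 36 24 (.dbl 52 20 22))))))) (.rp 7 (.thr 12 8 (.thr 42 63 (.thr 32 47 (.thr 48 16 (.thr 36 24 (.thr 40 44 (.dbl 20 52 60))))))) (.rp 6 (.thr 12 8 (.thr 42 63 (.thr 32 47 (.thr 48 16 (.thr 36 24 (.thr 40 44 (.dbl 20 52 60))))))) (.rp 2 (.thr 15 10 (.thr 7 6 (.thr 22 52 (.thr 3 11 (.thr 20 23 (.dbl 60 40 41)))))) .nd))))))) (.rp 15 (.thr 7 6 (.thr 22 52 (.thr 20 23 (.thr 60 40 (.thr 3 41 (.thr 2 1 (.dbl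 42 62 63))))))) (.rp 14 (.str 50 (.nv (.thr 42 63 (.thr 32 47 (.thr 48 16 (.thr 51 49 (.thr 17 34 (.thr 25 29 (.dbl 8 12 59))))))) (.nv (.thr 7 6 (.thr 22 52 (.thr 20 23 (.thr 60 40 (.thr 3 41 (.dbl 15 10 11)))))) (.rp 42 (.thr 7 6 (.thr 22 52 (.thr 20 23 (.thr 60 40 (.thr 41 3 (.thr 45 33 (.dbl 15 10 30))))))) (.rp 15 (.thr 12 8 (.thr 6 7 (.thr 3 9 (.thr 1 2 (.thr 41 61 (.thr 22 60 (.thr 23 20 (.dbl 63 42 43)))))))) (.rp 12 (.thr 15 10 (.thr 42 63 (.thr 32 47 (.thr 48 16 (.thr 51 49 (.thr 34 17 (.thr 33 35 (.dbl 18 2 3)))))))) .nd)))))) (.rp 7 (.thr 12 8 (.thr 42 63 (.thr 32 47 (.thr 48 16 (.thr 36 24 (.thr 20 52 (.dbl 40 44 60))))))) (.rp 6 (.thr 12 8 (.thr 42 63 (.thr 32 47 (.thr 48 16 (.thr 36 24 (.thr 20 52 (.dbl 40 44 60))))))) .nd))))))))) (.rp 22 (.thr 38 55 (.thr 36 39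 (.thr 7 6 (.thr 52 20 (.str 0 (.nv (.thr 12 8 (.thr 48 24 (.thr 42 63 (.dbl 32 16 47)))) (.nv (.thr 42 63 (.thr 32 47 (.thr 44 40 (.thr 35 41 (.dbl 34 33 46))))) (.nv (.thr 12 8 (.thr 25 51 (.thr 29 17 (.dbl 63 42 46)))) (.rp 63 (.thr 12 8 (.thr 51 25 (.thr 34 17 (.thr 42 46 (.thr 32 47 (.dbl 48 16 24)))))) (.rp 59 (.thr 12 8 (.thr 51 25 (.thr 42 63 (.dbl 34 17 46)))) (.rp 51 (.thr 8 12 (.thr 42 63 (.thr 59 25 (.thr 32 47 (.thr 48 16 (.thr 56 60 (.dbl 40 24 44))))))) (.rp 42 (.thr 12 8 (.thr 25 51 (.thr 17 29 (.thr 48 24 (.thr 16 32 (.thr 18 19 (.thr 3 33 (.dbl 15 10 11)))))))) (.rp 30 (.str 18 (.nv (.thr 12 8 (.thr 48 24 (.thr 16 32 (.thr 17 19 (.dbl 25 29 51))))) (.nv (.thr 15 10 (.thr 42 63 (.thr 32 47 (.thr 48 16 (.dbl 3 11 33))))) (.nv (.thr 15 10 (.thr 3 11 (.thr 48 33 (.dbl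 12 8 24)))) (.nv (.thr 12 8 (.thr 25 51 (.thr 29 17 (.dbl 63 42 46)))) .nd))))) (.rp 18 (.str 30 (.nv (.thr 15 10 (.thr 45 60 (.thr 3 11 (.thr 41 33 (.dbl 1 2 61))))) (.nv (.thr 12 8 (.thr 42 63 (.thr 34 46 (.dbl 51 17 25)))) (.rp 58 (.thr 12 8 (.thr 48 24 (.thr 42 63 (.dbl 32 16 47)))) (.rp 42 (.thr 12 8 (.thr 48 24 (.thr 25 51 (.thr 29 17 (.thr 28 31 (.dbl 60 44 56)))))) (.rp 8 (.thr 15 10 (.thr 60 45 (.thr 48 56 (.thr 32 16 (.dbl 42 47 63))))) .nd)))))) .nd)))))))))))))) (.rp 20 (.str 0 (.nv (.thr 7 6 (.thr 15 10 (.thr 22 52 (.thr 42 63 (.thr 2 62 (.dbl 3 1 11)))))) (.nv (.thr 12 8 (.thr 38 55 (.thr 25 51 (.thr 29 17 (.dbl 63 42 46))))) (.nv (.thr 6 7 (.thr 12 8 (.thr 3 9 (.thr 10 15 (.dbl 2 1 14))))) .nd)))) (.rp 7 (.str 42 (.nv (.thr 0 63 (.thr 12 8 (.thr 32 47 (.thr 48 16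 (.thr 36 24 (.thr 40 44 (.dbl 20 52 60))))))) (.nv (.thr 0 63 (.thr 12 8 (.thr 15 10 (.thr 38 55 (.thr 39 36 (.dbl 51 25 27)))))) (.nv (.thr 38 55 (.thr 39 36 (.thr 46 34 (.thr 47 32 (.thr 35 43 (.dbl 44 41 45)))))) (.rp 52 (.thr 32 47 (.thr 0 63 (.thr 12 8 (.thr 48 16 (.thr 36 24 (.dbl 38 39 55)))))) (.rp 36 (.thr 0 63 (.thr 12 8 (.thr 38 55 (.thr 34 46 (.dbl 51 17 25))))) .nd)))))) (.rp 6 (.str 0 (.nv (.thr 15 10 (.thr 38 55 (.thr 39 36 (.thr 42 63 (.thr 34 46 (.dbl 51 17 27)))))) (.nv (.thr 12 8 (.thr 42 63 (.thr 32 47 (.thr 48 16 (.thr 36 24 (.dbl 38 39 55)))))) (.nv (.thr 12 8 (.thr 38 55 (.thr 25 51 (.thr 29 17 (.dbl 63 42 46))))) (.rp 63 (.thr 38 55 (.thr 39 36 (.thr 12 8 (.thr 51 25 (.dbl 15 10 27))))) (.rp 55 (.thr 12 8 (.thr 42 63 (.thr 32 47 (.thr 48 16 (.thr 36 24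 (.thr 40 44 (.dbl 20 52 60))))))) (.rp 42 (.thr 38 55 (.thr 36 39 (.thr 12 8 (.thr 48 24 (.thr 32 16 (.thr 40 44 (.dbl 20 52 60))))))) (.rp 38 (.thr 12 8 (.thr 42 63 (.thr 32 47 (.thr 48 16 (.thr 36 24 (.thr 20 52 (.dbl 40 44 60))))))) (.rp 12 (.thr 38 55 (.thr 36 39 (.thr 42 63 (.thr 32 47 (.thr 40 44 (.dbl 20 52 60)))))) .nd))))))))) .nd)))))))))))

theorem w509 : WinAt (137441050656, 9007199321858048) :=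
  chF (K := []) kn c509 137441050656 9007199321858048 53
    [] (by decide +kernel) (by decide +kernel)

/-- A certificate. -/
noncomputable def c510 : Ct := (.str 50 (.nv (.thr 5 53 (.thr 13 49 (.thr 1 9 (.thr 29 17 (.dbl 61 41 45))))) (.rp 61 (.str 63 (.nv (.thr 42 0 (.thr 49 13 (.thr 51 48 (.dbl 59 8 55)))) (.nv (.thr 53 5 (.thr 48 58 (.dbl 49 13 51))) (.rp 51 (.thr 53 5 (.thr 58 48 (.thr 62 54 (.thr 42 0 (.thr 22 2 (.thr 23 20 (.thr 19 28 (.thr 31 27 (.dbl 47 15 32))))))))) (.rp 49 (.thr 53 5 (.thr 58 48 (.thr 54 62 (.thr 55 52 (.thr 59 51 (.dbl 42 0 8)))))) (.rp 48 (.thr 17 29 (.thr 53 5 (.thr 42 0 (.thr 59 8 (.thr 55 51 (.thr 52 54 (.thr 22 7 (.thr 2 62 (.thr 18 34 (.dbl 19 16 28)))))))))) (.rp 42 (.thr 53 5 (.thr 49 13 (.dbl 48 51 58))) (.rp 13 (.thr 53 5 (.thr 48 58 (.thr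 51 49 (.thr 59 55 (.dbl 42 0 8))))) .nd)))))))) (.rp 57 (.thr 5 53 (.thr 29 17 (.thr 13 49 (.thr 61 45 (.dbl 1 9 41))))) (.rp 53 (.thr 17 29 (.thr 49 13 (.thr 33 1 (.thr 48 51 (.thr 18 3 (.thr 2 34 (.thr 19 16 (.thr 22 28 (.thr 42 62 (.thr 20 23 (.thr 52 7 (.thr 60 56 (.dbl 0 40 63))))))))))))) (.rp 49 (.str 0 (.nv (.thr 5 53 (.thr 17 29 (.thr 34 51 (.thr 2 18 (.thr 1 3 (.thr 9 13 (.dbl 41 57 61))))))) (.nv (.thr 5 53 (.thr 10 15 (.thr 42 63 (.thr 8 59 (.thr 9 11 (.thr 1 13 (.thr 12 4 (.dbl 41 57 61)))))))) (.nv (.thr 17 29 (.thr 34 51 (.thr 18 2 (.thr 16 19 (.thr 32 48 (.dbl 42 47 63)))))) (.rp 51 (.thr 53 5 (.thr 17 29 (.thr 42 63 (.thr 32 47 (.thr 16 48 (.thr 19 18 (.thr 22 28 (.thr 62 2 (.thr 54 58 (.dbl 52 7 55)))))))))) (.rp 48 (.thr 17 29 (.thr 34 51 (.thr 2 18 (.thr 3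 1 (.thr 42 63 (.thr 22 62 (.thr 60 41 (.dbl 20 23 40)))))))) (.rp 3 (.thr 17 29 (.thr 34 51 (.thr 18 2 (.thr 42 63 (.thr 32 47 (.dbl 16 19 48)))))) .nd))))))) (.rp 45 (.thr 53 5 (.thr 17 29 (.thr 49 13 (.thr 61 57 (.dbl 1 33 41))))) (.rp 41 (.thr 53 5 (.thr 49 13 (.thr 57 61 (.thr 51 48 (.thr 54 60 (.thr 62 58 (.thr 52 55 (.thr 22 7 (.thr 42 2 (.thr 0 63 (.dbl 17 29 34))))))))))) (.rp 29 (.thr 53 5 (.thr 49 13 (.thr 61 57 (.thr 1 41 (.thr 33 17 (.thr 48 51 (.thr 3 18 (.thr 0 2 (.dbl 63 42 58))))))))) (.rp 17 (.thr 53 5 (.thr 49 13 (.thr 57 61 (.thr 48 51 (.thr 58 63 (.thr 62 54 (.thr 59 56 (.thr 42 8 (.thr 22 2 (.thr 28 19 (.thr 20 23 (.thr 32 47 (.dbl 16 0 24))))))))))))) (.rp 13 (.str 0 (.nv (.thr 17 29 (.thr 34 51 (.thr 2 18 (.thr 1 3 (.thr 33 49 (.dbl 41 45 61)))))) (.nv (.thr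 42 63 (.thr 32 47 (.thr 48 16 (.thr 51 49 (.dbl 17 29 34))))) (.rp 51 (.thr 53 5 (.thr 63 42 (.thr 58 48 (.thr 62 54 (.thr 61 60 (.thr 57 49 (.dbl 41 1 9))))))) (.rp 49 (.thr 17 29 (.thr 34 51 (.thr 18 2 (.thr 16 19 (.thr 32 48 (.dbl 42 47 63)))))) (.rp 34 (.thr 53 5 (.thr 17 29 (.thr 42 63 (.thr 32 47 (.thr 48 16 (.thr 49 51 (.thr 1 33 (.dbl 61 41 57)))))))) (.rp 29 (.thr 53 5 (.thr 63 42 (.thr 58 48 (.thr 62 54 (.thr 61 60 (.thr 57 49 (.dbl 41 1 9))))))) (.rp 17 (.thr 53 5 (.thr 63 42 (.thr 58 48 (.thr 62 54 (.thr 61 60 (.thr 57 49 (.dbl 41 1 9))))))) (.rp 15 (.str 12 (.nv (.thr 29 17 (.dbl 63 42 46)) (.nv (.thr 8 4 (.dbl 42 59 63)) (.rp 63 (.thr 8 4 (.thr 17 29 (.thr 51 34 (.thr 48 49 (.thr 32 16 (.dbl 42 47 59)))))) (.rp 42 (.thr 17 29 (.thr 34 51 (.thr 2 18 (.thr 1 3 (.thr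 33 49 (.dbl 41 45 61)))))) .nd))))) (.rp 12 (.str 15 (.nv (.dbl 5 10 53) (.rp 53 (.thr 17 29 (.thr 51 34 (.thr 48 49 (.thr 32 16 (.dbl 42 47 63))))) (.rp 10 (.thr 53 5 (.thr 17 29 (.thr 51 34 (.thr 48 49 (.dbl 63 42 58))))) (.rp 5 (.thr 17 29 (.thr 51 34 (.thr 48 49 (.thr 32 16 (.dbl 42 47 63))))) .nd))))) .nd)))))))))) (.rp 9 (.thr 53 5 (.thr 17 29 (.thr 49 13 (.thr 1 33 (.dbl 61 41 57))))) (.rp 5 (.thr 17 29 (.thr 49 13 (.thr 1 33 (.thr 61 41 (.thr 57 53 (.thr 51 48 (.thr 0 34 (.thr 60 54 (.dbl 63 42 62))))))))) (.rp 1 (.str 0 (.nv (.thr 42 63 (.thr 32 47 (.thr 48 16 (.dbl 49 13 51)))) (.nv (.thr 17 29 (.thr 51 34 (.dbl 49 13 48))) (.rp 51 (.thr 53 5 (.thr 17 29 (.thr 42 63 (.thr 32 47 (.thr 16 48 (.thr 19 18 (.thr 22 28 (.thr 62 2 (.thr 54 58 (.dbl 52 7 55)))))))))) (.rp 49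 (.thr 17 29 (.thr 34 51 (.thr 18 2 (.thr 16 19 (.thr 32 48 (.dbl 42 47 63)))))) (.rp 48 (.thr 17 29 (.thr 34 51 (.thr 2 18 (.thr 42 63 (.thr 22 62 (.thr 20 23 (.thr 52 7 (.thr 4 36 (.dbl 8 12 59))))))))) (.rp 42 (.thr 17 29 (.thr 49 13 (.dbl 51 34 48))) (.rp 13 (.thr 17 29 (.thr 51 34 (.thr 48 49 (.thr 32 16 (.dbl 42 47 63))))) .nd)))))))) .nd))))))))))))))

theorem w510 : WinAt (137474605056, 274945032192) :=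
  chF (K := []) kn c510 137474605056 274945032192 38
    [] (by decide +kernel) (by decide +kernel)

/-- A certificate. -/
noncomputable def c511 : Ct := (.str 25 (.nv (.thr 29 17 (.thr 5 53 (.thr 13 49 (.thr 1 9 (.dbl 61 41 45))))) (.rp 61 (.str 38 (.nv (.thr 17 29 (.thr 51 12 (.thr 0 34 (.thr 55 4 (.dbl 63 42 59))))) (.nv (.thr 53 5 (.thr 39 36 (.thr 55 4 (.thr 7 23 (.dbl 52 22 54))))) (.rp 55 (.thr 53 5 (.thr 36 39 (.thr 12 51 (.thr 29 17 (.thr 63 46 (.dbl 48 24 58)))))) (.rp 4 (.thr 53 5 (.thr 36 39 (.thr 12 51 (.thr 29 17 (.thr 63 46 (.dbl 48 24 58)))))) .nd))))) (.rp 57 (.thr 29 17 (.thr 5 53 (.thr 13 49 (.thr 61 45 (.dbl 1 9 41))))) (.rp 53 (.thr 29 17 (.str 38 (.nv (.thr 12 51 (.thr 63 46 (.thr 0 42 (.dbl 4 8 55)))) (.nv (.thr 4 55 (.thr 12 51 (.thr 0 8 (.dbl 63 42 46))))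 (.rp 63 (.thr 39 36 (.thr 55 4 (.thr 7 23 (.thr 51 12 (.thr 15 27 (.thr 3 11 (.thr 19 35 (.dbl 22 28 52)))))))) (.rp 55 (.thr 12 51 (.thr 63 46 (.thr 13 49 (.thr 61 45 (.thr 1 41 (.thr 9 5 (.thr 3 6 (.dbl 0 2 42)))))))) (.rp 51 (.thr 36 39 (.thr 4 55 (.thr 52 20 (.thr 7 22 (.thr 5 6 (.thr 13 49 (.thr 61 45 (.dbl 1 9 41)))))))) (.rp 46 (.thr 39 36 (.thr 55 4 (.thr 51 12 (.thr 63 59 (.thr 15 27 (.thr 47 31 (.dbl 42 0 32))))))) (.rp 42 (.thr 39 36 (.thr 55 4 (.thr 23 7 (.thr 12 51 (.thr 63 46 (.thr 3 43 (.thr 6 9 (.dbl 22 20 54)))))))) (.rp 12 (.thr 36 39 (.thr 4 55 (.thr 52 20 (.thr 7 22 (.thr 5 6 (.thr 13 49 (.thr 61 45 (.dbl 1 9 41)))))))) (.rp 8 (.thr 39 36 (.thr 55 4 (.thr 23 7 (.thr 12 51 (.thr 63 46 (.thr 3 43 (.thr 6 9 (.dbl 22 20 54)))))))) (.rp 4 (.thr 12 51 (.thr 63 46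 (.thr 13 49 (.thr 61 45 (.thr 1 41 (.thr 9 5 (.thr 0 42 (.dbl 3 2 6)))))))) (.rp 0 (.thr 36 39 (.thr 4 55 (.thr 52 20 (.thr 7 22 (.thr 5 6 (.thr 13 49 (.thr 61 45 (.dbl 1 9 41)))))))) .nd))))))))))))) (.rp 50 (.str 38 (.nv (.thr 4 55 (.thr 12 51 (.thr 0 8 (.thr 29 17 (.dbl 63 42 46))))) (.nv (.thr 17 29 (.thr 49 13 (.thr 1 33 (.thr 53 5 (.dbl 61 41 57))))) (.nv (.thr 36 39 (.thr 4 55 (.thr 52 20 (.thr 5 53 (.dbl 7 6 22))))) .nd)))) (.rp 49 (.str 38 (.nv (.thr 5 53 (.thr 17 29 (.thr 39 36 (.thr 51 12 (.thr 0 34 (.dbl 15 10 27)))))) (.nv (.thr 17 29 (.thr 51 12 (.thr 0 34 (.thr 55 4 (.dbl 63 42 59))))) (.nv (.thr 39 36 (.thr 55 4 (.thr 7 23 (.thr 53 5 (.dbl 52 22 54))))) .nd)))) (.rp 45 (.thr 17 29 (.thr 53 5 (.thr 49 13 (.thr 61 57 (.dbl 1 33 41))))) (.rp 41 (.thr 17 29 (.thr 5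 53 (.str 38 (.nv (.thr 51 12 (.thr 0 34 (.thr 55 4 (.dbl 63 42 59)))) (.nv (.thr 39 36 (.thr 51 12 (.thr 0 34 (.dbl 15 10 27)))) (.nv (.thr 36 39 (.thr 4 55 (.thr 52 20 (.dbl 7 6 22)))) (.rp 56 (.str 11 (.nv (.thr 13 49 (.thr 9 1 (.thr 10 8 (.thr 0 15 (.dbl 51 12 34))))) (.nv (.thr 36 39 (.thr 4 55 (.thr 52 20 (.dbl 7 6 22)))) .nd))) (.rp 11 (.str 56 (.nv (.thr 51 12 (.thr 0 34 (.thr 55 4 (.dbl 63 42 59)))) (.nv (.thr 39 36 (.thr 51 12 (.thr 0 34 (.dbl 15 10 27)))) (.nv (.thr 36 39 (.thr 4 55 (.thr 52 20 (.dbl 7 6 22)))) .nd)))) .nd)))))))) (.rp 38 .ext (.rp 29 (.str 38 (.nv (.thr 5 53 (.thr 12 51 (.thr 13 49 (.thr 9 1 (.thr 6 3 (.dbl 4 7 55)))))) (.nv (.thr 53 5 (.thr 39 36 (.thr 55 4 (.thr 7 23 (.dbl 52 22 54))))) (.rp 55 (.thr 5 53 (.thr 39 36 (.thr 51 12 (.thr 15 27 (.thr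 0 10 (.thr 34 17 (.dbl 42 46 63))))))) (.rp 53 (.thr 39 36 (.thr 55 4 (.thr 51 12 (.thr 63 59 (.thr 15 27 (.thr 47 31 (.dbl 42 0 32))))))) (.rp 7 (.thr 5 53 (.thr 39 36 (.thr 55 4 (.thr 51 12 (.thr 63 59 (.thr 15 27 (.dbl 0 10 42))))))) (.rp 5 (.thr 39 36 (.thr 55 4 (.thr 51 12 (.thr 63 59 (.thr 15 27 (.thr 47 31 (.dbl 42 0 32))))))) (.rp 4 (.thr 5 53 (.thr 39 36 (.thr 51 12 (.thr 15 27 (.thr 0 10 (.thr 34 17 (.dbl 42 46 63))))))) .nd)))))))) (.rp 17 (.str 38 (.nv (.thr 4 55 (.thr 5 53 (.thr 6 7 (.thr 12 51 (.thr 9 3 (.dbl 13 1 49)))))) (.nv (.thr 4 55 (.thr 12 51 (.thr 0 8 (.thr 36 39 (.thr 48 24 (.thr 32 16 (.dbl 42 47 63))))))) (.nv (.thr 39 36 (.thr 55 4 (.thr 7 23 (.thr 53 5 (.dbl 52 22 54))))) (.rp 55 (.thr 53 5 (.thr 12 51 (.thr 36 39 (.thr 48 24 (.thr 63 58 (.thr 46 29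 (.dbl 42 0 34))))))) (.rp 39 (.thr 53 5 (.thr 49 13 (.thr 57 61 (.thr 55 4 (.thr 54 52 (.dbl 51 12 60)))))) (.rp 23 (.thr 5 53 (.thr 4 55 (.thr 7 6 (.thr 36 39 (.dbl 52 20 22))))) (.rp 7 (.thr 5 53 (.thr 51 12 (.thr 55 4 (.thr 63 59 (.thr 39 36 (.thr 15 27 (.dbl 0 10 42))))))) (.rp 4 (.thr 53 5 (.thr 12 51 (.thr 36 39 (.thr 48 24 (.thr 63 58 (.thr 46 29 (.dbl 42 0 34))))))) .nd))))))))) (.rp 13 (.thr 29 17 (.thr 5 53 (.str 38 (.nv (.thr 12 51 (.thr 63 46 (.thr 0 42 (.dbl 4 8 55)))) (.nv (.thr 36 39 (.thr 4 55 (.thr 52 20 (.dbl 7 6 22)))) (.rp 55 (.thr 12 51 (.thr 63 46 (.thr 36 39 (.thr 0 42 (.thr 4 8 (.thr 7 6 (.dbl 52 20 22))))))) (.rp 12 (.str 15 (.nv (.thr 39 36 (.thr 51 27 (.thr 55 4 (.thr 63 59 (.dbl 0 10 42))))) (.nv (.thr 36 39 (.thr 4 55 (.thr 52 20 (.dbl 7 6 22)))) (.rp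 55 (.thr 39 36 (.thr 27 51 (.thr 0 10 (.thr 42 63 (.thr 59 8 (.thr 47 32 (.dbl 43 11 35))))))) (.rp 52 (.thr 39 36 (.thr 27 51 (.thr 0 10 (.thr 42 63 (.thr 59 8 (.thr 47 32 (.dbl 43 11 35))))))) (.rp 39 (.thr 4 55 (.thr 7 6 (.thr 3 11 (.thr 0 10 (.thr 2 1 (.thr 42 63 (.dbl 22 52 62))))))) (.rp 36 (.thr 4 55 (.thr 7 6 (.thr 3 11 (.thr 0 10 (.thr 2 1 (.thr 42 63 (.dbl 22 52 62))))))) (.rp 20 (.thr 4 55 (.thr 7 6 (.thr 3 11 (.thr 39 36 (.thr 51 27 (.thr 19 35 (.dbl 22 28 52))))))) (.rp 4 (.thr 39 36 (.thr 27 51 (.thr 0 10 (.thr 42 63 (.thr 59 8 (.thr 47 32 (.dbl 43 11 35))))))) .nd))))))))) (.rp 4 (.thr 39 36 (.thr 51 12 (.thr 15 27 (.thr 0 10 (.thr 42 63 (.thr 46 34 (.thr 47 32 (.thr 35 43 (.dbl 44 41 45))))))))) .nd)))))))) (.rp 9 (.thr 17 29 (.thr 53 5 (.thr 49 13 (.thr 1 33 (.dbl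 61 41 57))))) (.rp 5 (.thr 17 29 (.str 51 (.nv (.thr 0 34 (.thr 42 63 (.thr 32 47 (.thr 48 16 (.dbl 49 13 50))))) (.nv (.thr 0 34 (.thr 42 63 (.thr 8 59 (.dbl 12 4 38)))) (.rp 63 (.thr 49 13 (.thr 1 33 (.thr 61 41 (.thr 57 53 (.thr 60 54 (.thr 0 34 (.thr 20 40 (.thr 22 23 (.thr 19 28 (.dbl 3 2 35)))))))))) (.rp 50 (.thr 38 12 (.thr 0 34 (.thr 63 42 (.dbl 55 4 59)))) (.rp 46 (.thr 0 34 (.thr 63 42 (.thr 38 12 (.dbl 55 4 59)))) (.rp 42 (.thr 49 13 (.thr 1 33 (.thr 61 41 (.thr 57 53 (.thr 60 54 (.thr 63 62 (.thr 55 59 (.dbl 38 4 12)))))))) (.rp 38 (.str 50 (.nv (.dbl 49 13 48) (.rp 49 (.thr 34 0 (.thr 18 2 (.thr 19 16 (.thr 3 35 (.thr 22 28 (.thr 41 60 (.dbl 33 45 48))))))) (.rp 48 (.thr 49 13 (.thr 1 33 (.thr 61 41 (.thr 57 53 (.thr 60 54 (.thr 63 62 (.dbl 0 34 42))))))) (.rp 13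 (.thr 48 49 (.thr 0 34 (.thr 42 63 (.dbl 32 16 47)))) .nd))))) (.rp 34 (.thr 38 12 (.thr 55 4 (.thr 63 59 (.thr 39 36 (.thr 15 27 (.thr 47 31 (.dbl 42 0 32))))))) (.rp 12 (.thr 0 34 (.thr 63 42 (.thr 55 59 (.thr 38 4 (.thr 39 36 (.thr 15 27 (.thr 47 31 (.thr 43 35 (.dbl 23 3 7))))))))) (.rp 0 (.thr 49 13 (.thr 1 33 (.thr 61 41 (.thr 57 53 (.thr 60 54 (.thr 63 62 (.thr 55 59 (.dbl 38 4 12)))))))) .nd)))))))))))) (.rp 1 (.str 38 (.nv (.thr 17 29 (.thr 51 12 (.thr 0 34 (.thr 55 4 (.dbl 63 42 59))))) (.nv (.thr 4 55 (.thr 36 39 (.thr 5 53 (.thr 52 20 (.dbl 7 6 22))))) (.rp 55 (.thr 5 53 (.thr 17 29 (.thr 51 12 (.thr 39 36 (.thr 15 27 (.dbl 0 10 34)))))) (.rp 4 (.thr 5 53 (.thr 17 29 (.thr 51 12 (.thr 39 36 (.thr 15 27 (.dbl 0 10 34)))))) .nd))))) .nd))))))))))))))))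

theorem w511 : WinAt (137441050624, 67125248) :=
  chF (K := [(137474605056, 274945032192)]) (kc w510 kn) c511 137441050624 67125248 14
    [1126174851874816] (by decide +kernel) (by decide +kernel)

/-- A certificate. -/
noncomputable def c512 : Ct := (.str 22 (.nv (.thr 23 20 (.thr 7 52 (.thr 4 6 (.dbl 55 38 39)))) (.rp 55 (.str 41 (.nv (.thr 52 7 (.thr 1 61 (.thr 13 9 (.thr 49 25 (.dbl 33 17 45))))) (.nv (.thr 20 23 (.thr 60 3 (.thr 0 40 (.thr 61 1 (.dbl 63 42 62))))) (.nv (.thr 1 61 (.thr 13 9 (.thr 33 45 (.dbl 49 17 25)))) (.rp 61 (.thr 23 20 (.thr 3 60 (.thr 63 43 (.thr 0 42 (.thr 1 2 (.thr 13 9 (.thr 49 25 (.dbl 33 17 45)))))))) (.rp 52 (.str 54 (.nv (.thr 1 61 (.thr 13 9 (.thr 49 25 (.dbl 33 17 45)))) (.nv (.thr 3 60 (.thr 23 20 (.thr 63 43 (.thr 0 42 (.dbl 1 2 61)))))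 (.nv (.thr 33 45 (.thr 1 61 (.thr 49 17 (.dbl 13 9 25)))) (.rp 61 (.thr 38 6 (.thr 60 3 (.thr 44 35 (.thr 12 28 (.dbl 51 25 57))))) (.rp 45 (.thr 60 3 (.thr 57 51 (.thr 9 25 (.dbl 1 13 61)))) (.rp 1 (.thr 38 6 (.thr 60 3 (.thr 51 57 (.thr 44 35 (.dbl 12 25 28))))) .nd))))))) (.rp 1 (.thr 20 23 (.thr 60 3 (.thr 45 33 (.thr 0 40 (.thr 63 42 (.thr 61 62 (.thr 29 13 (.thr 12 46 (.thr 28 44 (.dbl 25 17 19)))))))))) .nd))))))) (.rp 54 (.thr 23 20 (.thr 7 52 (.thr 55 39 (.dbl 4 6 38)))) (.rp 52 (.str 41 (.nv (.thr 20 23 (.thr 60 3 (.thr 0 40 (.thr 61 1 (.dbl 63 42 62))))) (.nv (.thr 1 61 (.thr 13 9 (.thr 33 45 (.dbl 49 17 25)))) (.rp 61 (.thr 23 20 (.thr 3 60 (.thr 63 43 (.thr 0 42 (.thr 1 2 (.thr 13 9 (.thr 49 25 (.dbl 33 17 45)))))))) (.rp 60 (.thr 1 61 (.thr 13 9 (.thr 49 25 (.dbl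 33 17 45)))) (.rp 55 (.str 54 (.nv (.thr 1 61 (.thr 13 9 (.thr 49 25 (.dbl 33 17 45)))) (.nv (.thr 3 60 (.thr 23 20 (.thr 63 43 (.thr 0 42 (.dbl 1 2 61))))) (.nv (.thr 33 45 (.thr 1 61 (.thr 49 17 (.dbl 13 9 25)))) (.rp 61 (.thr 38 6 (.thr 60 3 (.thr 44 35 (.thr 12 28 (.dbl 51 25 57))))) (.rp 45 (.thr 60 3 (.thr 57 51 (.thr 9 25 (.dbl 1 13 61)))) (.rp 1 (.thr 38 6 (.thr 60 3 (.thr 51 57 (.thr 44 35 (.dbl 12 25 28))))) .nd))))))) (.rp 54 (.str 55 (.nv (.thr 1 61 (.thr 13 9 (.thr 33 45 (.dbl 49 17 25)))) (.nv (.thr 4 38 (.thr 7 6 (.dbl 23 20 39))) .nd))) (.rp 1 (.thr 20 23 (.thr 60 3 (.thr 45 33 (.thr 0 40 (.thr 63 42 (.thr 61 62 (.thr 29 13 (.thr 12 46 (.thr 28 44 (.dbl 25 17 19)))))))))) .nd)))))))) (.rp 39 (.thr 23 20 (.str 63 (.nv (.thr 42 0 (.thr 62 2 (.thr 60 61 (.dbl 3 41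 43)))) (.nv (.thr 3 43 (.thr 7 52 (.thr 41 60 (.thr 1 61 (.thr 9 13 (.dbl 6 4 12)))))) (.nv (.thr 0 42 (.thr 3 43 (.thr 1 2 (.thr 7 52 (.thr 9 13 (.dbl 6 4 12)))))) (.nv (.thr 3 43 (.thr 42 0 (.thr 62 2 (.dbl 60 41 61)))) (.rp 51 (.str 27 (.nv (.thr 0 42 (.thr 19 31 (.thr 25 28 (.thr 13 49 (.thr 1 9 (.dbl 3 2 43)))))) (.nv (.thr 19 31 (.thr 25 28 (.thr 42 0 (.thr 59 8 (.dbl 43 3 11))))) (.nv (.thr 0 42 (.thr 3 43 (.thr 1 2 (.dbl 41 60 61)))) (.rp 43 (.thr 19 31 (.thr 25 28 (.thr 13 49 (.thr 29 17 (.thr 61 45 (.dbl 1 9 41)))))) (.rp 42 (.thr 7 52 (.thr 3 43 (.thr 41 60 (.thr 1 61 (.thr 9 13 (.dbl 6 4 12)))))) (.rp 3 (.thr 19 31 (.thr 25 28 (.thr 13 49 (.thr 29 17 (.thr 61 45 (.dbl 1 9 41)))))) (.rp 0 (.thr 19 31 (.thr 25 28 (.thr 3 43 (.thr 13 49 (.thr 9 1 (.dbl 41 57 60))))))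 .nd)))))))) (.rp 43 (.thr 7 52 (.thr 4 6 (.thr 0 42 (.thr 12 8 (.thr 29 46 (.thr 25 17 (.dbl 38 51 55))))))) (.rp 41 (.thr 7 52 (.thr 4 6 (.thr 0 42 (.thr 12 8 (.thr 29 46 (.thr 25 17 (.dbl 38 51 55))))))) (.rp 40 (.thr 3 43 (.thr 60 41 (.thr 42 0 (.dbl 62 2 61)))) (.rp 27 (.str 51 (.nv (.thr 42 0 (.thr 62 2 (.thr 60 61 (.dbl 3 41 43)))) (.nv (.thr 7 52 (.thr 4 6 (.dbl 55 38 59))) (.rp 25 (.str 24 (.nv (.thr 42 0 (.thr 62 2 (.thr 60 61 (.dbl 3 41 43)))) (.nv (.thr 7 52 (.thr 4 6 (.dbl 55 38 59))) .nd))) (.rp 24 (.str 25 (.nv (.thr 28 19 (.thr 38 12 (.dbl 55 4 59))) (.nv (.thr 17 29 (.dbl 0 34 42)) (.rp 28 (.str 16 (.nv (.thr 42 0 (.dbl 59 8 55)) (.nv (.thr 29 17 (.dbl 12 38 46)) .nd))) .nd)))) .nd))))) (.rp 3 (.thr 7 52 (.thr 4 6 (.thr 0 42 (.thr 12 8 (.thr 29 46 (.thr 25 17 (.dbl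 38 51 55))))))) (.rp 0 (.thr 7 52 (.thr 4 6 (.thr 55 38 (.thr 43 3 (.thr 59 51 (.thr 27 11 (.thr 19 31 (.thr 25 28 (.thr 13 49 (.thr 42 8 (.thr 9 1 (.thr 2 62 (.dbl 41 40 57))))))))))))) .nd))))))))))))) (.rp 38 (.str 25 (.nv (.thr 7 52 (.thr 6 4 (.thr 13 49 (.thr 9 1 (.thr 3 12 (.dbl 41 57 60)))))) (.nv (.thr 29 17 (.thr 13 49 (.thr 1 9 (.dbl 61 41 45)))) (.rp 61 (.thr 20 23 (.thr 28 19 (.thr 24 16 (.thr 52 7 (.thr 36 4 (.thr 12 48 (.thr 60 44 (.thr 0 40 (.thr 63 42 (.dbl 29 17 46)))))))))) (.rp 57 (.thr 29 17 (.thr 13 49 (.thr 61 45 (.dbl 1 9 41)))) (.rp 50 (.str 14 (.nv (.thr 7 52 (.thr 6 4 (.thr 13 49 (.thr 9 1 (.thr 3 12 (.dbl 41 57 60)))))) (.nv (.thr 29 17 (.thr 13 49 (.thr 1 9 (.dbl 61 41 45)))) (.rp 61 (.thr 29 17 (.thr 28 19 (.thr 30 31 (.thr 7 52 (.thr 6 4 (.thr 2 10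 (.dbl 62 42 46))))))) (.rp 57 (.thr 29 17 (.thr 13 49 (.thr 61 45 (.dbl 1 9 41)))) (.rp 51 (.thr 17 29 (.thr 19 28 (.thr 18 16 (.thr 49 13 (.thr 33 1 (.thr 3 48 (.dbl 41 45 60))))))) (.rp 49 (.thr 29 17 (.thr 28 19 (.thr 30 31 (.thr 7 52 (.thr 6 4 (.thr 2 10 (.dbl 62 42 46))))))) (.rp 48 (.thr 29 17 (.thr 28 19 (.thr 30 31 (.thr 7 52 (.thr 6 4 (.thr 2 10 (.dbl 62 42 46))))))) (.rp 41 (.thr 29 17 (.thr 28 19 (.thr 30 31 (.thr 7 52 (.thr 6 4 (.thr 2 10 (.dbl 62 42 46))))))) (.rp 17 (.thr 7 52 (.thr 6 4 (.thr 2 10 (.thr 13 49 (.thr 1 9 (.thr 0 3 (.dbl 42 62 63))))))) (.rp 13 (.thr 29 17 (.thr 28 19 (.thr 30 31 (.thr 7 52 (.thr 6 4 (.thr 2 10 (.dbl 62 42 46))))))) (.rp 9 (.thr 17 29 (.thr 19 28 (.thr 18 16 (.thr 49 13 (.thr 33 1 (.thr 3 48 (.dbl 41 45 60))))))) (.rp 1 (.thr 29 17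 (.thr 28 19 (.thr 30 31 (.thr 7 52 (.thr 6 4 (.thr 2 10 (.dbl 62 42 46))))))) .nd))))))))))))) (.rp 49 (.thr 20 23 (.thr 28 19 (.thr 24 16 (.thr 52 7 (.thr 36 4 (.thr 12 48 (.thr 60 44 (.thr 0 40 (.thr 63 42 (.dbl 29 17 46)))))))))) (.rp 41 (.thr 20 23 (.thr 19 28 (.thr 17 29 (.thr 18 16 (.thr 49 13 (.thr 33 1 (.thr 3 48 (.thr 35 51 (.thr 32 34 (.thr 42 47 (.thr 7 52 (.thr 4 6 (.thr 8 59 (.dbl 0 12 63)))))))))))))) (.rp 17 (.thr 52 7 (.thr 23 20 (.str 3 (.nv (.thr 13 49 (.thr 1 9 (.thr 0 2 (.dbl 63 42 43)))) (.nv (.thr 60 41 (.thr 63 43 (.thr 42 0 (.dbl 62 2 61)))) (.nv (.thr 13 49 (.thr 1 9 (.dbl 41 60 61))) (.rp 61 (.thr 63 43 (.thr 0 42 (.thr 1 2 (.dbl 13 9 49)))) (.rp 50 (.str 14 (.nv (.thr 19 28 (.thr 51 35 (.thr 63 43 (.thr 59 55 (.dbl 42 0 8))))) (.nv (.thr 13 49 (.thr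 1 9 (.dbl 41 60 61))) (.rp 51 (.thr 41 60 (.thr 1 61 (.dbl 13 9 49))) (.rp 41 (.thr 13 49 (.thr 1 9 (.thr 0 2 (.dbl 63 42 43)))) .nd))))) (.rp 14 (.str 50 (.nv (.thr 19 28 (.thr 51 35 (.dbl 49 13 48))) (.nv (.thr 13 49 (.thr 1 9 (.dbl 41 60 61))) (.rp 49 (.thr 41 60 (.thr 63 43 (.thr 0 42 (.dbl 1 2 61)))) (.rp 41 (.thr 13 49 (.thr 1 9 (.thr 0 2 (.dbl 63 42 43)))) (.rp 13 (.str 12 (.nv (.thr 9 6 (.dbl 41 57 60)) (.nv (.thr 28 19 (.dbl 60 41 44)) (.rp 60 (.thr 19 28 (.thr 51 35 (.thr 63 43 (.thr 59 55 (.dbl 42 0 8))))) (.rp 41 (.thr 19 28 (.thr 63 43 (.thr 42 0 (.thr 59 8 (.dbl 51 35 55))))) .nd))))) .nd)))))) .nd))))))))) (.rp 14 (.str 50 (.nv (.thr 7 52 (.thr 6 4 (.thr 13 49 (.thr 9 1 (.thr 3 12 (.dbl 41 57 60)))))) (.nv (.thr 13 49 (.thr 1 9 (.thr 29 17 (.dbl 61 41 45)))) (.rp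 61 (.thr 19 28 (.thr 17 29 (.thr 18 16 (.thr 34 2 (.thr 51 0 (.dbl 49 13 48)))))) (.rp 57 (.thr 29 17 (.thr 13 49 (.thr 61 45 (.dbl 1 9 41)))) (.rp 49 (.thr 19 28 (.thr 17 29 (.thr 18 16 (.thr 34 2 (.thr 51 0 (.thr 3 35 (.thr 41 60 (.dbl 33 45 48)))))))) (.rp 41 (.thr 19 28 (.thr 17 29 (.thr 18 16 (.thr 34 2 (.thr 51 0 (.dbl 49 13 48)))))) (.rp 17 (.str 0 (.nv (.thr 20 23 (.thr 28 19 (.thr 16 24 (.thr 32 48 (.dbl 42 47 63))))) (.nv (.thr 13 49 (.thr 1 9 (.thr 3 2 (.dbl 41 60 61)))) (.rp 13 (.str 12 (.nv (.thr 20 23 (.thr 28 19 (.dbl 60 40 44))) (.nv (.thr 4 8 (.dbl 7 6 52)) .nd))) .nd)))) (.rp 13 (.str 12 (.nv (.thr 20 23 (.thr 28 19 (.thr 60 44 (.thr 0 40 (.thr 8 4 (.dbl 42 59 63)))))) (.nv (.thr 20 23 (.thr 28 19 (.thr 24 16 (.thr 48 36 (.thr 60 44 (.dbl 52 7 56)))))) (.nv (.thr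 29 17 (.thr 7 52 (.thr 4 6 (.thr 0 8 (.dbl 63 42 46))))) .nd)))) (.rp 9 (.thr 19 28 (.thr 17 29 (.thr 18 16 (.thr 34 2 (.thr 51 0 (.dbl 49 13 48)))))) (.rp 1 (.thr 19 28 (.thr 17 29 (.thr 18 16 (.thr 34 2 (.thr 51 0 (.thr 3 35 (.dbl 48 33 49))))))) .nd))))))))))) (.rp 13 (.thr 20 23 (.thr 28 19 (.thr 24 16 (.thr 52 7 (.thr 36 4 (.thr 12 48 (.thr 60 44 (.thr 0 40 (.thr 63 42 (.dbl 29 17 46)))))))))) (.rp 9 (.thr 19 28 (.thr 17 29 (.thr 18 16 (.thr 49 13 (.thr 33 1 (.thr 3 48 (.dbl 41 45 60))))))) (.rp 1 (.thr 20 23 (.thr 28 19 (.thr 24 16 (.thr 52 7 (.thr 36 4 (.thr 12 48 (.thr 60 44 (.thr 0 40 (.thr 63 42 (.dbl 29 17 46)))))))))) .nd))))))))))))) (.rp 23 (.str 3 (.nv (.thr 7 52 (.thr 6 4 (.thr 9 12 (.thr 41 60 (.dbl 1 13 61))))) (.nv (.thr 7 52 (.thr 6 4 (.thr 12 9 (.thr 60 41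 (.thr 28 44 (.thr 25 19 (.dbl 38 51 54))))))) (.nv (.thr 41 60 (.thr 1 61 (.thr 13 9 (.thr 49 25 (.dbl 33 17 45))))) (.rp 60 (.str 45 (.nv (.thr 7 52 (.thr 6 4 (.thr 9 12 (.thr 13 1 (.thr 29 61 (.dbl 25 17 49)))))) (.nv (.thr 41 33 (.thr 1 61 (.thr 2 0 (.thr 9 13 (.thr 6 12 (.thr 14 10 (.dbl 7 4 52))))))) (.nv (.thr 7 52 (.thr 6 4 (.thr 12 9 (.thr 33 41 (.thr 48 18 (.thr 36 24 (.dbl 38 39 54))))))) (.nv (.thr 7 52 (.thr 41 33 (.thr 1 61 (.thr 9 13 (.dbl 6 4 12))))) (.rp 57 (.thr 7 52 (.thr 6 4 (.thr 41 33 (.thr 9 12 (.dbl 1 13 61))))) (.rp 52 (.thr 41 33 (.thr 1 61 (.thr 0 2 (.thr 9 13 (.thr 12 6 (.thr 63 42 (.thr 29 46 (.dbl 25 17 57)))))))) (.rp 12 (.thr 7 52 (.thr 4 6 (.thr 55 38 (.thr 41 33 (.thr 1 61 (.thr 0 2 (.thr 13 9 (.thr 63 42 (.thr 51 59 (.thr 19 35 (.dbl 25 28 49)))))))))))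 (.rp 9 (.thr 7 52 (.thr 4 6 (.thr 41 33 (.thr 1 61 (.thr 0 2 (.thr 12 8 (.thr 63 42 (.thr 29 46 (.thr 25 17 (.dbl 38 51 55)))))))))) (.rp 7 (.thr 41 33 (.thr 1 61 (.thr 0 2 (.thr 9 13 (.thr 12 6 (.thr 63 42 (.thr 29 46 (.dbl 25 17 57)))))))) (.rp 6 (.str 4 (.nv (.thr 52 7 (.thr 36 20 (.dbl 38 39 55))) (.rp 55 (.thr 41 33 (.thr 1 61 (.thr 0 2 (.thr 13 9 (.thr 12 8 (.thr 63 42 (.thr 29 46 (.dbl 25 17 49)))))))) (.rp 52 (.thr 41 33 (.thr 1 61 (.thr 0 2 (.thr 13 9 (.thr 12 8 (.thr 63 42 (.thr 29 46 (.dbl 25 17 49)))))))) (.rp 40 (.thr 52 7 (.thr 41 33 (.thr 1 61 (.thr 36 20 (.thr 0 2 (.dbl 38 39 55)))))) (.rp 39 (.thr 41 33 (.thr 1 61 (.thr 0 2 (.thr 13 9 (.thr 12 8 (.thr 63 42 (.thr 29 46 (.dbl 25 17 49)))))))) (.rp 38 (.thr 52 7 (.thr 36 20 (.thr 33 41 (.thr 48 18 (.thr 12 24 (.thr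 0 8 (.thr 2 1 (.dbl 42 62 63)))))))) (.rp 36 (.thr 38 55 (.thr 41 33 (.thr 1 61 (.thr 0 2 (.thr 35 44 (.thr 51 19 (.dbl 12 8 25))))))) (.rp 20 (.thr 38 55 (.thr 41 33 (.thr 44 35 (.thr 47 46 (.thr 32 42 (.dbl 36 39 40)))))) (.rp 7 (.thr 38 55 (.thr 39 36 (.thr 41 33 (.thr 1 61 (.thr 0 2 (.thr 35 44 (.thr 51 19 (.dbl 12 8 25)))))))) (.rp 0 (.thr 38 55 (.thr 41 33 (.thr 44 35 (.thr 47 46 (.thr 32 42 (.dbl 36 39 40)))))) .nd))))))))))) (.rp 4 (.thr 41 33 (.thr 1 61 (.thr 0 2 (.thr 9 13 (.thr 12 6 (.thr 63 42 (.thr 29 46 (.dbl 25 17 57)))))))) .nd)))))))))))) (.rp 41 (.thr 7 52 (.thr 6 4 (.thr 9 12 (.thr 13 1 (.thr 25 49 (.thr 19 28 (.thr 51 35 (.thr 17 29 (.thr 16 18 (.thr 0 34 (.thr 32 48 (.dbl 42 47 63)))))))))))) (.rp 9 (.thr 7 52 (.thr 4 6 (.thr 41 60 (.thr 1 61 (.thr 0 2 (.thr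 12 8 (.thr 63 42 (.thr 29 46 (.thr 25 17 (.dbl 38 51 55)))))))))) .nd))))))) (.rp 20 (.str 41 (.nv (.thr 1 61 (.thr 13 9 (.thr 49 25 (.dbl 33 17 45)))) (.nv (.thr 1 61 (.thr 3 60 (.thr 7 52 (.thr 9 13 (.dbl 6 4 12))))) (.nv (.thr 1 61 (.thr 13 9 (.thr 33 45 (.dbl 49 17 25)))) (.rp 61 (.thr 7 52 (.thr 4 6 (.thr 55 38 (.thr 23 39 (.thr 3 60 (.thr 63 43 (.thr 51 59 (.thr 35 19 (.thr 0 42 (.thr 34 17 (.dbl 33 32 45))))))))))) (.rp 57 (.thr 33 45 (.thr 1 61 (.thr 49 17 (.dbl 13 9 25)))) (.rp 49 (.thr 7 52 (.thr 4 6 (.thr 55 38 (.thr 23 39 (.thr 3 60 (.thr 63 43 (.thr 0 42 (.dbl 1 2 61)))))))) (.rp 45 (.thr 7 52 (.thr 4 6 (.thr 60 3 (.thr 61 1 (.thr 63 62 (.thr 0 42 (.thr 12 8 (.thr 44 28 (.dbl 38 35 55))))))))) (.rp 13 (.thr 7 52 (.thr 4 6 (.thr 55 38 (.thr 23 39 (.thr 3 60 (.thr 63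 43 (.thr 1 61 (.dbl 0 2 42)))))))) (.rp 9 (.thr 7 52 (.thr 4 6 (.thr 55 38 (.thr 23 39 (.thr 3 60 (.thr 63 43 (.thr 1 61 (.dbl 0 2 42)))))))) (.rp 1 (.thr 7 52 (.thr 4 6 (.thr 55 38 (.thr 23 39 (.thr 3 60 (.thr 63 43 (.thr 51 59 (.thr 35 19 (.thr 0 42 (.thr 34 17 (.dbl 33 32 45))))))))))) .nd))))))))))) (.rp 7 (.str 3 (.nv (.thr 41 60 (.thr 1 61 (.thr 13 9 (.thr 49 25 (.dbl 33 17 45))))) (.nv (.thr 23 20 (.thr 63 43 (.thr 42 0 (.thr 62 2 (.dbl 60 41 61))))) (.rp 63 (.thr 20 23 (.thr 60 41 (.thr 0 40 (.thr 1 2 (.thr 13 9 (.thr 25 49 (.thr 19 28 (.thr 51 35 (.dbl 17 29 34))))))))) (.rp 62 (.thr 23 20 (.thr 63 43 (.thr 0 42 (.thr 1 2 (.dbl 41 60 61))))) (.rp 61 (.thr 20 23 (.thr 60 41 (.thr 0 40 (.thr 2 1 (.dbl 42 62 63))))) (.rp 60 (.thr 23 20 (.thr 63 43 (.thr 0 42 (.thr 1 2 (.thr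 13 9 (.thr 49 25 (.thr 33 17 (.dbl 41 45 61)))))))) (.rp 41 (.thr 23 20 (.str 6 (.nv (.thr 12 9 (.thr 38 54 (.thr 25 51 (.thr 29 17 (.dbl 63 43 46))))) (.nv (.thr 38 54 (.thr 55 4 (.thr 63 43 (.thr 51 59 (.thr 19 35 (.dbl 25 12 28)))))) (.nv (.thr 12 9 (.thr 63 43 (.thr 29 46 (.thr 25 17 (.dbl 38 51 54))))) (.rp 63 (.thr 38 54 (.thr 12 9 (.thr 25 51 (.thr 19 28 (.thr 17 29 (.thr 49 13 (.thr 33 1 (.dbl 18 16 48)))))))) (.rp 56 (.str 11 (.nv (.thr 12 9 (.thr 38 54 (.thr 25 51 (.thr 29 17 (.dbl 63 43 46))))) (.nv (.thr 9 12 (.thr 63 43 (.thr 42 0 (.thr 2 62 (.dbl 10 8 14))))) (.nv (.thr 12 9 (.thr 63 43 (.thr 29 46 (.thr 25 17 (.dbl 38 51 54))))) (.rp 63 (.thr 38 54 (.thr 12 9 (.thr 25 51 (.thr 49 13 (.thr 17 29 (.thr 1 33 (.thr 0 2 (.dbl 4 8 55)))))))) (.rp 43 (.thr 38 54 (.thr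 12 9 (.thr 25 51 (.thr 49 13 (.thr 17 29 (.thr 1 33 (.thr 0 2 (.dbl 4 8 55)))))))) (.rp 12 (.thr 38 54 (.thr 55 4 (.thr 63 43 (.thr 51 59 (.thr 19 35 (.thr 25 28 (.thr 17 29 (.dbl 0 34 42)))))))) (.rp 9 (.thr 38 54 (.thr 55 4 (.thr 63 43 (.thr 51 59 (.thr 19 35 (.dbl 25 12 28)))))) .nd)))))))) (.rp 54 (.thr 12 9 (.thr 63 43 (.thr 29 46 (.thr 25 17 (.thr 19 28 (.dbl 51 35 38)))))) (.rp 51 (.thr 38 54 (.thr 12 9 (.thr 63 43 (.thr 46 29 (.dbl 42 0 34))))) (.rp 43 (.thr 38 54 (.thr 12 9 (.thr 25 51 (.thr 19 28 (.thr 17 29 (.thr 49 13 (.thr 33 1 (.dbl 18 16 48)))))))) (.rp 38 (.thr 12 9 (.thr 63 43 (.thr 29 46 (.thr 25 17 (.thr 19 28 (.thr 42 0 (.thr 59 8 (.dbl 51 35 55)))))))) (.rp 25 (.thr 38 54 (.thr 63 43 (.thr 42 0 (.thr 46 34 (.dbl 12 9 29))))) (.rp 12 (.thr 38 54 (.thr 55 4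 (.thr 63 43 (.thr 51 59 (.thr 19 35 (.thr 25 28 (.thr 17 29 (.dbl 0 34 42)))))))) (.rp 11 (.str 56 (.nv (.thr 38 54 (.thr 55 4 (.thr 12 9 (.thr 63 43 (.dbl 51 25 59))))) (.nv (.thr 12 9 (.thr 38 54 (.thr 25 51 (.thr 39 36 (.thr 29 17 (.dbl 63 43 46)))))) (.nv (.thr 38 54 (.thr 63 43 (.thr 42 0 (.thr 46 34 (.dbl 12 9 29))))) (.nv (.thr 12 9 (.thr 63 43 (.thr 29 46 (.thr 25 17 (.dbl 38 51 54))))) (.rp 63 (.thr 38 54 (.thr 55 4 (.thr 36 39 (.thr 12 9 (.thr 48 24 (.thr 60 52 (.thr 28 44 (.dbl 25 19 51)))))))) (.rp 54 (.thr 12 9 (.thr 63 43 (.thr 29 46 (.thr 25 17 (.thr 19 28 (.dbl 51 35 38)))))) (.rp 51 (.thr 38 54 (.thr 12 9 (.thr 63 43 (.thr 42 0 (.dbl 46 29 34))))) (.rp 43 (.thr 38 54 (.thr 55 4 (.thr 36 39 (.thr 12 9 (.thr 48 24 (.thr 60 52 (.thr 28 44 (.dbl 25 19 51)))))))) (.rp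 38 (.thr 12 9 (.thr 63 43 (.thr 42 0 (.thr 62 2 (.thr 60 61 (.thr 44 28 (.thr 46 29 (.dbl 47 32 45)))))))) (.rp 12 (.thr 54 38 (.thr 63 43 (.thr 42 0 (.thr 62 2 (.thr 50 58 (.thr 60 61 (.thr 48 52 (.dbl 51 49 57)))))))) (.rp 9 (.thr 54 38 (.thr 63 43 (.thr 42 0 (.thr 62 2 (.thr 60 61 (.thr 57 51 (.dbl 58 50 59))))))) .nd)))))))))))) .nd)))))))))))))) .nd)))))))) (.rp 6 (.str 3 (.nv (.thr 41 60 (.thr 1 61 (.thr 13 9 (.thr 49 25 (.dbl 33 17 45))))) (.nv (.thr 23 20 (.thr 60 41 (.thr 63 43 (.thr 42 0 (.dbl 62 2 61))))) (.rp 63 (.thr 20 23 (.thr 52 7 (.thr 36 4 (.thr 60 41 (.thr 40 0 (.thr 44 32 (.thr 12 28 (.dbl 48 24 56)))))))) (.rp 62 (.thr 23 20 (.thr 63 43 (.thr 0 42 (.thr 1 2 (.dbl 41 60 61))))) (.rp 61 (.thr 20 23 (.thr 60 41 (.thr 0 40 (.thr 2 1 (.dbl 42 62 63))))) (.rp 60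 (.thr 23 20 (.thr 63 43 (.thr 0 42 (.thr 1 2 (.thr 13 9 (.thr 49 25 (.thr 33 17 (.dbl 41 45 61)))))))) (.rp 41 (.thr 23 20 (.thr 7 52 (.thr 55 39 (.thr 63 43 (.thr 51 59 (.thr 35 19 (.thr 42 0 (.thr 32 47 (.thr 34 33 (.dbl 38 4 46)))))))))) .nd)))))))) (.rp 4 (.str 41 (.nv (.thr 20 23 (.thr 60 3 (.thr 0 40 (.thr 61 1 (.dbl 63 42 62))))) (.nv (.thr 1 61 (.thr 13 9 (.thr 33 45 (.dbl 49 17 25)))) (.rp 61 (.thr 23 20 (.thr 3 60 (.thr 63 43 (.thr 0 42 (.thr 1 2 (.thr 13 9 (.thr 49 25 (.dbl 33 17 45)))))))) (.rp 60 (.thr 1 61 (.thr 13 9 (.thr 49 25 (.dbl 33 17 45)))) (.rp 1 (.thr 20 23 (.thr 60 3 (.thr 45 33 (.thr 0 40 (.thr 63 42 (.thr 61 62 (.thr 29 13 (.thr 12 46 (.thr 28 44 (.dbl 25 17 19)))))))))) .nd)))))) .nd))))))))))))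

theorem w512 : WinAt (137441050656, 9007199321882624) :=
  chF (K := []) kn c512 137441050656 9007199321882624 53
    [] (by decide +kernel) (by decide +kernel)

/-- A certificate. -/
noncomputable def c513 : Ct := (.str 55 (.nv (.thr 52 54 (.thr 7 22 (.thr 38 4 (.dbl 39 23 36)))) (.nv (.thr 52 54 (.thr 22 7 (.thr 20 23 (.dbl 4 36 38)))) (.rp 54 (.str 61 (.nv (.thr 38 4 (.thr 49 57 (.thr 25 13 (.thr 51 12 (.thr 48 50 (.dbl 63 58 59)))))) (.nv (.thr 41 1 (.thr 45 33 (.thr 13 29 (.dbl 49 25 57)))) (.rp 57 (.thr 38 4 (.thr 39 36 (.thr 41 1 (.thr 33 45 (.thr 35 44 (.thr 32 34 (.dbl 47 42 43))))))) (.rp 49 (.thr 38 4 (.thr 39 36 (.thr 41 1 (.thr 33 45 (.thr 35 44 (.thr 32 34 (.dbl 47 42 43))))))) (.rp 25 (.thr 38 4 (.thr 39 36 (.thr 41 1 (.thr 33 45 (.thr 35 44 (.thr 32 34 (.dbl 47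 42 43))))))) (.rp 13 (.thr 38 4 (.thr 49 57 (.thr 1 41 (.thr 17 33 (.thr 25 29 (.thr 51 12 (.thr 48 50 (.dbl 63 58 59)))))))) (.rp 9 (.thr 49 57 (.thr 13 25 (.thr 41 1 (.dbl 45 29 33)))) (.rp 1 (.thr 38 4 (.thr 36 39 (.thr 49 57 (.thr 13 25 (.thr 45 29 (.thr 41 33 (.thr 44 35 (.thr 47 46 (.dbl 32 40 42))))))))) .nd))))))))) (.rp 52 (.str 61 (.nv (.thr 38 4 (.thr 49 57 (.thr 25 13 (.thr 51 12 (.thr 48 50 (.dbl 63 58 59)))))) (.nv (.thr 41 1 (.thr 45 33 (.thr 49 57 (.dbl 13 25 29)))) (.rp 57 (.thr 38 4 (.thr 36 39 (.thr 41 1 (.thr 45 33 (.thr 44 35 (.thr 47 46 (.dbl 32 40 42))))))) (.rp 49 (.thr 38 4 (.thr 36 39 (.thr 41 1 (.thr 44 35 (.thr 32 40 (.thr 47 42 (.dbl 45 33 46))))))) (.rp 25 (.thr 38 4 (.thr 36 39 (.thr 41 1 (.thr 45 33 (.thr 44 35 (.thr 47 46 (.dbl 32 40 42)))))))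 (.rp 13 (.thr 38 4 (.thr 49 57 (.thr 1 41 (.thr 17 33 (.thr 25 29 (.thr 51 12 (.thr 48 50 (.dbl 63 58 59)))))))) (.rp 9 (.thr 49 57 (.thr 13 25 (.thr 41 1 (.dbl 45 29 33)))) (.rp 1 (.thr 38 4 (.thr 36 39 (.thr 49 57 (.thr 13 25 (.thr 45 29 (.thr 41 33 (.thr 44 35 (.thr 47 46 (.dbl 32 40 42))))))))) .nd))))))))) (.rp 38 (.thr 52 54 (.thr 22 7 (.thr 20 23 (.thr 4 36 (.str 60 (.nv (.thr 0 40 (.thr 63 42 (.dbl 48 56 58))) (.nv (.thr 41 3 (.thr 61 1 (.thr 49 57 (.thr 13 25 (.dbl 45 29 33))))) (.nv (.thr 48 56 (.thr 63 58 (.dbl 0 40 42))) (.rp 63 (.thr 0 40 (.thr 8 12 (.thr 3 41 (.thr 2 1 (.thr 42 62 (.thr 32 47 (.thr 25 59 (.thr 19 28 (.thr 35 51 (.thr 33 34 (.dbl 48 18 56))))))))))) (.rp 50 (.str 14 (.nv (.thr 0 40 (.thr 3 41 (.thr 2 1 (.thr 6 10 (.dbl 12 8 9))))) (.nv (.thr 41 3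 (.thr 45 33 (.thr 15 30 (.thr 13 12 (.dbl 61 1 29))))) (.nv (.thr 48 56 (.thr 0 40 (.dbl 63 42 58))) (.rp 62 (.str 58 (.nv (.dbl 48 56 63) (.rp 63 (.thr 56 48 (.thr 57 59 (.thr 49 61 (.thr 25 13 (.dbl 41 3 9))))) (.rp 56 (.thr 63 48 (.dbl 0 40 42)) (.rp 48 (.thr 0 40 (.thr 12 8 (.thr 15 13 (.thr 45 30 (.dbl 41 3 33))))) .nd))))) (.rp 58 (.str 62 (.nv (.thr 42 2 (.thr 61 63 (.dbl 41 1 3))) (.nv (.thr 30 46 (.thr 45 15 (.dbl 41 3 33))) (.nv (.thr 63 61 (.dbl 42 0 2)) (.rp 42 (.str 10 (.nv (.thr 0 40 (.thr 2 6 (.dbl 3 1 41))) (.nv (.thr 46 30 (.thr 63 61 (.thr 12 29 (.dbl 0 8 40)))) (.nv (.thr 61 63 (.dbl 41 1 3)) (.rp 46 (.str 34 (.nv (.thr 0 40 (.thr 2 6 (.dbl 3 1 41))) (.nv (.thr 63 61 (.thr 51 59 (.dbl 0 17 40))) (.nv (.thr 61 63 (.dbl 41 1 3)) .nd)))) .nd))))) .nd))))) (.rp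 41 (.thr 0 40 (.thr 12 8 (.thr 13 15 (.thr 25 49 (.dbl 28 19 44))))) (.rp 11 (.thr 0 40 (.thr 63 42 (.dbl 48 56 58))) .nd)))))))) (.rp 41 (.thr 0 40 (.thr 8 12 (.thr 42 63 (.thr 25 59 (.thr 29 17 (.thr 13 49 (.thr 45 61 (.thr 30 15 (.dbl 28 19 31))))))))) (.rp 14 (.str 50 (.nv (.thr 0 40 (.thr 42 63 (.thr 2 62 (.dbl 3 1 41)))) (.nv (.thr 48 56 (.thr 51 49 (.dbl 63 58 59))) (.rp 63 (.thr 48 56 (.thr 49 51 (.thr 61 57 (.dbl 41 1 3)))) (.rp 41 (.thr 0 40 (.thr 42 63 (.thr 2 62 (.thr 18 34 (.thr 3 1 (.dbl 48 33 56)))))) .nd))))) (.rp 0 (.thr 48 56 (.thr 63 58 (.thr 41 3 (.dbl 61 1 62)))) .nd))))))))))))) (.rp 36 (.str 61 (.nv (.thr 38 4 (.thr 49 57 (.thr 25 13 (.thr 51 12 (.thr 48 50 (.dbl 63 58 59)))))) (.nv (.thr 41 1 (.thr 45 33 (.thr 49 57 (.dbl 13 25 29)))) (.rp 57 (.thr 52 54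 (.thr 22 7 (.thr 41 1 (.thr 60 3 (.thr 63 62 (.dbl 48 56 58)))))) (.rp 49 (.thr 52 54 (.thr 22 7 (.thr 41 1 (.thr 60 3 (.thr 63 62 (.dbl 48 56 58)))))) (.rp 25 (.thr 52 54 (.thr 22 7 (.thr 41 1 (.thr 60 3 (.thr 63 62 (.dbl 48 56 58)))))) (.rp 13 (.thr 54 52 (.thr 57 49 (.thr 60 51 (.thr 41 1 (.thr 9 25 (.thr 22 3 (.dbl 38 4 6))))))) (.rp 9 (.thr 49 57 (.thr 13 25 (.thr 41 1 (.dbl 45 29 33)))) (.rp 1 (.thr 54 52 (.thr 57 49 (.thr 60 51 (.thr 63 62 (.thr 0 42 (.thr 38 4 (.thr 20 40 (.dbl 22 6 23)))))))) .nd))))))))) (.rp 23 (.str 61 (.nv (.thr 1 41 (.thr 49 57 (.thr 25 13 (.dbl 17 29 33)))) (.nv (.thr 41 1 (.thr 45 33 (.thr 49 57 (.dbl 13 25 29)))) (.rp 57 (.thr 52 54 (.thr 22 7 (.thr 41 1 (.thr 60 3 (.thr 63 62 (.dbl 48 56 58)))))) (.rp 49 (.thr 52 54 (.thr 22 7 (.thr 41 1 (.thr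 60 3 (.thr 63 62 (.dbl 48 56 58)))))) (.rp 41 (.thr 38 4 (.thr 49 57 (.thr 25 13 (.thr 51 12 (.thr 48 50 (.dbl 63 58 59)))))) (.rp 33 (.thr 52 54 (.thr 22 7 (.thr 41 1 (.thr 60 3 (.thr 63 62 (.dbl 48 56 58)))))) (.rp 29 (.thr 52 54 (.thr 22 7 (.thr 41 1 (.thr 60 3 (.thr 63 62 (.dbl 48 56 58)))))) (.rp 25 (.thr 52 54 (.thr 22 7 (.thr 41 1 (.thr 60 3 (.thr 63 62 (.dbl 48 56 58)))))) (.rp 13 (.thr 54 52 (.thr 38 4 (.thr 57 49 (.thr 51 60 (.thr 25 12 (.dbl 41 1 9)))))) (.rp 1 (.thr 54 52 (.thr 38 4 (.thr 36 39 (.thr 57 49 (.thr 51 60 (.thr 12 25 (.thr 63 59 (.dbl 48 24 58)))))))) .nd))))))))))) (.rp 22 (.thr 54 52 (.str 61 (.nv (.thr 38 4 (.thr 57 49 (.thr 51 60 (.thr 25 12 (.dbl 41 1 9))))) (.nv (.thr 41 1 (.thr 45 33 (.thr 49 57 (.dbl 13 25 29)))) (.rp 57 (.thr 38 4 (.thr 36 39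 (.thr 41 1 (.thr 45 33 (.thr 44 35 (.thr 47 46 (.dbl 32 40 42))))))) (.rp 49 (.thr 38 4 (.thr 36 39 (.thr 41 1 (.thr 44 35 (.thr 32 40 (.thr 47 42 (.dbl 45 33 46))))))) (.rp 41 (.thr 38 4 (.thr 49 57 (.thr 25 13 (.thr 51 12 (.thr 48 50 (.dbl 63 58 59)))))) (.rp 30 (.str 18 (.nv (.thr 41 1 (.thr 33 45 (.thr 48 3 (.thr 63 58 (.thr 51 59 (.dbl 60 57 62)))))) (.nv (.thr 38 4 (.thr 49 57 (.thr 25 13 (.thr 51 12 (.thr 48 50 (.dbl 63 58 59)))))) (.nv (.thr 41 1 (.thr 45 33 (.thr 49 57 (.dbl 13 25 29)))) (.rp 57 (.thr 38 4 (.thr 36 39 (.thr 41 1 (.thr 44 35 (.thr 32 40 (.thr 47 42 (.dbl 45 33 46))))))) (.rp 13 (.thr 38 4 (.thr 57 49 (.thr 51 60 (.thr 25 12 (.dbl 41 1 9))))) (.rp 9 (.thr 49 57 (.thr 13 25 (.thr 41 1 (.dbl 45 29 33)))) (.rp 1 (.thr 38 4 (.thr 36 39 (.thr 57 49 (.thr 51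 60 (.thr 12 25 (.thr 63 59 (.dbl 48 24 58))))))) .nd)))))))) (.rp 25 (.thr 38 4 (.thr 36 39 (.thr 41 1 (.thr 45 33 (.thr 44 35 (.thr 47 46 (.dbl 32 40 42))))))) (.rp 18 (.str 30 (.nv (.thr 38 4 (.thr 49 57 (.thr 25 13 (.thr 51 12 (.thr 48 50 (.dbl 63 58 59)))))) (.nv (.thr 57 49 (.thr 60 51 (.thr 45 15 (.dbl 41 1 33)))) (.nv (.thr 49 57 (.thr 25 13 (.thr 17 29 (.dbl 1 33 41)))) (.rp 57 (.thr 38 4 (.thr 36 39 (.thr 41 1 (.thr 45 33 (.thr 44 35 (.thr 47 46 (.dbl 32 40 42))))))) (.rp 49 (.thr 38 4 (.thr 36 39 (.thr 41 1 (.thr 44 35 (.thr 32 40 (.thr 47 42 (.dbl 45 33 46))))))) (.rp 19 (.str 17 (.nv (.thr 1 41 (.dbl 49 33 57)) (.nv (.thr 41 1 (.thr 45 33 (.dbl 29 13 25))) (.nv (.thr 25 29 (.dbl 49 13 57)) (.rp 25 (.str 28 (.nv (.thr 29 31 (.thr 41 1 (.dbl 45 13 33))) (.nv (.thr 29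 31 (.thr 57 49 (.thr 60 51 (.dbl 45 13 15)))) (.nv (.thr 49 57 (.dbl 1 33 41)) (.rp 27 (.str 24 (.nv (.thr 41 1 (.thr 45 33 (.dbl 29 13 31))) (.nv (.thr 57 49 (.thr 51 60 (.thr 0 34 (.dbl 63 42 59)))) (.nv (.thr 49 57 (.dbl 1 33 41)) (.rp 41 (.thr 57 49 (.thr 60 51 (.thr 63 62 (.thr 48 58 (.dbl 12 36 44))))) (.rp 31 (.str 23 (.nv (.thr 38 4 (.dbl 39 7 36)) (.nv (.thr 49 57 (.dbl 1 33 41)) .nd))) (.rp 23 (.thr 31 29 (.thr 49 57 (.dbl 1 33 41))) .nd))))))) (.rp 24 (.str 27 (.nv (.thr 29 31 (.thr 41 1 (.dbl 45 13 33))) (.nv (.thr 29 31 (.thr 57 49 (.thr 60 51 (.dbl 45 13 15)))) (.nv (.thr 49 57 (.dbl 1 33 41)) .nd)))) .nd)))))) .nd))))) (.rp 17 (.str 19 (.nv (.thr 1 41 (.thr 57 49 (.thr 51 60 (.thr 3 35 (.thr 0 2 (.dbl 63 42 59)))))) (.nv (.thr 49 57 (.thr 13 25 (.thr 41 1 (.dbl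 45 29 33)))) (.rp 57 (.thr 38 4 (.thr 36 39 (.thr 41 1 (.thr 44 35 (.thr 32 40 (.thr 47 42 (.dbl 45 33 46))))))) (.rp 49 (.thr 38 4 (.thr 41 1 (.thr 33 45 (.thr 35 44 (.thr 51 3 (.thr 25 12 (.dbl 57 9 60))))))) (.rp 41 (.thr 38 4 (.thr 49 57 (.thr 25 13 (.thr 51 12 (.thr 48 50 (.dbl 63 58 59)))))) (.rp 1 (.thr 49 57 (.thr 13 25 (.thr 45 29 (.thr 60 15 (.thr 63 62 (.thr 51 59 (.dbl 48 50 58))))))) .nd))))))) (.rp 1 (.thr 57 49 (.thr 60 51 (.thr 63 62 (.thr 15 45 (.thr 47 31 (.dbl 42 0 32)))))) .nd))))))))) (.rp 9 (.thr 49 57 (.thr 13 25 (.thr 41 1 (.dbl 45 29 33)))) (.rp 1 (.thr 38 4 (.thr 36 39 (.thr 57 49 (.thr 51 60 (.thr 12 25 (.thr 63 59 (.dbl 48 24 58))))))) .nd)))))))))))) (.rp 7 (.str 61 (.nv (.thr 4 38 (.thr 1 41 (.thr 49 57 (.thr 25 13 (.dbl 17 29 33))))) (.nv (.thr 41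 1 (.thr 54 52 (.thr 57 49 (.thr 60 51 (.thr 22 3 (.dbl 38 4 6)))))) (.nv (.thr 41 1 (.thr 45 33 (.thr 49 57 (.dbl 13 25 29)))) (.rp 57 (.thr 52 54 (.thr 4 38 (.thr 20 36 (.thr 22 23 (.thr 41 1 (.thr 60 3 (.thr 63 62 (.dbl 48 56 58)))))))) (.rp 49 (.thr 52 54 (.thr 4 38 (.thr 20 36 (.thr 22 23 (.thr 41 1 (.thr 60 3 (.thr 63 62 (.dbl 48 56 58)))))))) (.rp 41 (.thr 54 52 (.thr 38 4 (.thr 6 22 (.thr 49 57 (.thr 25 13 (.thr 51 12 (.thr 48 50 (.dbl 63 58 59)))))))) (.rp 33 (.thr 54 52 (.thr 38 4 (.thr 6 22 (.thr 57 49 (.thr 51 60 (.thr 25 12 (.dbl 41 1 9))))))) (.rp 13 (.thr 54 52 (.thr 38 4 (.thr 6 22 (.thr 57 49 (.thr 51 60 (.thr 25 12 (.dbl 41 1 9))))))) (.rp 4 (.str 6 (.nv (.thr 54 52 (.thr 22 38 (.thr 57 49 (.thr 60 51 (.dbl 41 1 3))))) (.nv (.thr 41 1 (.thr 54 52 (.thr 22 38 (.thr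 60 3 (.thr 51 57 (.dbl 63 59 62)))))) (.nv (.thr 41 1 (.thr 45 33 (.thr 49 57 (.dbl 13 25 29)))) (.rp 57 (.thr 54 52 (.thr 22 38 (.thr 20 23 (.thr 41 1 (.thr 60 3 (.thr 63 62 (.dbl 0 40 42))))))) (.rp 41 (.thr 54 52 (.thr 22 38 (.thr 20 23 (.thr 57 49 (.thr 60 51 (.thr 63 62 (.dbl 0 40 42))))))) (.rp 1 (.thr 54 52 (.thr 22 38 (.thr 20 23 (.thr 57 49 (.thr 60 51 (.thr 63 62 (.dbl 0 40 42))))))) .nd))))))) (.rp 1 (.thr 54 52 (.thr 57 49 (.thr 60 51 (.thr 63 62 (.thr 0 42 (.thr 20 40 (.thr 22 23 (.dbl 38 4 6)))))))) .nd))))))))))) (.rp 4 (.str 61 (.nv (.thr 1 41 (.thr 49 57 (.thr 25 13 (.dbl 17 29 33)))) (.nv (.thr 41 1 (.thr 45 33 (.thr 49 57 (.dbl 13 25 29)))) (.rp 57 (.thr 52 54 (.thr 7 22 (.thr 39 23 (.thr 38 36 (.thr 41 1 (.thr 33 45 (.thr 35 44 (.thr 32 34 (.dbl 47 42 43)))))))))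 (.rp 49 (.thr 52 54 (.thr 7 22 (.thr 39 23 (.thr 38 36 (.thr 41 1 (.thr 33 45 (.thr 35 44 (.thr 32 34 (.dbl 47 42 43))))))))) (.rp 41 (.thr 52 54 (.thr 7 22 (.thr 39 23 (.thr 38 36 (.thr 49 57 (.thr 25 13 (.thr 51 12 (.thr 48 50 (.dbl 63 58 59))))))))) (.rp 33 (.thr 54 52 (.thr 57 49 (.thr 60 51 (.thr 63 62 (.thr 0 42 (.thr 20 40 (.thr 22 23 (.dbl 41 1 3)))))))) (.rp 29 (.thr 54 52 (.thr 57 49 (.thr 60 51 (.thr 63 62 (.thr 41 1 (.thr 33 45 (.thr 3 22 (.dbl 48 18 58)))))))) (.rp 25 (.thr 54 52 (.thr 57 49 (.thr 60 51 (.thr 63 62 (.thr 41 1 (.thr 33 45 (.thr 3 22 (.dbl 48 18 58)))))))) (.rp 13 (.thr 54 52 (.thr 57 49 (.thr 60 51 (.thr 63 62 (.thr 0 42 (.thr 20 40 (.thr 22 23 (.dbl 41 1 3)))))))) (.rp 7 (.str 6 (.nv (.thr 54 52 (.thr 22 38 (.thr 57 49 (.thr 60 51 (.dbl 41 1 3)))))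 (.nv (.thr 41 1 (.thr 54 52 (.thr 22 38 (.thr 60 3 (.thr 51 57 (.dbl 63 59 62)))))) (.nv (.thr 41 1 (.thr 45 33 (.thr 49 57 (.dbl 13 25 29)))) (.rp 57 (.thr 54 52 (.thr 22 38 (.thr 20 23 (.thr 41 1 (.thr 60 3 (.thr 63 62 (.dbl 0 40 42))))))) (.rp 41 (.thr 54 52 (.thr 22 38 (.thr 20 23 (.thr 57 49 (.thr 60 51 (.thr 63 62 (.dbl 0 40 42))))))) (.rp 1 (.thr 54 52 (.thr 22 38 (.thr 20 23 (.thr 57 49 (.thr 60 51 (.thr 63 62 (.dbl 0 40 42))))))) .nd))))))) (.rp 6 (.str 7 (.nv (.dbl 52 22 54) (.rp 54 (.thr 23 39 (.dbl 22 20 52)) (.rp 52 (.thr 49 57 (.thr 13 25 (.thr 45 29 (.dbl 41 1 33)))) (.rp 22 (.thr 49 57 (.thr 13 25 (.thr 45 29 (.dbl 41 1 33)))) .nd))))) (.rp 1 (.thr 54 52 (.thr 57 49 (.thr 60 51 (.thr 63 62 (.thr 48 58 (.thr 42 0 (.thr 47 32 (.thr 15 31 (.thr 45 30 (.thr 46 44 (.dbl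 29 12 13))))))))))) .nd))))))))))))) .nd)))))))))))

theorem w513 : WinAt (9007336695791616, 67174432) :=
  chF (K := []) kn c513 9007336695791616 67174432 5
    [] (by decide +kernel) (by decide +kernel)

/-- A certificate. -/
noncomputable def c514 : Ct := (.str 4 (.nv (.thr 7 6 (.thr 38 55 (.thr 52 22 (.dbl 36 20 39)))) (.nv (.thr 7 6 (.thr 22 52 (.thr 23 20 (.dbl 55 38 39)))) (.rp 55 (.str 0 (.nv (.thr 8 12 (.thr 10 15 (.thr 9 11 (.thr 13 1 (.thr 42 63 (.dbl 25 49 59)))))) (.nv (.thr 6 7 (.thr 12 8 (.thr 3 9 (.thr 10 15 (.dbl 2 1 14))))) (.rp 54 (.str 52 (.nv (.dbl 7 6 22) (.rp 22 (.thr 20 36 (.thr 60 40 (.thr 48 56 (.thr 32 16 (.dbl 42 47 63))))) (.rp 7 (.thr 20 36 (.thr 60 40 (.thr 48 56 (.thr 32 16 (.dbl 42 47 63))))) (.rp 6 (.thr 20 36 (.dbl 22 7 23)) .nd))))) (.rp 52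 (.str 54 (.nv (.thr 12 8 (.thr 15 10 (.thr 13 14 (.thr 9 1 (.dbl 6 3 7))))) (.nv (.thr 6 7 (.thr 12 8 (.thr 38 22 (.thr 25 51 (.thr 13 49 (.dbl 9 1 3)))))) (.nv (.thr 6 7 (.thr 22 38 (.thr 42 63 (.thr 2 62 (.dbl 10 14 15))))) (.nv (.thr 6 7 (.thr 12 8 (.thr 3 9 (.thr 10 15 (.dbl 2 1 14))))) (.rp 7 (.thr 12 8 (.thr 15 10 (.thr 13 14 (.thr 25 49 (.thr 38 51 (.thr 6 22 (.dbl 9 1 3))))))) (.rp 6 (.thr 8 12 (.thr 10 15 (.thr 9 11 (.thr 13 1 (.thr 42 63 (.dbl 25 49 59)))))) .nd))))))) (.rp 15 (.thr 7 6 (.thr 52 22 (.thr 20 36 (.thr 60 40 (.thr 48 56 (.thr 32 16 (.dbl 42 47 63))))))) (.rp 14 (.thr 7 6 (.thr 52 22 (.thr 20 36 (.thr 60 40 (.thr 48 56 (.thr 32 16 (.dbl 42 47 63))))))) (.rp 12 (.thr 7 6 (.thr 15 10 (.thr 3 11 (.thr 2 1 (.thr 42 63 (.dbl 22 52 62)))))) (.rp 10 (.thr 7 6 (.thr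 52 22 (.thr 20 36 (.thr 60 40 (.thr 48 56 (.thr 32 16 (.dbl 42 47 63))))))) (.rp 9 (.thr 7 6 (.thr 52 22 (.thr 20 36 (.thr 60 40 (.thr 48 56 (.thr 32 16 (.dbl 42 47 63))))))) (.rp 8 (.thr 7 6 (.thr 52 22 (.thr 20 36 (.thr 60 40 (.thr 42 63 (.thr 32 47 (.dbl 48 16 56))))))) (.rp 7 (.thr 12 8 (.thr 42 63 (.thr 32 47 (.thr 48 16 (.thr 36 24 (.thr 40 44 (.dbl 20 52 60))))))) (.rp 3 (.thr 7 6 (.thr 52 22 (.thr 20 36 (.thr 60 40 (.thr 48 56 (.thr 32 16 (.dbl 42 47 63))))))) (.rp 1 (.thr 7 6 (.thr 52 22 (.thr 20 36 (.thr 60 40 (.thr 48 56 (.thr 32 16 (.dbl 42 47 63))))))) .nd)))))))))))))) (.rp 52 (.str 0 (.nv (.thr 7 6 (.thr 15 10 (.thr 55 38 (.thr 39 23 (.thr 51 27 (.dbl 63 42 59)))))) (.nv (.thr 12 8 (.thr 42 63 (.thr 32 47 (.thr 48 16 (.thr 36 24 (.dbl 38 39 55)))))) (.nv (.thr 6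 7 (.thr 12 8 (.thr 3 9 (.thr 10 15 (.dbl 2 1 14))))) (.rp 55 (.str 54 (.nv (.thr 12 8 (.thr 15 10 (.thr 13 14 (.thr 9 1 (.dbl 6 3 7))))) (.nv (.thr 6 7 (.thr 12 8 (.thr 38 22 (.thr 25 51 (.thr 13 49 (.dbl 9 1 3)))))) (.nv (.thr 6 7 (.thr 22 38 (.thr 42 63 (.thr 2 62 (.dbl 10 14 15))))) (.nv (.thr 6 7 (.thr 12 8 (.thr 3 9 (.thr 10 15 (.dbl 2 1 14))))) (.rp 7 (.thr 12 8 (.thr 15 10 (.thr 13 14 (.thr 25 49 (.thr 38 51 (.thr 6 22 (.dbl 9 1 3))))))) (.rp 6 (.thr 8 12 (.thr 10 15 (.thr 9 11 (.thr 13 1 (.thr 42 63 (.dbl 25 49 59)))))) .nd))))))) (.rp 54 (.thr 55 38 (.thr 6 7 (.thr 12 8 (.thr 3 9 (.thr 2 1 (.dbl 10 14 15)))))) (.rp 15 (.thr 6 7 (.thr 38 55 (.thr 54 22 (.thr 12 8 (.thr 25 51 (.thr 13 49 (.dbl 9 1 3))))))) .nd))))))) (.rp 39 (.str 0 (.nv (.thr 8 12 (.thr 10 15 (.thr 42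 63 (.thr 25 59 (.thr 13 49 (.dbl 9 1 11)))))) (.nv (.thr 7 6 (.thr 22 52 (.thr 20 23 (.thr 60 40 (.thr 3 41 (.dbl 15 10 11)))))) (.nv (.thr 6 7 (.thr 12 8 (.thr 3 9 (.thr 10 15 (.dbl 2 1 14))))) (.rp 55 (.thr 12 8 (.thr 15 10 (.thr 13 14 (.thr 9 1 (.dbl 6 3 7))))) (.rp 15 (.thr 7 6 (.thr 52 22 (.thr 20 36 (.thr 60 40 (.thr 48 56 (.thr 32 16 (.dbl 42 47 63))))))) (.rp 10 (.thr 7 6 (.thr 52 22 (.thr 20 36 (.thr 60 40 (.thr 48 56 (.thr 32 16 (.dbl 42 47 63))))))) .nd))))))) (.rp 38 (.str 0 (.nv (.thr 8 12 (.thr 10 15 (.thr 42 63 (.thr 25 59 (.thr 13 49 (.dbl 9 1 11)))))) (.nv (.thr 7 6 (.thr 22 52 (.thr 20 23 (.thr 60 40 (.thr 3 41 (.dbl 15 10 11)))))) (.nv (.thr 6 7 (.thr 12 8 (.thr 3 9 (.thr 10 15 (.dbl 2 1 14))))) (.rp 50 (.str 14 (.nv (.thr 6 7 (.dbl 10 2 15)) (.nv (.thr 12 8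 (.dbl 15 10 13)) (.rp 15 (.thr 12 8 (.thr 6 7 (.thr 2 10 (.dbl 3 1 9)))) (.rp 10 (.thr 12 8 (.thr 13 15 (.thr 9 1 (.dbl 6 3 7)))) .nd))))) (.rp 15 (.thr 7 6 (.thr 22 52 (.thr 20 23 (.thr 60 40 (.thr 3 41 (.thr 2 1 (.dbl 42 62 63))))))) (.rp 14 (.str 50 (.nv (.thr 6 7 (.thr 12 8 (.thr 3 9 (.thr 1 2 (.thr 41 61 (.thr 22 60 (.thr 23 20 (.dbl 63 42 43)))))))) (.nv (.thr 7 6 (.thr 22 52 (.thr 20 23 (.thr 60 40 (.thr 3 41 (.dbl 15 10 11)))))) (.nv (.thr 42 63 (.thr 32 47 (.thr 48 16 (.thr 49 51 (.thr 25 13 (.dbl 8 12 59)))))) (.rp 42 (.thr 7 6 (.thr 22 52 (.thr 20 23 (.thr 60 40 (.thr 41 3 (.thr 45 33 (.dbl 15 10 30))))))) .nd))))) (.rp 10 (.thr 7 6 (.thr 22 52 (.thr 20 23 (.thr 60 40 (.thr 3 41 (.thr 2 1 (.dbl 42 62 63))))))) .nd)))))))) (.rp 22 (.thr 6 7 (.str 12 (.nv (.thr 38 55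 (.thr 25 51 (.thr 13 49 (.dbl 9 1 3)))) (.nv (.thr 0 8 (.thr 38 55 (.thr 39 36 (.thr 51 25 (.dbl 15 10 27))))) (.nv (.thr 0 8 (.thr 3 9 (.thr 10 15 (.dbl 2 1 14)))) (.rp 30 (.str 18 (.nv (.thr 0 8 (.thr 38 55 (.thr 39 36 (.thr 51 25 (.dbl 15 10 27))))) (.nv (.thr 38 55 (.thr 3 9 (.thr 48 33 (.dbl 36 24 39)))) (.nv (.thr 0 8 (.thr 3 9 (.thr 10 15 (.dbl 2 1 14)))) .nd)))) (.rp 18 (.str 30 (.nv (.thr 38 55 (.thr 25 51 (.thr 13 49 (.dbl 9 1 3)))) (.nv (.thr 0 8 (.thr 38 55 (.thr 39 36 (.thr 51 25 (.dbl 15 10 27))))) (.nv (.thr 0 8 (.thr 3 9 (.thr 10 15 (.dbl 2 1 14)))) (.rp 19 (.str 16 (.nv (.thr 0 8 (.thr 3 9 (.thr 2 1 (.dbl 10 14 15)))) (.nv (.thr 0 8 (.thr 42 63 (.dbl 32 47 48))) (.rp 28 (.str 25 (.nv (.thr 13 49 (.dbl 9 1 3)) (.nv (.dbl 38 51 55) .nd))) (.rp 25 (.str 28 (.nv (.thr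 9 3 (.thr 60 44 (.thr 15 45 (.dbl 13 1 14)))) (.nv (.thr 24 20 (.thr 48 36 (.dbl 0 8 32))) (.rp 48 (.thr 29 31 (.thr 63 46 (.dbl 0 8 42))) (.rp 24 (.str 27 (.nv (.thr 38 55 (.thr 39 36 (.thr 60 44 (.dbl 15 45 51)))) (.nv (.thr 29 31 (.thr 63 46 (.dbl 0 8 42))) .nd))) .nd))))) (.rp 8 (.thr 38 55 (.thr 25 51 (.thr 13 49 (.dbl 9 1 3)))) (.rp 0 (.thr 38 55 (.thr 9 3 (.thr 1 13 (.thr 41 61 (.dbl 25 51 57))))) .nd))))))) (.rp 16 (.str 19 (.nv (.thr 0 8 (.thr 15 10 (.thr 14 13 (.thr 46 62 (.dbl 63 29 42))))) (.nv (.thr 3 9 (.thr 51 35 (.dbl 38 25 55))) (.rp 9 (.thr 38 55 (.thr 39 36 (.thr 51 25 (.thr 0 8 (.dbl 15 10 27))))) .nd)))) (.rp 0 (.thr 38 55 (.thr 9 3 (.thr 1 13 (.thr 41 61 (.dbl 25 51 57))))) .nd))))))) (.rp 0 (.thr 38 55 (.thr 9 3 (.thr 1 13 (.thr 41 61 (.dbl 25 51 57)))))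 .nd)))))))) (.rp 20 (.str 1 (.nv (.thr 6 7 (.thr 9 13 (.thr 3 12 (.thr 38 55 (.thr 41 61 (.dbl 22 54 60)))))) (.nv (.thr 13 9 (.thr 25 49 (.thr 38 55 (.thr 12 51 (.thr 0 8 (.dbl 15 10 14)))))) (.nv (.thr 6 7 (.thr 9 13 (.thr 3 12 (.thr 0 2 (.thr 15 10 (.thr 41 61 (.thr 45 33 (.dbl 60 22 30)))))))) (.nv (.thr 6 7 (.thr 9 13 (.thr 12 3 (.thr 0 8 (.thr 15 10 (.thr 38 55 (.thr 39 36 (.dbl 51 25 27)))))))) (.nv (.thr 7 6 (.thr 22 52 (.thr 41 61 (.thr 3 60 (.thr 0 2 (.dbl 15 10 11)))))) (.rp 15 (.thr 38 55 (.thr 36 39 (.thr 41 61 (.thr 45 33 (.thr 44 35 (.thr 47 46 (.dbl 32 40 42))))))) .nd))))))) (.rp 7 (.str 0 (.nv (.thr 12 8 (.thr 38 55 (.thr 42 63 (.thr 32 47 (.thr 48 16 (.dbl 36 24 39)))))) (.nv (.thr 12 8 (.thr 15 10 (.thr 13 14 (.thr 25 49 (.dbl 38 51 55))))) (.nv (.thr 38 55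 (.thr 39 36 (.thr 12 8 (.thr 51 25 (.dbl 15 10 27))))) (.rp 55 (.thr 12 8 (.thr 42 63 (.thr 32 47 (.thr 48 16 (.thr 36 24 (.thr 40 44 (.dbl 20 52 60))))))) (.rp 51 (.thr 12 8 (.thr 42 63 (.thr 32 47 (.thr 48 16 (.thr 36 24 (.dbl 38 39 55)))))) (.rp 42 (.thr 38 55 (.thr 12 8 (.thr 25 51 (.thr 13 49 (.dbl 15 10 14))))) (.rp 38 (.thr 8 12 (.thr 10 15 (.thr 42 63 (.thr 25 59 (.thr 13 49 (.dbl 9 1 11)))))) (.rp 15 (.thr 38 55 (.thr 39 36 (.thr 42 63 (.thr 47 32 (.thr 35 43 (.thr 44 41 (.dbl 46 34 45))))))) (.rp 12 (.thr 38 55 (.thr 39 36 (.thr 42 63 (.thr 47 32 (.thr 35 43 (.thr 44 41 (.dbl 46 34 45))))))) (.rp 8 (.thr 38 55 (.thr 39 36 (.thr 42 63 (.thr 47 32 (.thr 35 43 (.thr 44 41 (.dbl 46 34 45))))))) .nd))))))))))) (.rp 6 (.str 0 (.nv (.thr 12 8 (.thr 38 55 (.thr 36 39 (.thr 48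 24 (.thr 32 16 (.dbl 42 47 63)))))) (.nv (.thr 38 55 (.thr 36 39 (.thr 42 63 (.thr 32 47 (.thr 40 44 (.dbl 20 52 60)))))) (.nv (.thr 8 12 (.thr 10 15 (.thr 9 11 (.thr 13 1 (.thr 42 63 (.dbl 25 49 59)))))) (.nv (.thr 38 55 (.thr 39 36 (.thr 12 8 (.thr 51 25 (.dbl 15 10 27))))) (.rp 42 (.thr 38 55 (.thr 12 8 (.thr 25 51 (.thr 13 49 (.dbl 15 10 14))))) .nd)))))) .nd)))))))))))

theorem w514 : WinAt (137441050656, 9007199321980928) :=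
  chF (K := []) kn c514 137441050656 9007199321980928 53
    [] (by decide +kernel) (by decide +kernel)

/-- A certificate. -/
noncomputable def c515 : Ct := (.str 22 (.nv (.thr 23 20 (.thr 7 52 (.thr 55 39 (.dbl 4 6 38)))) (.rp 55 (.thr 52 7 (.thr 23 20 (.str 41 (.nv (.thr 3 60 (.thr 63 43 (.thr 0 42 (.dbl 1 2 61)))) (.nv (.thr 33 45 (.thr 1 61 (.thr 13 9 (.dbl 49 17 25)))) (.rp 61 (.thr 3 60 (.thr 63 43 (.thr 0 42 (.thr 1 2 (.thr 33 45 (.thr 49 17 (.dbl 13 9 25))))))) (.rp 1 (.thr 60 3 (.thr 48 56 (.thr 45 33 (.thr 15 30 (.thr 0 10 (.thr 32 16 (.dbl 42 47 63))))))) .nd))))))) (.rp 52 (.thr 20 23 (.str 41 (.nv (.thr 60 3 (.thr 0 40 (.thr 15 10 (.dbl 45 30 33)))) (.nv (.thr 1 61 (.thr 33 45 (.thr 13 9 (.dbl 49 17 25)))) (.rp 55 (.str 54 (.nv (.thr 1 61 (.thr 3 60 (.thr 6 38 (.dbl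 9 12 13)))) (.nv (.thr 60 3 (.thr 0 40 (.thr 15 10 (.dbl 45 30 33)))) (.nv (.thr 33 45 (.thr 1 61 (.thr 13 9 (.dbl 49 17 25)))) (.rp 39 (.str 7 (.nv (.dbl 6 4 38) (.rp 38 (.thr 6 4 (.thr 3 60 (.thr 9 12 (.dbl 1 13 61)))) (.rp 6 (.thr 60 3 (.thr 57 51 (.thr 9 25 (.dbl 1 13 61)))) (.rp 4 (.thr 6 38 (.thr 3 60 (.thr 9 12 (.dbl 1 13 61)))) .nd))))) (.rp 7 (.str 39 (.nv (.dbl 38 6 36) (.rp 38 (.thr 60 3 (.thr 0 40 (.thr 51 57 (.dbl 15 10 27)))) (.rp 36 (.thr 6 38 (.thr 3 60 (.thr 9 12 (.dbl 1 13 61)))) (.rp 6 (.thr 60 3 (.thr 0 40 (.thr 51 57 (.dbl 15 10 27)))) .nd))))) .nd)))))) (.rp 54 (.str 55 (.nv (.thr 38 4 (.thr 36 39 (.thr 44 35 (.thr 40 32 (.dbl 60 0 3))))) (.nv (.thr 33 45 (.thr 1 61 (.thr 13 9 (.dbl 49 17 25)))) (.rp 33 (.thr 4 38 (.thr 6 7 (.thr 3 60 (.thr 9 12 (.dbl 1 13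 61))))) .nd)))) (.rp 45 (.thr 61 1 (.thr 60 3 (.thr 0 40 (.dbl 63 42 62)))) (.rp 33 (.thr 1 61 (.thr 9 13 (.thr 3 60 (.thr 6 12 (.thr 4 7 (.dbl 38 54 55)))))) .nd)))))))) (.rp 39 (.str 1 (.nv (.thr 7 52 (.thr 41 61 (.thr 3 60 (.thr 0 2 (.dbl 15 10 11))))) (.nv (.thr 7 52 (.thr 6 4 (.thr 9 13 (.thr 3 12 (.thr 0 2 (.dbl 15 10 11)))))) (.nv (.thr 13 9 (.thr 41 61 (.thr 33 45 (.dbl 49 17 25)))) .nd)))) (.rp 38 (.thr 20 23 (.str 13 (.nv (.thr 1 9 (.thr 7 52 (.thr 41 61 (.thr 3 60 (.thr 0 2 (.dbl 15 10 11)))))) (.nv (.thr 1 9 (.thr 41 61 (.thr 33 45 (.dbl 49 17 25)))) (.rp 61 (.thr 7 52 (.thr 6 4 (.thr 9 1 (.thr 3 12 (.thr 41 60 (.dbl 25 49 57)))))) (.rp 57 (.thr 1 9 (.thr 61 41 (.thr 25 49 (.dbl 29 17 45)))) (.rp 50 (.str 14 (.nv (.thr 7 52 (.thr 6 4 (.thr 15 12 (.dbl 10 0 2)))) (.nv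 (.thr 1 9 (.thr 41 61 (.thr 33 45 (.dbl 49 17 25)))) (.rp 34 (.str 2 (.nv (.thr 42 62 (.thr 0 63 (.dbl 1 3 9))) (.nv (.thr 10 6 (.dbl 15 0 12)) (.rp 42 (.str 46 (.nv (.thr 1 9 (.thr 25 49 (.thr 61 41 (.dbl 29 17 45)))) (.nv (.thr 10 6 (.dbl 15 0 12)) (.rp 10 (.str 58 (.nv (.thr 1 9 (.thr 12 15 (.thr 61 41 (.dbl 29 45 63)))) (.nv (.thr 12 15 (.thr 29 63 (.dbl 25 17 49))) (.nv (.thr 1 9 (.thr 41 61 (.dbl 3 0 60))) .nd)))) .nd)))) (.rp 0 (.thr 7 52 (.dbl 6 4 10)) .nd))))) (.rp 25 (.thr 7 52 (.thr 6 4 (.thr 12 15 (.dbl 9 1 3)))) (.rp 2 (.str 34 (.nv (.thr 15 12 (.thr 0 10 (.thr 17 51 (.dbl 25 29 49)))) (.nv (.thr 7 52 (.thr 6 4 (.thr 12 15 (.dbl 9 1 3)))) (.nv (.thr 1 9 (.thr 41 61 (.thr 33 45 (.dbl 49 17 25)))) .nd)))) .nd)))))) (.rp 49 (.thr 7 52 (.thr 6 4 (.thr 9 1 (.thr 3 12 (.thr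 60 41 (.thr 0 40 (.dbl 15 10 11))))))) (.rp 41 (.thr 7 52 (.thr 6 4 (.thr 9 1 (.thr 12 3 (.thr 14 15 (.thr 25 49 (.thr 2 10 (.thr 42 62 (.thr 63 0 (.dbl 29 17 46)))))))))) (.rp 14 (.str 50 (.nv (.thr 1 9 (.thr 7 52 (.thr 41 61 (.thr 3 60 (.thr 0 2 (.dbl 15 10 11)))))) (.nv (.thr 1 9 (.thr 41 61 (.thr 33 45 (.dbl 49 17 25)))) (.rp 61 (.thr 7 52 (.thr 6 4 (.thr 9 1 (.thr 3 12 (.thr 41 60 (.dbl 25 49 57)))))) (.rp 57 (.thr 49 25 (.thr 1 9 (.thr 41 61 (.dbl 33 17 45)))) (.rp 49 (.thr 7 52 (.thr 6 4 (.thr 9 1 (.thr 3 12 (.thr 60 41 (.thr 0 40 (.dbl 15 10 11))))))) (.rp 41 (.thr 7 52 (.thr 6 4 (.thr 49 25 (.thr 9 1 (.thr 48 51 (.thr 12 3 (.thr 24 36 (.thr 16 28 (.thr 0 32 (.thr 40 60 (.thr 10 15 (.dbl 8 11 56)))))))))))) (.rp 9 (.thr 52 7 (.thr 36 4 (.thr 25 49 (.thr 17 29 (.thr 28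 19 (.thr 24 16 (.thr 48 12 (.thr 60 56 (.thr 0 40 (.thr 15 10 (.thr 45 30 (.dbl 41 3 33)))))))))))) (.rp 1 (.thr 52 7 (.thr 36 4 (.thr 25 49 (.thr 17 29 (.thr 28 19 (.thr 24 16 (.thr 48 12 (.thr 60 56 (.thr 41 3 (.thr 45 33 (.thr 15 30 (.dbl 0 10 40)))))))))))) .nd))))))))) (.rp 9 (.thr 52 7 (.thr 36 4 (.thr 25 49 (.thr 17 29 (.thr 28 19 (.thr 24 16 (.thr 12 48 (.thr 60 44 (.thr 0 40 (.dbl 15 10 14)))))))))) (.rp 1 (.thr 52 7 (.thr 36 4 (.thr 25 49 (.thr 17 29 (.thr 28 19 (.thr 24 16 (.thr 12 48 (.thr 60 44 (.thr 0 40 (.dbl 15 10 14)))))))))) .nd)))))))))))) (.rp 36 (.thr 23 20 (.thr 7 52 (.thr 4 6 (.dbl 55 38 39)))) (.rp 23 (.str 1 (.nv (.thr 7 52 (.thr 41 61 (.thr 3 60 (.thr 0 2 (.dbl 15 10 11))))) (.nv (.thr 7 52 (.thr 6 4 (.thr 9 13 (.thr 3 12 (.thr 0 2 (.dbl 15 10 11))))))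 (.nv (.thr 13 9 (.thr 41 61 (.thr 33 45 (.dbl 49 17 25)))) .nd)))) (.rp 20 (.str 0 (.nv (.thr 7 52 (.thr 4 6 (.thr 12 8 (.thr 63 42 (.thr 29 46 (.thr 25 17 (.dbl 38 51 55))))))) (.nv (.thr 15 10 (.thr 42 63 (.thr 2 62 (.thr 3 1 (.dbl 7 11 52))))) (.rp 63 (.thr 7 52 (.thr 15 10 (.thr 3 11 (.thr 1 2 (.dbl 41 60 61))))) (.rp 58 (.thr 7 52 (.thr 4 6 (.thr 12 8 (.thr 10 15 (.thr 63 42 (.thr 29 46 (.thr 25 17 (.dbl 38 51 55)))))))) (.rp 52 (.thr 10 15 (.thr 42 63 (.thr 2 62 (.thr 6 14 (.thr 4 7 (.dbl 38 54 55)))))) (.rp 42 (.thr 7 52 (.thr 4 6 (.thr 8 12 (.thr 10 15 (.thr 9 11 (.thr 13 1 (.thr 25 49 (.thr 17 29 (.thr 51 34 (.thr 19 28 (.thr 3 35 (.dbl 41 57 60)))))))))))) (.rp 10 (.thr 52 7 (.thr 42 63 (.thr 32 47 (.thr 48 16 (.thr 60 56 (.thr 2 62 (.dbl 3 1 41))))))) (.rp 7 (.thr 42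 63 (.thr 2 62 (.thr 1 3 (.thr 13 9 (.thr 49 25 (.thr 33 17 (.dbl 41 45 61))))))) .nd))))))))) (.rp 7 (.str 0 (.nv (.thr 20 23 (.thr 60 40 (.thr 3 41 (.thr 2 1 (.dbl 42 62 63))))) (.nv (.thr 20 23 (.thr 60 40 (.thr 15 10 (.thr 45 30 (.dbl 41 3 33))))) (.nv (.thr 23 20 (.thr 63 42 (.thr 3 43 (.thr 41 60 (.dbl 1 2 61))))) (.rp 60 (.thr 23 20 (.thr 10 15 (.thr 63 42 (.thr 3 43 (.thr 1 2 (.thr 9 13 (.thr 12 6 (.dbl 8 4 11)))))))) (.rp 42 (.thr 20 23 (.thr 60 40 (.thr 41 3 (.thr 1 61 (.thr 13 9 (.thr 49 25 (.dbl 33 17 45))))))) (.rp 41 (.thr 20 23 (.thr 40 60 (.thr 42 63 (.thr 32 47 (.thr 36 44 (.thr 4 52 (.dbl 38 39 55))))))) (.rp 23 (.thr 10 15 (.thr 42 63 (.thr 2 62 (.thr 3 1 (.thr 6 14 (.thr 38 54 (.thr 12 9 (.dbl 4 8 55)))))))) (.rp 20 (.thr 42 63 (.thr 2 62 (.thr 1 3 (.thr 13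 9 (.thr 49 25 (.thr 33 17 (.dbl 41 45 61))))))) (.rp 3 (.thr 20 23 (.thr 40 60 (.thr 42 63 (.thr 43 41 (.thr 32 47 (.thr 36 44 (.thr 4 52 (.dbl 38 39 55)))))))) .nd)))))))))) (.rp 6 (.str 1 (.nv (.thr 7 52 (.thr 41 61 (.thr 3 60 (.thr 0 2 (.dbl 15 10 11))))) (.nv (.thr 13 9 (.thr 41 61 (.thr 33 45 (.dbl 49 17 25)))) (.rp 61 (.thr 23 20 (.thr 13 9 (.thr 49 25 (.thr 33 17 (.thr 41 45 (.thr 3 60 (.thr 0 2 (.dbl 63 42 43)))))))) (.rp 57 (.thr 13 9 (.thr 49 25 (.thr 41 61 (.dbl 33 17 45)))) (.rp 49 (.thr 23 20 (.thr 9 13 (.thr 41 61 (.thr 57 25 (.thr 3 60 (.thr 0 2 (.dbl 63 42 43))))))) (.rp 41 (.thr 20 23 (.thr 52 7 (.thr 36 4 (.thr 13 9 (.thr 25 49 (.thr 17 29 (.thr 28 19 (.thr 24 16 (.thr 12 48 (.dbl 38 39 51)))))))))) (.rp 3 (.thr 41 61 (.thr 33 45 (.thr 49 17 (.dbl 13 9 25))))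 .nd)))))))) (.rp 4 (.str 0 (.nv (.thr 20 23 (.thr 60 40 (.thr 3 41 (.thr 2 1 (.dbl 42 62 63))))) (.nv (.thr 15 10 (.thr 42 63 (.thr 2 62 (.thr 3 1 (.dbl 7 11 52))))) (.nv (.thr 15 10 (.thr 20 23 (.thr 60 40 (.thr 45 30 (.dbl 41 3 33))))) (.rp 60 (.thr 7 52 (.thr 15 10 (.thr 3 11 (.thr 2 1 (.dbl 42 62 63))))) (.rp 42 (.thr 20 23 (.thr 52 7 (.thr 60 40 (.thr 41 3 (.thr 45 33 (.thr 48 56 (.dbl 15 10 30))))))) (.rp 3 (.thr 20 23 (.thr 52 7 (.thr 60 40 (.thr 48 56 (.thr 32 16 (.dbl 42 47 63)))))) .nd))))))) .nd))))))))))))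

theorem w515 : WinAt (137441050656, 9007199322112000) :=
  chF (K := []) kn c515 137441050656 9007199322112000 53
    [1145307136] (by decide +kernel) (by decide +kernel)

/-- A certificate. -/
noncomputable def c516 : Ct := (.str 4 (.nv (.thr 7 6 (.thr 38 55 (.thr 52 22 (.dbl 36 20 39)))) (.nv (.thr 7 6 (.thr 22 52 (.thr 23 20 (.dbl 55 38 39)))) (.rp 55 (.str 1 (.nv (.thr 13 9 (.thr 25 49 (.thr 61 41 (.dbl 29 17 45)))) (.nv (.thr 13 9 (.thr 41 61 (.thr 33 45 (.dbl 49 17 25)))) (.rp 61 (.thr 6 7 (.thr 9 13 (.thr 12 3 (.thr 0 8 (.thr 42 63 (.thr 32 47 (.thr 48 16 (.thr 36 24 (.thr 40 44 (.dbl 20 52 60)))))))))) (.rp 54 (.str 52 (.nv (.dbl 7 6 22) (.rp 22 (.thr 13 9 (.thr 25 49 (.thr 29 17 (.dbl 61 41 45)))) (.rp 7 (.thr 13 9 (.thr 49 25 (.thr 33 17 (.dbl 41 45 61)))) (.rp 6 (.thr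 20 36 (.dbl 22 7 23)) .nd))))) (.rp 52 (.str 54 (.nv (.thr 6 7 (.thr 9 13 (.thr 3 12 (.thr 22 38 (.dbl 41 60 61))))) (.nv (.thr 6 7 (.thr 22 38 (.thr 41 61 (.thr 3 60 (.thr 0 2 (.dbl 12 8 9)))))) (.nv (.thr 13 9 (.thr 41 61 (.thr 33 45 (.dbl 49 17 25)))) (.rp 61 (.thr 6 7 (.thr 22 38 (.thr 23 20 (.thr 9 13 (.thr 3 12 (.thr 0 2 (.dbl 63 42 43))))))) (.rp 41 (.thr 6 7 (.thr 22 38 (.thr 23 20 (.thr 9 13 (.thr 3 12 (.thr 0 2 (.dbl 63 42 43))))))) (.rp 9 (.thr 6 7 (.thr 22 38 (.thr 23 20 (.thr 41 61 (.thr 3 60 (.thr 0 2 (.dbl 63 42 43))))))) .nd))))))) (.rp 49 (.thr 6 7 (.thr 9 13 (.thr 3 12 (.thr 0 2 (.thr 63 42 (.thr 23 43 (.thr 22 20 (.dbl 41 60 61)))))))) (.rp 45 (.thr 6 7 (.thr 9 13 (.thr 3 12 (.thr 0 2 (.thr 63 42 (.thr 23 43 (.thr 22 20 (.dbl 41 60 61)))))))) (.rp 41 (.thr 7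 6 (.thr 52 22 (.thr 36 20 (.thr 38 39 (.thr 13 9 (.thr 25 49 (.thr 12 51 (.thr 15 14 (.dbl 0 8 10))))))))) (.rp 25 (.thr 6 7 (.thr 9 13 (.thr 3 12 (.thr 0 2 (.thr 41 61 (.thr 45 33 (.thr 15 10 (.dbl 60 22 30)))))))) (.rp 17 (.thr 6 7 (.thr 9 13 (.thr 3 12 (.thr 0 2 (.thr 41 61 (.thr 45 33 (.thr 60 22 (.dbl 15 10 30)))))))) (.rp 13 (.thr 7 6 (.thr 52 22 (.thr 36 20 (.thr 38 39 (.thr 41 61 (.thr 45 33 (.thr 44 35 (.thr 47 46 (.dbl 32 40 42))))))))) (.rp 9 (.thr 7 6 (.thr 52 22 (.thr 36 20 (.thr 38 39 (.thr 41 61 (.thr 45 33 (.thr 44 35 (.thr 47 46 (.dbl 32 40 42))))))))) .nd))))))))))))) (.rp 52 (.str 1 (.nv (.thr 55 38 (.thr 13 9 (.thr 25 49 (.thr 61 41 (.dbl 29 17 45))))) (.nv (.thr 6 7 (.thr 9 13 (.thr 3 12 (.thr 41 61 (.thr 22 60 (.dbl 38 54 55)))))) (.nv (.thr 13 9 (.thr 41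 61 (.thr 33 45 (.dbl 49 17 25)))) (.rp 61 (.thr 6 7 (.thr 9 13 (.thr 3 12 (.thr 0 2 (.thr 63 42 (.thr 23 43 (.thr 22 20 (.dbl 38 54 55)))))))) (.rp 55 (.str 54 (.nv (.thr 6 7 (.thr 9 13 (.thr 3 12 (.thr 22 38 (.dbl 41 60 61))))) (.nv (.thr 6 7 (.thr 22 38 (.thr 41 61 (.thr 3 60 (.thr 0 2 (.dbl 12 8 9)))))) (.nv (.thr 13 9 (.thr 41 61 (.thr 33 45 (.dbl 49 17 25)))) (.rp 61 (.thr 6 7 (.thr 22 38 (.thr 23 20 (.thr 9 13 (.thr 3 12 (.thr 0 2 (.dbl 63 42 43))))))) (.rp 41 (.thr 6 7 (.thr 22 38 (.thr 23 20 (.thr 9 13 (.thr 3 12 (.thr 0 2 (.dbl 63 42 43))))))) (.rp 9 (.thr 6 7 (.thr 22 38 (.thr 23 20 (.thr 41 61 (.thr 3 60 (.thr 0 2 (.dbl 63 42 43))))))) .nd))))))) (.rp 49 (.thr 6 7 (.thr 9 13 (.thr 3 12 (.thr 41 61 (.thr 57 25 (.thr 22 60 (.dbl 38 54 55))))))) (.rp 45 (.thr 7 6 (.thr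 55 38 (.thr 23 39 (.thr 22 20 (.thr 41 61 (.thr 3 60 (.thr 0 2 (.dbl 15 10 11)))))))) (.rp 41 (.thr 6 7 (.thr 38 55 (.thr 54 22 (.thr 13 9 (.thr 25 49 (.thr 12 51 (.thr 15 14 (.dbl 0 8 10)))))))) (.rp 13 (.thr 7 6 (.thr 55 38 (.thr 23 39 (.thr 22 20 (.thr 41 61 (.thr 3 60 (.thr 0 2 (.dbl 15 10 11)))))))) (.rp 9 (.thr 7 6 (.thr 55 38 (.thr 23 39 (.thr 22 20 (.thr 41 61 (.thr 3 60 (.thr 0 2 (.dbl 15 10 11)))))))) .nd))))))))))) (.rp 39 (.str 1 (.nv (.thr 7 6 (.thr 22 52 (.thr 41 61 (.thr 3 60 (.thr 0 2 (.dbl 15 10 11)))))) (.nv (.thr 13 9 (.thr 41 61 (.thr 33 45 (.dbl 49 17 25)))) (.rp 61 (.thr 6 7 (.thr 9 13 (.thr 3 12 (.thr 0 2 (.thr 63 42 (.thr 38 55 (.thr 23 43 (.dbl 22 20 54)))))))) (.rp 57 (.thr 13 9 (.thr 49 25 (.thr 41 61 (.dbl 33 17 45)))) (.rp 49 (.thr 6 7 (.thr 9 13 (.thr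 3 12 (.thr 41 61 (.thr 57 25 (.thr 22 60 (.dbl 38 54 55))))))) (.rp 41 (.thr 38 55 (.thr 13 9 (.thr 25 49 (.thr 12 51 (.thr 15 14 (.dbl 0 8 10)))))) .nd))))))) (.rp 38 (.thr 7 6 (.thr 22 52 (.thr 23 20 (.thr 55 39 (.str 3 (.nv (.thr 63 43 (.thr 42 0 (.thr 47 32 (.dbl 15 11 31)))) (.nv (.thr 41 60 (.thr 1 61 (.thr 13 9 (.thr 49 25 (.dbl 33 17 45))))) (.nv (.thr 15 11 (.thr 0 10 (.dbl 63 42 43))) (.rp 63 (.thr 15 11 (.thr 0 10 (.thr 41 60 (.dbl 1 2 61)))) (.rp 50 (.str 14 (.nv (.thr 63 43 (.thr 42 0 (.thr 62 2 (.dbl 60 41 61)))) (.nv (.thr 15 11 (.thr 12 13 (.dbl 0 8 10))) (.rp 41 (.thr 63 43 (.thr 42 0 (.thr 47 32 (.dbl 15 11 31)))) (.rp 0 (.thr 15 11 (.thr 13 12 (.thr 1 9 (.dbl 41 60 61)))) .nd))))) (.rp 14 (.str 50 (.nv (.thr 63 43 (.thr 42 0 (.thr 47 32 (.dbl 15 11 31)))) (.nv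 (.thr 60 41 (.thr 63 43 (.thr 62 61 (.thr 54 58 (.dbl 51 57 59))))) (.nv (.thr 41 60 (.thr 33 45 (.thr 48 18 (.thr 49 51 (.dbl 1 17 61))))) (.nv (.thr 15 11 (.thr 63 43 (.dbl 0 10 42))) (.rp 10 (.str 2 (.nv (.thr 42 62 (.thr 1 0 (.dbl 41 60 61))) (.nv (.thr 18 34 (.thr 33 48 (.dbl 41 45 60))) (.nv (.thr 0 1 (.dbl 42 62 63)) (.rp 42 (.str 58 (.nv (.thr 60 41 (.thr 62 54 (.dbl 63 43 61))) (.nv (.thr 34 18 (.thr 0 1 (.thr 63 43 (.dbl 51 17 59)))) (.nv (.thr 1 0 (.dbl 41 60 61)) (.rp 41 (.thr 1 0 (.thr 62 54 (.thr 13 9 (.thr 25 49 (.thr 29 17 (.thr 61 45 (.dbl 63 43 60))))))) (.rp 40 (.thr 0 1 (.thr 41 60 (.thr 33 45 (.dbl 18 34 48)))) (.rp 34 (.str 46 (.nv (.thr 60 41 (.thr 62 54 (.dbl 63 43 61))) (.nv (.thr 0 1 (.thr 12 8 (.dbl 63 29 43))) (.nv (.thr 1 0 (.dbl 41 60 61)) .nd))))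 .nd))))))) .nd))))) (.rp 2 (.str 10 (.nv (.dbl 15 0 11) (.rp 15 (.thr 63 43 (.thr 51 59 (.thr 48 49 (.thr 33 18 (.dbl 41 45 60))))) (.rp 11 (.thr 0 15 (.dbl 63 42 43)) (.rp 0 (.thr 11 15 (.thr 9 8 (.thr 13 1 (.thr 25 49 (.dbl 41 57 60))))) .nd))))) .nd))))))) (.rp 0 (.thr 15 11 (.thr 63 43 (.thr 47 31 (.thr 42 32 (.thr 62 2 (.dbl 60 41 61)))))) .nd)))))))))))) (.rp 22 (.str 25 (.nv (.thr 6 7 (.thr 13 49 (.thr 38 55 (.thr 12 51 (.dbl 9 1 3))))) (.nv (.thr 38 55 (.thr 12 51 (.thr 0 8 (.thr 63 42 (.dbl 29 17 46))))) (.nv (.thr 29 17 (.thr 13 49 (.thr 61 45 (.dbl 1 9 41)))) (.rp 30 (.str 18 (.nv (.thr 6 7 (.thr 38 55 (.thr 12 51 (.thr 3 9 (.thr 48 33 (.dbl 36 24 39)))))) (.nv (.thr 13 49 (.thr 1 9 (.thr 29 17 (.dbl 61 41 45)))) (.rp 9 (.thr 13 49 (.thr 38 55 (.thr 12 51 (.thr 0 8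 (.dbl 15 10 14))))) .nd)))) (.rp 18 (.str 30 (.nv (.thr 38 55 (.thr 12 51 (.thr 0 8 (.thr 63 42 (.dbl 29 17 46))))) (.nv (.thr 13 49 (.thr 1 9 (.thr 61 41 (.dbl 29 17 45)))) (.rp 29 (.thr 13 49 (.thr 9 1 (.thr 6 7 (.thr 38 55 (.dbl 12 3 51))))) (.rp 17 (.str 16 (.nv (.thr 38 55 (.thr 12 51 (.thr 0 8 (.thr 15 10 (.dbl 13 14 49))))) (.nv (.thr 38 55 (.thr 12 51 (.thr 0 8 (.thr 48 32 (.dbl 36 24 39))))) (.rp 63 (.thr 49 13 (.thr 38 55 (.thr 39 36 (.thr 51 12 (.thr 48 50 (.thr 0 32 (.dbl 15 10 27))))))) (.rp 59 (.thr 49 13 (.thr 38 55 (.thr 39 36 (.thr 51 12 (.thr 48 50 (.thr 0 32 (.dbl 15 10 27))))))) (.rp 55 (.thr 13 49 (.thr 1 9 (.thr 61 41 (.thr 45 29 (.thr 60 15 (.thr 63 62 (.thr 0 42 (.thr 2 3 (.thr 12 8 (.thr 28 44 (.dbl 20 24 40))))))))))) (.rp 54 (.thr 13 49 (.thr 1 9 (.thr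 61 41 (.thr 45 29 (.thr 60 15 (.thr 63 62 (.thr 42 0 (.thr 59 8 (.dbl 55 38 51))))))))) (.rp 52 (.thr 13 49 (.thr 1 9 (.thr 61 41 (.thr 45 29 (.thr 60 15 (.thr 63 62 (.thr 42 0 (.thr 59 8 (.dbl 55 38 51))))))))) (.rp 51 (.thr 13 49 (.thr 1 9 (.thr 61 41 (.thr 29 45 (.thr 28 31 (.thr 20 24 (.thr 36 52 (.dbl 38 39 55)))))))) (.rp 38 (.thr 13 49 (.thr 1 9 (.thr 61 41 (.thr 45 29 (.thr 60 15 (.thr 63 62 (.thr 0 42 (.thr 2 3 (.thr 12 8 (.thr 44 28 (.thr 40 20 (.dbl 32 36 48)))))))))))) (.rp 35 (.thr 13 49 (.thr 6 7 (.thr 38 55 (.thr 12 51 (.thr 3 9 (.thr 0 8 (.dbl 15 10 14))))))) (.rp 12 (.thr 13 49 (.thr 1 9 (.thr 61 41 (.thr 29 45 (.thr 28 31 (.thr 20 24 (.thr 36 52 (.dbl 38 39 55)))))))) (.rp 8 (.thr 13 49 (.thr 6 7 (.thr 38 55 (.thr 12 51 (.dbl 9 1 3))))) (.rp 3 (.thr 49 13 (.thr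 38 55 (.thr 39 36 (.thr 51 12 (.thr 48 50 (.thr 0 32 (.dbl 15 10 27))))))) (.rp 0 (.thr 13 49 (.thr 1 9 (.thr 61 41 (.thr 29 45 (.thr 28 31 (.thr 20 24 (.thr 36 52 (.dbl 38 39 55)))))))) .nd))))))))))))))) (.rp 16 (.thr 17 29 (.thr 13 49 (.thr 9 1 (.thr 6 7 (.thr 38 55 (.dbl 12 3 51)))))) (.rp 3 (.thr 17 29 (.thr 38 55 (.thr 39 36 (.thr 51 12 (.thr 0 34 (.dbl 15 10 27)))))) .nd))))))) .nd)))))) (.rp 20 (.str 1 (.nv (.thr 7 6 (.thr 22 52 (.thr 41 61 (.thr 3 60 (.thr 0 2 (.dbl 15 10 11)))))) (.nv (.thr 13 9 (.thr 41 61 (.thr 33 45 (.dbl 49 17 25)))) (.rp 61 (.thr 6 7 (.thr 38 55 (.thr 39 36 (.thr 9 13 (.thr 12 3 (.thr 51 25 (.thr 0 8 (.dbl 15 10 27)))))))) (.rp 57 (.thr 13 9 (.thr 49 25 (.thr 41 61 (.dbl 33 17 45)))) (.rp 49 (.thr 6 7 (.thr 38 55 (.thr 9 13 (.thr 3 12 (.thr 41 61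 (.thr 57 25 (.dbl 22 54 60))))))) (.rp 41 (.thr 38 55 (.thr 13 9 (.thr 25 49 (.thr 12 51 (.thr 15 14 (.dbl 0 8 10)))))) .nd))))))) (.rp 7 (.str 1 (.nv (.thr 13 9 (.thr 25 49 (.thr 38 55 (.thr 12 51 (.thr 0 8 (.dbl 15 10 14)))))) (.nv (.thr 13 9 (.thr 41 61 (.thr 33 45 (.dbl 49 17 25)))) (.rp 61 (.thr 38 55 (.thr 39 36 (.thr 13 9 (.thr 49 25 (.thr 33 17 (.thr 41 45 (.thr 35 44 (.thr 32 34 (.dbl 47 42 43))))))))) (.rp 57 (.thr 13 9 (.thr 49 25 (.thr 41 61 (.dbl 33 17 45)))) (.rp 49 (.thr 38 55 (.thr 13 9 (.thr 61 41 (.thr 29 45 (.thr 25 17 (.thr 12 51 (.thr 15 14 (.dbl 0 8 10)))))))) (.rp 25 (.thr 38 55 (.thr 39 36 (.thr 41 61 (.thr 33 45 (.thr 35 44 (.thr 32 34 (.dbl 47 42 43))))))) (.rp 13 (.thr 38 55 (.thr 39 36 (.thr 41 61 (.thr 35 44 (.thr 47 43 (.thr 32 42 (.dbl 33 34 45)))))))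 (.rp 9 (.thr 38 55 (.thr 39 36 (.thr 41 61 (.thr 33 45 (.thr 35 44 (.thr 32 34 (.dbl 47 42 43))))))) .nd))))))))) (.rp 6 (.str 1 (.nv (.thr 41 61 (.thr 33 45 (.thr 49 17 (.dbl 13 9 25)))) (.nv (.thr 13 9 (.thr 25 49 (.thr 38 55 (.thr 12 51 (.thr 0 8 (.dbl 15 10 14)))))) (.nv (.thr 13 9 (.thr 41 61 (.thr 33 45 (.dbl 49 17 25)))) (.rp 61 (.thr 38 55 (.thr 39 36 (.thr 13 9 (.thr 49 25 (.thr 33 17 (.thr 41 45 (.thr 35 44 (.thr 32 34 (.dbl 47 42 43))))))))) (.rp 57 (.thr 13 9 (.thr 49 25 (.thr 41 61 (.dbl 33 17 45)))) (.rp 49 (.thr 38 55 (.thr 13 9 (.thr 61 41 (.thr 29 45 (.thr 25 17 (.thr 12 51 (.thr 15 14 (.dbl 0 8 10)))))))) (.rp 25 (.thr 38 55 (.thr 36 39 (.thr 41 61 (.thr 45 33 (.thr 44 35 (.thr 47 46 (.dbl 32 40 42))))))) (.rp 13 (.thr 38 55 (.thr 36 39 (.thr 41 61 (.thr 45 33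 (.thr 44 35 (.thr 47 46 (.dbl 32 40 42))))))) (.rp 9 (.thr 38 55 (.thr 36 39 (.thr 41 61 (.thr 45 33 (.thr 44 35 (.thr 47 46 (.dbl 32 40 42))))))) .nd)))))))))) .nd)))))))))))

theorem w516 : WinAt (137441050656, 9007199322374144) :=
  chF (K := []) kn c516 137441050656 9007199322374144 53
    [] (by decide +kernel) (by decide +kernel)

/-- A certificate. -/
noncomputable def c517 : Ct := (.str 1 (.nv (.thr 13 9 (.thr 41 61 (.thr 49 25 (.dbl 33 17 45)))) (.nv (.thr 13 9 (.thr 25 49 (.thr 29 17 (.dbl 61 41 45)))) (.rp 61 (.str 0 (.nv (.thr 3 2 (.thr 13 9 (.thr 42 63 (.thr 49 25 (.thr 33 17 (.thr 48 18 (.dbl 32 16 47))))))) (.nv (.thr 9 13 (.thr 3 2 (.thr 12 6 (.thr 10 15 (.dbl 8 4 11))))) (.rp 57 (.str 49 (.nv (.dbl 13 9 25) (.rp 25 (.thr 17 33 (.thr 51 34 (.thr 48 50 (.thr 32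 16 (.dbl 42 47 63))))) (.rp 13 (.thr 17 33 (.thr 51 34 (.thr 48 50 (.thr 32 16 (.dbl 42 47 63))))) (.rp 9 (.thr 17 33 (.dbl 25 13 29)) .nd))))) (.rp 49 (.str 57 (.nv (.thr 2 3 (.thr 10 15 (.thr 6 14 (.thr 7 4 (.thr 42 63 (.dbl 22 52 62)))))) (.nv (.thr 3 2 (.thr 9 13 (.thr 41 25 (.thr 22 60 (.thr 7 52 (.dbl 6 4 12)))))) (.nv (.thr 9 13 (.thr 25 41 (.thr 42 63 (.thr 8 59 (.dbl 10 11 15))))) (.nv (.thr 3 2 (.thr 9 13 (.thr 10 15 (.thr 12 6 (.dbl 8 4 11))))) (.rp 13 (.thr 3 2 (.thr 15 10 (.thr 7 11 (.thr 22 52 (.thr 41 60 (.thr 9 25 (.dbl 6 4 12))))))) .nd)))))) (.rp 13 (.thr 3 2 (.thr 42 63 (.thr 32 47 (.thr 48 16 (.thr 33 18 (.thr 34 35 (.dbl 17 49 51))))))) (.rp 9 (.thr 2 3 (.thr 10 15 (.thr 6 14 (.thr 7 4 (.thr 42 63 (.dbl 22 52 62)))))) (.rp 3 (.thr 13 9 (.thr 15 10 (.thr 12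 14 (.thr 8 4 (.thr 42 63 (.dbl 25 49 59)))))) (.rp 2 (.thr 13 9 (.thr 49 25 (.thr 17 33 (.thr 51 34 (.thr 42 63 (.thr 32 47 (.dbl 48 16 50))))))) .nd))))))))) (.rp 49 (.str 0 (.nv (.thr 13 9 (.thr 15 10 (.thr 61 41 (.thr 45 29 (.thr 60 30 (.dbl 63 42 62)))))) (.nv (.thr 3 2 (.thr 42 63 (.thr 32 47 (.thr 48 16 (.thr 33 18 (.dbl 41 45 61)))))) (.nv (.thr 3 2 (.thr 9 13 (.thr 10 15 (.thr 12 6 (.dbl 8 4 11))))) (.rp 61 (.str 57 (.nv (.thr 2 3 (.thr 10 15 (.thr 6 14 (.thr 7 4 (.thr 42 63 (.dbl 22 52 62)))))) (.nv (.thr 3 2 (.thr 9 13 (.thr 41 25 (.thr 22 60 (.thr 7 52 (.dbl 6 4 12)))))) (.nv (.thr 9 13 (.thr 25 41 (.thr 42 63 (.thr 8 59 (.dbl 10 11 15))))) (.nv (.thr 3 2 (.thr 9 13 (.thr 10 15 (.thr 12 6 (.dbl 8 4 11))))) (.rp 13 (.thr 3 2 (.thr 15 10 (.thr 7 11 (.thr 22 52 (.thr 41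 60 (.thr 9 25 (.dbl 6 4 12))))))) .nd)))))) (.rp 57 (.thr 61 41 (.thr 9 13 (.thr 3 2 (.thr 12 6 (.thr 8 4 (.dbl 10 11 15)))))) (.rp 15 (.thr 9 13 (.thr 41 61 (.thr 57 25 (.thr 3 2 (.thr 22 60 (.thr 7 52 (.dbl 6 4 12))))))) .nd))))))) (.rp 45 (.str 0 (.nv (.thr 2 3 (.thr 13 9 (.thr 15 10 (.thr 12 14 (.thr 8 4 (.thr 42 63 (.dbl 25 49 59))))))) (.nv (.thr 9 13 (.thr 10 15 (.thr 8 11 (.thr 42 63 (.thr 25 59 (.dbl 41 57 61)))))) (.nv (.thr 2 3 (.thr 42 63 (.thr 22 62 (.thr 7 52 (.thr 10 15 (.dbl 6 4 14)))))) (.nv (.thr 3 2 (.thr 41 61 (.thr 22 60 (.thr 7 52 (.dbl 15 10 11))))) (.nv (.thr 3 2 (.thr 9 13 (.thr 6 12 (.thr 15 10 (.dbl 7 4 11))))) (.rp 15 (.thr 13 9 (.thr 49 25 (.thr 17 33 (.thr 51 34 (.thr 48 50 (.thr 32 16 (.dbl 42 47 63))))))) (.rp 10 (.thr 13 9 (.thr 49 25 (.thr 17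 33 (.thr 51 34 (.thr 48 50 (.thr 32 16 (.dbl 42 47 63))))))) (.rp 3 (.thr 13 9 (.thr 25 49 (.thr 17 29 (.thr 51 34 (.thr 12 38 (.dbl 15 10 14)))))) .nd))))))))) (.rp 41 (.str 0 (.nv (.thr 2 3 (.thr 10 15 (.thr 42 63 (.thr 22 62 (.thr 7 52 (.dbl 6 4 14)))))) (.nv (.thr 13 9 (.thr 25 49 (.thr 17 29 (.thr 51 34 (.thr 12 38 (.dbl 15 10 14)))))) (.nv (.thr 9 13 (.thr 3 2 (.thr 12 6 (.thr 10 15 (.dbl 8 4 11))))) (.rp 56 (.str 11 (.nv (.thr 9 13 (.dbl 10 8 15)) (.nv (.thr 3 2 (.dbl 15 7 10)) (.rp 15 (.thr 3 2 (.thr 9 13 (.thr 8 10 (.dbl 12 4 6)))) (.rp 10 (.thr 3 2 (.thr 7 15 (.thr 6 4 (.dbl 9 12 13)))) .nd))))) (.rp 15 (.thr 13 9 (.thr 25 49 (.thr 17 29 (.thr 51 34 (.thr 12 38 (.thr 8 4 (.dbl 42 59 63))))))) (.rp 11 (.str 56 (.nv (.thr 13 9 (.thr 25 49 (.thr 17 29 (.thr 51 34 (.thr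 12 38 (.dbl 15 10 14)))))) (.nv (.thr 42 63 (.thr 32 47 (.thr 48 16 (.thr 52 60 (.thr 22 7 (.dbl 2 3 62)))))) (.rp 61 (.thr 13 9 (.thr 3 2 (.thr 42 63 (.thr 32 47 (.thr 48 16 (.thr 33 18 (.dbl 49 17 25))))))) (.rp 42 (.thr 13 9 (.thr 25 49 (.thr 17 29 (.thr 51 34 (.thr 38 12 (.thr 39 36 (.dbl 15 10 27))))))) (.rp 15 (.thr 13 9 (.thr 25 49 (.thr 17 29 (.thr 51 34 (.thr 12 38 (.thr 8 4 (.dbl 42 59 63))))))) .nd)))))) (.rp 10 (.thr 13 9 (.thr 25 49 (.thr 17 29 (.thr 51 34 (.thr 12 38 (.thr 8 4 (.dbl 42 59 63))))))) .nd)))))))) (.rp 25 (.thr 9 13 (.str 3 (.nv (.thr 41 61 (.thr 22 60 (.thr 7 52 (.dbl 6 4 12)))) (.nv (.thr 0 2 (.thr 41 61 (.thr 45 33 (.thr 60 22 (.dbl 15 10 30))))) (.nv (.thr 0 2 (.thr 10 15 (.thr 12 6 (.dbl 8 4 11)))) (.rp 27 (.str 24 (.nv (.thr 0 2 (.thr 41 61 (.thr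 45 33 (.thr 60 22 (.dbl 15 10 30))))) (.nv (.thr 41 61 (.thr 12 6 (.thr 48 36 (.dbl 33 18 45)))) (.nv (.thr 0 2 (.thr 10 15 (.thr 12 6 (.dbl 8 4 11)))) .nd)))) (.rp 24 (.str 27 (.nv (.thr 41 61 (.thr 22 60 (.thr 7 52 (.dbl 6 4 12)))) (.nv (.thr 0 2 (.thr 41 61 (.thr 45 33 (.thr 60 22 (.dbl 15 10 30))))) (.nv (.thr 0 2 (.thr 10 15 (.thr 12 6 (.dbl 8 4 11)))) (.rp 28 (.str 16 (.nv (.thr 0 2 (.thr 10 15 (.thr 8 11 (.dbl 12 4 6)))) (.nv (.thr 0 2 (.thr 42 63 (.dbl 32 47 48))) (.rp 22 (.str 19 (.nv (.thr 6 12 (.thr 51 35 (.thr 15 39 (.dbl 7 4 11)))) (.nv (.thr 18 17 (.thr 48 33 (.dbl 0 2 32))) (.rp 48 (.thr 23 31 (.thr 63 43 (.dbl 0 2 42))) (.rp 18 (.str 30 (.nv (.thr 41 61 (.thr 45 33 (.thr 51 35 (.dbl 15 39 60)))) (.nv (.thr 23 31 (.thr 63 43 (.dbl 0 2 42))) .nd))) .nd))))) (.rp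 19 (.str 22 (.nv (.thr 7 52 (.dbl 6 4 12)) (.nv (.dbl 41 60 61) .nd))) (.rp 2 (.thr 41 61 (.thr 22 60 (.thr 7 52 (.dbl 6 4 12)))) (.rp 0 (.thr 41 61 (.thr 6 12 (.thr 4 7 (.thr 38 55 (.dbl 22 54 60))))) .nd))))))) (.rp 16 (.str 28 (.nv (.thr 0 2 (.thr 15 10 (.thr 11 7 (.thr 43 59 (.dbl 63 23 42))))) (.nv (.thr 12 6 (.thr 60 44 (.dbl 41 22 61))) (.rp 6 (.thr 41 61 (.thr 45 33 (.thr 60 22 (.thr 0 2 (.dbl 15 10 30))))) .nd)))) (.rp 0 (.thr 41 61 (.thr 6 12 (.thr 4 7 (.thr 38 55 (.dbl 22 54 60))))) .nd))))))) (.rp 0 (.thr 41 61 (.thr 6 12 (.thr 4 7 (.thr 38 55 (.dbl 22 54 60))))) .nd)))))))) (.rp 17 (.str 4 (.nv (.thr 6 7 (.thr 9 13 (.thr 3 12 (.thr 38 55 (.thr 41 61 (.dbl 22 54 60)))))) (.nv (.thr 13 9 (.thr 25 49 (.thr 38 55 (.thr 12 51 (.thr 0 8 (.dbl 15 10 14)))))) (.nv (.thr 6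 7 (.thr 9 13 (.thr 3 12 (.thr 0 2 (.thr 15 10 (.thr 41 61 (.thr 45 33 (.dbl 60 22 30)))))))) (.nv (.thr 6 7 (.thr 9 13 (.thr 12 3 (.thr 0 8 (.thr 15 10 (.thr 38 55 (.thr 39 36 (.dbl 51 25 27)))))))) (.nv (.thr 7 6 (.thr 22 52 (.thr 41 61 (.thr 3 60 (.thr 0 2 (.dbl 15 10 11)))))) (.rp 15 (.thr 38 55 (.thr 36 39 (.thr 41 61 (.thr 45 33 (.thr 44 35 (.thr 47 46 (.dbl 32 40 42))))))) .nd))))))) (.rp 13 (.str 0 (.nv (.thr 3 2 (.thr 41 61 (.thr 42 63 (.thr 32 47 (.thr 48 16 (.dbl 33 18 45)))))) (.nv (.thr 3 2 (.thr 15 10 (.thr 7 11 (.thr 22 52 (.dbl 41 60 61))))) (.nv (.thr 41 61 (.thr 45 33 (.thr 3 2 (.thr 60 22 (.dbl 15 10 30))))) (.rp 61 (.thr 3 2 (.thr 42 63 (.thr 32 47 (.thr 48 16 (.thr 33 18 (.thr 34 35 (.dbl 17 49 51))))))) (.rp 60 (.thr 3 2 (.thr 42 63 (.thr 32 47 (.thr 48 16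 (.thr 33 18 (.dbl 41 45 61)))))) (.rp 42 (.thr 41 61 (.thr 3 2 (.thr 22 60 (.thr 7 52 (.dbl 15 10 11))))) (.rp 41 (.thr 2 3 (.thr 10 15 (.thr 42 63 (.thr 22 62 (.thr 7 52 (.dbl 6 4 14)))))) (.rp 15 (.thr 41 61 (.thr 45 33 (.thr 42 63 (.thr 47 32 (.thr 44 46 (.thr 35 38 (.dbl 43 39 40))))))) (.rp 3 (.thr 41 61 (.thr 45 33 (.thr 42 63 (.thr 47 32 (.thr 44 46 (.thr 35 38 (.dbl 43 39 40))))))) (.rp 2 (.thr 41 61 (.thr 45 33 (.thr 42 63 (.thr 47 32 (.thr 44 46 (.thr 35 38 (.dbl 43 39 40))))))) .nd))))))))))) (.rp 9 (.str 0 (.nv (.thr 3 2 (.thr 41 61 (.thr 33 45 (.thr 48 18 (.thr 32 16 (.dbl 42 47 63)))))) (.nv (.thr 41 61 (.thr 33 45 (.thr 42 63 (.thr 32 47 (.thr 34 35 (.dbl 17 49 51)))))) (.nv (.thr 2 3 (.thr 10 15 (.thr 6 14 (.thr 7 4 (.thr 42 63 (.dbl 22 52 62)))))) (.nv (.thr 41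 61 (.thr 45 33 (.thr 3 2 (.thr 60 22 (.dbl 15 10 30))))) (.rp 42 (.thr 41 61 (.thr 3 2 (.thr 22 60 (.thr 7 52 (.dbl 15 10 11))))) .nd)))))) .nd)))))))))))

theorem w517 : WinAt (137441050656, 9007199322898432) :=
  chF (K := []) kn c517 137441050656 9007199322898432 53
    [] (by decide +kernel) (by decide +kernel)

/-- A certificate. -/
noncomputable def c518 : Ct := (.str 42 (.nv (.thr 0 63 (.thr 5 53 (.thr 15 10 (.thr 40 43 (.thr 45 33 (.dbl 60 20 30)))))) (.nv (.thr 0 63 (.thr 1 61 (.thr 3 2 (.thr 32 47 (.thr 48 16 (.dbl 33 18 45)))))) (.nv (.thr 45 33 (.thr 47 32 (.thr 44 46 (.thr 43 40 (.dbl 35 38 39))))) (.rp 45 (.thr 63 0 (.thr 47 32 (.thr 43 40 (.thr 39 35 (.thr 23 3 (.thr 55 7 (.dbl 38 4 36))))))) (.rp 33 (.thr 0 63 (.thr 32 47 (.thr 40 43 (.thr 36 44 (.thr 20 60 (.thr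 4 52 (.dbl 38 39 55))))))) (.rp 30 (.str 18 (.nv (.thr 0 63 (.thr 1 61 (.thr 32 47 (.thr 33 45 (.thr 17 49 (.dbl 34 35 51)))))) (.nv (.thr 0 63 (.thr 32 47 (.thr 48 16 (.thr 3 33 (.dbl 1 2 61))))) (.nv (.thr 43 40 (.thr 63 0 (.thr 3 23 (.dbl 33 45 48)))) (.rp 63 (.thr 33 45 (.thr 32 47 (.thr 35 34 (.thr 40 43 (.dbl 44 36 38))))) (.rp 33 (.thr 1 61 (.thr 0 63 (.thr 2 3 (.thr 34 50 (.thr 17 51 (.thr 32 47 (.dbl 16 19 48))))))) (.rp 28 (.str 19 (.nv (.thr 0 63 (.thr 1 61 (.thr 3 2 (.dbl 33 45 48)))) (.nv (.thr 1 61 (.thr 17 16 (.dbl 33 45 49))) (.nv (.thr 16 17 (.thr 32 47 (.dbl 0 48 63))) (.rp 31 (.str 29 (.nv (.thr 0 63 (.thr 16 17 (.dbl 32 47 48))) (.nv (.thr 45 33 (.dbl 61 1 13)) (.rp 27 (.str 24 (.nv (.thr 0 63 (.thr 16 17 (.dbl 32 47 48))) (.nv (.thr 45 33 (.dbl 61 1 13)) .nd)))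 (.rp 24 (.str 27 (.nv (.thr 16 17 (.thr 0 63 (.dbl 32 47 48))) (.nv (.thr 45 33 (.dbl 61 1 13)) (.rp 16 (.str 20 (.nv (.thr 45 33 (.dbl 61 1 13)) (.nv (.thr 40 43 (.dbl 0 60 63)) .nd))) .nd)))) .nd))))) (.rp 29 (.str 31 (.nv (.thr 1 61 (.thr 17 16 (.dbl 33 45 49))) (.nv (.thr 63 0 (.dbl 47 15 32)) (.rp 27 (.str 24 (.nv (.thr 1 61 (.thr 17 16 (.dbl 33 45 49))) (.nv (.thr 47 32 (.dbl 63 0 15)) .nd))) (.rp 24 (.thr 27 23 (.thr 63 0 (.dbl 47 15 32))) .nd))))) (.rp 27 (.str 24 (.nv (.thr 0 63 (.thr 32 47 (.thr 40 43 (.thr 48 16 (.dbl 36 12 44))))) (.nv (.thr 17 16 (.thr 1 61 (.dbl 33 45 49))) (.rp 31 (.str 29 (.nv (.thr 0 63 (.thr 16 17 (.dbl 32 47 48))) (.nv (.thr 45 33 (.dbl 61 1 13)) .nd))) (.rp 29 (.str 31 (.nv (.thr 1 61 (.thr 17 16 (.dbl 33 45 49))) (.nv (.thr 47 32 (.dbl 63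 0 15)) .nd))) (.rp 16 (.thr 43 40 (.thr 63 0 (.thr 3 23 (.dbl 33 45 48)))) .nd)))))) (.rp 24 (.str 27 (.nv (.thr 16 17 (.thr 32 47 (.dbl 0 48 63))) (.nv (.thr 1 61 (.thr 33 45 (.dbl 17 16 49))) (.nv (.thr 31 23 (.thr 63 0 (.dbl 47 15 32))) (.rp 31 (.str 29 (.nv (.thr 16 17 (.thr 0 63 (.dbl 32 47 48))) (.nv (.thr 45 33 (.dbl 61 1 13)) (.rp 16 (.str 20 (.nv (.thr 45 33 (.dbl 61 1 13)) (.nv (.thr 40 43 (.dbl 0 60 63)) .nd))) .nd)))) (.rp 16 (.str 20 (.nv (.thr 31 23 (.thr 47 32 (.dbl 63 0 15))) (.nv (.thr 32 47 (.thr 33 45 (.thr 3 48 (.dbl 35 34 51)))) (.nv (.thr 40 43 (.dbl 0 60 63)) (.rp 31 (.str 29 (.nv (.thr 45 33 (.dbl 61 1 13)) (.nv (.thr 40 43 (.dbl 0 60 63)) .nd))) .nd))))) .nd)))))) .nd)))))))) (.rp 27 (.str 24 (.nv (.thr 0 63 (.thr 1 61 (.thr 3 2 (.dbl 33 45 48)))) (.nv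 (.thr 0 63 (.thr 32 47 (.thr 48 16 (.thr 36 12 (.dbl 40 43 44))))) (.nv (.thr 33 45 (.thr 3 48 (.thr 43 40 (.dbl 63 0 23)))) (.rp 63 (.thr 43 40 (.thr 47 32 (.thr 35 39 (.thr 45 33 (.dbl 44 38 46))))) (.rp 48 (.thr 43 40 (.thr 47 32 (.thr 35 39 (.thr 45 33 (.dbl 44 38 46))))) (.rp 28 (.str 19 (.nv (.thr 0 63 (.thr 32 47 (.thr 40 43 (.thr 48 16 (.dbl 36 12 44))))) (.nv (.thr 17 16 (.thr 1 61 (.dbl 33 45 49))) (.rp 31 (.str 29 (.nv (.thr 0 63 (.thr 16 17 (.dbl 32 47 48))) (.nv (.thr 45 33 (.dbl 61 1 13)) .nd))) (.rp 29 (.str 31 (.nv (.thr 1 61 (.thr 17 16 (.dbl 33 45 49))) (.nv (.thr 47 32 (.dbl 63 0 15)) .nd))) (.rp 16 (.thr 43 40 (.thr 63 0 (.thr 3 23 (.dbl 33 45 48)))) .nd)))))) (.rp 19 (.str 28 (.nv (.thr 0 63 (.thr 1 61 (.thr 3 2 (.dbl 33 45 48)))) (.nv (.thr 32 47 (.thr 16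 20 (.dbl 0 48 63))) (.rp 63 (.thr 33 45 (.thr 32 47 (.thr 16 20 (.dbl 48 0 3)))) (.rp 48 (.thr 40 43 (.thr 20 16 (.dbl 0 60 63))) (.rp 31 (.str 23 (.nv (.thr 0 63 (.thr 16 20 (.dbl 32 47 48))) (.nv (.thr 43 40 (.dbl 63 0 3)) (.rp 63 (.thr 16 20 (.thr 33 45 (.thr 48 3 (.dbl 32 0 47)))) (.rp 0 (.thr 33 45 (.thr 43 40 (.dbl 3 48 63))) .nd))))) (.rp 23 (.str 31 (.nv (.thr 0 63 (.thr 20 16 (.dbl 40 43 60))) (.nv (.thr 47 32 (.dbl 63 0 15)) (.rp 63 (.thr 16 20 (.thr 33 45 (.thr 32 47 (.dbl 48 0 3)))) (.rp 0 (.thr 45 33 (.thr 47 32 (.thr 44 46 (.thr 43 40 (.dbl 35 38 39))))) .nd))))) (.rp 0 (.thr 33 45 (.thr 40 43 (.thr 32 47 (.thr 44 36 (.dbl 35 34 38))))) .nd)))))))) (.rp 0 (.thr 43 40 (.thr 47 32 (.thr 35 39 (.thr 45 33 (.dbl 44 38 46))))) .nd))))))))) (.rp 24 (.str 27 (.nv (.thr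 0 63 (.thr 1 61 (.thr 32 47 (.thr 33 45 (.thr 17 49 (.dbl 34 35 51)))))) (.nv (.thr 0 63 (.thr 32 47 (.thr 48 16 (.dbl 33 3 45)))) (.nv (.thr 0 63 (.thr 1 61 (.thr 3 2 (.dbl 33 45 48)))) (.rp 63 (.thr 33 45 (.thr 32 47 (.thr 35 34 (.thr 40 43 (.dbl 44 36 38))))) (.rp 45 (.thr 53 5 (.thr 63 0 (.thr 48 58 (.thr 3 33 (.dbl 43 23 40))))) (.rp 33 (.thr 63 0 (.thr 47 32 (.thr 15 31 (.thr 39 51 (.dbl 43 35 40))))) (.rp 28 (.str 19 (.nv (.thr 16 17 (.thr 32 47 (.dbl 0 48 63))) (.nv (.thr 1 61 (.thr 33 45 (.dbl 17 16 49))) (.nv (.thr 31 23 (.thr 63 0 (.dbl 47 15 32))) (.rp 31 (.str 29 (.nv (.thr 16 17 (.thr 0 63 (.dbl 32 47 48))) (.nv (.thr 45 33 (.dbl 61 1 13)) (.rp 16 (.str 20 (.nv (.thr 45 33 (.dbl 61 1 13)) (.nv (.thr 40 43 (.dbl 0 60 63)) .nd))) .nd)))) (.rp 16 (.str 20 (.nv (.thr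 31 23 (.thr 47 32 (.dbl 63 0 15))) (.nv (.thr 32 47 (.thr 33 45 (.thr 3 48 (.dbl 35 34 51)))) (.nv (.thr 40 43 (.dbl 0 60 63)) (.rp 31 (.str 29 (.nv (.thr 45 33 (.dbl 61 1 13)) (.nv (.thr 40 43 (.dbl 0 60 63)) .nd))) .nd))))) .nd)))))) (.rp 19 (.str 28 (.nv (.thr 0 63 (.thr 32 47 (.thr 40 43 (.thr 60 20 (.dbl 44 12 36))))) (.nv (.thr 0 63 (.thr 1 61 (.thr 3 2 (.dbl 33 45 48)))) (.rp 63 (.thr 45 33 (.thr 47 32 (.thr 44 46 (.thr 43 40 (.dbl 35 38 39))))) (.rp 60 (.thr 32 47 (.thr 0 63 (.thr 48 16 (.dbl 33 3 45)))) (.rp 3 (.thr 45 33 (.thr 47 32 (.thr 44 46 (.thr 43 40 (.dbl 35 38 39))))) (.rp 0 (.thr 45 33 (.thr 47 32 (.thr 44 46 (.thr 43 40 (.dbl 35 38 39))))) .nd))))))) (.rp 0 (.thr 33 45 (.thr 32 47 (.thr 35 34 (.thr 40 43 (.dbl 44 36 38))))) .nd)))))))))) (.rp 19 (.str 28 (.nv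 (.thr 0 63 (.thr 40 43 (.thr 60 20 (.thr 44 12 (.dbl 32 36 47))))) (.nv (.thr 53 5 (.thr 63 0 (.thr 48 58 (.dbl 33 3 45)))) (.rp 63 (.thr 33 45 (.thr 40 43 (.thr 32 47 (.thr 44 36 (.dbl 35 34 38))))) (.rp 27 (.str 24 (.nv (.thr 0 63 (.thr 1 61 (.thr 3 2 (.dbl 33 45 48)))) (.nv (.thr 32 47 (.thr 16 20 (.dbl 0 48 63))) (.rp 63 (.thr 33 45 (.thr 32 47 (.thr 16 20 (.dbl 48 0 3)))) (.rp 48 (.thr 40 43 (.thr 20 16 (.dbl 0 60 63))) (.rp 31 (.str 23 (.nv (.thr 0 63 (.thr 16 20 (.dbl 32 47 48))) (.nv (.thr 43 40 (.dbl 63 0 3)) (.rp 63 (.thr 16 20 (.thr 33 45 (.thr 48 3 (.dbl 32 0 47)))) (.rp 0 (.thr 33 45 (.thr 43 40 (.dbl 3 48 63))) .nd))))) (.rp 23 (.str 31 (.nv (.thr 0 63 (.thr 20 16 (.dbl 40 43 60))) (.nv (.thr 47 32 (.dbl 63 0 15)) (.rp 63 (.thr 16 20 (.thr 33 45 (.thr 32 47 (.dbl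 48 0 3)))) (.rp 0 (.thr 45 33 (.thr 47 32 (.thr 44 46 (.thr 43 40 (.dbl 35 38 39))))) .nd))))) (.rp 0 (.thr 33 45 (.thr 40 43 (.thr 32 47 (.thr 44 36 (.dbl 35 34 38))))) .nd)))))))) (.rp 24 (.str 27 (.nv (.thr 0 63 (.thr 32 47 (.thr 40 43 (.thr 60 20 (.dbl 44 12 36))))) (.nv (.thr 0 63 (.thr 1 61 (.thr 3 2 (.dbl 33 45 48)))) (.rp 63 (.thr 45 33 (.thr 47 32 (.thr 44 46 (.thr 43 40 (.dbl 35 38 39))))) (.rp 60 (.thr 32 47 (.thr 0 63 (.thr 48 16 (.dbl 33 3 45)))) (.rp 3 (.thr 45 33 (.thr 47 32 (.thr 44 46 (.thr 43 40 (.dbl 35 38 39))))) (.rp 0 (.thr 45 33 (.thr 47 32 (.thr 44 46 (.thr 43 40 (.dbl 35 38 39))))) .nd))))))) (.rp 3 (.thr 33 45 (.thr 40 43 (.thr 32 47 (.thr 44 36 (.dbl 35 34 38))))) (.rp 0 (.thr 33 45 (.thr 40 43 (.thr 32 47 (.thr 44 36 (.dbl 35 34 38))))) .nd))))))))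 (.rp 0 (.thr 33 45 (.thr 32 47 (.thr 35 34 (.thr 40 43 (.dbl 44 36 38))))) .nd))))))))))) (.rp 28 (.str 19 (.nv (.thr 43 40 (.thr 47 32 (.thr 35 39 (.thr 3 51 (.dbl 63 0 23))))) (.nv (.thr 0 63 (.thr 1 61 (.thr 3 2 (.thr 33 45 (.thr 17 49 (.dbl 18 16 48)))))) (.nv (.thr 33 45 (.thr 32 47 (.thr 35 34 (.thr 40 43 (.dbl 44 36 38))))) (.rp 30 (.str 18 (.nv (.thr 0 63 (.thr 1 61 (.thr 3 2 (.dbl 33 45 48)))) (.nv (.thr 1 61 (.thr 17 16 (.dbl 33 45 49))) (.nv (.thr 16 17 (.thr 32 47 (.dbl 0 48 63))) (.rp 31 (.str 29 (.nv (.thr 0 63 (.thr 16 17 (.dbl 32 47 48))) (.nv (.thr 45 33 (.dbl 61 1 13)) (.rp 27 (.str 24 (.nv (.thr 0 63 (.thr 16 17 (.dbl 32 47 48))) (.nv (.thr 45 33 (.dbl 61 1 13)) .nd))) (.rp 24 (.str 27 (.nv (.thr 16 17 (.thr 0 63 (.dbl 32 47 48))) (.nv (.thr 45 33 (.dbl 61 1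 13)) (.rp 16 (.str 20 (.nv (.thr 45 33 (.dbl 61 1 13)) (.nv (.thr 40 43 (.dbl 0 60 63)) .nd))) .nd)))) .nd))))) (.rp 29 (.str 31 (.nv (.thr 1 61 (.thr 17 16 (.dbl 33 45 49))) (.nv (.thr 63 0 (.dbl 47 15 32)) (.rp 27 (.str 24 (.nv (.thr 1 61 (.thr 17 16 (.dbl 33 45 49))) (.nv (.thr 47 32 (.dbl 63 0 15)) .nd))) (.rp 24 (.thr 27 23 (.thr 63 0 (.dbl 47 15 32))) .nd))))) (.rp 27 (.str 24 (.nv (.thr 0 63 (.thr 32 47 (.thr 40 43 (.thr 48 16 (.dbl 36 12 44))))) (.nv (.thr 17 16 (.thr 1 61 (.dbl 33 45 49))) (.rp 31 (.str 29 (.nv (.thr 0 63 (.thr 16 17 (.dbl 32 47 48))) (.nv (.thr 45 33 (.dbl 61 1 13)) .nd))) (.rp 29 (.str 31 (.nv (.thr 1 61 (.thr 17 16 (.dbl 33 45 49))) (.nv (.thr 47 32 (.dbl 63 0 15)) .nd))) (.rp 16 (.thr 43 40 (.thr 63 0 (.thr 3 23 (.dbl 33 45 48)))) .nd)))))) (.rp 24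 (.str 27 (.nv (.thr 16 17 (.thr 32 47 (.dbl 0 48 63))) (.nv (.thr 1 61 (.thr 33 45 (.dbl 17 16 49))) (.nv (.thr 31 23 (.thr 63 0 (.dbl 47 15 32))) (.rp 31 (.str 29 (.nv (.thr 16 17 (.thr 0 63 (.dbl 32 47 48))) (.nv (.thr 45 33 (.dbl 61 1 13)) (.rp 16 (.str 20 (.nv (.thr 45 33 (.dbl 61 1 13)) (.nv (.thr 40 43 (.dbl 0 60 63)) .nd))) .nd)))) (.rp 16 (.str 20 (.nv (.thr 31 23 (.thr 47 32 (.dbl 63 0 15))) (.nv (.thr 32 47 (.thr 33 45 (.thr 3 48 (.dbl 35 34 51)))) (.nv (.thr 40 43 (.dbl 0 60 63)) (.rp 31 (.str 29 (.nv (.thr 45 33 (.dbl 61 1 13)) (.nv (.thr 40 43 (.dbl 0 60 63)) .nd))) .nd))))) .nd)))))) .nd)))))))) (.rp 27 (.str 24 (.nv (.thr 0 63 (.thr 32 47 (.thr 40 43 (.thr 48 16 (.dbl 36 12 44))))) (.nv (.thr 0 63 (.thr 1 61 (.thr 3 2 (.thr 33 45 (.thr 17 49 (.dbl 18 16 48))))))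 (.nv (.thr 43 40 (.thr 45 33 (.thr 47 32 (.thr 44 46 (.dbl 35 38 39))))) (.rp 30 (.str 18 (.nv (.thr 0 63 (.thr 32 47 (.thr 40 43 (.thr 48 16 (.dbl 36 12 44))))) (.nv (.thr 17 16 (.thr 1 61 (.dbl 33 45 49))) (.rp 31 (.str 29 (.nv (.thr 0 63 (.thr 16 17 (.dbl 32 47 48))) (.nv (.thr 45 33 (.dbl 61 1 13)) .nd))) (.rp 29 (.str 31 (.nv (.thr 1 61 (.thr 17 16 (.dbl 33 45 49))) (.nv (.thr 47 32 (.dbl 63 0 15)) .nd))) (.rp 16 (.thr 43 40 (.thr 63 0 (.thr 3 23 (.dbl 33 45 48)))) .nd)))))) (.rp 18 (.str 30 (.nv (.thr 0 63 (.thr 32 47 (.thr 40 43 (.thr 48 16 (.dbl 36 12 44))))) (.nv (.thr 32 47 (.thr 33 45 (.thr 40 43 (.thr 44 36 (.dbl 35 34 38))))) (.nv (.thr 63 0 (.thr 61 1 (.thr 60 62 (.dbl 45 15 33)))) .nd)))) .nd)))))) (.rp 24 (.str 27 (.nv (.thr 23 31 (.thr 43 40 (.dbl 63 0 3))) (.nv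 (.thr 47 32 (.thr 31 23 (.dbl 63 0 15))) (.rp 63 (.thr 33 45 (.thr 32 47 (.thr 35 34 (.thr 40 43 (.dbl 44 36 38))))) (.rp 31 (.thr 33 45 (.thr 32 47 (.thr 35 34 (.thr 40 43 (.dbl 44 36 38))))) (.rp 30 (.str 18 (.nv (.thr 16 17 (.thr 32 47 (.dbl 0 48 63))) (.nv (.thr 1 61 (.thr 33 45 (.dbl 17 16 49))) (.nv (.thr 31 23 (.thr 63 0 (.dbl 47 15 32))) (.rp 31 (.str 29 (.nv (.thr 16 17 (.thr 0 63 (.dbl 32 47 48))) (.nv (.thr 45 33 (.dbl 61 1 13)) (.rp 16 (.str 20 (.nv (.thr 45 33 (.dbl 61 1 13)) (.nv (.thr 40 43 (.dbl 0 60 63)) .nd))) .nd)))) (.rp 16 (.str 20 (.nv (.thr 31 23 (.thr 47 32 (.dbl 63 0 15))) (.nv (.thr 32 47 (.thr 33 45 (.thr 3 48 (.dbl 35 34 51)))) (.nv (.thr 40 43 (.dbl 0 60 63)) (.rp 31 (.str 29 (.nv (.thr 45 33 (.dbl 61 1 13)) (.nv (.thr 40 43 (.dbl 0 60 63)) .nd)))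 .nd))))) .nd)))))) (.rp 23 (.thr 33 45 (.thr 32 47 (.thr 35 34 (.thr 40 43 (.dbl 44 36 38))))) (.rp 20 (.str 16 (.nv (.thr 1 61 (.thr 33 45 (.dbl 17 18 49))) (.nv (.thr 32 47 (.dbl 0 48 63)) (.rp 30 (.thr 18 17 (.thr 32 47 (.dbl 0 48 63))) (.rp 18 (.str 30 (.nv (.thr 23 31 (.thr 43 40 (.dbl 63 0 3))) (.nv (.thr 32 47 (.dbl 0 48 63)) (.rp 63 (.thr 33 45 (.thr 32 47 (.thr 35 34 (.thr 40 43 (.dbl 44 36 38))))) (.rp 0 (.thr 31 23 (.thr 45 33 (.thr 47 32 (.dbl 15 60 63)))) .nd))))) .nd))))) (.rp 18 (.str 30 (.nv (.thr 0 63 (.thr 5 53 (.thr 15 10 (.dbl 45 33 60)))) (.nv (.thr 47 32 (.thr 31 23 (.dbl 63 0 15))) (.rp 63 (.thr 45 33 (.thr 43 40 (.thr 47 32 (.thr 35 39 (.dbl 44 38 46))))) (.rp 20 (.str 16 (.nv (.thr 23 31 (.thr 43 40 (.dbl 63 0 3))) (.nv (.thr 32 47 (.dbl 0 48 63)) (.rp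 63 (.thr 33 45 (.thr 32 47 (.thr 35 34 (.thr 40 43 (.dbl 44 36 38))))) (.rp 0 (.thr 31 23 (.thr 45 33 (.thr 47 32 (.dbl 15 60 63)))) .nd))))) (.rp 16 (.str 20 (.nv (.thr 31 23 (.thr 47 32 (.dbl 63 0 15))) (.nv (.thr 40 43 (.dbl 0 60 63)) (.rp 63 (.thr 45 33 (.thr 40 43 (.dbl 60 0 15))) (.rp 0 (.thr 31 23 (.thr 45 33 (.thr 15 60 (.dbl 47 32 63)))) .nd))))) (.rp 15 (.thr 43 40 (.thr 23 31 (.dbl 63 0 3))) (.rp 0 (.thr 45 33 (.thr 47 32 (.thr 31 23 (.dbl 15 60 63)))) .nd)))))))) (.rp 16 (.str 20 (.nv (.thr 31 23 (.thr 47 32 (.dbl 63 0 15))) (.nv (.thr 40 43 (.dbl 0 60 63)) (.rp 63 (.thr 43 40 (.thr 47 32 (.thr 35 39 (.thr 45 33 (.dbl 44 38 46))))) (.rp 30 (.str 18 (.nv (.thr 31 23 (.thr 47 32 (.dbl 63 0 15))) (.nv (.thr 32 47 (.thr 33 45 (.thr 3 48 (.dbl 35 34 51)))) (.nv (.thr 40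 43 (.dbl 0 60 63)) (.rp 31 (.str 29 (.nv (.thr 45 33 (.dbl 61 1 13)) (.nv (.thr 40 43 (.dbl 0 60 63)) .nd))) .nd))))) (.rp 18 (.str 30 (.nv (.thr 31 23 (.thr 47 32 (.dbl 63 0 15))) (.nv (.thr 40 43 (.dbl 0 60 63)) (.rp 63 (.thr 45 33 (.thr 40 43 (.dbl 60 0 15))) (.rp 0 (.thr 31 23 (.thr 45 33 (.thr 15 60 (.dbl 47 32 63)))) .nd))))) (.rp 0 (.thr 43 40 (.thr 23 31 (.thr 3 63 (.thr 35 51 (.dbl 47 32 39))))) .nd))))))) (.rp 0 (.thr 23 31 (.thr 47 32 (.thr 43 40 (.thr 35 39 (.dbl 3 51 63))))) .nd))))))))))) (.rp 18 (.str 30 (.nv (.thr 0 63 (.thr 1 61 (.thr 3 2 (.thr 35 51 (.thr 43 40 (.dbl 47 32 39)))))) (.nv (.thr 32 47 (.thr 33 45 (.thr 35 34 (.thr 40 43 (.dbl 44 36 38))))) (.nv (.thr 5 53 (.thr 0 63 (.thr 15 10 (.dbl 45 33 60)))) (.rp 27 (.str 24 (.nv (.thr 0 63 (.thr 32 47 (.thr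 40 43 (.thr 48 16 (.dbl 36 12 44))))) (.nv (.thr 32 47 (.thr 33 45 (.thr 40 43 (.thr 44 36 (.dbl 35 34 38))))) (.nv (.thr 63 0 (.thr 61 1 (.thr 60 62 (.dbl 45 15 33)))) .nd)))) (.rp 24 (.str 27 (.nv (.thr 0 63 (.thr 5 53 (.thr 15 10 (.dbl 45 33 60)))) (.nv (.thr 47 32 (.thr 31 23 (.dbl 63 0 15))) (.rp 63 (.thr 45 33 (.thr 43 40 (.thr 47 32 (.thr 35 39 (.dbl 44 38 46))))) (.rp 20 (.str 16 (.nv (.thr 23 31 (.thr 43 40 (.dbl 63 0 3))) (.nv (.thr 32 47 (.dbl 0 48 63)) (.rp 63 (.thr 33 45 (.thr 32 47 (.thr 35 34 (.thr 40 43 (.dbl 44 36 38))))) (.rp 0 (.thr 31 23 (.thr 45 33 (.thr 47 32 (.dbl 15 60 63)))) .nd))))) (.rp 16 (.str 20 (.nv (.thr 31 23 (.thr 47 32 (.dbl 63 0 15))) (.nv (.thr 40 43 (.dbl 0 60 63)) (.rp 63 (.thr 45 33 (.thr 40 43 (.dbl 60 0 15))) (.rp 0 (.thr 31 23 (.thr 45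 33 (.thr 15 60 (.dbl 47 32 63)))) .nd))))) (.rp 15 (.thr 43 40 (.thr 23 31 (.dbl 63 0 3))) (.rp 0 (.thr 45 33 (.thr 47 32 (.thr 31 23 (.dbl 15 60 63)))) .nd)))))))) .nd)))))) .nd)))))))) (.rp 27 (.str 24 (.nv (.thr 0 63 (.thr 1 61 (.thr 3 2 (.thr 32 47 (.thr 33 45 (.dbl 48 16 18)))))) (.nv (.thr 0 63 (.thr 1 61 (.thr 5 53 (.thr 9 13 (.thr 40 43 (.thr 8 56 (.dbl 10 11 15))))))) (.nv (.thr 45 33 (.thr 47 32 (.thr 44 46 (.thr 43 40 (.dbl 35 38 39))))) (.rp 45 (.thr 0 63 (.thr 32 47 (.thr 48 16 (.thr 36 12 (.dbl 40 43 44))))) (.rp 30 (.str 18 (.nv (.thr 0 63 (.thr 1 61 (.thr 3 2 (.dbl 33 45 48)))) (.nv (.thr 0 63 (.thr 32 47 (.thr 48 16 (.thr 36 12 (.dbl 40 43 44))))) (.nv (.thr 33 45 (.thr 3 48 (.thr 43 40 (.dbl 63 0 23)))) (.rp 63 (.thr 43 40 (.thr 47 32 (.thr 35 39 (.thr 45 33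 (.dbl 44 38 46))))) (.rp 48 (.thr 43 40 (.thr 47 32 (.thr 35 39 (.thr 45 33 (.dbl 44 38 46))))) (.rp 28 (.str 19 (.nv (.thr 0 63 (.thr 32 47 (.thr 40 43 (.thr 48 16 (.dbl 36 12 44))))) (.nv (.thr 17 16 (.thr 1 61 (.dbl 33 45 49))) (.rp 31 (.str 29 (.nv (.thr 0 63 (.thr 16 17 (.dbl 32 47 48))) (.nv (.thr 45 33 (.dbl 61 1 13)) .nd))) (.rp 29 (.str 31 (.nv (.thr 1 61 (.thr 17 16 (.dbl 33 45 49))) (.nv (.thr 47 32 (.dbl 63 0 15)) .nd))) (.rp 16 (.thr 43 40 (.thr 63 0 (.thr 3 23 (.dbl 33 45 48)))) .nd)))))) (.rp 19 (.str 28 (.nv (.thr 0 63 (.thr 1 61 (.thr 3 2 (.dbl 33 45 48)))) (.nv (.thr 32 47 (.thr 16 20 (.dbl 0 48 63))) (.rp 63 (.thr 33 45 (.thr 32 47 (.thr 16 20 (.dbl 48 0 3)))) (.rp 48 (.thr 40 43 (.thr 20 16 (.dbl 0 60 63))) (.rp 31 (.str 23 (.nv (.thr 0 63 (.thr 16 20 (.dbl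 32 47 48))) (.nv (.thr 43 40 (.dbl 63 0 3)) (.rp 63 (.thr 16 20 (.thr 33 45 (.thr 48 3 (.dbl 32 0 47)))) (.rp 0 (.thr 33 45 (.thr 43 40 (.dbl 3 48 63))) .nd))))) (.rp 23 (.str 31 (.nv (.thr 0 63 (.thr 20 16 (.dbl 40 43 60))) (.nv (.thr 47 32 (.dbl 63 0 15)) (.rp 63 (.thr 16 20 (.thr 33 45 (.thr 32 47 (.dbl 48 0 3)))) (.rp 0 (.thr 45 33 (.thr 47 32 (.thr 44 46 (.thr 43 40 (.dbl 35 38 39))))) .nd))))) (.rp 0 (.thr 33 45 (.thr 40 43 (.thr 32 47 (.thr 44 36 (.dbl 35 34 38))))) .nd)))))))) (.rp 0 (.thr 43 40 (.thr 47 32 (.thr 35 39 (.thr 45 33 (.dbl 44 38 46))))) .nd))))))))) (.rp 28 (.str 19 (.nv (.thr 0 63 (.thr 32 47 (.thr 40 43 (.thr 48 16 (.dbl 36 12 44))))) (.nv (.thr 0 63 (.thr 1 61 (.thr 3 2 (.thr 33 45 (.thr 17 49 (.dbl 18 16 48)))))) (.nv (.thr 43 40 (.thr 45 33 (.thr 47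 32 (.thr 44 46 (.dbl 35 38 39))))) (.rp 30 (.str 18 (.nv (.thr 0 63 (.thr 32 47 (.thr 40 43 (.thr 48 16 (.dbl 36 12 44))))) (.nv (.thr 17 16 (.thr 1 61 (.dbl 33 45 49))) (.rp 31 (.str 29 (.nv (.thr 0 63 (.thr 16 17 (.dbl 32 47 48))) (.nv (.thr 45 33 (.dbl 61 1 13)) .nd))) (.rp 29 (.str 31 (.nv (.thr 1 61 (.thr 17 16 (.dbl 33 45 49))) (.nv (.thr 47 32 (.dbl 63 0 15)) .nd))) (.rp 16 (.thr 43 40 (.thr 63 0 (.thr 3 23 (.dbl 33 45 48)))) .nd)))))) (.rp 18 (.str 30 (.nv (.thr 0 63 (.thr 32 47 (.thr 40 43 (.thr 48 16 (.dbl 36 12 44))))) (.nv (.thr 32 47 (.thr 33 45 (.thr 40 43 (.thr 44 36 (.dbl 35 34 38))))) (.nv (.thr 63 0 (.thr 61 1 (.thr 60 62 (.dbl 45 15 33)))) .nd)))) .nd)))))) (.rp 19 (.str 28 (.nv (.thr 0 63 (.thr 20 16 (.dbl 40 43 60))) (.nv (.thr 32 47 (.thr 16 20 (.dbl 0 48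 63))) (.rp 63 (.thr 20 16 (.thr 32 47 (.thr 40 43 (.thr 44 36 (.dbl 60 0 12))))) (.rp 31 (.str 23 (.nv (.thr 0 63 (.thr 16 20 (.dbl 32 47 48))) (.nv (.thr 43 40 (.dbl 63 0 3)) (.rp 63 (.thr 40 43 (.thr 20 16 (.thr 60 0 (.thr 44 12 (.dbl 32 36 47))))) (.rp 30 (.str 18 (.nv (.thr 0 63 (.thr 16 20 (.dbl 32 47 48))) (.nv (.thr 43 40 (.dbl 63 0 3)) (.rp 63 (.thr 16 20 (.thr 33 45 (.thr 48 3 (.dbl 32 0 47)))) (.rp 0 (.thr 33 45 (.thr 43 40 (.dbl 3 48 63))) .nd))))) (.rp 18 (.str 30 (.nv (.thr 16 20 (.thr 0 63 (.dbl 32 47 48))) (.nv (.thr 43 40 (.dbl 63 0 3)) (.rp 63 (.thr 47 32 (.thr 45 33 (.thr 44 46 (.dbl 60 12 15)))) (.rp 16 (.str 17 (.nv (.thr 1 61 (.dbl 33 45 49)) (.nv (.thr 43 40 (.dbl 63 0 3)) .nd))) (.rp 0 (.thr 47 32 (.thr 45 33 (.thr 44 46 (.dbl 60 12 15)))) .nd)))))) (.rp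 0 (.thr 40 43 (.thr 32 47 (.thr 44 36 (.thr 33 45 (.dbl 35 34 38))))) .nd))))))) (.rp 30 (.str 18 (.nv (.thr 0 63 (.thr 1 61 (.thr 3 2 (.dbl 33 45 48)))) (.nv (.thr 32 47 (.thr 16 20 (.dbl 0 48 63))) (.rp 63 (.thr 33 45 (.thr 32 47 (.thr 16 20 (.dbl 48 0 3)))) (.rp 48 (.thr 40 43 (.thr 20 16 (.dbl 0 60 63))) (.rp 31 (.str 23 (.nv (.thr 0 63 (.thr 16 20 (.dbl 32 47 48))) (.nv (.thr 43 40 (.dbl 63 0 3)) (.rp 63 (.thr 16 20 (.thr 33 45 (.thr 48 3 (.dbl 32 0 47)))) (.rp 0 (.thr 33 45 (.thr 43 40 (.dbl 3 48 63))) .nd))))) (.rp 23 (.str 31 (.nv (.thr 0 63 (.thr 20 16 (.dbl 40 43 60))) (.nv (.thr 47 32 (.dbl 63 0 15)) (.rp 63 (.thr 16 20 (.thr 33 45 (.thr 32 47 (.dbl 48 0 3)))) (.rp 0 (.thr 45 33 (.thr 47 32 (.thr 44 46 (.thr 43 40 (.dbl 35 38 39))))) .nd))))) (.rp 0 (.thr 33 45 (.thr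 40 43 (.thr 32 47 (.thr 44 36 (.dbl 35 34 38))))) .nd)))))))) (.rp 23 (.str 31 (.nv (.thr 45 33 (.thr 61 1 (.dbl 29 13 30))) (.nv (.thr 47 32 (.dbl 63 0 15)) (.rp 30 (.str 18 (.nv (.thr 0 63 (.thr 20 16 (.dbl 40 43 60))) (.nv (.thr 47 32 (.dbl 63 0 15)) (.rp 63 (.thr 16 20 (.thr 33 45 (.thr 32 47 (.dbl 48 0 3)))) (.rp 0 (.thr 45 33 (.thr 47 32 (.thr 44 46 (.thr 43 40 (.dbl 35 38 39))))) .nd))))) (.rp 18 (.thr 30 29 (.thr 47 32 (.dbl 63 0 15))) .nd))))) (.rp 20 (.thr 45 33 (.thr 47 32 (.thr 44 46 (.thr 43 40 (.dbl 35 38 39))))) (.rp 18 (.str 30 (.nv (.thr 31 29 (.thr 47 32 (.dbl 63 0 15))) (.nv (.thr 45 33 (.thr 61 1 (.dbl 29 13 31))) (.nv (.thr 16 20 (.thr 0 63 (.dbl 32 47 48))) (.rp 31 (.str 23 (.nv (.thr 16 20 (.thr 0 63 (.dbl 32 47 48))) (.nv (.thr 43 40 (.dbl 63 0 3)) (.rp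 63 (.thr 47 32 (.thr 45 33 (.thr 44 46 (.dbl 60 12 15)))) (.rp 16 (.str 17 (.nv (.thr 1 61 (.dbl 33 45 49)) (.nv (.thr 43 40 (.dbl 63 0 3)) .nd))) (.rp 0 (.thr 47 32 (.thr 45 33 (.thr 44 46 (.dbl 60 12 15)))) .nd)))))) (.rp 16 (.str 17 (.nv (.thr 31 29 (.thr 47 32 (.dbl 63 0 15))) (.nv (.thr 33 45 (.dbl 1 49 61)) (.rp 31 (.str 23 (.nv (.thr 1 61 (.dbl 33 45 49)) (.nv (.thr 43 40 (.dbl 63 0 3)) .nd))) .nd)))) .nd)))))) (.rp 16 (.thr 45 33 (.thr 47 32 (.thr 44 46 (.thr 43 40 (.dbl 35 38 39))))) (.rp 0 (.thr 45 33 (.thr 47 32 (.thr 44 46 (.thr 43 40 (.dbl 35 38 39))))) .nd))))))))))) (.rp 18 (.str 30 (.nv (.thr 0 63 (.thr 32 47 (.thr 40 43 (.thr 20 60 (.dbl 16 28 48))))) (.nv (.thr 32 47 (.thr 33 45 (.thr 35 34 (.thr 40 43 (.dbl 44 36 38))))) (.nv (.thr 0 63 (.thr 5 53 (.thr 15 10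 (.dbl 45 33 60)))) (.rp 28 (.str 19 (.nv (.thr 0 63 (.thr 32 47 (.thr 40 43 (.thr 48 16 (.dbl 36 12 44))))) (.nv (.thr 32 47 (.thr 33 45 (.thr 40 43 (.thr 44 36 (.dbl 35 34 38))))) (.nv (.thr 63 0 (.thr 61 1 (.thr 60 62 (.dbl 45 15 33)))) .nd)))) (.rp 19 (.str 28 (.nv (.thr 31 29 (.thr 47 32 (.dbl 63 0 15))) (.nv (.thr 45 33 (.thr 61 1 (.dbl 29 13 31))) (.nv (.thr 16 20 (.thr 0 63 (.dbl 32 47 48))) (.rp 31 (.str 23 (.nv (.thr 16 20 (.thr 0 63 (.dbl 32 47 48))) (.nv (.thr 43 40 (.dbl 63 0 3)) (.rp 63 (.thr 47 32 (.thr 45 33 (.thr 44 46 (.dbl 60 12 15)))) (.rp 16 (.str 17 (.nv (.thr 1 61 (.dbl 33 45 49)) (.nv (.thr 43 40 (.dbl 63 0 3)) .nd))) (.rp 0 (.thr 47 32 (.thr 45 33 (.thr 44 46 (.dbl 60 12 15)))) .nd)))))) (.rp 16 (.str 17 (.nv (.thr 31 29 (.thr 47 32 (.dbl 63 0 15))) (.nv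 (.thr 33 45 (.dbl 1 49 61)) (.rp 31 (.str 23 (.nv (.thr 1 61 (.dbl 33 45 49)) (.nv (.thr 43 40 (.dbl 63 0 3)) .nd))) .nd)))) .nd)))))) .nd)))))) .nd))))))))) (.rp 24 (.str 27 (.nv (.thr 0 63 (.thr 1 61 (.thr 3 2 (.thr 32 47 (.thr 33 45 (.dbl 48 16 18)))))) (.nv (.thr 0 63 (.thr 1 61 (.thr 3 2 (.thr 5 53 (.thr 15 10 (.thr 11 7 (.dbl 43 40 59))))))) (.nv (.thr 33 45 (.thr 32 47 (.thr 35 34 (.thr 40 43 (.dbl 44 36 38))))) (.rp 30 (.str 18 (.nv (.thr 0 63 (.thr 1 61 (.thr 32 47 (.thr 33 45 (.thr 17 49 (.dbl 34 35 51)))))) (.nv (.thr 0 63 (.thr 32 47 (.thr 48 16 (.dbl 33 3 45)))) (.nv (.thr 0 63 (.thr 1 61 (.thr 3 2 (.dbl 33 45 48)))) (.rp 63 (.thr 33 45 (.thr 32 47 (.thr 35 34 (.thr 40 43 (.dbl 44 36 38))))) (.rp 45 (.thr 53 5 (.thr 63 0 (.thr 48 58 (.thr 3 33 (.dbl 43 23 40)))))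 (.rp 33 (.thr 63 0 (.thr 47 32 (.thr 15 31 (.thr 39 51 (.dbl 43 35 40))))) (.rp 28 (.str 19 (.nv (.thr 16 17 (.thr 32 47 (.dbl 0 48 63))) (.nv (.thr 1 61 (.thr 33 45 (.dbl 17 16 49))) (.nv (.thr 31 23 (.thr 63 0 (.dbl 47 15 32))) (.rp 31 (.str 29 (.nv (.thr 16 17 (.thr 0 63 (.dbl 32 47 48))) (.nv (.thr 45 33 (.dbl 61 1 13)) (.rp 16 (.str 20 (.nv (.thr 45 33 (.dbl 61 1 13)) (.nv (.thr 40 43 (.dbl 0 60 63)) .nd))) .nd)))) (.rp 16 (.str 20 (.nv (.thr 31 23 (.thr 47 32 (.dbl 63 0 15))) (.nv (.thr 32 47 (.thr 33 45 (.thr 3 48 (.dbl 35 34 51)))) (.nv (.thr 40 43 (.dbl 0 60 63)) (.rp 31 (.str 29 (.nv (.thr 45 33 (.dbl 61 1 13)) (.nv (.thr 40 43 (.dbl 0 60 63)) .nd))) .nd))))) .nd)))))) (.rp 19 (.str 28 (.nv (.thr 0 63 (.thr 32 47 (.thr 40 43 (.thr 60 20 (.dbl 44 12 36))))) (.nv (.thr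 0 63 (.thr 1 61 (.thr 3 2 (.dbl 33 45 48)))) (.rp 63 (.thr 45 33 (.thr 47 32 (.thr 44 46 (.thr 43 40 (.dbl 35 38 39))))) (.rp 60 (.thr 32 47 (.thr 0 63 (.thr 48 16 (.dbl 33 3 45)))) (.rp 3 (.thr 45 33 (.thr 47 32 (.thr 44 46 (.thr 43 40 (.dbl 35 38 39))))) (.rp 0 (.thr 45 33 (.thr 47 32 (.thr 44 46 (.thr 43 40 (.dbl 35 38 39))))) .nd))))))) (.rp 0 (.thr 33 45 (.thr 32 47 (.thr 35 34 (.thr 40 43 (.dbl 44 36 38))))) .nd)))))))))) (.rp 28 (.str 19 (.nv (.thr 23 31 (.thr 43 40 (.dbl 63 0 3))) (.nv (.thr 47 32 (.thr 31 23 (.dbl 63 0 15))) (.rp 63 (.thr 33 45 (.thr 32 47 (.thr 35 34 (.thr 40 43 (.dbl 44 36 38))))) (.rp 31 (.thr 33 45 (.thr 32 47 (.thr 35 34 (.thr 40 43 (.dbl 44 36 38))))) (.rp 30 (.str 18 (.nv (.thr 16 17 (.thr 32 47 (.dbl 0 48 63))) (.nv (.thr 1 61 (.thr 33 45 (.dbl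 17 16 49))) (.nv (.thr 31 23 (.thr 63 0 (.dbl 47 15 32))) (.rp 31 (.str 29 (.nv (.thr 16 17 (.thr 0 63 (.dbl 32 47 48))) (.nv (.thr 45 33 (.dbl 61 1 13)) (.rp 16 (.str 20 (.nv (.thr 45 33 (.dbl 61 1 13)) (.nv (.thr 40 43 (.dbl 0 60 63)) .nd))) .nd)))) (.rp 16 (.str 20 (.nv (.thr 31 23 (.thr 47 32 (.dbl 63 0 15))) (.nv (.thr 32 47 (.thr 33 45 (.thr 3 48 (.dbl 35 34 51)))) (.nv (.thr 40 43 (.dbl 0 60 63)) (.rp 31 (.str 29 (.nv (.thr 45 33 (.dbl 61 1 13)) (.nv (.thr 40 43 (.dbl 0 60 63)) .nd))) .nd))))) .nd)))))) (.rp 23 (.thr 33 45 (.thr 32 47 (.thr 35 34 (.thr 40 43 (.dbl 44 36 38))))) (.rp 20 (.str 16 (.nv (.thr 1 61 (.thr 33 45 (.dbl 17 18 49))) (.nv (.thr 32 47 (.dbl 0 48 63)) (.rp 30 (.thr 18 17 (.thr 32 47 (.dbl 0 48 63))) (.rp 18 (.str 30 (.nv (.thr 23 31 (.thr 43 40 (.dbl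 63 0 3))) (.nv (.thr 32 47 (.dbl 0 48 63)) (.rp 63 (.thr 33 45 (.thr 32 47 (.thr 35 34 (.thr 40 43 (.dbl 44 36 38))))) (.rp 0 (.thr 31 23 (.thr 45 33 (.thr 47 32 (.dbl 15 60 63)))) .nd))))) .nd))))) (.rp 18 (.str 30 (.nv (.thr 0 63 (.thr 5 53 (.thr 15 10 (.dbl 45 33 60)))) (.nv (.thr 47 32 (.thr 31 23 (.dbl 63 0 15))) (.rp 63 (.thr 45 33 (.thr 43 40 (.thr 47 32 (.thr 35 39 (.dbl 44 38 46))))) (.rp 20 (.str 16 (.nv (.thr 23 31 (.thr 43 40 (.dbl 63 0 3))) (.nv (.thr 32 47 (.dbl 0 48 63)) (.rp 63 (.thr 33 45 (.thr 32 47 (.thr 35 34 (.thr 40 43 (.dbl 44 36 38))))) (.rp 0 (.thr 31 23 (.thr 45 33 (.thr 47 32 (.dbl 15 60 63)))) .nd))))) (.rp 16 (.str 20 (.nv (.thr 31 23 (.thr 47 32 (.dbl 63 0 15))) (.nv (.thr 40 43 (.dbl 0 60 63)) (.rp 63 (.thr 45 33 (.thr 40 43 (.dbl 60 0 15))) (.rp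 0 (.thr 31 23 (.thr 45 33 (.thr 15 60 (.dbl 47 32 63)))) .nd))))) (.rp 15 (.thr 43 40 (.thr 23 31 (.dbl 63 0 3))) (.rp 0 (.thr 45 33 (.thr 47 32 (.thr 31 23 (.dbl 15 60 63)))) .nd)))))))) (.rp 16 (.str 20 (.nv (.thr 31 23 (.thr 47 32 (.dbl 63 0 15))) (.nv (.thr 40 43 (.dbl 0 60 63)) (.rp 63 (.thr 43 40 (.thr 47 32 (.thr 35 39 (.thr 45 33 (.dbl 44 38 46))))) (.rp 30 (.str 18 (.nv (.thr 31 23 (.thr 47 32 (.dbl 63 0 15))) (.nv (.thr 32 47 (.thr 33 45 (.thr 3 48 (.dbl 35 34 51)))) (.nv (.thr 40 43 (.dbl 0 60 63)) (.rp 31 (.str 29 (.nv (.thr 45 33 (.dbl 61 1 13)) (.nv (.thr 40 43 (.dbl 0 60 63)) .nd))) .nd))))) (.rp 18 (.str 30 (.nv (.thr 31 23 (.thr 47 32 (.dbl 63 0 15))) (.nv (.thr 40 43 (.dbl 0 60 63)) (.rp 63 (.thr 45 33 (.thr 40 43 (.dbl 60 0 15))) (.rp 0 (.thr 31 23 (.thr 45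 33 (.thr 15 60 (.dbl 47 32 63)))) .nd))))) (.rp 0 (.thr 43 40 (.thr 23 31 (.thr 3 63 (.thr 35 51 (.dbl 47 32 39))))) .nd))))))) (.rp 0 (.thr 23 31 (.thr 47 32 (.thr 43 40 (.thr 35 39 (.dbl 3 51 63))))) .nd))))))))))) (.rp 19 (.str 28 (.nv (.thr 45 33 (.thr 61 1 (.thr 63 0 (.thr 60 62 (.thr 12 44 (.dbl 29 13 46)))))) (.nv (.thr 0 63 (.thr 1 61 (.thr 3 2 (.thr 5 53 (.thr 15 10 (.thr 11 7 (.dbl 43 40 59))))))) (.nv (.thr 40 43 (.thr 33 45 (.thr 32 47 (.thr 35 34 (.dbl 44 36 38))))) (.rp 30 (.str 18 (.nv (.thr 0 63 (.thr 32 47 (.thr 40 43 (.thr 60 20 (.dbl 44 12 36))))) (.nv (.thr 0 63 (.thr 1 61 (.thr 3 2 (.dbl 33 45 48)))) (.rp 63 (.thr 45 33 (.thr 47 32 (.thr 44 46 (.thr 43 40 (.dbl 35 38 39))))) (.rp 60 (.thr 32 47 (.thr 0 63 (.thr 48 16 (.dbl 33 3 45)))) (.rp 3 (.thr 45 33 (.thr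 47 32 (.thr 44 46 (.thr 43 40 (.dbl 35 38 39))))) (.rp 0 (.thr 45 33 (.thr 47 32 (.thr 44 46 (.thr 43 40 (.dbl 35 38 39))))) .nd))))))) (.rp 18 (.str 30 (.nv (.thr 0 63 (.thr 5 53 (.thr 15 10 (.thr 40 43 (.dbl 60 20 45))))) (.nv (.thr 29 31 (.thr 61 1 (.dbl 45 13 33))) (.rp 45 (.thr 31 29 (.thr 63 0 (.dbl 47 15 32))) (.rp 17 (.str 16 (.nv (.thr 29 31 (.thr 61 1 (.dbl 45 13 33))) (.nv (.thr 32 47 (.dbl 0 48 63)) .nd))) (.rp 16 (.str 17 (.nv (.thr 31 29 (.thr 47 32 (.dbl 63 0 15))) (.nv (.thr 33 45 (.dbl 1 49 61)) .nd))) .nd)))))) .nd)))))) (.rp 18 (.str 30 (.nv (.thr 0 63 (.thr 5 53 (.thr 15 10 (.thr 39 51 (.thr 43 40 (.dbl 47 32 35)))))) (.nv (.thr 0 63 (.thr 5 53 (.thr 15 10 (.dbl 45 33 60)))) (.nv (.thr 32 47 (.thr 33 45 (.thr 35 34 (.thr 40 43 (.dbl 44 36 38))))) (.nv (.thr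 45 33 (.thr 60 15 (.thr 40 43 (.dbl 0 20 63)))) (.rp 28 (.str 19 (.nv (.thr 0 63 (.thr 5 53 (.thr 15 10 (.dbl 45 33 60)))) (.nv (.thr 47 32 (.thr 31 23 (.dbl 63 0 15))) (.rp 63 (.thr 45 33 (.thr 43 40 (.thr 47 32 (.thr 35 39 (.dbl 44 38 46))))) (.rp 20 (.str 16 (.nv (.thr 23 31 (.thr 43 40 (.dbl 63 0 3))) (.nv (.thr 32 47 (.dbl 0 48 63)) (.rp 63 (.thr 33 45 (.thr 32 47 (.thr 35 34 (.thr 40 43 (.dbl 44 36 38))))) (.rp 0 (.thr 31 23 (.thr 45 33 (.thr 47 32 (.dbl 15 60 63)))) .nd))))) (.rp 16 (.str 20 (.nv (.thr 31 23 (.thr 47 32 (.dbl 63 0 15))) (.nv (.thr 40 43 (.dbl 0 60 63)) (.rp 63 (.thr 45 33 (.thr 40 43 (.dbl 60 0 15))) (.rp 0 (.thr 31 23 (.thr 45 33 (.thr 15 60 (.dbl 47 32 63)))) .nd))))) (.rp 15 (.thr 43 40 (.thr 23 31 (.dbl 63 0 3))) (.rp 0 (.thr 45 33 (.thr 47 32 (.thr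 31 23 (.dbl 15 60 63)))) .nd)))))))) (.rp 19 (.str 28 (.nv (.thr 0 63 (.thr 5 53 (.thr 15 10 (.thr 40 43 (.dbl 60 20 45))))) (.nv (.thr 29 31 (.thr 61 1 (.dbl 45 13 33))) (.rp 45 (.thr 31 29 (.thr 63 0 (.dbl 47 15 32))) (.rp 17 (.str 16 (.nv (.thr 29 31 (.thr 61 1 (.dbl 45 13 33))) (.nv (.thr 32 47 (.dbl 0 48 63)) .nd))) (.rp 16 (.str 17 (.nv (.thr 31 29 (.thr 47 32 (.dbl 63 0 15))) (.nv (.thr 33 45 (.dbl 1 49 61)) .nd))) .nd)))))) .nd))))))) .nd)))))))) (.rp 19 (.str 28 (.nv (.thr 0 63 (.thr 40 43 (.thr 60 20 (.thr 44 12 (.thr 36 32 (.dbl 38 35 39)))))) (.nv (.thr 0 63 (.thr 1 61 (.thr 3 2 (.thr 32 47 (.thr 48 16 (.dbl 33 18 45)))))) (.nv (.thr 45 33 (.thr 47 32 (.thr 44 46 (.thr 43 40 (.dbl 35 38 39))))) (.rp 32 (.thr 45 33 (.thr 5 53 (.thr 0 63 (.thr 40 43 (.thr 60 20 (.dbl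 15 10 30)))))) (.rp 30 (.str 18 (.nv (.thr 0 63 (.thr 40 43 (.thr 60 20 (.thr 44 12 (.dbl 32 36 47))))) (.nv (.thr 53 5 (.thr 63 0 (.thr 48 58 (.dbl 33 3 45)))) (.rp 63 (.thr 33 45 (.thr 40 43 (.thr 32 47 (.thr 44 36 (.dbl 35 34 38))))) (.rp 27 (.str 24 (.nv (.thr 0 63 (.thr 1 61 (.thr 3 2 (.dbl 33 45 48)))) (.nv (.thr 32 47 (.thr 16 20 (.dbl 0 48 63))) (.rp 63 (.thr 33 45 (.thr 32 47 (.thr 16 20 (.dbl 48 0 3)))) (.rp 48 (.thr 40 43 (.thr 20 16 (.dbl 0 60 63))) (.rp 31 (.str 23 (.nv (.thr 0 63 (.thr 16 20 (.dbl 32 47 48))) (.nv (.thr 43 40 (.dbl 63 0 3)) (.rp 63 (.thr 16 20 (.thr 33 45 (.thr 48 3 (.dbl 32 0 47)))) (.rp 0 (.thr 33 45 (.thr 43 40 (.dbl 3 48 63))) .nd))))) (.rp 23 (.str 31 (.nv (.thr 0 63 (.thr 20 16 (.dbl 40 43 60))) (.nv (.thr 47 32 (.dbl 63 0 15)) (.rp 63 (.thr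 16 20 (.thr 33 45 (.thr 32 47 (.dbl 48 0 3)))) (.rp 0 (.thr 45 33 (.thr 47 32 (.thr 44 46 (.thr 43 40 (.dbl 35 38 39))))) .nd))))) (.rp 0 (.thr 33 45 (.thr 40 43 (.thr 32 47 (.thr 44 36 (.dbl 35 34 38))))) .nd)))))))) (.rp 24 (.str 27 (.nv (.thr 0 63 (.thr 32 47 (.thr 40 43 (.thr 60 20 (.dbl 44 12 36))))) (.nv (.thr 0 63 (.thr 1 61 (.thr 3 2 (.dbl 33 45 48)))) (.rp 63 (.thr 45 33 (.thr 47 32 (.thr 44 46 (.thr 43 40 (.dbl 35 38 39))))) (.rp 60 (.thr 32 47 (.thr 0 63 (.thr 48 16 (.dbl 33 3 45)))) (.rp 3 (.thr 45 33 (.thr 47 32 (.thr 44 46 (.thr 43 40 (.dbl 35 38 39))))) (.rp 0 (.thr 45 33 (.thr 47 32 (.thr 44 46 (.thr 43 40 (.dbl 35 38 39))))) .nd))))))) (.rp 3 (.thr 33 45 (.thr 40 43 (.thr 32 47 (.thr 44 36 (.dbl 35 34 38))))) (.rp 0 (.thr 33 45 (.thr 40 43 (.thr 32 47 (.thr 44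 36 (.dbl 35 34 38))))) .nd)))))))) (.rp 27 (.str 24 (.nv (.thr 0 63 (.thr 20 16 (.dbl 40 43 60))) (.nv (.thr 32 47 (.thr 16 20 (.dbl 0 48 63))) (.rp 63 (.thr 20 16 (.thr 32 47 (.thr 40 43 (.thr 44 36 (.dbl 60 0 12))))) (.rp 31 (.str 23 (.nv (.thr 0 63 (.thr 16 20 (.dbl 32 47 48))) (.nv (.thr 43 40 (.dbl 63 0 3)) (.rp 63 (.thr 40 43 (.thr 20 16 (.thr 60 0 (.thr 44 12 (.dbl 32 36 47))))) (.rp 30 (.str 18 (.nv (.thr 0 63 (.thr 16 20 (.dbl 32 47 48))) (.nv (.thr 43 40 (.dbl 63 0 3)) (.rp 63 (.thr 16 20 (.thr 33 45 (.thr 48 3 (.dbl 32 0 47)))) (.rp 0 (.thr 33 45 (.thr 43 40 (.dbl 3 48 63))) .nd))))) (.rp 18 (.str 30 (.nv (.thr 16 20 (.thr 0 63 (.dbl 32 47 48))) (.nv (.thr 43 40 (.dbl 63 0 3)) (.rp 63 (.thr 47 32 (.thr 45 33 (.thr 44 46 (.dbl 60 12 15)))) (.rp 16 (.str 17 (.nv (.thr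 1 61 (.dbl 33 45 49)) (.nv (.thr 43 40 (.dbl 63 0 3)) .nd))) (.rp 0 (.thr 47 32 (.thr 45 33 (.thr 44 46 (.dbl 60 12 15)))) .nd)))))) (.rp 0 (.thr 40 43 (.thr 32 47 (.thr 44 36 (.thr 33 45 (.dbl 35 34 38))))) .nd))))))) (.rp 30 (.str 18 (.nv (.thr 0 63 (.thr 1 61 (.thr 3 2 (.dbl 33 45 48)))) (.nv (.thr 32 47 (.thr 16 20 (.dbl 0 48 63))) (.rp 63 (.thr 33 45 (.thr 32 47 (.thr 16 20 (.dbl 48 0 3)))) (.rp 48 (.thr 40 43 (.thr 20 16 (.dbl 0 60 63))) (.rp 31 (.str 23 (.nv (.thr 0 63 (.thr 16 20 (.dbl 32 47 48))) (.nv (.thr 43 40 (.dbl 63 0 3)) (.rp 63 (.thr 16 20 (.thr 33 45 (.thr 48 3 (.dbl 32 0 47)))) (.rp 0 (.thr 33 45 (.thr 43 40 (.dbl 3 48 63))) .nd))))) (.rp 23 (.str 31 (.nv (.thr 0 63 (.thr 20 16 (.dbl 40 43 60))) (.nv (.thr 47 32 (.dbl 63 0 15)) (.rp 63 (.thr 16 20 (.thr 33 45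 (.thr 32 47 (.dbl 48 0 3)))) (.rp 0 (.thr 45 33 (.thr 47 32 (.thr 44 46 (.thr 43 40 (.dbl 35 38 39))))) .nd))))) (.rp 0 (.thr 33 45 (.thr 40 43 (.thr 32 47 (.thr 44 36 (.dbl 35 34 38))))) .nd)))))))) (.rp 23 (.str 31 (.nv (.thr 45 33 (.thr 61 1 (.dbl 29 13 30))) (.nv (.thr 47 32 (.dbl 63 0 15)) (.rp 30 (.str 18 (.nv (.thr 0 63 (.thr 20 16 (.dbl 40 43 60))) (.nv (.thr 47 32 (.dbl 63 0 15)) (.rp 63 (.thr 16 20 (.thr 33 45 (.thr 32 47 (.dbl 48 0 3)))) (.rp 0 (.thr 45 33 (.thr 47 32 (.thr 44 46 (.thr 43 40 (.dbl 35 38 39))))) .nd))))) (.rp 18 (.thr 30 29 (.thr 47 32 (.dbl 63 0 15))) .nd))))) (.rp 20 (.thr 45 33 (.thr 47 32 (.thr 44 46 (.thr 43 40 (.dbl 35 38 39))))) (.rp 18 (.str 30 (.nv (.thr 31 29 (.thr 47 32 (.dbl 63 0 15))) (.nv (.thr 45 33 (.thr 61 1 (.dbl 29 13 31))) (.nv (.thr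 16 20 (.thr 0 63 (.dbl 32 47 48))) (.rp 31 (.str 23 (.nv (.thr 16 20 (.thr 0 63 (.dbl 32 47 48))) (.nv (.thr 43 40 (.dbl 63 0 3)) (.rp 63 (.thr 47 32 (.thr 45 33 (.thr 44 46 (.dbl 60 12 15)))) (.rp 16 (.str 17 (.nv (.thr 1 61 (.dbl 33 45 49)) (.nv (.thr 43 40 (.dbl 63 0 3)) .nd))) (.rp 0 (.thr 47 32 (.thr 45 33 (.thr 44 46 (.dbl 60 12 15)))) .nd)))))) (.rp 16 (.str 17 (.nv (.thr 31 29 (.thr 47 32 (.dbl 63 0 15))) (.nv (.thr 33 45 (.dbl 1 49 61)) (.rp 31 (.str 23 (.nv (.thr 1 61 (.dbl 33 45 49)) (.nv (.thr 43 40 (.dbl 63 0 3)) .nd))) .nd)))) .nd)))))) (.rp 16 (.thr 45 33 (.thr 47 32 (.thr 44 46 (.thr 43 40 (.dbl 35 38 39))))) (.rp 0 (.thr 45 33 (.thr 47 32 (.thr 44 46 (.thr 43 40 (.dbl 35 38 39))))) .nd))))))))))) (.rp 24 (.str 27 (.nv (.thr 45 33 (.thr 61 1 (.thr 63 0 (.thr 60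 62 (.thr 12 44 (.dbl 29 13 46)))))) (.nv (.thr 0 63 (.thr 1 61 (.thr 3 2 (.thr 5 53 (.thr 15 10 (.thr 11 7 (.dbl 43 40 59))))))) (.nv (.thr 40 43 (.thr 33 45 (.thr 32 47 (.thr 35 34 (.dbl 44 36 38))))) (.rp 30 (.str 18 (.nv (.thr 0 63 (.thr 32 47 (.thr 40 43 (.thr 60 20 (.dbl 44 12 36))))) (.nv (.thr 0 63 (.thr 1 61 (.thr 3 2 (.dbl 33 45 48)))) (.rp 63 (.thr 45 33 (.thr 47 32 (.thr 44 46 (.thr 43 40 (.dbl 35 38 39))))) (.rp 60 (.thr 32 47 (.thr 0 63 (.thr 48 16 (.dbl 33 3 45)))) (.rp 3 (.thr 45 33 (.thr 47 32 (.thr 44 46 (.thr 43 40 (.dbl 35 38 39))))) (.rp 0 (.thr 45 33 (.thr 47 32 (.thr 44 46 (.thr 43 40 (.dbl 35 38 39))))) .nd))))))) (.rp 18 (.str 30 (.nv (.thr 0 63 (.thr 5 53 (.thr 15 10 (.thr 40 43 (.dbl 60 20 45))))) (.nv (.thr 29 31 (.thr 61 1 (.dbl 45 13 33))) (.rp 45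 (.thr 31 29 (.thr 63 0 (.dbl 47 15 32))) (.rp 17 (.str 16 (.nv (.thr 29 31 (.thr 61 1 (.dbl 45 13 33))) (.nv (.thr 32 47 (.dbl 0 48 63)) .nd))) (.rp 16 (.str 17 (.nv (.thr 31 29 (.thr 47 32 (.dbl 63 0 15))) (.nv (.thr 33 45 (.dbl 1 49 61)) .nd))) .nd)))))) .nd)))))) (.rp 18 (.str 30 (.nv (.thr 0 63 (.thr 5 53 (.thr 15 10 (.dbl 45 33 60)))) (.nv (.thr 61 1 (.thr 29 31 (.dbl 45 13 33))) (.nv (.thr 31 29 (.thr 47 32 (.dbl 63 0 15))) (.rp 27 (.str 24 (.nv (.thr 31 29 (.thr 47 32 (.dbl 63 0 15))) (.nv (.thr 45 33 (.thr 61 1 (.dbl 29 13 31))) (.nv (.thr 16 20 (.thr 0 63 (.dbl 32 47 48))) (.rp 31 (.str 23 (.nv (.thr 16 20 (.thr 0 63 (.dbl 32 47 48))) (.nv (.thr 43 40 (.dbl 63 0 3)) (.rp 63 (.thr 47 32 (.thr 45 33 (.thr 44 46 (.dbl 60 12 15)))) (.rp 16 (.str 17 (.nv (.thr 1 61 (.dbl 33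 45 49)) (.nv (.thr 43 40 (.dbl 63 0 3)) .nd))) (.rp 0 (.thr 47 32 (.thr 45 33 (.thr 44 46 (.dbl 60 12 15)))) .nd)))))) (.rp 16 (.str 17 (.nv (.thr 31 29 (.thr 47 32 (.dbl 63 0 15))) (.nv (.thr 33 45 (.dbl 1 49 61)) (.rp 31 (.str 23 (.nv (.thr 1 61 (.dbl 33 45 49)) (.nv (.thr 43 40 (.dbl 63 0 3)) .nd))) .nd)))) .nd)))))) (.rp 24 (.str 27 (.nv (.thr 0 63 (.thr 5 53 (.thr 15 10 (.thr 40 43 (.dbl 60 20 45))))) (.nv (.thr 29 31 (.thr 61 1 (.dbl 45 13 33))) (.rp 45 (.thr 31 29 (.thr 63 0 (.dbl 47 15 32))) (.rp 17 (.str 16 (.nv (.thr 29 31 (.thr 61 1 (.dbl 45 13 33))) (.nv (.thr 32 47 (.dbl 0 48 63)) .nd))) (.rp 16 (.str 17 (.nv (.thr 31 29 (.thr 47 32 (.dbl 63 0 15))) (.nv (.thr 33 45 (.dbl 1 49 61)) .nd))) .nd)))))) (.rp 17 (.str 16 (.nv (.thr 29 31 (.thr 61 1 (.dbl 45 13 33))) (.nv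 (.thr 0 63 (.dbl 32 47 48)) (.rp 27 (.thr 24 20 (.thr 0 63 (.dbl 32 47 48))) (.rp 24 (.str 27 (.nv (.thr 29 31 (.thr 61 1 (.dbl 45 13 33))) (.nv (.thr 32 47 (.dbl 0 48 63)) .nd))) .nd))))) (.rp 16 (.str 17 (.nv (.thr 31 29 (.thr 47 32 (.dbl 63 0 15))) (.nv (.thr 33 45 (.dbl 1 49 61)) (.rp 27 (.str 24 (.nv (.thr 31 29 (.thr 47 32 (.dbl 63 0 15))) (.nv (.thr 33 45 (.dbl 1 49 61)) (.rp 31 (.str 23 (.nv (.thr 1 61 (.dbl 33 45 49)) (.nv (.thr 43 40 (.dbl 63 0 3)) .nd))) .nd)))) (.rp 24 (.str 27 (.nv (.thr 31 29 (.thr 47 32 (.dbl 63 0 15))) (.nv (.thr 33 45 (.dbl 1 49 61)) .nd))) .nd))))) .nd)))))))) .nd))))))))) (.rp 18 (.str 30 (.nv (.thr 0 63 (.thr 5 53 (.thr 15 10 (.dbl 45 33 60)))) (.nv (.thr 32 47 (.thr 33 45 (.thr 35 34 (.thr 40 43 (.dbl 44 36 38))))) (.nv (.thr 40 43 (.thr 0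 63 (.thr 60 20 (.dbl 45 15 33)))) (.rp 45 (.thr 61 1 (.thr 63 0 (.thr 62 60 (.thr 46 14 (.thr 29 12 (.thr 47 32 (.dbl 31 15 28))))))) (.rp 33 (.thr 5 53 (.thr 0 63 (.thr 15 10 (.thr 60 45 (.dbl 40 20 43))))) (.rp 28 (.str 19 (.nv (.thr 0 63 (.thr 1 61 (.thr 3 2 (.thr 35 51 (.thr 43 40 (.dbl 47 32 39)))))) (.nv (.thr 32 47 (.thr 33 45 (.thr 35 34 (.thr 40 43 (.dbl 44 36 38))))) (.nv (.thr 5 53 (.thr 0 63 (.thr 15 10 (.dbl 45 33 60)))) (.rp 27 (.str 24 (.nv (.thr 0 63 (.thr 32 47 (.thr 40 43 (.thr 48 16 (.dbl 36 12 44))))) (.nv (.thr 32 47 (.thr 33 45 (.thr 40 43 (.thr 44 36 (.dbl 35 34 38))))) (.nv (.thr 63 0 (.thr 61 1 (.thr 60 62 (.dbl 45 15 33)))) .nd)))) (.rp 24 (.str 27 (.nv (.thr 0 63 (.thr 5 53 (.thr 15 10 (.dbl 45 33 60)))) (.nv (.thr 47 32 (.thr 31 23 (.dbl 63 0 15)))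 (.rp 63 (.thr 45 33 (.thr 43 40 (.thr 47 32 (.thr 35 39 (.dbl 44 38 46))))) (.rp 20 (.str 16 (.nv (.thr 23 31 (.thr 43 40 (.dbl 63 0 3))) (.nv (.thr 32 47 (.dbl 0 48 63)) (.rp 63 (.thr 33 45 (.thr 32 47 (.thr 35 34 (.thr 40 43 (.dbl 44 36 38))))) (.rp 0 (.thr 31 23 (.thr 45 33 (.thr 47 32 (.dbl 15 60 63)))) .nd))))) (.rp 16 (.str 20 (.nv (.thr 31 23 (.thr 47 32 (.dbl 63 0 15))) (.nv (.thr 40 43 (.dbl 0 60 63)) (.rp 63 (.thr 45 33 (.thr 40 43 (.dbl 60 0 15))) (.rp 0 (.thr 31 23 (.thr 45 33 (.thr 15 60 (.dbl 47 32 63)))) .nd))))) (.rp 15 (.thr 43 40 (.thr 23 31 (.dbl 63 0 3))) (.rp 0 (.thr 45 33 (.thr 47 32 (.thr 31 23 (.dbl 15 60 63)))) .nd)))))))) .nd)))))) (.rp 27 (.str 24 (.nv (.thr 0 63 (.thr 32 47 (.thr 40 43 (.thr 20 60 (.dbl 16 28 48))))) (.nv (.thr 32 47 (.thr 33 45 (.thr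 35 34 (.thr 40 43 (.dbl 44 36 38))))) (.nv (.thr 0 63 (.thr 5 53 (.thr 15 10 (.dbl 45 33 60)))) (.rp 28 (.str 19 (.nv (.thr 0 63 (.thr 32 47 (.thr 40 43 (.thr 48 16 (.dbl 36 12 44))))) (.nv (.thr 32 47 (.thr 33 45 (.thr 40 43 (.thr 44 36 (.dbl 35 34 38))))) (.nv (.thr 63 0 (.thr 61 1 (.thr 60 62 (.dbl 45 15 33)))) .nd)))) (.rp 19 (.str 28 (.nv (.thr 31 29 (.thr 47 32 (.dbl 63 0 15))) (.nv (.thr 45 33 (.thr 61 1 (.dbl 29 13 31))) (.nv (.thr 16 20 (.thr 0 63 (.dbl 32 47 48))) (.rp 31 (.str 23 (.nv (.thr 16 20 (.thr 0 63 (.dbl 32 47 48))) (.nv (.thr 43 40 (.dbl 63 0 3)) (.rp 63 (.thr 47 32 (.thr 45 33 (.thr 44 46 (.dbl 60 12 15)))) (.rp 16 (.str 17 (.nv (.thr 1 61 (.dbl 33 45 49)) (.nv (.thr 43 40 (.dbl 63 0 3)) .nd))) (.rp 0 (.thr 47 32 (.thr 45 33 (.thr 44 46 (.dbl 60 12 15))))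 .nd)))))) (.rp 16 (.str 17 (.nv (.thr 31 29 (.thr 47 32 (.dbl 63 0 15))) (.nv (.thr 33 45 (.dbl 1 49 61)) (.rp 31 (.str 23 (.nv (.thr 1 61 (.dbl 33 45 49)) (.nv (.thr 43 40 (.dbl 63 0 3)) .nd))) .nd)))) .nd)))))) .nd)))))) (.rp 24 (.str 27 (.nv (.thr 0 63 (.thr 5 53 (.thr 15 10 (.thr 39 51 (.thr 43 40 (.dbl 47 32 35)))))) (.nv (.thr 0 63 (.thr 5 53 (.thr 15 10 (.dbl 45 33 60)))) (.nv (.thr 32 47 (.thr 33 45 (.thr 35 34 (.thr 40 43 (.dbl 44 36 38))))) (.nv (.thr 45 33 (.thr 60 15 (.thr 40 43 (.dbl 0 20 63)))) (.rp 28 (.str 19 (.nv (.thr 0 63 (.thr 5 53 (.thr 15 10 (.dbl 45 33 60)))) (.nv (.thr 47 32 (.thr 31 23 (.dbl 63 0 15))) (.rp 63 (.thr 45 33 (.thr 43 40 (.thr 47 32 (.thr 35 39 (.dbl 44 38 46))))) (.rp 20 (.str 16 (.nv (.thr 23 31 (.thr 43 40 (.dbl 63 0 3))) (.nv (.thr 32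 47 (.dbl 0 48 63)) (.rp 63 (.thr 33 45 (.thr 32 47 (.thr 35 34 (.thr 40 43 (.dbl 44 36 38))))) (.rp 0 (.thr 31 23 (.thr 45 33 (.thr 47 32 (.dbl 15 60 63)))) .nd))))) (.rp 16 (.str 20 (.nv (.thr 31 23 (.thr 47 32 (.dbl 63 0 15))) (.nv (.thr 40 43 (.dbl 0 60 63)) (.rp 63 (.thr 45 33 (.thr 40 43 (.dbl 60 0 15))) (.rp 0 (.thr 31 23 (.thr 45 33 (.thr 15 60 (.dbl 47 32 63)))) .nd))))) (.rp 15 (.thr 43 40 (.thr 23 31 (.dbl 63 0 3))) (.rp 0 (.thr 45 33 (.thr 47 32 (.thr 31 23 (.dbl 15 60 63)))) .nd)))))))) (.rp 19 (.str 28 (.nv (.thr 0 63 (.thr 5 53 (.thr 15 10 (.thr 40 43 (.dbl 60 20 45))))) (.nv (.thr 29 31 (.thr 61 1 (.dbl 45 13 33))) (.rp 45 (.thr 31 29 (.thr 63 0 (.dbl 47 15 32))) (.rp 17 (.str 16 (.nv (.thr 29 31 (.thr 61 1 (.dbl 45 13 33))) (.nv (.thr 32 47 (.dbl 0 48 63)) .nd)))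 (.rp 16 (.str 17 (.nv (.thr 31 29 (.thr 47 32 (.dbl 63 0 15))) (.nv (.thr 33 45 (.dbl 1 49 61)) .nd))) .nd)))))) .nd))))))) (.rp 19 (.str 28 (.nv (.thr 0 63 (.thr 5 53 (.thr 15 10 (.dbl 45 33 60)))) (.nv (.thr 61 1 (.thr 29 31 (.dbl 45 13 33))) (.nv (.thr 31 29 (.thr 47 32 (.dbl 63 0 15))) (.rp 27 (.str 24 (.nv (.thr 31 29 (.thr 47 32 (.dbl 63 0 15))) (.nv (.thr 45 33 (.thr 61 1 (.dbl 29 13 31))) (.nv (.thr 16 20 (.thr 0 63 (.dbl 32 47 48))) (.rp 31 (.str 23 (.nv (.thr 16 20 (.thr 0 63 (.dbl 32 47 48))) (.nv (.thr 43 40 (.dbl 63 0 3)) (.rp 63 (.thr 47 32 (.thr 45 33 (.thr 44 46 (.dbl 60 12 15)))) (.rp 16 (.str 17 (.nv (.thr 1 61 (.dbl 33 45 49)) (.nv (.thr 43 40 (.dbl 63 0 3)) .nd))) (.rp 0 (.thr 47 32 (.thr 45 33 (.thr 44 46 (.dbl 60 12 15)))) .nd)))))) (.rp 16 (.str 17 (.nv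 (.thr 31 29 (.thr 47 32 (.dbl 63 0 15))) (.nv (.thr 33 45 (.dbl 1 49 61)) (.rp 31 (.str 23 (.nv (.thr 1 61 (.dbl 33 45 49)) (.nv (.thr 43 40 (.dbl 63 0 3)) .nd))) .nd)))) .nd)))))) (.rp 24 (.str 27 (.nv (.thr 0 63 (.thr 5 53 (.thr 15 10 (.thr 40 43 (.dbl 60 20 45))))) (.nv (.thr 29 31 (.thr 61 1 (.dbl 45 13 33))) (.rp 45 (.thr 31 29 (.thr 63 0 (.dbl 47 15 32))) (.rp 17 (.str 16 (.nv (.thr 29 31 (.thr 61 1 (.dbl 45 13 33))) (.nv (.thr 32 47 (.dbl 0 48 63)) .nd))) (.rp 16 (.str 17 (.nv (.thr 31 29 (.thr 47 32 (.dbl 63 0 15))) (.nv (.thr 33 45 (.dbl 1 49 61)) .nd))) .nd)))))) (.rp 17 (.str 16 (.nv (.thr 29 31 (.thr 61 1 (.dbl 45 13 33))) (.nv (.thr 0 63 (.dbl 32 47 48)) (.rp 27 (.thr 24 20 (.thr 0 63 (.dbl 32 47 48))) (.rp 24 (.str 27 (.nv (.thr 29 31 (.thr 61 1 (.dbl 45 13 33)))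 (.nv (.thr 32 47 (.dbl 0 48 63)) .nd))) .nd))))) (.rp 16 (.str 17 (.nv (.thr 31 29 (.thr 47 32 (.dbl 63 0 15))) (.nv (.thr 33 45 (.dbl 1 49 61)) (.rp 27 (.str 24 (.nv (.thr 31 29 (.thr 47 32 (.dbl 63 0 15))) (.nv (.thr 33 45 (.dbl 1 49 61)) (.rp 31 (.str 23 (.nv (.thr 1 61 (.dbl 33 45 49)) (.nv (.thr 43 40 (.dbl 63 0 3)) .nd))) .nd)))) (.rp 24 (.str 27 (.nv (.thr 31 29 (.thr 47 32 (.dbl 63 0 15))) (.nv (.thr 33 45 (.dbl 1 49 61)) .nd))) .nd))))) .nd)))))))) .nd)))))))))) .nd))))))))))))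

theorem w518 : WinAt (2336464306176, 104857600) :=
  chF (K := []) kn c518 2336464306176 104857600 25
    [251658240, 306708480, 1145307136] (by decide +kernel) (by decide +kernel)

/-- A certificate. -/
noncomputable def c519 : Ct := (.str 41 (.nv (.thr 53 5 (.thr 45 33 (.thr 61 1 (.thr 13 29 (.dbl 49 25 57))))) (.rp 61 (.thr 53 5 (.str 42 (.nv (.thr 33 45 (.thr 43 40 (.thr 63 0 (.thr 3 23 (.dbl 48 18 58))))) (.nv (.thr 43 40 (.thr 45 33 (.thr 47 32 (.thr 35 39 (.dbl 44 38 46))))) (.rp 45 (.thr 43 40 (.thr 47 32 (.thr 39 35 (.thr 63 0 (.thr 23 3 (.thr 55 7 (.dbl 38 4 36))))))) (.rp 43 (.thr 45 33 (.thr 47 32 (.thr 46 44 (.thr 63 0 (.thr 48 58 (.thr 12 29 (.thr 36 24 (.dbl 38 34 39)))))))) (.rp 40 (.thr 33 45 (.thr 32 47 (.thr 34 35 (.thr 0 63 (.thr 17 51 (.thr 49 1 (.dbl 25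 13 29))))))) (.rp 33 (.thr 40 43 (.thr 32 47 (.thr 36 44 (.thr 63 0 (.thr 48 58 (.thr 12 24 (.thr 46 29 (.dbl 38 34 39)))))))) (.rp 30 (.str 18 (.nv (.thr 32 47 (.thr 40 43 (.thr 44 36 (.thr 35 38 (.dbl 33 34 45))))) (.nv (.thr 63 0 (.thr 48 58 (.dbl 33 3 45))) (.rp 45 (.thr 43 40 (.thr 63 0 (.thr 48 58 (.dbl 3 23 33)))) (.rp 33 (.thr 40 43 (.thr 32 47 (.thr 36 44 (.thr 63 0 (.thr 48 58 (.thr 12 24 (.thr 46 29 (.dbl 38 34 39)))))))) .nd))))) (.rp 18 (.str 30 (.nv (.thr 45 33 (.thr 15 60 (.thr 47 32 (.dbl 63 0 31)))) (.nv (.thr 32 47 (.thr 33 45 (.thr 35 34 (.thr 40 43 (.dbl 44 36 38))))) (.nv (.thr 40 43 (.thr 0 63 (.thr 60 20 (.dbl 45 15 33)))) (.rp 45 (.thr 63 0 (.thr 47 32 (.thr 43 40 (.thr 39 35 (.thr 23 3 (.thr 55 7 (.dbl 38 4 36))))))) (.rp 33 (.thr 63 0 (.thr 47 32 (.thr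 15 31 (.thr 45 60 (.thr 44 46 (.thr 35 38 (.dbl 43 39 40))))))) .nd)))))) .nd)))))))))) (.rp 57 (.thr 5 53 (.thr 33 45 (.thr 1 61 (.thr 49 17 (.dbl 13 9 25))))) (.rp 53 (.thr 33 45 (.str 42 (.nv (.thr 0 63 (.thr 1 61 (.thr 3 2 (.thr 32 47 (.dbl 48 16 18))))) (.nv (.thr 40 43 (.thr 32 47 (.thr 44 36 (.dbl 35 34 38)))) (.rp 47 (.thr 0 63 (.thr 1 61 (.thr 49 17 (.thr 13 25 (.thr 9 5 (.thr 3 2 (.thr 12 6 (.thr 4 8 (.thr 38 55 (.thr 36 39 (.dbl 48 18 24))))))))))) (.rp 44 (.thr 43 40 (.thr 63 0 (.thr 1 61 (.thr 49 17 (.thr 13 25 (.thr 9 5 (.thr 3 23 (.thr 12 6 (.thr 15 14 (.dbl 47 31 32)))))))))) (.rp 32 (.thr 0 63 (.thr 1 61 (.thr 49 17 (.thr 13 25 (.thr 9 5 (.thr 3 2 (.thr 12 6 (.thr 4 8 (.thr 38 55 (.thr 36 39 (.dbl 48 18 24))))))))))) (.rp 30 (.str 18 (.nv (.thr 0 63 (.thr 1 61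 (.dbl 3 2 48))) (.nv (.thr 32 47 (.thr 35 34 (.thr 40 43 (.dbl 44 36 38)))) (.nv (.thr 43 40 (.thr 3 48 (.dbl 63 0 23))) (.rp 60 (.str 15 (.nv (.thr 1 61 (.thr 3 48 (.dbl 0 2 63))) (.nv (.thr 32 47 (.thr 35 34 (.thr 40 43 (.dbl 44 36 38)))) (.nv (.thr 47 32 (.dbl 63 0 31)) .nd)))) (.rp 15 (.str 60 (.nv (.thr 61 1 (.dbl 63 0 62)) (.nv (.thr 40 43 (.dbl 0 20 63)) (.rp 63 (.thr 40 43 (.thr 0 20 (.thr 1 61 (.dbl 3 2 48)))) (.rp 0 (.thr 40 43 (.thr 32 47 (.thr 35 34 (.dbl 44 36 38)))) .nd))))) .nd)))))) (.rp 18 (.str 30 (.nv (.thr 1 61 (.thr 47 32 (.thr 63 0 (.thr 31 15 (.thr 29 28 (.dbl 17 25 49)))))) (.nv (.thr 40 43 (.thr 32 47 (.thr 44 36 (.dbl 35 34 38)))) (.rp 47 (.thr 61 1 (.thr 63 0 (.thr 62 60 (.thr 46 14 (.thr 38 34 (.thr 12 29 (.thr 55 4 (.dbl 51 25 59)))))))) (.rp 32 (.thr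 61 1 (.thr 63 0 (.thr 62 60 (.thr 46 14 (.thr 38 34 (.thr 12 29 (.thr 55 4 (.dbl 51 25 59)))))))) .nd))))) .nd))))))))) (.rp 49 (.thr 61 1 (.thr 33 45 (.str 42 (.nv (.thr 43 40 (.thr 53 5 (.thr 63 0 (.thr 3 23 (.dbl 48 18 58))))) (.nv (.thr 40 43 (.thr 32 47 (.thr 44 36 (.dbl 35 34 38)))) (.rp 43 (.thr 32 47 (.thr 35 34 (.thr 44 38 (.thr 36 40 (.thr 63 0 (.thr 60 62 (.thr 12 28 (.thr 48 24 (.dbl 53 5 58))))))))) (.rp 40 (.thr 32 47 (.thr 34 35 (.thr 0 63 (.thr 51 17 (.thr 5 53 (.thr 15 10 (.thr 39 27 (.dbl 38 36 46)))))))) (.rp 30 (.str 18 (.nv (.thr 0 63 (.thr 32 47 (.dbl 48 3 16))) (.nv (.thr 32 47 (.thr 35 34 (.thr 40 43 (.dbl 44 36 38)))) (.nv (.thr 43 40 (.thr 63 0 (.dbl 3 23 48))) (.rp 60 (.str 15 (.nv (.thr 32 47 (.thr 35 34 (.thr 40 43 (.dbl 44 36 38)))) (.nv (.thr 5 53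 (.dbl 0 10 63)) .nd))) (.rp 15 (.str 60 (.nv (.dbl 63 0 62) (.rp 63 (.thr 48 3 (.thr 52 56 (.thr 53 5 (.thr 55 54 (.thr 38 4 (.thr 35 44 (.dbl 32 34 47))))))) (.rp 62 (.thr 40 43 (.dbl 0 20 63)) (.rp 0 (.thr 63 62 (.thr 43 40 (.dbl 3 23 48))) .nd))))) .nd)))))) (.rp 18 (.str 30 (.nv (.thr 63 0 (.thr 62 60 (.thr 32 47 (.thr 46 14 (.dbl 34 35 38))))) (.nv (.thr 40 43 (.thr 32 47 (.thr 44 36 (.dbl 35 34 38)))) (.rp 47 (.thr 63 0 (.thr 62 60 (.thr 46 14 (.thr 38 34 (.thr 12 29 (.thr 55 4 (.dbl 51 25 59))))))) (.rp 40 (.thr 63 0 (.thr 32 47 (.thr 34 35 (.thr 46 38 (.dbl 62 14 60))))) (.rp 38 (.thr 63 0 (.thr 62 60 (.thr 47 32 (.thr 31 15 (.thr 29 28 (.dbl 46 12 14)))))) (.rp 35 (.thr 63 0 (.thr 62 60 (.thr 46 14 (.thr 29 12 (.thr 47 32 (.dbl 31 15 28)))))) (.rp 34 (.thr 63 0 (.thr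 62 60 (.thr 46 14 (.thr 29 12 (.thr 47 32 (.dbl 31 15 28)))))) (.rp 32 (.thr 63 0 (.thr 62 60 (.thr 46 14 (.thr 38 34 (.thr 12 29 (.thr 55 4 (.dbl 51 25 59))))))) .nd))))))))) .nd))))))))) (.rp 45 (.thr 5 53 (.str 42 (.nv (.thr 0 63 (.thr 1 61 (.thr 13 9 (.thr 32 47 (.thr 48 16 (.thr 49 25 (.thr 17 33 (.dbl 51 34 50)))))))) (.nv (.thr 43 40 (.thr 47 32 (.thr 39 35 (.thr 63 0 (.thr 23 3 (.thr 55 7 (.dbl 38 4 36))))))) (.nv (.thr 0 63 (.thr 1 61 (.thr 3 2 (.thr 15 10 (.thr 7 11 (.thr 6 4 (.dbl 9 12 13))))))) (.rp 63 (.thr 40 43 (.thr 32 47 (.thr 44 36 (.thr 35 38 (.thr 33 34 (.thr 1 61 (.thr 13 9 (.dbl 49 17 25)))))))) (.rp 60 (.thr 43 40 (.thr 47 32 (.thr 39 35 (.thr 0 63 (.thr 15 10 (.thr 51 27 (.thr 34 17 (.dbl 38 36 46)))))))) (.rp 48 (.thr 40 43 (.thr 32 47 (.thr 44 36 (.thr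 35 38 (.thr 33 34 (.thr 1 61 (.thr 13 9 (.dbl 49 17 25)))))))) (.rp 30 (.str 18 (.nv (.thr 0 63 (.thr 1 61 (.thr 13 9 (.thr 49 25 (.thr 33 17 (.thr 48 3 (.dbl 32 16 47))))))) (.nv (.thr 0 63 (.thr 1 61 (.thr 13 9 (.thr 15 10 (.thr 12 14 (.thr 8 4 (.dbl 25 49 59))))))) (.nv (.thr 32 47 (.thr 0 63 (.thr 48 16 (.thr 3 33 (.dbl 1 2 61))))) (.rp 63 (.thr 1 61 (.thr 13 9 (.thr 49 25 (.thr 33 17 (.thr 32 47 (.thr 35 34 (.thr 40 43 (.dbl 44 36 38)))))))) (.rp 61 (.thr 63 0 (.thr 47 32 (.thr 43 40 (.thr 39 35 (.thr 23 3 (.thr 55 7 (.dbl 38 4 36))))))) (.rp 60 (.str 15 (.nv (.dbl 0 10 63) (.rp 63 (.thr 0 10 (.thr 32 47 (.thr 48 16 (.thr 3 33 (.dbl 1 2 61))))) (.rp 10 (.thr 63 0 (.dbl 47 31 32)) (.rp 0 (.thr 1 61 (.thr 13 9 (.thr 49 25 (.thr 33 17 (.thr 32 47 (.thr 34 35 (.thr 50 2 (.dbl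 48 3 51)))))))) .nd))))) (.rp 48 (.thr 1 61 (.thr 13 9 (.thr 49 25 (.thr 33 17 (.thr 32 47 (.thr 35 34 (.thr 40 43 (.dbl 44 36 38)))))))) (.rp 15 (.str 60 (.nv (.thr 40 43 (.dbl 0 20 63)) (.nv (.thr 61 1 (.dbl 63 0 62)) (.rp 63 (.thr 1 61 (.thr 40 43 (.thr 0 20 (.thr 3 2 (.thr 48 33 (.dbl 32 16 47)))))) (.rp 0 (.thr 1 61 (.thr 13 9 (.thr 49 25 (.thr 33 17 (.thr 40 43 (.thr 32 47 (.thr 44 36 (.dbl 35 34 38)))))))) .nd))))) (.rp 1 (.thr 0 63 (.thr 32 47 (.thr 48 16 (.thr 33 3 (.thr 35 34 (.thr 44 38 (.dbl 40 36 43))))))) (.rp 0 (.thr 1 61 (.thr 13 9 (.thr 49 25 (.thr 33 17 (.thr 32 47 (.thr 34 35 (.thr 50 2 (.dbl 48 3 51)))))))) .nd))))))))))) (.rp 18 (.str 30 (.nv (.thr 0 63 (.thr 1 61 (.thr 3 2 (.thr 15 10 (.thr 7 11 (.thr 6 4 (.dbl 9 12 13))))))) (.nv (.thr 43 40 (.thr 47 32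 (.thr 39 35 (.thr 63 0 (.thr 23 3 (.thr 55 7 (.dbl 38 4 36))))))) (.nv (.thr 1 61 (.thr 13 9 (.thr 47 32 (.thr 63 0 (.thr 31 15 (.thr 29 28 (.dbl 25 17 49))))))) (.rp 63 (.thr 40 43 (.thr 32 47 (.thr 44 36 (.thr 35 38 (.thr 33 34 (.thr 1 61 (.thr 13 9 (.dbl 49 17 25)))))))) (.rp 48 (.thr 40 43 (.thr 32 47 (.thr 44 36 (.thr 35 38 (.thr 33 34 (.thr 1 61 (.thr 13 9 (.dbl 49 17 25)))))))) (.rp 15 (.thr 43 40 (.thr 47 32 (.thr 35 39 (.thr 63 0 (.thr 3 23 (.thr 51 19 (.thr 55 59 (.dbl 38 4 44)))))))) (.rp 1 (.thr 43 40 (.thr 47 32 (.thr 39 35 (.thr 0 63 (.thr 15 10 (.thr 51 27 (.thr 34 17 (.dbl 38 36 46)))))))) (.rp 0 (.thr 40 43 (.thr 32 47 (.thr 44 36 (.thr 35 38 (.thr 33 34 (.thr 1 61 (.thr 13 9 (.dbl 49 17 25)))))))) .nd))))))))) (.rp 15 (.thr 43 40 (.thr 47 32 (.thr 35 39 (.thr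 63 0 (.thr 3 23 (.thr 51 19 (.thr 55 59 (.dbl 38 4 44)))))))) (.rp 1 (.thr 43 40 (.thr 47 32 (.thr 39 35 (.thr 0 63 (.thr 15 10 (.thr 51 27 (.thr 34 17 (.dbl 38 36 46)))))))) (.rp 0 (.thr 40 43 (.thr 32 47 (.thr 44 36 (.thr 35 38 (.thr 33 34 (.thr 1 61 (.thr 13 9 (.dbl 49 17 25)))))))) .nd))))))))))))) (.rp 33 (.thr 53 5 (.str 42 (.nv (.thr 61 1 (.thr 49 57 (.thr 63 0 (.thr 48 58 (.thr 51 50 (.thr 59 55 (.dbl 25 8 13))))))) (.nv (.thr 0 63 (.thr 32 47 (.thr 40 43 (.thr 36 44 (.thr 48 16 (.thr 60 20 (.thr 56 52 (.dbl 24 8 12)))))))) (.nv (.thr 0 63 (.thr 32 47 (.thr 48 16 (.thr 61 1 (.thr 49 57 (.thr 51 50 (.thr 17 34 (.dbl 25 13 29)))))))) (.rp 63 (.thr 43 40 (.thr 47 32 (.thr 35 39 (.thr 44 38 (.thr 45 46 (.thr 61 1 (.thr 49 57 (.dbl 13 25 29)))))))) (.rp 48 (.thr 40 43 (.thr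 32 47 (.thr 44 36 (.thr 0 63 (.thr 60 20 (.thr 12 28 (.thr 4 8 (.dbl 38 35 55)))))))) (.rp 30 (.str 18 (.nv (.thr 0 63 (.thr 1 61 (.thr 2 3 (.thr 34 50 (.thr 38 46 (.thr 4 55 (.thr 12 8 (.dbl 51 17 25)))))))) (.nv (.thr 0 63 (.thr 32 47 (.thr 16 48 (.thr 17 19 (.thr 25 29 (.thr 8 59 (.thr 12 4 (.dbl 51 34 38)))))))) (.nv (.thr 0 63 (.thr 1 61 (.thr 2 3 (.thr 34 50 (.thr 43 40 (.thr 47 32 (.thr 35 39 (.dbl 38 44 46)))))))) (.nv (.thr 61 1 (.thr 49 57 (.thr 32 47 (.thr 0 63 (.thr 16 48 (.thr 17 19 (.dbl 25 13 29))))))) (.rp 63 (.thr 43 40 (.thr 47 32 (.thr 35 39 (.thr 44 38 (.thr 45 46 (.thr 61 1 (.thr 49 57 (.dbl 13 25 29)))))))) (.rp 0 (.thr 43 40 (.thr 47 32 (.thr 35 39 (.thr 44 38 (.thr 45 46 (.thr 61 1 (.thr 49 57 (.dbl 13 25 29)))))))) .nd))))))) (.rp 18 (.str 30 (.nv (.thr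 43 40 (.thr 47 32 (.thr 35 39 (.thr 44 38 (.thr 45 46 (.thr 15 60 (.dbl 63 0 31))))))) (.nv (.thr 0 63 (.thr 40 43 (.thr 60 20 (.thr 61 1 (.thr 49 57 (.thr 13 25 (.dbl 45 15 29))))))) (.nv (.thr 47 32 (.thr 63 0 (.thr 15 31 (.thr 60 45 (.dbl 61 1 62))))) (.rp 63 (.thr 61 1 (.thr 49 57 (.thr 13 25 (.thr 45 29 (.thr 47 32 (.thr 46 44 (.thr 14 62 (.dbl 15 12 60)))))))) (.rp 60 (.thr 61 1 (.thr 49 57 (.thr 13 25 (.thr 29 45 (.thr 63 0 (.thr 47 32 (.dbl 31 15 28))))))) (.rp 48 (.str 3 (.nv (.thr 43 40 (.dbl 63 0 23)) (.nv (.thr 1 61 (.dbl 0 2 63)) (.rp 63 (.thr 61 1 (.thr 49 57 (.thr 13 25 (.thr 45 29 (.thr 43 40 (.thr 47 32 (.thr 35 39 (.dbl 44 38 46)))))))) (.rp 0 (.thr 61 1 (.thr 43 40 (.thr 63 23 (.thr 60 62 (.thr 15 45 (.dbl 47 31 32)))))) .nd))))) (.rp 45 (.thr 61 1 (.thr 49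 57 (.thr 63 0 (.thr 62 60 (.thr 46 14 (.thr 29 12 (.dbl 25 13 17))))))) (.rp 15 (.thr 61 1 (.thr 49 57 (.thr 13 25 (.thr 45 29 (.thr 47 32 (.thr 44 46 (.thr 43 40 (.dbl 35 38 39)))))))) (.rp 3 (.str 48 (.nv (.dbl 63 0 58) (.rp 63 (.thr 61 1 (.thr 49 57 (.thr 13 25 (.thr 45 29 (.thr 47 32 (.thr 46 44 (.thr 14 62 (.dbl 15 12 60)))))))) (.rp 58 (.thr 0 63 (.dbl 32 16 47)) (.rp 0 (.thr 63 58 (.thr 47 32 (.thr 15 31 (.thr 60 45 (.dbl 61 1 62))))) .nd))))) (.rp 0 (.thr 61 1 (.thr 49 57 (.thr 13 25 (.thr 45 29 (.thr 47 32 (.thr 44 46 (.thr 43 40 (.dbl 35 38 39)))))))) .nd))))))))))) (.rp 15 (.thr 43 40 (.thr 47 32 (.thr 35 39 (.thr 44 38 (.thr 45 46 (.thr 61 1 (.thr 49 57 (.dbl 13 25 29)))))))) (.rp 0 (.thr 43 40 (.thr 47 32 (.thr 35 39 (.thr 44 38 (.thr 45 46 (.thr 61 1 (.thr 49 57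 (.dbl 13 25 29)))))))) .nd))))))))))) (.rp 30 (.str 18 (.nv (.thr 1 61 (.thr 33 45 (.thr 3 48 (.thr 0 2 (.thr 17 49 (.thr 19 16 (.dbl 51 34 35))))))) (.nv (.thr 45 33 (.thr 53 5 (.thr 61 1 (.thr 49 57 (.dbl 13 25 29))))) (.rp 61 (.thr 53 5 (.thr 33 45 (.thr 48 3 (.thr 63 58 (.thr 42 0 (.thr 40 43 (.thr 32 47 (.thr 44 36 (.dbl 35 34 38))))))))) (.rp 57 (.thr 5 53 (.thr 33 45 (.thr 1 61 (.thr 49 17 (.dbl 13 9 25))))) (.rp 53 (.thr 33 45 (.thr 1 61 (.thr 49 17 (.thr 13 25 (.thr 9 5 (.thr 3 48 (.thr 0 2 (.thr 12 6 (.thr 4 8 (.thr 38 55 (.thr 35 44 (.thr 32 34 (.dbl 42 47 63))))))))))))) (.rp 49 (.thr 53 5 (.thr 33 45 (.thr 48 3 (.thr 63 58 (.thr 42 0 (.thr 40 43 (.thr 32 47 (.thr 44 36 (.dbl 35 34 38))))))))) (.rp 45 (.thr 61 1 (.str 60 (.nv (.thr 53 5 (.thr 63 62 (.thr 42 0 (.thr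 43 40 (.thr 3 23 (.dbl 48 33 58)))))) (.nv (.thr 53 5 (.thr 57 49 (.thr 54 51 (.thr 52 55 (.thr 48 56 (.dbl 63 58 62)))))) (.nv (.thr 63 62 (.thr 42 0 (.thr 43 40 (.thr 3 23 (.thr 48 33 (.dbl 53 5 58)))))) (.rp 63 (.thr 53 5 (.thr 57 49 (.thr 54 51 (.thr 55 52 (.thr 38 4 (.thr 44 35 (.thr 12 28 (.thr 36 39 (.thr 48 24 (.thr 32 40 (.thr 16 0 (.thr 3 33 (.thr 17 19 (.dbl 25 9 29)))))))))))))) (.rp 62 (.thr 53 5 (.thr 57 49 (.thr 54 51 (.thr 52 55 (.thr 48 56 (.thr 63 58 (.thr 42 0 (.thr 43 40 (.dbl 3 23 33))))))))) (.rp 58 (.thr 53 5 (.thr 57 49 (.thr 54 51 (.thr 52 55 (.thr 48 56 (.thr 63 62 (.thr 42 0 (.thr 43 40 (.dbl 3 23 33))))))))) (.rp 53 (.thr 63 62 (.thr 42 0 (.thr 43 40 (.thr 47 32 (.thr 35 39 (.thr 3 23 (.thr 51 19 (.thr 55 59 (.dbl 38 4 44))))))))) (.rp 48 (.thr 53 5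 (.thr 57 49 (.thr 51 54 (.thr 63 62 (.thr 42 0 (.thr 59 55 (.dbl 25 8 9))))))) (.rp 33 (.thr 53 5 (.thr 63 62 (.thr 48 58 (.thr 52 56 (.thr 54 55 (.dbl 57 49 51)))))) (.rp 5 (.thr 63 62 (.thr 42 0 (.thr 43 40 (.thr 47 32 (.thr 35 39 (.thr 3 23 (.thr 51 19 (.thr 55 59 (.dbl 38 4 44))))))))) .nd)))))))))))) (.rp 33 (.thr 1 61 (.str 0 (.nv (.thr 2 3 (.thr 42 63 (.thr 32 47 (.thr 16 48 (.thr 17 19 (.dbl 34 50 51)))))) (.nv (.thr 3 2 (.thr 5 53 (.thr 15 10 (.thr 7 11 (.thr 6 4 (.dbl 9 12 13)))))) (.nv (.thr 5 53 (.thr 9 13 (.thr 2 3 (.thr 34 50 (.thr 17 51 (.dbl 25 29 57)))))) (.rp 53 (.thr 2 3 (.thr 34 50 (.thr 17 51 (.thr 42 63 (.thr 32 47 (.dbl 16 19 48)))))) (.rp 3 (.thr 5 53 (.thr 13 9 (.thr 15 10 (.thr 12 14 (.thr 8 4 (.thr 42 63 (.dbl 25 49 59))))))) (.rp 2 (.thr 5 53 (.thr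 9 13 (.thr 10 15 (.thr 8 11 (.thr 42 63 (.dbl 25 57 59)))))) .nd)))))))) (.rp 29 (.thr 5 53 (.thr 33 45 (.thr 1 61 (.thr 13 9 (.dbl 49 17 25))))) (.rp 13 (.thr 53 5 (.thr 33 45 (.thr 48 3 (.thr 63 58 (.thr 42 0 (.thr 40 43 (.thr 32 47 (.thr 44 36 (.dbl 35 34 38))))))))) (.rp 1 (.str 0 (.nv (.thr 33 45 (.thr 48 3 (.thr 32 16 (.thr 34 35 (.thr 51 17 (.dbl 50 2 49)))))) (.nv (.thr 33 45 (.thr 42 63 (.thr 32 47 (.thr 35 34 (.thr 44 38 (.dbl 40 36 43)))))) (.nv (.thr 33 45 (.thr 48 3 (.thr 32 16 (.dbl 42 47 63)))) (.rp 60 (.thr 42 63 (.thr 32 47 (.thr 48 16 (.dbl 33 3 45)))) (.rp 45 (.thr 42 63 (.thr 40 43 (.thr 32 47 (.thr 48 16 (.thr 44 36 (.thr 35 38 (.dbl 33 3 34))))))) (.rp 33 (.thr 42 63 (.thr 40 43 (.thr 20 60 (.thr 32 47 (.thr 36 44 (.thr 4 52 (.dbl 38 39 55))))))) (.rp 32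 (.thr 53 5 (.thr 33 45 (.thr 48 3 (.dbl 63 42 58)))) (.rp 15 (.thr 45 33 (.thr 42 63 (.thr 43 40 (.thr 47 32 (.thr 44 46 (.dbl 35 38 39)))))) .nd))))))))) .nd)))))))))))) (.rp 29 (.thr 5 53 (.thr 33 45 (.thr 1 61 (.thr 13 9 (.dbl 49 17 25))))) (.rp 25 .ext (.rp 18 (.str 30 (.nv (.thr 45 33 (.thr 60 15 (.thr 61 1 (.thr 29 13 (.thr 28 31 (.thr 12 44 (.dbl 63 46 62))))))) (.nv (.thr 33 45 (.thr 5 53 (.thr 1 61 (.thr 13 9 (.dbl 49 17 25))))) (.rp 61 (.str 63 (.nv (.thr 45 33 (.thr 5 53 (.thr 15 60 (.dbl 0 10 42)))) (.nv (.thr 33 45 (.thr 42 0 (.thr 32 47 (.thr 35 34 (.thr 40 43 (.dbl 44 36 38)))))) (.nv (.thr 45 33 (.thr 15 60 (.thr 47 31 (.dbl 42 0 32)))) (.rp 45 (.thr 42 0 (.thr 43 40 (.thr 23 3 (.thr 47 32 (.thr 39 35 (.thr 55 7 (.dbl 38 4 36))))))) (.rp 42 (.thr 45 33 (.thr 15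 60 (.thr 47 31 (.thr 46 44 (.thr 12 29 (.dbl 14 13 62)))))) (.rp 33 (.thr 42 0 (.thr 43 40 (.thr 47 32 (.thr 15 31 (.thr 35 39 (.thr 44 38 (.dbl 45 46 60))))))) (.rp 0 (.thr 45 33 (.thr 15 60 (.thr 47 31 (.thr 46 44 (.thr 14 62 (.dbl 12 13 29)))))) .nd)))))))) (.rp 49 (.thr 5 53 (.thr 45 33 (.thr 15 60 (.thr 0 10 (.thr 42 63 (.thr 43 40 (.thr 47 32 (.thr 35 39 (.dbl 44 38 46))))))))) (.rp 45 (.thr 61 1 (.str 63 (.nv (.thr 42 0 (.thr 47 32 (.thr 31 15 (.thr 29 28 (.thr 25 17 (.thr 49 13 (.dbl 53 5 57))))))) (.nv (.thr 53 5 (.thr 57 49 (.thr 58 48 (.thr 59 56 (.thr 51 55 (.dbl 60 54 62)))))) (.nv (.thr 42 0 (.thr 32 47 (.thr 40 43 (.thr 44 36 (.thr 62 60 (.thr 46 14 (.dbl 38 34 35))))))) (.rp 3 (.thr 53 5 (.thr 57 49 (.thr 62 60 (.thr 46 14 (.thr 29 12 (.dbl 25 9 17)))))) .nd))))))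 (.rp 33 (.thr 1 61 (.str 3 (.nv (.thr 0 2 (.thr 5 53 (.thr 15 10 (.thr 7 11 (.thr 6 4 (.dbl 9 12 13)))))) (.nv (.thr 5 53 (.thr 9 13 (.thr 6 12 (.thr 7 4 (.thr 15 11 (.dbl 0 2 10)))))) (.nv (.thr 0 2 (.thr 42 63 (.thr 40 43 (.thr 60 20 (.thr 15 45 (.dbl 5 10 53)))))) (.rp 53 (.thr 0 2 (.thr 42 63 (.thr 40 43 (.thr 32 47 (.thr 44 36 (.thr 60 20 (.thr 12 28 (.thr 4 8 (.dbl 38 35 55))))))))) (.rp 15 (.thr 5 53 (.thr 9 13 (.thr 12 6 (.thr 0 2 (.thr 42 63 (.thr 8 4 (.dbl 25 57 59))))))) (.rp 13 (.thr 5 53 (.thr 0 2 (.thr 42 63 (.thr 40 43 (.thr 15 10 (.dbl 60 20 45)))))) (.rp 10 (.thr 5 53 (.thr 9 13 (.thr 6 12 (.thr 7 4 (.thr 15 11 (.thr 0 2 (.thr 42 63 (.thr 40 43 (.dbl 60 20 45))))))))) (.rp 5 (.thr 0 2 (.thr 42 63 (.thr 40 43 (.thr 32 47 (.thr 44 36 (.thr 60 20 (.thr 12 28 (.thr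 4 8 (.dbl 38 35 55))))))))) (.rp 2 (.thr 5 53 (.thr 9 13 (.thr 6 12 (.thr 7 4 (.thr 15 11 (.thr 0 10 (.thr 42 63 (.thr 40 43 (.dbl 60 20 45))))))))) (.rp 0 (.thr 5 53 (.thr 9 13 (.thr 6 12 (.thr 4 7 (.thr 38 55 (.thr 35 44 (.thr 51 19 (.thr 39 36 (.thr 15 27 (.thr 47 43 (.thr 31 63 (.thr 60 45 (.thr 29 28 (.dbl 25 17 57)))))))))))))) .nd)))))))))))) (.rp 17 (.thr 53 5 (.thr 45 33 (.thr 61 1 (.thr 49 57 (.dbl 13 25 29))))) (.rp 13 (.thr 5 53 (.thr 45 33 (.thr 15 60 (.thr 0 10 (.thr 42 63 (.thr 43 40 (.thr 47 32 (.thr 35 39 (.dbl 44 38 46))))))))) (.rp 9 (.thr 53 5 (.thr 45 33 (.thr 61 1 (.thr 13 29 (.dbl 49 25 57))))) (.rp 5 (.thr 45 33 (.thr 61 1 (.thr 13 29 (.thr 49 25 (.thr 57 53 (.thr 60 15 (.thr 63 62 (.thr 51 54 (.thr 55 59 (.thr 38 4 (.thr 44 35 (.thr 47 46 (.dbl 42 0 32)))))))))))))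 (.rp 1 (.thr 5 53 (.thr 45 33 (.thr 15 60 (.thr 0 10 (.thr 42 63 (.thr 43 40 (.thr 47 32 (.thr 35 39 (.dbl 44 38 46))))))))) .nd)))))))))))) (.rp 17 (.thr 53 5 (.thr 45 33 (.thr 61 1 (.thr 49 57 (.dbl 13 25 29))))) (.rp 13 (.thr 1 61 (.thr 45 33 (.str 42 (.nv (.thr 0 63 (.thr 5 53 (.thr 15 10 (.thr 40 43 (.dbl 60 20 30))))) (.nv (.thr 43 40 (.thr 47 32 (.thr 35 39 (.dbl 44 38 46)))) (.rp 43 (.thr 47 32 (.thr 46 44 (.thr 63 0 (.thr 12 29 (.thr 53 5 (.thr 48 58 (.thr 36 24 (.dbl 38 34 39)))))))) (.rp 40 (.thr 47 32 (.thr 44 46 (.thr 35 38 (.thr 39 43 (.thr 0 63 (.thr 3 2 (.thr 51 19 (.thr 15 27 (.dbl 5 10 53))))))))) (.rp 30 (.str 18 (.nv (.thr 0 63 (.thr 32 47 (.thr 16 48 (.thr 17 19 (.thr 34 51 (.dbl 2 3 50)))))) (.nv (.thr 43 40 (.thr 47 32 (.thr 35 39 (.dbl 44 38 46)))) (.rp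 47 (.thr 0 63 (.thr 2 3 (.thr 34 50 (.thr 38 46 (.thr 51 17 (.thr 4 55 (.dbl 12 8 25))))))) (.rp 35 (.thr 0 63 (.thr 2 3 (.thr 34 50 (.thr 47 32 (.dbl 46 38 44))))) (.rp 32 (.thr 0 63 (.thr 2 3 (.thr 34 50 (.thr 38 46 (.thr 51 17 (.thr 4 55 (.dbl 12 8 25))))))) .nd)))))) (.rp 18 (.str 30 (.nv (.thr 0 63 (.thr 5 53 (.dbl 15 10 60))) (.nv (.thr 43 40 (.thr 47 32 (.thr 35 39 (.dbl 44 38 46)))) (.nv (.thr 40 43 (.thr 0 63 (.dbl 60 15 20))) (.rp 48 (.str 3 (.nv (.dbl 0 2 63) (.rp 63 (.thr 0 2 (.thr 40 43 (.dbl 60 15 20))) (.rp 2 (.thr 43 40 (.dbl 63 0 23)) (.rp 0 (.thr 15 60 (.thr 7 11 (.thr 5 53 (.thr 4 6 (.thr 38 55 (.thr 44 35 (.dbl 47 32 46))))))) .nd))))) (.rp 3 (.str 48 (.nv (.thr 43 40 (.thr 47 32 (.thr 35 39 (.dbl 44 38 46)))) (.nv (.thr 53 5 (.dbl 63 0 58)) .nd))) .nd))))))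 .nd))))))))) (.rp 5 (.thr 45 33 (.str 42 (.nv (.thr 47 32 (.thr 61 1 (.thr 63 0 (.thr 15 31 (.dbl 60 30 62))))) (.nv (.thr 43 40 (.thr 47 32 (.thr 35 39 (.dbl 44 38 46)))) (.rp 47 (.thr 63 0 (.thr 61 1 (.thr 13 29 (.thr 49 25 (.thr 57 53 (.thr 60 62 (.thr 51 54 (.thr 55 59 (.thr 38 4 (.thr 39 36 (.dbl 15 27 30))))))))))) (.rp 35 (.thr 40 43 (.thr 0 63 (.thr 61 1 (.thr 13 29 (.thr 49 25 (.thr 57 53 (.thr 60 20 (.thr 51 54 (.thr 48 50 (.dbl 32 16 47)))))))))) (.rp 32 (.thr 63 0 (.thr 61 1 (.thr 13 29 (.thr 49 25 (.thr 57 53 (.thr 60 62 (.thr 51 54 (.thr 55 59 (.thr 38 4 (.thr 39 36 (.dbl 15 27 30))))))))))) (.rp 30 (.str 18 (.nv (.thr 0 63 (.thr 32 47 (.thr 16 48 (.thr 17 19 (.thr 61 1 (.dbl 29 13 25)))))) (.nv (.thr 43 40 (.thr 47 32 (.thr 35 39 (.dbl 44 38 46)))) (.rp 47 (.thr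 1 61 (.thr 0 63 (.thr 2 3 (.thr 34 50 (.thr 38 46 (.thr 51 17 (.thr 4 55 (.dbl 12 8 25)))))))) (.rp 32 (.thr 1 61 (.thr 0 63 (.thr 2 3 (.thr 34 50 (.thr 38 46 (.thr 51 17 (.thr 4 55 (.dbl 12 8 25)))))))) .nd))))) (.rp 18 (.str 30 (.nv (.thr 15 60 (.thr 47 32 (.dbl 63 0 31))) (.nv (.thr 43 40 (.thr 47 32 (.thr 35 39 (.dbl 44 38 46)))) (.nv (.thr 40 43 (.thr 60 15 (.dbl 0 20 63))) (.rp 48 (.str 3 (.nv (.thr 0 63 (.dbl 1 2 61)) (.nv (.thr 43 40 (.dbl 63 0 23)) (.rp 63 (.thr 43 40 (.thr 47 32 (.thr 44 46 (.dbl 35 38 39)))) (.rp 0 (.thr 43 40 (.thr 63 23 (.thr 61 1 (.dbl 60 15 62)))) .nd))))) (.rp 3 (.str 48 (.nv (.thr 40 43 (.thr 60 15 (.dbl 0 20 63))) (.nv (.thr 43 40 (.thr 47 32 (.thr 35 39 (.dbl 44 38 46)))) (.nv (.thr 32 47 (.dbl 0 16 63)) .nd)))) .nd)))))) .nd))))))))) (.rp 1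 (.thr 5 53 (.str 42 (.nv (.thr 0 63 (.thr 15 10 (.thr 40 43 (.thr 45 33 (.dbl 60 20 30))))) (.nv (.thr 40 43 (.thr 33 45 (.thr 32 47 (.thr 35 34 (.dbl 44 36 38))))) (.rp 45 (.thr 43 40 (.thr 47 32 (.thr 39 35 (.thr 0 63 (.thr 15 10 (.thr 51 27 (.thr 34 17 (.dbl 38 36 46)))))))) (.rp 43 (.thr 45 33 (.thr 47 32 (.thr 46 44 (.thr 63 0 (.thr 29 12 (.thr 13 61 (.dbl 25 17 49))))))) (.rp 40 (.thr 33 45 (.thr 32 47 (.thr 34 35 (.thr 0 63 (.thr 15 10 (.thr 51 17 (.thr 39 27 (.dbl 38 36 46)))))))) (.rp 33 (.thr 40 43 (.thr 32 47 (.thr 36 44 (.thr 0 63 (.thr 20 60 (.thr 4 52 (.dbl 38 39 55))))))) (.rp 30 (.str 18 (.nv (.thr 0 63 (.thr 32 47 (.thr 33 45 (.dbl 48 3 16)))) (.nv (.thr 32 47 (.thr 40 43 (.thr 44 36 (.thr 35 38 (.dbl 33 34 45))))) (.nv (.thr 43 40 (.thr 63 0 (.thr 3 23 (.dbl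 33 45 48)))) (.rp 45 (.thr 0 63 (.thr 32 47 (.thr 48 16 (.thr 33 3 (.thr 35 34 (.thr 44 38 (.dbl 40 36 43))))))) (.rp 33 (.thr 0 63 (.thr 32 47 (.thr 40 43 (.thr 36 44 (.thr 20 60 (.thr 4 52 (.dbl 38 39 55))))))) .nd)))))) (.rp 18 (.str 30 (.nv (.thr 32 47 (.thr 33 45 (.thr 35 34 (.thr 40 43 (.dbl 44 36 38))))) (.nv (.thr 0 63 (.thr 15 10 (.dbl 45 33 60))) (.rp 45 (.thr 43 40 (.thr 47 32 (.thr 39 35 (.thr 0 63 (.thr 15 10 (.thr 51 27 (.thr 34 17 (.dbl 38 36 46)))))))) (.rp 33 (.thr 40 43 (.thr 0 63 (.thr 15 10 (.dbl 60 20 45)))) .nd))))) .nd)))))))))) .nd))))))))))))))))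

theorem w519 : WinAt (137441050624, 71303168) :=
  chF (K := [(2336464306176, 104857600)]) (kc w518 kn) c519 137441050624 71303168 22
    [1145307136] (by decide +kernel) (by decide +kernel)

/-- A certificate. -/
noncomputable def c520 : Ct := (.str 61 (.nv (.thr 49 57 (.thr 13 25 (.thr 41 1 (.dbl 45 29 33)))) (.nv (.thr 49 57 (.thr 25 13 (.thr 17 29 (.dbl 1 33 41)))) (.rp 57 (.str 63 (.nv (.thr 41 1 (.thr 33 45 (.thr 42 0 (.thr 32 47 (.thr 35 34 (.thr 40 43 (.dbl 44 36 38))))))) (.nv (.thr 42 0 (.thr 58 48 (.thr 62 60 (.thr 54 50 (.thr 52 55 (.dbl 22 2 7)))))) (.nv (.thr 41 1 (.thr 33 45 (.thr 60 62 (.thr 3 22 (.dbl 48 18 58))))) (.rp 42 (.thr 41 1 (.thr 60 62 (.thr 22 3 (.thr 52 7 (.dbl 48 56 58))))) (.rp 2 (.thr 41 1 (.thr 33 45 (.thr 60 62 (.thr 48 58 (.dbl 3 18 22)))))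 .nd)))))) (.rp 49 (.str 63 (.nv (.thr 48 58 (.thr 60 62 (.thr 52 56 (.thr 22 7 (.dbl 41 1 3))))) (.nv (.thr 41 1 (.thr 33 45 (.thr 42 0 (.thr 32 47 (.thr 35 34 (.thr 40 43 (.dbl 44 36 38))))))) (.nv (.thr 41 1 (.thr 33 45 (.thr 60 62 (.thr 3 22 (.dbl 48 18 58))))) (.rp 42 (.thr 41 1 (.thr 60 62 (.thr 22 3 (.thr 52 7 (.dbl 48 56 58))))) (.rp 41 (.thr 62 60 (.thr 58 48 (.thr 42 0 (.thr 22 2 (.thr 52 7 (.dbl 54 50 55)))))) (.rp 3 (.thr 60 62 (.thr 42 0 (.thr 47 32 (.thr 15 31 (.thr 45 30 (.dbl 41 1 33)))))) (.rp 1 (.thr 60 62 (.thr 42 0 (.thr 47 32 (.thr 15 31 (.thr 45 30 (.thr 46 44 (.dbl 29 12 13))))))) .nd)))))))) (.rp 41 (.str 63 (.nv (.thr 0 42 (.thr 49 57 (.thr 25 13 (.thr 17 29 (.thr 51 34 (.thr 38 12 (.dbl 55 4 59))))))) (.nv (.thr 42 0 (.thr 47 32 (.thr 15 31 (.thr 60 62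 (.thr 45 30 (.thr 29 13 (.dbl 46 12 44))))))) (.nv (.thr 57 49 (.thr 60 62 (.thr 51 54 (.thr 58 48 (.dbl 59 55 56))))) (.rp 56 (.str 11 (.nv (.thr 0 42 (.thr 57 49 (.thr 60 62 (.thr 51 54 (.thr 17 34 (.thr 25 29 (.thr 38 12 (.dbl 55 4 59)))))))) (.nv (.thr 49 57 (.thr 25 13 (.thr 29 17 (.thr 12 46 (.thr 51 38 (.dbl 48 50 58)))))) (.nv (.thr 42 0 (.thr 47 32 (.thr 15 31 (.thr 7 3 (.thr 22 52 (.dbl 62 2 60)))))) (.rp 42 (.thr 49 57 (.thr 25 13 (.thr 29 17 (.thr 12 46 (.thr 38 51 (.thr 36 39 (.dbl 48 24 58))))))) .nd))))) (.rp 11 (.str 56 (.nv (.thr 57 49 (.dbl 58 48 59)) (.nv (.thr 60 62 (.dbl 48 52 58)) (.rp 58 (.thr 60 62 (.thr 52 48 (.thr 54 55 (.dbl 57 49 51)))) (.rp 48 (.thr 60 62 (.thr 57 49 (.thr 59 58 (.dbl 51 54 55)))) .nd))))) .nd)))))) (.rp 33 (.str 63 (.nv (.thr 42 0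 (.thr 58 48 (.thr 62 60 (.thr 22 2 (.thr 52 7 (.dbl 54 50 55)))))) (.nv (.thr 49 57 (.thr 25 13 (.thr 29 17 (.thr 12 46 (.thr 51 38 (.dbl 48 50 58)))))) (.nv (.thr 48 58 (.thr 57 49 (.thr 60 62 (.thr 54 51 (.dbl 52 55 56))))) (.rp 58 (.thr 49 57 (.thr 13 25 (.thr 29 45 (.thr 12 46 (.thr 15 14 (.thr 47 31 (.dbl 42 0 32))))))) (.rp 48 (.thr 49 57 (.thr 13 25 (.thr 29 45 (.thr 12 46 (.thr 15 14 (.thr 47 31 (.dbl 42 0 32))))))) (.rp 42 (.thr 57 49 (.thr 60 62 (.thr 51 54 (.thr 59 55 (.dbl 58 48 56))))) (.rp 1 (.thr 60 62 (.thr 48 58 (.thr 52 56 (.thr 54 55 (.dbl 57 49 51))))) .nd)))))))) (.rp 29 (.str 55 (.nv (.thr 38 4 (.thr 36 39 (.thr 41 1 (.thr 44 35 (.thr 32 40 (.thr 45 33 (.dbl 47 42 46))))))) (.nv (.thr 52 54 (.thr 22 7 (.thr 41 1 (.thr 60 3 (.thr 63 62 (.dbl 48 56 58))))))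 (.rp 41 (.thr 38 4 (.thr 49 57 (.thr 25 13 (.thr 51 12 (.thr 48 50 (.dbl 63 58 59)))))) (.rp 13 (.thr 54 52 (.thr 38 4 (.thr 57 49 (.thr 51 60 (.thr 25 12 (.dbl 41 1 9)))))) (.rp 9 (.thr 38 4 (.thr 49 57 (.thr 25 13 (.thr 1 41 (.thr 51 12 (.thr 48 50 (.dbl 63 58 59))))))) (.rp 7 (.thr 54 52 (.thr 57 49 (.thr 60 51 (.thr 41 1 (.thr 22 3 (.dbl 38 4 6)))))) (.rp 6 (.thr 52 54 (.thr 22 7 (.thr 4 38 (.thr 41 1 (.thr 60 3 (.thr 63 62 (.dbl 48 56 58))))))) (.rp 4 (.thr 54 52 (.thr 57 49 (.thr 60 51 (.thr 63 62 (.thr 41 1 (.thr 33 45 (.thr 3 22 (.dbl 48 18 58)))))))) (.rp 1 (.thr 54 52 (.thr 38 4 (.thr 36 39 (.thr 57 49 (.thr 51 60 (.thr 12 25 (.thr 63 59 (.dbl 48 24 58)))))))) .nd)))))))))) (.rp 25 (.thr 57 49 (.str 60 (.nv (.thr 41 1 (.thr 22 3 (.thr 52 7 (.dbl 54 51 55)))) (.nv (.thr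 41 1 (.thr 3 22 (.thr 33 45 (.thr 63 62 (.dbl 48 18 58))))) (.nv (.thr 51 54 (.thr 63 62 (.thr 58 48 (.dbl 59 55 56)))) (.rp 63 (.thr 41 1 (.thr 54 51 (.thr 55 52 (.thr 38 4 (.dbl 22 3 6))))) (.rp 27 (.str 24 (.nv (.thr 41 1 (.thr 22 3 (.thr 52 7 (.dbl 54 51 55)))) (.nv (.thr 41 1 (.thr 3 22 (.thr 33 45 (.thr 63 62 (.dbl 48 18 58))))) (.nv (.thr 51 54 (.thr 63 62 (.thr 58 48 (.dbl 59 55 56)))) (.rp 63 (.thr 41 1 (.thr 54 51 (.thr 55 52 (.thr 38 4 (.dbl 22 3 6))))) (.rp 31 (.str 19 (.nv (.thr 51 54 (.thr 63 62 (.thr 58 48 (.dbl 59 55 56)))) (.nv (.thr 63 62 (.thr 0 42 (.thr 20 40 (.thr 16 28 (.dbl 48 32 58))))) (.nv (.thr 51 54 (.thr 3 35 (.dbl 41 1 22))) .nd)))) (.rp 19 (.str 31 (.nv (.thr 41 1 (.thr 54 51 (.thr 55 52 (.thr 38 4 (.dbl 22 3 6))))) (.nv (.thr 63 62 (.thr 42 0 (.dbl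 47 15 32))) (.rp 28 (.str 22 (.nv (.thr 52 7 (.dbl 54 51 55)) (.nv (.dbl 41 1 3) .nd))) (.rp 22 (.str 28 (.nv (.thr 12 44 (.thr 48 36 (.thr 52 56 (.dbl 54 51 55)))) (.nv (.thr 30 29 (.thr 15 45 (.dbl 63 47 62))) (.rp 30 (.str 18 (.nv (.thr 12 44 (.thr 41 1 (.thr 33 45 (.dbl 48 3 36)))) (.nv (.thr 20 16 (.thr 0 40 (.dbl 63 42 62))) .nd))) .nd)))) (.rp 15 (.thr 63 62 (.thr 48 58 (.thr 52 56 (.dbl 54 51 55)))) .nd)))))) .nd))))))) (.rp 24 (.str 27 (.nv (.thr 41 1 (.thr 3 22 (.thr 33 45 (.thr 63 62 (.dbl 48 18 58))))) (.nv (.thr 41 1 (.thr 3 22 (.thr 51 54 (.thr 15 39 (.thr 7 11 (.dbl 45 30 33)))))) (.nv (.thr 51 54 (.thr 63 62 (.thr 58 48 (.dbl 59 55 56)))) .nd)))) .nd)))))))) (.rp 13 (.str 63 (.nv (.thr 0 42 (.thr 1 41 (.thr 49 57 (.thr 17 33 (.thr 51 34 (.dbl 48 50 58)))))) (.nv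 (.thr 42 0 (.thr 47 32 (.thr 15 31 (.thr 60 62 (.thr 45 30 (.dbl 41 1 33)))))) (.nv (.thr 57 49 (.thr 60 62 (.thr 51 54 (.thr 58 48 (.dbl 59 55 56))))) (.rp 48 (.thr 57 49 (.thr 41 1 (.thr 9 25 (.thr 60 62 (.thr 22 3 (.thr 52 7 (.dbl 54 51 55))))))) (.rp 9 (.thr 1 41 (.thr 57 49 (.thr 60 62 (.thr 51 54 (.thr 59 55 (.dbl 58 48 56)))))) (.rp 1 (.str 9 (.nv (.thr 42 0 (.thr 58 48 (.thr 62 60 (.thr 54 50 (.thr 52 55 (.dbl 22 2 7)))))) (.nv (.thr 57 49 (.thr 41 25 (.thr 60 62 (.thr 22 3 (.thr 52 7 (.dbl 54 51 55)))))) (.nv (.thr 57 49 (.thr 25 41 (.thr 42 0 (.thr 59 8 (.dbl 58 48 56))))) (.nv (.thr 57 49 (.thr 60 62 (.thr 51 54 (.thr 58 48 (.dbl 59 55 56))))) (.rp 49 (.thr 60 62 (.thr 48 58 (.thr 52 56 (.thr 22 7 (.thr 41 3 (.thr 57 25 (.dbl 54 51 55))))))) .nd)))))) .nd))))))) (.rp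 1 (.str 63 (.nv (.thr 42 0 (.thr 47 32 (.thr 15 31 (.thr 60 62 (.thr 45 30 (.thr 46 44 (.dbl 29 12 13))))))) (.nv (.thr 42 0 (.thr 47 32 (.thr 15 31 (.thr 49 57 (.thr 13 25 (.thr 12 14 (.dbl 29 45 46))))))) (.nv (.thr 57 49 (.thr 60 62 (.thr 51 54 (.thr 58 48 (.dbl 59 55 56))))) (.rp 48 (.thr 49 57 (.thr 13 25 (.thr 29 45 (.thr 12 46 (.thr 15 14 (.thr 47 31 (.dbl 42 0 32))))))) (.rp 13 (.str 9 (.nv (.thr 42 0 (.thr 58 48 (.thr 62 60 (.thr 54 50 (.thr 52 55 (.dbl 22 2 7)))))) (.nv (.thr 57 49 (.thr 41 25 (.thr 60 62 (.thr 22 3 (.thr 52 7 (.dbl 54 51 55)))))) (.nv (.thr 57 49 (.thr 25 41 (.thr 42 0 (.thr 59 8 (.dbl 58 48 56))))) (.nv (.thr 57 49 (.thr 60 62 (.thr 51 54 (.thr 58 48 (.dbl 59 55 56))))) (.rp 49 (.thr 60 62 (.thr 48 58 (.thr 52 56 (.thr 22 7 (.thr 41 3 (.thr 57 25 (.dbl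 54 51 55))))))) .nd)))))) (.rp 9 (.str 13 (.nv (.dbl 49 25 57) (.rp 57 (.thr 29 45 (.dbl 25 17 49)) (.rp 49 (.thr 29 45 (.thr 12 46 (.thr 15 14 (.thr 47 31 (.dbl 42 0 32))))) (.rp 25 (.thr 29 45 (.thr 12 46 (.thr 15 14 (.thr 47 31 (.dbl 42 0 32))))) .nd))))) .nd))))))) .nd)))))))))))

theorem w520 : WinAt (9007336695791616, 75497504) :=
  chF (K := []) kn c520 9007336695791616 75497504 5
    [] (by decide +kernel) (by decide +kernel)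

/-- A certificate. -/
noncomputable def c521 : Ct := (.str 25 (.nv (.thr 29 17 (.thr 13 49 (.thr 61 45 (.dbl 1 9 41)))) (.rp 61 (.thr 49 13 (.thr 29 17 (.str 38 (.nv (.thr 12 51 (.thr 63 46 (.thr 0 42 (.dbl 4 8 55)))) (.nv (.thr 36 39 (.thr 4 55 (.thr 7 6 (.dbl 52 20 22)))) (.rp 55 (.thr 12 51 (.thr 63 46 (.thr 0 42 (.thr 4 8 (.thr 36 39 (.thr 52 20 (.dbl 7 6 22))))))) (.rp 4 (.thr 51 12 (.thr 48 50 (.thr 39 36 (.thr 15 27 (.thr 0 10 (.thr 32 16 (.dbl 42 47 63))))))) .nd))))))) (.rp 49 (.thr 17 29 (.str 38 (.nv (.thr 51 12 (.thr 0 34 (.thr 15 10 (.dbl 39 27 36)))) (.nv (.thr 4 55 (.thr 36 39 (.thr 7 6 (.dbl 52 20 22)))) (.rp 61 (.str 57 (.nv (.thr 4 55 (.thr 9 41 (.thr 12 51 (.dbl 6 3 7)))) (.nv (.thr 51 12 (.thr 0 34 (.thr 15 10 (.dbl 39 27 36)))) (.nv (.thr 36 39 (.thr 4 55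 (.thr 7 6 (.dbl 52 20 22)))) (.rp 45 (.str 13 (.nv (.dbl 9 1 41) (.rp 41 (.thr 9 1 (.thr 12 51 (.thr 6 3 (.dbl 4 7 55)))) (.rp 9 (.thr 51 12 (.thr 54 60 (.thr 6 22 (.dbl 4 7 55)))) (.rp 1 (.thr 9 41 (.thr 12 51 (.thr 6 3 (.dbl 4 7 55)))) .nd))))) (.rp 13 (.str 45 (.nv (.dbl 41 9 33) (.rp 41 (.thr 51 12 (.thr 0 34 (.thr 60 54 (.dbl 15 10 30)))) (.rp 33 (.thr 9 41 (.thr 12 51 (.thr 6 3 (.dbl 4 7 55)))) (.rp 9 (.thr 51 12 (.thr 0 34 (.thr 60 54 (.dbl 15 10 30)))) .nd))))) .nd)))))) (.rp 57 (.str 61 (.nv (.thr 41 1 (.thr 33 45 (.thr 35 44 (.thr 34 32 (.dbl 51 0 12))))) (.nv (.thr 36 39 (.thr 4 55 (.thr 7 6 (.dbl 52 20 22)))) (.rp 36 (.thr 1 41 (.thr 9 13 (.thr 12 51 (.thr 6 3 (.dbl 4 7 55))))) .nd)))) (.rp 39 (.thr 55 4 (.thr 51 12 (.thr 0 34 (.dbl 63 42 59)))) (.rp 36 (.thr 4 55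 (.thr 6 7 (.thr 12 51 (.thr 9 3 (.thr 1 13 (.dbl 41 57 61)))))) .nd)))))))) (.rp 45 (.str 4 (.nv (.thr 13 49 (.thr 38 55 (.thr 12 51 (.thr 0 8 (.dbl 15 10 14))))) (.nv (.thr 6 7 (.thr 13 49 (.thr 9 1 (.thr 12 3 (.thr 0 8 (.dbl 15 10 14)))))) (.nv (.thr 7 6 (.thr 38 55 (.thr 36 39 (.dbl 52 20 22)))) .nd)))) (.rp 41 (.thr 17 29 (.str 7 (.nv (.thr 4 6 (.thr 13 49 (.thr 38 55 (.thr 12 51 (.thr 0 8 (.dbl 15 10 14)))))) (.nv (.thr 4 6 (.thr 38 55 (.thr 36 39 (.dbl 52 20 22)))) (.rp 56 (.str 11 (.nv (.thr 13 49 (.thr 9 1 (.thr 15 3 (.dbl 10 0 8)))) (.nv (.thr 4 6 (.thr 38 55 (.thr 36 39 (.dbl 52 20 22)))) (.rp 40 (.str 8 (.nv (.thr 42 59 (.thr 0 63 (.dbl 4 6 12))) (.nv (.thr 10 9 (.dbl 15 0 3)) (.rp 42 (.str 43 (.nv (.thr 4 6 (.thr 22 52 (.thr 55 38 (.dbl 23 20 39)))) (.nv (.thr 10 9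 (.dbl 15 0 3)) (.rp 10 (.str 58 (.nv (.thr 3 15 (.thr 4 6 (.thr 55 38 (.dbl 23 39 63)))) (.nv (.thr 3 15 (.thr 23 63 (.dbl 22 20 52))) (.nv (.thr 4 6 (.thr 38 55 (.dbl 12 0 51))) .nd)))) .nd)))) (.rp 0 (.thr 13 49 (.dbl 9 1 10)) .nd))))) (.rp 22 (.thr 13 49 (.thr 9 1 (.thr 3 15 (.dbl 6 4 12)))) (.rp 8 (.str 40 (.nv (.thr 15 3 (.thr 0 10 (.thr 20 60 (.dbl 22 23 52)))) (.nv (.thr 13 49 (.thr 9 1 (.thr 3 15 (.dbl 6 4 12)))) (.nv (.thr 4 6 (.thr 38 55 (.thr 36 39 (.dbl 52 20 22)))) .nd)))) .nd)))))) (.rp 55 (.thr 13 49 (.thr 9 1 (.thr 6 4 (.thr 12 3 (.thr 38 51 (.dbl 22 52 54)))))) (.rp 54 (.thr 4 6 (.thr 55 38 (.thr 22 52 (.dbl 23 20 39)))) (.rp 52 (.thr 13 49 (.thr 9 1 (.thr 6 4 (.thr 12 3 (.thr 51 38 (.thr 0 34 (.dbl 15 10 14))))))) (.rp 38 (.thr 13 49 (.thr 9 1 (.thr 6 4 (.thr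 3 12 (.thr 11 15 (.thr 22 52 (.thr 8 10 (.thr 42 59 (.thr 63 0 (.dbl 23 20 43)))))))))) (.rp 11 (.str 56 (.nv (.thr 4 6 (.thr 13 49 (.thr 38 55 (.thr 12 51 (.thr 0 8 (.dbl 15 10 14)))))) (.nv (.thr 4 6 (.thr 38 55 (.thr 36 39 (.dbl 52 20 22)))) (.rp 55 (.thr 13 49 (.thr 9 1 (.thr 6 4 (.thr 12 3 (.thr 38 51 (.dbl 22 52 54)))))) (.rp 54 (.thr 52 22 (.thr 4 6 (.thr 38 55 (.dbl 36 20 39)))) (.rp 52 (.thr 13 49 (.thr 9 1 (.thr 6 4 (.thr 12 3 (.thr 51 38 (.thr 0 34 (.dbl 15 10 14))))))) (.rp 38 (.thr 13 49 (.thr 9 1 (.thr 52 22 (.thr 6 4 (.thr 48 60 (.thr 3 12 (.thr 18 33 (.thr 16 19 (.thr 0 32 (.thr 34 51 (.thr 10 15 (.dbl 2 14 50)))))))))))) (.rp 6 (.thr 49 13 (.thr 33 1 (.thr 22 52 (.thr 20 23 (.thr 19 28 (.thr 18 16 (.thr 48 3 (.thr 51 50 (.thr 0 34 (.thr 15 10 (.thr 39 27 (.dbl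 38 12 36)))))))))))) (.rp 4 (.thr 49 13 (.thr 33 1 (.thr 22 52 (.thr 20 23 (.thr 19 28 (.thr 18 16 (.thr 48 3 (.thr 51 50 (.thr 38 12 (.thr 39 36 (.thr 15 27 (.dbl 0 10 34)))))))))))) .nd))))))))) (.rp 6 (.thr 49 13 (.thr 33 1 (.thr 22 52 (.thr 20 23 (.thr 19 28 (.thr 18 16 (.thr 3 48 (.thr 51 35 (.thr 0 34 (.dbl 15 10 11)))))))))) (.rp 4 (.thr 49 13 (.thr 33 1 (.thr 22 52 (.thr 20 23 (.thr 19 28 (.thr 18 16 (.thr 3 48 (.thr 51 35 (.thr 0 34 (.dbl 15 10 11)))))))))) .nd)))))))))))) (.rp 33 (.thr 29 17 (.thr 13 49 (.thr 1 9 (.dbl 61 41 45)))) (.rp 29 (.str 4 (.nv (.thr 13 49 (.thr 38 55 (.thr 12 51 (.thr 0 8 (.dbl 15 10 14))))) (.nv (.thr 6 7 (.thr 13 49 (.thr 9 1 (.thr 12 3 (.thr 0 8 (.dbl 15 10 14)))))) (.nv (.thr 7 6 (.thr 38 55 (.thr 36 39 (.dbl 52 20 22)))) .nd)))) (.rp 17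 (.str 0 (.nv (.thr 13 49 (.thr 1 9 (.thr 3 2 (.thr 63 42 (.thr 23 43 (.thr 22 20 (.dbl 41 60 61))))))) (.nv (.thr 15 10 (.thr 42 63 (.thr 8 59 (.thr 12 4 (.dbl 13 14 49))))) (.rp 63 (.thr 13 49 (.thr 15 10 (.thr 12 14 (.thr 4 8 (.dbl 38 51 55))))) (.rp 58 (.thr 13 49 (.thr 1 9 (.thr 3 2 (.thr 10 15 (.thr 63 42 (.thr 23 43 (.thr 22 20 (.dbl 41 60 61)))))))) (.rp 49 (.thr 10 15 (.thr 42 63 (.thr 8 59 (.thr 9 11 (.thr 1 13 (.dbl 41 57 61)))))) (.rp 42 (.thr 13 49 (.thr 1 9 (.thr 2 3 (.thr 10 15 (.thr 6 14 (.thr 7 4 (.thr 22 52 (.thr 20 23 (.thr 60 40 (.thr 28 19 (.thr 12 44 (.dbl 38 51 54)))))))))))) (.rp 13 (.thr 42 63 (.thr 8 59 (.thr 4 12 (.thr 7 6 (.thr 52 22 (.thr 36 20 (.dbl 38 39 55))))))) (.rp 10 (.thr 49 13 (.thr 42 63 (.thr 32 47 (.thr 48 16 (.thr 51 50 (.thr 8 59 (.dbl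 12 4 38))))))) .nd))))))))) (.rp 13 (.str 0 (.nv (.thr 17 29 (.thr 51 34 (.thr 12 38 (.thr 8 4 (.dbl 42 59 63))))) (.nv (.thr 17 29 (.thr 51 34 (.thr 15 10 (.thr 39 27 (.dbl 38 12 36))))) (.nv (.thr 29 17 (.thr 63 42 (.thr 12 46 (.thr 38 51 (.dbl 4 8 55))))) (.rp 51 (.thr 29 17 (.thr 10 15 (.thr 63 42 (.thr 12 46 (.thr 4 8 (.thr 6 7 (.thr 3 9 (.dbl 2 1 14)))))))) (.rp 42 (.thr 17 29 (.thr 51 34 (.thr 38 12 (.thr 4 55 (.thr 7 6 (.thr 52 22 (.dbl 36 20 39))))))) (.rp 38 (.thr 17 29 (.thr 34 51 (.thr 42 63 (.thr 32 47 (.thr 33 35 (.thr 1 49 (.dbl 41 45 61))))))) (.rp 29 (.thr 10 15 (.thr 42 63 (.thr 8 59 (.thr 12 4 (.thr 9 11 (.thr 41 57 (.thr 3 6 (.dbl 1 2 61)))))))) (.rp 17 (.thr 42 63 (.thr 8 59 (.thr 4 12 (.thr 7 6 (.thr 52 22 (.thr 36 20 (.dbl 38 39 55))))))) (.rp 12 (.thr 17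 29 (.thr 34 51 (.thr 42 63 (.thr 46 38 (.thr 32 47 (.thr 33 35 (.thr 1 49 (.dbl 41 45 61)))))))) .nd)))))))))) (.rp 9 (.str 4 (.nv (.thr 13 49 (.thr 38 55 (.thr 12 51 (.thr 0 8 (.dbl 15 10 14))))) (.nv (.thr 7 6 (.thr 38 55 (.thr 36 39 (.dbl 52 20 22)))) (.rp 55 (.thr 29 17 (.thr 7 6 (.thr 52 22 (.thr 36 20 (.thr 38 39 (.thr 12 51 (.thr 0 8 (.dbl 63 42 46)))))))) (.rp 54 (.thr 7 6 (.thr 52 22 (.thr 38 55 (.dbl 36 20 39)))) (.rp 52 (.thr 29 17 (.thr 6 7 (.thr 38 55 (.thr 54 22 (.thr 12 51 (.thr 0 8 (.dbl 63 42 46))))))) (.rp 38 (.thr 17 29 (.thr 49 13 (.thr 33 1 (.thr 7 6 (.thr 22 52 (.thr 20 23 (.thr 19 28 (.thr 18 16 (.thr 3 48 (.dbl 41 45 60)))))))))) (.rp 12 (.thr 38 55 (.thr 36 39 (.thr 52 20 (.dbl 7 6 22)))) .nd)))))))) (.rp 1 (.str 0 (.nv (.thr 17 29 (.thr 51 34 (.thr 12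 38 (.thr 8 4 (.dbl 42 59 63))))) (.nv (.thr 15 10 (.thr 42 63 (.thr 8 59 (.thr 12 4 (.dbl 13 14 49))))) (.nv (.thr 15 10 (.thr 17 29 (.thr 51 34 (.thr 39 27 (.dbl 38 12 36))))) (.rp 51 (.thr 13 49 (.thr 15 10 (.thr 12 14 (.thr 8 4 (.dbl 42 59 63))))) (.rp 42 (.thr 17 29 (.thr 49 13 (.thr 51 34 (.thr 38 12 (.thr 39 36 (.thr 48 50 (.dbl 15 10 27))))))) (.rp 12 (.thr 17 29 (.thr 49 13 (.thr 51 34 (.thr 48 50 (.thr 32 16 (.dbl 42 47 63)))))) .nd))))))) .nd))))))))))))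

theorem w521 : WinAt (137441050656, 9007199338627072) :=
  chF (K := []) kn c521 137441050656 9007199338627072 53
    [251658240] (by decide +kernel) (by decide +kernel)

/-- A certificate. -/
noncomputable def c522 : Ct := (.str 42 (.nv (.thr 0 63 (.thr 5 53 (.thr 15 10 (.thr 34 46 (.thr 39 36 (.dbl 51 17 27)))))) (.nv (.thr 0 63 (.thr 4 55 (.thr 12 8 (.thr 32 47 (.thr 48 16 (.dbl 36 24 39)))))) (.nv (.thr 39 36 (.thr 47 32 (.thr 35 43 (.thr 46 34 (.dbl 44 41 45))))) (.rp 39 (.thr 63 0 (.thr 47 32 (.thr 46 34 (.thr 45 44 (.thr 29 12 (.thr 61 13 (.dbl 41 1 33))))))) (.rp 36 (.thr 0 63 (.thr 32 47 (.thr 34 46 (.thr 33 35 (.thr 17 51 (.thr 1 49 (.dbl 41 45 61))))))) (.rp 30 (.str 18 (.nv (.thr 0 63 (.thr 4 55 (.thr 12 8 (.thr 32 47 (.thr 36 39 (.dbl 48 16 24)))))) (.nv (.thr 0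 63 (.thr 4 55 (.thr 5 53 (.thr 6 7 (.thr 34 46 (.thr 2 50 (.dbl 10 14 15))))))) (.nv (.thr 39 36 (.thr 47 32 (.thr 35 43 (.thr 46 34 (.dbl 44 41 45))))) (.rp 39 (.thr 0 63 (.thr 32 47 (.thr 48 16 (.thr 33 3 (.dbl 34 35 46))))) (.rp 28 (.str 19 (.nv (.thr 0 63 (.thr 34 46 (.thr 2 50 (.thr 3 1 (.dbl 51 17 35))))) (.nv (.thr 32 47 (.thr 16 17 (.dbl 0 48 63))) (.rp 63 (.thr 17 16 (.thr 32 47 (.thr 34 46 (.thr 35 33 (.dbl 51 0 3))))) (.rp 31 (.str 29 (.nv (.thr 0 63 (.thr 16 17 (.dbl 32 47 48))) (.nv (.thr 46 34 (.dbl 63 0 12)) (.rp 63 (.thr 34 46 (.thr 17 16 (.thr 51 0 (.thr 35 3 (.dbl 32 33 47))))) (.rp 27 (.str 24 (.nv (.thr 0 63 (.thr 16 17 (.dbl 32 47 48))) (.nv (.thr 46 34 (.dbl 63 0 12)) (.rp 63 (.thr 16 17 (.thr 36 39 (.thr 48 12 (.dbl 32 0 47)))) (.rp 0 (.thr 36 39 (.thr 46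 34 (.dbl 12 48 63))) .nd))))) (.rp 24 (.str 27 (.nv (.thr 16 17 (.thr 0 63 (.dbl 32 47 48))) (.nv (.thr 39 36 (.thr 47 32 (.thr 35 43 (.dbl 51 3 15)))) (.nv (.thr 46 34 (.dbl 63 0 12)) (.rp 16 (.str 20 (.nv (.thr 36 39 (.dbl 4 52 55)) (.nv (.thr 46 34 (.dbl 63 0 12)) .nd))) .nd))))) (.rp 0 (.thr 34 46 (.thr 32 47 (.thr 35 33 (.thr 36 39 (.dbl 44 40 41))))) .nd))))))) (.rp 29 (.str 31 (.nv (.thr 39 36 (.thr 55 4 (.dbl 23 7 27))) (.nv (.thr 47 32 (.dbl 63 0 15)) (.rp 27 (.str 24 (.nv (.thr 0 63 (.thr 17 16 (.dbl 34 46 51))) (.nv (.thr 47 32 (.dbl 63 0 15)) (.rp 63 (.thr 16 17 (.thr 36 39 (.thr 32 47 (.dbl 48 0 12)))) (.rp 0 (.thr 39 36 (.thr 47 32 (.thr 35 43 (.thr 46 34 (.dbl 44 41 45))))) .nd))))) (.rp 24 (.thr 27 23 (.thr 47 32 (.dbl 63 0 15))) .nd))))) (.rp 27 (.str 24 (.nv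 (.thr 0 63 (.thr 4 55 (.thr 12 8 (.dbl 36 39 48)))) (.nv (.thr 32 47 (.thr 16 17 (.dbl 0 48 63))) (.rp 63 (.thr 36 39 (.thr 32 47 (.thr 16 17 (.dbl 48 0 12)))) (.rp 48 (.thr 34 46 (.thr 17 16 (.dbl 0 51 63))) (.rp 31 (.str 29 (.nv (.thr 0 63 (.thr 16 17 (.dbl 32 47 48))) (.nv (.thr 46 34 (.dbl 63 0 12)) (.rp 63 (.thr 16 17 (.thr 36 39 (.thr 48 12 (.dbl 32 0 47)))) (.rp 0 (.thr 36 39 (.thr 46 34 (.dbl 12 48 63))) .nd))))) (.rp 29 (.str 31 (.nv (.thr 0 63 (.thr 17 16 (.dbl 34 46 51))) (.nv (.thr 47 32 (.dbl 63 0 15)) (.rp 63 (.thr 16 17 (.thr 36 39 (.thr 32 47 (.dbl 48 0 12)))) (.rp 0 (.thr 39 36 (.thr 47 32 (.thr 35 43 (.thr 46 34 (.dbl 44 41 45))))) .nd))))) (.rp 0 (.thr 36 39 (.thr 34 46 (.thr 32 47 (.thr 35 33 (.dbl 44 40 41))))) .nd)))))))) (.rp 24 (.str 27 (.nv (.thr 31 23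 (.thr 47 32 (.dbl 63 0 15))) (.nv (.thr 39 36 (.thr 55 4 (.dbl 23 7 31))) (.nv (.thr 16 17 (.thr 0 63 (.dbl 32 47 48))) (.rp 31 (.str 29 (.nv (.thr 16 17 (.thr 0 63 (.dbl 32 47 48))) (.nv (.thr 39 36 (.thr 47 32 (.thr 35 43 (.dbl 51 3 15)))) (.nv (.thr 46 34 (.dbl 63 0 12)) (.rp 16 (.str 20 (.nv (.thr 36 39 (.dbl 4 52 55)) (.nv (.thr 46 34 (.dbl 63 0 12)) .nd))) .nd))))) (.rp 16 (.str 20 (.nv (.thr 31 23 (.thr 47 32 (.dbl 63 0 15))) (.nv (.thr 36 39 (.dbl 4 52 55)) (.rp 31 (.str 29 (.nv (.thr 36 39 (.dbl 4 52 55)) (.nv (.thr 46 34 (.dbl 63 0 12)) .nd))) .nd)))) .nd)))))) (.rp 17 (.thr 39 36 (.thr 47 32 (.thr 35 43 (.thr 46 34 (.dbl 44 41 45))))) (.rp 0 (.thr 39 36 (.thr 47 32 (.thr 35 43 (.thr 46 34 (.dbl 44 41 45))))) .nd)))))))))) (.rp 27 (.str 24 (.nv (.thr 0 63 (.thr 4 55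 (.thr 12 8 (.dbl 36 39 48)))) (.nv (.thr 0 63 (.thr 32 47 (.thr 48 16 (.thr 33 3 (.dbl 34 35 46))))) (.nv (.thr 36 39 (.thr 12 48 (.thr 46 34 (.dbl 63 0 29)))) (.rp 63 (.thr 46 34 (.thr 47 32 (.thr 44 45 (.thr 39 36 (.dbl 35 41 43))))) (.rp 48 (.thr 46 34 (.thr 47 32 (.thr 44 45 (.thr 39 36 (.dbl 35 41 43))))) (.rp 28 (.str 19 (.nv (.thr 0 63 (.thr 4 55 (.thr 12 8 (.dbl 36 39 48)))) (.nv (.thr 32 47 (.thr 16 17 (.dbl 0 48 63))) (.rp 63 (.thr 36 39 (.thr 32 47 (.thr 16 17 (.dbl 48 0 12)))) (.rp 48 (.thr 34 46 (.thr 17 16 (.dbl 0 51 63))) (.rp 31 (.str 29 (.nv (.thr 0 63 (.thr 16 17 (.dbl 32 47 48))) (.nv (.thr 46 34 (.dbl 63 0 12)) (.rp 63 (.thr 16 17 (.thr 36 39 (.thr 48 12 (.dbl 32 0 47)))) (.rp 0 (.thr 36 39 (.thr 46 34 (.dbl 12 48 63))) .nd))))) (.rp 29 (.str 31 (.nv (.thr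 0 63 (.thr 17 16 (.dbl 34 46 51))) (.nv (.thr 47 32 (.dbl 63 0 15)) (.rp 63 (.thr 16 17 (.thr 36 39 (.thr 32 47 (.dbl 48 0 12)))) (.rp 0 (.thr 39 36 (.thr 47 32 (.thr 35 43 (.thr 46 34 (.dbl 44 41 45))))) .nd))))) (.rp 0 (.thr 36 39 (.thr 34 46 (.thr 32 47 (.thr 35 33 (.dbl 44 40 41))))) .nd)))))))) (.rp 19 (.str 28 (.nv (.thr 0 63 (.thr 32 47 (.thr 34 46 (.thr 48 16 (.dbl 33 3 35))))) (.nv (.thr 20 16 (.thr 4 55 (.dbl 36 39 52))) (.rp 31 (.str 23 (.nv (.thr 0 63 (.thr 16 20 (.dbl 32 47 48))) (.nv (.thr 39 36 (.dbl 55 4 7)) .nd))) (.rp 23 (.str 31 (.nv (.thr 4 55 (.thr 20 16 (.dbl 36 39 52))) (.nv (.thr 47 32 (.dbl 63 0 15)) .nd))) (.rp 16 (.thr 46 34 (.thr 63 0 (.thr 12 29 (.dbl 36 39 48)))) .nd)))))) (.rp 0 (.thr 46 34 (.thr 47 32 (.thr 44 45 (.thr 39 36 (.dbl 35 41 43)))))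 .nd))))))))) (.rp 24 (.str 27 (.nv (.thr 0 63 (.thr 32 47 (.thr 34 46 (.thr 17 51 (.dbl 16 19 48))))) (.nv (.thr 32 47 (.thr 34 46 (.thr 35 33 (.thr 36 39 (.dbl 44 40 41))))) (.nv (.thr 0 63 (.thr 5 53 (.thr 15 10 (.dbl 39 36 51)))) (.rp 28 (.str 19 (.nv (.thr 31 23 (.thr 47 32 (.dbl 63 0 15))) (.nv (.thr 39 36 (.thr 55 4 (.dbl 23 7 31))) (.nv (.thr 16 17 (.thr 0 63 (.dbl 32 47 48))) (.rp 31 (.str 29 (.nv (.thr 16 17 (.thr 0 63 (.dbl 32 47 48))) (.nv (.thr 39 36 (.thr 47 32 (.thr 35 43 (.dbl 51 3 15)))) (.nv (.thr 46 34 (.dbl 63 0 12)) (.rp 16 (.str 20 (.nv (.thr 36 39 (.dbl 4 52 55)) (.nv (.thr 46 34 (.dbl 63 0 12)) .nd))) .nd))))) (.rp 16 (.str 20 (.nv (.thr 31 23 (.thr 47 32 (.dbl 63 0 15))) (.nv (.thr 36 39 (.dbl 4 52 55)) (.rp 31 (.str 29 (.nv (.thr 36 39 (.dbl 4 52 55))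 (.nv (.thr 46 34 (.dbl 63 0 12)) .nd))) .nd)))) .nd)))))) (.rp 19 (.str 28 (.nv (.thr 0 63 (.thr 32 47 (.thr 34 46 (.thr 48 16 (.dbl 33 3 35))))) (.nv (.thr 32 47 (.thr 34 46 (.thr 35 33 (.thr 36 39 (.dbl 44 40 41))))) (.nv (.thr 63 0 (.thr 55 4 (.thr 51 59 (.dbl 39 15 36)))) .nd)))) .nd)))))) (.rp 19 (.str 28 (.nv (.thr 0 63 (.thr 32 47 (.thr 34 46 (.thr 48 16 (.dbl 33 3 35))))) (.nv (.thr 0 63 (.thr 4 55 (.thr 12 8 (.thr 36 39 (.thr 20 52 (.dbl 24 16 48)))))) (.nv (.thr 39 36 (.thr 46 34 (.thr 47 32 (.thr 35 43 (.dbl 44 41 45))))) (.rp 27 (.str 24 (.nv (.thr 0 63 (.thr 32 47 (.thr 34 46 (.thr 48 16 (.dbl 33 3 35))))) (.nv (.thr 20 16 (.thr 4 55 (.dbl 36 39 52))) (.rp 31 (.str 23 (.nv (.thr 0 63 (.thr 16 20 (.dbl 32 47 48))) (.nv (.thr 39 36 (.dbl 55 4 7)) .nd))) (.rp 23 (.str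 31 (.nv (.thr 4 55 (.thr 20 16 (.dbl 36 39 52))) (.nv (.thr 47 32 (.dbl 63 0 15)) .nd))) (.rp 16 (.thr 46 34 (.thr 63 0 (.thr 12 29 (.dbl 36 39 48)))) .nd)))))) (.rp 24 (.str 27 (.nv (.thr 0 63 (.thr 32 47 (.thr 34 46 (.thr 48 16 (.dbl 33 3 35))))) (.nv (.thr 32 47 (.thr 34 46 (.thr 35 33 (.thr 36 39 (.dbl 44 40 41))))) (.nv (.thr 63 0 (.thr 55 4 (.thr 51 59 (.dbl 39 15 36)))) .nd)))) .nd)))))) .nd))))))))) (.rp 28 (.str 19 (.nv (.thr 0 63 (.thr 34 46 (.thr 51 17 (.thr 35 3 (.thr 33 32 (.dbl 41 44 45)))))) (.nv (.thr 0 63 (.thr 4 55 (.thr 12 8 (.thr 32 47 (.thr 48 16 (.dbl 36 24 39)))))) (.nv (.thr 39 36 (.thr 47 32 (.thr 35 43 (.thr 46 34 (.dbl 44 41 45))))) (.rp 32 (.thr 39 36 (.thr 5 53 (.thr 0 63 (.thr 34 46 (.thr 51 17 (.dbl 15 10 27)))))) (.rp 30 (.str 18 (.nv (.thr 0 63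 (.thr 34 46 (.thr 2 50 (.thr 3 1 (.dbl 51 17 35))))) (.nv (.thr 32 47 (.thr 16 17 (.dbl 0 48 63))) (.rp 63 (.thr 17 16 (.thr 32 47 (.thr 34 46 (.thr 35 33 (.dbl 51 0 3))))) (.rp 31 (.str 29 (.nv (.thr 0 63 (.thr 16 17 (.dbl 32 47 48))) (.nv (.thr 46 34 (.dbl 63 0 12)) (.rp 63 (.thr 34 46 (.thr 17 16 (.thr 51 0 (.thr 35 3 (.dbl 32 33 47))))) (.rp 27 (.str 24 (.nv (.thr 0 63 (.thr 16 17 (.dbl 32 47 48))) (.nv (.thr 46 34 (.dbl 63 0 12)) (.rp 63 (.thr 16 17 (.thr 36 39 (.thr 48 12 (.dbl 32 0 47)))) (.rp 0 (.thr 36 39 (.thr 46 34 (.dbl 12 48 63))) .nd))))) (.rp 24 (.str 27 (.nv (.thr 16 17 (.thr 0 63 (.dbl 32 47 48))) (.nv (.thr 39 36 (.thr 47 32 (.thr 35 43 (.dbl 51 3 15)))) (.nv (.thr 46 34 (.dbl 63 0 12)) (.rp 16 (.str 20 (.nv (.thr 36 39 (.dbl 4 52 55)) (.nv (.thr 46 34 (.dbl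 63 0 12)) .nd))) .nd))))) (.rp 0 (.thr 34 46 (.thr 32 47 (.thr 35 33 (.thr 36 39 (.dbl 44 40 41))))) .nd))))))) (.rp 29 (.str 31 (.nv (.thr 39 36 (.thr 55 4 (.dbl 23 7 27))) (.nv (.thr 47 32 (.dbl 63 0 15)) (.rp 27 (.str 24 (.nv (.thr 0 63 (.thr 17 16 (.dbl 34 46 51))) (.nv (.thr 47 32 (.dbl 63 0 15)) (.rp 63 (.thr 16 17 (.thr 36 39 (.thr 32 47 (.dbl 48 0 12)))) (.rp 0 (.thr 39 36 (.thr 47 32 (.thr 35 43 (.thr 46 34 (.dbl 44 41 45))))) .nd))))) (.rp 24 (.thr 27 23 (.thr 47 32 (.dbl 63 0 15))) .nd))))) (.rp 27 (.str 24 (.nv (.thr 0 63 (.thr 4 55 (.thr 12 8 (.dbl 36 39 48)))) (.nv (.thr 32 47 (.thr 16 17 (.dbl 0 48 63))) (.rp 63 (.thr 36 39 (.thr 32 47 (.thr 16 17 (.dbl 48 0 12)))) (.rp 48 (.thr 34 46 (.thr 17 16 (.dbl 0 51 63))) (.rp 31 (.str 29 (.nv (.thr 0 63 (.thr 16 17 (.dbl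 32 47 48))) (.nv (.thr 46 34 (.dbl 63 0 12)) (.rp 63 (.thr 16 17 (.thr 36 39 (.thr 48 12 (.dbl 32 0 47)))) (.rp 0 (.thr 36 39 (.thr 46 34 (.dbl 12 48 63))) .nd))))) (.rp 29 (.str 31 (.nv (.thr 0 63 (.thr 17 16 (.dbl 34 46 51))) (.nv (.thr 47 32 (.dbl 63 0 15)) (.rp 63 (.thr 16 17 (.thr 36 39 (.thr 32 47 (.dbl 48 0 12)))) (.rp 0 (.thr 39 36 (.thr 47 32 (.thr 35 43 (.thr 46 34 (.dbl 44 41 45))))) .nd))))) (.rp 0 (.thr 36 39 (.thr 34 46 (.thr 32 47 (.thr 35 33 (.dbl 44 40 41))))) .nd)))))))) (.rp 24 (.str 27 (.nv (.thr 31 23 (.thr 47 32 (.dbl 63 0 15))) (.nv (.thr 39 36 (.thr 55 4 (.dbl 23 7 31))) (.nv (.thr 16 17 (.thr 0 63 (.dbl 32 47 48))) (.rp 31 (.str 29 (.nv (.thr 16 17 (.thr 0 63 (.dbl 32 47 48))) (.nv (.thr 39 36 (.thr 47 32 (.thr 35 43 (.dbl 51 3 15)))) (.nv (.thr 46 34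 (.dbl 63 0 12)) (.rp 16 (.str 20 (.nv (.thr 36 39 (.dbl 4 52 55)) (.nv (.thr 46 34 (.dbl 63 0 12)) .nd))) .nd))))) (.rp 16 (.str 20 (.nv (.thr 31 23 (.thr 47 32 (.dbl 63 0 15))) (.nv (.thr 36 39 (.dbl 4 52 55)) (.rp 31 (.str 29 (.nv (.thr 36 39 (.dbl 4 52 55)) (.nv (.thr 46 34 (.dbl 63 0 12)) .nd))) .nd)))) .nd)))))) (.rp 17 (.thr 39 36 (.thr 47 32 (.thr 35 43 (.thr 46 34 (.dbl 44 41 45))))) (.rp 0 (.thr 39 36 (.thr 47 32 (.thr 35 43 (.thr 46 34 (.dbl 44 41 45))))) .nd)))))))))) (.rp 27 (.str 24 (.nv (.thr 0 63 (.thr 34 46 (.thr 51 17 (.thr 35 3 (.dbl 32 33 47))))) (.nv (.thr 53 5 (.thr 63 0 (.thr 48 58 (.dbl 36 12 39)))) (.rp 63 (.thr 36 39 (.thr 34 46 (.thr 32 47 (.thr 35 33 (.dbl 44 40 41))))) (.rp 30 (.str 18 (.nv (.thr 0 63 (.thr 4 55 (.thr 12 8 (.dbl 36 39 48)))) (.nv (.thr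 32 47 (.thr 16 17 (.dbl 0 48 63))) (.rp 63 (.thr 36 39 (.thr 32 47 (.thr 16 17 (.dbl 48 0 12)))) (.rp 48 (.thr 34 46 (.thr 17 16 (.dbl 0 51 63))) (.rp 31 (.str 29 (.nv (.thr 0 63 (.thr 16 17 (.dbl 32 47 48))) (.nv (.thr 46 34 (.dbl 63 0 12)) (.rp 63 (.thr 16 17 (.thr 36 39 (.thr 48 12 (.dbl 32 0 47)))) (.rp 0 (.thr 36 39 (.thr 46 34 (.dbl 12 48 63))) .nd))))) (.rp 29 (.str 31 (.nv (.thr 0 63 (.thr 17 16 (.dbl 34 46 51))) (.nv (.thr 47 32 (.dbl 63 0 15)) (.rp 63 (.thr 16 17 (.thr 36 39 (.thr 32 47 (.dbl 48 0 12)))) (.rp 0 (.thr 39 36 (.thr 47 32 (.thr 35 43 (.thr 46 34 (.dbl 44 41 45))))) .nd))))) (.rp 0 (.thr 36 39 (.thr 34 46 (.thr 32 47 (.thr 35 33 (.dbl 44 40 41))))) .nd)))))))) (.rp 18 (.str 30 (.nv (.thr 0 63 (.thr 32 47 (.thr 34 46 (.thr 51 17 (.dbl 35 3 33))))) (.nv (.thr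 32 47 (.thr 34 46 (.thr 35 33 (.thr 44 41 (.dbl 36 39 40))))) (.nv (.thr 0 63 (.thr 4 55 (.thr 12 8 (.dbl 36 39 48)))) .nd)))) (.rp 12 (.thr 36 39 (.thr 34 46 (.thr 32 47 (.thr 35 33 (.dbl 44 40 41))))) (.rp 0 (.thr 36 39 (.thr 34 46 (.thr 32 47 (.thr 35 33 (.dbl 44 40 41))))) .nd)))))))) (.rp 24 (.str 27 (.nv (.thr 0 63 (.thr 5 53 (.thr 15 10 (.dbl 39 36 51)))) (.nv (.thr 55 4 (.thr 23 31 (.dbl 39 7 36))) (.nv (.thr 31 23 (.thr 47 32 (.dbl 63 0 15))) (.rp 30 (.str 18 (.nv (.thr 31 23 (.thr 47 32 (.dbl 63 0 15))) (.nv (.thr 39 36 (.thr 55 4 (.dbl 23 7 31))) (.nv (.thr 16 17 (.thr 0 63 (.dbl 32 47 48))) (.rp 31 (.str 29 (.nv (.thr 16 17 (.thr 0 63 (.dbl 32 47 48))) (.nv (.thr 39 36 (.thr 47 32 (.thr 35 43 (.dbl 51 3 15)))) (.nv (.thr 46 34 (.dbl 63 0 12)) (.rp 16 (.str 20 (.nv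 (.thr 36 39 (.dbl 4 52 55)) (.nv (.thr 46 34 (.dbl 63 0 12)) .nd))) .nd))))) (.rp 16 (.str 20 (.nv (.thr 31 23 (.thr 47 32 (.dbl 63 0 15))) (.nv (.thr 36 39 (.dbl 4 52 55)) (.rp 31 (.str 29 (.nv (.thr 36 39 (.dbl 4 52 55)) (.nv (.thr 46 34 (.dbl 63 0 12)) .nd))) .nd)))) .nd)))))) (.rp 20 (.str 16 (.nv (.thr 23 31 (.thr 55 4 (.dbl 39 7 36))) (.nv (.thr 0 63 (.dbl 32 47 48)) (.rp 30 (.thr 18 17 (.thr 0 63 (.dbl 32 47 48))) (.rp 18 (.str 30 (.nv (.thr 23 31 (.thr 55 4 (.dbl 39 7 36))) (.nv (.thr 32 47 (.dbl 0 48 63)) .nd))) .nd))))) (.rp 18 (.str 30 (.nv (.thr 0 63 (.thr 5 53 (.thr 15 10 (.thr 34 46 (.dbl 51 17 39))))) (.nv (.thr 23 31 (.thr 55 4 (.dbl 39 7 36))) (.rp 39 (.thr 31 23 (.thr 63 0 (.dbl 47 15 32))) (.rp 20 (.str 16 (.nv (.thr 23 31 (.thr 55 4 (.dbl 39 7 36))) (.nv (.thr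 32 47 (.dbl 0 48 63)) .nd))) (.rp 16 (.str 20 (.nv (.thr 31 23 (.thr 47 32 (.dbl 63 0 15))) (.nv (.thr 36 39 (.dbl 4 52 55)) .nd))) .nd)))))) (.rp 16 (.str 20 (.nv (.thr 31 23 (.thr 47 32 (.dbl 63 0 15))) (.nv (.thr 36 39 (.dbl 4 52 55)) (.rp 30 (.str 18 (.nv (.thr 31 23 (.thr 47 32 (.dbl 63 0 15))) (.nv (.thr 36 39 (.dbl 4 52 55)) (.rp 31 (.str 29 (.nv (.thr 36 39 (.dbl 4 52 55)) (.nv (.thr 46 34 (.dbl 63 0 12)) .nd))) .nd)))) (.rp 18 (.str 30 (.nv (.thr 31 23 (.thr 47 32 (.dbl 63 0 15))) (.nv (.thr 36 39 (.dbl 4 52 55)) .nd))) .nd))))) .nd)))))))) (.rp 18 (.str 30 (.nv (.thr 39 36 (.thr 55 4 (.thr 63 0 (.thr 51 59 (.thr 3 35 (.dbl 23 7 43)))))) (.nv (.thr 0 63 (.thr 4 55 (.thr 5 53 (.thr 12 8 (.thr 15 10 (.thr 14 13 (.dbl 46 34 62))))))) (.nv (.thr 32 47 (.thr 36 39 (.thr 34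 46 (.thr 44 40 (.dbl 35 33 41))))) (.rp 27 (.str 24 (.nv (.thr 0 63 (.thr 32 47 (.thr 34 46 (.thr 51 17 (.dbl 35 3 33))))) (.nv (.thr 32 47 (.thr 34 46 (.thr 35 33 (.thr 44 41 (.dbl 36 39 40))))) (.nv (.thr 0 63 (.thr 4 55 (.thr 12 8 (.dbl 36 39 48)))) .nd)))) (.rp 24 (.str 27 (.nv (.thr 0 63 (.thr 5 53 (.thr 15 10 (.thr 34 46 (.dbl 51 17 39))))) (.nv (.thr 23 31 (.thr 55 4 (.dbl 39 7 36))) (.rp 39 (.thr 31 23 (.thr 63 0 (.dbl 47 15 32))) (.rp 20 (.str 16 (.nv (.thr 23 31 (.thr 55 4 (.dbl 39 7 36))) (.nv (.thr 32 47 (.dbl 0 48 63)) .nd))) (.rp 16 (.str 20 (.nv (.thr 31 23 (.thr 47 32 (.dbl 63 0 15))) (.nv (.thr 36 39 (.dbl 4 52 55)) .nd))) .nd)))))) .nd)))))) .nd))))))))) (.rp 27 (.str 24 (.nv (.thr 0 63 (.thr 4 55 (.thr 12 8 (.thr 32 47 (.dbl 48 16 36))))) (.nv (.thr 32 47 (.thr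 34 46 (.thr 35 33 (.thr 44 41 (.dbl 36 39 40))))) (.nv (.thr 46 34 (.thr 63 0 (.thr 12 29 (.dbl 36 39 48)))) (.rp 36 (.thr 4 55 (.thr 0 63 (.thr 8 12 (.thr 40 56 (.thr 20 60 (.thr 32 47 (.dbl 16 28 48))))))) (.rp 30 (.str 18 (.nv (.thr 0 63 (.thr 4 55 (.thr 12 8 (.dbl 36 39 48)))) (.nv (.thr 0 63 (.thr 32 47 (.thr 48 16 (.thr 33 3 (.dbl 34 35 46))))) (.nv (.thr 36 39 (.thr 12 48 (.thr 46 34 (.dbl 63 0 29)))) (.rp 63 (.thr 46 34 (.thr 47 32 (.thr 44 45 (.thr 39 36 (.dbl 35 41 43))))) (.rp 48 (.thr 46 34 (.thr 47 32 (.thr 44 45 (.thr 39 36 (.dbl 35 41 43))))) (.rp 28 (.str 19 (.nv (.thr 0 63 (.thr 4 55 (.thr 12 8 (.dbl 36 39 48)))) (.nv (.thr 32 47 (.thr 16 17 (.dbl 0 48 63))) (.rp 63 (.thr 36 39 (.thr 32 47 (.thr 16 17 (.dbl 48 0 12)))) (.rp 48 (.thr 34 46 (.thr 17 16 (.dbl 0 51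 63))) (.rp 31 (.str 29 (.nv (.thr 0 63 (.thr 16 17 (.dbl 32 47 48))) (.nv (.thr 46 34 (.dbl 63 0 12)) (.rp 63 (.thr 16 17 (.thr 36 39 (.thr 48 12 (.dbl 32 0 47)))) (.rp 0 (.thr 36 39 (.thr 46 34 (.dbl 12 48 63))) .nd))))) (.rp 29 (.str 31 (.nv (.thr 0 63 (.thr 17 16 (.dbl 34 46 51))) (.nv (.thr 47 32 (.dbl 63 0 15)) (.rp 63 (.thr 16 17 (.thr 36 39 (.thr 32 47 (.dbl 48 0 12)))) (.rp 0 (.thr 39 36 (.thr 47 32 (.thr 35 43 (.thr 46 34 (.dbl 44 41 45))))) .nd))))) (.rp 0 (.thr 36 39 (.thr 34 46 (.thr 32 47 (.thr 35 33 (.dbl 44 40 41))))) .nd)))))))) (.rp 19 (.str 28 (.nv (.thr 0 63 (.thr 32 47 (.thr 34 46 (.thr 48 16 (.dbl 33 3 35))))) (.nv (.thr 20 16 (.thr 4 55 (.dbl 36 39 52))) (.rp 31 (.str 23 (.nv (.thr 0 63 (.thr 16 20 (.dbl 32 47 48))) (.nv (.thr 39 36 (.dbl 55 4 7)) .nd)))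 (.rp 23 (.str 31 (.nv (.thr 4 55 (.thr 20 16 (.dbl 36 39 52))) (.nv (.thr 47 32 (.dbl 63 0 15)) .nd))) (.rp 16 (.thr 46 34 (.thr 63 0 (.thr 12 29 (.dbl 36 39 48)))) .nd)))))) (.rp 0 (.thr 46 34 (.thr 47 32 (.thr 44 45 (.thr 39 36 (.dbl 35 41 43))))) .nd))))))))) (.rp 28 (.str 19 (.nv (.thr 0 63 (.thr 34 46 (.thr 51 17 (.thr 35 3 (.dbl 32 33 47))))) (.nv (.thr 53 5 (.thr 63 0 (.thr 48 58 (.dbl 36 12 39)))) (.rp 63 (.thr 36 39 (.thr 34 46 (.thr 32 47 (.thr 35 33 (.dbl 44 40 41))))) (.rp 30 (.str 18 (.nv (.thr 0 63 (.thr 4 55 (.thr 12 8 (.dbl 36 39 48)))) (.nv (.thr 32 47 (.thr 16 17 (.dbl 0 48 63))) (.rp 63 (.thr 36 39 (.thr 32 47 (.thr 16 17 (.dbl 48 0 12)))) (.rp 48 (.thr 34 46 (.thr 17 16 (.dbl 0 51 63))) (.rp 31 (.str 29 (.nv (.thr 0 63 (.thr 16 17 (.dbl 32 47 48))) (.nv (.thr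 46 34 (.dbl 63 0 12)) (.rp 63 (.thr 16 17 (.thr 36 39 (.thr 48 12 (.dbl 32 0 47)))) (.rp 0 (.thr 36 39 (.thr 46 34 (.dbl 12 48 63))) .nd))))) (.rp 29 (.str 31 (.nv (.thr 0 63 (.thr 17 16 (.dbl 34 46 51))) (.nv (.thr 47 32 (.dbl 63 0 15)) (.rp 63 (.thr 16 17 (.thr 36 39 (.thr 32 47 (.dbl 48 0 12)))) (.rp 0 (.thr 39 36 (.thr 47 32 (.thr 35 43 (.thr 46 34 (.dbl 44 41 45))))) .nd))))) (.rp 0 (.thr 36 39 (.thr 34 46 (.thr 32 47 (.thr 35 33 (.dbl 44 40 41))))) .nd)))))))) (.rp 18 (.str 30 (.nv (.thr 0 63 (.thr 32 47 (.thr 34 46 (.thr 51 17 (.dbl 35 3 33))))) (.nv (.thr 32 47 (.thr 34 46 (.thr 35 33 (.thr 44 41 (.dbl 36 39 40))))) (.nv (.thr 0 63 (.thr 4 55 (.thr 12 8 (.dbl 36 39 48)))) .nd)))) (.rp 12 (.thr 36 39 (.thr 34 46 (.thr 32 47 (.thr 35 33 (.dbl 44 40 41))))) (.rp 0 (.thr 36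 39 (.thr 34 46 (.thr 32 47 (.thr 35 33 (.dbl 44 40 41))))) .nd)))))))) (.rp 19 (.str 28 (.nv (.thr 0 63 (.thr 4 55 (.thr 12 8 (.dbl 36 39 48)))) (.nv (.thr 4 55 (.thr 20 16 (.dbl 36 39 52))) (.nv (.thr 16 20 (.thr 32 47 (.dbl 0 48 63))) (.rp 31 (.str 23 (.nv (.thr 0 63 (.thr 16 20 (.dbl 32 47 48))) (.nv (.thr 39 36 (.dbl 55 4 7)) (.rp 30 (.str 18 (.nv (.thr 0 63 (.thr 16 20 (.dbl 32 47 48))) (.nv (.thr 39 36 (.dbl 55 4 7)) .nd))) (.rp 18 (.str 30 (.nv (.thr 16 20 (.thr 0 63 (.dbl 32 47 48))) (.nv (.thr 39 36 (.dbl 55 4 7)) (.rp 16 (.str 17 (.nv (.thr 39 36 (.dbl 55 4 7)) (.nv (.thr 34 46 (.dbl 0 51 63)) .nd))) .nd)))) .nd))))) (.rp 30 (.str 18 (.nv (.thr 0 63 (.thr 32 47 (.thr 34 46 (.thr 48 16 (.dbl 33 3 35))))) (.nv (.thr 20 16 (.thr 4 55 (.dbl 36 39 52))) (.rp 31 (.str 23 (.nv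 (.thr 0 63 (.thr 16 20 (.dbl 32 47 48))) (.nv (.thr 39 36 (.dbl 55 4 7)) .nd))) (.rp 23 (.str 31 (.nv (.thr 4 55 (.thr 20 16 (.dbl 36 39 52))) (.nv (.thr 47 32 (.dbl 63 0 15)) .nd))) (.rp 16 (.thr 46 34 (.thr 63 0 (.thr 12 29 (.dbl 36 39 48)))) .nd)))))) (.rp 23 (.str 31 (.nv (.thr 4 55 (.thr 20 16 (.dbl 36 39 52))) (.nv (.thr 63 0 (.dbl 47 15 32)) (.rp 30 (.str 18 (.nv (.thr 4 55 (.thr 20 16 (.dbl 36 39 52))) (.nv (.thr 47 32 (.dbl 63 0 15)) .nd))) (.rp 18 (.thr 30 29 (.thr 63 0 (.dbl 47 15 32))) .nd))))) (.rp 18 (.str 30 (.nv (.thr 16 20 (.thr 32 47 (.dbl 0 48 63))) (.nv (.thr 4 55 (.thr 36 39 (.dbl 20 16 52))) (.nv (.thr 31 29 (.thr 63 0 (.dbl 47 15 32))) (.rp 31 (.str 23 (.nv (.thr 16 20 (.thr 0 63 (.dbl 32 47 48))) (.nv (.thr 39 36 (.dbl 55 4 7)) (.rp 16 (.str 17 (.nv (.thr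 39 36 (.dbl 55 4 7)) (.nv (.thr 34 46 (.dbl 0 51 63)) .nd))) .nd)))) (.rp 16 (.str 17 (.nv (.thr 31 29 (.thr 47 32 (.dbl 63 0 15))) (.nv (.thr 32 47 (.thr 36 39 (.thr 12 48 (.dbl 44 40 60)))) (.nv (.thr 34 46 (.dbl 0 51 63)) (.rp 31 (.str 23 (.nv (.thr 39 36 (.dbl 55 4 7)) (.nv (.thr 34 46 (.dbl 0 51 63)) .nd))) .nd))))) .nd)))))) .nd)))))))) (.rp 18 (.str 30 (.nv (.thr 0 63 (.thr 32 47 (.thr 48 16 (.thr 12 36 (.dbl 4 8 55))))) (.nv (.thr 32 47 (.thr 34 46 (.thr 36 39 (.thr 44 40 (.dbl 35 33 41))))) (.nv (.thr 0 63 (.thr 4 55 (.thr 12 8 (.dbl 36 39 48)))) (.rp 36 (.thr 63 0 (.thr 47 32 (.thr 15 31 (.thr 45 60 (.dbl 46 34 44))))) (.rp 28 (.str 19 (.nv (.thr 0 63 (.thr 32 47 (.thr 34 46 (.thr 51 17 (.dbl 35 3 33))))) (.nv (.thr 32 47 (.thr 34 46 (.thr 35 33 (.thr 44 41 (.dbl 36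 39 40))))) (.nv (.thr 0 63 (.thr 4 55 (.thr 12 8 (.dbl 36 39 48)))) .nd)))) (.rp 19 (.str 28 (.nv (.thr 16 20 (.thr 32 47 (.dbl 0 48 63))) (.nv (.thr 4 55 (.thr 36 39 (.dbl 20 16 52))) (.nv (.thr 31 29 (.thr 63 0 (.dbl 47 15 32))) (.rp 31 (.str 23 (.nv (.thr 16 20 (.thr 0 63 (.dbl 32 47 48))) (.nv (.thr 39 36 (.dbl 55 4 7)) (.rp 16 (.str 17 (.nv (.thr 39 36 (.dbl 55 4 7)) (.nv (.thr 34 46 (.dbl 0 51 63)) .nd))) .nd)))) (.rp 16 (.str 17 (.nv (.thr 31 29 (.thr 47 32 (.dbl 63 0 15))) (.nv (.thr 32 47 (.thr 36 39 (.thr 12 48 (.dbl 44 40 60)))) (.nv (.thr 34 46 (.dbl 0 51 63)) (.rp 31 (.str 23 (.nv (.thr 39 36 (.dbl 55 4 7)) (.nv (.thr 34 46 (.dbl 0 51 63)) .nd))) .nd))))) .nd)))))) .nd))))))) .nd))))))))) (.rp 24 (.str 27 (.nv (.thr 0 63 (.thr 5 53 (.thr 15 10 (.dbl 39 36 51)))) (.nv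 (.thr 32 47 (.thr 34 46 (.thr 35 33 (.thr 36 39 (.dbl 44 40 41))))) (.nv (.thr 34 46 (.thr 0 63 (.thr 51 17 (.dbl 39 15 36)))) (.rp 39 (.thr 55 4 (.thr 63 0 (.thr 59 51 (.thr 43 11 (.thr 23 3 (.thr 47 32 (.dbl 31 15 19))))))) (.rp 36 (.thr 5 53 (.thr 0 63 (.thr 15 10 (.thr 51 39 (.dbl 34 17 46))))) (.rp 30 (.str 18 (.nv (.thr 0 63 (.thr 32 47 (.thr 34 46 (.thr 17 51 (.dbl 16 19 48))))) (.nv (.thr 32 47 (.thr 34 46 (.thr 35 33 (.thr 36 39 (.dbl 44 40 41))))) (.nv (.thr 0 63 (.thr 5 53 (.thr 15 10 (.dbl 39 36 51)))) (.rp 28 (.str 19 (.nv (.thr 31 23 (.thr 47 32 (.dbl 63 0 15))) (.nv (.thr 39 36 (.thr 55 4 (.dbl 23 7 31))) (.nv (.thr 16 17 (.thr 0 63 (.dbl 32 47 48))) (.rp 31 (.str 29 (.nv (.thr 16 17 (.thr 0 63 (.dbl 32 47 48))) (.nv (.thr 39 36 (.thr 47 32 (.thr 35 43 (.dbl 51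 3 15)))) (.nv (.thr 46 34 (.dbl 63 0 12)) (.rp 16 (.str 20 (.nv (.thr 36 39 (.dbl 4 52 55)) (.nv (.thr 46 34 (.dbl 63 0 12)) .nd))) .nd))))) (.rp 16 (.str 20 (.nv (.thr 31 23 (.thr 47 32 (.dbl 63 0 15))) (.nv (.thr 36 39 (.dbl 4 52 55)) (.rp 31 (.str 29 (.nv (.thr 36 39 (.dbl 4 52 55)) (.nv (.thr 46 34 (.dbl 63 0 12)) .nd))) .nd)))) .nd)))))) (.rp 19 (.str 28 (.nv (.thr 0 63 (.thr 32 47 (.thr 34 46 (.thr 48 16 (.dbl 33 3 35))))) (.nv (.thr 32 47 (.thr 34 46 (.thr 35 33 (.thr 36 39 (.dbl 44 40 41))))) (.nv (.thr 63 0 (.thr 55 4 (.thr 51 59 (.dbl 39 15 36)))) .nd)))) .nd)))))) (.rp 28 (.str 19 (.nv (.thr 0 63 (.thr 5 53 (.thr 15 10 (.dbl 39 36 51)))) (.nv (.thr 55 4 (.thr 23 31 (.dbl 39 7 36))) (.nv (.thr 31 23 (.thr 47 32 (.dbl 63 0 15))) (.rp 30 (.str 18 (.nv (.thr 31 23 (.thr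 47 32 (.dbl 63 0 15))) (.nv (.thr 39 36 (.thr 55 4 (.dbl 23 7 31))) (.nv (.thr 16 17 (.thr 0 63 (.dbl 32 47 48))) (.rp 31 (.str 29 (.nv (.thr 16 17 (.thr 0 63 (.dbl 32 47 48))) (.nv (.thr 39 36 (.thr 47 32 (.thr 35 43 (.dbl 51 3 15)))) (.nv (.thr 46 34 (.dbl 63 0 12)) (.rp 16 (.str 20 (.nv (.thr 36 39 (.dbl 4 52 55)) (.nv (.thr 46 34 (.dbl 63 0 12)) .nd))) .nd))))) (.rp 16 (.str 20 (.nv (.thr 31 23 (.thr 47 32 (.dbl 63 0 15))) (.nv (.thr 36 39 (.dbl 4 52 55)) (.rp 31 (.str 29 (.nv (.thr 36 39 (.dbl 4 52 55)) (.nv (.thr 46 34 (.dbl 63 0 12)) .nd))) .nd)))) .nd)))))) (.rp 20 (.str 16 (.nv (.thr 23 31 (.thr 55 4 (.dbl 39 7 36))) (.nv (.thr 0 63 (.dbl 32 47 48)) (.rp 30 (.thr 18 17 (.thr 0 63 (.dbl 32 47 48))) (.rp 18 (.str 30 (.nv (.thr 23 31 (.thr 55 4 (.dbl 39 7 36))) (.nv (.thr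 32 47 (.dbl 0 48 63)) .nd))) .nd))))) (.rp 18 (.str 30 (.nv (.thr 0 63 (.thr 5 53 (.thr 15 10 (.thr 34 46 (.dbl 51 17 39))))) (.nv (.thr 23 31 (.thr 55 4 (.dbl 39 7 36))) (.rp 39 (.thr 31 23 (.thr 63 0 (.dbl 47 15 32))) (.rp 20 (.str 16 (.nv (.thr 23 31 (.thr 55 4 (.dbl 39 7 36))) (.nv (.thr 32 47 (.dbl 0 48 63)) .nd))) (.rp 16 (.str 20 (.nv (.thr 31 23 (.thr 47 32 (.dbl 63 0 15))) (.nv (.thr 36 39 (.dbl 4 52 55)) .nd))) .nd)))))) (.rp 16 (.str 20 (.nv (.thr 31 23 (.thr 47 32 (.dbl 63 0 15))) (.nv (.thr 36 39 (.dbl 4 52 55)) (.rp 30 (.str 18 (.nv (.thr 31 23 (.thr 47 32 (.dbl 63 0 15))) (.nv (.thr 36 39 (.dbl 4 52 55)) (.rp 31 (.str 29 (.nv (.thr 36 39 (.dbl 4 52 55)) (.nv (.thr 46 34 (.dbl 63 0 12)) .nd))) .nd)))) (.rp 18 (.str 30 (.nv (.thr 31 23 (.thr 47 32 (.dbl 63 0 15)))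 (.nv (.thr 36 39 (.dbl 4 52 55)) .nd))) .nd))))) .nd)))))))) (.rp 19 (.str 28 (.nv (.thr 0 63 (.thr 4 55 (.thr 12 8 (.thr 44 60 (.thr 46 34 (.dbl 47 32 45)))))) (.nv (.thr 32 47 (.thr 34 46 (.thr 35 33 (.thr 36 39 (.dbl 44 40 41))))) (.nv (.thr 5 53 (.thr 0 63 (.thr 15 10 (.dbl 39 36 51)))) (.rp 30 (.str 18 (.nv (.thr 0 63 (.thr 32 47 (.thr 34 46 (.thr 48 16 (.dbl 33 3 35))))) (.nv (.thr 32 47 (.thr 34 46 (.thr 35 33 (.thr 36 39 (.dbl 44 40 41))))) (.nv (.thr 63 0 (.thr 55 4 (.thr 51 59 (.dbl 39 15 36)))) .nd)))) (.rp 18 (.str 30 (.nv (.thr 0 63 (.thr 5 53 (.thr 15 10 (.dbl 39 36 51)))) (.nv (.thr 47 32 (.thr 31 29 (.dbl 63 0 15))) (.rp 63 (.thr 39 36 (.thr 46 34 (.thr 47 32 (.thr 44 45 (.dbl 35 41 43))))) (.rp 17 (.str 16 (.nv (.thr 29 31 (.thr 46 34 (.dbl 63 0 12))) (.nv (.thr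 32 47 (.dbl 0 48 63)) (.rp 63 (.thr 36 39 (.thr 32 47 (.thr 44 40 (.thr 34 46 (.dbl 35 33 41))))) (.rp 0 (.thr 31 29 (.thr 39 36 (.thr 47 32 (.dbl 15 51 63)))) .nd))))) (.rp 16 (.str 17 (.nv (.thr 31 29 (.thr 47 32 (.dbl 63 0 15))) (.nv (.thr 34 46 (.dbl 0 51 63)) (.rp 63 (.thr 39 36 (.thr 34 46 (.dbl 51 0 15))) (.rp 0 (.thr 31 29 (.thr 39 36 (.thr 15 51 (.dbl 47 32 63)))) .nd))))) (.rp 15 (.thr 46 34 (.thr 29 31 (.dbl 63 0 12))) (.rp 0 (.thr 39 36 (.thr 47 32 (.thr 31 29 (.dbl 15 51 63)))) .nd)))))))) .nd)))))) (.rp 18 (.str 30 (.nv (.thr 0 63 (.thr 5 53 (.thr 15 10 (.thr 45 60 (.thr 46 34 (.dbl 47 32 44)))))) (.nv (.thr 0 63 (.thr 5 53 (.thr 15 10 (.dbl 39 36 51)))) (.nv (.thr 32 47 (.thr 34 46 (.thr 36 39 (.thr 44 40 (.dbl 35 33 41))))) (.nv (.thr 39 36 (.thr 51 15 (.thr 34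 46 (.dbl 0 17 63)))) (.rp 28 (.str 19 (.nv (.thr 0 63 (.thr 5 53 (.thr 15 10 (.thr 34 46 (.dbl 51 17 39))))) (.nv (.thr 23 31 (.thr 55 4 (.dbl 39 7 36))) (.rp 39 (.thr 31 23 (.thr 63 0 (.dbl 47 15 32))) (.rp 20 (.str 16 (.nv (.thr 23 31 (.thr 55 4 (.dbl 39 7 36))) (.nv (.thr 32 47 (.dbl 0 48 63)) .nd))) (.rp 16 (.str 20 (.nv (.thr 31 23 (.thr 47 32 (.dbl 63 0 15))) (.nv (.thr 36 39 (.dbl 4 52 55)) .nd))) .nd)))))) (.rp 19 (.str 28 (.nv (.thr 0 63 (.thr 5 53 (.thr 15 10 (.dbl 39 36 51)))) (.nv (.thr 47 32 (.thr 31 29 (.dbl 63 0 15))) (.rp 63 (.thr 39 36 (.thr 46 34 (.thr 47 32 (.thr 44 45 (.dbl 35 41 43))))) (.rp 17 (.str 16 (.nv (.thr 29 31 (.thr 46 34 (.dbl 63 0 12))) (.nv (.thr 32 47 (.dbl 0 48 63)) (.rp 63 (.thr 36 39 (.thr 32 47 (.thr 44 40 (.thr 34 46 (.dbl 35 33 41)))))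 (.rp 0 (.thr 31 29 (.thr 39 36 (.thr 47 32 (.dbl 15 51 63)))) .nd))))) (.rp 16 (.str 17 (.nv (.thr 31 29 (.thr 47 32 (.dbl 63 0 15))) (.nv (.thr 34 46 (.dbl 0 51 63)) (.rp 63 (.thr 39 36 (.thr 34 46 (.dbl 51 0 15))) (.rp 0 (.thr 31 29 (.thr 39 36 (.thr 15 51 (.dbl 47 32 63)))) .nd))))) (.rp 15 (.thr 46 34 (.thr 29 31 (.dbl 63 0 12))) (.rp 0 (.thr 39 36 (.thr 47 32 (.thr 31 29 (.dbl 15 51 63)))) .nd)))))))) .nd))))))) .nd)))))))))) (.rp 19 (.str 28 (.nv (.thr 46 34 (.thr 47 32 (.thr 44 45 (.thr 12 60 (.dbl 63 0 29))))) (.nv (.thr 0 63 (.thr 4 55 (.thr 12 8 (.thr 36 39 (.thr 20 52 (.dbl 24 16 48)))))) (.nv (.thr 36 39 (.thr 32 47 (.thr 44 40 (.thr 34 46 (.dbl 35 33 41))))) (.rp 30 (.str 18 (.nv (.thr 0 63 (.thr 32 47 (.thr 34 46 (.thr 48 16 (.dbl 33 3 35))))) (.nv (.thr 0 63 (.thr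 4 55 (.thr 12 8 (.thr 36 39 (.thr 20 52 (.dbl 24 16 48)))))) (.nv (.thr 39 36 (.thr 46 34 (.thr 47 32 (.thr 35 43 (.dbl 44 41 45))))) (.rp 27 (.str 24 (.nv (.thr 0 63 (.thr 32 47 (.thr 34 46 (.thr 48 16 (.dbl 33 3 35))))) (.nv (.thr 20 16 (.thr 4 55 (.dbl 36 39 52))) (.rp 31 (.str 23 (.nv (.thr 0 63 (.thr 16 20 (.dbl 32 47 48))) (.nv (.thr 39 36 (.dbl 55 4 7)) .nd))) (.rp 23 (.str 31 (.nv (.thr 4 55 (.thr 20 16 (.dbl 36 39 52))) (.nv (.thr 47 32 (.dbl 63 0 15)) .nd))) (.rp 16 (.thr 46 34 (.thr 63 0 (.thr 12 29 (.dbl 36 39 48)))) .nd)))))) (.rp 24 (.str 27 (.nv (.thr 0 63 (.thr 32 47 (.thr 34 46 (.thr 48 16 (.dbl 33 3 35))))) (.nv (.thr 32 47 (.thr 34 46 (.thr 35 33 (.thr 36 39 (.dbl 44 40 41))))) (.nv (.thr 63 0 (.thr 55 4 (.thr 51 59 (.dbl 39 15 36)))) .nd)))) .nd)))))) (.rp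 27 (.str 24 (.nv (.thr 0 63 (.thr 4 55 (.thr 12 8 (.dbl 36 39 48)))) (.nv (.thr 4 55 (.thr 20 16 (.dbl 36 39 52))) (.nv (.thr 16 20 (.thr 32 47 (.dbl 0 48 63))) (.rp 31 (.str 23 (.nv (.thr 0 63 (.thr 16 20 (.dbl 32 47 48))) (.nv (.thr 39 36 (.dbl 55 4 7)) (.rp 30 (.str 18 (.nv (.thr 0 63 (.thr 16 20 (.dbl 32 47 48))) (.nv (.thr 39 36 (.dbl 55 4 7)) .nd))) (.rp 18 (.str 30 (.nv (.thr 16 20 (.thr 0 63 (.dbl 32 47 48))) (.nv (.thr 39 36 (.dbl 55 4 7)) (.rp 16 (.str 17 (.nv (.thr 39 36 (.dbl 55 4 7)) (.nv (.thr 34 46 (.dbl 0 51 63)) .nd))) .nd)))) .nd))))) (.rp 30 (.str 18 (.nv (.thr 0 63 (.thr 32 47 (.thr 34 46 (.thr 48 16 (.dbl 33 3 35))))) (.nv (.thr 20 16 (.thr 4 55 (.dbl 36 39 52))) (.rp 31 (.str 23 (.nv (.thr 0 63 (.thr 16 20 (.dbl 32 47 48))) (.nv (.thr 39 36 (.dbl 55 4 7))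 .nd))) (.rp 23 (.str 31 (.nv (.thr 4 55 (.thr 20 16 (.dbl 36 39 52))) (.nv (.thr 47 32 (.dbl 63 0 15)) .nd))) (.rp 16 (.thr 46 34 (.thr 63 0 (.thr 12 29 (.dbl 36 39 48)))) .nd)))))) (.rp 23 (.str 31 (.nv (.thr 4 55 (.thr 20 16 (.dbl 36 39 52))) (.nv (.thr 63 0 (.dbl 47 15 32)) (.rp 30 (.str 18 (.nv (.thr 4 55 (.thr 20 16 (.dbl 36 39 52))) (.nv (.thr 47 32 (.dbl 63 0 15)) .nd))) (.rp 18 (.thr 30 29 (.thr 63 0 (.dbl 47 15 32))) .nd))))) (.rp 18 (.str 30 (.nv (.thr 16 20 (.thr 32 47 (.dbl 0 48 63))) (.nv (.thr 4 55 (.thr 36 39 (.dbl 20 16 52))) (.nv (.thr 31 29 (.thr 63 0 (.dbl 47 15 32))) (.rp 31 (.str 23 (.nv (.thr 16 20 (.thr 0 63 (.dbl 32 47 48))) (.nv (.thr 39 36 (.dbl 55 4 7)) (.rp 16 (.str 17 (.nv (.thr 39 36 (.dbl 55 4 7)) (.nv (.thr 34 46 (.dbl 0 51 63)) .nd))) .nd)))) (.rp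 16 (.str 17 (.nv (.thr 31 29 (.thr 47 32 (.dbl 63 0 15))) (.nv (.thr 32 47 (.thr 36 39 (.thr 12 48 (.dbl 44 40 60)))) (.nv (.thr 34 46 (.dbl 0 51 63)) (.rp 31 (.str 23 (.nv (.thr 39 36 (.dbl 55 4 7)) (.nv (.thr 34 46 (.dbl 0 51 63)) .nd))) .nd))))) .nd)))))) .nd)))))))) (.rp 24 (.str 27 (.nv (.thr 0 63 (.thr 4 55 (.thr 12 8 (.thr 44 60 (.thr 46 34 (.dbl 47 32 45)))))) (.nv (.thr 32 47 (.thr 34 46 (.thr 35 33 (.thr 36 39 (.dbl 44 40 41))))) (.nv (.thr 5 53 (.thr 0 63 (.thr 15 10 (.dbl 39 36 51)))) (.rp 30 (.str 18 (.nv (.thr 0 63 (.thr 32 47 (.thr 34 46 (.thr 48 16 (.dbl 33 3 35))))) (.nv (.thr 32 47 (.thr 34 46 (.thr 35 33 (.thr 36 39 (.dbl 44 40 41))))) (.nv (.thr 63 0 (.thr 55 4 (.thr 51 59 (.dbl 39 15 36)))) .nd)))) (.rp 18 (.str 30 (.nv (.thr 0 63 (.thr 5 53 (.thr 15 10 (.dbl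 39 36 51)))) (.nv (.thr 47 32 (.thr 31 29 (.dbl 63 0 15))) (.rp 63 (.thr 39 36 (.thr 46 34 (.thr 47 32 (.thr 44 45 (.dbl 35 41 43))))) (.rp 17 (.str 16 (.nv (.thr 29 31 (.thr 46 34 (.dbl 63 0 12))) (.nv (.thr 32 47 (.dbl 0 48 63)) (.rp 63 (.thr 36 39 (.thr 32 47 (.thr 44 40 (.thr 34 46 (.dbl 35 33 41))))) (.rp 0 (.thr 31 29 (.thr 39 36 (.thr 47 32 (.dbl 15 51 63)))) .nd))))) (.rp 16 (.str 17 (.nv (.thr 31 29 (.thr 47 32 (.dbl 63 0 15))) (.nv (.thr 34 46 (.dbl 0 51 63)) (.rp 63 (.thr 39 36 (.thr 34 46 (.dbl 51 0 15))) (.rp 0 (.thr 31 29 (.thr 39 36 (.thr 15 51 (.dbl 47 32 63)))) .nd))))) (.rp 15 (.thr 46 34 (.thr 29 31 (.dbl 63 0 12))) (.rp 0 (.thr 39 36 (.thr 47 32 (.thr 31 29 (.dbl 15 51 63)))) .nd)))))))) .nd)))))) (.rp 18 (.str 30 (.nv (.thr 29 31 (.thr 46 34 (.dbl 63 0 12)))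 (.nv (.thr 47 32 (.thr 31 29 (.dbl 63 0 15))) (.rp 63 (.thr 36 39 (.thr 32 47 (.thr 44 40 (.thr 34 46 (.dbl 35 33 41))))) (.rp 31 (.thr 36 39 (.thr 32 47 (.thr 44 40 (.thr 34 46 (.dbl 35 33 41))))) (.rp 29 (.thr 36 39 (.thr 32 47 (.thr 44 40 (.thr 34 46 (.dbl 35 33 41))))) (.rp 27 (.str 24 (.nv (.thr 16 20 (.thr 32 47 (.dbl 0 48 63))) (.nv (.thr 4 55 (.thr 36 39 (.dbl 20 16 52))) (.nv (.thr 31 29 (.thr 63 0 (.dbl 47 15 32))) (.rp 31 (.str 23 (.nv (.thr 16 20 (.thr 0 63 (.dbl 32 47 48))) (.nv (.thr 39 36 (.dbl 55 4 7)) (.rp 16 (.str 17 (.nv (.thr 39 36 (.dbl 55 4 7)) (.nv (.thr 34 46 (.dbl 0 51 63)) .nd))) .nd)))) (.rp 16 (.str 17 (.nv (.thr 31 29 (.thr 47 32 (.dbl 63 0 15))) (.nv (.thr 32 47 (.thr 36 39 (.thr 12 48 (.dbl 44 40 60)))) (.nv (.thr 34 46 (.dbl 0 51 63)) (.rp 31 (.str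 23 (.nv (.thr 39 36 (.dbl 55 4 7)) (.nv (.thr 34 46 (.dbl 0 51 63)) .nd))) .nd))))) .nd)))))) (.rp 24 (.str 27 (.nv (.thr 0 63 (.thr 5 53 (.thr 15 10 (.dbl 39 36 51)))) (.nv (.thr 47 32 (.thr 31 29 (.dbl 63 0 15))) (.rp 63 (.thr 39 36 (.thr 46 34 (.thr 47 32 (.thr 44 45 (.dbl 35 41 43))))) (.rp 17 (.str 16 (.nv (.thr 29 31 (.thr 46 34 (.dbl 63 0 12))) (.nv (.thr 32 47 (.dbl 0 48 63)) (.rp 63 (.thr 36 39 (.thr 32 47 (.thr 44 40 (.thr 34 46 (.dbl 35 33 41))))) (.rp 0 (.thr 31 29 (.thr 39 36 (.thr 47 32 (.dbl 15 51 63)))) .nd))))) (.rp 16 (.str 17 (.nv (.thr 31 29 (.thr 47 32 (.dbl 63 0 15))) (.nv (.thr 34 46 (.dbl 0 51 63)) (.rp 63 (.thr 39 36 (.thr 34 46 (.dbl 51 0 15))) (.rp 0 (.thr 31 29 (.thr 39 36 (.thr 15 51 (.dbl 47 32 63)))) .nd))))) (.rp 15 (.thr 46 34 (.thr 29 31 (.dbl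 63 0 12))) (.rp 0 (.thr 39 36 (.thr 47 32 (.thr 31 29 (.dbl 15 51 63)))) .nd)))))))) (.rp 17 (.str 16 (.nv (.thr 4 55 (.thr 36 39 (.dbl 20 24 52))) (.nv (.thr 32 47 (.dbl 0 48 63)) (.rp 27 (.thr 24 20 (.thr 32 47 (.dbl 0 48 63))) (.rp 24 (.str 27 (.nv (.thr 29 31 (.thr 46 34 (.dbl 63 0 12))) (.nv (.thr 32 47 (.dbl 0 48 63)) (.rp 63 (.thr 36 39 (.thr 32 47 (.thr 44 40 (.thr 34 46 (.dbl 35 33 41))))) (.rp 0 (.thr 31 29 (.thr 39 36 (.thr 47 32 (.dbl 15 51 63)))) .nd))))) .nd))))) (.rp 16 (.str 17 (.nv (.thr 31 29 (.thr 47 32 (.dbl 63 0 15))) (.nv (.thr 34 46 (.dbl 0 51 63)) (.rp 63 (.thr 46 34 (.thr 47 32 (.thr 44 45 (.thr 39 36 (.dbl 35 41 43))))) (.rp 27 (.str 24 (.nv (.thr 31 29 (.thr 47 32 (.dbl 63 0 15))) (.nv (.thr 32 47 (.thr 36 39 (.thr 12 48 (.dbl 44 40 60)))) (.nv (.thr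 34 46 (.dbl 0 51 63)) (.rp 31 (.str 23 (.nv (.thr 39 36 (.dbl 55 4 7)) (.nv (.thr 34 46 (.dbl 0 51 63)) .nd))) .nd))))) (.rp 24 (.str 27 (.nv (.thr 31 29 (.thr 47 32 (.dbl 63 0 15))) (.nv (.thr 34 46 (.dbl 0 51 63)) (.rp 63 (.thr 39 36 (.thr 34 46 (.dbl 51 0 15))) (.rp 0 (.thr 31 29 (.thr 39 36 (.thr 15 51 (.dbl 47 32 63)))) .nd))))) (.rp 0 (.thr 46 34 (.thr 29 31 (.thr 12 63 (.thr 44 60 (.dbl 47 32 45))))) .nd))))))) (.rp 0 (.thr 29 31 (.thr 47 32 (.thr 46 34 (.thr 44 45 (.dbl 12 60 63))))) .nd))))))))))) .nd)))))))) (.rp 18 (.str 30 (.nv (.thr 0 63 (.thr 4 55 (.thr 12 8 (.thr 32 47 (.thr 36 39 (.dbl 48 16 24)))))) (.nv (.thr 0 63 (.thr 4 55 (.thr 5 53 (.thr 12 8 (.thr 15 10 (.thr 14 13 (.dbl 46 34 62))))))) (.nv (.thr 36 39 (.thr 32 47 (.thr 44 40 (.thr 34 46 (.dbl 35 33 41)))))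 (.rp 28 (.str 19 (.nv (.thr 39 36 (.thr 55 4 (.thr 63 0 (.thr 51 59 (.thr 3 35 (.dbl 23 7 43)))))) (.nv (.thr 0 63 (.thr 4 55 (.thr 5 53 (.thr 12 8 (.thr 15 10 (.thr 14 13 (.dbl 46 34 62))))))) (.nv (.thr 32 47 (.thr 36 39 (.thr 34 46 (.thr 44 40 (.dbl 35 33 41))))) (.rp 27 (.str 24 (.nv (.thr 0 63 (.thr 32 47 (.thr 34 46 (.thr 51 17 (.dbl 35 3 33))))) (.nv (.thr 32 47 (.thr 34 46 (.thr 35 33 (.thr 44 41 (.dbl 36 39 40))))) (.nv (.thr 0 63 (.thr 4 55 (.thr 12 8 (.dbl 36 39 48)))) .nd)))) (.rp 24 (.str 27 (.nv (.thr 0 63 (.thr 5 53 (.thr 15 10 (.thr 34 46 (.dbl 51 17 39))))) (.nv (.thr 23 31 (.thr 55 4 (.dbl 39 7 36))) (.rp 39 (.thr 31 23 (.thr 63 0 (.dbl 47 15 32))) (.rp 20 (.str 16 (.nv (.thr 23 31 (.thr 55 4 (.dbl 39 7 36))) (.nv (.thr 32 47 (.dbl 0 48 63)) .nd))) (.rp 16 (.str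 20 (.nv (.thr 31 23 (.thr 47 32 (.dbl 63 0 15))) (.nv (.thr 36 39 (.dbl 4 52 55)) .nd))) .nd)))))) .nd)))))) (.rp 27 (.str 24 (.nv (.thr 0 63 (.thr 32 47 (.thr 48 16 (.thr 12 36 (.dbl 4 8 55))))) (.nv (.thr 32 47 (.thr 34 46 (.thr 36 39 (.thr 44 40 (.dbl 35 33 41))))) (.nv (.thr 0 63 (.thr 4 55 (.thr 12 8 (.dbl 36 39 48)))) (.rp 36 (.thr 63 0 (.thr 47 32 (.thr 15 31 (.thr 45 60 (.dbl 46 34 44))))) (.rp 28 (.str 19 (.nv (.thr 0 63 (.thr 32 47 (.thr 34 46 (.thr 51 17 (.dbl 35 3 33))))) (.nv (.thr 32 47 (.thr 34 46 (.thr 35 33 (.thr 44 41 (.dbl 36 39 40))))) (.nv (.thr 0 63 (.thr 4 55 (.thr 12 8 (.dbl 36 39 48)))) .nd)))) (.rp 19 (.str 28 (.nv (.thr 16 20 (.thr 32 47 (.dbl 0 48 63))) (.nv (.thr 4 55 (.thr 36 39 (.dbl 20 16 52))) (.nv (.thr 31 29 (.thr 63 0 (.dbl 47 15 32))) (.rp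 31 (.str 23 (.nv (.thr 16 20 (.thr 0 63 (.dbl 32 47 48))) (.nv (.thr 39 36 (.dbl 55 4 7)) (.rp 16 (.str 17 (.nv (.thr 39 36 (.dbl 55 4 7)) (.nv (.thr 34 46 (.dbl 0 51 63)) .nd))) .nd)))) (.rp 16 (.str 17 (.nv (.thr 31 29 (.thr 47 32 (.dbl 63 0 15))) (.nv (.thr 32 47 (.thr 36 39 (.thr 12 48 (.dbl 44 40 60)))) (.nv (.thr 34 46 (.dbl 0 51 63)) (.rp 31 (.str 23 (.nv (.thr 39 36 (.dbl 55 4 7)) (.nv (.thr 34 46 (.dbl 0 51 63)) .nd))) .nd))))) .nd)))))) .nd))))))) (.rp 24 (.str 27 (.nv (.thr 0 63 (.thr 5 53 (.thr 15 10 (.thr 45 60 (.thr 46 34 (.dbl 47 32 44)))))) (.nv (.thr 0 63 (.thr 5 53 (.thr 15 10 (.dbl 39 36 51)))) (.nv (.thr 32 47 (.thr 34 46 (.thr 36 39 (.thr 44 40 (.dbl 35 33 41))))) (.nv (.thr 39 36 (.thr 51 15 (.thr 34 46 (.dbl 0 17 63)))) (.rp 28 (.str 19 (.nv (.thr 0 63 (.thr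 5 53 (.thr 15 10 (.thr 34 46 (.dbl 51 17 39))))) (.nv (.thr 23 31 (.thr 55 4 (.dbl 39 7 36))) (.rp 39 (.thr 31 23 (.thr 63 0 (.dbl 47 15 32))) (.rp 20 (.str 16 (.nv (.thr 23 31 (.thr 55 4 (.dbl 39 7 36))) (.nv (.thr 32 47 (.dbl 0 48 63)) .nd))) (.rp 16 (.str 20 (.nv (.thr 31 23 (.thr 47 32 (.dbl 63 0 15))) (.nv (.thr 36 39 (.dbl 4 52 55)) .nd))) .nd)))))) (.rp 19 (.str 28 (.nv (.thr 0 63 (.thr 5 53 (.thr 15 10 (.dbl 39 36 51)))) (.nv (.thr 47 32 (.thr 31 29 (.dbl 63 0 15))) (.rp 63 (.thr 39 36 (.thr 46 34 (.thr 47 32 (.thr 44 45 (.dbl 35 41 43))))) (.rp 17 (.str 16 (.nv (.thr 29 31 (.thr 46 34 (.dbl 63 0 12))) (.nv (.thr 32 47 (.dbl 0 48 63)) (.rp 63 (.thr 36 39 (.thr 32 47 (.thr 44 40 (.thr 34 46 (.dbl 35 33 41))))) (.rp 0 (.thr 31 29 (.thr 39 36 (.thr 47 32 (.dbl 15 51 63))))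 .nd))))) (.rp 16 (.str 17 (.nv (.thr 31 29 (.thr 47 32 (.dbl 63 0 15))) (.nv (.thr 34 46 (.dbl 0 51 63)) (.rp 63 (.thr 39 36 (.thr 34 46 (.dbl 51 0 15))) (.rp 0 (.thr 31 29 (.thr 39 36 (.thr 15 51 (.dbl 47 32 63)))) .nd))))) (.rp 15 (.thr 46 34 (.thr 29 31 (.dbl 63 0 12))) (.rp 0 (.thr 39 36 (.thr 47 32 (.thr 31 29 (.dbl 15 51 63)))) .nd)))))))) .nd))))))) (.rp 19 (.str 28 (.nv (.thr 29 31 (.thr 46 34 (.dbl 63 0 12))) (.nv (.thr 47 32 (.thr 31 29 (.dbl 63 0 15))) (.rp 63 (.thr 36 39 (.thr 32 47 (.thr 44 40 (.thr 34 46 (.dbl 35 33 41))))) (.rp 31 (.thr 36 39 (.thr 32 47 (.thr 44 40 (.thr 34 46 (.dbl 35 33 41))))) (.rp 29 (.thr 36 39 (.thr 32 47 (.thr 44 40 (.thr 34 46 (.dbl 35 33 41))))) (.rp 27 (.str 24 (.nv (.thr 16 20 (.thr 32 47 (.dbl 0 48 63))) (.nv (.thr 4 55 (.thr 36 39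 (.dbl 20 16 52))) (.nv (.thr 31 29 (.thr 63 0 (.dbl 47 15 32))) (.rp 31 (.str 23 (.nv (.thr 16 20 (.thr 0 63 (.dbl 32 47 48))) (.nv (.thr 39 36 (.dbl 55 4 7)) (.rp 16 (.str 17 (.nv (.thr 39 36 (.dbl 55 4 7)) (.nv (.thr 34 46 (.dbl 0 51 63)) .nd))) .nd)))) (.rp 16 (.str 17 (.nv (.thr 31 29 (.thr 47 32 (.dbl 63 0 15))) (.nv (.thr 32 47 (.thr 36 39 (.thr 12 48 (.dbl 44 40 60)))) (.nv (.thr 34 46 (.dbl 0 51 63)) (.rp 31 (.str 23 (.nv (.thr 39 36 (.dbl 55 4 7)) (.nv (.thr 34 46 (.dbl 0 51 63)) .nd))) .nd))))) .nd)))))) (.rp 24 (.str 27 (.nv (.thr 0 63 (.thr 5 53 (.thr 15 10 (.dbl 39 36 51)))) (.nv (.thr 47 32 (.thr 31 29 (.dbl 63 0 15))) (.rp 63 (.thr 39 36 (.thr 46 34 (.thr 47 32 (.thr 44 45 (.dbl 35 41 43))))) (.rp 17 (.str 16 (.nv (.thr 29 31 (.thr 46 34 (.dbl 63 0 12))) (.nv (.thr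 32 47 (.dbl 0 48 63)) (.rp 63 (.thr 36 39 (.thr 32 47 (.thr 44 40 (.thr 34 46 (.dbl 35 33 41))))) (.rp 0 (.thr 31 29 (.thr 39 36 (.thr 47 32 (.dbl 15 51 63)))) .nd))))) (.rp 16 (.str 17 (.nv (.thr 31 29 (.thr 47 32 (.dbl 63 0 15))) (.nv (.thr 34 46 (.dbl 0 51 63)) (.rp 63 (.thr 39 36 (.thr 34 46 (.dbl 51 0 15))) (.rp 0 (.thr 31 29 (.thr 39 36 (.thr 15 51 (.dbl 47 32 63)))) .nd))))) (.rp 15 (.thr 46 34 (.thr 29 31 (.dbl 63 0 12))) (.rp 0 (.thr 39 36 (.thr 47 32 (.thr 31 29 (.dbl 15 51 63)))) .nd)))))))) (.rp 17 (.str 16 (.nv (.thr 4 55 (.thr 36 39 (.dbl 20 24 52))) (.nv (.thr 32 47 (.dbl 0 48 63)) (.rp 27 (.thr 24 20 (.thr 32 47 (.dbl 0 48 63))) (.rp 24 (.str 27 (.nv (.thr 29 31 (.thr 46 34 (.dbl 63 0 12))) (.nv (.thr 32 47 (.dbl 0 48 63)) (.rp 63 (.thr 36 39 (.thr 32 47 (.thr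 44 40 (.thr 34 46 (.dbl 35 33 41))))) (.rp 0 (.thr 31 29 (.thr 39 36 (.thr 47 32 (.dbl 15 51 63)))) .nd))))) .nd))))) (.rp 16 (.str 17 (.nv (.thr 31 29 (.thr 47 32 (.dbl 63 0 15))) (.nv (.thr 34 46 (.dbl 0 51 63)) (.rp 63 (.thr 46 34 (.thr 47 32 (.thr 44 45 (.thr 39 36 (.dbl 35 41 43))))) (.rp 27 (.str 24 (.nv (.thr 31 29 (.thr 47 32 (.dbl 63 0 15))) (.nv (.thr 32 47 (.thr 36 39 (.thr 12 48 (.dbl 44 40 60)))) (.nv (.thr 34 46 (.dbl 0 51 63)) (.rp 31 (.str 23 (.nv (.thr 39 36 (.dbl 55 4 7)) (.nv (.thr 34 46 (.dbl 0 51 63)) .nd))) .nd))))) (.rp 24 (.str 27 (.nv (.thr 31 29 (.thr 47 32 (.dbl 63 0 15))) (.nv (.thr 34 46 (.dbl 0 51 63)) (.rp 63 (.thr 39 36 (.thr 34 46 (.dbl 51 0 15))) (.rp 0 (.thr 31 29 (.thr 39 36 (.thr 15 51 (.dbl 47 32 63)))) .nd))))) (.rp 0 (.thr 46 34 (.thr 29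 31 (.thr 12 63 (.thr 44 60 (.dbl 47 32 45))))) .nd))))))) (.rp 0 (.thr 29 31 (.thr 47 32 (.thr 46 34 (.thr 44 45 (.dbl 12 60 63))))) .nd))))))))))) .nd)))))))) .nd))))))))))))

theorem w522 : WinAt (412318957568, 104857600) :=
  chF (K := []) kn c522 412318957568 104857600 22
    [251658240, 306708480, 1145307136] (by decide +kernel) (by decide +kernel)

/-- A certificate. -/
noncomputable def c523 : Ct := (.str 38 (.nv (.thr 53 5 (.thr 39 36 (.thr 55 4 (.thr 7 23 (.dbl 52 22 54))))) (.rp 55 (.thr 53 5 (.str 42 (.nv (.thr 36 39 (.thr 46 34 (.thr 63 0 (.thr 12 29 (.dbl 48 24 58))))) (.nv (.thr 39 36 (.thr 46 34 (.thr 47 32 (.thr 35 43 (.dbl 44 41 45))))) (.rp 46 (.thr 39 36 (.thr 47 32 (.thr 43 35 (.thr 63 0 (.thr 48 58 (.thr 3 23 (.thr 33 18 (.dbl 41 40 45)))))))) (.rp 39 (.thr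 46 34 (.thr 47 32 (.thr 45 44 (.thr 63 0 (.thr 29 12 (.thr 61 13 (.dbl 41 1 33))))))) (.rp 36 (.thr 34 46 (.thr 32 47 (.thr 33 35 (.thr 63 0 (.thr 48 58 (.thr 3 18 (.thr 43 23 (.dbl 41 40 45)))))))) (.rp 34 (.thr 36 39 (.thr 32 47 (.thr 40 44 (.thr 0 63 (.thr 20 60 (.thr 52 4 (.dbl 22 7 23))))))) (.rp 27 (.str 24 (.nv (.thr 32 47 (.thr 34 46 (.thr 35 33 (.thr 44 41 (.dbl 36 39 40))))) (.nv (.thr 63 0 (.thr 48 58 (.dbl 36 12 39))) (.rp 39 (.thr 46 34 (.thr 63 0 (.thr 48 58 (.dbl 12 29 36)))) (.rp 36 (.thr 34 46 (.thr 32 47 (.thr 33 35 (.thr 63 0 (.thr 48 58 (.thr 3 18 (.thr 43 23 (.dbl 41 40 45)))))))) .nd))))) (.rp 24 (.str 27 (.nv (.thr 39 36 (.thr 15 51 (.thr 47 32 (.dbl 63 0 31)))) (.nv (.thr 32 47 (.thr 34 46 (.thr 35 33 (.thr 36 39 (.dbl 44 40 41))))) (.nv (.thr 34 46 (.thr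 0 63 (.thr 51 17 (.dbl 39 15 36)))) (.rp 39 (.thr 63 0 (.thr 47 32 (.thr 46 34 (.thr 45 44 (.thr 29 12 (.thr 61 13 (.dbl 41 1 33))))))) (.rp 36 (.thr 63 0 (.thr 47 32 (.thr 15 31 (.thr 39 51 (.thr 35 43 (.thr 44 41 (.dbl 46 34 45))))))) .nd)))))) .nd)))))))))) (.rp 54 (.thr 5 53 (.thr 36 39 (.thr 4 55 (.thr 52 20 (.dbl 7 6 22))))) (.rp 53 (.thr 36 39 (.str 42 (.nv (.thr 0 63 (.thr 4 55 (.thr 12 8 (.thr 32 47 (.dbl 48 16 24))))) (.nv (.thr 34 46 (.thr 32 47 (.thr 35 33 (.dbl 44 40 41)))) (.rp 47 (.thr 0 63 (.thr 4 55 (.thr 52 20 (.thr 7 22 (.thr 6 5 (.thr 12 8 (.thr 3 9 (.thr 1 2 (.thr 41 61 (.thr 33 45 (.dbl 48 18 24))))))))))) (.rp 35 (.thr 46 34 (.thr 63 0 (.thr 4 55 (.thr 52 20 (.thr 7 22 (.thr 6 5 (.thr 12 29 (.thr 3 9 (.thr 15 11 (.dbl 47 31 32)))))))))) (.rp 32 (.thr 0 63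 (.thr 4 55 (.thr 52 20 (.thr 7 22 (.thr 6 5 (.thr 12 8 (.thr 3 9 (.thr 1 2 (.thr 41 61 (.thr 33 45 (.dbl 48 18 24))))))))))) (.rp 27 (.str 24 (.nv (.thr 0 63 (.thr 4 55 (.dbl 12 8 48))) (.nv (.thr 32 47 (.thr 34 46 (.thr 35 33 (.dbl 44 40 41)))) (.nv (.thr 46 34 (.thr 12 48 (.dbl 63 0 29))) (.rp 51 (.str 15 (.nv (.thr 4 55 (.thr 12 48 (.dbl 0 8 63))) (.nv (.thr 32 47 (.thr 34 46 (.thr 35 33 (.dbl 44 40 41)))) (.nv (.thr 47 32 (.dbl 63 0 31)) .nd)))) (.rp 15 (.str 51 (.nv (.thr 55 4 (.dbl 63 0 59)) (.nv (.thr 34 46 (.dbl 0 17 63)) (.rp 63 (.thr 34 46 (.thr 0 17 (.thr 4 55 (.dbl 12 8 48)))) (.rp 0 (.thr 34 46 (.thr 32 47 (.thr 44 40 (.dbl 35 33 41)))) .nd))))) .nd)))))) (.rp 24 (.str 27 (.nv (.thr 4 55 (.thr 47 32 (.thr 63 0 (.thr 31 15 (.thr 23 19 (.dbl 20 22 52)))))) (.nv (.thr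 34 46 (.thr 32 47 (.thr 35 33 (.dbl 44 40 41)))) (.rp 47 (.thr 55 4 (.thr 63 0 (.thr 59 51 (.thr 43 11 (.thr 41 40 (.thr 3 23 (.thr 61 1 (.dbl 60 22 62)))))))) (.rp 32 (.thr 55 4 (.thr 63 0 (.thr 59 51 (.thr 43 11 (.thr 41 40 (.thr 3 23 (.thr 61 1 (.dbl 60 22 62)))))))) .nd))))) .nd))))))))) (.rp 52 (.thr 55 4 (.thr 36 39 (.str 42 (.nv (.thr 46 34 (.thr 53 5 (.thr 63 0 (.thr 12 29 (.dbl 48 24 58))))) (.nv (.thr 34 46 (.thr 32 47 (.thr 35 33 (.dbl 44 40 41)))) (.rp 46 (.thr 32 47 (.thr 44 40 (.thr 35 41 (.thr 33 34 (.thr 63 0 (.thr 51 59 (.thr 3 19 (.thr 48 18 (.dbl 53 5 58))))))))) (.rp 34 (.thr 32 47 (.thr 40 44 (.thr 0 63 (.thr 60 20 (.thr 5 53 (.thr 15 10 (.thr 45 30 (.dbl 41 33 43)))))))) (.rp 27 (.str 24 (.nv (.thr 0 63 (.thr 32 47 (.dbl 48 12 16))) (.nv (.thr 32 47 (.thr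 34 46 (.thr 35 33 (.dbl 44 40 41)))) (.nv (.thr 46 34 (.thr 63 0 (.dbl 12 29 48))) (.rp 51 (.str 15 (.nv (.thr 32 47 (.thr 34 46 (.thr 35 33 (.dbl 44 40 41)))) (.nv (.thr 5 53 (.dbl 0 10 63)) .nd))) (.rp 15 (.str 51 (.nv (.dbl 63 0 59) (.rp 63 (.thr 48 12 (.thr 49 50 (.thr 53 5 (.thr 61 57 (.thr 41 1 (.thr 44 35 (.dbl 32 40 47))))))) (.rp 59 (.thr 34 46 (.dbl 0 17 63)) (.rp 0 (.thr 63 59 (.thr 46 34 (.dbl 12 29 48))) .nd))))) .nd)))))) (.rp 24 (.str 27 (.nv (.thr 63 0 (.thr 59 51 (.thr 32 47 (.thr 43 11 (.dbl 40 41 44))))) (.nv (.thr 34 46 (.thr 32 47 (.thr 35 33 (.dbl 44 40 41)))) (.rp 47 (.thr 63 0 (.thr 59 51 (.thr 43 11 (.thr 41 40 (.thr 3 23 (.thr 61 1 (.dbl 60 22 62))))))) (.rp 44 (.thr 63 0 (.thr 59 51 (.thr 43 11 (.thr 23 3 (.thr 47 32 (.dbl 31 15 19)))))) (.rp 41 (.thr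 63 0 (.thr 59 51 (.thr 47 32 (.thr 31 15 (.thr 23 19 (.dbl 43 3 11)))))) (.rp 40 (.thr 63 0 (.thr 59 51 (.thr 43 11 (.thr 23 3 (.thr 47 32 (.dbl 31 15 19)))))) (.rp 34 (.thr 63 0 (.thr 32 47 (.thr 40 44 (.thr 43 41 (.dbl 59 11 51))))) (.rp 32 (.thr 63 0 (.thr 59 51 (.thr 43 11 (.thr 41 40 (.thr 3 23 (.thr 61 1 (.dbl 60 22 62))))))) .nd))))))))) .nd))))))))) (.rp 39 (.thr 5 53 (.str 42 (.nv (.thr 0 63 (.thr 4 55 (.thr 7 6 (.thr 32 47 (.thr 48 16 (.thr 52 22 (.thr 20 36 (.dbl 60 40 56)))))))) (.nv (.thr 46 34 (.thr 47 32 (.thr 45 44 (.thr 63 0 (.thr 29 12 (.thr 61 13 (.dbl 41 1 33))))))) (.nv (.thr 0 63 (.thr 4 55 (.thr 12 8 (.thr 15 10 (.thr 13 14 (.thr 9 1 (.dbl 6 3 7))))))) (.rp 63 (.thr 34 46 (.thr 32 47 (.thr 35 33 (.thr 44 41 (.thr 36 40 (.thr 4 55 (.thr 7 6 (.dbl 52 20 22))))))))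 (.rp 51 (.thr 46 34 (.thr 47 32 (.thr 45 44 (.thr 0 63 (.thr 15 10 (.thr 60 30 (.thr 40 20 (.dbl 41 33 43)))))))) (.rp 48 (.thr 34 46 (.thr 32 47 (.thr 35 33 (.thr 44 41 (.thr 36 40 (.thr 4 55 (.thr 7 6 (.dbl 52 20 22)))))))) (.rp 27 (.str 24 (.nv (.thr 0 63 (.thr 4 55 (.thr 7 6 (.thr 52 22 (.thr 36 20 (.thr 48 12 (.dbl 32 16 47))))))) (.nv (.thr 0 63 (.thr 4 55 (.thr 7 6 (.thr 15 10 (.thr 3 11 (.thr 2 1 (.dbl 22 52 62))))))) (.nv (.thr 32 47 (.thr 0 63 (.thr 48 16 (.thr 12 36 (.dbl 4 8 55))))) (.rp 63 (.thr 4 55 (.thr 7 6 (.thr 52 22 (.thr 36 20 (.thr 32 47 (.thr 44 40 (.thr 34 46 (.dbl 35 33 41)))))))) (.rp 55 (.thr 63 0 (.thr 47 32 (.thr 46 34 (.thr 45 44 (.thr 29 12 (.thr 61 13 (.dbl 41 1 33))))))) (.rp 51 (.str 15 (.nv (.dbl 0 10 63) (.rp 63 (.thr 0 10 (.thr 32 47 (.thr 48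 16 (.thr 12 36 (.dbl 4 8 55))))) (.rp 10 (.thr 63 0 (.dbl 47 31 32)) (.rp 0 (.thr 4 55 (.thr 7 6 (.thr 52 22 (.thr 36 20 (.thr 32 47 (.thr 40 44 (.thr 56 8 (.dbl 48 12 60)))))))) .nd))))) (.rp 48 (.thr 4 55 (.thr 7 6 (.thr 52 22 (.thr 36 20 (.thr 32 47 (.thr 44 40 (.thr 34 46 (.dbl 35 33 41)))))))) (.rp 15 (.str 51 (.nv (.thr 34 46 (.dbl 0 17 63)) (.nv (.thr 55 4 (.dbl 63 0 59)) (.rp 63 (.thr 4 55 (.thr 34 46 (.thr 0 17 (.thr 12 8 (.thr 48 36 (.dbl 32 16 47)))))) (.rp 0 (.thr 4 55 (.thr 7 6 (.thr 52 22 (.thr 36 20 (.thr 34 46 (.thr 32 47 (.thr 35 33 (.dbl 44 40 41)))))))) .nd))))) (.rp 4 (.thr 0 63 (.thr 32 47 (.thr 48 16 (.thr 36 12 (.thr 44 40 (.thr 35 41 (.dbl 34 33 46))))))) (.rp 0 (.thr 4 55 (.thr 7 6 (.thr 52 22 (.thr 36 20 (.thr 32 47 (.thr 40 44 (.thr 56 8 (.dbl 48 12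 60)))))))) .nd))))))))))) (.rp 24 (.str 27 (.nv (.thr 0 63 (.thr 4 55 (.thr 7 6 (.thr 15 10 (.thr 3 11 (.thr 2 1 (.dbl 22 52 62))))))) (.nv (.thr 46 34 (.thr 47 32 (.thr 45 44 (.thr 63 0 (.thr 29 12 (.thr 61 13 (.dbl 41 1 33))))))) (.nv (.thr 4 55 (.thr 7 6 (.thr 47 32 (.thr 63 0 (.thr 31 15 (.thr 23 19 (.dbl 22 20 52))))))) (.rp 63 (.thr 34 46 (.thr 32 47 (.thr 35 33 (.thr 44 41 (.thr 36 40 (.thr 4 55 (.thr 7 6 (.dbl 52 20 22)))))))) (.rp 48 (.thr 34 46 (.thr 32 47 (.thr 35 33 (.thr 44 41 (.thr 36 40 (.thr 4 55 (.thr 7 6 (.dbl 52 20 22)))))))) (.rp 15 (.thr 46 34 (.thr 47 32 (.thr 44 45 (.thr 63 0 (.thr 12 29 (.thr 60 28 (.thr 61 62 (.dbl 41 1 35)))))))) (.rp 4 (.thr 46 34 (.thr 47 32 (.thr 45 44 (.thr 0 63 (.thr 15 10 (.thr 60 30 (.thr 40 20 (.dbl 41 33 43)))))))) (.rp 0 (.thr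 34 46 (.thr 32 47 (.thr 35 33 (.thr 44 41 (.thr 36 40 (.thr 4 55 (.thr 7 6 (.dbl 52 20 22)))))))) .nd))))))))) (.rp 15 (.thr 46 34 (.thr 47 32 (.thr 44 45 (.thr 63 0 (.thr 12 29 (.thr 60 28 (.thr 61 62 (.dbl 41 1 35)))))))) (.rp 4 (.thr 46 34 (.thr 47 32 (.thr 45 44 (.thr 0 63 (.thr 15 10 (.thr 60 30 (.thr 40 20 (.dbl 41 33 43)))))))) (.rp 0 (.thr 34 46 (.thr 32 47 (.thr 35 33 (.thr 44 41 (.thr 36 40 (.thr 4 55 (.thr 7 6 (.dbl 52 20 22)))))))) .nd))))))))))))) (.rp 36 (.thr 53 5 (.str 42 (.nv (.thr 55 4 (.thr 52 54 (.thr 63 0 (.thr 48 58 (.thr 60 56 (.thr 62 61 (.dbl 22 2 7))))))) (.nv (.thr 0 63 (.thr 32 47 (.thr 34 46 (.thr 33 35 (.thr 48 16 (.thr 51 17 (.thr 50 49 (.dbl 18 2 3)))))))) (.nv (.thr 0 63 (.thr 32 47 (.thr 48 16 (.thr 55 4 (.thr 52 54 (.thr 60 56 (.thr 20 40 (.dbl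 22 7 23)))))))) (.rp 63 (.thr 46 34 (.thr 47 32 (.thr 44 45 (.thr 35 41 (.thr 39 43 (.thr 55 4 (.thr 52 54 (.dbl 7 22 23)))))))) (.rp 48 (.thr 34 46 (.thr 32 47 (.thr 35 33 (.thr 0 63 (.thr 51 17 (.thr 3 19 (.thr 1 2 (.dbl 41 44 61)))))))) (.rp 27 (.str 24 (.nv (.thr 0 63 (.thr 4 55 (.thr 8 12 (.thr 40 56 (.thr 41 43 (.thr 1 61 (.thr 3 2 (.dbl 60 20 22)))))))) (.nv (.thr 0 63 (.thr 32 47 (.thr 16 48 (.thr 20 28 (.thr 22 23 (.thr 2 62 (.thr 3 1 (.dbl 60 40 41)))))))) (.nv (.thr 0 63 (.thr 4 55 (.thr 8 12 (.thr 40 56 (.thr 46 34 (.thr 47 32 (.thr 44 45 (.dbl 41 35 43)))))))) (.nv (.thr 55 4 (.thr 52 54 (.thr 32 47 (.thr 0 63 (.thr 16 48 (.thr 20 28 (.dbl 22 7 23))))))) (.rp 63 (.thr 46 34 (.thr 47 32 (.thr 44 45 (.thr 35 41 (.thr 39 43 (.thr 55 4 (.thr 52 54 (.dbl 7 22 23))))))))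 (.rp 0 (.thr 46 34 (.thr 47 32 (.thr 44 45 (.thr 35 41 (.thr 39 43 (.thr 55 4 (.thr 52 54 (.dbl 7 22 23)))))))) .nd))))))) (.rp 24 (.str 27 (.nv (.thr 46 34 (.thr 47 32 (.thr 44 45 (.thr 35 41 (.thr 39 43 (.thr 15 51 (.dbl 63 0 31))))))) (.nv (.thr 0 63 (.thr 34 46 (.thr 51 17 (.thr 55 4 (.thr 52 54 (.thr 7 22 (.dbl 39 15 23))))))) (.nv (.thr 47 32 (.thr 63 0 (.thr 15 31 (.thr 51 39 (.dbl 55 4 59))))) (.rp 63 (.thr 55 4 (.thr 52 54 (.thr 7 22 (.thr 39 23 (.thr 47 32 (.thr 43 35 (.thr 11 59 (.dbl 15 3 51)))))))) (.rp 51 (.thr 55 4 (.thr 52 54 (.thr 7 22 (.thr 23 39 (.thr 63 0 (.thr 47 32 (.dbl 31 15 19))))))) (.rp 48 (.str 12 (.nv (.thr 46 34 (.dbl 63 0 29)) (.nv (.thr 4 55 (.dbl 0 8 63)) (.rp 63 (.thr 55 4 (.thr 52 54 (.thr 7 22 (.thr 39 23 (.thr 46 34 (.thr 47 32 (.thr 44 45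 (.dbl 35 41 43)))))))) (.rp 0 (.thr 55 4 (.thr 46 34 (.thr 63 29 (.thr 51 59 (.thr 15 39 (.dbl 47 31 32)))))) .nd))))) (.rp 39 (.thr 55 4 (.thr 52 54 (.thr 63 0 (.thr 59 51 (.thr 43 11 (.thr 23 3 (.dbl 22 7 20))))))) (.rp 15 (.thr 55 4 (.thr 52 54 (.thr 7 22 (.thr 39 23 (.thr 47 32 (.thr 35 43 (.thr 46 34 (.dbl 44 41 45)))))))) (.rp 12 (.str 48 (.nv (.dbl 63 0 58) (.rp 63 (.thr 55 4 (.thr 52 54 (.thr 7 22 (.thr 39 23 (.thr 47 32 (.thr 43 35 (.thr 11 59 (.dbl 15 3 51)))))))) (.rp 58 (.thr 0 63 (.dbl 32 16 47)) (.rp 0 (.thr 63 58 (.thr 47 32 (.thr 15 31 (.thr 51 39 (.dbl 55 4 59))))) .nd))))) (.rp 0 (.thr 55 4 (.thr 52 54 (.thr 7 22 (.thr 39 23 (.thr 47 32 (.thr 35 43 (.thr 46 34 (.dbl 44 41 45)))))))) .nd))))))))))) (.rp 15 (.thr 46 34 (.thr 47 32 (.thr 44 45 (.thr 35 41 (.thr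 39 43 (.thr 55 4 (.thr 52 54 (.dbl 7 22 23)))))))) (.rp 0 (.thr 46 34 (.thr 47 32 (.thr 44 45 (.thr 35 41 (.thr 39 43 (.thr 55 4 (.thr 52 54 (.dbl 7 22 23)))))))) .nd))))))))))) (.rp 27 (.str 24 (.nv (.thr 4 55 (.thr 36 39 (.thr 12 48 (.thr 0 8 (.thr 20 52 (.thr 28 16 (.dbl 60 40 44))))))) (.nv (.thr 39 36 (.thr 53 5 (.thr 55 4 (.thr 52 54 (.dbl 7 22 23))))) (.rp 55 (.thr 53 5 (.thr 36 39 (.thr 48 12 (.thr 63 58 (.thr 42 0 (.thr 34 46 (.thr 32 47 (.thr 35 33 (.dbl 44 40 41))))))))) (.rp 54 (.thr 5 53 (.thr 36 39 (.thr 4 55 (.thr 52 20 (.dbl 7 6 22))))) (.rp 53 (.thr 36 39 (.thr 4 55 (.thr 52 20 (.thr 7 22 (.thr 6 5 (.thr 12 48 (.thr 0 8 (.thr 3 9 (.thr 1 2 (.thr 41 61 (.thr 44 35 (.thr 32 40 (.dbl 42 47 63))))))))))))) (.rp 52 (.thr 53 5 (.thr 36 39 (.thr 48 12 (.thr 63 58 (.thr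 42 0 (.thr 34 46 (.thr 32 47 (.thr 35 33 (.dbl 44 40 41))))))))) (.rp 39 (.thr 55 4 (.str 51 (.nv (.thr 53 5 (.thr 63 59 (.thr 42 0 (.thr 46 34 (.thr 12 29 (.dbl 48 36 58)))))) (.nv (.thr 53 5 (.thr 54 52 (.thr 57 60 (.thr 49 61 (.thr 48 50 (.dbl 63 58 59)))))) (.nv (.thr 63 59 (.thr 42 0 (.thr 46 34 (.thr 12 29 (.thr 48 36 (.dbl 53 5 58)))))) (.rp 63 (.thr 53 5 (.thr 54 52 (.thr 57 60 (.thr 61 49 (.thr 41 1 (.thr 35 44 (.thr 3 19 (.thr 33 45 (.thr 48 18 (.thr 32 34 (.thr 16 0 (.thr 12 36 (.thr 20 28 (.dbl 22 6 23)))))))))))))) (.rp 59 (.thr 53 5 (.thr 54 52 (.thr 57 60 (.thr 49 61 (.thr 48 50 (.thr 63 58 (.thr 42 0 (.thr 46 34 (.dbl 12 29 36))))))))) (.rp 58 (.thr 53 5 (.thr 54 52 (.thr 57 60 (.thr 49 61 (.thr 48 50 (.thr 63 59 (.thr 42 0 (.thr 46 34 (.dbl 12 29 36))))))))) (.rp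 53 (.thr 63 59 (.thr 42 0 (.thr 46 34 (.thr 47 32 (.thr 44 45 (.thr 12 29 (.thr 60 28 (.thr 61 62 (.dbl 41 1 35))))))))) (.rp 48 (.thr 53 5 (.thr 54 52 (.thr 60 57 (.thr 63 59 (.thr 42 0 (.thr 62 61 (.dbl 22 2 6))))))) (.rp 36 (.thr 53 5 (.thr 63 59 (.thr 48 58 (.thr 49 50 (.thr 57 61 (.dbl 54 52 60)))))) (.rp 5 (.thr 63 59 (.thr 42 0 (.thr 46 34 (.thr 47 32 (.thr 44 45 (.thr 12 29 (.thr 60 28 (.thr 61 62 (.dbl 41 1 35))))))))) .nd)))))))))))) (.rp 36 (.thr 4 55 (.str 0 (.nv (.thr 8 12 (.thr 42 63 (.thr 32 47 (.thr 16 48 (.thr 20 28 (.dbl 40 56 60)))))) (.nv (.thr 5 53 (.thr 12 8 (.thr 15 10 (.thr 13 14 (.thr 9 1 (.dbl 6 3 7)))))) (.nv (.thr 5 53 (.thr 6 7 (.thr 8 12 (.thr 40 56 (.thr 20 60 (.dbl 22 23 54)))))) (.rp 53 (.thr 8 12 (.thr 40 56 (.thr 20 60 (.thr 42 63 (.thr 32 47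 (.dbl 16 28 48)))))) (.rp 12 (.thr 5 53 (.thr 7 6 (.thr 15 10 (.thr 3 11 (.thr 2 1 (.thr 42 63 (.dbl 22 52 62))))))) (.rp 8 (.thr 5 53 (.thr 6 7 (.thr 10 15 (.thr 2 14 (.thr 42 63 (.dbl 22 54 62)))))) .nd)))))))) (.rp 23 (.thr 5 53 (.thr 36 39 (.thr 4 55 (.thr 7 6 (.dbl 52 20 22))))) (.rp 7 (.thr 53 5 (.thr 36 39 (.thr 48 12 (.thr 63 58 (.thr 42 0 (.thr 34 46 (.thr 32 47 (.thr 35 33 (.dbl 44 40 41))))))))) (.rp 4 (.str 0 (.nv (.thr 36 39 (.thr 48 12 (.thr 32 16 (.thr 40 44 (.thr 60 20 (.dbl 56 8 52)))))) (.nv (.thr 39 36 (.thr 42 63 (.thr 46 34 (.thr 47 32 (.thr 35 43 (.dbl 44 41 45)))))) (.nv (.thr 36 39 (.thr 48 12 (.thr 32 16 (.dbl 42 47 63)))) (.rp 39 (.thr 42 63 (.thr 34 46 (.thr 32 47 (.thr 48 16 (.thr 35 33 (.thr 44 41 (.dbl 36 12 40))))))) (.rp 36 (.thr 42 63 (.thr 34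 46 (.thr 17 51 (.thr 32 47 (.thr 33 35 (.thr 1 49 (.dbl 41 45 61))))))) (.rp 32 (.thr 53 5 (.thr 36 39 (.thr 48 12 (.dbl 63 42 58)))) .nd))))))) .nd)))))))))))) (.rp 24 (.str 27 (.nv (.thr 39 36 (.thr 51 15 (.thr 55 4 (.thr 23 7 (.thr 19 31 (.thr 3 35 (.dbl 63 43 59))))))) (.nv (.thr 36 39 (.thr 5 53 (.thr 4 55 (.thr 7 6 (.dbl 52 20 22))))) (.rp 55 (.str 63 (.nv (.thr 39 36 (.thr 15 51 (.thr 47 31 (.thr 43 35 (.thr 3 23 (.dbl 11 7 59)))))) (.nv (.thr 36 39 (.thr 42 0 (.thr 32 47 (.thr 34 46 (.thr 35 33 (.dbl 44 40 41)))))) (.nv (.thr 39 36 (.thr 15 51 (.thr 47 31 (.dbl 42 0 32)))) (.rp 47 (.thr 5 53 (.thr 39 36 (.thr 15 51 (.dbl 0 10 42)))) (.rp 39 (.thr 42 0 (.thr 46 34 (.thr 29 12 (.thr 47 32 (.thr 45 44 (.thr 61 13 (.dbl 41 1 33))))))) (.rp 36 (.thr 42 0 (.thr 46 34 (.thr 47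 32 (.thr 15 31 (.thr 44 45 (.thr 35 41 (.dbl 39 43 51))))))) .nd))))))) (.rp 52 (.thr 5 53 (.thr 39 36 (.thr 15 51 (.thr 0 10 (.thr 42 63 (.thr 46 34 (.thr 47 32 (.thr 44 45 (.dbl 35 41 43))))))))) (.rp 39 (.thr 55 4 (.str 63 (.nv (.thr 42 0 (.thr 47 32 (.thr 31 15 (.thr 23 19 (.thr 22 20 (.thr 52 7 (.dbl 53 5 54))))))) (.nv (.thr 53 5 (.thr 54 52 (.thr 58 48 (.thr 62 50 (.thr 60 61 (.dbl 51 57 59)))))) (.nv (.thr 42 0 (.thr 32 47 (.thr 34 46 (.thr 35 33 (.thr 59 51 (.thr 43 11 (.dbl 41 40 44))))))) (.rp 12 (.thr 53 5 (.thr 54 52 (.thr 59 51 (.thr 43 11 (.thr 23 3 (.dbl 22 6 20)))))) .nd)))))) (.rp 36 (.thr 4 55 (.str 12 (.nv (.thr 0 8 (.thr 5 53 (.thr 15 10 (.thr 13 14 (.thr 9 1 (.dbl 6 3 7)))))) (.nv (.thr 5 53 (.thr 6 7 (.thr 9 3 (.thr 13 1 (.thr 15 14 (.dbl 0 8 10)))))) (.nv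 (.thr 0 8 (.thr 42 63 (.thr 34 46 (.thr 51 17 (.thr 15 39 (.dbl 5 10 53)))))) (.rp 53 (.thr 0 8 (.thr 42 63 (.thr 34 46 (.thr 32 47 (.thr 35 33 (.thr 51 17 (.thr 3 19 (.thr 1 2 (.dbl 41 44 61))))))))) (.rp 15 (.thr 5 53 (.thr 6 7 (.thr 3 9 (.thr 0 8 (.thr 42 63 (.thr 2 1 (.dbl 22 54 62))))))) (.rp 10 (.thr 5 53 (.thr 6 7 (.thr 9 3 (.thr 13 1 (.thr 15 14 (.thr 0 8 (.thr 42 63 (.thr 34 46 (.dbl 51 17 39))))))))) (.rp 8 (.thr 5 53 (.thr 6 7 (.thr 9 3 (.thr 13 1 (.thr 15 14 (.thr 0 10 (.thr 42 63 (.thr 34 46 (.dbl 51 17 39))))))))) (.rp 7 (.thr 5 53 (.thr 0 8 (.thr 42 63 (.thr 34 46 (.thr 15 10 (.dbl 51 17 39)))))) (.rp 5 (.thr 0 8 (.thr 42 63 (.thr 34 46 (.thr 32 47 (.thr 35 33 (.thr 51 17 (.thr 3 19 (.thr 1 2 (.dbl 41 44 61))))))))) (.rp 0 (.thr 5 53 (.thr 6 7 (.thr 9 3 (.thr 1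 13 (.thr 41 61 (.thr 44 35 (.thr 60 28 (.thr 45 33 (.thr 15 30 (.thr 47 46 (.thr 31 63 (.thr 51 39 (.thr 23 19 (.dbl 22 20 54)))))))))))))) .nd)))))))))))) (.rp 20 (.thr 53 5 (.thr 39 36 (.thr 55 4 (.thr 52 54 (.dbl 7 22 23))))) (.rp 7 (.thr 5 53 (.thr 39 36 (.thr 15 51 (.thr 0 10 (.thr 42 63 (.thr 46 34 (.thr 47 32 (.thr 44 45 (.dbl 35 41 43))))))))) (.rp 6 (.thr 53 5 (.thr 39 36 (.thr 55 4 (.thr 7 23 (.dbl 52 22 54))))) (.rp 5 (.thr 39 36 (.thr 55 4 (.thr 7 23 (.thr 52 22 (.thr 54 53 (.thr 51 15 (.thr 63 59 (.thr 60 57 (.thr 61 62 (.thr 41 1 (.thr 35 44 (.thr 47 43 (.dbl 42 0 32))))))))))))) (.rp 4 (.thr 5 53 (.thr 39 36 (.thr 15 51 (.thr 0 10 (.thr 42 63 (.thr 46 34 (.thr 47 32 (.thr 44 45 (.dbl 35 41 43))))))))) .nd)))))))))))) (.rp 23 (.thr 5 53 (.thr 36 39 (.thr 4 55 (.thr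 7 6 (.dbl 52 20 22))))) (.rp 22 .ext (.rp 20 (.thr 53 5 (.thr 39 36 (.thr 55 4 (.thr 52 54 (.dbl 7 22 23))))) (.rp 7 (.thr 4 55 (.thr 39 36 (.str 42 (.nv (.thr 0 63 (.thr 5 53 (.thr 15 10 (.thr 34 46 (.dbl 51 17 27))))) (.nv (.thr 46 34 (.thr 47 32 (.thr 44 45 (.dbl 35 41 43)))) (.rp 46 (.thr 47 32 (.thr 43 35 (.thr 63 0 (.thr 3 23 (.thr 53 5 (.thr 48 58 (.thr 33 18 (.dbl 41 40 45)))))))) (.rp 34 (.thr 47 32 (.thr 35 43 (.thr 44 41 (.thr 45 46 (.thr 0 63 (.thr 12 8 (.thr 60 28 (.thr 15 30 (.dbl 5 10 53))))))))) (.rp 27 (.str 24 (.nv (.thr 0 63 (.thr 32 47 (.thr 16 48 (.thr 20 28 (.thr 40 60 (.dbl 8 12 56)))))) (.nv (.thr 46 34 (.thr 47 32 (.thr 44 45 (.dbl 35 41 43)))) (.rp 47 (.thr 0 63 (.thr 8 12 (.thr 40 56 (.thr 41 43 (.thr 60 20 (.thr 1 61 (.dbl 3 2 22))))))) (.rp 44 (.thr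 0 63 (.thr 8 12 (.thr 40 56 (.thr 47 32 (.dbl 43 35 41))))) (.rp 32 (.thr 0 63 (.thr 8 12 (.thr 40 56 (.thr 41 43 (.thr 60 20 (.thr 1 61 (.dbl 3 2 22))))))) .nd)))))) (.rp 24 (.str 27 (.nv (.thr 0 63 (.thr 5 53 (.dbl 15 10 51))) (.nv (.thr 46 34 (.thr 47 32 (.thr 35 43 (.dbl 44 41 45)))) (.nv (.thr 34 46 (.thr 0 63 (.dbl 51 15 17))) (.rp 48 (.str 12 (.nv (.dbl 0 8 63) (.rp 63 (.thr 0 8 (.thr 34 46 (.dbl 51 15 17))) (.rp 8 (.thr 46 34 (.dbl 63 0 29)) (.rp 0 (.thr 15 51 (.thr 13 14 (.thr 5 53 (.thr 1 9 (.thr 41 61 (.thr 35 44 (.dbl 47 32 43))))))) .nd))))) (.rp 12 (.str 48 (.nv (.thr 46 34 (.thr 47 32 (.thr 35 43 (.dbl 44 41 45)))) (.nv (.thr 53 5 (.dbl 63 0 58)) .nd))) .nd)))))) .nd))))))))) (.rp 5 (.thr 39 36 (.str 42 (.nv (.thr 47 32 (.thr 55 4 (.thr 63 0 (.thr 15 31 (.dbl 51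 27 59))))) (.nv (.thr 46 34 (.thr 47 32 (.thr 44 45 (.dbl 35 41 43)))) (.rp 47 (.thr 63 0 (.thr 55 4 (.thr 7 23 (.thr 52 22 (.thr 54 53 (.thr 51 59 (.thr 60 57 (.thr 61 62 (.thr 41 1 (.thr 45 33 (.dbl 15 27 30))))))))))) (.rp 44 (.thr 34 46 (.thr 0 63 (.thr 55 4 (.thr 7 23 (.thr 52 22 (.thr 54 53 (.thr 51 17 (.thr 60 57 (.thr 48 56 (.dbl 32 16 47)))))))))) (.rp 32 (.thr 63 0 (.thr 55 4 (.thr 7 23 (.thr 52 22 (.thr 54 53 (.thr 51 59 (.thr 60 57 (.thr 61 62 (.thr 41 1 (.thr 45 33 (.dbl 15 27 30))))))))))) (.rp 27 (.str 24 (.nv (.thr 0 63 (.thr 32 47 (.thr 16 48 (.thr 20 28 (.thr 55 4 (.dbl 23 7 22)))))) (.nv (.thr 46 34 (.thr 47 32 (.thr 44 45 (.dbl 35 41 43)))) (.rp 47 (.thr 4 55 (.thr 0 63 (.thr 8 12 (.thr 40 56 (.thr 41 43 (.thr 60 20 (.thr 1 61 (.dbl 3 2 22)))))))) (.rp 32 (.thr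 4 55 (.thr 0 63 (.thr 8 12 (.thr 40 56 (.thr 41 43 (.thr 60 20 (.thr 1 61 (.dbl 3 2 22)))))))) .nd))))) (.rp 24 (.str 27 (.nv (.thr 15 51 (.thr 47 32 (.dbl 63 0 31))) (.nv (.thr 46 34 (.thr 47 32 (.thr 35 43 (.dbl 44 41 45)))) (.nv (.thr 34 46 (.thr 51 15 (.dbl 0 17 63))) (.rp 48 (.str 12 (.nv (.thr 0 63 (.dbl 4 8 55)) (.nv (.thr 46 34 (.dbl 63 0 29)) (.rp 63 (.thr 46 34 (.thr 47 32 (.thr 35 43 (.dbl 44 41 45)))) (.rp 0 (.thr 46 34 (.thr 63 29 (.thr 55 4 (.dbl 51 15 59)))) .nd))))) (.rp 12 (.str 48 (.nv (.thr 34 46 (.thr 51 15 (.dbl 0 17 63))) (.nv (.thr 46 34 (.thr 47 32 (.thr 35 43 (.dbl 44 41 45)))) (.nv (.thr 32 47 (.dbl 0 16 63)) .nd)))) .nd)))))) .nd))))))))) (.rp 4 (.thr 5 53 (.str 42 (.nv (.thr 0 63 (.thr 15 10 (.thr 34 46 (.thr 39 36 (.dbl 51 17 27))))) (.nv (.thr 36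 39 (.thr 34 46 (.thr 32 47 (.thr 35 33 (.dbl 44 40 41))))) (.rp 46 (.thr 39 36 (.thr 47 32 (.thr 43 35 (.thr 63 0 (.thr 23 3 (.thr 7 55 (.dbl 22 20 52))))))) (.rp 39 (.thr 46 34 (.thr 47 32 (.thr 45 44 (.thr 0 63 (.thr 15 10 (.thr 60 30 (.thr 40 20 (.dbl 41 33 43)))))))) (.rp 36 (.thr 34 46 (.thr 32 47 (.thr 33 35 (.thr 0 63 (.thr 17 51 (.thr 1 49 (.dbl 41 45 61))))))) (.rp 34 (.thr 36 39 (.thr 32 47 (.thr 40 44 (.thr 0 63 (.thr 15 10 (.thr 60 20 (.thr 45 30 (.dbl 41 33 43)))))))) (.rp 27 (.str 24 (.nv (.thr 0 63 (.thr 32 47 (.thr 36 39 (.dbl 48 12 16)))) (.nv (.thr 32 47 (.thr 34 46 (.thr 35 33 (.thr 44 41 (.dbl 36 39 40))))) (.nv (.thr 46 34 (.thr 63 0 (.thr 12 29 (.dbl 36 39 48)))) (.rp 39 (.thr 0 63 (.thr 32 47 (.thr 48 16 (.thr 36 12 (.thr 44 40 (.thr 35 41 (.dbl 34 33 46)))))))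 (.rp 36 (.thr 0 63 (.thr 32 47 (.thr 34 46 (.thr 33 35 (.thr 17 51 (.thr 1 49 (.dbl 41 45 61))))))) .nd)))))) (.rp 24 (.str 27 (.nv (.thr 32 47 (.thr 34 46 (.thr 35 33 (.thr 36 39 (.dbl 44 40 41))))) (.nv (.thr 0 63 (.thr 15 10 (.dbl 39 36 51))) (.rp 39 (.thr 46 34 (.thr 47 32 (.thr 45 44 (.thr 0 63 (.thr 15 10 (.thr 60 30 (.thr 40 20 (.dbl 41 33 43)))))))) (.rp 36 (.thr 34 46 (.thr 0 63 (.thr 15 10 (.dbl 51 17 39)))) .nd))))) .nd)))))))))) .nd))))))))))))))))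

theorem w523 : WinAt (137441050624, 100663296) :=
  chF (K := [(412318957568, 104857600)]) (kc w522 kn) c523 137441050624 100663296 25
    [251658240] (by decide +kernel) (by decide +kernel)

end Pool.Agent.TTT.B43
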