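import Pool.Agent.TTT.Q25

/-!
Certified forced wins in positions of the 4 x 4 x 4 board.
-/

set_option autoImplicit false
set_option maxRecDepth 1000000
set_option linter.all false

namespace Pool.Agent.TTT.B43

/-- A certificate. -/
noncomputable def c524 : Ct := (.str 25 (.nv (.thr 17 29 (.thr 49 13 (.thr 1 33 (.dbl 61 41 57)))) (.rp 61 (.str 63 (.nv (.thr 13 49 (.thr 29 17 (.thr 12 46 (.thr 15 14 (.thr 47 31 (.dbl 42 0 32)))))) (.nv (.thr 42 0 (.thr 48 58 (.thr 59 8 (.thr 51 55 (.dbl 49 13 50))))) (.nv (.thr 29 17 (.thr 12 46 (.thr 48 58 (.thr 36 24 (.dbl 38 39 51))))) (.rp 42 (.thr 29 17 (.thr 13 49 (.thr 12 46 (.thr 38 51 (.thr 36 39 (.thr 15 14 (.dbl 48 24 58))))))) (.rp 12 (.thr 49 13 (.thr 48 58 (.thr 51 50 (.thr 59 55 (.dbl 42 0 8))))) .nd)))))) (.rp 57 (.str 55 (.nv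 (.thr 17 29 (.thr 38 4 (.thr 51 12 (.thr 0 34 (.dbl 63 42 59))))) (.nv (.thr 38 4 (.thr 39 36 (.thr 52 54 (.dbl 7 22 23)))) (.rp 51 (.thr 38 4 (.thr 39 36 (.thr 7 23 (.dbl 52 22 54)))) (.rp 38 (.thr 29 17 (.thr 13 49 (.thr 45 61 (.thr 52 54 (.thr 22 7 (.thr 23 20 (.thr 28 19 (.thr 30 31 (.thr 60 15 (.dbl 41 3 33)))))))))) (.rp 7 (.thr 17 29 (.thr 54 52 (.thr 38 4 (.thr 6 22 (.thr 51 12 (.thr 63 59 (.dbl 0 34 42))))))) (.rp 6 (.thr 52 54 (.thr 7 22 (.thr 38 4 (.dbl 39 23 36)))) (.rp 4 (.thr 17 29 (.thr 52 54 (.thr 7 22 (.thr 39 23 (.thr 38 36 (.thr 51 12 (.thr 63 59 (.dbl 0 34 42)))))))) .nd)))))))) (.rp 49 (.str 63 (.nv (.thr 29 17 (.thr 12 46 (.thr 38 51 (.thr 39 36 (.thr 55 4 (.thr 7 23 (.dbl 52 22 54))))))) (.nv (.thr 29 17 (.thr 12 46 (.thr 48 58 (.thr 36 24 (.dbl 38 39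 51))))) (.nv (.thr 17 29 (.thr 0 42 (.thr 51 34 (.thr 38 12 (.dbl 55 4 59))))) (.rp 51 (.thr 29 17 (.thr 46 12 (.thr 42 0 (.thr 34 38 (.thr 47 32 (.thr 45 44 (.thr 61 13 (.dbl 41 1 33)))))))) (.rp 38 (.thr 29 17 (.thr 46 12 (.thr 42 0 (.thr 47 32 (.thr 45 44 (.thr 61 13 (.dbl 41 1 33))))))) (.rp 29 (.thr 42 0 (.thr 59 8 (.thr 55 51 (.thr 52 54 (.thr 7 22 (.thr 39 23 (.dbl 38 4 36))))))) (.rp 17 (.thr 58 48 (.thr 42 0 (.thr 59 8 (.thr 51 55 (.thr 57 56 (.thr 41 9 (.thr 60 54 (.dbl 61 1 62)))))))) (.rp 12 (.thr 17 29 (.thr 58 48 (.thr 0 42 (.thr 51 34 (.thr 55 59 (.thr 54 52 (.thr 60 57 (.dbl 62 50 61)))))))) .nd))))))))) (.rp 45 (.thr 17 29 (.thr 49 13 (.thr 61 57 (.dbl 1 33 41)))) (.rp 41 (.thr 29 17 (.str 52 (.nv (.thr 55 54 (.thr 4 38 (.thr 22 7 (.dbl 20 23 36)))) (.nv (.thr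 55 54 (.thr 38 4 (.thr 39 36 (.dbl 7 22 23)))) (.rp 56 (.str 11 (.nv (.thr 7 22 (.thr 13 49 (.thr 55 54 (.thr 38 4 (.thr 12 51 (.dbl 15 3 14)))))) (.nv (.thr 55 54 (.thr 38 4 (.thr 39 36 (.dbl 7 22 23)))) (.rp 55 (.thr 13 49 (.thr 45 61 (.thr 22 7 (.thr 23 20 (.thr 28 19 (.thr 30 31 (.thr 15 60 (.thr 12 14 (.thr 38 51 (.thr 36 39 (.thr 48 24 (.dbl 63 46 58)))))))))))) (.rp 54 (.thr 13 49 (.thr 45 61 (.thr 22 7 (.thr 23 20 (.thr 28 19 (.thr 30 31 (.thr 15 60 (.thr 12 14 (.thr 63 46 (.thr 48 58 (.thr 36 24 (.dbl 38 39 51)))))))))))) (.rp 38 (.thr 49 13 (.thr 57 61 (.thr 7 22 (.thr 54 55 (.thr 15 3 (.thr 60 51 (.thr 30 45 (.thr 31 28 (.thr 63 47 (.thr 46 12 (.thr 58 48 (.dbl 62 14 50)))))))))))) (.rp 22 (.thr 49 13 (.thr 55 54 (.thr 38 4 (.thr 51 12 (.thr 63 59 (.dbl 48 50 58))))))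 (.rp 7 (.thr 49 13 (.thr 57 61 (.thr 54 55 (.thr 51 60 (.thr 12 38 (.thr 63 46 (.dbl 48 50 58))))))) (.rp 4 (.thr 49 13 (.thr 57 61 (.thr 54 55 (.thr 51 60 (.thr 38 12 (.dbl 22 6 7)))))) .nd))))))))) (.rp 55 (.thr 13 49 (.thr 45 61 (.thr 22 7 (.thr 23 20 (.thr 28 19 (.thr 30 31 (.thr 60 15 (.thr 12 44 (.thr 63 46 (.dbl 48 56 58)))))))))) (.rp 54 (.thr 13 49 (.thr 45 61 (.thr 22 7 (.thr 23 20 (.thr 28 19 (.thr 30 31 (.thr 60 15 (.thr 12 44 (.thr 63 46 (.dbl 48 56 58)))))))))) (.rp 38 (.thr 49 13 (.thr 57 61 (.thr 54 55 (.thr 60 51 (.thr 56 48 (.thr 22 7 (.thr 59 58 (.thr 42 8 (.thr 0 63 (.dbl 20 23 40)))))))))) (.rp 36 (.thr 49 13 (.thr 57 61 (.thr 54 55 (.thr 51 60 (.thr 38 12 (.dbl 22 6 7)))))) (.rp 23 (.thr 49 13 (.thr 57 61 (.thr 54 55 (.thr 51 60 (.thr 38 12 (.dbl 22 6 7))))))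 (.rp 22 (.thr 49 13 (.thr 55 54 (.thr 38 4 (.thr 51 12 (.thr 63 59 (.dbl 48 50 58)))))) (.rp 11 (.str 56 (.nv (.thr 48 60 (.thr 49 13 (.thr 57 61 (.dbl 58 59 63)))) (.nv (.thr 55 54 (.thr 38 4 (.thr 39 36 (.dbl 7 22 23)))) (.rp 59 (.str 43 (.nv (.thr 22 7 (.thr 23 20 (.thr 48 60 (.dbl 63 3 58)))) (.nv (.thr 49 13 (.thr 57 61 (.thr 60 48 (.dbl 54 51 55)))) (.nv (.thr 55 54 (.thr 38 4 (.thr 39 36 (.dbl 7 22 23)))) .nd)))) (.rp 43 (.str 59 (.nv (.thr 42 8 (.thr 55 54 (.dbl 63 0 51))) (.nv (.thr 58 57 (.dbl 48 60 63)) (.rp 63 (.thr 49 13 (.dbl 57 58 61)) (.rp 42 (.str 40 (.nv (.thr 22 7 (.thr 24 8 (.thr 28 19 (.dbl 20 16 23)))) (.nv (.thr 58 57 (.dbl 48 60 63)) (.rp 58 (.str 10 (.nv (.thr 55 54 (.thr 4 38 (.thr 20 36 (.dbl 60 0 48)))) (.nv (.thr 60 48 (.thr 20 0 (.dbl 22 7 23)))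 (.nv (.thr 55 54 (.thr 38 4 (.dbl 51 12 63))) .nd)))) .nd)))) .nd))))) (.rp 22 (.thr 49 13 (.thr 57 61 (.thr 60 48 (.dbl 54 51 55)))) .nd)))))) (.rp 7 (.thr 49 13 (.thr 57 61 (.thr 54 55 (.thr 51 60 (.thr 12 38 (.thr 63 46 (.dbl 48 50 58))))))) (.rp 4 (.thr 49 13 (.thr 57 61 (.thr 54 55 (.thr 51 60 (.thr 38 12 (.dbl 22 6 7)))))) .nd)))))))))))))) (.rp 33 (.str 55 (.nv (.thr 49 13 (.thr 54 52 (.thr 57 61 (.thr 51 60 (.dbl 38 4 12))))) (.nv (.thr 17 29 (.thr 38 4 (.thr 51 12 (.thr 0 34 (.dbl 63 42 59))))) (.nv (.thr 38 4 (.thr 39 36 (.thr 52 54 (.dbl 7 22 23)))) (.rp 38 (.thr 49 13 (.thr 57 61 (.thr 54 52 (.thr 51 60 (.thr 63 59 (.dbl 48 50 58)))))) (.rp 4 (.thr 49 13 (.thr 57 61 (.thr 54 52 (.thr 51 60 (.thr 63 59 (.dbl 48 50 58)))))) .nd)))))) (.rp 29 (.str 63 (.nv (.thr 0 42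 (.thr 49 13 (.thr 61 57 (.thr 60 62 (.thr 20 40 (.thr 22 23 (.dbl 41 1 3))))))) (.nv (.thr 42 0 (.thr 48 58 (.thr 59 8 (.thr 51 55 (.dbl 49 13 50))))) (.rp 58 (.thr 13 49 (.thr 42 0 (.thr 47 32 (.thr 15 31 (.thr 12 14 (.thr 59 8 (.dbl 51 38 55))))))) (.rp 49 (.thr 42 0 (.thr 59 8 (.thr 55 51 (.thr 52 54 (.thr 7 22 (.thr 39 23 (.dbl 38 4 36))))))) (.rp 42 (.thr 49 13 (.thr 61 57 (.thr 62 60 (.thr 58 48 (.thr 54 50 (.thr 52 55 (.thr 22 7 (.thr 23 20 (.thr 3 43 (.thr 19 28 (.thr 51 35 (.dbl 38 6 12)))))))))))) (.rp 13 (.thr 58 48 (.thr 42 0 (.thr 59 8 (.thr 57 56 (.thr 61 49 (.dbl 41 1 9)))))) (.rp 10 (.thr 49 13 (.thr 61 57 (.thr 60 62 (.thr 58 48 (.thr 0 42 (.thr 20 40 (.thr 22 23 (.dbl 41 1 3)))))))) (.rp 0 (.thr 49 13 (.thr 48 58 (.thr 51 50 (.thr 55 59 (.dbl 38 4 12))))) .nd)))))))))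 (.rp 17 (.str 55 (.nv (.thr 49 13 (.thr 54 52 (.thr 57 61 (.thr 51 60 (.dbl 38 4 12))))) (.nv (.thr 38 4 (.thr 49 13 (.thr 51 12 (.thr 48 50 (.dbl 63 58 59))))) (.nv (.thr 38 4 (.thr 39 36 (.thr 52 54 (.dbl 7 22 23)))) (.rp 38 (.thr 49 13 (.thr 57 61 (.thr 54 52 (.thr 51 60 (.thr 63 59 (.dbl 48 50 58)))))) (.rp 4 (.thr 49 13 (.thr 57 61 (.thr 54 52 (.thr 51 60 (.thr 63 59 (.dbl 48 50 58)))))) .nd)))))) (.rp 13 (.thr 29 17 (.str 38 (.nv (.thr 12 51 (.thr 63 46 (.thr 48 58 (.dbl 36 24 39)))) (.nv (.thr 55 4 (.thr 39 36 (.thr 52 54 (.dbl 7 22 23)))) (.rp 39 (.thr 55 4 (.thr 54 52 (.thr 51 12 (.thr 57 60 (.thr 61 49 (.dbl 41 1 9)))))) (.rp 36 (.thr 4 55 (.thr 12 51 (.thr 63 46 (.dbl 0 8 42)))) (.rp 9 (.str 1 (.nv (.thr 12 51 (.thr 41 61 (.thr 44 35 (.thr 45 33 (.dbl 46 47 63)))))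 (.nv (.thr 39 36 (.thr 55 4 (.thr 52 54 (.dbl 7 22 23)))) (.rp 39 (.thr 61 41 (.thr 57 49 (.thr 51 12 (.thr 54 60 (.dbl 55 4 52))))) .nd)))) (.rp 1 (.str 9 (.nv (.thr 51 12 (.thr 55 4 (.thr 57 41 (.dbl 54 52 60)))) (.nv (.thr 12 51 (.thr 63 46 (.thr 48 58 (.dbl 36 24 39)))) (.nv (.thr 39 36 (.thr 55 4 (.thr 52 54 (.dbl 7 22 23)))) (.rp 49 (.str 33 (.nv (.dbl 41 45 57) (.rp 57 (.thr 12 51 (.thr 63 46 (.thr 3 6 (.dbl 48 18 58)))) (.rp 45 (.thr 57 41 (.thr 51 12 (.thr 54 60 (.dbl 55 4 52)))) (.rp 41 (.thr 12 51 (.thr 63 46 (.thr 3 6 (.dbl 48 18 58)))) .nd))))) (.rp 33 (.str 49 (.nv (.dbl 57 41 61) (.rp 61 (.thr 57 41 (.thr 51 12 (.thr 54 60 (.dbl 55 4 52)))) (.rp 57 (.thr 12 51 (.thr 6 3 (.thr 54 22 (.dbl 55 4 52)))) (.rp 41 (.thr 57 61 (.thr 51 12 (.thr 54 60 (.dbl 55 4 52))))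 .nd))))) .nd)))))) .nd)))))))) (.rp 1 (.thr 13 49 (.thr 17 29 (.str 38 (.nv (.thr 51 12 (.thr 0 34 (.thr 63 42 (.dbl 55 4 59)))) (.nv (.thr 39 36 (.thr 55 4 (.thr 52 54 (.dbl 7 22 23)))) (.rp 55 (.thr 12 51 (.thr 15 14 (.thr 36 39 (.thr 48 24 (.thr 63 58 (.thr 47 31 (.dbl 42 0 32))))))) (.rp 4 (.thr 51 12 (.thr 0 34 (.thr 63 42 (.thr 55 59 (.thr 39 36 (.thr 7 23 (.dbl 52 22 54))))))) .nd))))))) .nd))))))))))))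

theorem w524 : WinAt (9007336695791616, 201326624) :=
  chF (K := []) kn c524 9007336695791616 201326624 5
    [251658240] (by decide +kernel) (by decide +kernel)

/-- A certificate. -/
noncomputable def c525 : Ct := (.str 1 (.nv (.thr 13 9 (.thr 41 61 (.thr 49 25 (.dbl 33 17 45)))) (.nv (.thr 13 9 (.thr 25 49 (.thr 29 17 (.dbl 61 41 45)))) (.rp 61 (.str 4 (.nv (.thr 7 6 (.thr 22 52 (.thr 55 38 (.dbl 23 20 39)))) (.nv (.thr 7 6 (.thr 38 55 (.thr 36 39 (.dbl 52 20 22)))) (.rp 57 (.str 49 (.nv (.dbl 13 9 25) (.rp 25 (.thr 7 6 (.thr 22 52 (.thr 23 20 (.dbl 55 38 39)))) (.rp 13 (.thr 7 6 (.thr 52 22 (.thr 36 20 (.dbl 38 39 55)))) (.rp 9 (.thr 17 33 (.dbl 25 13 29)) .nd))))) (.rp 55 (.thr 9 13 (.thr 6 7 (.thr 3 12 (.thr 0 2 (.thr 42 63 (.thr 32 47 (.thr 48 16 (.thr 33 18 (.thr 34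 35 (.dbl 17 49 51)))))))))) (.rp 52 (.thr 9 13 (.thr 6 7 (.thr 12 3 (.thr 0 8 (.thr 63 42 (.thr 29 46 (.thr 25 17 (.dbl 38 51 55)))))))) (.rp 49 (.str 57 (.nv (.thr 6 7 (.thr 9 13 (.thr 12 3 (.thr 25 41 (.dbl 38 51 55))))) (.nv (.thr 9 13 (.thr 25 41 (.thr 38 55 (.thr 12 51 (.thr 0 8 (.dbl 3 2 6)))))) (.nv (.thr 7 6 (.thr 38 55 (.thr 36 39 (.dbl 52 20 22)))) (.rp 55 (.thr 9 13 (.thr 25 41 (.thr 29 17 (.thr 6 7 (.thr 12 3 (.thr 0 8 (.dbl 63 42 46))))))) (.rp 38 (.thr 9 13 (.thr 25 41 (.thr 29 17 (.thr 6 7 (.thr 12 3 (.thr 0 8 (.dbl 63 42 46))))))) (.rp 6 (.thr 9 13 (.thr 25 41 (.thr 29 17 (.thr 38 55 (.thr 12 51 (.thr 0 8 (.dbl 63 42 46))))))) .nd))))))) (.rp 39 (.thr 9 13 (.thr 6 7 (.thr 12 3 (.thr 0 8 (.thr 63 42 (.thr 29 46 (.thr 25 17 (.dbl 38 51 55)))))))) (.rp 38 (.thr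 13 9 (.thr 49 25 (.thr 33 17 (.thr 41 45 (.thr 7 6 (.thr 22 52 (.thr 3 60 (.thr 15 11 (.dbl 0 2 10))))))))) (.rp 22 (.thr 9 13 (.thr 6 7 (.thr 12 3 (.thr 0 8 (.thr 38 55 (.thr 39 36 (.thr 15 10 (.dbl 51 25 27)))))))) (.rp 20 (.thr 9 13 (.thr 6 7 (.thr 12 3 (.thr 0 8 (.thr 38 55 (.thr 39 36 (.thr 51 25 (.dbl 15 10 27)))))))) (.rp 7 (.thr 13 9 (.thr 49 25 (.thr 33 17 (.thr 41 45 (.thr 38 55 (.thr 39 36 (.thr 35 44 (.thr 47 43 (.dbl 32 34 42))))))))) (.rp 6 (.thr 13 9 (.thr 49 25 (.thr 33 17 (.thr 41 45 (.thr 38 55 (.thr 39 36 (.thr 35 44 (.thr 47 43 (.dbl 32 34 42))))))))) .nd))))))))))))) (.rp 49 (.str 4 (.nv (.thr 61 41 (.thr 7 6 (.thr 22 52 (.thr 55 38 (.dbl 23 20 39))))) (.nv (.thr 6 7 (.thr 9 13 (.thr 12 3 (.thr 38 55 (.thr 25 51 (.dbl 41 57 61)))))) (.nv (.thr 7 6 (.thr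 38 55 (.thr 36 39 (.dbl 52 20 22)))) (.rp 61 (.str 57 (.nv (.thr 6 7 (.thr 9 13 (.thr 12 3 (.thr 25 41 (.dbl 38 51 55))))) (.nv (.thr 9 13 (.thr 25 41 (.thr 38 55 (.thr 12 51 (.thr 0 8 (.dbl 3 2 6)))))) (.nv (.thr 7 6 (.thr 38 55 (.thr 36 39 (.dbl 52 20 22)))) (.rp 55 (.thr 9 13 (.thr 25 41 (.thr 29 17 (.thr 6 7 (.thr 12 3 (.thr 0 8 (.dbl 63 42 46))))))) (.rp 38 (.thr 9 13 (.thr 25 41 (.thr 29 17 (.thr 6 7 (.thr 12 3 (.thr 0 8 (.dbl 63 42 46))))))) (.rp 6 (.thr 9 13 (.thr 25 41 (.thr 29 17 (.thr 38 55 (.thr 12 51 (.thr 0 8 (.dbl 63 42 46))))))) .nd))))))) (.rp 55 (.thr 9 13 (.thr 6 7 (.thr 12 3 (.thr 0 8 (.thr 63 42 (.thr 29 46 (.thr 25 17 (.dbl 41 57 61)))))))) (.rp 52 (.thr 9 13 (.thr 6 7 (.thr 12 3 (.thr 38 55 (.thr 54 22 (.thr 25 51 (.dbl 41 57 61))))))) (.rp 39 (.thr 13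 9 (.thr 61 41 (.thr 29 45 (.thr 25 17 (.thr 38 55 (.thr 12 51 (.thr 0 8 (.dbl 15 10 14)))))))) (.rp 38 (.thr 9 13 (.thr 41 61 (.thr 57 25 (.thr 7 6 (.thr 22 52 (.thr 3 60 (.thr 15 11 (.dbl 0 2 10)))))))) (.rp 7 (.thr 13 9 (.thr 61 41 (.thr 29 45 (.thr 25 17 (.thr 38 55 (.thr 12 51 (.thr 0 8 (.dbl 15 10 14)))))))) (.rp 6 (.thr 13 9 (.thr 61 41 (.thr 29 45 (.thr 25 17 (.thr 38 55 (.thr 12 51 (.thr 0 8 (.dbl 15 10 14)))))))) .nd))))))))))) (.rp 45 (.str 4 (.nv (.thr 7 6 (.thr 22 52 (.thr 41 61 (.thr 3 60 (.thr 0 2 (.dbl 15 10 11)))))) (.nv (.thr 7 6 (.thr 38 55 (.thr 36 39 (.dbl 52 20 22)))) (.rp 55 (.thr 9 13 (.thr 6 7 (.thr 12 3 (.thr 0 8 (.thr 63 42 (.thr 41 61 (.thr 29 46 (.dbl 25 17 57)))))))) (.rp 54 (.thr 7 6 (.thr 52 22 (.thr 38 55 (.dbl 36 20 39)))) (.rp 52 (.thr 9 13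 (.thr 6 7 (.thr 12 3 (.thr 38 55 (.thr 54 22 (.thr 25 51 (.dbl 41 57 61))))))) (.rp 22 (.thr 13 9 (.thr 25 49 (.thr 38 55 (.thr 12 51 (.thr 0 8 (.dbl 15 10 14)))))) (.rp 7 (.thr 13 9 (.thr 25 49 (.thr 38 55 (.thr 12 51 (.thr 0 8 (.dbl 15 10 14)))))) (.rp 6 (.thr 13 9 (.thr 25 49 (.thr 38 55 (.thr 12 51 (.thr 0 8 (.dbl 15 10 14)))))) .nd))))))))) (.rp 41 (.thr 13 9 (.thr 25 49 (.thr 29 17 (.thr 61 45 (.str 12 (.nv (.thr 63 46 (.thr 42 0 (.thr 47 32 (.dbl 15 14 31)))) (.nv (.thr 38 51 (.thr 4 55 (.thr 7 6 (.thr 52 22 (.dbl 36 20 39))))) (.nv (.thr 15 14 (.thr 0 10 (.dbl 63 42 46))) (.rp 63 (.thr 15 14 (.thr 0 10 (.thr 38 51 (.dbl 4 8 55)))) (.rp 56 (.str 11 (.nv (.thr 63 46 (.thr 42 0 (.thr 59 8 (.dbl 51 38 55)))) (.nv (.thr 15 14 (.thr 3 7 (.dbl 0 2 10))) (.rp 38 (.thr 63 46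 (.thr 42 0 (.thr 47 32 (.dbl 15 14 31)))) (.rp 0 (.thr 15 14 (.thr 7 3 (.thr 4 6 (.dbl 38 51 55)))) .nd))))) (.rp 11 (.str 56 (.nv (.thr 63 46 (.thr 42 0 (.thr 47 32 (.dbl 15 14 31)))) (.nv (.thr 51 38 (.thr 63 46 (.thr 59 55 (.thr 57 58 (.dbl 60 54 62))))) (.nv (.thr 38 51 (.thr 36 39 (.thr 48 24 (.thr 52 60 (.dbl 4 20 55))))) (.nv (.thr 15 14 (.thr 63 46 (.dbl 0 10 42))) (.rp 10 (.str 8 (.nv (.thr 42 59 (.thr 4 0 (.dbl 38 51 55))) (.nv (.thr 24 40 (.thr 36 48 (.dbl 38 39 51))) (.nv (.thr 0 4 (.dbl 42 59 63)) (.rp 42 (.str 58 (.nv (.thr 51 38 (.thr 59 57 (.dbl 63 46 55))) (.nv (.thr 40 24 (.thr 0 4 (.thr 63 46 (.dbl 60 20 62)))) (.nv (.thr 4 0 (.dbl 38 51 55)) (.rp 40 (.str 43 (.nv (.thr 51 38 (.thr 59 57 (.dbl 63 46 55))) (.nv (.thr 0 4 (.thr 3 2 (.dbl 63 23 46))) (.nv (.thr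 4 0 (.dbl 38 51 55)) .nd)))) (.rp 38 (.thr 4 0 (.thr 59 57 (.thr 7 6 (.thr 22 52 (.thr 23 20 (.thr 55 39 (.dbl 63 46 51))))))) (.rp 34 (.thr 0 4 (.thr 38 51 (.thr 36 39 (.dbl 24 40 48)))) .nd))))))) .nd))))) (.rp 8 (.str 10 (.nv (.dbl 15 0 14) (.rp 15 (.thr 63 46 (.thr 60 62 (.thr 48 52 (.thr 36 24 (.dbl 38 39 51))))) (.rp 14 (.thr 0 15 (.dbl 63 42 46)) (.rp 0 (.thr 14 15 (.thr 6 2 (.thr 7 4 (.thr 22 52 (.dbl 38 51 54))))) .nd))))) .nd))))))) (.rp 0 (.thr 15 14 (.thr 63 46 (.thr 47 31 (.thr 42 32 (.thr 59 8 (.dbl 51 38 55)))))) .nd)))))))))))) (.rp 25 (.str 22 (.nv (.thr 7 52 (.thr 9 13 (.thr 41 61 (.thr 3 60 (.dbl 6 4 12))))) (.nv (.thr 41 61 (.thr 3 60 (.thr 0 2 (.thr 63 42 (.dbl 23 20 43))))) (.nv (.thr 23 20 (.thr 7 52 (.thr 55 39 (.dbl 4 6 38)))) (.rp 27 (.str 24 (.nv (.thr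 7 52 (.thr 9 13 (.thr 41 61 (.thr 3 60 (.dbl 6 4 12))))) (.nv (.thr 23 20 (.thr 41 61 (.thr 3 60 (.thr 0 2 (.dbl 63 42 43))))) (.nv (.thr 7 52 (.thr 4 6 (.thr 23 20 (.dbl 55 38 39)))) .nd)))) (.rp 24 (.str 27 (.nv (.thr 41 61 (.thr 3 60 (.thr 0 2 (.thr 63 42 (.dbl 23 20 43))))) (.nv (.thr 7 52 (.thr 4 6 (.thr 55 38 (.dbl 23 20 39)))) (.rp 23 (.thr 7 52 (.thr 6 4 (.thr 9 13 (.thr 41 61 (.dbl 3 12 60))))) (.rp 20 (.str 16 (.nv (.thr 41 61 (.thr 3 60 (.thr 0 2 (.thr 15 10 (.dbl 7 11 52))))) (.nv (.thr 41 61 (.thr 3 60 (.thr 0 2 (.thr 48 32 (.dbl 33 18 45))))) (.rp 63 (.thr 52 7 (.thr 41 61 (.thr 45 33 (.thr 60 3 (.thr 48 56 (.thr 0 32 (.dbl 15 10 30))))))) (.rp 62 (.thr 52 7 (.thr 41 61 (.thr 45 33 (.thr 60 3 (.thr 48 56 (.thr 0 32 (.dbl 15 10 30))))))) (.rp 61 (.thr 7 52 (.thr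 4 6 (.thr 55 38 (.thr 39 23 (.thr 51 15 (.thr 63 59 (.thr 0 42 (.thr 8 12 (.thr 3 2 (.thr 19 35 (.dbl 17 18 34))))))))))) (.rp 60 (.thr 7 52 (.thr 4 6 (.thr 55 38 (.thr 23 39 (.thr 19 31 (.thr 17 18 (.thr 33 49 (.dbl 41 45 61)))))))) (.rp 57 (.thr 7 52 (.thr 4 6 (.thr 55 38 (.thr 39 23 (.thr 51 15 (.thr 63 59 (.thr 42 0 (.thr 62 2 (.dbl 61 41 60))))))))) (.rp 49 (.thr 7 52 (.thr 4 6 (.thr 55 38 (.thr 39 23 (.thr 51 15 (.thr 63 59 (.thr 42 0 (.thr 62 2 (.dbl 61 41 60))))))))) (.rp 44 (.thr 7 52 (.thr 9 13 (.thr 41 61 (.thr 3 60 (.thr 12 6 (.thr 0 2 (.dbl 15 10 11))))))) (.rp 41 (.thr 7 52 (.thr 4 6 (.thr 55 38 (.thr 39 23 (.thr 51 15 (.thr 63 59 (.thr 0 42 (.thr 8 12 (.thr 3 2 (.thr 35 19 (.thr 34 17 (.dbl 32 33 48)))))))))))) (.rp 12 (.thr 52 7 (.thr 41 61 (.thr 45 33 (.thr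 60 3 (.thr 48 56 (.thr 0 32 (.dbl 15 10 30))))))) (.rp 3 (.thr 7 52 (.thr 4 6 (.thr 55 38 (.thr 23 39 (.thr 19 31 (.thr 17 18 (.thr 33 49 (.dbl 41 45 61)))))))) (.rp 2 (.thr 7 52 (.thr 9 13 (.thr 41 61 (.thr 3 60 (.dbl 6 4 12))))) (.rp 0 (.thr 7 52 (.thr 4 6 (.thr 55 38 (.thr 23 39 (.thr 19 31 (.thr 17 18 (.thr 33 49 (.dbl 41 45 61)))))))) .nd))))))))))))))) (.rp 16 (.thr 20 23 (.thr 7 52 (.thr 6 4 (.thr 9 13 (.thr 41 61 (.dbl 3 12 60)))))) (.rp 12 (.thr 20 23 (.thr 41 61 (.thr 45 33 (.thr 60 3 (.thr 0 40 (.dbl 15 10 30)))))) .nd))))))) .nd)))))) (.rp 17 (.str 4 (.nv (.thr 7 6 (.thr 22 52 (.thr 41 61 (.thr 3 60 (.thr 0 2 (.dbl 15 10 11)))))) (.nv (.thr 7 6 (.thr 38 55 (.thr 36 39 (.dbl 52 20 22)))) (.rp 55 (.thr 9 13 (.thr 41 61 (.thr 45 33 (.thr 6 7 (.thr 3 12 (.thr 60 22 (.thr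 0 2 (.dbl 15 10 30)))))))) (.rp 54 (.thr 7 6 (.thr 52 22 (.thr 38 55 (.dbl 36 20 39)))) (.rp 52 (.thr 9 13 (.thr 41 61 (.thr 6 7 (.thr 12 3 (.thr 38 55 (.thr 54 22 (.dbl 25 51 57))))))) (.rp 22 (.thr 13 9 (.thr 25 49 (.thr 38 55 (.thr 12 51 (.thr 0 8 (.dbl 15 10 14)))))) (.rp 7 (.thr 13 9 (.thr 25 49 (.thr 38 55 (.thr 12 51 (.thr 0 8 (.dbl 15 10 14)))))) (.rp 6 (.thr 13 9 (.thr 25 49 (.thr 38 55 (.thr 12 51 (.thr 0 8 (.dbl 15 10 14)))))) .nd))))))))) (.rp 13 (.str 4 (.nv (.thr 7 6 (.thr 22 52 (.thr 41 61 (.thr 3 60 (.thr 0 2 (.dbl 15 10 11)))))) (.nv (.thr 7 6 (.thr 38 55 (.thr 36 39 (.dbl 52 20 22)))) (.rp 55 (.thr 41 61 (.thr 45 33 (.thr 7 6 (.thr 52 22 (.thr 36 20 (.thr 38 39 (.thr 44 35 (.thr 32 40 (.dbl 47 42 46))))))))) (.rp 54 (.thr 7 6 (.thr 52 22 (.thr 38 55 (.dbl 36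 20 39)))) (.rp 52 (.thr 41 61 (.thr 7 6 (.thr 55 38 (.thr 23 39 (.thr 22 20 (.thr 3 60 (.thr 15 11 (.dbl 0 2 10)))))))) (.rp 22 (.thr 41 61 (.thr 45 33 (.thr 38 55 (.thr 36 39 (.thr 44 35 (.thr 32 40 (.dbl 47 42 46))))))) (.rp 7 (.thr 41 61 (.thr 45 33 (.thr 38 55 (.thr 44 35 (.thr 47 46 (.thr 32 42 (.dbl 36 39 40))))))) (.rp 6 (.thr 41 61 (.thr 45 33 (.thr 38 55 (.thr 36 39 (.thr 44 35 (.thr 32 40 (.dbl 47 42 46))))))) .nd))))))))) (.rp 9 (.str 4 (.nv (.thr 38 55 (.thr 36 39 (.thr 52 20 (.dbl 7 6 22)))) (.nv (.thr 7 6 (.thr 22 52 (.thr 41 61 (.thr 3 60 (.thr 0 2 (.dbl 15 10 11)))))) (.nv (.thr 7 6 (.thr 38 55 (.thr 36 39 (.dbl 52 20 22)))) (.rp 55 (.thr 41 61 (.thr 45 33 (.thr 7 6 (.thr 52 22 (.thr 36 20 (.thr 38 39 (.thr 44 35 (.thr 32 40 (.dbl 47 42 46))))))))) (.rp 54 (.thr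 7 6 (.thr 52 22 (.thr 38 55 (.dbl 36 20 39)))) (.rp 52 (.thr 41 61 (.thr 7 6 (.thr 55 38 (.thr 23 39 (.thr 22 20 (.thr 3 60 (.thr 15 11 (.dbl 0 2 10)))))))) (.rp 22 (.thr 41 61 (.thr 33 45 (.thr 38 55 (.thr 39 36 (.thr 35 44 (.thr 47 43 (.dbl 32 34 42))))))) (.rp 7 (.thr 41 61 (.thr 33 45 (.thr 38 55 (.thr 39 36 (.thr 35 44 (.thr 47 43 (.dbl 32 34 42))))))) (.rp 6 (.thr 41 61 (.thr 33 45 (.thr 38 55 (.thr 39 36 (.thr 35 44 (.thr 47 43 (.dbl 32 34 42))))))) .nd)))))))))) .nd)))))))))))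

theorem w525 : WinAt (137441050656, 9007199590285312) :=
  chF (K := []) kn c525 137441050656 9007199590285312 53
    [] (by decide +kernel) (by decide +kernel)

/-- A certificate. -/
noncomputable def c526 : Ct := (.str 55 (.nv (.thr 52 54 (.thr 7 22 (.thr 38 4 (.dbl 39 23 36)))) (.nv (.thr 52 54 (.thr 22 7 (.thr 20 23 (.dbl 4 36 38)))) (.rp 54 (.str 63 (.nv (.thr 38 4 (.thr 39 36 (.thr 51 59 (.thr 15 27 (.thr 47 31 (.thr 43 35 (.dbl 23 3 7))))))) (.nv (.thr 38 4 (.thr 36 39 (.thr 42 0 (.thr 32 47 (.thr 34 46 (.thr 35 33 (.dbl 44 40 41))))))) (.nv (.thr 42 0 (.thr 58 48 (.thr 59 51 (.thr 57 56 (.thr 49 61 (.dbl 25 8 13)))))) (.nv (.thr 38 4 (.thr 36 39 (.thr 51 59 (.thr 12 25 (.dbl 48 24 58))))) .nd))))) (.rp 52 (.str 63 (.nv (.thr 48 58 (.thr 51 59 (.thr 49 50 (.thr 25 13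 (.dbl 38 4 12))))) (.nv (.thr 38 4 (.thr 36 39 (.thr 42 0 (.thr 32 47 (.thr 34 46 (.thr 35 33 (.dbl 44 40 41))))))) (.nv (.thr 38 4 (.thr 36 39 (.thr 51 59 (.thr 12 25 (.dbl 48 24 58))))) (.rp 42 (.thr 38 4 (.thr 51 59 (.thr 25 12 (.thr 49 13 (.dbl 48 50 58))))) (.rp 38 (.thr 59 51 (.thr 58 48 (.thr 42 0 (.thr 25 8 (.thr 49 13 (.dbl 57 56 61)))))) (.rp 12 (.thr 51 59 (.thr 42 0 (.thr 47 32 (.thr 15 31 (.thr 39 27 (.dbl 38 4 36)))))) (.rp 4 (.thr 51 59 (.thr 42 0 (.thr 47 32 (.thr 15 31 (.thr 39 27 (.thr 43 35 (.dbl 23 3 7))))))) .nd)))))))) (.rp 38 (.str 63 (.nv (.thr 0 42 (.thr 52 54 (.thr 22 7 (.thr 20 23 (.thr 60 40 (.thr 41 3 (.dbl 61 1 62))))))) (.nv (.thr 42 0 (.thr 47 32 (.thr 15 31 (.thr 51 59 (.thr 39 27 (.thr 23 7 (.dbl 43 3 35))))))) (.nv (.thr 54 52 (.thr 51 59 (.thr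 60 57 (.thr 58 48 (.dbl 62 50 61))))) (.rp 50 (.str 14 (.nv (.thr 0 42 (.thr 51 59 (.thr 54 52 (.thr 60 57 (.thr 20 40 (.thr 22 23 (.thr 41 3 (.dbl 61 1 62)))))))) (.nv (.thr 52 54 (.thr 22 7 (.thr 23 20 (.thr 3 43 (.thr 60 41 (.dbl 48 56 58)))))) (.nv (.thr 42 0 (.thr 47 32 (.thr 15 31 (.thr 13 12 (.thr 25 49 (.dbl 59 8 51)))))) (.rp 42 (.thr 52 54 (.thr 22 7 (.thr 23 20 (.thr 3 43 (.thr 41 60 (.thr 33 45 (.dbl 48 18 58))))))) .nd))))) (.rp 14 (.str 50 (.nv (.thr 54 52 (.dbl 58 48 62)) (.nv (.thr 51 59 (.dbl 48 49 58)) (.rp 58 (.thr 51 59 (.thr 49 48 (.thr 57 61 (.dbl 54 52 60)))) (.rp 48 (.thr 51 59 (.thr 54 52 (.thr 62 58 (.dbl 60 57 61)))) .nd))))) .nd)))))) (.rp 36 (.str 63 (.nv (.thr 48 58 (.thr 51 59 (.thr 49 50 (.thr 25 13 (.dbl 38 4 12))))) (.nv (.thr 38 4 (.thr 51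 59 (.thr 25 12 (.thr 49 13 (.dbl 48 50 58))))) (.nv (.thr 0 42 (.thr 52 54 (.thr 22 7 (.thr 20 23 (.thr 60 40 (.thr 41 3 (.dbl 61 1 62))))))) (.nv (.thr 48 58 (.thr 54 52 (.thr 51 59 (.thr 57 60 (.dbl 49 50 61))))) (.rp 61 (.thr 38 4 (.thr 51 59 (.thr 25 12 (.thr 48 58 (.dbl 49 13 50))))) (.rp 58 (.thr 52 54 (.thr 7 22 (.thr 23 39 (.thr 3 43 (.thr 15 11 (.thr 47 31 (.dbl 42 0 32))))))) (.rp 4 (.thr 51 59 (.thr 48 58 (.thr 49 50 (.thr 57 61 (.dbl 54 52 60))))) .nd)))))))) (.rp 23 (.str 61 (.nv (.thr 38 4 (.thr 36 39 (.thr 41 1 (.thr 44 35 (.thr 32 40 (.thr 45 33 (.dbl 47 42 46))))))) (.nv (.thr 52 54 (.thr 22 7 (.thr 41 1 (.thr 60 3 (.thr 63 62 (.dbl 48 56 58)))))) (.rp 41 (.thr 38 4 (.thr 49 57 (.thr 25 13 (.thr 51 12 (.thr 48 50 (.dbl 63 58 59)))))) (.rp 13 (.thr 54 52 (.thr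 38 4 (.thr 57 49 (.thr 51 60 (.thr 25 12 (.dbl 41 1 9)))))) (.rp 9 (.thr 38 4 (.thr 49 57 (.thr 25 13 (.thr 1 41 (.thr 51 12 (.thr 48 50 (.dbl 63 58 59))))))) (.rp 7 (.thr 54 52 (.thr 57 49 (.thr 60 51 (.thr 41 1 (.thr 22 3 (.dbl 38 4 6)))))) (.rp 6 (.thr 52 54 (.thr 22 7 (.thr 4 38 (.thr 41 1 (.thr 60 3 (.thr 63 62 (.dbl 48 56 58))))))) (.rp 4 (.thr 54 52 (.thr 57 49 (.thr 60 51 (.thr 63 62 (.thr 41 1 (.thr 33 45 (.thr 3 22 (.dbl 48 18 58)))))))) (.rp 1 (.thr 54 52 (.thr 38 4 (.thr 36 39 (.thr 57 49 (.thr 51 60 (.thr 12 25 (.thr 63 59 (.dbl 48 24 58)))))))) .nd)))))))))) (.rp 22 (.thr 54 52 (.str 51 (.nv (.thr 38 4 (.thr 25 12 (.thr 49 13 (.dbl 57 60 61)))) (.nv (.thr 38 4 (.thr 12 25 (.thr 36 39 (.thr 63 59 (.dbl 48 24 58))))) (.nv (.thr 60 57 (.thr 63 59 (.thr 58 48 (.dbl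 62 50 61)))) (.rp 63 (.thr 38 4 (.thr 57 60 (.thr 61 49 (.thr 41 1 (.dbl 25 9 12))))) (.rp 30 (.str 18 (.nv (.thr 38 4 (.thr 25 12 (.thr 49 13 (.dbl 57 60 61)))) (.nv (.thr 38 4 (.thr 12 25 (.thr 36 39 (.thr 63 59 (.dbl 48 24 58))))) (.nv (.thr 60 57 (.thr 63 59 (.thr 58 48 (.dbl 62 50 61)))) (.rp 63 (.thr 38 4 (.thr 57 60 (.thr 61 49 (.thr 41 1 (.dbl 25 9 12))))) (.rp 31 (.str 28 (.nv (.thr 57 60 (.thr 49 61 (.thr 63 59 (.dbl 48 50 58)))) (.nv (.thr 63 59 (.thr 0 42 (.thr 17 34 (.thr 16 19 (.dbl 48 32 58))))) (.nv (.thr 60 57 (.thr 12 44 (.dbl 38 4 25))) .nd)))) (.rp 28 (.str 31 (.nv (.thr 38 4 (.thr 57 60 (.thr 61 49 (.thr 41 1 (.dbl 25 9 12))))) (.nv (.thr 63 59 (.thr 42 0 (.dbl 47 15 32))) (.rp 25 (.str 19 (.nv (.thr 3 35 (.thr 48 33 (.thr 49 50 (.dbl 57 60 61)))) (.nv (.thr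 27 23 (.thr 15 39 (.dbl 63 47 59))) (.rp 27 (.str 24 (.nv (.thr 3 35 (.thr 38 4 (.thr 36 39 (.dbl 48 12 33)))) (.nv (.thr 17 16 (.thr 0 34 (.dbl 63 42 59))) .nd))) .nd)))) (.rp 19 (.str 25 (.nv (.thr 49 13 (.dbl 57 60 61)) (.nv (.dbl 38 4 12) .nd))) (.rp 15 (.thr 63 59 (.thr 48 58 (.thr 49 50 (.dbl 57 60 61)))) .nd)))))) .nd))))))) (.rp 18 (.str 30 (.nv (.thr 38 4 (.thr 12 25 (.thr 36 39 (.thr 63 59 (.dbl 48 24 58))))) (.nv (.thr 38 4 (.thr 12 25 (.thr 60 57 (.thr 15 45 (.thr 13 14 (.dbl 39 27 36)))))) (.nv (.thr 60 57 (.thr 63 59 (.thr 58 48 (.dbl 62 50 61)))) .nd)))) .nd)))))))) (.rp 7 (.str 63 (.nv (.thr 0 42 (.thr 4 38 (.thr 52 54 (.thr 20 36 (.thr 60 40 (.dbl 48 56 58)))))) (.nv (.thr 42 0 (.thr 47 32 (.thr 15 31 (.thr 51 59 (.thr 39 27 (.dbl 38 4 36)))))) (.nv (.thr 51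 59 (.thr 54 52 (.thr 58 48 (.thr 60 57 (.dbl 62 50 61))))) (.rp 48 (.thr 54 52 (.thr 38 4 (.thr 6 22 (.thr 51 59 (.thr 25 12 (.thr 49 13 (.dbl 57 60 61))))))) (.rp 6 (.thr 4 38 (.thr 54 52 (.thr 51 59 (.thr 60 57 (.thr 62 61 (.dbl 58 48 50)))))) (.rp 4 (.str 6 (.nv (.thr 42 0 (.thr 58 48 (.thr 59 51 (.thr 57 56 (.thr 49 61 (.dbl 25 8 13)))))) (.nv (.thr 51 59 (.thr 54 52 (.thr 38 22 (.thr 25 12 (.thr 49 13 (.dbl 57 60 61)))))) (.nv (.thr 54 52 (.thr 22 38 (.thr 42 0 (.thr 62 2 (.dbl 58 48 50))))) (.nv (.thr 51 59 (.thr 54 52 (.thr 58 48 (.thr 60 57 (.dbl 62 50 61))))) (.rp 52 (.thr 51 59 (.thr 48 58 (.thr 49 50 (.thr 25 13 (.thr 38 12 (.thr 54 22 (.dbl 57 60 61))))))) .nd)))))) .nd))))))) (.rp 4 (.str 63 (.nv (.thr 42 0 (.thr 47 32 (.thr 15 31 (.thr 52 54 (.thr 7 22 (.thr 3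 11 (.dbl 23 39 43))))))) (.nv (.thr 42 0 (.thr 47 32 (.thr 15 31 (.thr 51 59 (.thr 39 27 (.thr 43 35 (.dbl 23 3 7))))))) (.nv (.thr 54 52 (.thr 51 59 (.thr 60 57 (.thr 58 48 (.dbl 62 50 61))))) (.rp 48 (.thr 52 54 (.thr 7 22 (.thr 23 39 (.thr 3 43 (.thr 15 11 (.thr 47 31 (.dbl 42 0 32))))))) (.rp 7 (.str 6 (.nv (.thr 42 0 (.thr 58 48 (.thr 59 51 (.thr 57 56 (.thr 49 61 (.dbl 25 8 13)))))) (.nv (.thr 51 59 (.thr 54 52 (.thr 38 22 (.thr 25 12 (.thr 49 13 (.dbl 57 60 61)))))) (.nv (.thr 54 52 (.thr 22 38 (.thr 42 0 (.thr 62 2 (.dbl 58 48 50))))) (.nv (.thr 51 59 (.thr 54 52 (.thr 58 48 (.thr 60 57 (.dbl 62 50 61))))) (.rp 52 (.thr 51 59 (.thr 48 58 (.thr 49 50 (.thr 25 13 (.thr 38 12 (.thr 54 22 (.dbl 57 60 61))))))) .nd)))))) (.rp 6 (.str 7 (.nv (.dbl 52 22 54) (.rp 54 (.thr 23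 39 (.dbl 22 20 52)) (.rp 52 (.thr 23 39 (.thr 3 43 (.thr 15 11 (.thr 47 31 (.dbl 42 0 32))))) (.rp 22 (.thr 23 39 (.thr 3 43 (.thr 15 11 (.thr 47 31 (.dbl 42 0 32))))) .nd))))) .nd))))))) .nd)))))))))))

theorem w526 : WinAt (9007336695791616, 603979808) :=
  chF (K := []) kn c526 9007336695791616 603979808 5
    [] (by decide +kernel) (by decide +kernel)

/-- A certificate. -/
noncomputable def c527 : Ct := (.str 22 (.nv (.thr 20 23 (.thr 52 7 (.thr 4 36 (.dbl 55 38 54)))) (.rp 55 (.str 63 (.nv (.thr 7 52 (.thr 23 20 (.thr 3 43 (.thr 15 11 (.thr 47 31 (.dbl 42 0 32)))))) (.nv (.thr 42 0 (.thr 48 58 (.thr 62 2 (.thr 60 61 (.dbl 52 7 56))))) (.nv (.thr 23 20 (.thr 3 43 (.thr 48 58 (.thr 33 18 (.dbl 41 45 60))))) (.rp 42 (.thr 23 20 (.thr 7 52 (.thr 3 43 (.thr 41 60 (.thr 33 45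 (.thr 15 11 (.dbl 48 18 58))))))) (.rp 3 (.thr 52 7 (.thr 48 58 (.thr 60 56 (.thr 62 61 (.dbl 42 0 2))))) .nd)))))) (.rp 54 (.str 61 (.nv (.thr 20 23 (.thr 41 1 (.thr 60 3 (.thr 0 40 (.dbl 63 42 62))))) (.nv (.thr 41 1 (.thr 45 33 (.thr 49 57 (.dbl 13 25 29)))) (.rp 60 (.thr 41 1 (.thr 45 33 (.thr 13 29 (.dbl 49 25 57)))) (.rp 41 (.thr 23 20 (.thr 7 52 (.thr 39 55 (.thr 49 57 (.thr 25 13 (.thr 29 17 (.thr 19 28 (.thr 27 31 (.thr 51 15 (.dbl 38 12 36)))))))))) (.rp 13 (.thr 20 23 (.thr 57 49 (.thr 41 1 (.thr 9 25 (.thr 60 3 (.thr 63 62 (.dbl 0 40 42))))))) (.rp 9 (.thr 49 57 (.thr 13 25 (.thr 41 1 (.dbl 45 29 33)))) (.rp 1 (.thr 20 23 (.thr 49 57 (.thr 13 25 (.thr 45 29 (.thr 41 33 (.thr 60 3 (.thr 63 62 (.dbl 0 40 42)))))))) .nd)))))))) (.rp 52 (.str 63 (.nv (.thr 23 20 (.thr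 3 43 (.thr 41 60 (.thr 45 33 (.thr 61 1 (.thr 13 29 (.dbl 49 25 57))))))) (.nv (.thr 23 20 (.thr 3 43 (.thr 48 58 (.thr 33 18 (.dbl 41 45 60))))) (.nv (.thr 20 23 (.thr 0 42 (.thr 60 40 (.thr 41 3 (.dbl 61 1 62))))) (.rp 60 (.thr 23 20 (.thr 43 3 (.thr 42 0 (.thr 40 41 (.thr 47 32 (.thr 39 35 (.thr 55 7 (.dbl 38 4 36)))))))) (.rp 41 (.thr 23 20 (.thr 43 3 (.thr 42 0 (.thr 47 32 (.thr 39 35 (.thr 55 7 (.dbl 38 4 36))))))) (.rp 23 (.thr 42 0 (.thr 62 2 (.thr 61 60 (.thr 49 57 (.thr 13 25 (.thr 45 29 (.dbl 41 1 33))))))) (.rp 20 (.thr 58 48 (.thr 42 0 (.thr 62 2 (.thr 60 61 (.thr 54 50 (.thr 38 6 (.thr 51 57 (.dbl 55 4 59)))))))) (.rp 3 (.thr 20 23 (.thr 58 48 (.thr 0 42 (.thr 60 40 (.thr 61 62 (.thr 57 49 (.thr 51 54 (.dbl 59 55 56)))))))) .nd))))))))) (.rp 39 (.thr 20 23 (.thr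 52 7 (.thr 55 54 (.dbl 4 36 38)))) (.rp 38 (.thr 23 20 (.str 49 (.nv (.thr 61 57 (.thr 1 41 (.thr 25 13 (.dbl 17 29 33)))) (.nv (.thr 61 57 (.thr 41 1 (.thr 45 33 (.dbl 13 25 29)))) (.rp 61 (.thr 7 52 (.thr 39 55 (.thr 25 13 (.thr 29 17 (.thr 19 28 (.thr 27 31 (.thr 51 15 (.thr 3 35 (.thr 63 43 (.dbl 48 50 58)))))))))) (.rp 57 (.thr 7 52 (.thr 39 55 (.thr 25 13 (.thr 29 17 (.thr 19 28 (.thr 27 31 (.thr 51 15 (.thr 3 35 (.thr 63 43 (.dbl 48 50 58)))))))))) (.rp 50 (.str 14 (.nv (.thr 7 52 (.thr 13 25 (.thr 61 57 (.thr 41 1 (.thr 3 60 (.dbl 15 11 12)))))) (.nv (.thr 61 57 (.thr 41 1 (.thr 45 33 (.dbl 13 25 29)))) (.rp 61 (.thr 7 52 (.thr 39 55 (.thr 25 13 (.thr 29 17 (.thr 19 28 (.thr 27 31 (.thr 15 51 (.thr 3 11 (.thr 41 60 (.thr 33 45 (.thr 48 18 (.dbl 63 43 58)))))))))))) (.rp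 57 (.thr 7 52 (.thr 39 55 (.thr 25 13 (.thr 29 17 (.thr 19 28 (.thr 27 31 (.thr 15 51 (.thr 3 11 (.thr 63 43 (.thr 48 58 (.thr 33 18 (.dbl 41 45 60)))))))))))) (.rp 41 (.thr 52 7 (.thr 54 55 (.thr 13 25 (.thr 57 61 (.thr 15 12 (.thr 51 60 (.thr 27 39 (.thr 31 19 (.thr 63 47 (.thr 43 3 (.thr 58 48 (.dbl 59 11 56)))))))))))) (.rp 25 (.thr 52 7 (.thr 61 57 (.thr 41 1 (.thr 60 3 (.thr 63 62 (.dbl 48 56 58)))))) (.rp 13 (.thr 52 7 (.thr 54 55 (.thr 57 61 (.thr 60 51 (.thr 3 41 (.thr 63 43 (.dbl 48 56 58))))))) (.rp 1 (.thr 52 7 (.thr 54 55 (.thr 57 61 (.thr 60 51 (.thr 41 3 (.dbl 25 9 13)))))) .nd))))))))) (.rp 41 (.thr 52 7 (.thr 54 55 (.thr 57 61 (.thr 51 60 (.thr 50 48 (.thr 25 13 (.thr 62 58 (.thr 42 2 (.thr 0 63 (.dbl 17 29 34)))))))))) (.rp 33 (.thr 52 7 (.thr 54 55 (.thr 57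 61 (.thr 60 51 (.thr 41 3 (.dbl 25 9 13)))))) (.rp 29 (.thr 52 7 (.thr 54 55 (.thr 57 61 (.thr 60 51 (.thr 41 3 (.dbl 25 9 13)))))) (.rp 25 (.thr 52 7 (.thr 61 57 (.thr 41 1 (.thr 60 3 (.thr 63 62 (.dbl 48 56 58)))))) (.rp 14 (.str 50 (.nv (.thr 48 51 (.thr 52 7 (.thr 54 55 (.dbl 58 62 63)))) (.nv (.thr 61 57 (.thr 41 1 (.thr 45 33 (.dbl 13 25 29)))) (.rp 62 (.str 46 (.nv (.thr 25 13 (.thr 29 17 (.thr 48 51 (.dbl 63 12 58)))) (.nv (.thr 52 7 (.thr 54 55 (.thr 51 48 (.dbl 57 60 61)))) (.nv (.thr 61 57 (.thr 41 1 (.thr 45 33 (.dbl 13 25 29)))) .nd)))) (.rp 46 (.str 62 (.nv (.thr 42 2 (.thr 61 57 (.dbl 63 0 60))) (.nv (.thr 58 54 (.dbl 48 51 63)) (.rp 63 (.thr 52 7 (.dbl 54 55 58)) (.rp 42 (.str 34 (.nv (.thr 18 2 (.thr 25 13 (.thr 19 28 (.dbl 17 16 29)))) (.nv (.thr 58 54 (.dbl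 48 51 63)) (.rp 58 (.str 10 (.nv (.thr 51 48 (.thr 61 57 (.thr 1 41 (.dbl 17 0 33)))) (.nv (.thr 51 48 (.thr 17 0 (.dbl 25 13 29))) (.nv (.thr 61 57 (.thr 41 1 (.dbl 60 3 63))) .nd)))) .nd)))) .nd))))) (.rp 25 (.thr 52 7 (.thr 54 55 (.thr 51 48 (.dbl 57 60 61)))) .nd)))))) (.rp 13 (.thr 52 7 (.thr 54 55 (.thr 57 61 (.thr 60 51 (.thr 3 41 (.thr 63 43 (.dbl 48 56 58))))))) (.rp 1 (.thr 52 7 (.thr 54 55 (.thr 57 61 (.thr 60 51 (.thr 41 3 (.dbl 25 9 13)))))) .nd)))))))))))))) (.rp 36 (.str 61 (.nv (.thr 52 7 (.thr 54 55 (.thr 57 49 (.thr 60 51 (.dbl 41 1 3))))) (.nv (.thr 20 23 (.thr 41 1 (.thr 60 3 (.thr 0 40 (.dbl 63 42 62))))) (.nv (.thr 41 1 (.thr 45 33 (.thr 49 57 (.dbl 13 25 29)))) (.rp 41 (.thr 52 7 (.thr 54 55 (.thr 57 49 (.thr 60 51 (.thr 63 62 (.dbl 48 56 58)))))) (.rp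 1 (.thr 52 7 (.thr 54 55 (.thr 57 49 (.thr 60 51 (.thr 63 62 (.dbl 48 56 58)))))) .nd)))))) (.rp 23 (.str 63 (.nv (.thr 0 42 (.thr 52 7 (.thr 55 54 (.thr 51 59 (.thr 17 34 (.thr 25 29 (.dbl 38 4 12))))))) (.nv (.thr 42 0 (.thr 48 58 (.thr 62 2 (.thr 60 61 (.dbl 52 7 56))))) (.rp 58 (.thr 7 52 (.thr 42 0 (.thr 47 32 (.thr 15 31 (.thr 3 11 (.thr 62 2 (.dbl 60 41 61))))))) (.rp 52 (.thr 42 0 (.thr 62 2 (.thr 61 60 (.thr 49 57 (.thr 13 25 (.thr 45 29 (.dbl 41 1 33))))))) (.rp 42 (.thr 52 7 (.thr 55 54 (.thr 59 51 (.thr 58 48 (.thr 57 56 (.thr 49 61 (.thr 25 13 (.thr 29 17 (.thr 12 46 (.thr 28 19 (.thr 60 44 (.dbl 41 3 9)))))))))))) (.rp 10 (.thr 52 7 (.thr 55 54 (.thr 51 59 (.thr 58 48 (.thr 0 42 (.thr 17 34 (.thr 25 29 (.dbl 38 4 12)))))))) (.rp 7 (.thr 58 48 (.thr 42 0 (.thr 62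 2 (.thr 54 50 (.thr 55 52 (.dbl 38 4 6)))))) (.rp 0 (.thr 52 7 (.thr 48 58 (.thr 60 56 (.thr 61 62 (.dbl 41 1 3))))) .nd))))))))) (.rp 20 (.str 61 (.nv (.thr 52 7 (.thr 54 55 (.thr 57 49 (.thr 60 51 (.dbl 41 1 3))))) (.nv (.thr 41 1 (.thr 52 7 (.thr 60 3 (.thr 48 56 (.dbl 63 58 62))))) (.nv (.thr 41 1 (.thr 45 33 (.thr 49 57 (.dbl 13 25 29)))) (.rp 41 (.thr 52 7 (.thr 54 55 (.thr 57 49 (.thr 60 51 (.thr 63 62 (.dbl 48 56 58)))))) (.rp 1 (.thr 52 7 (.thr 54 55 (.thr 57 49 (.thr 60 51 (.thr 63 62 (.dbl 48 56 58)))))) .nd)))))) (.rp 7 (.thr 23 20 (.str 41 (.nv (.thr 3 60 (.thr 63 43 (.thr 48 58 (.dbl 33 18 45)))) (.nv (.thr 61 1 (.thr 45 33 (.thr 49 57 (.dbl 13 25 29)))) (.rp 45 (.thr 61 1 (.thr 57 49 (.thr 60 3 (.thr 54 51 (.thr 55 52 (.dbl 38 4 6)))))) (.rp 33 (.thr 1 61 (.thr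 3 60 (.thr 63 43 (.dbl 0 2 42)))) (.rp 6 (.str 4 (.nv (.thr 3 60 (.thr 38 55 (.thr 35 44 (.thr 39 36 (.dbl 43 47 63))))) (.nv (.thr 45 33 (.thr 61 1 (.thr 49 57 (.dbl 13 25 29)))) (.rp 45 (.thr 55 38 (.thr 54 52 (.thr 60 3 (.thr 57 51 (.dbl 61 1 49))))) .nd)))) (.rp 4 (.str 6 (.nv (.thr 54 38 (.thr 60 3 (.thr 57 51 (.dbl 61 1 49)))) (.nv (.thr 3 60 (.thr 63 43 (.thr 48 58 (.dbl 33 18 45)))) (.nv (.thr 45 33 (.thr 61 1 (.thr 49 57 (.dbl 13 25 29)))) (.rp 52 (.str 36 (.nv (.dbl 38 39 54) (.rp 54 (.thr 3 60 (.thr 63 43 (.thr 12 9 (.dbl 48 24 58)))) (.rp 39 (.thr 54 38 (.thr 60 3 (.thr 57 51 (.dbl 61 1 49)))) (.rp 38 (.thr 3 60 (.thr 63 43 (.thr 12 9 (.dbl 48 24 58)))) .nd))))) (.rp 36 (.str 52 (.nv (.dbl 54 38 55) (.rp 55 (.thr 54 38 (.thr 60 3 (.thr 57 51 (.dbl 61 1 49)))) (.rp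 54 (.thr 3 60 (.thr 9 12 (.thr 57 25 (.dbl 61 1 49)))) (.rp 38 (.thr 54 55 (.thr 60 3 (.thr 57 51 (.dbl 61 1 49)))) .nd))))) .nd)))))) .nd)))))))) (.rp 4 (.thr 7 52 (.thr 20 23 (.str 41 (.nv (.thr 60 3 (.thr 0 40 (.thr 63 42 (.dbl 61 1 62)))) (.nv (.thr 45 33 (.thr 61 1 (.thr 49 57 (.dbl 13 25 29)))) (.rp 61 (.thr 3 60 (.thr 15 11 (.thr 33 45 (.thr 48 18 (.thr 63 58 (.thr 47 31 (.dbl 42 0 32))))))) (.rp 1 (.thr 60 3 (.thr 0 40 (.thr 63 42 (.thr 61 62 (.thr 45 33 (.thr 13 29 (.dbl 49 25 57))))))) .nd))))))) .nd))))))))))))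

theorem w527 : WinAt (9007336695791616, 1140850720) :=
  chF (K := []) kn c527 9007336695791616 1140850720 5
    [1145307136] (by decide +kernel) (by decide +kernel)

/-- A certificate. -/
noncomputable def c528 : Ct := (.str 4 (.nv (.thr 7 6 (.thr 38 55 (.thr 52 22 (.dbl 36 20 39)))) (.nv (.thr 7 6 (.thr 22 52 (.thr 23 20 (.dbl 55 38 39)))) (.rp 55 (.str 1 (.nv (.thr 13 9 (.thr 49 25 (.thr 41 61 (.dbl 33 17 45)))) (.nv (.thr 13 9 (.thr 25 49 (.thr 29 17 (.dbl 61 41 45)))) (.rp 61 (.thr 6 7 (.thr 9 13 (.thr 3 12 (.thr 0 2 (.thr 15 10 (.thr 42 63 (.thr 32 47 (.thr 48 16 (.thr 33 18 (.thr 34 35 (.dbl 17 49 51))))))))))) (.rp 54 (.str 52 (.nv (.dbl 7 6 22) (.rp 22 (.thr 13 9 (.thr 49 25 (.thr 33 17 (.dbl 41 45 61)))) (.rp 7 (.thr 13 9 (.thr 49 25 (.thr 33 17 (.dbl 41 45 61))))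 (.rp 6 (.thr 20 36 (.dbl 22 7 23)) .nd))))) (.rp 52 (.str 54 (.nv (.thr 6 7 (.thr 9 13 (.thr 3 12 (.thr 22 38 (.dbl 41 60 61))))) (.nv (.thr 6 7 (.thr 22 38 (.thr 41 61 (.thr 3 60 (.thr 0 2 (.dbl 12 8 9)))))) (.nv (.thr 13 9 (.thr 25 49 (.thr 29 17 (.dbl 61 41 45)))) (.rp 61 (.thr 6 7 (.thr 22 38 (.thr 23 20 (.thr 9 13 (.thr 3 12 (.thr 0 2 (.dbl 63 42 43))))))) (.rp 41 (.thr 6 7 (.thr 22 38 (.thr 23 20 (.thr 9 13 (.thr 3 12 (.thr 0 2 (.dbl 63 42 43))))))) (.rp 9 (.thr 6 7 (.thr 22 38 (.thr 23 20 (.thr 41 61 (.thr 3 60 (.thr 0 2 (.dbl 63 42 43))))))) .nd))))))) (.rp 49 (.thr 6 7 (.thr 9 13 (.thr 3 12 (.thr 0 2 (.thr 63 42 (.thr 23 43 (.thr 22 20 (.dbl 41 60 61)))))))) (.rp 45 (.thr 6 7 (.thr 9 13 (.thr 3 12 (.thr 0 2 (.thr 63 42 (.thr 23 43 (.thr 22 20 (.dbl 41 60 61))))))))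 (.rp 41 (.thr 7 6 (.thr 52 22 (.thr 36 20 (.thr 38 39 (.thr 13 9 (.thr 25 49 (.thr 12 51 (.thr 15 14 (.dbl 0 8 10))))))))) (.rp 25 (.thr 6 7 (.thr 9 13 (.thr 3 12 (.thr 0 2 (.thr 41 61 (.thr 45 33 (.thr 60 22 (.dbl 15 10 30)))))))) (.rp 17 (.thr 6 7 (.thr 9 13 (.thr 3 12 (.thr 0 2 (.thr 41 61 (.thr 45 33 (.thr 60 22 (.dbl 15 10 30)))))))) (.rp 13 (.thr 7 6 (.thr 52 22 (.thr 36 20 (.thr 38 39 (.thr 41 61 (.thr 45 33 (.thr 44 35 (.thr 47 46 (.dbl 32 40 42))))))))) (.rp 9 (.thr 7 6 (.thr 52 22 (.thr 36 20 (.thr 38 39 (.thr 41 61 (.thr 45 33 (.thr 44 35 (.thr 47 46 (.dbl 32 40 42))))))))) .nd))))))))))))) (.rp 52 (.str 1 (.nv (.thr 6 7 (.thr 9 13 (.thr 3 12 (.thr 41 61 (.thr 22 60 (.dbl 38 54 55)))))) (.nv (.thr 55 38 (.thr 13 9 (.thr 41 61 (.thr 49 25 (.dbl 33 17 45))))) (.nv (.thr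 13 9 (.thr 25 49 (.thr 29 17 (.dbl 61 41 45)))) (.rp 61 (.thr 6 7 (.thr 9 13 (.thr 3 12 (.thr 0 2 (.thr 63 42 (.thr 23 43 (.thr 22 20 (.dbl 38 54 55)))))))) (.rp 55 (.str 54 (.nv (.thr 6 7 (.thr 9 13 (.thr 3 12 (.thr 22 38 (.dbl 41 60 61))))) (.nv (.thr 6 7 (.thr 22 38 (.thr 41 61 (.thr 3 60 (.thr 0 2 (.dbl 12 8 9)))))) (.nv (.thr 13 9 (.thr 25 49 (.thr 29 17 (.dbl 61 41 45)))) (.rp 61 (.thr 6 7 (.thr 22 38 (.thr 23 20 (.thr 9 13 (.thr 3 12 (.thr 0 2 (.dbl 63 42 43))))))) (.rp 41 (.thr 6 7 (.thr 22 38 (.thr 23 20 (.thr 9 13 (.thr 3 12 (.thr 0 2 (.dbl 63 42 43))))))) (.rp 9 (.thr 6 7 (.thr 22 38 (.thr 23 20 (.thr 41 61 (.thr 3 60 (.thr 0 2 (.dbl 63 42 43))))))) .nd))))))) (.rp 49 (.thr 6 7 (.thr 38 55 (.thr 54 22 (.thr 9 13 (.thr 12 3 (.thr 25 51 (.dbl 41 57 61))))))) (.rp 45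 (.thr 6 7 (.thr 38 55 (.thr 54 22 (.thr 9 13 (.thr 12 3 (.thr 25 51 (.dbl 41 57 61))))))) (.rp 41 (.thr 6 7 (.thr 38 55 (.thr 54 22 (.thr 13 9 (.thr 25 49 (.thr 12 51 (.thr 15 14 (.dbl 0 8 10)))))))) (.rp 13 (.thr 7 6 (.thr 55 38 (.thr 23 39 (.thr 22 20 (.thr 41 61 (.thr 3 60 (.thr 0 2 (.dbl 15 10 11)))))))) (.rp 9 (.thr 7 6 (.thr 55 38 (.thr 23 39 (.thr 22 20 (.thr 41 61 (.thr 3 60 (.thr 0 2 (.dbl 15 10 11)))))))) .nd))))))))))) (.rp 39 (.str 1 (.nv (.thr 7 6 (.thr 22 52 (.thr 41 61 (.thr 3 60 (.thr 0 2 (.dbl 15 10 11)))))) (.nv (.thr 13 9 (.thr 25 49 (.thr 29 17 (.dbl 61 41 45)))) (.rp 61 (.thr 6 7 (.thr 9 13 (.thr 3 12 (.thr 0 2 (.thr 63 42 (.thr 38 55 (.thr 23 43 (.dbl 22 20 54)))))))) (.rp 57 (.thr 13 9 (.thr 49 25 (.thr 41 61 (.dbl 33 17 45)))) (.rp 49 (.thr 6 7 (.thr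 9 13 (.thr 3 12 (.thr 41 61 (.thr 57 25 (.thr 22 60 (.dbl 38 54 55))))))) (.rp 41 (.thr 38 55 (.thr 13 9 (.thr 25 49 (.thr 12 51 (.thr 15 14 (.dbl 0 8 10)))))) .nd))))))) (.rp 38 (.thr 7 6 (.thr 22 52 (.thr 23 20 (.thr 55 39 (.str 3 (.nv (.thr 63 43 (.thr 0 42 (.dbl 15 10 11))) (.nv (.thr 41 60 (.thr 1 61 (.thr 13 9 (.thr 49 25 (.dbl 33 17 45))))) (.nv (.thr 15 11 (.thr 0 10 (.dbl 63 42 43))) (.rp 63 (.thr 15 11 (.thr 0 10 (.thr 41 60 (.dbl 1 2 61)))) (.rp 50 (.str 14 (.nv (.thr 63 43 (.thr 42 0 (.thr 62 2 (.dbl 60 41 61)))) (.nv (.thr 15 11 (.thr 12 13 (.dbl 0 8 10))) (.rp 41 (.thr 63 43 (.thr 42 0 (.thr 62 2 (.thr 30 46 (.thr 60 61 (.dbl 15 11 45)))))) (.rp 0 (.thr 15 11 (.thr 13 12 (.thr 1 9 (.dbl 41 60 61)))) .nd))))) (.rp 41 (.thr 63 43 (.thr 59 51 (.thr 42 0 (.thr 25 8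 (.thr 17 29 (.thr 49 13 (.thr 33 1 (.thr 18 48 (.dbl 19 16 28))))))))) (.rp 14 (.str 50 (.nv (.thr 60 41 (.thr 63 43 (.thr 62 61 (.thr 54 58 (.dbl 51 57 59))))) (.nv (.thr 41 60 (.thr 33 45 (.thr 48 18 (.thr 49 51 (.dbl 1 17 61))))) (.nv (.thr 15 11 (.thr 63 43 (.dbl 0 10 42))) (.rp 56 (.thr 63 43 (.thr 0 42 (.dbl 15 10 11))) (.rp 41 (.thr 63 43 (.thr 51 59 (.thr 49 48 (.thr 25 13 (.dbl 19 28 35))))) (.rp 10 (.str 2 (.nv (.thr 42 62 (.thr 1 0 (.dbl 41 60 61))) (.nv (.thr 18 34 (.thr 33 48 (.dbl 41 45 60))) (.nv (.thr 0 1 (.dbl 42 62 63)) (.rp 42 (.str 58 (.nv (.thr 60 41 (.thr 62 54 (.dbl 63 43 61))) (.nv (.thr 34 18 (.thr 0 1 (.thr 51 17 (.dbl 63 43 59)))) (.nv (.thr 1 0 (.dbl 41 60 61)) (.rp 34 (.str 46 (.nv (.thr 60 41 (.thr 62 54 (.dbl 63 43 61))) (.nv (.thr 0 1 (.thr 12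 8 (.dbl 63 29 43))) (.nv (.thr 1 0 (.dbl 41 60 61)) .nd)))) .nd))))) .nd))))) (.rp 2 (.str 10 (.nv (.dbl 15 0 11) (.rp 15 (.thr 63 43 (.thr 51 59 (.thr 48 49 (.thr 33 18 (.dbl 41 45 60))))) (.rp 11 (.thr 0 15 (.dbl 63 42 43)) (.rp 0 (.thr 11 15 (.thr 9 8 (.thr 13 1 (.thr 25 49 (.dbl 41 57 60))))) .nd))))) .nd)))))))) (.rp 0 (.thr 63 43 (.thr 59 51 (.thr 60 41 (.thr 62 61 (.thr 42 2 (.thr 47 32 (.thr 25 8 (.thr 28 19 (.thr 44 12 (.thr 45 46 (.dbl 15 11 30))))))))))) .nd))))))))))))) (.rp 22 (.thr 6 7 (.str 1 (.nv (.thr 9 13 (.thr 12 3 (.thr 38 55 (.thr 25 51 (.dbl 41 57 61))))) (.nv (.thr 13 9 (.thr 25 49 (.thr 29 17 (.dbl 61 41 45)))) (.rp 61 (.thr 38 55 (.thr 39 36 (.thr 9 13 (.thr 12 3 (.thr 51 25 (.thr 0 8 (.dbl 15 10 27))))))) (.rp 57 (.thr 13 9 (.thr 49 25 (.thr 41 61 (.dbl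 33 17 45)))) (.rp 41 (.thr 38 55 (.thr 13 9 (.thr 25 49 (.thr 12 51 (.thr 15 14 (.dbl 0 8 10)))))) (.rp 30 (.str 18 (.nv (.thr 9 13 (.thr 3 12 (.thr 0 2 (.thr 42 63 (.thr 48 33 (.dbl 32 16 47)))))) (.nv (.thr 13 9 (.thr 25 49 (.thr 29 17 (.dbl 61 41 45)))) (.rp 29 (.str 28 (.nv (.thr 9 13 (.thr 61 41 (.thr 12 3 (.thr 60 44 (.thr 0 8 (.dbl 63 42 62)))))) (.nv (.thr 13 9 (.thr 49 25 (.thr 41 61 (.dbl 33 17 45)))) (.rp 61 (.thr 13 9 (.thr 49 25 (.thr 33 17 (.thr 3 48 (.thr 0 2 (.thr 12 8 (.dbl 15 10 14))))))) (.rp 41 (.thr 38 55 (.thr 13 9 (.thr 25 49 (.thr 12 51 (.thr 15 14 (.dbl 0 8 10)))))) (.rp 13 (.thr 38 55 (.thr 41 61 (.thr 45 33 (.thr 44 35 (.thr 12 60 (.thr 25 51 (.dbl 9 3 57))))))) (.rp 9 (.thr 38 55 (.thr 39 36 (.thr 41 61 (.thr 35 44 (.thr 47 43 (.thr 32 42 (.dbl 33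 34 45))))))) .nd))))))) (.rp 28 (.str 29 (.nv (.thr 13 9 (.dbl 61 41 45)) (.nv (.thr 41 61 (.thr 33 45 (.dbl 17 25 49))) (.nv (.thr 25 17 (.dbl 13 9 49)) (.rp 25 (.str 19 (.nv (.thr 17 16 (.thr 33 49 (.dbl 41 45 61))) (.nv (.thr 9 13 (.thr 3 12 (.thr 17 16 (.dbl 33 48 49)))) (.nv (.thr 13 9 (.dbl 61 41 45)) (.rp 27 (.str 24 (.nv (.thr 17 16 (.thr 33 49 (.dbl 41 45 61))) (.nv (.thr 9 13 (.thr 3 12 (.thr 17 16 (.dbl 33 48 49)))) (.nv (.thr 13 9 (.dbl 61 41 45)) .nd)))) (.rp 24 (.str 27 (.nv (.thr 41 61 (.thr 33 45 (.dbl 17 16 49))) (.nv (.thr 9 13 (.thr 12 3 (.thr 0 8 (.dbl 63 42 46)))) (.nv (.thr 13 9 (.dbl 61 41 45)) (.rp 41 (.thr 9 13 (.thr 3 12 (.thr 0 2 (.thr 15 10 (.dbl 51 35 39))))) (.rp 20 (.thr 16 17 (.thr 13 9 (.dbl 61 41 45))) (.rp 16 (.str 20 (.nv (.thr 36 52 (.dbl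 38 39 55)) (.nv (.thr 13 9 (.dbl 61 41 45)) .nd))) .nd))))))) .nd)))))) .nd))))) (.rp 13 (.thr 38 55 (.thr 39 36 (.thr 41 61 (.thr 35 44 (.thr 47 43 (.thr 32 42 (.dbl 33 34 45))))))) (.rp 9 (.thr 38 55 (.thr 39 36 (.thr 41 61 (.thr 33 45 (.thr 35 44 (.thr 32 34 (.dbl 47 42 43))))))) .nd))))))) (.rp 25 (.thr 38 55 (.thr 39 36 (.thr 41 61 (.thr 33 45 (.thr 35 44 (.thr 32 34 (.dbl 47 42 43))))))) (.rp 18 (.str 30 (.nv (.thr 13 9 (.thr 25 49 (.thr 38 55 (.thr 12 51 (.thr 0 8 (.dbl 15 10 14)))))) (.nv (.thr 9 13 (.thr 3 12 (.thr 0 2 (.thr 15 10 (.thr 45 60 (.dbl 41 33 61)))))) (.nv (.thr 13 9 (.thr 41 61 (.thr 33 45 (.dbl 49 17 25)))) (.rp 61 (.thr 38 55 (.thr 39 36 (.thr 9 13 (.thr 12 3 (.thr 51 25 (.thr 0 8 (.dbl 15 10 27))))))) (.rp 13 (.thr 41 61 (.thr 45 33 (.thr 15 60 (.thr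 0 10 (.thr 3 2 (.dbl 12 8 9)))))) (.rp 9 (.thr 38 55 (.thr 39 36 (.thr 41 61 (.thr 35 44 (.thr 47 43 (.thr 32 42 (.dbl 33 34 45))))))) .nd))))))) (.rp 13 (.thr 38 55 (.thr 39 36 (.thr 41 61 (.thr 35 44 (.thr 47 43 (.thr 32 42 (.dbl 33 34 45))))))) (.rp 9 (.thr 38 55 (.thr 39 36 (.thr 41 61 (.thr 33 45 (.thr 35 44 (.thr 32 34 (.dbl 47 42 43))))))) .nd)))))))))))) (.rp 20 (.str 1 (.nv (.thr 7 6 (.thr 22 52 (.thr 41 61 (.thr 3 60 (.thr 0 2 (.dbl 15 10 11)))))) (.nv (.thr 13 9 (.thr 25 49 (.thr 29 17 (.dbl 61 41 45)))) (.rp 61 (.thr 6 7 (.thr 38 55 (.thr 39 36 (.thr 9 13 (.thr 12 3 (.thr 51 25 (.thr 0 8 (.dbl 15 10 27)))))))) (.rp 57 (.thr 13 9 (.thr 49 25 (.thr 41 61 (.dbl 33 17 45)))) (.rp 49 (.thr 6 7 (.thr 38 55 (.thr 9 13 (.thr 12 3 (.thr 25 51 (.dbl 41 57 61)))))) (.rp 41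 (.thr 38 55 (.thr 13 9 (.thr 25 49 (.thr 12 51 (.thr 15 14 (.dbl 0 8 10)))))) .nd))))))) (.rp 7 (.str 1 (.nv (.thr 13 9 (.thr 25 49 (.thr 38 55 (.thr 12 51 (.thr 0 8 (.dbl 15 10 14)))))) (.nv (.thr 13 9 (.thr 25 49 (.thr 29 17 (.dbl 61 41 45)))) (.rp 61 (.thr 38 55 (.thr 39 36 (.thr 13 9 (.thr 49 25 (.thr 33 17 (.thr 41 45 (.thr 35 44 (.thr 32 34 (.dbl 47 42 43))))))))) (.rp 57 (.thr 13 9 (.thr 49 25 (.thr 41 61 (.dbl 33 17 45)))) (.rp 49 (.thr 38 55 (.thr 13 9 (.thr 61 41 (.thr 29 45 (.thr 25 17 (.thr 12 51 (.thr 15 14 (.dbl 0 8 10)))))))) (.rp 25 (.thr 38 55 (.thr 39 36 (.thr 41 61 (.thr 33 45 (.thr 35 44 (.thr 32 34 (.dbl 47 42 43))))))) (.rp 13 (.thr 38 55 (.thr 39 36 (.thr 41 61 (.thr 35 44 (.thr 47 43 (.thr 32 42 (.dbl 33 34 45))))))) (.rp 9 (.thr 38 55 (.thr 39 36 (.thr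 41 61 (.thr 33 45 (.thr 35 44 (.thr 32 34 (.dbl 47 42 43))))))) .nd))))))))) (.rp 6 (.str 1 (.nv (.thr 13 9 (.thr 25 49 (.thr 38 55 (.thr 12 51 (.thr 0 8 (.dbl 15 10 14)))))) (.nv (.thr 41 61 (.thr 33 45 (.thr 49 17 (.dbl 13 9 25)))) (.rp 61 (.thr 38 55 (.thr 39 36 (.thr 13 9 (.thr 49 25 (.thr 33 17 (.thr 41 45 (.thr 35 44 (.thr 32 34 (.dbl 47 42 43))))))))) (.rp 57 (.thr 13 9 (.thr 49 25 (.thr 41 61 (.dbl 33 17 45)))) (.rp 49 (.thr 38 55 (.thr 13 9 (.thr 61 41 (.thr 29 45 (.thr 25 17 (.thr 12 51 (.thr 15 14 (.dbl 0 8 10)))))))) (.rp 25 (.thr 38 55 (.thr 36 39 (.thr 41 61 (.thr 45 33 (.thr 44 35 (.thr 47 46 (.dbl 32 40 42))))))) (.rp 13 (.thr 38 55 (.thr 36 39 (.thr 41 61 (.thr 45 33 (.thr 44 35 (.thr 47 46 (.dbl 32 40 42))))))) (.rp 9 (.thr 38 55 (.thr 36 39 (.thr 41 61 (.thr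 45 33 (.thr 44 35 (.thr 47 46 (.dbl 32 40 42))))))) .nd))))))))) .nd)))))))))))

theorem w528 : WinAt (137441050656, 9007201469333504) :=
  chF (K := []) kn c528 137441050656 9007201469333504 53
    [] (by decide +kernel) (by decide +kernel)

/-- A certificate. -/
noncomputable def c529 : Ct := (.str 4 (.nv (.thr 7 6 (.thr 38 55 (.thr 52 22 (.dbl 36 20 39)))) (.nv (.thr 7 6 (.thr 22 52 (.thr 23 20 (.dbl 55 38 39)))) (.rp 55 (.thr 7 6 (.thr 52 22 (.thr 36 20 (.thr 38 39 (.str 12 (.nv (.thr 0 8 (.thr 15 10 (.thr 25 51 (.dbl 13 14 49)))) (.nv (.thr 25 51 (.thr 13 49 (.thr 1 9 (.thr 61 41 (.dbl 29 17 45))))) (.nv (.thr 0 8 (.thr 42 63 (.thr 34 46 (.dbl 51 17 25)))) (.rp 63 (.thr 8 0 (.thr 25 51 (.thr 59 42 (.thr 13 49 (.thr 15 14 (.thr 11 3 (.dbl 9 1 10))))))) (.rp 59 (.thr 0 8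 (.thr 63 42 (.thr 25 51 (.dbl 29 17 46)))) (.rp 51 (.thr 0 8 (.thr 63 42 (.thr 29 46 (.thr 25 17 (.thr 13 49 (.dbl 15 10 14)))))) (.rp 30 (.str 18 (.nv (.thr 0 8 (.thr 15 10 (.thr 42 63 (.thr 34 46 (.thr 2 50 (.dbl 3 1 11)))))) (.nv (.thr 48 24 (.thr 33 3 (.thr 60 56 (.thr 41 45 (.dbl 44 28 35))))) (.nv (.thr 0 8 (.thr 25 51 (.thr 29 17 (.dbl 63 42 46)))) (.rp 8 (.thr 48 24 (.thr 3 33 (.thr 15 11 (.thr 13 14 (.dbl 25 49 51))))) .nd))))) (.rp 25 (.thr 0 8 (.thr 42 63 (.thr 46 34 (.thr 15 10 (.thr 14 13 (.thr 30 62 (.thr 60 45 (.dbl 48 24 56)))))))) (.rp 18 (.str 30 (.nv (.thr 0 8 (.thr 15 10 (.thr 14 13 (.thr 46 62 (.dbl 42 34 63))))) (.nv (.thr 25 51 (.thr 13 49 (.thr 1 9 (.thr 61 41 (.dbl 29 17 45))))) (.nv (.thr 48 24 (.thr 60 56 (.thr 15 45 (.dbl 0 8 10)))) (.nv (.thr 0 8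 (.thr 42 63 (.thr 34 46 (.dbl 51 17 25)))) .nd))))) .nd)))))))))))))) (.rp 52 (.str 1 (.nv (.thr 6 7 (.thr 9 13 (.thr 3 12 (.thr 41 61 (.thr 22 60 (.dbl 38 54 55)))))) (.nv (.thr 55 38 (.thr 13 9 (.thr 41 61 (.thr 49 25 (.dbl 33 17 45))))) (.nv (.thr 13 9 (.thr 25 49 (.thr 29 17 (.dbl 61 41 45)))) (.rp 61 (.thr 6 7 (.thr 9 13 (.thr 3 12 (.thr 0 2 (.thr 63 42 (.thr 23 43 (.thr 22 20 (.dbl 38 54 55)))))))) (.rp 55 (.str 54 (.nv (.thr 6 7 (.thr 9 13 (.thr 3 12 (.thr 22 38 (.dbl 41 60 61))))) (.nv (.thr 6 7 (.thr 22 38 (.thr 41 61 (.thr 3 60 (.thr 0 2 (.dbl 12 8 9)))))) (.nv (.thr 13 9 (.thr 25 49 (.thr 29 17 (.dbl 61 41 45)))) (.rp 61 (.thr 6 7 (.thr 22 38 (.thr 23 20 (.thr 9 13 (.thr 3 12 (.thr 0 2 (.dbl 63 42 43))))))) (.rp 41 (.thr 6 7 (.thr 22 38 (.thr 23 20 (.thr 9 13 (.thr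 3 12 (.thr 0 2 (.dbl 63 42 43))))))) (.rp 9 (.thr 6 7 (.thr 22 38 (.thr 23 20 (.thr 41 61 (.thr 3 60 (.thr 0 2 (.dbl 63 42 43))))))) .nd))))))) (.rp 49 (.thr 6 7 (.thr 38 55 (.thr 54 22 (.thr 9 13 (.thr 12 3 (.thr 25 51 (.dbl 41 57 61))))))) (.rp 45 (.thr 6 7 (.thr 38 55 (.thr 54 22 (.thr 9 13 (.thr 12 3 (.thr 25 51 (.dbl 41 57 61))))))) (.rp 41 (.thr 6 7 (.thr 38 55 (.thr 54 22 (.thr 13 9 (.thr 25 49 (.thr 12 51 (.thr 15 14 (.dbl 0 8 10)))))))) (.rp 13 (.thr 7 6 (.thr 55 38 (.thr 23 39 (.thr 22 20 (.thr 41 61 (.thr 3 60 (.thr 0 2 (.dbl 15 10 11)))))))) (.rp 9 (.thr 7 6 (.thr 55 38 (.thr 23 39 (.thr 22 20 (.thr 41 61 (.thr 3 60 (.thr 0 2 (.dbl 15 10 11)))))))) .nd))))))))))) (.rp 39 (.str 1 (.nv (.thr 7 6 (.thr 22 52 (.thr 41 61 (.thr 3 60 (.thr 0 2 (.dbl 15 10 11)))))) (.nv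 (.thr 13 9 (.thr 25 49 (.thr 29 17 (.dbl 61 41 45)))) (.rp 61 (.thr 6 7 (.thr 9 13 (.thr 3 12 (.thr 0 2 (.thr 63 42 (.thr 38 55 (.thr 23 43 (.dbl 22 20 54)))))))) (.rp 57 (.thr 13 9 (.thr 49 25 (.thr 41 61 (.dbl 33 17 45)))) (.rp 49 (.thr 6 7 (.thr 9 13 (.thr 3 12 (.thr 41 61 (.thr 57 25 (.thr 22 60 (.dbl 38 54 55))))))) (.rp 41 (.thr 38 55 (.thr 13 9 (.thr 25 49 (.thr 12 51 (.thr 15 14 (.dbl 0 8 10)))))) .nd))))))) (.rp 38 (.str 0 (.nv (.thr 8 12 (.thr 10 15 (.thr 42 63 (.thr 25 59 (.thr 13 49 (.dbl 9 1 11)))))) (.nv (.thr 7 6 (.thr 22 52 (.thr 20 23 (.thr 60 40 (.thr 3 41 (.dbl 15 10 11)))))) (.nv (.thr 6 7 (.thr 12 8 (.thr 3 9 (.thr 10 15 (.dbl 2 1 14))))) (.rp 50 (.str 14 (.nv (.thr 6 7 (.dbl 10 2 15)) (.nv (.thr 12 8 (.dbl 15 10 13)) (.rp 15 (.thr 12 8 (.thr 6 7 (.thr 2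 10 (.dbl 3 1 9)))) (.rp 10 (.thr 12 8 (.thr 13 15 (.thr 9 1 (.dbl 6 3 7)))) .nd))))) (.rp 15 (.thr 7 6 (.thr 22 52 (.thr 20 23 (.thr 60 40 (.thr 3 41 (.thr 2 1 (.dbl 42 62 63))))))) (.rp 14 (.str 50 (.nv (.thr 8 12 (.thr 42 63 (.thr 25 59 (.thr 13 49 (.thr 29 17 (.thr 61 45 (.dbl 1 9 41))))))) (.nv (.thr 6 7 (.thr 12 8 (.thr 3 9 (.thr 1 2 (.thr 41 61 (.thr 33 45 (.thr 49 17 (.dbl 48 18 51)))))))) (.nv (.thr 7 6 (.thr 22 52 (.thr 23 20 (.thr 63 42 (.thr 3 43 (.dbl 15 10 11)))))) (.rp 41 (.thr 7 6 (.thr 22 52 (.thr 42 63 (.thr 2 62 (.thr 3 1 (.dbl 15 10 11)))))) .nd))))) (.rp 10 (.thr 7 6 (.thr 22 52 (.thr 20 23 (.thr 60 40 (.thr 3 41 (.thr 2 1 (.dbl 42 62 63))))))) .nd)))))))) (.rp 22 (.thr 38 55 (.thr 36 39 (.thr 52 20 (.thr 7 6 (.str 12 (.nv (.thr 0 8 (.thr 15 10 (.thr 25 51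 (.dbl 13 14 49)))) (.nv (.thr 25 51 (.thr 13 49 (.thr 1 9 (.thr 61 41 (.dbl 29 17 45))))) (.nv (.thr 0 8 (.thr 42 63 (.thr 34 46 (.dbl 51 17 25)))) (.rp 63 (.thr 8 0 (.thr 25 51 (.thr 59 42 (.thr 13 49 (.thr 15 14 (.thr 11 3 (.dbl 9 1 10))))))) (.rp 59 (.thr 0 8 (.thr 63 42 (.thr 25 51 (.dbl 29 17 46)))) (.rp 51 (.thr 0 8 (.thr 63 42 (.thr 29 46 (.thr 25 17 (.thr 13 49 (.dbl 15 10 14)))))) (.rp 30 (.str 18 (.nv (.thr 0 8 (.thr 15 10 (.thr 42 63 (.thr 34 46 (.thr 2 50 (.dbl 3 1 11)))))) (.nv (.thr 48 24 (.thr 33 3 (.thr 60 56 (.thr 41 45 (.dbl 44 28 35))))) (.nv (.thr 0 8 (.thr 25 51 (.thr 29 17 (.dbl 63 42 46)))) (.rp 8 (.thr 48 24 (.thr 3 33 (.thr 15 11 (.thr 13 14 (.dbl 25 49 51))))) .nd))))) (.rp 25 (.thr 0 8 (.thr 42 63 (.thr 46 34 (.thr 15 10 (.thr 14 13 (.thr 30 62 (.thr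 60 45 (.dbl 48 24 56)))))))) (.rp 18 (.str 30 (.nv (.thr 0 8 (.thr 15 10 (.thr 14 13 (.thr 46 62 (.dbl 42 34 63))))) (.nv (.thr 25 51 (.thr 13 49 (.thr 1 9 (.thr 61 41 (.dbl 29 17 45))))) (.nv (.thr 48 24 (.thr 60 56 (.thr 15 45 (.dbl 0 8 10)))) (.nv (.thr 0 8 (.thr 42 63 (.thr 34 46 (.dbl 51 17 25)))) .nd))))) .nd)))))))))))))) (.rp 20 (.str 1 (.nv (.thr 7 6 (.thr 22 52 (.thr 41 61 (.thr 3 60 (.thr 0 2 (.dbl 15 10 11)))))) (.nv (.thr 13 9 (.thr 25 49 (.thr 29 17 (.dbl 61 41 45)))) (.rp 61 (.thr 6 7 (.thr 38 55 (.thr 39 36 (.thr 9 13 (.thr 12 3 (.thr 51 25 (.thr 0 8 (.dbl 15 10 27)))))))) (.rp 57 (.thr 13 9 (.thr 49 25 (.thr 41 61 (.dbl 33 17 45)))) (.rp 49 (.thr 6 7 (.thr 38 55 (.thr 9 13 (.thr 12 3 (.thr 25 51 (.dbl 41 57 61)))))) (.rp 41 (.thr 38 55 (.thr 13 9 (.thr 25 49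 (.thr 12 51 (.thr 15 14 (.dbl 0 8 10)))))) .nd))))))) (.rp 7 (.str 0 (.nv (.thr 8 12 (.thr 42 63 (.thr 25 59 (.thr 13 49 (.thr 1 9 (.thr 29 17 (.dbl 61 41 45))))))) (.nv (.thr 12 8 (.thr 15 10 (.thr 13 14 (.thr 25 49 (.thr 29 17 (.dbl 63 42 46)))))) (.nv (.thr 38 55 (.thr 39 36 (.thr 12 8 (.thr 51 25 (.dbl 15 10 27))))) (.nv (.thr 12 8 (.thr 63 42 (.thr 29 46 (.thr 25 17 (.dbl 38 51 55))))) (.rp 42 (.thr 38 55 (.thr 12 8 (.thr 25 51 (.thr 13 49 (.dbl 15 10 14))))) (.rp 25 (.thr 38 55 (.thr 39 36 (.thr 15 10 (.thr 42 63 (.thr 34 46 (.dbl 51 17 27)))))) (.rp 12 (.thr 38 55 (.thr 39 36 (.thr 15 10 (.thr 51 27 (.thr 34 17 (.dbl 42 46 63)))))) (.rp 8 (.thr 38 55 (.thr 39 36 (.thr 15 10 (.thr 51 27 (.thr 17 34 (.dbl 25 12 29)))))) .nd))))))))) (.rp 6 (.str 0 (.nv (.thr 12 8 (.thr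 15 10 (.thr 38 55 (.thr 39 36 (.dbl 51 25 27))))) (.nv (.thr 8 12 (.thr 10 15 (.thr 9 11 (.thr 13 1 (.thr 25 49 (.dbl 42 59 63)))))) (.nv (.thr 12 8 (.thr 38 55 (.thr 25 51 (.thr 29 17 (.dbl 63 42 46))))) (.rp 42 (.thr 38 55 (.thr 12 8 (.thr 25 51 (.thr 13 49 (.dbl 15 10 14))))) (.rp 25 (.thr 38 55 (.thr 39 36 (.thr 15 10 (.thr 42 63 (.thr 34 46 (.dbl 51 17 27)))))) (.rp 12 (.thr 38 55 (.thr 39 36 (.thr 15 10 (.thr 51 27 (.thr 34 17 (.dbl 42 46 63)))))) (.rp 8 (.thr 38 55 (.thr 39 36 (.thr 15 10 (.thr 51 27 (.thr 17 34 (.dbl 25 12 29)))))) .nd)))))))) .nd)))))))))))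

theorem w529 : WinAt (137441050656, 9007203616817152) :=
  chF (K := []) kn c529 137441050656 9007203616817152 53
    [] (by decide +kernel) (by decide +kernel)

/-- A certificate. -/
noncomputable def c530 : Ct := (.str 4 (.nv (.thr 7 6 (.thr 38 55 (.thr 52 22 (.dbl 36 20 39)))) (.nv (.thr 7 6 (.thr 22 52 (.thr 23 20 (.dbl 55 38 39)))) (.rp 55 (.str 0 (.nv (.thr 6 7 (.thr 12 8 (.thr 9 3 (.thr 13 1 (.thr 25 49 (.thr 17 29 (.dbl 51 34 38))))))) (.nv (.thr 12 8 (.thr 15 10 (.thr 13 14 (.thr 25 49 (.thr 17 29 (.dbl 51 34 38)))))) (.nv (.thr 6 7 (.thr 12 8 (.thr 3 9 (.thr 10 15 (.dbl 2 1 14))))) (.rp 54 (.str 52 (.nv (.dbl 7 6 22) (.rp 22 (.thr 20 36 (.thr 60 40 (.thr 48 56 (.thr 32 16 (.dbl 42 47 63))))) (.rp 7 (.thr 20 36 (.thr 60 40 (.thr 48 56 (.thr 32 16 (.dbl 42 47 63)))))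 (.rp 6 (.thr 20 36 (.dbl 22 7 23)) .nd))))) (.rp 52 (.str 54 (.nv (.thr 12 8 (.thr 15 10 (.thr 13 14 (.thr 9 1 (.dbl 6 3 7))))) (.nv (.thr 6 7 (.thr 10 15 (.thr 22 38 (.thr 42 63 (.dbl 2 14 62))))) (.nv (.thr 6 7 (.thr 12 8 (.thr 38 22 (.thr 42 63 (.thr 34 46 (.dbl 51 17 25)))))) (.nv (.thr 6 7 (.thr 12 8 (.thr 3 9 (.thr 10 15 (.dbl 2 1 14))))) (.rp 7 (.thr 12 8 (.thr 15 10 (.thr 13 14 (.thr 25 49 (.thr 17 29 (.dbl 51 34 38)))))) (.rp 6 (.thr 8 12 (.thr 10 15 (.thr 9 11 (.thr 13 1 (.thr 42 63 (.dbl 25 49 59)))))) .nd))))))) (.rp 15 (.thr 7 6 (.thr 52 22 (.thr 20 36 (.thr 60 40 (.thr 48 56 (.thr 32 16 (.dbl 42 47 63))))))) (.rp 12 (.thr 7 6 (.thr 15 10 (.thr 3 11 (.thr 2 1 (.thr 42 63 (.dbl 22 52 62)))))) (.rp 9 (.thr 7 6 (.thr 52 22 (.thr 20 36 (.thr 60 40 (.thr 48 56 (.thr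 32 16 (.dbl 42 47 63))))))) (.rp 8 (.thr 7 6 (.thr 52 22 (.thr 20 36 (.thr 60 40 (.thr 42 63 (.thr 32 47 (.dbl 48 16 56))))))) (.rp 6 (.thr 8 12 (.thr 10 15 (.thr 9 11 (.thr 13 1 (.thr 42 63 (.dbl 25 49 59)))))) .nd))))))))))) (.rp 52 (.str 1 (.nv (.thr 55 38 (.thr 13 9 (.thr 25 49 (.thr 61 41 (.dbl 29 17 45))))) (.nv (.thr 6 7 (.thr 9 13 (.thr 3 12 (.thr 41 61 (.thr 22 60 (.dbl 38 54 55)))))) (.nv (.thr 13 9 (.thr 25 49 (.thr 29 17 (.dbl 61 41 45)))) (.rp 61 (.thr 9 13 (.thr 6 7 (.thr 12 3 (.thr 0 8 (.thr 63 42 (.thr 29 46 (.thr 25 17 (.dbl 38 51 55)))))))) (.rp 55 (.str 54 (.nv (.thr 6 7 (.thr 9 13 (.thr 3 12 (.thr 22 38 (.dbl 41 60 61))))) (.nv (.thr 6 7 (.thr 22 38 (.thr 41 61 (.thr 3 60 (.thr 0 2 (.dbl 12 8 9)))))) (.nv (.thr 13 9 (.thr 25 49 (.thr 29 17 (.dbl 61 41 45))))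 (.rp 61 (.thr 6 7 (.thr 22 38 (.thr 23 20 (.thr 9 13 (.thr 3 12 (.thr 0 2 (.dbl 63 42 43))))))) (.rp 41 (.thr 6 7 (.thr 22 38 (.thr 23 20 (.thr 9 13 (.thr 3 12 (.thr 0 2 (.dbl 63 42 43))))))) (.rp 9 (.thr 6 7 (.thr 22 38 (.thr 23 20 (.thr 41 61 (.thr 3 60 (.thr 0 2 (.dbl 63 42 43))))))) .nd))))))) (.rp 49 (.thr 9 13 (.thr 41 61 (.thr 57 25 (.thr 6 7 (.thr 3 12 (.thr 22 60 (.dbl 38 54 55))))))) (.rp 45 (.thr 9 13 (.thr 6 7 (.thr 12 3 (.thr 38 55 (.thr 54 22 (.thr 25 51 (.dbl 41 57 61))))))) (.rp 41 (.thr 13 9 (.thr 25 49 (.thr 6 7 (.thr 38 55 (.thr 54 22 (.thr 12 51 (.thr 0 8 (.dbl 15 10 14)))))))) (.rp 29 (.thr 9 13 (.thr 6 7 (.thr 12 3 (.thr 38 55 (.thr 54 22 (.thr 25 51 (.dbl 41 57 61))))))) (.rp 13 (.thr 41 61 (.thr 7 6 (.thr 55 38 (.thr 23 39 (.thr 22 20 (.thr 3 60 (.thr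 15 11 (.dbl 0 2 10)))))))) (.rp 9 (.thr 41 61 (.thr 7 6 (.thr 55 38 (.thr 23 39 (.thr 22 20 (.thr 3 60 (.thr 15 11 (.dbl 0 2 10)))))))) .nd)))))))))))) (.rp 39 (.str 1 (.nv (.thr 7 6 (.thr 22 52 (.thr 41 61 (.thr 3 60 (.thr 0 2 (.dbl 15 10 11)))))) (.nv (.thr 13 9 (.thr 25 49 (.thr 29 17 (.dbl 61 41 45)))) (.rp 61 (.thr 6 7 (.thr 9 13 (.thr 3 12 (.thr 0 2 (.thr 63 42 (.thr 38 55 (.thr 23 43 (.dbl 22 20 54)))))))) (.rp 57 (.thr 13 9 (.thr 25 49 (.thr 61 41 (.dbl 29 17 45)))) (.rp 49 (.thr 6 7 (.thr 9 13 (.thr 3 12 (.thr 41 61 (.thr 57 25 (.thr 22 60 (.dbl 38 54 55))))))) (.rp 41 (.thr 38 55 (.thr 13 9 (.thr 25 49 (.thr 12 51 (.thr 15 14 (.dbl 0 8 10)))))) .nd))))))) (.rp 38 (.str 1 (.nv (.thr 7 6 (.thr 22 52 (.thr 41 61 (.thr 3 60 (.thr 0 2 (.dbl 15 10 11)))))) (.nv (.thr 13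 9 (.thr 25 49 (.thr 29 17 (.dbl 61 41 45)))) (.rp 61 (.thr 6 7 (.thr 9 13 (.thr 12 3 (.thr 0 8 (.thr 42 63 (.thr 32 47 (.thr 48 16 (.thr 36 24 (.thr 20 52 (.dbl 40 44 60)))))))))) (.rp 57 (.thr 13 9 (.thr 25 49 (.thr 61 41 (.dbl 29 17 45)))) (.rp 50 (.str 14 (.nv (.thr 13 9 (.thr 61 41 (.thr 29 45 (.dbl 25 17 49)))) (.nv (.thr 6 7 (.thr 9 13 (.thr 3 12 (.dbl 2 0 10)))) (.rp 25 (.thr 13 9 (.thr 6 7 (.thr 10 2 (.dbl 15 0 12)))) (.rp 13 (.thr 41 61 (.thr 7 6 (.thr 22 52 (.thr 3 60 (.thr 0 2 (.dbl 15 10 11)))))) (.rp 9 (.thr 41 61 (.thr 7 6 (.thr 22 52 (.thr 3 60 (.thr 0 2 (.dbl 15 10 11)))))) .nd)))))) (.rp 49 (.thr 7 6 (.thr 22 52 (.thr 9 13 (.thr 41 61 (.thr 57 25 (.thr 3 60 (.thr 0 2 (.dbl 15 10 11)))))))) (.rp 41 (.thr 6 7 (.thr 9 13 (.thr 12 3 (.thr 0 8 (.thr 42 63 (.thr 32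 47 (.thr 48 16 (.thr 36 24 (.thr 20 52 (.dbl 40 44 60)))))))))) (.rp 14 (.str 50 (.nv (.thr 7 6 (.thr 22 52 (.thr 41 61 (.thr 3 60 (.thr 15 11 (.dbl 0 2 10)))))) (.nv (.thr 13 9 (.thr 25 49 (.thr 29 17 (.dbl 61 41 45)))) (.rp 61 (.thr 6 7 (.thr 9 13 (.thr 12 3 (.thr 0 8 (.thr 42 63 (.thr 32 47 (.thr 48 16 (.thr 36 24 (.thr 20 52 (.dbl 40 44 60)))))))))) (.rp 57 (.thr 13 9 (.thr 25 49 (.thr 61 41 (.dbl 29 17 45)))) (.rp 49 (.thr 7 6 (.thr 22 52 (.thr 9 13 (.thr 41 61 (.thr 57 25 (.thr 3 60 (.thr 15 11 (.dbl 0 2 10)))))))) (.rp 41 (.thr 6 7 (.thr 9 13 (.thr 12 3 (.thr 0 8 (.thr 42 63 (.thr 32 47 (.thr 48 16 (.thr 36 24 (.thr 20 52 (.dbl 40 44 60)))))))))) .nd))))))) .nd))))))))) (.rp 22 (.str 15 (.nv (.thr 0 10 (.thr 38 55 (.thr 39 36 (.thr 42 63 (.thr 51 27 (.dbl 34 17 46))))))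 (.nv (.thr 6 7 (.thr 0 10 (.thr 12 8 (.thr 9 3 (.dbl 13 1 14))))) (.nv (.thr 38 55 (.thr 39 36 (.thr 51 27 (.thr 0 10 (.dbl 12 8 25))))) (.rp 58 (.thr 38 55 (.thr 39 36 (.thr 51 27 (.thr 25 12 (.thr 17 29 (.dbl 0 10 34)))))) (.rp 42 (.thr 38 55 (.thr 39 36 (.thr 51 27 (.thr 25 12 (.thr 17 29 (.dbl 0 10 34)))))) (.rp 30 (.str 18 (.nv (.thr 0 10 (.thr 38 55 (.thr 39 36 (.thr 42 63 (.thr 51 27 (.dbl 34 17 46)))))) (.nv (.thr 6 7 (.thr 0 10 (.thr 12 8 (.thr 9 3 (.dbl 13 1 14))))) (.rp 58 (.thr 38 55 (.thr 39 36 (.thr 51 27 (.thr 25 12 (.thr 17 29 (.dbl 0 10 34)))))) (.rp 42 (.thr 38 55 (.thr 39 36 (.thr 51 27 (.thr 25 12 (.thr 17 29 (.dbl 0 10 34)))))) (.rp 10 (.thr 7 6 (.thr 38 55 (.thr 39 36 (.thr 51 27 (.thr 25 12 (.thr 17 29 (.thr 19 16 (.dbl 3 11 35)))))))) (.rp 0 (.thr 7 6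 (.thr 38 55 (.thr 39 36 (.thr 51 27 (.thr 25 12 (.thr 17 29 (.thr 19 16 (.dbl 3 11 35)))))))) .nd))))))) (.rp 18 (.str 30 (.nv (.thr 0 10 (.thr 12 8 (.thr 14 13 (.thr 46 62 (.dbl 63 29 42))))) (.nv (.thr 0 10 (.thr 38 55 (.thr 60 45 (.thr 20 40 (.dbl 36 39 52))))) (.rp 58 (.thr 38 55 (.thr 39 36 (.thr 51 27 (.thr 25 12 (.thr 17 29 (.dbl 0 10 34)))))) (.rp 48 (.str 3 (.nv (.dbl 7 6 11) (.rp 63 (.str 58 (.nv (.dbl 7 6 11) (.rp 11 (.thr 6 7 (.thr 12 9 (.dbl 0 8 10))) (.rp 7 (.thr 0 10 (.thr 12 8 (.thr 9 6 (.dbl 13 1 14)))) (.rp 6 (.thr 0 10 (.thr 12 8 (.thr 38 55 (.thr 51 25 (.dbl 39 27 36))))) .nd))))) (.rp 58 (.str 63 (.nv (.dbl 0 10 42) (.rp 42 (.thr 10 0 (.dbl 7 6 11)) (.rp 10 (.thr 42 0 (.dbl 7 6 11)) (.rp 0 (.dbl 7 6 11) .nd))))) (.rp 11 (.thr 6 7 (.thr 12 9 (.dbl 0 8 10)))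 (.rp 7 (.thr 0 10 (.thr 12 8 (.thr 1 2 (.dbl 9 6 13)))) (.rp 6 (.thr 0 10 (.thr 12 8 (.thr 14 13 (.thr 46 62 (.dbl 63 29 42))))) .nd))))))) (.rp 42 (.thr 38 55 (.thr 39 36 (.thr 51 27 (.thr 25 12 (.thr 17 29 (.dbl 0 10 34)))))) (.rp 10 (.thr 38 55 (.thr 39 36 (.thr 45 60 (.thr 51 27 (.thr 25 12 (.thr 29 17 (.dbl 13 49 61))))))) (.rp 3 (.str 48 (.nv (.thr 60 45 (.thr 38 55 (.thr 36 39 (.dbl 52 20 56)))) (.nv (.thr 0 10 (.thr 42 63 (.dbl 32 16 47))) (.rp 60 (.str 41 (.nv (.thr 38 55 (.thr 36 39 (.thr 12 24 (.dbl 0 8 10)))) (.nv (.thr 0 10 (.thr 32 16 (.dbl 42 47 63))) (.rp 10 (.thr 1 61 (.thr 13 9 (.thr 12 14 (.thr 36 24 (.dbl 38 39 55))))) (.rp 0 (.thr 1 61 (.thr 13 9 (.thr 12 14 (.thr 36 24 (.dbl 38 39 55))))) .nd))))) (.rp 23 (.thr 0 10 (.thr 32 16 (.dbl 42 47 63))) .nd)))))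 (.rp 0 (.thr 38 55 (.thr 39 36 (.thr 45 60 (.thr 51 27 (.thr 25 12 (.thr 29 17 (.dbl 13 49 61))))))) .nd))))))))) (.rp 10 (.thr 38 55 (.thr 39 36 (.thr 51 27 (.thr 25 12 (.thr 13 49 (.thr 1 9 (.thr 61 41 (.dbl 29 17 45)))))))) (.rp 0 (.thr 38 55 (.thr 39 36 (.thr 51 27 (.thr 25 12 (.thr 13 49 (.thr 1 9 (.thr 61 41 (.dbl 29 17 45)))))))) .nd)))))))))) (.rp 20 (.str 1 (.nv (.thr 7 6 (.thr 22 52 (.thr 41 61 (.thr 3 60 (.thr 0 2 (.dbl 15 10 11)))))) (.nv (.thr 13 9 (.thr 25 49 (.thr 29 17 (.dbl 61 41 45)))) (.rp 61 (.thr 9 13 (.thr 6 7 (.thr 12 3 (.thr 0 8 (.thr 38 55 (.thr 39 36 (.thr 51 25 (.dbl 15 10 27)))))))) (.rp 57 (.thr 13 9 (.thr 25 49 (.thr 61 41 (.dbl 29 17 45)))) (.rp 49 (.thr 9 13 (.thr 6 7 (.thr 12 3 (.thr 38 55 (.thr 25 51 (.dbl 41 57 61)))))) (.rp 41 (.thr 13 9 (.thr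 25 49 (.thr 38 55 (.thr 12 51 (.thr 0 8 (.dbl 15 10 14)))))) .nd))))))) (.rp 7 (.str 0 (.nv (.thr 12 8 (.thr 15 10 (.thr 13 14 (.thr 25 49 (.thr 17 29 (.dbl 51 34 38)))))) (.nv (.thr 8 12 (.thr 42 63 (.thr 25 59 (.thr 13 49 (.thr 1 9 (.thr 29 17 (.dbl 61 41 45))))))) (.nv (.thr 38 55 (.thr 39 36 (.thr 12 8 (.thr 51 25 (.dbl 15 10 27))))) (.rp 51 (.thr 12 8 (.thr 42 63 (.thr 32 47 (.thr 48 16 (.thr 36 24 (.dbl 38 39 55)))))) (.rp 42 (.thr 38 55 (.thr 12 8 (.thr 25 51 (.thr 13 49 (.dbl 15 10 14))))) (.rp 25 (.thr 38 55 (.thr 39 36 (.thr 15 10 (.thr 42 63 (.thr 34 46 (.dbl 51 17 27)))))) (.rp 12 (.thr 38 55 (.thr 39 36 (.thr 15 10 (.thr 51 27 (.thr 34 17 (.dbl 42 46 63)))))) (.rp 8 (.thr 38 55 (.thr 39 36 (.thr 15 10 (.thr 51 27 (.thr 17 34 (.dbl 25 12 29)))))) .nd))))))))) (.rp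 6 (.str 0 (.nv (.thr 8 12 (.thr 10 15 (.thr 9 11 (.thr 13 1 (.thr 25 49 (.thr 17 29 (.dbl 42 59 63))))))) (.nv (.thr 12 8 (.thr 42 63 (.thr 32 47 (.thr 48 16 (.thr 36 24 (.dbl 38 39 55)))))) (.nv (.thr 12 8 (.thr 38 55 (.thr 25 51 (.thr 63 42 (.dbl 29 17 46))))) (.rp 63 (.thr 38 55 (.thr 39 36 (.thr 12 8 (.thr 51 25 (.dbl 15 10 27))))) (.rp 42 (.thr 38 55 (.thr 12 8 (.thr 25 51 (.thr 13 49 (.dbl 15 10 14))))) (.rp 25 (.thr 38 55 (.thr 36 39 (.thr 12 8 (.thr 42 63 (.thr 32 47 (.dbl 48 16 24)))))) (.rp 12 (.thr 38 55 (.thr 36 39 (.thr 42 63 (.thr 32 47 (.thr 40 44 (.dbl 20 52 60)))))) (.rp 8 (.thr 38 55 (.thr 36 39 (.thr 42 63 (.thr 32 47 (.thr 40 44 (.dbl 20 52 60)))))) .nd))))))))) .nd)))))))))))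

theorem w530 : WinAt (137441050656, 9007207911784448) :=
  chF (K := []) kn c530 137441050656 9007207911784448 53
    [] (by decide +kernel) (by decide +kernel)

/-- A certificate. -/
noncomputable def c531 : Ct := (.str 1 (.nv (.thr 13 9 (.thr 25 49 (.thr 61 41 (.dbl 29 17 45)))) (.nv (.thr 13 9 (.thr 41 61 (.thr 33 45 (.dbl 49 17 25)))) (.rp 61 (.thr 13 9 (.thr 49 25 (.thr 33 17 (.thr 41 45 (.str 0 (.nv (.thr 3 2 (.thr 22 60 (.thr 63 42 (.dbl 23 20 43)))) (.nv (.thr 3 2 (.thr 22 60 (.thr 7 52 (.dbl 15 10 11)))) (.nv (.thr 42 63 (.thr 40 43 (.thr 60 20 (.dbl 3 2 22)))) (.rp 63 (.thr 3 2 (.thr 60 22 (.thr 40 20 (.thr 42 43 (.thr 32 47 (.dbl 48 16 18)))))) (.rp 60 (.thr 3 2 (.thr 63 42 (.thr 23 43 (.thr 22 20 (.thr 7 52 (.dbl 15 10 11)))))) (.rp 27 (.str 24 (.nv (.thr 3 2 (.thr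 48 18 (.thr 50 51 (.thr 12 36 (.dbl 15 10 14))))) (.nv (.thr 42 63 (.thr 40 43 (.thr 60 20 (.dbl 3 2 22)))) (.nv (.thr 15 10 (.thr 12 14 (.thr 36 48 (.thr 38 39 (.dbl 4 8 55))))) (.nv (.thr 3 2 (.thr 22 60 (.thr 23 20 (.dbl 63 42 43)))) (.rp 2 (.thr 15 10 (.thr 42 63 (.thr 32 47 (.thr 48 16 (.dbl 12 14 36))))) .nd)))))) (.rp 24 (.str 27 (.nv (.thr 3 2 (.thr 22 60 (.thr 7 52 (.dbl 15 10 11)))) (.nv (.thr 15 10 (.thr 39 51 (.thr 12 14 (.thr 38 36 (.dbl 4 8 55))))) (.nv (.thr 3 2 (.thr 42 63 (.thr 40 43 (.dbl 60 20 22)))) (.rp 2 (.thr 15 10 (.thr 51 39 (.thr 42 63 (.thr 32 47 (.dbl 48 16 50))))) .nd))))) (.rp 22 (.thr 3 2 (.thr 42 63 (.thr 32 47 (.dbl 48 16 18)))) (.rp 3 (.thr 15 10 (.thr 12 14 (.thr 8 4 (.thr 42 63 (.thr 32 47 (.thr 48 16 (.thr 24 36 (.dbl 40 43 56)))))))) (.rp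 2 (.thr 42 63 (.thr 32 47 (.thr 48 16 (.thr 40 43 (.thr 60 20 (.dbl 3 18 22)))))) .nd))))))))))))))) (.rp 49 (.str 4 (.nv (.thr 6 7 (.thr 9 13 (.thr 12 3 (.thr 38 55 (.thr 25 51 (.dbl 41 57 61)))))) (.nv (.thr 61 41 (.thr 7 6 (.thr 38 55 (.thr 52 22 (.dbl 36 20 39))))) (.nv (.thr 7 6 (.thr 22 52 (.thr 23 20 (.dbl 55 38 39)))) (.rp 61 (.str 57 (.nv (.thr 6 7 (.thr 9 13 (.thr 12 3 (.thr 25 41 (.dbl 38 51 55))))) (.nv (.thr 9 13 (.thr 25 41 (.thr 38 55 (.thr 12 51 (.thr 0 8 (.dbl 3 2 6)))))) (.nv (.thr 7 6 (.thr 22 52 (.thr 23 20 (.dbl 55 38 39)))) (.rp 55 (.thr 9 13 (.thr 25 41 (.thr 29 17 (.thr 6 7 (.thr 12 3 (.thr 0 8 (.dbl 63 42 46))))))) (.rp 38 (.thr 9 13 (.thr 25 41 (.thr 29 17 (.thr 6 7 (.thr 12 3 (.thr 0 8 (.dbl 63 42 46))))))) (.rp 6 (.thr 9 13 (.thr 25 41 (.thr 29 17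 (.thr 38 55 (.thr 12 51 (.thr 0 8 (.dbl 63 42 46))))))) .nd))))))) (.rp 55 (.thr 6 7 (.thr 9 13 (.thr 3 12 (.thr 0 2 (.thr 63 42 (.thr 23 43 (.thr 22 20 (.dbl 41 60 61)))))))) (.rp 52 (.thr 6 7 (.thr 38 55 (.thr 54 22 (.thr 9 13 (.thr 12 3 (.thr 25 51 (.dbl 41 57 61))))))) (.rp 39 (.thr 6 7 (.thr 9 13 (.thr 3 12 (.thr 41 61 (.thr 57 25 (.thr 22 60 (.dbl 38 54 55))))))) (.rp 38 (.thr 7 6 (.thr 22 52 (.thr 9 13 (.thr 41 61 (.thr 57 25 (.thr 3 60 (.thr 0 2 (.dbl 15 10 11)))))))) (.rp 7 (.thr 38 55 (.thr 13 9 (.thr 61 41 (.thr 29 45 (.thr 25 17 (.thr 12 51 (.thr 0 8 (.dbl 15 10 14)))))))) (.rp 6 (.thr 38 55 (.thr 13 9 (.thr 61 41 (.thr 29 45 (.thr 25 17 (.thr 12 51 (.thr 0 8 (.dbl 15 10 14)))))))) .nd))))))))))) (.rp 45 (.str 4 (.nv (.thr 7 6 (.thr 22 52 (.thr 41 61 (.thr 3 60 (.thr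 0 2 (.dbl 15 10 11)))))) (.nv (.thr 7 6 (.thr 22 52 (.thr 23 20 (.dbl 55 38 39)))) (.rp 55 (.thr 6 7 (.thr 9 13 (.thr 3 12 (.thr 0 2 (.thr 63 42 (.thr 23 43 (.thr 22 20 (.dbl 41 60 61)))))))) (.rp 54 (.thr 7 6 (.thr 52 22 (.thr 38 55 (.dbl 36 20 39)))) (.rp 52 (.thr 6 7 (.thr 38 55 (.thr 54 22 (.thr 9 13 (.thr 12 3 (.thr 25 51 (.dbl 41 57 61))))))) (.rp 22 (.thr 6 7 (.thr 38 55 (.thr 9 13 (.thr 12 3 (.thr 25 51 (.dbl 41 57 61)))))) (.rp 7 (.thr 38 55 (.thr 13 9 (.thr 25 49 (.thr 12 51 (.thr 15 14 (.dbl 0 8 10)))))) (.rp 6 (.thr 38 55 (.thr 13 9 (.thr 25 49 (.thr 12 51 (.thr 15 14 (.dbl 0 8 10)))))) .nd))))))))) (.rp 41 (.str 4 (.nv (.thr 13 9 (.thr 25 49 (.thr 38 55 (.thr 12 51 (.thr 0 8 (.dbl 15 10 14)))))) (.nv (.thr 7 6 (.thr 22 52 (.thr 23 20 (.dbl 55 38 39)))) (.rp 56 (.str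 11 (.nv (.thr 6 7 (.thr 9 13 (.thr 8 10 (.dbl 12 0 3)))) (.nv (.thr 7 6 (.thr 38 55 (.thr 36 39 (.dbl 52 20 22)))) (.rp 7 (.thr 38 55 (.thr 13 9 (.thr 25 49 (.thr 12 51 (.thr 0 8 (.dbl 15 10 14)))))) (.rp 6 (.thr 38 55 (.thr 13 9 (.thr 25 49 (.thr 12 51 (.thr 0 8 (.dbl 15 10 14)))))) .nd))))) (.rp 55 (.thr 7 6 (.thr 52 22 (.thr 36 20 (.thr 38 39 (.thr 13 9 (.thr 25 49 (.thr 12 51 (.thr 15 14 (.dbl 0 8 10))))))))) (.rp 54 (.thr 7 6 (.thr 52 22 (.thr 38 55 (.dbl 36 20 39)))) (.rp 52 (.thr 6 7 (.thr 38 55 (.thr 54 22 (.thr 13 9 (.thr 25 49 (.thr 12 51 (.thr 15 14 (.dbl 0 8 10)))))))) (.rp 38 (.thr 6 7 (.thr 9 13 (.thr 12 3 (.thr 0 8 (.thr 42 63 (.thr 32 47 (.thr 48 16 (.thr 36 24 (.thr 20 52 (.dbl 40 44 60)))))))))) (.rp 11 (.str 56 (.nv (.thr 13 9 (.thr 25 49 (.thr 38 55 (.thr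 12 51 (.thr 15 14 (.dbl 0 8 10)))))) (.nv (.thr 38 55 (.thr 36 39 (.thr 7 6 (.dbl 52 20 22)))) (.rp 55 (.thr 13 9 (.thr 25 49 (.thr 7 6 (.thr 52 22 (.thr 36 20 (.thr 38 39 (.thr 12 51 (.dbl 48 24 60)))))))) (.rp 54 (.thr 7 6 (.thr 52 22 (.thr 38 55 (.dbl 36 20 39)))) (.rp 52 (.thr 13 9 (.thr 25 49 (.thr 6 7 (.thr 38 55 (.thr 54 22 (.thr 12 51 (.thr 15 14 (.dbl 0 8 10)))))))) (.rp 38 (.thr 13 9 (.thr 25 49 (.thr 7 6 (.thr 22 52 (.thr 28 19 (.thr 20 23 (.thr 24 16 (.thr 8 40 (.thr 42 59 (.dbl 0 12 63)))))))))) .nd))))))) .nd))))))))) (.rp 25 (.thr 41 61 (.thr 33 45 (.thr 49 17 (.thr 13 9 (.str 0 (.nv (.thr 3 2 (.thr 22 60 (.thr 63 42 (.dbl 23 20 43)))) (.nv (.thr 3 2 (.thr 22 60 (.thr 7 52 (.dbl 15 10 11)))) (.nv (.thr 42 63 (.thr 40 43 (.thr 60 20 (.dbl 3 2 22)))) (.rp 63 (.thr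 3 2 (.thr 60 22 (.thr 40 20 (.thr 42 43 (.thr 32 47 (.dbl 48 16 18)))))) (.rp 60 (.thr 3 2 (.thr 63 42 (.thr 23 43 (.thr 22 20 (.thr 7 52 (.dbl 15 10 11)))))) (.rp 27 (.str 24 (.nv (.thr 3 2 (.thr 48 18 (.thr 50 51 (.thr 12 36 (.dbl 15 10 14))))) (.nv (.thr 42 63 (.thr 40 43 (.thr 60 20 (.dbl 3 2 22)))) (.nv (.thr 15 10 (.thr 12 14 (.thr 36 48 (.thr 38 39 (.dbl 4 8 55))))) (.nv (.thr 3 2 (.thr 22 60 (.thr 23 20 (.dbl 63 42 43)))) (.rp 2 (.thr 15 10 (.thr 42 63 (.thr 32 47 (.thr 48 16 (.dbl 12 14 36))))) .nd)))))) (.rp 24 (.str 27 (.nv (.thr 3 2 (.thr 22 60 (.thr 7 52 (.dbl 15 10 11)))) (.nv (.thr 15 10 (.thr 39 51 (.thr 12 14 (.thr 38 36 (.dbl 4 8 55))))) (.nv (.thr 3 2 (.thr 42 63 (.thr 40 43 (.dbl 60 20 22)))) (.rp 2 (.thr 15 10 (.thr 51 39 (.thr 42 63 (.thr 32 47 (.dbl 48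 16 50))))) .nd))))) (.rp 22 (.thr 3 2 (.thr 42 63 (.thr 32 47 (.dbl 48 16 18)))) (.rp 3 (.thr 15 10 (.thr 12 14 (.thr 8 4 (.thr 42 63 (.thr 32 47 (.thr 48 16 (.thr 24 36 (.dbl 40 43 56)))))))) (.rp 2 (.thr 42 63 (.thr 32 47 (.thr 48 16 (.thr 40 43 (.thr 60 20 (.dbl 3 18 22)))))) .nd))))))))))))))) (.rp 17 (.str 0 (.nv (.thr 41 61 (.thr 42 63 (.thr 40 43 (.thr 60 20 (.dbl 3 2 22))))) (.nv (.thr 3 2 (.thr 9 13 (.thr 10 15 (.thr 12 6 (.dbl 8 4 11))))) (.rp 3 (.thr 13 9 (.thr 25 49 (.thr 15 10 (.thr 12 14 (.thr 8 4 (.dbl 42 59 63)))))) (.rp 2 (.thr 13 9 (.thr 25 49 (.thr 15 10 (.thr 42 63 (.thr 8 59 (.dbl 12 4 14)))))) .nd))))) (.rp 13 (.str 0 (.nv (.thr 3 2 (.thr 41 61 (.thr 22 60 (.thr 7 52 (.dbl 15 10 11))))) (.nv (.thr 3 2 (.thr 15 10 (.thr 7 11 (.thr 22 52 (.thr 23 20 (.dbl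 63 42 43)))))) (.nv (.thr 2 3 (.thr 42 63 (.thr 22 62 (.thr 7 52 (.thr 4 6 (.thr 23 20 (.dbl 55 38 39))))))) (.nv (.thr 41 61 (.thr 45 33 (.thr 15 10 (.thr 60 30 (.dbl 3 2 22))))) (.rp 22 (.thr 41 61 (.thr 45 33 (.thr 15 10 (.thr 42 63 (.thr 40 43 (.dbl 60 20 30)))))) (.rp 3 (.thr 41 61 (.thr 45 33 (.thr 15 10 (.thr 60 30 (.thr 40 20 (.dbl 42 43 63)))))) (.rp 2 (.thr 41 61 (.thr 45 33 (.thr 15 10 (.thr 60 30 (.thr 20 40 (.dbl 22 3 23)))))) .nd)))))))) (.rp 9 (.str 0 (.nv (.thr 15 10 (.thr 41 61 (.thr 45 33 (.thr 60 30 (.dbl 3 2 22))))) (.nv (.thr 2 3 (.thr 10 15 (.thr 6 14 (.thr 7 4 (.thr 22 52 (.dbl 42 62 63)))))) (.nv (.thr 3 2 (.thr 41 61 (.thr 22 60 (.thr 23 20 (.dbl 63 42 43))))) (.rp 42 (.thr 41 61 (.thr 3 2 (.thr 22 60 (.thr 7 52 (.dbl 15 10 11))))) (.rp 22 (.thr 41 61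 (.thr 33 45 (.thr 3 2 (.thr 42 63 (.thr 32 47 (.dbl 48 16 18)))))) (.rp 3 (.thr 41 61 (.thr 45 33 (.thr 15 10 (.thr 60 30 (.thr 40 20 (.dbl 42 43 63)))))) (.rp 2 (.thr 41 61 (.thr 45 33 (.thr 15 10 (.thr 60 30 (.thr 20 40 (.dbl 22 3 23)))))) .nd)))))))) .nd)))))))))))

theorem w531 : WinAt (137441050656, 9007216501719040) :=
  chF (K := []) kn c531 137441050656 9007216501719040 53
    [] (by decide +kernel) (by decide +kernel)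

/-- A certificate. -/
noncomputable def c532 : Ct := (.str 4 (.nv (.thr 7 6 (.thr 38 55 (.thr 52 22 (.dbl 36 20 39)))) (.nv (.thr 7 6 (.thr 22 52 (.thr 23 20 (.dbl 55 38 39)))) (.rp 55 (.str 0 (.nv (.thr 6 7 (.thr 12 8 (.thr 9 3 (.thr 13 1 (.thr 25 49 (.thr 17 29 (.dbl 51 34 38))))))) (.nv (.thr 12 8 (.thr 63 42 (.thr 29 46 (.thr 25 17 (.thr 13 49 (.dbl 15 10 14)))))) (.nv (.thr 6 7 (.thr 12 8 (.thr 3 9 (.thr 10 15 (.dbl 2 1 14))))) (.rp 54 (.str 52 (.nv (.dbl 7 6 22) (.rp 22 (.thr 20 36 (.thr 60 40 (.thr 48 56 (.thr 32 16 (.dbl 42 47 63))))) (.rp 7 (.thr 20 36 (.thr 60 40 (.thr 48 56 (.thr 32 16 (.dbl 42 47 63))))) (.rp 6 (.thr 20 36 (.dbl 22 7 23)) .nd))))) (.rp 52 (.str 54 (.nv (.thr 12 8 (.thr 15 10 (.thr 13 14 (.thr 9 1 (.dbl 6 3 7))))) (.nv (.thr 6 7 (.thr 10 15 (.thr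 22 38 (.thr 42 63 (.dbl 2 14 62))))) (.nv (.thr 6 7 (.thr 12 8 (.thr 38 22 (.thr 42 63 (.thr 34 46 (.dbl 51 17 25)))))) (.nv (.thr 6 7 (.thr 12 8 (.thr 3 9 (.thr 10 15 (.dbl 2 1 14))))) (.rp 7 (.thr 12 8 (.thr 15 10 (.thr 13 14 (.thr 25 49 (.thr 17 29 (.dbl 51 34 38)))))) (.rp 6 (.thr 12 8 (.thr 63 42 (.thr 29 46 (.thr 25 17 (.thr 13 49 (.dbl 15 10 14)))))) .nd))))))) (.rp 15 (.thr 7 6 (.thr 52 22 (.thr 20 36 (.thr 60 40 (.thr 48 56 (.thr 32 16 (.dbl 42 47 63))))))) (.rp 12 (.thr 7 6 (.thr 15 10 (.thr 3 11 (.thr 2 1 (.thr 42 63 (.dbl 22 52 62)))))) (.rp 8 (.thr 7 6 (.thr 52 22 (.thr 20 36 (.thr 60 40 (.thr 42 63 (.thr 32 47 (.dbl 48 16 56))))))) (.rp 1 (.thr 12 8 (.thr 15 10 (.thr 13 14 (.thr 25 49 (.thr 17 29 (.dbl 51 34 38)))))) .nd)))))))))) (.rp 52 (.str 1 (.nv (.thr 6 7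 (.thr 9 13 (.thr 3 12 (.thr 41 61 (.thr 22 60 (.dbl 38 54 55)))))) (.nv (.thr 55 38 (.thr 13 9 (.thr 41 61 (.thr 49 25 (.dbl 33 17 45))))) (.nv (.thr 13 9 (.thr 25 49 (.thr 29 17 (.dbl 61 41 45)))) (.rp 61 (.thr 6 7 (.thr 9 13 (.thr 3 12 (.thr 0 2 (.thr 63 42 (.thr 23 43 (.thr 22 20 (.dbl 38 54 55)))))))) (.rp 55 (.str 54 (.nv (.thr 6 7 (.thr 9 13 (.thr 3 12 (.thr 22 38 (.dbl 41 60 61))))) (.nv (.thr 6 7 (.thr 22 38 (.thr 41 61 (.thr 3 60 (.thr 0 2 (.dbl 12 8 9)))))) (.nv (.thr 13 9 (.thr 25 49 (.thr 29 17 (.dbl 61 41 45)))) (.rp 61 (.thr 6 7 (.thr 22 38 (.thr 23 20 (.thr 9 13 (.thr 3 12 (.thr 0 2 (.dbl 63 42 43))))))) (.rp 41 (.thr 6 7 (.thr 38 22 (.thr 13 9 (.thr 25 49 (.thr 12 51 (.thr 15 14 (.dbl 0 8 10))))))) (.rp 9 (.thr 6 7 (.thr 22 38 (.thr 23 20 (.thr 41 61 (.thr 3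 60 (.thr 0 2 (.dbl 63 42 43))))))) .nd))))))) (.rp 49 (.thr 6 7 (.thr 9 13 (.thr 3 12 (.thr 41 61 (.thr 57 25 (.thr 22 60 (.dbl 38 54 55))))))) (.rp 45 (.thr 7 6 (.thr 55 38 (.thr 23 39 (.thr 22 20 (.thr 41 61 (.thr 3 60 (.thr 0 2 (.dbl 15 10 11)))))))) (.rp 41 (.thr 6 7 (.thr 38 55 (.thr 54 22 (.thr 13 9 (.thr 25 49 (.thr 12 51 (.thr 15 14 (.dbl 0 8 10)))))))) (.rp 13 (.thr 7 6 (.thr 55 38 (.thr 23 39 (.thr 22 20 (.thr 41 61 (.thr 3 60 (.thr 0 2 (.dbl 15 10 11)))))))) (.rp 9 (.thr 7 6 (.thr 55 38 (.thr 23 39 (.thr 22 20 (.thr 41 61 (.thr 3 60 (.thr 0 2 (.dbl 15 10 11)))))))) .nd))))))))))) (.rp 39 (.thr 7 6 (.str 1 (.nv (.thr 22 52 (.thr 41 61 (.thr 3 60 (.thr 0 2 (.dbl 15 10 11))))) (.nv (.thr 41 61 (.thr 33 45 (.thr 49 17 (.dbl 13 9 25)))) (.rp 61 (.thr 22 52 (.thr 13 9 (.thr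 49 25 (.thr 33 17 (.thr 41 45 (.thr 3 60 (.thr 0 2 (.dbl 15 10 11)))))))) (.rp 57 (.thr 13 9 (.thr 49 25 (.thr 41 61 (.dbl 33 17 45)))) (.rp 49 (.thr 22 52 (.thr 9 13 (.thr 41 61 (.thr 57 25 (.thr 3 60 (.thr 0 2 (.dbl 15 10 11))))))) (.rp 47 (.str 43 (.nv (.thr 22 52 (.thr 23 20 (.thr 3 63 (.thr 0 2 (.dbl 15 10 11))))) (.nv (.thr 13 9 (.thr 25 49 (.thr 29 17 (.dbl 61 41 45)))) (.rp 3 (.thr 41 61 (.thr 33 45 (.thr 49 17 (.dbl 13 9 25)))) .nd)))) (.rp 43 (.str 47 (.nv (.thr 22 52 (.thr 42 32 (.thr 0 63 (.dbl 2 3 62)))) (.nv (.thr 41 61 (.thr 33 45 (.thr 49 17 (.dbl 13 9 25)))) (.rp 33 (.thr 61 41 (.thr 13 9 (.thr 29 45 (.dbl 25 17 49)))) .nd)))) (.rp 41 (.thr 38 55 (.thr 13 9 (.thr 25 49 (.thr 12 51 (.thr 15 14 (.dbl 0 8 10)))))) .nd)))))))))) (.rp 38 (.str 41 (.nv (.thr 7 6 (.thr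 22 52 (.thr 3 60 (.thr 15 11 (.thr 0 10 (.dbl 1 2 61)))))) (.nv (.thr 1 61 (.thr 33 45 (.thr 13 9 (.dbl 49 17 25)))) (.rp 61 (.thr 45 33 (.thr 7 6 (.thr 22 52 (.thr 20 23 (.thr 60 3 (.thr 0 40 (.dbl 15 10 30))))))) (.rp 50 (.str 14 (.nv (.thr 6 7 (.thr 10 2 (.thr 15 0 (.thr 13 12 (.dbl 1 9 61))))) (.nv (.thr 1 61 (.thr 7 6 (.thr 22 52 (.thr 3 60 (.thr 0 2 (.dbl 15 10 11)))))) (.nv (.thr 33 45 (.thr 1 61 (.thr 13 9 (.dbl 49 17 25)))) (.rp 61 (.thr 7 6 (.thr 22 52 (.thr 3 60 (.thr 15 11 (.thr 12 13 (.dbl 0 8 10)))))) (.rp 1 (.thr 7 6 (.thr 22 52 (.thr 3 60 (.thr 15 11 (.thr 12 13 (.dbl 0 8 10)))))) .nd)))))) (.rp 14 (.str 50 (.nv (.thr 1 61 (.thr 7 6 (.thr 22 52 (.thr 3 60 (.thr 15 11 (.dbl 0 2 10)))))) (.nv (.thr 33 45 (.thr 1 61 (.thr 49 17 (.dbl 13 9 25)))) (.rp 61 (.thr 45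 33 (.thr 7 6 (.thr 22 52 (.thr 60 3 (.thr 20 23 (.thr 0 40 (.dbl 15 10 30))))))) (.rp 49 (.thr 61 1 (.thr 7 6 (.thr 22 52 (.thr 60 3 (.thr 20 23 (.thr 0 40 (.dbl 63 42 62))))))) (.rp 1 (.thr 45 33 (.thr 7 6 (.thr 22 52 (.thr 60 3 (.thr 20 23 (.thr 0 40 (.dbl 15 10 30))))))) .nd)))))) (.rp 9 (.thr 1 61 (.thr 7 6 (.thr 22 52 (.thr 3 60 (.thr 15 11 (.dbl 0 2 10)))))) (.rp 1 (.thr 45 33 (.thr 7 6 (.thr 22 52 (.thr 20 23 (.thr 60 3 (.thr 0 40 (.dbl 15 10 30))))))) .nd)))))))) (.rp 22 (.thr 6 7 (.str 0 (.nv (.thr 12 8 (.thr 38 55 (.thr 42 63 (.thr 34 46 (.dbl 51 17 25))))) (.nv (.thr 12 8 (.thr 3 9 (.thr 10 15 (.dbl 2 1 14)))) (.rp 30 (.str 18 (.nv (.thr 12 8 (.thr 38 55 (.thr 42 63 (.thr 51 25 (.dbl 34 17 46))))) (.nv (.thr 12 8 (.thr 3 9 (.thr 2 1 (.dbl 10 14 15)))) (.rp 12 (.thr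 55 38 (.thr 10 15 (.thr 63 42 (.thr 51 59 (.thr 34 17 (.dbl 2 14 50)))))) (.rp 8 (.thr 38 55 (.thr 10 15 (.thr 2 14 (.thr 34 50 (.dbl 42 46 63))))) .nd))))) (.rp 18 (.str 30 (.nv (.thr 10 15 (.thr 14 2 (.thr 38 55 (.thr 42 63 (.dbl 46 34 62))))) (.nv (.thr 12 8 (.thr 38 55 (.thr 42 63 (.thr 34 46 (.dbl 51 17 25))))) (.nv (.thr 12 8 (.thr 3 9 (.thr 10 15 (.dbl 2 1 14)))) .nd)))) (.rp 12 (.thr 38 55 (.thr 39 36 (.thr 15 10 (.thr 51 27 (.thr 34 17 (.dbl 42 46 63)))))) (.rp 8 (.thr 38 55 (.thr 39 36 (.thr 15 10 (.thr 51 27 (.thr 17 34 (.dbl 25 12 29)))))) .nd)))))))) (.rp 20 (.str 1 (.nv (.thr 7 6 (.thr 22 52 (.thr 41 61 (.thr 3 60 (.thr 0 2 (.dbl 15 10 11)))))) (.nv (.thr 13 9 (.thr 25 49 (.thr 29 17 (.dbl 61 41 45)))) (.rp 61 (.thr 6 7 (.thr 38 55 (.thr 39 36 (.thr 9 13 (.thr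 12 3 (.thr 51 25 (.thr 0 8 (.dbl 15 10 27)))))))) (.rp 57 (.thr 13 9 (.thr 49 25 (.thr 41 61 (.dbl 33 17 45)))) (.rp 49 (.thr 6 7 (.thr 38 55 (.thr 9 13 (.thr 3 12 (.thr 41 61 (.thr 57 25 (.dbl 22 54 60))))))) (.rp 41 (.thr 38 55 (.thr 13 9 (.thr 25 49 (.thr 12 51 (.thr 15 14 (.dbl 0 8 10)))))) .nd))))))) (.rp 7 (.str 0 (.nv (.thr 38 55 (.thr 39 36 (.thr 12 8 (.thr 51 25 (.dbl 15 10 27))))) (.nv (.thr 12 8 (.thr 42 63 (.thr 32 47 (.thr 48 16 (.thr 36 24 (.dbl 38 39 55)))))) (.nv (.thr 12 8 (.thr 63 42 (.thr 29 46 (.thr 25 17 (.dbl 38 51 55))))) (.rp 55 (.thr 12 8 (.thr 15 10 (.thr 13 14 (.thr 25 49 (.thr 17 29 (.dbl 51 34 38)))))) (.rp 42 (.thr 38 55 (.thr 12 8 (.thr 25 51 (.thr 13 49 (.dbl 15 10 14))))) (.rp 38 (.thr 8 12 (.thr 10 15 (.thr 42 63 (.thr 25 59 (.thr 13 49 (.dbl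 9 1 11)))))) (.rp 25 (.thr 38 55 (.thr 39 36 (.thr 15 10 (.thr 42 63 (.thr 34 46 (.dbl 51 17 27)))))) (.rp 12 (.thr 38 55 (.thr 39 36 (.thr 15 10 (.thr 51 27 (.thr 34 17 (.dbl 42 46 63)))))) (.rp 8 (.thr 38 55 (.thr 39 36 (.thr 15 10 (.thr 51 27 (.thr 17 34 (.dbl 25 12 29)))))) .nd)))))))))) (.rp 6 (.str 0 (.nv (.thr 8 12 (.thr 10 15 (.thr 9 11 (.thr 13 1 (.thr 25 49 (.dbl 42 59 63)))))) (.nv (.thr 12 8 (.thr 38 55 (.thr 36 39 (.thr 48 24 (.thr 32 16 (.dbl 42 47 63)))))) (.nv (.thr 12 8 (.thr 63 42 (.thr 29 46 (.thr 25 17 (.dbl 38 51 55))))) (.rp 63 (.thr 38 55 (.thr 39 36 (.thr 12 8 (.thr 51 25 (.dbl 15 10 27))))) (.rp 42 (.thr 38 55 (.thr 12 8 (.thr 25 51 (.thr 13 49 (.dbl 15 10 14))))) (.rp 25 (.thr 38 55 (.thr 39 36 (.thr 15 10 (.thr 42 63 (.thr 34 46 (.dbl 51 17 27))))))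 (.rp 12 (.thr 38 55 (.thr 39 36 (.thr 15 10 (.thr 51 27 (.thr 34 17 (.dbl 42 46 63)))))) (.rp 8 (.thr 38 55 (.thr 39 36 (.thr 15 10 (.thr 51 27 (.thr 17 34 (.dbl 25 12 29)))))) .nd))))))))) .nd)))))))))))

theorem w532 : WinAt (137441050656, 9007233681588224) :=
  chF (K := []) kn c532 137441050656 9007233681588224 53
    [] (by decide +kernel) (by decide +kernel)

/-- A certificate. -/
noncomputable def c533 : Ct := (.str 1 (.nv (.thr 13 9 (.thr 41 61 (.thr 49 25 (.dbl 33 17 45)))) (.nv (.thr 13 9 (.thr 25 49 (.thr 29 17 (.dbl 61 41 45)))) (.rp 61 (.str 0 (.nv (.thr 3 2 (.thr 13 9 (.thr 42 63 (.thr 49 25 (.thr 33 17 (.thr 48 18 (.dbl 32 16 47))))))) (.nv (.thr 9 13 (.thr 3 2 (.thr 12 6 (.thr 10 15 (.dbl 8 4 11))))) (.rp 57 (.str 49 (.nv (.dbl 13 9 25) (.rp 25 (.thr 17 33 (.thr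 51 34 (.thr 48 50 (.thr 32 16 (.dbl 42 47 63))))) (.rp 13 (.thr 17 33 (.thr 51 34 (.thr 48 50 (.thr 32 16 (.dbl 42 47 63))))) (.rp 9 (.thr 17 33 (.dbl 25 13 29)) .nd))))) (.rp 49 (.str 57 (.nv (.thr 9 13 (.thr 10 15 (.thr 25 41 (.thr 42 63 (.dbl 8 11 59))))) (.nv (.thr 2 3 (.thr 10 15 (.thr 6 14 (.thr 7 4 (.thr 42 63 (.dbl 22 52 62)))))) (.nv (.thr 3 2 (.thr 9 13 (.thr 41 25 (.thr 42 63 (.thr 40 43 (.dbl 60 20 22)))))) (.nv (.thr 3 2 (.thr 9 13 (.thr 10 15 (.thr 12 6 (.dbl 8 4 11))))) (.rp 13 (.thr 3 2 (.thr 15 10 (.thr 7 11 (.thr 22 52 (.thr 20 23 (.dbl 60 40 41)))))) .nd)))))) (.rp 13 (.thr 3 2 (.thr 15 10 (.thr 7 11 (.thr 22 52 (.thr 20 23 (.dbl 60 40 41)))))) (.rp 9 (.thr 2 3 (.thr 10 15 (.thr 6 14 (.thr 7 4 (.thr 42 63 (.dbl 22 52 62)))))) (.rp 3 (.thr 13 9 (.thr 15 10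 (.thr 12 14 (.thr 8 4 (.thr 42 63 (.dbl 25 49 59)))))) (.rp 2 (.thr 13 9 (.thr 49 25 (.thr 17 33 (.thr 51 34 (.thr 42 63 (.thr 32 47 (.dbl 48 16 50))))))) .nd))))))))) (.rp 49 (.str 4 (.nv (.thr 61 41 (.thr 7 6 (.thr 22 52 (.thr 55 38 (.dbl 23 20 39))))) (.nv (.thr 6 7 (.thr 9 13 (.thr 12 3 (.thr 38 55 (.thr 25 51 (.dbl 41 57 61)))))) (.nv (.thr 7 6 (.thr 22 52 (.thr 23 20 (.dbl 55 38 39)))) (.rp 61 (.str 57 (.nv (.thr 6 7 (.thr 9 13 (.thr 12 3 (.thr 25 41 (.dbl 38 51 55))))) (.nv (.thr 9 13 (.thr 25 41 (.thr 38 55 (.thr 12 51 (.thr 0 8 (.dbl 3 2 6)))))) (.nv (.thr 7 6 (.thr 22 52 (.thr 23 20 (.dbl 55 38 39)))) (.rp 55 (.thr 9 13 (.thr 25 41 (.thr 29 17 (.thr 6 7 (.thr 12 3 (.thr 0 8 (.dbl 63 42 46))))))) (.rp 38 (.thr 9 13 (.thr 25 41 (.thr 29 17 (.thr 6 7 (.thr 12 3 (.thr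 0 8 (.dbl 63 42 46))))))) (.rp 6 (.thr 9 13 (.thr 25 41 (.thr 29 17 (.thr 38 55 (.thr 12 51 (.thr 0 8 (.dbl 63 42 46))))))) .nd))))))) (.rp 55 (.thr 6 7 (.thr 9 13 (.thr 3 12 (.thr 0 2 (.thr 63 42 (.thr 23 43 (.thr 22 20 (.dbl 41 60 61)))))))) (.rp 52 (.thr 6 7 (.thr 38 55 (.thr 54 22 (.thr 9 13 (.thr 12 3 (.thr 25 51 (.dbl 41 57 61))))))) (.rp 39 (.thr 6 7 (.thr 9 13 (.thr 3 12 (.thr 41 61 (.thr 57 25 (.thr 22 60 (.dbl 38 54 55))))))) (.rp 38 (.thr 7 6 (.thr 22 52 (.thr 9 13 (.thr 41 61 (.thr 57 25 (.thr 3 60 (.thr 0 2 (.dbl 15 10 11)))))))) (.rp 23 (.thr 6 7 (.thr 9 13 (.thr 3 12 (.thr 41 61 (.thr 57 25 (.thr 22 60 (.dbl 38 54 55))))))) (.rp 7 (.thr 38 55 (.thr 13 9 (.thr 61 41 (.thr 29 45 (.thr 25 17 (.thr 12 51 (.thr 15 14 (.dbl 0 8 10)))))))) (.rp 6 (.thr 38 55 (.thr 13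 9 (.thr 61 41 (.thr 29 45 (.thr 25 17 (.thr 12 51 (.thr 15 14 (.dbl 0 8 10)))))))) .nd)))))))))))) (.rp 45 (.str 4 (.nv (.thr 13 9 (.thr 25 49 (.thr 38 55 (.thr 12 51 (.thr 0 8 (.dbl 15 10 14)))))) (.nv (.thr 7 6 (.thr 22 52 (.thr 23 20 (.dbl 55 38 39)))) (.rp 55 (.thr 9 13 (.thr 6 7 (.thr 12 3 (.thr 0 8 (.thr 63 42 (.thr 41 61 (.thr 29 46 (.dbl 25 17 57)))))))) (.rp 54 (.thr 7 6 (.thr 22 52 (.thr 55 38 (.dbl 23 20 39)))) (.rp 52 (.thr 9 13 (.thr 6 7 (.thr 12 3 (.thr 38 55 (.thr 54 22 (.thr 25 51 (.dbl 41 57 61))))))) (.rp 38 (.thr 41 61 (.thr 7 6 (.thr 22 52 (.thr 3 60 (.thr 15 11 (.dbl 0 2 10)))))) .nd))))))) (.rp 41 (.str 4 (.nv (.thr 13 9 (.thr 25 49 (.thr 38 55 (.thr 12 51 (.thr 0 8 (.dbl 15 10 14)))))) (.nv (.thr 7 6 (.thr 22 52 (.thr 23 20 (.dbl 55 38 39)))) (.rp 56 (.str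 11 (.nv (.thr 7 6 (.thr 22 52 (.thr 23 20 (.dbl 55 38 39)))) (.nv (.thr 6 7 (.thr 9 13 (.thr 8 10 (.dbl 12 0 3)))) (.rp 7 (.thr 38 55 (.thr 13 9 (.thr 25 49 (.thr 12 51 (.thr 0 8 (.dbl 15 10 14)))))) (.rp 6 (.thr 38 55 (.thr 13 9 (.thr 25 49 (.thr 12 51 (.thr 0 8 (.dbl 15 10 14)))))) .nd))))) (.rp 55 (.thr 9 13 (.thr 6 7 (.thr 3 12 (.thr 0 2 (.thr 42 63 (.thr 32 47 (.thr 48 16 (.thr 33 18 (.thr 17 49 (.dbl 34 35 51)))))))))) (.rp 54 (.thr 7 6 (.thr 22 52 (.thr 55 38 (.dbl 23 20 39)))) (.rp 52 (.thr 13 9 (.thr 25 49 (.thr 6 7 (.thr 38 55 (.thr 54 22 (.thr 12 51 (.thr 0 8 (.dbl 15 10 14)))))))) (.rp 38 (.thr 9 13 (.thr 6 7 (.thr 3 12 (.thr 0 2 (.thr 42 63 (.thr 32 47 (.thr 48 16 (.thr 33 18 (.thr 17 49 (.dbl 34 35 51)))))))))) (.rp 11 (.str 56 (.nv (.thr 13 9 (.thr 25 49 (.thr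 38 55 (.thr 12 51 (.thr 15 14 (.dbl 0 8 10)))))) (.nv (.thr 7 6 (.thr 22 52 (.thr 23 20 (.dbl 55 38 39)))) (.rp 55 (.thr 9 13 (.thr 6 7 (.thr 3 12 (.thr 0 2 (.thr 42 63 (.thr 32 47 (.thr 48 16 (.thr 33 18 (.thr 17 49 (.dbl 34 35 51)))))))))) (.rp 54 (.thr 7 6 (.thr 22 52 (.thr 55 38 (.dbl 23 20 39)))) (.rp 52 (.thr 13 9 (.thr 25 49 (.thr 6 7 (.thr 38 55 (.thr 54 22 (.thr 12 51 (.thr 15 14 (.dbl 0 8 10)))))))) (.rp 38 (.thr 9 13 (.thr 6 7 (.thr 3 12 (.thr 0 2 (.thr 42 63 (.thr 32 47 (.thr 48 16 (.thr 33 18 (.thr 17 49 (.dbl 34 35 51)))))))))) .nd))))))) .nd))))))))) (.rp 25 (.str 15 (.nv (.thr 0 10 (.thr 41 61 (.thr 42 63 (.thr 45 33 (.thr 60 30 (.dbl 40 20 43)))))) (.nv (.thr 9 13 (.thr 0 10 (.thr 3 2 (.thr 6 12 (.dbl 7 4 11))))) (.nv (.thr 41 61 (.thr 45 33 (.thr 60 30 (.thr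 0 10 (.dbl 3 2 22))))) (.rp 58 (.thr 41 61 (.thr 45 33 (.thr 60 30 (.thr 22 3 (.thr 20 23 (.dbl 0 10 40)))))) (.rp 42 (.thr 41 61 (.thr 45 33 (.thr 60 30 (.thr 22 3 (.thr 20 23 (.dbl 0 10 40)))))) (.rp 27 (.str 24 (.nv (.thr 0 10 (.thr 41 61 (.thr 42 63 (.thr 45 33 (.thr 60 30 (.dbl 40 20 43)))))) (.nv (.thr 9 13 (.thr 0 10 (.thr 3 2 (.thr 6 12 (.dbl 7 4 11))))) (.rp 58 (.thr 41 61 (.thr 45 33 (.thr 60 30 (.thr 22 3 (.thr 20 23 (.dbl 0 10 40)))))) (.rp 42 (.thr 41 61 (.thr 45 33 (.thr 60 30 (.thr 22 3 (.thr 20 23 (.dbl 0 10 40)))))) (.rp 10 (.thr 13 9 (.thr 41 61 (.thr 45 33 (.thr 60 30 (.thr 22 3 (.thr 20 23 (.thr 28 16 (.dbl 12 14 44)))))))) (.rp 0 (.thr 13 9 (.thr 41 61 (.thr 45 33 (.thr 60 30 (.thr 22 3 (.thr 20 23 (.thr 28 16 (.dbl 12 14 44)))))))) .nd))))))) (.rp 24 (.str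 27 (.nv (.thr 0 10 (.thr 3 2 (.thr 11 7 (.thr 43 59 (.dbl 63 23 42))))) (.nv (.thr 0 10 (.thr 41 61 (.thr 51 39 (.thr 17 34 (.dbl 33 45 49))))) (.rp 58 (.thr 41 61 (.thr 45 33 (.thr 60 30 (.thr 22 3 (.thr 20 23 (.dbl 0 10 40)))))) (.rp 48 (.str 12 (.nv (.dbl 13 9 14) (.rp 63 (.str 58 (.nv (.dbl 13 9 14) (.rp 14 (.thr 9 13 (.thr 3 6 (.dbl 0 2 10))) (.rp 13 (.thr 0 10 (.thr 3 2 (.thr 6 9 (.dbl 7 4 11)))) (.rp 9 (.thr 0 10 (.thr 3 2 (.thr 41 61 (.thr 60 22 (.dbl 45 30 33))))) .nd))))) (.rp 58 (.str 63 (.nv (.dbl 0 10 42) (.rp 42 (.thr 10 0 (.dbl 13 9 14)) (.rp 10 (.thr 42 0 (.dbl 13 9 14)) (.rp 0 (.dbl 13 9 14) .nd))))) (.rp 14 (.thr 9 13 (.thr 3 6 (.dbl 0 2 10))) (.rp 13 (.thr 0 10 (.thr 3 2 (.thr 4 8 (.dbl 6 7 9)))) (.rp 9 (.thr 0 10 (.thr 3 2 (.thr 11 7 (.thr 43 59 (.dbl 63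 23 42))))) .nd))))))) (.rp 42 (.thr 41 61 (.thr 45 33 (.thr 60 30 (.thr 22 3 (.thr 20 23 (.dbl 0 10 40)))))) (.rp 12 (.str 48 (.nv (.thr 51 39 (.thr 41 61 (.thr 33 45 (.dbl 49 17 50)))) (.nv (.thr 0 10 (.thr 42 63 (.dbl 32 16 47))) (.rp 51 (.str 38 (.nv (.thr 41 61 (.thr 33 45 (.thr 3 18 (.dbl 0 2 10)))) (.nv (.thr 0 10 (.thr 32 16 (.dbl 42 47 63))) (.rp 10 (.thr 4 55 (.thr 7 6 (.thr 3 11 (.thr 33 18 (.dbl 41 45 61))))) (.rp 0 (.thr 4 55 (.thr 7 6 (.thr 3 11 (.thr 33 18 (.dbl 41 45 61))))) .nd))))) (.rp 29 (.thr 0 10 (.thr 32 16 (.dbl 42 47 63))) .nd))))) (.rp 10 (.thr 41 61 (.thr 45 33 (.thr 39 51 (.thr 60 30 (.thr 22 3 (.thr 23 20 (.dbl 7 52 55))))))) (.rp 0 (.thr 41 61 (.thr 45 33 (.thr 39 51 (.thr 60 30 (.thr 22 3 (.thr 23 20 (.dbl 7 52 55))))))) .nd))))))))) (.rp 10 (.thr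 41 61 (.thr 45 33 (.thr 60 30 (.thr 22 3 (.thr 7 52 (.thr 4 6 (.thr 55 38 (.dbl 23 20 39)))))))) (.rp 0 (.thr 41 61 (.thr 45 33 (.thr 60 30 (.thr 22 3 (.thr 7 52 (.thr 4 6 (.thr 55 38 (.dbl 23 20 39)))))))) .nd)))))))))) (.rp 17 (.str 4 (.nv (.thr 6 7 (.thr 9 13 (.thr 3 12 (.thr 41 61 (.thr 22 60 (.dbl 38 54 55)))))) (.nv (.thr 7 6 (.thr 22 52 (.thr 23 20 (.dbl 55 38 39)))) (.rp 55 (.thr 6 7 (.thr 9 13 (.thr 3 12 (.thr 0 2 (.thr 41 61 (.thr 45 33 (.thr 60 22 (.dbl 15 10 30)))))))) (.rp 54 (.thr 7 6 (.thr 22 52 (.thr 55 38 (.dbl 23 20 39)))) (.rp 38 (.thr 7 6 (.thr 22 52 (.thr 41 61 (.thr 3 60 (.thr 0 2 (.dbl 15 10 11)))))) (.rp 22 (.thr 6 7 (.thr 38 55 (.thr 9 13 (.thr 12 3 (.thr 25 51 (.dbl 41 57 61)))))) (.rp 7 (.thr 38 55 (.thr 13 9 (.thr 25 49 (.thr 12 51 (.thr 15 14 (.dbl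 0 8 10)))))) (.rp 6 (.thr 38 55 (.thr 13 9 (.thr 25 49 (.thr 12 51 (.thr 15 14 (.dbl 0 8 10)))))) .nd))))))))) (.rp 13 (.str 0 (.nv (.thr 3 2 (.thr 15 10 (.thr 7 11 (.thr 22 52 (.thr 20 23 (.dbl 60 40 41)))))) (.nv (.thr 2 3 (.thr 42 63 (.thr 22 62 (.thr 7 52 (.thr 4 6 (.thr 23 20 (.dbl 55 38 39))))))) (.nv (.thr 41 61 (.thr 45 33 (.thr 3 2 (.thr 60 22 (.dbl 15 10 30))))) (.rp 60 (.thr 3 2 (.thr 42 63 (.thr 32 47 (.thr 48 16 (.thr 33 18 (.dbl 41 45 61)))))) (.rp 42 (.thr 41 61 (.thr 3 2 (.thr 22 60 (.thr 7 52 (.dbl 15 10 11))))) (.rp 22 (.thr 41 61 (.thr 45 33 (.thr 15 10 (.thr 42 63 (.thr 40 43 (.dbl 60 20 30)))))) (.rp 3 (.thr 41 61 (.thr 45 33 (.thr 15 10 (.thr 60 30 (.thr 40 20 (.dbl 42 43 63)))))) (.rp 2 (.thr 41 61 (.thr 45 33 (.thr 15 10 (.thr 60 30 (.thr 20 40 (.dbl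 22 3 23)))))) .nd))))))))) (.rp 9 (.str 0 (.nv (.thr 2 3 (.thr 10 15 (.thr 6 14 (.thr 7 4 (.thr 22 52 (.thr 20 23 (.dbl 42 62 63))))))) (.nv (.thr 3 2 (.thr 42 63 (.thr 32 47 (.thr 48 16 (.thr 33 18 (.dbl 41 45 61)))))) (.nv (.thr 3 2 (.thr 41 61 (.thr 22 60 (.thr 63 42 (.dbl 23 20 43))))) (.rp 63 (.thr 41 61 (.thr 45 33 (.thr 3 2 (.thr 60 22 (.dbl 15 10 30))))) (.rp 42 (.thr 41 61 (.thr 3 2 (.thr 22 60 (.thr 7 52 (.dbl 15 10 11))))) (.rp 22 (.thr 41 61 (.thr 33 45 (.thr 3 2 (.thr 42 63 (.thr 32 47 (.dbl 48 16 18)))))) (.rp 3 (.thr 41 61 (.thr 33 45 (.thr 42 63 (.thr 32 47 (.thr 34 35 (.dbl 17 49 51)))))) (.rp 2 (.thr 41 61 (.thr 33 45 (.thr 42 63 (.thr 32 47 (.thr 34 35 (.dbl 17 49 51)))))) .nd))))))))) .nd)))))))))))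

theorem w533 : WinAt (137441050656, 9007268041326592) :=
  chF (K := []) kn c533 137441050656 9007268041326592 53
    [] (by decide +kernel) (by decide +kernel)

/-- A certificate. -/
noncomputable def c534 : Ct := (.str 42 (.nv (.thr 13 49 (.thr 29 17 (.thr 45 61 (.thr 47 32 (.thr 63 0 (.dbl 46 12 44)))))) (.nv (.thr 0 63 (.thr 5 53 (.thr 10 15 (.thr 13 49 (.thr 9 1 (.dbl 8 11 59)))))) (.nv (.thr 17 29 (.thr 32 47 (.thr 49 13 (.thr 33 1 (.thr 0 63 (.dbl 34 35 51)))))) (.nv (.thr 0 63 (.thr 5 53 (.thr 8 59 (.thr 12 4 (.thr 15 10 (.dbl 13 14 49)))))) (.rp 63 (.str 0 (.nv (.thr 17 29 (.thr 34 51 (.thr 49 13 (.thr 33 1 (.dbl 32 35 47))))) (.nv (.thr 5 53 (.thr 10 15 (.thr 13 49 (.thr 9 1 (.dbl 8 11 59))))) (.nv (.thr 5 53 (.thr 8 59 (.thr 12 4 (.thr 13 49 (.dbl 15 10 14))))) (.nv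 (.thr 32 47 (.thr 48 16 (.thr 17 29 (.thr 51 34 (.dbl 49 13 50))))) (.rp 56 (.str 11 (.nv (.thr 5 53 (.thr 15 10 (.thr 3 7 (.thr 1 2 (.dbl 13 9 49))))) (.nv (.thr 8 59 (.thr 10 9 (.dbl 5 15 53))) (.rp 58 (.thr 32 47 (.thr 17 29 (.thr 34 51 (.thr 49 13 (.dbl 33 1 35))))) (.rp 53 (.thr 32 47 (.thr 17 29 (.thr 34 51 (.thr 49 13 (.dbl 33 1 35))))) (.rp 50 (.str 14 (.nv (.thr 8 59 (.thr 10 9 (.dbl 5 15 53))) (.nv (.thr 13 49 (.thr 12 15 (.dbl 8 4 59))) (.nv (.thr 5 53 (.thr 15 10 (.dbl 13 12 49))) (.rp 44 (.str 35 (.nv (.thr 5 53 (.thr 13 49 (.dbl 15 10 12))) (.nv (.thr 47 32 (.thr 43 39 (.dbl 59 8 27))) .nd))) (.rp 35 (.str 44 (.nv (.thr 8 59 (.thr 10 9 (.dbl 5 15 53))) (.nv (.thr 29 17 (.thr 47 32 (.thr 45 46 (.dbl 13 49 61)))) (.nv (.thr 5 53 (.thr 15 10 (.dbl 13 12 49))) .nd))))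 (.rp 15 (.thr 8 59 (.thr 9 10 (.thr 13 49 (.dbl 5 1 53)))) .nd))))))) (.rp 44 (.str 35 (.nv (.thr 5 53 (.thr 13 49 (.thr 1 9 (.thr 3 2 (.dbl 15 7 10))))) (.nv (.thr 47 32 (.thr 43 39 (.dbl 59 8 27))) (.rp 50 (.str 14 (.nv (.thr 5 53 (.thr 13 49 (.dbl 15 10 12))) (.nv (.thr 47 32 (.thr 43 39 (.dbl 59 8 27))) .nd))) (.rp 14 (.str 50 (.nv (.thr 17 29 (.thr 49 13 (.dbl 51 34 48))) (.nv (.thr 59 8 (.thr 43 27 (.dbl 47 32 39))) .nd))) .nd))))) (.rp 35 (.str 44 (.nv (.thr 13 49 (.thr 29 17 (.thr 47 32 (.dbl 45 46 61)))) (.nv (.thr 8 59 (.thr 10 9 (.dbl 5 15 53))) (.rp 50 (.str 14 (.nv (.thr 8 59 (.thr 10 9 (.dbl 5 15 53))) (.nv (.thr 29 17 (.thr 47 32 (.thr 45 46 (.dbl 13 49 61)))) (.nv (.thr 5 53 (.thr 15 10 (.dbl 13 12 49))) .nd)))) (.rp 14 (.str 50 (.nv (.thr 5 53 (.thr 13 49 (.thr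 9 1 (.dbl 8 10 59)))) (.nv (.thr 8 59 (.thr 10 9 (.dbl 5 15 53))) (.nv (.thr 32 47 (.thr 48 16 (.dbl 49 13 51))) .nd)))) .nd))))) (.rp 15 (.thr 8 59 (.thr 9 10 (.thr 13 49 (.dbl 5 1 53)))) (.rp 14 (.str 50 (.nv (.thr 8 59 (.thr 10 9 (.dbl 5 15 53))) (.nv (.thr 17 29 (.thr 51 34 (.dbl 49 13 48))) (.rp 51 (.thr 5 53 (.thr 10 15 (.dbl 8 9 59))) (.rp 44 (.str 35 (.nv (.thr 17 29 (.thr 49 13 (.dbl 51 34 48))) (.nv (.thr 59 8 (.thr 43 27 (.dbl 47 32 39))) .nd))) (.rp 35 (.str 44 (.nv (.thr 5 53 (.thr 13 49 (.thr 9 1 (.dbl 8 10 59)))) (.nv (.thr 8 59 (.thr 10 9 (.dbl 5 15 53))) (.nv (.thr 32 47 (.thr 48 16 (.dbl 49 13 51))) .nd)))) .nd)))))) (.rp 10 (.thr 32 47 (.thr 17 29 (.thr 34 51 (.thr 49 13 (.dbl 33 1 35))))) (.rp 9 (.thr 32 47 (.thr 17 29 (.thr 34 51 (.thr 49 13 (.dbl 33 1 35)))))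 (.rp 5 (.thr 32 47 (.thr 17 29 (.thr 34 51 (.thr 49 13 (.dbl 33 1 35))))) .nd))))))))))))) (.rp 50 (.str 14 (.nv (.thr 5 53 (.thr 8 59 (.thr 4 12 (.thr 6 7 (.dbl 10 2 15))))) (.nv (.thr 5 53 (.thr 15 10 (.dbl 13 12 49))) (.nv (.thr 8 59 (.thr 12 4 (.dbl 13 15 49))) (.rp 56 (.str 11 (.nv (.thr 8 59 (.thr 10 9 (.dbl 5 15 53))) (.nv (.thr 13 49 (.thr 12 15 (.dbl 8 4 59))) (.nv (.thr 5 53 (.thr 15 10 (.dbl 13 12 49))) (.rp 44 (.str 35 (.nv (.thr 5 53 (.thr 13 49 (.dbl 15 10 12))) (.nv (.thr 47 32 (.thr 43 39 (.dbl 59 8 27))) .nd))) (.rp 35 (.str 44 (.nv (.thr 8 59 (.thr 10 9 (.dbl 5 15 53))) (.nv (.thr 29 17 (.thr 47 32 (.thr 45 46 (.dbl 13 49 61)))) (.nv (.thr 5 53 (.thr 15 10 (.dbl 13 12 49))) .nd)))) (.rp 15 (.thr 8 59 (.thr 9 10 (.thr 13 49 (.dbl 5 1 53)))) .nd))))))) (.rp 44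 (.str 35 (.nv (.thr 32 47 (.thr 34 33 (.dbl 17 29 51))) (.nv (.thr 5 53 (.thr 15 10 (.dbl 13 12 49))) (.rp 56 (.str 11 (.nv (.thr 5 53 (.thr 13 49 (.dbl 15 10 12))) (.nv (.thr 47 32 (.thr 43 39 (.dbl 59 8 27))) .nd))) (.rp 15 (.thr 17 29 (.thr 34 51 (.dbl 32 33 47))) (.rp 11 (.str 56 (.nv (.thr 17 29 (.thr 49 13 (.thr 33 1 (.dbl 32 34 47)))) (.nv (.thr 32 47 (.thr 34 33 (.dbl 17 29 51))) (.nv (.thr 8 59 (.thr 12 4 (.dbl 13 15 49))) .nd)))) .nd)))))) (.rp 35 (.str 44 (.nv (.thr 5 53 (.thr 8 59 (.thr 4 12 (.thr 6 7 (.dbl 10 2 15))))) (.nv (.thr 29 17 (.thr 47 32 (.thr 45 46 (.dbl 13 49 61)))) (.nv (.thr 8 59 (.thr 12 4 (.dbl 13 15 49))) (.rp 56 (.str 11 (.nv (.thr 8 59 (.thr 10 9 (.dbl 5 15 53))) (.nv (.thr 29 17 (.thr 47 32 (.thr 45 46 (.dbl 13 49 61)))) (.nv (.thr 5 53 (.thr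 15 10 (.dbl 13 12 49))) .nd)))) (.rp 11 (.str 56 (.nv (.thr 32 47 (.thr 40 36 (.dbl 8 24 59))) (.nv (.thr 29 17 (.thr 47 32 (.thr 45 46 (.dbl 13 49 61)))) (.nv (.thr 8 59 (.thr 12 4 (.dbl 13 15 49))) .nd)))) .nd)))))) (.rp 15 (.thr 49 13 (.thr 17 29 (.thr 33 1 (.thr 34 51 (.dbl 32 35 47))))) (.rp 12 (.thr 5 53 (.thr 13 49 (.thr 9 1 (.thr 10 15 (.dbl 8 11 59))))) (.rp 11 (.str 56 (.nv (.thr 5 53 (.thr 13 49 (.dbl 15 10 12))) (.nv (.thr 5 53 (.thr 8 59 (.thr 4 12 (.thr 6 7 (.dbl 10 2 15))))) (.nv (.thr 49 13 (.thr 53 5 (.thr 57 61 (.dbl 59 8 58)))) (.nv (.thr 8 59 (.thr 12 4 (.dbl 13 15 49))) (.rp 44 (.str 35 (.nv (.thr 17 29 (.thr 49 13 (.thr 33 1 (.dbl 32 34 47)))) (.nv (.thr 32 47 (.thr 34 33 (.dbl 17 29 51))) (.nv (.thr 8 59 (.thr 12 4 (.dbl 13 15 49))) .nd)))) (.rp 35 (.str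 44 (.nv (.thr 32 47 (.thr 40 36 (.dbl 8 24 59))) (.nv (.thr 29 17 (.thr 47 32 (.thr 45 46 (.dbl 13 49 61)))) (.nv (.thr 8 59 (.thr 12 4 (.dbl 13 15 49))) .nd)))) .nd))))))) .nd)))))))))) (.rp 49 (.thr 17 29 (.thr 51 34 (.thr 32 47 (.thr 16 48 (.thr 19 18 (.thr 22 28 (.thr 2 62 (.dbl 3 1 35)))))))) (.rp 44 (.str 35 (.nv (.thr 17 29 (.thr 49 13 (.thr 33 1 (.dbl 32 34 47)))) (.nv (.thr 5 53 (.thr 8 59 (.thr 12 4 (.thr 13 49 (.dbl 15 10 14))))) (.nv (.thr 32 47 (.thr 34 33 (.dbl 17 29 51))) (.rp 56 (.str 11 (.nv (.thr 5 53 (.thr 13 49 (.thr 1 9 (.thr 3 2 (.dbl 15 7 10))))) (.nv (.thr 47 32 (.thr 43 39 (.dbl 59 8 27))) (.rp 50 (.str 14 (.nv (.thr 5 53 (.thr 13 49 (.dbl 15 10 12))) (.nv (.thr 47 32 (.thr 43 39 (.dbl 59 8 27))) .nd))) (.rp 14 (.str 50 (.nv (.thr 17 29 (.thr 49 13 (.dbl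 51 34 48))) (.nv (.thr 59 8 (.thr 43 27 (.dbl 47 32 39))) .nd))) .nd))))) (.rp 50 (.str 14 (.nv (.thr 32 47 (.thr 34 33 (.dbl 17 29 51))) (.nv (.thr 5 53 (.thr 15 10 (.dbl 13 12 49))) (.rp 56 (.str 11 (.nv (.thr 5 53 (.thr 13 49 (.dbl 15 10 12))) (.nv (.thr 47 32 (.thr 43 39 (.dbl 59 8 27))) .nd))) (.rp 15 (.thr 17 29 (.thr 34 51 (.dbl 32 33 47))) (.rp 11 (.str 56 (.nv (.thr 17 29 (.thr 49 13 (.thr 33 1 (.dbl 32 34 47)))) (.nv (.thr 32 47 (.thr 34 33 (.dbl 17 29 51))) (.nv (.thr 8 59 (.thr 12 4 (.dbl 13 15 49))) .nd)))) .nd)))))) (.rp 14 (.str 50 (.nv (.thr 17 29 (.thr 32 47 (.dbl 34 33 51))) (.nv (.thr 5 53 (.thr 10 15 (.thr 13 49 (.thr 9 1 (.dbl 8 11 59))))) (.nv (.thr 17 29 (.thr 51 34 (.dbl 49 13 48))) (.rp 56 (.str 11 (.nv (.thr 17 29 (.thr 49 13 (.dbl 51 34 48))) (.nv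 (.thr 59 8 (.thr 43 27 (.dbl 47 32 39))) .nd))) (.rp 17 (.thr 32 47 (.thr 48 16 (.dbl 49 13 51))) (.rp 11 (.str 56 (.nv (.thr 32 47 (.thr 34 33 (.dbl 17 29 51))) (.nv (.thr 53 5 (.thr 59 8 (.thr 57 58 (.dbl 49 13 61)))) (.nv (.thr 17 29 (.thr 51 34 (.dbl 49 13 48))) .nd)))) .nd))))))) (.rp 11 (.str 56 (.nv (.thr 49 13 (.thr 53 5 (.thr 59 8 (.dbl 57 58 61)))) (.nv (.thr 32 47 (.thr 34 33 (.dbl 17 29 51))) (.rp 50 (.str 14 (.nv (.thr 17 29 (.thr 49 13 (.thr 33 1 (.dbl 32 34 47)))) (.nv (.thr 32 47 (.thr 34 33 (.dbl 17 29 51))) (.nv (.thr 8 59 (.thr 12 4 (.dbl 13 15 49))) .nd)))) (.rp 14 (.str 50 (.nv (.thr 32 47 (.thr 34 33 (.dbl 17 29 51))) (.nv (.thr 53 5 (.thr 59 8 (.thr 57 58 (.dbl 49 13 61)))) (.nv (.thr 17 29 (.thr 51 34 (.dbl 49 13 48))) .nd)))) .nd))))) .nd)))))))) (.rp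 35 (.str 44 (.nv (.thr 8 59 (.thr 12 4 (.thr 32 47 (.thr 36 40 (.dbl 48 16 24))))) (.nv (.thr 8 59 (.thr 12 4 (.thr 5 53 (.thr 15 10 (.dbl 13 14 49))))) (.nv (.thr 29 17 (.thr 47 32 (.thr 45 46 (.dbl 13 49 61)))) (.rp 56 (.str 11 (.nv (.thr 13 49 (.thr 29 17 (.thr 47 32 (.dbl 45 46 61)))) (.nv (.thr 8 59 (.thr 10 9 (.dbl 5 15 53))) (.rp 50 (.str 14 (.nv (.thr 8 59 (.thr 10 9 (.dbl 5 15 53))) (.nv (.thr 29 17 (.thr 47 32 (.thr 45 46 (.dbl 13 49 61)))) (.nv (.thr 5 53 (.thr 15 10 (.dbl 13 12 49))) .nd)))) (.rp 14 (.str 50 (.nv (.thr 5 53 (.thr 13 49 (.thr 9 1 (.dbl 8 10 59)))) (.nv (.thr 8 59 (.thr 10 9 (.dbl 5 15 53))) (.nv (.thr 32 47 (.thr 48 16 (.dbl 49 13 51))) .nd)))) .nd))))) (.rp 50 (.str 14 (.nv (.thr 5 53 (.thr 8 59 (.thr 4 12 (.thr 6 7 (.dbl 10 2 15))))) (.nv (.thr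 29 17 (.thr 47 32 (.thr 45 46 (.dbl 13 49 61)))) (.nv (.thr 8 59 (.thr 12 4 (.dbl 13 15 49))) (.rp 56 (.str 11 (.nv (.thr 8 59 (.thr 10 9 (.dbl 5 15 53))) (.nv (.thr 29 17 (.thr 47 32 (.thr 45 46 (.dbl 13 49 61)))) (.nv (.thr 5 53 (.thr 15 10 (.dbl 13 12 49))) .nd)))) (.rp 11 (.str 56 (.nv (.thr 32 47 (.thr 40 36 (.dbl 8 24 59))) (.nv (.thr 29 17 (.thr 47 32 (.thr 45 46 (.dbl 13 49 61)))) (.nv (.thr 8 59 (.thr 12 4 (.dbl 13 15 49))) .nd)))) .nd)))))) (.rp 14 (.str 50 (.nv (.thr 17 29 (.thr 49 13 (.dbl 51 34 48))) (.nv (.thr 8 59 (.thr 12 4 (.thr 60 28 (.thr 40 20 (.dbl 32 36 47))))) (.nv (.thr 32 47 (.thr 48 16 (.dbl 49 13 51))) (.rp 56 (.str 11 (.nv (.thr 5 53 (.thr 13 49 (.thr 9 1 (.dbl 8 10 59)))) (.nv (.thr 8 59 (.thr 10 9 (.dbl 5 15 53))) (.nv (.thr 32 47 (.thr 48 16 (.dbl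 49 13 51))) .nd)))) (.rp 51 (.thr 29 17 (.thr 13 49 (.thr 45 61 (.dbl 47 32 46)))) (.rp 11 (.str 56 (.nv (.thr 13 49 (.thr 29 17 (.thr 45 61 (.dbl 47 32 46)))) (.nv (.thr 8 59 (.thr 12 4 (.thr 40 24 (.dbl 60 20 28)))) (.nv (.thr 32 47 (.thr 48 16 (.dbl 49 13 51))) .nd)))) .nd))))))) (.rp 11 (.str 56 (.nv (.thr 8 59 (.thr 12 4 (.thr 40 24 (.dbl 60 20 28)))) (.nv (.thr 13 49 (.thr 29 17 (.thr 45 61 (.dbl 47 32 46)))) (.nv (.thr 8 59 (.thr 40 24 (.dbl 32 36 47))) (.rp 50 (.str 14 (.nv (.thr 32 47 (.thr 40 36 (.dbl 8 24 59))) (.nv (.thr 29 17 (.thr 47 32 (.thr 45 46 (.dbl 13 49 61)))) (.nv (.thr 8 59 (.thr 12 4 (.dbl 13 15 49))) .nd)))) (.rp 14 (.str 50 (.nv (.thr 13 49 (.thr 29 17 (.thr 45 61 (.dbl 47 32 46)))) (.nv (.thr 8 59 (.thr 12 4 (.thr 40 24 (.dbl 60 20 28)))) (.nv (.thr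 32 47 (.thr 48 16 (.dbl 49 13 51))) .nd)))) .nd)))))) .nd)))))))) (.rp 14 (.str 50 (.nv (.thr 17 29 (.thr 32 47 (.thr 16 48 (.thr 18 19 (.dbl 34 2 51))))) (.nv (.thr 17 29 (.thr 51 34 (.dbl 49 13 48))) (.nv (.thr 32 47 (.thr 48 16 (.dbl 49 13 51))) (.rp 56 (.str 11 (.nv (.thr 8 59 (.thr 10 9 (.dbl 5 15 53))) (.nv (.thr 17 29 (.thr 51 34 (.dbl 49 13 48))) (.rp 51 (.thr 5 53 (.thr 10 15 (.dbl 8 9 59))) (.rp 44 (.str 35 (.nv (.thr 17 29 (.thr 49 13 (.dbl 51 34 48))) (.nv (.thr 59 8 (.thr 43 27 (.dbl 47 32 39))) .nd))) (.rp 35 (.str 44 (.nv (.thr 5 53 (.thr 13 49 (.thr 9 1 (.dbl 8 10 59)))) (.nv (.thr 8 59 (.thr 10 9 (.dbl 5 15 53))) (.nv (.thr 32 47 (.thr 48 16 (.dbl 49 13 51))) .nd)))) .nd)))))) (.rp 51 (.thr 13 49 (.thr 5 53 (.thr 9 1 (.thr 10 15 (.dbl 8 11 59))))) (.rp 48 (.thr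 17 29 (.thr 49 13 (.thr 33 1 (.thr 34 51 (.dbl 32 35 47))))) (.rp 44 (.str 35 (.nv (.thr 17 29 (.thr 32 47 (.dbl 34 33 51))) (.nv (.thr 5 53 (.thr 10 15 (.thr 13 49 (.thr 9 1 (.dbl 8 11 59))))) (.nv (.thr 17 29 (.thr 51 34 (.dbl 49 13 48))) (.rp 56 (.str 11 (.nv (.thr 17 29 (.thr 49 13 (.dbl 51 34 48))) (.nv (.thr 59 8 (.thr 43 27 (.dbl 47 32 39))) .nd))) (.rp 17 (.thr 32 47 (.thr 48 16 (.dbl 49 13 51))) (.rp 11 (.str 56 (.nv (.thr 32 47 (.thr 34 33 (.dbl 17 29 51))) (.nv (.thr 53 5 (.thr 59 8 (.thr 57 58 (.dbl 49 13 61)))) (.nv (.thr 17 29 (.thr 51 34 (.dbl 49 13 48))) .nd)))) .nd))))))) (.rp 35 (.str 44 (.nv (.thr 17 29 (.thr 49 13 (.dbl 51 34 48))) (.nv (.thr 8 59 (.thr 12 4 (.thr 60 28 (.thr 40 20 (.dbl 32 36 47))))) (.nv (.thr 32 47 (.thr 48 16 (.dbl 49 13 51))) (.rp 56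 (.str 11 (.nv (.thr 5 53 (.thr 13 49 (.thr 9 1 (.dbl 8 10 59)))) (.nv (.thr 8 59 (.thr 10 9 (.dbl 5 15 53))) (.nv (.thr 32 47 (.thr 48 16 (.dbl 49 13 51))) .nd)))) (.rp 51 (.thr 29 17 (.thr 13 49 (.thr 45 61 (.dbl 47 32 46)))) (.rp 11 (.str 56 (.nv (.thr 13 49 (.thr 29 17 (.thr 45 61 (.dbl 47 32 46)))) (.nv (.thr 8 59 (.thr 12 4 (.thr 40 24 (.dbl 60 20 28)))) (.nv (.thr 32 47 (.thr 48 16 (.dbl 49 13 51))) .nd)))) .nd))))))) (.rp 11 (.str 56 (.nv (.thr 8 59 (.thr 12 4 (.thr 24 40 (.thr 32 47 (.dbl 48 16 36))))) (.nv (.thr 53 5 (.thr 59 8 (.thr 57 58 (.dbl 49 13 61)))) (.nv (.thr 32 47 (.thr 48 16 (.dbl 49 13 51))) (.rp 44 (.str 35 (.nv (.thr 32 47 (.thr 34 33 (.dbl 17 29 51))) (.nv (.thr 53 5 (.thr 59 8 (.thr 57 58 (.dbl 49 13 61)))) (.nv (.thr 17 29 (.thr 51 34 (.dbl 49 13 48)))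 .nd)))) (.rp 35 (.str 44 (.nv (.thr 13 49 (.thr 29 17 (.thr 45 61 (.dbl 47 32 46)))) (.nv (.thr 8 59 (.thr 12 4 (.thr 40 24 (.dbl 60 20 28)))) (.nv (.thr 32 47 (.thr 48 16 (.dbl 49 13 51))) .nd)))) .nd)))))) .nd)))))))))) (.rp 13 (.thr 17 29 (.thr 51 34 (.thr 32 47 (.thr 16 48 (.thr 19 18 (.thr 22 28 (.thr 2 62 (.dbl 3 1 35)))))))) (.rp 11 (.str 56 (.nv (.thr 8 59 (.thr 12 4 (.thr 24 40 (.thr 32 47 (.dbl 48 16 36))))) (.nv (.thr 32 47 (.thr 48 16 (.thr 17 29 (.thr 51 34 (.dbl 49 13 50))))) (.nv (.thr 49 13 (.thr 59 8 (.thr 57 58 (.dbl 53 5 61)))) (.rp 50 (.str 14 (.nv (.thr 5 53 (.thr 13 49 (.dbl 15 10 12))) (.nv (.thr 5 53 (.thr 8 59 (.thr 4 12 (.thr 6 7 (.dbl 10 2 15))))) (.nv (.thr 49 13 (.thr 53 5 (.thr 57 61 (.dbl 59 8 58)))) (.nv (.thr 8 59 (.thr 12 4 (.dbl 13 15 49)))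 (.rp 44 (.str 35 (.nv (.thr 17 29 (.thr 49 13 (.thr 33 1 (.dbl 32 34 47)))) (.nv (.thr 32 47 (.thr 34 33 (.dbl 17 29 51))) (.nv (.thr 8 59 (.thr 12 4 (.dbl 13 15 49))) .nd)))) (.rp 35 (.str 44 (.nv (.thr 32 47 (.thr 40 36 (.dbl 8 24 59))) (.nv (.thr 29 17 (.thr 47 32 (.thr 45 46 (.dbl 13 49 61)))) (.nv (.thr 8 59 (.thr 12 4 (.dbl 13 15 49))) .nd)))) .nd))))))) (.rp 44 (.str 35 (.nv (.thr 49 13 (.thr 53 5 (.thr 59 8 (.dbl 57 58 61)))) (.nv (.thr 32 47 (.thr 34 33 (.dbl 17 29 51))) (.rp 50 (.str 14 (.nv (.thr 17 29 (.thr 49 13 (.thr 33 1 (.dbl 32 34 47)))) (.nv (.thr 32 47 (.thr 34 33 (.dbl 17 29 51))) (.nv (.thr 8 59 (.thr 12 4 (.dbl 13 15 49))) .nd)))) (.rp 14 (.str 50 (.nv (.thr 32 47 (.thr 34 33 (.dbl 17 29 51))) (.nv (.thr 53 5 (.thr 59 8 (.thr 57 58 (.dbl 49 13 61)))) (.nv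 (.thr 17 29 (.thr 51 34 (.dbl 49 13 48))) .nd)))) .nd))))) (.rp 35 (.str 44 (.nv (.thr 8 59 (.thr 12 4 (.thr 40 24 (.dbl 60 20 28)))) (.nv (.thr 13 49 (.thr 29 17 (.thr 45 61 (.dbl 47 32 46)))) (.nv (.thr 8 59 (.thr 40 24 (.dbl 32 36 47))) (.rp 50 (.str 14 (.nv (.thr 32 47 (.thr 40 36 (.dbl 8 24 59))) (.nv (.thr 29 17 (.thr 47 32 (.thr 45 46 (.dbl 13 49 61)))) (.nv (.thr 8 59 (.thr 12 4 (.dbl 13 15 49))) .nd)))) (.rp 14 (.str 50 (.nv (.thr 13 49 (.thr 29 17 (.thr 45 61 (.dbl 47 32 46)))) (.nv (.thr 8 59 (.thr 12 4 (.thr 40 24 (.dbl 60 20 28)))) (.nv (.thr 32 47 (.thr 48 16 (.dbl 49 13 51))) .nd)))) .nd)))))) (.rp 14 (.str 50 (.nv (.thr 8 59 (.thr 12 4 (.thr 24 40 (.thr 32 47 (.dbl 48 16 36))))) (.nv (.thr 53 5 (.thr 59 8 (.thr 57 58 (.dbl 49 13 61)))) (.nv (.thr 32 47 (.thr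 48 16 (.dbl 49 13 51))) (.rp 44 (.str 35 (.nv (.thr 32 47 (.thr 34 33 (.dbl 17 29 51))) (.nv (.thr 53 5 (.thr 59 8 (.thr 57 58 (.dbl 49 13 61)))) (.nv (.thr 17 29 (.thr 51 34 (.dbl 49 13 48))) .nd)))) (.rp 35 (.str 44 (.nv (.thr 13 49 (.thr 29 17 (.thr 45 61 (.dbl 47 32 46)))) (.nv (.thr 8 59 (.thr 12 4 (.thr 40 24 (.dbl 60 20 28)))) (.nv (.thr 32 47 (.thr 48 16 (.dbl 49 13 51))) .nd)))) .nd)))))) .nd)))))))) .nd))))))))))))) (.rp 56 (.str 11 (.nv (.thr 0 63 (.thr 5 53 (.thr 13 49 (.thr 1 9 (.thr 3 2 (.dbl 15 7 10)))))) (.nv (.thr 0 63 (.thr 5 53 (.thr 10 15 (.dbl 8 9 59)))) (.nv (.thr 5 53 (.thr 8 59 (.thr 9 10 (.dbl 13 1 49)))) (.rp 58 (.thr 13 49 (.thr 5 53 (.thr 9 1 (.dbl 8 10 59)))) (.rp 53 (.thr 17 29 (.thr 49 13 (.thr 33 1 (.thr 0 63 (.thr 34 51 (.dbl 32 35 47)))))) (.rp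 50 (.str 14 (.nv (.thr 0 63 (.thr 5 53 (.thr 8 59 (.dbl 10 9 15)))) (.nv (.thr 5 53 (.thr 8 59 (.thr 9 10 (.dbl 13 1 49)))) (.nv (.thr 47 32 (.thr 63 0 (.thr 15 31 (.dbl 13 12 49)))) (.rp 44 (.str 35 (.nv (.thr 0 63 (.thr 5 53 (.thr 13 49 (.dbl 15 10 12)))) (.nv (.thr 59 8 (.thr 43 27 (.dbl 47 32 39))) .nd))) (.rp 35 (.str 44 (.nv (.thr 29 17 (.thr 47 32 (.thr 46 45 (.dbl 63 0 12)))) (.nv (.thr 8 59 (.thr 9 10 (.thr 5 53 (.dbl 13 1 49)))) .nd))) .nd)))))) (.rp 44 (.str 35 (.nv (.thr 0 63 (.thr 5 53 (.thr 13 49 (.thr 9 1 (.dbl 10 8 15))))) (.nv (.thr 59 8 (.thr 43 27 (.dbl 47 32 39))) (.rp 50 (.str 14 (.nv (.thr 0 63 (.thr 5 53 (.thr 13 49 (.dbl 15 10 12)))) (.nv (.thr 59 8 (.thr 43 27 (.dbl 47 32 39))) .nd))) (.rp 14 (.str 50 (.nv (.thr 0 63 (.thr 17 29 (.thr 49 13 (.dbl 51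 34 48)))) (.nv (.thr 47 32 (.thr 43 39 (.dbl 59 8 27))) .nd))) (.rp 8 (.thr 17 29 (.thr 49 13 (.thr 33 1 (.dbl 32 34 47)))) .nd)))))) (.rp 35 (.str 44 (.nv (.thr 29 17 (.thr 47 32 (.thr 46 45 (.dbl 63 0 12)))) (.nv (.thr 8 59 (.thr 9 10 (.thr 5 53 (.dbl 13 1 49)))) (.rp 50 (.str 14 (.nv (.thr 29 17 (.thr 47 32 (.thr 46 45 (.dbl 63 0 12)))) (.nv (.thr 8 59 (.thr 9 10 (.thr 5 53 (.dbl 13 1 49)))) .nd))) (.rp 14 (.str 50 (.nv (.thr 13 49 (.thr 29 17 (.thr 47 32 (.dbl 45 46 61)))) (.nv (.thr 5 53 (.thr 8 59 (.thr 10 9 (.dbl 0 15 63)))) .nd))) .nd))))) (.rp 14 (.str 50 (.nv (.thr 0 63 (.thr 5 53 (.thr 8 59 (.dbl 10 9 15)))) (.nv (.thr 5 53 (.thr 8 59 (.thr 9 10 (.dbl 13 1 49)))) (.nv (.thr 0 63 (.thr 17 29 (.thr 51 34 (.dbl 49 13 48)))) (.rp 44 (.str 35 (.nv (.thr 0 63 (.thr 17 29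 (.thr 49 13 (.dbl 51 34 48)))) (.nv (.thr 47 32 (.thr 43 39 (.dbl 59 8 27))) .nd))) (.rp 35 (.str 44 (.nv (.thr 13 49 (.thr 29 17 (.thr 47 32 (.dbl 45 46 61)))) (.nv (.thr 5 53 (.thr 8 59 (.thr 10 9 (.dbl 0 15 63)))) .nd))) .nd)))))) (.rp 10 (.thr 17 29 (.thr 49 13 (.thr 33 1 (.thr 0 63 (.thr 34 51 (.dbl 32 35 47)))))) (.rp 9 (.thr 17 29 (.thr 49 13 (.thr 0 63 (.thr 51 34 (.thr 32 47 (.dbl 48 16 50)))))) (.rp 5 (.thr 17 29 (.thr 49 13 (.thr 0 63 (.thr 51 34 (.thr 32 47 (.dbl 48 16 50)))))) .nd))))))))))))) (.rp 50 (.str 14 (.nv (.thr 0 63 (.thr 5 53 (.thr 8 59 (.thr 4 12 (.thr 6 7 (.dbl 10 2 15)))))) (.nv (.thr 0 63 (.thr 5 53 (.thr 15 10 (.dbl 13 12 49)))) (.nv (.thr 8 59 (.thr 0 63 (.thr 12 4 (.dbl 13 15 49)))) (.rp 63 (.thr 5 53 (.thr 13 49 (.thr 9 1 (.thr 15 12 (.thr 10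 0 (.dbl 8 11 59)))))) (.rp 56 (.str 11 (.nv (.thr 0 63 (.thr 5 53 (.thr 8 59 (.dbl 10 9 15)))) (.nv (.thr 5 53 (.thr 8 59 (.thr 9 10 (.dbl 13 1 49)))) (.nv (.thr 47 32 (.thr 63 0 (.thr 15 31 (.dbl 13 12 49)))) (.rp 44 (.str 35 (.nv (.thr 0 63 (.thr 5 53 (.thr 13 49 (.dbl 15 10 12)))) (.nv (.thr 59 8 (.thr 43 27 (.dbl 47 32 39))) .nd))) (.rp 35 (.str 44 (.nv (.thr 29 17 (.thr 47 32 (.thr 46 45 (.dbl 63 0 12)))) (.nv (.thr 8 59 (.thr 9 10 (.thr 5 53 (.dbl 13 1 49)))) .nd))) .nd)))))) (.rp 44 (.str 35 (.nv (.thr 0 63 (.thr 17 29 (.thr 32 47 (.dbl 34 33 51)))) (.nv (.thr 17 29 (.thr 32 47 (.thr 33 34 (.dbl 49 1 13)))) (.nv (.thr 0 63 (.thr 5 53 (.thr 15 10 (.dbl 13 12 49)))) (.rp 56 (.str 11 (.nv (.thr 0 63 (.thr 5 53 (.thr 13 49 (.dbl 15 10 12)))) (.nv (.thr 59 8 (.thr 43 27 (.dbl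 47 32 39))) .nd))) (.rp 11 (.str 56 (.nv (.thr 49 13 (.thr 53 5 (.thr 59 8 (.dbl 57 58 61)))) (.nv (.thr 17 29 (.thr 32 47 (.thr 34 33 (.dbl 0 51 63)))) .nd))) .nd)))))) (.rp 35 (.str 44 (.nv (.thr 29 17 (.thr 47 32 (.thr 46 45 (.dbl 63 0 12)))) (.nv (.thr 29 17 (.thr 47 32 (.thr 45 46 (.dbl 13 49 61)))) (.nv (.thr 8 59 (.thr 0 63 (.thr 12 4 (.dbl 13 15 49)))) (.rp 56 (.str 11 (.nv (.thr 29 17 (.thr 47 32 (.thr 46 45 (.dbl 63 0 12)))) (.nv (.thr 8 59 (.thr 9 10 (.thr 5 53 (.dbl 13 1 49)))) .nd))) (.rp 11 (.str 56 (.nv (.thr 0 63 (.thr 5 53 (.thr 13 49 (.dbl 15 10 12)))) (.nv (.thr 32 47 (.thr 40 36 (.dbl 8 24 59))) .nd))) .nd)))))) (.rp 15 (.thr 13 49 (.thr 29 17 (.thr 61 45 (.thr 63 0 (.thr 46 12 (.dbl 62 30 60)))))) (.rp 12 (.thr 53 5 (.thr 49 13 (.thr 57 61 (.thr 63 0 (.thr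 58 48 (.dbl 59 8 56)))))) (.rp 11 (.str 56 (.nv (.thr 53 5 (.thr 59 8 (.thr 58 57 (.dbl 63 0 48)))) (.nv (.thr 53 5 (.thr 49 13 (.thr 57 61 (.dbl 59 8 58)))) (.nv (.thr 13 49 (.thr 15 12 (.thr 47 32 (.dbl 63 0 31)))) (.rp 44 (.str 35 (.nv (.thr 49 13 (.thr 53 5 (.thr 59 8 (.dbl 57 58 61)))) (.nv (.thr 17 29 (.thr 32 47 (.thr 34 33 (.dbl 0 51 63)))) .nd))) (.rp 35 (.str 44 (.nv (.thr 0 63 (.thr 5 53 (.thr 13 49 (.dbl 15 10 12)))) (.nv (.thr 32 47 (.thr 40 36 (.dbl 8 24 59))) .nd))) .nd)))))) (.rp 0 (.thr 13 49 (.thr 29 17 (.thr 45 61 (.thr 47 32 (.thr 12 15 (.dbl 46 44 63)))))) .nd)))))))))))) (.rp 49 (.thr 29 17 (.thr 63 0 (.thr 12 46 (.thr 47 32 (.thr 31 15 (.thr 28 30 (.thr 22 19 (.thr 62 2 (.dbl 60 44 61))))))))) (.rp 44 (.str 35 (.nv (.thr 0 63 (.thr 17 29 (.thr 32 47 (.dbl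 34 33 51)))) (.nv (.thr 0 63 (.thr 5 53 (.thr 8 59 (.thr 12 4 (.thr 13 49 (.dbl 15 10 14)))))) (.nv (.thr 17 29 (.thr 32 47 (.thr 33 34 (.dbl 49 1 13)))) (.rp 56 (.str 11 (.nv (.thr 0 63 (.thr 5 53 (.thr 13 49 (.thr 9 1 (.dbl 10 8 15))))) (.nv (.thr 59 8 (.thr 43 27 (.dbl 47 32 39))) (.rp 50 (.str 14 (.nv (.thr 0 63 (.thr 5 53 (.thr 13 49 (.dbl 15 10 12)))) (.nv (.thr 59 8 (.thr 43 27 (.dbl 47 32 39))) .nd))) (.rp 14 (.str 50 (.nv (.thr 0 63 (.thr 17 29 (.thr 49 13 (.dbl 51 34 48)))) (.nv (.thr 47 32 (.thr 43 39 (.dbl 59 8 27))) .nd))) (.rp 8 (.thr 17 29 (.thr 49 13 (.thr 33 1 (.dbl 32 34 47)))) .nd)))))) (.rp 50 (.str 14 (.nv (.thr 0 63 (.thr 17 29 (.thr 32 47 (.dbl 34 33 51)))) (.nv (.thr 17 29 (.thr 32 47 (.thr 33 34 (.dbl 49 1 13)))) (.nv (.thr 0 63 (.thr 5 53 (.thr 15 10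 (.dbl 13 12 49)))) (.rp 56 (.str 11 (.nv (.thr 0 63 (.thr 5 53 (.thr 13 49 (.dbl 15 10 12)))) (.nv (.thr 59 8 (.thr 43 27 (.dbl 47 32 39))) .nd))) (.rp 11 (.str 56 (.nv (.thr 49 13 (.thr 53 5 (.thr 59 8 (.dbl 57 58 61)))) (.nv (.thr 17 29 (.thr 32 47 (.thr 34 33 (.dbl 0 51 63)))) .nd))) .nd)))))) (.rp 14 (.str 50 (.nv (.thr 0 63 (.thr 17 29 (.thr 32 47 (.dbl 34 33 51)))) (.nv (.thr 17 29 (.thr 32 47 (.thr 33 34 (.dbl 49 1 13)))) (.nv (.thr 59 8 (.thr 63 0 (.thr 51 55 (.dbl 49 13 48)))) (.rp 56 (.str 11 (.nv (.thr 0 63 (.thr 17 29 (.thr 49 13 (.dbl 51 34 48)))) (.nv (.thr 47 32 (.thr 43 39 (.dbl 59 8 27))) .nd))) (.rp 11 (.str 56 (.nv (.thr 53 5 (.thr 59 8 (.thr 58 57 (.dbl 63 0 48)))) (.nv (.thr 32 47 (.thr 33 34 (.thr 17 29 (.dbl 49 1 13)))) .nd))) .nd)))))) (.rp 11 (.str 56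 (.nv (.thr 53 5 (.thr 59 8 (.thr 58 57 (.dbl 63 0 48)))) (.nv (.thr 32 47 (.thr 33 34 (.thr 17 29 (.dbl 49 1 13)))) (.rp 50 (.str 14 (.nv (.thr 49 13 (.thr 53 5 (.thr 59 8 (.dbl 57 58 61)))) (.nv (.thr 17 29 (.thr 32 47 (.thr 34 33 (.dbl 0 51 63)))) .nd))) (.rp 14 (.str 50 (.nv (.thr 53 5 (.thr 59 8 (.thr 58 57 (.dbl 63 0 48)))) (.nv (.thr 32 47 (.thr 33 34 (.thr 17 29 (.dbl 49 1 13)))) .nd))) .nd))))) .nd)))))))) (.rp 35 (.str 44 (.nv (.thr 29 17 (.thr 47 32 (.thr 46 45 (.dbl 63 0 12)))) (.nv (.thr 0 63 (.thr 5 53 (.thr 8 59 (.thr 12 4 (.thr 15 10 (.dbl 13 14 49)))))) (.nv (.thr 29 17 (.thr 47 32 (.thr 45 46 (.dbl 13 49 61)))) (.rp 56 (.str 11 (.nv (.thr 29 17 (.thr 47 32 (.thr 46 45 (.dbl 63 0 12)))) (.nv (.thr 8 59 (.thr 9 10 (.thr 5 53 (.dbl 13 1 49)))) (.rp 50 (.str 14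 (.nv (.thr 29 17 (.thr 47 32 (.thr 46 45 (.dbl 63 0 12)))) (.nv (.thr 8 59 (.thr 9 10 (.thr 5 53 (.dbl 13 1 49)))) .nd))) (.rp 14 (.str 50 (.nv (.thr 13 49 (.thr 29 17 (.thr 47 32 (.dbl 45 46 61)))) (.nv (.thr 5 53 (.thr 8 59 (.thr 10 9 (.dbl 0 15 63)))) .nd))) .nd))))) (.rp 50 (.str 14 (.nv (.thr 29 17 (.thr 47 32 (.thr 46 45 (.dbl 63 0 12)))) (.nv (.thr 29 17 (.thr 47 32 (.thr 45 46 (.dbl 13 49 61)))) (.nv (.thr 8 59 (.thr 0 63 (.thr 12 4 (.dbl 13 15 49)))) (.rp 56 (.str 11 (.nv (.thr 29 17 (.thr 47 32 (.thr 46 45 (.dbl 63 0 12)))) (.nv (.thr 8 59 (.thr 9 10 (.thr 5 53 (.dbl 13 1 49)))) .nd))) (.rp 11 (.str 56 (.nv (.thr 0 63 (.thr 5 53 (.thr 13 49 (.dbl 15 10 12)))) (.nv (.thr 32 47 (.thr 40 36 (.dbl 8 24 59))) .nd))) .nd)))))) (.rp 14 (.str 50 (.nv (.thr 29 17 (.thr 13 49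 (.thr 45 61 (.dbl 47 32 46)))) (.nv (.thr 53 5 (.thr 63 0 (.thr 48 58 (.dbl 49 13 51)))) (.nv (.thr 29 17 (.thr 47 32 (.thr 46 45 (.dbl 63 0 12)))) (.rp 56 (.str 11 (.nv (.thr 13 49 (.thr 29 17 (.thr 47 32 (.dbl 45 46 61)))) (.nv (.thr 5 53 (.thr 8 59 (.thr 10 9 (.dbl 0 15 63)))) .nd))) (.rp 11 (.str 56 (.nv (.thr 0 63 (.thr 17 29 (.thr 49 13 (.dbl 51 34 48)))) (.nv (.thr 8 59 (.thr 40 24 (.dbl 32 36 47))) .nd))) .nd)))))) (.rp 11 (.str 56 (.nv (.thr 49 13 (.thr 53 5 (.thr 57 61 (.dbl 59 8 58)))) (.nv (.thr 13 49 (.thr 29 17 (.thr 45 61 (.dbl 47 32 46)))) (.nv (.thr 8 59 (.thr 40 24 (.dbl 32 36 47))) (.rp 50 (.str 14 (.nv (.thr 0 63 (.thr 5 53 (.thr 13 49 (.dbl 15 10 12)))) (.nv (.thr 32 47 (.thr 40 36 (.dbl 8 24 59))) .nd))) (.rp 14 (.str 50 (.nv (.thr 0 63 (.thr 17 29 (.thr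 49 13 (.dbl 51 34 48)))) (.nv (.thr 8 59 (.thr 40 24 (.dbl 32 36 47))) .nd))) .nd)))))) .nd)))))))) (.rp 14 (.str 50 (.nv (.thr 0 63 (.thr 17 29 (.thr 32 47 (.thr 16 48 (.thr 18 19 (.dbl 34 2 51)))))) (.nv (.thr 0 63 (.thr 17 29 (.thr 51 34 (.dbl 49 13 48)))) (.nv (.thr 32 47 (.thr 0 63 (.thr 48 16 (.dbl 49 13 51)))) (.rp 63 (.thr 17 29 (.thr 49 13 (.thr 33 1 (.thr 51 48 (.thr 34 0 (.dbl 32 35 47)))))) (.rp 56 (.str 11 (.nv (.thr 0 63 (.thr 5 53 (.thr 8 59 (.dbl 10 9 15)))) (.nv (.thr 5 53 (.thr 8 59 (.thr 9 10 (.dbl 13 1 49)))) (.nv (.thr 0 63 (.thr 17 29 (.thr 51 34 (.dbl 49 13 48)))) (.rp 44 (.str 35 (.nv (.thr 0 63 (.thr 17 29 (.thr 49 13 (.dbl 51 34 48)))) (.nv (.thr 47 32 (.thr 43 39 (.dbl 59 8 27))) .nd))) (.rp 35 (.str 44 (.nv (.thr 13 49 (.thr 29 17 (.thr 47 32 (.dbl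 45 46 61)))) (.nv (.thr 5 53 (.thr 8 59 (.thr 10 9 (.dbl 0 15 63)))) .nd))) .nd)))))) (.rp 51 (.thr 49 13 (.thr 53 5 (.thr 61 57 (.thr 63 0 (.thr 58 48 (.dbl 62 54 60)))))) (.rp 48 (.thr 29 17 (.thr 13 49 (.thr 45 61 (.thr 63 0 (.thr 46 12 (.dbl 47 32 44)))))) (.rp 44 (.str 35 (.nv (.thr 0 63 (.thr 17 29 (.thr 32 47 (.dbl 34 33 51)))) (.nv (.thr 17 29 (.thr 32 47 (.thr 33 34 (.dbl 49 1 13)))) (.nv (.thr 59 8 (.thr 63 0 (.thr 51 55 (.dbl 49 13 48)))) (.rp 56 (.str 11 (.nv (.thr 0 63 (.thr 17 29 (.thr 49 13 (.dbl 51 34 48)))) (.nv (.thr 47 32 (.thr 43 39 (.dbl 59 8 27))) .nd))) (.rp 11 (.str 56 (.nv (.thr 53 5 (.thr 59 8 (.thr 58 57 (.dbl 63 0 48)))) (.nv (.thr 32 47 (.thr 33 34 (.thr 17 29 (.dbl 49 1 13)))) .nd))) .nd)))))) (.rp 35 (.str 44 (.nv (.thr 29 17 (.thr 13 49 (.thr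 45 61 (.dbl 47 32 46)))) (.nv (.thr 53 5 (.thr 63 0 (.thr 48 58 (.dbl 49 13 51)))) (.nv (.thr 29 17 (.thr 47 32 (.thr 46 45 (.dbl 63 0 12)))) (.rp 56 (.str 11 (.nv (.thr 13 49 (.thr 29 17 (.thr 47 32 (.dbl 45 46 61)))) (.nv (.thr 5 53 (.thr 8 59 (.thr 10 9 (.dbl 0 15 63)))) .nd))) (.rp 11 (.str 56 (.nv (.thr 0 63 (.thr 17 29 (.thr 49 13 (.dbl 51 34 48)))) (.nv (.thr 8 59 (.thr 40 24 (.dbl 32 36 47))) .nd))) .nd)))))) (.rp 11 (.str 56 (.nv (.thr 53 5 (.thr 59 8 (.thr 58 57 (.dbl 63 0 48)))) (.nv (.thr 53 5 (.thr 59 8 (.thr 57 58 (.dbl 49 13 61)))) (.nv (.thr 32 47 (.thr 0 63 (.thr 48 16 (.dbl 49 13 51)))) (.rp 44 (.str 35 (.nv (.thr 53 5 (.thr 59 8 (.thr 58 57 (.dbl 63 0 48)))) (.nv (.thr 32 47 (.thr 33 34 (.thr 17 29 (.dbl 49 1 13)))) .nd))) (.rp 35 (.str 44 (.nv (.thr 0 63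 (.thr 17 29 (.thr 49 13 (.dbl 51 34 48)))) (.nv (.thr 8 59 (.thr 40 24 (.dbl 32 36 47))) .nd))) .nd)))))) (.rp 0 (.thr 49 13 (.thr 53 5 (.thr 57 61 (.thr 59 8 (.thr 48 51 (.dbl 58 56 63)))))) .nd)))))))))))) (.rp 13 (.thr 29 17 (.thr 63 0 (.thr 12 46 (.thr 47 32 (.thr 31 15 (.thr 28 30 (.thr 22 19 (.thr 62 2 (.dbl 60 44 61))))))))) (.rp 11 (.str 56 (.nv (.thr 53 5 (.thr 59 8 (.thr 58 57 (.dbl 63 0 48)))) (.nv (.thr 0 63 (.thr 17 29 (.thr 32 47 (.thr 48 16 (.thr 51 34 (.dbl 49 13 50)))))) (.nv (.thr 49 13 (.thr 59 8 (.thr 57 58 (.dbl 53 5 61)))) (.rp 50 (.str 14 (.nv (.thr 53 5 (.thr 59 8 (.thr 58 57 (.dbl 63 0 48)))) (.nv (.thr 53 5 (.thr 49 13 (.thr 57 61 (.dbl 59 8 58)))) (.nv (.thr 13 49 (.thr 15 12 (.thr 47 32 (.dbl 63 0 31)))) (.rp 44 (.str 35 (.nv (.thr 49 13 (.thr 53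 5 (.thr 59 8 (.dbl 57 58 61)))) (.nv (.thr 17 29 (.thr 32 47 (.thr 34 33 (.dbl 0 51 63)))) .nd))) (.rp 35 (.str 44 (.nv (.thr 0 63 (.thr 5 53 (.thr 13 49 (.dbl 15 10 12)))) (.nv (.thr 32 47 (.thr 40 36 (.dbl 8 24 59))) .nd))) .nd)))))) (.rp 44 (.str 35 (.nv (.thr 53 5 (.thr 59 8 (.thr 58 57 (.dbl 63 0 48)))) (.nv (.thr 32 47 (.thr 33 34 (.thr 17 29 (.dbl 49 1 13)))) (.rp 50 (.str 14 (.nv (.thr 49 13 (.thr 53 5 (.thr 59 8 (.dbl 57 58 61)))) (.nv (.thr 17 29 (.thr 32 47 (.thr 34 33 (.dbl 0 51 63)))) .nd))) (.rp 14 (.str 50 (.nv (.thr 53 5 (.thr 59 8 (.thr 58 57 (.dbl 63 0 48)))) (.nv (.thr 32 47 (.thr 33 34 (.thr 17 29 (.dbl 49 1 13)))) .nd))) .nd))))) (.rp 35 (.str 44 (.nv (.thr 49 13 (.thr 53 5 (.thr 57 61 (.dbl 59 8 58)))) (.nv (.thr 13 49 (.thr 29 17 (.thr 45 61 (.dbl 47 32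 46)))) (.nv (.thr 8 59 (.thr 40 24 (.dbl 32 36 47))) (.rp 50 (.str 14 (.nv (.thr 0 63 (.thr 5 53 (.thr 13 49 (.dbl 15 10 12)))) (.nv (.thr 32 47 (.thr 40 36 (.dbl 8 24 59))) .nd))) (.rp 14 (.str 50 (.nv (.thr 0 63 (.thr 17 29 (.thr 49 13 (.dbl 51 34 48)))) (.nv (.thr 8 59 (.thr 40 24 (.dbl 32 36 47))) .nd))) .nd)))))) (.rp 14 (.str 50 (.nv (.thr 53 5 (.thr 59 8 (.thr 58 57 (.dbl 63 0 48)))) (.nv (.thr 53 5 (.thr 59 8 (.thr 57 58 (.dbl 49 13 61)))) (.nv (.thr 32 47 (.thr 0 63 (.thr 48 16 (.dbl 49 13 51)))) (.rp 44 (.str 35 (.nv (.thr 53 5 (.thr 59 8 (.thr 58 57 (.dbl 63 0 48)))) (.nv (.thr 32 47 (.thr 33 34 (.thr 17 29 (.dbl 49 1 13)))) .nd))) (.rp 35 (.str 44 (.nv (.thr 0 63 (.thr 17 29 (.thr 49 13 (.dbl 51 34 48)))) (.nv (.thr 8 59 (.thr 40 24 (.dbl 32 36 47))) .nd))) .nd))))))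 .nd)))))))) (.rp 0 (.str 63 (.nv (.thr 49 13 (.thr 53 5 (.thr 57 61 (.thr 58 48 (.dbl 59 8 56))))) (.nv (.thr 13 49 (.thr 29 17 (.thr 45 61 (.thr 46 12 (.dbl 47 32 44))))) (.nv (.thr 49 13 (.thr 53 5 (.thr 48 58 (.thr 59 8 (.dbl 51 50 55))))) (.nv (.thr 47 32 (.thr 15 31 (.thr 29 17 (.thr 12 46 (.dbl 13 14 49))))) (.rp 56 (.str 11 (.nv (.thr 47 32 (.thr 15 31 (.thr 3 7 (.thr 43 23 (.dbl 59 8 27))))) (.nv (.thr 47 32 (.thr 15 31 (.thr 29 17 (.thr 12 46 (.dbl 13 14 49))))) (.nv (.thr 5 53 (.thr 8 59 (.thr 9 10 (.dbl 13 1 49)))) (.rp 50 (.str 14 (.nv (.thr 5 53 (.thr 8 59 (.thr 9 10 (.dbl 13 1 49)))) (.nv (.thr 47 32 (.thr 15 31 (.dbl 13 12 49))) (.rp 49 (.thr 29 17 (.thr 12 46 (.thr 15 13 (.dbl 47 31 32)))) (.rp 44 (.str 35 (.nv (.thr 47 32 (.thr 43 39 (.dbl 59 8 27))) (.nv (.thr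 5 53 (.thr 8 59 (.thr 9 10 (.dbl 13 1 49)))) (.nv (.thr 47 32 (.thr 15 31 (.dbl 13 12 49))) .nd)))) (.rp 35 (.str 44 (.nv (.thr 47 32 (.thr 46 45 (.dbl 29 12 17))) (.nv (.thr 5 53 (.thr 8 59 (.thr 9 10 (.dbl 13 1 49)))) (.nv (.thr 29 17 (.thr 12 46 (.dbl 13 15 49))) .nd)))) (.rp 13 (.thr 29 17 (.thr 46 12 (.thr 30 62 (.thr 47 32 (.dbl 31 15 28))))) .nd))))))) (.rp 44 (.str 35 (.nv (.thr 17 29 (.thr 32 47 (.thr 33 34 (.dbl 49 1 13)))) (.nv (.thr 5 53 (.thr 8 59 (.thr 9 10 (.dbl 13 1 49)))) (.nv (.thr 59 8 (.thr 43 27 (.dbl 47 32 39))) (.rp 50 (.str 14 (.nv (.thr 47 32 (.thr 43 39 (.dbl 59 8 27))) (.nv (.thr 5 53 (.thr 8 59 (.thr 9 10 (.dbl 13 1 49)))) (.nv (.thr 47 32 (.thr 15 31 (.dbl 13 12 49))) .nd)))) (.rp 14 (.str 50 (.nv (.thr 47 32 (.thr 43 39 (.dbl 59 8 27))) (.nv (.thr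 17 29 (.thr 32 47 (.thr 33 34 (.dbl 49 1 13)))) (.nv (.thr 59 8 (.thr 51 55 (.dbl 49 13 48))) .nd)))) .nd)))))) (.rp 35 (.str 44 (.nv (.thr 5 53 (.thr 8 59 (.thr 9 10 (.dbl 13 1 49)))) (.nv (.thr 47 32 (.thr 46 45 (.dbl 29 12 17))) (.rp 50 (.str 14 (.nv (.thr 47 32 (.thr 46 45 (.dbl 29 12 17))) (.nv (.thr 5 53 (.thr 8 59 (.thr 9 10 (.dbl 13 1 49)))) (.nv (.thr 29 17 (.thr 12 46 (.dbl 13 15 49))) .nd)))) (.rp 14 (.str 50 (.nv (.thr 5 53 (.thr 8 59 (.thr 9 10 (.dbl 13 1 49)))) (.nv (.thr 47 32 (.thr 46 45 (.dbl 29 12 17))) (.nv (.thr 59 8 (.thr 51 55 (.dbl 49 13 48))) .nd)))) .nd))))) (.rp 14 (.str 50 (.nv (.thr 49 13 (.thr 48 51 (.dbl 53 5 58))) (.nv (.thr 5 53 (.thr 8 59 (.thr 9 10 (.dbl 13 1 49)))) (.nv (.thr 59 8 (.thr 51 55 (.dbl 49 13 48))) (.rp 49 (.thr 53 5 (.thr 58 48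 (.thr 54 62 (.thr 59 8 (.dbl 55 51 52))))) (.rp 44 (.str 35 (.nv (.thr 47 32 (.thr 43 39 (.dbl 59 8 27))) (.nv (.thr 17 29 (.thr 32 47 (.thr 33 34 (.dbl 49 1 13)))) (.nv (.thr 59 8 (.thr 51 55 (.dbl 49 13 48))) .nd)))) (.rp 35 (.str 44 (.nv (.thr 5 53 (.thr 8 59 (.thr 9 10 (.dbl 13 1 49)))) (.nv (.thr 47 32 (.thr 46 45 (.dbl 29 12 17))) (.nv (.thr 59 8 (.thr 51 55 (.dbl 49 13 48))) .nd)))) (.rp 13 (.thr 53 5 (.thr 48 58 (.thr 51 49 (.dbl 59 8 55)))) .nd)))))))) .nd)))))))) (.rp 50 (.str 14 (.nv (.thr 29 17 (.thr 12 46 (.dbl 13 15 49))) (.nv (.thr 47 32 (.thr 15 31 (.dbl 13 12 49))) (.rp 56 (.str 11 (.nv (.thr 5 53 (.thr 8 59 (.thr 9 10 (.dbl 13 1 49)))) (.nv (.thr 47 32 (.thr 15 31 (.dbl 13 12 49))) (.rp 49 (.thr 29 17 (.thr 12 46 (.thr 15 13 (.dbl 47 31 32)))) (.rp 44 (.str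 35 (.nv (.thr 47 32 (.thr 43 39 (.dbl 59 8 27))) (.nv (.thr 5 53 (.thr 8 59 (.thr 9 10 (.dbl 13 1 49)))) (.nv (.thr 47 32 (.thr 15 31 (.dbl 13 12 49))) .nd)))) (.rp 35 (.str 44 (.nv (.thr 47 32 (.thr 46 45 (.dbl 29 12 17))) (.nv (.thr 5 53 (.thr 8 59 (.thr 9 10 (.dbl 13 1 49)))) (.nv (.thr 29 17 (.thr 12 46 (.dbl 13 15 49))) .nd)))) (.rp 13 (.thr 29 17 (.thr 46 12 (.thr 30 62 (.thr 47 32 (.dbl 31 15 28))))) .nd))))))) (.rp 49 (.thr 29 17 (.thr 12 46 (.thr 15 13 (.dbl 47 31 32)))) (.rp 44 (.str 35 (.nv (.thr 29 17 (.thr 13 49 (.dbl 12 15 46))) (.nv (.thr 17 29 (.thr 32 47 (.thr 33 34 (.dbl 49 1 13)))) (.nv (.thr 47 32 (.thr 15 31 (.dbl 13 12 49))) (.rp 56 (.str 11 (.nv (.thr 47 32 (.thr 43 39 (.dbl 59 8 27))) (.nv (.thr 5 53 (.thr 8 59 (.thr 9 10 (.dbl 13 1 49)))) (.nv (.thr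 47 32 (.thr 15 31 (.dbl 13 12 49))) .nd)))) (.rp 49 (.thr 29 17 (.thr 12 46 (.thr 15 13 (.dbl 47 31 32)))) (.rp 13 (.thr 29 17 (.thr 46 12 (.thr 30 62 (.thr 47 32 (.dbl 31 15 28))))) (.rp 11 (.str 56 (.nv (.thr 17 29 (.thr 32 47 (.thr 33 34 (.dbl 49 1 13)))) (.nv (.thr 59 8 (.thr 58 57 (.dbl 53 5 48))) (.nv (.thr 47 32 (.thr 15 31 (.dbl 13 12 49))) .nd)))) .nd)))))))) (.rp 35 (.str 44 (.nv (.thr 47 32 (.thr 46 45 (.dbl 29 12 17))) (.nv (.thr 13 49 (.thr 15 12 (.dbl 47 31 32))) (.nv (.thr 29 17 (.thr 12 46 (.dbl 13 15 49))) (.rp 56 (.str 11 (.nv (.thr 47 32 (.thr 46 45 (.dbl 29 12 17))) (.nv (.thr 5 53 (.thr 8 59 (.thr 9 10 (.dbl 13 1 49)))) (.nv (.thr 29 17 (.thr 12 46 (.dbl 13 15 49))) .nd)))) (.rp 12 (.thr 47 32 (.thr 45 46 (.thr 13 49 (.dbl 29 17 61)))) (.rp 11 (.str 56 (.nv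 (.thr 13 49 (.thr 12 15 (.dbl 29 17 46))) (.nv (.thr 8 59 (.thr 40 24 (.dbl 32 36 47))) .nd))) .nd))))))) (.rp 15 (.thr 29 17 (.thr 13 49 (.thr 45 61 (.thr 46 12 (.dbl 47 32 44))))) (.rp 13 (.thr 29 17 (.thr 46 12 (.thr 30 62 (.thr 47 32 (.dbl 31 15 28))))) (.rp 12 (.thr 49 13 (.thr 53 5 (.thr 57 61 (.thr 58 48 (.dbl 59 8 56))))) (.rp 11 (.str 56 (.nv (.thr 59 8 (.thr 58 57 (.dbl 53 5 48))) (.nv (.thr 29 17 (.thr 12 46 (.dbl 13 15 49))) (.rp 44 (.str 35 (.nv (.thr 17 29 (.thr 32 47 (.thr 33 34 (.dbl 49 1 13)))) (.nv (.thr 59 8 (.thr 58 57 (.dbl 53 5 48))) (.nv (.thr 47 32 (.thr 15 31 (.dbl 13 12 49))) .nd)))) (.rp 35 (.str 44 (.nv (.thr 13 49 (.thr 12 15 (.dbl 29 17 46))) (.nv (.thr 8 59 (.thr 40 24 (.dbl 32 36 47))) .nd))) (.rp 12 (.thr 53 5 (.thr 58 48 (.dbl 59 8 57))) .nd))))))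 .nd))))))))))) (.rp 49 (.thr 29 17 (.thr 12 46 (.thr 47 32 (.thr 31 15 (.thr 28 30 (.thr 22 19 (.thr 62 2 (.dbl 60 44 61)))))))) (.rp 44 (.str 35 (.nv (.thr 47 32 (.thr 15 31 (.thr 39 43 (.thr 51 27 (.dbl 59 8 55))))) (.nv (.thr 59 8 (.thr 51 55 (.thr 53 5 (.thr 48 58 (.dbl 49 13 50))))) (.nv (.thr 17 29 (.thr 32 47 (.thr 33 34 (.dbl 49 1 13)))) (.rp 56 (.str 11 (.nv (.thr 17 29 (.thr 32 47 (.thr 33 34 (.dbl 49 1 13)))) (.nv (.thr 5 53 (.thr 8 59 (.thr 9 10 (.dbl 13 1 49)))) (.nv (.thr 59 8 (.thr 43 27 (.dbl 47 32 39))) (.rp 50 (.str 14 (.nv (.thr 47 32 (.thr 43 39 (.dbl 59 8 27))) (.nv (.thr 5 53 (.thr 8 59 (.thr 9 10 (.dbl 13 1 49)))) (.nv (.thr 47 32 (.thr 15 31 (.dbl 13 12 49))) .nd)))) (.rp 14 (.str 50 (.nv (.thr 47 32 (.thr 43 39 (.dbl 59 8 27))) (.nv (.thr 17 29 (.thr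 32 47 (.thr 33 34 (.dbl 49 1 13)))) (.nv (.thr 59 8 (.thr 51 55 (.dbl 49 13 48))) .nd)))) .nd)))))) (.rp 50 (.str 14 (.nv (.thr 29 17 (.thr 13 49 (.dbl 12 15 46))) (.nv (.thr 17 29 (.thr 32 47 (.thr 33 34 (.dbl 49 1 13)))) (.nv (.thr 47 32 (.thr 15 31 (.dbl 13 12 49))) (.rp 56 (.str 11 (.nv (.thr 47 32 (.thr 43 39 (.dbl 59 8 27))) (.nv (.thr 5 53 (.thr 8 59 (.thr 9 10 (.dbl 13 1 49)))) (.nv (.thr 47 32 (.thr 15 31 (.dbl 13 12 49))) .nd)))) (.rp 49 (.thr 29 17 (.thr 12 46 (.thr 15 13 (.dbl 47 31 32)))) (.rp 13 (.thr 29 17 (.thr 46 12 (.thr 30 62 (.thr 47 32 (.dbl 31 15 28))))) (.rp 11 (.str 56 (.nv (.thr 17 29 (.thr 32 47 (.thr 33 34 (.dbl 49 1 13)))) (.nv (.thr 59 8 (.thr 58 57 (.dbl 53 5 48))) (.nv (.thr 47 32 (.thr 15 31 (.dbl 13 12 49))) .nd)))) .nd)))))))) (.rp 14 (.str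 50 (.nv (.thr 17 29 (.thr 32 47 (.thr 33 34 (.dbl 49 1 13)))) (.nv (.thr 59 8 (.thr 51 55 (.dbl 49 13 48))) (.rp 56 (.str 11 (.nv (.thr 47 32 (.thr 43 39 (.dbl 59 8 27))) (.nv (.thr 17 29 (.thr 32 47 (.thr 33 34 (.dbl 49 1 13)))) (.nv (.thr 59 8 (.thr 51 55 (.dbl 49 13 48))) .nd)))) (.rp 49 (.thr 53 5 (.thr 58 48 (.thr 54 62 (.thr 59 8 (.dbl 55 51 52))))) (.rp 13 (.thr 53 5 (.thr 48 58 (.thr 51 49 (.dbl 59 8 55)))) (.rp 11 (.str 56 (.nv (.thr 59 8 (.thr 58 57 (.dbl 53 5 48))) (.nv (.thr 17 29 (.thr 32 47 (.thr 33 34 (.dbl 49 1 13)))) (.nv (.thr 53 5 (.thr 48 58 (.dbl 49 13 51))) .nd)))) .nd))))))) (.rp 11 (.str 56 (.nv (.thr 17 29 (.thr 32 47 (.thr 33 34 (.dbl 49 1 13)))) (.nv (.thr 59 8 (.thr 58 57 (.dbl 53 5 48))) (.rp 50 (.str 14 (.nv (.thr 17 29 (.thr 32 47 (.thr 33 34 (.dbl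 49 1 13)))) (.nv (.thr 59 8 (.thr 58 57 (.dbl 53 5 48))) (.nv (.thr 47 32 (.thr 15 31 (.dbl 13 12 49))) .nd)))) (.rp 14 (.str 50 (.nv (.thr 59 8 (.thr 58 57 (.dbl 53 5 48))) (.nv (.thr 17 29 (.thr 32 47 (.thr 33 34 (.dbl 49 1 13)))) (.nv (.thr 53 5 (.thr 48 58 (.dbl 49 13 51))) .nd)))) .nd))))) .nd)))))))) (.rp 35 (.str 44 (.nv (.thr 29 17 (.thr 12 46 (.thr 60 28 (.thr 61 62 (.dbl 13 45 49))))) (.nv (.thr 47 32 (.thr 46 45 (.dbl 29 12 17))) (.rp 56 (.str 11 (.nv (.thr 5 53 (.thr 8 59 (.thr 9 10 (.dbl 13 1 49)))) (.nv (.thr 47 32 (.thr 46 45 (.dbl 29 12 17))) (.rp 50 (.str 14 (.nv (.thr 47 32 (.thr 46 45 (.dbl 29 12 17))) (.nv (.thr 5 53 (.thr 8 59 (.thr 9 10 (.dbl 13 1 49)))) (.nv (.thr 29 17 (.thr 12 46 (.dbl 13 15 49))) .nd)))) (.rp 14 (.str 50 (.nv (.thr 5 53 (.thr 8 59 (.thr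 9 10 (.dbl 13 1 49)))) (.nv (.thr 47 32 (.thr 46 45 (.dbl 29 12 17))) (.nv (.thr 59 8 (.thr 51 55 (.dbl 49 13 48))) .nd)))) .nd))))) (.rp 50 (.str 14 (.nv (.thr 47 32 (.thr 46 45 (.dbl 29 12 17))) (.nv (.thr 13 49 (.thr 15 12 (.dbl 47 31 32))) (.nv (.thr 29 17 (.thr 12 46 (.dbl 13 15 49))) (.rp 56 (.str 11 (.nv (.thr 47 32 (.thr 46 45 (.dbl 29 12 17))) (.nv (.thr 5 53 (.thr 8 59 (.thr 9 10 (.dbl 13 1 49)))) (.nv (.thr 29 17 (.thr 12 46 (.dbl 13 15 49))) .nd)))) (.rp 12 (.thr 47 32 (.thr 45 46 (.thr 13 49 (.dbl 29 17 61)))) (.rp 11 (.str 56 (.nv (.thr 13 49 (.thr 12 15 (.dbl 29 17 46))) (.nv (.thr 8 59 (.thr 40 24 (.dbl 32 36 47))) .nd))) .nd))))))) (.rp 46 (.thr 59 8 (.thr 53 5 (.thr 58 48 (.thr 49 13 (.dbl 57 56 61))))) (.rp 45 (.thr 59 8 (.thr 53 5 (.thr 58 48 (.thr 49 13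 (.dbl 57 56 61))))) (.rp 34 (.thr 59 8 (.thr 53 5 (.thr 58 48 (.thr 49 13 (.dbl 57 56 61))))) (.rp 29 (.thr 59 8 (.thr 53 5 (.thr 58 48 (.thr 49 13 (.dbl 57 56 61))))) (.rp 17 (.thr 59 8 (.thr 53 5 (.thr 58 48 (.thr 49 13 (.dbl 57 56 61))))) (.rp 14 (.str 50 (.nv (.thr 47 32 (.thr 46 45 (.dbl 29 12 17))) (.nv (.thr 53 5 (.thr 48 58 (.dbl 49 13 51))) (.rp 56 (.str 11 (.nv (.thr 5 53 (.thr 8 59 (.thr 9 10 (.dbl 13 1 49)))) (.nv (.thr 47 32 (.thr 46 45 (.dbl 29 12 17))) (.nv (.thr 59 8 (.thr 51 55 (.dbl 49 13 48))) .nd)))) (.rp 48 (.thr 29 17 (.thr 46 12 (.dbl 47 32 45))) (.rp 11 (.str 56 (.nv (.thr 49 13 (.thr 48 51 (.dbl 53 5 58))) (.nv (.thr 32 47 (.thr 40 36 (.dbl 8 24 59))) .nd))) .nd)))))) (.rp 12 (.thr 47 32 (.thr 45 46 (.thr 13 49 (.dbl 29 17 61)))) (.rp 11 (.str 56 (.nv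 (.thr 13 49 (.thr 29 17 (.thr 45 61 (.dbl 46 12 47)))) (.nv (.thr 32 47 (.thr 40 36 (.dbl 8 24 59))) (.rp 50 (.str 14 (.nv (.thr 13 49 (.thr 12 15 (.dbl 29 17 46))) (.nv (.thr 8 59 (.thr 40 24 (.dbl 32 36 47))) .nd))) (.rp 47 (.thr 59 8 (.thr 58 57 (.dbl 53 5 48))) (.rp 14 (.str 50 (.nv (.thr 49 13 (.thr 48 51 (.dbl 53 5 58))) (.nv (.thr 32 47 (.thr 40 36 (.dbl 8 24 59))) .nd))) .nd)))))) .nd))))))))))))) (.rp 14 (.str 50 (.nv (.thr 53 5 (.thr 48 58 (.dbl 49 13 51))) (.nv (.thr 59 8 (.thr 51 55 (.dbl 49 13 48))) (.rp 56 (.str 11 (.nv (.thr 49 13 (.thr 48 51 (.dbl 53 5 58))) (.nv (.thr 5 53 (.thr 8 59 (.thr 9 10 (.dbl 13 1 49)))) (.nv (.thr 59 8 (.thr 51 55 (.dbl 49 13 48))) (.rp 49 (.thr 53 5 (.thr 58 48 (.thr 54 62 (.thr 59 8 (.dbl 55 51 52))))) (.rp 44 (.str 35 (.nv (.thr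 47 32 (.thr 43 39 (.dbl 59 8 27))) (.nv (.thr 17 29 (.thr 32 47 (.thr 33 34 (.dbl 49 1 13)))) (.nv (.thr 59 8 (.thr 51 55 (.dbl 49 13 48))) .nd)))) (.rp 35 (.str 44 (.nv (.thr 5 53 (.thr 8 59 (.thr 9 10 (.dbl 13 1 49)))) (.nv (.thr 47 32 (.thr 46 45 (.dbl 29 12 17))) (.nv (.thr 59 8 (.thr 51 55 (.dbl 49 13 48))) .nd)))) (.rp 13 (.thr 53 5 (.thr 48 58 (.thr 51 49 (.dbl 59 8 55)))) .nd)))))))) (.rp 51 (.thr 53 5 (.thr 49 13 (.thr 57 61 (.thr 58 48 (.dbl 59 8 56))))) (.rp 49 (.thr 53 5 (.thr 58 48 (.thr 54 62 (.thr 59 8 (.dbl 55 51 52))))) (.rp 48 (.thr 13 49 (.thr 29 17 (.thr 45 61 (.thr 46 12 (.dbl 47 32 44))))) (.rp 44 (.str 35 (.nv (.thr 17 29 (.thr 32 47 (.thr 33 34 (.dbl 49 1 13)))) (.nv (.thr 59 8 (.thr 51 55 (.dbl 49 13 48))) (.rp 56 (.str 11 (.nv (.thr 47 32 (.thr 43 39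 (.dbl 59 8 27))) (.nv (.thr 17 29 (.thr 32 47 (.thr 33 34 (.dbl 49 1 13)))) (.nv (.thr 59 8 (.thr 51 55 (.dbl 49 13 48))) .nd)))) (.rp 49 (.thr 53 5 (.thr 58 48 (.thr 54 62 (.thr 59 8 (.dbl 55 51 52))))) (.rp 13 (.thr 53 5 (.thr 48 58 (.thr 51 49 (.dbl 59 8 55)))) (.rp 11 (.str 56 (.nv (.thr 59 8 (.thr 58 57 (.dbl 53 5 48))) (.nv (.thr 17 29 (.thr 32 47 (.thr 33 34 (.dbl 49 1 13)))) (.nv (.thr 53 5 (.thr 48 58 (.dbl 49 13 51))) .nd)))) .nd))))))) (.rp 35 (.str 44 (.nv (.thr 47 32 (.thr 46 45 (.dbl 29 12 17))) (.nv (.thr 53 5 (.thr 48 58 (.dbl 49 13 51))) (.rp 56 (.str 11 (.nv (.thr 5 53 (.thr 8 59 (.thr 9 10 (.dbl 13 1 49)))) (.nv (.thr 47 32 (.thr 46 45 (.dbl 29 12 17))) (.nv (.thr 59 8 (.thr 51 55 (.dbl 49 13 48))) .nd)))) (.rp 48 (.thr 29 17 (.thr 46 12 (.dbl 47 32 45)))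 (.rp 11 (.str 56 (.nv (.thr 49 13 (.thr 48 51 (.dbl 53 5 58))) (.nv (.thr 32 47 (.thr 40 36 (.dbl 8 24 59))) .nd))) .nd)))))) (.rp 13 (.thr 53 5 (.thr 48 58 (.thr 51 49 (.dbl 59 8 55)))) (.rp 11 (.str 56 (.nv (.thr 53 5 (.thr 58 48 (.dbl 59 8 57))) (.nv (.thr 13 49 (.thr 29 17 (.thr 45 61 (.thr 46 12 (.dbl 47 32 44))))) (.nv (.thr 53 5 (.thr 48 58 (.dbl 49 13 51))) (.rp 53 (.thr 59 8 (.thr 51 55 (.dbl 49 13 48))) (.rp 44 (.str 35 (.nv (.thr 59 8 (.thr 58 57 (.dbl 53 5 48))) (.nv (.thr 17 29 (.thr 32 47 (.thr 33 34 (.dbl 49 1 13)))) (.nv (.thr 53 5 (.thr 48 58 (.dbl 49 13 51))) .nd)))) (.rp 35 (.str 44 (.nv (.thr 49 13 (.thr 48 51 (.dbl 53 5 58))) (.nv (.thr 32 47 (.thr 40 36 (.dbl 8 24 59))) .nd))) .nd))))))) .nd))))))))))) (.rp 13 (.thr 29 17 (.thr 12 46 (.thr 47 32 (.thr 31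 15 (.thr 28 30 (.thr 22 19 (.thr 62 2 (.dbl 60 44 61)))))))) (.rp 11 (.str 56 (.nv (.thr 49 13 (.thr 53 5 (.thr 57 61 (.dbl 59 8 58)))) (.nv (.thr 13 49 (.thr 29 17 (.thr 12 46 (.thr 47 32 (.dbl 15 14 31))))) (.nv (.thr 59 8 (.thr 58 57 (.dbl 53 5 48))) (.rp 50 (.str 14 (.nv (.thr 59 8 (.thr 58 57 (.dbl 53 5 48))) (.nv (.thr 29 17 (.thr 12 46 (.dbl 13 15 49))) (.rp 44 (.str 35 (.nv (.thr 17 29 (.thr 32 47 (.thr 33 34 (.dbl 49 1 13)))) (.nv (.thr 59 8 (.thr 58 57 (.dbl 53 5 48))) (.nv (.thr 47 32 (.thr 15 31 (.dbl 13 12 49))) .nd)))) (.rp 35 (.str 44 (.nv (.thr 13 49 (.thr 12 15 (.dbl 29 17 46))) (.nv (.thr 8 59 (.thr 40 24 (.dbl 32 36 47))) .nd))) (.rp 12 (.thr 53 5 (.thr 58 48 (.dbl 59 8 57))) .nd)))))) (.rp 44 (.str 35 (.nv (.thr 17 29 (.thr 32 47 (.thr 33 34 (.dbl 49 1 13))))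 (.nv (.thr 59 8 (.thr 58 57 (.dbl 53 5 48))) (.rp 50 (.str 14 (.nv (.thr 17 29 (.thr 32 47 (.thr 33 34 (.dbl 49 1 13)))) (.nv (.thr 59 8 (.thr 58 57 (.dbl 53 5 48))) (.nv (.thr 47 32 (.thr 15 31 (.dbl 13 12 49))) .nd)))) (.rp 14 (.str 50 (.nv (.thr 59 8 (.thr 58 57 (.dbl 53 5 48))) (.nv (.thr 17 29 (.thr 32 47 (.thr 33 34 (.dbl 49 1 13)))) (.nv (.thr 53 5 (.thr 48 58 (.dbl 49 13 51))) .nd)))) .nd))))) (.rp 35 (.str 44 (.nv (.thr 13 49 (.thr 29 17 (.thr 45 61 (.dbl 46 12 47)))) (.nv (.thr 32 47 (.thr 40 36 (.dbl 8 24 59))) (.rp 50 (.str 14 (.nv (.thr 13 49 (.thr 12 15 (.dbl 29 17 46))) (.nv (.thr 8 59 (.thr 40 24 (.dbl 32 36 47))) .nd))) (.rp 47 (.thr 59 8 (.thr 58 57 (.dbl 53 5 48))) (.rp 14 (.str 50 (.nv (.thr 49 13 (.thr 48 51 (.dbl 53 5 58))) (.nv (.thr 32 47 (.thr 40 36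 (.dbl 8 24 59))) .nd))) .nd)))))) (.rp 14 (.str 50 (.nv (.thr 53 5 (.thr 58 48 (.dbl 59 8 57))) (.nv (.thr 13 49 (.thr 29 17 (.thr 45 61 (.thr 46 12 (.dbl 47 32 44))))) (.nv (.thr 53 5 (.thr 48 58 (.dbl 49 13 51))) (.rp 53 (.thr 59 8 (.thr 51 55 (.dbl 49 13 48))) (.rp 44 (.str 35 (.nv (.thr 59 8 (.thr 58 57 (.dbl 53 5 48))) (.nv (.thr 17 29 (.thr 32 47 (.thr 33 34 (.dbl 49 1 13)))) (.nv (.thr 53 5 (.thr 48 58 (.dbl 49 13 51))) .nd)))) (.rp 35 (.str 44 (.nv (.thr 49 13 (.thr 48 51 (.dbl 53 5 58))) (.nv (.thr 32 47 (.thr 40 36 (.dbl 8 24 59))) .nd))) .nd))))))) .nd)))))))) .nd))))))))))))) .nd)))))))))))))))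

theorem w534 : WinAt (137474605056, 2473968271360) :=
  chF (K := []) kn c534 137474605056 2473968271360 41
    [20100446945280, 1126174851874816, 72059793128294400] (by decide +kernel) (by decide +kernel)

/-- A certificate. -/
noncomputable def c535 : Ct := (.str 14 (.nv (.thr 17 29 (.thr 49 13 (.thr 1 33 (.thr 53 5 (.dbl 61 41 57))))) (.rp 61 (.str 63 (.nv (.thr 13 49 (.thr 15 12 (.thr 42 0 (.dbl 47 31 32)))) (.nv (.thr 29 17 (.thr 12 46 (.dbl 13 15 49))) (.rp 49 (.thr 29 17 (.thr 12 46 (.thr 15 13 (.thr 47 31 (.dbl 42 0 32))))) (.rp 42 (.thr 29 17 (.thr 13 49 (.dbl 12 15 46))) (.rp 15 (.thr 29 17 (.thr 46 12 (.thr 62 30 (.thr 42 0 (.thr 22 2 (.thr 23 20 (.thr 7 52 (.thr 55 39 (.dbl 59 8 51))))))))) (.rp 13 (.thr 29 17 (.thr 46 12 (.thr 30 62 (.thr 31 28 (.thr 47 15 (.dbl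 42 0 32)))))) (.rp 12 (.thr 5 53 (.thr 29 17 (.thr 42 0 (.thr 47 32 (.thr 31 15 (.thr 28 30 (.thr 22 19 (.thr 2 62 (.thr 6 10 (.dbl 7 4 52)))))))))) .nd)))))))) (.rp 57 (.thr 29 17 (.thr 5 53 (.thr 13 49 (.thr 61 45 (.dbl 1 9 41))))) (.rp 53 (.thr 29 17 (.thr 13 49 (.thr 61 45 (.thr 1 41 (.thr 9 5 (.thr 12 15 (.thr 3 6 (.thr 0 2 (.dbl 63 42 46))))))))) (.rp 49 (.str 0 (.nv (.thr 5 53 (.thr 10 15 (.thr 2 6 (.thr 1 3 (.thr 9 13 (.dbl 41 57 61)))))) (.nv (.thr 42 63 (.thr 8 59 (.thr 12 4 (.thr 15 13 (.dbl 5 10 53))))) (.rp 53 (.thr 29 17 (.thr 63 42 (.thr 46 12 (.thr 62 30 (.thr 61 60 (.thr 45 13 (.dbl 41 1 33))))))) (.rp 51 (.str 48 (.nv (.thr 53 5 (.dbl 63 42 58)) (.nv (.thr 32 16 (.dbl 42 47 63)) (.rp 63 (.thr 32 16 (.thr 5 53 (.thr 15 10 (.thr 12 13 (.thr 8 4 (.dbl 42 47 59))))))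 (.rp 42 (.thr 5 53 (.thr 10 15 (.thr 2 6 (.thr 1 3 (.thr 9 13 (.dbl 41 57 61)))))) .nd))))) (.rp 48 (.str 51 (.nv (.dbl 17 29 34) (.rp 34 (.thr 29 17 (.thr 5 53 (.thr 15 10 (.thr 12 13 (.dbl 63 42 46))))) (.rp 29 (.thr 5 53 (.thr 15 10 (.thr 12 13 (.thr 8 4 (.dbl 42 59 63))))) (.rp 17 (.thr 5 53 (.thr 15 10 (.thr 12 13 (.thr 8 4 (.dbl 42 59 63))))) .nd))))) (.rp 15 (.thr 29 17 (.thr 63 42 (.thr 46 12 (.thr 62 30 (.thr 61 60 (.thr 45 13 (.dbl 41 1 33))))))) (.rp 13 (.thr 5 53 (.thr 10 15 (.thr 6 2 (.thr 4 7 (.thr 8 12 (.dbl 42 59 63)))))) (.rp 10 (.thr 29 17 (.thr 5 53 (.thr 42 63 (.thr 8 59 (.thr 12 4 (.thr 13 15 (.thr 1 9 (.dbl 61 41 45)))))))) (.rp 5 (.thr 29 17 (.thr 63 42 (.thr 46 12 (.thr 62 30 (.thr 61 60 (.thr 45 13 (.dbl 41 1 33))))))) .nd)))))))))) (.rp 45 (.thr 17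 29 (.thr 53 5 (.thr 49 13 (.thr 61 57 (.dbl 1 33 41))))) (.rp 41 (.thr 29 17 (.thr 13 49 (.thr 45 61 (.thr 15 12 (.thr 30 60 (.thr 62 46 (.thr 28 31 (.thr 22 19 (.thr 42 2 (.thr 0 63 (.dbl 5 10 53))))))))))) (.rp 33 (.thr 29 17 (.thr 5 53 (.thr 13 49 (.thr 1 9 (.dbl 61 41 45))))) (.rp 29 (.thr 5 53 (.thr 13 49 (.thr 9 1 (.thr 12 15 (.thr 6 3 (.thr 2 10 (.thr 7 4 (.thr 22 52 (.thr 42 62 (.thr 20 23 (.thr 28 19 (.thr 60 44 (.dbl 0 40 63))))))))))))) (.rp 17 (.thr 5 53 (.thr 13 49 (.thr 1 9 (.thr 61 41 (.thr 45 29 (.thr 15 12 (.thr 0 10 (.thr 60 30 (.dbl 63 42 62))))))))) (.rp 13 (.str 0 (.nv (.thr 5 53 (.thr 10 15 (.thr 2 6 (.thr 1 3 (.thr 17 29 (.thr 33 49 (.dbl 41 45 61))))))) (.nv (.thr 5 53 (.thr 29 17 (.thr 63 42 (.thr 46 12 (.thr 30 62 (.thr 31 28 (.dbl 15 10 47))))))) (.nv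 (.thr 5 53 (.thr 10 15 (.thr 6 2 (.thr 4 7 (.thr 8 12 (.dbl 42 59 63)))))) (.rp 53 (.thr 17 29 (.thr 42 63 (.thr 32 47 (.thr 48 16 (.thr 34 51 (.thr 33 35 (.thr 1 49 (.dbl 41 45 61)))))))) (.rp 15 (.thr 29 17 (.thr 5 53 (.thr 42 63 (.thr 8 59 (.thr 4 12 (.thr 7 6 (.thr 22 52 (.thr 62 2 (.thr 30 46 (.dbl 28 19 31)))))))))) (.rp 12 (.thr 5 53 (.thr 10 15 (.thr 2 6 (.thr 3 1 (.thr 42 63 (.thr 22 62 (.thr 60 41 (.dbl 20 23 40)))))))) (.rp 10 (.thr 17 29 (.thr 42 63 (.thr 32 47 (.thr 48 16 (.thr 34 51 (.thr 33 35 (.thr 1 49 (.dbl 41 45 61)))))))) (.rp 5 (.thr 17 29 (.thr 42 63 (.thr 32 47 (.thr 48 16 (.thr 34 51 (.thr 33 35 (.thr 1 49 (.dbl 41 45 61)))))))) (.rp 2 (.thr 29 17 (.thr 53 5 (.thr 63 42 (.thr 46 12 (.thr 62 30 (.thr 61 60 (.thr 57 49 (.dbl 41 1 9)))))))) .nd))))))))))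 (.rp 5 (.thr 29 17 (.thr 13 49 (.thr 45 61 (.thr 12 15 (.thr 46 63 (.thr 62 30 (.thr 47 44 (.thr 42 32 (.thr 22 2 (.thr 52 7 (.thr 20 23 (.thr 8 59 (.dbl 4 0 36))))))))))))) (.rp 1 (.str 0 (.nv (.thr 13 49 (.thr 12 15 (.thr 8 4 (.dbl 42 59 63)))) (.nv (.thr 5 53 (.thr 15 10 (.dbl 13 12 49))) (.rp 49 (.thr 5 53 (.thr 15 10 (.thr 12 13 (.thr 8 4 (.dbl 42 59 63))))) (.rp 42 (.thr 5 53 (.thr 13 49 (.dbl 15 10 12))) (.rp 15 (.thr 29 17 (.thr 5 53 (.thr 42 63 (.thr 8 59 (.thr 4 12 (.thr 7 6 (.thr 22 52 (.thr 62 2 (.thr 30 46 (.dbl 28 19 31)))))))))) (.rp 13 (.thr 5 53 (.thr 10 15 (.thr 6 2 (.thr 4 7 (.thr 8 12 (.dbl 42 59 63)))))) (.rp 12 (.thr 5 53 (.thr 10 15 (.thr 2 6 (.thr 42 63 (.thr 22 62 (.thr 20 23 (.thr 28 19 (.thr 16 24 (.dbl 32 47 48))))))))) .nd)))))))) .nd))))))))))))))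

theorem w535 : WinAt (137474605056, 1126174851858432) :=
  chF (K := []) kn c535 137474605056 1126174851858432 50
    [] (by decide +kernel) (by decide +kernel)

/-- A certificate. -/
noncomputable def c536 : Ct := (.str 25 (.nv (.thr 17 29 (.thr 53 5 (.thr 49 13 (.thr 61 57 (.dbl 1 33 41))))) (.rp 61 (.str 42 (.nv (.thr 0 63 (.thr 5 53 (.thr 8 59 (.thr 12 4 (.thr 15 10 (.dbl 13 14 49)))))) (.nv (.thr 29 17 (.thr 47 32 (.thr 63 0 (.thr 12 46 (.thr 15 31 (.dbl 13 14 49)))))) (.rp 63 (.thr 29 17 (.thr 47 32 (.thr 59 8 (.thr 53 5 (.str 22 (.nv (.thr 19 28 (.thr 23 20 (.thr 27 31 (.thr 43 11 (.thr 39 35 (.dbl 7 52 55)))))) (.nv (.thr 7 52 (.thr 23 20 (.thr 39 55 (.thr 43 35 (.thr 11 27 (.thr 3 15 (.dbl 41 40 60))))))) (.nv (.thr 19 28 (.thr 23 20 (.thr 27 31 (.thr 7 52 (.thr 39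 55 (.dbl 43 11 35)))))) (.rp 62 (.str 60 (.nv (.thr 41 3 (.thr 45 33 (.thr 44 46 (.dbl 28 12 19)))) (.nv (.thr 52 7 (.thr 56 48 (.thr 57 58 (.dbl 54 51 55)))) (.rp 50 (.str 14 (.nv (.thr 28 19 (.thr 12 44 (.thr 15 13 (.dbl 30 31 45)))) (.nv (.thr 52 7 (.thr 56 48 (.thr 57 58 (.dbl 54 51 55)))) (.rp 58 (.str 54 (.nv (.thr 41 3 (.dbl 57 9 51)) (.nv (.dbl 52 7 55) .nd))) (.rp 54 (.str 58 (.nv (.thr 28 19 (.thr 12 44 (.dbl 13 15 49))) (.nv (.thr 56 57 (.dbl 52 7 48)) .nd))) (.rp 16 (.thr 13 49 (.thr 12 15 (.dbl 28 19 44))) .nd)))))) (.rp 48 (.thr 28 19 (.thr 30 31 (.thr 44 12 (.dbl 45 15 46)))) (.rp 14 (.str 50 (.nv (.thr 52 7 (.thr 48 56 (.thr 51 49 (.dbl 54 55 57)))) (.nv (.thr 28 19 (.thr 44 12 (.thr 45 46 (.dbl 30 15 31)))) (.rp 46 (.str 30 (.nv (.thr 41 3 (.dbl 45 15 33)) (.nv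 (.dbl 28 19 31) .nd))) (.rp 30 (.str 46 (.nv (.thr 52 7 (.thr 48 56 (.dbl 49 13 51))) (.nv (.thr 44 45 (.dbl 28 12 19)) .nd))) (.rp 4 (.thr 49 13 (.thr 48 51 (.dbl 52 7 56))) .nd)))))) .nd)))))) (.rp 60 (.thr 62 2 (.thr 7 52 (.thr 23 20 (.thr 39 55 (.thr 43 35 (.thr 27 11 (.dbl 19 28 31))))))) (.rp 55 (.thr 23 20 (.thr 19 28 (.thr 27 31 (.thr 43 11 (.thr 35 39 (.thr 3 51 (.dbl 41 40 60))))))) (.rp 52 (.thr 23 20 (.thr 19 28 (.thr 27 31 (.thr 43 11 (.thr 35 39 (.thr 3 51 (.dbl 41 40 60))))))) (.rp 50 (.str 14 (.nv (.thr 62 2 (.thr 30 46 (.dbl 28 19 31))) (.rp 62 (.str 60 (.nv (.thr 28 19 (.thr 12 44 (.thr 15 13 (.dbl 30 31 45)))) (.nv (.thr 52 7 (.thr 56 48 (.thr 57 58 (.dbl 54 51 55)))) (.rp 58 (.str 54 (.nv (.thr 41 3 (.dbl 57 9 51)) (.nv (.dbl 52 7 55) .nd))) (.rp 54 (.str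 58 (.nv (.thr 28 19 (.thr 12 44 (.dbl 13 15 49))) (.nv (.thr 56 57 (.dbl 52 7 48)) .nd))) (.rp 16 (.thr 13 49 (.thr 12 15 (.dbl 28 19 44))) .nd)))))) (.rp 46 (.thr 19 28 (.thr 23 20 (.thr 27 31 (.thr 43 11 (.thr 39 35 (.dbl 7 52 55)))))) (.rp 34 (.thr 28 19 (.thr 30 31 (.dbl 62 2 46))) (.rp 31 (.thr 13 49 (.thr 62 2 (.thr 46 30 (.thr 12 15 (.thr 28 19 (.dbl 44 45 60)))))) (.rp 30 (.thr 19 28 (.thr 23 20 (.thr 27 31 (.thr 43 11 (.thr 39 35 (.dbl 7 52 55)))))) (.rp 28 (.thr 13 49 (.thr 62 2 (.thr 30 46 (.thr 15 12 (.thr 60 45 (.thr 3 41 (.dbl 7 11 52))))))) (.rp 19 (.thr 13 49 (.thr 62 2 (.thr 30 46 (.thr 15 12 (.thr 60 45 (.thr 3 41 (.dbl 7 11 52))))))) (.rp 18 (.thr 19 28 (.thr 23 20 (.thr 27 31 (.thr 43 11 (.thr 39 35 (.dbl 7 52 55)))))) (.rp 2 (.thr 19 28 (.thr 23 20 (.thr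 27 31 (.thr 43 11 (.thr 39 35 (.dbl 7 52 55)))))) .nd))))))))))) (.rp 43 (.thr 49 13 (.thr 62 2 (.thr 52 7 (.thr 54 55 (.thr 50 58 (.thr 51 48 (.thr 60 57 (.thr 3 41 (.dbl 19 28 35))))))))) (.rp 39 (.thr 13 49 (.thr 62 2 (.thr 7 52 (.thr 28 19 (.thr 30 31 (.thr 14 46 (.thr 15 12 (.thr 3 11 (.dbl 60 41 45))))))))) (.rp 35 (.thr 7 52 (.thr 23 20 (.thr 39 55 (.thr 19 28 (.thr 27 31 (.thr 11 43 (.dbl 15 3 51))))))) (.rp 27 (.thr 49 13 (.thr 62 2 (.thr 52 7 (.thr 54 55 (.thr 50 58 (.thr 51 48 (.thr 60 57 (.thr 3 41 (.dbl 19 28 35))))))))) (.rp 23 (.thr 19 28 (.str 3 (.nv (.thr 60 41 (.thr 52 7 (.thr 56 48 (.thr 57 58 (.dbl 51 35 54))))) (.nv (.thr 7 52 (.thr 11 15 (.thr 41 60 (.thr 62 2 (.dbl 43 27 40))))) (.nv (.thr 41 60 (.thr 62 2 (.thr 43 40 (.dbl 35 39 51)))) (.nv (.thr 35 51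 (.thr 43 39 (.thr 7 52 (.dbl 11 15 27)))) (.rp 60 (.thr 62 2 (.thr 35 51 (.thr 43 39 (.thr 7 52 (.dbl 11 15 27))))) (.rp 50 (.str 14 (.nv (.thr 7 52 (.thr 11 15 (.thr 43 27 (.dbl 35 39 51)))) (.nv (.thr 41 60 (.thr 62 2 (.thr 46 30 (.dbl 45 33 44)))) (.rp 62 (.thr 60 41 (.thr 13 49 (.thr 15 12 (.dbl 7 11 52)))) (.rp 60 (.thr 62 2 (.thr 13 49 (.thr 7 52 (.dbl 15 11 12)))) .nd))))) (.rp 14 (.str 50 (.nv (.thr 60 41 (.thr 49 13 (.dbl 51 35 48))) (.nv (.thr 62 2 (.thr 54 58 (.dbl 52 7 55))) .nd))) (.rp 0 (.thr 51 35 (.thr 49 13 (.thr 62 2 (.thr 41 60 (.thr 33 45 (.dbl 48 18 50)))))) .nd)))))))))) (.rp 20 (.thr 49 13 (.thr 62 2 (.thr 52 7 (.thr 54 55 (.thr 50 58 (.thr 51 48 (.thr 60 57 (.thr 3 41 (.dbl 19 28 35))))))))) (.rp 14 (.str 50 (.nv (.thr 62 2 (.thr 54 58 (.dbl 52 7 55)))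 (.rp 62 (.str 60 (.nv (.thr 52 7 (.thr 48 56 (.thr 51 49 (.dbl 54 55 57)))) (.nv (.thr 28 19 (.thr 44 12 (.thr 45 46 (.dbl 30 15 31)))) (.rp 46 (.str 30 (.nv (.thr 41 3 (.dbl 45 15 33)) (.nv (.dbl 28 19 31) .nd))) (.rp 30 (.str 46 (.nv (.thr 52 7 (.thr 48 56 (.dbl 49 13 51))) (.nv (.thr 44 45 (.dbl 28 12 19)) .nd))) (.rp 4 (.thr 49 13 (.thr 48 51 (.dbl 52 7 56))) .nd)))))) (.rp 58 (.thr 7 52 (.thr 23 20 (.thr 39 55 (.thr 43 35 (.thr 27 11 (.dbl 19 28 31)))))) (.rp 55 (.thr 49 13 (.thr 62 2 (.thr 58 54 (.thr 48 51 (.thr 52 7 (.dbl 56 57 60)))))) (.rp 54 (.thr 7 52 (.thr 23 20 (.thr 39 55 (.thr 43 35 (.thr 27 11 (.dbl 19 28 31)))))) (.rp 52 (.thr 49 13 (.thr 62 2 (.thr 54 58 (.thr 51 48 (.thr 60 57 (.thr 3 41 (.dbl 19 28 35))))))) (.rp 10 (.thr 52 7 (.thr 54 55 (.dbl 62 2 58)))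 (.rp 7 (.thr 49 13 (.thr 62 2 (.thr 54 58 (.thr 51 48 (.thr 60 57 (.thr 3 41 (.dbl 19 28 35))))))) (.rp 6 (.thr 7 52 (.thr 23 20 (.thr 39 55 (.thr 43 35 (.thr 27 11 (.dbl 19 28 31)))))) (.rp 2 (.thr 7 52 (.thr 23 20 (.thr 39 55 (.thr 43 35 (.thr 27 11 (.dbl 19 28 31)))))) .nd))))))))))) (.rp 11 (.thr 7 52 (.thr 23 20 (.thr 39 55 (.thr 35 43 (.thr 19 28 (.thr 27 31 (.dbl 51 3 15))))))) (.rp 7 (.thr 23 20 (.thr 19 28 (.thr 27 31 (.thr 43 11 (.thr 35 39 (.thr 3 51 (.dbl 41 40 60))))))) .nd)))))))))))))))))))))) (.rp 51 (.thr 17 29 (.thr 0 63 (.thr 32 47 (.thr 16 48 (.thr 19 18 (.thr 22 28 (.thr 20 23 (.thr 60 40 (.thr 2 62 (.dbl 3 1 41)))))))))) (.rp 50 (.str 14 (.nv (.thr 0 63 (.thr 5 53 (.thr 15 10 (.dbl 13 12 49)))) (.nv (.thr 29 17 (.thr 63 0 (.thr 12 46 (.dbl 13 15 49))))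 (.rp 63 (.thr 47 32 (.thr 29 17 (.thr 49 13 (.str 62 (.nv (.thr 30 46 (.thr 28 31 (.dbl 22 2 19))) (.rp 46 (.thr 22 2 (.thr 19 28 (.thr 23 20 (.thr 27 31 (.thr 7 52 (.thr 39 55 (.thr 43 35 (.dbl 59 8 11)))))))) (.rp 31 (.thr 46 30 (.thr 45 44 (.thr 41 33 (.thr 9 57 (.thr 8 59 (.thr 10 11 (.dbl 2 6 22))))))) (.rp 30 (.thr 22 2 (.thr 19 28 (.thr 23 20 (.thr 27 31 (.thr 7 52 (.thr 39 55 (.thr 43 35 (.dbl 59 8 11)))))))) (.rp 28 (.thr 46 30 (.thr 45 44 (.thr 41 33 (.thr 9 57 (.thr 8 59 (.thr 10 11 (.dbl 2 6 22))))))) (.rp 22 (.thr 30 46 (.str 6 (.nv (.thr 10 2 (.thr 5 53 (.thr 4 7 (.thr 0 15 (.dbl 8 12 59))))) (.nv (.thr 8 59 (.thr 10 2 (.thr 9 11 (.thr 12 3 (.thr 0 4 (.dbl 5 15 53)))))) (.nv (.thr 5 53 (.thr 8 59 (.thr 10 2 (.thr 9 11 (.thr 15 0 (.thr 41 57 (.dbl 45 33 60)))))))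 (.nv (.thr 5 53 (.thr 4 7 (.thr 8 59 (.thr 0 12 (.dbl 10 2 15))))) (.rp 59 (.thr 5 53 (.thr 10 2 (.thr 28 31 (.thr 7 4 (.thr 15 0 (.thr 3 11 (.thr 12 9 (.dbl 60 44 45)))))))) (.rp 53 (.thr 10 2 (.thr 28 31 (.thr 8 59 (.thr 9 11 (.thr 41 57 (.thr 45 33 (.thr 12 3 (.dbl 60 15 44)))))))) (.rp 15 (.thr 5 53 (.thr 10 2 (.thr 4 7 (.thr 8 59 (.thr 12 0 (.dbl 9 3 11)))))) (.rp 10 (.thr 5 53 (.thr 28 31 (.thr 4 7 (.thr 8 59 (.thr 12 0 (.thr 9 3 (.thr 41 57 (.thr 45 33 (.dbl 60 15 44))))))))) (.rp 8 (.thr 5 53 (.thr 10 2 (.thr 28 31 (.thr 15 0 (.thr 60 45 (.thr 12 44 (.thr 3 9 (.dbl 7 4 11)))))))) (.rp 5 (.thr 10 2 (.thr 28 31 (.thr 8 59 (.thr 9 11 (.thr 41 57 (.thr 45 33 (.thr 12 3 (.dbl 60 15 44)))))))) (.rp 2 (.thr 5 53 (.thr 28 31 (.thr 4 7 (.thr 8 59 (.thr 12 0 (.thr 60 44 (.thr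 45 15 (.thr 41 33 (.dbl 9 3 57))))))))) (.rp 0 (.thr 10 2 (.thr 28 31 (.thr 8 59 (.thr 9 11 (.thr 41 57 (.thr 45 33 (.thr 60 15 (.dbl 12 3 44)))))))) .nd)))))))))))))) (.rp 19 (.thr 46 30 (.thr 45 44 (.thr 41 33 (.thr 9 57 (.thr 8 59 (.thr 10 11 (.dbl 2 6 22))))))) (.rp 2 (.thr 5 53 (.thr 30 46 (.thr 28 31 (.thr 22 19 (.thr 7 52 (.thr 4 6 (.thr 8 59 (.thr 12 0 (.thr 60 44 (.thr 15 45 (.dbl 3 11 41))))))))))) .nd)))))))))))) (.rp 49 (.thr 29 17 (.thr 63 0 (.thr 12 46 (.thr 47 32 (.dbl 15 13 31))))) (.rp 15 (.thr 29 17 (.thr 63 0 (.thr 46 12 (.thr 62 30 (.thr 22 2 (.thr 23 20 (.thr 7 52 (.thr 55 39 (.dbl 59 8 51))))))))) (.rp 13 (.thr 5 53 (.thr 0 63 (.thr 10 15 (.thr 6 2 (.thr 8 59 (.dbl 4 7 12)))))) (.rp 12 (.thr 5 53 (.thr 0 63 (.thr 10 15 (.thr 8 59 (.thr 9 11 (.dbl 13 1 49))))))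 (.rp 0 (.thr 13 49 (.thr 29 17 (.thr 47 32 (.thr 12 15 (.thr 46 63 (.thr 62 30 (.thr 22 2 (.thr 28 19 (.dbl 44 45 60))))))))) .nd))))))))) (.rp 49 (.thr 17 29 (.thr 0 63 (.thr 51 34 (.thr 32 47 (.thr 16 48 (.thr 19 18 (.thr 22 28 (.thr 3 35 (.dbl 2 1 62))))))))) (.rp 48 (.thr 17 29 (.thr 0 63 (.thr 34 51 (.thr 32 47 (.thr 33 35 (.dbl 49 1 13)))))) (.rp 15 (.thr 5 53 (.thr 0 63 (.thr 8 59 (.thr 4 12 (.thr 7 6 (.thr 22 52 (.thr 20 23 (.thr 60 40 (.thr 2 62 (.dbl 3 1 41)))))))))) (.rp 14 (.str 50 (.nv (.thr 17 29 (.thr 0 63 (.thr 51 34 (.dbl 49 13 48)))) (.nv (.thr 53 5 (.thr 63 0 (.thr 48 58 (.dbl 49 13 51)))) (.rp 63 (.thr 59 8 (.thr 53 5 (.thr 13 49 (.str 62 (.nv (.thr 54 58 (.thr 52 55 (.dbl 22 2 7))) (.rp 58 (.thr 22 2 (.thr 7 52 (.thr 23 20 (.thr 39 55 (.thr 19 28 (.thr 27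 31 (.thr 43 11 (.dbl 47 32 35)))))))) (.rp 55 (.thr 58 54 (.thr 57 56 (.thr 41 9 (.thr 33 45 (.thr 32 47 (.thr 34 35 (.dbl 2 18 22))))))) (.rp 54 (.thr 22 2 (.thr 7 52 (.thr 23 20 (.thr 39 55 (.thr 19 28 (.thr 27 31 (.thr 43 11 (.dbl 47 32 35)))))))) (.rp 52 (.thr 58 54 (.thr 57 56 (.thr 41 9 (.thr 33 45 (.thr 32 47 (.thr 34 35 (.dbl 2 18 22))))))) (.rp 22 (.thr 54 58 (.str 18 (.nv (.thr 17 29 (.thr 16 19 (.thr 34 2 (.thr 0 51 (.dbl 32 47 48))))) (.nv (.thr 32 47 (.thr 34 2 (.thr 33 35 (.thr 48 3 (.thr 0 16 (.dbl 17 29 51)))))) (.nv (.thr 17 29 (.thr 32 47 (.thr 34 2 (.thr 33 35 (.thr 41 45 (.thr 51 0 (.dbl 57 9 60))))))) (.nv (.thr 17 29 (.thr 16 19 (.thr 32 47 (.thr 0 48 (.dbl 34 2 51))))) (.rp 51 (.thr 17 29 (.thr 34 2 (.thr 16 19 (.thr 32 47 (.thr 48 0 (.dbl 33 3 35))))))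 (.rp 47 (.thr 17 29 (.thr 34 2 (.thr 52 55 (.thr 19 16 (.thr 51 0 (.thr 3 35 (.thr 48 33 (.dbl 60 56 57)))))))) (.rp 34 (.thr 17 29 (.thr 52 55 (.thr 16 19 (.thr 32 47 (.thr 48 0 (.thr 33 3 (.thr 41 45 (.thr 57 9 (.dbl 60 51 56))))))))) (.rp 32 (.thr 17 29 (.thr 34 2 (.thr 52 55 (.thr 51 0 (.thr 60 57 (.thr 48 56 (.thr 3 33 (.dbl 19 16 35)))))))) (.rp 29 (.thr 34 2 (.thr 52 55 (.thr 32 47 (.thr 33 35 (.thr 41 45 (.thr 57 9 (.thr 48 3 (.dbl 60 51 56)))))))) (.rp 17 (.thr 34 2 (.thr 52 55 (.thr 32 47 (.thr 33 35 (.thr 41 45 (.thr 57 9 (.thr 48 3 (.dbl 60 51 56)))))))) (.rp 2 (.thr 17 29 (.thr 52 55 (.thr 16 19 (.thr 32 47 (.thr 48 0 (.thr 60 56 (.thr 57 51 (.thr 41 9 (.dbl 33 3 45))))))))) (.rp 0 (.thr 34 2 (.thr 52 55 (.thr 32 47 (.thr 33 35 (.thr 41 45 (.thr 57 9 (.thr 60 51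 (.dbl 48 3 56)))))))) .nd)))))))))))))) (.rp 7 (.thr 58 54 (.thr 57 56 (.thr 41 9 (.thr 33 45 (.thr 32 47 (.thr 34 35 (.dbl 2 18 22))))))) (.rp 2 (.thr 17 29 (.thr 54 58 (.thr 52 55 (.thr 22 7 (.thr 19 28 (.thr 16 18 (.thr 32 47 (.thr 48 0 (.thr 60 56 (.thr 51 57 (.dbl 3 35 41))))))))))) .nd)))))))))))) (.rp 51 (.thr 53 5 (.thr 63 0 (.thr 58 48 (.thr 62 54 (.thr 22 2 (.thr 23 20 (.thr 19 28 (.thr 31 27 (.dbl 47 15 32))))))))) (.rp 49 (.thr 17 29 (.thr 0 63 (.thr 34 51 (.thr 18 2 (.thr 32 47 (.dbl 16 19 48)))))) (.rp 48 (.thr 17 29 (.thr 0 63 (.thr 34 51 (.thr 32 47 (.thr 33 35 (.dbl 49 1 13)))))) (.rp 13 (.thr 53 5 (.thr 63 0 (.thr 48 58 (.thr 59 8 (.dbl 51 49 55))))) (.rp 0 (.thr 49 13 (.thr 53 5 (.thr 59 8 (.thr 48 51 (.thr 58 63 (.thr 62 54 (.thr 22 2 (.thr 52 7 (.dbl 56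 57 60))))))))) .nd))))))))) (.rp 13 (.thr 5 53 (.thr 0 63 (.thr 8 59 (.thr 4 12 (.thr 15 10 (.thr 7 6 (.thr 22 52 (.thr 3 11 (.dbl 2 1 62))))))))) (.rp 12 (.thr 5 53 (.thr 0 63 (.thr 8 59 (.thr 10 15 (.thr 9 11 (.dbl 13 1 49)))))) (.rp 0 (.str 22 (.nv (.thr 20 23 (.thr 19 28 (.thr 17 29 (.thr 16 18 (.thr 32 47 (.thr 13 49 (.thr 52 7 (.thr 4 36 (.thr 53 5 (.thr 55 54 (.thr 59 8 (.thr 62 2 (.thr 51 63 (.thr 3 35 (.thr 41 60 (.thr 43 40 (.thr 33 45 (.thr 9 57 (.thr 12 6 (.thr 27 11 (.dbl 15 14 39))))))))))))))))))))) (.nv (.thr 8 59 (.thr 28 19 (.thr 20 23 (.thr 24 16 (.thr 40 56 (.thr 32 47 (.thr 44 36 (.thr 60 12 (.dbl 41 3 43))))))))) (.rp 60 (.thr 29 17 (.thr 5 53 (.thr 49 13 (.thr 62 2 (.thr 52 7 (.thr 20 23 (.thr 36 4 (.thr 28 19 (.thr 31 30 (.thr 32 47 (.thr 40 44 (.thr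 41 43 (.thr 45 33 (.thr 9 57 (.thr 8 59 (.dbl 24 16 56)))))))))))))))) (.rp 59 (.thr 29 17 (.thr 5 53 (.thr 49 13 (.thr 2 62 (.thr 52 7 (.thr 20 23 (.thr 36 4 (.thr 28 19 (.thr 32 47 (.thr 44 40 (.thr 12 60 (.thr 63 46 (.dbl 24 16 48))))))))))))) (.rp 57 (.thr 29 17 (.thr 5 53 (.thr 49 13 (.thr 2 62 (.thr 52 7 (.thr 20 23 (.thr 36 4 (.thr 28 19 (.thr 16 24 (.thr 32 47 (.thr 44 40 (.thr 60 12 (.thr 8 59 (.thr 41 3 (.thr 45 33 (.dbl 30 15 31)))))))))))))))) (.rp 56 (.thr 29 17 (.thr 5 53 (.thr 49 13 (.thr 2 62 (.thr 52 7 (.thr 20 23 (.thr 36 4 (.thr 28 19 (.thr 16 24 (.thr 32 47 (.thr 44 40 (.thr 8 59 (.thr 60 12 (.thr 41 3 (.thr 45 33 (.dbl 30 15 31)))))))))))))))) (.rp 50 (.str 14 (.nv (.thr 29 17 (.thr 28 19 (.thr 30 31 (.dbl 62 2 46)))) (.nv (.thr 2 62 (.thr 7 52 (.thr 6 10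 (.dbl 5 4 53)))) (.rp 62 (.thr 29 17 (.thr 28 19 (.thr 31 30 (.thr 47 32 (.thr 13 49 (.dbl 15 12 63)))))) (.rp 2 (.thr 29 17 (.thr 28 19 (.thr 30 31 (.thr 13 49 (.thr 12 15 (.dbl 46 62 63)))))) .nd))))) (.rp 47 (.thr 29 17 (.thr 5 53 (.thr 49 13 (.thr 2 62 (.thr 7 52 (.thr 4 6 (.thr 23 20 (.thr 19 28 (.thr 27 31 (.thr 59 8 (.thr 11 43 (.thr 15 3 (.dbl 39 51 55))))))))))))) (.rp 44 (.thr 29 17 (.thr 5 53 (.thr 49 13 (.thr 2 62 (.thr 52 7 (.thr 23 20 (.thr 19 28 (.thr 31 27 (.thr 47 32 (.thr 63 15 (.thr 12 46 (.thr 3 43 (.thr 9 6 (.dbl 41 57 60)))))))))))))) (.rp 43 (.thr 29 17 (.thr 5 53 (.thr 49 13 (.thr 2 62 (.thr 52 7 (.thr 20 23 (.thr 36 4 (.thr 28 19 (.thr 31 30 (.thr 32 47 (.thr 40 44 (.thr 8 59 (.dbl 24 16 56))))))))))))) (.rp 41 (.thr 29 17 (.thr 5 53 (.thr 49 13 (.thr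 2 62 (.thr 52 7 (.thr 20 23 (.thr 36 4 (.thr 28 19 (.thr 32 47 (.thr 44 40 (.thr 12 60 (.thr 63 46 (.dbl 24 16 48))))))))))))) (.rp 40 (.thr 29 17 (.thr 5 53 (.thr 49 13 (.thr 2 62 (.thr 7 52 (.thr 6 4 (.thr 14 10 (.thr 20 23 (.thr 28 19 (.thr 16 24 (.thr 31 30 (.thr 47 32 (.thr 63 15 (.thr 12 46 (.thr 3 9 (.dbl 60 41 44)))))))))))))))) (.rp 36 (.thr 29 17 (.thr 5 53 (.thr 49 13 (.thr 2 62 (.thr 52 7 (.thr 23 20 (.thr 28 19 (.thr 31 30 (.thr 47 32 (.thr 63 15 (.thr 3 43 (.thr 60 41 (.dbl 12 44 46))))))))))))) (.rp 32 (.thr 29 17 (.thr 5 53 (.thr 49 13 (.thr 2 62 (.thr 7 52 (.thr 4 6 (.thr 23 20 (.thr 19 28 (.thr 27 31 (.thr 59 8 (.thr 11 43 (.thr 15 3 (.dbl 39 51 55))))))))))))) (.rp 31 (.thr 29 17 (.thr 5 53 (.thr 49 13 (.thr 2 62 (.thr 52 7 (.thr 20 23 (.thr 36 4 (.thr 19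 28 (.thr 32 47 (.thr 40 44 (.thr 41 43 (.thr 45 33 (.thr 9 57 (.thr 8 59 (.thr 56 24 (.dbl 60 3 48)))))))))))))))) (.rp 28 (.thr 29 17 (.thr 5 53 (.thr 49 13 (.thr 2 62 (.thr 52 7 (.thr 20 23 (.thr 36 4 (.thr 32 47 (.thr 40 44 (.thr 41 43 (.thr 45 33 (.thr 9 57 (.thr 8 59 (.thr 56 24 (.dbl 60 3 48))))))))))))))) (.rp 27 (.thr 29 17 (.thr 5 53 (.thr 49 13 (.thr 2 62 (.thr 52 7 (.thr 20 23 (.thr 36 4 (.thr 28 19 (.thr 31 30 (.thr 32 47 (.thr 40 44 (.thr 41 43 (.thr 45 33 (.thr 9 57 (.thr 8 59 (.thr 11 10 (.dbl 24 16 56))))))))))))))))) (.rp 24 (.thr 29 17 (.thr 5 53 (.thr 49 13 (.thr 2 62 (.thr 52 7 (.thr 20 23 (.thr 36 4 (.thr 28 19 (.thr 32 47 (.thr 44 40 (.thr 60 12 (.thr 8 59 (.thr 48 56 (.thr 41 3 (.thr 45 33 (.dbl 30 15 31)))))))))))))))) (.rp 23 (.thr 29 17 (.thr 5 53 (.thr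 49 13 (.thr 2 62 (.thr 7 52 (.thr 6 4 (.thr 14 10 (.thr 28 19 (.thr 31 30 (.thr 47 32 (.thr 63 15 (.thr 12 46 (.thr 60 44 (.dbl 3 9 41)))))))))))))) (.rp 20 (.thr 29 17 (.thr 5 53 (.thr 49 13 (.thr 62 2 (.thr 52 7 (.thr 28 19 (.thr 31 30 (.thr 47 32 (.thr 63 15 (.thr 12 46 (.thr 60 44 (.thr 48 56 (.thr 59 8 (.dbl 51 50 55)))))))))))))) (.rp 19 (.thr 29 17 (.thr 5 53 (.thr 49 13 (.thr 2 62 (.thr 52 7 (.thr 20 23 (.thr 36 4 (.thr 32 47 (.thr 40 44 (.thr 41 43 (.thr 45 33 (.thr 9 57 (.thr 8 59 (.thr 56 24 (.dbl 60 3 48))))))))))))))) (.rp 18 (.thr 29 17 (.thr 5 53 (.thr 49 13 (.thr 2 62 (.thr 52 7 (.thr 20 23 (.thr 36 4 (.thr 28 19 (.thr 16 24 (.thr 32 47 (.thr 44 40 (.thr 60 12 (.thr 8 59 (.thr 48 56 (.thr 41 3 (.thr 45 33 (.dbl 30 15 31))))))))))))))))) (.rp 17 (.thr 5 53 (.thr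 49 13 (.thr 2 62 (.thr 52 7 (.thr 20 23 (.thr 36 4 (.thr 28 19 (.thr 32 47 (.thr 40 44 (.thr 41 43 (.thr 45 33 (.thr 9 57 (.thr 8 59 (.dbl 24 16 56)))))))))))))) (.rp 16 (.thr 29 17 (.thr 5 53 (.thr 49 13 (.thr 2 62 (.thr 52 7 (.thr 20 23 (.thr 36 4 (.thr 19 28 (.thr 32 47 (.thr 40 44 (.thr 41 43 (.thr 45 33 (.thr 9 57 (.thr 8 59 (.thr 56 24 (.dbl 60 3 48)))))))))))))))) (.rp 14 (.str 50 (.nv (.thr 53 5 (.thr 52 7 (.thr 54 55 (.dbl 62 2 58)))) (.nv (.thr 2 62 (.thr 19 28 (.thr 18 34 (.dbl 17 16 29)))) (.rp 62 (.thr 53 5 (.thr 52 7 (.thr 55 54 (.thr 59 8 (.thr 49 13 (.dbl 51 48 63)))))) (.rp 2 (.thr 53 5 (.thr 52 7 (.thr 54 55 (.thr 49 13 (.thr 48 51 (.dbl 58 62 63)))))) .nd))))) (.rp 12 (.thr 29 17 (.thr 5 53 (.thr 49 13 (.thr 2 62 (.thr 52 7 (.thr 20 23 (.thr 36 4 (.thr 8 59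 (.thr 28 19 (.thr 31 30 (.thr 32 47 (.thr 40 44 (.dbl 24 16 56))))))))))))) (.rp 11 (.thr 29 17 (.thr 5 53 (.thr 49 13 (.thr 2 62 (.thr 52 7 (.thr 20 23 (.thr 36 4 (.thr 28 19 (.thr 31 30 (.thr 32 47 (.thr 40 44 (.thr 8 59 (.dbl 24 16 56))))))))))))) (.rp 8 (.thr 29 17 (.thr 5 53 (.thr 49 13 (.thr 2 62 (.thr 52 7 (.thr 23 20 (.thr 28 19 (.thr 31 30 (.thr 47 32 (.thr 63 15 (.thr 3 43 (.thr 60 41 (.dbl 12 44 46))))))))))))) (.rp 3 (.thr 29 17 (.thr 5 53 (.thr 49 13 (.thr 2 62 (.thr 52 7 (.thr 20 23 (.thr 36 4 (.thr 28 19 (.thr 31 30 (.thr 32 47 (.thr 40 44 (.thr 8 59 (.dbl 24 16 56))))))))))))) .nd)))))))))))))))))))))))))))))) .nd))))))))))))) (.rp 57 (.thr 29 17 (.thr 5 53 (.thr 13 49 (.thr 61 45 (.dbl 1 9 41))))) (.rp 53 (.str 1 (.nv (.thr 13 49 (.thr 9 5 (.dbl 41 57 61)))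 (.nv (.thr 17 29 (.dbl 49 13 33)) (.rp 50 (.str 14 (.nv (.thr 13 49 (.thr 9 5 (.dbl 41 57 61))) (.nv (.thr 17 29 (.dbl 49 13 33)) (.rp 49 (.thr 29 17 (.thr 61 41 (.thr 13 45 (.thr 9 5 (.thr 12 15 (.thr 3 6 (.thr 0 2 (.dbl 63 42 46)))))))) (.rp 13 (.thr 17 29 (.thr 33 49 (.dbl 41 45 61))) .nd))))) (.rp 49 (.thr 17 29 (.thr 41 61 (.thr 57 9 (.thr 45 33 (.str 0 (.nv (.thr 42 63 (.thr 40 43 (.thr 51 34 (.dbl 60 20 54)))) (.nv (.thr 3 2 (.thr 51 34 (.dbl 60 22 54))) (.nv (.thr 3 2 (.thr 22 60 (.thr 23 20 (.dbl 63 42 43)))) (.rp 60 (.thr 3 2 (.thr 63 42 (.thr 23 43 (.thr 22 20 (.thr 19 28 (.dbl 51 34 35)))))) (.rp 50 (.str 14 (.nv (.thr 51 34 (.thr 60 54 (.thr 40 20 (.dbl 42 43 63)))) (.nv (.thr 42 63 (.thr 40 43 (.thr 60 20 (.dbl 51 34 54)))) (.nv (.thr 42 63 (.thr 40 43 (.thr 60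 20 (.dbl 3 2 22)))) (.nv (.thr 3 2 (.thr 60 22 (.dbl 51 34 54))) (.rp 62 (.thr 3 2 (.thr 60 22 (.thr 42 63 (.dbl 40 20 43)))) (.rp 60 (.thr 2 3 (.thr 42 63 (.thr 62 22 (.thr 47 32 (.dbl 46 30 44))))) (.rp 51 (.str 48 (.nv (.thr 16 32 (.thr 19 18 (.thr 22 28 (.dbl 3 2 60)))) (.nv (.thr 3 2 (.thr 22 60 (.thr 23 20 (.dbl 63 42 43)))) (.nv (.thr 32 16 (.dbl 42 47 63)) .nd)))) (.rp 42 (.thr 3 2 (.thr 22 60 (.thr 19 28 (.dbl 51 34 35)))) .nd))))))))) (.rp 42 (.thr 3 2 (.thr 22 60 (.thr 19 28 (.dbl 51 34 35)))) (.rp 14 (.str 50 (.nv (.thr 42 63 (.thr 51 34 (.thr 60 54 (.dbl 40 20 43)))) (.nv (.thr 3 2 (.thr 22 60 (.thr 23 20 (.dbl 63 42 43)))) (.nv (.thr 34 51 (.dbl 2 3 18)) .nd)))) (.rp 3 (.thr 51 34 (.thr 60 54 (.thr 40 20 (.dbl 42 43 63)))) .nd))))))))))))) (.rp 14 (.str 50 (.nv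 (.thr 13 49 (.thr 9 5 (.dbl 41 57 61))) (.nv (.thr 17 29 (.dbl 49 13 33)) (.rp 49 (.str 32 (.nv (.thr 17 29 (.thr 41 61 (.thr 57 9 (.thr 42 47 (.thr 0 63 (.thr 34 51 (.dbl 33 35 45))))))) (.nv (.thr 41 61 (.thr 57 9 (.thr 42 47 (.thr 0 63 (.thr 3 2 (.thr 40 43 (.dbl 60 20 22))))))) (.nv (.thr 41 61 (.thr 57 9 (.thr 33 45 (.thr 34 35 (.thr 2 18 (.thr 0 3 (.dbl 17 29 51))))))) (.nv (.thr 17 29 (.thr 42 47 (.thr 0 63 (.thr 34 51 (.dbl 2 3 18))))) (.rp 61 (.str 57 (.nv (.thr 41 9 (.thr 33 45 (.thr 34 35 (.thr 2 18 (.thr 42 47 (.dbl 0 3 63)))))) (.nv (.thr 41 9 (.thr 33 45 (.thr 34 35 (.thr 2 18 (.thr 0 3 (.dbl 17 29 51)))))) (.nv (.thr 42 47 (.thr 59 8 (.thr 63 0 (.thr 51 55 (.thr 54 60 (.dbl 58 56 62)))))) (.rp 0 (.thr 41 9 (.thr 33 45 (.thr 34 35 (.thr 18 2 (.thr 3 48 (.thr 22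 60 (.thr 19 28 (.dbl 17 16 29)))))))) .nd))))) (.rp 57 (.thr 61 41 (.thr 17 29 (.thr 42 47 (.thr 0 63 (.thr 34 51 (.dbl 2 3 18)))))) (.rp 0 (.thr 41 61 (.thr 57 9 (.thr 33 45 (.thr 34 35 (.thr 18 2 (.thr 3 48 (.thr 22 60 (.thr 19 28 (.dbl 17 16 29))))))))) .nd)))))))) (.rp 13 (.thr 17 29 (.thr 33 49 (.dbl 41 45 61))) .nd))))) (.rp 13 (.thr 17 29 (.thr 33 49 (.dbl 41 45 61))) .nd))))))) (.rp 50 .ext (.rp 49 (.str 42 (.nv (.thr 0 63 (.thr 5 53 (.thr 8 59 (.thr 10 15 (.thr 9 11 (.thr 1 13 (.dbl 41 57 61))))))) (.nv (.thr 29 17 (.thr 63 0 (.thr 46 12 (.thr 47 32 (.thr 45 44 (.thr 61 13 (.dbl 41 1 33))))))) (.rp 63 (.thr 53 5 (.thr 59 8 (.str 22 (.nv (.thr 2 62 (.thr 7 52 (.thr 23 20 (.thr 39 55 (.thr 47 32 (.thr 43 35 (.thr 27 11 (.dbl 19 28 31)))))))) (.nv (.thr 2 62 (.thr 7 52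 (.thr 19 28 (.thr 23 20 (.thr 39 55 (.thr 27 31 (.thr 15 51 (.dbl 11 3 43)))))))) (.nv (.thr 2 62 (.thr 17 29 (.thr 19 28 (.thr 16 18 (.thr 32 47 (.thr 0 48 (.thr 3 1 (.dbl 51 34 35)))))))) (.nv (.thr 23 20 (.thr 19 28 (.thr 27 31 (.thr 47 32 (.thr 7 52 (.thr 39 55 (.dbl 43 11 35))))))) (.rp 50 (.str 14 (.nv (.thr 28 19 (.thr 62 2 (.thr 30 46 (.dbl 29 17 31)))) (.rp 62 (.thr 19 28 (.thr 23 20 (.thr 27 31 (.thr 11 43 (.thr 7 52 (.thr 39 55 (.dbl 15 3 51))))))) (.rp 51 (.str 48 (.nv (.thr 20 23 (.thr 32 47 (.thr 0 16 (.thr 52 7 (.dbl 60 40 56))))) (.nv (.thr 62 2 (.thr 28 19 (.thr 30 46 (.dbl 29 17 31)))) (.rp 31 (.thr 20 23 (.thr 52 7 (.thr 60 56 (.thr 40 0 (.dbl 41 3 43))))) (.rp 3 (.thr 29 17 (.thr 62 2 (.thr 30 46 (.dbl 28 19 31)))) .nd))))) (.rp 48 (.str 51 (.nv (.thr 2 62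 (.thr 17 29 (.thr 0 34 (.thr 3 1 (.thr 20 23 (.dbl 60 40 41)))))) (.nv (.thr 19 28 (.thr 3 35 (.thr 52 7 (.thr 54 55 (.dbl 60 41 57))))) (.nv (.thr 28 19 (.thr 62 2 (.thr 30 46 (.dbl 29 17 31)))) .nd)))) (.rp 46 (.thr 19 28 (.thr 23 20 (.thr 27 31 (.thr 11 43 (.thr 7 52 (.thr 39 55 (.dbl 15 3 51))))))) (.rp 34 (.thr 29 17 (.thr 28 19 (.thr 30 31 (.dbl 62 2 46)))) (.rp 31 (.thr 29 17 (.thr 62 2 (.thr 46 30 (.thr 47 32 (.thr 45 44 (.thr 61 13 (.dbl 41 1 33))))))) (.rp 30 (.thr 19 28 (.thr 23 20 (.thr 7 52 (.thr 39 55 (.thr 47 32 (.thr 43 35 (.dbl 27 11 31))))))) (.rp 29 (.thr 19 28 (.thr 23 20 (.thr 7 52 (.thr 39 55 (.thr 47 32 (.thr 43 35 (.dbl 27 11 31))))))) (.rp 28 (.thr 29 17 (.thr 62 2 (.thr 46 30 (.thr 47 32 (.thr 45 44 (.thr 61 13 (.dbl 41 1 33))))))) (.rp 19 (.thr 29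 17 (.thr 62 2 (.thr 46 30 (.thr 47 32 (.thr 45 44 (.thr 61 13 (.dbl 41 1 33))))))) (.rp 18 (.thr 19 28 (.thr 23 20 (.thr 27 31 (.thr 11 43 (.thr 7 52 (.thr 39 55 (.dbl 15 3 51))))))) (.rp 17 (.thr 19 28 (.thr 23 20 (.thr 27 31 (.thr 11 43 (.thr 7 52 (.thr 39 55 (.dbl 15 3 51))))))) (.rp 2 (.thr 19 28 (.thr 23 20 (.thr 27 31 (.thr 11 43 (.thr 7 52 (.thr 39 55 (.dbl 15 3 51))))))) .nd))))))))))))))) (.rp 31 (.thr 23 20 (.thr 47 32 (.thr 7 52 (.thr 39 55 (.thr 43 35 (.thr 41 40 (.thr 11 27 (.dbl 3 15 60)))))))) (.rp 28 (.thr 23 20 (.thr 47 32 (.thr 7 52 (.thr 39 55 (.thr 43 35 (.thr 41 40 (.thr 11 27 (.dbl 3 15 60)))))))) (.rp 19 (.thr 23 20 (.thr 47 32 (.thr 7 52 (.thr 39 55 (.thr 43 35 (.thr 41 40 (.thr 11 27 (.dbl 3 15 60)))))))) (.rp 14 (.str 50 (.nv (.thr 2 62 (.thr 17 29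 (.thr 18 34 (.dbl 19 16 28)))) (.nv (.thr 62 2 (.thr 54 58 (.dbl 52 7 55))) (.rp 62 (.thr 17 29 (.thr 19 28 (.thr 18 16 (.thr 32 47 (.thr 34 2 (.thr 35 33 (.dbl 51 0 3))))))) (.rp 2 (.thr 52 7 (.thr 54 55 (.thr 58 62 (.thr 57 56 (.thr 60 51 (.dbl 41 3 9)))))) .nd))))) .nd)))))))))))) (.rp 61 (.thr 17 29 (.thr 0 63 (.thr 51 34 (.thr 32 47 (.thr 16 48 (.thr 19 18 (.thr 22 28 (.thr 3 35 (.dbl 2 1 62))))))))) (.rp 51 (.thr 59 8 (.thr 17 29 (.thr 53 5 (.thr 32 47 (.str 48 (.nv (.dbl 63 0 58) (.rp 63 (.thr 16 0 (.thr 19 18 (.thr 22 28 (.thr 62 2 (.thr 52 7 (.thr 56 60 (.thr 54 55 (.dbl 58 50 57)))))))) (.rp 58 (.dbl 0 16 63) (.rp 50 (.str 14 (.nv (.dbl 0 16 63) (.rp 63 (.thr 16 0 (.thr 19 18 (.thr 22 28 (.thr 52 7 (.thr 56 60 (.thr 57 58 (.thr 41 9 (.thr 40 43 (.thr 36 44 (.thr 12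 24 (.dbl 20 4 23))))))))))) (.rp 16 (.dbl 63 0 58) (.rp 0 (.thr 58 63 (.thr 57 56 (.thr 41 9 (.thr 33 45 (.thr 40 43 (.thr 3 18 (.thr 22 60 (.thr 20 23 (.thr 52 7 (.dbl 36 4 44)))))))))) .nd))))) (.rp 14 (.str 50 (.nv (.dbl 63 0 58) (.rp 63 (.thr 16 0 (.thr 18 19 (.thr 34 2 (.dbl 33 3 35)))) (.rp 58 (.dbl 0 16 63) (.rp 0 (.thr 58 63 (.thr 54 62 (.thr 52 55 (.dbl 56 57 60)))) .nd))))) (.rp 0 (.thr 58 63 (.thr 56 57 (.thr 52 60 (.thr 54 55 (.thr 22 7 (.dbl 62 2 50)))))) .nd))))))))))) (.rp 50 (.str 14 (.nv (.thr 29 17 (.thr 47 32 (.thr 63 0 (.thr 12 46 (.dbl 15 13 31))))) (.nv (.thr 8 59 (.thr 0 63 (.thr 12 4 (.thr 15 13 (.dbl 5 10 53))))) (.rp 63 (.str 7 (.nv (.thr 5 53 (.thr 6 4 (.thr 8 59 (.thr 10 2 (.thr 11 9 (.dbl 15 0 3)))))) (.nv (.thr 22 52 (.thr 28 19 (.thr 29 17 (.thr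 30 31 (.dbl 62 2 46))))) (.nv (.thr 5 53 (.thr 6 4 (.thr 2 10 (.dbl 22 52 62)))) (.rp 51 (.str 48 (.nv (.thr 5 53 (.thr 6 4 (.thr 10 2 (.thr 0 15 (.dbl 32 16 47))))) (.nv (.thr 17 29 (.thr 22 52 (.thr 19 28 (.thr 32 47 (.dbl 16 0 18))))) (.nv (.thr 5 53 (.thr 6 4 (.thr 2 10 (.dbl 22 52 62)))) (.rp 59 (.str 55 (.nv (.thr 22 52 (.dbl 23 20 39)) (.nv (.thr 53 5 (.dbl 52 22 54)) (.rp 52 (.thr 5 53 (.thr 23 39 (.thr 22 20 (.thr 2 62 (.dbl 6 4 10))))) (.rp 22 (.thr 5 53 (.thr 6 4 (.thr 32 47 (.thr 0 16 (.dbl 10 2 15))))) .nd))))) (.rp 55 (.thr 59 8 (.thr 5 53 (.thr 6 4 (.thr 2 10 (.dbl 22 52 62))))) .nd)))))) (.rp 48 (.str 51 (.nv (.thr 8 59 (.thr 17 29 (.thr 0 34 (.thr 12 4 (.thr 15 13 (.dbl 5 10 53)))))) (.nv (.thr 17 29 (.thr 22 52 (.thr 19 28 (.thr 32 47 (.thr 34 0 (.dbl 35 3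 33)))))) (.nv (.thr 22 52 (.thr 2 62 (.thr 6 10 (.dbl 5 4 53)))) (.rp 58 (.thr 53 5 (.thr 29 17 (.thr 22 52 (.thr 62 2 (.thr 30 46 (.dbl 28 19 31)))))) (.rp 53 (.str 58 (.nv (.thr 29 17 (.thr 22 52 (.thr 28 19 (.thr 30 31 (.dbl 62 2 46))))) (.nv (.thr 8 59 (.thr 17 29 (.thr 0 34 (.thr 12 4 (.thr 15 13 (.thr 10 5 (.dbl 11 3 9))))))) (.nv (.thr 59 8 (.thr 57 56 (.thr 41 9 (.thr 22 52 (.dbl 60 3 54))))) (.rp 61 (.str 57 (.nv (.thr 60 54 (.thr 41 9 (.dbl 22 3 52))) (.nv (.dbl 59 8 56) (.rp 60 (.str 62 (.nv (.dbl 59 8 56) (.nv (.dbl 22 2 52) (.rp 56 (.thr 52 22 (.thr 41 9 (.thr 45 33 (.thr 47 32 (.dbl 46 30 44))))) (.rp 52 (.thr 56 59 (.thr 41 9 (.thr 45 33 (.thr 46 30 (.dbl 47 32 44))))) .nd))))) .nd)))) (.rp 57 (.str 61 (.nv (.thr 22 52 (.thr 19 28 (.thr 23 20 (.thr 27 31 (.dbl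 39 15 55))))) (.nv (.thr 29 17 (.thr 45 13 (.dbl 41 1 33))) (.rp 29 (.thr 41 1 (.thr 22 52 (.thr 19 28 (.dbl 3 35 60)))) .nd)))) .nd)))))) .nd)))))) (.rp 2 (.thr 29 17 (.thr 5 53 (.thr 8 59 (.thr 4 6 (.thr 12 0 (.thr 13 15 (.thr 1 9 (.dbl 61 41 45)))))))) .nd))))))) (.rp 51 (.str 48 (.nv (.thr 32 47 (.dbl 0 16 63)) (.nv (.thr 53 5 (.dbl 63 0 58)) (.rp 63 (.thr 5 53 (.thr 32 47 (.thr 0 16 (.thr 15 10 (.thr 12 13 (.dbl 8 4 59)))))) (.rp 0 (.thr 53 5 (.thr 63 58 (.thr 47 32 (.thr 15 31 (.thr 12 13 (.dbl 29 17 46)))))) .nd))))) (.rp 48 (.str 51 (.nv (.thr 59 8 (.dbl 63 0 55)) (.nv (.thr 17 29 (.dbl 0 34 63)) (.rp 63 (.thr 17 29 (.thr 0 34 (.thr 8 59 (.thr 12 4 (.thr 15 13 (.dbl 5 10 53)))))) (.rp 0 (.thr 29 17 (.thr 59 8 (.thr 63 55 (.thr 12 46 (.thr 15 13 (.dbl 47 31 32)))))) .nd)))))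 (.rp 15 (.thr 29 17 (.thr 63 0 (.thr 46 12 (.thr 62 30 (.thr 61 60 (.thr 45 13 (.dbl 41 1 33))))))) (.rp 13 (.thr 5 53 (.thr 0 63 (.thr 10 15 (.thr 6 2 (.thr 8 59 (.dbl 4 7 12)))))) (.rp 12 (.thr 5 53 (.thr 0 63 (.thr 10 15 (.thr 2 6 (.thr 8 59 (.thr 9 11 (.dbl 1 3 13))))))) (.rp 0 (.str 28 (.nv (.thr 5 53 (.thr 22 19 (.thr 2 62 (.thr 6 10 (.dbl 7 4 52))))) (.nv (.thr 29 17 (.thr 30 31 (.thr 62 46 (.dbl 22 2 19)))) (.rp 62 (.thr 5 53 (.thr 29 17 (.thr 47 32 (.thr 31 30 (.thr 15 63 (.thr 13 12 (.thr 61 45 (.dbl 1 9 41)))))))) (.rp 51 (.str 48 (.nv (.thr 8 59 (.thr 22 19 (.thr 52 7 (.thr 56 60 (.thr 24 40 (.dbl 20 16 23)))))) (.nv (.thr 22 19 (.thr 62 2 (.thr 30 46 (.dbl 29 17 31)))) (.rp 35 (.thr 53 5 (.thr 63 58 (.thr 47 32 (.thr 15 31 (.thr 12 13 (.dbl 29 17 46)))))) (.rp 34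 (.thr 17 29 (.thr 5 53 (.thr 22 19 (.thr 2 62 (.thr 6 10 (.dbl 7 4 52)))))) (.rp 22 (.thr 53 5 (.thr 63 58 (.thr 47 32 (.thr 15 31 (.thr 12 13 (.dbl 29 17 46)))))) (.rp 19 (.thr 53 5 (.thr 63 58 (.thr 47 32 (.thr 15 31 (.thr 12 13 (.dbl 29 17 46)))))) (.rp 17 (.str 34 (.nv (.thr 5 53 (.thr 22 19 (.thr 2 62 (.thr 6 10 (.dbl 7 4 52))))) (.nv (.thr 32 47 (.thr 33 35 (.thr 41 45 (.thr 22 19 (.dbl 3 18 60))))) (.rp 35 (.thr 53 5 (.thr 58 63 (.thr 59 8 (.thr 56 57 (.thr 52 60 (.thr 54 55 (.dbl 22 7 19))))))) (.rp 33 (.str 1 (.nv (.thr 22 19 (.thr 20 23 (.thr 52 7 (.thr 36 4 (.dbl 24 12 16))))) (.nv (.thr 5 53 (.thr 9 13 (.dbl 41 57 61))) (.rp 5 (.thr 41 61 (.thr 22 19 (.thr 52 7 (.dbl 60 3 56)))) .nd)))) (.rp 22 (.thr 53 5 (.thr 58 63 (.thr 59 8 (.thr 57 56 (.thr 41 9 (.thr 33 45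 (.dbl 32 35 47))))))) (.rp 19 (.thr 53 5 (.thr 58 63 (.thr 59 8 (.thr 57 56 (.thr 41 9 (.thr 33 45 (.dbl 32 35 47))))))) (.rp 18 (.thr 53 5 (.thr 58 63 (.thr 59 8 (.thr 56 57 (.thr 52 60 (.thr 54 55 (.dbl 22 7 19))))))) (.rp 16 (.thr 53 5 (.thr 58 63 (.thr 59 8 (.thr 56 57 (.thr 52 60 (.thr 54 55 (.dbl 22 7 19))))))) (.rp 3 (.thr 53 5 (.thr 58 63 (.thr 59 8 (.thr 56 57 (.thr 52 60 (.thr 54 55 (.dbl 22 7 19))))))) (.rp 1 (.str 33 (.nv (.thr 3 18 (.thr 41 45 (.dbl 22 19 60))) (.nv (.dbl 32 35 47) (.rp 3 (.str 2 (.nv (.dbl 32 35 47) (.nv (.dbl 22 19 62) (.rp 35 (.thr 19 22 (.thr 41 45 (.thr 9 57 (.thr 8 59 (.dbl 10 6 11))))) (.rp 19 (.thr 35 32 (.thr 41 45 (.thr 9 57 (.thr 10 6 (.dbl 8 11 59))))) .nd))))) .nd)))) .nd))))))))))) (.rp 3 (.thr 53 5 (.thr 63 58 (.thr 47 32 (.thr 15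 31 (.thr 12 13 (.dbl 29 17 46)))))) .nd))))))))) (.rp 48 (.str 51 (.nv (.thr 29 17 (.thr 30 31 (.thr 46 62 (.thr 59 8 (.dbl 63 12 55))))) (.nv (.thr 22 19 (.thr 7 52 (.thr 23 20 (.thr 55 39 (.dbl 59 8 63))))) (.nv (.thr 29 17 (.thr 30 31 (.thr 62 46 (.dbl 22 2 19)))) (.rp 32 (.str 16 (.nv (.thr 20 24 (.dbl 22 19 23)) (.nv (.thr 17 29 (.dbl 19 18 22)) (.rp 22 (.thr 29 17 (.thr 30 31 (.thr 59 8 (.thr 63 55 (.dbl 46 12 62))))) (.rp 19 (.thr 29 17 (.thr 20 24 (.thr 22 23 (.thr 62 2 (.dbl 30 31 46))))) .nd))))) (.rp 16 (.thr 32 47 (.thr 29 17 (.thr 30 31 (.thr 62 46 (.dbl 22 2 19))))) .nd)))))) (.rp 22 (.thr 29 17 (.thr 47 32 (.thr 30 31 (.thr 46 62 (.thr 12 63 (.dbl 44 45 60)))))) (.rp 19 (.thr 29 17 (.thr 47 32 (.thr 30 31 (.thr 46 62 (.thr 12 63 (.dbl 44 45 60)))))) (.rp 2 (.thr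 29 17 (.thr 47 32 (.thr 30 31 (.thr 46 62 (.thr 12 63 (.dbl 44 45 60)))))) .nd))))))))) .nd)))))))))) (.rp 48 (.thr 32 47 (.thr 53 5 (.thr 17 29 (.thr 59 8 (.str 51 (.nv (.dbl 0 34 63) (.rp 63 (.thr 34 0 (.thr 35 33 (.thr 19 3 (.thr 18 16 (.thr 22 28 (.dbl 2 50 62)))))) (.rp 50 (.str 14 (.nv (.dbl 63 0 55) (.rp 63 (.thr 34 0 (.thr 33 35 (.thr 41 45 (.thr 57 9 (.thr 43 40 (.thr 60 54 (.thr 22 3 (.thr 23 20 (.thr 19 28 (.dbl 27 11 31)))))))))) (.rp 55 (.dbl 0 34 63) (.rp 0 (.thr 55 63 (.thr 52 54 (.thr 22 7 (.thr 19 28 (.thr 35 3 (.thr 33 34 (.thr 41 45 (.thr 43 40 (.thr 27 11 (.thr 15 39 (.dbl 23 20 31))))))))))) .nd))))) (.rp 34 (.dbl 63 0 55) (.rp 14 (.str 50 (.nv (.dbl 0 34 63) (.rp 63 (.thr 34 0 (.thr 18 2 (.thr 19 16 (.dbl 35 3 33)))) (.rp 34 (.dbl 63 0 55) (.rp 0 (.thr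 55 63 (.thr 54 52 (.thr 58 62 (.dbl 57 56 60)))) .nd))))) (.rp 0 (.thr 55 63 (.thr 52 54 (.thr 22 7 (.thr 2 62 (.thr 19 28 (.thr 35 3 (.thr 18 16 (.dbl 34 33 50)))))))) .nd))))))))))) (.rp 47 (.thr 53 5 (.thr 63 0 (.thr 48 58 (.thr 59 8 (.thr 55 51 (.thr 52 54 (.thr 60 56 (.thr 62 61 (.dbl 22 2 7))))))))) (.rp 41 (.thr 29 17 (.thr 63 0 (.thr 12 46 (.thr 47 32 (.thr 31 15 (.thr 28 30 (.thr 22 19 (.thr 62 2 (.dbl 60 44 61))))))))) (.rp 15 (.thr 5 53 (.thr 0 63 (.thr 8 59 (.thr 4 12 (.thr 7 6 (.thr 22 52 (.thr 2 62 (.thr 20 23 (.thr 60 40 (.dbl 3 1 41)))))))))) (.rp 14 (.str 50 (.nv (.thr 53 5 (.thr 63 0 (.thr 58 48 (.thr 54 62 (.thr 55 52 (.dbl 59 8 51)))))) (.nv (.thr 0 63 (.thr 17 29 (.thr 32 47 (.thr 34 51 (.thr 2 18 (.thr 33 35 (.thr 41 45 (.dbl 1 3 61)))))))) (.nv (.thr 53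 5 (.thr 59 8 (.thr 63 0 (.thr 55 51 (.thr 54 52 (.dbl 58 48 62)))))) (.nv (.thr 32 47 (.thr 0 63 (.thr 16 48 (.thr 17 29 (.thr 18 19 (.dbl 34 2 51)))))) (.rp 63 (.str 19 (.nv (.thr 22 28 (.thr 52 7 (.thr 53 5 (.thr 54 55 (.dbl 62 2 58))))) (.nv (.thr 17 29 (.thr 18 16 (.thr 2 34 (.dbl 22 28 62)))) (.rp 62 (.thr 17 29 (.thr 32 47 (.thr 18 16 (.thr 34 2 (.thr 51 0 (.dbl 35 3 33)))))) (.rp 28 (.thr 17 29 (.thr 32 47 (.thr 18 16 (.thr 34 2 (.thr 51 0 (.dbl 35 3 33)))))) (.rp 22 (.thr 17 29 (.thr 32 47 (.thr 18 16 (.thr 34 2 (.thr 51 0 (.dbl 35 3 33)))))) (.rp 2 (.thr 5 53 (.thr 17 29 (.thr 32 47 (.thr 18 16 (.thr 8 59 (.thr 22 28 (.thr 20 23 (.thr 52 7 (.thr 36 4 (.thr 40 44 (.thr 24 56 (.thr 60 0 (.dbl 41 3 43))))))))))))) .nd))))))) (.rp 51 (.thr 53 5 (.thr 63 0 (.thr 58 48 (.thr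 62 54 (.thr 22 2 (.thr 60 61 (.thr 23 20 (.dbl 3 41 43)))))))) (.rp 15 (.thr 17 29 (.thr 0 63 (.thr 34 51 (.thr 18 2 (.thr 16 19 (.dbl 32 47 48)))))) (.rp 0 (.str 52 (.nv (.thr 17 29 (.thr 22 7 (.thr 2 62 (.thr 18 34 (.dbl 19 16 28))))) (.nv (.thr 53 5 (.thr 54 55 (.thr 62 58 (.dbl 22 2 7)))) (.rp 62 (.thr 29 17 (.thr 53 5 (.thr 59 8 (.thr 54 55 (.thr 47 32 (.thr 22 7 (.thr 23 20 (.thr 19 28 (.thr 27 31 (.thr 43 11 (.thr 39 35 (.thr 3 63 (.dbl 41 40 60))))))))))))) (.rp 22 (.thr 53 5 (.thr 59 8 (.thr 54 55 (.thr 58 62 (.thr 48 63 (.dbl 56 57 60)))))) (.rp 7 (.thr 53 5 (.thr 59 8 (.thr 54 55 (.thr 58 62 (.thr 48 63 (.dbl 56 57 60)))))) (.rp 2 (.thr 53 5 (.thr 59 8 (.thr 54 55 (.thr 58 62 (.thr 48 63 (.dbl 56 57 60)))))) .nd))))))) .nd))))))))) (.rp 13 (.thr 29 17 (.thr 63 0 (.thr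 12 46 (.thr 47 32 (.thr 31 15 (.thr 28 30 (.thr 60 44 (.thr 62 61 (.dbl 22 2 19))))))))) (.rp 12 (.thr 29 17 (.thr 63 0 (.thr 47 32 (.thr 31 15 (.thr 28 30 (.thr 22 19 (.thr 62 2 (.thr 60 61 (.thr 23 20 (.dbl 3 41 43)))))))))) (.rp 8 (.thr 29 17 (.thr 63 0 (.thr 12 46 (.thr 47 32 (.thr 31 15 (.thr 28 30 (.thr 60 44 (.thr 62 61 (.dbl 22 2 19))))))))) (.rp 1 (.thr 53 5 (.thr 63 0 (.thr 48 58 (.thr 59 8 (.thr 55 51 (.thr 52 54 (.thr 60 56 (.thr 62 61 (.dbl 22 2 7))))))))) (.rp 0 (.thr 17 29 (.thr 32 47 (.str 22 (.nv (.thr 2 62 (.thr 8 59 (.thr 20 23 (.thr 52 7 (.thr 36 4 (.thr 40 44 (.thr 24 56 (.dbl 28 16 19)))))))) (.nv (.thr 20 23 (.thr 28 19 (.thr 24 16 (.thr 52 7 (.thr 36 4 (.thr 40 44 (.dbl 8 56 59))))))) (.nv (.thr 2 62 (.thr 8 59 (.thr 20 23 (.thr 28 19 (.thr 24 16 (.thr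 40 56 (.thr 36 44 (.dbl 52 4 7)))))))) (.nv (.thr 2 62 (.thr 52 7 (.thr 20 23 (.thr 36 4 (.thr 8 59 (.thr 28 19 (.thr 24 16 (.dbl 40 44 56)))))))) (.rp 59 (.thr 20 23 (.thr 52 7 (.thr 36 4 (.thr 44 40 (.thr 28 19 (.thr 24 16 (.dbl 12 48 60))))))) (.rp 56 (.thr 20 23 (.thr 52 7 (.thr 36 4 (.thr 44 40 (.thr 28 19 (.thr 24 16 (.dbl 12 48 60))))))) (.rp 52 (.thr 20 23 (.thr 8 59 (.thr 28 19 (.thr 24 16 (.thr 40 56 (.thr 41 43 (.thr 44 36 (.dbl 60 3 12)))))))) (.rp 50 (.str 14 (.nv (.thr 2 62 (.thr 7 52 (.thr 6 10 (.dbl 5 4 53)))) (.rp 62 (.thr 52 7 (.thr 20 23 (.thr 36 4 (.thr 44 40 (.thr 28 19 (.thr 24 16 (.dbl 12 48 60))))))) (.rp 58 (.thr 5 53 (.thr 7 52 (.thr 6 4 (.dbl 2 10 62)))) (.rp 54 (.thr 52 7 (.thr 20 23 (.thr 36 4 (.thr 44 40 (.thr 28 19 (.thr 24 16 (.dbl 12 48 60)))))))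 (.rp 53 (.thr 52 7 (.thr 20 23 (.thr 36 4 (.thr 44 40 (.thr 28 19 (.thr 24 16 (.dbl 12 48 60))))))) (.rp 52 (.thr 5 53 (.thr 2 62 (.thr 10 6 (.thr 8 59 (.thr 9 11 (.thr 1 13 (.dbl 41 57 61))))))) (.rp 51 (.str 48 (.nv (.thr 19 28 (.thr 18 16 (.thr 3 33 (.thr 52 7 (.dbl 60 41 56))))) (.nv (.thr 2 62 (.thr 7 52 (.thr 6 10 (.dbl 5 4 53)))) (.rp 52 (.thr 53 5 (.thr 62 2 (.thr 23 20 (.thr 63 58 (.thr 60 61 (.dbl 3 41 43)))))) (.rp 7 (.thr 53 5 (.thr 62 2 (.thr 23 20 (.thr 63 58 (.thr 60 61 (.dbl 3 41 43)))))) .nd))))) (.rp 48 (.str 51 (.nv (.thr 19 28 (.thr 3 35 (.thr 59 8 (.thr 63 55 (.dbl 23 20 43))))) (.nv (.thr 2 62 (.thr 7 52 (.thr 6 10 (.dbl 5 4 53)))) (.rp 4 (.thr 23 20 (.thr 19 28 (.thr 3 35 (.thr 43 63 (.dbl 41 40 60))))) .nd)))) (.rp 10 (.thr 52 7 (.thr 20 23 (.thr 36 4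 (.thr 44 40 (.thr 28 19 (.thr 24 16 (.dbl 12 48 60))))))) (.rp 7 (.thr 5 53 (.thr 2 62 (.thr 10 6 (.thr 8 59 (.thr 9 11 (.thr 1 13 (.dbl 41 57 61))))))) (.rp 6 (.thr 52 7 (.thr 20 23 (.thr 28 19 (.thr 24 16 (.thr 8 59 (.thr 40 56 (.dbl 36 4 44))))))) (.rp 5 (.thr 52 7 (.thr 20 23 (.thr 28 19 (.thr 24 16 (.thr 8 59 (.thr 40 56 (.dbl 36 4 44))))))) (.rp 4 (.thr 5 53 (.thr 2 62 (.thr 10 6 (.thr 8 59 (.thr 9 11 (.thr 1 13 (.dbl 41 57 61))))))) (.rp 2 (.thr 52 7 (.thr 20 23 (.thr 36 4 (.thr 44 40 (.thr 28 19 (.thr 24 16 (.dbl 12 48 60))))))) .nd))))))))))))))) (.rp 44 (.thr 53 5 (.thr 52 7 (.thr 55 54 (.thr 59 8 (.thr 62 2 (.thr 63 51 (.thr 48 58 (.dbl 60 56 61)))))))) (.rp 40 (.thr 53 5 (.thr 52 7 (.thr 55 54 (.thr 59 8 (.thr 62 2 (.thr 63 51 (.thr 48 58 (.dbl 60 56 61)))))))) (.rp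 36 (.thr 53 5 (.thr 52 7 (.thr 55 54 (.thr 59 8 (.thr 62 2 (.thr 63 51 (.thr 48 58 (.dbl 60 56 61)))))))) (.rp 28 (.thr 53 5 (.thr 52 7 (.thr 55 54 (.thr 59 8 (.thr 62 2 (.thr 63 51 (.thr 48 58 (.dbl 60 56 61)))))))) (.rp 24 (.thr 53 5 (.thr 52 7 (.thr 55 54 (.thr 59 8 (.thr 62 2 (.thr 63 51 (.thr 48 58 (.dbl 60 56 61)))))))) (.rp 23 (.thr 53 5 (.thr 52 7 (.thr 55 54 (.thr 59 8 (.thr 62 2 (.thr 63 51 (.thr 48 58 (.dbl 60 56 61)))))))) (.rp 20 (.thr 53 5 (.thr 52 7 (.thr 55 54 (.thr 59 8 (.thr 62 2 (.thr 63 51 (.thr 48 58 (.dbl 60 56 61)))))))) (.rp 19 (.thr 53 5 (.thr 52 7 (.thr 55 54 (.thr 59 8 (.thr 62 2 (.thr 63 51 (.thr 48 58 (.dbl 60 56 61)))))))) (.rp 16 (.thr 53 5 (.thr 52 7 (.thr 55 54 (.thr 59 8 (.thr 62 2 (.thr 63 51 (.thr 48 58 (.dbl 60 56 61)))))))) (.rp 14 (.str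 50 (.nv (.thr 52 7 (.thr 53 5 (.thr 54 55 (.dbl 62 2 58)))) (.nv (.thr 2 62 (.thr 18 34 (.dbl 19 16 28))) (.rp 62 (.thr 19 28 (.thr 18 16 (.thr 34 2 (.thr 33 35 (.thr 3 48 (.dbl 41 45 60)))))) (.rp 2 (.thr 53 5 (.thr 52 7 (.thr 54 55 (.thr 59 8 (.thr 58 62 (.thr 56 57 (.dbl 48 60 63))))))) .nd))))) (.rp 8 (.thr 20 23 (.thr 52 7 (.thr 28 19 (.thr 24 16 (.thr 36 4 (.thr 12 48 (.dbl 44 40 60))))))) (.rp 7 (.thr 20 23 (.thr 8 59 (.thr 28 19 (.thr 24 16 (.thr 40 56 (.thr 41 43 (.thr 44 36 (.dbl 60 3 12)))))))) (.rp 4 (.thr 20 23 (.thr 8 59 (.thr 28 19 (.thr 24 16 (.thr 40 56 (.thr 41 43 (.thr 44 36 (.dbl 60 3 12)))))))) .nd)))))))))))))))))))))))) .nd))))))))))))))))) (.rp 41 .ext (.rp 33 (.thr 29 17 (.thr 5 53 (.thr 13 49 (.thr 1 9 (.dbl 61 41 45))))) (.rp 29 (.str 1 (.nv (.thr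 49 13 (.thr 33 17 (.dbl 41 45 61))) (.nv (.thr 5 53 (.dbl 13 9 49)) (.rp 50 (.str 14 (.nv (.thr 49 13 (.thr 33 17 (.dbl 41 45 61))) (.nv (.thr 5 53 (.dbl 13 9 49)) (.rp 49 (.thr 5 53 (.thr 9 13 (.dbl 41 57 61))) (.rp 13 (.str 8 (.nv (.thr 5 53 (.thr 41 61 (.thr 45 33 (.thr 42 59 (.thr 0 63 (.thr 10 15 (.dbl 9 11 57))))))) (.nv (.thr 41 61 (.thr 45 33 (.thr 42 59 (.thr 0 63 (.thr 3 2 (.thr 40 43 (.dbl 60 20 22))))))) (.nv (.thr 41 61 (.thr 45 33 (.thr 9 57 (.thr 10 11 (.thr 2 6 (.thr 0 3 (.dbl 5 15 53))))))) (.nv (.thr 5 53 (.thr 42 59 (.thr 0 63 (.thr 10 15 (.dbl 2 3 6))))) (.rp 61 (.str 45 (.nv (.thr 41 33 (.thr 9 57 (.thr 10 11 (.thr 2 6 (.thr 42 59 (.dbl 0 3 63)))))) (.nv (.thr 41 33 (.thr 9 57 (.thr 10 11 (.thr 2 6 (.thr 0 3 (.dbl 5 15 53)))))) (.nv (.thr 42 59 (.thr 47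 32 (.thr 63 0 (.thr 15 31 (.thr 30 60 (.dbl 46 44 62)))))) (.rp 0 (.thr 41 33 (.thr 9 57 (.thr 10 11 (.thr 6 2 (.thr 3 12 (.thr 22 60 (.thr 7 52 (.dbl 5 4 53)))))))) .nd))))) (.rp 45 (.thr 61 41 (.thr 5 53 (.thr 42 59 (.thr 0 63 (.thr 10 15 (.dbl 2 3 6)))))) (.rp 0 (.thr 41 61 (.thr 45 33 (.thr 9 57 (.thr 10 11 (.thr 6 2 (.thr 3 12 (.thr 22 60 (.thr 7 52 (.dbl 5 4 53))))))))) .nd)))))))) .nd))))) (.rp 49 (.thr 5 53 (.thr 9 13 (.dbl 41 57 61))) (.rp 14 (.str 50 (.nv (.thr 49 13 (.thr 33 17 (.dbl 41 45 61))) (.nv (.thr 5 53 (.dbl 13 9 49)) (.rp 49 (.thr 5 53 (.thr 9 13 (.dbl 41 57 61))) (.rp 13 (.thr 53 5 (.thr 61 41 (.thr 49 57 (.thr 33 17 (.thr 48 51 (.thr 3 18 (.thr 0 2 (.dbl 63 42 58)))))))) .nd))))) (.rp 13 (.thr 5 53 (.thr 41 61 (.thr 45 33 (.thr 57 9 (.str 0 (.nv (.thr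 15 10 (.thr 42 63 (.thr 40 43 (.dbl 60 20 30)))) (.nv (.thr 3 2 (.thr 15 10 (.dbl 60 22 30))) (.nv (.thr 3 2 (.thr 22 60 (.thr 23 20 (.dbl 63 42 43)))) (.rp 60 (.thr 3 2 (.thr 63 42 (.thr 23 43 (.thr 22 20 (.thr 7 52 (.dbl 15 10 11)))))) (.rp 50 (.str 14 (.nv (.thr 15 10 (.thr 42 63 (.thr 60 30 (.dbl 40 20 43)))) (.nv (.thr 3 2 (.thr 22 60 (.thr 23 20 (.dbl 63 42 43)))) (.nv (.thr 10 15 (.dbl 2 3 6)) .nd)))) (.rp 42 (.thr 3 2 (.thr 22 60 (.thr 7 52 (.dbl 15 10 11)))) (.rp 14 (.str 50 (.nv (.thr 15 10 (.thr 60 30 (.thr 40 20 (.dbl 42 43 63)))) (.nv (.thr 42 63 (.thr 40 43 (.thr 60 20 (.dbl 15 10 30)))) (.nv (.thr 42 63 (.thr 40 43 (.thr 60 20 (.dbl 3 2 22)))) (.nv (.thr 3 2 (.thr 60 22 (.dbl 15 10 30))) (.rp 62 (.thr 3 2 (.thr 60 22 (.thr 42 63 (.dbl 40 20 43)))) (.rp 60 (.thr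 2 3 (.thr 42 63 (.thr 62 22 (.thr 59 8 (.dbl 58 54 56))))) (.rp 42 (.thr 3 2 (.thr 22 60 (.thr 7 52 (.dbl 15 10 11)))) (.rp 15 (.str 12 (.nv (.thr 4 8 (.thr 7 6 (.thr 22 52 (.dbl 3 2 60)))) (.nv (.thr 3 2 (.thr 22 60 (.thr 23 20 (.dbl 63 42 43)))) (.nv (.thr 8 4 (.dbl 42 59 63)) .nd)))) .nd))))))))) (.rp 3 (.thr 15 10 (.thr 60 30 (.thr 40 20 (.dbl 42 43 63)))) .nd))))))))))))) .nd))))))) (.rp 17 (.str 61 (.nv (.thr 13 49 (.thr 45 29 (.dbl 41 1 33))) (.nv (.thr 53 5 (.dbl 49 13 57)) (.rp 50 (.str 14 (.nv (.thr 13 49 (.thr 45 29 (.dbl 41 1 33))) (.nv (.thr 53 5 (.dbl 49 13 57)) (.rp 49 (.thr 5 53 (.thr 1 41 (.thr 13 9 (.thr 45 29 (.thr 15 12 (.thr 60 30 (.thr 63 62 (.dbl 0 10 42)))))))) (.rp 13 (.thr 53 5 (.thr 57 49 (.dbl 41 1 9))) .nd))))) (.rp 49 (.thr 53 5 (.thr 41 1 (.thr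 33 45 (.thr 9 57 (.str 63 (.nv (.thr 42 0 (.thr 43 40 (.thr 3 23 (.dbl 48 18 58)))) (.nv (.thr 48 58 (.thr 3 18 (.dbl 60 22 62))) (.nv (.thr 60 62 (.thr 22 3 (.thr 20 23 (.dbl 0 40 42)))) (.rp 60 (.thr 48 58 (.thr 3 18 (.thr 43 23 (.dbl 42 0 40)))) (.rp 50 (.str 14 (.nv (.thr 48 58 (.thr 3 18 (.thr 43 23 (.dbl 42 0 40)))) (.nv (.thr 0 42 (.thr 60 62 (.thr 22 3 (.dbl 20 23 40)))) (.nv (.thr 42 0 (.thr 43 40 (.thr 3 23 (.dbl 48 18 58)))) (.nv (.thr 60 62 (.thr 3 22 (.dbl 48 18 58))) (.rp 58 (.thr 42 0 (.thr 43 40 (.thr 3 23 (.dbl 60 22 62)))) (.rp 48 (.str 51 (.nv (.thr 55 59 (.thr 52 54 (.thr 22 7 (.dbl 60 3 62)))) (.nv (.thr 0 42 (.thr 60 62 (.thr 20 40 (.dbl 22 3 23)))) (.nv (.thr 59 55 (.dbl 42 0 8)) .nd)))) (.rp 42 (.thr 60 62 (.thr 22 3 (.thr 52 7 (.dbl 48 56 58)))) (.rp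 3 (.thr 62 60 (.thr 42 0 (.thr 2 22 (.thr 8 59 (.dbl 10 6 11))))) .nd))))))))) (.rp 42 (.thr 60 62 (.thr 22 3 (.thr 52 7 (.dbl 48 56 58)))) (.rp 14 (.str 50 (.nv (.thr 42 0 (.thr 48 58 (.thr 3 18 (.dbl 43 23 40)))) (.nv (.thr 42 0 (.thr 43 40 (.thr 3 23 (.dbl 60 22 62)))) (.nv (.thr 58 48 (.dbl 62 54 60)) .nd)))) (.rp 3 (.thr 60 62 (.thr 0 42 (.thr 20 40 (.thr 22 23 (.thr 52 7 (.dbl 48 56 58)))))) .nd))))))))))))) (.rp 14 (.str 50 (.nv (.thr 13 49 (.thr 45 29 (.dbl 41 1 33))) (.nv (.thr 53 5 (.dbl 49 13 57)) (.rp 49 (.str 59 (.nv (.thr 1 41 (.thr 42 8 (.thr 53 5 (.thr 63 0 (.thr 58 48 (.thr 54 62 (.dbl 55 51 52))))))) (.nv (.thr 41 1 (.thr 33 45 (.thr 42 8 (.thr 43 40 (.thr 63 0 (.thr 3 23 (.dbl 60 22 62))))))) (.nv (.thr 41 1 (.thr 33 45 (.thr 57 9 (.thr 58 56 (.thr 62 54 (.thr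 63 60 (.dbl 53 5 48))))))) (.nv (.thr 53 5 (.thr 42 8 (.thr 63 0 (.thr 58 48 (.dbl 62 54 60))))) (.rp 63 (.thr 41 1 (.thr 33 45 (.thr 57 9 (.thr 58 56 (.thr 54 62 (.thr 60 51 (.thr 22 3 (.thr 52 7 (.dbl 53 5 55))))))))) (.rp 62 (.thr 53 5 (.thr 42 8 (.thr 63 0 (.thr 58 48 (.thr 57 56 (.dbl 41 1 9)))))) (.rp 1 (.str 33 (.nv (.thr 41 45 (.thr 42 8 (.thr 43 40 (.thr 63 0 (.thr 3 23 (.dbl 60 22 62)))))) (.nv (.thr 41 45 (.thr 57 9 (.thr 58 56 (.thr 62 54 (.thr 63 60 (.dbl 53 5 48)))))) (.nv (.thr 42 8 (.thr 0 63 (.thr 32 47 (.thr 48 16 (.thr 18 3 (.dbl 34 2 35)))))) (.rp 63 (.thr 41 45 (.thr 57 9 (.thr 58 56 (.thr 54 62 (.thr 60 51 (.thr 22 3 (.thr 52 7 (.dbl 53 5 55)))))))) .nd))))) .nd)))))))) (.rp 13 (.thr 53 5 (.thr 57 49 (.dbl 41 1 9))) .nd))))) (.rp 13 (.thr 53 5 (.thr 57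 49 (.dbl 41 1 9))) .nd))))))) (.rp 14 .ext (.rp 13 (.str 42 (.nv (.thr 17 29 (.thr 32 47 (.thr 0 63 (.thr 34 51 (.thr 33 35 (.thr 1 49 (.dbl 41 45 61))))))) (.nv (.thr 53 5 (.thr 63 0 (.thr 58 48 (.thr 59 8 (.thr 57 56 (.thr 61 49 (.dbl 41 1 9))))))) (.rp 63 (.thr 29 17 (.thr 47 32 (.str 22 (.nv (.thr 2 62 (.thr 7 52 (.thr 19 28 (.thr 23 20 (.thr 27 31 (.thr 59 8 (.thr 43 11 (.dbl 39 35 55)))))))) (.nv (.thr 2 62 (.thr 5 53 (.thr 7 52 (.thr 4 6 (.thr 8 59 (.thr 0 12 (.thr 3 1 (.dbl 15 10 11)))))))) (.nv (.thr 23 20 (.thr 19 28 (.thr 27 31 (.thr 7 52 (.thr 39 55 (.thr 35 43 (.dbl 51 3 15))))))) (.rp 59 (.thr 23 20 (.thr 7 52 (.thr 19 28 (.thr 27 31 (.thr 39 55 (.thr 51 15 (.dbl 35 3 43))))))) (.rp 55 (.thr 23 20 (.thr 59 8 (.thr 19 28 (.thr 27 31 (.thr 43 11 (.thr 41 40 (.thr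 35 39 (.dbl 3 51 60)))))))) (.rp 52 (.thr 23 20 (.thr 59 8 (.thr 19 28 (.thr 27 31 (.thr 43 11 (.thr 41 40 (.thr 35 39 (.dbl 3 51 60)))))))) (.rp 50 (.str 14 (.nv (.thr 2 62 (.thr 5 53 (.thr 6 10 (.dbl 7 4 52)))) (.nv (.thr 62 2 (.thr 30 46 (.dbl 28 19 31))) (.rp 62 (.thr 5 53 (.thr 7 52 (.thr 6 4 (.thr 8 59 (.thr 10 2 (.thr 11 9 (.dbl 15 0 3))))))) (.rp 2 (.thr 28 19 (.thr 30 31 (.thr 46 62 (.thr 45 44 (.thr 60 15 (.dbl 41 3 33)))))) .nd))))) (.rp 14 (.str 50 (.nv (.thr 52 7 (.thr 62 2 (.thr 54 58 (.dbl 53 5 55)))) (.rp 62 (.thr 7 52 (.thr 23 20 (.thr 39 55 (.thr 35 43 (.thr 19 28 (.thr 27 31 (.dbl 51 3 15))))))) (.rp 58 (.thr 7 52 (.thr 23 20 (.thr 39 55 (.thr 35 43 (.thr 19 28 (.thr 27 31 (.dbl 51 3 15))))))) (.rp 55 (.thr 53 5 (.thr 62 2 (.thr 58 54 (.thr 59 8 (.thr 57 56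 (.thr 61 49 (.dbl 41 1 9))))))) (.rp 54 (.thr 7 52 (.thr 23 20 (.thr 19 28 (.thr 27 31 (.thr 59 8 (.thr 43 11 (.dbl 39 35 55))))))) (.rp 53 (.thr 7 52 (.thr 23 20 (.thr 19 28 (.thr 27 31 (.thr 59 8 (.thr 43 11 (.dbl 39 35 55))))))) (.rp 52 (.thr 53 5 (.thr 62 2 (.thr 58 54 (.thr 59 8 (.thr 57 56 (.thr 61 49 (.dbl 41 1 9))))))) (.rp 15 (.str 12 (.nv (.thr 8 59 (.thr 0 4 (.thr 28 19 (.thr 60 44 (.dbl 20 23 40))))) (.nv (.thr 62 2 (.thr 52 7 (.thr 54 58 (.dbl 53 5 55)))) (.rp 55 (.thr 20 23 (.thr 28 19 (.thr 60 44 (.thr 40 0 (.dbl 41 3 43))))) .nd)))) (.rp 12 (.str 15 (.nv (.thr 2 62 (.thr 5 53 (.thr 0 10 (.thr 3 1 (.thr 20 23 (.dbl 60 40 41)))))) (.nv (.thr 7 52 (.thr 3 11 (.thr 28 19 (.thr 30 31 (.dbl 60 41 45))))) (.nv (.thr 52 7 (.thr 62 2 (.thr 54 58 (.dbl 53 5 55)))) .nd))))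 (.rp 10 (.thr 53 5 (.thr 52 7 (.thr 54 55 (.dbl 62 2 58)))) (.rp 7 (.thr 53 5 (.thr 62 2 (.thr 58 54 (.thr 59 8 (.thr 57 56 (.thr 61 49 (.dbl 41 1 9))))))) (.rp 6 (.thr 7 52 (.thr 23 20 (.thr 39 55 (.thr 35 43 (.thr 19 28 (.thr 27 31 (.dbl 51 3 15))))))) (.rp 5 (.thr 7 52 (.thr 23 20 (.thr 39 55 (.thr 35 43 (.thr 19 28 (.thr 27 31 (.dbl 51 3 15))))))) (.rp 2 (.thr 7 52 (.thr 23 20 (.thr 39 55 (.thr 35 43 (.thr 19 28 (.thr 27 31 (.dbl 51 3 15))))))) .nd))))))))))))))) (.rp 7 (.thr 23 20 (.thr 59 8 (.thr 19 28 (.thr 27 31 (.thr 43 11 (.thr 41 40 (.thr 35 39 (.dbl 3 51 60)))))))) (.rp 4 (.thr 23 20 (.thr 59 8 (.thr 19 28 (.thr 27 31 (.thr 43 11 (.thr 39 35 (.dbl 7 52 55))))))) .nd))))))))))))) (.rp 61 (.thr 5 53 (.thr 0 63 (.thr 15 10 (.thr 8 59 (.thr 4 12 (.thr 7 6 (.thr 22 52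 (.thr 3 11 (.dbl 2 1 62))))))))) (.rp 59 (.thr 29 17 (.thr 63 0 (.thr 12 46 (.thr 47 32 (.thr 31 15 (.thr 28 30 (.thr 60 44 (.thr 62 61 (.dbl 22 2 19))))))))) (.rp 51 (.thr 17 29 (.thr 0 63 (.thr 32 47 (.thr 16 48 (.thr 19 18 (.thr 22 28 (.thr 2 62 (.thr 20 23 (.thr 60 40 (.dbl 3 1 41)))))))))) (.rp 50 (.str 14 (.nv (.thr 29 17 (.thr 63 0 (.thr 46 12 (.thr 30 62 (.thr 31 28 (.dbl 47 15 32)))))) (.nv (.thr 0 63 (.thr 5 53 (.thr 10 15 (.thr 2 6 (.thr 3 1 (.thr 22 62 (.thr 20 23 (.dbl 60 40 41)))))))) (.nv (.thr 29 17 (.thr 47 32 (.thr 63 0 (.thr 31 15 (.thr 30 28 (.dbl 46 12 62)))))) (.nv (.thr 8 59 (.thr 0 63 (.thr 4 12 (.thr 5 53 (.thr 6 7 (.dbl 10 2 15)))))) (.rp 63 (.str 7 (.nv (.thr 5 53 (.thr 6 4 (.thr 8 59 (.thr 10 2 (.thr 11 9 (.dbl 15 0 3)))))) (.nv (.thr 22 52 (.thr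 28 19 (.thr 29 17 (.thr 30 31 (.dbl 62 2 46))))) (.nv (.thr 5 53 (.thr 6 4 (.thr 2 10 (.dbl 22 52 62)))) (.rp 2 (.thr 17 29 (.thr 5 53 (.thr 8 59 (.thr 6 4 (.thr 32 47 (.thr 22 52 (.thr 20 23 (.thr 28 19 (.thr 24 16 (.thr 40 56 (.thr 36 44 (.thr 60 0 (.dbl 41 3 43))))))))))))) .nd))))) (.rp 15 (.thr 29 17 (.thr 63 0 (.thr 46 12 (.thr 62 30 (.thr 22 2 (.thr 60 61 (.thr 23 20 (.dbl 3 41 43)))))))) (.rp 0 (.str 28 (.nv (.thr 5 53 (.thr 22 19 (.thr 2 62 (.thr 6 10 (.dbl 7 4 52))))) (.nv (.thr 29 17 (.thr 30 31 (.thr 62 46 (.dbl 22 2 19)))) (.rp 62 (.thr 53 5 (.thr 29 17 (.thr 47 32 (.thr 30 31 (.thr 59 8 (.thr 22 19 (.thr 23 20 (.thr 7 52 (.thr 39 55 (.thr 43 35 (.thr 27 11 (.thr 3 63 (.dbl 41 40 60))))))))))))) (.rp 22 (.thr 29 17 (.thr 47 32 (.thr 30 31 (.thr 46 62 (.thr 12 63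 (.dbl 44 45 60)))))) (.rp 19 (.thr 29 17 (.thr 47 32 (.thr 30 31 (.thr 46 62 (.thr 12 63 (.dbl 44 45 60)))))) (.rp 2 (.thr 29 17 (.thr 47 32 (.thr 30 31 (.thr 46 62 (.thr 12 63 (.dbl 44 45 60)))))) .nd))))))) .nd)))))))) (.rp 49 (.thr 53 5 (.thr 63 0 (.thr 48 58 (.thr 59 8 (.thr 55 51 (.thr 52 54 (.thr 60 56 (.thr 62 61 (.dbl 22 2 7))))))))) (.rp 48 (.thr 53 5 (.thr 63 0 (.thr 59 8 (.thr 55 51 (.thr 52 54 (.thr 22 7 (.thr 62 2 (.thr 60 61 (.thr 23 20 (.dbl 3 41 43)))))))))) (.rp 41 (.thr 53 5 (.thr 63 0 (.thr 48 58 (.thr 59 8 (.thr 55 51 (.thr 52 54 (.thr 22 7 (.thr 62 2 (.dbl 60 56 61))))))))) (.rp 32 (.thr 53 5 (.thr 63 0 (.thr 48 58 (.thr 59 8 (.thr 55 51 (.thr 52 54 (.thr 60 56 (.thr 62 61 (.dbl 22 2 7))))))))) (.rp 15 (.thr 47 32 (.thr 5 53 (.thr 29 17 (.thr 8 59 (.str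 12 (.nv (.dbl 63 0 46) (.rp 63 (.thr 4 0 (.thr 7 6 (.thr 22 52 (.thr 62 2 (.thr 28 19 (.thr 44 60 (.thr 30 31 (.dbl 46 14 45)))))))) (.rp 50 (.str 14 (.nv (.dbl 63 0 46) (.rp 63 (.thr 4 0 (.thr 6 7 (.thr 10 2 (.dbl 9 3 11)))) (.rp 46 (.dbl 0 4 63) (.rp 0 (.thr 46 63 (.thr 30 62 (.thr 28 31 (.dbl 44 45 60)))) .nd))))) (.rp 46 (.dbl 0 4 63) (.rp 14 (.str 50 (.nv (.dbl 0 4 63) (.rp 63 (.thr 4 0 (.thr 7 6 (.thr 22 52 (.thr 28 19 (.thr 44 60 (.thr 45 46 (.thr 41 33 (.thr 40 43 (.thr 24 56 (.thr 48 36 (.dbl 20 16 23))))))))))) (.rp 4 (.dbl 63 0 46) (.rp 0 (.thr 46 63 (.thr 45 44 (.thr 41 33 (.thr 9 57 (.thr 40 43 (.thr 3 6 (.thr 22 60 (.thr 20 23 (.thr 28 19 (.dbl 24 16 56)))))))))) .nd))))) (.rp 0 (.thr 46 63 (.thr 44 45 (.thr 28 60 (.thr 30 31 (.thr 22 19 (.dbl 62 2 14)))))) .nd)))))))))))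 (.rp 14 (.str 50 (.nv (.thr 53 5 (.thr 59 8 (.thr 63 0 (.thr 48 58 (.dbl 51 49 55))))) (.nv (.thr 32 47 (.thr 0 63 (.thr 48 16 (.thr 51 49 (.dbl 17 29 34))))) (.rp 63 (.str 19 (.nv (.thr 22 28 (.thr 52 7 (.thr 53 5 (.thr 54 55 (.dbl 62 2 58))))) (.nv (.thr 17 29 (.thr 18 16 (.thr 2 34 (.dbl 22 28 62)))) (.rp 62 (.thr 17 29 (.thr 32 47 (.thr 18 16 (.thr 34 2 (.thr 51 0 (.dbl 35 3 33)))))) (.rp 28 (.thr 17 29 (.thr 32 47 (.thr 18 16 (.thr 34 2 (.thr 51 0 (.dbl 35 3 33)))))) (.rp 22 (.thr 17 29 (.thr 32 47 (.thr 18 16 (.thr 34 2 (.thr 51 0 (.dbl 35 3 33)))))) (.rp 15 (.str 12 (.nv (.thr 8 59 (.thr 0 4 (.thr 17 29 (.thr 18 16 (.dbl 34 2 51))))) (.nv (.thr 5 53 (.thr 8 59 (.thr 4 0 (.thr 22 28 (.dbl 7 6 52))))) (.nv (.thr 17 29 (.thr 18 16 (.thr 2 34 (.dbl 22 28 62)))) (.rp 47 (.str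 31 (.nv (.thr 22 28 (.dbl 23 20 27)) (.nv (.thr 29 17 (.dbl 28 22 30)) (.rp 28 (.thr 17 29 (.thr 23 27 (.thr 22 20 (.thr 2 62 (.dbl 18 16 34))))) (.rp 22 (.thr 17 29 (.thr 18 16 (.thr 8 59 (.thr 0 4 (.dbl 34 2 51))))) .nd))))) (.rp 31 (.thr 47 32 (.thr 17 29 (.thr 18 16 (.thr 2 34 (.dbl 22 28 62))))) .nd)))))) (.rp 12 (.str 15 (.nv (.thr 5 53 (.thr 0 10 (.thr 32 47 (.thr 48 16 (.thr 51 49 (.dbl 17 29 34)))))) (.nv (.thr 5 53 (.thr 8 59 (.thr 10 0 (.thr 11 9 (.thr 22 28 (.dbl 7 3 52)))))) (.nv (.thr 22 28 (.thr 2 62 (.thr 18 34 (.dbl 17 16 29)))) (.rp 46 (.thr 29 17 (.thr 53 5 (.thr 22 28 (.thr 62 2 (.thr 54 58 (.dbl 52 7 55)))))) (.rp 29 (.str 46 (.nv (.thr 5 53 (.thr 8 59 (.thr 10 0 (.thr 9 11 (.thr 41 57 (.thr 45 33 (.dbl 47 32 44))))))) (.nv (.thr 5 53 (.thr 8 59 (.thr 10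 0 (.thr 11 9 (.thr 7 3 (.thr 6 4 (.dbl 22 28 52))))))) (.nv (.thr 47 32 (.thr 45 44 (.thr 41 33 (.thr 22 28 (.dbl 60 3 30))))) (.rp 61 (.str 45 (.nv (.thr 60 30 (.thr 41 33 (.dbl 22 3 28))) (.nv (.dbl 47 32 44) (.rp 60 (.str 62 (.nv (.dbl 47 32 44) (.nv (.dbl 22 2 28) (.rp 44 (.thr 28 22 (.thr 41 33 (.thr 57 9 (.thr 59 8 (.dbl 58 54 56))))) (.rp 28 (.thr 44 47 (.thr 41 33 (.thr 57 9 (.thr 58 54 (.dbl 59 8 56))))) .nd))))) .nd)))) (.rp 45 (.str 61 (.nv (.thr 22 28 (.thr 7 52 (.thr 23 20 (.thr 39 55 (.dbl 27 31 51))))) (.nv (.thr 53 5 (.thr 57 49 (.dbl 41 1 9))) (.rp 53 (.thr 41 1 (.thr 22 28 (.thr 7 52 (.dbl 3 11 60)))) .nd)))) .nd)))))) .nd)))))) (.rp 2 (.thr 53 5 (.thr 17 29 (.thr 32 47 (.thr 16 18 (.thr 48 0 (.thr 49 51 (.thr 1 33 (.dbl 61 41 57)))))))) .nd))))))))) (.rp 51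 (.thr 53 5 (.thr 63 0 (.thr 58 48 (.thr 62 54 (.thr 61 60 (.thr 57 49 (.dbl 41 1 9))))))) (.rp 49 (.thr 17 29 (.thr 0 63 (.thr 34 51 (.thr 18 2 (.thr 32 47 (.dbl 16 19 48)))))) (.rp 48 (.thr 17 29 (.thr 0 63 (.thr 34 51 (.thr 2 18 (.thr 32 47 (.thr 33 35 (.dbl 1 3 49))))))) (.rp 15 (.str 12 (.nv (.thr 0 63 (.dbl 8 4 59)) (.nv (.thr 29 17 (.dbl 63 0 46)) (.rp 63 (.thr 17 29 (.thr 8 59 (.thr 0 4 (.thr 51 34 (.thr 48 49 (.dbl 32 16 47)))))) (.rp 0 (.thr 29 17 (.thr 63 46 (.thr 59 8 (.thr 51 55 (.thr 48 49 (.dbl 53 5 58)))))) .nd))))) (.rp 12 (.str 15 (.nv (.thr 47 32 (.dbl 63 0 31)) (.nv (.thr 5 53 (.dbl 0 10 63)) (.rp 63 (.thr 5 53 (.thr 0 10 (.thr 32 47 (.thr 48 16 (.thr 51 49 (.dbl 17 29 34)))))) (.rp 0 (.thr 53 5 (.thr 47 32 (.thr 63 31 (.thr 48 58 (.thr 51 49 (.dbl 59 8 55))))))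 .nd))))) (.rp 0 (.str 52 (.nv (.thr 17 29 (.thr 22 7 (.thr 2 62 (.thr 18 34 (.dbl 19 16 28))))) (.nv (.thr 53 5 (.thr 54 55 (.thr 62 58 (.dbl 22 2 7)))) (.rp 62 (.thr 17 29 (.thr 53 5 (.thr 59 8 (.thr 55 54 (.thr 51 63 (.thr 49 48 (.thr 61 57 (.dbl 1 33 41)))))))) (.rp 22 (.thr 53 5 (.thr 59 8 (.thr 54 55 (.thr 58 62 (.thr 48 63 (.dbl 56 57 60)))))) (.rp 15 (.str 12 (.nv (.thr 5 53 (.thr 17 29 (.thr 22 7 (.thr 2 62 (.thr 18 34 (.dbl 19 16 28)))))) (.nv (.thr 22 7 (.thr 20 23 (.thr 28 19 (.thr 24 16 (.dbl 36 4 48))))) (.nv (.thr 22 7 (.thr 62 2 (.thr 54 58 (.dbl 53 5 55)))) (.rp 22 (.thr 29 17 (.thr 63 46 (.thr 59 8 (.thr 51 55 (.thr 48 49 (.dbl 53 5 58)))))) (.rp 11 (.thr 29 17 (.thr 63 46 (.thr 59 8 (.thr 51 55 (.thr 48 49 (.dbl 53 5 58)))))) (.rp 7 (.thr 29 17 (.thr 63 46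 (.thr 59 8 (.thr 51 55 (.thr 48 49 (.dbl 53 5 58)))))) (.rp 5 (.str 10 (.nv (.thr 8 59 (.thr 9 11 (.thr 29 17 (.thr 41 57 (.thr 45 33 (.thr 46 63 (.dbl 47 32 44))))))) (.nv (.thr 17 29 (.thr 22 7 (.thr 19 28 (.thr 18 16 (.dbl 2 34 62))))) (.nv (.thr 8 59 (.thr 9 11 (.thr 41 57 (.thr 22 7 (.dbl 3 6 60))))) (.rp 11 (.thr 29 17 (.thr 46 63 (.thr 47 32 (.thr 44 45 (.thr 28 60 (.thr 30 31 (.dbl 22 7 19))))))) (.rp 9 (.str 1 (.nv (.thr 22 7 (.thr 20 23 (.thr 28 19 (.thr 24 16 (.dbl 36 4 48))))) (.nv (.thr 17 29 (.thr 33 49 (.dbl 41 45 61))) (.rp 17 (.thr 41 61 (.thr 22 7 (.thr 28 19 (.dbl 60 3 44)))) .nd)))) (.rp 7 (.thr 29 17 (.thr 46 63 (.thr 47 32 (.thr 45 44 (.thr 41 33 (.thr 9 57 (.dbl 8 11 59))))))) (.rp 3 (.thr 29 17 (.thr 46 63 (.thr 47 32 (.thr 44 45 (.thr 28 60 (.thr 30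 31 (.dbl 22 7 19))))))) (.rp 1 (.str 9 (.nv (.thr 3 6 (.thr 41 57 (.dbl 22 7 60))) (.nv (.dbl 8 11 59) (.rp 3 (.str 2 (.nv (.dbl 8 11 59) (.nv (.dbl 22 7 62) (.rp 11 (.thr 7 22 (.thr 41 57 (.thr 33 45 (.thr 32 47 (.dbl 34 18 35))))) (.rp 7 (.thr 11 8 (.thr 41 57 (.thr 33 45 (.thr 34 18 (.dbl 32 35 47))))) .nd))))) .nd)))) .nd))))))))) (.rp 3 (.thr 29 17 (.thr 63 46 (.thr 59 8 (.thr 51 55 (.thr 48 49 (.dbl 53 5 58)))))) .nd))))))))) (.rp 12 (.str 15 (.nv (.thr 47 32 (.thr 53 5 (.thr 54 55 (.thr 58 62 (.dbl 63 31 48))))) (.nv (.thr 8 59 (.thr 22 7 (.thr 19 28 (.thr 23 20 (.thr 31 27 (.dbl 47 32 63)))))) (.nv (.thr 53 5 (.thr 54 55 (.thr 62 58 (.dbl 22 2 7)))) (.rp 8 (.str 4 (.nv (.thr 20 36 (.dbl 22 7 23)) (.nv (.thr 5 53 (.dbl 7 6 22)) (.rp 22 (.thr 53 5 (.thr 54 55 (.thr 47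 32 (.thr 63 31 (.dbl 58 48 62))))) (.rp 7 (.thr 53 5 (.thr 20 36 (.thr 22 23 (.thr 62 2 (.dbl 54 55 58))))) .nd))))) .nd))))) (.rp 7 (.thr 53 5 (.thr 59 8 (.thr 54 55 (.thr 58 62 (.thr 48 63 (.dbl 56 57 60)))))) (.rp 2 (.thr 53 5 (.thr 59 8 (.thr 54 55 (.thr 58 62 (.thr 48 63 (.dbl 56 57 60)))))) .nd))))))))) .nd)))))))))) (.rp 12 (.thr 8 59 (.thr 29 17 (.thr 5 53 (.thr 47 32 (.str 15 (.nv (.dbl 0 10 63) (.rp 63 (.thr 10 0 (.thr 11 9 (.thr 7 3 (.thr 6 4 (.thr 22 52 (.dbl 2 14 62)))))) (.rp 50 (.str 14 (.nv (.dbl 0 10 63) (.rp 63 (.thr 10 0 (.thr 6 2 (.thr 7 4 (.dbl 11 3 9)))) (.rp 10 (.dbl 63 0 31) (.rp 0 (.thr 31 63 (.thr 30 28 (.thr 46 62 (.dbl 45 44 60)))) .nd))))) (.rp 14 (.str 50 (.nv (.dbl 63 0 31) (.rp 63 (.thr 10 0 (.thr 9 11 (.thr 41 57 (.thr 45 33 (.thr 43 40 (.thr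 60 30 (.thr 22 3 (.thr 23 20 (.thr 7 52 (.dbl 39 35 55)))))))))) (.rp 31 (.dbl 0 10 63) (.rp 0 (.thr 31 63 (.thr 28 30 (.thr 22 19 (.thr 7 52 (.thr 11 3 (.thr 9 10 (.thr 41 57 (.thr 43 40 (.thr 39 35 (.thr 51 27 (.dbl 23 20 55))))))))))) .nd))))) (.rp 10 (.dbl 63 0 31) (.rp 0 (.thr 31 63 (.thr 28 30 (.thr 22 19 (.thr 2 62 (.thr 7 52 (.thr 11 3 (.thr 6 4 (.dbl 10 9 14)))))))) .nd))))))))))) (.rp 1 (.thr 29 17 (.thr 63 0 (.thr 12 46 (.thr 47 32 (.thr 31 15 (.thr 28 30 (.thr 60 44 (.thr 62 61 (.dbl 22 2 19))))))))) (.rp 0 (.thr 5 53 (.thr 8 59 (.str 22 (.nv (.thr 20 23 (.thr 28 19 (.thr 24 16 (.thr 32 47 (.thr 52 7 (.thr 36 4 (.dbl 40 44 56))))))) (.rp 56 (.thr 29 17 (.thr 28 19 (.thr 31 30 (.thr 47 32 (.thr 62 2 (.thr 63 15 (.thr 12 46 (.dbl 60 44 61)))))))) (.rp 55 (.thr 20 23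 (.thr 28 19 (.thr 24 16 (.thr 32 47 (.thr 40 56 (.thr 36 44 (.dbl 52 4 7))))))) (.rp 52 (.thr 29 17 (.thr 28 19 (.thr 31 30 (.thr 47 32 (.thr 62 2 (.thr 63 15 (.thr 12 46 (.dbl 60 44 61)))))))) (.rp 50 (.str 14 (.nv (.thr 28 19 (.thr 29 17 (.thr 30 31 (.dbl 62 2 46)))) (.nv (.thr 2 62 (.thr 6 10 (.dbl 7 4 52))) (.rp 62 (.thr 7 52 (.thr 6 4 (.thr 10 2 (.thr 9 11 (.thr 3 12 (.dbl 41 57 60)))))) (.rp 2 (.thr 29 17 (.thr 28 19 (.thr 30 31 (.thr 47 32 (.thr 46 62 (.thr 44 45 (.dbl 12 60 63))))))) .nd))))) (.rp 47 (.thr 20 23 (.thr 28 19 (.thr 24 16 (.thr 56 40 (.thr 52 7 (.thr 36 4 (.dbl 48 12 60))))))) (.rp 44 (.thr 20 23 (.thr 28 19 (.thr 24 16 (.thr 56 40 (.thr 52 7 (.thr 36 4 (.dbl 48 12 60))))))) (.rp 40 (.thr 29 17 (.thr 28 19 (.thr 31 30 (.thr 47 32 (.thr 62 2 (.thr 63 15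 (.thr 12 46 (.dbl 60 44 61)))))))) (.rp 39 (.thr 20 23 (.thr 28 19 (.thr 24 16 (.thr 32 47 (.thr 40 56 (.thr 36 44 (.dbl 52 4 7))))))) (.rp 36 (.thr 29 17 (.thr 28 19 (.thr 31 30 (.thr 47 32 (.thr 62 2 (.thr 63 15 (.thr 12 46 (.dbl 60 44 61)))))))) (.rp 32 (.thr 20 23 (.thr 28 19 (.thr 52 7 (.thr 36 4 (.thr 24 16 (.thr 48 12 (.dbl 56 40 60))))))) (.rp 31 (.thr 20 23 (.thr 32 47 (.thr 52 7 (.thr 36 4 (.thr 40 44 (.thr 24 56 (.dbl 28 16 19))))))) (.rp 28 (.thr 20 23 (.thr 32 47 (.thr 52 7 (.thr 36 4 (.thr 40 44 (.thr 41 43 (.thr 56 24 (.dbl 60 3 48)))))))) (.rp 27 (.thr 20 23 (.thr 32 47 (.thr 52 7 (.thr 36 4 (.thr 40 44 (.thr 24 56 (.dbl 28 16 19))))))) (.rp 24 (.thr 29 17 (.thr 28 19 (.thr 31 30 (.thr 47 32 (.thr 62 2 (.thr 63 15 (.thr 12 46 (.dbl 60 44 61)))))))) (.rp 23 (.thr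 29 17 (.thr 28 19 (.thr 31 30 (.thr 47 32 (.thr 62 2 (.thr 63 15 (.thr 12 46 (.dbl 60 44 61)))))))) (.rp 20 (.thr 29 17 (.thr 28 19 (.thr 31 30 (.thr 47 32 (.thr 62 2 (.thr 63 15 (.thr 12 46 (.dbl 60 44 61)))))))) (.rp 19 (.thr 20 23 (.thr 32 47 (.thr 52 7 (.thr 36 4 (.thr 40 44 (.thr 41 43 (.thr 56 24 (.dbl 60 3 48)))))))) (.rp 18 (.thr 20 23 (.thr 28 19 (.thr 32 47 (.thr 52 7 (.thr 36 4 (.thr 40 44 (.dbl 24 16 56))))))) (.rp 17 (.thr 20 23 (.thr 28 19 (.thr 32 47 (.thr 52 7 (.thr 36 4 (.thr 40 44 (.dbl 24 16 56))))))) (.rp 16 (.thr 20 23 (.thr 32 47 (.thr 52 7 (.thr 36 4 (.thr 40 44 (.thr 41 43 (.thr 56 24 (.dbl 60 3 48)))))))) (.rp 14 (.str 50 (.nv (.thr 2 62 (.thr 19 28 (.thr 18 34 (.dbl 17 16 29)))) (.rp 62 (.thr 28 19 (.thr 20 23 (.thr 24 16 (.thr 56 40 (.thr 52 7 (.thr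 36 4 (.dbl 48 12 60))))))) (.rp 46 (.thr 17 29 (.thr 19 28 (.thr 18 16 (.dbl 2 34 62)))) (.rp 34 (.thr 28 19 (.thr 20 23 (.thr 24 16 (.thr 56 40 (.thr 52 7 (.thr 36 4 (.dbl 48 12 60))))))) (.rp 30 (.thr 28 19 (.thr 20 23 (.thr 24 16 (.thr 56 40 (.thr 52 7 (.thr 36 4 (.dbl 48 12 60))))))) (.rp 29 (.thr 28 19 (.thr 20 23 (.thr 24 16 (.thr 56 40 (.thr 52 7 (.thr 36 4 (.dbl 48 12 60))))))) (.rp 28 (.thr 17 29 (.thr 2 62 (.thr 34 18 (.thr 32 47 (.thr 33 35 (.thr 1 49 (.dbl 41 45 61))))))) (.rp 19 (.thr 17 29 (.thr 2 62 (.thr 34 18 (.thr 32 47 (.thr 33 35 (.thr 1 49 (.dbl 41 45 61))))))) (.rp 18 (.thr 28 19 (.thr 20 23 (.thr 52 7 (.thr 36 4 (.thr 32 47 (.thr 40 44 (.dbl 24 16 56))))))) (.rp 17 (.thr 28 19 (.thr 20 23 (.thr 52 7 (.thr 36 4 (.thr 32 47 (.thr 40 44 (.dbl 24 16 56)))))))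 (.rp 16 (.thr 17 29 (.thr 2 62 (.thr 34 18 (.thr 32 47 (.thr 33 35 (.thr 1 49 (.dbl 41 45 61))))))) (.rp 15 (.str 12 (.nv (.thr 7 52 (.thr 6 4 (.thr 3 9 (.thr 28 19 (.dbl 60 41 44))))) (.nv (.thr 2 62 (.thr 19 28 (.thr 18 34 (.dbl 17 16 29)))) (.rp 28 (.thr 29 17 (.thr 62 2 (.thr 23 20 (.thr 63 46 (.thr 60 61 (.dbl 3 41 43)))))) (.rp 19 (.thr 29 17 (.thr 62 2 (.thr 23 20 (.thr 63 46 (.thr 60 61 (.dbl 3 41 43)))))) .nd))))) (.rp 12 (.str 15 (.nv (.thr 7 52 (.thr 3 11 (.thr 47 32 (.thr 63 31 (.dbl 23 20 43))))) (.nv (.thr 2 62 (.thr 19 28 (.thr 18 34 (.dbl 17 16 29)))) (.rp 16 (.thr 23 20 (.thr 7 52 (.thr 3 11 (.thr 43 63 (.dbl 41 40 60))))) .nd)))) (.rp 2 (.thr 28 19 (.thr 20 23 (.thr 24 16 (.thr 56 40 (.thr 52 7 (.thr 36 4 (.dbl 48 12 60))))))) .nd))))))))))))))) (.rp 7 (.thr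 29 17 (.thr 28 19 (.thr 31 30 (.thr 47 32 (.thr 62 2 (.thr 63 15 (.thr 12 46 (.dbl 60 44 61)))))))) (.rp 4 (.thr 29 17 (.thr 28 19 (.thr 31 30 (.thr 47 32 (.thr 62 2 (.thr 63 15 (.thr 12 46 (.dbl 60 44 61)))))))) .nd))))))))))))))))))))))))))) .nd))))))))))))))))) (.rp 9 (.thr 17 29 (.thr 53 5 (.thr 49 13 (.thr 1 33 (.dbl 61 41 57))))) (.rp 5 (.str 61 (.nv (.thr 49 13 (.thr 57 53 (.dbl 41 1 9))) (.nv (.thr 29 17 (.dbl 13 45 49)) (.rp 50 (.str 14 (.nv (.thr 49 13 (.thr 57 53 (.dbl 41 1 9))) (.nv (.thr 29 17 (.dbl 13 45 49)) (.rp 49 (.thr 29 17 (.thr 45 13 (.dbl 41 1 33))) (.rp 13 (.str 47 (.nv (.thr 1 41 (.thr 29 17 (.thr 42 32 (.thr 63 0 (.thr 46 12 (.thr 30 62 (.dbl 31 15 28))))))) (.nv (.thr 41 1 (.thr 9 57 (.thr 42 32 (.thr 43 40 (.thr 63 0 (.thr 3 23 (.dbl 60 22 62)))))))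 (.nv (.thr 41 1 (.thr 9 57 (.thr 42 32 (.thr 45 33 (.thr 46 44 (.thr 62 30 (.dbl 63 0 60))))))) (.nv (.thr 29 17 (.thr 42 32 (.thr 63 0 (.thr 46 12 (.dbl 62 30 60))))) (.rp 63 (.thr 41 1 (.thr 9 57 (.thr 45 33 (.thr 46 44 (.thr 30 62 (.thr 60 15 (.thr 22 3 (.thr 28 19 (.dbl 29 17 31))))))))) (.rp 62 (.thr 29 17 (.thr 42 32 (.thr 63 0 (.thr 46 12 (.thr 45 44 (.dbl 41 1 33)))))) (.rp 42 (.thr 41 1 (.thr 9 57 (.thr 45 33 (.thr 46 44 (.thr 62 30 (.thr 63 60 (.dbl 29 12 17))))))) (.rp 32 (.thr 41 1 (.thr 9 57 (.thr 45 33 (.thr 46 44 (.thr 62 30 (.thr 63 60 (.dbl 29 12 17))))))) (.rp 1 (.str 9 (.nv (.thr 41 57 (.thr 42 32 (.thr 43 40 (.thr 63 0 (.thr 3 23 (.dbl 60 22 62)))))) (.nv (.thr 41 57 (.thr 45 33 (.thr 46 44 (.thr 62 30 (.thr 63 60 (.dbl 29 12 17)))))) (.nv (.thr 42 32 (.thr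 0 63 (.thr 8 59 (.thr 12 4 (.thr 6 3 (.dbl 10 2 11)))))) (.rp 63 (.thr 41 57 (.thr 45 33 (.thr 46 44 (.thr 30 62 (.thr 60 15 (.thr 22 3 (.thr 28 19 (.dbl 29 17 31)))))))) .nd))))) (.rp 0 (.thr 41 1 (.thr 9 57 (.thr 45 33 (.thr 46 44 (.thr 62 30 (.thr 63 60 (.dbl 29 12 17))))))) .nd))))))))))) .nd))))) (.rp 49 (.thr 29 17 (.thr 45 13 (.dbl 41 1 33))) (.rp 14 (.str 50 (.nv (.thr 49 13 (.thr 57 53 (.dbl 41 1 9))) (.nv (.thr 29 17 (.dbl 13 45 49)) (.rp 49 (.thr 29 17 (.thr 45 13 (.dbl 41 1 33))) (.rp 13 (.thr 17 29 (.thr 1 41 (.thr 49 33 (.thr 57 53 (.thr 51 48 (.thr 60 54 (.thr 63 62 (.dbl 0 34 42)))))))) .nd))))) (.rp 13 (.thr 29 17 (.thr 41 1 (.thr 9 57 (.thr 33 45 (.str 63 (.nv (.thr 12 46 (.thr 3 6 (.thr 42 0 (.dbl 43 23 40)))) (.nv (.thr 12 46 (.thr 3 6 (.dbl 60 22 62))) (.nv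 (.thr 60 62 (.thr 22 3 (.thr 20 23 (.dbl 0 40 42)))) (.rp 50 (.str 14 (.nv (.thr 42 0 (.thr 43 40 (.thr 3 23 (.dbl 60 22 62)))) (.nv (.thr 12 46 (.thr 3 6 (.thr 42 0 (.dbl 43 23 40)))) (.nv (.thr 46 12 (.dbl 62 30 60)) .nd)))) (.rp 42 (.thr 60 62 (.thr 22 3 (.thr 28 19 (.dbl 12 44 46)))) (.rp 22 (.thr 12 46 (.thr 42 0 (.thr 43 40 (.dbl 3 6 23)))) (.rp 14 (.str 50 (.nv (.thr 12 46 (.thr 3 6 (.thr 43 23 (.dbl 42 0 40)))) (.nv (.thr 0 42 (.thr 60 62 (.thr 22 3 (.dbl 20 23 40)))) (.nv (.thr 42 0 (.thr 43 40 (.thr 3 23 (.dbl 12 6 46)))) (.nv (.thr 60 62 (.thr 3 22 (.dbl 12 6 46))) (.rp 46 (.thr 42 0 (.thr 43 40 (.thr 3 23 (.dbl 60 22 62)))) (.rp 42 (.thr 60 62 (.thr 22 3 (.thr 28 19 (.dbl 12 44 46)))) (.rp 12 (.str 15 (.nv (.thr 31 47 (.thr 28 30 (.thr 22 19 (.dbl 60 3 62)))) (.nv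 (.thr 0 42 (.thr 60 62 (.thr 20 40 (.dbl 22 3 23)))) (.nv (.thr 47 31 (.dbl 42 0 32)) .nd)))) (.rp 3 (.thr 62 60 (.thr 42 0 (.thr 2 22 (.thr 32 47 (.dbl 34 18 35))))) .nd))))))))) (.rp 3 (.thr 60 62 (.thr 0 42 (.thr 20 40 (.thr 22 23 (.thr 28 19 (.dbl 12 44 46)))))) .nd))))))))))))) .nd))))))) (.rp 1 (.str 42 (.nv (.thr 47 32 (.thr 63 0 (.thr 15 31 (.thr 29 17 (.thr 12 46 (.dbl 13 14 49)))))) (.nv (.thr 0 63 (.thr 5 53 (.thr 8 59 (.thr 12 4 (.thr 15 10 (.dbl 13 14 49)))))) (.rp 63 (.str 22 (.nv (.thr 20 23 (.thr 19 28 (.thr 17 29 (.thr 16 18 (.thr 32 47 (.thr 0 48 (.thr 13 49 (.thr 51 34 (.thr 3 35 (.dbl 60 40 41)))))))))) (.nv (.thr 59 8 (.thr 19 28 (.thr 23 20 (.thr 27 31 (.thr 43 11 (.thr 47 32 (.thr 35 39 (.thr 3 51 (.dbl 41 40 60))))))))) (.rp 60 (.thr 17 29 (.thr 53 5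 (.thr 13 49 (.thr 62 2 (.thr 7 52 (.thr 23 20 (.thr 39 55 (.thr 19 28 (.thr 16 18 (.thr 47 32 (.thr 43 35 (.thr 59 8 (.dbl 27 11 31))))))))))))) (.rp 51 (.thr 17 29 (.thr 53 5 (.thr 13 49 (.thr 62 2 (.thr 7 52 (.thr 23 20 (.thr 39 55 (.thr 59 8 (.thr 19 28 (.thr 16 18 (.thr 47 32 (.thr 43 35 (.dbl 27 11 31))))))))))))) (.rp 50 (.str 14 (.nv (.thr 28 19 (.thr 29 17 (.thr 30 31 (.dbl 62 2 46)))) (.nv (.thr 2 62 (.thr 6 10 (.thr 7 52 (.dbl 5 4 53)))) (.rp 62 (.thr 5 53 (.thr 7 52 (.thr 6 4 (.thr 13 49 (.thr 15 12 (.dbl 10 0 2)))))) (.rp 2 (.thr 5 53 (.thr 7 52 (.thr 4 6 (.thr 8 59 (.thr 13 49 (.dbl 12 0 15)))))) .nd))))) (.rp 47 (.thr 17 29 (.thr 53 5 (.thr 13 49 (.thr 62 2 (.thr 52 7 (.thr 55 54 (.thr 20 23 (.thr 28 19 (.thr 24 16 (.thr 8 59 (.thr 56 40 (.thr 48 60 (.dbl 36 4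 12))))))))))))) (.rp 43 (.thr 17 29 (.thr 53 5 (.thr 13 49 (.thr 62 2 (.thr 52 7 (.thr 54 55 (.thr 50 58 (.thr 23 20 (.thr 19 28 (.thr 31 27 (.thr 16 18 (.thr 32 47 (.thr 0 48 (.thr 51 34 (.thr 60 57 (.dbl 3 35 41)))))))))))))))) (.rp 41 (.thr 17 29 (.thr 53 5 (.thr 13 49 (.thr 62 2 (.thr 7 52 (.thr 23 20 (.thr 39 55 (.thr 19 28 (.thr 47 32 (.thr 35 43 (.thr 51 3 (.thr 0 34 (.dbl 27 15 31))))))))))))) (.rp 40 (.thr 17 29 (.thr 53 5 (.thr 13 49 (.thr 62 2 (.thr 7 52 (.thr 23 20 (.thr 39 55 (.thr 19 28 (.thr 16 18 (.thr 47 32 (.thr 43 35 (.thr 59 8 (.dbl 27 11 31))))))))))))) (.rp 39 (.thr 17 29 (.thr 53 5 (.thr 13 49 (.thr 62 2 (.thr 7 52 (.thr 20 23 (.thr 19 28 (.thr 16 18 (.thr 32 47 (.thr 0 48 (.thr 60 40 (.thr 3 41 (.dbl 51 34 35))))))))))))) (.rp 35 (.thr 17 29 (.thr 53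 5 (.thr 13 49 (.thr 62 2 (.thr 7 52 (.thr 20 23 (.thr 28 19 (.thr 16 24 (.thr 32 47 (.thr 0 48 (.thr 51 34 (.thr 60 40 (.thr 57 54 (.dbl 41 3 9)))))))))))))) (.rp 32 (.thr 17 29 (.thr 53 5 (.thr 13 49 (.thr 62 2 (.thr 52 7 (.thr 55 54 (.thr 20 23 (.thr 28 19 (.thr 24 16 (.thr 8 59 (.thr 56 40 (.thr 48 60 (.dbl 36 4 12))))))))))))) (.rp 31 (.thr 17 29 (.thr 53 5 (.thr 13 49 (.thr 62 2 (.thr 7 52 (.thr 23 20 (.thr 39 55 (.thr 28 19 (.thr 47 32 (.thr 43 35 (.thr 41 40 (.thr 33 45 (.thr 57 9 (.thr 59 8 (.thr 11 27 (.dbl 3 15 60)))))))))))))))) (.rp 30 (.thr 17 29 (.thr 53 5 (.thr 13 49 (.thr 62 2 (.thr 7 52 (.thr 23 20 (.thr 39 55 (.thr 19 28 (.thr 31 27 (.thr 47 32 (.thr 35 43 (.thr 3 51 (.thr 59 8 (.thr 15 11 (.thr 41 60 (.thr 33 45 (.dbl 18 16 48))))))))))))))))) (.rp 29 (.thr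 53 5 (.thr 13 49 (.thr 62 2 (.thr 7 52 (.thr 23 20 (.thr 39 55 (.thr 19 28 (.thr 47 32 (.thr 43 35 (.thr 41 40 (.thr 33 45 (.thr 57 9 (.thr 59 8 (.dbl 27 11 31)))))))))))))) (.rp 28 (.thr 17 29 (.thr 53 5 (.thr 13 49 (.thr 62 2 (.thr 7 52 (.thr 23 20 (.thr 39 55 (.thr 47 32 (.thr 43 35 (.thr 41 40 (.thr 33 45 (.thr 57 9 (.thr 59 8 (.thr 11 27 (.dbl 3 15 60))))))))))))))) (.rp 23 (.thr 17 29 (.thr 53 5 (.thr 13 49 (.thr 2 62 (.thr 7 52 (.thr 19 28 (.thr 16 18 (.thr 32 47 (.thr 0 48 (.thr 51 34 (.thr 3 35 (.thr 15 11 (.thr 8 59 (.dbl 12 4 14)))))))))))))) (.rp 20 (.thr 17 29 (.thr 53 5 (.thr 13 49 (.thr 62 2 (.thr 52 7 (.thr 54 55 (.thr 50 58 (.thr 19 28 (.thr 16 18 (.thr 32 47 (.thr 0 48 (.thr 51 34 (.thr 3 35 (.dbl 60 41 57)))))))))))))) (.rp 19 (.thr 17 29 (.thr 53 5 (.thr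 13 49 (.thr 62 2 (.thr 7 52 (.thr 23 20 (.thr 39 55 (.thr 47 32 (.thr 43 35 (.thr 41 40 (.thr 33 45 (.thr 57 9 (.thr 59 8 (.thr 11 27 (.dbl 3 15 60))))))))))))))) (.rp 16 (.thr 17 29 (.thr 53 5 (.thr 13 49 (.thr 62 2 (.thr 7 52 (.thr 23 20 (.thr 39 55 (.thr 28 19 (.thr 47 32 (.thr 43 35 (.thr 41 40 (.thr 33 45 (.thr 57 9 (.thr 59 8 (.thr 11 27 (.dbl 3 15 60)))))))))))))))) (.rp 15 (.thr 17 29 (.thr 53 5 (.thr 13 49 (.thr 62 2 (.thr 7 52 (.thr 23 20 (.thr 39 55 (.thr 19 28 (.thr 16 18 (.thr 47 32 (.thr 43 35 (.thr 41 40 (.thr 33 45 (.thr 57 9 (.thr 59 8 (.dbl 27 11 31)))))))))))))))) (.rp 14 (.str 50 (.nv (.thr 52 7 (.thr 53 5 (.thr 54 55 (.dbl 62 2 58)))) (.nv (.thr 2 62 (.thr 18 34 (.thr 19 28 (.dbl 17 16 29)))) (.rp 62 (.thr 17 29 (.thr 19 28 (.thr 18 16 (.thr 49 13 (.thr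 51 48 (.dbl 34 0 2)))))) (.rp 2 (.thr 17 29 (.thr 19 28 (.thr 16 18 (.thr 32 47 (.thr 49 13 (.dbl 48 0 51)))))) .nd))))) (.rp 3 (.thr 17 29 (.thr 53 5 (.thr 13 49 (.thr 2 62 (.thr 7 52 (.thr 23 20 (.thr 39 55 (.thr 19 28 (.thr 16 18 (.thr 47 32 (.thr 43 35 (.thr 41 40 (.thr 33 45 (.thr 57 9 (.thr 59 8 (.dbl 27 11 31)))))))))))))))) .nd)))))))))))))))))))))))) (.rp 51 (.thr 53 5 (.thr 63 0 (.thr 59 8 (.thr 58 48 (.thr 57 56 (.dbl 49 13 61)))))) (.rp 50 (.str 14 (.nv (.thr 0 63 (.thr 5 53 (.thr 8 59 (.thr 4 12 (.thr 6 7 (.dbl 10 2 15)))))) (.nv (.thr 29 17 (.thr 63 0 (.thr 12 46 (.dbl 13 15 49)))) (.nv (.thr 0 63 (.thr 5 53 (.thr 15 10 (.dbl 13 12 49)))) (.rp 63 (.thr 13 49 (.thr 5 53 (.thr 8 59 (.thr 15 12 (.thr 10 0 (.thr 2 6 (.thr 22 62 (.thr 7 52 (.dbl 11 3 9))))))))) (.rp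 15 (.thr 29 17 (.thr 63 0 (.thr 46 12 (.thr 47 32 (.thr 45 44 (.dbl 13 49 61)))))) (.rp 12 (.thr 5 53 (.thr 0 63 (.thr 10 15 (.thr 2 6 (.thr 22 62 (.thr 20 23 (.thr 28 19 (.thr 16 24 (.dbl 32 47 48))))))))) (.rp 0 (.thr 8 59 (.thr 5 53 (.thr 49 13 (.str 2 (.nv (.thr 6 10 (.thr 7 4 (.dbl 22 52 62))) (.rp 62 (.thr 29 17 (.thr 6 10 (.thr 7 4 (.thr 22 52 (.thr 28 19 (.thr 31 30 (.thr 47 32 (.thr 15 63 (.thr 3 11 (.thr 12 9 (.dbl 60 41 44))))))))))) (.rp 52 (.thr 10 6 (.thr 9 11 (.thr 41 57 (.thr 45 33 (.thr 47 32 (.thr 46 44 (.dbl 62 22 30))))))) (.rp 22 (.thr 6 10 (.str 30 (.nv (.thr 29 17 (.thr 31 28 (.thr 46 62 (.thr 63 12 (.dbl 47 15 32))))) (.nv (.thr 46 62 (.thr 47 32 (.thr 45 44 (.thr 15 60 (.thr 63 31 (.dbl 29 12 17)))))) (.nv (.thr 29 17 (.thr 31 28 (.thr 47 32 (.thr 63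 15 (.dbl 46 12 62))))) (.rp 63 (.thr 46 62 (.thr 7 4 (.thr 47 32 (.thr 45 44 (.thr 41 33 (.thr 9 57 (.thr 3 12 (.dbl 15 11 60)))))))) (.rp 62 (.thr 29 17 (.thr 7 4 (.thr 31 28 (.thr 47 32 (.thr 15 63 (.thr 3 11 (.thr 9 12 (.thr 41 57 (.dbl 45 33 60))))))))) (.rp 47 (.thr 29 17 (.thr 46 62 (.thr 7 4 (.thr 12 63 (.thr 3 9 (.thr 15 11 (.thr 60 45 (.dbl 28 31 44)))))))) (.rp 46 (.thr 29 17 (.thr 7 4 (.thr 31 28 (.thr 47 32 (.thr 15 63 (.thr 45 60 (.thr 41 33 (.thr 9 57 (.dbl 3 11 12))))))))) (.rp 32 (.thr 29 17 (.thr 46 62 (.thr 7 4 (.thr 28 31 (.thr 12 63 (.thr 60 44 (.thr 15 45 (.dbl 3 9 11)))))))) (.rp 31 (.thr 29 17 (.thr 46 62 (.thr 47 32 (.thr 45 44 (.thr 41 33 (.thr 9 57 (.dbl 12 3 63))))))) (.rp 29 (.thr 46 62 (.thr 7 4 (.thr 47 32 (.thr 45 44 (.thr 41 33 (.thr 9 57 (.thr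 15 60 (.dbl 3 11 12)))))))) (.rp 28 (.thr 29 17 (.thr 46 62 (.thr 47 32 (.thr 63 12 (.thr 15 31 (.dbl 45 44 60)))))) (.rp 17 (.thr 46 62 (.thr 7 4 (.thr 47 32 (.thr 45 44 (.thr 41 33 (.thr 9 57 (.thr 15 60 (.dbl 3 11 12)))))))) (.rp 15 (.thr 29 17 (.thr 46 62 (.thr 28 31 (.thr 47 32 (.thr 44 45 (.dbl 12 60 63)))))) (.rp 12 (.thr 29 17 (.thr 46 62 (.thr 31 28 (.thr 47 32 (.thr 15 63 (.dbl 45 44 60)))))) .nd)))))))))))))))) (.rp 10 (.thr 22 62 (.thr 52 7 (.thr 20 23 (.thr 36 4 (.thr 28 19 (.thr 24 16 (.thr 40 56 (.dbl 32 44 47)))))))) (.rp 7 (.thr 10 6 (.thr 9 11 (.thr 41 57 (.thr 45 33 (.thr 47 32 (.thr 46 44 (.dbl 62 22 30))))))) (.rp 6 (.thr 22 62 (.thr 52 7 (.thr 20 23 (.thr 36 4 (.thr 28 19 (.thr 24 16 (.thr 40 56 (.dbl 32 44 47)))))))) (.rp 4 (.thr 10 6 (.thr 9 11 (.thr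 41 57 (.thr 45 33 (.thr 47 32 (.thr 46 44 (.dbl 62 22 30))))))) .nd)))))))))))) .nd)))))))) (.rp 49 (.thr 53 5 (.thr 63 0 (.thr 59 8 (.thr 55 51 (.thr 48 58 (.thr 52 54 (.thr 22 7 (.thr 60 56 (.dbl 62 2 61))))))))) (.rp 48 (.thr 53 5 (.thr 63 0 (.thr 59 8 (.thr 55 51 (.thr 52 54 (.thr 22 7 (.thr 23 20 (.thr 3 43 (.thr 62 2 (.dbl 60 41 61)))))))))) (.rp 15 (.thr 29 17 (.thr 63 0 (.thr 46 12 (.thr 47 32 (.thr 45 44 (.dbl 13 49 61)))))) (.rp 14 (.str 50 (.nv (.thr 0 63 (.thr 17 29 (.thr 32 47 (.thr 16 48 (.thr 18 19 (.dbl 34 2 51)))))) (.nv (.thr 0 63 (.thr 32 47 (.thr 48 16 (.dbl 49 13 51)))) (.nv (.thr 0 63 (.thr 17 29 (.thr 51 34 (.dbl 49 13 48)))) (.rp 63 (.thr 49 13 (.thr 17 29 (.thr 32 47 (.thr 51 48 (.thr 34 0 (.thr 2 18 (.thr 22 62 (.thr 19 28 (.dbl 35 3 33))))))))) (.rp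 51 (.thr 53 5 (.thr 63 0 (.thr 58 48 (.thr 59 8 (.thr 57 56 (.dbl 49 13 61)))))) (.rp 48 (.thr 17 29 (.thr 0 63 (.thr 34 51 (.thr 2 18 (.thr 22 62 (.thr 20 23 (.thr 52 7 (.thr 4 36 (.dbl 8 12 59))))))))) (.rp 0 (.thr 32 47 (.thr 17 29 (.thr 13 49 (.str 2 (.nv (.thr 18 34 (.thr 19 16 (.dbl 22 28 62))) (.rp 62 (.thr 53 5 (.thr 18 34 (.thr 19 16 (.thr 22 28 (.thr 52 7 (.thr 55 54 (.thr 59 8 (.thr 51 63 (.thr 3 35 (.thr 48 33 (.dbl 60 41 56))))))))))) (.rp 34 (.thr 22 62 (.thr 28 19 (.thr 20 23 (.thr 24 16 (.thr 52 7 (.thr 36 4 (.thr 40 44 (.dbl 8 56 59)))))))) (.rp 28 (.thr 34 18 (.thr 33 35 (.thr 41 45 (.thr 57 9 (.thr 59 8 (.thr 58 56 (.dbl 62 22 54))))))) (.rp 22 (.thr 18 34 (.str 54 (.nv (.thr 53 5 (.thr 55 52 (.thr 58 62 (.thr 63 48 (.dbl 59 8 51))))) (.nv (.thr 58 62 (.thr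 59 8 (.thr 57 56 (.thr 51 60 (.thr 63 55 (.dbl 53 5 48)))))) (.nv (.thr 53 5 (.thr 55 52 (.thr 59 8 (.thr 63 51 (.dbl 58 48 62))))) (.rp 63 (.thr 58 62 (.thr 19 16 (.thr 59 8 (.thr 57 56 (.thr 41 9 (.thr 33 45 (.thr 3 48 (.dbl 51 35 60)))))))) (.rp 62 (.thr 53 5 (.thr 19 16 (.thr 55 52 (.thr 59 8 (.thr 51 63 (.thr 3 35 (.thr 33 48 (.thr 41 45 (.dbl 57 9 60))))))))) (.rp 59 (.thr 53 5 (.thr 58 62 (.thr 19 16 (.thr 48 63 (.thr 3 33 (.thr 51 35 (.thr 60 57 (.dbl 52 55 56)))))))) (.rp 58 (.thr 53 5 (.thr 19 16 (.thr 55 52 (.thr 59 8 (.thr 51 63 (.thr 57 60 (.thr 41 9 (.thr 33 45 (.dbl 3 35 48))))))))) (.rp 55 (.thr 53 5 (.thr 58 62 (.thr 59 8 (.thr 57 56 (.thr 41 9 (.thr 33 45 (.dbl 48 3 63))))))) (.rp 53 (.thr 58 62 (.thr 19 16 (.thr 59 8 (.thr 57 56 (.thr 41 9 (.thr 33 45 (.thr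 51 60 (.dbl 3 35 48)))))))) (.rp 52 (.thr 53 5 (.thr 58 62 (.thr 59 8 (.thr 63 48 (.thr 51 55 (.dbl 57 56 60)))))) (.rp 51 (.thr 53 5 (.thr 58 62 (.thr 52 55 (.thr 59 8 (.thr 56 57 (.dbl 48 60 63)))))) (.rp 48 (.thr 53 5 (.thr 58 62 (.thr 55 52 (.thr 59 8 (.thr 51 63 (.dbl 57 56 60)))))) (.rp 8 (.thr 53 5 (.thr 58 62 (.thr 19 16 (.thr 52 55 (.thr 48 63 (.thr 60 56 (.thr 51 57 (.dbl 3 33 35)))))))) (.rp 5 (.thr 58 62 (.thr 19 16 (.thr 59 8 (.thr 57 56 (.thr 41 9 (.thr 33 45 (.thr 51 60 (.dbl 3 35 48)))))))) .nd)))))))))))))))) (.rp 19 (.thr 34 18 (.thr 33 35 (.thr 41 45 (.thr 57 9 (.thr 59 8 (.thr 58 56 (.dbl 62 22 54))))))) (.rp 18 (.thr 22 62 (.thr 28 19 (.thr 20 23 (.thr 24 16 (.thr 52 7 (.thr 36 4 (.thr 40 44 (.dbl 8 56 59)))))))) (.rp 16 (.thr 34 18 (.thr 33 35 (.thr 41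 45 (.thr 57 9 (.thr 59 8 (.thr 58 56 (.dbl 62 22 54))))))) .nd)))))))))))) .nd)))))))) (.rp 13 (.thr 29 17 (.thr 63 0 (.thr 12 46 (.thr 47 32 (.thr 31 15 (.thr 28 30 (.thr 22 19 (.thr 60 44 (.dbl 62 2 61))))))))) (.rp 12 (.thr 29 17 (.thr 63 0 (.thr 47 32 (.thr 31 15 (.thr 28 30 (.thr 22 19 (.thr 23 20 (.thr 3 43 (.thr 62 2 (.dbl 60 41 61)))))))))) (.rp 0 (.thr 17 29 (.thr 32 47 (.thr 8 59 (.thr 5 53 (.str 22 (.nv (.thr 2 62 (.thr 20 23 (.thr 28 19 (.thr 24 16 (.thr 52 7 (.thr 36 4 (.thr 12 48 (.dbl 44 40 60)))))))) (.nv (.thr 2 62 (.thr 20 23 (.thr 52 7 (.thr 36 4 (.thr 40 44 (.thr 56 24 (.thr 60 48 (.dbl 41 3 43)))))))) (.nv (.thr 2 62 (.thr 20 23 (.thr 28 19 (.thr 24 16 (.thr 40 56 (.thr 44 36 (.thr 60 12 (.dbl 41 3 43)))))))) (.nv (.thr 28 19 (.thr 20 23 (.thr 24 16 (.thr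 52 7 (.thr 36 4 (.dbl 40 44 56)))))) (.rp 50 (.str 14 (.nv (.thr 2 62 (.thr 6 10 (.dbl 7 4 52))) (.rp 62 (.thr 52 7 (.thr 20 23 (.thr 36 4 (.thr 40 44 (.thr 24 56 (.dbl 28 16 19)))))) (.rp 58 (.thr 7 52 (.thr 6 4 (.dbl 2 10 62))) (.rp 54 (.thr 52 7 (.thr 20 23 (.thr 36 4 (.thr 40 44 (.thr 24 56 (.dbl 28 16 19)))))) (.rp 52 (.thr 13 49 (.thr 2 62 (.thr 6 10 (.thr 12 15 (.thr 3 9 (.thr 60 41 (.dbl 28 19 44))))))) (.rp 10 (.thr 52 7 (.thr 20 23 (.thr 36 4 (.thr 40 44 (.thr 24 56 (.dbl 28 16 19)))))) (.rp 7 (.thr 13 49 (.thr 2 62 (.thr 6 10 (.thr 12 15 (.thr 3 9 (.thr 60 41 (.dbl 28 19 44))))))) (.rp 6 (.thr 52 7 (.thr 20 23 (.thr 36 4 (.thr 40 44 (.thr 24 56 (.dbl 28 16 19)))))) (.rp 4 (.thr 13 49 (.thr 2 62 (.thr 10 6 (.thr 15 12 (.thr 7 52 (.dbl 11 3 9)))))) (.rp 2 (.str 3 (.nv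 (.thr 7 52 (.thr 6 4 (.thr 12 9 (.dbl 15 11 13)))) (.nv (.thr 19 28 (.thr 35 51 (.thr 33 34 (.dbl 18 16 48)))) (.rp 55 (.thr 13 49 (.thr 15 12 (.dbl 7 11 52))) (.rp 34 (.str 18 (.nv (.thr 33 48 (.dbl 41 45 60)) (.nv (.dbl 19 16 28) .nd))) (.rp 18 (.str 34 (.nv (.thr 7 52 (.thr 15 11 (.dbl 13 12 49))) (.nv (.thr 35 33 (.dbl 19 28 51)) .nd))) .nd)))))) .nd))))))))))) (.rp 44 (.thr 52 7 (.thr 20 23 (.thr 36 4 (.thr 28 19 (.thr 24 16 (.thr 56 40 (.dbl 48 12 60))))))) (.rp 40 (.thr 13 49 (.thr 2 62 (.thr 7 52 (.thr 6 4 (.thr 14 10 (.thr 12 15 (.thr 3 9 (.thr 60 41 (.dbl 28 19 44))))))))) (.rp 36 (.thr 49 13 (.thr 2 62 (.thr 52 7 (.thr 19 28 (.thr 18 16 (.thr 50 34 (.thr 48 51 (.thr 60 56 (.dbl 3 33 41))))))))) (.rp 24 (.thr 13 49 (.thr 2 62 (.thr 7 52 (.thr 6 4 (.thr 14 10 (.thr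 12 15 (.thr 3 9 (.thr 60 41 (.dbl 28 19 44))))))))) (.rp 23 (.thr 13 49 (.thr 2 62 (.thr 7 52 (.thr 6 4 (.thr 14 10 (.thr 12 15 (.thr 3 9 (.thr 60 41 (.dbl 28 19 44))))))))) (.rp 20 (.thr 28 19 (.str 60 (.nv (.thr 3 41 (.thr 7 52 (.thr 11 15 (.thr 9 10 (.dbl 6 4 12))))) (.nv (.thr 2 62 (.thr 41 3 (.thr 40 43 (.thr 52 7 (.dbl 56 24 48))))) (.nv (.thr 2 62 (.thr 41 3 (.thr 40 43 (.dbl 44 12 36)))) (.nv (.thr 44 12 (.thr 40 36 (.thr 52 7 (.dbl 56 24 48)))) (.rp 63 (.thr 12 44 (.thr 13 49 (.thr 2 62 (.thr 41 3 (.thr 45 33 (.dbl 15 14 30)))))) (.rp 50 (.str 14 (.nv (.thr 3 41 (.thr 13 49 (.dbl 12 15 44))) (.nv (.thr 2 62 (.thr 6 10 (.dbl 7 4 52))) .nd))) (.rp 14 (.str 50 (.nv (.thr 52 7 (.thr 56 48 (.thr 40 24 (.dbl 44 12 36)))) (.nv (.thr 41 3 (.thr 2 62 (.thr 34 18 (.dbl 33 35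 45)))) (.rp 3 (.thr 2 62 (.thr 49 13 (.thr 52 7 (.dbl 48 51 56)))) (.rp 2 (.thr 3 41 (.thr 49 13 (.thr 48 51 (.dbl 52 7 56)))) .nd))))) (.rp 3 (.thr 2 62 (.thr 44 12 (.thr 40 36 (.thr 52 7 (.dbl 56 24 48))))) .nd)))))))))) (.rp 14 (.str 50 (.nv (.thr 2 62 (.thr 18 34 (.dbl 19 16 28))) (.rp 62 (.thr 28 19 (.thr 20 23 (.thr 24 16 (.thr 40 56 (.thr 36 44 (.dbl 52 4 7)))))) (.rp 46 (.thr 19 28 (.thr 18 16 (.dbl 2 34 62))) (.rp 34 (.thr 28 19 (.thr 20 23 (.thr 24 16 (.thr 40 56 (.thr 36 44 (.dbl 52 4 7)))))) (.rp 30 (.thr 28 19 (.thr 20 23 (.thr 24 16 (.thr 40 56 (.thr 36 44 (.dbl 52 4 7)))))) (.rp 28 (.thr 49 13 (.thr 2 62 (.thr 18 34 (.thr 48 51 (.thr 3 33 (.thr 60 41 (.dbl 52 7 56))))))) (.rp 19 (.thr 49 13 (.thr 2 62 (.thr 18 34 (.thr 48 51 (.thr 3 33 (.thr 60 41 (.dbl 52 7 56)))))))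 (.rp 18 (.thr 28 19 (.thr 20 23 (.thr 24 16 (.thr 40 56 (.thr 36 44 (.dbl 52 4 7)))))) (.rp 16 (.thr 49 13 (.thr 2 62 (.thr 34 18 (.thr 51 48 (.thr 19 28 (.dbl 35 3 33)))))) (.rp 2 (.str 3 (.nv (.thr 19 28 (.thr 18 16 (.thr 48 33 (.dbl 51 35 49)))) (.nv (.thr 7 52 (.thr 11 15 (.thr 9 10 (.dbl 6 4 12)))) (.rp 31 (.thr 49 13 (.thr 51 48 (.dbl 19 28 35))) (.rp 10 (.str 6 (.nv (.thr 9 12 (.dbl 41 57 60)) (.nv (.dbl 7 4 52) .nd))) (.rp 6 (.str 10 (.nv (.thr 19 28 (.thr 51 35 (.dbl 49 13 48))) (.nv (.thr 11 9 (.dbl 7 15 52)) .nd))) .nd)))))) .nd))))))))))) (.rp 2 (.str 3 (.nv (.thr 41 60 (.thr 33 45 (.thr 35 34 (.dbl 19 28 51)))) (.nv (.thr 7 52 (.thr 11 15 (.thr 9 10 (.dbl 6 4 12)))) (.rp 50 (.str 14 (.nv (.thr 7 52 (.thr 6 4 (.thr 12 9 (.dbl 15 11 13)))) (.nv (.thr 19 28 (.thr 35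 51 (.thr 33 34 (.dbl 18 16 48)))) (.rp 55 (.thr 13 49 (.thr 15 12 (.dbl 7 11 52))) (.rp 34 (.str 18 (.nv (.thr 33 48 (.dbl 41 45 60)) (.nv (.dbl 19 16 28) .nd))) (.rp 18 (.str 34 (.nv (.thr 7 52 (.thr 15 11 (.dbl 13 12 49))) (.nv (.thr 35 33 (.dbl 19 28 51)) .nd))) .nd)))))) (.rp 15 (.thr 19 28 (.thr 18 16 (.thr 35 51 (.dbl 33 34 48)))) (.rp 14 (.str 50 (.nv (.thr 19 28 (.thr 18 16 (.thr 48 33 (.dbl 51 35 49)))) (.nv (.thr 7 52 (.thr 11 15 (.thr 9 10 (.dbl 6 4 12)))) (.rp 31 (.thr 49 13 (.thr 51 48 (.dbl 19 28 35))) (.rp 10 (.str 6 (.nv (.thr 9 12 (.dbl 41 57 60)) (.nv (.dbl 7 4 52) .nd))) (.rp 6 (.str 10 (.nv (.thr 19 28 (.thr 51 35 (.dbl 49 13 48))) (.nv (.thr 11 9 (.dbl 7 15 52)) .nd))) .nd)))))) .nd)))))) .nd)))))))))))))))))) .nd))))))))))))) .nd))))))))))))))))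

theorem w536 : WinAt (137441050624, 274945015808) :=
  chF (K := [(137474605056, 274945032192), (137474605056, 2473968271360), (137474605056, 1126174851858432)]) (kc w510 (kc w534 (kc w535 kn))) c536 137441050624 274945015808 38
    [1126174851874816] (by decide +kernel) (by decide +kernel)

/-- A certificate. -/
noncomputable def c537 : Ct := (.str 61 (.nv (.thr 49 57 (.thr 13 25 (.thr 41 1 (.dbl 45 29 33)))) (.nv (.thr 49 57 (.thr 25 13 (.thr 17 29 (.dbl 1 33 41)))) (.rp 57 (.str 63 (.nv (.thr 41 1 (.thr 33 45 (.thr 60 62 (.thr 3 22 (.dbl 48 18 58))))) (.nv (.thr 0 42 (.thr 60 62 (.thr 20 40 (.thr 22 23 (.thr 52 7 (.thr 55 54 (.dbl 4 36 38))))))) (.nv (.thr 41 1 (.thr 42 0 (.thr 45 33 (.thr 47 32 (.thr 46 44 (.dbl 29 12 13)))))) (.nv (.thr 0 42 (.thr 41 1 (.thr 60 62 (.thr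 22 3 (.dbl 20 23 40))))) (.rp 42 (.thr 41 1 (.thr 60 62 (.thr 22 3 (.thr 52 7 (.dbl 48 56 58))))) (.rp 41 (.thr 62 60 (.thr 58 48 (.thr 54 50 (.thr 52 55 (.thr 42 0 (.dbl 22 2 7)))))) .nd))))))) (.rp 49 (.str 63 (.nv (.thr 41 1 (.thr 33 45 (.thr 42 0 (.thr 32 47 (.thr 35 34 (.thr 40 43 (.dbl 44 36 38))))))) (.nv (.thr 0 42 (.thr 60 62 (.thr 20 40 (.thr 22 23 (.thr 52 7 (.thr 55 54 (.dbl 4 36 38))))))) (.nv (.thr 41 1 (.thr 33 45 (.thr 60 62 (.thr 3 22 (.dbl 48 18 58))))) (.rp 42 (.thr 41 1 (.thr 60 62 (.thr 22 3 (.thr 52 7 (.dbl 48 56 58))))) (.rp 41 (.thr 62 60 (.thr 58 48 (.thr 42 0 (.thr 22 2 (.thr 52 7 (.dbl 54 50 55)))))) (.rp 2 (.thr 41 1 (.thr 33 45 (.thr 60 62 (.thr 48 58 (.dbl 3 18 22))))) .nd))))))) (.rp 41 (.str 55 (.nv (.thr 38 4 (.thr 49 57 (.thr 25 13 (.thr 51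 12 (.thr 48 50 (.dbl 63 58 59)))))) (.nv (.thr 52 54 (.thr 22 7 (.thr 20 23 (.dbl 4 36 38)))) (.rp 56 (.str 11 (.nv (.thr 38 4 (.thr 49 57 (.thr 25 13 (.thr 51 12 (.thr 48 50 (.dbl 63 58 59)))))) (.nv (.thr 52 54 (.thr 22 7 (.thr 20 23 (.dbl 4 36 38)))) (.rp 38 (.thr 57 49 (.thr 54 52 (.thr 60 51 (.thr 63 62 (.thr 42 0 (.thr 47 32 (.thr 15 31 (.thr 45 30 (.thr 29 13 (.dbl 46 12 44)))))))))) (.rp 7 (.thr 49 57 (.thr 25 13 (.thr 54 52 (.thr 38 4 (.thr 6 22 (.thr 51 12 (.thr 48 50 (.dbl 63 58 59)))))))) (.rp 6 (.thr 52 54 (.thr 22 7 (.thr 4 38 (.dbl 20 23 36)))) (.rp 4 (.thr 57 49 (.thr 54 52 (.thr 60 51 (.thr 63 62 (.thr 42 0 (.thr 47 32 (.thr 15 31 (.thr 45 30 (.thr 29 13 (.dbl 46 12 44)))))))))) .nd))))))) (.rp 38 (.thr 57 49 (.thr 54 52 (.thr 60 51 (.thr 63 62 (.thr 42 0 (.thr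 47 32 (.thr 15 31 (.thr 45 30 (.thr 29 13 (.dbl 46 12 44)))))))))) (.rp 11 (.str 56 (.nv (.thr 38 4 (.thr 49 57 (.thr 25 13 (.thr 51 12 (.thr 48 50 (.dbl 63 58 59)))))) (.nv (.thr 4 38 (.thr 52 54 (.thr 20 36 (.dbl 22 7 23)))) (.nv (.thr 52 54 (.thr 48 60 (.thr 57 49 (.dbl 58 59 63)))) .nd)))) (.rp 7 (.thr 49 57 (.thr 25 13 (.thr 54 52 (.thr 38 4 (.thr 6 22 (.thr 51 12 (.thr 63 59 (.dbl 48 50 58)))))))) (.rp 6 (.thr 52 54 (.thr 22 7 (.thr 4 38 (.dbl 20 23 36)))) (.rp 4 (.thr 57 49 (.thr 54 52 (.thr 60 51 (.thr 63 62 (.thr 42 0 (.thr 47 32 (.thr 15 31 (.thr 45 30 (.thr 29 13 (.dbl 46 12 44)))))))))) .nd))))))))) (.rp 33 (.str 55 (.nv (.thr 38 4 (.thr 49 57 (.thr 25 13 (.thr 51 12 (.thr 48 50 (.dbl 63 58 59)))))) (.nv (.thr 52 54 (.thr 22 7 (.thr 20 23 (.dbl 4 36 38)))) (.rp 38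 (.thr 41 1 (.thr 52 54 (.thr 22 7 (.thr 60 3 (.thr 48 56 (.dbl 63 58 62)))))) (.rp 7 (.thr 57 49 (.thr 54 52 (.thr 51 60 (.thr 38 4 (.thr 6 22 (.thr 25 12 (.dbl 41 1 9))))))) (.rp 6 (.thr 52 54 (.thr 22 7 (.thr 4 38 (.dbl 20 23 36)))) (.rp 4 (.thr 57 49 (.thr 54 52 (.thr 51 60 (.thr 63 59 (.thr 0 42 (.thr 41 1 (.thr 17 34 (.dbl 25 9 29)))))))) .nd))))))) (.rp 29 (.str 55 (.nv (.thr 38 4 (.thr 49 57 (.thr 25 13 (.thr 51 12 (.thr 48 50 (.dbl 63 58 59)))))) (.nv (.thr 52 54 (.thr 22 7 (.thr 20 23 (.dbl 4 36 38)))) (.rp 38 (.thr 52 54 (.thr 22 7 (.thr 41 1 (.thr 60 3 (.thr 63 62 (.dbl 48 56 58)))))) (.rp 7 (.thr 54 52 (.thr 57 49 (.thr 60 51 (.thr 41 1 (.thr 22 3 (.dbl 38 4 6)))))) (.rp 6 (.thr 52 54 (.thr 22 7 (.thr 4 38 (.dbl 20 23 36)))) (.rp 4 (.thr 54 52 (.thr 57 49 (.thr 60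 51 (.thr 63 62 (.thr 41 1 (.thr 33 45 (.thr 3 22 (.dbl 48 18 58)))))))) .nd))))))) (.rp 25 (.str 48 (.nv (.thr 41 1 (.thr 33 45 (.thr 3 18 (.thr 22 60 (.thr 23 20 (.dbl 63 43 58)))))) (.nv (.thr 57 49 (.thr 63 58 (.thr 60 62 (.thr 54 51 (.dbl 52 55 56))))) (.nv (.thr 41 1 (.thr 33 45 (.thr 3 18 (.thr 63 58 (.dbl 60 22 62))))) (.rp 63 (.thr 41 1 (.thr 33 45 (.thr 3 18 (.thr 22 60 (.thr 52 7 (.thr 55 54 (.thr 4 38 (.dbl 20 23 36)))))))) (.rp 60 (.thr 41 1 (.thr 33 45 (.thr 3 18 (.thr 63 58 (.thr 43 23 (.dbl 42 0 40)))))) (.rp 58 (.thr 41 1 (.thr 33 45 (.thr 3 18 (.thr 22 60 (.thr 52 7 (.thr 55 54 (.thr 4 38 (.dbl 20 23 36)))))))) (.rp 27 (.str 24 (.nv (.thr 41 1 (.thr 33 45 (.thr 3 18 (.thr 22 60 (.thr 23 20 (.dbl 63 43 58)))))) (.nv (.thr 63 58 (.thr 60 62 (.thr 56 52 (.thr 40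 8 (.dbl 0 20 42))))) (.nv (.thr 12 36 (.thr 41 1 (.thr 63 58 (.thr 29 46 (.dbl 45 13 33))))) (.rp 63 (.thr 41 1 (.thr 33 45 (.thr 36 12 (.thr 3 18 (.thr 22 60 (.thr 20 23 (.dbl 52 4 7))))))) (.rp 58 (.thr 41 1 (.thr 33 45 (.thr 36 12 (.thr 3 18 (.thr 22 60 (.thr 20 23 (.dbl 52 4 7))))))) (.rp 51 (.str 15 (.nv (.thr 12 36 (.thr 41 1 (.thr 45 33 (.thr 49 57 (.dbl 13 14 29))))) (.nv (.thr 63 58 (.thr 42 0 (.dbl 47 31 32))) (.rp 12 (.str 38 (.nv (.thr 41 1 (.thr 33 45 (.thr 3 18 (.thr 7 11 (.dbl 22 52 60))))) (.nv (.thr 63 58 (.thr 47 31 (.dbl 42 0 32))) .nd))) .nd)))) (.rp 15 (.str 51 (.nv (.dbl 49 50 57) (.rp 57 (.thr 63 58 (.thr 60 62 (.thr 56 52 (.thr 40 8 (.dbl 0 20 42))))) (.rp 50 (.thr 57 49 (.thr 60 54 (.dbl 63 58 62))) (.rp 49 (.thr 63 58 (.thr 60 62 (.thr 55 59 (.dbl 54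 52 57)))) (.rp 10 (.str 0 (.nv (.dbl 63 42 58) (.rp 63 (.dbl 49 50 57) (.rp 58 (.thr 42 63 (.dbl 49 50 57)) (.rp 42 (.thr 58 63 (.dbl 49 50 57)) .nd))))) (.rp 0 (.str 10 (.nv (.dbl 49 50 57) (.rp 57 (.thr 63 58 (.thr 60 62 (.thr 41 1 (.thr 3 22 (.dbl 33 18 45))))) (.rp 50 (.thr 57 49 (.thr 60 54 (.dbl 63 58 62))) (.rp 49 (.thr 63 58 (.thr 60 62 (.thr 54 57 (.dbl 52 55 56)))) .nd))))) .nd))))))) .nd)))))))) (.rp 24 (.str 27 (.nv (.thr 41 1 (.thr 33 45 (.thr 3 18 (.thr 22 60 (.thr 23 20 (.dbl 63 43 58)))))) (.nv (.thr 57 49 (.thr 63 58 (.thr 60 62 (.thr 54 51 (.dbl 52 55 56))))) (.rp 63 (.thr 49 57 (.thr 41 1 (.thr 33 45 (.thr 3 18 (.thr 22 60 (.thr 23 20 (.thr 19 31 (.dbl 51 35 50)))))))) (.rp 60 (.thr 41 1 (.thr 33 45 (.thr 3 18 (.thr 63 58 (.thr 43 23 (.dbl 42 0 40)))))) (.rp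 58 (.thr 49 57 (.thr 41 1 (.thr 33 45 (.thr 3 18 (.thr 22 60 (.thr 23 20 (.thr 19 31 (.dbl 51 35 50)))))))) .nd)))))) .nd))))))))) (.rp 13 (.str 55 (.nv (.thr 1 41 (.thr 4 38 (.thr 52 54 (.thr 22 7 (.dbl 20 23 36))))) (.nv (.thr 38 4 (.thr 54 52 (.thr 57 49 (.thr 51 60 (.thr 25 12 (.dbl 41 1 9)))))) (.nv (.thr 52 54 (.thr 22 7 (.thr 20 23 (.dbl 4 36 38)))) (.rp 54 (.thr 38 4 (.thr 49 57 (.thr 1 41 (.thr 17 33 (.thr 25 29 (.thr 51 12 (.thr 48 50 (.dbl 63 58 59)))))))) (.rp 52 (.thr 38 4 (.thr 49 57 (.thr 1 41 (.thr 17 33 (.thr 25 29 (.thr 51 12 (.thr 48 50 (.dbl 63 58 59)))))))) (.rp 38 (.thr 52 54 (.thr 22 7 (.thr 57 49 (.thr 41 1 (.thr 9 25 (.thr 60 3 (.thr 63 62 (.dbl 48 56 58)))))))) (.rp 36 (.thr 54 52 (.thr 57 49 (.thr 60 51 (.thr 41 1 (.thr 9 25 (.thr 22 3 (.dbl 38 4 6)))))))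 (.rp 20 (.thr 54 52 (.thr 57 49 (.thr 60 51 (.thr 41 1 (.thr 9 25 (.thr 22 3 (.dbl 38 4 6))))))) (.rp 7 (.thr 54 52 (.thr 38 4 (.thr 6 22 (.thr 57 49 (.thr 51 60 (.thr 25 12 (.dbl 41 1 9))))))) (.rp 4 (.thr 54 52 (.thr 57 49 (.thr 60 51 (.thr 63 62 (.thr 0 42 (.thr 20 40 (.thr 22 23 (.dbl 41 1 3)))))))) (.rp 1 (.str 9 (.nv (.thr 54 52 (.thr 57 49 (.thr 25 41 (.thr 51 60 (.dbl 38 4 12))))) (.nv (.thr 38 4 (.thr 57 49 (.thr 25 41 (.thr 51 12 (.thr 60 54 (.dbl 63 59 62)))))) (.nv (.thr 52 54 (.thr 22 7 (.thr 20 23 (.dbl 4 36 38)))) (.rp 54 (.thr 57 49 (.thr 25 41 (.thr 17 29 (.thr 38 4 (.thr 51 12 (.thr 63 59 (.dbl 0 34 42))))))) (.rp 38 (.thr 57 49 (.thr 25 41 (.thr 17 29 (.thr 54 52 (.thr 51 60 (.thr 63 59 (.dbl 0 34 42))))))) (.rp 4 (.thr 57 49 (.thr 25 41 (.thr 17 29 (.thr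 54 52 (.thr 51 60 (.thr 63 59 (.dbl 0 34 42))))))) .nd))))))) .nd)))))))))))) (.rp 1 (.str 63 (.nv (.thr 0 42 (.thr 60 62 (.thr 20 40 (.thr 22 23 (.thr 52 7 (.thr 55 54 (.dbl 4 36 38))))))) (.nv (.thr 42 0 (.thr 47 32 (.thr 15 31 (.thr 49 57 (.thr 13 25 (.thr 12 14 (.dbl 29 45 46))))))) (.nv (.thr 57 49 (.thr 60 62 (.thr 51 54 (.thr 58 48 (.dbl 59 55 56))))) (.rp 13 (.str 9 (.nv (.thr 57 49 (.thr 25 41 (.thr 42 0 (.thr 59 8 (.dbl 58 48 56))))) (.nv (.thr 0 42 (.thr 60 62 (.thr 20 40 (.thr 22 23 (.thr 52 7 (.thr 55 54 (.dbl 4 36 38))))))) (.nv (.thr 57 49 (.thr 60 62 (.thr 51 54 (.thr 58 48 (.dbl 59 55 56))))) (.rp 58 (.thr 57 49 (.thr 25 41 (.thr 60 62 (.thr 42 0 (.thr 59 8 (.dbl 51 54 55)))))) .nd))))) (.rp 9 (.str 13 (.nv (.dbl 49 25 57) (.rp 57 (.thr 29 45 (.dbl 25 17 49))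 (.rp 49 (.thr 29 45 (.thr 12 46 (.thr 15 14 (.thr 47 31 (.dbl 42 0 32))))) (.rp 25 (.thr 29 45 (.thr 12 46 (.thr 15 14 (.thr 47 31 (.dbl 42 0 32))))) .nd))))) .nd)))))) .nd)))))))))))

theorem w537 : WinAt (9007336695791616, 549822922784) :=
  chF (K := []) kn c537 9007336695791616 549822922784 5
    [] (by decide +kernel) (by decide +kernel)

/-- A certificate. -/
noncomputable def c538 : Ct := (.str 4 (.nv (.thr 7 6 (.thr 22 52 (.thr 55 38 (.dbl 23 20 39)))) (.nv (.thr 7 6 (.thr 38 55 (.thr 36 39 (.dbl 52 20 22)))) (.rp 55 (.thr 7 6 (.thr 52 22 (.thr 36 20 (.thr 38 39 (.str 0 (.nv (.thr 12 8 (.thr 25 51 (.thr 63 42 (.dbl 29 17 46)))) (.nv (.thr 12 8 (.thr 25 51 (.thr 13 49 (.dbl 15 10 14)))) (.nv (.thr 42 63 (.thr 34 46 (.thr 51 17 (.dbl 12 8 25)))) (.rp 63 (.thr 12 8 (.thr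 51 25 (.thr 34 17 (.thr 42 46 (.thr 32 47 (.dbl 48 16 24)))))) (.rp 51 (.thr 12 8 (.thr 63 42 (.thr 29 46 (.thr 25 17 (.thr 13 49 (.dbl 15 10 14)))))) (.rp 30 (.str 18 (.nv (.thr 12 8 (.thr 48 24 (.thr 56 60 (.thr 3 33 (.dbl 15 10 11))))) (.nv (.thr 42 63 (.thr 34 46 (.thr 51 17 (.dbl 12 8 25)))) (.nv (.thr 15 10 (.thr 3 11 (.thr 33 48 (.thr 41 45 (.dbl 1 2 61))))) (.nv (.thr 12 8 (.thr 25 51 (.thr 29 17 (.dbl 63 42 46)))) (.rp 8 (.thr 15 10 (.thr 42 63 (.thr 32 47 (.thr 48 16 (.dbl 3 11 33))))) .nd)))))) (.rp 25 (.thr 12 8 (.thr 42 63 (.thr 32 47 (.dbl 48 16 24)))) (.rp 18 (.str 30 (.nv (.thr 12 8 (.thr 25 51 (.thr 13 49 (.dbl 15 10 14)))) (.nv (.thr 15 10 (.thr 45 60 (.thr 3 11 (.thr 41 33 (.dbl 1 2 61))))) (.nv (.thr 12 8 (.thr 42 63 (.thr 34 46 (.dbl 51 17 25)))) (.rp 8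 (.thr 15 10 (.thr 60 45 (.thr 42 63 (.thr 32 47 (.dbl 48 16 56))))) .nd))))) (.rp 12 (.thr 15 10 (.thr 3 11 (.thr 2 1 (.thr 42 63 (.thr 32 47 (.thr 48 16 (.thr 18 33 (.dbl 34 46 50)))))))) (.rp 8 (.thr 42 63 (.thr 32 47 (.thr 48 16 (.thr 34 46 (.thr 51 17 (.dbl 12 24 25)))))) .nd))))))))))))))) (.rp 52 (.str 1 (.nv (.thr 6 7 (.thr 9 13 (.thr 3 12 (.thr 41 61 (.thr 22 60 (.dbl 38 54 55)))))) (.nv (.thr 55 38 (.thr 13 9 (.thr 41 61 (.thr 49 25 (.dbl 33 17 45))))) (.nv (.thr 13 9 (.thr 25 49 (.thr 29 17 (.dbl 61 41 45)))) (.rp 61 (.thr 9 13 (.thr 6 7 (.thr 12 3 (.thr 0 8 (.thr 63 42 (.thr 29 46 (.thr 25 17 (.dbl 38 51 55)))))))) (.rp 55 (.str 54 (.nv (.thr 6 7 (.thr 9 13 (.thr 3 12 (.thr 22 38 (.dbl 41 60 61))))) (.nv (.thr 6 7 (.thr 22 38 (.thr 41 61 (.thr 3 60 (.thr 0 2 (.dbl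 12 8 9)))))) (.nv (.thr 13 9 (.thr 25 49 (.thr 29 17 (.dbl 61 41 45)))) (.rp 61 (.thr 6 7 (.thr 22 38 (.thr 23 20 (.thr 9 13 (.thr 3 12 (.thr 0 2 (.dbl 63 42 43))))))) (.rp 41 (.thr 6 7 (.thr 22 38 (.thr 23 20 (.thr 9 13 (.thr 3 12 (.thr 0 2 (.dbl 63 42 43))))))) (.rp 9 (.thr 6 7 (.thr 22 38 (.thr 23 20 (.thr 41 61 (.thr 3 60 (.thr 0 2 (.dbl 63 42 43))))))) .nd))))))) (.rp 49 (.thr 9 13 (.thr 41 61 (.thr 57 25 (.thr 6 7 (.thr 3 12 (.thr 22 60 (.dbl 38 54 55))))))) (.rp 45 (.thr 9 13 (.thr 6 7 (.thr 12 3 (.thr 38 55 (.thr 54 22 (.thr 25 51 (.dbl 41 57 61))))))) (.rp 41 (.thr 13 9 (.thr 25 49 (.thr 6 7 (.thr 38 55 (.thr 54 22 (.thr 12 51 (.thr 0 8 (.dbl 15 10 14)))))))) (.rp 13 (.thr 41 61 (.thr 7 6 (.thr 55 38 (.thr 23 39 (.thr 22 20 (.thr 3 60 (.thr 0 2 (.dbl 15 10 11))))))))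 (.rp 9 (.thr 41 61 (.thr 7 6 (.thr 55 38 (.thr 23 39 (.thr 22 20 (.thr 3 60 (.thr 0 2 (.dbl 15 10 11)))))))) .nd))))))))))) (.rp 39 (.str 1 (.nv (.thr 7 6 (.thr 22 52 (.thr 41 61 (.thr 3 60 (.thr 0 2 (.dbl 15 10 11)))))) (.nv (.thr 13 9 (.thr 25 49 (.thr 29 17 (.dbl 61 41 45)))) (.rp 61 (.thr 9 13 (.thr 6 7 (.thr 12 3 (.thr 0 8 (.thr 63 42 (.thr 29 46 (.thr 25 17 (.dbl 38 51 55)))))))) (.rp 57 (.thr 13 9 (.thr 49 25 (.thr 41 61 (.dbl 33 17 45)))) (.rp 49 (.thr 9 13 (.thr 41 61 (.thr 57 25 (.thr 6 7 (.thr 3 12 (.thr 22 60 (.dbl 38 54 55))))))) (.rp 41 (.thr 13 9 (.thr 25 49 (.thr 38 55 (.thr 12 51 (.thr 0 8 (.dbl 15 10 14)))))) .nd))))))) (.rp 38 (.str 1 (.nv (.thr 7 6 (.thr 22 52 (.thr 41 61 (.thr 3 60 (.thr 0 2 (.dbl 15 10 11)))))) (.nv (.thr 13 9 (.thr 25 49 (.thr 29 17 (.dbl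 61 41 45)))) (.rp 61 (.thr 13 9 (.thr 49 25 (.thr 33 17 (.thr 41 45 (.thr 7 6 (.thr 22 52 (.thr 3 60 (.thr 15 11 (.dbl 0 2 10))))))))) (.rp 57 (.thr 13 9 (.thr 49 25 (.thr 41 61 (.dbl 33 17 45)))) (.rp 50 (.str 14 (.nv (.thr 6 7 (.thr 2 10 (.thr 3 0 (.dbl 9 12 13)))) (.nv (.thr 13 9 (.thr 41 61 (.thr 33 45 (.dbl 49 17 25)))) (.rp 13 (.thr 41 61 (.thr 7 6 (.thr 22 52 (.thr 3 60 (.thr 0 2 (.dbl 15 10 11)))))) (.rp 9 (.thr 41 61 (.thr 7 6 (.thr 22 52 (.thr 3 60 (.thr 0 2 (.dbl 15 10 11)))))) .nd))))) (.rp 49 (.thr 9 13 (.thr 41 61 (.thr 57 25 (.thr 7 6 (.thr 22 52 (.thr 3 60 (.thr 15 11 (.dbl 0 2 10)))))))) (.rp 41 (.thr 9 13 (.thr 6 7 (.thr 3 12 (.thr 0 2 (.thr 42 63 (.thr 32 47 (.thr 48 16 (.thr 33 18 (.thr 17 49 (.dbl 34 35 51)))))))))) (.rp 14 (.str 50 (.nv (.thr 7 6 (.thr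 22 52 (.thr 41 61 (.thr 3 60 (.thr 15 11 (.dbl 0 2 10)))))) (.nv (.thr 41 61 (.thr 33 45 (.thr 13 9 (.dbl 49 17 25)))) (.rp 61 (.thr 7 6 (.thr 22 52 (.thr 13 9 (.thr 49 25 (.thr 33 17 (.thr 41 45 (.thr 3 60 (.dbl 48 18 51)))))))) (.rp 57 (.thr 13 9 (.thr 49 25 (.thr 41 61 (.dbl 33 17 45)))) (.rp 49 (.thr 7 6 (.thr 22 52 (.thr 9 13 (.thr 41 61 (.thr 57 25 (.thr 3 60 (.thr 15 11 (.dbl 0 2 10)))))))) (.rp 41 (.thr 7 6 (.thr 22 52 (.thr 13 9 (.thr 25 49 (.thr 19 28 (.thr 17 29 (.thr 18 16 (.thr 2 34 (.thr 42 62 (.dbl 0 3 63)))))))))) .nd))))))) .nd))))))))) (.rp 22 (.thr 38 55 (.thr 36 39 (.thr 52 20 (.thr 7 6 (.str 0 (.nv (.thr 12 8 (.thr 25 51 (.thr 63 42 (.dbl 29 17 46)))) (.nv (.thr 12 8 (.thr 25 51 (.thr 13 49 (.dbl 15 10 14)))) (.nv (.thr 42 63 (.thr 34 46 (.thr 51 17 (.dbl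 12 8 25)))) (.rp 63 (.thr 12 8 (.thr 51 25 (.thr 34 17 (.thr 42 46 (.thr 32 47 (.dbl 48 16 24)))))) (.rp 51 (.thr 12 8 (.thr 63 42 (.thr 29 46 (.thr 25 17 (.thr 13 49 (.dbl 15 10 14)))))) (.rp 30 (.str 18 (.nv (.thr 12 8 (.thr 48 24 (.thr 56 60 (.thr 3 33 (.dbl 15 10 11))))) (.nv (.thr 42 63 (.thr 34 46 (.thr 51 17 (.dbl 12 8 25)))) (.nv (.thr 15 10 (.thr 3 11 (.thr 33 48 (.thr 41 45 (.dbl 1 2 61))))) (.nv (.thr 12 8 (.thr 25 51 (.thr 29 17 (.dbl 63 42 46)))) (.rp 8 (.thr 15 10 (.thr 42 63 (.thr 32 47 (.thr 48 16 (.dbl 3 11 33))))) .nd)))))) (.rp 25 (.thr 12 8 (.thr 42 63 (.thr 32 47 (.dbl 48 16 24)))) (.rp 18 (.str 30 (.nv (.thr 12 8 (.thr 25 51 (.thr 13 49 (.dbl 15 10 14)))) (.nv (.thr 15 10 (.thr 45 60 (.thr 3 11 (.thr 41 33 (.dbl 1 2 61))))) (.nv (.thr 12 8 (.thr 42 63 (.thr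 34 46 (.dbl 51 17 25)))) (.rp 8 (.thr 15 10 (.thr 60 45 (.thr 42 63 (.thr 32 47 (.dbl 48 16 56))))) .nd))))) (.rp 12 (.thr 15 10 (.thr 3 11 (.thr 2 1 (.thr 42 63 (.thr 32 47 (.thr 48 16 (.thr 18 33 (.dbl 34 46 50)))))))) (.rp 8 (.thr 42 63 (.thr 32 47 (.thr 48 16 (.thr 34 46 (.thr 51 17 (.dbl 12 24 25)))))) .nd))))))))))))))) (.rp 20 (.str 0 (.nv (.thr 7 6 (.thr 15 10 (.thr 22 52 (.thr 42 63 (.thr 2 62 (.dbl 3 1 11)))))) (.nv (.thr 38 55 (.thr 42 63 (.thr 34 46 (.thr 51 17 (.dbl 12 8 25))))) (.nv (.thr 6 7 (.thr 12 8 (.thr 3 9 (.thr 10 15 (.dbl 2 1 14))))) .nd)))) (.rp 7 (.str 0 (.nv (.thr 12 8 (.thr 38 55 (.thr 25 51 (.thr 13 49 (.dbl 15 10 14))))) (.nv (.thr 12 8 (.thr 15 10 (.thr 13 14 (.thr 25 49 (.thr 29 17 (.dbl 63 42 46)))))) (.nv (.thr 8 12 (.thr 42 63 (.thr 25 59 (.thr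 13 49 (.thr 1 9 (.thr 29 17 (.dbl 61 41 45))))))) (.nv (.thr 38 55 (.thr 39 36 (.thr 15 10 (.thr 51 27 (.dbl 12 8 25))))) (.rp 25 (.thr 38 55 (.thr 39 36 (.thr 15 10 (.thr 42 63 (.thr 34 46 (.dbl 51 17 27)))))) (.rp 12 (.thr 38 55 (.thr 39 36 (.thr 15 10 (.thr 51 27 (.thr 34 17 (.dbl 42 46 63)))))) (.rp 8 (.thr 38 55 (.thr 39 36 (.thr 15 10 (.thr 51 27 (.thr 17 34 (.dbl 25 12 29)))))) .nd)))))))) (.rp 6 (.str 0 (.nv (.thr 15 10 (.thr 38 55 (.thr 39 36 (.thr 51 27 (.dbl 12 8 25))))) (.nv (.thr 8 12 (.thr 10 15 (.thr 9 11 (.thr 13 1 (.thr 25 49 (.dbl 42 59 63)))))) (.nv (.thr 12 8 (.thr 38 55 (.thr 25 51 (.thr 29 17 (.dbl 63 42 46))))) (.rp 42 (.thr 38 55 (.thr 12 8 (.thr 25 51 (.thr 13 49 (.dbl 15 10 14))))) (.rp 25 (.thr 38 55 (.thr 36 39 (.thr 12 8 (.thr 42 63 (.thr 32 47 (.dbl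 48 16 24)))))) (.rp 12 (.thr 38 55 (.thr 39 36 (.thr 15 10 (.thr 51 27 (.thr 34 17 (.dbl 42 46 63)))))) (.rp 8 (.thr 38 55 (.thr 39 36 (.thr 15 10 (.thr 51 27 (.thr 17 34 (.dbl 25 12 29)))))) .nd)))))))) .nd)))))))))))

theorem w538 : WinAt (137441050656, 9008298833477632) :=
  chF (K := []) kn c538 137441050656 9008298833477632 53
    [] (by decide +kernel) (by decide +kernel)

/-- A certificate. -/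
noncomputable def c539 : Ct := (.str 42 (.nv (.thr 7 52 (.thr 23 20 (.thr 39 55 (.thr 47 32 (.thr 63 0 (.dbl 43 3 35)))))) (.nv (.thr 0 63 (.thr 5 53 (.thr 7 52 (.thr 6 4 (.thr 10 15 (.dbl 2 14 62)))))) (.nv (.thr 20 23 (.thr 32 47 (.thr 52 7 (.thr 36 4 (.thr 0 63 (.dbl 40 44 60)))))) (.nv (.thr 0 63 (.thr 2 62 (.thr 3 1 (.thr 5 53 (.thr 15 10 (.dbl 7 11 52)))))) (.rp 63 (.str 0 (.nv (.thr 20 23 (.thr 40 60 (.thr 52 7 (.thr 36 4 (.dbl 32 44 47))))) (.nv (.thr 5 53 (.thr 7 52 (.thr 6 4 (.thr 10 15 (.dbl 2 14 62))))) (.nv (.thr 2 62 (.thr 3 1 (.thr 5 53 (.thr 7 52 (.dbl 15 10 11))))) (.nv (.thr 32 47 (.thr 48 16 (.thr 20 23 (.thr 60 40 (.dbl 52 7 56))))) (.rp 56 (.str 11 (.nv (.thr 2 62 (.thr 1 3 (.thr 5 53 (.thr 9 13 (.dbl 10 8 15))))) (.nv (.thr 5 53 (.thr 15 10 (.dbl 7 3 52)))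 (.nv (.thr 2 62 (.thr 3 1 (.dbl 7 15 52))) (.rp 50 (.str 14 (.nv (.thr 2 62 (.thr 10 6 (.dbl 5 15 53))) (.nv (.thr 7 52 (.thr 3 15 (.dbl 2 1 62))) (.nv (.thr 5 53 (.thr 15 10 (.dbl 7 3 52))) (.rp 44 (.str 35 (.nv (.thr 2 62 (.thr 10 6 (.dbl 5 15 53))) (.nv (.thr 23 20 (.thr 47 32 (.thr 39 43 (.dbl 7 52 55)))) (.nv (.thr 5 53 (.thr 15 10 (.dbl 7 3 52))) .nd)))) (.rp 35 (.str 44 (.nv (.thr 5 53 (.thr 7 52 (.dbl 15 3 10))) (.nv (.thr 47 32 (.thr 46 45 (.dbl 62 2 30))) .nd))) (.rp 15 (.thr 2 62 (.thr 6 10 (.thr 7 52 (.dbl 5 4 53)))) .nd))))))) (.rp 44 (.str 35 (.nv (.thr 2 62 (.thr 1 3 (.thr 5 53 (.thr 9 13 (.dbl 10 8 15))))) (.nv (.thr 23 20 (.thr 47 32 (.thr 39 43 (.dbl 7 52 55)))) (.nv (.thr 2 62 (.thr 3 1 (.dbl 7 15 52))) (.rp 50 (.str 14 (.nv (.thr 2 62 (.thr 10 6 (.dbl 5 15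 53))) (.nv (.thr 23 20 (.thr 47 32 (.thr 39 43 (.dbl 7 52 55)))) (.nv (.thr 5 53 (.thr 15 10 (.dbl 7 3 52))) .nd)))) (.rp 14 (.str 50 (.nv (.thr 32 47 (.thr 34 33 (.dbl 2 18 62))) (.nv (.thr 23 20 (.thr 47 32 (.thr 39 43 (.dbl 7 52 55)))) (.nv (.thr 2 62 (.thr 3 1 (.dbl 7 15 52))) .nd)))) .nd)))))) (.rp 35 (.str 44 (.nv (.thr 32 47 (.thr 40 36 (.dbl 20 23 60))) (.nv (.thr 5 53 (.thr 15 10 (.dbl 7 3 52))) (.rp 50 (.str 14 (.nv (.thr 5 53 (.thr 7 52 (.dbl 15 3 10))) (.nv (.thr 47 32 (.thr 46 45 (.dbl 62 2 30))) .nd))) (.rp 15 (.thr 20 23 (.thr 40 60 (.dbl 32 36 47))) (.rp 14 (.str 50 (.nv (.thr 20 23 (.thr 52 7 (.thr 36 4 (.dbl 32 40 47)))) (.nv (.thr 32 47 (.thr 40 36 (.dbl 20 23 60))) (.nv (.thr 2 62 (.thr 3 1 (.dbl 7 15 52))) .nd)))) .nd)))))) (.rp 15 (.thr 52 7 (.thr 20 23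 (.thr 36 4 (.thr 40 60 (.dbl 32 44 47))))) (.rp 14 (.str 50 (.nv (.thr 5 53 (.thr 7 52 (.dbl 15 3 10))) (.nv (.thr 2 62 (.thr 1 3 (.thr 5 53 (.thr 9 13 (.dbl 10 8 15))))) (.nv (.thr 52 7 (.thr 53 5 (.thr 54 55 (.dbl 62 2 58)))) (.nv (.thr 2 62 (.thr 3 1 (.dbl 7 15 52))) (.rp 44 (.str 35 (.nv (.thr 32 47 (.thr 34 33 (.dbl 2 18 62))) (.nv (.thr 23 20 (.thr 47 32 (.thr 39 43 (.dbl 7 52 55)))) (.nv (.thr 2 62 (.thr 3 1 (.dbl 7 15 52))) .nd)))) (.rp 35 (.str 44 (.nv (.thr 20 23 (.thr 52 7 (.thr 36 4 (.dbl 32 40 47)))) (.nv (.thr 32 47 (.thr 40 36 (.dbl 20 23 60))) (.nv (.thr 2 62 (.thr 3 1 (.dbl 7 15 52))) .nd)))) .nd))))))) (.rp 3 (.thr 5 53 (.thr 7 52 (.thr 6 4 (.thr 10 15 (.dbl 2 14 62))))) .nd)))))))))) (.rp 52 (.thr 20 23 (.thr 60 40 (.thr 32 47 (.thr 16 48 (.thr 28 24 (.thr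 25 19 (.thr 8 59 (.dbl 12 4 44)))))))) (.rp 50 (.str 14 (.nv (.thr 5 53 (.thr 10 15 (.thr 6 2 (.dbl 7 4 52)))) (.nv (.thr 2 62 (.thr 10 6 (.dbl 5 15 53))) (.rp 58 (.thr 32 47 (.thr 20 23 (.thr 40 60 (.thr 52 7 (.dbl 36 4 44))))) (.rp 56 (.str 11 (.nv (.thr 2 62 (.thr 10 6 (.dbl 5 15 53))) (.nv (.thr 7 52 (.thr 3 15 (.dbl 2 1 62))) (.nv (.thr 5 53 (.thr 15 10 (.dbl 7 3 52))) (.rp 44 (.str 35 (.nv (.thr 2 62 (.thr 10 6 (.dbl 5 15 53))) (.nv (.thr 23 20 (.thr 47 32 (.thr 39 43 (.dbl 7 52 55)))) (.nv (.thr 5 53 (.thr 15 10 (.dbl 7 3 52))) .nd)))) (.rp 35 (.str 44 (.nv (.thr 5 53 (.thr 7 52 (.dbl 15 3 10))) (.nv (.thr 47 32 (.thr 46 45 (.dbl 62 2 30))) .nd))) (.rp 15 (.thr 2 62 (.thr 6 10 (.thr 7 52 (.dbl 5 4 53)))) .nd))))))) (.rp 53 (.thr 32 47 (.thr 20 23 (.thr 40 60 (.thr 52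 7 (.dbl 36 4 44))))) (.rp 44 (.str 35 (.nv (.thr 7 52 (.thr 23 20 (.thr 47 32 (.dbl 39 43 55)))) (.nv (.thr 2 62 (.thr 10 6 (.dbl 5 15 53))) (.rp 56 (.str 11 (.nv (.thr 2 62 (.thr 10 6 (.dbl 5 15 53))) (.nv (.thr 23 20 (.thr 47 32 (.thr 39 43 (.dbl 7 52 55)))) (.nv (.thr 5 53 (.thr 15 10 (.dbl 7 3 52))) .nd)))) (.rp 11 (.str 56 (.nv (.thr 5 53 (.thr 7 52 (.thr 6 4 (.dbl 2 10 62)))) (.nv (.thr 2 62 (.thr 10 6 (.dbl 5 15 53))) (.nv (.thr 32 47 (.thr 48 16 (.dbl 52 7 60))) .nd)))) .nd))))) (.rp 35 (.str 44 (.nv (.thr 5 53 (.thr 7 52 (.thr 6 4 (.dbl 10 2 15)))) (.nv (.thr 47 32 (.thr 46 45 (.dbl 62 2 30))) (.rp 56 (.str 11 (.nv (.thr 5 53 (.thr 7 52 (.dbl 15 3 10))) (.nv (.thr 47 32 (.thr 46 45 (.dbl 62 2 30))) .nd))) (.rp 11 (.str 56 (.nv (.thr 20 23 (.thr 52 7 (.dbl 60 40 48)))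 (.nv (.thr 62 2 (.thr 46 30 (.dbl 47 32 45))) .nd))) (.rp 2 (.thr 32 47 (.thr 40 36 (.dbl 20 23 60))) .nd)))))) (.rp 15 (.thr 2 62 (.thr 6 10 (.thr 7 52 (.dbl 5 4 53)))) (.rp 11 (.str 56 (.nv (.thr 2 62 (.thr 10 6 (.dbl 5 15 53))) (.nv (.thr 20 23 (.thr 60 40 (.dbl 52 7 48))) (.rp 60 (.thr 5 53 (.thr 10 15 (.dbl 2 6 62))) (.rp 44 (.str 35 (.nv (.thr 5 53 (.thr 7 52 (.thr 6 4 (.dbl 2 10 62)))) (.nv (.thr 2 62 (.thr 10 6 (.dbl 5 15 53))) (.nv (.thr 32 47 (.thr 48 16 (.dbl 52 7 60))) .nd)))) (.rp 35 (.str 44 (.nv (.thr 20 23 (.thr 52 7 (.dbl 60 40 48))) (.nv (.thr 62 2 (.thr 46 30 (.dbl 47 32 45))) .nd))) .nd)))))) (.rp 10 (.thr 32 47 (.thr 20 23 (.thr 40 60 (.thr 52 7 (.dbl 36 4 44))))) (.rp 6 (.thr 32 47 (.thr 20 23 (.thr 40 60 (.thr 52 7 (.dbl 36 4 44))))) (.rp 5 (.thr 32 47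 (.thr 20 23 (.thr 40 60 (.thr 52 7 (.dbl 36 4 44))))) (.rp 2 (.thr 32 47 (.thr 20 23 (.thr 40 60 (.thr 52 7 (.dbl 36 4 44))))) .nd)))))))))))))) (.rp 44 (.str 35 (.nv (.thr 2 62 (.thr 3 1 (.thr 32 47 (.thr 33 34 (.dbl 48 16 18))))) (.nv (.thr 2 62 (.thr 3 1 (.thr 5 53 (.thr 15 10 (.dbl 7 11 52))))) (.nv (.thr 23 20 (.thr 47 32 (.thr 39 43 (.dbl 7 52 55)))) (.rp 56 (.str 11 (.nv (.thr 2 62 (.thr 1 3 (.thr 5 53 (.thr 9 13 (.dbl 10 8 15))))) (.nv (.thr 23 20 (.thr 47 32 (.thr 39 43 (.dbl 7 52 55)))) (.nv (.thr 2 62 (.thr 3 1 (.dbl 7 15 52))) (.rp 50 (.str 14 (.nv (.thr 2 62 (.thr 10 6 (.dbl 5 15 53))) (.nv (.thr 23 20 (.thr 47 32 (.thr 39 43 (.dbl 7 52 55)))) (.nv (.thr 5 53 (.thr 15 10 (.dbl 7 3 52))) .nd)))) (.rp 14 (.str 50 (.nv (.thr 32 47 (.thr 34 33 (.dbl 2 18 62))) (.nv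 (.thr 23 20 (.thr 47 32 (.thr 39 43 (.dbl 7 52 55)))) (.nv (.thr 2 62 (.thr 3 1 (.dbl 7 15 52))) .nd)))) .nd)))))) (.rp 50 (.str 14 (.nv (.thr 7 52 (.thr 23 20 (.thr 47 32 (.dbl 39 43 55)))) (.nv (.thr 2 62 (.thr 10 6 (.dbl 5 15 53))) (.rp 56 (.str 11 (.nv (.thr 2 62 (.thr 10 6 (.dbl 5 15 53))) (.nv (.thr 23 20 (.thr 47 32 (.thr 39 43 (.dbl 7 52 55)))) (.nv (.thr 5 53 (.thr 15 10 (.dbl 7 3 52))) .nd)))) (.rp 11 (.str 56 (.nv (.thr 5 53 (.thr 7 52 (.thr 6 4 (.dbl 2 10 62)))) (.nv (.thr 2 62 (.thr 10 6 (.dbl 5 15 53))) (.nv (.thr 32 47 (.thr 48 16 (.dbl 52 7 60))) .nd)))) .nd))))) (.rp 14 (.str 50 (.nv (.thr 2 62 (.thr 3 1 (.thr 34 18 (.dbl 51 17 19)))) (.nv (.thr 7 52 (.thr 23 20 (.thr 39 55 (.dbl 47 32 43)))) (.nv (.thr 2 62 (.thr 34 18 (.dbl 32 33 47))) (.rp 56 (.str 11 (.nv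 (.thr 32 47 (.thr 34 33 (.dbl 2 18 62))) (.nv (.thr 23 20 (.thr 47 32 (.thr 39 43 (.dbl 7 52 55)))) (.nv (.thr 2 62 (.thr 3 1 (.dbl 7 15 52))) .nd)))) (.rp 11 (.str 56 (.nv (.thr 7 52 (.thr 23 20 (.thr 39 55 (.dbl 47 32 43)))) (.nv (.thr 2 62 (.thr 3 1 (.thr 34 18 (.dbl 51 17 19)))) (.nv (.thr 32 47 (.thr 48 16 (.dbl 52 7 60))) .nd)))) .nd)))))) (.rp 11 (.str 56 (.nv (.thr 20 23 (.thr 52 7 (.dbl 60 40 48))) (.nv (.thr 2 62 (.thr 3 1 (.thr 51 19 (.thr 34 17 (.dbl 32 33 47))))) (.nv (.thr 32 47 (.thr 48 16 (.dbl 52 7 60))) (.rp 60 (.thr 23 20 (.thr 7 52 (.thr 39 55 (.dbl 47 32 43)))) (.rp 50 (.str 14 (.nv (.thr 5 53 (.thr 7 52 (.thr 6 4 (.dbl 2 10 62)))) (.nv (.thr 2 62 (.thr 10 6 (.dbl 5 15 53))) (.nv (.thr 32 47 (.thr 48 16 (.dbl 52 7 60))) .nd)))) (.rp 14 (.str 50 (.nv (.thr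 7 52 (.thr 23 20 (.thr 39 55 (.dbl 47 32 43)))) (.nv (.thr 2 62 (.thr 3 1 (.thr 34 18 (.dbl 51 17 19)))) (.nv (.thr 32 47 (.thr 48 16 (.dbl 52 7 60))) .nd)))) .nd))))))) .nd)))))))) (.rp 35 (.str 44 (.nv (.thr 20 23 (.thr 52 7 (.thr 36 4 (.dbl 32 40 47)))) (.nv (.thr 2 62 (.thr 3 1 (.thr 5 53 (.thr 7 52 (.dbl 15 10 11))))) (.nv (.thr 32 47 (.thr 40 36 (.dbl 20 23 60))) (.rp 56 (.str 11 (.nv (.thr 32 47 (.thr 40 36 (.dbl 20 23 60))) (.nv (.thr 5 53 (.thr 15 10 (.dbl 7 3 52))) (.rp 50 (.str 14 (.nv (.thr 5 53 (.thr 7 52 (.dbl 15 3 10))) (.nv (.thr 47 32 (.thr 46 45 (.dbl 62 2 30))) .nd))) (.rp 15 (.thr 20 23 (.thr 40 60 (.dbl 32 36 47))) (.rp 14 (.str 50 (.nv (.thr 20 23 (.thr 52 7 (.thr 36 4 (.dbl 32 40 47)))) (.nv (.thr 32 47 (.thr 40 36 (.dbl 20 23 60))) (.nv (.thr 2 62 (.thr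 3 1 (.dbl 7 15 52))) .nd)))) .nd)))))) (.rp 50 (.str 14 (.nv (.thr 5 53 (.thr 7 52 (.thr 6 4 (.dbl 10 2 15)))) (.nv (.thr 47 32 (.thr 46 45 (.dbl 62 2 30))) (.rp 56 (.str 11 (.nv (.thr 5 53 (.thr 7 52 (.dbl 15 3 10))) (.nv (.thr 47 32 (.thr 46 45 (.dbl 62 2 30))) .nd))) (.rp 11 (.str 56 (.nv (.thr 20 23 (.thr 52 7 (.dbl 60 40 48))) (.nv (.thr 62 2 (.thr 46 30 (.dbl 47 32 45))) .nd))) (.rp 2 (.thr 32 47 (.thr 40 36 (.dbl 20 23 60))) .nd)))))) (.rp 14 (.str 50 (.nv (.thr 52 7 (.thr 53 5 (.thr 62 2 (.dbl 54 55 58)))) (.nv (.thr 32 47 (.thr 40 36 (.dbl 20 23 60))) (.rp 56 (.str 11 (.nv (.thr 20 23 (.thr 52 7 (.thr 36 4 (.dbl 32 40 47)))) (.nv (.thr 32 47 (.thr 40 36 (.dbl 20 23 60))) (.nv (.thr 2 62 (.thr 3 1 (.dbl 7 15 52))) .nd)))) (.rp 11 (.str 56 (.nv (.thr 32 47 (.thr 40 36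 (.dbl 20 23 60))) (.nv (.thr 53 5 (.thr 62 2 (.thr 54 58 (.dbl 52 7 55)))) (.nv (.thr 20 23 (.thr 60 40 (.dbl 52 7 48))) .nd)))) .nd))))) (.rp 11 (.str 56 (.nv (.thr 20 23 (.thr 32 47 (.dbl 40 36 60))) (.nv (.thr 5 53 (.thr 7 52 (.thr 6 4 (.thr 10 15 (.dbl 2 14 62))))) (.nv (.thr 20 23 (.thr 60 40 (.dbl 52 7 48))) (.rp 50 (.str 14 (.nv (.thr 20 23 (.thr 52 7 (.dbl 60 40 48))) (.nv (.thr 62 2 (.thr 46 30 (.dbl 47 32 45))) .nd))) (.rp 20 (.thr 32 47 (.thr 48 16 (.dbl 52 7 60))) (.rp 14 (.str 50 (.nv (.thr 32 47 (.thr 40 36 (.dbl 20 23 60))) (.nv (.thr 53 5 (.thr 62 2 (.thr 54 58 (.dbl 52 7 55)))) (.nv (.thr 20 23 (.thr 60 40 (.dbl 52 7 48))) .nd)))) .nd))))))) .nd)))))))) (.rp 14 (.str 50 (.nv (.thr 2 62 (.thr 3 1 (.thr 18 34 (.thr 32 47 (.dbl 48 16 33))))) (.nv (.thr 32 47 (.thr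 48 16 (.thr 20 23 (.thr 60 40 (.dbl 52 7 56))))) (.nv (.thr 52 7 (.thr 62 2 (.thr 54 58 (.dbl 53 5 55)))) (.rp 56 (.str 11 (.nv (.thr 5 53 (.thr 7 52 (.dbl 15 3 10))) (.nv (.thr 2 62 (.thr 1 3 (.thr 5 53 (.thr 9 13 (.dbl 10 8 15))))) (.nv (.thr 52 7 (.thr 53 5 (.thr 54 55 (.dbl 62 2 58)))) (.nv (.thr 2 62 (.thr 3 1 (.dbl 7 15 52))) (.rp 44 (.str 35 (.nv (.thr 32 47 (.thr 34 33 (.dbl 2 18 62))) (.nv (.thr 23 20 (.thr 47 32 (.thr 39 43 (.dbl 7 52 55)))) (.nv (.thr 2 62 (.thr 3 1 (.dbl 7 15 52))) .nd)))) (.rp 35 (.str 44 (.nv (.thr 20 23 (.thr 52 7 (.thr 36 4 (.dbl 32 40 47)))) (.nv (.thr 32 47 (.thr 40 36 (.dbl 20 23 60))) (.nv (.thr 2 62 (.thr 3 1 (.dbl 7 15 52))) .nd)))) .nd))))))) (.rp 44 (.str 35 (.nv (.thr 2 62 (.thr 3 1 (.thr 34 18 (.dbl 51 17 19)))) (.nv (.thr 7 52 (.thr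 23 20 (.thr 39 55 (.dbl 47 32 43)))) (.nv (.thr 2 62 (.thr 34 18 (.dbl 32 33 47))) (.rp 56 (.str 11 (.nv (.thr 32 47 (.thr 34 33 (.dbl 2 18 62))) (.nv (.thr 23 20 (.thr 47 32 (.thr 39 43 (.dbl 7 52 55)))) (.nv (.thr 2 62 (.thr 3 1 (.dbl 7 15 52))) .nd)))) (.rp 11 (.str 56 (.nv (.thr 7 52 (.thr 23 20 (.thr 39 55 (.dbl 47 32 43)))) (.nv (.thr 2 62 (.thr 3 1 (.thr 34 18 (.dbl 51 17 19)))) (.nv (.thr 32 47 (.thr 48 16 (.dbl 52 7 60))) .nd)))) .nd)))))) (.rp 35 (.str 44 (.nv (.thr 52 7 (.thr 53 5 (.thr 62 2 (.dbl 54 55 58)))) (.nv (.thr 32 47 (.thr 40 36 (.dbl 20 23 60))) (.rp 56 (.str 11 (.nv (.thr 20 23 (.thr 52 7 (.thr 36 4 (.dbl 32 40 47)))) (.nv (.thr 32 47 (.thr 40 36 (.dbl 20 23 60))) (.nv (.thr 2 62 (.thr 3 1 (.dbl 7 15 52))) .nd)))) (.rp 11 (.str 56 (.nv (.thr 32 47 (.thr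 40 36 (.dbl 20 23 60))) (.nv (.thr 53 5 (.thr 62 2 (.thr 54 58 (.dbl 52 7 55)))) (.nv (.thr 20 23 (.thr 60 40 (.dbl 52 7 48))) .nd)))) .nd))))) (.rp 11 (.str 56 (.nv (.thr 2 62 (.thr 3 1 (.thr 18 34 (.thr 32 47 (.dbl 48 16 33))))) (.nv (.thr 53 5 (.thr 62 2 (.thr 54 58 (.dbl 52 7 55)))) (.nv (.thr 32 47 (.thr 48 16 (.dbl 52 7 60))) (.rp 44 (.str 35 (.nv (.thr 7 52 (.thr 23 20 (.thr 39 55 (.dbl 47 32 43)))) (.nv (.thr 2 62 (.thr 3 1 (.thr 34 18 (.dbl 51 17 19)))) (.nv (.thr 32 47 (.thr 48 16 (.dbl 52 7 60))) .nd)))) (.rp 35 (.str 44 (.nv (.thr 32 47 (.thr 40 36 (.dbl 20 23 60))) (.nv (.thr 53 5 (.thr 62 2 (.thr 54 58 (.dbl 52 7 55)))) (.nv (.thr 20 23 (.thr 60 40 (.dbl 52 7 48))) .nd)))) .nd)))))) .nd)))))))) (.rp 11 (.str 56 (.nv (.thr 20 23 (.thr 32 47 (.thr 16 48 (.thr 24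 28 (.dbl 40 8 60))))) (.nv (.thr 20 23 (.thr 60 40 (.dbl 52 7 48))) (.nv (.thr 32 47 (.thr 48 16 (.dbl 52 7 60))) (.rp 60 (.thr 7 52 (.thr 5 53 (.thr 6 4 (.thr 10 15 (.dbl 2 14 62))))) (.rp 50 (.str 14 (.nv (.thr 2 62 (.thr 10 6 (.dbl 5 15 53))) (.nv (.thr 20 23 (.thr 60 40 (.dbl 52 7 48))) (.rp 60 (.thr 5 53 (.thr 10 15 (.dbl 2 6 62))) (.rp 44 (.str 35 (.nv (.thr 5 53 (.thr 7 52 (.thr 6 4 (.dbl 2 10 62)))) (.nv (.thr 2 62 (.thr 10 6 (.dbl 5 15 53))) (.nv (.thr 32 47 (.thr 48 16 (.dbl 52 7 60))) .nd)))) (.rp 35 (.str 44 (.nv (.thr 20 23 (.thr 52 7 (.dbl 60 40 48))) (.nv (.thr 62 2 (.thr 46 30 (.dbl 47 32 45))) .nd))) .nd)))))) (.rp 48 (.thr 20 23 (.thr 52 7 (.thr 36 4 (.thr 40 60 (.dbl 32 44 47))))) (.rp 44 (.str 35 (.nv (.thr 20 23 (.thr 52 7 (.dbl 60 40 48))) (.nv (.thr 2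 62 (.thr 3 1 (.thr 51 19 (.thr 34 17 (.dbl 32 33 47))))) (.nv (.thr 32 47 (.thr 48 16 (.dbl 52 7 60))) (.rp 60 (.thr 23 20 (.thr 7 52 (.thr 39 55 (.dbl 47 32 43)))) (.rp 50 (.str 14 (.nv (.thr 5 53 (.thr 7 52 (.thr 6 4 (.dbl 2 10 62)))) (.nv (.thr 2 62 (.thr 10 6 (.dbl 5 15 53))) (.nv (.thr 32 47 (.thr 48 16 (.dbl 52 7 60))) .nd)))) (.rp 14 (.str 50 (.nv (.thr 7 52 (.thr 23 20 (.thr 39 55 (.dbl 47 32 43)))) (.nv (.thr 2 62 (.thr 3 1 (.thr 34 18 (.dbl 51 17 19)))) (.nv (.thr 32 47 (.thr 48 16 (.dbl 52 7 60))) .nd)))) .nd))))))) (.rp 35 (.str 44 (.nv (.thr 20 23 (.thr 32 47 (.dbl 40 36 60))) (.nv (.thr 5 53 (.thr 7 52 (.thr 6 4 (.thr 10 15 (.dbl 2 14 62))))) (.nv (.thr 20 23 (.thr 60 40 (.dbl 52 7 48))) (.rp 50 (.str 14 (.nv (.thr 20 23 (.thr 52 7 (.dbl 60 40 48))) (.nv (.thr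 62 2 (.thr 46 30 (.dbl 47 32 45))) .nd))) (.rp 20 (.thr 32 47 (.thr 48 16 (.dbl 52 7 60))) (.rp 14 (.str 50 (.nv (.thr 32 47 (.thr 40 36 (.dbl 20 23 60))) (.nv (.thr 53 5 (.thr 62 2 (.thr 54 58 (.dbl 52 7 55)))) (.nv (.thr 20 23 (.thr 60 40 (.dbl 52 7 48))) .nd)))) .nd))))))) (.rp 14 (.str 50 (.nv (.thr 2 62 (.thr 3 1 (.thr 18 34 (.thr 32 47 (.dbl 48 16 33))))) (.nv (.thr 53 5 (.thr 62 2 (.thr 54 58 (.dbl 52 7 55)))) (.nv (.thr 32 47 (.thr 48 16 (.dbl 52 7 60))) (.rp 44 (.str 35 (.nv (.thr 7 52 (.thr 23 20 (.thr 39 55 (.dbl 47 32 43)))) (.nv (.thr 2 62 (.thr 3 1 (.thr 34 18 (.dbl 51 17 19)))) (.nv (.thr 32 47 (.thr 48 16 (.dbl 52 7 60))) .nd)))) (.rp 35 (.str 44 (.nv (.thr 32 47 (.thr 40 36 (.dbl 20 23 60))) (.nv (.thr 53 5 (.thr 62 2 (.thr 54 58 (.dbl 52 7 55)))) (.nv (.thr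 20 23 (.thr 60 40 (.dbl 52 7 48))) .nd)))) .nd)))))) .nd)))))))))) (.rp 7 (.thr 20 23 (.thr 60 40 (.thr 32 47 (.thr 16 48 (.thr 28 24 (.thr 25 19 (.thr 8 59 (.dbl 12 4 44)))))))) .nd))))))))))))) (.rp 56 (.str 11 (.nv (.thr 0 63 (.thr 2 62 (.thr 1 3 (.thr 5 53 (.thr 9 13 (.dbl 10 8 15)))))) (.nv (.thr 0 63 (.thr 5 53 (.thr 15 10 (.dbl 7 3 52)))) (.nv (.thr 2 62 (.thr 0 63 (.thr 3 1 (.dbl 7 15 52)))) (.rp 63 (.thr 5 53 (.thr 7 52 (.thr 6 4 (.thr 15 3 (.thr 10 0 (.dbl 2 14 62)))))) (.rp 50 (.str 14 (.nv (.thr 0 63 (.thr 2 62 (.thr 5 53 (.dbl 10 6 15)))) (.nv (.thr 2 62 (.thr 5 53 (.thr 6 10 (.dbl 7 4 52)))) (.nv (.thr 47 32 (.thr 63 0 (.thr 15 31 (.dbl 7 3 52)))) (.rp 44 (.str 35 (.nv (.thr 23 20 (.thr 47 32 (.thr 43 39 (.dbl 63 0 3)))) (.nv (.thr 2 62 (.thr 6 10 (.thr 5 53 (.dbl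 7 4 52)))) .nd))) (.rp 35 (.str 44 (.nv (.thr 0 63 (.thr 5 53 (.thr 7 52 (.dbl 15 3 10)))) (.nv (.thr 62 2 (.thr 46 30 (.dbl 47 32 45))) .nd))) .nd)))))) (.rp 44 (.str 35 (.nv (.thr 23 20 (.thr 47 32 (.thr 43 39 (.dbl 63 0 3)))) (.nv (.thr 23 20 (.thr 47 32 (.thr 39 43 (.dbl 7 52 55)))) (.nv (.thr 2 62 (.thr 0 63 (.thr 3 1 (.dbl 7 15 52)))) (.rp 50 (.str 14 (.nv (.thr 23 20 (.thr 47 32 (.thr 43 39 (.dbl 63 0 3)))) (.nv (.thr 2 62 (.thr 6 10 (.thr 5 53 (.dbl 7 4 52)))) .nd))) (.rp 14 (.str 50 (.nv (.thr 0 63 (.thr 5 53 (.thr 7 52 (.dbl 15 3 10)))) (.nv (.thr 32 47 (.thr 34 33 (.dbl 2 18 62))) .nd))) .nd)))))) (.rp 35 (.str 44 (.nv (.thr 0 63 (.thr 20 23 (.thr 32 47 (.dbl 40 36 60)))) (.nv (.thr 20 23 (.thr 52 7 (.thr 36 4 (.dbl 32 40 47)))) (.nv (.thr 0 63 (.thr 2 62 (.thr 3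 1 (.dbl 7 15 52)))) (.rp 50 (.str 14 (.nv (.thr 0 63 (.thr 5 53 (.thr 7 52 (.dbl 15 3 10)))) (.nv (.thr 62 2 (.thr 46 30 (.dbl 47 32 45))) .nd))) (.rp 14 (.str 50 (.nv (.thr 52 7 (.thr 53 5 (.thr 62 2 (.dbl 54 55 58)))) (.nv (.thr 20 23 (.thr 32 47 (.thr 40 36 (.dbl 0 60 63)))) .nd))) .nd)))))) (.rp 15 (.thr 7 52 (.thr 23 20 (.thr 55 39 (.thr 63 0 (.thr 43 3 (.dbl 59 27 51)))))) (.rp 14 (.str 50 (.nv (.thr 53 5 (.thr 62 2 (.thr 58 54 (.dbl 63 0 48)))) (.nv (.thr 53 5 (.thr 52 7 (.thr 54 55 (.dbl 62 2 58)))) (.nv (.thr 7 52 (.thr 15 3 (.thr 47 32 (.dbl 63 0 31)))) (.rp 44 (.str 35 (.nv (.thr 0 63 (.thr 5 53 (.thr 7 52 (.dbl 15 3 10)))) (.nv (.thr 32 47 (.thr 34 33 (.dbl 2 18 62))) .nd))) (.rp 35 (.str 44 (.nv (.thr 52 7 (.thr 53 5 (.thr 62 2 (.dbl 54 55 58)))) (.nv (.thr 20 23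 (.thr 32 47 (.thr 40 36 (.dbl 0 60 63)))) .nd))) .nd)))))) (.rp 3 (.thr 53 5 (.thr 52 7 (.thr 54 55 (.thr 63 0 (.thr 58 48 (.dbl 62 2 50)))))) (.rp 0 (.thr 7 52 (.thr 23 20 (.thr 39 55 (.thr 47 32 (.thr 3 15 (.dbl 43 35 63)))))) .nd)))))))))))) (.rp 52 (.thr 23 20 (.thr 63 0 (.thr 3 43 (.thr 47 32 (.thr 31 15 (.thr 19 27 (.thr 25 28 (.thr 59 8 (.dbl 51 35 55))))))))) (.rp 50 (.str 14 (.nv (.thr 0 63 (.thr 5 53 (.thr 10 15 (.dbl 2 6 62)))) (.nv (.thr 2 62 (.thr 5 53 (.thr 6 10 (.dbl 7 4 52)))) (.rp 62 (.thr 7 52 (.thr 5 53 (.thr 6 4 (.thr 0 63 (.dbl 10 2 15))))) (.rp 58 (.thr 7 52 (.thr 5 53 (.thr 6 4 (.dbl 2 10 62)))) (.rp 56 (.str 11 (.nv (.thr 0 63 (.thr 2 62 (.thr 5 53 (.dbl 10 6 15)))) (.nv (.thr 2 62 (.thr 5 53 (.thr 6 10 (.dbl 7 4 52)))) (.nv (.thr 47 32 (.thr 63 0 (.thr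 15 31 (.dbl 7 3 52)))) (.rp 44 (.str 35 (.nv (.thr 23 20 (.thr 47 32 (.thr 43 39 (.dbl 63 0 3)))) (.nv (.thr 2 62 (.thr 6 10 (.thr 5 53 (.dbl 7 4 52)))) .nd))) (.rp 35 (.str 44 (.nv (.thr 0 63 (.thr 5 53 (.thr 7 52 (.dbl 15 3 10)))) (.nv (.thr 62 2 (.thr 46 30 (.dbl 47 32 45))) .nd))) .nd)))))) (.rp 53 (.thr 20 23 (.thr 52 7 (.thr 36 4 (.thr 0 63 (.thr 40 60 (.dbl 32 44 47)))))) (.rp 44 (.str 35 (.nv (.thr 23 20 (.thr 47 32 (.thr 43 39 (.dbl 63 0 3)))) (.nv (.thr 2 62 (.thr 6 10 (.thr 5 53 (.dbl 7 4 52)))) (.rp 56 (.str 11 (.nv (.thr 23 20 (.thr 47 32 (.thr 43 39 (.dbl 63 0 3)))) (.nv (.thr 2 62 (.thr 6 10 (.thr 5 53 (.dbl 7 4 52)))) .nd))) (.rp 11 (.str 56 (.nv (.thr 7 52 (.thr 23 20 (.thr 47 32 (.dbl 39 43 55)))) (.nv (.thr 2 62 (.thr 5 53 (.thr 10 6 (.dbl 0 15 63)))) .nd)))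 .nd))))) (.rp 35 (.str 44 (.nv (.thr 0 63 (.thr 5 53 (.thr 7 52 (.thr 6 4 (.dbl 10 2 15))))) (.nv (.thr 62 2 (.thr 46 30 (.dbl 47 32 45))) (.rp 56 (.str 11 (.nv (.thr 0 63 (.thr 5 53 (.thr 7 52 (.dbl 15 3 10)))) (.nv (.thr 62 2 (.thr 46 30 (.dbl 47 32 45))) .nd))) (.rp 11 (.str 56 (.nv (.thr 0 63 (.thr 20 23 (.thr 52 7 (.dbl 60 40 48)))) (.nv (.thr 47 32 (.thr 46 45 (.dbl 62 2 30))) .nd))) (.rp 2 (.thr 20 23 (.thr 52 7 (.thr 36 4 (.dbl 32 40 47)))) .nd)))))) (.rp 11 (.str 56 (.nv (.thr 0 63 (.thr 2 62 (.thr 5 53 (.dbl 10 6 15)))) (.nv (.thr 2 62 (.thr 5 53 (.thr 6 10 (.dbl 7 4 52)))) (.nv (.thr 0 63 (.thr 20 23 (.thr 60 40 (.dbl 52 7 48)))) (.rp 44 (.str 35 (.nv (.thr 7 52 (.thr 23 20 (.thr 47 32 (.dbl 39 43 55)))) (.nv (.thr 2 62 (.thr 5 53 (.thr 10 6 (.dbl 0 15 63)))) .nd)))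 (.rp 35 (.str 44 (.nv (.thr 0 63 (.thr 20 23 (.thr 52 7 (.dbl 60 40 48)))) (.nv (.thr 47 32 (.thr 46 45 (.dbl 62 2 30))) .nd))) .nd)))))) (.rp 10 (.thr 20 23 (.thr 52 7 (.thr 36 4 (.thr 0 63 (.thr 40 60 (.dbl 32 44 47)))))) (.rp 6 (.thr 20 23 (.thr 52 7 (.thr 0 63 (.thr 60 40 (.thr 32 47 (.dbl 48 16 56)))))) (.rp 5 (.thr 20 23 (.thr 52 7 (.thr 0 63 (.thr 60 40 (.thr 32 47 (.dbl 48 16 56)))))) (.rp 2 (.thr 20 23 (.thr 52 7 (.thr 36 4 (.thr 0 63 (.thr 40 60 (.dbl 32 44 47)))))) .nd)))))))))))))) (.rp 44 (.str 35 (.nv (.thr 23 20 (.thr 47 32 (.thr 43 39 (.dbl 63 0 3)))) (.nv (.thr 0 63 (.thr 2 62 (.thr 3 1 (.thr 5 53 (.thr 15 10 (.dbl 7 11 52)))))) (.nv (.thr 23 20 (.thr 47 32 (.thr 39 43 (.dbl 7 52 55)))) (.rp 56 (.str 11 (.nv (.thr 23 20 (.thr 47 32 (.thr 43 39 (.dbl 63 0 3))))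 (.nv (.thr 23 20 (.thr 47 32 (.thr 39 43 (.dbl 7 52 55)))) (.nv (.thr 2 62 (.thr 0 63 (.thr 3 1 (.dbl 7 15 52)))) (.rp 50 (.str 14 (.nv (.thr 23 20 (.thr 47 32 (.thr 43 39 (.dbl 63 0 3)))) (.nv (.thr 2 62 (.thr 6 10 (.thr 5 53 (.dbl 7 4 52)))) .nd))) (.rp 14 (.str 50 (.nv (.thr 0 63 (.thr 5 53 (.thr 7 52 (.dbl 15 3 10)))) (.nv (.thr 32 47 (.thr 34 33 (.dbl 2 18 62))) .nd))) .nd)))))) (.rp 50 (.str 14 (.nv (.thr 23 20 (.thr 47 32 (.thr 43 39 (.dbl 63 0 3)))) (.nv (.thr 2 62 (.thr 6 10 (.thr 5 53 (.dbl 7 4 52)))) (.rp 56 (.str 11 (.nv (.thr 23 20 (.thr 47 32 (.thr 43 39 (.dbl 63 0 3)))) (.nv (.thr 2 62 (.thr 6 10 (.thr 5 53 (.dbl 7 4 52)))) .nd))) (.rp 11 (.str 56 (.nv (.thr 7 52 (.thr 23 20 (.thr 47 32 (.dbl 39 43 55)))) (.nv (.thr 2 62 (.thr 5 53 (.thr 10 6 (.dbl 0 15 63))))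 .nd))) .nd))))) (.rp 14 (.str 50 (.nv (.thr 52 7 (.thr 53 5 (.thr 54 55 (.dbl 62 2 58)))) (.nv (.thr 7 52 (.thr 23 20 (.thr 39 55 (.dbl 47 32 43)))) (.nv (.thr 2 62 (.thr 34 18 (.dbl 32 33 47))) (.rp 56 (.str 11 (.nv (.thr 0 63 (.thr 5 53 (.thr 7 52 (.dbl 15 3 10)))) (.nv (.thr 32 47 (.thr 34 33 (.dbl 2 18 62))) .nd))) (.rp 11 (.str 56 (.nv (.thr 0 63 (.thr 20 23 (.thr 52 7 (.dbl 60 40 48)))) (.nv (.thr 2 62 (.thr 34 18 (.dbl 32 33 47))) .nd))) .nd)))))) (.rp 11 (.str 56 (.nv (.thr 23 20 (.thr 7 52 (.thr 39 55 (.dbl 47 32 43)))) (.nv (.thr 53 5 (.thr 63 0 (.thr 48 58 (.dbl 52 7 60)))) (.nv (.thr 23 20 (.thr 47 32 (.thr 43 39 (.dbl 63 0 3)))) (.rp 50 (.str 14 (.nv (.thr 7 52 (.thr 23 20 (.thr 47 32 (.dbl 39 43 55)))) (.nv (.thr 2 62 (.thr 5 53 (.thr 10 6 (.dbl 0 15 63)))) .nd)))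 (.rp 14 (.str 50 (.nv (.thr 0 63 (.thr 20 23 (.thr 52 7 (.dbl 60 40 48)))) (.nv (.thr 2 62 (.thr 34 18 (.dbl 32 33 47))) .nd))) .nd)))))) .nd)))))))) (.rp 35 (.str 44 (.nv (.thr 0 63 (.thr 20 23 (.thr 32 47 (.dbl 40 36 60)))) (.nv (.thr 0 63 (.thr 2 62 (.thr 3 1 (.thr 5 53 (.thr 7 52 (.dbl 15 10 11)))))) (.nv (.thr 20 23 (.thr 32 47 (.thr 36 40 (.dbl 52 4 7)))) (.rp 56 (.str 11 (.nv (.thr 0 63 (.thr 20 23 (.thr 32 47 (.dbl 40 36 60)))) (.nv (.thr 20 23 (.thr 52 7 (.thr 36 4 (.dbl 32 40 47)))) (.nv (.thr 0 63 (.thr 2 62 (.thr 3 1 (.dbl 7 15 52)))) (.rp 50 (.str 14 (.nv (.thr 0 63 (.thr 5 53 (.thr 7 52 (.dbl 15 3 10)))) (.nv (.thr 62 2 (.thr 46 30 (.dbl 47 32 45))) .nd))) (.rp 14 (.str 50 (.nv (.thr 52 7 (.thr 53 5 (.thr 62 2 (.dbl 54 55 58)))) (.nv (.thr 20 23 (.thr 32 47 (.thr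 40 36 (.dbl 0 60 63)))) .nd))) .nd)))))) (.rp 50 (.str 14 (.nv (.thr 0 63 (.thr 5 53 (.thr 7 52 (.thr 6 4 (.dbl 10 2 15))))) (.nv (.thr 62 2 (.thr 46 30 (.dbl 47 32 45))) (.rp 56 (.str 11 (.nv (.thr 0 63 (.thr 5 53 (.thr 7 52 (.dbl 15 3 10)))) (.nv (.thr 62 2 (.thr 46 30 (.dbl 47 32 45))) .nd))) (.rp 11 (.str 56 (.nv (.thr 0 63 (.thr 20 23 (.thr 52 7 (.dbl 60 40 48)))) (.nv (.thr 47 32 (.thr 46 45 (.dbl 62 2 30))) .nd))) (.rp 2 (.thr 20 23 (.thr 52 7 (.thr 36 4 (.dbl 32 40 47)))) .nd)))))) (.rp 14 (.str 50 (.nv (.thr 53 5 (.thr 62 2 (.thr 58 54 (.dbl 63 0 48)))) (.nv (.thr 32 47 (.thr 36 40 (.thr 20 23 (.dbl 52 4 7)))) (.rp 56 (.str 11 (.nv (.thr 52 7 (.thr 53 5 (.thr 62 2 (.dbl 54 55 58)))) (.nv (.thr 20 23 (.thr 32 47 (.thr 40 36 (.dbl 0 60 63)))) .nd))) (.rp 11 (.str 56 (.nv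 (.thr 53 5 (.thr 62 2 (.thr 58 54 (.dbl 63 0 48)))) (.nv (.thr 32 47 (.thr 36 40 (.thr 20 23 (.dbl 52 4 7)))) .nd))) .nd))))) (.rp 11 (.str 56 (.nv (.thr 0 63 (.thr 20 23 (.thr 32 47 (.dbl 40 36 60)))) (.nv (.thr 20 23 (.thr 32 47 (.thr 36 40 (.dbl 52 4 7)))) (.nv (.thr 62 2 (.thr 63 0 (.thr 60 61 (.dbl 52 7 48)))) (.rp 50 (.str 14 (.nv (.thr 0 63 (.thr 20 23 (.thr 52 7 (.dbl 60 40 48)))) (.nv (.thr 47 32 (.thr 46 45 (.dbl 62 2 30))) .nd))) (.rp 14 (.str 50 (.nv (.thr 53 5 (.thr 62 2 (.thr 58 54 (.dbl 63 0 48)))) (.nv (.thr 32 47 (.thr 36 40 (.thr 20 23 (.dbl 52 4 7)))) .nd))) .nd)))))) .nd)))))))) (.rp 14 (.str 50 (.nv (.thr 53 5 (.thr 62 2 (.thr 58 54 (.dbl 63 0 48)))) (.nv (.thr 0 63 (.thr 20 23 (.thr 32 47 (.thr 48 16 (.thr 60 40 (.dbl 52 7 56)))))) (.nv (.thr 52 7 (.thr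 62 2 (.thr 54 58 (.dbl 53 5 55)))) (.rp 56 (.str 11 (.nv (.thr 53 5 (.thr 62 2 (.thr 58 54 (.dbl 63 0 48)))) (.nv (.thr 53 5 (.thr 52 7 (.thr 54 55 (.dbl 62 2 58)))) (.nv (.thr 7 52 (.thr 15 3 (.thr 47 32 (.dbl 63 0 31)))) (.rp 44 (.str 35 (.nv (.thr 0 63 (.thr 5 53 (.thr 7 52 (.dbl 15 3 10)))) (.nv (.thr 32 47 (.thr 34 33 (.dbl 2 18 62))) .nd))) (.rp 35 (.str 44 (.nv (.thr 52 7 (.thr 53 5 (.thr 62 2 (.dbl 54 55 58)))) (.nv (.thr 20 23 (.thr 32 47 (.thr 40 36 (.dbl 0 60 63)))) .nd))) .nd)))))) (.rp 44 (.str 35 (.nv (.thr 52 7 (.thr 53 5 (.thr 54 55 (.dbl 62 2 58)))) (.nv (.thr 7 52 (.thr 23 20 (.thr 39 55 (.dbl 47 32 43)))) (.nv (.thr 2 62 (.thr 34 18 (.dbl 32 33 47))) (.rp 56 (.str 11 (.nv (.thr 0 63 (.thr 5 53 (.thr 7 52 (.dbl 15 3 10)))) (.nv (.thr 32 47 (.thr 34 33 (.dbl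 2 18 62))) .nd))) (.rp 11 (.str 56 (.nv (.thr 0 63 (.thr 20 23 (.thr 52 7 (.dbl 60 40 48)))) (.nv (.thr 2 62 (.thr 34 18 (.dbl 32 33 47))) .nd))) .nd)))))) (.rp 35 (.str 44 (.nv (.thr 53 5 (.thr 62 2 (.thr 58 54 (.dbl 63 0 48)))) (.nv (.thr 32 47 (.thr 36 40 (.thr 20 23 (.dbl 52 4 7)))) (.rp 56 (.str 11 (.nv (.thr 52 7 (.thr 53 5 (.thr 62 2 (.dbl 54 55 58)))) (.nv (.thr 20 23 (.thr 32 47 (.thr 40 36 (.dbl 0 60 63)))) .nd))) (.rp 11 (.str 56 (.nv (.thr 53 5 (.thr 62 2 (.thr 58 54 (.dbl 63 0 48)))) (.nv (.thr 32 47 (.thr 36 40 (.thr 20 23 (.dbl 52 4 7)))) .nd))) .nd))))) (.rp 11 (.str 56 (.nv (.thr 53 5 (.thr 62 2 (.thr 58 54 (.dbl 63 0 48)))) (.nv (.thr 53 5 (.thr 62 2 (.thr 54 58 (.dbl 52 7 55)))) (.nv (.thr 32 47 (.thr 0 63 (.thr 48 16 (.dbl 52 7 60)))) (.rp 44 (.str 35 (.nv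 (.thr 0 63 (.thr 20 23 (.thr 52 7 (.dbl 60 40 48)))) (.nv (.thr 2 62 (.thr 34 18 (.dbl 32 33 47))) .nd))) (.rp 35 (.str 44 (.nv (.thr 53 5 (.thr 62 2 (.thr 58 54 (.dbl 63 0 48)))) (.nv (.thr 32 47 (.thr 36 40 (.thr 20 23 (.dbl 52 4 7)))) .nd))) .nd)))))) .nd)))))))) (.rp 11 (.str 56 (.nv (.thr 0 63 (.thr 20 23 (.thr 32 47 (.thr 16 48 (.thr 24 28 (.dbl 40 8 60)))))) (.nv (.thr 0 63 (.thr 20 23 (.thr 60 40 (.dbl 52 7 48)))) (.nv (.thr 32 47 (.thr 0 63 (.thr 48 16 (.dbl 52 7 60)))) (.rp 63 (.thr 20 23 (.thr 52 7 (.thr 36 4 (.thr 60 48 (.thr 40 0 (.dbl 32 44 47)))))) (.rp 60 (.thr 52 7 (.thr 53 5 (.thr 55 54 (.thr 63 0 (.thr 58 48 (.dbl 59 51 57)))))) (.rp 50 (.str 14 (.nv (.thr 0 63 (.thr 2 62 (.thr 5 53 (.dbl 10 6 15)))) (.nv (.thr 2 62 (.thr 5 53 (.thr 6 10 (.dbl 7 4 52)))) (.nv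 (.thr 0 63 (.thr 20 23 (.thr 60 40 (.dbl 52 7 48)))) (.rp 44 (.str 35 (.nv (.thr 7 52 (.thr 23 20 (.thr 47 32 (.dbl 39 43 55)))) (.nv (.thr 2 62 (.thr 5 53 (.thr 10 6 (.dbl 0 15 63)))) .nd))) (.rp 35 (.str 44 (.nv (.thr 0 63 (.thr 20 23 (.thr 52 7 (.dbl 60 40 48)))) (.nv (.thr 47 32 (.thr 46 45 (.dbl 62 2 30))) .nd))) .nd)))))) (.rp 48 (.thr 23 20 (.thr 7 52 (.thr 39 55 (.thr 63 0 (.thr 43 3 (.dbl 47 32 35)))))) (.rp 44 (.str 35 (.nv (.thr 23 20 (.thr 7 52 (.thr 39 55 (.dbl 47 32 43)))) (.nv (.thr 53 5 (.thr 63 0 (.thr 48 58 (.dbl 52 7 60)))) (.nv (.thr 23 20 (.thr 47 32 (.thr 43 39 (.dbl 63 0 3)))) (.rp 50 (.str 14 (.nv (.thr 7 52 (.thr 23 20 (.thr 47 32 (.dbl 39 43 55)))) (.nv (.thr 2 62 (.thr 5 53 (.thr 10 6 (.dbl 0 15 63)))) .nd))) (.rp 14 (.str 50 (.nv (.thr 0 63 (.thr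 20 23 (.thr 52 7 (.dbl 60 40 48)))) (.nv (.thr 2 62 (.thr 34 18 (.dbl 32 33 47))) .nd))) .nd)))))) (.rp 35 (.str 44 (.nv (.thr 0 63 (.thr 20 23 (.thr 32 47 (.dbl 40 36 60)))) (.nv (.thr 20 23 (.thr 32 47 (.thr 36 40 (.dbl 52 4 7)))) (.nv (.thr 62 2 (.thr 63 0 (.thr 60 61 (.dbl 52 7 48)))) (.rp 50 (.str 14 (.nv (.thr 0 63 (.thr 20 23 (.thr 52 7 (.dbl 60 40 48)))) (.nv (.thr 47 32 (.thr 46 45 (.dbl 62 2 30))) .nd))) (.rp 14 (.str 50 (.nv (.thr 53 5 (.thr 62 2 (.thr 58 54 (.dbl 63 0 48)))) (.nv (.thr 32 47 (.thr 36 40 (.thr 20 23 (.dbl 52 4 7)))) .nd))) .nd)))))) (.rp 14 (.str 50 (.nv (.thr 53 5 (.thr 62 2 (.thr 58 54 (.dbl 63 0 48)))) (.nv (.thr 53 5 (.thr 62 2 (.thr 54 58 (.dbl 52 7 55)))) (.nv (.thr 32 47 (.thr 0 63 (.thr 48 16 (.dbl 52 7 60)))) (.rp 44 (.str 35 (.nv (.thr 0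 63 (.thr 20 23 (.thr 52 7 (.dbl 60 40 48)))) (.nv (.thr 2 62 (.thr 34 18 (.dbl 32 33 47))) .nd))) (.rp 35 (.str 44 (.nv (.thr 53 5 (.thr 62 2 (.thr 58 54 (.dbl 63 0 48)))) (.nv (.thr 32 47 (.thr 36 40 (.thr 20 23 (.dbl 52 4 7)))) .nd))) .nd)))))) (.rp 0 (.thr 52 7 (.thr 53 5 (.thr 54 55 (.thr 62 2 (.thr 48 60 (.dbl 58 50 63)))))) .nd)))))))))))) (.rp 7 (.thr 23 20 (.thr 63 0 (.thr 3 43 (.thr 47 32 (.thr 31 15 (.thr 19 27 (.thr 25 28 (.thr 59 8 (.dbl 51 35 55))))))))) (.rp 0 (.str 63 (.nv (.thr 52 7 (.thr 53 5 (.thr 54 55 (.thr 58 48 (.dbl 62 2 50))))) (.nv (.thr 7 52 (.thr 23 20 (.thr 39 55 (.thr 43 3 (.dbl 47 32 35))))) (.nv (.thr 52 7 (.thr 53 5 (.thr 48 58 (.thr 62 2 (.dbl 60 56 61))))) (.nv (.thr 47 32 (.thr 15 31 (.thr 23 20 (.thr 3 43 (.dbl 7 11 52))))) (.rp 56 (.str 11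 (.nv (.thr 23 20 (.thr 3 43 (.dbl 7 15 52))) (.nv (.thr 47 32 (.thr 15 31 (.dbl 7 3 52))) (.rp 52 (.thr 23 20 (.thr 3 43 (.thr 15 7 (.dbl 47 31 32)))) (.rp 50 (.str 14 (.nv (.thr 2 62 (.thr 5 53 (.thr 6 10 (.dbl 7 4 52)))) (.nv (.thr 47 32 (.thr 15 31 (.dbl 7 3 52))) (.rp 52 (.thr 23 20 (.thr 3 43 (.thr 15 7 (.dbl 47 31 32)))) (.rp 44 (.str 35 (.nv (.thr 47 32 (.thr 43 39 (.dbl 23 3 20))) (.nv (.thr 2 62 (.thr 5 53 (.thr 6 10 (.dbl 7 4 52)))) (.nv (.thr 23 20 (.thr 3 43 (.dbl 7 15 52))) .nd)))) (.rp 35 (.str 44 (.nv (.thr 47 32 (.thr 46 45 (.dbl 62 2 30))) (.nv (.thr 2 62 (.thr 5 53 (.thr 6 10 (.dbl 7 4 52)))) (.nv (.thr 47 32 (.thr 15 31 (.dbl 7 3 52))) .nd)))) (.rp 7 (.thr 23 20 (.thr 43 3 (.thr 27 59 (.thr 47 32 (.dbl 31 15 19))))) .nd))))))) (.rp 44 (.str 35 (.nv (.thr 47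 32 (.thr 43 39 (.dbl 23 3 20))) (.nv (.thr 7 52 (.thr 15 3 (.dbl 47 31 32))) (.nv (.thr 23 20 (.thr 3 43 (.dbl 7 15 52))) (.rp 50 (.str 14 (.nv (.thr 47 32 (.thr 43 39 (.dbl 23 3 20))) (.nv (.thr 2 62 (.thr 5 53 (.thr 6 10 (.dbl 7 4 52)))) (.nv (.thr 23 20 (.thr 3 43 (.dbl 7 15 52))) .nd)))) (.rp 14 (.str 50 (.nv (.thr 7 52 (.thr 3 15 (.dbl 23 20 43))) (.nv (.thr 2 62 (.thr 34 18 (.dbl 32 33 47))) .nd))) (.rp 3 (.thr 47 32 (.thr 39 43 (.thr 7 52 (.dbl 23 20 55)))) .nd))))))) (.rp 35 (.str 44 (.nv (.thr 23 20 (.thr 7 52 (.dbl 3 15 43))) (.nv (.thr 20 23 (.thr 32 47 (.thr 36 40 (.dbl 52 4 7)))) (.nv (.thr 47 32 (.thr 15 31 (.dbl 7 3 52))) (.rp 52 (.thr 23 20 (.thr 3 43 (.thr 15 7 (.dbl 47 31 32)))) (.rp 50 (.str 14 (.nv (.thr 47 32 (.thr 46 45 (.dbl 62 2 30))) (.nv (.thr 2 62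 (.thr 5 53 (.thr 6 10 (.dbl 7 4 52)))) (.nv (.thr 47 32 (.thr 15 31 (.dbl 7 3 52))) .nd)))) (.rp 14 (.str 50 (.nv (.thr 20 23 (.thr 32 47 (.thr 36 40 (.dbl 52 4 7)))) (.nv (.thr 62 2 (.thr 58 54 (.dbl 53 5 48))) (.nv (.thr 47 32 (.thr 15 31 (.dbl 7 3 52))) .nd)))) (.rp 7 (.thr 23 20 (.thr 43 3 (.thr 27 59 (.thr 47 32 (.dbl 31 15 19))))) .nd)))))))) (.rp 15 (.thr 23 20 (.thr 7 52 (.thr 39 55 (.thr 43 3 (.dbl 47 32 35))))) (.rp 14 (.str 50 (.nv (.thr 62 2 (.thr 58 54 (.dbl 53 5 48))) (.nv (.thr 23 20 (.thr 3 43 (.dbl 7 15 52))) (.rp 44 (.str 35 (.nv (.thr 7 52 (.thr 3 15 (.dbl 23 20 43))) (.nv (.thr 2 62 (.thr 34 18 (.dbl 32 33 47))) .nd))) (.rp 35 (.str 44 (.nv (.thr 20 23 (.thr 32 47 (.thr 36 40 (.dbl 52 4 7)))) (.nv (.thr 62 2 (.thr 58 54 (.dbl 53 5 48))) (.nv (.thr 47 32 (.thr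 15 31 (.dbl 7 3 52))) .nd)))) (.rp 3 (.thr 53 5 (.thr 58 48 (.dbl 62 2 54))) .nd)))))) (.rp 7 (.thr 23 20 (.thr 43 3 (.thr 27 59 (.thr 47 32 (.dbl 31 15 19))))) (.rp 3 (.thr 52 7 (.thr 53 5 (.thr 54 55 (.thr 58 48 (.dbl 62 2 50))))) .nd))))))))))) (.rp 52 (.thr 23 20 (.thr 3 43 (.thr 47 32 (.thr 31 15 (.thr 19 27 (.thr 25 28 (.thr 59 8 (.dbl 51 35 55)))))))) (.rp 50 (.str 14 (.nv (.thr 47 32 (.thr 15 31 (.thr 12 13 (.thr 46 29 (.dbl 62 2 30))))) (.nv (.thr 47 32 (.thr 15 31 (.thr 23 20 (.thr 3 43 (.dbl 7 11 52))))) (.nv (.thr 2 62 (.thr 5 53 (.thr 6 10 (.dbl 7 4 52)))) (.rp 56 (.str 11 (.nv (.thr 2 62 (.thr 5 53 (.thr 6 10 (.dbl 7 4 52)))) (.nv (.thr 47 32 (.thr 15 31 (.dbl 7 3 52))) (.rp 52 (.thr 23 20 (.thr 3 43 (.thr 15 7 (.dbl 47 31 32)))) (.rp 44 (.str 35 (.nv (.thr 47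 32 (.thr 43 39 (.dbl 23 3 20))) (.nv (.thr 2 62 (.thr 5 53 (.thr 6 10 (.dbl 7 4 52)))) (.nv (.thr 23 20 (.thr 3 43 (.dbl 7 15 52))) .nd)))) (.rp 35 (.str 44 (.nv (.thr 47 32 (.thr 46 45 (.dbl 62 2 30))) (.nv (.thr 2 62 (.thr 5 53 (.thr 6 10 (.dbl 7 4 52)))) (.nv (.thr 47 32 (.thr 15 31 (.dbl 7 3 52))) .nd)))) (.rp 7 (.thr 23 20 (.thr 43 3 (.thr 27 59 (.thr 47 32 (.dbl 31 15 19))))) .nd))))))) (.rp 44 (.str 35 (.nv (.thr 2 62 (.thr 5 53 (.thr 6 10 (.dbl 7 4 52)))) (.nv (.thr 47 32 (.thr 43 39 (.dbl 23 3 20))) (.rp 56 (.str 11 (.nv (.thr 47 32 (.thr 43 39 (.dbl 23 3 20))) (.nv (.thr 2 62 (.thr 5 53 (.thr 6 10 (.dbl 7 4 52)))) (.nv (.thr 23 20 (.thr 3 43 (.dbl 7 15 52))) .nd)))) (.rp 11 (.str 56 (.nv (.thr 2 62 (.thr 5 53 (.thr 6 10 (.dbl 7 4 52)))) (.nv (.thr 47 32 (.thr 43 39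 (.dbl 23 3 20))) (.nv (.thr 62 2 (.thr 60 61 (.dbl 52 7 48))) .nd)))) .nd))))) (.rp 35 (.str 44 (.nv (.thr 20 23 (.thr 32 47 (.thr 36 40 (.dbl 52 4 7)))) (.nv (.thr 2 62 (.thr 5 53 (.thr 6 10 (.dbl 7 4 52)))) (.nv (.thr 62 2 (.thr 46 30 (.dbl 47 32 45))) (.rp 56 (.str 11 (.nv (.thr 47 32 (.thr 46 45 (.dbl 62 2 30))) (.nv (.thr 2 62 (.thr 5 53 (.thr 6 10 (.dbl 7 4 52)))) (.nv (.thr 47 32 (.thr 15 31 (.dbl 7 3 52))) .nd)))) (.rp 11 (.str 56 (.nv (.thr 47 32 (.thr 46 45 (.dbl 62 2 30))) (.nv (.thr 20 23 (.thr 32 47 (.thr 36 40 (.dbl 52 4 7)))) (.nv (.thr 62 2 (.thr 60 61 (.dbl 52 7 48))) .nd)))) .nd)))))) (.rp 11 (.str 56 (.nv (.thr 52 7 (.thr 53 5 (.dbl 48 58 60))) (.nv (.thr 2 62 (.thr 5 53 (.thr 6 10 (.dbl 7 4 52)))) (.nv (.thr 62 2 (.thr 60 61 (.dbl 52 7 48))) (.rp 52 (.thr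 53 5 (.thr 58 48 (.thr 57 59 (.thr 62 2 (.dbl 61 49 60))))) (.rp 44 (.str 35 (.nv (.thr 2 62 (.thr 5 53 (.thr 6 10 (.dbl 7 4 52)))) (.nv (.thr 47 32 (.thr 43 39 (.dbl 23 3 20))) (.nv (.thr 62 2 (.thr 60 61 (.dbl 52 7 48))) .nd)))) (.rp 35 (.str 44 (.nv (.thr 47 32 (.thr 46 45 (.dbl 62 2 30))) (.nv (.thr 20 23 (.thr 32 47 (.thr 36 40 (.dbl 52 4 7)))) (.nv (.thr 62 2 (.thr 60 61 (.dbl 52 7 48))) .nd)))) (.rp 7 (.thr 53 5 (.thr 48 58 (.thr 60 52 (.dbl 62 2 61)))) .nd)))))))) .nd)))))))) (.rp 44 (.str 35 (.nv (.thr 23 20 (.thr 3 43 (.thr 51 19 (.thr 55 59 (.dbl 7 39 52))))) (.nv (.thr 47 32 (.thr 43 39 (.dbl 23 3 20))) (.rp 56 (.str 11 (.nv (.thr 47 32 (.thr 43 39 (.dbl 23 3 20))) (.nv (.thr 7 52 (.thr 15 3 (.dbl 47 31 32))) (.nv (.thr 23 20 (.thr 3 43 (.dbl 7 15 52))) (.rp 50 (.str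 14 (.nv (.thr 47 32 (.thr 43 39 (.dbl 23 3 20))) (.nv (.thr 2 62 (.thr 5 53 (.thr 6 10 (.dbl 7 4 52)))) (.nv (.thr 23 20 (.thr 3 43 (.dbl 7 15 52))) .nd)))) (.rp 14 (.str 50 (.nv (.thr 7 52 (.thr 3 15 (.dbl 23 20 43))) (.nv (.thr 2 62 (.thr 34 18 (.dbl 32 33 47))) .nd))) (.rp 3 (.thr 47 32 (.thr 39 43 (.thr 7 52 (.dbl 23 20 55)))) .nd))))))) (.rp 50 (.str 14 (.nv (.thr 2 62 (.thr 5 53 (.thr 6 10 (.dbl 7 4 52)))) (.nv (.thr 47 32 (.thr 43 39 (.dbl 23 3 20))) (.rp 56 (.str 11 (.nv (.thr 47 32 (.thr 43 39 (.dbl 23 3 20))) (.nv (.thr 2 62 (.thr 5 53 (.thr 6 10 (.dbl 7 4 52)))) (.nv (.thr 23 20 (.thr 3 43 (.dbl 7 15 52))) .nd)))) (.rp 11 (.str 56 (.nv (.thr 2 62 (.thr 5 53 (.thr 6 10 (.dbl 7 4 52)))) (.nv (.thr 47 32 (.thr 43 39 (.dbl 23 3 20))) (.nv (.thr 62 2 (.thr 60 61 (.dbl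 52 7 48))) .nd)))) .nd))))) (.rp 43 (.thr 62 2 (.thr 53 5 (.thr 58 48 (.thr 52 7 (.dbl 54 50 55))))) (.rp 40 (.thr 62 2 (.thr 53 5 (.thr 58 48 (.thr 52 7 (.dbl 54 50 55))))) (.rp 39 (.thr 62 2 (.thr 53 5 (.thr 58 48 (.thr 52 7 (.dbl 54 50 55))))) (.rp 23 (.thr 62 2 (.thr 53 5 (.thr 58 48 (.thr 52 7 (.dbl 54 50 55))))) (.rp 20 (.thr 62 2 (.thr 53 5 (.thr 58 48 (.thr 52 7 (.dbl 54 50 55))))) (.rp 14 (.str 50 (.nv (.thr 7 52 (.thr 23 20 (.thr 39 55 (.dbl 43 3 47)))) (.nv (.thr 32 47 (.thr 34 33 (.dbl 2 18 62))) (.rp 56 (.str 11 (.nv (.thr 7 52 (.thr 3 15 (.dbl 23 20 43))) (.nv (.thr 2 62 (.thr 34 18 (.dbl 32 33 47))) .nd))) (.rp 47 (.thr 62 2 (.thr 58 54 (.dbl 53 5 48))) (.rp 11 (.str 56 (.nv (.thr 52 7 (.thr 48 60 (.dbl 53 5 58))) (.nv (.thr 32 47 (.thr 34 33 (.dbl 2 18 62)))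 .nd))) .nd)))))) (.rp 11 (.str 56 (.nv (.thr 47 32 (.thr 43 39 (.dbl 23 3 20))) (.nv (.thr 53 5 (.thr 48 58 (.dbl 52 7 60))) (.rp 50 (.str 14 (.nv (.thr 2 62 (.thr 5 53 (.thr 6 10 (.dbl 7 4 52)))) (.nv (.thr 47 32 (.thr 43 39 (.dbl 23 3 20))) (.nv (.thr 62 2 (.thr 60 61 (.dbl 52 7 48))) .nd)))) (.rp 48 (.thr 23 20 (.thr 43 3 (.dbl 47 32 39))) (.rp 14 (.str 50 (.nv (.thr 52 7 (.thr 48 60 (.dbl 53 5 58))) (.nv (.thr 32 47 (.thr 34 33 (.dbl 2 18 62))) .nd))) .nd)))))) (.rp 3 (.thr 47 32 (.thr 39 43 (.thr 7 52 (.dbl 23 20 55)))) .nd))))))))))))) (.rp 35 (.str 44 (.nv (.thr 47 32 (.thr 15 31 (.thr 45 46 (.thr 60 30 (.dbl 62 2 61))))) (.nv (.thr 62 2 (.thr 60 61 (.thr 53 5 (.thr 48 58 (.dbl 52 7 56))))) (.nv (.thr 20 23 (.thr 32 47 (.thr 36 40 (.dbl 52 4 7)))) (.rp 56 (.str 11 (.nv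 (.thr 23 20 (.thr 7 52 (.dbl 3 15 43))) (.nv (.thr 20 23 (.thr 32 47 (.thr 36 40 (.dbl 52 4 7)))) (.nv (.thr 47 32 (.thr 15 31 (.dbl 7 3 52))) (.rp 52 (.thr 23 20 (.thr 3 43 (.thr 15 7 (.dbl 47 31 32)))) (.rp 50 (.str 14 (.nv (.thr 47 32 (.thr 46 45 (.dbl 62 2 30))) (.nv (.thr 2 62 (.thr 5 53 (.thr 6 10 (.dbl 7 4 52)))) (.nv (.thr 47 32 (.thr 15 31 (.dbl 7 3 52))) .nd)))) (.rp 14 (.str 50 (.nv (.thr 20 23 (.thr 32 47 (.thr 36 40 (.dbl 52 4 7)))) (.nv (.thr 62 2 (.thr 58 54 (.dbl 53 5 48))) (.nv (.thr 47 32 (.thr 15 31 (.dbl 7 3 52))) .nd)))) (.rp 7 (.thr 23 20 (.thr 43 3 (.thr 27 59 (.thr 47 32 (.dbl 31 15 19))))) .nd)))))))) (.rp 50 (.str 14 (.nv (.thr 20 23 (.thr 32 47 (.thr 36 40 (.dbl 52 4 7)))) (.nv (.thr 2 62 (.thr 5 53 (.thr 6 10 (.dbl 7 4 52)))) (.nv (.thr 62 2 (.thr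 46 30 (.dbl 47 32 45))) (.rp 56 (.str 11 (.nv (.thr 47 32 (.thr 46 45 (.dbl 62 2 30))) (.nv (.thr 2 62 (.thr 5 53 (.thr 6 10 (.dbl 7 4 52)))) (.nv (.thr 47 32 (.thr 15 31 (.dbl 7 3 52))) .nd)))) (.rp 11 (.str 56 (.nv (.thr 47 32 (.thr 46 45 (.dbl 62 2 30))) (.nv (.thr 20 23 (.thr 32 47 (.thr 36 40 (.dbl 52 4 7)))) (.nv (.thr 62 2 (.thr 60 61 (.dbl 52 7 48))) .nd)))) .nd)))))) (.rp 14 (.str 50 (.nv (.thr 20 23 (.thr 32 47 (.thr 36 40 (.dbl 52 4 7)))) (.nv (.thr 62 2 (.thr 58 54 (.dbl 53 5 48))) (.rp 56 (.str 11 (.nv (.thr 20 23 (.thr 32 47 (.thr 36 40 (.dbl 52 4 7)))) (.nv (.thr 62 2 (.thr 58 54 (.dbl 53 5 48))) (.nv (.thr 47 32 (.thr 15 31 (.dbl 7 3 52))) .nd)))) (.rp 11 (.str 56 (.nv (.thr 62 2 (.thr 58 54 (.dbl 53 5 48))) (.nv (.thr 20 23 (.thr 32 47 (.thr 36 40 (.dbl 52 4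 7)))) (.nv (.thr 53 5 (.thr 48 58 (.dbl 52 7 60))) .nd)))) .nd))))) (.rp 11 (.str 56 (.nv (.thr 20 23 (.thr 32 47 (.thr 36 40 (.dbl 52 4 7)))) (.nv (.thr 62 2 (.thr 60 61 (.dbl 52 7 48))) (.rp 52 (.thr 53 5 (.thr 58 48 (.thr 57 59 (.thr 62 2 (.dbl 61 49 60))))) (.rp 50 (.str 14 (.nv (.thr 47 32 (.thr 46 45 (.dbl 62 2 30))) (.nv (.thr 20 23 (.thr 32 47 (.thr 36 40 (.dbl 52 4 7)))) (.nv (.thr 62 2 (.thr 60 61 (.dbl 52 7 48))) .nd)))) (.rp 14 (.str 50 (.nv (.thr 62 2 (.thr 58 54 (.dbl 53 5 48))) (.nv (.thr 20 23 (.thr 32 47 (.thr 36 40 (.dbl 52 4 7)))) (.nv (.thr 53 5 (.thr 48 58 (.dbl 52 7 60))) .nd)))) (.rp 7 (.thr 53 5 (.thr 48 58 (.thr 60 52 (.dbl 62 2 61)))) .nd))))))) .nd)))))))) (.rp 14 (.str 50 (.nv (.thr 52 7 (.thr 53 5 (.thr 54 55 (.dbl 62 2 58)))) (.nv (.thr 7 52 (.thr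 23 20 (.thr 3 43 (.thr 47 32 (.dbl 15 11 31))))) (.nv (.thr 62 2 (.thr 58 54 (.dbl 53 5 48))) (.rp 56 (.str 11 (.nv (.thr 62 2 (.thr 58 54 (.dbl 53 5 48))) (.nv (.thr 23 20 (.thr 3 43 (.dbl 7 15 52))) (.rp 44 (.str 35 (.nv (.thr 7 52 (.thr 3 15 (.dbl 23 20 43))) (.nv (.thr 2 62 (.thr 34 18 (.dbl 32 33 47))) .nd))) (.rp 35 (.str 44 (.nv (.thr 20 23 (.thr 32 47 (.thr 36 40 (.dbl 52 4 7)))) (.nv (.thr 62 2 (.thr 58 54 (.dbl 53 5 48))) (.nv (.thr 47 32 (.thr 15 31 (.dbl 7 3 52))) .nd)))) (.rp 3 (.thr 53 5 (.thr 58 48 (.dbl 62 2 54))) .nd)))))) (.rp 44 (.str 35 (.nv (.thr 7 52 (.thr 23 20 (.thr 39 55 (.dbl 43 3 47)))) (.nv (.thr 32 47 (.thr 34 33 (.dbl 2 18 62))) (.rp 56 (.str 11 (.nv (.thr 7 52 (.thr 3 15 (.dbl 23 20 43))) (.nv (.thr 2 62 (.thr 34 18 (.dbl 32 33 47))) .nd))) (.rp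 47 (.thr 62 2 (.thr 58 54 (.dbl 53 5 48))) (.rp 11 (.str 56 (.nv (.thr 52 7 (.thr 48 60 (.dbl 53 5 58))) (.nv (.thr 32 47 (.thr 34 33 (.dbl 2 18 62))) .nd))) .nd)))))) (.rp 35 (.str 44 (.nv (.thr 20 23 (.thr 32 47 (.thr 36 40 (.dbl 52 4 7)))) (.nv (.thr 62 2 (.thr 58 54 (.dbl 53 5 48))) (.rp 56 (.str 11 (.nv (.thr 20 23 (.thr 32 47 (.thr 36 40 (.dbl 52 4 7)))) (.nv (.thr 62 2 (.thr 58 54 (.dbl 53 5 48))) (.nv (.thr 47 32 (.thr 15 31 (.dbl 7 3 52))) .nd)))) (.rp 11 (.str 56 (.nv (.thr 62 2 (.thr 58 54 (.dbl 53 5 48))) (.nv (.thr 20 23 (.thr 32 47 (.thr 36 40 (.dbl 52 4 7)))) (.nv (.thr 53 5 (.thr 48 58 (.dbl 52 7 60))) .nd)))) .nd))))) (.rp 11 (.str 56 (.nv (.thr 53 5 (.thr 58 48 (.dbl 62 2 54))) (.nv (.thr 7 52 (.thr 23 20 (.thr 39 55 (.thr 43 3 (.dbl 47 32 35))))) (.nv (.thr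 53 5 (.thr 48 58 (.dbl 52 7 60))) (.rp 53 (.thr 62 2 (.thr 60 61 (.dbl 52 7 48))) (.rp 44 (.str 35 (.nv (.thr 52 7 (.thr 48 60 (.dbl 53 5 58))) (.nv (.thr 32 47 (.thr 34 33 (.dbl 2 18 62))) .nd))) (.rp 35 (.str 44 (.nv (.thr 62 2 (.thr 58 54 (.dbl 53 5 48))) (.nv (.thr 20 23 (.thr 32 47 (.thr 36 40 (.dbl 52 4 7)))) (.nv (.thr 53 5 (.thr 48 58 (.dbl 52 7 60))) .nd)))) .nd))))))) .nd)))))))) (.rp 11 (.str 56 (.nv (.thr 53 5 (.thr 48 58 (.dbl 52 7 60))) (.nv (.thr 62 2 (.thr 60 61 (.dbl 52 7 48))) (.rp 60 (.thr 53 5 (.thr 52 7 (.thr 54 55 (.thr 58 48 (.dbl 62 2 50))))) (.rp 52 (.thr 53 5 (.thr 58 48 (.thr 57 59 (.thr 62 2 (.dbl 61 49 60))))) (.rp 50 (.str 14 (.nv (.thr 52 7 (.thr 53 5 (.dbl 48 58 60))) (.nv (.thr 2 62 (.thr 5 53 (.thr 6 10 (.dbl 7 4 52)))) (.nv (.thr 62 2 (.thr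 60 61 (.dbl 52 7 48))) (.rp 52 (.thr 53 5 (.thr 58 48 (.thr 57 59 (.thr 62 2 (.dbl 61 49 60))))) (.rp 44 (.str 35 (.nv (.thr 2 62 (.thr 5 53 (.thr 6 10 (.dbl 7 4 52)))) (.nv (.thr 47 32 (.thr 43 39 (.dbl 23 3 20))) (.nv (.thr 62 2 (.thr 60 61 (.dbl 52 7 48))) .nd)))) (.rp 35 (.str 44 (.nv (.thr 47 32 (.thr 46 45 (.dbl 62 2 30))) (.nv (.thr 20 23 (.thr 32 47 (.thr 36 40 (.dbl 52 4 7)))) (.nv (.thr 62 2 (.thr 60 61 (.dbl 52 7 48))) .nd)))) (.rp 7 (.thr 53 5 (.thr 48 58 (.thr 60 52 (.dbl 62 2 61)))) .nd)))))))) (.rp 48 (.thr 7 52 (.thr 23 20 (.thr 39 55 (.thr 43 3 (.dbl 47 32 35))))) (.rp 44 (.str 35 (.nv (.thr 47 32 (.thr 43 39 (.dbl 23 3 20))) (.nv (.thr 53 5 (.thr 48 58 (.dbl 52 7 60))) (.rp 50 (.str 14 (.nv (.thr 2 62 (.thr 5 53 (.thr 6 10 (.dbl 7 4 52)))) (.nv (.thr 47 32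 (.thr 43 39 (.dbl 23 3 20))) (.nv (.thr 62 2 (.thr 60 61 (.dbl 52 7 48))) .nd)))) (.rp 48 (.thr 23 20 (.thr 43 3 (.dbl 47 32 39))) (.rp 14 (.str 50 (.nv (.thr 52 7 (.thr 48 60 (.dbl 53 5 58))) (.nv (.thr 32 47 (.thr 34 33 (.dbl 2 18 62))) .nd))) .nd)))))) (.rp 35 (.str 44 (.nv (.thr 20 23 (.thr 32 47 (.thr 36 40 (.dbl 52 4 7)))) (.nv (.thr 62 2 (.thr 60 61 (.dbl 52 7 48))) (.rp 52 (.thr 53 5 (.thr 58 48 (.thr 57 59 (.thr 62 2 (.dbl 61 49 60))))) (.rp 50 (.str 14 (.nv (.thr 47 32 (.thr 46 45 (.dbl 62 2 30))) (.nv (.thr 20 23 (.thr 32 47 (.thr 36 40 (.dbl 52 4 7)))) (.nv (.thr 62 2 (.thr 60 61 (.dbl 52 7 48))) .nd)))) (.rp 14 (.str 50 (.nv (.thr 62 2 (.thr 58 54 (.dbl 53 5 48))) (.nv (.thr 20 23 (.thr 32 47 (.thr 36 40 (.dbl 52 4 7)))) (.nv (.thr 53 5 (.thr 48 58 (.dbl 52 7 60)))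 .nd)))) (.rp 7 (.thr 53 5 (.thr 48 58 (.thr 60 52 (.dbl 62 2 61)))) .nd))))))) (.rp 14 (.str 50 (.nv (.thr 53 5 (.thr 58 48 (.dbl 62 2 54))) (.nv (.thr 7 52 (.thr 23 20 (.thr 39 55 (.thr 43 3 (.dbl 47 32 35))))) (.nv (.thr 53 5 (.thr 48 58 (.dbl 52 7 60))) (.rp 53 (.thr 62 2 (.thr 60 61 (.dbl 52 7 48))) (.rp 44 (.str 35 (.nv (.thr 52 7 (.thr 48 60 (.dbl 53 5 58))) (.nv (.thr 32 47 (.thr 34 33 (.dbl 2 18 62))) .nd))) (.rp 35 (.str 44 (.nv (.thr 62 2 (.thr 58 54 (.dbl 53 5 48))) (.nv (.thr 20 23 (.thr 32 47 (.thr 36 40 (.dbl 52 4 7)))) (.nv (.thr 53 5 (.thr 48 58 (.dbl 52 7 60))) .nd)))) .nd))))))) (.rp 7 (.thr 53 5 (.thr 48 58 (.thr 60 52 (.dbl 62 2 61)))) .nd))))))))))) (.rp 7 (.thr 23 20 (.thr 3 43 (.thr 47 32 (.thr 31 15 (.thr 19 27 (.thr 25 28 (.thr 59 8 (.dbl 51 35 55))))))))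 .nd))))))))))))) .nd)))))))))))))))

theorem w539 : WinAt (137445244928, 2473968271360) :=
  chF (K := []) kn c539 137445244928 2473968271360 38
    [20100446945280, 1126174851874816, 72059793128294400] (by decide +kernel) (by decide +kernel)

/-- A certificate. -/
noncomputable def c540 : Ct := (.str 11 (.nv (.thr 20 23 (.thr 52 7 (.thr 4 36 (.thr 53 5 (.dbl 55 38 54))))) (.rp 55 (.str 63 (.nv (.thr 7 52 (.thr 15 3 (.thr 42 0 (.dbl 47 31 32)))) (.nv (.thr 23 20 (.thr 3 43 (.dbl 7 15 52))) (.rp 52 (.thr 23 20 (.thr 3 43 (.thr 15 7 (.thr 47 31 (.dbl 42 0 32))))) (.rp 42 (.thr 23 20 (.thr 7 52 (.dbl 3 15 43))) (.rp 15 (.thr 23 20 (.thr 43 3 (.thr 59 27 (.thr 42 0 (.thr 25 8 (.thr 29 17 (.thr 13 49 (.thr 61 45 (.dbl 62 2 60))))))))) (.rp 7 (.thr 23 20 (.thr 43 3 (.thr 27 59 (.thr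 31 19 (.thr 47 15 (.dbl 42 0 32)))))) (.rp 3 (.thr 5 53 (.thr 23 20 (.thr 42 0 (.thr 47 32 (.thr 31 15 (.thr 19 27 (.thr 25 28 (.thr 8 59 (.thr 9 10 (.dbl 13 1 49)))))))))) .nd)))))))) (.rp 54 (.thr 23 20 (.thr 5 53 (.thr 7 52 (.thr 55 39 (.dbl 4 6 38))))) (.rp 53 (.thr 23 20 (.thr 7 52 (.thr 55 39 (.thr 4 38 (.thr 6 5 (.thr 3 15 (.thr 12 9 (.thr 0 8 (.dbl 63 42 43))))))))) (.rp 52 (.str 0 (.nv (.thr 5 53 (.thr 10 15 (.thr 8 9 (.thr 4 12 (.thr 6 7 (.dbl 38 54 55)))))) (.nv (.thr 42 63 (.thr 2 62 (.thr 3 1 (.thr 15 7 (.dbl 5 10 53))))) (.rp 60 (.str 48 (.nv (.thr 53 5 (.dbl 63 42 58)) (.nv (.thr 32 16 (.dbl 42 47 63)) (.rp 63 (.thr 32 16 (.thr 5 53 (.thr 15 10 (.thr 3 7 (.thr 2 1 (.dbl 42 47 62)))))) (.rp 42 (.thr 5 53 (.thr 10 15 (.thr 8 9 (.thr 4 12 (.thr 6 7 (.dbl 38 54 55))))))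 .nd))))) (.rp 53 (.thr 23 20 (.thr 63 42 (.thr 43 3 (.thr 59 27 (.thr 55 51 (.thr 39 7 (.dbl 38 4 36))))))) (.rp 48 (.str 60 (.nv (.dbl 20 23 40) (.rp 40 (.thr 23 20 (.thr 5 53 (.thr 15 10 (.thr 3 7 (.dbl 63 42 43))))) (.rp 23 (.thr 5 53 (.thr 15 10 (.thr 3 7 (.thr 2 1 (.dbl 42 62 63))))) (.rp 20 (.thr 5 53 (.thr 15 10 (.thr 3 7 (.thr 2 1 (.dbl 42 62 63))))) .nd))))) (.rp 15 (.thr 23 20 (.thr 63 42 (.thr 43 3 (.thr 59 27 (.thr 55 51 (.thr 39 7 (.dbl 38 4 36))))))) (.rp 10 (.thr 23 20 (.thr 5 53 (.thr 42 63 (.thr 2 62 (.thr 3 1 (.thr 7 15 (.thr 4 6 (.dbl 55 38 39)))))))) (.rp 7 (.thr 5 53 (.thr 10 15 (.thr 9 8 (.thr 1 13 (.thr 2 3 (.dbl 42 62 63)))))) (.rp 5 (.thr 23 20 (.thr 63 42 (.thr 43 3 (.thr 59 27 (.thr 55 51 (.thr 39 7 (.dbl 38 4 36))))))) .nd)))))))))) (.rp 39 (.thr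 20 23 (.thr 53 5 (.thr 52 7 (.thr 55 54 (.dbl 4 36 38))))) (.rp 38 (.thr 23 20 (.thr 7 52 (.thr 39 55 (.thr 15 3 (.thr 27 51 (.thr 59 43 (.thr 19 31 (.thr 25 28 (.thr 42 8 (.thr 0 63 (.dbl 5 10 53))))))))))) (.rp 36 (.thr 23 20 (.thr 5 53 (.thr 7 52 (.thr 4 6 (.dbl 55 38 39))))) (.rp 23 (.thr 5 53 (.thr 7 52 (.thr 6 4 (.thr 3 15 (.thr 9 12 (.thr 8 10 (.thr 13 1 (.thr 25 49 (.thr 42 59 (.thr 17 29 (.thr 19 28 (.thr 51 35 (.dbl 0 34 63))))))))))))) (.rp 20 (.thr 5 53 (.thr 7 52 (.thr 4 6 (.thr 55 38 (.thr 39 23 (.thr 15 3 (.thr 0 10 (.thr 51 27 (.dbl 63 42 59))))))))) (.rp 7 (.str 0 (.nv (.thr 5 53 (.thr 10 15 (.thr 8 9 (.thr 4 12 (.thr 20 23 (.thr 36 52 (.dbl 38 39 55))))))) (.nv (.thr 5 53 (.thr 23 20 (.thr 63 42 (.thr 43 3 (.thr 27 59 (.thr 31 19 (.dbl 15 10 47))))))) (.nv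 (.thr 5 53 (.thr 10 15 (.thr 9 8 (.thr 1 13 (.thr 2 3 (.dbl 42 62 63)))))) (.rp 53 (.thr 20 23 (.thr 42 63 (.thr 32 47 (.thr 48 16 (.thr 40 60 (.thr 36 44 (.thr 4 52 (.dbl 38 39 55)))))))) (.rp 15 (.thr 23 20 (.thr 5 53 (.thr 42 63 (.thr 2 62 (.thr 1 3 (.thr 13 9 (.thr 25 49 (.thr 59 8 (.thr 27 43 (.dbl 19 28 31)))))))))) (.rp 10 (.thr 20 23 (.thr 42 63 (.thr 32 47 (.thr 48 16 (.thr 40 60 (.thr 36 44 (.thr 4 52 (.dbl 38 39 55)))))))) (.rp 8 (.thr 23 20 (.thr 53 5 (.thr 63 42 (.thr 43 3 (.thr 59 27 (.thr 55 51 (.thr 54 52 (.dbl 38 4 6)))))))) (.rp 5 (.thr 20 23 (.thr 42 63 (.thr 32 47 (.thr 48 16 (.thr 40 60 (.thr 36 44 (.thr 4 52 (.dbl 38 39 55)))))))) (.rp 3 (.thr 5 53 (.thr 10 15 (.thr 8 9 (.thr 12 4 (.thr 42 63 (.thr 25 59 (.thr 51 38 (.dbl 17 29 34)))))))) .nd))))))))))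 (.rp 5 (.thr 23 20 (.thr 7 52 (.thr 39 55 (.thr 3 15 (.thr 43 63 (.thr 59 27 (.thr 47 35 (.thr 42 32 (.thr 25 8 (.thr 49 13 (.thr 17 29 (.thr 2 62 (.dbl 1 0 33))))))))))))) (.rp 4 (.str 0 (.nv (.thr 7 52 (.thr 3 15 (.thr 2 1 (.dbl 42 62 63)))) (.nv (.thr 5 53 (.thr 15 10 (.dbl 7 3 52))) (.rp 52 (.thr 5 53 (.thr 15 10 (.thr 3 7 (.thr 2 1 (.dbl 42 62 63))))) (.rp 42 (.thr 5 53 (.thr 7 52 (.dbl 15 3 10))) (.rp 15 (.thr 23 20 (.thr 5 53 (.thr 42 63 (.thr 2 62 (.thr 1 3 (.thr 13 9 (.thr 25 49 (.thr 59 8 (.thr 27 43 (.dbl 19 28 31)))))))))) (.rp 7 (.thr 5 53 (.thr 10 15 (.thr 9 8 (.thr 1 13 (.thr 2 3 (.dbl 42 62 63)))))) (.rp 3 (.thr 5 53 (.thr 10 15 (.thr 8 9 (.thr 42 63 (.thr 25 59 (.thr 17 29 (.thr 19 28 (.thr 16 18 (.dbl 32 47 48))))))))) .nd)))))))) .nd))))))))))))))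

theorem w540 : WinAt (137445244928, 72059793128292352) :=
  chF (K := []) kn c540 137445244928 72059793128292352 56
    [] (by decide +kernel) (by decide +kernel)

end Pool.Agent.TTT.B43
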