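import Pool.Agent.TTT.Q24
import Pool.Agent.TTT.Q25
import Pool.Agent.TTT.Q26

/-!
Certified forced wins in positions of the 4 x 4 x 4 board.
-/

set_option autoImplicit false
set_option maxRecDepth 1000000
set_option linter.all false

namespace Pool.Agent.TTT.B43

/-- A certificate. -/
noncomputable def c541 : Ct := (.str 22 (.nv (.thr 20 23 (.thr 53 5 (.thr 52 7 (.thr 55 54 (.dbl 4 36 38))))) (.rp 56 .ext (.rp 55 (.str 42 (.nv (.thr 0 63 (.thr 2 62 (.thr 3 1 (.thr 5 53 (.thr 15 10 (.dbl 7 11 52)))))) (.nv (.thr 23 20 (.thr 47 32 (.thr 63 0 (.thr 3 43 (.thr 15 31 (.dbl 7 11 52)))))) (.rp 63 (.thr 23 20 (.thr 47 32 (.thr 62 2 (.thr 53 5 (.str 25 (.nv (.thr 7 52 (.thr 28 19 (.thr 29 17 (.thr 30 31 (.thr 46 14 (.thr 44 45 (.thr 12 60 (.dbl 38 34 51)))))))) (.nv (.thr 13 49 (.thr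 29 17 (.thr 45 61 (.thr 46 44 (.thr 14 30 (.thr 12 15 (.dbl 38 34 51))))))) (.nv (.thr 28 19 (.thr 29 17 (.thr 30 31 (.thr 13 49 (.thr 45 61 (.dbl 46 14 44)))))) (.rp 59 (.str 51 (.nv (.thr 38 12 (.thr 39 36 (.thr 35 43 (.dbl 19 3 28)))) (.nv (.thr 49 13 (.thr 50 48 (.thr 54 58 (.dbl 57 60 61)))) (.rp 56 (.str 11 (.nv (.thr 19 28 (.thr 3 35 (.thr 15 7 (.dbl 27 31 39)))) (.nv (.thr 49 13 (.thr 50 48 (.thr 54 58 (.dbl 57 60 61)))) (.rp 58 (.str 57 (.nv (.thr 38 12 (.dbl 54 6 60)) (.nv (.dbl 49 13 61) .nd))) (.rp 57 (.str 58 (.nv (.thr 19 28 (.thr 3 35 (.dbl 7 15 52))) (.nv (.thr 50 54 (.dbl 49 13 48)) .nd))) (.rp 16 (.thr 7 52 (.thr 3 15 (.dbl 19 28 35))) .nd)))))) (.rp 48 (.thr 19 28 (.thr 27 31 (.thr 35 3 (.dbl 39 15 43)))) (.rp 11 (.str 56 (.nv (.thr 49 13 (.thr 48 50 (.thr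 57 61 (.dbl 60 52 54)))) (.nv (.thr 19 28 (.thr 35 3 (.thr 39 43 (.dbl 27 15 31)))) (.rp 43 (.str 27 (.nv (.thr 38 12 (.dbl 39 15 36)) (.nv (.dbl 19 28 31) .nd))) (.rp 27 (.str 43 (.nv (.thr 49 13 (.thr 48 50 (.dbl 52 7 60))) (.nv (.thr 35 39 (.dbl 19 3 28)) .nd))) (.rp 1 (.thr 52 7 (.thr 48 60 (.dbl 49 13 50))) .nd)))))) .nd)))))) (.rp 56 (.str 11 (.nv (.thr 59 8 (.thr 27 43 (.dbl 19 28 31))) (.rp 59 (.str 51 (.nv (.thr 19 28 (.thr 3 35 (.thr 15 7 (.dbl 27 31 39)))) (.nv (.thr 49 13 (.thr 50 48 (.thr 54 58 (.dbl 57 60 61)))) (.rp 58 (.str 57 (.nv (.thr 38 12 (.dbl 54 6 60)) (.nv (.dbl 49 13 61) .nd))) (.rp 57 (.str 58 (.nv (.thr 19 28 (.thr 3 35 (.dbl 7 15 52))) (.nv (.thr 50 54 (.dbl 49 13 48)) .nd))) (.rp 16 (.thr 7 52 (.thr 3 15 (.dbl 19 28 35))) .nd)))))) (.rp 43 (.thr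 28 19 (.thr 29 17 (.thr 30 31 (.thr 46 14 (.thr 45 44 (.dbl 13 49 61)))))) (.rp 40 (.thr 19 28 (.thr 27 31 (.dbl 59 8 43))) (.rp 31 (.thr 7 52 (.thr 59 8 (.thr 43 27 (.thr 3 15 (.thr 19 28 (.dbl 35 39 51)))))) (.rp 28 (.thr 7 52 (.thr 59 8 (.thr 27 43 (.thr 15 3 (.thr 51 39 (.thr 12 38 (.dbl 13 14 49))))))) (.rp 27 (.thr 28 19 (.thr 29 17 (.thr 30 31 (.thr 46 14 (.thr 45 44 (.dbl 13 49 61)))))) (.rp 24 (.thr 28 19 (.thr 29 17 (.thr 30 31 (.thr 46 14 (.thr 45 44 (.dbl 13 49 61)))))) (.rp 19 (.thr 7 52 (.thr 59 8 (.thr 27 43 (.thr 15 3 (.thr 51 39 (.thr 12 38 (.dbl 13 14 49))))))) (.rp 8 (.thr 28 19 (.thr 29 17 (.thr 30 31 (.thr 46 14 (.thr 45 44 (.dbl 13 49 61)))))) .nd))))))))))) (.rp 51 (.thr 59 8 (.thr 13 49 (.thr 29 17 (.thr 45 61 (.thr 46 44 (.thr 30 14 (.dbl 28 19 31)))))))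 (.rp 46 (.thr 52 7 (.thr 59 8 (.thr 49 13 (.thr 57 61 (.thr 56 58 (.thr 60 48 (.thr 51 54 (.thr 12 38 (.dbl 28 19 44))))))))) (.rp 45 (.thr 7 52 (.thr 59 8 (.thr 13 49 (.thr 19 28 (.thr 27 31 (.thr 11 43 (.thr 15 3 (.thr 12 14 (.dbl 51 38 39))))))))) (.rp 44 (.thr 13 49 (.thr 29 17 (.thr 45 61 (.thr 28 19 (.thr 30 31 (.thr 14 46 (.dbl 15 12 60))))))) (.rp 30 (.thr 52 7 (.thr 59 8 (.thr 49 13 (.thr 57 61 (.thr 56 58 (.thr 60 48 (.thr 51 54 (.thr 12 38 (.dbl 28 19 44))))))))) (.rp 29 (.thr 28 19 (.str 12 (.nv (.thr 51 38 (.thr 49 13 (.thr 50 48 (.thr 54 58 (.dbl 57 60 61))))) (.nv (.thr 13 49 (.thr 14 15 (.thr 38 51 (.thr 59 8 (.dbl 46 30 34))))) (.nv (.thr 38 51 (.thr 59 8 (.thr 46 34 (.dbl 44 45 60)))) (.nv (.thr 44 60 (.thr 46 45 (.thr 13 49 (.dbl 14 15 30)))) (.rp 56 (.str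 11 (.nv (.thr 13 49 (.thr 14 15 (.thr 46 30 (.dbl 44 45 60)))) (.nv (.thr 38 51 (.thr 59 8 (.thr 43 27 (.dbl 39 35 36)))) (.rp 59 (.thr 51 38 (.thr 7 52 (.thr 15 3 (.dbl 13 14 49)))) (.rp 51 (.thr 59 8 (.thr 7 52 (.thr 13 49 (.dbl 15 3 14)))) .nd))))) (.rp 51 (.thr 59 8 (.thr 44 60 (.thr 46 45 (.thr 13 49 (.dbl 14 15 30))))) (.rp 11 (.str 56 (.nv (.thr 51 38 (.thr 52 7 (.dbl 60 44 48))) (.nv (.thr 59 8 (.thr 57 58 (.dbl 49 13 61))) .nd))) (.rp 0 (.thr 60 44 (.thr 52 7 (.thr 59 8 (.thr 38 51 (.thr 36 39 (.dbl 48 24 56)))))) .nd)))))))))) (.rp 17 (.thr 52 7 (.thr 59 8 (.thr 49 13 (.thr 57 61 (.thr 56 58 (.thr 60 48 (.thr 51 54 (.thr 12 38 (.dbl 28 19 44))))))))) (.rp 14 (.thr 13 49 (.thr 29 17 (.thr 45 61 (.thr 44 46 (.thr 28 19 (.thr 30 31 (.dbl 60 12 15))))))) (.rp 11 (.str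 56 (.nv (.thr 59 8 (.thr 57 58 (.dbl 49 13 61))) (.rp 61 (.thr 52 7 (.thr 59 8 (.thr 58 57 (.thr 48 60 (.thr 49 13 (.dbl 50 51 54)))))) (.rp 59 (.str 51 (.nv (.thr 49 13 (.thr 48 50 (.thr 57 61 (.dbl 60 52 54)))) (.nv (.thr 19 28 (.thr 35 3 (.thr 39 43 (.dbl 27 15 31)))) (.rp 43 (.str 27 (.nv (.thr 38 12 (.dbl 39 15 36)) (.nv (.dbl 19 28 31) .nd))) (.rp 27 (.str 43 (.nv (.thr 49 13 (.thr 48 50 (.dbl 52 7 60))) (.nv (.thr 35 39 (.dbl 19 3 28)) .nd))) (.rp 1 (.thr 52 7 (.thr 48 60 (.dbl 49 13 50))) .nd)))))) (.rp 58 (.thr 13 49 (.thr 29 17 (.thr 45 61 (.thr 46 44 (.thr 30 14 (.dbl 28 19 31)))))) (.rp 57 (.thr 13 49 (.thr 29 17 (.thr 45 61 (.thr 46 44 (.thr 30 14 (.dbl 28 19 31)))))) (.rp 49 (.thr 52 7 (.thr 59 8 (.thr 57 58 (.thr 60 48 (.thr 51 54 (.thr 12 38 (.dbl 28 19 44)))))))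 (.rp 13 (.thr 52 7 (.thr 59 8 (.thr 57 58 (.thr 60 48 (.thr 51 54 (.thr 12 38 (.dbl 28 19 44))))))) (.rp 10 (.thr 49 13 (.thr 57 61 (.dbl 59 8 58))) (.rp 9 (.thr 13 49 (.thr 29 17 (.thr 45 61 (.thr 46 44 (.thr 30 14 (.dbl 28 19 31)))))) (.rp 8 (.thr 13 49 (.thr 29 17 (.thr 45 61 (.thr 46 44 (.thr 30 14 (.dbl 28 19 31)))))) .nd))))))))))) .nd))))))))))))))))))) (.rp 60 (.thr 20 23 (.thr 0 63 (.thr 32 47 (.thr 16 48 (.thr 28 24 (.thr 25 19 (.thr 17 29 (.thr 51 34 (.thr 8 59 (.dbl 12 4 38)))))))))) (.rp 56 (.str 11 (.nv (.thr 0 63 (.thr 5 53 (.thr 15 10 (.dbl 7 3 52)))) (.nv (.thr 23 20 (.thr 63 0 (.thr 3 43 (.dbl 7 15 52)))) (.rp 63 (.thr 47 32 (.thr 23 20 (.thr 52 7 (.str 59 (.nv (.thr 27 43 (.thr 19 31 (.dbl 25 8 28))) (.rp 43 (.thr 25 8 (.thr 28 19 (.thr 29 17 (.thr 30 31 (.thr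 13 49 (.thr 45 61 (.thr 46 44 (.dbl 62 2 14)))))))) (.rp 31 (.thr 43 27 (.thr 39 35 (.thr 38 36 (.thr 6 54 (.thr 2 62 (.thr 10 14 (.dbl 8 9 25))))))) (.rp 28 (.thr 43 27 (.thr 39 35 (.thr 38 36 (.thr 6 54 (.thr 2 62 (.thr 10 14 (.dbl 8 9 25))))))) (.rp 27 (.thr 25 8 (.thr 28 19 (.thr 29 17 (.thr 30 31 (.thr 13 49 (.thr 45 61 (.thr 46 44 (.dbl 62 2 14)))))))) (.rp 25 (.thr 27 43 (.str 9 (.nv (.thr 10 8 (.thr 5 53 (.thr 1 13 (.thr 0 15 (.dbl 2 3 62))))) (.nv (.thr 2 62 (.thr 10 8 (.thr 6 14 (.thr 3 12 (.thr 0 1 (.dbl 5 15 53)))))) (.nv (.thr 2 62 (.thr 5 53 (.thr 10 8 (.thr 6 14 (.thr 15 0 (.thr 38 54 (.dbl 39 36 51))))))) (.nv (.thr 2 62 (.thr 5 53 (.thr 1 13 (.thr 0 3 (.dbl 10 8 15))))) (.rp 62 (.thr 5 53 (.thr 10 8 (.thr 19 31 (.thr 13 1 (.thr 15 0 (.thr 12 14 (.thr 3 6 (.dbl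 51 35 39)))))))) (.rp 53 (.thr 10 8 (.thr 19 31 (.thr 2 62 (.thr 6 14 (.thr 38 54 (.thr 39 36 (.thr 3 12 (.dbl 51 15 35)))))))) (.rp 15 (.thr 5 53 (.thr 10 8 (.thr 1 13 (.thr 2 62 (.thr 3 0 (.dbl 6 12 14)))))) (.rp 10 (.thr 5 53 (.thr 19 31 (.thr 1 13 (.thr 2 62 (.thr 3 0 (.thr 6 12 (.thr 38 54 (.thr 39 36 (.dbl 51 15 35))))))))) (.rp 8 (.thr 5 53 (.thr 19 31 (.thr 1 13 (.thr 2 62 (.thr 3 0 (.thr 51 35 (.thr 39 15 (.thr 38 36 (.dbl 6 12 54))))))))) (.rp 5 (.thr 10 8 (.thr 19 31 (.thr 2 62 (.thr 6 14 (.thr 38 54 (.thr 39 36 (.thr 3 12 (.dbl 51 15 35)))))))) (.rp 2 (.thr 5 53 (.thr 10 8 (.thr 19 31 (.thr 15 0 (.thr 51 39 (.thr 3 35 (.thr 12 6 (.dbl 13 1 14)))))))) (.rp 0 (.thr 10 8 (.thr 19 31 (.thr 2 62 (.thr 6 14 (.thr 38 54 (.thr 39 36 (.thr 51 15 (.dbl 3 12 35)))))))) .nd))))))))))))))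 (.rp 19 (.thr 43 27 (.thr 39 35 (.thr 38 36 (.thr 6 54 (.thr 2 62 (.thr 10 14 (.dbl 8 9 25))))))) (.rp 8 (.thr 5 53 (.thr 27 43 (.thr 19 31 (.thr 25 28 (.thr 13 49 (.thr 1 9 (.thr 2 62 (.thr 3 0 (.thr 51 35 (.thr 15 39 (.dbl 12 14 38))))))))))) .nd)))))))))))) (.rp 52 (.thr 23 20 (.thr 63 0 (.thr 3 43 (.thr 47 32 (.dbl 15 7 31))))) (.rp 15 (.thr 23 20 (.thr 63 0 (.thr 43 3 (.thr 59 27 (.thr 25 8 (.thr 29 17 (.thr 13 49 (.thr 61 45 (.dbl 62 2 60))))))))) (.rp 7 (.thr 5 53 (.thr 0 63 (.thr 10 15 (.thr 9 8 (.thr 2 62 (.dbl 1 3 13)))))) (.rp 3 (.thr 5 53 (.thr 0 63 (.thr 10 15 (.thr 2 62 (.thr 6 14 (.dbl 7 4 52)))))) (.rp 0 (.thr 7 52 (.thr 23 20 (.thr 47 32 (.thr 3 15 (.thr 43 63 (.thr 59 27 (.thr 25 8 (.thr 19 28 (.dbl 35 39 51))))))))) .nd))))))))) (.rp 52 (.thr 20 23 (.thr 0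 63 (.thr 60 40 (.thr 32 47 (.thr 16 48 (.thr 28 24 (.thr 25 19 (.thr 12 44 (.dbl 8 4 59))))))))) (.rp 48 (.thr 20 23 (.thr 0 63 (.thr 40 60 (.thr 32 47 (.thr 36 44 (.dbl 52 4 7)))))) (.rp 15 (.thr 5 53 (.thr 0 63 (.thr 2 62 (.thr 1 3 (.thr 13 9 (.thr 25 49 (.thr 17 29 (.thr 51 34 (.thr 8 59 (.dbl 12 4 38)))))))))) (.rp 11 (.str 56 (.nv (.thr 20 23 (.thr 0 63 (.thr 60 40 (.dbl 52 7 48)))) (.nv (.thr 53 5 (.thr 63 0 (.thr 48 58 (.dbl 52 7 60)))) (.rp 63 (.thr 62 2 (.thr 53 5 (.thr 7 52 (.str 59 (.nv (.thr 57 58 (.thr 49 61 (.dbl 25 8 13))) (.rp 61 (.thr 58 57 (.thr 54 50 (.thr 38 6 (.thr 36 39 (.thr 32 47 (.thr 40 44 (.dbl 8 24 25))))))) (.rp 58 (.thr 25 8 (.thr 13 49 (.thr 29 17 (.thr 45 61 (.thr 28 19 (.thr 30 31 (.thr 46 14 (.dbl 47 32 44)))))))) (.rp 57 (.thr 25 8 (.thr 13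 49 (.thr 29 17 (.thr 45 61 (.thr 28 19 (.thr 30 31 (.thr 46 14 (.dbl 47 32 44)))))))) (.rp 49 (.thr 58 57 (.thr 54 50 (.thr 38 6 (.thr 36 39 (.thr 32 47 (.thr 40 44 (.dbl 8 24 25))))))) (.rp 25 (.thr 57 58 (.str 24 (.nv (.thr 20 23 (.thr 16 28 (.thr 40 8 (.thr 0 60 (.dbl 32 47 48))))) (.nv (.thr 32 47 (.thr 40 8 (.thr 36 44 (.thr 48 12 (.thr 0 16 (.dbl 20 23 60)))))) (.nv (.thr 20 23 (.thr 32 47 (.thr 40 8 (.thr 36 44 (.thr 38 39 (.thr 54 6 (.dbl 60 0 51))))))) (.nv (.thr 20 23 (.thr 16 28 (.thr 32 47 (.thr 0 48 (.dbl 40 8 60))))) (.rp 60 (.thr 20 23 (.thr 40 8 (.thr 16 28 (.thr 32 47 (.thr 48 0 (.dbl 36 12 44)))))) (.rp 47 (.thr 20 23 (.thr 40 8 (.thr 49 61 (.thr 28 16 (.thr 60 0 (.thr 12 44 (.thr 48 36 (.dbl 51 50 54)))))))) (.rp 40 (.thr 20 23 (.thr 49 61 (.thr 16 28 (.thr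 32 47 (.thr 48 0 (.thr 36 12 (.thr 38 39 (.thr 54 6 (.dbl 51 50 60))))))))) (.rp 32 (.thr 20 23 (.thr 40 8 (.thr 49 61 (.thr 60 0 (.thr 51 54 (.thr 48 50 (.thr 12 36 (.dbl 28 16 44)))))))) (.rp 23 (.thr 40 8 (.thr 49 61 (.thr 32 47 (.thr 36 44 (.thr 38 39 (.thr 54 6 (.thr 48 12 (.dbl 51 50 60)))))))) (.rp 20 (.thr 40 8 (.thr 49 61 (.thr 32 47 (.thr 36 44 (.thr 38 39 (.thr 54 6 (.thr 48 12 (.dbl 51 50 60)))))))) (.rp 8 (.thr 20 23 (.thr 49 61 (.thr 16 28 (.thr 32 47 (.thr 48 0 (.thr 51 50 (.thr 54 60 (.thr 38 6 (.dbl 36 12 39))))))))) (.rp 0 (.thr 40 8 (.thr 49 61 (.thr 32 47 (.thr 36 44 (.thr 38 39 (.thr 54 6 (.thr 51 60 (.dbl 48 12 50)))))))) .nd)))))))))))))) (.rp 13 (.thr 58 57 (.thr 54 50 (.thr 38 6 (.thr 36 39 (.thr 32 47 (.thr 40 44 (.dbl 8 24 25))))))) (.rp 8 (.thr 20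 23 (.thr 57 58 (.thr 49 61 (.thr 25 13 (.thr 28 19 (.thr 16 24 (.thr 32 47 (.thr 48 0 (.thr 51 50 (.thr 60 54 (.dbl 12 38 44))))))))))) .nd)))))))))))) (.rp 60 (.thr 53 5 (.thr 63 0 (.thr 58 48 (.thr 59 57 (.thr 25 8 (.thr 29 17 (.thr 28 19 (.thr 31 30 (.dbl 47 15 32))))))))) (.rp 52 (.thr 20 23 (.thr 0 63 (.thr 40 60 (.thr 24 8 (.thr 32 47 (.dbl 16 28 48)))))) (.rp 48 (.thr 20 23 (.thr 0 63 (.thr 40 60 (.thr 32 47 (.thr 36 44 (.dbl 52 4 7)))))) (.rp 7 (.thr 53 5 (.thr 63 0 (.thr 48 58 (.thr 62 2 (.dbl 60 52 61))))) (.rp 0 (.thr 52 7 (.thr 53 5 (.thr 62 2 (.thr 48 60 (.thr 58 63 (.thr 59 57 (.thr 25 8 (.thr 49 13 (.dbl 50 51 54))))))))) .nd))))))))) (.rp 7 (.thr 5 53 (.thr 0 63 (.thr 2 62 (.thr 1 3 (.thr 15 10 (.thr 13 9 (.thr 25 49 (.thr 12 14 (.dbl 8 4 59))))))))) (.rp 3 (.thr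 5 53 (.thr 0 63 (.thr 2 62 (.thr 10 15 (.thr 6 14 (.dbl 7 4 52)))))) (.rp 0 (.str 25 (.nv (.thr 2 62 (.thr 19 28 (.thr 17 29 (.thr 18 16 (.thr 34 50 (.thr 32 47 (.thr 35 33 (.thr 51 3 (.dbl 38 12 46))))))))) (.rp 62 (.thr 23 20 (.thr 5 53 (.thr 52 7 (.thr 8 59 (.thr 49 13 (.thr 17 29 (.thr 33 1 (.thr 19 28 (.thr 32 47 (.thr 35 34 (.thr 3 51 (.thr 63 43 (.dbl 18 16 48))))))))))))) (.rp 58 (.thr 23 20 (.thr 5 53 (.thr 52 7 (.thr 8 59 (.thr 49 13 (.thr 17 29 (.thr 33 1 (.thr 19 28 (.thr 16 18 (.thr 32 47 (.thr 35 34 (.thr 51 3 (.thr 2 62 (.thr 38 12 (.thr 39 36 (.dbl 27 15 31)))))))))))))))) (.rp 56 (.str 11 (.nv (.thr 23 20 (.thr 19 28 (.thr 27 31 (.dbl 59 8 43)))) (.nv (.thr 8 59 (.thr 13 49 (.thr 9 10 (.dbl 5 1 53)))) (.rp 59 (.thr 23 20 (.thr 19 28 (.thr 31 27 (.thr 47 32 (.thr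 7 52 (.dbl 15 3 63)))))) (.rp 8 (.thr 23 20 (.thr 19 28 (.thr 27 31 (.thr 7 52 (.thr 3 15 (.dbl 43 59 63)))))) .nd))))) (.rp 54 (.thr 23 20 (.thr 5 53 (.thr 52 7 (.thr 8 59 (.thr 49 13 (.thr 17 29 (.thr 33 1 (.thr 19 28 (.thr 16 18 (.thr 32 47 (.thr 35 34 (.thr 51 3 (.thr 2 62 (.thr 38 12 (.thr 39 36 (.dbl 27 15 31)))))))))))))))) (.rp 51 (.thr 23 20 (.thr 5 53 (.thr 52 7 (.thr 59 8 (.thr 49 13 (.thr 17 29 (.thr 33 1 (.thr 19 28 (.thr 31 27 (.thr 32 47 (.thr 34 35 (.thr 38 46 (.thr 39 36 (.thr 6 54 (.thr 2 62 (.dbl 18 16 50)))))))))))))))) (.rp 50 (.thr 23 20 (.thr 5 53 (.thr 52 7 (.thr 8 59 (.thr 49 13 (.thr 17 29 (.thr 33 1 (.thr 19 28 (.thr 16 18 (.thr 32 47 (.thr 35 34 (.thr 2 62 (.thr 51 3 (.thr 38 12 (.thr 39 36 (.dbl 27 15 31)))))))))))))))) (.rp 48 (.thr 23 20 (.thr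 5 53 (.thr 52 7 (.thr 8 59 (.thr 49 13 (.thr 17 29 (.thr 33 1 (.thr 19 28 (.thr 31 27 (.thr 32 47 (.thr 34 35 (.thr 38 46 (.thr 39 36 (.thr 6 54 (.thr 2 62 (.dbl 18 16 50)))))))))))))))) (.rp 47 (.thr 23 20 (.thr 5 53 (.thr 52 7 (.thr 8 59 (.thr 13 49 (.thr 1 9 (.thr 29 17 (.thr 28 19 (.thr 30 31 (.thr 62 2 (.thr 14 46 (.thr 15 12 (.dbl 45 60 61))))))))))))) (.rp 46 (.thr 23 20 (.thr 5 53 (.thr 52 7 (.thr 8 59 (.thr 49 13 (.thr 17 29 (.thr 33 1 (.thr 19 28 (.thr 31 27 (.thr 32 47 (.thr 34 35 (.thr 2 62 (.dbl 18 16 50))))))))))))) (.rp 38 (.thr 23 20 (.thr 5 53 (.thr 52 7 (.thr 8 59 (.thr 49 13 (.thr 17 29 (.thr 33 1 (.thr 19 28 (.thr 32 47 (.thr 35 34 (.thr 3 51 (.thr 63 43 (.dbl 18 16 48))))))))))))) (.rp 35 (.thr 23 20 (.thr 5 53 (.thr 52 7 (.thr 8 59 (.thr 49 13 (.thr 29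 17 (.thr 28 19 (.thr 31 30 (.thr 47 32 (.thr 63 15 (.thr 3 43 (.thr 12 46 (.thr 6 9 (.dbl 38 51 54)))))))))))))) (.rp 34 (.thr 23 20 (.thr 5 53 (.thr 52 7 (.thr 8 59 (.thr 13 49 (.thr 9 1 (.thr 11 10 (.thr 17 29 (.thr 19 28 (.thr 16 18 (.thr 31 27 (.thr 47 32 (.thr 63 15 (.thr 3 43 (.thr 12 6 (.dbl 51 35 38)))))))))))))))) (.rp 33 (.thr 23 20 (.thr 5 53 (.thr 52 7 (.thr 8 59 (.thr 49 13 (.thr 29 17 (.thr 19 28 (.thr 31 27 (.thr 47 32 (.thr 63 15 (.thr 12 46 (.thr 51 38 (.dbl 3 35 43))))))))))))) (.rp 32 (.thr 23 20 (.thr 5 53 (.thr 52 7 (.thr 8 59 (.thr 13 49 (.thr 1 9 (.thr 29 17 (.thr 28 19 (.thr 30 31 (.thr 62 2 (.thr 14 46 (.thr 15 12 (.dbl 45 60 61))))))))))))) (.rp 31 (.thr 23 20 (.thr 5 53 (.thr 52 7 (.thr 8 59 (.thr 49 13 (.thr 17 29 (.thr 33 1 (.thr 28 19 (.thr 32 47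 (.thr 34 35 (.thr 38 46 (.thr 39 36 (.thr 6 54 (.thr 2 62 (.thr 50 18 (.dbl 51 12 48)))))))))))))))) (.rp 30 (.thr 23 20 (.thr 5 53 (.thr 52 7 (.thr 8 59 (.thr 49 13 (.thr 17 29 (.thr 33 1 (.thr 19 28 (.thr 31 27 (.thr 32 47 (.thr 34 35 (.thr 38 46 (.thr 39 36 (.thr 6 54 (.thr 2 62 (.thr 14 10 (.dbl 18 16 50))))))))))))))))) (.rp 29 (.thr 23 20 (.thr 5 53 (.thr 52 7 (.thr 8 59 (.thr 13 49 (.thr 9 1 (.thr 11 10 (.thr 19 28 (.thr 31 27 (.thr 47 32 (.thr 63 15 (.thr 3 43 (.thr 51 35 (.dbl 12 6 38)))))))))))))) (.rp 28 (.thr 23 20 (.thr 5 53 (.thr 52 7 (.thr 8 59 (.thr 49 13 (.thr 17 29 (.thr 33 1 (.thr 32 47 (.thr 34 35 (.thr 38 46 (.thr 39 36 (.thr 6 54 (.thr 2 62 (.thr 50 18 (.dbl 51 12 48))))))))))))))) (.rp 24 (.thr 23 20 (.thr 5 53 (.thr 52 7 (.thr 8 59 (.thr 49 13 (.thr 17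 29 (.thr 33 1 (.thr 19 28 (.thr 16 18 (.thr 32 47 (.thr 35 34 (.thr 51 3 (.thr 2 62 (.thr 48 50 (.thr 38 12 (.thr 39 36 (.dbl 27 15 31))))))))))))))))) (.rp 20 (.thr 5 53 (.thr 52 7 (.thr 8 59 (.thr 49 13 (.thr 17 29 (.thr 33 1 (.thr 19 28 (.thr 32 47 (.thr 34 35 (.thr 38 46 (.thr 39 36 (.thr 6 54 (.thr 2 62 (.dbl 18 16 50)))))))))))))) (.rp 19 (.thr 23 20 (.thr 5 53 (.thr 52 7 (.thr 8 59 (.thr 49 13 (.thr 17 29 (.thr 33 1 (.thr 32 47 (.thr 34 35 (.thr 38 46 (.thr 39 36 (.thr 6 54 (.thr 2 62 (.thr 50 18 (.dbl 51 12 48))))))))))))))) (.rp 18 (.thr 23 20 (.thr 5 53 (.thr 52 7 (.thr 8 59 (.thr 49 13 (.thr 17 29 (.thr 33 1 (.thr 19 28 (.thr 32 47 (.thr 35 34 (.thr 51 3 (.thr 2 62 (.thr 48 50 (.thr 38 12 (.thr 39 36 (.dbl 27 15 31)))))))))))))))) (.rp 17 (.thr 23 20 (.thr 5 53 (.thr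 52 7 (.thr 59 8 (.thr 49 13 (.thr 19 28 (.thr 31 27 (.thr 47 32 (.thr 63 15 (.thr 3 43 (.thr 51 35 (.thr 48 50 (.thr 62 2 (.dbl 60 56 61)))))))))))))) (.rp 16 (.thr 23 20 (.thr 5 53 (.thr 52 7 (.thr 8 59 (.thr 49 13 (.thr 17 29 (.thr 33 1 (.thr 28 19 (.thr 32 47 (.thr 34 35 (.thr 38 46 (.thr 39 36 (.thr 6 54 (.thr 2 62 (.thr 50 18 (.dbl 51 12 48)))))))))))))))) (.rp 14 (.thr 23 20 (.thr 5 53 (.thr 52 7 (.thr 8 59 (.thr 49 13 (.thr 17 29 (.thr 33 1 (.thr 19 28 (.thr 31 27 (.thr 32 47 (.thr 34 35 (.thr 2 62 (.dbl 18 16 50))))))))))))) (.rp 12 (.thr 23 20 (.thr 5 53 (.thr 52 7 (.thr 8 59 (.thr 49 13 (.thr 17 29 (.thr 33 1 (.thr 19 28 (.thr 31 27 (.thr 32 47 (.thr 34 35 (.thr 2 62 (.dbl 18 16 50))))))))))))) (.rp 11 (.str 56 (.nv (.thr 53 5 (.thr 49 13 (.thr 57 61 (.dbl 59 8 58))))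 (.nv (.thr 8 59 (.thr 28 19 (.thr 24 40 (.dbl 20 16 23)))) (.rp 59 (.thr 53 5 (.thr 49 13 (.thr 61 57 (.thr 62 2 (.thr 52 7 (.dbl 60 48 63)))))) (.rp 8 (.thr 53 5 (.thr 49 13 (.thr 57 61 (.thr 52 7 (.thr 48 60 (.dbl 58 59 63)))))) .nd))))) (.rp 3 (.thr 23 20 (.thr 5 53 (.thr 52 7 (.thr 8 59 (.thr 49 13 (.thr 17 29 (.thr 33 1 (.thr 2 62 (.thr 19 28 (.thr 31 27 (.thr 32 47 (.thr 34 35 (.dbl 18 16 50))))))))))))) (.rp 2 (.thr 23 20 (.thr 5 53 (.thr 52 7 (.thr 8 59 (.thr 49 13 (.thr 29 17 (.thr 19 28 (.thr 31 27 (.thr 47 32 (.thr 63 15 (.thr 12 46 (.thr 51 38 (.dbl 3 35 43))))))))))))) .nd))))))))))))))))))))))))))))))) .nd))))))))))))) (.rp 54 (.thr 23 20 (.thr 5 53 (.thr 7 52 (.thr 55 39 (.dbl 4 6 38))))) (.rp 53 (.str 4 (.nv (.thr 7 52 (.thr 6 5 (.dbl 38 54 55))) (.nv (.thr 20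 23 (.dbl 52 7 36)) (.rp 56 (.str 11 (.nv (.thr 7 52 (.thr 6 5 (.dbl 38 54 55))) (.nv (.thr 20 23 (.dbl 52 7 36)) (.rp 52 (.thr 23 20 (.thr 55 38 (.thr 7 39 (.thr 6 5 (.thr 3 15 (.thr 12 9 (.thr 0 8 (.dbl 63 42 43)))))))) (.rp 7 (.thr 20 23 (.thr 36 52 (.dbl 38 39 55))) .nd))))) (.rp 52 (.thr 20 23 (.thr 38 55 (.thr 54 6 (.thr 39 36 (.str 0 (.nv (.thr 42 63 (.thr 34 46 (.thr 51 17 (.dbl 60 40 57)))) (.nv (.thr 12 8 (.thr 60 40 (.dbl 51 25 57))) (.nv (.thr 12 8 (.thr 25 51 (.thr 29 17 (.dbl 63 42 46)))) (.rp 56 (.str 11 (.nv (.thr 60 40 (.thr 51 57 (.thr 34 17 (.dbl 42 46 63)))) (.nv (.thr 42 63 (.thr 34 46 (.thr 51 17 (.dbl 60 40 57)))) (.nv (.thr 42 63 (.thr 34 46 (.thr 51 17 (.dbl 12 8 25)))) (.nv (.thr 12 8 (.thr 51 25 (.dbl 60 40 57))) (.rp 60 (.str 48 (.nv (.thr 16 32 (.thr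 28 24 (.thr 25 19 (.dbl 12 8 51)))) (.nv (.thr 12 8 (.thr 25 51 (.thr 29 17 (.dbl 63 42 46)))) (.nv (.thr 32 16 (.dbl 42 47 63)) .nd)))) (.rp 59 (.thr 12 8 (.thr 51 25 (.thr 42 63 (.dbl 34 17 46)))) (.rp 51 (.thr 8 12 (.thr 42 63 (.thr 59 25 (.thr 47 32 (.dbl 43 27 35))))) (.rp 42 (.thr 12 8 (.thr 25 51 (.thr 28 19 (.dbl 60 40 44)))) .nd))))))))) (.rp 51 (.thr 12 8 (.thr 63 42 (.thr 29 46 (.thr 25 17 (.thr 28 19 (.dbl 60 40 44)))))) (.rp 42 (.thr 12 8 (.thr 25 51 (.thr 28 19 (.dbl 60 40 44)))) (.rp 12 (.thr 60 40 (.thr 51 57 (.thr 34 17 (.dbl 42 46 63)))) (.rp 11 (.str 56 (.nv (.thr 42 63 (.thr 60 40 (.thr 51 57 (.dbl 34 17 46)))) (.nv (.thr 12 8 (.thr 25 51 (.thr 29 17 (.dbl 63 42 46)))) (.nv (.thr 40 60 (.dbl 8 12 24)) .nd)))) .nd))))))))))))) (.rp 11 (.str 56 (.nv (.thr 7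 52 (.thr 6 5 (.dbl 38 54 55))) (.nv (.thr 20 23 (.dbl 52 7 36)) (.rp 52 (.str 32 (.nv (.thr 20 23 (.thr 38 55 (.thr 54 6 (.thr 42 47 (.thr 0 63 (.thr 40 60 (.dbl 36 39 44))))))) (.nv (.thr 38 55 (.thr 54 6 (.thr 42 47 (.thr 0 63 (.thr 12 8 (.thr 34 46 (.dbl 51 17 25))))))) (.nv (.thr 38 55 (.thr 54 6 (.thr 36 39 (.thr 40 44 (.thr 8 24 (.thr 0 12 (.dbl 20 23 60))))))) (.nv (.thr 20 23 (.thr 42 47 (.thr 0 63 (.thr 40 60 (.dbl 8 12 24))))) (.rp 55 (.str 54 (.nv (.thr 38 6 (.thr 36 39 (.thr 40 44 (.thr 8 24 (.thr 42 47 (.dbl 0 12 63)))))) (.nv (.thr 38 6 (.thr 36 39 (.thr 40 44 (.thr 8 24 (.thr 0 12 (.dbl 20 23 60)))))) (.nv (.thr 42 47 (.thr 62 2 (.thr 63 0 (.thr 60 61 (.thr 57 51 (.dbl 58 50 59)))))) (.rp 0 (.thr 38 6 (.thr 36 39 (.thr 40 44 (.thr 24 8 (.thr 12 48 (.thr 25 51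 (.thr 28 19 (.dbl 20 16 23)))))))) .nd))))) (.rp 54 (.thr 55 38 (.thr 20 23 (.thr 42 47 (.thr 0 63 (.thr 40 60 (.dbl 8 12 24)))))) (.rp 0 (.thr 38 55 (.thr 54 6 (.thr 36 39 (.thr 40 44 (.thr 24 8 (.thr 12 48 (.thr 25 51 (.thr 28 19 (.dbl 20 16 23))))))))) .nd)))))))) (.rp 7 (.thr 20 23 (.thr 36 52 (.dbl 38 39 55))) .nd))))) (.rp 7 (.thr 20 23 (.thr 36 52 (.dbl 38 39 55))) .nd))))))) (.rp 52 (.str 42 (.nv (.thr 0 63 (.thr 2 62 (.thr 5 53 (.thr 10 15 (.thr 6 14 (.thr 4 7 (.dbl 38 54 55))))))) (.nv (.thr 23 20 (.thr 63 0 (.thr 43 3 (.thr 47 32 (.thr 39 35 (.thr 55 7 (.dbl 38 4 36))))))) (.rp 63 (.thr 53 5 (.thr 62 2 (.str 25 (.nv (.thr 8 59 (.thr 13 49 (.thr 29 17 (.thr 45 61 (.thr 47 32 (.thr 46 44 (.thr 30 14 (.dbl 28 19 31)))))))) (.nv (.thr 8 59 (.thr 13 49 (.thr 28 19 (.thr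 29 17 (.thr 45 61 (.thr 30 31 (.thr 15 60 (.dbl 14 12 46)))))))) (.nv (.thr 8 59 (.thr 20 23 (.thr 28 19 (.thr 16 24 (.thr 32 47 (.thr 0 48 (.thr 12 4 (.dbl 60 40 44)))))))) (.nv (.thr 28 19 (.thr 29 17 (.thr 30 31 (.thr 47 32 (.thr 13 49 (.thr 45 61 (.dbl 46 14 44))))))) (.rp 56 (.str 11 (.nv (.thr 19 28 (.thr 59 8 (.thr 27 43 (.dbl 23 20 31)))) (.rp 60 (.str 48 (.nv (.thr 17 29 (.thr 32 47 (.thr 0 16 (.thr 49 13 (.dbl 51 34 50))))) (.nv (.thr 59 8 (.thr 19 28 (.thr 27 43 (.dbl 23 20 31)))) (.rp 31 (.thr 17 29 (.thr 49 13 (.thr 51 50 (.thr 34 0 (.dbl 38 12 46))))) (.rp 12 (.thr 23 20 (.thr 59 8 (.thr 27 43 (.dbl 19 28 31)))) .nd))))) (.rp 59 (.thr 28 19 (.thr 29 17 (.thr 30 31 (.thr 14 46 (.thr 13 49 (.thr 45 61 (.dbl 15 12 60))))))) (.rp 48 (.str 60 (.nv (.thr 8 59 (.thr 17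 29 (.thr 20 23 (.thr 0 40 (.thr 12 4 (.dbl 51 34 38)))))) (.nv (.thr 28 19 (.thr 12 44 (.thr 49 13 (.thr 57 61 (.dbl 51 38 54))))) (.nv (.thr 19 28 (.thr 59 8 (.thr 27 43 (.dbl 23 20 31)))) .nd)))) (.rp 43 (.thr 28 19 (.thr 29 17 (.thr 30 31 (.thr 14 46 (.thr 13 49 (.thr 45 61 (.dbl 15 12 60))))))) (.rp 40 (.thr 23 20 (.thr 19 28 (.thr 27 31 (.dbl 59 8 43)))) (.rp 31 (.thr 23 20 (.thr 59 8 (.thr 43 27 (.thr 47 32 (.thr 39 35 (.thr 55 7 (.dbl 38 4 36))))))) (.rp 28 (.thr 23 20 (.thr 59 8 (.thr 43 27 (.thr 47 32 (.thr 39 35 (.thr 55 7 (.dbl 38 4 36))))))) (.rp 27 (.thr 28 19 (.thr 29 17 (.thr 13 49 (.thr 45 61 (.thr 47 32 (.thr 46 44 (.dbl 30 14 31))))))) (.rp 24 (.thr 28 19 (.thr 29 17 (.thr 30 31 (.thr 14 46 (.thr 13 49 (.thr 45 61 (.dbl 15 12 60))))))) (.rp 23 (.thr 28 19 (.thr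 29 17 (.thr 13 49 (.thr 45 61 (.thr 47 32 (.thr 46 44 (.dbl 30 14 31))))))) (.rp 20 (.thr 28 19 (.thr 29 17 (.thr 30 31 (.thr 14 46 (.thr 13 49 (.thr 45 61 (.dbl 15 12 60))))))) (.rp 19 (.thr 23 20 (.thr 59 8 (.thr 43 27 (.thr 47 32 (.thr 39 35 (.thr 55 7 (.dbl 38 4 36))))))) (.rp 8 (.thr 28 19 (.thr 29 17 (.thr 30 31 (.thr 14 46 (.thr 13 49 (.thr 45 61 (.dbl 15 12 60))))))) .nd))))))))))))))) (.rp 31 (.thr 29 17 (.thr 47 32 (.thr 13 49 (.thr 45 61 (.thr 46 44 (.thr 38 34 (.thr 14 30 (.dbl 12 15 51)))))))) (.rp 28 (.thr 29 17 (.thr 47 32 (.thr 13 49 (.thr 45 61 (.thr 46 44 (.thr 38 34 (.thr 14 30 (.dbl 12 15 51)))))))) (.rp 19 (.thr 29 17 (.thr 47 32 (.thr 13 49 (.thr 45 61 (.thr 46 44 (.thr 38 34 (.thr 14 30 (.dbl 12 15 51)))))))) (.rp 11 (.str 56 (.nv (.thr 8 59 (.thr 20 23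 (.thr 24 40 (.dbl 28 16 19)))) (.nv (.thr 59 8 (.thr 57 58 (.dbl 49 13 61))) (.rp 59 (.thr 20 23 (.thr 28 19 (.thr 24 16 (.thr 32 47 (.thr 40 8 (.thr 44 36 (.dbl 60 0 12))))))) (.rp 8 (.thr 49 13 (.thr 57 61 (.thr 58 59 (.thr 54 50 (.thr 51 60 (.dbl 38 6 12)))))) .nd))))) .nd)))))))))))) (.rp 60 (.thr 62 2 (.thr 20 23 (.thr 53 5 (.thr 32 47 (.str 48 (.nv (.dbl 63 0 58) (.rp 63 (.thr 16 0 (.thr 28 24 (.thr 25 19 (.thr 59 8 (.thr 49 13 (.thr 50 51 (.thr 57 61 (.dbl 58 54 56)))))))) (.rp 58 (.dbl 0 16 63) (.rp 56 (.str 11 (.nv (.dbl 0 16 63) (.rp 63 (.thr 16 0 (.thr 28 24 (.thr 25 19 (.thr 49 13 (.thr 50 51 (.thr 54 58 (.thr 38 6 (.thr 34 46 (.thr 33 35 (.thr 3 18 (.dbl 17 1 29))))))))))) (.rp 16 (.dbl 63 0 58) (.rp 0 (.thr 58 63 (.thr 54 50 (.thr 38 6 (.thr 36 39 (.thr 34 46 (.thr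 12 24 (.thr 25 51 (.thr 17 29 (.thr 49 13 (.dbl 33 1 35)))))))))) .nd))))) (.rp 11 (.str 56 (.nv (.dbl 63 0 58) (.rp 63 (.thr 16 0 (.thr 24 28 (.thr 40 8 (.dbl 36 12 44)))) (.rp 58 (.dbl 0 16 63) (.rp 0 (.thr 58 63 (.thr 57 59 (.thr 49 61 (.dbl 50 51 54)))) .nd))))) (.rp 0 (.thr 58 63 (.thr 50 54 (.thr 49 51 (.thr 57 61 (.thr 25 13 (.dbl 59 8 56)))))) .nd))))))))))) (.rp 56 (.str 11 (.nv (.thr 23 20 (.thr 47 32 (.thr 63 0 (.thr 3 43 (.dbl 15 7 31))))) (.nv (.thr 2 62 (.thr 0 63 (.thr 3 1 (.thr 15 7 (.dbl 5 10 53))))) (.rp 63 (.str 13 (.nv (.thr 2 62 (.thr 5 53 (.thr 9 1 (.thr 10 8 (.thr 14 6 (.dbl 15 0 12)))))) (.nv (.thr 23 20 (.thr 25 49 (.thr 19 28 (.thr 27 31 (.dbl 59 8 43))))) (.nv (.thr 5 53 (.thr 9 1 (.thr 8 10 (.dbl 25 49 59)))) (.rp 60 (.str 48 (.nv (.thr 5 53 (.thr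 9 1 (.thr 10 8 (.thr 0 15 (.dbl 32 16 47))))) (.nv (.thr 20 23 (.thr 25 49 (.thr 28 19 (.thr 32 47 (.dbl 16 0 24))))) (.nv (.thr 5 53 (.thr 9 1 (.thr 8 10 (.dbl 25 49 59)))) (.rp 62 (.str 61 (.nv (.thr 25 49 (.dbl 29 17 45)) (.nv (.thr 53 5 (.dbl 49 25 57)) (.rp 49 (.thr 5 53 (.thr 29 45 (.thr 25 17 (.thr 8 59 (.dbl 9 1 10))))) (.rp 25 (.thr 5 53 (.thr 9 1 (.thr 32 47 (.thr 0 16 (.dbl 10 8 15))))) .nd))))) (.rp 61 (.thr 62 2 (.thr 5 53 (.thr 9 1 (.thr 8 10 (.dbl 25 49 59))))) .nd)))))) (.rp 48 (.str 60 (.nv (.thr 2 62 (.thr 20 23 (.thr 0 40 (.thr 3 1 (.thr 15 7 (.dbl 5 10 53)))))) (.nv (.thr 20 23 (.thr 25 49 (.thr 28 19 (.thr 32 47 (.thr 40 0 (.dbl 44 12 36)))))) (.nv (.thr 25 49 (.thr 8 59 (.thr 9 10 (.dbl 5 1 53)))) (.rp 58 (.thr 53 5 (.thr 23 20 (.thr 25 49 (.thr 59 8 (.thr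 27 43 (.dbl 19 28 31)))))) (.rp 53 (.str 58 (.nv (.thr 23 20 (.thr 25 49 (.thr 19 28 (.thr 27 31 (.dbl 59 8 43))))) (.nv (.thr 2 62 (.thr 20 23 (.thr 0 40 (.thr 3 1 (.thr 15 7 (.thr 10 5 (.dbl 14 6 12))))))) (.nv (.thr 62 2 (.thr 54 50 (.thr 38 6 (.thr 25 49 (.dbl 51 12 57))))) (.rp 55 (.str 54 (.nv (.thr 51 57 (.thr 38 6 (.dbl 25 12 49))) (.nv (.dbl 62 2 50) (.rp 51 (.str 59 (.nv (.dbl 62 2 50) (.nv (.dbl 25 8 49) (.rp 50 (.thr 49 25 (.thr 38 6 (.thr 39 36 (.thr 47 32 (.dbl 43 27 35))))) (.rp 49 (.thr 50 62 (.thr 38 6 (.thr 39 36 (.thr 43 27 (.dbl 47 32 35))))) .nd))))) .nd)))) (.rp 54 (.str 55 (.nv (.thr 25 49 (.thr 28 19 (.thr 29 17 (.thr 30 31 (.dbl 45 15 61))))) (.nv (.thr 23 20 (.thr 39 7 (.dbl 38 4 36))) (.rp 23 (.thr 38 4 (.thr 25 49 (.thr 28 19 (.dbl 12 44 51)))) .nd))))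 .nd)))))) .nd)))))) (.rp 8 (.thr 23 20 (.thr 5 53 (.thr 2 62 (.thr 1 9 (.thr 3 0 (.thr 7 15 (.thr 4 6 (.dbl 55 38 39)))))))) .nd))))))) (.rp 60 (.str 48 (.nv (.thr 32 47 (.dbl 0 16 63)) (.nv (.thr 53 5 (.dbl 63 0 58)) (.rp 63 (.thr 5 53 (.thr 32 47 (.thr 0 16 (.thr 15 10 (.thr 3 7 (.dbl 2 1 62)))))) (.rp 0 (.thr 53 5 (.thr 63 58 (.thr 47 32 (.thr 15 31 (.thr 3 7 (.dbl 23 20 43)))))) .nd))))) (.rp 48 (.str 60 (.nv (.thr 62 2 (.dbl 63 0 61)) (.nv (.thr 20 23 (.dbl 0 40 63)) (.rp 63 (.thr 20 23 (.thr 0 40 (.thr 2 62 (.thr 3 1 (.thr 15 7 (.dbl 5 10 53)))))) (.rp 0 (.thr 23 20 (.thr 62 2 (.thr 63 61 (.thr 3 43 (.thr 15 7 (.dbl 47 31 32)))))) .nd))))) (.rp 15 (.thr 23 20 (.thr 63 0 (.thr 43 3 (.thr 59 27 (.thr 55 51 (.thr 39 7 (.dbl 38 4 36))))))) (.rp 7 (.thr 5 53 (.thr 0 63 (.thr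 10 15 (.thr 9 8 (.thr 2 62 (.dbl 1 3 13)))))) (.rp 3 (.thr 5 53 (.thr 0 63 (.thr 10 15 (.thr 8 9 (.thr 2 62 (.thr 6 14 (.dbl 4 7 12))))))) (.rp 0 (.str 19 (.nv (.thr 5 53 (.thr 25 28 (.thr 8 59 (.thr 9 10 (.dbl 13 1 49))))) (.nv (.thr 23 20 (.thr 27 31 (.thr 59 43 (.dbl 25 8 28)))) (.rp 60 (.str 48 (.nv (.thr 2 62 (.thr 25 28 (.thr 49 13 (.thr 50 51 (.thr 18 34 (.dbl 17 16 29)))))) (.nv (.thr 25 28 (.thr 59 8 (.thr 27 43 (.dbl 23 20 31)))) (.rp 44 (.thr 53 5 (.thr 63 58 (.thr 47 32 (.thr 15 31 (.thr 3 7 (.dbl 23 20 43)))))) (.rp 40 (.thr 20 23 (.thr 5 53 (.thr 25 28 (.thr 8 59 (.thr 9 10 (.dbl 13 1 49)))))) (.rp 28 (.thr 53 5 (.thr 63 58 (.thr 47 32 (.thr 15 31 (.thr 3 7 (.dbl 23 20 43)))))) (.rp 25 (.thr 53 5 (.thr 63 58 (.thr 47 32 (.thr 15 31 (.thr 3 7 (.dbl 23 20 43))))))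 (.rp 20 (.str 40 (.nv (.thr 5 53 (.thr 25 28 (.thr 8 59 (.thr 9 10 (.dbl 13 1 49))))) (.nv (.thr 32 47 (.thr 36 44 (.thr 38 39 (.thr 25 28 (.dbl 12 24 51))))) (.rp 44 (.thr 53 5 (.thr 58 63 (.thr 62 2 (.thr 50 54 (.thr 49 51 (.thr 57 61 (.dbl 25 13 28))))))) (.rp 36 (.str 4 (.nv (.thr 25 28 (.thr 17 29 (.thr 49 13 (.thr 33 1 (.dbl 18 3 16))))) (.nv (.thr 5 53 (.thr 6 7 (.dbl 38 54 55))) (.rp 5 (.thr 38 55 (.thr 25 28 (.thr 49 13 (.dbl 51 12 50)))) .nd)))) (.rp 28 (.thr 53 5 (.thr 58 63 (.thr 62 2 (.thr 54 50 (.thr 38 6 (.thr 36 39 (.dbl 32 44 47))))))) (.rp 25 (.thr 53 5 (.thr 58 63 (.thr 62 2 (.thr 54 50 (.thr 38 6 (.thr 36 39 (.dbl 32 44 47))))))) (.rp 24 (.thr 53 5 (.thr 58 63 (.thr 62 2 (.thr 50 54 (.thr 49 51 (.thr 57 61 (.dbl 25 13 28))))))) (.rp 16 (.thr 53 5 (.thr 58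 63 (.thr 62 2 (.thr 50 54 (.thr 49 51 (.thr 57 61 (.dbl 25 13 28))))))) (.rp 12 (.thr 53 5 (.thr 58 63 (.thr 62 2 (.thr 50 54 (.thr 49 51 (.thr 57 61 (.dbl 25 13 28))))))) (.rp 4 (.str 36 (.nv (.thr 12 24 (.thr 38 39 (.dbl 25 28 51))) (.nv (.dbl 32 44 47) (.rp 12 (.str 8 (.nv (.dbl 32 44 47) (.nv (.dbl 25 28 59) (.rp 44 (.thr 28 25 (.thr 38 39 (.thr 6 54 (.thr 2 62 (.dbl 10 9 14))))) (.rp 28 (.thr 44 32 (.thr 38 39 (.thr 6 54 (.thr 10 9 (.dbl 2 14 62))))) .nd))))) .nd)))) .nd))))))))))) (.rp 12 (.thr 53 5 (.thr 63 58 (.thr 47 32 (.thr 15 31 (.thr 3 7 (.dbl 23 20 43)))))) .nd))))))))) (.rp 59 (.thr 5 53 (.thr 23 20 (.thr 47 32 (.thr 31 27 (.thr 15 63 (.thr 7 3 (.thr 55 39 (.dbl 4 6 38)))))))) (.rp 48 (.str 60 (.nv (.thr 23 20 (.thr 27 31 (.thr 43 59 (.thr 62 2 (.dbl 63 3 61)))))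 (.nv (.thr 25 28 (.thr 13 49 (.thr 29 17 (.thr 61 45 (.dbl 62 2 63))))) (.nv (.thr 23 20 (.thr 27 31 (.thr 59 43 (.dbl 25 8 28)))) (.rp 32 (.str 16 (.nv (.thr 17 18 (.dbl 25 28 29)) (.nv (.thr 20 23 (.dbl 28 24 25)) (.rp 28 (.thr 23 20 (.thr 17 18 (.thr 25 29 (.thr 59 8 (.dbl 27 31 43))))) (.rp 25 (.thr 23 20 (.thr 27 31 (.thr 62 2 (.thr 63 61 (.dbl 43 3 59))))) .nd))))) (.rp 16 (.thr 32 47 (.thr 23 20 (.thr 27 31 (.thr 59 43 (.dbl 25 8 28))))) .nd)))))) (.rp 28 (.thr 23 20 (.thr 47 32 (.thr 27 31 (.thr 43 59 (.thr 3 63 (.dbl 35 39 51)))))) (.rp 25 (.thr 23 20 (.thr 47 32 (.thr 27 31 (.thr 43 59 (.thr 3 63 (.dbl 35 39 51)))))) (.rp 8 (.thr 23 20 (.thr 47 32 (.thr 27 31 (.thr 43 59 (.thr 3 63 (.dbl 35 39 51)))))) .nd))))))))) .nd)))))))))) (.rp 55 (.thr 20 23 (.thr 0 63 (.thr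 60 40 (.thr 32 47 (.thr 16 48 (.thr 28 24 (.thr 25 19 (.thr 12 44 (.dbl 8 4 59))))))))) (.rp 48 (.thr 32 47 (.thr 53 5 (.thr 20 23 (.thr 62 2 (.str 60 (.nv (.dbl 0 40 63) (.rp 63 (.thr 40 0 (.thr 44 36 (.thr 28 12 (.thr 24 16 (.thr 25 19 (.dbl 8 56 59)))))) (.rp 56 (.str 11 (.nv (.dbl 63 0 61) (.rp 63 (.thr 40 0 (.thr 36 44 (.thr 38 39 (.thr 54 6 (.thr 46 34 (.thr 51 57 (.thr 25 12 (.thr 29 17 (.thr 28 19 (.dbl 30 14 31)))))))))) (.rp 61 (.dbl 0 40 63) (.rp 0 (.thr 61 63 (.thr 49 57 (.thr 25 13 (.thr 28 19 (.thr 44 12 (.thr 36 40 (.thr 38 39 (.thr 46 34 (.thr 30 14 (.thr 15 45 (.dbl 29 17 31))))))))))) .nd))))) (.rp 40 (.dbl 63 0 61) (.rp 11 (.str 56 (.nv (.dbl 0 40 63) (.rp 63 (.thr 40 0 (.thr 24 8 (.thr 28 16 (.dbl 44 12 36)))) (.rp 40 (.dbl 63 0 61) (.rp 0 (.thr 61 63 (.thr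 57 49 (.thr 58 59 (.dbl 54 50 51)))) .nd))))) (.rp 0 (.thr 61 63 (.thr 49 57 (.thr 25 13 (.thr 8 59 (.thr 28 19 (.thr 44 12 (.thr 24 16 (.dbl 40 36 56)))))))) .nd))))))))))) (.rp 47 (.thr 53 5 (.thr 63 0 (.thr 48 58 (.thr 62 2 (.thr 61 60 (.thr 49 57 (.thr 51 50 (.thr 59 55 (.dbl 25 8 13))))))))) (.rp 38 (.thr 23 20 (.thr 63 0 (.thr 3 43 (.thr 47 32 (.thr 31 15 (.thr 19 27 (.thr 25 28 (.thr 59 8 (.dbl 51 35 55))))))))) (.rp 15 (.thr 5 53 (.thr 0 63 (.thr 2 62 (.thr 1 3 (.thr 13 9 (.thr 25 49 (.thr 8 59 (.thr 17 29 (.thr 51 34 (.dbl 12 4 38)))))))))) (.rp 11 (.str 56 (.nv (.thr 53 5 (.thr 63 0 (.thr 58 48 (.thr 57 59 (.thr 61 49 (.dbl 62 2 60)))))) (.nv (.thr 0 63 (.thr 20 23 (.thr 32 47 (.thr 40 60 (.thr 8 24 (.thr 36 44 (.thr 38 39 (.dbl 4 12 55)))))))) (.nv (.thr 53 5 (.thr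 62 2 (.thr 63 0 (.thr 61 60 (.thr 57 49 (.dbl 58 48 59)))))) (.nv (.thr 32 47 (.thr 0 63 (.thr 16 48 (.thr 20 23 (.thr 24 28 (.dbl 40 8 60)))))) (.rp 63 (.str 28 (.nv (.thr 25 19 (.thr 49 13 (.thr 53 5 (.thr 57 61 (.dbl 59 8 58))))) (.nv (.thr 20 23 (.thr 24 16 (.thr 8 40 (.dbl 25 19 59)))) (.rp 59 (.thr 20 23 (.thr 32 47 (.thr 24 16 (.thr 40 8 (.thr 60 0 (.dbl 44 12 36)))))) (.rp 25 (.thr 20 23 (.thr 32 47 (.thr 24 16 (.thr 40 8 (.thr 60 0 (.dbl 44 12 36)))))) (.rp 19 (.thr 20 23 (.thr 32 47 (.thr 24 16 (.thr 40 8 (.thr 60 0 (.dbl 44 12 36)))))) (.rp 8 (.thr 5 53 (.thr 20 23 (.thr 32 47 (.thr 24 16 (.thr 2 62 (.thr 25 19 (.thr 17 29 (.thr 49 13 (.thr 33 1 (.thr 34 35 (.thr 18 50 (.thr 51 0 (.dbl 38 12 46))))))))))))) .nd))))))) (.rp 60 (.thr 53 5 (.thr 63 0 (.thr 58 48 (.thr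 59 57 (.thr 25 8 (.thr 51 55 (.thr 29 17 (.dbl 12 38 46)))))))) (.rp 15 (.thr 20 23 (.thr 0 63 (.thr 40 60 (.thr 24 8 (.thr 16 28 (.dbl 32 47 48)))))) (.rp 0 (.str 49 (.nv (.thr 20 23 (.thr 25 13 (.thr 8 59 (.thr 24 40 (.dbl 28 16 19))))) (.nv (.thr 53 5 (.thr 57 61 (.thr 59 58 (.dbl 25 8 13)))) (.rp 59 (.thr 23 20 (.thr 53 5 (.thr 62 2 (.thr 57 61 (.thr 47 32 (.thr 25 13 (.thr 29 17 (.thr 28 19 (.thr 30 31 (.thr 46 14 (.thr 45 44 (.thr 12 63 (.dbl 38 34 51))))))))))))) (.rp 25 (.thr 53 5 (.thr 62 2 (.thr 57 61 (.thr 58 59 (.thr 48 63 (.dbl 50 51 54)))))) (.rp 13 (.thr 53 5 (.thr 62 2 (.thr 57 61 (.thr 58 59 (.thr 48 63 (.dbl 50 51 54)))))) (.rp 8 (.thr 53 5 (.thr 62 2 (.thr 57 61 (.thr 58 59 (.thr 48 63 (.dbl 50 51 54)))))) .nd))))))) .nd))))))))) (.rp 7 (.thr 23 20 (.thr 63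 0 (.thr 3 43 (.thr 47 32 (.thr 31 15 (.thr 19 27 (.thr 51 35 (.thr 59 55 (.dbl 25 8 28))))))))) (.rp 4 (.thr 53 5 (.thr 63 0 (.thr 48 58 (.thr 62 2 (.thr 61 60 (.thr 49 57 (.thr 51 50 (.thr 59 55 (.dbl 25 8 13))))))))) (.rp 3 (.thr 23 20 (.thr 63 0 (.thr 47 32 (.thr 31 15 (.thr 19 27 (.thr 25 28 (.thr 59 8 (.thr 51 55 (.thr 29 17 (.dbl 12 38 46)))))))))) (.rp 2 (.thr 23 20 (.thr 63 0 (.thr 3 43 (.thr 47 32 (.thr 31 15 (.thr 19 27 (.thr 51 35 (.thr 59 55 (.dbl 25 8 28))))))))) (.rp 0 (.thr 20 23 (.thr 32 47 (.str 25 (.nv (.thr 2 62 (.thr 17 29 (.thr 49 13 (.thr 33 1 (.thr 34 35 (.thr 18 50 (.dbl 19 16 28))))))) (.nv (.thr 2 62 (.thr 17 29 (.thr 19 28 (.thr 18 16 (.thr 34 50 (.thr 33 35 (.dbl 49 1 13))))))) (.nv (.thr 2 62 (.thr 17 29 (.thr 19 28 (.thr 18 16 (.thr 49 13 (.thr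 33 1 (.dbl 34 35 50))))))) (.rp 62 (.thr 17 29 (.thr 49 13 (.thr 33 1 (.thr 35 34 (.thr 19 28 (.thr 18 16 (.dbl 3 48 51))))))) (.rp 56 (.str 11 (.nv (.thr 8 59 (.thr 13 49 (.thr 9 10 (.dbl 5 1 53)))) (.rp 60 (.str 48 (.nv (.thr 2 62 (.thr 17 29 (.thr 19 28 (.thr 18 16 (.thr 33 3 (.dbl 34 35 50)))))) (.nv (.thr 8 59 (.thr 13 49 (.thr 9 10 (.dbl 5 1 53)))) .nd))) (.rp 59 (.thr 49 13 (.thr 17 29 (.thr 33 1 (.thr 35 34 (.thr 19 28 (.thr 18 16 (.dbl 3 48 51))))))) (.rp 58 (.thr 5 53 (.thr 13 49 (.thr 9 1 (.dbl 8 10 59)))) (.rp 57 (.thr 49 13 (.thr 17 29 (.thr 33 1 (.thr 35 34 (.thr 19 28 (.thr 18 16 (.dbl 3 48 51))))))) (.rp 53 (.thr 49 13 (.thr 17 29 (.thr 33 1 (.thr 35 34 (.thr 19 28 (.thr 18 16 (.dbl 3 48 51))))))) (.rp 49 (.thr 5 53 (.thr 8 59 (.thr 10 9 (.thr 2 62 (.thr 6 14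 (.thr 4 7 (.dbl 38 54 55))))))) (.rp 48 (.str 60 (.nv (.thr 29 17 (.thr 13 49 (.thr 61 45 (.dbl 62 2 63)))) (.nv (.thr 2 62 (.thr 28 19 (.thr 12 44 (.thr 29 17 (.thr 46 63 (.dbl 38 34 51)))))) (.nv (.thr 8 59 (.thr 13 49 (.thr 9 10 (.dbl 5 1 53)))) (.rp 51 (.thr 5 53 (.thr 8 59 (.thr 9 10 (.dbl 13 1 49)))) .nd))))) (.rp 13 (.thr 5 53 (.thr 8 59 (.thr 10 9 (.thr 2 62 (.thr 6 14 (.thr 4 7 (.dbl 38 54 55))))))) (.rp 10 (.thr 49 13 (.thr 17 29 (.thr 33 1 (.thr 35 34 (.thr 19 28 (.thr 18 16 (.dbl 3 48 51))))))) (.rp 9 (.thr 49 13 (.thr 17 29 (.thr 19 28 (.thr 18 16 (.thr 2 62 (.thr 34 50 (.dbl 33 1 35))))))) (.rp 8 (.thr 49 13 (.thr 17 29 (.thr 33 1 (.thr 35 34 (.thr 19 28 (.thr 18 16 (.dbl 3 48 51))))))) (.rp 5 (.thr 49 13 (.thr 17 29 (.thr 19 28 (.thr 18 16 (.thr 2 62 (.thr 34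 50 (.dbl 33 1 35))))))) (.rp 1 (.thr 5 53 (.thr 8 59 (.thr 10 9 (.thr 2 62 (.thr 6 14 (.thr 4 7 (.dbl 38 54 55))))))) .nd))))))))))))))) (.rp 50 (.thr 17 29 (.thr 49 13 (.thr 33 1 (.thr 35 34 (.thr 19 28 (.thr 18 16 (.dbl 3 48 51))))))) (.rp 49 (.thr 17 29 (.thr 2 62 (.thr 19 28 (.thr 18 16 (.thr 34 50 (.thr 38 46 (.thr 35 33 (.dbl 51 3 12)))))))) (.rp 35 (.thr 53 5 (.thr 49 13 (.thr 61 57 (.thr 62 2 (.thr 59 8 (.thr 63 60 (.thr 48 58 (.dbl 51 50 55)))))))) (.rp 34 (.thr 53 5 (.thr 49 13 (.thr 61 57 (.thr 62 2 (.thr 59 8 (.thr 63 60 (.thr 48 58 (.dbl 51 50 55)))))))) (.rp 33 (.thr 53 5 (.thr 49 13 (.thr 61 57 (.thr 62 2 (.thr 59 8 (.thr 63 60 (.thr 48 58 (.dbl 51 50 55)))))))) (.rp 29 (.thr 53 5 (.thr 49 13 (.thr 61 57 (.thr 62 2 (.thr 59 8 (.thr 63 60 (.thr 48 58 (.dbl 51 50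 55)))))))) (.rp 28 (.thr 53 5 (.thr 49 13 (.thr 61 57 (.thr 62 2 (.thr 59 8 (.thr 63 60 (.thr 48 58 (.dbl 51 50 55)))))))) (.rp 19 (.thr 53 5 (.thr 49 13 (.thr 61 57 (.thr 62 2 (.thr 59 8 (.thr 63 60 (.thr 48 58 (.dbl 51 50 55)))))))) (.rp 18 (.thr 53 5 (.thr 49 13 (.thr 61 57 (.thr 62 2 (.thr 59 8 (.thr 63 60 (.thr 48 58 (.dbl 51 50 55)))))))) (.rp 17 (.thr 53 5 (.thr 49 13 (.thr 61 57 (.thr 62 2 (.thr 59 8 (.thr 63 60 (.thr 48 58 (.dbl 51 50 55)))))))) (.rp 16 (.thr 53 5 (.thr 49 13 (.thr 61 57 (.thr 62 2 (.thr 59 8 (.thr 63 60 (.thr 48 58 (.dbl 51 50 55)))))))) (.rp 13 (.thr 17 29 (.thr 2 62 (.thr 19 28 (.thr 18 16 (.thr 34 50 (.thr 38 46 (.thr 35 33 (.dbl 51 3 12)))))))) (.rp 11 (.str 56 (.nv (.thr 49 13 (.thr 53 5 (.thr 57 61 (.dbl 59 8 58)))) (.nv (.thr 8 59 (.thr 24 40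 (.dbl 28 16 19))) (.rp 59 (.thr 28 19 (.thr 24 16 (.thr 40 8 (.thr 36 44 (.thr 12 48 (.dbl 38 39 51)))))) (.rp 8 (.thr 53 5 (.thr 49 13 (.thr 57 61 (.thr 62 2 (.thr 58 59 (.thr 50 54 (.dbl 48 51 63))))))) .nd))))) (.rp 2 (.thr 17 29 (.thr 49 13 (.thr 19 28 (.thr 18 16 (.thr 33 1 (.thr 3 48 (.dbl 35 34 51))))))) (.rp 1 (.thr 17 29 (.thr 2 62 (.thr 19 28 (.thr 18 16 (.thr 34 50 (.thr 38 46 (.thr 35 33 (.dbl 51 3 12)))))))) .nd))))))))))))))))))))))) .nd))))))))))))))))) (.rp 38 .ext (.rp 36 (.thr 23 20 (.thr 5 53 (.thr 7 52 (.thr 4 6 (.dbl 55 38 39))))) (.rp 23 (.str 4 (.nv (.thr 52 7 (.thr 36 20 (.dbl 38 39 55))) (.nv (.thr 5 53 (.dbl 7 6 52)) (.rp 56 (.str 11 (.nv (.thr 52 7 (.thr 36 20 (.dbl 38 39 55))) (.nv (.thr 5 53 (.dbl 7 6 52)) (.rp 52 (.thr 5 53 (.thr 6 7 (.dbl 38 54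 55))) (.rp 7 (.str 2 (.nv (.thr 5 53 (.thr 38 55 (.thr 39 36 (.thr 42 62 (.thr 0 63 (.thr 10 15 (.dbl 6 14 54))))))) (.nv (.thr 38 55 (.thr 39 36 (.thr 42 62 (.thr 0 63 (.thr 12 8 (.thr 34 46 (.dbl 51 17 25))))))) (.nv (.thr 38 55 (.thr 39 36 (.thr 6 54 (.thr 10 14 (.thr 8 9 (.thr 0 12 (.dbl 5 15 53))))))) (.nv (.thr 5 53 (.thr 42 62 (.thr 0 63 (.thr 10 15 (.dbl 8 9 12))))) (.rp 55 (.str 39 (.nv (.thr 38 36 (.thr 6 54 (.thr 10 14 (.thr 8 9 (.thr 42 62 (.dbl 0 12 63)))))) (.nv (.thr 38 36 (.thr 6 54 (.thr 10 14 (.thr 8 9 (.thr 0 12 (.dbl 5 15 53)))))) (.nv (.thr 42 62 (.thr 47 32 (.thr 63 0 (.thr 15 31 (.thr 27 51 (.dbl 43 35 59)))))) (.rp 0 (.thr 38 36 (.thr 6 54 (.thr 10 14 (.thr 9 8 (.thr 12 3 (.thr 25 51 (.thr 13 49 (.dbl 5 1 53)))))))) .nd))))) (.rp 39 (.thr 55 38 (.thr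 5 53 (.thr 42 62 (.thr 0 63 (.thr 10 15 (.dbl 8 9 12)))))) (.rp 0 (.thr 38 55 (.thr 39 36 (.thr 6 54 (.thr 10 14 (.thr 9 8 (.thr 12 3 (.thr 25 51 (.thr 13 49 (.dbl 5 1 53))))))))) .nd)))))))) .nd))))) (.rp 52 (.thr 5 53 (.thr 6 7 (.dbl 38 54 55))) (.rp 11 (.str 56 (.nv (.thr 52 7 (.thr 36 20 (.dbl 38 39 55))) (.nv (.thr 5 53 (.dbl 7 6 52)) (.rp 52 (.thr 5 53 (.thr 6 7 (.dbl 38 54 55))) (.rp 7 (.thr 53 5 (.thr 55 38 (.thr 52 54 (.thr 36 20 (.thr 48 60 (.thr 12 24 (.thr 0 8 (.dbl 63 42 58)))))))) .nd))))) (.rp 7 (.thr 5 53 (.thr 38 55 (.thr 39 36 (.thr 54 6 (.str 0 (.nv (.thr 15 10 (.thr 42 63 (.thr 34 46 (.dbl 51 17 27)))) (.nv (.thr 12 8 (.thr 15 10 (.dbl 51 25 27))) (.nv (.thr 12 8 (.thr 25 51 (.thr 29 17 (.dbl 63 42 46)))) (.rp 56 (.str 11 (.nv (.thr 15 10 (.thr 42 63 (.thr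 51 27 (.dbl 34 17 46)))) (.nv (.thr 12 8 (.thr 25 51 (.thr 29 17 (.dbl 63 42 46)))) (.nv (.thr 10 15 (.dbl 8 9 12)) .nd)))) (.rp 51 (.thr 12 8 (.thr 63 42 (.thr 29 46 (.thr 25 17 (.thr 13 49 (.dbl 15 10 14)))))) (.rp 42 (.thr 12 8 (.thr 25 51 (.thr 13 49 (.dbl 15 10 14)))) (.rp 12 (.thr 15 10 (.thr 51 27 (.thr 34 17 (.dbl 42 46 63)))) (.rp 11 (.str 56 (.nv (.thr 15 10 (.thr 51 27 (.thr 34 17 (.dbl 42 46 63)))) (.nv (.thr 42 63 (.thr 34 46 (.thr 51 17 (.dbl 15 10 27)))) (.nv (.thr 42 63 (.thr 34 46 (.thr 51 17 (.dbl 12 8 25)))) (.nv (.thr 12 8 (.thr 51 25 (.dbl 15 10 27))) (.rp 59 (.thr 12 8 (.thr 51 25 (.thr 42 63 (.dbl 34 17 46)))) (.rp 51 (.thr 8 12 (.thr 42 63 (.thr 59 25 (.thr 62 2 (.dbl 58 50 57))))) (.rp 42 (.thr 12 8 (.thr 25 51 (.thr 13 49 (.dbl 15 10 14)))) (.rp 15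 (.str 3 (.nv (.thr 12 8 (.thr 25 51 (.thr 29 17 (.dbl 63 42 46)))) (.nv (.thr 1 2 (.thr 13 9 (.thr 25 49 (.dbl 12 8 51)))) (.nv (.thr 2 1 (.dbl 42 62 63)) .nd)))) .nd))))))))) .nd))))))))))))) .nd))))))) (.rp 20 (.str 55 (.nv (.thr 7 52 (.thr 39 23 (.dbl 38 4 36))) (.nv (.thr 53 5 (.dbl 52 7 54)) (.rp 56 (.str 11 (.nv (.thr 7 52 (.thr 39 23 (.dbl 38 4 36))) (.nv (.thr 53 5 (.dbl 52 7 54)) (.rp 52 (.thr 5 53 (.thr 4 38 (.thr 7 6 (.thr 39 23 (.thr 15 3 (.thr 51 27 (.thr 63 59 (.dbl 0 10 42)))))))) (.rp 7 (.thr 53 5 (.thr 54 52 (.dbl 38 4 6))) .nd))))) (.rp 52 (.thr 53 5 (.thr 38 4 (.thr 36 39 (.thr 6 54 (.str 63 (.nv (.thr 42 0 (.thr 46 34 (.thr 12 29 (.dbl 48 24 58)))) (.nv (.thr 48 58 (.thr 12 24 (.dbl 51 25 59))) (.nv (.thr 51 59 (.thr 25 12 (.thr 17 29 (.dbl 0 34 42)))) (.rp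 56 (.str 11 (.nv (.thr 48 58 (.thr 12 24 (.thr 46 29 (.dbl 42 0 34)))) (.nv (.thr 0 42 (.thr 51 59 (.thr 25 12 (.dbl 17 29 34)))) (.nv (.thr 42 0 (.thr 46 34 (.thr 12 29 (.dbl 48 24 58)))) (.nv (.thr 51 59 (.thr 12 25 (.dbl 48 24 58))) (.rp 58 (.thr 42 0 (.thr 46 34 (.thr 12 29 (.dbl 51 25 59)))) (.rp 48 (.str 60 (.nv (.thr 61 62 (.thr 49 57 (.thr 25 13 (.dbl 51 12 59)))) (.nv (.thr 0 42 (.thr 51 59 (.thr 17 34 (.dbl 25 12 29)))) (.nv (.thr 62 61 (.dbl 42 0 2)) .nd)))) (.rp 42 (.thr 51 59 (.thr 25 12 (.thr 49 13 (.dbl 48 50 58)))) (.rp 12 (.thr 59 51 (.thr 42 0 (.thr 8 25 (.thr 2 62 (.dbl 10 9 14))))) .nd))))))))) (.rp 51 (.thr 48 58 (.thr 12 24 (.thr 46 29 (.dbl 42 0 34)))) (.rp 42 (.thr 51 59 (.thr 25 12 (.thr 49 13 (.dbl 48 50 58)))) (.rp 12 (.thr 51 59 (.thr 0 42 (.thr 17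 34 (.thr 25 29 (.thr 49 13 (.dbl 48 50 58)))))) (.rp 11 (.str 56 (.nv (.thr 42 0 (.thr 48 58 (.thr 12 24 (.dbl 46 29 34)))) (.nv (.thr 42 0 (.thr 46 34 (.thr 12 29 (.dbl 51 25 59)))) (.nv (.thr 58 48 (.dbl 59 51 57)) .nd)))) .nd))))))))))))) (.rp 11 (.str 56 (.nv (.thr 7 52 (.thr 39 23 (.dbl 38 4 36))) (.nv (.thr 53 5 (.dbl 52 7 54)) (.rp 52 (.str 62 (.nv (.thr 4 38 (.thr 42 2 (.thr 53 5 (.thr 63 0 (.thr 58 48 (.thr 57 59 (.dbl 61 49 60))))))) (.nv (.thr 38 4 (.thr 36 39 (.thr 42 2 (.thr 46 34 (.thr 63 0 (.thr 12 29 (.dbl 51 25 59))))))) (.nv (.thr 38 4 (.thr 36 39 (.thr 54 6 (.thr 58 50 (.thr 59 57 (.thr 63 51 (.dbl 53 5 48))))))) (.nv (.thr 53 5 (.thr 42 2 (.thr 63 0 (.thr 58 48 (.dbl 59 51 57))))) (.rp 63 (.thr 38 4 (.thr 36 39 (.thr 54 6 (.thr 58 50 (.thr 57 59 (.thr 51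 60 (.thr 25 12 (.thr 49 13 (.dbl 53 5 61))))))))) (.rp 59 (.thr 53 5 (.thr 42 2 (.thr 63 0 (.thr 58 48 (.thr 54 50 (.dbl 38 4 6)))))) (.rp 4 (.str 36 (.nv (.thr 38 39 (.thr 42 2 (.thr 46 34 (.thr 63 0 (.thr 12 29 (.dbl 51 25 59)))))) (.nv (.thr 38 39 (.thr 54 6 (.thr 58 50 (.thr 59 57 (.thr 63 51 (.dbl 53 5 48)))))) (.nv (.thr 42 2 (.thr 0 63 (.thr 32 47 (.thr 48 16 (.thr 24 12 (.dbl 40 8 44)))))) (.rp 63 (.thr 38 39 (.thr 54 6 (.thr 58 50 (.thr 57 59 (.thr 51 60 (.thr 25 12 (.thr 49 13 (.dbl 53 5 61)))))))) .nd))))) .nd)))))))) (.rp 7 (.thr 53 5 (.thr 54 52 (.dbl 38 4 6))) .nd))))) (.rp 7 (.thr 53 5 (.thr 54 52 (.dbl 38 4 6))) .nd))))))) (.rp 11 .ext (.rp 7 (.str 42 (.nv (.thr 20 23 (.thr 32 47 (.thr 0 63 (.thr 40 60 (.thr 36 44 (.thr 4 52 (.dbl 38 39 55))))))) (.nv (.thr 53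 5 (.thr 63 0 (.thr 58 48 (.thr 62 2 (.thr 54 50 (.thr 55 52 (.dbl 38 4 6))))))) (.rp 63 (.thr 23 20 (.thr 47 32 (.str 25 (.nv (.thr 2 62 (.thr 8 59 (.thr 17 29 (.thr 49 13 (.thr 1 33 (.thr 0 3 (.thr 12 4 (.dbl 51 34 38)))))))) (.nv (.thr 59 8 (.thr 13 49 (.thr 29 17 (.thr 45 61 (.thr 62 2 (.thr 28 19 (.thr 30 31 (.dbl 46 14 44)))))))) (.nv (.thr 2 62 (.thr 5 53 (.thr 8 59 (.thr 13 49 (.thr 1 9 (.thr 0 3 (.thr 12 4 (.dbl 15 10 14)))))))) (.nv (.thr 28 19 (.thr 29 17 (.thr 30 31 (.thr 13 49 (.thr 45 61 (.thr 44 46 (.dbl 60 12 15))))))) (.rp 62 (.thr 29 17 (.thr 13 49 (.thr 28 19 (.thr 30 31 (.thr 45 61 (.thr 60 15 (.dbl 44 12 46))))))) (.rp 61 (.thr 29 17 (.thr 62 2 (.thr 28 19 (.thr 30 31 (.thr 46 14 (.thr 38 34 (.thr 44 45 (.dbl 12 51 60)))))))) (.rp 56 (.str 11 (.nv (.thr 5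 53 (.thr 8 59 (.thr 9 10 (.dbl 13 1 49)))) (.nv (.thr 59 8 (.thr 27 43 (.dbl 19 28 31))) (.rp 59 (.thr 5 53 (.thr 13 49 (.thr 9 1 (.thr 2 62 (.thr 10 8 (.thr 14 6 (.dbl 15 0 12))))))) (.rp 8 (.thr 19 28 (.thr 27 31 (.thr 43 59 (.thr 39 35 (.thr 51 15 (.dbl 38 12 36)))))) .nd))))) (.rp 49 (.thr 29 17 (.thr 62 2 (.thr 28 19 (.thr 30 31 (.thr 46 14 (.thr 38 34 (.thr 44 45 (.dbl 12 51 60)))))))) (.rp 13 (.thr 29 17 (.thr 62 2 (.thr 28 19 (.thr 30 31 (.thr 46 14 (.thr 38 34 (.thr 44 45 (.dbl 12 51 60)))))))) (.rp 11 (.str 56 (.nv (.thr 49 13 (.thr 59 8 (.thr 57 58 (.dbl 53 5 61)))) (.rp 61 (.thr 53 5 (.thr 59 8 (.thr 58 57 (.thr 62 2 (.thr 54 50 (.thr 55 52 (.dbl 38 4 6))))))) (.rp 59 (.thr 13 49 (.thr 29 17 (.thr 45 61 (.thr 44 46 (.thr 28 19 (.thr 30 31 (.dbl 60 12 15))))))) (.rp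 58 (.thr 13 49 (.thr 29 17 (.thr 45 61 (.thr 44 46 (.thr 28 19 (.thr 30 31 (.dbl 60 12 15))))))) (.rp 57 (.thr 13 49 (.thr 29 17 (.thr 28 19 (.thr 30 31 (.thr 62 2 (.thr 46 14 (.dbl 45 44 61))))))) (.rp 53 (.thr 13 49 (.thr 29 17 (.thr 28 19 (.thr 30 31 (.thr 62 2 (.thr 46 14 (.dbl 45 44 61))))))) (.rp 49 (.thr 53 5 (.thr 59 8 (.thr 58 57 (.thr 62 2 (.thr 54 50 (.thr 55 52 (.dbl 38 4 6))))))) (.rp 15 (.str 3 (.nv (.thr 2 62 (.thr 0 1 (.thr 19 28 (.thr 51 35 (.dbl 17 29 34))))) (.nv (.thr 59 8 (.thr 49 13 (.thr 57 58 (.dbl 53 5 61)))) (.rp 61 (.thr 17 29 (.thr 19 28 (.thr 51 35 (.thr 34 0 (.dbl 38 12 46))))) .nd)))) (.rp 13 (.thr 53 5 (.thr 59 8 (.thr 58 57 (.thr 62 2 (.thr 54 50 (.thr 55 52 (.dbl 38 4 6))))))) (.rp 10 (.thr 53 5 (.thr 49 13 (.thr 57 61 (.dbl 59 8 58)))) (.rp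 9 (.thr 13 49 (.thr 29 17 (.thr 45 61 (.thr 44 46 (.thr 28 19 (.thr 30 31 (.dbl 60 12 15))))))) (.rp 8 (.thr 13 49 (.thr 29 17 (.thr 45 61 (.thr 44 46 (.thr 28 19 (.thr 30 31 (.dbl 60 12 15))))))) (.rp 5 (.thr 13 49 (.thr 29 17 (.thr 45 61 (.thr 44 46 (.thr 28 19 (.thr 30 31 (.dbl 60 12 15))))))) (.rp 3 (.str 15 (.nv (.thr 13 49 (.thr 12 14 (.thr 19 28 (.thr 27 31 (.dbl 51 38 39))))) (.nv (.thr 49 13 (.thr 59 8 (.thr 57 58 (.dbl 53 5 61)))) (.rp 49 (.thr 5 53 (.thr 8 59 (.thr 17 29 (.thr 0 10 (.thr 12 4 (.dbl 51 34 38)))))) (.rp 13 (.thr 5 53 (.thr 8 59 (.thr 17 29 (.thr 0 10 (.thr 12 4 (.dbl 51 34 38)))))) .nd))))) .nd))))))))))))))) (.rp 1 (.thr 29 17 (.thr 62 2 (.thr 28 19 (.thr 30 31 (.thr 46 14 (.thr 45 44 (.dbl 13 49 61))))))) .nd)))))))))))))) (.rp 62 (.thr 23 20 (.thr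 63 0 (.thr 3 43 (.thr 47 32 (.thr 31 15 (.thr 19 27 (.thr 51 35 (.thr 59 55 (.dbl 25 8 28))))))))) (.rp 60 (.thr 20 23 (.thr 0 63 (.thr 32 47 (.thr 16 48 (.thr 28 24 (.thr 25 19 (.thr 8 59 (.thr 17 29 (.thr 51 34 (.dbl 12 4 38)))))))))) (.rp 56 (.str 11 (.nv (.thr 23 20 (.thr 63 0 (.thr 43 3 (.thr 27 59 (.thr 31 19 (.dbl 47 15 32)))))) (.nv (.thr 0 63 (.thr 2 62 (.thr 5 53 (.thr 10 15 (.thr 6 14 (.thr 8 9 (.thr 38 54 (.dbl 4 12 55)))))))) (.nv (.thr 23 20 (.thr 47 32 (.thr 63 0 (.thr 31 15 (.thr 27 19 (.dbl 43 3 59)))))) (.nv (.thr 2 62 (.thr 0 63 (.thr 1 3 (.thr 5 53 (.thr 9 13 (.dbl 10 8 15)))))) (.rp 63 (.str 13 (.nv (.thr 2 62 (.thr 5 53 (.thr 9 1 (.thr 10 8 (.thr 14 6 (.dbl 15 0 12)))))) (.nv (.thr 23 20 (.thr 25 49 (.thr 19 28 (.thr 27 31 (.dbl 59 8 43))))) (.nv (.thr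 5 53 (.thr 9 1 (.thr 8 10 (.dbl 25 49 59)))) (.rp 8 (.thr 20 23 (.thr 5 53 (.thr 2 62 (.thr 9 1 (.thr 32 47 (.thr 25 49 (.thr 17 29 (.thr 19 28 (.thr 18 16 (.thr 34 50 (.thr 33 35 (.thr 51 0 (.dbl 38 12 46))))))))))))) .nd))))) (.rp 60 (.thr 5 53 (.thr 0 63 (.thr 10 15 (.thr 9 8 (.thr 1 13 (.dbl 2 3 62)))))) (.rp 15 (.thr 23 20 (.thr 63 0 (.thr 43 3 (.thr 59 27 (.thr 25 8 (.thr 51 55 (.thr 29 17 (.dbl 12 38 46)))))))) (.rp 0 (.str 19 (.nv (.thr 5 53 (.thr 25 28 (.thr 8 59 (.thr 9 10 (.dbl 13 1 49))))) (.nv (.thr 23 20 (.thr 27 31 (.thr 59 43 (.dbl 25 8 28)))) (.rp 59 (.thr 53 5 (.thr 23 20 (.thr 47 32 (.thr 27 31 (.thr 62 2 (.thr 25 28 (.thr 29 17 (.thr 13 49 (.thr 45 61 (.thr 46 44 (.thr 30 14 (.thr 12 63 (.dbl 38 34 51))))))))))))) (.rp 28 (.thr 23 20 (.thr 47 32 (.thr 27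 31 (.thr 43 59 (.thr 3 63 (.dbl 35 39 51)))))) (.rp 25 (.thr 23 20 (.thr 47 32 (.thr 27 31 (.thr 43 59 (.thr 3 63 (.dbl 35 39 51)))))) (.rp 8 (.thr 23 20 (.thr 47 32 (.thr 27 31 (.thr 43 59 (.thr 3 63 (.dbl 35 39 51)))))) .nd))))))) .nd))))))))) (.rp 55 (.thr 5 53 (.thr 0 63 (.thr 15 10 (.thr 2 62 (.thr 1 3 (.thr 13 9 (.thr 25 49 (.thr 12 14 (.dbl 8 4 59))))))))) (.rp 52 (.thr 53 5 (.thr 63 0 (.thr 48 58 (.thr 62 2 (.thr 61 60 (.thr 49 57 (.thr 51 50 (.thr 59 55 (.dbl 25 8 13))))))))) (.rp 48 (.thr 53 5 (.thr 63 0 (.thr 62 2 (.thr 61 60 (.thr 49 57 (.thr 25 13 (.thr 59 8 (.thr 51 55 (.thr 29 17 (.dbl 12 38 46)))))))))) (.rp 38 (.thr 53 5 (.thr 63 0 (.thr 48 58 (.thr 62 2 (.thr 61 60 (.thr 49 57 (.thr 25 13 (.thr 59 8 (.dbl 51 50 55))))))))) (.rp 32 (.thr 53 5 (.thr 63 0 (.thr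 48 58 (.thr 62 2 (.thr 61 60 (.thr 49 57 (.thr 51 50 (.thr 59 55 (.dbl 25 8 13))))))))) (.rp 15 (.thr 47 32 (.thr 5 53 (.thr 23 20 (.thr 2 62 (.str 3 (.nv (.dbl 63 0 43) (.rp 63 (.thr 1 0 (.thr 13 9 (.thr 25 49 (.thr 59 8 (.thr 19 28 (.thr 35 51 (.thr 27 31 (.dbl 43 11 39)))))))) (.rp 56 (.str 11 (.nv (.dbl 63 0 43) (.rp 63 (.thr 1 0 (.thr 9 13 (.thr 10 8 (.dbl 6 12 14)))) (.rp 43 (.dbl 0 1 63) (.rp 0 (.thr 43 63 (.thr 27 59 (.thr 19 31 (.dbl 35 39 51)))) .nd))))) (.rp 43 (.dbl 0 1 63) (.rp 11 (.str 56 (.nv (.dbl 0 1 63) (.rp 63 (.thr 1 0 (.thr 13 9 (.thr 25 49 (.thr 19 28 (.thr 35 51 (.thr 39 43 (.thr 38 36 (.thr 34 46 (.thr 18 50 (.thr 48 33 (.dbl 17 16 29))))))))))) (.rp 1 (.dbl 63 0 43) (.rp 0 (.thr 43 63 (.thr 39 35 (.thr 38 36 (.thr 6 54 (.thr 34 46 (.thr 12 9 (.thr 25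 51 (.thr 17 29 (.thr 19 28 (.dbl 18 16 50)))))))))) .nd))))) (.rp 0 (.thr 43 63 (.thr 35 39 (.thr 19 51 (.thr 27 31 (.thr 25 28 (.dbl 59 8 11)))))) .nd))))))))))) (.rp 11 (.str 56 (.nv (.thr 53 5 (.thr 62 2 (.thr 63 0 (.thr 48 58 (.dbl 60 52 61))))) (.nv (.thr 32 47 (.thr 0 63 (.thr 48 16 (.thr 60 52 (.dbl 20 23 40))))) (.rp 63 (.str 28 (.nv (.thr 25 19 (.thr 49 13 (.thr 53 5 (.thr 57 61 (.dbl 59 8 58))))) (.nv (.thr 20 23 (.thr 24 16 (.thr 8 40 (.dbl 25 19 59)))) (.rp 59 (.thr 20 23 (.thr 32 47 (.thr 24 16 (.thr 40 8 (.thr 60 0 (.dbl 44 12 36)))))) (.rp 25 (.thr 20 23 (.thr 32 47 (.thr 24 16 (.thr 40 8 (.thr 60 0 (.dbl 44 12 36)))))) (.rp 19 (.thr 20 23 (.thr 32 47 (.thr 24 16 (.thr 40 8 (.thr 60 0 (.dbl 44 12 36)))))) (.rp 15 (.str 3 (.nv (.thr 2 62 (.thr 0 1 (.thr 20 23 (.thr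 24 16 (.dbl 40 8 60))))) (.nv (.thr 2 62 (.thr 1 0 (.thr 5 53 (.thr 25 19 (.dbl 13 9 49))))) (.nv (.thr 20 23 (.thr 24 16 (.thr 8 40 (.dbl 25 19 59)))) (.rp 47 (.str 31 (.nv (.thr 25 19 (.dbl 29 17 30)) (.nv (.thr 23 20 (.dbl 19 25 27)) (.rp 25 (.thr 20 23 (.thr 24 16 (.thr 2 62 (.thr 0 1 (.dbl 40 8 60))))) (.rp 19 (.thr 20 23 (.thr 29 30 (.thr 25 17 (.thr 8 59 (.dbl 24 16 40))))) .nd))))) (.rp 31 (.thr 47 32 (.thr 20 23 (.thr 24 16 (.thr 8 40 (.dbl 25 19 59))))) .nd)))))) (.rp 8 (.thr 53 5 (.thr 20 23 (.thr 32 47 (.thr 16 24 (.thr 48 0 (.thr 52 60 (.thr 4 36 (.dbl 55 38 54)))))))) (.rp 3 (.str 15 (.nv (.thr 5 53 (.thr 0 10 (.thr 32 47 (.thr 48 16 (.thr 60 52 (.dbl 20 23 40)))))) (.nv (.thr 2 62 (.thr 5 53 (.thr 10 0 (.thr 14 6 (.thr 25 19 (.dbl 13 12 49)))))) (.nv (.thr 25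 19 (.thr 8 59 (.thr 24 40 (.dbl 20 16 23)))) (.rp 43 (.thr 23 20 (.thr 53 5 (.thr 25 19 (.thr 59 8 (.thr 57 58 (.dbl 49 13 61)))))) (.rp 23 (.str 43 (.nv (.thr 2 62 (.thr 5 53 (.thr 10 0 (.thr 6 14 (.thr 38 54 (.thr 39 36 (.dbl 47 32 35))))))) (.nv (.thr 2 62 (.thr 5 53 (.thr 10 0 (.thr 14 6 (.thr 13 12 (.thr 9 1 (.dbl 25 19 49))))))) (.nv (.thr 47 32 (.thr 39 35 (.thr 38 36 (.thr 25 19 (.dbl 51 12 27))))) (.rp 55 (.str 39 (.nv (.thr 51 27 (.thr 38 36 (.dbl 25 12 19))) (.nv (.dbl 47 32 35) (.rp 51 (.str 59 (.nv (.dbl 47 32 35) (.nv (.dbl 25 8 19) (.rp 35 (.thr 19 25 (.thr 38 36 (.thr 54 6 (.thr 62 2 (.dbl 58 50 57))))) (.rp 19 (.thr 35 47 (.thr 38 36 (.thr 54 6 (.thr 58 57 (.dbl 62 2 50))))) .nd))))) .nd)))) (.rp 39 (.str 55 (.nv (.thr 25 19 (.thr 13 49 (.thr 29 17 (.thr 45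 61 (.dbl 30 31 60))))) (.nv (.thr 53 5 (.thr 54 52 (.dbl 38 4 6))) (.rp 53 (.thr 38 4 (.thr 25 19 (.thr 13 49 (.dbl 12 14 51)))) .nd)))) .nd)))))) .nd)))))) .nd))))))))) (.rp 60 (.thr 53 5 (.thr 63 0 (.thr 58 48 (.thr 59 57 (.thr 55 51 (.thr 54 52 (.dbl 38 4 6))))))) (.rp 52 (.thr 20 23 (.thr 0 63 (.thr 40 60 (.thr 24 8 (.thr 32 47 (.dbl 16 28 48)))))) (.rp 48 (.thr 20 23 (.thr 0 63 (.thr 40 60 (.thr 8 24 (.thr 32 47 (.thr 36 44 (.dbl 4 12 52))))))) (.rp 15 (.str 3 (.nv (.thr 0 63 (.dbl 2 1 62)) (.nv (.thr 23 20 (.dbl 63 0 43)) (.rp 63 (.thr 20 23 (.thr 2 62 (.thr 0 1 (.thr 60 40 (.thr 48 52 (.dbl 32 16 47)))))) (.rp 0 (.thr 23 20 (.thr 63 43 (.thr 62 2 (.thr 60 61 (.thr 48 52 (.dbl 53 5 58)))))) .nd))))) (.rp 3 (.str 15 (.nv (.thr 47 32 (.dbl 63 0 31)) (.nv (.thr 5 53 (.dbl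 0 10 63)) (.rp 63 (.thr 5 53 (.thr 0 10 (.thr 32 47 (.thr 48 16 (.thr 60 52 (.dbl 20 23 40)))))) (.rp 0 (.thr 53 5 (.thr 47 32 (.thr 63 31 (.thr 48 58 (.thr 60 52 (.dbl 62 2 61)))))) .nd))))) (.rp 0 (.str 49 (.nv (.thr 20 23 (.thr 25 13 (.thr 8 59 (.thr 24 40 (.dbl 28 16 19))))) (.nv (.thr 53 5 (.thr 57 61 (.thr 59 58 (.dbl 25 8 13)))) (.rp 59 (.thr 20 23 (.thr 53 5 (.thr 62 2 (.thr 61 57 (.thr 60 63 (.thr 52 48 (.thr 55 54 (.dbl 4 36 38)))))))) (.rp 25 (.thr 53 5 (.thr 62 2 (.thr 57 61 (.thr 58 59 (.thr 48 63 (.dbl 50 51 54)))))) (.rp 15 (.str 3 (.nv (.thr 23 20 (.thr 62 2 (.thr 63 43 (.thr 60 61 (.thr 48 52 (.dbl 53 5 58)))))) (.nv (.thr 23 20 (.thr 25 13 (.thr 19 28 (.thr 35 51 (.thr 47 32 (.dbl 43 39 63)))))) (.nv (.thr 25 13 (.thr 59 8 (.thr 57 58 (.dbl 53 5 61)))) (.rp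 10 (.thr 5 53 (.thr 20 23 (.thr 25 13 (.thr 8 59 (.thr 24 40 (.dbl 28 16 19)))))) (.rp 5 (.str 10 (.nv (.thr 2 62 (.thr 6 14 (.thr 23 20 (.thr 38 54 (.thr 39 36 (.thr 43 63 (.dbl 47 32 35))))))) (.nv (.thr 20 23 (.thr 25 13 (.thr 28 19 (.thr 24 16 (.dbl 8 40 59))))) (.nv (.thr 2 62 (.thr 6 14 (.thr 38 54 (.thr 25 13 (.dbl 12 9 51))))) (.rp 14 (.thr 23 20 (.thr 43 63 (.thr 47 32 (.thr 35 39 (.thr 19 51 (.thr 27 31 (.dbl 25 13 28))))))) (.rp 13 (.thr 23 20 (.thr 43 63 (.thr 47 32 (.thr 39 35 (.thr 38 36 (.thr 6 54 (.dbl 2 14 62))))))) (.rp 12 (.thr 23 20 (.thr 43 63 (.thr 47 32 (.thr 35 39 (.thr 19 51 (.thr 27 31 (.dbl 25 13 28))))))) (.rp 6 (.str 4 (.nv (.thr 25 13 (.thr 17 29 (.thr 19 28 (.thr 18 16 (.dbl 33 1 48))))) (.nv (.thr 20 23 (.thr 36 52 (.dbl 38 39 55))) (.rp 20 (.thr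 38 55 (.thr 25 13 (.thr 19 28 (.dbl 51 12 35)))) .nd)))) (.rp 4 (.str 6 (.nv (.thr 12 9 (.thr 38 54 (.dbl 25 13 51))) (.nv (.dbl 2 14 62) (.rp 12 (.str 8 (.nv (.dbl 2 14 62) (.nv (.dbl 25 13 59) (.rp 14 (.thr 13 25 (.thr 38 54 (.thr 36 39 (.thr 32 47 (.dbl 40 24 44))))) (.rp 13 (.thr 14 2 (.thr 38 54 (.thr 36 39 (.thr 40 24 (.dbl 32 44 47))))) .nd))))) .nd)))) .nd))))))))) .nd)))))) (.rp 13 (.thr 53 5 (.thr 62 2 (.thr 57 61 (.thr 58 59 (.thr 48 63 (.dbl 50 51 54)))))) (.rp 8 (.thr 53 5 (.thr 62 2 (.thr 57 61 (.thr 58 59 (.thr 48 63 (.dbl 50 51 54)))))) (.rp 3 (.str 15 (.nv (.thr 47 32 (.thr 53 5 (.thr 57 61 (.thr 58 59 (.dbl 63 31 48))))) (.nv (.thr 2 62 (.thr 23 20 (.thr 25 13 (.thr 19 28 (.thr 47 32 (.dbl 31 27 63)))))) (.nv (.thr 53 5 (.thr 57 61 (.thr 59 58 (.dbl 25 8 13))))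 (.rp 2 (.str 1 (.nv (.thr 17 33 (.dbl 25 13 29)) (.nv (.thr 5 53 (.dbl 13 9 25)) (.rp 25 (.thr 53 5 (.thr 57 61 (.thr 47 32 (.thr 63 31 (.dbl 58 48 59))))) (.rp 13 (.thr 53 5 (.thr 17 33 (.thr 25 29 (.thr 59 8 (.dbl 57 58 61))))) .nd))))) .nd))))) .nd))))))))) .nd)))))))))) (.rp 4 (.thr 23 20 (.thr 63 0 (.thr 3 43 (.thr 47 32 (.thr 31 15 (.thr 19 27 (.thr 51 35 (.thr 59 55 (.dbl 25 8 28))))))))) (.rp 3 (.thr 2 62 (.thr 23 20 (.thr 5 53 (.thr 47 32 (.str 15 (.nv (.dbl 0 10 63) (.rp 63 (.thr 10 0 (.thr 14 6 (.thr 13 12 (.thr 9 1 (.thr 25 49 (.dbl 8 11 59)))))) (.rp 56 (.str 11 (.nv (.dbl 0 10 63) (.rp 63 (.thr 10 0 (.thr 9 8 (.thr 13 1 (.dbl 14 6 12)))) (.rp 10 (.dbl 63 0 31) (.rp 0 (.thr 31 63 (.thr 27 19 (.thr 43 59 (.dbl 39 35 51)))) .nd))))) (.rp 11 (.str 56 (.nv (.dbl 63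 0 31) (.rp 63 (.thr 10 0 (.thr 6 14 (.thr 38 54 (.thr 39 36 (.thr 46 34 (.thr 51 27 (.thr 25 12 (.thr 29 17 (.thr 13 49 (.dbl 45 44 61)))))))))) (.rp 31 (.dbl 0 10 63) (.rp 0 (.thr 31 63 (.thr 19 27 (.thr 25 28 (.thr 13 49 (.thr 14 12 (.thr 6 10 (.thr 38 54 (.thr 46 34 (.thr 45 44 (.thr 60 30 (.dbl 29 17 61))))))))))) .nd))))) (.rp 10 (.dbl 63 0 31) (.rp 0 (.thr 31 63 (.thr 19 27 (.thr 25 28 (.thr 8 59 (.thr 13 49 (.thr 14 12 (.thr 9 1 (.dbl 10 6 11)))))))) .nd))))))))))) (.rp 0 (.thr 5 53 (.thr 2 62 (.str 25 (.nv (.thr 8 59 (.thr 17 29 (.thr 19 28 (.thr 32 47 (.thr 49 13 (.thr 33 1 (.thr 34 35 (.dbl 18 16 50)))))))) (.nv (.thr 8 59 (.thr 17 29 (.thr 19 28 (.thr 18 16 (.thr 32 47 (.thr 34 50 (.thr 33 35 (.dbl 49 1 13)))))))) (.nv (.thr 8 59 (.thr 17 29 (.thr 19 28 (.thr 49 13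 (.thr 33 1 (.thr 18 16 (.thr 48 3 (.dbl 50 34 51)))))))) (.nv (.thr 19 28 (.thr 17 29 (.thr 18 16 (.thr 32 47 (.thr 49 13 (.thr 33 1 (.dbl 34 35 50))))))) (.rp 56 (.str 11 (.nv (.thr 19 28 (.thr 23 20 (.thr 27 31 (.dbl 59 8 43)))) (.nv (.thr 8 59 (.thr 9 10 (.dbl 13 1 49))) (.rp 59 (.thr 13 49 (.thr 9 1 (.thr 10 8 (.thr 6 14 (.thr 12 3 (.dbl 38 51 54)))))) (.rp 8 (.thr 23 20 (.thr 19 28 (.thr 27 31 (.thr 47 32 (.thr 43 59 (.thr 35 39 (.dbl 3 51 63))))))) .nd))))) (.rp 50 (.thr 23 20 (.thr 19 28 (.thr 31 27 (.thr 47 32 (.thr 59 8 (.thr 63 15 (.thr 3 43 (.dbl 51 35 55)))))))) (.rp 49 (.thr 23 20 (.thr 19 28 (.thr 31 27 (.thr 47 32 (.thr 59 8 (.thr 63 15 (.thr 3 43 (.dbl 51 35 55)))))))) (.rp 34 (.thr 23 20 (.thr 19 28 (.thr 31 27 (.thr 47 32 (.thr 59 8 (.thr 63 15 (.thr 3 43 (.dbl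 51 35 55)))))))) (.rp 33 (.thr 23 20 (.thr 19 28 (.thr 31 27 (.thr 47 32 (.thr 59 8 (.thr 63 15 (.thr 3 43 (.dbl 51 35 55)))))))) (.rp 31 (.thr 17 29 (.thr 32 47 (.thr 49 13 (.thr 33 1 (.thr 34 35 (.thr 18 50 (.dbl 19 16 28))))))) (.rp 30 (.thr 17 29 (.thr 32 47 (.thr 49 13 (.thr 33 1 (.thr 34 35 (.thr 18 50 (.dbl 19 16 28))))))) (.rp 29 (.thr 23 20 (.thr 19 28 (.thr 31 27 (.thr 47 32 (.thr 59 8 (.thr 63 15 (.thr 3 43 (.dbl 51 35 55)))))))) (.rp 28 (.thr 17 29 (.thr 32 47 (.thr 49 13 (.thr 33 1 (.thr 34 35 (.thr 38 46 (.thr 50 18 (.dbl 51 12 48)))))))) (.rp 19 (.thr 17 29 (.thr 32 47 (.thr 49 13 (.thr 33 1 (.thr 34 35 (.thr 38 46 (.thr 50 18 (.dbl 51 12 48)))))))) (.rp 18 (.thr 23 20 (.thr 19 28 (.thr 31 27 (.thr 47 32 (.thr 59 8 (.thr 63 15 (.thr 3 43 (.dbl 51 35 55))))))))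 (.rp 17 (.thr 23 20 (.thr 19 28 (.thr 31 27 (.thr 47 32 (.thr 59 8 (.thr 63 15 (.thr 3 43 (.dbl 51 35 55)))))))) (.rp 16 (.thr 17 29 (.thr 32 47 (.thr 49 13 (.thr 33 1 (.thr 34 35 (.thr 38 46 (.thr 50 18 (.dbl 51 12 48)))))))) (.rp 13 (.thr 23 20 (.thr 19 28 (.thr 31 27 (.thr 47 32 (.thr 59 8 (.thr 63 15 (.thr 3 43 (.dbl 51 35 55)))))))) (.rp 11 (.str 56 (.nv (.thr 8 59 (.thr 28 19 (.thr 24 40 (.dbl 20 16 23)))) (.rp 59 (.thr 19 28 (.thr 17 29 (.thr 18 16 (.thr 50 34 (.thr 49 13 (.thr 33 1 (.dbl 48 3 51))))))) (.rp 43 (.thr 20 23 (.thr 28 19 (.thr 24 16 (.dbl 8 40 59)))) (.rp 40 (.thr 19 28 (.thr 17 29 (.thr 18 16 (.thr 50 34 (.thr 49 13 (.thr 33 1 (.dbl 48 3 51))))))) (.rp 28 (.thr 20 23 (.thr 8 59 (.thr 40 24 (.thr 32 47 (.thr 36 44 (.thr 4 52 (.dbl 38 39 55))))))) (.rp 27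 (.thr 19 28 (.thr 17 29 (.thr 18 16 (.thr 50 34 (.thr 49 13 (.thr 33 1 (.dbl 48 3 51))))))) (.rp 24 (.thr 19 28 (.thr 17 29 (.thr 49 13 (.thr 33 1 (.thr 32 47 (.thr 34 35 (.dbl 18 16 50))))))) (.rp 23 (.thr 19 28 (.thr 17 29 (.thr 18 16 (.thr 50 34 (.thr 49 13 (.thr 33 1 (.dbl 48 3 51))))))) (.rp 20 (.thr 19 28 (.thr 17 29 (.thr 49 13 (.thr 33 1 (.thr 32 47 (.thr 34 35 (.dbl 18 16 50))))))) (.rp 19 (.thr 20 23 (.thr 8 59 (.thr 40 24 (.thr 32 47 (.thr 36 44 (.thr 4 52 (.dbl 38 39 55))))))) (.rp 16 (.thr 20 23 (.thr 8 59 (.thr 40 24 (.thr 32 47 (.thr 36 44 (.thr 4 52 (.dbl 38 39 55))))))) (.rp 15 (.str 3 (.nv (.thr 13 49 (.thr 9 1 (.thr 12 6 (.thr 19 28 (.dbl 51 35 38))))) (.nv (.thr 8 59 (.thr 28 19 (.thr 24 40 (.dbl 20 16 23)))) (.rp 28 (.thr 23 20 (.thr 59 8 (.thr 29 17 (.thr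 63 43 (.thr 51 55 (.dbl 12 38 46)))))) (.rp 19 (.thr 23 20 (.thr 59 8 (.thr 29 17 (.thr 63 43 (.thr 51 55 (.dbl 12 38 46)))))) .nd))))) (.rp 8 (.thr 19 28 (.thr 17 29 (.thr 18 16 (.thr 50 34 (.thr 49 13 (.thr 33 1 (.dbl 48 3 51))))))) (.rp 3 (.str 15 (.nv (.thr 13 49 (.thr 12 14 (.thr 47 32 (.thr 63 31 (.dbl 29 17 46))))) (.nv (.thr 8 59 (.thr 28 19 (.thr 24 40 (.dbl 20 16 23)))) (.rp 16 (.thr 29 17 (.thr 13 49 (.thr 12 14 (.thr 46 63 (.dbl 38 34 51))))) .nd)))) .nd))))))))))))))) (.rp 1 (.thr 23 20 (.thr 19 28 (.thr 31 27 (.thr 47 32 (.thr 59 8 (.thr 63 15 (.thr 3 43 (.dbl 51 35 55)))))))) .nd))))))))))))))))))))))) .nd))))))))))))))))) (.rp 6 (.thr 20 23 (.thr 53 5 (.thr 52 7 (.thr 4 36 (.dbl 55 38 54))))) (.rp 5 (.str 55 (.nv (.thr 52 7 (.thr 54 53 (.dbl 38 4 6))) (.nv (.thr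 23 20 (.dbl 7 39 52)) (.rp 56 (.str 11 (.nv (.thr 52 7 (.thr 54 53 (.dbl 38 4 6))) (.nv (.thr 23 20 (.dbl 7 39 52)) (.rp 52 (.thr 23 20 (.thr 39 7 (.dbl 38 4 36))) (.rp 7 (.str 47 (.nv (.thr 4 38 (.thr 23 20 (.thr 42 32 (.thr 63 0 (.thr 43 3 (.thr 27 59 (.dbl 31 15 19))))))) (.nv (.thr 38 4 (.thr 6 54 (.thr 42 32 (.thr 46 34 (.thr 63 0 (.thr 12 29 (.dbl 51 25 59))))))) (.nv (.thr 38 4 (.thr 6 54 (.thr 39 36 (.thr 43 35 (.thr 59 27 (.thr 63 51 (.dbl 23 3 20))))))) (.nv (.thr 23 20 (.thr 42 32 (.thr 63 0 (.thr 43 3 (.dbl 59 27 51))))) (.rp 63 (.thr 38 4 (.thr 6 54 (.thr 39 36 (.thr 43 35 (.thr 27 59 (.thr 51 15 (.thr 25 12 (.thr 19 28 (.dbl 23 20 31))))))))) (.rp 59 (.thr 23 20 (.thr 42 32 (.thr 63 0 (.thr 43 3 (.thr 39 35 (.dbl 38 4 36)))))) (.rp 4 (.str 6 (.nv (.thr 38 54 (.thr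 39 36 (.thr 42 32 (.thr 43 35 (.thr 59 27 (.dbl 63 0 51)))))) (.nv (.thr 38 54 (.thr 39 36 (.thr 43 35 (.thr 59 27 (.thr 63 51 (.dbl 23 3 20)))))) (.nv (.thr 42 32 (.thr 0 63 (.thr 2 62 (.thr 3 1 (.thr 9 12 (.dbl 10 8 14)))))) (.rp 63 (.thr 38 54 (.thr 39 36 (.thr 43 35 (.thr 27 59 (.thr 51 15 (.thr 25 12 (.thr 19 28 (.dbl 23 20 31)))))))) .nd))))) .nd)))))))) .nd))))) (.rp 52 (.thr 23 20 (.thr 39 7 (.dbl 38 4 36))) (.rp 11 (.str 56 (.nv (.thr 52 7 (.thr 54 53 (.dbl 38 4 6))) (.nv (.thr 23 20 (.dbl 7 39 52)) (.rp 52 (.thr 23 20 (.thr 39 7 (.dbl 38 4 36))) (.rp 7 (.thr 20 23 (.thr 4 38 (.thr 52 36 (.thr 54 53 (.thr 60 48 (.thr 51 57 (.thr 63 59 (.dbl 0 40 42)))))))) .nd))))) (.rp 7 (.thr 23 20 (.thr 38 4 (.thr 6 54 (.thr 36 39 (.str 63 (.nv (.thr 3 43 (.thr 12 9 (.thr 42 0 (.dbl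 46 29 34)))) (.nv (.thr 3 43 (.thr 12 9 (.dbl 51 25 59))) (.nv (.thr 51 59 (.thr 25 12 (.thr 17 29 (.dbl 0 34 42)))) (.rp 56 (.str 11 (.nv (.thr 42 0 (.thr 46 34 (.thr 12 29 (.dbl 51 25 59)))) (.nv (.thr 3 43 (.thr 12 9 (.thr 42 0 (.dbl 46 29 34)))) (.nv (.thr 43 3 (.dbl 59 27 51)) .nd)))) (.rp 42 (.thr 51 59 (.thr 25 12 (.thr 19 28 (.dbl 3 35 43)))) (.rp 25 (.thr 3 43 (.thr 42 0 (.thr 46 34 (.dbl 12 9 29)))) (.rp 12 (.thr 51 59 (.thr 0 42 (.thr 17 34 (.thr 25 29 (.thr 19 28 (.dbl 3 35 43)))))) (.rp 11 (.str 56 (.nv (.thr 3 43 (.thr 12 9 (.thr 46 29 (.dbl 42 0 34)))) (.nv (.thr 0 42 (.thr 51 59 (.thr 25 12 (.dbl 17 29 34)))) (.nv (.thr 42 0 (.thr 46 34 (.thr 12 29 (.dbl 3 9 43)))) (.nv (.thr 51 59 (.thr 12 25 (.dbl 3 9 43))) (.rp 43 (.thr 42 0 (.thr 46 34 (.thr 12 29 (.dbl 51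 25 59)))) (.rp 42 (.thr 51 59 (.thr 25 12 (.thr 19 28 (.dbl 3 35 43)))) (.rp 12 (.thr 59 51 (.thr 42 0 (.thr 8 25 (.thr 32 47 (.dbl 40 24 44))))) (.rp 3 (.str 15 (.nv (.thr 31 47 (.thr 19 27 (.thr 25 28 (.dbl 51 12 59)))) (.nv (.thr 0 42 (.thr 51 59 (.thr 17 34 (.dbl 25 12 29)))) (.nv (.thr 47 31 (.dbl 42 0 32)) .nd)))) .nd))))))))) .nd))))))))))))) .nd))))))) (.rp 4 (.str 42 (.nv (.thr 47 32 (.thr 63 0 (.thr 15 31 (.thr 23 20 (.thr 3 43 (.dbl 7 11 52)))))) (.nv (.thr 0 63 (.thr 2 62 (.thr 3 1 (.thr 5 53 (.thr 15 10 (.dbl 7 11 52)))))) (.rp 63 (.str 25 (.nv (.thr 20 23 (.thr 19 28 (.thr 17 29 (.thr 16 18 (.thr 32 47 (.thr 0 48 (.thr 13 49 (.thr 51 34 (.thr 3 35 (.dbl 2 1 62)))))))))) (.nv (.thr 62 2 (.thr 28 19 (.thr 29 17 (.thr 30 31 (.thr 46 14 (.thr 47 32 (.thr 44 45 (.thr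 12 60 (.dbl 38 34 51))))))))) (.rp 62 (.thr 20 23 (.thr 53 5 (.thr 7 52 (.thr 59 8 (.thr 13 49 (.thr 17 29 (.thr 28 19 (.thr 16 24 (.thr 32 47 (.thr 0 48 (.thr 51 34 (.thr 12 38 (.dbl 60 40 44))))))))))))) (.rp 56 (.str 11 (.nv (.thr 2 62 (.thr 5 53 (.thr 7 52 (.thr 3 15 (.thr 13 49 (.dbl 1 0 9)))))) (.nv (.thr 23 20 (.thr 19 28 (.thr 27 31 (.dbl 59 8 43)))) (.nv (.thr 8 59 (.thr 9 10 (.thr 13 49 (.dbl 5 1 53)))) .nd)))) (.rp 51 (.thr 20 23 (.thr 53 5 (.thr 7 52 (.thr 59 8 (.thr 13 49 (.thr 29 17 (.thr 45 61 (.thr 28 19 (.thr 16 24 (.thr 47 32 (.thr 46 44 (.thr 62 2 (.dbl 30 14 31))))))))))))) (.rp 50 (.thr 20 23 (.thr 53 5 (.thr 7 52 (.thr 59 8 (.thr 13 49 (.thr 29 17 (.thr 45 61 (.thr 28 19 (.thr 16 24 (.thr 47 32 (.thr 46 44 (.thr 62 2 (.dbl 30 14 31))))))))))))) (.rp 47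 (.thr 20 23 (.thr 53 5 (.thr 7 52 (.thr 59 8 (.thr 49 13 (.thr 61 57 (.thr 17 29 (.thr 19 28 (.thr 18 16 (.thr 2 62 (.thr 50 34 (.thr 48 51 (.dbl 33 1 3))))))))))))) (.rp 46 (.thr 20 23 (.thr 53 5 (.thr 7 52 (.thr 59 8 (.thr 49 13 (.thr 57 61 (.thr 56 58 (.thr 29 17 (.thr 28 19 (.thr 31 30 (.thr 16 24 (.thr 32 47 (.thr 0 48 (.thr 60 40 (.thr 51 54 (.dbl 12 38 44)))))))))))))))) (.rp 44 (.thr 20 23 (.thr 53 5 (.thr 7 52 (.thr 59 8 (.thr 13 49 (.thr 17 29 (.thr 19 28 (.thr 16 18 (.thr 32 47 (.thr 0 48 (.thr 60 40 (.thr 51 34 (.thr 54 57 (.dbl 38 6 12)))))))))))))) (.rp 38 (.thr 20 23 (.thr 53 5 (.thr 7 52 (.thr 59 8 (.thr 13 49 (.thr 29 17 (.thr 45 61 (.thr 28 19 (.thr 47 32 (.thr 44 46 (.thr 60 12 (.thr 0 40 (.dbl 30 15 31))))))))))))) (.rp 34 (.thr 20 23 (.thr 53 5 (.thr 7 52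 (.thr 59 8 (.thr 13 49 (.thr 29 17 (.thr 45 61 (.thr 28 19 (.thr 16 24 (.thr 47 32 (.thr 46 44 (.thr 62 2 (.dbl 30 14 31))))))))))))) (.rp 32 (.thr 20 23 (.thr 53 5 (.thr 7 52 (.thr 59 8 (.thr 49 13 (.thr 61 57 (.thr 17 29 (.thr 19 28 (.thr 18 16 (.thr 2 62 (.thr 50 34 (.thr 48 51 (.dbl 33 1 3))))))))))))) (.rp 31 (.thr 20 23 (.thr 53 5 (.thr 7 52 (.thr 59 8 (.thr 13 49 (.thr 29 17 (.thr 45 61 (.thr 19 28 (.thr 47 32 (.thr 46 44 (.thr 38 34 (.thr 36 39 (.thr 54 6 (.thr 62 2 (.thr 14 30 (.dbl 12 15 51)))))))))))))))) (.rp 30 (.thr 20 23 (.thr 53 5 (.thr 7 52 (.thr 59 8 (.thr 13 49 (.thr 29 17 (.thr 45 61 (.thr 28 19 (.thr 47 32 (.thr 44 46 (.thr 12 60 (.thr 62 2 (.thr 15 14 (.thr 38 51 (.thr 36 39 (.dbl 24 16 48)))))))))))))))) (.rp 29 (.thr 20 23 (.thr 53 5 (.thr 7 52 (.thr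 8 59 (.thr 13 49 (.thr 28 19 (.thr 16 24 (.thr 32 47 (.thr 0 48 (.thr 60 40 (.thr 12 44 (.thr 15 14 (.thr 2 62 (.dbl 3 1 11)))))))))))))) (.rp 28 (.thr 20 23 (.thr 53 5 (.thr 7 52 (.thr 59 8 (.thr 13 49 (.thr 29 17 (.thr 45 61 (.thr 47 32 (.thr 46 44 (.thr 38 34 (.thr 36 39 (.thr 54 6 (.thr 62 2 (.thr 14 30 (.dbl 12 15 51))))))))))))))) (.rp 23 (.thr 53 5 (.thr 7 52 (.thr 59 8 (.thr 13 49 (.thr 29 17 (.thr 45 61 (.thr 28 19 (.thr 47 32 (.thr 46 44 (.thr 38 34 (.thr 36 39 (.thr 54 6 (.thr 62 2 (.dbl 30 14 31)))))))))))))) (.rp 19 (.thr 20 23 (.thr 53 5 (.thr 7 52 (.thr 59 8 (.thr 13 49 (.thr 29 17 (.thr 45 61 (.thr 47 32 (.thr 46 44 (.thr 38 34 (.thr 36 39 (.thr 54 6 (.thr 62 2 (.thr 14 30 (.dbl 12 15 51))))))))))))))) (.rp 18 (.thr 20 23 (.thr 53 5 (.thr 7 52 (.thr 59 8 (.thr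 13 49 (.thr 29 17 (.thr 45 61 (.thr 28 19 (.thr 16 24 (.thr 47 32 (.thr 46 44 (.thr 38 34 (.thr 36 39 (.thr 54 6 (.thr 62 2 (.thr 50 58 (.dbl 30 14 31))))))))))))))))) (.rp 17 (.thr 20 23 (.thr 53 5 (.thr 7 52 (.thr 59 8 (.thr 49 13 (.thr 57 61 (.thr 56 58 (.thr 28 19 (.thr 16 24 (.thr 32 47 (.thr 0 48 (.thr 60 40 (.thr 12 44 (.dbl 51 38 54)))))))))))))) (.rp 16 (.thr 20 23 (.thr 53 5 (.thr 7 52 (.thr 59 8 (.thr 13 49 (.thr 29 17 (.thr 45 61 (.thr 19 28 (.thr 47 32 (.thr 46 44 (.thr 38 34 (.thr 36 39 (.thr 54 6 (.thr 62 2 (.thr 14 30 (.dbl 12 15 51)))))))))))))))) (.rp 15 (.thr 20 23 (.thr 53 5 (.thr 7 52 (.thr 59 8 (.thr 13 49 (.thr 29 17 (.thr 45 61 (.thr 28 19 (.thr 16 24 (.thr 47 32 (.thr 46 44 (.thr 38 34 (.thr 36 39 (.thr 54 6 (.thr 62 2 (.dbl 30 14 31))))))))))))))))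 (.rp 12 (.thr 20 23 (.thr 53 5 (.thr 7 52 (.thr 8 59 (.thr 13 49 (.thr 29 17 (.thr 45 61 (.thr 28 19 (.thr 16 24 (.thr 47 32 (.thr 46 44 (.thr 38 34 (.thr 36 39 (.thr 54 6 (.thr 62 2 (.dbl 30 14 31)))))))))))))))) (.rp 11 (.str 56 (.nv (.thr 49 13 (.thr 53 5 (.thr 57 61 (.dbl 59 8 58)))) (.nv (.thr 8 59 (.thr 24 40 (.thr 28 19 (.dbl 20 16 23)))) (.rp 59 (.thr 20 23 (.thr 28 19 (.thr 24 16 (.thr 52 7 (.thr 60 48 (.dbl 40 0 8)))))) (.rp 8 (.thr 20 23 (.thr 28 19 (.thr 16 24 (.thr 32 47 (.thr 52 7 (.dbl 48 0 60)))))) .nd))))) (.rp 2 (.thr 20 23 (.thr 53 5 (.thr 7 52 (.thr 59 8 (.thr 13 49 (.thr 29 17 (.thr 45 61 (.thr 28 19 (.thr 47 32 (.thr 44 46 (.thr 60 12 (.thr 0 40 (.dbl 30 15 31))))))))))))) .nd)))))))))))))))))))))))))) (.rp 60 (.thr 53 5 (.thr 63 0 (.thr 62 2 (.thr 58 48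 (.thr 54 50 (.dbl 52 7 55)))))) (.rp 56 (.str 11 (.nv (.thr 0 63 (.thr 2 62 (.thr 1 3 (.thr 5 53 (.thr 9 13 (.dbl 10 8 15)))))) (.nv (.thr 47 32 (.thr 63 0 (.thr 15 31 (.dbl 7 3 52)))) (.nv (.thr 0 63 (.thr 2 62 (.thr 3 1 (.dbl 7 15 52)))) (.rp 63 (.thr 7 52 (.thr 5 53 (.thr 2 62 (.thr 15 3 (.thr 10 0 (.thr 8 9 (.thr 25 59 (.thr 13 49 (.dbl 14 6 12))))))))) (.rp 15 (.thr 23 20 (.thr 63 0 (.thr 43 3 (.thr 47 32 (.thr 39 35 (.dbl 7 52 55)))))) (.rp 3 (.thr 5 53 (.thr 0 63 (.thr 10 15 (.thr 8 9 (.thr 25 59 (.thr 17 29 (.thr 19 28 (.thr 16 18 (.dbl 32 47 48))))))))) (.rp 0 (.thr 2 62 (.thr 5 53 (.thr 52 7 (.str 8 (.nv (.thr 9 10 (.thr 13 1 (.dbl 25 49 59))) (.rp 59 (.thr 23 20 (.thr 9 10 (.thr 13 1 (.thr 25 49 (.thr 19 28 (.thr 31 27 (.thr 47 32 (.thr 15 63 (.thr 12 14 (.thr 3 6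 (.dbl 51 35 38))))))))))) (.rp 49 (.thr 10 9 (.thr 6 14 (.thr 38 54 (.thr 39 36 (.thr 47 32 (.thr 43 35 (.dbl 59 25 27))))))) (.rp 25 (.thr 9 10 (.str 27 (.nv (.thr 23 20 (.thr 31 19 (.thr 43 59 (.thr 63 3 (.dbl 47 15 32))))) (.nv (.thr 43 59 (.thr 47 32 (.thr 39 35 (.thr 15 51 (.thr 63 31 (.dbl 23 3 20)))))) (.nv (.thr 23 20 (.thr 31 19 (.thr 47 32 (.thr 63 15 (.dbl 43 3 59))))) (.rp 63 (.thr 43 59 (.thr 13 1 (.thr 47 32 (.thr 39 35 (.thr 38 36 (.thr 6 54 (.thr 12 3 (.dbl 15 14 51)))))))) (.rp 59 (.thr 23 20 (.thr 13 1 (.thr 31 19 (.thr 47 32 (.thr 15 63 (.thr 12 14 (.thr 6 3 (.thr 38 54 (.dbl 39 36 51))))))))) (.rp 47 (.thr 23 20 (.thr 43 59 (.thr 13 1 (.thr 3 63 (.thr 12 6 (.thr 15 14 (.thr 51 39 (.dbl 19 31 35)))))))) (.rp 43 (.thr 23 20 (.thr 13 1 (.thr 31 19 (.thr 47 32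 (.thr 15 63 (.thr 39 51 (.thr 38 36 (.thr 6 54 (.dbl 12 3 14))))))))) (.rp 32 (.thr 23 20 (.thr 43 59 (.thr 13 1 (.thr 19 31 (.thr 3 63 (.thr 51 35 (.thr 15 39 (.dbl 12 6 14)))))))) (.rp 31 (.thr 23 20 (.thr 43 59 (.thr 47 32 (.thr 39 35 (.thr 38 36 (.thr 6 54 (.dbl 3 12 63))))))) (.rp 23 (.thr 43 59 (.thr 13 1 (.thr 47 32 (.thr 39 35 (.thr 38 36 (.thr 6 54 (.thr 15 51 (.dbl 12 3 14)))))))) (.rp 20 (.thr 43 59 (.thr 13 1 (.thr 47 32 (.thr 39 35 (.thr 38 36 (.thr 6 54 (.thr 15 51 (.dbl 12 3 14)))))))) (.rp 19 (.thr 23 20 (.thr 43 59 (.thr 47 32 (.thr 63 3 (.thr 15 31 (.dbl 39 35 51)))))) (.rp 15 (.thr 23 20 (.thr 43 59 (.thr 19 31 (.thr 47 32 (.thr 35 39 (.dbl 3 51 63)))))) (.rp 3 (.thr 23 20 (.thr 43 59 (.thr 31 19 (.thr 47 32 (.thr 15 63 (.dbl 39 35 51)))))) .nd))))))))))))))))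 (.rp 13 (.thr 10 9 (.thr 6 14 (.thr 38 54 (.thr 39 36 (.thr 47 32 (.thr 43 35 (.dbl 59 25 27))))))) (.rp 10 (.thr 25 59 (.thr 49 13 (.thr 17 29 (.thr 33 1 (.thr 19 28 (.thr 18 16 (.thr 34 50 (.dbl 32 35 47)))))))) (.rp 9 (.thr 25 59 (.thr 49 13 (.thr 17 29 (.thr 33 1 (.thr 19 28 (.thr 18 16 (.thr 34 50 (.dbl 32 35 47)))))))) (.rp 1 (.thr 10 9 (.thr 6 14 (.thr 38 54 (.thr 39 36 (.thr 47 32 (.thr 43 35 (.dbl 59 25 27))))))) .nd)))))))))))) .nd)))))))) (.rp 52 (.thr 53 5 (.thr 63 0 (.thr 62 2 (.thr 61 60 (.thr 48 58 (.thr 49 57 (.thr 25 13 (.thr 51 50 (.dbl 59 8 55))))))))) (.rp 48 (.thr 53 5 (.thr 63 0 (.thr 62 2 (.thr 61 60 (.thr 49 57 (.thr 25 13 (.thr 29 17 (.thr 12 46 (.thr 59 8 (.dbl 51 38 55)))))))))) (.rp 15 (.thr 23 20 (.thr 63 0 (.thr 43 3 (.thr 47 32 (.thr 39 35 (.dbl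 7 52 55)))))) (.rp 11 (.str 56 (.nv (.thr 0 63 (.thr 20 23 (.thr 32 47 (.thr 16 48 (.thr 24 28 (.dbl 40 8 60)))))) (.nv (.thr 0 63 (.thr 32 47 (.thr 48 16 (.dbl 52 7 60)))) (.nv (.thr 0 63 (.thr 20 23 (.thr 60 40 (.dbl 52 7 48)))) (.rp 63 (.thr 52 7 (.thr 20 23 (.thr 32 47 (.thr 60 48 (.thr 40 0 (.thr 8 24 (.thr 25 59 (.thr 28 19 (.dbl 44 12 36))))))))) (.rp 60 (.thr 53 5 (.thr 63 0 (.thr 58 48 (.thr 62 2 (.thr 54 50 (.dbl 52 7 55)))))) (.rp 48 (.thr 20 23 (.thr 0 63 (.thr 40 60 (.thr 8 24 (.thr 25 59 (.thr 17 29 (.thr 49 13 (.thr 1 33 (.dbl 2 3 62))))))))) (.rp 0 (.thr 32 47 (.thr 20 23 (.thr 7 52 (.str 8 (.nv (.thr 24 40 (.thr 28 16 (.dbl 25 19 59))) (.rp 59 (.thr 53 5 (.thr 24 40 (.thr 28 16 (.thr 25 19 (.thr 49 13 (.thr 61 57 (.thr 62 2 (.thr 60 63 (.thr 12 44 (.thr 48 36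 (.dbl 51 38 50))))))))))) (.rp 40 (.thr 25 59 (.thr 19 28 (.thr 17 29 (.thr 18 16 (.thr 49 13 (.thr 33 1 (.thr 34 35 (.dbl 2 50 62)))))))) (.rp 28 (.thr 40 24 (.thr 36 44 (.thr 38 39 (.thr 54 6 (.thr 62 2 (.thr 58 50 (.dbl 59 25 57))))))) (.rp 25 (.thr 24 40 (.str 57 (.nv (.thr 16 28 (.thr 58 59 (.thr 62 2 (.thr 54 50 (.thr 60 51 (.thr 63 61 (.dbl 53 5 48))))))) (.nv (.thr 53 5 (.thr 58 59 (.thr 61 49 (.thr 63 48 (.dbl 62 2 60))))) (.nv (.thr 53 5 (.thr 61 49 (.thr 62 2 (.thr 63 60 (.dbl 58 48 59))))) (.rp 63 (.thr 58 59 (.thr 28 16 (.thr 62 2 (.thr 54 50 (.thr 38 6 (.thr 36 39 (.thr 12 48 (.dbl 60 44 51)))))))) (.rp 62 (.thr 53 5 (.thr 58 59 (.thr 28 16 (.thr 48 63 (.thr 12 36 (.thr 60 44 (.thr 51 54 (.dbl 49 50 61)))))))) (.rp 61 (.thr 53 5 (.thr 58 59 (.thr 62 2 (.thr 54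 50 (.thr 38 6 (.thr 36 39 (.dbl 48 12 63))))))) (.rp 60 (.thr 53 5 (.thr 58 59 (.thr 49 61 (.thr 62 2 (.thr 50 54 (.dbl 48 51 63)))))) (.rp 59 (.thr 53 5 (.thr 28 16 (.thr 61 49 (.thr 62 2 (.thr 60 63 (.thr 12 44 (.thr 36 48 (.thr 38 39 (.dbl 54 6 51))))))))) (.rp 58 (.thr 53 5 (.thr 28 16 (.thr 61 49 (.thr 62 2 (.thr 60 63 (.thr 54 51 (.thr 38 6 (.thr 36 39 (.dbl 12 44 48))))))))) (.rp 53 (.thr 58 59 (.thr 28 16 (.thr 62 2 (.thr 54 50 (.thr 38 6 (.thr 36 39 (.thr 60 51 (.dbl 12 44 48)))))))) (.rp 49 (.thr 53 5 (.thr 58 59 (.thr 62 2 (.thr 63 48 (.thr 60 61 (.dbl 54 50 51)))))) (.rp 48 (.thr 53 5 (.thr 58 59 (.thr 61 49 (.thr 62 2 (.thr 60 63 (.dbl 54 50 51)))))) (.rp 5 (.thr 58 59 (.thr 28 16 (.thr 62 2 (.thr 54 50 (.thr 38 6 (.thr 36 39 (.thr 60 51 (.dbl 12 44 48)))))))) (.rp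 2 (.thr 53 5 (.thr 58 59 (.thr 28 16 (.thr 49 61 (.thr 48 63 (.thr 51 50 (.thr 60 54 (.dbl 12 36 44)))))))) .nd)))))))))))))))) (.rp 24 (.thr 25 59 (.thr 19 28 (.thr 17 29 (.thr 18 16 (.thr 49 13 (.thr 33 1 (.thr 34 35 (.dbl 2 50 62)))))))) (.rp 19 (.thr 40 24 (.thr 36 44 (.thr 38 39 (.thr 54 6 (.thr 62 2 (.thr 58 50 (.dbl 59 25 57))))))) (.rp 16 (.thr 40 24 (.thr 36 44 (.thr 38 39 (.thr 54 6 (.thr 62 2 (.thr 58 50 (.dbl 59 25 57))))))) .nd)))))))))))) .nd)))))))) (.rp 7 (.thr 23 20 (.thr 63 0 (.thr 3 43 (.thr 47 32 (.thr 31 15 (.thr 19 27 (.thr 25 28 (.thr 51 35 (.dbl 59 8 55))))))))) (.rp 3 (.thr 23 20 (.thr 63 0 (.thr 47 32 (.thr 31 15 (.thr 19 27 (.thr 25 28 (.thr 29 17 (.thr 12 46 (.thr 59 8 (.dbl 51 38 55)))))))))) (.rp 0 (.thr 20 23 (.thr 32 47 (.thr 2 62 (.thr 5 53 (.str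 25 (.nv (.thr 7 52 (.thr 17 29 (.thr 49 13 (.thr 33 1 (.thr 34 35 (.thr 50 18 (.thr 51 48 (.dbl 38 12 46)))))))) (.nv (.thr 7 52 (.thr 17 29 (.thr 19 28 (.thr 18 16 (.thr 34 50 (.thr 35 33 (.thr 51 3 (.dbl 38 12 46)))))))) (.nv (.thr 19 28 (.thr 17 29 (.thr 18 16 (.thr 49 13 (.thr 33 1 (.dbl 34 35 50)))))) (.rp 56 (.str 11 (.nv (.thr 8 59 (.thr 9 10 (.dbl 13 1 49))) (.rp 59 (.thr 49 13 (.thr 17 29 (.thr 33 1 (.thr 34 35 (.thr 18 50 (.dbl 19 16 28)))))) (.rp 58 (.thr 13 49 (.thr 9 1 (.dbl 8 10 59))) (.rp 57 (.thr 49 13 (.thr 17 29 (.thr 33 1 (.thr 34 35 (.thr 18 50 (.dbl 19 16 28)))))) (.rp 49 (.thr 7 52 (.thr 8 59 (.thr 9 10 (.thr 3 15 (.thr 12 6 (.thr 51 38 (.dbl 19 28 35))))))) (.rp 13 (.thr 7 52 (.thr 8 59 (.thr 9 10 (.thr 3 15 (.thr 12 6 (.thr 51 38 (.dbl 19 28 35)))))))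 (.rp 10 (.thr 49 13 (.thr 17 29 (.thr 33 1 (.thr 34 35 (.thr 18 50 (.dbl 19 16 28)))))) (.rp 9 (.thr 49 13 (.thr 17 29 (.thr 33 1 (.thr 34 35 (.thr 18 50 (.dbl 19 16 28)))))) (.rp 8 (.str 12 (.nv (.thr 13 49 (.thr 9 1 (.thr 3 6 (.dbl 15 7 14)))) (.nv (.thr 28 19 (.thr 44 60 (.thr 36 40 (.dbl 24 16 48)))) (.rp 61 (.thr 7 52 (.thr 15 3 (.dbl 13 14 49))) (.rp 40 (.str 24 (.nv (.thr 36 48 (.dbl 38 39 51)) (.nv (.dbl 28 16 19) .nd))) (.rp 24 (.str 40 (.nv (.thr 13 49 (.thr 15 14 (.dbl 7 3 52))) (.nv (.thr 44 36 (.dbl 28 19 60)) .nd))) .nd)))))) (.rp 1 (.thr 7 52 (.thr 8 59 (.thr 10 9 (.thr 15 3 (.thr 13 49 (.dbl 14 6 12)))))) .nd))))))))))) (.rp 50 (.thr 49 13 (.thr 17 29 (.thr 33 1 (.thr 35 34 (.thr 19 28 (.thr 18 16 (.dbl 3 48 51))))))) (.rp 35 (.thr 49 13 (.thr 17 29 (.thr 33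 1 (.thr 19 28 (.thr 18 16 (.thr 50 34 (.dbl 48 3 51))))))) (.rp 34 (.thr 7 52 (.thr 8 59 (.thr 13 49 (.thr 9 1 (.thr 11 10 (.thr 3 15 (.thr 12 6 (.thr 51 38 (.dbl 19 28 35))))))))) (.rp 33 (.thr 52 7 (.thr 8 59 (.thr 49 13 (.thr 28 19 (.thr 24 16 (.thr 56 40 (.thr 48 60 (.thr 51 50 (.dbl 12 36 38))))))))) (.rp 29 (.thr 7 52 (.thr 8 59 (.thr 13 49 (.thr 9 1 (.thr 11 10 (.thr 3 15 (.thr 12 6 (.thr 51 38 (.dbl 19 28 35))))))))) (.rp 18 (.thr 7 52 (.thr 8 59 (.thr 13 49 (.thr 9 1 (.thr 11 10 (.thr 3 15 (.thr 12 6 (.thr 51 38 (.dbl 19 28 35))))))))) (.rp 17 (.thr 19 28 (.str 51 (.nv (.thr 12 38 (.thr 13 49 (.thr 14 15 (.thr 6 10 (.dbl 3 9 35))))) (.nv (.thr 8 59 (.thr 38 12 (.thr 34 46 (.thr 49 13 (.dbl 50 18 48))))) (.nv (.thr 8 59 (.thr 38 12 (.thr 34 46 (.dbl 35 3 33)))) (.nv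 (.thr 35 3 (.thr 34 33 (.thr 49 13 (.dbl 50 18 48)))) (.rp 63 (.thr 3 35 (.thr 7 52 (.thr 8 59 (.thr 38 12 (.thr 39 36 (.dbl 15 11 27)))))) (.rp 56 (.str 11 (.nv (.thr 12 38 (.thr 7 52 (.dbl 3 15 35))) (.nv (.thr 8 59 (.thr 9 10 (.dbl 13 1 49))) .nd))) (.rp 12 (.thr 8 59 (.thr 35 3 (.thr 34 33 (.thr 49 13 (.dbl 50 18 48))))) (.rp 11 (.str 56 (.nv (.thr 49 13 (.thr 50 48 (.thr 34 18 (.dbl 35 3 33)))) (.nv (.thr 38 12 (.thr 8 59 (.thr 40 24 (.dbl 36 39 44)))) (.rp 12 (.thr 8 59 (.thr 52 7 (.thr 49 13 (.dbl 48 50 60)))) (.rp 8 (.thr 12 38 (.thr 52 7 (.thr 48 60 (.dbl 49 13 50)))) .nd))))) .nd)))))))))) (.rp 12 (.thr 8 59 (.thr 49 13 (.thr 17 29 (.thr 33 1 (.thr 34 35 (.thr 18 50 (.dbl 19 16 28))))))) (.rp 11 (.str 56 (.nv (.thr 8 59 (.thr 24 40 (.dbl 28 16 19))) (.rp 59 (.thr 19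 28 (.thr 17 29 (.thr 18 16 (.thr 34 50 (.thr 33 35 (.dbl 49 1 13)))))) (.rp 43 (.thr 28 19 (.thr 24 16 (.dbl 8 40 59))) (.rp 40 (.thr 19 28 (.thr 17 29 (.thr 18 16 (.thr 34 50 (.thr 33 35 (.dbl 49 1 13)))))) (.rp 28 (.thr 52 7 (.thr 8 59 (.thr 24 40 (.thr 48 60 (.thr 12 36 (.thr 51 38 (.dbl 49 13 50))))))) (.rp 27 (.thr 19 28 (.thr 17 29 (.thr 18 16 (.thr 34 50 (.thr 33 35 (.dbl 49 1 13)))))) (.rp 24 (.thr 19 28 (.thr 17 29 (.thr 18 16 (.thr 34 50 (.thr 33 35 (.dbl 49 1 13)))))) (.rp 19 (.thr 52 7 (.thr 8 59 (.thr 24 40 (.thr 48 60 (.thr 12 36 (.thr 51 38 (.dbl 49 13 50))))))) (.rp 16 (.thr 52 7 (.thr 8 59 (.thr 40 24 (.thr 60 48 (.thr 28 19 (.dbl 44 12 36)))))) (.rp 8 (.str 12 (.nv (.thr 28 19 (.thr 24 16 (.thr 48 36 (.dbl 60 44 52)))) (.nv (.thr 13 49 (.thr 14 15 (.thr 6 10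 (.dbl 9 1 3)))) (.rp 31 (.thr 52 7 (.thr 60 48 (.dbl 28 19 44))) (.rp 10 (.str 9 (.nv (.thr 6 3 (.dbl 38 51 54)) (.nv (.dbl 13 1 49) .nd))) (.rp 9 (.str 10 (.nv (.thr 28 19 (.thr 60 44 (.dbl 52 7 48))) (.nv (.thr 14 6 (.dbl 13 15 49)) .nd))) .nd)))))) .nd))))))))))) (.rp 8 (.str 12 (.nv (.thr 38 51 (.thr 36 39 (.thr 44 40 (.dbl 28 19 60)))) (.nv (.thr 13 49 (.thr 14 15 (.thr 6 10 (.dbl 9 1 3)))) (.rp 56 (.str 11 (.nv (.thr 13 49 (.thr 9 1 (.thr 3 6 (.dbl 15 7 14)))) (.nv (.thr 28 19 (.thr 44 60 (.thr 36 40 (.dbl 24 16 48)))) (.rp 61 (.thr 7 52 (.thr 15 3 (.dbl 13 14 49))) (.rp 40 (.str 24 (.nv (.thr 36 48 (.dbl 38 39 51)) (.nv (.dbl 28 16 19) .nd))) (.rp 24 (.str 40 (.nv (.thr 13 49 (.thr 15 14 (.dbl 7 3 52))) (.nv (.thr 44 36 (.dbl 28 19 60)) .nd))) .nd)))))) (.rp 15 (.thr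 28 19 (.thr 24 16 (.thr 44 60 (.dbl 36 40 48)))) (.rp 11 (.str 56 (.nv (.thr 28 19 (.thr 24 16 (.thr 48 36 (.dbl 60 44 52)))) (.nv (.thr 13 49 (.thr 14 15 (.thr 6 10 (.dbl 9 1 3)))) (.rp 31 (.thr 52 7 (.thr 60 48 (.dbl 28 19 44))) (.rp 10 (.str 9 (.nv (.thr 6 3 (.dbl 38 51 54)) (.nv (.dbl 13 1 49) .nd))) (.rp 9 (.str 10 (.nv (.thr 28 19 (.thr 60 44 (.dbl 52 7 48))) (.nv (.thr 14 6 (.dbl 13 15 49)) .nd))) .nd)))))) .nd)))))) .nd))))))))))))))))))) .nd))))))))))))) .nd))))))))))))))))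

theorem w541 : WinAt (137441050624, 2199090364416) :=
  chF (K := [(137445244928, 2199090366464), (137445244928, 2473968271360), (137445244928, 72059793128292352)]) (kc w506 (kc w539 (kc w540 kn))) c541 137441050624 2199090364416 41
    [72059793128294400] (by decide +kernel) (by decide +kernel)

/-- A certificate. -/
noncomputable def c542 : Ct := (.str 41 (.nv (.thr 3 60 (.thr 23 20 (.thr 33 45 (.thr 48 18 (.thr 53 5 (.dbl 63 43 58)))))) (.nv (.thr 1 61 (.thr 3 60 (.thr 0 2 (.thr 7 52 (.thr 15 11 (.dbl 5 10 53)))))) (.nv (.thr 53 5 (.thr 61 1 (.thr 49 57 (.thr 45 33 (.dbl 13 25 29))))) (.rp 58 (.str 10 (.nv (.thr 1 61 (.thr 3 60 (.thr 0 2 (.thr 7 52 (.dbl 15 5 11))))) (.nv (.thr 1 61 (.thr 33 45 (.thr 49 17 (.thr 13 25 (.dbl 5 9 53))))) (.nv (.thr 45 33 (.thr 60 3 (.thr 15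 30 (.dbl 5 0 53)))) (.rp 50 (.str 14 (.nv (.thr 1 61 (.thr 5 53 (.thr 13 9 (.dbl 15 0 12)))) (.nv (.thr 7 52 (.thr 6 2 (.dbl 5 4 53))) (.nv (.thr 2 6 (.thr 3 60 (.dbl 1 0 61))) (.rp 62 (.str 54 (.nv (.thr 1 61 (.thr 2 6 (.dbl 3 0 60))) (.nv (.thr 53 5 (.dbl 52 7 55)) (.rp 46 (.str 34 (.nv (.thr 1 61 (.thr 2 6 (.dbl 3 0 60))) (.nv (.thr 53 5 (.dbl 52 7 55)) .nd))) (.rp 34 (.str 46 (.nv (.thr 2 6 (.thr 1 61 (.dbl 3 0 60))) (.nv (.thr 53 5 (.dbl 52 7 55)) (.rp 2 (.str 18 (.nv (.thr 52 7 (.dbl 53 5 55)) (.nv (.thr 33 45 (.dbl 3 48 60)) .nd))) .nd)))) .nd))))) (.rp 54 (.str 62 (.nv (.thr 6 2 (.thr 7 52 (.dbl 5 4 53))) (.nv (.thr 60 3 (.dbl 61 1 63)) (.rp 46 (.str 34 (.nv (.thr 6 2 (.thr 7 52 (.dbl 5 4 53))) (.nv (.thr 61 1 (.dbl 60 3 63)) .nd))) (.rp 34 (.thr 46 30 (.thr 60 3 (.dbl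 61 1 63))) .nd))))) (.rp 46 (.str 34 (.nv (.thr 1 61 (.thr 3 60 (.thr 0 2 (.thr 17 51 (.dbl 33 45 49))))) (.nv (.thr 6 2 (.thr 7 52 (.dbl 5 4 53))) (.rp 62 (.str 54 (.nv (.thr 1 61 (.thr 2 6 (.dbl 3 0 60))) (.nv (.thr 53 5 (.dbl 52 7 55)) .nd))) (.rp 54 (.str 62 (.nv (.thr 6 2 (.thr 7 52 (.dbl 5 4 53))) (.nv (.thr 61 1 (.dbl 60 3 63)) .nd))) (.rp 2 (.thr 45 33 (.thr 60 3 (.thr 15 30 (.dbl 5 0 53)))) .nd)))))) (.rp 34 (.str 46 (.nv (.thr 2 6 (.thr 3 60 (.dbl 1 0 61))) (.nv (.thr 5 53 (.thr 7 52 (.dbl 6 2 4))) (.nv (.thr 62 30 (.thr 60 3 (.dbl 61 1 63))) (.rp 62 (.str 54 (.nv (.thr 2 6 (.thr 1 61 (.dbl 3 0 60))) (.nv (.thr 53 5 (.dbl 52 7 55)) (.rp 2 (.str 18 (.nv (.thr 52 7 (.dbl 53 5 55)) (.nv (.thr 33 45 (.dbl 3 48 60)) .nd))) .nd)))) (.rp 2 (.str 18 (.nv (.thr 62 30 (.thr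 60 3 (.dbl 61 1 63))) (.nv (.thr 1 61 (.thr 5 53 (.thr 13 9 (.dbl 15 0 12)))) (.nv (.thr 33 45 (.dbl 3 48 60)) (.rp 62 (.str 54 (.nv (.thr 52 7 (.dbl 53 5 55)) (.nv (.thr 33 45 (.dbl 3 48 60)) .nd))) .nd))))) .nd)))))) .nd)))))))) (.rp 46 (.str 34 (.nv (.thr 1 61 (.thr 3 60 (.thr 0 2 (.thr 7 52 (.dbl 15 5 11))))) (.nv (.thr 1 61 (.thr 33 45 (.thr 49 17 (.thr 13 25 (.dbl 5 9 53))))) (.nv (.thr 5 53 (.thr 15 0 (.thr 45 33 (.dbl 60 3 30)))) (.rp 50 (.str 14 (.nv (.thr 1 61 (.thr 3 60 (.thr 0 2 (.thr 17 51 (.dbl 33 45 49))))) (.nv (.thr 6 2 (.thr 7 52 (.dbl 5 4 53))) (.rp 62 (.str 54 (.nv (.thr 1 61 (.thr 2 6 (.dbl 3 0 60))) (.nv (.thr 53 5 (.dbl 52 7 55)) .nd))) (.rp 54 (.str 62 (.nv (.thr 6 2 (.thr 7 52 (.dbl 5 4 53))) (.nv (.thr 61 1 (.dbl 60 3 63)) .nd))) (.rp 2 (.thr 45 33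 (.thr 60 3 (.thr 15 30 (.dbl 5 0 53)))) .nd)))))) (.rp 14 (.str 50 (.nv (.thr 33 45 (.thr 18 2 (.dbl 3 48 60))) (.nv (.thr 1 61 (.thr 5 53 (.thr 13 9 (.thr 33 45 (.dbl 49 17 25))))) (.nv (.thr 1 61 (.thr 2 18 (.dbl 3 0 60))) (.rp 62 (.str 30 (.nv (.thr 1 61 (.thr 2 18 (.dbl 3 0 60))) (.nv (.thr 45 33 (.dbl 60 3 15)) (.rp 60 (.thr 2 18 (.thr 5 53 (.thr 0 15 (.dbl 1 3 61)))) (.rp 3 (.thr 5 53 (.thr 45 33 (.dbl 15 0 60))) .nd))))) (.rp 30 (.str 62 (.nv (.thr 3 60 (.thr 18 2 (.dbl 33 45 48))) (.nv (.thr 61 1 (.dbl 60 3 63)) (.rp 60 (.thr 2 18 (.thr 5 53 (.thr 1 61 (.dbl 0 3 15)))) (.rp 3 (.thr 53 5 (.thr 61 1 (.thr 49 57 (.thr 45 33 (.dbl 13 25 29))))) .nd))))) .nd)))))) (.rp 5 (.thr 33 45 (.thr 3 60 (.thr 1 61 (.thr 0 2 (.dbl 17 49 51))))) .nd))))))) (.rp 34 (.str 46 (.nv (.thr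 1 61 (.thr 33 45 (.thr 49 17 (.thr 13 25 (.dbl 5 9 53))))) (.nv (.thr 20 23 (.thr 5 53 (.thr 0 15 (.dbl 60 3 40)))) (.rp 53 (.thr 20 23 (.thr 60 3 (.thr 0 40 (.thr 15 5 (.dbl 45 30 33))))) (.rp 50 (.str 14 (.nv (.thr 2 6 (.thr 3 60 (.dbl 1 0 61))) (.nv (.thr 5 53 (.thr 7 52 (.dbl 6 2 4))) (.nv (.thr 62 30 (.thr 60 3 (.dbl 61 1 63))) (.rp 62 (.str 54 (.nv (.thr 2 6 (.thr 1 61 (.dbl 3 0 60))) (.nv (.thr 53 5 (.dbl 52 7 55)) (.rp 2 (.str 18 (.nv (.thr 52 7 (.dbl 53 5 55)) (.nv (.thr 33 45 (.dbl 3 48 60)) .nd))) .nd)))) (.rp 2 (.str 18 (.nv (.thr 62 30 (.thr 60 3 (.dbl 61 1 63))) (.nv (.thr 1 61 (.thr 5 53 (.thr 13 9 (.dbl 15 0 12)))) (.nv (.thr 33 45 (.dbl 3 48 60)) (.rp 62 (.str 54 (.nv (.thr 52 7 (.dbl 53 5 55)) (.nv (.thr 33 45 (.dbl 3 48 60)) .nd))) .nd))))) .nd)))))) (.rp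 14 (.str 50 (.nv (.thr 1 61 (.thr 3 60 (.thr 33 45 (.thr 48 18 (.dbl 49 17 51))))) (.nv (.thr 1 61 (.thr 5 53 (.thr 13 9 (.thr 33 45 (.dbl 49 17 25))))) (.nv (.thr 3 60 (.thr 7 52 (.thr 15 11 (.dbl 5 0 53)))) (.rp 48 (.thr 1 61 (.thr 3 60 (.thr 0 2 (.dbl 5 15 53)))) .nd))))) (.rp 5 (.thr 60 3 (.thr 61 1 (.thr 63 62 (.thr 29 12 (.dbl 45 13 33))))) (.rp 0 (.thr 5 53 (.thr 1 61 (.thr 13 9 (.thr 33 45 (.dbl 49 17 25))))) .nd)))))))) (.rp 14 (.str 50 (.nv (.thr 1 61 (.thr 3 60 (.thr 2 0 (.thr 33 45 (.dbl 18 34 48))))) (.nv (.thr 1 61 (.thr 33 45 (.thr 49 17 (.thr 13 25 (.dbl 5 9 53))))) (.nv (.thr 20 23 (.thr 60 3 (.thr 0 40 (.dbl 5 15 53)))) (.rp 46 (.str 34 (.nv (.thr 33 45 (.thr 18 2 (.dbl 3 48 60))) (.nv (.thr 1 61 (.thr 5 53 (.thr 13 9 (.thr 33 45 (.dbl 49 17 25))))) (.nv (.thr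 1 61 (.thr 2 18 (.dbl 3 0 60))) (.rp 62 (.str 30 (.nv (.thr 1 61 (.thr 2 18 (.dbl 3 0 60))) (.nv (.thr 45 33 (.dbl 60 3 15)) (.rp 60 (.thr 2 18 (.thr 5 53 (.thr 0 15 (.dbl 1 3 61)))) (.rp 3 (.thr 5 53 (.thr 45 33 (.dbl 15 0 60))) .nd))))) (.rp 30 (.str 62 (.nv (.thr 3 60 (.thr 18 2 (.dbl 33 45 48))) (.nv (.thr 61 1 (.dbl 60 3 63)) (.rp 60 (.thr 2 18 (.thr 5 53 (.thr 1 61 (.dbl 0 3 15)))) (.rp 3 (.thr 53 5 (.thr 61 1 (.thr 49 57 (.thr 45 33 (.dbl 13 25 29))))) .nd))))) .nd)))))) (.rp 34 (.str 46 (.nv (.thr 1 61 (.thr 3 60 (.thr 33 45 (.thr 48 18 (.dbl 49 17 51))))) (.nv (.thr 1 61 (.thr 5 53 (.thr 13 9 (.thr 33 45 (.dbl 49 17 25))))) (.nv (.thr 3 60 (.thr 7 52 (.thr 15 11 (.dbl 5 0 53)))) (.rp 48 (.thr 1 61 (.thr 3 60 (.thr 0 2 (.dbl 5 15 53)))) .nd))))) .nd)))))) (.rp 5 (.thr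 7 52 (.thr 3 60 (.thr 11 15 (.thr 9 8 (.thr 6 12 (.thr 1 61 (.dbl 2 0 14))))))) .nd))))))))) (.rp 53 (.thr 60 3 (.thr 61 1 (.thr 45 33 (.thr 29 13 (.thr 30 15 (.thr 28 31 (.dbl 25 17 19))))))) (.rp 50 (.str 14 (.nv (.thr 45 33 (.thr 60 3 (.thr 15 30 (.thr 13 12 (.dbl 61 1 29))))) (.nv (.thr 1 61 (.thr 3 60 (.thr 0 2 (.thr 7 52 (.thr 15 11 (.dbl 5 10 53)))))) (.nv (.thr 5 53 (.thr 1 61 (.thr 13 9 (.thr 33 45 (.dbl 49 17 25))))) (.rp 61 (.thr 5 53 (.thr 20 23 (.thr 60 3 (.thr 45 33 (.thr 15 30 (.dbl 0 10 40)))))) (.rp 58 (.str 10 (.nv (.thr 1 61 (.thr 5 53 (.thr 13 9 (.dbl 15 0 12)))) (.nv (.thr 7 52 (.thr 6 2 (.dbl 5 4 53))) (.nv (.thr 2 6 (.thr 3 60 (.dbl 1 0 61))) (.rp 62 (.str 54 (.nv (.thr 1 61 (.thr 2 6 (.dbl 3 0 60))) (.nv (.thr 53 5 (.dbl 52 7 55)) (.rp 46 (.str 34 (.nv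 (.thr 1 61 (.thr 2 6 (.dbl 3 0 60))) (.nv (.thr 53 5 (.dbl 52 7 55)) .nd))) (.rp 34 (.str 46 (.nv (.thr 2 6 (.thr 1 61 (.dbl 3 0 60))) (.nv (.thr 53 5 (.dbl 52 7 55)) (.rp 2 (.str 18 (.nv (.thr 52 7 (.dbl 53 5 55)) (.nv (.thr 33 45 (.dbl 3 48 60)) .nd))) .nd)))) .nd))))) (.rp 54 (.str 62 (.nv (.thr 6 2 (.thr 7 52 (.dbl 5 4 53))) (.nv (.thr 60 3 (.dbl 61 1 63)) (.rp 46 (.str 34 (.nv (.thr 6 2 (.thr 7 52 (.dbl 5 4 53))) (.nv (.thr 61 1 (.dbl 60 3 63)) .nd))) (.rp 34 (.thr 46 30 (.thr 60 3 (.dbl 61 1 63))) .nd))))) (.rp 46 (.str 34 (.nv (.thr 1 61 (.thr 3 60 (.thr 0 2 (.thr 17 51 (.dbl 33 45 49))))) (.nv (.thr 6 2 (.thr 7 52 (.dbl 5 4 53))) (.rp 62 (.str 54 (.nv (.thr 1 61 (.thr 2 6 (.dbl 3 0 60))) (.nv (.thr 53 5 (.dbl 52 7 55)) .nd))) (.rp 54 (.str 62 (.nv (.thr 6 2 (.thr 7 52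 (.dbl 5 4 53))) (.nv (.thr 61 1 (.dbl 60 3 63)) .nd))) (.rp 2 (.thr 45 33 (.thr 60 3 (.thr 15 30 (.dbl 5 0 53)))) .nd)))))) (.rp 34 (.str 46 (.nv (.thr 2 6 (.thr 3 60 (.dbl 1 0 61))) (.nv (.thr 5 53 (.thr 7 52 (.dbl 6 2 4))) (.nv (.thr 62 30 (.thr 60 3 (.dbl 61 1 63))) (.rp 62 (.str 54 (.nv (.thr 2 6 (.thr 1 61 (.dbl 3 0 60))) (.nv (.thr 53 5 (.dbl 52 7 55)) (.rp 2 (.str 18 (.nv (.thr 52 7 (.dbl 53 5 55)) (.nv (.thr 33 45 (.dbl 3 48 60)) .nd))) .nd)))) (.rp 2 (.str 18 (.nv (.thr 62 30 (.thr 60 3 (.dbl 61 1 63))) (.nv (.thr 1 61 (.thr 5 53 (.thr 13 9 (.dbl 15 0 12)))) (.nv (.thr 33 45 (.dbl 3 48 60)) (.rp 62 (.str 54 (.nv (.thr 52 7 (.dbl 53 5 55)) (.nv (.thr 33 45 (.dbl 3 48 60)) .nd))) .nd))))) .nd)))))) .nd)))))))) (.rp 46 (.str 34 (.nv (.thr 1 61 (.thr 3 60 (.thr 0 2 (.thr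 17 51 (.dbl 33 45 49))))) (.nv (.thr 5 53 (.thr 7 52 (.thr 3 60 (.thr 15 11 (.thr 12 13 (.dbl 6 4 9)))))) (.nv (.thr 45 33 (.thr 53 5 (.thr 61 1 (.thr 49 57 (.dbl 13 25 29))))) (.rp 58 (.str 10 (.nv (.thr 1 61 (.thr 3 60 (.thr 0 2 (.thr 17 51 (.dbl 33 45 49))))) (.nv (.thr 6 2 (.thr 7 52 (.dbl 5 4 53))) (.rp 62 (.str 54 (.nv (.thr 1 61 (.thr 2 6 (.dbl 3 0 60))) (.nv (.thr 53 5 (.dbl 52 7 55)) .nd))) (.rp 54 (.str 62 (.nv (.thr 6 2 (.thr 7 52 (.dbl 5 4 53))) (.nv (.thr 61 1 (.dbl 60 3 63)) .nd))) (.rp 2 (.thr 45 33 (.thr 60 3 (.thr 15 30 (.dbl 5 0 53)))) .nd)))))) (.rp 10 (.str 58 (.nv (.thr 1 61 (.thr 3 60 (.thr 0 2 (.thr 17 51 (.dbl 33 45 49))))) (.nv (.thr 1 61 (.thr 5 53 (.thr 33 45 (.thr 49 17 (.dbl 13 9 25))))) (.nv (.thr 60 3 (.thr 52 7 (.thr 48 56 (.dbl 53 5 63)))) .nd))))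 .nd)))))) (.rp 34 (.str 46 (.nv (.thr 45 33 (.thr 60 3 (.dbl 30 15 62))) (.nv (.thr 1 61 (.thr 5 53 (.thr 13 9 (.thr 33 45 (.dbl 49 17 25))))) (.nv (.thr 61 1 (.thr 62 30 (.dbl 60 3 63))) (.rp 58 (.str 10 (.nv (.thr 2 6 (.thr 3 60 (.dbl 1 0 61))) (.nv (.thr 5 53 (.thr 7 52 (.dbl 6 2 4))) (.nv (.thr 62 30 (.thr 60 3 (.dbl 61 1 63))) (.rp 62 (.str 54 (.nv (.thr 2 6 (.thr 1 61 (.dbl 3 0 60))) (.nv (.thr 53 5 (.dbl 52 7 55)) (.rp 2 (.str 18 (.nv (.thr 52 7 (.dbl 53 5 55)) (.nv (.thr 33 45 (.dbl 3 48 60)) .nd))) .nd)))) (.rp 2 (.str 18 (.nv (.thr 62 30 (.thr 60 3 (.dbl 61 1 63))) (.nv (.thr 1 61 (.thr 5 53 (.thr 13 9 (.dbl 15 0 12)))) (.nv (.thr 33 45 (.dbl 3 48 60)) (.rp 62 (.str 54 (.nv (.thr 52 7 (.dbl 53 5 55)) (.nv (.thr 33 45 (.dbl 3 48 60)) .nd))) .nd))))) .nd)))))) (.rp 18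 (.str 2 (.nv (.thr 5 53 (.thr 7 52 (.dbl 6 4 10))) (.nv (.thr 1 61 (.dbl 3 0 60)) (.rp 58 (.thr 10 6 (.thr 1 61 (.dbl 3 0 60))) (.rp 10 (.str 58 (.nv (.thr 30 62 (.thr 45 33 (.dbl 60 3 15))) (.nv (.thr 1 61 (.dbl 3 0 60)) (.rp 60 (.thr 5 53 (.thr 1 61 (.thr 13 9 (.thr 33 45 (.dbl 49 17 25))))) (.rp 3 (.thr 62 30 (.thr 53 5 (.thr 61 1 (.dbl 63 48 60)))) .nd))))) .nd))))) (.rp 10 (.str 58 (.nv (.thr 45 33 (.thr 60 3 (.dbl 30 15 62))) (.nv (.thr 1 61 (.thr 5 53 (.thr 13 9 (.thr 33 45 (.dbl 49 17 25))))) (.nv (.thr 61 1 (.thr 62 30 (.dbl 60 3 63))) (.rp 18 (.str 2 (.nv (.thr 30 62 (.thr 45 33 (.dbl 60 3 15))) (.nv (.thr 1 61 (.dbl 3 0 60)) (.rp 60 (.thr 5 53 (.thr 1 61 (.thr 13 9 (.thr 33 45 (.dbl 49 17 25))))) (.rp 3 (.thr 62 30 (.thr 53 5 (.thr 61 1 (.dbl 63 48 60)))) .nd)))))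 (.rp 2 (.str 18 (.nv (.thr 60 3 (.thr 62 30 (.dbl 61 1 63))) (.nv (.thr 33 45 (.dbl 3 48 60)) (.rp 60 (.thr 53 5 (.thr 33 45 (.dbl 48 3 63))) (.rp 3 (.thr 62 30 (.thr 53 5 (.thr 63 48 (.dbl 61 1 60)))) .nd))))) .nd)))))) (.rp 2 (.str 18 (.nv (.thr 60 3 (.thr 62 30 (.dbl 61 1 63))) (.nv (.thr 33 45 (.dbl 3 48 60)) (.rp 60 (.thr 45 33 (.thr 61 1 (.thr 13 29 (.thr 53 5 (.dbl 49 25 57))))) (.rp 58 (.str 10 (.nv (.thr 62 30 (.thr 60 3 (.dbl 61 1 63))) (.nv (.thr 1 61 (.thr 5 53 (.thr 13 9 (.dbl 15 0 12)))) (.nv (.thr 33 45 (.dbl 3 48 60)) (.rp 62 (.str 54 (.nv (.thr 52 7 (.dbl 53 5 55)) (.nv (.thr 33 45 (.dbl 3 48 60)) .nd))) .nd))))) (.rp 10 (.str 58 (.nv (.thr 60 3 (.thr 62 30 (.dbl 61 1 63))) (.nv (.thr 33 45 (.dbl 3 48 60)) (.rp 60 (.thr 53 5 (.thr 33 45 (.dbl 48 3 63))) (.rp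 3 (.thr 62 30 (.thr 53 5 (.thr 63 48 (.dbl 61 1 60)))) .nd))))) (.rp 3 (.thr 45 33 (.thr 30 62 (.thr 15 60 (.thr 13 12 (.dbl 61 1 29))))) .nd))))))) .nd)))))))) (.rp 10 (.str 58 (.nv (.thr 1 61 (.thr 5 53 (.thr 13 9 (.thr 33 45 (.dbl 49 17 25))))) (.nv (.thr 23 20 (.thr 3 60 (.thr 63 43 (.dbl 53 5 48)))) (.rp 53 (.thr 45 33 (.thr 61 1 (.thr 13 29 (.thr 60 3 (.dbl 15 12 30))))) (.rp 46 (.str 34 (.nv (.thr 1 61 (.thr 3 60 (.thr 0 2 (.thr 17 51 (.dbl 33 45 49))))) (.nv (.thr 1 61 (.thr 5 53 (.thr 33 45 (.thr 49 17 (.dbl 13 9 25))))) (.nv (.thr 60 3 (.thr 52 7 (.thr 48 56 (.dbl 53 5 63)))) .nd)))) (.rp 34 (.str 46 (.nv (.thr 45 33 (.thr 60 3 (.dbl 30 15 62))) (.nv (.thr 1 61 (.thr 5 53 (.thr 13 9 (.thr 33 45 (.dbl 49 17 25))))) (.nv (.thr 61 1 (.thr 62 30 (.dbl 60 3 63))) (.rp 18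 (.str 2 (.nv (.thr 30 62 (.thr 45 33 (.dbl 60 3 15))) (.nv (.thr 1 61 (.dbl 3 0 60)) (.rp 60 (.thr 5 53 (.thr 1 61 (.thr 13 9 (.thr 33 45 (.dbl 49 17 25))))) (.rp 3 (.thr 62 30 (.thr 53 5 (.thr 61 1 (.dbl 63 48 60)))) .nd))))) (.rp 2 (.str 18 (.nv (.thr 60 3 (.thr 62 30 (.dbl 61 1 63))) (.nv (.thr 33 45 (.dbl 3 48 60)) (.rp 60 (.thr 53 5 (.thr 33 45 (.dbl 48 3 63))) (.rp 3 (.thr 62 30 (.thr 53 5 (.thr 63 48 (.dbl 61 1 60)))) .nd))))) .nd)))))) (.rp 5 (.thr 45 33 (.thr 61 1 (.thr 13 29 (.thr 60 3 (.dbl 15 12 30))))) .nd))))))) (.rp 1 (.thr 5 53 (.thr 20 23 (.thr 60 3 (.thr 45 33 (.thr 15 30 (.dbl 0 10 40)))))) .nd)))))))))) (.rp 46 (.str 34 (.nv (.thr 1 61 (.thr 3 60 (.thr 0 2 (.thr 17 51 (.dbl 33 45 49))))) (.nv (.thr 1 61 (.thr 3 60 (.thr 0 2 (.thr 7 52 (.thr 15 11 (.dbl 5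 10 53)))))) (.nv (.thr 53 5 (.thr 61 1 (.thr 49 57 (.thr 45 33 (.dbl 13 25 29))))) (.rp 61 (.thr 53 5 (.thr 23 20 (.thr 3 60 (.thr 33 45 (.thr 48 18 (.dbl 63 43 58)))))) (.rp 58 (.str 10 (.nv (.thr 1 61 (.thr 3 60 (.thr 0 2 (.thr 7 52 (.dbl 15 5 11))))) (.nv (.thr 1 61 (.thr 33 45 (.thr 49 17 (.thr 13 25 (.dbl 5 9 53))))) (.nv (.thr 5 53 (.thr 15 0 (.thr 45 33 (.dbl 60 3 30)))) (.rp 50 (.str 14 (.nv (.thr 1 61 (.thr 3 60 (.thr 0 2 (.thr 17 51 (.dbl 33 45 49))))) (.nv (.thr 6 2 (.thr 7 52 (.dbl 5 4 53))) (.rp 62 (.str 54 (.nv (.thr 1 61 (.thr 2 6 (.dbl 3 0 60))) (.nv (.thr 53 5 (.dbl 52 7 55)) .nd))) (.rp 54 (.str 62 (.nv (.thr 6 2 (.thr 7 52 (.dbl 5 4 53))) (.nv (.thr 61 1 (.dbl 60 3 63)) .nd))) (.rp 2 (.thr 45 33 (.thr 60 3 (.thr 15 30 (.dbl 5 0 53)))) .nd)))))) (.rp 14 (.str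 50 (.nv (.thr 33 45 (.thr 18 2 (.dbl 3 48 60))) (.nv (.thr 1 61 (.thr 5 53 (.thr 13 9 (.thr 33 45 (.dbl 49 17 25))))) (.nv (.thr 1 61 (.thr 2 18 (.dbl 3 0 60))) (.rp 62 (.str 30 (.nv (.thr 1 61 (.thr 2 18 (.dbl 3 0 60))) (.nv (.thr 45 33 (.dbl 60 3 15)) (.rp 60 (.thr 2 18 (.thr 5 53 (.thr 0 15 (.dbl 1 3 61)))) (.rp 3 (.thr 5 53 (.thr 45 33 (.dbl 15 0 60))) .nd))))) (.rp 30 (.str 62 (.nv (.thr 3 60 (.thr 18 2 (.dbl 33 45 48))) (.nv (.thr 61 1 (.dbl 60 3 63)) (.rp 60 (.thr 2 18 (.thr 5 53 (.thr 1 61 (.dbl 0 3 15)))) (.rp 3 (.thr 53 5 (.thr 61 1 (.thr 49 57 (.thr 45 33 (.dbl 13 25 29))))) .nd))))) .nd)))))) (.rp 5 (.thr 33 45 (.thr 3 60 (.thr 1 61 (.thr 0 2 (.dbl 17 49 51))))) .nd))))))) (.rp 50 (.str 14 (.nv (.thr 1 61 (.thr 3 60 (.thr 0 2 (.thr 17 51 (.dbl 33 45 49))))) (.nv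 (.thr 5 53 (.thr 7 52 (.thr 3 60 (.thr 15 11 (.thr 12 13 (.dbl 6 4 9)))))) (.nv (.thr 45 33 (.thr 53 5 (.thr 61 1 (.thr 49 57 (.dbl 13 25 29))))) (.rp 58 (.str 10 (.nv (.thr 1 61 (.thr 3 60 (.thr 0 2 (.thr 17 51 (.dbl 33 45 49))))) (.nv (.thr 6 2 (.thr 7 52 (.dbl 5 4 53))) (.rp 62 (.str 54 (.nv (.thr 1 61 (.thr 2 6 (.dbl 3 0 60))) (.nv (.thr 53 5 (.dbl 52 7 55)) .nd))) (.rp 54 (.str 62 (.nv (.thr 6 2 (.thr 7 52 (.dbl 5 4 53))) (.nv (.thr 61 1 (.dbl 60 3 63)) .nd))) (.rp 2 (.thr 45 33 (.thr 60 3 (.thr 15 30 (.dbl 5 0 53)))) .nd)))))) (.rp 10 (.str 58 (.nv (.thr 1 61 (.thr 3 60 (.thr 0 2 (.thr 17 51 (.dbl 33 45 49))))) (.nv (.thr 1 61 (.thr 5 53 (.thr 33 45 (.thr 49 17 (.dbl 13 9 25))))) (.nv (.thr 60 3 (.thr 52 7 (.thr 48 56 (.dbl 53 5 63)))) .nd)))) .nd)))))) (.rp 14 (.str 50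 (.nv (.thr 33 45 (.thr 18 2 (.dbl 3 48 60))) (.nv (.thr 1 61 (.thr 5 53 (.thr 13 9 (.thr 33 45 (.dbl 49 17 25))))) (.nv (.thr 1 61 (.thr 2 18 (.dbl 3 0 60))) (.rp 62 (.str 30 (.nv (.thr 1 61 (.thr 2 18 (.dbl 3 0 60))) (.nv (.thr 45 33 (.dbl 60 3 15)) (.rp 60 (.thr 33 45 (.thr 18 2 (.thr 48 3 (.thr 49 51 (.dbl 1 17 61))))) (.rp 58 (.str 10 (.nv (.thr 1 61 (.thr 2 18 (.dbl 3 0 60))) (.nv (.thr 45 33 (.dbl 60 3 15)) (.rp 60 (.thr 2 18 (.thr 5 53 (.thr 0 15 (.dbl 1 3 61)))) (.rp 3 (.thr 5 53 (.thr 45 33 (.dbl 15 0 60))) .nd))))) (.rp 10 (.str 58 (.nv (.thr 2 18 (.thr 1 61 (.dbl 3 0 60))) (.nv (.thr 45 33 (.dbl 60 3 15)) (.rp 60 (.thr 61 1 (.thr 53 5 (.thr 49 57 (.dbl 48 51 63)))) (.rp 3 (.thr 61 1 (.thr 53 5 (.thr 49 57 (.dbl 48 51 63)))) (.rp 2 (.str 6 (.nv (.thr 5 53 (.dbl 7 4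 52)) (.nv (.thr 45 33 (.dbl 60 3 15)) .nd))) .nd)))))) (.rp 3 (.thr 33 45 (.thr 1 61 (.thr 49 17 (.thr 5 53 (.dbl 13 9 25))))) .nd))))))) (.rp 58 (.str 10 (.nv (.thr 33 45 (.thr 18 2 (.dbl 3 48 60))) (.nv (.thr 1 61 (.thr 5 53 (.thr 13 9 (.thr 33 45 (.dbl 49 17 25))))) (.nv (.thr 1 61 (.thr 2 18 (.dbl 3 0 60))) (.rp 62 (.str 30 (.nv (.thr 1 61 (.thr 2 18 (.dbl 3 0 60))) (.nv (.thr 45 33 (.dbl 60 3 15)) (.rp 60 (.thr 2 18 (.thr 5 53 (.thr 0 15 (.dbl 1 3 61)))) (.rp 3 (.thr 5 53 (.thr 45 33 (.dbl 15 0 60))) .nd))))) (.rp 30 (.str 62 (.nv (.thr 3 60 (.thr 18 2 (.dbl 33 45 48))) (.nv (.thr 61 1 (.dbl 60 3 63)) (.rp 60 (.thr 2 18 (.thr 5 53 (.thr 1 61 (.dbl 0 3 15)))) (.rp 3 (.thr 53 5 (.thr 61 1 (.thr 49 57 (.thr 45 33 (.dbl 13 25 29))))) .nd))))) .nd)))))) (.rp 30 (.str 62 (.nv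 (.thr 52 7 (.thr 53 5 (.dbl 54 55 58))) (.nv (.thr 61 1 (.dbl 60 3 63)) (.rp 58 (.str 10 (.nv (.thr 3 60 (.thr 18 2 (.dbl 33 45 48))) (.nv (.thr 61 1 (.dbl 60 3 63)) (.rp 60 (.thr 2 18 (.thr 5 53 (.thr 1 61 (.dbl 0 3 15)))) (.rp 3 (.thr 53 5 (.thr 61 1 (.thr 49 57 (.thr 45 33 (.dbl 13 25 29))))) .nd))))) (.rp 10 (.thr 58 54 (.thr 61 1 (.dbl 60 3 63))) .nd))))) (.rp 10 (.str 58 (.nv (.thr 62 54 (.thr 60 3 (.dbl 61 1 63))) (.nv (.thr 52 7 (.thr 53 5 (.dbl 54 55 62))) (.nv (.thr 2 18 (.thr 3 60 (.dbl 1 0 61))) (.rp 62 (.str 30 (.nv (.thr 2 18 (.thr 1 61 (.dbl 3 0 60))) (.nv (.thr 45 33 (.dbl 60 3 15)) (.rp 60 (.thr 61 1 (.thr 53 5 (.thr 49 57 (.dbl 48 51 63)))) (.rp 3 (.thr 61 1 (.thr 53 5 (.thr 49 57 (.dbl 48 51 63)))) (.rp 2 (.str 6 (.nv (.thr 5 53 (.dbl 7 4 52)) (.nv (.thr 45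 33 (.dbl 60 3 15)) .nd))) .nd)))))) (.rp 2 (.str 6 (.nv (.thr 62 54 (.thr 60 3 (.dbl 61 1 63))) (.nv (.thr 5 53 (.dbl 7 4 52)) (.rp 62 (.str 30 (.nv (.thr 5 53 (.dbl 7 4 52)) (.nv (.thr 45 33 (.dbl 60 3 15)) .nd))) .nd)))) .nd)))))) .nd)))))))) (.rp 10 (.str 58 (.nv (.thr 1 61 (.thr 3 60 (.thr 0 2 (.thr 17 51 (.dbl 33 45 49))))) (.nv (.thr 1 61 (.thr 5 53 (.thr 13 9 (.thr 33 45 (.dbl 49 17 25))))) (.nv (.thr 3 60 (.thr 23 20 (.thr 63 43 (.dbl 53 5 48)))) (.rp 50 (.str 14 (.nv (.thr 1 61 (.thr 3 60 (.thr 0 2 (.thr 17 51 (.dbl 33 45 49))))) (.nv (.thr 1 61 (.thr 5 53 (.thr 33 45 (.thr 49 17 (.dbl 13 9 25))))) (.nv (.thr 60 3 (.thr 52 7 (.thr 48 56 (.dbl 53 5 63)))) .nd)))) (.rp 14 (.str 50 (.nv (.thr 62 54 (.thr 60 3 (.dbl 61 1 63))) (.nv (.thr 52 7 (.thr 53 5 (.dbl 54 55 62)))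 (.nv (.thr 2 18 (.thr 3 60 (.dbl 1 0 61))) (.rp 62 (.str 30 (.nv (.thr 2 18 (.thr 1 61 (.dbl 3 0 60))) (.nv (.thr 45 33 (.dbl 60 3 15)) (.rp 60 (.thr 61 1 (.thr 53 5 (.thr 49 57 (.dbl 48 51 63)))) (.rp 3 (.thr 61 1 (.thr 53 5 (.thr 49 57 (.dbl 48 51 63)))) (.rp 2 (.str 6 (.nv (.thr 5 53 (.dbl 7 4 52)) (.nv (.thr 45 33 (.dbl 60 3 15)) .nd))) .nd)))))) (.rp 2 (.str 6 (.nv (.thr 62 54 (.thr 60 3 (.dbl 61 1 63))) (.nv (.thr 5 53 (.dbl 7 4 52)) (.rp 62 (.str 30 (.nv (.thr 5 53 (.dbl 7 4 52)) (.nv (.thr 45 33 (.dbl 60 3 15)) .nd))) .nd)))) .nd)))))) .nd)))))) (.rp 1 (.thr 53 5 (.thr 23 20 (.thr 3 60 (.thr 33 45 (.thr 48 18 (.dbl 63 43 58)))))) .nd)))))))))) (.rp 34 (.str 46 (.nv (.thr 45 33 (.thr 60 3 (.thr 30 15 (.thr 61 1 (.dbl 62 14 63))))) (.nv (.thr 3 60 (.thr 23 20 (.thr 33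 45 (.thr 48 18 (.thr 53 5 (.dbl 63 43 58)))))) (.nv (.thr 1 61 (.thr 3 60 (.thr 0 2 (.thr 7 52 (.thr 15 11 (.dbl 5 10 53)))))) (.nv (.thr 5 53 (.thr 1 61 (.thr 13 9 (.thr 33 45 (.dbl 49 17 25))))) (.rp 58 (.str 10 (.nv (.thr 1 61 (.thr 33 45 (.thr 49 17 (.thr 13 25 (.dbl 5 9 53))))) (.nv (.thr 20 23 (.thr 5 53 (.thr 0 15 (.dbl 60 3 40)))) (.rp 53 (.thr 20 23 (.thr 60 3 (.thr 0 40 (.thr 15 5 (.dbl 45 30 33))))) (.rp 50 (.str 14 (.nv (.thr 2 6 (.thr 3 60 (.dbl 1 0 61))) (.nv (.thr 5 53 (.thr 7 52 (.dbl 6 2 4))) (.nv (.thr 62 30 (.thr 60 3 (.dbl 61 1 63))) (.rp 62 (.str 54 (.nv (.thr 2 6 (.thr 1 61 (.dbl 3 0 60))) (.nv (.thr 53 5 (.dbl 52 7 55)) (.rp 2 (.str 18 (.nv (.thr 52 7 (.dbl 53 5 55)) (.nv (.thr 33 45 (.dbl 3 48 60)) .nd))) .nd)))) (.rp 2 (.str 18 (.nv (.thr 62 30 (.thr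 60 3 (.dbl 61 1 63))) (.nv (.thr 1 61 (.thr 5 53 (.thr 13 9 (.dbl 15 0 12)))) (.nv (.thr 33 45 (.dbl 3 48 60)) (.rp 62 (.str 54 (.nv (.thr 52 7 (.dbl 53 5 55)) (.nv (.thr 33 45 (.dbl 3 48 60)) .nd))) .nd))))) .nd)))))) (.rp 14 (.str 50 (.nv (.thr 1 61 (.thr 3 60 (.thr 33 45 (.thr 48 18 (.dbl 49 17 51))))) (.nv (.thr 1 61 (.thr 5 53 (.thr 13 9 (.thr 33 45 (.dbl 49 17 25))))) (.nv (.thr 3 60 (.thr 7 52 (.thr 15 11 (.dbl 5 0 53)))) (.rp 48 (.thr 1 61 (.thr 3 60 (.thr 0 2 (.dbl 5 15 53)))) .nd))))) (.rp 5 (.thr 60 3 (.thr 61 1 (.thr 63 62 (.thr 29 12 (.dbl 45 13 33))))) (.rp 0 (.thr 5 53 (.thr 1 61 (.thr 13 9 (.thr 33 45 (.dbl 49 17 25))))) .nd)))))))) (.rp 50 (.str 14 (.nv (.thr 45 33 (.thr 60 3 (.dbl 30 15 62))) (.nv (.thr 1 61 (.thr 5 53 (.thr 13 9 (.thr 33 45 (.dbl 49 17 25)))))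 (.nv (.thr 61 1 (.thr 62 30 (.dbl 60 3 63))) (.rp 58 (.str 10 (.nv (.thr 2 6 (.thr 3 60 (.dbl 1 0 61))) (.nv (.thr 5 53 (.thr 7 52 (.dbl 6 2 4))) (.nv (.thr 62 30 (.thr 60 3 (.dbl 61 1 63))) (.rp 62 (.str 54 (.nv (.thr 2 6 (.thr 1 61 (.dbl 3 0 60))) (.nv (.thr 53 5 (.dbl 52 7 55)) (.rp 2 (.str 18 (.nv (.thr 52 7 (.dbl 53 5 55)) (.nv (.thr 33 45 (.dbl 3 48 60)) .nd))) .nd)))) (.rp 2 (.str 18 (.nv (.thr 62 30 (.thr 60 3 (.dbl 61 1 63))) (.nv (.thr 1 61 (.thr 5 53 (.thr 13 9 (.dbl 15 0 12)))) (.nv (.thr 33 45 (.dbl 3 48 60)) (.rp 62 (.str 54 (.nv (.thr 52 7 (.dbl 53 5 55)) (.nv (.thr 33 45 (.dbl 3 48 60)) .nd))) .nd))))) .nd)))))) (.rp 18 (.str 2 (.nv (.thr 5 53 (.thr 7 52 (.dbl 6 4 10))) (.nv (.thr 1 61 (.dbl 3 0 60)) (.rp 58 (.thr 10 6 (.thr 1 61 (.dbl 3 0 60))) (.rp 10 (.str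 58 (.nv (.thr 30 62 (.thr 45 33 (.dbl 60 3 15))) (.nv (.thr 1 61 (.dbl 3 0 60)) (.rp 60 (.thr 5 53 (.thr 1 61 (.thr 13 9 (.thr 33 45 (.dbl 49 17 25))))) (.rp 3 (.thr 62 30 (.thr 53 5 (.thr 61 1 (.dbl 63 48 60)))) .nd))))) .nd))))) (.rp 10 (.str 58 (.nv (.thr 45 33 (.thr 60 3 (.dbl 30 15 62))) (.nv (.thr 1 61 (.thr 5 53 (.thr 13 9 (.thr 33 45 (.dbl 49 17 25))))) (.nv (.thr 61 1 (.thr 62 30 (.dbl 60 3 63))) (.rp 18 (.str 2 (.nv (.thr 30 62 (.thr 45 33 (.dbl 60 3 15))) (.nv (.thr 1 61 (.dbl 3 0 60)) (.rp 60 (.thr 5 53 (.thr 1 61 (.thr 13 9 (.thr 33 45 (.dbl 49 17 25))))) (.rp 3 (.thr 62 30 (.thr 53 5 (.thr 61 1 (.dbl 63 48 60)))) .nd))))) (.rp 2 (.str 18 (.nv (.thr 60 3 (.thr 62 30 (.dbl 61 1 63))) (.nv (.thr 33 45 (.dbl 3 48 60)) (.rp 60 (.thr 53 5 (.thr 33 45 (.dbl 48 3 63)))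 (.rp 3 (.thr 62 30 (.thr 53 5 (.thr 63 48 (.dbl 61 1 60)))) .nd))))) .nd)))))) (.rp 2 (.str 18 (.nv (.thr 60 3 (.thr 62 30 (.dbl 61 1 63))) (.nv (.thr 33 45 (.dbl 3 48 60)) (.rp 60 (.thr 45 33 (.thr 61 1 (.thr 13 29 (.thr 53 5 (.dbl 49 25 57))))) (.rp 58 (.str 10 (.nv (.thr 62 30 (.thr 60 3 (.dbl 61 1 63))) (.nv (.thr 1 61 (.thr 5 53 (.thr 13 9 (.dbl 15 0 12)))) (.nv (.thr 33 45 (.dbl 3 48 60)) (.rp 62 (.str 54 (.nv (.thr 52 7 (.dbl 53 5 55)) (.nv (.thr 33 45 (.dbl 3 48 60)) .nd))) .nd))))) (.rp 10 (.str 58 (.nv (.thr 60 3 (.thr 62 30 (.dbl 61 1 63))) (.nv (.thr 33 45 (.dbl 3 48 60)) (.rp 60 (.thr 53 5 (.thr 33 45 (.dbl 48 3 63))) (.rp 3 (.thr 62 30 (.thr 53 5 (.thr 63 48 (.dbl 61 1 60)))) .nd))))) (.rp 3 (.thr 45 33 (.thr 30 62 (.thr 15 60 (.thr 13 12 (.dbl 61 1 29))))) .nd)))))))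 .nd)))))))) (.rp 14 (.str 50 (.nv (.thr 60 3 (.thr 61 1 (.thr 63 62 (.thr 29 12 (.dbl 45 13 33))))) (.nv (.thr 53 5 (.thr 52 7 (.thr 60 3 (.thr 48 56 (.thr 51 49 (.dbl 54 55 57)))))) (.nv (.thr 33 45 (.thr 5 53 (.thr 1 61 (.thr 13 9 (.dbl 49 17 25))))) (.rp 58 (.str 10 (.nv (.thr 1 61 (.thr 3 60 (.thr 33 45 (.thr 48 18 (.dbl 49 17 51))))) (.nv (.thr 1 61 (.thr 5 53 (.thr 13 9 (.thr 33 45 (.dbl 49 17 25))))) (.nv (.thr 3 60 (.thr 7 52 (.thr 15 11 (.dbl 5 0 53)))) (.rp 48 (.thr 1 61 (.thr 3 60 (.thr 0 2 (.dbl 5 15 53)))) .nd))))) (.rp 10 (.str 58 (.nv (.thr 3 60 (.thr 23 20 (.thr 33 45 (.thr 48 18 (.dbl 63 43 53))))) (.nv (.thr 54 62 (.thr 52 7 (.dbl 53 5 55))) (.rp 53 (.thr 62 54 (.thr 60 3 (.dbl 61 1 63))) (.rp 6 (.str 2 (.nv (.thr 52 7 (.thr 54 62 (.dbl 53 5 55))) (.nv (.thr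 1 61 (.dbl 3 0 60)) .nd))) (.rp 2 (.str 6 (.nv (.thr 60 3 (.thr 62 54 (.dbl 61 1 63))) (.nv (.thr 5 53 (.dbl 7 4 52)) .nd))) .nd)))))) .nd)))))) (.rp 10 (.str 58 (.nv (.thr 23 20 (.thr 53 5 (.thr 3 60 (.dbl 63 43 48)))) (.nv (.thr 1 61 (.thr 5 53 (.thr 13 9 (.thr 33 45 (.dbl 49 17 25))))) (.nv (.thr 53 5 (.thr 48 63 (.thr 33 45 (.dbl 3 18 60)))) (.rp 53 (.thr 45 33 (.thr 60 3 (.thr 61 1 (.thr 63 62 (.dbl 29 12 13))))) (.rp 50 (.str 14 (.nv (.thr 45 33 (.thr 60 3 (.dbl 30 15 62))) (.nv (.thr 1 61 (.thr 5 53 (.thr 13 9 (.thr 33 45 (.dbl 49 17 25))))) (.nv (.thr 61 1 (.thr 62 30 (.dbl 60 3 63))) (.rp 18 (.str 2 (.nv (.thr 30 62 (.thr 45 33 (.dbl 60 3 15))) (.nv (.thr 1 61 (.dbl 3 0 60)) (.rp 60 (.thr 5 53 (.thr 1 61 (.thr 13 9 (.thr 33 45 (.dbl 49 17 25))))) (.rp 3 (.thr 62 30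 (.thr 53 5 (.thr 61 1 (.dbl 63 48 60)))) .nd))))) (.rp 2 (.str 18 (.nv (.thr 60 3 (.thr 62 30 (.dbl 61 1 63))) (.nv (.thr 33 45 (.dbl 3 48 60)) (.rp 60 (.thr 53 5 (.thr 33 45 (.dbl 48 3 63))) (.rp 3 (.thr 62 30 (.thr 53 5 (.thr 63 48 (.dbl 61 1 60)))) .nd))))) .nd)))))) (.rp 14 (.str 50 (.nv (.thr 3 60 (.thr 23 20 (.thr 33 45 (.thr 48 18 (.dbl 63 43 53))))) (.nv (.thr 54 62 (.thr 52 7 (.dbl 53 5 55))) (.rp 53 (.thr 62 54 (.thr 60 3 (.dbl 61 1 63))) (.rp 6 (.str 2 (.nv (.thr 52 7 (.thr 54 62 (.dbl 53 5 55))) (.nv (.thr 1 61 (.dbl 3 0 60)) .nd))) (.rp 2 (.str 6 (.nv (.thr 60 3 (.thr 62 54 (.dbl 61 1 63))) (.nv (.thr 5 53 (.dbl 7 4 52)) .nd))) .nd)))))) (.rp 5 (.thr 33 45 (.thr 23 20 (.thr 3 60 (.thr 48 18 (.dbl 63 43 53))))) .nd)))))))) .nd))))))))) (.rp 14 (.str 50 (.nv (.thr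 1 61 (.thr 3 60 (.thr 2 0 (.thr 33 45 (.dbl 18 34 48))))) (.nv (.thr 1 61 (.thr 3 60 (.thr 0 2 (.thr 7 52 (.thr 15 11 (.dbl 5 10 53)))))) (.nv (.thr 53 5 (.thr 61 1 (.thr 49 57 (.thr 45 33 (.dbl 13 25 29))))) (.rp 61 (.thr 53 5 (.thr 23 20 (.thr 3 60 (.thr 33 45 (.thr 48 18 (.dbl 63 43 58)))))) (.rp 58 (.str 10 (.nv (.thr 1 61 (.thr 3 60 (.thr 2 0 (.thr 33 45 (.dbl 18 34 48))))) (.nv (.thr 1 61 (.thr 33 45 (.thr 49 17 (.thr 13 25 (.dbl 5 9 53))))) (.nv (.thr 20 23 (.thr 60 3 (.thr 0 40 (.dbl 5 15 53)))) (.rp 46 (.str 34 (.nv (.thr 33 45 (.thr 18 2 (.dbl 3 48 60))) (.nv (.thr 1 61 (.thr 5 53 (.thr 13 9 (.thr 33 45 (.dbl 49 17 25))))) (.nv (.thr 1 61 (.thr 2 18 (.dbl 3 0 60))) (.rp 62 (.str 30 (.nv (.thr 1 61 (.thr 2 18 (.dbl 3 0 60))) (.nv (.thr 45 33 (.dbl 60 3 15)) (.rp 60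 (.thr 2 18 (.thr 5 53 (.thr 0 15 (.dbl 1 3 61)))) (.rp 3 (.thr 5 53 (.thr 45 33 (.dbl 15 0 60))) .nd))))) (.rp 30 (.str 62 (.nv (.thr 3 60 (.thr 18 2 (.dbl 33 45 48))) (.nv (.thr 61 1 (.dbl 60 3 63)) (.rp 60 (.thr 2 18 (.thr 5 53 (.thr 1 61 (.dbl 0 3 15)))) (.rp 3 (.thr 53 5 (.thr 61 1 (.thr 49 57 (.thr 45 33 (.dbl 13 25 29))))) .nd))))) .nd)))))) (.rp 34 (.str 46 (.nv (.thr 1 61 (.thr 3 60 (.thr 33 45 (.thr 48 18 (.dbl 49 17 51))))) (.nv (.thr 1 61 (.thr 5 53 (.thr 13 9 (.thr 33 45 (.dbl 49 17 25))))) (.nv (.thr 3 60 (.thr 7 52 (.thr 15 11 (.dbl 5 0 53)))) (.rp 48 (.thr 1 61 (.thr 3 60 (.thr 0 2 (.dbl 5 15 53)))) .nd))))) .nd)))))) (.rp 46 (.str 34 (.nv (.thr 33 45 (.thr 18 2 (.dbl 3 48 60))) (.nv (.thr 1 61 (.thr 5 53 (.thr 13 9 (.thr 33 45 (.dbl 49 17 25))))) (.nv (.thr 1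 61 (.thr 2 18 (.dbl 3 0 60))) (.rp 62 (.str 30 (.nv (.thr 1 61 (.thr 2 18 (.dbl 3 0 60))) (.nv (.thr 45 33 (.dbl 60 3 15)) (.rp 60 (.thr 33 45 (.thr 18 2 (.thr 48 3 (.thr 49 51 (.dbl 1 17 61))))) (.rp 58 (.str 10 (.nv (.thr 1 61 (.thr 2 18 (.dbl 3 0 60))) (.nv (.thr 45 33 (.dbl 60 3 15)) (.rp 60 (.thr 2 18 (.thr 5 53 (.thr 0 15 (.dbl 1 3 61)))) (.rp 3 (.thr 5 53 (.thr 45 33 (.dbl 15 0 60))) .nd))))) (.rp 10 (.str 58 (.nv (.thr 2 18 (.thr 1 61 (.dbl 3 0 60))) (.nv (.thr 45 33 (.dbl 60 3 15)) (.rp 60 (.thr 61 1 (.thr 53 5 (.thr 49 57 (.dbl 48 51 63)))) (.rp 3 (.thr 61 1 (.thr 53 5 (.thr 49 57 (.dbl 48 51 63)))) (.rp 2 (.str 6 (.nv (.thr 5 53 (.dbl 7 4 52)) (.nv (.thr 45 33 (.dbl 60 3 15)) .nd))) .nd)))))) (.rp 3 (.thr 33 45 (.thr 1 61 (.thr 49 17 (.thr 5 53 (.dbl 13 9 25)))))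 .nd))))))) (.rp 58 (.str 10 (.nv (.thr 33 45 (.thr 18 2 (.dbl 3 48 60))) (.nv (.thr 1 61 (.thr 5 53 (.thr 13 9 (.thr 33 45 (.dbl 49 17 25))))) (.nv (.thr 1 61 (.thr 2 18 (.dbl 3 0 60))) (.rp 62 (.str 30 (.nv (.thr 1 61 (.thr 2 18 (.dbl 3 0 60))) (.nv (.thr 45 33 (.dbl 60 3 15)) (.rp 60 (.thr 2 18 (.thr 5 53 (.thr 0 15 (.dbl 1 3 61)))) (.rp 3 (.thr 5 53 (.thr 45 33 (.dbl 15 0 60))) .nd))))) (.rp 30 (.str 62 (.nv (.thr 3 60 (.thr 18 2 (.dbl 33 45 48))) (.nv (.thr 61 1 (.dbl 60 3 63)) (.rp 60 (.thr 2 18 (.thr 5 53 (.thr 1 61 (.dbl 0 3 15)))) (.rp 3 (.thr 53 5 (.thr 61 1 (.thr 49 57 (.thr 45 33 (.dbl 13 25 29))))) .nd))))) .nd)))))) (.rp 30 (.str 62 (.nv (.thr 52 7 (.thr 53 5 (.dbl 54 55 58))) (.nv (.thr 61 1 (.dbl 60 3 63)) (.rp 58 (.str 10 (.nv (.thr 3 60 (.thr 18 2 (.dbl 33 45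 48))) (.nv (.thr 61 1 (.dbl 60 3 63)) (.rp 60 (.thr 2 18 (.thr 5 53 (.thr 1 61 (.dbl 0 3 15)))) (.rp 3 (.thr 53 5 (.thr 61 1 (.thr 49 57 (.thr 45 33 (.dbl 13 25 29))))) .nd))))) (.rp 10 (.thr 58 54 (.thr 61 1 (.dbl 60 3 63))) .nd))))) (.rp 10 (.str 58 (.nv (.thr 62 54 (.thr 60 3 (.dbl 61 1 63))) (.nv (.thr 52 7 (.thr 53 5 (.dbl 54 55 62))) (.nv (.thr 2 18 (.thr 3 60 (.dbl 1 0 61))) (.rp 62 (.str 30 (.nv (.thr 2 18 (.thr 1 61 (.dbl 3 0 60))) (.nv (.thr 45 33 (.dbl 60 3 15)) (.rp 60 (.thr 61 1 (.thr 53 5 (.thr 49 57 (.dbl 48 51 63)))) (.rp 3 (.thr 61 1 (.thr 53 5 (.thr 49 57 (.dbl 48 51 63)))) (.rp 2 (.str 6 (.nv (.thr 5 53 (.dbl 7 4 52)) (.nv (.thr 45 33 (.dbl 60 3 15)) .nd))) .nd)))))) (.rp 2 (.str 6 (.nv (.thr 62 54 (.thr 60 3 (.dbl 61 1 63))) (.nv (.thr 5 53 (.dbl 7 4 52))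 (.rp 62 (.str 30 (.nv (.thr 5 53 (.dbl 7 4 52)) (.nv (.thr 45 33 (.dbl 60 3 15)) .nd))) .nd)))) .nd)))))) .nd)))))))) (.rp 34 (.str 46 (.nv (.thr 60 3 (.thr 61 1 (.thr 63 62 (.thr 29 12 (.dbl 45 13 33))))) (.nv (.thr 53 5 (.thr 52 7 (.thr 60 3 (.thr 48 56 (.thr 51 49 (.dbl 54 55 57)))))) (.nv (.thr 33 45 (.thr 5 53 (.thr 1 61 (.thr 13 9 (.dbl 49 17 25))))) (.rp 58 (.str 10 (.nv (.thr 1 61 (.thr 3 60 (.thr 33 45 (.thr 48 18 (.dbl 49 17 51))))) (.nv (.thr 1 61 (.thr 5 53 (.thr 13 9 (.thr 33 45 (.dbl 49 17 25))))) (.nv (.thr 3 60 (.thr 7 52 (.thr 15 11 (.dbl 5 0 53)))) (.rp 48 (.thr 1 61 (.thr 3 60 (.thr 0 2 (.dbl 5 15 53)))) .nd))))) (.rp 10 (.str 58 (.nv (.thr 3 60 (.thr 23 20 (.thr 33 45 (.thr 48 18 (.dbl 63 43 53))))) (.nv (.thr 54 62 (.thr 52 7 (.dbl 53 5 55))) (.rp 53 (.thr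 62 54 (.thr 60 3 (.dbl 61 1 63))) (.rp 6 (.str 2 (.nv (.thr 52 7 (.thr 54 62 (.dbl 53 5 55))) (.nv (.thr 1 61 (.dbl 3 0 60)) .nd))) (.rp 2 (.str 6 (.nv (.thr 60 3 (.thr 62 54 (.dbl 61 1 63))) (.nv (.thr 5 53 (.dbl 7 4 52)) .nd))) .nd)))))) .nd)))))) (.rp 10 (.str 58 (.nv (.thr 3 60 (.thr 23 20 (.thr 53 5 (.dbl 63 43 48)))) (.nv (.thr 52 7 (.thr 54 62 (.dbl 53 5 55))) (.nv (.thr 60 3 (.thr 62 54 (.dbl 61 1 63))) (.rp 46 (.str 34 (.nv (.thr 62 54 (.thr 60 3 (.dbl 61 1 63))) (.nv (.thr 52 7 (.thr 53 5 (.dbl 54 55 62))) (.nv (.thr 2 18 (.thr 3 60 (.dbl 1 0 61))) (.rp 62 (.str 30 (.nv (.thr 2 18 (.thr 1 61 (.dbl 3 0 60))) (.nv (.thr 45 33 (.dbl 60 3 15)) (.rp 60 (.thr 61 1 (.thr 53 5 (.thr 49 57 (.dbl 48 51 63)))) (.rp 3 (.thr 61 1 (.thr 53 5 (.thr 49 57 (.dbl 48 51 63)))) (.rp 2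 (.str 6 (.nv (.thr 5 53 (.dbl 7 4 52)) (.nv (.thr 45 33 (.dbl 60 3 15)) .nd))) .nd)))))) (.rp 2 (.str 6 (.nv (.thr 62 54 (.thr 60 3 (.dbl 61 1 63))) (.nv (.thr 5 53 (.dbl 7 4 52)) (.rp 62 (.str 30 (.nv (.thr 5 53 (.dbl 7 4 52)) (.nv (.thr 45 33 (.dbl 60 3 15)) .nd))) .nd)))) .nd)))))) (.rp 34 (.str 46 (.nv (.thr 3 60 (.thr 23 20 (.thr 33 45 (.thr 48 18 (.dbl 63 43 53))))) (.nv (.thr 54 62 (.thr 52 7 (.dbl 53 5 55))) (.rp 53 (.thr 62 54 (.thr 60 3 (.dbl 61 1 63))) (.rp 6 (.str 2 (.nv (.thr 52 7 (.thr 54 62 (.dbl 53 5 55))) (.nv (.thr 1 61 (.dbl 3 0 60)) .nd))) (.rp 2 (.str 6 (.nv (.thr 60 3 (.thr 62 54 (.dbl 61 1 63))) (.nv (.thr 5 53 (.dbl 7 4 52)) .nd))) .nd)))))) (.rp 6 (.str 2 (.nv (.thr 52 7 (.thr 54 62 (.dbl 53 5 55))) (.nv (.thr 3 60 (.dbl 1 0 61)) (.rp 46 (.thr 34 18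 (.thr 3 60 (.dbl 1 0 61))) (.rp 34 (.str 46 (.nv (.thr 52 7 (.thr 54 62 (.dbl 53 5 55))) (.nv (.thr 1 61 (.dbl 3 0 60)) .nd))) .nd))))) (.rp 2 (.str 6 (.nv (.thr 60 3 (.thr 62 54 (.dbl 61 1 63))) (.nv (.thr 5 53 (.dbl 7 4 52)) (.rp 46 (.str 34 (.nv (.thr 62 54 (.thr 60 3 (.dbl 61 1 63))) (.nv (.thr 5 53 (.dbl 7 4 52)) (.rp 62 (.str 30 (.nv (.thr 5 53 (.dbl 7 4 52)) (.nv (.thr 45 33 (.dbl 60 3 15)) .nd))) .nd)))) (.rp 34 (.str 46 (.nv (.thr 60 3 (.thr 62 54 (.dbl 61 1 63))) (.nv (.thr 5 53 (.dbl 7 4 52)) .nd))) .nd))))) .nd)))))))) (.rp 1 (.thr 53 5 (.thr 23 20 (.thr 3 60 (.thr 33 45 (.thr 48 18 (.dbl 63 43 58)))))) .nd)))))))))) (.rp 10 (.str 58 (.nv (.thr 23 20 (.thr 53 5 (.thr 3 60 (.dbl 63 43 48)))) (.nv (.thr 1 61 (.thr 5 53 (.thr 13 9 (.thr 33 45 (.dbl 49 17 25))))) (.nv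 (.thr 33 45 (.thr 3 60 (.thr 48 18 (.dbl 53 5 63)))) (.rp 53 (.thr 52 7 (.thr 60 3 (.thr 56 48 (.thr 57 59 (.thr 54 51 (.thr 61 1 (.dbl 62 50 63))))))) (.rp 50 (.str 14 (.nv (.thr 1 61 (.thr 5 53 (.thr 13 9 (.thr 33 45 (.dbl 49 17 25))))) (.nv (.thr 23 20 (.thr 3 60 (.thr 63 43 (.dbl 53 5 48)))) (.rp 53 (.thr 45 33 (.thr 61 1 (.thr 13 29 (.thr 60 3 (.dbl 15 12 30))))) (.rp 46 (.str 34 (.nv (.thr 1 61 (.thr 3 60 (.thr 0 2 (.thr 17 51 (.dbl 33 45 49))))) (.nv (.thr 1 61 (.thr 5 53 (.thr 33 45 (.thr 49 17 (.dbl 13 9 25))))) (.nv (.thr 60 3 (.thr 52 7 (.thr 48 56 (.dbl 53 5 63)))) .nd)))) (.rp 34 (.str 46 (.nv (.thr 45 33 (.thr 60 3 (.dbl 30 15 62))) (.nv (.thr 1 61 (.thr 5 53 (.thr 13 9 (.thr 33 45 (.dbl 49 17 25))))) (.nv (.thr 61 1 (.thr 62 30 (.dbl 60 3 63))) (.rp 18 (.str 2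 (.nv (.thr 30 62 (.thr 45 33 (.dbl 60 3 15))) (.nv (.thr 1 61 (.dbl 3 0 60)) (.rp 60 (.thr 5 53 (.thr 1 61 (.thr 13 9 (.thr 33 45 (.dbl 49 17 25))))) (.rp 3 (.thr 62 30 (.thr 53 5 (.thr 61 1 (.dbl 63 48 60)))) .nd))))) (.rp 2 (.str 18 (.nv (.thr 60 3 (.thr 62 30 (.dbl 61 1 63))) (.nv (.thr 33 45 (.dbl 3 48 60)) (.rp 60 (.thr 53 5 (.thr 33 45 (.dbl 48 3 63))) (.rp 3 (.thr 62 30 (.thr 53 5 (.thr 63 48 (.dbl 61 1 60)))) .nd))))) .nd)))))) (.rp 5 (.thr 45 33 (.thr 61 1 (.thr 13 29 (.thr 60 3 (.dbl 15 12 30))))) .nd))))))) (.rp 46 (.str 34 (.nv (.thr 1 61 (.thr 3 60 (.thr 0 2 (.thr 17 51 (.dbl 33 45 49))))) (.nv (.thr 1 61 (.thr 5 53 (.thr 13 9 (.thr 33 45 (.dbl 49 17 25))))) (.nv (.thr 3 60 (.thr 23 20 (.thr 63 43 (.dbl 53 5 48)))) (.rp 50 (.str 14 (.nv (.thr 1 61 (.thr 3 60 (.thr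 0 2 (.thr 17 51 (.dbl 33 45 49))))) (.nv (.thr 1 61 (.thr 5 53 (.thr 33 45 (.thr 49 17 (.dbl 13 9 25))))) (.nv (.thr 60 3 (.thr 52 7 (.thr 48 56 (.dbl 53 5 63)))) .nd)))) (.rp 14 (.str 50 (.nv (.thr 62 54 (.thr 60 3 (.dbl 61 1 63))) (.nv (.thr 52 7 (.thr 53 5 (.dbl 54 55 62))) (.nv (.thr 2 18 (.thr 3 60 (.dbl 1 0 61))) (.rp 62 (.str 30 (.nv (.thr 2 18 (.thr 1 61 (.dbl 3 0 60))) (.nv (.thr 45 33 (.dbl 60 3 15)) (.rp 60 (.thr 61 1 (.thr 53 5 (.thr 49 57 (.dbl 48 51 63)))) (.rp 3 (.thr 61 1 (.thr 53 5 (.thr 49 57 (.dbl 48 51 63)))) (.rp 2 (.str 6 (.nv (.thr 5 53 (.dbl 7 4 52)) (.nv (.thr 45 33 (.dbl 60 3 15)) .nd))) .nd)))))) (.rp 2 (.str 6 (.nv (.thr 62 54 (.thr 60 3 (.dbl 61 1 63))) (.nv (.thr 5 53 (.dbl 7 4 52)) (.rp 62 (.str 30 (.nv (.thr 5 53 (.dbl 7 4 52)) (.nv (.thr 45 33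 (.dbl 60 3 15)) .nd))) .nd)))) .nd)))))) .nd)))))) (.rp 34 (.str 46 (.nv (.thr 23 20 (.thr 53 5 (.thr 3 60 (.dbl 63 43 48)))) (.nv (.thr 1 61 (.thr 5 53 (.thr 13 9 (.thr 33 45 (.dbl 49 17 25))))) (.nv (.thr 53 5 (.thr 48 63 (.thr 33 45 (.dbl 3 18 60)))) (.rp 53 (.thr 45 33 (.thr 60 3 (.thr 61 1 (.thr 63 62 (.dbl 29 12 13))))) (.rp 50 (.str 14 (.nv (.thr 45 33 (.thr 60 3 (.dbl 30 15 62))) (.nv (.thr 1 61 (.thr 5 53 (.thr 13 9 (.thr 33 45 (.dbl 49 17 25))))) (.nv (.thr 61 1 (.thr 62 30 (.dbl 60 3 63))) (.rp 18 (.str 2 (.nv (.thr 30 62 (.thr 45 33 (.dbl 60 3 15))) (.nv (.thr 1 61 (.dbl 3 0 60)) (.rp 60 (.thr 5 53 (.thr 1 61 (.thr 13 9 (.thr 33 45 (.dbl 49 17 25))))) (.rp 3 (.thr 62 30 (.thr 53 5 (.thr 61 1 (.dbl 63 48 60)))) .nd))))) (.rp 2 (.str 18 (.nv (.thr 60 3 (.thr 62 30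 (.dbl 61 1 63))) (.nv (.thr 33 45 (.dbl 3 48 60)) (.rp 60 (.thr 53 5 (.thr 33 45 (.dbl 48 3 63))) (.rp 3 (.thr 62 30 (.thr 53 5 (.thr 63 48 (.dbl 61 1 60)))) .nd))))) .nd)))))) (.rp 14 (.str 50 (.nv (.thr 3 60 (.thr 23 20 (.thr 33 45 (.thr 48 18 (.dbl 63 43 53))))) (.nv (.thr 54 62 (.thr 52 7 (.dbl 53 5 55))) (.rp 53 (.thr 62 54 (.thr 60 3 (.dbl 61 1 63))) (.rp 6 (.str 2 (.nv (.thr 52 7 (.thr 54 62 (.dbl 53 5 55))) (.nv (.thr 1 61 (.dbl 3 0 60)) .nd))) (.rp 2 (.str 6 (.nv (.thr 60 3 (.thr 62 54 (.dbl 61 1 63))) (.nv (.thr 5 53 (.dbl 7 4 52)) .nd))) .nd)))))) (.rp 5 (.thr 33 45 (.thr 23 20 (.thr 3 60 (.thr 48 18 (.dbl 63 43 53))))) .nd)))))))) (.rp 14 (.str 50 (.nv (.thr 3 60 (.thr 23 20 (.thr 53 5 (.dbl 63 43 48)))) (.nv (.thr 52 7 (.thr 54 62 (.dbl 53 5 55))) (.nv (.thr 60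 3 (.thr 62 54 (.dbl 61 1 63))) (.rp 46 (.str 34 (.nv (.thr 62 54 (.thr 60 3 (.dbl 61 1 63))) (.nv (.thr 52 7 (.thr 53 5 (.dbl 54 55 62))) (.nv (.thr 2 18 (.thr 3 60 (.dbl 1 0 61))) (.rp 62 (.str 30 (.nv (.thr 2 18 (.thr 1 61 (.dbl 3 0 60))) (.nv (.thr 45 33 (.dbl 60 3 15)) (.rp 60 (.thr 61 1 (.thr 53 5 (.thr 49 57 (.dbl 48 51 63)))) (.rp 3 (.thr 61 1 (.thr 53 5 (.thr 49 57 (.dbl 48 51 63)))) (.rp 2 (.str 6 (.nv (.thr 5 53 (.dbl 7 4 52)) (.nv (.thr 45 33 (.dbl 60 3 15)) .nd))) .nd)))))) (.rp 2 (.str 6 (.nv (.thr 62 54 (.thr 60 3 (.dbl 61 1 63))) (.nv (.thr 5 53 (.dbl 7 4 52)) (.rp 62 (.str 30 (.nv (.thr 5 53 (.dbl 7 4 52)) (.nv (.thr 45 33 (.dbl 60 3 15)) .nd))) .nd)))) .nd)))))) (.rp 34 (.str 46 (.nv (.thr 3 60 (.thr 23 20 (.thr 33 45 (.thr 48 18 (.dbl 63 43 53))))) (.nv (.thr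 54 62 (.thr 52 7 (.dbl 53 5 55))) (.rp 53 (.thr 62 54 (.thr 60 3 (.dbl 61 1 63))) (.rp 6 (.str 2 (.nv (.thr 52 7 (.thr 54 62 (.dbl 53 5 55))) (.nv (.thr 1 61 (.dbl 3 0 60)) .nd))) (.rp 2 (.str 6 (.nv (.thr 60 3 (.thr 62 54 (.dbl 61 1 63))) (.nv (.thr 5 53 (.dbl 7 4 52)) .nd))) .nd)))))) (.rp 6 (.str 2 (.nv (.thr 52 7 (.thr 54 62 (.dbl 53 5 55))) (.nv (.thr 3 60 (.dbl 1 0 61)) (.rp 46 (.thr 34 18 (.thr 3 60 (.dbl 1 0 61))) (.rp 34 (.str 46 (.nv (.thr 52 7 (.thr 54 62 (.dbl 53 5 55))) (.nv (.thr 1 61 (.dbl 3 0 60)) .nd))) .nd))))) (.rp 2 (.str 6 (.nv (.thr 60 3 (.thr 62 54 (.dbl 61 1 63))) (.nv (.thr 5 53 (.dbl 7 4 52)) (.rp 46 (.str 34 (.nv (.thr 62 54 (.thr 60 3 (.dbl 61 1 63))) (.nv (.thr 5 53 (.dbl 7 4 52)) (.rp 62 (.str 30 (.nv (.thr 5 53 (.dbl 7 4 52)) (.nv (.thr 45 33 (.dbl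 60 3 15)) .nd))) .nd)))) (.rp 34 (.str 46 (.nv (.thr 60 3 (.thr 62 54 (.dbl 61 1 63))) (.nv (.thr 5 53 (.dbl 7 4 52)) .nd))) .nd))))) .nd)))))))) (.rp 5 (.thr 23 20 (.thr 3 60 (.thr 63 43 (.thr 48 53 (.dbl 33 18 45))))) .nd)))))))))) (.rp 5 (.thr 3 60 (.thr 1 61 (.thr 33 45 (.thr 17 49 (.thr 18 48 (.thr 19 16 (.dbl 25 28 29))))))) .nd))))))))))))

theorem w542 : WinAt (137445244928, 4672991526912) :=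
  chF (K := []) kn c542 137445244928 4672991526912 38
    [75058848464896, 1126174851874816, 288234774265332736] (by decide +kernel) (by decide +kernel)

/-- A certificate. -/
noncomputable def c543 : Ct := (.str 41 (.nv (.thr 1 61 (.thr 3 60 (.thr 0 2 (.thr 33 45 (.thr 48 18 (.thr 32 16 (.thr 34 35 (.dbl 17 49 51)))))))) (.nv (.thr 1 61 (.thr 7 52 (.thr 55 39 (.thr 4 38 (.thr 5 6 (.thr 33 45 (.thr 49 17 (.dbl 13 9 25)))))))) (.nv (.thr 3 60 (.thr 7 52 (.thr 15 11 (.thr 63 43 (.thr 31 47 (.thr 27 19 (.dbl 39 51 55))))))) (.rp 58 (.str 10 (.nv (.thr 1 61 (.thr 3 60 (.thr 0 2 (.thr 5 15 (.thr 13 9 (.thr 49 25 (.dbl 33 17 45))))))) (.nv (.thr 3 60 (.thr 7 52 (.thr 15 11 (.thr 55 39 (.thr 4 38 (.dbl 5 0 6)))))) (.nv (.thr 1 61 (.thr 3 60 (.thr 0 2 (.thr 15 5 (.dbl 7 11 52))))) (.rp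 63 (.str 48 (.nv (.thr 33 45 (.dbl 3 18 60)) (.nv (.thr 52 7 (.dbl 60 3 56)) (.rp 60 (.thr 7 52 (.thr 33 45 (.thr 3 18 (.thr 15 11 (.thr 0 5 (.dbl 1 2 61)))))) (.rp 3 (.thr 7 52 (.thr 55 39 (.thr 4 38 (.thr 5 6 (.thr 33 45 (.thr 1 61 (.thr 49 17 (.dbl 13 9 25)))))))) .nd))))) (.rp 60 (.thr 7 52 (.thr 55 39 (.thr 4 38 (.thr 5 6 (.thr 1 61 (.thr 13 9 (.thr 33 45 (.dbl 49 17 25)))))))) (.rp 48 (.str 63 (.nv (.dbl 3 43 60) (.rp 60 (.thr 3 43 (.thr 1 61 (.thr 0 2 (.thr 15 5 (.dbl 7 11 52))))) (.rp 43 (.thr 60 3 (.dbl 61 1 62)) (.rp 3 (.thr 7 52 (.thr 55 39 (.thr 4 38 (.thr 5 6 (.thr 1 61 (.thr 9 13 (.thr 8 11 (.dbl 0 12 15)))))))) .nd))))) (.rp 15 (.thr 7 52 (.thr 55 39 (.thr 4 38 (.thr 6 5 (.thr 3 60 (.thr 1 61 (.dbl 2 0 14))))))) (.rp 5 (.thr 7 52 (.thr 55 39 (.thr 3 60 (.thr 11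 15 (.thr 9 8 (.thr 6 12 (.dbl 38 4 54))))))) (.rp 3 (.thr 7 52 (.thr 55 39 (.thr 4 38 (.thr 5 6 (.thr 1 61 (.thr 9 13 (.thr 8 11 (.dbl 0 12 15)))))))) (.rp 0 (.thr 7 52 (.thr 55 39 (.thr 4 38 (.thr 5 6 (.thr 1 61 (.thr 13 9 (.thr 33 45 (.dbl 49 17 25)))))))) .nd))))))))))) (.rp 10 (.str 58 (.nv (.thr 3 60 (.thr 7 52 (.thr 15 11 (.thr 63 43 (.thr 31 47 (.thr 27 19 (.dbl 39 51 55))))))) (.nv (.thr 1 61 (.thr 3 60 (.thr 0 2 (.thr 33 45 (.thr 48 18 (.thr 32 16 (.thr 34 35 (.dbl 17 49 51)))))))) (.nv (.thr 1 61 (.thr 7 52 (.thr 33 45 (.thr 49 17 (.thr 13 25 (.thr 5 9 (.thr 55 39 (.dbl 4 6 38)))))))) (.nv (.thr 1 61 (.thr 33 45 (.thr 49 17 (.thr 52 7 (.thr 60 3 (.thr 56 48 (.thr 57 59 (.dbl 25 9 13)))))))) (.nv (.thr 7 52 (.thr 55 39 (.thr 61 1 (.thr 60 3 (.thr 62 63 (.thr 54 50 (.dbl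 38 4 6))))))) .nd)))))) .nd))))))

theorem w543 : WinAt (137453633536, 9011597369409536) :=
  chF (K := []) kn c543 137453633536 9011597369409536 20
    [288234774265332736] (by decide +kernel) (by decide +kernel)

/-- A certificate. -/
noncomputable def c544 : Ct := (.str 22 (.nv (.thr 20 23 (.thr 53 5 (.thr 52 7 (.thr 55 54 (.dbl 4 36 38))))) (.rp 58 (.str 10 (.nv (.thr 5 53 (.thr 7 52 (.thr 6 4 (.thr 14 2 (.thr 15 0 (.thr 3 11 (.dbl 12 9 13))))))) (.nv (.thr 20 23 (.thr 52 7 (.thr 4 36 (.thr 53 5 (.dbl 55 38 54))))) (.rp 55 (.thr 20 23 (.thr 5 53 (.thr 0 15 (.thr 60 40 (.thr 41 3 (.thr 33 45 (.thr 1 61 (.thr 49 17 (.dbl 13 9 25))))))))) (.rp 54 (.thr 23 20 (.thr 5 53 (.thr 7 52 (.thr 55 39 (.dbl 4 6 38))))) (.rp 53 (.thr 52 7 (.str 48 (.nv (.thr 20 23 (.thr 60 56 (.thr 0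 40 (.thr 16 32 (.thr 24 28 (.dbl 36 4 12)))))) (.nv (.thr 20 23 (.thr 36 4 (.thr 24 12 (.thr 16 28 (.thr 0 32 (.dbl 60 40 56)))))) (.nv (.thr 60 56 (.thr 41 3 (.thr 45 33 (.thr 15 30 (.thr 0 5 (.dbl 20 23 40)))))) (.rp 60 (.thr 20 23 (.thr 36 4 (.thr 24 12 (.thr 28 16 (.thr 25 19 (.thr 49 13 (.thr 51 50 (.thr 17 29 (.thr 0 34 (.thr 1 33 (.thr 2 3 (.thr 15 5 (.thr 6 14 (.dbl 38 39 54)))))))))))))) (.rp 56 (.thr 20 23 (.thr 36 4 (.thr 24 12 (.thr 16 28 (.thr 0 32 (.thr 60 40 (.thr 41 3 (.thr 45 33 (.dbl 15 5 30))))))))) (.rp 40 (.thr 20 23 (.thr 36 4 (.thr 24 12 (.thr 16 28 (.thr 0 32 (.thr 60 56 (.thr 41 3 (.thr 45 33 (.dbl 15 5 30))))))))) (.rp 23 (.thr 60 56 (.thr 41 3 (.thr 45 33 (.thr 61 1 (.thr 13 29 (.thr 15 30 (.thr 12 14 (.thr 28 44 (.dbl 25 19 49))))))))) (.rp 20 (.thr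 60 56 (.thr 41 3 (.thr 45 33 (.thr 61 1 (.thr 13 29 (.thr 15 30 (.thr 12 14 (.thr 28 44 (.dbl 25 19 49))))))))) (.rp 4 (.thr 20 23 (.thr 60 56 (.thr 41 3 (.thr 45 33 (.thr 0 40 (.dbl 15 5 30)))))) (.rp 0 (.thr 20 23 (.thr 36 4 (.thr 12 24 (.thr 60 56 (.thr 41 3 (.thr 44 28 (.dbl 38 35 39))))))) .nd)))))))))))) (.rp 52 (.thr 20 23 (.thr 5 53 (.thr 0 15 (.thr 60 40 (.thr 41 3 (.thr 33 45 (.thr 1 61 (.thr 49 17 (.dbl 13 9 25))))))))) (.rp 36 (.thr 23 20 (.thr 5 53 (.thr 7 52 (.thr 4 6 (.dbl 55 38 39))))) (.rp 20 (.thr 5 53 (.thr 7 52 (.thr 4 6 (.thr 55 38 (.thr 39 23 (.thr 15 0 (.thr 3 11 (.thr 51 27 (.thr 19 35 (.thr 25 28 (.thr 13 49 (.thr 1 9 (.dbl 41 60 61))))))))))))) (.rp 7 (.str 3 (.nv (.thr 5 53 (.thr 41 60 (.thr 1 61 (.thr 13 9 (.thr 49 25 (.dbl 33 17 45)))))) (.nv (.thr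 5 53 (.thr 0 15 (.thr 1 2 (.thr 9 13 (.thr 12 6 (.dbl 8 4 11)))))) (.nv (.thr 5 53 (.thr 0 15 (.thr 1 2 (.dbl 41 60 61)))) (.rp 63 (.thr 53 5 (.thr 41 60 (.thr 45 33 (.thr 61 1 (.thr 49 57 (.dbl 13 25 29)))))) (.rp 53 (.thr 41 60 (.thr 33 45 (.thr 1 61 (.thr 0 2 (.thr 49 17 (.thr 13 25 (.dbl 5 9 15))))))) (.rp 48 (.thr 41 60 (.thr 1 61 (.thr 0 2 (.dbl 5 15 53)))) (.rp 5 (.thr 41 60 (.thr 33 45 (.thr 18 48 (.thr 1 61 (.thr 17 49 (.thr 19 16 (.dbl 25 28 29))))))) (.rp 1 (.thr 20 23 (.thr 5 53 (.thr 0 15 (.dbl 60 40 41)))) .nd))))))))) (.rp 5 (.thr 7 52 (.str 3 (.nv (.thr 23 20 (.thr 39 55 (.thr 11 15 (.thr 9 8 (.thr 6 12 (.dbl 38 36 54)))))) (.nv (.thr 15 11 (.thr 23 20 (.thr 39 55 (.thr 27 51 (.thr 63 43 (.dbl 31 19 47)))))) (.nv (.thr 11 15 (.thr 9 8 (.thr 41 60 (.thr 45 33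 (.thr 61 1 (.thr 13 29 (.dbl 25 49 57))))))) (.rp 15 (.thr 23 20 (.thr 55 39 (.thr 63 43 (.thr 51 59 (.thr 35 19 (.thr 41 60 (.dbl 38 4 44))))))) (.rp 11 (.thr 23 20 (.thr 39 55 (.thr 43 63 (.thr 35 47 (.thr 41 60 (.dbl 38 36 44)))))) .nd))))))) (.rp 4 (.thr 20 23 (.thr 5 53 (.thr 0 15 (.thr 60 40 (.thr 41 3 (.thr 33 45 (.thr 1 61 (.thr 49 17 (.dbl 13 9 25))))))))) .nd)))))))))))) (.rp 55 (.thr 7 52 (.thr 53 5 (.str 41 (.nv (.thr 3 60 (.thr 23 20 (.thr 33 45 (.thr 48 18 (.dbl 63 43 58))))) (.nv (.thr 45 33 (.thr 61 1 (.thr 13 29 (.dbl 49 25 57)))) (.rp 58 (.str 10 (.nv (.thr 1 61 (.thr 3 60 (.thr 2 0 (.thr 6 14 (.thr 9 12 (.dbl 11 8 15)))))) (.nv (.thr 45 33 (.thr 61 1 (.thr 13 29 (.dbl 49 25 57)))) (.rp 61 (.thr 3 60 (.thr 11 15 (.thr 9 8 (.thr 25 57 (.thr 12 6 (.thr 19 28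 (.dbl 51 35 38))))))) (.rp 13 (.thr 3 60 (.thr 11 15 (.thr 9 8 (.thr 61 1 (.dbl 57 25 49))))) (.rp 1 (.thr 3 60 (.thr 11 15 (.thr 9 8 (.thr 25 57 (.thr 12 6 (.thr 19 28 (.dbl 51 35 38))))))) .nd)))))) (.rp 45 (.thr 61 1 (.thr 57 49 (.thr 60 3 (.thr 51 54 (.thr 20 23 (.thr 0 40 (.thr 17 34 (.dbl 25 9 29)))))))) (.rp 33 (.thr 61 1 (.thr 49 57 (.thr 13 25 (.thr 29 45 (.thr 3 60 (.thr 15 11 (.thr 12 14 (.thr 63 46 (.dbl 23 20 43))))))))) (.rp 10 (.str 58 (.nv (.thr 23 20 (.thr 3 60 (.dbl 63 43 48))) (.nv (.thr 45 33 (.thr 61 1 (.thr 13 29 (.dbl 49 25 57)))) (.nv (.thr 33 45 (.thr 3 60 (.dbl 48 18 63))) (.rp 15 (.str 0 (.nv (.thr 45 33 (.thr 61 1 (.thr 13 29 (.dbl 49 25 57)))) (.nv (.thr 20 23 (.dbl 60 3 40)) .nd))) (.rp 0 (.str 15 (.nv (.dbl 3 11 60) (.rp 60 (.thr 3 11 (.thr 33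 45 (.dbl 48 18 63))) (.rp 11 (.thr 45 33 (.dbl 60 3 30)) (.rp 3 (.thr 63 48 (.thr 31 47 (.thr 23 20 (.thr 19 27 (.thr 25 28 (.thr 49 13 (.dbl 61 1 57))))))) .nd))))) .nd)))))) .nd))))))))) (.rp 54 (.thr 23 20 (.thr 5 53 (.thr 7 52 (.thr 55 39 (.dbl 4 6 38))))) (.rp 53 (.thr 23 20 .ext) (.rp 52 (.thr 20 23 (.str 41 (.nv (.thr 5 53 (.thr 45 33 (.thr 60 3 (.thr 0 40 (.dbl 15 10 30))))) (.nv (.thr 45 33 (.thr 53 5 (.thr 61 1 (.thr 13 29 (.dbl 49 25 57))))) (.rp 58 (.str 10 (.nv (.thr 1 61 (.thr 33 45 (.thr 49 17 (.thr 13 25 (.dbl 5 9 53))))) (.nv (.thr 60 3 (.thr 0 40 (.dbl 5 15 53))) (.rp 53 (.thr 45 33 (.thr 60 3 (.thr 0 40 (.dbl 15 5 30)))) (.rp 5 (.thr 33 45 (.thr 1 61 (.thr 17 49 (.thr 60 3 (.thr 0 40 (.thr 51 34 (.thr 57 54 (.dbl 25 9 29)))))))) .nd))))) (.rp 53 (.thr 45 33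 (.thr 61 1 (.thr 29 13 (.thr 60 3 (.thr 30 15 (.thr 28 31 (.dbl 25 17 19))))))) (.rp 45 (.thr 53 5 (.thr 61 1 (.thr 57 49 (.thr 60 3 (.thr 0 40 (.thr 51 54 (.thr 17 34 (.dbl 25 9 29)))))))) (.rp 33 (.thr 5 53 (.thr 1 61 (.thr 9 13 (.thr 3 60 (.thr 6 12 (.thr 4 7 (.dbl 38 54 55))))))) (.rp 10 (.str 58 (.nv (.thr 53 5 (.thr 60 3 (.thr 61 1 (.dbl 63 48 62)))) (.nv (.thr 1 61 (.thr 5 53 (.thr 13 9 (.thr 33 45 (.dbl 49 17 25))))) (.nv (.thr 33 45 (.thr 3 60 (.thr 48 18 (.dbl 53 5 63)))) (.rp 53 (.thr 60 3 (.thr 61 1 (.thr 45 33 (.thr 29 13 (.thr 30 15 (.thr 28 31 (.dbl 25 17 19))))))) (.rp 5 (.thr 60 3 (.thr 61 1 (.thr 63 62 (.thr 53 48 (.thr 49 57 (.thr 13 25 (.dbl 45 29 33))))))) .nd)))))) (.rp 5 (.thr 33 45 (.thr 1 61 (.thr 17 49 (.thr 60 3 (.thr 0 40 (.thr 51 34 (.thr 57 54 (.dbl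 25 9 29)))))))) .nd)))))))))) (.rp 38 .ext (.rp 36 (.thr 23 20 (.thr 5 53 (.thr 7 52 (.thr 4 6 (.dbl 55 38 39))))) (.rp 23 (.thr 53 5 (.str 41 (.nv (.thr 52 7 (.thr 60 3 (.thr 48 56 (.thr 61 1 (.dbl 63 58 62))))) (.nv (.thr 45 33 (.thr 61 1 (.thr 13 29 (.dbl 49 25 57)))) (.rp 61 (.thr 60 3 (.thr 52 7 (.thr 55 54 (.thr 4 38 (.thr 36 20 (.thr 48 56 (.thr 12 24 (.thr 28 44 (.thr 25 19 (.thr 29 17 (.dbl 63 46 58))))))))))) (.rp 58 (.str 10 (.nv (.thr 1 61 (.thr 3 60 (.thr 2 0 (.thr 6 14 (.thr 52 7 (.dbl 54 38 55)))))) (.nv (.thr 45 33 (.thr 61 1 (.thr 13 29 (.dbl 49 25 57)))) (.rp 61 (.thr 7 52 (.thr 3 60 (.thr 11 15 (.thr 9 8 (.thr 25 57 (.thr 12 6 (.thr 19 28 (.dbl 51 35 38)))))))) (.rp 1 (.thr 7 52 (.thr 3 60 (.thr 11 15 (.thr 9 8 (.thr 25 57 (.thr 12 6 (.thr 19 28 (.dbl 51 35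 38)))))))) .nd))))) (.rp 13 (.thr 33 45 (.thr 3 60 (.thr 52 7 (.thr 55 54 (.thr 4 38 (.thr 36 20 (.thr 48 18 (.thr 12 24 (.thr 0 8 (.dbl 1 2 61)))))))))) (.rp 10 (.str 58 (.nv (.thr 48 63 (.thr 52 7 (.dbl 60 3 56))) (.nv (.thr 45 33 (.thr 61 1 (.thr 13 29 (.dbl 49 25 57)))) (.nv (.thr 33 45 (.thr 48 63 (.dbl 3 18 60))) (.rp 15 (.str 0 (.nv (.thr 33 45 (.thr 48 63 (.dbl 3 18 60))) (.nv (.thr 45 33 (.thr 61 1 (.thr 13 29 (.dbl 49 25 57)))) (.nv (.thr 1 61 (.dbl 3 2 60)) .nd)))) (.rp 0 (.str 15 (.nv (.thr 3 60 (.dbl 7 11 52)) (.nv (.thr 45 33 (.dbl 60 3 30)) (.rp 60 (.thr 45 33 (.thr 61 1 (.thr 49 57 (.dbl 13 25 29)))) (.rp 3 (.thr 45 33 (.thr 60 30 (.thr 52 7 (.dbl 48 56 63)))) .nd))))) .nd)))))) (.rp 1 (.thr 60 3 (.thr 52 7 (.thr 55 54 (.thr 4 38 (.thr 36 20 (.thr 48 56 (.thr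 12 24 (.thr 28 44 (.thr 25 19 (.thr 29 17 (.dbl 63 46 58))))))))))) .nd))))))))) (.rp 20 (.thr 5 53 (.str 41 (.nv (.thr 1 61 (.thr 3 60 (.thr 0 2 (.thr 7 52 (.dbl 15 10 11))))) (.nv (.thr 33 45 (.thr 1 61 (.thr 49 17 (.dbl 13 9 25)))) (.rp 61 (.thr 3 60 (.thr 7 52 (.thr 4 6 (.thr 55 38 (.thr 39 23 (.thr 15 11 (.thr 51 27 (.thr 19 35 (.thr 25 28 (.thr 17 29 (.dbl 0 10 34))))))))))) (.rp 58 (.str 10 (.nv (.thr 0 15 (.thr 1 61 (.dbl 3 2 60))) (.nv (.thr 1 61 (.thr 13 9 (.thr 33 45 (.dbl 49 17 25)))) (.nv (.thr 45 33 (.thr 15 0 (.dbl 60 3 30))) (.rp 63 (.str 48 (.nv (.thr 52 7 (.dbl 60 3 56)) (.nv (.thr 33 45 (.dbl 3 18 60)) (.rp 60 (.thr 33 45 (.thr 3 18 (.thr 7 52 (.dbl 15 0 11)))) (.rp 3 (.thr 33 45 (.thr 1 61 (.thr 13 9 (.dbl 49 17 25)))) .nd))))) (.rp 48 (.str 63 (.nv (.thr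 7 52 (.thr 15 0 (.dbl 3 11 60))) (.nv (.thr 1 61 (.thr 13 9 (.thr 33 45 (.dbl 49 17 25)))) (.nv (.thr 61 1 (.dbl 60 3 62)) .nd)))) .nd)))))) (.rp 49 (.thr 45 33 (.thr 60 3 (.thr 7 52 (.thr 4 6 (.thr 55 38 (.thr 39 23 (.thr 15 30 (.thr 51 27 (.thr 63 59 (.dbl 61 1 62)))))))))) (.rp 10 (.str 58 (.nv (.thr 1 61 (.thr 3 60 (.thr 7 52 (.thr 9 13 (.dbl 6 4 12))))) (.nv (.thr 33 45 (.thr 1 61 (.thr 49 17 (.dbl 13 9 25)))) (.rp 61 (.thr 52 7 (.thr 60 3 (.thr 56 48 (.thr 57 59 (.thr 25 9 (.thr 51 54 (.thr 28 19 (.dbl 12 38 44)))))))) (.rp 49 (.thr 52 7 (.thr 60 3 (.thr 56 48 (.thr 57 59 (.thr 1 61 (.dbl 9 13 25)))))) (.rp 45 (.thr 52 7 (.thr 60 3 (.thr 56 48 (.thr 57 59 (.thr 1 61 (.dbl 9 13 25)))))) (.rp 29 (.thr 1 61 (.thr 33 45 (.thr 13 9 (.dbl 49 17 25)))) (.rp 13 (.thr 7 52 (.thr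 60 3 (.thr 61 1 (.thr 62 63 (.thr 54 50 (.dbl 6 4 38)))))) (.rp 9 (.thr 7 52 (.thr 60 3 (.thr 61 1 (.thr 62 63 (.thr 54 50 (.dbl 6 4 38)))))) (.rp 1 (.thr 52 7 (.thr 60 3 (.thr 56 48 (.thr 57 59 (.thr 25 9 (.thr 51 54 (.thr 28 19 (.dbl 12 38 44)))))))) .nd)))))))))) (.rp 1 (.thr 3 60 (.thr 7 52 (.thr 4 6 (.thr 55 38 (.thr 39 23 (.thr 15 11 (.thr 51 27 (.thr 19 35 (.thr 25 28 (.thr 17 29 (.dbl 0 10 34))))))))))) .nd))))))))) (.rp 10 (.str 58 (.nv (.thr 52 7 (.thr 53 5 (.thr 48 63 (.thr 54 55 (.thr 50 62 (.thr 51 49 (.dbl 60 56 57))))))) (.nv (.thr 5 53 (.thr 23 20 (.thr 7 52 (.thr 55 39 (.dbl 4 6 38))))) (.rp 55 (.thr 23 20 (.thr 53 5 (.thr 63 48 (.thr 3 43 (.thr 41 60 (.thr 45 33 (.thr 61 1 (.thr 13 29 (.dbl 49 25 57))))))))) (.rp 53 (.thr 52 7 (.str 60 (.nv (.thr 41 3 (.thr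 56 48 (.thr 61 1 (.thr 62 63 (.thr 54 50 (.dbl 57 51 59)))))) (.nv (.thr 20 23 (.thr 0 40 (.thr 48 56 (.thr 16 32 (.thr 24 28 (.dbl 36 4 12)))))) (.nv (.thr 20 23 (.thr 36 4 (.thr 56 48 (.thr 57 59 (.thr 54 51 (.dbl 38 6 39)))))) (.rp 56 (.thr 20 23 (.thr 36 4 (.thr 40 0 (.thr 44 32 (.thr 41 3 (.dbl 38 35 39)))))) (.rp 48 (.thr 20 23 (.thr 4 36 (.thr 0 40 (.thr 12 8 (.thr 44 28 (.thr 41 3 (.dbl 38 35 55))))))) (.rp 23 (.thr 56 48 (.thr 57 59 (.thr 54 51 (.thr 41 3 (.thr 61 1 (.dbl 62 50 63)))))) .nd)))))))) (.rp 52 (.str 60 (.nv (.thr 23 20 (.thr 53 5 (.thr 3 41 (.dbl 63 43 48)))) (.nv (.thr 5 53 (.thr 41 3 (.thr 1 61 (.thr 13 9 (.thr 33 45 (.dbl 49 17 25)))))) (.nv (.thr 53 5 (.thr 63 48 (.thr 61 62 (.dbl 41 1 3)))) (.rp 53 (.thr 41 3 (.thr 45 33 (.thr 30 15 (.thr 61 1 (.thr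 29 13 (.thr 28 31 (.dbl 25 17 19))))))) (.rp 41 (.thr 53 5 (.thr 63 48 (.thr 61 62 (.thr 57 49 (.thr 51 54 (.dbl 59 55 56)))))) (.rp 5 (.thr 41 3 (.thr 45 33 (.thr 61 1 (.thr 63 62 (.thr 13 29 (.thr 49 25 (.dbl 53 48 57))))))) (.rp 3 (.thr 53 5 (.thr 63 48 (.thr 61 62 (.thr 57 49 (.thr 59 56 (.dbl 51 54 55)))))) .nd)))))))) (.rp 39 (.thr 20 23 (.thr 53 5 (.thr 52 7 (.thr 55 54 (.dbl 4 36 38))))) (.rp 23 (.thr 53 5 (.thr 52 7 (.thr 55 54 (.thr 4 38 (.thr 36 20 (.thr 48 63 (.thr 60 56 (.thr 12 24 (.thr 28 44 (.thr 25 19 (.thr 49 13 (.thr 61 57 (.dbl 41 1 3))))))))))))) (.rp 7 (.thr 23 20 (.thr 53 5 (.thr 63 48 (.thr 3 43 (.thr 41 60 (.thr 45 33 (.thr 61 1 (.thr 13 29 (.dbl 49 25 57))))))))) (.rp 6 (.thr 20 23 (.thr 53 5 (.thr 52 7 (.thr 4 36 (.dbl 55 38 54))))) (.rp 5 (.thr 7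 52 (.str 15 (.nv (.thr 3 11 (.thr 23 20 (.thr 41 60 (.thr 33 45 (.thr 48 18 (.dbl 63 43 53)))))) (.nv (.thr 23 20 (.thr 39 55 (.thr 27 51 (.thr 31 19 (.thr 63 47 (.dbl 3 11 43)))))) (.nv (.thr 3 11 (.thr 41 60 (.thr 33 45 (.thr 48 18 (.thr 63 53 (.dbl 23 20 43)))))) (.rp 63 (.thr 23 20 (.thr 39 55 (.thr 51 27 (.thr 3 11 (.thr 41 60 (.thr 35 19 (.dbl 38 36 44))))))) (.rp 53 (.thr 23 20 (.thr 3 11 (.thr 63 43 (.thr 31 47 (.thr 27 19 (.dbl 39 51 55)))))) (.rp 43 (.thr 23 20 (.thr 39 55 (.thr 27 51 (.thr 31 19 (.thr 63 47 (.thr 3 11 (.thr 41 60 (.thr 33 45 (.dbl 48 18 53))))))))) (.rp 23 (.thr 3 11 (.thr 41 60 (.thr 33 45 (.thr 1 61 (.thr 49 17 (.thr 48 18 (.thr 51 50 (.thr 19 35 (.dbl 25 13 28))))))))) (.rp 20 (.thr 3 11 (.thr 41 60 (.thr 33 45 (.thr 1 61 (.thr 49 17 (.thr 48 18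 (.thr 51 50 (.thr 19 35 (.dbl 25 13 28))))))))) (.rp 11 (.thr 23 20 (.thr 39 55 (.thr 27 51 (.thr 31 19 (.thr 63 47 (.thr 3 43 (.thr 41 60 (.thr 33 45 (.dbl 48 18 53))))))))) (.rp 3 (.thr 23 20 (.thr 39 55 (.thr 27 51 (.thr 19 31 (.thr 25 28 (.thr 13 49 (.thr 12 14 (.thr 29 17 (.thr 63 46 (.thr 61 45 (.thr 62 60 (.thr 48 53 (.thr 54 50 (.dbl 38 6 36)))))))))))))) .nd)))))))))))) (.rp 4 (.thr 23 20 (.thr 53 5 (.thr 63 48 (.thr 3 43 (.thr 41 60 (.thr 45 33 (.thr 61 1 (.thr 13 29 (.dbl 49 25 57))))))))) .nd)))))))))))) (.rp 7 (.thr 23 20 (.str 41 (.nv (.thr 3 60 (.thr 33 45 (.thr 48 18 (.thr 53 5 (.dbl 63 43 58))))) (.nv (.thr 33 45 (.thr 5 53 (.thr 1 61 (.thr 13 9 (.dbl 49 17 25))))) (.rp 58 (.str 10 (.nv (.thr 1 61 (.thr 3 60 (.thr 0 2 (.dbl 5 15 53)))) (.nv (.thr 1 61 (.thr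 33 45 (.thr 49 17 (.thr 13 25 (.dbl 5 9 53))))) (.nv (.thr 45 33 (.thr 60 3 (.thr 15 30 (.dbl 5 0 53)))) (.rp 53 (.thr 3 60 (.thr 1 61 (.thr 0 2 (.thr 5 15 (.thr 13 9 (.thr 49 25 (.dbl 33 17 45))))))) (.rp 5 (.thr 3 60 (.thr 1 61 (.thr 33 45 (.thr 17 49 (.thr 18 48 (.thr 19 16 (.dbl 25 28 29))))))) .nd)))))) (.rp 53 (.thr 45 33 (.thr 61 1 (.thr 29 13 (.thr 3 60 (.thr 63 43 (.thr 12 46 (.thr 9 6 (.dbl 25 17 57)))))))) (.rp 45 (.thr 53 5 (.thr 61 1 (.thr 57 49 (.thr 60 3 (.thr 54 51 (.thr 55 52 (.dbl 38 4 6))))))) (.rp 33 (.thr 5 53 (.thr 1 61 (.thr 9 13 (.thr 3 60 (.thr 63 43 (.thr 12 6 (.thr 29 46 (.dbl 25 17 57)))))))) (.rp 10 (.str 58 (.nv (.thr 1 61 (.thr 5 53 (.thr 13 9 (.thr 33 45 (.dbl 49 17 25))))) (.nv (.thr 3 60 (.thr 63 43 (.dbl 53 5 48))) (.rp 53 (.thr 45 33 (.thr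 61 1 (.thr 29 13 (.thr 3 60 (.thr 63 43 (.thr 12 46 (.thr 9 6 (.dbl 25 17 57)))))))) (.rp 5 (.thr 33 45 (.thr 3 60 (.thr 63 43 (.dbl 48 18 53)))) .nd))))) (.rp 5 (.thr 33 45 (.thr 1 61 (.thr 17 49 (.thr 3 60 (.thr 18 48 (.thr 19 16 (.dbl 25 28 29))))))) .nd)))))))))) (.rp 6 (.thr 20 23 (.thr 53 5 (.thr 52 7 (.thr 4 36 (.dbl 55 38 54))))) (.rp 5 (.thr 20 23 .ext) (.rp 4 (.thr 52 7 (.thr 5 53 (.str 41 (.nv (.thr 20 23 (.thr 45 33 (.thr 60 3 (.thr 0 40 (.dbl 15 10 30))))) (.nv (.thr 33 45 (.thr 1 61 (.thr 49 17 (.dbl 13 9 25)))) (.rp 58 (.str 10 (.nv (.thr 0 15 (.thr 20 23 (.dbl 60 3 40))) (.nv (.thr 1 61 (.thr 13 9 (.thr 33 45 (.dbl 49 17 25)))) (.nv (.thr 45 33 (.thr 60 3 (.dbl 15 0 30))) (.rp 63 (.str 48 (.nv (.dbl 60 3 56) (.rp 60 (.thr 0 15 (.thr 16 32 (.thr 20 23 (.thr 28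 24 (.thr 25 19 (.thr 13 49 (.dbl 1 9 61))))))) (.rp 56 (.thr 33 45 (.dbl 3 18 60)) (.rp 3 (.thr 60 56 (.thr 45 33 (.dbl 15 0 30))) .nd))))) (.rp 48 (.str 63 (.nv (.thr 1 61 (.thr 13 9 (.thr 33 45 (.dbl 49 17 25)))) (.nv (.thr 23 20 (.dbl 3 43 60)) .nd))) .nd)))))) (.rp 45 (.thr 1 61 (.thr 13 9 (.thr 49 25 (.thr 17 33 (.thr 60 3 (.thr 48 56 (.thr 51 50 (.thr 0 34 (.dbl 20 23 40))))))))) (.rp 33 (.thr 1 61 (.thr 9 13 (.thr 3 60 (.thr 12 6 (.thr 23 20 (.thr 63 43 (.thr 29 46 (.dbl 25 17 57)))))))) (.rp 10 (.str 58 (.nv (.thr 60 3 (.thr 56 48 (.thr 1 61 (.thr 57 59 (.dbl 9 13 25))))) (.nv (.thr 33 45 (.thr 1 61 (.thr 49 17 (.dbl 13 9 25)))) (.rp 61 (.thr 60 3 (.thr 56 48 (.thr 57 59 (.thr 25 9 (.thr 51 54 (.thr 28 19 (.dbl 12 38 44))))))) (.rp 33 (.thr 60 3 (.thr 1 61 (.thr 9 13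 (.thr 57 25 (.dbl 56 48 59))))) (.rp 25 (.thr 60 3 (.thr 56 48 (.thr 61 1 (.thr 62 63 (.thr 54 50 (.dbl 57 51 59)))))) (.rp 13 (.thr 60 3 (.thr 56 48 (.thr 57 59 (.thr 54 51 (.thr 61 1 (.dbl 62 50 63)))))) (.rp 9 (.thr 60 3 (.thr 56 48 (.thr 57 59 (.thr 54 51 (.thr 61 1 (.dbl 62 50 63)))))) (.rp 1 (.thr 60 3 (.thr 56 48 (.thr 57 59 (.thr 25 9 (.thr 51 54 (.thr 28 19 (.dbl 12 38 44))))))) .nd))))))))) .nd))))))))) .nd))))))))))))))))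

theorem w544 : WinAt (137441050624, 4398113619968) :=
  chF (K := [(137445244928, 4672991526912), (137446293504, 4398122008608), (137453633536, 9011597369409536)]) (kc w542 (kc w500 (kc w543 kn))) c544 137441050624 4398113619968 42
    [288234774265332736] (by decide +kernel) (by decide +kernel)

/-- A certificate. -/
noncomputable def c545 : Ct := (.str 55 (.nv (.thr 4 38 (.thr 52 54 (.thr 22 7 (.dbl 20 23 36)))) (.nv (.thr 52 54 (.thr 38 4 (.thr 39 36 (.dbl 7 22 23)))) (.rp 54 (.str 63 (.nv (.thr 38 4 (.thr 36 39 (.thr 42 0 (.thr 46 34 (.thr 12 29 (.dbl 48 24 58)))))) (.nv (.thr 0 42 (.thr 51 59 (.thr 17 34 (.thr 25 29 (.thr 49 13 (.dbl 48 50 58)))))) (.nv (.thr 38 4 (.thr 36 39 (.thr 48 58 (.thr 12 24 (.dbl 51 25 59))))) (.nv (.thr 38 4 (.thr 51 59 (.thr 25 12 (.thr 17 29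 (.dbl 0 34 42))))) (.rp 51 (.thr 38 4 (.thr 36 39 (.thr 48 58 (.thr 12 24 (.thr 46 29 (.dbl 42 0 34)))))) (.rp 42 (.thr 38 4 (.thr 51 59 (.thr 25 12 (.thr 49 13 (.dbl 48 50 58))))) (.rp 38 (.thr 59 51 (.thr 58 48 (.thr 57 56 (.thr 49 61 (.thr 25 13 (.dbl 42 0 8)))))) .nd)))))))) (.rp 52 (.str 63 (.nv (.thr 38 4 (.thr 51 59 (.thr 25 12 (.thr 49 13 (.dbl 48 50 58))))) (.nv (.thr 38 4 (.thr 36 39 (.thr 42 0 (.thr 34 46 (.thr 32 47 (.thr 35 33 (.dbl 44 40 41))))))) (.nv (.thr 0 42 (.thr 51 59 (.thr 17 34 (.thr 25 29 (.thr 49 13 (.thr 61 57 (.dbl 1 33 41))))))) (.nv (.thr 38 4 (.thr 36 39 (.thr 48 58 (.thr 12 24 (.dbl 51 25 59))))) (.rp 38 (.thr 59 51 (.thr 58 48 (.thr 42 0 (.thr 25 8 (.thr 49 13 (.dbl 57 56 61)))))) .nd)))))) (.rp 38 (.str 61 (.nv (.thr 41 1 (.thr 52 54 (.thr 22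 7 (.thr 60 3 (.thr 48 56 (.dbl 63 58 62)))))) (.nv (.thr 49 57 (.thr 25 13 (.thr 17 29 (.dbl 1 33 41)))) (.rp 50 (.str 14 (.nv (.thr 41 1 (.thr 52 54 (.thr 22 7 (.thr 60 3 (.thr 48 56 (.dbl 63 58 62)))))) (.nv (.thr 41 1 (.thr 45 33 (.thr 49 57 (.dbl 13 25 29)))) (.rp 41 (.thr 52 54 (.thr 22 7 (.thr 49 57 (.thr 25 13 (.thr 28 19 (.thr 29 17 (.thr 30 31 (.thr 62 46 (.thr 42 2 (.dbl 63 0 60)))))))))) (.rp 13 (.thr 52 54 (.thr 22 7 (.thr 57 49 (.thr 41 1 (.thr 9 25 (.thr 60 3 (.thr 48 56 (.dbl 63 58 62)))))))) (.rp 9 (.thr 49 57 (.thr 13 25 (.thr 41 1 (.dbl 45 29 33)))) (.rp 1 (.thr 52 54 (.thr 22 7 (.thr 49 57 (.thr 13 25 (.thr 45 29 (.thr 41 33 (.thr 60 3 (.dbl 15 12 30)))))))) .nd))))))) (.rp 41 (.thr 57 49 (.thr 54 52 (.thr 60 51 (.thr 63 62 (.thr 42 0 (.thr 47 32 (.thr 15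 31 (.thr 45 30 (.thr 29 13 (.dbl 46 12 44)))))))))) (.rp 14 (.str 50 (.nv (.thr 49 57 (.thr 54 52 (.thr 58 62 (.dbl 48 51 63)))) (.nv (.thr 49 57 (.thr 41 1 (.thr 45 33 (.dbl 13 25 29)))) (.rp 57 (.thr 41 1 (.thr 52 54 (.thr 22 7 (.thr 60 3 (.thr 63 62 (.dbl 48 56 58)))))) (.rp 49 (.thr 41 1 (.thr 52 54 (.thr 22 7 (.thr 60 3 (.thr 63 62 (.dbl 48 56 58)))))) .nd))))) (.rp 13 (.thr 57 49 (.thr 41 1 (.thr 9 25 (.thr 52 54 (.thr 22 7 (.thr 60 3 (.thr 48 56 (.dbl 63 58 62)))))))) (.rp 9 (.thr 49 57 (.thr 13 25 (.thr 41 1 (.dbl 45 29 33)))) (.rp 1 (.thr 49 57 (.thr 13 25 (.thr 45 29 (.thr 41 33 (.thr 52 54 (.thr 22 7 (.thr 60 3 (.thr 48 56 (.dbl 63 58 62))))))))) .nd))))))))) (.rp 36 (.str 61 (.nv (.thr 38 4 (.thr 49 57 (.thr 25 13 (.thr 51 12 (.thr 48 50 (.dbl 63 58 59)))))) (.nv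 (.thr 49 57 (.thr 25 13 (.thr 17 29 (.dbl 1 33 41)))) (.rp 57 (.thr 41 1 (.thr 52 54 (.thr 22 7 (.thr 60 3 (.thr 48 56 (.dbl 63 58 62)))))) (.rp 49 (.thr 41 1 (.thr 52 54 (.thr 22 7 (.thr 60 3 (.thr 48 56 (.dbl 63 58 62)))))) (.rp 25 (.thr 57 49 (.thr 41 1 (.thr 54 52 (.thr 60 51 (.thr 22 3 (.dbl 38 4 6)))))) (.rp 13 (.thr 57 49 (.thr 41 1 (.thr 9 25 (.thr 54 52 (.thr 60 51 (.thr 22 3 (.dbl 38 4 6))))))) (.rp 9 (.thr 49 57 (.thr 13 25 (.thr 41 1 (.dbl 45 29 33)))) (.rp 1 (.thr 57 49 (.thr 54 52 (.thr 51 60 (.thr 63 59 (.thr 0 42 (.thr 17 34 (.thr 25 29 (.dbl 38 4 12)))))))) .nd))))))))) (.rp 23 (.str 63 (.nv (.thr 4 38 (.thr 48 58 (.thr 52 54 (.thr 36 20 (.thr 12 24 (.dbl 0 8 42)))))) (.nv (.thr 38 4 (.thr 42 0 (.thr 46 34 (.thr 12 29 (.dbl 51 25 59))))) (.nv (.thr 51 59 (.thr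 54 52 (.thr 58 48 (.thr 60 57 (.dbl 62 50 61))))) .nd)))) (.rp 22 (.thr 38 4 (.thr 39 36 (.thr 7 23 (.thr 52 54 (.str 63 (.nv (.thr 0 42 (.thr 51 59 (.thr 25 12 (.dbl 17 29 34)))) (.nv (.thr 51 59 (.thr 25 12 (.thr 49 13 (.dbl 48 50 58)))) (.nv (.thr 42 0 (.thr 46 34 (.thr 12 29 (.dbl 51 25 59)))) (.rp 59 (.thr 42 0 (.thr 47 32 (.thr 15 31 (.thr 46 34 (.thr 12 29 (.dbl 51 25 27)))))) (.rp 51 (.thr 48 58 (.thr 60 56 (.thr 62 61 (.thr 42 0 (.thr 47 32 (.thr 15 31 (.thr 30 45 (.dbl 46 14 34)))))))) (.rp 30 (.str 18 (.nv (.thr 51 59 (.thr 25 12 (.thr 49 13 (.dbl 48 50 58)))) (.nv (.thr 48 58 (.thr 33 3 (.thr 41 45 (.thr 60 56 (.dbl 61 1 62))))) (.nv (.thr 42 0 (.thr 46 34 (.thr 51 59 (.dbl 12 25 29)))) (.rp 59 (.thr 48 58 (.thr 3 33 (.thr 42 0 (.thr 47 32 (.dbl 15 11 31))))) .nd)))))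 (.rp 25 (.thr 51 59 (.thr 42 0 (.thr 47 32 (.dbl 15 27 31)))) (.rp 18 (.str 30 (.nv (.thr 51 59 (.thr 15 27 (.thr 11 3 (.thr 60 45 (.dbl 48 56 58))))) (.nv (.thr 42 0 (.thr 46 34 (.thr 12 29 (.thr 14 62 (.thr 15 13 (.dbl 47 31 32)))))) (.nv (.thr 48 58 (.thr 60 56 (.thr 45 15 (.thr 41 33 (.dbl 61 1 62))))) (.nv (.thr 51 59 (.thr 25 12 (.thr 17 29 (.dbl 0 34 42)))) .nd))))) (.rp 12 (.thr 51 59 (.thr 0 42 (.thr 17 34 (.thr 25 29 (.thr 49 13 (.dbl 48 50 58)))))) (.rp 0 (.thr 51 59 (.thr 12 25 (.thr 46 29 (.thr 42 34 (.thr 47 32 (.dbl 15 27 31)))))) .nd))))))))))))))) (.rp 7 (.str 61 (.nv (.thr 41 1 (.thr 54 52 (.thr 57 49 (.thr 60 51 (.thr 22 3 (.dbl 38 4 6)))))) (.nv (.thr 4 38 (.thr 49 57 (.thr 13 25 (.thr 41 1 (.dbl 45 29 33))))) (.nv (.thr 49 57 (.thr 25 13 (.thr 17 29 (.dbl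 1 33 41)))) (.rp 57 (.thr 41 1 (.thr 52 54 (.thr 4 38 (.thr 20 36 (.thr 22 23 (.thr 60 3 (.thr 63 62 (.dbl 48 56 58)))))))) (.rp 49 (.thr 41 1 (.thr 52 54 (.thr 4 38 (.thr 20 36 (.thr 22 23 (.thr 60 3 (.thr 63 62 (.dbl 48 56 58)))))))) (.rp 41 (.thr 49 57 (.thr 25 13 (.thr 54 52 (.thr 38 4 (.thr 6 22 (.thr 51 12 (.thr 63 59 (.dbl 48 50 58)))))))) (.rp 33 (.thr 57 49 (.thr 54 52 (.thr 51 60 (.thr 38 4 (.thr 6 22 (.thr 25 12 (.dbl 41 1 9))))))) (.rp 13 (.thr 57 49 (.thr 41 1 (.thr 9 25 (.thr 54 52 (.thr 60 51 (.thr 22 3 (.dbl 38 4 6))))))) (.rp 4 (.str 6 (.nv (.thr 54 52 (.thr 22 38 (.thr 57 49 (.thr 60 51 (.dbl 41 1 3))))) (.nv (.thr 41 1 (.thr 54 52 (.thr 22 38 (.thr 60 3 (.thr 51 57 (.dbl 63 59 62)))))) (.nv (.thr 41 1 (.thr 45 33 (.thr 49 57 (.dbl 13 25 29)))) (.rp 57 (.thr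 54 52 (.thr 22 38 (.thr 20 23 (.thr 41 1 (.thr 60 3 (.thr 63 62 (.dbl 0 40 42))))))) (.rp 41 (.thr 54 52 (.thr 22 38 (.thr 20 23 (.thr 57 49 (.thr 60 51 (.thr 63 62 (.dbl 0 40 42))))))) (.rp 1 (.thr 54 52 (.thr 22 38 (.thr 20 23 (.thr 57 49 (.thr 60 51 (.thr 63 62 (.dbl 0 40 42))))))) .nd))))))) (.rp 1 (.thr 57 49 (.thr 54 52 (.thr 51 60 (.thr 63 59 (.thr 0 42 (.thr 17 34 (.thr 25 29 (.dbl 38 4 12)))))))) .nd))))))))))) (.rp 4 (.thr 52 54 (.thr 7 22 (.thr 39 23 (.thr 38 36 (.str 63 (.nv (.thr 0 42 (.thr 51 59 (.thr 25 12 (.dbl 17 29 34)))) (.nv (.thr 51 59 (.thr 25 12 (.thr 49 13 (.dbl 48 50 58)))) (.nv (.thr 42 0 (.thr 46 34 (.thr 12 29 (.dbl 51 25 59)))) (.rp 59 (.thr 42 0 (.thr 47 32 (.thr 15 31 (.thr 46 34 (.thr 12 29 (.dbl 51 25 27)))))) (.rp 51 (.thr 48 58 (.thr 60 56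 (.thr 62 61 (.thr 42 0 (.thr 47 32 (.thr 15 31 (.thr 30 45 (.dbl 46 14 34)))))))) (.rp 30 (.str 18 (.nv (.thr 51 59 (.thr 25 12 (.thr 49 13 (.dbl 48 50 58)))) (.nv (.thr 48 58 (.thr 33 3 (.thr 41 45 (.thr 60 56 (.dbl 61 1 62))))) (.nv (.thr 42 0 (.thr 46 34 (.thr 51 59 (.dbl 12 25 29)))) (.rp 59 (.thr 48 58 (.thr 3 33 (.thr 42 0 (.thr 47 32 (.dbl 15 11 31))))) .nd))))) (.rp 25 (.thr 51 59 (.thr 42 0 (.thr 47 32 (.dbl 15 27 31)))) (.rp 18 (.str 30 (.nv (.thr 51 59 (.thr 15 27 (.thr 11 3 (.thr 60 45 (.dbl 48 56 58))))) (.nv (.thr 42 0 (.thr 46 34 (.thr 12 29 (.thr 14 62 (.thr 15 13 (.dbl 47 31 32)))))) (.nv (.thr 48 58 (.thr 60 56 (.thr 45 15 (.thr 41 33 (.dbl 61 1 62))))) (.nv (.thr 51 59 (.thr 25 12 (.thr 17 29 (.dbl 0 34 42)))) .nd))))) (.rp 12 (.thr 51 59 (.thr 0 42 (.thr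 17 34 (.thr 25 29 (.thr 49 13 (.dbl 48 50 58)))))) (.rp 0 (.thr 51 59 (.thr 12 25 (.thr 46 29 (.thr 42 34 (.thr 47 32 (.dbl 15 27 31)))))) .nd))))))))))))))) .nd)))))))))))

theorem w545 : WinAt (9007336695791616, 8796160131104) :=
  chF (K := []) kn c545 9007336695791616 8796160131104 5
    [] (by decide +kernel) (by decide +kernel)

/-- A certificate. -/
noncomputable def c546 : Ct := (.str 1 (.nv (.thr 13 9 (.thr 41 61 (.thr 49 25 (.dbl 33 17 45)))) (.nv (.thr 13 9 (.thr 25 49 (.thr 29 17 (.dbl 61 41 45)))) (.rp 61 (.str 0 (.nv (.thr 3 2 (.thr 63 42 (.thr 23 43 (.thr 22 20 (.thr 7 52 (.dbl 15 10 11)))))) (.nv (.thr 3 2 (.thr 13 9 (.thr 42 63 (.thr 49 25 (.thr 33 17 (.thr 48 18 (.dbl 32 16 47))))))) (.nv (.thr 9 13 (.thr 3 2 (.thr 12 6 (.thr 10 15 (.dbl 8 4 11))))) (.rp 57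 (.str 49 (.nv (.dbl 13 9 25) (.rp 25 (.thr 17 33 (.thr 51 34 (.thr 48 50 (.thr 32 16 (.dbl 42 47 63))))) (.rp 13 (.thr 17 33 (.thr 51 34 (.thr 48 50 (.thr 32 16 (.dbl 42 47 63))))) (.rp 9 (.thr 17 33 (.dbl 25 13 29)) .nd))))) (.rp 49 (.str 57 (.nv (.thr 9 13 (.thr 10 15 (.thr 25 41 (.thr 42 63 (.dbl 8 11 59))))) (.nv (.thr 3 2 (.thr 63 42 (.thr 23 43 (.thr 22 20 (.thr 7 52 (.dbl 15 10 11)))))) (.nv (.thr 3 2 (.thr 9 13 (.thr 41 25 (.thr 42 63 (.thr 40 43 (.dbl 60 20 22)))))) (.nv (.thr 3 2 (.thr 9 13 (.thr 10 15 (.thr 12 6 (.dbl 8 4 11))))) .nd))))) (.rp 3 (.thr 13 9 (.thr 15 10 (.thr 12 14 (.thr 8 4 (.thr 42 63 (.dbl 25 49 59)))))) (.rp 2 (.thr 13 9 (.thr 49 25 (.thr 17 33 (.thr 51 34 (.thr 42 63 (.thr 32 47 (.dbl 48 16 50))))))) .nd)))))))) (.rp 49 (.str 4 (.nv (.thr 6 7 (.thr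 9 13 (.thr 12 3 (.thr 38 55 (.thr 25 51 (.dbl 41 57 61)))))) (.nv (.thr 61 41 (.thr 7 6 (.thr 38 55 (.thr 52 22 (.dbl 36 20 39))))) (.nv (.thr 7 6 (.thr 22 52 (.thr 23 20 (.dbl 55 38 39)))) (.rp 61 (.str 57 (.nv (.thr 6 7 (.thr 9 13 (.thr 12 3 (.thr 25 41 (.dbl 38 51 55))))) (.nv (.thr 9 13 (.thr 25 41 (.thr 38 55 (.thr 12 51 (.thr 0 8 (.dbl 3 2 6)))))) (.nv (.thr 7 6 (.thr 22 52 (.thr 23 20 (.dbl 55 38 39)))) (.rp 55 (.thr 9 13 (.thr 25 41 (.thr 29 17 (.thr 6 7 (.thr 12 3 (.thr 0 8 (.dbl 63 42 46))))))) (.rp 38 (.thr 9 13 (.thr 41 25 (.thr 7 6 (.thr 22 52 (.thr 3 60 (.thr 15 11 (.dbl 0 2 10))))))) (.rp 6 (.thr 9 13 (.thr 25 41 (.thr 29 17 (.thr 38 55 (.thr 12 51 (.thr 0 8 (.dbl 63 42 46))))))) .nd))))))) (.rp 55 (.thr 9 13 (.thr 6 7 (.thr 12 3 (.thr 0 8 (.thr 63 42 (.thr 29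 46 (.thr 25 17 (.dbl 41 57 61)))))))) (.rp 52 (.thr 9 13 (.thr 6 7 (.thr 12 3 (.thr 38 55 (.thr 54 22 (.thr 25 51 (.dbl 41 57 61))))))) (.rp 39 (.thr 13 9 (.thr 61 41 (.thr 29 45 (.thr 25 17 (.thr 38 55 (.thr 12 51 (.thr 0 8 (.dbl 15 10 14)))))))) (.rp 38 (.thr 9 13 (.thr 41 61 (.thr 57 25 (.thr 7 6 (.thr 22 52 (.thr 3 60 (.thr 15 11 (.dbl 0 2 10)))))))) (.rp 7 (.thr 13 9 (.thr 61 41 (.thr 29 45 (.thr 25 17 (.thr 38 55 (.thr 12 51 (.thr 0 8 (.dbl 15 10 14)))))))) (.rp 6 (.thr 13 9 (.thr 61 41 (.thr 29 45 (.thr 25 17 (.thr 38 55 (.thr 12 51 (.thr 0 8 (.dbl 15 10 14)))))))) .nd))))))))))) (.rp 45 (.thr 13 9 (.str 4 (.nv (.thr 25 49 (.thr 38 55 (.thr 12 51 (.thr 0 8 (.dbl 15 10 14))))) (.nv (.thr 38 55 (.thr 36 39 (.thr 52 20 (.dbl 7 6 22)))) (.rp 55 (.thr 25 49 (.thr 7 6 (.thr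 52 22 (.thr 36 20 (.thr 38 39 (.thr 12 51 (.thr 0 8 (.dbl 15 10 14)))))))) (.rp 54 (.thr 7 6 (.thr 52 22 (.thr 38 55 (.dbl 36 20 39)))) (.rp 52 (.thr 25 49 (.thr 6 7 (.thr 38 55 (.thr 54 22 (.thr 12 51 (.thr 0 8 (.dbl 15 10 14))))))) (.rp 47 (.str 46 (.nv (.thr 25 49 (.thr 29 17 (.thr 12 63 (.thr 0 8 (.dbl 15 10 14))))) (.nv (.thr 7 6 (.thr 22 52 (.thr 23 20 (.dbl 55 38 39)))) (.rp 12 (.thr 38 55 (.thr 36 39 (.thr 52 20 (.dbl 7 6 22)))) .nd)))) (.rp 46 (.str 47 (.nv (.thr 25 49 (.thr 42 32 (.thr 0 63 (.dbl 8 12 59)))) (.nv (.thr 38 55 (.thr 36 39 (.thr 52 20 (.dbl 7 6 22)))) (.rp 36 (.thr 55 38 (.thr 7 6 (.thr 23 39 (.dbl 22 20 52)))) .nd)))) (.rp 38 (.thr 41 61 (.thr 7 6 (.thr 22 52 (.thr 3 60 (.thr 15 11 (.dbl 0 2 10)))))) .nd)))))))))) (.rp 41 (.str 38 (.nv (.thr 13 9 (.thr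 25 49 (.thr 12 51 (.thr 15 14 (.thr 0 10 (.dbl 4 8 55)))))) (.nv (.thr 4 55 (.thr 36 39 (.thr 7 6 (.dbl 52 20 22)))) (.rp 56 (.str 11 (.nv (.thr 9 13 (.thr 10 8 (.thr 15 0 (.thr 7 3 (.dbl 4 6 55))))) (.nv (.thr 4 55 (.thr 13 9 (.thr 25 49 (.thr 12 51 (.thr 0 8 (.dbl 15 10 14)))))) (.nv (.thr 36 39 (.thr 4 55 (.thr 7 6 (.dbl 52 20 22)))) (.rp 55 (.thr 13 9 (.thr 25 49 (.thr 12 51 (.thr 15 14 (.thr 3 7 (.dbl 0 2 10)))))) (.rp 4 (.thr 13 9 (.thr 25 49 (.thr 12 51 (.thr 15 14 (.thr 3 7 (.dbl 0 2 10)))))) .nd)))))) (.rp 55 (.thr 39 36 (.thr 13 9 (.thr 25 49 (.thr 17 29 (.thr 51 12 (.thr 0 34 (.dbl 15 10 27))))))) (.rp 11 (.str 56 (.nv (.thr 4 55 (.thr 13 9 (.thr 25 49 (.thr 12 51 (.thr 15 14 (.dbl 0 8 10)))))) (.nv (.thr 36 39 (.thr 4 55 (.thr 52 20 (.dbl 7 6 22)))) (.rp 55 (.thr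 39 36 (.thr 13 9 (.thr 25 49 (.thr 51 12 (.thr 17 29 (.thr 0 34 (.dbl 15 10 27))))))) (.rp 52 (.thr 55 4 (.thr 13 9 (.thr 25 49 (.thr 51 12 (.thr 17 29 (.thr 0 34 (.dbl 63 42 59))))))) (.rp 4 (.thr 39 36 (.thr 13 9 (.thr 25 49 (.thr 51 12 (.thr 17 29 (.thr 0 34 (.dbl 15 10 27))))))) .nd)))))) (.rp 6 (.thr 4 55 (.thr 13 9 (.thr 25 49 (.thr 12 51 (.thr 15 14 (.dbl 0 8 10)))))) (.rp 4 (.thr 39 36 (.thr 13 9 (.thr 25 49 (.thr 17 29 (.thr 51 12 (.thr 0 34 (.dbl 15 10 27))))))) .nd)))))))) (.rp 25 (.thr 9 13 (.str 0 (.nv (.thr 3 2 (.thr 41 61 (.thr 42 63 (.thr 40 43 (.dbl 60 20 22))))) (.nv (.thr 3 2 (.thr 10 15 (.thr 12 6 (.dbl 8 4 11)))) (.rp 27 (.str 24 (.nv (.thr 3 2 (.thr 41 61 (.thr 42 63 (.thr 60 22 (.dbl 40 20 43))))) (.nv (.thr 3 2 (.thr 12 6 (.thr 8 4 (.dbl 10 11 15))))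 (.rp 3 (.thr 61 41 (.thr 10 15 (.thr 63 42 (.thr 60 62 (.thr 40 20 (.dbl 8 11 56)))))) (.rp 2 (.thr 41 61 (.thr 10 15 (.thr 8 11 (.thr 40 56 (.dbl 42 43 63))))) .nd))))) (.rp 24 (.str 27 (.nv (.thr 10 15 (.thr 11 8 (.thr 41 61 (.thr 42 63 (.dbl 43 40 59))))) (.nv (.thr 3 2 (.thr 41 61 (.thr 42 63 (.thr 40 43 (.dbl 60 20 22))))) (.nv (.thr 3 2 (.thr 10 15 (.thr 12 6 (.dbl 8 4 11)))) .nd)))) (.rp 3 (.thr 41 61 (.thr 45 33 (.thr 15 10 (.thr 60 30 (.thr 40 20 (.dbl 42 43 63)))))) (.rp 2 (.thr 41 61 (.thr 45 33 (.thr 15 10 (.thr 60 30 (.thr 20 40 (.dbl 22 3 23)))))) .nd)))))))) (.rp 17 (.str 4 (.nv (.thr 7 6 (.thr 22 52 (.thr 41 61 (.thr 3 60 (.thr 0 2 (.dbl 15 10 11)))))) (.nv (.thr 7 6 (.thr 22 52 (.thr 23 20 (.dbl 55 38 39)))) (.rp 55 (.thr 9 13 (.thr 41 61 (.thr 45 33 (.thr 6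 7 (.thr 3 12 (.thr 60 22 (.thr 0 2 (.dbl 15 10 30)))))))) (.rp 54 (.thr 7 6 (.thr 52 22 (.thr 38 55 (.dbl 36 20 39)))) (.rp 52 (.thr 9 13 (.thr 41 61 (.thr 6 7 (.thr 12 3 (.thr 38 55 (.thr 54 22 (.dbl 25 51 57))))))) (.rp 22 (.thr 13 9 (.thr 25 49 (.thr 38 55 (.thr 12 51 (.thr 0 8 (.dbl 15 10 14)))))) (.rp 7 (.thr 13 9 (.thr 25 49 (.thr 38 55 (.thr 12 51 (.thr 0 8 (.dbl 15 10 14)))))) (.rp 6 (.thr 13 9 (.thr 25 49 (.thr 38 55 (.thr 12 51 (.thr 0 8 (.dbl 15 10 14)))))) .nd))))))))) (.rp 13 (.str 0 (.nv (.thr 41 61 (.thr 45 33 (.thr 3 2 (.thr 60 22 (.dbl 15 10 30))))) (.nv (.thr 3 2 (.thr 42 63 (.thr 32 47 (.thr 48 16 (.thr 33 18 (.dbl 41 45 61)))))) (.nv (.thr 3 2 (.thr 63 42 (.thr 23 43 (.thr 22 20 (.dbl 41 60 61))))) (.rp 61 (.thr 3 2 (.thr 15 10 (.thr 7 11 (.thr 22 52 (.thr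 20 23 (.dbl 60 40 41)))))) (.rp 42 (.thr 41 61 (.thr 3 2 (.thr 22 60 (.thr 7 52 (.dbl 15 10 11))))) (.rp 41 (.thr 2 3 (.thr 10 15 (.thr 42 63 (.thr 22 62 (.thr 7 52 (.dbl 6 4 14)))))) (.rp 22 (.thr 41 61 (.thr 45 33 (.thr 15 10 (.thr 42 63 (.thr 40 43 (.dbl 60 20 30)))))) (.rp 3 (.thr 41 61 (.thr 45 33 (.thr 15 10 (.thr 60 30 (.thr 40 20 (.dbl 42 43 63)))))) (.rp 2 (.thr 41 61 (.thr 45 33 (.thr 15 10 (.thr 60 30 (.thr 20 40 (.dbl 22 3 23)))))) .nd)))))))))) (.rp 9 (.str 0 (.nv (.thr 2 3 (.thr 10 15 (.thr 6 14 (.thr 7 4 (.thr 22 52 (.dbl 42 62 63)))))) (.nv (.thr 3 2 (.thr 41 61 (.thr 33 45 (.thr 48 18 (.thr 32 16 (.dbl 42 47 63)))))) (.nv (.thr 3 2 (.thr 63 42 (.thr 23 43 (.thr 22 20 (.dbl 41 60 61))))) (.rp 63 (.thr 41 61 (.thr 45 33 (.thr 3 2 (.thr 60 22 (.dbl 15 10 30)))))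 (.rp 42 (.thr 41 61 (.thr 3 2 (.thr 22 60 (.thr 7 52 (.dbl 15 10 11))))) (.rp 22 (.thr 41 61 (.thr 45 33 (.thr 15 10 (.thr 42 63 (.thr 40 43 (.dbl 60 20 30)))))) (.rp 3 (.thr 41 61 (.thr 45 33 (.thr 15 10 (.thr 60 30 (.thr 40 20 (.dbl 42 43 63)))))) (.rp 2 (.thr 41 61 (.thr 45 33 (.thr 15 10 (.thr 60 30 (.thr 20 40 (.dbl 22 3 23)))))) .nd))))))))) .nd)))))))))))

theorem w546 : WinAt (137441050656, 9024791507894272) :=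
  chF (K := []) kn c546 137441050656 9024791507894272 53
    [] (by decide +kernel) (by decide +kernel)

/-- A certificate. -/
noncomputable def c547 : Ct := (.str 55 (.nv (.thr 52 54 (.thr 7 22 (.thr 38 4 (.dbl 39 23 36)))) (.nv (.thr 52 54 (.thr 22 7 (.thr 20 23 (.dbl 4 36 38)))) (.rp 54 (.str 63 (.nv (.thr 38 4 (.thr 36 39 (.thr 51 59 (.thr 12 25 (.dbl 48 24 58))))) (.nv (.thr 0 42 (.thr 51 59 (.thr 17 34 (.thr 25 29 (.thr 49 13 (.thr 61 57 (.dbl 1 33 41))))))) (.nv (.thr 38 4 (.thr 39 36 (.thr 42 0 (.thr 47 32 (.thr 43 35 (.dbl 23 3 7)))))) (.nv (.thr 0 42 (.thr 38 4 (.thr 51 59 (.thr 25 12 (.dbl 17 29 34))))) (.rp 42 (.thr 38 4 (.thr 51 59 (.thr 25 12 (.thr 49 13 (.dbl 48 50 58))))) (.rp 38 (.thr 59 51 (.thr 58 48 (.thr 57 56 (.thr 49 61 (.thr 42 0 (.dbl 25 8 13)))))) .nd)))))))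 (.rp 52 (.str 63 (.nv (.thr 38 4 (.thr 36 39 (.thr 42 0 (.thr 32 47 (.thr 34 46 (.thr 44 40 (.dbl 35 33 41))))))) (.nv (.thr 0 42 (.thr 51 59 (.thr 17 34 (.thr 25 29 (.thr 49 13 (.thr 61 57 (.dbl 1 33 41))))))) (.nv (.thr 38 4 (.thr 36 39 (.thr 51 59 (.thr 12 25 (.dbl 48 24 58))))) (.rp 42 (.thr 38 4 (.thr 51 59 (.thr 25 12 (.thr 49 13 (.dbl 48 50 58))))) (.rp 38 (.thr 59 51 (.thr 58 48 (.thr 42 0 (.thr 25 8 (.thr 49 13 (.dbl 57 56 61)))))) (.rp 8 (.thr 38 4 (.thr 36 39 (.thr 51 59 (.thr 48 58 (.dbl 12 24 25))))) .nd))))))) (.rp 38 (.str 61 (.nv (.thr 41 1 (.thr 52 54 (.thr 22 7 (.thr 60 3 (.thr 48 56 (.dbl 63 58 62)))))) (.nv (.thr 49 57 (.thr 25 13 (.thr 17 29 (.dbl 1 33 41)))) (.rp 50 (.str 14 (.nv (.thr 41 1 (.thr 52 54 (.thr 22 7 (.thr 60 3 (.thr 48 56 (.dbl 63 58 62))))))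 (.nv (.thr 49 57 (.thr 25 13 (.thr 17 29 (.dbl 1 33 41)))) (.rp 41 (.thr 54 52 (.thr 57 49 (.thr 51 60 (.thr 63 59 (.thr 42 0 (.thr 47 32 (.thr 15 31 (.thr 39 27 (.thr 23 7 (.dbl 43 3 35)))))))))) (.rp 13 (.thr 52 54 (.thr 22 7 (.thr 57 49 (.thr 41 1 (.thr 9 25 (.thr 60 3 (.thr 48 56 (.dbl 63 58 62)))))))) (.rp 9 (.thr 49 57 (.thr 25 13 (.thr 1 41 (.dbl 17 29 33)))) (.rp 1 (.thr 54 52 (.thr 57 49 (.thr 51 60 (.thr 63 59 (.thr 42 0 (.thr 47 32 (.thr 15 31 (.thr 39 27 (.thr 23 7 (.dbl 43 3 35)))))))))) .nd))))))) (.rp 41 (.thr 54 52 (.thr 57 49 (.thr 51 60 (.thr 63 59 (.thr 42 0 (.thr 47 32 (.thr 15 31 (.thr 39 27 (.thr 23 7 (.dbl 43 3 35)))))))))) (.rp 14 (.str 50 (.nv (.thr 41 1 (.thr 52 54 (.thr 22 7 (.thr 60 3 (.thr 48 56 (.dbl 63 58 62)))))) (.nv (.thr 1 41 (.thr 49 57 (.thr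 17 33 (.dbl 25 13 29)))) (.nv (.thr 54 52 (.thr 49 57 (.thr 48 51 (.dbl 58 62 63)))) .nd)))) (.rp 13 (.thr 52 54 (.thr 22 7 (.thr 57 49 (.thr 41 1 (.thr 9 25 (.thr 60 3 (.thr 63 62 (.dbl 48 56 58)))))))) (.rp 9 (.thr 49 57 (.thr 25 13 (.thr 1 41 (.dbl 17 29 33)))) (.rp 1 (.thr 54 52 (.thr 57 49 (.thr 51 60 (.thr 63 59 (.thr 42 0 (.thr 47 32 (.thr 15 31 (.thr 39 27 (.thr 23 7 (.dbl 43 3 35)))))))))) .nd))))))))) (.rp 36 (.str 61 (.nv (.thr 41 1 (.thr 52 54 (.thr 22 7 (.thr 60 3 (.thr 48 56 (.dbl 63 58 62)))))) (.nv (.thr 49 57 (.thr 25 13 (.thr 17 29 (.dbl 1 33 41)))) (.rp 41 (.thr 38 4 (.thr 49 57 (.thr 25 13 (.thr 51 12 (.thr 48 50 (.dbl 63 58 59)))))) (.rp 13 (.thr 54 52 (.thr 57 49 (.thr 60 51 (.thr 41 1 (.thr 9 25 (.thr 22 3 (.dbl 38 4 6))))))) (.rp 9 (.thr 49 57 (.thr 25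 13 (.thr 1 41 (.dbl 17 29 33)))) (.rp 1 (.thr 54 52 (.thr 57 49 (.thr 60 51 (.thr 63 62 (.thr 0 42 (.thr 38 4 (.thr 20 40 (.dbl 22 6 23)))))))) .nd))))))) (.rp 23 (.str 61 (.nv (.thr 41 1 (.thr 52 54 (.thr 22 7 (.thr 60 3 (.thr 48 56 (.dbl 63 58 62)))))) (.nv (.thr 49 57 (.thr 25 13 (.thr 17 29 (.dbl 1 33 41)))) (.rp 41 (.thr 49 57 (.thr 25 13 (.thr 38 4 (.thr 51 12 (.thr 63 59 (.dbl 48 50 58)))))) (.rp 13 (.thr 57 49 (.thr 54 52 (.thr 51 60 (.thr 38 4 (.thr 25 12 (.dbl 41 1 9)))))) (.rp 9 (.thr 49 57 (.thr 25 13 (.thr 1 41 (.dbl 17 29 33)))) (.rp 1 (.thr 57 49 (.thr 54 52 (.thr 51 60 (.thr 63 59 (.thr 38 4 (.thr 36 39 (.thr 12 25 (.dbl 48 24 58)))))))) .nd))))))) (.rp 22 (.str 48 (.nv (.thr 38 4 (.thr 36 39 (.thr 12 24 (.thr 25 51 (.thr 29 17 (.dbl 63 46 58)))))) (.nv (.thr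 54 52 (.thr 63 58 (.thr 51 59 (.thr 57 60 (.dbl 49 50 61))))) (.nv (.thr 38 4 (.thr 36 39 (.thr 12 24 (.thr 63 58 (.dbl 51 25 59))))) (.rp 63 (.thr 38 4 (.thr 36 39 (.thr 12 24 (.thr 25 51 (.thr 49 13 (.thr 61 57 (.thr 1 41 (.dbl 17 29 33)))))))) (.rp 58 (.thr 38 4 (.thr 36 39 (.thr 12 24 (.thr 25 51 (.thr 49 13 (.thr 61 57 (.thr 1 41 (.dbl 17 29 33)))))))) (.rp 51 (.thr 38 4 (.thr 36 39 (.thr 12 24 (.thr 63 58 (.thr 46 29 (.dbl 42 0 34)))))) (.rp 30 (.str 18 (.nv (.thr 38 4 (.thr 36 39 (.thr 12 24 (.thr 25 51 (.thr 29 17 (.dbl 63 46 58)))))) (.nv (.thr 63 58 (.thr 51 59 (.thr 50 49 (.thr 34 2 (.dbl 0 17 42))))) (.nv (.thr 3 33 (.thr 38 4 (.thr 63 58 (.thr 23 43 (.dbl 39 7 36))))) (.rp 63 (.thr 38 4 (.thr 36 39 (.thr 33 3 (.thr 12 24 (.thr 25 51 (.thr 17 29 (.dbl 49 1 13)))))))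 (.rp 60 (.str 15 (.nv (.thr 3 33 (.thr 38 4 (.thr 39 36 (.thr 52 54 (.dbl 7 11 23))))) (.nv (.thr 63 58 (.thr 42 0 (.dbl 47 31 32))) (.rp 3 (.str 41 (.nv (.thr 38 4 (.thr 36 39 (.thr 12 24 (.thr 13 14 (.dbl 25 49 51))))) (.nv (.thr 63 58 (.thr 47 31 (.dbl 42 0 32))) .nd))) .nd)))) (.rp 58 (.thr 38 4 (.thr 36 39 (.thr 33 3 (.thr 12 24 (.thr 25 51 (.thr 17 29 (.dbl 49 1 13))))))) (.rp 15 (.str 60 (.nv (.dbl 52 54 56) (.rp 56 (.thr 54 52 (.thr 51 57 (.dbl 63 58 59))) (.rp 54 (.thr 63 58 (.thr 51 59 (.thr 50 49 (.thr 34 2 (.dbl 0 17 42))))) (.rp 52 (.thr 63 58 (.thr 51 59 (.thr 61 62 (.dbl 57 49 54)))) (.rp 10 (.str 0 (.nv (.dbl 63 42 58) (.rp 63 (.dbl 52 54 56) (.rp 58 (.thr 42 63 (.dbl 52 54 56)) (.rp 42 (.thr 58 63 (.dbl 52 54 56)) .nd))))) (.rp 0 (.str 10 (.nv (.dbl 52 54 56)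 (.rp 56 (.thr 54 52 (.thr 51 57 (.dbl 63 58 59))) (.rp 54 (.thr 63 58 (.thr 51 59 (.thr 38 4 (.thr 12 25 (.dbl 36 24 39))))) (.rp 52 (.thr 63 58 (.thr 51 59 (.thr 57 54 (.dbl 49 50 61)))) .nd))))) .nd))))))) .nd)))))))) (.rp 18 (.str 30 (.nv (.thr 38 4 (.thr 36 39 (.thr 12 24 (.thr 25 51 (.thr 29 17 (.dbl 63 46 58)))))) (.nv (.thr 54 52 (.thr 63 58 (.thr 51 59 (.thr 57 60 (.dbl 49 50 61))))) (.rp 63 (.thr 52 54 (.thr 38 4 (.thr 36 39 (.thr 12 24 (.thr 25 51 (.thr 29 17 (.thr 28 31 (.dbl 60 44 56)))))))) (.rp 58 (.thr 52 54 (.thr 38 4 (.thr 36 39 (.thr 12 24 (.thr 25 51 (.thr 29 17 (.thr 28 31 (.dbl 60 44 56)))))))) (.rp 51 (.thr 38 4 (.thr 36 39 (.thr 12 24 (.thr 63 58 (.thr 46 29 (.dbl 42 0 34)))))) .nd)))))) .nd))))))))) (.rp 7 (.str 61 (.nv (.thr 4 38 (.thr 1 41 (.thr 49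 57 (.thr 25 13 (.dbl 17 29 33))))) (.nv (.thr 41 1 (.thr 54 52 (.thr 57 49 (.thr 60 51 (.thr 22 3 (.dbl 38 4 6)))))) (.nv (.thr 49 57 (.thr 25 13 (.thr 17 29 (.dbl 1 33 41)))) (.rp 57 (.thr 41 1 (.thr 52 54 (.thr 4 38 (.thr 20 36 (.thr 22 23 (.thr 60 3 (.thr 48 56 (.dbl 63 58 62)))))))) (.rp 49 (.thr 41 1 (.thr 52 54 (.thr 4 38 (.thr 20 36 (.thr 22 23 (.thr 60 3 (.thr 48 56 (.dbl 63 58 62)))))))) (.rp 41 (.thr 49 57 (.thr 25 13 (.thr 54 52 (.thr 38 4 (.thr 6 22 (.thr 51 12 (.thr 63 59 (.dbl 48 50 58)))))))) (.rp 33 (.thr 57 49 (.thr 54 52 (.thr 51 60 (.thr 38 4 (.thr 6 22 (.thr 25 12 (.dbl 41 1 9))))))) (.rp 17 (.thr 57 49 (.thr 54 52 (.thr 51 60 (.thr 38 4 (.thr 6 22 (.thr 25 12 (.dbl 41 1 9))))))) (.rp 13 (.thr 57 49 (.thr 41 1 (.thr 9 25 (.thr 54 52 (.thr 60 51 (.thr 22 3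 (.dbl 38 4 6))))))) (.rp 4 (.str 6 (.nv (.thr 54 52 (.thr 22 38 (.thr 57 49 (.thr 60 51 (.dbl 41 1 3))))) (.nv (.thr 41 1 (.thr 54 52 (.thr 22 38 (.thr 60 3 (.thr 51 57 (.dbl 63 59 62)))))) (.nv (.thr 49 57 (.thr 25 13 (.thr 17 29 (.dbl 1 33 41)))) (.rp 57 (.thr 54 52 (.thr 22 38 (.thr 20 23 (.thr 41 1 (.thr 60 3 (.thr 63 62 (.dbl 0 40 42))))))) (.rp 41 (.thr 54 52 (.thr 22 38 (.thr 20 23 (.thr 57 49 (.thr 60 51 (.thr 63 62 (.dbl 0 40 42))))))) (.rp 1 (.thr 54 52 (.thr 22 38 (.thr 20 23 (.thr 57 49 (.thr 60 51 (.thr 63 62 (.dbl 0 40 42))))))) .nd))))))) (.rp 1 (.thr 57 49 (.thr 54 52 (.thr 51 60 (.thr 63 59 (.thr 0 42 (.thr 17 34 (.thr 25 29 (.dbl 38 4 12)))))))) .nd)))))))))))) (.rp 4 (.str 63 (.nv (.thr 0 42 (.thr 51 59 (.thr 17 34 (.thr 25 29 (.thr 49 13 (.thr 61 57 (.dbl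 1 33 41))))))) (.nv (.thr 42 0 (.thr 47 32 (.thr 15 31 (.thr 52 54 (.thr 7 22 (.thr 3 11 (.dbl 23 39 43))))))) (.nv (.thr 54 52 (.thr 51 59 (.thr 60 57 (.thr 58 48 (.dbl 62 50 61))))) (.rp 7 (.str 6 (.nv (.thr 54 52 (.thr 22 38 (.thr 42 0 (.thr 62 2 (.dbl 58 48 50))))) (.nv (.thr 0 42 (.thr 51 59 (.thr 17 34 (.thr 25 29 (.thr 49 13 (.thr 61 57 (.dbl 1 33 41))))))) (.nv (.thr 51 59 (.thr 54 52 (.thr 58 48 (.thr 60 57 (.dbl 62 50 61))))) (.rp 58 (.thr 54 52 (.thr 22 38 (.thr 51 59 (.thr 42 0 (.thr 62 2 (.dbl 60 57 61)))))) .nd))))) (.rp 6 (.str 7 (.nv (.dbl 52 22 54) (.rp 54 (.thr 23 39 (.dbl 22 20 52)) (.rp 52 (.thr 23 39 (.thr 3 43 (.thr 15 11 (.thr 47 31 (.dbl 42 0 32))))) (.rp 22 (.thr 23 39 (.thr 3 43 (.thr 15 11 (.thr 47 31 (.dbl 42 0 32))))) .nd))))) .nd)))))) .nd)))))))))))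

theorem w547 : WinAt (9007336695791616, 35184439197728) :=
  chF (K := []) kn c547 9007336695791616 35184439197728 5
    [] (by decide +kernel) (by decide +kernel)

/-- A certificate. -/
noncomputable def c548 : Ct := (.str 61 (.nv (.thr 1 41 (.thr 49 57 (.thr 25 13 (.dbl 17 29 33)))) (.nv (.thr 49 57 (.thr 41 1 (.thr 45 33 (.dbl 13 25 29)))) (.rp 57 (.str 63 (.nv (.thr 41 1 (.thr 33 45 (.thr 42 0 (.thr 43 40 (.thr 3 23 (.dbl 48 18 58)))))) (.nv (.thr 0 42 (.thr 60 62 (.thr 20 40 (.thr 22 23 (.thr 52 7 (.dbl 48 56 58)))))) (.nv (.thr 41 1 (.thr 33 45 (.thr 48 58 (.thr 3 18 (.dbl 60 22 62))))) (.nv (.thr 41 1 (.thr 60 62 (.thr 22 3 (.thr 20 23 (.dbl 0 40 42))))) (.rp 60 (.thr 41 1 (.thr 33 45 (.thr 48 58 (.thr 3 18 (.thr 43 23 (.dbl 42 0 40)))))) (.rp 42 (.thr 41 1 (.thr 60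 62 (.thr 22 3 (.thr 52 7 (.dbl 48 56 58))))) (.rp 41 (.thr 62 60 (.thr 58 48 (.thr 54 50 (.thr 52 55 (.thr 22 7 (.dbl 42 0 2)))))) .nd)))))))) (.rp 49 (.str 63 (.nv (.thr 41 1 (.thr 60 62 (.thr 22 3 (.thr 52 7 (.dbl 48 56 58))))) (.nv (.thr 41 1 (.thr 33 45 (.thr 42 0 (.thr 40 43 (.thr 32 47 (.thr 44 36 (.dbl 35 34 38))))))) (.nv (.thr 0 42 (.thr 60 62 (.thr 20 40 (.thr 22 23 (.thr 52 7 (.thr 55 54 (.dbl 4 36 38))))))) (.nv (.thr 41 1 (.thr 33 45 (.thr 48 58 (.thr 3 18 (.dbl 60 22 62))))) (.rp 41 (.thr 62 60 (.thr 58 48 (.thr 42 0 (.thr 22 2 (.thr 52 7 (.dbl 54 50 55)))))) .nd)))))) (.rp 41 (.str 55 (.nv (.thr 38 4 (.thr 49 57 (.thr 25 13 (.thr 51 12 (.thr 48 50 (.dbl 63 58 59)))))) (.nv (.thr 52 54 (.thr 22 7 (.thr 20 23 (.dbl 4 36 38)))) (.rp 56 (.str 11 (.nv (.thr 38 4 (.thr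 49 57 (.thr 25 13 (.thr 51 12 (.thr 48 50 (.dbl 63 58 59)))))) (.nv (.thr 38 4 (.thr 39 36 (.thr 52 54 (.dbl 7 22 23)))) (.rp 38 (.thr 49 57 (.thr 25 13 (.thr 52 54 (.thr 22 7 (.thr 19 28 (.thr 23 20 (.thr 27 31 (.thr 59 43 (.thr 42 8 (.dbl 63 0 51)))))))))) (.rp 7 (.thr 49 57 (.thr 25 13 (.thr 54 52 (.thr 38 4 (.thr 6 22 (.thr 51 12 (.thr 48 50 (.dbl 63 58 59)))))))) (.rp 6 (.thr 52 54 (.thr 7 22 (.thr 38 4 (.dbl 39 23 36)))) (.rp 4 (.thr 49 57 (.thr 25 13 (.thr 52 54 (.thr 7 22 (.thr 39 23 (.thr 38 36 (.thr 51 12 (.dbl 15 3 27)))))))) .nd))))))) (.rp 38 (.thr 54 52 (.thr 57 49 (.thr 51 60 (.thr 63 59 (.thr 42 0 (.thr 47 32 (.thr 15 31 (.thr 39 27 (.thr 23 7 (.dbl 43 3 35)))))))))) (.rp 11 (.str 56 (.nv (.thr 38 4 (.thr 49 57 (.thr 25 13 (.thr 51 12 (.thr 48 50 (.dbl 63 58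 59)))))) (.nv (.thr 52 54 (.thr 57 49 (.thr 58 59 (.dbl 48 60 63)))) (.nv (.thr 52 54 (.thr 38 4 (.thr 39 36 (.dbl 7 22 23)))) .nd)))) (.rp 7 (.thr 54 52 (.thr 38 4 (.thr 6 22 (.thr 49 57 (.thr 25 13 (.thr 51 12 (.thr 48 50 (.dbl 63 58 59)))))))) (.rp 6 (.thr 52 54 (.thr 7 22 (.thr 38 4 (.dbl 39 23 36)))) (.rp 4 (.thr 52 54 (.thr 7 22 (.thr 39 23 (.thr 38 36 (.thr 49 57 (.thr 25 13 (.thr 51 12 (.thr 48 50 (.dbl 63 58 59))))))))) .nd))))))))) (.rp 33 (.str 55 (.nv (.thr 52 54 (.thr 7 22 (.thr 38 4 (.dbl 39 23 36)))) (.nv (.thr 52 54 (.thr 22 7 (.thr 20 23 (.dbl 4 36 38)))) (.rp 54 (.thr 38 4 (.thr 49 57 (.thr 25 13 (.thr 51 12 (.thr 48 50 (.dbl 63 58 59)))))) (.rp 52 (.thr 38 4 (.thr 49 57 (.thr 25 13 (.thr 51 12 (.thr 48 50 (.dbl 63 58 59)))))) (.rp 38 (.thr 52 54 (.thr 22 7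 (.thr 41 1 (.thr 60 3 (.thr 63 62 (.dbl 48 56 58)))))) (.rp 36 (.thr 52 54 (.thr 22 7 (.thr 41 1 (.thr 60 3 (.thr 63 62 (.dbl 48 56 58)))))) (.rp 23 (.thr 52 54 (.thr 22 7 (.thr 41 1 (.thr 60 3 (.thr 63 62 (.dbl 48 56 58)))))) (.rp 22 (.thr 54 52 (.thr 38 4 (.thr 57 49 (.thr 51 60 (.thr 25 12 (.dbl 41 1 9)))))) (.rp 7 (.thr 54 52 (.thr 38 4 (.thr 6 22 (.thr 57 49 (.thr 51 60 (.thr 25 12 (.dbl 41 1 9))))))) (.rp 4 (.thr 54 52 (.thr 57 49 (.thr 60 51 (.thr 63 62 (.thr 0 42 (.thr 20 40 (.thr 22 23 (.dbl 41 1 3)))))))) .nd))))))))))) (.rp 29 (.str 63 (.nv (.thr 1 41 (.thr 48 58 (.thr 49 57 (.thr 33 17 (.thr 3 18 (.dbl 0 2 42)))))) (.nv (.thr 41 1 (.thr 42 0 (.thr 43 40 (.thr 3 23 (.dbl 60 22 62))))) (.nv (.thr 57 49 (.thr 60 62 (.thr 51 54 (.thr 58 48 (.dbl 59 55 56))))) .nd))))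 (.rp 25 (.thr 41 1 (.thr 45 33 (.thr 13 29 (.thr 49 57 (.str 63 (.nv (.thr 0 42 (.thr 60 62 (.thr 22 3 (.dbl 20 23 40)))) (.nv (.thr 60 62 (.thr 22 3 (.thr 52 7 (.dbl 48 56 58)))) (.nv (.thr 42 0 (.thr 43 40 (.thr 3 23 (.dbl 60 22 62)))) (.rp 62 (.thr 42 0 (.thr 47 32 (.thr 15 31 (.thr 43 40 (.thr 3 23 (.dbl 60 22 30)))))) (.rp 60 (.thr 48 58 (.thr 51 50 (.thr 59 55 (.thr 42 0 (.thr 47 32 (.thr 15 31 (.thr 27 39 (.dbl 43 11 40)))))))) (.rp 27 (.str 24 (.nv (.thr 60 62 (.thr 22 3 (.thr 52 7 (.dbl 48 56 58)))) (.nv (.thr 48 58 (.thr 36 12 (.thr 38 39 (.thr 51 50 (.dbl 55 4 59))))) (.nv (.thr 42 0 (.thr 43 40 (.thr 60 62 (.dbl 3 22 23)))) (.rp 62 (.thr 48 58 (.thr 12 36 (.thr 42 0 (.thr 47 32 (.dbl 15 14 31))))) .nd))))) (.rp 24 (.str 27 (.nv (.thr 60 62 (.thr 15 30 (.thr 14 12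 (.thr 51 39 (.dbl 48 50 58))))) (.nv (.thr 42 0 (.thr 43 40 (.thr 3 23 (.thr 11 59 (.thr 15 7 (.dbl 47 31 32)))))) (.nv (.thr 48 58 (.thr 51 50 (.thr 39 15 (.thr 38 36 (.dbl 55 4 59))))) (.nv (.thr 60 62 (.thr 22 3 (.thr 20 23 (.dbl 0 40 42)))) .nd))))) (.rp 22 (.thr 60 62 (.thr 42 0 (.thr 47 32 (.dbl 15 30 31)))) (.rp 3 (.thr 60 62 (.thr 0 42 (.thr 20 40 (.thr 22 23 (.thr 52 7 (.dbl 48 56 58)))))) (.rp 0 (.thr 60 62 (.thr 3 22 (.thr 43 23 (.thr 42 40 (.thr 47 32 (.dbl 15 30 31)))))) .nd))))))))))))))) (.rp 13 (.str 55 (.nv (.thr 38 4 (.thr 54 52 (.thr 57 49 (.thr 51 60 (.thr 25 12 (.dbl 41 1 9)))))) (.nv (.thr 1 41 (.thr 52 54 (.thr 7 22 (.thr 38 4 (.dbl 39 23 36))))) (.nv (.thr 52 54 (.thr 22 7 (.thr 20 23 (.dbl 4 36 38)))) (.rp 54 (.thr 38 4 (.thr 49 57 (.thr 1 41 (.thr 17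 33 (.thr 25 29 (.thr 51 12 (.thr 63 59 (.dbl 48 50 58)))))))) (.rp 52 (.thr 38 4 (.thr 49 57 (.thr 1 41 (.thr 17 33 (.thr 25 29 (.thr 51 12 (.thr 63 59 (.dbl 48 50 58)))))))) (.rp 38 (.thr 52 54 (.thr 22 7 (.thr 57 49 (.thr 41 1 (.thr 9 25 (.thr 60 3 (.thr 63 62 (.dbl 48 56 58)))))))) (.rp 36 (.thr 54 52 (.thr 57 49 (.thr 60 51 (.thr 41 1 (.thr 9 25 (.thr 22 3 (.dbl 38 4 6))))))) (.rp 7 (.thr 54 52 (.thr 38 4 (.thr 6 22 (.thr 57 49 (.thr 51 60 (.thr 25 12 (.dbl 41 1 9))))))) (.rp 4 (.thr 54 52 (.thr 57 49 (.thr 60 51 (.thr 63 62 (.thr 0 42 (.thr 20 40 (.thr 22 23 (.dbl 41 1 3)))))))) (.rp 1 (.str 9 (.nv (.thr 54 52 (.thr 57 49 (.thr 25 41 (.thr 51 60 (.dbl 38 4 12))))) (.nv (.thr 38 4 (.thr 57 49 (.thr 25 41 (.thr 51 12 (.thr 60 54 (.dbl 63 59 62)))))) (.nv (.thr 38 4 (.thr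 39 36 (.thr 52 54 (.dbl 7 22 23)))) (.rp 54 (.thr 57 49 (.thr 25 41 (.thr 17 29 (.thr 38 4 (.thr 51 12 (.thr 63 59 (.dbl 0 34 42))))))) (.rp 38 (.thr 57 49 (.thr 25 41 (.thr 17 29 (.thr 54 52 (.thr 51 60 (.thr 63 59 (.dbl 0 34 42))))))) (.rp 4 (.thr 57 49 (.thr 25 41 (.thr 17 29 (.thr 54 52 (.thr 51 60 (.thr 63 59 (.dbl 0 34 42))))))) .nd))))))) .nd))))))))))) (.rp 1 (.thr 49 57 (.thr 13 25 (.thr 45 29 (.thr 41 33 (.str 63 (.nv (.thr 0 42 (.thr 60 62 (.thr 22 3 (.dbl 20 23 40)))) (.nv (.thr 60 62 (.thr 22 3 (.thr 52 7 (.dbl 48 56 58)))) (.nv (.thr 42 0 (.thr 43 40 (.thr 3 23 (.dbl 60 22 62)))) (.rp 62 (.thr 42 0 (.thr 47 32 (.thr 15 31 (.thr 43 40 (.thr 3 23 (.dbl 60 22 30)))))) (.rp 60 (.thr 48 58 (.thr 51 50 (.thr 59 55 (.thr 42 0 (.thr 47 32 (.thr 15 31 (.thr 27 39 (.dbl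 43 11 40)))))))) (.rp 27 (.str 24 (.nv (.thr 60 62 (.thr 22 3 (.thr 52 7 (.dbl 48 56 58)))) (.nv (.thr 48 58 (.thr 36 12 (.thr 38 39 (.thr 51 50 (.dbl 55 4 59))))) (.nv (.thr 42 0 (.thr 43 40 (.thr 60 62 (.dbl 3 22 23)))) (.rp 62 (.thr 48 58 (.thr 12 36 (.thr 42 0 (.thr 47 32 (.dbl 15 14 31))))) .nd))))) (.rp 24 (.str 27 (.nv (.thr 60 62 (.thr 15 30 (.thr 14 12 (.thr 51 39 (.dbl 48 50 58))))) (.nv (.thr 42 0 (.thr 43 40 (.thr 3 23 (.thr 11 59 (.thr 15 7 (.dbl 47 31 32)))))) (.nv (.thr 48 58 (.thr 51 50 (.thr 39 15 (.thr 38 36 (.dbl 55 4 59))))) (.nv (.thr 60 62 (.thr 22 3 (.thr 20 23 (.dbl 0 40 42)))) .nd))))) (.rp 22 (.thr 60 62 (.thr 42 0 (.thr 47 32 (.dbl 15 30 31)))) (.rp 3 (.thr 60 62 (.thr 0 42 (.thr 20 40 (.thr 22 23 (.thr 52 7 (.dbl 48 56 58)))))) (.rp 0 (.thr 60 62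 (.thr 3 22 (.thr 43 23 (.thr 42 40 (.thr 47 32 (.dbl 15 30 31)))))) .nd))))))))))))))) .nd)))))))))))

theorem w548 : WinAt (9007336695791616, 70368811286560) :=
  chF (K := []) kn c548 9007336695791616 70368811286560 5
    [] (by decide +kernel) (by decide +kernel)

/-- A certificate. -/
noncomputable def c549 : Ct := (.str 55 (.nv (.thr 52 54 (.thr 7 22 (.thr 38 4 (.dbl 39 23 36)))) (.nv (.thr 52 54 (.thr 22 7 (.thr 20 23 (.dbl 4 36 38)))) (.rp 54 (.str 63 (.nv (.thr 38 4 (.thr 36 39 (.thr 42 0 (.thr 46 34 (.thr 12 29 (.dbl 48 24 58)))))) (.nv (.thr 0 42 (.thr 51 59 (.thr 17 34 (.thr 25 29 (.thr 49 13 (.dbl 48 50 58)))))) (.nv (.thr 38 4 (.thr 36 39 (.thr 48 58 (.thr 12 24 (.dbl 51 25 59))))) (.nv (.thr 38 4 (.thr 51 59 (.thr 25 12 (.thr 17 29 (.dbl 0 34 42))))) (.rp 51 (.thr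 38 4 (.thr 36 39 (.thr 48 58 (.thr 12 24 (.thr 46 29 (.dbl 42 0 34)))))) (.rp 42 (.thr 38 4 (.thr 51 59 (.thr 25 12 (.thr 49 13 (.dbl 48 50 58))))) (.rp 38 (.thr 59 51 (.thr 58 48 (.thr 57 56 (.thr 49 61 (.thr 25 13 (.dbl 42 0 8)))))) .nd)))))))) (.rp 52 (.str 63 (.nv (.thr 0 42 (.thr 51 59 (.thr 17 34 (.thr 25 29 (.thr 49 13 (.dbl 48 50 58)))))) (.nv (.thr 38 4 (.thr 36 39 (.thr 48 58 (.thr 12 24 (.thr 42 0 (.dbl 46 29 34)))))) (.nv (.thr 38 4 (.thr 36 39 (.thr 51 59 (.thr 12 25 (.dbl 48 24 58))))) (.nv (.thr 0 42 (.thr 51 59 (.thr 17 34 (.thr 25 29 (.dbl 38 4 12))))) (.rp 58 (.thr 38 4 (.thr 51 59 (.thr 12 25 (.thr 46 29 (.dbl 42 0 34))))) (.rp 42 (.thr 38 4 (.thr 51 59 (.thr 25 12 (.thr 49 13 (.dbl 48 50 58))))) (.rp 38 (.thr 59 51 (.thr 58 48 (.thr 42 0 (.thr 25 8 (.thr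 49 13 (.dbl 57 56 61)))))) (.rp 25 (.thr 38 4 (.thr 36 39 (.thr 48 58 (.thr 42 0 (.thr 46 34 (.dbl 12 24 29)))))) .nd))))))))) (.rp 38 (.str 63 (.nv (.thr 0 42 (.thr 52 54 (.thr 22 7 (.thr 20 23 (.thr 60 40 (.dbl 48 56 58)))))) (.nv (.thr 42 0 (.thr 59 51 (.thr 25 8 (.thr 17 29 (.thr 49 13 (.thr 1 33 (.dbl 61 41 57))))))) (.nv (.thr 54 52 (.thr 51 59 (.thr 60 57 (.thr 58 48 (.dbl 62 50 61))))) (.rp 50 (.str 14 (.nv (.thr 0 42 (.thr 51 59 (.thr 54 52 (.thr 60 57 (.thr 62 61 (.thr 17 34 (.thr 46 30 (.dbl 29 12 25)))))))) (.nv (.thr 52 54 (.thr 22 7 (.thr 23 20 (.thr 3 43 (.thr 60 41 (.dbl 48 56 58)))))) (.nv (.thr 42 0 (.thr 59 51 (.thr 25 8 (.thr 17 29 (.thr 49 13 (.thr 1 33 (.dbl 61 41 57))))))) (.nv (.thr 52 54 (.thr 22 7 (.thr 20 23 (.thr 0 42 (.thr 60 40 (.dbl 48 56 58))))))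 (.rp 42 (.thr 52 54 (.thr 22 7 (.thr 23 20 (.thr 3 43 (.thr 41 60 (.thr 33 45 (.dbl 48 18 58))))))) .nd)))))) (.rp 14 (.str 50 (.nv (.thr 54 52 (.dbl 58 48 62)) (.nv (.thr 51 59 (.dbl 48 49 58)) (.rp 58 (.thr 51 59 (.thr 49 48 (.thr 57 61 (.dbl 54 52 60)))) (.rp 48 (.thr 51 59 (.thr 54 52 (.thr 62 58 (.dbl 60 57 61)))) .nd))))) .nd)))))) (.rp 36 (.str 61 (.nv (.thr 38 4 (.thr 49 57 (.thr 25 13 (.thr 51 12 (.thr 48 50 (.dbl 63 58 59)))))) (.nv (.thr 41 1 (.thr 45 33 (.thr 49 57 (.dbl 13 25 29)))) (.rp 57 (.thr 52 54 (.thr 22 7 (.thr 41 1 (.thr 60 3 (.thr 63 62 (.dbl 48 56 58)))))) (.rp 49 (.thr 52 54 (.thr 22 7 (.thr 41 1 (.thr 60 3 (.thr 63 62 (.dbl 48 56 58)))))) (.rp 25 (.thr 52 54 (.thr 22 7 (.thr 41 1 (.thr 60 3 (.thr 63 62 (.dbl 48 56 58)))))) (.rp 13 (.thr 54 52 (.thr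 57 49 (.thr 60 51 (.thr 41 1 (.thr 9 25 (.thr 22 3 (.dbl 38 4 6))))))) (.rp 9 (.thr 49 57 (.thr 13 25 (.thr 41 1 (.dbl 45 29 33)))) (.rp 1 (.thr 54 52 (.thr 57 49 (.thr 60 51 (.thr 63 62 (.thr 0 42 (.thr 38 4 (.thr 20 40 (.dbl 22 6 23)))))))) .nd))))))))) (.rp 23 (.str 61 (.nv (.thr 1 41 (.thr 49 57 (.thr 25 13 (.dbl 17 29 33)))) (.nv (.thr 41 1 (.thr 45 33 (.thr 49 57 (.dbl 13 25 29)))) (.rp 57 (.thr 52 54 (.thr 22 7 (.thr 41 1 (.thr 60 3 (.thr 63 62 (.dbl 48 56 58)))))) (.rp 49 (.thr 52 54 (.thr 22 7 (.thr 41 1 (.thr 60 3 (.thr 63 62 (.dbl 48 56 58)))))) (.rp 41 (.thr 38 4 (.thr 49 57 (.thr 25 13 (.thr 51 12 (.thr 48 50 (.dbl 63 58 59)))))) (.rp 33 (.thr 52 54 (.thr 22 7 (.thr 41 1 (.thr 60 3 (.thr 63 62 (.dbl 48 56 58)))))) (.rp 29 (.thr 52 54 (.thr 22 7 (.thr 41 1 (.thr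 60 3 (.thr 63 62 (.dbl 48 56 58)))))) (.rp 25 (.thr 52 54 (.thr 22 7 (.thr 41 1 (.thr 60 3 (.thr 63 62 (.dbl 48 56 58)))))) (.rp 13 (.thr 54 52 (.thr 38 4 (.thr 57 49 (.thr 51 60 (.thr 25 12 (.dbl 41 1 9)))))) (.rp 1 (.thr 54 52 (.thr 38 4 (.thr 36 39 (.thr 57 49 (.thr 51 60 (.thr 12 25 (.thr 63 59 (.dbl 48 24 58)))))))) .nd))))))))))) (.rp 22 (.thr 38 4 (.thr 39 36 (.thr 7 23 (.thr 52 54 (.str 51 (.nv (.thr 25 12 (.thr 63 59 (.thr 48 58 (.dbl 49 13 50)))) (.nv (.thr 25 12 (.thr 49 13 (.thr 61 57 (.thr 1 41 (.dbl 17 29 33))))) (.nv (.thr 63 59 (.thr 42 0 (.thr 46 34 (.dbl 12 25 29)))) (.rp 30 (.str 18 (.nv (.thr 63 59 (.thr 48 58 (.thr 50 49 (.thr 34 2 (.dbl 0 17 42))))) (.nv (.thr 15 27 (.thr 25 12 (.thr 49 13 (.thr 48 50 (.dbl 3 11 33))))) (.nv (.thr 15 27 (.thr 3 11 (.thr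 48 33 (.dbl 63 58 59)))) (.nv (.thr 63 59 (.thr 42 0 (.thr 46 34 (.dbl 12 25 29)))) .nd))))) (.rp 25 (.thr 63 59 (.thr 42 0 (.thr 34 46 (.thr 48 58 (.thr 50 49 (.thr 18 2 (.thr 3 33 (.dbl 15 11 27)))))))) (.rp 18 (.str 30 (.nv (.thr 15 27 (.thr 45 60 (.thr 3 11 (.thr 41 33 (.dbl 35 19 44))))) (.nv (.thr 25 12 (.thr 17 29 (.thr 63 59 (.dbl 0 34 42)))) (.rp 59 (.thr 15 27 (.thr 60 45 (.thr 48 56 (.thr 49 50 (.dbl 25 12 13))))) (.rp 25 (.thr 63 59 (.thr 48 58 (.thr 42 0 (.thr 46 34 (.thr 62 14 (.dbl 60 56 61)))))) (.rp 24 (.thr 63 59 (.thr 48 58 (.thr 25 12 (.dbl 49 13 50)))) .nd)))))) (.rp 12 (.thr 63 59 (.thr 0 42 (.thr 17 34 (.thr 25 29 (.thr 49 13 (.dbl 48 50 58)))))) (.rp 8 (.thr 63 59 (.thr 0 42 (.thr 25 12 (.dbl 17 29 34)))) (.rp 0 (.thr 59 63 (.thr 25 12 (.thr 8 42 (.thr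 49 13 (.thr 48 50 (.thr 56 60 (.dbl 57 58 61))))))) .nd)))))))))))))) (.rp 7 (.str 61 (.nv (.thr 4 38 (.thr 1 41 (.thr 49 57 (.thr 25 13 (.dbl 17 29 33))))) (.nv (.thr 41 1 (.thr 54 52 (.thr 57 49 (.thr 60 51 (.thr 22 3 (.dbl 38 4 6)))))) (.nv (.thr 41 1 (.thr 45 33 (.thr 49 57 (.dbl 13 25 29)))) (.rp 57 (.thr 52 54 (.thr 4 38 (.thr 20 36 (.thr 22 23 (.thr 41 1 (.thr 60 3 (.thr 63 62 (.dbl 48 56 58)))))))) (.rp 49 (.thr 52 54 (.thr 4 38 (.thr 20 36 (.thr 22 23 (.thr 41 1 (.thr 60 3 (.thr 63 62 (.dbl 48 56 58)))))))) (.rp 41 (.thr 54 52 (.thr 38 4 (.thr 6 22 (.thr 49 57 (.thr 25 13 (.thr 51 12 (.thr 48 50 (.dbl 63 58 59)))))))) (.rp 33 (.thr 54 52 (.thr 38 4 (.thr 6 22 (.thr 57 49 (.thr 51 60 (.thr 25 12 (.dbl 41 1 9))))))) (.rp 13 (.thr 54 52 (.thr 38 4 (.thr 6 22 (.thr 57 49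 (.thr 51 60 (.thr 25 12 (.dbl 41 1 9))))))) (.rp 4 (.str 6 (.nv (.thr 54 52 (.thr 22 38 (.thr 57 49 (.thr 60 51 (.dbl 41 1 3))))) (.nv (.thr 41 1 (.thr 54 52 (.thr 22 38 (.thr 60 3 (.thr 51 57 (.dbl 63 59 62)))))) (.nv (.thr 41 1 (.thr 45 33 (.thr 49 57 (.dbl 13 25 29)))) (.rp 57 (.thr 54 52 (.thr 22 38 (.thr 20 23 (.thr 41 1 (.thr 60 3 (.thr 63 62 (.dbl 0 40 42))))))) (.rp 41 (.thr 54 52 (.thr 22 38 (.thr 20 23 (.thr 57 49 (.thr 60 51 (.thr 63 62 (.dbl 0 40 42))))))) (.rp 1 (.thr 54 52 (.thr 22 38 (.thr 20 23 (.thr 57 49 (.thr 60 51 (.thr 63 62 (.dbl 0 40 42))))))) .nd))))))) (.rp 1 (.thr 54 52 (.thr 57 49 (.thr 60 51 (.thr 63 62 (.thr 0 42 (.thr 20 40 (.thr 22 23 (.dbl 38 4 6)))))))) .nd))))))))))) (.rp 4 (.thr 52 54 (.thr 7 22 (.thr 39 23 (.thr 38 36 (.str 51 (.nv (.thr 25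 12 (.thr 63 59 (.thr 48 58 (.dbl 49 13 50)))) (.nv (.thr 25 12 (.thr 49 13 (.thr 61 57 (.thr 1 41 (.dbl 17 29 33))))) (.nv (.thr 63 59 (.thr 42 0 (.thr 46 34 (.dbl 12 25 29)))) (.rp 30 (.str 18 (.nv (.thr 63 59 (.thr 48 58 (.thr 50 49 (.thr 34 2 (.dbl 0 17 42))))) (.nv (.thr 15 27 (.thr 25 12 (.thr 49 13 (.thr 48 50 (.dbl 3 11 33))))) (.nv (.thr 15 27 (.thr 3 11 (.thr 48 33 (.dbl 63 58 59)))) (.nv (.thr 63 59 (.thr 42 0 (.thr 46 34 (.dbl 12 25 29)))) .nd))))) (.rp 25 (.thr 63 59 (.thr 42 0 (.thr 34 46 (.thr 48 58 (.thr 50 49 (.thr 18 2 (.thr 3 33 (.dbl 15 11 27)))))))) (.rp 18 (.str 30 (.nv (.thr 15 27 (.thr 45 60 (.thr 3 11 (.thr 41 33 (.dbl 35 19 44))))) (.nv (.thr 25 12 (.thr 17 29 (.thr 63 59 (.dbl 0 34 42)))) (.rp 59 (.thr 15 27 (.thr 60 45 (.thr 48 56 (.thr 49 50 (.dbl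 25 12 13))))) (.rp 25 (.thr 63 59 (.thr 48 58 (.thr 42 0 (.thr 46 34 (.thr 62 14 (.dbl 60 56 61)))))) (.rp 24 (.thr 63 59 (.thr 48 58 (.thr 25 12 (.dbl 49 13 50)))) .nd)))))) (.rp 12 (.thr 63 59 (.thr 0 42 (.thr 17 34 (.thr 25 29 (.thr 49 13 (.dbl 48 50 58)))))) (.rp 8 (.thr 63 59 (.thr 0 42 (.thr 25 12 (.dbl 17 29 34)))) (.rp 0 (.thr 59 63 (.thr 25 12 (.thr 8 42 (.thr 49 13 (.thr 48 50 (.thr 56 60 (.dbl 57 58 61))))))) .nd)))))))))))))) .nd)))))))))))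

theorem w549 : WinAt (9007336695791616, 140737555464224) :=
  chF (K := []) kn c549 9007336695791616 140737555464224 5
    [] (by decide +kernel) (by decide +kernel)

/-- A certificate. -/
noncomputable def c550 : Ct := (.str 22 (.nv (.thr 20 23 (.thr 52 7 (.thr 55 54 (.dbl 4 36 38)))) (.rp 55 (.str 41 (.nv (.thr 1 61 (.thr 3 60 (.thr 0 2 (.thr 23 20 (.dbl 63 42 43))))) (.nv (.thr 61 1 (.thr 49 57 (.thr 45 33 (.dbl 13 25 29)))) (.rp 61 (.thr 23 20 (.thr 3 60 (.thr 33 45 (.thr 63 43 (.thr 0 42 (.thr 1 2 (.thr 17 49 (.thr 51 34 (.thr 19 35 (.dbl 25 28 29)))))))))) (.rp 3 (.thr 61 1 (.thr 49 57 (.thr 13 25 (.dbl 45 29 33)))) (.rp 1 (.thr 20 23 (.thr 60 3 (.thr 0 40 (.thr 63 42 (.thr 61 62 (.thr 49 57 (.thr 13 25 (.dbl 45 29 33)))))))) .nd)))))) (.rp 54 (.str 60 (.nv (.thr 41 3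 (.thr 61 1 (.thr 49 57 (.thr 13 25 (.dbl 45 29 33))))) (.nv (.thr 3 41 (.thr 20 23 (.thr 0 40 (.thr 42 63 (.dbl 2 1 62))))) (.rp 41 (.thr 20 23 (.thr 52 7 (.thr 4 36 (.thr 0 40 (.thr 12 8 (.thr 44 28 (.thr 42 63 (.thr 47 32 (.thr 46 45 (.dbl 38 34 55)))))))))) (.rp 3 (.thr 20 23 (.thr 0 40 (.thr 63 42 (.thr 61 62 (.thr 49 57 (.thr 13 25 (.thr 45 29 (.dbl 41 1 33)))))))) (.rp 2 (.thr 20 23 (.thr 0 40 (.thr 63 42 (.thr 61 62 (.dbl 41 1 3))))) (.rp 1 (.thr 23 20 (.thr 3 41 (.thr 63 43 (.thr 62 61 (.dbl 42 0 2))))) (.rp 0 (.thr 23 20 (.thr 7 52 (.thr 39 55 (.thr 3 41 (.thr 43 63 (.thr 35 47 (.thr 51 19 (.dbl 15 11 27)))))))) .nd)))))))) (.rp 52 (.str 60 (.nv (.thr 41 3 (.thr 61 1 (.thr 49 57 (.thr 13 25 (.dbl 45 29 33))))) (.nv (.thr 20 23 (.thr 0 40 (.thr 42 63 (.thr 2 62 (.dbl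 3 1 41))))) (.rp 41 (.thr 20 23 (.str 54 (.nv (.thr 38 6 (.thr 51 57 (.thr 25 12 (.thr 17 29 (.dbl 0 34 40))))) (.nv (.thr 0 40 (.thr 38 6 (.thr 4 55 (.thr 12 8 (.thr 25 51 (.dbl 28 19 44)))))) (.nv (.thr 0 40 (.thr 51 57 (.thr 17 34 (.thr 25 29 (.dbl 38 6 12))))) (.rp 56 (.str 11 (.nv (.thr 0 40 (.thr 38 6 (.thr 42 63 (.thr 51 57 (.dbl 34 17 46))))) (.nv (.thr 0 40 (.thr 38 6 (.thr 42 63 (.thr 34 46 (.dbl 51 17 57))))) (.nv (.thr 38 6 (.thr 51 57 (.thr 25 12 (.thr 17 29 (.dbl 0 34 40))))) (.nv (.thr 0 40 (.thr 6 38 (.thr 42 63 (.thr 2 62 (.thr 3 1 (.thr 9 12 (.dbl 10 8 14))))))) (.nv (.thr 0 40 (.thr 51 57 (.thr 17 34 (.thr 25 29 (.dbl 38 6 12))))) (.rp 51 (.thr 6 38 (.thr 0 40 (.thr 42 63 (.thr 2 62 (.thr 14 10 (.thr 3 1 (.thr 15 7 (.dbl 12 9 13)))))))) (.rp 40 (.thr 38 6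 (.thr 4 55 (.thr 39 36 (.thr 51 57 (.thr 15 27 (.thr 3 7 (.thr 19 35 (.dbl 25 12 28)))))))) (.rp 38 (.thr 51 57 (.thr 0 40 (.thr 42 63 (.thr 2 62 (.thr 3 1 (.thr 35 19 (.thr 34 17 (.dbl 32 33 47)))))))) (.rp 24 (.thr 38 6 (.thr 36 39 (.thr 51 57 (.thr 25 12 (.thr 17 29 (.dbl 0 34 40)))))) (.rp 6 (.thr 51 57 (.thr 0 40 (.thr 17 34 (.thr 25 29 (.thr 28 19 (.dbl 12 38 44)))))) (.rp 0 (.thr 38 6 (.thr 4 55 (.thr 39 36 (.thr 51 57 (.thr 15 27 (.thr 3 7 (.thr 19 35 (.dbl 25 12 28)))))))) .nd)))))))))))) (.rp 51 (.thr 38 6 (.thr 4 55 (.thr 0 40 (.thr 12 8 (.thr 28 44 (.thr 25 19 (.thr 29 17 (.dbl 63 42 46)))))))) (.rp 40 (.thr 38 6 (.thr 51 57 (.thr 25 12 (.thr 28 19 (.thr 29 17 (.thr 13 49 (.thr 45 61 (.dbl 30 15 31)))))))) (.rp 38 (.thr 51 57 (.thr 0 40 (.thr 17 34 (.thr 25 29 (.thr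 28 19 (.thr 42 63 (.thr 8 59 (.dbl 12 4 44)))))))) (.rp 25 (.thr 38 6 (.thr 0 40 (.thr 42 63 (.thr 34 46 (.dbl 51 17 57))))) (.rp 12 (.thr 38 6 (.thr 51 57 (.thr 0 40 (.thr 34 17 (.dbl 42 46 63))))) (.rp 11 (.str 56 (.nv (.thr 38 6 (.thr 51 57 (.thr 25 12 (.thr 17 29 (.dbl 0 34 40))))) (.nv (.thr 0 40 (.thr 42 63 (.thr 57 51 (.thr 62 2 (.dbl 58 50 59))))) (.nv (.thr 0 40 (.thr 51 57 (.thr 17 34 (.thr 25 29 (.dbl 38 6 12))))) (.rp 57 (.thr 38 6 (.thr 4 55 (.thr 0 40 (.thr 12 8 (.thr 28 44 (.dbl 25 19 51)))))) (.rp 51 (.thr 38 6 (.thr 4 55 (.thr 0 40 (.thr 12 8 (.thr 28 44 (.thr 25 19 (.thr 29 17 (.dbl 63 42 46)))))))) (.rp 40 (.thr 38 6 (.thr 51 57 (.thr 25 12 (.thr 13 49 (.thr 29 17 (.thr 61 45 (.thr 63 62 (.dbl 55 4 59)))))))) (.rp 0 (.thr 38 6 (.thr 51 57 (.thr 25 12 (.thr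 13 49 (.thr 29 17 (.thr 61 45 (.thr 63 62 (.dbl 55 4 59)))))))) .nd)))))))) (.rp 6 (.thr 51 57 (.thr 0 40 (.thr 17 34 (.thr 25 29 (.thr 28 19 (.dbl 12 38 44)))))) (.rp 0 (.thr 38 6 (.thr 51 57 (.thr 25 12 (.thr 28 19 (.thr 29 17 (.thr 13 49 (.thr 45 61 (.dbl 30 15 31)))))))) .nd)))))))))))))) (.rp 3 (.thr 20 23 (.thr 0 40 (.thr 63 42 (.thr 61 62 (.thr 49 57 (.thr 13 25 (.thr 45 29 (.dbl 41 1 33)))))))) (.rp 2 (.thr 20 23 (.thr 0 40 (.thr 63 42 (.thr 61 62 (.dbl 41 1 3))))) (.rp 1 (.thr 23 20 (.thr 3 41 (.thr 63 43 (.thr 62 61 (.dbl 42 0 2))))) (.rp 0 (.thr 23 20 (.thr 3 41 (.thr 63 43 (.thr 61 62 (.thr 49 57 (.thr 25 13 (.thr 28 19 (.thr 12 44 (.dbl 29 17 46))))))))) .nd)))))))) (.rp 38 (.str 25 (.nv (.thr 17 29 (.thr 49 13 (.thr 61 57 (.dbl 1 33 41)))) (.rp 61 (.thr 23 20 (.thr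 19 28 (.thr 27 31 (.thr 7 52 (.thr 39 55 (.thr 51 15 (.thr 3 35 (.thr 63 43 (.thr 0 42 (.dbl 17 29 34)))))))))) (.rp 57 (.thr 28 19 (.thr 29 17 (.thr 30 31 (.thr 13 49 (.thr 45 61 (.thr 60 15 (.dbl 41 3 33))))))) (.rp 50 (.str 14 (.nv (.thr 49 13 (.thr 61 57 (.thr 17 29 (.dbl 1 33 41)))) (.rp 61 (.thr 28 19 (.thr 29 17 (.thr 30 31 (.thr 46 62 (.thr 12 63 (.thr 60 44 (.dbl 15 13 45))))))) (.rp 57 (.thr 28 19 (.thr 29 17 (.thr 30 31 (.thr 46 62 (.thr 12 63 (.dbl 13 15 49)))))) (.rp 49 (.str 51 (.nv (.thr 17 29 (.thr 0 34 (.thr 19 28 (.thr 3 35 (.thr 2 1 (.dbl 42 62 63)))))) (.nv (.thr 7 52 (.thr 19 28 (.thr 3 35 (.thr 15 11 (.thr 27 39 (.dbl 23 20 31)))))) (.nv (.thr 17 29 (.thr 52 7 (.thr 55 54 (.thr 63 59 (.dbl 0 34 42))))) .nd)))) (.rp 41 (.thr 28 19 (.thr 29 17 (.thr 30 31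 (.thr 46 62 (.thr 12 63 (.dbl 13 15 49)))))) (.rp 33 (.thr 52 7 (.thr 54 55 (.thr 49 13 (.thr 57 61 (.thr 60 51 (.dbl 41 3 9)))))) (.rp 29 (.str 63 (.nv (.thr 19 28 (.thr 23 20 (.thr 31 27 (.thr 47 15 (.dbl 42 0 32))))) (.nv (.thr 49 13 (.thr 61 57 (.thr 60 62 (.dbl 41 1 3)))) (.rp 49 (.str 51 (.nv (.thr 19 28 (.thr 3 35 (.dbl 23 20 43))) (.nv (.thr 55 59 (.dbl 52 7 54)) .nd))) .nd)))) (.rp 17 (.thr 52 7 (.thr 54 55 (.thr 49 13 (.thr 57 61 (.thr 60 51 (.dbl 41 3 9)))))) (.rp 13 (.thr 28 19 (.thr 29 17 (.thr 30 31 (.thr 46 62 (.thr 12 63 (.thr 60 44 (.thr 41 3 (.dbl 45 15 33)))))))) (.rp 9 (.thr 17 29 (.thr 49 13 (.thr 1 33 (.dbl 61 41 57)))) (.rp 1 (.thr 28 19 (.thr 29 17 (.thr 30 31 (.thr 46 62 (.thr 12 63 (.dbl 13 15 49)))))) .nd)))))))))))) (.rp 49 (.thr 23 20 (.thr 19 28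 (.thr 27 31 (.thr 7 52 (.thr 39 55 (.thr 51 15 (.thr 3 35 (.thr 63 43 (.thr 0 42 (.dbl 17 29 34)))))))))) (.rp 41 (.thr 23 20 (.thr 28 19 (.thr 29 17 (.thr 30 31 (.thr 13 49 (.thr 45 61 (.thr 60 15 (.thr 44 12 (.thr 47 46 (.thr 42 32 (.thr 52 7 (.thr 55 54 (.thr 59 8 (.dbl 63 0 51)))))))))))))) (.rp 33 (.thr 49 13 (.thr 57 61 (.thr 52 7 (.thr 54 55 (.thr 60 51 (.dbl 41 3 9)))))) (.rp 29 (.thr 7 52 (.thr 20 23 (.str 60 (.nv (.thr 0 40 (.thr 28 19 (.thr 12 44 (.thr 8 4 (.dbl 42 59 63))))) (.nv (.thr 49 13 (.thr 61 57 (.dbl 41 1 3))) (.rp 50 (.str 14 (.nv (.thr 0 40 (.thr 28 19 (.thr 42 63 (.thr 8 59 (.dbl 12 4 44))))) (.nv (.thr 49 13 (.thr 61 57 (.dbl 41 1 3))) (.rp 49 (.str 51 (.nv (.thr 41 3 (.dbl 57 9 54)) (.nv (.thr 19 28 (.dbl 3 35 41)) (.rp 41 (.thr 28 19 (.thr 0 40 (.thr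 42 63 (.thr 8 59 (.dbl 12 4 44))))) (.rp 3 (.thr 28 19 (.thr 12 44 (.thr 0 40 (.thr 8 4 (.dbl 42 59 63))))) .nd))))) (.rp 3 (.thr 28 19 (.thr 12 44 (.dbl 13 15 49))) .nd))))) (.rp 41 (.thr 49 13 (.thr 61 57 (.thr 63 62 (.dbl 0 40 42)))) (.rp 14 (.str 50 (.nv (.thr 0 40 (.thr 28 19 (.thr 12 44 (.thr 8 4 (.dbl 42 59 63))))) (.nv (.thr 49 13 (.thr 61 57 (.dbl 41 1 3))) (.rp 41 (.thr 49 13 (.thr 61 57 (.thr 63 62 (.dbl 0 40 42)))) (.rp 12 (.thr 41 3 (.thr 61 1 (.dbl 49 13 57))) .nd))))) .nd)))))))) (.rp 17 (.thr 49 13 (.thr 57 61 (.thr 52 7 (.thr 54 55 (.thr 60 51 (.dbl 41 3 9)))))) (.rp 14 (.str 50 (.nv (.thr 17 29 (.thr 49 13 (.thr 61 57 (.dbl 1 33 41)))) (.rp 61 (.thr 17 29 (.thr 19 28 (.thr 18 16 (.thr 52 7 (.thr 54 55 (.thr 62 58 (.dbl 2 34 42))))))) (.rp 57 (.thr 29 17 (.thr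 28 19 (.thr 30 31 (.thr 13 49 (.thr 45 61 (.thr 60 15 (.dbl 41 3 33))))))) (.rp 49 (.thr 17 29 (.thr 19 28 (.thr 18 16 (.thr 52 7 (.thr 54 55 (.thr 62 58 (.dbl 2 34 42))))))) (.rp 41 (.thr 17 29 (.thr 19 28 (.thr 18 16 (.thr 52 7 (.thr 54 55 (.thr 62 58 (.dbl 2 34 42))))))) (.rp 33 (.thr 52 7 (.thr 54 55 (.thr 49 13 (.thr 57 61 (.thr 60 51 (.dbl 41 3 9)))))) (.rp 29 (.thr 52 7 (.thr 54 55 (.thr 62 58 (.thr 49 13 (.thr 61 57 (.thr 63 60 (.dbl 42 0 2))))))) (.rp 17 (.thr 52 7 (.thr 54 55 (.thr 49 13 (.thr 57 61 (.thr 60 51 (.dbl 41 3 9)))))) (.rp 15 (.thr 17 29 (.thr 19 28 (.thr 18 16 (.thr 52 7 (.thr 54 55 (.thr 62 58 (.dbl 2 34 42))))))) (.rp 13 (.thr 17 29 (.thr 19 28 (.thr 18 16 (.thr 52 7 (.thr 54 55 (.thr 62 58 (.dbl 2 34 42))))))) (.rp 12 (.thr 29 17 (.thr 28 19 (.thr 30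 31 (.thr 13 49 (.thr 45 61 (.thr 60 15 (.dbl 41 3 33))))))) (.rp 9 (.thr 17 29 (.thr 49 13 (.thr 1 33 (.dbl 61 41 57)))) (.rp 1 (.thr 17 29 (.thr 19 28 (.thr 18 16 (.thr 52 7 (.thr 54 55 (.thr 62 58 (.dbl 2 34 42))))))) .nd)))))))))))))) (.rp 13 (.thr 23 20 (.thr 19 28 (.thr 27 31 (.thr 7 52 (.thr 39 55 (.thr 51 15 (.thr 3 35 (.thr 63 43 (.thr 0 42 (.dbl 17 29 34)))))))))) (.rp 9 (.thr 17 29 (.thr 49 13 (.thr 1 33 (.dbl 61 41 57)))) (.rp 1 (.thr 23 20 (.thr 19 28 (.thr 27 31 (.thr 7 52 (.thr 39 55 (.thr 51 15 (.thr 3 35 (.thr 63 43 (.thr 0 42 (.dbl 17 29 34)))))))))) .nd)))))))))))))) (.rp 36 (.thr 20 23 (.str 0 (.nv (.thr 42 63 (.thr 2 62 (.thr 3 1 (.dbl 60 40 41)))) (.nv (.thr 52 7 (.thr 60 40 (.thr 63 42 (.thr 61 62 (.thr 57 49 (.dbl 54 51 55)))))) (.nv (.thr 52 7 (.thr 60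 40 (.thr 41 3 (.thr 61 1 (.thr 57 49 (.dbl 54 51 55)))))) (.nv (.thr 42 63 (.thr 2 62 (.thr 60 40 (.dbl 3 1 41)))) (.rp 63 (.thr 52 7 (.thr 55 54 (.thr 4 38 (.thr 40 60 (.thr 8 12 (.thr 24 56 (.thr 28 16 (.thr 25 19 (.thr 49 13 (.thr 42 59 (.thr 57 61 (.thr 62 2 (.dbl 41 9 43))))))))))))) (.rp 60 (.thr 52 7 (.thr 55 54 (.thr 63 42 (.thr 51 59 (.thr 17 34 (.thr 25 29 (.dbl 38 4 12))))))) (.rp 43 (.thr 60 40 (.thr 3 41 (.thr 42 63 (.dbl 2 1 62)))) (.rp 41 (.thr 52 7 (.thr 55 54 (.thr 63 42 (.thr 51 59 (.thr 17 34 (.thr 25 29 (.dbl 38 4 12))))))) (.rp 40 (.thr 52 7 (.thr 55 54 (.thr 63 42 (.thr 51 59 (.thr 17 34 (.thr 25 29 (.dbl 38 4 12))))))) (.rp 24 (.str 12 (.nv (.thr 42 63 (.thr 2 62 (.thr 3 1 (.dbl 60 40 41)))) (.nv (.thr 52 7 (.thr 55 54 (.dbl 4 8 38))) (.rp 27 (.str 25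 (.nv (.thr 19 28 (.thr 8 4 (.dbl 42 59 63))) (.nv (.thr 17 29 (.dbl 51 34 38)) (.rp 19 (.str 31 (.nv (.thr 8 4 (.dbl 42 59 63)) (.nv (.thr 17 29 (.dbl 51 34 38)) .nd))) .nd)))) (.rp 25 (.str 27 (.nv (.thr 42 63 (.thr 2 62 (.thr 3 1 (.dbl 60 40 41)))) (.nv (.thr 52 7 (.thr 55 54 (.dbl 4 8 38))) .nd))) .nd))))) (.rp 12 (.str 24 (.nv (.thr 28 16 (.thr 25 19 (.thr 40 60 (.thr 8 56 (.thr 52 7 (.dbl 42 59 63)))))) (.nv (.thr 28 16 (.thr 25 19 (.thr 17 29 (.thr 49 13 (.thr 61 57 (.dbl 1 33 41)))))) (.nv (.thr 42 63 (.thr 2 62 (.thr 60 40 (.dbl 3 1 41)))) (.rp 63 (.thr 28 16 (.thr 25 19 (.thr 60 40 (.thr 49 13 (.thr 57 61 (.dbl 41 3 9)))))) (.rp 41 (.thr 28 16 (.thr 25 19 (.thr 40 60 (.thr 42 63 (.dbl 8 56 59))))) .nd)))))) .nd))))))))))))) (.rp 23 (.str 41 (.nv (.thr 61 1 (.thr 49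 57 (.thr 13 25 (.dbl 45 29 33)))) (.nv (.thr 52 7 (.thr 60 3 (.thr 61 1 (.thr 57 49 (.dbl 54 51 55))))) (.nv (.thr 61 1 (.thr 49 57 (.thr 45 33 (.dbl 13 25 29)))) (.rp 61 (.thr 52 7 (.thr 55 54 (.thr 4 38 (.thr 20 36 (.thr 60 3 (.thr 0 40 (.thr 12 8 (.thr 44 28 (.thr 63 42 (.thr 46 29 (.dbl 45 33 47))))))))))) (.rp 57 (.thr 52 7 (.thr 55 54 (.thr 4 38 (.thr 20 36 (.thr 60 3 (.thr 0 40 (.thr 61 1 (.dbl 63 42 62)))))))) (.rp 49 (.thr 52 7 (.thr 55 54 (.thr 4 38 (.thr 20 36 (.thr 60 3 (.thr 0 40 (.thr 61 1 (.dbl 63 42 62)))))))) (.rp 33 (.thr 52 7 (.thr 55 54 (.thr 3 60 (.thr 1 61 (.thr 0 2 (.thr 63 42 (.thr 51 59 (.thr 35 19 (.dbl 38 4 44))))))))) (.rp 13 (.thr 52 7 (.thr 55 54 (.thr 4 38 (.thr 20 36 (.thr 60 3 (.thr 0 40 (.thr 63 42 (.dbl 61 1 62)))))))) (.rp 9 (.thr 45 33 (.thr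 61 1 (.thr 13 29 (.dbl 49 25 57)))) (.rp 1 (.thr 52 7 (.thr 55 54 (.thr 4 38 (.thr 20 36 (.thr 60 3 (.thr 0 40 (.thr 12 8 (.thr 44 28 (.thr 63 42 (.thr 46 29 (.dbl 45 33 47))))))))))) .nd))))))))))) (.rp 20 (.str 60 (.nv (.thr 52 7 (.thr 54 55 (.thr 41 3 (.thr 57 51 (.dbl 61 1 49))))) (.nv (.thr 3 41 (.thr 52 7 (.thr 54 55 (.thr 51 57 (.thr 19 35 (.thr 25 28 (.dbl 38 6 12))))))) (.nv (.thr 41 3 (.thr 61 1 (.thr 49 57 (.thr 13 25 (.dbl 45 29 33))))) (.rp 57 (.thr 52 7 (.thr 55 54 (.thr 41 3 (.thr 61 1 (.thr 63 62 (.thr 51 59 (.thr 0 42 (.thr 17 34 (.thr 25 29 (.dbl 38 4 12)))))))))) (.rp 41 (.thr 52 7 (.thr 54 55 (.thr 57 51 (.thr 49 61 (.thr 25 13 (.thr 28 19 (.thr 12 44 (.thr 29 17 (.thr 31 30 (.thr 63 46 (.thr 47 15 (.dbl 42 0 32)))))))))))) (.rp 3 (.str 33 (.nv (.thr 52 7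 (.thr 54 55 (.thr 57 51 (.thr 49 61 (.thr 17 1 (.dbl 25 13 29)))))) (.nv (.thr 41 45 (.thr 61 1 (.thr 57 49 (.thr 62 63 (.thr 54 51 (.thr 50 58 (.dbl 52 7 55))))))) (.nv (.thr 45 41 (.thr 15 30 (.thr 52 7 (.thr 54 55 (.thr 51 57 (.thr 39 27 (.dbl 38 6 36))))))) (.nv (.thr 52 7 (.thr 41 45 (.thr 61 1 (.thr 57 49 (.dbl 54 51 55))))) (.rp 57 (.thr 52 7 (.thr 55 54 (.thr 41 45 (.thr 61 1 (.thr 63 62 (.thr 51 59 (.thr 0 42 (.thr 17 34 (.thr 25 29 (.dbl 38 4 12)))))))))) (.rp 55 (.thr 41 45 (.thr 61 1 (.thr 63 62 (.thr 57 49 (.thr 51 54 (.thr 0 42 (.thr 17 34 (.dbl 25 9 29)))))))) (.rp 54 (.str 55 (.nv (.thr 7 52 (.thr 39 23 (.dbl 38 4 36))) (.rp 63 (.thr 38 4 (.thr 41 45 (.thr 35 44 (.thr 32 34 (.thr 47 42 (.dbl 39 36 43)))))) (.rp 52 (.thr 38 4 (.thr 36 39 (.thr 41 45 (.thr 61 1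 (.thr 63 62 (.thr 44 35 (.thr 12 28 (.dbl 51 25 59)))))))) (.rp 43 (.thr 7 52 (.thr 41 45 (.thr 61 1 (.thr 39 23 (.thr 63 62 (.dbl 38 4 36)))))) (.rp 39 (.thr 38 4 (.thr 41 45 (.thr 61 1 (.thr 63 62 (.thr 44 35 (.thr 12 28 (.dbl 51 25 59))))))) (.rp 38 (.thr 7 52 (.thr 39 23 (.thr 45 41 (.thr 15 30 (.thr 51 27 (.thr 63 59 (.thr 62 61 (.dbl 42 0 2)))))))) (.rp 36 (.thr 41 45 (.thr 61 1 (.thr 63 62 (.thr 49 57 (.thr 51 59 (.thr 0 42 (.thr 17 34 (.dbl 25 13 29)))))))) (.rp 23 (.thr 38 4 (.thr 41 45 (.thr 35 44 (.thr 32 34 (.thr 47 42 (.dbl 39 36 43)))))) (.rp 7 (.thr 41 45 (.thr 61 1 (.thr 63 62 (.thr 49 57 (.thr 51 59 (.thr 0 42 (.thr 17 34 (.dbl 25 13 29)))))))) (.rp 4 (.thr 41 45 (.thr 61 1 (.thr 63 62 (.thr 49 57 (.thr 51 59 (.thr 0 42 (.thr 17 34 (.dbl 25 13 29)))))))) .nd)))))))))))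 (.rp 52 (.thr 41 45 (.thr 61 1 (.thr 63 62 (.thr 57 49 (.thr 51 54 (.thr 0 42 (.thr 17 34 (.dbl 25 9 29)))))))) (.rp 51 (.thr 52 7 (.thr 55 54 (.thr 4 38 (.thr 41 45 (.thr 61 1 (.thr 63 62 (.thr 49 57 (.thr 0 42 (.thr 12 8 (.thr 28 44 (.dbl 25 13 19))))))))))) (.rp 9 (.thr 52 7 (.thr 54 55 (.thr 41 45 (.thr 57 51 (.dbl 61 1 49))))) (.rp 7 (.thr 41 45 (.thr 61 1 (.thr 63 62 (.thr 57 49 (.thr 51 54 (.thr 0 42 (.thr 17 34 (.dbl 25 9 29)))))))) .nd)))))))))))) .nd))))))) (.rp 7 (.str 41 (.nv (.thr 1 61 (.thr 3 60 (.thr 0 2 (.thr 23 20 (.dbl 63 42 43))))) (.nv (.thr 61 1 (.thr 49 57 (.thr 45 33 (.dbl 13 25 29)))) (.rp 61 (.thr 23 20 (.thr 3 60 (.thr 33 45 (.thr 63 43 (.thr 0 42 (.thr 1 2 (.thr 17 49 (.thr 51 34 (.thr 19 35 (.dbl 25 28 29)))))))))) (.rp 6 (.str 4 (.nv (.thr 45 33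 (.thr 61 1 (.thr 13 29 (.dbl 49 25 57)))) (.nv (.thr 55 38 (.thr 52 54 (.dbl 20 23 36))) .nd))) (.rp 4 (.str 6 (.nv (.thr 38 54 (.thr 35 44 (.thr 3 60 (.thr 51 19 (.dbl 12 9 25))))) (.nv (.thr 45 33 (.thr 61 1 (.thr 13 29 (.dbl 49 25 57)))) (.rp 25 (.thr 54 38 (.thr 60 3 (.thr 61 1 (.dbl 57 49 51)))) (.rp 3 (.thr 61 1 (.thr 49 57 (.thr 13 25 (.dbl 45 29 33)))) .nd))))) (.rp 3 (.thr 61 1 (.thr 49 57 (.thr 13 25 (.dbl 45 29 33)))) (.rp 1 (.thr 20 23 (.thr 60 3 (.thr 0 40 (.thr 63 42 (.thr 61 62 (.thr 49 57 (.thr 13 25 (.dbl 45 29 33)))))))) .nd)))))))) (.rp 6 (.thr 20 23 (.thr 52 7 (.thr 4 36 (.dbl 55 38 54)))) (.rp 4 (.str 41 (.nv (.thr 7 52 (.thr 61 1 (.thr 49 57 (.thr 13 25 (.dbl 45 29 33))))) (.nv (.thr 1 61 (.thr 3 60 (.thr 0 2 (.thr 23 20 (.dbl 63 42 43))))) (.nv (.thr 61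 1 (.thr 49 57 (.thr 45 33 (.dbl 13 25 29)))) (.rp 61 (.thr 23 20 (.thr 3 60 (.thr 33 45 (.thr 63 43 (.thr 0 42 (.thr 1 2 (.thr 17 49 (.thr 51 34 (.thr 19 35 (.dbl 25 28 29)))))))))) (.rp 7 (.str 6 (.nv (.thr 38 54 (.thr 35 44 (.thr 3 60 (.thr 51 19 (.dbl 12 9 25))))) (.nv (.thr 45 33 (.thr 61 1 (.thr 13 29 (.dbl 49 25 57)))) (.rp 25 (.thr 54 38 (.thr 60 3 (.thr 61 1 (.dbl 57 49 51)))) (.rp 3 (.thr 61 1 (.thr 49 57 (.thr 13 25 (.dbl 45 29 33)))) .nd))))) (.rp 1 (.thr 20 23 (.thr 60 3 (.thr 0 40 (.thr 63 42 (.thr 61 62 (.thr 49 57 (.thr 13 25 (.dbl 45 29 33)))))))) .nd))))))) .nd))))))))))))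

theorem w550 : WinAt (9007336695791616, 281475043819552) :=
  chF (K := []) kn c550 9007336695791616 281475043819552 5
    [] (by decide +kernel) (by decide +kernel)

/-- A certificate. -/
noncomputable def c551 : Ct := (.str 55 (.nv (.thr 52 54 (.thr 7 22 (.thr 38 4 (.dbl 39 23 36)))) (.nv (.thr 52 54 (.thr 22 7 (.thr 20 23 (.dbl 4 36 38)))) (.rp 54 (.str 63 (.nv (.thr 0 42 (.thr 51 59 (.thr 17 34 (.thr 25 29 (.dbl 38 4 12))))) (.nv (.thr 38 4 (.thr 36 39 (.thr 48 58 (.thr 12 24 (.dbl 51 25 59))))) (.nv (.thr 38 4 (.thr 39 36 (.thr 42 0 (.thr 47 32 (.thr 43 35 (.dbl 23 3 7)))))) (.nv (.thr 38 4 (.thr 51 59 (.thr 25 12 (.thr 17 29 (.dbl 0 34 42))))) (.rp 42 (.thr 38 4 (.thr 39 36 (.thr 51 59 (.thr 15 27 (.thr 47 31 (.thr 43 35 (.dbl 23 3 7))))))) (.rp 38 (.thr 51 59 (.thr 42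 0 (.thr 47 32 (.thr 15 31 (.thr 39 27 (.thr 23 7 (.dbl 43 3 35))))))) (.rp 12 (.thr 38 4 (.thr 39 36 (.thr 51 59 (.thr 15 27 (.thr 47 31 (.dbl 42 0 32)))))) (.rp 4 (.thr 51 59 (.thr 42 0 (.thr 47 32 (.thr 15 31 (.thr 39 27 (.thr 43 35 (.dbl 23 3 7))))))) .nd))))))))) (.rp 52 (.str 42 (.nv (.thr 47 32 (.thr 63 0 (.thr 15 31 (.thr 51 59 (.thr 39 27 (.dbl 38 4 36)))))) (.nv (.thr 38 4 (.thr 36 39 (.thr 63 0 (.thr 48 58 (.thr 12 24 (.dbl 51 25 59)))))) (.nv (.thr 32 47 (.thr 38 4 (.thr 36 39 (.thr 34 46 (.thr 44 40 (.dbl 35 33 41)))))) (.rp 39 (.thr 63 0 (.thr 51 59 (.thr 38 4 (.thr 46 34 (.dbl 12 25 29))))) (.rp 38 (.thr 47 32 (.thr 63 0 (.thr 51 59 (.thr 15 31 (.thr 39 27 (.thr 43 35 (.dbl 23 3 7))))))) (.rp 36 (.thr 47 32 (.thr 63 0 (.thr 51 59 (.thr 15 31 (.thr 39 27 (.thr 43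 35 (.dbl 23 3 7))))))) (.rp 4 (.thr 47 32 (.thr 63 0 (.thr 51 59 (.thr 15 31 (.thr 39 27 (.thr 43 35 (.dbl 23 3 7))))))) .nd)))))))) (.rp 38 (.str 63 (.nv (.thr 0 42 (.thr 52 54 (.thr 22 7 (.thr 20 23 (.thr 60 40 (.thr 41 3 (.dbl 61 1 62))))))) (.nv (.thr 42 0 (.thr 47 32 (.thr 15 31 (.thr 51 59 (.thr 39 27 (.thr 23 7 (.dbl 43 3 35))))))) (.nv (.thr 54 52 (.thr 51 59 (.thr 60 57 (.thr 58 48 (.dbl 62 50 61))))) (.rp 50 (.str 14 (.nv (.thr 42 0 (.thr 47 32 (.thr 15 31 (.thr 12 13 (.thr 29 46 (.thr 25 17 (.dbl 59 8 51))))))) (.nv (.thr 52 54 (.thr 22 7 (.thr 23 20 (.thr 3 43 (.thr 60 41 (.dbl 48 56 58)))))) (.rp 51 (.thr 48 58 (.thr 42 0 (.thr 47 32 (.thr 15 31 (.thr 12 13 (.thr 46 29 (.thr 45 44 (.dbl 30 60 62)))))))) (.rp 48 (.thr 51 59 (.thr 54 52 (.thr 60 57 (.thr 61 62 (.thr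 41 1 (.thr 22 3 (.thr 20 23 (.dbl 0 40 42)))))))) (.rp 42 (.thr 52 54 (.thr 22 7 (.thr 23 20 (.thr 3 43 (.thr 41 60 (.thr 33 45 (.dbl 48 18 58))))))) .nd)))))) (.rp 14 (.str 50 (.nv (.thr 58 48 (.dbl 54 52 62)) (.rp 62 (.thr 48 58 (.thr 52 54 (.thr 22 7 (.thr 60 56 (.thr 23 20 (.dbl 3 41 43)))))) (.rp 58 (.thr 51 59 (.thr 52 54 (.thr 42 0 (.thr 47 32 (.thr 15 31 (.thr 39 27 (.dbl 7 22 23))))))) (.rp 54 (.thr 51 59 (.thr 42 0 (.thr 47 32 (.thr 15 31 (.thr 39 27 (.thr 43 35 (.dbl 23 3 7))))))) (.rp 52 (.thr 51 59 (.thr 42 0 (.thr 47 32 (.thr 15 31 (.thr 39 27 (.thr 43 35 (.dbl 23 3 7))))))) (.rp 48 (.thr 51 59 (.thr 54 52 (.thr 62 58 (.dbl 60 57 61)))) .nd))))))) .nd)))))) (.rp 36 (.str 63 (.nv (.thr 0 42 (.thr 52 54 (.thr 22 7 (.thr 20 23 (.thr 60 40 (.dbl 48 56 58)))))) (.nv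 (.thr 0 42 (.thr 51 59 (.thr 17 34 (.thr 25 29 (.dbl 38 4 12))))) (.nv (.thr 54 52 (.thr 51 59 (.thr 60 57 (.thr 62 61 (.dbl 58 48 50))))) (.rp 58 (.thr 38 4 (.thr 51 59 (.thr 12 25 (.thr 46 29 (.dbl 42 0 34))))) (.rp 4 (.thr 52 54 (.thr 48 58 (.thr 60 56 (.thr 62 61 (.thr 42 0 (.dbl 22 2 7)))))) .nd)))))) (.rp 23 (.str 63 (.nv (.thr 38 4 (.thr 42 0 (.thr 46 34 (.thr 12 29 (.dbl 51 25 59))))) (.nv (.thr 38 4 (.thr 36 39 (.thr 42 0 (.thr 48 58 (.thr 12 24 (.dbl 46 29 34)))))) (.nv (.thr 51 59 (.thr 54 52 (.thr 58 48 (.thr 60 57 (.dbl 62 50 61))))) .nd)))) (.rp 22 (.thr 38 4 (.thr 39 36 (.thr 52 54 (.thr 7 23 (.str 63 (.nv (.thr 42 0 (.thr 51 59 (.thr 15 27 (.dbl 47 31 32)))) (.nv (.thr 42 0 (.thr 47 32 (.thr 35 43 (.thr 44 41 (.dbl 46 34 45))))) (.nv (.thr 51 59 (.thr 25 12 (.thr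 17 29 (.dbl 0 34 42)))) (.rp 42 (.thr 51 59 (.thr 25 12 (.thr 29 17 (.thr 15 27 (.thr 31 47 (.thr 30 28 (.thr 60 45 (.dbl 48 56 58)))))))) (.rp 30 (.str 18 (.nv (.thr 48 58 (.thr 33 3 (.thr 60 56 (.thr 41 45 (.dbl 61 1 62))))) (.nv (.thr 42 0 (.thr 46 34 (.thr 51 59 (.dbl 12 25 29)))) (.rp 59 (.thr 48 58 (.thr 3 33 (.thr 15 11 (.thr 47 31 (.dbl 42 0 32))))) (.rp 42 (.thr 51 59 (.thr 15 27 (.thr 25 12 (.thr 17 29 (.thr 19 16 (.dbl 3 11 35)))))) (.rp 10 (.thr 51 59 (.thr 15 27 (.thr 42 0 (.dbl 47 31 32)))) .nd)))))) (.rp 18 (.str 30 (.nv (.thr 51 59 (.thr 15 27 (.thr 31 47 (.thr 29 28 (.dbl 12 25 46))))) (.nv (.thr 42 0 (.thr 47 32 (.thr 15 31 (.thr 48 58 (.dbl 60 45 56))))) (.nv (.thr 48 58 (.thr 60 56 (.thr 15 45 (.dbl 51 27 59)))) (.nv (.thr 51 59 (.thr 25 12 (.thr 17 29 (.dbl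 0 34 42)))) .nd))))) (.rp 12 (.thr 59 51 (.thr 42 0 (.thr 8 25 (.thr 47 32 (.thr 15 31 (.thr 11 3 (.dbl 43 27 35))))))) (.rp 8 (.thr 51 59 (.thr 12 25 (.thr 42 0 (.dbl 46 29 34)))) (.rp 0 (.thr 51 59 (.thr 12 25 (.thr 46 29 (.thr 42 34 (.thr 47 32 (.dbl 15 27 31)))))) .nd)))))))))))))) (.rp 7 (.str 63 (.nv (.thr 0 42 (.thr 4 38 (.thr 52 54 (.thr 20 36 (.thr 60 40 (.dbl 48 56 58)))))) (.nv (.thr 0 42 (.thr 51 59 (.thr 17 34 (.thr 25 29 (.dbl 38 4 12))))) (.nv (.thr 51 59 (.thr 54 52 (.thr 58 48 (.thr 60 57 (.dbl 62 50 61))))) (.rp 58 (.thr 51 59 (.thr 42 0 (.thr 47 32 (.thr 15 31 (.thr 39 27 (.dbl 38 4 36)))))) (.rp 6 (.thr 4 38 (.thr 54 52 (.thr 51 59 (.thr 60 57 (.thr 62 61 (.dbl 58 48 50)))))) (.rp 4 (.str 6 (.nv (.thr 54 52 (.thr 22 38 (.thr 42 0 (.thr 62 2 (.dbl 58 48 50)))))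 (.nv (.thr 0 42 (.thr 51 59 (.thr 17 34 (.thr 25 29 (.thr 38 12 (.dbl 54 22 52)))))) (.nv (.thr 51 59 (.thr 54 52 (.thr 58 48 (.thr 60 57 (.dbl 62 50 61))))) (.rp 58 (.thr 54 52 (.thr 22 38 (.thr 51 59 (.thr 42 0 (.thr 62 2 (.dbl 60 57 61)))))) (.rp 54 (.thr 51 59 (.thr 42 0 (.thr 47 32 (.thr 15 31 (.thr 39 27 (.thr 38 36 (.thr 46 34 (.dbl 12 25 29)))))))) (.rp 52 (.thr 51 59 (.thr 58 48 (.thr 0 42 (.thr 17 34 (.thr 25 29 (.thr 38 12 (.thr 54 22 (.thr 60 57 (.dbl 62 50 61))))))))) .nd))))))) .nd))))))) (.rp 4 (.thr 52 54 (.thr 7 22 (.thr 39 23 (.thr 38 36 (.str 63 (.nv (.thr 42 0 (.thr 51 59 (.thr 15 27 (.dbl 47 31 32)))) (.nv (.thr 42 0 (.thr 47 32 (.thr 35 43 (.thr 44 41 (.dbl 46 34 45))))) (.nv (.thr 51 59 (.thr 25 12 (.thr 17 29 (.dbl 0 34 42)))) (.rp 42 (.thr 51 59 (.thr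 25 12 (.thr 29 17 (.thr 15 27 (.thr 31 47 (.thr 30 28 (.thr 60 45 (.dbl 48 56 58)))))))) (.rp 30 (.str 18 (.nv (.thr 48 58 (.thr 33 3 (.thr 60 56 (.thr 41 45 (.dbl 61 1 62))))) (.nv (.thr 42 0 (.thr 46 34 (.thr 51 59 (.dbl 12 25 29)))) (.rp 59 (.thr 48 58 (.thr 3 33 (.thr 15 11 (.thr 47 31 (.dbl 42 0 32))))) (.rp 42 (.thr 51 59 (.thr 15 27 (.thr 25 12 (.thr 17 29 (.thr 19 16 (.dbl 3 11 35)))))) (.rp 10 (.thr 51 59 (.thr 15 27 (.thr 42 0 (.dbl 47 31 32)))) .nd)))))) (.rp 18 (.str 30 (.nv (.thr 51 59 (.thr 15 27 (.thr 31 47 (.thr 29 28 (.dbl 12 25 46))))) (.nv (.thr 42 0 (.thr 47 32 (.thr 15 31 (.thr 48 58 (.dbl 60 45 56))))) (.nv (.thr 48 58 (.thr 60 56 (.thr 15 45 (.dbl 51 27 59)))) (.nv (.thr 51 59 (.thr 25 12 (.thr 17 29 (.dbl 0 34 42)))) .nd))))) (.rp 12 (.thr 59 51 (.thr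 42 0 (.thr 8 25 (.thr 47 32 (.thr 15 31 (.thr 11 3 (.dbl 43 27 35))))))) (.rp 8 (.thr 51 59 (.thr 12 25 (.thr 42 0 (.dbl 46 29 34)))) (.rp 0 (.thr 51 59 (.thr 12 25 (.thr 46 29 (.thr 42 34 (.thr 47 32 (.dbl 15 27 31)))))) .nd)))))))))))))) .nd)))))))))))

theorem w551 : WinAt (9007336695791616, 562950020530208) :=
  chF (K := []) kn c551 9007336695791616 562950020530208 5
    [] (by decide +kernel) (by decide +kernel)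

/-- A certificate. -/
noncomputable def c552 : Ct := (.str 25 (.nv (.thr 17 29 (.thr 53 5 (.thr 49 13 (.thr 61 57 (.dbl 1 33 41))))) (.rp 61 (.str 38 (.nv (.thr 5 53 (.thr 17 29 (.thr 39 36 (.thr 51 12 (.thr 0 34 (.dbl 15 10 27)))))) (.nv (.thr 17 29 (.thr 51 12 (.thr 0 34 (.thr 55 4 (.dbl 63 42 59))))) (.nv (.thr 39 36 (.thr 53 5 (.thr 55 4 (.thr 7 23 (.dbl 52 22 54))))) .nd)))) (.rp 57 (.thr 29 17 (.thr 5 53 (.thr 13 49 (.thr 61 45 (.dbl 1 9 41))))) (.rp 53 (.thr 29 17 (.str 12 (.nv (.thr 13 49 (.thr 63 46 (.thr 42 0 (.thr 47 32 (.dbl 15 14 31))))) (.nv (.thr 63 46 (.thr 42 0 (.thr 59 8 (.dbl 51 38 55)))) (.rp 63 (.thr 13 49 (.thr 61 45 (.thr 1 41 (.thr 9 5 (.thr 3 6 (.thr 0 2 (.thr 4 8 (.dbl 38 51 55)))))))) (.rp 51 (.thr 63 46 (.thr 0 42 (.thr 4 8 (.thr 38 55 (.thr 36 39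 (.thr 48 24 (.thr 32 16 (.thr 40 44 (.dbl 20 52 60))))))))) (.rp 46 (.thr 38 51 (.thr 4 55 (.thr 0 8 (.thr 36 39 (.thr 48 24 (.thr 32 16 (.dbl 42 47 63))))))) (.rp 42 (.thr 13 49 (.thr 61 45 (.thr 1 41 (.thr 9 5 (.thr 3 6 (.thr 0 2 (.thr 4 8 (.dbl 38 51 55)))))))) (.rp 38 (.str 14 (.nv (.dbl 13 15 49) (.rp 49 (.thr 15 13 (.thr 63 46 (.thr 42 0 (.dbl 47 31 32)))) (.rp 15 (.thr 13 49 (.thr 61 45 (.thr 1 41 (.thr 9 5 (.thr 3 6 (.thr 0 2 (.dbl 63 42 46))))))) (.rp 13 (.thr 46 63 (.thr 30 62 (.thr 28 31 (.thr 60 44 (.thr 22 19 (.thr 41 3 (.dbl 45 15 33))))))) .nd))))) (.rp 34 (.thr 63 46 (.thr 0 42 (.thr 38 51 (.dbl 4 8 55)))) (.rp 14 (.thr 38 51 (.thr 63 46 (.thr 0 42 (.dbl 4 8 55)))) (.rp 0 (.thr 13 49 (.thr 61 45 (.thr 1 41 (.thr 9 5 (.thr 3 6 (.thr 63 46 (.thr 23 43 (.thr 22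 20 (.thr 28 19 (.dbl 60 44 62)))))))))) .nd)))))))))))) (.rp 49 (.thr 17 29 (.thr 53 5 (.str 38 (.nv (.thr 51 12 (.thr 0 34 (.thr 63 42 (.dbl 55 4 59)))) (.nv (.thr 39 36 (.thr 55 4 (.thr 7 23 (.dbl 52 22 54)))) (.rp 55 (.thr 36 39 (.thr 12 51 (.thr 48 24 (.thr 63 58 (.thr 42 0 (.thr 34 46 (.thr 32 47 (.thr 44 40 (.dbl 35 33 41))))))))) (.rp 51 (.str 48 (.nv (.thr 4 55 (.thr 36 39 (.thr 12 24 (.thr 0 8 (.dbl 63 42 58))))) (.nv (.thr 39 36 (.thr 55 4 (.thr 7 23 (.dbl 52 22 54)))) (.rp 55 (.thr 36 39 (.thr 24 12 (.thr 63 58 (.thr 42 0 (.thr 8 59 (.thr 32 47 (.dbl 40 44 56))))))) (.rp 39 (.thr 55 4 (.thr 52 54 (.thr 60 56 (.thr 63 58 (.thr 62 61 (.thr 42 0 (.dbl 22 2 7))))))) (.rp 36 (.thr 55 4 (.thr 52 54 (.thr 60 56 (.thr 63 58 (.thr 62 61 (.thr 42 0 (.dbl 22 2 7))))))) (.rp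 23 (.thr 55 4 (.thr 52 54 (.thr 60 56 (.thr 36 39 (.thr 12 24 (.thr 28 44 (.dbl 22 7 19))))))) (.rp 7 (.thr 36 39 (.thr 24 12 (.thr 63 58 (.thr 42 0 (.thr 8 59 (.thr 32 47 (.dbl 40 44 56))))))) (.rp 4 (.thr 36 39 (.thr 24 12 (.thr 63 58 (.thr 42 0 (.thr 8 59 (.thr 32 47 (.dbl 40 44 56))))))) .nd))))))))) (.rp 4 (.thr 51 12 (.thr 0 34 (.thr 39 36 (.thr 63 42 (.thr 55 59 (.thr 52 54 (.dbl 7 22 23))))))) .nd)))))))) (.rp 41 (.thr 29 17 (.thr 53 5 (.str 38 (.nv (.thr 4 55 (.thr 12 51 (.thr 0 8 (.dbl 63 42 46)))) (.nv (.thr 36 39 (.thr 12 51 (.thr 48 24 (.dbl 63 46 58)))) (.nv (.thr 39 36 (.thr 55 4 (.thr 7 23 (.dbl 52 22 54)))) (.rp 56 (.str 11 (.nv (.thr 4 55 (.thr 12 51 (.thr 0 8 (.dbl 63 42 46)))) (.nv (.thr 36 39 (.thr 12 51 (.thr 48 24 (.dbl 63 46 58)))) (.nv (.thr 39 36 (.thr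 55 4 (.thr 7 23 (.dbl 52 22 54)))) .nd)))) (.rp 11 (.str 56 (.nv (.thr 12 51 (.thr 49 13 (.thr 57 61 (.thr 58 59 (.dbl 63 46 48))))) (.nv (.thr 39 36 (.thr 55 4 (.thr 7 23 (.dbl 52 22 54)))) .nd))) .nd)))))))) (.rp 38 .ext (.rp 33 (.thr 29 17 (.thr 5 53 (.thr 13 49 (.thr 1 9 (.dbl 61 41 45))))) (.rp 29 (.str 38 (.nv (.thr 4 55 (.thr 12 51 (.thr 0 8 (.thr 36 39 (.thr 48 24 (.thr 32 16 (.dbl 42 47 63))))))) (.nv (.thr 4 55 (.thr 5 53 (.thr 12 51 (.thr 0 8 (.thr 15 10 (.dbl 13 14 49)))))) (.nv (.thr 36 39 (.thr 4 55 (.thr 52 20 (.thr 5 53 (.dbl 7 6 22))))) (.rp 55 (.thr 5 53 (.thr 51 12 (.thr 39 36 (.thr 15 27 (.thr 0 10 (.thr 34 17 (.dbl 42 46 63))))))) (.rp 4 (.thr 5 53 (.thr 51 12 (.thr 39 36 (.thr 15 27 (.thr 0 10 (.thr 34 17 (.dbl 42 46 63))))))) .nd)))))) (.rp 17 (.str 38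 (.nv (.thr 4 55 (.thr 12 51 (.thr 0 8 (.thr 36 39 (.thr 48 24 (.thr 32 16 (.dbl 42 47 63))))))) (.nv (.thr 4 55 (.thr 5 53 (.thr 12 51 (.thr 0 8 (.thr 15 10 (.dbl 13 14 49)))))) (.nv (.thr 5 53 (.thr 36 39 (.thr 4 55 (.thr 52 20 (.dbl 7 6 22))))) (.rp 55 (.thr 53 5 (.thr 36 39 (.thr 12 51 (.thr 48 24 (.thr 63 58 (.thr 46 29 (.dbl 42 0 34))))))) (.rp 4 (.thr 53 5 (.thr 36 39 (.thr 12 51 (.thr 48 24 (.thr 63 58 (.thr 46 29 (.dbl 42 0 34))))))) .nd)))))) (.rp 14 (.str 38 (.nv (.thr 4 55 (.thr 12 51 (.thr 0 8 (.thr 29 17 (.dbl 63 42 46))))) (.nv (.thr 17 29 (.thr 49 13 (.thr 1 33 (.thr 53 5 (.dbl 61 41 57))))) (.nv (.thr 36 39 (.thr 4 55 (.thr 52 20 (.thr 5 53 (.dbl 7 6 22))))) .nd)))) (.rp 13 (.str 38 (.nv (.thr 5 53 (.thr 17 29 (.thr 39 36 (.thr 51 12 (.thr 0 34 (.dbl 15 10 27))))))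 (.nv (.thr 17 29 (.thr 51 12 (.thr 0 34 (.thr 55 4 (.dbl 63 42 59))))) (.nv (.thr 36 39 (.thr 4 55 (.thr 52 20 (.thr 5 53 (.dbl 7 6 22))))) .nd)))) (.rp 9 (.thr 17 29 (.thr 53 5 (.thr 49 13 (.thr 1 33 (.dbl 61 41 57))))) (.rp 5 (.thr 17 29 (.str 38 (.nv (.thr 51 12 (.thr 0 34 (.thr 63 42 (.dbl 55 4 59)))) (.nv (.thr 55 4 (.thr 51 12 (.thr 63 59 (.dbl 0 34 42)))) (.rp 63 (.thr 39 36 (.thr 55 4 (.thr 7 23 (.thr 52 22 (.thr 53 54 (.thr 49 13 (.thr 1 33 (.dbl 61 41 57)))))))) (.rp 59 (.thr 36 39 (.thr 4 55 (.thr 20 52 (.thr 51 12 (.thr 0 34 (.thr 60 40 (.thr 54 57 (.dbl 22 6 23)))))))) (.rp 55 (.thr 51 12 (.thr 0 34 (.thr 49 13 (.thr 1 33 (.thr 61 41 (.thr 57 53 (.thr 63 42 (.dbl 60 54 62)))))))) (.rp 51 (.thr 39 36 (.thr 55 4 (.thr 7 23 (.thr 52 22 (.thr 53 54 (.thr 49 13 (.thr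 1 33 (.dbl 61 41 57)))))))) (.rp 42 (.thr 36 39 (.thr 4 55 (.thr 20 52 (.thr 51 12 (.thr 0 34 (.thr 60 40 (.thr 54 57 (.dbl 22 6 23)))))))) (.rp 34 (.thr 36 39 (.thr 4 55 (.thr 12 51 (.thr 0 8 (.thr 48 24 (.thr 32 16 (.dbl 42 47 63))))))) (.rp 12 (.thr 39 36 (.thr 55 4 (.thr 7 23 (.thr 52 22 (.thr 53 54 (.thr 49 13 (.thr 1 33 (.dbl 61 41 57)))))))) (.rp 4 (.thr 51 12 (.thr 0 34 (.thr 49 13 (.thr 1 33 (.thr 61 41 (.thr 57 53 (.thr 60 54 (.dbl 63 42 62)))))))) (.rp 0 (.thr 36 39 (.thr 4 55 (.thr 52 20 (.thr 12 51 (.thr 48 24 (.thr 60 56 (.thr 28 44 (.dbl 22 7 19)))))))) .nd))))))))))))) (.rp 1 (.str 38 (.nv (.thr 17 29 (.thr 51 12 (.thr 0 34 (.thr 55 4 (.dbl 63 42 59))))) (.nv (.thr 5 53 (.thr 36 39 (.thr 4 55 (.thr 52 20 (.dbl 7 6 22))))) (.rp 55 (.thr 5 53 (.thr 39 36 (.thr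 51 12 (.thr 17 29 (.thr 0 34 (.dbl 15 10 27)))))) (.rp 4 (.thr 5 53 (.thr 39 36 (.thr 51 12 (.thr 17 29 (.thr 0 34 (.dbl 15 10 27)))))) .nd))))) .nd))))))))))))))))

theorem w552 : WinAt (137441050624, 1125899973951488) :=
  chF (K := [(137474605056, 1126174851858432)]) (kc w535 kn) c552 137441050624 1125899973951488 50
    [1126174851874816] (by decide +kernel) (by decide +kernel)

/-- A certificate. -/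
noncomputable def c553 : Ct := (.str 41 (.nv (.thr 33 45 (.thr 1 61 (.thr 13 9 (.dbl 49 17 25)))) (.rp 61 (.str 49 (.nv (.thr 33 45 (.thr 17 1 (.dbl 25 13 29))) (.rp 45 (.thr 25 13 (.thr 29 17 (.str 0 (.nv (.thr 9 57 (.thr 10 15 (.thr 42 63 (.dbl 8 11 59)))) (.nv (.thr 10 15 (.thr 9 57 (.thr 8 11 (.dbl 42 59 63)))) (.nv (.thr 63 42 (.thr 12 46 (.thr 4 8 (.thr 6 7 (.dbl 9 3 57))))) (.rp 63 (.thr 9 57 (.thr 10 15 (.thr 8 11 (.thr 12 4 (.thr 3 6 (.thr 60 22 (.thr 40 20 (.dbl 42 43 59)))))))) (.rp 57 (.thr 10 15 (.thr 63 42 (.thr 12 46 (.thr 4 8 (.thr 6 7 (.thr 3 9 (.dbl 2 1 14))))))) (.rp 42 (.thr 9 57 (.thr 10 15 (.thr 8 11 (.thr 12 4 (.thr 3 6 (.thr 63 46 (.thr 23 43 (.dbl 22 20 60)))))))) (.rp 12 (.thr 42 63 (.thr 32 47 (.thr 48 16 (.thr 40 43 (.thr 60 20 (.thr 52 56 (.dbl 22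 3 7))))))) (.rp 10 (.thr 9 57 (.thr 42 63 (.thr 40 43 (.thr 60 20 (.thr 3 22 (.thr 12 6 (.dbl 8 4 59))))))) (.rp 9 (.thr 63 42 (.thr 12 46 (.thr 4 8 (.thr 7 6 (.thr 52 22 (.thr 36 20 (.dbl 38 39 55))))))) (.rp 8 (.thr 9 57 (.thr 63 42 (.thr 12 46 (.thr 3 6 (.thr 23 43 (.dbl 22 20 60)))))) .nd))))))))))))) (.rp 33 (.str 0 (.nv (.thr 42 63 (.thr 40 43 (.thr 60 20 (.thr 3 22 (.thr 1 2 (.dbl 13 9 25)))))) (.nv (.thr 10 15 (.thr 25 13 (.thr 29 17 (.thr 63 42 (.thr 12 46 (.thr 8 4 (.dbl 9 11 57))))))) (.nv (.thr 13 25 (.thr 1 9 (.thr 3 2 (.thr 22 60 (.thr 23 20 (.dbl 63 42 43)))))) (.rp 63 (.thr 13 25 (.thr 9 1 (.thr 15 10 (.thr 12 14 (.thr 4 8 (.dbl 6 3 7)))))) (.rp 42 (.thr 13 25 (.thr 1 9 (.thr 3 2 (.thr 22 60 (.thr 7 52 (.dbl 15 10 11)))))) (.rp 25 (.thr 42 63 (.thr 32 47 (.thr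 48 16 (.thr 40 43 (.thr 60 20 (.thr 52 56 (.dbl 22 3 7))))))) (.rp 13 (.thr 42 63 (.thr 32 47 (.thr 48 16 (.thr 40 43 (.thr 60 20 (.thr 52 56 (.dbl 22 3 7))))))) (.rp 9 (.thr 42 63 (.thr 32 47 (.thr 48 16 (.thr 40 43 (.thr 60 20 (.thr 52 56 (.dbl 22 3 7))))))) .nd))))))))) (.rp 29 (.thr 33 45 (.thr 13 25 (.dbl 1 9 17))) (.rp 25 (.str 38 (.nv (.thr 33 45 (.thr 35 44 (.thr 32 34 (.thr 39 36 (.dbl 47 42 43))))) (.nv (.thr 36 39 (.thr 4 55 (.thr 52 20 (.dbl 7 6 22)))) (.rp 39 (.thr 4 55 (.thr 7 6 (.thr 52 22 (.thr 36 20 (.thr 44 35 (.thr 32 40 (.thr 45 33 (.dbl 47 42 46)))))))) (.rp 36 (.str 63 (.nv (.thr 4 55 (.thr 6 7 (.thr 42 0 (.thr 43 40 (.thr 23 3 (.dbl 22 20 54)))))) (.nv (.thr 0 42 (.thr 33 45 (.thr 1 17 (.thr 3 2 (.thr 22 60 (.dbl 23 20 43)))))) (.nv (.thr 42 0 (.thr 34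 46 (.thr 32 47 (.dbl 33 35 45)))) (.rp 42 (.thr 45 33 (.thr 4 55 (.thr 7 6 (.thr 44 35 (.thr 47 46 (.thr 15 31 (.thr 3 11 (.dbl 60 22 30)))))))) (.rp 27 (.str 24 (.nv (.thr 4 55 (.thr 6 7 (.thr 42 0 (.thr 43 40 (.thr 23 3 (.dbl 22 20 54)))))) (.nv (.thr 0 42 (.thr 33 45 (.thr 1 17 (.thr 3 2 (.thr 22 60 (.dbl 23 20 43)))))) (.nv (.thr 42 0 (.thr 34 46 (.thr 32 47 (.dbl 33 35 45)))) (.rp 42 (.thr 45 33 (.thr 4 55 (.thr 44 35 (.thr 46 47 (.thr 12 29 (.thr 60 28 (.thr 6 7 (.dbl 22 3 54)))))))) (.rp 39 (.str 15 (.nv (.thr 44 35 (.thr 45 33 (.dbl 47 31 46))) (.nv (.dbl 0 10 42) .nd))) (.rp 15 (.str 39 (.nv (.thr 33 45 (.thr 35 44 (.thr 32 34 (.dbl 42 0 47)))) (.nv (.thr 55 4 (.thr 23 7 (.thr 3 43 (.dbl 22 20 60)))) (.nv (.thr 35 44 (.thr 47 43 (.dbl 42 0 32))) .nd)))) (.rp 0 (.thr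 45 33 (.thr 4 55 (.thr 44 35 (.thr 46 47 (.thr 12 29 (.thr 60 28 (.thr 6 7 (.dbl 22 3 54)))))))) .nd)))))))) (.rp 24 (.str 27 (.nv (.thr 4 55 (.thr 6 7 (.thr 42 0 (.thr 43 40 (.thr 23 3 (.dbl 22 20 54)))))) (.nv (.thr 0 42 (.thr 33 45 (.thr 1 17 (.thr 3 2 (.thr 22 60 (.dbl 23 20 43)))))) (.nv (.thr 42 0 (.thr 34 46 (.thr 32 47 (.dbl 33 35 45)))) (.rp 48 (.str 12 (.nv (.thr 44 35 (.thr 45 33 (.dbl 46 29 47))) (.nv (.thr 4 55 (.dbl 0 8 42)) .nd))) (.rp 42 (.thr 45 33 (.thr 44 35 (.thr 47 46 (.thr 31 15 (.thr 23 19 (.thr 3 43 (.dbl 22 20 60))))))) (.rp 12 (.str 48 (.nv (.thr 42 0 (.thr 32 47 (.thr 34 46 (.dbl 33 35 45)))) (.nv (.thr 33 45 (.thr 3 18 (.thr 23 43 (.dbl 22 20 60)))) (.rp 45 (.thr 42 0 (.thr 47 32 (.thr 31 15 (.thr 23 19 (.dbl 43 3 40))))) (.rp 33 (.thr 42 0 (.thr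 47 32 (.thr 31 15 (.thr 23 19 (.dbl 43 3 40))))) .nd))))) (.rp 0 (.thr 45 33 (.thr 44 35 (.thr 47 46 (.thr 31 15 (.thr 23 19 (.thr 3 43 (.dbl 22 20 60))))))) .nd)))))))) (.rp 0 (.thr 45 33 (.thr 4 55 (.thr 7 6 (.thr 44 35 (.thr 47 46 (.thr 15 31 (.thr 3 11 (.dbl 60 22 30)))))))) .nd)))))))) (.rp 27 (.str 24 (.nv (.thr 4 55 (.thr 7 6 (.thr 52 22 (.dbl 36 20 39)))) (.nv (.thr 39 36 (.thr 33 45 (.thr 35 44 (.thr 32 34 (.dbl 47 42 43))))) (.rp 39 (.str 15 (.nv (.thr 0 10 (.thr 33 45 (.thr 35 44 (.thr 32 34 (.dbl 42 47 63))))) (.nv (.thr 4 55 (.thr 7 6 (.thr 3 11 (.dbl 22 52 60)))) (.rp 63 (.thr 0 10 (.thr 45 33 (.thr 60 30 (.thr 22 3 (.dbl 20 23 40))))) .nd)))) (.rp 36 (.str 15 (.nv (.thr 0 10 (.thr 33 45 (.thr 35 44 (.thr 32 34 (.dbl 42 47 63))))) (.nv (.thr 4 55 (.thr 7 6 (.thr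 3 11 (.dbl 22 52 60)))) (.rp 63 (.thr 0 10 (.thr 45 33 (.thr 60 30 (.thr 22 3 (.dbl 20 23 40))))) .nd)))) .nd))))) (.rp 24 (.str 27 (.nv (.thr 33 45 (.thr 35 44 (.thr 32 34 (.thr 39 36 (.dbl 47 42 43))))) (.nv (.thr 4 55 (.thr 7 6 (.thr 36 39 (.dbl 52 20 22)))) (.rp 39 (.thr 45 33 (.thr 4 55 (.thr 7 6 (.thr 44 35 (.thr 47 46 (.thr 32 42 (.thr 36 40 (.dbl 52 20 22)))))))) (.rp 36 (.str 63 (.nv (.thr 4 55 (.thr 6 7 (.thr 42 0 (.thr 43 40 (.thr 23 3 (.dbl 22 20 54)))))) (.nv (.thr 0 42 (.thr 33 45 (.thr 1 17 (.thr 3 2 (.thr 22 60 (.dbl 23 20 43)))))) (.nv (.thr 42 0 (.thr 34 46 (.thr 32 47 (.dbl 33 35 45)))) (.rp 48 (.str 12 (.nv (.thr 44 35 (.thr 45 33 (.dbl 46 29 47))) (.nv (.thr 4 55 (.dbl 0 8 42)) .nd))) (.rp 42 (.thr 45 33 (.thr 44 35 (.thr 47 46 (.thr 31 15 (.thr 23 19 (.thr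 3 43 (.dbl 22 20 60))))))) (.rp 12 (.str 48 (.nv (.thr 42 0 (.thr 32 47 (.thr 34 46 (.dbl 33 35 45)))) (.nv (.thr 33 45 (.thr 3 18 (.thr 23 43 (.dbl 22 20 60)))) (.rp 45 (.thr 42 0 (.thr 47 32 (.thr 31 15 (.thr 23 19 (.dbl 43 3 40))))) (.rp 33 (.thr 42 0 (.thr 47 32 (.thr 31 15 (.thr 23 19 (.dbl 43 3 40))))) .nd))))) (.rp 0 (.thr 45 33 (.thr 44 35 (.thr 47 46 (.thr 31 15 (.thr 23 19 (.thr 3 43 (.dbl 22 20 60))))))) .nd)))))))) .nd))))) .nd))))))) (.rp 17 (.str 0 (.nv (.thr 10 15 (.thr 25 13 (.thr 9 57 (.thr 42 63 (.dbl 8 11 59))))) (.nv (.thr 13 25 (.thr 1 9 (.thr 3 2 (.thr 22 60 (.thr 23 20 (.dbl 63 42 43)))))) (.nv (.thr 13 25 (.thr 1 9 (.thr 3 2 (.thr 22 60 (.thr 7 52 (.dbl 15 10 11)))))) (.nv (.thr 15 10 (.thr 45 33 (.thr 60 30 (.thr 20 40 (.dbl 22 3 23))))) (.rp 60 (.thr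 13 25 (.thr 9 1 (.thr 15 10 (.thr 12 14 (.thr 4 8 (.dbl 6 3 7)))))) .nd)))))) (.rp 13 (.thr 45 33 (.str 44 (.nv (.thr 47 46 (.thr 42 32 (.thr 0 63 (.thr 15 10 (.thr 40 43 (.dbl 60 20 30)))))) (.nv (.thr 38 35 (.thr 4 55 (.thr 7 6 (.thr 52 22 (.dbl 36 20 39))))) (.nv (.thr 47 46 (.thr 42 32 (.thr 43 40 (.dbl 35 38 39)))) (.rp 35 (.thr 47 46 (.thr 32 42 (.thr 36 40 (.thr 38 39 (.thr 4 55 (.thr 52 20 (.dbl 7 6 22))))))) (.rp 34 (.thr 47 46 (.thr 32 42 (.thr 38 35 (.dbl 36 39 40)))) (.rp 32 (.thr 46 47 (.thr 38 35 (.thr 34 42 (.thr 4 55 (.thr 7 6 (.thr 52 22 (.dbl 36 20 39))))))) .nd)))))))) (.rp 1 (.str 4 (.nv (.thr 7 6 (.thr 38 55 (.thr 52 22 (.dbl 36 20 39)))) (.nv (.thr 7 6 (.thr 22 52 (.thr 23 20 (.dbl 55 38 39)))) (.rp 55 (.thr 25 13 (.thr 29 17 (.thr 9 57 (.thr 6 7 (.thr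 12 3 (.thr 0 8 (.dbl 63 42 46))))))) (.rp 52 (.thr 25 13 (.thr 29 17 (.thr 9 57 (.thr 6 7 (.thr 12 3 (.thr 0 8 (.dbl 63 42 46))))))) (.rp 39 (.thr 13 25 (.thr 7 6 (.thr 22 52 (.thr 3 60 (.thr 15 11 (.thr 12 14 (.dbl 0 8 10))))))) (.rp 38 (.thr 25 13 (.thr 29 17 (.thr 9 57 (.thr 6 7 (.thr 12 3 (.thr 0 8 (.dbl 63 42 46))))))) (.rp 22 (.thr 33 45 (.thr 38 55 (.thr 39 36 (.thr 35 44 (.thr 47 43 (.dbl 32 34 42)))))) (.rp 20 (.thr 25 13 (.thr 9 57 (.thr 6 7 (.thr 3 12 (.thr 38 55 (.dbl 22 54 60)))))) (.rp 7 (.thr 33 45 (.thr 38 55 (.thr 39 36 (.thr 35 44 (.thr 47 43 (.dbl 32 34 42)))))) (.rp 6 (.thr 33 45 (.thr 38 55 (.thr 39 36 (.thr 35 44 (.thr 47 43 (.dbl 32 34 42)))))) .nd))))))))))) .nd))))))))) (.rp 57 (.thr 33 45 (.thr 1 61 (.thr 49 17 (.dbl 13 9 25)))) (.rp 49 (.thr 33 45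 (.thr 61 1 (.str 63 (.nv (.thr 60 62 (.thr 22 3 (.thr 7 52 (.thr 4 6 (.thr 23 20 (.dbl 55 38 39)))))) (.nv (.thr 42 0 (.thr 32 47 (.thr 40 43 (.thr 44 36 (.dbl 35 34 38))))) (.nv (.thr 60 62 (.thr 3 22 (.thr 43 23 (.dbl 42 0 40)))) (.rp 50 (.str 48 (.nv (.thr 3 18 (.thr 42 0 (.dbl 43 23 40))) (.nv (.thr 60 62 (.dbl 3 18 22)) (.rp 38 (.str 14 (.nv (.thr 3 18 (.thr 42 0 (.dbl 43 23 40))) (.nv (.thr 60 62 (.dbl 3 18 22)) (.rp 25 (.str 12 (.nv (.thr 24 36 (.thr 15 13 (.dbl 0 10 42))) (.nv (.thr 46 29 (.dbl 62 30 60)) (.rp 24 (.str 27 (.nv (.thr 3 18 (.dbl 60 22 62)) (.nv (.thr 15 13 (.dbl 0 10 42)) .nd))) .nd)))) (.rp 22 (.thr 42 0 (.thr 43 40 (.dbl 3 18 23))) (.rp 18 (.thr 60 62 (.thr 52 56 (.dbl 22 3 7))) (.rp 12 (.str 25 (.nv (.thr 3 18 (.thr 42 0 (.dbl 43 23 40))) (.nv (.thr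 60 62 (.dbl 3 18 22)) (.rp 22 (.thr 42 0 (.thr 43 40 (.dbl 3 18 23))) (.rp 18 (.thr 60 62 (.thr 52 56 (.dbl 22 3 7))) (.rp 3 (.thr 60 62 (.thr 52 56 (.thr 0 42 (.thr 20 40 (.dbl 22 7 23))))) .nd)))))) (.rp 3 (.thr 60 62 (.thr 52 56 (.thr 0 42 (.thr 20 40 (.dbl 22 7 23))))) .nd)))))))) (.rp 22 (.thr 42 0 (.thr 43 40 (.dbl 3 18 23))) (.rp 18 (.thr 60 62 (.thr 52 56 (.dbl 22 3 7))) (.rp 14 (.str 38 (.nv (.thr 0 42 (.thr 4 55 (.thr 12 8 (.dbl 36 24 39)))) (.nv (.thr 3 18 (.dbl 60 22 62)) .nd))) (.rp 3 (.thr 0 42 (.thr 60 62 (.thr 52 56 (.thr 20 40 (.dbl 22 7 23))))) .nd)))))))) (.rp 48 (.str 50 (.nv (.thr 60 62 (.thr 22 3 (.thr 7 52 (.thr 4 6 (.thr 23 20 (.dbl 55 38 39)))))) (.nv (.thr 42 0 (.thr 32 47 (.thr 40 43 (.thr 44 36 (.dbl 35 34 38))))) (.nv (.thr 0 42 (.thr 60 62 (.thr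 20 40 (.dbl 22 3 23)))) (.rp 3 (.thr 62 60 (.thr 42 0 (.thr 2 22 (.thr 32 47 (.dbl 34 18 35))))) (.rp 2 (.thr 0 42 (.thr 60 62 (.thr 22 3 (.dbl 20 23 40)))) (.rp 0 (.thr 60 62 (.thr 3 22 (.thr 43 23 (.thr 42 40 (.thr 32 47 (.thr 34 35 (.thr 46 38 (.thr 12 29 (.thr 6 9 (.thr 7 4 (.thr 15 11 (.thr 14 13 (.dbl 2 10 18))))))))))))) .nd))))))) (.rp 3 (.thr 62 60 (.thr 42 0 (.thr 2 22 (.thr 32 47 (.thr 40 43 (.thr 44 36 (.dbl 35 34 38))))))) (.rp 2 (.thr 60 62 (.thr 3 22 (.thr 42 0 (.dbl 43 23 40)))) (.rp 0 (.thr 60 62 (.thr 3 22 (.thr 43 23 (.thr 42 40 (.thr 47 32 (.thr 15 31 (.thr 7 11 (.thr 39 35 (.thr 4 6 (.dbl 38 36 55)))))))))) .nd))))))))))) (.rp 45 (.str 63 (.nv (.thr 0 42 (.thr 1 61 (.thr 3 2 (.thr 22 60 (.thr 7 52 (.dbl 15 10 11)))))) (.nv (.thr 42 0 (.thr 43 40 (.thr 3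 23 (.thr 47 32 (.thr 15 31 (.thr 7 11 (.dbl 22 52 60))))))) (.nv (.thr 61 1 (.thr 60 62 (.thr 3 22 (.thr 43 23 (.dbl 42 0 40))))) (.rp 60 (.thr 1 61 (.thr 0 42 (.thr 3 2 (.thr 23 43 (.thr 22 20 (.thr 7 52 (.dbl 15 10 11))))))) (.rp 42 (.thr 61 1 (.thr 60 62 (.thr 22 3 (.thr 23 20 (.thr 7 52 (.thr 55 39 (.dbl 4 6 38))))))) (.rp 22 (.thr 1 61 (.thr 13 9 (.thr 42 0 (.thr 47 32 (.thr 15 31 (.thr 12 14 (.thr 29 46 (.dbl 25 17 49)))))))) (.rp 3 (.thr 1 61 (.thr 13 9 (.thr 42 0 (.thr 47 32 (.thr 15 31 (.thr 12 14 (.thr 29 46 (.dbl 25 17 49)))))))) (.rp 0 (.thr 61 1 (.thr 60 62 (.thr 3 22 (.thr 43 23 (.thr 42 40 (.thr 47 32 (.thr 15 31 (.thr 7 11 (.thr 39 35 (.thr 4 6 (.dbl 38 36 55))))))))))) .nd))))))))) (.rp 33 (.str 7 (.nv (.thr 1 61 (.thr 22 52 (.thr 3 60 (.thr 0 2 (.dbl 15 10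 11))))) (.nv (.thr 1 61 (.thr 6 4 (.thr 9 13 (.thr 3 12 (.thr 0 2 (.dbl 15 10 11)))))) (.nv (.thr 4 6 (.thr 22 52 (.thr 23 20 (.dbl 55 38 39)))) .nd)))) (.rp 25 (.thr 45 33 (.str 38 (.nv (.thr 4 55 (.thr 7 6 (.thr 36 39 (.dbl 52 20 22)))) (.nv (.thr 36 39 (.thr 44 35 (.thr 47 46 (.dbl 32 40 42)))) (.rp 39 (.thr 44 35 (.thr 47 46 (.thr 32 42 (.thr 36 40 (.thr 4 55 (.thr 7 6 (.dbl 52 20 22))))))) (.rp 36 (.thr 44 35 (.thr 46 47 (.thr 61 1 (.thr 29 13 (.thr 63 12 (.dbl 42 0 34)))))) (.rp 27 (.str 24 (.nv (.thr 44 35 (.thr 46 47 (.thr 61 1 (.thr 29 13 (.thr 63 12 (.dbl 42 0 34)))))) (.nv (.thr 4 55 (.thr 7 6 (.thr 52 22 (.dbl 36 20 39)))) (.rp 63 (.thr 44 35 (.thr 47 46 (.thr 32 42 (.dbl 36 39 40)))) (.rp 39 (.str 15 (.nv (.thr 0 10 (.thr 1 61 (.thr 13 9 (.thr 12 14 (.dbl 4 8 55)))))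 (.nv (.thr 0 10 (.thr 44 35 (.thr 47 46 (.dbl 42 32 63)))) (.nv (.thr 4 55 (.thr 7 6 (.thr 60 30 (.dbl 22 3 52)))) .nd)))) (.rp 19 (.thr 1 61 (.thr 9 13 (.thr 4 55 (.thr 6 7 (.thr 3 12 (.dbl 22 54 60)))))) (.rp 15 (.thr 39 36 (.thr 61 1 (.thr 29 13 (.thr 55 4 (.thr 44 35 (.thr 46 47 (.thr 23 7 (.thr 20 22 (.thr 28 16 (.dbl 12 60 63)))))))))) .nd))))))) (.rp 24 (.str 27 (.nv (.thr 36 39 (.thr 44 35 (.thr 32 40 (.dbl 47 42 46)))) (.nv (.thr 4 55 (.thr 7 6 (.thr 36 39 (.dbl 52 20 22)))) (.rp 39 (.thr 4 55 (.thr 7 6 (.thr 44 35 (.thr 47 46 (.thr 32 42 (.thr 36 40 (.dbl 52 20 22))))))) (.rp 36 (.thr 1 61 (.thr 9 13 (.thr 4 55 (.thr 6 7 (.thr 12 3 (.thr 0 8 (.thr 15 10 (.thr 60 30 (.dbl 44 28 35))))))))) .nd))))) (.rp 15 (.thr 44 35 (.thr 47 46 (.thr 32 42 (.dbl 36 39 40)))) .nd)))))))))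 (.rp 17 (.str 0 (.nv (.thr 15 10 (.thr 42 63 (.thr 40 43 (.thr 60 20 (.dbl 45 30 33))))) (.nv (.thr 1 61 (.thr 3 2 (.thr 9 13 (.thr 6 12 (.thr 7 4 (.dbl 15 10 11)))))) (.nv (.thr 1 61 (.thr 3 2 (.thr 22 60 (.thr 23 20 (.dbl 63 42 43))))) (.rp 3 (.thr 45 33 (.thr 15 10 (.thr 60 30 (.thr 40 20 (.dbl 42 43 63))))) .nd))))) (.rp 13 (.str 7 (.nv (.thr 1 61 (.thr 22 52 (.thr 3 60 (.thr 0 2 (.dbl 15 10 11))))) (.nv (.thr 4 6 (.thr 22 52 (.thr 23 20 (.dbl 55 38 39)))) (.rp 55 (.thr 1 61 (.thr 6 4 (.thr 22 52 (.thr 54 38 (.thr 3 60 (.thr 15 11 (.dbl 0 2 10))))))) (.rp 54 (.thr 4 6 (.thr 55 38 (.thr 22 52 (.dbl 23 20 39)))) (.rp 52 (.thr 1 61 (.thr 4 6 (.thr 55 38 (.thr 23 39 (.thr 22 20 (.thr 3 60 (.thr 63 43 (.dbl 0 2 42)))))))) (.rp 22 (.thr 45 33 (.thr 4 6 (.thr 38 55 (.thr 36 39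 (.thr 44 35 (.thr 32 40 (.dbl 47 42 46))))))) .nd))))))) (.rp 9 (.str 7 (.nv (.thr 1 61 (.thr 22 52 (.thr 3 60 (.thr 0 2 (.dbl 15 10 11))))) (.nv (.thr 4 6 (.thr 22 52 (.thr 23 20 (.dbl 55 38 39)))) (.rp 55 (.thr 1 61 (.thr 6 4 (.thr 22 52 (.thr 54 38 (.thr 3 60 (.thr 15 11 (.dbl 0 2 10))))))) (.rp 54 (.thr 4 6 (.thr 55 38 (.thr 22 52 (.dbl 23 20 39)))) (.rp 52 (.thr 1 61 (.thr 4 6 (.thr 55 38 (.thr 23 39 (.thr 22 20 (.thr 3 60 (.thr 63 43 (.dbl 0 2 42)))))))) (.rp 22 (.thr 45 33 (.thr 4 6 (.thr 38 55 (.thr 36 39 (.thr 44 35 (.thr 32 40 (.dbl 47 42 46))))))) (.rp 3 (.thr 22 52 (.thr 23 20 (.thr 55 39 (.dbl 4 6 38)))) .nd)))))))) (.rp 1 (.str 7 (.nv (.thr 4 6 (.thr 38 55 (.thr 52 22 (.dbl 36 20 39)))) (.nv (.thr 22 52 (.thr 3 60 (.thr 15 11 (.thr 0 10 (.thr 23 20 (.dbl 63 42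 43)))))) (.nv (.thr 4 6 (.thr 22 52 (.thr 23 20 (.dbl 55 38 39)))) (.rp 55 (.thr 45 33 (.thr 4 6 (.thr 52 22 (.thr 36 20 (.thr 38 39 (.thr 44 35 (.thr 32 40 (.dbl 47 42 46)))))))) (.rp 52 (.thr 4 6 (.thr 55 38 (.thr 23 39 (.thr 22 20 (.thr 3 60 (.thr 63 43 (.thr 15 11 (.dbl 0 10 42)))))))) (.rp 22 (.thr 45 33 (.thr 4 6 (.thr 38 55 (.thr 36 39 (.thr 44 35 (.thr 32 40 (.dbl 47 42 46))))))) (.rp 20 (.thr 45 33 (.thr 4 6 (.thr 38 55 (.thr 36 39 (.thr 44 35 (.thr 32 40 (.dbl 47 42 46))))))) (.rp 4 (.thr 45 33 (.thr 22 52 (.thr 20 23 (.thr 60 3 (.thr 0 40 (.dbl 15 10 30)))))) .nd))))))))) .nd))))))))))))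

theorem w553 : WinAt (137441050656, 11258999135535104) :=
  chF (K := []) kn c553 137441050656 11258999135535104 53
    [] (by decide +kernel) (by decide +kernel)

/-- A certificate. -/
noncomputable def c554 : Ct := (.str 61 (.nv (.thr 49 57 (.thr 13 25 (.thr 41 1 (.dbl 45 29 33)))) (.nv (.thr 49 57 (.thr 25 13 (.thr 17 29 (.dbl 1 33 41)))) (.rp 57 (.str 63 (.nv (.thr 0 42 (.thr 60 62 (.thr 20 40 (.thr 22 23 (.dbl 41 1 3))))) (.nv (.thr 41 1 (.thr 33 45 (.thr 48 58 (.thr 3 18 (.dbl 60 22 62))))) (.nv (.thr 41 1 (.thr 42 0 (.thr 45 33 (.thr 47 32 (.thr 46 44 (.dbl 29 12 13)))))) (.nv (.thr 41 1 (.thr 60 62 (.thr 22 3 (.thr 20 23 (.dbl 0 40 42))))) (.rp 42 (.thr 41 1 (.thr 45 33 (.thr 60 62 (.thr 15 30 (.thr 47 31 (.thr 46 44 (.dbl 29 12 13))))))) (.rp 41 (.thr 60 62 (.thr 42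 0 (.thr 47 32 (.thr 15 31 (.thr 45 30 (.thr 29 13 (.dbl 46 12 44))))))) (.rp 3 (.thr 41 1 (.thr 45 33 (.thr 60 62 (.thr 15 30 (.thr 47 31 (.dbl 42 0 32)))))) (.rp 1 (.thr 60 62 (.thr 42 0 (.thr 47 32 (.thr 15 31 (.thr 45 30 (.thr 46 44 (.dbl 29 12 13))))))) .nd))))))))) (.rp 49 (.str 42 (.nv (.thr 47 32 (.thr 63 0 (.thr 15 31 (.thr 60 62 (.thr 45 30 (.dbl 41 1 33)))))) (.nv (.thr 41 1 (.thr 33 45 (.thr 63 0 (.thr 48 58 (.thr 3 18 (.dbl 60 22 62)))))) (.nv (.thr 32 47 (.thr 41 1 (.thr 33 45 (.thr 35 34 (.thr 40 43 (.dbl 44 36 38)))))) (.rp 45 (.thr 63 0 (.thr 60 62 (.thr 41 1 (.thr 43 40 (.dbl 3 22 23))))) (.rp 41 (.thr 47 32 (.thr 63 0 (.thr 60 62 (.thr 15 31 (.thr 45 30 (.thr 46 44 (.dbl 29 12 13))))))) (.rp 33 (.thr 47 32 (.thr 63 0 (.thr 60 62 (.thr 15 31 (.thr 45 30 (.thr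 46 44 (.dbl 29 12 13))))))) (.rp 1 (.thr 47 32 (.thr 63 0 (.thr 60 62 (.thr 15 31 (.thr 45 30 (.thr 46 44 (.dbl 29 12 13))))))) .nd)))))))) (.rp 41 (.str 63 (.nv (.thr 0 42 (.thr 49 57 (.thr 25 13 (.thr 17 29 (.thr 51 34 (.thr 38 12 (.dbl 55 4 59))))))) (.nv (.thr 42 0 (.thr 47 32 (.thr 15 31 (.thr 60 62 (.thr 45 30 (.thr 29 13 (.dbl 46 12 44))))))) (.nv (.thr 57 49 (.thr 60 62 (.thr 51 54 (.thr 58 48 (.dbl 59 55 56))))) (.rp 56 (.str 11 (.nv (.thr 42 0 (.thr 47 32 (.thr 15 31 (.thr 3 7 (.thr 23 43 (.thr 22 20 (.dbl 62 2 60))))))) (.nv (.thr 49 57 (.thr 25 13 (.thr 29 17 (.thr 12 46 (.thr 51 38 (.dbl 48 50 58)))))) (.rp 60 (.thr 48 58 (.thr 42 0 (.thr 47 32 (.thr 15 31 (.thr 3 7 (.thr 43 23 (.thr 39 35 (.dbl 27 51 59)))))))) (.rp 48 (.thr 60 62 (.thr 57 49 (.thr 51 54 (.thr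 55 59 (.thr 38 4 (.thr 25 12 (.thr 17 29 (.dbl 0 34 42)))))))) (.rp 42 (.thr 49 57 (.thr 25 13 (.thr 29 17 (.thr 12 46 (.thr 38 51 (.thr 36 39 (.dbl 48 24 58))))))) .nd)))))) (.rp 11 (.str 56 (.nv (.thr 58 48 (.dbl 57 49 59)) (.rp 59 (.thr 48 58 (.thr 49 57 (.thr 25 13 (.thr 51 50 (.thr 29 17 (.dbl 12 38 46)))))) (.rp 58 (.thr 60 62 (.thr 49 57 (.thr 42 0 (.thr 47 32 (.thr 15 31 (.thr 45 30 (.dbl 13 25 29))))))) (.rp 57 (.thr 60 62 (.thr 42 0 (.thr 47 32 (.thr 15 31 (.thr 45 30 (.thr 46 44 (.dbl 29 12 13))))))) (.rp 49 (.thr 60 62 (.thr 42 0 (.thr 47 32 (.thr 15 31 (.thr 45 30 (.thr 46 44 (.dbl 29 12 13))))))) (.rp 48 (.thr 60 62 (.thr 57 49 (.thr 59 58 (.dbl 51 54 55)))) .nd))))))) .nd)))))) (.rp 33 (.str 63 (.nv (.thr 0 42 (.thr 49 57 (.thr 25 13 (.thr 17 29 (.thr 51 34 (.dbl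 48 50 58)))))) (.nv (.thr 0 42 (.thr 60 62 (.thr 20 40 (.thr 22 23 (.dbl 41 1 3))))) (.nv (.thr 57 49 (.thr 60 62 (.thr 51 54 (.thr 59 55 (.dbl 58 48 56))))) (.rp 58 (.thr 41 1 (.thr 60 62 (.thr 3 22 (.thr 43 23 (.dbl 42 0 40))))) (.rp 1 (.thr 49 57 (.thr 48 58 (.thr 51 50 (.thr 59 55 (.thr 42 0 (.dbl 25 8 13)))))) .nd)))))) (.rp 29 (.str 63 (.nv (.thr 41 1 (.thr 42 0 (.thr 43 40 (.thr 3 23 (.dbl 60 22 62))))) (.nv (.thr 41 1 (.thr 33 45 (.thr 42 0 (.thr 48 58 (.thr 3 18 (.dbl 43 23 40)))))) (.nv (.thr 57 49 (.thr 60 62 (.thr 51 54 (.thr 58 48 (.dbl 59 55 56))))) .nd)))) (.rp 25 (.thr 41 1 (.thr 45 33 (.thr 49 57 (.thr 13 29 (.str 63 (.nv (.thr 42 0 (.thr 60 62 (.thr 15 30 (.dbl 47 31 32)))) (.nv (.thr 42 0 (.thr 47 32 (.thr 44 46 (.thr 35 38 (.dbl 43 39 40))))) (.nv (.thr 60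 62 (.thr 22 3 (.thr 20 23 (.dbl 0 40 42)))) (.rp 42 (.thr 60 62 (.thr 22 3 (.thr 23 20 (.thr 15 30 (.thr 31 47 (.thr 27 19 (.thr 51 39 (.dbl 48 50 58)))))))) (.rp 27 (.str 24 (.nv (.thr 48 58 (.thr 36 12 (.thr 51 50 (.thr 38 39 (.dbl 55 4 59))))) (.nv (.thr 42 0 (.thr 43 40 (.thr 60 62 (.dbl 3 22 23)))) (.rp 62 (.thr 48 58 (.thr 12 36 (.thr 15 14 (.thr 47 31 (.dbl 42 0 32))))) (.rp 42 (.thr 60 62 (.thr 15 30 (.thr 22 3 (.thr 20 23 (.thr 28 16 (.dbl 12 14 44)))))) (.rp 10 (.thr 60 62 (.thr 15 30 (.thr 42 0 (.dbl 47 31 32)))) .nd)))))) (.rp 24 (.str 27 (.nv (.thr 60 62 (.thr 15 30 (.thr 31 47 (.thr 23 19 (.dbl 3 22 43))))) (.nv (.thr 42 0 (.thr 47 32 (.thr 15 31 (.thr 48 58 (.dbl 51 39 50))))) (.nv (.thr 48 58 (.thr 51 50 (.thr 15 39 (.dbl 60 30 62)))) (.nv (.thr 60 62 (.thr 22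 3 (.thr 20 23 (.dbl 0 40 42)))) .nd))))) (.rp 3 (.thr 62 60 (.thr 42 0 (.thr 2 22 (.thr 47 32 (.thr 15 31 (.thr 14 12 (.dbl 46 30 44))))))) (.rp 2 (.thr 60 62 (.thr 3 22 (.thr 42 0 (.dbl 43 23 40)))) (.rp 0 (.thr 60 62 (.thr 3 22 (.thr 43 23 (.thr 42 40 (.thr 47 32 (.dbl 15 30 31)))))) .nd)))))))))))))) (.rp 13 (.str 63 (.nv (.thr 0 42 (.thr 1 41 (.thr 49 57 (.thr 17 33 (.thr 51 34 (.dbl 48 50 58)))))) (.nv (.thr 0 42 (.thr 60 62 (.thr 20 40 (.thr 22 23 (.dbl 41 1 3))))) (.nv (.thr 57 49 (.thr 60 62 (.thr 51 54 (.thr 58 48 (.dbl 59 55 56))))) (.rp 58 (.thr 60 62 (.thr 42 0 (.thr 47 32 (.thr 15 31 (.thr 45 30 (.dbl 41 1 33)))))) (.rp 9 (.thr 1 41 (.thr 57 49 (.thr 60 62 (.thr 51 54 (.thr 59 55 (.dbl 58 48 56)))))) (.rp 1 (.str 9 (.nv (.thr 57 49 (.thr 25 41 (.thr 42 0 (.thr 59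 8 (.dbl 58 48 56))))) (.nv (.thr 0 42 (.thr 60 62 (.thr 20 40 (.thr 22 23 (.thr 41 3 (.dbl 57 25 49)))))) (.nv (.thr 57 49 (.thr 60 62 (.thr 51 54 (.thr 58 48 (.dbl 59 55 56))))) (.rp 58 (.thr 57 49 (.thr 25 41 (.thr 60 62 (.thr 42 0 (.thr 59 8 (.dbl 51 54 55)))))) (.rp 57 (.thr 60 62 (.thr 42 0 (.thr 47 32 (.thr 15 31 (.thr 45 30 (.thr 41 33 (.thr 43 40 (.dbl 3 22 23)))))))) (.rp 49 (.thr 60 62 (.thr 58 48 (.thr 0 42 (.thr 20 40 (.thr 22 23 (.thr 41 3 (.thr 57 25 (.thr 51 54 (.dbl 59 55 56))))))))) .nd))))))) .nd))))))) (.rp 1 (.thr 49 57 (.thr 13 25 (.thr 45 29 (.thr 41 33 (.str 63 (.nv (.thr 42 0 (.thr 60 62 (.thr 15 30 (.dbl 47 31 32)))) (.nv (.thr 42 0 (.thr 47 32 (.thr 44 46 (.thr 35 38 (.dbl 43 39 40))))) (.nv (.thr 60 62 (.thr 22 3 (.thr 20 23 (.dbl 0 40 42)))) (.rp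 42 (.thr 60 62 (.thr 22 3 (.thr 23 20 (.thr 15 30 (.thr 31 47 (.thr 27 19 (.thr 51 39 (.dbl 48 50 58)))))))) (.rp 27 (.str 24 (.nv (.thr 48 58 (.thr 36 12 (.thr 51 50 (.thr 38 39 (.dbl 55 4 59))))) (.nv (.thr 42 0 (.thr 43 40 (.thr 60 62 (.dbl 3 22 23)))) (.rp 62 (.thr 48 58 (.thr 12 36 (.thr 15 14 (.thr 47 31 (.dbl 42 0 32))))) (.rp 42 (.thr 60 62 (.thr 15 30 (.thr 22 3 (.thr 20 23 (.thr 28 16 (.dbl 12 14 44)))))) (.rp 10 (.thr 60 62 (.thr 15 30 (.thr 42 0 (.dbl 47 31 32)))) .nd)))))) (.rp 24 (.str 27 (.nv (.thr 60 62 (.thr 15 30 (.thr 31 47 (.thr 23 19 (.dbl 3 22 43))))) (.nv (.thr 42 0 (.thr 47 32 (.thr 15 31 (.thr 48 58 (.dbl 51 39 50))))) (.nv (.thr 48 58 (.thr 51 50 (.thr 15 39 (.dbl 60 30 62)))) (.nv (.thr 60 62 (.thr 22 3 (.thr 20 23 (.dbl 0 40 42)))) .nd))))) (.rp 3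 (.thr 62 60 (.thr 42 0 (.thr 2 22 (.thr 47 32 (.thr 15 31 (.thr 14 12 (.dbl 46 30 44))))))) (.rp 2 (.thr 60 62 (.thr 3 22 (.thr 42 0 (.dbl 43 23 40)))) (.rp 0 (.thr 60 62 (.thr 3 22 (.thr 43 23 (.thr 42 40 (.thr 47 32 (.dbl 15 30 31)))))) .nd)))))))))))))) .nd)))))))))))

theorem w554 : WinAt (9007336695791616, 4503599694479392) :=
  chF (K := []) kn c554 9007336695791616 4503599694479392 5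
    [] (by decide +kernel) (by decide +kernel)

end Pool.Agent.TTT.B43
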