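import Pool.Agent.TTT.Q26
import Pool.Agent.TTT.Q27

/-!
Certified forced wins in positions of the 4 x 4 x 4 board.
-/

set_option autoImplicit false
set_option maxRecDepth 1000000
set_option linter.all false

namespace Pool.Agent.TTT.B43

/-- A certificate. -/
noncomputable def c555 : Ct := (.str 23 (.rp 63 (.str 38 (.nv (.thr 39 36 (.dbl 55 4 7)) (.rp 58 (.str 48 (.nv (.thr 39 36 (.dbl 55 4 7)) (.rp 55 (.thr 36 39 (.thr 20 22 (.thr 52 4 (.thr 60 56 (.thr 0 40 (.thr 16 32 (.dbl 24 12 28))))))) (.rp 42 (.str 10 (.nv (.thr 39 36 (.dbl 55 4 7)) (.rp 55 (.thr 22 20 (.thr 36 39 (.thr 6 54 (.thr 52 7 (.thr 12 24 (.thr 3 9 (.dbl 60 41 56))))))) (.rp 39 (.thr 22 20 (.thr 54 6 (.thr 52 7 (.thr 60 56 (.thr 41 3 (.thr 44 35 (.thr 12 28 (.dbl 51 25 57)))))))) (.rp 36 (.thr 55 4 (.thr 7 39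 (.dbl 22 20 52))) (.rp 7 (.thr 20 22 (.thr 36 39 (.dbl 4 52 55))) (.rp 4 (.thr 39 36 (.thr 7 55 (.dbl 22 20 52))) .nd))))))) (.rp 39 (.thr 22 20 (.thr 52 7 (.thr 54 6 (.thr 60 56 (.thr 41 3 (.thr 44 35 (.thr 12 28 (.dbl 51 25 57)))))))) (.rp 36 (.thr 55 4 (.thr 7 39 (.dbl 22 20 52))) (.rp 10 (.str 42 (.nv (.thr 39 36 (.dbl 55 4 7)) (.rp 55 (.thr 39 36 (.thr 47 32 (.thr 35 43 (.thr 46 34 (.dbl 44 41 45))))) (.rp 39 (.thr 20 22 (.thr 4 55 (.thr 52 36 (.thr 60 56 (.thr 0 40 (.dbl 32 16 47)))))) (.rp 36 (.thr 55 4 (.thr 7 39 (.dbl 22 20 52))) (.rp 7 (.thr 36 39 (.thr 20 22 (.dbl 4 52 55))) (.rp 4 (.thr 39 36 (.thr 7 55 (.dbl 22 20 52))) .nd))))))) (.rp 7 (.thr 36 39 (.thr 4 55 (.dbl 20 22 52))) (.rp 4 (.thr 39 36 (.thr 7 55 (.dbl 22 20 52))) .nd))))))))) (.rp 55 (.thr 36 39 (.thr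 22 20 (.thr 52 7 (.str 51 (.nv (.thr 25 12 (.thr 19 28 (.thr 3 35 (.thr 49 13 (.thr 48 50 (.dbl 60 41 56)))))) (.nv (.thr 25 12 (.thr 49 13 (.thr 48 50 (.thr 60 56 (.dbl 54 6 57))))) (.nv (.thr 6 54 (.thr 12 25 (.thr 3 9 (.thr 35 19 (.dbl 41 44 60))))) (.rp 60 (.thr 6 54 (.thr 12 25 (.thr 3 9 (.thr 35 19 (.thr 41 44 (.thr 33 45 (.dbl 48 18 24))))))) (.rp 58 (.str 48 (.nv (.thr 54 6 (.dbl 60 56 57)) (.nv (.dbl 12 24 25) (.rp 42 (.str 10 (.nv (.thr 54 6 (.dbl 60 56 57)) (.nv (.dbl 12 24 25) .nd))) (.rp 10 (.str 42 (.nv (.thr 54 6 (.dbl 60 56 57)) (.nv (.dbl 12 24 25) .nd))) .nd))))) (.rp 48 (.str 58 (.nv (.thr 25 12 (.thr 19 28 (.thr 3 35 (.thr 29 17 (.thr 13 49 (.thr 61 45 (.dbl 41 1 60))))))) (.nv (.thr 54 6 (.thr 57 60 (.thr 59 56 (.thr 62 50 (.thr 42 2 (.dbl 25 8 12)))))) (.nv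 (.thr 12 25 (.thr 6 54 (.thr 3 9 (.thr 35 19 (.dbl 41 44 60))))) (.rp 60 (.thr 54 6 (.thr 62 50 (.thr 42 2 (.thr 32 47 (.thr 34 46 (.thr 35 33 (.dbl 44 40 41))))))) (.rp 41 (.thr 54 6 (.thr 62 50 (.thr 42 2 (.thr 57 60 (.thr 25 12 (.dbl 59 8 56)))))) (.rp 25 (.thr 54 6 (.thr 62 50 (.thr 42 2 (.thr 60 57 (.thr 41 3 (.thr 40 43 (.dbl 32 44 47))))))) (.rp 12 (.thr 54 6 (.thr 62 50 (.thr 42 2 (.thr 60 57 (.thr 32 47 (.thr 40 44 (.dbl 41 3 43))))))) .nd)))))))) (.rp 41 (.thr 54 6 (.thr 60 57 (.thr 25 12 (.thr 49 13 (.dbl 48 50 56))))) (.rp 25 (.thr 54 6 (.thr 60 57 (.thr 48 56 (.thr 41 3 (.thr 44 35 (.dbl 12 24 28)))))) (.rp 12 (.thr 54 6 (.thr 60 57 (.thr 48 56 (.thr 49 50 (.thr 25 13 (.thr 19 28 (.dbl 3 35 41))))))) .nd))))))))))))) (.rp 48 (.str 58 (.nv (.thr 55 4 (.dbl 39 7 36))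 (.rp 55 (.thr 39 36 (.thr 22 20 (.thr 54 6 (.thr 62 50 (.thr 42 2 (.thr 47 32 (.thr 35 43 (.thr 44 41 (.dbl 46 34 45))))))))) (.rp 39 (.str 51 (.nv (.thr 22 20 (.thr 54 6 (.thr 60 57 (.thr 3 41 (.thr 19 35 (.dbl 25 12 28)))))) (.nv (.thr 4 55 (.thr 12 25 (.thr 0 8 (.thr 22 20 (.thr 34 17 (.thr 42 46 (.thr 54 6 (.dbl 62 2 50)))))))) (.nv (.thr 22 20 (.thr 12 25 (.thr 6 54 (.thr 3 9 (.thr 35 19 (.dbl 41 44 60)))))) (.rp 54 (.thr 22 20 (.thr 25 12 (.thr 29 17 (.thr 19 28 (.thr 35 3 (.thr 13 49 (.thr 61 45 (.dbl 41 1 44)))))))) (.rp 25 (.thr 22 20 (.thr 54 6 (.thr 62 50 (.thr 42 2 (.thr 60 57 (.thr 41 3 (.thr 32 47 (.thr 34 46 (.dbl 35 33 44))))))))) (.rp 22 (.thr 4 55 (.thr 12 25 (.thr 0 8 (.thr 34 17 (.thr 42 46 (.thr 32 47 (.thr 35 33 (.thr 44 41 (.thr 40 36 (.dbl 60 20 28))))))))))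 (.rp 20 (.thr 4 55 (.thr 12 25 (.thr 0 8 (.thr 34 17 (.thr 42 46 (.thr 32 47 (.thr 35 33 (.thr 3 19 (.thr 1 2 (.dbl 41 44 61)))))))))) (.rp 12 (.thr 22 20 (.thr 54 6 (.thr 62 50 (.thr 42 2 (.thr 60 57 (.thr 3 41 (.thr 35 19 (.thr 32 47 (.dbl 34 33 46))))))))) (.rp 6 (.thr 22 20 (.thr 25 12 (.thr 29 17 (.thr 19 28 (.thr 3 35 (.thr 13 49 (.thr 61 45 (.dbl 41 1 60)))))))) .nd)))))))))) (.rp 36 (.thr 55 4 (.thr 7 39 (.dbl 22 20 52))) (.rp 7 (.thr 36 39 (.thr 20 22 (.dbl 4 52 55))) (.rp 4 (.thr 39 36 (.thr 7 55 (.dbl 22 20 52))) .nd))))))) (.rp 39 (.thr 22 20 (.thr 52 7 (.str 60 (.nv (.thr 54 6 (.thr 51 57 (.thr 12 25 (.thr 44 28 (.dbl 41 3 35))))) (.nv (.thr 54 6 (.thr 48 56 (.thr 51 57 (.thr 49 50 (.dbl 25 12 13))))) (.nv (.thr 3 41 (.thr 6 54 (.thr 12 9 (.thr 28 44 (.dbl 25 19 51)))))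 (.rp 58 (.thr 48 56 (.thr 54 6 (.thr 41 3 (.thr 44 35 (.thr 12 28 (.dbl 51 25 57)))))) (.rp 57 (.thr 6 54 (.thr 3 41 (.thr 12 9 (.thr 25 51 (.dbl 28 19 44))))) (.rp 54 (.thr 48 56 (.thr 41 3 (.thr 1 61 (.thr 33 45 (.thr 49 17 (.thr 51 50 (.dbl 25 12 13))))))) (.rp 51 (.thr 41 3 (.thr 61 1 (.thr 45 33 (.thr 15 30 (.thr 13 29 (.thr 12 14 (.dbl 44 28 35))))))) (.rp 48 (.str 58 (.nv (.thr 3 41 (.thr 54 6 (.thr 51 57 (.thr 25 12 (.dbl 19 28 35))))) (.nv (.thr 54 6 (.thr 51 57 (.thr 12 25 (.thr 44 28 (.dbl 41 3 35))))) (.nv (.thr 3 41 (.thr 6 54 (.thr 12 9 (.thr 28 44 (.dbl 25 19 51))))) (.rp 57 (.thr 6 54 (.thr 3 41 (.thr 12 9 (.thr 25 51 (.dbl 28 19 44))))) (.rp 54 (.thr 41 3 (.thr 33 45 (.thr 44 35 (.thr 28 12 (.thr 1 61 (.thr 49 17 (.dbl 25 13 19))))))) (.rp 51 (.thr 54 6 (.thr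 41 3 (.thr 33 45 (.thr 35 44 (.thr 34 32 (.thr 1 61 (.thr 62 50 (.thr 49 17 (.dbl 42 2 46))))))))) (.rp 41 (.thr 54 6 (.thr 62 50 (.thr 51 57 (.thr 42 2 (.thr 34 46 (.thr 17 0 (.dbl 25 12 29))))))) (.rp 28 (.thr 54 6 (.thr 62 50 (.thr 51 57 (.thr 42 2 (.thr 34 46 (.thr 17 0 (.dbl 25 12 29))))))) (.rp 25 (.thr 54 6 (.thr 62 50 (.thr 42 2 (.thr 47 32 (.thr 41 3 (.thr 44 35 (.dbl 46 34 45))))))) (.rp 12 (.thr 54 6 (.thr 62 50 (.thr 51 57 (.thr 42 2 (.thr 32 47 (.thr 3 41 (.thr 35 19 (.dbl 34 33 46)))))))) (.rp 6 (.thr 41 3 (.thr 33 45 (.thr 44 35 (.thr 12 28 (.thr 1 61 (.thr 49 17 (.dbl 25 13 51))))))) (.rp 3 (.thr 4 55 (.thr 54 6 (.thr 62 50 (.thr 51 57 (.thr 12 25 (.thr 0 8 (.thr 34 17 (.dbl 42 2 46)))))))) .nd))))))))))))) (.rp 41 (.thr 54 6 (.thr 51 57 (.thr 25 12 (.thr 49 13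 (.dbl 48 50 56))))) (.rp 25 (.thr 54 6 (.thr 48 56 (.thr 51 57 (.thr 49 50 (.thr 41 3 (.thr 1 61 (.dbl 33 17 45))))))) (.rp 12 (.thr 54 6 (.thr 48 56 (.thr 51 57 (.thr 49 50 (.thr 25 13 (.thr 19 28 (.dbl 3 35 41))))))) (.rp 6 (.thr 48 56 (.thr 41 3 (.thr 1 61 (.thr 33 45 (.thr 49 17 (.thr 51 50 (.dbl 25 12 13))))))) .nd))))))))))))))) (.rp 36 (.thr 55 4 (.thr 7 39 (.dbl 22 20 52))) (.rp 7 (.thr 36 39 (.thr 4 55 (.dbl 20 22 52))) (.rp 4 (.thr 39 36 (.thr 7 55 (.dbl 22 20 52))) .nd))))))))) (.rp 62 (.str 63 (.nv (.thr 42 0 (.thr 43 3 (.thr 47 32 (.thr 39 35 (.thr 38 36 (.dbl 55 4 7)))))) (.nv (.thr 3 43 (.thr 22 20 (.thr 7 52 (.thr 15 11 (.thr 31 47 (.thr 27 19 (.dbl 39 51 55))))))) (.nv (.thr 22 20 (.thr 3 43 (.thr 0 42 (.thr 41 60 (.dbl 1 2 61))))) (.rp 43 (.thr 22 20 (.thr 7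 52 (.thr 55 39 (.thr 51 59 (.thr 0 42 (.thr 17 34 (.thr 25 29 (.dbl 38 4 12)))))))) (.rp 3 (.thr 22 20 (.thr 7 52 (.thr 55 39 (.thr 51 59 (.thr 0 42 (.thr 17 34 (.thr 25 29 (.dbl 38 4 12)))))))) .nd)))))) (.rp 61 (.thr 22 20 (.str 63 (.nv (.thr 3 43 (.thr 7 52 (.thr 15 11 (.thr 31 47 (.thr 27 19 (.dbl 39 51 55)))))) (.nv (.thr 0 42 (.thr 7 52 (.thr 55 39 (.thr 51 59 (.thr 17 34 (.thr 25 29 (.dbl 38 4 12))))))) (.nv (.thr 3 43 (.thr 42 0 (.thr 47 32 (.thr 15 31 (.dbl 7 11 52))))) (.rp 57 (.str 49 (.nv (.thr 7 52 (.thr 55 39 (.thr 25 13 (.thr 29 17 (.thr 12 46 (.dbl 38 4 51)))))) (.nv (.thr 0 42 (.thr 3 43 (.thr 1 2 (.thr 33 17 (.dbl 41 45 60))))) (.rp 17 (.thr 7 52 (.thr 55 39 (.thr 25 13 (.thr 51 59 (.dbl 38 4 12))))) .nd)))) (.rp 52 (.thr 43 3 (.thr 42 0 (.thr 47 32 (.thr 39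 35 (.thr 55 7 (.dbl 38 4 36)))))) (.rp 49 (.str 57 (.nv (.thr 0 42 (.thr 7 52 (.thr 55 39 (.thr 51 59 (.thr 17 34 (.thr 25 29 (.dbl 38 4 12))))))) (.nv (.thr 0 42 (.thr 3 43 (.thr 41 60 (.thr 25 9 (.thr 17 29 (.thr 19 28 (.dbl 51 34 35))))))) (.nv (.thr 7 52 (.thr 55 39 (.thr 51 59 (.thr 60 54 (.dbl 3 41 43))))) (.rp 51 (.thr 7 52 (.thr 43 3 (.thr 42 0 (.thr 47 32 (.dbl 39 35 55))))) .nd))))) (.rp 7 (.thr 3 43 (.thr 42 0 (.thr 47 32 (.thr 31 15 (.thr 19 27 (.thr 51 35 (.thr 25 28 (.dbl 59 8 55)))))))) .nd))))))))) (.rp 60 (.str 63 (.nv (.thr 20 22 (.thr 42 0 (.thr 43 3 (.thr 41 40 (.thr 45 33 (.thr 47 32 (.thr 35 39 (.dbl 44 38 46)))))))) (.nv (.thr 0 42 (.thr 22 20 (.thr 7 52 (.thr 55 39 (.thr 51 59 (.thr 17 34 (.thr 25 29 (.dbl 38 4 12)))))))) (.nv (.thr 3 43 (.thr 42 0 (.thr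 47 32 (.thr 15 31 (.thr 7 11 (.dbl 22 20 52)))))) (.rp 48 (.thr 20 22 (.thr 42 0 (.thr 43 3 (.thr 41 40 (.thr 1 61 (.thr 33 45 (.thr 32 47 (.thr 34 35 (.thr 46 38 (.thr 29 12 (.dbl 17 25 49))))))))))) (.rp 42 (.thr 22 20 (.thr 7 52 (.thr 3 43 (.thr 15 11 (.thr 31 47 (.thr 27 19 (.dbl 39 51 55))))))) (.rp 22 (.thr 3 43 (.thr 42 0 (.thr 47 32 (.thr 31 15 (.thr 19 27 (.thr 51 35 (.thr 59 55 (.thr 25 8 (.thr 29 17 (.dbl 12 38 46)))))))))) (.rp 20 (.thr 3 43 (.thr 0 42 (.thr 1 2 (.thr 41 61 (.thr 33 45 (.thr 48 18 (.thr 32 16 (.thr 34 35 (.dbl 17 49 51))))))))) (.rp 0 (.str 55 (.nv (.thr 38 4 (.dbl 39 7 36)) (.nv (.thr 7 39 (.dbl 22 20 52)) (.rp 40 (.thr 20 22 (.thr 39 7 (.dbl 38 4 36))) (.rp 39 (.thr 38 4 (.thr 51 59 (.thr 12 25 (.thr 3 43 (.thr 6 9 (.dbl 22 20 54)))))) (.rp 20 (.str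 40 (.nv (.thr 39 7 (.thr 43 3 (.thr 47 35 (.dbl 42 32 41)))) (.nv (.thr 39 7 (.dbl 38 4 36)) (.rp 39 (.thr 51 59 (.thr 43 3 (.thr 38 4 (.thr 12 25 (.thr 46 29 (.dbl 42 34 41)))))) (.rp 7 (.thr 43 3 (.thr 41 42 (.thr 38 4 (.thr 35 44 (.dbl 39 36 47))))) .nd))))) (.rp 7 (.thr 38 4 (.thr 39 36 (.thr 51 59 (.thr 15 27 (.thr 47 31 (.dbl 43 3 35)))))) .nd))))))) .nd))))))))) (.rp 59 (.str 63 (.nv (.thr 22 20 (.thr 7 52 (.thr 42 0 (.thr 47 32 (.thr 15 31 (.dbl 3 11 43)))))) (.nv (.thr 3 43 (.thr 22 20 (.thr 42 0 (.thr 60 41 (.dbl 62 2 61))))) (.rp 60 (.thr 43 3 (.thr 42 0 (.thr 47 32 (.thr 39 35 (.thr 55 7 (.dbl 38 4 36)))))) (.rp 43 (.thr 22 20 (.thr 7 52 (.thr 42 0 (.thr 47 32 (.thr 15 31 (.thr 62 2 (.thr 60 61 (.dbl 3 11 41)))))))) (.rp 42 (.thr 22 20 (.thr 3 43 (.thr 41 60 (.thr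 61 1 (.thr 45 33 (.thr 29 13 (.thr 12 46 (.thr 9 6 (.dbl 25 17 57))))))))) (.rp 22 (.thr 43 3 (.thr 42 0 (.thr 47 32 (.thr 39 35 (.thr 55 7 (.dbl 38 4 36)))))) (.rp 20 (.thr 43 3 (.thr 42 0 (.thr 47 32 (.thr 39 35 (.thr 55 7 (.dbl 38 4 36)))))) (.rp 11 (.thr 22 20 (.thr 42 0 (.thr 62 2 (.thr 60 61 (.dbl 3 41 43))))) (.rp 3 (.thr 22 20 (.thr 42 0 (.thr 47 32 (.thr 31 15 (.thr 19 27 (.thr 25 28 (.thr 29 17 (.thr 46 12 (.thr 13 49 (.dbl 45 44 61)))))))))) (.rp 0 (.thr 22 20 (.thr 7 52 (.thr 3 43 (.thr 60 41 (.thr 62 61 (.thr 42 2 (.thr 47 32 (.dbl 15 11 31)))))))) .nd))))))))))) (.rp 58 (.thr 22 20 (.str 63 (.nv (.thr 3 43 (.thr 7 52 (.thr 15 11 (.thr 31 47 (.thr 27 19 (.dbl 39 51 55)))))) (.nv (.thr 42 0 (.thr 62 2 (.thr 3 43 (.dbl 60 41 61)))) (.rp 43 (.thr 7 52 (.thr 42 0 (.thr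 62 2 (.thr 60 61 (.thr 3 41 (.thr 47 32 (.dbl 15 11 31))))))) (.rp 42 (.str 10 (.nv (.thr 3 43 (.thr 7 52 (.thr 15 11 (.thr 31 47 (.thr 27 19 (.dbl 39 51 55)))))) (.nv (.thr 3 43 (.thr 41 60 (.thr 1 61 (.thr 0 2 (.thr 15 5 (.dbl 7 11 52)))))) (.rp 52 (.thr 3 43 (.thr 41 60 (.thr 61 1 (.thr 45 33 (.thr 29 13 (.thr 12 46 (.thr 9 6 (.dbl 25 17 57)))))))) (.rp 43 (.thr 7 52 (.thr 55 39 (.thr 4 38 (.thr 5 6 (.thr 0 15 (.thr 8 12 (.thr 9 11 (.thr 13 1 (.thr 25 49 (.thr 17 29 (.dbl 51 34 59))))))))))) (.rp 41 (.thr 7 52 (.thr 55 39 (.thr 4 38 (.thr 5 6 (.thr 15 0 (.dbl 3 11 43)))))) (.rp 40 (.thr 7 52 (.thr 55 39 (.thr 4 38 (.thr 5 6 (.thr 0 15 (.thr 3 43 (.thr 41 60 (.dbl 1 2 61)))))))) (.rp 15 (.thr 7 52 (.thr 55 39 (.thr 3 43 (.thr 41 60 (.thr 51 59 (.thr 35 19 (.dbl 38 4 44)))))))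 (.rp 11 (.thr 7 52 (.thr 55 39 (.thr 4 38 (.thr 6 5 (.thr 3 43 (.thr 12 9 (.thr 0 8 (.dbl 2 1 14)))))))) (.rp 7 (.thr 3 43 (.thr 41 60 (.thr 61 1 (.thr 45 33 (.thr 29 13 (.thr 12 46 (.thr 9 6 (.dbl 25 17 57)))))))) (.rp 3 (.thr 7 52 (.thr 55 39 (.thr 4 38 (.thr 5 6 (.thr 15 0 (.thr 31 47 (.thr 19 27 (.thr 25 28 (.thr 29 17 (.thr 13 49 (.dbl 12 14 46))))))))))) .nd))))))))))) (.rp 41 (.thr 7 52 (.thr 3 43 (.thr 42 0 (.thr 47 32 (.dbl 15 11 31))))) (.rp 3 (.thr 7 52 (.thr 55 39 (.thr 59 51 (.thr 42 0 (.thr 47 32 (.thr 25 8 (.thr 19 28 (.dbl 31 15 27)))))))) .nd)))))))) (.rp 57 (.thr 22 20 (.str 41 (.nv (.thr 3 60 (.thr 7 52 (.thr 15 11 (.thr 63 43 (.thr 47 31 (.dbl 42 0 32)))))) (.nv (.thr 3 60 (.thr 63 43 (.thr 0 42 (.dbl 1 2 61)))) (.rp 63 (.thr 45 33 (.thr 61 1 (.thr 13 29 (.thr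 60 3 (.thr 15 30 (.thr 12 14 (.thr 28 44 (.dbl 25 19 49)))))))) (.rp 61 (.str 49 (.nv (.thr 3 60 (.thr 63 43 (.thr 0 42 (.thr 1 2 (.dbl 33 17 45))))) (.nv (.thr 33 45 (.thr 17 1 (.dbl 25 13 29))) (.rp 45 (.thr 3 60 (.thr 63 43 (.thr 7 52 (.thr 15 11 (.thr 47 31 (.dbl 42 0 32)))))) (.rp 33 (.thr 3 60 (.thr 63 43 (.thr 7 52 (.thr 15 11 (.thr 47 31 (.dbl 42 0 32)))))) (.rp 17 (.thr 33 45 (.thr 3 60 (.thr 48 18 (.thr 51 50 (.thr 19 35 (.dbl 25 13 28)))))) (.rp 1 (.thr 45 33 (.thr 25 13 (.thr 29 17 (.thr 60 3 (.thr 30 15 (.dbl 28 19 31)))))) .nd))))))) (.rp 60 (.thr 33 45 (.thr 1 61 (.thr 49 17 (.thr 13 25 (.thr 5 9 (.thr 7 52 (.thr 55 39 (.dbl 4 6 38)))))))) (.rp 54 (.thr 45 33 (.thr 61 1 (.thr 29 13 (.thr 60 3 (.thr 30 15 (.thr 28 31 (.dbl 25 17 19))))))) (.rp 51 (.thr 45 33 (.thr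 61 1 (.thr 29 13 (.thr 60 3 (.thr 30 15 (.thr 28 31 (.dbl 25 17 19))))))) (.rp 49 (.thr 61 1 (.thr 3 60 (.thr 63 43 (.thr 7 52 (.thr 15 11 (.thr 47 31 (.dbl 42 0 32))))))) (.rp 43 (.thr 45 33 (.thr 61 1 (.thr 29 13 (.thr 60 3 (.thr 30 15 (.thr 28 31 (.dbl 25 17 19))))))) (.rp 42 (.thr 45 33 (.thr 61 1 (.thr 29 13 (.thr 60 3 (.thr 30 15 (.thr 28 31 (.dbl 25 17 19))))))) (.rp 40 (.thr 33 45 (.thr 1 61 (.thr 49 17 (.thr 3 60 (.thr 0 2 (.dbl 63 42 43)))))) (.rp 3 (.thr 33 45 (.thr 1 61 (.thr 49 17 (.thr 13 25 (.thr 5 9 (.thr 7 52 (.thr 55 39 (.dbl 4 6 38)))))))) (.rp 0 (.thr 33 45 (.thr 1 61 (.thr 49 17 (.thr 13 25 (.thr 5 9 (.thr 7 52 (.thr 55 39 (.dbl 4 6 38)))))))) .nd))))))))))))))) (.rp 56 (.thr 22 20 (.str 3 (.nv (.thr 7 52 (.thr 63 43 (.thr 42 0 (.thr 47 32 (.dbl 15 11 31)))))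 (.nv (.thr 63 43 (.thr 42 0 (.thr 62 2 (.dbl 60 41 61)))) (.rp 63 (.thr 7 52 (.thr 55 39 (.thr 4 38 (.thr 6 5 (.thr 12 9 (.thr 0 8 (.thr 1 2 (.dbl 41 60 61)))))))) (.rp 60 (.thr 63 43 (.thr 0 42 (.thr 1 2 (.thr 41 61 (.thr 33 45 (.thr 48 18 (.thr 32 16 (.thr 34 35 (.dbl 17 49 51))))))))) (.rp 43 (.thr 41 60 (.thr 1 61 (.thr 0 2 (.thr 33 45 (.thr 48 18 (.thr 32 16 (.dbl 42 47 63))))))) (.rp 42 (.thr 7 52 (.thr 55 39 (.thr 4 38 (.thr 6 5 (.thr 12 9 (.thr 0 8 (.thr 1 2 (.dbl 41 60 61)))))))) (.rp 41 (.str 11 (.nv (.dbl 7 15 52) (.rp 52 (.thr 15 7 (.thr 63 43 (.thr 42 0 (.dbl 47 31 32)))) (.rp 15 (.thr 7 52 (.thr 55 39 (.thr 4 38 (.thr 6 5 (.thr 12 9 (.thr 0 8 (.dbl 63 42 43))))))) (.rp 7 (.thr 43 63 (.thr 27 59 (.thr 19 31 (.thr 51 35 (.thr 25 28 (.thr 38 12 (.dbl 39 15 36)))))))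 .nd))))) (.rp 40 (.thr 63 43 (.thr 0 42 (.thr 41 60 (.dbl 1 2 61)))) (.rp 11 (.thr 41 60 (.thr 63 43 (.thr 0 42 (.dbl 1 2 61)))) (.rp 0 (.thr 7 52 (.thr 55 39 (.thr 4 38 (.thr 6 5 (.thr 12 9 (.thr 63 43 (.thr 29 46 (.thr 25 17 (.thr 19 28 (.dbl 51 35 59)))))))))) .nd)))))))))))) (.rp 55 (.thr 22 20 (.str 63 (.nv (.thr 52 7 (.thr 0 42 (.thr 3 43 (.thr 41 60 (.dbl 1 2 61))))) (.nv (.thr 3 43 (.thr 42 0 (.thr 47 32 (.thr 15 31 (.dbl 7 11 52))))) (.nv (.thr 3 43 (.thr 42 0 (.thr 62 2 (.dbl 60 41 61)))) (.rp 60 (.thr 3 43 (.thr 0 42 (.thr 1 2 (.thr 41 61 (.thr 33 45 (.thr 48 18 (.thr 32 16 (.thr 34 35 (.dbl 17 49 51))))))))) (.rp 52 (.str 54 (.nv (.thr 38 6 (.thr 42 0 (.thr 43 3 (.thr 47 32 (.dbl 39 35 36))))) (.nv (.thr 3 43 (.thr 38 6 (.thr 60 41 (.thr 51 57 (.thr 19 35 (.dbl 25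 12 28)))))) (.nv (.thr 3 43 (.thr 42 0 (.thr 62 2 (.dbl 60 41 61)))) (.rp 60 (.thr 38 6 (.thr 36 39 (.thr 43 3 (.thr 42 0 (.thr 40 41 (.dbl 32 44 47)))))) (.rp 43 (.thr 38 6 (.thr 36 39 (.thr 42 0 (.thr 34 46 (.thr 32 47 (.thr 35 33 (.dbl 44 40 41))))))) (.rp 42 (.thr 6 38 (.thr 3 43 (.thr 12 9 (.thr 41 60 (.thr 61 1 (.thr 45 33 (.dbl 29 13 46))))))) (.rp 40 (.thr 3 43 (.thr 60 41 (.thr 42 0 (.dbl 62 2 61)))) (.rp 36 (.str 4 (.nv (.thr 0 42 (.thr 12 8 (.thr 29 46 (.thr 25 17 (.dbl 38 6 51))))) (.nv (.thr 3 43 (.thr 42 0 (.thr 62 2 (.dbl 60 41 61)))) (.rp 42 (.thr 6 38 (.thr 5 7 (.thr 3 43 (.thr 9 12 (.thr 1 13 (.dbl 41 60 61)))))) (.rp 0 (.thr 6 38 (.thr 5 7 (.thr 3 43 (.thr 9 12 (.thr 1 13 (.dbl 41 60 61)))))) .nd))))) (.rp 4 (.str 36 (.nv (.dbl 38 6 39) (.rp 39 (.thr 3 43 (.thr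 60 41 (.thr 62 61 (.dbl 42 0 2)))) (.rp 38 (.thr 3 43 (.thr 60 41 (.thr 62 61 (.dbl 42 0 2)))) (.rp 6 (.thr 39 38 (.thr 43 3 (.thr 47 35 (.dbl 42 0 32)))) .nd))))) (.rp 3 (.thr 38 6 (.thr 36 39 (.thr 42 0 (.thr 32 47 (.thr 34 46 (.thr 35 33 (.dbl 44 40 41))))))) .nd))))))))))) (.rp 43 (.thr 42 0 (.thr 62 2 (.thr 60 61 (.thr 3 41 (.thr 47 32 (.thr 15 31 (.dbl 7 11 52))))))) (.rp 42 (.thr 3 43 (.thr 41 60 (.thr 61 1 (.thr 45 33 (.thr 29 13 (.thr 12 46 (.thr 9 6 (.dbl 25 17 57)))))))) (.rp 3 (.thr 42 0 (.thr 47 32 (.thr 31 15 (.thr 19 27 (.thr 25 28 (.thr 29 17 (.thr 46 12 (.thr 13 49 (.dbl 45 44 61))))))))) (.rp 0 (.thr 3 43 (.thr 60 41 (.thr 62 61 (.thr 42 2 (.thr 47 32 (.thr 15 31 (.dbl 7 11 52))))))) .nd))))))))))) (.rp 54 (.thr 22 20 (.thr 7 52 (.thr 55 39 (.str 63 (.nv (.thr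 0 42 (.thr 51 59 (.thr 17 34 (.thr 25 29 (.dbl 38 4 12))))) (.nv (.thr 3 43 (.thr 42 0 (.thr 62 2 (.dbl 60 41 61)))) (.rp 42 (.thr 51 59 (.thr 3 43 (.thr 35 19 (.thr 41 60 (.dbl 38 4 44))))) (.rp 36 (.thr 4 38 (.thr 5 6 (.thr 3 43 (.thr 15 11 (.dbl 0 10 42))))) (.rp 4 (.str 36 (.nv (.thr 42 0 (.thr 62 2 (.thr 60 61 (.dbl 3 41 43)))) (.nv (.thr 3 43 (.thr 15 11 (.thr 47 31 (.dbl 42 0 32)))) (.rp 43 (.thr 42 0 (.thr 47 32 (.thr 15 31 (.thr 3 11 (.thr 62 2 (.dbl 60 41 61)))))) (.rp 42 (.thr 51 59 (.thr 3 43 (.thr 35 19 (.thr 41 60 (.thr 33 45 (.thr 32 34 (.dbl 44 38 40))))))) (.rp 41 (.thr 3 43 (.thr 42 0 (.thr 47 32 (.dbl 15 11 31)))) (.rp 3 (.thr 51 59 (.thr 0 42 (.thr 17 34 (.thr 25 29 (.thr 49 13 (.thr 48 50 (.dbl 12 24 38))))))) (.rp 0 (.thr 3 43 (.thr 60 41 (.thr 62 61 (.thr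 42 2 (.thr 47 32 (.dbl 15 11 31)))))) .nd)))))))) (.rp 0 (.thr 3 43 (.thr 60 41 (.thr 62 61 (.thr 42 2 (.thr 47 32 (.dbl 15 11 31)))))) .nd)))))))))) (.rp 52 (.str 63 (.nv (.thr 42 0 (.thr 43 3 (.thr 47 32 (.thr 15 31 (.thr 39 35 (.thr 51 27 (.dbl 55 7 59))))))) (.nv (.thr 22 20 (.thr 3 43 (.thr 42 0 (.thr 62 2 (.dbl 60 41 61))))) (.rp 55 (.str 54 (.nv (.thr 0 42 (.thr 3 43 (.thr 1 2 (.thr 41 61 (.dbl 22 20 60))))) (.nv (.thr 22 20 (.thr 38 6 (.thr 42 0 (.thr 43 3 (.thr 47 32 (.dbl 39 35 36)))))) (.nv (.thr 3 43 (.thr 22 20 (.thr 38 6 (.thr 60 41 (.thr 51 57 (.thr 19 35 (.dbl 25 12 28))))))) (.nv (.thr 3 43 (.thr 22 20 (.thr 42 0 (.thr 62 2 (.dbl 60 41 61))))) (.rp 60 (.thr 43 3 (.thr 42 0 (.thr 47 32 (.thr 39 35 (.thr 38 36 (.dbl 22 6 20)))))) (.rp 43 (.thr 22 20 (.thr 38 6 (.thr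 36 39 (.thr 42 0 (.thr 34 46 (.thr 32 47 (.thr 35 33 (.dbl 44 40 41)))))))) (.rp 42 (.thr 22 20 (.thr 6 38 (.thr 3 43 (.thr 12 9 (.thr 41 60 (.thr 61 1 (.thr 45 33 (.dbl 29 13 46)))))))) (.rp 40 (.thr 22 20 (.thr 3 43 (.thr 60 41 (.thr 42 0 (.dbl 62 2 61))))) (.rp 22 (.thr 43 3 (.thr 42 0 (.thr 47 32 (.thr 35 39 (.thr 41 40 (.thr 45 33 (.dbl 44 38 46))))))) (.rp 20 (.thr 3 43 (.thr 0 42 (.thr 1 2 (.thr 41 61 (.thr 22 60 (.thr 6 38 (.thr 9 12 (.thr 13 5 (.dbl 25 49 57))))))))) (.rp 3 (.thr 22 20 (.thr 38 6 (.thr 36 39 (.thr 42 0 (.thr 32 47 (.thr 34 46 (.thr 35 33 (.dbl 44 40 41)))))))) .nd)))))))))))) (.rp 54 (.str 55 (.nv (.thr 39 7 (.thr 42 0 (.thr 43 3 (.dbl 47 32 35)))) (.nv (.thr 39 7 (.dbl 38 4 36)) (.rp 39 (.thr 22 20 (.thr 3 43 (.thr 60 41 (.thr 62 61 (.dbl 42 0 2)))))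 (.rp 7 (.thr 22 20 (.thr 3 43 (.thr 60 41 (.thr 62 61 (.dbl 42 0 2))))) .nd))))) (.rp 43 (.thr 22 20 (.thr 42 0 (.thr 47 32 (.thr 15 31 (.thr 62 2 (.thr 60 61 (.thr 45 30 (.dbl 41 3 33)))))))) (.rp 42 (.thr 22 20 (.thr 3 43 (.thr 41 60 (.thr 61 1 (.thr 45 33 (.thr 29 13 (.thr 12 46 (.thr 9 6 (.dbl 25 17 57))))))))) (.rp 3 (.thr 22 20 (.thr 42 0 (.thr 47 32 (.thr 31 15 (.thr 19 27 (.thr 25 28 (.thr 29 17 (.thr 12 46 (.thr 51 38 (.dbl 59 8 55)))))))))) (.rp 2 (.thr 22 20 (.thr 3 43 (.thr 41 60 (.thr 61 1 (.thr 45 33 (.thr 29 13 (.thr 12 46 (.thr 9 6 (.dbl 25 17 57))))))))) (.rp 0 (.thr 22 20 (.thr 3 43 (.thr 60 41 (.thr 62 61 (.thr 42 2 (.thr 47 32 (.thr 31 15 (.thr 19 27 (.thr 51 35 (.thr 25 28 (.dbl 59 8 55))))))))))) .nd)))))))))) (.rp 51 (.str 3 (.nv (.thr 22 20 (.thr 7 52 (.thr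 15 11 (.thr 63 43 (.thr 47 31 (.dbl 42 0 32)))))) (.nv (.thr 22 20 (.thr 63 43 (.thr 0 42 (.thr 1 2 (.dbl 41 60 61))))) (.rp 63 (.thr 22 20 (.thr 7 52 (.thr 55 39 (.thr 4 38 (.thr 6 5 (.thr 12 9 (.thr 0 8 (.thr 1 2 (.dbl 41 60 61))))))))) (.rp 43 (.thr 22 20 (.thr 41 60 (.thr 1 61 (.thr 0 2 (.thr 33 45 (.thr 48 18 (.thr 32 16 (.dbl 42 47 63)))))))) (.rp 42 (.thr 22 20 (.thr 7 52 (.thr 55 39 (.thr 4 38 (.thr 6 5 (.thr 12 9 (.thr 0 8 (.thr 1 2 (.dbl 41 60 61))))))))) (.rp 41 (.thr 22 20 (.thr 7 52 (.thr 63 43 (.thr 42 0 (.thr 47 32 (.dbl 15 11 31)))))) (.rp 22 (.thr 63 43 (.thr 42 0 (.thr 47 32 (.thr 15 31 (.thr 7 11 (.thr 55 39 (.thr 4 38 (.thr 6 5 (.thr 12 9 (.thr 46 29 (.thr 45 44 (.thr 30 60 (.dbl 14 13 62))))))))))))) (.rp 20 (.thr 63 43 (.thr 42 0 (.thr 47 32 (.thr 15 31 (.thr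 7 11 (.thr 22 52 (.thr 62 2 (.dbl 60 41 61)))))))) (.rp 0 (.thr 22 20 (.thr 7 52 (.thr 15 11 (.thr 63 43 (.thr 47 31 (.thr 42 32 (.thr 62 2 (.dbl 60 41 61)))))))) .nd)))))))))) (.rp 50 (.thr 22 20 (.str 63 (.nv (.thr 3 43 (.thr 7 52 (.thr 15 11 (.thr 31 47 (.thr 27 19 (.dbl 39 51 55)))))) (.nv (.thr 0 42 (.thr 3 43 (.thr 41 60 (.dbl 1 2 61)))) (.rp 43 (.thr 7 52 (.thr 55 39 (.thr 51 59 (.thr 0 42 (.thr 17 34 (.thr 25 29 (.dbl 38 4 12))))))) (.rp 41 (.thr 7 52 (.thr 3 43 (.thr 42 0 (.thr 47 32 (.dbl 15 11 31))))) (.rp 38 (.str 14 (.nv (.thr 3 43 (.thr 7 52 (.thr 15 11 (.thr 31 47 (.thr 27 19 (.dbl 39 51 55)))))) (.nv (.thr 3 43 (.thr 41 60 (.thr 1 61 (.dbl 0 2 42)))) (.rp 43 (.thr 42 0 (.thr 62 2 (.thr 60 61 (.thr 30 46 (.thr 15 45 (.dbl 47 31 32)))))) (.rp 41 (.thr 7 52 (.thr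 42 0 (.thr 47 32 (.thr 15 31 (.dbl 3 11 43))))) (.rp 3 (.thr 42 0 (.thr 47 32 (.thr 15 31 (.thr 12 13 (.thr 46 29 (.dbl 62 2 30)))))) .nd)))))) (.rp 14 (.str 38 (.nv (.thr 0 42 (.thr 3 43 (.thr 1 2 (.dbl 41 60 61)))) (.nv (.thr 7 52 (.dbl 55 4 39)) .nd))) (.rp 3 (.thr 7 52 (.thr 55 39 (.thr 51 59 (.thr 0 42 (.thr 17 34 (.thr 25 29 (.dbl 38 4 12))))))) .nd))))))))) (.rp 49 (.thr 22 20 (.str 63 (.nv (.thr 3 43 (.thr 7 52 (.thr 15 11 (.thr 31 47 (.thr 27 19 (.dbl 39 51 55)))))) (.nv (.thr 3 43 (.thr 42 0 (.thr 62 2 (.dbl 60 41 61)))) (.rp 61 (.str 57 (.nv (.thr 0 42 (.thr 7 52 (.thr 55 39 (.thr 51 59 (.thr 17 34 (.thr 25 29 (.dbl 38 4 12))))))) (.nv (.thr 0 42 (.thr 3 43 (.thr 41 60 (.thr 25 9 (.thr 17 29 (.thr 19 28 (.dbl 51 34 35))))))) (.nv (.thr 7 52 (.thr 55 39 (.thr 51 59 (.thr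 60 54 (.dbl 3 41 43))))) (.rp 51 (.thr 7 52 (.thr 43 3 (.thr 42 0 (.thr 47 32 (.dbl 39 35 55))))) .nd))))) (.rp 57 (.str 61 (.nv (.thr 0 42 (.thr 1 41 (.dbl 3 2 43))) (.nv (.thr 42 0 (.dbl 62 2 60)) (.nv (.thr 60 62 (.dbl 41 1 3)) .nd)))) (.rp 43 (.thr 7 52 (.thr 55 39 (.thr 51 59 (.thr 0 42 (.thr 17 34 (.thr 25 29 (.dbl 38 4 12))))))) (.rp 41 (.thr 7 52 (.thr 3 43 (.thr 42 0 (.thr 47 32 (.dbl 15 11 31))))) (.rp 3 (.thr 7 52 (.thr 55 39 (.thr 51 59 (.thr 0 42 (.thr 17 34 (.thr 25 29 (.dbl 38 4 12))))))) .nd))))))))) (.rp 48 (.str 63 (.nv (.thr 3 43 (.thr 22 20 (.thr 7 52 (.thr 15 11 (.thr 31 47 (.thr 27 19 (.dbl 39 51 55))))))) (.nv (.thr 22 20 (.thr 3 43 (.thr 0 42 (.thr 1 2 (.dbl 41 60 61))))) (.rp 60 (.thr 20 22 (.thr 42 0 (.thr 43 3 (.thr 41 40 (.thr 1 61 (.thr 33 45 (.thr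 32 47 (.thr 34 35 (.thr 46 38 (.thr 29 12 (.dbl 17 25 49))))))))))) (.rp 43 (.thr 22 20 (.thr 7 52 (.thr 55 39 (.thr 51 59 (.thr 0 42 (.thr 17 34 (.thr 25 29 (.dbl 38 4 12)))))))) (.rp 41 (.thr 22 20 (.thr 7 52 (.thr 55 39 (.thr 4 38 (.thr 6 5 (.thr 3 43 (.thr 12 9 (.dbl 0 8 42)))))))) (.rp 22 (.thr 43 3 (.thr 42 0 (.thr 32 47 (.thr 41 40 (.thr 1 61 (.thr 33 45 (.thr 34 35 (.thr 46 38 (.thr 29 12 (.dbl 17 25 49)))))))))) (.rp 20 (.thr 43 3 (.thr 42 0 (.thr 32 47 (.thr 40 41 (.thr 36 44 (.thr 38 39 (.thr 55 4 (.thr 51 59 (.thr 12 25 (.dbl 46 29 34)))))))))) (.rp 3 (.thr 22 20 (.thr 7 52 (.thr 55 39 (.thr 51 59 (.thr 0 42 (.thr 17 34 (.thr 25 29 (.dbl 38 4 12)))))))) .nd))))))))) (.rp 47 (.thr 22 20 (.str 3 (.nv (.thr 41 60 (.thr 1 61 (.thr 0 2 (.dbl 63 42 43)))) (.nv (.thr 63 43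 (.thr 0 42 (.thr 41 60 (.dbl 1 2 61)))) (.nv (.thr 63 43 (.thr 42 0 (.thr 62 2 (.dbl 60 41 61)))) (.rp 63 (.thr 7 52 (.thr 55 39 (.thr 4 38 (.thr 6 5 (.thr 12 9 (.thr 0 8 (.thr 1 2 (.dbl 41 60 61)))))))) (.rp 61 (.thr 7 52 (.thr 55 39 (.thr 4 38 (.thr 6 5 (.thr 12 9 (.thr 0 8 (.dbl 63 42 43))))))) (.rp 60 (.thr 7 52 (.thr 55 39 (.thr 4 38 (.thr 6 5 (.thr 12 9 (.thr 0 8 (.dbl 63 42 43))))))) (.rp 43 (.thr 7 52 (.thr 15 11 (.thr 41 60 (.thr 1 61 (.thr 0 2 (.thr 5 10 (.thr 9 13 (.dbl 6 4 12)))))))) (.rp 42 (.thr 7 52 (.thr 55 39 (.thr 4 38 (.thr 6 5 (.thr 12 9 (.thr 0 8 (.thr 1 2 (.dbl 41 60 61)))))))) (.rp 41 (.thr 7 52 (.thr 55 39 (.thr 4 38 (.thr 6 5 (.thr 12 9 (.thr 0 8 (.dbl 63 42 43))))))) (.rp 2 (.thr 7 52 (.thr 55 39 (.thr 4 38 (.thr 6 5 (.thr 12 9 (.thr 0 8 (.dbl 63 42 43)))))))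 (.rp 0 (.thr 7 52 (.thr 15 11 (.thr 43 63 (.thr 41 60 (.thr 40 42 (.thr 61 1 (.thr 45 33 (.thr 13 29 (.thr 12 14 (.thr 9 6 (.dbl 25 49 57))))))))))) .nd))))))))))))) (.rp 46 (.str 63 (.nv (.thr 3 43 (.thr 22 20 (.thr 7 52 (.thr 15 11 (.thr 31 47 (.thr 27 19 (.dbl 39 51 55))))))) (.nv (.thr 3 43 (.thr 22 20 (.thr 42 0 (.thr 62 2 (.dbl 60 41 61))))) (.rp 43 (.thr 22 20 (.thr 7 52 (.thr 42 0 (.thr 47 32 (.thr 15 31 (.thr 3 11 (.thr 62 2 (.dbl 60 41 61)))))))) (.rp 41 (.thr 22 20 (.thr 7 52 (.thr 3 43 (.thr 42 0 (.thr 47 32 (.dbl 15 11 31)))))) (.rp 22 (.thr 43 3 (.thr 42 0 (.thr 47 32 (.thr 39 35 (.thr 55 7 (.dbl 38 4 36)))))) (.rp 20 (.thr 43 3 (.thr 42 0 (.thr 47 32 (.thr 39 35 (.thr 55 7 (.dbl 38 4 36)))))) (.rp 3 (.thr 22 20 (.thr 7 52 (.thr 55 39 (.thr 59 51 (.thr 42 0 (.thr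 47 32 (.thr 25 8 (.thr 19 28 (.dbl 31 15 27))))))))) .nd)))))))) (.rp 45 (.str 63 (.nv (.thr 3 43 (.thr 22 20 (.thr 7 52 (.thr 15 11 (.thr 31 47 (.thr 27 19 (.dbl 39 51 55))))))) (.nv (.thr 3 43 (.thr 22 20 (.thr 42 0 (.thr 62 2 (.dbl 60 41 61))))) (.rp 43 (.thr 22 20 (.thr 7 52 (.thr 55 39 (.thr 51 59 (.thr 0 42 (.thr 17 34 (.thr 25 29 (.dbl 38 4 12)))))))) (.rp 41 (.thr 22 20 (.thr 7 52 (.thr 3 43 (.thr 42 0 (.thr 47 32 (.dbl 15 11 31)))))) (.rp 22 (.thr 43 3 (.thr 42 0 (.thr 47 32 (.thr 39 35 (.thr 55 7 (.dbl 38 4 36)))))) (.rp 20 (.thr 43 3 (.thr 42 0 (.thr 47 32 (.thr 39 35 (.thr 55 7 (.dbl 38 4 36)))))) (.rp 3 (.thr 22 20 (.thr 7 52 (.thr 55 39 (.thr 51 59 (.thr 0 42 (.thr 17 34 (.thr 25 29 (.dbl 38 4 12)))))))) .nd)))))))) (.rp 44 (.str 63 (.nv (.thr 3 43 (.thr 22 20 (.thr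 7 52 (.thr 15 11 (.thr 31 47 (.thr 27 19 (.dbl 39 51 55))))))) (.nv (.thr 3 43 (.thr 22 20 (.thr 42 0 (.thr 62 2 (.dbl 60 41 61))))) (.rp 43 (.thr 22 20 (.thr 7 52 (.thr 55 39 (.thr 51 59 (.thr 0 42 (.thr 17 34 (.thr 25 29 (.dbl 38 4 12)))))))) (.rp 41 (.thr 22 20 (.thr 7 52 (.thr 3 43 (.thr 42 0 (.thr 47 32 (.dbl 15 11 31)))))) (.rp 22 (.thr 43 3 (.thr 42 0 (.thr 47 32 (.thr 39 35 (.thr 55 7 (.dbl 38 4 36)))))) (.rp 20 (.thr 43 3 (.thr 42 0 (.thr 47 32 (.thr 39 35 (.thr 55 7 (.dbl 38 4 36)))))) (.rp 3 (.thr 22 20 (.thr 7 52 (.thr 55 39 (.thr 51 59 (.thr 0 42 (.thr 17 34 (.thr 25 29 (.dbl 38 4 12)))))))) .nd)))))))) (.rp 43 (.thr 22 20 (.str 0 (.nv (.thr 7 52 (.thr 42 63 (.thr 2 62 (.thr 3 1 (.thr 15 11 (.thr 5 10 (.thr 4 6 (.dbl 55 38 39)))))))) (.nv (.thr 42 63 (.thr 2 62 (.thr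 3 1 (.thr 32 47 (.thr 48 16 (.thr 33 18 (.dbl 41 45 60))))))) (.nv (.thr 7 52 (.thr 55 39 (.thr 4 38 (.thr 6 5 (.thr 12 8 (.thr 3 9 (.thr 1 2 (.dbl 41 60 61)))))))) (.nv (.thr 7 52 (.thr 55 39 (.thr 63 42 (.thr 51 59 (.thr 17 34 (.thr 25 29 (.dbl 38 4 12))))))) (.nv (.thr 42 63 (.thr 2 62 (.thr 3 1 (.thr 32 47 (.thr 52 7 (.thr 60 41 (.dbl 48 16 56))))))) (.rp 41 (.thr 7 52 (.thr 55 39 (.thr 4 38 (.thr 5 6 (.thr 15 10 (.thr 42 63 (.thr 2 62 (.dbl 3 1 11)))))))) (.rp 39 (.thr 7 52 (.thr 42 63 (.thr 2 62 (.thr 3 1 (.thr 15 11 (.thr 10 5 (.thr 14 6 (.thr 13 12 (.thr 25 49 (.thr 19 28 (.thr 51 35 (.thr 47 32 (.dbl 17 29 34))))))))))))) .nd))))))))) (.rp 42 (.thr 22 20 .ext) (.rp 41 (.str 55 (.nv (.thr 38 4 (.dbl 39 7 36)) (.nv (.thr 7 39 (.dbl 22 20 52)) (.rp 56 (.str 11 (.nv (.thr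 38 4 (.dbl 39 7 36)) (.nv (.thr 7 39 (.dbl 22 20 52)) (.rp 39 (.thr 4 38 (.thr 22 20 (.thr 7 52 (.thr 3 15 (.thr 63 43 (.thr 6 5 (.thr 12 9 (.dbl 0 8 42)))))))) (.rp 7 (.str 47 (.nv (.thr 38 4 (.thr 39 36 (.thr 42 32 (.thr 63 0 (.thr 15 31 (.dbl 51 27 59)))))) (.nv (.thr 38 4 (.thr 39 36 (.thr 42 32 (.thr 43 35 (.dbl 63 0 3))))) (.nv (.thr 38 4 (.thr 39 36 (.thr 43 35 (.thr 59 27 (.dbl 63 3 51))))) (.nv (.thr 42 32 (.thr 63 0 (.thr 59 51 (.dbl 43 3 27)))) (.rp 63 (.thr 38 4 (.thr 39 36 (.thr 43 35 (.thr 27 59 (.thr 19 31 (.thr 51 15 (.thr 25 12 (.dbl 22 20 28)))))))) .nd)))))) .nd))))) (.rp 39 (.thr 22 20 (.thr 52 7 (.thr 38 4 (.thr 6 54 (.str 63 (.nv (.thr 3 43 (.thr 12 9 (.thr 42 0 (.dbl 46 29 34)))) (.nv (.thr 3 43 (.thr 12 9 (.dbl 51 25 59))) (.nv (.thr 51 59 (.thr 25 12 (.thr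 17 29 (.dbl 0 34 42)))) (.rp 56 (.str 11 (.nv (.thr 42 0 (.thr 46 34 (.thr 12 29 (.dbl 51 25 59)))) (.nv (.thr 3 43 (.thr 12 9 (.thr 42 0 (.dbl 46 29 34)))) (.nv (.thr 43 3 (.dbl 59 27 51)) .nd)))) (.rp 42 (.thr 51 59 (.thr 25 12 (.thr 19 28 (.dbl 3 35 43)))) (.rp 25 (.thr 3 43 (.thr 42 0 (.thr 46 34 (.dbl 12 9 29)))) (.rp 12 (.thr 51 59 (.thr 0 42 (.thr 17 34 (.thr 25 29 (.thr 19 28 (.dbl 3 35 43)))))) (.rp 11 (.str 56 (.nv (.thr 48 60 (.thr 51 59 (.thr 25 12 (.dbl 49 13 50)))) (.nv (.thr 3 43 (.thr 12 9 (.dbl 51 25 59))) (.nv (.thr 60 48 (.thr 62 61 (.dbl 42 0 2))) (.rp 3 (.str 15 (.nv (.thr 48 60 (.thr 51 59 (.thr 25 12 (.dbl 49 13 50)))) (.nv (.thr 47 31 (.dbl 42 0 32)) (.rp 0 (.thr 31 47 (.thr 19 27 (.thr 25 28 (.dbl 51 12 59)))) .nd)))) .nd))))) .nd))))))))))))) (.rp 11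 (.str 56 (.nv (.thr 38 4 (.dbl 39 7 36)) (.nv (.thr 22 20 (.dbl 7 39 52)) (.rp 39 (.thr 20 22 (.thr 4 38 (.thr 52 36 (.thr 60 48 (.thr 0 40 (.thr 63 42 (.thr 43 3 (.thr 62 61 (.thr 12 8 (.thr 44 28 (.thr 46 29 (.thr 45 47 (.dbl 30 14 15))))))))))))) (.rp 7 (.str 3 (.nv (.thr 38 4 (.thr 39 36 (.thr 63 43 (.thr 51 59 (.thr 27 15 (.dbl 19 31 35)))))) (.nv (.thr 20 22 (.thr 4 38 (.thr 52 36 (.thr 60 48 (.thr 0 40 (.dbl 63 42 43)))))) (.nv (.thr 38 4 (.thr 63 43 (.thr 42 0 (.thr 46 34 (.thr 12 29 (.dbl 51 25 59)))))) (.rp 63 (.thr 22 20 (.thr 38 4 (.thr 36 39 (.thr 6 54 (.thr 12 9 (.thr 48 24 (.thr 60 52 (.thr 25 51 (.dbl 28 19 44))))))))) (.rp 43 (.thr 22 20 (.thr 38 4 (.thr 36 39 (.thr 6 54 (.thr 12 9 (.thr 48 24 (.thr 60 52 (.thr 25 51 (.dbl 28 19 44))))))))) (.rp 42 (.thr 22 20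 (.thr 38 4 (.thr 6 54 (.thr 12 9 (.thr 25 51 (.thr 29 17 (.dbl 63 43 46))))))) (.rp 38 (.thr 22 20 (.thr 63 43 (.thr 59 51 (.thr 42 0 (.thr 25 8 (.thr 47 32 (.thr 19 28 (.dbl 31 15 27)))))))) (.rp 6 (.thr 20 22 (.thr 63 43 (.thr 0 42 (.thr 40 60 (.thr 8 24 (.dbl 4 12 38)))))) (.rp 4 (.thr 20 22 (.thr 63 43 (.thr 0 42 (.thr 40 60 (.thr 24 8 (.thr 16 28 (.thr 48 32 (.thr 18 33 (.thr 19 17 (.dbl 51 35 59)))))))))) .nd)))))))))) .nd))))) (.rp 7 (.thr 22 20 (.thr 38 4 (.thr 6 54 (.thr 36 39 (.str 63 (.nv (.thr 3 43 (.thr 12 9 (.thr 42 0 (.dbl 46 29 34)))) (.nv (.thr 3 43 (.thr 12 9 (.dbl 51 25 59))) (.nv (.thr 51 59 (.thr 25 12 (.thr 17 29 (.dbl 0 34 42)))) (.rp 56 (.str 11 (.nv (.thr 42 0 (.thr 46 34 (.thr 12 29 (.dbl 51 25 59)))) (.nv (.thr 3 43 (.thr 12 9 (.thr 42 0 (.dbl 46 29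 34)))) (.nv (.thr 43 3 (.dbl 59 27 51)) .nd)))) (.rp 42 (.thr 51 59 (.thr 25 12 (.thr 19 28 (.dbl 3 35 43)))) (.rp 25 (.thr 3 43 (.thr 42 0 (.thr 46 34 (.dbl 12 9 29)))) (.rp 12 (.thr 51 59 (.thr 0 42 (.thr 17 34 (.thr 25 29 (.thr 19 28 (.dbl 3 35 43)))))) (.rp 11 (.str 56 (.nv (.thr 3 43 (.thr 12 9 (.thr 42 0 (.dbl 46 29 34)))) (.nv (.thr 0 42 (.thr 51 59 (.thr 25 12 (.dbl 17 29 34)))) (.nv (.thr 42 0 (.thr 46 34 (.thr 12 29 (.dbl 3 9 43)))) (.nv (.thr 51 59 (.thr 12 25 (.dbl 3 9 43))) (.rp 43 (.thr 42 0 (.thr 46 34 (.thr 12 29 (.dbl 51 25 59)))) (.rp 42 (.thr 51 59 (.thr 25 12 (.thr 19 28 (.dbl 3 35 43)))) (.rp 12 (.thr 59 51 (.thr 42 0 (.thr 8 25 (.thr 32 47 (.dbl 40 24 44))))) (.rp 3 (.str 15 (.nv (.thr 31 47 (.thr 19 27 (.thr 25 28 (.dbl 51 12 59)))) (.nv (.thr 0 42 (.thr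 51 59 (.thr 17 34 (.dbl 25 12 29)))) (.nv (.thr 47 31 (.dbl 42 0 32)) .nd)))) .nd))))))))) .nd))))))))))))) .nd))))))) (.rp 40 (.thr 22 20 (.str 0 (.nv (.thr 63 42 (.thr 3 43 (.thr 41 60 (.dbl 1 2 61)))) (.rp 63 (.thr 7 52 (.thr 55 39 (.thr 4 38 (.thr 5 6 (.thr 15 10 (.thr 3 11 (.thr 41 60 (.dbl 1 2 61)))))))) (.rp 61 (.thr 7 52 (.thr 55 39 (.thr 4 38 (.thr 5 6 (.thr 15 10 (.thr 3 11 (.dbl 63 42 43))))))) (.rp 60 (.thr 7 52 (.thr 55 39 (.thr 4 38 (.thr 5 6 (.thr 15 10 (.thr 3 11 (.dbl 63 42 43))))))) (.rp 58 (.thr 7 52 (.thr 55 39 (.thr 4 38 (.thr 6 5 (.thr 12 8 (.thr 3 9 (.dbl 63 42 43))))))) (.rp 43 (.thr 52 7 (.thr 42 63 (.thr 2 62 (.thr 3 1 (.thr 60 41 (.thr 32 47 (.dbl 48 16 56))))))) (.rp 42 (.thr 7 52 (.thr 55 39 (.thr 4 38 (.thr 6 5 (.thr 12 8 (.thr 3 9 (.thr 1 2 (.dbl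 41 60 61)))))))) (.rp 41 (.thr 7 52 (.thr 55 39 (.thr 4 38 (.thr 6 5 (.thr 12 8 (.thr 3 9 (.dbl 63 42 43))))))) (.rp 10 (.thr 52 7 (.thr 42 63 (.thr 2 62 (.thr 3 1 (.thr 60 41 (.thr 32 47 (.dbl 48 16 56))))))) (.rp 3 (.thr 7 52 (.thr 55 39 (.thr 63 42 (.thr 51 59 (.thr 17 34 (.thr 25 29 (.dbl 38 4 12))))))) (.rp 2 (.thr 7 52 (.thr 55 39 (.thr 4 38 (.thr 6 5 (.thr 12 8 (.thr 3 9 (.dbl 63 42 43))))))) (.rp 1 (.thr 7 52 (.thr 55 39 (.thr 4 38 (.thr 5 6 (.thr 15 10 (.thr 3 11 (.dbl 63 42 43))))))) .nd)))))))))))))) (.rp 39 (.str 3 (.nv (.thr 22 20 (.thr 7 52 (.thr 15 11 (.thr 63 43 (.thr 47 31 (.dbl 42 0 32)))))) (.nv (.thr 22 20 (.thr 63 43 (.thr 42 0 (.thr 62 2 (.dbl 60 41 61))))) (.rp 63 (.thr 22 20 (.thr 7 52 (.thr 15 11 (.thr 41 60 (.thr 61 1 (.thr 45 33 (.thr 13 29 (.thr 12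 14 (.thr 9 6 (.dbl 25 49 57)))))))))) (.rp 47 (.thr 22 20 (.thr 41 60 (.thr 1 61 (.thr 0 2 (.dbl 63 42 43))))) (.rp 43 (.thr 22 20 (.thr 41 60 (.thr 1 61 (.thr 0 2 (.thr 33 45 (.thr 48 18 (.thr 32 16 (.dbl 42 47 63)))))))) (.rp 42 (.thr 22 20 (.thr 63 43 (.thr 41 60 (.thr 61 1 (.thr 45 33 (.thr 29 13 (.thr 12 46 (.thr 9 6 (.dbl 25 17 57))))))))) (.rp 41 (.thr 22 20 (.thr 7 52 (.thr 63 43 (.thr 42 0 (.thr 47 32 (.dbl 15 11 31)))))) (.rp 22 (.thr 63 43 (.thr 42 0 (.thr 47 32 (.thr 31 15 (.thr 19 27 (.thr 51 35 (.thr 59 55 (.thr 25 8 (.thr 29 17 (.dbl 12 38 46)))))))))) (.rp 20 (.thr 63 43 (.thr 42 0 (.thr 47 32 (.thr 15 31 (.thr 7 11 (.thr 22 52 (.thr 62 2 (.dbl 60 41 61)))))))) (.rp 0 (.thr 22 20 (.thr 7 52 (.thr 15 11 (.thr 63 43 (.thr 47 31 (.thr 42 32 (.thr 62 2 (.dbl 60 41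 61)))))))) .nd))))))))))) (.rp 38 (.thr 22 20 (.str 63 (.nv (.thr 3 43 (.thr 7 52 (.thr 15 11 (.thr 31 47 (.thr 27 19 (.dbl 39 51 55)))))) (.nv (.thr 3 43 (.thr 42 0 (.thr 62 2 (.dbl 60 41 61)))) (.rp 50 (.str 14 (.nv (.thr 3 43 (.thr 7 52 (.thr 15 11 (.thr 31 47 (.thr 27 19 (.dbl 39 51 55)))))) (.nv (.thr 3 43 (.thr 41 60 (.thr 1 61 (.dbl 0 2 42)))) (.rp 43 (.thr 42 0 (.thr 62 2 (.thr 60 61 (.thr 30 46 (.thr 15 45 (.dbl 47 31 32)))))) (.rp 41 (.thr 7 52 (.thr 42 0 (.thr 47 32 (.thr 15 31 (.dbl 3 11 43))))) (.rp 3 (.thr 42 0 (.thr 47 32 (.thr 15 31 (.thr 12 13 (.thr 46 29 (.dbl 62 2 30)))))) .nd)))))) (.rp 43 (.thr 7 52 (.thr 42 0 (.thr 62 2 (.thr 60 61 (.thr 3 41 (.thr 47 32 (.dbl 15 11 31))))))) (.rp 41 (.thr 7 52 (.thr 3 43 (.thr 42 0 (.thr 47 32 (.dbl 15 11 31))))) (.rp 14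 (.str 50 (.nv (.thr 3 43 (.thr 7 52 (.thr 15 11 (.thr 31 47 (.thr 27 19 (.dbl 39 51 55)))))) (.nv (.thr 3 43 (.thr 41 60 (.thr 1 61 (.dbl 0 2 42)))) (.rp 43 (.thr 52 7 (.thr 42 0 (.thr 62 2 (.thr 60 61 (.thr 54 58 (.thr 48 56 (.dbl 51 49 57))))))) (.rp 41 (.thr 7 52 (.thr 42 0 (.thr 47 32 (.thr 15 31 (.dbl 3 11 43))))) (.rp 3 (.thr 7 52 (.thr 55 39 (.thr 0 42 (.thr 51 59 (.thr 49 48 (.thr 25 13 (.dbl 17 29 34))))))) .nd)))))) (.rp 3 (.thr 7 52 (.thr 55 39 (.thr 59 51 (.thr 42 0 (.thr 47 32 (.thr 25 8 (.thr 19 28 (.dbl 31 15 27)))))))) .nd))))))))) (.rp 36 (.str 63 (.nv (.thr 3 43 (.thr 42 0 (.thr 47 32 (.thr 15 31 (.thr 7 11 (.dbl 22 20 52)))))) (.nv (.thr 3 43 (.thr 22 20 (.thr 42 0 (.thr 62 2 (.dbl 60 41 61))))) (.rp 52 (.thr 3 43 (.thr 0 42 (.thr 1 2 (.thr 41 61 (.dbl 22 20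 60))))) (.rp 43 (.thr 22 20 (.thr 42 0 (.thr 47 32 (.thr 15 31 (.thr 62 2 (.thr 60 61 (.thr 45 30 (.dbl 41 3 33)))))))) (.rp 42 (.thr 22 20 (.thr 3 43 (.thr 41 60 (.thr 61 1 (.thr 45 33 (.thr 29 13 (.thr 12 46 (.thr 9 6 (.dbl 25 17 57))))))))) (.rp 41 (.thr 22 20 (.thr 3 43 (.thr 42 0 (.thr 47 32 (.thr 15 31 (.dbl 7 11 52)))))) (.rp 40 (.thr 22 20 (.thr 3 43 (.thr 60 41 (.thr 42 0 (.dbl 62 2 61))))) (.rp 22 (.thr 43 3 (.thr 42 0 (.thr 47 32 (.thr 15 31 (.thr 39 35 (.thr 55 7 (.dbl 51 27 59))))))) (.rp 20 (.thr 43 3 (.thr 42 0 (.thr 47 32 (.thr 15 31 (.thr 39 35 (.thr 55 7 (.dbl 51 27 59))))))) (.rp 3 (.thr 22 20 (.thr 42 0 (.thr 47 32 (.thr 31 15 (.thr 19 27 (.thr 25 28 (.thr 29 17 (.thr 12 46 (.thr 51 38 (.dbl 59 8 55)))))))))) (.rp 0 (.thr 22 20 (.thr 3 43 (.thr 60 41 (.thr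 62 61 (.thr 42 2 (.thr 47 32 (.thr 15 31 (.dbl 7 11 52)))))))) .nd)))))))))))) (.rp 35 (.str 63 (.nv (.thr 42 0 (.thr 3 43 (.thr 47 32 (.thr 15 31 (.thr 7 11 (.dbl 22 20 52)))))) (.nv (.thr 3 43 (.thr 22 20 (.thr 42 0 (.thr 62 2 (.dbl 60 41 61))))) (.rp 47 (.thr 22 20 (.thr 42 0 (.thr 62 2 (.thr 60 61 (.dbl 3 41 43))))) (.rp 43 (.thr 22 20 (.thr 7 52 (.thr 42 0 (.thr 47 32 (.thr 15 31 (.thr 3 11 (.thr 62 2 (.dbl 60 41 61)))))))) (.rp 42 (.thr 22 20 (.thr 3 43 (.thr 41 60 (.thr 61 1 (.thr 45 33 (.thr 29 13 (.thr 12 46 (.thr 9 6 (.dbl 25 17 57))))))))) (.rp 41 (.thr 22 20 (.thr 7 52 (.thr 3 43 (.thr 42 0 (.thr 47 32 (.dbl 15 11 31)))))) (.rp 22 (.thr 3 43 (.thr 42 0 (.thr 47 32 (.thr 15 31 (.thr 7 11 (.thr 55 39 (.thr 59 51 (.thr 25 8 (.thr 13 49 (.thr 12 14 (.dbl 29 17 46)))))))))))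 (.rp 20 (.thr 3 43 (.thr 42 0 (.thr 47 32 (.thr 15 31 (.thr 7 11 (.thr 22 52 (.thr 62 2 (.dbl 60 41 61)))))))) (.rp 3 (.thr 22 20 (.thr 7 52 (.thr 55 39 (.thr 51 59 (.thr 0 42 (.thr 17 34 (.thr 25 29 (.dbl 38 4 12)))))))) (.rp 0 (.thr 22 20 (.thr 7 52 (.thr 3 43 (.thr 60 41 (.thr 62 61 (.thr 42 2 (.thr 47 32 (.dbl 15 11 31)))))))) .nd))))))))))) (.rp 34 (.str 63 (.nv (.thr 3 43 (.thr 22 20 (.thr 7 52 (.thr 15 11 (.thr 31 47 (.thr 27 19 (.dbl 39 51 55))))))) (.nv (.thr 3 43 (.thr 22 20 (.thr 41 60 (.thr 1 61 (.dbl 0 2 42))))) (.rp 43 (.thr 22 20 (.thr 7 52 (.thr 42 0 (.thr 47 32 (.thr 15 31 (.thr 3 11 (.thr 62 2 (.dbl 60 41 61)))))))) (.rp 41 (.thr 22 20 (.thr 7 52 (.thr 3 43 (.thr 42 0 (.thr 47 32 (.dbl 15 11 31)))))) (.rp 22 (.thr 43 3 (.thr 42 0 (.thr 47 32 (.thr 35 39 (.thr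 41 40 (.thr 45 33 (.dbl 44 38 46))))))) (.rp 20 (.thr 3 43 (.thr 42 0 (.thr 47 32 (.thr 15 31 (.thr 7 11 (.thr 22 52 (.thr 62 2 (.dbl 60 41 61)))))))) (.rp 3 (.thr 22 20 (.thr 7 52 (.thr 42 0 (.thr 47 32 (.thr 31 15 (.thr 19 27 (.thr 25 28 (.thr 59 8 (.dbl 55 39 51))))))))) .nd)))))))) (.rp 33 (.str 63 (.nv (.thr 3 43 (.thr 22 20 (.thr 7 52 (.thr 15 11 (.thr 31 47 (.thr 27 19 (.dbl 39 51 55))))))) (.nv (.thr 3 43 (.thr 22 20 (.thr 42 0 (.thr 62 2 (.dbl 60 41 61))))) (.rp 43 (.thr 22 20 (.thr 7 52 (.thr 55 39 (.thr 51 59 (.thr 0 42 (.thr 17 34 (.thr 25 29 (.dbl 38 4 12)))))))) (.rp 41 (.thr 22 20 (.thr 7 52 (.thr 3 43 (.thr 42 0 (.thr 47 32 (.dbl 15 11 31)))))) (.rp 22 (.thr 43 3 (.thr 42 0 (.thr 47 32 (.thr 35 39 (.thr 41 40 (.thr 44 38 (.thr 46 45 (.thr 12 29 (.thr 60 28 (.dbl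 61 1 62)))))))))) (.rp 20 (.thr 3 43 (.thr 42 0 (.thr 47 32 (.thr 15 31 (.thr 7 11 (.thr 22 52 (.thr 62 2 (.dbl 60 41 61)))))))) (.rp 3 (.thr 22 20 (.thr 7 52 (.thr 55 39 (.thr 51 59 (.thr 0 42 (.thr 17 34 (.thr 25 29 (.dbl 38 4 12)))))))) .nd)))))))) (.rp 32 (.thr 22 20 (.str 63 (.nv (.thr 3 43 (.thr 7 52 (.thr 15 11 (.thr 31 47 (.thr 27 19 (.dbl 39 51 55)))))) (.nv (.thr 0 42 (.thr 3 43 (.thr 41 60 (.dbl 1 2 61)))) (.rp 43 (.thr 7 52 (.thr 55 39 (.thr 51 59 (.thr 0 42 (.thr 17 34 (.thr 25 29 (.dbl 38 4 12))))))) (.rp 41 (.thr 7 52 (.thr 55 39 (.thr 4 38 (.thr 6 5 (.thr 3 43 (.thr 12 9 (.dbl 0 8 42))))))) (.rp 3 (.thr 7 52 (.thr 55 39 (.thr 51 59 (.thr 0 42 (.thr 17 34 (.thr 25 29 (.dbl 38 4 12))))))) .nd))))))) (.rp 31 (.str 63 (.nv (.thr 22 20 (.thr 7 52 (.thr 42 0 (.thr 43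 3 (.thr 47 32 (.dbl 39 35 55)))))) (.nv (.thr 3 43 (.thr 22 20 (.thr 42 0 (.thr 62 2 (.dbl 60 41 61))))) (.rp 60 (.thr 43 3 (.thr 42 0 (.thr 47 32 (.thr 39 35 (.thr 55 7 (.dbl 38 4 36)))))) (.rp 43 (.thr 22 20 (.thr 7 52 (.thr 55 39 (.thr 51 59 (.thr 0 42 (.thr 17 34 (.thr 25 29 (.dbl 38 4 12)))))))) (.rp 42 (.thr 22 20 (.thr 7 52 (.thr 55 39 (.thr 51 59 (.thr 3 43 (.thr 35 19 (.thr 41 60 (.dbl 38 4 44)))))))) (.rp 40 (.thr 22 20 (.thr 3 43 (.thr 60 41 (.thr 42 0 (.dbl 62 2 61))))) (.rp 22 (.thr 43 3 (.thr 42 0 (.thr 47 32 (.thr 39 35 (.thr 55 7 (.dbl 38 4 36)))))) (.rp 20 (.thr 43 3 (.thr 42 0 (.thr 47 32 (.thr 39 35 (.thr 55 7 (.dbl 38 4 36)))))) (.rp 3 (.thr 22 20 (.thr 7 52 (.thr 55 39 (.thr 51 59 (.thr 0 42 (.thr 17 34 (.thr 25 29 (.dbl 38 4 12)))))))) (.rp 2 (.thr 22 20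 (.thr 7 52 (.thr 55 39 (.thr 4 38 (.thr 5 6 (.thr 3 43 (.thr 15 11 (.dbl 0 10 42)))))))) (.rp 0 (.thr 22 20 (.thr 7 52 (.thr 55 39 (.thr 51 59 (.thr 3 43 (.thr 60 41 (.thr 54 57 (.dbl 38 4 6)))))))) .nd)))))))))))) (.rp 30 (.thr 22 20 (.str 63 (.nv (.thr 3 43 (.thr 7 52 (.thr 15 11 (.thr 31 47 (.thr 27 19 (.dbl 39 51 55)))))) (.nv (.thr 3 43 (.thr 42 0 (.thr 62 2 (.dbl 60 41 61)))) (.rp 43 (.thr 7 52 (.thr 55 39 (.thr 51 59 (.thr 0 42 (.thr 17 34 (.thr 25 29 (.dbl 38 4 12))))))) (.rp 41 (.thr 7 52 (.thr 3 43 (.thr 42 0 (.thr 47 32 (.dbl 15 11 31))))) (.rp 3 (.thr 7 52 (.thr 55 39 (.thr 51 59 (.thr 0 42 (.thr 17 34 (.thr 25 29 (.dbl 38 4 12))))))) .nd))))))) (.rp 29 (.str 63 (.nv (.thr 3 43 (.thr 22 20 (.thr 7 52 (.thr 15 11 (.thr 31 47 (.thr 27 19 (.dbl 39 51 55))))))) (.nv (.thr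 3 43 (.thr 22 20 (.thr 42 0 (.thr 62 2 (.dbl 60 41 61))))) (.rp 43 (.thr 22 20 (.thr 7 52 (.thr 42 0 (.thr 47 32 (.thr 15 31 (.thr 3 11 (.thr 62 2 (.dbl 60 41 61)))))))) (.rp 41 (.thr 22 20 (.thr 7 52 (.thr 3 43 (.thr 42 0 (.thr 47 32 (.dbl 15 11 31)))))) (.rp 22 (.thr 43 3 (.thr 42 0 (.thr 47 32 (.thr 39 35 (.thr 55 7 (.dbl 38 4 36)))))) (.rp 20 (.thr 43 3 (.thr 42 0 (.thr 47 32 (.thr 39 35 (.thr 55 7 (.dbl 38 4 36)))))) (.rp 3 (.thr 22 20 (.thr 7 52 (.thr 55 39 (.thr 59 51 (.thr 42 0 (.thr 47 32 (.thr 25 8 (.thr 19 28 (.dbl 31 15 27))))))))) .nd)))))))) (.rp 28 (.str 63 (.nv (.thr 0 42 (.thr 3 43 (.thr 1 2 (.thr 41 61 (.dbl 22 20 60))))) (.nv (.thr 3 43 (.thr 22 20 (.thr 7 52 (.thr 15 11 (.thr 31 47 (.thr 27 19 (.dbl 39 51 55))))))) (.nv (.thr 3 43 (.thr 22 20 (.thr 42 0 (.thr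 62 2 (.dbl 60 41 61))))) (.rp 43 (.thr 22 20 (.thr 7 52 (.thr 55 39 (.thr 51 59 (.thr 0 42 (.thr 17 34 (.thr 25 29 (.dbl 38 4 12)))))))) (.rp 41 (.thr 22 20 (.thr 7 52 (.thr 3 43 (.thr 42 0 (.thr 47 32 (.dbl 15 11 31)))))) (.rp 22 (.thr 43 3 (.thr 42 0 (.thr 47 32 (.thr 39 35 (.thr 55 7 (.dbl 38 4 36)))))) (.rp 20 (.thr 43 3 (.thr 42 0 (.thr 47 32 (.thr 39 35 (.thr 55 7 (.dbl 38 4 36)))))) (.rp 3 (.thr 22 20 (.thr 7 52 (.thr 55 39 (.thr 51 59 (.thr 0 42 (.thr 17 34 (.thr 25 29 (.dbl 38 4 12)))))))) .nd))))))))) (.rp 27 (.thr 22 20 (.str 63 (.nv (.thr 7 52 (.thr 42 0 (.thr 47 32 (.thr 15 31 (.dbl 3 11 43))))) (.nv (.thr 3 43 (.thr 42 0 (.thr 60 41 (.dbl 62 2 61)))) (.rp 60 (.thr 7 52 (.thr 43 3 (.thr 42 0 (.thr 40 41 (.thr 47 32 (.dbl 39 35 55)))))) (.rp 43 (.thr 7 52 (.thr 42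 0 (.thr 62 2 (.thr 60 61 (.thr 3 41 (.thr 47 32 (.dbl 15 11 31))))))) (.rp 42 (.thr 7 52 (.thr 55 39 (.thr 51 59 (.thr 3 43 (.thr 11 15 (.thr 35 19 (.thr 41 60 (.dbl 38 4 44)))))))) (.rp 25 (.str 24 (.nv (.thr 7 52 (.thr 42 0 (.thr 47 32 (.thr 15 31 (.dbl 3 11 43))))) (.nv (.thr 42 0 (.thr 62 2 (.thr 3 43 (.dbl 60 41 61)))) (.rp 60 (.thr 7 52 (.thr 43 3 (.thr 42 0 (.thr 40 41 (.thr 47 32 (.dbl 39 35 55)))))) (.rp 43 (.thr 7 52 (.thr 42 0 (.thr 47 32 (.thr 15 31 (.thr 62 2 (.thr 60 61 (.dbl 3 11 41))))))) (.rp 42 (.thr 7 52 (.thr 3 43 (.thr 41 60 (.thr 33 45 (.thr 48 18 (.thr 36 12 (.dbl 39 38 55))))))) (.rp 40 (.thr 0 42 (.thr 3 43 (.thr 41 60 (.dbl 1 2 61)))) (.rp 11 (.thr 42 0 (.thr 62 2 (.thr 60 61 (.dbl 3 41 43)))) (.rp 3 (.str 60 (.nv (.thr 42 0 (.dbl 62 2 61)) (.rp 62 (.thr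 7 52 (.thr 55 39 (.thr 51 59 (.thr 54 57 (.dbl 38 4 6))))) (.rp 61 (.thr 52 7 (.thr 48 56 (.thr 12 36 (.thr 44 28 (.thr 46 29 (.thr 42 0 (.dbl 47 32 45))))))) (.rp 42 (.thr 61 62 (.thr 52 7 (.thr 48 56 (.thr 12 36 (.thr 29 46 (.thr 45 13 (.dbl 41 1 33))))))) (.rp 2 (.thr 7 52 (.thr 55 39 (.thr 51 59 (.thr 54 57 (.dbl 38 4 6))))) (.rp 1 (.thr 62 61 (.dbl 42 0 2)) (.rp 0 (.thr 7 52 (.thr 55 39 (.thr 51 59 (.thr 54 57 (.dbl 38 4 6))))) .nd)))))))) (.rp 0 (.thr 7 52 (.thr 3 43 (.thr 60 41 (.thr 62 61 (.thr 42 2 (.thr 47 32 (.dbl 15 11 31))))))) .nd)))))))))) (.rp 24 (.str 25 (.nv (.thr 42 0 (.thr 62 2 (.thr 60 61 (.dbl 3 41 43)))) (.nv (.thr 7 52 (.thr 55 39 (.thr 51 59 (.dbl 38 4 12)))) (.rp 43 (.thr 7 52 (.thr 55 39 (.thr 42 0 (.dbl 59 8 51)))) (.rp 28 (.str 16 (.nv (.thr 42 0 (.thr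 62 2 (.thr 60 61 (.dbl 3 41 43)))) (.nv (.thr 7 52 (.thr 55 39 (.thr 51 59 (.dbl 38 4 12)))) (.rp 43 (.thr 7 52 (.thr 55 39 (.thr 42 0 (.dbl 59 8 51)))) .nd)))) (.rp 16 (.thr 28 19 (.thr 3 43 (.thr 41 60 (.thr 1 61 (.dbl 0 2 42))))) .nd)))))) (.rp 11 (.thr 42 0 (.thr 62 2 (.thr 60 61 (.dbl 3 41 43)))) (.rp 3 (.thr 7 52 (.thr 55 39 (.thr 51 59 (.thr 0 42 (.thr 17 34 (.thr 25 29 (.dbl 38 4 12))))))) (.rp 0 (.thr 7 52 (.thr 3 43 (.thr 60 41 (.thr 62 61 (.thr 42 2 (.thr 47 32 (.dbl 15 11 31))))))) .nd)))))))))))) (.rp 25 (.thr 22 20 (.str 3 (.nv (.thr 7 52 (.thr 15 11 (.thr 63 43 (.thr 31 47 (.thr 27 19 (.dbl 39 51 55)))))) (.nv (.thr 63 43 (.thr 42 0 (.thr 62 2 (.dbl 60 41 61)))) (.rp 63 (.thr 7 52 (.thr 55 39 (.thr 4 38 (.thr 6 5 (.thr 12 9 (.thr 0 8 (.thr 1 2 (.dbl 41 60 61))))))))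 (.rp 43 (.thr 41 60 (.thr 1 61 (.thr 0 2 (.thr 33 45 (.thr 48 18 (.thr 32 16 (.dbl 42 47 63))))))) (.rp 41 (.thr 7 52 (.thr 63 43 (.thr 42 0 (.thr 47 32 (.dbl 15 11 31))))) (.rp 27 (.str 24 (.nv (.thr 7 52 (.thr 41 60 (.thr 33 45 (.thr 48 18 (.thr 36 12 (.dbl 39 38 55)))))) (.nv (.thr 63 43 (.thr 42 0 (.thr 62 2 (.dbl 60 41 61)))) (.rp 60 (.thr 7 52 (.thr 55 39 (.thr 4 38 (.thr 5 6 (.thr 15 11 (.thr 0 10 (.dbl 63 42 43))))))) (.rp 41 (.thr 7 52 (.thr 63 43 (.thr 42 0 (.thr 47 32 (.dbl 15 11 31))))) (.rp 40 (.thr 60 41 (.thr 63 43 (.thr 42 0 (.dbl 62 2 61)))) (.rp 0 (.thr 7 52 (.thr 60 41 (.thr 63 43 (.thr 62 61 (.thr 42 2 (.thr 47 32 (.dbl 15 11 31))))))) .nd))))))) (.rp 24 (.str 27 (.nv (.thr 7 52 (.thr 15 11 (.dbl 39 51 55))) (.nv (.thr 31 19 (.thr 63 43 (.thr 47 15 (.dbl 42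 0 32)))) (.rp 28 (.str 16 (.nv (.thr 7 52 (.thr 15 11 (.dbl 39 51 55))) (.nv (.thr 31 19 (.thr 63 43 (.thr 47 15 (.dbl 42 0 32)))) (.rp 15 (.thr 19 31 (.thr 18 17 (.thr 33 48 (.dbl 41 45 60)))) .nd)))) (.rp 16 (.str 28 (.nv (.thr 7 52 (.thr 15 11 (.dbl 39 51 55))) (.nv (.thr 41 60 (.thr 1 61 (.thr 0 2 (.dbl 63 42 43)))) (.nv (.thr 7 52 (.thr 11 15 (.dbl 43 59 63))) .nd)))) (.rp 15 (.thr 63 43 (.thr 0 42 (.thr 1 2 (.dbl 41 60 61)))) .nd)))))) .nd))))))))) (.rp 24 (.str 63 (.nv (.thr 0 42 (.thr 3 43 (.thr 1 2 (.thr 41 61 (.dbl 22 20 60))))) (.nv (.thr 3 43 (.thr 22 20 (.thr 7 52 (.thr 15 11 (.thr 31 47 (.thr 27 19 (.dbl 39 51 55))))))) (.nv (.thr 3 43 (.thr 22 20 (.thr 42 0 (.thr 62 2 (.dbl 60 41 61))))) (.rp 43 (.thr 22 20 (.thr 7 52 (.thr 55 39 (.thr 51 59 (.thr 0 42 (.thr 17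 34 (.thr 25 29 (.dbl 38 4 12)))))))) (.rp 41 (.thr 22 20 (.thr 7 52 (.thr 3 43 (.thr 42 0 (.thr 47 32 (.dbl 15 11 31)))))) (.rp 27 (.str 25 (.nv (.thr 0 42 (.thr 3 43 (.thr 1 2 (.thr 22 20 (.dbl 41 60 61))))) (.nv (.thr 29 17 (.thr 12 46 (.thr 38 51 (.thr 39 36 (.dbl 55 4 7))))) (.rp 0 (.thr 22 20 (.thr 7 52 (.thr 55 39 (.thr 51 59 (.dbl 38 4 12))))) .nd)))) (.rp 25 (.str 27 (.nv (.thr 42 0 (.thr 47 32 (.dbl 31 15 19))) (.nv (.thr 22 20 (.thr 7 52 (.thr 43 3 (.thr 55 39 (.dbl 59 11 51))))) (.nv (.thr 31 19 (.thr 47 15 (.dbl 42 0 32))) .nd)))) (.rp 22 (.thr 43 3 (.thr 42 0 (.thr 47 32 (.thr 39 35 (.thr 55 7 (.dbl 38 4 36)))))) (.rp 20 (.thr 43 3 (.thr 42 0 (.thr 47 32 (.thr 39 35 (.thr 55 7 (.dbl 38 4 36)))))) (.rp 3 (.thr 22 20 (.thr 7 52 (.thr 55 39 (.thr 51 59 (.thr 0 42 (.thr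 17 34 (.thr 25 29 (.dbl 38 4 12)))))))) .nd))))))))))) (.rp 22 (.str 38 (.nv (.thr 39 36 (.dbl 55 4 7)) (.rp 55 (.str 42 (.nv (.thr 32 47 (.thr 34 46 (.thr 35 33 (.thr 63 0 (.thr 43 3 (.dbl 41 40 44)))))) (.nv (.thr 39 36 (.thr 63 0 (.thr 43 3 (.dbl 47 32 35)))) (.nv (.thr 34 46 (.thr 32 47 (.thr 35 33 (.thr 36 39 (.dbl 44 40 41))))) (.rp 54 (.str 52 (.nv (.thr 47 32 (.thr 63 0 (.thr 43 3 (.thr 35 39 (.dbl 41 40 44))))) (.nv (.thr 0 63 (.thr 34 46 (.thr 36 39 (.thr 4 20 (.thr 12 8 (.dbl 51 17 25)))))) (.nv (.thr 34 46 (.thr 32 47 (.thr 35 33 (.thr 36 39 (.dbl 44 40 41))))) (.rp 39 (.thr 63 0 (.thr 43 3 (.thr 41 40 (.thr 32 47 (.thr 34 46 (.dbl 35 33 44)))))) (.rp 30 (.str 18 (.nv (.thr 39 36 (.thr 63 0 (.thr 43 3 (.dbl 47 32 35)))) (.nv (.thr 32 47 (.thr 34 46 (.thr 35 33 (.thr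 36 39 (.dbl 44 40 41))))) (.nv (.thr 0 63 (.thr 34 46 (.thr 36 39 (.thr 4 20 (.thr 12 8 (.dbl 51 17 25)))))) (.nv (.thr 32 47 (.thr 63 0 (.thr 3 43 (.thr 33 48 (.dbl 34 35 46))))) (.rp 39 (.thr 0 63 (.thr 32 47 (.thr 48 16 (.thr 33 3 (.dbl 34 35 46))))) .nd)))))) (.rp 18 (.str 30 (.nv (.thr 39 36 (.thr 63 0 (.thr 43 3 (.thr 35 47 (.dbl 41 40 44))))) (.nv (.thr 47 32 (.thr 63 0 (.thr 31 15 (.thr 29 28 (.dbl 46 12 34))))) (.nv (.thr 32 47 (.thr 36 39 (.thr 34 46 (.thr 44 40 (.dbl 35 33 41))))) (.rp 47 (.thr 36 39 (.thr 4 20 (.thr 0 63 (.thr 12 8 (.thr 34 46 (.dbl 51 17 25)))))) .nd))))) .nd))))))) (.rp 52 (.str 54 (.nv (.thr 32 47 (.thr 34 46 (.thr 35 33 (.thr 63 0 (.thr 43 3 (.dbl 41 40 44)))))) (.nv (.thr 39 36 (.thr 63 0 (.thr 43 3 (.dbl 47 32 35)))) (.nv (.thr 34 46 (.thr 32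 47 (.thr 35 33 (.thr 36 39 (.dbl 44 40 41))))) (.rp 47 (.thr 63 0 (.thr 43 3 (.thr 41 40 (.thr 46 34 (.thr 45 33 (.thr 29 12 (.dbl 61 1 13))))))) (.rp 41 (.thr 39 36 (.thr 63 0 (.thr 47 32 (.dbl 43 3 35)))) (.rp 35 (.thr 36 39 (.thr 63 0 (.thr 43 3 (.thr 32 47 (.dbl 40 41 44))))) (.rp 32 (.thr 39 36 (.thr 63 0 (.thr 43 3 (.thr 35 47 (.dbl 41 40 44))))) (.rp 30 (.str 18 (.nv (.thr 39 36 (.thr 63 0 (.thr 43 3 (.thr 35 47 (.dbl 41 40 44))))) (.nv (.thr 0 63 (.thr 32 47 (.thr 48 16 (.thr 3 33 (.thr 2 1 (.dbl 34 46 50)))))) (.nv (.thr 34 46 (.thr 32 47 (.thr 35 33 (.thr 36 39 (.dbl 44 40 41))))) (.rp 47 (.thr 36 39 (.thr 63 0 (.thr 46 34 (.thr 12 29 (.thr 48 24 (.dbl 3 33 43)))))) .nd))))) (.rp 18 (.str 30 (.nv (.thr 39 36 (.thr 63 0 (.thr 43 3 (.thr 35 47 (.dbl 41 40 44))))) (.nv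 (.thr 47 32 (.thr 63 0 (.thr 31 15 (.thr 29 28 (.dbl 46 12 34))))) (.nv (.thr 32 47 (.thr 36 39 (.thr 34 46 (.thr 44 40 (.dbl 35 33 41))))) (.rp 47 (.thr 39 36 (.thr 0 63 (.thr 34 46 (.thr 51 17 (.thr 15 27 (.dbl 60 45 57)))))) .nd))))) .nd)))))))))) (.rp 47 (.thr 63 0 (.thr 43 3 (.thr 41 40 (.thr 46 34 (.thr 45 33 (.thr 29 12 (.dbl 61 1 13))))))) (.rp 41 (.thr 39 36 (.thr 63 0 (.thr 47 32 (.dbl 43 3 35)))) (.rp 35 (.thr 36 39 (.thr 63 0 (.thr 43 3 (.thr 32 47 (.dbl 40 41 44))))) (.rp 32 (.thr 39 36 (.thr 63 0 (.thr 43 3 (.thr 35 47 (.dbl 41 40 44))))) (.rp 30 (.str 18 (.nv (.thr 32 47 (.thr 63 0 (.thr 36 39 (.thr 43 3 (.dbl 40 41 44))))) (.nv (.thr 32 47 (.thr 34 46 (.thr 35 33 (.thr 36 39 (.dbl 44 40 41))))) (.nv (.thr 32 47 (.thr 63 0 (.thr 3 43 (.thr 33 48 (.dbl 34 35 46)))))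 (.rp 54 (.str 52 (.nv (.thr 39 36 (.thr 63 0 (.thr 43 3 (.dbl 47 32 35)))) (.nv (.thr 32 47 (.thr 34 46 (.thr 35 33 (.thr 36 39 (.dbl 44 40 41))))) (.nv (.thr 0 63 (.thr 34 46 (.thr 36 39 (.thr 4 20 (.thr 12 8 (.dbl 51 17 25)))))) (.nv (.thr 32 47 (.thr 63 0 (.thr 3 43 (.thr 33 48 (.dbl 34 35 46))))) (.rp 39 (.thr 0 63 (.thr 32 47 (.thr 48 16 (.thr 33 3 (.dbl 34 35 46))))) .nd)))))) (.rp 52 (.str 54 (.nv (.thr 39 36 (.thr 63 0 (.thr 43 3 (.thr 35 47 (.dbl 41 40 44))))) (.nv (.thr 0 63 (.thr 32 47 (.thr 48 16 (.thr 3 33 (.thr 2 1 (.dbl 34 46 50)))))) (.nv (.thr 34 46 (.thr 32 47 (.thr 35 33 (.thr 36 39 (.dbl 44 40 41))))) (.rp 47 (.thr 36 39 (.thr 63 0 (.thr 46 34 (.thr 12 29 (.thr 48 24 (.dbl 3 33 43)))))) .nd))))) (.rp 47 (.thr 36 39 (.thr 63 0 (.thr 46 34 (.thr 12 29 (.thr 48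 24 (.dbl 3 33 43)))))) (.rp 39 (.thr 0 63 (.thr 32 47 (.thr 48 16 (.thr 33 3 (.dbl 34 35 46))))) (.rp 32 (.thr 39 36 (.thr 63 0 (.thr 43 3 (.thr 35 47 (.dbl 41 40 44))))) .nd))))))))) (.rp 18 (.str 30 (.nv (.thr 39 36 (.thr 63 0 (.thr 43 3 (.thr 35 47 (.dbl 41 40 44))))) (.nv (.thr 47 32 (.thr 63 0 (.thr 31 15 (.thr 29 28 (.dbl 46 12 34))))) (.nv (.thr 32 47 (.thr 36 39 (.thr 34 46 (.thr 44 40 (.dbl 35 33 41))))) (.rp 54 (.str 52 (.nv (.thr 39 36 (.thr 63 0 (.thr 43 3 (.thr 35 47 (.dbl 41 40 44))))) (.nv (.thr 47 32 (.thr 63 0 (.thr 31 15 (.thr 29 28 (.dbl 46 12 34))))) (.nv (.thr 32 47 (.thr 36 39 (.thr 34 46 (.thr 44 40 (.dbl 35 33 41))))) (.rp 47 (.thr 36 39 (.thr 4 20 (.thr 0 63 (.thr 12 8 (.thr 34 46 (.dbl 51 17 25)))))) .nd))))) (.rp 52 (.str 54 (.nv (.thr 39 36 (.thr 63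 0 (.thr 43 3 (.thr 35 47 (.dbl 41 40 44))))) (.nv (.thr 47 32 (.thr 63 0 (.thr 31 15 (.thr 29 28 (.dbl 46 12 34))))) (.nv (.thr 32 47 (.thr 36 39 (.thr 34 46 (.thr 44 40 (.dbl 35 33 41))))) (.rp 47 (.thr 39 36 (.thr 0 63 (.thr 34 46 (.thr 51 17 (.thr 15 27 (.dbl 60 45 57)))))) .nd))))) (.rp 47 (.thr 63 0 (.thr 43 3 (.thr 41 40 (.thr 46 34 (.thr 62 14 (.dbl 61 1 60)))))) .nd))))))) .nd)))))))))))) (.rp 39 (.thr 55 4 (.str 63 (.nv (.thr 3 43 (.thr 51 59 (.thr 35 19 (.thr 41 44 (.thr 1 61 (.dbl 0 2 42)))))) (.nv (.thr 42 0 (.thr 32 47 (.thr 34 46 (.thr 35 33 (.thr 43 3 (.dbl 41 40 44)))))) (.nv (.thr 51 59 (.thr 25 12 (.thr 17 29 (.dbl 0 34 42)))) (.rp 42 (.thr 51 59 (.thr 25 12 (.thr 17 29 (.thr 0 34 (.thr 49 13 (.thr 1 33 (.dbl 3 2 43))))))) (.rp 30 (.str 18 (.nv (.thr 3 43 (.thr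 33 48 (.thr 41 45 (.thr 35 44 (.dbl 51 19 59))))) (.nv (.thr 0 42 (.thr 3 43 (.thr 33 48 (.thr 41 45 (.dbl 1 2 61))))) (.nv (.thr 42 0 (.thr 46 34 (.thr 51 59 (.dbl 12 25 29)))) .nd)))) (.rp 18 (.str 30 (.nv (.thr 3 43 (.thr 51 59 (.thr 35 19 (.thr 41 44 (.thr 1 61 (.dbl 0 2 42)))))) (.nv (.thr 42 0 (.thr 43 3 (.thr 41 40 (.thr 47 32 (.thr 15 31 (.dbl 45 33 60)))))) (.nv (.thr 51 59 (.thr 25 12 (.thr 17 29 (.dbl 0 34 42)))) (.rp 42 (.thr 51 59 (.thr 25 12 (.thr 29 17 (.thr 31 28 (.thr 19 27 (.dbl 3 35 43)))))) (.rp 0 (.thr 51 59 (.thr 12 25 (.thr 29 46 (.thr 3 43 (.thr 31 28 (.dbl 19 27 35)))))) .nd)))))) (.rp 0 (.thr 51 59 (.thr 12 25 (.thr 46 29 (.thr 3 43 (.thr 42 34 (.thr 47 32 (.thr 31 15 (.dbl 19 27 35)))))))) .nd))))))))) (.rp 36 (.str 47 (.nv (.thr 55 4 (.thr 39 7 (.thr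 43 35 (.thr 63 3 (.thr 15 31 (.dbl 51 27 59)))))) (.nv (.thr 4 55 (.thr 42 32 (.thr 0 63 (.thr 12 8 (.thr 34 46 (.dbl 51 17 25)))))) (.nv (.thr 42 32 (.thr 63 0 (.thr 43 3 (.thr 35 39 (.dbl 41 40 44))))) (.rp 63 (.thr 55 4 (.thr 39 7 (.thr 35 43 (.thr 44 41 (.thr 46 45 (.dbl 42 32 34)))))) (.rp 30 (.str 18 (.nv (.thr 55 4 (.thr 39 7 (.thr 43 35 (.thr 63 3 (.thr 15 31 (.dbl 51 27 59)))))) (.nv (.thr 4 55 (.thr 42 32 (.thr 0 63 (.thr 12 8 (.thr 34 46 (.dbl 51 17 25)))))) (.nv (.thr 42 32 (.thr 63 0 (.thr 43 3 (.thr 35 39 (.dbl 41 40 44))))) (.rp 63 (.thr 55 4 (.thr 39 7 (.thr 32 42 (.thr 35 43 (.thr 33 34 (.dbl 41 44 45)))))) .nd))))) (.rp 18 (.str 30 (.nv (.thr 42 32 (.thr 63 0 (.thr 31 15 (.thr 29 28 (.thr 12 46 (.dbl 25 17 51)))))) (.nv (.thr 32 42 (.thr 55 4 (.thr 39 7 (.thr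 35 43 (.thr 41 44 (.dbl 33 34 45)))))) (.nv (.thr 42 32 (.thr 63 0 (.thr 15 31 (.thr 45 60 (.dbl 46 34 44))))) (.rp 44 (.thr 55 4 (.thr 39 7 (.thr 43 35 (.thr 63 3 (.dbl 42 0 32))))) (.rp 42 (.thr 55 4 (.thr 39 7 (.thr 43 35 (.thr 63 3 (.thr 15 31 (.dbl 51 27 59)))))) (.rp 32 (.thr 55 4 (.thr 39 7 (.thr 43 35 (.thr 63 3 (.thr 15 31 (.dbl 51 27 59)))))) .nd))))))) .nd))))))) (.rp 30 (.str 18 (.nv (.thr 55 4 (.dbl 39 7 36)) (.rp 55 (.str 42 (.nv (.thr 32 47 (.thr 63 0 (.thr 36 39 (.thr 43 3 (.dbl 40 41 44))))) (.nv (.thr 32 47 (.thr 34 46 (.thr 35 33 (.thr 36 39 (.dbl 44 40 41))))) (.nv (.thr 32 47 (.thr 63 0 (.thr 3 43 (.thr 33 48 (.dbl 34 35 46))))) (.rp 54 (.str 52 (.nv (.thr 39 36 (.thr 63 0 (.thr 43 3 (.dbl 47 32 35)))) (.nv (.thr 32 47 (.thr 34 46 (.thr 35 33 (.thr 36 39 (.dbl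 44 40 41))))) (.nv (.thr 0 63 (.thr 34 46 (.thr 36 39 (.thr 4 20 (.thr 12 8 (.dbl 51 17 25)))))) (.nv (.thr 32 47 (.thr 63 0 (.thr 3 43 (.thr 33 48 (.dbl 34 35 46))))) (.rp 39 (.thr 0 63 (.thr 32 47 (.thr 48 16 (.thr 33 3 (.dbl 34 35 46))))) .nd)))))) (.rp 52 (.str 54 (.nv (.thr 39 36 (.thr 63 0 (.thr 43 3 (.thr 35 47 (.dbl 41 40 44))))) (.nv (.thr 0 63 (.thr 32 47 (.thr 48 16 (.thr 3 33 (.thr 2 1 (.dbl 34 46 50)))))) (.nv (.thr 34 46 (.thr 32 47 (.thr 35 33 (.thr 36 39 (.dbl 44 40 41))))) (.rp 47 (.thr 36 39 (.thr 63 0 (.thr 46 34 (.thr 12 29 (.thr 48 24 (.dbl 3 33 43)))))) .nd))))) (.rp 47 (.thr 36 39 (.thr 63 0 (.thr 46 34 (.thr 12 29 (.thr 48 24 (.dbl 3 33 43)))))) (.rp 39 (.thr 0 63 (.thr 32 47 (.thr 48 16 (.thr 33 3 (.dbl 34 35 46))))) (.rp 32 (.thr 39 36 (.thr 63 0 (.thr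 43 3 (.thr 35 47 (.dbl 41 40 44))))) .nd))))))))) (.rp 39 (.str 0 (.nv (.thr 4 55 (.thr 12 8 (.thr 25 51 (.thr 29 17 (.dbl 63 42 46))))) (.nv (.thr 42 63 (.thr 32 47 (.thr 48 16 (.thr 33 3 (.dbl 34 35 46))))) (.nv (.thr 55 4 (.thr 63 42 (.thr 51 59 (.thr 25 12 (.dbl 17 29 34))))) (.rp 63 (.thr 4 55 (.thr 12 8 (.thr 51 25 (.thr 17 34 (.thr 19 16 (.thr 3 35 (.thr 1 2 (.dbl 33 48 49)))))))) (.rp 42 (.thr 4 55 (.thr 12 8 (.thr 25 51 (.thr 17 29 (.thr 16 19 (.thr 48 32 (.thr 49 13 (.dbl 33 1 3)))))))) .nd)))))) (.rp 36 (.str 0 (.nv (.thr 42 63 (.thr 32 47 (.thr 48 16 (.thr 33 3 (.thr 35 34 (.dbl 41 44 45)))))) (.nv (.thr 4 55 (.thr 12 8 (.thr 25 51 (.thr 29 17 (.dbl 63 42 46))))) (.rp 63 (.thr 4 55 (.thr 12 8 (.thr 51 25 (.thr 17 34 (.thr 19 16 (.thr 3 35 (.thr 1 2 (.dbl 33 48 49))))))))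 (.rp 42 (.thr 4 55 (.thr 12 8 (.thr 25 51 (.thr 17 29 (.thr 16 19 (.thr 48 32 (.thr 49 13 (.dbl 33 1 3)))))))) .nd))))) (.rp 7 (.str 3 (.nv (.thr 33 48 (.thr 41 45 (.thr 1 61 (.thr 2 0 (.thr 34 50 (.dbl 35 32 44)))))) (.nv (.thr 4 55 (.thr 63 43 (.thr 0 42 (.thr 12 8 (.thr 25 51 (.dbl 29 17 46)))))) (.nv (.thr 33 48 (.thr 63 43 (.thr 42 0 (.thr 32 47 (.dbl 34 35 46))))) (.rp 63 (.thr 4 55 (.thr 36 39 (.thr 48 33 (.thr 12 24 (.thr 0 8 (.thr 2 1 (.thr 50 34 (.dbl 51 25 49)))))))) (.rp 0 (.thr 39 36 (.thr 33 48 (.thr 41 45 (.thr 35 44 (.dbl 43 47 63))))) .nd)))))) (.rp 4 (.str 3 (.nv (.thr 33 48 (.thr 41 45 (.thr 1 61 (.thr 2 0 (.thr 34 50 (.dbl 35 32 44)))))) (.nv (.thr 39 36 (.thr 7 55 (.thr 15 11 (.thr 63 43 (.thr 27 51 (.dbl 31 19 47)))))) (.nv (.thr 33 48 (.thr 63 43 (.thr 42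 0 (.thr 32 47 (.dbl 34 35 46))))) (.rp 63 (.thr 39 36 (.thr 7 55 (.thr 48 33 (.thr 15 11 (.thr 51 27 (.thr 49 50 (.dbl 25 12 13))))))) .nd))))) .nd))))))) (.rp 18 (.str 30 (.nv (.thr 55 4 (.dbl 39 7 36)) (.rp 55 (.str 42 (.nv (.thr 39 36 (.thr 63 0 (.thr 43 3 (.thr 35 47 (.dbl 41 40 44))))) (.nv (.thr 47 32 (.thr 63 0 (.thr 31 15 (.thr 29 28 (.dbl 46 12 34))))) (.nv (.thr 32 47 (.thr 36 39 (.thr 34 46 (.thr 44 40 (.dbl 35 33 41))))) (.rp 54 (.str 52 (.nv (.thr 39 36 (.thr 63 0 (.thr 43 3 (.thr 35 47 (.dbl 41 40 44))))) (.nv (.thr 47 32 (.thr 63 0 (.thr 31 15 (.thr 29 28 (.dbl 46 12 34))))) (.nv (.thr 32 47 (.thr 36 39 (.thr 34 46 (.thr 44 40 (.dbl 35 33 41))))) (.rp 47 (.thr 36 39 (.thr 4 20 (.thr 0 63 (.thr 12 8 (.thr 34 46 (.dbl 51 17 25)))))) .nd))))) (.rp 52 (.str 54 (.nv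 (.thr 39 36 (.thr 63 0 (.thr 43 3 (.thr 35 47 (.dbl 41 40 44))))) (.nv (.thr 47 32 (.thr 63 0 (.thr 31 15 (.thr 29 28 (.dbl 46 12 34))))) (.nv (.thr 32 47 (.thr 36 39 (.thr 34 46 (.thr 44 40 (.dbl 35 33 41))))) (.rp 47 (.thr 39 36 (.thr 0 63 (.thr 34 46 (.thr 51 17 (.thr 15 27 (.dbl 60 45 57)))))) .nd))))) (.rp 47 (.thr 63 0 (.thr 43 3 (.thr 41 40 (.thr 46 34 (.thr 62 14 (.dbl 61 1 60)))))) .nd))))))) (.rp 39 (.str 63 (.nv (.thr 42 0 (.thr 43 3 (.thr 41 40 (.thr 47 32 (.thr 15 31 (.dbl 45 33 60)))))) (.nv (.thr 55 4 (.thr 51 59 (.thr 25 12 (.thr 17 29 (.dbl 0 34 42))))) (.rp 42 (.thr 55 4 (.thr 51 59 (.thr 25 12 (.thr 29 17 (.thr 31 28 (.thr 19 27 (.dbl 3 35 43))))))) (.rp 0 (.thr 55 4 (.thr 51 59 (.thr 12 25 (.thr 29 46 (.thr 3 43 (.thr 31 28 (.dbl 19 27 35))))))) .nd))))) (.rp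 36 (.str 63 (.nv (.thr 55 4 (.thr 39 7 (.thr 51 59 (.thr 3 43 (.thr 27 15 (.dbl 19 31 35)))))) (.nv (.thr 42 0 (.thr 43 3 (.thr 47 32 (.thr 35 39 (.dbl 41 40 44))))) (.nv (.thr 42 0 (.thr 46 34 (.thr 12 29 (.thr 55 4 (.dbl 51 25 59))))) .nd)))) (.rp 7 (.str 60 (.nv (.thr 15 45 (.thr 39 36 (.thr 51 27 (.thr 55 4 (.thr 63 59 (.thr 42 0 (.dbl 47 31 32))))))) (.nv (.thr 45 15 (.thr 41 33 (.thr 44 35 (.thr 28 12 (.thr 29 31 (.dbl 61 1 13)))))) (.nv (.thr 4 55 (.thr 36 39 (.thr 52 20 (.thr 48 56 (.thr 12 24 (.thr 28 44 (.thr 29 31 (.dbl 25 17 51)))))))) (.nv (.thr 36 39 (.thr 45 15 (.thr 41 33 (.thr 44 35 (.thr 47 46 (.dbl 32 40 42)))))) (.rp 11 (.thr 55 4 (.thr 39 36 (.thr 15 45 (.thr 51 27 (.thr 63 59 (.thr 43 3 (.dbl 47 31 35))))))) .nd)))))) (.rp 4 (.str 63 (.nv (.thr 42 0 (.thr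 47 32 (.thr 31 15 (.thr 29 28 (.dbl 46 12 34))))) (.nv (.thr 3 43 (.thr 39 36 (.thr 55 7 (.thr 51 59 (.thr 19 35 (.dbl 27 15 31)))))) (.nv (.thr 36 39 (.thr 42 0 (.thr 32 47 (.thr 40 44 (.dbl 43 3 41))))) .nd)))) .nd))))))) (.rp 7 (.thr 39 36 (.str 47 (.nv (.thr 42 32 (.thr 55 4 (.thr 63 0 (.thr 15 31 (.dbl 51 27 59))))) (.nv (.thr 43 35 (.thr 55 4 (.thr 63 3 (.thr 15 31 (.dbl 51 27 59))))) (.nv (.thr 35 43 (.thr 41 44 (.thr 33 45 (.dbl 32 34 42)))) (.rp 30 (.str 18 (.nv (.thr 42 32 (.thr 55 4 (.thr 63 0 (.thr 15 31 (.dbl 51 27 59))))) (.nv (.thr 43 35 (.thr 55 4 (.thr 63 3 (.thr 15 31 (.dbl 51 27 59))))) (.nv (.thr 35 43 (.thr 42 32 (.thr 46 34 (.dbl 44 41 45)))) .nd)))) (.rp 18 (.str 30 (.nv (.thr 43 35 (.thr 55 4 (.thr 63 3 (.thr 15 31 (.dbl 51 27 59))))) (.nv (.thr 42 32 (.thr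 55 4 (.thr 63 0 (.thr 15 31 (.dbl 51 27 59))))) (.nv (.thr 35 43 (.thr 41 44 (.thr 33 45 (.dbl 32 34 42)))) .nd)))) .nd))))))) (.rp 4 (.thr 36 39 (.str 42 (.nv (.thr 0 63 (.thr 32 47 (.thr 34 46 (.thr 48 16 (.thr 12 24 (.dbl 51 17 25)))))) (.nv (.thr 63 0 (.thr 32 47 (.thr 43 3 (.dbl 40 41 44)))) (.nv (.thr 34 46 (.thr 32 47 (.thr 35 33 (.dbl 44 40 41)))) (.rp 47 (.thr 63 0 (.thr 43 3 (.thr 41 40 (.thr 46 34 (.thr 44 35 (.thr 12 29 (.thr 60 28 (.dbl 61 1 62)))))))) (.rp 44 (.thr 63 0 (.thr 47 32 (.thr 46 34 (.thr 15 31 (.thr 12 29 (.thr 13 14 (.dbl 25 49 51))))))) (.rp 32 (.thr 63 0 (.thr 43 3 (.thr 41 40 (.thr 46 34 (.thr 33 45 (.thr 44 35 (.thr 12 29 (.thr 60 28 (.dbl 61 1 62))))))))) (.rp 30 (.str 18 (.nv (.thr 32 47 (.thr 63 0 (.thr 43 3 (.dbl 40 41 44)))) (.nv (.thr 46 34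 (.thr 63 0 (.thr 12 29 (.thr 48 24 (.dbl 3 33 43))))) (.nv (.thr 34 46 (.thr 32 47 (.thr 35 33 (.dbl 44 40 41)))) .nd)))) (.rp 18 (.str 30 (.nv (.thr 32 47 (.thr 63 0 (.thr 43 3 (.dbl 40 41 44)))) (.nv (.thr 46 34 (.thr 14 62 (.thr 63 0 (.thr 12 29 (.thr 13 15 (.dbl 25 49 51)))))) (.nv (.thr 32 47 (.thr 34 46 (.thr 44 40 (.dbl 35 33 41)))) .nd)))) .nd)))))))))) .nd))))))))) (.rp 20 (.str 55 (.nv (.thr 39 7 (.dbl 38 4 36)) (.rp 39 (.str 63 (.nv (.thr 3 43 (.thr 42 0 (.thr 47 32 (.thr 31 15 (.thr 51 59 (.dbl 19 27 35)))))) (.nv (.thr 38 4 (.thr 51 59 (.thr 25 12 (.thr 17 29 (.dbl 0 34 42))))) (.rp 59 (.thr 38 4 (.thr 43 3 (.thr 42 0 (.thr 47 32 (.thr 46 34 (.thr 45 44 (.dbl 41 33 40))))))) (.rp 51 (.thr 38 4 (.thr 43 3 (.thr 42 0 (.thr 32 47 (.thr 34 46 (.thr 35 33 (.dbl 41 40 44)))))))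 (.rp 42 (.thr 38 4 (.thr 51 59 (.thr 3 43 (.thr 35 19 (.thr 41 44 (.thr 61 1 (.dbl 60 22 62))))))) (.rp 0 (.thr 38 4 (.thr 51 59 (.thr 3 43 (.thr 35 19 (.thr 41 44 (.thr 61 1 (.dbl 60 22 62))))))) .nd))))))) (.rp 38 (.thr 7 39 (.str 63 (.nv (.thr 3 43 (.thr 15 11 (.thr 47 31 (.dbl 42 0 32)))) (.nv (.thr 22 52 (.thr 42 0 (.thr 62 2 (.thr 60 61 (.dbl 3 41 43))))) (.nv (.thr 42 0 (.thr 47 32 (.thr 3 43 (.dbl 15 11 31)))) (.rp 50 (.str 14 (.nv (.thr 3 43 (.thr 15 11 (.thr 12 13 (.thr 6 9 (.thr 5 4 (.dbl 10 0 2)))))) (.nv (.thr 22 52 (.thr 42 0 (.thr 62 2 (.thr 60 61 (.dbl 3 41 43))))) (.nv (.thr 42 0 (.thr 47 32 (.thr 15 31 (.dbl 3 11 43)))) (.rp 43 (.thr 59 51 (.thr 42 0 (.thr 25 8 (.thr 47 32 (.thr 15 31 (.dbl 13 12 49)))))) (.rp 3 (.thr 59 51 (.thr 42 0 (.thr 25 8 (.thr 47 32 (.thr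 15 31 (.dbl 13 12 49)))))) (.rp 0 (.thr 22 52 (.thr 3 43 (.thr 60 41 (.thr 62 61 (.thr 30 46 (.dbl 15 11 45)))))) .nd))))))) (.rp 43 (.thr 22 52 (.thr 59 51 (.thr 42 0 (.thr 47 32 (.thr 25 8 (.thr 19 28 (.dbl 31 15 27))))))) (.rp 42 (.thr 22 52 (.thr 51 59 (.thr 3 43 (.thr 41 60 (.thr 1 61 (.thr 0 2 (.thr 33 45 (.dbl 17 34 49)))))))) (.rp 14 (.str 50 (.nv (.thr 0 42 (.thr 3 43 (.thr 1 2 (.thr 22 52 (.dbl 41 60 61))))) (.nv (.thr 0 42 (.thr 51 59 (.thr 49 48 (.thr 25 13 (.dbl 17 29 34))))) (.nv (.thr 42 0 (.thr 47 32 (.thr 3 43 (.dbl 15 11 31)))) (.rp 42 (.thr 51 59 (.thr 3 43 (.thr 49 48 (.thr 25 13 (.thr 22 52 (.dbl 19 28 35)))))) (.rp 0 (.thr 51 59 (.thr 3 43 (.thr 49 48 (.thr 25 13 (.thr 22 52 (.dbl 19 28 35)))))) .nd)))))) (.rp 3 (.thr 22 52 (.thr 59 51 (.thr 42 0 (.thr 47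 32 (.thr 25 8 (.thr 19 28 (.dbl 31 15 27))))))) (.rp 0 (.thr 22 52 (.thr 3 43 (.thr 60 41 (.thr 62 61 (.thr 42 2 (.thr 47 32 (.dbl 15 11 31))))))) .nd))))))))))) (.rp 36 (.thr 7 39 (.str 63 (.nv (.thr 4 38 (.thr 0 42 (.thr 3 43 (.thr 5 6 (.dbl 15 10 11))))) (.nv (.thr 0 42 (.thr 51 59 (.thr 17 34 (.thr 25 29 (.dbl 38 4 12))))) (.nv (.thr 3 43 (.thr 15 11 (.thr 47 31 (.dbl 42 0 32)))) (.rp 42 (.thr 22 52 (.thr 4 38 (.thr 5 6 (.thr 3 43 (.thr 41 60 (.thr 1 61 (.thr 0 2 (.dbl 15 10 11)))))))) (.rp 4 (.thr 52 22 (.thr 3 43 (.thr 15 11 (.thr 47 31 (.dbl 42 0 32))))) (.rp 0 (.thr 22 52 (.thr 4 38 (.thr 3 43 (.thr 60 41 (.thr 62 61 (.thr 42 2 (.thr 47 32 (.dbl 15 11 31)))))))) .nd)))))))) (.rp 7 (.str 63 (.nv (.thr 38 4 (.thr 42 0 (.thr 43 3 (.thr 47 32 (.dbl 39 35 36))))) (.nv (.thr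 3 43 (.thr 42 0 (.thr 47 32 (.thr 31 15 (.thr 19 27 (.dbl 51 35 59)))))) (.nv (.thr 3 43 (.thr 38 4 (.thr 51 59 (.thr 19 35 (.thr 27 31 (.dbl 39 15 36)))))) (.nv (.thr 0 42 (.thr 51 59 (.thr 17 34 (.thr 25 29 (.dbl 38 4 12))))) .nd))))) (.rp 4 (.str 63 (.nv (.thr 39 7 (.thr 42 0 (.thr 47 32 (.dbl 43 3 35)))) (.nv (.thr 3 43 (.thr 42 0 (.thr 47 32 (.thr 31 15 (.thr 19 27 (.dbl 51 35 59)))))) (.nv (.thr 0 42 (.thr 51 59 (.thr 17 34 (.thr 25 29 (.thr 38 12 (.dbl 39 7 36)))))) (.nv (.thr 39 7 (.thr 51 59 (.thr 3 43 (.thr 27 15 (.dbl 19 31 35))))) (.rp 52 (.str 36 (.nv (.dbl 39 7 38) (.rp 39 (.thr 43 3 (.thr 42 0 (.thr 32 47 (.dbl 40 41 44)))) (.rp 38 (.thr 39 7 (.thr 43 3 (.thr 47 35 (.dbl 42 0 32)))) (.rp 7 (.thr 39 38 (.thr 43 3 (.thr 47 35 (.dbl 42 0 32)))) .nd))))) (.rp 36 (.str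 52 (.nv (.dbl 7 22 39) (.rp 39 (.thr 7 22 (.thr 3 43 (.thr 15 11 (.thr 47 31 (.dbl 42 0 32))))) (.rp 22 (.thr 39 7 (.thr 43 3 (.thr 47 35 (.dbl 42 0 32)))) (.rp 7 (.thr 51 59 (.thr 3 43 (.thr 19 35 (.thr 42 0 (.thr 47 32 (.dbl 31 15 27)))))) .nd))))) .nd))))))) .nd))))))) (.rp 19 (.str 63 (.nv (.thr 3 43 (.thr 22 20 (.thr 7 52 (.thr 15 11 (.thr 47 31 (.dbl 42 0 32)))))) (.nv (.thr 3 43 (.thr 22 20 (.thr 42 0 (.thr 62 2 (.dbl 60 41 61))))) (.rp 43 (.thr 22 20 (.thr 7 52 (.thr 55 39 (.thr 51 59 (.thr 0 42 (.thr 17 34 (.thr 25 29 (.dbl 38 4 12)))))))) (.rp 42 (.thr 22 20 (.thr 3 43 (.thr 41 60 (.thr 61 1 (.thr 45 33 (.thr 29 13 (.thr 12 46 (.thr 9 6 (.dbl 25 17 57))))))))) (.rp 41 (.thr 22 20 (.thr 7 52 (.thr 3 43 (.thr 42 0 (.thr 47 32 (.dbl 15 11 31)))))) (.rp 22 (.thr 43 3 (.thr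 42 0 (.thr 47 32 (.thr 15 31 (.thr 39 35 (.thr 51 27 (.dbl 55 7 59))))))) (.rp 20 (.thr 43 3 (.thr 42 0 (.thr 47 32 (.thr 15 31 (.thr 39 35 (.thr 51 27 (.dbl 55 7 59))))))) (.rp 3 (.thr 22 20 (.thr 7 52 (.thr 55 39 (.thr 51 59 (.thr 0 42 (.thr 17 34 (.thr 25 29 (.dbl 38 4 12)))))))) (.rp 0 (.thr 22 20 (.thr 7 52 (.thr 55 39 (.thr 51 59 (.thr 3 43 (.thr 60 41 (.thr 54 57 (.dbl 38 4 6)))))))) .nd)))))))))) (.rp 18 (.thr 22 20 (.str 63 (.nv (.thr 3 43 (.thr 7 52 (.thr 15 11 (.thr 31 47 (.thr 27 19 (.dbl 39 51 55)))))) (.nv (.thr 0 42 (.thr 3 43 (.thr 41 60 (.dbl 1 2 61)))) (.rp 43 (.thr 7 52 (.thr 55 39 (.thr 51 59 (.thr 0 42 (.thr 17 34 (.thr 25 29 (.dbl 38 4 12))))))) (.rp 41 (.thr 7 52 (.thr 3 43 (.thr 42 0 (.thr 47 32 (.dbl 15 11 31))))) (.rp 3 (.thr 7 52 (.thr 55 39 (.thr 51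 59 (.thr 0 42 (.thr 17 34 (.thr 25 29 (.dbl 38 4 12))))))) .nd))))))) (.rp 17 (.str 63 (.nv (.thr 3 43 (.thr 22 20 (.thr 7 52 (.thr 15 11 (.thr 31 47 (.thr 27 19 (.dbl 39 51 55))))))) (.nv (.thr 0 42 (.thr 22 20 (.thr 3 43 (.thr 41 60 (.dbl 1 2 61))))) (.rp 43 (.thr 22 20 (.thr 7 52 (.thr 42 0 (.thr 47 32 (.thr 15 31 (.thr 3 11 (.thr 62 2 (.dbl 60 41 61)))))))) (.rp 41 (.thr 22 20 (.thr 7 52 (.thr 3 43 (.thr 42 0 (.thr 47 32 (.dbl 15 11 31)))))) (.rp 22 (.thr 43 3 (.thr 42 0 (.thr 47 32 (.thr 39 35 (.thr 55 7 (.dbl 38 4 36)))))) (.rp 20 (.thr 43 3 (.thr 42 0 (.thr 47 32 (.thr 39 35 (.thr 55 7 (.dbl 38 4 36)))))) (.rp 3 (.thr 22 20 (.thr 7 52 (.thr 42 0 (.thr 47 32 (.thr 31 15 (.thr 19 27 (.thr 25 28 (.thr 59 8 (.dbl 55 39 51))))))))) .nd)))))))) (.rp 16 (.str 63 (.nv (.thr 0 42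 (.thr 3 43 (.thr 1 2 (.thr 41 61 (.dbl 22 20 60))))) (.nv (.thr 3 43 (.thr 22 20 (.thr 7 52 (.thr 15 11 (.thr 31 47 (.thr 27 19 (.dbl 39 51 55))))))) (.nv (.thr 0 42 (.thr 22 20 (.thr 3 43 (.thr 41 60 (.dbl 1 2 61))))) (.rp 43 (.thr 22 20 (.thr 7 52 (.thr 55 39 (.thr 51 59 (.thr 0 42 (.thr 17 34 (.thr 25 29 (.dbl 38 4 12)))))))) (.rp 41 (.thr 22 20 (.thr 7 52 (.thr 55 39 (.thr 4 38 (.thr 6 5 (.thr 3 43 (.thr 12 9 (.dbl 0 8 42)))))))) (.rp 22 (.thr 43 3 (.thr 42 0 (.thr 32 47 (.thr 41 40 (.thr 1 61 (.thr 33 45 (.thr 34 35 (.thr 46 38 (.thr 29 12 (.dbl 17 25 49)))))))))) (.rp 20 (.thr 3 43 (.thr 0 42 (.thr 1 2 (.thr 41 61 (.thr 33 45 (.thr 22 60 (.thr 7 52 (.thr 55 39 (.thr 51 59 (.dbl 17 34 49)))))))))) (.rp 3 (.thr 22 20 (.thr 7 52 (.thr 55 39 (.thr 51 59 (.thr 0 42 (.thr 17 34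 (.thr 25 29 (.dbl 38 4 12)))))))) .nd))))))))) (.rp 15 (.str 63 (.nv (.thr 22 20 (.thr 3 43 (.thr 60 41 (.thr 42 0 (.dbl 62 2 61))))) (.nv (.thr 22 20 (.thr 7 52 (.thr 42 0 (.thr 43 3 (.thr 47 32 (.dbl 39 35 55)))))) (.nv (.thr 22 20 (.thr 0 42 (.thr 3 43 (.thr 1 2 (.dbl 41 60 61))))) (.rp 60 (.thr 43 3 (.thr 42 0 (.thr 47 32 (.thr 39 35 (.thr 7 55 (.dbl 22 20 52)))))) (.rp 43 (.thr 22 20 (.thr 7 52 (.thr 55 39 (.thr 51 59 (.thr 0 42 (.thr 17 34 (.thr 25 29 (.dbl 38 4 12)))))))) (.rp 42 (.thr 22 20 (.thr 7 52 (.thr 55 39 (.thr 51 59 (.thr 3 43 (.thr 35 19 (.thr 41 60 (.dbl 38 4 44)))))))) (.rp 22 (.thr 43 3 (.thr 42 0 (.thr 47 32 (.thr 39 35 (.thr 38 36 (.dbl 55 4 7)))))) (.rp 20 (.thr 43 3 (.thr 42 0 (.thr 47 32 (.thr 39 35 (.thr 38 36 (.dbl 55 4 7)))))) (.rp 10 (.thr 22 20 (.thr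 3 43 (.thr 60 41 (.thr 62 61 (.dbl 42 0 2))))) (.rp 3 (.thr 22 20 (.thr 7 52 (.thr 55 39 (.thr 51 59 (.thr 0 42 (.thr 17 34 (.thr 25 29 (.dbl 38 4 12)))))))) (.rp 2 (.thr 22 20 (.thr 7 52 (.thr 55 39 (.thr 4 38 (.thr 6 5 (.thr 3 43 (.thr 12 9 (.dbl 0 8 42)))))))) (.rp 0 (.thr 22 20 (.thr 7 52 (.thr 55 39 (.thr 51 59 (.thr 3 43 (.thr 60 41 (.thr 54 57 (.dbl 38 4 6)))))))) .nd))))))))))))) (.rp 14 (.thr 22 20 (.str 63 (.nv (.thr 3 43 (.thr 7 52 (.thr 15 11 (.thr 31 47 (.thr 27 19 (.dbl 39 51 55)))))) (.nv (.thr 0 42 (.thr 3 43 (.thr 41 60 (.dbl 1 2 61)))) (.rp 50 (.str 38 (.nv (.thr 0 42 (.thr 3 43 (.thr 1 2 (.dbl 41 60 61)))) (.nv (.thr 7 52 (.dbl 55 4 39)) .nd))) (.rp 43 (.thr 7 52 (.thr 55 39 (.thr 51 59 (.thr 0 42 (.thr 17 34 (.thr 25 29 (.dbl 38 4 12))))))) (.rp 41 (.thr 7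 52 (.thr 3 43 (.thr 42 0 (.thr 47 32 (.dbl 15 11 31))))) (.rp 38 (.str 50 (.nv (.thr 3 43 (.thr 7 52 (.thr 15 11 (.thr 31 47 (.thr 27 19 (.dbl 39 51 55)))))) (.nv (.thr 3 43 (.thr 41 60 (.thr 1 61 (.dbl 0 2 42)))) (.rp 43 (.thr 52 7 (.thr 42 0 (.thr 62 2 (.thr 60 61 (.thr 54 58 (.thr 48 56 (.dbl 51 49 57))))))) (.rp 41 (.thr 7 52 (.thr 42 0 (.thr 47 32 (.thr 15 31 (.dbl 3 11 43))))) (.rp 3 (.thr 7 52 (.thr 55 39 (.thr 0 42 (.thr 51 59 (.thr 49 48 (.thr 25 13 (.dbl 17 29 34))))))) .nd)))))) (.rp 3 (.thr 7 52 (.thr 55 39 (.thr 51 59 (.thr 0 42 (.thr 17 34 (.thr 25 29 (.dbl 38 4 12))))))) .nd))))))))) (.rp 13 (.str 63 (.nv (.thr 3 43 (.thr 22 20 (.thr 7 52 (.thr 15 11 (.thr 31 47 (.thr 27 19 (.dbl 39 51 55))))))) (.nv (.thr 3 43 (.thr 22 20 (.thr 42 0 (.thr 62 2 (.dbl 60 41 61)))))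 (.rp 43 (.thr 22 20 (.thr 7 52 (.thr 55 39 (.thr 51 59 (.thr 0 42 (.thr 17 34 (.thr 25 29 (.dbl 38 4 12)))))))) (.rp 41 (.thr 22 20 (.thr 7 52 (.thr 3 43 (.thr 42 0 (.thr 47 32 (.dbl 15 11 31)))))) (.rp 22 (.thr 43 3 (.thr 42 0 (.thr 47 32 (.thr 39 35 (.thr 55 7 (.dbl 38 4 36)))))) (.rp 20 (.thr 43 3 (.thr 42 0 (.thr 47 32 (.thr 39 35 (.thr 55 7 (.dbl 38 4 36)))))) (.rp 3 (.thr 22 20 (.thr 7 52 (.thr 55 39 (.thr 51 59 (.thr 0 42 (.thr 17 34 (.thr 25 29 (.dbl 38 4 12)))))))) .nd)))))))) (.rp 12 (.str 63 (.nv (.thr 3 43 (.thr 22 20 (.thr 7 52 (.thr 15 11 (.thr 31 47 (.thr 27 19 (.dbl 39 51 55))))))) (.nv (.thr 22 20 (.thr 0 42 (.thr 3 43 (.thr 1 2 (.dbl 41 60 61))))) (.rp 43 (.thr 22 20 (.thr 7 52 (.thr 42 0 (.thr 47 32 (.thr 15 31 (.thr 3 11 (.thr 62 2 (.dbl 60 41 61)))))))) (.rp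 41 (.thr 22 20 (.thr 7 52 (.thr 3 43 (.thr 42 0 (.thr 47 32 (.dbl 15 11 31)))))) (.rp 22 (.thr 43 3 (.thr 42 0 (.thr 47 32 (.thr 39 35 (.thr 55 7 (.dbl 38 4 36)))))) (.rp 20 (.thr 43 3 (.thr 42 0 (.thr 47 32 (.thr 39 35 (.thr 55 7 (.dbl 38 4 36)))))) (.rp 3 (.thr 22 20 (.thr 7 52 (.thr 55 39 (.thr 4 38 (.thr 42 0 (.thr 59 51 (.thr 25 8 (.thr 19 28 (.thr 47 32 (.dbl 31 15 27)))))))))) .nd)))))))) (.rp 11 (.thr 22 20 (.str 41 (.nv (.thr 3 60 (.thr 63 43 (.thr 0 42 (.dbl 1 2 61)))) (.nv (.thr 1 61 (.thr 3 60 (.thr 0 2 (.dbl 63 42 43)))) (.rp 63 (.thr 45 33 (.thr 61 1 (.thr 13 29 (.thr 60 3 (.thr 15 30 (.thr 12 14 (.thr 28 44 (.dbl 25 19 49)))))))) (.rp 61 (.thr 3 60 (.thr 63 43 (.thr 7 52 (.thr 55 39 (.thr 4 38 (.thr 6 5 (.thr 12 9 (.dbl 0 8 42)))))))) (.rp 60 (.thr 33 45 (.thr 1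 61 (.thr 49 17 (.thr 13 25 (.thr 5 9 (.thr 7 52 (.thr 55 39 (.dbl 4 6 38)))))))) (.rp 43 (.thr 45 33 (.thr 61 1 (.thr 60 3 (.thr 63 62 (.thr 15 30 (.thr 47 31 (.dbl 42 0 32))))))) (.rp 42 (.thr 45 33 (.thr 61 1 (.thr 29 13 (.thr 3 60 (.thr 63 43 (.thr 12 46 (.thr 9 6 (.dbl 25 17 57)))))))) (.rp 3 (.thr 33 45 (.thr 1 61 (.thr 49 17 (.thr 13 25 (.thr 5 9 (.thr 7 52 (.thr 55 39 (.dbl 4 6 38)))))))) (.rp 2 (.thr 45 33 (.thr 61 1 (.thr 29 13 (.thr 3 60 (.thr 63 43 (.thr 12 46 (.thr 9 6 (.dbl 25 17 57)))))))) (.rp 1 (.thr 3 60 (.thr 63 43 (.thr 7 52 (.thr 55 39 (.thr 4 38 (.thr 6 5 (.thr 0 42 (.dbl 12 8 9)))))))) (.rp 0 (.thr 33 45 (.thr 1 61 (.thr 49 17 (.thr 13 25 (.thr 5 9 (.thr 7 52 (.thr 55 39 (.dbl 4 6 38)))))))) .nd))))))))))))) (.rp 10 (.thr 22 20 (.str 3 (.nv (.thr 7 52 (.thr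 15 11 (.thr 63 43 (.thr 31 47 (.thr 27 19 (.dbl 39 51 55)))))) (.nv (.thr 41 60 (.thr 1 61 (.thr 63 43 (.dbl 0 2 42)))) (.rp 63 (.thr 7 52 (.thr 55 39 (.thr 4 38 (.thr 6 5 (.thr 12 9 (.thr 11 15 (.thr 0 8 (.thr 1 2 (.dbl 41 60 61))))))))) (.rp 58 (.str 42 (.nv (.dbl 63 0 43) (.rp 63 (.str 48 (.nv (.thr 32 47 (.thr 0 16 (.dbl 2 1 62))) (.nv (.thr 33 18 (.dbl 41 45 60)) .nd))) (.rp 43 (.thr 2 62 (.dbl 0 1 63)) (.rp 0 (.thr 63 43 (.thr 62 2 (.dbl 60 41 61))) .nd))))) (.rp 43 (.thr 41 60 (.thr 1 61 (.thr 0 2 (.thr 33 45 (.thr 48 18 (.thr 32 16 (.dbl 42 47 63))))))) (.rp 42 (.str 58 (.nv (.thr 7 52 (.thr 55 39 (.thr 41 60 (.thr 63 43 (.thr 51 59 (.thr 35 19 (.dbl 38 4 44))))))) (.nv (.thr 7 52 (.thr 41 60 (.thr 1 61 (.thr 0 2 (.thr 55 39 (.thr 4 38 (.thr 6 5 (.dbl 12 8 9)))))))) (.nv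 (.thr 7 52 (.thr 63 43 (.thr 15 11 (.thr 31 47 (.thr 27 19 (.dbl 39 51 55)))))) (.rp 63 (.thr 7 52 (.thr 55 39 (.thr 4 38 (.thr 6 5 (.thr 41 60 (.thr 12 9 (.thr 11 15 (.thr 0 8 (.dbl 1 2 61))))))))) (.rp 56 (.thr 63 43 (.thr 41 60 (.thr 61 1 (.thr 45 33 (.thr 29 13 (.thr 12 46 (.thr 9 6 (.dbl 25 17 57)))))))) (.rp 55 (.thr 63 43 (.thr 41 60 (.thr 61 1 (.thr 45 33 (.thr 29 13 (.thr 12 46 (.thr 9 6 (.dbl 25 17 57)))))))) (.rp 52 (.thr 63 43 (.thr 41 60 (.thr 61 1 (.thr 45 33 (.thr 29 13 (.thr 12 46 (.thr 9 6 (.dbl 25 17 57)))))))) (.rp 41 (.thr 52 7 (.thr 43 63 (.str 25 (.nv (.thr 49 13 (.thr 19 28 (.thr 51 35 (.thr 50 48 (.thr 54 62 (.dbl 38 6 12)))))) (.nv (.thr 19 28 (.thr 27 31 (.thr 51 35 (.thr 38 12 (.dbl 39 15 36))))) (.nv (.thr 17 29 (.thr 49 13 (.thr 33 1 (.thr 18 48 (.dbl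 19 16 28))))) (.rp 56 (.str 11 (.nv (.thr 19 28 (.dbl 27 31 59)) (.nv (.thr 27 59 (.dbl 19 28 31)) (.rp 59 (.thr 17 29 (.thr 19 28 (.thr 49 13 (.thr 33 1 (.dbl 18 16 48))))) (.rp 31 (.thr 27 59 (.thr 19 28 (.thr 51 35 (.thr 38 12 (.dbl 39 15 36))))) (.rp 28 (.thr 27 59 (.thr 19 31 (.thr 51 35 (.thr 38 12 (.dbl 39 15 36))))) (.rp 27 (.thr 17 29 (.thr 19 28 (.thr 49 13 (.thr 33 1 (.dbl 18 16 48))))) (.rp 19 (.thr 27 59 (.thr 17 29 (.thr 49 13 (.thr 33 1 (.thr 48 18 (.thr 51 50 (.thr 39 15 (.dbl 38 12 36)))))))) .nd)))))))) (.rp 28 (.thr 17 29 (.thr 49 13 (.thr 33 1 (.thr 48 18 (.thr 51 50 (.thr 35 19 (.dbl 34 0 32))))))) (.rp 19 (.thr 17 29 (.thr 49 13 (.thr 1 33 (.thr 0 2 (.thr 51 34 (.thr 50 48 (.thr 54 62 (.dbl 38 6 12)))))))) (.rp 16 (.thr 17 29 (.thr 49 13 (.thr 33 1 (.thr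 48 18 (.thr 51 50 (.dbl 19 28 35)))))) (.rp 12 (.thr 19 28 (.thr 51 35 (.thr 49 13 (.thr 48 50 (.thr 18 33 (.dbl 17 16 29)))))) (.rp 11 (.str 56 (.nv (.thr 13 49 (.thr 19 28 (.thr 27 31 (.thr 51 35 (.thr 15 39 (.dbl 12 14 38)))))) (.nv (.thr 17 29 (.thr 48 60 (.thr 33 18 (.dbl 49 1 13)))) (.nv (.thr 60 48 (.thr 57 59 (.thr 51 54 (.dbl 19 28 35)))) (.rp 9 (.str 8 (.nv (.thr 17 29 (.thr 19 28 (.thr 51 35 (.thr 0 34 (.dbl 12 4 38))))) (.nv (.thr 17 29 (.thr 48 60 (.thr 33 18 (.dbl 49 1 13)))) (.nv (.thr 60 48 (.thr 57 59 (.thr 51 54 (.dbl 19 28 35)))) .nd)))) (.rp 8 (.str 9 (.nv (.thr 12 6 (.thr 19 28 (.dbl 51 35 38))) (.nv (.thr 48 60 (.thr 33 18 (.thr 49 13 (.dbl 17 1 29)))) (.nv (.thr 60 48 (.thr 28 19 (.dbl 12 6 44))) .nd)))) .nd)))))) .nd)))))))))))) (.rp 40 (.thr 7 52 (.thr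 55 39 (.thr 4 38 (.thr 6 5 (.thr 12 9 (.thr 41 60 (.thr 0 8 (.thr 11 15 (.dbl 1 2 61))))))))) (.rp 39 (.thr 63 43 (.thr 41 60 (.thr 61 1 (.thr 45 33 (.thr 29 13 (.thr 12 46 (.thr 9 6 (.dbl 25 17 57)))))))) (.rp 36 (.thr 63 43 (.thr 41 60 (.thr 61 1 (.thr 45 33 (.thr 29 13 (.thr 12 46 (.thr 9 6 (.dbl 25 17 57)))))))) (.rp 8 (.thr 63 43 (.thr 41 60 (.thr 61 1 (.thr 45 33 (.thr 29 13 (.thr 12 46 (.thr 9 6 (.dbl 25 17 57)))))))) (.rp 7 (.thr 63 43 (.thr 41 60 (.thr 61 1 (.thr 45 33 (.thr 29 13 (.thr 12 46 (.thr 9 6 (.dbl 25 17 57)))))))) (.rp 4 (.thr 63 43 (.thr 41 60 (.thr 61 1 (.thr 45 33 (.thr 29 13 (.thr 12 46 (.thr 9 6 (.dbl 25 17 57)))))))) .nd))))))))))))))) (.rp 41 (.thr 7 52 (.thr 63 43 (.thr 42 0 (.thr 47 32 (.dbl 15 11 31))))) .nd))))))))) (.rp 9 (.str 63 (.nv (.thr 3 43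 (.thr 22 20 (.thr 7 52 (.thr 15 11 (.thr 31 47 (.thr 27 19 (.dbl 39 51 55))))))) (.nv (.thr 3 43 (.thr 22 20 (.thr 42 0 (.thr 62 2 (.dbl 60 41 61))))) (.rp 43 (.thr 22 20 (.thr 7 52 (.thr 55 39 (.thr 51 59 (.thr 0 42 (.thr 17 34 (.thr 25 29 (.dbl 38 4 12)))))))) (.rp 41 (.thr 22 20 (.thr 7 52 (.thr 3 43 (.thr 42 0 (.thr 47 32 (.dbl 15 11 31)))))) (.rp 22 (.thr 43 3 (.thr 42 0 (.thr 47 32 (.thr 39 35 (.thr 55 7 (.dbl 38 4 36)))))) (.rp 20 (.thr 43 3 (.thr 42 0 (.thr 47 32 (.thr 39 35 (.thr 55 7 (.dbl 38 4 36)))))) (.rp 3 (.thr 22 20 (.thr 7 52 (.thr 55 39 (.thr 51 59 (.thr 0 42 (.thr 17 34 (.thr 25 29 (.dbl 38 4 12)))))))) .nd)))))))) (.rp 8 (.str 63 (.nv (.thr 3 43 (.thr 22 20 (.thr 7 52 (.thr 15 11 (.thr 31 47 (.thr 27 19 (.dbl 39 51 55))))))) (.nv (.thr 3 43 (.thr 22 20 (.thr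 41 60 (.thr 1 61 (.dbl 0 2 42))))) (.rp 43 (.thr 22 20 (.thr 7 52 (.thr 42 0 (.thr 47 32 (.thr 15 31 (.thr 3 11 (.thr 62 2 (.dbl 60 41 61)))))))) (.rp 41 (.thr 22 20 (.thr 7 52 (.thr 3 43 (.thr 42 0 (.thr 47 32 (.dbl 15 11 31)))))) (.rp 22 (.thr 43 3 (.thr 42 0 (.thr 47 32 (.thr 39 35 (.thr 55 7 (.dbl 38 4 36)))))) (.rp 20 (.thr 43 3 (.thr 42 0 (.thr 47 32 (.thr 39 35 (.thr 55 7 (.dbl 38 4 36)))))) (.rp 3 (.thr 22 20 (.thr 7 52 (.thr 55 39 (.thr 51 59 (.thr 42 0 (.thr 47 32 (.thr 31 15 (.thr 19 27 (.thr 25 28 (.dbl 38 4 12)))))))))) .nd)))))))) (.rp 7 (.str 63 (.nv (.thr 42 0 (.thr 43 3 (.thr 41 40 (.thr 45 33 (.thr 47 32 (.thr 35 39 (.dbl 44 38 46))))))) (.nv (.thr 22 20 (.thr 3 43 (.thr 42 0 (.thr 62 2 (.dbl 60 41 61))))) (.rp 60 (.thr 20 22 (.thr 42 0 (.thr 43 3 (.thr 41 40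 (.thr 45 33 (.thr 47 32 (.thr 44 46 (.dbl 35 38 39)))))))) (.rp 43 (.thr 22 20 (.thr 42 0 (.thr 47 32 (.thr 15 31 (.thr 62 2 (.thr 60 61 (.thr 45 30 (.dbl 41 3 33)))))))) (.rp 42 (.thr 22 20 (.thr 3 43 (.thr 41 60 (.thr 61 1 (.thr 45 33 (.thr 29 13 (.thr 12 46 (.thr 9 6 (.dbl 25 17 57))))))))) (.rp 41 (.thr 43 3 (.thr 42 0 (.thr 47 32 (.thr 15 31 (.thr 39 35 (.thr 38 36 (.thr 55 4 (.dbl 51 27 59)))))))) (.rp 40 (.thr 22 20 (.thr 3 43 (.thr 60 41 (.thr 42 0 (.dbl 62 2 61))))) (.rp 20 (.thr 43 3 (.thr 42 0 (.thr 47 32 (.thr 15 31 (.thr 39 35 (.thr 38 36 (.thr 51 27 (.dbl 55 4 59)))))))) (.rp 3 (.str 15 (.nv (.thr 47 31 (.dbl 42 0 32)) (.rp 47 (.thr 20 22 (.thr 0 42 (.thr 60 40 (.thr 30 45 (.thr 62 61 (.thr 46 14 (.thr 29 12 (.thr 17 25 (.thr 51 34 (.thr 27 39 (.dbl 31 19 28)))))))))))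 (.rp 42 (.thr 22 20 (.thr 31 47 (.thr 19 27 (.thr 25 28 (.thr 29 17 (.thr 12 46 (.dbl 13 14 49))))))) (.rp 32 (.thr 22 20 (.thr 31 47 (.thr 19 27 (.thr 25 28 (.thr 29 17 (.thr 12 46 (.dbl 13 14 49))))))) (.rp 31 (.str 55 (.nv (.thr 0 42 (.thr 51 59 (.thr 17 34 (.thr 25 29 (.dbl 38 4 12))))) (.nv (.thr 51 59 (.thr 38 4 (.dbl 39 27 36))) (.rp 59 (.thr 38 4 (.thr 39 36 (.thr 51 27 (.thr 25 12 (.thr 17 29 (.dbl 0 34 42)))))) (.rp 51 (.thr 38 4 (.thr 39 36 (.thr 42 0 (.thr 47 32 (.thr 35 43 (.thr 44 41 (.dbl 46 34 45))))))) (.rp 38 (.thr 59 51 (.thr 22 20 (.thr 42 0 (.thr 25 8 (.thr 49 13 (.thr 17 29 (.thr 1 33 (.thr 61 41 (.dbl 62 2 60))))))))) (.rp 4 (.thr 51 59 (.thr 39 27 (.thr 38 36 (.thr 25 12 (.thr 17 29 (.dbl 0 34 42)))))) .nd))))))) (.rp 0 (.thr 22 20 (.thr 31 47 (.thr 19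 27 (.thr 25 28 (.thr 29 17 (.thr 12 46 (.dbl 13 14 49))))))) .nd))))))) (.rp 2 (.thr 22 20 (.thr 3 43 (.thr 41 60 (.thr 61 1 (.thr 45 33 (.thr 29 13 (.thr 12 46 (.thr 9 6 (.dbl 25 17 57))))))))) (.rp 0 (.thr 22 20 (.thr 3 43 (.thr 60 41 (.thr 62 61 (.thr 42 2 (.thr 47 32 (.thr 31 15 (.thr 19 27 (.thr 51 35 (.thr 25 28 (.dbl 59 8 55))))))))))) .nd)))))))))))) (.rp 6 (.str 63 (.nv (.thr 3 43 (.thr 22 20 (.thr 7 52 (.thr 15 11 (.thr 31 47 (.thr 27 19 (.dbl 39 51 55))))))) (.nv (.thr 0 42 (.thr 22 20 (.thr 3 43 (.thr 41 60 (.dbl 1 2 61))))) (.rp 43 (.thr 22 20 (.thr 7 52 (.thr 55 39 (.thr 51 59 (.thr 0 42 (.thr 17 34 (.thr 25 29 (.dbl 38 4 12)))))))) (.rp 41 (.thr 22 20 (.thr 7 52 (.thr 3 43 (.thr 42 0 (.thr 47 32 (.dbl 15 11 31)))))) (.rp 22 (.thr 43 3 (.thr 42 0 (.thr 47 32 (.thr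 39 35 (.thr 55 7 (.dbl 38 4 36)))))) (.rp 20 (.thr 43 3 (.thr 42 0 (.thr 47 32 (.thr 39 35 (.thr 55 7 (.dbl 38 4 36)))))) (.rp 3 (.thr 22 20 (.thr 7 52 (.thr 55 39 (.thr 51 59 (.thr 0 42 (.thr 17 34 (.thr 25 29 (.dbl 38 4 12)))))))) .nd)))))))) (.rp 5 (.str 63 (.nv (.thr 3 43 (.thr 22 20 (.thr 7 52 (.thr 15 11 (.thr 31 47 (.thr 27 19 (.dbl 39 51 55))))))) (.nv (.thr 0 42 (.thr 22 20 (.thr 3 43 (.thr 41 60 (.dbl 1 2 61))))) (.rp 43 (.thr 22 20 (.thr 7 52 (.thr 55 39 (.thr 51 59 (.thr 0 42 (.thr 17 34 (.thr 25 29 (.dbl 38 4 12)))))))) (.rp 41 (.thr 22 20 (.thr 7 52 (.thr 3 43 (.thr 42 0 (.thr 47 32 (.dbl 15 11 31)))))) (.rp 22 (.thr 43 3 (.thr 42 0 (.thr 47 32 (.thr 39 35 (.thr 55 7 (.dbl 38 4 36)))))) (.rp 20 (.thr 43 3 (.thr 42 0 (.thr 47 32 (.thr 39 35 (.thr 55 7 (.dbl 38 4 36))))))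 (.rp 3 (.thr 22 20 (.thr 7 52 (.thr 55 39 (.thr 51 59 (.thr 0 42 (.thr 17 34 (.thr 25 29 (.dbl 38 4 12)))))))) .nd)))))))) (.rp 4 (.str 63 (.nv (.thr 3 43 (.thr 42 0 (.thr 47 32 (.thr 15 31 (.thr 7 11 (.dbl 22 20 52)))))) (.nv (.thr 22 20 (.thr 3 43 (.thr 0 42 (.thr 41 60 (.dbl 1 2 61))))) (.rp 52 (.thr 3 43 (.thr 0 42 (.thr 1 2 (.thr 41 61 (.dbl 22 20 60))))) (.rp 43 (.thr 22 20 (.thr 42 0 (.thr 47 32 (.thr 15 31 (.thr 62 2 (.thr 60 61 (.thr 45 30 (.dbl 41 3 33)))))))) (.rp 42 (.thr 22 20 (.thr 3 43 (.thr 41 60 (.thr 61 1 (.thr 45 33 (.thr 29 13 (.thr 12 46 (.thr 9 6 (.dbl 25 17 57))))))))) (.rp 41 (.thr 22 20 (.thr 3 43 (.thr 42 0 (.thr 47 32 (.thr 15 31 (.dbl 7 11 52)))))) (.rp 22 (.thr 43 3 (.thr 42 0 (.thr 47 32 (.thr 15 31 (.thr 39 35 (.thr 55 7 (.dbl 51 27 59))))))) (.rp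 20 (.thr 43 3 (.thr 42 0 (.thr 47 32 (.thr 15 31 (.thr 39 35 (.thr 55 7 (.dbl 51 27 59))))))) (.rp 3 (.thr 22 20 (.thr 42 0 (.thr 47 32 (.thr 31 15 (.thr 19 27 (.thr 25 28 (.thr 29 17 (.thr 12 46 (.thr 51 38 (.dbl 59 8 55)))))))))) (.rp 0 (.thr 22 20 (.thr 3 43 (.thr 60 41 (.thr 62 61 (.thr 42 2 (.thr 47 32 (.thr 15 31 (.dbl 7 11 52)))))))) .nd))))))))))) (.rp 3 (.thr 22 20 (.str 55 (.nv (.dbl 7 39 52) (.rp 52 (.thr 39 7 (.dbl 38 4 36)) (.rp 39 (.str 63 (.nv (.thr 38 4 (.thr 51 59 (.thr 12 25 (.thr 42 0 (.dbl 46 29 34))))) (.nv (.thr 38 4 (.thr 42 0 (.thr 51 59 (.thr 54 6 (.thr 60 57 (.dbl 62 2 61)))))) (.nv (.thr 0 42 (.thr 51 59 (.thr 17 34 (.thr 25 29 (.dbl 38 4 12))))) (.rp 59 (.thr 38 4 (.thr 54 6 (.thr 42 0 (.thr 46 34 (.thr 12 29 (.thr 51 25 (.thr 60 57 (.dbl 62 2 61))))))))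 (.rp 51 (.thr 38 4 (.thr 6 54 (.thr 42 0 (.thr 2 62 (.thr 14 10 (.thr 47 32 (.thr 15 31 (.thr 12 13 (.dbl 46 29 34))))))))) (.rp 42 (.thr 52 7 (.thr 38 4 (.thr 51 59 (.thr 25 12 (.thr 49 13 (.thr 48 50 (.thr 60 56 (.dbl 54 6 57)))))))) (.rp 38 (.thr 59 51 (.thr 42 0 (.thr 47 32 (.thr 25 8 (.thr 19 28 (.dbl 31 15 27)))))) (.rp 12 (.thr 4 38 (.thr 42 0 (.thr 59 51 (.thr 25 8 (.thr 19 28 (.thr 47 32 (.dbl 31 15 27))))))) (.rp 4 (.thr 51 59 (.thr 0 42 (.thr 17 34 (.thr 25 29 (.thr 19 28 (.thr 16 18 (.thr 48 32 (.dbl 49 13 50)))))))) (.rp 0 (.thr 38 4 (.thr 54 6 (.thr 51 59 (.thr 12 25 (.thr 46 29 (.thr 60 57 (.thr 42 34 (.dbl 62 2 61)))))))) .nd))))))))))) (.rp 7 (.str 63 (.nv (.thr 42 0 (.thr 47 32 (.thr 15 31 (.thr 51 59 (.thr 39 27 (.dbl 38 4 36)))))) (.nv (.thr 0 42 (.thr 51 59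 (.thr 17 34 (.thr 25 29 (.dbl 38 4 12))))) (.rp 59 (.thr 38 4 (.thr 36 39 (.thr 42 0 (.thr 32 47 (.thr 34 46 (.thr 35 33 (.dbl 44 40 41))))))) (.rp 51 (.thr 38 4 (.thr 36 39 (.thr 42 0 (.thr 32 47 (.thr 34 46 (.thr 35 33 (.dbl 44 40 41))))))) (.rp 42 (.thr 38 4 (.thr 51 59 (.thr 25 12 (.thr 19 28 (.thr 27 31 (.dbl 39 15 36)))))) (.rp 38 (.thr 59 51 (.thr 42 0 (.thr 47 32 (.thr 25 8 (.thr 19 28 (.dbl 31 15 27)))))) (.rp 25 (.thr 38 4 (.thr 51 59 (.thr 42 0 (.thr 47 32 (.thr 15 31 (.dbl 39 27 36)))))) (.rp 15 (.str 11 (.nv (.thr 59 51 (.thr 27 43 (.thr 19 31 (.thr 25 28 (.dbl 42 0 8))))) (.nv (.thr 0 42 (.thr 51 59 (.thr 17 34 (.thr 25 29 (.dbl 38 4 12))))) (.rp 59 (.thr 38 4 (.thr 36 39 (.thr 42 0 (.thr 34 46 (.thr 32 47 (.thr 35 33 (.dbl 44 40 41))))))) (.rp 51 (.thr 38 4 (.thr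 42 0 (.thr 34 46 (.thr 32 47 (.thr 35 33 (.thr 44 41 (.dbl 36 39 40))))))) (.rp 42 (.thr 38 4 (.thr 51 59 (.thr 25 12 (.thr 29 17 (.thr 13 49 (.thr 61 45 (.thr 60 62 (.dbl 54 6 57)))))))) (.rp 29 (.thr 59 51 (.thr 27 43 (.thr 19 31 (.thr 42 0 (.dbl 25 8 28))))) (.rp 25 (.thr 38 4 (.thr 36 39 (.thr 42 0 (.thr 34 46 (.thr 32 47 (.thr 35 33 (.dbl 44 40 41))))))) (.rp 8 (.thr 38 4 (.thr 51 59 (.thr 12 25 (.thr 42 0 (.dbl 46 29 34))))) (.rp 0 (.thr 38 4 (.thr 51 59 (.thr 12 25 (.thr 46 29 (.thr 42 34 (.thr 47 32 (.thr 44 45 (.thr 60 28 (.dbl 62 2 61))))))))) .nd)))))))))) (.rp 11 (.str 15 (.nv (.thr 38 4 (.thr 51 59 (.dbl 39 27 36))) (.nv (.thr 47 31 (.dbl 42 0 32)) (.rp 56 (.str 41 (.nv (.thr 38 4 (.thr 51 59 (.dbl 39 27 36))) (.nv (.thr 47 31 (.dbl 42 0 32)) .nd))) (.rp 41 (.str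 56 (.nv (.thr 38 4 (.thr 51 59 (.dbl 39 27 36))) (.nv (.thr 47 31 (.dbl 42 0 32)) .nd))) .nd))))) (.rp 4 (.thr 51 59 (.thr 0 42 (.thr 17 34 (.thr 25 29 (.thr 19 28 (.thr 16 18 (.thr 48 32 (.dbl 49 13 50)))))))) (.rp 0 (.thr 38 4 (.thr 51 59 (.thr 12 25 (.thr 46 29 (.thr 42 34 (.thr 47 32 (.thr 15 31 (.dbl 39 27 36)))))))) .nd)))))))))))) .nd)))))) (.rp 2 (.str 63 (.nv (.thr 3 43 (.thr 22 20 (.thr 7 52 (.thr 15 11 (.thr 31 47 (.thr 27 19 (.dbl 39 51 55))))))) (.nv (.thr 0 42 (.thr 22 20 (.thr 7 52 (.thr 55 39 (.thr 51 59 (.thr 17 34 (.thr 25 29 (.dbl 38 4 12)))))))) (.nv (.thr 3 43 (.thr 22 20 (.thr 42 0 (.thr 47 32 (.thr 15 31 (.dbl 7 11 52)))))) (.rp 52 (.thr 22 20 (.thr 3 43 (.thr 41 60 (.thr 61 1 (.thr 45 33 (.thr 29 13 (.thr 12 46 (.thr 9 6 (.dbl 25 17 57))))))))) (.rp 22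 (.thr 3 43 (.thr 42 0 (.thr 47 32 (.thr 31 15 (.thr 19 27 (.thr 51 35 (.thr 59 55 (.thr 25 8 (.thr 29 17 (.dbl 12 38 46)))))))))) (.rp 20 (.thr 3 43 (.thr 42 0 (.thr 47 32 (.thr 31 15 (.thr 19 27 (.thr 51 35 (.thr 59 55 (.thr 25 8 (.thr 29 17 (.dbl 28 22 30)))))))))) (.rp 7 (.thr 22 20 (.thr 3 43 (.thr 41 60 (.thr 61 1 (.thr 45 33 (.thr 29 13 (.thr 12 46 (.thr 9 6 (.dbl 25 17 57))))))))) .nd)))))))) (.rp 1 (.str 63 (.nv (.thr 3 43 (.thr 22 20 (.thr 7 52 (.thr 15 11 (.thr 31 47 (.thr 27 19 (.dbl 39 51 55))))))) (.nv (.thr 22 20 (.thr 42 0 (.thr 62 2 (.thr 3 43 (.dbl 60 41 61))))) (.rp 43 (.thr 22 20 (.thr 7 52 (.thr 55 39 (.thr 51 59 (.thr 0 42 (.thr 17 34 (.thr 25 29 (.dbl 38 4 12)))))))) (.rp 41 (.thr 22 20 (.thr 7 52 (.thr 3 43 (.thr 42 0 (.thr 47 32 (.dbl 15 11 31)))))) (.rp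 22 (.thr 3 43 (.thr 42 0 (.thr 47 32 (.thr 31 15 (.thr 19 27 (.thr 51 35 (.thr 59 55 (.thr 25 8 (.thr 29 17 (.dbl 12 38 46)))))))))) (.rp 20 (.thr 3 43 (.thr 42 0 (.thr 47 32 (.thr 15 31 (.thr 7 11 (.thr 22 52 (.thr 62 2 (.dbl 60 41 61)))))))) (.rp 3 (.thr 22 20 (.thr 7 52 (.thr 55 39 (.thr 51 59 (.thr 0 42 (.thr 17 34 (.thr 25 29 (.dbl 38 4 12)))))))) .nd)))))))) (.rp 0 (.str 55 (.nv (.thr 38 4 (.dbl 39 7 36)) (.nv (.thr 7 39 (.dbl 22 20 52)) (.rp 39 (.str 63 (.nv (.thr 22 20 (.thr 38 4 (.thr 6 54 (.thr 51 59 (.thr 12 25 (.dbl 3 9 43)))))) (.nv (.thr 3 43 (.thr 22 20 (.thr 7 52 (.thr 60 41 (.thr 62 61 (.thr 42 2 (.thr 47 32 (.dbl 15 11 31)))))))) (.nv (.thr 38 4 (.thr 51 59 (.thr 3 43 (.thr 35 19 (.thr 41 44 (.dbl 22 20 60)))))) (.rp 60 (.thr 38 4 (.thr 51 59 (.thr 12 25 (.thr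 3 43 (.thr 6 9 (.dbl 22 20 54)))))) (.rp 43 (.thr 22 20 (.thr 38 4 (.thr 54 6 (.thr 51 59 (.thr 60 57 (.thr 61 62 (.dbl 41 1 3))))))) (.rp 22 (.thr 38 4 (.thr 51 59 (.thr 12 25 (.thr 46 29 (.thr 3 43 (.thr 42 34 (.thr 47 32 (.thr 31 15 (.dbl 19 27 35))))))))) (.rp 20 (.thr 38 4 (.thr 51 59 (.thr 3 43 (.thr 35 19 (.thr 41 44 (.thr 61 1 (.dbl 60 22 62))))))) (.rp 4 (.thr 22 20 (.thr 3 43 (.thr 60 41 (.thr 62 61 (.thr 42 2 (.thr 47 32 (.thr 15 31 (.dbl 7 11 52)))))))) (.rp 3 (.thr 22 20 (.thr 38 4 (.thr 54 6 (.thr 51 59 (.thr 12 25 (.thr 46 29 (.thr 60 57 (.thr 42 34 (.dbl 62 2 61))))))))) .nd)))))))))) (.rp 7 (.str 63 (.nv (.thr 3 43 (.thr 22 20 (.thr 51 59 (.thr 19 35 (.thr 25 28 (.thr 12 38 (.dbl 29 17 46))))))) (.nv (.thr 3 43 (.thr 22 20 (.thr 38 4 (.thr 6 54 (.thr 12 9 (.thr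 25 51 (.dbl 29 17 46))))))) (.nv (.thr 3 43 (.thr 51 59 (.thr 19 35 (.thr 27 31 (.thr 39 15 (.dbl 38 4 36)))))) (.rp 51 (.thr 22 20 (.thr 38 4 (.thr 36 39 (.thr 6 54 (.thr 3 43 (.thr 12 9 (.thr 48 24 (.thr 33 18 (.dbl 41 45 60))))))))) (.rp 43 (.thr 22 20 (.thr 38 4 (.thr 6 54 (.thr 51 59 (.thr 12 25 (.thr 3 9 (.thr 35 19 (.dbl 41 44 60)))))))) (.rp 38 (.thr 22 20 (.thr 51 59 (.thr 3 43 (.thr 19 35 (.thr 25 28 (.thr 29 17 (.thr 12 46 (.thr 9 6 (.dbl 41 57 60))))))))) (.rp 3 (.thr 38 4 (.thr 39 36 (.thr 51 59 (.thr 12 25 (.thr 46 29 (.thr 42 34 (.thr 47 32 (.dbl 15 27 31)))))))) .nd)))))))) .nd))))) .nd))))))))))))))))))))))))))))))))))))))))))))))))))))))))))))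

theorem w555 : WinAt (137441050624, 9007199321849856) :=
  chF (K := [(137453633536, 9011597369409536)]) (kc w543 kn) c555 137441050624 9007199321849856 53
    [] (by decide +kernel) (by decide +kernel)

/-- A certificate. -/
noncomputable def c556 : Ct := (.str 49 (.nv (.thr 13 25 (.thr 61 57 (.thr 41 1 (.dbl 45 29 33)))) (.nv (.thr 25 13 (.thr 17 29 (.thr 1 33 (.dbl 61 41 57)))) (.rp 61 (.thr 25 13 (.thr 29 17 (.str 12 (.nv (.thr 38 51 (.thr 4 55 (.thr 0 8 (.dbl 63 42 46)))) (.nv (.thr 63 46 (.thr 48 58 (.dbl 51 38 50))) (.rp 63 (.str 60 (.nv (.thr 38 51 (.thr 36 39 (.thr 48 24 (.thr 52 56 (.dbl 4 20 55))))) (.nv (.thr 28 44 (.thr 22 19 (.thr 20 23 (.thr 0 40 (.thr 4 8 (.dbl 52 7 36)))))) (.nv (.thr 44 28 (.thr 38 51 (.thr 41 35 (.thr 9 57 (.dbl 3 6 22))))) (.rp 9 (.str 1 (.nv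 (.thr 28 44 (.thr 22 19 (.thr 30 31 (.thr 41 3 (.dbl 45 15 33))))) (.nv (.thr 38 51 (.thr 36 39 (.thr 48 24 (.thr 52 56 (.dbl 4 20 55))))) (.nv (.thr 28 44 (.thr 22 19 (.thr 7 52 (.thr 23 20 (.thr 55 39 (.dbl 38 4 51)))))) (.rp 51 (.thr 28 44 (.thr 22 19 (.thr 3 41 (.thr 0 2 (.dbl 20 23 40))))) .nd))))) (.rp 1 (.str 9 (.nv (.thr 38 51 (.thr 41 57 (.dbl 44 28 35))) (.nv (.thr 41 57 (.dbl 3 6 22)) (.rp 57 (.thr 28 44 (.thr 3 6 (.dbl 22 19 41))) (.rp 41 (.thr 44 28 (.thr 38 51 (.thr 36 39 (.thr 40 32 (.thr 0 20 (.dbl 4 8 55)))))) .nd))))) (.rp 0 (.thr 28 44 (.thr 30 31 (.thr 22 19 (.thr 41 3 (.dbl 45 15 33))))) .nd))))))) (.rp 51 (.thr 63 46 (.thr 48 58 (.thr 36 24 (.thr 38 39 (.thr 4 55 (.dbl 0 8 42)))))) (.rp 46 (.thr 38 51 (.thr 4 55 (.thr 0 8 (.thr 63 42 (.thr 36 39 (.dbl 48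 24 58)))))) (.rp 42 (.thr 63 46 (.thr 38 51 (.thr 36 39 (.dbl 48 24 58)))) (.rp 38 (.thr 63 46 (.thr 48 58 (.thr 42 0 (.thr 59 8 (.dbl 51 50 55))))) (.rp 9 (.str 1 (.nv (.thr 38 51 (.thr 4 55 (.thr 63 46 (.dbl 0 8 42)))) (.nv (.thr 63 46 (.thr 48 58 (.dbl 51 38 50))) (.rp 63 (.str 60 (.nv (.thr 28 44 (.thr 22 19 (.thr 30 31 (.thr 41 3 (.dbl 45 15 33))))) (.nv (.thr 38 51 (.thr 36 39 (.thr 48 24 (.thr 52 56 (.dbl 4 20 55))))) (.nv (.thr 28 44 (.thr 22 19 (.thr 7 52 (.thr 23 20 (.thr 55 39 (.dbl 38 4 51)))))) (.rp 51 (.thr 28 44 (.thr 22 19 (.thr 3 41 (.thr 0 2 (.dbl 20 23 40))))) .nd))))) (.rp 51 (.thr 63 46 (.thr 48 58 (.thr 36 24 (.thr 38 39 (.thr 4 55 (.dbl 0 8 42)))))) (.rp 46 (.thr 38 51 (.thr 4 55 (.thr 0 8 (.thr 63 42 (.thr 36 39 (.dbl 48 24 58)))))) (.rp 42 (.thr 63 46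 (.thr 38 51 (.thr 36 39 (.dbl 48 24 58)))) (.rp 38 (.thr 63 46 (.thr 48 58 (.thr 42 0 (.thr 59 8 (.dbl 51 50 55))))) .nd)))))))) (.rp 1 (.str 9 (.nv (.thr 3 6 (.thr 38 51 (.thr 41 57 (.thr 60 22 (.dbl 44 28 35))))) (.nv (.thr 63 46 (.thr 48 58 (.dbl 51 38 50))) (.rp 51 (.thr 3 6 (.thr 63 46 (.thr 23 43 (.thr 22 20 (.dbl 41 57 60))))) (.rp 38 (.thr 57 41 (.thr 63 46 (.thr 58 48 (.thr 42 0 (.dbl 59 8 56))))) .nd))))) .nd)))))))))))) (.rp 57 (.thr 25 13 (.thr 17 29 (.thr 1 33 (.str 51 (.nv (.thr 61 41 (.thr 0 34 (.thr 48 50 (.dbl 63 42 58)))) (.nv (.thr 0 34 (.thr 38 12 (.thr 55 4 (.dbl 63 42 59)))) (.nv (.thr 38 12 (.thr 48 50 (.thr 55 4 (.dbl 63 58 59)))) (.nv (.thr 0 34 (.thr 63 42 (.dbl 48 50 58))) (.rp 63 (.thr 48 50 (.thr 0 34 (.thr 32 16 (.thr 42 47 (.thr 8 59 (.dbl 12 4 38))))))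 (.rp 61 (.str 45 (.nv (.thr 0 34 (.thr 38 12 (.thr 55 4 (.dbl 63 42 59)))) (.nv (.thr 38 12 (.thr 48 50 (.thr 55 4 (.dbl 63 58 59)))) (.nv (.thr 0 34 (.thr 63 42 (.dbl 48 50 58))) (.rp 63 (.thr 48 50 (.thr 0 34 (.thr 32 16 (.thr 42 47 (.thr 8 59 (.dbl 12 4 38)))))) (.rp 46 (.thr 48 50 (.thr 0 34 (.dbl 63 42 58))) (.rp 38 (.thr 0 34 (.thr 42 63 (.thr 32 47 (.dbl 48 16 50)))) (.rp 0 (.thr 48 50 (.thr 38 12 (.thr 39 36 (.thr 15 27 (.thr 60 30 (.thr 52 56 (.thr 22 7 (.thr 41 3 (.thr 35 44 (.thr 47 43 (.dbl 63 31 58))))))))))) .nd)))))))) (.rp 38 (.thr 0 34 (.thr 42 63 (.thr 32 47 (.dbl 48 16 50)))) (.rp 0 (.thr 61 41 (.thr 48 50 (.thr 63 58 (.thr 62 60 (.thr 38 12 (.dbl 55 4 59)))))) .nd)))))))))))) (.rp 45 (.thr 61 57 (.thr 1 41 (.thr 17 33 (.dbl 25 13 29)))) (.rp 41 (.str 0 (.nv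 (.thr 25 13 (.thr 17 29 (.thr 51 34 (.thr 48 50 (.thr 16 32 (.thr 18 19 (.dbl 33 1 3))))))) (.nv (.thr 42 63 (.thr 32 47 (.thr 48 16 (.thr 51 50 (.thr 17 34 (.dbl 25 13 29)))))) (.nv (.thr 25 13 (.thr 17 29 (.thr 51 34 (.thr 42 63 (.thr 8 59 (.dbl 12 4 38)))))) (.rp 56 (.str 11 (.nv (.thr 25 13 (.thr 17 29 (.thr 51 34 (.thr 48 50 (.thr 16 32 (.thr 18 19 (.dbl 33 1 3))))))) (.nv (.thr 25 13 (.thr 17 29 (.thr 34 51 (.thr 42 63 (.thr 32 47 (.dbl 33 1 35)))))) (.nv (.thr 42 63 (.thr 32 47 (.thr 48 16 (.thr 51 50 (.thr 17 34 (.dbl 25 13 29)))))) (.nv (.thr 63 42 (.thr 25 13 (.thr 17 29 (.thr 51 34 (.dbl 48 50 58))))) (.rp 51 (.thr 63 42 (.thr 25 13 (.thr 17 29 (.thr 1 33 (.thr 3 2 (.thr 7 15 (.thr 22 52 (.dbl 23 20 43)))))))) (.rp 34 (.thr 63 42 (.thr 25 13 (.thr 29 17 (.thr 12 46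 (.thr 38 51 (.dbl 4 8 55)))))) (.rp 29 (.thr 42 63 (.thr 32 47 (.thr 48 16 (.thr 51 50 (.thr 34 17 (.thr 25 13 (.dbl 38 12 46))))))) (.rp 25 (.thr 42 63 (.thr 32 47 (.thr 48 16 (.thr 51 50 (.thr 34 17 (.thr 38 46 (.thr 4 55 (.thr 36 39 (.dbl 12 8 24))))))))) (.rp 17 (.thr 42 63 (.thr 32 47 (.thr 48 16 (.thr 51 50 (.thr 25 13 (.thr 8 59 (.dbl 12 4 38))))))) (.rp 13 (.thr 42 63 (.thr 32 47 (.thr 48 16 (.thr 51 50 (.thr 34 17 (.thr 38 46 (.thr 4 55 (.dbl 12 8 25)))))))) .nd))))))))))) (.rp 51 (.thr 25 13 (.thr 29 17 (.thr 63 42 (.thr 12 46 (.thr 4 8 (.thr 38 55 (.thr 36 39 (.dbl 48 24 58)))))))) (.rp 38 (.thr 25 13 (.thr 17 29 (.thr 51 34 (.thr 42 63 (.thr 32 47 (.dbl 48 16 50)))))) (.rp 34 (.thr 25 13 (.thr 29 17 (.thr 63 42 (.thr 12 46 (.thr 38 51 (.dbl 4 8 55)))))) (.rp 29 (.thr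 25 13 (.thr 42 63 (.thr 32 47 (.thr 48 16 (.thr 51 50 (.thr 34 17 (.dbl 38 12 46))))))) (.rp 25 (.thr 42 63 (.thr 32 47 (.thr 48 16 (.thr 51 50 (.thr 34 17 (.thr 38 46 (.thr 4 55 (.thr 12 8 (.dbl 36 24 39))))))))) (.rp 17 (.thr 25 13 (.thr 42 63 (.thr 32 47 (.thr 48 16 (.thr 51 50 (.thr 8 59 (.dbl 12 4 38))))))) (.rp 13 (.thr 42 63 (.thr 32 47 (.thr 48 16 (.thr 51 50 (.thr 17 34 (.thr 25 29 (.thr 8 59 (.dbl 12 4 38)))))))) (.rp 11 (.str 56 (.nv (.thr 25 13 (.thr 17 29 (.thr 51 34 (.thr 48 50 (.dbl 63 42 58))))) (.nv (.thr 57 61 (.thr 58 59 (.dbl 63 42 48))) (.rp 63 (.thr 25 13 (.thr 17 29 (.thr 51 34 (.thr 48 50 (.thr 16 32 (.thr 18 19 (.dbl 33 1 3))))))) (.rp 61 (.thr 25 13 (.thr 29 17 (.thr 63 42 (.thr 12 46 (.thr 4 8 (.dbl 38 51 55)))))) (.rp 58 (.thr 25 13 (.thr 17 29 (.thr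 34 51 (.thr 42 63 (.thr 32 47 (.dbl 33 1 35)))))) (.rp 48 (.thr 57 61 (.thr 25 13 (.thr 59 58 (.dbl 42 8 63)))) (.rp 42 (.thr 57 61 (.thr 25 13 (.thr 58 59 (.thr 48 63 (.thr 51 50 (.dbl 17 29 34)))))) .nd)))))))) .nd))))))))))))) (.rp 33 (.str 0 (.nv (.thr 25 13 (.thr 17 29 (.thr 42 63 (.thr 8 59 (.thr 12 4 (.dbl 51 34 38)))))) (.nv (.thr 63 42 (.thr 61 57 (.thr 60 62 (.thr 20 40 (.thr 22 23 (.dbl 41 1 3)))))) (.nv (.thr 25 13 (.thr 29 17 (.thr 63 42 (.thr 12 46 (.thr 4 8 (.dbl 38 51 55)))))) (.rp 63 (.thr 25 13 (.thr 17 29 (.thr 51 34 (.thr 12 38 (.thr 8 4 (.thr 42 59 (.thr 32 47 (.dbl 48 16 50)))))))) (.rp 42 (.thr 25 13 (.thr 17 29 (.thr 51 34 (.thr 38 12 (.thr 55 4 (.thr 63 59 (.dbl 48 50 58))))))) (.rp 1 (.thr 42 63 (.thr 32 47 (.thr 48 16 (.thr 51 50 (.thr 17 34 (.dbl 25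 13 29)))))) .nd))))))) (.rp 29 (.str 0 (.nv (.thr 25 13 (.thr 42 63 (.thr 8 59 (.thr 12 4 (.thr 32 47 (.thr 48 16 (.dbl 51 38 50))))))) (.nv (.thr 63 42 (.thr 61 57 (.thr 60 62 (.thr 20 40 (.thr 22 23 (.dbl 41 1 3)))))) (.rp 63 (.thr 25 13 (.thr 61 57 (.thr 1 41 (.thr 17 33 (.thr 51 34 (.thr 12 38 (.thr 8 4 (.thr 42 59 (.thr 32 47 (.dbl 48 16 50)))))))))) (.rp 61 (.thr 42 63 (.thr 32 47 (.thr 48 16 (.thr 51 50 (.thr 34 17 (.thr 38 46 (.thr 12 25 (.dbl 36 24 39)))))))) (.rp 50 (.thr 61 57 (.thr 1 41 (.thr 33 17 (.thr 3 2 (.thr 63 42 (.dbl 48 18 58)))))) (.rp 42 (.thr 25 13 (.thr 61 57 (.thr 1 41 (.thr 17 33 (.thr 51 34 (.thr 38 12 (.thr 55 4 (.thr 63 59 (.dbl 48 50 58))))))))) (.rp 1 (.thr 61 57 (.thr 63 42 (.thr 60 62 (.thr 20 40 (.thr 22 23 (.thr 52 7 (.dbl 48 56 58))))))) .nd))))))))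 (.rp 25 (.thr 61 57 (.thr 41 1 (.thr 45 33 (.thr 13 29 (.str 60 (.nv (.thr 3 22 (.thr 63 62 (.thr 42 0 (.dbl 43 23 40)))) (.nv (.thr 63 62 (.thr 42 0 (.thr 47 32 (.dbl 15 30 31)))) (.nv (.thr 22 3 (.thr 20 23 (.thr 0 40 (.dbl 63 42 62)))) (.rp 63 (.thr 15 30 (.thr 12 14 (.thr 28 44 (.thr 22 3 (.thr 52 7 (.thr 48 56 (.thr 24 36 (.dbl 20 16 23)))))))) (.rp 62 (.thr 22 3 (.thr 52 7 (.thr 48 56 (.thr 20 23 (.thr 0 40 (.dbl 63 42 58)))))) (.rp 42 (.thr 63 62 (.thr 22 3 (.thr 52 7 (.dbl 48 56 58)))) (.rp 27 (.str 24 (.nv (.thr 63 62 (.thr 48 58 (.thr 50 51 (.thr 12 36 (.dbl 15 14 30))))) (.nv (.thr 22 3 (.thr 20 23 (.thr 0 40 (.dbl 63 42 62)))) (.nv (.thr 15 30 (.thr 12 14 (.thr 36 48 (.thr 38 39 (.dbl 44 28 35))))) (.nv (.thr 63 62 (.thr 42 0 (.thr 43 40 (.dbl 3 22 23)))) (.rp 62 (.thr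 15 30 (.thr 22 3 (.thr 52 7 (.thr 48 56 (.dbl 12 14 36))))) .nd)))))) (.rp 24 (.str 27 (.nv (.thr 63 62 (.thr 42 0 (.thr 47 32 (.dbl 15 30 31)))) (.nv (.thr 15 30 (.thr 39 51 (.thr 12 14 (.thr 38 36 (.dbl 44 28 35))))) (.nv (.thr 22 3 (.thr 20 23 (.thr 63 62 (.dbl 0 40 42)))) (.rp 62 (.thr 15 30 (.thr 51 39 (.thr 22 3 (.thr 52 7 (.dbl 48 50 56))))) .nd))))) (.rp 3 (.thr 63 62 (.thr 0 42 (.thr 20 40 (.thr 22 23 (.thr 52 7 (.dbl 48 56 58)))))) (.rp 0 (.thr 63 62 (.thr 3 22 (.thr 43 23 (.thr 42 40 (.thr 47 32 (.dbl 15 30 31)))))) .nd))))))))))))))) (.rp 13 (.str 0 (.nv (.thr 42 63 (.thr 61 57 (.thr 1 41 (.thr 17 33 (.thr 25 29 (.thr 51 34 (.thr 12 38 (.dbl 8 4 59)))))))) (.nv (.thr 42 63 (.thr 32 47 (.thr 48 16 (.thr 51 50 (.thr 34 17 (.thr 38 46 (.thr 4 55 (.dbl 12 8 25))))))))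 (.nv (.thr 63 42 (.thr 58 48 (.thr 61 57 (.thr 60 62 (.thr 20 40 (.thr 22 23 (.dbl 41 1 3))))))) (.rp 63 (.thr 61 57 (.thr 1 41 (.thr 17 33 (.thr 25 29 (.thr 51 34 (.thr 12 38 (.thr 8 4 (.thr 42 59 (.thr 32 47 (.dbl 48 16 50)))))))))) (.rp 42 (.thr 61 57 (.thr 1 41 (.thr 17 33 (.thr 25 29 (.thr 51 34 (.thr 38 12 (.thr 55 4 (.thr 63 59 (.dbl 48 50 58))))))))) (.rp 9 (.str 1 (.nv (.dbl 61 41 57) (.rp 61 (.thr 17 33 (.thr 51 34 (.thr 48 50 (.dbl 63 42 58)))) (.rp 57 (.thr 33 17 (.dbl 41 45 61)) (.rp 41 (.thr 17 33 (.thr 51 34 (.thr 48 50 (.dbl 63 42 58)))) .nd))))) (.rp 1 (.str 9 (.nv (.thr 42 63 (.thr 57 61 (.thr 25 41 (.thr 8 59 (.thr 12 4 (.thr 51 38 (.dbl 17 29 34))))))) (.nv (.thr 63 42 (.thr 61 57 (.thr 60 62 (.thr 20 40 (.thr 22 23 (.thr 52 7 (.dbl 48 56 58))))))) (.nv (.thr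 42 63 (.thr 32 47 (.thr 48 16 (.thr 51 50 (.thr 34 17 (.thr 38 46 (.thr 12 25 (.dbl 36 24 39)))))))) (.nv (.thr 57 61 (.thr 63 42 (.thr 58 48 (.thr 59 56 (.thr 51 55 (.thr 17 34 (.dbl 25 29 41))))))) (.rp 63 (.str 25 (.nv (.dbl 57 41 61) (.rp 61 (.thr 41 57 (.thr 17 29 (.thr 45 33 (.thr 51 34 (.thr 48 50 (.thr 32 16 (.thr 42 47 (.thr 8 59 (.dbl 12 4 38))))))))) (.rp 57 (.thr 17 29 (.thr 51 34 (.thr 48 50 (.thr 32 16 (.thr 42 47 (.thr 8 59 (.dbl 12 4 38))))))) (.rp 41 (.thr 17 29 (.thr 51 34 (.thr 48 50 (.thr 32 16 (.thr 42 47 (.thr 8 59 (.dbl 12 4 38))))))) .nd))))) (.rp 42 (.str 38 (.nv (.thr 4 55 (.thr 12 8 (.thr 36 39 (.thr 48 24 (.dbl 51 25 50))))) (.nv (.thr 57 61 (.thr 25 41 (.thr 51 12 (.dbl 17 29 34)))) (.nv (.thr 4 55 (.thr 12 8 (.thr 25 51 (.dbl 57 41 61)))) (.rp 58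 (.str 10 (.nv (.thr 57 61 (.thr 25 41 (.thr 51 12 (.dbl 17 29 34)))) (.nv (.thr 4 55 (.dbl 8 11 12)) (.rp 62 (.str 50 (.nv (.thr 51 48 (.thr 17 34 (.dbl 25 12 29))) (.nv (.thr 4 55 (.dbl 8 11 12)) (.rp 22 (.str 2 (.nv (.thr 8 11 (.dbl 4 12 55)) (.nv (.thr 51 48 (.dbl 34 17 18)) (.rp 30 (.thr 18 34 (.thr 4 55 (.dbl 8 11 12))) (.rp 18 (.str 30 (.nv (.thr 6 14 (.thr 12 3 (.dbl 51 25 48))) (.nv (.thr 4 55 (.dbl 8 11 12)) (.rp 12 (.thr 57 61 (.thr 25 41 (.thr 51 48 (.dbl 17 29 34)))) .nd)))) .nd))))) (.rp 12 (.thr 51 48 (.thr 17 34 (.thr 25 29 (.dbl 57 41 61)))) (.rp 2 (.str 22 (.nv (.thr 51 48 (.thr 17 34 (.dbl 25 12 29))) (.nv (.thr 4 55 (.dbl 8 11 12)) (.rp 12 (.thr 20 23 (.thr 36 39 (.dbl 4 52 55))) .nd)))) .nd)))))) (.rp 50 (.str 62 (.nv (.thr 57 61 (.thr 25 41 (.thr 51 12 (.dbl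 17 29 34)))) (.nv (.thr 4 55 (.dbl 8 11 12)) (.rp 12 (.thr 61 57 (.thr 60 63 (.thr 20 40 (.thr 4 55 (.dbl 36 39 52))))) (.rp 11 (.thr 57 61 (.thr 4 55 (.thr 12 8 (.dbl 25 41 51)))) .nd))))) (.rp 12 (.thr 36 39 (.thr 4 55 (.thr 20 52 (.thr 40 60 (.thr 44 32 (.thr 41 35 (.dbl 57 25 61))))))) (.rp 11 (.thr 4 55 (.thr 12 8 (.thr 25 51 (.dbl 57 41 61)))) .nd))))))) (.rp 51 (.thr 36 39 (.thr 4 55 (.thr 20 52 (.thr 12 8 (.thr 3 6 (.thr 60 40 (.dbl 22 23 41))))))) (.rp 25 (.thr 36 39 (.thr 4 55 (.thr 20 52 (.thr 40 60 (.thr 32 44 (.thr 48 16 (.dbl 12 8 24))))))) (.rp 12 (.thr 36 39 (.thr 4 55 (.thr 20 52 (.thr 40 60 (.thr 44 32 (.thr 41 35 (.dbl 57 25 61))))))) (.rp 10 (.str 58 (.nv (.thr 55 4 (.thr 57 61 (.thr 59 56 (.dbl 63 48 51)))) (.nv (.thr 57 61 (.thr 25 41 (.thr 51 12 (.dbl 17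 29 34)))) (.nv (.thr 4 55 (.thr 48 63 (.thr 51 50 (.dbl 12 8 25)))) (.rp 51 (.thr 4 55 (.thr 12 8 (.thr 36 39 (.dbl 48 24 63)))) .nd))))) .nd))))))))) .nd))))))) .nd)))))))) (.rp 1 (.str 42 (.nv (.thr 13 25 (.thr 61 57 (.thr 29 45 (.thr 63 0 (.thr 12 46 (.thr 15 14 (.dbl 47 31 32))))))) (.nv (.thr 0 63 (.thr 32 47 (.thr 48 16 (.thr 51 50 (.thr 34 17 (.thr 38 46 (.dbl 25 12 13))))))) (.nv (.thr 57 61 (.thr 63 0 (.thr 58 48 (.thr 59 56 (.dbl 25 8 13))))) (.rp 63 (.thr 61 57 (.thr 47 32 (.thr 13 25 (.thr 45 29 (.thr 41 33 (.thr 43 40 (.thr 35 39 (.dbl 44 38 46)))))))) (.rp 32 (.thr 57 61 (.thr 63 0 (.thr 25 13 (.thr 9 41 (.thr 59 8 (.dbl 58 48 56)))))) (.rp 25 (.thr 61 57 (.thr 47 32 (.thr 63 0 (.thr 60 62 (.thr 15 31 (.thr 45 30 (.thr 46 44 (.dbl 29 12 13)))))))) (.rp 15 (.thr 57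 61 (.thr 0 63 (.thr 25 13 (.thr 9 41 (.thr 8 59 (.thr 12 4 (.thr 51 38 (.dbl 17 29 34)))))))) (.rp 13 (.str 9 (.nv (.thr 57 61 (.thr 25 41 (.thr 59 8 (.thr 63 0 (.dbl 58 48 56))))) (.nv (.thr 47 32 (.thr 57 61 (.thr 41 25 (.thr 43 40 (.thr 35 39 (.thr 45 33 (.dbl 44 38 46))))))) (.rp 61 (.thr 0 63 (.thr 32 47 (.thr 48 16 (.thr 51 50 (.thr 34 17 (.thr 38 46 (.thr 4 55 (.dbl 12 8 25)))))))) (.rp 57 (.thr 0 63 (.thr 32 47 (.thr 48 16 (.thr 51 50 (.thr 17 34 (.thr 25 29 (.thr 8 59 (.dbl 12 4 38)))))))) (.rp 45 (.thr 61 57 (.thr 63 0 (.thr 48 58 (.thr 51 50 (.thr 62 60 (.thr 59 55 (.thr 25 8 (.thr 29 17 (.dbl 12 38 46))))))))) (.rp 41 (.thr 0 63 (.thr 32 47 (.thr 48 16 (.thr 51 50 (.thr 17 34 (.thr 25 29 (.thr 8 59 (.dbl 12 4 38)))))))) (.rp 29 (.thr 0 63 (.thr 32 47 (.thr 48 16 (.thr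 51 50 (.thr 34 17 (.thr 38 46 (.thr 12 25 (.dbl 4 8 55)))))))) (.rp 25 (.thr 61 57 (.thr 63 0 (.thr 47 32 (.thr 15 31 (.thr 60 62 (.thr 45 30 (.thr 41 33 (.thr 43 40 (.dbl 3 22 23))))))))) .nd))))))))) (.rp 9 (.thr 13 25 (.thr 47 32 (.thr 63 0 (.thr 15 31 (.thr 12 14 (.thr 29 46 (.dbl 61 45 57))))))) (.rp 0 (.thr 61 57 (.thr 47 32 (.thr 13 25 (.thr 45 29 (.thr 41 33 (.thr 43 40 (.thr 35 39 (.dbl 44 38 46)))))))) .nd))))))))))) .nd))))))))))))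

theorem w556 : WinAt (9007336695791616, 18014398576590880) :=
  chF (K := []) kn c556 9007336695791616 18014398576590880 5
    [] (by decide +kernel) (by decide +kernel)

/-- A certificate. -/
noncomputable def c557 : Ct := (.str 61 (.nv (.thr 49 57 (.thr 13 25 (.thr 41 1 (.dbl 45 29 33)))) (.nv (.thr 49 57 (.thr 25 13 (.thr 17 29 (.dbl 1 33 41)))) (.rp 57 (.str 63 (.nv (.thr 0 42 (.thr 60 62 (.thr 20 40 (.thr 22 23 (.dbl 41 1 3))))) (.nv (.thr 41 1 (.thr 33 45 (.thr 60 62 (.thr 3 22 (.dbl 48 18 58))))) (.nv (.thr 41 1 (.thr 42 0 (.thr 45 33 (.thr 47 32 (.thr 46 44 (.dbl 29 12 13)))))) (.nv (.thr 0 42 (.thr 41 1 (.thr 60 62 (.thr 22 3 (.dbl 20 23 40))))) (.rp 42 (.thr 41 1 (.thr 60 62 (.thr 22 3 (.thr 52 7 (.dbl 48 56 58))))) (.rp 41 (.thr 60 62 (.thr 42 0 (.thr 47 32 (.thr 15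 31 (.thr 45 30 (.thr 29 13 (.dbl 46 12 44))))))) (.rp 3 (.thr 41 1 (.thr 45 33 (.thr 60 62 (.thr 15 30 (.thr 47 31 (.dbl 42 0 32)))))) (.rp 1 (.thr 60 62 (.thr 42 0 (.thr 47 32 (.thr 15 31 (.thr 45 30 (.thr 46 44 (.dbl 29 12 13))))))) .nd))))))))) (.rp 49 (.str 63 (.nv (.thr 48 58 (.thr 60 62 (.thr 52 56 (.thr 22 7 (.dbl 41 1 3))))) (.nv (.thr 41 1 (.thr 33 45 (.thr 42 0 (.thr 32 47 (.thr 35 34 (.thr 40 43 (.dbl 44 36 38))))))) (.nv (.thr 41 1 (.thr 33 45 (.thr 60 62 (.thr 3 22 (.dbl 48 18 58))))) (.rp 42 (.thr 41 1 (.thr 60 62 (.thr 22 3 (.thr 52 7 (.dbl 48 56 58))))) (.rp 41 (.thr 60 62 (.thr 42 0 (.thr 47 32 (.thr 15 31 (.thr 45 30 (.thr 29 13 (.dbl 46 12 44))))))) (.rp 3 (.thr 60 62 (.thr 42 0 (.thr 47 32 (.thr 15 31 (.thr 45 30 (.dbl 41 1 33)))))) (.rp 1 (.thr 60 62 (.thr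 48 58 (.thr 52 56 (.thr 22 7 (.thr 23 20 (.dbl 3 41 43)))))) .nd)))))))) (.rp 41 (.str 63 (.nv (.thr 49 57 (.thr 25 13 (.thr 29 17 (.thr 12 46 (.thr 38 51 (.thr 36 39 (.dbl 48 24 58))))))) (.nv (.thr 48 58 (.thr 49 57 (.thr 25 13 (.thr 17 29 (.thr 51 50 (.dbl 0 34 42)))))) (.nv (.thr 42 0 (.thr 47 32 (.thr 15 31 (.thr 60 62 (.thr 45 30 (.thr 46 44 (.dbl 29 12 13))))))) (.nv (.thr 49 57 (.thr 25 13 (.thr 29 17 (.thr 12 46 (.thr 48 58 (.dbl 51 38 50)))))) (.rp 56 (.str 11 (.nv (.thr 49 57 (.thr 25 13 (.thr 29 17 (.thr 12 46 (.thr 51 38 (.dbl 48 50 58)))))) (.nv (.thr 42 0 (.thr 47 32 (.thr 15 31 (.thr 7 3 (.thr 22 52 (.dbl 62 2 60)))))) (.rp 48 (.thr 49 57 (.thr 25 13 (.thr 42 0 (.thr 59 8 (.thr 43 27 (.thr 23 3 (.thr 22 20 (.dbl 62 2 60)))))))) (.rp 42 (.thr 49 57 (.thr 25 13 (.thr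 29 17 (.thr 12 46 (.thr 38 51 (.thr 36 39 (.dbl 48 24 58))))))) (.rp 1 (.thr 49 57 (.thr 60 62 (.thr 42 0 (.thr 47 32 (.thr 15 31 (.thr 45 30 (.dbl 13 25 29))))))) .nd)))))) (.rp 48 (.thr 49 57 (.thr 25 13 (.thr 29 17 (.thr 60 62 (.thr 12 46 (.thr 28 44 (.thr 22 19 (.thr 20 23 (.dbl 0 40 42))))))))) (.rp 38 (.thr 49 57 (.thr 60 62 (.thr 42 0 (.thr 47 32 (.thr 15 31 (.thr 45 30 (.dbl 13 25 29))))))) (.rp 29 (.thr 49 57 (.thr 25 13 (.thr 48 58 (.thr 51 50 (.thr 38 12 (.thr 39 36 (.thr 15 27 (.thr 47 31 (.dbl 42 0 32))))))))) (.rp 13 (.thr 49 57 (.thr 48 58 (.thr 51 50 (.thr 42 0 (.thr 47 32 (.thr 15 31 (.thr 39 27 (.thr 38 36 (.thr 46 34 (.dbl 12 25 29)))))))))) (.rp 11 (.str 56 (.nv (.thr 57 49 (.dbl 58 48 59)) (.nv (.thr 60 62 (.dbl 48 52 58)) (.rp 58 (.thr 60 62 (.thr 48 52 (.thr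 49 57 (.thr 25 13 (.thr 29 17 (.thr 12 46 (.dbl 51 38 50))))))) (.rp 48 (.thr 60 62 (.thr 57 49 (.thr 59 58 (.thr 42 0 (.thr 25 8 (.thr 29 17 (.thr 12 46 (.dbl 51 38 54)))))))) .nd))))) .nd))))))))))) (.rp 33 (.str 63 (.nv (.thr 49 57 (.thr 25 13 (.thr 29 17 (.thr 12 46 (.thr 51 38 (.dbl 48 50 58)))))) (.nv (.thr 0 42 (.thr 60 62 (.thr 20 40 (.thr 22 23 (.dbl 41 1 3))))) (.rp 58 (.thr 41 1 (.thr 60 62 (.thr 3 22 (.thr 43 23 (.dbl 42 0 40))))) (.rp 42 (.thr 41 1 (.thr 60 62 (.thr 22 3 (.thr 52 7 (.dbl 48 56 58))))) (.rp 1 (.thr 60 62 (.thr 48 58 (.thr 52 56 (.thr 22 7 (.thr 23 20 (.dbl 3 41 43)))))) .nd)))))) (.rp 29 (.str 63 (.nv (.thr 41 1 (.thr 33 45 (.thr 60 62 (.thr 3 22 (.dbl 48 18 58))))) (.nv (.thr 0 42 (.thr 1 41 (.thr 49 57 (.thr 17 33 (.thr 51 34 (.dbl 48 50 58))))))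 (.nv (.thr 0 42 (.thr 41 1 (.thr 60 62 (.thr 22 3 (.dbl 20 23 40))))) (.rp 58 (.thr 41 1 (.thr 60 62 (.thr 3 22 (.thr 43 23 (.dbl 42 0 40))))) (.rp 42 (.thr 41 1 (.thr 60 62 (.thr 22 3 (.thr 52 7 (.dbl 48 56 58))))) (.rp 41 (.thr 49 57 (.thr 25 13 (.thr 48 58 (.thr 51 50 (.thr 38 12 (.thr 39 36 (.thr 15 27 (.thr 47 31 (.dbl 42 0 32))))))))) (.rp 9 (.thr 60 62 (.thr 48 58 (.thr 52 56 (.thr 22 7 (.dbl 41 1 3))))) (.rp 1 (.thr 60 62 (.thr 48 58 (.thr 52 56 (.thr 22 7 (.thr 23 20 (.dbl 3 41 43)))))) .nd))))))))) (.rp 25 (.thr 41 1 (.thr 45 33 (.thr 13 29 (.thr 49 57 (.str 63 (.nv (.thr 0 42 (.thr 60 62 (.thr 22 3 (.dbl 20 23 40)))) (.nv (.thr 60 62 (.thr 22 3 (.thr 52 7 (.dbl 48 56 58)))) (.nv (.thr 42 0 (.thr 47 32 (.thr 44 46 (.thr 35 38 (.dbl 43 39 40))))) (.nv (.thr 42 0 (.thr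 43 40 (.thr 60 62 (.dbl 3 22 23)))) (.rp 27 (.str 24 (.nv (.thr 60 62 (.thr 3 22 (.thr 43 23 (.dbl 42 0 40)))) (.nv (.thr 48 58 (.thr 12 36 (.thr 60 62 (.dbl 15 14 30)))) (.nv (.thr 48 58 (.thr 12 36 (.thr 15 14 (.thr 47 31 (.dbl 42 0 32))))) (.nv (.thr 42 0 (.thr 43 40 (.thr 60 62 (.dbl 3 22 23)))) (.rp 42 (.thr 60 62 (.thr 22 3 (.thr 52 7 (.dbl 48 56 58)))) .nd)))))) (.rp 24 (.str 27 (.nv (.thr 42 0 (.thr 47 32 (.thr 15 31 (.thr 48 58 (.dbl 51 39 50))))) (.nv (.thr 60 62 (.thr 15 30 (.thr 51 39 (.dbl 48 50 58)))) (.nv (.thr 42 0 (.thr 43 40 (.thr 60 62 (.dbl 3 22 23)))) (.rp 15 (.thr 60 62 (.thr 3 22 (.thr 43 23 (.dbl 42 0 40)))) .nd))))) (.rp 3 (.thr 62 60 (.thr 42 0 (.thr 2 22 (.thr 47 32 (.thr 15 31 (.thr 14 12 (.dbl 46 30 44))))))) (.rp 0 (.thr 60 62 (.thr 3 22 (.thr 43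 23 (.thr 42 40 (.thr 47 32 (.dbl 15 30 31)))))) .nd))))))))))))) (.rp 13 (.str 63 (.nv (.thr 1 41 (.thr 48 58 (.thr 49 57 (.thr 17 33 (.thr 51 50 (.dbl 0 34 42)))))) (.nv (.thr 0 42 (.thr 60 62 (.thr 20 40 (.thr 22 23 (.dbl 41 1 3))))) (.rp 62 (.thr 49 57 (.thr 1 41 (.thr 17 33 (.thr 0 42 (.thr 51 34 (.dbl 48 50 58)))))) (.rp 58 (.thr 60 62 (.thr 42 0 (.thr 47 32 (.thr 15 31 (.thr 45 30 (.dbl 41 1 33)))))) (.rp 42 (.thr 57 49 (.thr 41 1 (.thr 9 25 (.thr 60 62 (.thr 22 3 (.thr 52 7 (.dbl 48 56 58))))))) (.rp 41 (.thr 49 57 (.thr 48 58 (.thr 51 50 (.thr 42 0 (.thr 47 32 (.thr 15 31 (.thr 39 27 (.thr 38 36 (.thr 46 34 (.dbl 12 25 29)))))))))) (.rp 10 (.thr 60 62 (.thr 58 48 (.thr 0 42 (.thr 20 40 (.thr 22 23 (.dbl 41 1 3)))))) (.rp 9 (.thr 1 41 (.thr 57 49 (.thr 60 62 (.thr 51 54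 (.thr 42 0 (.thr 47 32 (.thr 15 31 (.thr 39 27 (.thr 38 36 (.thr 45 30 (.dbl 46 34 44))))))))))) (.rp 1 (.str 9 (.nv (.thr 57 49 (.thr 25 41 (.thr 42 0 (.thr 59 8 (.dbl 58 48 56))))) (.nv (.thr 48 58 (.thr 60 62 (.thr 52 56 (.thr 22 7 (.thr 23 20 (.dbl 3 41 43)))))) (.nv (.thr 0 42 (.thr 60 62 (.thr 20 40 (.thr 22 23 (.thr 41 3 (.dbl 57 25 49)))))) (.nv (.thr 57 49 (.thr 25 41 (.thr 17 29 (.thr 60 62 (.thr 51 54 (.dbl 0 34 42)))))) (.rp 58 (.thr 57 49 (.thr 41 25 (.thr 60 62 (.thr 3 22 (.thr 43 23 (.dbl 42 0 40)))))) (.rp 57 (.thr 60 62 (.thr 42 0 (.thr 47 32 (.thr 15 31 (.thr 45 30 (.thr 41 33 (.thr 43 40 (.dbl 3 22 23)))))))) (.rp 42 (.thr 57 49 (.thr 25 41 (.thr 60 62 (.thr 51 54 (.thr 12 38 (.dbl 29 17 46)))))) (.rp 41 (.thr 49 57 (.thr 48 58 (.thr 51 50 (.thr 42 0 (.thr 47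 32 (.thr 15 31 (.thr 39 27 (.thr 38 36 (.thr 46 34 (.dbl 12 25 29)))))))))) .nd))))))))) (.rp 0 (.thr 60 62 (.thr 48 58 (.thr 52 56 (.thr 22 7 (.dbl 41 1 3))))) .nd))))))))))) (.rp 1 (.thr 49 57 (.thr 13 25 (.thr 45 29 (.thr 41 33 (.str 63 (.nv (.thr 0 42 (.thr 60 62 (.thr 22 3 (.dbl 20 23 40)))) (.nv (.thr 60 62 (.thr 22 3 (.thr 52 7 (.dbl 48 56 58)))) (.nv (.thr 42 0 (.thr 47 32 (.thr 44 46 (.thr 35 38 (.dbl 43 39 40))))) (.nv (.thr 42 0 (.thr 43 40 (.thr 60 62 (.dbl 3 22 23)))) (.rp 27 (.str 24 (.nv (.thr 60 62 (.thr 3 22 (.thr 43 23 (.dbl 42 0 40)))) (.nv (.thr 48 58 (.thr 12 36 (.thr 60 62 (.dbl 15 14 30)))) (.nv (.thr 48 58 (.thr 12 36 (.thr 15 14 (.thr 47 31 (.dbl 42 0 32))))) (.nv (.thr 42 0 (.thr 43 40 (.thr 60 62 (.dbl 3 22 23)))) (.rp 42 (.thr 60 62 (.thr 22 3 (.thr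 52 7 (.dbl 48 56 58)))) .nd)))))) (.rp 24 (.str 27 (.nv (.thr 42 0 (.thr 47 32 (.thr 15 31 (.thr 48 58 (.dbl 51 39 50))))) (.nv (.thr 60 62 (.thr 15 30 (.thr 51 39 (.dbl 48 50 58)))) (.nv (.thr 42 0 (.thr 43 40 (.thr 60 62 (.dbl 3 22 23)))) (.rp 15 (.thr 60 62 (.thr 3 22 (.thr 43 23 (.dbl 42 0 40)))) .nd))))) (.rp 3 (.thr 62 60 (.thr 42 0 (.thr 2 22 (.thr 47 32 (.thr 15 31 (.thr 14 12 (.dbl 46 30 44))))))) (.rp 0 (.thr 60 62 (.thr 3 22 (.thr 43 23 (.thr 42 40 (.thr 47 32 (.dbl 15 30 31)))))) .nd))))))))))))) .nd)))))))))))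

theorem w557 : WinAt (9007336695791616, 36028797086072864) :=
  chF (K := []) kn c557 9007336695791616 36028797086072864 5
    [] (by decide +kernel) (by decide +kernel)

/-- A certificate. -/
noncomputable def c558 : Ct := (.str 22 (.nv (.thr 20 23 (.thr 53 5 (.thr 52 7 (.thr 55 54 (.dbl 4 36 38))))) (.rp 55 (.str 41 (.nv (.thr 20 23 (.thr 60 3 (.thr 0 40 (.thr 61 1 (.dbl 63 42 62))))) (.nv (.thr 45 33 (.thr 53 5 (.thr 61 1 (.thr 13 29 (.dbl 49 25 57))))) (.rp 61 (.thr 53 5 (.thr 23 20 (.thr 3 60 (.thr 33 45 (.thr 48 18 (.dbl 63 43 58)))))) (.rp 1 (.thr 53 5 (.thr 23 20 (.thr 3 60 (.thr 33 45 (.thr 48 18 (.dbl 63 43 58)))))) .nd))))) (.rp 54 (.thr 23 20 (.thr 5 53 (.thr 7 52 (.thr 55 39 (.dbl 4 6 38))))) (.rp 53 (.thr 23 20 (.str 3 (.nv (.thr 7 52 (.thr 63 43 (.thr 42 0 (.thr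 47 32 (.dbl 15 11 31))))) (.nv (.thr 63 43 (.thr 42 0 (.thr 62 2 (.dbl 60 41 61)))) (.rp 63 (.thr 7 52 (.thr 55 39 (.thr 4 38 (.thr 6 5 (.thr 12 9 (.thr 0 8 (.thr 1 2 (.dbl 41 60 61)))))))) (.rp 60 (.thr 63 43 (.thr 0 42 (.thr 1 2 (.thr 41 61 (.thr 33 45 (.thr 48 18 (.thr 32 16 (.thr 34 35 (.dbl 17 49 51))))))))) (.rp 43 (.thr 41 60 (.thr 1 61 (.thr 0 2 (.thr 33 45 (.thr 48 18 (.thr 32 16 (.dbl 42 47 63))))))) (.rp 42 (.thr 7 52 (.thr 55 39 (.thr 4 38 (.thr 6 5 (.thr 12 9 (.thr 0 8 (.thr 1 2 (.dbl 41 60 61)))))))) (.rp 41 (.str 11 (.nv (.dbl 7 15 52) (.rp 52 (.thr 15 7 (.thr 63 43 (.thr 42 0 (.dbl 47 31 32)))) (.rp 15 (.thr 7 52 (.thr 55 39 (.thr 4 38 (.thr 6 5 (.thr 12 9 (.thr 0 8 (.dbl 63 42 43))))))) (.rp 7 (.thr 43 63 (.thr 27 59 (.thr 19 31 (.thr 51 35 (.thr 25 28 (.thr 38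 12 (.dbl 39 15 36))))))) .nd))))) (.rp 40 (.thr 63 43 (.thr 0 42 (.thr 41 60 (.dbl 1 2 61)))) (.rp 11 (.thr 41 60 (.thr 63 43 (.thr 0 42 (.dbl 1 2 61)))) (.rp 0 (.thr 7 52 (.thr 55 39 (.thr 4 38 (.thr 6 5 (.thr 12 9 (.thr 63 43 (.thr 29 46 (.thr 25 17 (.thr 19 28 (.dbl 51 35 59)))))))))) .nd)))))))))))) (.rp 52 (.thr 20 23 (.thr 53 5 (.str 41 (.nv (.thr 60 3 (.thr 0 40 (.thr 63 42 (.dbl 61 1 62)))) (.nv (.thr 45 33 (.thr 61 1 (.thr 13 29 (.dbl 49 25 57)))) (.rp 61 (.thr 33 45 (.thr 3 60 (.thr 48 18 (.thr 63 58 (.thr 42 0 (.thr 40 43 (.thr 32 47 (.thr 35 34 (.dbl 44 36 38))))))))) (.rp 60 (.str 48 (.nv (.thr 1 61 (.thr 33 45 (.thr 3 18 (.thr 0 2 (.dbl 63 42 58))))) (.nv (.thr 45 33 (.thr 61 1 (.thr 13 29 (.dbl 49 25 57)))) (.rp 61 (.thr 33 45 (.thr 18 3 (.thr 63 58 (.thr 42 0 (.thr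 2 62 (.thr 32 47 (.dbl 34 35 50))))))) (.rp 45 (.thr 61 1 (.thr 49 57 (.thr 51 50 (.thr 63 58 (.thr 59 55 (.thr 42 0 (.dbl 25 8 13))))))) (.rp 33 (.thr 61 1 (.thr 49 57 (.thr 51 50 (.thr 63 58 (.thr 59 55 (.thr 42 0 (.dbl 25 8 13))))))) (.rp 29 (.thr 61 1 (.thr 49 57 (.thr 51 50 (.thr 33 45 (.thr 3 18 (.thr 19 35 (.dbl 25 13 28))))))) (.rp 13 (.thr 33 45 (.thr 18 3 (.thr 63 58 (.thr 42 0 (.thr 2 62 (.thr 32 47 (.dbl 34 35 50))))))) (.rp 1 (.thr 33 45 (.thr 18 3 (.thr 63 58 (.thr 42 0 (.thr 2 62 (.thr 32 47 (.dbl 34 35 50))))))) .nd))))))))) (.rp 1 (.thr 60 3 (.thr 0 40 (.thr 45 33 (.thr 63 42 (.thr 61 62 (.thr 49 57 (.dbl 13 25 29))))))) .nd)))))))) (.rp 41 .ext (.rp 38 (.thr 23 20 (.thr 53 5 (.str 41 (.nv (.thr 1 61 (.thr 3 60 (.thr 0 2 (.dbl 63 42 43)))) (.nv (.thr 33 45 (.thr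 3 60 (.thr 48 18 (.dbl 63 43 58)))) (.nv (.thr 45 33 (.thr 61 1 (.thr 13 29 (.dbl 49 25 57)))) (.rp 50 (.str 14 (.nv (.thr 1 61 (.thr 3 60 (.thr 0 2 (.dbl 63 42 43)))) (.nv (.thr 33 45 (.thr 3 60 (.thr 48 18 (.dbl 63 43 58)))) (.nv (.thr 45 33 (.thr 61 1 (.thr 13 29 (.dbl 49 25 57)))) .nd)))) (.rp 14 (.str 50 (.nv (.thr 3 60 (.thr 52 7 (.thr 54 55 (.thr 58 62 (.dbl 63 43 48))))) (.nv (.thr 45 33 (.thr 61 1 (.thr 13 29 (.dbl 49 25 57)))) .nd))) .nd)))))))) (.rp 36 (.thr 23 20 (.thr 5 53 (.thr 7 52 (.thr 4 6 (.dbl 55 38 39))))) (.rp 23 (.str 41 (.nv (.thr 1 61 (.thr 3 60 (.thr 0 2 (.thr 33 45 (.thr 48 18 (.thr 32 16 (.dbl 42 47 63))))))) (.nv (.thr 1 61 (.thr 3 60 (.thr 0 2 (.thr 5 53 (.thr 15 10 (.dbl 7 11 52)))))) (.nv (.thr 33 45 (.thr 1 61 (.thr 49 17 (.thr 5 53 (.dbl 13 9 25)))))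 (.rp 61 (.thr 5 53 (.thr 60 3 (.thr 45 33 (.thr 15 30 (.thr 0 10 (.thr 40 20 (.dbl 42 43 63))))))) (.rp 1 (.thr 5 53 (.thr 60 3 (.thr 45 33 (.thr 15 30 (.thr 0 10 (.thr 40 20 (.dbl 42 43 63))))))) .nd)))))) (.rp 20 (.str 41 (.nv (.thr 1 61 (.thr 3 60 (.thr 0 2 (.thr 33 45 (.thr 48 18 (.thr 32 16 (.dbl 42 47 63))))))) (.nv (.thr 1 61 (.thr 3 60 (.thr 0 2 (.thr 5 53 (.thr 15 10 (.dbl 7 11 52)))))) (.nv (.thr 5 53 (.thr 33 45 (.thr 1 61 (.thr 49 17 (.dbl 13 9 25))))) (.rp 61 (.thr 53 5 (.thr 33 45 (.thr 3 60 (.thr 48 18 (.thr 63 58 (.thr 43 23 (.dbl 42 0 40))))))) (.rp 1 (.thr 53 5 (.thr 33 45 (.thr 3 60 (.thr 48 18 (.thr 63 58 (.thr 43 23 (.dbl 42 0 40))))))) .nd)))))) (.rp 11 (.str 41 (.nv (.thr 1 61 (.thr 3 60 (.thr 0 2 (.thr 23 20 (.dbl 63 42 43))))) (.nv (.thr 20 23 (.thr 52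 7 (.thr 4 36 (.thr 53 5 (.dbl 55 38 54))))) (.nv (.thr 33 45 (.thr 1 61 (.thr 49 17 (.thr 5 53 (.dbl 13 9 25))))) .nd)))) (.rp 7 (.str 41 (.nv (.thr 3 60 (.thr 23 20 (.thr 33 45 (.thr 48 18 (.thr 53 5 (.dbl 63 43 58)))))) (.nv (.thr 20 23 (.thr 60 3 (.thr 0 40 (.thr 61 1 (.dbl 63 42 62))))) (.nv (.thr 33 45 (.thr 1 61 (.thr 49 17 (.thr 5 53 (.dbl 13 9 25))))) .nd)))) (.rp 6 (.thr 20 23 (.thr 53 5 (.thr 52 7 (.thr 4 36 (.dbl 55 38 54))))) (.rp 5 (.thr 20 23 (.str 41 (.nv (.thr 60 3 (.thr 0 40 (.thr 63 42 (.dbl 61 1 62)))) (.nv (.thr 61 1 (.thr 60 3 (.thr 63 62 (.dbl 0 40 42)))) (.rp 63 (.thr 45 33 (.thr 61 1 (.thr 13 29 (.thr 49 25 (.thr 53 57 (.thr 52 7 (.thr 4 36 (.dbl 55 38 54)))))))) (.rp 62 (.thr 33 45 (.thr 1 61 (.thr 17 49 (.thr 60 3 (.thr 0 40 (.thr 51 34 (.thr 57 54 (.dbl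 25 9 29)))))))) (.rp 61 (.thr 60 3 (.thr 0 40 (.thr 52 7 (.thr 4 36 (.thr 55 38 (.thr 54 53 (.thr 63 42 (.dbl 51 57 59)))))))) (.rp 60 (.thr 45 33 (.thr 61 1 (.thr 13 29 (.thr 49 25 (.thr 53 57 (.thr 52 7 (.thr 4 36 (.dbl 55 38 54)))))))) (.rp 42 (.thr 33 45 (.thr 1 61 (.thr 17 49 (.thr 60 3 (.thr 0 40 (.thr 51 34 (.thr 57 54 (.dbl 25 9 29)))))))) (.rp 40 (.thr 33 45 (.thr 1 61 (.thr 3 60 (.thr 0 2 (.thr 48 18 (.thr 32 16 (.dbl 42 47 63))))))) (.rp 3 (.thr 45 33 (.thr 61 1 (.thr 13 29 (.thr 49 25 (.thr 53 57 (.thr 52 7 (.thr 4 36 (.dbl 55 38 54)))))))) (.rp 1 (.thr 60 3 (.thr 0 40 (.thr 52 7 (.thr 4 36 (.thr 55 38 (.thr 54 53 (.thr 51 57 (.dbl 63 42 59)))))))) (.rp 0 (.thr 33 45 (.thr 1 61 (.thr 49 17 (.thr 3 60 (.thr 48 18 (.thr 51 50 (.thr 19 35 (.dbl 25 13 28)))))))) .nd)))))))))))))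 (.rp 4 (.str 41 (.nv (.thr 20 23 (.thr 60 3 (.thr 0 40 (.thr 61 1 (.dbl 63 42 62))))) (.nv (.thr 5 53 (.thr 33 45 (.thr 1 61 (.thr 49 17 (.dbl 13 9 25))))) (.rp 61 (.thr 5 53 (.thr 45 33 (.thr 60 3 (.thr 20 23 (.thr 0 40 (.dbl 15 10 30)))))) (.rp 1 (.thr 5 53 (.thr 45 33 (.thr 60 3 (.thr 20 23 (.thr 0 40 (.dbl 15 10 30)))))) .nd))))) .nd))))))))))))))))

theorem w558 : WinAt (137441050624, 72057594105036800) :=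
  chF (K := [(137445244928, 72059793128292352)]) (kc w540 kn) c558 137441050624 72057594105036800 56
    [72059793128294400] (by decide +kernel) (by decide +kernel)

/-- A certificate. -/
noncomputable def c559 : Ct := (.str 52 (.nv (.thr 7 22 (.thr 55 54 (.thr 38 4 (.dbl 39 23 36)))) (.nv (.thr 22 7 (.thr 20 23 (.thr 4 36 (.dbl 55 38 54)))) (.rp 55 (.thr 22 7 (.thr 23 20 (.str 3 (.nv (.thr 41 60 (.thr 1 61 (.thr 0 2 (.dbl 63 42 43)))) (.nv (.thr 63 43 (.thr 48 58 (.dbl 60 41 56))) (.rp 63 (.str 51 (.nv (.thr 41 60 (.thr 33 45 (.thr 48 18 (.thr 49 50 (.dbl 1 17 61))))) (.nv (.thr 19 35 (.thr 25 28 (.thr 17 29 (.thr 0 34 (.thr 1 2 (.dbl 49 13 33)))))) (.nv (.thr 35 19 (.thr 41 60 (.thr 38 44 (.thr 6 54 (.dbl 12 9 25))))) (.rp 6 (.str 4 (.nv (.thr 41 60 (.thr 33 45 (.thr 48 18 (.thr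 49 50 (.dbl 1 17 61))))) (.nv (.thr 19 35 (.thr 25 28 (.thr 27 31 (.thr 38 12 (.dbl 39 15 36))))) (.nv (.thr 19 35 (.thr 25 28 (.thr 13 49 (.thr 29 17 (.thr 61 45 (.dbl 41 1 60)))))) (.rp 60 (.thr 19 35 (.thr 25 28 (.thr 12 38 (.thr 0 8 (.dbl 17 29 34))))) .nd))))) (.rp 4 (.str 6 (.nv (.thr 35 19 (.thr 38 54 (.dbl 41 44 60))) (.nv (.thr 38 54 (.dbl 12 9 25)) (.rp 54 (.thr 19 35 (.thr 12 9 (.dbl 25 28 38))) (.rp 38 (.thr 35 19 (.thr 41 60 (.thr 33 45 (.thr 34 32 (.thr 0 17 (.dbl 1 2 61)))))) .nd))))) (.rp 0 (.thr 19 35 (.thr 27 31 (.thr 25 28 (.thr 38 12 (.dbl 39 15 36))))) .nd))))))) (.rp 60 (.thr 63 43 (.thr 48 58 (.thr 33 18 (.thr 41 45 (.thr 1 61 (.dbl 0 2 42)))))) (.rp 43 (.thr 41 60 (.thr 1 61 (.thr 0 2 (.thr 63 42 (.thr 33 45 (.dbl 48 18 58)))))) (.rp 42 (.thr 63 43 (.thr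 41 60 (.thr 33 45 (.dbl 48 18 58)))) (.rp 41 (.thr 63 43 (.thr 48 58 (.thr 42 0 (.thr 62 2 (.dbl 60 56 61))))) (.rp 6 (.str 4 (.nv (.thr 41 60 (.thr 1 61 (.thr 63 43 (.dbl 0 2 42)))) (.nv (.thr 63 43 (.thr 48 58 (.dbl 60 41 56))) (.rp 63 (.str 51 (.nv (.thr 41 60 (.thr 33 45 (.thr 48 18 (.thr 49 50 (.dbl 1 17 61))))) (.nv (.thr 19 35 (.thr 25 28 (.thr 27 31 (.thr 38 12 (.dbl 39 15 36))))) (.nv (.thr 19 35 (.thr 25 28 (.thr 13 49 (.thr 29 17 (.thr 61 45 (.dbl 41 1 60)))))) (.rp 60 (.thr 19 35 (.thr 25 28 (.thr 12 38 (.thr 0 8 (.dbl 17 29 34))))) .nd))))) (.rp 60 (.thr 63 43 (.thr 48 58 (.thr 33 18 (.thr 41 45 (.thr 1 61 (.dbl 0 2 42)))))) (.rp 43 (.thr 41 60 (.thr 1 61 (.thr 0 2 (.thr 63 42 (.thr 33 45 (.dbl 48 18 58)))))) (.rp 42 (.thr 63 43 (.thr 41 60 (.thr 33 45 (.dbl 48 18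 58)))) (.rp 41 (.thr 63 43 (.thr 48 58 (.thr 42 0 (.thr 62 2 (.dbl 60 56 61))))) .nd)))))))) (.rp 4 (.str 6 (.nv (.thr 12 9 (.thr 38 54 (.thr 41 60 (.thr 51 25 (.dbl 35 19 44))))) (.nv (.thr 63 43 (.thr 48 58 (.dbl 60 41 56))) (.rp 60 (.thr 12 9 (.thr 63 43 (.thr 29 46 (.thr 25 17 (.dbl 38 51 54))))) (.rp 41 (.thr 54 38 (.thr 63 43 (.thr 58 48 (.thr 42 0 (.dbl 62 2 50))))) .nd))))) .nd)))))))))))) (.rp 54 (.thr 22 7 (.thr 20 23 (.thr 4 36 (.str 60 (.nv (.thr 55 38 (.thr 0 40 (.thr 48 56 (.dbl 63 42 58)))) (.nv (.thr 0 40 (.thr 41 3 (.thr 61 1 (.dbl 63 42 62)))) (.nv (.thr 41 3 (.thr 48 56 (.thr 61 1 (.dbl 63 58 62)))) (.nv (.thr 0 40 (.thr 63 42 (.dbl 48 56 58))) (.rp 63 (.thr 48 56 (.thr 0 40 (.thr 32 16 (.thr 42 47 (.thr 2 62 (.dbl 3 1 41)))))) (.rp 55 (.str 39 (.nv (.thr 0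 40 (.thr 41 3 (.thr 61 1 (.dbl 63 42 62)))) (.nv (.thr 41 3 (.thr 48 56 (.thr 61 1 (.dbl 63 58 62)))) (.nv (.thr 0 40 (.thr 63 42 (.dbl 48 56 58))) (.rp 63 (.thr 48 56 (.thr 0 40 (.thr 32 16 (.thr 42 47 (.thr 2 62 (.dbl 3 1 41)))))) (.rp 43 (.thr 48 56 (.thr 0 40 (.dbl 63 42 58))) (.rp 41 (.thr 0 40 (.thr 42 63 (.thr 32 47 (.dbl 48 16 56)))) (.rp 0 (.thr 48 56 (.thr 41 3 (.thr 45 33 (.thr 15 30 (.thr 51 27 (.thr 49 50 (.thr 25 13 (.thr 38 12 (.thr 44 35 (.thr 47 46 (.dbl 63 31 58))))))))))) .nd)))))))) (.rp 41 (.thr 0 40 (.thr 42 63 (.thr 32 47 (.dbl 48 16 56)))) (.rp 0 (.thr 55 38 (.thr 48 56 (.thr 63 58 (.thr 59 51 (.thr 41 3 (.dbl 61 1 62)))))) .nd)))))))))))) (.rp 39 (.thr 55 54 (.thr 4 38 (.thr 20 36 (.dbl 22 7 23)))) (.rp 38 (.str 0 (.nv (.thr 42 63 (.thr 32 47 (.thr 48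 16 (.thr 60 56 (.thr 20 40 (.dbl 22 7 23)))))) (.nv (.thr 22 7 (.thr 20 23 (.thr 60 40 (.thr 42 63 (.thr 2 62 (.dbl 3 1 41)))))) (.rp 63 (.thr 22 7 (.thr 20 23 (.thr 60 40 (.thr 48 56 (.thr 16 32 (.thr 24 28 (.dbl 36 4 12))))))) (.rp 60 (.thr 22 7 (.thr 23 20 (.thr 63 42 (.thr 3 43 (.thr 1 2 (.thr 41 61 (.thr 33 45 (.dbl 48 18 58)))))))) (.rp 50 (.str 14 (.nv (.thr 22 7 (.thr 20 23 (.thr 60 40 (.thr 48 56 (.thr 16 32 (.thr 24 28 (.dbl 36 4 12))))))) (.nv (.thr 22 7 (.thr 20 23 (.thr 40 60 (.thr 42 63 (.thr 32 47 (.dbl 36 4 44)))))) (.nv (.thr 42 63 (.thr 32 47 (.thr 48 16 (.thr 60 56 (.thr 20 40 (.dbl 22 7 23)))))) (.nv (.thr 63 42 (.thr 22 7 (.thr 20 23 (.thr 60 40 (.dbl 48 56 58))))) (.rp 60 (.thr 63 42 (.thr 22 7 (.thr 20 23 (.thr 4 36 (.thr 12 8 (.thr 13 15 (.thr 25 49 (.dbl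 29 17 46)))))))) (.rp 40 (.thr 63 42 (.thr 22 7 (.thr 23 20 (.thr 3 43 (.thr 41 60 (.dbl 1 2 61)))))) (.rp 23 (.thr 42 63 (.thr 32 47 (.thr 48 16 (.thr 60 56 (.thr 40 20 (.thr 22 7 (.dbl 41 3 43))))))) (.rp 22 (.thr 42 63 (.thr 32 47 (.thr 48 16 (.thr 60 56 (.thr 40 20 (.thr 41 43 (.thr 1 61 (.thr 33 45 (.dbl 3 2 18))))))))) (.rp 20 (.thr 42 63 (.thr 32 47 (.thr 48 16 (.thr 60 56 (.thr 22 7 (.thr 2 62 (.dbl 3 1 41))))))) (.rp 7 (.thr 42 63 (.thr 32 47 (.thr 48 16 (.thr 60 56 (.thr 40 20 (.thr 41 43 (.thr 1 61 (.dbl 3 2 22)))))))) .nd))))))))))) (.rp 42 (.thr 22 7 (.thr 20 23 (.thr 60 40 (.thr 41 3 (.thr 61 1 (.thr 63 62 (.dbl 48 56 58))))))) (.rp 41 (.thr 22 7 (.thr 20 23 (.thr 60 40 (.thr 42 63 (.thr 32 47 (.dbl 48 16 56)))))) (.rp 40 (.thr 22 7 (.thr 23 20 (.thr 63 42 (.thr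 3 43 (.thr 41 60 (.dbl 1 2 61)))))) (.rp 23 (.thr 22 7 (.thr 42 63 (.thr 32 47 (.thr 48 16 (.thr 60 56 (.thr 40 20 (.dbl 41 3 43))))))) (.rp 22 (.thr 42 63 (.thr 32 47 (.thr 48 16 (.thr 60 56 (.thr 40 20 (.thr 41 43 (.thr 1 61 (.thr 3 2 (.dbl 33 18 45))))))))) (.rp 20 (.thr 22 7 (.thr 42 63 (.thr 32 47 (.thr 48 16 (.thr 60 56 (.thr 2 62 (.dbl 3 1 41))))))) (.rp 14 (.str 50 (.nv (.thr 22 7 (.thr 20 23 (.thr 60 40 (.thr 48 56 (.dbl 63 42 58))))) (.nv (.thr 54 55 (.thr 58 62 (.dbl 63 42 48))) (.rp 63 (.thr 22 7 (.thr 20 23 (.thr 60 40 (.thr 48 56 (.thr 16 32 (.thr 24 28 (.dbl 36 4 12))))))) (.rp 58 (.thr 22 7 (.thr 20 23 (.thr 40 60 (.thr 42 63 (.thr 32 47 (.dbl 36 4 44)))))) (.rp 55 (.thr 22 7 (.thr 23 20 (.thr 63 42 (.thr 3 43 (.thr 1 2 (.dbl 41 60 61)))))) (.rp 48 (.thr 54 55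 (.thr 22 7 (.thr 62 58 (.dbl 42 2 63)))) (.rp 42 (.thr 54 55 (.thr 22 7 (.thr 58 62 (.thr 48 63 (.thr 60 56 (.dbl 20 23 40)))))) .nd)))))))) (.rp 7 (.thr 42 63 (.thr 32 47 (.thr 48 16 (.thr 60 56 (.thr 20 40 (.thr 22 23 (.thr 2 62 (.dbl 3 1 41)))))))) .nd)))))))))))))) (.rp 36 (.str 0 (.nv (.thr 22 7 (.thr 20 23 (.thr 42 63 (.thr 2 62 (.thr 3 1 (.dbl 60 40 41)))))) (.nv (.thr 63 42 (.thr 55 54 (.thr 51 59 (.thr 17 34 (.thr 25 29 (.dbl 38 4 12)))))) (.nv (.thr 22 7 (.thr 23 20 (.thr 63 42 (.thr 3 43 (.thr 1 2 (.dbl 41 60 61)))))) (.rp 63 (.thr 22 7 (.thr 20 23 (.thr 60 40 (.thr 3 41 (.thr 2 1 (.thr 42 62 (.thr 32 47 (.dbl 48 16 56)))))))) (.rp 42 (.thr 22 7 (.thr 20 23 (.thr 60 40 (.thr 41 3 (.thr 61 1 (.thr 63 62 (.dbl 48 56 58))))))) (.rp 4 (.thr 42 63 (.thr 32 47 (.thr 48 16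 (.thr 60 56 (.thr 20 40 (.dbl 22 7 23)))))) .nd))))))) (.rp 23 (.str 0 (.nv (.thr 22 7 (.thr 42 63 (.thr 2 62 (.thr 3 1 (.thr 32 47 (.thr 48 16 (.dbl 60 41 56))))))) (.nv (.thr 63 42 (.thr 55 54 (.thr 51 59 (.thr 17 34 (.thr 25 29 (.dbl 38 4 12)))))) (.rp 63 (.thr 22 7 (.thr 55 54 (.thr 4 38 (.thr 20 36 (.thr 60 40 (.thr 3 41 (.thr 2 1 (.thr 42 62 (.thr 32 47 (.dbl 48 16 56)))))))))) (.rp 56 (.thr 55 54 (.thr 4 38 (.thr 36 20 (.thr 12 8 (.thr 63 42 (.dbl 48 24 58)))))) (.rp 55 (.thr 42 63 (.thr 32 47 (.thr 48 16 (.thr 60 56 (.thr 40 20 (.thr 41 43 (.thr 3 22 (.dbl 33 18 45)))))))) (.rp 42 (.thr 22 7 (.thr 55 54 (.thr 4 38 (.thr 20 36 (.thr 60 40 (.thr 41 3 (.thr 61 1 (.thr 63 62 (.dbl 48 56 58))))))))) (.rp 4 (.thr 55 54 (.thr 63 42 (.thr 51 59 (.thr 17 34 (.thr 25 29 (.thr 49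 13 (.dbl 48 50 58))))))) .nd)))))))) (.rp 22 (.thr 55 54 (.thr 38 4 (.thr 39 36 (.thr 7 23 (.str 51 (.nv (.thr 12 25 (.thr 63 59 (.thr 42 0 (.dbl 46 29 34)))) (.nv (.thr 63 59 (.thr 42 0 (.thr 47 32 (.dbl 15 27 31)))) (.nv (.thr 25 12 (.thr 17 29 (.thr 0 34 (.dbl 63 42 59)))) (.rp 63 (.thr 15 27 (.thr 3 11 (.thr 19 35 (.thr 25 12 (.thr 49 13 (.thr 48 50 (.thr 18 33 (.dbl 17 16 29)))))))) (.rp 59 (.thr 25 12 (.thr 49 13 (.thr 48 50 (.thr 17 29 (.thr 0 34 (.dbl 63 42 58)))))) (.rp 42 (.thr 63 59 (.thr 25 12 (.thr 49 13 (.dbl 48 50 58)))) (.rp 30 (.str 18 (.nv (.thr 63 59 (.thr 48 58 (.thr 56 60 (.thr 3 33 (.dbl 15 11 27))))) (.nv (.thr 25 12 (.thr 17 29 (.thr 0 34 (.dbl 63 42 59)))) (.nv (.thr 15 27 (.thr 3 11 (.thr 33 48 (.thr 41 45 (.dbl 35 19 44))))) (.nv (.thr 63 59 (.thr 42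 0 (.thr 46 34 (.dbl 12 25 29)))) (.rp 59 (.thr 15 27 (.thr 25 12 (.thr 49 13 (.thr 48 50 (.dbl 3 11 33))))) .nd)))))) (.rp 18 (.str 30 (.nv (.thr 63 59 (.thr 42 0 (.thr 47 32 (.dbl 15 27 31)))) (.nv (.thr 15 27 (.thr 45 60 (.thr 3 11 (.thr 41 33 (.dbl 35 19 44))))) (.nv (.thr 25 12 (.thr 17 29 (.thr 63 59 (.dbl 0 34 42)))) (.rp 59 (.thr 15 27 (.thr 60 45 (.thr 25 12 (.thr 49 13 (.dbl 48 50 56))))) .nd))))) (.rp 12 (.thr 63 59 (.thr 0 42 (.thr 17 34 (.thr 25 29 (.thr 49 13 (.dbl 48 50 58)))))) (.rp 0 (.thr 63 59 (.thr 12 25 (.thr 46 29 (.thr 42 34 (.thr 47 32 (.dbl 15 27 31)))))) .nd))))))))))))))) (.rp 7 (.str 0 (.nv (.thr 42 63 (.thr 55 54 (.thr 4 38 (.thr 20 36 (.thr 22 23 (.thr 60 40 (.thr 3 41 (.dbl 2 1 62)))))))) (.nv (.thr 42 63 (.thr 32 47 (.thr 48 16 (.thr 60 56 (.thr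 40 20 (.thr 41 43 (.thr 1 61 (.dbl 3 2 22)))))))) (.nv (.thr 63 42 (.thr 58 48 (.thr 55 54 (.thr 51 59 (.thr 17 34 (.thr 25 29 (.dbl 38 4 12))))))) (.rp 63 (.thr 55 54 (.thr 4 38 (.thr 20 36 (.thr 22 23 (.thr 60 40 (.thr 3 41 (.thr 2 1 (.thr 42 62 (.thr 32 47 (.dbl 48 16 56)))))))))) (.rp 42 (.thr 55 54 (.thr 4 38 (.thr 20 36 (.thr 22 23 (.thr 60 40 (.thr 41 3 (.thr 61 1 (.thr 63 62 (.dbl 48 56 58))))))))) (.rp 6 (.str 4 (.nv (.dbl 55 38 54) (.rp 55 (.thr 20 36 (.thr 60 40 (.thr 48 56 (.dbl 63 42 58)))) (.rp 54 (.thr 36 20 (.dbl 38 39 55)) (.rp 38 (.thr 20 36 (.thr 60 40 (.thr 48 56 (.dbl 63 42 58)))) .nd))))) (.rp 4 (.str 6 (.nv (.thr 42 63 (.thr 54 55 (.thr 22 38 (.thr 2 62 (.thr 3 1 (.thr 60 41 (.dbl 20 23 40))))))) (.nv (.thr 63 42 (.thr 55 54 (.thr 51 59 (.thr 17 34 (.thr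 25 29 (.thr 49 13 (.dbl 48 50 58))))))) (.nv (.thr 42 63 (.thr 32 47 (.thr 48 16 (.thr 60 56 (.thr 40 20 (.thr 41 43 (.thr 3 22 (.dbl 33 18 45)))))))) (.nv (.thr 54 55 (.thr 63 42 (.thr 58 48 (.thr 62 50 (.thr 60 61 (.thr 20 40 (.dbl 22 23 38))))))) (.rp 63 (.str 22 (.nv (.dbl 54 38 55) (.rp 55 (.thr 38 54 (.thr 20 23 (.thr 39 36 (.thr 60 40 (.thr 48 56 (.thr 32 16 (.thr 42 47 (.thr 2 62 (.dbl 3 1 41))))))))) (.rp 54 (.thr 20 23 (.thr 60 40 (.thr 48 56 (.thr 32 16 (.thr 42 47 (.thr 2 62 (.dbl 3 1 41))))))) (.rp 38 (.thr 20 23 (.thr 60 40 (.thr 48 56 (.thr 32 16 (.thr 42 47 (.thr 2 62 (.dbl 3 1 41))))))) .nd))))) (.rp 42 (.str 41 (.nv (.thr 1 61 (.thr 3 2 (.thr 33 45 (.thr 48 18 (.dbl 60 22 56))))) (.nv (.thr 54 55 (.thr 22 38 (.thr 60 3 (.dbl 20 23 40)))) (.nv (.thr 1 61 (.thr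 3 2 (.thr 22 60 (.dbl 54 38 55)))) (.rp 60 (.thr 33 45 (.thr 1 61 (.thr 17 49 (.thr 3 2 (.thr 12 9 (.thr 51 34 (.dbl 25 29 38))))))) (.rp 58 (.str 10 (.nv (.thr 54 55 (.thr 22 38 (.thr 60 3 (.dbl 20 23 40)))) (.nv (.thr 1 61 (.dbl 2 3 14)) (.rp 59 (.str 56 (.nv (.thr 54 55 (.thr 60 48 (.dbl 22 3 38))) (.nv (.thr 1 61 (.dbl 2 3 14)) (.rp 25 (.str 8 (.nv (.thr 2 14 (.dbl 1 3 61)) (.nv (.thr 60 48 (.dbl 40 20 24)) (.rp 27 (.thr 24 40 (.thr 1 61 (.dbl 2 3 14))) (.rp 24 (.str 27 (.nv (.thr 9 11 (.thr 3 12 (.dbl 60 22 48))) (.nv (.thr 1 61 (.dbl 2 3 14)) (.rp 3 (.thr 54 55 (.thr 22 38 (.thr 60 48 (.dbl 20 23 40)))) .nd)))) .nd))))) (.rp 8 (.str 25 (.nv (.thr 54 55 (.thr 60 48 (.dbl 22 3 38))) (.nv (.thr 1 61 (.dbl 2 3 14)) (.rp 3 (.thr 17 29 (.thr 33 45 (.dbl 1 49 61))) .nd)))) (.rp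 3 (.thr 60 48 (.thr 20 40 (.thr 22 23 (.dbl 54 38 55)))) .nd)))))) (.rp 56 (.str 59 (.nv (.thr 54 55 (.thr 22 38 (.thr 60 3 (.dbl 20 23 40)))) (.nv (.thr 1 61 (.dbl 2 3 14)) (.rp 14 (.thr 54 55 (.thr 1 61 (.thr 3 2 (.dbl 22 38 60)))) (.rp 3 (.thr 55 54 (.thr 51 63 (.thr 17 34 (.thr 1 61 (.dbl 33 45 49))))) .nd))))) (.rp 14 (.thr 1 61 (.thr 3 2 (.thr 22 60 (.dbl 54 38 55)))) (.rp 3 (.thr 33 45 (.thr 1 61 (.thr 17 49 (.thr 34 51 (.thr 35 32 (.thr 38 44 (.dbl 54 22 55))))))) .nd))))))) (.rp 22 (.thr 33 45 (.thr 1 61 (.thr 17 49 (.thr 34 51 (.thr 32 35 (.thr 48 16 (.dbl 3 2 18))))))) (.rp 10 (.str 58 (.nv (.thr 54 55 (.thr 61 1 (.thr 62 50 (.dbl 63 48 60)))) (.nv (.thr 54 55 (.thr 22 38 (.thr 60 3 (.dbl 20 23 40)))) (.nv (.thr 1 61 (.thr 48 63 (.thr 60 56 (.dbl 3 2 22)))) (.rp 60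 (.thr 1 61 (.thr 3 2 (.thr 33 45 (.dbl 48 18 63)))) .nd))))) (.rp 3 (.thr 33 45 (.thr 1 61 (.thr 17 49 (.thr 34 51 (.thr 35 32 (.thr 38 44 (.dbl 54 22 55))))))) .nd))))))))) .nd))))))) .nd)))))))) (.rp 4 (.str 42 (.nv (.thr 7 22 (.thr 55 54 (.thr 23 39 (.thr 63 0 (.thr 3 43 (.thr 15 11 (.dbl 47 31 32))))))) (.nv (.thr 0 63 (.thr 32 47 (.thr 48 16 (.thr 60 56 (.thr 40 20 (.thr 41 43 (.dbl 22 3 7))))))) (.nv (.thr 54 55 (.thr 63 0 (.thr 58 48 (.thr 62 50 (.dbl 22 2 7))))) (.rp 63 (.thr 55 54 (.thr 47 32 (.thr 7 22 (.thr 39 23 (.thr 38 36 (.thr 46 34 (.thr 44 45 (.dbl 35 41 43)))))))) (.rp 32 (.thr 54 55 (.thr 63 0 (.thr 22 7 (.thr 6 38 (.thr 62 2 (.dbl 58 48 50)))))) (.rp 22 (.thr 55 54 (.thr 47 32 (.thr 63 0 (.thr 51 59 (.thr 15 31 (.thr 39 27 (.thr 43 35 (.dbl 23 3 7)))))))) (.rp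 15 (.thr 54 55 (.thr 0 63 (.thr 22 7 (.thr 6 38 (.thr 2 62 (.thr 3 1 (.thr 60 41 (.dbl 20 23 40)))))))) (.rp 7 (.str 6 (.nv (.thr 54 55 (.thr 22 38 (.thr 62 2 (.thr 63 0 (.dbl 58 48 50))))) (.nv (.thr 47 32 (.thr 54 55 (.thr 38 22 (.thr 39 36 (.thr 35 43 (.thr 46 34 (.dbl 44 41 45))))))) (.rp 55 (.thr 0 63 (.thr 32 47 (.thr 48 16 (.thr 60 56 (.thr 40 20 (.thr 41 43 (.thr 1 61 (.dbl 3 2 22)))))))) (.rp 54 (.thr 0 63 (.thr 32 47 (.thr 48 16 (.thr 60 56 (.thr 20 40 (.thr 22 23 (.thr 2 62 (.dbl 3 1 41)))))))) (.rp 39 (.thr 55 54 (.thr 63 0 (.thr 48 58 (.thr 60 56 (.thr 59 51 (.thr 62 61 (.thr 22 2 (.thr 23 20 (.dbl 3 41 43))))))))) (.rp 38 (.thr 0 63 (.thr 32 47 (.thr 48 16 (.thr 60 56 (.thr 20 40 (.thr 22 23 (.thr 2 62 (.dbl 3 1 41)))))))) (.rp 23 (.thr 0 63 (.thr 32 47 (.thr 48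 16 (.thr 60 56 (.thr 40 20 (.thr 41 43 (.thr 3 22 (.dbl 1 2 61)))))))) (.rp 22 (.thr 55 54 (.thr 63 0 (.thr 47 32 (.thr 15 31 (.thr 51 59 (.thr 39 27 (.thr 38 36 (.thr 46 34 (.dbl 12 25 29))))))))) .nd))))))))) (.rp 6 (.thr 7 22 (.thr 47 32 (.thr 63 0 (.thr 15 31 (.thr 3 11 (.thr 23 43 (.dbl 55 39 54))))))) (.rp 0 (.thr 55 54 (.thr 47 32 (.thr 7 22 (.thr 39 23 (.thr 38 36 (.thr 46 34 (.thr 44 45 (.dbl 35 41 43)))))))) .nd))))))))))) .nd))))))))))))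

theorem w559 : WinAt (9007336695791616, 144115188142964768) :=
  chF (K := []) kn c559 9007336695791616 144115188142964768 5
    [] (by decide +kernel) (by decide +kernel)

/-- A certificate. -/
noncomputable def c560 : Ct := (.str 4 (.nv (.thr 5 53 (.thr 7 6 (.thr 38 55 (.thr 52 22 (.dbl 36 20 39))))) (.nv (.thr 53 5 (.thr 55 38 (.thr 52 54 (.thr 22 7 (.dbl 20 23 36))))) (.nv (.thr 5 53 (.thr 7 6 (.thr 22 52 (.thr 23 20 (.dbl 55 38 39))))) (.rp 55 (.str 42 (.nv (.thr 0 63 (.thr 12 8 (.thr 32 47 (.thr 5 53 (.thr 48 16 (.thr 7 6 (.thr 52 22 (.dbl 36 20 24)))))))) (.nv (.thr 32 47 (.thr 0 63 (.thr 48 16 (.thr 12 8 (.thr 36 24 (.thr 38 39 (.thr 34 46 (.dbl 51 17 25)))))))) (.nv (.thr 5 53 (.thr 7 6 (.thr 47 32 (.thr 63 0 (.thr 15 31 (.thr 3 11 (.thr 23 43 (.dbl 22 20 52))))))))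 (.nv (.thr 0 63 (.thr 12 8 (.thr 32 47 (.thr 48 16 (.thr 36 24 (.thr 20 52 (.dbl 40 44 60))))))) (.rp 63 (.thr 53 5 (.thr 47 32 (.str 41 (.nv (.thr 61 1 (.thr 49 57 (.thr 13 25 (.dbl 45 29 33)))) (.nv (.thr 45 33 (.thr 44 46 (.thr 43 40 (.dbl 35 38 39)))) (.rp 59 (.str 51 (.nv (.thr 45 33 (.thr 61 1 (.thr 13 29 (.dbl 49 25 57)))) (.nv (.thr 40 43 (.thr 61 1 (.thr 57 49 (.thr 60 54 (.thr 20 0 (.dbl 22 3 23)))))) (.nv (.thr 45 33 (.thr 44 46 (.thr 43 40 (.dbl 35 38 39)))) (.rp 57 (.str 56 (.nv (.thr 1 61 (.thr 43 40 (.thr 35 39 (.thr 3 19 (.thr 2 0 (.dbl 22 60 62)))))) (.nv (.thr 1 61 (.thr 33 45 (.thr 49 17 (.thr 48 50 (.thr 60 52 (.dbl 3 18 22)))))) (.nv (.thr 45 33 (.thr 44 46 (.thr 43 40 (.dbl 35 38 39)))) .nd)))) (.rp 56 (.str 57 (.nv (.dbl 61 1 49) (.rp 61 (.thr 45 33 (.thr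 44 46 (.thr 35 38 (.dbl 43 39 40)))) (.rp 49 (.thr 45 33 (.thr 44 46 (.thr 35 38 (.dbl 43 39 40)))) (.rp 1 (.thr 49 61 (.dbl 25 9 13)) .nd))))) (.rp 33 (.thr 43 40 (.thr 35 39 (.thr 61 1 (.thr 3 19 (.thr 60 22 (.dbl 57 49 54)))))) .nd))))))) (.rp 51 (.str 59 (.nv (.thr 43 40 (.thr 35 39 (.thr 45 33 (.dbl 44 38 46)))) (.nv (.thr 61 1 (.thr 25 8 (.dbl 57 9 49))) .nd))) (.rp 45 (.thr 43 40 (.thr 39 35 (.thr 36 38 (.thr 52 20 (.thr 22 7 (.thr 60 3 (.thr 48 56 (.thr 12 24 (.thr 8 0 (.thr 28 44 (.dbl 25 19 59))))))))))) (.rp 33 (.thr 43 40 (.thr 61 1 (.thr 35 39 (.thr 44 38 (.thr 45 46 (.thr 49 57 (.dbl 13 25 29))))))) (.rp 29 (.thr 43 40 (.thr 35 39 (.thr 44 38 (.dbl 45 33 46)))) .nd)))))))))) (.rp 59 (.thr 47 32 (.thr 63 0 (.thr 15 31 (.thr 5 53 (.thr 7 6 (.thr 3 11 (.thr 43 23 (.thr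 41 40 (.dbl 22 52 60))))))))) (.rp 48 (.thr 32 47 (.thr 63 0 (.thr 5 53 (.thr 7 6 (.thr 52 22 (.thr 36 20 (.thr 38 39 (.thr 34 46 (.thr 35 33 (.dbl 44 40 41)))))))))) (.rp 47 (.thr 63 0 (.thr 5 53 (.thr 7 6 (.thr 52 22 (.thr 36 20 (.thr 38 39 (.thr 46 34 (.thr 12 29 (.thr 48 24 (.thr 60 56 (.thr 61 62 (.thr 41 1 (.dbl 44 28 35))))))))))))) (.rp 32 (.thr 63 0 (.thr 5 53 (.thr 7 6 (.thr 52 22 (.thr 36 20 (.thr 38 39 (.thr 46 34 (.thr 12 29 (.thr 48 24 (.thr 60 56 (.thr 61 62 (.thr 41 1 (.dbl 44 28 35))))))))))))) (.rp 31 (.thr 32 47 (.thr 5 53 (.thr 7 6 (.thr 52 22 (.thr 36 20 (.thr 38 39 (.thr 34 46 (.thr 44 40 (.dbl 35 33 41))))))))) (.rp 20 (.thr 32 47 (.thr 0 63 (.thr 12 8 (.thr 5 53 (.thr 48 16 (.thr 6 7 (.thr 9 3 (.thr 13 1 (.dbl 15 10 14))))))))) (.rp 16 (.thr 32 47 (.thr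 5 53 (.thr 7 6 (.thr 52 22 (.thr 36 20 (.thr 38 39 (.thr 34 46 (.thr 44 40 (.dbl 35 33 41))))))))) (.rp 15 (.thr 32 47 (.thr 5 53 (.thr 7 6 (.thr 52 22 (.thr 36 20 (.thr 38 39 (.thr 34 46 (.thr 44 40 (.dbl 35 33 41))))))))) (.rp 0 (.thr 32 47 (.thr 5 53 (.thr 7 6 (.thr 52 22 (.thr 36 20 (.thr 38 39 (.thr 34 46 (.thr 35 33 (.dbl 44 40 41))))))))) .nd))))))))))))))) (.rp 53 (.str 42 (.nv (.thr 32 47 (.thr 0 63 (.thr 48 16 (.thr 12 8 (.thr 36 24 (.thr 40 44 (.dbl 20 52 60))))))) (.nv (.thr 32 47 (.thr 0 63 (.thr 48 16 (.thr 12 8 (.thr 36 24 (.dbl 38 39 55)))))) (.nv (.thr 47 32 (.thr 38 55 (.thr 46 34 (.thr 44 45 (.thr 39 36 (.dbl 35 41 43)))))) (.rp 63 (.str 48 (.nv (.thr 32 47 (.thr 0 16 (.thr 8 12 (.thr 25 59 (.thr 49 13 (.thr 51 50 (.dbl 17 29 34))))))) (.nv (.thr 32 47 (.thr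 0 16 (.thr 12 8 (.thr 36 24 (.thr 40 44 (.dbl 20 52 60)))))) (.nv (.thr 38 55 (.thr 39 36 (.thr 46 34 (.thr 47 32 (.thr 44 45 (.dbl 35 41 43)))))) (.nv (.thr 38 55 (.thr 36 39 (.thr 12 24 (.thr 8 0 (.dbl 25 51 59))))) .nd))))) (.rp 48 (.thr 63 0 (.thr 32 47 (.thr 38 55 (.thr 36 39 (.thr 34 46 (.thr 44 40 (.dbl 35 33 41))))))) (.rp 47 (.thr 63 0 (.thr 38 55 (.thr 36 39 (.thr 46 34 (.thr 12 29 (.thr 52 20 (.thr 48 24 (.thr 60 56 (.thr 62 61 (.dbl 22 2 7)))))))))) (.rp 36 (.thr 32 47 (.thr 0 63 (.thr 48 16 (.thr 12 8 (.thr 38 55 (.thr 34 46 (.dbl 51 17 25))))))) (.rp 32 (.thr 63 0 (.thr 38 55 (.thr 36 39 (.thr 46 34 (.thr 12 29 (.thr 52 20 (.thr 48 24 (.thr 60 56 (.thr 62 61 (.dbl 22 2 7)))))))))) .nd))))))))) (.rp 52 (.str 42 (.nv (.thr 32 47 (.thr 0 63 (.thr 48 16 (.thr 12 8 (.thr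 36 24 (.dbl 38 39 55)))))) (.nv (.thr 32 47 (.thr 38 55 (.thr 34 46 (.thr 35 33 (.thr 36 39 (.dbl 44 40 41)))))) (.nv (.thr 0 63 (.thr 53 5 (.thr 12 8 (.thr 38 55 (.thr 34 46 (.dbl 51 17 25)))))) (.rp 55 (.thr 32 47 (.thr 0 63 (.thr 12 8 (.thr 48 16 (.thr 36 24 (.thr 38 39 (.thr 34 46 (.dbl 51 17 25)))))))) (.rp 38 (.thr 0 63 (.thr 8 12 (.thr 25 59 (.thr 29 17 (.thr 13 49 (.thr 61 45 (.thr 1 41 (.dbl 5 9 53)))))))) .nd)))))) (.rp 42 (.str 10 (.nv (.thr 53 5 (.thr 55 38 (.thr 52 54 (.thr 22 7 (.dbl 20 23 36))))) (.nv (.thr 5 53 (.thr 0 15 (.thr 6 7 (.thr 12 8 (.thr 3 9 (.dbl 2 1 14)))))) (.nv (.thr 5 53 (.thr 38 55 (.thr 36 39 (.thr 7 6 (.dbl 52 20 22))))) (.rp 53 (.str 12 (.nv (.thr 8 0 (.thr 9 11 (.thr 6 3 (.thr 7 5 (.thr 22 52 (.dbl 38 54 55)))))) (.nv (.thr 0 8 (.thr 38 55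 (.thr 36 39 (.thr 48 24 (.thr 32 16 (.thr 40 44 (.dbl 20 52 60))))))) (.nv (.thr 0 8 (.thr 5 15 (.thr 6 7 (.thr 3 9 (.dbl 2 1 14))))) (.rp 63 (.str 48 (.nv (.thr 38 55 (.dbl 36 24 39)) (.nv (.thr 36 24 (.dbl 38 39 55)) (.rp 55 (.thr 0 8 (.thr 36 24 (.thr 52 20 (.thr 5 15 (.dbl 7 6 22))))) (.rp 39 (.thr 0 8 (.thr 36 24 (.thr 20 52 (.thr 40 60 (.dbl 32 16 44))))) (.rp 38 (.thr 0 8 (.thr 36 24 (.thr 20 52 (.thr 40 60 (.dbl 32 16 44))))) (.rp 36 (.thr 0 8 (.thr 5 15 (.thr 6 7 (.thr 2 14 (.dbl 3 1 9))))) (.rp 24 (.thr 0 8 (.thr 5 15 (.thr 6 7 (.thr 2 14 (.dbl 3 1 9))))) .nd)))))))) (.rp 48 (.str 63 (.nv (.thr 0 8 (.thr 5 15 (.thr 6 7 (.thr 3 9 (.dbl 2 1 14))))) (.nv (.thr 29 46 (.thr 25 17 (.dbl 38 51 55))) (.rp 25 (.thr 38 55 (.thr 36 39 (.thr 52 20 (.thr 7 22 (.thr 5 6 (.dbl 0 8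 15)))))) .nd)))) (.rp 8 (.thr 38 55 (.thr 25 51 (.thr 13 49 (.thr 14 15 (.thr 6 2 (.thr 5 7 (.dbl 9 1 3))))))) (.rp 7 (.thr 0 8 (.thr 15 5 (.thr 13 14 (.thr 25 49 (.dbl 38 51 55))))) (.rp 0 (.thr 38 55 (.thr 25 51 (.thr 13 49 (.thr 14 15 (.thr 6 2 (.thr 5 7 (.dbl 9 1 3))))))) .nd))))))))) (.rp 7 (.thr 5 53 (.thr 0 15 (.thr 12 8 (.thr 38 55 (.thr 25 51 (.thr 29 17 (.thr 13 49 (.thr 1 9 (.dbl 61 41 45))))))))) (.rp 5 (.thr 38 55 (.str 12 (.nv (.thr 36 39 (.thr 20 52 (.thr 8 0 (.thr 9 11 (.thr 6 3 (.dbl 22 23 54)))))) (.nv (.thr 0 8 (.thr 36 39 (.thr 20 52 (.thr 40 60 (.thr 48 24 (.dbl 32 16 44)))))) (.nv (.thr 8 0 (.thr 9 11 (.thr 25 51 (.thr 17 29 (.thr 49 13 (.thr 1 33 (.dbl 41 57 61))))))) (.rp 8 (.thr 36 39 (.thr 20 52 (.thr 24 48 (.thr 28 16 (.thr 25 51 (.dbl 22 19 23))))))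 (.rp 0 (.thr 36 39 (.thr 52 20 (.thr 48 24 (.thr 60 56 (.thr 28 44 (.thr 25 51 (.dbl 22 7 19))))))) .nd))))))) .nd))))))) (.rp 38 (.str 42 (.nv (.thr 0 63 (.thr 8 12 (.thr 25 59 (.thr 13 49 (.thr 29 17 (.thr 61 45 (.thr 1 41 (.dbl 5 9 53)))))))) (.nv (.thr 5 53 (.thr 63 0 (.thr 7 6 (.thr 22 52 (.thr 62 2 (.thr 23 20 (.thr 60 61 (.dbl 3 41 43)))))))) (.nv (.thr 32 47 (.thr 0 63 (.thr 48 16 (.thr 12 8 (.thr 36 24 (.thr 20 52 (.dbl 40 44 60))))))) (.rp 63 (.thr 53 5 (.str 41 (.nv (.thr 32 47 (.thr 40 43 (.thr 36 44 (.thr 20 52 (.thr 60 0 (.dbl 22 3 23)))))) (.nv (.thr 45 33 (.thr 61 1 (.thr 49 57 (.dbl 13 25 29)))) (.rp 50 (.str 14 (.nv (.thr 32 47 (.thr 40 43 (.thr 36 44 (.thr 20 52 (.thr 60 0 (.dbl 22 3 23)))))) (.nv (.thr 45 33 (.thr 61 1 (.thr 13 29 (.dbl 49 25 57)))) (.rp 62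 (.str 54 (.nv (.thr 61 1 (.thr 45 33 (.thr 13 29 (.dbl 49 25 57)))) (.nv (.thr 52 55 (.thr 20 36 (.dbl 22 7 23))) (.rp 61 (.str 60 (.nv (.thr 52 55 (.thr 20 36 (.dbl 40 0 43))) (.nv (.thr 40 43 (.thr 20 0 (.dbl 22 3 23))) (.nv (.thr 52 55 (.dbl 22 3 7)) .nd)))) .nd)))) (.rp 54 (.str 62 (.nv (.thr 45 33 (.thr 61 1 (.thr 13 29 (.dbl 49 25 57)))) (.nv (.thr 22 2 (.thr 52 7 (.dbl 20 23 36))) (.rp 22 (.str 6 (.nv (.thr 45 33 (.thr 61 1 (.thr 49 57 (.dbl 13 25 29)))) (.nv (.thr 45 33 (.thr 47 32 (.dbl 46 30 44))) (.rp 45 (.thr 61 1 (.thr 10 2 (.thr 57 49 (.thr 9 25 (.thr 8 11 (.dbl 12 0 3)))))) (.rp 33 (.thr 61 1 (.thr 47 32 (.thr 49 57 (.thr 13 25 (.thr 45 29 (.dbl 46 30 44)))))) (.rp 30 (.str 18 (.nv (.thr 2 10 (.thr 33 45 (.thr 3 48 (.dbl 1 0 61)))) (.nv (.thr 45 33 (.thr 61 1 (.thr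 13 29 (.dbl 49 25 57)))) (.nv (.thr 2 10 (.thr 1 61 (.thr 33 45 (.dbl 3 0 48)))) (.rp 61 (.thr 2 10 (.thr 33 45 (.thr 3 48 (.thr 12 9 (.dbl 0 1 8))))) (.rp 45 (.thr 10 2 (.thr 61 1 (.thr 57 49 (.thr 9 25 (.thr 8 11 (.dbl 12 0 3)))))) (.rp 33 (.thr 2 10 (.thr 1 61 (.thr 32 47 (.thr 40 43 (.thr 36 44 (.thr 20 52 (.dbl 0 3 60))))))) (.rp 1 (.thr 10 2 (.thr 33 45 (.thr 3 48 (.thr 9 12 (.thr 25 57 (.dbl 8 11 59)))))) .nd)))))))) (.rp 18 (.thr 30 46 (.thr 61 1 (.thr 45 33 (.thr 15 60 (.dbl 13 12 29))))) .nd))))))) .nd)))) (.rp 46 (.thr 45 33 (.thr 61 1 (.thr 49 57 (.dbl 13 25 29)))) (.rp 45 (.thr 61 1 (.thr 49 57 (.thr 13 25 (.thr 12 15 (.thr 0 8 (.thr 40 43 (.thr 60 20 (.thr 44 28 (.dbl 32 36 47))))))))) .nd))))))) (.rp 45 (.thr 43 40 (.str 22 (.nv (.thr 20 23 (.dbl 52 7 36)) (.rp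 52 (.thr 3 60 (.thr 61 1 (.thr 47 32 (.thr 35 39 (.thr 19 51 (.thr 25 28 (.dbl 57 9 49))))))) (.rp 50 (.str 14 (.nv (.thr 20 23 (.dbl 52 7 36)) (.rp 62 (.str 54 (.nv (.thr 60 3 (.thr 61 1 (.dbl 57 49 51))) (.nv (.dbl 52 7 55) (.rp 61 (.thr 60 3 (.dbl 52 7 55)) (.rp 60 (.thr 61 1 (.dbl 52 7 55)) .nd))))) (.rp 54 (.thr 62 2 (.thr 20 23 (.dbl 52 7 36))) (.rp 52 (.thr 3 60 (.thr 61 1 (.thr 47 32 (.thr 35 39 (.thr 19 51 (.thr 25 28 (.dbl 57 9 49))))))) (.rp 36 (.thr 23 20 (.thr 7 52 (.thr 39 55 (.dbl 47 32 35)))) (.rp 23 (.thr 52 7 (.thr 60 3 (.thr 61 1 (.thr 57 49 (.dbl 54 51 55))))) (.rp 20 (.thr 52 7 (.thr 54 55 (.thr 60 3 (.thr 61 1 (.dbl 57 49 51))))) (.rp 7 (.thr 20 23 (.thr 52 36 (.thr 60 3 (.thr 61 1 (.thr 57 49 (.dbl 54 51 55)))))) .nd))))))))) (.rp 36 (.thr 23 20 (.thr 7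 52 (.thr 39 55 (.dbl 47 32 35)))) (.rp 23 (.thr 52 7 (.thr 60 3 (.thr 61 1 (.thr 57 49 (.dbl 54 51 55))))) (.rp 20 (.thr 52 7 (.thr 54 55 (.thr 60 3 (.thr 61 1 (.dbl 57 49 51))))) (.rp 14 (.str 50 (.nv (.thr 20 23 (.dbl 52 7 36)) (.rp 52 (.thr 2 62 (.thr 18 34 (.thr 61 1 (.thr 49 57 (.thr 48 51 (.dbl 3 33 60)))))) (.rp 36 (.thr 23 20 (.thr 7 52 (.thr 39 55 (.dbl 47 32 35)))) (.rp 23 (.thr 52 7 (.thr 61 1 (.thr 49 57 (.thr 48 51 (.dbl 60 3 56))))) (.rp 20 (.thr 52 7 (.thr 54 55 (.thr 61 1 (.thr 57 49 (.dbl 60 3 51))))) (.rp 7 (.thr 20 23 (.thr 52 36 (.thr 61 1 (.thr 49 57 (.thr 48 51 (.dbl 60 3 56)))))) .nd))))))) (.rp 7 (.thr 20 23 (.thr 52 36 (.thr 60 3 (.thr 61 1 (.thr 57 49 (.dbl 54 51 55)))))) .nd)))))))))) (.rp 14 (.str 50 (.nv (.thr 32 47 (.thr 40 43 (.thr 36 44 (.thr 20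 52 (.thr 60 0 (.dbl 22 3 23)))))) (.nv (.thr 45 33 (.thr 61 1 (.thr 49 57 (.dbl 13 25 29)))) (.rp 45 (.thr 61 1 (.thr 49 57 (.thr 48 51 (.thr 32 47 (.thr 0 16 (.thr 8 12 (.dbl 25 13 59))))))) .nd)))) .nd))))))) (.rp 50 (.str 14 (.nv (.thr 5 53 (.thr 6 7 (.thr 10 2 (.dbl 0 15 63)))) (.nv (.thr 0 63 (.thr 12 8 (.thr 15 13 (.dbl 5 10 53)))) (.rp 63 (.thr 53 5 (.str 41 (.nv (.thr 32 47 (.thr 40 43 (.thr 36 44 (.thr 20 52 (.thr 60 0 (.dbl 22 3 23)))))) (.nv (.thr 45 33 (.thr 61 1 (.thr 13 29 (.dbl 49 25 57)))) (.rp 62 (.str 54 (.nv (.thr 61 1 (.thr 45 33 (.thr 13 29 (.dbl 49 25 57)))) (.nv (.thr 52 55 (.thr 20 36 (.dbl 22 7 23))) (.rp 61 (.str 60 (.nv (.thr 52 55 (.thr 20 36 (.dbl 40 0 43))) (.nv (.thr 40 43 (.thr 20 0 (.dbl 22 3 23))) (.nv (.thr 52 55 (.dbl 22 3 7)) .nd)))) .nd))))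 (.rp 54 (.str 62 (.nv (.thr 45 33 (.thr 61 1 (.thr 13 29 (.dbl 49 25 57)))) (.nv (.thr 22 2 (.thr 52 7 (.dbl 20 23 36))) (.rp 22 (.str 6 (.nv (.thr 45 33 (.thr 61 1 (.thr 49 57 (.dbl 13 25 29)))) (.nv (.thr 45 33 (.thr 47 32 (.dbl 46 30 44))) (.rp 45 (.thr 61 1 (.thr 10 2 (.thr 57 49 (.thr 9 25 (.thr 8 11 (.dbl 12 0 3)))))) (.rp 33 (.thr 61 1 (.thr 47 32 (.thr 49 57 (.thr 13 25 (.thr 45 29 (.dbl 46 30 44)))))) (.rp 30 (.str 18 (.nv (.thr 2 10 (.thr 33 45 (.thr 3 48 (.dbl 1 0 61)))) (.nv (.thr 45 33 (.thr 61 1 (.thr 13 29 (.dbl 49 25 57)))) (.nv (.thr 2 10 (.thr 1 61 (.thr 33 45 (.dbl 3 0 48)))) (.rp 61 (.thr 2 10 (.thr 33 45 (.thr 3 48 (.thr 12 9 (.dbl 0 1 8))))) (.rp 45 (.thr 10 2 (.thr 61 1 (.thr 57 49 (.thr 9 25 (.thr 8 11 (.dbl 12 0 3)))))) (.rp 33 (.thr 2 10 (.thr 1 61 (.thr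 32 47 (.thr 40 43 (.thr 36 44 (.thr 20 52 (.dbl 0 3 60))))))) (.rp 1 (.thr 10 2 (.thr 33 45 (.thr 3 48 (.thr 9 12 (.thr 25 57 (.dbl 8 11 59)))))) .nd)))))))) (.rp 18 (.thr 30 46 (.thr 61 1 (.thr 45 33 (.thr 15 60 (.dbl 13 12 29))))) .nd))))))) .nd)))) (.rp 46 (.thr 45 33 (.thr 61 1 (.thr 49 57 (.dbl 13 25 29)))) (.rp 45 (.thr 61 1 (.thr 49 57 (.thr 13 25 (.thr 12 15 (.thr 0 8 (.thr 40 43 (.thr 60 20 (.thr 44 28 (.dbl 32 36 47))))))))) .nd)))))))) (.rp 62 (.str 54 (.nv (.thr 0 63 (.thr 12 8 (.thr 15 13 (.dbl 5 10 53)))) (.nv (.thr 53 5 (.thr 52 55 (.thr 20 36 (.dbl 22 7 23)))) (.rp 53 (.thr 32 47 (.thr 0 63 (.thr 48 16 (.thr 12 8 (.thr 36 24 (.thr 20 52 (.dbl 40 44 60))))))) (.rp 5 (.thr 0 63 (.thr 12 8 (.thr 32 47 (.thr 48 16 (.thr 36 24 (.thr 20 52 (.dbl 40 44 60))))))) .nd)))))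 (.rp 54 (.str 62 (.nv (.thr 0 63 (.thr 12 8 (.thr 15 13 (.dbl 5 10 53)))) (.nv (.thr 22 2 (.thr 20 23 (.dbl 52 7 36))) (.nv (.thr 2 22 (.thr 6 10 (.dbl 5 7 53))) (.rp 22 (.str 6 (.nv (.dbl 5 7 53) (.rp 53 (.thr 5 7 (.thr 10 2 (.dbl 0 15 63))) (.rp 30 (.str 18 (.nv (.dbl 5 7 53) (.rp 53 (.thr 10 2 (.thr 5 7 (.dbl 0 15 63))) (.rp 7 (.thr 10 2 (.thr 5 53 (.dbl 0 15 63))) (.rp 5 (.thr 2 10 (.thr 0 63 (.thr 12 8 (.dbl 3 1 9)))) .nd))))) (.rp 18 (.thr 30 46 (.dbl 5 7 53)) (.rp 7 (.thr 5 53 (.thr 10 2 (.dbl 0 15 63))) (.rp 5 (.thr 0 63 (.thr 12 8 (.thr 2 10 (.dbl 3 1 9)))) .nd))))))) .nd))))) (.rp 53 (.thr 47 32 (.thr 63 0 (.thr 15 31 (.thr 12 13 (.thr 46 29 (.thr 45 44 (.dbl 30 60 62))))))) (.rp 48 (.thr 0 63 (.thr 53 5 (.thr 12 8 (.thr 13 15 (.thr 49 25 (.thr 61 57 (.thr 45 29 (.dbl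 41 1 33)))))))) (.rp 15 (.thr 47 32 (.thr 63 0 (.thr 5 53 (.thr 7 6 (.thr 22 52 (.thr 23 20 (.thr 43 3 (.dbl 39 35 55)))))))) (.rp 10 (.thr 47 32 (.thr 63 0 (.thr 15 31 (.thr 12 13 (.thr 46 29 (.thr 45 44 (.dbl 30 60 62))))))) (.rp 5 (.thr 47 32 (.thr 63 0 (.thr 15 31 (.thr 12 13 (.thr 46 29 (.thr 45 44 (.dbl 30 60 62))))))) (.rp 0 (.thr 47 32 (.thr 5 53 (.thr 7 6 (.thr 22 52 (.thr 62 2 (.thr 46 30 (.thr 45 44 (.thr 41 33 (.thr 1 61 (.thr 13 9 (.thr 15 12 (.dbl 3 11 60)))))))))))) .nd)))))))))))) (.rp 14 (.str 50 (.nv (.thr 0 63 (.thr 12 8 (.thr 32 47 (.thr 48 16 (.thr 36 24 (.thr 20 52 (.dbl 40 44 60))))))) (.nv (.thr 0 63 (.thr 8 12 (.thr 25 59 (.thr 13 49 (.thr 29 17 (.thr 61 45 (.thr 1 41 (.dbl 5 9 53)))))))) (.nv (.thr 0 63 (.thr 32 47 (.thr 48 16 (.thr 51 49 (.thr 34 17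 (.thr 18 2 (.dbl 33 3 35))))))) (.nv (.thr 32 47 (.thr 0 63 (.thr 48 16 (.thr 49 51 (.thr 25 13 (.dbl 8 12 59)))))) (.rp 63 (.str 22 (.nv (.thr 20 23 (.dbl 52 7 36)) (.nv (.thr 7 52 (.dbl 5 6 53)) (.rp 53 (.str 48 (.nv (.thr 52 7 (.dbl 20 23 36)) (.rp 52 (.thr 51 49 (.thr 2 62 (.thr 34 18 (.thr 0 17 (.dbl 32 16 47))))) (.rp 36 (.thr 51 49 (.thr 2 62 (.thr 34 18 (.thr 0 17 (.dbl 32 16 47))))) (.rp 23 (.thr 51 49 (.thr 2 62 (.thr 34 18 (.thr 0 17 (.dbl 32 16 47))))) (.rp 20 (.thr 51 49 (.thr 2 62 (.thr 34 18 (.thr 0 17 (.dbl 32 16 47))))) (.rp 7 (.thr 51 49 (.thr 2 62 (.thr 34 18 (.thr 0 17 (.dbl 32 16 47))))) .nd))))))) (.rp 52 (.thr 2 62 (.thr 34 18 (.thr 32 47 (.thr 33 35 (.thr 41 45 (.thr 1 61 (.thr 60 3 (.thr 49 17 (.thr 13 25 (.dbl 5 9 53)))))))))) (.rp 48 (.thr 53 5 (.thr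 20 23 (.dbl 52 7 36))) (.rp 7 (.thr 20 23 (.thr 36 52 (.thr 32 47 (.thr 40 44 (.thr 60 0 (.dbl 41 3 43)))))) .nd))))))) (.rp 48 (.thr 5 53 (.thr 63 0 (.thr 7 6 (.thr 22 52 (.thr 23 20 (.thr 3 43 (.thr 60 41 (.dbl 62 2 61)))))))) (.rp 15 (.thr 5 53 (.thr 7 6 (.thr 22 52 (.thr 23 20 (.thr 63 0 (.thr 3 43 (.thr 60 41 (.dbl 62 2 61)))))))) (.rp 0 (.thr 5 53 (.thr 7 6 (.thr 22 52 (.thr 2 62 (.thr 34 18 (.thr 32 47 (.thr 33 35 (.thr 41 45 (.thr 1 61 (.thr 49 17 (.dbl 13 9 25))))))))))) .nd))))))))) (.rp 0 (.str 13 (.nv (.thr 5 53 (.thr 1 9 (.thr 25 49 (.thr 61 41 (.dbl 29 17 45))))) (.nv (.thr 49 25 (.thr 53 5 (.thr 61 57 (.thr 41 1 (.dbl 45 29 33))))) (.nv (.thr 5 53 (.thr 1 9 (.thr 41 61 (.thr 33 45 (.dbl 49 17 25))))) (.rp 61 (.thr 47 32 (.thr 5 53 (.thr 7 6 (.thr 1 9 (.thr 22 52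 (.thr 49 25 (.thr 33 17 (.thr 41 45 (.thr 43 40 (.thr 39 35 (.dbl 23 20 55))))))))))) (.rp 53 (.thr 47 32 (.thr 25 49 (.thr 29 17 (.thr 61 45 (.thr 1 41 (.thr 5 9 (.thr 7 6 (.thr 22 52 (.thr 28 19 (.thr 31 30 (.thr 62 2 (.dbl 63 15 60)))))))))))) (.rp 50 (.str 14 (.nv (.thr 49 25 (.thr 53 5 (.thr 61 57 (.thr 41 1 (.dbl 45 29 33))))) (.nv (.thr 25 49 (.thr 29 17 (.thr 61 45 (.thr 1 41 (.dbl 5 9 53))))) (.nv (.thr 12 15 (.thr 5 53 (.thr 6 7 (.dbl 9 1 3)))) (.rp 62 (.str 54 (.nv (.thr 5 53 (.thr 1 9 (.thr 25 49 (.thr 29 17 (.dbl 61 41 45))))) (.nv (.thr 53 5 (.thr 52 55 (.thr 20 36 (.dbl 22 7 23)))) (.rp 53 (.thr 12 15 (.thr 25 49 (.thr 59 8 (.thr 29 17 (.thr 63 46 (.thr 51 55 (.thr 45 61 (.thr 57 60 (.dbl 41 9 33))))))))) (.rp 5 (.thr 47 32 (.thr 25 49 (.thr 29 17 (.thr 45 61 (.thr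 46 44 (.dbl 12 15 63)))))) .nd))))) (.rp 54 (.str 62 (.nv (.thr 5 53 (.thr 6 7 (.dbl 2 10 22))) (.nv (.thr 25 49 (.thr 29 17 (.thr 46 30 (.dbl 12 15 63)))) (.nv (.thr 2 22 (.thr 6 10 (.dbl 5 7 53))) (.rp 22 (.str 6 (.nv (.dbl 5 7 53) (.rp 53 (.thr 12 15 (.thr 5 7 (.dbl 9 1 3))) (.rp 30 (.str 18 (.nv (.dbl 5 7 53) (.rp 53 (.thr 12 15 (.thr 5 7 (.dbl 9 1 3))) (.rp 7 (.thr 5 53 (.thr 9 1 (.dbl 12 3 15))) (.rp 5 (.thr 10 2 (.thr 25 49 (.thr 12 15 (.thr 8 59 (.dbl 9 3 11))))) .nd))))) (.rp 18 (.thr 30 46 (.dbl 5 7 53)) (.rp 7 (.thr 12 15 (.thr 5 53 (.dbl 9 1 3))) (.rp 5 (.thr 12 15 (.thr 10 2 (.thr 25 49 (.thr 8 59 (.dbl 9 3 11))))) .nd))))))) (.rp 6 (.thr 22 2 (.thr 20 23 (.dbl 52 7 36))) .nd)))))) (.rp 53 (.thr 15 12 (.thr 47 32 (.thr 63 31 (.thr 25 49 (.thr 29 17 (.thr 61 45 (.thr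 62 60 (.thr 22 2 (.thr 20 23 (.dbl 52 7 36)))))))))) (.rp 5 (.thr 47 32 (.thr 25 49 (.thr 29 17 (.thr 45 61 (.thr 46 44 (.dbl 12 15 63)))))) (.rp 1 (.thr 15 12 (.thr 47 32 (.thr 63 31 (.thr 5 53 (.thr 7 6 (.thr 3 11 (.thr 23 43 (.dbl 22 20 52)))))))) .nd))))))))) (.rp 49 (.thr 47 32 (.thr 5 53 (.thr 7 6 (.thr 1 9 (.thr 61 41 (.thr 29 45 (.thr 22 52 (.thr 62 2 (.thr 63 60 (.thr 15 31 (.dbl 12 14 46))))))))))) (.rp 45 (.thr 47 32 (.thr 5 53 (.thr 7 6 (.thr 1 9 (.thr 41 61 (.thr 43 40 (.thr 39 35 (.thr 23 55 (.dbl 22 20 52))))))))) (.rp 41 (.thr 47 32 (.thr 5 53 (.thr 7 6 (.thr 9 1 (.thr 22 52 (.thr 23 20 (.thr 2 62 (.thr 55 39 (.thr 25 49 (.thr 28 19 (.thr 17 29 (.thr 59 8 (.thr 63 51 (.thr 15 31 (.dbl 3 11 43))))))))))))))) (.rp 25 (.thr 32 47 (.thr 5 53 (.thr 7 6 (.thr 1 9 (.thr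 41 61 (.thr 40 43 (.thr 36 44 (.dbl 52 20 22)))))))) (.rp 14 (.str 50 (.nv (.thr 5 53 (.thr 1 9 (.thr 25 49 (.thr 61 41 (.dbl 29 17 45))))) (.nv (.thr 49 25 (.thr 53 5 (.thr 61 57 (.thr 41 1 (.dbl 45 29 33))))) (.nv (.thr 5 53 (.thr 1 9 (.thr 41 61 (.thr 33 45 (.dbl 49 17 25))))) (.rp 61 (.thr 49 25 (.thr 5 53 (.thr 1 9 (.thr 33 17 (.thr 32 47 (.thr 34 35 (.thr 18 2 (.dbl 48 3 51)))))))) (.rp 53 (.thr 25 49 (.thr 29 17 (.thr 61 45 (.thr 1 41 (.thr 5 9 (.thr 47 32 (.thr 7 6 (.thr 22 52 (.thr 23 20 (.thr 19 28 (.thr 31 27 (.thr 63 15 (.dbl 62 2 60))))))))))))) (.rp 49 (.thr 5 53 (.thr 1 9 (.thr 32 47 (.thr 7 6 (.thr 22 52 (.thr 2 62 (.thr 34 18 (.thr 33 35 (.dbl 41 45 61))))))))) (.rp 45 (.thr 49 25 (.thr 53 5 (.thr 57 61 (.thr 51 48 (.thr 54 60 (.thr 52 55 (.thr 20 36 (.dbl 22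 7 23)))))))) (.rp 41 (.thr 49 25 (.thr 53 5 (.thr 57 61 (.thr 51 48 (.thr 54 60 (.thr 52 55 (.thr 20 36 (.dbl 22 7 23)))))))) (.rp 25 (.thr 5 53 (.thr 1 9 (.thr 41 61 (.thr 32 47 (.thr 40 43 (.thr 36 44 (.thr 52 20 (.dbl 7 6 22)))))))) (.rp 5 (.thr 25 49 (.thr 29 17 (.thr 45 61 (.thr 59 8 (.thr 47 32 (.thr 46 44 (.thr 63 12 (.thr 51 55 (.thr 15 31 (.thr 60 30 (.thr 57 54 (.dbl 41 9 33)))))))))))) (.rp 1 (.thr 49 25 (.thr 53 5 (.thr 57 61 (.thr 51 48 (.thr 54 60 (.thr 52 55 (.thr 20 36 (.dbl 22 7 23)))))))) .nd)))))))))))) (.rp 5 (.thr 47 32 (.thr 25 49 (.thr 29 17 (.thr 45 61 (.thr 46 44 (.thr 63 12 (.thr 15 31 (.thr 60 30 (.thr 59 8 (.thr 51 55 (.thr 57 54 (.dbl 41 9 33)))))))))))) (.rp 1 (.thr 47 32 (.thr 5 53 (.thr 7 6 (.thr 22 52 (.thr 23 20 (.thr 55 39 (.thr 25 49 (.thr 19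 28 (.thr 31 27 (.thr 59 8 (.dbl 63 15 51))))))))))) .nd)))))))))))))) .nd)))))))) (.rp 22 (.thr 53 5 (.thr 38 55 (.thr 39 36 (.str 42 (.nv (.thr 46 34 (.thr 47 32 (.thr 35 43 (.dbl 44 41 45)))) (.nv (.thr 0 63 (.thr 12 8 (.thr 34 46 (.dbl 51 17 25)))) (.rp 46 (.thr 63 0 (.thr 47 32 (.thr 15 31 (.thr 43 35 (.thr 3 23 (.thr 11 7 (.dbl 27 51 59))))))) (.rp 34 (.thr 63 0 (.thr 47 32 (.thr 15 31 (.thr 35 43 (.thr 44 41 (.thr 46 45 (.thr 12 29 (.dbl 51 25 27)))))))) (.rp 30 (.str 18 (.nv (.thr 34 46 (.thr 0 63 (.thr 51 17 (.dbl 12 8 25)))) (.nv (.thr 0 63 (.thr 12 8 (.thr 32 47 (.thr 16 48 (.thr 17 19 (.dbl 25 29 51)))))) (.nv (.thr 46 34 (.thr 47 32 (.thr 35 43 (.dbl 44 41 45)))) .nd)))) (.rp 18 (.str 30 (.nv (.thr 46 34 (.thr 47 32 (.thr 35 43 (.dbl 44 41 45)))) (.nv (.thr 0 63 (.thr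 12 8 (.thr 34 46 (.dbl 51 17 25)))) (.rp 46 (.thr 63 0 (.thr 47 32 (.thr 15 31 (.thr 45 60 (.thr 41 33 (.dbl 43 35 40)))))) (.rp 34 (.thr 63 0 (.thr 47 32 (.thr 15 31 (.thr 45 60 (.thr 44 46 (.dbl 41 33 35)))))) .nd))))) .nd)))))))))) (.rp 20 (.str 42 (.nv (.thr 0 63 (.thr 12 8 (.thr 32 47 (.thr 38 55 (.thr 36 39 (.dbl 48 16 24)))))) (.nv (.thr 32 47 (.thr 38 55 (.thr 34 46 (.thr 35 33 (.thr 36 39 (.dbl 44 40 41)))))) (.nv (.thr 0 63 (.thr 12 8 (.thr 38 55 (.thr 34 46 (.dbl 51 17 25))))) (.rp 55 (.thr 32 47 (.thr 0 63 (.thr 12 8 (.thr 5 53 (.thr 48 16 (.thr 6 7 (.thr 9 3 (.thr 13 1 (.dbl 15 10 14))))))))) (.rp 38 (.thr 0 63 (.thr 8 12 (.thr 25 59 (.thr 29 17 (.thr 13 49 (.thr 61 45 (.thr 1 41 (.dbl 5 9 53)))))))) .nd)))))) (.rp 10 (.str 42 (.nv (.thr 0 63 (.thr 12 8 (.thr 32 47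 (.thr 48 16 (.thr 36 24 (.thr 20 52 (.dbl 40 44 60))))))) (.nv (.thr 38 55 (.thr 36 39 (.thr 52 20 (.thr 7 22 (.dbl 5 6 53))))) (.nv (.thr 38 55 (.thr 34 46 (.thr 0 63 (.thr 51 17 (.dbl 12 8 25))))) (.rp 53 (.thr 47 32 (.thr 38 55 (.thr 39 36 (.thr 35 43 (.thr 44 41 (.dbl 46 34 45)))))) .nd))))) (.rp 7 (.str 42 (.nv (.thr 0 63 (.thr 12 8 (.thr 38 55 (.thr 34 46 (.dbl 51 17 25))))) (.nv (.thr 0 63 (.thr 12 8 (.thr 32 47 (.thr 48 16 (.thr 36 24 (.thr 20 52 (.dbl 40 44 60))))))) (.nv (.thr 38 55 (.thr 39 36 (.thr 46 34 (.thr 47 32 (.thr 35 43 (.dbl 44 41 45)))))) .nd)))) (.rp 5 (.str 42 (.nv (.thr 0 63 (.thr 12 8 (.thr 32 47 (.thr 48 16 (.thr 36 24 (.thr 20 52 (.dbl 40 44 60))))))) (.nv (.thr 32 47 (.thr 38 55 (.thr 34 46 (.thr 35 33 (.thr 36 39 (.dbl 44 40 41)))))) (.nv (.thr 0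 63 (.thr 12 8 (.thr 38 55 (.thr 34 46 (.dbl 51 17 25))))) .nd)))) .nd))))))))))))))

theorem w560 : WinAt (137441050624, 288230376218820608) :=
  chF (K := []) kn c560 137441050624 288230376218820608 58
    [288234774265332736] (by decide +kernel) (by decide +kernel)

/-- A certificate. -/
noncomputable def c561 : Ct := (.str 49 (.nv (.thr 13 25 (.thr 61 57 (.thr 41 1 (.dbl 45 29 33)))) (.nv (.thr 25 13 (.thr 17 29 (.thr 1 33 (.dbl 61 41 57)))) (.rp 61 (.str 38 (.nv (.thr 25 13 (.thr 29 17 (.thr 12 51 (.thr 63 46 (.thr 36 39 (.dbl 48 24 58)))))) (.nv (.thr 4 55 (.thr 25 13 (.thr 29 17 (.thr 12 51 (.thr 63 46 (.dbl 0 8 42)))))) (.nv (.thr 39 36 (.thr 55 4 (.thr 7 23 (.dbl 52 22 54)))) .nd)))) (.rp 57 (.thr 25 13 (.str 1 (.nv (.dbl 17 29 33) (.rp 58 (.str 56 (.nv (.dbl 17 29 33)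 (.rp 42 (.str 10 (.nv (.dbl 17 29 33) (.rp 33 (.str 60 (.nv (.thr 52 48 (.thr 7 22 (.thr 55 54 (.thr 38 4 (.dbl 39 23 36))))) (.nv (.thr 52 48 (.thr 41 61 (.dbl 22 3 7))) (.rp 52 (.thr 41 61 (.thr 22 3 (.thr 20 23 (.thr 40 0 (.thr 24 8 (.dbl 28 16 19)))))) (.rp 48 (.thr 41 61 (.thr 3 22 (.thr 2 0 (.thr 6 14 (.thr 12 9 (.thr 44 28 (.dbl 38 35 51))))))) (.rp 22 (.thr 52 48 (.thr 41 61 (.thr 55 54 (.thr 38 4 (.thr 44 35 (.dbl 12 28 51)))))) (.rp 18 (.thr 48 52 (.thr 29 17 (.thr 61 41 (.thr 63 62 (.thr 12 46 (.dbl 51 38 50)))))) (.rp 7 (.thr 52 48 (.thr 41 61 (.thr 55 54 (.thr 4 38 (.thr 20 36 (.dbl 22 3 23)))))) (.rp 3 (.thr 48 52 (.thr 29 17 (.thr 61 41 (.thr 63 62 (.thr 12 46 (.dbl 51 38 50)))))) .nd))))))))) (.rp 29 (.thr 33 17 (.dbl 41 45 61)) (.rp 17 (.str 60 (.nv (.thr 52 48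 (.thr 7 22 (.thr 55 54 (.thr 38 4 (.dbl 39 23 36))))) (.nv (.thr 52 48 (.thr 41 61 (.dbl 22 3 7))) (.rp 52 (.thr 41 61 (.thr 22 3 (.thr 20 23 (.thr 40 0 (.thr 24 8 (.dbl 28 16 19)))))) (.rp 48 (.thr 41 61 (.thr 22 3 (.thr 52 7 (.thr 20 23 (.thr 4 36 (.dbl 55 38 54)))))) (.rp 22 (.thr 52 48 (.thr 41 61 (.thr 55 54 (.thr 38 4 (.thr 44 35 (.dbl 12 28 51)))))) (.rp 7 (.thr 48 52 (.thr 41 61 (.thr 3 22 (.dbl 33 18 45)))) .nd))))))) .nd))))) (.rp 33 (.str 42 (.nv (.thr 0 63 (.thr 32 47 (.thr 48 16 (.thr 51 50 (.dbl 17 29 34))))) (.nv (.thr 0 63 (.thr 3 2 (.thr 41 61 (.thr 60 22 (.dbl 40 20 43))))) (.rp 63 (.thr 41 61 (.thr 32 47 (.thr 40 43 (.thr 36 44 (.thr 24 8 (.thr 12 48 (.dbl 38 39 51))))))) (.rp 55 (.thr 17 29 (.thr 0 63 (.thr 51 34 (.thr 48 50 (.dbl 32 16 47))))) (.rp 51 (.thr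 41 61 (.thr 32 47 (.thr 40 43 (.thr 36 44 (.thr 24 8 (.thr 48 12 (.dbl 0 16 63))))))) (.rp 29 (.thr 0 63 (.thr 32 47 (.thr 48 16 (.thr 60 52 (.thr 40 20 (.dbl 41 43 61)))))) (.rp 0 (.thr 41 61 (.thr 32 47 (.thr 40 43 (.thr 36 44 (.thr 24 8 (.thr 12 48 (.dbl 38 39 51))))))) .nd)))))))) (.rp 29 (.thr 33 17 (.dbl 41 45 61)) (.rp 17 (.str 42 (.nv (.thr 41 61 (.thr 0 63 (.thr 40 43 (.thr 60 20 (.dbl 3 2 22))))) (.nv (.thr 0 63 (.thr 32 47 (.thr 48 16 (.thr 52 60 (.thr 22 7 (.dbl 2 3 62)))))) (.nv (.thr 41 61 (.thr 45 33 (.thr 43 40 (.thr 47 32 (.thr 35 39 (.dbl 44 38 46)))))) (.rp 61 (.thr 0 63 (.thr 32 47 (.thr 48 16 (.thr 60 52 (.thr 40 20 (.thr 36 44 (.dbl 24 8 12))))))) .nd))))) (.rp 10 (.str 42 (.nv (.thr 0 63 (.thr 33 17 (.dbl 41 45 61))) (.nv (.dbl 17 29 33) (.rp 33 (.thr 17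 29 (.thr 0 63 (.thr 51 34 (.thr 48 50 (.dbl 32 16 47))))) (.rp 17 (.thr 41 61 (.thr 0 63 (.thr 40 43 (.thr 60 20 (.dbl 3 2 22))))) (.rp 0 (.str 15 (.nv (.dbl 17 29 33) (.rp 33 (.thr 41 61 (.thr 29 17 (.thr 47 32 (.thr 63 31 (.thr 46 12 (.thr 44 45 (.dbl 38 34 35))))))) (.rp 29 (.thr 33 17 (.dbl 41 45 61)) (.rp 17 (.thr 41 61 (.thr 45 33 (.thr 60 30 (.thr 52 48 (.dbl 22 3 7))))) .nd))))) .nd)))))) .nd))))))) (.rp 56 (.str 58 (.nv (.dbl 17 29 33) (.rp 41 (.str 11 (.nv (.dbl 17 29 33) (.rp 33 (.thr 29 17 (.thr 63 48 (.thr 0 42 (.thr 12 46 (.thr 38 51 (.dbl 4 8 55)))))) (.rp 29 (.thr 33 17 (.thr 48 63 (.thr 51 50 (.thr 3 18 (.thr 19 35 (.thr 7 15 (.dbl 22 28 52))))))) (.rp 17 (.thr 48 63 (.thr 51 50 (.thr 38 12 (.thr 39 36 (.thr 15 27 (.thr 7 3 (.dbl 55 4 23))))))) .nd))))) (.rp 33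 (.thr 29 17 (.thr 63 48 (.thr 0 42 (.thr 12 46 (.thr 38 51 (.dbl 4 8 55)))))) (.rp 29 (.thr 33 17 (.dbl 41 45 61)) (.rp 17 (.thr 41 61 (.thr 63 48 (.thr 0 42 (.thr 3 2 (.thr 23 43 (.dbl 22 20 60)))))) (.rp 11 (.thr 41 61 (.dbl 17 29 33)) .nd))))))) (.rp 33 (.str 63 (.nv (.thr 0 42 (.thr 3 2 (.thr 23 43 (.thr 22 20 (.dbl 41 60 61))))) (.nv (.thr 29 17 (.thr 12 46 (.thr 51 38 (.dbl 48 50 58)))) (.rp 58 (.str 56 (.nv (.thr 29 17 (.thr 12 46 (.thr 51 38 (.thr 61 41 (.thr 60 62 (.dbl 48 50 52)))))) (.nv (.thr 29 17 (.thr 41 61 (.thr 42 0 (.thr 46 12 (.thr 47 32 (.thr 44 45 (.dbl 38 34 35))))))) (.nv (.thr 61 41 (.thr 60 62 (.thr 52 48 (.thr 22 7 (.thr 20 23 (.dbl 0 40 42)))))) (.nv (.thr 29 17 (.thr 12 46 (.thr 38 51 (.thr 4 55 (.dbl 0 8 42))))) (.rp 42 (.str 10 (.nv (.thr 61 41 (.thr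 60 62 (.thr 52 48 (.thr 22 7 (.thr 20 23 (.thr 4 36 (.dbl 55 38 54))))))) (.nv (.thr 29 17 (.thr 12 46 (.thr 38 51 (.thr 36 39 (.thr 24 48 (.thr 40 8 (.thr 41 61 (.dbl 44 32 35)))))))) (.nv (.thr 29 17 (.thr 61 41 (.thr 60 62 (.thr 52 48 (.thr 22 7 (.thr 28 19 (.dbl 12 44 46))))))) (.nv (.thr 29 17 (.thr 12 46 (.thr 38 51 (.thr 39 36 (.thr 55 4 (.thr 7 23 (.dbl 52 22 54))))))) (.rp 60 (.str 54 (.nv (.thr 29 17 (.thr 12 46 (.thr 38 51 (.thr 6 22 (.thr 2 14 (.dbl 3 0 9)))))) (.nv (.thr 52 55 (.thr 22 7 (.thr 6 38 (.thr 23 20 (.thr 3 43 (.dbl 2 0 14)))))) (.nv (.thr 55 52 (.thr 29 17 (.thr 12 46 (.dbl 38 4 51)))) (.rp 46 (.thr 55 52 (.thr 38 4 (.thr 6 22 (.thr 2 14 (.thr 3 0 (.dbl 12 9 51)))))) (.rp 38 (.thr 52 55 (.thr 22 7 (.thr 23 20 (.thr 3 43 (.thr 0 2 (.thr 17 29 (.thr 19 28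 (.dbl 51 34 35)))))))) .nd)))))) (.rp 54 (.str 50 (.nv (.thr 51 48 (.thr 12 38 (.dbl 29 17 46))) (.nv (.thr 48 51 (.thr 60 52 (.dbl 61 41 62))) (.rp 51 (.str 60 (.nv (.dbl 61 41 62) (.rp 62 (.thr 52 48 (.thr 41 61 (.dbl 22 3 7))) (.rp 61 (.thr 52 48 (.thr 22 7 (.thr 23 20 (.dbl 3 41 43)))) (.rp 41 (.thr 52 48 (.thr 29 17 (.thr 12 46 (.thr 28 44 (.dbl 22 7 19))))) .nd))))) (.rp 48 (.thr 61 41 (.thr 29 17 (.thr 60 62 (.thr 12 46 (.thr 38 51 (.thr 36 39 (.thr 4 55 (.thr 20 52 (.dbl 0 8 40))))))))) .nd))))) (.rp 12 (.thr 61 41 (.thr 60 62 (.thr 52 48 (.thr 22 7 (.thr 20 23 (.thr 40 0 (.thr 28 19 (.dbl 24 8 16)))))))) .nd)))))))) (.rp 10 (.thr 42 0 (.str 15 (.nv (.dbl 47 31 32) (.rp 47 (.thr 41 61 (.thr 43 40 (.thr 3 23 (.thr 7 11 (.dbl 22 52 60))))) (.rp 32 (.thr 41 61 (.thr 43 40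 (.thr 3 23 (.thr 7 11 (.dbl 22 52 60))))) (.rp 31 (.thr 41 61 (.thr 43 40 (.thr 3 23 (.thr 7 11 (.dbl 22 52 60))))) .nd)))))) .nd))))))) (.rp 56 (.thr 58 48 (.thr 29 17 (.thr 12 46 (.thr 38 51 (.thr 4 55 (.dbl 0 8 42)))))) (.rp 42 (.thr 29 17 (.thr 12 46 (.thr 38 51 (.thr 36 39 (.dbl 48 24 58))))) .nd)))))) (.rp 29 (.thr 33 17 (.dbl 41 45 61)) (.rp 17 (.thr 41 61 (.thr 45 33 (.str 55 (.nv (.thr 4 38 (.thr 52 54 (.thr 22 7 (.dbl 20 23 36)))) (.nv (.thr 38 4 (.thr 36 39 (.thr 44 35 (.thr 32 40 (.dbl 47 42 46))))) (.nv (.thr 38 4 (.thr 39 36 (.thr 7 23 (.dbl 52 22 54)))) (.rp 58 (.str 56 (.nv (.thr 38 4 (.thr 36 39 (.thr 44 35 (.thr 32 40 (.dbl 47 42 46))))) (.nv (.thr 52 54 (.thr 60 48 (.dbl 22 3 7))) (.rp 42 (.str 10 (.nv (.thr 38 4 (.thr 39 36 (.thr 7 23 (.dbl 52 22 54)))) (.nv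 (.thr 52 54 (.thr 60 48 (.dbl 22 3 7))) (.rp 54 (.thr 38 4 (.thr 35 44 (.thr 51 12 (.thr 3 19 (.thr 60 22 (.dbl 48 50 52)))))) (.rp 52 (.thr 38 4 (.thr 44 35 (.thr 12 51 (.thr 36 39 (.thr 24 48 (.dbl 40 8 32)))))) (.rp 22 (.thr 38 4 (.thr 51 12 (.thr 48 50 (.dbl 52 54 60)))) (.rp 7 (.thr 4 38 (.thr 52 54 (.thr 60 48 (.thr 20 36 (.dbl 22 3 23))))) .nd))))))) (.rp 10 (.str 42 (.nv (.thr 0 63 (.thr 2 3 (.thr 52 54 (.dbl 22 7 62)))) (.nv (.thr 47 32 (.thr 44 46 (.dbl 38 4 35))) (.rp 0 (.str 15 (.nv (.thr 38 4 (.thr 44 35 (.dbl 46 34 47))) (.nv (.thr 60 30 (.dbl 52 48 54)) (.rp 51 (.str 34 (.nv (.thr 52 54 (.dbl 60 30 48)) (.nv (.dbl 38 4 46) (.rp 60 (.thr 54 52 (.dbl 38 4 46)) (.rp 54 (.thr 60 30 (.dbl 38 4 46)) .nd))))) (.rp 34 (.str 51 (.nv (.thr 32 47 (.thr 52 54 (.dbl 48 50 60)))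 (.nv (.dbl 38 4 12) (.rp 32 (.str 35 (.nv (.thr 3 19 (.dbl 60 22 30)) (.nv (.dbl 38 4 12) (.rp 48 (.str 16 (.nv (.dbl 38 4 12) (.nv (.thr 3 19 (.dbl 60 22 30)) (.rp 3 (.str 18 (.nv (.thr 39 27 (.dbl 43 40 47)) (.nv (.dbl 38 4 12) .nd))) .nd)))) (.rp 16 (.thr 48 50 (.dbl 60 30 52)) .nd))))) .nd)))) .nd))))) .nd)))) (.rp 7 (.thr 4 38 (.thr 52 54 (.thr 20 36 (.thr 60 48 (.dbl 22 3 23))))) .nd)))))) (.rp 56 (.str 58 (.nv (.thr 38 4 (.thr 36 39 (.thr 44 35 (.thr 32 40 (.dbl 47 42 46))))) (.nv (.thr 54 52 (.thr 50 62 (.dbl 48 51 63))) .nd))) (.rp 38 (.thr 52 54 (.thr 22 7 (.thr 20 23 (.thr 60 3 (.thr 0 40 (.thr 63 42 (.dbl 48 56 58))))))) (.rp 36 (.thr 52 54 (.thr 22 7 (.thr 19 28 (.thr 3 60 (.thr 51 35 (.dbl 38 4 12)))))) (.rp 7 (.thr 54 52 (.thr 38 4 (.thr 6 22 (.thr 36 39 (.thr 44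 35 (.thr 32 40 (.dbl 47 42 46))))))) (.rp 4 (.thr 52 54 (.thr 7 22 (.thr 39 23 (.thr 38 36 (.thr 51 12 (.thr 15 27 (.thr 35 44 (.dbl 3 11 19)))))))) .nd)))))))))))) .nd)))))))) (.rp 45 (.thr 61 57 (.thr 1 41 (.thr 17 33 (.dbl 25 13 29)))) (.rp 41 (.str 63 (.nv (.thr 25 13 (.thr 17 29 (.thr 48 58 (.thr 51 50 (.dbl 0 34 42))))) (.nv (.thr 13 25 (.thr 42 0 (.thr 47 32 (.thr 15 31 (.thr 12 14 (.thr 29 46 (.dbl 61 45 57))))))) (.nv (.thr 25 13 (.thr 29 17 (.thr 12 46 (.thr 38 51 (.thr 4 55 (.dbl 0 8 42)))))) (.nv (.thr 25 13 (.thr 29 17 (.thr 12 46 (.thr 48 58 (.dbl 51 38 50))))) (.rp 56 (.str 11 (.nv (.thr 13 25 (.thr 42 0 (.thr 47 32 (.thr 15 31 (.thr 12 14 (.thr 29 46 (.dbl 61 45 57))))))) (.nv (.thr 25 13 (.thr 29 17 (.thr 12 46 (.thr 38 51 (.thr 4 55 (.dbl 0 8 42)))))) (.nv (.thr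 25 13 (.thr 29 17 (.thr 57 61 (.thr 48 58 (.thr 12 46 (.dbl 51 38 50)))))) (.rp 58 (.thr 57 61 (.thr 25 13 (.thr 29 17 (.thr 12 46 (.thr 38 51 (.thr 4 55 (.dbl 0 8 42))))))) (.rp 57 (.thr 58 48 (.thr 25 13 (.thr 29 17 (.thr 0 42 (.thr 12 46 (.thr 4 8 (.dbl 38 51 55))))))) (.rp 46 (.thr 25 13 (.thr 17 29 (.thr 0 42 (.thr 51 34 (.thr 38 12 (.dbl 48 50 58)))))) (.rp 42 (.thr 25 13 (.thr 29 17 (.thr 12 46 (.thr 38 51 (.thr 36 39 (.dbl 48 24 58)))))) (.rp 38 (.thr 25 13 (.thr 17 29 (.thr 1 33 (.thr 0 42 (.thr 3 2 (.thr 7 15 (.thr 22 52 (.dbl 23 20 43)))))))) (.rp 29 (.thr 57 61 (.thr 48 58 (.thr 51 50 (.thr 54 60 (.thr 55 52 (.thr 38 4 (.dbl 25 12 13))))))) (.rp 25 (.thr 42 0 (.thr 47 32 (.thr 15 31 (.thr 3 7 (.thr 23 43 (.thr 22 20 (.thr 62 2 (.dbl 61 57 60)))))))) (.rp 13 (.thr 57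 61 (.thr 48 58 (.thr 51 50 (.thr 54 60 (.thr 55 52 (.thr 38 4 (.thr 12 25 (.dbl 36 24 39)))))))) (.rp 12 (.thr 25 13 (.thr 17 29 (.thr 0 42 (.thr 51 34 (.dbl 48 50 58))))) (.rp 9 (.thr 57 61 (.thr 48 58 (.thr 51 50 (.thr 54 60 (.thr 55 52 (.thr 38 4 (.dbl 25 12 13))))))) .nd)))))))))))))) (.rp 42 (.thr 25 13 (.thr 29 17 (.thr 12 46 (.thr 38 51 (.thr 36 39 (.dbl 48 24 58)))))) (.rp 38 (.thr 61 57 (.thr 60 62 (.thr 42 0 (.thr 47 32 (.thr 15 31 (.thr 45 30 (.dbl 13 25 29))))))) (.rp 29 (.thr 25 13 (.thr 48 58 (.thr 51 50 (.thr 38 12 (.thr 55 4 (.thr 54 52 (.dbl 57 60 61))))))) (.rp 25 (.thr 57 61 (.thr 48 58 (.thr 51 50 (.thr 54 60 (.thr 55 52 (.thr 38 4 (.thr 36 39 (.thr 42 0 (.thr 46 34 (.dbl 12 24 29)))))))))) (.rp 13 (.thr 61 57 (.thr 62 60 (.thr 58 48 (.thr 54 50 (.thr 52 55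 (.thr 22 7 (.dbl 42 0 2))))))) (.rp 11 (.str 56 (.nv (.thr 48 58 (.thr 60 52 (.dbl 61 57 62))) (.nv (.thr 25 13 (.thr 29 17 (.thr 12 46 (.thr 48 58 (.dbl 51 38 50))))) (.nv (.thr 61 57 (.thr 60 62 (.dbl 48 52 58))) (.rp 58 (.thr 61 57 (.thr 60 62 (.thr 52 48 (.thr 22 7 (.thr 20 23 (.dbl 0 40 42)))))) (.rp 48 (.thr 25 13 (.thr 29 17 (.thr 0 42 (.thr 12 46 (.thr 4 8 (.dbl 38 51 55)))))) (.rp 43 (.str 27 (.nv (.thr 42 0 (.thr 47 32 (.thr 15 31 (.thr 48 58 (.dbl 51 39 50))))) (.nv (.thr 48 58 (.thr 60 52 (.dbl 61 57 62))) (.rp 58 (.thr 61 57 (.thr 60 62 (.thr 52 48 (.thr 22 7 (.thr 20 23 (.dbl 0 40 42)))))) (.rp 48 (.thr 25 13 (.thr 29 17 (.thr 12 46 (.thr 38 51 (.thr 4 55 (.dbl 0 8 42)))))) (.rp 42 (.str 40 (.nv (.thr 24 8 (.thr 25 13 (.thr 29 17 (.thr 12 46 (.dbl 48 36 58))))) (.nv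 (.thr 61 57 (.thr 60 62 (.dbl 48 52 58))) (.rp 58 (.str 10 (.nv (.thr 8 24 (.thr 25 13 (.thr 29 17 (.thr 12 46 (.thr 4 0 (.dbl 38 51 55)))))) (.nv (.thr 61 57 (.thr 60 62 (.thr 20 0 (.thr 22 23 (.dbl 52 7 48))))) (.nv (.thr 25 13 (.thr 24 8 (.thr 29 17 (.thr 12 46 (.thr 48 36 (.dbl 51 38 50)))))) (.rp 25 (.thr 8 24 (.str 48 (.nv (.thr 57 61 (.thr 60 52 (.dbl 51 50 54))) (.nv (.thr 60 52 (.dbl 61 57 62)) (.rp 61 (.thr 51 50 (.thr 39 15 (.thr 38 36 (.thr 55 4 (.dbl 52 54 60))))) (.rp 60 (.thr 51 50 (.thr 39 15 (.thr 38 36 (.thr 55 4 (.thr 7 23 (.dbl 52 22 54)))))) (.rp 57 (.str 9 (.nv (.thr 60 52 (.thr 0 20 (.thr 4 12 (.thr 38 55 (.thr 36 39 (.dbl 32 16 44)))))) (.nv (.thr 52 60 (.thr 22 7 (.thr 23 20 (.thr 31 19 (.thr 15 47 (.dbl 51 39 50)))))) (.nv (.thr 51 50 (.thr 39 15 (.thr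 38 36 (.thr 52 60 (.thr 54 55 (.dbl 22 6 7)))))) (.nv (.thr 60 52 (.thr 0 20 (.thr 4 12 (.thr 38 55 (.thr 39 36 (.dbl 51 15 50)))))) (.rp 60 (.thr 51 50 (.thr 39 15 (.thr 38 36 (.thr 55 4 (.thr 7 23 (.dbl 52 22 54)))))) (.rp 52 (.thr 51 50 (.thr 39 15 (.thr 38 36 (.thr 4 55 (.thr 0 12 (.thr 17 34 (.thr 33 1 (.thr 16 32 (.dbl 18 3 19))))))))) (.rp 39 (.thr 51 50 (.thr 60 52 (.thr 0 20 (.thr 17 34 (.thr 33 1 (.thr 18 3 (.dbl 16 19 32))))))) .nd)))))))) (.rp 52 (.thr 51 50 (.thr 39 15 (.thr 38 36 (.thr 4 55 (.thr 57 61 (.thr 0 12 (.dbl 60 20 54))))))) .nd)))))))) (.rp 9 (.thr 57 61 (.thr 8 24 (.str 29 (.nv (.dbl 25 13 17) (.rp 25 (.thr 12 46 (.thr 0 4 (.thr 60 20 (.thr 52 48 (.dbl 54 51 55))))) (.rp 17 (.thr 12 46 (.thr 4 0 (.thr 38 55 (.dbl 25 13 51)))) (.rp 13 (.str 1 (.nv (.dbl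 17 25 33) (.rp 33 (.thr 25 17 (.thr 12 46 (.thr 4 0 (.dbl 38 51 55)))) (.rp 25 (.thr 17 33 (.thr 12 46 (.thr 0 4 (.thr 60 20 (.dbl 51 34 54))))) (.rp 17 (.thr 12 46 (.thr 0 4 (.thr 60 20 (.thr 52 48 (.dbl 54 51 55))))) .nd))))) (.rp 1 (.thr 13 25 (.thr 12 46 (.thr 0 4 (.thr 60 20 (.thr 52 48 (.dbl 54 51 55)))))) .nd)))))))) (.rp 8 (.thr 25 13 (.thr 61 57 (.thr 60 62 (.thr 52 48 (.thr 22 7 (.dbl 20 0 23)))))) .nd))))))) (.rp 48 (.thr 25 13 (.thr 29 17 (.thr 8 24 (.thr 12 46 (.thr 4 0 (.dbl 38 51 55)))))) (.rp 25 (.thr 8 24 (.thr 57 61 (.str 51 (.nv (.dbl 48 50 58) (.rp 58 (.str 10 (.nv (.thr 39 15 (.thr 54 60 (.thr 55 52 (.dbl 38 4 36)))) (.nv (.thr 60 54 (.dbl 48 50 52)) (.rp 60 (.thr 39 15 (.thr 38 36 (.thr 55 4 (.thr 7 23 (.dbl 52 22 54))))) (.rp 54 (.thr 39 15 (.thr 38 36 (.thr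 55 4 (.thr 7 23 (.thr 52 22 (.dbl 48 50 60)))))) (.rp 52 (.thr 39 15 (.thr 38 36 (.thr 4 55 (.thr 60 54 (.dbl 0 12 20))))) .nd)))))) (.rp 50 (.thr 60 54 (.dbl 48 52 58)) (.rp 48 (.thr 39 15 (.thr 54 60 (.thr 55 52 (.dbl 38 4 36)))) (.rp 10 (.thr 58 48 (.thr 54 60 (.thr 55 52 (.thr 38 4 (.dbl 39 15 36))))) .nd)))))))) (.rp 10 (.thr 58 48 (.thr 25 13 (.thr 29 17 (.thr 8 24 (.thr 12 46 (.thr 38 51 (.dbl 4 0 55))))))) (.rp 9 (.thr 57 61 (.thr 13 25 (.thr 8 24 (.str 51 (.nv (.dbl 48 50 58) (.rp 58 (.str 10 (.nv (.thr 15 39 (.thr 12 14 (.thr 0 4 (.dbl 60 20 54)))) (.nv (.thr 60 54 (.dbl 48 50 52)) (.rp 60 (.thr 39 15 (.thr 38 36 (.thr 55 4 (.thr 7 23 (.dbl 52 22 54))))) (.rp 54 (.thr 15 39 (.thr 12 14 (.thr 0 4 (.thr 60 20 (.dbl 48 50 52))))) (.rp 50 (.thr 39 15 (.thr 38 36 (.thr 55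 4 (.dbl 54 52 60)))) .nd)))))) (.rp 50 (.thr 60 54 (.dbl 48 52 58)) (.rp 48 (.thr 15 39 (.thr 12 14 (.thr 0 4 (.dbl 60 20 54)))) (.rp 10 (.thr 58 48 (.thr 15 39 (.thr 12 14 (.thr 0 4 (.dbl 60 20 54))))) .nd))))))))) (.rp 8 (.thr 25 13 (.thr 61 57 (.thr 60 62 (.dbl 48 52 58)))) .nd))))))))) (.rp 10 (.thr 61 57 (.thr 60 62 (.dbl 48 52 58))) .nd))))))) (.rp 27 (.str 43 (.nv (.thr 23 3 (.thr 22 20 (.thr 48 58 (.dbl 52 7 60)))) (.nv (.thr 25 13 (.thr 3 23 (.thr 17 29 (.thr 1 33 (.dbl 0 2 42))))) (.nv (.thr 61 57 (.thr 60 62 (.dbl 48 52 58))) (.rp 25 (.str 24 (.nv (.thr 42 0 (.thr 47 32 (.thr 39 35 (.thr 48 58 (.dbl 36 12 38))))) (.nv (.thr 48 58 (.thr 60 52 (.dbl 61 57 62))) (.rp 58 (.thr 23 3 (.thr 42 0 (.thr 47 32 (.thr 39 35 (.thr 7 55 (.dbl 22 20 52)))))) (.rp 57 (.str 9 (.nv (.thr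 42 0 (.thr 47 32 (.thr 39 35 (.thr 48 58 (.dbl 36 12 38))))) (.nv (.thr 3 23 (.thr 8 40 (.thr 12 6 (.dbl 0 4 42)))) (.nv (.thr 48 58 (.thr 12 36 (.dbl 3 6 23))) (.rp 42 (.thr 8 40 (.thr 3 23 (.thr 12 6 (.dbl 48 36 58)))) (.rp 12 (.thr 23 3 (.thr 48 58 (.thr 52 60 (.dbl 22 7 20)))) .nd)))))) (.rp 48 (.thr 23 3 (.thr 42 0 (.thr 22 20 (.thr 7 52 (.thr 39 55 (.dbl 47 32 35)))))) (.rp 42 (.thr 8 40 (.thr 23 3 (.thr 22 20 (.thr 7 52 (.thr 39 55 (.thr 36 38 (.dbl 48 12 58))))))) (.rp 10 (.thr 23 3 (.thr 22 20 (.thr 7 52 (.thr 39 55 (.thr 47 35 (.dbl 42 0 32)))))) (.rp 9 (.thr 57 61 (.thr 48 58 (.thr 60 52 (.dbl 51 50 54)))) .nd))))))))) .nd))))) .nd)))))))) (.rp 9 (.thr 57 61 (.thr 48 58 (.thr 51 50 (.thr 54 60 (.thr 55 52 (.thr 38 4 (.dbl 25 12 13))))))) .nd))))))))))))) (.rp 33 (.str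 52 (.nv (.thr 7 22 (.thr 55 54 (.thr 38 4 (.dbl 39 23 36)))) (.nv (.thr 22 7 (.thr 20 23 (.thr 55 54 (.dbl 4 36 38)))) (.rp 55 (.thr 61 57 (.thr 41 1 (.thr 22 7 (.thr 60 3 (.thr 63 62 (.dbl 48 56 58)))))) (.rp 54 (.thr 61 57 (.thr 41 1 (.thr 22 7 (.thr 60 3 (.thr 63 62 (.dbl 48 56 58)))))) (.rp 38 (.thr 61 57 (.thr 41 1 (.thr 22 7 (.thr 60 3 (.thr 63 62 (.dbl 48 56 58)))))) (.rp 36 (.thr 61 57 (.thr 41 1 (.thr 22 7 (.thr 60 3 (.thr 63 62 (.dbl 48 56 58)))))) (.rp 23 (.thr 61 57 (.thr 41 1 (.thr 22 7 (.thr 60 3 (.thr 63 62 (.dbl 48 56 58)))))) (.rp 22 (.thr 57 61 (.thr 25 13 (.thr 29 17 (.thr 54 55 (.thr 51 60 (.thr 12 38 (.thr 63 46 (.dbl 48 50 58)))))))) (.rp 7 (.thr 57 61 (.thr 25 13 (.thr 29 17 (.thr 54 55 (.thr 51 60 (.thr 12 38 (.thr 63 46 (.dbl 48 50 58)))))))) (.rp 4 (.thr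 57 61 (.thr 25 13 (.thr 54 55 (.thr 51 60 (.thr 38 12 (.dbl 22 6 7)))))) .nd))))))))))) (.rp 29 (.str 52 (.nv (.thr 7 22 (.thr 55 54 (.thr 38 4 (.dbl 39 23 36)))) (.nv (.thr 22 7 (.thr 20 23 (.thr 55 54 (.dbl 4 36 38)))) (.rp 55 (.thr 61 57 (.thr 41 1 (.thr 22 7 (.thr 60 3 (.thr 63 62 (.dbl 48 56 58)))))) (.rp 54 (.thr 61 57 (.thr 41 1 (.thr 22 7 (.thr 60 3 (.thr 63 62 (.dbl 48 56 58)))))) (.rp 38 (.thr 61 57 (.thr 41 1 (.thr 22 7 (.thr 60 3 (.thr 63 62 (.dbl 48 56 58)))))) (.rp 36 (.thr 61 57 (.thr 41 1 (.thr 22 7 (.thr 60 3 (.thr 63 62 (.dbl 48 56 58)))))) (.rp 23 (.thr 61 57 (.thr 41 1 (.thr 22 7 (.thr 60 3 (.thr 63 62 (.dbl 48 56 58)))))) (.rp 22 (.thr 61 57 (.thr 41 1 (.thr 33 45 (.thr 55 54 (.thr 38 4 (.thr 39 36 (.thr 35 44 (.thr 47 43 (.dbl 32 34 42))))))))) (.rp 7 (.thr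 61 57 (.thr 41 1 (.thr 55 54 (.thr 4 38 (.thr 20 36 (.thr 22 23 (.thr 60 3 (.thr 0 40 (.dbl 63 42 62))))))))) (.rp 4 (.thr 61 57 (.thr 41 1 (.thr 54 55 (.thr 22 7 (.thr 6 38 (.thr 60 3 (.thr 63 62 (.dbl 48 56 58)))))))) .nd))))))))))) (.rp 25 (.str 42 (.nv (.thr 32 47 (.thr 61 57 (.thr 41 1 (.thr 33 45 (.thr 35 34 (.thr 40 43 (.dbl 44 36 38))))))) (.nv (.thr 0 63 (.thr 32 47 (.thr 48 16 (.thr 51 50 (.thr 17 34 (.thr 1 33 (.dbl 61 41 57))))))) (.nv (.thr 61 57 (.thr 63 0 (.thr 60 62 (.thr 41 1 (.thr 43 40 (.dbl 3 22 23)))))) (.rp 61 (.thr 32 47 (.thr 0 63 (.thr 48 16 (.thr 51 50 (.thr 34 17 (.thr 35 33 (.thr 38 46 (.thr 36 39 (.dbl 44 40 41))))))))) (.rp 57 (.thr 32 47 (.thr 0 63 (.thr 48 16 (.thr 51 50 (.thr 34 17 (.thr 33 35 (.thr 41 45 (.thr 1 61 (.dbl 3 2 18))))))))) (.rp 41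 (.thr 57 61 (.thr 32 47 (.thr 0 63 (.thr 48 16 (.thr 51 50 (.thr 60 54 (.thr 20 40 (.thr 22 23 (.dbl 52 7 56))))))))) (.rp 27 (.str 24 (.nv (.thr 32 47 (.thr 61 57 (.thr 41 1 (.thr 33 45 (.thr 35 34 (.thr 44 38 (.dbl 40 36 43))))))) (.nv (.thr 0 63 (.thr 32 47 (.thr 48 16 (.thr 36 12 (.thr 38 39 (.thr 51 50 (.dbl 34 17 46))))))) (.nv (.thr 61 57 (.thr 41 1 (.thr 63 0 (.thr 60 62 (.thr 43 40 (.dbl 3 22 23)))))) (.rp 43 (.str 11 (.nv (.thr 61 57 (.thr 41 1 (.thr 45 33 (.thr 63 0 (.thr 60 62 (.thr 3 22 (.dbl 15 7 30))))))) (.nv (.thr 0 63 (.thr 32 47 (.thr 48 16 (.thr 12 36 (.thr 4 8 (.thr 38 55 (.thr 51 50 (.dbl 34 17 46)))))))) (.nv (.thr 47 32 (.thr 61 57 (.thr 63 0 (.thr 15 31 (.thr 60 62 (.thr 41 1 (.dbl 3 7 22))))))) (.rp 63 (.thr 32 47 (.thr 61 57 (.thr 41 1 (.thr 33 45 (.thr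 35 34 (.thr 44 38 (.thr 36 40 (.thr 12 48 (.thr 28 60 (.thr 20 16 (.thr 52 4 (.dbl 22 7 23)))))))))))) (.rp 15 (.thr 32 47 (.thr 61 57 (.thr 41 1 (.thr 33 45 (.thr 35 34 (.thr 44 38 (.thr 36 40 (.thr 12 48 (.thr 60 28 (.dbl 63 0 62)))))))))) (.rp 3 (.thr 63 0 (.thr 58 48 (.thr 61 57 (.thr 62 60 (.thr 54 50 (.thr 52 55 (.dbl 22 2 7))))))) (.rp 0 (.thr 32 47 (.thr 61 57 (.thr 41 1 (.thr 33 45 (.thr 35 34 (.thr 44 38 (.thr 36 40 (.thr 12 48 (.thr 60 28 (.thr 62 63 (.dbl 22 2 3))))))))))) .nd)))))))) (.rp 11 (.str 43 (.nv (.thr 41 40 (.dbl 61 1 57)) (.rp 61 (.thr 41 40 (.thr 33 45 (.thr 63 0 (.thr 48 58 (.dbl 3 18 23))))) (.rp 57 (.thr 41 40 (.thr 33 45 (.dbl 1 17 61))) (.rp 41 (.str 56 (.nv (.thr 0 63 (.thr 8 40 (.thr 4 12 (.thr 47 32 (.thr 39 35 (.dbl 38 36 55)))))) (.nv (.thr 63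 0 (.thr 48 58 (.thr 60 52 (.dbl 61 57 62)))) (.rp 63 (.thr 32 47 (.thr 40 8 (.thr 36 44 (.thr 48 12 (.thr 60 52 (.dbl 0 16 20)))))) (.rp 57 (.str 9 (.nv (.thr 0 63 (.thr 8 40 (.thr 4 12 (.thr 47 32 (.thr 39 35 (.dbl 38 36 55)))))) (.nv (.thr 0 63 (.thr 32 47 (.thr 16 48 (.thr 20 28 (.dbl 40 8 60))))) (.nv (.thr 63 0 (.thr 48 58 (.thr 12 36 (.dbl 3 6 23)))) (.rp 63 (.thr 40 8 (.thr 32 47 (.thr 36 44 (.thr 48 12 (.thr 0 16 (.dbl 60 20 52)))))) (.rp 0 (.thr 47 32 (.thr 39 35 (.thr 38 36 (.thr 55 4 (.thr 7 23 (.dbl 52 22 54)))))) .nd)))))) (.rp 9 (.thr 57 61 (.thr 63 0 (.thr 48 58 (.thr 60 52 (.dbl 51 50 54))))) (.rp 0 (.thr 47 32 (.thr 39 35 (.thr 38 36 (.thr 55 4 (.thr 52 54 (.dbl 7 22 23)))))) .nd))))))) (.rp 40 (.thr 61 57 (.thr 63 0 (.thr 60 62 (.thr 41 1 (.dbl 3 22 23))))) (.rp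 1 (.thr 61 57 (.thr 41 40 (.thr 63 0 (.thr 60 62 (.dbl 3 22 23))))) .nd))))))) .nd)))))) (.rp 24 (.str 27 (.nv (.thr 61 57 (.thr 41 1 (.thr 43 40 (.thr 63 0 (.thr 3 23 (.dbl 60 22 62)))))) (.nv (.thr 32 47 (.thr 61 57 (.thr 41 1 (.thr 33 45 (.thr 35 34 (.thr 40 43 (.dbl 44 36 38))))))) (.nv (.thr 47 32 (.thr 63 0 (.thr 15 31 (.thr 51 39 (.dbl 48 50 58))))) (.rp 58 (.thr 63 0 (.thr 47 32 (.thr 15 31 (.thr 39 51 (.thr 43 35 (.thr 41 40 (.dbl 61 1 57))))))) .nd))))) (.rp 1 (.thr 61 57 (.thr 63 0 (.thr 58 48 (.thr 62 60 (.thr 54 50 (.thr 52 55 (.dbl 22 2 7))))))) .nd)))))))))) (.rp 13 (.str 38 (.nv (.thr 39 36 (.thr 55 4 (.thr 7 23 (.dbl 52 22 54)))) (.rp 55 (.thr 61 57 (.thr 1 41 (.thr 17 33 (.thr 25 29 (.thr 51 12 (.thr 0 34 (.thr 48 50 (.dbl 63 42 58)))))))) (.rp 54 (.thr 61 57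 (.thr 1 41 (.thr 17 33 (.thr 25 29 (.thr 51 12 (.thr 0 34 (.thr 48 50 (.dbl 63 42 58)))))))) (.rp 52 (.thr 61 57 (.thr 1 41 (.thr 17 33 (.thr 25 29 (.thr 51 12 (.thr 0 34 (.thr 48 50 (.dbl 63 42 58)))))))) (.rp 39 (.thr 61 57 (.thr 1 41 (.thr 17 33 (.thr 25 29 (.thr 51 12 (.thr 0 34 (.thr 48 50 (.dbl 63 42 58)))))))) (.rp 36 (.thr 61 57 (.thr 1 41 (.thr 17 33 (.thr 25 29 (.thr 51 12 (.thr 0 34 (.thr 48 50 (.dbl 63 42 58)))))))) (.rp 23 (.thr 36 39 (.thr 55 4 (.thr 54 52 (.thr 57 61 (.thr 51 60 (.thr 48 50 (.dbl 12 24 25))))))) (.rp 22 (.thr 36 39 (.thr 55 4 (.thr 54 52 (.thr 57 61 (.thr 51 60 (.thr 48 50 (.dbl 12 24 25))))))) (.rp 20 (.thr 39 36 (.thr 55 4 (.thr 52 54 (.dbl 7 22 23)))) (.rp 9 (.str 1 (.nv (.dbl 61 41 57) (.rp 61 (.thr 39 36 (.thr 55 4 (.thr 7 23 (.dbl 52 22 54))))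 (.rp 57 (.thr 33 17 (.dbl 41 45 61)) (.rp 41 (.thr 39 36 (.thr 55 4 (.thr 7 23 (.dbl 52 22 54)))) .nd))))) (.rp 7 (.thr 61 57 (.thr 1 41 (.thr 17 33 (.thr 25 29 (.thr 51 12 (.thr 0 34 (.thr 48 50 (.dbl 63 42 58)))))))) (.rp 4 (.thr 61 57 (.thr 1 41 (.thr 17 33 (.thr 25 29 (.thr 51 12 (.thr 0 34 (.thr 48 50 (.dbl 63 42 58)))))))) (.rp 1 (.str 9 (.nv (.thr 55 4 (.thr 57 61 (.thr 25 41 (.thr 51 12 (.dbl 54 52 60))))) (.nv (.thr 39 36 (.thr 55 4 (.thr 7 23 (.dbl 52 22 54)))) (.rp 55 (.thr 36 39 (.thr 57 61 (.thr 25 41 (.thr 29 17 (.thr 12 51 (.thr 63 46 (.dbl 48 24 58))))))) (.rp 54 (.thr 36 39 (.thr 57 61 (.thr 25 41 (.thr 12 51 (.thr 48 24 (.thr 29 17 (.dbl 63 46 58))))))) (.rp 52 (.thr 36 39 (.thr 57 61 (.thr 25 41 (.thr 12 51 (.thr 48 24 (.thr 29 17 (.dbl 63 46 58))))))) (.rp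 7 (.thr 57 61 (.thr 25 41 (.thr 51 12 (.thr 54 60 (.dbl 55 4 52))))) (.rp 4 (.thr 57 61 (.thr 25 41 (.thr 51 12 (.thr 54 60 (.thr 52 55 (.dbl 22 6 7)))))) .nd)))))))) .nd)))))))))))))) (.rp 1 (.str 52 (.nv (.thr 13 25 (.thr 7 22 (.thr 55 54 (.thr 38 4 (.dbl 39 23 36))))) (.nv (.thr 22 7 (.thr 20 23 (.thr 55 54 (.dbl 4 36 38)))) (.rp 55 (.thr 61 57 (.thr 13 25 (.thr 45 29 (.thr 41 33 (.thr 22 7 (.thr 60 3 (.thr 63 62 (.dbl 48 56 58)))))))) (.rp 54 (.thr 61 57 (.thr 13 25 (.thr 45 29 (.thr 41 33 (.thr 22 7 (.thr 60 3 (.thr 63 62 (.dbl 48 56 58)))))))) (.rp 38 (.thr 61 57 (.thr 13 25 (.thr 45 29 (.thr 41 33 (.thr 22 7 (.thr 60 3 (.thr 63 62 (.dbl 48 56 58)))))))) (.rp 36 (.thr 57 61 (.thr 25 13 (.thr 9 41 (.thr 54 55 (.thr 51 60 (.thr 38 12 (.dbl 22 6 7))))))) (.rp 23 (.thr 57 61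 (.thr 25 13 (.thr 9 41 (.thr 54 55 (.thr 51 60 (.thr 38 12 (.dbl 22 6 7))))))) (.rp 22 (.thr 61 57 (.thr 13 25 (.thr 45 29 (.thr 41 33 (.thr 55 54 (.thr 38 4 (.thr 36 39 (.thr 44 35 (.thr 32 40 (.dbl 47 42 46)))))))))) (.rp 13 (.str 9 (.nv (.thr 22 7 (.thr 57 61 (.thr 41 25 (.thr 60 3 (.thr 48 56 (.dbl 51 50 54)))))) (.nv (.thr 22 7 (.thr 20 23 (.thr 55 54 (.dbl 4 36 38)))) (.rp 54 (.thr 57 61 (.thr 41 25 (.thr 22 7 (.thr 20 23 (.thr 60 3 (.thr 0 40 (.thr 48 56 (.dbl 63 42 58)))))))) (.rp 22 (.thr 57 61 (.thr 41 25 (.thr 45 33 (.thr 55 54 (.thr 38 4 (.thr 36 39 (.thr 44 35 (.thr 32 40 (.dbl 47 42 46))))))))) (.rp 7 (.thr 57 61 (.thr 25 41 (.thr 29 17 (.thr 54 55 (.thr 51 60 (.thr 12 38 (.thr 63 46 (.dbl 48 50 58)))))))) (.rp 6 (.thr 55 54 (.thr 4 38 (.thr 22 7 (.dbl 20 23 36))))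 (.rp 4 (.thr 57 61 (.thr 41 25 (.thr 54 55 (.thr 22 7 (.thr 6 38 (.dbl 60 3 51)))))) .nd)))))))) (.rp 7 (.thr 57 61 (.thr 25 13 (.thr 9 41 (.thr 29 17 (.thr 54 55 (.thr 51 60 (.thr 12 38 (.thr 63 46 (.dbl 48 50 58))))))))) (.rp 4 (.thr 57 61 (.thr 25 13 (.thr 9 41 (.thr 54 55 (.thr 51 60 (.thr 38 12 (.dbl 22 6 7))))))) .nd)))))))))))) .nd))))))))))))

theorem w561 : WinAt (9007336695791616, 576460752370532384) :=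
  chF (K := []) kn c561 9007336695791616 576460752370532384 5
    [] (by decide +kernel) (by decide +kernel)

/-- A certificate. -/
noncomputable def c562 : Ct := (.str 38 (.nv (.thr 36 39 (.thr 4 55 (.thr 7 6 (.dbl 52 20 22)))) (.rp 55 (.str 52 (.nv (.thr 36 39 (.thr 20 4 (.dbl 22 7 23))) (.rp 39 (.thr 22 7 (.thr 23 20 (.str 0 (.nv (.thr 6 54 (.thr 10 15 (.thr 42 63 (.dbl 2 14 62)))) (.nv (.thr 10 15 (.thr 6 54 (.thr 2 14 (.dbl 42 62 63)))) (.nv (.thr 63 42 (.thr 3 43 (.thr 1 2 (.thr 9 13 (.dbl 6 12 54))))) (.rp 63 (.thr 6 54 (.thr 10 15 (.thr 2 14 (.thr 3 1 (.thr 12 9 (.thr 51 25 (.thr 34 17 (.dbl 42 46 62)))))))) (.rp 54 (.thr 10 15 (.thr 63 42 (.thr 3 43 (.thr 1 2 (.thr 9 13 (.thr 12 6 (.dbl 8 4 11))))))) (.rp 42 (.thr 6 54 (.thr 10 15 (.thr 2 14 (.thr 3 1 (.thr 12 9 (.thr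 63 43 (.thr 29 46 (.dbl 25 17 51)))))))) (.rp 10 (.thr 6 54 (.thr 42 63 (.thr 34 46 (.thr 51 17 (.thr 12 25 (.thr 3 9 (.dbl 2 1 62))))))) (.rp 6 (.thr 63 42 (.thr 3 43 (.thr 1 2 (.thr 13 9 (.thr 49 25 (.thr 33 17 (.dbl 41 45 61))))))) (.rp 3 (.thr 42 63 (.thr 32 47 (.thr 48 16 (.thr 34 46 (.thr 51 17 (.thr 49 50 (.dbl 25 12 13))))))) (.rp 2 (.thr 6 54 (.thr 63 42 (.thr 3 43 (.thr 12 9 (.thr 29 46 (.dbl 25 17 51)))))) .nd))))))))))))) (.rp 36 (.str 0 (.nv (.thr 10 15 (.thr 22 7 (.thr 6 54 (.thr 42 63 (.dbl 2 14 62))))) (.nv (.thr 42 63 (.thr 34 46 (.thr 51 17 (.thr 12 25 (.thr 4 8 (.dbl 7 6 22)))))) (.nv (.thr 7 22 (.thr 6 4 (.thr 15 10 (.thr 3 11 (.thr 9 12 (.dbl 1 2 13)))))) (.nv (.thr 7 22 (.thr 4 6 (.thr 12 8 (.thr 25 51 (.thr 29 17 (.dbl 63 42 46)))))) (.rp 42 (.thr 7 22 (.thr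 4 6 (.thr 12 8 (.thr 25 51 (.thr 13 49 (.dbl 15 10 14)))))) (.rp 22 (.thr 42 63 (.thr 32 47 (.thr 48 16 (.thr 34 46 (.thr 51 17 (.thr 49 50 (.dbl 25 12 13))))))) (.rp 7 (.thr 42 63 (.thr 32 47 (.thr 48 16 (.thr 34 46 (.thr 51 17 (.thr 49 50 (.dbl 25 12 13))))))) (.rp 6 (.thr 42 63 (.thr 32 47 (.thr 48 16 (.thr 34 46 (.thr 51 17 (.thr 49 50 (.dbl 25 12 13))))))) .nd))))))))) (.rp 23 (.thr 36 39 (.thr 7 22 (.dbl 4 6 20))) (.rp 22 (.str 41 (.nv (.thr 36 39 (.thr 44 35 (.thr 32 40 (.thr 45 33 (.dbl 47 42 46))))) (.nv (.thr 33 45 (.thr 1 61 (.thr 49 17 (.dbl 13 9 25)))) (.rp 45 (.thr 1 61 (.thr 13 9 (.thr 49 25 (.thr 33 17 (.thr 35 44 (.thr 32 34 (.thr 39 36 (.dbl 47 42 43)))))))) (.rp 33 (.str 63 (.nv (.thr 1 61 (.thr 9 13 (.thr 42 0 (.thr 46 34 (.thr 29 12 (.dbl 25 17 57)))))) (.nv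 (.thr 0 42 (.thr 36 39 (.thr 4 20 (.thr 12 8 (.thr 25 51 (.dbl 29 17 46)))))) (.nv (.thr 42 0 (.thr 40 43 (.thr 32 47 (.dbl 36 39 44)))) (.rp 42 (.thr 39 36 (.thr 1 61 (.thr 13 9 (.thr 35 44 (.thr 47 43 (.thr 15 31 (.thr 12 14 (.dbl 51 25 27)))))))) (.rp 30 (.str 18 (.nv (.thr 1 61 (.thr 9 13 (.thr 42 0 (.thr 46 34 (.thr 29 12 (.dbl 25 17 57)))))) (.nv (.thr 0 42 (.thr 36 39 (.thr 4 20 (.thr 12 8 (.thr 25 51 (.dbl 29 17 46)))))) (.nv (.thr 42 0 (.thr 40 43 (.thr 32 47 (.dbl 36 39 44)))) (.rp 45 (.str 15 (.nv (.thr 35 44 (.thr 39 36 (.dbl 47 31 43))) (.nv (.dbl 0 10 42) .nd))) (.rp 42 (.thr 39 36 (.thr 1 61 (.thr 35 44 (.thr 43 47 (.thr 3 23 (.thr 51 19 (.thr 9 13 (.dbl 25 12 57)))))))) (.rp 15 (.str 45 (.nv (.thr 35 44 (.thr 39 36 (.thr 42 0 (.dbl 43 40 47)))) (.nv (.thr 61 1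 (.thr 29 13 (.thr 12 46 (.dbl 25 17 51)))) (.nv (.thr 44 35 (.thr 47 46 (.dbl 42 0 32))) .nd)))) (.rp 0 (.thr 39 36 (.thr 1 61 (.thr 35 44 (.thr 43 47 (.thr 3 23 (.thr 51 19 (.thr 9 13 (.dbl 25 12 57)))))))) .nd)))))))) (.rp 18 (.str 30 (.nv (.thr 1 61 (.thr 9 13 (.thr 42 0 (.thr 46 34 (.thr 29 12 (.dbl 25 17 57)))))) (.nv (.thr 0 42 (.thr 36 39 (.thr 4 20 (.thr 12 8 (.thr 25 51 (.dbl 29 17 46)))))) (.nv (.thr 42 0 (.thr 40 43 (.thr 32 47 (.dbl 36 39 44)))) (.rp 48 (.str 3 (.nv (.thr 35 44 (.thr 39 36 (.dbl 43 23 47))) (.nv (.thr 1 61 (.dbl 0 2 42)) .nd))) (.rp 42 (.thr 39 36 (.thr 35 44 (.thr 47 43 (.thr 31 15 (.thr 29 28 (.thr 12 46 (.dbl 25 17 51))))))) (.rp 3 (.str 48 (.nv (.thr 36 39 (.thr 12 24 (.thr 29 46 (.dbl 25 17 51)))) (.nv (.thr 35 44 (.thr 39 36 (.thr 47 43 (.dbl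 42 0 32)))) (.rp 39 (.thr 42 0 (.thr 47 32 (.thr 31 15 (.thr 29 28 (.dbl 46 12 34))))) (.rp 36 (.thr 42 0 (.thr 47 32 (.thr 31 15 (.thr 29 28 (.dbl 46 12 34))))) (.rp 12 (.thr 0 42 (.thr 32 16 (.thr 36 39 (.dbl 44 35 40)))) .nd)))))) (.rp 0 (.thr 39 36 (.thr 35 44 (.thr 47 43 (.thr 31 15 (.thr 29 28 (.thr 12 46 (.dbl 25 17 51))))))) .nd)))))))) (.rp 0 (.thr 39 36 (.thr 1 61 (.thr 13 9 (.thr 35 44 (.thr 47 43 (.thr 15 31 (.thr 12 14 (.dbl 51 25 27)))))))) .nd)))))))) (.rp 30 (.str 18 (.nv (.thr 1 61 (.thr 13 9 (.thr 49 25 (.dbl 33 17 45)))) (.nv (.thr 45 33 (.thr 36 39 (.thr 44 35 (.thr 32 40 (.dbl 47 42 46))))) (.rp 45 (.str 15 (.nv (.thr 0 10 (.thr 36 39 (.thr 44 35 (.thr 32 40 (.dbl 42 47 63))))) (.nv (.thr 1 61 (.thr 13 9 (.thr 12 14 (.dbl 25 49 51)))) (.rp 63 (.thr 0 10 (.thr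 39 36 (.thr 51 27 (.thr 25 12 (.dbl 17 29 34))))) .nd)))) (.rp 33 (.str 15 (.nv (.thr 0 10 (.thr 36 39 (.thr 44 35 (.thr 32 40 (.dbl 42 47 63))))) (.nv (.thr 1 61 (.thr 13 9 (.thr 12 14 (.dbl 25 49 51)))) (.rp 63 (.thr 0 10 (.thr 39 36 (.thr 51 27 (.thr 25 12 (.dbl 17 29 34))))) .nd)))) .nd))))) (.rp 18 (.str 30 (.nv (.thr 33 45 (.thr 35 44 (.thr 32 34 (.thr 39 36 (.dbl 47 42 43))))) (.nv (.thr 1 61 (.thr 13 9 (.thr 33 45 (.dbl 49 17 25)))) (.rp 45 (.thr 39 36 (.thr 1 61 (.thr 13 9 (.thr 35 44 (.thr 47 43 (.thr 32 42 (.thr 33 34 (.dbl 49 17 25)))))))) (.rp 33 (.str 63 (.nv (.thr 1 61 (.thr 9 13 (.thr 42 0 (.thr 46 34 (.thr 29 12 (.dbl 25 17 57)))))) (.nv (.thr 0 42 (.thr 36 39 (.thr 4 20 (.thr 12 8 (.thr 25 51 (.dbl 29 17 46)))))) (.nv (.thr 42 0 (.thr 40 43 (.thr 32 47 (.dbl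 36 39 44)))) (.rp 48 (.str 3 (.nv (.thr 35 44 (.thr 39 36 (.dbl 43 23 47))) (.nv (.thr 1 61 (.dbl 0 2 42)) .nd))) (.rp 42 (.thr 39 36 (.thr 35 44 (.thr 47 43 (.thr 31 15 (.thr 29 28 (.thr 12 46 (.dbl 25 17 51))))))) (.rp 3 (.str 48 (.nv (.thr 36 39 (.thr 12 24 (.thr 29 46 (.dbl 25 17 51)))) (.nv (.thr 35 44 (.thr 39 36 (.thr 47 43 (.dbl 42 0 32)))) (.rp 39 (.thr 42 0 (.thr 47 32 (.thr 31 15 (.thr 29 28 (.dbl 46 12 34))))) (.rp 36 (.thr 42 0 (.thr 47 32 (.thr 31 15 (.thr 29 28 (.dbl 46 12 34))))) (.rp 12 (.thr 0 42 (.thr 32 16 (.thr 36 39 (.dbl 44 35 40)))) .nd)))))) (.rp 0 (.thr 39 36 (.thr 35 44 (.thr 47 43 (.thr 31 15 (.thr 29 28 (.thr 12 46 (.dbl 25 17 51))))))) .nd)))))))) .nd))))) .nd))))))) (.rp 20 (.str 0 (.nv (.thr 10 15 (.thr 22 7 (.thr 6 54 (.thr 42 63 (.dbl 2 14 62)))))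 (.nv (.thr 7 22 (.thr 4 6 (.thr 12 8 (.thr 25 51 (.thr 29 17 (.dbl 63 42 46)))))) (.nv (.thr 7 22 (.thr 4 6 (.thr 12 8 (.thr 25 51 (.thr 13 49 (.dbl 15 10 14)))))) (.nv (.thr 15 10 (.thr 39 36 (.thr 51 27 (.thr 17 34 (.dbl 25 12 29))))) (.rp 51 (.thr 7 22 (.thr 6 4 (.thr 15 10 (.thr 3 11 (.thr 1 2 (.dbl 9 12 13)))))) .nd)))))) (.rp 7 (.thr 39 36 (.str 35 (.nv (.thr 47 43 (.thr 42 32 (.thr 0 63 (.thr 15 10 (.thr 34 46 (.dbl 51 17 27)))))) (.nv (.thr 41 44 (.thr 1 61 (.thr 13 9 (.thr 49 25 (.dbl 33 17 45))))) (.nv (.thr 47 43 (.thr 42 32 (.thr 46 34 (.dbl 44 41 45)))) (.rp 44 (.thr 47 43 (.thr 32 42 (.thr 33 34 (.thr 41 45 (.thr 1 61 (.thr 49 17 (.dbl 13 9 25))))))) (.rp 40 (.thr 47 43 (.thr 32 42 (.thr 41 44 (.dbl 33 34 45)))) (.rp 32 (.thr 43 47 (.thr 41 44 (.thr 40 42 (.thr 1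 61 (.thr 13 9 (.thr 49 25 (.dbl 33 17 45))))))) .nd)))))))) (.rp 4 (.str 1 (.nv (.thr 13 9 (.thr 41 61 (.thr 49 25 (.dbl 33 17 45)))) (.nv (.thr 13 9 (.thr 25 49 (.thr 29 17 (.dbl 61 41 45)))) (.rp 61 (.thr 22 7 (.thr 23 20 (.thr 6 54 (.thr 9 13 (.thr 3 12 (.thr 0 2 (.dbl 63 42 43))))))) (.rp 49 (.thr 22 7 (.thr 23 20 (.thr 6 54 (.thr 9 13 (.thr 3 12 (.thr 0 2 (.dbl 63 42 43))))))) (.rp 45 (.thr 7 22 (.thr 13 9 (.thr 25 49 (.thr 12 51 (.thr 15 14 (.thr 3 11 (.dbl 0 2 10))))))) (.rp 41 (.thr 22 7 (.thr 23 20 (.thr 6 54 (.thr 9 13 (.thr 3 12 (.thr 0 2 (.dbl 63 42 43))))))) (.rp 25 (.thr 36 39 (.thr 41 61 (.thr 45 33 (.thr 44 35 (.thr 47 46 (.dbl 32 40 42)))))) (.rp 17 (.thr 22 7 (.thr 6 54 (.thr 9 13 (.thr 12 3 (.thr 41 61 (.dbl 25 51 57)))))) (.rp 13 (.thr 36 39 (.thr 41 61 (.thr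 45 33 (.thr 44 35 (.thr 47 46 (.dbl 32 40 42)))))) (.rp 9 (.thr 36 39 (.thr 41 61 (.thr 45 33 (.thr 44 35 (.thr 47 46 (.dbl 32 40 42)))))) .nd))))))))))) .nd))))))))) (.rp 54 (.thr 36 39 (.thr 4 55 (.thr 52 20 (.dbl 7 6 22)))) (.rp 52 (.thr 36 39 (.thr 55 4 (.str 63 (.nv (.thr 51 59 (.thr 25 12 (.thr 13 49 (.thr 1 9 (.thr 29 17 (.dbl 61 41 45)))))) (.nv (.thr 42 0 (.thr 32 47 (.thr 34 46 (.thr 35 33 (.dbl 44 40 41))))) (.nv (.thr 51 59 (.thr 12 25 (.thr 46 29 (.dbl 42 0 34)))) (.rp 56 (.str 48 (.nv (.thr 12 24 (.thr 42 0 (.dbl 46 29 34))) (.nv (.thr 51 59 (.dbl 12 24 25)) (.rp 41 (.str 11 (.nv (.thr 12 24 (.thr 42 0 (.dbl 46 29 34))) (.nv (.thr 51 59 (.dbl 12 24 25)) (.rp 25 (.thr 42 0 (.thr 46 34 (.dbl 12 24 29))) (.rp 24 (.thr 51 59 (.thr 49 50 (.dbl 25 12 13))) (.rp 22 (.str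 3 (.nv (.thr 18 33 (.thr 15 7 (.dbl 0 10 42))) (.nv (.thr 43 23 (.dbl 59 27 51)) (.rp 18 (.str 30 (.nv (.thr 12 24 (.dbl 51 25 59)) (.nv (.thr 15 7 (.dbl 0 10 42)) .nd))) .nd)))) (.rp 12 (.thr 51 59 (.thr 49 50 (.thr 0 42 (.thr 17 34 (.dbl 25 13 29))))) (.rp 3 (.str 22 (.nv (.thr 12 24 (.thr 42 0 (.dbl 46 29 34))) (.nv (.thr 51 59 (.dbl 12 24 25)) (.rp 25 (.thr 42 0 (.thr 46 34 (.dbl 12 24 29))) (.rp 24 (.thr 51 59 (.thr 49 50 (.dbl 25 12 13))) (.rp 12 (.thr 51 59 (.thr 49 50 (.thr 0 42 (.thr 17 34 (.dbl 25 13 29))))) .nd)))))) .nd)))))))) (.rp 25 (.thr 42 0 (.thr 46 34 (.dbl 12 24 29))) (.rp 24 (.thr 51 59 (.thr 49 50 (.dbl 25 12 13))) (.rp 12 (.thr 0 42 (.thr 51 59 (.thr 49 50 (.thr 17 34 (.dbl 25 13 29))))) (.rp 11 (.str 41 (.nv (.thr 0 42 (.thr 1 61 (.thr 3 2 (.dbl 33 18 45))))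 (.nv (.thr 12 24 (.dbl 51 25 59)) .nd))) .nd)))))))) (.rp 48 (.str 56 (.nv (.thr 51 59 (.thr 25 12 (.thr 13 49 (.thr 1 9 (.thr 29 17 (.dbl 61 41 45)))))) (.nv (.thr 42 0 (.thr 32 47 (.thr 34 46 (.thr 35 33 (.dbl 44 40 41))))) (.nv (.thr 0 42 (.thr 51 59 (.thr 17 34 (.dbl 25 12 29)))) (.rp 12 (.thr 59 51 (.thr 42 0 (.thr 8 25 (.thr 32 47 (.dbl 40 24 44))))) (.rp 8 (.thr 0 42 (.thr 51 59 (.thr 25 12 (.dbl 17 29 34)))) (.rp 0 (.thr 51 59 (.thr 12 25 (.thr 46 29 (.thr 42 34 (.thr 32 47 (.thr 40 44 (.thr 43 41 (.thr 3 23 (.thr 9 6 (.thr 13 1 (.thr 15 14 (.thr 11 7 (.dbl 8 10 24))))))))))))) .nd))))))) (.rp 12 (.thr 59 51 (.thr 42 0 (.thr 8 25 (.thr 32 47 (.thr 34 46 (.thr 35 33 (.dbl 44 40 41))))))) (.rp 8 (.thr 51 59 (.thr 12 25 (.thr 42 0 (.dbl 46 29 34)))) (.rp 0 (.thr 51 59 (.thr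 12 25 (.thr 46 29 (.thr 42 34 (.thr 47 32 (.thr 15 31 (.thr 13 14 (.thr 45 44 (.thr 1 9 (.dbl 41 33 61)))))))))) .nd))))))))))) (.rp 39 (.str 63 (.nv (.thr 0 42 (.thr 4 55 (.thr 12 8 (.thr 25 51 (.thr 13 49 (.dbl 15 10 14)))))) (.nv (.thr 42 0 (.thr 46 34 (.thr 12 29 (.thr 47 32 (.thr 15 31 (.thr 13 14 (.dbl 25 49 51))))))) (.nv (.thr 55 4 (.thr 51 59 (.thr 12 25 (.thr 46 29 (.dbl 42 0 34))))) (.rp 51 (.thr 4 55 (.thr 0 42 (.thr 12 8 (.thr 29 46 (.thr 25 17 (.thr 13 49 (.dbl 15 10 14))))))) (.rp 42 (.thr 55 4 (.thr 51 59 (.thr 25 12 (.thr 29 17 (.thr 13 49 (.thr 61 45 (.dbl 1 9 41))))))) (.rp 25 (.thr 4 55 (.thr 7 6 (.thr 42 0 (.thr 47 32 (.thr 15 31 (.thr 3 11 (.thr 23 43 (.dbl 22 20 52)))))))) (.rp 12 (.thr 4 55 (.thr 7 6 (.thr 42 0 (.thr 47 32 (.thr 15 31 (.thr 3 11 (.thr 23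 43 (.dbl 22 20 52)))))))) (.rp 0 (.thr 55 4 (.thr 51 59 (.thr 12 25 (.thr 46 29 (.thr 42 34 (.thr 47 32 (.thr 15 31 (.thr 13 14 (.thr 45 44 (.thr 1 9 (.dbl 41 33 61))))))))))) .nd))))))))) (.rp 36 (.str 13 (.nv (.thr 4 55 (.thr 6 7 (.thr 9 1 (.thr 12 3 (.dbl 25 49 51))))) (.nv (.thr 4 55 (.thr 25 49 (.thr 12 51 (.thr 0 8 (.dbl 15 10 14))))) (.nv (.thr 1 9 (.thr 25 49 (.thr 29 17 (.dbl 61 41 45)))) (.rp 49 (.thr 4 55 (.thr 6 7 (.thr 9 1 (.thr 12 3 (.thr 15 14 (.dbl 0 8 10)))))) (.rp 25 (.thr 4 55 (.thr 6 7 (.thr 9 1 (.thr 12 3 (.thr 15 14 (.dbl 0 8 10)))))) .nd)))))) (.rp 22 (.thr 39 36 (.str 41 (.nv (.thr 1 61 (.thr 13 9 (.thr 33 45 (.dbl 49 17 25)))) (.nv (.thr 33 45 (.thr 35 44 (.thr 47 43 (.dbl 32 34 42)))) (.rp 45 (.thr 35 44 (.thr 47 43 (.thr 32 42 (.thr 33 34 (.thr 1 61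 (.thr 13 9 (.dbl 49 17 25))))))) (.rp 33 (.thr 35 44 (.thr 43 47 (.thr 55 4 (.thr 23 7 (.thr 63 3 (.dbl 42 0 40)))))) (.rp 30 (.str 18 (.nv (.thr 35 44 (.thr 43 47 (.thr 55 4 (.thr 23 7 (.thr 63 3 (.dbl 42 0 40)))))) (.nv (.thr 1 61 (.thr 13 9 (.thr 49 25 (.dbl 33 17 45)))) (.rp 63 (.thr 35 44 (.thr 47 43 (.thr 32 42 (.dbl 33 34 45)))) (.rp 45 (.str 15 (.nv (.thr 0 10 (.thr 4 55 (.thr 7 6 (.thr 3 11 (.dbl 1 2 61))))) (.nv (.thr 0 10 (.thr 35 44 (.thr 47 43 (.dbl 42 32 63)))) (.nv (.thr 1 61 (.thr 13 9 (.thr 51 27 (.dbl 25 12 49)))) .nd)))) (.rp 28 (.thr 4 55 (.thr 6 7 (.thr 1 61 (.thr 9 13 (.thr 12 3 (.dbl 25 51 57)))))) (.rp 15 (.thr 45 33 (.thr 55 4 (.thr 23 7 (.thr 61 1 (.thr 35 44 (.thr 43 47 (.thr 29 13 (.thr 17 25 (.thr 19 16 (.dbl 3 51 63)))))))))) .nd))))))) (.rp 18 (.str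 30 (.nv (.thr 35 44 (.thr 33 45 (.thr 32 34 (.dbl 47 42 43)))) (.nv (.thr 1 61 (.thr 13 9 (.thr 33 45 (.dbl 49 17 25)))) (.rp 45 (.thr 1 61 (.thr 13 9 (.thr 35 44 (.thr 47 43 (.thr 32 42 (.thr 33 34 (.dbl 49 17 25))))))) (.rp 33 (.thr 4 55 (.thr 6 7 (.thr 1 61 (.thr 9 13 (.thr 3 12 (.thr 0 2 (.thr 15 10 (.thr 51 27 (.dbl 35 19 44))))))))) .nd))))) (.rp 15 (.thr 35 44 (.thr 47 43 (.thr 32 42 (.dbl 33 34 45)))) .nd))))))))) (.rp 20 (.str 0 (.nv (.thr 15 10 (.thr 42 63 (.thr 34 46 (.thr 51 17 (.dbl 39 27 36))))) (.nv (.thr 4 55 (.thr 6 7 (.thr 10 15 (.thr 2 14 (.thr 3 1 (.dbl 12 8 9)))))) (.nv (.thr 4 55 (.thr 12 8 (.thr 25 51 (.thr 29 17 (.dbl 63 42 46))))) (.rp 12 (.thr 39 36 (.thr 15 10 (.thr 51 27 (.thr 34 17 (.dbl 42 46 63))))) .nd))))) (.rp 7 (.str 13 (.nv (.thr 4 55 (.thr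 25 49 (.thr 12 51 (.thr 0 8 (.dbl 15 10 14))))) (.nv (.thr 1 9 (.thr 25 49 (.thr 29 17 (.dbl 61 41 45)))) (.rp 61 (.thr 4 55 (.thr 9 1 (.thr 25 49 (.thr 57 41 (.thr 12 51 (.thr 15 14 (.dbl 0 8 10))))))) (.rp 57 (.thr 1 9 (.thr 61 41 (.thr 25 49 (.dbl 29 17 45)))) (.rp 49 (.thr 4 55 (.thr 1 9 (.thr 61 41 (.thr 29 45 (.thr 25 17 (.thr 12 51 (.thr 63 46 (.dbl 0 8 42)))))))) (.rp 25 (.thr 39 36 (.thr 1 9 (.thr 41 61 (.thr 33 45 (.thr 35 44 (.thr 32 34 (.dbl 47 42 43))))))) .nd))))))) (.rp 6 (.str 13 (.nv (.thr 4 55 (.thr 25 49 (.thr 12 51 (.thr 0 8 (.dbl 15 10 14))))) (.nv (.thr 1 9 (.thr 25 49 (.thr 29 17 (.dbl 61 41 45)))) (.rp 61 (.thr 4 55 (.thr 9 1 (.thr 25 49 (.thr 57 41 (.thr 12 51 (.thr 15 14 (.dbl 0 8 10))))))) (.rp 57 (.thr 1 9 (.thr 61 41 (.thr 25 49 (.dbl 29 17 45))))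 (.rp 49 (.thr 4 55 (.thr 1 9 (.thr 61 41 (.thr 29 45 (.thr 25 17 (.thr 12 51 (.thr 63 46 (.dbl 0 8 42)))))))) (.rp 25 (.thr 39 36 (.thr 1 9 (.thr 41 61 (.thr 33 45 (.thr 35 44 (.thr 32 34 (.dbl 47 42 43))))))) (.rp 12 (.thr 25 49 (.thr 29 17 (.thr 61 45 (.dbl 1 9 41)))) .nd)))))))) (.rp 4 (.str 13 (.nv (.thr 1 9 (.thr 41 61 (.thr 49 25 (.dbl 33 17 45)))) (.nv (.thr 25 49 (.thr 12 51 (.thr 15 14 (.thr 0 10 (.thr 29 17 (.dbl 63 42 46)))))) (.nv (.thr 1 9 (.thr 25 49 (.thr 29 17 (.dbl 61 41 45)))) (.rp 61 (.thr 39 36 (.thr 1 9 (.thr 49 25 (.thr 33 17 (.thr 41 45 (.thr 35 44 (.thr 32 34 (.dbl 47 42 43)))))))) (.rp 49 (.thr 1 9 (.thr 61 41 (.thr 29 45 (.thr 25 17 (.thr 12 51 (.thr 63 46 (.thr 15 14 (.dbl 0 10 42)))))))) (.rp 25 (.thr 39 36 (.thr 1 9 (.thr 41 61 (.thr 33 45 (.thr 35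 44 (.thr 32 34 (.dbl 47 42 43))))))) (.rp 17 (.thr 39 36 (.thr 1 9 (.thr 41 61 (.thr 33 45 (.thr 35 44 (.thr 32 34 (.dbl 47 42 43))))))) (.rp 1 (.thr 39 36 (.thr 25 49 (.thr 17 29 (.thr 51 12 (.thr 0 34 (.dbl 15 10 27)))))) .nd))))))))) .nd))))))))))))

theorem w562 : WinAt (137441050656, 1161928703928696832) :=
  chF (K := []) kn c562 137441050656 1161928703928696832 53
    [] (by decide +kernel) (by decide +kernel)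

/-- A certificate. -/
noncomputable def c563 : Ct := (.str 55 (.nv (.thr 52 54 (.thr 7 22 (.thr 38 4 (.dbl 39 23 36)))) (.nv (.thr 52 54 (.thr 22 7 (.thr 20 23 (.dbl 4 36 38)))) (.rp 54 (.str 63 (.nv (.thr 0 42 (.thr 51 59 (.thr 17 34 (.thr 25 29 (.dbl 38 4 12))))) (.nv (.thr 38 4 (.thr 36 39 (.thr 51 59 (.thr 12 25 (.dbl 48 24 58))))) (.nv (.thr 38 4 (.thr 39 36 (.thr 42 0 (.thr 47 32 (.thr 43 35 (.dbl 23 3 7)))))) (.nv (.thr 0 42 (.thr 38 4 (.thr 51 59 (.thr 25 12 (.dbl 17 29 34))))) (.rp 42 (.thr 38 4 (.thr 51 59 (.thr 25 12 (.thr 49 13 (.dbl 48 50 58))))) (.rp 38 (.thr 51 59 (.thr 42 0 (.thr 47 32 (.thr 15 31 (.thr 39 27 (.thr 23 7 (.dbl 43 3 35))))))) (.rp 12 (.thr 38 4 (.thr 39 36 (.thr 51 59 (.thr 15 27 (.thr 47 31 (.dbl 42 0 32)))))) (.rp 4 (.thr 51 59 (.thr 42 0 (.thr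 47 32 (.thr 15 31 (.thr 39 27 (.thr 43 35 (.dbl 23 3 7))))))) .nd))))))))) (.rp 52 (.str 63 (.nv (.thr 48 58 (.thr 51 59 (.thr 49 50 (.thr 25 13 (.dbl 38 4 12))))) (.nv (.thr 38 4 (.thr 36 39 (.thr 42 0 (.thr 32 47 (.thr 34 46 (.thr 35 33 (.dbl 44 40 41))))))) (.nv (.thr 38 4 (.thr 36 39 (.thr 51 59 (.thr 12 25 (.dbl 48 24 58))))) (.rp 42 (.thr 38 4 (.thr 51 59 (.thr 25 12 (.thr 49 13 (.dbl 48 50 58))))) (.rp 38 (.thr 51 59 (.thr 42 0 (.thr 47 32 (.thr 15 31 (.thr 39 27 (.thr 23 7 (.dbl 43 3 35))))))) (.rp 12 (.thr 51 59 (.thr 42 0 (.thr 47 32 (.thr 15 31 (.thr 39 27 (.dbl 38 4 36)))))) (.rp 4 (.thr 51 59 (.thr 48 58 (.thr 49 50 (.thr 25 13 (.thr 29 17 (.dbl 12 38 46)))))) .nd)))))))) (.rp 38 (.str 63 (.nv (.thr 52 54 (.thr 22 7 (.thr 23 20 (.thr 3 43 (.thr 41 60 (.thr 33 45 (.dbl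 48 18 58))))))) (.nv (.thr 48 58 (.thr 52 54 (.thr 22 7 (.thr 20 23 (.thr 60 56 (.dbl 0 40 42)))))) (.nv (.thr 42 0 (.thr 47 32 (.thr 15 31 (.thr 51 59 (.thr 39 27 (.thr 43 35 (.dbl 23 3 7))))))) (.nv (.thr 52 54 (.thr 22 7 (.thr 23 20 (.thr 3 43 (.thr 48 58 (.dbl 60 41 56)))))) (.rp 50 (.str 14 (.nv (.thr 52 54 (.thr 22 7 (.thr 23 20 (.thr 3 43 (.thr 60 41 (.dbl 48 56 58)))))) (.nv (.thr 42 0 (.thr 47 32 (.thr 15 31 (.thr 13 12 (.thr 25 49 (.dbl 59 8 51)))))) (.rp 48 (.thr 52 54 (.thr 22 7 (.thr 42 0 (.thr 62 2 (.thr 46 30 (.thr 29 12 (.thr 25 17 (.dbl 59 8 51)))))))) (.rp 42 (.thr 52 54 (.thr 22 7 (.thr 23 20 (.thr 3 43 (.thr 41 60 (.thr 33 45 (.dbl 48 18 58))))))) (.rp 4 (.thr 52 54 (.thr 51 59 (.thr 42 0 (.thr 47 32 (.thr 15 31 (.thr 39 27 (.dbl 7 22 23))))))) .nd)))))) (.rp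 48 (.thr 52 54 (.thr 22 7 (.thr 23 20 (.thr 51 59 (.thr 3 43 (.thr 19 35 (.thr 25 28 (.thr 17 29 (.dbl 0 34 42))))))))) (.rp 41 (.thr 52 54 (.thr 51 59 (.thr 42 0 (.thr 47 32 (.thr 15 31 (.thr 39 27 (.dbl 7 22 23))))))) (.rp 23 (.thr 52 54 (.thr 22 7 (.thr 48 58 (.thr 60 56 (.thr 41 3 (.thr 45 33 (.thr 15 30 (.thr 47 31 (.dbl 42 0 32))))))))) (.rp 14 (.str 50 (.nv (.thr 54 52 (.dbl 58 48 62)) (.nv (.thr 51 59 (.dbl 48 49 58)) (.rp 58 (.thr 51 59 (.thr 48 49 (.thr 52 54 (.thr 22 7 (.thr 23 20 (.thr 3 43 (.dbl 60 41 56))))))) (.rp 48 (.thr 51 59 (.thr 54 52 (.thr 62 58 (.thr 42 0 (.thr 22 2 (.thr 23 20 (.thr 3 43 (.dbl 60 41 57)))))))) .nd))))) (.rp 7 (.thr 52 54 (.thr 48 58 (.thr 60 56 (.thr 42 0 (.thr 47 32 (.thr 15 31 (.thr 45 30 (.thr 41 33 (.thr 43 40 (.dbl 3 22 23))))))))))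 .nd))))))))))) (.rp 36 (.str 63 (.nv (.thr 52 54 (.thr 22 7 (.thr 23 20 (.thr 3 43 (.thr 60 41 (.dbl 48 56 58)))))) (.nv (.thr 0 42 (.thr 51 59 (.thr 17 34 (.thr 25 29 (.dbl 38 4 12))))) (.rp 58 (.thr 38 4 (.thr 51 59 (.thr 12 25 (.thr 46 29 (.dbl 42 0 34))))) (.rp 42 (.thr 38 4 (.thr 51 59 (.thr 25 12 (.thr 49 13 (.dbl 48 50 58))))) (.rp 4 (.thr 51 59 (.thr 48 58 (.thr 49 50 (.thr 25 13 (.thr 29 17 (.dbl 12 38 46)))))) .nd)))))) (.rp 23 (.str 63 (.nv (.thr 38 4 (.thr 36 39 (.thr 51 59 (.thr 12 25 (.dbl 48 24 58))))) (.nv (.thr 0 42 (.thr 4 38 (.thr 52 54 (.thr 20 36 (.thr 60 40 (.dbl 48 56 58)))))) (.nv (.thr 0 42 (.thr 38 4 (.thr 51 59 (.thr 25 12 (.dbl 17 29 34))))) (.rp 58 (.thr 38 4 (.thr 51 59 (.thr 12 25 (.thr 46 29 (.dbl 42 0 34))))) (.rp 42 (.thr 38 4 (.thr 51 59 (.thr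 25 12 (.thr 49 13 (.dbl 48 50 58))))) (.rp 38 (.thr 52 54 (.thr 22 7 (.thr 48 58 (.thr 60 56 (.thr 41 3 (.thr 45 33 (.thr 15 30 (.thr 47 31 (.dbl 42 0 32))))))))) (.rp 6 (.thr 51 59 (.thr 48 58 (.thr 49 50 (.thr 25 13 (.dbl 38 4 12))))) (.rp 4 (.thr 51 59 (.thr 48 58 (.thr 49 50 (.thr 25 13 (.thr 29 17 (.dbl 12 38 46)))))) .nd))))))))) (.rp 22 (.thr 38 4 (.thr 39 36 (.thr 7 23 (.thr 52 54 (.str 63 (.nv (.thr 0 42 (.thr 51 59 (.thr 25 12 (.dbl 17 29 34)))) (.nv (.thr 51 59 (.thr 25 12 (.thr 49 13 (.dbl 48 50 58)))) (.nv (.thr 42 0 (.thr 47 32 (.thr 35 43 (.thr 44 41 (.dbl 46 34 45))))) (.nv (.thr 42 0 (.thr 46 34 (.thr 51 59 (.dbl 12 25 29)))) (.rp 30 (.str 18 (.nv (.thr 51 59 (.thr 12 25 (.thr 46 29 (.dbl 42 0 34)))) (.nv (.thr 48 58 (.thr 3 33 (.thr 51 59 (.dbl 15 11 27)))) (.nv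 (.thr 48 58 (.thr 3 33 (.thr 15 11 (.thr 47 31 (.dbl 42 0 32))))) (.nv (.thr 42 0 (.thr 46 34 (.thr 51 59 (.dbl 12 25 29)))) (.rp 42 (.thr 51 59 (.thr 25 12 (.thr 49 13 (.dbl 48 50 58)))) .nd)))))) (.rp 18 (.str 30 (.nv (.thr 42 0 (.thr 47 32 (.thr 15 31 (.thr 48 58 (.dbl 60 45 56))))) (.nv (.thr 51 59 (.thr 15 27 (.thr 60 45 (.dbl 48 56 58)))) (.nv (.thr 42 0 (.thr 46 34 (.thr 51 59 (.dbl 12 25 29)))) (.rp 15 (.thr 51 59 (.thr 12 25 (.thr 46 29 (.dbl 42 0 34)))) .nd))))) (.rp 12 (.thr 59 51 (.thr 42 0 (.thr 8 25 (.thr 47 32 (.thr 15 31 (.thr 11 3 (.dbl 43 27 35))))))) (.rp 0 (.thr 51 59 (.thr 12 25 (.thr 46 29 (.thr 42 34 (.thr 47 32 (.dbl 15 27 31)))))) .nd))))))))))))) (.rp 7 (.str 63 (.nv (.thr 4 38 (.thr 48 58 (.thr 52 54 (.thr 20 36 (.thr 60 56 (.dbl 0 40 42)))))) (.nv (.thr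 0 42 (.thr 51 59 (.thr 17 34 (.thr 25 29 (.dbl 38 4 12))))) (.rp 59 (.thr 52 54 (.thr 4 38 (.thr 20 36 (.thr 0 42 (.thr 60 40 (.dbl 48 56 58)))))) (.rp 58 (.thr 51 59 (.thr 42 0 (.thr 47 32 (.thr 15 31 (.thr 39 27 (.dbl 38 4 36)))))) (.rp 42 (.thr 54 52 (.thr 38 4 (.thr 6 22 (.thr 51 59 (.thr 25 12 (.thr 49 13 (.dbl 48 50 58))))))) (.rp 38 (.thr 52 54 (.thr 48 58 (.thr 60 56 (.thr 42 0 (.thr 47 32 (.thr 15 31 (.thr 45 30 (.thr 41 33 (.thr 43 40 (.dbl 3 22 23)))))))))) (.rp 10 (.thr 51 59 (.thr 58 48 (.thr 0 42 (.thr 17 34 (.thr 25 29 (.dbl 38 4 12)))))) (.rp 6 (.thr 4 38 (.thr 54 52 (.thr 51 59 (.thr 60 57 (.thr 42 0 (.thr 47 32 (.thr 15 31 (.thr 45 30 (.thr 41 33 (.thr 39 27 (.dbl 43 35 40))))))))))) (.rp 4 (.str 6 (.nv (.thr 54 52 (.thr 22 38 (.thr 42 0 (.thr 62 2 (.dbl 58 48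 50))))) (.nv (.thr 48 58 (.thr 51 59 (.thr 49 50 (.thr 25 13 (.thr 29 17 (.dbl 12 38 46)))))) (.nv (.thr 0 42 (.thr 51 59 (.thr 17 34 (.thr 25 29 (.thr 38 12 (.dbl 54 22 52)))))) (.nv (.thr 54 52 (.thr 22 38 (.thr 20 23 (.thr 51 59 (.thr 60 57 (.dbl 0 40 42)))))) (.rp 58 (.thr 54 52 (.thr 38 22 (.thr 51 59 (.thr 12 25 (.thr 46 29 (.dbl 42 0 34)))))) (.rp 54 (.thr 51 59 (.thr 42 0 (.thr 47 32 (.thr 15 31 (.thr 39 27 (.thr 38 36 (.thr 46 34 (.dbl 12 25 29)))))))) (.rp 42 (.thr 54 52 (.thr 22 38 (.thr 51 59 (.thr 60 57 (.thr 3 41 (.dbl 23 20 43)))))) (.rp 38 (.thr 52 54 (.thr 48 58 (.thr 60 56 (.thr 42 0 (.thr 47 32 (.thr 15 31 (.thr 45 30 (.thr 41 33 (.thr 43 40 (.dbl 3 22 23)))))))))) .nd))))))))) (.rp 0 (.thr 51 59 (.thr 48 58 (.thr 49 50 (.thr 25 13 (.dbl 38 4 12))))) .nd)))))))))))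 (.rp 4 (.thr 52 54 (.thr 7 22 (.thr 39 23 (.thr 38 36 (.str 63 (.nv (.thr 0 42 (.thr 51 59 (.thr 25 12 (.dbl 17 29 34)))) (.nv (.thr 51 59 (.thr 25 12 (.thr 49 13 (.dbl 48 50 58)))) (.nv (.thr 42 0 (.thr 47 32 (.thr 35 43 (.thr 44 41 (.dbl 46 34 45))))) (.nv (.thr 42 0 (.thr 46 34 (.thr 51 59 (.dbl 12 25 29)))) (.rp 30 (.str 18 (.nv (.thr 51 59 (.thr 12 25 (.thr 46 29 (.dbl 42 0 34)))) (.nv (.thr 48 58 (.thr 3 33 (.thr 51 59 (.dbl 15 11 27)))) (.nv (.thr 48 58 (.thr 3 33 (.thr 15 11 (.thr 47 31 (.dbl 42 0 32))))) (.nv (.thr 42 0 (.thr 46 34 (.thr 51 59 (.dbl 12 25 29)))) (.rp 42 (.thr 51 59 (.thr 25 12 (.thr 49 13 (.dbl 48 50 58)))) .nd)))))) (.rp 18 (.str 30 (.nv (.thr 42 0 (.thr 47 32 (.thr 15 31 (.thr 48 58 (.dbl 60 45 56))))) (.nv (.thr 51 59 (.thr 15 27 (.thr 60 45 (.dbl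 48 56 58)))) (.nv (.thr 42 0 (.thr 46 34 (.thr 51 59 (.dbl 12 25 29)))) (.rp 15 (.thr 51 59 (.thr 12 25 (.thr 46 29 (.dbl 42 0 34)))) .nd))))) (.rp 12 (.thr 59 51 (.thr 42 0 (.thr 8 25 (.thr 47 32 (.thr 15 31 (.thr 11 3 (.dbl 43 27 35))))))) (.rp 0 (.thr 51 59 (.thr 12 25 (.thr 46 29 (.thr 42 34 (.thr 47 32 (.dbl 15 27 31)))))) .nd))))))))))))) .nd)))))))))))

theorem w563 : WinAt (9007336695791616, 2305843009280802848) :=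
  chF (K := []) kn c563 9007336695791616 2305843009280802848 5
    [] (by decide +kernel) (by decide +kernel)

/-- A certificate. -/
noncomputable def c564 : Ct := (.str 52 (.nv (.thr 7 22 (.thr 55 54 (.thr 38 4 (.dbl 39 23 36)))) (.nv (.thr 22 7 (.thr 20 23 (.thr 4 36 (.dbl 55 38 54)))) (.rp 55 (.str 41 (.nv (.thr 22 7 (.thr 23 20 (.thr 3 60 (.thr 63 43 (.thr 33 45 (.dbl 48 18 58)))))) (.nv (.thr 1 61 (.thr 22 7 (.thr 23 20 (.thr 3 60 (.thr 63 43 (.dbl 0 2 42)))))) (.nv (.thr 45 33 (.thr 61 1 (.thr 13 29 (.dbl 49 25 57)))) .nd)))) (.rp 54 (.thr 22 7 (.str 4 (.nv (.dbl 20 23 36) (.rp 58 (.str 50 (.nv (.dbl 20 23 36) (.rp 42 (.str 10 (.nv (.dbl 20 23 36) (.rp 36 (.str 51 (.nv (.thr 49 48 (.thr 13 25 (.thr 61 57 (.thr 41 1 (.dbl 45 29 33))))) (.nv (.thr 49 48 (.thr 38 55 (.dbl 25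 12 13))) (.rp 49 (.thr 38 55 (.thr 25 12 (.thr 17 29 (.thr 34 0 (.thr 18 2 (.dbl 19 16 28)))))) (.rp 48 (.thr 38 55 (.thr 12 25 (.thr 8 0 (.thr 9 11 (.thr 3 6 (.thr 35 19 (.dbl 41 44 60))))))) (.rp 25 (.thr 49 48 (.thr 38 55 (.thr 61 57 (.thr 41 1 (.thr 35 44 (.dbl 3 19 60)))))) (.rp 24 (.thr 48 49 (.thr 23 20 (.thr 55 38 (.thr 63 59 (.thr 3 43 (.dbl 60 41 56)))))) (.rp 13 (.thr 49 48 (.thr 38 55 (.thr 61 57 (.thr 1 41 (.thr 17 33 (.dbl 25 12 29)))))) (.rp 12 (.thr 48 49 (.thr 23 20 (.thr 55 38 (.thr 63 59 (.thr 3 43 (.dbl 60 41 56)))))) .nd))))))))) (.rp 23 (.thr 36 20 (.dbl 38 39 55)) (.rp 20 (.str 51 (.nv (.thr 49 48 (.thr 13 25 (.thr 61 57 (.thr 41 1 (.dbl 45 29 33))))) (.nv (.thr 49 48 (.thr 38 55 (.dbl 25 12 13))) (.rp 49 (.thr 38 55 (.thr 25 12 (.thr 17 29 (.thr 34 0 (.thr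 18 2 (.dbl 19 16 28)))))) (.rp 48 (.thr 38 55 (.thr 25 12 (.thr 49 13 (.thr 17 29 (.thr 1 33 (.dbl 61 41 57)))))) (.rp 25 (.thr 49 48 (.thr 38 55 (.thr 61 57 (.thr 41 1 (.thr 35 44 (.dbl 3 19 60)))))) (.rp 13 (.thr 48 49 (.thr 38 55 (.thr 12 25 (.dbl 36 24 39)))) .nd))))))) .nd))))) (.rp 36 (.str 42 (.nv (.thr 0 63 (.thr 32 47 (.thr 48 16 (.thr 60 56 (.dbl 20 23 40))))) (.nv (.thr 0 63 (.thr 12 8 (.thr 38 55 (.thr 51 25 (.dbl 34 17 46))))) (.rp 63 (.thr 38 55 (.thr 32 47 (.thr 34 46 (.thr 33 35 (.thr 18 2 (.thr 3 48 (.dbl 41 45 60))))))) (.rp 61 (.thr 20 23 (.thr 0 63 (.thr 60 40 (.thr 48 56 (.dbl 32 16 47))))) (.rp 60 (.thr 38 55 (.thr 32 47 (.thr 34 46 (.thr 33 35 (.thr 18 2 (.thr 48 3 (.dbl 0 16 63))))))) (.rp 23 (.thr 0 63 (.thr 32 47 (.thr 48 16 (.thr 51 49 (.thr 34 17 (.dbl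 38 46 55)))))) (.rp 0 (.thr 38 55 (.thr 32 47 (.thr 34 46 (.thr 33 35 (.thr 18 2 (.thr 3 48 (.dbl 41 45 60))))))) .nd)))))))) (.rp 23 (.thr 36 20 (.dbl 38 39 55)) (.rp 20 (.str 42 (.nv (.thr 38 55 (.thr 0 63 (.thr 34 46 (.thr 51 17 (.dbl 12 8 25))))) (.nv (.thr 0 63 (.thr 32 47 (.thr 48 16 (.thr 49 51 (.thr 25 13 (.dbl 8 12 59)))))) (.nv (.thr 38 55 (.thr 39 36 (.thr 46 34 (.thr 47 32 (.thr 35 43 (.dbl 44 41 45)))))) (.rp 55 (.thr 0 63 (.thr 32 47 (.thr 48 16 (.thr 51 49 (.thr 34 17 (.thr 33 35 (.dbl 18 2 3))))))) .nd))))) (.rp 10 (.str 42 (.nv (.thr 0 63 (.thr 36 20 (.dbl 38 39 55))) (.nv (.dbl 20 23 36) (.rp 36 (.thr 20 23 (.thr 0 63 (.thr 60 40 (.thr 48 56 (.dbl 32 16 47))))) (.rp 20 (.thr 38 55 (.thr 0 63 (.thr 34 46 (.thr 51 17 (.dbl 12 8 25))))) (.rp 0 (.str 15 (.nv (.dbl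 20 23 36) (.rp 36 (.thr 38 55 (.thr 23 20 (.thr 47 32 (.thr 63 31 (.thr 43 3 (.thr 35 39 (.dbl 41 40 44))))))) (.rp 23 (.thr 36 20 (.dbl 38 39 55)) (.rp 20 (.thr 38 55 (.thr 39 36 (.thr 51 27 (.thr 49 48 (.dbl 25 12 13))))) .nd))))) .nd)))))) .nd))))))) (.rp 50 (.str 58 (.nv (.dbl 20 23 36) (.rp 38 (.str 14 (.nv (.dbl 20 23 36) (.rp 36 (.thr 23 20 (.thr 63 48 (.thr 0 42 (.thr 3 43 (.thr 41 60 (.dbl 1 2 61)))))) (.rp 23 (.thr 36 20 (.thr 48 63 (.thr 60 56 (.thr 12 24 (.thr 28 44 (.thr 13 15 (.dbl 25 19 49))))))) (.rp 20 (.thr 48 63 (.thr 60 56 (.thr 41 3 (.thr 45 33 (.thr 15 30 (.thr 13 12 (.dbl 61 1 29))))))) .nd))))) (.rp 36 (.thr 23 20 (.thr 63 48 (.thr 0 42 (.thr 3 43 (.thr 41 60 (.dbl 1 2 61)))))) (.rp 23 (.thr 36 20 (.dbl 38 39 55)) (.rp 20 (.thr 38 55 (.thr 63 48 (.thr 0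 42 (.thr 12 8 (.thr 29 46 (.dbl 25 17 51)))))) (.rp 14 (.thr 38 55 (.dbl 20 23 36)) .nd))))))) (.rp 36 (.str 63 (.nv (.thr 0 42 (.thr 12 8 (.thr 29 46 (.thr 25 17 (.dbl 38 51 55))))) (.nv (.thr 23 20 (.thr 3 43 (.thr 60 41 (.dbl 48 56 58)))) (.rp 58 (.str 50 (.nv (.thr 23 20 (.thr 3 43 (.thr 55 38 (.thr 51 59 (.thr 48 49 (.dbl 60 41 56)))))) (.nv (.thr 23 20 (.thr 38 55 (.thr 42 0 (.thr 43 3 (.thr 47 32 (.thr 35 39 (.dbl 41 40 44))))))) (.nv (.thr 55 38 (.thr 51 59 (.thr 49 48 (.thr 25 13 (.thr 17 29 (.dbl 0 34 42)))))) (.nv (.thr 23 20 (.thr 3 43 (.thr 41 60 (.thr 1 61 (.dbl 0 2 42))))) (.rp 42 (.str 10 (.nv (.thr 55 38 (.thr 51 59 (.thr 49 48 (.thr 25 13 (.thr 17 29 (.thr 1 33 (.dbl 61 41 57))))))) (.nv (.thr 23 20 (.thr 3 43 (.thr 38 55 (.thr 41 60 (.thr 33 45 (.thr 18 48 (.thr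 34 2 (.dbl 35 32 44)))))))) (.nv (.thr 23 20 (.thr 55 38 (.thr 51 59 (.thr 49 48 (.thr 25 13 (.thr 19 28 (.dbl 3 35 43))))))) (.nv (.thr 23 20 (.thr 3 43 (.thr 41 60 (.thr 45 33 (.thr 61 1 (.thr 13 29 (.dbl 49 25 57))))))) (.rp 57 (.str 56 (.nv (.thr 60 48 (.thr 3 41 (.dbl 23 20 43))) (.nv (.thr 48 60 (.thr 51 49 (.dbl 55 38 59))) (.rp 60 (.str 51 (.nv (.dbl 55 38 59) (.rp 59 (.thr 49 48 (.thr 38 55 (.dbl 25 12 13))) (.rp 55 (.thr 49 48 (.thr 25 13 (.thr 29 17 (.dbl 12 38 46)))) (.rp 38 (.thr 49 48 (.thr 23 20 (.thr 3 43 (.thr 19 35 (.dbl 25 13 28))))) .nd))))) (.rp 48 (.thr 55 38 (.thr 23 20 (.thr 51 59 (.thr 3 43 (.thr 41 60 (.thr 33 45 (.thr 1 61 (.thr 17 49 (.dbl 0 2 34))))))))) .nd))))) (.rp 51 (.str 57 (.nv (.thr 23 20 (.thr 3 43 (.thr 41 60 (.thr 9 25 (.thr 8 11 (.dbl 12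 0 6)))))) (.nv (.thr 49 61 (.thr 25 13 (.thr 9 41 (.thr 29 17 (.thr 12 46 (.dbl 8 0 11)))))) (.nv (.thr 61 49 (.thr 23 20 (.thr 3 43 (.dbl 41 1 60)))) (.rp 43 (.thr 61 49 (.thr 41 1 (.thr 9 25 (.thr 8 11 (.thr 12 0 (.dbl 3 6 60)))))) (.rp 41 (.thr 49 61 (.thr 25 13 (.thr 29 17 (.thr 12 46 (.thr 0 8 (.thr 20 23 (.thr 28 19 (.dbl 60 40 44)))))))) .nd)))))) (.rp 3 (.thr 55 38 (.thr 51 59 (.thr 49 48 (.thr 25 13 (.thr 17 29 (.thr 34 0 (.thr 19 28 (.dbl 18 2 16)))))))) .nd)))))))) (.rp 10 (.thr 42 0 (.str 15 (.nv (.dbl 47 31 32) (.rp 47 (.thr 38 55 (.thr 46 34 (.thr 12 29 (.thr 13 14 (.dbl 25 49 51))))) (.rp 32 (.thr 38 55 (.thr 46 34 (.thr 12 29 (.thr 13 14 (.dbl 25 49 51))))) (.rp 31 (.thr 38 55 (.thr 46 34 (.thr 12 29 (.thr 13 14 (.dbl 25 49 51))))) .nd)))))) .nd))))))) (.rp 50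 (.thr 58 48 (.thr 23 20 (.thr 3 43 (.thr 41 60 (.thr 1 61 (.dbl 0 2 42)))))) (.rp 42 (.thr 23 20 (.thr 3 43 (.thr 41 60 (.thr 33 45 (.dbl 48 18 58))))) .nd)))))) (.rp 23 (.thr 36 20 (.dbl 38 39 55)) (.rp 20 (.thr 38 55 (.thr 39 36 (.str 61 (.nv (.thr 1 41 (.thr 49 57 (.thr 25 13 (.dbl 17 29 33)))) (.nv (.thr 41 1 (.thr 33 45 (.thr 35 44 (.thr 32 34 (.dbl 47 42 43))))) (.nv (.thr 41 1 (.thr 45 33 (.thr 13 29 (.dbl 49 25 57)))) (.rp 58 (.str 50 (.nv (.thr 41 1 (.thr 33 45 (.thr 35 44 (.thr 32 34 (.dbl 47 42 43))))) (.nv (.thr 49 57 (.thr 51 48 (.dbl 25 12 13))) (.rp 42 (.str 10 (.nv (.thr 41 1 (.thr 45 33 (.thr 13 29 (.dbl 49 25 57)))) (.nv (.thr 49 57 (.thr 51 48 (.dbl 25 12 13))) (.rp 57 (.thr 41 1 (.thr 44 35 (.thr 60 3 (.thr 12 28 (.thr 51 25 (.dbl 48 49 56)))))) (.rp 49 (.thr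 41 1 (.thr 35 44 (.thr 3 60 (.thr 33 45 (.thr 18 48 (.dbl 34 2 32)))))) (.rp 25 (.thr 41 1 (.thr 60 3 (.thr 48 56 (.dbl 49 51 57)))) (.rp 13 (.thr 1 41 (.thr 49 57 (.thr 51 48 (.thr 17 33 (.dbl 25 12 29))))) .nd))))))) (.rp 13 (.thr 1 41 (.thr 49 57 (.thr 17 33 (.thr 51 48 (.dbl 25 12 29))))) (.rp 10 (.str 42 (.nv (.thr 0 63 (.thr 8 12 (.thr 49 57 (.dbl 25 13 59)))) (.nv (.thr 47 32 (.thr 35 43 (.dbl 41 1 44))) (.rp 0 (.str 15 (.nv (.thr 41 1 (.thr 35 44 (.dbl 43 40 47))) (.nv (.thr 51 27 (.dbl 49 48 57)) (.rp 60 (.str 40 (.nv (.thr 49 57 (.dbl 51 27 48)) (.nv (.dbl 41 1 43) (.rp 57 (.thr 51 27 (.dbl 41 1 43)) (.rp 51 (.thr 57 49 (.dbl 41 1 43)) .nd))))) (.rp 40 (.str 60 (.nv (.thr 32 47 (.thr 49 57 (.dbl 48 51 56))) (.nv (.dbl 41 1 3) (.rp 32 (.str 44 (.nv (.thr 12 28 (.dbl 51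 25 27)) (.nv (.dbl 41 1 3) (.rp 48 (.str 16 (.nv (.dbl 41 1 3) (.nv (.thr 12 28 (.dbl 51 25 27)) (.rp 12 (.str 24 (.nv (.thr 45 30 (.dbl 46 34 47)) (.nv (.dbl 41 1 3) .nd))) .nd)))) (.rp 16 (.thr 48 56 (.dbl 51 27 49)) .nd))))) .nd)))) .nd))))) .nd)))) .nd)))))) (.rp 50 (.str 58 (.nv (.thr 41 1 (.thr 33 45 (.thr 35 44 (.thr 32 34 (.dbl 47 42 43))))) (.nv (.thr 57 49 (.thr 56 59 (.dbl 48 60 63))) .nd))) (.rp 41 (.thr 49 57 (.thr 25 13 (.thr 17 29 (.thr 51 12 (.thr 0 34 (.thr 63 42 (.dbl 48 50 58))))))) (.rp 33 (.thr 49 57 (.thr 25 13 (.thr 28 19 (.thr 12 51 (.thr 60 44 (.dbl 41 1 3)))))) (.rp 13 (.thr 57 49 (.thr 41 1 (.thr 9 25 (.thr 33 45 (.thr 35 44 (.thr 32 34 (.dbl 47 42 43))))))) (.rp 1 (.thr 49 57 (.thr 13 25 (.thr 45 29 (.thr 41 33 (.thr 60 3 (.thr 15 30 (.thr 44 35 (.dbl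 12 14 28)))))))) .nd)))))))))))) .nd)))))))) (.rp 39 (.thr 55 54 (.thr 4 38 (.thr 20 36 (.dbl 22 7 23)))) (.rp 38 (.str 63 (.nv (.thr 22 7 (.thr 20 23 (.thr 48 58 (.thr 60 56 (.dbl 0 40 42))))) (.nv (.thr 7 22 (.thr 42 0 (.thr 47 32 (.thr 15 31 (.thr 3 11 (.thr 23 43 (.dbl 55 39 54))))))) (.nv (.thr 22 7 (.thr 23 20 (.thr 3 43 (.thr 41 60 (.thr 1 61 (.dbl 0 2 42)))))) (.nv (.thr 22 7 (.thr 23 20 (.thr 3 43 (.thr 48 58 (.dbl 60 41 56))))) (.rp 50 (.str 14 (.nv (.thr 7 22 (.thr 42 0 (.thr 47 32 (.thr 15 31 (.thr 3 11 (.thr 23 43 (.dbl 55 39 54))))))) (.nv (.thr 22 7 (.thr 23 20 (.thr 3 43 (.thr 41 60 (.thr 1 61 (.dbl 0 2 42)))))) (.nv (.thr 22 7 (.thr 23 20 (.thr 54 55 (.thr 48 58 (.thr 3 43 (.dbl 60 41 56)))))) (.rp 58 (.thr 54 55 (.thr 22 7 (.thr 23 20 (.thr 3 43 (.thr 41 60 (.thr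 1 61 (.dbl 0 2 42))))))) (.rp 54 (.thr 58 48 (.thr 22 7 (.thr 23 20 (.thr 0 42 (.thr 3 43 (.thr 1 2 (.dbl 41 60 61))))))) (.rp 43 (.thr 22 7 (.thr 20 23 (.thr 0 42 (.thr 60 40 (.thr 41 3 (.dbl 48 56 58)))))) (.rp 42 (.thr 22 7 (.thr 23 20 (.thr 3 43 (.thr 41 60 (.thr 33 45 (.dbl 48 18 58)))))) (.rp 41 (.thr 22 7 (.thr 20 23 (.thr 4 36 (.thr 0 42 (.thr 12 8 (.thr 13 15 (.thr 25 49 (.dbl 29 17 46)))))))) (.rp 23 (.thr 54 55 (.thr 48 58 (.thr 60 56 (.thr 57 51 (.thr 61 49 (.thr 41 1 (.dbl 22 3 7))))))) (.rp 22 (.thr 42 0 (.thr 47 32 (.thr 15 31 (.thr 12 13 (.thr 29 46 (.thr 25 17 (.thr 59 8 (.dbl 55 51 54)))))))) (.rp 7 (.thr 54 55 (.thr 48 58 (.thr 60 56 (.thr 57 51 (.thr 61 49 (.thr 41 1 (.thr 3 22 (.dbl 33 18 45)))))))) (.rp 6 (.thr 54 55 (.thr 48 58 (.thr 60 56 (.thr 57 51 (.thr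 61 49 (.thr 41 1 (.dbl 22 3 7))))))) (.rp 3 (.thr 22 7 (.thr 20 23 (.thr 0 42 (.thr 60 40 (.dbl 48 56 58))))) .nd)))))))))))))) (.rp 42 (.thr 22 7 (.thr 23 20 (.thr 3 43 (.thr 41 60 (.thr 33 45 (.dbl 48 18 58)))))) (.rp 41 (.thr 55 54 (.thr 51 59 (.thr 42 0 (.thr 47 32 (.thr 15 31 (.thr 39 27 (.dbl 7 22 23))))))) (.rp 23 (.thr 22 7 (.thr 48 58 (.thr 60 56 (.thr 41 3 (.thr 61 1 (.thr 57 49 (.dbl 54 51 55))))))) (.rp 22 (.thr 54 55 (.thr 48 58 (.thr 60 56 (.thr 57 51 (.thr 61 49 (.thr 41 1 (.thr 33 45 (.thr 42 0 (.thr 43 40 (.dbl 3 18 23)))))))))) (.rp 14 (.str 50 (.nv (.thr 48 58 (.thr 51 49 (.dbl 55 54 59))) (.nv (.thr 22 7 (.thr 23 20 (.thr 3 43 (.thr 48 58 (.dbl 60 41 56))))) (.nv (.thr 55 54 (.thr 51 59 (.dbl 48 49 58))) (.rp 58 (.thr 55 54 (.thr 51 59 (.thr 49 48 (.thr 25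 13 (.thr 17 29 (.dbl 0 34 42)))))) (.rp 48 (.thr 22 7 (.thr 23 20 (.thr 0 42 (.thr 3 43 (.thr 1 2 (.dbl 41 60 61)))))) (.rp 46 (.str 30 (.nv (.thr 42 0 (.thr 47 32 (.thr 15 31 (.thr 48 58 (.dbl 60 45 56))))) (.nv (.thr 48 58 (.thr 51 49 (.dbl 55 54 59))) (.rp 58 (.thr 55 54 (.thr 51 59 (.thr 49 48 (.thr 25 13 (.thr 17 29 (.dbl 0 34 42)))))) (.rp 48 (.thr 22 7 (.thr 23 20 (.thr 3 43 (.thr 41 60 (.thr 1 61 (.dbl 0 2 42)))))) (.rp 42 (.str 34 (.nv (.thr 18 2 (.thr 22 7 (.thr 23 20 (.thr 3 43 (.dbl 48 33 58))))) (.nv (.thr 55 54 (.thr 51 59 (.dbl 48 49 58))) (.rp 58 (.str 10 (.nv (.thr 2 18 (.thr 22 7 (.thr 23 20 (.thr 3 43 (.thr 1 0 (.dbl 41 60 61)))))) (.nv (.thr 55 54 (.thr 51 59 (.thr 17 0 (.thr 25 29 (.dbl 49 13 48))))) (.nv (.thr 22 7 (.thr 18 2 (.thr 23 20 (.thr 3 43 (.thr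 48 33 (.dbl 60 41 56)))))) (.rp 22 (.thr 2 18 (.str 48 (.nv (.thr 54 55 (.thr 51 49 (.dbl 60 56 57))) (.nv (.thr 51 49 (.dbl 55 54 59)) (.rp 55 (.thr 60 56 (.thr 45 15 (.thr 41 33 (.thr 61 1 (.dbl 49 51 57))))) (.rp 54 (.str 6 (.nv (.thr 51 49 (.thr 0 17 (.thr 1 3 (.thr 41 61 (.thr 33 45 (.dbl 32 16 35)))))) (.nv (.thr 49 51 (.thr 25 13 (.thr 29 17 (.thr 31 28 (.thr 15 47 (.dbl 60 45 56)))))) (.nv (.thr 49 51 (.thr 57 61 (.thr 60 56 (.thr 45 15 (.thr 41 33 (.dbl 25 9 13)))))) (.nv (.thr 51 49 (.thr 0 17 (.thr 1 3 (.thr 41 61 (.thr 45 33 (.dbl 60 15 56)))))) (.rp 51 (.thr 60 56 (.thr 45 15 (.thr 41 33 (.thr 61 1 (.thr 13 29 (.dbl 49 25 57)))))) (.rp 49 (.thr 60 56 (.thr 45 15 (.thr 41 33 (.thr 1 61 (.thr 0 3 (.thr 20 40 (.thr 36 4 (.thr 16 32 (.dbl 24 12 28))))))))) (.rp 45 (.thr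 60 56 (.thr 51 49 (.thr 0 17 (.thr 20 40 (.thr 36 4 (.thr 24 12 (.dbl 16 28 32))))))) .nd)))))))) (.rp 51 (.thr 60 56 (.thr 45 15 (.thr 41 33 (.thr 61 1 (.thr 13 29 (.dbl 49 25 57)))))) (.rp 49 (.thr 60 56 (.thr 45 15 (.thr 41 33 (.thr 1 61 (.thr 54 55 (.thr 0 3 (.dbl 51 17 57))))))) .nd)))))))) (.rp 6 (.thr 54 55 (.thr 2 18 (.str 23 (.nv (.dbl 22 7 20) (.rp 22 (.thr 3 43 (.thr 0 1 (.thr 51 17 (.thr 49 48 (.dbl 57 60 61))))) (.rp 20 (.thr 3 43 (.thr 1 0 (.thr 41 61 (.dbl 22 7 60)))) (.rp 7 (.str 4 (.nv (.dbl 20 22 36) (.rp 36 (.thr 22 20 (.thr 3 43 (.thr 1 0 (.dbl 41 60 61)))) (.rp 22 (.thr 20 36 (.thr 3 43 (.thr 0 1 (.thr 51 17 (.dbl 60 40 57))))) (.rp 20 (.thr 3 43 (.thr 0 1 (.thr 51 17 (.thr 49 48 (.dbl 57 60 61))))) .nd))))) (.rp 4 (.thr 7 22 (.thr 3 43 (.thr 0 1 (.thr 51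 17 (.thr 49 48 (.dbl 57 60 61)))))) .nd)))))))) (.rp 2 (.thr 22 7 (.thr 55 54 (.thr 51 59 (.thr 49 48 (.thr 25 13 (.dbl 17 0 29)))))) .nd))))))) (.rp 48 (.thr 22 7 (.thr 23 20 (.thr 2 18 (.thr 3 43 (.thr 1 0 (.dbl 41 60 61)))))) (.rp 22 (.thr 2 18 (.thr 54 55 (.str 60 (.nv (.dbl 48 56 58) (.rp 58 (.str 10 (.nv (.thr 45 15 (.thr 57 51 (.thr 61 49 (.dbl 41 1 33)))) (.nv (.thr 51 57 (.dbl 48 49 56)) (.rp 57 (.thr 45 15 (.thr 41 33 (.thr 61 1 (.thr 13 29 (.thr 49 25 (.dbl 48 51 56)))))) (.rp 51 (.thr 45 15 (.thr 41 33 (.thr 61 1 (.thr 13 29 (.dbl 49 25 57))))) (.rp 49 (.thr 45 15 (.thr 41 33 (.thr 1 61 (.thr 51 57 (.dbl 0 3 17))))) .nd)))))) (.rp 56 (.thr 51 57 (.dbl 48 49 58)) (.rp 48 (.thr 45 15 (.thr 57 51 (.thr 61 49 (.dbl 41 1 33)))) (.rp 10 (.thr 58 48 (.thr 57 51 (.thr 61 49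 (.thr 41 1 (.dbl 45 15 33))))) .nd)))))))) (.rp 10 (.thr 58 48 (.thr 22 7 (.thr 23 20 (.thr 2 18 (.thr 3 43 (.thr 41 60 (.dbl 1 0 61))))))) (.rp 6 (.thr 54 55 (.thr 7 22 (.thr 2 18 (.str 60 (.nv (.dbl 48 56 58) (.rp 58 (.str 10 (.nv (.thr 15 45 (.thr 3 11 (.thr 0 1 (.dbl 51 17 57)))) (.nv (.thr 51 57 (.dbl 48 49 56)) (.rp 57 (.thr 15 45 (.thr 3 11 (.thr 0 1 (.thr 51 17 (.dbl 48 49 56))))) (.rp 56 (.thr 45 15 (.thr 41 33 (.thr 61 1 (.dbl 57 49 51)))) (.rp 51 (.thr 45 15 (.thr 41 33 (.thr 61 1 (.thr 13 29 (.dbl 49 25 57))))) .nd)))))) (.rp 56 (.thr 51 57 (.dbl 48 49 58)) (.rp 48 (.thr 15 45 (.thr 3 11 (.thr 0 1 (.dbl 51 17 57)))) (.rp 10 (.thr 58 48 (.thr 15 45 (.thr 3 11 (.thr 0 1 (.dbl 51 17 57))))) .nd))))))))) (.rp 2 (.thr 22 7 (.thr 55 54 (.thr 51 59 (.dbl 48 49 58)))) .nd)))))))))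 (.rp 10 (.thr 55 54 (.thr 51 59 (.dbl 48 49 58))) .nd))))))) (.rp 30 (.str 46 (.nv (.thr 29 12 (.thr 25 17 (.thr 48 58 (.dbl 49 13 51)))) (.nv (.thr 22 7 (.thr 12 29 (.thr 20 23 (.thr 4 36 (.dbl 0 8 42))))) (.nv (.thr 55 54 (.thr 51 59 (.dbl 48 49 58))) (.rp 22 (.str 18 (.nv (.thr 42 0 (.thr 47 32 (.thr 45 44 (.thr 48 58 (.dbl 33 3 41))))) (.nv (.thr 48 58 (.thr 51 49 (.dbl 55 54 59))) (.rp 58 (.thr 29 12 (.thr 42 0 (.thr 47 32 (.thr 45 44 (.thr 13 61 (.dbl 25 17 49)))))) (.rp 54 (.str 6 (.nv (.thr 42 0 (.thr 47 32 (.thr 45 44 (.thr 48 58 (.dbl 33 3 41))))) (.nv (.thr 2 34 (.thr 12 29 (.thr 3 9 (.dbl 0 1 42)))) (.nv (.thr 48 58 (.thr 3 33 (.dbl 12 9 29))) (.rp 42 (.thr 2 34 (.thr 12 29 (.thr 3 9 (.dbl 48 33 58)))) (.rp 3 (.thr 29 12 (.thr 48 58 (.thr 49 51 (.dbl 25 13 17)))) .nd))))))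 (.rp 48 (.thr 29 12 (.thr 42 0 (.thr 25 17 (.thr 13 49 (.thr 45 61 (.dbl 47 32 44)))))) (.rp 42 (.thr 2 34 (.thr 29 12 (.thr 25 17 (.thr 13 49 (.thr 45 61 (.thr 33 41 (.dbl 48 3 58))))))) (.rp 10 (.thr 29 12 (.thr 25 17 (.thr 13 49 (.thr 45 61 (.thr 47 44 (.dbl 42 0 32)))))) (.rp 6 (.thr 54 55 (.thr 48 58 (.thr 51 49 (.dbl 60 56 57)))) .nd))))))))) .nd))))) .nd)))))))) (.rp 7 (.thr 55 54 (.thr 59 51 (.thr 58 48 (.thr 57 56 (.thr 49 61 (.thr 25 13 (.dbl 42 0 8))))))) (.rp 6 (.thr 54 55 (.thr 48 58 (.thr 60 56 (.thr 57 51 (.thr 61 49 (.thr 41 1 (.dbl 22 3 7))))))) .nd))))))))))))) (.rp 36 (.str 49 (.nv (.thr 13 25 (.thr 61 57 (.thr 41 1 (.dbl 45 29 33)))) (.nv (.thr 25 13 (.thr 17 29 (.thr 61 57 (.dbl 1 33 41)))) (.rp 61 (.thr 55 54 (.thr 38 4 (.thr 25 13 (.thr 51 12 (.thr 63 59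 (.dbl 48 50 58)))))) (.rp 57 (.thr 55 54 (.thr 38 4 (.thr 25 13 (.thr 51 12 (.thr 63 59 (.dbl 48 50 58)))))) (.rp 41 (.thr 55 54 (.thr 38 4 (.thr 25 13 (.thr 51 12 (.thr 63 59 (.dbl 48 50 58)))))) (.rp 33 (.thr 55 54 (.thr 38 4 (.thr 25 13 (.thr 51 12 (.thr 63 59 (.dbl 48 50 58)))))) (.rp 29 (.thr 55 54 (.thr 38 4 (.thr 25 13 (.thr 51 12 (.thr 63 59 (.dbl 48 50 58)))))) (.rp 25 (.thr 54 55 (.thr 22 7 (.thr 23 20 (.thr 57 61 (.thr 60 51 (.thr 3 41 (.thr 63 43 (.dbl 48 56 58)))))))) (.rp 13 (.thr 54 55 (.thr 22 7 (.thr 23 20 (.thr 57 61 (.thr 60 51 (.thr 3 41 (.thr 63 43 (.dbl 48 56 58)))))))) (.rp 1 (.thr 54 55 (.thr 22 7 (.thr 57 61 (.thr 60 51 (.thr 41 3 (.dbl 25 9 13)))))) .nd))))))))))) (.rp 23 (.str 49 (.nv (.thr 13 25 (.thr 61 57 (.thr 41 1 (.dbl 45 29 33)))) (.nv (.thr 25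 13 (.thr 17 29 (.thr 61 57 (.dbl 1 33 41)))) (.rp 61 (.thr 55 54 (.thr 38 4 (.thr 25 13 (.thr 51 12 (.thr 63 59 (.dbl 48 50 58)))))) (.rp 57 (.thr 55 54 (.thr 38 4 (.thr 25 13 (.thr 51 12 (.thr 63 59 (.dbl 48 50 58)))))) (.rp 41 (.thr 55 54 (.thr 38 4 (.thr 25 13 (.thr 51 12 (.thr 63 59 (.dbl 48 50 58)))))) (.rp 33 (.thr 55 54 (.thr 38 4 (.thr 25 13 (.thr 51 12 (.thr 63 59 (.dbl 48 50 58)))))) (.rp 29 (.thr 55 54 (.thr 38 4 (.thr 25 13 (.thr 51 12 (.thr 63 59 (.dbl 48 50 58)))))) (.rp 25 (.thr 55 54 (.thr 38 4 (.thr 36 39 (.thr 61 57 (.thr 41 1 (.thr 45 33 (.thr 44 35 (.thr 47 46 (.dbl 32 40 42))))))))) (.rp 13 (.thr 55 54 (.thr 38 4 (.thr 61 57 (.thr 1 41 (.thr 17 33 (.thr 25 29 (.thr 51 12 (.thr 0 34 (.dbl 63 42 59))))))))) (.rp 1 (.thr 55 54 (.thr 38 4 (.thr 57 61 (.thr 25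 13 (.thr 9 41 (.thr 51 12 (.thr 63 59 (.dbl 48 50 58)))))))) .nd))))))))))) (.rp 22 (.str 42 (.nv (.thr 32 47 (.thr 55 54 (.thr 38 4 (.thr 34 46 (.thr 35 33 (.thr 36 39 (.dbl 44 40 41))))))) (.nv (.thr 0 63 (.thr 32 47 (.thr 48 16 (.thr 60 56 (.thr 20 40 (.thr 4 36 (.dbl 55 38 54))))))) (.nv (.thr 55 54 (.thr 63 0 (.thr 51 59 (.thr 38 4 (.thr 46 34 (.dbl 12 25 29)))))) (.rp 55 (.thr 32 47 (.thr 0 63 (.thr 48 16 (.thr 60 56 (.thr 40 20 (.thr 44 36 (.thr 41 43 (.thr 33 45 (.dbl 35 34 38))))))))) (.rp 54 (.thr 32 47 (.thr 0 63 (.thr 48 16 (.thr 60 56 (.thr 40 20 (.thr 36 44 (.thr 38 39 (.thr 4 55 (.dbl 12 8 24))))))))) (.rp 38 (.thr 54 55 (.thr 32 47 (.thr 0 63 (.thr 48 16 (.thr 60 56 (.thr 51 57 (.thr 17 34 (.thr 25 29 (.dbl 49 13 50))))))))) (.rp 30 (.str 18 (.nv (.thr 32 47 (.thr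 55 54 (.thr 38 4 (.thr 36 39 (.thr 44 40 (.thr 35 41 (.dbl 34 33 46))))))) (.nv (.thr 0 63 (.thr 32 47 (.thr 48 16 (.thr 33 3 (.thr 41 45 (.thr 60 56 (.dbl 40 20 43))))))) (.nv (.thr 55 54 (.thr 38 4 (.thr 63 0 (.thr 51 59 (.thr 46 34 (.dbl 12 25 29)))))) (.rp 46 (.str 14 (.nv (.thr 55 54 (.thr 38 4 (.thr 39 36 (.thr 63 0 (.thr 51 59 (.thr 12 25 (.dbl 15 13 27))))))) (.nv (.thr 0 63 (.thr 32 47 (.thr 48 16 (.thr 3 33 (.thr 1 2 (.thr 41 61 (.thr 60 56 (.dbl 40 20 43)))))))) (.nv (.thr 47 32 (.thr 55 54 (.thr 63 0 (.thr 15 31 (.thr 51 59 (.thr 38 4 (.dbl 12 13 25))))))) (.rp 63 (.thr 32 47 (.thr 55 54 (.thr 38 4 (.thr 36 39 (.thr 44 40 (.thr 35 41 (.thr 33 34 (.thr 3 48 (.thr 19 51 (.thr 17 16 (.thr 49 1 (.dbl 25 13 29)))))))))))) (.rp 15 (.thr 32 47 (.thr 55 54 (.thr 38 4 (.thr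 36 39 (.thr 44 40 (.thr 35 41 (.thr 33 34 (.thr 3 48 (.thr 51 19 (.dbl 63 0 59)))))))))) (.rp 12 (.thr 63 0 (.thr 58 48 (.thr 55 54 (.thr 59 51 (.thr 57 56 (.thr 49 61 (.dbl 25 8 13))))))) (.rp 0 (.thr 32 47 (.thr 55 54 (.thr 38 4 (.thr 36 39 (.thr 44 40 (.thr 35 41 (.thr 33 34 (.thr 3 48 (.thr 51 19 (.thr 59 63 (.dbl 25 8 12))))))))))) .nd)))))))) (.rp 14 (.str 46 (.nv (.thr 38 34 (.dbl 55 4 54)) (.rp 55 (.thr 38 34 (.thr 36 39 (.thr 63 0 (.thr 48 58 (.dbl 12 24 29))))) (.rp 54 (.thr 38 34 (.thr 36 39 (.dbl 4 20 55))) (.rp 38 (.str 50 (.nv (.thr 0 63 (.thr 2 34 (.thr 1 3 (.thr 47 32 (.thr 45 44 (.dbl 41 33 61)))))) (.nv (.thr 63 0 (.thr 48 58 (.thr 51 49 (.dbl 55 54 59)))) (.rp 63 (.thr 32 47 (.thr 34 2 (.thr 33 35 (.thr 48 3 (.thr 51 49 (.dbl 0 16 17)))))) (.rp 54 (.str 6 (.nv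 (.thr 0 63 (.thr 2 34 (.thr 1 3 (.thr 47 32 (.thr 45 44 (.dbl 41 33 61)))))) (.nv (.thr 0 63 (.thr 32 47 (.thr 16 48 (.thr 17 19 (.dbl 34 2 51))))) (.nv (.thr 63 0 (.thr 48 58 (.thr 3 33 (.dbl 12 9 29)))) (.rp 63 (.thr 34 2 (.thr 32 47 (.thr 33 35 (.thr 48 3 (.thr 0 16 (.dbl 51 17 49)))))) (.rp 0 (.thr 47 32 (.thr 45 44 (.thr 41 33 (.thr 61 1 (.thr 13 29 (.dbl 49 25 57)))))) .nd)))))) (.rp 6 (.thr 54 55 (.thr 63 0 (.thr 48 58 (.thr 51 49 (.dbl 60 56 57))))) (.rp 0 (.thr 47 32 (.thr 45 44 (.thr 41 33 (.thr 61 1 (.thr 49 57 (.dbl 13 25 29)))))) .nd))))))) (.rp 34 (.thr 55 54 (.thr 63 0 (.thr 51 59 (.thr 38 4 (.dbl 12 25 29))))) (.rp 4 (.thr 55 54 (.thr 38 34 (.thr 63 0 (.thr 51 59 (.dbl 12 25 29))))) .nd))))))) .nd)))))) (.rp 18 (.str 30 (.nv (.thr 55 54 (.thr 38 4 (.thr 46 34 (.thr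 63 0 (.thr 12 29 (.dbl 51 25 59)))))) (.nv (.thr 32 47 (.thr 55 54 (.thr 38 4 (.thr 36 39 (.thr 34 46 (.thr 44 40 (.dbl 35 33 41))))))) (.nv (.thr 47 32 (.thr 63 0 (.thr 15 31 (.thr 60 45 (.dbl 48 56 58))))) (.rp 58 (.thr 63 0 (.thr 47 32 (.thr 15 31 (.thr 45 60 (.thr 46 44 (.thr 38 34 (.dbl 55 4 54))))))) .nd))))) (.rp 4 (.thr 55 54 (.thr 63 0 (.thr 58 48 (.thr 59 51 (.thr 57 56 (.thr 49 61 (.dbl 25 8 13))))))) .nd)))))))))) (.rp 7 (.str 41 (.nv (.thr 45 33 (.thr 61 1 (.thr 13 29 (.dbl 49 25 57)))) (.rp 61 (.thr 55 54 (.thr 4 38 (.thr 20 36 (.thr 22 23 (.thr 60 3 (.thr 0 40 (.thr 48 56 (.dbl 63 42 58)))))))) (.rp 57 (.thr 55 54 (.thr 4 38 (.thr 20 36 (.thr 22 23 (.thr 60 3 (.thr 0 40 (.thr 48 56 (.dbl 63 42 58)))))))) (.rp 49 (.thr 55 54 (.thr 4 38 (.thr 20 36 (.thr 22 23 (.thr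 60 3 (.thr 0 40 (.thr 48 56 (.dbl 63 42 58)))))))) (.rp 45 (.thr 55 54 (.thr 4 38 (.thr 20 36 (.thr 22 23 (.thr 60 3 (.thr 0 40 (.thr 48 56 (.dbl 63 42 58)))))))) (.rp 33 (.thr 55 54 (.thr 4 38 (.thr 20 36 (.thr 22 23 (.thr 60 3 (.thr 0 40 (.thr 48 56 (.dbl 63 42 58)))))))) (.rp 29 (.thr 33 45 (.thr 61 1 (.thr 57 49 (.thr 54 55 (.thr 60 51 (.thr 48 56 (.dbl 3 18 22))))))) (.rp 25 (.thr 33 45 (.thr 61 1 (.thr 57 49 (.thr 54 55 (.thr 60 51 (.thr 48 56 (.dbl 3 18 22))))))) (.rp 17 (.thr 45 33 (.thr 61 1 (.thr 49 57 (.dbl 13 25 29)))) (.rp 13 (.thr 55 54 (.thr 4 38 (.thr 20 36 (.thr 22 23 (.thr 60 3 (.thr 0 40 (.thr 48 56 (.dbl 63 42 58)))))))) (.rp 6 (.str 4 (.nv (.dbl 55 38 54) (.rp 55 (.thr 45 33 (.thr 61 1 (.thr 13 29 (.dbl 49 25 57)))) (.rp 54 (.thr 36 20 (.dbl 38 39 55)) (.rp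 38 (.thr 45 33 (.thr 61 1 (.thr 13 29 (.dbl 49 25 57)))) .nd))))) (.rp 4 (.str 6 (.nv (.thr 54 55 (.thr 22 38 (.thr 60 3 (.thr 57 51 (.dbl 61 1 49))))) (.nv (.thr 45 33 (.thr 61 1 (.thr 13 29 (.dbl 49 25 57)))) (.rp 61 (.thr 33 45 (.thr 54 55 (.thr 22 38 (.thr 23 20 (.thr 3 60 (.thr 63 43 (.dbl 48 18 58))))))) (.rp 57 (.thr 33 45 (.thr 54 55 (.thr 22 38 (.thr 3 60 (.thr 48 18 (.thr 23 20 (.dbl 63 43 58))))))) (.rp 49 (.thr 33 45 (.thr 54 55 (.thr 22 38 (.thr 3 60 (.thr 48 18 (.thr 23 20 (.dbl 63 43 58))))))) (.rp 25 (.thr 61 1 (.thr 57 49 (.thr 54 55 (.thr 22 38 (.dbl 60 3 51))))) (.rp 1 (.thr 54 55 (.thr 22 38 (.thr 60 3 (.thr 57 51 (.thr 49 61 (.dbl 25 9 13)))))) .nd)))))))) (.rp 1 (.thr 55 54 (.thr 4 38 (.thr 20 36 (.thr 22 23 (.thr 60 3 (.thr 0 40 (.thr 48 56 (.dbl 63 42 58))))))))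 .nd)))))))))))))) (.rp 4 (.str 49 (.nv (.thr 7 22 (.thr 13 25 (.thr 61 57 (.thr 41 1 (.dbl 45 29 33))))) (.nv (.thr 25 13 (.thr 17 29 (.thr 61 57 (.dbl 1 33 41)))) (.rp 61 (.thr 55 54 (.thr 7 22 (.thr 39 23 (.thr 38 36 (.thr 25 13 (.thr 51 12 (.thr 63 59 (.dbl 48 50 58)))))))) (.rp 57 (.thr 55 54 (.thr 7 22 (.thr 39 23 (.thr 38 36 (.thr 25 13 (.thr 51 12 (.thr 63 59 (.dbl 48 50 58)))))))) (.rp 41 (.thr 55 54 (.thr 7 22 (.thr 39 23 (.thr 38 36 (.thr 25 13 (.thr 51 12 (.thr 63 59 (.dbl 48 50 58)))))))) (.rp 33 (.thr 54 55 (.thr 22 7 (.thr 6 38 (.thr 57 61 (.thr 60 51 (.thr 41 3 (.dbl 25 9 13))))))) (.rp 29 (.thr 54 55 (.thr 22 7 (.thr 6 38 (.thr 57 61 (.thr 60 51 (.thr 41 3 (.dbl 25 9 13))))))) (.rp 25 (.thr 55 54 (.thr 7 22 (.thr 39 23 (.thr 38 36 (.thr 61 57 (.thr 41 1 (.thr 33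 45 (.thr 35 44 (.thr 32 34 (.dbl 47 42 43)))))))))) (.rp 13 (.thr 54 55 (.thr 22 7 (.thr 6 38 (.thr 23 20 (.thr 57 61 (.thr 60 51 (.thr 3 41 (.thr 63 43 (.dbl 48 56 58))))))))) (.rp 7 (.str 6 (.nv (.thr 25 13 (.thr 54 55 (.thr 38 22 (.thr 51 12 (.thr 48 50 (.dbl 60 56 57)))))) (.nv (.thr 25 13 (.thr 17 29 (.thr 61 57 (.dbl 1 33 41)))) (.rp 57 (.thr 54 55 (.thr 38 22 (.thr 25 13 (.thr 17 29 (.thr 51 12 (.thr 0 34 (.thr 48 50 (.dbl 63 42 58)))))))) (.rp 25 (.thr 54 55 (.thr 38 22 (.thr 39 36 (.thr 61 57 (.thr 41 1 (.thr 33 45 (.thr 35 44 (.thr 32 34 (.dbl 47 42 43))))))))) (.rp 13 (.thr 54 55 (.thr 22 38 (.thr 23 20 (.thr 57 61 (.thr 60 51 (.thr 3 41 (.thr 63 43 (.dbl 48 56 58)))))))) (.rp 9 (.thr 61 57 (.thr 1 41 (.thr 25 13 (.dbl 17 29 33)))) (.rp 1 (.thr 54 55 (.thr 38 22 (.thr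 57 61 (.thr 25 13 (.thr 9 41 (.dbl 51 12 60)))))) .nd)))))))) (.rp 1 (.thr 54 55 (.thr 22 7 (.thr 6 38 (.thr 57 61 (.thr 60 51 (.thr 41 3 (.dbl 25 9 13))))))) .nd)))))))))))) .nd))))))))))))

theorem w564 : WinAt (9007336695791616, 4611686018494496800) :=
  chF (K := []) kn c564 9007336695791616 4611686018494496800 5
    [] (by decide +kernel) (by decide +kernel)

/-- A certificate. -/
noncomputable def c565 : Ct := (.str 22 (.nv (.thr 20 23 (.thr 52 7 (.thr 4 36 (.thr 53 5 (.dbl 55 38 54))))) (.nv (.thr 23 20 (.thr 5 53 (.thr 7 52 (.thr 4 6 (.dbl 55 38 39))))) (.rp 55 (.str 41 (.nv (.thr 5 53 (.thr 45 33 (.thr 60 3 (.thr 15 30 (.thr 0 10 (.dbl 20 23 40)))))) (.nv (.thr 45 33 (.thr 53 5 (.thr 61 1 (.thr 49 57 (.dbl 13 25 29))))) (.rp 59 (.str 51 (.nv (.thr 1 61 (.thr 33 45 (.thr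 5 53 (.thr 49 17 (.dbl 13 9 25))))) (.nv (.thr 3 60 (.thr 19 35 (.thr 25 28 (.thr 9 57 (.dbl 12 6 38))))) (.nv (.thr 53 5 (.thr 60 3 (.thr 57 54 (.dbl 61 1 49)))) (.rp 61 (.thr 60 3 (.thr 57 54 (.thr 25 9 (.thr 28 19 (.dbl 12 38 44))))) (.rp 60 (.thr 53 5 (.thr 45 33 (.thr 61 1 (.thr 13 29 (.dbl 49 25 57))))) .nd)))))) (.rp 53 (.thr 45 33 (.thr 61 1 (.thr 13 29 (.thr 60 3 (.thr 15 30 (.thr 12 14 (.thr 28 44 (.dbl 25 19 49)))))))) (.rp 51 (.str 59 (.nv (.thr 5 53 (.thr 45 33 (.thr 60 3 (.thr 15 30 (.thr 0 10 (.dbl 20 23 40)))))) (.nv (.thr 53 5 (.thr 45 33 (.thr 61 1 (.thr 13 29 (.dbl 49 25 57))))) (.rp 53 (.thr 45 33 (.thr 61 1 (.thr 13 29 (.thr 60 3 (.thr 15 30 (.thr 12 14 (.thr 28 44 (.dbl 25 19 49)))))))) (.rp 45 (.thr 53 5 (.thr 61 1 (.thr 57 49 (.thr 60 3 (.thr 52 7 (.dbl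 56 48 58)))))) (.rp 33 (.thr 5 53 (.thr 1 61 (.thr 9 13 (.thr 57 25 (.thr 60 3 (.thr 52 7 (.dbl 56 48 58))))))) (.rp 5 (.thr 45 33 (.thr 61 1 (.thr 13 29 (.thr 49 25 (.thr 57 53 (.thr 60 3 (.thr 52 7 (.dbl 56 48 58)))))))) .nd))))))) (.rp 45 (.thr 5 53 (.thr 1 61 (.thr 13 9 (.thr 49 25 (.thr 17 33 (.thr 60 3 (.thr 52 7 (.thr 48 56 (.thr 51 50 (.thr 0 34 (.dbl 20 23 40))))))))))) (.rp 33 (.thr 53 5 (.thr 61 1 (.thr 49 57 (.thr 13 25 (.thr 45 29 (.thr 60 3 (.thr 15 30 (.thr 12 14 (.thr 28 44 (.thr 52 7 (.thr 48 56 (.thr 24 36 (.dbl 20 16 23))))))))))))) (.rp 5 (.thr 45 33 (.thr 61 1 (.thr 13 29 (.thr 60 3 (.thr 15 30 (.thr 12 14 (.thr 28 44 (.dbl 25 19 49)))))))) .nd))))))))) (.rp 54 (.thr 23 20 (.thr 5 53 (.thr 7 52 (.thr 55 39 (.dbl 4 6 38))))) (.rp 53 (.str 4 (.nv (.thr 7 52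 (.thr 6 5 (.dbl 38 54 55))) (.nv (.thr 52 7 (.dbl 20 23 36)) (.rp 58 (.str 48 (.nv (.thr 7 52 (.thr 6 5 (.dbl 38 54 55))) (.nv (.thr 52 7 (.dbl 20 23 36)) (.rp 52 (.thr 38 55 (.thr 54 6 (.thr 36 39 (.thr 12 24 (.thr 0 8 (.thr 32 16 (.thr 40 44 (.dbl 20 23 60)))))))) (.rp 42 (.str 10 (.nv (.thr 7 52 (.thr 6 5 (.dbl 38 54 55))) (.nv (.thr 52 7 (.dbl 20 23 36)) (.rp 52 (.thr 23 20 (.thr 55 38 (.thr 7 39 (.thr 5 6 (.thr 15 0 (.thr 3 11 (.thr 33 18 (.dbl 41 45 60)))))))) (.rp 7 (.thr 20 23 (.thr 36 52 (.dbl 38 39 55))) .nd))))) (.rp 10 (.str 42 (.nv (.thr 7 52 (.thr 6 5 (.dbl 38 54 55))) (.nv (.thr 52 7 (.dbl 20 23 36)) (.rp 52 (.thr 32 47 (.thr 0 16 (.thr 12 8 (.thr 36 24 (.dbl 38 39 55))))) (.rp 7 (.thr 20 23 (.thr 36 52 (.dbl 38 39 55))) .nd))))) (.rp 7 (.thr 20 23 (.thr 36 52 (.dbl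 38 39 55))) .nd))))))) (.rp 52 (.thr 38 55 (.thr 54 6 (.str 51 (.nv (.thr 23 20 (.thr 25 12 (.thr 39 36 (.thr 27 15 (.dbl 19 28 31))))) (.nv (.thr 20 23 (.thr 12 25 (.thr 0 8 (.dbl 60 40 57)))) (.nv (.thr 25 12 (.thr 19 28 (.thr 3 35 (.dbl 60 41 57)))) (.rp 58 (.str 48 (.nv (.thr 36 39 (.dbl 12 24 25)) (.nv (.thr 49 50 (.dbl 25 12 13)) (.rp 42 (.str 10 (.nv (.thr 36 39 (.dbl 12 24 25)) (.nv (.thr 49 50 (.dbl 25 12 13)) (.rp 25 (.thr 49 50 (.thr 60 57 (.thr 41 3 (.thr 33 45 (.dbl 1 17 61))))) (.rp 12 (.thr 49 50 (.thr 25 13 (.thr 19 28 (.thr 3 35 (.dbl 60 41 57))))) .nd))))) (.rp 25 (.thr 36 39 (.thr 60 57 (.thr 41 3 (.thr 44 35 (.dbl 12 24 28))))) (.rp 12 (.thr 39 36 (.thr 60 57 (.thr 15 27 (.thr 45 30 (.dbl 41 3 33))))) (.rp 10 (.str 42 (.nv (.thr 2 62 (.thr 32 47 (.thr 0 16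 (.dbl 34 17 46)))) (.nv (.thr 49 50 (.dbl 25 12 13)) (.rp 2 (.str 14 (.nv (.thr 32 47 (.thr 0 16 (.dbl 34 17 46))) (.nv (.thr 12 25 (.dbl 36 24 39)) .nd))) .nd)))) .nd))))))) (.rp 48 (.str 58 (.nv (.thr 12 25 (.thr 0 8 (.thr 34 17 (.thr 42 46 (.dbl 62 2 50))))) (.nv (.thr 60 57 (.thr 3 41 (.thr 19 35 (.dbl 25 12 28)))) (.rp 60 (.str 56 (.nv (.thr 62 50 (.thr 42 2 (.thr 34 46 (.thr 17 0 (.dbl 25 12 29))))) (.nv (.thr 20 23 (.thr 25 12 (.thr 59 57 (.thr 8 42 (.thr 24 40 (.dbl 28 16 19)))))) (.nv (.thr 62 50 (.thr 12 25 (.thr 0 8 (.thr 34 17 (.dbl 42 2 46))))) (.rp 62 (.str 61 (.nv (.thr 25 12 (.thr 29 17 (.dbl 13 45 49))) (.nv (.thr 57 59 (.thr 41 1 (.dbl 25 9 12))) (.rp 25 (.thr 23 20 (.thr 39 36 (.thr 27 15 (.thr 41 1 (.thr 35 44 (.dbl 19 3 31)))))) (.rp 12 (.thr 57 59 (.thr 41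 1 (.thr 45 33 (.thr 29 13 (.dbl 25 9 17))))) (.rp 9 (.thr 41 1 (.thr 45 33 (.thr 13 29 (.dbl 25 12 49)))) .nd)))))) (.rp 46 (.thr 59 57 (.thr 62 50 (.thr 42 2 (.dbl 25 8 12)))) (.rp 42 (.thr 57 59 (.thr 25 12 (.thr 29 17 (.thr 13 49 (.thr 61 45 (.dbl 41 1 9)))))) (.rp 25 (.thr 36 39 (.thr 62 50 (.thr 42 2 (.thr 34 46 (.thr 32 47 (.thr 35 33 (.dbl 44 40 41))))))) (.rp 12 (.thr 36 39 (.thr 59 57 (.thr 62 50 (.thr 42 2 (.thr 8 25 (.thr 32 47 (.dbl 40 24 44))))))) .nd))))))))) (.rp 56 (.thr 60 57 (.thr 20 23 (.thr 0 40 (.dbl 12 8 25)))) (.rp 25 (.thr 36 39 (.thr 60 57 (.thr 41 3 (.thr 44 35 (.thr 40 32 (.dbl 20 0 23)))))) (.rp 12 (.thr 23 20 (.thr 60 57 (.thr 3 41 (.thr 19 35 (.thr 27 31 (.dbl 39 15 36)))))) .nd))))))) (.rp 25 (.thr 39 36 (.thr 60 57 (.thr 41 3 (.thr 45 33 (.dbl 15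 27 30))))) (.rp 12 (.thr 39 36 (.thr 15 27 (.thr 60 57 (.thr 45 30 (.dbl 41 3 33))))) (.rp 3 (.thr 60 57 (.thr 12 25 (.thr 0 8 (.dbl 20 23 40)))) .nd))))))))))) (.rp 48 (.str 58 (.nv (.thr 7 52 (.thr 6 5 (.dbl 38 54 55))) (.nv (.thr 52 7 (.dbl 20 23 36)) (.rp 52 (.thr 38 55 (.thr 54 6 (.thr 36 39 (.thr 62 50 (.thr 42 2 (.thr 32 47 (.thr 44 40 (.thr 34 46 (.dbl 35 33 41))))))))) (.rp 7 (.thr 20 23 (.thr 36 52 (.dbl 38 39 55))) .nd))))) (.rp 7 (.thr 20 23 (.thr 36 52 (.dbl 38 39 55))) .nd))))))) (.rp 52 (.str 41 (.nv (.thr 5 53 (.thr 45 33 (.thr 60 3 (.thr 15 30 (.thr 0 10 (.dbl 20 23 40)))))) (.nv (.thr 45 33 (.thr 53 5 (.thr 61 1 (.thr 49 57 (.dbl 13 25 29))))) (.rp 53 (.thr 60 3 (.thr 61 1 (.thr 45 33 (.thr 13 29 (.thr 15 30 (.thr 12 14 (.thr 28 44 (.dbl 25 19 49)))))))) (.rp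 45 (.str 13 (.nv (.thr 5 53 (.thr 9 1 (.dbl 25 49 57))) (.nv (.thr 1 61 (.dbl 5 9 53)) (.rp 53 (.thr 1 61 (.thr 9 5 (.dbl 25 49 57))) (.rp 9 (.thr 53 5 (.thr 61 1 (.dbl 49 25 57))) (.rp 5 (.thr 60 3 (.thr 25 49 (.thr 57 9 (.thr 28 19 (.thr 12 44 (.dbl 51 38 54)))))) (.rp 1 (.thr 60 3 (.thr 25 49 (.thr 57 9 (.thr 28 19 (.thr 12 44 (.dbl 51 38 54)))))) .nd))))))) (.rp 33 (.thr 5 53 (.thr 60 3 (.thr 1 61 (.thr 9 13 (.thr 57 25 (.thr 54 51 (.thr 38 6 (.thr 39 36 (.thr 35 44 (.thr 20 23 (.thr 43 47 (.dbl 40 0 42)))))))))))) (.rp 5 (.thr 60 3 (.thr 61 1 (.thr 45 33 (.thr 13 29 (.thr 15 30 (.thr 12 14 (.thr 28 44 (.dbl 25 19 49)))))))) .nd))))))) (.rp 39 (.thr 20 23 (.thr 53 5 (.thr 52 7 (.thr 55 54 (.dbl 4 36 38))))) (.rp 38 (.thr 52 7 (.str 41 (.nv (.thr 53 5 (.thr 54 55 (.thr 60 3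 (.thr 61 1 (.dbl 57 49 51))))) (.nv (.thr 5 53 (.thr 45 33 (.thr 60 3 (.thr 15 30 (.thr 0 10 (.dbl 20 23 40)))))) (.nv (.thr 45 33 (.thr 53 5 (.thr 61 1 (.thr 49 57 (.dbl 13 25 29))))) (.rp 53 (.thr 45 33 (.thr 61 1 (.thr 13 29 (.thr 49 25 (.thr 60 3 (.thr 48 56 (.thr 15 30 (.thr 50 51 (.thr 12 14 (.thr 24 36 (.thr 28 44 (.dbl 20 16 23)))))))))))) (.rp 50 (.str 14 (.nv (.thr 53 5 (.thr 54 55 (.thr 60 3 (.thr 61 1 (.dbl 57 49 51))))) (.nv (.thr 45 33 (.thr 60 3 (.thr 15 30 (.thr 13 12 (.dbl 61 1 29))))) (.nv (.thr 5 53 (.thr 45 33 (.thr 60 3 (.thr 15 30 (.thr 0 10 (.dbl 20 23 40)))))) (.nv (.thr 45 33 (.thr 53 5 (.thr 61 1 (.thr 49 57 (.dbl 13 25 29))))) .nd))))) (.rp 14 (.str 50 (.nv (.thr 1 61 (.thr 33 45 (.thr 49 17 (.thr 48 51 (.dbl 3 18 60))))) (.nv (.thr 60 3 (.thr 48 56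 (.thr 51 49 (.thr 54 57 (.dbl 53 5 55))))) (.nv (.thr 45 33 (.thr 53 5 (.thr 61 1 (.thr 49 57 (.dbl 13 25 29))))) (.rp 49 (.thr 3 60 (.thr 33 45 (.thr 18 48 (.thr 2 34 (.dbl 1 0 61))))) .nd))))) (.rp 5 (.thr 45 33 (.thr 61 1 (.thr 13 29 (.thr 49 25 (.thr 57 53 (.thr 60 3 (.thr 48 56 (.dbl 51 50 54)))))))) .nd))))))))) (.rp 23 (.str 3 (.nv (.thr 7 52 (.thr 15 11 (.thr 5 53 (.thr 0 10 (.thr 1 2 (.dbl 41 60 61)))))) (.nv (.thr 7 52 (.thr 5 53 (.thr 6 4 (.thr 15 11 (.thr 12 9 (.thr 10 0 (.dbl 14 2 13))))))) (.nv (.thr 41 60 (.thr 61 1 (.thr 45 33 (.thr 13 29 (.thr 53 5 (.dbl 49 25 57)))))) (.rp 53 (.thr 7 52 (.thr 15 11 (.thr 41 60 (.thr 61 1 (.thr 45 33 (.thr 13 29 (.thr 12 14 (.thr 9 6 (.dbl 25 49 57))))))))) (.rp 41 (.thr 7 52 (.thr 5 53 (.thr 6 4 (.thr 9 12 (.thr 1 13 (.thr 0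 2 (.dbl 15 10 11))))))) (.rp 5 (.thr 7 52 (.thr 15 11 (.thr 41 60 (.thr 61 1 (.thr 45 33 (.thr 13 29 (.thr 12 14 (.thr 9 6 (.dbl 25 49 57))))))))) .nd))))))) (.rp 20 (.str 41 (.nv (.thr 3 60 (.thr 5 53 (.thr 7 52 (.thr 15 11 (.thr 0 10 (.dbl 1 2 61)))))) (.nv (.thr 45 33 (.thr 53 5 (.thr 61 1 (.thr 49 57 (.dbl 13 25 29))))) (.rp 61 (.thr 53 5 (.thr 52 7 (.thr 54 55 (.thr 60 3 (.thr 51 57 (.thr 45 33 (.thr 15 30 (.thr 39 27 (.dbl 38 6 36))))))))) (.rp 53 (.thr 60 3 (.thr 61 1 (.thr 45 33 (.thr 13 29 (.thr 15 30 (.thr 12 14 (.thr 28 44 (.dbl 25 19 49)))))))) (.rp 9 (.thr 53 5 (.thr 45 33 (.thr 61 1 (.thr 13 29 (.dbl 49 25 57))))) (.rp 5 (.thr 60 3 (.thr 61 1 (.thr 45 33 (.thr 13 29 (.thr 15 30 (.thr 12 14 (.thr 28 44 (.dbl 25 19 49)))))))) (.rp 1 (.thr 53 5 (.thr 52 7 (.thr 54 55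 (.thr 60 3 (.thr 51 57 (.thr 45 33 (.thr 15 30 (.thr 39 27 (.dbl 38 6 36))))))))) .nd)))))))) (.rp 7 (.str 41 (.nv (.thr 5 53 (.thr 45 33 (.thr 60 3 (.thr 15 30 (.thr 0 10 (.dbl 20 23 40)))))) (.nv (.thr 45 33 (.thr 53 5 (.thr 61 1 (.thr 49 57 (.dbl 13 25 29))))) (.rp 53 (.thr 45 33 (.thr 61 1 (.thr 13 29 (.thr 60 3 (.thr 15 30 (.thr 12 14 (.thr 28 44 (.dbl 25 19 49)))))))) (.rp 45 (.thr 53 5 (.thr 61 1 (.thr 57 49 (.thr 60 3 (.thr 54 51 (.thr 55 52 (.dbl 38 4 6))))))) (.rp 33 (.thr 5 53 (.thr 1 61 (.thr 9 13 (.thr 57 25 (.thr 60 3 (.thr 54 51 (.thr 38 6 (.thr 35 44 (.thr 39 36 (.thr 43 47 (.thr 20 23 (.dbl 40 0 42)))))))))))) (.rp 5 (.thr 45 33 (.thr 61 1 (.thr 13 29 (.thr 60 3 (.thr 15 30 (.thr 12 14 (.thr 28 44 (.dbl 25 19 49)))))))) .nd))))))) (.rp 5 (.str 41 (.nv (.thr 23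 20 (.thr 7 52 (.thr 39 55 (.thr 3 60 (.thr 15 11 (.thr 51 27 (.thr 35 19 (.dbl 38 36 44)))))))) (.nv (.thr 23 20 (.thr 7 52 (.thr 39 55 (.thr 45 33 (.thr 60 3 (.thr 15 30 (.thr 51 27 (.thr 54 57 (.dbl 38 6 36))))))))) (.rp 60 (.thr 45 33 (.thr 61 1 (.thr 13 29 (.thr 49 25 (.thr 53 57 (.thr 52 7 (.thr 20 23 (.thr 4 36 (.dbl 55 38 54))))))))) (.rp 59 (.thr 45 33 (.thr 61 1 (.thr 13 29 (.thr 60 3 (.thr 15 30 (.thr 12 14 (.thr 28 44 (.dbl 25 19 49)))))))) (.rp 55 (.thr 45 33 (.thr 61 1 (.thr 13 29 (.thr 60 3 (.thr 15 30 (.thr 12 14 (.thr 28 44 (.dbl 25 19 49)))))))) (.rp 54 (.thr 45 33 (.thr 61 1 (.thr 13 29 (.thr 60 3 (.thr 15 30 (.thr 12 14 (.thr 28 44 (.dbl 25 19 49)))))))) (.rp 53 (.thr 45 33 (.thr 61 1 (.thr 13 29 (.thr 60 3 (.thr 15 30 (.thr 12 14 (.thr 28 44 (.dbl 25 19 49))))))))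 (.rp 52 (.thr 45 33 (.thr 61 1 (.thr 13 29 (.thr 60 3 (.thr 15 30 (.thr 12 14 (.thr 28 44 (.dbl 25 19 49)))))))) (.rp 51 (.thr 45 33 (.thr 61 1 (.thr 13 29 (.thr 60 3 (.thr 15 30 (.thr 12 14 (.thr 28 44 (.dbl 25 19 49)))))))) (.rp 48 (.thr 45 33 (.thr 61 1 (.thr 13 29 (.thr 49 25 (.thr 53 57 (.thr 52 7 (.thr 55 54 (.thr 20 23 (.dbl 4 36 38))))))))) (.rp 39 (.thr 45 33 (.thr 61 1 (.thr 13 29 (.thr 60 3 (.thr 15 30 (.thr 12 14 (.thr 28 44 (.dbl 25 19 49)))))))) (.rp 38 (.thr 45 33 (.thr 61 1 (.thr 13 29 (.thr 49 25 (.thr 57 53 (.thr 60 3 (.thr 51 54 (.thr 52 7 (.dbl 48 50 56))))))))) (.rp 36 (.thr 45 33 (.thr 61 1 (.thr 13 29 (.thr 60 3 (.thr 15 30 (.thr 12 14 (.thr 28 44 (.dbl 25 19 49)))))))) (.rp 27 (.thr 45 33 (.thr 61 1 (.thr 13 29 (.thr 60 3 (.thr 15 30 (.thr 12 14 (.thr 28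 44 (.dbl 25 19 49)))))))) (.rp 25 (.thr 33 45 (.thr 1 61 (.thr 49 17 (.thr 60 3 (.thr 52 7 (.thr 48 56 (.thr 51 50 (.thr 54 57 (.thr 55 53 (.dbl 38 4 6)))))))))) (.rp 24 (.thr 45 33 (.thr 61 1 (.thr 13 29 (.thr 60 3 (.thr 15 30 (.thr 12 14 (.thr 28 44 (.dbl 25 19 49)))))))) (.rp 23 (.thr 45 33 (.thr 61 1 (.thr 13 29 (.thr 3 60 (.thr 7 52 (.thr 15 11 (.thr 12 14 (.thr 9 6 (.dbl 25 49 57))))))))) (.rp 20 (.thr 45 33 (.thr 61 1 (.thr 13 29 (.thr 60 3 (.thr 15 30 (.thr 12 14 (.thr 28 44 (.dbl 25 19 49)))))))) (.rp 15 (.thr 45 33 (.thr 61 1 (.thr 13 29 (.thr 49 25 (.thr 53 57 (.thr 52 7 (.thr 55 54 (.thr 20 23 (.dbl 4 36 38))))))))) (.rp 7 (.thr 45 33 (.thr 61 1 (.thr 13 29 (.thr 60 3 (.thr 15 30 (.thr 12 14 (.thr 28 44 (.dbl 25 19 49)))))))) (.rp 4 (.thr 45 33 (.thr 61 1 (.thr 13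 29 (.thr 60 3 (.thr 15 30 (.thr 12 14 (.thr 28 44 (.dbl 25 19 49)))))))) (.rp 3 (.thr 45 33 (.thr 61 1 (.thr 13 29 (.thr 49 25 (.thr 53 57 (.thr 52 7 (.thr 55 54 (.thr 4 38 (.dbl 20 23 36))))))))) .nd))))))))))))))))))))))) (.rp 4 (.str 41 (.nv (.thr 3 60 (.thr 5 53 (.thr 7 52 (.thr 15 11 (.thr 0 10 (.dbl 1 2 61)))))) (.nv (.thr 5 53 (.thr 45 33 (.thr 60 3 (.thr 15 30 (.thr 0 10 (.dbl 20 23 40)))))) (.nv (.thr 45 33 (.thr 53 5 (.thr 61 1 (.thr 49 57 (.dbl 13 25 29))))) (.rp 53 (.thr 60 3 (.thr 61 1 (.thr 45 33 (.thr 13 29 (.thr 15 30 (.thr 12 14 (.thr 28 44 (.dbl 25 19 49)))))))) (.rp 5 (.thr 60 3 (.thr 61 1 (.thr 45 33 (.thr 13 29 (.thr 15 30 (.thr 12 14 (.thr 28 44 (.dbl 25 19 49)))))))) .nd)))))) .nd))))))))))))))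

theorem w565 : WinAt (137441050624, 9223372036921884672) :=
  chF (K := []) kn c565 137441050624 9223372036921884672 63
    [] (by decide +kernel) (by decide +kernel)

end Pool.Agent.TTT.B43
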