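import Pool.Agent.TTT.Q16
import Pool.Agent.TTT.Q24
import Pool.Agent.TTT.Q25
import Pool.Agent.TTT.Q26
import Pool.Agent.TTT.Q27
import Pool.Agent.TTT.Q28

/-!
Certified forced wins after the first three cells on the 4 x 4 x 4 board.
-/

set_option autoImplicit false
set_option maxRecDepth 1000000
set_option linter.all false

namespace Pool.Agent.TTT.B43

/-- A certificate. -/
noncomputable def r7 : Rt := (.rp 63 .ext (.rp 62 (.thr 53 5 .ext) (.rp 61 (.thr 53 5 .ext) (.rp 60 (.thr 5 53 .ext) (.rp 59 (.thr 53 5 .ext) (.rp 58 .ext (.rp 57 (.thr 53 5 .ext) (.rp 56 .ext (.rp 55 (.thr 53 5 .ext) (.rp 54 (.thr 53 5 .ext) (.rp 53 .ext (.rp 52 (.thr 53 5 .ext) (.rp 51 (.thr 5 53 .ext) (.rp 50 .ext (.rp 49 (.thr 53 5 .ext) (.rp 48 (.thr 53 5 .ext) (.rp 47 (.thr 53 5 .ext) (.rp 46 (.thr 53 5 .ext) (.rp 45 (.thr 53 5 .ext) (.rp 44 (.thr 5 53 .ext) (.rp 43 (.thr 53 5 .ext) (.rp 42 .ext (.rp 41 .ext (.rp 40 (.thr 5 53 .ext) (.rp 39 (.thr 53 5 .ext) (.rp 38 .ext (.rp 36 (.thr 5 53 .ext) (.rp 35 (.thr 5 53 .ext) (.rp 34 (.thr 5 53 .ext) (.rp 33 (.thr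 5 53 .ext) (.rp 32 (.thr 5 53 .ext) (.rp 31 (.thr 5 53 .ext) (.rp 30 (.thr 53 5 .ext) (.rp 29 (.thr 53 5 .ext) (.rp 28 (.thr 5 53 .ext) (.rp 27 (.thr 53 5 .ext) (.rp 25 .ext (.rp 24 (.thr 5 53 .ext) (.rp 23 (.thr 53 5 .ext) (.rp 22 .ext (.rp 20 (.thr 5 53 .ext) (.rp 19 (.thr 5 53 .ext) (.rp 18 (.thr 5 53 .ext) (.rp 17 (.thr 5 53 .ext) (.rp 16 (.thr 53 5 .ext) (.rp 15 (.thr 5 53 .ext) (.rp 14 .ext (.rp 13 (.thr 5 53 .ext) (.rp 12 (.thr 53 5 .ext) (.rp 11 .ext (.rp 10 .ext (.rp 9 (.thr 5 53 .ext) (.rp 8 (.thr 5 53 .ext) (.rp 7 (.thr 5 53 .ext) (.rp 6 (.thr 5 53 .ext) (.rp 5 .ext (.rp 4 (.thr 5 53 .ext) (.rp 3 (.thr 53 5 .ext) (.rp 2 (.thr 5 53 .ext) (.rp 1 (.thr 5 53 .ext) (.rp 0 .ext .nd)))))))))))))))))))))))))))))))))))))))))))))))))))))))))))))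

theorem f7 : FR (cellsN 64) (Won lines) (bs 137441050624) (bs 67108864) :=
  chunkR_sound bok full_eq (K := [(137441050624, 67108865), (137441050624, 67108896), (137441050624, 67109888), (137441050624, 67110912), (137441050624, 67125248), (137441050624, 71303168), (137441050624, 100663296), (137441050624, 274945015808), (137441050624, 2199090364416), (137441050624, 4398113619968), (137441050624, 1125899973951488), (137441050624, 9007199321849856), (137441050624, 72057594105036800), (137441050624, 288230376218820608), (137441050624, 9223372036921884672), (137441050656, 9007199321849858), (137441050656, 9007199321849860), (137441050656, 9007199321849872), (137441050656, 9007199321849920), (137441050656, 9007199321849984), (137441050656, 9007199321850112), (137441050656, 9007199321850368), (137441050656, 9007199321858048), (137441050656, 9007199321882624), (137441050656, 9007199321980928), (137441050656, 9007199322112000), (137441050656, 9007199322374144), (137441050656, 9007199322898432), (137441050656, 9007199338627072), (137441050656,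 9007199590285312), (137441050656, 9007201469333504), (137441050656, 9007203616817152), (137441050656, 9007207911784448), (137441050656, 9007216501719040), (137441050656, 9007233681588224), (137441050656, 9007268041326592), (137441050656, 9008298833477632), (137441050656, 9024791507894272), (137441050656, 11258999135535104), (137441050656, 1161928703928696832), (9007336695791616, 67108904), (9007336695791616, 67112992), (9007336695791616, 67174432), (9007336695791616, 75497504), (9007336695791616, 201326624), (9007336695791616, 603979808), (9007336695791616, 1140850720), (9007336695791616, 549822922784), (9007336695791616, 8796160131104), (9007336695791616, 35184439197728), (9007336695791616, 70368811286560), (9007336695791616, 140737555464224), (9007336695791616, 281475043819552), (9007336695791616, 562950020530208), (9007336695791616, 4503599694479392), (9007336695791616, 18014398576590880), (9007336695791616, 36028797086072864), (9007336695791616, 144115188142964768), (9007336695791616, 576460752370532384), (9007336695791616, 2305843009280802848),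 (9007336695791616, 4611686018494496800)]) (kc w495 (kc w501 (kc w360 (kc w507 (kc w511 (kc w519 (kc w523 (kc w536 (kc w541 (kc w544 (kc w552 (kc w555 (kc w558 (kc w560 (kc w565 (kc w496 (kc w497 (kc w499 (kc w502 (kc w503 (kc w504 (kc w505 (kc w509 (kc w512 (kc w514 (kc w515 (kc w516 (kc w517 (kc w521 (kc w525 (kc w528 (kc w529 (kc w530 (kc w531 (kc w532 (kc w533 (kc w538 (kc w546 (kc w553 (kc w562 (kc w498 (kc w508 (kc w513 (kc w520 (kc w524 (kc w526 (kc w527 (kc w537 (kc w545 (kc w547 (kc w548 (kc w549 (kc w550 (kc w551 (kc w554 (kc w556 (kc w557 (kc w559 (kc w561 (kc w563 (kc w564 kn))))))))))))))))))))))))))))))))))))))))))))))))))))))))))))) r7 137441050624 67108864 [] (by decide +kernel) (by decide +kernel)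

end Pool.Agent.TTT.B43
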