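import Pool.Agent.TTT.B43
import Pool.Agent.TTT.R0
import Pool.Agent.TTT.R1
import Pool.Agent.TTT.R2
import Pool.Agent.TTT.R3
import Pool.Agent.TTT.R4
import Pool.Agent.TTT.R5
import Pool.Agent.TTT.R6
import Pool.Agent.TTT.R7

/-!
The forced win on the 4 x 4 x 4 board.
-/

set_option autoImplicit false
set_option maxRecDepth 1000000

namespace Pool.Agent.TTT.B43

open Finset

/-- Generators of the symmetries. -/
def gens : List (List ℕ) := [[0, 1, 2, 3, 16, 17, 18, 19, 32, 33, 34, 35, 48, 49, 50, 51, 4, 5, 6, 7, 20, 21, 22, 23, 36, 37, 38, 39, 52, 53, 54, 55, 8, 9, 10, 11, 24, 25, 26, 27, 40, 41, 42, 43, 56, 57, 58, 59, 12, 13, 14, 15, 28, 29, 30, 31, 44, 45, 46, 47, 60, 61, 62, 63],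
  [0, 4, 8, 12, 1, 5, 9, 13, 2, 6, 10, 14, 3, 7, 11, 15, 16, 20, 24, 28, 17, 21, 25, 29, 18, 22, 26, 30, 19, 23, 27, 31, 32, 36, 40, 44, 33, 37, 41, 45, 34, 38, 42, 46, 35, 39, 43, 47, 48, 52, 56, 60, 49, 53, 57, 61, 50, 54, 58, 62, 51, 55, 59, 63],
  [3, 2, 1, 0, 7, 6, 5, 4, 11, 10, 9, 8, 15, 14, 13, 12, 19, 18, 17, 16, 23, 22, 21, 20, 27, 26, 25, 24, 31, 30, 29, 28, 35, 34, 33, 32, 39, 38, 37, 36, 43, 42, 41, 40, 47, 46, 45, 44, 51, 50, 49, 48, 55, 54, 53, 52, 59, 58, 57, 56, 63, 62, 61, 60],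
  [21, 20, 23, 22, 17, 16, 19, 18, 29, 28, 31, 30, 25, 24, 27, 26, 5, 4, 7, 6, 1, 0, 3, 2, 13, 12, 15, 14, 9, 8, 11, 10, 53, 52, 55, 54, 49, 48, 51, 50, 61, 60, 63, 62, 57, 56, 59, 58, 37, 36, 39, 38, 33, 32, 35, 34, 45, 44, 47, 46, 41, 40, 43, 42],
  [0, 2, 1, 3, 8, 10, 9, 11, 4, 6, 5, 7, 12, 14, 13, 15, 32, 34, 33, 35, 40, 42, 41, 43, 36, 38, 37, 39, 44, 46, 45, 47, 16, 18, 17, 19, 24, 26, 25, 27, 20, 22, 21, 23, 28, 30, 29, 31, 48, 50, 49, 51, 56, 58, 57, 59, 52, 54, 53, 55, 60, 62, 61, 63]]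

/-- The known positions. -/
def known : List (ℕ × ℕ × ℕ) := [(21, 22, 0), (21, 0, 1), (21, 41, 2), (21, 26, 6), (21, 42, 7), (21, 37, 10), (21, 42, 22), (21, 37, 26)]

/-- The answers. -/
def entries : List (ℕ × ℕ × ℕ × List ℕ) := [(0, 22, 0, []),
  (1, 0, 1, []),
  (2, 41, 2, []),
  (3, 22, 0, [2]),
  (4, 0, 1, [1]),
  (5, 0, 1, [1, 0, 3]),
  (6, 26, 3, []),
  (7, 42, 4, []),
  (8, 38, 2, [1]),
  (9, 26, 3, [1]),
  (10, 37, 5, []),
  (11, 42, 4, [4]),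
  (12, 25, 0, [2, 1]),
  (13, 42, 4, [1]),
  (14, 42, 4, [1, 4]),
  (15, 37, 0, [1, 0, 2, 1, 2, 4]),
  (16, 0, 1, [1, 0]),
  (17, 0, 1, [1, 3]),
  (18, 38, 3, [0]),
  (19, 42, 4, [0]),
  (20, 0, 1, [3]),
  (22, 42, 6, []),
  (23, 63, 1, [4, 3]),
  (24, 41, 3, [0, 1]),
  (25, 42, 6, [1]),
  (26, 37, 7, []),
  (27, 41, 3, [0, 1, 3, 4, 3]),
  (28, 42, 4, [0, 1]),
  (29, 63, 1, [1, 4, 3]),
  (30, 38, 3, [0, 3, 4, 3]),
  (31, 63, 1, [1, 0, 3, 4, 3]),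
  (32, 26, 2, [1, 0]),
  (33, 38, 3, [1, 0]),
  (34, 25, 5, [0]),
  (35, 42, 4, [0, 4]),
  (36, 41, 3, [0, 1, 0]),
  (37, 42, 6, [1, 0]),
  (38, 25, 7, [0]),
  (39, 41, 3, [0, 1, 0, 3, 4, 3]),
  (40, 22, 5, [0, 1]),
  (41, 22, 7, [0, 1]),
  (42, 22, 7, [0, 1, 2]),
  (43, 22, 5, [0, 1, 3, 4, 3]),
  (44, 42, 4, [0, 1, 4]),
  (45, 38, 3, [1, 0, 3, 4, 3]),
  (46, 25, 5, [0, 3, 4, 3]),
  (47, 26, 2, [1, 0, 3, 4, 3]),
  (48, 37, 0, [2, 1, 0]),
  (49, 42, 4, [1, 0]),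
  (50, 42, 4, [1, 0, 4]),
  (51, 25, 0, [2, 1, 3, 4, 3]),
  (52, 42, 4, [0, 1, 0]),
  (53, 63, 1, [1, 0, 4, 3]),
  (54, 26, 3, [3, 4, 3]),
  (55, 63, 1, [1, 3, 4, 3]),
  (56, 42, 4, [0, 1, 0, 4]),
  (57, 26, 3, [1, 3, 4, 3]),
  (58, 37, 5, [3, 4, 3]),
  (59, 38, 2, [1, 3, 4, 3]),
  (60, 22, 0, [2, 3, 4, 3]),
  (61, 63, 1, [3, 4, 3]),
  (62, 41, 2, [3, 4, 3]),
  (63, 22, 0, [3, 4, 3])]

theorem lines_lt : ∀ l ∈ lines, ∀ i ∈ bs l, i < 64 := by
  have h : (lines.all fun l => Nat.beq (Nat.land l full) l) = true := by decide +kernel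
  intro l hl i hi
  have h1 := Nat.eq_of_beq_eq_true (List.all_eq_true.1 h l hl)
  rw [← h1, bs_land, mem_inter] at hi
  have h2 := hi.2
  rw [mem_bs, full_eq, Nat.testBit_two_pow_sub_one, decide_eq_true_eq] at h2
  exact h2

theorem lines_two : ∀ l ∈ lines, 2 ≤ (bs l).card := by
  have h : (lines.all fun l => Nat.ble 2 (cntD 64 l 0)) = true := by decide +kernel
  intro l hl
  have h1 := cntD_card (Nat.le_of_ble_eq_true (List.all_eq_true.1 h l hl))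
  rwa [bs_zero, sdiff_empty] at h1

theorem gens_ok : ∀ σ ∈ gens, ∃ τ, symOK 64 lines σ τ = true := by
  have h : (gens.all fun σ => symOK 64 lines σ σ) = true := by decide +kernel
  intro σ hσ
  exact ⟨σ, List.all_eq_true.1 h σ hσ⟩

theorem pos_two (m a b : ℕ) (h : Nat.beq m (Nat.lor (Nat.shiftLeft 1 b) (Nat.shiftLeft 1 a)) = true) :
    bs m = {a, b} := by
  rw [Nat.eq_of_beq_eq_true h, bs_ins, bs_one]

theorem pos_one (m a : ℕ) (h : Nat.beq m (Nat.shiftLeft 1 a) = true) : bs m = {a} := by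
  rw [Nat.eq_of_beq_eq_true h, bs_one]

theorem known_ok : ∀ p ∈ known, p.1 < 64 ∧ p.2.1 < 64 ∧ p.2.2 < 64 ∧
    FR (cellsN 64) (Won lines) {p.1, p.2.1} {p.2.2} := by
  intro p hp
  simp only [known, List.mem_cons, List.not_mem_nil, or_false] at hp
  rcases hp with rfl | rfl | rfl | rfl | rfl | rfl | rfl | rfl
  · refine ⟨by norm_num, by norm_num, by norm_num, ?_⟩
    have h := f0
    rw [pos_two 6291456 21 22 (by decide +kernel), pos_one 1 0 (by decide +kernel)] at h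
    exact h
  · refine ⟨by norm_num, by norm_num, by norm_num, ?_⟩
    have h := f1
    rw [pos_two 2097153 21 0 (by decide +kernel), pos_one 2 1 (by decide +kernel)] at h
    exact h
  · refine ⟨by norm_num, by norm_num, by norm_num, ?_⟩
    have h := f2
    rw [pos_two 2199025352704 21 41 (by decide +kernel), pos_one 4 2 (by decide +kernel)] at h
    exact h
  · refine ⟨by norm_num, by norm_num, by norm_num, ?_⟩
    have h := f3
    rw [pos_two 69206016 21 26 (by decide +kernel), pos_one 64 6 (by decide +kernel)] at h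
    exact h
  · refine ⟨by norm_num, by norm_num, by norm_num, ?_⟩
    have h := f4
    rw [pos_two 4398048608256 21 42 (by decide +kernel), pos_one 128 7 (by decide +kernel)] at h
    exact h
  · refine ⟨by norm_num, by norm_num, by norm_num, ?_⟩
    have h := f5
    rw [pos_two 137441050624 21 37 (by decide +kernel), pos_one 1024 10 (by decide +kernel)] at h
    exact h
  · refine ⟨by norm_num, by norm_num, by norm_num, ?_⟩
    have h := f6
    rw [pos_two 4398048608256 21 42 (by decide +kernel), pos_one 4194304 22 (by decide +kernel)] at h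
    exact h
  · refine ⟨by norm_num, by norm_num, by norm_num, ?_⟩
    have h := f7
    rw [pos_two 137441050624 21 37 (by decide +kernel), pos_one 67108864 26 (by decide +kernel)] at h
    exact h

theorem win : FW (cellsN 64) (Won lines) ∅ ∅ :=
  fw_root (by norm_num) lines_lt lines_two gens_ok known known_ok 21 (by norm_num) entries
    (by decide +kernel)

end Pool.Agent.TTT.B43
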