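import Pool.Agent.TTT.Board

/-!
The residual form of the Maker-Breaker game and sets of safe positions; a second passage from a
small board to a large one.
-/

set_option autoImplicit false

namespace Pool.Agent.TTT

open Finset

section general

variable {α : Type*} [DecidableEq α]

/-- The residual sets in a position. -/
def PosG (L : Set (Finset α)) (A B : Finset α) : Set (Finset α) :=
  {e | ∃ g ∈ L, Disjoint g B ∧ e = g \ A}

/-- A set of positions, which Breaker (moving second) keeps, and in which Maker owns no member of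
the family. -/
def CanBlk (L : Set (Finset α)) : Prop :=
  ∃ T : Set (Finset α × Finset α), ((∅ : Finset α), (∅ : Finset α)) ∈ T ∧
    ∀ p ∈ T, ¬ (∃ e ∈ L, e ⊆ p.1) ∧
      (p.1.card = p.2.card → ∀ c, c ∉ p.1 → c ∉ p.2 → (insert c p.1, p.2) ∈ T) ∧
      (p.1.card = p.2.card + 1 → (∃ c, c ∉ p.1 ∧ c ∉ p.2) →
        ∃ c, c ∉ p.1 ∧ c ∉ p.2 ∧ (p.1, insert c p.2) ∈ T)

theorem canBlk_of_bw {L : Set (Finset α)} (h : BW L) : CanBlk L := by
  refine ⟨{p | Disjoint p.1 p.2 ∧ ((p.1.card = p.2.card ∧ BW (PosG L p.1 p.2)) ∨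
      (p.1.card = p.2.card + 1 ∧ ∅ ∉ PosG L p.1 p.2 ∧ ∃ d, BW (kill d (PosG L p.1 p.2))))},
      ?_, ?_⟩
  · refine ⟨disjoint_empty_left _, Or.inl ⟨rfl, h.mono ?_⟩⟩
    rintro e ⟨g, hg, -, rfl⟩
    exact ⟨g, hg, by simp⟩
  · rintro ⟨A, B⟩ ⟨hdis, hp⟩
    simp only at hdis hp
    have hne : ∅ ∉ PosG L A B := by
      rcases hp with ⟨-, hp⟩ | ⟨-, hp, -⟩
      · exact hp.empty_not_mem
      · exact hp
    refine ⟨?_, ?_, ?_⟩
    · rintro ⟨e, he, hs⟩
      exact hne ⟨e, he, hdis.mono_left hs, (sdiff_eq_empty_iff_subset.2 hs).symm⟩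
    · intro hc c hcA hcB
      simp only at hc hcA hcB ⊢
      rcases hp with ⟨-, hp⟩ | ⟨hp, -⟩
      · obtain ⟨d, hd⟩ := hp.reply c
        have hsub : PosG L (insert c A) B ⊆ play c (PosG L A B) := by
          rintro e ⟨g, hg, hgB, rfl⟩
          refine ⟨g \ A, ⟨g, hg, hgB, rfl⟩, ?_⟩
          ext x
          simp only [mem_sdiff, mem_insert, mem_erase]
          tauto
        refine ⟨?_, Or.inr ⟨?_, ?_, d, ?_⟩⟩
        · simp only
          rw [disjoint_insert_left]
          exact ⟨hcB, hdis⟩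
        · simp only
          rw [card_insert_of_notMem hcA, hc]
        · intro h0
          exact hd.empty_not_mem ⟨hsub h0, by simp⟩
        · refine hd.mono (Dom.of_subset ?_)
          rintro e ⟨he, hde⟩
          exact ⟨hsub he, hde⟩
      · omega
    · intro hc hfree
      simp only at hc hfree ⊢
      rcases hp with ⟨hp, -⟩ | ⟨-, -, d, hd⟩
      · omega
      · obtain ⟨c0, hc0A, hc0B⟩ := hfree
        obtain ⟨c, hcA, hcB, hcd⟩ : ∃ c, c ∉ A ∧ c ∉ B ∧ (c = d ∨ d ∈ A ∨ d ∈ B) := by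
          by_cases h1 : d ∈ A
          · exact ⟨c0, hc0A, hc0B, Or.inr (Or.inl h1)⟩
          · by_cases h2 : d ∈ B
            · exact ⟨c0, hc0A, hc0B, Or.inr (Or.inr h2)⟩
            · exact ⟨d, h1, h2, Or.inl rfl⟩
        refine ⟨c, hcA, hcB, ?_, Or.inl ⟨?_, ?_⟩⟩
        · simp only
          rw [disjoint_insert_right]
          exact ⟨hcA, hdis⟩
        · simp only
          rw [card_insert_of_notMem hcB, hc]
        · simp only
          refine hd.mono (Dom.of_subset ?_)
          rintro e ⟨g, hg, hgB, rfl⟩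
          rw [disjoint_insert_right] at hgB
          refine ⟨⟨g, hg, hgB.2, rfl⟩, ?_⟩
          intro hde
          rw [mem_sdiff] at hde
          rcases hcd with rfl | h1 | h1
          · exact hgB.1 hde.1
          · exact hde.2 h1
          · exact (Finset.disjoint_left.1 hgB.2 hde.1) h1

theorem posG_full {L : Set (Finset α)} {A B : Finset α} (hw : ¬ ∃ e ∈ L, e ⊆ A)
    (hf : ¬ ∃ c, c ∉ A ∧ c ∉ B) : PosG L A B = ∅ := by
  apply Set.eq_empty_of_forall_notMem
  rintro e ⟨g, hg, hgB, rfl⟩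
  refine hw ⟨g, hg, fun x hx => ?_⟩
  by_contra hxA
  exact hf ⟨x, hxA, fun hxB => Finset.disjoint_left.1 hgB hx hxB⟩

theorem bw_of_dom_empty {H H' : Set (Finset α)} (h : Dom H H') (h' : H' = ∅) : BW H := by
  have : H = ∅ := by
    apply Set.eq_empty_of_forall_notMem
    intro e he
    obtain ⟨e', he', -⟩ := h e he
    rw [h'] at he'
    exact he'
  rw [this]
  exact BW.empty

theorem dom_move {L H : Set (Finset α)} {A B : Finset α} (c c' d : α)
    (h : Dom H (PosG L A B)) (hc : c = c' ∨ c ∈ A ∨ c ∈ B) (hd : d ∉ insert c' A) :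
    Dom (kill d (play c H)) (PosG L (insert c' A) (insert d B)) := by
  rintro e ⟨⟨f, hf, rfl⟩, hde⟩
  obtain ⟨e', ⟨g, hg, hgB, rfl⟩, hs⟩ := h f hf
  have key : g \ insert c' A ⊆ f.erase c := by
    intro x hx
    rw [mem_sdiff, mem_insert] at hx
    push Not at hx
    rw [mem_erase]
    refine ⟨?_, hs (mem_sdiff.2 ⟨hx.1, hx.2.2⟩)⟩
    rintro rfl
    rcases hc with hc | hc | hc
    · exact hx.2.1 hc
    · exact hx.2.2 hc
    · exact Finset.disjoint_left.1 hgB hx.1 hc
  refine ⟨g \ insert c' A, ⟨g, hg, ?_, rfl⟩, key⟩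
  rw [disjoint_insert_right]
  refine ⟨fun hdg => hde (key (mem_sdiff.2 ⟨hdg, hd⟩)), hgB⟩

theorem dom_move' {L H : Set (Finset α)} {A B : Finset α} (c c' d : α)
    (h : Dom H (PosG L A B)) (hc : c = c' ∨ c ∈ A ∨ c ∈ B) :
    Dom (kill d (play c H)) (PosG L (insert c' A) B) := by
  rintro e ⟨⟨f, hf, rfl⟩, -⟩
  obtain ⟨e', ⟨g, hg, hgB, rfl⟩, hs⟩ := h f hf
  refine ⟨g \ insert c' A, ⟨g, hg, hgB, rfl⟩, ?_⟩
  intro x hx
  rw [mem_sdiff, mem_insert] at hx
  push Not at hx
  rw [mem_erase]
  refine ⟨?_, hs (mem_sdiff.2 ⟨hx.1, hx.2.2⟩)⟩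
  rintro rfl
  rcases hc with hc | hc | hc
  · exact hx.2.1 hc
  · exact hx.2.2 hc
  · exact Finset.disjoint_left.1 hgB hx.1 hc

theorem bw_of_canBlk {L : Set (Finset α)} (h : CanBlk L) : BW L := by
  obtain ⟨T, h0, hT⟩ := h
  have key : ∀ H : Set (Finset α), MW H → ∀ A B, (A, B) ∈ T → A.card = B.card →
      Dom H (PosG L A B) → False := by
    intro H hH
    induction hH with
    | win H h0 =>
      intro A B hAB _ hd
      obtain ⟨e', ⟨g, hg, -, rfl⟩, hs⟩ := hd ∅ h0
      exact (hT _ hAB).1 ⟨g, hg, sdiff_eq_empty_iff_subset.1 (subset_empty.1 hs)⟩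
    | move H c hm ih =>
      intro A B hAB hcard hd
      obtain ⟨hw, hmv, -⟩ := hT _ hAB
      simp only at hw hmv
      by_cases hfree : ∃ c', c' ∉ A ∧ c' ∉ B
      · obtain ⟨c', hcA, hcB, hcc⟩ : ∃ c', c' ∉ A ∧ c' ∉ B ∧ (c = c' ∨ c ∈ A ∨ c ∈ B) := by
          by_cases h1 : c ∈ A
          · obtain ⟨c', h2, h3⟩ := hfree
            exact ⟨c', h2, h3, Or.inr (Or.inl h1)⟩
          · by_cases h2 : c ∈ B
            · obtain ⟨c', h3, h4⟩ := hfree
              exact ⟨c', h3, h4, Or.inr (Or.inr h2)⟩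
            · exact ⟨c, h1, h2, Or.inl rfl⟩
        have h1 := hmv hcard c' hcA hcB
        obtain ⟨hw2, -, hmv2⟩ := hT _ h1
        simp only at hw2 hmv2
        have hcard2 : (insert c' A).card = B.card + 1 := by
          rw [card_insert_of_notMem hcA, hcard]
        by_cases hfree2 : ∃ d, d ∉ insert c' A ∧ d ∉ B
        · obtain ⟨d, hdA, hdB, h2⟩ := hmv2 hcard2 hfree2
          refine ih d _ _ h2 ?_ (dom_move c c' d hd hcc hdA)
          rw [card_insert_of_notMem hdB, hcard2]
        · exact bw_of_dom_empty (dom_move' c c' c hd hcc) (posG_full hw2 hfree2) (hm c)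
      · exact bw_of_dom_empty hd (posG_full hw hfree) (.move _ c hm)
  intro hm
  refine key L hm ∅ ∅ h0 rfl ?_
  intro e he
  exact ⟨e, ⟨e, he, disjoint_empty_right _, by simp⟩, Subset.refl _⟩

end general

/-- The lines of `[n]^k` with constant and increasing coordinates only. -/
def IncLines (k n : ℕ) : Set (Finset (Fin k → Fin n)) :=
  {e | ∃ f : Fin k → Fin n → Fin n, (∀ j, (∃ c : Fin n, f j = fun _ => c) ∨ f j = id) ∧
    (∃ j, f j = id) ∧ e = lineOf f}

theorem incLines_subset (k n : ℕ) : IncLines k n ⊆ Lines k n := by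
  rintro e ⟨f, h1, ⟨j, hj⟩, rfl⟩
  refine ⟨f, ⟨fun j => ?_, ⟨j, Or.inl hj⟩⟩, rfl⟩
  rcases h1 j with h | h
  · exact Or.inl h
  · exact Or.inr (Or.inl h)

/-- If Breaker blocks the increasing lines of `[n]^k` then he blocks all the lines of `[N]^k` for
every `N ≥ 2 n`. -/
theorem bw_double (k : ℕ) {n N : ℕ} (hn : 1 ≤ n) (hnN : 2 * n ≤ N) (h : BW (IncLines k n)) :
    BW (Lines k N) := by
  classical
  have : NeZero n := ⟨by omega⟩
  set q : Fin n → Fin N := fun i => ⟨i, by have := i.2; omega⟩ with hqdef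
  have hqval : ∀ i, (q i : ℕ) = i := fun i => rfl
  set hv : Fin N → Fin n := fun v => if hx : (v : ℕ) < n then ⟨v, hx⟩ else
    if hy : N - 1 - (v : ℕ) < n then ⟨N - 1 - v, hy⟩ else 0 with hhv
  have hvq : ∀ i, hv (q i) = i := by
    intro i
    have h1 : ((q i : Fin N) : ℕ) < n := i.2
    simp only [hhv]
    rw [dif_pos h1]
  have hvr : ∀ i, hv (Fin.rev (q i)) = i := by
    intro i
    have hi := i.2
    have h1 : ¬ ((Fin.rev (q i) : Fin N) : ℕ) < n := by
      rw [Fin.val_rev, hqval]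
      omega
    have h2 : N - 1 - ((Fin.rev (q i) : Fin N) : ℕ) < n := by
      rw [Fin.val_rev, hqval]
      omega
    simp only [hhv]
    rw [dif_neg h1, dif_pos h2]
    apply Fin.ext
    simp only [Fin.val_rev, hqval]
    omega
  set cl : Fin N → Option (Option (Fin N)) :=
    fun v => if (v : ℕ) < n then none else
      if N - 1 - (v : ℕ) < n then some none else some (some v) with hcl
  have hinj : ∀ u v, cl u = cl v → hv u = hv v → u = v := by
    intro u v h1 h2
    have hu := u.2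
    have hv' := v.2
    simp only [hcl] at h1
    simp only [hhv] at h2
    apply Fin.ext
    by_cases a1 : (u : ℕ) < n <;> by_cases a2 : (v : ℕ) < n
    · rw [dif_pos a1, dif_pos a2] at h2
      simpa using h2
    · rw [if_pos a1, if_neg a2] at h1
      split_ifs at h1
    · rw [if_neg a1, if_pos a2] at h1
      split_ifs at h1
    · rw [if_neg a1, if_neg a2] at h1
      rw [dif_neg a1, dif_neg a2] at h2
      by_cases b1 : N - 1 - (u : ℕ) < n <;> by_cases b2 : N - 1 - (v : ℕ) < n
      · rw [dif_pos b1, dif_pos b2] at h2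
        have := congrArg Fin.val h2
        simp only at this
        omega
      · rw [if_pos b1, if_neg b2] at h1
        simp at h1
      · rw [if_neg b1, if_pos b2] at h1
        simp at h1
      · rw [if_neg b1, if_neg b2] at h1
        rw [Option.some.injEq, Option.some.injEq] at h1
        rw [h1]
  set pat : (Fin k → Fin N) → (Fin k → Option (Option (Fin N))) := fun x j => cl (x j) with hpat
  set tr : (Fin k → Fin N → Fin N) → Finset (Fin k → Fin N) :=
    fun f => univ.image (fun t : Fin n => fun j => f j (q t)) with htr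
  set F : (Fin k → Option (Option (Fin N))) → Set (Finset (Fin k → Fin N)) :=
    fun a => {e | (∃ f, IsMove k N f ∧ e = tr f) ∧ ∀ x ∈ e, pat x = a} with hF
  have hBF : ∀ a, BW (F a) := by
    intro a
    refine h.comap (fun x j => hv (x j)) {x | pat x = a} ?_ ?_ ?_
    · intro x hx y hy hxy
      funext j
      have hx' : pat x j = a j := congrFun hx j
      have hy' : pat y j = a j := congrFun hy j
      exact hinj _ _ (hx'.trans hy'.symm) (congrFun hxy j)
    · rintro e ⟨-, he⟩ x hx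
      exact he x hx
    · rintro e ⟨⟨f, ⟨hf1, hf2⟩, rfl⟩, -⟩
      refine ⟨lineOf (fun j t => hv (f j (q t))), ⟨_, ?_, ?_, rfl⟩, ?_⟩
      · intro j
        rcases hf1 j with ⟨c, hc⟩ | hc | hc
        · exact Or.inl ⟨hv c, by rw [hc]⟩
        · exact Or.inr (by rw [hc]; funext t; simp [hvq])
        · exact Or.inr (by rw [hc]; funext t; rw [hvr]; rfl)
      · obtain ⟨j, hj⟩ := hf2
        refine ⟨j, ?_⟩
        rcases hj with hc | hc
        · rw [hc]; funext t; simp [hvq]
        · rw [hc]; funext t; rw [hvr]; rfl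
      · intro x hx
        simp only [lineOf, mem_image, mem_univ, true_and] at hx
        obtain ⟨t, rfl⟩ := hx
        simp only [htr, mem_image, mem_univ, true_and]
        exact ⟨_, ⟨t, rfl⟩, rfl⟩
  have hsum : BW (⋃ a ∈ (univ : Finset (Fin k → Option (Option (Fin N)))), F a) := by
    refine BW.bigsum univ F (fun a _ => hBF a) ?_
    intro a _ b _ hab e he e' he'
    rw [Finset.disjoint_left]
    intro x hx hx'
    exact hab ((he.2 x hx).symm.trans (he'.2 x hx'))
  have clq : ∀ i, cl (q i) = none := by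
    intro i
    simp only [hcl]
    exact if_pos i.2
  have clr : ∀ i, cl (Fin.rev (q i)) = some none := by
    intro i
    have hi := i.2
    simp only [hcl]
    rw [if_neg (by rw [Fin.val_rev, hqval]; omega), if_pos (by rw [Fin.val_rev, hqval]; omega)]
  refine hsum.mono ?_
  rintro e ⟨f, hf, rfl⟩
  refine ⟨tr f, ?_, ?_⟩
  · simp only [Set.mem_iUnion, mem_univ, exists_prop, true_and]
    refine ⟨pat (fun j => f j (q 0)), ⟨f, hf, rfl⟩, ?_⟩
    intro x hx
    simp only [htr, mem_image, mem_univ, true_and] at hx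
    obtain ⟨t, rfl⟩ := hx
    funext j
    simp only [hpat]
    rcases hf.1 j with ⟨c, hc⟩ | hc | hc
    · rw [hc]
    · rw [hc]
      simp only [id]
      rw [clq, clq]
    · rw [hc, clr, clr]
  · intro x hx
    simp only [htr, mem_image, mem_univ, true_and] at hx
    obtain ⟨t, rfl⟩ := hx
    simp only [lineOf, mem_image, mem_univ, true_and]
    exact ⟨q t, rfl⟩

end Pool.Agent.TTT
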