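import Pool.Agent.TTT.Game

/-!
The lines of the board `[n]^k`, the passage from a small board to a large one, and the passage from
a win of Breaker to the strategy of the second player in the problem.
-/

set_option autoImplicit false

namespace Pool.Agent.TTT

open Finset

/-- The types of the coordinates of a line. -/
def IsMove (k n : ℕ) (f : Fin k → Fin n → Fin n) : Prop :=
  (∀ j, (∃ c : Fin n, f j = fun _ => c) ∨ f j = id ∨ f j = Fin.rev) ∧
    (∃ j, f j = id ∨ f j = Fin.rev)

/-- The cells of a line. -/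
def lineOf {k n : ℕ} (f : Fin k → Fin n → Fin n) : Finset (Fin k → Fin n) :=
  univ.image (fun t : Fin n => fun j => f j t)

/-- The lines of `[n]^k`. -/
def Lines (k n : ℕ) : Set (Finset (Fin k → Fin n)) :=
  {e | ∃ f, IsMove k n f ∧ e = lineOf f}

theorem bw_embed (k : ℕ) {n N : ℕ} (hn : 1 ≤ n) (q : Fin n → Fin N) (hq : Function.Injective q)
    (hrev : ∀ i, q (Fin.rev i) = Fin.rev (q i)) (h : BW (Lines k n)) : BW (Lines k N) := by
  classical
  have : NeZero n := ⟨by omega⟩
  set hv : Fin N → Fin n := fun v => if hx : ∃ i, q i = v then Classical.choose hx else 0 with hhv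
  have hvq : ∀ i, hv (q i) = i := by
    intro i
    have hx : ∃ i', q i' = q i := ⟨i, rfl⟩
    have h1 : hv (q i) = Classical.choose hx := dif_pos hx
    rw [h1]
    exact hq (Classical.choose_spec hx)
  have hqv : ∀ v, (∃ i, q i = v) → q (hv v) = v := by
    rintro v ⟨i, rfl⟩
    rw [hvq]
  set pat : (Fin k → Fin N) → (Fin k → Option (Fin N)) :=
    fun x j => if ∃ i, q i = x j then none else some (x j) with hpat
  set tr : (Fin k → Fin N → Fin N) → Finset (Fin k → Fin N) :=
    fun f => univ.image (fun t : Fin n => fun j => f j (q t)) with htr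
  set F : (Fin k → Option (Fin N)) → Set (Finset (Fin k → Fin N)) :=
    fun a => {e | (∃ f, IsMove k N f ∧ e = tr f) ∧ ∀ x ∈ e, pat x = a} with hF
  have hBF : ∀ a, BW (F a) := by
    intro a
    refine h.comap (fun x j => hv (x j)) {x | pat x = a} ?_ ?_ ?_
    · intro x hx y hy hxy
      funext j
      have hx' : pat x j = a j := congrFun hx j
      have hy' : pat y j = a j := congrFun hy j
      have hj : hv (x j) = hv (y j) := congrFun hxy j
      by_cases h1 : ∃ i, q i = x j
      · have h2 : a j = none := by rw [← hx']; exact if_pos h1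
        have h3 : ∃ i, q i = y j := by
          by_contra h3
          have : pat y j = some (y j) := if_neg h3
          rw [this, h2] at hy'
          exact absurd hy' (by simp)
        rw [← hqv _ h1, ← hqv _ h3, hj]
      · have h2 : a j = some (x j) := by rw [← hx']; exact if_neg h1
        by_cases h3 : ∃ i, q i = y j
        · have : pat y j = none := if_pos h3
          rw [this, h2] at hy'
          exact absurd hy' (by simp)
        · have : pat y j = some (y j) := if_neg h3
          rw [this, h2] at hy'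
          exact (Option.some.inj hy').symm
    · rintro e ⟨-, he⟩ x hx
      exact he x hx
    · rintro e ⟨⟨f, ⟨hf1, hf2⟩, rfl⟩, -⟩
      refine ⟨lineOf (fun j t => hv (f j (q t))), ⟨_, ⟨?_, ?_⟩, rfl⟩, ?_⟩
      · intro j
        rcases hf1 j with ⟨c, hc⟩ | hc | hc
        · exact Or.inl ⟨hv c, by rw [hc]⟩
        · exact Or.inr (Or.inl (by rw [hc]; funext t; simp [hvq]))
        · refine Or.inr (Or.inr (by rw [hc]; funext t; rw [← hrev, hvq]))
      · obtain ⟨j, hj⟩ := hf2
        refine ⟨j, ?_⟩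
        rcases hj with hc | hc
        · exact Or.inl (by rw [hc]; funext t; simp [hvq])
        · exact Or.inr (by rw [hc]; funext t; rw [← hrev, hvq])
      · intro x hx
        simp only [lineOf, mem_image, mem_univ, true_and] at hx
        obtain ⟨t, rfl⟩ := hx
        simp only [htr, mem_image, mem_univ, true_and]
        exact ⟨_, ⟨t, rfl⟩, rfl⟩
  have hsum : BW (⋃ a ∈ (univ : Finset (Fin k → Option (Fin N))), F a) := by
    refine BW.bigsum univ F (fun a _ => hBF a) ?_
    intro a _ b _ hab e he e' he'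
    rw [Finset.disjoint_left]
    intro x hx hx'
    exact hab ((he.2 x hx).symm.trans (he'.2 x hx'))
  refine hsum.mono ?_
  rintro e ⟨f, hf, rfl⟩
  refine ⟨tr f, ?_, ?_⟩
  · simp only [Set.mem_iUnion, mem_univ, exists_prop, true_and]
    refine ⟨pat (fun j => f j (q 0)), ⟨f, hf, rfl⟩, ?_⟩
    intro x hx
    simp only [htr, mem_image, mem_univ, true_and] at hx
    obtain ⟨t, rfl⟩ := hx
    funext j
    simp only [hpat]
    rcases hf.1 j with ⟨c, hc⟩ | hc | hc
    · rw [hc]
    · rw [hc, if_pos ⟨t, rfl⟩, if_pos ⟨0, rfl⟩]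
    · rw [hc, if_pos ⟨Fin.rev t, hrev t⟩, if_pos ⟨Fin.rev 0, hrev 0⟩]
  · intro x hx
    simp only [htr, mem_image, mem_univ, true_and] at hx
    obtain ⟨t, rfl⟩ := hx
    simp only [lineOf, mem_image, mem_univ, true_and]
    exact ⟨q t, rfl⟩

/-- If Breaker wins on `[n]^k` then he wins on `[N]^k` for `n ≤ N`, provided `n` is even or `N` is
odd. -/
theorem bw_mono (k : ℕ) {n N : ℕ} (hn : 1 ≤ n) (hnN : n ≤ N) (hp : Even n ∨ Odd N)
    (h : BW (Lines k n)) : BW (Lines k N) := by
  have hb : ∀ i : Fin n, (if 2 * (i : ℕ) + 1 < n then (i : ℕ)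
      else if 2 * (i : ℕ) + 1 = n then (N - 1) / 2 else N - n + i) < N := by
    intro i
    have := i.2
    split_ifs <;> omega
  refine bw_embed k hn (fun i => ⟨_, hb i⟩) ?_ ?_ h
  · intro i j hij
    have hij' := congrArg Fin.val hij
    simp only at hij'
    have hi := i.2
    have hj := j.2
    have hpar : n % 2 = 0 ∨ N % 2 = 1 := by
      rcases hp with h | h
      · exact Or.inl (Nat.even_iff.1 h)
      · exact Or.inr (Nat.odd_iff.1 h)
    apply Fin.ext
    split_ifs at hij' <;> omega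
  · intro i
    have hi := i.2
    have hpar : n % 2 = 0 ∨ N % 2 = 1 := by
      rcases hp with h | h
      · exact Or.inl (Nat.even_iff.1 h)
      · exact Or.inr (Nat.odd_iff.1 h)
    apply Fin.ext
    simp only [Fin.val_rev]
    split_ifs <;> omega

/-- The family of the residual lines in a position. -/
def Pos {k n : ℕ} (A B : Finset (Fin k → Fin n)) : Set (Finset (Fin k → Fin n)) :=
  {e | ∃ g ∈ Lines k n, Disjoint g B ∧ e = g \ A}

theorem won_iff {k n : ℕ} (W : Finset (Fin k → Fin n) → Prop)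
    (hW : ∀ A : Finset (Fin k → Fin n), W A ↔
          ∃ f : Fin k → Fin n → Fin n,
            (∀ j, (∃ c : Fin n, f j = fun _ => c) ∨ f j = id ∨ f j = Fin.rev) ∧
            (∃ j, f j = id ∨ f j = Fin.rev) ∧
            ∀ t : Fin n, (fun j => f j t) ∈ A) (A : Finset (Fin k → Fin n)) :
    W A ↔ ∃ e ∈ Lines k n, e ⊆ A := by
  rw [hW]
  constructor
  · rintro ⟨f, h1, h2, h3⟩
    refine ⟨lineOf f, ⟨f, ⟨h1, h2⟩, rfl⟩, ?_⟩
    intro x hx
    simp only [lineOf, mem_image, mem_univ, true_and] at hx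
    obtain ⟨t, rfl⟩ := hx
    exact h3 t
  · rintro ⟨e, ⟨f, ⟨h1, h2⟩, rfl⟩, h3⟩
    exact ⟨f, h1, h2, fun t => h3 (mem_image_of_mem _ (mem_univ t))⟩

/-- The strategy of the second player in the problem. -/
theorem draw_of_bw {k n : ℕ} (h : BW (Lines k n)) (W : Finset (Fin k → Fin n) → Prop)
    (hW : ∀ A : Finset (Fin k → Fin n), W A ↔ ∃ e ∈ Lines k n, e ⊆ A) :
    ∃ T : Set (Finset (Fin k → Fin n) × Finset (Fin k → Fin n)),
            ((∅ : Finset (Fin k → Fin n)), (∅ : Finset (Fin k → Fin n))) ∈ T ∧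
            ∀ p ∈ T, ¬ W p.1 ∧
              (p.1.card = p.2.card → ¬ W p.2 →
                ∀ c : Fin k → Fin n, c ∉ p.1 → c ∉ p.2 → (insert c p.1, p.2) ∈ T) ∧
              (p.1.card = p.2.card + 1 → (∃ c : Fin k → Fin n, c ∉ p.1 ∧ c ∉ p.2) →
                ∃ c : Fin k → Fin n, c ∉ p.1 ∧ c ∉ p.2 ∧ (p.1, insert c p.2) ∈ T) := by
  classical
  refine ⟨{p | Disjoint p.1 p.2 ∧ ((p.1.card = p.2.card ∧ BW (Pos p.1 p.2)) ∨
      (p.1.card = p.2.card + 1 ∧ ∅ ∉ Pos p.1 p.2 ∧ ∃ d, BW (kill d (Pos p.1 p.2))))}, ?_, ?_⟩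
  · refine ⟨disjoint_empty_left _, Or.inl ⟨rfl, h.mono ?_⟩⟩
    rintro e ⟨g, hg, -, rfl⟩
    exact ⟨g, hg, by simp⟩
  · rintro ⟨A, B⟩ ⟨hdis, hp⟩
    simp only at hdis hp
    have hne : ∅ ∉ Pos A B := by
      rcases hp with ⟨-, hp⟩ | ⟨-, hp, -⟩
      · exact hp.empty_not_mem
      · exact hp
    refine ⟨?_, ?_, ?_⟩
    · intro hw
      obtain ⟨e, he, hs⟩ := (hW _).1 hw
      exact hne ⟨e, he, hdis.mono_left hs, (sdiff_eq_empty_iff_subset.2 hs).symm⟩
    · intro hc _ c hcA hcB
      simp only at hc hcA hcB ⊢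
      rcases hp with ⟨-, hp⟩ | ⟨hp, -⟩
      · obtain ⟨d, hd⟩ := hp.reply c
        have hsub : Pos (insert c A) B ⊆ play c (Pos A B) := by
          rintro e ⟨g, hg, hgB, rfl⟩
          refine ⟨g \ A, ⟨g, hg, hgB, rfl⟩, ?_⟩
          ext x
          simp only [mem_sdiff, mem_insert, mem_erase]
          tauto
        refine ⟨?_, Or.inr ⟨?_, ?_, d, ?_⟩⟩
        · simp only
          rw [disjoint_insert_left]
          exact ⟨hcB, hdis⟩
        · simp only
          rw [card_insert_of_notMem hcA, hc]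
        · intro h0
          exact hd.empty_not_mem ⟨hsub h0, by simp⟩
        · refine hd.mono (Dom.of_subset ?_)
          rintro e ⟨he, hde⟩
          exact ⟨hsub he, hde⟩
      · omega
    · intro hc hfree
      simp only at hc hfree ⊢
      rcases hp with ⟨hp, -⟩ | ⟨-, -, d, hd⟩
      · omega
      · obtain ⟨c0, hc0A, hc0B⟩ := hfree
        obtain ⟨c, hcA, hcB, hcd⟩ : ∃ c, c ∉ A ∧ c ∉ B ∧ (c = d ∨ d ∈ A ∨ d ∈ B) := by
          by_cases h1 : d ∈ A
          · exact ⟨c0, hc0A, hc0B, Or.inr (Or.inl h1)⟩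
          · by_cases h2 : d ∈ B
            · exact ⟨c0, hc0A, hc0B, Or.inr (Or.inr h2)⟩
            · exact ⟨d, h1, h2, Or.inl rfl⟩
        refine ⟨c, hcA, hcB, ?_, Or.inl ⟨?_, ?_⟩⟩
        · simp only
          rw [disjoint_insert_right]
          exact ⟨hcA, hdis⟩
        · simp only
          rw [card_insert_of_notMem hcB, hc]
        · simp only
          refine hd.mono (Dom.of_subset ?_)
          rintro e ⟨g, hg, hgB, rfl⟩
          rw [disjoint_insert_right] at hgB
          refine ⟨⟨g, hg, hgB.2, rfl⟩, ?_⟩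
          intro hde
          rw [mem_sdiff] at hde
          rcases hcd with rfl | h1 | h1
          · exact hgB.1 hde.1
          · exact hde.2 h1
          · exact (Finset.disjoint_left.1 hgB.2 hde.1) h1

end Pool.Agent.TTT
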