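import Pool.Agent.TTT.Root2

/-!
Cheap checks of the positions, with the lines given as lists of cells.
-/

set_option autoImplicit false

namespace Pool.Agent.TTT

open Finset

/-- The number of the cells of the list outside `O`. -/
def cntL (cs : List ℕ) (O : ℕ) : ℕ := (cs.filter (fun i => !O.testBit i)).length

theorem cntL_card {cs : List ℕ} (hn : cs.Nodup) {O c : ℕ} (h : c ≤ cntL cs O) :
    c ≤ (bs (maskOf cs) \ bs O).card := by
  have h1 : (cs.filter (fun i => !O.testBit i)).toFinset ⊆ bs (maskOf cs) \ bs O := by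
    intro i hi
    rw [List.mem_toFinset, List.mem_filter] at hi
    rw [mem_sdiff, mem_maskOf, mem_bs]
    exact ⟨hi.1, by simpa using hi.2⟩
  have h2 := card_le_card h1
  rw [List.toFinset_card_of_nodup (hn.filter _)] at h2
  exact h.trans h2

/-- The lists of cells are the lines. -/
def lcOK (LC : List (List ℕ)) (L : List ℕ) : Prop :=
  LC.map maskOf = L ∧ ∀ cs ∈ LC, cs.Nodup

/-- The check of a position with the first player to move. -/
noncomputable def posF (N full : ℕ) (LC : List (List ℕ)) (X O y : ℕ) (P : List ℕ) : Bool :=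
  Nat.ble (y + 1) N && (O.testBit y && (Nat.beq (Nat.land X O) 0 &&
    (Nat.beq (Nat.land X full) X && (Nat.beq (Nat.land O full) O &&
    (LC.all fun cs => Nat.ble 1 (cntL cs O) && (memL y cs ||
      (!(Nat.beq (Nat.land X (maskOf cs)) 0) ||
      (Nat.ble 3 (cntL cs O) || (Nat.ble 2 (cntL cs O) && memL (maskOf cs) P)))))))))

theorem chunkF {N full : ℕ} {L : List ℕ} {T : BT} {K : List (ℕ × ℕ)} (hB : Board N L T)
    (hfull : full = 2 ^ N - 1) {LC : List (List ℕ)} (hLC : lcOK LC L)
    (hK : ∀ p ∈ K, FW (cellsN N) (Won L) (bs p.1) (bs p.2)) (c : Ct) (X O y : ℕ) (P : List ℕ)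
    (hp : posF N full LC X O y P = true) (h : go N full T K c X O (look T y) P = true) :
    FW (cellsN N) (Won L) (bs X) (bs O) := by
  have hf : ∀ i, i ∈ bs full ↔ i < N := by
    intro i
    rw [mem_bs, hfull, Nat.testBit_two_pow_sub_one, decide_eq_true_eq]
  simp only [posF, Bool.and_eq_true] at hp
  obtain ⟨h1, h2, h3, h4, h5, h6⟩ := hp
  have hy : y < N := Nat.le_of_ble_eq_true h1
  have h3' := Nat.eq_of_beq_eq_true h3
  have hcs : ∀ l ∈ L, ∃ cs ∈ LC, maskOf cs = l := by
    intro l hl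
    rw [← hLC.1, List.mem_map] at hl
    exact hl
  refine go_sound hB hf hK c X O (look T y) P h ?_ ?_ (EsOK.look hB hy (mem_bs.2 h2)) ?_ ?_
  · rw [disjoint_iff_inter_eq_empty, ← bs_land, h3', bs_zero]
  · intro i hi
    rw [← hf]
    rcases hi with hi | hi
    · rw [← Nat.eq_of_beq_eq_true h4, bs_land, mem_inter] at hi
      exact hi.2
    · rw [← Nat.eq_of_beq_eq_true h5, bs_land, mem_inter] at hi
      exact hi.2
  · rintro ⟨l, hl, hs⟩
    obtain ⟨cs, hcsm, rfl⟩ := hcs l hl
    have h7 := List.all_eq_true.1 h6 cs hcsm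
    rw [Bool.and_eq_true] at h7
    have h8 := cntL_card (hLC.2 cs hcsm) (Nat.le_of_ble_eq_true h7.1)
    rw [sdiff_eq_empty_iff_subset.2 hs] at h8
    simp at h8
  · intro l hl hle hd
    obtain ⟨cs, hcsm, rfl⟩ := hcs l hl
    have h7 := List.all_eq_true.1 h6 cs hcsm
    simp only [Bool.and_eq_true, Bool.not_eq_true', Bool.or_eq_true] at h7
    obtain ⟨-, h7 | h7 | h7 | h7⟩ := h7
    · exact absurd (mem_maskOf.2 (memL_sound _ _ h7)) (not_mem_of_look hB hy hl hle)
    · exact absurd hd (land_zero h7)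
    · have := cntL_card (hLC.2 cs hcsm) (Nat.le_of_ble_eq_true h7)
      exact ⟨by omega, fun h => by omega⟩
    · have := cntL_card (hLC.2 cs hcsm) (Nat.le_of_ble_eq_true h7.1)
      exact ⟨this, fun _ => memL_sound _ _ h7.2⟩

end Pool.Agent.TTT
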