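import Pool.Agent.TTT.Root

/-!
Draws in the strong game, in which the second player may use his own threats.
-/

set_option autoImplicit false

namespace Pool.Agent.TTT

open Finset

/-- The second player does not lose; the first player is to move; `r c` is the answer to `c`. -/
inductive DR {α : Type*} [DecidableEq α] (C : Set α) (W : Finset α → Prop) :
    Finset α → Finset α → Prop
  | won (A B : Finset α) : ¬ W A → W B → DR C W A B
  | go (A B : Finset α) (r : α → α) : ¬ W A →
      (∀ c, c ∈ C → c ∉ A → c ∉ B → ¬ W (insert c A)) →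
      (∀ c, c ∈ C → c ∉ A → c ∉ B → (∃ d, d ∈ C ∧ d ∉ insert c A ∧ d ∉ B) →
        r c ∈ C ∧ r c ∉ insert c A ∧ r c ∉ B) →
      (∀ c, c ∈ C → c ∉ A → c ∉ B → (∃ d, d ∈ C ∧ d ∉ insert c A ∧ d ∉ B) →
        DR C W (insert c A) (insert (r c) B)) → DR C W A B

theorem DR.not_won {α : Type*} [DecidableEq α] {C : Set α} {W : Finset α → Prop} {A B : Finset α}
    (h : DR C W A B) : ¬ W A := by
  cases h with
  | won _ _ h _ => exact h
  | go _ _ _ h _ _ _ => exact h

theorem draw_of_dr {α : Type*} [DecidableEq α] (W : Finset α → Prop)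
    (h : DR Set.univ W (∅ : Finset α) ∅) :
    ∃ T : Set (Finset α × Finset α),
            ((∅ : Finset α), (∅ : Finset α)) ∈ T ∧
            ∀ p ∈ T, ¬ W p.1 ∧
              (p.1.card = p.2.card → ¬ W p.2 →
                ∀ c : α, c ∉ p.1 → c ∉ p.2 → (insert c p.1, p.2) ∈ T) ∧
              (p.1.card = p.2.card + 1 → (∃ c : α, c ∉ p.1 ∧ c ∉ p.2) →
                ∃ c : α, c ∉ p.1 ∧ c ∉ p.2 ∧ (p.1, insert c p.2) ∈ T) := by
  refine ⟨{p | (p.1.card = p.2.card ∧ DR Set.univ W p.1 p.2) ∨ (p.1.card = p.2.card + 1 ∧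
    ¬ W p.1 ∧ ((∃ d, d ∉ p.1 ∧ d ∉ p.2) →
      (∃ d, d ∉ p.1 ∧ d ∉ p.2 ∧ DR Set.univ W p.1 (insert d p.2))))}, Or.inl ⟨rfl, h⟩, ?_⟩
  rintro ⟨A, B⟩ hp
  simp only [Set.mem_ofPred_eq] at hp ⊢
  rcases hp with ⟨hc, hp⟩ | ⟨hc, hA, hp⟩
  · refine ⟨hp.not_won, ?_, fun h => by omega⟩
    intro _ hB c hcA hcB
    cases hp with
    | won _ _ _ h => exact absurd h hB
    | go _ _ r _ h1 h2 h3 =>
      refine Or.inr ⟨by rw [card_insert_of_notMem hcA, hc], h1 c (Set.mem_univ _) hcA hcB, ?_⟩
      rintro ⟨d, hd1, hd2⟩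
      have hd : ∃ d, d ∈ (Set.univ : Set α) ∧ d ∉ insert c A ∧ d ∉ B :=
        ⟨d, Set.mem_univ _, hd1, hd2⟩
      obtain ⟨-, h4, h5⟩ := h2 c (Set.mem_univ _) hcA hcB hd
      exact ⟨r c, h4, h5, h3 c (Set.mem_univ _) hcA hcB hd⟩
  · refine ⟨hA, fun h => by omega, ?_⟩
    intro _ hf
    obtain ⟨d, h3, h4, h5⟩ := hp hf
    exact ⟨d, h3, h4, Or.inl ⟨by rw [card_insert_of_notMem h4, hc], h5⟩⟩

/-- Transport along a bijection of the boards. -/
theorem DR.map {α β : Type*} [DecidableEq α] [DecidableEq β] {C : Set α} {W : Finset α → Prop}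
    {A B : Finset α} (h : DR C W A B) (C' : Set β) (W' : Finset β → Prop) (f : α → β) (g : β → α)
    (hf : ∀ a ∈ C, f a ∈ C' ∧ g (f a) = a) (hg : ∀ b ∈ C', g b ∈ C ∧ f (g b) = b)
    (hW : ∀ A : Finset α, (A : Set α) ⊆ C → (W' (A.image f) ↔ W A)) :
    (A : Set α) ⊆ C → (B : Set α) ⊆ C → DR C' W' (A.image f) (B.image f) := by
  have hmem : ∀ (A : Finset α) (c : α), (A : Set α) ⊆ C → c ∈ C → (f c ∈ A.image f ↔ c ∈ A) := by
    intro A c hA hc
    constructor
    · intro h
      obtain ⟨x, hx, hxc⟩ := mem_image.1 h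
      rw [← (hf c hc).2, ← hxc, (hf x (hA hx)).2]
      exact hx
    · exact fun h => mem_image_of_mem f h
  have hins : ∀ (A : Finset α) (c : α), (A : Set α) ⊆ C → c ∈ C →
      ((insert c A : Finset α) : Set α) ⊆ C := by
    intro A c hA hc x hx
    rcases mem_insert.1 hx with rfl | h
    · exact hc
    · exact hA h
  induction h with
  | won A B h1 h2 =>
    intro hAC hBC
    exact .won _ _ (by rwa [hW A hAC]) (by rwa [hW B hBC])
  | go A B r h1 h2 h3 _ ih =>
    intro hAC hBC
    have key : ∀ c', c' ∈ C' → c' ∉ A.image f → c' ∉ B.image f →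
        g c' ∈ C ∧ g c' ∉ A ∧ g c' ∉ B ∧ f (g c') = c' := by
      intro c' hc' hcA hcB
      obtain ⟨h5, h6⟩ := hg c' hc'
      rw [← h6, hmem A _ hAC h5] at hcA
      rw [← h6, hmem B _ hBC h5] at hcB
      exact ⟨h5, hcA, hcB, h6⟩
    have hfree : ∀ c', c' ∈ C' → c' ∉ A.image f → c' ∉ B.image f →
        (∃ d, d ∈ C' ∧ d ∉ insert c' (A.image f) ∧ d ∉ B.image f) →
        ∃ d, d ∈ C ∧ d ∉ insert (g c') A ∧ d ∉ B := by
      rintro c' hc' hcA hcB ⟨d', hd', hd1, hd2⟩
      obtain ⟨h5, h6, h7, h8⟩ := key c' hc' hcA hcB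
      obtain ⟨h9, h10⟩ := hg d' hd'
      refine ⟨g d', h9, ?_, ?_⟩
      · rw [← hmem _ _ (hins A _ hAC h5) h9, h10, image_insert, h8]
        exact hd1
      · rw [← hmem _ _ hBC h9, h10]
        exact hd2
    refine .go _ _ (fun c' => f (r (g c'))) (by rwa [hW A hAC]) ?_ ?_ ?_
    · intro c' hc' hcA hcB
      obtain ⟨h5, h6, h7, h8⟩ := key c' hc' hcA hcB
      have := h2 _ h5 h6 h7
      rwa [← hW _ (hins A _ hAC h5), image_insert, h8] at this
    · intro c' hc' hcA hcB hex
      obtain ⟨h5, h6, h7, h8⟩ := key c' hc' hcA hcB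
      obtain ⟨h9, h10, h11⟩ := h3 _ h5 h6 h7 (hfree c' hc' hcA hcB hex)
      refine ⟨(hf _ h9).1, ?_, ?_⟩
      · have := hmem (insert (g c') A) _ (hins A _ hAC h5) h9
        rw [image_insert, h8] at this
        rw [this]
        exact h10
      · rw [hmem _ _ hBC h9]
        exact h11
    · intro c' hc' hcA hcB hex
      obtain ⟨h5, h6, h7, h8⟩ := key c' hc' hcA hcB
      have hex' := hfree c' hc' hcA hcB hex
      have h9 := h3 _ h5 h6 h7 hex'
      have := ih _ h5 h6 h7 hex' (hins A _ hAC h5) (hins B _ hBC h9.1)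
      rw [image_insert, image_insert, h8] at this
      exact this

/-- Certificates: `cons c d t r`: the answer to `c` is `d`; `last c r`: after `c` the board is
full. -/
inductive DT
  | won : DT
  | nil : DT
  | cons (c d : ℕ) (t r : DT) : DT
  | last (c : ℕ) (r : DT) : DT

/-- No line of the list is contained in `X`. -/
def noLine (L : List ℕ) (X : ℕ) : Bool := L.all fun l => !(Nat.beq (l &&& X) l)

/-- The checker. -/
def chkD (N : ℕ) (L : List ℕ) : DT → ℕ → ℕ → ℕ → Bool
  | .won, X, O, _ => noLine L X && !(noLine L O)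
  | .nil, X, O, cov => noLine L X && (List.range N).all fun i =>
      X.testBit i || (O.testBit i || cov.testBit i)
  | .cons c d t r, X, O, cov => noLine L (X ||| 2 ^ c) && (Nat.ble (d + 1) N &&
      (!((X ||| 2 ^ c).testBit d) && (!(O.testBit d) &&
      (chkD N L t (X ||| 2 ^ c) (O ||| 2 ^ d) 0 && chkD N L r X O (cov ||| 2 ^ c)))))
  | .last c r, X, O, cov => noLine L (X ||| 2 ^ c) &&
      (((List.range N).all fun i => (X ||| 2 ^ c).testBit i || O.testBit i) &&
        chkD N L r X O (cov ||| 2 ^ c))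

theorem noLine_iff {L : List ℕ} {X : ℕ} : noLine L X = true ↔ ¬ Won L (bs X) := by
  constructor
  · rintro h ⟨l, hl, hs⟩
    have h1 := List.all_eq_true.1 h l hl
    have h2 : l &&& X = l := by
      apply Nat.eq_of_testBit_eq
      intro i
      rw [Nat.testBit_and]
      by_cases hi : l.testBit i = true
      · rw [hi, mem_bs.1 (hs (mem_bs.2 hi))]; rfl
      · simp only [Bool.not_eq_true] at hi
        rw [hi]; simp
    rw [h2] at h1
    simp at h1
  · intro h
    refine List.all_eq_true.2 fun l hl => ?_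
    by_contra hc
    apply h
    refine ⟨l, hl, ?_⟩
    have h1 : Nat.beq (l &&& X) l = true := by simpa using hc
    have h2 := Nat.eq_of_beq_eq_true h1
    intro i hi
    rw [mem_bs] at hi ⊢
    rw [← h2, Nat.testBit_and, Bool.and_eq_true] at hi
    exact hi.2

theorem bs_or_two (X c : ℕ) : bs (X ||| 2 ^ c) = insert c (bs X) := by
  have h := bs_ins X c
  have h2 : Nat.shiftLeft 1 c = 2 ^ c := Nat.one_shiftLeft c
  rw [h2] at h
  exact h

theorem chkD_sound {N : ℕ} {L : List ℕ} (t : DT) : ∀ X O cov : ℕ, chkD N L t X O cov = true →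
    (∀ c, cov.testBit c = true → ¬ Won L (insert c (bs X)) ∧
      ((∃ d, d < N ∧ d ∉ insert c (bs X) ∧ d ∉ bs O ∧
        DR (cellsN N) (Won L) (insert c (bs X)) (insert d (bs O))) ∨
        (∀ d, d < N → d ∈ insert c (bs X) ∨ d ∈ bs O))) →
    DR (cellsN N) (Won L) (bs X) (bs O) := by
  induction t with
  | won =>
    intro X O cov h _
    simp only [chkD, Bool.and_eq_true, Bool.not_eq_true'] at h
    refine .won _ _ (noLine_iff.1 h.1) ?_
    by_contra hc
    rw [← noLine_iff, h.2] at hc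
    simp at hc
  | nil =>
    intro X O cov h hcov
    simp only [chkD, Bool.and_eq_true] at h
    obtain ⟨h1, h2⟩ := h
    have h3 : ∀ c, c < N → c ∉ bs X → c ∉ bs O → cov.testBit c = true := by
      intro c hc hcX hcO
      have := List.all_eq_true.1 h2 c (List.mem_range.2 hc)
      simp only [Bool.or_eq_true] at this
      rcases this with h | h | h
      · exact absurd (mem_bs.2 h) hcX
      · exact absurd (mem_bs.2 h) hcO
      · exact h
    classical
    refine .go _ _ (fun c => if hx : ∃ d, d < N ∧ d ∉ insert c (bs X) ∧ d ∉ bs O ∧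
        DR (cellsN N) (Won L) (insert c (bs X)) (insert d (bs O)) then Classical.choose hx else 0)
      (noLine_iff.1 h1) ?_ ?_ ?_
    · intro c hc hcX hcO
      exact (hcov c (h3 c hc hcX hcO)).1
    · rintro c hc hcX hcO ⟨d, hd1, hd2, hd3⟩
      rcases (hcov c (h3 c hc hcX hcO)).2 with hx | hx
      · rw [dif_pos hx]
        obtain ⟨h4, h5, h6, -⟩ := Classical.choose_spec hx
        exact ⟨h4, h5, h6⟩
      · exfalso
        rcases hx d hd1 with h | h
        · exact hd2 h
        · exact hd3 h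
    · rintro c hc hcX hcO ⟨d, hd1, hd2, hd3⟩
      rcases (hcov c (h3 c hc hcX hcO)).2 with hx | hx
      · rw [dif_pos hx]
        exact (Classical.choose_spec hx).2.2.2
      · exfalso
        rcases hx d hd1 with h | h
        · exact hd2 h
        · exact hd3 h
  | cons c d t r iht ihr =>
    intro X O cov h hcov
    simp only [chkD, Bool.and_eq_true, Bool.not_eq_true'] at h
    obtain ⟨h1, h2, h3, h4, h5, h6⟩ := h
    refine ihr X O _ h6 ?_
    intro c' hc'
    rw [Nat.testBit_or, Nat.testBit_two_pow, Bool.or_eq_true, decide_eq_true_eq] at hc'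
    rcases hc' with hc' | rfl
    · exact hcov c' hc'
    · rw [noLine_iff, bs_or_two] at h1
      refine ⟨h1, Or.inl ⟨d, Nat.le_of_ble_eq_true h2, ?_, ?_, ?_⟩⟩
      · rw [← bs_or_two, mem_bs, h3]; simp
      · rw [mem_bs, h4]; simp
      · have := iht _ _ 0 h5 (by simp)
        rwa [bs_or_two, bs_or_two] at this
  | last c r ihr =>
    intro X O cov h hcov
    simp only [chkD, Bool.and_eq_true] at h
    obtain ⟨h1, h2, h3⟩ := h
    refine ihr X O _ h3 ?_
    intro c' hc'
    rw [Nat.testBit_or, Nat.testBit_two_pow, Bool.or_eq_true, decide_eq_true_eq] at hc'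
    rcases hc' with hc' | rfl
    · exact hcov c' hc'
    · rw [noLine_iff, bs_or_two] at h1
      refine ⟨h1, Or.inr ?_⟩
      intro d hd
      have := List.all_eq_true.1 h2 d (List.mem_range.2 hd)
      rw [Bool.or_eq_true] at this
      rcases this with h | h
      · left
        rw [← bs_or_two]
        exact mem_bs.2 h
      · exact Or.inr (mem_bs.2 h)

/-- From the numbered board to `[n]^k`. -/
theorem dr_lines {k n N : ℕ} (enc : (Fin k → Fin n) → ℕ) (hinj : Function.Injective enc)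
    (hlt : ∀ x, enc x < N) (hran : ∀ i < N, ∃ x, enc x = i) (hne : Nonempty (Fin k → Fin n))
    (L : List ℕ)
    (h1 : ∀ l ∈ L, ∃ e ∈ Lines k n, e.image enc = bs l)
    (h2 : ∀ e ∈ Lines k n, ∃ l ∈ L, e.image enc = bs l)
    (h : DR (cellsN N) (Won L) ∅ ∅) :
    DR Set.univ (fun A : Finset (Fin k → Fin n) => ∃ e ∈ Lines k n, e ⊆ A) ∅ ∅ := by
  have hl : ∀ x, Function.invFun enc (enc x) = x := Function.leftInverse_invFun hinj
  have hr : ∀ i < N, enc (Function.invFun enc i) = i := by
    intro i hi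
    obtain ⟨x, rfl⟩ := hran i hi
    rw [hl]
  have := h.map Set.univ (fun A : Finset (Fin k → Fin n) => ∃ e ∈ Lines k n, e ⊆ A)
    (Function.invFun enc) enc (fun i hi => ⟨Set.mem_univ _, hr i hi⟩)
    (fun x _ => ⟨hlt x, hl x⟩) (by
      intro A hA
      constructor
      · rintro ⟨e, he, hs⟩
        obtain ⟨l, hlL, hel⟩ := h2 e he
        refine ⟨l, hlL, ?_⟩
        rw [← hel]
        intro i hi
        obtain ⟨x, hx, rfl⟩ := mem_image.1 hi
        obtain ⟨j, hj, hjx⟩ := mem_image.1 (hs hx)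
        rw [← hjx, hr j (hA hj)]
        exact hj
      · rintro ⟨l, hlL, hs⟩
        obtain ⟨e, he, hel⟩ := h1 l hlL
        refine ⟨e, he, ?_⟩
        intro x hx
        rw [mem_image]
        refine ⟨enc x, hs ?_, hl x⟩
        rw [← hel]
        exact mem_image_of_mem _ hx) (by simp) (by simp)
  simpa using this

end Pool.Agent.TTT
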