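import Pool.Agent.TTT.Small
import Pool.Agent.TTT.Draw3

/-!
Determinacy, boards with small `n` or `k`, and the passage to the form of the problem.
-/

set_option autoImplicit false

namespace Pool.Agent.TTT

open Finset

/-- If the first player has no forced win then the second player can prevent it. -/
theorem draw_of_not_fw {α : Type*} [DecidableEq α] (W : Finset α → Prop) (h0 : ¬ W ∅)
    (h : ¬ FW Set.univ W (∅ : Finset α) ∅) :
    ∃ T : Set (Finset α × Finset α),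
            ((∅ : Finset α), (∅ : Finset α)) ∈ T ∧
            ∀ p ∈ T, ¬ W p.1 ∧
              (p.1.card = p.2.card → ¬ W p.2 →
                ∀ c : α, c ∉ p.1 → c ∉ p.2 → (insert c p.1, p.2) ∈ T) ∧
              (p.1.card = p.2.card + 1 → (∃ c : α, c ∉ p.1 ∧ c ∉ p.2) →
                ∃ c : α, c ∉ p.1 ∧ c ∉ p.2 ∧ (p.1, insert c p.2) ∈ T) := by
  refine ⟨{p | (p.1.card = p.2.card ∧ ¬ W p.1 ∧ (W p.2 ∨ ¬ FW Set.univ W p.1 p.2)) ∨
    (p.1.card = p.2.card + 1 ∧ ¬ W p.1 ∧ ((∃ d, d ∉ p.1 ∧ d ∉ p.2) →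
      ∃ d, d ∉ p.1 ∧ d ∉ p.2 ∧ (W (insert d p.2) ∨ ¬ FW Set.univ W p.1 (insert d p.2))))},
    Or.inl ⟨rfl, h0, Or.inr h⟩, ?_⟩
  rintro ⟨A, B⟩ hp
  simp only [Set.mem_ofPred_eq] at hp ⊢
  rcases hp with ⟨hc, hA, hp⟩ | ⟨hc, hA, hp⟩
  · refine ⟨hA, ?_, fun h => by omega⟩
    intro _ hB c hcA hcB
    have hnf : ¬ FW Set.univ W A B := hp.resolve_left hB
    refine Or.inr ⟨by rw [card_insert_of_notMem hcA, hc], ?_, ?_⟩
    · intro hW
      exact hnf (.win A B c hB (Set.mem_univ _) hcA hcB hW)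
    · rintro ⟨d, hd1, hd2⟩
      by_contra hcon
      push Not at hcon
      refine hnf (.step A B c hB (Set.mem_univ _) hcA hcB ⟨d, Set.mem_univ _, hd1, hd2⟩ ?_)
      intro d' _ h1 h2
      exact (hcon d' h1 h2).2
  · refine ⟨hA, fun h => by omega, ?_⟩
    intro _ hf
    obtain ⟨d, h3, h4, h5⟩ := hp hf
    exact ⟨d, h3, h4, Or.inl ⟨by rw [card_insert_of_notMem h4, hc], hA, h5⟩⟩

/-- The first player owns a line. -/
abbrev WonL (k n : ℕ) (A : Finset (Fin k → Fin n)) : Prop := ∃ e ∈ Lines k n, e ⊆ A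

/-- The first player can force a win. -/
def FPW (k n : ℕ) : Prop := FW Set.univ (WonL k n) ∅ ∅

theorem not_wonL_empty (k : ℕ) {n : ℕ} (hn : 1 ≤ n) : ¬ WonL k n ∅ := by
  rintro ⟨e, ⟨f, hf, rfl⟩, hs⟩
  have h : (fun j => f j ⟨0, hn⟩) ∈ lineOf f := by
    simp only [lineOf, mem_image, mem_univ, true_and]
    exact ⟨_, rfl⟩
  exact absurd (hs h) (by simp)

theorem fpw_one (k : ℕ) (hk : 1 ≤ k) : FPW k 1 := by
  refine .win ∅ ∅ (fun _ => 0) (not_wonL_empty k (le_refl 1)) (Set.mem_univ _) (by simp) (by simp) ?_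
  refine ⟨lineOf (fun _ => id), ⟨_, ⟨fun j => Or.inr (Or.inl rfl), ⟨⟨0, hk⟩, Or.inl rfl⟩⟩, rfl⟩, ?_⟩
  intro x hx
  rw [mem_insert]
  left
  funext j
  exact Subsingleton.elim _ _

theorem fpw_22 : FPW 2 2 :=
  fw_lines enc2 enc2_inj (fun x => enc2_lt x) (fun i hi => enc2_range i hi) S22.lines
    (eq2_sound S22.eq).1 (eq2_sound S22.eq).2 S22.win

theorem fpw_32 : FPW 3 2 :=
  fw_lines enc3 enc3_inj (fun x => enc3_lt x) (fun i hi => enc3_range i hi) S23.lines
    (eq3_sound S23.eq).1 (eq3_sound S23.eq).2 S23.win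

theorem fpw_33 : FPW 3 3 :=
  fw_lines enc3 enc3_inj (fun x => enc3_lt x) (fun i hi => enc3_range i hi) S33.lines
    (eq3_sound S33.eq).1 (eq3_sound S33.eq).2 S33.win

theorem dr_23 : DR Set.univ (WonL 2 3) ∅ ∅ :=
  dr_lines enc2 enc2_inj (fun x => enc2_lt x) (fun i hi => enc2_range i hi) ⟨fun _ => 0⟩
    D32.lines (eq2_sound D32.eq).1 (eq2_sound D32.eq).2 D32.draw

theorem bw_12 : BW (Lines 1 2) := by
  have hab : (fun _ => 0 : Fin 1 → Fin 2) ≠ (fun _ => 1) := by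
    intro h
    exact absurd (congrFun h 0) (by decide)
  refine (BW.pair hab).mono ?_
  rintro e ⟨f, ⟨-, ⟨j, hj⟩⟩, rfl⟩
  refine ⟨_, rfl, ?_⟩
  have hj0 : j = 0 := Subsingleton.elim _ _
  subst hj0
  intro x hx
  simp only [lineOf, mem_image, mem_univ, true_and]
  rw [mem_insert, mem_singleton] at hx
  rcases hj with hj | hj
  · rcases hx with rfl | rfl
    · refine ⟨0, ?_⟩
      funext i
      rw [Subsingleton.elim i 0, hj]
      rfl
    · refine ⟨1, ?_⟩
      funext i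
      rw [Subsingleton.elim i 0, hj]
      rfl
  · rcases hx with rfl | rfl
    · refine ⟨1, ?_⟩
      funext i
      rw [Subsingleton.elim i 0, hj]
      decide
    · refine ⟨0, ?_⟩
      funext i
      rw [Subsingleton.elim i 0, hj]
      decide

/-- The two conclusions of the problem for one board. -/
def WinSet (k n : ℕ) (W : Finset (Fin k → Fin n) → Prop) : Prop :=
  ∃ S : Set (Finset (Fin k → Fin n) × Finset (Fin k → Fin n)),
            ((∅ : Finset (Fin k → Fin n)), (∅ : Finset (Fin k → Fin n))) ∈ S ∧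
            ∀ p ∈ S, W p.1 ∨
              (¬ W p.2 ∧
                (p.1.card = p.2.card ∨ p.1.card = p.2.card + 1) ∧
                (p.1.card = p.2.card →
                  ∃ c : Fin k → Fin n, c ∉ p.1 ∧ c ∉ p.2 ∧ (insert c p.1, p.2) ∈ S) ∧
                (p.1.card = p.2.card + 1 →
                  (∃ c : Fin k → Fin n, c ∉ p.1 ∧ c ∉ p.2) ∧
                  ∀ c : Fin k → Fin n, c ∉ p.1 → c ∉ p.2 → (p.1, insert c p.2) ∈ S))

/-- See above. -/
def DrawSet (k n : ℕ) (W : Finset (Fin k → Fin n) → Prop) : Prop :=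
  ∃ T : Set (Finset (Fin k → Fin n) × Finset (Fin k → Fin n)),
            ((∅ : Finset (Fin k → Fin n)), (∅ : Finset (Fin k → Fin n))) ∈ T ∧
            ∀ p ∈ T, ¬ W p.1 ∧
              (p.1.card = p.2.card → ¬ W p.2 →
                ∀ c : Fin k → Fin n, c ∉ p.1 → c ∉ p.2 → (insert c p.1, p.2) ∈ T) ∧
              (p.1.card = p.2.card + 1 → (∃ c : Fin k → Fin n, c ∉ p.1 ∧ c ∉ p.2) →
                ∃ c : Fin k → Fin n, c ∉ p.1 ∧ c ∉ p.2 ∧ (p.1, insert c p.2) ∈ T)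

/-- The property of the pair `k`, `N`. -/
def Thr (k N : ℕ) : Prop :=
  (∀ n, 1 ≤ n → n < N → WinSet k n (WonL k n)) ∧ (∀ n, 1 ≤ n → N ≤ n → DrawSet k n (WonL k n))

theorem thr_one : Thr 1 2 := by
  constructor
  · intro n h1 h2
    have : n = 1 := by omega
    subst this
    exact winset_of_fw _ (fpw_one 1 (le_refl 1))
  · intro n _ hn
    have h := bw_mono 1 (by norm_num) hn (Or.inl ⟨1, rfl⟩) bw_12
    exact draw_of_bw h _ (fun _ => Iff.rfl)

theorem thr_two : Thr 2 3 := by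
  constructor
  · intro n h1 h2
    obtain rfl | rfl : n = 1 ∨ n = 2 := by omega
    · exact winset_of_fw _ (fpw_one 2 (by norm_num))
    · exact winset_of_fw _ fpw_22
  · intro n _ hn
    rcases Nat.lt_or_ge 3 n with h3 | h3
    · have h := bw_mono 2 (by norm_num) h3 (Or.inl ⟨2, rfl⟩) B42.bw
      exact draw_of_bw h _ (fun _ => Iff.rfl)
    · have : n = 3 := by omega
      subst this
      exact draw_of_dr _ dr_23

theorem thr_three (h4 : FPW 3 4) (h6 : BW (Lines 3 6)) : Thr 3 5 ∨ Thr 3 6 := by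
  have hw : ∀ n, 1 ≤ n → n < 5 → WinSet 3 n (WonL 3 n) := by
    intro n h1 h2
    obtain rfl | rfl | rfl | rfl : n = 1 ∨ n = 2 ∨ n = 3 ∨ n = 4 := by omega
    · exact winset_of_fw _ (fpw_one 3 (by norm_num))
    · exact winset_of_fw _ fpw_32
    · exact winset_of_fw _ fpw_33
    · exact winset_of_fw _ h4
  have hd : ∀ n, 1 ≤ n → 6 ≤ n → DrawSet 3 n (WonL 3 n) := by
    intro n _ hn
    have h := bw_mono 3 (by norm_num) hn (Or.inl ⟨3, rfl⟩) h6
    exact draw_of_bw h _ (fun _ => Iff.rfl)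
  by_cases h5 : FPW 3 5
  · right
    refine ⟨?_, hd⟩
    intro n h1 h2
    rcases Nat.lt_or_ge n 5 with h | h
    · exact hw n h1 h
    · have : n = 5 := by omega
      subst this
      exact winset_of_fw _ h5
  · left
    refine ⟨hw, ?_⟩
    intro n h1 h2
    rcases Nat.lt_or_ge 5 n with h | h
    · exact hd n h1 h
    · have : n = 5 := by omega
      subst this
      exact draw_of_not_fw _ (not_wonL_empty 3 (by norm_num)) h5

theorem main_of {k : ℕ} (h : ∃ N, Thr k N) : ∃ N : ℕ, ∀ n : ℕ, 1 ≤ n →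
      ∀ W : Finset (Fin k → Fin n) → Prop,
        (∀ A : Finset (Fin k → Fin n), W A ↔
          ∃ f : Fin k → Fin n → Fin n,
            (∀ j, (∃ c : Fin n, f j = fun _ => c) ∨ f j = id ∨ f j = Fin.rev) ∧
            (∃ j, f j = id ∨ f j = Fin.rev) ∧
            ∀ t : Fin n, (fun j => f j t) ∈ A) →
        (n < N → WinSet k n W) ∧ (N ≤ n → DrawSet k n W) := by
  obtain ⟨N, h1, h2⟩ := h
  refine ⟨N, fun n hn W hW => ?_⟩
  have hW' : W = WonL k n := by
    funext A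
    exact propext (won_iff W hW A)
  rw [hW']
  exact ⟨h1 n hn, h2 n hn⟩

end Pool.Agent.TTT
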