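import Mathlib

/-!
Maker-Breaker games on families of finite sets, residual form: the claimed cells of Maker are
removed from the sets, the sets which meet Breaker's cells are thrown away.  `MW H`: Maker, to move,
wins the game with the family `H`; `BW H`: he does not (so Breaker, second, wins).
-/

set_option autoImplicit false

namespace Pool.Agent.TTT

open Finset

/-- Maker claims `c`. -/
def play {α : Type*} [DecidableEq α] (c : α) (H : Set (Finset α)) : Set (Finset α) :=
  {e | ∃ f ∈ H, e = f.erase c}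

/-- Breaker claims `d`. -/
def kill {α : Type*} (d : α) (H : Set (Finset α)) : Set (Finset α) :=
  {e | e ∈ H ∧ d ∉ e}

/-- Maker, to move, wins. -/
inductive MW {α : Type*} [DecidableEq α] : Set (Finset α) → Prop
  | win (H : Set (Finset α)) : ∅ ∈ H → MW H
  | move (H : Set (Finset α)) (c : α) : (∀ d, MW (kill d (play c H))) → MW H

/-- Breaker, moving second, wins. -/
def BW {α : Type*} [DecidableEq α] (H : Set (Finset α)) : Prop := ¬ MW H

variable {α β : Type*} [DecidableEq α] [DecidableEq β]

/-- `H'` is at least as good as `H` for Maker. -/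
def Dom (H H' : Set (Finset α)) : Prop := ∀ e ∈ H, ∃ e' ∈ H', e' ⊆ e

theorem Dom.refl (H : Set (Finset α)) : Dom H H := fun e he => ⟨e, he, Subset.refl _⟩

theorem Dom.of_subset {H H' : Set (Finset α)} (h : H ⊆ H') : Dom H H' :=
  fun e he => ⟨e, h he, Subset.refl _⟩

theorem Dom.step {H H' : Set (Finset α)} (h : Dom H H') (c d : α) :
    Dom (kill d (play c H)) (kill d (play c H')) := by
  rintro e ⟨⟨f, hf, rfl⟩, hd⟩
  obtain ⟨f', hf', hs⟩ := h f hf
  exact ⟨f'.erase c, ⟨⟨f', hf', rfl⟩, fun h' => hd (erase_subset_erase _ hs h')⟩,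
    erase_subset_erase _ hs⟩

theorem MW.mono {H : Set (Finset α)} (h : MW H) : ∀ H', Dom H H' → MW H' := by
  induction h with
  | win H h0 =>
    intro H' hd
    obtain ⟨e', he', hs⟩ := hd ∅ h0
    have : e' = ∅ := subset_empty.1 hs
    exact .win _ (this ▸ he')
  | move H c _ ih =>
    intro H' hd
    exact .move _ c fun d => ih d _ (hd.step c d)

theorem BW.mono {H H' : Set (Finset α)} (h : BW H') (hd : Dom H H') : BW H :=
  fun hm => h (hm.mono _ hd)

theorem BW.empty_not_mem {H : Set (Finset α)} (h : BW H) : ∅ ∉ H := fun h0 => h (.win _ h0)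

theorem BW.reply {H : Set (Finset α)} (h : BW H) (c : α) : ∃ d, BW (kill d (play c H)) := by
  by_contra hc
  push Not at hc
  exact h (.move _ c fun d => by
    have := hc d
    unfold BW at this
    exact not_not.1 this)

theorem BW.empty : BW (∅ : Set (Finset α)) := by
  intro h
  have key : ∀ H : Set (Finset α), MW H → H = ∅ → False := by
    intro H h
    induction h with
    | win H h0 => intro h; rw [h] at h0; exact h0
    | move H c _ ih =>
      intro h
      refine ih c ?_
      subst h
      ext e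
      simp [kill, play]
  exact key _ h rfl

/-- It is enough to answer moves in the union of the sets. -/
theorem BW.intro {H : Set (Finset α)} (h0 : ∅ ∉ H)
    (h : ∀ c, (∃ e ∈ H, c ∈ e) → ∃ d, BW (kill d (play c H))) : BW H := by
  intro hm
  cases hm with
  | win _ h1 => exact h0 h1
  | move _ c hc =>
    by_cases hcc : ∃ e ∈ H, c ∈ e
    · obtain ⟨d, hd⟩ := h c hcc
      exact hd (hc d)
    · by_cases hne : ∃ e, e ∈ H
      · obtain ⟨e, he⟩ := hne
        have : e.Nonempty := by
          rw [nonempty_iff_ne_empty]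
          rintro rfl
          exact h0 he
        obtain ⟨c', hc'⟩ := this
        obtain ⟨d, hd⟩ := h c' ⟨e, he, hc'⟩
        refine hd ((hc d).mono _ ?_)
        rintro e' ⟨⟨f, hf, rfl⟩, hd'⟩
        have hcf : c ∉ f := fun h' => hcc ⟨f, hf, h'⟩
        rw [erase_eq_of_notMem hcf] at hd' ⊢
        exact ⟨f.erase c', ⟨⟨f, hf, rfl⟩, fun h' => hd' (erase_subset _ _ h')⟩, erase_subset _ _⟩
      · push Not at hne
        have hH : H = ∅ := Set.eq_empty_of_forall_notMem hne
        subst hH
        have h1 := hc c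
        have h2 : kill c (play c (∅ : Set (Finset α))) = ∅ := by
          ext e
          simp [kill, play]
        rw [h2] at h1
        exact BW.empty h1

/-- The sum of two games on disjoint boards. -/
theorem MW.sum {H : Set (Finset α)} (h : MW H) :
    ∀ H1 H2 : Set (Finset α), (∀ e1 ∈ H1, ∀ e2 ∈ H2, Disjoint e1 e2) → Dom H (H1 ∪ H2) →
      MW H1 ∨ MW H2 := by
  induction h with
  | win H h0 =>
    intro H1 H2 _ hd
    obtain ⟨e', he', hs⟩ := hd ∅ h0
    have : e' = ∅ := subset_empty.1 hs
    subst this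
    rcases he' with h | h
    · exact Or.inl (.win _ h)
    · exact Or.inr (.win _ h)
  | move H c _ ih =>
    intro H1 H2 hdis hd
    by_contra hcon
    push Not at hcon
    obtain ⟨hn1, hn2⟩ := hcon
    by_cases hc : ∃ e ∈ H1, c ∈ e
    · obtain ⟨e0, he0, hce0⟩ := hc
      have hc2 : ∀ e2 ∈ H2, c ∉ e2 := fun e2 he2 hce2 =>
        (Finset.disjoint_left.1 (hdis e0 he0 e2 he2)) hce0 hce2
      refine hn1 (.move _ c fun d => ?_)
      refine (ih d (kill d (play c H1)) H2 ?_ ?_).resolve_right hn2
      · rintro e1 ⟨⟨f, hf, rfl⟩, -⟩ e2 he2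
        exact (hdis f hf e2 he2).mono_left (erase_subset _ _)
      · rintro e ⟨⟨f, hf, rfl⟩, hde⟩
        obtain ⟨f', hf', hs⟩ := hd f hf
        rcases hf' with hf' | hf'
        · exact ⟨f'.erase c, Or.inl ⟨⟨f', hf', rfl⟩,
            fun h' => hde (erase_subset_erase _ hs h')⟩, erase_subset_erase _ hs⟩
        · exact ⟨f', Or.inr hf', subset_erase.2 ⟨hs, hc2 f' hf'⟩⟩
    · push Not at hc
      refine hn2 (.move _ c fun d => ?_)
      refine (ih d H1 (kill d (play c H2)) ?_ ?_).resolve_left hn1
      · rintro e1 he1 e2 ⟨⟨f, hf, rfl⟩, -⟩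
        exact (hdis e1 he1 f hf).mono_right (erase_subset _ _)
      · rintro e ⟨⟨f, hf, rfl⟩, hde⟩
        obtain ⟨f', hf', hs⟩ := hd f hf
        rcases hf' with hf' | hf'
        · exact ⟨f', Or.inl hf', subset_erase.2 ⟨hs, hc f' hf'⟩⟩
        · exact ⟨f'.erase c, Or.inr ⟨⟨f', hf', rfl⟩,
            fun h' => hde (erase_subset_erase _ hs h')⟩, erase_subset_erase _ hs⟩

theorem BW.sum {H H1 H2 : Set (Finset α)} (h1 : BW H1) (h2 : BW H2)
    (hdis : ∀ e1 ∈ H1, ∀ e2 ∈ H2, Disjoint e1 e2) (hd : Dom H (H1 ∪ H2)) : BW H := by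
  intro hm
  rcases hm.sum H1 H2 hdis hd with h | h
  · exact h1 h
  · exact h2 h

/-- The sum of finitely many games. -/
theorem BW.bigsum {ι : Type*} (s : Finset ι) (F : ι → Set (Finset α))
    (hF : ∀ i ∈ s, BW (F i))
    (hdis : ∀ i ∈ s, ∀ j ∈ s, i ≠ j → ∀ e ∈ F i, ∀ e' ∈ F j, Disjoint e e') :
    BW (⋃ i ∈ s, F i) := by
  classical
  induction s using Finset.induction_on with
  | empty => simpa using BW.empty
  | insert a s ha ih =>
    have h1 : BW (F a) := hF a (mem_insert_self _ _)
    have h2 : BW (⋃ i ∈ s, F i) := ih (fun i hi => hF i (mem_insert_of_mem hi))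
      (fun i hi j hj => hdis i (mem_insert_of_mem hi) j (mem_insert_of_mem hj))
    refine BW.sum h1 h2 ?_ ?_
    · intro e he e' he'
      simp only [Set.mem_iUnion, exists_prop] at he'
      obtain ⟨j, hj, he'⟩ := he'
      exact hdis a (mem_insert_self _ _) j (mem_insert_of_mem hj)
        (fun h => ha (h ▸ hj)) e he e' he'
    · apply Dom.of_subset
      intro e he
      simp only [Set.mem_iUnion, mem_insert, exists_prop] at he
      obtain ⟨i, rfl | hi, hei⟩ := he
      · exact Or.inl hei
      · right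
        simp only [Set.mem_iUnion, exists_prop]
        exact ⟨i, hi, hei⟩

/-- Transport along a map which is injective on a set containing all the sets of the family. -/
theorem MW.image {H : Set (Finset α)} (h : MW H) (f : α → β) (S : Set α)
    (hf : Set.InjOn f S) : (∀ e ∈ H, (e : Set α) ⊆ S) → MW ((fun e : Finset α => e.image f) '' H) := by
  induction h with
  | win H h0 =>
    intro _
    exact .win _ ⟨∅, h0, by simp⟩
  | move H c _ ih =>
    intro hS
    have hS' : ∀ d, ∀ e ∈ kill d (play c H), (e : Set α) ⊆ S := by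
      rintro d e ⟨⟨g, hg, rfl⟩, -⟩
      exact (Finset.coe_subset.2 (erase_subset _ _)).trans (hS g hg)
    by_cases hc : c ∈ S
    · refine .move _ (f c) fun d' => ?_
      by_cases hd : ∃ d ∈ S, f d = d'
      · obtain ⟨d, hdS, rfl⟩ := hd
        refine (ih d (hS' d)).mono _ ?_
        apply Dom.of_subset
        rintro _ ⟨e, ⟨⟨g, hg, rfl⟩, hde⟩, rfl⟩
        refine ⟨⟨g.image f, ⟨g, hg, rfl⟩, ?_⟩, ?_⟩
        · ext x
          simp only [mem_image, mem_erase]
          constructor
          · rintro ⟨y, ⟨hy1, hy2⟩, rfl⟩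
            exact ⟨fun h => hy1 (hf (hS g hg hy2) hc h), y, hy2, rfl⟩
          · rintro ⟨hx, y, hy, rfl⟩
            exact ⟨y, ⟨fun h => hx (by rw [h]), hy⟩, rfl⟩
        · intro hmem
          simp only [mem_image] at hmem
          obtain ⟨y, hy, hyd⟩ := hmem
          have hyS : y ∈ S := hS' d _ ⟨⟨g, hg, rfl⟩, hde⟩ hy
          exact hde (hf hyS hdS hyd ▸ hy)
      · refine (ih c (hS' c)).mono _ ?_
        apply Dom.of_subset
        rintro _ ⟨e, ⟨⟨g, hg, rfl⟩, hde⟩, rfl⟩
        refine ⟨⟨g.image f, ⟨g, hg, rfl⟩, ?_⟩, ?_⟩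
        · ext x
          simp only [mem_image, mem_erase]
          constructor
          · rintro ⟨y, ⟨hy1, hy2⟩, rfl⟩
            exact ⟨fun h => hy1 (hf (hS g hg hy2) hc h), y, hy2, rfl⟩
          · rintro ⟨hx, y, hy, rfl⟩
            exact ⟨y, ⟨fun h => hx (by rw [h]), hy⟩, rfl⟩
        · intro hmem
          simp only [mem_image] at hmem
          obtain ⟨y, hy, hyd⟩ := hmem
          exact hd ⟨y, hS g hg (mem_of_mem_erase hy), hyd⟩
    · have h1 := ih c (hS' c)
      refine h1.mono _ ?_
      apply Dom.of_subset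
      rintro _ ⟨e, ⟨⟨g, hg, rfl⟩, -⟩, rfl⟩
      have : c ∉ g := fun h => hc (hS g hg h)
      exact ⟨g, hg, by simp only [erase_eq_of_notMem this]⟩

/-- Breaker wins on a family if he wins on an injective image which is at least as good. -/
theorem BW.comap {H : Set (Finset α)} {H' : Set (Finset β)} (h : BW H') (f : α → β) (S : Set α)
    (hf : Set.InjOn f S) (hS : ∀ e ∈ H, (e : Set α) ⊆ S)
    (hd : ∀ e ∈ H, ∃ e' ∈ H', e' ⊆ e.image f) : BW H := by
  intro hm
  refine h ((hm.image f S hf hS).mono _ ?_)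
  rintro _ ⟨e, he, rfl⟩
  exact hd e he

/-- A two-element set. -/
theorem BW.pair {a b : α} (hab : a ≠ b) : BW ({({a, b} : Finset α)} : Set (Finset α)) := by
  apply BW.intro
  · intro h
    have : (∅ : Finset α) = {a, b} := h
    have h2 : a ∈ (∅ : Finset α) := by rw [this]; simp
    exact absurd h2 (by simp)
  · rintro c ⟨e, he, hce⟩
    have he' : e = {a, b} := he
    subst he'
    simp only [mem_insert, mem_singleton] at hce
    have hE : ∀ d, d ∈ ({a, b} : Finset α) → d ≠ c →
        kill d (play c ({({a, b} : Finset α)} : Set (Finset α))) = ∅ := by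
      intro d hd hdc
      ext e
      simp only [kill, play, Set.mem_singleton_iff, exists_eq_left, Set.mem_ofPred_eq,
        Set.mem_empty_iff_false, iff_false, not_and, not_not]
      rintro rfl
      exact mem_erase.2 ⟨hdc, hd⟩
    rcases hce with rfl | rfl
    · exact ⟨b, by rw [hE b (by simp) hab.symm]; exact BW.empty⟩
    · exact ⟨a, by rw [hE a (by simp) hab]; exact BW.empty⟩

end Pool.Agent.TTT
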