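import Pool.Agent.TTT.B43

/-!
Certified forced wins in positions of the 4 x 4 x 4 board.
-/

set_option autoImplicit false
set_option maxRecDepth 1000000
set_option linter.all false

namespace Pool.Agent.TTT.B43

/-- A certificate. -/
noncomputable def c0 : Ct := (.str 52 (.nv (.thr 7 37 (.thr 23 20 (.thr 42 62 (.thr 55 39 (.thr 59 8 (.thr 51 63 (.dbl 38 4 12))))))) (.nv (.thr 7 37 (.thr 23 20 (.thr 55 39 (.thr 38 4 (.dbl 54 6 53))))) (.nv (.thr 20 23 (.thr 4 36 (.thr 7 37 (.thr 38 55 (.dbl 6 5 54))))) (.rp 55 (.thr 20 23 (.thr 7 37 (.thr 4 36 (.thr 6 5 (.thr 38 54 (.thr 42 62 (.thr 34 46 (.thr 50 18 (.dbl 14 10 26))))))))) (.rp 48 (.str 32 (.nv (.thr 42 62 (.dbl 37 7 47)) (.rp 62 (.thr 37 7 (.thr 53 5 (.thr 20 23 (.thr 4 36 (.dbl 55 38 54))))) (.rp 47 (.thr 37 7 (.thr 53 5 (.thr 20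 23 (.thr 4 36 (.dbl 55 38 54))))) (.rp 42 (.thr 37 7 (.thr 53 5 (.thr 20 23 (.thr 4 36 (.dbl 55 38 54))))) (.rp 37 (.thr 20 23 (.thr 4 36 (.thr 38 55 (.thr 6 54 (.thr 14 10 (.thr 26 50 (.thr 62 42 (.dbl 30 18 46)))))))) (.rp 33 (.str 18 (.nv (.thr 42 62 (.dbl 37 7 47)) (.rp 62 (.thr 50 34 (.thr 20 23 (.thr 4 36 (.thr 38 55 (.dbl 26 14 30))))) (.rp 47 (.thr 34 50 (.thr 20 23 (.thr 4 36 (.thr 38 55 (.dbl 42 46 62))))) (.rp 42 (.thr 50 34 (.thr 20 23 (.thr 4 36 (.thr 38 55 (.dbl 26 14 30))))) (.rp 37 (.thr 34 50 (.thr 20 23 (.thr 4 36 (.thr 38 55 (.dbl 42 46 62))))) (.rp 7 (.thr 34 50 (.thr 20 23 (.thr 4 36 (.thr 42 62 (.dbl 38 46 55))))) .nd))))))) (.rp 18 (.str 33 (.nv (.thr 42 62 (.dbl 37 7 47)) (.rp 62 (.thr 37 7 (.thr 53 5 (.thr 20 23 (.thr 4 36 (.dbl 55 38 54))))) (.rp 47 (.thr 34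 35 (.thr 20 23 (.thr 4 36 (.thr 38 55 (.dbl 42 46 62))))) (.rp 42 (.thr 37 7 (.thr 53 5 (.thr 20 23 (.thr 4 36 (.dbl 55 38 54))))) (.rp 37 (.thr 34 35 (.thr 20 23 (.thr 4 36 (.thr 38 55 (.dbl 42 46 62))))) (.rp 7 (.thr 34 35 (.thr 20 23 (.thr 4 36 (.thr 42 62 (.dbl 38 46 55))))) .nd))))))) (.rp 7 (.thr 20 23 (.thr 4 36 (.thr 55 38 (.thr 53 54 (.thr 37 5 (.dbl 42 47 62)))))) .nd))))))))) (.rp 38 (.thr 20 23 (.thr 37 7 (.thr 36 4 (.thr 42 62 (.thr 8 59 (.thr 32 47 (.thr 40 44 (.thr 24 56 (.thr 26 27 (.dbl 48 12 15)))))))))) (.rp 37 (.thr 20 23 (.thr 4 36 (.thr 38 55 (.thr 6 54 (.thr 14 10 (.thr 26 50 (.thr 30 18 (.dbl 62 42 46)))))))) (.rp 32 (.str 48 (.nv (.thr 28 19 (.thr 60 56 (.thr 12 44 (.thr 36 24 (.dbl 20 4 23))))) (.nv (.thr 37 7 (.thr 60 56 (.thr 62 42 (.thr 63 61 (.dbl 53 5 58)))))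 (.nv (.thr 20 23 (.thr 36 4 (.thr 12 24 (.thr 38 51 (.dbl 37 7 39))))) .nd)))) (.rp 23 (.thr 37 7 (.thr 53 5 (.thr 55 54 (.thr 42 62 (.thr 59 8 (.thr 63 51 (.thr 58 48 (.thr 32 47 (.thr 57 56 (.dbl 49 13 61)))))))))) (.rp 20 (.thr 37 7 (.thr 53 5 (.thr 55 54 (.thr 42 62 (.thr 59 8 (.thr 51 63 (.dbl 38 4 12))))))) (.rp 7 (.thr 20 23 (.thr 4 36 (.thr 55 38 (.thr 53 54 (.thr 37 5 (.thr 42 62 (.thr 59 8 (.thr 63 51 (.thr 58 48 (.thr 32 47 (.thr 57 56 (.dbl 49 13 61)))))))))))) (.rp 4 (.thr 23 20 (.thr 7 37 (.thr 55 39 (.thr 54 53 (.thr 38 6 (.thr 62 42 (.thr 50 58 (.thr 26 14 (.dbl 18 30 34))))))))) .nd)))))))))))))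

theorem w0 : WinAt (39976964, 536936459) :=
  chF (K := []) kn c0 39976964 536936459 29
    [281479271743489] (by decide +kernel) (by decide +kernel)

/-- A certificate. -/
noncomputable def c1 : Ct := (.thr 17 29 .ext)

theorem w1 : WinAt (39845892, 65547) :=
  chF (K := [(39976964, 536936459)]) (kc w0 kn) c1 39845892 65547 16
    [281479271743489] (by decide +kernel) (by decide +kernel)

/-- A certificate. -/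
noncomputable def c2 : Ct := (.str 2 (.nv (.thr 20 23 (.thr 28 19 (.thr 16 24 (.thr 29 17 (.dbl 31 26 30))))) (.nv (.thr 23 20 (.thr 19 28 (.thr 31 27 (.thr 16 26 (.dbl 17 18 29))))) (.rp 31 (.str 18 (.nv (.thr 19 28 (.dbl 17 16 29)) (.rp 30 (.thr 23 20 (.thr 50 34 (.thr 62 42 (.thr 54 58 (.thr 38 6 (.thr 55 4 (.thr 52 53 (.dbl 7 37 39)))))))) (.rp 29 (.thr 50 34 (.thr 62 42 (.thr 54 58 (.thr 38 6 (.dbl 26 14 30))))) (.rp 28 (.thr 50 34 (.thr 62 42 (.thr 54 58 (.thr 38 6 (.dbl 26 14 30))))) (.rp 19 (.thr 26 30 (.thr 50 34 (.thr 14 38 (.thr 10 6 (.dbl 42 58 62))))) (.rp 17 (.thr 26 30 (.thr 42 62 (.thr 10 58 (.thr 14 6 (.dbl 50 34 38))))) (.rp 16 (.thr 26 30 (.thr 50 34 (.thr 14 38 (.thr 10 6 (.dbl 42 58 62))))) .nd)))))))) (.rp 29 (.thr 23 20 (.thr 19 28 (.thr 31 27 (.thr 16 26 (.thr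 18 17 (.thr 34 50 (.thr 42 62 (.thr 38 46 (.thr 54 6 (.thr 55 4 (.thr 52 53 (.dbl 7 37 39)))))))))))) (.rp 28 (.str 18 (.nv (.thr 50 34 (.thr 62 42 (.thr 54 58 (.thr 38 6 (.dbl 26 14 30))))) (.nv (.thr 26 30 (.thr 42 62 (.thr 10 58 (.thr 14 6 (.dbl 50 34 38))))) (.nv (.thr 17 29 (.thr 16 19 (.dbl 26 30 31))) (.rp 30 (.thr 23 20 (.thr 50 34 (.thr 62 42 (.thr 54 58 (.thr 38 6 (.thr 55 4 (.thr 52 53 (.dbl 7 37 39)))))))) (.rp 26 (.thr 23 20 (.thr 34 50 (.thr 42 62 (.thr 38 46 (.thr 54 6 (.thr 55 4 (.thr 52 53 (.dbl 7 37 39)))))))) .nd)))))) (.rp 27 (.thr 20 23 (.thr 29 17 (.thr 28 19 (.thr 31 30 (.dbl 16 24 26))))) (.rp 26 (.thr 20 23 (.thr 19 28 (.thr 17 29 (.thr 18 16 (.thr 34 50 (.thr 42 62 (.thr 38 46 (.thr 4 55 (.thr 52 36 (.thr 7 37 (.dbl 6 5 54))))))))))) (.rp 24 (.thr 23 20 (.thr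 17 29 (.thr 19 28 (.thr 16 18 (.dbl 31 26 27))))) (.rp 23 (.thr 19 28 (.thr 17 29 (.thr 18 16 (.thr 50 34 (.thr 62 42 (.thr 54 58 (.thr 38 6 (.dbl 26 14 30)))))))) (.rp 20 (.thr 28 19 (.thr 29 17 (.thr 30 31 (.thr 62 42 (.thr 14 46 (.thr 6 10 (.thr 38 54 (.dbl 26 18 50)))))))) (.rp 19 (.thr 17 29 (.str 38 (.nv (.thr 23 20 (.thr 54 6 (.thr 55 4 (.thr 7 39 (.dbl 52 37 53))))) (.nv (.thr 6 54 (.thr 14 10 (.thr 26 50 (.thr 62 42 (.dbl 30 18 46))))) (.rp 54 (.thr 20 23 (.thr 4 55 (.thr 52 36 (.thr 7 37 (.thr 6 5 (.thr 42 62 (.thr 34 46 (.thr 50 18 (.dbl 14 10 26))))))))) (.rp 51 (.str 35 (.nv (.thr 4 55 (.thr 6 54 (.thr 20 23 (.thr 52 36 (.dbl 7 5 37))))) (.nv (.thr 54 6 (.thr 62 42 (.thr 50 58 (.thr 26 14 (.dbl 18 30 34))))) (.rp 54 (.thr 23 20 (.thr 55 4 (.thr 39 7 (.thr 41 44 (.thr 43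 47 (.dbl 42 40 62)))))) (.rp 6 (.thr 55 4 (.thr 41 44 (.thr 42 62 (.thr 43 40 (.thr 39 47 (.dbl 23 7 20)))))) .nd))))) (.rp 35 (.thr 51 12 (.thr 20 23 (.thr 6 54 (.thr 4 55 (.thr 7 5 (.dbl 52 36 37)))))) (.rp 6 (.thr 23 20 (.thr 55 4 (.thr 7 39 (.thr 52 37 (.thr 54 53 (.thr 62 42 (.thr 50 58 (.thr 18 34 (.dbl 26 14 30))))))))) .nd)))))))) (.rp 17 (.str 51 (.nv (.thr 38 12 (.thr 6 54 (.thr 14 10 (.thr 26 50 (.thr 30 18 (.dbl 62 42 46)))))) (.nv (.thr 38 12 (.thr 4 55 (.thr 6 54 (.thr 7 5 (.thr 52 37 (.dbl 20 23 36)))))) (.nv (.thr 42 62 (.thr 59 8 (.thr 55 63 (.dbl 38 4 12)))) (.rp 49 (.str 33 (.nv (.thr 38 12 (.thr 6 54 (.thr 14 10 (.thr 26 50 (.thr 30 18 (.dbl 62 42 46)))))) (.nv (.thr 38 12 (.thr 4 55 (.thr 6 54 (.thr 7 5 (.thr 52 37 (.dbl 20 23 36)))))) (.nv (.thr 42 62 (.thr 59 8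 (.thr 55 63 (.dbl 38 4 12)))) (.rp 38 (.thr 23 20 (.thr 19 28 (.thr 27 31 (.thr 39 15 (.thr 42 62 (.thr 59 8 (.dbl 55 7 63))))))) (.rp 12 (.thr 23 20 (.thr 19 28 (.thr 27 31 (.thr 39 15 (.thr 7 55 (.thr 37 52 (.thr 41 45 (.thr 42 62 (.thr 47 32 (.dbl 43 35 40)))))))))) (.rp 4 (.thr 42 62 (.thr 8 59 (.thr 38 12 (.thr 6 54 (.thr 14 10 (.thr 50 26 (.dbl 34 18 46))))))) .nd))))))) (.rp 38 (.thr 19 28 (.thr 23 20 (.thr 27 31 (.thr 42 62 (.thr 59 8 (.thr 55 63 (.dbl 39 7 15))))))) (.rp 33 (.str 49 (.nv (.thr 42 62 (.thr 59 8 (.thr 55 63 (.dbl 38 4 12)))) (.nv (.thr 50 48 (.thr 18 34 (.thr 26 30 (.dbl 38 12 14)))) (.rp 48 (.str 18 (.nv (.thr 34 50 (.thr 38 12 (.dbl 42 46 62))) (.nv (.thr 19 28 (.thr 23 20 (.thr 26 30 (.dbl 27 24 31)))) (.nv (.thr 26 30 (.thr 50 34 (.dbl 38 12 14))) (.rp 32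 (.str 16 (.nv (.thr 34 50 (.thr 20 23 (.dbl 28 19 24))) (.nv (.dbl 26 30 31) (.rp 34 (.str 35 (.nv (.thr 20 23 (.dbl 28 19 24)) (.nv (.dbl 26 30 31) .nd))) .nd)))) (.rp 16 (.str 32 (.nv (.thr 26 30 (.thr 38 12 (.dbl 50 14 34))) (.nv (.thr 42 62 (.dbl 37 13 47)) .nd))) .nd)))))) (.rp 38 (.thr 28 19 (.thr 20 23 (.thr 16 24 (.thr 50 48 (.thr 18 34 (.dbl 26 30 31)))))) (.rp 18 (.thr 48 50 (.thr 20 23 (.thr 12 38 (.thr 24 36 (.dbl 28 16 19))))) (.rp 12 (.thr 28 19 (.thr 20 23 (.thr 16 24 (.thr 48 50 (.thr 37 13 (.dbl 26 15 31)))))) .nd))))))) (.rp 12 (.thr 19 28 (.thr 23 20 (.thr 27 31 (.thr 42 62 (.thr 39 15 (.thr 7 55 (.thr 37 52 (.thr 47 32 (.thr 43 35 (.dbl 59 8 11)))))))))) (.rp 4 (.thr 42 62 (.thr 8 59 (.thr 38 12 (.thr 6 54 (.thr 14 10 (.thr 50 26 (.dbl 34 18 46))))))) .nd)))))))))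 (.rp 16 .ext .nd))))))))))))))

theorem w2 : WinAt (39845888, 11) :=
  chF (K := [(39845892, 65547)]) (kc w1 kn) c2 39845888 11 3
    [] (by decide +kernel) (by decide +kernel)

/-- A certificate. -/
noncomputable def c3 : Ct := (.str 25 (.nv (.thr 17 29 (.thr 19 28 (.thr 16 18 (.thr 31 26 (.dbl 23 20 27))))) (.rp 31 (.str 3 (.nv (.thr 19 28 (.thr 29 17 (.thr 51 35 (.thr 12 38 (.thr 63 46 (.dbl 23 20 43)))))) (.nv (.thr 23 20 (.thr 29 17 (.thr 63 43 (.thr 12 46 (.thr 6 9 (.dbl 38 51 54)))))) (.nv (.thr 19 28 (.thr 51 35 (.thr 12 38 (.thr 9 6 (.dbl 41 57 60))))) (.rp 51 (.thr 23 20 (.thr 28 19 (.thr 63 43 (.thr 60 41 (.thr 12 44 (.dbl 29 17 46)))))) (.rp 38 (.thr 23 20 (.thr 28 19 (.thr 29 17 (.thr 63 43 (.thr 12 46 (.dbl 60 41 44)))))) (.rp 29 (.thr 28 19 (.thr 60 41 (.thr 12 44 (.thr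 6 9 (.dbl 38 51 54))))) (.rp 12 (.thr 23 20 (.thr 19 28 (.thr 51 35 (.thr 63 43 (.thr 55 59 (.thr 60 41 (.thr 54 57 (.dbl 38 4 6)))))))) .nd)))))))) (.rp 30 (.thr 17 29 (.thr 23 20 (.thr 19 28 (.thr 31 27 (.dbl 16 18 26))))) (.rp 29 (.thr 23 20 (.str 3 (.nv (.thr 19 28 (.thr 51 35 (.thr 63 43 (.thr 55 59 (.thr 39 7 (.dbl 27 15 31)))))) (.nv (.thr 60 41 (.thr 28 19 (.thr 12 44 (.thr 38 51 (.dbl 6 9 54))))) (.rp 60 (.str 40 (.nv (.thr 19 28 (.thr 51 35 (.thr 63 43 (.thr 55 59 (.dbl 38 4 12))))) (.nv (.thr 43 63 (.thr 42 41 (.thr 59 8 (.thr 27 11 (.dbl 19 28 31))))) (.nv (.thr 19 28 (.thr 51 35 (.thr 12 38 (.thr 9 6 (.thr 41 57 (.dbl 43 42 63)))))) (.rp 63 (.thr 19 28 (.thr 51 35 (.thr 12 38 (.thr 9 6 (.thr 41 57 (.thr 42 43 (.thr 8 59 (.thr 11 10 (.dbl 56 24 26))))))))) (.rp 43 (.thr 19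 28 (.thr 31 27 (.thr 16 26 (.thr 18 17 (.thr 51 35 (.thr 48 33 (.thr 49 50 (.thr 37 13 (.thr 7 52 (.thr 39 55 (.dbl 38 12 36))))))))))) (.rp 31 (.thr 43 63 (.thr 41 42 (.thr 9 57 (.thr 12 6 (.thr 51 38 (.dbl 19 28 35)))))) (.rp 28 (.thr 43 63 (.thr 42 41 (.thr 59 8 (.thr 27 11 (.thr 31 19 (.dbl 26 16 24)))))) (.rp 19 (.thr 43 63 (.thr 42 41 (.thr 59 8 (.thr 11 27 (.thr 7 15 (.thr 37 52 (.thr 47 32 (.dbl 39 35 55)))))))) (.rp 12 (.thr 28 19 (.thr 63 43 (.str 8 (.nv (.thr 24 56 (.thr 26 27 (.thr 18 30 (.thr 48 33 (.thr 58 53 (.dbl 42 10 59)))))) (.nv (.thr 24 56 (.thr 26 27 (.thr 31 16 (.thr 18 30 (.thr 15 47 (.dbl 48 33 37)))))) (.nv (.thr 59 42 (.thr 55 51 (.thr 38 4 (.thr 54 6 (.thr 52 53 (.dbl 7 37 39)))))) (.rp 59 (.str 11 (.nv (.thr 15 7 (.thr 24 56 (.thr 26 27 (.dbl 31 16 47))))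 (.nv (.thr 7 15 (.thr 55 39 (.thr 4 38 (.thr 5 6 (.dbl 37 52 53))))) (.nv (.thr 56 24 (.thr 41 26 (.dbl 9 10 57))) .nd)))) (.rp 52 (.thr 59 42 (.thr 56 24 (.thr 57 58 (.thr 9 41 (.thr 55 51 (.thr 7 39 (.dbl 11 10 15))))))) .nd)))))))) .nd)))))))))) (.rp 51 (.thr 19 28 (.thr 31 27 (.thr 63 43 (.thr 15 47 (.thr 60 41 (.thr 30 45 (.dbl 26 16 18))))))) (.rp 28 (.thr 63 43 (.thr 60 41 (.thr 62 61 (.thr 42 2 (.thr 59 8 (.thr 51 55 (.thr 54 57 (.dbl 38 6 12)))))))) (.rp 19 (.thr 63 43 (.thr 60 41 (.thr 62 61 (.thr 42 2 (.thr 59 8 (.thr 51 55 (.thr 54 57 (.dbl 38 6 12)))))))) .nd)))))))) (.rp 28 (.str 3 (.nv (.thr 29 17 (.thr 41 60 (.thr 9 57 (.thr 12 6 (.thr 63 46 (.dbl 23 20 43)))))) (.nv (.thr 23 20 (.thr 29 17 (.thr 63 43 (.thr 12 46 (.thr 6 9 (.dbl 38 51 54)))))) (.nv (.thr 23 20 (.thr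 29 17 (.thr 63 43 (.thr 12 46 (.thr 9 6 (.dbl 41 57 60)))))) (.rp 63 (.thr 17 29 (.thr 41 60 (.thr 9 57 (.thr 12 6 (.thr 51 38 (.thr 19 35 (.thr 16 18 (.thr 31 26 (.dbl 23 20 27))))))))) (.rp 60 (.thr 20 23 (.str 12 (.nv (.thr 38 51 (.dbl 6 9 54)) (.nv (.thr 6 9 (.dbl 38 51 54)) (.rp 54 (.thr 17 29 (.thr 51 38 (.thr 19 35 (.thr 18 16 (.thr 48 33 (.thr 24 36 (.dbl 26 27 30))))))) (.rp 51 (.thr 9 6 (.thr 57 41 (.str 37 (.nv (.thr 52 7 (.thr 4 36 (.thr 53 5 (.dbl 55 38 54)))) (.nv (.thr 17 29 (.thr 7 52 (.thr 13 49 (.dbl 15 11 14)))) (.nv (.thr 49 13 (.dbl 53 5 61)) (.rp 17 (.str 34 (.nv (.thr 7 52 (.thr 15 11 (.dbl 13 14 49))) (.nv (.thr 49 13 (.dbl 53 5 61)) (.rp 49 (.str 33 (.nv (.thr 32 35 (.thr 42 47 (.thr 2 62 (.dbl 18 48 50)))) (.nv (.thr 48 18 (.thr 36 24 (.dbl 52 4 7))) (.rp 48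 (.str 50 (.nv (.thr 52 7 (.thr 4 36 (.thr 53 5 (.dbl 55 38 54)))) (.nv (.thr 2 18 (.thr 42 62 (.dbl 32 35 47))) (.rp 52 (.str 56 (.nv (.thr 2 18 (.thr 42 62 (.dbl 59 8 58))) (.nv (.thr 32 35 (.thr 42 47 (.dbl 2 18 62))) (.nv (.thr 59 58 (.thr 42 8 (.dbl 32 35 47))) (.rp 42 (.thr 18 2 (.thr 26 30 (.thr 14 38 (.thr 24 27 (.thr 15 13 (.thr 11 7 (.dbl 8 10 40))))))) (.rp 32 (.str 16 (.nv (.thr 26 31 (.thr 59 58 (.thr 8 42 (.dbl 24 27 40)))) (.nv (.thr 2 18 (.thr 42 62 (.dbl 59 8 58))) (.nv (.thr 18 2 (.dbl 26 30 31)) .nd)))) .nd)))))) (.rp 32 (.str 16 (.nv (.thr 52 7 (.thr 4 36 (.thr 55 38 (.dbl 53 5 54)))) (.nv (.thr 18 2 (.dbl 26 30 31)) (.rp 52 (.str 56 (.nv (.thr 26 31 (.thr 59 58 (.thr 8 42 (.dbl 24 27 40)))) (.nv (.thr 2 18 (.thr 42 62 (.dbl 59 8 58))) (.nv (.thr 18 2 (.dbl 26 30 31))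 .nd)))) .nd)))) (.rp 16 (.thr 32 35 (.thr 42 47 (.dbl 2 18 62))) .nd)))))) (.rp 18 (.thr 53 5 (.thr 52 7 (.thr 4 36 (.dbl 55 38 54)))) .nd))))) (.rp 13 (.thr 53 5 (.thr 52 7 (.thr 4 36 (.dbl 55 38 54)))) .nd))))) .nd))))))) (.rp 38 (.str 18 (.nv (.thr 48 33 (.thr 36 24 (.thr 52 4 (.thr 37 7 (.dbl 26 15 30))))) (.nv (.thr 17 29 (.thr 16 19 (.dbl 26 30 31))) (.rp 30 (.thr 48 33 (.thr 36 24 (.thr 52 4 (.thr 37 7 (.thr 15 26 (.dbl 13 14 49)))))) (.rp 26 (.thr 17 29 (.thr 19 16 (.thr 48 33 (.thr 36 24 (.thr 52 4 (.thr 37 7 (.thr 49 13 (.dbl 51 35 50)))))))) (.rp 17 (.thr 26 30 (.thr 24 27 (.dbl 48 33 36))) .nd)))))) (.rp 9 (.thr 38 51 (.thr 4 55 (.thr 52 36 (.thr 7 37 (.dbl 6 5 54))))) (.rp 6 (.thr 17 29 (.thr 51 38 (.thr 19 35 (.thr 18 16 (.thr 48 33 (.thr 24 36 (.dbl 26 27 30))))))) .nd)))))))))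 (.rp 51 (.thr 23 20 (.thr 17 29 (.thr 60 41 (.str 26 (.nv (.thr 30 18 (.thr 15 45 (.thr 63 43 (.dbl 31 16 47)))) (.nv (.thr 24 27 (.thr 30 18 (.thr 31 16 (.thr 63 43 (.dbl 15 45 47))))) (.nv (.thr 30 18 (.thr 15 45 (.thr 7 11 (.dbl 37 48 52)))) (.rp 45 (.thr 24 27 (.thr 31 16 (.thr 18 30 (.thr 63 43 (.thr 15 47 (.dbl 48 33 37)))))) (.rp 30 (.thr 31 16 (.thr 24 27 (.thr 63 43 (.thr 62 61 (.thr 15 47 (.thr 48 37 (.thr 58 53 (.dbl 42 2 10)))))))) (.rp 24 (.thr 16 31 (.thr 30 18 (.thr 15 45 (.thr 7 11 (.dbl 37 48 52))))) (.rp 18 (.thr 63 43 (.thr 62 61 (.thr 42 2 (.thr 59 8 (.thr 58 10 (.thr 56 57 (.dbl 48 52 53))))))) (.rp 16 (.thr 24 27 (.thr 30 18 (.thr 15 45 (.thr 7 11 (.dbl 37 48 52))))) (.rp 15 (.thr 30 18 (.thr 63 43 (.thr 62 61 (.thr 42 2 (.thr 14 46 (.thr 50 38 (.dbl 58 10 54)))))))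 .nd))))))))))))) (.rp 49 (.thr 23 20 (.thr 63 43 (.thr 60 41 (.thr 62 61 (.thr 42 2 (.thr 59 8 (.thr 51 55 (.thr 12 38 (.dbl 29 17 46))))))))) (.rp 46 (.thr 23 20 (.thr 63 43 (.thr 60 41 (.thr 62 61 (.thr 42 2 (.thr 59 8 (.thr 51 55 (.thr 54 57 (.dbl 38 6 12))))))))) (.rp 43 (.thr 17 29 (.thr 41 60 (.thr 9 57 (.thr 12 6 (.thr 51 38 (.thr 19 35 (.thr 16 18 (.thr 31 26 (.dbl 23 20 27))))))))) (.rp 40 (.thr 20 23 (.thr 17 29 (.thr 41 60 (.thr 9 57 (.thr 12 6 (.thr 51 38 (.thr 19 35 (.thr 18 16 (.thr 48 33 (.thr 24 36 (.dbl 26 27 30))))))))))) (.rp 34 (.thr 23 20 (.thr 63 43 (.thr 60 41 (.thr 62 61 (.thr 42 2 (.thr 59 8 (.thr 29 17 (.thr 51 55 (.dbl 12 38 46))))))))) (.rp 33 (.thr 23 20 (.thr 63 43 (.thr 60 41 (.thr 62 61 (.thr 42 2 (.thr 59 8 (.thr 51 55 (.thr 54 57 (.dbl 38 6 12)))))))))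 (.rp 29 (.thr 23 20 (.thr 63 43 (.thr 60 41 (.thr 62 61 (.thr 42 2 (.thr 59 8 (.thr 51 55 (.thr 54 57 (.dbl 38 6 12))))))))) (.rp 23 (.thr 17 29 (.thr 41 60 (.thr 9 57 (.thr 12 6 (.thr 51 38 (.thr 19 35 (.thr 18 16 (.thr 48 33 (.thr 24 36 (.dbl 26 27 30)))))))))) (.rp 20 (.thr 17 29 (.thr 60 41 (.str 16 (.nv (.thr 18 19 (.dbl 26 30 31)) (.rp 31 (.str 30 (.nv (.dbl 18 19 26) (.rp 26 (.thr 19 18 (.thr 51 35 (.thr 54 57 (.dbl 38 6 12)))) (.rp 19 (.thr 26 18 (.thr 15 45 (.thr 7 11 (.dbl 37 48 52)))) (.rp 18 (.thr 15 45 (.thr 7 11 (.thr 37 52 (.thr 13 49 (.thr 12 14 (.thr 6 9 (.dbl 5 4 53))))))) .nd))))) (.rp 30 (.thr 31 26 (.thr 19 18 (.thr 51 35 (.thr 54 57 (.dbl 38 6 12))))) (.rp 26 (.thr 19 18 (.thr 51 35 (.thr 54 57 (.dbl 38 6 12)))) (.rp 19 (.thr 26 31 (.thr 30 18 (.thr 15 45 (.thr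 7 11 (.dbl 37 48 52))))) (.rp 18 (.str 15 (.nv (.thr 7 11 (.thr 26 31 (.thr 30 45 (.dbl 37 48 52)))) (.nv (.thr 7 11 (.thr 37 52 (.dbl 26 31 48))) (.rp 52 (.thr 26 31 (.thr 30 45 (.thr 27 24 (.thr 51 39 (.thr 54 57 (.dbl 38 6 12)))))) (.rp 48 (.thr 26 31 (.thr 30 45 (.thr 27 24 (.thr 51 39 (.thr 54 57 (.dbl 38 6 12)))))) (.rp 37 (.thr 31 26 (.thr 63 47 (.thr 23 43 (.thr 27 19 (.thr 39 51 (.dbl 7 11 55)))))) (.rp 31 (.thr 30 45 (.thr 7 11 (.thr 37 52 (.thr 13 49 (.thr 12 14 (.thr 6 9 (.dbl 5 4 53))))))) (.rp 30 (.thr 31 26 (.thr 63 47 (.thr 23 43 (.thr 27 19 (.thr 39 51 (.dbl 7 11 55)))))) (.rp 26 (.thr 11 7 (.str 12 (.nv (.thr 38 51 (.dbl 6 9 54)) (.rp 54 (.thr 9 6 (.thr 8 10 (.thr 51 38 (.thr 27 39 (.dbl 59 42 43))))) (.rp 51 (.thr 14 13 (.thr 9 6 (.thr 8 10 (.thr 42 59 (.thr 62 2 (.dbl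 30 45 46)))))) (.rp 38 (.thr 14 13 (.thr 9 6 (.thr 8 10 (.thr 42 59 (.thr 62 2 (.dbl 30 45 46)))))) (.rp 31 (.thr 30 45 (.thr 6 9 (.dbl 38 51 54))) (.rp 30 (.str 31 (.nv (.thr 51 38 (.thr 27 39 (.dbl 19 23 35))) (.nv (.thr 38 51 (.dbl 6 9 54)) (.rp 51 (.thr 9 6 (.thr 8 10 (.thr 42 59 (.thr 63 47 (.dbl 62 2 61))))) (.rp 38 (.thr 9 6 (.thr 8 10 (.thr 42 59 (.thr 63 47 (.dbl 62 2 61))))) .nd))))) (.rp 9 (.thr 51 38 (.thr 27 39 (.thr 43 59 (.thr 23 63 (.dbl 19 31 35))))) (.rp 6 (.thr 51 38 (.thr 27 39 (.thr 43 59 (.thr 23 63 (.dbl 19 31 35))))) .nd)))))))))) (.rp 11 (.thr 26 31 (.thr 30 45 (.thr 27 24 (.thr 51 39 (.thr 54 57 (.dbl 38 6 12)))))) (.rp 7 (.thr 26 31 (.thr 30 45 (.thr 27 24 (.thr 51 39 (.thr 54 57 (.dbl 38 6 12)))))) .nd))))))))))) .nd))))))))) (.rp 17 (.thr 23 20 (.thr 63 43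 (.thr 60 41 (.thr 62 61 (.thr 42 2 (.thr 59 8 (.thr 51 55 (.thr 54 57 (.dbl 38 6 12))))))))) (.rp 12 (.thr 23 20 (.thr 29 17 (.thr 63 43 (.thr 60 41 (.thr 61 62 (.thr 45 13 (.thr 15 30 (.thr 31 47 (.thr 27 19 (.dbl 26 16 24)))))))))) (.rp 9 (.thr 23 20 (.thr 29 17 (.thr 63 43 (.thr 12 46 (.thr 51 38 (.thr 55 59 (.thr 39 7 (.thr 27 15 (.dbl 19 31 35))))))))) (.rp 6 (.thr 23 20 (.thr 29 17 (.thr 63 43 (.thr 12 46 (.thr 51 38 (.thr 55 59 (.thr 39 7 (.thr 27 15 (.dbl 19 31 35))))))))) .nd)))))))))))))))))))) (.rp 27 (.thr 29 17 (.thr 20 23 (.thr 28 19 (.thr 31 30 (.dbl 16 24 26))))) (.rp 26 (.str 3 (.nv (.thr 19 28 (.thr 29 17 (.thr 51 35 (.thr 12 38 (.thr 63 46 (.dbl 23 20 43)))))) (.nv (.thr 23 20 (.thr 29 17 (.thr 63 43 (.thr 12 46 (.thr 6 9 (.dbl 38 51 54)))))) (.nv (.thr 19 28 (.thr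 51 35 (.thr 12 38 (.thr 9 6 (.dbl 41 57 60))))) (.rp 51 (.thr 23 20 (.thr 28 19 (.thr 63 43 (.thr 60 41 (.thr 12 44 (.dbl 29 17 46)))))) (.rp 38 (.thr 23 20 (.thr 28 19 (.thr 29 17 (.thr 63 43 (.thr 12 46 (.dbl 60 41 44)))))) (.rp 12 (.thr 23 20 (.thr 19 28 (.thr 27 31 (.thr 51 35 (.thr 15 39 (.thr 11 7 (.dbl 43 59 63))))))) .nd))))))) (.rp 23 (.thr 17 29 (.str 3 (.nv (.thr 19 28 (.thr 18 16 (.thr 48 33 (.thr 60 41 (.thr 52 56 (.thr 37 7 (.dbl 26 15 30))))))) (.nv (.thr 19 28 (.thr 18 16 (.thr 48 33 (.thr 51 35 (.thr 49 50 (.thr 37 13 (.dbl 26 15 30))))))) (.nv (.thr 28 19 (.thr 60 41 (.thr 12 44 (.thr 38 51 (.dbl 6 9 54))))) (.rp 31 (.thr 41 60 (.thr 9 57 (.thr 12 6 (.thr 51 38 (.dbl 19 28 35))))) (.rp 28 (.thr 41 60 (.thr 9 57 (.thr 12 6 (.thr 51 38 (.thr 19 35 (.thr 18 16 (.thr 48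 33 (.thr 24 36 (.dbl 26 27 30))))))))) (.rp 19 (.str 26 (.nv (.thr 18 30 (.thr 24 27 (.thr 31 16 (.thr 48 33 (.thr 12 36 (.thr 6 9 (.dbl 38 51 54))))))) (.nv (.thr 27 24 (.thr 41 60 (.thr 9 57 (.thr 11 56 (.thr 59 43 (.dbl 8 10 42)))))) (.nv (.thr 18 30 (.thr 48 33 (.thr 60 41 (.thr 52 56 (.dbl 37 7 15))))) (.rp 48 (.thr 41 60 (.thr 56 11 (.thr 57 9 (.thr 59 58 (.thr 8 42 (.dbl 24 27 40)))))) (.rp 27 (.thr 31 16 (.thr 18 30 (.thr 48 33 (.thr 15 37 (.thr 11 7 (.dbl 41 56 60)))))) .nd)))))) .nd)))))))) (.rp 20 (.str 60 (.nv (.thr 3 41 (.thr 19 28 (.thr 51 35 (.thr 38 12 (.dbl 54 6 57))))) (.nv (.thr 28 19 (.thr 12 44 (.thr 29 17 (.thr 30 31 (.thr 15 45 (.thr 46 63 (.dbl 14 13 62))))))) (.nv (.thr 28 19 (.thr 12 44 (.thr 51 38 (.thr 57 54 (.dbl 41 3 9))))) (.rp 51 (.thr 28 19 (.thr 17 29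 (.thr 12 44 (.thr 3 41 (.thr 6 9 (.str 37 (.nv (.thr 13 49 (.thr 15 14 (.thr 30 45 (.dbl 26 18 48)))) (.nv (.thr 5 53 (.dbl 7 4 52)) (.rp 38 (.str 35 (.nv (.thr 13 49 (.thr 15 14 (.thr 30 45 (.dbl 26 18 48)))) (.nv (.thr 5 53 (.dbl 7 4 52)) .nd))) (.rp 35 (.thr 38 54 (.thr 5 53 (.dbl 4 7 55))) .nd)))))))))) (.rp 28 (.thr 17 29 (.thr 3 41 (.str 16 (.nv (.thr 18 19 (.dbl 26 30 31)) (.rp 31 (.str 30 (.nv (.dbl 18 19 26) (.rp 26 (.thr 19 18 (.thr 51 35 (.thr 54 57 (.dbl 38 6 12)))) (.rp 19 (.thr 26 18 (.thr 15 45 (.thr 7 11 (.dbl 37 48 52)))) (.rp 18 (.thr 15 45 (.thr 7 11 (.thr 37 52 (.thr 13 49 (.thr 12 14 (.thr 6 9 (.dbl 5 4 53))))))) .nd))))) (.rp 30 (.thr 31 26 (.thr 19 18 (.thr 51 35 (.thr 54 57 (.dbl 38 6 12))))) (.rp 26 (.thr 19 18 (.thr 51 35 (.thr 54 57 (.dbl 38 6 12)))) (.rp 19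 (.thr 26 31 (.thr 30 18 (.thr 15 45 (.thr 7 11 (.dbl 37 48 52))))) (.rp 18 (.str 15 (.nv (.thr 7 11 (.thr 26 31 (.thr 30 45 (.dbl 37 48 52)))) (.nv (.thr 7 11 (.thr 37 52 (.dbl 26 31 48))) (.rp 52 (.thr 26 31 (.thr 30 45 (.thr 27 24 (.thr 51 39 (.thr 54 57 (.dbl 38 6 12)))))) (.rp 48 (.thr 26 31 (.thr 30 45 (.thr 27 24 (.thr 51 39 (.thr 54 57 (.dbl 38 6 12)))))) (.rp 37 (.thr 31 26 (.thr 63 47 (.thr 23 43 (.thr 27 19 (.thr 39 51 (.dbl 7 11 55)))))) (.rp 31 (.thr 30 45 (.thr 7 11 (.thr 37 52 (.thr 13 49 (.thr 12 14 (.thr 6 9 (.dbl 5 4 53))))))) (.rp 30 (.thr 31 26 (.thr 63 47 (.thr 23 43 (.thr 27 19 (.thr 39 51 (.dbl 7 11 55)))))) (.rp 26 (.thr 11 7 (.str 12 (.nv (.thr 38 51 (.dbl 6 9 54)) (.rp 54 (.thr 9 6 (.thr 8 10 (.thr 51 38 (.thr 27 39 (.dbl 59 42 43))))) (.rp 51 (.thr 14 13 (.thr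 9 6 (.thr 8 10 (.thr 42 59 (.thr 62 2 (.dbl 30 45 46)))))) (.rp 38 (.thr 14 13 (.thr 9 6 (.thr 8 10 (.thr 42 59 (.thr 62 2 (.dbl 30 45 46)))))) (.rp 31 (.thr 30 45 (.thr 6 9 (.dbl 38 51 54))) (.rp 30 (.str 31 (.nv (.thr 51 38 (.thr 27 39 (.dbl 19 23 35))) (.nv (.thr 38 51 (.dbl 6 9 54)) (.rp 51 (.thr 9 6 (.thr 8 10 (.thr 42 59 (.thr 63 47 (.dbl 62 2 61))))) (.rp 38 (.thr 9 6 (.thr 8 10 (.thr 42 59 (.thr 63 47 (.dbl 62 2 61))))) .nd))))) (.rp 9 (.thr 51 38 (.thr 27 39 (.thr 43 59 (.thr 23 63 (.dbl 19 31 35))))) (.rp 6 (.thr 51 38 (.thr 27 39 (.thr 43 59 (.thr 23 63 (.dbl 19 31 35))))) .nd)))))))))) (.rp 11 (.thr 26 31 (.thr 30 45 (.thr 27 24 (.thr 51 39 (.thr 54 57 (.dbl 38 6 12)))))) (.rp 7 (.thr 26 31 (.thr 30 45 (.thr 27 24 (.thr 51 39 (.thr 54 57 (.dbl 38 6 12)))))) .nd)))))))))))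 .nd))))))))) (.rp 19 (.str 62 (.nv (.thr 2 42 (.thr 29 17 (.thr 61 63 (.thr 45 13 (.thr 30 15 (.thr 31 28 (.dbl 26 16 18))))))) (.nv (.thr 2 42 (.thr 41 3 (.thr 57 9 (.thr 51 54 (.thr 63 61 (.thr 55 59 (.dbl 38 4 12))))))) (.nv (.thr 29 17 (.thr 61 63 (.thr 13 45 (.thr 49 37 (.thr 57 53 (.dbl 41 3 9)))))) (.nv (.thr 3 41 (.thr 42 2 (.thr 59 8 (.thr 63 61 (.thr 51 55 (.thr 12 38 (.dbl 29 17 46))))))) (.rp 63 (.thr 29 17 (.thr 2 42 (.thr 41 3 (.thr 57 9 (.thr 51 54 (.thr 12 38 (.thr 28 44 (.thr 30 31 (.thr 15 45 (.dbl 14 13 46)))))))))) (.rp 61 (.thr 29 17 (.thr 2 42 (.thr 41 3 (.thr 57 9 (.thr 51 54 (.thr 12 38 (.thr 46 63 (.thr 30 14 (.dbl 28 31 44))))))))) (.rp 51 (.thr 63 61 (.thr 42 2 (.thr 3 41 (.thr 59 8 (.thr 43 23 (.thr 27 11 (.thr 26 24 (.thr 30 18 (.thr 46 14 (.dbl 29 12 17))))))))))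 (.rp 2 (.thr 3 41 (.thr 29 17 (.thr 63 61 (.thr 12 46 (.thr 6 9 (.dbl 38 51 54)))))) .nd))))))))) (.rp 12 (.thr 28 19 (.thr 29 17 (.thr 30 31 (.thr 15 45 (.thr 3 41 (.thr 7 11 (.thr 37 52 (.dbl 26 18 48)))))))) (.rp 3 (.str 2 (.nv (.thr 28 19 (.thr 12 44 (.thr 29 17 (.thr 30 31 (.thr 15 45 (.thr 14 13 (.dbl 46 62 63))))))) (.nv (.thr 28 19 (.thr 29 17 (.thr 30 31 (.thr 45 15 (.thr 62 42 (.dbl 61 13 63)))))) (.nv (.thr 28 19 (.thr 12 44 (.thr 62 42 (.thr 63 61 (.dbl 29 17 46))))) (.rp 63 (.thr 28 19 (.thr 29 17 (.thr 30 31 (.thr 62 42 (.thr 14 46 (.thr 12 44 (.dbl 15 13 45))))))) (.rp 62 (.thr 28 19 (.thr 29 17 (.thr 30 31 (.thr 18 26 (.thr 34 50 (.thr 12 44 (.thr 46 63 (.dbl 38 42 51)))))))) (.rp 51 (.str 18 (.nv (.thr 19 28 (.thr 16 17 (.thr 34 50 (.dbl 26 30 31)))) (.nv (.thr 17 29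 (.dbl 19 16 28)) (.rp 28 (.thr 26 30 (.thr 42 62 (.thr 10 58 (.thr 14 6 (.dbl 50 34 38))))) (.rp 19 (.str 35 (.nv (.thr 29 17 (.thr 34 50 (.thr 62 42 (.thr 61 63 (.thr 45 13 (.dbl 30 15 26)))))) (.nv (.thr 17 29 (.thr 50 34 (.thr 42 62 (.thr 26 30 (.thr 14 38 (.dbl 10 6 58)))))) (.rp 62 (.thr 34 50 (.thr 33 32 (.thr 29 17 (.thr 30 26 (.thr 45 15 (.thr 37 41 (.dbl 13 49 61))))))) (.rp 50 (.thr 62 42 (.thr 30 26 (.thr 61 63 (.thr 45 15 (.dbl 29 13 17))))) (.rp 42 (.thr 34 50 (.thr 33 32 (.thr 29 17 (.thr 30 26 (.thr 45 15 (.thr 37 41 (.dbl 13 49 61))))))) (.rp 34 (.thr 17 29 (.thr 42 62 (.thr 8 59 (.thr 26 30 (.thr 10 58 (.thr 24 27 (.thr 56 40 (.dbl 11 9 41)))))))) (.rp 30 (.thr 34 50 (.thr 32 33 (.thr 42 62 (.thr 47 37 (.thr 43 39 (.thr 41 40 (.dbl 38 44 46))))))) (.rp 29 (.thr 42 62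 (.thr 26 30 (.thr 10 58 (.thr 14 6 (.dbl 50 34 38))))) (.rp 26 (.thr 34 50 (.thr 32 33 (.thr 42 62 (.thr 38 46 (.thr 41 44 (.thr 43 40 (.dbl 47 37 39))))))) (.rp 17 (.thr 34 50 (.thr 33 32 (.thr 42 62 (.thr 38 46 (.thr 41 44 (.thr 45 37 (.dbl 30 15 26))))))) .nd))))))))))) (.rp 17 (.thr 34 50 (.thr 30 26 (.thr 62 42 (.thr 63 61 (.thr 15 45 (.thr 31 47 (.dbl 28 19 29))))))) (.rp 16 (.thr 30 26 (.thr 29 17 (.thr 34 50 (.dbl 28 19 31)))) .nd))))))) (.rp 35 (.thr 29 17 (.thr 62 42 (.thr 63 61 (.thr 12 46 (.dbl 28 19 44))))) (.rp 29 (.thr 28 19 (.thr 62 42 (.thr 63 61 (.thr 12 44 (.thr 51 38 (.thr 55 59 (.thr 54 57 (.thr 58 50 (.dbl 53 48 52))))))))) (.rp 28 (.thr 29 17 (.thr 62 42 (.thr 63 61 (.thr 46 12 (.thr 30 14 (.thr 26 18 (.thr 15 45 (.dbl 31 16 47)))))))) (.rp 19 (.thr 29 17 (.thr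 62 42 (.thr 63 61 (.thr 46 12 (.thr 30 14 (.thr 31 28 (.dbl 26 16 18))))))) (.rp 17 (.thr 28 19 (.thr 62 42 (.thr 63 61 (.thr 12 44 (.thr 46 29 (.thr 14 30 (.thr 6 10 (.dbl 38 51 54)))))))) .nd)))))))))))) .nd))))))))) (.rp 19 (.thr 17 29 (.str 38 (.nv (.thr 23 20 (.thr 51 12 (.thr 54 6 (.thr 60 57 (.thr 3 41 (.thr 63 43 (.dbl 55 4 59))))))) (.nv (.thr 4 55 (.thr 20 23 (.thr 6 54 (.thr 52 36 (.dbl 7 5 37))))) (.rp 55 (.thr 20 23 (.thr 6 54 (.thr 12 51 (.thr 3 9 (.thr 60 41 (.thr 28 44 (.thr 24 16 (.thr 48 36 (.thr 18 33 (.dbl 26 27 30)))))))))) (.rp 54 (.str 2 (.nv (.thr 4 55 (.thr 20 23 (.thr 52 36 (.thr 42 62 (.thr 34 46 (.thr 50 18 (.thr 14 26 (.thr 6 10 (.dbl 7 5 37))))))))) (.rp 63 (.thr 23 20 (.thr 55 4 (.thr 39 7 (.thr 36 37 (.thr 12 51 (.thr 24 48 (.thr 26 27 (.thr 50 14 (.dbl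 18 30 34))))))))) (.rp 62 (.thr 23 20 (.thr 55 4 (.thr 39 7 (.thr 36 37 (.thr 12 51 (.thr 24 48 (.thr 26 27 (.thr 50 14 (.dbl 18 30 34))))))))) (.rp 58 (.thr 23 20 (.thr 55 4 (.thr 39 7 (.thr 36 37 (.thr 12 51 (.thr 24 48 (.thr 26 27 (.thr 50 14 (.dbl 18 30 34))))))))) (.rp 55 (.thr 12 51 (.thr 42 62 (.thr 34 46 (.thr 50 18 (.thr 14 26 (.thr 13 15 (.thr 37 49 (.thr 32 47 (.thr 35 33 (.thr 44 41 (.dbl 36 39 40))))))))))) (.rp 53 (.thr 20 23 (.thr 4 55 (.thr 52 36 (.thr 7 37 (.thr 6 5 (.thr 42 62 (.thr 34 46 (.thr 50 18 (.dbl 14 10 26))))))))) (.rp 52 (.thr 23 20 (.thr 12 51 (.thr 42 62 (.thr 34 46 (.thr 50 18 (.thr 14 26 (.thr 6 10 (.thr 3 9 (.thr 43 63 (.dbl 41 40 60)))))))))) (.rp 50 (.thr 20 23 (.thr 4 55 (.thr 52 36 (.thr 7 37 (.thr 6 5 (.thr 10 14 (.thr 42 62 (.thr 58 26 (.thr 8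 59 (.thr 9 11 (.dbl 12 3 51))))))))))) (.rp 46 (.thr 23 20 (.thr 55 4 (.thr 39 7 (.thr 36 37 (.thr 12 51 (.thr 24 48 (.thr 26 27 (.thr 50 14 (.dbl 18 30 34))))))))) (.rp 42 (.thr 23 20 (.thr 55 4 (.thr 39 7 (.thr 36 37 (.thr 12 51 (.thr 24 48 (.thr 26 27 (.thr 50 14 (.dbl 18 30 34))))))))) (.rp 39 (.thr 23 20 (.thr 12 51 (.thr 42 62 (.thr 34 46 (.thr 50 18 (.thr 14 26 (.thr 6 10 (.thr 3 9 (.thr 43 63 (.dbl 41 40 60)))))))))) (.rp 37 (.thr 23 20 (.thr 55 4 (.thr 39 7 (.thr 42 62 (.thr 8 59 (.thr 51 12 (.thr 27 15 (.thr 26 24 (.thr 18 30 (.dbl 34 46 50)))))))))) (.rp 36 (.thr 23 20 (.thr 12 51 (.thr 42 62 (.thr 34 46 (.thr 50 18 (.thr 14 26 (.thr 6 10 (.thr 3 9 (.thr 43 63 (.dbl 41 40 60)))))))))) (.rp 34 (.thr 20 23 (.thr 4 55 (.thr 52 36 (.thr 7 37 (.thr 6 5 (.thr 10 14 (.thr 42 62 (.thr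 8 59 (.thr 9 11 (.dbl 12 3 51)))))))))) (.rp 31 (.thr 23 20 (.thr 55 4 (.thr 39 7 (.thr 36 37 (.thr 12 51 (.thr 24 48 (.thr 26 27 (.thr 50 14 (.dbl 18 30 34))))))))) (.rp 30 (.thr 23 20 (.thr 55 4 (.thr 39 7 (.thr 36 37 (.thr 12 51 (.thr 24 48 (.thr 26 27 (.thr 50 14 (.thr 34 18 (.dbl 42 46 62)))))))))) (.rp 27 (.thr 23 20 (.thr 55 4 (.thr 39 7 (.thr 12 51 (.thr 42 62 (.thr 34 46 (.thr 50 18 (.thr 14 26 (.thr 13 15 (.dbl 37 36 49)))))))))) (.rp 26 (.thr 20 23 (.thr 4 55 (.thr 52 36 (.thr 7 37 (.thr 6 5 (.thr 10 14 (.thr 42 62 (.thr 8 59 (.thr 9 11 (.dbl 12 3 51)))))))))) (.rp 23 (.thr 4 55 (.thr 12 51 (.thr 42 62 (.thr 34 46 (.thr 50 18 (.thr 14 26 (.thr 13 15 (.thr 37 49 (.thr 6 10 (.dbl 5 7 53)))))))))) (.rp 20 (.thr 4 55 (.thr 12 51 (.thr 42 62 (.thr 34 46 (.thr 50 18 (.thr 14 26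 (.thr 6 10 (.thr 5 7 (.thr 13 15 (.dbl 37 49 53)))))))))) (.rp 18 (.thr 20 23 (.thr 4 55 (.thr 52 36 (.thr 7 37 (.thr 6 5 (.thr 10 14 (.thr 42 62 (.thr 8 59 (.thr 9 11 (.dbl 12 3 51)))))))))) (.rp 15 (.thr 23 20 (.thr 55 4 (.thr 39 7 (.thr 36 37 (.thr 12 51 (.thr 24 48 (.thr 26 27 (.thr 50 14 (.dbl 18 30 34))))))))) (.rp 14 (.thr 23 20 (.thr 55 4 (.thr 39 7 (.thr 36 37 (.thr 12 51 (.thr 24 48 (.thr 42 62 (.thr 8 59 (.thr 40 56 (.thr 41 43 (.dbl 44 32 35))))))))))) (.rp 12 (.thr 20 23 (.thr 4 55 (.thr 52 36 (.thr 7 37 (.thr 6 5 (.thr 10 14 (.thr 42 62 (.thr 8 59 (.thr 9 11 (.thr 41 57 (.thr 60 3 (.thr 56 48 (.thr 24 40 (.dbl 26 27 58)))))))))))))) (.rp 10 (.thr 23 20 (.thr 55 4 (.thr 39 7 (.thr 36 37 (.thr 12 51 (.thr 24 48 (.thr 26 27 (.thr 50 14 (.dbl 18 30 34))))))))) (.rp 7 (.thr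 23 20 (.thr 12 51 (.thr 42 62 (.thr 34 46 (.thr 50 18 (.thr 14 26 (.thr 6 10 (.thr 3 9 (.thr 43 63 (.dbl 41 40 60)))))))))) (.rp 6 (.thr 20 23 (.thr 4 55 (.thr 52 36 (.thr 12 51 (.thr 42 62 (.thr 34 46 (.thr 50 18 (.thr 14 26 (.thr 13 15 (.dbl 37 7 49)))))))))) (.rp 5 (.thr 20 23 (.thr 4 55 (.thr 52 36 (.thr 12 51 (.thr 42 62 (.thr 34 46 (.thr 50 18 (.thr 14 26 (.thr 10 6 (.thr 13 15 (.dbl 37 7 49))))))))))) (.rp 4 (.thr 23 20 (.thr 12 51 (.thr 42 62 (.thr 34 46 (.thr 50 18 (.thr 14 26 (.thr 6 10 (.thr 3 9 (.thr 43 63 (.dbl 41 40 60)))))))))) .nd)))))))))))))))))))))))))))))) (.rp 23 (.thr 6 54 (.thr 4 55 (.thr 7 5 (.thr 52 37 (.thr 36 20 (.thr 12 51 (.thr 48 24 (.thr 60 56 (.dbl 3 9 41))))))))) (.rp 20 (.thr 51 12 (.thr 4 55 (.thr 54 6 (.thr 60 57 (.thr 3 41 (.str 62 (.nv (.thr 42 2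 (.thr 46 34 (.thr 14 30 (.dbl 50 26 58)))) (.nv (.thr 50 58 (.thr 48 49 (.thr 18 33 (.dbl 26 14 30)))) (.nv (.thr 50 58 (.thr 48 49 (.thr 18 33 (.dbl 2 34 42)))) (.nv (.thr 50 58 (.thr 14 26 (.thr 42 2 (.dbl 46 30 34)))) (.rp 63 (.str 46 (.nv (.thr 14 30 (.dbl 50 26 58)) (.nv (.dbl 42 2 34) .nd))) (.rp 58 (.thr 63 61 (.thr 43 23 (.thr 42 2 (.thr 46 34 (.thr 14 30 (.thr 59 8 (.thr 27 11 (.dbl 26 24 50)))))))) (.rp 50 (.thr 63 61 (.thr 43 23 (.thr 42 2 (.thr 59 8 (.thr 27 11 (.thr 39 15 (.thr 37 36 (.dbl 47 32 35)))))))) (.rp 46 (.thr 63 61 (.thr 50 58 (.thr 26 14 (.thr 18 30 (.dbl 48 33 49))))) .nd)))))))))))))) (.rp 6 (.thr 20 23 (.thr 4 55 (.thr 36 52 (.thr 12 51 (.thr 24 48 (.thr 16 28 (.dbl 26 27 31))))))) (.rp 4 (.thr 20 23 (.thr 6 54 (.thr 12 51 (.thr 3 9 (.thr 60 41 (.thr 28 44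 (.thr 24 16 (.thr 48 36 (.thr 18 33 (.dbl 26 27 30)))))))))) (.rp 3 (.str 2 (.nv (.thr 23 20 (.thr 54 6 (.thr 55 4 (.thr 7 39 (.dbl 52 37 53))))) (.nv (.thr 6 54 (.thr 14 10 (.thr 26 50 (.thr 62 42 (.dbl 30 18 46))))) (.rp 54 (.thr 20 23 (.thr 4 55 (.thr 52 36 (.thr 7 37 (.thr 6 5 (.thr 42 62 (.thr 34 46 (.thr 50 18 (.dbl 14 10 26))))))))) (.rp 51 (.str 35 (.nv (.thr 4 55 (.thr 6 54 (.thr 20 23 (.thr 52 36 (.dbl 7 5 37))))) (.nv (.thr 54 6 (.thr 62 42 (.thr 50 58 (.thr 26 14 (.dbl 18 30 34))))) (.rp 54 (.thr 23 20 (.thr 55 4 (.thr 39 7 (.thr 41 44 (.thr 43 47 (.dbl 42 40 62)))))) (.rp 6 (.thr 55 4 (.thr 41 44 (.thr 42 62 (.thr 43 40 (.thr 39 47 (.dbl 23 7 20)))))) .nd))))) (.rp 35 (.thr 51 12 (.thr 20 23 (.thr 6 54 (.thr 4 55 (.thr 7 5 (.dbl 52 36 37)))))) (.rp 6 (.thr 23 20 (.thr 55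 4 (.thr 7 39 (.thr 52 37 (.thr 54 53 (.thr 62 42 (.thr 50 58 (.thr 18 34 (.dbl 26 14 30))))))))) .nd))))))) (.rp 2 (.str 3 (.nv (.thr 23 20 (.thr 51 12 (.thr 63 43 (.dbl 55 4 59)))) (.nv (.thr 6 54 (.dbl 12 9 51)) (.rp 51 (.thr 6 54 (.thr 9 12 (.dbl 41 57 60))) (.rp 12 (.thr 20 23 (.thr 6 54 (.thr 4 55 (.thr 7 5 (.dbl 52 36 37))))) .nd))))) .nd)))))))))))) (.rp 18 (.thr 29 17 (.thr 20 23 (.thr 28 19 (.thr 16 24 (.dbl 31 26 30))))) (.rp 17 (.str 51 (.nv (.thr 19 28 (.thr 3 35 (.thr 23 20 (.thr 27 31 (.thr 15 39 (.thr 11 7 (.dbl 43 59 63))))))) (.nv (.thr 20 23 (.thr 38 12 (.thr 4 55 (.thr 6 54 (.thr 7 5 (.dbl 52 36 37)))))) (.nv (.thr 19 28 (.thr 3 35 (.thr 60 41 (.thr 54 57 (.dbl 38 6 12))))) (.rp 49 (.str 33 (.nv (.thr 19 28 (.thr 3 35 (.thr 18 48 (.thr 23 20 (.thr 26 30 (.dbl 27 24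 31)))))) (.nv (.thr 20 23 (.thr 38 12 (.thr 4 55 (.thr 6 54 (.thr 52 36 (.dbl 7 5 37)))))) (.nv (.thr 19 28 (.thr 3 35 (.thr 12 38 (.thr 9 6 (.dbl 41 57 60))))) (.rp 3 (.str 2 (.nv (.thr 38 12 (.thr 6 54 (.thr 14 10 (.thr 26 50 (.thr 30 18 (.dbl 62 42 46)))))) (.nv (.thr 38 12 (.thr 4 55 (.thr 6 54 (.thr 7 5 (.thr 52 37 (.dbl 20 23 36)))))) (.nv (.thr 42 62 (.thr 59 8 (.thr 55 63 (.dbl 38 4 12)))) (.rp 38 (.thr 23 20 (.thr 19 28 (.thr 27 31 (.thr 39 15 (.thr 42 62 (.thr 59 8 (.dbl 55 7 63))))))) (.rp 12 (.thr 23 20 (.thr 19 28 (.thr 27 31 (.thr 39 15 (.thr 7 55 (.thr 37 52 (.thr 41 45 (.thr 42 62 (.thr 47 32 (.dbl 43 35 40)))))))))) (.rp 4 (.thr 42 62 (.thr 8 59 (.thr 38 12 (.thr 6 54 (.thr 14 10 (.thr 50 26 (.dbl 34 18 46))))))) .nd))))))) (.rp 2 (.str 3 (.nv (.thr 12 38 (.thr 9 6 (.dbl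 41 57 60))) (.nv (.dbl 19 28 35) .nd))) .nd)))))) (.rp 33 (.str 49 (.nv (.thr 20 23 (.thr 28 19 (.thr 12 38 (.thr 48 50 (.dbl 24 16 36))))) (.nv (.thr 37 13 (.thr 5 53 (.thr 7 52 (.thr 4 6 (.dbl 38 12 55))))) (.rp 38 (.thr 19 28 (.thr 23 20 (.thr 27 31 (.thr 48 50 (.thr 37 13 (.dbl 26 15 24)))))) (.rp 12 (.thr 19 28 (.thr 23 20 (.thr 27 31 (.thr 48 50 (.thr 37 13 (.dbl 26 15 24)))))) (.rp 3 (.str 2 (.nv (.thr 42 62 (.thr 59 8 (.thr 55 63 (.dbl 38 4 12)))) (.nv (.thr 50 48 (.thr 18 34 (.thr 26 30 (.dbl 38 12 14)))) (.rp 48 (.str 18 (.nv (.thr 34 50 (.thr 38 12 (.dbl 42 46 62))) (.nv (.thr 19 28 (.thr 23 20 (.thr 26 30 (.dbl 27 24 31)))) (.nv (.thr 26 30 (.thr 50 34 (.dbl 38 12 14))) (.rp 32 (.str 16 (.nv (.thr 34 50 (.thr 20 23 (.dbl 28 19 24))) (.nv (.dbl 26 30 31) (.rp 34 (.str 35 (.nv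 (.thr 20 23 (.dbl 28 19 24)) (.nv (.dbl 26 30 31) .nd))) .nd)))) (.rp 16 (.str 32 (.nv (.thr 26 30 (.thr 38 12 (.dbl 50 14 34))) (.nv (.thr 42 62 (.dbl 37 13 47)) .nd))) .nd)))))) (.rp 38 (.thr 28 19 (.thr 20 23 (.thr 16 24 (.thr 50 48 (.thr 18 34 (.dbl 26 30 31)))))) (.rp 18 (.thr 48 50 (.thr 20 23 (.thr 12 38 (.thr 24 36 (.dbl 28 16 19))))) (.rp 12 (.thr 28 19 (.thr 20 23 (.thr 16 24 (.thr 48 50 (.thr 37 13 (.dbl 26 15 31)))))) .nd))))))) (.rp 2 (.str 3 (.nv (.thr 12 38 (.thr 9 6 (.dbl 41 57 60))) (.nv (.dbl 19 28 35) .nd))) .nd))))))) (.rp 3 (.str 2 (.nv (.thr 38 12 (.thr 6 54 (.thr 14 10 (.thr 26 50 (.thr 30 18 (.dbl 62 42 46)))))) (.nv (.thr 38 12 (.thr 4 55 (.thr 6 54 (.thr 7 5 (.thr 52 37 (.dbl 20 23 36)))))) (.nv (.thr 42 62 (.thr 59 8 (.thr 55 63 (.dbl 38 4 12)))) (.rp 49 (.str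 33 (.nv (.thr 38 12 (.thr 6 54 (.thr 14 10 (.thr 26 50 (.thr 30 18 (.dbl 62 42 46)))))) (.nv (.thr 38 12 (.thr 4 55 (.thr 6 54 (.thr 7 5 (.thr 52 37 (.dbl 20 23 36)))))) (.nv (.thr 42 62 (.thr 59 8 (.thr 55 63 (.dbl 38 4 12)))) (.rp 38 (.thr 23 20 (.thr 19 28 (.thr 27 31 (.thr 39 15 (.thr 42 62 (.thr 59 8 (.dbl 55 7 63))))))) (.rp 12 (.thr 23 20 (.thr 19 28 (.thr 27 31 (.thr 39 15 (.thr 7 55 (.thr 37 52 (.thr 41 45 (.thr 42 62 (.thr 47 32 (.dbl 43 35 40)))))))))) (.rp 4 (.thr 42 62 (.thr 8 59 (.thr 38 12 (.thr 6 54 (.thr 14 10 (.thr 50 26 (.dbl 34 18 46))))))) .nd))))))) (.rp 38 (.thr 19 28 (.thr 23 20 (.thr 27 31 (.thr 42 62 (.thr 59 8 (.thr 55 63 (.dbl 39 7 15))))))) (.rp 33 (.str 49 (.nv (.thr 42 62 (.thr 59 8 (.thr 55 63 (.dbl 38 4 12)))) (.nv (.thr 50 48 (.thr 18 34 (.thr 26 30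 (.dbl 38 12 14)))) (.rp 48 (.str 18 (.nv (.thr 34 50 (.thr 38 12 (.dbl 42 46 62))) (.nv (.thr 19 28 (.thr 23 20 (.thr 26 30 (.dbl 27 24 31)))) (.nv (.thr 26 30 (.thr 50 34 (.dbl 38 12 14))) (.rp 32 (.str 16 (.nv (.thr 34 50 (.thr 20 23 (.dbl 28 19 24))) (.nv (.dbl 26 30 31) (.rp 34 (.str 35 (.nv (.thr 20 23 (.dbl 28 19 24)) (.nv (.dbl 26 30 31) .nd))) .nd)))) (.rp 16 (.str 32 (.nv (.thr 26 30 (.thr 38 12 (.dbl 50 14 34))) (.nv (.thr 42 62 (.dbl 37 13 47)) .nd))) .nd)))))) (.rp 38 (.thr 28 19 (.thr 20 23 (.thr 16 24 (.thr 50 48 (.thr 18 34 (.dbl 26 30 31)))))) (.rp 18 (.thr 48 50 (.thr 20 23 (.thr 12 38 (.thr 24 36 (.dbl 28 16 19))))) (.rp 12 (.thr 28 19 (.thr 20 23 (.thr 16 24 (.thr 48 50 (.thr 37 13 (.dbl 26 15 31)))))) .nd))))))) (.rp 12 (.thr 19 28 (.thr 23 20 (.thr 27 31 (.thr 42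 62 (.thr 39 15 (.thr 7 55 (.thr 37 52 (.thr 47 32 (.thr 43 35 (.dbl 59 8 11)))))))))) (.rp 4 (.thr 42 62 (.thr 8 59 (.thr 38 12 (.thr 6 54 (.thr 14 10 (.thr 50 26 (.dbl 34 18 46))))))) .nd))))))))) (.rp 2 (.str 3 (.nv (.thr 12 38 (.thr 9 6 (.dbl 41 57 60))) (.nv (.dbl 19 28 35) (.rp 49 (.str 33 (.nv (.thr 12 38 (.thr 9 6 (.dbl 41 57 60))) (.nv (.dbl 19 28 35) .nd))) (.rp 33 (.str 49 (.nv (.thr 12 38 (.thr 9 6 (.dbl 41 57 60))) (.nv (.dbl 19 28 35) .nd))) .nd))))) .nd)))))))) (.rp 16 (.str 3 (.nv (.thr 28 19 (.thr 60 41 (.thr 12 44 (.thr 6 9 (.dbl 38 51 54))))) (.nv (.thr 23 20 (.thr 29 17 (.thr 60 41 (.thr 63 43 (.thr 12 46 (.dbl 28 19 44)))))) (.nv (.thr 20 23 (.thr 19 28 (.thr 51 35 (.thr 12 38 (.thr 41 60 (.dbl 9 6 57)))))) (.rp 60 (.thr 19 28 (.thr 29 17 (.thr 51 35 (.thr 12 38 (.thr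 63 46 (.dbl 23 20 43)))))) (.rp 51 (.thr 23 20 (.thr 28 19 (.thr 63 43 (.thr 60 41 (.thr 12 44 (.dbl 29 17 46)))))) (.rp 48 (.str 32 (.nv (.thr 29 17 (.thr 41 60 (.thr 9 57 (.thr 12 6 (.thr 63 46 (.dbl 23 20 43)))))) (.nv (.thr 23 20 (.thr 28 19 (.thr 60 41 (.thr 12 44 (.thr 63 43 (.dbl 29 17 46)))))) (.nv (.thr 19 28 (.thr 51 35 (.thr 12 38 (.thr 9 6 (.dbl 41 57 60))))) (.rp 60 (.thr 19 28 (.thr 29 17 (.thr 51 35 (.thr 12 38 (.thr 63 46 (.dbl 23 20 43)))))) (.rp 41 (.thr 23 20 (.thr 29 17 (.thr 63 43 (.thr 12 46 (.thr 6 9 (.dbl 38 51 54)))))) (.rp 20 (.thr 28 19 (.thr 60 41 (.thr 12 44 (.thr 6 9 (.dbl 38 51 54))))) (.rp 19 (.thr 23 20 (.thr 43 63 (.thr 41 60 (.thr 40 42 (.thr 44 36 (.thr 38 35 (.thr 12 51 (.dbl 6 9 54)))))))) (.rp 12 (.thr 23 20 (.thr 29 17 (.thr 60 41 (.thr 63 43 (.thr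 61 62 (.thr 45 13 (.thr 15 30 (.thr 31 47 (.dbl 19 27 28))))))))) .nd))))))))) (.rp 41 (.thr 23 20 (.thr 29 17 (.thr 63 43 (.thr 12 46 (.thr 6 9 (.dbl 38 51 54)))))) (.rp 32 (.str 48 (.nv (.thr 60 41 (.thr 52 56 (.thr 37 7 (.thr 26 15 (.dbl 18 30 33))))) (.nv (.thr 19 28 (.thr 41 60 (.thr 9 57 (.thr 12 6 (.dbl 51 35 38))))) (.nv (.thr 28 19 (.thr 18 33 (.thr 30 26 (.dbl 29 17 31)))) .nd)))) (.rp 28 (.thr 29 17 (.thr 41 60 (.thr 9 57 (.thr 12 6 (.thr 63 46 (.dbl 23 20 43)))))) (.rp 19 (.thr 23 20 (.thr 63 43 (.thr 60 41 (.thr 62 61 (.thr 42 2 (.thr 59 8 (.thr 51 55 (.thr 54 57 (.dbl 38 6 12))))))))) (.rp 12 (.thr 23 20 (.thr 29 17 (.thr 63 43 (.thr 60 41 (.thr 61 62 (.thr 45 13 (.thr 15 30 (.thr 31 47 (.dbl 19 27 28))))))))) .nd)))))))))))) (.rp 3 .ext (.rp 2 (.str 3 (.nv (.thr 17 29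 (.thr 19 28 (.thr 16 18 (.thr 31 26 (.dbl 23 20 27))))) (.nv (.thr 19 28 (.thr 51 35 (.thr 60 41 (.thr 54 57 (.dbl 38 6 12))))) (.rp 28 (.thr 23 20 (.thr 29 17 (.thr 63 43 (.thr 12 46 (.thr 6 9 (.dbl 38 51 54)))))) (.rp 19 (.thr 23 20 (.thr 29 17 (.thr 63 43 (.thr 12 46 (.thr 6 9 (.dbl 38 51 54)))))) .nd))))) .nd))))))))))))))))

theorem w3 : WinAt (6291456, 3) :=
  chF (K := [(39845888, 11)]) (kc w2 kn) c3 6291456 3 1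
    [15] (by decide +kernel) (by decide +kernel)

/-- A certificate. -/
noncomputable def c4 : Ct := (.str 28 (.nv (.thr 16 24 (.thr 31 26 (.thr 25 19 (.dbl 29 17 30)))) (.rp 31 (.thr 19 25 (.str 41 (.nv (.thr 3 60 (.thr 35 51 (.thr 38 44 (.thr 4 55 (.thr 52 36 (.thr 7 37 (.dbl 6 5 54))))))) (.nv (.thr 1 61 (.thr 60 3 (.thr 44 12 (.thr 38 35 (.thr 4 55 (.thr 6 54 (.thr 7 5 (.dbl 52 36 37)))))))) (.nv (.thr 3 60 (.thr 16 24 (.thr 18 17 (.thr 48 33 (.thr 26 30 (.thr 15 37 (.dbl 11 7 56))))))) (.rp 60 (.thr 16 24 (.thr 17 18 (.thr 1 61 (.thr 33 49 (.thr 37 45 (.thr 52 7 (.thr 4 36 (.thr 53 5 (.dbl 55 38 54))))))))) (.rp 37 (.thr 16 24 (.thr 18 17 (.thr 26 30 (.thr 60 3 (.thr 1 61 (.thr 44 12 (.thr 38 35 (.thr 56 11 (.thr 4 55 (.dbl 52 36 48)))))))))) (.rp 7 (.thr 24 16 (.thr 60 3 (.thr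 1 61 (.thr 12 44 (.thr 48 36 (.thr 56 52 (.thr 26 11 (.thr 15 37 (.dbl 30 18 45))))))))) (.rp 3 (.thr 1 61 (.thr 16 24 (.thr 17 18 (.thr 33 49 (.thr 37 45 (.thr 52 7 (.thr 4 36 (.thr 53 5 (.dbl 55 38 54))))))))) .nd))))))))) (.rp 30 (.str 1 (.nv (.thr 16 24 (.thr 25 19 (.thr 31 26 (.thr 41 61 (.thr 57 9 (.thr 60 3 (.thr 12 44 (.dbl 51 38 54)))))))) (.nv (.thr 25 19 (.thr 17 29 (.thr 49 33 (.thr 13 37 (.thr 41 61 (.dbl 9 5 57)))))) (.rp 61 (.thr 24 16 (.thr 25 19 (.thr 17 29 (.thr 49 33 (.thr 13 37 (.thr 9 5 (.thr 41 57 (.thr 3 60 (.thr 12 6 (.thr 48 36 (.dbl 51 38 50))))))))))) (.rp 57 (.thr 25 19 (.thr 29 17 (.thr 61 41 (.thr 13 45 (.thr 5 9 (.dbl 37 49 53)))))) (.rp 41 (.thr 25 19 (.thr 17 29 (.thr 49 33 (.thr 37 13 (.thr 53 5 (.thr 52 7 (.thr 55 54 (.dbl 4 36 38)))))))) (.rp 31 (.thr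 24 16 (.thr 25 19 (.thr 27 26 (.thr 17 29 (.thr 49 33 (.thr 13 37 (.thr 9 5 (.dbl 41 57 61)))))))) (.rp 25 (.thr 41 61 (.thr 60 3 (.thr 44 12 (.thr 38 35 (.thr 4 55 (.thr 52 36 (.thr 7 37 (.dbl 6 5 54)))))))) (.rp 19 (.thr 24 16 (.thr 41 61 (.thr 60 3 (.thr 12 44 (.thr 48 36 (.thr 52 56 (.thr 37 7 (.thr 5 53 (.thr 13 9 (.dbl 15 14 26)))))))))) (.rp 9 (.thr 25 19 (.thr 17 29 (.thr 49 33 (.thr 37 13 (.thr 53 5 (.dbl 61 41 57)))))) .nd)))))))))) (.rp 29 (.thr 16 24 (.thr 26 31 (.thr 18 30 (.dbl 19 17 25)))) (.rp 26 (.str 1 (.nv (.thr 25 19 (.thr 41 61 (.thr 57 9 (.thr 60 3 (.thr 12 44 (.dbl 51 38 54)))))) (.nv (.thr 25 19 (.thr 17 29 (.thr 41 61 (.thr 9 57 (.thr 49 33 (.dbl 13 5 37)))))) (.rp 61 (.thr 24 16 (.thr 25 19 (.thr 17 29 (.thr 49 33 (.thr 13 37 (.thr 9 5 (.thr 41 57 (.thr 3 60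 (.thr 12 6 (.thr 48 36 (.dbl 51 38 50))))))))))) (.rp 57 (.thr 25 19 (.thr 29 17 (.thr 61 41 (.thr 13 45 (.thr 5 9 (.dbl 37 49 53)))))) (.rp 41 (.thr 25 19 (.thr 17 29 (.thr 49 33 (.thr 37 13 (.thr 53 5 (.thr 52 7 (.thr 55 54 (.dbl 4 36 38)))))))) (.rp 31 (.thr 41 61 (.thr 60 3 (.thr 44 12 (.thr 38 35 (.thr 4 55 (.thr 52 36 (.thr 7 37 (.dbl 6 5 54)))))))) (.rp 27 (.thr 41 61 (.thr 60 3 (.thr 44 12 (.thr 38 35 (.thr 4 55 (.thr 52 36 (.thr 7 37 (.dbl 6 5 54)))))))) (.rp 25 (.thr 41 61 (.thr 60 3 (.thr 44 12 (.thr 38 35 (.thr 4 55 (.thr 52 36 (.thr 7 37 (.dbl 6 5 54)))))))) (.rp 19 (.thr 24 16 (.thr 41 61 (.thr 60 3 (.thr 12 44 (.thr 48 36 (.thr 52 56 (.thr 37 7 (.thr 5 53 (.thr 13 9 (.thr 15 14 (.dbl 45 30 33))))))))))) (.rp 9 (.thr 25 19 (.thr 17 29 (.thr 49 33 (.thr 37 13 (.thr 53 5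 (.dbl 61 41 57)))))) .nd))))))))))) (.rp 25 (.str 60 (.nv (.thr 3 41 (.thr 16 24 (.thr 26 31 (.thr 30 18 (.thr 15 45 (.thr 37 48 (.dbl 7 11 52))))))) (.nv (.thr 12 44 (.thr 24 16 (.thr 48 36 (.thr 52 56 (.thr 37 7 (.thr 15 26 (.thr 45 30 (.dbl 41 3 33)))))))) (.nv (.thr 3 41 (.thr 16 24 (.thr 26 31 (.thr 18 30 (.thr 48 33 (.thr 52 56 (.dbl 37 7 15))))))) (.rp 52 (.thr 16 24 (.thr 26 31 (.thr 30 18 (.thr 12 44 (.thr 15 45 (.thr 13 14 (.thr 37 48 (.thr 5 53 (.thr 1 9 (.dbl 41 3 61)))))))))) (.rp 48 (.thr 44 12 (.thr 41 3 (.thr 1 61 (.thr 38 35 (.thr 6 54 (.thr 4 55 (.thr 7 5 (.dbl 52 36 37)))))))) (.rp 45 (.thr 16 24 (.thr 26 31 (.thr 18 30 (.thr 3 41 (.thr 48 33 (.thr 37 15 (.dbl 52 7 56))))))) (.rp 41 (.thr 16 24 (.thr 26 31 (.thr 30 18 (.thr 15 45 (.thr 37 48 (.thr 52 7 (.thr 53 5 (.thr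 55 54 (.dbl 4 36 38))))))))) (.rp 37 (.thr 16 24 (.thr 26 31 (.thr 44 12 (.thr 41 3 (.thr 1 61 (.thr 56 11 (.thr 38 35 (.thr 4 55 (.dbl 52 36 48))))))))) (.rp 30 (.thr 44 12 (.thr 41 3 (.thr 1 61 (.thr 38 35 (.thr 6 54 (.thr 4 55 (.thr 7 5 (.dbl 52 36 37)))))))) (.rp 26 (.thr 44 12 (.thr 41 3 (.thr 1 61 (.thr 38 35 (.thr 6 54 (.thr 4 55 (.thr 7 5 (.dbl 52 36 37)))))))) (.rp 24 (.thr 44 12 (.thr 41 3 (.thr 1 61 (.thr 38 35 (.thr 6 54 (.thr 4 55 (.thr 7 5 (.dbl 52 36 37)))))))) (.rp 16 (.thr 44 12 (.thr 41 3 (.thr 1 61 (.thr 38 35 (.thr 6 54 (.thr 4 55 (.thr 7 5 (.dbl 52 36 37)))))))) (.rp 15 (.thr 44 12 (.thr 41 3 (.thr 1 61 (.thr 38 35 (.thr 6 54 (.thr 4 55 (.thr 52 36 (.dbl 7 5 37)))))))) (.rp 7 (.thr 16 24 (.thr 26 31 (.thr 30 18 (.thr 15 45 (.thr 48 37 (.thr 56 52 (.dbl 41 3 11)))))))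 (.rp 3 (.str 1 (.nv (.thr 16 24 (.thr 26 31 (.thr 30 18 (.thr 41 61 (.thr 56 11 (.thr 48 52 (.dbl 15 37 45))))))) (.nv (.thr 12 44 (.thr 24 16 (.thr 48 36 (.thr 52 56 (.thr 37 7 (.thr 5 53 (.thr 15 26 (.dbl 13 9 14)))))))) (.nv (.thr 12 44 (.thr 61 41 (.thr 63 62 (.thr 29 46 (.thr 30 31 (.dbl 45 13 15)))))) (.rp 63 (.str 43 (.nv (.thr 16 24 (.thr 26 31 (.thr 30 18 (.thr 15 45 (.thr 41 61 (.thr 48 37 (.dbl 56 11 52))))))) (.nv (.thr 41 61 (.thr 40 42 (.thr 44 12 (.thr 38 35 (.thr 4 55 (.dbl 36 32 52)))))) (.nv (.thr 12 44 (.thr 16 24 (.thr 26 31 (.thr 30 18 (.thr 15 45 (.thr 13 14 (.thr 5 9 (.dbl 37 48 53)))))))) (.nv (.thr 41 61 (.thr 24 16 (.thr 12 44 (.thr 48 36 (.thr 56 52 (.dbl 40 8 42)))))) (.rp 41 (.thr 16 24 (.thr 12 44 (.thr 26 31 (.thr 30 18 (.thr 15 45 (.thr 14 13 (.thr 46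 62 (.thr 38 50 (.thr 34 42 (.thr 4 55 (.thr 52 36 (.dbl 48 37 56)))))))))))) .nd)))))) (.rp 43 (.str 63 (.nv (.dbl 61 41 62) (.rp 62 (.thr 16 24 (.thr 12 44 (.thr 29 46 (.dbl 31 26 30)))) (.rp 61 (.thr 16 24 (.thr 12 44 (.thr 29 46 (.dbl 31 26 30)))) (.rp 41 (.thr 16 24 (.thr 12 44 (.thr 29 46 (.dbl 31 26 30)))) .nd))))) (.rp 41 (.thr 24 16 (.thr 12 44 (.thr 48 36 (.thr 52 56 (.thr 37 7 (.thr 53 5 (.thr 63 58 (.thr 61 62 (.thr 57 49 (.dbl 54 51 55)))))))))) (.rp 15 (.thr 16 24 (.thr 61 41 (.thr 63 62 (.thr 12 44 (.thr 29 46 (.dbl 31 26 30)))))) .nd)))))))) .nd)))))))))))))))) (.rp 24 (.str 1 (.nv (.thr 25 19 (.thr 17 29 (.thr 49 33 (.thr 37 13 (.thr 52 7 (.thr 4 36 (.thr 53 5 (.dbl 55 38 54)))))))) (.nv (.thr 25 19 (.thr 41 61 (.thr 57 9 (.thr 60 3 (.thr 12 44 (.dbl 51 38 54)))))) (.nv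 (.thr 25 19 (.thr 17 29 (.thr 49 33 (.thr 13 37 (.thr 41 61 (.dbl 9 5 57)))))) (.rp 61 (.thr 25 19 (.thr 17 29 (.thr 49 33 (.thr 13 37 (.thr 9 5 (.thr 41 57 (.thr 60 3 (.thr 12 44 (.thr 51 38 (.thr 48 50 (.thr 56 52 (.thr 15 14 (.thr 26 11 (.dbl 30 18 45)))))))))))))) (.rp 31 (.thr 41 61 (.thr 60 3 (.thr 44 12 (.thr 38 35 (.thr 4 55 (.thr 6 54 (.thr 7 5 (.dbl 52 36 37)))))))) (.rp 27 (.thr 41 61 (.thr 60 3 (.thr 44 12 (.thr 38 35 (.thr 4 55 (.thr 6 54 (.thr 7 5 (.dbl 52 36 37)))))))) (.rp 25 (.thr 41 61 (.thr 60 3 (.thr 44 12 (.thr 38 35 (.thr 4 55 (.thr 6 54 (.thr 7 5 (.dbl 52 36 37)))))))) (.rp 19 (.str 31 (.nv (.thr 30 29 (.dbl 26 16 18)) (.rp 30 (.thr 26 16 (.thr 41 61 (.thr 60 3 (.thr 56 11 (.thr 48 52 (.thr 15 37 (.thr 12 44 (.thr 14 13 (.thr 38 50 (.thr 54 6 (.dbl 51 25 57)))))))))))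 (.rp 29 (.thr 26 16 (.thr 18 30 (.thr 41 61 (.thr 3 60 (.thr 48 33 (.thr 15 37 (.dbl 11 7 56))))))) (.rp 26 (.thr 29 30 (.thr 25 17 (.thr 61 41 (.thr 13 45 (.thr 5 9 (.dbl 37 49 53)))))) (.rp 18 (.thr 29 30 (.thr 61 41 (.thr 13 45 (.thr 5 9 (.thr 37 53 (.dbl 25 17 49)))))) (.rp 16 (.thr 29 30 (.thr 61 41 (.thr 13 45 (.thr 5 9 (.thr 37 53 (.dbl 25 17 49)))))) .nd))))))) .nd))))))))) (.rp 19 (.str 3 (.nv (.thr 24 16 (.thr 60 41 (.thr 12 44 (.thr 48 36 (.thr 18 33 (.thr 26 30 (.thr 37 15 (.dbl 52 7 56)))))))) (.nv (.thr 60 41 (.thr 12 44 (.thr 6 9 (.thr 38 54 (.thr 4 55 (.thr 7 5 (.dbl 52 36 37))))))) (.nv (.thr 16 24 (.thr 31 26 (.thr 29 30 (.thr 25 17 (.thr 60 41 (.thr 12 44 (.thr 6 9 (.dbl 38 51 54)))))))) (.rp 60 (.thr 16 24 (.thr 31 26 (.thr 29 30 (.str 15 (.nv (.thr 7 11 (.thr 25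 17 (.thr 37 52 (.thr 13 49 (.thr 63 47 (.dbl 12 14 46)))))) (.nv (.thr 7 11 (.thr 52 37 (.thr 4 36 (.thr 6 5 (.dbl 38 54 55))))) (.nv (.thr 25 17 (.thr 63 47 (.thr 12 46 (.thr 6 9 (.dbl 38 51 54))))) (.rp 25 (.str 27 (.nv (.thr 63 47 (.thr 12 46 (.thr 6 9 (.thr 38 54 (.thr 51 39 (.dbl 55 4 59)))))) (.nv (.thr 7 11 (.thr 52 37 (.thr 4 36 (.thr 38 55 (.dbl 6 5 54))))) (.nv (.thr 11 7 (.thr 63 47 (.thr 59 43 (.dbl 51 39 55)))) (.rp 55 (.thr 7 11 (.thr 63 47 (.thr 12 46 (.thr 6 9 (.thr 4 5 (.dbl 52 36 37)))))) .nd))))) (.rp 12 (.thr 25 17 (.thr 7 11 (.thr 37 52 (.thr 5 53 (.thr 13 49 (.thr 1 9 (.dbl 61 41 45))))))) .nd))))))))) (.rp 44 (.thr 16 24 (.thr 31 26 (.thr 29 30 (.thr 25 17 (.thr 41 60 (.thr 61 1 (.thr 57 9 (.thr 49 53 (.dbl 13 37 45))))))))) (.rp 41 (.str 26 (.nv (.thr 31 16 (.dbl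 30 18 29)) (.nv (.dbl 16 24 31) (.rp 31 (.str 27 (.nv (.dbl 24 16 25) (.rp 25 (.thr 18 30 (.thr 24 16 (.thr 48 33 (.thr 36 12 (.thr 37 15 (.dbl 52 4 7)))))) (.rp 24 (.thr 18 30 (.thr 48 33 (.thr 37 15 (.thr 52 7 (.thr 4 36 (.thr 55 38 (.dbl 53 5 54))))))) (.rp 16 (.thr 18 30 (.thr 24 25 (.thr 48 33 (.thr 36 12 (.thr 37 15 (.dbl 52 4 7)))))) .nd))))) (.rp 16 (.thr 18 30 (.thr 48 33 (.thr 37 15 (.thr 52 7 (.thr 60 56 (.thr 36 4 (.dbl 12 24 44))))))) .nd))))) (.rp 38 (.thr 16 24 (.thr 31 26 (.thr 29 30 (.thr 25 17 (.thr 41 60 (.thr 61 1 (.thr 57 9 (.thr 49 53 (.dbl 13 37 45))))))))) (.rp 35 (.thr 16 24 (.thr 31 26 (.thr 29 30 (.thr 25 17 (.thr 41 60 (.thr 61 1 (.thr 57 9 (.thr 49 53 (.dbl 13 37 45))))))))) (.rp 31 (.str 27 (.nv (.thr 24 16 (.thr 26 25 (.thr 18 30 (.thr 41 60 (.thr 11 56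 (.thr 15 7 (.dbl 48 33 37))))))) (.nv (.thr 24 16 (.thr 26 25 (.thr 18 30 (.thr 48 33 (.thr 36 12 (.thr 4 52 (.thr 38 55 (.dbl 37 15 39)))))))) (.nv (.thr 60 41 (.thr 12 44 (.thr 6 9 (.thr 38 54 (.thr 4 55 (.thr 7 5 (.dbl 52 36 37))))))) (.nv (.thr 24 16 (.thr 26 25 (.thr 18 30 (.thr 48 33 (.thr 12 36 (.dbl 60 41 44)))))) (.rp 25 (.thr 24 16 (.thr 60 41 (.thr 12 44 (.thr 48 36 (.thr 52 56 (.thr 37 7 (.thr 26 15 (.dbl 18 30 33)))))))) .nd)))))) (.rp 27 (.str 31 (.nv (.dbl 16 24 26) (.rp 26 (.thr 29 30 (.thr 25 17 (.thr 60 41 (.thr 12 44 (.thr 6 9 (.dbl 38 51 54)))))) (.rp 24 (.thr 30 29 (.dbl 26 16 18)) (.rp 16 (.thr 30 29 (.thr 60 41 (.thr 15 45 (.thr 7 11 (.thr 37 52 (.dbl 26 18 48)))))) .nd))))) (.rp 12 (.thr 16 24 (.thr 31 26 (.thr 29 30 (.thr 25 17 (.thr 41 60 (.thr 61 1 (.thr 57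 9 (.thr 49 53 (.dbl 13 37 45))))))))) .nd)))))))))))) (.rp 17 (.str 3 (.nv (.thr 60 41 (.thr 12 44 (.thr 6 9 (.thr 38 54 (.dbl 25 19 51))))) (.rp 60 (.thr 19 25 (.thr 16 24 (.thr 26 31 (.thr 51 35 (.str 6 (.nv (.thr 18 30 (.thr 38 54 (.thr 50 14 (.dbl 48 33 49)))) (.nv (.thr 38 54 (.thr 4 55 (.thr 7 5 (.dbl 52 36 37)))) (.rp 54 (.thr 18 30 (.thr 48 33 (.thr 15 37 (.thr 7 11 (.thr 4 5 (.thr 38 55 (.dbl 50 14 49))))))) (.rp 38 (.thr 18 30 (.thr 9 12 (.thr 48 33 (.thr 49 50 (.thr 15 37 (.thr 11 7 (.thr 41 56 (.thr 61 1 (.thr 53 57 (.thr 58 63 (.dbl 10 8 42))))))))))) (.rp 15 (.thr 38 54 (.thr 4 55 (.thr 52 36 (.dbl 7 5 37)))) .nd)))))))))) (.rp 57 (.thr 25 19 (.thr 60 41 (.thr 12 44 (.thr 6 9 (.dbl 38 51 54))))) (.rp 54 (.thr 16 24 (.thr 26 31 (.thr 18 30 (.thr 48 33 (.thr 15 37 (.thr 11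 7 (.dbl 41 56 60))))))) (.rp 51 (.str 34 (.nv (.thr 16 24 (.thr 19 25 (.thr 26 31 (.thr 30 18 (.thr 60 41 (.thr 15 45 (.thr 7 11 (.dbl 37 48 52)))))))) (.rp 60 (.str 38 (.nv (.thr 16 24 (.thr 26 31 (.thr 14 50 (.thr 30 18 (.dbl 46 42 62))))) (.nv (.thr 4 55 (.thr 52 36 (.thr 7 37 (.dbl 6 5 54)))) (.rp 57 (.thr 54 6 (.thr 16 24 (.thr 26 31 (.thr 30 18 (.thr 14 50 (.dbl 46 42 62)))))) (.rp 54 (.str 57 (.nv (.thr 4 55 (.thr 52 36 (.thr 7 37 (.thr 6 5 (.thr 9 12 (.dbl 25 19 41)))))) (.nv (.thr 16 24 (.thr 26 31 (.thr 30 18 (.thr 46 42 (.dbl 14 50 62))))) (.rp 24 (.thr 25 19 (.thr 9 41 (.thr 6 12 (.thr 4 55 (.thr 7 5 (.dbl 52 36 37)))))) (.rp 19 (.thr 16 24 (.thr 46 42 (.thr 4 55 (.thr 52 36 (.thr 7 37 (.thr 6 5 (.thr 12 9 (.thr 31 26 (.dbl 29 30 63))))))))) .nd))))) .nd))))) (.rp 57 (.thr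 16 24 (.thr 26 31 (.thr 18 30 (.thr 48 33 (.thr 37 15 (.thr 52 7 (.dbl 60 41 56))))))) (.rp 52 (.thr 16 24 (.thr 26 31 (.thr 18 30 (.thr 48 33 (.thr 15 37 (.thr 11 7 (.dbl 41 56 60))))))) (.rp 48 (.thr 60 41 (.thr 12 44 (.thr 6 9 (.thr 38 54 (.thr 4 55 (.thr 7 5 (.dbl 52 36 37))))))) (.rp 45 (.thr 16 24 (.thr 26 31 (.thr 18 30 (.thr 48 33 (.thr 37 15 (.thr 60 41 (.dbl 52 7 56))))))) (.rp 41 (.thr 16 24 (.thr 26 31 (.thr 18 30 (.thr 48 33 (.thr 37 15 (.thr 52 7 (.thr 4 36 (.thr 55 38 (.dbl 53 5 54))))))))) (.rp 38 (.thr 16 24 (.thr 26 31 (.thr 18 30 (.thr 48 33 (.thr 37 15 (.thr 52 7 (.dbl 60 41 56))))))) (.rp 37 (.str 4 (.nv (.thr 38 55 (.thr 6 54 (.thr 12 9 (.dbl 60 41 44)))) (.nv (.thr 16 24 (.thr 26 31 (.thr 30 18 (.thr 38 55 (.thr 46 42 (.dbl 14 50 62)))))) (.nv (.thr 36 52 (.thr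 60 41 (.thr 12 44 (.dbl 24 16 48)))) (.rp 38 (.thr 36 52 (.thr 24 16 (.thr 60 41 (.dbl 12 44 48)))) .nd))))) (.rp 33 (.thr 16 24 (.thr 26 31 (.thr 30 18 (.thr 60 41 (.thr 15 45 (.thr 37 48 (.dbl 7 11 52))))))) (.rp 31 (.thr 24 16 (.thr 60 41 (.thr 12 44 (.thr 48 36 (.thr 18 33 (.thr 26 30 (.dbl 25 19 27))))))) (.rp 30 (.thr 24 16 (.thr 60 41 (.thr 12 44 (.thr 6 9 (.thr 38 54 (.thr 4 55 (.dbl 36 48 52))))))) (.rp 26 (.thr 24 16 (.thr 60 41 (.thr 12 44 (.thr 6 9 (.thr 38 54 (.thr 4 55 (.dbl 36 48 52))))))) (.rp 25 (.thr 16 24 (.thr 26 31 (.thr 18 30 (.thr 48 33 (.thr 37 15 (.thr 52 7 (.dbl 60 41 56))))))) (.rp 24 (.thr 60 41 (.thr 12 44 (.thr 6 9 (.thr 38 54 (.thr 4 55 (.thr 7 5 (.dbl 52 36 37))))))) (.rp 19 (.thr 60 41 (.thr 12 44 (.thr 6 9 (.thr 38 54 (.thr 4 55 (.thr 7 5 (.dbl 52 36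 37))))))) (.rp 18 (.thr 60 41 (.thr 12 44 (.thr 6 9 (.thr 38 54 (.thr 4 55 (.thr 7 5 (.dbl 52 36 37))))))) (.rp 16 (.thr 60 41 (.thr 12 44 (.thr 6 9 (.thr 38 54 (.thr 4 55 (.thr 7 5 (.dbl 52 36 37))))))) (.rp 15 (.thr 24 16 (.thr 60 41 (.thr 12 44 (.thr 48 36 (.thr 18 33 (.thr 25 19 (.dbl 26 27 30))))))) (.rp 12 (.thr 16 24 (.thr 26 31 (.thr 18 30 (.thr 48 33 (.thr 37 15 (.thr 52 7 (.dbl 60 41 56))))))) (.rp 11 (.thr 16 24 (.thr 26 31 (.thr 18 30 (.thr 48 33 (.thr 37 15 (.thr 52 7 (.dbl 60 41 56))))))) (.rp 9 (.thr 16 24 (.thr 26 31 (.thr 18 30 (.thr 48 33 (.thr 37 15 (.thr 52 7 (.dbl 60 41 56))))))) (.rp 7 (.thr 24 16 (.thr 60 41 (.thr 12 44 (.thr 48 36 (.thr 18 33 (.thr 25 19 (.dbl 26 27 30))))))) .nd)))))))))))))))))))))))) (.rp 44 (.thr 16 24 (.thr 26 31 (.thr 18 30 (.thr 48 33 (.thr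 15 37 (.thr 11 7 (.dbl 41 56 60))))))) (.rp 41 (.thr 16 24 (.thr 26 31 (.thr 18 30 (.thr 48 33 (.thr 37 15 (.thr 52 7 (.thr 4 36 (.thr 55 38 (.dbl 53 5 54))))))))) (.rp 38 (.thr 16 24 (.thr 26 31 (.thr 18 30 (.thr 48 33 (.thr 15 37 (.thr 11 7 (.dbl 41 56 60))))))) (.rp 35 (.thr 16 24 (.thr 26 31 (.thr 18 30 (.thr 48 33 (.thr 15 37 (.thr 11 7 (.dbl 41 56 60))))))) (.rp 34 (.str 51 (.nv (.dbl 19 25 35) (.rp 50 (.str 18 (.nv (.thr 16 24 (.dbl 26 30 31)) (.nv (.dbl 19 25 35) .nd))) (.rp 35 (.thr 25 19 (.thr 12 38 (.dbl 60 41 44))) (.rp 25 (.thr 35 19 (.thr 41 60 (.thr 38 44 (.thr 4 55 (.thr 52 36 (.thr 7 37 (.dbl 6 5 54))))))) (.rp 19 (.thr 60 41 (.thr 12 44 (.thr 38 25 (.dbl 6 9 54)))) (.rp 18 (.str 50 (.nv (.dbl 19 25 35) (.rp 35 (.thr 25 19 (.thr 16 24 (.thr 38 12 (.dbl 26 14 31)))) (.rp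 25 (.thr 48 49 (.thr 60 41 (.thr 12 44 (.dbl 24 16 36)))) (.rp 19 (.thr 16 24 (.thr 60 41 (.thr 12 44 (.thr 38 25 (.dbl 6 9 54))))) .nd))))) .nd))))))) (.rp 25 (.thr 16 24 (.thr 26 31 (.thr 18 30 (.thr 48 33 (.thr 15 37 (.thr 11 7 (.dbl 41 56 60))))))) (.rp 19 (.thr 60 41 (.thr 12 44 (.thr 6 9 (.thr 38 54 (.thr 4 55 (.thr 7 5 (.dbl 52 36 37))))))) (.rp 12 (.thr 16 24 (.thr 26 31 (.thr 18 30 (.thr 48 33 (.thr 15 37 (.thr 11 7 (.dbl 41 56 60))))))) (.rp 9 (.thr 16 24 (.thr 26 31 (.thr 18 30 (.thr 48 33 (.thr 15 37 (.thr 11 7 (.dbl 41 56 60))))))) (.rp 6 (.thr 16 24 (.thr 26 31 (.thr 18 30 (.thr 48 33 (.thr 15 37 (.thr 11 7 (.dbl 41 56 60))))))) .nd)))))))))))))))) (.rp 16 (.str 1 (.nv (.thr 25 19 (.thr 17 29 (.thr 49 33 (.thr 37 13 (.thr 52 7 (.thr 4 36 (.thr 53 5 (.dbl 55 38 54))))))))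 (.nv (.thr 25 19 (.thr 41 61 (.thr 57 9 (.thr 60 3 (.thr 12 44 (.dbl 51 38 54)))))) (.nv (.thr 25 19 (.thr 17 29 (.thr 49 33 (.thr 13 37 (.thr 41 61 (.dbl 9 5 57)))))) (.rp 61 (.thr 25 19 (.thr 17 29 (.thr 49 33 (.thr 13 37 (.thr 9 5 (.thr 41 57 (.thr 60 3 (.thr 12 44 (.thr 51 38 (.thr 48 50 (.thr 52 56 (.dbl 36 4 24)))))))))))) (.rp 48 (.str 32 (.nv (.thr 25 19 (.thr 17 29 (.thr 41 61 (.thr 9 57 (.thr 13 5 (.dbl 49 33 37)))))) (.nv (.thr 41 61 (.thr 60 3 (.thr 44 12 (.thr 36 40 (.thr 4 52 (.dbl 38 35 55)))))) (.nv (.thr 25 19 (.thr 17 29 (.thr 49 33 (.thr 37 13 (.thr 61 41 (.dbl 53 5 57)))))) (.rp 61 (.str 4 (.nv (.thr 25 19 (.thr 17 29 (.thr 49 33 (.thr 52 36 (.dbl 37 7 13))))) (.nv (.thr 25 19 (.thr 38 55 (.thr 12 51 (.thr 60 44 (.thr 3 41 (.dbl 6 9 54)))))) (.nv (.thr 52 36 (.thr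 37 7 (.thr 55 38 (.dbl 53 5 54)))) (.rp 12 (.thr 38 55 (.thr 6 54 (.thr 7 5 (.dbl 52 36 37)))) (.rp 7 (.thr 36 52 (.thr 44 40 (.thr 60 12 (.thr 41 3 (.dbl 38 35 55))))) .nd)))))) (.rp 41 (.thr 25 19 (.thr 17 29 (.thr 49 33 (.thr 37 13 (.thr 52 7 (.thr 4 36 (.thr 53 5 (.dbl 55 38 54)))))))) (.rp 33 (.thr 25 19 (.thr 41 61 (.thr 3 60 (.thr 9 57 (.thr 5 13 (.thr 6 12 (.thr 4 7 (.dbl 38 54 55)))))))) .nd))))))) (.rp 32 (.str 48 (.nv (.thr 25 19 (.thr 17 29 (.thr 41 61 (.thr 9 57 (.thr 13 5 (.dbl 49 33 37)))))) (.nv (.thr 41 61 (.thr 60 3 (.thr 12 44 (.thr 36 24 (.dbl 52 4 56))))) (.rp 61 (.thr 25 19 (.thr 17 29 (.thr 49 33 (.thr 51 50 (.thr 12 38 (.thr 60 44 (.thr 52 56 (.dbl 37 7 13)))))))) (.rp 41 (.thr 25 19 (.thr 17 29 (.thr 49 33 (.thr 51 50 (.thr 37 13 (.thr 26 15 (.thr 12 38 (.dbl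 24 27 36)))))))) .nd))))) (.rp 31 (.thr 41 61 (.thr 60 3 (.thr 44 12 (.thr 38 35 (.thr 4 55 (.thr 52 36 (.thr 7 37 (.dbl 6 5 54)))))))) (.rp 27 (.thr 41 61 (.thr 60 3 (.thr 44 12 (.thr 38 35 (.thr 4 55 (.thr 52 36 (.thr 7 37 (.dbl 6 5 54)))))))) (.rp 25 (.thr 41 61 (.thr 60 3 (.thr 44 12 (.thr 38 35 (.thr 4 55 (.thr 52 36 (.thr 7 37 (.dbl 6 5 54)))))))) (.rp 19 (.str 17 (.nv (.thr 25 29 (.thr 49 33 (.thr 37 13 (.thr 52 7 (.thr 4 36 (.thr 53 5 (.dbl 55 38 54))))))) (.nv (.thr 25 29 (.thr 41 61 (.thr 57 9 (.thr 60 3 (.thr 12 44 (.dbl 51 38 54)))))) (.nv (.thr 25 29 (.thr 49 33 (.thr 13 37 (.thr 41 61 (.dbl 9 5 57))))) (.rp 61 (.thr 25 29 (.thr 49 33 (.thr 13 37 (.thr 9 5 (.thr 41 57 (.thr 60 3 (.thr 12 44 (.thr 51 38 (.thr 48 50 (.thr 52 56 (.dbl 36 4 24))))))))))) (.rp 48 (.str 32 (.nv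 (.thr 25 29 (.thr 41 61 (.thr 9 57 (.thr 13 5 (.dbl 49 33 37))))) (.nv (.thr 41 61 (.thr 60 3 (.thr 44 12 (.thr 36 40 (.thr 4 52 (.dbl 38 35 55)))))) (.nv (.thr 25 29 (.thr 49 33 (.thr 37 13 (.thr 61 41 (.dbl 53 5 57))))) (.rp 61 (.thr 29 25 (.str 4 (.nv (.thr 31 30 (.thr 33 49 (.thr 35 34 (.thr 36 52 (.thr 44 40 (.dbl 38 41 55)))))) (.nv (.thr 38 55 (.thr 6 54 (.thr 52 36 (.dbl 7 5 37)))) (.rp 55 (.thr 36 52 (.thr 44 40 (.thr 60 12 (.thr 41 3 (.thr 33 49 (.dbl 35 34 38)))))) (.rp 52 (.thr 33 49 (.thr 35 34 (.thr 38 55 (.thr 41 44 (.thr 37 45 (.thr 39 36 (.dbl 47 42 43))))))) (.rp 38 (.thr 31 30 (.thr 52 36 (.thr 37 7 (.thr 47 42 (.thr 33 49 (.thr 45 41 (.thr 63 15 (.dbl 46 12 44)))))))) (.rp 37 (.thr 36 52 (.thr 44 40 (.thr 60 12 (.thr 41 3 (.dbl 38 35 55))))) (.rp 36 (.thr 33 49 (.thr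 34 35 (.thr 38 55 (.thr 42 46 (.thr 37 47 (.thr 7 52 (.dbl 5 6 53))))))) (.rp 31 (.str 27 (.nv (.thr 36 52 (.thr 38 55 (.thr 44 40 (.thr 35 41 (.dbl 33 34 49))))) (.nv (.thr 33 49 (.thr 35 34 (.thr 36 52 (.thr 44 40 (.thr 41 38 (.dbl 60 3 12)))))) (.nv (.thr 38 55 (.thr 6 54 (.thr 52 36 (.dbl 7 5 37)))) (.rp 52 (.thr 33 49 (.thr 35 34 (.thr 38 55 (.thr 41 44 (.thr 37 45 (.thr 39 36 (.dbl 47 42 43))))))) (.rp 38 (.thr 33 49 (.thr 35 34 (.thr 52 36 (.thr 37 7 (.thr 45 41 (.thr 47 42 (.thr 46 44 (.thr 53 5 (.thr 43 39 (.thr 55 54 (.thr 59 11 (.dbl 63 12 51)))))))))))) (.rp 36 (.thr 33 49 (.thr 34 35 (.thr 38 55 (.thr 42 46 (.thr 37 47 (.thr 7 52 (.dbl 5 6 53))))))) .nd))))))) .nd)))))))))) (.rp 41 (.thr 25 29 (.thr 49 33 (.thr 37 13 (.thr 52 7 (.thr 4 36 (.thr 53 5 (.dbl 55 38 54)))))))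 (.rp 33 (.str 18 (.nv (.thr 29 25 (.dbl 30 26 31)) (.rp 31 (.str 27 (.nv (.thr 25 29 (.dbl 26 24 30)) (.rp 30 (.thr 25 29 (.thr 41 61 (.thr 57 9 (.thr 60 3 (.thr 12 44 (.dbl 51 38 54)))))) (.rp 29 (.thr 41 61 (.thr 60 3 (.thr 44 12 (.thr 36 40 (.thr 4 52 (.dbl 38 35 55)))))) (.rp 26 (.thr 25 29 (.thr 41 61 (.thr 57 9 (.thr 60 3 (.thr 12 44 (.dbl 51 38 54)))))) (.rp 25 (.thr 41 61 (.thr 60 3 (.thr 44 12 (.thr 36 40 (.thr 4 52 (.dbl 38 35 55)))))) (.rp 24 (.thr 25 29 (.thr 41 61 (.thr 57 9 (.thr 60 3 (.thr 12 44 (.dbl 51 38 54)))))) .nd))))))) (.rp 30 (.thr 25 29 (.thr 41 61 (.thr 60 3 (.thr 12 44 (.thr 57 9 (.dbl 51 38 54)))))) (.rp 29 (.thr 41 61 (.thr 60 3 (.thr 44 12 (.thr 36 40 (.thr 4 52 (.dbl 38 35 55)))))) (.rp 27 (.str 31 (.nv (.dbl 29 25 30) (.rp 30 (.thr 25 29 (.thr 41 61 (.thr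 60 3 (.thr 12 44 (.thr 57 9 (.dbl 51 38 54)))))) (.rp 29 (.thr 41 61 (.thr 60 3 (.thr 44 12 (.thr 36 40 (.thr 4 52 (.dbl 38 35 55)))))) (.rp 25 (.dbl 30 26 29) .nd))))) (.rp 26 (.thr 25 29 (.thr 41 61 (.thr 60 3 (.thr 12 44 (.thr 57 9 (.dbl 51 38 54)))))) (.rp 25 (.thr 41 61 (.thr 60 3 (.thr 44 12 (.thr 36 40 (.thr 4 52 (.dbl 38 35 55)))))) .nd)))))))) (.rp 31 (.str 27 (.nv (.thr 33 49 (.thr 35 34 (.thr 41 61 (.thr 44 38 (.dbl 60 3 12))))) (.nv (.thr 25 29 (.thr 26 24 (.thr 41 61 (.thr 11 56 (.thr 59 43 (.thr 8 42 (.dbl 9 10 57))))))) (.nv (.thr 25 29 (.thr 49 33 (.thr 37 13 (.thr 61 41 (.dbl 53 5 57))))) (.rp 61 (.thr 25 29 (.thr 26 24 (.thr 49 33 (.thr 13 37 (.thr 9 5 (.thr 41 57 (.thr 11 56 (.thr 59 43 (.dbl 8 10 42))))))))) (.rp 57 (.thr 41 61 (.thr 60 3 (.thr 44 12 (.thr 35 38 (.dbl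 33 34 49))))) (.rp 41 (.thr 25 29 (.thr 49 33 (.thr 37 13 (.thr 52 7 (.thr 4 36 (.thr 53 5 (.dbl 55 38 54))))))) (.rp 3 (.thr 25 29 (.thr 41 61 (.thr 9 57 (.thr 13 5 (.dbl 49 33 37))))) .nd)))))))) (.rp 27 (.str 31 (.nv (.dbl 29 25 30) (.rp 30 (.thr 25 29 (.thr 49 33 (.thr 13 37 (.thr 9 5 (.dbl 41 57 61))))) (.rp 29 (.thr 33 49 (.thr 35 34 (.thr 41 61 (.thr 44 38 (.dbl 60 3 12))))) (.rp 25 (.thr 30 29 (.thr 33 49 (.thr 41 61 (.thr 60 3 (.dbl 45 15 37))))) .nd))))) .nd))))))))) (.rp 32 (.str 48 (.nv (.thr 29 25 (.thr 33 49 (.thr 18 3 (.dbl 30 26 31)))) (.nv (.thr 41 61 (.thr 60 3 (.thr 12 44 (.thr 36 24 (.dbl 52 4 56))))) (.nv (.thr 25 29 (.thr 41 61 (.thr 9 57 (.thr 13 5 (.dbl 49 33 37))))) (.nv (.thr 41 61 (.thr 3 60 (.dbl 33 18 49))) (.rp 31 (.str 27 (.nv (.thr 25 29 (.thr 24 26 (.thr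 12 36 (.thr 41 61 (.dbl 60 3 44))))) (.nv (.thr 25 29 (.thr 26 24 (.thr 37 15 (.thr 5 53 (.dbl 13 9 49))))) (.nv (.thr 41 61 (.thr 3 60 (.dbl 33 18 49))) .nd)))) (.rp 27 (.str 31 (.nv (.thr 33 49 (.thr 3 18 (.dbl 41 60 61))) (.nv (.dbl 29 25 30) .nd))) .nd))))))) (.rp 31 (.str 27 (.nv (.thr 25 29 (.thr 26 24 (.thr 18 30 (.thr 33 49 (.thr 48 3 (.thr 37 15 (.dbl 41 45 61))))))) (.nv (.thr 25 29 (.thr 41 61 (.thr 57 9 (.thr 60 3 (.thr 12 44 (.dbl 51 38 54)))))) (.nv (.thr 25 29 (.thr 49 33 (.thr 13 37 (.thr 41 61 (.dbl 9 5 57))))) (.rp 61 (.thr 25 29 (.thr 26 24 (.thr 49 33 (.thr 13 37 (.thr 9 5 (.thr 41 57 (.thr 11 56 (.thr 59 43 (.dbl 8 10 42))))))))) (.rp 48 (.str 32 (.nv (.thr 33 49 (.thr 35 34 (.thr 41 61 (.thr 44 38 (.dbl 60 3 12))))) (.nv (.thr 25 29 (.thr 26 24 (.thr 41 61 (.thr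 11 56 (.thr 59 43 (.thr 8 42 (.dbl 9 10 57))))))) (.nv (.thr 25 29 (.thr 49 33 (.thr 37 13 (.thr 61 41 (.dbl 53 5 57))))) (.rp 61 (.thr 25 29 (.thr 26 24 (.thr 49 33 (.thr 13 37 (.thr 9 5 (.thr 41 57 (.thr 11 56 (.thr 59 43 (.dbl 8 10 42))))))))) (.rp 57 (.thr 41 61 (.thr 60 3 (.thr 44 12 (.thr 35 38 (.dbl 33 34 49))))) (.rp 41 (.thr 25 29 (.thr 49 33 (.thr 37 13 (.thr 52 7 (.thr 4 36 (.thr 53 5 (.dbl 55 38 54))))))) (.rp 3 (.thr 25 29 (.thr 41 61 (.thr 9 57 (.thr 13 5 (.dbl 49 33 37))))) .nd)))))))) (.rp 41 (.thr 25 29 (.thr 49 33 (.thr 37 13 (.thr 53 5 (.thr 52 7 (.thr 55 54 (.dbl 4 36 38))))))) (.rp 32 (.str 48 (.nv (.thr 25 29 (.thr 24 26 (.thr 12 36 (.thr 41 61 (.dbl 60 3 44))))) (.nv (.thr 25 29 (.thr 26 24 (.thr 37 15 (.thr 5 53 (.dbl 13 9 49))))) (.nv (.thr 41 61 (.thr 3 60 (.dbl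 33 18 49))) .nd)))) (.rp 29 (.thr 49 33 (.thr 61 41 (.thr 53 57 (.thr 37 5 (.thr 52 7 (.thr 55 54 (.dbl 4 36 38))))))) (.rp 25 (.thr 33 49 (.thr 41 61 (.thr 3 60 (.thr 48 18 (.thr 37 45 (.thr 7 52 (.dbl 15 11 26))))))) .nd)))))))))) (.rp 29 (.thr 49 33 (.thr 61 41 (.thr 53 57 (.thr 37 5 (.thr 52 7 (.thr 55 54 (.dbl 4 36 38))))))) (.rp 27 (.str 31 (.nv (.dbl 29 25 30) (.rp 48 (.str 32 (.nv (.dbl 29 25 30) (.rp 30 (.thr 25 29 (.thr 49 33 (.thr 13 37 (.thr 9 5 (.dbl 41 57 61))))) (.rp 29 (.thr 33 49 (.thr 35 34 (.thr 41 61 (.thr 44 38 (.dbl 60 3 12))))) (.rp 25 (.thr 30 29 (.thr 33 49 (.thr 41 61 (.thr 60 3 (.dbl 45 15 37))))) .nd))))) (.rp 32 (.str 48 (.nv (.thr 33 49 (.thr 3 18 (.dbl 41 60 61))) (.nv (.dbl 29 25 30) .nd))) (.rp 30 (.thr 25 29 (.thr 49 33 (.thr 13 37 (.thr 9 5 (.dbl 41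 57 61))))) (.rp 29 (.thr 49 33 (.thr 61 41 (.thr 53 57 (.thr 37 5 (.thr 52 7 (.thr 55 54 (.dbl 4 36 38))))))) (.rp 25 (.thr 30 29 (.thr 33 49 (.thr 41 61 (.thr 3 60 (.dbl 18 26 48))))) .nd))))))) (.rp 25 (.thr 33 49 (.thr 41 61 (.thr 3 60 (.thr 48 18 (.thr 37 45 (.thr 7 52 (.dbl 15 11 26))))))) (.rp 13 (.thr 49 33 (.thr 61 41 (.thr 53 57 (.thr 37 5 (.thr 52 7 (.thr 55 54 (.dbl 4 36 38))))))) .nd)))))))))))) (.rp 17 (.thr 41 61 (.thr 60 3 (.thr 44 12 (.thr 38 35 (.thr 4 55 (.thr 52 36 (.thr 7 37 (.dbl 6 5 54)))))))) .nd)))))))))))) (.rp 3 (.str 1 (.nv (.thr 25 19 (.thr 17 29 (.thr 41 61 (.thr 9 57 (.thr 13 5 (.dbl 49 33 37)))))) (.nv (.thr 16 24 (.thr 19 25 (.thr 26 31 (.dbl 18 17 30)))) (.rp 63 (.str 43 (.nv (.thr 24 16 (.thr 41 61 (.thr 40 42 (.thr 56 8 (.thr 26 11 (.dbl 25 19 27))))))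 (.nv (.thr 25 19 (.thr 17 29 (.thr 41 61 (.thr 9 57 (.thr 13 5 (.dbl 49 33 37)))))) (.nv (.thr 16 24 (.thr 31 26 (.thr 29 30 (.dbl 25 17 19)))) (.rp 27 (.thr 19 25 (.thr 16 24 (.thr 26 31 (.dbl 18 17 30)))) (.rp 25 (.thr 16 24 (.thr 26 31 (.thr 18 30 (.thr 41 61 (.thr 11 56 (.thr 17 19 (.thr 27 59 (.thr 33 49 (.thr 37 45 (.thr 53 5 (.thr 52 7 (.thr 4 36 (.dbl 55 38 54))))))))))))) (.rp 19 (.thr 16 24 (.thr 31 26 (.thr 29 30 (.thr 25 17 (.thr 61 41 (.thr 13 45 (.thr 5 9 (.dbl 37 49 53)))))))) .nd))))))) (.rp 43 (.str 63 (.nv (.thr 16 24 (.thr 61 41 (.thr 60 62 (.thr 12 44 (.thr 29 46 (.dbl 31 26 30)))))) (.nv (.thr 25 19 (.thr 61 41 (.thr 60 62 (.thr 12 44 (.dbl 29 17 46))))) (.nv (.thr 19 25 (.thr 16 24 (.thr 26 31 (.dbl 18 17 30)))) (.rp 31 (.thr 61 41 (.thr 60 62 (.thr 12 44 (.thr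 29 46 (.dbl 25 17 19))))) .nd))))) (.rp 31 (.thr 24 16 (.thr 25 19 (.thr 27 26 (.thr 17 29 (.thr 49 33 (.thr 13 37 (.thr 9 5 (.dbl 41 57 61)))))))) (.rp 25 (.str 60 (.nv (.thr 16 24 (.thr 26 31 (.thr 30 18 (.thr 41 61 (.thr 56 11 (.thr 48 52 (.dbl 15 37 45))))))) (.nv (.thr 12 44 (.thr 24 16 (.thr 48 36 (.thr 52 56 (.thr 37 7 (.thr 5 53 (.thr 15 26 (.dbl 13 9 14)))))))) (.nv (.thr 12 44 (.thr 61 41 (.thr 63 62 (.thr 29 46 (.thr 30 31 (.dbl 45 13 15)))))) (.rp 63 (.str 43 (.nv (.thr 16 24 (.thr 26 31 (.thr 30 18 (.thr 15 45 (.thr 41 61 (.thr 48 37 (.dbl 56 11 52))))))) (.nv (.thr 41 61 (.thr 40 42 (.thr 44 12 (.thr 38 35 (.thr 4 55 (.dbl 36 32 52)))))) (.nv (.thr 12 44 (.thr 16 24 (.thr 26 31 (.thr 30 18 (.thr 15 45 (.thr 13 14 (.thr 5 9 (.dbl 37 48 53)))))))) (.nv (.thr 41 61 (.thr 24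 16 (.thr 12 44 (.thr 48 36 (.thr 56 52 (.dbl 40 8 42)))))) (.rp 41 (.thr 16 24 (.thr 12 44 (.thr 26 31 (.thr 30 18 (.thr 15 45 (.thr 14 13 (.thr 46 62 (.thr 38 50 (.thr 34 42 (.thr 4 55 (.thr 52 36 (.dbl 48 37 56)))))))))))) .nd)))))) (.rp 43 (.str 63 (.nv (.dbl 61 41 62) (.rp 62 (.thr 16 24 (.thr 12 44 (.thr 29 46 (.dbl 31 26 30)))) (.rp 61 (.thr 16 24 (.thr 12 44 (.thr 29 46 (.dbl 31 26 30)))) (.rp 41 (.thr 16 24 (.thr 12 44 (.thr 29 46 (.dbl 31 26 30)))) .nd))))) (.rp 41 (.thr 24 16 (.thr 12 44 (.thr 48 36 (.thr 52 56 (.thr 37 7 (.thr 53 5 (.thr 63 58 (.thr 61 62 (.thr 57 49 (.dbl 54 51 55)))))))))) (.rp 15 (.thr 16 24 (.thr 61 41 (.thr 63 62 (.thr 12 44 (.thr 29 46 (.dbl 31 26 30)))))) .nd)))))))) (.rp 19 (.thr 16 24 (.thr 31 26 (.thr 29 30 (.thr 25 17 (.thr 61 41 (.thr 13 45 (.thr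 5 9 (.dbl 37 49 53)))))))) (.rp 17 (.thr 16 24 (.thr 25 19 (.thr 31 26 (.thr 29 30 (.thr 61 41 (.thr 13 45 (.thr 5 9 (.dbl 37 49 53)))))))) .nd))))))))) (.rp 1 (.str 3 (.nv (.thr 60 41 (.thr 12 44 (.thr 6 9 (.thr 38 54 (.dbl 25 19 51))))) (.nv (.thr 19 25 (.thr 16 24 (.thr 26 31 (.dbl 18 17 30)))) (.rp 25 (.thr 16 24 (.thr 26 31 (.thr 18 30 (.thr 48 33 (.thr 15 37 (.thr 11 7 (.dbl 41 56 60))))))) (.rp 19 (.thr 24 16 (.thr 60 41 (.thr 12 44 (.thr 6 9 (.thr 38 54 (.thr 4 55 (.dbl 36 48 52))))))) .nd))))) .nd)))))))))))))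

theorem w4 : WinAt (7340032, 8388613) :=
  chF (K := []) kn c4 7340032 8388613 23
    [15] (by decide +kernel) (by decide +kernel)

/-- A certificate. -/
noncomputable def c5 : Ct := (.str 16 (.nv (.thr 19 28 (.thr 23 20 (.dbl 31 26 27))) (.nv (.thr 28 19 (.dbl 20 23 24)) (.rp 51 (.str 34 (.nv (.thr 20 23 (.dbl 28 19 24)) (.nv (.thr 19 28 (.thr 31 26 (.dbl 23 20 27))) (.rp 28 (.str 2 (.nv (.thr 26 31 (.dbl 18 30 50)) (.rp 50 (.thr 23 20 (.thr 42 62 (.thr 38 46 (.thr 55 4 (.thr 7 39 (.thr 54 6 (.dbl 52 37 53))))))) (.rp 35 (.str 19 (.nv (.thr 18 50 (.dbl 26 30 31)) (.nv (.thr 31 26 (.dbl 23 20 27)) (.rp 31 (.thr 50 18 (.thr 42 62 (.thr 38 46 (.thr 14 26 (.dbl 6 10 54))))) (.rp 26 (.thr 23 20 (.thr 42 62 (.thr 38 46 (.thr 55 4 (.thr 7 39 (.thr 54 6 (.dbl 52 37 53))))))) .nd))))) (.rp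 31 (.thr 50 18 (.thr 42 62 (.thr 38 46 (.thr 14 26 (.dbl 6 10 54))))) (.rp 30 (.thr 50 18 (.thr 42 62 (.thr 38 46 (.thr 14 26 (.dbl 6 10 54))))) (.rp 29 (.thr 18 50 (.dbl 26 30 31)) (.rp 26 (.thr 23 20 (.thr 42 62 (.thr 38 46 (.thr 55 4 (.thr 7 39 (.thr 54 6 (.dbl 52 37 53))))))) (.rp 19 (.str 35 (.nv (.thr 26 31 (.dbl 18 30 50)) (.nv (.thr 18 50 (.dbl 26 30 31)) (.rp 50 (.thr 32 33 (.thr 42 62 (.thr 37 47 (.thr 38 46 (.thr 36 39 (.dbl 44 40 41)))))) (.rp 31 (.thr 50 18 (.thr 42 62 (.thr 38 46 (.thr 14 26 (.dbl 6 10 54))))) (.rp 30 (.thr 50 18 (.thr 42 62 (.thr 38 46 (.thr 14 26 (.dbl 6 10 54))))) (.rp 26 (.thr 32 33 (.thr 42 62 (.thr 37 47 (.thr 38 46 (.thr 36 39 (.dbl 44 40 41)))))) (.rp 18 (.thr 26 31 (.thr 42 62 (.thr 38 46 (.thr 14 50 (.dbl 6 10 54))))) .nd)))))))) (.rp 18 (.thr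 26 31 (.thr 42 62 (.thr 38 46 (.thr 14 50 (.dbl 6 10 54))))) .nd)))))))))) (.rp 23 (.thr 26 31 (.thr 27 24 (.thr 18 30 (.thr 2 50 (.thr 42 62 (.thr 59 8 (.thr 58 10 (.thr 56 57 (.dbl 11 41 43))))))))) (.rp 20 (.thr 26 31 (.thr 27 24 (.thr 18 30 (.thr 2 50 (.thr 42 62 (.thr 59 8 (.thr 11 43 (.thr 58 10 (.dbl 56 41 57))))))))) (.rp 19 (.str 35 (.nv (.thr 20 23 (.thr 24 28 (.dbl 26 27 31))) (.rp 63 (.thr 26 31 (.thr 27 24 (.thr 18 30 (.thr 32 33 (.thr 2 50 (.thr 42 62 (.thr 47 37 (.thr 43 39 (.dbl 59 8 11))))))))) (.rp 43 (.thr 23 20 (.thr 26 31 (.thr 18 30 (.thr 32 33 (.thr 2 50 (.thr 42 62 (.thr 37 47 (.thr 7 52 (.thr 39 55 (.dbl 38 36 46)))))))))) (.rp 31 (.str 2 (.nv (.thr 32 33 (.thr 42 62 (.thr 47 37 (.thr 43 39 (.thr 41 40 (.dbl 38 44 46)))))) (.nv (.thr 23 20 (.thr 42 62 (.thr 38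 46 (.thr 41 44 (.thr 55 4 (.thr 39 7 (.dbl 43 40 47))))))) (.nv (.thr 50 18 (.thr 42 62 (.thr 38 46 (.thr 14 26 (.dbl 6 10 54))))) (.rp 62 (.str 43 (.nv (.thr 23 20 (.thr 39 47 (.thr 55 7 (.thr 38 4 (.thr 41 44 (.dbl 42 40 46)))))) (.nv (.thr 18 50 (.thr 26 30 (.thr 27 24 (.thr 32 33 (.thr 47 39 (.thr 59 11 (.dbl 42 8 37))))))) (.nv (.thr 18 50 (.thr 26 30 (.thr 27 24 (.thr 11 59 (.thr 41 56 (.thr 38 44 (.dbl 42 40 46))))))) (.nv (.thr 23 20 (.thr 39 47 (.thr 55 7 (.thr 38 4 (.thr 6 54 (.thr 14 10 (.dbl 50 18 26))))))) (.nv (.thr 47 39 (.thr 32 33 (.thr 42 37 (.thr 38 46 (.dbl 41 40 44))))) (.rp 23 (.str 27 (.nv (.thr 47 39 (.thr 59 11 (.thr 42 8 (.dbl 32 33 37)))) (.nv (.thr 26 24 (.dbl 18 30 50)) .nd))) .nd))))))) (.rp 46 (.thr 23 20 (.thr 32 33 (.thr 42 62 (.thr 37 47 (.thr 5 53 (.thr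 7 52 (.thr 4 6 (.dbl 55 38 39)))))))) (.rp 42 (.thr 18 50 (.thr 26 30 (.thr 27 24 (.thr 33 32 (.str 37 (.nv (.thr 7 52 (.thr 23 20 (.thr 41 45 (.thr 38 44 (.dbl 39 36 55))))) (.nv (.thr 5 53 (.thr 7 52 (.thr 23 20 (.thr 55 39 (.dbl 4 6 38))))) (.nv (.thr 49 13 (.thr 41 45 (.thr 61 1 (.dbl 53 5 57)))) (.rp 60 (.thr 49 13 (.thr 53 5 (.thr 57 61 (.dbl 41 9 45)))) (.rp 49 (.thr 48 15 (.thr 23 20 (.thr 7 52 (.thr 5 53 (.thr 4 6 (.dbl 55 38 39)))))) (.rp 29 (.str 28 (.nv (.thr 7 52 (.thr 23 20 (.thr 41 45 (.thr 38 44 (.dbl 39 36 55))))) (.nv (.thr 5 53 (.thr 7 52 (.thr 4 6 (.thr 55 38 (.dbl 23 20 39))))) (.nv (.thr 49 13 (.thr 41 45 (.thr 61 1 (.dbl 53 5 57)))) (.rp 49 (.thr 48 15 (.thr 23 20 (.thr 7 52 (.thr 5 53 (.thr 4 6 (.dbl 55 38 39)))))) .nd))))) (.rp 28 (.str 29 (.nv (.thr 49 13 (.thr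 41 45 (.thr 53 5 (.dbl 57 9 61)))) (.nv (.thr 45 41 (.dbl 13 49 61)) (.rp 61 (.thr 20 23 (.thr 41 45 (.thr 38 44 (.thr 36 39 (.dbl 4 52 55))))) (.rp 49 (.thr 48 15 (.thr 23 20 (.thr 7 52 (.thr 5 53 (.thr 4 6 (.dbl 55 38 39)))))) (.rp 45 (.thr 20 23 (.thr 52 7 (.thr 4 36 (.thr 53 5 (.dbl 55 38 54))))) (.rp 41 (.thr 20 23 (.thr 52 7 (.thr 4 36 (.thr 53 5 (.dbl 55 38 54))))) (.rp 13 (.thr 20 23 (.thr 41 45 (.thr 38 44 (.thr 36 39 (.dbl 4 52 55))))) .nd)))))))) .nd)))))))))))) (.rp 38 (.thr 32 33 (.thr 18 50 (.thr 26 30 (.thr 27 24 (.thr 42 62 (.thr 47 37 (.thr 59 8 (.dbl 43 11 39)))))))) (.rp 23 (.str 27 (.nv (.thr 26 24 (.dbl 18 30 50)) (.rp 63 (.str 43 (.nv (.thr 26 24 (.dbl 18 30 50)) (.nv (.thr 59 11 (.dbl 42 8 62)) (.rp 59 (.str 55 (.nv (.thr 47 39 (.thr 38 4 (.dbl 42 46 62))) (.nv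 (.thr 26 24 (.dbl 18 30 50)) (.rp 47 (.str 15 (.nv (.thr 38 4 (.dbl 42 46 62)) (.nv (.thr 26 24 (.dbl 18 30 50)) .nd))) .nd)))) (.rp 47 (.str 15 (.nv (.thr 26 24 (.dbl 18 30 50)) (.nv (.thr 59 11 (.dbl 42 8 62)) (.rp 59 (.str 55 (.nv (.thr 38 4 (.dbl 42 46 62)) (.nv (.thr 26 24 (.dbl 18 30 50)) .nd))) .nd)))) (.rp 15 (.thr 47 39 (.thr 26 24 (.dbl 18 30 50))) .nd)))))) (.rp 50 (.thr 32 33 (.thr 42 62 (.thr 47 37 (.thr 43 39 (.dbl 59 8 11))))) (.rp 43 (.str 63 (.nv (.thr 26 24 (.dbl 18 30 50)) (.rp 50 (.thr 32 33 (.thr 26 24 (.thr 42 62 (.thr 58 10 (.thr 48 53 (.dbl 37 15 47)))))) (.rp 30 (.thr 50 18 (.thr 26 24 (.thr 42 62 (.dbl 38 14 46)))) (.rp 26 (.thr 32 33 (.thr 42 62 (.thr 37 47 (.thr 38 46 (.thr 36 39 (.dbl 44 40 41)))))) (.rp 24 (.thr 50 18 (.thr 42 62 (.thr 38 46 (.thr 6 54 (.dbl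 14 10 26))))) (.rp 18 (.thr 26 24 (.thr 42 62 (.thr 10 58 (.thr 38 46 (.dbl 6 14 54))))) .nd))))))) (.rp 30 (.thr 26 24 (.thr 50 18 (.thr 38 14 (.dbl 42 46 62)))) (.rp 26 (.thr 32 33 (.thr 42 62 (.thr 47 37 (.thr 43 39 (.dbl 59 8 11))))) (.rp 24 (.thr 32 33 (.thr 42 62 (.thr 47 37 (.thr 43 39 (.dbl 59 8 11))))) (.rp 18 (.thr 26 24 (.thr 42 62 (.thr 38 46 (.thr 14 50 (.dbl 6 10 54))))) .nd))))))))) .nd))))))))) (.rp 28 (.str 2 (.nv (.thr 26 31 (.dbl 18 30 50)) (.nv (.thr 18 50 (.dbl 26 30 31)) (.rp 50 (.thr 32 33 (.thr 42 62 (.thr 37 47 (.thr 38 46 (.thr 36 39 (.dbl 44 40 41)))))) (.rp 31 (.thr 50 18 (.thr 42 62 (.thr 38 46 (.thr 14 26 (.dbl 6 10 54))))) (.rp 30 (.thr 50 18 (.thr 42 62 (.thr 38 46 (.thr 14 26 (.dbl 6 10 54))))) (.rp 26 (.thr 32 33 (.thr 42 62 (.thr 37 47 (.thr 38 46 (.thr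 36 39 (.dbl 44 40 41)))))) (.rp 18 (.thr 26 31 (.thr 42 62 (.thr 38 46 (.thr 14 50 (.dbl 6 10 54))))) .nd)))))))) (.rp 27 (.thr 23 20 (.thr 26 31 (.thr 18 30 (.thr 32 33 (.thr 2 50 (.thr 42 62 (.thr 37 47 (.thr 7 52 (.thr 39 55 (.dbl 38 36 46)))))))))) (.rp 26 (.str 42 (.nv (.thr 32 33 (.thr 37 47 (.thr 38 46 (.thr 44 41 (.dbl 36 39 40))))) (.nv (.thr 2 62 (.thr 20 23 (.thr 38 46 (.thr 6 54 (.thr 4 55 (.thr 7 5 (.dbl 52 36 37))))))) (.nv (.thr 32 33 (.thr 38 46 (.thr 41 44 (.thr 47 37 (.dbl 43 39 40))))) (.rp 46 (.thr 20 23 (.thr 24 28 (.thr 32 33 (.thr 47 37 (.thr 43 39 (.thr 8 59 (.dbl 40 41 56))))))) (.rp 38 (.thr 20 23 (.thr 24 28 (.thr 32 33 (.thr 47 37 (.thr 8 59 (.thr 40 56 (.dbl 43 39 41))))))) (.rp 37 (.thr 20 23 (.thr 24 28 (.thr 38 46 (.thr 41 44 (.thr 8 59 (.dbl 40 43 56))))))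 (.rp 2 (.str 1 (.nv (.thr 32 33 (.thr 37 47 (.thr 5 53 (.dbl 13 9 49)))) (.nv (.thr 38 46 (.dbl 41 44 61)) .nd))) .nd)))))))) (.rp 24 (.thr 26 31 (.thr 18 30 (.thr 32 33 (.thr 2 50 (.thr 42 62 (.thr 47 37 (.thr 43 39 (.thr 41 40 (.dbl 38 44 46))))))))) (.rp 23 (.thr 26 31 (.thr 27 24 (.thr 18 30 (.thr 32 33 (.thr 2 50 (.thr 42 62 (.thr 47 37 (.thr 43 39 (.dbl 59 8 11))))))))) (.rp 20 (.thr 26 31 (.thr 27 24 (.thr 18 30 (.thr 32 33 (.thr 2 50 (.thr 42 62 (.thr 47 37 (.thr 43 39 (.dbl 59 8 11))))))))) (.rp 2 (.str 1 (.nv (.thr 33 32 (.thr 41 61 (.thr 9 57 (.thr 5 13 (.dbl 37 45 53))))) (.nv (.thr 20 23 (.thr 24 28 (.dbl 26 27 31))) .nd))) (.rp 1 (.str 2 (.nv (.thr 33 32 (.thr 20 23 (.thr 24 28 (.dbl 26 27 31)))) (.nv (.thr 18 50 (.dbl 26 30 31)) (.rp 33 (.str 49 (.nv (.thr 20 23 (.thr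 24 28 (.dbl 26 27 31))) (.nv (.thr 18 50 (.dbl 26 30 31)) (.rp 31 (.thr 37 13 (.thr 42 62 (.thr 38 46 (.thr 39 36 (.dbl 47 32 43))))) (.rp 26 (.thr 37 13 (.thr 42 62 (.thr 38 46 (.thr 39 36 (.dbl 47 32 43))))) (.rp 18 (.str 48 (.nv (.thr 20 23 (.thr 24 28 (.dbl 26 27 31))) (.nv (.thr 37 13 (.dbl 26 15 31)) (.rp 31 (.thr 37 13 (.thr 42 62 (.thr 38 46 (.thr 39 36 (.dbl 47 32 43))))) (.rp 26 (.thr 20 23 (.thr 37 13 (.thr 52 7 (.thr 36 4 (.dbl 24 12 28))))) .nd))))) .nd)))))) (.rp 31 (.thr 50 18 (.thr 42 62 (.thr 38 46 (.thr 14 26 (.dbl 6 10 54))))) (.rp 26 (.thr 42 62 (.thr 38 46 (.thr 41 44 (.thr 43 40 (.thr 47 39 (.dbl 32 33 37)))))) .nd)))))) .nd))))))))))))) (.rp 2 (.str 1 (.nv (.thr 20 23 (.dbl 28 19 24)) (.nv (.thr 19 28 (.thr 31 26 (.dbl 23 20 27))) (.rp 28 (.thr 26 31 (.thr 27 24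 (.thr 41 61 (.thr 9 57 (.thr 11 56 (.thr 8 10 (.dbl 59 42 43))))))) (.rp 23 (.thr 26 31 (.thr 27 24 (.thr 41 61 (.thr 9 57 (.thr 11 56 (.thr 8 10 (.dbl 59 42 43))))))) (.rp 20 (.thr 26 31 (.thr 27 24 (.thr 41 61 (.thr 9 57 (.thr 11 56 (.thr 8 10 (.dbl 59 42 43))))))) (.rp 19 (.str 35 (.nv (.thr 33 32 (.thr 41 61 (.thr 9 57 (.thr 5 13 (.dbl 37 45 53))))) (.nv (.thr 20 23 (.thr 24 28 (.dbl 26 27 31))) .nd))) .nd))))))) (.rp 1 (.str 2 (.nv (.thr 20 23 (.dbl 28 19 24)) (.nv (.thr 26 31 (.dbl 18 30 50)) (.rp 49 (.str 33 (.nv (.thr 20 23 (.dbl 28 19 24)) (.nv (.thr 26 31 (.dbl 18 30 50)) (.rp 50 (.str 48 (.nv (.thr 19 28 (.thr 23 20 (.dbl 31 26 27))) (.nv (.thr 26 31 (.thr 37 15 (.thr 42 62 (.dbl 32 35 47)))) (.nv (.thr 35 32 (.thr 28 19 (.dbl 20 23 24))) (.rp 19 (.thr 35 32 (.thr 20 23 (.thr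 24 28 (.dbl 26 27 31)))) .nd))))) (.rp 48 (.thr 50 18 (.thr 20 23 (.dbl 28 19 24))) (.rp 35 (.thr 19 28 (.thr 23 20 (.dbl 31 26 27))) (.rp 19 (.thr 35 32 (.thr 26 31 (.dbl 18 30 50))) .nd))))))) (.rp 35 (.thr 19 28 (.thr 23 20 (.dbl 31 26 27))) (.rp 33 (.str 49 (.nv (.thr 20 23 (.dbl 28 19 24)) (.nv (.thr 18 50 (.dbl 26 30 31)) (.rp 35 (.thr 19 28 (.thr 18 50 (.dbl 26 30 31))) (.rp 19 (.str 35 (.nv (.thr 20 23 (.thr 24 28 (.dbl 26 27 31))) (.nv (.thr 18 50 (.dbl 26 30 31)) (.rp 31 (.thr 37 13 (.thr 42 62 (.thr 38 46 (.thr 39 36 (.dbl 47 32 43))))) (.rp 26 (.thr 37 13 (.thr 42 62 (.thr 38 46 (.thr 39 36 (.dbl 47 32 43))))) (.rp 18 (.str 48 (.nv (.thr 20 23 (.thr 24 28 (.dbl 26 27 31))) (.nv (.thr 37 13 (.dbl 26 15 31)) (.rp 31 (.thr 37 13 (.thr 42 62 (.thr 38 46 (.thr 39 36 (.dbl 47 32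 43))))) (.rp 26 (.thr 20 23 (.thr 37 13 (.thr 52 7 (.thr 36 4 (.dbl 24 12 28))))) .nd))))) .nd)))))) (.rp 18 (.str 48 (.nv (.thr 20 23 (.dbl 28 19 24)) (.nv (.thr 26 31 (.dbl 37 13 15)) (.rp 35 (.thr 19 28 (.thr 23 20 (.dbl 31 26 27))) (.rp 19 (.str 35 (.nv (.thr 20 23 (.thr 24 28 (.dbl 26 27 31))) (.nv (.thr 37 13 (.dbl 26 15 31)) (.rp 31 (.thr 37 13 (.thr 42 62 (.thr 38 46 (.thr 39 36 (.dbl 47 32 43))))) (.rp 26 (.thr 20 23 (.thr 37 13 (.thr 52 7 (.thr 36 4 (.dbl 24 12 28))))) .nd))))) .nd))))) .nd)))))) (.rp 19 (.str 35 (.nv (.thr 33 32 (.thr 20 23 (.thr 24 28 (.dbl 26 27 31)))) (.nv (.thr 18 50 (.dbl 26 30 31)) (.rp 33 (.str 49 (.nv (.thr 20 23 (.thr 24 28 (.dbl 26 27 31))) (.nv (.thr 18 50 (.dbl 26 30 31)) (.rp 31 (.thr 37 13 (.thr 42 62 (.thr 38 46 (.thr 39 36 (.dbl 47 32 43)))))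 (.rp 26 (.thr 37 13 (.thr 42 62 (.thr 38 46 (.thr 39 36 (.dbl 47 32 43))))) (.rp 18 (.str 48 (.nv (.thr 20 23 (.thr 24 28 (.dbl 26 27 31))) (.nv (.thr 37 13 (.dbl 26 15 31)) (.rp 31 (.thr 37 13 (.thr 42 62 (.thr 38 46 (.thr 39 36 (.dbl 47 32 43))))) (.rp 26 (.thr 20 23 (.thr 37 13 (.thr 52 7 (.thr 36 4 (.dbl 24 12 28))))) .nd))))) .nd)))))) (.rp 31 (.thr 50 18 (.thr 42 62 (.thr 38 46 (.thr 14 26 (.dbl 6 10 54))))) (.rp 26 (.thr 42 62 (.thr 38 46 (.thr 41 44 (.thr 43 40 (.thr 47 39 (.dbl 32 33 37)))))) .nd)))))) .nd))))))) .nd))))))))) (.rp 34 (.str 51 (.nv (.thr 28 19 (.dbl 20 23 24)) (.rp 28 (.thr 31 26 (.thr 23 20 (.thr 27 19 (.thr 39 15 (.thr 38 12 (.dbl 55 4 7)))))) (.rp 24 (.thr 31 26 (.thr 19 28 (.dbl 23 20 27))) (.rp 23 (.thr 28 19 (.thr 24 20 (.dbl 26 27 31))) (.rp 20 (.thr 26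 31 (.thr 27 24 (.thr 15 39 (.thr 48 37 (.thr 50 49 (.dbl 38 12 14)))))) (.rp 19 (.thr 20 23 (.thr 24 28 (.dbl 26 27 31))) (.rp 2 (.str 1 (.nv (.thr 41 61 (.thr 57 9 (.thr 54 60 (.dbl 38 6 12)))) (.nv (.thr 28 19 (.dbl 20 23 24)) (.rp 50 (.str 18 (.nv (.thr 20 23 (.dbl 28 19 24)) (.nv (.dbl 26 30 31) .nd))) (.rp 20 (.thr 28 19 (.thr 41 61 (.thr 57 9 (.thr 60 54 (.dbl 12 38 44))))) (.rp 18 (.str 50 (.nv (.thr 48 49 (.thr 20 23 (.dbl 28 19 24))) (.nv (.thr 26 31 (.dbl 38 12 14)) (.rp 48 (.str 33 (.nv (.thr 20 23 (.dbl 28 19 24)) (.nv (.thr 26 31 (.dbl 38 12 14)) .nd))) .nd)))) .nd)))))) (.rp 1 (.str 2 (.nv (.thr 26 31 (.thr 38 12 (.thr 6 54 (.dbl 14 10 50)))) (.nv (.thr 28 19 (.dbl 20 23 24)) (.rp 49 (.str 33 (.nv (.thr 26 31 (.thr 38 12 (.thr 6 54 (.dbl 14 10 50)))) (.nv (.thr 28 19 (.dbl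 20 23 24)) .nd))) (.rp 33 (.str 49 (.nv (.thr 48 50 (.thr 26 31 (.dbl 37 13 15))) (.nv (.thr 28 19 (.dbl 20 23 24)) (.rp 48 (.str 18 (.nv (.thr 20 23 (.dbl 28 19 24)) (.nv (.dbl 26 30 31) (.rp 35 (.str 32 (.nv (.thr 20 23 (.dbl 28 19 24)) (.nv (.dbl 26 30 31) .nd))) (.rp 32 (.str 35 (.nv (.thr 20 23 (.dbl 28 19 24)) (.nv (.dbl 26 30 31) .nd))) .nd))))) (.rp 35 (.str 32 (.nv (.thr 48 50 (.thr 26 31 (.dbl 37 13 15))) (.nv (.thr 28 19 (.dbl 20 23 24)) (.rp 48 (.str 18 (.nv (.thr 20 23 (.dbl 28 19 24)) (.nv (.dbl 26 30 31) .nd))) .nd)))) (.rp 32 (.str 35 (.nv (.thr 48 50 (.thr 26 31 (.dbl 37 13 15))) (.nv (.thr 28 19 (.dbl 20 23 24)) (.rp 48 (.str 18 (.nv (.thr 20 23 (.dbl 28 19 24)) (.nv (.dbl 26 30 31) .nd))) .nd)))) .nd)))))) .nd))))) .nd))))))))) (.rp 28 (.str 51 (.nv (.thr 31 26 (.thr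 23 20 (.thr 27 19 (.thr 15 39 (.thr 63 47 (.thr 55 59 (.dbl 38 4 12))))))) (.nv (.thr 20 23 (.thr 38 12 (.thr 6 54 (.thr 4 55 (.thr 7 5 (.dbl 52 36 37)))))) (.nv (.thr 12 38 (.thr 26 31 (.thr 27 24 (.thr 15 39 (.thr 13 14 (.dbl 37 48 49)))))) (.rp 38 (.thr 26 31 (.thr 27 24 (.thr 30 18 (.thr 15 39 (.thr 60 45 (.thr 57 54 (.thr 41 9 (.thr 56 11 (.dbl 48 37 52))))))))) (.rp 15 (.thr 20 23 (.thr 38 12 (.thr 4 55 (.thr 52 36 (.thr 7 37 (.dbl 6 5 54)))))) (.rp 12 (.thr 26 31 (.thr 27 24 (.thr 30 18 (.thr 15 39 (.thr 60 45 (.thr 57 54 (.thr 48 37 (.thr 56 52 (.dbl 41 9 11))))))))) (.rp 2 (.str 1 (.nv (.thr 12 38 (.thr 26 31 (.thr 24 27 (.thr 48 36 (.thr 49 50 (.dbl 37 13 15)))))) (.nv (.thr 41 61 (.thr 57 9 (.thr 54 60 (.dbl 38 6 12)))) (.rp 38 (.thr 26 31 (.thr 27 24 (.thr 15 39 (.thr 37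 48 (.thr 13 49 (.dbl 5 9 53)))))) (.rp 12 (.thr 26 31 (.thr 27 24 (.thr 30 18 (.thr 41 61 (.thr 15 39 (.thr 60 45 (.dbl 57 9 54))))))) .nd))))) (.rp 1 (.str 2 (.nv (.thr 20 23 (.thr 38 12 (.thr 4 55 (.thr 6 54 (.thr 7 5 (.dbl 52 36 37)))))) (.nv (.thr 26 31 (.thr 30 18 (.thr 62 42 (.thr 14 46 (.dbl 38 12 50))))) (.rp 49 (.str 33 (.nv (.thr 20 23 (.thr 38 12 (.thr 4 55 (.thr 6 54 (.thr 7 5 (.dbl 52 36 37)))))) (.nv (.thr 26 31 (.thr 30 18 (.thr 62 42 (.thr 14 46 (.dbl 38 12 50))))) (.rp 38 (.thr 26 31 (.thr 27 24 (.thr 15 39 (.thr 37 48 (.thr 30 18 (.dbl 45 41 60)))))) (.rp 12 (.thr 26 31 (.thr 30 18 (.thr 62 42 (.thr 14 46 (.thr 6 10 (.dbl 38 50 54)))))) .nd))))) (.rp 38 (.thr 26 31 (.thr 24 27 (.thr 42 62 (.thr 10 58 (.thr 8 59 (.thr 11 9 (.dbl 56 40 41))))))) (.rp 33 (.str 49 (.nv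 (.thr 42 62 (.thr 59 8 (.thr 55 63 (.dbl 38 4 12)))) (.nv (.thr 26 31 (.thr 50 48 (.dbl 18 30 34))) (.rp 48 (.str 18 (.nv (.thr 34 50 (.thr 38 12 (.dbl 42 46 62))) (.nv (.dbl 26 30 31) .nd))) (.rp 18 (.thr 48 50 (.thr 26 31 (.dbl 37 13 15))) .nd))))) (.rp 12 (.thr 26 31 (.thr 30 18 (.thr 62 42 (.thr 14 46 (.thr 6 10 (.dbl 38 50 54)))))) .nd))))))) .nd))))))))) (.rp 23 (.thr 28 19 (.thr 24 20 (.dbl 26 27 31))) (.rp 20 (.thr 26 31 (.str 51 (.nv (.thr 12 38 (.thr 27 24 (.thr 15 39 (.thr 28 19 (.thr 30 18 (.dbl 60 44 45)))))) (.nv (.thr 18 30 (.thr 38 12 (.thr 50 14 (.thr 2 34 (.thr 62 42 (.dbl 54 6 58)))))) (.nv (.thr 12 38 (.thr 27 24 (.thr 15 39 (.thr 13 14 (.dbl 37 48 49))))) (.rp 60 (.str 40 (.nv (.thr 24 27 (.thr 8 56 (.thr 38 12 (.thr 55 4 (.dbl 59 42 63))))) (.nv (.thr 18 30 (.thr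 38 12 (.thr 50 14 (.thr 2 34 (.thr 62 42 (.dbl 54 6 58)))))) (.nv (.thr 12 38 (.thr 27 24 (.thr 15 39 (.thr 13 14 (.dbl 37 48 49))))) (.rp 38 (.thr 27 24 (.thr 15 39 (.thr 37 48 (.thr 53 5 (.thr 52 7 (.thr 55 54 (.thr 59 63 (.thr 42 8 (.dbl 43 11 41))))))))) (.rp 12 (.thr 18 30 (.thr 24 27 (.thr 8 56 (.thr 42 59 (.thr 2 62 (.thr 50 34 (.thr 14 38 (.dbl 10 6 58)))))))) (.rp 2 (.str 1 (.nv (.thr 41 61 (.thr 56 11 (.thr 8 24 (.dbl 42 43 59)))) (.nv (.thr 12 38 (.thr 27 24 (.thr 15 39 (.thr 13 14 (.dbl 37 48 49))))) (.nv (.thr 24 27 (.thr 56 8 (.dbl 41 11 61))) (.rp 24 (.thr 41 61 (.thr 42 43 (.thr 59 8 (.thr 58 10 (.dbl 56 11 57))))) .nd))))) (.rp 1 (.str 2 (.nv (.thr 18 30 (.thr 50 34 (.dbl 38 12 14))) (.nv (.thr 42 62 (.thr 8 59 (.dbl 24 27 56))) (.rp 49 (.str 33 (.nv (.thr 18 30 (.thr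 50 34 (.dbl 38 12 14))) (.nv (.thr 42 62 (.thr 8 59 (.dbl 24 27 56))) .nd))) (.rp 33 (.str 49 (.nv (.thr 24 27 (.thr 8 56 (.dbl 42 59 62))) (.nv (.thr 48 50 (.dbl 37 13 15)) (.rp 48 (.thr 18 30 (.thr 50 34 (.dbl 38 12 14))) .nd)))) .nd))))) .nd)))))))) (.rp 40 (.str 60 (.nv (.thr 27 24 (.thr 15 39 (.dbl 30 18 45))) (.nv (.thr 54 57 (.dbl 38 6 12)) (.rp 2 (.str 1 (.nv (.thr 28 19 (.dbl 12 38 44)) (.nv (.thr 57 54 (.dbl 41 9 61)) .nd))) (.rp 1 (.str 2 (.nv (.thr 27 24 (.thr 15 39 (.dbl 30 18 45))) (.nv (.thr 54 57 (.dbl 38 6 12)) (.rp 49 (.str 33 (.nv (.thr 27 24 (.thr 15 39 (.dbl 30 18 45))) (.nv (.thr 12 38 (.dbl 28 19 44)) .nd))) (.rp 33 (.str 49 (.nv (.thr 18 30 (.thr 12 38 (.dbl 28 19 44))) (.nv (.thr 48 50 (.dbl 37 13 15)) .nd))) .nd))))) .nd))))) (.rp 38 (.thr 27 24 (.thr 28 19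 (.thr 30 18 (.thr 15 39 (.thr 60 45 (.thr 12 44 (.thr 13 14 (.dbl 37 48 49)))))))) (.rp 15 (.thr 30 18 (.thr 38 12 (.thr 14 50 (.thr 62 46 (.thr 2 42 (.dbl 6 10 54)))))) (.rp 12 (.thr 27 24 (.thr 30 18 (.thr 15 39 (.thr 60 45 (.thr 57 54 (.thr 48 37 (.thr 56 52 (.dbl 41 9 11)))))))) (.rp 2 (.str 1 (.nv (.thr 27 24 (.thr 15 39 (.thr 48 37 (.thr 50 49 (.dbl 38 12 14))))) (.nv (.thr 12 38 (.thr 41 61 (.thr 57 9 (.thr 60 54 (.dbl 28 19 44))))) (.rp 60 (.str 40 (.nv (.thr 41 61 (.thr 56 11 (.thr 8 24 (.dbl 42 43 59)))) (.nv (.thr 12 38 (.thr 27 24 (.thr 15 39 (.thr 13 14 (.dbl 37 48 49))))) (.nv (.thr 24 27 (.thr 56 8 (.dbl 41 11 61))) (.rp 24 (.thr 41 61 (.thr 42 43 (.thr 59 8 (.thr 58 10 (.dbl 56 11 57))))) .nd))))) (.rp 40 (.str 60 (.nv (.thr 28 19 (.dbl 12 38 44)) (.nv (.thr 57 54 (.dbl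 41 9 61)) .nd))) (.rp 38 (.thr 27 24 (.thr 15 39 (.thr 37 48 (.thr 13 49 (.dbl 5 9 53))))) (.rp 12 (.thr 27 24 (.thr 30 18 (.thr 41 61 (.thr 15 39 (.thr 60 45 (.dbl 57 9 54)))))) .nd))))))) (.rp 1 (.str 2 (.nv (.thr 18 30 (.thr 27 24 (.thr 15 39 (.thr 50 34 (.dbl 48 37 49))))) (.nv (.thr 42 62 (.thr 59 8 (.thr 55 63 (.dbl 38 4 12)))) (.nv (.thr 18 30 (.thr 50 34 (.dbl 38 12 14))) (.rp 60 (.str 40 (.nv (.thr 18 30 (.thr 50 34 (.dbl 38 12 14))) (.nv (.thr 42 62 (.thr 8 59 (.dbl 24 27 56))) (.rp 49 (.str 33 (.nv (.thr 18 30 (.thr 50 34 (.dbl 38 12 14))) (.nv (.thr 42 62 (.thr 8 59 (.dbl 24 27 56))) .nd))) (.rp 33 (.str 49 (.nv (.thr 24 27 (.thr 8 56 (.dbl 42 59 62))) (.nv (.thr 48 50 (.dbl 37 13 15)) (.rp 48 (.thr 18 30 (.thr 50 34 (.dbl 38 12 14))) .nd)))) .nd))))) (.rp 49 (.str 33 (.nv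 (.thr 18 30 (.thr 42 62 (.thr 10 58 (.thr 50 34 (.dbl 14 6 38))))) (.nv (.thr 42 62 (.thr 59 8 (.thr 55 63 (.dbl 38 4 12)))) (.nv (.thr 38 12 (.thr 6 54 (.dbl 14 10 50))) (.rp 60 (.str 40 (.nv (.thr 18 30 (.thr 50 34 (.dbl 38 12 14))) (.nv (.thr 42 62 (.thr 8 59 (.dbl 24 27 56))) .nd))) (.rp 40 (.str 60 (.nv (.thr 27 24 (.thr 15 39 (.dbl 30 18 45))) (.nv (.thr 12 38 (.dbl 28 19 44)) .nd))) (.rp 38 (.thr 27 24 (.thr 15 39 (.thr 37 48 (.thr 30 18 (.dbl 45 41 60))))) .nd))))))) (.rp 40 (.str 60 (.nv (.thr 27 24 (.thr 15 39 (.dbl 30 18 45))) (.nv (.thr 54 57 (.dbl 38 6 12)) (.rp 49 (.str 33 (.nv (.thr 27 24 (.thr 15 39 (.dbl 30 18 45))) (.nv (.thr 12 38 (.dbl 28 19 44)) .nd))) (.rp 33 (.str 49 (.nv (.thr 18 30 (.thr 12 38 (.dbl 28 19 44))) (.nv (.thr 48 50 (.dbl 37 13 15)) .nd))) .nd)))))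 (.rp 33 (.str 49 (.nv (.thr 48 50 (.dbl 37 13 15)) (.nv (.thr 50 48 (.dbl 18 30 34)) (.rp 60 (.str 40 (.nv (.thr 24 27 (.thr 8 56 (.dbl 42 59 62))) (.nv (.thr 48 50 (.dbl 37 13 15)) (.rp 48 (.thr 18 30 (.thr 50 34 (.dbl 38 12 14))) .nd)))) (.rp 50 (.thr 27 24 (.thr 15 39 (.dbl 37 13 48))) (.rp 48 (.thr 18 30 (.thr 50 34 (.dbl 38 12 14))) (.rp 40 (.str 60 (.nv (.thr 18 30 (.thr 12 38 (.dbl 28 19 44))) (.nv (.thr 48 50 (.dbl 37 13 15)) .nd))) .nd))))))) .nd)))))))) .nd)))))))))))) (.rp 19 (.thr 20 23 (.thr 24 28 (.dbl 26 27 31))) (.rp 2 (.str 1 (.nv (.thr 19 28 (.thr 23 20 (.dbl 31 26 27))) (.nv (.thr 28 19 (.dbl 20 23 24)) (.rp 51 (.str 34 (.nv (.thr 20 23 (.dbl 28 19 24)) (.nv (.thr 19 28 (.thr 31 26 (.dbl 23 20 27))) (.rp 28 (.thr 26 31 (.thr 27 24 (.thr 41 61 (.thr 9 57 (.thr 11 56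 (.thr 8 10 (.dbl 59 42 43))))))) (.rp 23 (.thr 26 31 (.thr 27 24 (.thr 41 61 (.thr 9 57 (.thr 11 56 (.thr 8 10 (.dbl 59 42 43))))))) (.rp 20 (.thr 26 31 (.thr 27 24 (.thr 41 61 (.thr 9 57 (.thr 11 56 (.thr 8 10 (.dbl 59 42 43))))))) (.rp 19 (.str 35 (.nv (.thr 33 32 (.thr 41 61 (.thr 9 57 (.thr 5 13 (.dbl 37 45 53))))) (.nv (.thr 20 23 (.thr 24 28 (.dbl 26 27 31))) .nd))) .nd))))))) (.rp 34 (.str 51 (.nv (.thr 41 61 (.thr 57 9 (.thr 54 60 (.dbl 38 6 12)))) (.nv (.thr 28 19 (.dbl 20 23 24)) (.rp 50 (.str 18 (.nv (.thr 20 23 (.dbl 28 19 24)) (.nv (.dbl 26 30 31) .nd))) (.rp 20 (.thr 28 19 (.thr 41 61 (.thr 57 9 (.thr 60 54 (.dbl 12 38 44))))) (.rp 18 (.str 50 (.nv (.thr 48 49 (.thr 20 23 (.dbl 28 19 24))) (.nv (.thr 26 31 (.dbl 38 12 14)) (.rp 48 (.str 33 (.nv (.thr 20 23 (.dbl 28 19 24))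 (.nv (.thr 26 31 (.dbl 38 12 14)) .nd))) .nd)))) .nd)))))) (.rp 28 (.thr 26 31 (.thr 24 27 (.thr 41 61 (.thr 57 9 (.thr 56 11 (.thr 59 58 (.dbl 8 40 42))))))) (.rp 23 (.thr 28 19 (.thr 24 20 (.dbl 26 27 31))) (.rp 20 (.thr 28 19 (.thr 31 26 (.thr 29 30 (.thr 61 41 (.thr 13 45 (.thr 5 9 (.dbl 37 49 53))))))) (.rp 19 (.thr 20 23 (.thr 24 28 (.dbl 26 27 31))) .nd))))))))) (.rp 1 (.str 2 (.nv (.thr 19 28 (.thr 23 20 (.dbl 31 26 27))) (.nv (.thr 28 19 (.dbl 20 23 24)) (.rp 51 (.str 34 (.nv (.thr 20 23 (.dbl 28 19 24)) (.nv (.thr 26 31 (.dbl 18 30 50)) (.rp 49 (.str 33 (.nv (.thr 20 23 (.dbl 28 19 24)) (.nv (.thr 26 31 (.dbl 18 30 50)) (.rp 50 (.str 48 (.nv (.thr 19 28 (.thr 23 20 (.dbl 31 26 27))) (.nv (.thr 26 31 (.thr 37 15 (.thr 42 62 (.dbl 32 35 47)))) (.nv (.thr 35 32 (.thr 28 19 (.dbl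 20 23 24))) (.rp 19 (.thr 35 32 (.thr 20 23 (.thr 24 28 (.dbl 26 27 31)))) .nd))))) (.rp 48 (.thr 50 18 (.thr 20 23 (.dbl 28 19 24))) (.rp 35 (.thr 19 28 (.thr 23 20 (.dbl 31 26 27))) (.rp 19 (.thr 35 32 (.thr 26 31 (.dbl 18 30 50))) .nd))))))) (.rp 35 (.thr 19 28 (.thr 23 20 (.dbl 31 26 27))) (.rp 33 (.str 49 (.nv (.thr 20 23 (.dbl 28 19 24)) (.nv (.thr 18 50 (.dbl 26 30 31)) (.rp 35 (.thr 19 28 (.thr 18 50 (.dbl 26 30 31))) (.rp 19 (.str 35 (.nv (.thr 20 23 (.thr 24 28 (.dbl 26 27 31))) (.nv (.thr 18 50 (.dbl 26 30 31)) (.rp 31 (.thr 37 13 (.thr 42 62 (.thr 38 46 (.thr 39 36 (.dbl 47 32 43))))) (.rp 26 (.thr 37 13 (.thr 42 62 (.thr 38 46 (.thr 39 36 (.dbl 47 32 43))))) (.rp 18 (.str 48 (.nv (.thr 20 23 (.thr 24 28 (.dbl 26 27 31))) (.nv (.thr 37 13 (.dbl 26 15 31)) (.rp 31 (.thr 37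 13 (.thr 42 62 (.thr 38 46 (.thr 39 36 (.dbl 47 32 43))))) (.rp 26 (.thr 20 23 (.thr 37 13 (.thr 52 7 (.thr 36 4 (.dbl 24 12 28))))) .nd))))) .nd)))))) (.rp 18 (.str 48 (.nv (.thr 20 23 (.dbl 28 19 24)) (.nv (.thr 26 31 (.dbl 37 13 15)) (.rp 35 (.thr 19 28 (.thr 23 20 (.dbl 31 26 27))) (.rp 19 (.str 35 (.nv (.thr 20 23 (.thr 24 28 (.dbl 26 27 31))) (.nv (.thr 37 13 (.dbl 26 15 31)) (.rp 31 (.thr 37 13 (.thr 42 62 (.thr 38 46 (.thr 39 36 (.dbl 47 32 43))))) (.rp 26 (.thr 20 23 (.thr 37 13 (.thr 52 7 (.thr 36 4 (.dbl 24 12 28))))) .nd))))) .nd))))) .nd)))))) (.rp 19 (.str 35 (.nv (.thr 33 32 (.thr 20 23 (.thr 24 28 (.dbl 26 27 31)))) (.nv (.thr 18 50 (.dbl 26 30 31)) (.rp 33 (.str 49 (.nv (.thr 20 23 (.thr 24 28 (.dbl 26 27 31))) (.nv (.thr 18 50 (.dbl 26 30 31)) (.rp 31 (.thr 37 13 (.thr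 42 62 (.thr 38 46 (.thr 39 36 (.dbl 47 32 43))))) (.rp 26 (.thr 37 13 (.thr 42 62 (.thr 38 46 (.thr 39 36 (.dbl 47 32 43))))) (.rp 18 (.str 48 (.nv (.thr 20 23 (.thr 24 28 (.dbl 26 27 31))) (.nv (.thr 37 13 (.dbl 26 15 31)) (.rp 31 (.thr 37 13 (.thr 42 62 (.thr 38 46 (.thr 39 36 (.dbl 47 32 43))))) (.rp 26 (.thr 20 23 (.thr 37 13 (.thr 52 7 (.thr 36 4 (.dbl 24 12 28))))) .nd))))) .nd)))))) (.rp 31 (.thr 50 18 (.thr 42 62 (.thr 38 46 (.thr 14 26 (.dbl 6 10 54))))) (.rp 26 (.thr 42 62 (.thr 38 46 (.thr 41 44 (.thr 43 40 (.thr 47 39 (.dbl 32 33 37)))))) .nd)))))) .nd))))))) (.rp 49 (.str 33 (.nv (.thr 19 28 (.thr 23 20 (.dbl 31 26 27))) (.nv (.thr 28 19 (.dbl 20 23 24)) (.rp 51 (.str 34 (.nv (.thr 20 23 (.dbl 28 19 24)) (.nv (.thr 26 31 (.dbl 18 30 50)) (.rp 50 (.str 48 (.nv (.thr 19 28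 (.thr 23 20 (.dbl 31 26 27))) (.nv (.thr 26 31 (.thr 37 15 (.thr 42 62 (.dbl 32 35 47)))) (.nv (.thr 35 32 (.thr 28 19 (.dbl 20 23 24))) (.rp 19 (.thr 35 32 (.thr 20 23 (.thr 24 28 (.dbl 26 27 31)))) .nd))))) (.rp 48 (.thr 50 18 (.thr 20 23 (.dbl 28 19 24))) (.rp 35 (.thr 19 28 (.thr 23 20 (.dbl 31 26 27))) (.rp 19 (.thr 35 32 (.thr 26 31 (.dbl 18 30 50))) .nd))))))) (.rp 34 (.str 51 (.nv (.thr 26 31 (.thr 38 12 (.thr 6 54 (.dbl 14 10 50)))) (.nv (.thr 28 19 (.dbl 20 23 24)) .nd))) (.rp 28 (.thr 26 31 (.thr 30 18 (.thr 62 42 (.thr 14 46 (.thr 6 10 (.dbl 38 50 54)))))) (.rp 23 (.thr 28 19 (.thr 24 20 (.dbl 26 27 31))) (.rp 20 (.thr 26 31 (.thr 18 30 (.thr 42 62 (.thr 10 58 (.thr 14 6 (.dbl 50 34 38)))))) (.rp 19 (.thr 20 23 (.thr 24 28 (.dbl 26 27 31))) .nd))))))))) (.rp 34 (.str 51 (.nv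 (.thr 26 31 (.thr 38 12 (.thr 6 54 (.dbl 14 10 50)))) (.nv (.thr 28 19 (.dbl 20 23 24)) (.rp 49 (.str 33 (.nv (.thr 26 31 (.thr 38 12 (.thr 6 54 (.dbl 14 10 50)))) (.nv (.thr 28 19 (.dbl 20 23 24)) .nd))) (.rp 33 (.str 49 (.nv (.thr 48 50 (.thr 26 31 (.dbl 37 13 15))) (.nv (.thr 28 19 (.dbl 20 23 24)) (.rp 48 (.str 18 (.nv (.thr 20 23 (.dbl 28 19 24)) (.nv (.dbl 26 30 31) (.rp 35 (.str 32 (.nv (.thr 20 23 (.dbl 28 19 24)) (.nv (.dbl 26 30 31) .nd))) (.rp 32 (.str 35 (.nv (.thr 20 23 (.dbl 28 19 24)) (.nv (.dbl 26 30 31) .nd))) .nd))))) (.rp 35 (.str 32 (.nv (.thr 48 50 (.thr 26 31 (.dbl 37 13 15))) (.nv (.thr 28 19 (.dbl 20 23 24)) (.rp 48 (.str 18 (.nv (.thr 20 23 (.dbl 28 19 24)) (.nv (.dbl 26 30 31) .nd))) .nd)))) (.rp 32 (.str 35 (.nv (.thr 48 50 (.thr 26 31 (.dbl 37 13 15))) (.nv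 (.thr 28 19 (.dbl 20 23 24)) (.rp 48 (.str 18 (.nv (.thr 20 23 (.dbl 28 19 24)) (.nv (.dbl 26 30 31) .nd))) .nd)))) .nd)))))) .nd))))) (.rp 33 (.str 49 (.nv (.thr 19 28 (.thr 23 20 (.dbl 31 26 27))) (.nv (.thr 28 19 (.dbl 20 23 24)) (.rp 51 (.str 34 (.nv (.thr 20 23 (.dbl 28 19 24)) (.nv (.thr 18 50 (.dbl 26 30 31)) (.rp 35 (.thr 19 28 (.thr 18 50 (.dbl 26 30 31))) (.rp 19 (.str 35 (.nv (.thr 20 23 (.thr 24 28 (.dbl 26 27 31))) (.nv (.thr 18 50 (.dbl 26 30 31)) (.rp 31 (.thr 37 13 (.thr 42 62 (.thr 38 46 (.thr 39 36 (.dbl 47 32 43))))) (.rp 26 (.thr 37 13 (.thr 42 62 (.thr 38 46 (.thr 39 36 (.dbl 47 32 43))))) (.rp 18 (.str 48 (.nv (.thr 20 23 (.thr 24 28 (.dbl 26 27 31))) (.nv (.thr 37 13 (.dbl 26 15 31)) (.rp 31 (.thr 37 13 (.thr 42 62 (.thr 38 46 (.thr 39 36 (.dbl 47 32 43))))) (.rp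 26 (.thr 20 23 (.thr 37 13 (.thr 52 7 (.thr 36 4 (.dbl 24 12 28))))) .nd))))) .nd)))))) (.rp 18 (.str 48 (.nv (.thr 20 23 (.dbl 28 19 24)) (.nv (.thr 26 31 (.dbl 37 13 15)) (.rp 35 (.thr 19 28 (.thr 23 20 (.dbl 31 26 27))) (.rp 19 (.str 35 (.nv (.thr 20 23 (.thr 24 28 (.dbl 26 27 31))) (.nv (.thr 37 13 (.dbl 26 15 31)) (.rp 31 (.thr 37 13 (.thr 42 62 (.thr 38 46 (.thr 39 36 (.dbl 47 32 43))))) (.rp 26 (.thr 20 23 (.thr 37 13 (.thr 52 7 (.thr 36 4 (.dbl 24 12 28))))) .nd))))) .nd))))) .nd)))))) (.rp 48 (.str 18 (.nv (.thr 34 50 (.thr 20 23 (.dbl 28 19 24))) (.nv (.dbl 26 30 31) (.rp 34 (.str 51 (.nv (.thr 20 23 (.dbl 28 19 24)) (.nv (.dbl 26 30 31) (.rp 35 (.str 32 (.nv (.thr 20 23 (.dbl 28 19 24)) (.nv (.dbl 26 30 31) .nd))) (.rp 32 (.str 35 (.nv (.thr 20 23 (.dbl 28 19 24)) (.nv (.dbl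 26 30 31) .nd))) .nd))))) .nd)))) (.rp 34 (.str 51 (.nv (.thr 48 50 (.thr 26 31 (.dbl 37 13 15))) (.nv (.thr 28 19 (.dbl 20 23 24)) (.rp 48 (.str 18 (.nv (.thr 20 23 (.dbl 28 19 24)) (.nv (.dbl 26 30 31) (.rp 35 (.str 32 (.nv (.thr 20 23 (.dbl 28 19 24)) (.nv (.dbl 26 30 31) .nd))) (.rp 32 (.str 35 (.nv (.thr 20 23 (.dbl 28 19 24)) (.nv (.dbl 26 30 31) .nd))) .nd))))) (.rp 35 (.str 32 (.nv (.thr 48 50 (.thr 26 31 (.dbl 37 13 15))) (.nv (.thr 28 19 (.dbl 20 23 24)) (.rp 48 (.str 18 (.nv (.thr 20 23 (.dbl 28 19 24)) (.nv (.dbl 26 30 31) .nd))) .nd)))) (.rp 32 (.str 35 (.nv (.thr 48 50 (.thr 26 31 (.dbl 37 13 15))) (.nv (.thr 28 19 (.dbl 20 23 24)) (.rp 48 (.str 18 (.nv (.thr 20 23 (.dbl 28 19 24)) (.nv (.dbl 26 30 31) .nd))) .nd)))) .nd)))))) (.rp 28 (.thr 20 23 (.thr 37 13 (.thr 52 7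 (.thr 4 36 (.thr 55 38 (.dbl 53 5 54)))))) (.rp 23 (.thr 28 19 (.thr 24 20 (.dbl 26 27 31))) (.rp 20 (.thr 26 31 (.thr 18 30 (.thr 37 13 (.thr 48 15 (.dbl 50 34 51))))) (.rp 19 (.thr 20 23 (.thr 24 28 (.dbl 26 27 31))) (.rp 18 (.str 48 (.nv (.thr 51 50 (.thr 20 23 (.dbl 28 19 24))) (.nv (.thr 26 31 (.dbl 37 13 15)) (.rp 51 (.str 34 (.nv (.thr 20 23 (.dbl 28 19 24)) (.nv (.thr 26 31 (.dbl 37 13 15)) (.rp 35 (.thr 19 28 (.thr 23 20 (.dbl 31 26 27))) (.rp 19 (.str 35 (.nv (.thr 20 23 (.thr 24 28 (.dbl 26 27 31))) (.nv (.thr 37 13 (.dbl 26 15 31)) (.rp 31 (.thr 37 13 (.thr 42 62 (.thr 38 46 (.thr 39 36 (.dbl 47 32 43))))) (.rp 26 (.thr 20 23 (.thr 37 13 (.thr 52 7 (.thr 36 4 (.dbl 24 12 28))))) .nd))))) .nd))))) .nd)))) .nd))))))))))) (.rp 28 (.thr 26 31 (.thr 30 18 (.thr 62 42 (.thr 14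 46 (.thr 6 10 (.dbl 38 50 54)))))) (.rp 23 (.thr 28 19 (.thr 24 20 (.dbl 26 27 31))) (.rp 20 (.thr 26 31 (.thr 18 30 (.thr 42 62 (.thr 10 58 (.thr 14 6 (.dbl 50 34 38)))))) (.rp 19 (.thr 20 23 (.thr 24 28 (.dbl 26 27 31))) .nd))))))))))) .nd)))))))))))

theorem w5 : WinAt (39845888, 131081) :=
  chF (K := []) kn c5 39845888 131081 17
    [15, 2251816993685505] (by decide +kernel) (by decide +kernel)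

/-- A certificate. -/
noncomputable def c6 : Ct := (.str 7 (.nv (.thr 37 52 (.thr 49 13 (.thr 1 33 (.thr 53 5 (.dbl 61 41 57))))) (.nv (.thr 23 20 (.thr 55 39 (.thr 4 38 (.thr 37 52 (.dbl 5 6 53))))) (.rp 53 (.thr 20 23 (.thr 52 37 (.thr 4 36 (.thr 6 5 (.dbl 38 54 55))))) (.rp 52 (.str 1 (.nv (.thr 23 20 (.thr 55 39 (.thr 4 38 (.thr 5 6 (.thr 37 53 (.dbl 13 9 49)))))) (.nv (.thr 49 33 (.thr 13 37 (.thr 41 61 (.dbl 9 5 57)))) (.rp 51 (.str 35 (.nv (.thr 23 20 (.thr 41 61 (.thr 38 44 (.dbl 55 4 39)))) (.nv (.thr 49 33 (.thr 13 37 (.thr 41 61 (.dbl 9 5 57)))) (.rp 61 (.thr 23 20 (.thr 49 33 (.thr 13 37 (.thr 5 9 (.thr 55 39 (.dbl 4 6 38)))))) (.rp 41 (.thr 23 20 (.thr 49 33 (.thr 37 13 (.thr 55 39 (.thr 4 38 (.dbl 5 6 53)))))) (.rp 13 (.thr 23 20 (.thr 33 49 (.thr 55 39 (.thr 41 61 (.thr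 45 37 (.dbl 38 4 44)))))) .nd)))))) (.rp 49 (.thr 23 20 (.thr 55 39 (.thr 4 38 (.thr 5 6 (.thr 9 13 (.dbl 41 57 61)))))) (.rp 37 (.str 51 (.nv (.thr 41 61 (.thr 57 9 (.thr 54 60 (.dbl 38 6 12)))) (.nv (.thr 38 12 (.thr 4 55 (.dbl 6 5 54))) (.nv (.thr 23 20 (.thr 55 39 (.dbl 38 4 12))) (.rp 38 (.thr 23 20 (.thr 41 61 (.thr 9 57 (.thr 39 55 (.thr 27 15 (.thr 26 24 (.thr 11 56 (.thr 59 43 (.dbl 8 10 42))))))))) (.rp 12 (.thr 23 20 (.thr 49 33 (.thr 48 50 (.thr 55 39 (.thr 63 59 (.thr 53 58 (.dbl 61 41 57))))))) .nd)))))) (.rp 35 (.str 51 (.nv (.thr 23 20 (.thr 55 39 (.dbl 38 4 12))) (.nv (.thr 41 61 (.thr 9 57 (.thr 49 33 (.dbl 13 5 37)))) (.nv (.thr 38 12 (.thr 4 55 (.dbl 6 5 54))) .nd)))) (.rp 13 (.thr 23 20 (.thr 55 39 (.thr 4 38 (.thr 5 6 (.thr 37 53 (.thr 33 49 (.dbl 41 45 61)))))))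 (.rp 9 (.thr 49 33 (.thr 37 13 (.thr 53 5 (.dbl 61 41 57)))) (.rp 5 (.str 51 (.nv (.thr 38 12 (.thr 49 33 (.thr 61 41 (.thr 57 53 (.dbl 54 6 60))))) (.nv (.thr 23 20 (.thr 55 39 (.dbl 38 4 12))) (.rp 60 (.thr 49 33 (.thr 37 13 (.thr 38 12 (.thr 39 36 (.dbl 23 20 55))))) (.rp 38 (.thr 23 20 (.thr 49 33 (.thr 48 50 (.thr 37 13 (.thr 39 55 (.dbl 15 26 27)))))) (.rp 15 (.str 10 (.nv (.thr 41 61 (.thr 57 9 (.thr 54 60 (.dbl 38 6 12)))) (.nv (.thr 38 12 (.thr 6 54 (.thr 14 2 (.thr 49 33 (.dbl 50 26 48))))) (.nv (.thr 23 20 (.thr 55 39 (.dbl 38 4 12))) (.rp 38 (.thr 23 20 (.thr 55 39 (.thr 59 63 (.thr 8 42 (.thr 9 11 (.dbl 41 57 61)))))) (.rp 12 (.thr 23 20 (.thr 55 39 (.thr 41 61 (.thr 9 57 (.thr 8 11 (.dbl 59 42 63)))))) .nd)))))) (.rp 12 (.thr 23 20 (.thr 49 33 (.thr 48 50 (.thr 37 13 (.thr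 15 26 (.dbl 39 27 55)))))) (.rp 10 (.str 15 (.nv (.thr 12 38 (.thr 13 14 (.dbl 49 33 37))) (.nv (.thr 39 27 (.dbl 23 20 55)) .nd))) (.rp 4 (.thr 41 61 (.thr 57 9 (.thr 54 60 (.dbl 38 6 12)))) .nd))))))))) .nd)))))))))) (.rp 51 (.str 35 (.nv (.thr 20 23 (.thr 52 37 (.thr 4 36 (.thr 6 5 (.dbl 38 54 55))))) (.nv (.thr 37 52 (.thr 49 13 (.thr 1 33 (.thr 61 41 (.dbl 53 5 57))))) (.rp 52 (.str 1 (.nv (.thr 23 20 (.thr 41 61 (.thr 38 44 (.dbl 55 4 39)))) (.nv (.thr 49 33 (.thr 13 37 (.thr 41 61 (.dbl 9 5 57)))) (.rp 61 (.thr 23 20 (.thr 49 33 (.thr 13 37 (.thr 5 9 (.thr 55 39 (.dbl 4 6 38)))))) (.rp 41 (.thr 23 20 (.thr 49 33 (.thr 37 13 (.thr 55 39 (.thr 4 38 (.dbl 5 6 53)))))) (.rp 13 (.thr 23 20 (.thr 33 49 (.thr 55 39 (.thr 41 61 (.thr 45 37 (.dbl 38 4 44)))))) .nd)))))) (.rp 37 (.thr 23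 20 (.thr 55 39 (.thr 38 4 (.thr 41 44 (.thr 6 54 (.thr 1 61 (.thr 33 49 (.thr 34 32 (.thr 42 46 (.thr 2 62 (.thr 14 10 (.dbl 50 18 26)))))))))))) (.rp 5 (.thr 23 20 (.thr 55 39 (.thr 38 4 (.thr 54 6 (.dbl 52 37 53))))) (.rp 2 (.str 1 (.nv (.thr 23 20 (.thr 41 61 (.thr 38 44 (.dbl 55 4 39)))) (.nv (.thr 37 52 (.dbl 49 13 33)) (.rp 13 (.thr 33 49 (.thr 37 52 (.dbl 41 45 61))) .nd)))) (.rp 1 (.str 2 (.nv (.thr 20 23 (.thr 52 37 (.thr 4 36 (.thr 38 55 (.dbl 6 5 54))))) (.nv (.thr 37 52 (.thr 42 62 (.thr 47 32 (.thr 39 43 (.dbl 23 20 55))))) (.rp 55 (.thr 37 52 (.thr 42 62 (.thr 32 47 (.thr 34 33 (.thr 38 46 (.thr 36 39 (.dbl 44 40 41))))))) (.rp 52 (.thr 23 20 (.thr 39 55 (.thr 43 47 (.thr 42 62 (.thr 59 8 (.thr 27 11 (.thr 26 24 (.thr 18 30 (.thr 50 34 (.thr 14 38 (.dbl 10 6 58)))))))))))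 (.rp 43 (.thr 23 20 (.thr 55 39 (.thr 4 38 (.thr 5 6 (.dbl 37 52 53))))) (.rp 37 (.thr 23 20 (.thr 55 39 (.thr 38 4 (.thr 6 54 (.thr 14 10 (.thr 26 50 (.thr 30 18 (.dbl 62 42 46)))))))) (.rp 23 (.thr 37 52 (.thr 5 53 (.thr 6 4 (.thr 42 62 (.thr 32 47 (.thr 34 33 (.dbl 38 46 54))))))) (.rp 20 (.thr 37 52 (.thr 5 53 (.thr 4 6 (.thr 55 38 (.thr 39 23 (.thr 42 62 (.dbl 47 32 43))))))) .nd))))))))) .nd)))))))) (.rp 37 (.str 38 (.nv (.thr 23 20 (.dbl 55 4 39)) (.nv (.thr 6 54 (.dbl 4 5 55)) (.rp 55 (.str 41 (.nv (.thr 1 61 (.thr 6 54 (.thr 9 57 (.dbl 5 4 13)))) (.nv (.thr 1 61 (.thr 6 54 (.thr 5 4 (.dbl 9 13 57)))) (.rp 61 (.str 2 (.nv (.thr 54 6 (.thr 62 42 (.thr 50 58 (.thr 26 14 (.dbl 18 30 34))))) (.nv (.thr 6 54 (.thr 9 57 (.thr 10 14 (.thr 8 11 (.dbl 42 59 62))))) (.rp 62 (.thr 35 44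 (.thr 6 54 (.thr 5 4 (.thr 9 57 (.thr 13 1 (.thr 14 10 (.dbl 12 15 51))))))) (.rp 54 (.thr 9 57 (.thr 42 62 (.thr 40 43 (.thr 8 59 (.thr 56 24 (.dbl 11 10 26)))))) (.rp 51 (.thr 35 44 (.thr 6 54 (.thr 14 10 (.thr 50 26 (.thr 34 18 (.dbl 42 46 62)))))) (.rp 45 (.str 13 (.nv (.thr 12 51 (.thr 35 44 (.thr 14 15 (.dbl 6 10 54)))) (.nv (.thr 9 57 (.thr 5 1 (.dbl 6 4 54))) (.rp 54 (.thr 9 57 (.thr 5 1 (.thr 6 4 (.thr 14 10 (.dbl 12 15 51))))) (.rp 51 (.thr 35 44 (.thr 9 57 (.thr 5 1 (.dbl 6 4 54)))) (.rp 35 (.thr 51 12 (.thr 9 57 (.thr 5 1 (.dbl 6 4 54)))) (.rp 6 (.thr 42 62 (.thr 34 46 (.thr 50 18 (.thr 14 26 (.dbl 12 15 51))))) (.rp 5 (.thr 6 54 (.thr 12 51 (.thr 35 44 (.dbl 14 10 15)))) .nd)))))))) (.rp 42 (.thr 35 44 (.thr 6 54 (.thr 5 4 (.thr 9 57 (.thr 13 1 (.thr 14 10 (.dbl 12 15 51)))))))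 (.rp 35 (.thr 51 12 (.thr 6 54 (.thr 9 57 (.thr 10 14 (.thr 8 11 (.dbl 42 59 62)))))) (.rp 14 (.thr 9 57 (.thr 42 62 (.thr 40 43 (.thr 8 59 (.thr 56 24 (.dbl 11 10 26)))))) (.rp 13 (.str 45 (.nv (.thr 6 54 (.thr 9 57 (.thr 10 14 (.thr 8 11 (.dbl 42 59 62))))) (.nv (.thr 42 62 (.thr 46 34 (.dbl 44 35 47))) (.rp 62 (.thr 9 57 (.thr 6 54 (.thr 10 14 (.thr 8 11 (.thr 42 59 (.thr 46 34 (.dbl 44 35 47))))))) (.rp 60 (.thr 51 12 (.thr 44 35 (.thr 46 47 (.dbl 42 34 62)))) (.rp 51 (.thr 35 44 (.thr 42 62 (.thr 34 46 (.thr 6 54 (.thr 14 10 (.dbl 50 18 26)))))) (.rp 42 (.thr 6 54 (.thr 14 10 (.thr 26 50 (.thr 30 18 (.thr 51 12 (.thr 44 35 (.dbl 46 47 62))))))) (.rp 35 (.thr 51 12 (.thr 9 57 (.thr 42 62 (.thr 6 54 (.thr 8 59 (.dbl 10 11 14)))))) .nd)))))))) (.rp 9 (.thr 6 54 (.thr 14 10 (.thr 50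 26 (.thr 34 18 (.dbl 42 46 62))))) (.rp 6 (.thr 9 57 (.thr 42 62 (.thr 40 43 (.thr 8 59 (.thr 56 24 (.dbl 11 10 26)))))) .nd))))))))))))) (.rp 57 (.str 42 (.nv (.thr 35 44 (.thr 34 46 (.thr 33 32 (.dbl 1 49 61)))) (.nv (.thr 2 62 (.thr 6 54 (.thr 14 10 (.thr 50 26 (.dbl 34 18 46))))) (.nv (.thr 1 61 (.thr 34 46 (.thr 35 44 (.dbl 33 32 49)))) (.rp 46 (.thr 1 61 (.thr 49 33 (.thr 62 2 (.thr 54 6 (.thr 50 58 (.dbl 51 12 48)))))) (.rp 35 (.thr 51 12 (.thr 2 62 (.thr 6 54 (.thr 14 10 (.thr 50 26 (.dbl 34 18 46)))))) (.rp 34 (.thr 1 61 (.thr 49 33 (.thr 62 2 (.thr 54 6 (.thr 50 58 (.dbl 51 12 48)))))) .nd))))))) (.rp 54 (.thr 57 9 (.thr 35 44 (.thr 1 61 (.thr 33 49 (.thr 34 32 (.thr 42 46 (.thr 59 8 (.thr 56 58 (.thr 11 26 (.dbl 43 27 40)))))))))) (.rp 53 (.thr 57 9 (.thr 35 44 (.thr 1 61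 (.thr 33 49 (.thr 34 32 (.thr 42 46 (.thr 59 8 (.thr 56 58 (.thr 11 26 (.dbl 43 27 40)))))))))) (.rp 52 (.thr 35 44 (.thr 1 61 (.thr 33 49 (.thr 34 32 (.thr 42 46 (.thr 2 62 (.thr 50 18 (.thr 14 26 (.dbl 6 10 54))))))))) (.rp 51 (.thr 35 44 (.thr 6 54 (.thr 5 4 (.thr 1 61 (.dbl 9 13 57))))) (.rp 45 (.thr 6 54 (.thr 5 4 (.thr 9 57 (.dbl 1 13 61)))) (.rp 35 (.thr 51 12 (.thr 6 54 (.thr 9 57 (.thr 1 61 (.dbl 5 4 13))))) (.rp 13 (.thr 35 44 (.str 2 (.nv (.thr 42 62 (.thr 34 46 (.thr 33 32 (.dbl 1 49 61)))) (.nv (.thr 61 1 (.thr 54 6 (.thr 62 42 (.thr 60 63 (.dbl 51 12 57))))) (.nv (.thr 6 54 (.thr 14 10 (.thr 50 26 (.thr 42 62 (.dbl 34 18 46))))) (.rp 62 (.thr 6 54 (.thr 14 10 (.thr 50 26 (.thr 34 18 (.thr 33 32 (.dbl 1 49 61)))))) (.rp 61 (.str 45 (.nv (.thr 6 54 (.thr 14 10 (.thr 26 50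 (.thr 30 18 (.dbl 62 42 46))))) (.nv (.thr 6 54 (.thr 10 14 (.thr 9 57 (.thr 8 11 (.dbl 42 59 62))))) (.nv (.thr 54 6 (.thr 62 42 (.thr 50 58 (.thr 18 34 (.dbl 26 14 30))))) (.rp 62 (.thr 6 54 (.thr 14 10 (.thr 50 26 (.thr 34 18 (.thr 51 12 (.thr 33 32 (.dbl 49 1 48))))))) (.rp 54 (.thr 9 57 (.thr 42 62 (.thr 8 59 (.thr 11 10 (.thr 40 43 (.dbl 56 24 26)))))) (.rp 42 (.thr 6 54 (.thr 14 10 (.thr 26 50 (.thr 30 18 (.thr 51 12 (.thr 27 24 (.dbl 15 39 60))))))) (.rp 14 (.thr 9 57 (.thr 42 62 (.thr 8 59 (.thr 11 10 (.thr 40 43 (.dbl 56 24 26)))))) (.rp 10 (.thr 62 42 (.thr 54 6 (.thr 50 58 (.thr 26 14 (.dbl 18 30 34))))) (.rp 6 (.thr 9 57 (.thr 42 62 (.thr 8 59 (.thr 11 10 (.thr 40 43 (.dbl 56 24 26)))))) .nd)))))))))) (.rp 46 (.thr 6 54 (.thr 9 57 (.thr 10 14 (.thr 8 11 (.dbl 42 59 62)))))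 (.rp 42 (.thr 6 54 (.thr 51 12 (.thr 14 10 (.thr 26 50 (.thr 11 56 (.thr 27 24 (.thr 43 59 (.dbl 39 15 47)))))))) .nd))))))))) (.rp 9 (.thr 6 54 (.thr 35 44 (.thr 1 61 (.thr 33 49 (.thr 34 32 (.thr 42 46 (.thr 2 62 (.thr 50 18 (.dbl 14 10 26))))))))) (.rp 6 (.thr 35 44 (.thr 1 61 (.thr 33 49 (.thr 34 32 (.thr 42 46 (.thr 40 43 (.thr 8 59 (.thr 56 24 (.thr 11 26 (.dbl 9 10 57)))))))))) (.rp 5 (.thr 6 54 (.thr 35 44 (.thr 1 61 (.thr 33 49 (.thr 34 32 (.thr 42 46 (.thr 2 62 (.thr 50 18 (.dbl 14 10 26))))))))) (.rp 4 (.thr 6 54 (.thr 35 44 (.thr 1 61 (.thr 33 49 (.thr 34 32 (.thr 42 46 (.thr 2 62 (.thr 50 18 (.dbl 14 10 26))))))))) (.rp 1 (.str 2 (.nv (.thr 42 62 (.thr 34 46 (.thr 50 18 (.thr 14 26 (.dbl 6 10 54))))) (.nv (.thr 6 54 (.thr 9 57 (.thr 10 14 (.thr 8 11 (.dbl 42 59 62))))) (.rp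 62 (.str 50 (.nv (.thr 35 44 (.thr 6 54 (.dbl 14 10 26))) (.nv (.thr 18 34 (.dbl 26 14 30)) (.rp 35 (.thr 51 12 (.thr 18 34 (.dbl 26 14 30))) (.rp 26 (.thr 34 18 (.thr 6 54 (.thr 9 57 (.thr 10 14 (.thr 8 11 (.dbl 42 46 59)))))) (.rp 14 (.thr 18 34 (.thr 6 54 (.thr 4 5 (.thr 20 23 (.thr 52 36 (.thr 9 57 (.thr 51 12 (.thr 48 49 (.thr 44 35 (.thr 56 60 (.dbl 26 11 30))))))))))) .nd)))))) (.rp 54 (.thr 9 57 (.thr 42 62 (.thr 40 43 (.thr 8 59 (.thr 56 24 (.dbl 11 10 26)))))) (.rp 51 (.thr 35 44 (.thr 6 54 (.thr 14 10 (.thr 50 26 (.thr 34 18 (.dbl 42 46 62)))))) (.rp 42 (.thr 51 12 (.thr 6 54 (.thr 35 44 (.thr 14 10 (.thr 26 50 (.thr 11 56 (.thr 27 24 (.thr 43 59 (.dbl 39 15 47))))))))) (.rp 35 (.thr 51 12 (.thr 6 54 (.thr 9 57 (.thr 10 14 (.thr 8 11 (.dbl 42 59 62)))))) (.rp 14 (.thr 9 57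 (.thr 42 62 (.thr 40 43 (.thr 8 59 (.thr 56 24 (.dbl 11 10 26)))))) (.rp 10 (.thr 54 6 (.thr 62 42 (.thr 50 58 (.thr 26 14 (.dbl 18 30 34))))) (.rp 6 (.thr 9 57 (.thr 42 62 (.thr 40 43 (.thr 8 59 (.thr 56 24 (.dbl 11 10 26)))))) .nd))))))))))) .nd))))))))))))))))) (.rp 51 (.str 35 (.nv (.thr 4 55 (.dbl 6 5 54)) (.nv (.thr 23 20 (.dbl 55 4 39)) (.rp 55 (.thr 6 54 (.thr 5 4 (.thr 41 44 (.thr 1 61 (.dbl 9 13 57))))) (.rp 4 (.thr 23 20 (.thr 39 55 (.thr 41 44 (.thr 43 47 (.thr 1 61 (.thr 33 49 (.thr 34 32 (.dbl 42 40 46)))))))) (.rp 2 (.str 1 (.nv (.thr 4 55 (.dbl 6 5 54)) (.nv (.dbl 41 44 61) .nd))) (.rp 1 (.str 2 (.nv (.thr 4 55 (.dbl 6 5 54)) (.nv (.thr 23 20 (.dbl 55 4 39)) (.rp 55 (.thr 6 54 (.thr 14 10 (.thr 50 26 (.thr 34 18 (.dbl 42 46 62))))) (.rp 4 (.thr 23 20 (.thr 39 55 (.thr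 41 44 (.thr 43 47 (.dbl 42 40 62))))) .nd))))) .nd))))))) (.rp 35 (.thr 51 12 (.thr 23 20 (.dbl 55 4 39))) (.rp 4 (.str 42 (.nv (.thr 8 59 (.thr 2 62 (.thr 6 54 (.thr 14 10 (.thr 50 26 (.dbl 34 18 46)))))) (.nv (.thr 2 62 (.thr 34 46 (.thr 6 54 (.thr 50 18 (.dbl 14 10 26))))) (.nv (.thr 2 62 (.thr 6 54 (.thr 14 10 (.thr 34 46 (.dbl 50 18 26))))) (.rp 62 (.thr 23 20 (.thr 51 12 (.thr 8 59 (.thr 39 55 (.thr 27 15 (.thr 26 24 (.thr 10 58 (.thr 9 11 (.thr 54 6 (.dbl 57 41 60)))))))))) (.rp 54 (.thr 23 20 (.thr 46 34 (.thr 51 12 (.thr 8 59 (.thr 39 55 (.thr 27 15 (.thr 26 24 (.thr 30 18 (.dbl 14 50 62))))))))) (.rp 51 (.str 35 (.nv (.thr 2 62 (.thr 6 54 (.thr 14 10 (.thr 50 26 (.dbl 34 18 46))))) (.nv (.thr 2 62 (.thr 23 20 (.thr 39 55 (.thr 41 44 (.dbl 43 40 47))))) (.nv (.thr 34 46 (.thr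 33 32 (.thr 1 49 (.dbl 41 44 61)))) (.rp 12 (.thr 8 59 (.thr 41 44 (.thr 43 40 (.thr 39 47 (.dbl 23 20 55))))) (.rp 8 (.str 12 (.nv (.thr 2 62 (.thr 34 46 (.thr 50 18 (.thr 14 26 (.dbl 6 10 54))))) (.nv (.thr 2 62 (.thr 23 20 (.thr 39 55 (.thr 41 44 (.dbl 43 40 47))))) (.nv (.thr 34 46 (.thr 33 32 (.thr 1 49 (.dbl 41 44 61)))) (.rp 2 (.str 1 (.nv (.thr 33 49 (.dbl 34 32 46)) (.nv (.dbl 41 44 61) .nd))) .nd))))) (.rp 2 (.str 1 (.nv (.thr 8 59 (.thr 33 49 (.dbl 34 32 46))) (.nv (.dbl 41 44 61) (.rp 8 (.str 12 (.nv (.thr 33 49 (.dbl 34 32 46)) (.nv (.dbl 41 44 61) .nd))) .nd)))) .nd))))))) (.rp 50 (.thr 23 20 (.thr 51 12 (.thr 8 59 (.thr 39 55 (.thr 27 15 (.thr 26 24 (.thr 10 58 (.thr 9 11 (.thr 54 6 (.dbl 57 41 60)))))))))) (.rp 46 (.thr 12 51 (.str 35 (.nv (.thr 2 62 (.thr 8 59 (.thr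 41 44 (.thr 9 57 (.thr 10 11 (.dbl 6 14 54)))))) (.nv (.thr 23 20 (.thr 41 44 (.thr 39 55 (.dbl 43 40 47)))) (.rp 63 (.thr 23 20 (.thr 41 44 (.thr 39 55 (.thr 59 8 (.dbl 43 40 47))))) (.rp 60 (.thr 41 44 (.thr 40 43 (.thr 8 59 (.thr 56 24 (.thr 11 26 (.dbl 9 10 57)))))) (.rp 59 (.thr 23 20 (.thr 41 44 (.thr 55 39 (.thr 54 6 (.thr 2 62 (.thr 57 9 (.thr 61 1 (.dbl 53 49 52)))))))) (.rp 55 (.thr 41 44 (.thr 43 40 (.thr 59 8 (.thr 11 27 (.thr 57 9 (.dbl 56 26 58)))))) (.rp 47 (.thr 20 23 (.thr 44 41 (.thr 8 59 (.thr 28 60 (.thr 24 16 (.thr 40 56 (.dbl 36 32 48))))))) (.rp 45 (.thr 6 54 (.thr 2 62 (.thr 14 10 (.thr 50 26 (.thr 34 18 (.thr 33 32 (.thr 1 49 (.dbl 41 44 61)))))))) (.rp 44 (.thr 23 20 (.thr 39 55 (.thr 47 43 (.thr 59 8 (.thr 6 54 (.thr 2 62 (.thr 14 10 (.thr 15 13 (.thr 31 63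 (.dbl 26 16 50)))))))))) (.rp 43 (.thr 41 44 (.thr 59 8 (.thr 54 6 (.thr 57 9 (.thr 58 56 (.dbl 62 2 50)))))) (.rp 41 (.thr 23 20 (.thr 39 55 (.thr 43 47 (.thr 59 8 (.thr 27 11 (.thr 26 24 (.thr 14 50 (.thr 6 54 (.dbl 2 10 62))))))))) (.rp 2 (.str 1 (.nv (.dbl 41 44 61) (.rp 61 (.thr 23 20 (.thr 41 44 (.thr 39 55 (.dbl 43 40 47)))) (.rp 44 (.thr 23 20 (.thr 39 55 (.thr 41 61 (.dbl 43 40 47)))) (.rp 41 (.str 26 (.nv (.thr 10 58 (.thr 14 50 (.thr 13 15 (.thr 9 5 (.dbl 8 11 59))))) (.nv (.thr 23 20 (.thr 27 24 (.thr 39 55 (.thr 43 47 (.dbl 59 8 11))))) (.nv (.thr 8 59 (.thr 10 58 (.thr 9 11 (.thr 13 5 (.dbl 14 15 50))))) (.rp 59 (.thr 18 30 (.thr 31 16 (.thr 23 20 (.thr 24 27 (.thr 14 50 (.thr 15 13 (.thr 39 55 (.thr 63 47 (.thr 6 54 (.thr 58 10 (.dbl 48 36 53))))))))))) (.rp 45 (.thr 33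 49 (.thr 23 20 (.thr 27 24 (.thr 39 55 (.thr 59 8 (.dbl 43 11 47)))))) (.rp 33 (.str 45 (.nv (.thr 8 59 (.thr 10 58 (.thr 9 11 (.thr 13 5 (.dbl 14 15 50))))) (.nv (.thr 14 50 (.thr 15 13 (.dbl 30 18 60))) (.rp 50 (.thr 27 24 (.thr 23 20 (.thr 59 8 (.thr 43 11 (.dbl 39 47 55))))) (.rp 48 (.thr 18 30 (.thr 27 24 (.thr 23 20 (.thr 59 8 (.thr 43 11 (.dbl 39 47 55)))))) (.rp 18 (.str 48 (.nv (.dbl 24 27 36) (.rp 50 (.str 34 (.nv (.dbl 24 27 36) (.rp 36 (.thr 27 24 (.thr 59 8 (.thr 43 11 (.thr 39 47 (.dbl 23 20 55))))) (.rp 27 (.thr 23 20 (.thr 31 16 (.thr 58 10 (.thr 39 55 (.thr 47 43 (.dbl 63 15 53)))))) (.rp 24 (.thr 23 20 (.thr 58 10 (.thr 55 39 (.thr 53 63 (.dbl 54 6 52))))) .nd))))) (.rp 36 (.thr 27 24 (.thr 59 8 (.thr 43 11 (.thr 39 47 (.dbl 23 20 55))))) (.rp 34 (.thr 50 14 (.dbl 24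 27 36)) (.rp 27 (.thr 31 16 (.thr 58 10 (.thr 63 53 (.thr 15 47 (.dbl 14 13 50))))) (.rp 24 (.thr 23 20 (.thr 58 10 (.thr 55 39 (.thr 53 63 (.dbl 54 6 52))))) .nd))))))) (.rp 15 (.thr 27 24 (.thr 23 20 (.thr 59 8 (.thr 43 11 (.dbl 39 47 55))))) (.rp 14 (.thr 27 24 (.thr 23 20 (.thr 59 8 (.thr 43 11 (.dbl 39 47 55))))) (.rp 13 (.thr 27 24 (.thr 23 20 (.thr 59 8 (.thr 43 11 (.dbl 39 47 55))))) .nd))))))))) (.rp 27 (.thr 31 16 (.thr 23 20 (.thr 39 55 (.thr 47 43 (.thr 14 50 (.dbl 15 13 63)))))) (.rp 11 (.thr 18 30 (.thr 31 16 (.thr 23 20 (.thr 24 27 (.thr 39 55 (.thr 47 43 (.thr 59 8 (.thr 15 63 (.dbl 14 13 50))))))))) (.rp 8 (.thr 31 16 (.thr 23 20 (.thr 39 55 (.thr 47 43 (.thr 14 50 (.dbl 15 13 63)))))) .nd)))))))))) .nd))))) .nd)))))))))))))) (.rp 35 (.thr 51 12 (.thr 8 59 (.thr 6 54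 (.thr 2 62 (.thr 14 10 (.thr 50 26 (.dbl 34 18 46))))))) (.rp 34 (.thr 23 20 (.thr 51 12 (.thr 8 59 (.thr 39 55 (.thr 27 15 (.thr 26 24 (.thr 14 50 (.thr 6 54 (.dbl 2 10 62))))))))) (.rp 26 (.thr 23 20 (.thr 39 55 (.thr 8 59 (.thr 6 54 (.thr 2 62 (.thr 10 14 (.thr 9 11 (.thr 41 57 (.thr 35 44 (.dbl 43 40 47)))))))))) (.rp 18 (.thr 23 20 (.thr 51 12 (.thr 8 59 (.thr 39 55 (.thr 27 15 (.thr 26 24 (.thr 14 50 (.thr 6 54 (.dbl 2 10 62))))))))) (.rp 14 (.str 41 (.nv (.thr 35 44 (.thr 43 40 (.thr 39 47 (.dbl 23 20 55)))) (.nv (.thr 8 59 (.thr 9 57 (.thr 11 10 (.thr 40 43 (.dbl 56 24 26))))) (.nv (.thr 1 61 (.thr 33 49 (.thr 35 44 (.dbl 34 32 46)))) (.rp 35 (.thr 51 12 (.thr 8 59 (.thr 9 57 (.thr 11 10 (.thr 40 43 (.dbl 56 24 26)))))) (.rp 8 (.thr 12 51 (.thr 35 44 (.thr 1 61 (.thr 33 49 (.dbl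 34 32 46))))) (.rp 1 (.thr 2 62 (.thr 35 44 (.thr 43 40 (.thr 39 47 (.dbl 23 20 55))))) .nd))))))) (.rp 10 (.thr 2 62 (.thr 8 59 (.str 35 (.nv (.thr 41 44 (.thr 43 40 (.thr 39 47 (.dbl 23 20 55)))) (.nv (.thr 34 46 (.thr 33 32 (.thr 49 1 (.thr 50 18 (.dbl 51 12 48))))) (.nv (.thr 23 20 (.thr 41 44 (.thr 39 55 (.dbl 43 40 47)))) (.rp 15 (.str 5 (.nv (.thr 34 46 (.thr 33 32 (.thr 49 1 (.thr 50 18 (.dbl 51 12 48))))) (.nv (.thr 41 44 (.thr 9 57 (.dbl 1 13 61))) (.rp 48 (.str 26 (.nv (.thr 24 27 (.thr 40 56 (.dbl 41 43 44))) (.nv (.thr 34 46 (.dbl 18 30 50)) (.rp 33 (.thr 18 30 (.dbl 34 46 50)) (.rp 32 (.thr 16 31 (.thr 34 46 (.dbl 18 30 50))) (.rp 18 (.str 33 (.nv (.thr 16 31 (.thr 1 49 (.dbl 41 44 61))) (.nv (.dbl 34 32 46) (.rp 16 (.thr 32 34 (.thr 41 44 (.dbl 1 49 61))) .nd)))) (.rp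 16 (.str 32 (.nv (.thr 24 27 (.thr 40 56 (.dbl 41 43 44))) (.nv (.dbl 34 33 46) (.rp 33 (.thr 18 30 (.dbl 34 46 50)) (.rp 18 (.thr 33 34 (.thr 41 44 (.dbl 1 49 61))) .nd))))) .nd))))))) (.rp 26 (.str 48 (.nv (.thr 34 46 (.thr 50 18 (.dbl 51 12 49))) (.nv (.thr 41 44 (.thr 9 57 (.dbl 1 13 61))) .nd))) (.rp 1 (.thr 23 20 (.thr 41 44 (.thr 39 55 (.dbl 43 40 47)))) .nd)))))) (.rp 5 (.str 15 (.nv (.thr 41 44 (.thr 1 61 (.thr 33 49 (.dbl 34 32 46)))) (.nv (.thr 23 20 (.thr 39 55 (.dbl 51 12 27))) (.rp 60 (.thr 51 12 (.thr 39 27 (.dbl 23 20 55))) .nd)))) .nd)))))))) (.rp 8 (.thr 12 51 (.str 35 (.nv (.thr 2 62 (.thr 34 46 (.thr 50 18 (.thr 14 26 (.dbl 6 10 54))))) (.nv (.thr 2 62 (.thr 23 20 (.thr 39 55 (.thr 41 44 (.dbl 43 40 47))))) (.nv (.thr 34 46 (.thr 33 32 (.thr 1 49 (.dbl 41 44 61))))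 (.rp 2 (.str 1 (.nv (.thr 33 49 (.dbl 34 32 46)) (.nv (.dbl 41 44 61) .nd))) .nd)))))) (.rp 6 (.thr 2 62 (.thr 8 59 (.str 41 (.nv (.thr 35 44 (.thr 1 61 (.thr 34 46 (.dbl 33 32 49)))) (.nv (.thr 9 57 (.thr 11 10 (.thr 56 26 (.dbl 40 24 43)))) (.rp 35 (.thr 51 12 (.thr 9 57 (.thr 11 10 (.thr 40 43 (.dbl 56 24 26))))) (.rp 9 (.thr 12 51 (.thr 35 44 (.thr 34 46 (.thr 33 32 (.dbl 1 49 61))))) .nd))))))) (.rp 2 (.str 1 (.nv (.thr 23 20 (.thr 39 55 (.thr 41 61 (.thr 35 44 (.dbl 43 40 47))))) (.nv (.thr 34 46 (.thr 33 49 (.thr 35 32 (.dbl 41 44 61)))) (.rp 61 (.thr 23 20 (.thr 34 46 (.thr 39 55 (.thr 33 49 (.thr 35 32 (.thr 43 47 (.dbl 41 40 44))))))) (.rp 51 (.str 35 (.nv (.thr 8 59 (.thr 33 49 (.dbl 34 32 46))) (.nv (.dbl 41 44 61) (.rp 8 (.str 12 (.nv (.thr 33 49 (.dbl 34 32 46)) (.nv (.dbl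 41 44 61) .nd))) .nd)))) (.rp 44 (.thr 8 59 (.thr 41 61 (.thr 40 43 (.thr 9 57 (.thr 11 10 (.dbl 56 24 26)))))) (.rp 41 (.thr 23 20 (.thr 51 12 (.thr 8 59 (.thr 39 55 (.thr 27 15 (.thr 26 24 (.thr 10 58 (.thr 9 11 (.thr 13 5 (.thr 50 14 (.dbl 49 33 48))))))))))) (.rp 35 (.thr 51 12 (.thr 8 59 (.thr 41 61 (.thr 40 43 (.thr 9 57 (.thr 11 10 (.dbl 56 24 26))))))) (.rp 12 (.thr 8 59 (.thr 33 49 (.thr 41 61 (.thr 35 44 (.dbl 34 32 46))))) (.rp 8 (.thr 12 51 (.str 35 (.nv (.thr 33 49 (.dbl 34 32 46)) (.nv (.dbl 41 44 61) .nd)))) .nd)))))))))) .nd)))))))))))))))))) (.rp 2 (.str 1 (.nv (.thr 23 20 (.dbl 55 4 39)) (.nv (.thr 6 54 (.dbl 4 5 55)) (.rp 55 (.thr 6 54 (.thr 5 4 (.thr 9 13 (.dbl 41 57 61)))) (.rp 51 (.str 35 (.nv (.thr 4 55 (.dbl 6 5 54)) (.nv (.dbl 41 44 61) .nd))) (.rp 35 (.thr 51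 12 (.thr 23 20 (.dbl 55 4 39))) (.rp 4 (.thr 23 20 (.thr 33 49 (.thr 39 55 (.thr 41 61 (.thr 35 44 (.thr 34 32 (.thr 43 47 (.dbl 42 40 46)))))))) .nd))))))) (.rp 1 (.str 2 (.nv (.thr 23 20 (.dbl 55 4 39)) (.nv (.thr 6 54 (.dbl 4 5 55)) (.rp 55 (.thr 6 54 (.thr 14 10 (.thr 26 50 (.thr 30 18 (.dbl 62 42 46))))) (.rp 51 (.str 35 (.nv (.thr 4 55 (.dbl 6 5 54)) (.nv (.thr 23 20 (.dbl 55 4 39)) (.rp 55 (.thr 6 54 (.thr 14 10 (.thr 50 26 (.thr 34 18 (.dbl 42 46 62))))) (.rp 4 (.thr 23 20 (.thr 39 55 (.thr 41 44 (.thr 43 47 (.dbl 42 40 62))))) .nd))))) (.rp 35 (.thr 51 12 (.thr 23 20 (.dbl 55 4 39))) (.rp 4 (.thr 6 54 (.thr 14 10 (.thr 26 50 (.thr 30 18 (.dbl 62 42 46))))) .nd))))))) .nd))))))))) (.rp 35 (.str 51 (.nv (.thr 23 20 (.thr 55 39 (.dbl 38 4 12))) (.nv (.thr 38 12 (.thr 4 55 (.dbl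 6 5 54))) (.rp 55 (.thr 20 23 (.thr 52 37 (.thr 4 36 (.thr 6 5 (.dbl 38 12 54))))) (.rp 38 (.thr 37 52 (.thr 53 5 (.thr 49 13 (.thr 61 57 (.dbl 1 33 41))))) (.rp 12 (.thr 23 20 (.thr 52 37 (.thr 55 39 (.thr 54 53 (.dbl 38 4 6))))) (.rp 4 (.thr 23 20 (.thr 52 37 (.thr 55 39 (.thr 54 53 (.dbl 38 6 12))))) (.rp 2 (.str 1 (.nv (.thr 23 20 (.thr 38 12 (.dbl 55 4 39))) (.nv (.thr 37 52 (.dbl 49 13 33)) .nd))) (.rp 1 (.str 2 (.nv (.thr 23 20 (.thr 42 62 (.thr 55 39 (.dbl 59 8 63)))) (.nv (.thr 38 12 (.thr 4 55 (.dbl 6 5 54))) (.rp 63 (.thr 23 20 (.thr 55 39 (.dbl 38 4 12))) (.rp 55 (.thr 20 23 (.thr 38 12 (.thr 6 54 (.thr 4 5 (.dbl 52 36 37))))) .nd))))) .nd))))))))) (.rp 5 (.thr 23 20 (.thr 55 39 (.thr 38 4 (.thr 54 6 (.dbl 52 37 53))))) (.rp 2 (.str 1 (.nv (.thr 37 52 (.thr 5 53 (.thr 9 13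 (.dbl 41 57 61)))) (.nv (.thr 37 52 (.dbl 49 13 33)) (.rp 52 (.thr 49 33 (.thr 13 37 (.thr 9 5 (.dbl 41 57 61)))) (.rp 51 (.str 35 (.nv (.thr 23 20 (.thr 41 61 (.thr 38 44 (.dbl 55 4 39)))) (.nv (.thr 37 52 (.dbl 49 13 33)) (.rp 13 (.thr 33 49 (.thr 37 52 (.dbl 41 45 61))) .nd)))) (.rp 37 (.thr 23 20 (.thr 55 39 (.thr 38 4 (.thr 33 49 (.thr 41 61 (.thr 35 44 (.thr 34 32 (.thr 42 46 (.thr 8 59 (.thr 40 43 (.thr 56 24 (.thr 11 26 (.dbl 9 10 57))))))))))))) (.rp 35 (.str 51 (.nv (.thr 23 20 (.thr 38 12 (.dbl 55 4 39))) (.nv (.thr 37 52 (.dbl 49 13 33)) .nd))) (.rp 13 (.thr 37 52 (.thr 33 49 (.dbl 41 45 61))) .nd)))))))) (.rp 1 (.str 2 (.nv (.thr 20 23 (.thr 52 37 (.thr 4 36 (.thr 38 55 (.dbl 6 5 54))))) (.nv (.thr 23 20 (.thr 42 62 (.thr 55 39 (.thr 59 8 (.thr 51 63 (.dbl 38 4 12))))))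 (.nv (.thr 23 20 (.thr 55 39 (.thr 4 38 (.thr 37 52 (.dbl 5 6 53))))) (.rp 55 (.thr 20 23 (.thr 52 37 (.thr 4 36 (.thr 6 5 (.thr 38 54 (.thr 42 62 (.thr 34 46 (.thr 50 18 (.dbl 14 10 26))))))))) (.rp 51 (.str 35 (.nv (.thr 20 23 (.thr 52 37 (.thr 4 36 (.thr 38 55 (.dbl 6 5 54))))) (.nv (.thr 37 52 (.thr 42 62 (.thr 47 32 (.thr 39 43 (.dbl 23 20 55))))) (.rp 55 (.thr 37 52 (.thr 42 62 (.thr 32 47 (.thr 34 33 (.thr 38 46 (.thr 36 39 (.dbl 44 40 41))))))) (.rp 52 (.thr 23 20 (.thr 39 55 (.thr 43 47 (.thr 42 62 (.thr 59 8 (.thr 27 11 (.thr 26 24 (.thr 18 30 (.thr 50 34 (.thr 14 38 (.dbl 10 6 58))))))))))) (.rp 43 (.thr 23 20 (.thr 55 39 (.thr 4 38 (.thr 5 6 (.dbl 37 52 53))))) (.rp 37 (.thr 23 20 (.thr 55 39 (.thr 38 4 (.thr 6 54 (.thr 14 10 (.thr 26 50 (.thr 30 18 (.dbl 62 42 46))))))))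 (.rp 23 (.thr 37 52 (.thr 5 53 (.thr 6 4 (.thr 42 62 (.thr 32 47 (.thr 34 33 (.dbl 38 46 54))))))) (.rp 20 (.thr 37 52 (.thr 5 53 (.thr 4 6 (.thr 55 38 (.thr 39 23 (.thr 42 62 (.dbl 47 32 43))))))) .nd))))))))) (.rp 38 (.thr 37 52 (.thr 5 53 (.thr 6 4 (.thr 10 14 (.thr 42 62 (.thr 26 58 (.thr 24 27 (.thr 8 59 (.thr 11 9 (.dbl 56 40 41)))))))))) (.rp 35 (.str 51 (.nv (.thr 23 20 (.thr 42 62 (.thr 55 39 (.dbl 59 8 63)))) (.nv (.thr 38 12 (.thr 4 55 (.dbl 6 5 54))) (.rp 63 (.thr 23 20 (.thr 55 39 (.dbl 38 4 12))) (.rp 55 (.thr 20 23 (.thr 38 12 (.thr 6 54 (.thr 4 5 (.dbl 52 36 37))))) .nd))))) (.rp 23 (.thr 37 52 (.thr 5 53 (.thr 6 4 (.thr 14 10 (.thr 13 49 (.thr 12 15 (.dbl 38 51 54))))))) (.rp 20 (.thr 37 52 (.thr 5 53 (.thr 4 6 (.thr 55 38 (.thr 39 23 (.thr 42 62 (.thr 59 8 (.thr 47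 32 (.thr 51 63 (.thr 43 35 (.dbl 27 11 15))))))))))) (.rp 4 (.thr 23 20 (.thr 55 39 (.thr 52 37 (.thr 54 53 (.thr 38 6 (.thr 62 42 (.thr 50 58 (.thr 26 14 (.dbl 18 30 34))))))))) .nd))))))))))) .nd)))))))))))

theorem w6 : WinAt (39976960, 537395209) :=
  chF (K := []) kn c6 39976960 537395209 29
    [15, 2251834173947912] (by decide +kernel) (by decide +kernel)

/-- A certificate. -/
noncomputable def c7 : Ct := (.str 18 (.nv (.thr 17 29 (.dbl 19 16 28)) (.rp 60 (.str 40 (.nv (.thr 17 29 (.dbl 19 16 28)) (.rp 29 (.thr 19 28 (.thr 16 17 (.dbl 26 30 31))) (.rp 28 (.thr 17 29 (.thr 16 19 (.dbl 26 30 31))) (.rp 19 (.thr 26 30 (.thr 24 27 (.thr 8 56 (.thr 42 59 (.thr 2 62 (.thr 50 34 (.thr 14 38 (.dbl 10 6 58)))))))) (.rp 17 (.thr 28 19 (.str 51 (.nv (.thr 26 30 (.thr 24 27 (.thr 8 56 (.thr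 38 12 (.thr 55 4 (.dbl 59 42 63)))))) (.nv (.thr 26 30 (.thr 38 12 (.thr 50 14 (.thr 2 34 (.thr 62 42 (.dbl 54 6 58)))))) (.nv (.thr 26 30 (.thr 27 24 (.thr 15 39 (.thr 48 37 (.thr 50 49 (.dbl 38 12 14)))))) (.rp 45 (.thr 30 26 (.thr 29 31 (.thr 12 38 (.thr 63 46 (.thr 59 55 (.thr 42 8 (.thr 41 43 (.thr 2 62 (.thr 50 34 (.thr 48 49 (.thr 58 53 (.dbl 57 9 56)))))))))))) (.rp 38 (.thr 26 30 (.thr 27 24 (.thr 31 16 (.thr 15 39 (.thr 63 47 (.thr 59 55 (.thr 42 8 (.dbl 43 11 41)))))))) (.rp 30 (.str 15 (.nv (.thr 38 12 (.thr 4 55 (.thr 6 54 (.thr 5 7 (.thr 39 27 (.dbl 37 36 53)))))) (.nv (.thr 27 39 (.thr 26 24 (.thr 31 16 (.thr 63 47 (.thr 59 55 (.thr 43 11 (.dbl 42 8 41))))))) (.nv (.thr 27 39 (.thr 26 24 (.thr 48 37 (.thr 50 49 (.dbl 38 12 14))))) (.rp 39 (.thr 12 38 (.thr 13 14 (.thr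 37 49 (.thr 52 7 (.thr 53 5 (.thr 55 54 (.thr 63 59 (.dbl 48 26 58)))))))) (.rp 27 (.thr 12 38 (.thr 13 14 (.thr 37 49 (.thr 52 7 (.thr 53 5 (.thr 55 54 (.thr 63 59 (.dbl 48 26 58)))))))) (.rp 2 (.str 1 (.nv (.thr 12 38 (.thr 41 61 (.thr 9 57 (.dbl 13 5 14)))) (.nv (.thr 27 39 (.thr 24 26 (.thr 41 61 (.thr 42 43 (.dbl 8 56 59))))) (.nv (.thr 27 39 (.thr 26 24 (.thr 48 37 (.thr 50 49 (.dbl 38 12 14))))) .nd)))) (.rp 1 (.str 2 (.nv (.thr 34 50 (.thr 38 12 (.dbl 42 46 62))) (.nv (.thr 27 39 (.thr 42 62 (.thr 43 41 (.dbl 59 8 11)))) (.nv (.thr 27 39 (.thr 26 24 (.thr 50 34 (.dbl 48 37 49)))) (.rp 49 (.str 33 (.nv (.thr 34 50 (.thr 38 12 (.dbl 42 46 62))) (.nv (.thr 27 39 (.thr 42 62 (.thr 43 41 (.dbl 59 8 11)))) (.nv (.thr 27 39 (.thr 26 24 (.thr 50 34 (.dbl 38 12 14)))) .nd)))) (.rp 33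 (.str 49 (.nv (.thr 12 38 (.dbl 13 14 37)) (.nv (.dbl 50 34 48) .nd))) .nd)))))) .nd)))))))) (.rp 26 (.str 2 (.nv (.thr 34 50 (.thr 42 62 (.dbl 38 12 46))) (.nv (.thr 34 50 (.thr 38 12 (.dbl 42 46 62))) (.rp 62 (.thr 50 34 (.thr 49 48 (.thr 37 13 (.thr 53 5 (.thr 38 12 (.thr 52 7 (.dbl 54 6 55))))))) (.rp 50 (.thr 42 62 (.thr 38 12 (.thr 46 34 (.thr 41 43 (.thr 44 35 (.thr 32 36 (.dbl 47 37 45))))))) (.rp 46 (.thr 50 34 (.thr 62 42 (.thr 38 12 (.dbl 54 6 58)))) (.rp 42 (.thr 50 34 (.thr 49 48 (.thr 37 13 (.thr 53 5 (.thr 38 12 (.thr 52 7 (.dbl 54 6 55))))))) (.rp 38 (.thr 50 34 (.thr 42 62 (.thr 49 48 (.thr 41 43 (.thr 57 9 (.dbl 61 1 53)))))) (.rp 34 (.thr 42 62 (.thr 38 12 (.thr 6 54 (.thr 10 14 (.thr 8 59 (.thr 41 43 (.dbl 9 11 57))))))) (.rp 12 (.thr 50 34 (.thr 42 62 (.thr 49 48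 (.thr 41 43 (.thr 61 1 (.dbl 57 9 53)))))) .nd)))))))))) (.rp 15 (.thr 30 26 (.thr 29 31 (.thr 12 38 (.thr 63 46 (.thr 59 55 (.thr 42 8 (.thr 41 43 (.thr 2 62 (.thr 50 34 (.thr 48 49 (.thr 58 53 (.dbl 57 9 56)))))))))))) (.rp 12 (.thr 26 30 (.thr 24 27 (.thr 8 56 (.thr 42 59 (.thr 2 62 (.thr 50 34 (.thr 14 38 (.dbl 10 6 58)))))))) (.rp 2 (.str 1 (.nv (.thr 41 61 (.thr 42 43 (.thr 8 59 (.thr 24 56 (.dbl 26 27 30))))) (.nv (.thr 12 38 (.thr 26 30 (.thr 24 27 (.thr 48 36 (.thr 49 50 (.dbl 37 13 15)))))) (.nv (.thr 41 61 (.thr 26 30 (.thr 56 11 (.dbl 24 8 27)))) (.rp 30 (.thr 41 61 (.thr 9 57 (.thr 5 13 (.thr 38 12 (.thr 6 54 (.dbl 4 7 55)))))) (.rp 27 (.thr 41 61 (.thr 26 30 (.thr 56 11 (.thr 8 24 (.dbl 42 43 59))))) (.rp 26 (.thr 41 61 (.thr 9 57 (.thr 5 13 (.thr 38 12 (.thr 6 54 (.dbl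 4 7 55)))))) (.rp 24 (.thr 41 61 (.thr 57 9 (.thr 26 30 (.thr 42 43 (.thr 58 10 (.dbl 56 11 59)))))) .nd)))))))) (.rp 1 (.str 2 (.nv (.thr 34 50 (.thr 38 12 (.dbl 42 46 62))) (.nv (.thr 42 62 (.thr 8 59 (.thr 24 56 (.dbl 26 27 30)))) (.nv (.thr 50 34 (.thr 26 30 (.dbl 38 12 14))) (.rp 49 (.str 33 (.nv (.thr 34 50 (.thr 38 12 (.dbl 42 46 62))) (.nv (.thr 42 62 (.thr 8 59 (.thr 24 56 (.dbl 26 27 30)))) (.nv (.thr 50 34 (.thr 26 30 (.dbl 38 12 14))) .nd)))) (.rp 33 (.str 49 (.nv (.dbl 50 34 48) (.rp 50 (.thr 37 13 (.thr 26 30 (.thr 27 24 (.dbl 15 39 48)))) (.rp 48 (.thr 50 34 (.thr 26 30 (.dbl 38 12 14))) (.rp 34 (.thr 37 13 (.thr 26 30 (.dbl 48 15 50))) .nd))))) .nd)))))) .nd))))))))))))) (.rp 16 (.thr 30 26 (.thr 29 17 (.dbl 28 19 31))) (.rp 2 (.str 1 (.nv (.thr 26 30 (.thr 24 27 (.thr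 41 61 (.dbl 56 8 11)))) (.nv (.thr 17 29 (.dbl 19 16 28)) .nd))) (.rp 1 (.str 2 (.nv (.thr 26 30 (.thr 24 27 (.thr 8 56 (.dbl 42 59 62)))) (.nv (.thr 17 29 (.dbl 19 16 28)) .nd))) .nd))))))))) (.rp 40 (.str 60 (.nv (.thr 17 29 (.dbl 19 16 28)) (.rp 29 (.thr 19 28 (.thr 16 17 (.dbl 26 30 31))) (.rp 28 (.thr 17 29 (.thr 16 19 (.dbl 26 30 31))) (.rp 19 (.thr 30 26 (.thr 29 17 (.thr 28 31 (.thr 12 44 (.thr 63 46 (.thr 61 62 (.dbl 45 13 15))))))) (.rp 17 (.thr 30 26 (.thr 28 19 (.thr 29 31 (.thr 12 44 (.thr 63 46 (.thr 61 62 (.dbl 45 13 15))))))) (.rp 16 (.thr 30 26 (.thr 28 19 (.dbl 29 17 31))) (.rp 2 (.str 1 (.nv (.thr 29 17 (.thr 30 26 (.thr 45 15 (.dbl 61 13 41)))) (.nv (.thr 17 29 (.dbl 19 16 28)) (.rp 29 (.thr 19 28 (.thr 16 17 (.dbl 26 30 31))) (.rp 17 (.thr 28 19 (.thr 30 26 (.thr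 29 31 (.thr 61 41 (.dbl 45 13 15))))) .nd))))) (.rp 1 (.str 2 (.nv (.thr 17 29 (.dbl 19 16 28)) (.rp 29 (.thr 19 28 (.thr 16 17 (.dbl 26 30 31))) (.rp 28 (.thr 17 29 (.thr 16 19 (.dbl 26 30 31))) (.rp 19 (.thr 26 30 (.thr 62 42 (.thr 50 34 (.thr 54 58 (.dbl 38 6 14))))) (.rp 17 (.thr 26 30 (.thr 42 62 (.thr 10 58 (.thr 14 6 (.dbl 50 34 38))))) (.rp 16 (.thr 30 26 (.thr 28 19 (.dbl 29 17 31))) .nd))))))) .nd))))))))) (.rp 29 (.thr 19 28 (.thr 16 17 (.dbl 26 30 31))) (.rp 28 (.thr 17 29 (.thr 16 19 (.dbl 26 30 31))) (.rp 19 (.thr 17 29 (.str 1 (.nv (.thr 49 33 (.thr 13 37 (.thr 41 61 (.dbl 9 5 57)))) (.rp 61 (.thr 26 30 (.thr 27 24 (.thr 49 33 (.thr 13 37 (.thr 9 5 (.thr 41 57 (.thr 11 56 (.thr 59 43 (.dbl 8 10 42))))))))) (.rp 60 (.str 40 (.nv (.thr 26 30 (.thr 24 27 (.thr 56 8 (.dbl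 41 11 61)))) (.nv (.thr 49 33 (.thr 37 13 (.thr 61 41 (.dbl 53 5 57)))) (.rp 61 (.thr 26 30 (.thr 24 27 (.thr 56 8 (.thr 41 11 (.thr 9 57 (.thr 13 5 (.dbl 49 33 37))))))) (.rp 51 (.str 35 (.nv (.thr 26 30 (.thr 24 27 (.thr 56 8 (.dbl 41 11 61)))) (.nv (.thr 49 33 (.thr 37 13 (.thr 61 41 (.dbl 53 5 57)))) (.rp 61 (.thr 33 49 (.thr 32 34 (.thr 44 36 (.thr 41 38 (.thr 42 43 (.dbl 37 45 47)))))) (.rp 57 (.str 54 (.nv (.thr 49 33 (.thr 37 13 (.thr 52 7 (.dbl 53 5 55)))) (.nv (.thr 38 6 (.dbl 41 44 61)) (.rp 61 (.thr 38 6 (.thr 44 41 (.thr 32 36 (.dbl 33 34 49)))) .nd)))) (.rp 54 (.str 57 (.nv (.thr 49 33 (.thr 37 13 (.dbl 53 5 61))) (.nv (.dbl 41 9 61) (.rp 61 (.thr 49 33 (.thr 9 41 (.dbl 13 5 37))) .nd)))) (.rp 41 (.thr 33 49 (.thr 34 32 (.thr 26 30 (.thr 24 27 (.thr 8 56 (.thr 42 59 (.dbl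 2 50 62))))))) .nd))))))) (.rp 41 (.thr 26 30 (.thr 24 27 (.thr 8 56 (.thr 42 59 (.thr 2 62 (.thr 50 34 (.thr 14 38 (.dbl 10 6 58)))))))) (.rp 35 (.str 51 (.nv (.thr 49 33 (.thr 13 37 (.thr 41 61 (.dbl 9 5 57)))) (.nv (.thr 26 30 (.thr 24 27 (.thr 56 8 (.dbl 41 11 61)))) (.nv (.thr 49 33 (.thr 48 50 (.thr 37 13 (.dbl 26 15 30)))) (.rp 61 (.thr 49 33 (.thr 48 50 (.thr 26 30 (.dbl 37 13 15)))) .nd))))) .nd))))))) (.rp 57 (.thr 26 30 (.thr 24 27 (.thr 49 33 (.thr 37 13 (.thr 48 15 (.thr 51 50 (.dbl 12 36 38))))))) (.rp 51 (.str 35 (.nv (.thr 26 30 (.thr 33 49 (.thr 34 32 (.thr 50 2 (.thr 38 14 (.dbl 41 44 61)))))) (.nv (.thr 49 33 (.thr 13 37 (.thr 41 61 (.dbl 9 5 57)))) (.rp 61 (.thr 26 30 (.thr 27 24 (.thr 49 33 (.thr 13 37 (.thr 9 5 (.thr 41 57 (.thr 11 56 (.thr 59 43 (.dbl 8 10 42)))))))))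 (.rp 60 (.str 40 (.nv (.thr 26 30 (.thr 24 27 (.thr 56 8 (.dbl 41 11 61)))) (.nv (.thr 49 33 (.thr 37 13 (.thr 61 41 (.dbl 53 5 57)))) (.rp 61 (.thr 33 49 (.thr 32 34 (.thr 44 36 (.thr 41 38 (.thr 42 43 (.dbl 37 45 47)))))) (.rp 57 (.str 54 (.nv (.thr 49 33 (.thr 37 13 (.thr 52 7 (.dbl 53 5 55)))) (.nv (.thr 38 6 (.dbl 41 44 61)) (.rp 61 (.thr 38 6 (.thr 44 41 (.thr 32 36 (.dbl 33 34 49)))) .nd)))) (.rp 54 (.str 57 (.nv (.thr 49 33 (.thr 37 13 (.dbl 53 5 61))) (.nv (.dbl 41 9 61) (.rp 61 (.thr 49 33 (.thr 9 41 (.dbl 13 5 37))) .nd)))) (.rp 41 (.thr 33 49 (.thr 34 32 (.thr 26 30 (.thr 24 27 (.thr 8 56 (.thr 42 59 (.dbl 2 50 62))))))) .nd))))))) (.rp 49 (.thr 41 61 (.thr 38 44 (.thr 4 55 (.thr 6 54 (.thr 5 7 (.dbl 9 13 57)))))) (.rp 41 (.str 2 (.nv (.thr 34 50 (.dbl 33 32 49)) (.rp 60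 (.str 40 (.nv (.thr 26 30 (.thr 24 27 (.thr 42 62 (.dbl 8 56 59)))) (.nv (.thr 33 49 (.dbl 34 32 50)) (.rp 57 (.str 54 (.nv (.thr 33 49 (.dbl 34 32 50)) (.nv (.thr 26 30 (.thr 24 27 (.thr 42 62 (.dbl 8 56 59)))) (.nv (.thr 50 34 (.dbl 62 42 58)) .nd)))) (.rp 54 (.str 57 (.nv (.thr 26 30 (.thr 42 62 (.thr 58 10 (.dbl 59 8 56)))) (.nv (.thr 33 49 (.dbl 34 32 50)) .nd))) .nd))))) (.rp 50 (.thr 26 30 (.thr 27 24 (.thr 49 33 (.thr 37 13 (.thr 42 62 (.thr 47 32 (.thr 43 39 (.dbl 59 8 11)))))))) (.rp 49 (.thr 26 30 (.thr 50 34 (.thr 14 38 (.thr 10 6 (.dbl 42 58 62))))) (.rp 48 (.thr 26 30 (.thr 50 34 (.thr 14 38 (.thr 10 6 (.dbl 42 58 62))))) (.rp 40 (.str 60 (.nv (.thr 33 49 (.dbl 34 32 50)) (.rp 50 (.thr 49 33 (.thr 37 13 (.thr 53 5 (.thr 61 57 (.dbl 62 42 63))))) (.rp 49 (.thr 50 34 (.thr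 42 62 (.thr 26 30 (.thr 10 58 (.dbl 14 6 38))))) (.rp 48 (.thr 49 33 (.thr 37 13 (.thr 53 5 (.thr 61 57 (.dbl 62 42 63))))) (.rp 43 (.thr 42 62 (.thr 33 49 (.dbl 34 32 50))) (.rp 42 (.str 43 (.nv (.thr 34 50 (.dbl 33 32 49)) (.rp 50 (.thr 49 33 (.thr 26 30 (.thr 37 13 (.thr 52 7 (.dbl 48 15 56))))) (.rp 49 (.thr 50 34 (.thr 26 30 (.thr 39 47 (.thr 38 14 (.thr 37 36 (.thr 52 7 (.dbl 48 15 56))))))) (.rp 48 (.thr 50 34 (.thr 49 33 (.thr 26 30 (.thr 39 47 (.thr 38 14 (.dbl 37 13 36)))))) (.rp 34 (.thr 49 33 (.thr 26 30 (.thr 37 13 (.thr 52 7 (.dbl 48 15 56))))) (.rp 33 (.thr 50 34 (.thr 26 30 (.thr 39 47 (.thr 38 14 (.thr 37 36 (.thr 5 53 (.dbl 13 9 49))))))) (.rp 32 (.thr 49 33 (.thr 26 30 (.thr 37 13 (.thr 52 7 (.dbl 48 15 56))))) .nd)))))))) (.rp 34 (.thr 49 33 (.thr 37 13 (.thr 53 5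 (.thr 61 57 (.dbl 62 42 63))))) (.rp 33 (.thr 50 34 (.thr 42 62 (.thr 26 30 (.thr 10 58 (.dbl 14 6 38))))) (.rp 32 (.thr 49 33 (.thr 37 13 (.thr 53 5 (.thr 61 57 (.dbl 62 42 63))))) .nd)))))))))) (.rp 34 (.thr 26 30 (.thr 49 33 (.thr 42 62 (.thr 8 59 (.thr 10 58 (.thr 9 11 (.dbl 13 5 37))))))) (.rp 33 (.thr 26 30 (.thr 50 34 (.thr 14 38 (.thr 10 6 (.dbl 42 58 62))))) (.rp 32 (.thr 26 30 (.thr 50 34 (.thr 14 38 (.thr 10 6 (.dbl 42 58 62))))) .nd)))))))))) (.rp 40 (.str 60 (.nv (.thr 33 49 (.thr 34 32 (.thr 61 41 (.thr 62 63 (.dbl 2 42 50))))) (.nv (.thr 49 33 (.thr 41 61 (.thr 13 37 (.dbl 9 5 57)))) (.rp 61 (.thr 49 33 (.thr 13 37 (.thr 9 5 (.thr 41 57 (.thr 44 38 (.thr 12 28 (.thr 30 26 (.dbl 15 14 45)))))))) (.rp 49 (.thr 41 61 (.thr 38 44 (.thr 6 54 (.thr 4 55 (.thr 5 7 (.dbl 9 13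 57)))))) (.rp 41 (.thr 49 33 (.thr 37 13 (.thr 52 7 (.thr 48 56 (.dbl 26 15 30))))) (.rp 33 (.thr 41 61 (.thr 9 57 (.thr 38 44 (.thr 6 54 (.thr 4 55 (.dbl 5 7 13)))))) .nd))))))) (.rp 33 (.thr 41 61 (.thr 38 44 (.thr 4 55 (.thr 6 54 (.thr 5 7 (.dbl 9 13 57)))))) .nd))))))))) (.rp 49 (.thr 26 30 (.thr 24 27 (.thr 41 61 (.thr 57 9 (.thr 56 11 (.thr 59 58 (.dbl 8 40 42))))))) (.rp 41 (.thr 26 30 (.thr 24 27 (.thr 49 33 (.thr 37 13 (.thr 48 15 (.thr 51 50 (.dbl 12 36 38))))))) (.rp 40 (.str 60 (.nv (.thr 26 30 (.thr 49 33 (.thr 37 13 (.thr 52 7 (.dbl 48 15 56))))) (.nv (.thr 49 33 (.thr 13 37 (.thr 41 61 (.dbl 9 5 57)))) (.rp 61 (.thr 30 26 (.thr 49 33 (.thr 13 37 (.thr 9 5 (.thr 41 57 (.thr 15 45 (.thr 12 14 (.thr 44 28 (.dbl 38 35 51))))))))) (.rp 51 (.str 35 (.nv (.thr 33 49 (.thr 34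 32 (.thr 61 41 (.thr 62 63 (.dbl 2 42 50))))) (.nv (.thr 49 33 (.thr 41 61 (.thr 13 37 (.dbl 9 5 57)))) (.rp 61 (.thr 49 33 (.thr 13 37 (.thr 9 5 (.thr 41 57 (.thr 44 38 (.thr 12 28 (.thr 30 26 (.dbl 15 14 45)))))))) (.rp 49 (.thr 41 61 (.thr 38 44 (.thr 6 54 (.thr 4 55 (.thr 5 7 (.dbl 9 13 57)))))) (.rp 41 (.thr 49 33 (.thr 37 13 (.thr 52 7 (.thr 48 56 (.dbl 26 15 30))))) (.rp 33 (.thr 41 61 (.thr 9 57 (.thr 38 44 (.thr 6 54 (.thr 4 55 (.dbl 5 7 13)))))) .nd))))))) (.rp 49 (.thr 26 30 (.thr 27 24 (.thr 41 61 (.thr 57 9 (.thr 51 54 (.thr 56 11 (.thr 48 52 (.dbl 15 37 39)))))))) (.rp 37 (.thr 26 30 (.thr 27 24 (.thr 41 61 (.thr 9 57 (.thr 11 56 (.thr 8 10 (.dbl 59 42 43))))))) (.rp 35 (.str 51 (.nv (.thr 26 30 (.thr 49 33 (.thr 48 50 (.dbl 37 13 15)))) (.nv (.thr 57 54 (.dbl 41 9 61))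 .nd))) (.rp 33 (.thr 26 30 (.thr 27 24 (.thr 41 61 (.thr 9 57 (.thr 11 56 (.thr 8 10 (.dbl 59 42 43))))))) (.rp 13 (.thr 30 26 (.thr 41 61 (.thr 45 15 (.dbl 33 37 49)))) .nd)))))))))) (.rp 37 (.thr 26 30 (.thr 24 27 (.thr 41 61 (.thr 57 9 (.thr 56 11 (.thr 59 58 (.dbl 8 40 42))))))) (.rp 35 (.str 51 (.nv (.thr 26 30 (.thr 27 24 (.thr 15 39 (.thr 48 37 (.dbl 49 33 50))))) (.nv (.thr 49 33 (.thr 13 37 (.thr 41 61 (.dbl 9 5 57)))) (.rp 60 (.str 40 (.nv (.thr 49 33 (.thr 13 37 (.thr 41 61 (.dbl 9 5 57)))) (.nv (.thr 26 30 (.thr 24 27 (.thr 56 8 (.dbl 41 11 61)))) (.nv (.thr 49 33 (.thr 48 50 (.thr 37 13 (.dbl 26 15 30)))) (.rp 61 (.thr 49 33 (.thr 48 50 (.thr 26 30 (.dbl 37 13 15)))) .nd))))) (.rp 49 (.thr 26 30 (.thr 38 12 (.thr 50 14 (.thr 2 34 (.thr 62 42 (.dbl 54 6 58)))))) (.rp 40 (.str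 60 (.nv (.thr 26 30 (.thr 49 33 (.thr 48 50 (.dbl 37 13 15)))) (.nv (.thr 57 54 (.dbl 41 9 61)) .nd))) (.rp 37 (.thr 26 30 (.thr 49 33 (.thr 50 48 (.dbl 38 12 14)))) (.rp 33 (.thr 26 30 (.thr 27 24 (.thr 15 39 (.thr 48 37 (.thr 50 49 (.dbl 38 12 14)))))) .nd)))))))) (.rp 33 (.thr 26 30 (.thr 24 27 (.thr 41 61 (.thr 57 9 (.thr 56 11 (.thr 59 58 (.dbl 8 40 42))))))) (.rp 13 (.thr 26 30 (.thr 24 27 (.thr 33 49 (.thr 41 61 (.thr 45 37 (.thr 57 9 (.thr 56 11 (.thr 59 58 (.dbl 8 40 42))))))))) (.rp 9 (.thr 49 33 (.thr 37 13 (.thr 53 5 (.dbl 61 41 57)))) (.rp 5 (.thr 26 30 (.thr 24 27 (.thr 41 61 (.thr 57 9 (.thr 56 11 (.thr 59 58 (.dbl 8 40 42))))))) .nd)))))))))))))))) (.rp 17 (.thr 28 19 (.str 51 (.nv (.thr 12 38 (.thr 26 30 (.thr 24 27 (.thr 48 36 (.thr 60 44 (.thr 57 54 (.thr 41 9 (.dbl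 56 11 52)))))))) (.nv (.thr 26 30 (.thr 38 12 (.thr 50 14 (.thr 2 34 (.thr 62 42 (.dbl 54 6 58)))))) (.nv (.thr 26 30 (.thr 27 24 (.thr 15 39 (.thr 48 37 (.thr 50 49 (.dbl 38 12 14)))))) (.rp 60 (.str 40 (.nv (.thr 26 30 (.thr 24 27 (.thr 8 56 (.thr 38 12 (.thr 55 4 (.dbl 59 42 63)))))) (.nv (.thr 26 30 (.thr 38 12 (.thr 50 14 (.thr 2 34 (.thr 62 42 (.dbl 54 6 58)))))) (.nv (.thr 26 30 (.thr 27 24 (.thr 15 39 (.thr 48 37 (.thr 50 49 (.dbl 38 12 14)))))) (.rp 45 (.thr 30 26 (.thr 29 31 (.thr 12 38 (.thr 63 46 (.thr 59 55 (.thr 42 8 (.thr 41 43 (.thr 2 62 (.thr 50 34 (.thr 48 49 (.thr 58 53 (.dbl 57 9 56)))))))))))) (.rp 38 (.thr 26 30 (.thr 27 24 (.thr 31 16 (.thr 15 39 (.thr 63 47 (.thr 59 55 (.thr 42 8 (.dbl 43 11 41)))))))) (.rp 30 (.str 15 (.nv (.thr 38 12 (.thr 4 55 (.thr 6 54 (.thr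 5 7 (.thr 39 27 (.dbl 37 36 53)))))) (.nv (.thr 27 39 (.thr 26 24 (.thr 31 16 (.thr 63 47 (.thr 59 55 (.thr 43 11 (.dbl 42 8 41))))))) (.nv (.thr 27 39 (.thr 26 24 (.thr 48 37 (.thr 50 49 (.dbl 38 12 14))))) (.rp 39 (.thr 12 38 (.thr 13 14 (.thr 37 49 (.thr 52 7 (.thr 53 5 (.thr 55 54 (.thr 63 59 (.dbl 48 26 58)))))))) (.rp 27 (.thr 12 38 (.thr 13 14 (.thr 37 49 (.thr 52 7 (.thr 53 5 (.thr 55 54 (.thr 63 59 (.dbl 48 26 58)))))))) (.rp 2 (.str 1 (.nv (.thr 12 38 (.thr 41 61 (.thr 9 57 (.dbl 13 5 14)))) (.nv (.thr 27 39 (.thr 24 26 (.thr 41 61 (.thr 42 43 (.dbl 8 56 59))))) (.nv (.thr 27 39 (.thr 26 24 (.thr 48 37 (.thr 50 49 (.dbl 38 12 14))))) .nd)))) (.rp 1 (.str 2 (.nv (.thr 34 50 (.thr 38 12 (.dbl 42 46 62))) (.nv (.thr 27 39 (.thr 42 62 (.thr 43 41 (.dbl 59 8 11)))) (.nv (.thr 27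 39 (.thr 26 24 (.thr 50 34 (.dbl 48 37 49)))) (.rp 49 (.str 33 (.nv (.thr 34 50 (.thr 38 12 (.dbl 42 46 62))) (.nv (.thr 27 39 (.thr 42 62 (.thr 43 41 (.dbl 59 8 11)))) (.nv (.thr 27 39 (.thr 26 24 (.thr 50 34 (.dbl 38 12 14)))) .nd)))) (.rp 33 (.str 49 (.nv (.thr 12 38 (.dbl 13 14 37)) (.nv (.dbl 50 34 48) .nd))) .nd)))))) .nd)))))))) (.rp 26 (.str 2 (.nv (.thr 34 50 (.thr 42 62 (.dbl 38 12 46))) (.nv (.thr 34 50 (.thr 38 12 (.dbl 42 46 62))) (.rp 62 (.thr 50 34 (.thr 49 48 (.thr 37 13 (.thr 53 5 (.thr 38 12 (.thr 52 7 (.dbl 54 6 55))))))) (.rp 50 (.thr 42 62 (.thr 38 12 (.thr 46 34 (.thr 41 43 (.thr 44 35 (.thr 32 36 (.dbl 47 37 45))))))) (.rp 46 (.thr 50 34 (.thr 62 42 (.thr 38 12 (.dbl 54 6 58)))) (.rp 42 (.thr 50 34 (.thr 49 48 (.thr 37 13 (.thr 53 5 (.thr 38 12 (.thr 52 7 (.dbl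 54 6 55))))))) (.rp 38 (.thr 50 34 (.thr 42 62 (.thr 49 48 (.thr 41 43 (.thr 57 9 (.dbl 61 1 53)))))) (.rp 34 (.thr 42 62 (.thr 38 12 (.thr 6 54 (.thr 10 14 (.thr 8 59 (.thr 41 43 (.dbl 9 11 57))))))) (.rp 12 (.thr 50 34 (.thr 42 62 (.thr 49 48 (.thr 41 43 (.thr 61 1 (.dbl 57 9 53)))))) .nd)))))))))) (.rp 15 (.thr 30 26 (.thr 29 31 (.thr 12 38 (.thr 63 46 (.thr 59 55 (.thr 42 8 (.thr 41 43 (.thr 2 62 (.thr 50 34 (.thr 48 49 (.thr 58 53 (.dbl 57 9 56)))))))))))) (.rp 12 (.thr 26 30 (.thr 24 27 (.thr 8 56 (.thr 42 59 (.thr 2 62 (.thr 50 34 (.thr 14 38 (.dbl 10 6 58)))))))) (.rp 2 (.str 1 (.nv (.thr 41 61 (.thr 42 43 (.thr 8 59 (.thr 24 56 (.dbl 26 27 30))))) (.nv (.thr 12 38 (.thr 26 30 (.thr 24 27 (.thr 48 36 (.thr 49 50 (.dbl 37 13 15)))))) (.nv (.thr 41 61 (.thr 26 30 (.thr 56 11 (.dbl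 24 8 27)))) (.rp 30 (.thr 41 61 (.thr 9 57 (.thr 5 13 (.thr 38 12 (.thr 6 54 (.dbl 4 7 55)))))) (.rp 27 (.thr 41 61 (.thr 26 30 (.thr 56 11 (.thr 8 24 (.dbl 42 43 59))))) (.rp 26 (.thr 41 61 (.thr 9 57 (.thr 5 13 (.thr 38 12 (.thr 6 54 (.dbl 4 7 55)))))) (.rp 24 (.thr 41 61 (.thr 57 9 (.thr 26 30 (.thr 42 43 (.thr 58 10 (.dbl 56 11 59)))))) .nd)))))))) (.rp 1 (.str 2 (.nv (.thr 34 50 (.thr 38 12 (.dbl 42 46 62))) (.nv (.thr 42 62 (.thr 8 59 (.thr 24 56 (.dbl 26 27 30)))) (.nv (.thr 50 34 (.thr 26 30 (.dbl 38 12 14))) (.rp 49 (.str 33 (.nv (.thr 34 50 (.thr 38 12 (.dbl 42 46 62))) (.nv (.thr 42 62 (.thr 8 59 (.thr 24 56 (.dbl 26 27 30)))) (.nv (.thr 50 34 (.thr 26 30 (.dbl 38 12 14))) .nd)))) (.rp 33 (.str 49 (.nv (.dbl 50 34 48) (.rp 50 (.thr 37 13 (.thr 26 30 (.thr 27 24 (.dbl 15 39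 48)))) (.rp 48 (.thr 50 34 (.thr 26 30 (.dbl 38 12 14))) (.rp 34 (.thr 37 13 (.thr 26 30 (.dbl 48 15 50))) .nd))))) .nd)))))) .nd)))))))))))) (.rp 40 (.str 60 (.nv (.dbl 12 38 44) (.rp 44 (.thr 54 57 (.dbl 38 6 12)) (.rp 38 (.thr 30 26 (.thr 29 31 (.thr 57 54 (.thr 45 15 (.thr 61 13 (.dbl 41 1 9)))))) (.rp 12 (.thr 30 26 (.thr 29 31 (.thr 57 54 (.thr 45 15 (.thr 13 61 (.thr 37 49 (.dbl 41 9 33))))))) (.rp 2 (.str 1 (.nv (.thr 41 61 (.dbl 57 9 54)) (.nv (.dbl 12 38 44) .nd))) (.rp 1 (.str 2 (.nv (.thr 50 34 (.thr 54 57 (.dbl 62 42 58))) (.nv (.dbl 12 38 44) (.rp 49 (.str 33 (.nv (.thr 50 34 (.thr 54 57 (.dbl 62 42 58))) (.nv (.dbl 12 38 44) .nd))) (.rp 33 (.str 49 (.nv (.dbl 12 38 44) (.nv (.dbl 50 34 48) .nd))) .nd))))) .nd))))))) (.rp 38 (.thr 26 30 (.thr 27 24 (.thr 31 16 (.thr 15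 39 (.thr 63 47 (.thr 59 55 (.thr 42 8 (.thr 58 10 (.dbl 48 37 53))))))))) (.rp 30 (.thr 12 38 (.thr 60 44 (.thr 57 54 (.thr 41 9 (.str 50 (.nv (.thr 2 34 (.thr 61 1 (.dbl 62 42 63))) (.nv (.thr 49 48 (.dbl 61 1 53)) (.rp 61 (.thr 48 49 (.thr 56 52 (.thr 26 11 (.dbl 24 27 36)))) (.rp 49 (.thr 2 34 (.thr 42 62 (.thr 59 8 (.thr 56 58 (.thr 43 40 (.dbl 11 26 27)))))) (.rp 2 (.thr 1 61 (.thr 48 49 (.thr 56 52 (.thr 26 11 (.dbl 24 27 36))))) (.rp 1 (.thr 2 34 (.thr 49 48 (.thr 53 61 (.dbl 37 5 13)))) .nd))))))))))) (.rp 26 (.thr 12 38 (.thr 60 44 (.thr 57 54 (.thr 41 9 (.str 50 (.nv (.thr 2 34 (.thr 61 1 (.dbl 62 42 63))) (.nv (.thr 49 48 (.dbl 61 1 53)) (.rp 61 (.thr 2 34 (.thr 42 62 (.thr 48 49 (.thr 56 52 (.dbl 59 8 58))))) (.rp 49 (.thr 2 34 (.thr 42 62 (.thr 59 8 (.thr 63 55 (.thr 29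 46 (.thr 30 31 (.thr 45 15 (.dbl 61 1 13)))))))) (.rp 2 (.thr 1 61 (.thr 48 49 (.thr 52 56 (.thr 37 7 (.thr 53 5 (.thr 45 33 (.thr 63 58 (.thr 29 46 (.dbl 30 15 31))))))))) (.rp 1 (.thr 2 34 (.thr 49 48 (.thr 53 61 (.dbl 37 5 13)))) .nd))))))))))) (.rp 12 (.thr 26 30 (.thr 27 24 (.thr 31 16 (.thr 15 39 (.thr 63 47 (.thr 59 55 (.thr 48 37 (.thr 58 53 (.dbl 42 8 10))))))))) (.rp 2 (.str 1 (.nv (.thr 12 38 (.thr 26 30 (.thr 24 27 (.thr 48 36 (.thr 37 15 (.dbl 49 13 50)))))) (.nv (.thr 12 38 (.thr 60 44 (.thr 41 61 (.dbl 57 9 54)))) (.rp 60 (.str 40 (.nv (.thr 41 61 (.thr 42 43 (.thr 8 59 (.thr 24 56 (.dbl 26 27 30))))) (.nv (.thr 12 38 (.thr 26 30 (.thr 24 27 (.thr 48 36 (.thr 49 50 (.dbl 37 13 15)))))) (.nv (.thr 41 61 (.thr 26 30 (.thr 56 11 (.dbl 24 8 27)))) (.rp 30 (.thr 41 61 (.thr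 9 57 (.thr 5 13 (.thr 38 12 (.thr 6 54 (.dbl 4 7 55)))))) (.rp 27 (.thr 41 61 (.thr 26 30 (.thr 56 11 (.thr 8 24 (.dbl 42 43 59))))) (.rp 26 (.thr 41 61 (.thr 9 57 (.thr 5 13 (.thr 38 12 (.thr 6 54 (.dbl 4 7 55)))))) (.rp 24 (.thr 41 61 (.thr 57 9 (.thr 26 30 (.thr 42 43 (.thr 58 10 (.dbl 56 11 59)))))) .nd)))))))) (.rp 40 (.str 60 (.nv (.thr 41 61 (.dbl 57 9 54)) (.nv (.dbl 12 38 44) .nd))) (.rp 38 (.thr 26 30 (.thr 27 24 (.thr 15 39 (.thr 37 48 (.thr 13 49 (.dbl 5 9 53)))))) (.rp 12 (.thr 30 26 (.thr 29 31 (.thr 61 41 (.thr 13 45 (.thr 37 49 (.dbl 5 9 53)))))) .nd))))))) (.rp 1 (.str 2 (.nv (.thr 26 30 (.thr 27 24 (.thr 15 39 (.thr 50 34 (.dbl 48 37 49))))) (.nv (.thr 42 62 (.thr 59 8 (.thr 55 63 (.dbl 38 4 12)))) (.nv (.thr 26 30 (.thr 50 34 (.dbl 38 12 14))) (.rp 60 (.str 40 (.nv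 (.thr 34 50 (.thr 38 12 (.dbl 42 46 62))) (.nv (.thr 42 62 (.thr 8 59 (.thr 24 56 (.dbl 26 27 30)))) (.nv (.thr 50 34 (.thr 26 30 (.dbl 38 12 14))) (.rp 49 (.str 33 (.nv (.thr 34 50 (.thr 38 12 (.dbl 42 46 62))) (.nv (.thr 42 62 (.thr 8 59 (.thr 24 56 (.dbl 26 27 30)))) (.nv (.thr 50 34 (.thr 26 30 (.dbl 38 12 14))) .nd)))) (.rp 33 (.str 49 (.nv (.dbl 50 34 48) (.rp 50 (.thr 37 13 (.thr 26 30 (.thr 27 24 (.dbl 15 39 48)))) (.rp 48 (.thr 50 34 (.thr 26 30 (.dbl 38 12 14))) (.rp 34 (.thr 37 13 (.thr 26 30 (.dbl 48 15 50))) .nd))))) .nd)))))) (.rp 49 (.str 33 (.nv (.thr 42 62 (.thr 59 8 (.thr 55 63 (.dbl 38 4 12)))) (.nv (.thr 26 30 (.thr 50 34 (.dbl 38 12 14))) (.rp 60 (.str 40 (.nv (.thr 34 50 (.thr 38 12 (.dbl 42 46 62))) (.nv (.thr 42 62 (.thr 8 59 (.thr 24 56 (.dbl 26 27 30)))) (.nv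 (.thr 50 34 (.thr 26 30 (.dbl 38 12 14))) .nd)))) (.rp 40 (.str 60 (.nv (.thr 50 34 (.thr 54 57 (.dbl 62 42 58))) (.nv (.dbl 12 38 44) .nd))) (.rp 38 (.thr 34 50 (.thr 32 35 (.thr 26 30 (.thr 27 24 (.thr 15 39 (.thr 37 48 (.dbl 42 47 62))))))) (.rp 12 (.thr 50 34 (.thr 26 30 (.thr 38 14 (.thr 62 42 (.dbl 54 6 58))))) .nd))))))) (.rp 40 (.str 60 (.nv (.thr 50 34 (.thr 54 57 (.dbl 62 42 58))) (.nv (.dbl 12 38 44) (.rp 49 (.str 33 (.nv (.thr 50 34 (.thr 54 57 (.dbl 62 42 58))) (.nv (.dbl 12 38 44) .nd))) (.rp 33 (.str 49 (.nv (.dbl 12 38 44) (.nv (.dbl 50 34 48) .nd))) .nd))))) (.rp 33 (.str 49 (.nv (.dbl 50 34 48) (.rp 60 (.str 40 (.nv (.dbl 50 34 48) (.rp 50 (.thr 37 13 (.thr 26 30 (.thr 27 24 (.dbl 15 39 48)))) (.rp 48 (.thr 50 34 (.thr 26 30 (.dbl 38 12 14))) (.rp 34 (.thr 37 13 (.thr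 26 30 (.dbl 48 15 50))) .nd))))) (.rp 50 (.thr 26 30 (.thr 27 24 (.thr 15 39 (.dbl 37 13 48)))) (.rp 48 (.thr 26 30 (.thr 50 34 (.dbl 38 12 14))) (.rp 40 (.str 60 (.nv (.dbl 12 38 44) (.nv (.dbl 50 34 48) .nd))) (.rp 34 (.thr 26 30 (.thr 50 48 (.dbl 38 12 14))) .nd))))))) .nd)))))))) .nd))))))))))))) (.rp 16 (.thr 29 17 (.thr 28 19 (.dbl 30 26 31))) (.rp 2 (.str 1 (.nv (.thr 17 29 (.dbl 19 16 28)) (.rp 60 (.str 40 (.nv (.thr 26 30 (.thr 24 27 (.thr 41 61 (.dbl 56 8 11)))) (.nv (.thr 17 29 (.dbl 19 16 28)) .nd))) (.rp 40 (.str 60 (.nv (.thr 29 17 (.thr 30 26 (.thr 45 15 (.dbl 61 13 41)))) (.nv (.thr 17 29 (.dbl 19 16 28)) (.rp 29 (.thr 19 28 (.thr 16 17 (.dbl 26 30 31))) (.rp 17 (.thr 28 19 (.thr 30 26 (.thr 29 31 (.thr 61 41 (.dbl 45 13 15))))) .nd))))) (.rp 29 (.thr 19 28 (.thr 16 17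 (.dbl 26 30 31))) (.rp 28 (.thr 17 29 (.thr 16 19 (.dbl 26 30 31))) (.rp 19 (.thr 17 29 (.thr 49 33 (.thr 13 37 (.thr 9 5 (.dbl 41 57 61))))) (.rp 17 (.thr 28 19 (.thr 30 26 (.thr 29 31 (.thr 61 41 (.thr 13 45 (.thr 5 9 (.dbl 37 49 53))))))) (.rp 16 (.thr 29 17 (.thr 28 19 (.dbl 30 26 31))) .nd))))))))) (.rp 1 (.str 2 (.nv (.thr 17 29 (.dbl 19 16 28)) (.rp 60 (.str 40 (.nv (.thr 26 30 (.thr 24 27 (.thr 8 56 (.dbl 42 59 62)))) (.nv (.thr 17 29 (.dbl 19 16 28)) .nd))) (.rp 40 (.str 60 (.nv (.thr 17 29 (.dbl 19 16 28)) (.rp 29 (.thr 19 28 (.thr 16 17 (.dbl 26 30 31))) (.rp 28 (.thr 17 29 (.thr 16 19 (.dbl 26 30 31))) (.rp 19 (.thr 26 30 (.thr 62 42 (.thr 50 34 (.thr 54 58 (.dbl 38 6 14))))) (.rp 17 (.thr 26 30 (.thr 42 62 (.thr 10 58 (.thr 14 6 (.dbl 50 34 38))))) (.rp 16 (.thr 30 26 (.thr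 28 19 (.dbl 29 17 31))) .nd))))))) (.rp 29 (.thr 19 28 (.thr 16 17 (.dbl 26 30 31))) (.rp 28 (.thr 17 29 (.thr 16 19 (.dbl 26 30 31))) (.rp 19 (.thr 26 30 (.thr 50 34 (.thr 14 38 (.thr 10 6 (.dbl 42 58 62))))) (.rp 17 (.thr 26 30 (.thr 42 62 (.thr 10 58 (.thr 14 6 (.dbl 50 34 38))))) (.rp 16 (.thr 30 26 (.thr 28 19 (.dbl 29 17 31))) .nd))))))))) .nd)))))))))))

theorem w7 : WinAt (39845888, 1048585) :=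
  chF (K := []) kn c7 39845888 1048585 20
    [15, 1152922604119523329] (by decide +kernel) (by decide +kernel)

/-- A certificate. -/
noncomputable def c8 : Ct := (.str 25 (.nv (.thr 20 23 (.thr 28 19 (.thr 16 24 (.thr 29 17 (.dbl 31 26 30))))) (.nv (.thr 23 20 (.thr 17 29 (.thr 19 28 (.thr 31 27 (.dbl 16 18 26))))) (.rp 31 (.str 52 (.nv (.thr 17 29 (.thr 37 7 (.thr 49 13 (.thr 1 33 (.thr 61 41 (.dbl 53 5 57)))))) (.nv (.thr 7 37 (.thr 23 20 (.thr 55 39 (.thr 54 53 (.dbl 38 4 6))))) (.rp 53 (.thr 20 23 (.thr 4 36 (.thr 38 55 (.thr 6 54 (.dbl 7 5 37))))) (.rp 37 (.str 12 (.nv (.thr 20 23 (.thr 36 4 (.thr 24 48 (.dbl 28 16 19)))) (.nv (.thr 38 51 (.thr 54 6 (.dbl 55 4 53))) (.nv (.thr 20 23 (.thr 4 36 (.dbl 38 51 55))) (.rp 19 (.thr 29 17 (.thr 51 38 (.thr 63 46 (.thr 55 59 (.thr 53 54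 (.thr 48 58 (.thr 36 24 (.dbl 20 4 23)))))))) (.rp 4 (.thr 28 19 (.thr 60 44 (.thr 48 56 (.thr 24 36 (.dbl 20 16 23))))) (.rp 2 (.str 1 (.nv (.thr 38 51 (.thr 54 6 (.dbl 55 4 53))) (.nv (.thr 28 19 (.thr 29 17 (.thr 60 44 (.thr 63 46 (.dbl 61 41 62))))) (.nv (.thr 20 23 (.thr 4 36 (.dbl 38 51 55))) (.rp 51 (.thr 20 23 (.thr 36 4 (.thr 24 48 (.dbl 28 16 19)))) (.rp 19 (.thr 41 61 (.thr 38 51 (.thr 35 44 (.thr 4 55 (.dbl 20 23 36))))) .nd)))))) (.rp 1 (.str 2 (.nv (.thr 20 23 (.thr 36 4 (.thr 24 48 (.dbl 28 16 19)))) (.nv (.thr 38 51 (.thr 54 6 (.dbl 55 4 53))) (.nv (.thr 29 17 (.thr 42 62 (.thr 46 63 (.dbl 38 34 51)))) (.nv (.thr 20 23 (.thr 4 36 (.dbl 38 51 55))) .nd))))) .nd)))))))) (.rp 7 (.thr 20 23 (.thr 17 29 (.thr 4 36 (.thr 55 38 (.thr 53 54 (.thr 37 5 (.thr 49 13 (.thr 61 57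 (.dbl 1 33 41))))))))) (.rp 2 (.str 1 (.nv (.thr 7 37 (.thr 20 23 (.thr 4 36 (.thr 38 55 (.dbl 6 5 54))))) (.nv (.thr 37 7 (.thr 5 53 (.dbl 13 9 49))) (.rp 37 (.thr 20 23 (.thr 4 36 (.thr 38 55 (.thr 6 54 (.thr 41 61 (.thr 9 57 (.dbl 5 7 13))))))) (.rp 7 (.thr 17 29 (.thr 49 33 (.thr 13 37 (.thr 9 5 (.dbl 41 57 61))))) (.rp 5 (.thr 17 29 (.thr 37 7 (.dbl 49 13 33))) .nd)))))) (.rp 1 (.str 2 (.nv (.thr 7 37 (.thr 20 23 (.thr 4 36 (.thr 38 55 (.dbl 6 5 54))))) (.nv (.thr 7 37 (.thr 23 20 (.thr 55 39 (.thr 54 53 (.dbl 38 4 6))))) (.rp 55 (.thr 20 23 (.thr 7 37 (.thr 4 36 (.thr 6 5 (.thr 38 54 (.thr 42 62 (.thr 34 46 (.thr 50 18 (.dbl 14 10 26))))))))) (.rp 54 (.thr 23 20 (.thr 7 37 (.thr 55 39 (.thr 42 62 (.thr 59 8 (.thr 51 63 (.dbl 38 4 12))))))) (.rp 38 (.thr 20 23 (.thr 17 29 (.thr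 37 7 (.thr 5 53 (.thr 13 49 (.thr 36 4 (.thr 42 62 (.thr 8 59 (.thr 32 47 (.thr 40 44 (.thr 24 56 (.dbl 28 16 19)))))))))))) (.rp 37 (.thr 20 23 (.thr 17 29 (.thr 4 36 (.thr 38 55 (.thr 42 62 (.thr 34 46 (.thr 18 50 (.dbl 19 16 28)))))))) (.rp 36 (.thr 23 20 (.thr 7 37 (.thr 55 39 (.thr 38 4 (.dbl 54 6 53))))) (.rp 23 (.thr 37 7 (.thr 53 5 (.thr 55 54 (.thr 42 62 (.thr 59 8 (.thr 63 51 (.thr 58 48 (.thr 57 56 (.dbl 49 13 61))))))))) (.rp 20 (.thr 37 7 (.thr 53 5 (.thr 55 54 (.thr 42 62 (.thr 59 8 (.thr 51 63 (.dbl 38 4 12))))))) (.rp 7 (.thr 20 23 (.thr 4 36 (.thr 55 38 (.thr 53 54 (.thr 37 5 (.thr 42 62 (.thr 59 8 (.thr 63 51 (.thr 58 48 (.thr 57 56 (.dbl 49 13 61))))))))))) (.rp 6 (.thr 20 23 (.thr 37 7 (.thr 53 5 (.thr 4 36 (.dbl 55 38 54))))) (.rp 4 (.thr 23 20 (.thr 17 29 (.thr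 7 37 (.thr 55 39 (.thr 54 53 (.thr 62 42 (.thr 50 58 (.thr 18 34 (.dbl 19 16 28))))))))) .nd))))))))))))) .nd)))))))) (.rp 29 (.str 16 (.nv (.thr 19 28 (.thr 18 17 (.dbl 26 30 31))) (.nv (.thr 20 23 (.dbl 28 19 24)) (.rp 28 (.str 38 (.nv (.thr 4 55 (.thr 12 51 (.thr 20 23 (.thr 36 52 (.thr 24 48 (.dbl 26 27 31)))))) (.nv (.thr 31 26 (.thr 23 20 (.thr 27 19 (.thr 51 12 (.thr 39 15 (.dbl 55 4 7)))))) (.nv (.thr 6 54 (.thr 26 31 (.thr 30 18 (.thr 14 50 (.thr 62 46 (.dbl 2 10 42)))))) (.nv (.thr 4 55 (.thr 6 54 (.thr 7 5 (.thr 52 37 (.dbl 20 23 36))))) (.rp 31 (.str 30 (.nv (.thr 26 18 (.thr 14 50 (.thr 62 46 (.thr 6 54 (.dbl 2 10 42))))) (.nv (.thr 12 51 (.thr 26 18 (.thr 14 50 (.thr 15 13 (.thr 48 37 (.dbl 24 27 36)))))) (.nv (.thr 4 55 (.thr 6 54 (.thr 7 5 (.thr 52 37 (.dbl 20 23 36)))))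 (.rp 2 (.str 1 (.nv (.thr 4 55 (.thr 12 51 (.thr 20 23 (.thr 26 18 (.thr 36 52 (.dbl 24 27 48)))))) (.nv (.thr 4 55 (.thr 6 54 (.thr 41 61 (.thr 9 57 (.dbl 5 7 13))))) (.nv (.thr 6 54 (.thr 4 55 (.thr 7 5 (.thr 52 37 (.dbl 20 23 36))))) (.rp 55 (.thr 18 26 (.thr 17 19 (.thr 49 33 (.thr 13 37 (.thr 9 5 (.dbl 41 57 61)))))) (.rp 54 (.thr 18 26 (.thr 17 19 (.thr 49 33 (.thr 13 37 (.thr 9 5 (.dbl 41 57 61)))))) (.rp 53 (.thr 20 23 (.thr 4 55 (.thr 6 54 (.thr 52 36 (.dbl 7 5 37))))) (.rp 52 (.str 15 (.nv (.thr 51 12 (.thr 60 45 (.dbl 54 6 57))) (.nv (.thr 26 18 (.thr 27 24 (.dbl 51 12 39))) (.rp 51 (.thr 26 18 (.thr 41 61 (.thr 45 60 (.dbl 37 33 48)))) (.rp 12 (.thr 26 18 (.thr 27 24 (.thr 39 51 (.dbl 37 36 48)))) .nd))))) (.rp 7 (.str 15 (.nv (.thr 51 12 (.thr 60 45 (.dbl 54 6 57))) (.nv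 (.thr 26 18 (.thr 27 24 (.dbl 51 12 39))) (.rp 51 (.thr 26 18 (.thr 41 61 (.thr 45 60 (.dbl 37 33 48)))) (.rp 12 (.thr 26 18 (.thr 27 24 (.thr 39 51 (.dbl 37 36 48)))) .nd))))) (.rp 4 (.thr 18 26 (.thr 17 19 (.thr 49 33 (.thr 13 37 (.thr 9 5 (.dbl 41 57 61)))))) .nd)))))))))) (.rp 1 (.str 2 (.nv (.thr 4 55 (.thr 6 54 (.thr 7 5 (.thr 20 23 (.dbl 52 36 37))))) (.nv (.thr 18 26 (.thr 34 50 (.dbl 42 46 62))) .nd))) .nd)))))) (.rp 2 (.str 1 (.nv (.thr 4 55 (.thr 12 51 (.thr 20 23 (.thr 36 52 (.thr 24 48 (.dbl 26 27 31)))))) (.nv (.thr 4 55 (.thr 6 54 (.thr 41 61 (.thr 9 57 (.dbl 5 7 13))))) (.nv (.thr 4 55 (.thr 6 54 (.thr 7 5 (.thr 52 37 (.dbl 20 23 36))))) (.rp 55 (.thr 51 12 (.thr 26 31 (.thr 30 18 (.thr 27 24 (.thr 50 14 (.thr 48 49 (.dbl 15 37 39))))))) (.rp 54 (.thr 23 20 (.thr 55 4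 (.thr 39 7 (.thr 31 26 (.thr 27 19 (.dbl 51 12 15)))))) (.rp 53 (.thr 20 23 (.thr 6 54 (.thr 4 55 (.thr 52 36 (.dbl 7 5 37))))) (.rp 52 (.thr 23 20 (.thr 51 12 (.thr 31 26 (.thr 27 19 (.thr 39 15 (.dbl 55 4 7)))))) (.rp 31 (.str 30 (.nv (.thr 4 55 (.thr 12 51 (.thr 20 23 (.thr 26 18 (.thr 36 52 (.dbl 24 27 48)))))) (.nv (.thr 4 55 (.thr 6 54 (.thr 41 61 (.thr 9 57 (.dbl 5 7 13))))) (.nv (.thr 6 54 (.thr 4 55 (.thr 7 5 (.thr 52 37 (.dbl 20 23 36))))) (.rp 55 (.thr 18 26 (.thr 17 19 (.thr 49 33 (.thr 13 37 (.thr 9 5 (.dbl 41 57 61)))))) (.rp 54 (.thr 18 26 (.thr 17 19 (.thr 49 33 (.thr 13 37 (.thr 9 5 (.dbl 41 57 61)))))) (.rp 53 (.thr 20 23 (.thr 4 55 (.thr 6 54 (.thr 52 36 (.dbl 7 5 37))))) (.rp 52 (.str 15 (.nv (.thr 51 12 (.thr 60 45 (.dbl 54 6 57))) (.nv (.thr 26 18 (.thr 27 24 (.dbl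 51 12 39))) (.rp 51 (.thr 26 18 (.thr 41 61 (.thr 45 60 (.dbl 37 33 48)))) (.rp 12 (.thr 26 18 (.thr 27 24 (.thr 39 51 (.dbl 37 36 48)))) .nd))))) (.rp 7 (.str 15 (.nv (.thr 51 12 (.thr 60 45 (.dbl 54 6 57))) (.nv (.thr 26 18 (.thr 27 24 (.dbl 51 12 39))) (.rp 51 (.thr 26 18 (.thr 41 61 (.thr 45 60 (.dbl 37 33 48)))) (.rp 12 (.thr 26 18 (.thr 27 24 (.thr 39 51 (.dbl 37 36 48)))) .nd))))) (.rp 4 (.thr 18 26 (.thr 17 19 (.thr 49 33 (.thr 13 37 (.thr 9 5 (.dbl 41 57 61)))))) .nd)))))))))) (.rp 30 (.thr 31 26 (.thr 20 23 (.thr 6 54 (.thr 4 55 (.thr 7 5 (.dbl 52 36 37)))))) (.rp 7 (.thr 23 20 (.thr 51 12 (.thr 31 26 (.thr 27 19 (.thr 15 39 (.thr 63 47 (.dbl 55 4 59))))))) (.rp 4 (.thr 12 51 (.thr 26 31 (.thr 30 18 (.thr 24 27 (.thr 48 36 (.thr 15 37 (.dbl 14 13 50))))))) .nd)))))))))))) (.rp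 1 (.str 2 (.nv (.thr 26 31 (.thr 30 18 (.thr 14 50 (.dbl 62 42 46)))) (.nv (.thr 23 20 (.thr 54 6 (.thr 55 4 (.thr 7 39 (.dbl 52 37 53))))) (.nv (.thr 6 54 (.thr 14 10 (.dbl 26 31 50))) (.rp 31 (.str 30 (.nv (.thr 4 55 (.thr 6 54 (.thr 7 5 (.thr 20 23 (.dbl 52 36 37))))) (.nv (.thr 18 26 (.thr 34 50 (.dbl 42 46 62))) .nd))) (.rp 30 (.thr 31 26 (.thr 20 23 (.thr 6 54 (.thr 4 55 (.thr 7 5 (.dbl 52 36 37)))))) .nd)))))) .nd)))))))) (.rp 19 (.thr 20 23 (.thr 24 28 (.dbl 26 27 31))) (.rp 2 (.str 1 (.nv (.thr 19 28 (.thr 18 17 (.dbl 26 30 31))) (.nv (.thr 20 23 (.dbl 28 19 24)) (.rp 28 (.thr 41 61 (.thr 9 57 (.thr 13 5 (.thr 49 37 (.thr 17 33 (.thr 18 19 (.dbl 26 30 31))))))) (.rp 19 (.thr 20 23 (.thr 24 28 (.dbl 26 27 31))) .nd))))) (.rp 1 (.str 2 (.nv (.thr 19 28 (.thr 18 17 (.dbl 26 30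 31))) (.nv (.thr 20 23 (.dbl 28 19 24)) (.rp 28 (.thr 26 31 (.thr 30 18 (.thr 62 42 (.thr 14 46 (.thr 6 10 (.dbl 38 50 54)))))) (.rp 19 (.thr 20 23 (.thr 24 28 (.dbl 26 27 31))) .nd))))) .nd))))))) (.rp 28 (.str 7 (.nv (.thr 17 29 (.thr 37 52 (.thr 49 13 (.thr 1 33 (.thr 53 5 (.dbl 61 41 57)))))) (.nv (.thr 20 23 (.thr 52 37 (.thr 4 36 (.thr 38 55 (.dbl 6 5 54))))) (.rp 52 (.thr 23 20 (.thr 29 17 (.thr 55 39 (.thr 4 38 (.thr 5 6 (.thr 37 53 (.thr 13 49 (.thr 61 45 (.dbl 1 9 41))))))))) (.rp 37 (.str 51 (.nv (.thr 12 38 (.thr 29 17 (.thr 63 46 (.thr 55 59 (.dbl 23 20 39))))) (.nv (.thr 23 20 (.thr 39 55 (.thr 27 15 (.thr 31 19 (.dbl 26 16 24))))) (.nv (.thr 38 12 (.thr 4 55 (.dbl 6 5 54))) (.rp 55 (.str 27 (.nv (.thr 23 20 (.thr 31 19 (.dbl 26 16 24))) (.rp 60 (.thr 20 23 (.thr 29 17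 (.thr 26 24 (.thr 31 16 (.thr 15 39 (.thr 63 47 (.dbl 12 38 46))))))) (.rp 40 (.thr 26 24 (.thr 30 18 (.thr 15 39 (.thr 38 12 (.thr 60 45 (.dbl 54 6 57)))))) (.rp 31 (.thr 26 24 (.thr 30 18 (.thr 15 39 (.thr 38 12 (.thr 60 45 (.dbl 54 6 57)))))) (.rp 26 (.thr 23 20 (.thr 29 17 (.thr 31 19 (.thr 15 39 (.thr 63 47 (.dbl 12 38 46)))))) (.rp 24 (.str 31 (.nv (.dbl 23 19 20) (.rp 23 (.thr 29 17 (.thr 15 39 (.thr 63 47 (.dbl 12 38 46)))) (.rp 20 (.thr 16 26 (.thr 17 29 (.dbl 19 18 23))) (.rp 19 (.thr 29 17 (.thr 15 39 (.thr 63 47 (.dbl 12 38 46)))) (.rp 16 (.thr 20 23 (.thr 29 17 (.thr 15 39 (.thr 63 47 (.dbl 12 38 46))))) (.rp 2 (.str 1 (.nv (.dbl 23 19 20) (.rp 23 (.thr 29 17 (.thr 15 39 (.thr 63 47 (.dbl 12 38 46)))) (.rp 20 (.thr 16 26 (.thr 17 29 (.dbl 19 18 23))) (.rp 19 (.thr 29 17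 (.thr 15 39 (.thr 63 47 (.dbl 12 38 46)))) (.rp 16 (.thr 20 23 (.thr 29 17 (.thr 15 39 (.thr 63 47 (.dbl 12 38 46))))) .nd)))))) (.rp 1 (.str 2 (.nv (.dbl 23 19 20) (.rp 23 (.thr 29 17 (.thr 12 38 (.thr 63 46 (.dbl 15 39 47)))) (.rp 20 (.thr 16 26 (.thr 19 23 (.dbl 17 18 29))) (.rp 19 (.thr 29 17 (.thr 12 38 (.thr 63 46 (.dbl 15 39 47)))) (.rp 16 (.thr 20 23 (.thr 29 17 (.thr 12 38 (.thr 63 46 (.dbl 15 39 47))))) .nd)))))) .nd)))))))) (.rp 23 (.thr 26 24 (.thr 30 18 (.thr 15 39 (.thr 38 12 (.thr 60 45 (.dbl 54 6 57)))))) (.rp 20 (.thr 26 24 (.thr 16 31 (.thr 30 18 (.thr 15 39 (.thr 38 12 (.thr 60 45 (.dbl 54 6 57))))))) (.rp 19 (.thr 26 24 (.thr 30 18 (.thr 15 39 (.thr 38 12 (.thr 60 45 (.dbl 54 6 57)))))) (.rp 16 (.thr 20 23 (.thr 26 24 (.thr 30 18 (.thr 15 39 (.thr 38 12 (.thr 60 45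 (.dbl 54 6 57))))))) (.rp 2 (.str 1 (.nv (.thr 12 38 (.thr 41 61 (.thr 9 57 (.thr 13 5 (.dbl 15 14 39))))) (.nv (.thr 23 20 (.thr 31 19 (.dbl 26 16 24))) .nd))) (.rp 1 (.str 2 (.nv (.thr 38 12 (.thr 6 54 (.thr 14 10 (.dbl 26 24 50)))) (.nv (.thr 23 20 (.thr 31 19 (.dbl 26 16 24))) (.rp 60 (.thr 26 24 (.thr 18 30 (.thr 50 34 (.dbl 38 12 14)))) (.rp 26 (.thr 23 20 (.thr 31 19 (.thr 29 17 (.thr 12 38 (.thr 63 46 (.dbl 15 39 47)))))) (.rp 24 (.thr 29 17 (.thr 12 38 (.thr 46 63 (.thr 62 42 (.thr 14 30 (.dbl 15 13 39)))))) .nd)))))) .nd))))))))))))) (.rp 2 (.str 1 (.nv (.thr 41 61 (.thr 57 9 (.thr 54 60 (.dbl 38 6 12)))) (.nv (.thr 23 20 (.thr 39 55 (.thr 27 15 (.thr 31 19 (.dbl 26 16 24))))) (.nv (.thr 38 12 (.thr 4 55 (.dbl 6 5 54))) (.rp 60 (.thr 29 17 (.thr 12 38 (.thr 63 46 (.thr 55 59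 (.dbl 23 20 39))))) .nd))))) (.rp 1 (.str 2 (.nv (.thr 23 20 (.thr 42 62 (.thr 55 39 (.dbl 59 8 63)))) (.nv (.thr 38 12 (.thr 4 55 (.dbl 6 5 54))) (.rp 60 (.thr 29 17 (.thr 12 38 (.thr 63 46 (.thr 55 59 (.dbl 23 20 39))))) (.rp 55 (.thr 38 12 (.thr 6 54 (.thr 14 10 (.thr 26 50 (.thr 30 18 (.dbl 62 42 46)))))) (.rp 38 (.thr 23 20 (.thr 42 62 (.thr 59 8 (.dbl 55 39 63)))) .nd)))))) .nd))))))) (.rp 5 (.thr 23 20 (.thr 55 39 (.thr 38 4 (.thr 54 6 (.dbl 52 37 53))))) (.rp 2 (.str 1 (.nv (.thr 17 29 (.thr 33 49 (.thr 37 52 (.dbl 41 45 61)))) (.nv (.thr 37 52 (.thr 13 49 (.dbl 5 9 53))) (.rp 52 (.thr 17 29 (.thr 49 33 (.thr 13 37 (.thr 9 5 (.dbl 41 57 61))))) (.rp 49 (.thr 37 52 (.thr 5 53 (.thr 9 13 (.dbl 41 57 61)))) (.rp 37 (.thr 23 20 (.thr 55 39 (.thr 41 61 (.thr 9 57 (.thr 5 13 (.dbl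 4 6 38)))))) .nd)))))) (.rp 1 (.str 2 (.nv (.thr 23 20 (.thr 42 62 (.thr 55 39 (.thr 59 8 (.thr 51 63 (.dbl 38 4 12)))))) (.nv (.thr 20 23 (.thr 52 37 (.thr 4 36 (.thr 38 55 (.dbl 6 5 54))))) (.rp 63 (.thr 23 20 (.thr 55 39 (.thr 4 38 (.thr 5 6 (.dbl 37 52 53))))) (.rp 55 (.thr 20 23 (.thr 52 37 (.thr 4 36 (.thr 6 5 (.thr 38 54 (.thr 42 62 (.thr 34 46 (.thr 50 18 (.dbl 14 10 26))))))))) (.rp 38 (.thr 29 17 (.thr 37 52 (.thr 5 53 (.thr 6 4 (.thr 14 10 (.thr 62 42 (.thr 46 30 (.thr 12 63 (.dbl 13 15 49))))))))) (.rp 23 (.thr 37 52 (.thr 5 53 (.thr 6 4 (.thr 14 10 (.thr 13 49 (.thr 12 15 (.dbl 38 51 54))))))) (.rp 20 (.thr 37 52 (.thr 5 53 (.thr 4 6 (.thr 55 38 (.thr 39 23 (.thr 42 62 (.thr 59 8 (.thr 47 32 (.thr 51 63 (.thr 43 35 (.dbl 27 11 15))))))))))) (.rp 4 (.thr 23 20 (.thr 55 39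 (.thr 52 37 (.thr 54 53 (.thr 38 6 (.thr 62 42 (.thr 50 58 (.thr 26 14 (.dbl 18 30 34))))))))) .nd))))))))) .nd)))))))) (.rp 27 (.thr 20 23 (.thr 29 17 (.thr 28 19 (.thr 31 30 (.dbl 16 24 26))))) (.rp 26 (.thr 19 28 (.str 37 (.nv (.thr 20 23 (.thr 52 7 (.thr 4 36 (.thr 53 5 (.dbl 55 38 54))))) (.nv (.thr 5 53 (.thr 29 17 (.thr 13 49 (.thr 61 45 (.dbl 1 9 41))))) (.rp 53 (.thr 23 20 (.thr 7 52 (.thr 55 39 (.thr 4 38 (.thr 5 6 (.thr 13 49 (.thr 29 17 (.thr 61 45 (.dbl 1 9 41))))))))) (.rp 5 (.thr 20 23 (.thr 52 7 (.thr 4 36 (.thr 55 38 (.thr 53 54 (.thr 49 13 (.thr 17 29 (.thr 1 33 (.dbl 61 41 57))))))))) (.rp 2 (.str 1 (.nv (.thr 17 29 (.thr 33 49 (.dbl 41 45 61))) (.nv (.thr 5 53 (.dbl 13 9 49)) (.rp 49 (.thr 5 53 (.thr 9 13 (.dbl 41 57 61))) .nd)))) (.rp 1 (.str 2 (.nv (.thr 5 53 (.thr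 7 52 (.thr 6 4 (.thr 13 49 (.thr 14 10 (.thr 12 15 (.dbl 38 51 54))))))) (.nv (.thr 5 53 (.thr 23 20 (.thr 7 52 (.thr 55 39 (.dbl 4 6 38))))) (.nv (.thr 5 53 (.thr 7 52 (.thr 4 6 (.thr 55 38 (.dbl 23 20 39))))) (.rp 55 (.thr 20 23 (.thr 7 52 (.thr 53 5 (.thr 13 49 (.thr 17 29 (.thr 18 16 (.thr 34 50 (.thr 42 62 (.thr 8 59 (.thr 38 46 (.thr 36 39 (.thr 54 6 (.thr 32 47 (.thr 35 33 (.dbl 44 40 41))))))))))))))) (.rp 53 (.thr 23 20 (.thr 7 52 (.thr 55 39 (.thr 42 62 (.thr 59 8 (.thr 51 63 (.dbl 38 4 12))))))) (.rp 52 (.thr 53 5 (.thr 17 29 (.thr 18 16 (.thr 50 34 (.thr 62 42 (.thr 58 54 (.thr 48 63 (.dbl 49 13 51)))))))) (.rp 38 (.thr 17 29 (.thr 18 16 (.thr 50 34 (.thr 52 7 (.thr 53 5 (.thr 54 55 (.dbl 62 42 58))))))) (.rp 20 (.thr 52 7 (.thr 53 5 (.thr 55 54 (.thr 42 62 (.thr 59 8 (.thr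 51 63 (.dbl 38 4 12))))))) (.rp 7 (.thr 53 5 (.thr 17 29 (.thr 18 16 (.thr 50 34 (.thr 62 42 (.thr 58 54 (.thr 48 63 (.dbl 49 13 51)))))))) (.rp 6 (.thr 20 23 (.thr 52 7 (.thr 4 36 (.thr 53 5 (.dbl 55 38 54))))) (.rp 5 (.thr 23 20 (.thr 7 52 (.thr 55 39 (.thr 42 62 (.thr 59 8 (.thr 51 63 (.dbl 38 4 12))))))) (.rp 4 (.thr 20 23 (.thr 7 52 (.thr 5 53 (.thr 49 13 (.thr 17 29 (.thr 18 16 (.thr 34 50 (.thr 42 62 (.thr 8 59 (.thr 38 46 (.thr 36 39 (.thr 54 6 (.thr 12 51 (.thr 48 24 (.thr 32 47 (.thr 35 33 (.dbl 44 40 41))))))))))))))))) .nd))))))))))))) .nd)))))))) (.rp 24 (.thr 23 20 (.thr 17 29 (.thr 19 28 (.thr 16 18 (.dbl 31 26 27))))) (.rp 23 (.str 18 (.nv (.thr 17 29 (.dbl 19 16 28)) (.rp 63 (.str 43 (.nv (.thr 19 28 (.dbl 17 16 29)) (.rp 29 (.thr 19 28 (.thr 16 17 (.dbl 26 30 31)))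 (.rp 28 (.thr 17 29 (.thr 16 19 (.dbl 26 30 31))) (.rp 19 (.thr 26 30 (.thr 27 24 (.thr 59 11 (.thr 42 8 (.thr 2 62 (.thr 50 34 (.thr 10 58 (.dbl 14 6 38)))))))) (.rp 17 (.thr 26 30 (.thr 27 24 (.thr 59 11 (.thr 42 8 (.thr 2 62 (.thr 10 58 (.thr 14 6 (.dbl 50 34 38)))))))) (.rp 16 (.thr 29 17 (.thr 30 26 (.dbl 28 19 31))) (.rp 2 (.str 1 (.nv (.thr 26 30 (.thr 27 24 (.thr 11 59 (.dbl 41 56 61)))) (.nv (.thr 19 28 (.dbl 17 16 29)) .nd))) (.rp 1 (.str 2 (.nv (.thr 26 30 (.thr 27 24 (.thr 42 62 (.dbl 59 8 11)))) (.nv (.thr 19 28 (.dbl 17 16 29)) .nd))) .nd))))))))) (.rp 43 (.str 63 (.nv (.thr 17 29 (.dbl 19 16 28)) (.rp 29 (.thr 19 28 (.thr 16 17 (.dbl 26 30 31))) (.rp 28 (.thr 17 29 (.thr 16 19 (.dbl 26 30 31))) (.rp 19 (.thr 29 17 (.thr 30 26 (.thr 31 28 (.thr 15 47 (.thr 60 45 (.thr 62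 61 (.dbl 46 12 14))))))) (.rp 17 (.thr 26 30 (.thr 31 16 (.thr 24 27 (.thr 15 47 (.thr 48 37 (.thr 12 36 (.thr 14 13 (.dbl 38 50 51)))))))) (.rp 16 (.thr 29 17 (.thr 28 19 (.dbl 30 26 31))) (.rp 2 (.str 1 (.nv (.thr 17 29 (.dbl 19 16 28)) (.rp 29 (.thr 19 28 (.thr 16 17 (.dbl 26 30 31))) (.rp 28 (.thr 17 29 (.thr 16 19 (.dbl 26 30 31))) (.rp 19 (.thr 17 29 (.thr 61 41 (.thr 49 33 (.thr 53 57 (.dbl 37 5 13))))) (.rp 17 (.thr 28 19 (.thr 30 26 (.thr 31 29 (.thr 61 41 (.thr 60 62 (.dbl 15 45 47)))))) (.rp 16 (.thr 29 17 (.thr 28 19 (.dbl 30 26 31))) .nd))))))) (.rp 1 (.str 2 (.nv (.thr 29 17 (.thr 30 26 (.thr 46 12 (.dbl 62 14 42)))) (.nv (.thr 19 28 (.dbl 17 16 29)) (.rp 29 (.thr 19 28 (.thr 16 17 (.dbl 26 30 31))) (.rp 17 (.thr 26 30 (.thr 42 62 (.thr 10 58 (.thr 14 6 (.dbl 50 34 38)))))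 .nd))))) .nd))))))))) (.rp 29 (.thr 19 28 (.thr 16 17 (.dbl 26 30 31))) (.rp 28 (.thr 17 29 (.thr 16 19 (.dbl 26 30 31))) (.rp 19 (.thr 26 30 (.thr 27 24 (.str 51 (.nv (.thr 12 38 (.thr 29 17 (.thr 31 16 (.thr 63 46 (.dbl 15 39 47))))) (.nv (.thr 15 39 (.thr 48 37 (.thr 50 49 (.dbl 38 12 14)))) (.rp 63 (.str 43 (.nv (.thr 11 59 (.thr 41 56 (.thr 57 9 (.thr 54 60 (.dbl 38 6 12))))) (.nv (.thr 15 39 (.thr 48 37 (.thr 50 49 (.dbl 38 12 14)))) (.rp 48 (.thr 59 11 (.thr 42 8 (.thr 2 62 (.thr 50 34 (.dbl 38 12 14))))) (.rp 38 (.thr 59 11 (.thr 15 39 (.thr 42 8 (.thr 2 62 (.thr 50 34 (.dbl 48 37 49)))))) (.rp 15 (.thr 17 29 (.thr 11 59 (.thr 41 56 (.thr 1 61 (.thr 49 33 (.thr 50 48 (.dbl 38 12 14))))))) (.rp 12 (.thr 59 11 (.thr 15 39 (.thr 48 37 (.thr 50 49 (.thr 2 34 (.dbl 42 8 62)))))) (.rp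 2 (.str 1 (.nv (.thr 12 38 (.thr 15 39 (.thr 13 14 (.dbl 37 48 49)))) (.nv (.thr 11 59 (.dbl 41 56 61)) .nd))) (.rp 1 (.str 2 (.nv (.thr 59 11 (.dbl 42 8 62)) (.nv (.thr 50 34 (.dbl 38 12 14)) .nd))) .nd))))))))) (.rp 48 (.thr 29 17 (.thr 15 39 (.thr 12 38 (.thr 63 46 (.dbl 31 16 47))))) (.rp 43 (.str 63 (.nv (.thr 15 39 (.dbl 31 16 47)) (.nv (.thr 29 17 (.dbl 12 38 46)) (.rp 2 (.str 1 (.nv (.thr 15 39 (.dbl 31 16 47)) (.nv (.thr 29 17 (.dbl 12 38 46)) .nd))) (.rp 1 (.str 2 (.nv (.thr 15 39 (.dbl 31 16 47)) (.nv (.thr 50 34 (.dbl 38 12 14)) .nd))) .nd))))) (.rp 39 (.thr 38 12 (.thr 50 14 (.thr 2 34 (.thr 62 42 (.dbl 54 6 58))))) (.rp 38 (.thr 17 29 (.thr 15 39 (.thr 37 48 (.thr 49 13 (.thr 1 33 (.thr 61 41 (.dbl 53 5 57))))))) (.rp 15 (.thr 29 17 (.thr 12 38 (.thr 63 46 (.thr 59 55 (.thr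 11 43 (.thr 56 41 (.thr 58 57 (.dbl 42 8 10)))))))) (.rp 14 (.thr 29 17 (.thr 31 16 (.thr 15 39 (.thr 63 47 (.dbl 12 38 46))))) (.rp 12 (.thr 31 16 (.thr 15 39 (.thr 63 47 (.thr 55 59 (.thr 48 37 (.thr 50 49 (.dbl 38 4 14))))))) (.rp 2 (.str 1 (.nv (.thr 41 61 (.thr 57 9 (.thr 54 60 (.dbl 38 6 12)))) (.nv (.thr 17 29 (.thr 49 33 (.thr 48 50 (.dbl 37 13 15)))) (.rp 63 (.str 43 (.nv (.thr 12 38 (.thr 15 39 (.thr 13 14 (.dbl 37 48 49)))) (.nv (.thr 11 59 (.dbl 41 56 61)) .nd))) (.rp 43 (.str 63 (.nv (.thr 15 39 (.dbl 31 16 47)) (.nv (.thr 29 17 (.dbl 12 38 46)) .nd))) (.rp 15 (.thr 17 29 (.thr 49 33 (.thr 50 48 (.dbl 38 12 14)))) .nd)))))) (.rp 1 (.str 2 (.nv (.thr 12 38 (.thr 15 39 (.thr 13 14 (.dbl 37 48 49)))) (.nv (.thr 15 39 (.thr 50 34 (.dbl 48 37 49))) (.nv (.thr 50 34 (.dbl 38 12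 14)) (.rp 63 (.str 43 (.nv (.thr 59 11 (.dbl 42 8 62)) (.nv (.thr 50 34 (.dbl 38 12 14)) .nd))) (.rp 43 (.str 63 (.nv (.thr 15 39 (.dbl 31 16 47)) (.nv (.thr 50 34 (.dbl 38 12 14)) .nd))) .nd)))))) .nd))))))))))))))) (.rp 17 (.thr 26 30 (.thr 27 24 (.thr 28 19 (.str 51 (.nv (.thr 38 12 (.thr 50 14 (.thr 2 34 (.thr 62 42 (.dbl 54 6 58))))) (.nv (.thr 15 39 (.thr 31 16 (.thr 63 47 (.thr 55 59 (.dbl 38 4 12))))) (.nv (.thr 15 39 (.thr 48 37 (.thr 50 49 (.dbl 38 12 14)))) (.rp 63 (.str 43 (.nv (.thr 15 39 (.thr 48 37 (.thr 50 49 (.dbl 38 12 14)))) (.nv (.thr 11 59 (.thr 12 38 (.thr 60 44 (.thr 57 54 (.dbl 41 9 56))))) (.rp 38 (.thr 59 11 (.thr 15 39 (.thr 42 8 (.thr 2 62 (.thr 50 34 (.dbl 48 37 49)))))) (.rp 12 (.thr 59 11 (.thr 15 39 (.thr 48 37 (.thr 50 49 (.thr 2 34 (.dbl 42 8 62))))))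 (.rp 2 (.str 1 (.nv (.thr 12 38 (.thr 15 39 (.thr 13 14 (.dbl 37 48 49)))) (.nv (.thr 11 59 (.dbl 41 56 61)) .nd))) (.rp 1 (.str 2 (.nv (.thr 59 11 (.dbl 42 8 62)) (.nv (.thr 50 34 (.dbl 38 12 14)) (.rp 49 (.str 33 (.nv (.thr 59 11 (.dbl 42 8 62)) (.nv (.thr 50 34 (.dbl 38 12 14)) .nd))) (.rp 33 (.str 49 (.nv (.thr 42 62 (.dbl 59 8 11)) (.nv (.dbl 50 34 48) .nd))) .nd))))) .nd))))))) (.rp 48 (.thr 15 39 (.thr 12 38 (.thr 13 14 (.thr 60 44 (.thr 57 54 (.thr 37 49 (.thr 5 53 (.dbl 9 1 41)))))))) (.rp 43 (.str 63 (.nv (.thr 31 16 (.dbl 15 39 47)) (.nv (.thr 55 59 (.dbl 38 4 12)) (.rp 2 (.str 1 (.nv (.thr 31 16 (.dbl 15 39 47)) (.nv (.thr 55 59 (.dbl 38 4 12)) .nd))) (.rp 1 (.str 2 (.nv (.thr 31 16 (.dbl 15 39 47)) (.nv (.thr 50 34 (.dbl 38 12 14)) (.rp 49 (.str 33 (.nv (.thr 31 16 (.dbl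 15 39 47)) (.nv (.thr 50 34 (.dbl 38 12 14)) .nd))) (.rp 33 (.str 49 (.nv (.thr 15 39 (.dbl 31 16 47)) (.nv (.dbl 50 34 48) .nd))) .nd))))) .nd))))) (.rp 38 (.thr 15 39 (.thr 37 48 (.thr 49 13 (.thr 53 5 (.thr 57 61 (.thr 54 60 (.dbl 52 7 55))))))) (.rp 15 (.thr 12 38 (.thr 60 44 (.thr 57 54 (.thr 41 9 (.thr 11 56 (.thr 59 43 (.thr 63 55 (.dbl 61 1 62)))))))) (.rp 12 (.thr 31 16 (.thr 15 39 (.thr 63 47 (.thr 55 59 (.thr 48 37 (.thr 50 49 (.dbl 38 4 14))))))) (.rp 2 (.str 1 (.nv (.thr 15 39 (.thr 41 61 (.thr 9 57 (.thr 5 13 (.dbl 37 48 53))))) (.nv (.thr 12 38 (.thr 15 39 (.thr 13 14 (.dbl 37 48 49)))) (.nv (.thr 12 38 (.thr 41 61 (.thr 57 9 (.dbl 60 44 54)))) (.rp 63 (.str 43 (.nv (.thr 12 38 (.thr 15 39 (.thr 13 14 (.dbl 37 48 49)))) (.nv (.thr 11 59 (.dbl 41 56 61)) .nd))) (.rp 43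 (.str 63 (.nv (.thr 31 16 (.dbl 15 39 47)) (.nv (.thr 55 59 (.dbl 38 4 12)) .nd))) .nd)))))) (.rp 1 (.str 2 (.nv (.thr 12 38 (.thr 15 39 (.thr 13 14 (.dbl 37 48 49)))) (.nv (.thr 15 39 (.thr 50 34 (.dbl 48 37 49))) (.nv (.thr 50 34 (.dbl 38 12 14)) (.rp 63 (.str 43 (.nv (.thr 59 11 (.dbl 42 8 62)) (.nv (.thr 50 34 (.dbl 38 12 14)) (.rp 49 (.str 33 (.nv (.thr 59 11 (.dbl 42 8 62)) (.nv (.thr 50 34 (.dbl 38 12 14)) .nd))) (.rp 33 (.str 49 (.nv (.thr 42 62 (.dbl 59 8 11)) (.nv (.dbl 50 34 48) .nd))) .nd))))) (.rp 49 (.str 33 (.nv (.thr 38 12 (.thr 6 54 (.thr 10 14 (.dbl 42 58 62)))) (.nv (.thr 50 34 (.dbl 38 12 14)) (.rp 63 (.str 43 (.nv (.thr 59 11 (.dbl 42 8 62)) (.nv (.thr 50 34 (.dbl 38 12 14)) .nd))) (.rp 43 (.str 63 (.nv (.thr 31 16 (.dbl 15 39 47)) (.nv (.thr 50 34 (.dbl 38 12 14))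 .nd))) (.rp 38 (.thr 31 16 (.thr 15 39 (.thr 63 47 (.thr 42 62 (.dbl 59 8 55))))) (.rp 14 (.thr 38 12 (.thr 34 50 (.dbl 42 46 62))) (.rp 12 (.thr 50 34 (.thr 14 38 (.thr 42 62 (.dbl 10 6 58)))) .nd)))))))) (.rp 43 (.str 63 (.nv (.thr 31 16 (.dbl 15 39 47)) (.nv (.thr 50 34 (.dbl 38 12 14)) (.rp 49 (.str 33 (.nv (.thr 31 16 (.dbl 15 39 47)) (.nv (.thr 50 34 (.dbl 38 12 14)) .nd))) (.rp 33 (.str 49 (.nv (.thr 15 39 (.dbl 31 16 47)) (.nv (.dbl 50 34 48) .nd))) .nd))))) (.rp 33 (.str 49 (.nv (.thr 12 38 (.thr 13 37 (.dbl 15 14 39))) (.nv (.dbl 50 34 48) (.rp 63 (.str 43 (.nv (.thr 42 62 (.dbl 59 8 11)) (.nv (.dbl 50 34 48) .nd))) (.rp 43 (.str 63 (.nv (.thr 15 39 (.dbl 31 16 47)) (.nv (.dbl 50 34 48) .nd))) .nd))))) .nd)))))))) .nd))))))))))))))) (.rp 16 (.thr 29 17 (.thr 28 19 (.dbl 30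 26 31))) (.rp 2 (.str 1 (.nv (.thr 17 29 (.dbl 19 16 28)) (.rp 63 (.str 43 (.nv (.thr 26 30 (.thr 27 24 (.thr 11 59 (.dbl 41 56 61)))) (.nv (.thr 19 28 (.dbl 17 16 29)) .nd))) (.rp 43 (.str 63 (.nv (.thr 17 29 (.dbl 19 16 28)) (.rp 29 (.thr 19 28 (.thr 16 17 (.dbl 26 30 31))) (.rp 28 (.thr 17 29 (.thr 16 19 (.dbl 26 30 31))) (.rp 19 (.thr 17 29 (.thr 61 41 (.thr 49 33 (.thr 53 57 (.dbl 37 5 13))))) (.rp 17 (.thr 28 19 (.thr 30 26 (.thr 31 29 (.thr 61 41 (.thr 60 62 (.dbl 15 45 47)))))) (.rp 16 (.thr 29 17 (.thr 28 19 (.dbl 30 26 31))) .nd))))))) (.rp 29 (.thr 19 28 (.thr 16 17 (.dbl 26 30 31))) (.rp 28 (.thr 17 29 (.thr 16 19 (.dbl 26 30 31))) (.rp 19 (.thr 17 29 (.thr 49 33 (.thr 13 37 (.thr 9 5 (.dbl 41 57 61))))) (.rp 17 (.thr 26 30 (.thr 24 27 (.thr 41 61 (.thr 57 9 (.thr 56 11 (.thr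 59 58 (.dbl 8 40 42))))))) (.rp 16 (.thr 29 17 (.thr 28 19 (.dbl 30 26 31))) .nd))))))))) (.rp 1 (.str 2 (.nv (.thr 19 28 (.dbl 17 16 29)) (.rp 63 (.str 43 (.nv (.thr 26 30 (.thr 27 24 (.thr 42 62 (.dbl 59 8 11)))) (.nv (.thr 19 28 (.dbl 17 16 29)) .nd))) (.rp 43 (.str 63 (.nv (.thr 29 17 (.thr 30 26 (.thr 46 12 (.dbl 62 14 42)))) (.nv (.thr 19 28 (.dbl 17 16 29)) (.rp 29 (.thr 19 28 (.thr 16 17 (.dbl 26 30 31))) (.rp 17 (.thr 26 30 (.thr 42 62 (.thr 10 58 (.thr 14 6 (.dbl 50 34 38))))) .nd))))) (.rp 29 (.thr 19 28 (.thr 16 17 (.dbl 26 30 31))) (.rp 28 (.thr 17 29 (.thr 16 19 (.dbl 26 30 31))) (.rp 19 (.thr 26 30 (.thr 50 34 (.thr 14 38 (.thr 10 6 (.dbl 42 58 62))))) (.rp 17 (.thr 26 30 (.thr 42 62 (.thr 10 58 (.thr 14 6 (.dbl 50 34 38))))) (.rp 16 (.thr 30 26 (.thr 28 19 (.dbl 29 17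 31))) .nd))))))))) .nd))))))))))) (.rp 20 .ext (.rp 19 (.thr 17 29 .ext) (.rp 17 .ext (.rp 16 (.thr 17 29 (.str 37 (.nv (.thr 5 53 (.thr 7 52 (.thr 4 6 (.thr 23 20 (.dbl 55 38 39))))) (.nv (.thr 49 13 (.thr 1 33 (.thr 61 41 (.dbl 53 5 57)))) (.rp 53 (.thr 49 13 (.thr 1 33 (.str 48 (.nv (.thr 28 19 (.thr 51 50 (.thr 52 7 (.thr 60 56 (.dbl 12 38 44))))) (.nv (.thr 15 26 (.thr 51 50 (.thr 39 27 (.dbl 38 12 36)))) (.rp 61 (.str 45 (.nv (.thr 7 52 (.thr 23 20 (.thr 51 50 (.thr 55 39 (.dbl 38 4 12))))) (.nv (.thr 15 26 (.thr 51 50 (.thr 38 12 (.dbl 39 27 36)))) (.nv (.thr 52 7 (.thr 15 26 (.dbl 60 30 56))) .nd)))) (.rp 51 (.thr 52 7 (.thr 20 23 (.thr 36 4 (.thr 12 24 (.thr 60 56 (.dbl 28 19 44)))))) (.rp 50 (.thr 52 7 (.thr 20 23 (.thr 36 4 (.thr 12 24 (.dbl 38 39 51))))) (.rp 45 (.thr 61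 41 (.thr 51 50 (.thr 38 12 (.thr 39 36 (.dbl 15 26 27))))) (.rp 38 (.thr 51 50 (.thr 52 7 (.thr 60 56 (.thr 57 54 (.dbl 41 9 61))))) (.rp 15 (.thr 51 50 (.thr 7 52 (.thr 23 20 (.thr 55 39 (.dbl 38 4 12))))) (.rp 12 (.thr 51 50 (.thr 52 7 (.thr 60 56 (.thr 57 54 (.dbl 41 9 61))))) .nd)))))))))))) (.rp 48 (.str 32 (.nv (.thr 5 53 (.thr 7 52 (.thr 23 20 (.thr 55 39 (.dbl 4 6 38))))) (.nv (.thr 53 5 (.thr 49 13 (.thr 61 57 (.dbl 1 33 41)))) (.rp 53 (.thr 52 7 (.thr 20 23 (.thr 36 4 (.thr 28 19 (.thr 44 40 (.thr 12 60 (.dbl 38 39 51))))))) (.rp 33 (.str 18 (.nv (.thr 5 53 (.thr 7 52 (.thr 6 4 (.thr 26 30 (.thr 42 47 (.thr 2 62 (.dbl 10 14 58))))))) (.nv (.thr 5 53 (.thr 7 52 (.thr 4 6 (.thr 42 47 (.thr 2 62 (.thr 34 50 (.dbl 38 46 55))))))) (.nv (.thr 52 7 (.thr 53 5 (.thr 55 54 (.thr 4 38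 (.dbl 20 23 36))))) (.rp 55 (.thr 26 30 (.thr 42 47 (.thr 10 58 (.thr 2 62 (.thr 50 34 (.dbl 14 6 38)))))) (.rp 54 (.thr 23 20 (.thr 7 52 (.thr 5 53 (.thr 55 39 (.dbl 4 6 38))))) (.rp 53 (.thr 26 30 (.thr 42 47 (.thr 2 62 (.thr 50 34 (.thr 14 38 (.dbl 10 6 58)))))) (.rp 52 (.thr 26 30 (.thr 42 47 (.thr 10 58 (.thr 2 62 (.thr 50 34 (.dbl 14 6 38)))))) (.rp 7 (.thr 26 30 (.thr 42 47 (.thr 10 58 (.thr 2 62 (.thr 50 34 (.dbl 14 6 38)))))) (.rp 6 (.thr 20 23 (.thr 52 7 (.thr 4 36 (.thr 53 5 (.dbl 55 38 54))))) (.rp 5 (.thr 26 30 (.thr 42 47 (.thr 10 58 (.thr 2 62 (.thr 50 34 (.dbl 14 6 38)))))) (.rp 4 (.thr 26 30 (.thr 42 47 (.thr 10 58 (.thr 2 62 (.thr 50 34 (.dbl 14 6 38)))))) (.rp 2 (.str 1 (.nv (.thr 13 49 (.thr 9 5 (.dbl 41 57 61))) (.nv (.thr 5 53 (.dbl 13 9 49)) (.rp 49 (.thr 5 53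 (.thr 9 13 (.dbl 41 57 61))) (.rp 13 (.thr 20 23 (.thr 52 7 (.thr 4 36 (.thr 53 5 (.dbl 55 38 54))))) (.rp 9 (.thr 53 5 (.thr 49 13 (.dbl 61 41 57))) (.rp 5 (.thr 52 7 (.thr 42 47 (.thr 41 61 (.thr 40 43 (.thr 36 44 (.dbl 20 4 23)))))) .nd))))))) (.rp 1 (.str 2 (.nv (.dbl 42 47 62) (.rp 62 (.thr 50 34 (.thr 26 30 (.thr 14 38 (.thr 10 6 (.dbl 42 47 58))))) (.rp 47 (.thr 50 34 (.thr 52 7 (.thr 53 5 (.thr 54 55 (.dbl 62 42 58))))) (.rp 42 (.thr 20 23 (.thr 52 7 (.thr 4 36 (.thr 53 5 (.dbl 55 38 54))))) .nd))))) .nd)))))))))))))) (.rp 18 (.str 33 (.nv (.thr 1 49 (.dbl 41 45 61)) (.nv (.dbl 49 1 13) (.rp 49 (.thr 35 34 (.thr 7 52 (.thr 23 20 (.thr 39 55 (.dbl 47 42 43))))) (.rp 1 (.str 2 (.nv (.dbl 42 47 62) (.rp 62 (.thr 35 34 (.thr 7 52 (.thr 23 20 (.thr 39 55 (.dbl 47 42 43))))) (.rp 47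 (.thr 35 34 (.thr 41 45 (.thr 44 38 (.thr 40 36 (.dbl 42 43 62))))) (.rp 42 (.thr 5 53 (.thr 7 52 (.thr 4 6 (.thr 23 20 (.dbl 55 38 39))))) .nd))))) .nd))))) (.rp 5 (.thr 7 52 (.thr 23 20 (.thr 39 55 (.thr 49 13 (.thr 47 42 (.thr 35 43 (.dbl 33 1 34))))))) (.rp 2 (.str 1 (.nv (.thr 33 49 (.dbl 41 45 61)) (.nv (.dbl 49 13 33) (.rp 49 (.thr 5 53 (.thr 9 13 (.dbl 41 57 61))) (.rp 33 (.str 18 (.nv (.thr 13 49 (.thr 9 5 (.dbl 41 57 61))) (.nv (.thr 5 53 (.dbl 13 9 49)) (.rp 49 (.thr 5 53 (.thr 9 13 (.dbl 41 57 61))) (.rp 13 (.thr 20 23 (.thr 52 7 (.thr 4 36 (.thr 53 5 (.dbl 55 38 54))))) (.rp 9 (.thr 53 5 (.thr 49 13 (.dbl 61 41 57))) (.rp 5 (.thr 52 7 (.thr 42 47 (.thr 41 61 (.thr 40 43 (.thr 36 44 (.dbl 20 4 23)))))) .nd))))))) .nd))))) (.rp 1 (.str 2 (.nv (.dbl 42 47 62) (.rp 62 (.thr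 20 23 (.thr 52 7 (.thr 4 36 (.thr 53 5 (.dbl 55 38 54))))) (.rp 47 (.thr 20 23 (.thr 52 7 (.thr 4 36 (.thr 53 5 (.dbl 55 38 54))))) (.rp 42 (.thr 20 23 (.thr 52 7 (.thr 4 36 (.thr 53 5 (.dbl 55 38 54))))) (.rp 33 (.str 18 (.nv (.dbl 42 47 62) (.rp 62 (.thr 50 34 (.thr 26 30 (.thr 14 38 (.thr 10 6 (.dbl 42 47 58))))) (.rp 47 (.thr 50 34 (.thr 52 7 (.thr 53 5 (.thr 54 55 (.dbl 62 42 58))))) (.rp 42 (.thr 20 23 (.thr 52 7 (.thr 4 36 (.thr 53 5 (.dbl 55 38 54))))) .nd))))) (.rp 18 (.str 33 (.nv (.dbl 42 47 62) (.rp 62 (.thr 35 34 (.thr 7 52 (.thr 23 20 (.thr 39 55 (.dbl 47 42 43))))) (.rp 47 (.thr 35 34 (.thr 41 45 (.thr 44 38 (.thr 40 36 (.dbl 42 43 62))))) (.rp 42 (.thr 5 53 (.thr 7 52 (.thr 4 6 (.thr 23 20 (.dbl 55 38 39))))) .nd))))) .nd))))))) .nd))))))))) (.rp 32 (.str 48 (.nv (.thr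 20 23 (.thr 52 7 (.thr 36 4 (.thr 12 24 (.dbl 38 39 51))))) (.nv (.thr 49 13 (.thr 1 33 (.thr 61 41 (.dbl 53 5 57)))) (.rp 5 (.thr 49 13 (.thr 51 50 (.thr 38 12 (.thr 39 36 (.dbl 15 26 27))))) (.rp 2 (.str 1 (.nv (.thr 5 53 (.thr 9 13 (.dbl 41 57 61))) (.nv (.dbl 49 13 33) (.rp 13 (.thr 33 49 (.dbl 41 45 61)) .nd)))) (.rp 1 (.str 2 (.nv (.thr 5 53 (.thr 7 52 (.thr 4 6 (.thr 23 20 (.dbl 55 38 39))))) (.nv (.thr 52 7 (.thr 53 5 (.thr 60 56 (.thr 62 42 (.dbl 63 58 61))))) (.nv (.thr 13 49 (.thr 15 26 (.thr 12 14 (.thr 38 51 (.dbl 36 24 39))))) .nd)))) .nd)))))) (.rp 5 (.thr 20 23 (.thr 52 7 (.thr 4 36 (.thr 55 38 (.thr 53 54 (.thr 49 13 (.thr 1 33 (.dbl 61 41 57)))))))) (.rp 2 (.str 1 (.nv (.thr 5 53 (.thr 9 13 (.dbl 41 57 61))) (.nv (.dbl 49 13 33) (.rp 48 (.str 32 (.nv (.thr 33 49 (.dbl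 41 45 61)) (.nv (.dbl 49 13 33) (.rp 49 (.thr 5 53 (.thr 9 13 (.dbl 41 57 61))) (.rp 33 (.str 18 (.nv (.thr 13 49 (.thr 9 5 (.dbl 41 57 61))) (.nv (.thr 5 53 (.dbl 13 9 49)) (.rp 49 (.thr 5 53 (.thr 9 13 (.dbl 41 57 61))) (.rp 13 (.thr 20 23 (.thr 52 7 (.thr 4 36 (.thr 53 5 (.dbl 55 38 54))))) (.rp 9 (.thr 53 5 (.thr 49 13 (.dbl 61 41 57))) (.rp 5 (.thr 52 7 (.thr 42 47 (.thr 41 61 (.thr 40 43 (.thr 36 44 (.dbl 20 4 23)))))) .nd))))))) .nd))))) (.rp 32 (.str 48 (.nv (.thr 5 53 (.thr 9 13 (.dbl 41 57 61))) (.nv (.dbl 49 13 33) (.rp 13 (.thr 33 49 (.dbl 41 45 61)) .nd)))) (.rp 13 (.thr 33 49 (.dbl 41 45 61)) .nd)))))) (.rp 1 (.str 2 (.nv (.thr 5 53 (.thr 7 52 (.thr 6 4 (.thr 13 49 (.thr 14 10 (.thr 12 15 (.dbl 38 51 54))))))) (.nv (.thr 5 53 (.thr 23 20 (.thr 7 52 (.thr 55 39 (.dbl 4 6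 38))))) (.nv (.thr 5 53 (.thr 7 52 (.thr 4 6 (.thr 55 38 (.dbl 23 20 39))))) (.rp 55 (.str 48 (.nv (.thr 49 13 (.thr 50 51 (.thr 62 42 (.thr 58 54 (.dbl 53 5 63))))) (.nv (.thr 13 49 (.thr 15 26 (.thr 12 14 (.thr 36 24 (.dbl 38 39 51))))) (.nv (.thr 15 26 (.thr 42 62 (.thr 47 32 (.thr 53 5 (.dbl 63 31 58))))) (.rp 13 (.thr 42 62 (.thr 15 26 (.thr 47 32 (.thr 63 31 (.dbl 53 5 58))))) .nd))))) (.rp 53 (.thr 23 20 (.thr 7 52 (.thr 55 39 (.thr 42 62 (.thr 59 8 (.thr 51 63 (.dbl 38 4 12))))))) (.rp 52 (.str 48 (.nv (.thr 49 13 (.thr 50 51 (.thr 62 42 (.thr 58 54 (.dbl 53 5 63))))) (.nv (.thr 15 26 (.thr 42 62 (.thr 47 32 (.thr 63 31 (.dbl 53 5 58))))) (.nv (.thr 13 49 (.thr 15 26 (.thr 12 14 (.thr 38 51 (.dbl 36 24 39))))) .nd)))) (.rp 48 (.str 32 (.nv (.dbl 42 47 62) (.rp 62 (.thr 20 23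 (.thr 52 7 (.thr 4 36 (.thr 53 5 (.dbl 55 38 54))))) (.rp 47 (.thr 20 23 (.thr 52 7 (.thr 4 36 (.thr 53 5 (.dbl 55 38 54))))) (.rp 42 (.thr 20 23 (.thr 52 7 (.thr 4 36 (.thr 53 5 (.dbl 55 38 54))))) (.rp 33 (.str 18 (.nv (.dbl 42 47 62) (.rp 62 (.thr 50 34 (.thr 26 30 (.thr 14 38 (.thr 10 6 (.dbl 42 47 58))))) (.rp 47 (.thr 50 34 (.thr 52 7 (.thr 53 5 (.thr 54 55 (.dbl 62 42 58))))) (.rp 42 (.thr 20 23 (.thr 52 7 (.thr 4 36 (.thr 53 5 (.dbl 55 38 54))))) .nd))))) (.rp 18 (.str 33 (.nv (.dbl 42 47 62) (.rp 62 (.thr 35 34 (.thr 7 52 (.thr 23 20 (.thr 39 55 (.dbl 47 42 43))))) (.rp 47 (.thr 35 34 (.thr 41 45 (.thr 44 38 (.thr 40 36 (.dbl 42 43 62))))) (.rp 42 (.thr 5 53 (.thr 7 52 (.thr 4 6 (.thr 23 20 (.dbl 55 38 39))))) .nd))))) .nd))))))) (.rp 38 (.thr 20 23 (.thr 7 52 (.thr 5 53 (.thr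 6 4 (.thr 49 13 (.thr 10 14 (.thr 19 28 (.thr 42 62 (.thr 26 58 (.thr 24 27 (.thr 8 59 (.thr 11 9 (.dbl 56 40 41))))))))))))) (.rp 32 (.str 48 (.nv (.thr 5 53 (.thr 7 52 (.thr 4 6 (.thr 23 20 (.dbl 55 38 39))))) (.nv (.thr 52 7 (.thr 53 5 (.thr 60 56 (.thr 62 42 (.dbl 63 58 61))))) (.nv (.thr 13 49 (.thr 15 26 (.thr 12 14 (.thr 38 51 (.dbl 36 24 39))))) .nd)))) (.rp 20 (.thr 52 7 (.thr 53 5 (.thr 55 54 (.thr 42 62 (.thr 59 8 (.thr 51 63 (.dbl 38 4 12))))))) (.rp 7 (.thr 5 53 (.thr 42 62 (.str 15 (.nv (.thr 48 26 (.thr 49 13 (.thr 51 50 (.thr 39 27 (.dbl 38 12 36))))) (.nv (.thr 47 32 (.thr 48 26 (.thr 19 28 (.thr 31 63 (.dbl 23 20 27))))) (.rp 61 (.thr 32 47 (.thr 26 48 (.thr 27 24 (.thr 51 39 (.thr 12 38 (.dbl 13 14 49)))))) (.rp 48 (.thr 32 47 (.thr 23 20 (.thr 13 49 (.thr 12 14 (.thr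 51 38 (.thr 27 39 (.dbl 19 28 31))))))) (.rp 27 (.thr 32 47 (.thr 13 49 (.thr 14 12 (.thr 26 48 (.dbl 10 6 58))))) (.rp 26 (.thr 32 47 (.thr 13 49 (.thr 12 14 (.thr 38 51 (.thr 36 39 (.thr 44 40 (.dbl 28 19 60))))))) (.rp 12 (.thr 23 20 (.thr 49 13 (.thr 48 26 (.thr 51 50 (.thr 27 39 (.dbl 19 28 31)))))) .nd)))))))))) (.rp 6 (.thr 20 23 (.thr 52 7 (.thr 4 36 (.thr 53 5 (.dbl 55 38 54))))) (.rp 5 (.thr 23 20 (.thr 7 52 (.thr 55 39 (.thr 42 62 (.thr 59 8 (.thr 51 63 (.dbl 38 4 12))))))) (.rp 4 (.thr 5 53 (.thr 23 20 (.thr 42 62 (.thr 8 59 (.thr 32 47 (.str 40 (.nv (.thr 7 52 (.thr 36 44 (.dbl 39 38 55))) (.nv (.thr 19 28 (.thr 24 56 (.dbl 27 26 31))) (.rp 52 (.thr 36 44 (.thr 19 28 (.thr 24 56 (.dbl 27 26 31)))) (.rp 36 (.thr 52 7 (.thr 19 28 (.thr 24 56 (.dbl 27 26 31)))) (.rp 28 (.thr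 24 56 (.thr 26 27 (.thr 36 44 (.dbl 48 12 15)))) (.rp 24 (.thr 28 19 (.thr 36 44 (.thr 39 38 (.dbl 7 52 55)))) .nd)))))))))))) .nd))))))))))))))) .nd)))))))))) (.rp 2 (.str 1 (.nv (.thr 20 23 (.thr 28 19 (.thr 16 24 (.thr 29 17 (.dbl 31 26 30))))) (.nv (.thr 17 29 (.thr 49 33 (.thr 13 37 (.thr 41 61 (.dbl 9 5 57))))) (.rp 29 (.thr 23 20 (.thr 19 28 (.thr 31 27 (.thr 16 26 (.thr 17 18 (.thr 41 61 (.thr 9 57 (.thr 13 5 (.dbl 49 33 37))))))))) (.rp 17 (.thr 20 23 (.thr 28 19 (.thr 16 24 (.thr 31 26 (.thr 29 30 (.thr 61 41 (.thr 13 45 (.thr 5 9 (.dbl 37 49 53))))))))) .nd))))) (.rp 1 .ext .nd))))))))))))))))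

theorem w8 : WinAt (6291456, 9) :=
  chF (K := [(39845888, 11), (39845888, 131081), (39845888, 1048585), (39976960, 537395209)]) (kc w2 (kc w5 (kc w7 (kc w6 kn)))) c8 6291456 9 3
    [15] (by decide +kernel) (by decide +kernel)

/-- A certificate. -/
noncomputable def c9 : Ct := (.str 49 (.nv (.thr 13 37 (.thr 29 17 (.thr 42 59 (.thr 61 45 (.thr 62 2 (.thr 60 63 (.dbl 41 1 3))))))) (.nv (.thr 13 37 (.thr 29 17 (.thr 61 45 (.thr 41 1 (.dbl 57 9 53))))) (.nv (.thr 17 29 (.thr 1 33 (.thr 13 37 (.thr 41 61 (.dbl 9 5 57))))) (.rp 61 (.thr 17 29 (.thr 13 37 (.thr 1 33 (.thr 9 5 (.thr 41 57 (.thr 42 59 (.thr 40 43 (.thr 56 24 (.dbl 11 10 26))))))))) (.rp 48 (.str 32 (.nv (.thr 42 59 (.dbl 37 13 47)) (.rp 59 (.thr 37 13 (.thr 53 5 (.thr 17 29 (.thr 1 33 (.dbl 61 41 57))))) (.rp 47 (.thr 37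 13 (.thr 53 5 (.thr 17 29 (.thr 1 33 (.dbl 61 41 57))))) (.rp 42 (.thr 37 13 (.thr 53 5 (.thr 17 29 (.thr 1 33 (.dbl 61 41 57))))) (.rp 37 (.thr 17 29 (.thr 1 33 (.thr 41 61 (.thr 9 57 (.thr 11 10 (.thr 26 56 (.thr 59 42 (.dbl 27 24 43)))))))) (.rp 36 (.str 24 (.nv (.thr 42 59 (.dbl 37 13 47)) (.rp 59 (.thr 56 40 (.thr 17 29 (.thr 1 33 (.thr 41 61 (.dbl 26 11 27))))) (.rp 47 (.thr 40 56 (.thr 17 29 (.thr 1 33 (.thr 41 61 (.dbl 42 43 59))))) (.rp 42 (.thr 56 40 (.thr 17 29 (.thr 1 33 (.thr 41 61 (.dbl 26 11 27))))) (.rp 37 (.thr 40 56 (.thr 17 29 (.thr 1 33 (.thr 41 61 (.dbl 42 43 59))))) (.rp 13 (.thr 40 56 (.thr 17 29 (.thr 1 33 (.thr 42 59 (.dbl 41 43 61))))) .nd))))))) (.rp 24 (.str 36 (.nv (.thr 42 59 (.dbl 37 13 47)) (.rp 59 (.thr 37 13 (.thr 53 5 (.thr 17 29 (.thr 1 33 (.dbl 61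 41 57))))) (.rp 47 (.thr 40 44 (.thr 17 29 (.thr 1 33 (.thr 41 61 (.dbl 42 43 59))))) (.rp 42 (.thr 37 13 (.thr 53 5 (.thr 17 29 (.thr 1 33 (.dbl 61 41 57))))) (.rp 37 (.thr 40 44 (.thr 17 29 (.thr 1 33 (.thr 41 61 (.dbl 42 43 59))))) (.rp 13 (.thr 40 44 (.thr 17 29 (.thr 1 33 (.thr 42 59 (.dbl 41 43 61))))) .nd))))))) (.rp 13 (.thr 17 29 (.thr 1 33 (.thr 61 41 (.thr 53 57 (.thr 37 5 (.dbl 42 47 59)))))) .nd))))))))) (.rp 41 (.thr 17 29 (.thr 37 13 (.thr 33 1 (.thr 42 59 (.thr 2 62 (.thr 32 47 (.thr 34 35 (.thr 18 50 (.thr 26 30 (.dbl 48 3 15)))))))))) (.rp 37 (.thr 17 29 (.thr 1 33 (.thr 41 61 (.thr 9 57 (.thr 11 10 (.thr 26 56 (.thr 27 24 (.dbl 59 42 43)))))))) (.rp 32 (.str 48 (.nv (.thr 19 28 (.thr 51 50 (.thr 3 35 (.thr 33 18 (.dbl 17 1 29))))) (.nv (.thr 37 13 (.thr 51 50 (.thr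 59 42 (.thr 63 55 (.dbl 53 5 58))))) (.nv (.thr 17 29 (.thr 33 1 (.thr 3 18 (.thr 41 60 (.dbl 37 13 45))))) .nd)))) (.rp 29 (.thr 37 13 (.thr 53 5 (.thr 61 57 (.thr 42 59 (.thr 62 2 (.thr 63 60 (.thr 58 48 (.thr 32 47 (.thr 54 50 (.dbl 52 7 55)))))))))) (.rp 17 (.thr 37 13 (.thr 53 5 (.thr 61 57 (.thr 42 59 (.thr 62 2 (.thr 60 63 (.dbl 41 1 3))))))) (.rp 13 (.thr 17 29 (.thr 1 33 (.thr 61 41 (.thr 53 57 (.thr 37 5 (.thr 42 59 (.thr 62 2 (.thr 63 60 (.thr 58 48 (.thr 32 47 (.thr 54 50 (.dbl 52 7 55)))))))))))) (.rp 1 (.thr 29 17 (.thr 13 37 (.thr 61 45 (.thr 57 53 (.thr 41 9 (.thr 59 42 (.thr 56 58 (.thr 26 11 (.dbl 24 27 40))))))))) .nd)))))))))))))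

theorem w9 : WinAt (40894720, 8458257) :=
  chF (K := []) kn c9 40894720 8458257 23
    [281479271743489] (by decide +kernel) (by decide +kernel)

/-- A certificate. -/
noncomputable def c10 : Ct := (.thr 20 23 .ext)

theorem w10 : WinAt (39846144, 69649) :=
  chF (K := [(40894720, 8458257)]) (kc w9 kn) c10 39846144 69649 16
    [281479271743489] (by decide +kernel) (by decide +kernel)

/-- A certificate. -/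
noncomputable def c11 : Ct := (.str 8 (.nv (.thr 17 29 (.thr 19 28 (.thr 16 18 (.thr 23 20 (.dbl 31 26 27))))) (.nv (.thr 29 17 (.thr 28 19 (.thr 31 30 (.thr 16 26 (.dbl 20 23 24))))) (.rp 31 (.str 24 (.nv (.thr 28 19 (.dbl 20 16 23)) (.rp 28 (.thr 26 27 (.thr 56 40 (.thr 11 41 (.thr 10 9 (.dbl 42 58 59))))) (.rp 27 (.thr 29 17 (.thr 56 40 (.thr 59 42 (.thr 57 58 (.thr 41 9 (.thr 61 1 (.thr 49 53 (.dbl 13 37 45)))))))) (.rp 23 (.thr 56 40 (.thr 59 42 (.thr 57 58 (.thr 41 9 (.dbl 26 11 27))))) (.rp 20 (.thr 26 27 (.thr 42 59 (.thr 10 58 (.thr 11 9 (.dbl 56 40 41))))) (.rp 19 (.thr 56 40 (.thr 59 42 (.thr 57 58 (.thr 41 9 (.dbl 26 11 27))))) (.rp 16 (.thr 26 27 (.thr 56 40 (.thr 11 41 (.thr 10 9 (.dbl 42 58 59))))) .nd)))))))) (.rp 30 (.thr 17 29 (.thr 23 20 (.thr 19 28 (.thr 31 27 (.dbl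 16 18 26))))) (.rp 29 (.thr 28 19 (.thr 20 23 (.thr 24 16 (.thr 56 40 (.thr 59 42 (.thr 57 58 (.thr 41 9 (.dbl 26 11 27)))))))) (.rp 28 (.thr 20 23 (.str 41 (.nv (.thr 29 17 (.thr 57 9 (.thr 61 1 (.thr 13 45 (.dbl 49 37 53))))) (.nv (.thr 9 57 (.thr 11 10 (.thr 26 56 (.thr 59 42 (.dbl 27 24 43))))) (.rp 60 (.str 44 (.nv (.thr 1 61 (.thr 9 57 (.thr 17 29 (.thr 49 33 (.dbl 13 5 37))))) (.nv (.thr 57 9 (.thr 59 42 (.thr 56 58 (.thr 26 11 (.dbl 24 27 40))))) (.rp 57 (.thr 29 17 (.thr 61 1 (.thr 45 13 (.thr 38 35 (.thr 46 47 (.dbl 42 34 59)))))) (.rp 9 (.thr 61 1 (.thr 38 35 (.thr 42 59 (.thr 46 34 (.thr 45 47 (.dbl 29 13 17)))))) .nd))))) (.rp 57 (.thr 17 29 (.thr 1 61 (.thr 49 33 (.thr 13 37 (.thr 9 5 (.thr 42 59 (.thr 40 43 (.thr 56 24 (.dbl 11 10 26))))))))) (.rp 44 (.thr 60 3 (.thr 17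 29 (.thr 9 57 (.thr 1 61 (.thr 13 5 (.dbl 49 33 37)))))) (.rp 9 (.thr 29 17 (.thr 61 1 (.thr 13 45 (.thr 49 37 (.thr 57 53 (.thr 59 42 (.thr 56 58 (.thr 24 40 (.dbl 26 11 27))))))))) .nd)))))))) (.rp 26 (.thr 17 29 (.thr 28 19 (.thr 20 23 (.thr 24 16 (.thr 40 56 (.thr 42 59 (.thr 41 43 (.thr 1 61 (.thr 49 33 (.thr 13 37 (.dbl 9 5 57))))))))))) (.rp 23 (.thr 29 17 (.thr 28 19 (.thr 31 30 (.thr 16 26 (.thr 24 20 (.thr 40 56 (.thr 42 59 (.thr 41 43 (.thr 57 9 (.thr 61 1 (.thr 49 53 (.dbl 13 37 45)))))))))))) (.rp 20 (.str 60 (.nv (.thr 41 3 (.thr 9 57 (.thr 11 10 (.thr 26 56 (.thr 27 24 (.dbl 59 42 43)))))) (.nv (.thr 41 3 (.thr 1 61 (.thr 9 57 (.thr 13 5 (.thr 49 37 (.dbl 17 29 33)))))) (.nv (.thr 42 59 (.thr 62 2 (.thr 61 63 (.dbl 41 1 3)))) (.rp 52 (.str 36 (.nv (.thr 41 3 (.thr 9 57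 (.thr 11 10 (.thr 26 56 (.thr 27 24 (.dbl 59 42 43)))))) (.nv (.thr 41 3 (.thr 1 61 (.thr 9 57 (.thr 13 5 (.thr 49 37 (.dbl 17 29 33)))))) (.nv (.thr 42 59 (.thr 62 2 (.thr 61 63 (.dbl 41 1 3)))) (.rp 41 (.thr 29 17 (.thr 28 19 (.thr 30 31 (.thr 45 15 (.thr 42 59 (.thr 62 2 (.dbl 61 13 63))))))) (.rp 3 (.thr 29 17 (.thr 28 19 (.thr 30 31 (.thr 45 15 (.thr 13 61 (.thr 37 49 (.thr 38 39 (.thr 42 59 (.thr 47 32 (.dbl 46 34 44)))))))))) (.rp 1 (.thr 42 59 (.thr 2 62 (.thr 41 3 (.thr 9 57 (.thr 11 10 (.thr 56 26 (.dbl 40 24 43))))))) .nd))))))) (.rp 41 (.thr 28 19 (.thr 29 17 (.thr 30 31 (.thr 42 59 (.thr 62 2 (.thr 61 63 (.dbl 45 13 15))))))) (.rp 36 (.str 52 (.nv (.thr 42 59 (.thr 62 2 (.thr 61 63 (.dbl 41 1 3)))) (.nv (.thr 56 48 (.thr 24 40 (.thr 26 27 (.dbl 41 3 11)))) (.rp 48 (.str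 24 (.nv (.thr 40 56 (.thr 41 3 (.dbl 42 43 59))) (.nv (.thr 17 29 (.thr 19 28 (.thr 26 27 (.dbl 16 18 31)))) (.nv (.thr 26 27 (.thr 56 40 (.dbl 41 3 11))) (.rp 32 (.str 16 (.nv (.thr 40 56 (.thr 17 29 (.dbl 19 18 28))) (.nv (.dbl 26 27 31) (.rp 40 (.str 44 (.nv (.thr 17 29 (.dbl 19 18 28)) (.nv (.dbl 26 27 31) .nd))) .nd)))) (.rp 16 (.str 32 (.nv (.thr 26 27 (.thr 41 3 (.dbl 56 11 40))) (.nv (.thr 42 59 (.dbl 37 7 47)) .nd))) .nd)))))) (.rp 41 (.thr 19 28 (.thr 17 29 (.thr 16 18 (.thr 56 48 (.thr 24 40 (.dbl 26 27 31)))))) (.rp 24 (.thr 48 56 (.thr 17 29 (.thr 3 41 (.thr 18 33 (.dbl 19 16 28))))) (.rp 3 (.thr 19 28 (.thr 17 29 (.thr 16 18 (.thr 48 56 (.thr 37 7 (.dbl 26 15 31)))))) .nd))))))) (.rp 3 (.thr 28 19 (.thr 29 17 (.thr 30 31 (.thr 42 59 (.thr 45 15 (.thr 13 61 (.thr 37 49 (.thr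 47 32 (.thr 46 44 (.dbl 62 2 14)))))))))) (.rp 1 (.thr 42 59 (.thr 2 62 (.thr 41 3 (.thr 9 57 (.thr 11 10 (.thr 56 26 (.dbl 40 24 43))))))) .nd))))))))) (.rp 19 (.str 24 (.nv (.thr 56 40 (.thr 59 42 (.thr 57 58 (.thr 41 9 (.dbl 26 11 27))))) (.nv (.thr 26 27 (.thr 42 59 (.thr 10 58 (.thr 11 9 (.dbl 56 40 41))))) (.nv (.thr 20 23 (.thr 16 28 (.dbl 26 27 31))) (.rp 27 (.thr 29 17 (.thr 56 40 (.thr 59 42 (.thr 57 58 (.thr 41 9 (.thr 61 1 (.thr 49 53 (.dbl 13 37 45)))))))) (.rp 26 (.thr 29 17 (.thr 40 56 (.thr 42 59 (.thr 41 43 (.thr 57 9 (.thr 61 1 (.thr 49 53 (.dbl 13 37 45)))))))) .nd)))))) (.rp 18 (.thr 29 17 (.thr 20 23 (.thr 28 19 (.thr 16 24 (.dbl 31 26 30))))) (.rp 17 (.thr 19 28 (.thr 23 20 (.thr 27 31 (.thr 59 42 (.thr 11 43 (.thr 9 10 (.thr 41 57 (.dbl 26 24 56)))))))) (.rp 16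 .ext .nd))))))))))))))

theorem w11 : WinAt (39845888, 4113) :=
  chF (K := [(39846144, 69649)]) (kc w10 kn) c11 39845888 4113 12
    [] (by decide +kernel) (by decide +kernel)

/-- A certificate. -/
noncomputable def c12 : Ct := (.str 25 (.nv (.thr 20 23 (.thr 28 19 (.thr 16 24 (.thr 31 26 (.dbl 29 17 30))))) (.rp 31 (.str 12 (.nv (.thr 19 28 (.thr 23 20 (.thr 29 17 (.thr 51 38 (.thr 63 46 (.dbl 3 35 43)))))) (.nv (.thr 23 20 (.thr 29 17 (.thr 63 46 (.thr 3 43 (.thr 9 6 (.dbl 41 57 60)))))) (.nv (.thr 28 19 (.thr 60 44 (.thr 3 41 (.thr 6 9 (.dbl 38 51 54))))) (.rp 60 (.thr 29 17 (.thr 19 28 (.thr 63 46 (.thr 51 38 (.thr 3 35 (.dbl 23 20 43)))))) (.rp 51 (.thr 28 19 (.thr 23 20 (.thr 60 44 (.thr 3 41 (.thr 63 43 (.dbl 29 17 46)))))) (.rp 23 (.thr 19 28 (.thr 51 38 (.thr 3 35 (.thr 9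 6 (.dbl 41 57 60))))) (.rp 3 (.thr 29 17 (.thr 28 19 (.thr 60 44 (.thr 63 46 (.thr 61 62 (.thr 51 38 (.thr 57 54 (.dbl 41 1 9)))))))) .nd)))))))) (.rp 30 (.thr 23 20 (.thr 17 29 (.thr 19 28 (.thr 31 27 (.dbl 16 18 26))))) (.rp 29 (.thr 20 23 (.str 12 (.nv (.thr 28 19 (.thr 24 16 (.thr 48 36 (.thr 51 38 (.thr 49 50 (.thr 37 13 (.dbl 26 15 27))))))) (.nv (.thr 28 19 (.thr 24 16 (.thr 48 36 (.thr 60 44 (.thr 52 56 (.thr 37 7 (.dbl 26 15 27))))))) (.nv (.thr 19 28 (.thr 51 38 (.thr 3 35 (.thr 41 60 (.dbl 9 6 57))))) (.rp 31 (.thr 38 51 (.thr 6 54 (.thr 3 9 (.thr 60 41 (.dbl 28 19 44))))) (.rp 28 (.str 26 (.nv (.thr 18 30 (.thr 31 16 (.thr 24 27 (.thr 48 36 (.thr 3 33 (.thr 9 6 (.dbl 41 57 60))))))) (.nv (.thr 30 18 (.thr 38 51 (.thr 6 54 (.thr 14 50 (.thr 62 46 (.dbl 2 10 42)))))) (.nv (.thr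 24 27 (.thr 48 36 (.thr 51 38 (.thr 49 50 (.dbl 37 13 15))))) (.rp 48 (.thr 38 51 (.thr 50 14 (.thr 54 6 (.thr 62 58 (.thr 2 42 (.dbl 18 30 34)))))) (.rp 30 (.thr 31 16 (.thr 24 27 (.thr 48 36 (.thr 15 37 (.thr 14 13 (.dbl 38 50 51)))))) .nd)))))) (.rp 19 (.thr 38 51 (.thr 6 54 (.thr 3 9 (.thr 60 41 (.thr 28 44 (.thr 24 16 (.thr 48 36 (.thr 18 33 (.dbl 26 27 30))))))))) .nd)))))))) (.rp 28 (.thr 20 23 (.str 41 (.nv (.thr 29 17 (.thr 57 9 (.thr 60 3 (.thr 51 54 (.thr 12 38 (.thr 63 46 (.dbl 61 1 62))))))) (.nv (.thr 1 61 (.thr 17 29 (.thr 9 57 (.thr 49 33 (.dbl 13 5 37))))) (.rp 61 (.thr 17 29 (.thr 9 57 (.thr 3 60 (.thr 12 6 (.thr 51 38 (.thr 19 35 (.thr 18 16 (.thr 48 33 (.thr 24 36 (.dbl 26 27 30)))))))))) (.rp 57 (.str 8 (.nv (.thr 17 29 (.thr 42 59 (.thr 40 43 (.thr 56 24 (.thr 11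 26 (.thr 9 10 (.thr 1 61 (.thr 49 33 (.dbl 13 5 37))))))))) (.rp 63 (.thr 29 17 (.thr 61 1 (.thr 45 13 (.thr 33 37 (.thr 3 60 (.thr 18 48 (.thr 26 30 (.thr 56 11 (.dbl 24 27 40))))))))) (.rp 61 (.thr 3 60 (.thr 42 59 (.thr 40 43 (.thr 56 24 (.thr 11 26 (.thr 7 15 (.thr 37 52 (.thr 32 47 (.thr 44 36 (.thr 35 38 (.dbl 33 34 45))))))))))) (.rp 59 (.thr 29 17 (.thr 61 1 (.thr 45 13 (.thr 33 37 (.thr 3 60 (.thr 18 48 (.thr 26 30 (.thr 56 11 (.dbl 24 27 40))))))))) (.rp 58 (.thr 29 17 (.thr 61 1 (.thr 45 13 (.thr 33 37 (.thr 3 60 (.thr 18 48 (.thr 26 30 (.thr 56 11 (.dbl 24 27 40))))))))) (.rp 56 (.thr 17 29 (.thr 1 61 (.thr 49 33 (.thr 13 37 (.thr 9 5 (.thr 10 11 (.thr 42 59 (.thr 58 26 (.thr 2 62 (.thr 6 14 (.dbl 3 12 60))))))))))) (.rp 49 (.thr 29 17 (.thr 3 60 (.thr 42 59 (.thr 40 43 (.thr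 56 24 (.thr 11 26 (.thr 9 10 (.thr 12 6 (.thr 46 63 (.dbl 38 34 51)))))))))) (.rp 45 (.thr 29 17 (.thr 3 60 (.thr 42 59 (.thr 40 43 (.thr 56 24 (.thr 11 26 (.thr 9 10 (.thr 12 6 (.thr 46 63 (.dbl 38 34 51)))))))))) (.rp 43 (.thr 29 17 (.thr 61 1 (.thr 45 13 (.thr 33 37 (.thr 3 60 (.thr 18 48 (.thr 26 30 (.thr 56 11 (.dbl 24 27 40))))))))) (.rp 42 (.thr 29 17 (.thr 61 1 (.thr 45 13 (.thr 33 37 (.thr 3 60 (.thr 18 48 (.thr 26 30 (.thr 56 11 (.dbl 24 27 40))))))))) (.rp 40 (.thr 17 29 (.thr 1 61 (.thr 49 33 (.thr 13 37 (.thr 9 5 (.thr 10 11 (.thr 42 59 (.thr 2 62 (.thr 6 14 (.dbl 3 12 60)))))))))) (.rp 37 (.thr 29 17 (.thr 61 1 (.thr 45 13 (.thr 42 59 (.thr 2 62 (.thr 60 3 (.thr 30 15 (.thr 26 18 (.thr 24 27 (.dbl 40 43 56)))))))))) (.rp 33 (.thr 29 17 (.thr 3 60 (.thr 42 59 (.thr 40 43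 (.thr 56 24 (.thr 11 26 (.thr 9 10 (.thr 12 6 (.thr 46 63 (.dbl 38 34 51)))))))))) (.rp 31 (.thr 29 17 (.thr 61 1 (.thr 45 13 (.thr 33 37 (.thr 3 60 (.thr 18 48 (.thr 26 30 (.thr 56 11 (.dbl 24 27 40))))))))) (.rp 30 (.thr 29 17 (.thr 61 1 (.thr 45 13 (.thr 3 60 (.thr 42 59 (.thr 40 43 (.thr 56 24 (.thr 11 26 (.thr 7 15 (.dbl 37 33 52)))))))))) (.rp 29 (.thr 1 61 (.thr 3 60 (.thr 42 59 (.thr 40 43 (.thr 56 24 (.thr 11 26 (.thr 7 15 (.thr 37 52 (.thr 9 10 (.dbl 5 13 53)))))))))) (.rp 27 (.thr 29 17 (.thr 61 1 (.thr 45 13 (.thr 33 37 (.thr 3 60 (.thr 18 48 (.thr 26 30 (.thr 56 11 (.thr 40 24 (.dbl 42 43 59)))))))))) (.rp 26 (.thr 17 29 (.thr 1 61 (.thr 49 33 (.thr 13 37 (.thr 9 5 (.thr 10 11 (.thr 42 59 (.thr 2 62 (.thr 6 14 (.dbl 3 12 60)))))))))) (.rp 24 (.thr 17 29 (.thr 1 61 (.thr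 49 33 (.thr 13 37 (.thr 9 5 (.thr 10 11 (.thr 42 59 (.thr 2 62 (.thr 6 14 (.dbl 3 12 60)))))))))) (.rp 17 (.thr 1 61 (.thr 3 60 (.thr 42 59 (.thr 40 43 (.thr 56 24 (.thr 11 26 (.thr 9 10 (.thr 5 13 (.thr 7 15 (.dbl 37 52 53)))))))))) (.rp 15 (.thr 29 17 (.thr 61 1 (.thr 45 13 (.thr 33 37 (.thr 3 60 (.thr 18 48 (.thr 26 30 (.thr 56 11 (.dbl 24 27 40))))))))) (.rp 13 (.thr 29 17 (.thr 3 60 (.thr 42 59 (.thr 40 43 (.thr 56 24 (.thr 11 26 (.thr 9 10 (.thr 12 6 (.thr 46 63 (.dbl 38 34 51)))))))))) (.rp 11 (.thr 29 17 (.thr 61 1 (.thr 45 13 (.thr 33 37 (.thr 3 60 (.thr 18 48 (.thr 42 59 (.thr 2 62 (.thr 34 50 (.thr 38 46 (.dbl 35 32 44))))))))))) (.rp 10 (.thr 29 17 (.thr 61 1 (.thr 45 13 (.thr 33 37 (.thr 3 60 (.thr 18 48 (.thr 26 30 (.thr 56 11 (.dbl 24 27 40))))))))) (.rp 9 (.thr 17 29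 (.thr 1 61 (.thr 49 33 (.thr 3 60 (.thr 42 59 (.thr 40 43 (.thr 56 24 (.thr 11 26 (.thr 7 15 (.dbl 37 13 52)))))))))) (.rp 5 (.thr 17 29 (.thr 1 61 (.thr 49 33 (.thr 3 60 (.thr 42 59 (.thr 40 43 (.thr 56 24 (.thr 11 26 (.thr 10 9 (.thr 7 15 (.dbl 37 13 52))))))))))) (.rp 3 (.thr 17 29 (.thr 1 61 (.thr 49 33 (.thr 13 37 (.thr 9 5 (.thr 10 11 (.thr 42 59 (.thr 2 62 (.thr 6 14 (.thr 38 54 (.thr 51 12 (.thr 50 48 (.thr 18 34 (.dbl 26 30 58)))))))))))))) (.rp 1 (.thr 29 17 (.thr 3 60 (.thr 42 59 (.thr 40 43 (.thr 56 24 (.thr 11 26 (.thr 9 10 (.thr 12 6 (.thr 46 63 (.dbl 38 34 51)))))))))) .nd))))))))))))))))))))))))))))) (.rp 29 (.thr 9 57 (.thr 1 61 (.thr 13 5 (.thr 49 37 (.thr 33 17 (.thr 3 60 (.thr 48 18 (.thr 51 50 (.dbl 12 6 38))))))))) (.rp 17 (.thr 60 3 (.thr 1 61 (.thr 57 9 (.thr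 51 54 (.thr 12 38 (.str 59 (.nv (.thr 42 8 (.thr 43 40 (.thr 11 27 (.dbl 56 26 58)))) (.nv (.thr 56 58 (.thr 48 52 (.thr 24 36 (.dbl 26 11 27)))) (.nv (.thr 56 58 (.thr 48 52 (.thr 24 36 (.dbl 8 40 42)))) (.nv (.thr 56 58 (.thr 11 26 (.thr 42 8 (.dbl 43 27 40)))) (.rp 63 (.str 43 (.nv (.thr 11 27 (.dbl 56 26 58)) (.nv (.dbl 42 8 40) .nd))) (.rp 58 (.thr 63 55 (.thr 46 29 (.thr 42 8 (.thr 43 40 (.thr 11 27 (.thr 62 2 (.thr 30 14 (.dbl 26 18 56)))))))) (.rp 56 (.thr 63 55 (.thr 46 29 (.thr 42 8 (.thr 62 2 (.thr 30 14 (.thr 45 15 (.thr 37 33 (.dbl 47 32 44)))))))) (.rp 43 (.thr 63 55 (.thr 56 58 (.thr 26 11 (.thr 24 27 (.dbl 48 36 52))))) .nd)))))))))))))) (.rp 12 (.str 8 (.nv (.thr 29 17 (.thr 57 9 (.thr 61 1 (.thr 13 45 (.dbl 49 37 53))))) (.nv (.thr 9 57 (.thr 11 10 (.thr 26 56 (.thr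 59 42 (.dbl 27 24 43))))) (.rp 60 (.str 44 (.nv (.thr 1 61 (.thr 9 57 (.thr 17 29 (.thr 49 33 (.dbl 13 5 37))))) (.nv (.thr 57 9 (.thr 59 42 (.thr 56 58 (.thr 26 11 (.dbl 24 27 40))))) (.rp 57 (.thr 29 17 (.thr 61 1 (.thr 45 13 (.thr 38 35 (.thr 46 47 (.dbl 42 34 59)))))) (.rp 9 (.thr 61 1 (.thr 38 35 (.thr 42 59 (.thr 46 34 (.thr 45 47 (.dbl 29 13 17)))))) .nd))))) (.rp 57 (.thr 17 29 (.thr 1 61 (.thr 49 33 (.thr 13 37 (.thr 9 5 (.thr 42 59 (.thr 40 43 (.thr 56 24 (.dbl 11 10 26))))))))) (.rp 44 (.thr 60 3 (.thr 17 29 (.thr 9 57 (.thr 1 61 (.thr 13 5 (.dbl 49 33 37)))))) (.rp 9 (.thr 29 17 (.thr 61 1 (.thr 13 45 (.thr 49 37 (.thr 57 53 (.thr 59 42 (.thr 56 58 (.thr 24 40 (.dbl 26 11 27))))))))) .nd))))))) (.rp 9 (.thr 17 29 (.thr 1 61 (.thr 33 49 (.thr 3 60 (.thr 18 48 (.thr 16 19 (.dbl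 26 30 31))))))) (.rp 8 (.str 12 (.nv (.thr 29 17 (.thr 60 3 (.thr 63 46 (.dbl 61 1 62)))) (.nv (.thr 9 57 (.dbl 3 6 60)) (.rp 60 (.thr 9 57 (.thr 6 3 (.dbl 38 51 54))) (.rp 3 (.thr 17 29 (.thr 9 57 (.thr 1 61 (.thr 13 5 (.dbl 49 33 37))))) .nd))))) (.rp 1 (.thr 17 29 (.thr 9 57 (.thr 3 60 (.thr 12 6 (.thr 51 38 (.thr 19 35 (.thr 18 16 (.thr 48 33 (.thr 24 36 (.dbl 26 27 30)))))))))) .nd)))))))))))) (.rp 27 (.thr 20 23 (.thr 29 17 (.thr 28 19 (.thr 31 30 (.dbl 16 24 26))))) (.rp 26 (.str 12 (.nv (.thr 19 28 (.thr 23 20 (.thr 29 17 (.thr 51 38 (.thr 63 46 (.dbl 3 35 43)))))) (.nv (.thr 23 20 (.thr 29 17 (.thr 63 46 (.thr 3 43 (.thr 9 6 (.dbl 41 57 60)))))) (.nv (.thr 28 19 (.thr 60 44 (.thr 3 41 (.thr 6 9 (.dbl 38 51 54))))) (.rp 60 (.thr 29 17 (.thr 19 28 (.thr 63 46 (.thr 51 38 (.thr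 3 35 (.dbl 23 20 43)))))) (.rp 51 (.thr 28 19 (.thr 23 20 (.thr 60 44 (.thr 3 41 (.thr 63 43 (.dbl 29 17 46)))))) (.rp 3 (.thr 29 17 (.thr 28 19 (.thr 30 31 (.thr 60 44 (.thr 15 45 (.thr 14 13 (.dbl 46 62 63))))))) .nd))))))) (.rp 24 (.thr 23 20 (.thr 17 29 (.thr 19 28 (.thr 16 18 (.dbl 31 26 27))))) (.rp 23 (.thr 29 17 (.str 12 (.nv (.thr 28 19 (.thr 60 44 (.thr 63 46 (.thr 61 62 (.thr 45 13 (.dbl 30 15 31)))))) (.nv (.thr 51 38 (.thr 19 28 (.thr 3 35 (.thr 41 60 (.dbl 9 6 57))))) (.rp 60 (.thr 28 19 (.thr 31 30 (.thr 63 46 (.thr 15 47 (.thr 51 38 (.thr 27 39 (.dbl 26 16 24))))))) (.rp 51 (.str 34 (.nv (.thr 28 19 (.thr 60 44 (.thr 63 46 (.thr 61 62 (.dbl 41 1 3))))) (.nv (.thr 46 63 (.thr 42 38 (.thr 62 2 (.thr 30 14 (.dbl 28 19 31))))) (.nv (.thr 28 19 (.thr 60 44 (.thr 3 41 (.thr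 6 9 (.thr 38 54 (.dbl 46 42 63)))))) (.rp 63 (.thr 28 19 (.thr 60 44 (.thr 3 41 (.thr 6 9 (.thr 38 54 (.thr 42 46 (.thr 2 62 (.thr 14 10 (.dbl 50 18 26))))))))) (.rp 46 (.thr 28 19 (.thr 31 30 (.thr 16 26 (.thr 24 20 (.thr 60 44 (.thr 48 36 (.thr 52 56 (.thr 37 7 (.thr 13 49 (.thr 45 61 (.dbl 41 3 33))))))))))) (.rp 31 (.thr 46 63 (.thr 38 42 (.thr 6 54 (.thr 3 9 (.thr 60 41 (.dbl 28 19 44)))))) (.rp 28 (.thr 46 63 (.thr 42 38 (.thr 62 2 (.thr 14 30 (.thr 13 15 (.thr 37 49 (.thr 47 32 (.dbl 45 44 61)))))))) (.rp 19 (.thr 46 63 (.thr 42 38 (.thr 62 2 (.thr 30 14 (.thr 31 28 (.dbl 26 16 18)))))) (.rp 3 (.thr 19 28 (.thr 63 46 (.str 2 (.nv (.thr 18 50 (.thr 26 30 (.thr 24 27 (.thr 48 36 (.thr 58 53 (.dbl 42 10 62)))))) (.nv (.thr 18 50 (.thr 26 30 (.thr 31 16 (.thr 24 27 (.thr 15 47 (.dbl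 48 36 37)))))) (.nv (.thr 62 42 (.thr 61 60 (.thr 41 1 (.thr 57 9 (.thr 49 53 (.dbl 13 37 45)))))) (.rp 62 (.str 14 (.nv (.thr 15 13 (.thr 18 50 (.thr 26 30 (.dbl 31 16 47)))) (.nv (.thr 13 15 (.thr 61 45 (.thr 1 41 (.thr 5 9 (.dbl 37 49 53))))) (.nv (.thr 50 18 (.thr 38 26 (.dbl 6 10 54))) .nd)))) (.rp 49 (.thr 62 42 (.thr 50 18 (.thr 54 58 (.thr 6 38 (.thr 61 60 (.thr 13 45 (.dbl 14 10 15))))))) .nd)))))))) .nd)))))))))) (.rp 28 (.thr 63 46 (.thr 51 38 (.thr 59 55 (.thr 42 8 (.thr 62 2 (.thr 60 61 (.thr 57 54 (.dbl 41 3 9)))))))) (.rp 19 (.thr 63 46 (.thr 51 38 (.thr 59 55 (.thr 42 8 (.thr 62 2 (.thr 60 61 (.thr 57 54 (.dbl 41 3 9)))))))) .nd)))))))) (.rp 20 (.str 60 (.nv (.thr 28 19 (.thr 12 44 (.thr 29 17 (.thr 30 31 (.thr 15 45 (.thr 14 13 (.dbl 46 62 63))))))) (.nv (.thr 17 29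 (.thr 41 3 (.thr 1 61 (.thr 9 57 (.thr 13 5 (.dbl 49 33 37)))))) (.nv (.thr 28 19 (.thr 12 44 (.thr 51 38 (.thr 57 54 (.dbl 41 3 9))))) (.rp 52 (.str 36 (.nv (.thr 28 19 (.thr 12 44 (.thr 24 48 (.thr 26 27 (.thr 29 17 (.dbl 30 18 31)))))) (.nv (.thr 17 29 (.thr 41 3 (.thr 1 61 (.thr 9 57 (.thr 49 33 (.dbl 13 5 37)))))) (.nv (.thr 3 41 (.thr 28 19 (.thr 12 44 (.thr 6 9 (.dbl 38 51 54))))) (.rp 12 (.str 8 (.nv (.thr 41 3 (.thr 9 57 (.thr 11 10 (.thr 26 56 (.thr 27 24 (.dbl 59 42 43)))))) (.nv (.thr 41 3 (.thr 1 61 (.thr 9 57 (.thr 13 5 (.thr 49 37 (.dbl 17 29 33)))))) (.nv (.thr 42 59 (.thr 62 2 (.thr 61 63 (.dbl 41 1 3)))) (.rp 41 (.thr 29 17 (.thr 28 19 (.thr 30 31 (.thr 45 15 (.thr 42 59 (.thr 62 2 (.dbl 61 13 63))))))) (.rp 3 (.thr 29 17 (.thr 28 19 (.thr 30 31 (.thr 45 15 (.thr 13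 61 (.thr 37 49 (.thr 38 39 (.thr 42 59 (.thr 47 32 (.dbl 46 34 44)))))))))) (.rp 1 (.thr 42 59 (.thr 2 62 (.thr 41 3 (.thr 9 57 (.thr 11 10 (.thr 56 26 (.dbl 40 24 43))))))) .nd))))))) (.rp 8 (.str 12 (.nv (.thr 3 41 (.thr 6 9 (.dbl 38 51 54))) (.nv (.dbl 28 19 44) .nd))) .nd)))))) (.rp 36 (.str 52 (.nv (.thr 19 28 (.thr 17 29 (.thr 3 41 (.thr 48 56 (.dbl 18 16 33))))) (.nv (.thr 37 7 (.thr 5 53 (.thr 13 49 (.thr 1 9 (.dbl 41 3 61))))) (.rp 41 (.thr 28 19 (.thr 29 17 (.thr 30 31 (.thr 48 56 (.thr 37 7 (.dbl 26 15 18)))))) (.rp 12 (.str 8 (.nv (.thr 42 59 (.thr 62 2 (.thr 61 63 (.dbl 41 1 3)))) (.nv (.thr 56 48 (.thr 24 40 (.thr 26 27 (.dbl 41 3 11)))) (.rp 48 (.str 24 (.nv (.thr 40 56 (.thr 41 3 (.dbl 42 43 59))) (.nv (.thr 17 29 (.thr 19 28 (.thr 26 27 (.dbl 16 18 31)))) (.nv (.thr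 26 27 (.thr 56 40 (.dbl 41 3 11))) (.rp 32 (.str 16 (.nv (.thr 40 56 (.thr 17 29 (.dbl 19 18 28))) (.nv (.dbl 26 27 31) (.rp 40 (.str 44 (.nv (.thr 17 29 (.dbl 19 18 28)) (.nv (.dbl 26 27 31) .nd))) .nd)))) (.rp 16 (.str 32 (.nv (.thr 26 27 (.thr 41 3 (.dbl 56 11 40))) (.nv (.thr 42 59 (.dbl 37 7 47)) .nd))) .nd)))))) (.rp 41 (.thr 19 28 (.thr 17 29 (.thr 16 18 (.thr 56 48 (.thr 24 40 (.dbl 26 27 31)))))) (.rp 24 (.thr 48 56 (.thr 17 29 (.thr 3 41 (.thr 18 33 (.dbl 19 16 28))))) (.rp 3 (.thr 19 28 (.thr 17 29 (.thr 16 18 (.thr 48 56 (.thr 37 7 (.dbl 26 15 31)))))) .nd))))))) (.rp 8 (.str 12 (.nv (.thr 3 41 (.thr 6 9 (.dbl 38 51 54))) (.nv (.dbl 28 19 44) .nd))) (.rp 3 (.thr 28 19 (.thr 29 17 (.thr 30 31 (.thr 48 56 (.thr 37 7 (.dbl 26 15 18)))))) .nd))))))) (.rp 12 (.str 8 (.nv (.thr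 41 3 (.thr 9 57 (.thr 11 10 (.thr 26 56 (.thr 27 24 (.dbl 59 42 43)))))) (.nv (.thr 41 3 (.thr 1 61 (.thr 9 57 (.thr 13 5 (.thr 49 37 (.dbl 17 29 33)))))) (.nv (.thr 42 59 (.thr 62 2 (.thr 61 63 (.dbl 41 1 3)))) (.rp 52 (.str 36 (.nv (.thr 41 3 (.thr 9 57 (.thr 11 10 (.thr 26 56 (.thr 27 24 (.dbl 59 42 43)))))) (.nv (.thr 41 3 (.thr 1 61 (.thr 9 57 (.thr 13 5 (.thr 49 37 (.dbl 17 29 33)))))) (.nv (.thr 42 59 (.thr 62 2 (.thr 61 63 (.dbl 41 1 3)))) (.rp 41 (.thr 29 17 (.thr 28 19 (.thr 30 31 (.thr 45 15 (.thr 42 59 (.thr 62 2 (.dbl 61 13 63))))))) (.rp 3 (.thr 29 17 (.thr 28 19 (.thr 30 31 (.thr 45 15 (.thr 13 61 (.thr 37 49 (.thr 38 39 (.thr 42 59 (.thr 47 32 (.dbl 46 34 44)))))))))) (.rp 1 (.thr 42 59 (.thr 2 62 (.thr 41 3 (.thr 9 57 (.thr 11 10 (.thr 56 26 (.dbl 40 24 43))))))) .nd)))))))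 (.rp 41 (.thr 28 19 (.thr 29 17 (.thr 30 31 (.thr 42 59 (.thr 62 2 (.thr 61 63 (.dbl 45 13 15))))))) (.rp 36 (.str 52 (.nv (.thr 42 59 (.thr 62 2 (.thr 61 63 (.dbl 41 1 3)))) (.nv (.thr 56 48 (.thr 24 40 (.thr 26 27 (.dbl 41 3 11)))) (.rp 48 (.str 24 (.nv (.thr 40 56 (.thr 41 3 (.dbl 42 43 59))) (.nv (.thr 17 29 (.thr 19 28 (.thr 26 27 (.dbl 16 18 31)))) (.nv (.thr 26 27 (.thr 56 40 (.dbl 41 3 11))) (.rp 32 (.str 16 (.nv (.thr 40 56 (.thr 17 29 (.dbl 19 18 28))) (.nv (.dbl 26 27 31) (.rp 40 (.str 44 (.nv (.thr 17 29 (.dbl 19 18 28)) (.nv (.dbl 26 27 31) .nd))) .nd)))) (.rp 16 (.str 32 (.nv (.thr 26 27 (.thr 41 3 (.dbl 56 11 40))) (.nv (.thr 42 59 (.dbl 37 7 47)) .nd))) .nd)))))) (.rp 41 (.thr 19 28 (.thr 17 29 (.thr 16 18 (.thr 56 48 (.thr 24 40 (.dbl 26 27 31)))))) (.rp 24 (.thr 48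 56 (.thr 17 29 (.thr 3 41 (.thr 18 33 (.dbl 19 16 28))))) (.rp 3 (.thr 19 28 (.thr 17 29 (.thr 16 18 (.thr 48 56 (.thr 37 7 (.dbl 26 15 31)))))) .nd))))))) (.rp 3 (.thr 28 19 (.thr 29 17 (.thr 30 31 (.thr 42 59 (.thr 45 15 (.thr 13 61 (.thr 37 49 (.thr 47 32 (.thr 46 44 (.dbl 62 2 14)))))))))) (.rp 1 (.thr 42 59 (.thr 2 62 (.thr 41 3 (.thr 9 57 (.thr 11 10 (.thr 56 26 (.dbl 40 24 43))))))) .nd))))))))) (.rp 8 (.str 12 (.nv (.thr 3 41 (.thr 6 9 (.dbl 38 51 54))) (.nv (.dbl 28 19 44) (.rp 52 (.str 36 (.nv (.thr 3 41 (.thr 6 9 (.dbl 38 51 54))) (.nv (.dbl 28 19 44) .nd))) (.rp 36 (.str 52 (.nv (.thr 3 41 (.thr 6 9 (.dbl 38 51 54))) (.nv (.dbl 28 19 44) .nd))) .nd))))) .nd)))))))) (.rp 19 (.str 12 (.nv (.thr 23 20 (.thr 38 51 (.thr 6 54 (.thr 3 9 (.thr 63 43 (.dbl 29 17 46)))))) (.nv (.thr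 23 20 (.thr 29 17 (.thr 63 46 (.thr 3 43 (.thr 9 6 (.dbl 41 57 60)))))) (.nv (.thr 29 17 (.thr 23 20 (.thr 63 46 (.thr 3 43 (.thr 6 9 (.dbl 38 51 54)))))) (.rp 63 (.thr 20 23 (.thr 38 51 (.thr 6 54 (.thr 3 9 (.thr 60 41 (.thr 28 44 (.thr 16 24 (.thr 31 26 (.dbl 29 17 30))))))))) (.rp 60 (.thr 29 17 (.thr 20 23 (.thr 51 38 (.str 26 (.nv (.thr 27 24 (.thr 15 39 (.thr 63 46 (.dbl 31 16 47)))) (.nv (.thr 18 30 (.thr 27 24 (.thr 31 16 (.thr 63 46 (.dbl 15 39 47))))) (.nv (.thr 27 24 (.thr 15 39 (.thr 13 14 (.dbl 37 48 49)))) (.rp 39 (.thr 18 30 (.thr 31 16 (.thr 24 27 (.thr 63 46 (.thr 15 47 (.dbl 48 36 37)))))) (.rp 27 (.thr 31 16 (.thr 18 30 (.thr 63 46 (.thr 59 55 (.thr 15 47 (.thr 48 37 (.thr 58 53 (.dbl 42 8 10)))))))) (.rp 24 (.thr 63 46 (.thr 59 55 (.thr 42 8 (.thr 62 2 (.thr 58 10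 (.thr 50 54 (.dbl 48 49 53))))))) (.rp 18 (.thr 16 31 (.thr 27 24 (.thr 15 39 (.thr 13 14 (.dbl 37 48 49))))) (.rp 16 (.thr 18 30 (.thr 27 24 (.thr 15 39 (.thr 13 14 (.dbl 37 48 49))))) (.rp 15 (.thr 27 24 (.thr 63 46 (.thr 59 55 (.thr 42 8 (.thr 11 43 (.thr 56 41 (.dbl 58 10 57))))))) .nd))))))))))))) (.rp 52 (.thr 29 17 (.thr 63 46 (.thr 51 38 (.thr 59 55 (.thr 42 8 (.thr 62 2 (.thr 60 61 (.thr 3 41 (.dbl 23 20 43))))))))) (.rp 51 (.thr 17 29 (.str 3 (.nv (.thr 41 60 (.dbl 9 6 57)) (.nv (.thr 9 6 (.dbl 41 57 60)) (.rp 60 (.thr 6 9 (.thr 54 38 (.str 37 (.nv (.thr 49 13 (.thr 1 33 (.thr 53 5 (.dbl 61 41 57)))) (.nv (.thr 20 23 (.thr 7 52 (.thr 13 49 (.dbl 15 11 14)))) (.nv (.thr 52 7 (.dbl 53 5 55)) (.rp 20 (.str 40 (.nv (.thr 13 49 (.thr 15 14 (.dbl 7 11 52))) (.nv (.thr 52 7 (.dbl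 53 5 55)) (.rp 52 (.str 36 (.nv (.thr 32 44 (.thr 42 47 (.thr 8 59 (.dbl 24 48 56)))) (.nv (.thr 48 24 (.thr 33 18 (.dbl 49 1 13))) (.rp 48 (.str 56 (.nv (.thr 49 13 (.thr 1 33 (.thr 53 5 (.dbl 61 41 57)))) (.nv (.thr 8 24 (.thr 42 59 (.dbl 32 44 47))) (.rp 49 (.str 50 (.nv (.thr 8 24 (.thr 42 59 (.dbl 62 2 58))) (.nv (.thr 32 44 (.thr 42 47 (.dbl 8 24 59))) (.nv (.thr 62 58 (.thr 42 2 (.dbl 32 44 47))) (.rp 42 (.thr 24 8 (.thr 26 27 (.thr 11 41 (.thr 18 30 (.thr 15 7 (.thr 14 13 (.dbl 2 10 34))))))) (.rp 32 (.str 16 (.nv (.thr 26 31 (.thr 62 58 (.thr 2 42 (.dbl 18 30 34)))) (.nv (.thr 8 24 (.thr 42 59 (.dbl 62 2 58))) (.nv (.thr 24 8 (.dbl 26 27 31)) .nd)))) .nd)))))) (.rp 32 (.str 16 (.nv (.thr 49 13 (.thr 1 33 (.thr 61 41 (.dbl 53 5 57)))) (.nv (.thr 24 8 (.dbl 26 27 31)) (.rp 49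 (.str 50 (.nv (.thr 26 31 (.thr 62 58 (.thr 2 42 (.dbl 18 30 34)))) (.nv (.thr 8 24 (.thr 42 59 (.dbl 62 2 58))) (.nv (.thr 24 8 (.dbl 26 27 31)) .nd)))) .nd)))) (.rp 16 (.thr 32 44 (.thr 42 47 (.dbl 8 24 59))) .nd)))))) (.rp 24 (.thr 53 5 (.thr 49 13 (.thr 1 33 (.dbl 61 41 57)))) .nd))))) (.rp 7 (.thr 53 5 (.thr 49 13 (.thr 1 33 (.dbl 61 41 57)))) .nd))))) .nd))))))) (.rp 57 (.thr 20 23 (.thr 60 41 (.thr 28 44 (.thr 24 16 (.thr 48 36 (.thr 18 33 (.dbl 26 27 30))))))) (.rp 41 (.str 24 (.nv (.thr 48 36 (.thr 33 18 (.thr 49 1 (.thr 37 13 (.dbl 26 15 27))))) (.nv (.thr 20 23 (.thr 16 28 (.dbl 26 27 31))) (.rp 27 (.thr 48 36 (.thr 33 18 (.thr 49 1 (.thr 37 13 (.thr 15 26 (.dbl 7 11 52)))))) (.rp 26 (.thr 20 23 (.thr 28 16 (.thr 48 36 (.thr 33 18 (.thr 49 1 (.thr 37 13 (.thr 52 7 (.dbl 60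 44 56)))))))) (.rp 20 (.thr 26 27 (.thr 18 30 (.dbl 48 33 36))) .nd)))))) (.rp 9 (.thr 20 23 (.thr 60 41 (.thr 28 44 (.thr 24 16 (.thr 48 36 (.thr 18 33 (.dbl 26 27 30))))))) (.rp 6 (.thr 41 60 (.thr 1 61 (.thr 49 33 (.thr 13 37 (.dbl 9 5 57))))) .nd))))))))) (.rp 46 (.thr 20 23 (.thr 38 51 (.thr 6 54 (.thr 3 9 (.thr 60 41 (.thr 28 44 (.thr 16 24 (.thr 31 26 (.dbl 29 17 30))))))))) (.rp 43 (.thr 29 17 (.thr 63 46 (.thr 51 38 (.thr 59 55 (.thr 42 8 (.thr 62 2 (.thr 60 61 (.thr 57 54 (.dbl 41 3 9))))))))) (.rp 40 (.thr 29 17 (.thr 63 46 (.thr 51 38 (.thr 59 55 (.thr 42 8 (.thr 62 2 (.thr 23 20 (.thr 60 61 (.dbl 3 41 43))))))))) (.rp 36 (.thr 29 17 (.thr 63 46 (.thr 51 38 (.thr 59 55 (.thr 42 8 (.thr 62 2 (.thr 60 61 (.thr 57 54 (.dbl 41 3 9))))))))) (.rp 34 (.thr 17 29 (.thr 20 23 (.thr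 38 51 (.thr 6 54 (.thr 3 9 (.thr 60 41 (.thr 28 44 (.thr 24 16 (.thr 48 36 (.thr 18 33 (.dbl 26 27 30))))))))))) (.rp 29 (.thr 20 23 (.thr 38 51 (.thr 6 54 (.thr 3 9 (.thr 60 41 (.thr 28 44 (.thr 24 16 (.thr 48 36 (.thr 18 33 (.dbl 26 27 30)))))))))) (.rp 23 (.thr 29 17 (.thr 63 46 (.thr 51 38 (.thr 59 55 (.thr 42 8 (.thr 62 2 (.thr 60 61 (.thr 57 54 (.dbl 41 3 9))))))))) (.rp 20 (.thr 29 17 (.thr 63 46 (.thr 51 38 (.thr 59 55 (.thr 42 8 (.thr 62 2 (.thr 60 61 (.thr 57 54 (.dbl 41 3 9))))))))) (.rp 17 (.thr 20 23 (.thr 51 38 (.str 16 (.nv (.thr 24 28 (.dbl 26 27 31)) (.rp 31 (.str 27 (.nv (.dbl 24 26 28) (.rp 28 (.thr 26 24 (.thr 15 39 (.thr 13 14 (.dbl 37 48 49)))) (.rp 26 (.thr 28 24 (.thr 60 44 (.thr 57 54 (.dbl 41 3 9)))) (.rp 24 (.thr 15 39 (.thr 13 14 (.thr 37 49 (.thr 7 52 (.thr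 3 11 (.thr 9 6 (.dbl 5 1 53))))))) .nd))))) (.rp 28 (.thr 26 31 (.thr 27 24 (.thr 15 39 (.thr 13 14 (.dbl 37 48 49))))) (.rp 27 (.thr 31 26 (.thr 28 24 (.thr 60 44 (.thr 57 54 (.dbl 41 3 9))))) (.rp 26 (.thr 28 24 (.thr 60 44 (.thr 57 54 (.dbl 41 3 9)))) (.rp 24 (.str 15 (.nv (.thr 13 14 (.thr 26 31 (.thr 27 39 (.dbl 37 48 49)))) (.nv (.thr 13 14 (.thr 37 49 (.dbl 26 31 48))) (.rp 49 (.thr 26 31 (.thr 27 39 (.thr 30 18 (.thr 60 45 (.thr 57 54 (.dbl 41 3 9)))))) (.rp 48 (.thr 26 31 (.thr 27 39 (.thr 30 18 (.thr 60 45 (.thr 57 54 (.dbl 41 3 9)))))) (.rp 37 (.thr 31 26 (.thr 63 47 (.thr 29 46 (.thr 30 28 (.thr 45 60 (.dbl 13 14 61)))))) (.rp 31 (.thr 27 39 (.thr 13 14 (.thr 37 49 (.thr 7 52 (.thr 3 11 (.thr 9 6 (.dbl 5 1 53))))))) (.rp 27 (.thr 31 26 (.thr 63 47 (.thr 29 46 (.thr 30 28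 (.thr 45 60 (.dbl 13 14 61)))))) (.rp 26 (.thr 14 13 (.str 3 (.nv (.thr 41 60 (.dbl 9 6 57)) (.rp 60 (.thr 11 7 (.thr 6 9 (.thr 2 10 (.thr 42 62 (.thr 59 8 (.dbl 27 39 43)))))) (.rp 57 (.thr 6 9 (.thr 2 10 (.thr 60 41 (.thr 30 45 (.dbl 62 42 46))))) (.rp 41 (.thr 11 7 (.thr 6 9 (.thr 2 10 (.thr 42 62 (.thr 59 8 (.dbl 27 39 43)))))) (.rp 31 (.thr 27 39 (.thr 9 6 (.dbl 41 57 60))) (.rp 27 (.str 31 (.nv (.thr 60 41 (.thr 30 45 (.dbl 28 29 44))) (.nv (.thr 41 60 (.dbl 9 6 57)) (.rp 60 (.thr 6 9 (.thr 2 10 (.thr 42 62 (.thr 63 47 (.dbl 59 8 55))))) (.rp 41 (.thr 6 9 (.thr 2 10 (.thr 42 62 (.thr 63 47 (.dbl 59 8 55))))) .nd))))) (.rp 9 (.thr 60 41 (.thr 30 45 (.thr 46 62 (.thr 29 63 (.dbl 28 31 44))))) (.rp 6 (.thr 60 41 (.thr 30 45 (.thr 46 62 (.thr 29 63 (.dbl 28 31 44))))) .nd))))))))))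 (.rp 14 (.thr 26 31 (.thr 27 39 (.thr 30 18 (.thr 60 45 (.thr 57 54 (.dbl 41 3 9)))))) (.rp 13 (.thr 26 31 (.thr 27 39 (.thr 30 18 (.thr 60 45 (.thr 57 54 (.dbl 41 3 9)))))) .nd))))))))))) .nd))))))))) (.rp 9 (.thr 29 17 (.thr 23 20 (.thr 63 46 (.thr 3 43 (.thr 60 41 (.thr 61 62 (.thr 45 13 (.thr 30 15 (.dbl 28 31 44))))))))) (.rp 6 (.thr 29 17 (.thr 23 20 (.thr 63 46 (.thr 3 43 (.thr 60 41 (.thr 61 62 (.thr 45 13 (.thr 30 15 (.dbl 28 31 44))))))))) (.rp 3 (.thr 29 17 (.thr 23 20 (.thr 63 46 (.thr 51 38 (.thr 55 59 (.thr 39 7 (.thr 15 27 (.thr 31 47 (.thr 30 28 (.dbl 26 16 18)))))))))) .nd)))))))))))))))))))) (.rp 17 (.str 51 (.nv (.thr 12 38 (.thr 28 19 (.thr 60 44 (.thr 41 3 (.dbl 57 9 54))))) (.nv (.thr 19 28 (.thr 3 35 (.thr 23 20 (.thr 27 31 (.thr 15 39 (.thr 43 63 (.dbl 11 7 59)))))))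 (.nv (.thr 19 28 (.thr 3 35 (.thr 60 41 (.thr 54 57 (.dbl 38 6 12))))) (.rp 60 (.thr 19 28 (.thr 20 23 (.thr 3 35 (.thr 12 38 (.thr 9 6 (.str 37 (.nv (.thr 7 52 (.thr 15 11 (.thr 27 39 (.dbl 26 24 48)))) (.nv (.thr 5 53 (.dbl 13 1 49)) (.rp 44 (.thr 41 57 (.thr 5 53 (.dbl 1 13 61))) (.rp 41 (.str 44 (.nv (.thr 7 52 (.thr 15 11 (.thr 27 39 (.dbl 26 24 48)))) (.nv (.thr 5 53 (.dbl 13 1 49)) .nd))) .nd)))))))))) (.rp 28 (.str 59 (.nv (.thr 8 42 (.thr 23 20 (.thr 55 63 (.thr 39 7 (.thr 27 15 (.thr 31 19 (.dbl 26 16 24))))))) (.nv (.thr 8 42 (.thr 38 12 (.thr 54 6 (.thr 60 57 (.thr 63 55 (.thr 61 62 (.dbl 41 1 3))))))) (.nv (.thr 23 20 (.thr 55 63 (.thr 7 39 (.thr 52 37 (.thr 54 53 (.dbl 38 6 12)))))) (.nv (.thr 12 38 (.thr 42 8 (.thr 62 2 (.thr 63 55 (.thr 60 61 (.thr 3 41 (.dbl 23 20 43)))))))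 (.rp 63 (.thr 23 20 (.thr 8 42 (.thr 38 12 (.thr 54 6 (.thr 60 57 (.thr 3 41 (.thr 19 35 (.thr 27 31 (.thr 15 39 (.dbl 11 7 43)))))))))) (.rp 60 (.thr 63 55 (.thr 42 8 (.thr 12 38 (.thr 62 2 (.thr 46 29 (.thr 30 14 (.thr 26 18 (.thr 27 24 (.thr 43 11 (.dbl 23 3 20)))))))))) (.rp 55 (.thr 23 20 (.thr 8 42 (.thr 38 12 (.thr 54 6 (.thr 60 57 (.thr 3 41 (.thr 43 63 (.thr 27 11 (.dbl 19 31 35))))))))) (.rp 8 (.thr 12 38 (.thr 23 20 (.thr 63 55 (.thr 3 43 (.thr 9 6 (.dbl 41 57 60)))))) .nd))))))))) (.rp 19 (.thr 20 23 (.thr 12 38 (.str 16 (.nv (.thr 24 28 (.dbl 26 27 31)) (.rp 31 (.str 27 (.nv (.dbl 24 26 28) (.rp 28 (.thr 26 24 (.thr 15 39 (.thr 13 14 (.dbl 37 48 49)))) (.rp 26 (.thr 28 24 (.thr 60 44 (.thr 57 54 (.dbl 41 3 9)))) (.rp 24 (.thr 15 39 (.thr 13 14 (.thr 37 49 (.thr 7 52 (.thr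 3 11 (.thr 9 6 (.dbl 5 1 53))))))) .nd))))) (.rp 28 (.thr 26 31 (.thr 27 24 (.thr 15 39 (.thr 13 14 (.dbl 37 48 49))))) (.rp 27 (.thr 31 26 (.thr 28 24 (.thr 60 44 (.thr 57 54 (.dbl 41 3 9))))) (.rp 26 (.thr 28 24 (.thr 60 44 (.thr 57 54 (.dbl 41 3 9)))) (.rp 24 (.str 15 (.nv (.thr 13 14 (.thr 26 31 (.thr 27 39 (.dbl 37 48 49)))) (.nv (.thr 13 14 (.thr 37 49 (.dbl 26 31 48))) (.rp 49 (.thr 26 31 (.thr 27 39 (.thr 30 18 (.thr 60 45 (.thr 57 54 (.dbl 41 3 9)))))) (.rp 48 (.thr 26 31 (.thr 27 39 (.thr 30 18 (.thr 60 45 (.thr 57 54 (.dbl 41 3 9)))))) (.rp 37 (.thr 31 26 (.thr 63 47 (.thr 29 46 (.thr 30 28 (.thr 45 60 (.dbl 13 14 61)))))) (.rp 31 (.thr 27 39 (.thr 13 14 (.thr 37 49 (.thr 7 52 (.thr 3 11 (.thr 9 6 (.dbl 5 1 53))))))) (.rp 27 (.thr 31 26 (.thr 63 47 (.thr 29 46 (.thr 30 28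 (.thr 45 60 (.dbl 13 14 61)))))) (.rp 26 (.thr 14 13 (.str 3 (.nv (.thr 41 60 (.dbl 9 6 57)) (.rp 60 (.thr 11 7 (.thr 6 9 (.thr 2 10 (.thr 42 62 (.thr 59 8 (.dbl 27 39 43)))))) (.rp 57 (.thr 6 9 (.thr 2 10 (.thr 60 41 (.thr 30 45 (.dbl 62 42 46))))) (.rp 41 (.thr 11 7 (.thr 6 9 (.thr 2 10 (.thr 42 62 (.thr 59 8 (.dbl 27 39 43)))))) (.rp 31 (.thr 27 39 (.thr 9 6 (.dbl 41 57 60))) (.rp 27 (.str 31 (.nv (.thr 60 41 (.thr 30 45 (.dbl 28 29 44))) (.nv (.thr 41 60 (.dbl 9 6 57)) (.rp 60 (.thr 6 9 (.thr 2 10 (.thr 42 62 (.thr 63 47 (.dbl 59 8 55))))) (.rp 41 (.thr 6 9 (.thr 2 10 (.thr 42 62 (.thr 63 47 (.dbl 59 8 55))))) .nd))))) (.rp 9 (.thr 60 41 (.thr 30 45 (.thr 46 62 (.thr 29 63 (.dbl 28 31 44))))) (.rp 6 (.thr 60 41 (.thr 30 45 (.thr 46 62 (.thr 29 63 (.dbl 28 31 44))))) .nd))))))))))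 (.rp 14 (.thr 26 31 (.thr 27 39 (.thr 30 18 (.thr 60 45 (.thr 57 54 (.dbl 41 3 9)))))) (.rp 13 (.thr 26 31 (.thr 27 39 (.thr 30 18 (.thr 60 45 (.thr 57 54 (.dbl 41 3 9)))))) .nd))))))))))) .nd))))))))) (.rp 12 (.str 8 (.nv (.thr 19 28 (.thr 3 35 (.thr 23 20 (.thr 27 31 (.thr 15 39 (.thr 11 7 (.dbl 43 59 63))))))) (.nv (.thr 19 28 (.thr 23 20 (.thr 27 31 (.thr 39 15 (.thr 59 42 (.dbl 55 7 63)))))) (.nv (.thr 19 28 (.thr 3 35 (.thr 59 42 (.thr 63 55 (.dbl 23 20 43))))) (.rp 63 (.thr 19 28 (.thr 23 20 (.thr 27 31 (.thr 59 42 (.thr 11 43 (.thr 3 35 (.dbl 15 7 39))))))) (.rp 60 (.str 24 (.nv (.thr 28 19 (.thr 16 20 (.thr 40 56 (.dbl 26 27 31)))) (.nv (.thr 20 23 (.dbl 28 16 19)) (.rp 28 (.str 44 (.nv (.thr 23 20 (.thr 40 56 (.thr 59 42 (.thr 55 63 (.thr 39 7 (.dbl 27 15 26)))))) (.nv (.thr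 20 23 (.thr 56 40 (.thr 42 59 (.thr 26 27 (.thr 11 41 (.dbl 10 9 58)))))) (.rp 59 (.thr 40 56 (.thr 36 32 (.thr 23 20 (.thr 27 26 (.thr 39 15 (.thr 37 38 (.dbl 7 52 55))))))) (.rp 56 (.thr 59 42 (.thr 27 26 (.thr 55 63 (.thr 39 15 (.dbl 23 7 20))))) (.rp 42 (.thr 40 56 (.thr 36 32 (.thr 23 20 (.thr 27 26 (.thr 39 15 (.thr 37 38 (.dbl 7 52 55))))))) (.rp 40 (.thr 20 23 (.thr 42 59 (.thr 2 62 (.thr 26 27 (.thr 10 58 (.thr 18 30 (.thr 50 34 (.dbl 14 6 38)))))))) (.rp 27 (.thr 40 56 (.thr 32 36 (.thr 42 59 (.thr 47 37 (.thr 46 45 (.thr 38 34 (.dbl 41 35 43))))))) (.rp 26 (.thr 40 56 (.thr 32 36 (.thr 42 59 (.thr 41 43 (.thr 38 35 (.thr 46 34 (.dbl 47 37 45))))))) (.rp 23 (.thr 42 59 (.thr 26 27 (.thr 10 58 (.thr 11 9 (.dbl 56 40 41))))) (.rp 20 (.thr 40 56 (.thr 36 32 (.thr 42 59 (.thr 41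 43 (.thr 38 35 (.thr 39 37 (.dbl 27 15 26))))))) .nd))))))))))) (.rp 20 (.thr 40 56 (.thr 27 26 (.thr 59 42 (.thr 63 55 (.thr 15 39 (.thr 31 47 (.dbl 19 23 28))))))) (.rp 19 (.thr 26 27 (.thr 42 59 (.thr 10 58 (.thr 11 9 (.dbl 56 40 41))))) (.rp 16 (.thr 27 26 (.thr 23 20 (.thr 40 56 (.dbl 19 28 31)))) .nd))))))) (.rp 59 (.thr 19 28 (.thr 23 20 (.thr 27 31 (.thr 24 26 (.thr 40 56 (.thr 3 35 (.thr 43 63 (.dbl 41 42 60)))))))) (.rp 44 (.thr 23 20 (.thr 59 42 (.thr 63 55 (.thr 3 43 (.dbl 19 28 35))))) (.rp 28 (.thr 23 20 (.thr 59 42 (.thr 63 55 (.thr 43 3 (.thr 27 11 (.thr 31 19 (.dbl 26 16 24))))))) (.rp 23 (.thr 19 28 (.thr 59 42 (.thr 63 55 (.thr 3 35 (.thr 60 41 (.thr 61 62 (.thr 57 54 (.thr 58 56 (.dbl 53 48 49))))))))) (.rp 20 (.thr 19 28 (.thr 59 42 (.thr 63 55 (.thr 3 35 (.thr 43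 23 (.thr 11 27 (.thr 9 10 (.dbl 41 57 60)))))))) (.rp 19 (.thr 23 20 (.thr 59 42 (.thr 63 55 (.thr 43 3 (.thr 27 11 (.thr 26 24 (.thr 15 39 (.dbl 31 16 47)))))))) .nd)))))))))))) (.rp 3 (.thr 19 28 (.thr 23 20 (.thr 27 31 (.thr 15 39 (.thr 12 38 (.thr 13 14 (.thr 37 49 (.dbl 26 24 48)))))))) .nd))))))))) (.rp 16 (.str 12 (.nv (.thr 19 28 (.thr 51 38 (.thr 3 35 (.thr 9 6 (.dbl 41 57 60))))) (.nv (.thr 23 20 (.thr 29 17 (.thr 51 38 (.thr 63 46 (.thr 3 43 (.dbl 19 28 35)))))) (.nv (.thr 17 29 (.thr 28 19 (.thr 60 44 (.thr 3 41 (.thr 38 51 (.dbl 6 9 54)))))) (.rp 60 (.thr 29 17 (.thr 19 28 (.thr 63 46 (.thr 51 38 (.thr 3 35 (.dbl 23 20 43)))))) (.rp 51 (.thr 28 19 (.thr 23 20 (.thr 60 44 (.thr 3 41 (.thr 63 43 (.dbl 29 17 46)))))) (.rp 48 (.str 32 (.nv (.thr 23 20 (.thr 38 51 (.thr 6 54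 (.thr 3 9 (.thr 63 43 (.dbl 29 17 46)))))) (.nv (.thr 19 28 (.thr 29 17 (.thr 51 38 (.thr 3 35 (.thr 63 46 (.dbl 23 20 43)))))) (.nv (.thr 28 19 (.thr 60 44 (.thr 3 41 (.thr 6 9 (.dbl 38 51 54))))) (.rp 51 (.thr 28 19 (.thr 23 20 (.thr 60 44 (.thr 3 41 (.thr 63 43 (.dbl 29 17 46)))))) (.rp 38 (.thr 29 17 (.thr 23 20 (.thr 63 46 (.thr 3 43 (.thr 9 6 (.dbl 41 57 60)))))) (.rp 28 (.thr 29 17 (.thr 46 63 (.thr 38 51 (.thr 34 42 (.thr 35 33 (.thr 41 44 (.thr 3 60 (.dbl 9 6 57)))))))) (.rp 17 (.thr 19 28 (.thr 51 38 (.thr 3 35 (.thr 9 6 (.dbl 41 57 60))))) (.rp 3 (.thr 29 17 (.thr 23 20 (.thr 51 38 (.thr 63 46 (.thr 55 59 (.thr 39 7 (.thr 15 27 (.thr 31 47 (.dbl 28 19 30))))))))) .nd))))))))) (.rp 38 (.thr 29 17 (.thr 23 20 (.thr 63 46 (.thr 3 43 (.thr 9 6 (.dbl 41 57 60)))))) (.rp 32 (.str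 48 (.nv (.thr 51 38 (.thr 49 50 (.thr 37 13 (.thr 26 15 (.dbl 24 27 36))))) (.nv (.thr 28 19 (.thr 38 51 (.thr 6 54 (.thr 3 9 (.dbl 60 41 44))))) (.nv (.thr 19 28 (.thr 24 36 (.thr 27 26 (.dbl 23 20 31)))) .nd)))) (.rp 28 (.thr 29 17 (.thr 63 46 (.thr 51 38 (.thr 59 55 (.thr 42 8 (.thr 62 2 (.thr 60 61 (.thr 57 54 (.dbl 41 3 9))))))))) (.rp 19 (.thr 23 20 (.thr 38 51 (.thr 6 54 (.thr 3 9 (.thr 63 43 (.dbl 29 17 46)))))) (.rp 3 (.thr 29 17 (.thr 23 20 (.thr 63 46 (.thr 51 38 (.thr 55 59 (.thr 39 7 (.thr 15 27 (.thr 31 47 (.dbl 28 19 30))))))))) .nd)))))))))))) (.rp 12 .ext (.rp 8 (.str 12 (.nv (.thr 19 28 (.thr 51 38 (.thr 3 35 (.thr 9 6 (.dbl 41 57 60))))) (.nv (.thr 17 29 (.thr 19 28 (.thr 16 18 (.thr 31 26 (.dbl 23 20 27))))) (.rp 28 (.thr 29 17 (.thr 23 20 (.thr 63 46 (.thr 3 43 (.thr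 9 6 (.dbl 41 57 60)))))) (.rp 19 (.thr 29 17 (.thr 23 20 (.thr 63 46 (.thr 3 43 (.thr 9 6 (.dbl 41 57 60)))))) .nd))))) .nd))))))))))))))))

theorem w12 : WinAt (6291456, 17) :=
  chF (K := [(39845888, 4113)]) (kc w11 kn) c12 6291456 17 4
    [4369] (by decide +kernel) (by decide +kernel)

/-- A certificate. -/
noncomputable def c13 : Ct := (.str 26 (.nv (.thr 20 23 (.thr 18 30 (.thr 16 31 (.thr 28 24 (.dbl 19 17 25))))) (.rp 31 (.thr 30 18 (.str 15 (.nv (.thr 48 37 (.thr 60 45 (.thr 41 3 (.dbl 56 11 52)))) (.nv (.thr 60 45 (.thr 3 41 (.thr 7 11 (.dbl 37 48 52)))) (.rp 60 (.thr 20 23 (.str 25 (.nv (.thr 19 28 (.thr 24 27 (.thr 48 37 (.thr 12 36 (.thr 38 51 (.dbl 14 13 50)))))) (.nv (.thr 19 28 (.thr 27 24 (.thr 51 39 (.thr 3 35 (.thr 7 11 (.dbl 37 48 52)))))) (.nv (.thr 27 24 (.thr 51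 39 (.thr 12 38 (.thr 13 14 (.dbl 37 48 49))))) (.rp 51 (.thr 24 27 (.thr 19 28 (.thr 48 37 (.thr 12 36 (.thr 14 13 (.thr 46 62 (.dbl 29 17 63))))))) (.rp 48 (.thr 27 24 (.thr 29 17 (.thr 51 39 (.thr 12 38 (.thr 14 13 (.dbl 46 62 63)))))) (.rp 37 (.thr 27 24 (.thr 51 39 (.thr 38 12 (.thr 14 50 (.thr 62 46 (.thr 2 42 (.dbl 6 10 54))))))) (.rp 27 (.thr 19 28 (.thr 37 48 (.thr 52 7 (.thr 4 36 (.thr 13 49 (.thr 12 14 (.dbl 38 51 55))))))) (.rp 24 (.thr 37 48 (.thr 52 7 (.thr 13 49 (.thr 12 14 (.thr 4 36 (.dbl 38 51 55)))))) (.rp 12 (.thr 27 24 (.thr 39 51 (.thr 37 48 (.thr 36 38 (.dbl 52 4 7))))) .nd))))))))))) (.rp 52 (.thr 23 20 (.thr 60 45 (.thr 3 41 (.thr 7 11 (.thr 43 63 (.thr 39 55 (.thr 51 27 (.dbl 35 19 47)))))))) (.rp 48 (.thr 23 20 (.thr 60 45 (.thr 3 41 (.thr 7 11 (.thr 43 63 (.thr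 39 55 (.thr 51 27 (.dbl 35 19 47)))))))) (.rp 45 (.thr 23 20 (.thr 37 48 (.thr 7 52 (.thr 3 11 (.thr 43 63 (.thr 39 55 (.thr 51 27 (.dbl 35 19 47)))))))) (.rp 41 (.thr 23 20 (.thr 60 45 (.thr 37 48 (.thr 7 52 (.thr 39 55 (.thr 51 27 (.thr 54 57 (.dbl 38 6 36)))))))) (.rp 37 (.str 27 (.nv (.thr 23 20 (.thr 39 51 (.thr 7 55 (.thr 3 11 (.dbl 60 41 45))))) (.nv (.thr 25 24 (.thr 51 39 (.thr 60 45 (.thr 54 57 (.dbl 38 6 12))))) (.rp 60 (.thr 25 24 (.thr 19 28 (.thr 51 39 (.thr 3 35 (.thr 11 7 (.thr 43 59 (.dbl 23 20 63))))))) (.rp 51 (.thr 25 24 (.thr 28 19 (.thr 60 45 (.thr 12 44 (.thr 14 13 (.thr 46 62 (.dbl 29 17 63))))))) (.rp 45 (.thr 25 24 (.thr 19 28 (.thr 51 39 (.thr 3 35 (.thr 11 7 (.dbl 41 56 60)))))) (.rp 41 (.thr 25 24 (.thr 51 39 (.thr 38 12 (.thr 54 6 (.dbl 60 45 57))))) (.rp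 39 (.thr 25 24 (.thr 28 19 (.thr 60 45 (.thr 12 44 (.thr 14 13 (.dbl 38 50 51)))))) .nd)))))))) (.rp 11 (.thr 23 20 (.thr 60 45 (.thr 3 41 (.thr 63 43 (.thr 62 61 (.thr 42 2 (.thr 58 10 (.dbl 48 37 53)))))))) (.rp 3 (.thr 20 23 (.thr 60 45 (.thr 48 37 (.thr 52 56 (.thr 4 36 (.thr 38 55 (.thr 50 14 (.thr 51 49 (.dbl 54 6 57))))))))) .nd)))))))))))) (.rp 30 (.str 15 (.nv (.thr 31 16 (.thr 23 20 (.thr 63 47 (.thr 3 43 (.thr 11 7 (.dbl 41 56 60)))))) (.nv (.thr 23 20 (.thr 31 16 (.thr 48 37 (.thr 27 19 (.thr 51 39 (.thr 50 49 (.thr 38 14 (.dbl 25 12 24)))))))) (.nv (.thr 23 20 (.thr 37 48 (.thr 7 52 (.thr 3 11 (.thr 63 43 (.dbl 31 16 47)))))) (.rp 60 (.thr 31 16 (.thr 63 47 (.thr 48 37 (.thr 58 53 (.thr 42 10 (.thr 62 2 (.thr 50 54 (.thr 51 49 (.thr 55 59 (.dbl 38 4 14)))))))))) (.rp 48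 (.str 27 (.nv (.thr 16 31 (.thr 20 23 (.dbl 24 25 28))) (.nv (.thr 23 20 (.dbl 31 16 19)) (.rp 31 (.thr 25 24 (.thr 19 28 (.thr 29 17 (.thr 51 39 (.thr 3 35 (.thr 11 7 (.dbl 41 56 60))))))) (.rp 23 (.thr 25 24 (.thr 19 28 (.thr 51 39 (.thr 3 35 (.thr 41 60 (.dbl 11 7 56)))))) (.rp 20 (.thr 25 24 (.thr 29 17 (.thr 51 39 (.thr 12 38 (.thr 63 46 (.dbl 31 16 47)))))) (.rp 16 (.str 32 (.nv (.thr 23 20 (.thr 19 31 (.dbl 25 24 28))) (.rp 60 (.thr 25 24 (.thr 29 17 (.thr 51 39 (.thr 12 38 (.thr 63 46 (.thr 31 47 (.dbl 23 19 20))))))) (.rp 40 (.thr 20 23 (.thr 25 24 (.thr 19 28 (.thr 51 39 (.thr 3 35 (.thr 41 60 (.dbl 11 7 56))))))) (.rp 31 (.thr 23 20 (.thr 39 51 (.thr 7 55 (.thr 3 11 (.thr 37 52 (.thr 47 42 (.dbl 43 35 63))))))) (.rp 29 (.thr 23 20 (.thr 31 19 (.thr 39 51 (.thr 7 55 (.thr 3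 11 (.dbl 63 43 47)))))) (.rp 28 (.thr 23 20 (.thr 24 25 (.thr 31 19 (.thr 39 51 (.thr 7 55 (.thr 3 11 (.dbl 63 43 47))))))) (.rp 25 (.thr 23 20 (.thr 19 31 (.thr 51 39 (.thr 3 35 (.thr 11 7 (.dbl 41 56 60)))))) (.rp 24 (.thr 20 23 (.str 36 (.nv (.thr 39 51 (.thr 37 38 (.dbl 52 4 7))) (.nv (.thr 4 52 (.thr 38 55 (.dbl 39 37 51))) (.rp 52 (.thr 39 51 (.thr 37 38 (.thr 47 42 (.thr 43 35 (.thr 11 59 (.thr 3 7 (.dbl 41 56 60))))))) (.rp 51 (.thr 40 44 (.thr 52 4 (.thr 7 37 (.thr 11 3 (.thr 41 56 (.dbl 43 42 59)))))) (.rp 39 (.thr 40 44 (.thr 52 4 (.thr 7 37 (.thr 11 3 (.thr 41 56 (.dbl 43 42 59)))))) (.rp 38 (.thr 40 44 (.thr 52 4 (.thr 7 37 (.thr 11 3 (.thr 41 56 (.dbl 43 42 59)))))) (.rp 37 (.thr 4 52 (.thr 38 55 (.thr 14 50 (.thr 12 13 (.dbl 51 25 39))))) (.rp 4 (.thr 44 40 (.thr 39 51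 (.thr 38 37 (.thr 41 35 (.thr 3 60 (.dbl 11 7 56)))))) .nd)))))))))) (.rp 23 (.thr 25 24 (.thr 28 19 (.thr 51 39 (.thr 12 38 (.thr 60 44 (.thr 41 3 (.dbl 57 9 54))))))) (.rp 20 (.thr 25 24 (.thr 28 19 (.thr 51 39 (.thr 12 38 (.thr 60 44 (.thr 41 3 (.dbl 57 9 54))))))) (.rp 19 (.thr 23 20 (.thr 39 51 (.thr 7 55 (.thr 3 11 (.thr 37 52 (.thr 47 42 (.dbl 43 35 63))))))) .nd)))))))))))) .nd))))))) (.rp 40 (.thr 37 48 (.thr 7 52 (.thr 3 11 (.thr 23 20 (.thr 60 41 (.thr 39 55 (.thr 27 51 (.dbl 31 16 19)))))))) (.rp 31 (.thr 23 20 (.thr 37 48 (.thr 7 52 (.thr 3 11 (.thr 43 63 (.thr 39 55 (.thr 51 27 (.dbl 35 19 47)))))))) (.rp 23 (.thr 31 16 (.thr 63 47 (.thr 48 37 (.thr 58 53 (.thr 42 10 (.thr 62 2 (.thr 60 61 (.thr 56 52 (.dbl 41 3 11))))))))) (.rp 20 (.thr 31 16 (.thr 63 47 (.thr 48 37 (.thr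 58 53 (.thr 42 10 (.thr 62 2 (.thr 60 61 (.thr 56 52 (.dbl 41 3 11))))))))) (.rp 16 (.str 27 (.nv (.thr 48 37 (.thr 51 39 (.thr 50 49 (.thr 38 14 (.dbl 25 12 24))))) (.nv (.thr 23 20 (.thr 19 31 (.dbl 25 24 28))) (.rp 48 (.str 32 (.nv (.thr 23 20 (.thr 19 31 (.dbl 25 24 28))) (.rp 60 (.thr 25 24 (.thr 29 17 (.thr 51 39 (.thr 12 38 (.thr 63 46 (.thr 31 47 (.dbl 23 19 20))))))) (.rp 40 (.thr 20 23 (.thr 25 24 (.thr 19 28 (.thr 51 39 (.thr 3 35 (.thr 41 60 (.dbl 11 7 56))))))) (.rp 31 (.thr 23 20 (.thr 39 51 (.thr 7 55 (.thr 3 11 (.thr 37 52 (.thr 47 42 (.dbl 43 35 63))))))) (.rp 29 (.thr 23 20 (.thr 31 19 (.thr 39 51 (.thr 7 55 (.thr 3 11 (.dbl 63 43 47)))))) (.rp 28 (.thr 23 20 (.thr 24 25 (.thr 31 19 (.thr 39 51 (.thr 7 55 (.thr 3 11 (.dbl 63 43 47))))))) (.rp 25 (.thr 23 20 (.thr 19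 31 (.thr 51 39 (.thr 3 35 (.thr 11 7 (.dbl 41 56 60)))))) (.rp 24 (.thr 20 23 (.str 36 (.nv (.thr 39 51 (.thr 37 38 (.dbl 52 4 7))) (.nv (.thr 4 52 (.thr 38 55 (.dbl 39 37 51))) (.rp 52 (.thr 39 51 (.thr 37 38 (.thr 47 42 (.thr 43 35 (.thr 11 59 (.thr 3 7 (.dbl 41 56 60))))))) (.rp 51 (.thr 40 44 (.thr 52 4 (.thr 7 37 (.thr 11 3 (.thr 41 56 (.dbl 43 42 59)))))) (.rp 39 (.thr 40 44 (.thr 52 4 (.thr 7 37 (.thr 11 3 (.thr 41 56 (.dbl 43 42 59)))))) (.rp 38 (.thr 40 44 (.thr 52 4 (.thr 7 37 (.thr 11 3 (.thr 41 56 (.dbl 43 42 59)))))) (.rp 37 (.thr 4 52 (.thr 38 55 (.thr 14 50 (.thr 12 13 (.dbl 51 25 39))))) (.rp 4 (.thr 44 40 (.thr 39 51 (.thr 38 37 (.thr 41 35 (.thr 3 60 (.dbl 11 7 56)))))) .nd)))))))))) (.rp 23 (.thr 25 24 (.thr 28 19 (.thr 51 39 (.thr 12 38 (.thr 60 44 (.thr 41 3 (.dbl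 57 9 54))))))) (.rp 20 (.thr 25 24 (.thr 28 19 (.thr 51 39 (.thr 12 38 (.thr 60 44 (.thr 41 3 (.dbl 57 9 54))))))) (.rp 19 (.thr 23 20 (.thr 39 51 (.thr 7 55 (.thr 3 11 (.thr 37 52 (.thr 47 42 (.dbl 43 35 63))))))) .nd)))))))))))) (.rp 25 (.thr 23 20 (.thr 39 51 (.thr 7 55 (.dbl 37 48 52)))) (.rp 24 (.thr 51 39 (.thr 48 37 (.thr 50 49 (.thr 38 14 (.thr 54 6 (.thr 60 57 (.thr 56 52 (.dbl 41 3 11)))))))) .nd)))))) .nd))))))))))) (.rp 28 (.str 15 (.nv (.thr 18 30 (.thr 31 16 (.thr 48 37 (.thr 3 33 (.thr 63 47 (.dbl 23 20 43)))))) (.nv (.thr 23 20 (.thr 37 48 (.thr 7 52 (.thr 39 55 (.thr 27 51 (.dbl 31 16 19)))))) (.nv (.thr 30 18 (.thr 60 45 (.thr 3 41 (.thr 7 11 (.dbl 37 48 52))))) (.rp 48 (.thr 30 18 (.thr 23 20 (.thr 60 45 (.thr 3 41 (.thr 63 43 (.dbl 31 16 47)))))) (.rp 37 (.thr 30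 18 (.thr 31 16 (.thr 63 47 (.thr 60 45 (.thr 61 62 (.dbl 41 1 3)))))) .nd)))))) (.rp 27 (.thr 20 23 (.thr 18 30 (.thr 16 31 (.thr 19 17 (.dbl 28 24 25))))) (.rp 25 (.str 15 (.nv (.thr 18 30 (.thr 31 16 (.thr 48 37 (.thr 3 33 (.thr 63 47 (.dbl 23 20 43)))))) (.nv (.thr 23 20 (.thr 37 48 (.thr 7 52 (.thr 39 55 (.thr 27 51 (.dbl 31 16 19)))))) (.nv (.thr 30 18 (.thr 60 45 (.thr 3 41 (.thr 7 11 (.dbl 37 48 52))))) (.rp 48 (.thr 30 18 (.thr 23 20 (.thr 60 45 (.thr 3 41 (.thr 63 43 (.dbl 31 16 47)))))) (.rp 37 (.thr 30 18 (.thr 31 16 (.thr 23 20 (.thr 63 47 (.thr 3 43 (.dbl 60 41 45)))))) .nd)))))) (.rp 24 (.thr 23 20 (.thr 30 18 (.thr 31 16 (.thr 28 29 (.dbl 19 25 27))))) (.rp 23 (.thr 30 18 (.str 15 (.nv (.thr 31 16 (.thr 29 28 (.thr 45 60 (.thr 13 61 (.thr 12 14 (.dbl 63 46 47)))))) (.nv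 (.thr 60 45 (.thr 3 41 (.thr 7 11 (.dbl 37 48 52)))) (.rp 60 (.thr 31 16 (.thr 29 28 (.thr 63 47 (.thr 12 46 (.thr 14 13 (.thr 38 50 (.dbl 25 17 51))))))) (.rp 48 (.thr 16 31 (.thr 60 45 (.thr 3 41 (.thr 7 11 (.str 25 (.nv (.thr 27 24 (.thr 51 39 (.thr 54 57 (.dbl 38 6 12)))) (.nv (.thr 37 52 (.thr 13 49 (.thr 12 14 (.dbl 28 19 44)))) (.nv (.thr 27 24 (.thr 19 28 (.dbl 51 35 39))) (.rp 51 (.thr 27 24 (.thr 28 19 (.thr 37 52 (.thr 12 44 (.dbl 13 14 49))))) (.rp 37 (.str 33 (.nv (.thr 27 24 (.thr 51 39 (.thr 54 57 (.dbl 38 6 12)))) (.nv (.thr 19 28 (.thr 51 35 (.thr 54 57 (.dbl 38 6 12)))) (.nv (.thr 27 24 (.thr 19 28 (.dbl 51 35 39))) (.rp 51 (.thr 27 24 (.thr 28 19 (.thr 12 44 (.thr 14 13 (.thr 46 62 (.dbl 29 17 63)))))) (.rp 12 (.thr 19 28 (.thr 51 35 (.dbl 27 24 39))) .nd)))))) (.rp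 27 (.thr 19 28 (.thr 51 35 (.thr 54 57 (.dbl 38 6 12)))) (.rp 12 (.thr 19 28 (.thr 51 35 (.dbl 27 24 39))) .nd)))))))))))) (.rp 45 (.thr 31 16 (.thr 29 28 (.thr 63 47 (.thr 46 12 (.thr 62 14 (.thr 42 2 (.thr 48 37 (.dbl 58 10 53)))))))) .nd))))))) (.rp 20 (.str 60 (.nv (.thr 30 18 (.thr 15 45 (.thr 31 16 (.thr 63 47 (.thr 62 61 (.thr 46 14 (.dbl 29 12 28))))))) (.nv (.thr 30 18 (.thr 15 45 (.thr 3 41 (.thr 7 11 (.dbl 37 48 52))))) (.rp 48 (.thr 18 30 (.thr 16 31 (.thr 19 17 (.thr 3 41 (.thr 51 35 (.thr 54 57 (.thr 38 6 (.dbl 25 12 28)))))))) (.rp 45 (.thr 31 16 (.thr 41 3 (.thr 56 11 (.thr 48 52 (.thr 15 37 (.thr 63 47 (.dbl 61 1 62))))))) (.rp 30 (.thr 31 16 (.thr 41 3 (.thr 56 11 (.thr 48 52 (.thr 15 37 (.thr 63 47 (.dbl 61 1 62))))))) (.rp 18 (.thr 31 16 (.thr 41 3 (.thr 56 11 (.thr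 48 52 (.thr 15 37 (.thr 63 47 (.dbl 61 1 62))))))) (.rp 15 (.str 10 (.nv (.thr 18 30 (.thr 42 58 (.thr 2 62 (.thr 14 6 (.dbl 50 34 38))))) (.nv (.thr 42 58 (.thr 62 2 (.thr 61 63 (.dbl 41 1 3)))) (.rp 62 (.thr 42 58 (.thr 41 3 (.thr 11 56 (.thr 8 9 (.thr 59 25 (.dbl 43 27 40)))))) (.rp 58 (.thr 18 30 (.thr 16 31 (.thr 19 17 (.thr 41 3 (.thr 11 56 (.thr 9 8 (.dbl 25 28 57))))))) (.rp 42 (.thr 18 30 (.thr 16 31 (.thr 19 17 (.thr 41 3 (.thr 11 56 (.thr 9 8 (.dbl 25 28 57))))))) (.rp 2 (.thr 42 58 (.thr 41 3 (.thr 1 61 (.thr 11 56 (.thr 8 9 (.thr 59 25 (.dbl 43 27 40))))))) .nd))))))) (.rp 10 (.str 15 (.nv (.thr 3 41 (.thr 7 11 (.dbl 37 48 52))) (.nv (.dbl 30 18 45) .nd))) .nd))))))))) (.rp 19 (.str 15 (.nv (.thr 23 20 (.thr 37 48 (.thr 7 52 (.thr 3 11 (.thr 63 43 (.dbl 31 16 47)))))) (.nv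 (.thr 18 30 (.thr 31 16 (.thr 48 37 (.thr 3 33 (.thr 63 47 (.dbl 23 20 43)))))) (.nv (.thr 18 30 (.thr 48 37 (.thr 3 33 (.thr 41 60 (.dbl 11 7 56))))) (.rp 48 (.thr 30 18 (.thr 23 20 (.thr 60 45 (.thr 3 41 (.thr 63 43 (.dbl 31 16 47)))))) (.rp 37 (.thr 31 16 (.thr 23 20 (.thr 63 47 (.thr 3 43 (.thr 11 7 (.dbl 41 56 60)))))) (.rp 20 (.thr 30 18 (.thr 60 45 (.thr 3 41 (.thr 7 11 (.dbl 37 48 52))))) (.rp 3 (.thr 30 18 (.thr 20 23 (.thr 60 45 (.thr 48 37 (.thr 52 56 (.thr 36 4 (.thr 12 24 (.thr 28 44 (.dbl 31 16 29))))))))) .nd)))))))) (.rp 18 (.str 15 (.nv (.thr 23 20 (.thr 31 16 (.thr 63 47 (.thr 3 43 (.thr 11 7 (.dbl 41 56 60)))))) (.nv (.thr 16 31 (.thr 20 23 (.thr 24 28 (.thr 48 37 (.thr 12 36 (.thr 14 13 (.thr 38 50 (.dbl 25 27 51)))))))) (.nv (.thr 23 20 (.thr 37 48 (.thr 7 52 (.thr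 3 11 (.thr 63 43 (.dbl 31 16 47)))))) (.rp 48 (.thr 16 31 (.str 3 (.nv (.thr 41 60 (.dbl 11 7 56)) (.nv (.thr 11 7 (.dbl 41 56 60)) (.rp 60 (.thr 20 23 (.thr 24 28 (.thr 11 7 (.thr 56 41 (.thr 8 40 (.thr 10 9 (.thr 42 58 (.dbl 25 27 59)))))))) (.rp 56 (.thr 23 20 (.thr 7 11 (.thr 55 39 (.thr 38 4 (.thr 54 6 (.dbl 52 37 53)))))) (.rp 41 (.thr 23 20 (.thr 7 11 (.thr 55 39 (.thr 38 4 (.thr 54 6 (.dbl 52 37 53)))))) (.rp 11 (.thr 20 23 (.thr 28 24 (.thr 60 41 (.thr 12 44 (.thr 14 13 (.thr 38 50 (.dbl 25 19 51))))))) (.rp 7 (.thr 20 23 (.thr 28 24 (.thr 60 41 (.thr 12 44 (.thr 14 13 (.thr 38 50 (.dbl 25 19 51))))))) .nd))))))))) (.rp 31 (.thr 23 20 (.thr 37 48 (.thr 7 52 (.thr 3 11 (.thr 43 63 (.thr 39 55 (.thr 51 27 (.dbl 35 19 47)))))))) (.rp 23 (.thr 31 16 (.thr 63 47 (.thr 48 37 (.thr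 58 53 (.thr 42 10 (.thr 62 2 (.thr 60 61 (.thr 56 52 (.dbl 41 3 11))))))))) (.rp 20 (.thr 31 16 (.thr 63 47 (.thr 48 37 (.thr 58 53 (.thr 42 10 (.thr 62 2 (.thr 60 61 (.thr 56 52 (.dbl 41 3 11))))))))) (.rp 16 (.thr 48 37 (.str 19 (.nv (.thr 25 28 (.thr 24 27 (.thr 12 36 (.thr 14 13 (.dbl 38 50 51))))) (.nv (.thr 23 20 (.thr 27 31 (.dbl 25 24 28))) (.rp 28 (.str 24 (.nv (.thr 12 36 (.thr 14 13 (.thr 25 27 (.dbl 38 50 51)))) (.nv (.thr 23 20 (.dbl 27 25 31)) (.rp 27 (.thr 20 23 (.thr 36 12 (.thr 4 52 (.thr 38 55 (.thr 54 6 (.thr 50 14 (.thr 51 49 (.thr 60 57 (.dbl 3 35 41))))))))) (.rp 25 (.thr 23 20 (.thr 31 27 (.thr 63 47 (.thr 3 43 (.thr 11 7 (.dbl 41 56 60)))))) .nd))))) (.rp 27 (.str 31 (.nv (.thr 23 20 (.thr 63 47 (.thr 3 43 (.thr 11 7 (.dbl 41 56 60))))) (.nv (.thr 25 28 (.thr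 29 17 (.thr 63 47 (.thr 12 46 (.thr 14 13 (.dbl 38 50 51)))))) (.nv (.thr 28 25 (.thr 30 29 (.thr 60 45 (.thr 56 52 (.dbl 41 3 11))))) (.rp 28 (.thr 63 47 (.thr 58 53 (.thr 42 10 (.thr 62 2 (.thr 60 61 (.thr 56 52 (.dbl 41 3 11))))))) .nd))))) (.rp 25 (.thr 23 20 (.thr 31 27 (.thr 63 47 (.thr 3 43 (.thr 11 7 (.dbl 41 56 60)))))) (.rp 24 (.thr 23 20 (.thr 28 25 (.thr 31 27 (.thr 30 29 (.thr 60 45 (.thr 56 52 (.dbl 41 3 11))))))) .nd)))))))) .nd))))))))) (.rp 17 (.thr 23 20 (.thr 30 18 (.thr 31 16 (.thr 19 27 (.dbl 28 25 29))))) (.rp 16 (.str 48 (.nv (.thr 15 37 (.thr 30 18 (.thr 60 45 (.thr 41 3 (.dbl 56 11 52))))) (.nv (.thr 15 37 (.thr 18 30 (.thr 3 33 (.thr 41 60 (.dbl 11 7 56))))) (.nv (.thr 18 30 (.thr 3 33 (.thr 60 41 (.thr 52 56 (.dbl 37 7 15))))) (.rp 60 (.thr 18 30 (.thr 20 23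 (.thr 15 37 (.str 19 (.nv (.thr 25 28 (.thr 24 27 (.thr 12 36 (.thr 14 13 (.dbl 38 50 51))))) (.nv (.thr 3 33 (.thr 51 35 (.thr 50 49 (.thr 38 14 (.thr 6 54 (.dbl 12 9 25)))))) (.nv (.thr 25 28 (.thr 27 24 (.thr 3 33 (.dbl 51 35 39)))) (.rp 51 (.thr 25 28 (.thr 24 27 (.thr 12 36 (.thr 14 13 (.thr 38 50 (.thr 3 33 (.dbl 6 9 54))))))) (.rp 25 (.thr 3 33 (.thr 11 7 (.thr 51 35 (.thr 49 50 (.thr 41 56 (.thr 61 1 (.thr 53 57 (.thr 58 63 (.thr 42 10 (.thr 43 40 (.dbl 27 39 59))))))))))) (.rp 12 (.thr 3 33 (.thr 51 35 (.thr 27 39 (.dbl 25 24 28)))) .nd)))))))))) (.rp 56 (.thr 18 30 (.thr 23 20 (.thr 3 33 (.thr 63 43 (.thr 58 53 (.thr 60 41 (.thr 62 61 (.dbl 42 2 10)))))))) (.rp 41 (.str 58 (.nv (.thr 10 42 (.thr 18 30 (.thr 23 20 (.thr 63 53 (.dbl 3 33 43))))) (.nv (.thr 15 37 (.thr 30 18 (.thr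 42 10 (.thr 62 2 (.thr 14 46 (.dbl 50 38 54)))))) (.nv (.thr 18 30 (.thr 63 53 (.thr 3 33 (.dbl 23 20 43)))) (.rp 33 (.thr 30 18 (.thr 42 10 (.thr 15 37 (.thr 45 60 (.thr 62 2 (.thr 50 54 (.dbl 14 38 46))))))) (.rp 30 (.thr 20 23 (.thr 53 63 (.thr 10 42 (.thr 37 15 (.thr 52 7 (.thr 55 54 (.dbl 4 36 38))))))) (.rp 18 (.thr 20 23 (.thr 53 63 (.thr 10 42 (.thr 37 15 (.thr 52 7 (.thr 55 54 (.dbl 4 36 38))))))) (.rp 10 (.thr 15 37 (.thr 18 30 (.thr 23 20 (.thr 63 53 (.dbl 3 33 43))))) (.rp 3 (.thr 30 18 (.thr 23 20 (.thr 63 53 (.thr 15 37 (.thr 31 47 (.thr 19 27 (.dbl 28 25 29))))))) .nd))))))))) (.rp 37 (.thr 18 30 (.thr 23 20 (.thr 3 33 (.thr 43 63 (.thr 41 60 (.thr 40 42 (.thr 11 56 (.thr 27 59 (.thr 19 31 (.dbl 25 24 28)))))))))) (.rp 30 (.str 10 (.nv (.thr 23 20 (.thr 37 15 (.thr 58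 42 (.thr 63 53 (.thr 3 43 (.thr 33 18 (.dbl 41 45 60))))))) (.nv (.thr 15 37 (.thr 42 58 (.thr 2 62 (.thr 14 6 (.thr 12 13 (.thr 24 36 (.thr 25 27 (.dbl 38 50 51)))))))) (.nv (.thr 20 23 (.thr 37 15 (.thr 52 7 (.thr 4 36 (.thr 55 38 (.thr 53 54 (.dbl 58 42 63))))))) (.rp 58 (.thr 20 23 (.thr 37 15 (.thr 52 7 (.thr 60 56 (.thr 4 36 (.thr 55 38 (.thr 54 53 (.thr 51 57 (.thr 59 63 (.thr 49 50 (.thr 3 41 (.thr 25 13 (.dbl 19 28 35))))))))))))) (.rp 42 (.thr 20 23 (.thr 37 15 (.thr 52 7 (.thr 60 56 (.thr 4 36 (.thr 55 38 (.thr 54 53 (.thr 51 57 (.thr 49 50 (.thr 3 41 (.thr 25 13 (.dbl 19 28 35)))))))))))) (.rp 37 (.thr 23 20 (.thr 42 58 (.thr 2 62 (.thr 14 6 (.thr 50 38 (.thr 18 34 (.thr 3 33 (.thr 43 63 (.dbl 41 40 60))))))))) (.rp 15 (.thr 23 20 (.thr 42 58 (.thr 2 62 (.thr 14 6 (.thr 50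 38 (.thr 18 34 (.thr 3 33 (.thr 43 63 (.dbl 41 40 60))))))))) .nd)))))))) (.rp 18 (.thr 15 37 (.str 19 (.nv (.thr 25 28 (.thr 24 27 (.thr 12 36 (.thr 14 13 (.dbl 38 50 51))))) (.nv (.thr 23 20 (.thr 27 31 (.dbl 25 24 28))) (.rp 28 (.str 24 (.nv (.thr 12 36 (.thr 14 13 (.thr 25 27 (.dbl 38 50 51)))) (.nv (.thr 23 20 (.dbl 27 25 31)) (.rp 27 (.thr 20 23 (.thr 36 12 (.thr 4 52 (.thr 38 55 (.thr 54 6 (.thr 50 14 (.thr 51 49 (.thr 60 57 (.dbl 3 35 41))))))))) (.rp 25 (.thr 23 20 (.thr 31 27 (.thr 63 47 (.thr 3 43 (.thr 11 7 (.dbl 41 56 60)))))) .nd))))) (.rp 27 (.str 31 (.nv (.thr 23 20 (.thr 63 47 (.thr 3 43 (.thr 11 7 (.dbl 41 56 60))))) (.nv (.thr 25 28 (.thr 29 17 (.thr 63 47 (.thr 12 46 (.thr 14 13 (.dbl 38 50 51)))))) (.nv (.thr 28 25 (.thr 30 29 (.thr 60 45 (.thr 56 52 (.dbl 41 3 11)))))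 (.rp 28 (.thr 63 47 (.thr 58 53 (.thr 42 10 (.thr 62 2 (.thr 60 61 (.thr 56 52 (.dbl 41 3 11))))))) .nd))))) (.rp 25 (.thr 23 20 (.thr 31 27 (.thr 63 47 (.thr 3 43 (.thr 11 7 (.dbl 41 56 60)))))) (.rp 24 (.thr 23 20 (.thr 28 25 (.thr 31 27 (.thr 30 29 (.thr 60 45 (.thr 56 52 (.dbl 41 3 11))))))) .nd)))))))) (.rp 15 (.str 10 (.nv (.thr 42 58 (.thr 2 62 (.thr 14 6 (.thr 50 38 (.dbl 18 30 34))))) (.nv (.thr 18 30 (.thr 58 42 (.thr 63 53 (.thr 3 33 (.dbl 23 20 43))))) (.rp 58 (.thr 18 30 (.thr 20 23 (.thr 3 33 (.thr 60 41 (.thr 52 56 (.thr 4 36 (.thr 38 55 (.thr 14 50 (.dbl 6 2 54))))))))) (.rp 42 (.thr 18 30 (.thr 20 23 (.thr 3 33 (.thr 60 41 (.thr 52 56 (.thr 4 36 (.thr 38 55 (.thr 14 50 (.dbl 6 2 54))))))))) (.rp 30 (.thr 23 20 (.thr 42 58 (.thr 2 62 (.thr 14 6 (.thr 50 38 (.thr 18 34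 (.thr 3 33 (.thr 43 63 (.dbl 41 40 60))))))))) (.rp 18 (.str 19 (.nv (.thr 23 20 (.thr 27 31 (.dbl 25 24 28))) (.rp 63 (.thr 25 28 (.thr 24 27 (.thr 42 58 (.thr 8 59 (.thr 11 9 (.dbl 56 40 41)))))) (.rp 60 (.thr 25 28 (.thr 24 27 (.thr 29 17 (.thr 58 42 (.thr 63 53 (.dbl 12 36 46)))))) (.rp 47 (.thr 23 20 (.thr 58 42 (.thr 27 31 (.thr 63 53 (.dbl 25 24 28))))) (.rp 40 (.thr 25 28 (.thr 24 27 (.thr 29 17 (.thr 58 42 (.thr 63 53 (.dbl 12 36 46)))))) (.rp 31 (.thr 25 28 (.thr 24 27 (.thr 29 17 (.thr 58 42 (.thr 63 53 (.dbl 12 36 46)))))) (.rp 28 (.thr 42 58 (.thr 2 62 (.thr 14 6 (.thr 50 38 (.thr 51 49 (.thr 3 35 (.thr 41 60 (.thr 11 56 (.thr 8 9 (.thr 59 25 (.dbl 43 27 40))))))))))) (.rp 27 (.thr 23 20 (.thr 58 42 (.thr 63 53 (.thr 3 43 (.thr 51 35 (.thr 59 55 (.thr 56 57 (.dbl 60 41 52))))))))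 (.rp 25 (.thr 23 20 (.thr 58 42 (.thr 63 53 (.thr 3 43 (.thr 51 35 (.thr 59 55 (.thr 56 57 (.dbl 60 41 52)))))))) (.rp 24 (.thr 28 25 (.thr 23 20 (.thr 31 27 (.thr 29 30 (.thr 58 42 (.thr 63 53 (.thr 12 46 (.thr 60 44 (.dbl 3 41 43))))))))) (.rp 23 (.thr 25 28 (.thr 24 27 (.thr 29 17 (.thr 58 42 (.thr 63 53 (.dbl 12 36 46)))))) (.rp 20 (.thr 25 28 (.thr 24 27 (.thr 29 17 (.thr 58 42 (.thr 63 53 (.dbl 12 36 46)))))) .nd))))))))))))) .nd))))))) (.rp 3 (.thr 30 18 (.thr 20 23 (.thr 15 37 (.thr 60 45 (.thr 52 56 (.thr 4 36 (.thr 38 55 (.thr 50 14 (.thr 51 49 (.dbl 54 6 57)))))))))) .nd)))))))))))) (.rp 15 (.str 10 (.nv (.thr 18 30 (.thr 42 58 (.thr 2 62 (.thr 14 6 (.dbl 50 34 38))))) (.nv (.thr 30 18 (.thr 31 16 (.thr 28 29 (.thr 19 25 (.dbl 23 20 27))))) (.rp 30 (.thr 16 31 (.thr 20 23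 (.thr 28 24 (.thr 19 25 (.thr 18 17 (.thr 42 58 (.thr 2 62 (.thr 14 6 (.dbl 50 34 38))))))))) (.rp 18 (.str 28 (.nv (.thr 31 16 (.thr 29 30 (.dbl 25 17 19))) (.nv (.thr 20 23 (.dbl 16 24 31)) (.rp 31 (.thr 20 23 (.thr 24 16 (.dbl 25 19 27))) (.rp 16 (.thr 25 19 (.thr 17 29 (.thr 24 27 (.thr 42 58 (.thr 8 59 (.thr 11 9 (.dbl 56 40 41))))))) .nd))))) .nd))))) (.rp 10 (.str 15 (.nv (.thr 18 30 (.thr 48 37 (.thr 3 33 (.thr 11 7 (.dbl 41 56 60))))) (.nv (.thr 16 31 (.thr 20 23 (.thr 18 30 (.thr 28 24 (.dbl 19 17 25))))) (.rp 30 (.thr 31 16 (.thr 23 20 (.thr 27 19 (.thr 39 51 (.thr 7 55 (.dbl 37 48 52)))))) (.rp 18 (.thr 31 16 (.thr 23 20 (.thr 63 47 (.thr 3 43 (.thr 11 7 (.dbl 41 56 60)))))) .nd))))) .nd))))))))))))))))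

theorem w13 : WinAt (6291456, 33) :=
  chF (K := []) kn c13 6291456 33 5
    [33825] (by decide +kernel) (by decide +kernel)

/-- A certificate. -/
noncomputable def c14 : Ct := (.str 26 (.nv (.thr 20 23 (.thr 18 30 (.thr 16 31 (.thr 28 24 (.dbl 19 17 25))))) (.rp 31 (.str 48 (.nv (.thr 18 30 (.thr 3 33 (.thr 23 20 (.thr 37 15 (.thr 63 43 (.dbl 53 5 58)))))) (.nv (.thr 20 23 (.thr 37 15 (.thr 52 7 (.thr 4 36 (.thr 55 38 (.dbl 53 5 54)))))) (.nv (.thr 15 37 (.thr 30 18 (.thr 60 45 (.thr 56 52 (.dbl 41 3 11))))) (.rp 37 (.thr 18 30 (.thr 23 20 (.thr 3 33 (.thr 63 43 (.thr 58 53 (.thr 42 10 (.thr 2 62 (.thr 50 34 (.thr 51 49 (.thr 55 59 (.dbl 38 4 14))))))))))) (.rp 15 (.thr 18 30 (.thr 23 20 (.thr 3 33 (.thr 63 43 (.thr 58 53 (.thr 60 41 (.thr 62 61 (.dbl 42 2 10)))))))) (.rp 3 (.thr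 30 18 (.thr 20 23 (.thr 15 37 (.thr 60 45 (.thr 52 56 (.thr 4 36 (.thr 38 55 (.thr 14 50 (.thr 12 13 (.thr 25 51 (.dbl 28 19 44))))))))))) .nd))))))) (.rp 30 (.str 37 (.nv (.thr 7 52 (.thr 15 48 (.thr 3 11 (.thr 23 20 (.thr 63 43 (.dbl 31 16 47)))))) (.nv (.thr 20 23 (.thr 52 7 (.thr 4 36 (.thr 55 38 (.dbl 53 5 54))))) (.rp 52 (.thr 20 23 (.thr 16 31 (.thr 28 24 (.thr 19 25 (.thr 18 17 (.thr 48 15 (.thr 3 33 (.thr 51 35 (.thr 49 50 (.thr 60 41 (.thr 57 54 (.dbl 53 5 61)))))))))))) (.rp 36 (.thr 23 20 (.thr 48 15 (.thr 52 7 (.thr 60 56 (.thr 3 41 (.thr 63 43 (.dbl 53 5 58))))))) (.rp 23 (.thr 16 31 (.thr 48 15 (.thr 52 7 (.thr 60 56 (.thr 3 41 (.thr 18 33 (.thr 19 17 (.thr 28 25 (.thr 24 20 (.dbl 12 36 44)))))))))) (.rp 20 (.thr 16 31 (.thr 48 15 (.thr 52 7 (.thr 60 56 (.thr 3 41 (.thr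 18 33 (.thr 19 17 (.thr 51 35 (.thr 49 50 (.dbl 25 13 28)))))))))) (.rp 7 (.thr 20 23 (.thr 16 31 (.thr 28 24 (.thr 19 25 (.thr 18 17 (.thr 48 15 (.thr 3 33 (.thr 51 35 (.thr 49 50 (.thr 60 41 (.thr 57 54 (.dbl 53 5 61)))))))))))) (.rp 4 (.thr 20 23 (.thr 16 31 (.thr 28 24 (.thr 19 25 (.thr 18 17 (.thr 48 15 (.thr 3 33 (.thr 60 41 (.dbl 52 7 56))))))))) .nd))))))))) (.rp 28 (.str 3 (.nv (.thr 18 30 (.thr 23 20 (.thr 48 33 (.thr 37 15 (.thr 63 43 (.dbl 53 5 58)))))) (.nv (.thr 31 16 (.thr 41 60 (.thr 11 56 (.thr 15 7 (.thr 63 47 (.dbl 23 20 43)))))) (.nv (.thr 30 18 (.thr 60 41 (.thr 15 45 (.thr 7 11 (.dbl 37 48 52))))) (.rp 60 (.thr 18 30 (.thr 31 16 (.thr 48 33 (.thr 15 37 (.thr 63 47 (.dbl 23 20 43)))))) (.rp 48 (.thr 23 20 (.thr 30 18 (.thr 63 43 (.thr 60 41 (.thr 15 45 (.dbl 31 16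 47)))))) (.rp 15 (.thr 23 20 (.thr 43 63 (.thr 41 60 (.thr 40 42 (.thr 11 56 (.thr 27 59 (.dbl 31 16 19))))))) .nd))))))) (.rp 27 (.thr 20 23 (.thr 18 30 (.thr 16 31 (.thr 19 17 (.dbl 28 24 25))))) (.rp 25 (.str 3 (.nv (.thr 16 31 (.thr 18 30 (.thr 17 19 (.thr 33 48 (.thr 1 49 (.dbl 41 60 61)))))) (.nv (.thr 18 30 (.thr 41 60 (.thr 11 56 (.thr 48 33 (.dbl 15 7 37))))) (.rp 60 (.thr 18 30 (.thr 31 16 (.thr 48 33 (.thr 15 37 (.thr 63 47 (.dbl 23 20 43)))))) (.rp 48 (.thr 23 20 (.thr 30 18 (.thr 63 43 (.thr 60 41 (.thr 15 45 (.dbl 31 16 47)))))) (.rp 41 (.thr 23 20 (.thr 18 30 (.thr 31 16 (.thr 48 33 (.thr 63 43 (.dbl 15 37 47)))))) (.rp 37 (.thr 23 20 (.thr 30 18 (.thr 31 16 (.thr 63 43 (.thr 15 47 (.dbl 60 41 45)))))) (.rp 33 (.thr 30 18 (.thr 60 41 (.thr 15 45 (.thr 37 48 (.dbl 7 11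 52))))) (.rp 30 (.thr 23 20 (.thr 31 16 (.thr 27 19 (.thr 43 63 (.thr 11 59 (.dbl 41 56 60)))))) (.rp 18 (.thr 23 20 (.thr 31 16 (.thr 63 43 (.thr 15 47 (.thr 7 11 (.dbl 37 48 52)))))) .nd)))))))))) (.rp 24 (.thr 23 20 (.thr 30 18 (.thr 31 16 (.thr 28 29 (.dbl 19 25 27))))) (.rp 23 (.str 60 (.nv (.thr 30 18 (.thr 15 45 (.thr 31 16 (.thr 29 28 (.thr 63 47 (.thr 62 61 (.dbl 46 12 14))))))) (.nv (.thr 30 18 (.thr 15 45 (.thr 48 37 (.thr 56 52 (.dbl 41 3 11))))) (.rp 48 (.thr 30 18 (.thr 45 15 (.thr 41 3 (.thr 33 37 (.thr 1 61 (.thr 17 49 (.thr 25 29 (.thr 28 19 (.thr 12 44 (.thr 51 38 (.dbl 57 9 54))))))))))) (.rp 45 (.thr 18 30 (.thr 3 41 (.thr 48 33 (.thr 37 15 (.dbl 52 7 56))))) (.rp 30 (.thr 31 16 (.thr 41 3 (.thr 56 11 (.thr 48 52 (.thr 15 37 (.thr 63 47 (.dbl 61 1 62))))))) (.rp 18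 (.thr 31 16 (.thr 41 3 (.thr 56 11 (.thr 48 52 (.thr 15 37 (.thr 63 47 (.dbl 61 1 62))))))) (.rp 15 (.thr 18 30 (.thr 16 31 (.thr 19 17 (.thr 28 25 (.thr 24 20 (.thr 12 44 (.thr 48 36 (.dbl 3 33 41)))))))) .nd)))))))) (.rp 20 (.str 60 (.nv (.thr 30 18 (.thr 15 45 (.thr 31 16 (.thr 63 47 (.thr 61 62 (.dbl 41 1 3)))))) (.nv (.thr 30 18 (.thr 15 45 (.thr 3 41 (.thr 7 11 (.dbl 37 48 52))))) (.rp 48 (.thr 30 18 (.thr 45 15 (.thr 41 3 (.thr 33 37 (.thr 1 61 (.thr 17 49 (.thr 25 29 (.thr 28 19 (.thr 12 44 (.thr 51 38 (.dbl 57 9 54))))))))))) (.rp 45 (.thr 18 30 (.thr 3 41 (.thr 48 33 (.thr 37 15 (.dbl 52 7 56))))) (.rp 41 (.thr 30 18 (.thr 31 16 (.thr 15 45 (.thr 63 47 (.thr 62 61 (.thr 46 14 (.dbl 29 12 28))))))) (.rp 30 (.thr 31 16 (.thr 41 3 (.thr 56 11 (.thr 48 52 (.thr 15 37 (.thr 63 47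 (.dbl 61 1 62))))))) (.rp 18 (.thr 31 16 (.thr 41 3 (.thr 56 11 (.thr 48 52 (.thr 15 37 (.thr 63 47 (.dbl 61 1 62))))))) (.rp 15 (.thr 18 30 (.thr 16 31 (.thr 19 17 (.thr 3 41 (.thr 51 35 (.thr 54 57 (.thr 48 33 (.thr 52 56 (.thr 53 55 (.dbl 37 5 7)))))))))) (.rp 3 (.thr 30 18 (.thr 31 16 (.thr 15 45 (.thr 63 47 (.thr 62 61 (.thr 46 14 (.dbl 29 12 28))))))) .nd)))))))))) (.rp 19 (.str 3 (.nv (.thr 23 20 (.thr 31 16 (.thr 63 43 (.thr 15 47 (.thr 11 7 (.dbl 41 56 60)))))) (.nv (.thr 18 30 (.thr 23 20 (.thr 31 16 (.thr 48 33 (.thr 63 43 (.dbl 15 37 47)))))) (.nv (.thr 18 30 (.thr 48 33 (.thr 60 41 (.thr 52 56 (.dbl 37 7 15))))) (.rp 60 (.thr 18 30 (.thr 31 16 (.thr 48 33 (.thr 15 37 (.thr 63 47 (.dbl 23 20 43)))))) (.rp 48 (.thr 23 20 (.thr 30 18 (.thr 63 43 (.thr 60 41 (.thr 15 45 (.dbl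 31 16 47)))))) (.rp 18 (.thr 23 20 (.thr 43 63 (.thr 41 60 (.thr 40 42 (.thr 61 1 (.thr 11 56 (.thr 7 15 (.thr 27 59 (.thr 25 24 (.thr 57 9 (.thr 53 49 (.dbl 37 5 52)))))))))))) (.rp 15 (.thr 23 20 (.thr 18 30 (.thr 48 33 (.thr 63 43 (.thr 53 58 (.thr 60 41 (.thr 52 56 (.dbl 37 5 7)))))))) .nd)))))))) (.rp 18 (.thr 20 23 (.str 37 (.nv (.thr 16 31 (.thr 24 28 (.thr 48 15 (.thr 36 12 (.dbl 52 4 7))))) (.nv (.thr 52 7 (.thr 4 36 (.thr 55 38 (.dbl 53 5 54)))) (.rp 52 (.str 1 (.nv (.thr 5 53 (.thr 13 9 (.thr 16 31 (.thr 28 24 (.dbl 25 19 49))))) (.nv (.thr 53 5 (.thr 61 41 (.thr 49 57 (.thr 25 13 (.dbl 17 29 33))))) (.nv (.thr 5 53 (.thr 13 9 (.thr 25 49 (.thr 61 41 (.dbl 29 17 45))))) (.rp 53 (.thr 16 31 (.thr 24 28 (.thr 41 61 (.thr 33 45 (.thr 49 17 (.dbl 25 13 27)))))) (.rp 49 (.thr 16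 31 (.thr 24 28 (.thr 5 53 (.thr 13 9 (.thr 61 41 (.thr 29 45 (.dbl 25 17 27))))))) (.rp 25 (.thr 16 31 (.thr 28 24 (.thr 15 48 (.thr 5 53 (.thr 13 9 (.thr 12 14 (.thr 60 44 (.dbl 41 3 61)))))))) (.rp 13 (.thr 16 31 (.thr 24 28 (.thr 53 5 (.thr 61 41 (.thr 49 57 (.thr 17 33 (.dbl 25 27 29))))))) (.rp 5 (.thr 16 31 (.thr 24 28 (.thr 41 61 (.thr 33 45 (.thr 17 49 (.dbl 25 27 29)))))) .nd))))))))) (.rp 36 (.thr 16 31 (.thr 15 48 (.thr 7 52 (.thr 3 11 (.thr 60 41 (.thr 28 24 (.thr 12 44 (.thr 13 14 (.dbl 25 19 49))))))))) (.rp 7 (.thr 16 31 (.thr 24 28 (.thr 48 15 (.thr 36 12 (.thr 4 52 (.dbl 38 39 55)))))) (.rp 5 (.thr 16 31 (.thr 28 24 (.thr 15 48 (.thr 7 52 (.thr 3 11 (.thr 60 41 (.thr 12 44 (.thr 13 14 (.dbl 25 19 49))))))))) (.rp 4 (.thr 16 31 (.thr 28 24 (.thr 15 48 (.thr 7 52 (.thr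 3 11 (.thr 60 41 (.thr 12 44 (.thr 13 14 (.dbl 25 19 49))))))))) .nd))))))))) (.rp 17 (.thr 23 20 (.thr 30 18 (.thr 31 16 (.thr 19 27 (.dbl 28 25 29))))) (.rp 16 (.str 48 (.nv (.thr 18 30 (.thr 3 33 (.thr 23 20 (.thr 37 15 (.thr 63 43 (.dbl 53 5 58)))))) (.nv (.thr 20 23 (.thr 37 15 (.thr 52 7 (.thr 4 36 (.thr 55 38 (.dbl 53 5 54)))))) (.nv (.thr 18 30 (.thr 3 33 (.thr 60 41 (.thr 52 56 (.dbl 37 7 15))))) (.rp 37 (.thr 18 30 (.thr 23 20 (.thr 3 33 (.thr 43 63 (.thr 41 60 (.thr 40 42 (.thr 11 56 (.thr 27 59 (.thr 19 31 (.dbl 25 24 28)))))))))) (.rp 15 (.thr 18 30 (.thr 23 20 (.thr 3 33 (.thr 63 43 (.thr 58 53 (.thr 60 41 (.thr 62 61 (.dbl 42 2 10)))))))) (.rp 3 (.thr 30 18 (.thr 20 23 (.thr 15 37 (.thr 60 45 (.thr 52 56 (.thr 36 4 (.thr 12 24 (.thr 28 44 (.thr 29 31 (.dbl 25 17 19))))))))))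 .nd))))))) .nd))))))))))))))

theorem w14 : WinAt (6291456, 65) :=
  chF (K := []) kn c14 6291456 65 6
    [] (by decide +kernel) (by decide +kernel)

/-- A certificate. -/
noncomputable def c15 : Ct := (.str 19 (.nv (.thr 20 23 (.thr 28 25 (.thr 16 24 (.thr 26 31 (.dbl 18 17 30))))) (.nv (.thr 25 28 (.thr 17 29 (.thr 16 18 (.thr 31 26 (.dbl 23 20 27))))) (.rp 31 (.str 3 (.nv (.thr 23 20 (.thr 25 28 (.thr 29 17 (.thr 63 43 (.thr 12 46 (.thr 9 6 (.dbl 41 57 60))))))) (.nv (.thr 23 20 (.thr 25 28 (.thr 29 17 (.thr 51 35 (.thr 63 43 (.dbl 12 38 46)))))) (.nv (.thr 25 28 (.thr 51 35 (.thr 60 41 (.thr 54 57 (.dbl 38 6 12))))) (.rp 60 (.thr 25 28 (.thr 29 17 (.thr 51 35 (.thr 12 38 (.thr 63 46 (.dbl 23 20 43)))))) (.rp 51 (.thr 25 28 (.thr 41 60 (.thr 61 1 (.thr 57 9 (.thr 49 53 (.thr 13 37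 (.dbl 29 17 45))))))) (.rp 29 (.thr 51 35 (.thr 60 41 (.thr 54 57 (.thr 38 6 (.dbl 25 12 28))))) (.rp 28 (.thr 23 20 (.thr 51 35 (.thr 63 43 (.thr 55 59 (.thr 38 4 (.thr 6 54 (.dbl 12 9 25))))))) (.rp 25 (.thr 23 20 (.thr 51 35 (.thr 63 43 (.thr 55 59 (.thr 38 4 (.thr 60 41 (.dbl 54 6 57))))))) (.rp 12 (.thr 23 20 (.thr 51 35 (.thr 63 43 (.thr 55 59 (.thr 60 41 (.thr 54 57 (.dbl 38 4 6))))))) .nd)))))))))) (.rp 30 (.thr 23 20 (.thr 31 27 (.thr 16 26 (.thr 17 18 (.dbl 25 28 29))))) (.rp 28 (.str 26 (.nv (.thr 23 20 (.dbl 31 16 27)) (.nv (.thr 18 30 (.dbl 16 17 31)) (.rp 31 (.thr 30 18 (.str 60 (.nv (.thr 15 45 (.thr 48 37 (.thr 56 52 (.dbl 41 3 11)))) (.rp 56 (.thr 23 20 (.thr 3 41 (.thr 51 35 (.thr 54 57 (.thr 38 6 (.thr 63 43 (.dbl 55 4 59))))))) (.rp 52 (.thr 23 20 (.thr 3 41 (.thr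 51 35 (.thr 54 57 (.thr 38 6 (.thr 63 43 (.dbl 55 4 59))))))) (.rp 48 (.thr 23 20 (.thr 3 41 (.thr 51 35 (.thr 54 57 (.thr 38 6 (.thr 63 43 (.dbl 55 4 59))))))) (.rp 45 (.thr 23 20 (.thr 3 41 (.thr 51 35 (.thr 54 57 (.thr 38 6 (.thr 63 43 (.dbl 55 4 59))))))) (.rp 41 (.str 54 (.nv (.thr 38 6 (.thr 51 57 (.thr 25 12 (.thr 27 24 (.dbl 15 39 45))))) (.nv (.thr 15 45 (.thr 37 48 (.thr 51 57 (.thr 39 27 (.dbl 38 6 36))))) (.nv (.thr 38 6 (.thr 14 50 (.thr 15 45 (.thr 12 13 (.dbl 51 25 57))))) (.nv (.thr 15 45 (.thr 37 48 (.thr 53 5 (.thr 55 52 (.dbl 38 4 6))))) (.rp 45 (.thr 23 20 (.thr 51 57 (.thr 38 6 (.thr 3 35 (.thr 63 43 (.dbl 55 4 59)))))) (.rp 38 (.thr 23 20 (.thr 51 57 (.thr 15 45 (.thr 37 48 (.thr 53 5 (.thr 55 52 (.thr 63 59 (.dbl 3 35 43)))))))) (.rp 15 (.thr 23 20 (.thr 51 57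 (.thr 38 6 (.thr 3 35 (.thr 63 43 (.dbl 55 4 59)))))) (.rp 6 (.thr 23 20 (.thr 51 57 (.thr 3 35 (.thr 63 43 (.thr 62 61 (.thr 50 58 (.dbl 14 38 46))))))) .nd))))))))) (.rp 37 (.thr 23 20 (.thr 3 41 (.thr 51 35 (.thr 54 57 (.thr 38 6 (.thr 63 43 (.dbl 55 4 59))))))) (.rp 33 (.thr 15 45 (.thr 48 37 (.thr 41 3 (.dbl 56 11 52)))) (.rp 15 (.thr 23 20 (.thr 3 41 (.thr 51 35 (.thr 54 57 (.thr 38 6 (.thr 63 43 (.dbl 55 4 59))))))) (.rp 11 (.thr 23 20 (.thr 3 41 (.thr 51 35 (.thr 54 57 (.thr 38 6 (.thr 63 43 (.dbl 55 4 59))))))) (.rp 3 (.thr 20 23 (.thr 15 45 (.thr 48 37 (.thr 52 56 (.thr 36 4 (.thr 12 24 (.thr 14 13 (.thr 50 38 (.thr 62 46 (.thr 54 58 (.dbl 51 49 57))))))))))) .nd))))))))))))) (.rp 16 (.str 48 (.nv (.thr 20 23 (.thr 15 37 (.thr 30 18 (.thr 60 45 (.thr 41 3 (.dbl 56 11 52))))))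 (.nv (.thr 18 30 (.thr 3 33 (.thr 51 35 (.thr 50 49 (.thr 38 14 (.thr 6 54 (.dbl 12 9 25))))))) (.nv (.thr 30 18 (.thr 15 37 (.thr 60 45 (.thr 56 52 (.dbl 41 3 11))))) (.rp 30 (.str 25 (.nv (.thr 29 17 (.thr 24 27 (.thr 12 36 (.thr 63 46 (.thr 53 58 (.dbl 37 5 15)))))) (.nv (.thr 20 23 (.thr 37 15 (.thr 5 53 (.thr 13 49 (.thr 1 9 (.thr 61 41 (.dbl 29 17 45))))))) (.nv (.thr 24 27 (.thr 12 36 (.thr 51 38 (.thr 49 50 (.dbl 37 13 15))))) (.rp 37 (.thr 24 27 (.thr 29 17 (.thr 23 20 (.thr 12 36 (.thr 63 46 (.thr 3 43 (.dbl 51 35 38))))))) (.rp 29 (.str 31 (.nv (.dbl 27 23 24) (.rp 27 (.thr 37 15 (.thr 49 13 (.thr 51 50 (.thr 3 35 (.thr 33 18 (.dbl 41 45 60)))))) (.rp 24 (.thr 20 23 (.thr 37 15 (.thr 49 13 (.thr 51 50 (.thr 3 35 (.thr 33 18 (.dbl 41 45 60))))))) (.rp 23 (.thr 24 27 (.thr 12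 36 (.thr 51 38 (.thr 49 50 (.dbl 37 13 15))))) (.rp 20 (.thr 24 27 (.thr 12 36 (.thr 51 38 (.thr 49 50 (.dbl 37 13 15))))) .nd)))))) (.rp 15 (.thr 24 27 (.thr 12 36 (.thr 51 38 (.thr 3 35 (.thr 9 6 (.dbl 41 57 60)))))) .nd))))))) (.rp 20 (.str 24 (.nv (.thr 18 30 (.thr 3 33 (.thr 25 27 (.thr 51 35 (.dbl 12 36 38))))) (.nv (.thr 12 36 (.thr 15 37 (.thr 14 13 (.thr 25 27 (.dbl 38 50 51))))) (.nv (.thr 15 37 (.thr 30 18 (.thr 60 45 (.thr 41 3 (.dbl 56 11 52))))) (.rp 60 (.str 40 (.nv (.thr 12 36 (.thr 18 30 (.thr 3 33 (.thr 6 9 (.thr 38 54 (.dbl 51 25 35)))))) (.nv (.thr 8 56 (.thr 25 27 (.thr 42 59 (.thr 58 10 (.thr 53 63 (.dbl 37 5 15)))))) (.nv (.thr 12 36 (.thr 15 37 (.thr 14 13 (.thr 25 27 (.dbl 38 50 51))))) (.rp 51 (.thr 18 30 (.thr 25 27 (.thr 56 8 (.thr 12 36 (.thr 3 33 (.thr 9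 6 (.dbl 41 11 57))))))) (.rp 25 (.thr 36 12 (.thr 44 32 (.thr 37 15 (.thr 38 39 (.thr 41 35 (.dbl 56 8 11)))))) (.rp 15 (.thr 25 27 (.thr 12 36 (.thr 51 38 (.thr 3 35 (.dbl 18 30 33))))) (.rp 12 (.str 44 (.nv (.thr 8 56 (.thr 18 30 (.thr 3 33 (.thr 35 51 (.thr 38 41 (.thr 36 32 (.dbl 37 15 39))))))) (.nv (.thr 15 37 (.thr 18 30 (.thr 3 33 (.thr 27 25 (.dbl 51 35 39))))) (.nv (.thr 8 56 (.thr 25 27 (.thr 32 36 (.thr 42 59 (.dbl 37 15 47))))) (.rp 37 (.thr 18 30 (.thr 25 27 (.thr 3 33 (.thr 35 51 (.thr 41 38 (.dbl 56 8 11)))))) (.rp 15 (.thr 30 18 (.thr 25 27 (.thr 32 36 (.thr 8 56 (.thr 42 59 (.thr 47 37 (.thr 46 45 (.dbl 62 2 14)))))))) (.rp 8 (.str 4 (.nv (.thr 18 30 (.thr 3 33 (.thr 35 51 (.dbl 38 41 55)))) (.nv (.thr 15 37 (.thr 18 30 (.thr 3 33 (.thr 27 25 (.dbl 51 35 39))))) (.nv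 (.thr 36 32 (.thr 38 55 (.dbl 37 15 39))) (.rp 15 (.thr 38 55 (.thr 35 41 (.thr 3 51 (.dbl 18 30 33)))) .nd))))) .nd))))))) .nd)))))))) (.rp 40 (.str 60 (.nv (.thr 56 52 (.dbl 41 3 11)) (.nv (.thr 30 18 (.dbl 15 37 45)) .nd))) .nd)))))) (.rp 18 (.str 24 (.nv (.thr 27 25 (.dbl 23 20 31)) (.rp 31 (.thr 25 27 (.thr 12 36 (.thr 51 38 (.thr 49 50 (.dbl 37 13 15))))) (.rp 27 (.thr 20 23 (.thr 36 12 (.thr 4 52 (.thr 37 15 (.dbl 38 39 55))))) (.rp 25 (.thr 20 23 (.thr 36 12 (.thr 4 52 (.thr 37 15 (.dbl 38 39 55))))) (.rp 23 (.thr 25 27 (.thr 12 36 (.thr 51 38 (.thr 49 50 (.dbl 37 13 15))))) (.rp 20 (.thr 25 27 (.thr 12 36 (.thr 51 38 (.thr 49 50 (.dbl 37 13 15))))) .nd))))))) (.rp 3 (.thr 30 18 (.thr 20 23 (.thr 15 37 (.thr 60 45 (.thr 52 56 (.thr 36 4 (.thr 12 24 (.thr 14 13 (.thr 62 46 (.thr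 2 42 (.thr 6 10 (.dbl 38 50 54)))))))))))) .nd)))))))) .nd))))) (.rp 26 (.str 3 (.nv (.thr 25 28 (.thr 51 35 (.thr 38 12 (.thr 60 41 (.dbl 54 6 57))))) (.nv (.thr 20 23 (.thr 25 28 (.thr 17 29 (.thr 18 16 (.thr 41 60 (.thr 1 61 (.dbl 33 48 49))))))) (.nv (.thr 25 28 (.thr 41 60 (.thr 9 57 (.thr 51 35 (.dbl 12 6 38))))) (.rp 60 (.thr 25 28 (.thr 29 17 (.thr 51 35 (.thr 12 38 (.thr 63 46 (.dbl 23 20 43)))))) (.rp 41 (.thr 23 20 (.thr 25 28 (.thr 29 17 (.thr 51 35 (.thr 63 43 (.dbl 12 38 46)))))) (.rp 28 (.thr 23 20 (.thr 51 35 (.thr 63 43 (.thr 55 59 (.thr 38 4 (.thr 6 54 (.dbl 12 9 25))))))) (.rp 25 (.thr 23 20 (.thr 51 35 (.thr 63 43 (.thr 55 59 (.thr 38 4 (.thr 60 41 (.dbl 54 6 57))))))) (.rp 12 (.thr 23 20 (.thr 31 27 (.thr 63 43 (.thr 15 47 (.thr 60 41 (.thr 30 45 (.dbl 28 25 29)))))))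 .nd))))))))) (.rp 25 (.thr 23 20 (.str 60 (.nv (.thr 3 41 (.thr 31 27 (.thr 26 16 (.thr 18 30 (.thr 48 33 (.thr 37 15 (.thr 63 43 (.dbl 53 5 58)))))))) (.nv (.thr 3 41 (.thr 51 35 (.thr 63 43 (.thr 55 59 (.thr 38 4 (.dbl 54 6 57)))))) (.nv (.thr 31 27 (.thr 26 16 (.thr 30 18 (.thr 15 45 (.thr 63 47 (.dbl 3 41 43)))))) (.rp 63 (.thr 31 27 (.thr 26 16 (.thr 30 18 (.thr 15 45 (.thr 48 37 (.thr 56 52 (.dbl 41 3 11))))))) (.rp 43 (.thr 31 27 (.thr 26 16 (.thr 30 18 (.thr 15 45 (.thr 48 37 (.thr 56 52 (.dbl 41 3 11))))))) (.rp 41 (.thr 31 27 (.thr 26 16 (.thr 30 18 (.thr 15 45 (.thr 63 47 (.thr 62 61 (.thr 46 14 (.dbl 29 12 28)))))))) (.rp 27 (.thr 3 41 (.thr 51 35 (.thr 57 54 (.thr 63 43 (.thr 61 62 (.thr 59 55 (.thr 53 49 (.dbl 58 48 56)))))))) (.rp 3 (.thr 31 27 (.thr 26 16 (.thr 30 18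 (.thr 15 45 (.thr 63 47 (.thr 62 61 (.thr 46 14 (.dbl 29 12 28)))))))) .nd)))))))))) (.rp 23 (.thr 25 28 (.thr 17 29 (.thr 16 18 (.thr 31 26 (.str 41 (.nv (.thr 1 61 (.thr 9 57 (.thr 13 5 (.dbl 49 33 37)))) (.nv (.thr 3 60 (.thr 51 35 (.thr 9 57 (.dbl 12 6 38)))) (.rp 57 (.thr 3 60 (.thr 51 35 (.thr 1 61 (.thr 49 33 (.thr 13 37 (.thr 9 5 (.dbl 12 6 38))))))) (.rp 55 (.str 39 (.nv (.thr 1 61 (.thr 9 57 (.thr 13 5 (.dbl 49 33 37)))) (.nv (.thr 3 60 (.thr 51 35 (.thr 9 57 (.dbl 12 6 38)))) (.rp 57 (.thr 3 60 (.thr 51 35 (.thr 15 27 (.thr 1 61 (.thr 49 33 (.thr 13 37 (.dbl 12 14 38))))))) (.rp 9 (.thr 3 60 (.thr 51 35 (.thr 15 27 (.thr 1 61 (.thr 49 33 (.thr 13 37 (.dbl 12 14 38))))))) (.rp 6 (.thr 1 61 (.thr 49 33 (.thr 9 57 (.dbl 13 5 37)))) .nd)))))) (.rp 39 (.str 55 (.nv (.thr 1 61 (.thr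 9 57 (.thr 49 33 (.dbl 13 5 37)))) (.nv (.thr 38 4 (.thr 35 44 (.dbl 51 3 12))) (.rp 5 (.thr 3 60 (.thr 51 35 (.dbl 38 4 12))) (.rp 3 (.thr 1 61 (.thr 9 57 (.thr 13 5 (.dbl 49 33 37)))) .nd))))) (.rp 9 (.thr 3 60 (.thr 35 51 (.thr 44 38 (.thr 1 61 (.thr 33 49 (.thr 32 34 (.thr 40 36 (.thr 42 43 (.dbl 37 45 47))))))))) (.rp 6 (.thr 1 61 (.thr 49 33 (.thr 9 57 (.dbl 13 5 37)))) .nd)))))))))))) (.rp 20 (.str 18 (.nv (.thr 17 16 (.dbl 25 28 29)) (.nv (.thr 26 30 (.dbl 16 17 31)) (.rp 60 (.str 40 (.nv (.thr 17 16 (.dbl 25 28 29)) (.nv (.thr 16 17 (.dbl 26 30 31)) (.rp 17 (.thr 26 30 (.thr 31 16 (.thr 27 23 (.dbl 25 24 28)))) (.rp 16 (.thr 26 30 (.thr 25 28 (.thr 24 27 (.thr 8 56 (.thr 42 59 (.thr 2 62 (.thr 50 34 (.thr 14 38 (.dbl 10 6 58))))))))) .nd))))) (.rp 40 (.str 60 (.nv (.thr 17 16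 (.dbl 25 28 29)) (.nv (.thr 26 30 (.dbl 16 17 31)) (.rp 17 (.thr 26 30 (.thr 31 16 (.thr 27 23 (.dbl 25 24 28)))) (.rp 16 (.thr 3 41 (.thr 51 35 (.thr 54 57 (.thr 38 6 (.dbl 25 12 28))))) .nd))))) (.rp 17 (.thr 26 30 (.thr 31 16 (.thr 27 23 (.dbl 25 24 28)))) (.rp 16 (.thr 28 25 (.str 60 (.nv (.thr 3 41 (.thr 30 26 (.thr 15 45 (.thr 51 35 (.thr 27 39 (.dbl 31 23 29)))))) (.nv (.thr 3 41 (.thr 26 30 (.thr 48 33 (.thr 51 35 (.thr 50 49 (.thr 38 14 (.dbl 54 6 57))))))) (.nv (.thr 30 26 (.thr 29 31 (.thr 12 44 (.thr 15 45 (.thr 46 63 (.dbl 14 13 62)))))) (.rp 48 (.str 32 (.nv (.thr 3 41 (.thr 30 26 (.thr 15 45 (.thr 31 29 (.thr 27 23 (.dbl 51 35 39)))))) (.nv (.thr 3 41 (.thr 12 44 (.thr 26 30 (.thr 35 51 (.thr 34 33 (.thr 50 2 (.thr 38 14 (.dbl 6 9 54)))))))) (.nv (.thr 30 26 (.thr 29 31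 (.thr 12 44 (.thr 63 46 (.thr 61 62 (.dbl 45 13 15)))))) (.rp 45 (.thr 26 30 (.thr 44 12 (.thr 41 3 (.thr 38 35 (.thr 50 14 (.thr 2 34 (.thr 62 42 (.dbl 54 6 58)))))))) (.rp 37 (.thr 30 26 (.thr 15 45 (.thr 29 31 (.thr 12 44 (.thr 46 63 (.dbl 14 13 62)))))) (.rp 30 (.thr 44 12 (.thr 36 40 (.thr 41 3 (.thr 38 35 (.thr 37 39 (.thr 45 33 (.dbl 47 42 46))))))) (.rp 26 (.thr 44 12 (.thr 36 40 (.thr 41 3 (.thr 38 35 (.thr 37 39 (.thr 45 33 (.dbl 47 42 46))))))) .nd)))))))) (.rp 45 (.thr 26 30 (.thr 12 44 (.thr 3 41 (.thr 48 33 (.thr 37 15 (.thr 36 24 (.thr 38 39 (.dbl 6 9 54)))))))) (.rp 44 (.thr 30 26 (.thr 29 31 (.thr 45 15 (.thr 61 13 (.dbl 41 1 3))))) (.rp 32 (.str 48 (.nv (.dbl 3 33 41) (.rp 41 (.thr 30 26 (.thr 29 31 (.thr 12 44 (.thr 63 46 (.thr 61 62 (.dbl 45 13 15)))))) (.rp 33 (.thr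 26 30 (.thr 56 52 (.dbl 41 3 11))) (.rp 3 (.thr 30 26 (.thr 29 31 (.thr 12 44 (.thr 63 46 (.thr 61 62 (.dbl 45 13 15)))))) .nd))))) (.rp 30 (.thr 3 41 (.thr 51 35 (.thr 57 54 (.thr 48 33 (.thr 49 50 (.thr 56 52 (.thr 53 61 (.dbl 58 59 63)))))))) (.rp 26 (.thr 3 41 (.thr 51 35 (.thr 57 54 (.thr 48 33 (.thr 49 50 (.thr 56 52 (.thr 53 61 (.dbl 58 59 63)))))))) .nd))))))))))) .nd))))))) (.rp 18 (.str 3 (.nv (.thr 23 20 (.thr 25 28 (.thr 27 31 (.thr 43 63 (.thr 59 11 (.thr 42 8 (.dbl 41 40 60))))))) (.nv (.thr 25 28 (.thr 51 35 (.thr 60 41 (.thr 54 57 (.dbl 38 6 12))))) (.rp 60 (.thr 25 28 (.thr 29 17 (.thr 51 35 (.thr 12 38 (.thr 63 46 (.dbl 23 20 43)))))) (.rp 41 (.thr 23 20 (.thr 25 28 (.thr 29 17 (.thr 51 35 (.thr 63 43 (.dbl 12 38 46)))))) (.rp 28 (.thr 23 20 (.thr 51 35 (.thr 63 43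 (.thr 55 59 (.thr 38 4 (.thr 6 54 (.dbl 12 9 25))))))) (.rp 25 (.thr 23 20 (.thr 51 35 (.thr 63 43 (.thr 55 59 (.thr 38 4 (.thr 60 41 (.dbl 54 6 57))))))) (.rp 12 (.thr 23 20 (.thr 31 27 (.thr 28 25 (.thr 30 29 (.thr 63 43 (.thr 15 47 (.dbl 60 41 45))))))) .nd)))))))) (.rp 17 (.thr 23 20 (.thr 31 27 (.thr 26 16 (.thr 30 18 (.dbl 28 25 29))))) (.rp 16 (.str 3 (.nv (.thr 51 35 (.thr 60 41 (.thr 54 57 (.thr 38 6 (.dbl 25 12 28))))) (.nv (.thr 23 20 (.thr 28 25 (.thr 31 27 (.thr 29 30 (.thr 63 43 (.thr 12 46 (.dbl 60 41 44))))))) (.nv (.thr 25 28 (.thr 51 35 (.thr 12 38 (.thr 41 60 (.dbl 9 6 57))))) (.rp 60 (.thr 25 28 (.thr 29 17 (.thr 51 35 (.thr 12 38 (.thr 63 46 (.dbl 23 20 43)))))) (.rp 48 (.str 32 (.nv (.thr 51 35 (.thr 60 41 (.thr 54 57 (.thr 38 6 (.dbl 25 12 28))))) (.nv (.thr 23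 20 (.thr 35 51 (.thr 43 63 (.thr 47 39 (.thr 42 37 (.dbl 41 40 60)))))) (.nv (.thr 25 28 (.thr 51 35 (.thr 60 41 (.thr 54 57 (.dbl 38 6 12))))) (.rp 60 (.thr 51 35 (.thr 25 28 (.thr 12 38 (.thr 29 17 (.thr 63 46 (.dbl 23 20 43)))))) (.rp 51 (.thr 23 20 (.thr 28 25 (.thr 31 27 (.thr 29 30 (.thr 60 41 (.thr 12 44 (.dbl 63 43 46))))))) (.rp 41 (.thr 51 35 (.thr 23 20 (.thr 63 43 (.thr 55 59 (.thr 38 4 (.dbl 25 12 28)))))) (.rp 38 (.thr 35 51 (.thr 25 28 (.thr 33 34 (.thr 17 29 (.thr 41 60 (.dbl 1 49 61)))))) (.rp 35 (.thr 23 20 (.thr 28 25 (.thr 31 27 (.thr 29 30 (.thr 60 41 (.thr 63 43 (.dbl 12 44 46))))))) (.rp 28 (.thr 35 51 (.thr 41 60 (.thr 44 38 (.thr 40 36 (.thr 43 42 (.dbl 23 20 63)))))) .nd)))))))))) (.rp 41 (.thr 23 20 (.thr 51 35 (.thr 63 43 (.thr 55 59 (.thr 38 4 (.dbl 25 12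 28)))))) (.rp 32 (.str 48 (.nv (.thr 18 33 (.thr 28 25 (.thr 30 26 (.thr 31 29 (.dbl 23 20 27))))) (.nv (.thr 20 23 (.thr 28 25 (.thr 60 41 (.thr 52 56 (.thr 36 4 (.dbl 12 24 44)))))) (.nv (.thr 33 18 (.thr 51 35 (.thr 49 50 (.thr 1 17 (.dbl 41 60 61))))) .nd)))) (.rp 28 (.str 48 (.nv (.thr 18 33 (.thr 26 30 (.thr 51 35 (.thr 50 49 (.thr 38 14 (.thr 6 54 (.dbl 12 9 25))))))) (.nv (.thr 33 18 (.thr 41 60 (.thr 37 45 (.thr 53 5 (.thr 63 58 (.dbl 23 20 43)))))) (.nv (.thr 20 23 (.thr 51 35 (.thr 60 41 (.thr 52 56 (.thr 4 36 (.thr 54 57 (.dbl 38 6 55))))))) (.nv (.thr 33 18 (.thr 51 35 (.thr 49 50 (.thr 1 17 (.dbl 41 60 61))))) (.rp 20 (.str 24 (.nv (.thr 12 36 (.thr 9 6 (.thr 18 33 (.thr 26 30 (.thr 25 27 (.dbl 41 57 60)))))) (.nv (.thr 33 18 (.thr 51 35 (.thr 49 50 (.thr 1 17 (.dbl 41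 60 61))))) (.nv (.thr 51 35 (.thr 12 36 (.thr 6 9 (.dbl 38 25 54)))) (.rp 60 (.str 40 (.nv (.thr 18 33 (.thr 26 30 (.thr 15 37 (.thr 27 25 (.dbl 51 35 39))))) (.nv (.thr 12 36 (.thr 6 9 (.thr 51 35 (.dbl 38 25 54)))) (.rp 51 (.thr 18 33 (.thr 56 8 (.thr 12 36 (.thr 9 6 (.thr 26 30 (.thr 41 11 (.dbl 25 27 57))))))) (.rp 35 (.thr 18 33 (.thr 12 36 (.thr 6 9 (.thr 38 54 (.thr 26 30 (.dbl 25 27 51)))))) (.rp 25 (.thr 18 33 (.thr 51 35 (.thr 50 49 (.thr 12 36 (.thr 6 9 (.thr 38 54 (.dbl 26 14 30))))))) (.rp 12 (.str 44 (.nv (.thr 18 33 (.thr 26 30 (.thr 15 37 (.thr 27 25 (.dbl 51 35 39))))) (.nv (.thr 32 36 (.thr 33 18 (.dbl 35 34 51))) (.rp 51 (.thr 32 36 (.thr 18 33 (.thr 26 30 (.thr 25 27 (.thr 8 56 (.thr 42 59 (.dbl 37 15 47))))))) (.rp 35 (.thr 32 36 (.thr 18 33 (.thr 26 30 (.thr 25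 27 (.thr 8 56 (.thr 42 59 (.dbl 37 15 47))))))) (.rp 33 (.thr 36 32 (.thr 35 51 (.thr 38 41 (.thr 37 39 (.thr 15 26 (.thr 53 5 (.thr 63 58 (.thr 23 43 (.dbl 31 27 47))))))))) (.rp 18 (.thr 32 36 (.thr 8 56 (.thr 35 51 (.thr 34 33 (.thr 38 41 (.thr 42 46 (.thr 37 47 (.thr 26 15 (.dbl 25 27 59))))))))) (.rp 8 (.str 4 (.nv (.thr 32 36 (.thr 33 18 (.dbl 35 34 51))) (.nv (.thr 38 55 (.dbl 35 41 51)) (.rp 51 (.thr 32 36 (.thr 33 18 (.thr 38 55 (.dbl 35 34 41)))) (.rp 35 (.thr 18 33 (.thr 26 30 (.thr 25 27 (.thr 38 55 (.thr 50 14 (.thr 49 51 (.dbl 37 13 15))))))) .nd))))) (.rp 4 (.thr 8 56 (.thr 33 18 (.thr 35 51 (.dbl 32 34 36)))) .nd))))))))) .nd))))))) (.rp 40 (.thr 60 41 (.thr 51 35 (.thr 12 36 (.thr 6 9 (.dbl 38 25 54))))) .nd)))))) .nd)))))) (.rp 25 (.thr 23 20 (.thr 51 35 (.thr 63 43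 (.thr 55 59 (.thr 38 4 (.thr 60 41 (.dbl 54 6 57))))))) (.rp 12 (.thr 23 20 (.thr 31 27 (.thr 28 25 (.thr 30 29 (.thr 63 43 (.thr 15 47 (.dbl 60 41 45))))))) .nd))))))))))) .nd)))))))))))))

theorem w15 : WinAt (6291456, 129) :=
  chF (K := []) kn c15 6291456 129 7
    [] (by decide +kernel) (by decide +kernel)

/-- A certificate. -/
noncomputable def c16 : Ct := (.str 25 (.nv (.thr 28 19 (.thr 16 24 (.thr 31 26 (.dbl 29 17 30)))) (.nv (.thr 12 51 (.thr 3 9 (.thr 60 41 (.dbl 28 19 44)))) (.nv (.thr 29 17 (.thr 28 19 (.thr 31 30 (.dbl 16 24 26)))) (.rp 28 (.str 14 (.nv (.thr 12 51 (.thr 3 9 (.dbl 15 11 13))) (.nv (.thr 26 50 (.thr 30 18 (.thr 62 46 (.dbl 2 10 42)))) (.rp 34 (.thr 12 51 (.thr 17 29 (.thr 15 13 (.dbl 3 9 11)))) (.rp 15 (.thr 10 2 (.thr 12 51 (.thr 3 9 (.thr 60 41 (.thr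 26 50 (.thr 18 30 (.dbl 48 33 56))))))) (.rp 10 (.str 15 (.nv (.thr 3 11 (.thr 9 12 (.dbl 41 57 60))) (.nv (.dbl 12 13 51) (.rp 12 (.thr 26 50 (.thr 30 18 (.thr 60 45 (.dbl 3 11 41)))) (.rp 11 (.str 9 (.nv (.thr 3 12 (.dbl 41 57 60)) (.nv (.dbl 12 3 13) (.rp 12 (.thr 41 57 (.thr 60 3 (.thr 30 45 (.dbl 26 18 50)))) (.rp 3 (.dbl 12 13 51) .nd))))) (.rp 9 (.thr 11 3 (.dbl 12 13 51)) .nd)))))) .nd)))))) (.rp 19 (.thr 12 51 (.thr 3 9 (.thr 60 41 (.thr 28 44 (.thr 16 24 (.thr 31 26 (.dbl 29 17 30))))))) (.rp 17 (.thr 51 12 (.thr 19 28 (.thr 3 35 (.thr 60 41 (.thr 48 56 (.thr 50 49 (.thr 26 14 (.dbl 18 30 33)))))))) (.rp 15 (.str 10 (.nv (.thr 12 51 (.thr 3 9 (.thr 60 41 (.dbl 28 19 44)))) (.nv (.thr 14 2 (.thr 28 19 (.thr 16 24 (.dbl 26 31 50)))) (.nv (.thr 29 17 (.thr 28 19 (.thr 31 30 (.dbl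 16 24 26)))) (.rp 48 (.str 26 (.nv (.thr 16 31 (.dbl 24 27 28)) (.nv (.dbl 14 2 50) (.rp 24 (.thr 12 51 (.dbl 14 2 50)) (.rp 16 (.str 32 (.nv (.dbl 14 2 50) (.rp 50 (.thr 2 14 (.dbl 42 58 62)) (.rp 24 (.thr 12 51 (.dbl 14 2 50)) (.rp 14 (.thr 12 51 (.thr 3 9 (.thr 28 19 (.dbl 60 41 44)))) (.rp 12 (.thr 24 27 (.dbl 14 2 50)) (.rp 2 (.thr 12 51 (.thr 3 9 (.thr 28 19 (.dbl 60 41 44)))) .nd))))))) (.rp 12 (.thr 24 27 (.dbl 14 2 50)) .nd)))))) (.rp 28 (.thr 12 51 (.thr 3 9 (.thr 2 14 (.thr 60 41 (.thr 62 42 (.thr 63 61 (.dbl 29 17 46))))))) (.rp 26 (.str 48 (.nv (.thr 12 51 (.thr 3 9 (.thr 17 29 (.thr 19 28 (.dbl 18 16 33))))) (.nv (.thr 12 51 (.thr 60 56 (.dbl 3 9 41))) (.nv (.thr 19 28 (.thr 51 12 (.thr 3 35 (.dbl 60 41 56)))) (.rp 60 (.thr 19 28 (.thr 17 29 (.thr 18 16 (.thr 3 33 (.dbl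 51 12 35))))) (.rp 51 (.thr 28 19 (.thr 60 56 (.thr 12 44 (.dbl 3 9 41)))) (.rp 12 (.thr 19 28 (.thr 17 29 (.thr 18 16 (.thr 3 33 (.dbl 60 41 56))))) (.rp 3 (.thr 12 51 (.thr 60 56 (.dbl 28 19 44))) .nd)))))))) (.rp 19 (.thr 12 51 (.thr 3 9 (.thr 2 14 (.thr 60 41 (.thr 62 42 (.thr 63 61 (.dbl 29 17 46))))))) .nd)))))))) (.rp 10 (.str 15 (.nv (.thr 28 19 (.thr 29 17 (.thr 31 30 (.dbl 16 24 26)))) (.nv (.thr 3 11 (.thr 9 12 (.dbl 41 57 60))) (.rp 24 (.thr 12 51 (.dbl 3 9 11)) (.rp 11 (.str 9 (.nv (.dbl 12 3 51) (.rp 51 (.thr 3 12 (.dbl 41 57 60)) (.rp 12 (.thr 28 19 (.thr 29 17 (.thr 31 30 (.dbl 16 24 26)))) (.rp 3 (.thr 28 19 (.thr 51 12 (.thr 27 39 (.dbl 24 16 26)))) .nd))))) (.rp 9 (.thr 11 3 (.thr 51 12 (.thr 27 39 (.thr 24 26 (.dbl 28 16 19))))) .nd)))))) .nd)))))))))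

theorem w16 : WinAt (4503874512617680, 54043401695265057) :=
  chF (K := []) kn c16 4503874512617680 54043401695265057 54
    [33825] (by decide +kernel) (by decide +kernel)

/-- A certificate. -/
noncomputable def c17 : Ct := (.str 4 (.nv (.thr 52 36 (.thr 7 37 (.thr 38 55 (.dbl 6 5 54)))) (.rp 55 (.thr 52 36 (.thr 7 37 (.thr 6 5 (.thr 38 54 .ext)))) (.rp 54 (.str 16 (.nv (.thr 24 28 (.thr 26 31 (.thr 36 52 (.thr 48 12 (.thr 37 15 (.dbl 38 39 55)))))) (.nv (.thr 28 24 (.thr 31 26 (.thr 25 19 (.dbl 29 17 30)))) (.rp 31 (.thr 28 24 (.thr 19 25 (.thr 18 17 (.thr 26 30 (.thr 52 36 (.thr 37 7 (.thr 48 15 (.thr 3 33 (.dbl 60 41 56))))))))) (.rp 30 (.thr 28 24 (.thr 19 25 (.thr 18 17 (.thr 26 31 (.thr 52 36 (.thr 37 7 (.thr 48 15 (.thr 3 33 (.dbl 60 41 56))))))))) (.rp 29 (.thr 28 24 (.thr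 19 25 (.thr 18 17 (.dbl 26 30 31)))) (.rp 28 (.thr 26 31 (.thr 52 36 (.thr 37 7 (.thr 48 15 (.thr 60 56 (.thr 3 41 (.dbl 18 30 33))))))) (.rp 26 (.thr 28 24 (.thr 25 19 (.thr 17 29 (.thr 52 36 (.thr 37 7 (.thr 53 5 (.thr 49 13 (.thr 61 57 (.dbl 1 33 41))))))))) (.rp 24 (.thr 26 31 (.thr 18 30 (.thr 52 36 (.thr 37 7 (.thr 48 15 (.thr 3 33 (.dbl 60 41 56))))))) (.rp 19 (.thr 24 28 (.thr 26 31 (.thr 27 25 (.thr 36 52 (.thr 48 12 (.thr 37 15 (.dbl 38 39 55))))))) .nd)))))))))) (.rp 52 (.str 16 (.nv (.thr 26 31 (.thr 18 30 (.thr 19 17 (.dbl 28 24 25)))) (.nv (.thr 28 24 (.thr 31 26 (.thr 25 19 (.dbl 29 17 30)))) (.rp 31 (.thr 28 24 (.thr 19 25 (.thr 18 17 (.thr 26 30 (.thr 38 55 (.thr 54 6 (.thr 50 14 (.thr 62 58 (.dbl 2 34 42))))))))) (.rp 30 (.thr 28 24 (.thr 25 19 (.thr 38 55 (.thr 12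 51 (.thr 60 44 (.thr 3 41 (.dbl 6 9 54))))))) (.rp 29 (.thr 28 24 (.thr 19 25 (.thr 18 17 (.dbl 26 30 31)))) (.rp 28 (.thr 26 31 (.thr 30 18 (.thr 38 55 (.thr 14 50 (.thr 62 46 (.thr 2 42 (.dbl 6 10 54))))))) (.rp 26 (.thr 28 24 (.thr 25 19 (.thr 38 55 (.thr 12 51 (.thr 60 44 (.thr 3 41 (.dbl 6 9 54))))))) (.rp 25 (.thr 26 31 (.thr 18 30 (.thr 38 55 (.thr 54 6 (.thr 50 14 (.thr 62 58 (.dbl 2 34 42))))))) (.rp 24 (.thr 26 31 (.thr 18 30 (.thr 38 55 (.thr 54 6 (.thr 50 14 (.thr 62 58 (.dbl 2 34 42))))))) (.rp 19 (.thr 31 26 (.str 60 (.nv (.thr 38 55 (.thr 54 6 (.thr 51 57 (.thr 12 25 (.dbl 28 24 44))))) (.nv (.thr 28 24 (.thr 30 29 (.thr 15 45 (.thr 63 47 (.thr 61 62 (.dbl 41 1 3)))))) (.nv (.thr 28 24 (.thr 29 30 (.thr 25 17 (.thr 12 44 (.dbl 38 51 55))))) (.rp 44 (.thr 28 24 (.thr 29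 30 (.thr 25 17 (.thr 38 55 (.thr 54 6 (.dbl 51 12 57)))))) (.rp 28 (.thr 38 55 (.thr 54 6 (.thr 57 51 (.thr 41 3 (.thr 35 44 (.thr 1 61 (.thr 9 25 (.thr 5 13 (.thr 37 53 (.thr 39 36 (.thr 45 33 (.thr 15 30 (.dbl 47 43 63))))))))))))) (.rp 27 (.thr 38 55 (.thr 54 6 (.thr 51 57 (.thr 28 24 (.thr 25 12 (.dbl 29 17 30)))))) (.rp 25 (.thr 38 55 (.thr 54 6 (.thr 51 57 (.thr 41 3 (.thr 44 35 (.dbl 28 12 24)))))) (.rp 24 (.thr 38 55 (.thr 54 6 (.thr 51 57 (.thr 41 3 (.thr 44 35 (.dbl 12 25 28)))))) .nd)))))))))) (.rp 17 (.thr 26 31 (.thr 18 30 (.thr 38 55 (.thr 54 6 (.thr 50 14 (.thr 62 58 (.dbl 2 34 42))))))) .nd)))))))))))) (.rp 38 (.str 16 (.nv (.thr 28 24 (.thr 25 19 (.thr 31 26 (.dbl 29 17 30)))) (.nv (.thr 26 31 (.thr 18 30 (.thr 19 17 (.dbl 28 24 25)))) (.nv (.thr 28 24 (.thr 26 31 (.thr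 18 30 (.dbl 19 17 25)))) (.rp 31 (.thr 28 24 (.thr 19 25 (.thr 18 17 (.thr 26 30 (.thr 52 36 (.thr 37 7 (.thr 48 15 (.thr 3 33 (.dbl 60 41 56))))))))) (.rp 30 (.thr 28 24 (.thr 19 25 (.thr 18 17 (.thr 26 31 (.thr 52 36 (.thr 37 7 (.thr 48 15 (.thr 3 33 (.dbl 60 41 56))))))))) (.rp 28 (.thr 26 31 (.thr 52 36 (.thr 37 7 (.thr 48 15 (.thr 60 56 (.thr 3 41 (.dbl 18 30 33))))))) (.rp 26 (.thr 28 24 (.thr 25 19 (.thr 17 29 (.thr 52 36 (.thr 37 7 (.thr 53 5 (.thr 49 13 (.thr 61 57 (.dbl 1 33 41))))))))) (.rp 25 (.thr 26 31 (.thr 18 30 (.thr 52 36 (.thr 37 7 (.thr 48 15 (.thr 60 56 (.dbl 3 33 41))))))) (.rp 24 (.thr 26 31 (.thr 18 30 (.thr 52 36 (.thr 37 7 (.thr 48 15 (.thr 3 33 (.dbl 60 41 56))))))) (.rp 19 (.thr 24 28 (.thr 26 31 (.thr 27 25 (.thr 52 36 (.thr 37 7 (.thr 48 15 (.thr 60 56 (.thr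 3 41 (.dbl 18 30 33))))))))) (.rp 17 (.thr 26 31 (.thr 18 30 (.thr 52 36 (.thr 37 7 (.thr 48 15 (.thr 60 56 (.dbl 3 33 41))))))) .nd)))))))))))) (.rp 37 (.str 16 (.nv (.thr 24 28 (.thr 36 52 (.thr 12 48 (.thr 38 55 (.thr 25 51 (.dbl 26 27 31)))))) (.nv (.thr 26 31 (.thr 18 30 (.thr 28 24 (.dbl 19 17 25)))) (.rp 56 (.thr 26 31 (.thr 18 30 (.thr 19 17 (.dbl 28 24 25)))) (.rp 31 (.thr 28 24 (.thr 19 25 (.thr 18 17 (.thr 26 30 (.thr 38 55 (.thr 54 6 (.thr 50 14 (.thr 62 58 (.dbl 2 34 42))))))))) (.rp 28 (.thr 26 31 (.thr 30 18 (.thr 38 55 (.thr 6 54 (.thr 14 50 (.thr 2 10 (.dbl 62 42 46))))))) (.rp 27 (.thr 28 24 (.thr 19 25 (.thr 26 31 (.dbl 18 17 30)))) (.rp 26 (.thr 28 24 (.thr 25 19 (.thr 38 55 (.thr 6 54 (.thr 12 51 (.thr 3 9 (.dbl 60 41 44))))))) (.rp 25 (.thr 26 31 (.thr 18 30 (.thr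 38 55 (.thr 54 6 (.thr 50 14 (.thr 62 58 (.dbl 2 34 42))))))) (.rp 24 (.thr 26 31 (.thr 18 30 (.thr 38 55 (.thr 54 6 (.thr 50 14 (.thr 62 58 (.dbl 2 34 42))))))) (.rp 17 (.thr 24 28 (.thr 26 31 (.thr 36 52 (.thr 12 48 (.thr 38 55 (.dbl 25 27 51)))))) .nd))))))))))) (.rp 36 (.str 16 (.nv (.thr 26 31 (.thr 18 30 (.thr 19 17 (.dbl 28 24 25)))) (.nv (.thr 28 24 (.thr 31 26 (.thr 25 19 (.dbl 29 17 30)))) (.rp 31 (.thr 28 24 (.thr 19 25 (.thr 18 17 (.thr 26 30 (.thr 38 55 (.thr 54 6 (.thr 50 14 (.thr 62 58 (.dbl 2 34 42))))))))) (.rp 30 (.thr 28 24 (.thr 25 19 (.thr 38 55 (.thr 6 54 (.thr 12 51 (.thr 3 9 (.dbl 60 41 44))))))) (.rp 29 (.thr 28 24 (.thr 19 25 (.thr 18 17 (.dbl 26 30 31)))) (.rp 28 (.thr 26 31 (.thr 30 18 (.thr 38 55 (.thr 6 54 (.thr 14 50 (.thr 2 10 (.dbl 62 42 46))))))) (.rp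 26 (.thr 28 24 (.thr 25 19 (.thr 38 55 (.thr 6 54 (.thr 12 51 (.thr 3 9 (.dbl 60 41 44))))))) (.rp 25 (.thr 26 31 (.thr 18 30 (.thr 38 55 (.thr 54 6 (.thr 50 14 (.thr 62 58 (.dbl 2 34 42))))))) (.rp 24 (.thr 26 31 (.thr 18 30 (.thr 38 55 (.thr 54 6 (.thr 50 14 (.thr 62 58 (.dbl 2 34 42))))))) (.rp 19 (.thr 24 28 (.thr 26 31 (.thr 27 25 (.thr 30 18 (.thr 38 55 (.thr 6 54 (.thr 14 50 (.thr 2 10 (.dbl 62 42 46))))))))) (.rp 17 (.thr 26 31 (.thr 18 30 (.thr 38 55 (.thr 54 6 (.thr 50 14 (.thr 62 58 (.dbl 2 34 42))))))) .nd)))))))))))) (.rp 7 (.thr 36 52 (.thr 38 55 (.thr 39 37 (.thr 54 6 (.str 60 (.nv (.thr 51 57 (.thr 12 25 (.thr 24 48 (.dbl 28 16 44)))) (.nv (.thr 51 57 (.thr 25 12 (.thr 19 28 (.dbl 3 35 41)))) (.rp 57 (.thr 41 3 (.thr 44 35 (.thr 12 28 (.thr 51 25 (.thr 15 27 (.thr 13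 14 (.thr 45 30 (.dbl 61 1 29)))))))) (.rp 51 (.thr 41 3 (.thr 35 44 (.thr 43 47 (.thr 1 61 (.thr 42 40 (.thr 62 2 (.thr 50 58 (.thr 14 26 (.dbl 46 30 34))))))))) (.rp 41 (.thr 51 57 (.thr 27 15 (.thr 25 12 (.thr 28 19 (.dbl 24 16 26))))) (.rp 28 (.thr 51 57 (.thr 15 27 (.thr 30 45 (.thr 26 18 (.thr 14 50 (.dbl 12 13 25)))))) (.rp 25 (.thr 51 57 (.thr 15 27 (.thr 30 45 (.thr 26 18 (.thr 14 50 (.thr 62 46 (.thr 63 61 (.dbl 31 16 47)))))))) (.rp 12 (.thr 51 57 (.thr 15 27 (.thr 30 45 (.thr 26 18 (.thr 14 50 (.thr 62 46 (.thr 63 61 (.dbl 31 16 47)))))))) (.rp 9 (.thr 51 57 (.thr 12 25 (.thr 41 3 (.dbl 44 28 35)))) .nd)))))))))))))) (.rp 6 (.thr 52 36 (.thr 37 7 (.thr 53 5 (.dbl 55 38 54)))) (.rp 5 (.thr 38 55 (.thr 52 36 (.thr 7 37 (.thr 6 54 .ext)))) .nd)))))))))))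

theorem w17 : WinAt (7340032, 8388865) :=
  chF (K := [(4503874512617680, 54043401695265057)]) (kc w16 kn) c17 7340032 8388865 23
    [4369] (by decide +kernel) (by decide +kernel)

/-- A certificate. -/
noncomputable def c18 : Ct := (.str 16 (.nv (.thr 28 24 (.thr 31 26 (.thr 25 19 (.dbl 29 17 30)))) (.rp 31 (.str 37 (.nv (.thr 52 7 (.thr 4 36 (.thr 55 38 (.dbl 53 5 54)))) (.rp 55 (.thr 28 24 (.thr 19 25 (.thr 18 17 (.thr 26 30 (.thr 48 15 (.thr 3 33 (.thr 51 35 (.thr 60 41 (.thr 57 54 (.dbl 52 7 56)))))))))) (.rp 54 (.thr 52 7 (.thr 28 24 (.thr 19 25 (.thr 18 17 (.thr 26 30 (.thr 48 15 (.thr 3 33 (.dbl 60 41 56)))))))) (.rp 53 (.thr 52 7 (.thr 28 24 (.thr 19 25 (.thr 18 17 (.thr 26 30 (.thr 48 15 (.thr 3 33 (.dbl 60 41 56)))))))) (.rp 52 (.thr 28 24 (.thr 19 25 (.thr 18 17 (.thr 26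 30 (.thr 48 15 (.thr 3 33 (.thr 51 35 (.thr 49 50 (.thr 60 41 (.thr 57 54 (.dbl 53 5 61))))))))))) (.rp 39 (.thr 53 5 (.thr 52 7 (.thr 55 54 (.dbl 4 36 38)))) (.rp 38 (.thr 52 7 (.thr 28 24 (.thr 19 25 (.thr 18 17 (.thr 26 30 (.thr 48 15 (.thr 3 33 (.dbl 60 41 56)))))))) (.rp 36 (.thr 52 7 (.thr 28 24 (.thr 19 25 (.thr 18 17 (.thr 26 30 (.thr 48 15 (.thr 3 33 (.dbl 60 41 56)))))))) (.rp 27 (.str 19 (.nv (.dbl 28 24 25) (.rp 28 (.thr 53 5 (.thr 52 7 (.thr 55 54 (.dbl 4 36 38)))) (.rp 25 (.thr 53 5 (.thr 52 7 (.thr 55 54 (.dbl 4 36 38)))) (.rp 24 (.thr 17 18 (.dbl 25 28 29)) .nd))))) (.rp 19 (.str 27 (.nv (.thr 24 28 (.thr 26 25 (.thr 15 48 (.thr 39 51 (.thr 52 7 (.dbl 36 4 38)))))) (.nv (.thr 52 7 (.thr 4 36 (.thr 55 38 (.dbl 53 5 54)))) (.rp 52 (.thr 53 5 (.thr 24 28 (.thr 26 25 (.thr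 15 48 (.thr 51 39 (.thr 30 18 (.thr 60 45 (.thr 57 54 (.thr 61 49 (.dbl 41 1 3)))))))))) (.rp 39 (.thr 53 5 (.thr 52 7 (.thr 55 54 (.dbl 4 36 38)))) (.rp 38 (.thr 52 7 (.thr 36 4 (.thr 24 28 (.thr 26 25 (.dbl 48 12 15))))) (.rp 36 (.thr 7 52 (.thr 24 28 (.thr 26 25 (.thr 15 48 (.thr 3 11 (.thr 30 18 (.dbl 60 41 45))))))) (.rp 7 (.thr 24 28 (.thr 26 25 (.thr 48 15 (.thr 36 12 (.thr 4 52 (.dbl 38 39 55)))))) (.rp 4 (.thr 7 52 (.thr 24 28 (.thr 26 25 (.thr 15 48 (.thr 3 11 (.thr 30 18 (.dbl 60 41 45))))))) .nd))))))))) (.rp 7 (.thr 28 24 (.thr 19 25 (.thr 18 17 (.thr 26 30 (.thr 48 15 (.thr 3 33 (.thr 51 35 (.thr 49 50 (.thr 60 41 (.thr 57 54 (.dbl 53 5 61))))))))))) (.rp 5 (.thr 7 52 (.thr 28 24 (.thr 19 25 (.thr 18 17 (.thr 26 30 (.thr 15 48 (.thr 3 11 (.thr 51 35 (.thr 39 27 (.thr 60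 41 (.thr 57 54 (.thr 38 36 (.thr 12 44 (.dbl 14 13 50)))))))))))))) (.rp 4 (.thr 52 7 (.thr 28 24 (.thr 19 25 (.thr 18 17 (.thr 26 30 (.thr 48 15 (.thr 3 33 (.dbl 60 41 56)))))))) .nd)))))))))))))) (.rp 30 (.str 4 (.nv (.thr 24 28 (.thr 36 52 (.thr 12 48 (.thr 38 55 (.thr 25 51 (.dbl 26 27 31)))))) (.nv (.thr 52 36 (.thr 7 37 (.thr 38 55 (.dbl 6 5 54)))) (.rp 55 (.thr 28 24 (.thr 25 19 (.thr 31 26 (.thr 52 36 (.thr 7 37 (.thr 6 5 (.thr 38 54 (.thr 12 51 (.thr 60 44 (.thr 3 41 (.thr 15 11 (.thr 56 48 (.thr 63 47 (.dbl 29 17 46)))))))))))))) (.rp 54 (.thr 28 24 (.thr 19 25 (.thr 18 17 (.thr 26 31 (.thr 52 36 (.thr 37 7 (.thr 48 15 (.thr 60 56 (.dbl 3 33 41))))))))) (.rp 52 (.thr 28 24 (.thr 19 25 (.thr 18 17 (.thr 26 31 (.thr 38 55 (.thr 54 6 (.thr 50 14 (.thr 62 58 (.dbl 2 34 42)))))))))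 (.rp 38 (.thr 28 24 (.thr 19 25 (.thr 18 17 (.thr 26 31 (.thr 52 36 (.thr 37 7 (.thr 48 15 (.thr 60 56 (.dbl 3 33 41))))))))) (.rp 36 (.thr 28 24 (.thr 19 25 (.thr 18 17 (.thr 26 31 (.thr 38 55 (.thr 54 6 (.thr 50 14 (.thr 62 58 (.dbl 2 34 42))))))))) (.rp 7 (.thr 24 28 (.thr 36 52 (.thr 12 48 (.thr 38 55 (.thr 39 37 (.thr 25 51 (.dbl 26 27 31))))))) .nd))))))))) (.rp 29 (.thr 28 24 (.thr 19 25 (.thr 18 17 (.dbl 26 30 31)))) (.rp 28 (.str 4 (.nv (.thr 52 36 (.thr 7 37 (.thr 38 55 (.dbl 6 5 54)))) (.rp 55 (.thr 26 31 (.thr 30 18 (.thr 52 36 (.thr 7 37 (.thr 6 5 (.thr 38 54 (.thr 14 50 (.thr 62 46 (.dbl 2 10 42))))))))) (.rp 54 (.thr 26 31 (.thr 52 36 (.thr 37 7 (.thr 48 15 (.thr 60 56 (.thr 3 41 (.dbl 18 30 33))))))) (.rp 52 (.thr 26 31 (.thr 30 18 (.thr 38 55 (.thr 14 50 (.thr 62 46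 (.thr 2 42 (.dbl 6 10 54))))))) (.rp 38 (.thr 26 31 (.thr 52 36 (.thr 37 7 (.thr 48 15 (.thr 60 56 (.thr 3 41 (.dbl 18 30 33))))))) (.rp 37 (.thr 26 31 (.thr 30 18 (.thr 38 55 (.thr 6 54 (.thr 14 50 (.thr 2 10 (.dbl 62 42 46))))))) (.rp 36 (.thr 26 31 (.thr 30 18 (.thr 38 55 (.thr 6 54 (.thr 14 50 (.thr 2 10 (.dbl 62 42 46))))))) (.rp 7 (.thr 26 31 (.thr 30 18 (.thr 36 52 (.thr 38 55 (.thr 39 37 (.thr 14 50 (.thr 62 46 (.thr 2 42 (.dbl 6 10 54))))))))) (.rp 6 (.thr 52 36 (.thr 37 7 (.thr 53 5 (.dbl 55 38 54)))) (.rp 5 (.thr 26 31 (.thr 30 18 (.thr 38 55 (.thr 6 54 (.thr 14 50 (.thr 62 46 (.dbl 2 10 42))))))) .nd))))))))))) (.rp 26 (.str 52 (.nv (.thr 4 36 (.thr 55 38 (.thr 37 7 (.dbl 53 5 54)))) (.nv (.thr 4 36 (.thr 38 55 (.thr 6 54 (.dbl 7 5 37)))) (.rp 55 (.thr 28 24 (.thr 25 19 (.thr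 17 29 (.thr 36 4 (.thr 37 7 (.thr 39 38 (.thr 49 13 (.thr 1 33 (.thr 61 41 (.dbl 53 5 57)))))))))) (.rp 54 (.thr 28 24 (.thr 25 19 (.thr 17 29 (.thr 37 7 (.thr 53 5 (.thr 49 13 (.thr 1 33 (.dbl 61 41 57)))))))) (.rp 38 (.thr 28 24 (.thr 25 19 (.thr 17 29 (.thr 37 7 (.thr 53 5 (.thr 49 13 (.thr 1 33 (.dbl 61 41 57)))))))) (.rp 37 (.thr 28 24 (.thr 25 19 (.thr 4 36 (.thr 38 55 (.thr 6 54 (.thr 7 5 (.thr 12 51 (.thr 60 44 (.thr 3 41 (.thr 56 48 (.thr 15 11 (.thr 13 14 (.thr 45 30 (.dbl 29 17 61)))))))))))))) (.rp 36 (.thr 28 24 (.thr 25 19 (.thr 17 29 (.thr 37 7 (.thr 53 5 (.thr 49 13 (.thr 1 33 (.dbl 61 41 57)))))))) (.rp 7 (.thr 28 24 (.thr 25 19 (.thr 17 29 (.thr 4 36 (.thr 55 38 (.thr 53 54 (.thr 37 5 (.thr 49 13 (.thr 1 33 (.dbl 61 41 57)))))))))) (.rp 5 (.thr 28 24 (.thr 25 19 (.thr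 17 29 (.thr 4 36 (.thr 55 38 (.thr 53 54 (.thr 37 7 (.thr 49 13 (.thr 1 33 (.dbl 61 41 57)))))))))) (.rp 4 (.thr 28 24 (.thr 25 19 (.thr 17 29 (.thr 37 7 (.thr 49 13 (.thr 1 33 (.thr 61 41 (.dbl 53 5 57)))))))) .nd))))))))))) (.rp 25 (.thr 24 28 (.str 37 (.nv (.thr 7 52 (.thr 26 31 (.thr 15 48 (.thr 3 11 (.thr 30 18 (.dbl 60 41 45)))))) (.nv (.thr 52 7 (.thr 4 36 (.thr 55 38 (.dbl 53 5 54)))) (.rp 57 (.str 41 (.nv (.thr 26 31 (.thr 30 18 (.thr 45 33 (.dbl 15 48 60)))) (.nv (.thr 52 7 (.thr 4 36 (.thr 55 38 (.dbl 53 5 54)))) .nd))) (.rp 52 (.thr 26 31 (.thr 30 18 (.thr 48 15 (.thr 36 12 (.thr 38 39 (.thr 6 54 (.thr 14 50 (.thr 62 46 (.dbl 2 10 42))))))))) (.rp 41 (.str 57 (.nv (.thr 52 7 (.thr 4 36 (.thr 55 38 (.dbl 53 5 54)))) (.nv (.thr 26 31 (.thr 48 15 (.thr 36 12 (.dbl 52 4 7))))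 (.nv (.thr 26 31 (.thr 48 15 (.thr 52 7 (.thr 56 60 (.thr 58 59 (.dbl 53 5 63)))))) (.nv (.thr 53 5 (.thr 52 7 (.thr 4 36 (.dbl 55 38 54)))) (.rp 52 (.thr 26 31 (.thr 30 18 (.thr 48 15 (.thr 36 12 (.thr 38 39 (.thr 6 54 (.thr 14 50 (.thr 62 46 (.dbl 2 10 42))))))))) (.rp 7 (.thr 26 31 (.thr 48 15 (.thr 36 12 (.thr 4 52 (.dbl 38 39 55))))) (.rp 5 (.thr 52 7 (.thr 4 36 (.thr 55 38 (.thr 54 53 (.thr 26 31 (.thr 30 18 (.thr 15 48 (.dbl 60 45 51)))))))) .nd)))))))) (.rp 7 (.thr 26 31 (.thr 48 15 (.thr 36 12 (.thr 4 52 (.dbl 38 39 55))))) .nd)))))))) (.rp 24 (.str 4 (.nv (.thr 38 55 (.thr 6 54 (.thr 7 5 (.dbl 52 36 37)))) (.nv (.thr 52 36 (.thr 7 37 (.thr 38 55 (.dbl 6 5 54)))) (.rp 55 (.thr 26 31 (.thr 30 18 (.thr 52 36 (.thr 7 37 (.thr 6 5 (.thr 38 54 (.thr 14 50 (.thr 62 46 (.dbl 2 10 42)))))))))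 (.rp 54 (.thr 26 31 (.thr 18 30 (.thr 52 36 (.thr 37 7 (.thr 48 15 (.thr 60 56 (.dbl 3 33 41))))))) (.rp 52 (.thr 26 31 (.thr 18 30 (.thr 38 55 (.thr 54 6 (.thr 50 14 (.thr 62 58 (.dbl 2 34 42))))))) (.rp 38 (.thr 26 31 (.thr 18 30 (.thr 52 36 (.thr 37 7 (.thr 48 15 (.thr 60 56 (.dbl 3 33 41))))))) (.rp 37 (.thr 26 31 (.thr 18 30 (.thr 38 55 (.thr 54 6 (.thr 50 14 (.thr 62 58 (.dbl 2 34 42))))))) (.rp 36 (.thr 26 31 (.thr 18 30 (.thr 38 55 (.thr 54 6 (.thr 50 14 (.thr 62 58 (.dbl 2 34 42))))))) (.rp 7 (.thr 26 31 (.thr 18 30 (.thr 36 52 (.thr 38 55 (.thr 39 37 (.thr 54 6 (.thr 50 14 (.thr 62 58 (.dbl 2 34 42))))))))) (.rp 6 (.thr 52 36 (.thr 37 7 (.thr 53 5 (.dbl 55 38 54)))) (.rp 5 (.thr 26 31 (.thr 18 30 (.thr 38 55 (.thr 54 6 (.thr 50 14 (.thr 62 58 (.dbl 2 34 42))))))) .nd))))))))))))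 (.rp 19 (.thr 24 28 (.thr 26 31 (.thr 27 25 (.thr 30 18 (.str 41 (.nv (.thr 1 61 (.thr 60 3 (.thr 15 45 (.thr 48 37 (.thr 52 56 (.dbl 36 4 12)))))) (.nv (.thr 60 3 (.thr 15 45 (.thr 56 11 (.dbl 48 37 52)))) (.rp 63 (.thr 11 56 (.thr 43 59 (.thr 42 40 (.thr 62 2 (.thr 14 46 (.thr 58 10 (.dbl 50 38 54))))))) (.rp 60 (.thr 11 56 (.thr 43 59 (.thr 42 40 (.thr 62 2 (.thr 14 46 (.thr 58 10 (.dbl 50 38 54))))))) (.rp 56 (.thr 60 3 (.thr 15 45 (.thr 48 37 (.thr 51 39 (.thr 57 54 (.thr 49 50 (.dbl 61 1 53))))))) (.rp 52 (.thr 60 3 (.thr 15 45 (.thr 48 37 (.thr 51 39 (.thr 57 54 (.thr 49 50 (.dbl 61 1 53))))))) (.rp 51 (.thr 3 60 (.thr 11 56 (.thr 7 15 (.thr 52 37 (.thr 4 36 (.thr 38 55 (.dbl 6 5 54))))))) (.rp 48 (.thr 11 56 (.thr 43 59 (.thr 42 40 (.thr 62 2 (.thr 14 46 (.thr 58 10 (.dbl 50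 38 54))))))) (.rp 45 (.thr 3 60 (.thr 11 56 (.thr 7 15 (.thr 52 37 (.thr 4 36 (.thr 38 55 (.dbl 6 5 54))))))) (.rp 43 (.thr 3 60 (.thr 11 56 (.thr 7 15 (.thr 52 37 (.thr 4 36 (.thr 38 55 (.dbl 6 5 54))))))) (.rp 37 (.thr 11 56 (.thr 43 59 (.thr 42 40 (.thr 62 2 (.thr 14 46 (.thr 58 10 (.dbl 50 38 54))))))) (.rp 35 (.thr 3 60 (.thr 11 56 (.thr 7 15 (.thr 52 37 (.thr 4 36 (.thr 38 55 (.dbl 6 5 54))))))) (.rp 33 (.thr 56 11 (.thr 60 3 (.thr 48 52 (.dbl 15 37 45)))) (.rp 15 (.thr 11 56 (.thr 43 59 (.thr 42 40 (.thr 62 2 (.thr 14 46 (.thr 50 38 (.dbl 58 10 54))))))) (.rp 12 (.thr 11 56 (.thr 43 59 (.thr 42 40 (.thr 62 2 (.thr 14 46 (.thr 58 10 (.dbl 50 38 54))))))) (.rp 6 (.thr 11 56 (.thr 43 59 (.thr 42 40 (.thr 62 2 (.thr 14 46 (.thr 58 10 (.dbl 50 38 54))))))) (.rp 3 (.thr 1 61 (.thr 11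 56 (.thr 43 59 (.thr 42 40 (.thr 62 2 (.thr 14 46 (.thr 58 10 (.dbl 50 38 54)))))))) (.rp 1 (.thr 3 60 (.thr 11 56 (.thr 7 15 (.thr 52 37 (.thr 4 36 (.thr 38 55 (.dbl 6 5 54))))))) .nd))))))))))))))))))))))) (.rp 17 (.thr 28 24 (.str 4 (.nv (.thr 38 55 (.thr 6 54 (.thr 7 5 (.dbl 52 36 37)))) (.nv (.thr 52 36 (.thr 7 37 (.thr 38 55 (.dbl 6 5 54)))) (.rp 55 (.thr 26 31 (.thr 30 18 (.thr 52 36 (.thr 7 37 (.thr 6 5 (.thr 38 54 (.thr 14 50 (.thr 62 46 (.dbl 2 10 42))))))))) (.rp 54 (.thr 26 31 (.thr 18 30 (.thr 52 36 (.thr 37 7 (.thr 48 15 (.thr 60 56 (.dbl 3 33 41))))))) (.rp 52 (.thr 26 31 (.thr 18 30 (.thr 38 55 (.thr 54 6 (.thr 50 14 (.thr 62 58 (.dbl 2 34 42))))))) (.rp 51 (.str 34 (.nv (.thr 26 31 (.thr 18 30 (.thr 50 2 (.dbl 38 14 55)))) (.nv (.thr 52 36 (.thr 55 38 (.thr 37 7 (.dbl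 53 5 54)))) (.rp 55 (.thr 52 36 (.thr 7 37 (.thr 6 5 (.thr 38 54 (.thr 26 31 (.thr 18 30 (.dbl 50 2 14))))))) (.rp 38 (.thr 52 36 (.thr 37 7 (.thr 26 31 (.thr 18 30 (.thr 48 15 (.thr 3 33 (.dbl 60 41 56))))))) .nd))))) (.rp 38 (.thr 26 31 (.thr 18 30 (.thr 52 36 (.thr 37 7 (.thr 48 15 (.thr 60 56 (.dbl 3 33 41))))))) (.rp 37 (.thr 26 31 (.thr 18 30 (.thr 38 55 (.thr 54 6 (.thr 50 14 (.thr 62 58 (.dbl 2 34 42))))))) (.rp 36 (.thr 26 31 (.thr 18 30 (.thr 38 55 (.thr 54 6 (.thr 50 14 (.thr 62 58 (.dbl 2 34 42))))))) (.rp 34 (.str 51 (.nv (.thr 38 55 (.thr 6 54 (.thr 7 5 (.dbl 52 36 37)))) (.nv (.thr 25 19 (.dbl 38 12 55)) (.rp 55 (.thr 25 19 (.thr 38 12 (.thr 6 54 (.thr 7 5 (.dbl 52 36 37))))) (.rp 38 (.thr 26 31 (.thr 52 36 (.thr 37 7 (.thr 48 15 (.thr 49 50 (.dbl 25 13 19)))))) .nd)))))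 (.rp 7 (.thr 26 31 (.thr 18 30 (.thr 36 52 (.thr 38 55 (.thr 39 37 (.thr 54 6 (.thr 50 14 (.thr 62 58 (.dbl 2 34 42))))))))) (.rp 6 (.thr 52 36 (.thr 37 7 (.thr 53 5 (.dbl 55 38 54)))) (.rp 5 (.thr 26 31 (.thr 18 30 (.thr 38 55 (.thr 54 6 (.thr 50 14 (.thr 62 58 (.dbl 2 34 42))))))) .nd))))))))))))))) .nd)))))))))))

theorem w18 : WinAt (7340032, 8389121) :=
  chF (K := []) kn c18 7340032 8389121 23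
    [] (by decide +kernel) (by decide +kernel)

/-- A certificate. -/
noncomputable def c19 : Ct := (.str 37 (.nv (.thr 5 53 (.thr 7 52 (.thr 4 6 (.thr 23 20 (.dbl 55 38 39))))) (.nv (.thr 20 23 (.thr 52 7 (.thr 4 36 (.thr 55 38 (.dbl 53 5 54))))) (.rp 55 (.str 15 (.nv (.thr 7 52 (.thr 3 11 (.thr 23 20 (.thr 48 26 (.thr 53 5 (.dbl 63 43 58)))))) (.nv (.thr 26 48 (.thr 16 31 (.thr 18 30 (.thr 19 17 (.thr 28 25 (.dbl 20 23 24)))))) (.nv (.thr 26 48 (.thr 30 18 (.thr 60 45 (.thr 3 41 (.dbl 7 11 52))))) (.rp 48 (.thr 7 52 (.thr 23 20 (.thr 3 11 (.thr 60 41 (.thr 30 45 (.thr 63 43 (.thr 31 47 (.dbl 26 16 18)))))))) (.rp 26 (.thr 53 5 (.thr 7 52 (.thr 3 11 (.thr 41 60 (.thr 45 33 (.thr 61 1 (.thr 13 29 (.dbl 49 25 57)))))))) .nd)))))) (.rp 54 (.thr 23 20 (.thr 5 53 (.thr 7 52 (.thr 55 39 (.dbl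 4 6 38))))) (.rp 53 (.thr 20 23 (.str 15 (.nv (.thr 26 48 (.thr 18 30 (.thr 16 31 (.thr 19 17 (.dbl 28 24 25))))) (.nv (.thr 7 52 (.thr 3 11 (.thr 60 41 (.thr 30 45 (.dbl 26 18 48))))) (.rp 48 (.thr 7 52 (.thr 3 11 (.thr 60 41 (.thr 30 45 (.thr 26 18 (.thr 16 31 (.thr 28 24 (.thr 12 44 (.thr 13 14 (.dbl 25 19 49)))))))))) (.rp 30 (.thr 7 52 (.thr 3 11 (.thr 41 60 (.thr 33 45 (.dbl 48 18 26))))) (.rp 26 (.thr 7 52 (.thr 3 11 (.thr 41 60 (.thr 33 45 (.thr 1 61 (.thr 49 17 (.thr 13 25 (.thr 12 14 (.dbl 9 5 6))))))))) (.rp 18 (.thr 52 7 (.thr 48 26 (.thr 60 56 (.thr 45 30 (.dbl 41 3 33))))) .nd)))))))) (.rp 52 (.thr 20 23 (.str 28 (.nv (.thr 5 53 (.thr 25 19 (.thr 13 49 (.thr 1 9 (.thr 61 41 (.dbl 29 17 45)))))) (.nv (.thr 16 24 (.thr 19 25 (.thr 26 31 (.dbl 18 17 30)))) (.rp 31 (.thr 5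 53 (.thr 24 16 (.thr 25 19 (.thr 27 26 (.thr 13 49 (.thr 1 9 (.thr 61 41 (.dbl 29 17 45)))))))) (.rp 25 (.thr 5 53 (.thr 16 24 (.thr 26 31 (.thr 30 18 (.thr 15 48 (.thr 60 45 (.thr 12 44 (.thr 13 14 (.thr 1 9 (.dbl 41 3 61)))))))))) (.rp 19 (.thr 5 53 (.thr 16 24 (.thr 31 26 (.thr 29 30 (.thr 25 17 (.thr 13 49 (.thr 61 45 (.dbl 1 9 41)))))))) (.rp 17 (.thr 5 53 (.thr 16 24 (.thr 31 26 (.thr 29 30 (.thr 25 19 (.thr 13 49 (.thr 61 45 (.dbl 1 9 41)))))))) (.rp 5 (.str 15 (.nv (.thr 16 24 (.dbl 26 31 48)) (.rp 48 (.thr 19 25 (.thr 16 24 (.thr 18 17 (.dbl 26 30 31)))) (.rp 31 (.thr 19 25 (.thr 16 24 (.thr 18 17 (.dbl 26 30 48)))) (.rp 26 (.thr 25 19 (.thr 29 17 (.thr 13 49 (.thr 45 61 (.dbl 30 31 60))))) (.rp 24 (.thr 26 48 (.thr 30 18 (.dbl 31 16 29))) (.rp 16 (.thr 25 19 (.thr 13 49 (.thr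 12 14 (.thr 60 44 (.thr 45 30 (.dbl 29 17 61)))))) .nd))))))) .nd))))))))) (.rp 39 (.str 48 (.nv (.thr 15 26 (.thr 7 52 (.thr 3 11 (.thr 33 18 (.dbl 41 45 60))))) (.nv (.thr 5 53 (.thr 26 15 (.thr 30 18 (.thr 31 16 (.thr 28 29 (.thr 19 25 (.dbl 23 20 27))))))) (.nv (.thr 52 7 (.thr 60 56 (.thr 3 41 (.thr 18 33 (.dbl 26 15 30))))) (.rp 26 (.thr 5 53 (.thr 52 7 (.thr 60 56 (.thr 41 3 (.thr 33 45 (.thr 1 61 (.thr 49 17 (.dbl 13 9 25)))))))) (.rp 18 (.thr 52 7 (.thr 60 56 (.thr 41 3 (.thr 45 33 (.dbl 15 26 30))))) (.rp 15 (.thr 5 53 (.thr 52 7 (.thr 60 56 (.thr 3 41 (.thr 18 33 (.thr 26 30 (.thr 16 31 (.thr 19 17 (.thr 28 25 (.dbl 20 23 24)))))))))) .nd))))))) (.rp 38 (.str 48 (.nv (.thr 15 26 (.thr 7 52 (.thr 3 11 (.thr 33 18 (.dbl 41 45 60))))) (.nv (.thr 5 53 (.thr 20 23 (.thr 26 15 (.thr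 16 31 (.thr 28 24 (.thr 19 25 (.dbl 18 17 30))))))) (.nv (.thr 5 53 (.thr 52 7 (.thr 60 56 (.thr 26 15 (.thr 18 30 (.dbl 3 33 41)))))) (.rp 26 (.thr 5 53 (.thr 52 7 (.thr 60 56 (.thr 41 3 (.thr 33 45 (.thr 1 61 (.thr 49 17 (.dbl 13 9 25)))))))) (.rp 18 (.thr 52 7 (.thr 60 56 (.thr 41 3 (.thr 45 33 (.dbl 15 26 30))))) (.rp 15 (.thr 5 53 (.thr 52 7 (.thr 20 23 (.thr 36 4 (.thr 60 56 (.thr 3 41 (.thr 18 33 (.thr 26 30 (.thr 16 31 (.dbl 24 12 28)))))))))) .nd))))))) (.rp 23 (.thr 7 52 (.str 3 (.nv (.thr 41 60 (.thr 33 45 (.thr 48 18 (.dbl 15 11 26)))) (.nv (.thr 5 53 (.thr 6 4 (.thr 41 60 (.thr 1 61 (.dbl 9 12 13))))) (.nv (.thr 15 11 (.thr 60 41 (.thr 30 45 (.dbl 26 18 48)))) (.rp 60 (.thr 5 53 (.thr 6 4 (.thr 15 11 (.thr 48 26 (.thr 33 18 (.thr 41 45 (.thr 1 61 (.dbl 9 12 13)))))))) (.rp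 56 (.thr 15 11 (.thr 48 26 (.thr 41 60 (.dbl 33 18 45)))) (.rp 48 (.thr 5 53 (.thr 6 4 (.thr 11 15 (.thr 41 60 (.thr 56 26 (.thr 1 61 (.dbl 9 12 13))))))) (.rp 41 (.thr 15 11 (.thr 26 48 (.thr 18 30 (.thr 16 31 (.thr 19 17 (.thr 51 35 (.thr 27 39 (.dbl 25 24 28)))))))) .nd))))))))) (.rp 20 (.thr 5 53 (.str 60 (.nv (.thr 41 3 (.thr 1 61 (.thr 13 9 (.thr 33 45 (.dbl 49 17 25))))) (.nv (.thr 52 7 (.thr 48 56 (.thr 3 41 (.thr 26 15 (.dbl 18 30 33))))) (.rp 41 (.thr 52 7 (.thr 48 56 (.thr 26 15 (.thr 30 18 (.thr 31 16 (.thr 28 29 (.thr 12 44 (.thr 24 36 (.dbl 25 19 27))))))))) (.rp 33 (.thr 7 52 (.thr 3 41 (.thr 15 11 (.thr 30 45 (.dbl 26 18 48))))) (.rp 3 (.thr 52 7 (.thr 48 56 (.thr 15 26 (.thr 45 30 (.thr 41 33 (.thr 1 61 (.thr 13 9 (.thr 12 14 (.thr 28 44 (.dbl 25 19 49)))))))))) .nd)))))))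 (.rp 7 (.thr 5 53 (.str 1 (.nv (.thr 41 61 (.thr 33 45 (.thr 49 17 (.dbl 13 9 25)))) (.nv (.thr 13 9 (.thr 49 25 (.thr 41 61 (.dbl 33 17 45)))) (.rp 61 (.thr 13 9 (.thr 49 25 (.thr 33 17 (.thr 41 45 (.thr 3 60 (.thr 48 18 (.thr 51 50 (.thr 19 35 (.thr 15 26 (.thr 27 39 (.dbl 23 20 31))))))))))) (.rp 49 (.thr 20 23 (.thr 13 9 (.thr 61 41 (.thr 29 45 (.thr 25 17 (.thr 28 19 (.thr 31 30 (.dbl 16 24 26)))))))) (.rp 45 (.thr 20 23 (.thr 13 9 (.thr 25 49 (.thr 29 17 (.thr 28 19 (.thr 31 30 (.dbl 16 24 26))))))) (.rp 41 (.thr 20 23 (.thr 13 9 (.thr 25 49 (.thr 29 17 (.thr 28 19 (.thr 31 30 (.dbl 16 24 26))))))) (.rp 33 (.thr 13 9 (.thr 25 49 (.thr 29 17 (.dbl 61 41 45)))) (.rp 25 (.thr 20 23 (.thr 13 9 (.thr 41 61 (.thr 45 33 (.thr 60 3 (.thr 15 30 (.thr 12 14 (.thr 28 44 (.thr 16 24 (.dbl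 26 31 48)))))))))) (.rp 17 (.thr 20 23 (.thr 13 9 (.thr 25 49 (.thr 28 19 (.thr 61 41 (.thr 29 45 (.thr 31 30 (.dbl 16 24 26)))))))) (.rp 13 (.thr 20 23 (.thr 41 61 (.thr 45 33 (.thr 60 3 (.thr 15 30 (.thr 48 26 (.thr 52 56 (.thr 36 4 (.thr 12 24 (.thr 44 28 (.dbl 38 35 39))))))))))) (.rp 9 (.thr 41 61 (.thr 33 45 (.thr 49 17 (.thr 3 60 (.thr 48 18 (.thr 51 50 (.thr 19 35 (.dbl 25 13 28)))))))) .nd))))))))))))) (.rp 5 (.str 15 (.nv (.thr 7 52 (.thr 3 11 (.thr 23 20 (.thr 39 55 (.thr 27 51 (.thr 31 19 (.dbl 63 43 47))))))) (.nv (.thr 20 23 (.thr 26 48 (.thr 16 31 (.thr 18 30 (.thr 19 17 (.dbl 28 24 25)))))) (.nv (.thr 7 52 (.thr 3 11 (.thr 60 41 (.thr 30 45 (.dbl 26 18 48))))) .nd)))) (.rp 4 (.thr 52 7 (.thr 5 53 (.thr 23 20 (.str 60 (.nv (.thr 48 56 (.thr 26 15 (.thr 30 18 (.thr 31 16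 (.thr 19 27 (.dbl 28 25 29)))))) (.nv (.thr 41 3 (.thr 1 61 (.thr 13 9 (.thr 33 45 (.dbl 49 17 25))))) (.nv (.thr 48 56 (.thr 3 41 (.thr 26 15 (.dbl 18 30 33)))) (.rp 15 (.thr 56 48 (.thr 41 3 (.thr 11 26 (.thr 1 61 (.thr 13 9 (.thr 49 25 (.dbl 33 17 45))))))) (.rp 12 (.str 8 (.nv (.thr 48 56 (.thr 26 15 (.thr 30 18 (.thr 31 16 (.thr 19 27 (.dbl 28 25 29)))))) (.nv (.thr 41 3 (.thr 1 61 (.thr 33 45 (.thr 49 17 (.dbl 13 9 25))))) (.nv (.thr 3 41 (.thr 48 56 (.thr 18 33 (.dbl 26 15 30)))) (.rp 15 (.thr 56 48 (.thr 41 3 (.thr 11 26 (.thr 1 61 (.thr 33 45 (.thr 49 17 (.dbl 13 9 25))))))) (.rp 11 (.thr 3 41 (.thr 48 56 (.thr 26 15 (.dbl 18 30 33)))) (.rp 3 (.thr 48 56 (.thr 15 26 (.thr 45 30 (.thr 41 33 (.thr 1 61 (.thr 9 13 (.thr 57 25 (.thr 51 54 (.thr 27 39 (.thr 31 19 (.thr 47 63 (.thr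 46 44 (.thr 42 32 (.thr 2 62 (.thr 34 38 (.dbl 50 18 49)))))))))))))))) .nd))))))) (.rp 8 (.str 12 (.nv (.thr 28 44 (.thr 19 25 (.thr 31 27 (.thr 26 16 (.dbl 30 18 29))))) (.nv (.thr 3 41 (.thr 9 6 (.thr 13 1 (.thr 28 44 (.dbl 25 19 49))))) (.nv (.thr 3 41 (.thr 48 56 (.thr 18 33 (.dbl 26 15 30)))) (.rp 11 (.str 9 (.nv (.thr 13 1 (.thr 25 49 (.dbl 28 19 44))) (.nv (.dbl 3 6 41) (.rp 3 (.str 15 (.nv (.dbl 48 26 56) (.nv (.dbl 13 1 14) (.rp 2 (.thr 1 13 (.dbl 48 26 56)) (.rp 1 (.str 2 (.nv (.thr 13 14 (.thr 25 49 (.dbl 28 19 44))) (.nv (.dbl 48 26 56) .nd))) .nd))))) .nd)))) (.rp 9 (.str 11 (.nv (.thr 56 48 (.dbl 41 3 26)) (.nv (.thr 41 3 (.dbl 56 26 48)) (.rp 56 (.thr 44 28 (.thr 41 3 (.thr 38 35 (.thr 54 6 (.dbl 51 25 57))))) (.rp 48 (.thr 44 28 (.thr 41 3 (.thr 38 35 (.thr 54 6 (.dbl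 51 25 57))))) (.rp 41 (.thr 28 44 (.thr 25 19 (.thr 38 51 (.thr 36 39 (.dbl 48 24 56))))) (.rp 26 (.thr 44 28 (.thr 41 3 (.thr 38 35 (.thr 54 6 (.dbl 51 25 57))))) (.rp 3 (.thr 28 44 (.thr 25 19 (.thr 51 38 (.thr 49 13 (.dbl 48 50 56))))) .nd)))))))) .nd)))))) (.rp 3 (.thr 48 56 (.thr 15 26 (.thr 45 30 (.thr 41 33 (.thr 1 61 (.thr 13 9 (.thr 12 14 (.thr 28 44 (.dbl 25 19 49))))))))) .nd))))))))))) .nd))))))))))))))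

theorem w19 : WinAt (6291456, 1025) :=
  chF (K := []) kn c19 6291456 1025 10
    [33825] (by decide +kernel) (by decide +kernel)

end Pool.Agent.TTT.B43
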