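import Pool.Agent.TTT.B43

/-!
Certified forced wins in positions of the 4 x 4 x 4 board.
-/

set_option autoImplicit false
set_option maxRecDepth 1000000
set_option linter.all false

namespace Pool.Agent.TTT.B43

/-- A certificate. -/
noncomputable def c399 : Ct := (.str 38 (.nv (.thr 40 43 (.thr 44 35 (.thr 32 36 (.thr 46 34 (.dbl 47 37 45))))) (.nv (.thr 43 40 (.thr 35 44 (.thr 47 39 (.thr 34 46 (.dbl 32 33 37))))) (.rp 47 (.thr 55 4 (.str 25 (.nv (.thr 9 57 (.thr 12 51 (.thr 3 6 (.thr 43 40 (.thr 63 23 (.dbl 29 17 46)))))) (.nv (.thr 8 59 (.thr 40 43 (.thr 9 57 (.thr 56 24 (.dbl 11 10 26))))) (.rp 57 (.thr 17 29 (.thr 34 46 (.thr 59 8 (.thr 12 51 (.thr 43 40 (.thr 11 27 (.thr 44 35 (.thr 56 26 (.thr 60 28 (.thr 52 48 (.thr 53 54 (.thr 37 5 (.thr 45 33 (.thr 39 36 (.thr 7 23 (.dbl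 15 3 30)))))))))))))))) (.rp 43 (.thr 57 9 (.thr 8 59 (.thr 51 12 (.thr 54 60 (.thr 53 52 (.thr 49 61 (.dbl 37 5 13))))))) (.rp 40 (.thr 9 57 (.thr 8 59 (.thr 11 10 (.thr 51 12 (.thr 35 44 (.thr 3 19 (.thr 15 7 (.thr 27 39 (.dbl 26 24 56))))))))) (.rp 9 (.thr 8 59 (.thr 12 51 (.thr 40 43 (.thr 24 56 (.thr 36 48 (.dbl 44 32 35)))))) (.rp 8 (.thr 12 51 (.thr 9 57 (.thr 3 6 (.thr 43 40 (.thr 63 23 (.dbl 29 17 46)))))) (.rp 3 (.str 2 (.nv (.thr 8 59 (.thr 9 57 (.thr 10 11 (.thr 14 6 (.dbl 26 50 58))))) (.nv (.thr 8 59 (.thr 34 46 (.thr 40 43 (.thr 56 24 (.thr 50 18 (.dbl 26 11 14)))))) (.nv (.thr 8 59 (.thr 9 57 (.thr 11 10 (.thr 56 26 (.dbl 40 24 43))))) (.rp 59 (.thr 34 46 (.thr 50 18 (.thr 26 14 (.thr 12 51 (.thr 16 31 (.thr 24 27 (.thr 28 20 (.dbl 44 35 60)))))))) (.rp 56 (.thr 17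 29 (.thr 9 57 (.thr 34 46 (.thr 50 18 (.thr 26 14 (.thr 10 58 (.thr 59 8 (.thr 12 51 (.thr 40 43 (.thr 16 31 (.thr 24 27 (.thr 28 20 (.dbl 44 35 60))))))))))))) (.rp 43 (.thr 9 57 (.thr 34 46 (.thr 50 18 (.thr 26 14 (.thr 10 58 (.dbl 11 8 56)))))) (.rp 26 (.thr 29 17 (.thr 34 46 (.thr 8 59 (.thr 12 51 (.thr 40 43 (.thr 24 56 (.thr 36 48 (.dbl 44 32 35)))))))) (.rp 11 (.thr 17 29 (.thr 9 57 (.thr 34 46 (.thr 50 18 (.thr 26 14 (.thr 10 58 (.thr 59 8 (.thr 12 51 (.thr 40 43 (.thr 16 31 (.thr 24 27 (.thr 28 20 (.dbl 44 35 60))))))))))))) (.rp 8 (.thr 12 51 (.thr 34 46 (.thr 50 18 (.thr 26 14 (.thr 16 31 (.thr 24 27 (.thr 28 20 (.dbl 44 35 60)))))))) .nd)))))))))) (.rp 2 (.str 3 (.nv (.thr 12 51 (.thr 43 40 (.thr 63 23 (.dbl 29 17 46)))) (.nv (.thr 9 57 (.dbl 12 6 51)) (.rp 51 (.thr 9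 57 (.thr 8 59 (.thr 11 10 (.thr 40 43 (.dbl 56 24 26))))) (.rp 12 (.thr 8 59 (.thr 9 57 (.thr 11 10 (.thr 40 43 (.dbl 56 24 26))))) .nd))))) .nd))))))))))) (.rp 46 (.thr 55 4 (.str 8 (.nv (.thr 35 44 (.thr 43 40 (.thr 59 25 (.thr 27 11 (.thr 51 63 (.dbl 39 15 47)))))) (.nv (.thr 25 59 (.thr 40 43 (.thr 9 57 (.thr 56 24 (.dbl 11 10 26))))) (.rp 59 (.thr 40 43 (.thr 56 24 (.thr 11 26 (.thr 9 10 (.thr 25 57 (.thr 44 35 (.thr 36 32 (.thr 39 37 (.thr 7 23 (.thr 12 51 (.dbl 3 6 15))))))))))) (.rp 43 (.thr 25 59 (.thr 57 9 (.thr 51 12 (.thr 54 60 (.thr 53 52 (.thr 49 61 (.dbl 37 5 13))))))) (.rp 40 (.thr 25 59 (.thr 9 57 (.thr 11 10 (.thr 35 44 (.thr 51 12 (.thr 3 19 (.thr 15 7 (.thr 27 39 (.dbl 26 24 56))))))))) (.rp 27 (.thr 40 43 (.thr 56 24 (.thr 11 26 (.thr 25 59 (.dbl 9 10 57)))))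 (.rp 25 (.thr 40 43 (.thr 56 24 (.thr 26 11 (.thr 58 10 (.thr 59 57 (.thr 31 16 (.thr 63 51 (.thr 15 47 (.dbl 48 37 53))))))))) (.rp 11 (.thr 40 43 (.thr 24 56 (.thr 25 59 (.thr 27 26 (.thr 44 35 (.thr 36 32 (.dbl 12 48 51))))))) (.rp 3 (.str 2 (.nv (.thr 25 59 (.thr 9 57 (.thr 10 11 (.thr 14 6 (.dbl 26 50 58))))) (.nv (.thr 35 44 (.thr 43 40 (.thr 59 25 (.thr 27 11 (.thr 51 63 (.dbl 39 15 47)))))) (.nv (.thr 25 59 (.thr 40 43 (.thr 9 57 (.thr 56 24 (.dbl 11 10 26))))) (.rp 59 (.str 32 (.nv (.thr 40 43 (.thr 36 44 (.dbl 37 39 47))) (.nv (.thr 35 44 (.thr 33 34 (.dbl 37 45 47))) (.nv (.thr 44 35 (.dbl 40 36 43)) (.rp 44 (.thr 40 43 (.thr 56 24 (.thr 37 47 (.thr 45 33 (.thr 53 5 (.thr 52 54 (.thr 48 60 (.dbl 26 11 15)))))))) .nd))))) (.rp 43 (.str 6 (.nv (.thr 10 14 (.thr 9 11 (.dbl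 25 57 59))) (.nv (.thr 14 10 (.thr 26 50 (.thr 56 11 (.thr 24 40 (.dbl 25 27 59))))) (.nv (.thr 10 14 (.thr 26 58 (.dbl 11 9 56))) (.rp 63 (.str 23 (.nv (.thr 10 14 (.thr 11 9 (.dbl 26 56 58))) (.nv (.thr 10 14 (.thr 26 58 (.thr 31 16 (.thr 27 19 (.dbl 25 24 59))))) (.nv (.thr 25 59 (.thr 9 57 (.dbl 10 11 14))) (.rp 58 (.thr 25 59 (.thr 10 14 (.dbl 9 11 57))) (.rp 29 (.str 12 (.nv (.thr 10 14 (.thr 11 9 (.dbl 26 56 58))) (.nv (.dbl 25 51 59) .nd))) (.rp 14 (.thr 39 7 (.thr 37 36 (.thr 25 59 (.thr 57 9 (.thr 51 12 (.thr 29 17 (.thr 54 60 (.dbl 53 5 52)))))))) (.rp 12 (.str 29 (.nv (.thr 10 14 (.thr 11 9 (.dbl 26 56 58))) (.nv (.dbl 25 17 59) .nd))) (.rp 10 (.thr 39 7 (.thr 37 36 (.thr 25 59 (.thr 57 9 (.thr 51 12 (.thr 29 17 (.thr 54 60 (.dbl 53 5 52)))))))) .nd))))))))) (.rp 23 (.str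 63 (.nv (.thr 10 14 (.thr 11 9 (.dbl 26 56 58))) (.nv (.dbl 59 25 51) .nd))) (.rp 14 (.thr 25 59 (.thr 57 9 (.thr 51 12 (.thr 54 60 (.thr 53 52 (.thr 49 61 (.dbl 37 5 13))))))) (.rp 11 (.thr 10 14 (.thr 26 58 (.thr 25 59 (.thr 27 24 (.thr 51 12 (.thr 31 16 (.thr 23 19 (.dbl 39 7 15)))))))) (.rp 10 (.thr 25 59 (.thr 57 9 (.thr 51 12 (.thr 54 60 (.thr 53 52 (.thr 49 61 (.dbl 37 5 13))))))) .nd))))))))) (.rp 27 (.thr 25 59 (.thr 9 57 (.thr 40 43 (.thr 11 10 (.dbl 56 24 26))))) (.rp 25 (.thr 40 43 (.thr 56 24 (.thr 26 11 (.thr 10 58 (.dbl 14 6 50))))) (.rp 11 (.thr 40 43 (.thr 24 56 (.thr 25 59 (.thr 27 26 (.thr 44 35 (.thr 36 32 (.dbl 12 48 51))))))) .nd))))))))) (.rp 2 (.str 3 (.nv (.thr 35 44 (.thr 43 40 (.thr 23 63 (.dbl 39 7 47)))) (.nv (.thr 25 59 (.thr 9 57 (.dbl 12 6 51))) (.rp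 12 (.thr 59 25 (.thr 43 40 (.dbl 63 23 51))) .nd)))) .nd)))))))))))) (.rp 44 (.str 11 (.nv (.thr 43 40 (.thr 55 4 (.thr 59 27 (.thr 51 63 (.dbl 25 8 12))))) (.nv (.thr 40 43 (.thr 56 26 (.thr 8 24 (.thr 25 59 (.dbl 9 10 57))))) (.rp 59 (.thr 46 34 (.thr 26 56 (.thr 31 16 (.thr 14 50 (.thr 30 62 (.thr 29 28 (.thr 12 63 (.dbl 25 17 51)))))))) (.rp 43 (.thr 46 34 (.thr 26 56 (.thr 31 16 (.thr 14 50 (.thr 30 62 (.thr 29 28 (.thr 12 63 (.dbl 25 17 51)))))))) (.rp 40 (.thr 46 34 (.thr 26 56 (.thr 31 16 (.thr 14 50 (.thr 30 62 (.thr 29 28 (.thr 12 63 (.dbl 25 17 51)))))))) (.rp 25 (.thr 43 40 (.thr 55 4 (.thr 59 27 (.thr 63 51 (.thr 3 23 (.thr 15 7 (.thr 31 47 (.dbl 26 16 56)))))))) (.rp 8 (.thr 46 34 (.thr 26 56 (.thr 31 16 (.thr 14 50 (.thr 30 62 (.thr 29 28 (.thr 12 63 (.dbl 25 17 51))))))))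 (.rp 3 (.str 2 (.nv (.thr 34 46 (.thr 50 18 (.dbl 26 14 56))) (.nv (.thr 26 56 (.thr 10 58 (.thr 43 40 (.thr 59 27 (.dbl 8 9 25))))) (.nv (.thr 26 56 (.thr 14 50 (.dbl 10 6 58))) (.rp 56 (.thr 43 40 (.thr 55 4 (.thr 59 27 (.thr 51 63 (.dbl 25 8 12))))) (.rp 26 (.thr 43 40 (.thr 55 4 (.thr 59 27 (.thr 51 63 (.dbl 25 8 12))))) .nd)))))) (.rp 2 (.str 3 (.nv (.thr 26 56 (.thr 10 58 (.thr 8 9 (.thr 59 25 (.dbl 43 27 40))))) (.nv (.thr 43 40 (.thr 55 4 (.thr 59 27 (.dbl 63 23 51)))) (.nv (.thr 15 7 (.thr 26 56 (.thr 31 16 (.thr 47 63 (.dbl 37 32 48))))) .nd)))) .nd)))))))))) (.rp 43 (.thr 35 44 (.str 3 (.nv (.thr 55 4 (.thr 51 19 (.thr 59 63 (.dbl 25 8 12)))) (.rp 63 (.thr 34 46 (.thr 33 32 (.thr 19 51 (.thr 18 48 (.thr 16 17 (.thr 26 31 (.dbl 50 2 14))))))) (.rp 59 (.thr 34 46 (.thr 33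 32 (.thr 19 51 (.thr 18 48 (.thr 16 17 (.thr 26 31 (.dbl 50 2 14))))))) (.rp 55 (.thr 34 46 (.thr 33 32 (.thr 19 51 (.thr 18 48 (.thr 16 17 (.thr 26 31 (.dbl 50 2 14))))))) (.rp 51 (.str 25 (.nv (.thr 4 55 (.thr 9 57 (.thr 6 12 (.thr 5 7 (.thr 34 46 (.thr 32 33 (.dbl 37 47 53))))))) (.nv (.thr 4 55 (.thr 9 57 (.thr 6 12 (.thr 7 5 (.thr 11 15 (.thr 10 8 (.dbl 26 56 58))))))) (.nv (.thr 17 29 (.thr 34 46 (.thr 33 32 (.thr 18 48 (.thr 16 19 (.thr 50 2 (.dbl 26 14 31))))))) (.rp 63 (.thr 9 57 (.thr 34 46 (.thr 12 6 (.thr 33 32 (.thr 48 18 (.thr 36 24 (.dbl 37 39 45))))))) (.rp 34 (.thr 17 29 (.thr 9 57 (.thr 8 59 (.thr 11 10 (.thr 15 7 (.thr 12 6 (.thr 14 13 (.dbl 26 50 56)))))))) (.rp 17 (.thr 34 46 (.thr 9 57 (.thr 4 55 (.thr 6 12 (.thr 5 7 (.thr 37 53 (.dbl 33 32 45))))))) (.rp 12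 (.thr 9 57 (.thr 34 46 (.thr 8 59 (.thr 11 10 (.thr 15 7 (.thr 33 32 (.thr 48 18 (.dbl 37 26 45)))))))) .nd)))))))) (.rp 28 (.thr 34 46 (.thr 33 32 (.thr 19 51 (.thr 18 48 (.thr 16 17 (.thr 26 31 (.dbl 50 2 14))))))) (.rp 25 (.thr 34 46 (.thr 33 32 (.thr 19 51 (.thr 18 48 (.thr 16 17 (.thr 26 31 (.dbl 50 2 14))))))) (.rp 19 (.str 25 (.nv (.thr 9 57 (.dbl 12 6 51)) (.rp 57 (.thr 34 46 (.thr 51 12 (.thr 33 32 (.thr 48 18 (.thr 49 50 (.dbl 37 13 45)))))) (.rp 51 (.thr 9 57 (.thr 34 46 (.thr 4 55 (.thr 6 12 (.thr 5 7 (.thr 37 53 (.dbl 33 32 45))))))) (.rp 12 (.thr 9 57 (.thr 34 46 (.thr 8 59 (.thr 11 10 (.thr 15 7 (.thr 33 32 (.thr 48 18 (.dbl 37 26 45)))))))) (.rp 9 (.thr 34 46 (.thr 51 12 (.thr 33 32 (.thr 48 18 (.thr 49 50 (.dbl 37 13 45)))))) (.rp 6 (.thr 34 46 (.thr 51 12 (.thr 33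 32 (.thr 48 18 (.thr 49 50 (.dbl 37 13 45)))))) .nd))))))) (.rp 12 (.thr 34 46 (.thr 33 32 (.thr 19 51 (.thr 18 48 (.thr 16 17 (.thr 26 31 (.dbl 50 2 14))))))) (.rp 8 (.thr 34 46 (.thr 33 32 (.thr 19 51 (.thr 18 48 (.thr 16 17 (.thr 26 31 (.dbl 50 2 14))))))) (.rp 4 (.thr 34 46 (.thr 33 32 (.thr 19 51 (.thr 18 48 (.thr 16 17 (.thr 26 31 (.dbl 50 2 14))))))) .nd))))))))))))) (.rp 40 (.str 51 (.nv (.thr 55 4 (.thr 59 63 (.dbl 25 8 12))) (.rp 63 (.thr 44 35 (.thr 46 34 (.thr 45 47 (.thr 25 12 (.thr 29 17 (.thr 13 61 (.dbl 37 33 49))))))) (.rp 60 (.str 20 (.nv (.thr 12 25 (.thr 46 34 (.thr 55 4 (.dbl 63 29 59)))) (.nv (.thr 55 4 (.thr 59 63 (.dbl 25 8 12))) (.rp 63 (.thr 34 46 (.thr 35 44 (.thr 32 33 (.thr 4 55 (.thr 36 52 (.dbl 37 39 47)))))) (.rp 59 (.thr 34 46 (.thr 35 44 (.thr 32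 33 (.thr 4 55 (.thr 36 52 (.dbl 37 39 47)))))) (.rp 55 (.thr 46 34 (.thr 44 35 (.thr 45 47 (.thr 25 12 (.thr 29 17 (.thr 13 61 (.dbl 37 33 49))))))) (.rp 25 (.thr 34 46 (.thr 35 44 (.thr 32 33 (.thr 4 55 (.thr 36 52 (.dbl 37 39 47)))))) (.rp 12 (.thr 34 46 (.thr 4 55 (.thr 36 52 (.thr 37 39 (.thr 33 45 (.dbl 32 35 47)))))) (.rp 4 (.thr 46 34 (.thr 44 35 (.thr 45 47 (.thr 25 12 (.thr 8 59 (.thr 29 17 (.thr 13 61 (.dbl 37 33 49)))))))) (.rp 3 (.str 2 (.nv (.thr 55 4 (.thr 59 63 (.dbl 25 8 12))) (.nv (.thr 55 4 (.thr 63 59 (.thr 46 34 (.dbl 12 25 29)))) (.rp 63 (.thr 4 55 (.thr 36 52 (.thr 37 39 (.thr 35 44 (.thr 33 45 (.dbl 32 34 47)))))) (.rp 59 (.thr 4 55 (.thr 36 52 (.thr 37 39 (.thr 35 44 (.thr 33 45 (.dbl 32 34 47)))))) (.rp 55 (.thr 34 46 (.thr 50 18 (.thr 25 12 (.thr 26 14 (.thr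 24 27 (.dbl 16 28 31)))))) (.rp 25 (.thr 4 55 (.thr 36 52 (.thr 37 39 (.thr 35 44 (.thr 33 45 (.dbl 32 34 47)))))) (.rp 12 (.thr 4 55 (.thr 36 52 (.thr 37 39 (.thr 44 35 (.thr 45 33 (.dbl 46 34 47)))))) (.rp 8 (.thr 55 4 (.thr 12 25 (.thr 63 59 (.dbl 46 29 34)))) (.rp 4 (.thr 34 46 (.thr 50 18 (.thr 26 14 (.thr 16 31 (.thr 24 28 (.dbl 25 12 27)))))) .nd)))))))))) (.rp 2 (.str 3 (.nv (.thr 55 4 (.thr 59 63 (.dbl 25 8 12))) (.nv (.dbl 35 19 44) .nd))) .nd))))))))))) (.rp 59 (.thr 44 35 (.thr 46 34 (.thr 45 47 (.thr 25 12 (.thr 29 17 (.thr 13 61 (.dbl 37 33 49))))))) (.rp 55 (.thr 44 35 (.thr 46 34 (.thr 45 47 (.thr 25 12 (.thr 29 17 (.thr 13 61 (.dbl 37 33 49))))))) (.rp 25 (.thr 35 44 (.thr 34 46 (.thr 32 33 (.thr 47 37 (.thr 39 43 (.thr 55 4 (.thr 63 59 (.dbl 15 27 31)))))))) (.rp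 20 (.str 60 (.nv (.thr 44 35 (.dbl 12 25 28)) (.nv (.thr 57 54 (.dbl 25 9 12)) (.rp 25 (.thr 44 35 (.thr 46 34 (.thr 55 4 (.thr 63 59 (.dbl 12 28 29))))) (.rp 12 (.thr 44 35 (.thr 46 34 (.thr 45 47 (.thr 15 30 (.thr 39 27 (.dbl 37 33 36)))))) (.rp 3 (.str 2 (.nv (.thr 44 35 (.dbl 12 25 28)) (.nv (.thr 57 54 (.dbl 25 9 12)) (.rp 25 (.thr 55 4 (.thr 63 59 (.thr 44 35 (.thr 46 34 (.dbl 12 28 29))))) (.rp 12 (.thr 54 57 (.thr 34 46 (.thr 50 18 (.thr 58 62 (.dbl 26 10 14))))) .nd))))) (.rp 2 (.str 3 (.nv (.thr 25 12 (.dbl 57 9 54)) (.nv (.dbl 35 19 44) .nd))) .nd))))))) (.rp 12 (.thr 35 44 (.thr 34 46 (.thr 32 33 (.thr 47 37 (.thr 39 43 (.thr 15 27 (.thr 63 31 (.dbl 55 4 59)))))))) (.rp 8 (.thr 46 34 (.thr 55 4 (.thr 12 25 (.dbl 63 29 59)))) (.rp 4 (.thr 44 35 (.thr 46 34 (.thr 45 47 (.thr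 25 12 (.thr 8 59 (.thr 29 17 (.thr 13 61 (.dbl 37 33 49)))))))) (.rp 3 (.str 2 (.nv (.thr 12 25 (.thr 46 34 (.thr 55 4 (.dbl 63 29 59)))) (.nv (.thr 55 4 (.thr 59 63 (.dbl 25 8 12))) (.rp 63 (.thr 25 12 (.thr 8 59 (.thr 9 57 (.thr 10 11 (.thr 14 6 (.dbl 26 50 58)))))) (.rp 60 (.str 20 (.nv (.thr 55 4 (.thr 59 63 (.dbl 25 8 12))) (.nv (.thr 55 4 (.thr 63 59 (.thr 46 34 (.dbl 12 25 29)))) (.rp 63 (.thr 4 55 (.thr 36 52 (.thr 37 39 (.thr 35 44 (.thr 33 45 (.dbl 32 34 47)))))) (.rp 59 (.thr 4 55 (.thr 36 52 (.thr 37 39 (.thr 35 44 (.thr 33 45 (.dbl 32 34 47)))))) (.rp 55 (.thr 34 46 (.thr 50 18 (.thr 25 12 (.thr 26 14 (.thr 24 27 (.dbl 16 28 31)))))) (.rp 25 (.thr 4 55 (.thr 36 52 (.thr 37 39 (.thr 35 44 (.thr 33 45 (.dbl 32 34 47)))))) (.rp 12 (.thr 4 55 (.thr 36 52 (.thr 37 39 (.thr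 44 35 (.thr 45 33 (.dbl 46 34 47)))))) (.rp 8 (.thr 55 4 (.thr 12 25 (.thr 63 59 (.dbl 46 29 34)))) (.rp 4 (.thr 34 46 (.thr 50 18 (.thr 26 14 (.thr 16 31 (.thr 24 28 (.dbl 25 12 27)))))) .nd)))))))))) (.rp 59 (.thr 35 44 (.thr 34 46 (.thr 50 18 (.thr 48 49 (.thr 26 14 (.thr 37 15 (.dbl 32 33 47))))))) (.rp 55 (.thr 25 12 (.thr 8 59 (.thr 9 57 (.thr 10 11 (.thr 14 6 (.dbl 26 50 58)))))) (.rp 25 (.thr 55 4 (.thr 59 63 (.thr 34 46 (.thr 50 18 (.thr 26 14 (.thr 58 10 (.dbl 56 11 57))))))) (.rp 20 (.str 60 (.nv (.thr 44 35 (.dbl 12 25 28)) (.nv (.thr 57 54 (.dbl 25 9 12)) (.rp 25 (.thr 55 4 (.thr 63 59 (.thr 44 35 (.thr 46 34 (.dbl 12 28 29))))) (.rp 12 (.thr 54 57 (.thr 34 46 (.thr 50 18 (.thr 58 62 (.dbl 26 10 14))))) .nd))))) (.rp 12 (.thr 34 46 (.thr 50 18 (.thr 48 49 (.thr 26 14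 (.thr 58 10 (.thr 63 53 (.dbl 55 4 59))))))) (.rp 4 (.thr 25 12 (.thr 8 59 (.thr 9 57 (.thr 10 11 (.thr 14 6 (.dbl 26 50 58)))))) .nd))))))))))) (.rp 2 (.str 3 (.nv (.thr 55 4 (.thr 59 63 (.dbl 25 8 12))) (.nv (.dbl 35 19 44) (.rp 60 (.str 20 (.nv (.thr 55 4 (.thr 59 63 (.dbl 25 8 12))) (.nv (.dbl 35 19 44) .nd))) (.rp 20 (.str 60 (.nv (.thr 25 12 (.dbl 57 9 54)) (.nv (.dbl 35 19 44) .nd))) .nd))))) .nd))))))))))))) (.rp 39 (.thr 40 43 (.thr 46 34 (.thr 44 35 (.thr 47 45 (.dbl 32 36 37))))) (.rp 37 (.thr 35 44 (.str 3 (.nv (.thr 43 40 (.thr 46 34 (.thr 51 19 (.thr 63 23 (.dbl 12 25 29))))) (.nv (.thr 43 40 (.thr 23 63 (.thr 39 47 (.dbl 55 4 7)))) (.nv (.thr 51 19 (.thr 55 4 (.thr 59 63 (.dbl 25 8 12)))) (.rp 63 (.thr 43 40 (.thr 39 47 (.thr 55 4 (.thr 7 23 (.thr 15 11 (.dbl 51 19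 27)))))) (.rp 52 (.str 7 (.nv (.thr 4 55 (.thr 6 5 (.thr 51 19 (.dbl 12 9 25)))) (.nv (.thr 43 40 (.thr 23 63 (.dbl 39 47 55))) (.rp 55 (.thr 15 11 (.thr 43 40 (.thr 47 39 (.dbl 63 23 31)))) .nd)))) (.rp 7 (.str 52 (.nv (.thr 43 40 (.thr 39 47 (.thr 46 34 (.thr 63 23 (.thr 12 29 (.dbl 51 19 25)))))) (.nv (.thr 51 19 (.thr 55 4 (.thr 59 63 (.dbl 25 8 12)))) (.rp 63 (.thr 51 19 (.thr 55 4 (.thr 54 53 (.thr 57 60 (.dbl 25 9 12))))) (.rp 51 (.thr 55 4 (.thr 53 54 (.thr 43 40 (.thr 63 23 (.thr 48 58 (.thr 33 18 (.dbl 34 32 46))))))) (.rp 25 (.thr 55 4 (.thr 43 40 (.thr 63 23 (.dbl 51 19 59)))) (.rp 19 (.thr 55 4 (.thr 43 40 (.thr 63 23 (.thr 51 59 (.thr 46 34 (.dbl 12 25 29)))))) (.rp 12 (.thr 51 19 (.thr 43 40 (.thr 63 23 (.dbl 55 4 59)))) .nd)))))))) .nd)))))))) (.rp 36 (.thr 43 40 (.thr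 34 46 (.thr 35 44 (.thr 32 33 (.dbl 47 37 39))))) (.rp 35 (.str 26 (.nv (.thr 58 10 (.thr 40 43 (.thr 56 11 (.thr 8 24 (.dbl 59 25 57))))) (.nv (.thr 10 58 (.thr 43 40 (.thr 11 56 (.thr 59 27 (.dbl 8 9 25))))) (.rp 59 (.thr 58 10 (.thr 55 4 (.thr 50 14 (.thr 54 62 (.thr 53 52 (.thr 48 63 (.dbl 37 5 15))))))) (.rp 58 (.thr 43 40 (.thr 11 56 (.thr 59 27 (.thr 55 4 (.thr 51 63 (.dbl 25 8 12)))))) (.rp 56 (.thr 58 10 (.thr 55 4 (.thr 50 14 (.thr 54 62 (.thr 53 52 (.thr 48 63 (.dbl 37 5 15))))))) (.rp 43 (.thr 58 10 (.thr 56 11 (.thr 59 57 (.thr 55 4 (.thr 51 63 (.dbl 25 8 12)))))) (.rp 40 (.thr 58 10 (.thr 56 11 (.thr 59 57 (.thr 55 4 (.thr 51 63 (.dbl 25 8 12)))))) (.rp 27 (.thr 58 10 (.thr 40 43 (.thr 56 11 (.thr 59 57 (.dbl 8 24 25))))) (.rp 25 (.thr 58 10 (.thr 55 4 (.thr 50 14 (.thr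 54 62 (.thr 53 52 (.thr 48 63 (.dbl 37 5 15))))))) (.rp 24 (.thr 10 58 (.thr 43 40 (.thr 11 56 (.thr 8 9 (.dbl 59 25 27))))) (.rp 11 (.thr 58 10 (.thr 55 4 (.thr 50 14 (.thr 54 62 (.thr 53 52 (.thr 48 63 (.dbl 37 5 15))))))) (.rp 10 (.thr 43 40 (.thr 11 56 (.thr 59 27 (.thr 55 4 (.thr 51 63 (.dbl 25 8 12)))))) (.rp 8 (.thr 46 34 (.thr 14 50 (.thr 30 62 (.thr 31 16 (.thr 29 28 (.thr 12 63 (.dbl 25 17 51))))))) (.rp 3 (.str 2 (.nv (.thr 34 46 (.dbl 50 14 18)) (.nv (.thr 10 58 (.dbl 14 6 50)) (.rp 51 (.str 19 (.nv (.thr 11 56 (.thr 31 16 (.thr 27 23 (.dbl 43 40 59)))) (.nv (.thr 34 46 (.dbl 50 14 18)) (.rp 34 (.str 17 (.nv (.thr 10 58 (.dbl 14 6 50)) (.nv (.dbl 16 18 31) (.rp 33 (.str 32 (.nv (.thr 10 58 (.dbl 14 6 50)) (.nv (.dbl 16 18 31) (.rp 48 (.thr 18 16 (.thr 10 58 (.dbl 14 6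 50))) (.rp 18 (.str 48 (.nv (.thr 10 58 (.dbl 14 6 50)) (.nv (.dbl 37 15 47) .nd))) .nd))))) (.rp 32 (.str 33 (.nv (.thr 10 58 (.dbl 14 6 50)) (.nv (.dbl 16 18 31) (.rp 16 (.str 48 (.nv (.thr 10 58 (.dbl 14 6 50)) (.nv (.dbl 37 15 45) .nd))) .nd)))) .nd))))) .nd)))) (.rp 50 (.thr 43 40 (.thr 10 58 (.thr 11 56 (.thr 8 9 (.dbl 59 25 27))))) (.rp 19 (.str 51 (.nv (.thr 55 4 (.thr 59 63 (.dbl 25 8 12))) (.nv (.thr 10 58 (.dbl 14 6 50)) (.rp 28 (.thr 25 12 (.thr 10 58 (.dbl 14 6 50))) (.rp 25 (.str 28 (.nv (.thr 11 56 (.thr 43 40 (.thr 55 4 (.dbl 59 27 63)))) (.nv (.thr 10 58 (.dbl 14 6 50)) .nd))) .nd))))) (.rp 14 (.thr 43 40 (.thr 10 58 (.thr 11 56 (.thr 8 9 (.dbl 59 25 27))))) .nd))))))) (.rp 2 (.str 3 (.nv (.thr 43 40 (.thr 10 58 (.thr 11 56 (.thr 8 9 (.dbl 59 25 27))))) (.nv (.thr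 11 56 (.thr 15 7 (.thr 31 16 (.thr 47 63 (.dbl 37 32 48))))) (.rp 56 (.thr 43 40 (.thr 58 10 (.thr 31 16 (.thr 63 23 (.thr 48 53 (.dbl 15 37 47)))))) (.rp 11 (.thr 43 40 (.thr 58 10 (.thr 31 16 (.thr 63 23 (.thr 48 53 (.dbl 15 37 47)))))) .nd))))) .nd)))))))))))))))) (.rp 34 (.thr 43 40 (.thr 35 44 (.thr 39 47 (.thr 55 4 (.thr 23 7 (.thr 3 63 (.thr 51 19 (.thr 15 27 (.thr 25 12 (.thr 8 59 (.thr 57 9 (.thr 60 54 (.thr 45 30 (.dbl 37 33 36)))))))))))))) (.rp 32 (.thr 40 43 (.thr 35 44 (.str 26 (.nv (.thr 16 31 (.thr 56 11 (.thr 8 24 (.thr 59 25 (.dbl 58 10 57))))) (.nv (.thr 58 10 (.thr 56 11 (.thr 8 24 (.dbl 59 25 57)))) (.rp 59 (.thr 58 10 (.thr 55 4 (.thr 50 14 (.thr 54 62 (.thr 53 52 (.thr 48 63 (.dbl 37 5 15))))))) (.rp 58 (.thr 56 11 (.thr 24 8 (.thr 4 55 (.thr 16 31 (.thr 20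 28 (.thr 36 52 (.thr 37 39 (.dbl 48 12 15)))))))) (.rp 57 (.thr 58 10 (.thr 55 4 (.thr 50 14 (.thr 54 62 (.thr 53 52 (.thr 48 63 (.dbl 37 5 15))))))) (.rp 56 (.thr 58 10 (.thr 55 4 (.thr 50 14 (.thr 54 62 (.thr 53 52 (.thr 48 63 (.dbl 37 5 15))))))) (.rp 27 (.thr 58 10 (.thr 56 11 (.thr 59 57 (.dbl 8 24 25)))) (.rp 25 (.thr 58 10 (.thr 55 4 (.thr 50 14 (.thr 54 62 (.thr 53 52 (.thr 48 63 (.dbl 37 5 15))))))) (.rp 24 (.thr 58 10 (.thr 56 11 (.thr 59 57 (.thr 55 4 (.thr 51 63 (.dbl 25 8 12)))))) (.rp 16 (.str 48 (.nv (.thr 4 55 (.thr 56 11 (.thr 52 60 (.thr 36 20 (.dbl 24 8 12))))) (.nv (.thr 58 10 (.thr 53 63 (.dbl 37 5 15))) (.rp 3 (.str 2 (.nv (.thr 34 46 (.dbl 50 14 18)) (.nv (.thr 10 58 (.dbl 14 6 50)) (.rp 63 (.str 23 (.nv (.thr 37 15 (.thr 39 36 (.dbl 55 4 7))) (.nv (.thr 10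 58 (.dbl 14 6 50)) (.rp 10 (.thr 50 14 (.dbl 34 18 46)) .nd)))) (.rp 50 (.thr 58 10 (.thr 56 11 (.thr 8 24 (.dbl 59 25 57)))) (.rp 23 (.str 63 (.nv (.thr 34 46 (.dbl 50 14 18)) (.nv (.dbl 58 10 53) .nd))) (.rp 14 (.thr 58 10 (.thr 56 11 (.thr 8 24 (.dbl 59 25 57)))) .nd))))))) (.rp 2 (.str 3 (.nv (.thr 50 14 (.dbl 51 19 49)) (.nv (.thr 11 56 (.dbl 15 7 37)) .nd))) .nd))))) (.rp 11 (.thr 58 10 (.thr 55 4 (.thr 50 14 (.thr 54 62 (.thr 53 52 (.thr 48 63 (.dbl 37 5 15))))))) (.rp 10 (.thr 56 11 (.thr 8 24 (.thr 59 25 (.thr 58 57 (.thr 55 4 (.thr 50 14 (.thr 54 62 (.thr 53 52 (.dbl 63 48 51))))))))) (.rp 8 (.thr 16 31 (.thr 50 14 (.str 3 (.nv (.thr 11 56 (.thr 15 7 (.thr 34 46 (.thr 18 2 (.dbl 48 33 37))))) (.nv (.thr 4 55 (.thr 11 56 (.thr 15 7 (.thr 51 19 (.dbl 48 37 49))))) (.nv (.thr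 19 51 (.thr 18 17 (.dbl 34 2 46))) (.rp 4 (.str 12 (.nv (.dbl 51 19 25) (.rp 51 (.thr 56 11 (.thr 9 6 (.thr 57 25 (.dbl 58 10 59)))) (.rp 25 (.thr 19 51 (.thr 18 17 (.dbl 34 2 46))) (.rp 19 (.thr 9 6 (.dbl 25 51 57)) .nd))))) .nd))))))) (.rp 3 (.str 2 (.nv (.thr 16 31 (.thr 34 46 (.dbl 50 14 18))) (.nv (.thr 10 58 (.dbl 14 6 50)) (.rp 63 (.str 23 (.nv (.thr 16 31 (.thr 14 50 (.dbl 10 6 58))) (.nv (.thr 50 14 (.dbl 34 18 46)) (.rp 50 (.thr 58 10 (.thr 56 11 (.thr 59 57 (.dbl 8 24 25)))) (.rp 16 (.str 48 (.nv (.thr 37 15 (.thr 39 36 (.dbl 55 4 7))) (.nv (.thr 10 58 (.dbl 14 6 50)) (.rp 10 (.thr 50 14 (.dbl 34 18 46)) .nd)))) (.rp 14 (.thr 58 10 (.thr 56 11 (.thr 59 57 (.dbl 8 24 25)))) .nd)))))) (.rp 50 (.thr 58 10 (.thr 56 11 (.thr 8 24 (.dbl 59 25 57)))) (.rp 23 (.str 63 (.nv (.thr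 46 34 (.thr 12 29 (.thr 51 25 (.dbl 55 4 59)))) (.nv (.thr 10 58 (.dbl 14 6 50)) (.rp 48 (.thr 16 31 (.thr 10 58 (.dbl 14 6 50))) (.rp 16 (.str 48 (.nv (.thr 34 46 (.dbl 50 14 18)) (.nv (.dbl 58 10 53) .nd))) .nd))))) (.rp 16 (.str 48 (.nv (.thr 34 46 (.dbl 50 14 18)) (.nv (.thr 10 58 (.dbl 14 6 50)) (.rp 63 (.str 23 (.nv (.thr 37 15 (.thr 39 36 (.dbl 55 4 7))) (.nv (.thr 10 58 (.dbl 14 6 50)) (.rp 10 (.thr 50 14 (.dbl 34 18 46)) .nd)))) (.rp 50 (.thr 58 10 (.thr 56 11 (.thr 8 24 (.dbl 59 25 57)))) (.rp 23 (.str 63 (.nv (.thr 34 46 (.dbl 50 14 18)) (.nv (.dbl 58 10 53) .nd))) (.rp 14 (.thr 58 10 (.thr 56 11 (.thr 8 24 (.dbl 59 25 57)))) .nd))))))) (.rp 14 (.thr 58 10 (.thr 56 11 (.thr 8 24 (.dbl 59 25 57)))) .nd)))))))) (.rp 2 (.str 3 (.nv (.thr 11 56 (.thr 14 50 (.thr 15 7 (.thr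 12 13 (.dbl 51 19 25))))) (.nv (.thr 16 31 (.thr 56 11 (.thr 8 24 (.thr 58 10 (.dbl 59 25 57))))) (.nv (.thr 51 19 (.thr 55 4 (.thr 59 63 (.dbl 25 8 12)))) (.rp 25 (.thr 58 10 (.thr 56 11 (.thr 59 57 (.thr 55 4 (.dbl 51 19 63))))) (.rp 16 (.str 48 (.nv (.thr 50 14 (.dbl 51 19 49)) (.nv (.thr 11 56 (.dbl 15 7 37)) .nd))) .nd)))))) .nd)))))))))))))))))) (.rp 3 (.str 2 (.nv (.thr 40 43 (.thr 44 35 (.thr 32 36 (.thr 46 34 (.dbl 47 37 45))))) (.nv (.thr 43 40 (.thr 35 44 (.thr 47 39 (.thr 34 46 (.dbl 32 33 37))))) (.rp 47 (.thr 34 46 (.thr 43 40 (.thr 50 18 (.thr 26 14 (.thr 10 58 (.thr 11 56 (.thr 8 9 (.dbl 59 25 27)))))))) (.rp 46 (.str 11 (.nv (.thr 26 56 (.thr 10 58 (.thr 43 40 (.thr 59 27 (.dbl 8 9 25))))) (.nv (.thr 26 56 (.thr 14 50 (.dbl 10 6 58))) (.rp 58 (.thr 43 40 (.thr 55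 4 (.thr 59 27 (.thr 51 63 (.dbl 25 8 12))))) (.rp 56 (.thr 43 40 (.thr 55 4 (.thr 59 27 (.thr 51 63 (.dbl 25 8 12))))) (.rp 26 (.thr 43 40 (.thr 55 4 (.thr 59 27 (.thr 51 63 (.dbl 25 8 12))))) (.rp 10 (.thr 43 40 (.thr 55 4 (.thr 59 27 (.thr 51 63 (.dbl 25 8 12))))) .nd))))))) (.rp 44 (.thr 34 46 (.thr 43 40 (.thr 50 18 (.thr 26 14 (.thr 10 58 (.thr 11 56 (.thr 8 9 (.dbl 59 25 27)))))))) (.rp 43 (.thr 34 46 (.thr 55 4 (.thr 50 18 (.thr 26 14 (.thr 31 16 (.thr 58 10 (.thr 56 11 (.thr 59 57 (.thr 63 51 (.thr 15 47 (.dbl 48 37 53))))))))))) (.rp 40 (.thr 34 46 (.thr 55 4 (.thr 50 18 (.thr 26 14 (.thr 58 10 (.thr 56 11 (.thr 59 57 (.thr 51 63 (.dbl 25 8 12))))))))) (.rp 39 (.thr 46 34 (.thr 44 35 (.thr 47 45 (.thr 40 43 (.dbl 32 36 37))))) (.rp 37 (.thr 34 46 (.thr 43 40 (.thr 50 18 (.thr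 26 14 (.thr 10 58 (.thr 11 56 (.thr 8 9 (.dbl 59 25 27)))))))) (.rp 36 (.thr 34 46 (.thr 35 44 (.thr 43 40 (.thr 32 33 (.dbl 47 37 39))))) (.rp 35 (.thr 34 46 (.thr 43 40 (.thr 50 18 (.thr 26 14 (.thr 10 58 (.thr 11 56 (.thr 8 9 (.dbl 59 25 27)))))))) (.rp 34 (.str 25 (.nv (.thr 8 59 (.thr 9 57 (.thr 10 11 (.thr 14 6 (.dbl 26 50 58))))) (.nv (.thr 4 55 (.thr 35 44 (.thr 43 40 (.thr 39 47 (.thr 51 12 (.thr 27 15 (.dbl 59 8 11))))))) (.nv (.thr 8 59 (.thr 40 43 (.thr 9 57 (.thr 56 24 (.dbl 11 10 26))))) (.rp 59 (.thr 43 40 (.thr 35 44 (.thr 39 47 (.thr 51 12 (.thr 27 15 (.thr 26 24 (.thr 14 50 (.dbl 10 6 58)))))))) (.rp 51 (.thr 17 29 (.thr 43 40 (.thr 59 8 (.thr 11 27 (.thr 57 9 (.dbl 56 26 58)))))) (.rp 43 (.thr 17 29 (.thr 12 51 (.thr 8 59 (.thr 9 57 (.thr 11 10 (.thr 56 26 (.thr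 24 40 (.thr 48 36 (.thr 60 52 (.dbl 44 28 35)))))))))) (.rp 27 (.thr 40 43 (.thr 9 57 (.thr 8 59 (.thr 11 10 (.dbl 56 24 26))))) (.rp 17 (.thr 51 12 (.thr 43 40 (.thr 35 44 (.thr 39 47 (.thr 27 15 (.dbl 59 8 11)))))) (.rp 11 (.thr 43 40 (.thr 35 44 (.thr 39 47 (.thr 36 37 (.thr 17 29 (.thr 12 51 (.thr 8 59 (.thr 55 4 (.thr 7 23 (.thr 57 9 (.thr 24 48 (.thr 26 27 (.thr 10 58 (.dbl 14 6 50)))))))))))))) (.rp 10 (.thr 43 40 (.thr 59 8 (.thr 11 27 (.thr 57 9 (.dbl 56 26 58))))) (.rp 9 (.thr 40 43 (.thr 17 29 (.thr 12 51 (.thr 8 59 (.thr 24 56 (.thr 36 48 (.dbl 44 32 35))))))) (.rp 8 (.thr 43 40 (.thr 35 44 (.thr 39 47 (.thr 51 12 (.thr 4 55 (.thr 27 15 (.thr 11 59 (.dbl 26 24 56)))))))) .nd))))))))))))) (.rp 32 (.thr 34 46 (.thr 43 40 (.thr 50 18 (.thr 26 14 (.thr 10 58 (.thr 11 56 (.thr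 8 9 (.dbl 59 25 27)))))))) .nd)))))))))))))) (.rp 2 (.str 3 (.nv (.thr 4 55 (.thr 43 40 (.thr 46 34 (.thr 63 23 (.thr 12 29 (.thr 9 6 (.dbl 25 51 57))))))) (.nv (.thr 43 40 (.thr 35 44 (.thr 47 39 (.thr 34 46 (.dbl 32 33 37))))) (.nv (.thr 35 44 (.thr 51 19 (.thr 55 4 (.thr 59 63 (.dbl 25 8 12))))) .nd)))) .nd))))))))))))))))

theorem w399 : WinAt (6597071863808, 4194307) :=
  chF (K := []) kn c399 6597071863808 4194307 1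
    [15] (by decide +kernel) (by decide +kernel)

/-- A certificate. -/
noncomputable def c400 : Ct := (.str 38 (.nv (.thr 40 43 (.thr 44 35 (.thr 32 36 (.thr 46 34 (.dbl 47 37 45))))) (.nv (.thr 43 40 (.thr 35 44 (.thr 47 39 (.thr 34 46 (.dbl 32 33 37))))) (.rp 47 (.str 26 (.nv (.thr 1 61 (.thr 11 56 (.thr 10 58 (.thr 9 8 (.thr 5 13 (.thr 4 55 (.thr 7 6 (.thr 15 3 (.dbl 37 48 53))))))))) (.rp 61 (.thr 43 40 (.thr 34 46 (.thr 44 35 (.thr 16 31 (.thr 14 50 (.thr 10 58 (.thr 6 2 (.thr 11 56 (.thr 4 55 (.thr 7 5 (.thr 3 15 (.thr 63 23 (.dbl 9 8 12))))))))))))) (.rp 59 (.thr 43 40 (.thr 34 46 (.thr 44 35 (.thr 16 31 (.thr 14 50 (.thr 10 58 (.thr 6 2 (.thr 56 11 (.thr 4 55 (.thr 5 7 (.thr 37 53 (.thr 39 36 (.thr 33 45 (.thr 1 61 (.thr 13 9 (.dbl 15 12 48)))))))))))))))) (.rp 58 (.thr 43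 40 (.thr 34 46 (.thr 44 35 (.thr 16 31 (.thr 50 14 (.thr 18 2 (.thr 19 17 (.thr 11 56 (.thr 59 27 (.thr 55 4 (.thr 63 51 (.thr 3 23 (.thr 15 7 (.dbl 48 33 37)))))))))))))) (.rp 57 (.thr 43 40 (.thr 34 46 (.thr 44 35 (.thr 16 31 (.thr 14 50 (.thr 10 58 (.thr 6 2 (.thr 11 56 (.thr 59 27 (.thr 4 55 (.thr 5 7 (.thr 37 53 (.thr 39 36 (.thr 33 45 (.thr 1 61 (.thr 49 17 (.dbl 9 8 13))))))))))))))))) (.rp 56 (.thr 43 40 (.thr 34 46 (.thr 44 35 (.thr 16 31 (.thr 14 50 (.thr 10 58 (.thr 6 2 (.thr 4 55 (.thr 5 7 (.thr 37 53 (.thr 39 36 (.thr 33 45 (.thr 1 61 (.thr 13 9 (.dbl 15 12 48))))))))))))))) (.rp 55 (.thr 43 40 (.thr 34 46 (.thr 44 35 (.thr 16 31 (.thr 50 14 (.thr 2 18 (.thr 58 10 (.thr 56 11 (.thr 57 59 (.thr 61 1 (.thr 49 53 (.thr 51 48 (.dbl 54 60 62))))))))))))) (.rp 53 (.thr 43 40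 (.thr 34 46 (.thr 44 35 (.thr 16 31 (.thr 14 50 (.thr 10 58 (.thr 6 2 (.thr 11 56 (.thr 59 27 (.thr 4 55 (.thr 5 7 (.thr 1 61 (.dbl 9 8 13))))))))))))) (.rp 49 (.thr 43 40 (.thr 34 46 (.thr 44 35 (.thr 16 31 (.thr 14 50 (.thr 10 58 (.thr 6 2 (.thr 11 56 (.thr 59 27 (.thr 4 55 (.thr 5 7 (.thr 1 61 (.dbl 9 8 13))))))))))))) (.rp 48 (.thr 43 40 (.thr 34 46 (.thr 44 35 (.thr 16 31 (.thr 14 50 (.thr 10 58 (.thr 6 2 (.thr 11 56 (.thr 59 27 (.thr 4 55 (.thr 5 7 (.thr 1 61 (.dbl 9 8 13))))))))))))) (.rp 45 (.thr 43 40 (.thr 34 46 (.thr 44 35 (.thr 16 31 (.thr 14 50 (.thr 10 58 (.thr 6 2 (.thr 11 56 (.thr 8 9 (.thr 4 55 (.thr 7 5 (.thr 15 3 (.thr 1 61 (.thr 37 48 (.thr 39 36 (.dbl 27 51 59)))))))))))))))) (.rp 40 (.thr 34 46 (.thr 44 35 (.thr 16 31 (.thr 14 50 (.thr 10 58 (.thr 6 2 (.thr 11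 56 (.thr 4 55 (.thr 5 7 (.thr 37 53 (.thr 39 36 (.thr 33 45 (.thr 1 61 (.dbl 9 8 13)))))))))))))) (.rp 37 (.thr 43 40 (.thr 34 46 (.thr 44 35 (.thr 16 31 (.thr 14 50 (.thr 10 58 (.thr 6 2 (.thr 11 56 (.thr 4 55 (.thr 7 5 (.thr 3 15 (.thr 63 23 (.dbl 9 8 12))))))))))))) (.rp 29 (.thr 43 40 (.thr 34 46 (.thr 44 35 (.thr 16 31 (.thr 14 50 (.thr 10 58 (.thr 6 2 (.thr 11 56 (.thr 8 9 (.thr 4 55 (.thr 7 5 (.thr 15 3 (.thr 1 61 (.thr 37 48 (.thr 39 36 (.dbl 27 51 59)))))))))))))))) (.rp 28 (.str 19 (.nv (.thr 16 31 (.thr 18 17 (.thr 34 46 (.dbl 50 2 14)))) (.nv (.thr 11 56 (.thr 31 16 (.thr 27 23 (.dbl 43 40 59)))) (.rp 31 (.thr 43 40 (.thr 11 56 (.thr 59 27 (.thr 55 4 (.thr 35 44 (.dbl 51 3 63)))))) (.rp 16 (.thr 43 40 (.thr 11 56 (.thr 27 59 (.thr 35 44 (.thr 3 51 (.dbl 23 31 63))))))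 .nd))))) (.rp 24 (.thr 43 40 (.thr 34 46 (.thr 44 35 (.thr 16 31 (.thr 14 50 (.thr 10 58 (.thr 6 2 (.thr 11 56 (.thr 8 9 (.thr 4 55 (.thr 7 5 (.thr 15 3 (.thr 1 61 (.thr 12 13 (.thr 37 48 (.thr 39 36 (.dbl 27 51 59))))))))))))))))) (.rp 19 (.str 28 (.nv (.thr 16 31 (.thr 24 20 (.thr 40 43 (.dbl 56 8 11)))) (.nv (.thr 14 50 (.thr 31 16 (.thr 30 29 (.dbl 46 34 62)))) (.rp 31 (.thr 46 34 (.thr 14 50 (.thr 62 30 (.thr 61 1 (.thr 44 35 (.dbl 60 12 63)))))) (.rp 16 (.thr 46 34 (.thr 14 50 (.thr 30 62 (.thr 44 35 (.thr 12 60 (.dbl 29 31 63)))))) .nd))))) (.rp 15 (.thr 43 40 (.thr 34 46 (.thr 44 35 (.thr 31 16 (.thr 14 50 (.thr 10 58 (.thr 6 2 (.thr 11 56 (.thr 59 27 (.thr 4 55 (.thr 5 7 (.thr 37 53 (.thr 39 36 (.thr 33 45 (.thr 1 61 (.dbl 9 8 13)))))))))))))))) (.rp 13 (.thr 43 40 (.thr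 34 46 (.thr 44 35 (.thr 16 31 (.thr 14 50 (.thr 10 58 (.thr 6 2 (.thr 11 56 (.thr 8 9 (.thr 4 55 (.thr 7 5 (.thr 1 61 (.thr 15 3 (.thr 37 48 (.thr 39 36 (.dbl 27 51 59)))))))))))))))) (.rp 12 (.thr 43 40 (.thr 34 46 (.thr 44 35 (.thr 16 31 (.thr 14 50 (.thr 10 58 (.thr 6 2 (.thr 11 56 (.thr 59 27 (.thr 4 55 (.thr 5 7 (.thr 37 53 (.thr 39 36 (.thr 33 45 (.thr 1 61 (.dbl 9 8 13)))))))))))))))) (.rp 11 (.thr 43 40 (.thr 34 46 (.thr 44 35 (.thr 16 31 (.thr 14 50 (.thr 10 58 (.thr 6 2 (.thr 4 55 (.thr 5 7 (.thr 37 53 (.thr 39 36 (.thr 33 45 (.thr 1 61 (.thr 13 9 (.dbl 15 12 48))))))))))))))) (.rp 10 (.thr 43 40 (.thr 34 46 (.thr 44 35 (.thr 31 16 (.thr 14 50 (.thr 11 56 (.thr 59 27 (.thr 55 4 (.thr 63 51 (.thr 3 23 (.thr 15 7 (.thr 12 13 (.thr 61 1 (.dbl 60 28 62)))))))))))))) (.rp 9 (.thr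 43 40 (.thr 34 46 (.thr 44 35 (.thr 16 31 (.thr 14 50 (.thr 10 58 (.thr 6 2 (.thr 11 56 (.thr 4 55 (.thr 7 5 (.thr 15 3 (.thr 1 61 (.thr 12 13 (.thr 37 48 (.thr 39 36 (.dbl 27 51 59)))))))))))))))) (.rp 8 (.thr 43 40 (.thr 34 46 (.thr 44 35 (.thr 16 31 (.thr 14 50 (.thr 10 58 (.thr 6 2 (.thr 56 11 (.thr 4 55 (.thr 5 7 (.thr 37 53 (.thr 39 36 (.thr 33 45 (.thr 1 61 (.thr 13 9 (.dbl 15 12 48)))))))))))))))) (.rp 7 (.thr 43 40 (.thr 34 46 (.thr 44 35 (.thr 16 31 (.thr 14 50 (.thr 58 10 (.thr 56 11 (.thr 59 57 (.thr 55 4 (.thr 63 51 (.thr 3 23 (.thr 48 53 (.thr 33 18 (.dbl 37 15 45)))))))))))))) (.rp 6 (.thr 43 40 (.thr 34 46 (.thr 44 35 (.thr 16 31 (.thr 14 50 (.thr 58 10 (.thr 11 56 (.thr 59 27 (.thr 55 4 (.thr 63 51 (.thr 48 53 (.thr 15 37 (.dbl 3 7 23))))))))))))) (.rp 5 (.thr 43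 40 (.thr 34 46 (.thr 44 35 (.thr 16 31 (.thr 50 14 (.thr 18 2 (.thr 19 17 (.thr 10 58 (.thr 11 56 (.thr 8 9 (.thr 59 27 (.thr 55 4 (.thr 63 51 (.thr 3 23 (.thr 48 33 (.dbl 15 7 37)))))))))))))))) (.rp 4 (.thr 43 40 (.thr 34 46 (.thr 44 35 (.thr 16 31 (.thr 50 14 (.thr 2 18 (.thr 58 10 (.thr 56 11 (.thr 57 59 (.thr 61 1 (.thr 49 53 (.thr 51 48 (.dbl 54 60 62))))))))))))) (.rp 3 (.thr 43 40 (.thr 34 46 (.thr 44 35 (.thr 16 31 (.thr 14 50 (.thr 10 58 (.thr 6 2 (.thr 1 61 (.thr 11 56 (.thr 59 27 (.thr 4 55 (.thr 5 7 (.dbl 9 8 13))))))))))))) (.rp 1 (.thr 43 40 (.thr 34 46 (.thr 44 35 (.thr 16 31 (.thr 14 50 (.thr 58 10 (.thr 11 56 (.thr 59 27 (.thr 55 4 (.thr 63 51 (.thr 48 53 (.thr 15 37 (.dbl 3 7 23))))))))))))) .nd))))))))))))))))))))))))))))))) (.rp 46 (.thr 4 55 (.thr 1 61 (.thr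 40 43 (.str 26 (.nv (.thr 10 58 (.thr 11 56 (.thr 9 8 (.thr 5 13 (.thr 6 7 (.dbl 14 2 50)))))) (.nv (.thr 10 58 (.thr 14 50 (.thr 6 2 (.thr 5 7 (.thr 13 9 (.thr 15 12 (.dbl 37 48 53))))))) (.nv (.thr 44 35 (.thr 36 32 (.thr 52 20 (.thr 56 11 (.thr 48 60 (.dbl 37 15 39)))))) (.nv (.thr 14 50 (.thr 10 58 (.thr 6 2 (.thr 11 56 (.thr 9 8 (.dbl 5 7 13)))))) (.rp 28 (.str 19 (.nv (.thr 10 58 (.thr 11 56 (.thr 9 8 (.thr 13 5 (.thr 14 50 (.thr 12 15 (.dbl 6 2 3))))))) (.nv (.thr 16 31 (.thr 17 18 (.thr 44 35 (.thr 32 36 (.thr 33 49 (.dbl 37 45 47)))))) (.rp 57 (.thr 35 44 (.thr 16 31 (.thr 17 18 (.thr 51 3 (.thr 50 14 (.dbl 49 33 48)))))) .nd)))) (.rp 19 (.str 28 (.nv (.thr 44 35 (.thr 36 32 (.thr 20 52 (.dbl 16 24 31)))) (.nv (.thr 16 31 (.thr 24 20 (.dbl 56 8 11))) (.rp 31 (.thr 44 35 (.thr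 36 32 (.thr 12 60 (.thr 20 52 (.dbl 24 16 48))))) (.rp 24 (.thr 44 35 (.thr 36 32 (.thr 60 12 (.thr 52 20 (.dbl 56 11 48))))) (.rp 20 (.thr 44 35 (.thr 36 32 (.thr 12 60 (.thr 56 11 (.dbl 24 8 48))))) (.rp 16 (.thr 44 35 (.thr 12 60 (.thr 36 32 (.thr 48 24 (.dbl 37 15 39))))) .nd))))))) .nd)))))))))) (.rp 44 (.thr 40 43 (.thr 4 55 (.str 26 (.nv (.thr 1 61 (.thr 10 58 (.thr 14 50 (.thr 6 2 (.thr 5 7 (.thr 13 9 (.thr 15 12 (.dbl 37 48 53)))))))) (.nv (.thr 1 61 (.thr 10 58 (.thr 11 56 (.thr 9 8 (.thr 5 13 (.thr 7 6 (.thr 15 3 (.dbl 37 48 53)))))))) (.nv (.thr 1 61 (.thr 10 58 (.thr 11 56 (.thr 9 8 (.thr 14 50 (.thr 6 2 (.dbl 5 7 13))))))) (.rp 61 (.thr 10 58 (.thr 14 50 (.thr 6 2 (.thr 7 5 (.thr 11 56 (.thr 9 8 (.dbl 3 12 15))))))) (.rp 58 (.thr 46 34 (.thr 14 50 (.thr 62 30 (.thr 61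 1 (.thr 31 16 (.thr 63 60 (.thr 12 29 (.dbl 15 13 47)))))))) (.rp 28 (.str 19 (.nv (.thr 16 31 (.thr 50 14 (.thr 18 17 (.dbl 34 2 46)))) (.rp 60 (.str 12 (.nv (.thr 1 61 (.thr 10 58 (.thr 11 56 (.thr 9 8 (.thr 6 3 (.dbl 5 7 13)))))) (.nv (.thr 16 31 (.thr 50 14 (.thr 18 17 (.dbl 34 2 46)))) .nd))) (.rp 50 (.thr 34 46 (.thr 16 31 (.thr 17 18 (.thr 1 61 (.thr 33 49 (.thr 32 35 (.dbl 37 45 47))))))) (.rp 46 (.thr 14 50 (.thr 10 58 (.thr 6 2 (.thr 7 5 (.thr 11 56 (.thr 9 8 (.dbl 3 12 15))))))) (.rp 34 (.thr 14 50 (.thr 10 58 (.thr 11 56 (.thr 9 8 (.thr 1 61 (.thr 5 13 (.dbl 6 2 7))))))) (.rp 31 (.thr 14 50 (.thr 10 58 (.thr 6 2 (.thr 7 5 (.thr 11 56 (.thr 9 8 (.dbl 3 12 15))))))) (.rp 30 (.thr 14 50 (.thr 10 58 (.thr 6 2 (.thr 7 5 (.thr 11 56 (.thr 9 8 (.dbl 3 12 15))))))) (.rp 29 (.thr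 34 46 (.thr 50 14 (.thr 18 2 (.dbl 16 17 31)))) (.rp 18 (.thr 14 50 (.thr 10 58 (.thr 11 56 (.thr 9 8 (.thr 1 61 (.thr 5 13 (.dbl 6 2 7))))))) (.rp 17 (.thr 14 50 (.thr 10 58 (.thr 6 2 (.thr 7 5 (.thr 11 56 (.thr 9 8 (.dbl 3 12 15))))))) (.rp 16 (.thr 14 50 (.thr 10 58 (.thr 6 2 (.thr 7 5 (.thr 11 56 (.thr 9 8 (.dbl 3 12 15))))))) (.rp 14 (.thr 34 46 (.thr 16 31 (.thr 17 18 (.thr 1 61 (.thr 33 49 (.thr 32 35 (.dbl 37 45 47))))))) (.rp 12 (.str 60 (.nv (.thr 14 50 (.thr 46 34 (.thr 61 1 (.dbl 62 30 63)))) (.nv (.thr 1 61 (.thr 56 11 (.thr 48 52 (.thr 58 10 (.thr 53 63 (.dbl 37 5 15)))))) (.nv (.thr 16 31 (.thr 50 14 (.thr 18 17 (.dbl 34 2 46)))) (.rp 46 (.thr 58 10 (.thr 50 14 (.thr 62 54 (.dbl 61 1 63)))) .nd))))) (.rp 2 (.thr 34 46 (.thr 16 31 (.thr 17 18 (.thr 1 61 (.thr 33 49 (.thr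 32 35 (.dbl 37 45 47))))))) .nd))))))))))))))) (.rp 19 (.str 28 (.nv (.thr 14 50 (.thr 31 16 (.thr 30 29 (.dbl 46 34 62)))) (.nv (.thr 16 31 (.thr 24 20 (.dbl 56 8 11))) (.rp 31 (.thr 56 11 (.thr 24 8 (.thr 20 16 (.thr 36 52 (.thr 48 12 (.dbl 37 15 39)))))) (.rp 16 (.thr 46 34 (.thr 14 50 (.thr 30 62 (.thr 61 1 (.thr 29 31 (.thr 13 45 (.dbl 12 15 63))))))) .nd))))) (.rp 13 (.thr 10 58 (.thr 14 50 (.thr 6 2 (.thr 7 5 (.thr 11 56 (.thr 9 8 (.dbl 3 12 15))))))) (.rp 10 (.thr 46 34 (.thr 14 50 (.thr 62 30 (.thr 61 1 (.thr 31 16 (.thr 63 60 (.thr 12 29 (.dbl 15 13 47)))))))) (.rp 9 (.thr 46 34 (.thr 14 50 (.thr 62 30 (.thr 61 1 (.thr 31 16 (.thr 63 60 (.thr 12 29 (.dbl 15 13 47)))))))) (.rp 7 (.thr 46 34 (.thr 14 50 (.thr 62 30 (.thr 61 1 (.thr 31 16 (.thr 63 60 (.thr 12 29 (.dbl 15 13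 47)))))))) (.rp 6 (.thr 46 34 (.thr 14 50 (.thr 62 30 (.thr 61 1 (.thr 31 16 (.thr 63 60 (.thr 12 29 (.dbl 15 13 47)))))))) (.rp 5 (.thr 46 34 (.thr 14 50 (.thr 62 30 (.thr 61 1 (.thr 31 16 (.thr 63 60 (.thr 12 29 (.dbl 15 13 47)))))))) (.rp 1 (.thr 10 58 (.thr 14 50 (.thr 11 56 (.thr 9 8 (.thr 6 2 (.thr 3 12 (.dbl 7 5 15))))))) .nd))))))))))))))))) (.rp 43 (.thr 1 61 (.thr 4 55 (.thr 34 46 (.str 26 (.nv (.thr 10 58 (.thr 14 50 (.thr 6 2 (.thr 5 7 (.thr 9 13 (.dbl 11 8 56)))))) (.nv (.thr 10 58 (.thr 11 56 (.thr 9 8 (.thr 5 13 (.thr 7 6 (.thr 15 3 (.dbl 37 48 53))))))) (.nv (.thr 35 44 (.thr 33 32 (.thr 49 17 (.thr 50 14 (.thr 48 51 (.dbl 37 15 45)))))) (.nv (.thr 11 56 (.thr 10 58 (.thr 9 8 (.thr 14 50 (.thr 6 2 (.dbl 5 7 13)))))) (.rp 28 (.str 19 (.nv (.thr 35 44 (.thr 33 32 (.thr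 17 49 (.dbl 16 18 31)))) (.nv (.thr 16 31 (.thr 18 17 (.dbl 50 2 14))) (.rp 31 (.thr 35 44 (.thr 33 32 (.thr 3 51 (.thr 17 49 (.dbl 18 16 48))))) (.rp 18 (.thr 35 44 (.thr 33 32 (.thr 51 3 (.thr 49 17 (.dbl 50 14 48))))) (.rp 17 (.thr 35 44 (.thr 33 32 (.thr 3 51 (.thr 50 14 (.dbl 18 2 48))))) (.rp 16 (.thr 35 44 (.thr 3 51 (.thr 33 32 (.thr 48 18 (.dbl 37 15 45))))) .nd))))))) (.rp 19 (.str 28 (.nv (.thr 10 58 (.thr 11 56 (.thr 14 50 (.thr 6 2 (.thr 7 5 (.thr 3 15 (.dbl 9 8 12))))))) (.nv (.thr 16 31 (.thr 20 24 (.thr 35 44 (.thr 32 33 (.thr 36 52 (.dbl 37 39 47)))))) (.rp 54 (.thr 44 35 (.thr 16 31 (.thr 20 24 (.thr 60 12 (.thr 56 11 (.dbl 52 36 48)))))) .nd)))) .nd)))))))))) (.rp 40 (.thr 61 1 (.str 60 (.nv (.thr 44 35 (.thr 28 12 (.thr 46 34 (.thr 45 47 (.thr 29 13 (.dbl 30 15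 31)))))) (.nv (.thr 44 35 (.thr 46 34 (.thr 45 47 (.thr 30 15 (.dbl 62 14 63))))) (.nv (.thr 63 62 (.thr 46 34 (.thr 12 29 (.dbl 44 28 35)))) (.rp 51 (.thr 63 62 (.thr 34 46 (.thr 35 44 (.thr 32 33 (.thr 47 37 (.thr 31 15 (.thr 26 16 (.thr 11 56 (.thr 43 39 (.thr 27 59 (.dbl 23 3 19))))))))))) (.rp 46 (.thr 63 62 (.thr 55 4 (.thr 51 59 (.thr 57 54 (.thr 53 49 (.thr 37 5 (.thr 39 36 (.thr 15 27 (.dbl 48 26 58))))))))) (.rp 44 (.thr 63 62 (.thr 46 34 (.thr 29 12 (.thr 45 13 (.thr 37 33 (.thr 15 30 (.dbl 47 31 32))))))) (.rp 35 (.thr 62 63 (.thr 46 34 (.thr 30 14 (.thr 45 15 (.thr 47 44 (.dbl 37 32 33)))))) (.rp 34 (.thr 63 62 (.thr 55 4 (.thr 51 59 (.thr 57 54 (.thr 53 49 (.thr 37 5 (.thr 39 36 (.thr 15 27 (.dbl 48 26 58))))))))) (.rp 28 (.str 19 (.nv (.thr 44 35 (.thr 46 34 (.thr 45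 47 (.thr 30 15 (.dbl 62 14 63))))) (.nv (.thr 55 4 (.thr 63 62 (.thr 51 59 (.dbl 35 3 44)))) (.rp 63 (.thr 35 44 (.thr 34 46 (.thr 32 33 (.thr 47 37 (.thr 39 43 (.thr 3 51 (.thr 55 4 (.thr 7 23 (.thr 11 15 (.thr 26 56 (.thr 16 31 (.thr 50 14 (.dbl 18 2 17))))))))))))) (.rp 62 (.thr 35 44 (.thr 34 46 (.thr 32 33 (.thr 47 37 (.thr 39 43 (.thr 3 51 (.thr 55 4 (.thr 7 23 (.thr 15 11 (.thr 31 63 (.thr 26 16 (.thr 14 50 (.thr 45 30 (.dbl 13 12 29)))))))))))))) (.rp 51 (.thr 63 62 (.thr 35 44 (.thr 34 46 (.thr 32 33 (.thr 47 37 (.thr 39 43 (.thr 55 4 (.thr 31 15 (.dbl 23 7 27))))))))) (.rp 44 (.thr 63 62 (.thr 46 34 (.thr 29 12 (.thr 45 13 (.thr 37 33 (.thr 15 30 (.dbl 47 31 32))))))) (.rp 35 (.thr 62 63 (.thr 46 34 (.thr 30 14 (.thr 45 15 (.thr 47 44 (.dbl 37 32 33)))))) (.rp 3 (.str 2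 (.nv (.thr 46 34 (.thr 63 62 (.thr 44 35 (.thr 45 47 (.dbl 29 12 13))))) (.nv (.thr 34 46 (.thr 50 18 (.thr 26 14 (.thr 58 10 (.dbl 62 54 63))))) (.rp 63 (.thr 34 46 (.thr 50 18 (.thr 26 14 (.thr 58 10 (.thr 56 11 (.thr 57 59 (.dbl 54 51 62))))))) (.rp 62 (.thr 34 46 (.thr 18 50 (.thr 16 17 (.thr 26 31 (.thr 58 10 (.thr 56 11 (.thr 57 59 (.thr 48 52 (.dbl 53 49 63))))))))) (.rp 46 (.thr 63 62 (.thr 55 4 (.thr 51 59 (.thr 54 57 (.thr 53 52 (.thr 37 5 (.thr 45 33 (.thr 47 32 (.dbl 15 30 31))))))))) (.rp 34 (.thr 63 62 (.thr 55 4 (.thr 51 59 (.thr 54 57 (.thr 53 52 (.thr 37 5 (.thr 45 33 (.thr 15 30 (.dbl 47 31 32))))))))) (.rp 33 (.thr 46 34 (.thr 63 62 (.thr 29 12 (.thr 45 13 (.dbl 44 35 47))))) .nd)))))))) (.rp 2 (.str 3 (.nv (.dbl 35 44 51) (.rp 51 (.thr 63 62 (.thr 34 46 (.thr 35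 44 (.thr 32 33 (.thr 47 37 (.dbl 43 23 39)))))) (.rp 44 (.thr 63 62 (.thr 51 35 (.dbl 55 4 59))) (.rp 35 (.thr 63 62 (.thr 46 34 (.thr 29 12 (.thr 45 13 (.thr 47 44 (.dbl 37 32 33)))))) .nd))))) .nd)))))))))) (.rp 19 (.str 28 (.nv (.dbl 44 12 35) (.rp 44 (.thr 62 63 (.thr 46 34 (.thr 30 14 (.thr 29 31 (.dbl 45 13 15))))) (.rp 35 (.thr 63 62 (.thr 46 34 (.dbl 12 29 44))) (.rp 12 (.thr 62 63 (.thr 46 34 (.thr 44 35 (.thr 45 47 (.dbl 30 14 15))))) (.rp 3 (.str 2 (.nv (.dbl 44 12 35) (.rp 51 (.thr 35 44 (.thr 34 46 (.thr 50 18 (.thr 26 14 (.thr 58 10 (.dbl 62 54 63)))))) (.rp 44 (.thr 34 46 (.thr 50 18 (.thr 26 14 (.thr 58 10 (.dbl 62 54 63))))) (.rp 35 (.str 51 (.nv (.thr 34 46 (.thr 50 18 (.thr 57 54 (.dbl 49 48 53)))) (.nv (.thr 63 62 (.dbl 55 4 59)) .nd))) (.rp 12 (.thr 34 46 (.thr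 50 18 (.thr 26 14 (.thr 58 10 (.dbl 62 54 63))))) .nd)))))) (.rp 2 (.str 3 (.nv (.dbl 44 12 35) (.rp 44 (.thr 63 62 (.thr 46 34 (.thr 29 12 (.thr 30 31 (.dbl 45 13 15))))) (.rp 35 (.thr 12 44 (.thr 63 62 (.dbl 46 29 34))) (.rp 12 (.thr 62 63 (.thr 44 35 (.thr 46 34 (.thr 45 47 (.dbl 30 14 15))))) .nd))))) .nd))))))) (.rp 17 (.thr 63 62 (.thr 44 35 (.thr 55 4 (.thr 51 59 (.thr 46 34 (.dbl 12 28 29)))))) (.rp 3 (.str 2 (.nv (.thr 44 35 (.thr 28 12 (.thr 46 34 (.thr 45 47 (.thr 29 13 (.dbl 30 15 31)))))) (.nv (.thr 34 46 (.thr 50 18 (.thr 26 14 (.thr 58 10 (.dbl 62 54 63))))) (.nv (.thr 46 34 (.thr 63 62 (.thr 12 29 (.dbl 44 28 35)))) (.rp 46 (.thr 55 4 (.thr 63 62 (.thr 51 59 (.thr 57 54 (.thr 53 49 (.thr 37 5 (.thr 39 36 (.thr 15 27 (.dbl 45 30 33))))))))) (.rp 34 (.thr 55 4 (.thr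 63 62 (.thr 51 59 (.thr 57 54 (.thr 53 49 (.thr 37 5 (.thr 39 36 (.thr 15 27 (.dbl 45 30 33))))))))) (.rp 28 (.str 19 (.nv (.thr 46 34 (.thr 63 62 (.thr 44 35 (.thr 45 47 (.dbl 29 12 13))))) (.nv (.thr 34 46 (.thr 50 18 (.thr 26 14 (.thr 58 10 (.dbl 62 54 63))))) (.rp 63 (.thr 34 46 (.thr 50 18 (.thr 26 14 (.thr 58 10 (.thr 56 11 (.thr 57 59 (.dbl 54 51 62))))))) (.rp 62 (.thr 34 46 (.thr 18 50 (.thr 16 17 (.thr 26 31 (.thr 58 10 (.thr 56 11 (.thr 57 59 (.thr 48 52 (.dbl 53 49 63))))))))) (.rp 46 (.thr 63 62 (.thr 55 4 (.thr 51 59 (.thr 54 57 (.thr 53 52 (.thr 37 5 (.thr 45 33 (.thr 47 32 (.dbl 15 30 31))))))))) (.rp 34 (.thr 63 62 (.thr 55 4 (.thr 51 59 (.thr 54 57 (.thr 53 52 (.thr 37 5 (.thr 45 33 (.thr 15 30 (.dbl 47 31 32))))))))) (.rp 33 (.thr 46 34 (.thr 63 62 (.thr 29 12 (.thr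 45 13 (.dbl 44 35 47))))) .nd)))))))) (.rp 19 (.str 28 (.nv (.dbl 44 12 35) (.rp 51 (.thr 35 44 (.thr 34 46 (.thr 50 18 (.thr 26 14 (.thr 58 10 (.dbl 62 54 63)))))) (.rp 44 (.thr 34 46 (.thr 50 18 (.thr 26 14 (.thr 58 10 (.dbl 62 54 63))))) (.rp 35 (.str 51 (.nv (.thr 34 46 (.thr 50 18 (.thr 57 54 (.dbl 49 48 53)))) (.nv (.thr 63 62 (.dbl 55 4 59)) .nd))) (.rp 12 (.thr 34 46 (.thr 50 18 (.thr 26 14 (.thr 58 10 (.dbl 62 54 63))))) .nd)))))) .nd)))))))) (.rp 2 (.str 3 (.nv (.thr 44 35 (.thr 28 12 (.thr 46 34 (.thr 45 47 (.thr 29 13 (.dbl 30 15 31)))))) (.nv (.thr 34 46 (.thr 35 44 (.thr 32 33 (.thr 47 37 (.thr 43 39 (.dbl 63 23 62)))))) (.nv (.thr 55 4 (.thr 63 62 (.thr 51 59 (.dbl 35 19 44)))) (.rp 44 (.thr 46 34 (.thr 63 62 (.thr 29 12 (.thr 45 13 (.thr 37 33 (.thr 15 30 (.dbl 47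 31 32))))))) (.rp 35 (.thr 46 34 (.thr 63 62 (.thr 29 12 (.thr 45 13 (.thr 47 44 (.dbl 37 32 33)))))) (.rp 28 (.str 19 (.nv (.dbl 35 44 51) (.rp 51 (.thr 63 62 (.thr 34 46 (.thr 35 44 (.thr 32 33 (.thr 47 37 (.dbl 43 23 39)))))) (.rp 44 (.thr 63 62 (.thr 51 35 (.dbl 55 4 59))) (.rp 35 (.thr 63 62 (.thr 46 34 (.thr 29 12 (.thr 45 13 (.thr 47 44 (.dbl 37 32 33)))))) .nd))))) (.rp 19 (.str 28 (.nv (.dbl 44 12 35) (.rp 44 (.thr 63 62 (.thr 46 34 (.thr 29 12 (.thr 30 31 (.dbl 45 13 15))))) (.rp 35 (.thr 12 44 (.thr 63 62 (.dbl 46 29 34))) (.rp 12 (.thr 62 63 (.thr 44 35 (.thr 46 34 (.thr 45 47 (.dbl 30 14 15))))) .nd))))) .nd)))))))) .nd))))))))))))))) (.rp 39 (.thr 40 43 (.thr 46 34 (.thr 44 35 (.thr 47 45 (.dbl 32 36 37))))) (.rp 37 (.str 63 (.nv (.thr 44 35 (.thr 46 34 (.thr 29 12 (.thr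 45 47 (.dbl 61 1 13))))) (.nv (.thr 35 44 (.thr 43 40 (.thr 23 3 (.thr 39 47 (.dbl 55 4 7))))) (.nv (.thr 44 35 (.thr 46 34 (.thr 12 29 (.thr 61 1 (.dbl 60 28 62))))) (.nv (.thr 55 4 (.thr 51 59 (.thr 43 40 (.thr 3 23 (.dbl 35 19 44))))) (.rp 52 (.str 7 (.nv (.thr 43 40 (.thr 3 23 (.thr 15 11 (.thr 47 31 (.dbl 35 39 44))))) (.nv (.thr 55 4 (.thr 23 39 (.dbl 43 3 40))) (.rp 49 (.str 13 (.nv (.thr 35 44 (.thr 43 40 (.thr 39 47 (.dbl 23 3 55)))) (.nv (.thr 4 55 (.thr 5 6 (.dbl 1 9 61))) (.rp 55 (.thr 61 1 (.thr 29 45 (.dbl 46 12 34))) (.rp 28 (.str 19 (.nv (.thr 43 40 (.thr 35 44 (.dbl 3 23 51))) (.nv (.thr 1 61 (.thr 5 9 (.dbl 4 6 55))) .nd))) (.rp 19 (.str 28 (.nv (.thr 44 35 (.thr 12 60 (.dbl 46 29 34))) (.nv (.thr 4 55 (.thr 5 6 (.dbl 1 9 61))) .nd))) .nd)))))) (.rp 43 (.thr 61 1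 (.thr 46 34 (.thr 29 12 (.thr 44 35 (.dbl 45 13 47))))) (.rp 40 (.thr 61 1 (.thr 46 34 (.thr 29 12 (.thr 44 35 (.dbl 45 13 47))))) (.rp 39 (.thr 61 1 (.thr 46 34 (.thr 29 12 (.thr 44 35 (.dbl 45 13 47))))) (.rp 28 (.str 19 (.nv (.thr 55 4 (.thr 23 39 (.dbl 43 3 40))) (.nv (.thr 35 44 (.thr 51 3 (.dbl 55 4 59))) (.nv (.thr 43 40 (.thr 3 23 (.dbl 35 44 51))) (.rp 49 (.str 13 (.nv (.thr 43 40 (.thr 35 44 (.dbl 3 23 51))) (.nv (.thr 1 61 (.thr 5 9 (.dbl 4 6 55))) .nd))) (.rp 13 (.str 49 (.nv (.thr 55 4 (.thr 23 39 (.dbl 43 3 40))) (.nv (.thr 1 61 (.thr 33 17 (.thr 34 46 (.dbl 35 32 44)))) (.nv (.thr 43 40 (.thr 3 23 (.dbl 35 44 51))) .nd)))) (.rp 3 (.thr 55 4 (.thr 39 23 (.thr 35 44 (.dbl 43 40 47)))) .nd))))))) (.rp 23 (.thr 61 1 (.thr 46 34 (.thr 29 12 (.thr 44 35 (.dbl 45 13 47)))))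 (.rp 20 (.thr 61 1 (.thr 46 34 (.thr 29 12 (.thr 44 35 (.dbl 45 13 47))))) (.rp 19 (.str 28 (.nv (.thr 55 4 (.thr 23 39 (.dbl 43 3 40))) (.nv (.thr 46 34 (.thr 12 29 (.dbl 44 35 60))) (.rp 49 (.str 13 (.nv (.thr 44 35 (.thr 12 60 (.dbl 46 29 34))) (.nv (.thr 4 55 (.thr 5 6 (.dbl 1 9 61))) .nd))) (.rp 13 (.str 49 (.nv (.thr 1 61 (.thr 33 17 (.thr 34 46 (.dbl 35 32 44)))) (.nv (.thr 55 4 (.thr 23 39 (.dbl 43 3 40))) (.nv (.thr 61 1 (.thr 60 62 (.dbl 44 12 35))) .nd)))) (.rp 12 (.thr 43 40 (.thr 23 3 (.dbl 55 4 39))) .nd)))))) (.rp 13 (.str 49 (.nv (.thr 1 61 (.thr 33 17 (.thr 34 46 (.dbl 35 32 44)))) (.nv (.thr 55 4 (.thr 23 39 (.dbl 43 3 40))) (.rp 28 (.str 19 (.nv (.thr 55 4 (.thr 23 39 (.dbl 43 3 40))) (.nv (.thr 1 61 (.thr 33 17 (.thr 34 46 (.dbl 35 32 44)))) (.nv (.thr 43 40 (.thr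 3 23 (.dbl 35 44 51))) .nd)))) (.rp 19 (.str 28 (.nv (.thr 1 61 (.thr 33 17 (.thr 34 46 (.dbl 35 32 44)))) (.nv (.thr 55 4 (.thr 23 39 (.dbl 43 3 40))) (.nv (.thr 61 1 (.thr 60 62 (.dbl 44 12 35))) .nd)))) .nd))))) (.rp 3 (.thr 55 4 (.thr 39 23 (.thr 35 44 (.dbl 43 40 47)))) .nd))))))))))))) (.rp 49 (.str 13 (.nv (.thr 44 35 (.thr 46 34 (.thr 45 47 (.dbl 61 1 29)))) (.nv (.thr 35 44 (.thr 43 40 (.thr 3 23 (.thr 55 4 (.dbl 51 19 59))))) (.nv (.thr 61 1 (.thr 29 45 (.dbl 46 12 34))) (.rp 52 (.str 7 (.nv (.thr 35 44 (.thr 43 40 (.thr 39 47 (.dbl 23 3 55)))) (.nv (.thr 4 55 (.thr 5 6 (.dbl 1 9 61))) (.rp 55 (.thr 61 1 (.thr 29 45 (.dbl 46 12 34))) (.rp 28 (.str 19 (.nv (.thr 43 40 (.thr 35 44 (.dbl 3 23 51))) (.nv (.thr 1 61 (.thr 5 9 (.dbl 4 6 55))) .nd))) (.rp 19 (.str 28 (.nv (.thr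 44 35 (.thr 12 60 (.dbl 46 29 34))) (.nv (.thr 4 55 (.thr 5 6 (.dbl 1 9 61))) .nd))) .nd)))))) (.rp 28 (.str 19 (.nv (.thr 61 1 (.thr 29 45 (.dbl 46 12 34))) (.nv (.thr 43 40 (.thr 3 23 (.dbl 35 44 51))) (.rp 52 (.str 7 (.nv (.thr 43 40 (.thr 35 44 (.dbl 3 23 51))) (.nv (.thr 1 61 (.thr 5 9 (.dbl 4 6 55))) .nd))) (.rp 7 (.str 52 (.nv (.thr 4 55 (.thr 36 20 (.thr 40 43 (.dbl 44 32 35)))) (.nv (.thr 61 1 (.thr 29 45 (.dbl 46 12 34))) (.nv (.thr 55 4 (.thr 51 59 (.dbl 35 3 44))) .nd)))) (.rp 3 (.thr 46 34 (.thr 29 12 (.dbl 61 1 45))) .nd)))))) (.rp 19 (.str 28 (.nv (.thr 46 34 (.thr 29 12 (.dbl 61 1 45))) (.nv (.thr 35 44 (.thr 43 40 (.thr 23 3 (.thr 39 47 (.dbl 55 4 7))))) (.nv (.thr 46 34 (.thr 12 29 (.dbl 44 35 60))) (.rp 52 (.str 7 (.nv (.thr 44 35 (.thr 12 60 (.dbl 46 29 34))) (.nv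 (.thr 4 55 (.thr 5 6 (.dbl 1 9 61))) .nd))) (.rp 46 (.thr 61 1 (.thr 60 62 (.dbl 44 12 35))) (.rp 7 (.str 52 (.nv (.thr 61 1 (.thr 29 45 (.dbl 46 12 34))) (.nv (.thr 4 55 (.thr 36 20 (.thr 40 43 (.dbl 44 32 35)))) (.nv (.thr 46 34 (.thr 12 29 (.dbl 44 35 60))) .nd)))) .nd))))))) (.rp 7 (.str 52 (.nv (.thr 4 55 (.thr 36 20 (.thr 40 43 (.dbl 44 32 35)))) (.nv (.thr 61 1 (.thr 29 45 (.dbl 46 12 34))) (.rp 28 (.str 19 (.nv (.thr 4 55 (.thr 36 20 (.thr 40 43 (.dbl 44 32 35)))) (.nv (.thr 61 1 (.thr 29 45 (.dbl 46 12 34))) (.nv (.thr 55 4 (.thr 51 59 (.dbl 35 3 44))) .nd)))) (.rp 19 (.str 28 (.nv (.thr 61 1 (.thr 29 45 (.dbl 46 12 34))) (.nv (.thr 4 55 (.thr 36 20 (.thr 40 43 (.dbl 44 32 35)))) (.nv (.thr 46 34 (.thr 12 29 (.dbl 44 35 60))) .nd)))) .nd))))) .nd)))))))) (.rp 44 (.thr 43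 40 (.thr 3 23 (.thr 55 4 (.thr 59 51 (.thr 11 27 (.thr 26 56 (.thr 31 16 (.dbl 15 7 47)))))))) (.rp 35 (.thr 43 40 (.thr 3 23 (.thr 55 4 (.thr 59 51 (.thr 11 27 (.thr 26 56 (.thr 31 16 (.dbl 15 7 47)))))))) (.rp 28 (.str 19 (.nv (.thr 43 40 (.thr 3 23 (.dbl 35 44 51))) (.nv (.thr 55 4 (.thr 51 59 (.dbl 35 3 44))) (.rp 52 (.str 7 (.nv (.thr 55 4 (.thr 23 39 (.dbl 43 3 40))) (.nv (.thr 35 44 (.thr 51 3 (.dbl 55 4 59))) (.nv (.thr 43 40 (.thr 3 23 (.dbl 35 44 51))) (.rp 49 (.str 13 (.nv (.thr 43 40 (.thr 35 44 (.dbl 3 23 51))) (.nv (.thr 1 61 (.thr 5 9 (.dbl 4 6 55))) .nd))) (.rp 13 (.str 49 (.nv (.thr 55 4 (.thr 23 39 (.dbl 43 3 40))) (.nv (.thr 1 61 (.thr 33 17 (.thr 34 46 (.dbl 35 32 44)))) (.nv (.thr 43 40 (.thr 3 23 (.dbl 35 44 51))) .nd)))) (.rp 3 (.thr 55 4 (.thr 39 23 (.thr 35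 44 (.dbl 43 40 47)))) .nd))))))) (.rp 51 (.thr 43 40 (.thr 35 44 (.thr 39 47 (.thr 23 3 (.dbl 55 4 7))))) (.rp 49 (.str 13 (.nv (.thr 61 1 (.thr 29 45 (.dbl 46 12 34))) (.nv (.thr 43 40 (.thr 3 23 (.dbl 35 44 51))) (.rp 52 (.str 7 (.nv (.thr 43 40 (.thr 35 44 (.dbl 3 23 51))) (.nv (.thr 1 61 (.thr 5 9 (.dbl 4 6 55))) .nd))) (.rp 7 (.str 52 (.nv (.thr 4 55 (.thr 36 20 (.thr 40 43 (.dbl 44 32 35)))) (.nv (.thr 61 1 (.thr 29 45 (.dbl 46 12 34))) (.nv (.thr 55 4 (.thr 51 59 (.dbl 35 3 44))) .nd)))) (.rp 3 (.thr 46 34 (.thr 29 12 (.dbl 61 1 45))) .nd)))))) (.rp 44 (.thr 43 40 (.thr 3 23 (.thr 51 35 (.dbl 55 4 59)))) (.rp 35 (.thr 43 40 (.thr 23 3 (.thr 27 31 (.thr 55 4 (.dbl 59 11 51))))) (.rp 13 (.str 49 (.nv (.thr 1 61 (.thr 33 17 (.thr 34 46 (.dbl 35 32 44)))) (.nv (.thr 55 4 (.thr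 51 59 (.dbl 35 3 44))) (.rp 52 (.str 7 (.nv (.thr 55 4 (.thr 23 39 (.dbl 43 3 40))) (.nv (.thr 1 61 (.thr 33 17 (.thr 34 46 (.dbl 35 32 44)))) (.nv (.thr 43 40 (.thr 3 23 (.dbl 35 44 51))) .nd)))) (.rp 44 (.thr 43 40 (.thr 3 23 (.thr 51 35 (.dbl 55 4 59)))) (.rp 35 (.thr 43 40 (.thr 23 3 (.thr 27 31 (.thr 55 4 (.dbl 59 11 51))))) (.rp 7 (.str 52 (.nv (.thr 55 4 (.thr 53 54 (.dbl 61 1 57))) (.nv (.thr 1 61 (.thr 33 17 (.thr 34 46 (.dbl 35 32 44)))) (.nv (.thr 55 4 (.thr 51 59 (.dbl 35 3 44))) .nd)))) .nd))))))) (.rp 7 (.str 52 (.nv (.thr 43 40 (.thr 35 44 (.dbl 3 23 51))) (.nv (.thr 4 55 (.thr 36 20 (.thr 40 43 (.dbl 44 32 35)))) (.nv (.thr 55 4 (.thr 51 59 (.dbl 35 3 44))) (.rp 49 (.str 13 (.nv (.thr 4 55 (.thr 36 20 (.thr 40 43 (.dbl 44 32 35)))) (.nv (.thr 61 1 (.thr 29 45 (.dbl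 46 12 34))) (.nv (.thr 55 4 (.thr 51 59 (.dbl 35 3 44))) .nd)))) (.rp 44 (.thr 43 40 (.thr 3 23 (.thr 51 35 (.dbl 55 4 59)))) (.rp 35 (.thr 43 40 (.thr 23 3 (.thr 27 31 (.thr 55 4 (.dbl 59 11 51))))) (.rp 13 (.str 49 (.nv (.thr 55 4 (.thr 53 54 (.dbl 61 1 57))) (.nv (.thr 1 61 (.thr 33 17 (.thr 34 46 (.dbl 35 32 44)))) (.nv (.thr 55 4 (.thr 51 59 (.dbl 35 3 44))) .nd)))) .nd)))))))) (.rp 3 (.thr 44 35 (.thr 46 34 (.thr 45 47 (.thr 29 12 (.dbl 61 1 13))))) .nd))))))))))) (.rp 19 (.str 28 (.nv (.thr 46 34 (.thr 12 29 (.dbl 44 35 60))) (.nv (.thr 61 1 (.thr 60 62 (.dbl 44 12 35))) (.rp 60 (.thr 46 34 (.thr 44 35 (.thr 45 47 (.thr 29 12 (.dbl 61 1 13))))) (.rp 52 (.str 7 (.nv (.thr 55 4 (.thr 23 39 (.dbl 43 3 40))) (.nv (.thr 46 34 (.thr 12 29 (.dbl 44 35 60))) (.rp 49 (.str 13 (.nv (.thr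 44 35 (.thr 12 60 (.dbl 46 29 34))) (.nv (.thr 4 55 (.thr 5 6 (.dbl 1 9 61))) .nd))) (.rp 13 (.str 49 (.nv (.thr 1 61 (.thr 33 17 (.thr 34 46 (.dbl 35 32 44)))) (.nv (.thr 55 4 (.thr 23 39 (.dbl 43 3 40))) (.nv (.thr 61 1 (.thr 60 62 (.dbl 44 12 35))) .nd)))) (.rp 12 (.thr 43 40 (.thr 23 3 (.dbl 55 4 39))) .nd)))))) (.rp 49 (.str 13 (.nv (.thr 46 34 (.thr 29 12 (.dbl 61 1 45))) (.nv (.thr 35 44 (.thr 43 40 (.thr 23 3 (.thr 39 47 (.dbl 55 4 7))))) (.nv (.thr 46 34 (.thr 12 29 (.dbl 44 35 60))) (.rp 52 (.str 7 (.nv (.thr 44 35 (.thr 12 60 (.dbl 46 29 34))) (.nv (.thr 4 55 (.thr 5 6 (.dbl 1 9 61))) .nd))) (.rp 46 (.thr 61 1 (.thr 60 62 (.dbl 44 12 35))) (.rp 7 (.str 52 (.nv (.thr 61 1 (.thr 29 45 (.dbl 46 12 34))) (.nv (.thr 4 55 (.thr 36 20 (.thr 40 43 (.dbl 44 32 35)))) (.nv (.thr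 46 34 (.thr 12 29 (.dbl 44 35 60))) .nd)))) .nd))))))) (.rp 44 (.thr 46 34 (.thr 29 12 (.thr 30 31 (.thr 61 1 (.dbl 62 14 60))))) (.rp 35 (.thr 46 34 (.thr 12 29 (.thr 60 44 (.dbl 61 1 62)))) (.rp 13 (.str 49 (.nv (.thr 44 35 (.thr 46 34 (.dbl 12 29 60))) (.nv (.thr 1 61 (.thr 33 17 (.thr 34 46 (.dbl 35 32 44)))) (.nv (.thr 61 1 (.thr 60 62 (.dbl 44 12 35))) (.rp 52 (.str 7 (.nv (.thr 1 61 (.thr 33 17 (.thr 34 46 (.dbl 35 32 44)))) (.nv (.thr 55 4 (.thr 23 39 (.dbl 43 3 40))) (.nv (.thr 61 1 (.thr 60 62 (.dbl 44 12 35))) .nd)))) (.rp 44 (.thr 46 34 (.thr 29 12 (.thr 30 31 (.thr 61 1 (.dbl 62 14 60))))) (.rp 35 (.thr 46 34 (.thr 12 29 (.thr 60 44 (.dbl 61 1 62)))) (.rp 7 (.str 52 (.nv (.thr 55 4 (.thr 53 54 (.dbl 61 1 57))) (.nv (.thr 4 55 (.thr 36 20 (.thr 40 43 (.dbl 44 32 35))))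 (.nv (.thr 61 1 (.thr 60 62 (.dbl 44 12 35))) .nd)))) .nd)))))))) (.rp 12 (.thr 35 44 (.thr 43 40 (.thr 39 47 (.thr 23 3 (.dbl 55 4 7))))) (.rp 7 (.str 52 (.nv (.thr 4 55 (.thr 36 20 (.thr 40 43 (.dbl 44 32 35)))) (.nv (.thr 61 1 (.thr 60 62 (.dbl 44 12 35))) (.rp 49 (.str 13 (.nv (.thr 61 1 (.thr 29 45 (.dbl 46 12 34))) (.nv (.thr 4 55 (.thr 36 20 (.thr 40 43 (.dbl 44 32 35)))) (.nv (.thr 46 34 (.thr 12 29 (.dbl 44 35 60))) .nd)))) (.rp 44 (.thr 46 34 (.thr 29 12 (.thr 30 31 (.thr 61 1 (.dbl 62 14 60))))) (.rp 35 (.thr 46 34 (.thr 12 29 (.thr 60 44 (.dbl 61 1 62)))) (.rp 13 (.str 49 (.nv (.thr 55 4 (.thr 53 54 (.dbl 61 1 57))) (.nv (.thr 4 55 (.thr 36 20 (.thr 40 43 (.dbl 44 32 35)))) (.nv (.thr 61 1 (.thr 60 62 (.dbl 44 12 35))) .nd)))) .nd))))))) .nd))))))))))) (.rp 13 (.str 49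 (.nv (.thr 55 4 (.thr 51 59 (.thr 48 50 (.thr 53 58 (.dbl 61 1 57))))) (.nv (.thr 55 4 (.thr 51 59 (.thr 43 40 (.thr 3 23 (.dbl 35 19 44))))) (.nv (.thr 1 61 (.thr 33 17 (.thr 34 46 (.dbl 35 32 44)))) (.rp 52 (.str 7 (.nv (.thr 1 61 (.thr 33 17 (.thr 34 46 (.dbl 35 32 44)))) (.nv (.thr 55 4 (.thr 23 39 (.dbl 43 3 40))) (.rp 28 (.str 19 (.nv (.thr 55 4 (.thr 23 39 (.dbl 43 3 40))) (.nv (.thr 1 61 (.thr 33 17 (.thr 34 46 (.dbl 35 32 44)))) (.nv (.thr 43 40 (.thr 3 23 (.dbl 35 44 51))) .nd)))) (.rp 19 (.str 28 (.nv (.thr 1 61 (.thr 33 17 (.thr 34 46 (.dbl 35 32 44)))) (.nv (.thr 55 4 (.thr 23 39 (.dbl 43 3 40))) (.nv (.thr 61 1 (.thr 60 62 (.dbl 44 12 35))) .nd)))) .nd))))) (.rp 28 (.str 19 (.nv (.thr 1 61 (.thr 33 17 (.thr 34 46 (.dbl 35 32 44)))) (.nv (.thr 55 4 (.thr 51 59 (.dbl 35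 3 44))) (.rp 52 (.str 7 (.nv (.thr 55 4 (.thr 23 39 (.dbl 43 3 40))) (.nv (.thr 1 61 (.thr 33 17 (.thr 34 46 (.dbl 35 32 44)))) (.nv (.thr 43 40 (.thr 3 23 (.dbl 35 44 51))) .nd)))) (.rp 44 (.thr 43 40 (.thr 3 23 (.thr 51 35 (.dbl 55 4 59)))) (.rp 35 (.thr 43 40 (.thr 23 3 (.thr 27 31 (.thr 55 4 (.dbl 59 11 51))))) (.rp 7 (.str 52 (.nv (.thr 55 4 (.thr 53 54 (.dbl 61 1 57))) (.nv (.thr 1 61 (.thr 33 17 (.thr 34 46 (.dbl 35 32 44)))) (.nv (.thr 55 4 (.thr 51 59 (.dbl 35 3 44))) .nd)))) .nd))))))) (.rp 19 (.str 28 (.nv (.thr 44 35 (.thr 46 34 (.dbl 12 29 60))) (.nv (.thr 1 61 (.thr 33 17 (.thr 34 46 (.dbl 35 32 44)))) (.nv (.thr 61 1 (.thr 60 62 (.dbl 44 12 35))) (.rp 52 (.str 7 (.nv (.thr 1 61 (.thr 33 17 (.thr 34 46 (.dbl 35 32 44)))) (.nv (.thr 55 4 (.thr 23 39 (.dbl 43 3 40))) (.nv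 (.thr 61 1 (.thr 60 62 (.dbl 44 12 35))) .nd)))) (.rp 44 (.thr 46 34 (.thr 29 12 (.thr 30 31 (.thr 61 1 (.dbl 62 14 60))))) (.rp 35 (.thr 46 34 (.thr 12 29 (.thr 60 44 (.dbl 61 1 62)))) (.rp 7 (.str 52 (.nv (.thr 55 4 (.thr 53 54 (.dbl 61 1 57))) (.nv (.thr 4 55 (.thr 36 20 (.thr 40 43 (.dbl 44 32 35)))) (.nv (.thr 61 1 (.thr 60 62 (.dbl 44 12 35))) .nd)))) .nd)))))))) (.rp 7 (.str 52 (.nv (.thr 4 55 (.thr 36 20 (.thr 40 43 (.dbl 44 32 35)))) (.nv (.thr 1 61 (.thr 33 17 (.thr 34 46 (.dbl 35 32 44)))) (.nv (.thr 61 1 (.thr 53 57 (.dbl 55 4 54))) (.rp 28 (.str 19 (.nv (.thr 55 4 (.thr 53 54 (.dbl 61 1 57))) (.nv (.thr 1 61 (.thr 33 17 (.thr 34 46 (.dbl 35 32 44)))) (.nv (.thr 55 4 (.thr 51 59 (.dbl 35 3 44))) .nd)))) (.rp 19 (.str 28 (.nv (.thr 55 4 (.thr 53 54 (.dbl 61 1 57))) (.nv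 (.thr 4 55 (.thr 36 20 (.thr 40 43 (.dbl 44 32 35)))) (.nv (.thr 61 1 (.thr 60 62 (.dbl 44 12 35))) .nd)))) .nd)))))) .nd)))))))) (.rp 7 (.str 52 (.nv (.thr 55 4 (.thr 51 59 (.thr 54 53 (.thr 60 57 (.dbl 61 1 62))))) (.nv (.thr 61 1 (.thr 60 62 (.thr 46 34 (.thr 12 29 (.dbl 44 28 35))))) (.nv (.thr 4 55 (.thr 36 20 (.thr 40 43 (.dbl 44 32 35)))) (.rp 49 (.str 13 (.nv (.thr 4 55 (.thr 36 20 (.thr 40 43 (.dbl 44 32 35)))) (.nv (.thr 61 1 (.thr 29 45 (.dbl 46 12 34))) (.rp 28 (.str 19 (.nv (.thr 4 55 (.thr 36 20 (.thr 40 43 (.dbl 44 32 35)))) (.nv (.thr 61 1 (.thr 29 45 (.dbl 46 12 34))) (.nv (.thr 55 4 (.thr 51 59 (.dbl 35 3 44))) .nd)))) (.rp 19 (.str 28 (.nv (.thr 61 1 (.thr 29 45 (.dbl 46 12 34))) (.nv (.thr 4 55 (.thr 36 20 (.thr 40 43 (.dbl 44 32 35)))) (.nv (.thr 46 34 (.thr 12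 29 (.dbl 44 35 60))) .nd)))) .nd))))) (.rp 28 (.str 19 (.nv (.thr 43 40 (.thr 35 44 (.dbl 3 23 51))) (.nv (.thr 4 55 (.thr 36 20 (.thr 40 43 (.dbl 44 32 35)))) (.nv (.thr 55 4 (.thr 51 59 (.dbl 35 3 44))) (.rp 49 (.str 13 (.nv (.thr 4 55 (.thr 36 20 (.thr 40 43 (.dbl 44 32 35)))) (.nv (.thr 61 1 (.thr 29 45 (.dbl 46 12 34))) (.nv (.thr 55 4 (.thr 51 59 (.dbl 35 3 44))) .nd)))) (.rp 44 (.thr 43 40 (.thr 3 23 (.thr 51 35 (.dbl 55 4 59)))) (.rp 35 (.thr 43 40 (.thr 23 3 (.thr 27 31 (.thr 55 4 (.dbl 59 11 51))))) (.rp 13 (.str 49 (.nv (.thr 55 4 (.thr 53 54 (.dbl 61 1 57))) (.nv (.thr 1 61 (.thr 33 17 (.thr 34 46 (.dbl 35 32 44)))) (.nv (.thr 55 4 (.thr 51 59 (.dbl 35 3 44))) .nd)))) .nd)))))))) (.rp 19 (.str 28 (.nv (.thr 4 55 (.thr 36 20 (.thr 40 43 (.dbl 44 32 35)))) (.nv (.thr 61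 1 (.thr 60 62 (.dbl 44 12 35))) (.rp 49 (.str 13 (.nv (.thr 61 1 (.thr 29 45 (.dbl 46 12 34))) (.nv (.thr 4 55 (.thr 36 20 (.thr 40 43 (.dbl 44 32 35)))) (.nv (.thr 46 34 (.thr 12 29 (.dbl 44 35 60))) .nd)))) (.rp 44 (.thr 46 34 (.thr 29 12 (.thr 30 31 (.thr 61 1 (.dbl 62 14 60))))) (.rp 35 (.thr 46 34 (.thr 12 29 (.thr 60 44 (.dbl 61 1 62)))) (.rp 13 (.str 49 (.nv (.thr 55 4 (.thr 53 54 (.dbl 61 1 57))) (.nv (.thr 4 55 (.thr 36 20 (.thr 40 43 (.dbl 44 32 35)))) (.nv (.thr 61 1 (.thr 60 62 (.dbl 44 12 35))) .nd)))) .nd))))))) (.rp 13 (.str 49 (.nv (.thr 4 55 (.thr 36 20 (.thr 40 43 (.dbl 44 32 35)))) (.nv (.thr 1 61 (.thr 33 17 (.thr 34 46 (.dbl 35 32 44)))) (.nv (.thr 61 1 (.thr 53 57 (.dbl 55 4 54))) (.rp 28 (.str 19 (.nv (.thr 55 4 (.thr 53 54 (.dbl 61 1 57))) (.nv (.thr 1 61 (.thr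 33 17 (.thr 34 46 (.dbl 35 32 44)))) (.nv (.thr 55 4 (.thr 51 59 (.dbl 35 3 44))) .nd)))) (.rp 19 (.str 28 (.nv (.thr 55 4 (.thr 53 54 (.dbl 61 1 57))) (.nv (.thr 4 55 (.thr 36 20 (.thr 40 43 (.dbl 44 32 35)))) (.nv (.thr 61 1 (.thr 60 62 (.dbl 44 12 35))) .nd)))) .nd)))))) .nd)))))))) .nd))))))))))))) (.rp 36 (.thr 43 40 (.thr 34 46 (.thr 35 44 (.thr 32 33 (.dbl 47 37 39))))) (.rp 35 (.thr 34 46 (.thr 1 61 (.str 26 (.nv (.thr 4 55 (.thr 10 58 (.thr 11 56 (.thr 9 8 (.thr 5 13 (.thr 7 6 (.thr 15 3 (.dbl 37 48 53)))))))) (.nv (.thr 4 55 (.thr 10 58 (.thr 14 50 (.thr 6 2 (.thr 5 7 (.thr 13 9 (.thr 15 12 (.dbl 37 48 53)))))))) (.nv (.thr 4 55 (.thr 10 58 (.thr 11 56 (.thr 9 8 (.thr 14 50 (.thr 6 2 (.dbl 5 7 13))))))) (.rp 58 (.thr 43 40 (.thr 11 56 (.thr 59 27 (.thr 55 4 (.thr 31 16 (.thr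 63 51 (.thr 3 23 (.dbl 15 7 47)))))))) (.rp 55 (.thr 10 58 (.thr 11 56 (.thr 9 8 (.thr 13 5 (.thr 14 50 (.thr 6 2 (.dbl 12 3 15))))))) (.rp 28 (.str 19 (.nv (.thr 11 56 (.thr 31 16 (.thr 27 23 (.dbl 43 40 59)))) (.nv (.thr 16 31 (.thr 18 17 (.dbl 50 2 14))) (.rp 31 (.thr 50 14 (.thr 18 2 (.thr 17 16 (.thr 33 49 (.thr 48 3 (.dbl 37 15 45)))))) (.rp 16 (.thr 43 40 (.thr 11 56 (.thr 27 59 (.thr 55 4 (.thr 23 31 (.thr 7 39 (.dbl 3 15 63))))))) .nd))))) (.rp 19 (.str 28 (.nv (.thr 16 31 (.thr 56 11 (.thr 24 20 (.dbl 40 8 43)))) (.rp 56 (.thr 40 43 (.thr 16 31 (.thr 20 24 (.thr 4 55 (.thr 36 52 (.thr 32 44 (.dbl 37 39 47))))))) (.rp 51 (.str 3 (.nv (.thr 4 55 (.thr 10 58 (.thr 14 50 (.thr 6 2 (.thr 9 12 (.dbl 5 7 13)))))) (.nv (.thr 16 31 (.thr 56 11 (.thr 24 20 (.dbl 40 8 43)))) .nd)))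 (.rp 43 (.thr 11 56 (.thr 10 58 (.thr 9 8 (.thr 13 5 (.thr 14 50 (.thr 6 2 (.dbl 12 3 15))))))) (.rp 40 (.thr 11 56 (.thr 10 58 (.thr 14 50 (.thr 6 2 (.thr 4 55 (.thr 5 7 (.dbl 9 8 13))))))) (.rp 31 (.thr 11 56 (.thr 10 58 (.thr 9 8 (.thr 13 5 (.thr 14 50 (.thr 6 2 (.dbl 12 3 15))))))) (.rp 27 (.thr 11 56 (.thr 10 58 (.thr 9 8 (.thr 13 5 (.thr 14 50 (.thr 6 2 (.dbl 12 3 15))))))) (.rp 24 (.thr 11 56 (.thr 10 58 (.thr 14 50 (.thr 6 2 (.thr 4 55 (.thr 5 7 (.dbl 9 8 13))))))) (.rp 23 (.thr 40 43 (.thr 56 11 (.thr 24 8 (.dbl 16 20 31)))) (.rp 20 (.thr 11 56 (.thr 10 58 (.thr 9 8 (.thr 13 5 (.thr 14 50 (.thr 6 2 (.dbl 12 3 15))))))) (.rp 16 (.thr 11 56 (.thr 10 58 (.thr 9 8 (.thr 13 5 (.thr 14 50 (.thr 6 2 (.dbl 12 3 15))))))) (.rp 11 (.thr 40 43 (.thr 16 31 (.thr 20 24 (.thr 4 55 (.thr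 36 52 (.thr 32 44 (.dbl 37 39 47))))))) (.rp 8 (.thr 40 43 (.thr 16 31 (.thr 20 24 (.thr 4 55 (.thr 36 52 (.thr 32 44 (.dbl 37 39 47))))))) (.rp 3 (.str 51 (.nv (.thr 11 56 (.thr 43 40 (.thr 55 4 (.dbl 59 27 63)))) (.nv (.thr 4 55 (.thr 50 14 (.thr 48 49 (.thr 58 10 (.thr 53 63 (.dbl 37 5 15)))))) (.nv (.thr 16 31 (.thr 56 11 (.thr 24 20 (.dbl 40 8 43)))) (.rp 43 (.thr 58 10 (.thr 56 11 (.thr 59 57 (.dbl 55 4 63)))) .nd))))) .nd))))))))))))))) (.rp 13 (.thr 43 40 (.thr 11 56 (.thr 59 27 (.thr 55 4 (.thr 31 16 (.thr 63 51 (.thr 3 23 (.dbl 15 7 47)))))))) (.rp 10 (.thr 43 40 (.thr 11 56 (.thr 59 27 (.thr 55 4 (.thr 31 16 (.thr 63 51 (.thr 3 23 (.dbl 15 7 47)))))))) (.rp 9 (.thr 43 40 (.thr 11 56 (.thr 59 27 (.thr 55 4 (.thr 31 16 (.thr 63 51 (.thr 3 23 (.dbl 15 7 47)))))))) (.rp 7 (.thr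 10 58 (.thr 11 56 (.thr 9 8 (.thr 13 5 (.thr 14 50 (.thr 6 2 (.dbl 12 3 15))))))) (.rp 6 (.thr 43 40 (.thr 11 56 (.thr 59 27 (.thr 55 4 (.thr 31 16 (.thr 63 51 (.thr 3 23 (.dbl 15 7 47)))))))) (.rp 5 (.thr 43 40 (.thr 11 56 (.thr 59 27 (.thr 55 4 (.thr 31 16 (.thr 63 51 (.thr 3 23 (.dbl 15 7 47)))))))) (.rp 4 (.thr 10 58 (.thr 11 56 (.thr 14 50 (.thr 6 2 (.thr 9 8 (.thr 12 3 (.dbl 13 5 15))))))) .nd))))))))))))))))) (.rp 34 (.thr 55 4 (.str 51 (.nv (.thr 35 44 (.thr 19 3 (.thr 43 40 (.thr 39 47 (.thr 23 7 (.dbl 27 15 31)))))) (.nv (.thr 35 44 (.thr 43 40 (.thr 39 47 (.thr 27 15 (.dbl 59 11 63))))) (.nv (.thr 63 59 (.thr 43 40 (.thr 3 23 (.dbl 35 19 44)))) (.rp 60 (.thr 63 59 (.thr 40 43 (.thr 44 35 (.thr 32 36 (.thr 47 37 (.thr 31 15 (.thr 26 16 (.thr 14 50 (.thr 46 45 (.thr 30 62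 (.dbl 29 12 28))))))))))) (.rp 44 (.thr 59 63 (.thr 43 40 (.thr 27 11 (.thr 39 15 (.thr 47 35 (.dbl 37 32 36)))))) (.rp 43 (.thr 63 59 (.thr 61 1 (.thr 60 62 (.thr 54 57 (.thr 53 52 (.thr 37 5 (.thr 45 33 (.thr 15 30 (.dbl 48 26 58))))))))) (.rp 40 (.thr 63 59 (.thr 61 1 (.thr 60 62 (.thr 54 57 (.thr 53 52 (.thr 37 5 (.thr 45 33 (.thr 15 30 (.dbl 48 26 58))))))))) (.rp 35 (.thr 63 59 (.thr 43 40 (.thr 23 3 (.thr 39 7 (.thr 37 36 (.thr 15 27 (.dbl 47 31 32))))))) (.rp 28 (.str 19 (.nv (.dbl 35 3 44) (.rp 44 (.thr 63 59 (.thr 43 40 (.dbl 3 23 35))) (.rp 35 (.thr 59 63 (.thr 43 40 (.thr 27 11 (.thr 23 31 (.dbl 39 7 15))))) (.rp 12 (.str 8 (.nv (.dbl 35 3 44) (.rp 60 (.thr 44 35 (.thr 40 43 (.thr 56 24 (.thr 26 11 (.thr 58 10 (.dbl 59 57 63)))))) (.rp 44 (.str 60 (.nv (.thr 40 43 (.thr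 54 57 (.thr 56 24 (.dbl 52 48 53)))) (.nv (.thr 63 59 (.dbl 61 1 62)) .nd))) (.rp 35 (.thr 40 43 (.thr 56 24 (.thr 26 11 (.thr 58 10 (.dbl 59 57 63))))) (.rp 3 (.thr 40 43 (.thr 56 24 (.thr 26 11 (.thr 58 10 (.dbl 59 57 63))))) .nd)))))) (.rp 8 (.str 12 (.nv (.dbl 35 3 44) (.rp 44 (.thr 3 35 (.thr 63 59 (.dbl 43 23 40))) (.rp 35 (.thr 63 59 (.thr 43 40 (.thr 23 3 (.thr 27 31 (.dbl 39 7 15))))) (.rp 3 (.thr 59 63 (.thr 35 44 (.thr 43 40 (.thr 39 47 (.dbl 27 11 15))))) .nd))))) (.rp 3 (.thr 59 63 (.thr 43 40 (.thr 35 44 (.thr 39 47 (.dbl 27 11 15))))) .nd))))))) (.rp 20 (.thr 63 59 (.thr 35 44 (.thr 61 1 (.thr 60 62 (.thr 43 40 (.dbl 3 19 23)))))) (.rp 19 (.str 28 (.nv (.thr 35 44 (.thr 43 40 (.thr 39 47 (.thr 27 15 (.dbl 59 11 63))))) (.nv (.thr 61 1 (.thr 63 59 (.thr 60 62 (.dbl 44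 12 35)))) (.rp 63 (.thr 44 35 (.thr 40 43 (.thr 32 36 (.thr 47 37 (.thr 45 46 (.thr 12 60 (.thr 61 1 (.thr 13 29 (.thr 14 15 (.thr 26 50 (.thr 16 31 (.thr 56 11 (.dbl 24 8 20))))))))))))) (.rp 60 (.thr 63 59 (.thr 44 35 (.thr 40 43 (.thr 32 36 (.thr 47 37 (.thr 45 46 (.thr 61 1 (.thr 31 15 (.dbl 29 13 30))))))))) (.rp 59 (.thr 44 35 (.thr 40 43 (.thr 32 36 (.thr 47 37 (.thr 45 46 (.thr 12 60 (.thr 61 1 (.thr 13 29 (.thr 15 14 (.thr 31 63 (.thr 26 16 (.thr 11 56 (.thr 39 27 (.dbl 7 3 23)))))))))))))) (.rp 44 (.thr 59 63 (.thr 43 40 (.thr 27 11 (.thr 39 15 (.thr 47 35 (.dbl 37 32 36)))))) (.rp 35 (.thr 63 59 (.thr 43 40 (.thr 23 3 (.thr 39 7 (.thr 37 36 (.thr 15 27 (.dbl 47 31 32))))))) (.rp 12 (.str 8 (.nv (.thr 43 40 (.thr 63 59 (.thr 35 44 (.thr 39 47 (.dbl 23 3 7))))) (.nv (.thr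 40 43 (.thr 56 24 (.thr 26 11 (.thr 58 10 (.dbl 59 57 63))))) (.rp 63 (.thr 40 43 (.thr 56 24 (.thr 26 11 (.thr 58 10 (.thr 50 14 (.thr 54 62 (.dbl 57 59 60))))))) (.rp 59 (.thr 40 43 (.thr 24 56 (.thr 16 20 (.thr 26 31 (.thr 58 10 (.thr 50 14 (.thr 54 62 (.thr 48 49 (.dbl 53 52 63))))))))) (.rp 43 (.thr 63 59 (.thr 61 1 (.thr 60 62 (.thr 57 54 (.thr 53 49 (.thr 37 5 (.thr 39 36 (.thr 47 32 (.dbl 15 27 31))))))))) (.rp 40 (.thr 63 59 (.thr 61 1 (.thr 60 62 (.thr 57 54 (.thr 53 49 (.thr 37 5 (.thr 39 36 (.thr 15 27 (.dbl 47 31 32))))))))) (.rp 36 (.thr 43 40 (.thr 63 59 (.thr 23 3 (.thr 39 7 (.dbl 35 44 47))))) .nd)))))))) (.rp 8 (.str 12 (.nv (.dbl 44 35 60) (.rp 60 (.thr 63 59 (.thr 40 43 (.thr 44 35 (.thr 32 36 (.thr 47 37 (.dbl 46 29 45)))))) (.rp 44 (.thr 63 59 (.thr 43 40 (.thr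 23 3 (.thr 39 7 (.thr 47 35 (.dbl 37 32 36)))))) (.rp 35 (.thr 63 59 (.thr 60 44 (.dbl 61 1 62))) .nd))))) .nd)))))))))) (.rp 12 (.str 8 (.nv (.thr 35 44 (.thr 19 3 (.thr 43 40 (.thr 39 47 (.thr 23 7 (.dbl 27 15 31)))))) (.nv (.thr 40 43 (.thr 56 24 (.thr 26 11 (.thr 58 10 (.dbl 59 57 63))))) (.nv (.thr 43 40 (.thr 63 59 (.thr 3 23 (.dbl 35 19 44)))) (.rp 43 (.thr 61 1 (.thr 63 59 (.thr 60 62 (.thr 54 57 (.thr 53 52 (.thr 37 5 (.thr 45 33 (.thr 15 30 (.dbl 39 27 36))))))))) (.rp 40 (.thr 61 1 (.thr 63 59 (.thr 60 62 (.thr 54 57 (.thr 53 52 (.thr 37 5 (.thr 45 33 (.thr 15 30 (.dbl 39 27 36))))))))) (.rp 28 (.str 19 (.nv (.dbl 35 3 44) (.rp 60 (.thr 44 35 (.thr 40 43 (.thr 56 24 (.thr 26 11 (.thr 58 10 (.dbl 59 57 63)))))) (.rp 44 (.str 60 (.nv (.thr 40 43 (.thr 54 57 (.thr 56 24 (.dbl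 52 48 53)))) (.nv (.thr 63 59 (.dbl 61 1 62)) .nd))) (.rp 35 (.thr 40 43 (.thr 56 24 (.thr 26 11 (.thr 58 10 (.dbl 59 57 63))))) (.rp 3 (.thr 40 43 (.thr 56 24 (.thr 26 11 (.thr 58 10 (.dbl 59 57 63))))) .nd)))))) (.rp 19 (.str 28 (.nv (.thr 43 40 (.thr 63 59 (.thr 35 44 (.thr 39 47 (.dbl 23 3 7))))) (.nv (.thr 40 43 (.thr 56 24 (.thr 26 11 (.thr 58 10 (.dbl 59 57 63))))) (.rp 63 (.thr 40 43 (.thr 56 24 (.thr 26 11 (.thr 58 10 (.thr 50 14 (.thr 54 62 (.dbl 57 59 60))))))) (.rp 59 (.thr 40 43 (.thr 24 56 (.thr 16 20 (.thr 26 31 (.thr 58 10 (.thr 50 14 (.thr 54 62 (.thr 48 49 (.dbl 53 52 63))))))))) (.rp 43 (.thr 63 59 (.thr 61 1 (.thr 60 62 (.thr 57 54 (.thr 53 49 (.thr 37 5 (.thr 39 36 (.thr 47 32 (.dbl 15 27 31))))))))) (.rp 40 (.thr 63 59 (.thr 61 1 (.thr 60 62 (.thr 57 54 (.thr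 53 49 (.thr 37 5 (.thr 39 36 (.thr 15 27 (.dbl 47 31 32))))))))) (.rp 36 (.thr 43 40 (.thr 63 59 (.thr 23 3 (.thr 39 7 (.dbl 35 44 47))))) .nd)))))))) .nd)))))))) (.rp 8 (.str 12 (.nv (.thr 35 44 (.thr 43 40 (.thr 39 47 (.thr 7 23 (.thr 15 27 (.dbl 3 11 19)))))) (.nv (.thr 61 1 (.thr 63 59 (.thr 60 62 (.dbl 44 28 35)))) (.rp 60 (.thr 44 35 (.thr 40 43 (.thr 32 36 (.thr 47 37 (.thr 46 45 (.dbl 63 29 59)))))) (.rp 44 (.thr 43 40 (.thr 63 59 (.thr 23 3 (.thr 39 7 (.thr 47 35 (.dbl 37 32 36)))))) (.rp 35 (.thr 43 40 (.thr 63 59 (.thr 23 3 (.thr 39 7 (.thr 37 36 (.thr 15 27 (.dbl 47 31 32))))))) (.rp 28 (.str 19 (.nv (.dbl 35 3 44) (.rp 44 (.thr 3 35 (.thr 63 59 (.dbl 43 23 40))) (.rp 35 (.thr 63 59 (.thr 43 40 (.thr 23 3 (.thr 27 31 (.dbl 39 7 15))))) (.rp 3 (.thr 59 63 (.thr 35 44 (.thr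 43 40 (.thr 39 47 (.dbl 27 11 15))))) .nd))))) (.rp 19 (.str 28 (.nv (.dbl 44 35 60) (.rp 60 (.thr 63 59 (.thr 40 43 (.thr 44 35 (.thr 32 36 (.thr 47 37 (.dbl 46 29 45)))))) (.rp 44 (.thr 63 59 (.thr 43 40 (.thr 23 3 (.thr 39 7 (.thr 47 35 (.dbl 37 32 36)))))) (.rp 35 (.thr 63 59 (.thr 60 44 (.dbl 61 1 62))) .nd))))) (.rp 3 (.thr 35 44 (.thr 43 40 (.thr 39 47 (.thr 59 63 (.dbl 27 11 15))))) .nd))))))))) .nd))))))))))))))) (.rp 32 (.thr 40 43 (.thr 4 55 (.thr 1 61 (.thr 34 46 (.str 26 (.nv (.thr 10 58 (.thr 14 50 (.thr 6 2 (.thr 5 7 (.thr 13 9 (.thr 15 12 (.dbl 37 48 53))))))) (.nv (.thr 10 58 (.thr 11 56 (.thr 9 8 (.thr 5 13 (.thr 7 6 (.thr 15 3 (.dbl 37 48 53))))))) (.nv (.thr 11 56 (.thr 10 58 (.thr 9 8 (.thr 14 50 (.thr 6 2 (.dbl 5 7 13)))))) (.rp 58 (.thr 35 44 (.thr 16 31 (.thr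 50 14 (.thr 18 2 (.thr 19 17 (.thr 3 51 (.thr 48 33 (.thr 15 37 (.dbl 11 7 56))))))))) (.rp 48 (.thr 16 31 (.thr 14 50 (.thr 10 58 (.thr 6 2 (.thr 5 7 (.thr 9 13 (.dbl 11 8 56))))))) (.rp 28 (.str 19 (.nv (.thr 16 31 (.thr 18 17 (.dbl 50 2 14))) (.rp 50 (.thr 35 44 (.thr 16 31 (.thr 18 17 (.thr 3 51 (.thr 48 33 (.thr 15 37 (.dbl 11 7 56))))))) (.rp 31 (.thr 14 50 (.thr 10 58 (.thr 6 2 (.thr 5 7 (.thr 9 13 (.dbl 11 8 56)))))) (.rp 30 (.thr 14 50 (.thr 10 58 (.thr 6 2 (.thr 5 7 (.thr 9 13 (.dbl 11 8 56)))))) (.rp 29 (.thr 50 14 (.thr 18 2 (.dbl 16 17 31))) (.rp 18 (.thr 14 50 (.thr 10 58 (.thr 6 2 (.thr 5 7 (.thr 9 13 (.dbl 11 8 56)))))) (.rp 17 (.thr 14 50 (.thr 10 58 (.thr 6 2 (.thr 5 7 (.thr 9 13 (.dbl 11 8 56)))))) (.rp 16 (.str 48 (.nv (.thr 50 14 (.thr 18 2 (.thr 3 33 (.dbl 51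 35 49)))) (.nv (.thr 56 11 (.thr 52 60 (.thr 36 20 (.dbl 24 8 12)))) (.rp 62 (.thr 35 44 (.thr 51 3 (.dbl 50 14 49))) (.rp 24 (.str 20 (.nv (.thr 50 14 (.thr 51 49 (.dbl 35 3 44))) (.nv (.thr 52 36 (.dbl 56 11 60)) .nd))) (.rp 20 (.str 24 (.nv (.thr 36 12 (.dbl 37 15 39)) (.nv (.dbl 56 8 11) .nd))) .nd)))))) (.rp 14 (.thr 35 44 (.thr 16 31 (.thr 18 17 (.thr 3 51 (.thr 48 33 (.thr 15 37 (.dbl 11 7 56))))))) (.rp 2 (.thr 35 44 (.thr 16 31 (.thr 17 18 (.thr 51 3 (.thr 50 14 (.dbl 49 33 48)))))) .nd))))))))))) (.rp 19 (.str 28 (.nv (.thr 16 31 (.thr 24 20 (.dbl 56 8 11))) (.rp 56 (.thr 44 35 (.thr 16 31 (.thr 24 20 (.thr 12 60 (.thr 48 36 (.thr 15 37 (.dbl 14 13 50))))))) (.rp 31 (.thr 11 56 (.thr 10 58 (.thr 9 8 (.thr 5 13 (.thr 6 7 (.dbl 14 2 50)))))) (.rp 27 (.thr 11 56 (.thr 10 58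 (.thr 9 8 (.thr 5 13 (.thr 6 7 (.dbl 14 2 50)))))) (.rp 24 (.thr 11 56 (.thr 10 58 (.thr 9 8 (.thr 5 13 (.thr 6 7 (.dbl 14 2 50)))))) (.rp 23 (.thr 56 11 (.thr 24 8 (.dbl 16 20 31))) (.rp 20 (.thr 11 56 (.thr 10 58 (.thr 9 8 (.thr 5 13 (.thr 6 7 (.dbl 14 2 50)))))) (.rp 16 (.str 48 (.nv (.thr 56 11 (.thr 24 8 (.thr 12 36 (.dbl 60 44 52)))) (.nv (.thr 50 14 (.thr 49 51 (.thr 33 17 (.dbl 18 2 3)))) (.rp 59 (.thr 44 35 (.thr 60 12 (.dbl 56 11 52))) (.rp 18 (.str 17 (.nv (.thr 56 11 (.thr 60 52 (.dbl 44 12 35))) (.nv (.thr 49 33 (.dbl 50 14 51)) .nd))) (.rp 17 (.str 18 (.nv (.thr 33 3 (.dbl 37 15 45)) (.nv (.dbl 50 2 14) .nd))) .nd)))))) (.rp 11 (.thr 44 35 (.thr 16 31 (.thr 24 20 (.thr 12 60 (.thr 48 36 (.thr 15 37 (.dbl 14 13 50))))))) (.rp 8 (.thr 44 35 (.thr 16 31 (.thr 20 24 (.thr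 60 12 (.thr 56 11 (.dbl 52 36 48)))))) .nd))))))))))) (.rp 16 (.str 48 (.nv (.thr 37 15 (.thr 36 39 (.thr 52 20 (.dbl 56 11 60)))) (.nv (.thr 50 14 (.thr 49 51 (.thr 33 17 (.dbl 18 2 3)))) (.rp 51 (.thr 56 11 (.thr 24 8 (.thr 52 60 (.dbl 36 12 20)))) (.rp 28 (.str 19 (.nv (.thr 50 14 (.thr 18 2 (.thr 3 33 (.dbl 51 35 49)))) (.nv (.thr 56 11 (.thr 52 60 (.thr 36 20 (.dbl 24 8 12)))) (.rp 62 (.thr 35 44 (.thr 51 3 (.dbl 50 14 49))) (.rp 24 (.str 20 (.nv (.thr 50 14 (.thr 51 49 (.dbl 35 3 44))) (.nv (.thr 52 36 (.dbl 56 11 60)) .nd))) (.rp 20 (.str 24 (.nv (.thr 36 12 (.dbl 37 15 39)) (.nv (.dbl 56 8 11) .nd))) .nd)))))) (.rp 19 (.str 28 (.nv (.thr 56 11 (.thr 24 8 (.thr 12 36 (.dbl 60 44 52)))) (.nv (.thr 50 14 (.thr 49 51 (.thr 33 17 (.dbl 18 2 3)))) (.rp 59 (.thr 44 35 (.thr 60 12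 (.dbl 56 11 52))) (.rp 18 (.str 17 (.nv (.thr 56 11 (.thr 60 52 (.dbl 44 12 35))) (.nv (.thr 49 33 (.dbl 50 14 51)) .nd))) (.rp 17 (.str 18 (.nv (.thr 33 3 (.dbl 37 15 45)) (.nv (.dbl 50 2 14) .nd))) .nd)))))) .nd)))))) (.rp 13 (.thr 14 50 (.thr 10 58 (.thr 6 2 (.thr 7 5 (.thr 11 56 (.thr 9 8 (.dbl 3 12 15))))))) (.rp 10 (.thr 11 56 (.str 15 (.nv (.thr 14 50 (.thr 13 12 (.thr 16 31 (.thr 37 48 (.dbl 5 9 53))))) (.nv (.thr 16 31 (.thr 37 48 (.thr 5 53 (.dbl 7 3 6)))) (.nv (.thr 7 3 (.thr 5 6 (.thr 14 50 (.dbl 13 9 12)))) (.rp 63 (.thr 3 7 (.thr 35 44 (.thr 16 31 (.thr 37 48 (.thr 39 36 (.dbl 51 19 27)))))) (.rp 48 (.thr 16 31 (.thr 7 3 (.thr 5 6 (.thr 14 50 (.dbl 13 9 12))))) (.rp 28 (.str 19 (.nv (.thr 48 37 (.thr 35 44 (.dbl 3 7 51))) (.nv (.thr 16 31 (.thr 18 17 (.dbl 50 2 14)))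 .nd))) (.rp 19 (.str 28 (.nv (.thr 14 50 (.thr 13 12 (.thr 5 9 (.dbl 7 3 6)))) (.nv (.thr 37 48 (.thr 16 31 (.thr 20 24 (.dbl 36 39 52)))) (.rp 48 (.thr 16 31 (.thr 44 35 (.thr 14 50 (.dbl 12 13 60)))) (.rp 16 (.thr 48 37 (.thr 44 35 (.thr 12 60 (.dbl 14 13 50)))) .nd))))) (.rp 16 (.thr 48 37 (.thr 7 3 (.thr 5 6 (.thr 14 50 (.dbl 13 9 12))))) (.rp 5 (.thr 50 14 (.thr 48 37 (.thr 49 51 (.thr 33 17 (.dbl 3 7 18))))) .nd))))))))))) (.rp 9 (.thr 35 44 (.thr 16 31 (.thr 50 14 (.thr 18 2 (.thr 19 17 (.thr 3 51 (.thr 48 33 (.thr 15 37 (.dbl 11 7 56))))))))) (.rp 7 (.thr 14 50 (.thr 10 58 (.thr 6 2 (.thr 11 56 (.thr 9 8 (.thr 13 5 (.dbl 12 3 15))))))) (.rp 6 (.thr 44 35 (.thr 16 31 (.thr 14 50 (.thr 56 11 (.thr 24 8 (.thr 28 20 (.thr 12 60 (.thr 15 13 (.dbl 48 36 37))))))))) (.rp 5 (.thr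 35 44 (.thr 16 31 (.thr 50 14 (.thr 18 2 (.thr 19 17 (.thr 3 51 (.thr 48 33 (.thr 15 37 (.dbl 11 7 56))))))))) .nd))))))))))))))))))) (.rp 28 (.str 19 (.nv (.thr 34 46 (.thr 35 44 (.thr 32 33 (.thr 43 40 (.dbl 47 37 39))))) (.nv (.thr 35 44 (.thr 3 51 (.thr 43 40 (.thr 23 63 (.thr 55 4 (.dbl 39 7 47)))))) (.nv (.thr 46 34 (.thr 44 35 (.thr 47 45 (.thr 40 43 (.dbl 32 36 37))))) (.rp 47 (.thr 35 44 (.thr 43 40 (.thr 55 4 (.thr 3 51 (.thr 23 63 (.thr 31 27 (.thr 26 16 (.thr 11 56 (.dbl 7 15 39))))))))) (.rp 44 (.str 11 (.nv (.thr 26 56 (.thr 16 31 (.thr 18 17 (.thr 34 46 (.dbl 50 2 14))))) (.nv (.thr 43 40 (.thr 27 59 (.thr 31 23 (.dbl 26 16 56)))) (.rp 60 (.str 12 (.nv (.thr 1 61 (.thr 26 56 (.thr 14 50 (.thr 13 15 (.thr 9 5 (.dbl 10 8 58)))))) (.nv (.thr 26 56 (.thr 31 16 (.thr 27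 23 (.dbl 43 40 59)))) (.rp 56 (.thr 46 34 (.thr 63 29 (.thr 55 4 (.thr 51 59 (.thr 3 35 (.dbl 43 23 40)))))) (.rp 52 (.thr 46 34 (.thr 63 29 (.thr 55 4 (.thr 51 59 (.thr 3 35 (.dbl 43 23 40)))))) (.rp 48 (.thr 46 34 (.thr 63 29 (.thr 55 4 (.thr 51 59 (.thr 3 35 (.dbl 43 23 40)))))) (.rp 40 (.str 20 (.nv (.thr 34 46 (.thr 26 56 (.thr 16 31 (.thr 18 17 (.dbl 50 2 14))))) (.nv (.thr 4 55 (.thr 36 52 (.thr 37 39 (.thr 26 56 (.dbl 48 15 24))))) (.rp 56 (.thr 46 34 (.thr 29 63 (.thr 61 1 (.thr 45 13 (.thr 37 33 (.thr 36 39 (.dbl 4 52 55))))))) (.rp 52 (.thr 46 34 (.thr 29 63 (.thr 61 1 (.thr 13 45 (.thr 14 15 (.thr 30 62 (.dbl 26 50 56))))))) (.rp 48 (.thr 46 34 (.thr 29 63 (.thr 61 1 (.thr 13 45 (.thr 14 15 (.thr 30 62 (.dbl 26 50 56))))))) (.rp 36 (.str 32 (.nv (.thr 26 56 (.thr 10 58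 (.thr 14 50 (.thr 6 2 (.dbl 9 3 8))))) (.nv (.thr 34 46 (.thr 33 35 (.dbl 37 45 47))) (.rp 34 (.thr 37 47 (.thr 26 56 (.thr 14 50 (.dbl 15 13 48)))) .nd)))) (.rp 32 (.str 36 (.nv (.thr 48 24 (.thr 37 39 (.dbl 26 15 56))) (.nv (.dbl 4 52 55) (.rp 48 (.str 16 (.nv (.dbl 4 52 55) (.nv (.dbl 26 31 56) (.rp 56 (.thr 52 4 (.thr 37 39 (.thr 33 45 (.thr 17 18 (.dbl 1 49 61))))) (.rp 52 (.thr 56 26 (.thr 37 39 (.thr 33 45 (.thr 1 61 (.dbl 17 18 49))))) .nd))))) .nd)))) (.rp 26 (.thr 46 34 (.thr 29 63 (.thr 61 1 (.thr 45 13 (.thr 37 33 (.thr 36 39 (.dbl 4 52 55))))))) (.rp 24 (.thr 46 34 (.thr 29 63 (.thr 61 1 (.thr 13 45 (.thr 14 15 (.thr 30 62 (.dbl 26 50 56))))))) (.rp 8 (.thr 46 34 (.thr 29 63 (.thr 61 1 (.thr 13 45 (.thr 14 15 (.thr 30 62 (.dbl 26 50 56))))))) .nd))))))))))) (.rp 26 (.thr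 46 34 (.thr 63 29 (.thr 55 4 (.thr 51 59 (.thr 3 35 (.dbl 43 23 40)))))) (.rp 20 (.thr 40 43 (.thr 34 46 (.thr 26 56 (.thr 16 31 (.thr 18 17 (.dbl 50 2 14)))))) .nd))))))))) (.rp 56 (.thr 43 40 (.thr 55 4 (.thr 27 59 (.thr 23 31 (.thr 3 63 (.dbl 7 15 39)))))) (.rp 31 (.thr 34 46 (.thr 43 40 (.thr 55 4 (.thr 59 27 (.thr 51 63 (.thr 35 3 (.thr 47 39 (.dbl 32 33 37)))))))) (.rp 26 (.thr 43 40 (.thr 55 4 (.thr 27 59 (.thr 23 31 (.thr 3 63 (.dbl 7 15 39)))))) (.rp 16 (.thr 43 40 (.thr 55 4 (.thr 27 59 (.thr 23 31 (.thr 3 63 (.dbl 7 15 39)))))) (.rp 12 (.str 60 (.nv (.thr 43 40 (.thr 27 59 (.thr 23 31 (.thr 61 1 (.dbl 63 3 62))))) (.nv (.thr 4 55 (.thr 26 56 (.thr 14 50 (.thr 46 34 (.thr 61 1 (.dbl 62 30 63)))))) (.nv (.thr 43 40 (.thr 27 59 (.thr 31 23 (.dbl 26 16 56)))) (.rp 4 (.str 8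 (.nv (.thr 10 9 (.dbl 26 56 58)) (.nv (.thr 40 43 (.dbl 56 24 26)) (.rp 56 (.thr 43 40 (.thr 10 9 (.thr 26 58 (.thr 31 16 (.dbl 27 23 59))))) (.rp 26 (.thr 43 40 (.thr 27 59 (.thr 61 1 (.thr 63 62 (.dbl 23 3 31))))) .nd))))) .nd))))) .nd))))))))) (.rp 43 (.thr 34 46 (.thr 35 44 (.thr 33 32 (.thr 3 51 (.thr 1 61 (.thr 17 49 (.dbl 18 16 48))))))) (.rp 40 (.thr 34 46 (.thr 35 44 (.thr 32 33 (.thr 47 37 (.thr 39 43 (.thr 55 4 (.thr 51 3 (.thr 15 27 (.dbl 63 31 59))))))))) (.rp 35 (.str 11 (.nv (.thr 26 56 (.thr 16 31 (.thr 18 17 (.thr 34 46 (.dbl 50 2 14))))) (.nv (.thr 43 40 (.thr 27 59 (.thr 31 23 (.dbl 26 16 56)))) (.rp 56 (.thr 43 40 (.thr 55 4 (.thr 27 59 (.thr 23 31 (.thr 3 63 (.dbl 7 15 39)))))) (.rp 31 (.thr 46 34 (.thr 43 40 (.thr 55 4 (.thr 27 59 (.thr 61 1 (.thr 26 56 (.thr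 58 10 (.thr 50 14 (.thr 54 62 (.thr 53 52 (.thr 57 49 (.thr 48 63 (.dbl 37 5 15))))))))))))) (.rp 26 (.thr 43 40 (.thr 55 4 (.thr 27 59 (.thr 23 31 (.thr 3 63 (.dbl 7 15 39)))))) (.rp 16 (.thr 43 40 (.thr 55 4 (.thr 27 59 (.thr 23 31 (.thr 3 63 (.dbl 7 15 39)))))) .nd))))))) (.rp 34 (.thr 35 44 (.thr 43 40 (.thr 39 47 (.thr 55 4 (.thr 23 7 (.dbl 3 51 63)))))) (.rp 32 (.thr 1 61 (.thr 34 46 (.thr 44 35 (.str 16 (.nv (.thr 18 17 (.thr 50 2 (.dbl 26 14 31))) (.rp 50 (.thr 17 18 (.thr 33 49 (.thr 37 45 (.thr 39 36 (.thr 55 4 (.thr 23 7 (.dbl 31 26 27))))))) (.rp 31 (.thr 43 40 (.thr 18 17 (.thr 50 2 (.thr 26 14 (.thr 11 56 (.thr 59 27 (.thr 55 4 (.thr 51 63 (.thr 48 49 (.thr 3 33 (.dbl 15 7 37))))))))))) (.rp 26 (.thr 18 17 (.str 27 (.nv (.thr 23 31 (.thr 55 4 (.thr 39 7 (.thr 51 15 (.thr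 63 59 (.dbl 43 3 40)))))) (.nv (.thr 23 31 (.thr 43 40 (.thr 3 63 (.thr 33 48 (.thr 37 45 (.thr 39 36 (.dbl 55 4 7))))))) (.nv (.thr 43 40 (.thr 55 4 (.thr 59 11 (.thr 63 51 (.dbl 23 3 31))))) (.rp 63 (.thr 23 31 (.thr 50 2 (.thr 55 4 (.thr 39 7 (.thr 37 36 (.thr 33 45 (.thr 48 3 (.dbl 51 15 49)))))))) (.rp 55 (.thr 43 40 (.thr 23 31 (.thr 50 2 (.thr 3 63 (.thr 48 33 (.thr 51 49 (.thr 15 39 (.dbl 11 7 59)))))))) (.rp 43 (.thr 23 31 (.thr 50 2 (.thr 55 4 (.thr 39 7 (.thr 37 36 (.thr 33 45 (.thr 51 15 (.dbl 48 3 49)))))))) (.rp 40 (.thr 23 31 (.thr 50 2 (.thr 55 4 (.thr 39 7 (.thr 37 36 (.thr 33 45 (.thr 51 15 (.dbl 48 3 49)))))))) (.rp 31 (.thr 43 40 (.thr 50 2 (.thr 59 11 (.thr 55 4 (.thr 51 63 (.thr 48 49 (.thr 33 3 (.thr 37 45 (.dbl 39 15 36))))))))) (.rp 23 (.thr 43 40 (.thr 50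 2 (.thr 59 11 (.thr 55 4 (.thr 51 63 (.thr 39 15 (.thr 37 36 (.thr 33 45 (.dbl 48 3 49))))))))) (.rp 12 (.thr 43 40 (.thr 23 31 (.thr 59 11 (.thr 63 3 (.dbl 55 4 51))))) (.rp 4 (.thr 43 40 (.thr 23 31 (.thr 50 2 (.thr 11 59 (.thr 3 63 (.thr 15 7 (.thr 51 39 (.dbl 48 33 49)))))))) (.rp 3 (.thr 43 40 (.thr 23 31 (.thr 59 11 (.thr 55 4 (.thr 51 63 (.dbl 39 7 15)))))) .nd)))))))))))))) (.rp 18 (.thr 26 31 (.thr 14 50 (.thr 10 58 (.thr 6 2 (.thr 11 56 (.thr 9 8 (.thr 5 13 (.dbl 4 7 55)))))))) (.rp 17 (.thr 26 31 (.thr 14 50 (.thr 10 58 (.thr 6 2 (.thr 11 56 (.thr 9 8 (.thr 5 13 (.dbl 4 7 55)))))))) (.rp 14 (.thr 17 18 (.thr 33 49 (.thr 37 45 (.thr 39 36 (.thr 55 4 (.thr 23 7 (.dbl 31 26 27))))))) (.rp 2 (.thr 17 18 (.thr 33 49 (.thr 37 45 (.thr 39 36 (.thr 55 4 (.thr 23 7 (.dbl 31 26 27)))))))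 .nd)))))))))))) .nd))))))))))) (.rp 19 (.str 28 (.nv (.thr 40 43 (.thr 44 35 (.thr 32 36 (.thr 46 34 (.dbl 47 37 45))))) (.nv (.thr 43 40 (.thr 35 44 (.thr 47 39 (.thr 34 46 (.dbl 32 33 37))))) (.rp 47 (.thr 44 35 (.thr 46 34 (.thr 61 1 (.thr 12 60 (.thr 29 63 (.thr 31 30 (.thr 26 16 (.thr 14 50 (.dbl 13 15 45))))))))) (.rp 46 (.thr 40 43 (.thr 44 35 (.thr 36 32 (.thr 12 60 (.thr 4 55 (.thr 20 52 (.dbl 24 16 48))))))) (.rp 44 (.str 14 (.nv (.thr 26 50 (.thr 16 31 (.thr 24 20 (.thr 40 43 (.dbl 56 8 11))))) (.nv (.thr 46 34 (.thr 30 62 (.thr 31 29 (.dbl 26 16 50)))) (.rp 50 (.thr 46 34 (.thr 61 1 (.thr 30 62 (.thr 29 31 (.thr 12 63 (.dbl 13 15 45)))))) (.rp 31 (.thr 43 40 (.thr 46 34 (.thr 61 1 (.thr 30 62 (.thr 55 4 (.thr 26 50 (.thr 58 10 (.thr 56 11 (.thr 57 59 (.thr 53 49 (.thr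 54 52 (.thr 48 63 (.dbl 37 5 15))))))))))))) (.rp 26 (.thr 46 34 (.thr 61 1 (.thr 30 62 (.thr 29 31 (.thr 12 63 (.dbl 13 15 45)))))) (.rp 16 (.thr 46 34 (.thr 61 1 (.thr 30 62 (.thr 29 31 (.thr 12 63 (.dbl 13 15 45)))))) .nd))))))) (.rp 43 (.thr 44 35 (.thr 46 34 (.thr 61 1 (.thr 12 60 (.thr 29 63 (.dbl 45 13 47)))))) (.rp 40 (.thr 44 35 (.thr 46 34 (.thr 45 47 (.thr 61 1 (.thr 29 13 (.dbl 12 60 63)))))) (.rp 39 (.thr 40 43 (.thr 46 34 (.thr 44 35 (.thr 47 45 (.dbl 32 36 37))))) (.rp 37 (.thr 44 35 (.thr 46 34 (.thr 45 47 (.thr 61 1 (.thr 12 60 (.dbl 29 13 63)))))) (.rp 36 (.thr 43 40 (.thr 34 46 (.thr 35 44 (.thr 32 33 (.dbl 47 37 39))))) (.rp 35 (.str 14 (.nv (.thr 26 50 (.thr 16 31 (.thr 24 20 (.thr 40 43 (.dbl 56 8 11))))) (.nv (.thr 46 34 (.thr 30 62 (.thr 31 29 (.dbl 26 16 50))))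 (.rp 51 (.str 3 (.nv (.thr 4 55 (.thr 26 50 (.thr 11 56 (.thr 7 15 (.thr 6 5 (.dbl 10 2 58)))))) (.nv (.thr 26 50 (.thr 31 16 (.thr 30 29 (.dbl 46 34 62)))) (.rp 50 (.thr 43 40 (.thr 63 23 (.thr 61 1 (.thr 60 62 (.thr 12 44 (.dbl 46 29 34)))))) (.rp 49 (.thr 43 40 (.thr 63 23 (.thr 61 1 (.thr 60 62 (.thr 12 44 (.dbl 46 29 34)))))) (.rp 48 (.thr 43 40 (.thr 63 23 (.thr 61 1 (.thr 60 62 (.thr 12 44 (.dbl 46 29 34)))))) (.rp 34 (.str 17 (.nv (.thr 40 43 (.thr 26 50 (.thr 16 31 (.thr 24 20 (.dbl 56 8 11))))) (.nv (.thr 1 61 (.thr 33 49 (.thr 37 45 (.thr 26 50 (.dbl 48 15 18))))) (.rp 50 (.thr 43 40 (.thr 23 63 (.thr 55 4 (.thr 39 7 (.thr 37 36 (.thr 33 45 (.dbl 1 49 61))))))) (.rp 49 (.thr 43 40 (.thr 23 63 (.thr 55 4 (.thr 7 39 (.thr 11 15 (.thr 27 59 (.dbl 26 50 56))))))) (.rp 48 (.thr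 43 40 (.thr 23 63 (.thr 55 4 (.thr 7 39 (.thr 11 15 (.thr 27 59 (.dbl 26 50 56))))))) (.rp 33 (.str 32 (.nv (.thr 26 50 (.thr 10 58 (.thr 11 56 (.thr 9 8 (.dbl 6 2 12))))) (.nv (.thr 40 43 (.thr 36 44 (.dbl 37 39 47))) (.rp 40 (.thr 37 47 (.thr 26 50 (.thr 11 56 (.dbl 15 7 48)))) .nd)))) (.rp 32 (.str 33 (.nv (.thr 48 18 (.thr 37 45 (.dbl 26 15 50))) (.nv (.dbl 1 49 61) (.rp 48 (.str 16 (.nv (.dbl 1 49 61) (.nv (.dbl 26 31 50) (.rp 50 (.thr 49 1 (.thr 37 45 (.thr 36 39 (.thr 20 24 (.dbl 4 52 55))))) (.rp 49 (.thr 50 26 (.thr 37 45 (.thr 36 39 (.thr 4 55 (.dbl 20 24 52))))) .nd))))) .nd)))) (.rp 26 (.thr 43 40 (.thr 23 63 (.thr 55 4 (.thr 39 7 (.thr 37 36 (.thr 33 45 (.dbl 1 49 61))))))) (.rp 18 (.thr 43 40 (.thr 23 63 (.thr 55 4 (.thr 7 39 (.thr 11 15 (.thr 27 59 (.dbl 26 50 56)))))))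 (.rp 2 (.thr 43 40 (.thr 23 63 (.thr 55 4 (.thr 7 39 (.thr 11 15 (.thr 27 59 (.dbl 26 50 56))))))) .nd))))))))))) (.rp 26 (.thr 43 40 (.thr 63 23 (.thr 61 1 (.thr 60 62 (.thr 12 44 (.dbl 46 29 34)))))) (.rp 17 (.thr 34 46 (.thr 40 43 (.thr 26 50 (.thr 16 31 (.thr 24 20 (.dbl 56 8 11)))))) .nd))))))))) (.rp 50 (.thr 46 34 (.thr 61 1 (.thr 30 62 (.thr 29 31 (.thr 12 63 (.dbl 13 15 45)))))) (.rp 31 (.thr 40 43 (.thr 46 34 (.thr 61 1 (.thr 62 30 (.thr 60 63 (.thr 44 12 (.thr 47 45 (.dbl 32 36 37)))))))) (.rp 26 (.thr 46 34 (.thr 61 1 (.thr 30 62 (.thr 29 31 (.thr 12 63 (.dbl 13 15 45)))))) (.rp 16 (.thr 46 34 (.thr 61 1 (.thr 30 62 (.thr 29 31 (.thr 12 63 (.dbl 13 15 45)))))) (.rp 3 (.str 51 (.nv (.thr 46 34 (.thr 30 62 (.thr 29 31 (.thr 55 4 (.dbl 63 12 59))))) (.nv (.thr 1 61 (.thr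 26 50 (.thr 11 56 (.thr 43 40 (.thr 55 4 (.dbl 59 27 63)))))) (.nv (.thr 46 34 (.thr 30 62 (.thr 31 29 (.dbl 26 16 50)))) (.rp 1 (.str 2 (.nv (.thr 10 6 (.dbl 26 50 58)) (.nv (.thr 34 46 (.dbl 50 18 26)) (.rp 50 (.thr 46 34 (.thr 10 6 (.thr 26 58 (.thr 31 16 (.dbl 30 29 62))))) (.rp 26 (.thr 46 34 (.thr 30 62 (.thr 55 4 (.thr 63 59 (.dbl 29 12 31))))) .nd))))) .nd))))) .nd))))))))) (.rp 34 (.thr 40 43 (.thr 44 35 (.thr 32 36 (.thr 47 37 (.thr 45 46 (.thr 61 1 (.thr 60 12 (.thr 15 30 (.dbl 63 31 62))))))))) (.rp 32 (.thr 4 55 (.thr 40 43 (.thr 35 44 (.str 16 (.nv (.thr 24 20 (.thr 56 8 (.dbl 26 11 31))) (.rp 56 (.thr 20 24 (.thr 36 52 (.thr 37 39 (.thr 45 33 (.thr 61 1 (.thr 29 13 (.dbl 31 26 30))))))) (.rp 31 (.thr 46 34 (.thr 24 20 (.thr 56 8 (.thr 26 11 (.thr 14 50 (.thr 62 30 (.thr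 61 1 (.thr 60 63 (.thr 48 52 (.thr 12 36 (.dbl 15 13 37))))))))))) (.rp 26 (.thr 24 20 (.str 30 (.nv (.thr 29 31 (.thr 61 1 (.thr 45 13 (.thr 60 15 (.thr 63 62 (.dbl 46 12 34)))))) (.nv (.thr 29 31 (.thr 46 34 (.thr 12 63 (.thr 36 48 (.thr 37 39 (.thr 45 33 (.dbl 61 1 13))))))) (.nv (.thr 46 34 (.thr 61 1 (.thr 62 14 (.thr 63 60 (.dbl 29 12 31))))) (.rp 63 (.thr 29 31 (.thr 56 8 (.thr 61 1 (.thr 45 13 (.thr 37 33 (.thr 36 39 (.thr 48 12 (.dbl 60 15 52)))))))) (.rp 61 (.thr 46 34 (.thr 29 31 (.thr 56 8 (.thr 12 63 (.thr 48 36 (.thr 60 52 (.thr 15 45 (.dbl 14 13 62)))))))) (.rp 46 (.thr 29 31 (.thr 56 8 (.thr 61 1 (.thr 45 13 (.thr 37 33 (.thr 36 39 (.thr 60 15 (.dbl 48 12 52)))))))) (.rp 34 (.thr 29 31 (.thr 56 8 (.thr 61 1 (.thr 45 13 (.thr 37 33 (.thr 36 39 (.thr 60 15 (.dbl 48 12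 52)))))))) (.rp 31 (.thr 46 34 (.thr 56 8 (.thr 62 14 (.thr 61 1 (.thr 60 63 (.thr 48 52 (.thr 36 12 (.thr 37 39 (.dbl 45 15 33))))))))) (.rp 29 (.thr 46 34 (.thr 56 8 (.thr 62 14 (.thr 61 1 (.thr 60 63 (.thr 45 15 (.thr 37 33 (.thr 36 39 (.dbl 48 12 52))))))))) (.rp 12 (.thr 46 34 (.thr 29 31 (.thr 62 14 (.thr 61 1 (.thr 60 63 (.dbl 45 13 15)))))) (.rp 3 (.thr 46 34 (.thr 29 31 (.thr 62 14 (.thr 63 12 (.dbl 61 1 60))))) (.rp 1 (.thr 46 34 (.thr 29 31 (.thr 56 8 (.thr 14 62 (.thr 12 63 (.thr 15 13 (.thr 60 45 (.dbl 48 36 52)))))))) .nd)))))))))))))) (.rp 24 (.thr 26 31 (.thr 11 56 (.thr 10 58 (.thr 9 8 (.thr 14 50 (.thr 6 2 (.thr 5 7 (.dbl 1 13 61)))))))) (.rp 20 (.thr 26 31 (.thr 11 56 (.thr 10 58 (.thr 9 8 (.thr 14 50 (.thr 6 2 (.thr 5 7 (.dbl 1 13 61)))))))) (.rp 11 (.thr 20 24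 (.thr 36 52 (.thr 37 39 (.thr 45 33 (.thr 61 1 (.thr 29 13 (.dbl 31 26 30))))))) (.rp 8 (.thr 20 24 (.thr 36 52 (.thr 37 39 (.thr 45 33 (.thr 61 1 (.thr 29 13 (.dbl 31 26 30))))))) .nd)))))))))))) .nd)))))))))))))) .nd))))))))))))))))

theorem w400 : WinAt (6597071863808, 37748737) :=
  chF (K := []) kn c400 6597071863808 37748737 25
    [306708480] (by decide +kernel) (by decide +kernel)

/-- A certificate. -/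
noncomputable def c401 : Ct := (.str 26 (.nv (.thr 40 43 (.thr 56 11 (.thr 8 24 (.thr 58 10 (.dbl 59 25 57))))) (.nv (.thr 43 40 (.thr 11 56 (.thr 59 27 (.thr 10 58 (.dbl 8 9 25))))) (.rp 59 (.str 38 (.nv (.thr 1 61 (.thr 35 44 (.thr 34 46 (.thr 33 32 (.thr 17 49 (.thr 16 31 (.thr 19 18 (.thr 51 3 (.dbl 25 12 29))))))))) (.rp 61 (.thr 43 40 (.thr 10 58 (.thr 56 11 (.thr 4 55 (.thr 50 14 (.thr 34 46 (.thr 18 2 (.thr 35 44 (.thr 16 31 (.thr 19 17 (.thr 3 51 (.thr 63 23 (.dbl 33 32 48))))))))))))) (.rp 57 (.thr 43 40 (.thr 10 58 (.thr 56 11 (.thr 4 55 (.thr 50 14 (.thr 34 46 (.thr 18 2 (.thr 35 44 (.thr 32 33 (.thr 16 31 (.thr 19 17 (.thr 51 3 (.thr 1 61 (.thr 25 12 (.thr 27 24 (.dbl 39 15 47)))))))))))))))) (.rp 53 (.thr 43 40 (.thr 10 58 (.thr 56 11 (.thr 4 55 (.thr 50 14 (.thr 34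 46 (.thr 18 2 (.thr 35 44 (.thr 32 33 (.thr 16 31 (.thr 19 17 (.thr 51 3 (.thr 1 61 (.thr 25 12 (.thr 27 24 (.dbl 39 15 47)))))))))))))))) (.rp 52 (.str 7 (.nv (.thr 43 40 (.thr 35 44 (.thr 39 47 (.dbl 55 4 23)))) (.nv (.thr 4 55 (.thr 14 50 (.thr 6 5 (.dbl 10 2 58)))) (.rp 55 (.thr 43 40 (.thr 35 44 (.thr 47 39 (.thr 31 16 (.thr 11 56 (.dbl 15 3 63)))))) (.rp 4 (.thr 43 40 (.thr 35 44 (.thr 39 47 (.thr 11 56 (.thr 3 15 (.dbl 23 55 63)))))) .nd))))) (.rp 51 (.thr 43 40 (.thr 10 58 (.thr 56 11 (.thr 55 4 (.thr 50 14 (.thr 34 46 (.thr 18 2 (.thr 35 44 (.thr 47 39 (.thr 16 31 (.thr 17 19 (.thr 25 29 (.thr 27 24 (.thr 9 57 (.thr 1 61 (.dbl 33 32 49)))))))))))))))) (.rp 49 (.thr 43 40 (.thr 10 58 (.thr 56 11 (.thr 4 55 (.thr 50 14 (.thr 34 46 (.thr 18 2 (.thr 35 44 (.thr 32 33 (.thr 16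 31 (.thr 19 17 (.thr 1 61 (.thr 51 3 (.thr 25 12 (.thr 27 24 (.dbl 39 15 47)))))))))))))))) (.rp 48 (.thr 43 40 (.thr 10 58 (.thr 56 11 (.thr 4 55 (.thr 50 14 (.thr 34 46 (.thr 18 2 (.thr 35 44 (.thr 47 39 (.thr 16 31 (.thr 17 19 (.thr 25 29 (.thr 27 24 (.thr 9 57 (.thr 1 61 (.dbl 33 32 49)))))))))))))))) (.rp 47 (.thr 43 40 (.thr 10 58 (.thr 56 11 (.thr 4 55 (.thr 50 14 (.thr 34 46 (.thr 18 2 (.thr 44 35 (.thr 16 31 (.thr 17 19 (.thr 25 29 (.thr 27 24 (.thr 9 57 (.thr 1 61 (.thr 49 33 (.dbl 51 12 48)))))))))))))))) (.rp 46 (.thr 43 40 (.thr 10 58 (.thr 56 11 (.thr 4 55 (.thr 14 50 (.thr 6 2 (.thr 7 5 (.thr 35 44 (.thr 47 39 (.thr 31 16 (.thr 63 15 (.thr 3 23 (.thr 51 19 (.dbl 12 9 25)))))))))))))) (.rp 45 (.thr 43 40 (.thr 10 58 (.thr 56 11 (.thr 4 55 (.thr 50 14 (.thr 34 46 (.thr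 18 2 (.thr 35 44 (.thr 47 39 (.thr 16 31 (.thr 17 19 (.thr 25 29 (.thr 27 24 (.thr 9 57 (.thr 1 61 (.thr 13 5 (.dbl 33 32 49))))))))))))))))) (.rp 44 (.thr 43 40 (.thr 10 58 (.thr 56 11 (.thr 4 55 (.thr 50 14 (.thr 34 46 (.thr 18 2 (.thr 16 31 (.thr 17 19 (.thr 25 29 (.thr 27 24 (.thr 9 57 (.thr 1 61 (.thr 49 33 (.dbl 51 12 48))))))))))))))) (.rp 40 (.thr 10 58 (.thr 56 11 (.thr 4 55 (.thr 50 14 (.thr 34 46 (.thr 18 2 (.thr 35 44 (.thr 16 31 (.thr 17 19 (.thr 25 29 (.thr 27 24 (.thr 9 57 (.thr 1 61 (.dbl 33 32 49)))))))))))))) (.rp 36 (.thr 43 40 (.thr 10 58 (.thr 56 11 (.thr 4 55 (.thr 50 14 (.thr 34 46 (.thr 18 2 (.thr 35 44 (.thr 32 33 (.thr 16 31 (.thr 19 17 (.thr 51 3 (.thr 1 61 (.thr 48 49 (.thr 25 12 (.thr 27 24 (.dbl 39 15 47))))))))))))))))) (.rp 35 (.thr 43 40 (.thr 10 58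 (.thr 56 11 (.thr 4 55 (.thr 50 14 (.thr 34 46 (.thr 18 2 (.thr 16 31 (.thr 17 19 (.thr 25 29 (.thr 27 24 (.thr 9 57 (.thr 1 61 (.thr 49 33 (.dbl 51 12 48))))))))))))))) (.rp 34 (.thr 43 40 (.thr 10 58 (.thr 56 11 (.thr 55 4 (.thr 50 14 (.thr 35 44 (.thr 47 39 (.thr 31 16 (.thr 63 15 (.thr 3 23 (.thr 51 19 (.thr 48 49 (.thr 61 1 (.dbl 60 52 62)))))))))))))) (.rp 33 (.thr 43 40 (.thr 10 58 (.thr 56 11 (.thr 4 55 (.thr 50 14 (.thr 34 46 (.thr 18 2 (.thr 35 44 (.thr 16 31 (.thr 19 17 (.thr 51 3 (.thr 1 61 (.thr 48 49 (.thr 25 12 (.thr 27 24 (.dbl 39 15 47)))))))))))))))) (.rp 32 (.thr 43 40 (.thr 10 58 (.thr 56 11 (.thr 4 55 (.thr 50 14 (.thr 34 46 (.thr 18 2 (.thr 44 35 (.thr 16 31 (.thr 17 19 (.thr 25 29 (.thr 27 24 (.thr 9 57 (.thr 1 61 (.thr 49 33 (.dbl 51 12 48)))))))))))))))) (.rp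 31 (.thr 43 40 (.thr 10 58 (.thr 56 11 (.thr 4 55 (.thr 14 50 (.thr 2 6 (.thr 46 34 (.thr 44 35 (.thr 45 47 (.thr 61 1 (.thr 13 29 (.thr 15 12 (.dbl 30 60 62))))))))))))) (.rp 29 (.thr 43 40 (.thr 10 58 (.thr 56 11 (.thr 4 55 (.thr 50 14 (.thr 34 46 (.thr 18 2 (.thr 35 44 (.thr 47 39 (.thr 16 31 (.thr 17 19 (.thr 1 61 (.dbl 33 32 49))))))))))))) (.rp 25 (.thr 43 40 (.thr 10 58 (.thr 56 11 (.thr 4 55 (.thr 50 14 (.thr 34 46 (.thr 18 2 (.thr 35 44 (.thr 16 31 (.thr 19 17 (.thr 3 51 (.thr 63 23 (.dbl 33 32 48))))))))))))) (.rp 19 (.thr 43 40 (.thr 10 58 (.thr 56 11 (.thr 4 55 (.thr 50 14 (.thr 46 34 (.thr 44 35 (.thr 47 45 (.thr 31 16 (.thr 63 15 (.thr 3 23 (.thr 12 29 (.thr 9 6 (.dbl 25 51 57)))))))))))))) (.rp 18 (.thr 43 40 (.thr 10 58 (.thr 56 11 (.thr 4 55 (.thr 50 14 (.thr 46 34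 (.thr 35 44 (.thr 47 39 (.thr 31 16 (.thr 63 15 (.thr 12 29 (.thr 51 25 (.dbl 3 19 23))))))))))))) (.rp 17 (.thr 43 40 (.thr 10 58 (.thr 56 11 (.thr 4 55 (.thr 14 50 (.thr 6 2 (.thr 7 5 (.thr 34 46 (.thr 35 44 (.thr 32 33 (.thr 47 39 (.thr 31 16 (.thr 63 15 (.thr 3 23 (.thr 12 9 (.dbl 51 19 25)))))))))))))))) (.rp 16 (.thr 43 40 (.thr 10 58 (.thr 56 11 (.thr 4 55 (.thr 14 50 (.thr 2 6 (.thr 46 34 (.thr 44 35 (.thr 45 47 (.thr 61 1 (.thr 13 29 (.thr 15 12 (.dbl 30 60 62))))))))))))) (.rp 13 (.thr 43 40 (.thr 10 58 (.thr 56 11 (.thr 4 55 (.thr 50 14 (.thr 34 46 (.thr 18 2 (.thr 35 44 (.thr 47 39 (.thr 16 31 (.thr 17 19 (.thr 1 61 (.dbl 33 32 49))))))))))))) (.rp 12 (.thr 43 40 (.thr 10 58 (.thr 56 11 (.thr 4 55 (.thr 50 14 (.thr 34 46 (.thr 18 2 (.thr 35 44 (.thr 47 39 (.thr 16 31 (.thr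 17 19 (.thr 1 61 (.dbl 33 32 49))))))))))))) (.rp 7 (.str 52 (.nv (.thr 58 10 (.thr 50 14 (.thr 54 62 (.dbl 55 4 53)))) (.nv (.thr 4 55 (.thr 44 35 (.thr 36 20 (.dbl 40 32 43)))) (.rp 55 (.thr 58 10 (.thr 50 14 (.thr 62 54 (.thr 61 1 (.thr 56 11 (.dbl 60 48 63)))))) (.rp 4 (.thr 58 10 (.thr 50 14 (.thr 54 62 (.thr 56 11 (.thr 48 60 (.dbl 53 55 63)))))) .nd))))) (.rp 3 (.thr 43 40 (.thr 10 58 (.thr 56 11 (.thr 4 55 (.thr 50 14 (.thr 34 46 (.thr 18 2 (.thr 1 61 (.thr 35 44 (.thr 47 39 (.thr 16 31 (.thr 17 19 (.dbl 33 32 49))))))))))))) (.rp 1 (.thr 43 40 (.thr 10 58 (.thr 56 11 (.thr 4 55 (.thr 50 14 (.thr 46 34 (.thr 35 44 (.thr 47 39 (.thr 31 16 (.thr 63 15 (.thr 12 29 (.thr 51 25 (.dbl 3 19 23))))))))))))) .nd))))))))))))))))))))))))))))))) (.rp 58 (.thr 16 31 (.thr 1 61 (.thr 40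 43 (.str 38 (.nv (.thr 35 44 (.thr 34 46 (.thr 33 32 (.thr 17 49 (.thr 18 19 (.dbl 50 2 14)))))) (.nv (.thr 44 35 (.thr 56 11 (.thr 24 8 (.thr 28 20 (.thr 12 60 (.dbl 25 27 51)))))) (.nv (.thr 50 14 (.thr 34 46 (.thr 18 2 (.thr 35 44 (.thr 33 32 (.dbl 17 19 49)))))) (.rp 52 (.str 7 (.nv (.thr 35 44 (.thr 34 46 (.thr 33 32 (.thr 50 14 (.thr 18 2 (.dbl 17 19 49)))))) (.nv (.thr 4 55 (.thr 5 6 (.thr 56 11 (.thr 8 24 (.thr 9 13 (.dbl 25 57 59)))))) (.rp 45 (.thr 11 56 (.thr 4 55 (.thr 5 6 (.thr 15 3 (.thr 14 50 (.dbl 13 9 12)))))) (.rp 6 (.thr 56 11 (.thr 24 8 (.thr 44 35 (.thr 36 32 (.thr 12 48 (.dbl 25 27 51)))))) .nd))))) (.rp 47 (.thr 34 46 (.thr 50 14 (.thr 18 2 (.thr 17 19 (.thr 33 49 (.dbl 35 32 44)))))) (.rp 44 (.thr 56 11 (.thr 24 8 (.thr 34 46 (.thr 50 14 (.thr 18 2 (.thr 17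 19 (.dbl 25 27 29))))))) (.rp 35 (.thr 56 11 (.thr 24 8 (.thr 34 46 (.thr 50 14 (.thr 18 2 (.thr 17 19 (.dbl 25 27 29))))))) (.rp 7 (.str 52 (.nv (.thr 56 11 (.thr 24 8 (.thr 20 28 (.dbl 4 36 55)))) (.nv (.thr 4 55 (.thr 36 20 (.dbl 44 32 35))) (.rp 55 (.thr 56 11 (.thr 24 8 (.thr 48 60 (.thr 20 28 (.dbl 36 4 12))))) (.rp 36 (.thr 56 11 (.thr 24 8 (.thr 60 48 (.thr 28 20 (.dbl 44 12 35))))) (.rp 20 (.thr 56 11 (.thr 24 8 (.thr 48 60 (.thr 44 35 (.dbl 36 12 32))))) (.rp 4 (.thr 56 11 (.thr 48 60 (.thr 24 8 (.thr 12 36 (.dbl 25 27 51))))) .nd))))))) .nd)))))))))))) (.rp 56 (.thr 40 43 (.thr 16 31 (.str 38 (.nv (.thr 1 61 (.thr 34 46 (.thr 50 14 (.thr 18 2 (.thr 17 19 (.thr 33 49 (.dbl 35 32 44))))))) (.nv (.thr 1 61 (.thr 34 46 (.thr 35 44 (.thr 33 32 (.thr 17 49 (.thr 18 19 (.dbl 50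 2 14))))))) (.nv (.thr 1 61 (.thr 34 46 (.thr 35 44 (.thr 33 32 (.thr 50 14 (.thr 18 2 (.dbl 17 19 49))))))) (.rp 61 (.thr 34 46 (.thr 50 14 (.thr 18 2 (.thr 19 17 (.thr 35 44 (.thr 33 32 (.dbl 3 48 51))))))) (.rp 52 (.str 7 (.nv (.thr 14 50 (.thr 4 55 (.thr 6 5 (.dbl 10 2 58)))) (.rp 60 (.str 48 (.nv (.thr 1 61 (.thr 34 46 (.thr 35 44 (.thr 33 32 (.thr 18 3 (.dbl 17 19 49)))))) (.nv (.thr 14 50 (.thr 4 55 (.thr 6 5 (.dbl 10 2 58)))) .nd))) (.rp 58 (.thr 50 14 (.thr 34 46 (.thr 18 2 (.thr 19 17 (.thr 35 44 (.thr 33 32 (.dbl 3 48 51))))))) (.rp 55 (.thr 50 14 (.thr 34 46 (.thr 18 2 (.thr 19 17 (.thr 35 44 (.thr 33 32 (.dbl 3 48 51))))))) (.rp 54 (.thr 50 14 (.thr 34 46 (.thr 18 2 (.thr 19 17 (.thr 35 44 (.thr 33 32 (.dbl 3 48 51))))))) (.rp 53 (.thr 10 58 (.thr 14 50 (.thr 6 2 (.dbl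 4 5 55)))) (.rp 50 (.thr 10 58 (.thr 4 55 (.thr 5 6 (.thr 1 61 (.thr 9 13 (.thr 8 11 (.dbl 25 57 59))))))) (.rp 48 (.str 60 (.nv (.thr 46 34 (.thr 14 50 (.thr 61 1 (.dbl 62 30 63)))) (.nv (.thr 1 61 (.thr 44 35 (.thr 12 28 (.thr 46 34 (.thr 29 63 (.dbl 25 17 51)))))) (.nv (.thr 4 55 (.thr 14 50 (.thr 6 5 (.dbl 10 2 58)))) (.rp 51 (.thr 10 58 (.thr 4 55 (.thr 6 5 (.dbl 14 2 50)))) .nd))))) (.rp 14 (.thr 10 58 (.thr 4 55 (.thr 5 6 (.thr 1 61 (.thr 9 13 (.thr 8 11 (.dbl 25 57 59))))))) (.rp 10 (.thr 50 14 (.thr 34 46 (.thr 35 44 (.thr 33 32 (.thr 1 61 (.thr 17 49 (.dbl 18 2 19))))))) (.rp 6 (.thr 50 14 (.thr 34 46 (.thr 35 44 (.thr 33 32 (.thr 1 61 (.thr 17 49 (.dbl 18 2 19))))))) (.rp 5 (.thr 50 14 (.thr 34 46 (.thr 18 2 (.thr 19 17 (.thr 35 44 (.thr 33 32 (.dbl 3 48 51))))))) (.rp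 4 (.thr 50 14 (.thr 34 46 (.thr 18 2 (.thr 19 17 (.thr 35 44 (.thr 33 32 (.dbl 3 48 51))))))) (.rp 2 (.thr 10 58 (.thr 4 55 (.thr 5 6 (.thr 1 61 (.thr 9 13 (.thr 8 11 (.dbl 25 57 59))))))) .nd))))))))))))))) (.rp 50 (.thr 34 46 (.thr 1 61 (.thr 35 44 (.thr 33 32 (.thr 17 49 (.thr 25 29 (.thr 19 18 (.dbl 51 3 12)))))))) (.rp 49 (.thr 34 46 (.thr 50 14 (.thr 18 2 (.thr 19 17 (.thr 35 44 (.thr 33 32 (.dbl 3 48 51))))))) (.rp 46 (.thr 58 10 (.thr 50 14 (.thr 62 54 (.thr 61 1 (.thr 55 4 (.thr 63 60 (.thr 48 53 (.dbl 51 49 59)))))))) (.rp 44 (.thr 58 10 (.thr 50 14 (.thr 62 54 (.thr 61 1 (.thr 55 4 (.thr 63 60 (.thr 48 53 (.dbl 51 49 59)))))))) (.rp 35 (.thr 58 10 (.thr 50 14 (.thr 62 54 (.thr 61 1 (.thr 55 4 (.thr 63 60 (.thr 48 53 (.dbl 51 49 59)))))))) (.rp 34 (.thr 58 10 (.thr 50 14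 (.thr 62 54 (.thr 61 1 (.thr 55 4 (.thr 63 60 (.thr 48 53 (.dbl 51 49 59)))))))) (.rp 33 (.thr 58 10 (.thr 50 14 (.thr 62 54 (.thr 61 1 (.thr 55 4 (.thr 63 60 (.thr 48 53 (.dbl 51 49 59)))))))) (.rp 32 (.thr 58 10 (.thr 50 14 (.thr 62 54 (.thr 61 1 (.thr 55 4 (.thr 63 60 (.thr 48 53 (.dbl 51 49 59)))))))) (.rp 19 (.thr 58 10 (.thr 50 14 (.thr 62 54 (.thr 61 1 (.thr 55 4 (.thr 63 60 (.thr 48 53 (.dbl 51 49 59)))))))) (.rp 18 (.thr 58 10 (.thr 50 14 (.thr 62 54 (.thr 61 1 (.thr 55 4 (.thr 63 60 (.thr 48 53 (.dbl 51 49 59)))))))) (.rp 17 (.thr 58 10 (.thr 50 14 (.thr 62 54 (.thr 61 1 (.thr 55 4 (.thr 63 60 (.thr 48 53 (.dbl 51 49 59)))))))) (.rp 14 (.thr 34 46 (.thr 1 61 (.thr 35 44 (.thr 33 32 (.thr 17 49 (.thr 25 29 (.thr 19 18 (.dbl 51 3 12)))))))) (.rp 7 (.str 52 (.nv (.thr 50 14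 (.thr 55 4 (.thr 54 53 (.dbl 58 10 62)))) (.nv (.thr 4 55 (.thr 36 20 (.dbl 44 32 35))) (.rp 55 (.thr 44 35 (.thr 36 32 (.thr 20 4 (.thr 24 28 (.thr 12 48 (.dbl 25 27 51)))))) (.rp 4 (.thr 58 10 (.thr 50 14 (.thr 54 62 (.thr 61 1 (.thr 53 55 (.thr 49 57 (.dbl 48 51 63))))))) .nd))))) (.rp 2 (.thr 34 46 (.thr 1 61 (.thr 35 44 (.thr 33 32 (.thr 17 49 (.thr 25 29 (.thr 19 18 (.dbl 51 3 12)))))))) (.rp 1 (.thr 34 46 (.thr 50 14 (.thr 35 44 (.thr 33 32 (.thr 18 2 (.thr 3 48 (.dbl 19 17 51))))))) .nd))))))))))))))))))))))) (.rp 52 (.str 7 (.nv (.thr 10 58 (.thr 11 56 (.thr 8 9 (.thr 43 40 (.dbl 59 25 27))))) (.nv (.thr 11 56 (.thr 3 15 (.thr 31 16 (.thr 43 40 (.thr 23 63 (.dbl 27 19 59)))))) (.nv (.thr 58 10 (.thr 56 11 (.thr 59 57 (.thr 40 43 (.dbl 8 24 25))))) (.rp 59 (.thr 11 56 (.thr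 43 40 (.thr 31 16 (.thr 3 15 (.thr 23 63 (.thr 55 39 (.thr 38 4 (.thr 35 44 (.dbl 19 27 51))))))))) (.rp 56 (.str 35 (.nv (.thr 10 58 (.thr 38 44 (.thr 4 55 (.thr 6 5 (.dbl 14 2 50))))) (.nv (.thr 43 40 (.thr 39 47 (.thr 55 23 (.dbl 38 4 44)))) (.rp 60 (.str 48 (.nv (.thr 31 16 (.thr 58 10 (.thr 63 53 (.thr 15 47 (.thr 3 11 (.dbl 43 23 40)))))) (.nv (.thr 1 61 (.thr 38 44 (.thr 50 14 (.thr 49 51 (.thr 33 17 (.dbl 34 32 46)))))) (.nv (.thr 38 44 (.thr 55 4 (.thr 39 23 (.dbl 43 40 47)))) (.rp 40 (.str 20 (.nv (.thr 10 58 (.thr 38 44 (.thr 4 55 (.thr 6 5 (.dbl 14 2 50))))) (.nv (.thr 16 31 (.thr 24 28 (.thr 25 27 (.thr 38 44 (.dbl 12 36 51))))) (.rp 44 (.thr 58 10 (.thr 53 63 (.thr 61 1 (.thr 57 49 (.thr 25 9 (.thr 24 27 (.dbl 16 28 31))))))) (.rp 38 (.thr 58 10 (.thr 53 63 (.thr 61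 1 (.thr 57 49 (.thr 25 9 (.thr 24 27 (.dbl 16 28 31))))))) (.rp 36 (.thr 58 10 (.thr 53 63 (.thr 61 1 (.thr 49 57 (.thr 50 51 (.thr 54 62 (.dbl 38 14 44))))))) (.rp 32 (.thr 58 10 (.thr 53 63 (.thr 61 1 (.thr 49 57 (.thr 50 51 (.thr 54 62 (.dbl 38 14 44))))))) (.rp 28 (.thr 58 10 (.thr 53 63 (.thr 61 1 (.thr 49 57 (.thr 50 51 (.thr 54 62 (.dbl 38 14 44))))))) (.rp 24 (.str 8 (.nv (.thr 38 44 (.thr 34 46 (.thr 50 14 (.thr 18 2 (.dbl 33 3 32))))) (.nv (.thr 10 58 (.thr 9 11 (.dbl 25 57 59))) (.rp 10 (.thr 25 59 (.thr 38 44 (.thr 50 14 (.dbl 51 12 49)))) .nd)))) (.rp 12 (.thr 58 10 (.thr 53 63 (.thr 61 1 (.thr 49 57 (.thr 50 51 (.thr 54 62 (.dbl 38 14 44))))))) (.rp 8 (.str 24 (.nv (.thr 12 36 (.thr 25 27 (.dbl 38 44 51))) (.nv (.dbl 16 28 31) (.rp 12 (.str 4 (.nv (.dbl 16 28 31) (.nv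 (.dbl 38 44 55) (.rp 44 (.thr 28 16 (.thr 25 27 (.thr 9 57 (.thr 5 6 (.dbl 1 13 61))))) (.rp 28 (.thr 44 38 (.thr 25 27 (.thr 9 57 (.thr 1 61 (.dbl 5 6 13))))) .nd))))) .nd)))) .nd))))))))))) (.rp 20 (.thr 40 43 (.thr 10 58 (.thr 38 44 (.thr 4 55 (.thr 6 5 (.dbl 14 2 50)))))) .nd)))))) (.rp 55 (.thr 10 58 (.thr 43 40 (.thr 31 16 (.thr 47 39 (.thr 15 63 (.thr 11 3 (.thr 59 27 (.dbl 8 9 25)))))))) (.rp 48 (.str 60 (.nv (.thr 43 40 (.thr 39 47 (.thr 23 55 (.thr 61 1 (.dbl 63 3 62))))) (.nv (.thr 38 44 (.thr 14 50 (.thr 46 34 (.thr 61 1 (.dbl 62 30 63))))) (.nv (.thr 43 40 (.thr 39 47 (.thr 55 23 (.dbl 38 4 44)))) (.rp 32 (.thr 16 31 (.thr 43 40 (.thr 39 47 (.thr 55 23 (.dbl 38 4 44))))) (.rp 16 (.str 32 (.nv (.thr 34 33 (.dbl 38 44 46)) (.nv (.thr 40 43 (.dbl 44 36 38)) (.rp 44 (.thr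 43 40 (.thr 34 33 (.thr 38 46 (.thr 55 4 (.dbl 39 23 47))))) (.rp 38 (.thr 43 40 (.thr 39 47 (.thr 61 1 (.thr 63 62 (.dbl 23 3 55))))) .nd))))) .nd)))))) (.rp 44 (.thr 43 40 (.thr 31 16 (.thr 39 47 (.thr 23 55 (.thr 3 63 (.dbl 19 27 51)))))) (.rp 38 (.thr 43 40 (.thr 31 16 (.thr 39 47 (.thr 23 55 (.thr 3 63 (.dbl 19 27 51)))))) (.rp 4 (.thr 43 40 (.thr 31 16 (.thr 39 47 (.thr 23 55 (.thr 3 63 (.dbl 19 27 51)))))) .nd))))))))) (.rp 43 (.thr 10 58 (.thr 11 56 (.thr 9 8 (.thr 3 15 (.thr 1 61 (.thr 5 13 (.dbl 6 4 12))))))) (.rp 40 (.thr 10 58 (.thr 11 56 (.thr 8 9 (.thr 59 25 (.thr 27 43 (.thr 31 16 (.thr 15 3 (.thr 51 39 (.dbl 63 47 55))))))))) (.rp 11 (.str 35 (.nv (.thr 10 58 (.thr 38 44 (.thr 4 55 (.thr 6 5 (.dbl 14 2 50))))) (.nv (.thr 43 40 (.thr 39 47 (.thr 55 23 (.dbl 38 4 44))))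 (.rp 55 (.thr 58 10 (.thr 43 40 (.thr 31 16 (.thr 39 47 (.thr 61 1 (.thr 38 44 (.thr 46 34 (.thr 14 50 (.thr 30 62 (.thr 29 28 (.thr 45 13 (.thr 12 63 (.dbl 25 17 51))))))))))))) (.rp 44 (.thr 43 40 (.thr 31 16 (.thr 39 47 (.thr 23 55 (.thr 3 63 (.dbl 19 27 51)))))) (.rp 38 (.thr 43 40 (.thr 31 16 (.thr 39 47 (.thr 23 55 (.thr 3 63 (.dbl 19 27 51)))))) (.rp 4 (.thr 43 40 (.thr 31 16 (.thr 39 47 (.thr 23 55 (.thr 3 63 (.dbl 19 27 51)))))) .nd))))))) (.rp 10 (.thr 11 56 (.thr 43 40 (.thr 27 59 (.thr 31 16 (.thr 23 19 (.dbl 3 15 63)))))) (.rp 8 (.thr 1 61 (.thr 10 58 (.thr 56 11 (.str 4 (.nv (.thr 6 5 (.thr 14 2 (.dbl 38 50 55))) (.rp 55 (.thr 43 40 (.thr 6 5 (.thr 14 2 (.thr 38 50 (.thr 35 44 (.thr 47 39 (.thr 31 16 (.thr 15 63 (.thr 12 13 (.thr 3 9 (.dbl 51 19 25))))))))))) (.rp 50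 (.thr 5 6 (.thr 9 13 (.thr 25 57 (.thr 27 24 (.thr 31 16 (.thr 23 19 (.dbl 55 38 39))))))) (.rp 38 (.thr 6 5 (.str 39 (.nv (.thr 23 55 (.thr 43 40 (.thr 47 35 (.thr 63 3 (.dbl 31 15 16))))) (.nv (.thr 23 55 (.thr 31 16 (.thr 27 19 (.thr 15 51 (.thr 63 47 (.dbl 43 3 40)))))) (.nv (.thr 31 16 (.thr 43 40 (.thr 47 35 (.thr 63 15 (.dbl 23 3 55))))) (.rp 63 (.thr 23 55 (.thr 14 2 (.thr 31 16 (.thr 27 19 (.thr 25 24 (.thr 9 57 (.thr 12 3 (.dbl 15 13 51)))))))) (.rp 55 (.thr 43 40 (.thr 14 2 (.thr 47 35 (.thr 31 16 (.thr 15 63 (.thr 12 13 (.thr 9 3 (.thr 25 57 (.dbl 27 24 51))))))))) (.rp 47 (.thr 43 40 (.thr 23 55 (.thr 31 16 (.thr 27 19 (.thr 25 24 (.thr 9 57 (.dbl 3 12 63))))))) (.rp 43 (.thr 23 55 (.thr 14 2 (.thr 31 16 (.thr 27 19 (.thr 25 24 (.thr 9 57 (.thr 15 51 (.dbl 12 3 13))))))))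 (.rp 40 (.thr 23 55 (.thr 14 2 (.thr 31 16 (.thr 27 19 (.thr 25 24 (.thr 9 57 (.thr 15 51 (.dbl 12 3 13)))))))) (.rp 35 (.thr 43 40 (.thr 23 55 (.thr 31 16 (.thr 63 3 (.thr 15 47 (.dbl 27 19 51)))))) (.rp 31 (.thr 43 40 (.thr 23 55 (.thr 14 2 (.thr 3 63 (.thr 12 9 (.thr 15 13 (.thr 51 27 (.dbl 35 19 47)))))))) (.rp 23 (.thr 43 40 (.thr 14 2 (.thr 47 35 (.thr 31 16 (.thr 15 63 (.thr 27 51 (.thr 25 24 (.thr 9 57 (.dbl 12 3 13))))))))) (.rp 16 (.thr 43 40 (.thr 23 55 (.thr 14 2 (.thr 35 47 (.thr 3 63 (.thr 51 19 (.thr 15 27 (.dbl 12 9 13)))))))) (.rp 15 (.thr 43 40 (.thr 23 55 (.thr 35 47 (.thr 31 16 (.thr 19 27 (.dbl 3 51 63)))))) (.rp 3 (.thr 43 40 (.thr 23 55 (.thr 47 35 (.thr 31 16 (.thr 15 63 (.dbl 27 19 51)))))) .nd)))))))))))))))) (.rp 14 (.thr 5 6 (.thr 9 13 (.thr 25 57 (.thr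 27 24 (.thr 31 16 (.thr 23 19 (.dbl 55 38 39))))))) (.rp 6 (.thr 38 55 (.thr 50 14 (.thr 34 46 (.thr 18 2 (.thr 35 44 (.thr 33 32 (.thr 17 49 (.dbl 16 19 31)))))))) (.rp 5 (.thr 38 55 (.thr 50 14 (.thr 34 46 (.thr 18 2 (.thr 35 44 (.thr 33 32 (.thr 17 49 (.dbl 16 19 31)))))))) (.rp 2 (.thr 5 6 (.thr 9 13 (.thr 25 57 (.thr 27 24 (.thr 31 16 (.thr 23 19 (.dbl 55 38 39))))))) .nd)))))))))))) .nd))))))))))) (.rp 43 (.thr 1 61 (.thr 16 31 (.thr 10 58 (.str 38 (.nv (.thr 34 46 (.thr 50 14 (.thr 18 2 (.thr 17 19 (.thr 33 49 (.dbl 35 32 44)))))) (.nv (.thr 4 55 (.thr 11 56 (.thr 8 9 (.thr 34 46 (.thr 35 44 (.thr 33 32 (.thr 17 49 (.dbl 25 29 59)))))))) (.nv (.thr 11 56 (.thr 9 8 (.thr 13 5 (.thr 14 50 (.thr 12 15 (.dbl 25 51 57)))))) (.nv (.thr 35 44 (.thr 34 46 (.thr 33 32 (.thr 50 14 (.thr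 18 2 (.dbl 17 19 49)))))) (.rp 52 (.str 7 (.nv (.thr 11 56 (.thr 3 15 (.thr 9 8 (.thr 12 6 (.dbl 25 51 57))))) (.nv (.thr 4 55 (.thr 6 5 (.dbl 14 2 50))) (.rp 6 (.thr 11 56 (.thr 9 8 (.thr 15 3 (.thr 13 5 (.dbl 14 12 50))))) .nd)))) (.rp 7 (.str 52 (.nv (.thr 11 56 (.thr 9 8 (.thr 13 5 (.thr 14 50 (.thr 6 2 (.dbl 12 3 15)))))) (.nv (.thr 50 14 (.thr 34 46 (.thr 18 2 (.thr 35 44 (.thr 33 32 (.dbl 17 19 49)))))) (.nv (.thr 4 55 (.thr 11 56 (.thr 8 9 (.thr 20 36 (.thr 24 28 (.dbl 25 27 59)))))) .nd)))) .nd)))))))))) (.rp 40 (.thr 61 1 (.str 60 (.nv (.thr 56 11 (.thr 52 48 (.thr 58 10 (.thr 57 59 (.thr 53 49 (.dbl 54 51 55)))))) (.nv (.thr 56 11 (.thr 58 10 (.thr 57 59 (.thr 54 51 (.dbl 62 50 63))))) (.nv (.thr 63 62 (.thr 58 10 (.thr 48 53 (.dbl 56 11 52)))) (.rp 58 (.thr 63 62 (.thr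 31 16 (.thr 15 47 (.thr 45 30 (.thr 29 13 (.thr 25 17 (.thr 27 24 (.thr 51 39 (.dbl 12 38 46))))))))) (.rp 56 (.thr 63 62 (.thr 58 10 (.thr 53 48 (.thr 57 49 (.thr 25 9 (.thr 51 54 (.dbl 59 8 55))))))) (.rp 52 (.str 7 (.nv (.thr 56 11 (.thr 58 10 (.thr 57 59 (.thr 54 51 (.dbl 62 50 63))))) (.nv (.thr 31 16 (.thr 63 62 (.thr 15 47 (.dbl 11 3 56)))) (.rp 63 (.thr 11 56 (.thr 10 58 (.thr 8 9 (.thr 59 25 (.thr 27 43 (.thr 3 15 (.thr 31 16 (.thr 19 23 (.thr 35 51 (.thr 38 44 (.thr 4 55 (.thr 14 50 (.dbl 6 2 5))))))))))))) (.rp 62 (.thr 11 56 (.thr 10 58 (.thr 8 9 (.thr 59 25 (.thr 27 43 (.thr 3 15 (.thr 31 16 (.thr 19 23 (.thr 51 35 (.thr 55 63 (.thr 38 4 (.thr 50 14 (.thr 57 54 (.dbl 49 48 53)))))))))))))) (.rp 56 (.thr 63 62 (.thr 58 10 (.thr 53 48 (.thr 57 49 (.thr 25 9 (.thr 51 54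 (.dbl 59 8 55))))))) (.rp 15 (.thr 63 62 (.thr 11 56 (.thr 10 58 (.thr 8 9 (.thr 59 25 (.thr 27 43 (.thr 31 16 (.thr 55 51 (.dbl 23 19 39))))))))) (.rp 11 (.thr 62 63 (.thr 58 10 (.thr 54 50 (.thr 57 51 (.thr 59 56 (.dbl 25 8 9)))))) (.rp 3 (.str 2 (.nv (.thr 58 10 (.thr 63 62 (.thr 56 11 (.thr 57 59 (.dbl 53 48 49))))) (.nv (.thr 10 58 (.thr 14 6 (.thr 38 50 (.thr 46 34 (.dbl 62 30 63))))) (.rp 63 (.thr 10 58 (.thr 14 6 (.thr 38 50 (.thr 46 34 (.thr 44 35 (.thr 45 47 (.dbl 30 15 62))))))) (.rp 62 (.thr 10 58 (.thr 6 14 (.thr 4 5 (.thr 38 55 (.thr 46 34 (.thr 44 35 (.thr 45 47 (.thr 12 28 (.dbl 29 13 63))))))))) (.rp 58 (.thr 63 62 (.thr 31 16 (.thr 15 47 (.thr 30 45 (.thr 29 28 (.thr 25 17 (.thr 57 9 (.thr 59 8 (.dbl 51 54 55))))))))) (.rp 10 (.thr 63 62 (.thr 31 16 (.thr 15 47 (.thr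 30 45 (.thr 29 28 (.thr 25 17 (.thr 57 9 (.thr 51 54 (.dbl 59 8 55))))))))) (.rp 9 (.thr 58 10 (.thr 63 62 (.thr 53 48 (.thr 57 49 (.dbl 56 11 59))))) .nd)))))))) (.rp 2 (.str 3 (.nv (.dbl 11 15 56) (.rp 56 (.thr 63 62 (.thr 15 11 (.dbl 31 16 47))) (.rp 15 (.thr 63 62 (.thr 10 58 (.thr 11 56 (.thr 8 9 (.thr 59 25 (.dbl 43 23 27)))))) (.rp 11 (.thr 63 62 (.thr 58 10 (.thr 53 48 (.thr 57 49 (.thr 59 56 (.dbl 25 8 9)))))) .nd))))) .nd)))))))))) (.rp 15 (.thr 63 62 (.thr 10 58 (.thr 11 56 (.thr 8 9 (.thr 59 25 (.thr 55 51 (.thr 38 4 (.thr 35 44 (.thr 43 27 (.thr 39 47 (.dbl 23 3 7))))))))))) (.rp 11 (.thr 62 63 (.thr 58 10 (.thr 54 50 (.thr 57 51 (.thr 59 56 (.dbl 25 8 9)))))) (.rp 10 (.thr 63 62 (.thr 31 16 (.thr 15 47 (.thr 45 30 (.thr 29 13 (.thr 25 17 (.thr 27 24 (.thr 51 39 (.dbl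 12 38 46))))))))) (.rp 7 (.str 52 (.nv (.dbl 56 11 48) (.rp 56 (.thr 62 63 (.thr 58 10 (.thr 54 50 (.thr 53 55 (.dbl 57 49 51))))) (.rp 48 (.thr 62 63 (.thr 58 10 (.thr 56 11 (.thr 57 59 (.dbl 54 50 51))))) (.rp 11 (.thr 63 62 (.thr 58 10 (.dbl 48 53 56))) (.rp 3 (.str 2 (.nv (.dbl 56 11 48) (.rp 56 (.thr 10 58 (.thr 14 6 (.thr 38 50 (.thr 46 34 (.dbl 62 30 63))))) (.rp 48 (.thr 10 58 (.thr 14 6 (.thr 38 50 (.thr 46 34 (.dbl 62 30 63))))) (.rp 15 (.thr 11 56 (.thr 10 58 (.thr 14 6 (.thr 38 50 (.thr 46 34 (.dbl 62 30 63)))))) (.rp 11 (.str 15 (.nv (.thr 10 58 (.thr 14 6 (.thr 45 30 (.dbl 13 12 29)))) (.nv (.thr 63 62 (.dbl 31 16 47)) .nd))) .nd)))))) (.rp 2 (.str 3 (.nv (.dbl 56 11 48) (.rp 56 (.thr 63 62 (.thr 58 10 (.thr 53 48 (.thr 54 55 (.dbl 57 49 51))))) (.rp 48 (.thr 62 63 (.thr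 56 11 (.thr 58 10 (.thr 57 59 (.dbl 54 50 51))))) (.rp 11 (.thr 48 56 (.thr 63 62 (.dbl 58 10 53))) .nd))))) .nd))))))) (.rp 5 (.thr 63 62 (.thr 56 11 (.thr 31 16 (.thr 15 47 (.thr 58 10 (.dbl 48 52 53)))))) (.rp 3 (.str 2 (.nv (.thr 56 11 (.thr 52 48 (.thr 58 10 (.thr 57 59 (.thr 53 49 (.dbl 54 51 55)))))) (.nv (.thr 10 58 (.thr 14 6 (.thr 38 50 (.thr 46 34 (.dbl 62 30 63))))) (.nv (.thr 58 10 (.thr 63 62 (.thr 48 53 (.dbl 56 11 52)))) (.rp 58 (.thr 31 16 (.thr 63 62 (.thr 15 47 (.thr 45 30 (.thr 29 13 (.thr 25 17 (.thr 27 24 (.thr 51 39 (.dbl 57 9 54))))))))) (.rp 52 (.str 7 (.nv (.thr 58 10 (.thr 63 62 (.thr 56 11 (.thr 57 59 (.dbl 53 48 49))))) (.nv (.thr 10 58 (.thr 14 6 (.thr 38 50 (.thr 46 34 (.dbl 62 30 63))))) (.rp 63 (.thr 10 58 (.thr 14 6 (.thr 38 50 (.thr 46 34 (.thr 44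 35 (.thr 45 47 (.dbl 30 15 62))))))) (.rp 62 (.thr 10 58 (.thr 6 14 (.thr 4 5 (.thr 38 55 (.thr 46 34 (.thr 44 35 (.thr 45 47 (.thr 12 28 (.dbl 29 13 63))))))))) (.rp 58 (.thr 63 62 (.thr 31 16 (.thr 15 47 (.thr 30 45 (.thr 29 28 (.thr 25 17 (.thr 57 9 (.thr 59 8 (.dbl 51 54 55))))))))) (.rp 10 (.thr 63 62 (.thr 31 16 (.thr 15 47 (.thr 30 45 (.thr 29 28 (.thr 25 17 (.thr 57 9 (.thr 51 54 (.dbl 59 8 55))))))))) (.rp 9 (.thr 58 10 (.thr 63 62 (.thr 53 48 (.thr 57 49 (.dbl 56 11 59))))) .nd)))))))) (.rp 10 (.thr 31 16 (.thr 63 62 (.thr 15 47 (.thr 45 30 (.thr 29 13 (.thr 25 17 (.thr 27 24 (.thr 51 39 (.dbl 57 9 54))))))))) (.rp 7 (.str 52 (.nv (.dbl 56 11 48) (.rp 56 (.thr 10 58 (.thr 14 6 (.thr 38 50 (.thr 46 34 (.dbl 62 30 63))))) (.rp 48 (.thr 10 58 (.thr 14 6 (.thr 38 50 (.thr 46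 34 (.dbl 62 30 63))))) (.rp 15 (.thr 11 56 (.thr 10 58 (.thr 14 6 (.thr 38 50 (.thr 46 34 (.dbl 62 30 63)))))) (.rp 11 (.str 15 (.nv (.thr 10 58 (.thr 14 6 (.thr 45 30 (.dbl 13 12 29)))) (.nv (.thr 63 62 (.dbl 31 16 47)) .nd))) .nd)))))) .nd)))))))) (.rp 2 (.str 3 (.nv (.thr 10 58 (.thr 11 56 (.thr 8 9 (.thr 59 25 (.thr 43 27 (.dbl 63 23 62)))))) (.nv (.thr 31 16 (.thr 63 62 (.thr 15 47 (.dbl 11 7 56)))) (.rp 63 (.thr 56 11 (.thr 58 10 (.thr 57 59 (.thr 49 53 (.thr 51 54 (.dbl 48 50 52)))))) (.rp 62 (.thr 56 11 (.thr 58 10 (.thr 57 59 (.thr 53 49 (.dbl 48 52 63))))) (.rp 56 (.thr 58 10 (.thr 63 62 (.thr 53 48 (.thr 57 49 (.thr 25 9 (.thr 51 54 (.dbl 59 8 55))))))) (.rp 52 (.str 7 (.nv (.dbl 11 15 56) (.rp 56 (.thr 63 62 (.thr 15 11 (.dbl 31 16 47))) (.rp 15 (.thr 63 62 (.thr 10 58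 (.thr 11 56 (.thr 8 9 (.thr 59 25 (.dbl 43 23 27)))))) (.rp 11 (.thr 63 62 (.thr 58 10 (.thr 53 48 (.thr 57 49 (.thr 59 56 (.dbl 25 8 9)))))) .nd))))) (.rp 11 (.thr 58 10 (.thr 63 62 (.thr 53 48 (.thr 57 49 (.thr 59 56 (.dbl 25 8 9)))))) (.rp 7 (.str 52 (.nv (.dbl 56 11 48) (.rp 56 (.thr 63 62 (.thr 58 10 (.thr 53 48 (.thr 54 55 (.dbl 57 49 51))))) (.rp 48 (.thr 62 63 (.thr 56 11 (.thr 58 10 (.thr 57 59 (.dbl 54 50 51))))) (.rp 11 (.thr 48 56 (.thr 63 62 (.dbl 58 10 53))) .nd))))) .nd))))))))) .nd))))))))))))))) (.rp 27 (.thr 40 43 (.thr 58 10 (.thr 56 11 (.thr 59 57 (.dbl 8 24 25))))) (.rp 25 (.str 63 (.nv (.thr 56 11 (.thr 58 10 (.thr 53 48 (.thr 57 59 (.dbl 61 1 49))))) (.nv (.thr 11 56 (.thr 43 40 (.thr 23 3 (.thr 27 59 (.dbl 31 16 19))))) (.nv (.thr 56 11 (.thr 58 10 (.thr 48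 53 (.thr 61 1 (.dbl 60 52 62))))) (.nv (.thr 31 16 (.thr 15 47 (.thr 43 40 (.thr 3 23 (.dbl 11 7 56))))) (.rp 56 (.thr 43 40 (.thr 3 23 (.thr 31 16 (.thr 47 15 (.thr 35 39 (.thr 38 44 (.thr 55 4 (.dbl 51 19 59)))))))) (.rp 52 (.str 7 (.nv (.thr 43 40 (.thr 3 23 (.dbl 11 15 56))) (.nv (.thr 31 16 (.thr 15 47 (.dbl 11 3 56))) (.rp 56 (.thr 43 40 (.thr 3 23 (.thr 15 11 (.dbl 31 16 47)))) (.rp 49 (.str 13 (.nv (.thr 1 61 (.thr 9 5 (.thr 10 58 (.dbl 11 8 56)))) (.nv (.thr 31 16 (.thr 15 47 (.dbl 11 3 56))) (.rp 56 (.thr 43 40 (.thr 3 23 (.thr 15 11 (.dbl 31 16 47)))) (.rp 28 (.str 19 (.nv (.thr 31 16 (.thr 23 27 (.dbl 43 3 40))) (.nv (.thr 1 61 (.thr 9 5 (.thr 10 58 (.dbl 11 8 56)))) (.nv (.thr 43 40 (.thr 3 23 (.dbl 11 15 56))) .nd)))) (.rp 19 (.str 28 (.nv (.thr 31 16 (.thr 29 30 (.dbl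 61 1 45))) (.nv (.thr 1 61 (.thr 9 5 (.thr 10 58 (.dbl 11 8 56)))) (.nv (.thr 31 16 (.thr 15 47 (.dbl 11 3 56))) .nd)))) (.rp 11 (.thr 43 40 (.thr 23 3 (.thr 39 55 (.thr 31 16 (.dbl 47 15 35))))) .nd))))))) (.rp 28 (.str 19 (.nv (.thr 11 56 (.thr 15 3 (.dbl 31 16 47))) (.nv (.thr 31 16 (.thr 23 27 (.dbl 43 3 40))) (.nv (.thr 43 40 (.thr 3 23 (.dbl 11 15 56))) (.rp 49 (.str 13 (.nv (.thr 31 16 (.thr 23 27 (.dbl 43 3 40))) (.nv (.thr 1 61 (.thr 9 5 (.thr 10 58 (.dbl 11 8 56)))) (.nv (.thr 43 40 (.thr 3 23 (.dbl 11 15 56))) .nd)))) (.rp 13 (.str 49 (.nv (.thr 11 56 (.thr 3 15 (.dbl 43 23 40))) (.nv (.thr 1 61 (.thr 17 33 (.dbl 16 18 31))) .nd))) (.rp 3 (.thr 31 16 (.thr 27 23 (.thr 11 56 (.dbl 43 40 59)))) .nd))))))) (.rp 19 (.str 28 (.nv (.thr 11 56 (.thr 3 15 (.dbl 43 23 40))) (.nv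 (.thr 16 31 (.thr 24 20 (.thr 40 43 (.dbl 56 8 11)))) (.nv (.thr 31 16 (.thr 15 47 (.dbl 11 3 56))) (.rp 56 (.thr 43 40 (.thr 3 23 (.thr 15 11 (.dbl 31 16 47)))) (.rp 49 (.str 13 (.nv (.thr 31 16 (.thr 29 30 (.dbl 61 1 45))) (.nv (.thr 1 61 (.thr 9 5 (.thr 10 58 (.dbl 11 8 56)))) (.nv (.thr 31 16 (.thr 15 47 (.dbl 11 3 56))) .nd)))) (.rp 13 (.str 49 (.nv (.thr 16 31 (.thr 24 20 (.thr 40 43 (.dbl 56 8 11)))) (.nv (.thr 61 1 (.thr 53 57 (.dbl 58 10 48))) (.nv (.thr 31 16 (.thr 15 47 (.dbl 11 3 56))) .nd)))) (.rp 11 (.thr 43 40 (.thr 23 3 (.thr 39 55 (.thr 31 16 (.dbl 47 15 35))))) .nd)))))))) (.rp 15 (.thr 43 40 (.thr 11 56 (.thr 27 59 (.thr 23 3 (.dbl 31 16 19))))) (.rp 13 (.str 49 (.nv (.thr 61 1 (.thr 53 57 (.dbl 58 10 48))) (.nv (.thr 43 40 (.thr 3 23 (.dbl 11 15 56))) (.rp 28 (.str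 19 (.nv (.thr 11 56 (.thr 3 15 (.dbl 43 23 40))) (.nv (.thr 1 61 (.thr 17 33 (.dbl 16 18 31))) .nd))) (.rp 19 (.str 28 (.nv (.thr 16 31 (.thr 24 20 (.thr 40 43 (.dbl 56 8 11)))) (.nv (.thr 61 1 (.thr 53 57 (.dbl 58 10 48))) (.nv (.thr 31 16 (.thr 15 47 (.dbl 11 3 56))) .nd)))) (.rp 3 (.thr 58 10 (.thr 53 48 (.dbl 61 1 57))) .nd)))))) (.rp 11 (.thr 43 40 (.thr 23 3 (.thr 39 55 (.thr 31 16 (.dbl 47 15 35))))) (.rp 3 (.thr 56 11 (.thr 58 10 (.thr 57 59 (.thr 53 48 (.dbl 61 1 49))))) .nd))))))))))) (.rp 49 (.str 13 (.nv (.thr 31 16 (.thr 15 47 (.thr 12 14 (.thr 29 46 (.dbl 61 1 45))))) (.nv (.thr 31 16 (.thr 15 47 (.thr 43 40 (.thr 3 23 (.dbl 11 7 56))))) (.nv (.thr 1 61 (.thr 9 5 (.thr 10 58 (.dbl 11 8 56)))) (.rp 52 (.str 7 (.nv (.thr 1 61 (.thr 9 5 (.thr 10 58 (.dbl 11 8 56)))) (.nv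 (.thr 31 16 (.thr 15 47 (.dbl 11 3 56))) (.rp 56 (.thr 43 40 (.thr 3 23 (.thr 15 11 (.dbl 31 16 47)))) (.rp 28 (.str 19 (.nv (.thr 31 16 (.thr 23 27 (.dbl 43 3 40))) (.nv (.thr 1 61 (.thr 9 5 (.thr 10 58 (.dbl 11 8 56)))) (.nv (.thr 43 40 (.thr 3 23 (.dbl 11 15 56))) .nd)))) (.rp 19 (.str 28 (.nv (.thr 31 16 (.thr 29 30 (.dbl 61 1 45))) (.nv (.thr 1 61 (.thr 9 5 (.thr 10 58 (.dbl 11 8 56)))) (.nv (.thr 31 16 (.thr 15 47 (.dbl 11 3 56))) .nd)))) (.rp 11 (.thr 43 40 (.thr 23 3 (.thr 39 55 (.thr 31 16 (.dbl 47 15 35))))) .nd))))))) (.rp 28 (.str 19 (.nv (.thr 1 61 (.thr 9 5 (.thr 10 58 (.dbl 11 8 56)))) (.nv (.thr 31 16 (.thr 23 27 (.dbl 43 3 40))) (.rp 52 (.str 7 (.nv (.thr 31 16 (.thr 23 27 (.dbl 43 3 40))) (.nv (.thr 1 61 (.thr 9 5 (.thr 10 58 (.dbl 11 8 56)))) (.nv (.thr 43 40 (.thr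 3 23 (.dbl 11 15 56))) .nd)))) (.rp 7 (.str 52 (.nv (.thr 1 61 (.thr 9 5 (.thr 10 58 (.dbl 11 8 56)))) (.nv (.thr 31 16 (.thr 23 27 (.dbl 43 3 40))) (.nv (.thr 61 1 (.thr 60 62 (.dbl 56 11 48))) .nd)))) .nd))))) (.rp 19 (.str 28 (.nv (.thr 16 31 (.thr 24 20 (.thr 40 43 (.dbl 56 8 11)))) (.nv (.thr 1 61 (.thr 9 5 (.thr 10 58 (.dbl 11 8 56)))) (.nv (.thr 61 1 (.thr 29 45 (.dbl 31 16 30))) (.rp 52 (.str 7 (.nv (.thr 31 16 (.thr 29 30 (.dbl 61 1 45))) (.nv (.thr 1 61 (.thr 9 5 (.thr 10 58 (.dbl 11 8 56)))) (.nv (.thr 31 16 (.thr 15 47 (.dbl 11 3 56))) .nd)))) (.rp 7 (.str 52 (.nv (.thr 31 16 (.thr 29 30 (.dbl 61 1 45))) (.nv (.thr 16 31 (.thr 24 20 (.thr 40 43 (.dbl 56 8 11)))) (.nv (.thr 61 1 (.thr 60 62 (.dbl 56 11 48))) .nd)))) .nd)))))) (.rp 7 (.str 52 (.nv (.thr 56 11 (.thr 58 10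 (.dbl 48 53 60))) (.nv (.thr 1 61 (.thr 9 5 (.thr 10 58 (.dbl 11 8 56)))) (.nv (.thr 61 1 (.thr 60 62 (.dbl 56 11 48))) (.rp 56 (.thr 58 10 (.thr 53 48 (.thr 54 55 (.thr 61 1 (.dbl 62 50 60))))) (.rp 28 (.str 19 (.nv (.thr 1 61 (.thr 9 5 (.thr 10 58 (.dbl 11 8 56)))) (.nv (.thr 31 16 (.thr 23 27 (.dbl 43 3 40))) (.nv (.thr 61 1 (.thr 60 62 (.dbl 56 11 48))) .nd)))) (.rp 19 (.str 28 (.nv (.thr 31 16 (.thr 29 30 (.dbl 61 1 45))) (.nv (.thr 16 31 (.thr 24 20 (.thr 40 43 (.dbl 56 8 11)))) (.nv (.thr 61 1 (.thr 60 62 (.dbl 56 11 48))) .nd)))) (.rp 11 (.thr 58 10 (.thr 48 53 (.thr 60 56 (.dbl 61 1 62)))) .nd)))))))) .nd)))))))) (.rp 28 (.str 19 (.nv (.thr 11 56 (.thr 43 40 (.thr 3 23 (.thr 51 35 (.dbl 59 27 55))))) (.nv (.thr 31 16 (.thr 23 27 (.dbl 43 3 40))) (.rp 52 (.str 7 (.nv (.thr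 11 56 (.thr 15 3 (.dbl 31 16 47))) (.nv (.thr 31 16 (.thr 23 27 (.dbl 43 3 40))) (.nv (.thr 43 40 (.thr 3 23 (.dbl 11 15 56))) (.rp 49 (.str 13 (.nv (.thr 31 16 (.thr 23 27 (.dbl 43 3 40))) (.nv (.thr 1 61 (.thr 9 5 (.thr 10 58 (.dbl 11 8 56)))) (.nv (.thr 43 40 (.thr 3 23 (.dbl 11 15 56))) .nd)))) (.rp 13 (.str 49 (.nv (.thr 11 56 (.thr 3 15 (.dbl 43 23 40))) (.nv (.thr 1 61 (.thr 17 33 (.dbl 16 18 31))) .nd))) (.rp 3 (.thr 31 16 (.thr 27 23 (.thr 11 56 (.dbl 43 40 59)))) .nd))))))) (.rp 49 (.str 13 (.nv (.thr 1 61 (.thr 9 5 (.thr 10 58 (.dbl 11 8 56)))) (.nv (.thr 31 16 (.thr 23 27 (.dbl 43 3 40))) (.rp 52 (.str 7 (.nv (.thr 31 16 (.thr 23 27 (.dbl 43 3 40))) (.nv (.thr 1 61 (.thr 9 5 (.thr 10 58 (.dbl 11 8 56)))) (.nv (.thr 43 40 (.thr 3 23 (.dbl 11 15 56))) .nd)))) (.rp 7 (.str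 52 (.nv (.thr 1 61 (.thr 9 5 (.thr 10 58 (.dbl 11 8 56)))) (.nv (.thr 31 16 (.thr 23 27 (.dbl 43 3 40))) (.nv (.thr 61 1 (.thr 60 62 (.dbl 56 11 48))) .nd)))) .nd))))) (.rp 43 (.thr 61 1 (.thr 58 10 (.thr 53 48 (.thr 56 11 (.dbl 57 49 59))))) (.rp 40 (.thr 61 1 (.thr 58 10 (.thr 53 48 (.thr 56 11 (.dbl 57 49 59))))) (.rp 27 (.thr 61 1 (.thr 58 10 (.thr 53 48 (.thr 56 11 (.dbl 57 49 59))))) (.rp 24 (.thr 43 40 (.thr 23 3 (.dbl 31 16 27))) (.rp 23 (.thr 61 1 (.thr 58 10 (.thr 53 48 (.thr 56 11 (.dbl 57 49 59))))) (.rp 20 (.thr 61 1 (.thr 58 10 (.thr 53 48 (.thr 56 11 (.dbl 57 49 59))))) (.rp 13 (.str 49 (.nv (.thr 11 56 (.thr 43 40 (.thr 27 59 (.dbl 23 3 31)))) (.nv (.thr 16 31 (.thr 17 18 (.dbl 1 33 61))) (.rp 52 (.str 7 (.nv (.thr 11 56 (.thr 3 15 (.dbl 43 23 40))) (.nv (.thr 1 61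 (.thr 17 33 (.dbl 16 18 31))) .nd))) (.rp 31 (.thr 61 1 (.thr 53 57 (.dbl 58 10 48))) (.rp 7 (.str 52 (.nv (.thr 56 11 (.thr 48 60 (.dbl 58 10 53))) (.nv (.thr 16 31 (.thr 17 18 (.dbl 1 33 61))) .nd))) .nd)))))) (.rp 7 (.str 52 (.nv (.thr 31 16 (.thr 23 27 (.dbl 43 3 40))) (.nv (.thr 58 10 (.thr 48 53 (.dbl 56 11 60))) (.rp 49 (.str 13 (.nv (.thr 1 61 (.thr 9 5 (.thr 10 58 (.dbl 11 8 56)))) (.nv (.thr 31 16 (.thr 23 27 (.dbl 43 3 40))) (.nv (.thr 61 1 (.thr 60 62 (.dbl 56 11 48))) .nd)))) (.rp 48 (.thr 43 40 (.thr 23 3 (.dbl 31 16 27))) (.rp 13 (.str 49 (.nv (.thr 56 11 (.thr 48 60 (.dbl 58 10 53))) (.nv (.thr 16 31 (.thr 17 18 (.dbl 1 33 61))) .nd))) .nd)))))) (.rp 3 (.thr 31 16 (.thr 27 23 (.thr 11 56 (.dbl 43 40 59)))) .nd)))))))))))))) (.rp 19 (.str 28 (.nv (.thr 31 16 (.thr 15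 47 (.thr 30 29 (.thr 60 45 (.dbl 61 1 62))))) (.nv (.thr 61 1 (.thr 60 62 (.thr 58 10 (.thr 48 53 (.dbl 56 11 52))))) (.nv (.thr 16 31 (.thr 24 20 (.thr 40 43 (.dbl 56 8 11)))) (.rp 52 (.str 7 (.nv (.thr 11 56 (.thr 3 15 (.dbl 43 23 40))) (.nv (.thr 16 31 (.thr 24 20 (.thr 40 43 (.dbl 56 8 11)))) (.nv (.thr 31 16 (.thr 15 47 (.dbl 11 3 56))) (.rp 56 (.thr 43 40 (.thr 3 23 (.thr 15 11 (.dbl 31 16 47)))) (.rp 49 (.str 13 (.nv (.thr 31 16 (.thr 29 30 (.dbl 61 1 45))) (.nv (.thr 1 61 (.thr 9 5 (.thr 10 58 (.dbl 11 8 56)))) (.nv (.thr 31 16 (.thr 15 47 (.dbl 11 3 56))) .nd)))) (.rp 13 (.str 49 (.nv (.thr 16 31 (.thr 24 20 (.thr 40 43 (.dbl 56 8 11)))) (.nv (.thr 61 1 (.thr 53 57 (.dbl 58 10 48))) (.nv (.thr 31 16 (.thr 15 47 (.dbl 11 3 56))) .nd)))) (.rp 11 (.thr 43 40 (.thr 23 3 (.thr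 39 55 (.thr 31 16 (.dbl 47 15 35))))) .nd)))))))) (.rp 49 (.str 13 (.nv (.thr 16 31 (.thr 24 20 (.thr 40 43 (.dbl 56 8 11)))) (.nv (.thr 1 61 (.thr 9 5 (.thr 10 58 (.dbl 11 8 56)))) (.nv (.thr 61 1 (.thr 29 45 (.dbl 31 16 30))) (.rp 52 (.str 7 (.nv (.thr 31 16 (.thr 29 30 (.dbl 61 1 45))) (.nv (.thr 1 61 (.thr 9 5 (.thr 10 58 (.dbl 11 8 56)))) (.nv (.thr 31 16 (.thr 15 47 (.dbl 11 3 56))) .nd)))) (.rp 7 (.str 52 (.nv (.thr 31 16 (.thr 29 30 (.dbl 61 1 45))) (.nv (.thr 16 31 (.thr 24 20 (.thr 40 43 (.dbl 56 8 11)))) (.nv (.thr 61 1 (.thr 60 62 (.dbl 56 11 48))) .nd)))) .nd)))))) (.rp 13 (.str 49 (.nv (.thr 16 31 (.thr 24 20 (.thr 40 43 (.dbl 56 8 11)))) (.nv (.thr 61 1 (.thr 53 57 (.dbl 58 10 48))) (.rp 52 (.str 7 (.nv (.thr 16 31 (.thr 24 20 (.thr 40 43 (.dbl 56 8 11)))) (.nv (.thr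 61 1 (.thr 53 57 (.dbl 58 10 48))) (.nv (.thr 31 16 (.thr 15 47 (.dbl 11 3 56))) .nd)))) (.rp 7 (.str 52 (.nv (.thr 61 1 (.thr 53 57 (.dbl 58 10 48))) (.nv (.thr 16 31 (.thr 24 20 (.thr 40 43 (.dbl 56 8 11)))) (.nv (.thr 58 10 (.thr 48 53 (.dbl 56 11 60))) .nd)))) .nd))))) (.rp 7 (.str 52 (.nv (.thr 31 16 (.thr 15 47 (.thr 30 29 (.thr 60 45 (.dbl 61 1 62))))) (.nv (.thr 16 31 (.thr 24 20 (.thr 40 43 (.dbl 56 8 11)))) (.nv (.thr 61 1 (.thr 60 62 (.dbl 56 11 48))) (.rp 49 (.str 13 (.nv (.thr 31 16 (.thr 29 30 (.dbl 61 1 45))) (.nv (.thr 16 31 (.thr 24 20 (.thr 40 43 (.dbl 56 8 11)))) (.nv (.thr 61 1 (.thr 60 62 (.dbl 56 11 48))) .nd)))) (.rp 13 (.str 49 (.nv (.thr 61 1 (.thr 53 57 (.dbl 58 10 48))) (.nv (.thr 16 31 (.thr 24 20 (.thr 40 43 (.dbl 56 8 11)))) (.nv (.thr 58 10 (.thr 48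 53 (.dbl 56 11 60))) .nd)))) .nd)))))) .nd)))))))) (.rp 13 (.str 49 (.nv (.thr 56 11 (.thr 58 10 (.thr 57 59 (.dbl 61 1 53)))) (.nv (.thr 11 56 (.thr 31 16 (.thr 15 47 (.thr 43 40 (.dbl 3 7 23))))) (.nv (.thr 61 1 (.thr 53 57 (.dbl 58 10 48))) (.rp 52 (.str 7 (.nv (.thr 61 1 (.thr 53 57 (.dbl 58 10 48))) (.nv (.thr 43 40 (.thr 3 23 (.dbl 11 15 56))) (.rp 28 (.str 19 (.nv (.thr 11 56 (.thr 3 15 (.dbl 43 23 40))) (.nv (.thr 1 61 (.thr 17 33 (.dbl 16 18 31))) .nd))) (.rp 19 (.str 28 (.nv (.thr 16 31 (.thr 24 20 (.thr 40 43 (.dbl 56 8 11)))) (.nv (.thr 61 1 (.thr 53 57 (.dbl 58 10 48))) (.nv (.thr 31 16 (.thr 15 47 (.dbl 11 3 56))) .nd)))) (.rp 3 (.thr 58 10 (.thr 53 48 (.dbl 61 1 57))) .nd)))))) (.rp 28 (.str 19 (.nv (.thr 11 56 (.thr 43 40 (.thr 27 59 (.dbl 23 3 31)))) (.nv (.thr 16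 31 (.thr 17 18 (.dbl 1 33 61))) (.rp 52 (.str 7 (.nv (.thr 11 56 (.thr 3 15 (.dbl 43 23 40))) (.nv (.thr 1 61 (.thr 17 33 (.dbl 16 18 31))) .nd))) (.rp 31 (.thr 61 1 (.thr 53 57 (.dbl 58 10 48))) (.rp 7 (.str 52 (.nv (.thr 56 11 (.thr 48 60 (.dbl 58 10 53))) (.nv (.thr 16 31 (.thr 17 18 (.dbl 1 33 61))) .nd))) .nd)))))) (.rp 19 (.str 28 (.nv (.thr 16 31 (.thr 24 20 (.thr 40 43 (.dbl 56 8 11)))) (.nv (.thr 61 1 (.thr 53 57 (.dbl 58 10 48))) (.rp 52 (.str 7 (.nv (.thr 16 31 (.thr 24 20 (.thr 40 43 (.dbl 56 8 11)))) (.nv (.thr 61 1 (.thr 53 57 (.dbl 58 10 48))) (.nv (.thr 31 16 (.thr 15 47 (.dbl 11 3 56))) .nd)))) (.rp 7 (.str 52 (.nv (.thr 61 1 (.thr 53 57 (.dbl 58 10 48))) (.nv (.thr 16 31 (.thr 24 20 (.thr 40 43 (.dbl 56 8 11)))) (.nv (.thr 58 10 (.thr 48 53 (.dbl 56 11 60))) .nd))))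 .nd))))) (.rp 7 (.str 52 (.nv (.thr 58 10 (.thr 53 48 (.dbl 61 1 57))) (.nv (.thr 11 56 (.thr 43 40 (.thr 23 3 (.thr 27 59 (.dbl 31 16 19))))) (.nv (.thr 58 10 (.thr 48 53 (.dbl 56 11 60))) (.rp 58 (.thr 61 1 (.thr 60 62 (.dbl 56 11 48))) (.rp 28 (.str 19 (.nv (.thr 56 11 (.thr 48 60 (.dbl 58 10 53))) (.nv (.thr 16 31 (.thr 17 18 (.dbl 1 33 61))) .nd))) (.rp 19 (.str 28 (.nv (.thr 61 1 (.thr 53 57 (.dbl 58 10 48))) (.nv (.thr 16 31 (.thr 24 20 (.thr 40 43 (.dbl 56 8 11)))) (.nv (.thr 58 10 (.thr 48 53 (.dbl 56 11 60))) .nd)))) .nd))))))) .nd)))))))) (.rp 11 (.thr 43 40 (.thr 3 23 (.thr 31 16 (.thr 47 15 (.thr 35 39 (.thr 38 44 (.thr 55 4 (.dbl 51 19 59)))))))) (.rp 7 (.str 52 (.nv (.thr 58 10 (.thr 48 53 (.dbl 56 11 60))) (.nv (.thr 61 1 (.thr 60 62 (.dbl 56 11 48))) (.rp 60 (.thr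 58 10 (.thr 56 11 (.thr 57 59 (.thr 53 48 (.dbl 61 1 49))))) (.rp 56 (.thr 58 10 (.thr 53 48 (.thr 54 55 (.thr 61 1 (.dbl 62 50 60))))) (.rp 49 (.str 13 (.nv (.thr 56 11 (.thr 58 10 (.dbl 48 53 60))) (.nv (.thr 1 61 (.thr 9 5 (.thr 10 58 (.dbl 11 8 56)))) (.nv (.thr 61 1 (.thr 60 62 (.dbl 56 11 48))) (.rp 56 (.thr 58 10 (.thr 53 48 (.thr 54 55 (.thr 61 1 (.dbl 62 50 60))))) (.rp 28 (.str 19 (.nv (.thr 1 61 (.thr 9 5 (.thr 10 58 (.dbl 11 8 56)))) (.nv (.thr 31 16 (.thr 23 27 (.dbl 43 3 40))) (.nv (.thr 61 1 (.thr 60 62 (.dbl 56 11 48))) .nd)))) (.rp 19 (.str 28 (.nv (.thr 31 16 (.thr 29 30 (.dbl 61 1 45))) (.nv (.thr 16 31 (.thr 24 20 (.thr 40 43 (.dbl 56 8 11)))) (.nv (.thr 61 1 (.thr 60 62 (.dbl 56 11 48))) .nd)))) (.rp 11 (.thr 58 10 (.thr 48 53 (.thr 60 56 (.dbl 61 1 62)))) .nd))))))))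 (.rp 48 (.thr 11 56 (.thr 43 40 (.thr 27 59 (.thr 23 3 (.dbl 31 16 19))))) (.rp 28 (.str 19 (.nv (.thr 31 16 (.thr 23 27 (.dbl 43 3 40))) (.nv (.thr 58 10 (.thr 48 53 (.dbl 56 11 60))) (.rp 49 (.str 13 (.nv (.thr 1 61 (.thr 9 5 (.thr 10 58 (.dbl 11 8 56)))) (.nv (.thr 31 16 (.thr 23 27 (.dbl 43 3 40))) (.nv (.thr 61 1 (.thr 60 62 (.dbl 56 11 48))) .nd)))) (.rp 48 (.thr 43 40 (.thr 23 3 (.dbl 31 16 27))) (.rp 13 (.str 49 (.nv (.thr 56 11 (.thr 48 60 (.dbl 58 10 53))) (.nv (.thr 16 31 (.thr 17 18 (.dbl 1 33 61))) .nd))) .nd)))))) (.rp 19 (.str 28 (.nv (.thr 31 16 (.thr 15 47 (.thr 30 29 (.thr 60 45 (.dbl 61 1 62))))) (.nv (.thr 16 31 (.thr 24 20 (.thr 40 43 (.dbl 56 8 11)))) (.nv (.thr 61 1 (.thr 60 62 (.dbl 56 11 48))) (.rp 49 (.str 13 (.nv (.thr 31 16 (.thr 29 30 (.dbl 61 1 45)))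 (.nv (.thr 16 31 (.thr 24 20 (.thr 40 43 (.dbl 56 8 11)))) (.nv (.thr 61 1 (.thr 60 62 (.dbl 56 11 48))) .nd)))) (.rp 13 (.str 49 (.nv (.thr 61 1 (.thr 53 57 (.dbl 58 10 48))) (.nv (.thr 16 31 (.thr 24 20 (.thr 40 43 (.dbl 56 8 11)))) (.nv (.thr 58 10 (.thr 48 53 (.dbl 56 11 60))) .nd)))) .nd)))))) (.rp 13 (.str 49 (.nv (.thr 58 10 (.thr 53 48 (.dbl 61 1 57))) (.nv (.thr 11 56 (.thr 43 40 (.thr 23 3 (.thr 27 59 (.dbl 31 16 19))))) (.nv (.thr 58 10 (.thr 48 53 (.dbl 56 11 60))) (.rp 58 (.thr 61 1 (.thr 60 62 (.dbl 56 11 48))) (.rp 28 (.str 19 (.nv (.thr 56 11 (.thr 48 60 (.dbl 58 10 53))) (.nv (.thr 16 31 (.thr 17 18 (.dbl 1 33 61))) .nd))) (.rp 19 (.str 28 (.nv (.thr 61 1 (.thr 53 57 (.dbl 58 10 48))) (.nv (.thr 16 31 (.thr 24 20 (.thr 40 43 (.dbl 56 8 11)))) (.nv (.thr 58 10 (.thr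 48 53 (.dbl 56 11 60))) .nd)))) .nd))))))) (.rp 11 (.thr 58 10 (.thr 48 53 (.thr 60 56 (.dbl 61 1 62)))) .nd))))))))))) .nd))))))))))))) (.rp 24 (.thr 43 40 (.thr 10 58 (.thr 11 56 (.thr 8 9 (.dbl 59 25 27))))) (.rp 11 (.thr 10 58 (.thr 1 61 (.str 38 (.nv (.thr 4 55 (.thr 16 31 (.thr 34 46 (.thr 50 14 (.thr 18 2 (.thr 17 19 (.thr 33 49 (.dbl 35 32 44)))))))) (.nv (.thr 16 31 (.thr 35 44 (.thr 34 46 (.thr 33 32 (.thr 17 49 (.thr 18 19 (.dbl 50 2 14))))))) (.nv (.thr 4 55 (.thr 35 44 (.thr 34 46 (.thr 33 32 (.thr 16 31 (.thr 50 14 (.thr 18 2 (.dbl 17 19 49)))))))) (.rp 52 (.str 7 (.nv (.thr 35 44 (.thr 43 40 (.thr 39 47 (.dbl 55 4 23)))) (.nv (.thr 4 55 (.thr 6 5 (.dbl 14 2 50))) (.rp 55 (.thr 14 50 (.thr 6 2 (.thr 5 4 (.thr 9 13 (.thr 12 3 (.dbl 25 51 57)))))) (.rp 4 (.thr 43 40 (.thr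 35 44 (.thr 39 47 (.thr 31 16 (.thr 23 55 (.thr 19 27 (.dbl 3 51 63))))))) .nd))))) (.rp 50 (.thr 43 40 (.thr 35 44 (.thr 47 39 (.thr 31 16 (.thr 55 4 (.thr 63 15 (.thr 3 23 (.dbl 51 19 59)))))))) (.rp 49 (.thr 43 40 (.thr 35 44 (.thr 47 39 (.thr 31 16 (.thr 55 4 (.thr 63 15 (.thr 3 23 (.dbl 51 19 59)))))))) (.rp 46 (.thr 43 40 (.thr 35 44 (.thr 47 39 (.thr 31 16 (.thr 55 4 (.thr 63 15 (.thr 3 23 (.dbl 51 19 59)))))))) (.rp 44 (.thr 34 46 (.thr 16 31 (.thr 50 14 (.thr 18 2 (.thr 17 19 (.thr 25 29 (.thr 49 33 (.dbl 51 12 48)))))))) (.rp 35 (.thr 34 46 (.thr 16 31 (.thr 50 14 (.thr 18 2 (.thr 17 19 (.thr 25 29 (.thr 49 33 (.dbl 51 12 48)))))))) (.rp 34 (.thr 43 40 (.thr 35 44 (.thr 47 39 (.thr 31 16 (.thr 55 4 (.thr 63 15 (.thr 3 23 (.dbl 51 19 59)))))))) (.rp 33 (.thr 43 40 (.thr 35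 44 (.thr 47 39 (.thr 31 16 (.thr 55 4 (.thr 63 15 (.thr 3 23 (.dbl 51 19 59)))))))) (.rp 32 (.thr 34 46 (.thr 16 31 (.thr 50 14 (.thr 18 2 (.thr 17 19 (.thr 25 29 (.thr 49 33 (.dbl 51 12 48)))))))) (.rp 31 (.thr 34 46 (.thr 35 44 (.thr 33 32 (.thr 49 17 (.thr 50 14 (.thr 18 2 (.dbl 48 3 51))))))) (.rp 19 (.thr 34 46 (.thr 35 44 (.thr 33 32 (.thr 49 17 (.thr 50 14 (.thr 18 2 (.dbl 48 3 51))))))) (.rp 18 (.thr 43 40 (.thr 35 44 (.thr 47 39 (.thr 31 16 (.thr 55 4 (.thr 63 15 (.thr 3 23 (.dbl 51 19 59)))))))) (.rp 17 (.thr 43 40 (.thr 35 44 (.thr 47 39 (.thr 31 16 (.thr 55 4 (.thr 63 15 (.thr 3 23 (.dbl 51 19 59)))))))) (.rp 16 (.thr 34 46 (.thr 35 44 (.thr 50 14 (.thr 18 2 (.thr 33 32 (.thr 48 3 (.dbl 49 17 51))))))) (.rp 14 (.thr 43 40 (.thr 35 44 (.thr 47 39 (.thr 31 16 (.thr 55 4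 (.thr 63 15 (.thr 3 23 (.dbl 51 19 59)))))))) (.rp 7 (.str 52 (.nv (.thr 4 55 (.thr 44 35 (.thr 36 20 (.dbl 40 32 43)))) (.rp 55 (.thr 35 44 (.thr 34 46 (.thr 33 32 (.thr 49 17 (.thr 50 14 (.thr 18 2 (.dbl 48 3 51))))))) (.rp 44 (.thr 40 43 (.thr 4 55 (.thr 20 36 (.thr 16 31 (.thr 24 28 (.thr 8 56 (.dbl 25 27 59))))))) (.rp 43 (.thr 35 44 (.thr 34 46 (.thr 33 32 (.thr 49 17 (.thr 50 14 (.thr 18 2 (.dbl 48 3 51))))))) (.rp 40 (.thr 35 44 (.thr 34 46 (.thr 50 14 (.thr 18 2 (.thr 16 31 (.thr 17 19 (.dbl 33 32 49))))))) (.rp 39 (.thr 35 44 (.thr 34 46 (.thr 33 32 (.thr 49 17 (.thr 50 14 (.thr 18 2 (.dbl 48 3 51))))))) (.rp 36 (.thr 35 44 (.thr 34 46 (.thr 50 14 (.thr 18 2 (.thr 16 31 (.thr 17 19 (.dbl 33 32 49))))))) (.rp 35 (.thr 40 43 (.thr 4 55 (.thr 20 36 (.thr 16 31 (.thr 24 28 (.thr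 8 56 (.dbl 25 27 59))))))) (.rp 32 (.thr 40 43 (.thr 4 55 (.thr 20 36 (.thr 16 31 (.thr 24 28 (.thr 8 56 (.dbl 25 27 59))))))) (.rp 23 (.thr 40 43 (.thr 44 35 (.thr 36 32 (.dbl 4 20 55)))) (.rp 20 (.thr 35 44 (.thr 34 46 (.thr 33 32 (.thr 49 17 (.thr 50 14 (.thr 18 2 (.dbl 48 3 51))))))) (.rp 15 (.str 3 (.nv (.thr 14 50 (.thr 6 2 (.thr 12 9 (.thr 35 44 (.dbl 51 19 25))))) (.nv (.thr 4 55 (.thr 44 35 (.thr 36 20 (.dbl 40 32 43)))) (.rp 44 (.thr 43 40 (.thr 55 4 (.thr 46 34 (.thr 63 23 (.thr 51 59 (.dbl 12 25 29)))))) (.rp 35 (.thr 43 40 (.thr 55 4 (.thr 46 34 (.thr 63 23 (.thr 51 59 (.dbl 12 25 29)))))) .nd))))) (.rp 4 (.thr 35 44 (.thr 34 46 (.thr 33 32 (.thr 49 17 (.thr 50 14 (.thr 18 2 (.dbl 48 3 51))))))) (.rp 3 (.str 15 (.nv (.thr 14 50 (.thr 12 13 (.thr 31 16 (.thr 63 47 (.dbl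 46 29 34))))) (.nv (.thr 4 55 (.thr 44 35 (.thr 36 20 (.dbl 40 32 43)))) (.rp 32 (.thr 46 34 (.thr 14 50 (.thr 12 13 (.thr 29 63 (.dbl 25 17 51))))) .nd)))) .nd))))))))))))))) (.rp 2 (.thr 43 40 (.thr 35 44 (.thr 47 39 (.thr 31 16 (.thr 55 4 (.thr 63 15 (.thr 3 23 (.dbl 51 19 59)))))))) .nd))))))))))))))))))))))) (.rp 10 (.thr 31 16 (.str 15 (.nv (.thr 11 56 (.thr 7 3 (.thr 43 40 (.thr 27 59 (.thr 23 19 (.dbl 39 51 55)))))) (.nv (.thr 11 56 (.thr 43 40 (.thr 27 59 (.thr 39 51 (.dbl 47 35 63))))) (.nv (.thr 63 47 (.thr 43 40 (.thr 3 23 (.dbl 11 7 56)))) (.rp 60 (.thr 63 47 (.thr 40 43 (.thr 56 11 (.thr 8 24 (.thr 59 25 (.thr 55 51 (.thr 38 4 (.thr 50 14 (.thr 58 57 (.thr 54 62 (.dbl 53 48 52))))))))))) (.rp 56 (.thr 47 63 (.thr 43 40 (.thr 39 35 (.thr 27 51 (.thr 59 11 (.dbl 25 8 24))))))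 (.rp 52 (.str 7 (.nv (.dbl 11 3 56) (.rp 56 (.thr 63 47 (.thr 43 40 (.dbl 3 11 23))) (.rp 48 (.str 32 (.nv (.dbl 11 3 56) (.rp 60 (.thr 56 11 (.thr 40 43 (.thr 44 36 (.thr 38 35 (.thr 46 34 (.dbl 47 45 63)))))) (.rp 56 (.str 60 (.nv (.thr 30 45 (.thr 40 43 (.thr 44 36 (.dbl 28 12 29)))) (.nv (.thr 63 47 (.dbl 61 1 62)) .nd))) (.rp 11 (.thr 40 43 (.thr 44 36 (.thr 38 35 (.thr 46 34 (.dbl 47 45 63))))) (.rp 3 (.thr 40 43 (.thr 44 36 (.thr 38 35 (.thr 46 34 (.dbl 47 45 63))))) .nd)))))) (.rp 32 (.str 48 (.nv (.dbl 11 3 56) (.rp 56 (.thr 3 11 (.thr 63 47 (.dbl 43 23 40))) (.rp 11 (.thr 63 47 (.thr 43 40 (.thr 23 3 (.thr 39 55 (.dbl 27 19 51))))) (.rp 3 (.thr 47 63 (.thr 11 56 (.thr 43 40 (.thr 27 59 (.dbl 39 35 51))))) .nd))))) (.rp 11 (.thr 47 63 (.thr 43 40 (.thr 39 35 (.thr 23 55 (.dbl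 27 19 51))))) (.rp 3 (.thr 47 63 (.thr 43 40 (.thr 11 56 (.thr 27 59 (.dbl 39 35 51))))) .nd))))))) (.rp 48 (.str 32 (.nv (.thr 11 56 (.thr 7 3 (.thr 43 40 (.thr 27 59 (.thr 23 19 (.dbl 39 51 55)))))) (.nv (.thr 40 43 (.thr 44 36 (.thr 38 35 (.thr 46 34 (.dbl 47 45 63))))) (.nv (.thr 43 40 (.thr 63 47 (.thr 3 23 (.dbl 11 7 56)))) (.rp 52 (.str 7 (.nv (.dbl 11 3 56) (.rp 60 (.thr 56 11 (.thr 40 43 (.thr 44 36 (.thr 38 35 (.thr 46 34 (.dbl 47 45 63)))))) (.rp 56 (.str 60 (.nv (.thr 30 45 (.thr 40 43 (.thr 44 36 (.dbl 28 12 29)))) (.nv (.thr 63 47 (.dbl 61 1 62)) .nd))) (.rp 11 (.thr 40 43 (.thr 44 36 (.thr 38 35 (.thr 46 34 (.dbl 47 45 63))))) (.rp 3 (.thr 40 43 (.thr 44 36 (.thr 38 35 (.thr 46 34 (.dbl 47 45 63))))) .nd)))))) (.rp 43 (.thr 61 1 (.thr 63 47 (.thr 60 62 (.thr 30 45 (.thr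 29 28 (.thr 25 17 (.thr 57 9 (.thr 51 54 (.dbl 27 24 39))))))))) (.rp 40 (.thr 61 1 (.thr 63 47 (.thr 60 62 (.thr 30 45 (.thr 29 28 (.thr 25 17 (.thr 57 9 (.thr 51 54 (.dbl 27 24 39))))))))) (.rp 7 (.str 52 (.nv (.thr 43 40 (.thr 63 47 (.thr 11 56 (.thr 27 59 (.dbl 23 3 19))))) (.nv (.thr 40 43 (.thr 44 36 (.thr 38 35 (.thr 46 34 (.dbl 47 45 63))))) (.rp 63 (.thr 40 43 (.thr 44 36 (.thr 38 35 (.thr 46 34 (.thr 14 50 (.thr 30 62 (.dbl 45 47 60))))))) (.rp 47 (.thr 40 43 (.thr 36 44 (.thr 4 20 (.thr 38 55 (.thr 46 34 (.thr 14 50 (.thr 30 62 (.thr 12 13 (.dbl 29 28 63))))))))) (.rp 43 (.thr 63 47 (.thr 61 1 (.thr 60 62 (.thr 45 30 (.thr 29 13 (.thr 25 17 (.thr 27 24 (.thr 59 8 (.dbl 51 39 55))))))))) (.rp 40 (.thr 63 47 (.thr 61 1 (.thr 60 62 (.thr 45 30 (.thr 29 13 (.thr 25 17 (.thr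 27 24 (.thr 51 39 (.dbl 59 8 55))))))))) (.rp 24 (.thr 43 40 (.thr 63 47 (.thr 23 3 (.thr 27 19 (.dbl 11 56 59))))) .nd)))))))) .nd)))))))) (.rp 43 (.thr 63 47 (.thr 61 1 (.thr 60 62 (.thr 30 45 (.thr 29 28 (.thr 25 17 (.thr 57 9 (.thr 51 54 (.dbl 12 38 46))))))))) (.rp 40 (.thr 63 47 (.thr 61 1 (.thr 60 62 (.thr 30 45 (.thr 29 28 (.thr 25 17 (.thr 57 9 (.thr 51 54 (.dbl 12 38 46))))))))) (.rp 32 (.str 48 (.nv (.thr 11 56 (.thr 43 40 (.thr 27 59 (.thr 19 23 (.thr 51 39 (.dbl 3 7 35)))))) (.nv (.thr 61 1 (.thr 63 47 (.thr 60 62 (.dbl 56 11 52)))) (.rp 60 (.thr 56 11 (.thr 40 43 (.thr 8 24 (.thr 59 25 (.thr 58 57 (.dbl 63 47 53)))))) (.rp 56 (.thr 43 40 (.thr 63 47 (.thr 23 3 (.thr 27 19 (.thr 59 11 (.dbl 25 8 24)))))) (.rp 52 (.str 7 (.nv (.dbl 11 3 56) (.rp 56 (.thr 3 11 (.thr 63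 47 (.dbl 43 23 40))) (.rp 11 (.thr 63 47 (.thr 43 40 (.thr 23 3 (.thr 39 55 (.dbl 27 19 51))))) (.rp 3 (.thr 47 63 (.thr 11 56 (.thr 43 40 (.thr 27 59 (.dbl 39 35 51))))) .nd))))) (.rp 11 (.thr 43 40 (.thr 63 47 (.thr 23 3 (.thr 27 19 (.thr 25 24 (.thr 51 39 (.dbl 59 8 55))))))) (.rp 7 (.str 52 (.nv (.dbl 56 11 60) (.rp 60 (.thr 63 47 (.thr 40 43 (.thr 56 11 (.thr 8 24 (.thr 59 25 (.dbl 58 53 57)))))) (.rp 56 (.thr 63 47 (.thr 43 40 (.thr 23 3 (.thr 27 19 (.thr 59 11 (.dbl 25 8 24)))))) (.rp 11 (.thr 63 47 (.thr 60 56 (.dbl 61 1 62))) .nd))))) (.rp 3 (.thr 11 56 (.thr 43 40 (.thr 27 59 (.thr 47 63 (.dbl 39 35 51))))) .nd))))))))) (.rp 20 (.thr 63 47 (.thr 11 56 (.thr 61 1 (.thr 60 62 (.thr 43 40 (.dbl 3 7 23)))))) (.rp 11 (.thr 63 47 (.thr 43 40 (.thr 23 3 (.thr 27 19 (.thr 25 24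 (.thr 51 39 (.dbl 59 8 55))))))) (.rp 7 (.str 52 (.nv (.thr 11 56 (.thr 43 40 (.thr 27 59 (.thr 39 51 (.dbl 47 35 63))))) (.nv (.thr 61 1 (.thr 63 47 (.thr 60 62 (.dbl 56 11 48)))) (.rp 63 (.thr 56 11 (.thr 40 43 (.thr 8 24 (.thr 59 25 (.thr 57 58 (.thr 48 60 (.thr 61 1 (.thr 49 53 (.thr 50 51 (.thr 38 14 (.thr 4 55 (.thr 44 35 (.dbl 36 20 32))))))))))))) (.rp 60 (.thr 63 47 (.thr 56 11 (.thr 40 43 (.thr 8 24 (.thr 59 25 (.thr 57 58 (.thr 61 1 (.thr 55 51 (.dbl 53 49 54))))))))) (.rp 56 (.thr 47 63 (.thr 43 40 (.thr 39 35 (.thr 27 51 (.thr 59 11 (.dbl 25 8 24)))))) (.rp 48 (.str 32 (.nv (.thr 43 40 (.thr 63 47 (.thr 11 56 (.thr 27 59 (.dbl 23 3 19))))) (.nv (.thr 40 43 (.thr 44 36 (.thr 38 35 (.thr 46 34 (.dbl 47 45 63))))) (.rp 63 (.thr 40 43 (.thr 44 36 (.thr 38 35 (.thr 46 34 (.thr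 14 50 (.thr 30 62 (.dbl 45 47 60))))))) (.rp 47 (.thr 40 43 (.thr 36 44 (.thr 4 20 (.thr 38 55 (.thr 46 34 (.thr 14 50 (.thr 30 62 (.thr 12 13 (.dbl 29 28 63))))))))) (.rp 43 (.thr 63 47 (.thr 61 1 (.thr 60 62 (.thr 45 30 (.thr 29 13 (.thr 25 17 (.thr 27 24 (.thr 59 8 (.dbl 51 39 55))))))))) (.rp 40 (.thr 63 47 (.thr 61 1 (.thr 60 62 (.thr 45 30 (.thr 29 13 (.thr 25 17 (.thr 27 24 (.thr 51 39 (.dbl 59 8 55))))))))) (.rp 24 (.thr 43 40 (.thr 63 47 (.thr 23 3 (.thr 27 19 (.dbl 11 56 59))))) .nd)))))))) (.rp 47 (.thr 56 11 (.thr 40 43 (.thr 8 24 (.thr 59 25 (.thr 57 58 (.thr 48 60 (.thr 61 1 (.thr 49 53 (.thr 51 50 (.thr 55 63 (.thr 38 4 (.thr 35 44 (.thr 27 39 (.dbl 19 3 23)))))))))))))) (.rp 32 (.str 48 (.nv (.dbl 56 11 60) (.rp 60 (.thr 63 47 (.thr 40 43 (.thr 56 11 (.thr 8 24 (.thr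 59 25 (.dbl 58 53 57)))))) (.rp 56 (.thr 63 47 (.thr 43 40 (.thr 23 3 (.thr 27 19 (.thr 59 11 (.dbl 25 8 24)))))) (.rp 11 (.thr 63 47 (.thr 60 56 (.dbl 61 1 62))) .nd))))) (.rp 11 (.thr 63 47 (.thr 43 40 (.thr 23 3 (.thr 27 19 (.thr 25 24 (.thr 51 39 (.dbl 59 8 55))))))) .nd)))))))))) .nd))))))))))))))) (.rp 8 (.thr 40 43 (.thr 16 31 (.thr 1 61 (.thr 10 58 (.str 38 (.nv (.thr 4 55 (.thr 34 46 (.thr 35 44 (.thr 33 32 (.thr 49 17 (.thr 50 14 (.thr 18 2 (.dbl 48 3 51)))))))) (.nv (.thr 4 55 (.thr 34 46 (.thr 50 14 (.thr 18 2 (.thr 17 19 (.thr 49 33 (.thr 51 48 (.dbl 25 12 29)))))))) (.nv (.thr 4 55 (.thr 34 46 (.thr 35 44 (.thr 33 32 (.thr 17 49 (.thr 19 18 (.thr 51 3 (.dbl 25 12 29)))))))) (.nv (.thr 35 44 (.thr 34 46 (.thr 33 32 (.thr 50 14 (.thr 18 2 (.dbl 17 19 49)))))) (.rp 52 (.str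 7 (.nv (.thr 4 55 (.thr 6 5 (.dbl 14 2 50))) (.rp 55 (.thr 50 14 (.thr 34 46 (.thr 18 2 (.thr 17 19 (.thr 33 49 (.dbl 35 32 44)))))) (.rp 54 (.thr 50 14 (.thr 34 46 (.thr 18 2 (.thr 17 19 (.thr 33 49 (.dbl 35 32 44)))))) (.rp 53 (.thr 14 50 (.thr 6 2 (.dbl 4 5 55))) (.rp 50 (.thr 11 56 (.thr 4 55 (.thr 6 5 (.thr 3 15 (.thr 12 9 (.thr 51 25 (.dbl 35 19 44))))))) (.rp 14 (.thr 11 56 (.thr 4 55 (.thr 6 5 (.thr 3 15 (.thr 12 9 (.thr 51 25 (.dbl 35 19 44))))))) (.rp 6 (.thr 50 14 (.thr 34 46 (.thr 18 2 (.thr 17 19 (.thr 33 49 (.dbl 35 32 44)))))) (.rp 5 (.thr 50 14 (.thr 34 46 (.thr 18 2 (.thr 17 19 (.thr 33 49 (.dbl 35 32 44)))))) (.rp 4 (.str 12 (.nv (.thr 14 50 (.thr 6 2 (.thr 3 9 (.dbl 15 11 13)))) (.nv (.thr 44 35 (.thr 28 60 (.thr 24 20 (.dbl 36 32 48)))) (.rp 62 (.thr 11 56 (.thr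 15 3 (.dbl 14 13 50))) (.rp 36 (.str 20 (.nv (.thr 14 50 (.thr 15 13 (.dbl 11 3 56))) (.nv (.thr 28 24 (.dbl 44 35 60)) .nd))) (.rp 20 (.str 36 (.nv (.thr 24 48 (.dbl 25 27 51)) (.nv (.dbl 44 32 35) .nd))) .nd)))))) (.rp 2 (.thr 11 56 (.thr 4 55 (.thr 5 6 (.thr 15 3 (.thr 14 50 (.dbl 13 9 12)))))) .nd))))))))))) (.rp 49 (.thr 50 14 (.thr 34 46 (.thr 18 2 (.thr 19 17 (.thr 35 44 (.thr 33 32 (.dbl 3 48 51))))))) (.rp 46 (.thr 11 56 (.thr 4 55 (.thr 14 50 (.thr 6 2 (.thr 7 5 (.thr 3 15 (.thr 12 9 (.thr 51 25 (.dbl 35 19 44))))))))) (.rp 34 (.thr 35 44 (.str 51 (.nv (.thr 12 25 (.thr 14 50 (.thr 13 15 (.thr 9 5 (.dbl 3 6 19))))) (.nv (.thr 4 55 (.thr 25 12 (.thr 17 29 (.thr 49 33 (.dbl 50 14 48))))) (.nv (.thr 4 55 (.thr 25 12 (.thr 17 29 (.dbl 19 3 18)))) (.nv (.thr 19 3 (.thr 17 18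 (.thr 50 14 (.dbl 49 33 48)))) (.rp 63 (.thr 3 19 (.thr 11 56 (.thr 4 55 (.thr 25 12 (.thr 27 24 (.dbl 15 7 39)))))) (.rp 52 (.str 7 (.nv (.thr 12 25 (.thr 11 56 (.dbl 3 15 19))) (.nv (.thr 4 55 (.thr 6 5 (.dbl 14 2 50))) .nd))) (.rp 12 (.thr 4 55 (.thr 19 3 (.thr 17 18 (.thr 50 14 (.dbl 49 33 48))))) (.rp 7 (.str 52 (.nv (.thr 50 14 (.thr 49 48 (.thr 17 33 (.dbl 19 3 18)))) (.nv (.thr 25 12 (.thr 4 55 (.thr 20 36 (.dbl 24 27 28)))) (.rp 12 (.thr 4 55 (.thr 56 11 (.thr 50 14 (.dbl 48 49 60)))) (.rp 4 (.thr 12 25 (.thr 56 11 (.thr 48 60 (.dbl 50 14 49)))) .nd))))) .nd)))))))))) (.rp 33 (.thr 11 56 (.thr 4 55 (.thr 14 50 (.thr 6 2 (.thr 7 5 (.thr 3 15 (.thr 12 9 (.thr 51 25 (.dbl 35 19 44))))))))) (.rp 18 (.thr 56 11 (.thr 4 55 (.thr 50 14 (.thr 44 35 (.thr 36 32 (.thr 52 20 (.thr 48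 60 (.thr 51 49 (.dbl 12 24 25))))))))) (.rp 17 (.thr 11 56 (.thr 4 55 (.thr 14 50 (.thr 6 2 (.thr 7 5 (.thr 3 15 (.thr 12 9 (.thr 51 25 (.dbl 35 19 44))))))))) (.rp 7 (.str 52 (.nv (.thr 4 55 (.thr 36 20 (.dbl 44 32 35))) (.rp 55 (.thr 35 44 (.thr 34 46 (.thr 33 32 (.thr 17 49 (.thr 18 19 (.dbl 50 2 14)))))) (.rp 44 (.thr 56 11 (.thr 4 55 (.thr 36 20 (.thr 48 60 (.thr 12 24 (.thr 51 25 (.dbl 50 14 49))))))) (.rp 39 (.thr 35 44 (.thr 34 46 (.thr 33 32 (.thr 17 49 (.thr 18 19 (.dbl 50 2 14)))))) (.rp 36 (.thr 35 44 (.thr 34 46 (.thr 33 32 (.thr 17 49 (.thr 18 19 (.dbl 50 2 14)))))) (.rp 35 (.thr 56 11 (.thr 4 55 (.thr 36 20 (.thr 48 60 (.thr 12 24 (.thr 51 25 (.dbl 50 14 49))))))) (.rp 32 (.thr 56 11 (.thr 4 55 (.thr 20 36 (.thr 60 48 (.thr 44 35 (.dbl 28 12 24)))))) (.rp 23 (.thr 44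 35 (.thr 36 32 (.dbl 4 20 55))) (.rp 20 (.thr 35 44 (.thr 34 46 (.thr 33 32 (.thr 17 49 (.thr 18 19 (.dbl 50 2 14)))))) (.rp 4 (.str 12 (.nv (.thr 44 35 (.thr 36 32 (.thr 48 24 (.dbl 60 28 56)))) (.nv (.thr 14 50 (.thr 13 15 (.thr 9 5 (.dbl 6 2 3)))) (.rp 47 (.thr 56 11 (.thr 60 48 (.dbl 44 28 35))) (.rp 6 (.str 5 (.nv (.thr 44 35 (.thr 60 28 (.dbl 56 11 48))) (.nv (.thr 13 9 (.dbl 14 15 50)) .nd))) (.rp 5 (.str 6 (.nv (.thr 9 3 (.dbl 25 51 57)) (.nv (.dbl 14 2 50) .nd))) .nd)))))) .nd))))))))))) (.rp 4 (.str 12 (.nv (.thr 25 51 (.thr 24 27 (.thr 28 20 (.dbl 44 35 60)))) (.nv (.thr 14 50 (.thr 13 15 (.thr 9 5 (.dbl 6 2 3)))) (.rp 52 (.str 7 (.nv (.thr 14 50 (.thr 6 2 (.thr 3 9 (.dbl 15 11 13)))) (.nv (.thr 44 35 (.thr 28 60 (.thr 24 20 (.dbl 36 32 48)))) (.rp 62 (.thr 11 56 (.thr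 15 3 (.dbl 14 13 50))) (.rp 36 (.str 20 (.nv (.thr 14 50 (.thr 15 13 (.dbl 11 3 56))) (.nv (.thr 28 24 (.dbl 44 35 60)) .nd))) (.rp 20 (.str 36 (.nv (.thr 24 48 (.dbl 25 27 51)) (.nv (.dbl 44 32 35) .nd))) .nd)))))) (.rp 15 (.thr 44 35 (.thr 36 32 (.thr 28 60 (.dbl 24 20 48)))) (.rp 7 (.str 52 (.nv (.thr 44 35 (.thr 36 32 (.thr 48 24 (.dbl 60 28 56)))) (.nv (.thr 14 50 (.thr 13 15 (.thr 9 5 (.dbl 6 2 3)))) (.rp 47 (.thr 56 11 (.thr 60 48 (.dbl 44 28 35))) (.rp 6 (.str 5 (.nv (.thr 44 35 (.thr 60 28 (.dbl 56 11 48))) (.nv (.thr 13 9 (.dbl 14 15 50)) .nd))) (.rp 5 (.str 6 (.nv (.thr 9 3 (.dbl 25 51 57)) (.nv (.dbl 14 2 50) .nd))) .nd)))))) .nd)))))) .nd)))))))))))))))))) (.rp 7 (.str 52 (.nv (.thr 40 43 (.thr 56 11 (.thr 8 24 (.thr 58 10 (.dbl 59 25 57))))) (.nv (.thr 43 40 (.thr 11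 56 (.thr 59 27 (.thr 10 58 (.dbl 8 9 25))))) (.rp 59 (.thr 56 11 (.thr 58 10 (.thr 61 1 (.thr 48 60 (.thr 53 63 (.thr 55 54 (.thr 38 4 (.thr 50 14 (.dbl 49 51 57))))))))) (.rp 58 (.thr 40 43 (.thr 56 11 (.thr 24 8 (.thr 48 60 (.thr 16 31 (.thr 20 28 (.dbl 36 4 12))))))) (.rp 56 (.str 50 (.nv (.thr 38 14 (.thr 4 55 (.thr 36 20 (.thr 40 43 (.dbl 44 32 35))))) (.nv (.thr 58 10 (.thr 54 62 (.thr 55 53 (.dbl 38 4 14)))) (.rp 55 (.thr 43 40 (.thr 58 10 (.thr 61 1 (.thr 54 62 (.thr 31 16 (.thr 38 14 (.thr 46 34 (.thr 44 35 (.thr 45 47 (.thr 29 13 (.thr 30 28 (.thr 12 63 (.dbl 25 17 51))))))))))))) (.rp 38 (.thr 58 10 (.thr 61 1 (.thr 54 62 (.thr 53 55 (.thr 48 63 (.dbl 49 51 57)))))) (.rp 14 (.thr 58 10 (.thr 61 1 (.thr 54 62 (.thr 53 55 (.thr 48 63 (.dbl 49 51 57)))))) (.rp 4 (.thr 58 10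 (.thr 61 1 (.thr 54 62 (.thr 53 55 (.thr 48 63 (.dbl 49 51 57)))))) .nd))))))) (.rp 43 (.thr 56 11 (.thr 58 10 (.thr 61 1 (.thr 48 60 (.thr 53 63 (.dbl 57 49 59)))))) (.rp 40 (.thr 56 11 (.thr 58 10 (.thr 57 59 (.thr 61 1 (.thr 53 49 (.dbl 48 60 63)))))) (.rp 27 (.thr 40 43 (.thr 58 10 (.thr 56 11 (.thr 59 57 (.dbl 8 24 25))))) (.rp 25 (.thr 56 11 (.thr 58 10 (.thr 57 59 (.thr 61 1 (.thr 48 60 (.dbl 53 49 63)))))) (.rp 24 (.thr 43 40 (.thr 10 58 (.thr 11 56 (.thr 8 9 (.dbl 59 25 27))))) (.rp 11 (.str 50 (.nv (.thr 38 14 (.thr 4 55 (.thr 36 20 (.thr 40 43 (.dbl 44 32 35))))) (.nv (.thr 58 10 (.thr 54 62 (.thr 55 53 (.dbl 38 4 14)))) (.rp 55 (.thr 40 43 (.thr 58 10 (.thr 61 1 (.thr 62 54 (.thr 60 63 (.thr 56 48 (.thr 59 57 (.dbl 8 24 25)))))))) (.rp 38 (.thr 58 10 (.thr 61 1 (.thr 54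 62 (.thr 53 55 (.thr 48 63 (.dbl 49 51 57)))))) (.rp 15 (.str 3 (.nv (.thr 16 31 (.thr 38 14 (.thr 35 44 (.thr 19 51 (.thr 18 17 (.dbl 34 2 46)))))) (.nv (.thr 38 14 (.thr 55 4 (.thr 54 53 (.dbl 58 10 62)))) (.rp 38 (.thr 43 40 (.thr 63 23 (.thr 61 1 (.thr 60 62 (.thr 48 56 (.dbl 58 10 53)))))) (.rp 14 (.thr 43 40 (.thr 63 23 (.thr 61 1 (.thr 60 62 (.thr 48 56 (.dbl 58 10 53)))))) (.rp 13 (.thr 43 40 (.thr 63 23 (.thr 61 1 (.thr 60 62 (.thr 48 56 (.dbl 58 10 53)))))) (.rp 12 (.thr 43 40 (.thr 63 23 (.thr 61 1 (.thr 60 62 (.thr 48 56 (.dbl 58 10 53)))))) (.rp 10 (.str 5 (.nv (.thr 1 61 (.thr 9 13 (.thr 25 57 (.thr 27 24 (.thr 31 16 (.thr 23 19 (.dbl 43 40 63))))))) (.nv (.thr 40 43 (.thr 38 14 (.thr 44 35 (.thr 36 32 (.dbl 4 20 55))))) (.nv (.thr 1 61 (.thr 9 13 (.thr 25 57 (.thr 38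 14 (.dbl 12 6 51))))) (.rp 14 (.thr 43 40 (.thr 23 63 (.thr 31 16 (.thr 27 19 (.thr 25 24 (.thr 9 57 (.dbl 1 13 61))))))) (.rp 13 (.thr 43 40 (.thr 23 63 (.thr 31 16 (.thr 19 27 (.thr 35 51 (.thr 39 47 (.dbl 38 14 44))))))) (.rp 12 (.thr 43 40 (.thr 23 63 (.thr 31 16 (.thr 19 27 (.thr 35 51 (.thr 39 47 (.dbl 38 14 44))))))) (.rp 9 (.str 8 (.nv (.thr 38 14 (.thr 34 46 (.thr 35 44 (.thr 33 32 (.dbl 18 2 48))))) (.nv (.thr 40 43 (.thr 24 56 (.dbl 25 27 59))) (.rp 40 (.thr 25 59 (.thr 38 14 (.thr 35 44 (.dbl 51 12 19)))) .nd)))) (.rp 8 (.str 9 (.nv (.thr 12 6 (.thr 25 57 (.dbl 38 14 51))) (.nv (.dbl 1 13 61) (.rp 12 (.str 4 (.nv (.dbl 1 13 61) (.nv (.dbl 38 14 55) (.rp 14 (.thr 13 1 (.thr 25 57 (.thr 24 27 (.thr 20 36 (.dbl 16 28 31))))) (.rp 13 (.thr 14 38 (.thr 25 57 (.thr 24 27 (.thr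 16 31 (.dbl 20 28 36))))) .nd))))) .nd)))) .nd))))))))) (.rp 5 (.thr 10 58 (.thr 40 43 (.thr 38 14 (.thr 4 55 (.thr 36 20 (.dbl 44 32 35)))))) .nd))))))))) (.rp 14 (.thr 58 10 (.thr 61 1 (.thr 54 62 (.thr 53 55 (.thr 48 63 (.dbl 49 51 57)))))) (.rp 4 (.thr 58 10 (.thr 61 1 (.thr 54 62 (.thr 53 55 (.thr 48 63 (.dbl 49 51 57)))))) (.rp 3 (.str 15 (.nv (.thr 31 16 (.thr 58 10 (.thr 54 62 (.thr 53 55 (.dbl 63 47 48))))) (.nv (.thr 1 61 (.thr 31 16 (.thr 38 14 (.thr 35 44 (.thr 43 40 (.dbl 47 39 63)))))) (.nv (.thr 58 10 (.thr 54 62 (.thr 55 53 (.dbl 38 4 14)))) (.rp 1 (.str 2 (.nv (.thr 34 18 (.dbl 38 14 46)) (.nv (.thr 10 58 (.dbl 14 6 38)) (.rp 38 (.thr 58 10 (.thr 54 62 (.thr 31 16 (.thr 63 47 (.dbl 53 48 55))))) (.rp 14 (.thr 58 10 (.thr 34 18 (.thr 38 46 (.thr 55 4 (.dbl 54 53 62)))))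 .nd))))) .nd))))) .nd))))))))) (.rp 10 (.thr 40 43 (.thr 56 11 (.thr 8 24 (.thr 59 25 (.thr 57 58 (.thr 61 1 (.thr 60 48 (.thr 51 54 (.dbl 63 55 62))))))))) (.rp 8 (.thr 16 31 (.thr 40 43 (.thr 11 56 (.str 4 (.nv (.thr 36 20 (.thr 44 32 (.dbl 38 35 55))) (.rp 55 (.thr 58 10 (.thr 36 20 (.thr 44 32 (.thr 38 35 (.thr 50 14 (.thr 62 54 (.thr 61 1 (.thr 60 63 (.thr 12 28 (.thr 48 24 (.dbl 51 25 49))))))))))) (.rp 44 (.thr 20 36 (.thr 24 28 (.thr 25 27 (.thr 57 9 (.thr 61 1 (.thr 53 49 (.dbl 55 38 54))))))) (.rp 38 (.thr 36 20 (.str 54 (.nv (.thr 53 55 (.thr 58 10 (.thr 62 50 (.thr 63 48 (.dbl 61 1 60))))) (.nv (.thr 53 55 (.thr 61 1 (.thr 57 49 (.thr 60 51 (.thr 63 62 (.dbl 58 10 48)))))) (.nv (.thr 58 10 (.thr 61 1 (.thr 62 50 (.thr 63 60 (.dbl 53 48 55))))) (.rp 63 (.thr 53 55 (.thr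 44 32 (.thr 61 1 (.thr 57 49 (.thr 25 9 (.thr 24 27 (.thr 12 48 (.dbl 60 28 51)))))))) (.rp 62 (.thr 58 10 (.thr 53 55 (.thr 61 1 (.thr 57 49 (.thr 25 9 (.thr 24 27 (.dbl 48 12 63))))))) (.rp 61 (.thr 58 10 (.thr 53 55 (.thr 44 32 (.thr 48 63 (.thr 12 24 (.thr 60 28 (.thr 51 57 (.dbl 50 49 62)))))))) (.rp 60 (.thr 58 10 (.thr 53 55 (.thr 50 62 (.thr 61 1 (.thr 49 57 (.dbl 48 51 63)))))) (.rp 58 (.thr 53 55 (.thr 44 32 (.thr 61 1 (.thr 57 49 (.thr 25 9 (.thr 24 27 (.thr 60 51 (.dbl 12 28 48)))))))) (.rp 55 (.thr 58 10 (.thr 44 32 (.thr 62 50 (.thr 61 1 (.thr 60 63 (.thr 12 28 (.thr 24 48 (.thr 25 27 (.dbl 57 9 51))))))))) (.rp 53 (.thr 58 10 (.thr 44 32 (.thr 62 50 (.thr 61 1 (.thr 60 63 (.thr 57 51 (.thr 25 9 (.thr 24 27 (.dbl 12 28 48))))))))) (.rp 50 (.thr 58 10 (.thr 53 55 (.thr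 61 1 (.thr 63 48 (.thr 60 62 (.dbl 57 49 51)))))) (.rp 48 (.thr 58 10 (.thr 53 55 (.thr 62 50 (.thr 61 1 (.thr 60 63 (.dbl 57 49 51)))))) (.rp 10 (.thr 53 55 (.thr 44 32 (.thr 61 1 (.thr 57 49 (.thr 25 9 (.thr 24 27 (.thr 60 51 (.dbl 12 28 48)))))))) (.rp 1 (.thr 58 10 (.thr 53 55 (.thr 44 32 (.thr 50 62 (.thr 48 63 (.thr 51 49 (.thr 60 57 (.dbl 12 24 28)))))))) .nd)))))))))))))))) (.rp 36 (.thr 38 55 (.thr 35 44 (.thr 34 46 (.thr 33 32 (.thr 50 14 (.thr 18 2 (.thr 17 19 (.dbl 1 49 61)))))))) (.rp 35 (.thr 20 36 (.thr 24 28 (.thr 25 27 (.thr 57 9 (.thr 61 1 (.thr 53 49 (.dbl 55 38 54))))))) (.rp 32 (.thr 20 36 (.thr 24 28 (.thr 25 27 (.thr 57 9 (.thr 61 1 (.thr 53 49 (.dbl 55 38 54))))))) (.rp 20 (.thr 38 55 (.thr 35 44 (.thr 34 46 (.thr 33 32 (.thr 50 14 (.thr 18 2 (.thr 17 19 (.dbl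 1 49 61)))))))) .nd)))))))))))) .nd)))))))))))))) .nd))))))))))))))))

theorem w401 : WinAt (6597071863808, 137443147777) :=
  chF (K := []) kn c401 6597071863808 137443147777 37
    [4503737070518400] (by decide +kernel) (by decide +kernel)

/-- A certificate. -/
noncomputable def c402 : Ct := (.str 20 (.nv (.thr 45 33 (.thr 61 1 (.thr 13 29 (.thr 49 25 (.dbl 53 5 57))))) (.nv (.thr 33 45 (.thr 5 53 (.thr 1 61 (.thr 13 9 (.dbl 49 17 25))))) (.rp 61 (.str 44 (.nv (.thr 38 35 (.thr 4 55 (.dbl 36 39 52))) (.nv (.thr 45 33 (.dbl 47 32 46)) (.rp 63 (.str 62 (.nv (.thr 38 35 (.thr 4 55 (.dbl 36 39 52))) (.nv (.thr 45 33 (.dbl 47 32 46)) .nd))) (.rp 62 (.str 63 (.nv (.thr 38 35 (.thr 4 55 (.dbl 36 39 52))) (.nv (.thr 45 33 (.dbl 47 32 46)) .nd))) .nd))))) (.rp 57 (.thr 33 45 (.thr 5 53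 (.thr 1 61 (.thr 49 17 (.dbl 13 9 25))))) (.rp 53 (.str 44 (.nv (.thr 38 35 (.thr 4 55 (.dbl 36 39 52))) (.nv (.thr 45 33 (.dbl 47 32 46)) .nd))) (.rp 49 (.str 44 (.nv (.thr 38 35 (.thr 4 55 (.dbl 36 39 52))) (.nv (.thr 45 33 (.dbl 47 32 46)) .nd))) (.rp 45 (.str 35 (.nv (.thr 38 44 (.thr 36 39 (.dbl 4 52 55))) (.nv (.thr 32 47 (.thr 34 33 (.dbl 38 44 46))) (.rp 47 (.thr 38 44 (.thr 46 34 (.thr 36 39 (.dbl 4 52 55)))) (.rp 46 (.thr 47 32 (.thr 39 43 (.dbl 38 36 44))) (.rp 44 (.thr 1 61 (.thr 5 53 (.thr 13 9 (.thr 49 25 (.thr 33 17 (.dbl 32 34 47)))))) (.rp 38 (.thr 32 47 (.thr 33 34 (.thr 1 61 (.thr 5 53 (.thr 13 9 (.dbl 49 17 25)))))) (.rp 30 (.str 15 (.nv (.thr 26 48 (.thr 38 44 (.thr 46 34 (.thr 4 55 (.dbl 36 39 52))))) (.nv (.thr 47 32 (.thr 31 63 (.dbl 26 16 48))) (.nv (.thr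 32 47 (.thr 34 33 (.dbl 38 44 46))) (.rp 44 (.thr 1 61 (.thr 5 53 (.thr 13 9 (.thr 49 25 (.thr 33 17 (.dbl 32 34 47)))))) (.rp 32 (.thr 38 44 (.thr 36 39 (.dbl 4 52 55))) (.rp 26 (.str 18 (.nv (.thr 38 44 (.thr 36 39 (.dbl 4 52 55))) (.nv (.thr 32 47 (.thr 34 33 (.dbl 38 44 46))) (.rp 47 (.thr 38 44 (.thr 46 34 (.thr 36 39 (.dbl 4 52 55)))) (.rp 46 (.thr 47 32 (.thr 39 43 (.dbl 38 36 44))) (.rp 44 (.thr 1 61 (.thr 5 53 (.thr 13 9 (.thr 49 25 (.thr 33 17 (.dbl 32 34 47)))))) (.rp 38 (.thr 32 47 (.thr 33 34 (.thr 3 48 (.thr 1 61 (.thr 17 49 (.dbl 19 16 51)))))) .nd))))))) .nd))))))) (.rp 15 (.str 30 (.nv (.thr 5 53 (.thr 32 47 (.thr 34 33 (.dbl 38 44 46)))) (.nv (.thr 47 32 (.thr 39 43 (.dbl 38 36 44))) (.rp 47 (.thr 38 44 (.thr 46 34 (.thr 36 39 (.dbl 4 52 55)))) (.rp 44 (.thr 1 61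 (.thr 5 53 (.thr 13 9 (.thr 49 25 (.thr 33 17 (.dbl 32 34 47)))))) (.rp 38 (.thr 32 47 (.thr 33 34 (.thr 1 61 (.thr 5 53 (.thr 13 9 (.dbl 49 17 25)))))) (.rp 32 (.thr 38 44 (.thr 36 39 (.dbl 4 52 55))) (.rp 5 (.str 10 (.nv (.thr 32 47 (.thr 34 33 (.dbl 38 44 46))) (.nv (.thr 47 32 (.thr 39 43 (.dbl 38 36 44))) (.rp 47 (.thr 38 44 (.thr 46 34 (.thr 36 39 (.dbl 4 52 55)))) (.rp 44 (.thr 26 58 (.thr 11 56 (.thr 8 9 (.thr 59 25 (.thr 43 27 (.dbl 47 32 39)))))) (.rp 38 (.thr 47 32 (.thr 43 39 (.thr 26 58 (.thr 11 56 (.thr 8 9 (.dbl 59 25 27)))))) (.rp 32 (.thr 38 44 (.thr 36 39 (.dbl 4 52 55))) .nd))))))) .nd)))))))) .nd))))))))) (.rp 33 (.str 44 (.nv (.thr 47 32 (.thr 46 45 (.dbl 38 34 35))) (.nv (.thr 38 35 (.thr 4 55 (.dbl 36 39 52))) (.rp 38 (.thr 53 5 (.thr 61 1 (.thr 49 57 (.thr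 13 25 (.thr 45 29 (.dbl 47 32 46)))))) (.rp 35 (.thr 53 5 (.thr 61 1 (.thr 49 57 (.thr 13 25 (.thr 45 29 (.dbl 47 32 46)))))) (.rp 34 (.thr 32 47 (.thr 38 35 (.thr 4 55 (.dbl 36 39 52)))) (.rp 32 (.thr 38 35 (.thr 34 46 (.thr 4 55 (.dbl 36 39 52)))) .nd))))))) (.rp 25 (.str 44 (.nv (.thr 38 35 (.thr 4 55 (.dbl 36 39 52))) (.nv (.thr 45 33 (.dbl 47 32 46)) (.rp 28 (.str 19 (.nv (.thr 38 35 (.thr 4 55 (.dbl 36 39 52))) (.nv (.thr 45 33 (.dbl 47 32 46)) .nd))) (.rp 19 (.str 28 (.nv (.thr 38 35 (.thr 4 55 (.dbl 36 39 52))) (.nv (.thr 45 33 (.dbl 47 32 46)) .nd))) .nd))))) (.rp 17 (.thr 45 33 (.thr 53 5 (.thr 61 1 (.thr 49 57 (.dbl 13 25 29))))) (.rp 13 (.str 44 (.nv (.thr 38 35 (.thr 4 55 (.dbl 36 39 52))) (.nv (.thr 45 33 (.dbl 47 32 46)) .nd))) (.rp 5 (.str 26 (.nv (.thr 16 31 (.thr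 24 28 (.thr 25 27 (.thr 29 17 (.thr 45 33 (.dbl 13 49 61)))))) (.nv (.thr 1 61 (.thr 10 58 (.thr 11 56 (.thr 8 9 (.thr 33 45 (.thr 17 49 (.dbl 25 29 59))))))) (.nv (.thr 10 58 (.thr 16 31 (.thr 24 28 (.thr 25 27 (.thr 8 59 (.dbl 11 9 56)))))) (.rp 30 (.thr 45 33 (.thr 61 1 (.thr 13 29 (.thr 49 25 (.thr 57 53 (.thr 56 11 (.dbl 58 10 59))))))) (.rp 29 (.thr 61 1 (.thr 58 10 (.thr 15 48 (.thr 56 11 (.thr 57 59 (.thr 49 53 (.dbl 25 9 13))))))) (.rp 25 (.thr 33 45 (.thr 1 61 (.thr 17 49 (.thr 16 31 (.thr 28 24 (.thr 18 19 (.dbl 48 3 15))))))) (.rp 10 (.thr 15 48 (.thr 45 33 (.thr 61 1 (.thr 16 31 (.thr 24 28 (.thr 25 27 (.dbl 29 13 17))))))) .nd)))))))) (.rp 1 (.str 44 (.nv (.thr 38 35 (.thr 4 55 (.dbl 36 39 52))) (.nv (.thr 45 33 (.dbl 47 32 46)) (.rp 3 (.str 2 (.nv (.thr 38 35 (.thr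 4 55 (.dbl 36 39 52))) (.nv (.thr 47 32 (.dbl 45 33 46)) .nd))) (.rp 2 (.str 3 (.nv (.thr 38 35 (.thr 4 55 (.dbl 36 39 52))) (.nv (.thr 47 32 (.dbl 45 33 46)) .nd))) .nd))))) .nd))))))))))))))

theorem w402 : WinAt (6734510817280, 1152922604122669057) :=
  chF (K := []) kn c402 6734510817280 1152922604122669057 60
    [] (by decide +kernel) (by decide +kernel)

/-- A certificate. -/
noncomputable def c403 : Ct := (.str 37 (.nv (.thr 5 53 (.thr 1 61 (.thr 13 9 (.thr 33 45 (.dbl 49 17 25))))) (.rp 61 (.str 35 (.nv (.thr 47 32 (.thr 39 43 (.dbl 38 36 44))) (.nv (.thr 32 47 (.dbl 33 34 45)) (.rp 60 (.str 20 (.nv (.thr 38 44 (.thr 36 39 (.dbl 4 52 55))) (.nv (.thr 32 47 (.dbl 33 34 45)) (.rp 63 (.str 62 (.nv (.thr 38 44 (.thr 36 39 (.dbl 4 52 55))) (.nv (.thr 32 47 (.dbl 33 34 45)) .nd)))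 (.rp 62 (.str 63 (.nv (.thr 38 44 (.thr 36 39 (.dbl 4 52 55))) (.nv (.thr 32 47 (.dbl 33 34 45)) .nd))) .nd))))) (.rp 47 (.thr 33 45 (.thr 34 32 (.dbl 38 44 46))) (.rp 32 (.thr 45 33 (.thr 38 44 (.thr 36 39 (.thr 53 5 (.thr 34 46 (.thr 4 55 (.thr 20 52 (.str 26 (.nv (.thr 10 58 (.thr 16 31 (.thr 48 15 (.dbl 24 12 28)))) (.nv (.thr 48 15 (.thr 10 58 (.thr 12 24 (.thr 50 14 (.dbl 51 25 49))))) (.nv (.thr 16 31 (.thr 24 28 (.dbl 48 12 15))) (.rp 48 (.thr 16 31 (.thr 24 28 (.thr 25 27 (.thr 59 8 (.thr 57 9 (.dbl 56 11 58)))))) (.rp 24 (.thr 16 31 (.thr 10 58 (.thr 50 14 (.thr 18 2 (.thr 19 17 (.thr 48 15 (.dbl 51 3 49))))))) (.rp 23 (.str 7 (.nv (.thr 15 48 (.thr 16 31 (.dbl 11 3 56))) (.nv (.thr 10 58 (.thr 16 31 (.thr 48 15 (.dbl 24 12 28)))) (.nv (.thr 11 56 (.dbl 15 3 48)) (.rp 48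 (.thr 16 31 (.thr 50 14 (.thr 18 2 (.thr 19 17 (.thr 3 51 (.dbl 11 15 56)))))) (.rp 16 (.thr 48 15 (.thr 10 58 (.thr 12 24 (.thr 50 14 (.dbl 51 25 49))))) (.rp 15 (.thr 10 58 (.thr 16 31 (.thr 24 28 (.thr 12 48 (.dbl 25 27 51))))) .nd))))))) (.rp 15 (.thr 10 58 (.thr 16 31 (.thr 24 28 (.thr 12 48 (.dbl 25 27 51))))) (.rp 12 (.thr 16 31 (.thr 50 14 (.thr 18 2 (.thr 19 17 (.thr 3 51 (.thr 11 56 (.dbl 15 7 48))))))) (.rp 10 (.thr 15 48 (.thr 16 31 (.thr 24 28 (.thr 25 27 (.thr 12 51 (.dbl 13 14 49)))))) (.rp 7 (.str 23 (.nv (.thr 10 58 (.thr 16 31 (.thr 48 15 (.dbl 24 12 28)))) (.nv (.thr 48 15 (.thr 10 58 (.thr 12 24 (.thr 50 14 (.dbl 51 25 49))))) (.nv (.thr 16 31 (.thr 24 28 (.dbl 48 12 15))) (.rp 48 (.thr 16 31 (.thr 24 28 (.thr 25 27 (.thr 59 8 (.thr 57 9 (.dbl 56 11 58)))))) (.rp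 24 (.thr 31 16 (.thr 48 15 (.thr 10 58 (.thr 50 14 (.thr 51 49 (.dbl 19 3 27)))))) (.rp 15 (.thr 10 58 (.thr 16 31 (.thr 24 28 (.thr 12 48 (.dbl 25 27 51))))) (.rp 12 (.thr 10 58 (.thr 11 56 (.thr 8 9 (.thr 59 25 (.thr 27 43 (.dbl 31 16 19)))))) (.rp 10 (.thr 15 48 (.thr 16 31 (.thr 24 28 (.thr 25 27 (.thr 12 51 (.dbl 13 14 49)))))) .nd))))))))) .nd)))))))))))))))))) (.rp 20 (.str 60 (.nv (.thr 47 32 (.thr 39 43 (.dbl 38 36 44))) (.nv (.thr 32 47 (.dbl 33 34 45)) (.rp 47 (.thr 33 45 (.thr 34 32 (.dbl 38 44 46))) (.rp 32 (.thr 44 38 (.thr 45 33 (.thr 47 46 (.thr 15 30 (.thr 31 63 (.dbl 26 16 48)))))) .nd))))) .nd))))))) (.rp 60 .ext (.rp 57 (.thr 33 45 (.thr 1 61 (.thr 5 53 (.thr 49 17 (.dbl 13 9 25))))) (.rp 53 (.thr 45 33 (.str 60 (.nv (.thr 30 15 (.thr 61 1 (.thr 29 13 (.thr 28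 31 (.thr 63 62 (.dbl 12 44 46)))))) (.nv (.thr 61 1 (.thr 29 13 (.thr 63 62 (.thr 46 12 (.dbl 47 32 44))))) (.nv (.thr 15 30 (.thr 47 32 (.thr 31 63 (.dbl 26 16 48)))) (.rp 63 (.thr 61 1 (.thr 29 13 (.thr 47 32 (.thr 44 46 (.thr 28 12 (.dbl 30 15 31)))))) (.rp 44 (.thr 61 1 (.thr 63 62 (.thr 15 30 (.dbl 47 31 32)))) (.rp 15 (.thr 61 1 (.thr 29 13 (.thr 63 62 (.thr 47 32 (.dbl 46 12 44))))) .nd)))))))) (.rp 49 (.str 26 (.nv (.thr 48 15 (.thr 56 11 (.thr 60 52 (.thr 61 1 (.thr 63 62 (.dbl 53 5 58)))))) (.nv (.thr 5 53 (.thr 58 10 (.thr 56 11 (.thr 1 61 (.thr 57 59 (.dbl 9 13 25)))))) (.rp 61 (.thr 53 5 (.thr 45 33 (.thr 58 10 (.thr 15 48 (.thr 32 47 (.thr 16 31 (.thr 60 30 (.thr 56 11 (.thr 57 59 (.thr 9 25 (.thr 54 51 (.thr 50 62 (.thr 55 52 (.dbl 38 4 14)))))))))))))) (.rp 60 (.str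 20 (.nv (.thr 1 61 (.thr 10 58 (.thr 11 56 (.thr 16 31 (.thr 9 8 (.thr 24 28 (.dbl 5 13 53))))))) (.nv (.thr 16 31 (.thr 24 28 (.thr 25 27 (.thr 11 56 (.thr 9 57 (.dbl 8 10 59)))))) (.nv (.thr 5 53 (.thr 58 10 (.thr 56 11 (.thr 1 61 (.thr 57 59 (.dbl 9 13 25)))))) (.rp 61 (.thr 58 10 (.thr 16 31 (.thr 24 28 (.thr 25 27 (.thr 57 9 (.dbl 56 11 59)))))) (.rp 59 (.thr 53 5 (.thr 45 33 (.thr 1 61 (.thr 58 10 (.thr 15 48 (.thr 47 32 (.thr 16 31 (.thr 24 28 (.thr 44 46 (.thr 56 11 (.thr 35 38 (.thr 39 43 (.dbl 27 25 51))))))))))))) (.rp 58 (.thr 53 5 (.thr 45 33 (.thr 1 61 (.thr 47 32 (.thr 44 46 (.thr 16 31 (.thr 24 28 (.thr 15 48 (.thr 56 11 (.thr 35 38 (.thr 39 43 (.dbl 27 25 51)))))))))))) (.rp 57 (.thr 53 5 (.thr 45 33 (.thr 1 61 (.thr 58 10 (.thr 15 48 (.thr 47 32 (.thr 16 31 (.thr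 24 28 (.thr 44 46 (.thr 56 11 (.thr 35 38 (.thr 39 43 (.dbl 27 25 51))))))))))))) (.rp 56 (.thr 53 5 (.thr 45 33 (.thr 1 61 (.thr 10 58 (.thr 47 32 (.thr 44 46 (.thr 16 31 (.thr 24 28 (.thr 48 15 (.thr 12 36 (.thr 25 27 (.dbl 38 35 51)))))))))))) (.rp 53 (.thr 58 10 (.thr 16 31 (.thr 24 28 (.thr 25 27 (.thr 57 9 (.dbl 56 11 59)))))) (.rp 25 (.str 28 (.nv (.dbl 16 24 31) (.rp 31 (.thr 24 16 (.thr 48 15 (.thr 36 12 (.thr 4 52 (.dbl 38 39 55))))) (.rp 24 (.thr 45 33 (.thr 31 16 (.thr 29 30 (.dbl 61 1 13)))) (.rp 16 (.str 44 (.nv (.thr 38 35 (.thr 4 55 (.dbl 36 39 52))) (.nv (.thr 45 33 (.dbl 47 32 46)) (.rp 48 (.thr 32 47 (.thr 33 45 (.dbl 35 34 38))) (.rp 32 (.thr 48 15 (.thr 45 33 (.thr 46 47 (.dbl 38 34 35)))) .nd))))) .nd))))) (.rp 11 (.thr 53 5 (.thr 45 33 (.thr 1 61 (.thr 58 10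 (.thr 15 48 (.thr 47 32 (.thr 16 31 (.thr 24 28 (.thr 44 46 (.thr 35 38 (.thr 39 43 (.dbl 27 25 51)))))))))))) (.rp 10 (.thr 53 5 (.thr 15 48 (.thr 45 33 (.thr 1 61 (.thr 47 32 (.thr 16 31 (.thr 24 28 (.thr 44 46 (.thr 56 11 (.thr 35 38 (.thr 39 43 (.dbl 27 25 51)))))))))))) (.rp 9 (.thr 53 5 (.thr 45 33 (.thr 1 61 (.thr 58 10 (.thr 15 48 (.thr 47 32 (.thr 16 31 (.thr 24 28 (.thr 44 46 (.thr 35 38 (.thr 39 43 (.dbl 27 25 51)))))))))))) (.rp 8 (.thr 53 5 (.thr 45 33 (.thr 1 61 (.thr 58 10 (.thr 15 48 (.thr 47 32 (.thr 16 31 (.thr 24 28 (.thr 44 46 (.thr 35 38 (.thr 39 43 (.dbl 27 25 51)))))))))))) .nd))))))))))))))) (.rp 58 (.thr 53 5 (.thr 45 33 (.thr 1 61 (.thr 47 32 (.thr 44 46 (.thr 16 31 (.thr 15 48 (.thr 60 30 (.thr 28 12 (.thr 24 20 (.thr 25 27 (.thr 57 9 (.thr 29 17 (.thr 8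 59 (.thr 11 56 (.thr 51 54 (.thr 3 7 (.dbl 35 19 38)))))))))))))))))) (.rp 56 (.thr 53 5 (.thr 45 33 (.thr 1 61 (.thr 58 10 (.thr 15 48 (.thr 47 32 (.thr 16 31 (.thr 44 46 (.thr 60 30 (.thr 28 12 (.thr 24 20 (.thr 27 25 (.thr 51 39 (.thr 54 57 (.thr 62 50 (.thr 55 52 (.dbl 38 4 35))))))))))))))))) (.rp 53 (.thr 45 33 (.thr 58 10 (.thr 32 47 (.thr 16 31 (.thr 15 48 (.thr 60 30 (.thr 56 11 (.thr 1 61 (.thr 57 59 (.thr 9 25 (.thr 13 5 (.thr 14 12 (.thr 38 50 (.thr 51 54 (.dbl 39 27 36))))))))))))))) (.rp 20 (.str 60 (.nv (.thr 45 33 (.dbl 15 30 48)) (.nv (.thr 56 11 (.dbl 48 15 52)) (.rp 48 (.thr 5 53 (.thr 58 10 (.thr 56 11 (.thr 1 61 (.thr 57 59 (.dbl 9 13 25)))))) (.rp 15 (.thr 61 1 (.thr 63 62 (.thr 56 11 (.thr 48 52 (.dbl 53 5 58))))) .nd))))) (.rp 11 (.thr 53 5 (.thr 45 33 (.thr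 1 61 (.thr 58 10 (.thr 15 48 (.thr 47 32 (.thr 16 31 (.thr 44 46 (.thr 60 30 (.thr 28 12 (.thr 24 20 (.thr 27 25 (.thr 51 39 (.thr 54 57 (.thr 62 50 (.thr 55 52 (.dbl 38 4 35))))))))))))))))) (.rp 10 (.thr 53 5 (.thr 15 48 (.thr 45 33 (.thr 1 61 (.thr 47 32 (.thr 16 31 (.thr 44 46 (.thr 60 30 (.thr 28 12 (.thr 24 20 (.thr 25 27 (.thr 57 9 (.thr 29 17 (.thr 8 59 (.thr 11 56 (.thr 51 54 (.thr 3 7 (.dbl 35 19 38)))))))))))))))))) (.rp 5 (.thr 45 33 (.thr 1 61 (.thr 58 10 (.thr 15 48 (.thr 32 47 (.thr 16 31 (.thr 60 30 (.thr 56 11 (.thr 57 59 (.thr 54 51 (.thr 50 62 (.thr 14 38 (.thr 12 13 (.thr 28 44 (.thr 24 20 (.dbl 25 9 27)))))))))))))))) (.rp 1 (.thr 53 5 (.thr 33 45 (.thr 58 10 (.thr 15 48 (.thr 32 47 (.thr 16 31 (.thr 11 56 (.thr 35 34 (.thr 44 38 (.thr 3 7 (.thr 51 19 (.thr 27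 39 (.thr 24 25 (.thr 28 20 (.thr 60 12 (.thr 59 43 (.thr 54 57 (.dbl 55 52 63)))))))))))))))))) .nd))))))))))))) (.rp 45 (.str 35 (.nv (.thr 47 32 (.thr 39 43 (.dbl 38 36 44))) (.nv (.thr 32 47 (.thr 34 33 (.dbl 38 44 46))) (.rp 60 (.str 20 (.nv (.thr 38 44 (.thr 36 39 (.dbl 4 52 55))) (.nv (.thr 32 47 (.thr 34 33 (.dbl 38 44 46))) (.rp 47 (.thr 38 44 (.thr 46 34 (.thr 36 39 (.dbl 4 52 55)))) (.rp 46 (.thr 47 32 (.thr 39 43 (.dbl 38 36 44))) (.rp 44 (.thr 1 61 (.thr 5 53 (.thr 13 9 (.thr 49 25 (.thr 33 17 (.dbl 32 34 47)))))) (.rp 38 (.thr 32 47 (.thr 33 34 (.thr 1 61 (.thr 5 53 (.thr 13 9 (.dbl 49 17 25)))))) (.rp 30 (.str 15 (.nv (.thr 26 48 (.thr 38 44 (.thr 46 34 (.thr 4 55 (.dbl 36 39 52))))) (.nv (.thr 47 32 (.thr 31 63 (.dbl 26 16 48))) (.nv (.thr 32 47 (.thr 34 33 (.dbl 38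 44 46))) (.rp 44 (.thr 1 61 (.thr 5 53 (.thr 13 9 (.thr 49 25 (.thr 33 17 (.dbl 32 34 47)))))) (.rp 32 (.thr 38 44 (.thr 36 39 (.dbl 4 52 55))) (.rp 26 (.str 18 (.nv (.thr 38 44 (.thr 36 39 (.dbl 4 52 55))) (.nv (.thr 32 47 (.thr 34 33 (.dbl 38 44 46))) (.rp 47 (.thr 38 44 (.thr 46 34 (.thr 36 39 (.dbl 4 52 55)))) (.rp 46 (.thr 47 32 (.thr 39 43 (.dbl 38 36 44))) (.rp 44 (.thr 1 61 (.thr 5 53 (.thr 13 9 (.thr 49 25 (.thr 33 17 (.dbl 32 34 47)))))) (.rp 38 (.thr 32 47 (.thr 33 34 (.thr 3 48 (.thr 1 61 (.thr 17 49 (.dbl 19 16 51)))))) .nd))))))) .nd))))))) (.rp 15 (.str 30 (.nv (.thr 5 53 (.thr 32 47 (.thr 34 33 (.dbl 38 44 46)))) (.nv (.thr 47 32 (.thr 39 43 (.dbl 38 36 44))) (.rp 47 (.thr 38 44 (.thr 46 34 (.thr 36 39 (.dbl 4 52 55)))) (.rp 44 (.thr 1 61 (.thr 5 53 (.thr 13 9 (.thr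 49 25 (.thr 33 17 (.dbl 32 34 47)))))) (.rp 38 (.thr 32 47 (.thr 33 34 (.thr 1 61 (.thr 5 53 (.thr 13 9 (.dbl 49 17 25)))))) (.rp 32 (.thr 38 44 (.thr 36 39 (.dbl 4 52 55))) (.rp 5 (.str 10 (.nv (.thr 32 47 (.thr 34 33 (.dbl 38 44 46))) (.nv (.thr 47 32 (.thr 39 43 (.dbl 38 36 44))) (.rp 47 (.thr 38 44 (.thr 46 34 (.thr 36 39 (.dbl 4 52 55)))) (.rp 44 (.thr 26 58 (.thr 11 56 (.thr 8 9 (.thr 59 25 (.thr 43 27 (.dbl 47 32 39)))))) (.rp 38 (.thr 47 32 (.thr 43 39 (.thr 26 58 (.thr 11 56 (.thr 8 9 (.dbl 59 25 27)))))) (.rp 32 (.thr 38 44 (.thr 36 39 (.dbl 4 52 55))) .nd))))))) .nd)))))))) .nd))))))))) (.rp 47 (.thr 5 53 (.thr 1 61 (.thr 13 9 (.thr 49 25 (.thr 33 17 (.thr 34 32 (.dbl 38 44 46))))))) (.rp 44 (.thr 5 53 (.thr 1 61 (.thr 13 9 (.thr 49 25 (.thr 33 17 (.dbl 32 34 47)))))) (.rp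 38 (.thr 5 53 (.thr 1 61 (.thr 13 9 (.thr 49 25 (.thr 33 17 (.dbl 32 34 47)))))) (.rp 32 (.thr 53 5 (.thr 61 1 (.thr 57 49 (.thr 38 44 (.thr 36 39 (.thr 55 4 (.thr 54 52 (.thr 60 51 (.thr 63 62 (.thr 48 58 (.thr 12 24 (.dbl 46 29 34)))))))))))) (.rp 20 (.str 60 (.nv (.thr 47 32 (.thr 39 43 (.dbl 38 36 44))) (.nv (.thr 32 47 (.thr 34 33 (.dbl 38 44 46))) (.rp 47 (.thr 61 1 (.thr 63 62 (.thr 53 5 (.thr 48 58 (.thr 56 52 (.dbl 26 11 15)))))) (.rp 44 (.thr 61 1 (.thr 63 62 (.thr 53 5 (.thr 48 58 (.thr 56 52 (.dbl 26 11 15)))))) (.rp 38 (.thr 32 47 (.thr 33 34 (.thr 1 61 (.thr 5 53 (.thr 13 9 (.dbl 49 17 25)))))) (.rp 32 (.thr 61 1 (.thr 63 62 (.thr 53 5 (.thr 48 58 (.thr 56 52 (.dbl 26 11 15)))))) .nd))))))) .nd))))))))) (.rp 33 (.thr 53 5 (.str 15 (.nv (.thr 47 32 (.thr 31 63 (.dbl 26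 16 48))) (.nv (.thr 26 48 (.thr 56 11 (.thr 58 10 (.thr 57 59 (.dbl 61 1 49))))) (.nv (.thr 48 26 (.thr 63 58 (.dbl 47 31 32))) (.rp 60 (.str 20 (.nv (.thr 47 32 (.thr 31 63 (.dbl 26 16 48))) (.nv (.thr 26 48 (.thr 56 11 (.thr 58 10 (.thr 57 59 (.dbl 61 1 49))))) (.nv (.thr 48 26 (.thr 63 58 (.dbl 47 31 32))) (.rp 48 (.thr 61 1 (.thr 49 57 (.thr 13 25 (.thr 12 14 (.thr 29 45 (.thr 63 46 (.dbl 47 31 32))))))) (.rp 32 (.thr 61 1 (.thr 49 57 (.thr 26 48 (.thr 16 31 (.thr 24 28 (.dbl 25 13 27)))))) (.rp 26 (.thr 61 1 (.thr 47 32 (.thr 63 31 (.thr 49 57 (.thr 13 25 (.thr 12 14 (.dbl 29 45 46))))))) .nd))))))) (.rp 48 (.thr 61 1 (.thr 49 57 (.thr 13 25 (.thr 45 29 (.thr 60 30 (.thr 63 62 (.dbl 47 31 32))))))) (.rp 32 (.thr 61 1 (.thr 26 48 (.thr 16 31 (.thr 58 10 (.thr 56 11 (.dbl 57 49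 59)))))) (.rp 26 (.thr 61 1 (.thr 49 57 (.thr 13 25 (.thr 45 29 (.thr 47 32 (.thr 63 31 (.dbl 60 30 62))))))) (.rp 20 (.str 60 (.nv (.thr 61 1 (.thr 49 57 (.thr 13 25 (.dbl 45 29 30)))) (.nv (.thr 48 26 (.thr 63 58 (.dbl 47 31 32))) (.rp 30 (.thr 61 1 (.thr 63 62 (.dbl 47 31 32))) .nd)))) .nd)))))))))) (.rp 25 (.thr 5 53 (.thr 45 33 (.str 60 (.nv (.thr 30 15 (.thr 61 1 (.thr 29 13 (.thr 28 31 (.thr 63 62 (.dbl 12 44 46)))))) (.nv (.thr 61 1 (.thr 29 13 (.thr 63 62 (.thr 46 12 (.dbl 47 32 44))))) (.nv (.thr 15 30 (.thr 47 32 (.thr 31 63 (.dbl 26 16 48)))) (.rp 63 (.thr 61 1 (.thr 29 13 (.thr 47 32 (.thr 44 46 (.thr 28 12 (.dbl 30 15 31)))))) (.rp 44 (.thr 61 1 (.thr 63 62 (.thr 15 30 (.dbl 47 31 32)))) (.rp 28 (.str 19 (.nv (.thr 15 30 (.thr 61 1 (.thr 63 62 (.thr 31 47 (.dbl 26 16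 48))))) (.nv (.thr 61 1 (.thr 29 13 (.thr 63 62 (.thr 46 12 (.dbl 47 32 44))))) (.nv (.thr 47 32 (.thr 15 30 (.thr 31 63 (.dbl 26 16 48)))) (.rp 63 (.thr 47 32 (.thr 44 46 (.thr 35 38 (.thr 39 43 (.thr 15 30 (.dbl 51 3 27)))))) (.rp 47 (.thr 15 30 (.thr 1 61 (.thr 9 13 (.thr 26 48 (.thr 11 56 (.dbl 10 8 58)))))) (.rp 15 (.thr 47 32 (.thr 61 1 (.thr 29 13 (.thr 63 62 (.dbl 46 12 44))))) .nd))))))) (.rp 19 (.str 28 (.nv (.thr 30 15 (.thr 61 1 (.dbl 29 13 31))) (.nv (.thr 44 12 (.dbl 47 32 46)) .nd))) (.rp 15 (.thr 61 1 (.thr 29 13 (.thr 63 62 (.thr 47 32 (.dbl 46 12 44))))) .nd))))))))))) (.rp 20 (.str 60 (.nv (.thr 45 33 (.thr 15 30 (.thr 47 32 (.thr 31 63 (.dbl 26 16 48))))) (.nv (.thr 33 45 (.thr 5 53 (.thr 1 61 (.thr 13 9 (.dbl 49 17 25))))) (.rp 45 (.thr 53 5 (.thr 61 1 (.thr 63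 62 (.thr 48 58 (.thr 56 52 (.dbl 26 11 15)))))) (.rp 33 (.thr 53 5 (.thr 61 1 (.thr 63 62 (.thr 48 58 (.thr 56 52 (.dbl 26 11 15)))))) .nd))))) (.rp 17 (.thr 45 33 (.thr 53 5 (.thr 61 1 (.thr 49 57 (.dbl 13 25 29))))) (.rp 13 (.thr 45 33 (.str 60 (.nv (.thr 30 15 (.thr 47 32 (.thr 61 1 (.thr 62 63 (.dbl 46 14 44))))) (.nv (.thr 15 30 (.thr 61 1 (.thr 63 62 (.dbl 47 31 32)))) (.nv (.thr 15 30 (.thr 47 32 (.thr 31 63 (.dbl 26 16 48)))) (.rp 63 (.thr 53 5 (.thr 15 30 (.thr 26 48 (.thr 58 10 (.thr 56 11 (.thr 57 59 (.dbl 61 1 49))))))) (.rp 47 (.thr 53 5 (.thr 15 30 (.thr 26 48 (.thr 58 10 (.thr 56 11 (.thr 57 59 (.dbl 61 1 49))))))) (.rp 32 (.thr 61 1 (.thr 63 62 (.thr 15 30 (.thr 31 47 (.dbl 26 16 48))))) (.rp 30 (.str 26 (.nv (.thr 15 48 (.thr 61 1 (.thr 63 62 (.dbl 31 16 47)))) (.nv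 (.thr 56 11 (.dbl 48 15 52)) (.rp 48 (.thr 58 10 (.thr 56 11 (.thr 57 59 (.thr 61 1 (.dbl 53 5 49))))) (.rp 15 (.thr 56 11 (.thr 48 52 (.thr 61 1 (.thr 63 62 (.dbl 58 10 53))))) .nd))))) (.rp 15 (.thr 61 1 (.thr 63 62 (.thr 47 32 (.thr 44 46 (.thr 35 38 (.thr 43 39 (.thr 3 23 (.thr 51 19 (.thr 54 57 (.thr 55 59 (.dbl 53 5 52))))))))))) .nd)))))))))) (.rp 9 (.thr 45 33 (.thr 61 1 (.thr 13 29 (.thr 53 5 (.dbl 49 25 57))))) (.rp 5 (.thr 45 33 (.str 60 (.nv (.thr 47 32 (.thr 44 46 (.thr 12 28 (.thr 61 1 (.thr 13 29 (.dbl 15 14 30)))))) (.nv (.thr 15 30 (.thr 61 1 (.thr 63 62 (.dbl 47 31 32)))) (.nv (.thr 15 30 (.thr 47 32 (.thr 31 63 (.dbl 26 16 48)))) (.rp 47 (.thr 61 1 (.thr 13 29 (.thr 49 25 (.thr 57 53 (.thr 51 54 (.thr 48 50 (.dbl 15 26 30))))))) (.rp 32 (.thr 61 1 (.thr 63 62 (.thr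 15 30 (.thr 31 47 (.dbl 26 16 48))))) (.rp 31 (.thr 61 1 (.thr 13 29 (.thr 49 25 (.thr 57 53 (.thr 51 54 (.thr 48 50 (.dbl 15 26 30))))))) (.rp 30 (.thr 61 1 (.thr 13 29 (.thr 49 25 (.thr 53 57 (.thr 63 62 (.thr 48 58 (.thr 56 52 (.dbl 26 11 15)))))))) (.rp 15 (.str 10 (.nv (.thr 58 26 (.thr 61 1 (.thr 13 29 (.thr 49 25 (.thr 53 57 (.dbl 63 48 62)))))) (.nv (.thr 26 58 (.thr 11 56 (.thr 8 9 (.thr 47 32 (.thr 44 46 (.thr 35 38 (.thr 43 39 (.dbl 59 25 27)))))))) (.nv (.thr 26 58 (.thr 11 56 (.thr 8 9 (.thr 61 1 (.thr 13 29 (.dbl 25 49 59)))))) (.rp 58 (.thr 61 1 (.thr 13 29 (.thr 49 25 (.thr 57 53 (.thr 47 32 (.thr 44 46 (.thr 63 62 (.thr 35 38 (.thr 43 39 (.thr 3 23 (.dbl 51 19 54))))))))))) (.rp 57 (.thr 26 58 (.thr 47 32 (.thr 44 46 (.thr 12 28 (.thr 56 11 (.thr 48 52 (.thr 36 24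 (.dbl 38 35 39)))))))) (.rp 26 (.thr 61 1 (.thr 13 29 (.thr 49 25 (.thr 57 53 (.thr 47 32 (.thr 44 46 (.thr 63 62 (.thr 51 54 (.thr 55 59 (.dbl 38 4 35)))))))))) (.rp 25 (.thr 61 1 (.thr 26 58 (.thr 31 16 (.thr 56 11 (.thr 48 52 (.thr 47 32 (.thr 44 46 (.thr 28 12 (.dbl 29 13 30))))))))) (.rp 13 (.thr 26 58 (.thr 47 32 (.thr 44 46 (.thr 12 28 (.thr 56 11 (.thr 48 52 (.thr 36 24 (.dbl 38 35 39)))))))) (.rp 1 (.thr 26 58 (.thr 47 32 (.thr 44 46 (.thr 12 28 (.thr 56 11 (.thr 48 52 (.thr 36 24 (.dbl 38 35 39)))))))) .nd)))))))))) .nd)))))))))) (.rp 1 (.thr 5 53 (.str 35 (.nv (.thr 47 32 (.thr 39 43 (.dbl 38 36 44))) (.nv (.thr 33 45 (.dbl 32 34 47)) (.rp 60 (.str 20 (.nv (.thr 38 44 (.thr 36 39 (.dbl 4 52 55))) (.nv (.thr 32 47 (.dbl 33 34 45)) (.rp 3 (.str 2 (.nv (.thr 38 44 (.thr 36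 39 (.dbl 4 52 55))) (.nv (.thr 32 47 (.dbl 33 34 45)) .nd))) (.rp 2 (.str 3 (.nv (.thr 38 44 (.thr 36 39 (.dbl 4 52 55))) (.nv (.thr 32 47 (.dbl 33 34 45)) .nd))) .nd))))) (.rp 47 (.thr 33 45 (.thr 34 32 (.dbl 38 44 46))) (.rp 32 (.thr 38 44 (.thr 36 39 (.str 48 (.nv (.thr 4 55 (.thr 7 6 (.thr 15 26 (.thr 3 11 (.dbl 33 18 45))))) (.nv (.thr 12 24 (.thr 46 34 (.thr 29 63 (.dbl 25 17 51)))) (.rp 60 (.str 20 (.nv (.thr 26 15 (.thr 16 31 (.dbl 24 12 28))) (.nv (.dbl 4 52 55) (.rp 28 (.thr 12 24 (.dbl 4 52 55)) (.rp 12 (.str 28 (.nv (.thr 16 24 (.dbl 26 15 31)) (.nv (.dbl 4 52 55) (.rp 4 (.str 8 (.nv (.thr 26 15 (.thr 10 58 (.dbl 11 9 56))) (.nv (.thr 16 24 (.dbl 26 15 31)) (.rp 26 (.thr 33 45 (.thr 16 24 (.thr 25 59 (.thr 17 29 (.dbl 18 3 19))))) (.rp 15 (.thr 16 24 (.thr 26 31 (.thr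 11 56 (.dbl 10 9 58)))) (.rp 3 (.str 2 (.nv (.thr 25 59 (.thr 34 46 (.thr 49 13 (.dbl 50 18 51)))) (.nv (.thr 16 24 (.dbl 26 15 31)) (.rp 15 (.thr 34 46 (.thr 16 24 (.thr 26 31 (.dbl 50 14 18)))) (.rp 9 (.str 6 (.nv (.thr 16 24 (.thr 25 59 (.thr 29 17 (.dbl 31 26 30)))) (.nv (.thr 14 10 (.dbl 26 15 50)) (.rp 26 (.thr 34 46 (.thr 25 59 (.thr 49 13 (.dbl 50 18 51)))) .nd)))) (.rp 6 (.str 9 (.nv (.thr 10 11 (.dbl 26 15 58)) (.nv (.dbl 25 57 59) .nd))) .nd)))))) (.rp 2 (.str 3 (.nv (.thr 16 24 (.dbl 26 15 31)) (.nv (.dbl 33 18 45) .nd))) .nd))))))) (.rp 3 (.str 2 (.nv (.thr 16 24 (.dbl 26 15 31)) (.nv (.dbl 4 52 55) (.rp 9 (.str 6 (.nv (.thr 10 14 (.dbl 26 15 58)) (.nv (.dbl 4 7 52) (.rp 4 (.str 8 (.nv (.thr 16 24 (.thr 25 59 (.thr 29 17 (.dbl 31 26 30)))) (.nv (.thr 14 10 (.dbl 26 15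 50)) (.rp 26 (.thr 34 46 (.thr 25 59 (.thr 49 13 (.dbl 50 18 51)))) .nd)))) .nd)))) (.rp 6 (.str 9 (.nv (.thr 16 24 (.dbl 26 15 31)) (.nv (.dbl 4 52 55) (.rp 4 (.str 8 (.nv (.thr 10 11 (.dbl 26 15 58)) (.nv (.dbl 25 57 59) .nd))) .nd)))) (.rp 4 (.str 8 (.nv (.thr 25 59 (.thr 34 46 (.thr 49 13 (.dbl 50 18 51)))) (.nv (.thr 16 24 (.dbl 26 15 31)) (.rp 15 (.thr 34 46 (.thr 16 24 (.thr 26 31 (.dbl 50 14 18)))) (.rp 9 (.str 6 (.nv (.thr 16 24 (.thr 25 59 (.thr 29 17 (.dbl 31 26 30)))) (.nv (.thr 14 10 (.dbl 26 15 50)) (.rp 26 (.thr 34 46 (.thr 25 59 (.thr 49 13 (.dbl 50 18 51)))) .nd)))) (.rp 6 (.str 9 (.nv (.thr 10 11 (.dbl 26 15 58)) (.nv (.dbl 25 57 59) .nd))) .nd)))))) .nd)))))) (.rp 2 (.str 3 (.nv (.dbl 33 18 45) (.nv (.dbl 4 52 55) (.rp 4 (.str 8 (.nv (.thr 16 24 (.dbl 26 15 31))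 (.nv (.dbl 33 18 45) .nd))) .nd)))) .nd)))))) (.rp 3 (.str 2 (.nv (.thr 26 15 (.thr 10 58 (.dbl 14 6 50))) (.nv (.dbl 4 52 55) (.rp 28 (.thr 12 24 (.dbl 4 52 55)) (.rp 12 (.str 28 (.nv (.thr 16 24 (.dbl 26 15 31)) (.nv (.dbl 4 52 55) (.rp 9 (.str 6 (.nv (.thr 10 14 (.dbl 26 15 58)) (.nv (.dbl 4 7 52) (.rp 4 (.str 8 (.nv (.thr 16 24 (.thr 25 59 (.thr 29 17 (.dbl 31 26 30)))) (.nv (.thr 14 10 (.dbl 26 15 50)) (.rp 26 (.thr 34 46 (.thr 25 59 (.thr 49 13 (.dbl 50 18 51)))) .nd)))) .nd)))) (.rp 6 (.str 9 (.nv (.thr 16 24 (.dbl 26 15 31)) (.nv (.dbl 4 52 55) (.rp 4 (.str 8 (.nv (.thr 10 11 (.dbl 26 15 58)) (.nv (.dbl 25 57 59) .nd))) .nd)))) (.rp 4 (.str 8 (.nv (.thr 25 59 (.thr 34 46 (.thr 49 13 (.dbl 50 18 51)))) (.nv (.thr 16 24 (.dbl 26 15 31)) (.rp 15 (.thr 34 46 (.thr 16 24 (.thr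 26 31 (.dbl 50 14 18)))) (.rp 9 (.str 6 (.nv (.thr 16 24 (.thr 25 59 (.thr 29 17 (.dbl 31 26 30)))) (.nv (.thr 14 10 (.dbl 26 15 50)) (.rp 26 (.thr 34 46 (.thr 25 59 (.thr 49 13 (.dbl 50 18 51)))) .nd)))) (.rp 6 (.str 9 (.nv (.thr 10 11 (.dbl 26 15 58)) (.nv (.dbl 25 57 59) .nd))) .nd)))))) .nd)))))) .nd))))) (.rp 2 (.str 3 (.nv (.thr 12 24 (.dbl 4 52 55)) (.nv (.dbl 33 18 45) (.rp 12 (.str 28 (.nv (.dbl 33 18 45) (.nv (.dbl 4 52 55) (.rp 4 (.str 8 (.nv (.thr 16 24 (.dbl 26 15 31)) (.nv (.dbl 33 18 45) .nd))) .nd)))) .nd)))) .nd))))))) (.rp 20 (.str 60 (.nv (.thr 12 24 (.thr 46 34 (.thr 29 63 (.dbl 25 17 51)))) (.nv (.thr 15 26 (.dbl 45 30 33)) (.rp 3 (.str 2 (.nv (.thr 12 24 (.thr 46 34 (.thr 29 63 (.dbl 25 17 51)))) (.nv (.thr 15 26 (.dbl 45 30 33)) .nd))) (.rp 2 (.str 3 (.nv (.thr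 12 24 (.dbl 51 19 25)) (.nv (.dbl 33 18 45) .nd))) .nd))))) (.rp 3 (.str 2 (.nv (.thr 26 15 (.thr 10 58 (.dbl 14 6 50))) (.nv (.thr 12 24 (.thr 46 34 (.thr 29 63 (.dbl 25 17 51)))) (.nv (.thr 34 46 (.thr 50 18 (.dbl 26 14 15))) (.rp 60 (.str 20 (.nv (.thr 26 15 (.thr 10 58 (.dbl 14 6 50))) (.nv (.dbl 4 52 55) (.rp 28 (.thr 12 24 (.dbl 4 52 55)) (.rp 12 (.str 28 (.nv (.thr 16 24 (.dbl 26 15 31)) (.nv (.dbl 4 52 55) (.rp 9 (.str 6 (.nv (.thr 10 14 (.dbl 26 15 58)) (.nv (.dbl 4 7 52) (.rp 4 (.str 8 (.nv (.thr 16 24 (.thr 25 59 (.thr 29 17 (.dbl 31 26 30)))) (.nv (.thr 14 10 (.dbl 26 15 50)) (.rp 26 (.thr 34 46 (.thr 25 59 (.thr 49 13 (.dbl 50 18 51)))) .nd)))) .nd)))) (.rp 6 (.str 9 (.nv (.thr 16 24 (.dbl 26 15 31)) (.nv (.dbl 4 52 55) (.rp 4 (.str 8 (.nv (.thr 10 11 (.dbl 26 15 58))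 (.nv (.dbl 25 57 59) .nd))) .nd)))) (.rp 4 (.str 8 (.nv (.thr 25 59 (.thr 34 46 (.thr 49 13 (.dbl 50 18 51)))) (.nv (.thr 16 24 (.dbl 26 15 31)) (.rp 15 (.thr 34 46 (.thr 16 24 (.thr 26 31 (.dbl 50 14 18)))) (.rp 9 (.str 6 (.nv (.thr 16 24 (.thr 25 59 (.thr 29 17 (.dbl 31 26 30)))) (.nv (.thr 14 10 (.dbl 26 15 50)) (.rp 26 (.thr 34 46 (.thr 25 59 (.thr 49 13 (.dbl 50 18 51)))) .nd)))) (.rp 6 (.str 9 (.nv (.thr 10 11 (.dbl 26 15 58)) (.nv (.dbl 25 57 59) .nd))) .nd)))))) .nd)))))) .nd))))) (.rp 20 (.str 60 (.nv (.thr 12 24 (.thr 46 34 (.thr 29 63 (.dbl 25 17 51)))) (.nv (.thr 15 26 (.dbl 45 30 33)) .nd))) .nd)))))) (.rp 2 (.str 3 (.nv (.thr 12 24 (.dbl 51 19 25)) (.nv (.dbl 33 18 45) (.rp 60 (.str 20 (.nv (.thr 12 24 (.dbl 4 52 55)) (.nv (.dbl 33 18 45) (.rp 12 (.str 28 (.nv (.dbl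 33 18 45) (.nv (.dbl 4 52 55) (.rp 4 (.str 8 (.nv (.thr 16 24 (.dbl 26 15 31)) (.nv (.dbl 33 18 45) .nd))) .nd)))) .nd)))) (.rp 20 (.str 60 (.nv (.thr 12 24 (.dbl 51 19 25)) (.nv (.dbl 33 18 45) .nd))) .nd))))) .nd))))))))) (.rp 20 (.str 60 (.nv (.thr 47 32 (.thr 39 43 (.dbl 38 36 44))) (.nv (.thr 33 45 (.dbl 32 34 47)) (.rp 47 (.thr 33 45 (.thr 34 32 (.dbl 38 44 46))) (.rp 32 (.thr 45 33 (.thr 44 38 (.thr 47 46 (.thr 15 30 (.thr 31 63 (.dbl 26 16 48)))))) (.rp 3 (.str 2 (.nv (.thr 47 32 (.thr 39 43 (.dbl 38 36 44))) (.nv (.thr 33 45 (.dbl 32 34 47)) (.rp 47 (.thr 33 45 (.thr 34 32 (.dbl 38 44 46))) (.rp 32 (.thr 45 33 (.thr 44 38 (.thr 47 46 (.thr 15 30 (.thr 31 63 (.dbl 26 16 48)))))) .nd))))) (.rp 2 (.str 3 (.nv (.thr 51 19 (.thr 57 54 (.thr 25 9 (.dbl 38 12 44)))) (.nv (.thr 33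 45 (.dbl 32 34 47)) .nd))) .nd))))))) (.rp 3 (.str 2 (.nv (.thr 47 32 (.thr 39 43 (.dbl 38 36 44))) (.nv (.thr 33 45 (.dbl 32 34 47)) (.rp 60 (.str 20 (.nv (.thr 38 44 (.thr 36 39 (.dbl 4 52 55))) (.nv (.thr 32 47 (.dbl 33 34 45)) .nd))) (.rp 47 (.thr 33 45 (.thr 34 32 (.dbl 38 44 46))) (.rp 32 (.thr 38 44 (.thr 36 39 (.thr 34 46 (.thr 50 18 (.thr 26 14 (.thr 48 15 (.thr 12 24 (.dbl 51 25 49)))))))) (.rp 20 (.str 60 (.nv (.thr 47 32 (.thr 39 43 (.dbl 38 36 44))) (.nv (.thr 33 45 (.dbl 32 34 47)) (.rp 47 (.thr 33 45 (.thr 34 32 (.dbl 38 44 46))) (.rp 32 (.thr 45 33 (.thr 44 38 (.thr 47 46 (.thr 15 30 (.thr 31 63 (.dbl 26 16 48)))))) .nd))))) .nd))))))) (.rp 2 (.str 3 (.nv (.thr 47 32 (.thr 39 43 (.dbl 38 36 44))) (.nv (.thr 33 45 (.dbl 32 34 47)) (.rp 60 (.str 20 (.nv (.thr 38 44 (.thr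 36 39 (.dbl 4 52 55))) (.nv (.thr 32 47 (.dbl 33 34 45)) .nd))) (.rp 47 (.thr 33 45 (.thr 34 32 (.dbl 38 44 46))) (.rp 32 (.thr 51 19 (.thr 33 45 (.thr 38 44 (.thr 36 39 (.thr 48 18 (.dbl 12 24 25)))))) (.rp 20 (.str 60 (.nv (.thr 51 19 (.thr 57 54 (.thr 25 9 (.dbl 38 12 44)))) (.nv (.thr 33 45 (.dbl 32 34 47)) .nd))) .nd))))))) .nd)))))))))) .nd))))))))))))))))

theorem w403 : WinAt (6597071863808, 1099515822081) :=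
  chF (K := [(6734510817280, 1152922604122669057)]) (kc w402 kn) c403 6597071863808 1099515822081 40
    [1152922604119523329] (by decide +kernel) (by decide +kernel)

/-- A certificate. -/
noncomputable def c404 : Ct := (.str 41 (.rp 63 (.str 37 (.nv (.thr 1 61 (.thr 5 53 (.thr 13 9 (.thr 33 45 (.dbl 49 17 25))))) (.nv (.thr 33 45 (.thr 40 43 (.thr 32 47 (.thr 44 36 (.dbl 35 34 38))))) (.rp 45 (.thr 40 43 (.thr 32 47 (.thr 44 36 (.thr 35 38 (.thr 33 34 (.thr 1 61 (.thr 5 53 (.thr 13 9 (.dbl 49 17 25))))))))) (.rp 33 (.thr 43 40 (.thr 47 32 (.thr 35 39 (.thr 44 38 (.thr 45 46 (.thr 61 1 (.thr 53 5 (.thr 49 57 (.dbl 13 25 29))))))))) .nd))))) (.rp 62 (.str 37 (.nv (.thr 1 61 (.thr 5 53 (.thr 13 9 (.thr 33 45 (.dbl 49 17 25))))) (.nv (.thr 40 43 (.thr 32 47 (.thr 44 36 (.thr 33 45 (.dbl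 35 34 38))))) (.rp 45 (.thr 5 53 (.thr 1 61 (.thr 13 9 (.thr 49 25 (.thr 33 17 (.thr 32 47 (.thr 40 43 (.thr 44 36 (.dbl 35 34 38))))))))) (.rp 33 (.thr 53 5 (.thr 61 1 (.thr 49 57 (.thr 13 25 (.thr 45 29 (.thr 47 32 (.thr 44 46 (.thr 43 40 (.dbl 35 38 39))))))))) .nd))))) (.rp 61 (.str 35 (.nv (.thr 43 40 (.thr 47 39 (.thr 32 37 (.thr 38 44 (.dbl 34 33 46))))) (.nv (.thr 40 43 (.thr 44 38 (.thr 32 36 (.thr 37 47 (.dbl 33 34 45))))) (.rp 47 (.str 51 (.nv (.thr 3 19 (.thr 38 44 (.thr 43 40 (.thr 46 34 (.thr 63 23 (.dbl 12 25 29)))))) (.nv (.thr 3 19 (.thr 43 40 (.thr 63 23 (.thr 55 59 (.dbl 38 4 44))))) (.nv (.thr 38 44 (.thr 46 34 (.thr 55 4 (.thr 63 59 (.dbl 12 25 29))))) (.rp 63 (.thr 40 43 (.thr 38 44 (.thr 25 12 (.thr 9 57 (.thr 8 59 (.thr 11 10 (.dbl 56 24 26))))))) (.rp 44 (.thr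 3 19 (.thr 43 40 (.thr 63 23 (.thr 59 55 (.thr 25 8 (.thr 9 57 (.dbl 12 6 38))))))) (.rp 38 (.thr 3 19 (.thr 43 40 (.thr 63 23 (.thr 59 55 (.thr 25 8 (.thr 9 57 (.thr 29 17 (.dbl 12 6 46)))))))) (.rp 25 (.thr 43 40 (.thr 38 44 (.thr 55 4 (.thr 63 59 (.dbl 3 19 23))))) .nd)))))))) (.rp 44 (.str 11 (.nv (.thr 26 56 (.thr 31 16 (.thr 43 40 (.thr 47 39 (.thr 15 63 (.dbl 37 32 48)))))) (.nv (.thr 40 43 (.thr 56 26 (.thr 8 24 (.thr 25 59 (.dbl 9 10 57))))) (.rp 56 (.thr 43 40 (.thr 47 39 (.thr 59 27 (.thr 8 25 (.thr 10 9 (.thr 26 58 (.thr 31 16 (.thr 15 63 (.dbl 37 32 48))))))))) (.rp 43 (.str 9 (.nv (.thr 8 10 (.dbl 25 57 59)) (.nv (.thr 26 56 (.dbl 10 8 58)) (.rp 10 (.thr 25 57 (.thr 26 56 (.thr 31 16 (.thr 27 24 (.thr 19 23 (.thr 3 51 (.thr 15 7 (.thr 47 63 (.dbl 37 32 48))))))))) (.rp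 8 (.thr 25 57 (.thr 17 29 (.thr 26 56 (.thr 16 31 (.thr 19 18 (.thr 3 51 (.thr 15 7 (.thr 12 6 (.thr 13 14 (.dbl 37 48 49)))))))))) .nd))))) (.rp 40 (.thr 26 56 (.thr 10 58 (.thr 8 9 (.thr 59 25 (.thr 43 27 (.thr 47 39 (.thr 31 16 (.thr 15 63 (.dbl 37 32 48))))))))) (.rp 26 (.thr 43 40 (.thr 47 39 (.thr 59 27 (.thr 32 37 (.thr 34 33 (.thr 38 46 (.thr 55 4 (.thr 51 63 (.dbl 25 8 12))))))))) (.rp 24 (.thr 43 40 (.thr 59 27 (.thr 25 8 (.thr 56 26 (.dbl 57 9 58))))) (.rp 8 (.thr 43 40 (.thr 39 47 (.thr 27 59 (.thr 51 15 (.thr 19 3 (.thr 31 23 (.dbl 26 16 56))))))) .nd))))))))) (.rp 43 (.thr 38 44 (.str 51 (.nv (.thr 12 25 (.thr 46 34 (.thr 55 4 (.dbl 63 29 59)))) (.nv (.thr 55 4 (.thr 59 63 (.dbl 25 8 12))) (.rp 63 (.thr 34 46 (.thr 33 32 (.thr 3 19 (.thr 48 18 (.thr 49 50 (.thr 17 1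 (.dbl 25 12 29))))))) (.rp 59 (.thr 34 46 (.thr 33 32 (.thr 3 19 (.thr 48 18 (.thr 49 50 (.thr 17 1 (.dbl 25 12 29))))))) (.rp 55 (.thr 34 46 (.thr 33 32 (.thr 3 19 (.thr 48 18 (.thr 49 50 (.thr 17 1 (.dbl 25 12 29))))))) (.rp 25 (.str 48 (.nv (.thr 50 49 (.thr 26 14 (.thr 55 4 (.thr 58 10 (.dbl 63 53 59))))) (.nv (.thr 34 46 (.thr 33 32 (.dbl 3 18 19))) (.rp 28 (.thr 19 3 (.thr 50 49 (.thr 34 46 (.thr 32 33 (.thr 26 14 (.dbl 37 15 47)))))) (.rp 19 (.str 28 (.nv (.thr 34 46 (.thr 33 32 (.thr 18 3 (.dbl 50 2 49)))) (.nv (.thr 34 46 (.thr 32 33 (.thr 55 4 (.thr 63 59 (.thr 53 58 (.dbl 37 5 47)))))) (.nv (.thr 55 4 (.thr 63 59 (.thr 58 53 (.thr 26 10 (.dbl 50 14 49))))) (.nv (.thr 50 49 (.thr 34 46 (.thr 18 2 (.dbl 33 3 32)))) .nd))))) .nd))))) (.rp 12 (.thr 34 46 (.thr 33 32 (.thr 3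 19 (.thr 48 18 (.thr 50 49 (.thr 26 14 (.dbl 37 15 45))))))) (.rp 4 (.thr 34 46 (.thr 33 32 (.thr 3 19 (.thr 48 18 (.thr 49 50 (.thr 17 1 (.dbl 25 12 29))))))) .nd)))))))))) (.rp 40 (.str 37 (.nv (.thr 47 32 (.thr 39 43 (.dbl 38 36 44))) (.nv (.thr 32 47 (.dbl 33 34 45)) (.rp 60 (.str 20 (.nv (.thr 38 44 (.thr 36 39 (.dbl 4 52 55))) (.nv (.thr 32 47 (.dbl 33 34 45)) (.rp 63 (.str 62 (.nv (.thr 38 44 (.thr 36 39 (.dbl 4 52 55))) (.nv (.thr 32 47 (.dbl 33 34 45)) .nd))) (.rp 62 (.str 63 (.nv (.thr 38 44 (.thr 36 39 (.dbl 4 52 55))) (.nv (.thr 32 47 (.dbl 33 34 45)) .nd))) .nd))))) (.rp 47 (.thr 33 45 (.thr 34 32 (.dbl 38 44 46))) (.rp 32 (.thr 45 33 (.thr 38 44 (.thr 36 39 (.thr 53 5 (.thr 34 46 (.thr 4 55 (.thr 20 52 (.str 26 (.nv (.thr 10 58 (.thr 16 31 (.thr 48 15 (.dbl 24 12 28))))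 (.nv (.thr 48 15 (.thr 10 58 (.thr 12 24 (.thr 50 14 (.dbl 51 25 49))))) (.nv (.thr 16 31 (.thr 24 28 (.dbl 48 12 15))) (.rp 48 (.thr 16 31 (.thr 24 28 (.thr 25 27 (.thr 59 8 (.thr 57 9 (.dbl 56 11 58)))))) (.rp 24 (.thr 16 31 (.thr 10 58 (.thr 50 14 (.thr 18 2 (.thr 19 17 (.thr 48 15 (.dbl 51 3 49))))))) (.rp 23 (.str 7 (.nv (.thr 15 48 (.thr 16 31 (.dbl 11 3 56))) (.nv (.thr 10 58 (.thr 16 31 (.thr 48 15 (.dbl 24 12 28)))) (.nv (.thr 11 56 (.dbl 15 3 48)) (.rp 48 (.thr 16 31 (.thr 50 14 (.thr 18 2 (.thr 19 17 (.thr 3 51 (.dbl 11 15 56)))))) (.rp 16 (.thr 48 15 (.thr 10 58 (.thr 12 24 (.thr 50 14 (.dbl 51 25 49))))) (.rp 15 (.thr 10 58 (.thr 16 31 (.thr 24 28 (.thr 12 48 (.dbl 25 27 51))))) .nd))))))) (.rp 15 (.thr 10 58 (.thr 16 31 (.thr 24 28 (.thr 12 48 (.dbl 25 27 51))))) (.rp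 12 (.thr 16 31 (.thr 50 14 (.thr 18 2 (.thr 19 17 (.thr 3 51 (.thr 11 56 (.dbl 15 7 48))))))) (.rp 10 (.thr 15 48 (.thr 16 31 (.thr 24 28 (.thr 25 27 (.thr 12 51 (.dbl 13 14 49)))))) (.rp 7 (.str 23 (.nv (.thr 10 58 (.thr 16 31 (.thr 48 15 (.dbl 24 12 28)))) (.nv (.thr 48 15 (.thr 10 58 (.thr 12 24 (.thr 50 14 (.dbl 51 25 49))))) (.nv (.thr 16 31 (.thr 24 28 (.dbl 48 12 15))) (.rp 48 (.thr 16 31 (.thr 24 28 (.thr 25 27 (.thr 59 8 (.thr 57 9 (.dbl 56 11 58)))))) (.rp 24 (.thr 31 16 (.thr 48 15 (.thr 10 58 (.thr 50 14 (.thr 51 49 (.dbl 19 3 27)))))) (.rp 15 (.thr 10 58 (.thr 16 31 (.thr 24 28 (.thr 12 48 (.dbl 25 27 51))))) (.rp 12 (.thr 10 58 (.thr 11 56 (.thr 8 9 (.thr 59 25 (.thr 27 43 (.dbl 31 16 19)))))) (.rp 10 (.thr 15 48 (.thr 16 31 (.thr 24 28 (.thr 25 27 (.thr 12 51 (.dbl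 13 14 49)))))) .nd))))))))) .nd)))))))))))))))))) (.rp 20 (.str 60 (.nv (.thr 47 32 (.thr 39 43 (.dbl 38 36 44))) (.nv (.thr 32 47 (.dbl 33 34 45)) (.rp 47 (.thr 33 45 (.thr 34 32 (.dbl 38 44 46))) (.rp 32 (.thr 44 38 (.thr 45 33 (.thr 47 46 (.thr 15 30 (.thr 31 63 (.dbl 26 16 48)))))) .nd))))) .nd))))))) (.rp 38 (.str 26 (.nv (.thr 10 58 (.thr 11 56 (.thr 8 9 (.thr 59 25 (.dbl 43 27 40))))) (.nv (.thr 31 16 (.thr 43 40 (.thr 47 39 (.thr 15 63 (.dbl 37 32 48))))) (.nv (.thr 43 40 (.thr 11 56 (.thr 59 27 (.thr 10 58 (.dbl 8 9 25))))) (.rp 54 (.str 6 (.nv (.thr 31 16 (.thr 43 40 (.thr 47 39 (.thr 15 63 (.dbl 37 32 48))))) (.nv (.thr 40 43 (.thr 56 11 (.thr 8 24 (.thr 58 10 (.dbl 59 25 57))))) (.rp 43 (.str 3 (.nv (.thr 10 58 (.thr 11 56 (.dbl 9 8 12))) (.nv (.thr 9 12 (.thr 16 31 (.thr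 25 57 (.thr 17 29 (.dbl 19 18 51))))) (.nv (.thr 11 56 (.thr 9 12 (.dbl 10 8 58))) (.rp 12 (.thr 11 56 (.thr 15 7 (.thr 37 48 (.thr 32 47 (.dbl 33 34 45))))) (.rp 9 (.thr 11 56 (.thr 15 7 (.thr 37 48 (.thr 32 47 (.dbl 33 34 45))))) (.rp 8 (.thr 19 51 (.thr 16 31 (.thr 17 18 (.thr 25 29 (.dbl 9 12 57))))) .nd))))))) (.rp 40 (.thr 10 58 (.thr 11 56 (.thr 8 9 (.thr 59 25 (.thr 43 27 (.thr 47 39 (.thr 31 16 (.thr 15 63 (.dbl 37 32 48))))))))) (.rp 15 (.thr 10 58 (.thr 43 40 (.thr 11 56 (.thr 59 27 (.dbl 8 9 25))))) .nd)))))) (.rp 43 (.str 51 (.nv (.thr 3 19 (.thr 10 58 (.thr 11 56 (.thr 8 9 (.thr 15 7 (.thr 27 39 (.dbl 25 24 59))))))) (.nv (.thr 10 58 (.thr 11 56 (.thr 8 9 (.thr 16 31 (.thr 19 3 (.thr 17 18 (.dbl 25 29 59))))))) (.nv (.thr 3 19 (.thr 11 56 (.thr 15 7 (.thr 37 48 (.thr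 32 47 (.dbl 33 34 45)))))) (.rp 56 (.thr 19 3 (.thr 58 10 (.thr 16 31 (.thr 17 18 (.thr 25 29 (.thr 59 8 (.thr 63 55 (.thr 48 53 (.thr 49 50 (.dbl 37 13 15)))))))))) (.rp 54 (.str 6 (.nv (.thr 3 19 (.thr 10 58 (.thr 9 12 (.thr 8 11 (.dbl 25 57 59))))) (.nv (.thr 10 58 (.thr 11 56 (.thr 9 8 (.dbl 3 12 19)))) (.nv (.thr 3 19 (.thr 9 12 (.thr 11 56 (.thr 15 7 (.thr 27 39 (.dbl 25 24 57)))))) (.nv (.thr 3 19 (.thr 11 56 (.thr 9 12 (.dbl 10 8 58)))) (.rp 19 (.thr 58 10 (.thr 56 11 (.thr 59 57 (.thr 31 16 (.thr 63 55 (.thr 15 47 (.dbl 48 37 53))))))) (.rp 12 (.thr 3 19 (.thr 11 56 (.thr 15 7 (.thr 37 48 (.thr 32 47 (.dbl 33 34 45)))))) (.rp 11 (.thr 3 19 (.thr 10 58 (.thr 31 16 (.thr 14 2 (.thr 12 9 (.thr 15 13 (.thr 47 63 (.dbl 37 32 48)))))))) (.rp 9 (.thr 3 19 (.thr 11 56 (.thr 15 7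 (.thr 37 48 (.thr 32 47 (.dbl 33 34 45)))))) (.rp 8 (.thr 3 19 (.thr 10 58 (.thr 11 56 (.thr 15 7 (.thr 14 2 (.dbl 12 9 13)))))) (.rp 3 (.thr 58 10 (.thr 56 11 (.thr 59 57 (.thr 31 16 (.thr 63 55 (.thr 15 47 (.dbl 48 37 53))))))) .nd))))))))))) (.rp 25 (.thr 58 10 (.thr 56 11 (.thr 59 57 (.thr 63 55 (.thr 31 16 (.thr 15 47 (.dbl 48 37 53))))))) (.rp 19 (.thr 58 10 (.thr 56 11 (.thr 59 57 (.thr 63 55 (.thr 31 16 (.thr 15 47 (.dbl 48 37 53))))))) (.rp 11 (.thr 19 3 (.thr 16 31 (.thr 17 18 (.thr 25 29 (.thr 27 24 (.thr 15 39 (.thr 37 48 (.thr 33 45 (.thr 13 49 (.dbl 32 34 47)))))))))) (.rp 6 (.str 54 (.nv (.thr 16 31 (.thr 19 3 (.thr 17 18 (.thr 25 29 (.dbl 57 9 60))))) (.nv (.thr 57 60 (.thr 56 11 (.dbl 58 10 59))) (.rp 63 (.thr 56 11 (.thr 58 10 (.dbl 57 59 60))) (.rp 60 (.thr 56 11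 (.thr 58 10 (.thr 59 57 (.thr 63 55 (.thr 50 62 (.dbl 48 49 53)))))) (.rp 57 (.thr 3 19 (.thr 11 56 (.thr 58 10 (.thr 50 62 (.thr 15 7 (.dbl 48 37 49)))))) .nd)))))) (.rp 3 (.thr 58 10 (.thr 56 11 (.thr 59 57 (.thr 63 55 (.thr 31 16 (.thr 15 47 (.dbl 48 37 53))))))) .nd))))))))))) (.rp 40 (.thr 10 58 (.thr 11 56 (.thr 8 9 (.thr 59 25 (.thr 43 27 (.thr 31 16 (.thr 47 39 (.thr 15 63 (.dbl 37 32 48))))))))) (.rp 6 (.str 54 (.nv (.thr 10 58 (.thr 11 56 (.thr 8 9 (.thr 59 25 (.dbl 43 27 40))))) (.nv (.thr 31 16 (.thr 43 40 (.thr 47 39 (.thr 15 63 (.dbl 37 32 48))))) (.nv (.thr 43 40 (.thr 11 56 (.thr 59 27 (.thr 10 58 (.dbl 8 9 25))))) (.rp 43 (.str 51 (.nv (.thr 16 31 (.thr 19 3 (.thr 17 18 (.thr 25 29 (.dbl 57 9 60))))) (.nv (.thr 57 60 (.thr 56 11 (.dbl 58 10 59))) (.rp 63 (.thr 56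 11 (.thr 58 10 (.dbl 57 59 60))) (.rp 60 (.thr 56 11 (.thr 58 10 (.thr 59 57 (.thr 63 55 (.thr 50 62 (.dbl 48 49 53)))))) (.rp 57 (.thr 3 19 (.thr 11 56 (.thr 58 10 (.thr 50 62 (.thr 15 7 (.dbl 48 37 49)))))) .nd)))))) (.rp 40 (.thr 56 11 (.thr 58 10 (.thr 57 59 (.thr 60 51 (.thr 48 52 (.thr 63 53 (.thr 31 16 (.dbl 15 37 47)))))))) .nd)))))) .nd)))))))) (.rp 37 (.str 3 (.nv (.thr 38 44 (.thr 43 40 (.thr 46 34 (.thr 51 19 (.thr 63 23 (.dbl 12 25 29)))))) (.nv (.thr 38 44 (.thr 43 40 (.thr 23 63 (.thr 39 47 (.dbl 55 4 7))))) (.nv (.thr 38 44 (.thr 51 19 (.thr 55 4 (.thr 59 63 (.dbl 25 8 12))))) (.rp 63 (.thr 51 19 (.thr 43 40 (.thr 39 47 (.thr 15 27 (.thr 7 11 (.thr 38 44 (.dbl 55 4 23))))))) (.rp 60 (.thr 51 19 (.thr 38 44 (.thr 55 4 (.thr 63 59 (.dbl 43 23 40))))) (.rp 52 (.str 7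 (.nv (.thr 38 44 (.thr 4 55 (.thr 6 5 (.thr 12 9 (.dbl 51 19 25))))) (.nv (.thr 43 40 (.thr 39 47 (.dbl 23 55 63))) (.rp 55 (.thr 15 11 (.thr 51 19 (.thr 39 27 (.dbl 43 40 47)))) .nd)))) (.rp 44 (.thr 51 19 (.thr 43 40 (.thr 39 47 (.thr 27 15 (.thr 59 11 (.dbl 63 23 55)))))) (.rp 38 (.thr 51 19 (.thr 43 40 (.thr 39 47 (.thr 27 15 (.thr 59 11 (.dbl 63 23 55)))))) (.rp 7 (.str 52 (.nv (.thr 38 44 (.thr 43 40 (.thr 39 47 (.thr 46 34 (.thr 63 23 (.thr 12 29 (.dbl 51 19 25))))))) (.nv (.thr 38 44 (.thr 51 19 (.thr 55 4 (.thr 59 63 (.dbl 25 8 12))))) (.rp 63 (.thr 51 19 (.thr 38 44 (.thr 55 4 (.thr 54 53 (.thr 25 12 (.thr 8 59 (.dbl 57 9 60))))))) (.rp 60 (.thr 51 19 (.thr 38 44 (.thr 55 4 (.thr 63 59 (.dbl 43 23 40))))) (.rp 51 (.thr 43 40 (.thr 63 23 (.thr 38 44 (.thr 55 4 (.thr 53 54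 (.thr 48 58 (.thr 33 18 (.dbl 34 32 46)))))))) (.rp 44 (.thr 51 19 (.thr 43 40 (.thr 63 23 (.thr 59 55 (.thr 39 47 (.dbl 27 11 15)))))) (.rp 38 (.thr 51 19 (.thr 43 40 (.thr 63 23 (.thr 59 55 (.thr 39 47 (.dbl 27 11 15)))))) (.rp 25 (.thr 43 40 (.thr 63 23 (.thr 38 44 (.thr 55 4 (.dbl 51 19 59))))) (.rp 19 (.thr 43 40 (.thr 63 23 (.thr 38 44 (.thr 55 4 (.thr 51 59 (.thr 46 34 (.dbl 12 25 29))))))) (.rp 12 (.thr 51 19 (.thr 43 40 (.thr 63 23 (.thr 55 59 (.dbl 38 4 44))))) .nd))))))))))) .nd)))))))))) (.rp 34 (.thr 43 40 (.thr 47 39 (.thr 37 32 (.thr 45 33 (.dbl 44 38 46))))) (.rp 33 (.thr 43 40 (.thr 39 47 (.thr 38 44 (.thr 46 34 (.thr 55 4 (.thr 23 7 (.thr 63 3 (.thr 51 59 (.dbl 12 25 29))))))))) (.rp 32 (.str 26 (.nv (.thr 16 31 (.thr 11 56 (.thr 10 58 (.thr 8 9 (.thr 59 25 (.dbl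 43 27 40)))))) (.nv (.thr 40 43 (.thr 56 11 (.thr 8 24 (.thr 58 10 (.dbl 59 25 57))))) (.rp 59 (.thr 58 10 (.thr 11 56 (.thr 43 40 (.thr 16 31 (.thr 39 47 (.thr 38 44 (.thr 36 37 (.thr 55 4 (.thr 7 23 (.thr 15 3 (.thr 27 51 (.thr 24 25 (.thr 50 14 (.thr 54 62 (.thr 53 52 (.dbl 48 12 63)))))))))))))))) (.rp 58 (.thr 11 56 (.thr 43 40 (.thr 59 27 (.thr 39 47 (.thr 38 44 (.thr 36 37 (.thr 55 4 (.thr 51 63 (.dbl 25 8 12))))))))) (.rp 57 (.thr 10 58 (.thr 43 40 (.thr 11 56 (.thr 59 27 (.dbl 8 9 25))))) (.rp 56 (.thr 58 10 (.thr 43 40 (.thr 16 31 (.thr 39 47 (.thr 38 44 (.thr 36 37 (.thr 55 4 (.thr 46 34 (.thr 50 14 (.thr 54 62 (.thr 23 7 (.thr 52 53 (.thr 63 3 (.thr 51 59 (.dbl 12 25 29))))))))))))))) (.rp 43 (.thr 58 10 (.thr 56 11 (.thr 59 57 (.thr 38 44 (.thr 55 4 (.thr 51 63 (.dbl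 25 8 12))))))) (.rp 40 (.thr 10 58 (.thr 11 56 (.thr 8 9 (.thr 59 25 (.thr 43 27 (.thr 39 47 (.thr 38 44 (.thr 36 37 (.thr 55 4 (.thr 63 51 (.dbl 23 3 7))))))))))) (.rp 27 (.thr 58 10 (.thr 56 11 (.thr 59 57 (.thr 40 43 (.dbl 8 24 25))))) (.rp 25 (.thr 11 56 (.thr 43 40 (.thr 27 59 (.thr 39 47 (.thr 51 15 (.thr 19 3 (.dbl 31 16 23))))))) (.rp 16 (.str 48 (.nv (.thr 11 56 (.thr 15 37 (.thr 43 40 (.thr 39 47 (.dbl 27 51 59))))) (.nv (.thr 10 58 (.thr 11 56 (.thr 8 9 (.thr 59 25 (.dbl 43 27 40))))) (.nv (.thr 58 10 (.thr 53 63 (.dbl 37 5 15))) .nd)))) (.rp 11 (.thr 58 10 (.thr 16 31 (.thr 38 44 (.thr 55 4 (.thr 46 34 (.thr 50 14 (.thr 54 62 (.thr 53 52 (.thr 63 48 (.thr 51 59 (.dbl 12 25 29))))))))))) (.rp 10 (.thr 11 56 (.thr 43 40 (.thr 27 59 (.thr 16 31 (.thr 39 47 (.thr 15 51 (.thr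 37 48 (.dbl 38 36 44)))))))) (.rp 8 (.thr 10 58 (.thr 11 56 (.thr 40 43 (.thr 16 31 (.thr 38 44 (.thr 4 55 (.thr 34 46 (.thr 50 14 (.thr 18 2 (.thr 19 17 (.thr 3 51 (.thr 33 48 (.thr 7 15 (.thr 5 6 (.dbl 37 45 53))))))))))))))) .nd))))))))))))))) .nd)))))))))))) (.rp 60 (.str 37 (.nv (.thr 1 61 (.thr 5 53 (.thr 13 9 (.thr 49 25 (.dbl 33 17 45))))) (.nv (.thr 40 43 (.thr 32 47 (.thr 44 36 (.thr 33 45 (.dbl 35 34 38))))) (.rp 45 (.thr 5 53 (.thr 1 61 (.thr 13 9 (.thr 49 25 (.thr 33 17 (.thr 32 47 (.thr 40 43 (.thr 44 36 (.dbl 35 34 38))))))))) (.rp 40 .ext (.rp 33 (.thr 53 5 (.thr 61 1 (.thr 49 57 (.thr 13 25 (.thr 45 29 (.thr 47 32 (.thr 44 46 (.thr 35 38 (.dbl 43 39 40))))))))) .nd)))))) (.rp 59 (.str 37 (.nv (.thr 33 45 (.thr 40 43 (.thr 32 47 (.thr 44 36 (.dbl 35 34 38))))) (.nv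 (.thr 1 61 (.thr 5 53 (.thr 13 9 (.thr 33 45 (.dbl 49 17 25))))) (.rp 45 (.thr 40 43 (.thr 32 47 (.thr 44 36 (.thr 35 38 (.thr 33 34 (.thr 1 61 (.thr 5 53 (.thr 13 9 (.dbl 49 17 25))))))))) (.rp 33 (.thr 43 40 (.thr 47 32 (.thr 35 39 (.thr 44 38 (.thr 45 46 (.thr 61 1 (.thr 53 5 (.thr 49 57 (.dbl 13 25 29))))))))) .nd))))) (.rp 58 (.str 37 (.nv (.thr 1 61 (.thr 5 53 (.thr 13 9 (.thr 33 45 (.dbl 49 17 25))))) (.nv (.thr 40 43 (.thr 32 47 (.thr 44 36 (.thr 33 45 (.dbl 35 34 38))))) (.rp 45 (.thr 5 53 (.thr 1 61 (.thr 13 9 (.thr 49 25 (.thr 33 17 (.thr 32 47 (.thr 40 43 (.thr 44 36 (.dbl 35 34 38))))))))) (.rp 33 (.thr 53 5 (.thr 61 1 (.thr 49 57 (.thr 13 25 (.thr 45 29 (.thr 47 32 (.thr 44 46 (.thr 43 40 (.dbl 35 38 39))))))))) .nd))))) (.rp 57 (.str 37 (.nv (.thr 1 61 (.thr 33 45 (.thr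 5 53 (.thr 49 17 (.dbl 13 9 25))))) (.nv (.thr 40 43 (.thr 32 47 (.thr 44 36 (.thr 33 45 (.dbl 35 34 38))))) (.rp 45 (.str 56 (.nv (.thr 40 43 (.thr 32 47 (.thr 24 8 (.thr 26 11 (.thr 48 15 (.dbl 36 12 44)))))) (.nv (.thr 5 53 (.thr 40 43 (.thr 8 24 (.thr 11 26 (.thr 9 10 (.dbl 1 13 61)))))) (.nv (.thr 26 11 (.thr 48 15 (.thr 60 52 (.thr 61 1 (.thr 63 62 (.dbl 53 5 58)))))) (.rp 26 (.thr 1 61 (.thr 32 47 (.thr 40 43 (.thr 44 36 (.thr 8 24 (.thr 25 59 (.thr 35 38 (.thr 33 34 (.dbl 17 29 49))))))))) (.rp 11 (.thr 53 5 (.thr 1 61 (.thr 32 47 (.thr 40 43 (.thr 44 36 (.thr 8 24 (.thr 35 38 (.thr 33 34 (.thr 17 49 (.dbl 25 29 59)))))))))) (.rp 10 (.thr 47 32 (.thr 43 40 (.thr 39 35 (.thr 11 26 (.thr 27 59 (.thr 15 51 (.thr 63 31 (.dbl 3 7 23)))))))) (.rp 5 (.thr 32 47 (.thr 40 43 (.thr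 24 8 (.thr 26 11 (.thr 10 58 (.thr 48 15 (.dbl 36 12 44))))))) .nd)))))))) (.rp 34 (.thr 45 33 (.thr 43 40 (.thr 47 32 (.thr 35 39 (.dbl 44 38 46))))) (.rp 33 (.str 44 (.nv (.thr 47 32 (.thr 46 45 (.dbl 38 34 35))) (.nv (.thr 32 47 (.dbl 40 36 43)) (.rp 47 (.thr 40 43 (.thr 36 32 (.dbl 38 35 39))) (.rp 32 (.thr 43 40 (.thr 38 35 (.thr 34 46 (.thr 55 4 (.thr 39 36 (.thr 23 7 (.thr 63 3 (.thr 51 59 (.thr 15 27 (.thr 48 26 (.dbl 53 5 58))))))))))) .nd))))) .nd)))))) (.rp 56 (.str 37 (.nv (.thr 1 61 (.thr 5 53 (.thr 13 9 (.thr 33 45 (.dbl 49 17 25))))) (.nv (.thr 40 43 (.thr 32 47 (.thr 44 36 (.thr 33 45 (.dbl 35 34 38))))) (.rp 45 (.thr 5 53 (.thr 1 61 (.thr 13 9 (.thr 49 25 (.thr 33 17 (.thr 32 47 (.thr 40 43 (.thr 44 36 (.dbl 35 34 38))))))))) (.rp 33 (.thr 53 5 (.thr 61 1 (.thr 49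 57 (.thr 13 25 (.thr 45 29 (.thr 47 32 (.thr 44 46 (.thr 43 40 (.dbl 35 38 39))))))))) .nd))))) (.rp 55 (.str 25 (.nv (.thr 8 59 (.thr 9 57 (.thr 40 43 (.thr 56 24 (.dbl 11 10 26))))) (.nv (.thr 17 29 (.thr 1 61 (.thr 49 33 (.thr 9 57 (.dbl 13 5 37))))) (.rp 57 (.thr 40 43 (.thr 8 59 (.thr 56 24 (.thr 11 26 (.thr 9 10 (.thr 1 61 (.thr 17 29 (.thr 49 33 (.dbl 13 5 37))))))))) (.rp 9 (.thr 43 40 (.thr 59 8 (.thr 11 27 (.thr 56 26 (.thr 57 58 (.thr 61 1 (.thr 49 53 (.thr 29 17 (.dbl 13 37 45))))))))) .nd))))) (.rp 54 (.str 37 (.nv (.thr 1 61 (.thr 5 53 (.thr 13 9 (.thr 33 45 (.dbl 49 17 25))))) (.nv (.thr 40 43 (.thr 32 47 (.thr 44 36 (.thr 33 45 (.dbl 35 34 38))))) (.rp 45 (.thr 5 53 (.thr 1 61 (.thr 13 9 (.thr 49 25 (.thr 33 17 (.thr 32 47 (.thr 40 43 (.thr 44 36 (.dbl 35 34 38)))))))))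 (.rp 38 (.str 6 (.nv (.thr 1 61 (.thr 33 45 (.thr 49 17 (.thr 13 25 (.dbl 5 9 53))))) (.nv (.thr 5 53 (.thr 1 61 (.thr 13 9 (.thr 33 45 (.dbl 49 17 25))))) (.rp 61 (.str 15 (.nv (.thr 5 53 (.thr 7 4 (.thr 11 3 (.dbl 26 48 56)))) (.nv (.thr 47 32 (.thr 31 63 (.dbl 26 16 48))) (.rp 48 (.thr 43 40 (.thr 5 53 (.thr 7 4 (.thr 3 11 (.thr 63 23 (.dbl 47 31 32)))))) (.rp 26 (.thr 43 40 (.thr 47 32 (.thr 63 31 (.thr 3 23 (.thr 7 11 (.dbl 5 4 53)))))) .nd))))) (.rp 53 (.thr 45 33 (.thr 47 32 (.thr 46 44 (.thr 61 1 (.thr 29 13 (.thr 63 12 (.thr 15 31 (.dbl 60 30 62)))))))) (.rp 49 (.str 15 (.nv (.thr 5 53 (.thr 7 4 (.thr 11 3 (.dbl 26 48 56)))) (.nv (.thr 47 32 (.thr 31 63 (.dbl 26 16 48))) (.rp 48 (.thr 43 40 (.thr 5 53 (.thr 7 4 (.thr 3 11 (.thr 63 23 (.dbl 47 31 32)))))) (.rp 26 (.thr 47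 32 (.thr 63 31 (.thr 61 1 (.thr 60 62 (.dbl 45 30 33))))) .nd))))) (.rp 45 (.str 15 (.nv (.thr 1 61 (.thr 5 53 (.thr 7 4 (.thr 3 11 (.dbl 9 12 13))))) (.nv (.thr 47 32 (.thr 31 63 (.dbl 26 16 48))) .nd))) (.rp 33 (.thr 43 40 (.thr 47 32 (.thr 1 61 (.thr 5 53 (.thr 9 13 (.thr 3 12 (.thr 63 23 (.thr 15 31 (.dbl 7 4 11))))))))) (.rp 25 (.thr 45 33 (.thr 40 43 (.thr 47 32 (.thr 46 44 (.thr 1 61 (.thr 5 53 (.thr 9 13 (.thr 12 3 (.thr 7 4 (.thr 63 29 (.thr 15 31 (.thr 30 60 (.thr 14 62 (.thr 10 2 (.dbl 26 48 58))))))))))))))) (.rp 17 (.thr 45 33 (.thr 53 5 (.thr 61 1 (.thr 49 57 (.dbl 13 25 29))))) (.rp 13 (.str 15 (.nv (.thr 5 53 (.thr 7 4 (.thr 11 3 (.dbl 26 48 56)))) (.nv (.thr 47 32 (.thr 31 63 (.dbl 26 16 48))) (.rp 48 (.thr 45 33 (.thr 61 1 (.thr 60 30 (.thr 63 62 (.dbl 47 31 32)))))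 (.rp 26 (.thr 45 33 (.thr 47 32 (.thr 63 31 (.thr 61 1 (.dbl 60 30 62))))) .nd))))) (.rp 9 (.thr 45 33 (.thr 61 1 (.thr 13 29 (.thr 53 5 (.dbl 49 25 57))))) (.rp 5 (.str 15 (.nv (.thr 45 33 (.thr 60 30 (.thr 61 1 (.thr 63 62 (.dbl 47 31 32))))) (.nv (.thr 26 48 (.thr 11 56 (.thr 3 7 (.thr 9 12 (.dbl 10 8 58))))) (.nv (.thr 47 32 (.thr 31 63 (.dbl 26 16 48))) (.rp 32 (.thr 45 33 (.thr 61 1 (.thr 60 30 (.thr 63 62 (.thr 31 47 (.dbl 26 16 48)))))) (.rp 26 (.thr 45 33 (.thr 47 32 (.thr 63 31 (.thr 61 1 (.dbl 60 30 62))))) .nd)))))) (.rp 1 (.str 3 (.nv (.thr 5 53 (.thr 7 4 (.thr 15 11 (.thr 43 40 (.thr 63 23 (.dbl 47 31 32)))))) (.nv (.thr 9 12 (.thr 25 57 (.thr 40 43 (.thr 8 59 (.thr 56 24 (.dbl 11 10 26)))))) (.nv (.thr 33 45 (.thr 48 18 (.thr 53 5 (.thr 58 63 (.dbl 26 10 15))))) .nd))))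 .nd)))))))))))))) (.rp 33 (.thr 53 5 (.thr 61 1 (.thr 49 57 (.thr 13 25 (.thr 45 29 (.thr 47 32 (.thr 44 46 (.thr 43 40 (.dbl 35 38 39))))))))) (.rp 6 (.str 38 (.nv (.thr 1 61 (.thr 5 53 (.thr 13 9 (.thr 33 45 (.dbl 49 17 25))))) (.nv (.thr 36 39 (.thr 40 43 (.dbl 32 44 47))) .nd))) .nd))))))) (.rp 53 (.thr 40 43 (.str 25 (.nv (.thr 8 59 (.thr 56 24 (.thr 11 26 (.dbl 9 10 57)))) (.nv (.thr 1 61 (.thr 17 29 (.thr 9 57 (.thr 49 33 (.dbl 13 5 37))))) (.nv (.thr 9 57 (.thr 8 59 (.thr 56 24 (.dbl 11 10 26)))) (.rp 57 (.thr 17 29 (.thr 1 61 (.thr 49 33 (.thr 13 37 (.thr 9 5 (.thr 8 59 (.thr 56 24 (.dbl 11 10 26)))))))) (.rp 9 (.str 44 (.nv (.thr 8 59 (.thr 24 56 (.thr 38 35 (.thr 12 51 (.dbl 36 32 48))))) (.nv (.thr 1 61 (.thr 17 29 (.thr 32 36 (.thr 49 33 (.dbl 37 13 47))))) (.nv (.thr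 32 36 (.thr 37 47 (.thr 33 45 (.dbl 35 34 38)))) (.rp 47 (.thr 32 36 (.thr 17 29 (.thr 1 61 (.thr 35 38 (.dbl 33 34 49))))) (.rp 36 (.thr 29 17 (.thr 61 1 (.thr 38 35 (.thr 46 34 (.thr 51 12 (.dbl 45 13 47)))))) (.rp 32 (.thr 61 1 (.thr 38 35 (.thr 12 51 (.thr 60 28 (.thr 63 62 (.dbl 29 17 46)))))) .nd))))))) .nd))))))) (.rp 52 (.str 37 (.nv (.thr 1 61 (.thr 5 53 (.thr 13 9 (.thr 33 45 (.dbl 49 17 25))))) (.nv (.thr 40 43 (.thr 32 47 (.thr 44 36 (.thr 33 45 (.dbl 35 34 38))))) (.rp 45 (.thr 5 53 (.thr 1 61 (.thr 13 9 (.thr 49 25 (.thr 33 17 (.thr 32 47 (.thr 40 43 (.thr 44 36 (.dbl 35 34 38))))))))) (.rp 33 (.thr 53 5 (.thr 61 1 (.thr 49 57 (.thr 13 25 (.thr 45 29 (.thr 47 32 (.thr 44 46 (.thr 43 40 (.dbl 35 38 39))))))))) .nd))))) (.rp 51 (.str 37 (.nv (.thr 1 61 (.thr 5 53 (.thr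 13 9 (.thr 33 45 (.dbl 49 17 25))))) (.nv (.thr 33 45 (.thr 40 43 (.thr 32 47 (.thr 44 36 (.dbl 35 34 38))))) (.rp 45 (.str 17 (.nv (.thr 1 61 (.thr 49 33 (.dbl 25 13 29))) (.rp 61 (.thr 25 29 (.thr 13 49 (.thr 57 9 (.thr 59 8 (.thr 43 40 (.thr 11 27 (.dbl 56 26 58))))))) (.rp 49 (.thr 25 29 (.thr 9 57 (.thr 8 59 (.thr 11 10 (.thr 40 43 (.dbl 56 24 26)))))) (.rp 33 (.thr 25 29 (.thr 13 49 (.thr 9 57 (.dbl 1 5 61)))) (.rp 29 (.thr 5 53 (.thr 1 61 (.thr 13 9 (.dbl 49 25 33)))) (.rp 25 (.thr 1 61 (.thr 33 49 (.thr 32 47 (.thr 35 34 (.thr 40 43 (.dbl 44 36 38)))))) (.rp 13 (.thr 32 47 (.thr 40 43 (.thr 44 36 (.thr 35 38 (.thr 33 34 (.dbl 1 49 61)))))) (.rp 1 (.thr 25 29 (.thr 9 57 (.thr 8 59 (.thr 11 10 (.thr 40 43 (.dbl 56 24 26)))))) .nd))))))))) (.rp 34 (.str 17 (.nv (.thr 1 61 (.thr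 5 53 (.thr 13 9 (.dbl 25 29 49)))) (.nv (.thr 33 45 (.dbl 1 49 61)) (.rp 61 (.thr 33 45 (.thr 49 1 (.dbl 25 13 29))) (.rp 49 (.thr 45 33 (.thr 29 25 (.dbl 61 1 13))) (.rp 1 (.thr 45 33 (.thr 43 40 (.thr 47 32 (.thr 35 39 (.dbl 44 38 46))))) .nd)))))) (.rp 33 (.thr 43 40 (.thr 47 32 (.thr 35 39 (.thr 44 38 (.thr 45 46 (.thr 61 1 (.thr 53 5 (.thr 49 57 (.dbl 13 25 29))))))))) (.rp 17 (.str 34 (.nv (.thr 32 47 (.thr 38 46 (.thr 44 35 (.dbl 36 39 40)))) (.nv (.thr 33 45 (.dbl 32 35 47)) (.rp 47 (.thr 33 45 (.thr 35 32 (.dbl 38 44 46))) (.rp 35 (.thr 45 33 (.thr 46 38 (.dbl 47 32 44))) (.rp 32 (.thr 45 33 (.thr 53 5 (.thr 61 1 (.thr 49 57 (.dbl 13 25 29))))) .nd)))))) .nd))))))) (.rp 50 (.str 37 (.nv (.thr 1 61 (.thr 5 53 (.thr 13 9 (.thr 33 45 (.dbl 49 17 25))))) (.nv (.thr 40 43 (.thr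 32 47 (.thr 44 36 (.thr 33 45 (.dbl 35 34 38))))) (.rp 45 (.thr 5 53 (.thr 1 61 (.thr 13 9 (.thr 49 25 (.thr 33 17 (.thr 32 47 (.thr 40 43 (.thr 44 36 (.dbl 35 34 38))))))))) (.rp 33 (.thr 53 5 (.thr 61 1 (.thr 49 57 (.thr 13 25 (.thr 45 29 (.thr 47 32 (.thr 44 46 (.thr 43 40 (.dbl 35 38 39))))))))) .nd))))) (.rp 49 (.str 45 (.nv (.thr 1 61 (.thr 37 33 (.thr 47 32 (.thr 44 46 (.thr 35 38 (.dbl 43 39 40)))))) (.nv (.thr 37 33 (.thr 47 32 (.thr 44 46 (.thr 43 40 (.dbl 35 38 39))))) (.rp 48 (.thr 33 37 (.thr 61 1 (.thr 29 13 (.thr 25 17 (.thr 9 57 (.thr 8 59 (.thr 40 43 (.thr 56 24 (.dbl 11 10 26))))))))) (.rp 47 (.thr 33 37 (.thr 61 1 (.thr 29 13 (.thr 25 17 (.thr 9 57 (.thr 8 59 (.thr 40 43 (.thr 56 24 (.dbl 11 10 26))))))))) (.rp 46 (.thr 33 37 (.thr 61 1 (.thr 29 13 (.thr 25 17 (.thr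 9 57 (.thr 8 59 (.thr 40 43 (.thr 56 24 (.dbl 11 10 26))))))))) (.rp 44 (.thr 33 37 (.thr 61 1 (.thr 29 13 (.thr 25 17 (.thr 9 57 (.thr 8 59 (.thr 40 43 (.thr 56 24 (.dbl 11 10 26))))))))) (.rp 43 (.thr 61 1 (.thr 29 13 (.thr 37 33 (.thr 17 25 (.thr 47 32 (.thr 46 44 (.thr 63 12 (.thr 60 62 (.dbl 15 30 31))))))))) (.rp 40 (.str 60 (.nv (.thr 61 1 (.thr 29 13 (.thr 63 62 (.thr 46 12 (.thr 38 34 (.dbl 44 35 47)))))) (.nv (.thr 30 15 (.thr 61 1 (.thr 29 13 (.thr 28 31 (.thr 63 62 (.dbl 12 44 46)))))) (.nv (.thr 37 33 (.thr 47 32 (.thr 15 30 (.thr 31 63 (.dbl 26 16 48))))) (.rp 63 (.thr 37 33 (.thr 47 32 (.thr 44 46 (.thr 30 15 (.thr 28 12 (.thr 29 31 (.dbl 61 1 13))))))) (.rp 44 (.thr 61 1 (.thr 63 62 (.thr 15 30 (.thr 47 31 (.dbl 37 32 33))))) (.rp 37 (.thr 61 1 (.thr 62 63 (.thr 30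 15 (.thr 46 14 (.thr 38 34 (.dbl 44 35 47)))))) (.rp 33 (.str 29 (.nv (.dbl 61 1 13) (.rp 61 (.thr 30 15 (.thr 28 31 (.thr 44 12 (.thr 38 35 (.dbl 46 34 47))))) (.rp 17 (.thr 1 61 (.thr 30 15 (.thr 28 31 (.thr 44 12 (.thr 38 35 (.dbl 46 34 47)))))) (.rp 13 (.thr 30 15 (.thr 28 31 (.thr 12 44 (.thr 63 46 (.dbl 61 1 62))))) (.rp 1 (.thr 17 25 (.thr 13 61 (.thr 15 30 (.thr 12 14 (.thr 46 63 (.dbl 44 28 47)))))) .nd)))))) (.rp 17 (.thr 37 33 (.thr 1 61 (.thr 47 32 (.thr 15 30 (.thr 31 63 (.dbl 26 16 48)))))) (.rp 15 (.thr 61 1 (.thr 29 13 (.thr 37 33 (.thr 17 25 (.thr 63 62 (.thr 47 32 (.dbl 46 12 44))))))) (.rp 1 (.str 29 (.nv (.thr 17 25 (.thr 37 33 (.thr 47 32 (.thr 61 13 (.thr 63 62 (.dbl 46 12 44)))))) (.nv (.thr 13 61 (.thr 15 30 (.thr 25 17 (.thr 33 37 (.thr 57 9 (.thr 51 54 (.dbl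 12 14 38))))))) (.nv (.thr 17 25 (.thr 37 33 (.thr 30 15 (.thr 28 31 (.thr 47 32 (.dbl 44 12 46)))))) (.nv (.thr 13 61 (.thr 15 30 (.thr 12 14 (.thr 46 63 (.dbl 44 28 47))))) (.rp 33 (.thr 17 25 (.thr 13 61 (.thr 15 30 (.thr 12 14 (.thr 46 63 (.dbl 44 28 47)))))) (.rp 17 (.thr 33 37 (.thr 13 61 (.thr 15 30 (.thr 12 14 (.thr 44 28 (.dbl 46 47 63)))))) (.rp 12 (.thr 61 13 (.thr 63 62 (.thr 15 30 (.thr 47 31 (.dbl 37 32 33))))) (.rp 3 (.str 2 (.nv (.thr 61 13 (.thr 63 62 (.thr 46 12 (.thr 38 34 (.dbl 44 35 47))))) (.nv (.thr 13 61 (.thr 15 30 (.thr 25 17 (.thr 33 37 (.thr 57 9 (.thr 51 54 (.dbl 12 14 38))))))) (.nv (.thr 17 25 (.thr 37 33 (.thr 30 15 (.thr 28 31 (.thr 47 32 (.dbl 44 12 46)))))) (.nv (.thr 13 61 (.thr 15 30 (.thr 12 14 (.thr 46 63 (.dbl 44 28 47))))) (.rp 33 (.thr 17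 25 (.thr 13 61 (.thr 15 30 (.thr 12 14 (.thr 46 63 (.dbl 44 28 47)))))) (.rp 17 (.thr 33 37 (.thr 13 61 (.thr 15 30 (.thr 12 14 (.thr 44 28 (.dbl 46 47 63)))))) (.rp 15 (.thr 17 25 (.thr 37 33 (.thr 61 13 (.thr 47 32 (.thr 63 62 (.dbl 46 12 44)))))) (.rp 12 (.thr 61 13 (.thr 15 30 (.thr 63 62 (.thr 47 31 (.dbl 37 32 33))))) .nd))))))))) (.rp 2 (.str 3 (.nv (.thr 30 15 (.thr 28 31 (.thr 12 44 (.thr 9 6 (.dbl 25 17 57))))) (.nv (.thr 15 30 (.thr 11 7 (.thr 26 56 (.dbl 37 33 48)))) (.rp 33 (.thr 17 25 (.thr 13 61 (.thr 15 30 (.thr 12 14 (.thr 46 63 (.dbl 44 28 47)))))) (.rp 30 (.thr 61 13 (.thr 63 62 (.thr 46 12 (.thr 47 44 (.dbl 37 32 33))))) (.rp 17 (.thr 33 37 (.thr 13 61 (.thr 15 30 (.thr 12 14 (.thr 46 63 (.dbl 44 28 47)))))) (.rp 15 (.thr 61 13 (.thr 63 62 (.thr 12 46 (.thr 9 6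 (.dbl 25 17 57))))) .nd))))))) .nd)))))))))) .nd))))))))))) (.rp 39 (.thr 33 37 (.thr 61 1 (.thr 29 13 (.thr 25 17 (.thr 9 57 (.thr 8 59 (.thr 40 43 (.thr 56 24 (.dbl 11 10 26))))))))) (.rp 38 (.thr 33 37 (.thr 61 1 (.thr 29 13 (.thr 25 17 (.thr 9 57 (.thr 8 59 (.thr 40 43 (.thr 56 24 (.dbl 11 10 26))))))))) (.rp 37 (.thr 40 43 (.str 25 (.nv (.thr 8 59 (.thr 56 24 (.thr 11 26 (.dbl 9 10 57)))) (.nv (.thr 29 17 (.dbl 61 1 13)) (.rp 52 (.str 7 (.nv (.thr 8 59 (.thr 56 24 (.thr 11 26 (.dbl 9 10 57)))) (.nv (.thr 61 1 (.dbl 29 13 17)) .nd))) (.rp 7 (.str 52 (.nv (.thr 8 59 (.thr 56 24 (.thr 11 26 (.dbl 9 10 57)))) (.nv (.thr 29 17 (.dbl 61 1 13)) .nd))) .nd)))))) (.rp 35 (.thr 33 37 (.thr 61 1 (.thr 29 13 (.thr 25 17 (.thr 9 57 (.thr 8 59 (.thr 40 43 (.thr 56 24 (.dbl 11 10 26)))))))))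 (.rp 34 (.thr 37 33 (.thr 43 40 (.thr 47 32 (.thr 35 39 (.dbl 44 38 46))))) (.rp 33 (.thr 1 61 (.str 44 (.nv (.thr 40 43 (.thr 32 36 (.dbl 47 37 46))) (.nv (.thr 46 47 (.dbl 38 34 35)) (.rp 57 (.str 53 (.nv (.thr 37 5 (.thr 32 47 (.dbl 40 36 43))) (.nv (.thr 46 47 (.dbl 38 34 35)) (.rp 47 (.thr 37 5 (.thr 40 43 (.thr 36 32 (.dbl 38 35 39)))) .nd)))) (.rp 53 (.str 57 (.nv (.thr 40 43 (.thr 32 36 (.dbl 47 37 46))) (.nv (.thr 46 47 (.dbl 38 34 35)) (.rp 47 (.thr 25 9 (.thr 59 8 (.thr 56 58 (.thr 43 40 (.dbl 11 26 27))))) (.rp 46 (.thr 25 9 (.thr 59 8 (.thr 56 58 (.thr 43 40 (.dbl 11 26 27))))) .nd))))) (.rp 47 (.thr 38 35 (.thr 4 55 (.thr 34 46 (.str 25 (.nv (.thr 57 9 (.thr 59 8 (.thr 56 58 (.thr 11 26 (.dbl 43 27 40))))) (.nv (.thr 12 51 (.thr 60 28 (.thr 15 30 (.thr 14 13 (.thr 26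 50 (.thr 48 37 (.dbl 24 27 36))))))) (.nv (.thr 43 40 (.thr 59 8 (.thr 11 27 (.thr 57 9 (.dbl 56 26 58))))) (.rp 59 (.thr 51 12 (.thr 57 9 (.thr 60 54 (.thr 15 30 (.thr 39 27 (.thr 36 37 (.dbl 40 32 43))))))) (.rp 57 (.str 53 (.nv (.thr 5 37 (.thr 8 59 (.thr 9 13 (.thr 11 10 (.thr 56 26 (.dbl 40 24 43)))))) (.nv (.thr 5 37 (.thr 9 13 (.thr 12 51 (.dbl 6 3 7)))) (.rp 63 (.thr 5 37 (.thr 9 13 (.thr 12 51 (.thr 59 8 (.dbl 6 3 7))))) (.rp 59 (.thr 29 17 (.thr 37 5 (.thr 51 12 (.thr 39 36 (.thr 15 27 (.thr 30 60 (.thr 31 28 (.dbl 26 16 48)))))))) (.rp 52 (.thr 37 5 (.thr 12 51 (.thr 60 28 (.thr 15 30 (.thr 14 13 (.dbl 26 48 50)))))) (.rp 51 (.thr 37 5 (.thr 59 8 (.thr 36 39 (.thr 43 40 (.thr 20 52 (.thr 27 11 (.thr 24 26 (.thr 28 16 (.dbl 12 48 60))))))))) (.rp 48 (.thr 37 5 (.thr 51 12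 (.thr 59 8 (.thr 43 40 (.thr 27 11 (.dbl 39 15 36)))))) (.rp 43 (.str 39 (.nv (.dbl 37 5 36) (.rp 37 (.thr 51 12 (.thr 29 17 (.thr 15 27 (.thr 30 60 (.thr 31 28 (.thr 26 16 (.thr 11 56 (.thr 7 3 (.thr 5 6 (.thr 9 13 (.dbl 8 10 59))))))))))) (.rp 36 (.thr 5 37 (.thr 9 13 (.thr 12 51 (.dbl 6 3 7)))) (.rp 5 (.thr 36 37 (.thr 12 51 (.thr 52 20 (.thr 60 28 (.dbl 48 24 56))))) .nd))))) (.rp 39 (.thr 43 40 (.thr 5 37 (.thr 9 13 (.thr 12 51 (.dbl 6 3 7))))) (.rp 37 (.thr 12 51 (.thr 60 28 (.thr 59 8 (.thr 43 40 (.thr 27 11 (.thr 15 30 (.thr 14 13 (.dbl 26 24 50)))))))) (.rp 13 (.thr 37 5 (.thr 51 12 (.thr 59 8 (.thr 39 36 (.thr 43 40 (.dbl 27 11 15)))))) (.rp 9 (.thr 37 5 (.thr 12 51 (.thr 60 28 (.thr 15 30 (.thr 14 13 (.dbl 26 48 50)))))) (.rp 7 (.thr 37 5 (.thr 12 51 (.thr 60 28 (.thr 15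 30 (.thr 14 13 (.dbl 26 48 50)))))) (.rp 5 (.thr 12 51 (.thr 60 28 (.thr 15 30 (.thr 14 13 (.thr 26 50 (.thr 48 37 (.dbl 56 11 52))))))) .nd))))))))))))))) (.rp 43 (.str 39 (.nv (.thr 57 9 (.thr 29 17 (.thr 51 12 (.thr 15 27 (.dbl 60 30 54))))) (.nv (.thr 8 59 (.thr 36 37 (.thr 40 32 (.thr 24 56 (.dbl 12 48 51))))) (.nv (.thr 51 12 (.thr 57 9 (.thr 60 54 (.dbl 15 27 30)))) (.rp 57 (.str 53 (.nv (.dbl 37 5 36) (.rp 37 (.thr 51 12 (.thr 29 17 (.thr 15 27 (.thr 30 60 (.thr 31 28 (.thr 26 16 (.thr 11 56 (.thr 7 3 (.thr 5 6 (.thr 9 13 (.dbl 8 10 59))))))))))) (.rp 36 (.thr 5 37 (.thr 9 13 (.thr 12 51 (.dbl 6 3 7)))) (.rp 5 (.thr 36 37 (.thr 12 51 (.thr 52 20 (.thr 60 28 (.dbl 48 24 56))))) .nd))))) (.rp 51 (.thr 37 36 (.thr 59 8 (.thr 53 5 (.thr 57 9 (.thr 58 56 (.thr 48 63 (.dbl 26 10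 15))))))) (.rp 27 (.thr 36 37 (.thr 12 51 (.thr 60 28 (.thr 52 20 (.dbl 48 24 56))))) (.rp 12 (.thr 36 37 (.thr 40 32 (.thr 8 59 (.thr 56 24 (.thr 11 26 (.dbl 9 10 57)))))) .nd)))))))) (.rp 27 (.thr 12 51 (.thr 60 28 (.thr 15 30 (.thr 14 13 (.thr 26 50 (.thr 48 37 (.dbl 56 11 52))))))) (.rp 26 (.thr 59 8 (.thr 12 51 (.thr 57 9 (.thr 60 28 (.thr 56 58 (.thr 48 52 (.thr 36 24 (.dbl 40 32 43)))))))) .nd)))))))))))) (.rp 46 (.thr 40 43 (.str 25 (.nv (.thr 8 59 (.thr 24 56 (.thr 38 35 (.thr 12 51 (.dbl 36 32 48))))) (.nv (.thr 8 59 (.thr 56 24 (.thr 11 26 (.dbl 9 10 57)))) (.rp 59 (.thr 38 35 (.thr 12 51 (.thr 60 28 (.thr 15 30 (.thr 14 13 (.thr 26 50 (.thr 48 37 (.dbl 56 11 52)))))))) (.rp 57 (.str 53 (.nv (.thr 32 36 (.dbl 37 5 47)) (.rp 47 (.thr 36 32 (.thr 37 5 (.dbl 38 35 39))) (.rp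 37 (.thr 8 59 (.thr 56 24 (.thr 38 35 (.thr 55 4 (.thr 52 54 (.thr 60 48 (.dbl 12 28 51))))))) (.rp 36 (.thr 5 37 (.thr 9 13 (.thr 8 59 (.thr 56 24 (.dbl 11 10 26))))) (.rp 32 (.thr 5 37 (.thr 9 13 (.thr 8 59 (.thr 56 24 (.dbl 11 10 26))))) (.rp 5 (.thr 8 59 (.thr 56 24 (.thr 38 35 (.thr 55 4 (.thr 52 54 (.thr 60 48 (.dbl 12 28 51))))))) .nd))))))) (.rp 56 (.thr 57 9 (.thr 38 35 (.thr 51 12 (.thr 60 54 (.thr 15 30 (.thr 39 27 (.dbl 36 32 37))))))) (.rp 53 (.thr 57 9 (.thr 8 59 (.thr 24 56 (.thr 38 35 (.thr 12 51 (.dbl 36 32 48)))))) (.rp 27 (.thr 32 36 (.thr 57 9 (.thr 37 47 (.thr 53 5 (.thr 59 8 (.thr 58 56 (.thr 48 63 (.dbl 26 10 15)))))))) (.rp 24 (.thr 57 9 (.thr 38 35 (.thr 51 12 (.thr 60 54 (.thr 15 30 (.thr 39 27 (.dbl 36 32 37))))))) (.rp 11 (.thr 38 35 (.thr 12 51 (.thr 60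 28 (.thr 15 30 (.thr 14 13 (.thr 26 50 (.thr 48 37 (.dbl 24 27 36)))))))) (.rp 8 (.thr 57 9 (.thr 38 35 (.thr 4 55 (.thr 51 12 (.thr 60 54 (.thr 15 30 (.thr 39 27 (.dbl 36 32 37)))))))) .nd)))))))))))) .nd)))))))) (.rp 32 (.thr 33 37 (.thr 61 1 (.thr 29 13 (.thr 25 17 (.thr 9 57 (.thr 8 59 (.thr 40 43 (.thr 56 24 (.dbl 11 10 26))))))))) (.rp 16 (.thr 33 37 (.thr 61 1 (.thr 29 13 (.thr 25 17 (.thr 9 57 (.thr 8 59 (.thr 40 43 (.thr 56 24 (.dbl 11 10 26))))))))) (.rp 1 (.str 17 (.nv (.thr 25 29 (.thr 8 59 (.thr 9 57 (.thr 11 10 (.thr 40 43 (.dbl 56 24 26)))))) (.nv (.thr 43 40 (.thr 37 33 (.thr 47 32 (.thr 35 39 (.dbl 44 38 46))))) (.rp 43 (.thr 37 33 (.thr 29 25 (.thr 53 5 (.thr 47 32 (.thr 46 44 (.thr 63 12 (.thr 15 31 (.dbl 48 26 58)))))))) (.rp 40 (.thr 37 33 (.thr 25 29 (.thr 57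 9 (.thr 59 8 (.thr 47 32 (.thr 44 46 (.thr 35 38 (.thr 43 39 (.thr 11 27 (.dbl 56 26 58)))))))))) (.rp 3 (.str 2 (.nv (.thr 25 29 (.thr 8 59 (.thr 9 57 (.thr 11 10 (.thr 40 43 (.dbl 56 24 26)))))) (.nv (.thr 43 40 (.thr 37 33 (.thr 47 32 (.thr 35 39 (.dbl 44 38 46))))) (.rp 43 (.thr 37 33 (.thr 29 25 (.thr 53 5 (.thr 47 32 (.thr 46 44 (.thr 63 12 (.thr 15 31 (.dbl 48 26 58)))))))) (.rp 40 (.thr 37 33 (.thr 25 29 (.thr 57 9 (.thr 59 8 (.thr 47 32 (.thr 44 46 (.thr 35 38 (.thr 43 39 (.thr 11 27 (.dbl 56 26 58)))))))))) .nd))))) (.rp 2 (.str 3 (.nv (.thr 25 29 (.thr 9 57 (.thr 12 6 (.thr 38 51 (.thr 44 35 (.dbl 46 34 47)))))) (.nv (.thr 25 29 (.thr 8 59 (.thr 9 57 (.thr 11 10 (.thr 40 43 (.dbl 56 24 26)))))) (.nv (.thr 43 40 (.thr 37 33 (.thr 47 32 (.thr 35 39 (.dbl 44 38 46))))) .nd))))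 .nd))))))) .nd)))))))))))))))))) (.rp 48 (.str 25 (.nv (.thr 8 59 (.thr 9 57 (.thr 40 43 (.thr 56 24 (.dbl 11 10 26))))) (.nv (.thr 17 29 (.thr 1 61 (.thr 49 33 (.thr 9 57 (.dbl 13 5 37))))) (.rp 57 (.thr 40 43 (.thr 8 59 (.thr 56 24 (.thr 11 26 (.thr 9 10 (.thr 1 61 (.thr 17 29 (.thr 49 33 (.dbl 13 5 37))))))))) (.rp 32 (.str 16 (.nv (.thr 26 31 (.thr 24 27 (.thr 40 43 (.dbl 8 56 59)))) (.nv (.thr 1 61 (.thr 9 57 (.thr 17 29 (.thr 49 33 (.dbl 13 5 37))))) (.nv (.thr 8 59 (.thr 9 57 (.thr 26 31 (.dbl 10 11 58)))) .nd)))) (.rp 16 (.str 32 (.nv (.thr 1 61 (.thr 8 59 (.thr 9 57 (.thr 11 10 (.thr 40 43 (.dbl 56 24 26)))))) (.nv (.thr 40 43 (.thr 44 36 (.thr 37 47 (.thr 33 45 (.dbl 35 34 38))))) (.nv (.thr 1 61 (.thr 9 57 (.thr 37 47 (.dbl 5 13 53)))) .nd)))) (.rp 9 (.thr 43 40 (.thr 59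 8 (.thr 11 27 (.thr 56 26 (.thr 57 58 (.thr 61 1 (.thr 29 17 (.thr 13 45 (.dbl 49 37 53))))))))) .nd))))))) (.rp 47 (.str 25 (.nv (.thr 9 57 (.thr 40 43 (.thr 8 59 (.thr 56 24 (.dbl 11 10 26))))) (.nv (.thr 1 61 (.thr 17 29 (.thr 9 57 (.thr 49 33 (.dbl 13 5 37))))) (.rp 57 (.thr 40 43 (.thr 8 59 (.thr 56 24 (.thr 11 26 (.thr 9 10 (.thr 1 61 (.thr 17 29 (.thr 49 33 (.dbl 13 5 37))))))))) (.rp 9 (.thr 43 40 (.thr 59 8 (.thr 11 27 (.thr 56 26 (.thr 57 58 (.thr 61 1 (.thr 29 17 (.thr 13 45 (.dbl 49 37 53))))))))) .nd))))) (.rp 46 (.str 25 (.nv (.thr 1 61 (.thr 9 57 (.thr 17 29 (.thr 49 33 (.dbl 13 5 37))))) (.nv (.thr 40 43 (.thr 8 59 (.thr 56 24 (.thr 9 57 (.dbl 11 10 26))))) (.rp 57 (.thr 17 29 (.thr 1 61 (.thr 49 33 (.thr 13 37 (.thr 9 5 (.thr 8 59 (.thr 40 43 (.thr 56 24 (.dbl 11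 10 26))))))))) (.rp 9 (.thr 29 17 (.thr 61 1 (.thr 13 45 (.thr 49 37 (.thr 57 53 (.thr 59 8 (.thr 56 58 (.thr 43 40 (.dbl 11 26 27))))))))) .nd))))) (.rp 45 (.str 25 (.nv (.thr 17 29 (.thr 9 57 (.thr 1 61 (.thr 13 5 (.dbl 49 33 37))))) (.nv (.thr 40 43 (.thr 8 59 (.thr 56 24 (.thr 9 57 (.dbl 11 10 26))))) (.rp 57 (.str 44 (.nv (.thr 8 59 (.thr 38 35 (.thr 12 51 (.thr 34 46 (.thr 40 43 (.thr 36 32 (.dbl 24 48 56))))))) (.nv (.thr 17 29 (.thr 40 43 (.thr 32 36 (.thr 35 38 (.thr 33 34 (.dbl 1 49 61)))))) (.nv (.thr 38 35 (.thr 12 51 (.thr 60 28 (.thr 61 1 (.thr 63 62 (.dbl 29 17 46)))))) (.rp 38 (.thr 1 61 (.thr 8 59 (.thr 40 43 (.thr 56 24 (.thr 32 36 (.thr 37 47 (.thr 11 26 (.thr 9 10 (.dbl 5 13 53))))))))) (.rp 35 (.thr 29 17 (.thr 1 61 (.thr 8 59 (.thr 40 43 (.thr 56 24 (.thr 32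 36 (.thr 11 26 (.thr 9 10 (.thr 5 13 (.dbl 37 47 53)))))))))) (.rp 34 (.thr 59 8 (.thr 43 40 (.thr 27 11 (.thr 35 38 (.thr 39 47 (.thr 51 15 (.thr 63 55 (.dbl 3 19 23)))))))) .nd))))))) (.rp 10 (.thr 57 9 (.thr 43 40 (.thr 59 8 (.thr 11 27 (.dbl 56 26 58))))) (.rp 9 (.str 56 (.nv (.thr 59 8 (.thr 58 57 (.dbl 26 10 11))) (.nv (.thr 8 59 (.dbl 40 24 43)) (.rp 59 (.thr 40 43 (.thr 24 8 (.dbl 26 11 27))) (.rp 8 (.thr 43 40 (.thr 26 11 (.thr 10 58 (.thr 31 16 (.thr 27 24 (.thr 23 19 (.thr 63 3 (.thr 15 47 (.thr 51 39 (.thr 12 38 (.dbl 29 17 46))))))))))) .nd))))) .nd)))))) (.rp 44 (.str 25 (.nv (.thr 1 61 (.thr 9 57 (.thr 17 29 (.thr 49 33 (.dbl 13 5 37))))) (.nv (.thr 40 43 (.thr 8 59 (.thr 56 24 (.thr 9 57 (.dbl 11 10 26))))) (.rp 57 (.thr 17 29 (.thr 1 61 (.thr 49 33 (.thr 13 37 (.thr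 9 5 (.thr 8 59 (.thr 40 43 (.thr 56 24 (.dbl 11 10 26))))))))) (.rp 9 (.thr 29 17 (.thr 61 1 (.thr 13 45 (.thr 49 37 (.thr 57 53 (.thr 59 8 (.thr 56 58 (.thr 43 40 (.dbl 11 26 27))))))))) .nd))))) (.rp 43 (.str 37 (.nv (.thr 5 53 (.thr 1 61 (.thr 13 9 (.thr 33 45 (.dbl 49 17 25))))) (.rp 61 (.str 48 (.nv (.thr 53 5 (.thr 58 63 (.dbl 26 10 15))) (.nv (.thr 53 5 (.thr 63 58 (.thr 47 32 (.dbl 15 26 31)))) (.rp 63 (.thr 5 53 (.thr 26 15 (.thr 10 58 (.thr 11 56 (.thr 9 8 (.thr 13 1 (.dbl 25 49 57))))))) (.rp 58 (.thr 33 45 (.thr 32 47 (.thr 35 34 (.thr 3 18 (.thr 51 19 (.thr 50 49 (.thr 26 15 (.dbl 38 14 44)))))))) (.rp 53 (.thr 45 33 (.thr 47 32 (.thr 46 44 (.thr 15 26 (.thr 30 60 (.thr 14 62 (.thr 63 31 (.dbl 12 13 29)))))))) (.rp 26 (.thr 45 33 (.thr 47 32 (.thr 46 44 (.thr 53 5 (.thr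 63 58 (.thr 12 29 (.thr 36 24 (.dbl 38 34 39)))))))) (.rp 15 (.thr 33 45 (.thr 32 47 (.thr 35 34 (.thr 44 38 (.thr 36 40 (.thr 12 24 (.thr 60 28 (.thr 5 53 (.thr 3 18 (.thr 6 9 (.thr 4 7 (.dbl 52 20 56)))))))))))) (.rp 10 (.thr 47 32 (.thr 53 5 (.thr 15 26 (.dbl 63 31 58)))) (.rp 5 (.thr 45 33 (.thr 47 32 (.thr 46 44 (.thr 15 26 (.thr 30 60 (.thr 14 62 (.thr 63 31 (.dbl 12 13 29)))))))) .nd)))))))))) (.rp 57 (.thr 33 45 (.thr 1 61 (.thr 5 53 (.thr 49 17 (.dbl 13 9 25))))) (.rp 53 (.thr 45 33 (.thr 47 32 (.thr 46 44 (.thr 61 1 (.thr 29 13 (.thr 63 12 (.thr 15 31 (.dbl 60 30 62)))))))) (.rp 49 (.str 48 (.nv (.thr 15 26 (.thr 47 32 (.thr 53 5 (.dbl 63 31 58)))) (.nv (.thr 53 5 (.thr 58 63 (.dbl 26 10 15))) (.rp 63 (.thr 1 61 (.thr 26 15 (.thr 10 58 (.thr 11 56 (.thr 9 8 (.dbl 5 13 53))))))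 (.rp 58 (.thr 47 32 (.thr 61 1 (.thr 15 26 (.thr 63 31 (.thr 60 62 (.dbl 45 30 33)))))) (.rp 53 (.thr 47 32 (.thr 61 1 (.thr 15 26 (.thr 63 31 (.thr 60 62 (.dbl 45 30 33)))))) (.rp 26 (.thr 45 33 (.thr 47 32 (.thr 46 44 (.thr 53 5 (.thr 63 58 (.thr 29 12 (.dbl 61 1 13))))))) (.rp 15 (.thr 33 45 (.thr 32 47 (.thr 35 34 (.thr 44 38 (.thr 36 40 (.thr 12 24 (.thr 60 28 (.thr 61 1 (.thr 63 62 (.dbl 53 5 58)))))))))) (.rp 5 (.thr 47 32 (.thr 61 1 (.thr 15 26 (.thr 63 31 (.thr 60 62 (.dbl 45 30 33)))))) .nd))))))))) (.rp 45 (.str 15 (.nv (.thr 47 32 (.thr 48 26 (.thr 53 5 (.dbl 63 31 58)))) (.nv (.thr 47 32 (.thr 31 63 (.dbl 26 16 48))) (.rp 63 (.thr 61 1 (.thr 53 5 (.thr 57 49 (.thr 26 48 (.thr 58 10 (.dbl 56 11 59)))))) (.rp 48 (.str 13 (.nv (.thr 32 47 (.thr 1 61 (.thr 9 5 (.dbl 25 49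 57)))) (.nv (.thr 1 61 (.dbl 5 9 53)) (.rp 61 (.thr 5 53 (.thr 9 1 (.dbl 25 49 57))) (.rp 32 (.str 16 (.nv (.thr 1 61 (.dbl 5 9 53)) (.rp 61 (.thr 5 53 (.thr 9 1 (.dbl 25 49 57))) (.rp 53 (.thr 1 61 (.thr 9 5 (.dbl 25 49 57))) (.rp 9 (.thr 49 25 (.thr 53 5 (.dbl 61 1 57))) (.rp 5 (.thr 12 14 (.thr 26 31 (.thr 25 49 (.thr 27 24 (.dbl 51 38 39))))) (.rp 1 (.thr 12 14 (.thr 26 31 (.thr 25 49 (.thr 27 24 (.dbl 51 38 39))))) .nd))))))) (.rp 9 (.thr 61 1 (.thr 53 5 (.dbl 49 25 57))) (.rp 5 (.thr 12 14 (.thr 25 49 (.thr 29 17 (.thr 46 63 (.dbl 38 34 51))))) (.rp 1 (.thr 12 14 (.thr 25 49 (.thr 8 59 (.thr 9 57 (.thr 3 6 (.dbl 11 7 10)))))) .nd)))))))) (.rp 47 (.thr 1 61 (.thr 26 48 (.thr 10 58 (.thr 11 56 (.thr 9 8 (.dbl 5 13 53)))))) (.rp 32 (.thr 1 61 (.thr 26 48 (.thr 16 31 (.thr 10 58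 (.thr 11 56 (.thr 9 8 (.dbl 5 13 53))))))) (.rp 31 (.thr 1 61 (.thr 26 48 (.thr 10 58 (.thr 11 56 (.thr 9 8 (.dbl 5 13 53)))))) (.rp 26 (.thr 47 32 (.thr 63 31 (.thr 1 61 (.thr 5 53 (.thr 13 9 (.thr 12 14 (.thr 29 46 (.dbl 25 17 49)))))))) .nd))))))))) (.rp 33 (.str 15 (.nv (.thr 48 26 (.thr 53 5 (.thr 63 58 (.dbl 47 31 32)))) (.nv (.thr 47 32 (.thr 31 63 (.dbl 26 16 48))) (.rp 63 (.thr 61 1 (.thr 53 5 (.thr 26 48 (.thr 58 10 (.thr 56 11 (.dbl 57 49 59)))))) (.rp 48 (.thr 61 1 (.thr 53 5 (.thr 49 57 (.thr 13 25 (.thr 12 14 (.thr 29 45 (.thr 63 46 (.dbl 47 31 32)))))))) (.rp 47 (.thr 1 61 (.thr 5 53 (.thr 9 13 (.thr 26 48 (.thr 11 56 (.dbl 10 8 58)))))) (.rp 32 (.thr 1 61 (.thr 5 53 (.thr 9 13 (.thr 26 48 (.thr 16 31 (.thr 11 56 (.dbl 10 8 58))))))) (.rp 31 (.thr 1 61 (.thr 5 53 (.thr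 9 13 (.thr 26 48 (.thr 11 56 (.dbl 10 8 58)))))) (.rp 26 (.thr 47 32 (.thr 63 31 (.thr 1 61 (.thr 5 53 (.thr 13 9 (.thr 12 14 (.thr 29 46 (.dbl 25 17 49)))))))) .nd))))))))) (.rp 25 (.thr 45 33 (.thr 47 32 (.thr 46 44 (.thr 61 1 (.thr 29 13 (.thr 63 12 (.thr 15 31 (.dbl 60 30 62)))))))) (.rp 17 (.thr 45 33 (.thr 53 5 (.thr 61 1 (.thr 49 57 (.dbl 13 25 29))))) (.rp 13 (.str 15 (.nv (.thr 47 32 (.thr 48 26 (.thr 53 5 (.dbl 63 31 58)))) (.nv (.thr 47 32 (.thr 31 63 (.dbl 26 16 48))) (.rp 63 (.thr 61 1 (.thr 26 48 (.thr 11 56 (.thr 10 58 (.thr 53 5 (.thr 9 8 (.dbl 57 25 49))))))) (.rp 48 (.thr 45 33 (.thr 61 1 (.thr 60 30 (.thr 63 62 (.dbl 47 31 32))))) (.rp 47 (.thr 61 1 (.thr 26 48 (.thr 10 58 (.thr 11 56 (.thr 9 8 (.thr 53 5 (.dbl 57 25 49))))))) (.rp 32 (.thr 45 33 (.thr 61 1 (.thr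 60 30 (.thr 63 62 (.thr 31 47 (.dbl 26 16 48)))))) (.rp 31 (.thr 61 1 (.thr 26 48 (.thr 10 58 (.thr 11 56 (.thr 9 8 (.thr 53 5 (.dbl 57 25 49))))))) (.rp 26 (.thr 45 33 (.thr 47 32 (.thr 63 31 (.thr 61 1 (.dbl 60 30 62))))) .nd))))))))) (.rp 9 (.thr 45 33 (.thr 61 1 (.thr 13 29 (.thr 53 5 (.dbl 49 25 57))))) (.rp 5 (.str 15 (.nv (.thr 45 33 (.thr 60 30 (.thr 61 1 (.thr 63 62 (.dbl 47 31 32))))) (.nv (.thr 47 32 (.thr 31 63 (.dbl 26 16 48))) (.rp 63 (.thr 45 33 (.thr 47 32 (.thr 46 44 (.thr 61 1 (.thr 13 29 (.thr 14 12 (.dbl 30 60 62))))))) (.rp 47 (.thr 45 33 (.thr 61 1 (.thr 13 29 (.thr 14 12 (.thr 30 60 (.thr 46 62 (.thr 38 34 (.dbl 26 48 50)))))))) (.rp 32 (.thr 45 33 (.thr 61 1 (.thr 60 30 (.thr 63 62 (.thr 31 47 (.dbl 26 16 48)))))) (.rp 31 (.thr 45 33 (.thr 47 32 (.thr 46 44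 (.thr 61 1 (.thr 13 29 (.thr 14 12 (.dbl 30 60 62))))))) (.rp 26 (.thr 45 33 (.thr 47 32 (.thr 63 31 (.thr 61 1 (.dbl 60 30 62))))) (.rp 3 (.thr 45 33 (.thr 47 32 (.thr 63 31 (.thr 60 30 (.dbl 61 1 62))))) .nd))))))))) (.rp 1 (.thr 33 45 (.str 3 (.nv (.thr 53 5 (.thr 48 18 (.thr 58 63 (.dbl 26 10 15)))) (.rp 63 (.thr 48 18 (.thr 26 15 (.thr 10 58 (.thr 11 56 (.thr 9 8 (.thr 12 6 (.thr 24 36 (.dbl 25 27 57)))))))) (.rp 58 (.thr 32 47 (.thr 35 34 (.thr 51 19 (.thr 48 18 (.thr 26 15 (.thr 50 49 (.dbl 38 14 44))))))) (.rp 53 (.thr 32 47 (.thr 35 34 (.thr 51 19 (.thr 48 18 (.thr 26 15 (.thr 50 49 (.dbl 38 14 44))))))) (.rp 48 (.str 26 (.nv (.thr 5 53 (.thr 11 56 (.thr 7 15 (.thr 4 6 (.thr 32 47 (.thr 35 34 (.dbl 38 44 55))))))) (.nv (.thr 5 53 (.thr 11 56 (.thr 7 15 (.thr 6 4 (.thr 9 12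 (.thr 8 10 (.dbl 25 57 59))))))) (.nv (.thr 32 47 (.thr 35 34 (.thr 51 19 (.thr 11 56 (.thr 15 7 (.thr 39 27 (.dbl 38 36 44))))))) (.rp 60 (.thr 58 10 (.thr 56 11 (.thr 59 57 (.thr 8 25 (.thr 40 24 (.thr 32 47 (.thr 35 34 (.dbl 44 36 38)))))))) (.rp 56 (.thr 5 53 (.thr 32 47 (.thr 35 34 (.thr 16 31 (.thr 19 51 (.thr 17 18 (.thr 25 29 (.thr 9 57 (.thr 6 12 (.thr 4 7 (.dbl 38 44 55))))))))))) (.rp 52 (.thr 58 10 (.thr 56 11 (.thr 59 57 (.thr 8 25 (.thr 40 24 (.thr 32 47 (.thr 35 34 (.dbl 44 36 38)))))))) (.rp 32 (.thr 16 31 (.thr 10 58 (.thr 11 56 (.thr 9 8 (.thr 15 7 (.thr 12 6 (.thr 13 14 (.dbl 25 49 57)))))))) (.rp 15 (.thr 10 58 (.thr 11 56 (.thr 9 8 (.thr 32 47 (.thr 35 34 (.thr 51 19 (.thr 12 6 (.dbl 25 38 57)))))))) (.rp 11 (.thr 5 53 (.thr 32 47 (.thr 35 34 (.thr 16 31 (.thr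 19 51 (.thr 17 18 (.thr 25 29 (.thr 9 57 (.thr 6 12 (.thr 4 7 (.dbl 38 44 55))))))))))) (.rp 7 (.thr 10 58 (.thr 11 56 (.thr 9 8 (.thr 32 47 (.thr 35 34 (.thr 51 19 (.thr 12 6 (.dbl 25 38 57)))))))) .nd))))))))))) (.rp 30 (.thr 5 53 (.thr 32 47 (.thr 35 34 (.thr 18 48 (.thr 19 51 (.thr 17 16 (.thr 25 29 (.thr 9 57 (.thr 6 12 (.thr 4 7 (.dbl 38 44 55))))))))))) (.rp 26 (.thr 5 53 (.thr 32 47 (.thr 35 34 (.thr 18 48 (.thr 19 51 (.thr 17 16 (.thr 25 29 (.thr 9 57 (.thr 6 12 (.thr 4 7 (.dbl 38 44 55))))))))))) (.rp 18 (.str 26 (.nv (.thr 11 56 (.dbl 15 7 48)) (.rp 56 (.thr 48 15 (.thr 32 47 (.thr 35 34 (.thr 51 19 (.thr 50 49 (.dbl 38 14 44)))))) (.rp 48 (.thr 10 58 (.thr 11 56 (.thr 9 8 (.thr 15 7 (.thr 12 6 (.thr 13 14 (.dbl 25 49 57))))))) (.rp 15 (.thr 10 58 (.thr 11 56 (.thr 9 8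 (.thr 5 53 (.thr 6 12 (.thr 4 7 (.thr 38 55 (.dbl 14 2 50)))))))) (.rp 11 (.thr 48 15 (.thr 32 47 (.thr 35 34 (.thr 51 19 (.thr 50 49 (.dbl 38 14 44)))))) (.rp 7 (.thr 48 15 (.thr 32 47 (.thr 35 34 (.thr 51 19 (.thr 50 49 (.dbl 38 14 44)))))) .nd))))))) (.rp 15 (.thr 5 53 (.thr 32 47 (.thr 35 34 (.thr 44 38 (.thr 36 40 (.thr 48 18 (.thr 12 24 (.thr 6 9 (.thr 4 7 (.thr 52 20 (.dbl 60 28 56))))))))))) (.rp 13 (.thr 32 47 (.thr 35 34 (.thr 51 19 (.thr 48 18 (.thr 26 15 (.thr 50 49 (.dbl 38 14 44))))))) (.rp 10 (.thr 5 53 (.thr 32 47 (.thr 35 34 (.thr 51 19 (.thr 48 18 (.thr 26 15 (.thr 50 49 (.dbl 38 14 44)))))))) (.rp 9 (.thr 32 47 (.thr 35 34 (.thr 51 19 (.thr 48 18 (.thr 26 15 (.thr 50 49 (.dbl 38 14 44))))))) (.rp 5 (.thr 32 47 (.thr 35 34 (.thr 51 19 (.thr 48 18 (.thr 26 15 (.thr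 10 58 (.thr 50 49 (.dbl 38 14 44)))))))) .nd))))))))))))))) .nd)))))))))))))) (.rp 40 .ext (.rp 39 (.str 25 (.nv (.thr 8 59 (.thr 9 57 (.thr 40 43 (.thr 56 24 (.dbl 11 10 26))))) (.nv (.thr 17 29 (.thr 1 61 (.thr 49 33 (.thr 9 57 (.dbl 13 5 37))))) (.rp 57 (.thr 40 43 (.thr 8 59 (.thr 56 24 (.thr 11 26 (.thr 9 10 (.thr 1 61 (.thr 17 29 (.thr 49 33 (.dbl 13 5 37))))))))) (.rp 9 (.thr 43 40 (.thr 59 8 (.thr 11 27 (.thr 56 26 (.thr 57 58 (.thr 61 1 (.thr 49 53 (.thr 29 17 (.dbl 13 37 45))))))))) .nd))))) (.rp 38 (.str 25 (.nv (.thr 1 61 (.thr 9 57 (.thr 17 29 (.thr 49 33 (.dbl 13 5 37))))) (.nv (.thr 40 43 (.thr 8 59 (.thr 56 24 (.thr 9 57 (.dbl 11 10 26))))) (.rp 57 (.thr 17 29 (.thr 1 61 (.thr 49 33 (.thr 13 37 (.thr 9 5 (.thr 8 59 (.thr 40 43 (.thr 56 24 (.dbl 11 10 26))))))))) (.rp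 54 (.str 6 (.nv (.thr 8 59 (.thr 40 43 (.thr 56 24 (.thr 11 26 (.dbl 9 10 57))))) (.nv (.thr 1 61 (.thr 17 29 (.thr 9 57 (.thr 49 33 (.dbl 13 5 37))))) (.rp 57 (.thr 40 43 (.thr 8 59 (.thr 56 24 (.thr 11 26 (.thr 9 10 (.thr 1 61 (.thr 5 13 (.thr 7 4 (.dbl 3 12 15))))))))) (.rp 9 (.thr 43 40 (.thr 59 8 (.thr 11 27 (.thr 56 26 (.thr 57 58 (.thr 61 1 (.thr 29 17 (.thr 13 45 (.dbl 49 37 53))))))))) .nd))))) (.rp 9 (.thr 29 17 (.thr 61 1 (.thr 13 45 (.thr 49 37 (.thr 57 53 (.thr 59 8 (.thr 56 58 (.thr 43 40 (.dbl 11 26 27))))))))) (.rp 6 (.str 54 (.nv (.thr 1 61 (.thr 9 57 (.thr 17 29 (.thr 49 33 (.dbl 13 5 37))))) (.nv (.thr 40 43 (.thr 8 59 (.thr 56 24 (.thr 9 57 (.dbl 11 10 26))))) (.rp 57 (.thr 17 29 (.thr 1 61 (.thr 49 33 (.thr 13 37 (.thr 9 5 (.thr 8 59 (.thr 40 43 (.thr 56 24 (.dbl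 11 10 26))))))))) (.rp 9 (.thr 29 17 (.thr 61 1 (.thr 13 45 (.thr 49 37 (.thr 57 53 (.thr 59 8 (.thr 56 58 (.thr 43 40 (.dbl 11 26 27))))))))) .nd))))) .nd))))))) (.rp 37 .ext (.rp 36 (.str 25 (.nv (.thr 40 43 (.thr 8 59 (.thr 56 24 (.thr 9 57 (.dbl 11 10 26))))) (.nv (.thr 1 61 (.thr 17 29 (.thr 9 57 (.thr 49 33 (.dbl 13 5 37))))) (.rp 57 (.thr 17 29 (.thr 1 61 (.thr 49 33 (.thr 13 37 (.thr 9 5 (.thr 8 59 (.thr 40 43 (.thr 56 24 (.dbl 11 10 26))))))))) (.rp 9 (.thr 29 17 (.thr 61 1 (.thr 13 45 (.thr 49 37 (.thr 57 53 (.thr 59 8 (.thr 56 58 (.thr 43 40 (.dbl 11 26 27))))))))) .nd))))) (.rp 35 (.str 25 (.nv (.thr 8 59 (.thr 9 57 (.thr 40 43 (.thr 56 24 (.dbl 11 10 26))))) (.nv (.thr 17 29 (.thr 1 61 (.thr 49 33 (.thr 9 57 (.dbl 13 5 37))))) (.rp 57 (.thr 40 43 (.thr 8 59 (.thr 56 24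 (.thr 11 26 (.thr 9 10 (.thr 1 61 (.thr 17 29 (.thr 49 33 (.dbl 13 5 37))))))))) (.rp 9 (.thr 43 40 (.thr 59 8 (.thr 11 27 (.thr 56 26 (.thr 57 58 (.thr 61 1 (.thr 49 53 (.thr 29 17 (.dbl 13 37 45))))))))) .nd))))) (.rp 34 (.str 37 (.nv (.thr 43 40 (.thr 45 33 (.thr 47 32 (.thr 35 39 (.dbl 44 38 46))))) (.nv (.thr 5 53 (.thr 1 61 (.thr 13 9 (.thr 33 45 (.dbl 49 17 25))))) (.rp 51 (.str 17 (.nv (.thr 1 61 (.thr 5 53 (.thr 13 9 (.dbl 25 29 49)))) (.nv (.thr 33 45 (.dbl 1 49 61)) (.rp 61 (.thr 33 45 (.thr 49 1 (.dbl 25 13 29))) (.rp 49 (.thr 45 33 (.thr 29 25 (.dbl 61 1 13))) (.rp 1 (.thr 45 33 (.thr 43 40 (.thr 47 32 (.thr 35 39 (.dbl 44 38 46))))) .nd)))))) (.rp 45 (.thr 5 53 (.str 17 (.nv (.thr 1 61 (.thr 49 33 (.dbl 25 13 29))) (.nv (.thr 25 29 (.thr 13 49 (.dbl 1 9 61))) (.rp 61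 (.thr 25 29 (.thr 13 49 (.thr 57 9 (.thr 59 8 (.thr 43 40 (.thr 11 27 (.dbl 56 26 58))))))) (.rp 49 (.thr 25 29 (.thr 57 9 (.thr 59 8 (.thr 43 40 (.thr 11 27 (.dbl 56 26 58)))))) (.rp 29 (.thr 1 61 (.thr 13 9 (.dbl 49 25 33))) (.rp 25 (.str 19 (.nv (.thr 16 18 (.thr 26 31 (.thr 11 56 (.thr 10 58 (.thr 9 8 (.dbl 1 13 61)))))) (.nv (.thr 1 61 (.thr 16 18 (.thr 26 31 (.thr 10 58 (.thr 11 56 (.dbl 9 8 13)))))) (.rp 63 (.thr 1 61 (.thr 47 32 (.thr 16 18 (.thr 26 31 (.thr 10 58 (.thr 48 15 (.thr 11 56 (.dbl 9 8 13)))))))) (.rp 61 (.thr 47 32 (.thr 43 40 (.thr 35 39 (.thr 3 51 (.thr 23 63 (.thr 16 18 (.dbl 31 26 27))))))) (.rp 59 (.thr 47 32 (.thr 43 40 (.thr 35 39 (.thr 3 51 (.thr 63 23 (.thr 16 18 (.dbl 31 15 26))))))) (.rp 58 (.thr 47 32 (.thr 43 40 (.thr 35 39 (.thr 3 51 (.thr 63 23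 (.thr 16 18 (.dbl 31 15 26))))))) (.rp 57 (.thr 47 32 (.thr 43 40 (.thr 35 39 (.thr 3 51 (.thr 23 63 (.thr 16 18 (.dbl 31 26 27))))))) (.rp 56 (.thr 47 32 (.thr 43 40 (.thr 35 39 (.thr 3 51 (.thr 23 63 (.thr 16 18 (.dbl 31 26 27))))))) (.rp 50 (.thr 47 32 (.thr 43 40 (.thr 35 39 (.thr 3 51 (.thr 63 23 (.thr 15 31 (.thr 18 16 (.dbl 48 26 33)))))))) (.rp 48 (.thr 47 32 (.thr 16 18 (.thr 43 40 (.thr 35 39 (.thr 3 51 (.thr 63 23 (.dbl 31 15 26))))))) (.rp 31 (.thr 47 32 (.thr 43 40 (.thr 35 39 (.thr 3 51 (.thr 18 16 (.thr 48 33 (.thr 15 26 (.thr 7 11 (.thr 4 6 (.dbl 38 44 55)))))))))) (.rp 26 (.thr 47 32 (.thr 43 40 (.thr 35 39 (.thr 3 51 (.thr 63 23 (.thr 15 31 (.thr 7 11 (.thr 4 6 (.dbl 38 44 55))))))))) (.rp 18 (.thr 47 32 (.thr 43 40 (.thr 35 39 (.thr 3 51 (.thr 63 23 (.thr 15 31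 (.thr 7 11 (.thr 4 6 (.dbl 38 44 55))))))))) (.rp 16 (.thr 1 61 (.thr 49 33 (.thr 32 47 (.thr 40 43 (.thr 44 36 (.thr 35 38 (.thr 51 3 (.thr 48 50 (.thr 26 15 (.thr 10 58 (.thr 11 56 (.dbl 9 8 13)))))))))))) (.rp 13 (.thr 47 32 (.thr 43 40 (.thr 35 39 (.thr 3 51 (.thr 23 63 (.thr 16 18 (.dbl 31 26 27))))))) (.rp 11 (.thr 47 32 (.thr 43 40 (.thr 35 39 (.thr 3 51 (.thr 23 63 (.thr 16 18 (.dbl 31 26 27))))))) (.rp 10 (.thr 47 32 (.thr 43 40 (.thr 35 39 (.thr 3 51 (.thr 23 63 (.thr 16 18 (.dbl 31 26 27))))))) (.rp 9 (.thr 47 32 (.thr 43 40 (.thr 35 39 (.thr 3 51 (.thr 23 63 (.thr 16 18 (.dbl 31 26 27))))))) (.rp 8 (.thr 47 32 (.thr 43 40 (.thr 35 39 (.thr 3 51 (.thr 23 63 (.thr 16 18 (.dbl 31 26 27))))))) (.rp 2 (.thr 47 32 (.thr 43 40 (.thr 35 39 (.thr 3 51 (.thr 63 23 (.thr 15 31 (.thr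 18 16 (.dbl 48 26 33)))))))) (.rp 1 (.thr 47 32 (.thr 43 40 (.thr 35 39 (.thr 3 51 (.thr 23 63 (.thr 16 18 (.dbl 31 26 27))))))) .nd)))))))))))))))))))))) (.rp 13 (.thr 25 29 (.thr 61 1 (.thr 9 57 (.thr 8 59 (.thr 11 10 (.thr 40 43 (.dbl 56 24 26))))))) (.rp 1 (.thr 25 29 (.thr 9 57 (.thr 8 59 (.thr 11 10 (.thr 40 43 (.dbl 56 24 26)))))) .nd)))))))))) (.rp 33 (.thr 43 40 (.thr 47 32 (.thr 35 39 (.thr 44 38 (.thr 45 46 (.thr 61 1 (.thr 13 29 (.thr 53 5 (.dbl 49 25 57))))))))) (.rp 17 (.str 51 (.nv (.thr 43 40 (.thr 47 32 (.thr 35 39 (.thr 44 38 (.dbl 45 33 46))))) (.nv (.thr 53 5 (.thr 61 1 (.thr 49 57 (.thr 48 50 (.thr 58 63 (.dbl 26 10 15)))))) (.nv (.thr 45 33 (.thr 43 40 (.thr 47 32 (.thr 35 39 (.dbl 44 38 46))))) (.rp 48 (.thr 45 33 (.thr 53 5 (.thr 61 1 (.thr 49 57 (.dbl 13 25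 29))))) .nd))))) .nd))))))) (.rp 33 (.str 25 (.nv (.thr 29 17 (.thr 57 9 (.thr 61 1 (.thr 49 53 (.dbl 13 37 45))))) (.nv (.thr 8 59 (.thr 40 43 (.thr 9 57 (.thr 56 24 (.dbl 11 10 26))))) (.rp 57 (.str 5 (.nv (.thr 1 61 (.thr 13 9 (.dbl 37 49 53))) (.rp 61 (.thr 8 59 (.thr 40 43 (.thr 56 24 (.thr 11 26 (.thr 9 10 (.thr 13 1 (.dbl 37 49 53))))))) (.rp 53 (.thr 8 59 (.thr 40 43 (.thr 56 24 (.thr 11 26 (.thr 9 10 (.dbl 1 13 61)))))) (.rp 49 (.thr 8 59 (.thr 40 43 (.thr 56 24 (.thr 11 26 (.thr 9 10 (.dbl 1 13 61)))))) (.rp 37 (.thr 1 61 (.thr 9 13 (.thr 8 59 (.thr 11 10 (.thr 40 43 (.dbl 56 24 26)))))) (.rp 13 (.thr 37 53 (.thr 29 17 (.thr 47 32 (.thr 43 40 (.thr 35 39 (.thr 44 38 (.thr 46 45 (.thr 63 12 (.thr 3 23 (.thr 51 19 (.dbl 59 8 55))))))))))) (.rp 9 (.thr 37 53 (.thr 29 17 (.thr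 47 32 (.thr 43 40 (.thr 35 39 (.thr 44 38 (.thr 45 46 (.dbl 13 49 61)))))))) (.rp 1 (.thr 37 53 (.thr 49 13 (.thr 29 17 (.thr 47 32 (.thr 43 40 (.thr 35 39 (.thr 44 38 (.thr 46 45 (.thr 63 12 (.thr 3 23 (.thr 51 19 (.dbl 59 8 55)))))))))))) .nd))))))))) (.rp 9 (.thr 43 40 (.thr 59 8 (.thr 11 27 (.thr 56 26 (.thr 57 58 (.thr 61 1 (.thr 49 53 (.thr 29 17 (.dbl 13 37 45))))))))) .nd))))) (.rp 32 (.str 25 (.nv (.thr 17 29 (.thr 1 61 (.thr 49 33 (.thr 9 57 (.dbl 13 5 37))))) (.nv (.thr 8 59 (.thr 40 43 (.thr 9 57 (.thr 56 24 (.dbl 11 10 26))))) (.rp 57 (.thr 40 43 (.thr 8 59 (.thr 56 24 (.thr 11 26 (.thr 9 10 (.thr 1 61 (.thr 17 29 (.thr 49 33 (.dbl 13 5 37))))))))) (.rp 48 (.str 16 (.nv (.thr 26 31 (.thr 24 27 (.thr 40 43 (.dbl 8 56 59)))) (.nv (.thr 1 61 (.thr 9 57 (.thr 17 29 (.thr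 49 33 (.dbl 13 5 37))))) (.nv (.thr 8 59 (.thr 9 57 (.thr 26 31 (.dbl 10 11 58)))) .nd)))) (.rp 16 (.str 48 (.nv (.thr 8 59 (.thr 9 57 (.thr 40 43 (.thr 56 24 (.dbl 11 10 26))))) (.nv (.thr 17 29 (.thr 1 61 (.thr 49 33 (.thr 9 57 (.dbl 13 5 37))))) (.rp 57 (.thr 59 8 (.thr 1 61 (.thr 17 29 (.thr 49 33 (.thr 51 50 (.thr 55 63 (.dbl 38 4 12))))))) (.rp 9 (.thr 40 43 (.thr 8 59 (.thr 24 56 (.thr 29 17 (.thr 12 36 (.thr 46 63 (.dbl 38 34 51))))))) .nd))))) (.rp 9 (.thr 43 40 (.thr 59 8 (.thr 11 27 (.thr 56 26 (.thr 57 58 (.thr 61 1 (.thr 49 53 (.thr 29 17 (.dbl 13 37 45))))))))) .nd))))))) (.rp 31 (.str 37 (.nv (.thr 32 47 (.thr 33 45 (.thr 40 43 (.thr 44 36 (.dbl 35 34 38))))) (.nv (.thr 5 53 (.thr 1 61 (.thr 13 9 (.thr 33 45 (.dbl 49 17 25))))) (.rp 45 (.thr 40 43 (.thr 32 47 (.thr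 44 36 (.thr 35 38 (.thr 33 34 (.thr 1 61 (.thr 5 53 (.thr 13 9 (.dbl 49 17 25))))))))) (.rp 33 (.thr 43 40 (.thr 47 32 (.thr 35 39 (.thr 44 38 (.thr 45 46 (.thr 61 1 (.thr 13 29 (.thr 53 5 (.dbl 49 25 57))))))))) .nd))))) (.rp 30 (.str 25 (.nv (.thr 1 61 (.thr 9 57 (.thr 17 29 (.thr 49 33 (.dbl 13 5 37))))) (.nv (.thr 40 43 (.thr 8 59 (.thr 56 24 (.thr 9 57 (.dbl 11 10 26))))) (.rp 57 (.thr 17 29 (.thr 1 61 (.thr 49 33 (.thr 13 37 (.thr 9 5 (.thr 8 59 (.thr 40 43 (.thr 56 24 (.dbl 11 10 26))))))))) (.rp 26 (.str 18 (.nv (.thr 1 61 (.thr 9 57 (.thr 13 5 (.thr 49 37 (.dbl 17 29 33))))) (.nv (.thr 17 29 (.thr 1 61 (.thr 49 33 (.thr 9 57 (.dbl 13 5 37))))) (.rp 61 (.str 51 (.nv (.thr 17 29 (.thr 19 16 (.thr 35 3 (.dbl 38 12 44)))) (.nv (.thr 59 8 (.thr 55 63 (.dbl 38 4 12))) (.rp 38 (.thr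 43 40 (.thr 59 8 (.thr 63 55 (.thr 3 23 (.thr 19 35 (.dbl 17 16 29)))))) (.rp 12 (.thr 43 40 (.thr 17 29 (.thr 19 16 (.thr 3 35 (.thr 63 23 (.dbl 59 8 55)))))) .nd))))) (.rp 57 (.str 51 (.nv (.thr 1 61 (.thr 17 29 (.thr 19 16 (.thr 3 35 (.dbl 33 48 49))))) (.nv (.thr 59 8 (.thr 55 63 (.dbl 38 4 12))) .nd))) (.rp 49 (.str 51 (.nv (.thr 17 29 (.thr 19 16 (.thr 35 3 (.dbl 38 12 44)))) (.nv (.thr 59 8 (.thr 55 63 (.dbl 38 4 12))) (.rp 38 (.thr 57 9 (.thr 59 8 (.thr 63 55 (.thr 61 1 (.dbl 60 54 62))))) (.rp 12 (.thr 57 9 (.thr 61 1 (.thr 60 54 (.thr 63 62 (.dbl 59 8 55))))) .nd))))) (.rp 37 (.thr 57 9 (.thr 40 43 (.thr 59 8 (.thr 58 56 (.thr 1 61 (.thr 17 29 (.thr 33 49 (.thr 48 3 (.thr 19 16 (.thr 63 53 (.thr 51 55 (.thr 54 60 (.thr 50 62 (.thr 34 2 (.dbl 38 12 46))))))))))))))) (.rp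 33 (.thr 57 9 (.thr 61 1 (.thr 49 53 (.thr 29 17 (.dbl 13 37 45))))) (.rp 29 (.thr 57 9 (.thr 59 8 (.thr 58 56 (.thr 61 1 (.thr 53 49 (.thr 63 48 (.thr 51 55 (.dbl 60 54 62)))))))) (.rp 17 (.str 51 (.nv (.thr 57 9 (.thr 60 54 (.thr 61 1 (.thr 63 62 (.dbl 59 8 55))))) (.nv (.thr 38 12 (.thr 35 44 (.thr 3 19 (.thr 33 48 (.dbl 34 32 46))))) (.nv (.thr 59 8 (.thr 55 63 (.dbl 38 4 12))) (.rp 38 (.thr 57 9 (.thr 59 8 (.thr 63 55 (.thr 61 1 (.dbl 60 54 62))))) (.rp 8 (.thr 57 9 (.thr 61 1 (.thr 60 54 (.thr 63 62 (.thr 55 59 (.dbl 38 4 12)))))) .nd)))))) (.rp 13 (.str 51 (.nv (.thr 17 29 (.thr 19 16 (.thr 35 3 (.dbl 38 12 44)))) (.nv (.thr 59 8 (.thr 55 63 (.dbl 38 4 12))) (.rp 38 (.thr 59 8 (.thr 63 55 (.thr 61 1 (.thr 60 62 (.dbl 57 9 54))))) (.rp 12 (.thr 43 40 (.thr 17 29 (.thr 19 16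 (.thr 3 35 (.thr 63 23 (.dbl 59 8 55)))))) .nd))))) (.rp 9 (.thr 43 40 (.thr 59 8 (.thr 1 61 (.thr 17 29 (.thr 33 49 (.thr 3 48 (.thr 63 23 (.thr 51 55 (.dbl 19 16 35))))))))) (.rp 5 (.thr 57 9 (.thr 29 17 (.thr 61 1 (.thr 13 45 (.dbl 49 37 53))))) (.rp 1 (.str 3 (.nv (.thr 9 57 (.thr 12 6 (.thr 43 40 (.thr 59 8 (.thr 63 23 (.dbl 51 38 55)))))) (.nv (.thr 8 59 (.thr 40 43 (.thr 24 56 (.thr 48 33 (.thr 12 36 (.dbl 9 6 57)))))) (.nv (.thr 9 57 (.thr 12 6 (.thr 29 17 (.thr 46 63 (.dbl 38 34 51))))) (.rp 57 (.thr 33 48 (.thr 40 43 (.thr 37 45 (.thr 32 47 (.thr 35 34 (.dbl 44 36 38)))))) (.rp 12 (.thr 33 48 (.thr 40 43 (.thr 37 45 (.thr 32 47 (.thr 35 34 (.dbl 44 36 38)))))) (.rp 9 (.thr 33 48 (.thr 40 43 (.thr 37 45 (.thr 32 47 (.thr 35 34 (.dbl 44 36 38)))))) (.rp 6 (.thr 33 48 (.thr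 40 43 (.thr 37 45 (.thr 32 47 (.thr 35 34 (.dbl 44 36 38)))))) .nd)))))))) .nd)))))))))))))) (.rp 18 (.str 26 (.nv (.thr 1 61 (.thr 9 57 (.thr 13 5 (.thr 17 29 (.dbl 49 33 37))))) (.nv (.thr 24 27 (.thr 40 43 (.dbl 8 56 59))) .nd))) (.rp 9 (.thr 29 17 (.thr 61 1 (.thr 13 45 (.thr 49 37 (.thr 57 53 (.thr 59 8 (.thr 56 58 (.thr 43 40 (.dbl 11 26 27))))))))) .nd))))))) (.rp 29 (.thr 40 43 (.str 37 (.nv (.thr 32 47 (.thr 44 36 (.thr 35 38 (.dbl 33 34 45)))) (.nv (.thr 1 61 (.thr 5 53 (.thr 13 9 (.thr 33 45 (.dbl 49 17 25))))) (.nv (.thr 33 45 (.thr 32 47 (.thr 44 36 (.dbl 35 34 38)))) (.rp 45 (.thr 5 53 (.thr 1 61 (.thr 13 9 (.thr 49 25 (.thr 33 17 (.thr 32 47 (.thr 44 36 (.dbl 35 34 38)))))))) (.rp 33 (.str 56 (.nv (.thr 1 61 (.thr 26 11 (.thr 32 47 (.thr 36 44 (.thr 48 15 (.dbl 24 8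 12)))))) (.nv (.thr 1 61 (.thr 5 53 (.thr 8 24 (.thr 13 9 (.dbl 25 49 59))))) (.nv (.thr 8 24 (.thr 25 59 (.thr 9 57 (.dbl 11 10 26)))) (.rp 59 (.thr 8 24 (.thr 5 53 (.thr 1 61 (.thr 11 26 (.dbl 9 10 13))))) (.rp 24 (.thr 53 5 (.thr 61 1 (.thr 26 11 (.thr 58 10 (.thr 15 48 (.dbl 57 49 59)))))) (.rp 8 (.thr 61 1 (.thr 26 11 (.thr 48 15 (.thr 60 52 (.thr 63 62 (.dbl 53 5 58)))))) .nd))))))) .nd))))))) (.rp 28 (.str 25 (.nv (.thr 1 61 (.thr 9 57 (.thr 17 29 (.thr 49 33 (.dbl 13 5 37))))) (.nv (.thr 40 43 (.thr 8 59 (.thr 56 24 (.thr 9 57 (.dbl 11 10 26))))) (.rp 57 (.thr 17 29 (.thr 1 61 (.thr 49 33 (.thr 13 37 (.thr 9 5 (.thr 8 59 (.thr 40 43 (.thr 56 24 (.dbl 11 10 26))))))))) (.rp 9 (.thr 29 17 (.thr 61 1 (.thr 13 45 (.thr 49 37 (.thr 57 53 (.thr 59 8 (.thr 56 58 (.thr 43 40 (.dbl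 11 26 27))))))))) .nd))))) (.rp 27 (.str 37 (.nv (.thr 32 47 (.thr 33 45 (.thr 40 43 (.thr 44 36 (.dbl 35 34 38))))) (.nv (.thr 5 53 (.thr 1 61 (.thr 13 9 (.thr 33 45 (.dbl 49 17 25))))) (.rp 45 (.thr 40 43 (.thr 32 47 (.thr 44 36 (.thr 35 38 (.thr 33 34 (.thr 1 61 (.thr 5 53 (.thr 13 9 (.dbl 49 17 25))))))))) (.rp 33 (.thr 43 40 (.thr 47 32 (.thr 35 39 (.thr 44 38 (.thr 45 46 (.thr 61 1 (.thr 13 29 (.thr 53 5 (.dbl 49 25 57))))))))) .nd))))) (.rp 26 (.str 37 (.nv (.thr 1 61 (.thr 5 53 (.thr 13 9 (.thr 33 45 (.dbl 49 17 25))))) (.nv (.thr 40 43 (.thr 32 47 (.thr 44 36 (.thr 33 45 (.dbl 35 34 38))))) (.rp 45 (.thr 5 53 (.thr 1 61 (.thr 13 9 (.thr 49 25 (.thr 33 17 (.thr 32 47 (.thr 40 43 (.thr 44 36 (.dbl 35 34 38))))))))) (.rp 33 (.thr 53 5 (.thr 61 1 (.thr 49 57 (.thr 13 25 (.thr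 45 29 (.thr 47 32 (.thr 44 46 (.thr 43 40 (.dbl 35 38 39))))))))) (.rp 30 (.str 18 (.nv (.thr 32 47 (.thr 40 43 (.thr 44 36 (.thr 35 38 (.dbl 33 34 45))))) (.nv (.thr 1 61 (.thr 5 53 (.thr 13 9 (.thr 33 45 (.dbl 49 17 25))))) (.rp 45 (.thr 40 43 (.thr 32 47 (.thr 44 36 (.thr 35 38 (.thr 33 34 (.thr 1 61 (.thr 17 49 (.thr 19 16 (.dbl 3 48 51))))))))) (.rp 33 (.thr 43 40 (.thr 47 32 (.thr 35 39 (.thr 44 38 (.thr 45 46 (.thr 61 1 (.thr 53 5 (.thr 49 57 (.dbl 13 25 29))))))))) .nd))))) (.rp 18 (.str 30 (.nv (.thr 1 61 (.thr 5 53 (.thr 13 9 (.thr 33 45 (.dbl 49 17 25))))) (.nv (.thr 40 43 (.thr 32 47 (.thr 44 36 (.thr 33 45 (.dbl 35 34 38))))) (.rp 45 (.thr 5 53 (.thr 1 61 (.thr 13 9 (.thr 49 25 (.thr 33 17 (.thr 32 47 (.thr 40 43 (.thr 44 36 (.dbl 35 34 38))))))))) (.rp 33 (.thr 53 5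 (.thr 61 1 (.thr 49 57 (.thr 13 25 (.thr 45 29 (.thr 47 32 (.thr 44 46 (.thr 43 40 (.dbl 35 38 39))))))))) .nd))))) .nd))))))) (.rp 25 .ext (.rp 24 (.str 37 (.nv (.thr 40 43 (.thr 32 47 (.thr 44 36 (.thr 33 45 (.dbl 35 34 38))))) (.nv (.thr 1 61 (.thr 5 53 (.thr 13 9 (.thr 33 45 (.dbl 49 17 25))))) (.rp 45 (.thr 5 53 (.thr 1 61 (.thr 13 9 (.thr 49 25 (.thr 33 17 (.thr 32 47 (.thr 40 43 (.thr 44 36 (.dbl 35 34 38))))))))) (.rp 33 (.thr 53 5 (.thr 61 1 (.thr 49 57 (.thr 13 25 (.thr 45 29 (.thr 47 32 (.thr 44 46 (.thr 43 40 (.dbl 35 38 39))))))))) .nd))))) (.rp 23 (.str 37 (.nv (.thr 32 47 (.thr 33 45 (.thr 40 43 (.thr 44 36 (.dbl 35 34 38))))) (.nv (.thr 5 53 (.thr 1 61 (.thr 13 9 (.thr 33 45 (.dbl 49 17 25))))) (.rp 45 (.thr 40 43 (.thr 32 47 (.thr 44 36 (.thr 35 38 (.thr 33 34 (.thr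 1 61 (.thr 5 53 (.thr 13 9 (.dbl 49 17 25))))))))) (.rp 33 (.thr 43 40 (.thr 47 32 (.thr 35 39 (.thr 44 38 (.thr 45 46 (.thr 61 1 (.thr 13 29 (.thr 53 5 (.dbl 49 25 57))))))))) .nd))))) (.rp 20 (.str 37 (.nv (.thr 1 61 (.thr 5 53 (.thr 13 9 (.thr 33 45 (.dbl 49 17 25))))) (.nv (.thr 40 43 (.thr 32 47 (.thr 44 36 (.thr 33 45 (.dbl 35 34 38))))) (.rp 45 (.thr 5 53 (.thr 1 61 (.thr 13 9 (.thr 49 25 (.thr 33 17 (.thr 32 47 (.thr 40 43 (.thr 44 36 (.dbl 35 34 38))))))))) (.rp 40 (.str 60 (.nv (.thr 45 33 (.thr 15 30 (.thr 47 32 (.thr 31 63 (.dbl 26 16 48))))) (.nv (.thr 33 45 (.thr 5 53 (.thr 1 61 (.thr 13 9 (.dbl 49 17 25))))) (.rp 45 (.thr 53 5 (.thr 61 1 (.thr 63 62 (.thr 48 58 (.thr 56 52 (.dbl 26 11 15)))))) (.rp 33 (.thr 53 5 (.thr 61 1 (.thr 63 62 (.thr 48 58 (.thr 56 52 (.dbl 26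 11 15)))))) .nd))))) (.rp 33 (.thr 53 5 (.thr 61 1 (.thr 49 57 (.thr 13 25 (.thr 45 29 (.thr 47 32 (.thr 44 46 (.thr 35 38 (.dbl 43 39 40))))))))) .nd)))))) (.rp 19 (.str 25 (.nv (.thr 8 59 (.thr 9 57 (.thr 40 43 (.thr 56 24 (.dbl 11 10 26))))) (.nv (.thr 17 29 (.thr 1 61 (.thr 49 33 (.thr 9 57 (.dbl 13 5 37))))) (.rp 57 (.thr 40 43 (.thr 8 59 (.thr 56 24 (.thr 11 26 (.thr 9 10 (.thr 1 61 (.thr 17 29 (.thr 49 33 (.dbl 13 5 37))))))))) (.rp 9 (.thr 43 40 (.thr 59 8 (.thr 11 27 (.thr 56 26 (.thr 57 58 (.thr 61 1 (.thr 49 53 (.thr 29 17 (.dbl 13 37 45))))))))) .nd))))) (.rp 18 (.str 37 (.nv (.thr 32 47 (.thr 33 45 (.thr 40 43 (.thr 44 36 (.dbl 35 34 38))))) (.nv (.thr 5 53 (.thr 1 61 (.thr 13 9 (.thr 33 45 (.dbl 49 17 25))))) (.rp 45 (.thr 40 43 (.thr 32 47 (.thr 44 36 (.thr 35 38 (.thr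 33 34 (.thr 1 61 (.thr 5 53 (.thr 13 9 (.dbl 49 17 25))))))))) (.rp 33 (.thr 43 40 (.thr 47 32 (.thr 35 39 (.thr 44 38 (.thr 45 46 (.thr 61 1 (.thr 13 29 (.thr 53 5 (.dbl 49 25 57))))))))) (.rp 30 (.str 26 (.nv (.thr 1 61 (.thr 5 53 (.thr 9 13 (.thr 10 58 (.dbl 11 8 56))))) (.nv (.thr 40 43 (.thr 33 45 (.thr 32 47 (.thr 35 34 (.dbl 44 36 38))))) (.nv (.thr 56 11 (.thr 40 43 (.thr 8 24 (.thr 58 10 (.dbl 59 25 57))))) .nd)))) (.rp 26 (.str 30 (.nv (.thr 1 61 (.thr 5 53 (.thr 13 9 (.thr 33 45 (.dbl 49 17 25))))) (.nv (.thr 40 43 (.thr 32 47 (.thr 44 36 (.thr 33 45 (.dbl 35 34 38))))) (.rp 45 (.thr 5 53 (.thr 1 61 (.thr 13 9 (.thr 49 25 (.thr 33 17 (.thr 32 47 (.thr 40 43 (.thr 44 36 (.dbl 35 34 38))))))))) (.rp 33 (.thr 53 5 (.thr 61 1 (.thr 49 57 (.thr 13 25 (.thr 45 29 (.thr 47 32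 (.thr 44 46 (.thr 43 40 (.dbl 35 38 39))))))))) .nd))))) .nd))))))) (.rp 17 (.str 37 (.nv (.thr 45 33 (.thr 53 5 (.thr 61 1 (.thr 49 57 (.dbl 13 25 29))))) (.nv (.thr 40 43 (.thr 33 45 (.thr 32 47 (.thr 44 36 (.dbl 35 34 38))))) (.rp 51 (.str 34 (.nv (.thr 32 47 (.thr 38 46 (.thr 44 35 (.dbl 36 39 40)))) (.nv (.thr 33 45 (.dbl 32 35 47)) (.rp 47 (.thr 33 45 (.thr 35 32 (.dbl 38 44 46))) (.rp 35 (.thr 45 33 (.thr 46 38 (.dbl 47 32 44))) (.rp 32 (.thr 45 33 (.thr 53 5 (.thr 61 1 (.thr 49 57 (.dbl 13 25 29))))) .nd)))))) (.rp 45 (.str 11 (.nv (.thr 1 61 (.thr 40 43 (.thr 56 26 (.thr 8 24 (.thr 9 10 (.dbl 5 13 53)))))) (.nv (.thr 1 61 (.thr 5 53 (.thr 26 56 (.thr 10 58 (.dbl 9 8 13))))) (.nv (.thr 43 40 (.thr 59 27 (.thr 5 53 (.thr 1 61 (.thr 13 9 (.dbl 25 8 49)))))) (.nv (.thr 40 43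 (.thr 56 26 (.thr 8 24 (.thr 25 59 (.dbl 9 10 57))))) (.rp 51 (.str 34 (.nv (.thr 26 56 (.thr 10 58 (.thr 8 9 (.thr 43 40 (.dbl 59 25 27))))) (.nv (.thr 32 47 (.thr 35 33 (.dbl 38 44 46))) .nd))) (.rp 34 (.str 51 (.nv (.thr 43 40 (.thr 27 59 (.thr 39 15 (.dbl 47 32 35)))) (.nv (.thr 1 61 (.thr 5 53 (.thr 26 56 (.thr 10 58 (.dbl 9 8 13))))) (.nv (.thr 43 40 (.thr 27 59 (.thr 15 39 (.dbl 26 48 56)))) (.rp 59 (.thr 53 5 (.thr 61 1 (.thr 49 57 (.thr 48 50 (.dbl 26 15 56))))) .nd))))) (.rp 9 (.thr 53 5 (.thr 43 40 (.thr 59 27 (.thr 56 26 (.thr 57 58 (.dbl 61 1 49)))))) (.rp 8 (.thr 53 5 (.thr 61 1 (.thr 43 40 (.thr 59 27 (.thr 56 26 (.dbl 57 49 58)))))) .nd))))))))) (.rp 34 (.str 51 (.nv (.thr 43 40 (.thr 47 32 (.thr 35 39 (.thr 44 38 (.dbl 45 33 46))))) (.nv (.thr 53 5 (.thr 61 1 (.thr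 49 57 (.thr 48 50 (.thr 58 63 (.dbl 26 10 15)))))) (.nv (.thr 45 33 (.thr 43 40 (.thr 47 32 (.thr 35 39 (.dbl 44 38 46))))) (.rp 48 (.thr 45 33 (.thr 53 5 (.thr 61 1 (.thr 49 57 (.dbl 13 25 29))))) .nd))))) (.rp 33 (.thr 43 40 (.thr 47 32 (.thr 35 39 (.thr 44 38 (.thr 45 46 (.thr 53 5 (.thr 61 1 (.thr 49 57 (.dbl 13 25 29))))))))) .nd))))))) (.rp 16 (.str 25 (.nv (.thr 8 59 (.thr 9 57 (.thr 40 43 (.thr 56 24 (.dbl 11 10 26))))) (.nv (.thr 17 29 (.thr 1 61 (.thr 49 33 (.thr 9 57 (.dbl 13 5 37))))) (.rp 57 (.thr 40 43 (.thr 8 59 (.thr 56 24 (.thr 11 26 (.thr 9 10 (.thr 1 61 (.thr 17 29 (.thr 49 33 (.dbl 13 5 37))))))))) (.rp 48 (.str 32 (.nv (.thr 1 61 (.thr 8 59 (.thr 9 57 (.thr 11 10 (.thr 40 43 (.dbl 56 24 26)))))) (.nv (.thr 40 43 (.thr 44 36 (.thr 37 47 (.thr 33 45 (.dbl 35 34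 38))))) (.nv (.thr 1 61 (.thr 9 57 (.thr 37 47 (.dbl 5 13 53)))) .nd)))) (.rp 32 (.str 48 (.nv (.thr 8 59 (.thr 9 57 (.thr 40 43 (.thr 56 24 (.dbl 11 10 26))))) (.nv (.thr 17 29 (.thr 1 61 (.thr 49 33 (.thr 9 57 (.dbl 13 5 37))))) (.rp 57 (.thr 59 8 (.thr 1 61 (.thr 17 29 (.thr 49 33 (.thr 51 50 (.thr 55 63 (.dbl 38 4 12))))))) (.rp 9 (.thr 40 43 (.thr 8 59 (.thr 24 56 (.thr 29 17 (.thr 12 36 (.thr 46 63 (.dbl 38 34 51))))))) .nd))))) (.rp 9 (.thr 43 40 (.thr 59 8 (.thr 11 27 (.thr 56 26 (.thr 57 58 (.thr 61 1 (.thr 49 53 (.thr 29 17 (.dbl 13 37 45))))))))) .nd))))))) (.rp 15 (.str 25 (.nv (.thr 17 29 (.thr 9 57 (.thr 1 61 (.thr 49 33 (.dbl 13 5 37))))) (.nv (.thr 9 57 (.thr 40 43 (.thr 8 59 (.thr 56 24 (.dbl 11 10 26))))) (.rp 57 (.str 5 (.nv (.thr 1 61 (.thr 13 9 (.dbl 37 49 53)))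 (.rp 61 (.thr 37 53 (.thr 49 13 (.thr 45 33 (.thr 47 32 (.thr 43 40 (.thr 35 39 (.dbl 44 38 46))))))) (.rp 53 (.thr 17 29 (.thr 1 61 (.thr 49 33 (.dbl 13 9 37)))) (.rp 49 (.thr 8 59 (.thr 40 43 (.thr 56 24 (.thr 11 26 (.thr 9 10 (.dbl 1 13 61)))))) (.rp 37 (.thr 1 61 (.thr 9 13 (.thr 8 59 (.thr 11 10 (.thr 40 43 (.dbl 56 24 26)))))) (.rp 13 (.thr 37 53 (.thr 33 45 (.thr 32 47 (.thr 35 34 (.thr 40 43 (.dbl 44 36 38)))))) (.rp 9 (.thr 37 53 (.thr 49 13 (.thr 33 45 (.dbl 1 17 61)))) (.rp 1 (.thr 37 53 (.thr 33 45 (.thr 32 47 (.thr 35 34 (.thr 40 43 (.dbl 44 36 38)))))) .nd))))))))) (.rp 10 (.str 5 (.nv (.thr 1 61 (.thr 17 29 (.thr 37 53 (.dbl 49 13 33)))) (.nv (.thr 9 57 (.dbl 1 13 61)) (.rp 61 (.thr 9 57 (.thr 13 1 (.dbl 37 49 53))) (.rp 13 (.thr 57 9 (.thr 53 37 (.dbl 61 1 49))) (.rp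 1 (.thr 57 9 (.thr 43 40 (.thr 59 8 (.thr 11 27 (.dbl 56 26 58))))) .nd)))))) (.rp 9 (.thr 43 40 (.thr 59 8 (.thr 11 27 (.thr 56 26 (.thr 57 58 (.thr 61 1 (.thr 29 17 (.thr 13 45 (.dbl 49 37 53))))))))) (.rp 5 (.str 10 (.nv (.thr 8 59 (.thr 26 58 (.thr 56 11 (.dbl 24 27 40)))) (.nv (.thr 9 57 (.dbl 8 11 59)) (.rp 59 (.thr 9 57 (.thr 11 8 (.dbl 26 56 58))) (.rp 11 (.thr 57 9 (.thr 58 26 (.dbl 59 8 56))) (.rp 8 (.thr 57 9 (.thr 29 17 (.thr 61 1 (.thr 13 45 (.dbl 49 37 53))))) .nd)))))) .nd))))))) (.rp 14 (.str 25 (.nv (.thr 1 61 (.thr 9 57 (.thr 17 29 (.thr 49 33 (.dbl 13 5 37))))) (.nv (.thr 40 43 (.thr 8 59 (.thr 56 24 (.thr 9 57 (.dbl 11 10 26))))) (.rp 57 (.thr 17 29 (.thr 1 61 (.thr 49 33 (.thr 13 37 (.thr 9 5 (.thr 8 59 (.thr 40 43 (.thr 56 24 (.dbl 11 10 26))))))))) (.rp 9 (.thr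 29 17 (.thr 61 1 (.thr 13 45 (.thr 49 37 (.thr 57 53 (.thr 59 8 (.thr 56 58 (.thr 43 40 (.dbl 11 26 27))))))))) .nd))))) (.rp 13 (.str 57 (.nv (.thr 1 61 (.thr 25 9 (.thr 59 8 (.thr 56 58 (.thr 11 26 (.dbl 43 27 40)))))) (.nv (.thr 25 9 (.thr 59 8 (.thr 56 58 (.thr 43 40 (.dbl 11 26 27))))) (.rp 59 (.thr 9 25 (.thr 61 1 (.thr 53 49 (.thr 37 5 (.thr 33 45 (.thr 32 47 (.thr 40 43 (.thr 44 36 (.dbl 35 34 38))))))))) (.rp 58 (.thr 9 25 (.thr 61 1 (.thr 53 49 (.thr 37 5 (.thr 33 45 (.thr 32 47 (.thr 40 43 (.thr 44 36 (.dbl 35 34 38))))))))) (.rp 56 (.thr 9 25 (.thr 61 1 (.thr 53 49 (.thr 37 5 (.thr 33 45 (.thr 32 47 (.thr 40 43 (.thr 44 36 (.dbl 35 34 38))))))))) (.rp 43 (.thr 61 1 (.thr 53 49 (.thr 25 9 (.thr 5 37 (.thr 59 8 (.thr 58 56 (.thr 63 48 (.thr 60 62 (.dbl 51 54 55)))))))))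 (.rp 40 (.str 60 (.nv (.thr 61 1 (.thr 53 49 (.thr 63 62 (.thr 58 48 (.thr 26 10 (.dbl 56 11 59)))))) (.nv (.thr 54 51 (.thr 61 1 (.thr 53 49 (.thr 52 55 (.thr 63 62 (.dbl 48 56 58)))))) (.nv (.thr 25 9 (.thr 59 8 (.thr 51 54 (.thr 55 63 (.dbl 38 4 12))))) (.rp 63 (.thr 25 9 (.thr 59 8 (.thr 56 58 (.thr 54 51 (.thr 52 48 (.thr 53 55 (.dbl 61 1 49))))))) (.rp 56 (.thr 61 1 (.thr 63 62 (.thr 51 54 (.thr 59 55 (.dbl 25 8 9))))) (.rp 51 (.thr 61 1 (.thr 53 49 (.thr 25 9 (.thr 5 37 (.thr 63 62 (.thr 59 8 (.dbl 58 48 56))))))) (.rp 25 (.thr 61 1 (.thr 62 63 (.thr 54 51 (.thr 58 50 (.thr 26 10 (.dbl 56 11 59)))))) (.rp 9 (.str 53 (.nv (.dbl 61 1 49) (.rp 61 (.thr 54 51 (.thr 52 55 (.thr 56 48 (.thr 26 11 (.dbl 58 10 59))))) (.rp 49 (.thr 54 51 (.thr 52 55 (.thr 48 56 (.thr 63 58 (.dbl 61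 1 62))))) (.rp 5 (.thr 1 61 (.thr 54 51 (.thr 52 55 (.thr 56 48 (.thr 26 11 (.dbl 58 10 59)))))) (.rp 1 (.thr 5 37 (.thr 49 61 (.thr 51 54 (.thr 48 50 (.thr 58 63 (.dbl 56 52 59)))))) .nd)))))) (.rp 5 (.thr 25 9 (.thr 1 61 (.thr 59 8 (.thr 51 54 (.thr 55 63 (.dbl 38 4 12)))))) (.rp 1 (.str 53 (.nv (.thr 5 37 (.thr 25 9 (.thr 59 8 (.thr 61 49 (.thr 63 62 (.dbl 58 48 56)))))) (.nv (.thr 51 54 (.thr 61 49 (.thr 63 62 (.thr 59 55 (.dbl 25 8 9))))) (.nv (.thr 5 37 (.thr 25 9 (.thr 54 51 (.thr 52 55 (.thr 59 8 (.dbl 56 48 58)))))) (.nv (.thr 49 61 (.thr 51 54 (.thr 48 50 (.thr 58 63 (.dbl 56 52 59))))) (.rp 59 (.thr 61 49 (.thr 63 62 (.thr 48 58 (.thr 52 56 (.dbl 54 51 55))))) (.rp 58 (.thr 61 49 (.thr 25 9 (.thr 5 37 (.thr 63 62 (.thr 59 8 (.dbl 51 54 55)))))) (.rp 9 (.thr 5 37 (.thr 49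 61 (.thr 51 54 (.thr 48 50 (.thr 58 63 (.dbl 56 52 59)))))) (.rp 5 (.thr 9 25 (.thr 49 61 (.thr 51 54 (.thr 48 50 (.thr 56 52 (.dbl 58 59 63)))))) (.rp 3 (.str 2 (.nv (.thr 61 49 (.thr 63 62 (.thr 48 58 (.thr 56 52 (.thr 26 11 (.dbl 37 5 15)))))) (.nv (.thr 51 54 (.thr 61 49 (.thr 63 62 (.thr 59 55 (.dbl 25 8 9))))) (.nv (.thr 5 37 (.thr 25 9 (.thr 54 51 (.thr 52 55 (.thr 59 8 (.dbl 56 48 58)))))) (.nv (.thr 49 61 (.thr 51 54 (.thr 48 50 (.thr 58 63 (.dbl 56 52 59))))) (.rp 58 (.thr 5 37 (.thr 25 9 (.thr 61 49 (.thr 51 54 (.thr 59 8 (.dbl 63 55 62)))))) (.rp 54 (.thr 61 49 (.thr 63 62 (.thr 58 48 (.thr 26 10 (.dbl 56 11 59))))) (.rp 9 (.thr 5 37 (.thr 49 61 (.thr 51 54 (.thr 48 50 (.thr 58 63 (.dbl 56 52 59)))))) (.rp 5 (.thr 9 25 (.thr 49 61 (.thr 51 54 (.thr 48 50 (.thr 56 52 (.dbl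 58 59 63)))))) .nd))))))))) (.rp 2 (.str 3 (.nv (.thr 5 37 (.thr 25 9 (.thr 59 8 (.thr 61 49 (.thr 63 62 (.dbl 58 48 56)))))) (.nv (.thr 54 51 (.thr 52 55 (.thr 48 56 (.thr 33 18 (.dbl 37 5 45))))) (.nv (.thr 51 54 (.thr 35 19 (.thr 38 44 (.dbl 25 9 12)))) (.rp 9 (.thr 5 37 (.thr 49 61 (.thr 51 54 (.thr 48 50 (.thr 58 63 (.dbl 56 52 59)))))) (.rp 5 (.thr 9 25 (.thr 49 61 (.thr 51 54 (.thr 48 50 (.thr 58 63 (.dbl 56 52 59)))))) .nd)))))) .nd))))))))))) .nd))))))))))) (.rp 27 (.thr 9 25 (.thr 61 1 (.thr 53 49 (.thr 37 5 (.thr 33 45 (.thr 32 47 (.thr 40 43 (.thr 44 36 (.dbl 35 34 38))))))))) (.rp 26 (.thr 9 25 (.thr 61 1 (.thr 53 49 (.thr 37 5 (.thr 33 45 (.thr 32 47 (.thr 40 43 (.thr 44 36 (.dbl 35 34 38))))))))) (.rp 25 (.thr 40 43 (.str 37 (.nv (.thr 32 47 (.thr 44 36 (.thr 35 38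 (.dbl 33 34 45)))) (.nv (.thr 53 5 (.dbl 61 1 49)) (.rp 28 (.str 19 (.nv (.thr 32 47 (.thr 44 36 (.thr 35 38 (.dbl 33 34 45)))) (.nv (.thr 61 1 (.dbl 53 5 49)) .nd))) (.rp 19 (.str 28 (.nv (.thr 32 47 (.thr 44 36 (.thr 35 38 (.dbl 33 34 45)))) (.nv (.thr 53 5 (.dbl 61 1 49)) .nd))) .nd)))))) (.rp 12 (.thr 9 25 (.thr 61 1 (.thr 53 49 (.thr 37 5 (.thr 33 45 (.thr 32 47 (.thr 40 43 (.thr 44 36 (.dbl 35 34 38))))))))) (.rp 11 (.thr 9 25 (.thr 61 1 (.thr 53 49 (.thr 37 5 (.thr 33 45 (.thr 32 47 (.thr 40 43 (.thr 44 36 (.dbl 35 34 38))))))))) (.rp 10 (.thr 25 9 (.thr 43 40 (.thr 59 8 (.thr 11 27 (.dbl 56 26 58))))) (.rp 9 (.thr 1 61 (.str 56 (.nv (.thr 40 43 (.thr 8 24 (.dbl 59 25 58))) (.nv (.thr 58 59 (.dbl 26 10 11)) (.rp 59 (.thr 26 11 (.thr 16 31 (.thr 10 58 (.str 37 (.nv (.thr 45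 33 (.thr 47 32 (.thr 44 46 (.thr 35 38 (.dbl 43 39 40))))) (.nv (.thr 15 48 (.thr 45 33 (.thr 60 30 (.thr 51 54 (.thr 27 39 (.thr 24 25 (.dbl 40 8 43))))))) (.nv (.thr 43 40 (.thr 47 32 (.thr 35 39 (.thr 45 33 (.dbl 44 38 46))))) (.rp 45 (.str 29 (.nv (.thr 17 25 (.thr 32 47 (.thr 33 49 (.thr 35 34 (.thr 44 38 (.dbl 40 36 43)))))) (.nv (.thr 15 48 (.thr 25 17 (.thr 27 24 (.thr 43 40 (.thr 47 32 (.dbl 39 35 51)))))) (.nv (.thr 17 25 (.thr 33 49 (.thr 48 15 (.dbl 18 3 19)))) (.rp 63 (.thr 17 25 (.thr 33 49 (.thr 48 15 (.thr 47 32 (.dbl 18 3 19))))) (.rp 47 (.thr 53 5 (.thr 25 17 (.thr 15 48 (.thr 27 24 (.thr 51 39 (.thr 54 60 (.thr 55 52 (.dbl 38 4 12)))))))) (.rp 43 (.str 27 (.nv (.dbl 25 17 24) (.rp 25 (.thr 15 48 (.thr 53 5 (.thr 51 39 (.thr 54 60 (.thr 55 52 (.thr 38 4 (.thr 35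 44 (.thr 19 3 (.thr 17 18 (.thr 33 49 (.dbl 32 34 47))))))))))) (.rp 24 (.thr 17 25 (.thr 33 49 (.thr 48 15 (.dbl 18 3 19)))) (.rp 17 (.thr 24 25 (.thr 48 15 (.thr 28 20 (.thr 60 52 (.dbl 12 36 44))))) .nd))))) (.rp 27 (.thr 43 40 (.thr 17 25 (.thr 33 49 (.thr 48 15 (.dbl 18 3 19))))) (.rp 25 (.thr 48 15 (.thr 60 52 (.thr 47 32 (.thr 43 40 (.thr 39 35 (.thr 51 54 (.thr 50 49 (.dbl 38 14 36)))))))) (.rp 17 (.thr 48 15 (.thr 60 52 (.thr 51 54 (.thr 50 49 (.thr 38 14 (.thr 12 25 (.dbl 44 28 35))))))) (.rp 15 (.thr 25 17 (.thr 47 32 (.thr 24 27 (.thr 43 40 (.thr 20 28 (.thr 39 35 (.thr 36 38 (.thr 52 4 (.dbl 48 12 60))))))))) (.rp 12 (.thr 25 17 (.thr 15 48 (.thr 47 32 (.thr 43 40 (.thr 39 35 (.dbl 27 24 51)))))) .nd)))))))))))) (.rp 43 (.str 27 (.nv (.thr 24 25 (.thr 32 47 (.thr 40 8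 (.thr 36 44 (.dbl 48 12 15))))) (.nv (.thr 53 5 (.thr 15 48 (.thr 45 33 (.thr 60 30 (.dbl 51 39 54))))) (.nv (.thr 24 25 (.thr 28 20 (.thr 48 15 (.thr 12 36 (.dbl 60 44 52))))) (.nv (.thr 45 33 (.thr 15 48 (.thr 51 39 (.dbl 60 30 54)))) (.rp 48 (.thr 24 25 (.thr 40 8 (.thr 32 47 (.thr 44 36 (.thr 35 38 (.dbl 33 34 45)))))) (.rp 45 (.str 29 (.nv (.dbl 25 17 24) (.rp 25 (.thr 15 48 (.thr 53 5 (.thr 51 39 (.thr 54 60 (.thr 55 52 (.thr 38 4 (.thr 35 44 (.thr 19 3 (.thr 17 18 (.thr 33 49 (.dbl 32 34 47))))))))))) (.rp 24 (.thr 17 25 (.thr 33 49 (.thr 48 15 (.dbl 18 3 19)))) (.rp 17 (.thr 24 25 (.thr 48 15 (.thr 28 20 (.thr 60 52 (.dbl 12 36 44))))) .nd))))) (.rp 15 (.thr 25 24 (.thr 47 32 (.thr 29 17 (.thr 45 33 (.thr 46 44 (.thr 12 63 (.dbl 38 34 51))))))) .nd)))))))) (.rp 40 (.thr 48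 15 (.thr 60 52 (.thr 51 54 (.thr 50 49 (.thr 38 14 (.thr 12 25 (.dbl 36 24 39))))))) (.rp 39 (.thr 48 15 (.thr 60 52 (.thr 51 54 (.thr 50 49 (.thr 38 14 (.thr 12 25 (.dbl 44 28 35))))))) (.rp 38 (.thr 47 32 (.thr 48 15 (.thr 45 33 (.thr 60 52 (.thr 44 46 (.thr 12 28 (.thr 24 36 (.dbl 40 8 43)))))))) (.rp 33 (.thr 48 15 (.thr 60 52 (.thr 51 54 (.thr 50 49 (.thr 38 14 (.thr 12 25 (.dbl 36 24 39))))))) .nd))))))))))))) (.rp 58 (.thr 40 43 (.str 37 (.nv (.thr 26 11 (.thr 32 47 (.thr 36 44 (.thr 48 15 (.dbl 24 8 12))))) (.nv (.thr 32 47 (.thr 44 36 (.thr 35 38 (.dbl 33 34 45)))) (.rp 47 (.thr 26 11 (.thr 48 15 (.thr 60 52 (.thr 51 54 (.thr 50 49 (.thr 38 14 (.thr 12 25 (.dbl 44 28 35)))))))) (.rp 45 (.str 29 (.nv (.thr 8 24 (.dbl 25 17 59)) (.rp 59 (.thr 24 8 (.thr 25 17 (.dbl 26 11 27)))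 (.rp 25 (.thr 32 47 (.thr 44 36 (.thr 26 11 (.thr 31 16 (.thr 28 30 (.thr 60 12 (.dbl 48 15 52))))))) (.rp 24 (.thr 17 25 (.thr 33 49 (.thr 32 47 (.thr 44 36 (.dbl 35 34 38))))) (.rp 17 (.thr 32 47 (.thr 44 36 (.thr 26 11 (.thr 31 16 (.thr 28 30 (.thr 60 12 (.dbl 48 15 52))))))) (.rp 8 (.thr 17 25 (.thr 33 49 (.thr 32 47 (.thr 44 36 (.dbl 35 34 38))))) .nd))))))) (.rp 44 (.thr 45 33 (.thr 26 11 (.thr 15 48 (.thr 60 30 (.thr 51 54 (.thr 27 39 (.dbl 24 8 25))))))) (.rp 39 (.thr 8 24 (.thr 45 33 (.thr 25 59 (.thr 29 17 (.thr 47 32 (.thr 46 44 (.thr 12 63 (.dbl 38 34 51)))))))) (.rp 36 (.thr 45 33 (.thr 26 11 (.thr 15 48 (.thr 60 30 (.thr 51 54 (.thr 27 39 (.dbl 24 8 25))))))) (.rp 35 (.thr 26 11 (.thr 48 15 (.thr 60 52 (.thr 51 54 (.thr 50 49 (.thr 38 14 (.thr 12 25 (.dbl 36 24 39))))))))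 (.rp 32 (.thr 45 33 (.thr 26 11 (.thr 16 31 (.thr 15 48 (.thr 60 30 (.thr 51 54 (.thr 27 39 (.dbl 24 8 25)))))))) (.rp 29 (.thr 45 33 (.thr 32 47 (.thr 36 44 (.thr 26 11 (.thr 48 15 (.dbl 24 8 12)))))) .nd)))))))))))) (.rp 45 (.str 29 (.nv (.thr 25 17 (.thr 8 59 (.dbl 40 24 43))) (.nv (.thr 58 59 (.dbl 26 10 11)) (.rp 59 (.thr 25 17 (.thr 40 43 (.thr 24 8 (.dbl 26 11 27)))) .nd)))) (.rp 29 (.str 45 (.nv (.thr 40 43 (.thr 8 24 (.dbl 59 25 58))) (.nv (.thr 58 59 (.dbl 26 10 11)) (.rp 59 (.thr 37 33 (.thr 47 32 (.thr 44 46 (.thr 43 40 (.dbl 35 38 39))))) (.rp 58 (.thr 37 33 (.thr 47 32 (.thr 44 46 (.thr 43 40 (.dbl 35 38 39))))) .nd))))) .nd)))))))) (.rp 8 (.thr 9 25 (.thr 61 1 (.thr 53 49 (.thr 37 5 (.thr 33 45 (.thr 32 47 (.thr 40 43 (.thr 44 36 (.dbl 35 34 38))))))))) (.rp 4 (.thr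 9 25 (.thr 61 1 (.thr 53 49 (.thr 37 5 (.thr 33 45 (.thr 32 47 (.thr 40 43 (.thr 44 36 (.dbl 35 34 38))))))))) (.rp 1 (.str 5 (.nv (.thr 37 53 (.thr 32 47 (.thr 33 45 (.thr 35 34 (.thr 40 43 (.dbl 44 36 38)))))) (.nv (.thr 43 40 (.thr 25 9 (.thr 59 8 (.thr 11 27 (.dbl 56 26 58))))) (.rp 43 (.thr 25 9 (.thr 53 37 (.thr 29 17 (.thr 59 8 (.thr 58 56 (.thr 63 48 (.thr 51 55 (.dbl 12 38 46)))))))) (.rp 40 (.thr 25 9 (.thr 37 53 (.thr 45 33 (.thr 47 32 (.thr 59 8 (.thr 56 58 (.thr 11 26 (.thr 43 27 (.thr 35 39 (.dbl 44 38 46)))))))))) (.rp 3 (.str 2 (.nv (.thr 37 53 (.thr 32 47 (.thr 33 45 (.thr 35 34 (.thr 40 43 (.dbl 44 36 38)))))) (.nv (.thr 43 40 (.thr 25 9 (.thr 59 8 (.thr 11 27 (.dbl 56 26 58))))) (.rp 43 (.thr 25 9 (.thr 53 37 (.thr 29 17 (.thr 59 8 (.thr 58 56 (.thr 63 48 (.thr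 51 55 (.dbl 12 38 46)))))))) (.rp 40 (.thr 25 9 (.thr 37 53 (.thr 45 33 (.thr 47 32 (.thr 59 8 (.thr 56 58 (.thr 11 26 (.thr 43 27 (.thr 35 39 (.dbl 44 38 46)))))))))) .nd))))) (.rp 2 (.str 3 (.nv (.thr 37 53 (.thr 33 45 (.thr 48 18 (.thr 26 15 (.thr 56 11 (.dbl 58 10 59)))))) (.nv (.thr 37 53 (.thr 32 47 (.thr 33 45 (.thr 35 34 (.thr 40 43 (.dbl 44 36 38)))))) (.nv (.thr 43 40 (.thr 25 9 (.thr 59 8 (.thr 11 27 (.dbl 56 26 58))))) .nd)))) .nd))))))) .nd)))))))))))))))))) (.rp 12 (.str 37 (.nv (.thr 32 47 (.thr 33 45 (.thr 40 43 (.thr 44 36 (.dbl 35 34 38))))) (.nv (.thr 5 53 (.thr 1 61 (.thr 13 9 (.thr 33 45 (.dbl 49 17 25))))) (.rp 45 (.thr 40 43 (.thr 32 47 (.thr 44 36 (.thr 35 38 (.thr 33 34 (.thr 1 61 (.thr 5 53 (.thr 13 9 (.dbl 49 17 25))))))))) (.rp 33 (.thr 43 40 (.thr 47 32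 (.thr 35 39 (.thr 44 38 (.thr 45 46 (.thr 61 1 (.thr 53 5 (.thr 49 57 (.dbl 13 25 29))))))))) (.rp 8 (.str 4 (.nv (.thr 32 47 (.thr 38 55 (.thr 36 39 (.dbl 40 43 44)))) (.nv (.thr 1 61 (.thr 5 53 (.thr 13 9 (.thr 33 45 (.dbl 49 17 25))))) (.nv (.thr 32 47 (.thr 33 45 (.thr 38 55 (.dbl 34 35 46)))) .nd)))) (.rp 4 (.str 8 (.nv (.thr 1 61 (.thr 5 53 (.thr 9 13 (.thr 11 10 (.thr 40 43 (.dbl 56 24 26)))))) (.nv (.thr 33 45 (.thr 25 59 (.thr 17 29 (.dbl 1 49 61)))) (.nv (.thr 40 43 (.thr 56 24 (.thr 25 59 (.thr 9 57 (.dbl 11 10 26))))) (.nv (.thr 1 61 (.thr 5 53 (.thr 25 59 (.dbl 9 13 57)))) .nd))))) .nd))))))) (.rp 11 (.str 37 (.nv (.thr 32 47 (.thr 33 45 (.thr 40 43 (.thr 44 36 (.dbl 35 34 38))))) (.nv (.thr 5 53 (.thr 1 61 (.thr 13 9 (.thr 33 45 (.dbl 49 17 25))))) (.rp 45 (.thr 40 43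 (.thr 32 47 (.thr 44 36 (.thr 35 38 (.thr 33 34 (.thr 1 61 (.thr 5 53 (.thr 13 9 (.dbl 49 17 25))))))))) (.rp 33 (.thr 43 40 (.thr 47 32 (.thr 35 39 (.thr 44 38 (.thr 45 46 (.thr 61 1 (.thr 13 29 (.thr 53 5 (.dbl 49 25 57))))))))) .nd))))) (.rp 10 (.str 25 (.nv (.thr 43 40 (.thr 57 9 (.thr 59 8 (.thr 11 27 (.dbl 56 26 58))))) (.nv (.thr 17 29 (.thr 1 61 (.thr 49 33 (.thr 9 57 (.dbl 13 5 37))))) (.rp 57 (.thr 17 29 (.str 5 (.nv (.thr 1 61 (.thr 13 9 (.dbl 37 49 53))) (.nv (.thr 37 53 (.thr 49 13 (.dbl 1 33 61))) (.rp 61 (.thr 37 53 (.thr 49 13 (.thr 45 33 (.thr 47 32 (.thr 43 40 (.thr 35 39 (.dbl 44 38 46))))))) (.rp 53 (.thr 1 61 (.thr 49 33 (.dbl 13 9 37))) (.rp 49 (.thr 37 53 (.thr 61 1 (.thr 33 45 (.thr 32 47 (.thr 35 34 (.thr 40 43 (.dbl 44 36 38))))))) (.rp 37 (.str 7 (.nv (.thr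 4 6 (.thr 38 55 (.thr 35 44 (.thr 34 46 (.thr 33 32 (.dbl 1 49 61)))))) (.nv (.thr 1 61 (.thr 4 6 (.thr 38 55 (.thr 34 46 (.thr 35 44 (.dbl 33 32 49)))))) (.rp 63 (.thr 1 61 (.thr 59 8 (.thr 4 6 (.thr 38 55 (.thr 34 46 (.thr 12 51 (.thr 35 44 (.dbl 33 32 49)))))))) (.rp 61 (.thr 59 8 (.thr 43 40 (.thr 11 27 (.thr 3 15 (.thr 23 63 (.thr 4 6 (.dbl 55 38 39))))))) (.rp 55 (.thr 59 8 (.thr 43 40 (.thr 11 27 (.thr 3 15 (.thr 6 4 (.thr 12 9 (.thr 51 38 (.thr 19 35 (.thr 16 18 (.dbl 26 31 56)))))))))) (.rp 49 (.thr 59 8 (.thr 43 40 (.thr 11 27 (.thr 3 15 (.thr 23 63 (.thr 4 6 (.dbl 55 38 39))))))) (.rp 47 (.thr 59 8 (.thr 43 40 (.thr 11 27 (.thr 3 15 (.thr 63 23 (.thr 4 6 (.dbl 55 38 51))))))) (.rp 46 (.thr 59 8 (.thr 43 40 (.thr 11 27 (.thr 3 15 (.thr 63 23 (.thr 4 6 (.dbl 55 38 51)))))))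 (.rp 45 (.thr 59 8 (.thr 43 40 (.thr 11 27 (.thr 3 15 (.thr 23 63 (.thr 4 6 (.dbl 55 38 39))))))) (.rp 44 (.thr 59 8 (.thr 43 40 (.thr 11 27 (.thr 3 15 (.thr 23 63 (.thr 4 6 (.dbl 55 38 39))))))) (.rp 38 (.thr 59 8 (.thr 43 40 (.thr 11 27 (.thr 3 15 (.thr 63 23 (.thr 51 55 (.thr 19 35 (.thr 16 18 (.dbl 26 31 56))))))))) (.rp 35 (.thr 59 8 (.thr 43 40 (.thr 11 27 (.thr 3 15 (.thr 23 63 (.thr 4 6 (.dbl 55 38 39))))))) (.rp 34 (.thr 59 8 (.thr 43 40 (.thr 11 27 (.thr 3 15 (.thr 23 63 (.thr 4 6 (.dbl 55 38 39))))))) (.rp 33 (.thr 59 8 (.thr 43 40 (.thr 11 27 (.thr 3 15 (.thr 23 63 (.thr 4 6 (.dbl 55 38 39))))))) (.rp 32 (.thr 59 8 (.thr 43 40 (.thr 11 27 (.thr 3 15 (.thr 23 63 (.thr 4 6 (.dbl 55 38 39))))))) (.rp 14 (.thr 59 8 (.thr 43 40 (.thr 11 27 (.thr 3 15 (.thr 63 23 (.thr 51 55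 (.thr 6 4 (.dbl 12 9 38)))))))) (.rp 12 (.thr 59 8 (.thr 4 6 (.thr 43 40 (.thr 11 27 (.thr 3 15 (.thr 63 23 (.dbl 55 38 51))))))) (.rp 6 (.thr 59 8 (.thr 43 40 (.thr 11 27 (.thr 3 15 (.thr 63 23 (.thr 51 55 (.thr 19 35 (.thr 16 18 (.dbl 26 31 56))))))))) (.rp 4 (.thr 1 61 (.thr 13 9 (.thr 8 59 (.thr 40 43 (.thr 56 24 (.thr 11 26 (.thr 15 3 (.thr 12 14 (.thr 38 51 (.thr 34 46 (.thr 35 44 (.dbl 33 32 49)))))))))))) (.rp 2 (.thr 59 8 (.thr 43 40 (.thr 11 27 (.thr 3 15 (.thr 63 23 (.thr 51 55 (.thr 6 4 (.dbl 12 9 38)))))))) (.rp 1 (.thr 59 8 (.thr 43 40 (.thr 11 27 (.thr 3 15 (.thr 23 63 (.thr 4 6 (.dbl 55 38 39))))))) .nd)))))))))))))))))))))) (.rp 13 (.thr 37 53 (.thr 45 33 (.thr 47 32 (.thr 43 40 (.thr 35 39 (.dbl 44 38 46)))))) (.rp 1 (.thr 37 53 (.thr 33 45 (.thr 32 47 (.thr 35 34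 (.thr 40 43 (.dbl 44 36 38)))))) .nd)))))))))) (.rp 15 (.str 5 (.nv (.thr 1 61 (.thr 17 29 (.thr 37 53 (.dbl 49 13 33)))) (.nv (.thr 9 57 (.dbl 1 13 61)) (.rp 61 (.thr 9 57 (.thr 13 1 (.dbl 37 49 53))) (.rp 13 (.thr 57 9 (.thr 53 37 (.dbl 61 1 49))) (.rp 1 (.thr 57 9 (.thr 43 40 (.thr 59 8 (.thr 11 27 (.dbl 56 26 58))))) .nd)))))) (.rp 9 (.thr 43 40 (.thr 59 8 (.thr 11 27 (.thr 56 26 (.thr 57 58 (.thr 61 1 (.thr 49 53 (.thr 29 17 (.dbl 13 37 45))))))))) (.rp 5 (.str 15 (.nv (.thr 43 40 (.thr 59 8 (.thr 11 27 (.thr 56 26 (.dbl 57 9 58))))) (.nv (.thr 29 17 (.thr 61 1 (.thr 13 45 (.thr 12 14 (.thr 46 63 (.dbl 38 34 51)))))) (.nv (.thr 57 9 (.thr 43 40 (.thr 59 8 (.thr 11 27 (.dbl 56 26 58))))) (.rp 12 (.thr 57 9 (.thr 29 17 (.thr 61 1 (.thr 13 45 (.dbl 49 37 53))))) .nd))))) .nd)))))))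 (.rp 9 (.str 37 (.nv (.thr 45 33 (.thr 53 5 (.thr 61 1 (.thr 13 29 (.dbl 49 25 57))))) (.nv (.thr 32 47 (.thr 40 43 (.thr 33 45 (.thr 44 36 (.dbl 35 34 38))))) (.rp 45 (.str 17 (.nv (.thr 1 61 (.thr 49 33 (.dbl 25 13 29))) (.rp 61 (.thr 32 47 (.thr 40 43 (.thr 44 36 (.thr 35 38 (.thr 33 34 (.thr 49 1 (.dbl 25 13 29))))))) (.rp 49 (.thr 25 29 (.thr 53 5 (.thr 59 8 (.thr 43 40 (.thr 11 27 (.thr 56 26 (.thr 58 57 (.thr 63 48 (.thr 3 23 (.thr 15 7 (.dbl 47 31 32))))))))))) (.rp 33 (.thr 25 29 (.thr 53 5 (.thr 59 8 (.thr 43 40 (.thr 11 27 (.thr 56 26 (.thr 57 58 (.dbl 49 13 61)))))))) (.rp 29 (.thr 32 47 (.thr 40 43 (.thr 44 36 (.thr 35 38 (.thr 33 34 (.dbl 1 49 61)))))) (.rp 25 (.thr 1 61 (.thr 33 49 (.thr 32 47 (.thr 35 34 (.thr 40 43 (.dbl 44 36 38)))))) (.rp 13 (.thr 32 47 (.thr 40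 43 (.thr 44 36 (.thr 35 38 (.thr 33 34 (.dbl 1 49 61)))))) (.rp 1 (.thr 25 29 (.thr 13 49 (.thr 53 5 (.thr 59 8 (.thr 43 40 (.thr 11 27 (.thr 56 26 (.thr 58 57 (.thr 63 48 (.thr 3 23 (.thr 15 7 (.dbl 47 31 32)))))))))))) .nd))))))))) (.rp 33 (.thr 43 40 (.thr 47 32 (.thr 35 39 (.thr 44 38 (.thr 45 46 (.thr 61 1 (.thr 13 29 (.thr 53 5 (.dbl 49 25 57))))))))) .nd))))) (.rp 8 (.str 37 (.nv (.thr 5 53 (.thr 1 61 (.thr 13 9 (.thr 33 45 (.dbl 49 17 25))))) (.nv (.thr 32 47 (.thr 40 43 (.thr 33 45 (.thr 44 36 (.dbl 35 34 38))))) (.rp 45 (.thr 40 43 (.thr 32 47 (.thr 44 36 (.thr 35 38 (.thr 33 34 (.thr 1 61 (.thr 5 53 (.thr 13 9 (.dbl 49 17 25))))))))) (.rp 33 (.thr 43 40 (.thr 47 32 (.thr 35 39 (.thr 44 38 (.thr 45 46 (.thr 61 1 (.thr 13 29 (.thr 53 5 (.dbl 49 25 57))))))))) (.rp 12 (.str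 4 (.nv (.thr 32 47 (.thr 38 55 (.thr 36 39 (.dbl 40 43 44)))) (.nv (.thr 1 61 (.thr 5 53 (.thr 13 9 (.thr 33 45 (.dbl 49 17 25))))) (.nv (.thr 32 47 (.thr 33 45 (.thr 38 55 (.dbl 34 35 46)))) .nd)))) (.rp 4 (.str 12 (.nv (.thr 1 61 (.thr 5 53 (.thr 13 9 (.thr 15 14 (.thr 47 32 (.thr 31 63 (.dbl 26 16 48))))))) (.nv (.thr 32 47 (.thr 33 45 (.thr 40 43 (.thr 44 36 (.dbl 35 34 38))))) (.nv (.thr 5 53 (.thr 1 61 (.thr 13 9 (.thr 33 45 (.dbl 49 17 25))))) .nd)))) .nd))))))) (.rp 7 (.str 37 (.nv (.thr 32 47 (.thr 33 45 (.thr 40 43 (.thr 44 36 (.dbl 35 34 38))))) (.nv (.thr 5 53 (.thr 1 61 (.thr 13 9 (.thr 33 45 (.dbl 49 17 25))))) (.rp 45 (.thr 40 43 (.thr 32 47 (.thr 44 36 (.thr 35 38 (.thr 33 34 (.thr 1 61 (.thr 5 53 (.thr 13 9 (.dbl 49 17 25))))))))) (.rp 33 (.thr 43 40 (.thr 47 32 (.thr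 35 39 (.thr 44 38 (.thr 45 46 (.thr 61 1 (.thr 13 29 (.thr 53 5 (.dbl 49 25 57))))))))) .nd))))) (.rp 6 (.str 25 (.nv (.thr 8 59 (.thr 9 57 (.thr 40 43 (.thr 56 24 (.dbl 11 10 26))))) (.nv (.thr 17 29 (.thr 1 61 (.thr 49 33 (.thr 9 57 (.dbl 13 5 37))))) (.rp 57 (.thr 40 43 (.thr 8 59 (.thr 56 24 (.thr 11 26 (.thr 9 10 (.thr 1 61 (.thr 17 29 (.thr 49 33 (.dbl 13 5 37))))))))) (.rp 54 (.str 38 (.nv (.thr 1 61 (.thr 9 57 (.thr 13 5 (.thr 17 29 (.dbl 49 33 37))))) (.nv (.thr 8 59 (.thr 40 43 (.thr 56 24 (.thr 11 26 (.dbl 9 10 57))))) (.nv (.thr 44 35 (.thr 40 43 (.thr 32 36 (.thr 46 34 (.dbl 47 37 45))))) .nd)))) (.rp 38 (.str 54 (.nv (.thr 1 61 (.thr 9 57 (.thr 17 29 (.thr 49 33 (.dbl 13 5 37))))) (.nv (.thr 40 43 (.thr 8 59 (.thr 56 24 (.thr 9 57 (.dbl 11 10 26))))) (.rp 57 (.thr 17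 29 (.thr 1 61 (.thr 49 33 (.thr 13 37 (.thr 9 5 (.thr 8 59 (.thr 40 43 (.thr 56 24 (.dbl 11 10 26))))))))) (.rp 9 (.thr 29 17 (.thr 61 1 (.thr 13 45 (.thr 49 37 (.thr 57 53 (.thr 59 8 (.thr 56 58 (.thr 43 40 (.dbl 11 26 27))))))))) .nd))))) (.rp 9 (.thr 43 40 (.thr 59 8 (.thr 11 27 (.thr 56 26 (.thr 57 58 (.thr 61 1 (.thr 49 53 (.thr 29 17 (.dbl 13 37 45))))))))) .nd))))))) (.rp 5 (.str 25 (.nv (.thr 29 17 (.thr 57 9 (.thr 61 1 (.thr 13 45 (.dbl 49 37 53))))) (.nv (.thr 8 59 (.thr 40 43 (.thr 9 57 (.thr 56 24 (.dbl 11 10 26))))) (.rp 57 (.str 35 (.nv (.thr 1 61 (.thr 40 43 (.thr 44 38 (.thr 32 36 (.thr 33 34 (.dbl 17 29 49)))))) (.nv (.thr 29 17 (.thr 43 40 (.thr 44 38 (.thr 47 39 (.thr 45 46 (.dbl 61 1 13)))))) (.nv (.thr 1 61 (.thr 17 29 (.thr 38 44 (.thr 34 46 (.dbl 33 32 49)))))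 (.nv (.thr 43 40 (.thr 47 39 (.thr 17 29 (.thr 1 61 (.thr 49 33 (.dbl 37 13 32)))))) (.nv (.thr 40 43 (.thr 44 38 (.thr 32 36 (.thr 37 47 (.dbl 33 34 45))))) (.rp 15 (.str 10 (.nv (.thr 1 61 (.thr 38 44 (.thr 34 46 (.thr 33 32 (.dbl 17 29 49))))) (.nv (.thr 8 59 (.thr 11 9 (.dbl 26 56 58))) (.rp 1 (.thr 26 58 (.thr 11 56 (.thr 59 8 (.dbl 27 24 43)))) .nd)))) (.rp 10 (.str 15 (.nv (.thr 43 40 (.thr 39 47 (.thr 27 51 (.dbl 59 8 11)))) (.nv (.thr 1 61 (.thr 17 29 (.thr 38 44 (.thr 34 46 (.dbl 33 32 49))))) (.nv (.thr 43 40 (.thr 39 47 (.thr 51 27 (.dbl 38 12 44)))) (.rp 47 (.thr 29 17 (.thr 61 1 (.thr 13 45 (.thr 12 14 (.dbl 38 44 51))))) .nd))))) .nd)))))))) (.rp 15 (.str 10 (.nv (.thr 8 59 (.thr 26 58 (.thr 56 11 (.dbl 24 27 40)))) (.nv (.thr 9 57 (.dbl 8 11 59)) (.rp 59 (.thr 9 57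 (.thr 11 8 (.dbl 26 56 58))) (.rp 11 (.thr 57 9 (.thr 58 26 (.dbl 59 8 56))) (.rp 8 (.thr 57 9 (.thr 29 17 (.thr 61 1 (.thr 13 45 (.dbl 49 37 53))))) .nd)))))) (.rp 10 (.str 15 (.nv (.thr 43 40 (.thr 59 8 (.thr 11 27 (.thr 56 26 (.dbl 57 9 58))))) (.nv (.thr 29 17 (.thr 61 1 (.thr 13 45 (.thr 12 14 (.thr 46 63 (.dbl 38 34 51)))))) (.nv (.thr 57 9 (.thr 43 40 (.thr 59 8 (.thr 11 27 (.dbl 56 26 58))))) (.rp 12 (.thr 57 9 (.thr 29 17 (.thr 61 1 (.thr 13 45 (.dbl 49 37 53))))) .nd))))) (.rp 9 (.thr 43 40 (.thr 59 8 (.thr 11 27 (.thr 56 26 (.thr 57 58 (.thr 29 17 (.thr 61 1 (.thr 13 45 (.dbl 49 37 53))))))))) .nd))))))) (.rp 4 (.str 37 (.nv (.thr 32 47 (.thr 33 45 (.thr 40 43 (.thr 44 36 (.dbl 35 34 38))))) (.nv (.thr 5 53 (.thr 1 61 (.thr 13 9 (.thr 33 45 (.dbl 49 17 25))))) (.rp 45 (.thr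 40 43 (.thr 32 47 (.thr 44 36 (.thr 35 38 (.thr 33 34 (.thr 1 61 (.thr 5 53 (.thr 13 9 (.dbl 49 17 25))))))))) (.rp 33 (.thr 43 40 (.thr 47 32 (.thr 35 39 (.thr 44 38 (.thr 45 46 (.thr 61 1 (.thr 13 29 (.thr 53 5 (.dbl 49 25 57))))))))) (.rp 12 (.str 8 (.nv (.thr 1 61 (.thr 5 53 (.thr 9 13 (.thr 11 10 (.thr 40 43 (.dbl 56 24 26)))))) (.nv (.thr 33 45 (.thr 25 59 (.thr 17 29 (.dbl 1 49 61)))) (.nv (.thr 40 43 (.thr 56 24 (.thr 25 59 (.thr 9 57 (.dbl 11 10 26))))) (.nv (.thr 1 61 (.thr 5 53 (.thr 25 59 (.dbl 9 13 57)))) .nd))))) (.rp 8 (.str 12 (.nv (.thr 1 61 (.thr 5 53 (.thr 13 9 (.thr 15 14 (.thr 47 32 (.thr 31 63 (.dbl 26 16 48))))))) (.nv (.thr 32 47 (.thr 33 45 (.thr 40 43 (.thr 44 36 (.dbl 35 34 38))))) (.nv (.thr 5 53 (.thr 1 61 (.thr 13 9 (.thr 33 45 (.dbl 49 17 25))))) .nd))))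 .nd))))))) (.rp 3 (.thr 1 61 (.str 9 (.nv (.thr 25 57 (.thr 8 59 (.thr 40 43 (.thr 56 24 (.dbl 11 10 26))))) (.nv (.thr 13 5 (.thr 25 57 (.thr 17 29 (.dbl 49 33 37)))) (.rp 57 (.str 37 (.nv (.dbl 5 13 53) (.rp 53 (.str 49 (.nv (.dbl 13 5 25) (.nv (.dbl 33 17 45) .nd))) (.rp 49 (.thr 53 5 (.thr 45 33 (.thr 43 40 (.thr 47 32 (.thr 35 39 (.dbl 44 38 46)))))) (.rp 13 (.thr 45 33 (.thr 43 40 (.thr 47 32 (.thr 35 39 (.dbl 44 38 46))))) (.rp 5 (.thr 45 33 (.thr 43 40 (.thr 47 32 (.thr 35 39 (.dbl 44 38 46))))) .nd)))))) (.rp 53 (.thr 13 5 (.thr 25 57 (.thr 49 37 (.dbl 17 29 33)))) (.rp 49 (.thr 5 13 (.thr 25 57 (.thr 53 37 (.thr 8 59 (.thr 11 10 (.thr 40 43 (.dbl 56 24 26))))))) (.rp 25 (.thr 5 13 (.thr 37 53 (.thr 45 33 (.thr 47 32 (.thr 43 40 (.thr 35 39 (.dbl 44 38 46))))))) (.rp 10 (.thr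 25 57 (.thr 17 29 (.thr 49 33 (.dbl 13 5 37)))) .nd))))))))) (.rp 2 (.thr 40 43 (.thr 1 61 (.str 5 (.nv (.thr 9 13 (.thr 25 57 (.thr 8 59 (.thr 11 10 (.dbl 56 24 26))))) (.nv (.thr 37 53 (.thr 32 47 (.thr 44 36 (.thr 35 38 (.dbl 33 34 45))))) (.nv (.thr 13 9 (.thr 37 53 (.thr 33 45 (.dbl 49 17 25)))) (.rp 57 (.thr 13 9 (.thr 37 53 (.thr 49 25 (.dbl 33 17 45)))) (.rp 53 (.thr 9 13 (.thr 25 57 (.str 49 (.nv (.thr 8 59 (.thr 11 10 (.dbl 56 24 26))) (.nv (.dbl 17 29 33) (.rp 45 (.thr 29 17 (.thr 8 59 (.thr 56 24 (.dbl 11 10 26)))) (.rp 29 (.str 45 (.nv (.thr 8 59 (.thr 11 10 (.dbl 56 24 26))) (.nv (.dbl 33 17 37) .nd))) .nd))))))) (.rp 49 (.thr 9 13 (.thr 53 37 (.thr 25 57 (.thr 8 59 (.thr 11 10 (.dbl 56 24 26)))))) (.rp 45 (.thr 13 9 (.thr 37 53 (.thr 32 47 (.thr 44 36 (.thr 35 38 (.thr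 33 34 (.dbl 49 17 25))))))) .nd)))))))))) (.rp 1 .ext .nd))))))))))))))))))))))))))))))))))))))))))))))))))))))))))))

theorem w404 : WinAt (4398048608256, 4194305) :=
  chF (K := [(6597071863808, 4194307), (6597071863808, 37748737), (6597071863808, 137443147777), (6597071863808, 1099515822081), (6734510817280, 1152922604122669057)]) (kc w399 (kc w400 (kc w401 (kc w403 (kc w402 kn))))) c404 4398048608256 4194305 0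
    [] (by decide +kernel) (by decide +kernel)

/-- A certificate. -/
noncomputable def c405 : Ct := (.str 12 (.nv (.thr 4 8 (.thr 38 55 (.thr 51 25 (.dbl 34 17 46)))) (.nv (.thr 8 4 (.thr 25 59 (.thr 17 29 (.dbl 51 34 38)))) (.rp 55 (.thr 8 4 (.thr 25 59 (.thr 51 38 (.dbl 17 29 34)))) (.rp 51 (.thr 8 4 (.str 24 (.nv (.thr 40 56 (.thr 20 60 (.thr 16 28 (.thr 26 31 (.dbl 25 27 59))))) (.nv (.thr 59 25 (.thr 36 48 (.thr 40 56 (.thr 60 20 (.dbl 44 28 32))))) (.nv (.thr 48 36 (.thr 32 16 (.thr 37 47 (.thr 5 53 (.dbl 15 10 26))))) (.nv (.thr 40 56 (.thr 48 36 (.thr 16 32 (.dbl 20 28 60)))) (.rp 59 (.str 55 (.nv (.thr 36 48 (.thr 40 56 (.thr 60 20 (.dbl 44 28 32)))) (.nv (.thr 48 36 (.thr 32 16 (.thr 37 47 (.thr 5 53 (.dbl 15 10 26))))) (.nv (.thr 48 36 (.thr 16 32 (.thr 40 56 (.dbl 20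 28 60)))) (.rp 48 (.thr 40 56 (.thr 60 20 (.thr 44 28 (.thr 41 43 (.thr 38 35 (.thr 46 34 (.thr 47 45 (.dbl 32 36 37)))))))) (.rp 36 (.thr 40 56 (.thr 20 60 (.thr 16 28 (.thr 48 32 (.thr 26 31 (.thr 15 37 (.dbl 10 5 58))))))) (.rp 32 (.thr 48 36 (.thr 40 56 (.thr 20 60 (.thr 16 28 (.thr 26 31 (.thr 15 37 (.dbl 10 5 58))))))) (.rp 20 (.thr 56 40 (.thr 48 36 (.thr 52 60 (.thr 32 16 (.thr 37 47 (.dbl 53 5 54)))))) .nd)))))))) (.rp 48 (.thr 40 56 (.thr 60 20 (.thr 44 28 (.thr 41 43 (.thr 38 35 (.thr 46 34 (.thr 47 45 (.dbl 32 36 37)))))))) (.rp 20 (.thr 56 40 (.thr 59 25 (.thr 58 57 (.thr 26 10 (.thr 16 31 (.dbl 48 32 36)))))) .nd))))))))) (.rp 38 (.thr 8 4 (.str 10 (.nv (.thr 5 15 (.thr 9 11 (.thr 1 13 (.thr 25 59 (.dbl 41 57 61))))) (.nv (.thr 11 9 (.thr 59 25 (.thr 43 27 (.thr 41 40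 (.dbl 26 56 58))))) (.nv (.thr 15 5 (.thr 26 58 (.thr 16 31 (.dbl 48 32 37)))) (.rp 54 (.str 6 (.nv (.dbl 9 3 11) (.rp 11 (.thr 15 5 (.thr 26 58 (.thr 16 31 (.dbl 48 32 37)))) (.rp 9 (.thr 15 5 (.thr 26 58 (.thr 16 31 (.dbl 48 32 37)))) (.rp 3 (.thr 15 5 (.thr 26 58 (.thr 16 31 (.dbl 48 32 37)))) .nd))))) (.rp 6 (.str 54 (.nv (.thr 9 11 (.thr 25 59 (.thr 17 29 (.thr 51 34 (.dbl 57 41 60))))) (.nv (.thr 26 58 (.thr 16 31 (.thr 48 32 (.dbl 15 5 37)))) (.rp 7 (.thr 5 15 (.thr 37 53 (.thr 25 59 (.thr 13 49 (.dbl 9 1 11))))) (.rp 5 (.str 7 (.nv (.thr 25 59 (.thr 26 58 (.thr 16 31 (.thr 48 32 (.dbl 24 27 36))))) (.nv (.thr 9 11 (.thr 25 59 (.thr 17 29 (.thr 51 34 (.dbl 57 41 60))))) (.nv (.thr 26 58 (.thr 16 31 (.thr 48 32 (.thr 15 37 (.dbl 11 3 9))))) .nd)))) .nd))))) .nd))))))) (.rp 34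 (.thr 8 4 (.str 10 (.nv (.thr 5 15 (.thr 9 11 (.thr 1 13 (.thr 25 59 (.dbl 41 57 61))))) (.nv (.thr 11 9 (.thr 59 25 (.thr 43 27 (.thr 41 40 (.dbl 26 56 58))))) (.nv (.thr 15 5 (.thr 26 58 (.thr 16 31 (.dbl 48 32 37)))) (.rp 50 (.str 18 (.nv (.thr 5 15 (.thr 9 11 (.thr 1 13 (.thr 25 59 (.dbl 41 57 61))))) (.nv (.thr 9 11 (.thr 3 6 (.thr 26 58 (.thr 48 33 (.dbl 15 5 37))))) (.nv (.thr 25 59 (.thr 17 29 (.thr 16 19 (.dbl 26 31 58)))) .nd)))) (.rp 18 (.str 50 (.nv (.thr 15 5 (.thr 14 13 (.thr 25 59 (.dbl 38 26 51)))) (.nv (.thr 15 5 (.thr 26 58 (.thr 48 37 (.dbl 16 31 32)))) (.nv (.thr 26 58 (.thr 38 14 (.dbl 25 51 59))) (.rp 26 (.str 30 (.nv (.thr 25 59 (.thr 29 17 (.thr 28 31 (.thr 60 44 (.dbl 15 5 45))))) (.nv (.thr 15 5 (.thr 13 14 (.thr 25 59 (.thr 51 38 (.dbl 49 37 48))))) (.rp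 59 (.thr 15 5 (.thr 60 45 (.thr 44 28 (.thr 40 20 (.thr 24 56 (.dbl 36 32 48)))))) (.rp 51 (.thr 5 15 (.thr 37 53 (.thr 9 11 (.thr 13 1 (.dbl 25 49 59))))) (.rp 25 (.thr 15 5 (.thr 60 45 (.thr 40 20 (.thr 24 56 (.thr 36 48 (.dbl 44 28 32)))))) (.rp 15 (.thr 25 59 (.thr 29 17 (.thr 51 38 (.thr 48 49 (.thr 24 36 (.thr 16 32 (.dbl 28 20 31))))))) (.rp 5 (.thr 25 59 (.thr 29 17 (.thr 28 31 (.thr 60 44 (.thr 40 20 (.thr 41 43 (.dbl 9 11 57))))))) .nd)))))))) .nd))))) .nd))))))) (.rp 25 (.thr 4 8 (.str 28 (.nv (.thr 60 44 (.thr 20 40 (.thr 24 16 (.dbl 36 48 52)))) (.rp 60 (.str 3 (.nv (.thr 6 9 (.thr 5 7 (.thr 37 53 (.thr 38 55 (.thr 34 46 (.thr 39 36 (.thr 51 17 (.dbl 15 10 27)))))))) (.nv (.thr 38 55 (.thr 34 46 (.thr 51 17 (.thr 35 19 (.thr 32 33 (.thr 41 44 (.thr 43 40 (.dbl 47 37 39))))))))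 (.nv (.thr 6 9 (.thr 5 7 (.thr 37 53 (.thr 32 47 (.thr 48 16 (.dbl 15 10 26)))))) (.rp 62 (.str 61 (.nv (.thr 6 9 (.thr 5 7 (.thr 37 53 (.thr 32 47 (.thr 48 16 (.dbl 15 10 26)))))) (.nv (.thr 38 55 (.thr 41 1 (.thr 35 44 (.thr 51 19 (.dbl 34 17 46))))) (.rp 41 (.thr 38 55 (.thr 34 46 (.thr 51 17 (.thr 35 19 (.thr 32 33 (.thr 37 47 (.thr 36 39 (.dbl 48 16 24)))))))) .nd)))) (.rp 61 (.str 62 (.nv (.thr 38 55 (.thr 46 34 (.thr 14 30 (.thr 15 13 (.thr 10 5 (.dbl 26 50 58)))))) (.nv (.thr 38 55 (.thr 46 34 (.thr 30 14 (.thr 31 29 (.thr 16 26 (.thr 24 20 (.dbl 48 32 36))))))) (.nv (.thr 6 9 (.thr 5 7 (.thr 37 53 (.thr 32 47 (.thr 48 16 (.dbl 15 10 26)))))) (.rp 26 (.thr 6 9 (.thr 5 7 (.thr 38 55 (.thr 37 53 (.thr 32 47 (.thr 48 16 (.dbl 36 24 39))))))) (.rp 10 (.thr 38 55 (.thr 34 46 (.thr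 51 17 (.thr 35 19 (.thr 44 41 (.thr 32 33 (.thr 36 40 (.dbl 48 16 24)))))))) .nd)))))) (.rp 41 (.thr 38 55 (.thr 34 46 (.thr 51 17 (.thr 35 19 (.thr 32 33 (.thr 37 47 (.thr 36 39 (.dbl 48 16 24)))))))) (.rp 37 (.thr 6 9 (.thr 7 5 (.thr 11 15 (.thr 38 55 (.thr 34 46 (.thr 51 17 (.thr 35 19 (.thr 41 44 (.thr 32 33 (.thr 26 56 (.dbl 16 31 48))))))))))) .nd)))))))) (.rp 52 (.thr 44 60 (.thr 38 55 (.thr 46 34 (.thr 47 45 (.thr 37 32 (.thr 39 36 (.dbl 35 41 43))))))) (.rp 48 (.thr 44 60 (.thr 38 55 (.thr 46 34 (.thr 47 45 (.thr 32 37 (.thr 40 36 (.dbl 41 35 43))))))) (.rp 44 (.str 20 (.nv (.thr 24 16 (.dbl 36 48 52)) (.rp 52 (.thr 16 24 (.thr 48 32 (.thr 26 31 (.thr 10 58 (.dbl 15 5 37))))) (.rp 48 (.thr 16 24 (.thr 26 31 (.thr 38 55 (.thr 14 50 (.thr 15 13 (.dbl 10 5 58)))))) (.rp 36 (.thr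 16 24 (.thr 26 31 (.thr 10 58 (.thr 15 5 (.dbl 48 32 37))))) (.rp 24 (.thr 36 52 (.thr 40 60 (.thr 38 55 (.thr 37 39 (.thr 41 43 (.thr 45 33 (.thr 61 1 (.thr 13 29 (.thr 15 14 (.dbl 5 10 53)))))))))) (.rp 16 (.thr 36 52 (.thr 48 24 (.thr 38 55 (.thr 34 46 (.thr 37 39 (.thr 26 15 (.thr 50 14 (.dbl 51 17 49)))))))) .nd))))))) (.rp 40 (.thr 44 60 (.thr 38 55 (.thr 46 34 (.thr 47 45 (.thr 37 32 (.thr 39 36 (.dbl 35 41 43))))))) (.rp 36 (.thr 44 60 (.thr 38 55 (.thr 46 34 (.thr 47 45 (.thr 37 32 (.thr 5 53 (.thr 15 10 (.thr 14 13 (.dbl 26 48 50))))))))) (.rp 32 (.thr 60 44 (.thr 20 40 (.thr 36 52 (.dbl 24 16 48)))) (.rp 24 (.thr 44 60 (.thr 38 55 (.thr 46 34 (.thr 47 45 (.thr 32 37 (.thr 40 36 (.dbl 41 35 43))))))) (.rp 20 (.thr 44 60 (.thr 38 55 (.thr 46 34 (.thr 47 45 (.thr 32 37 (.thr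 36 40 (.dbl 48 16 24))))))) (.rp 16 (.thr 44 60 (.thr 38 55 (.thr 46 34 (.thr 47 45 (.thr 32 37 (.thr 40 36 (.dbl 41 35 43))))))) .nd))))))))))))) (.rp 17 (.str 15 (.nv (.thr 4 8 (.thr 14 13 (.thr 38 55 (.thr 26 50 (.thr 16 31 (.dbl 48 32 37)))))) (.nv (.thr 4 8 (.thr 5 10 (.thr 6 7 (.thr 9 3 (.dbl 13 1 14))))) (.nv (.thr 10 5 (.thr 26 58 (.thr 16 31 (.dbl 48 32 37)))) (.rp 37 (.thr 14 13 (.thr 10 5 (.thr 4 8 (.thr 26 58 (.dbl 38 50 55))))) .nd))))) (.rp 8 (.str 26 (.nv (.thr 10 58 (.thr 15 5 (.thr 14 13 (.thr 38 50 (.thr 34 46 (.dbl 51 17 25)))))) (.nv (.thr 16 31 (.thr 48 32 (.thr 24 36 (.thr 25 27 (.thr 17 29 (.dbl 51 34 38)))))) (.nv (.thr 10 58 (.thr 15 5 (.thr 16 31 (.dbl 48 32 37)))) (.rp 48 (.str 15 (.nv (.dbl 10 5 58) (.rp 58 (.str 53 (.nv (.dbl 5 10 37) (.rp 37 (.thr 14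 13 (.thr 38 50 (.thr 34 46 (.dbl 51 17 25)))) (.rp 10 (.thr 14 13 (.thr 38 50 (.thr 34 46 (.dbl 51 17 25)))) (.rp 5 (.thr 14 13 (.thr 38 50 (.thr 34 46 (.dbl 51 17 25)))) .nd))))) (.rp 53 (.thr 58 10 (.thr 14 13 (.thr 38 50 (.thr 34 46 (.dbl 51 17 25))))) (.rp 10 (.thr 14 13 (.thr 38 50 (.thr 34 46 (.dbl 51 17 25)))) (.rp 5 (.thr 14 13 (.thr 38 50 (.thr 34 46 (.dbl 51 17 25)))) .nd)))))) (.rp 15 (.thr 10 58 (.str 48 (.nv (.dbl 16 31 32) (.rp 47 (.thr 31 16 (.thr 24 36 (.thr 25 27 (.thr 17 29 (.dbl 51 34 38))))) (.rp 32 (.thr 24 36 (.thr 25 27 (.thr 17 29 (.dbl 51 34 38)))) (.rp 31 (.str 47 (.nv (.dbl 32 16 37) (.rp 37 (.thr 24 36 (.thr 25 27 (.thr 17 29 (.dbl 51 34 38)))) (.rp 32 (.thr 24 36 (.thr 25 27 (.thr 17 29 (.dbl 51 34 38)))) (.rp 16 (.thr 24 36 (.thr 25 27 (.thr 17 29 (.dbl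 51 34 38)))) .nd))))) (.rp 16 (.thr 24 36 (.thr 25 27 (.thr 17 29 (.dbl 51 34 38)))) .nd))))))) .nd)))))) (.rp 4 (.str 16 (.nv (.thr 26 31 (.thr 48 32 (.thr 24 36 (.thr 25 27 (.thr 17 29 (.dbl 51 34 38)))))) (.nv (.thr 48 32 (.thr 26 31 (.thr 10 58 (.dbl 15 5 37)))) (.rp 48 (.thr 26 31 (.str 15 (.nv (.dbl 10 5 58) (.rp 58 (.str 53 (.nv (.dbl 5 10 37) (.rp 37 (.thr 14 13 (.thr 38 50 (.thr 34 46 (.dbl 51 17 25)))) (.rp 10 (.thr 14 13 (.thr 38 50 (.thr 34 46 (.dbl 51 17 25)))) (.rp 5 (.thr 14 13 (.thr 38 50 (.thr 34 46 (.dbl 51 17 25)))) .nd))))) (.rp 53 (.thr 58 10 (.thr 14 13 (.thr 38 50 (.thr 34 46 (.dbl 51 17 25))))) (.rp 10 (.thr 14 13 (.thr 38 50 (.thr 34 46 (.dbl 51 17 25)))) (.rp 5 (.thr 14 13 (.thr 38 50 (.thr 34 46 (.dbl 51 17 25)))) .nd))))))) (.rp 47 (.thr 48 32 (.thr 26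 31 (.thr 15 37 (.dbl 10 5 58)))) (.rp 32 (.thr 26 31 (.thr 10 58 (.thr 15 5 (.thr 14 13 (.thr 38 50 (.thr 34 46 (.dbl 51 17 25))))))) (.rp 31 (.thr 48 32 (.thr 24 36 (.thr 20 28 (.thr 40 60 (.thr 8 56 (.thr 25 59 (.thr 51 38 (.dbl 17 29 34)))))))) (.rp 26 (.thr 48 32 (.thr 24 36 (.thr 20 28 (.thr 40 60 (.thr 8 56 (.thr 25 59 (.thr 17 29 (.dbl 51 34 38)))))))) (.rp 15 (.thr 48 32 (.thr 24 36 (.thr 20 28 (.thr 40 60 (.thr 56 8 (.thr 41 43 (.dbl 26 11 31))))))) .nd))))))))) .nd)))))))))))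

theorem w405 : WinAt (4398048608257, 9223372036858970116) :=
  chF (K := []) kn c405 4398048608257 9223372036858970116 63
    [] (by decide +kernel) (by decide +kernel)

end Pool.Agent.TTT.B43
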