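import Pool.Agent.TTT.B43

/-!
Certified forced wins in positions of the 4 x 4 x 4 board.
-/

set_option autoImplicit false
set_option maxRecDepth 1000000
set_option linter.all false

namespace Pool.Agent.TTT.B43

/-- A certificate. -/
noncomputable def c426 : Ct := (.str 41 (.nv (.thr 16 31 (.thr 40 43 (.thr 56 11 (.thr 24 8 (.thr 12 36 (.thr 28 20 (.dbl 60 44 52))))))) (.nv (.thr 58 10 (.thr 61 1 (.thr 63 53 (.thr 60 62 (.dbl 56 11 52))))) (.rp 60 (.thr 56 11 (.thr 58 10 (.thr 57 59 (.thr 53 63 (.dbl 61 1 49))))) (.rp 56 (.thr 58 10 (.thr 53 63 (.thr 61 1 (.thr 49 57 (.thr 50 51 (.thr 54 62 (.thr 38 14 (.dbl 55 4 52)))))))) (.rp 52 (.str 7 (.nv (.thr 56 11 (.thr 58 10 (.thr 53 63 (.thr 57 59 (.dbl 61 1 49))))) (.nv (.thr 11 56 (.thr 3 15 (.thr 31 16 (.thr 43 40 (.thr 23 63 (.dbl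 27 19 59)))))) (.nv (.thr 31 16 (.thr 11 56 (.thr 15 3 (.thr 58 10 (.dbl 63 47 53))))) (.rp 63 (.thr 10 58 (.thr 11 56 (.thr 9 8 (.thr 3 15 (.thr 6 12 (.thr 4 5 (.thr 38 55 (.dbl 14 2 50)))))))) (.rp 56 (.thr 58 10 (.thr 43 40 (.thr 63 53 (.thr 3 23 (.thr 31 16 (.dbl 15 11 47)))))) (.rp 49 (.str 13 (.nv (.thr 11 56 (.thr 15 3 (.thr 31 16 (.thr 58 10 (.dbl 63 47 53))))) (.nv (.thr 1 61 (.thr 9 5 (.thr 10 58 (.dbl 11 8 56)))) (.rp 58 (.thr 31 16 (.thr 11 56 (.thr 3 15 (.thr 43 40 (.thr 23 63 (.dbl 27 19 59)))))) (.rp 56 (.thr 58 10 (.thr 63 53 (.thr 31 16 (.thr 15 47 (.thr 3 11 (.dbl 43 23 40)))))) (.rp 53 (.thr 10 58 (.thr 11 56 (.thr 9 8 (.dbl 1 5 61)))) (.rp 28 (.str 19 (.nv (.thr 1 61 (.thr 5 9 (.thr 4 6 (.thr 31 16 (.thr 23 27 (.dbl 55 38 39)))))) (.nv (.thr 11 56 (.thr 31 16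 (.thr 27 23 (.dbl 43 40 59)))) (.nv (.thr 1 61 (.thr 9 5 (.thr 10 58 (.dbl 11 8 56)))) .nd)))) (.rp 19 (.str 28 (.nv (.thr 11 56 (.thr 3 15 (.thr 43 40 (.thr 63 23 (.dbl 58 10 53))))) (.nv (.thr 31 16 (.thr 29 30 (.dbl 61 1 45))) (.rp 31 (.thr 11 56 (.thr 10 58 (.thr 9 8 (.dbl 1 5 61)))) .nd)))) (.rp 11 (.thr 61 1 (.thr 29 45 (.thr 58 10 (.thr 63 53 (.thr 31 16 (.thr 15 47 (.dbl 12 14 46))))))) (.rp 10 (.thr 1 61 (.thr 5 9 (.thr 11 56 (.thr 4 6 (.thr 38 55 (.thr 14 50 (.dbl 15 3 12))))))) (.rp 1 (.thr 58 10 (.thr 63 53 (.thr 31 16 (.thr 15 47 (.dbl 11 3 56))))) .nd))))))))))) (.rp 28 (.str 19 (.nv (.thr 11 56 (.thr 31 16 (.thr 27 23 (.dbl 43 40 59)))) (.nv (.thr 11 56 (.thr 3 15 (.thr 43 40 (.thr 63 23 (.dbl 58 10 53))))) (.nv (.thr 31 16 (.thr 23 27 (.thr 43 40 (.thr 63 3 (.dbl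 58 10 53))))) (.nv (.thr 11 56 (.thr 3 15 (.thr 18 33 (.dbl 16 17 31)))) (.rp 49 (.str 13 (.nv (.thr 1 61 (.thr 5 9 (.thr 4 6 (.thr 31 16 (.thr 23 27 (.dbl 55 38 39)))))) (.nv (.thr 11 56 (.thr 31 16 (.thr 27 23 (.dbl 43 40 59)))) (.nv (.thr 1 61 (.thr 9 5 (.thr 10 58 (.dbl 11 8 56)))) .nd)))) (.rp 13 (.str 49 (.nv (.thr 16 31 (.thr 17 18 (.dbl 1 33 61))) (.nv (.thr 51 50 (.thr 3 35 (.dbl 11 15 56))) .nd))) .nd))))))) (.rp 19 (.str 28 (.nv (.thr 11 56 (.thr 15 3 (.thr 31 16 (.thr 58 10 (.dbl 63 47 53))))) (.nv (.thr 56 11 (.thr 58 10 (.thr 53 63 (.thr 61 1 (.dbl 57 49 59))))) (.nv (.thr 16 31 (.thr 40 43 (.thr 56 11 (.dbl 24 8 20)))) (.rp 56 (.thr 43 40 (.thr 31 16 (.thr 58 10 (.thr 63 53 (.thr 3 23 (.dbl 15 11 47)))))) (.rp 49 (.str 13 (.nv (.thr 11 56 (.thr 3 15 (.thr 43 40 (.thr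 63 23 (.dbl 58 10 53))))) (.nv (.thr 31 16 (.thr 29 30 (.dbl 61 1 45))) (.rp 31 (.thr 11 56 (.thr 10 58 (.thr 9 8 (.dbl 1 5 61)))) .nd)))) (.rp 13 (.str 49 (.nv (.thr 16 31 (.thr 24 20 (.thr 40 43 (.dbl 56 8 11)))) (.nv (.thr 58 10 (.thr 53 63 (.dbl 61 1 57))) .nd))) (.rp 11 (.thr 16 31 (.thr 24 20 (.thr 58 10 (.thr 61 1 (.thr 63 53 (.thr 60 62 (.dbl 12 36 44))))))) .nd)))))))) (.rp 15 (.thr 1 61 (.thr 10 58 (.str 49 (.nv (.thr 11 56 (.thr 33 17 (.thr 3 18 (.thr 43 40 (.thr 51 50 (.thr 59 27 (.dbl 63 23 55))))))) (.nv (.thr 11 56 (.thr 9 8 (.thr 5 13 (.thr 4 6 (.thr 38 55 (.dbl 50 14 51)))))) (.nv (.thr 33 17 (.thr 18 3 (.thr 50 51 (.thr 34 2 (.dbl 38 14 46))))) (.rp 51 (.thr 11 56 (.thr 9 8 (.thr 5 13 (.thr 4 6 (.thr 38 55 (.thr 33 17 (.thr 34 46 (.dbl 35 32 44)))))))) (.rp 50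 (.thr 33 17 (.thr 3 18 (.thr 11 56 (.thr 9 8 (.thr 5 13 (.dbl 6 4 12)))))) (.rp 28 (.str 19 (.nv (.thr 33 17 (.thr 3 18 (.dbl 51 35 50))) (.nv (.thr 11 56 (.thr 31 16 (.thr 27 23 (.dbl 43 40 59)))) (.nv (.thr 17 33 (.dbl 16 18 31)) .nd)))) (.rp 19 (.str 28 (.nv (.thr 50 51 (.thr 38 14 (.thr 34 46 (.thr 18 2 (.dbl 33 3 17))))) (.nv (.thr 40 43 (.thr 56 11 (.thr 24 8 (.dbl 16 20 31)))) (.rp 27 (.thr 11 56 (.thr 9 8 (.thr 5 13 (.thr 4 6 (.thr 38 55 (.dbl 50 14 51)))))) (.rp 12 (.thr 56 11 (.thr 16 31 (.thr 24 20 (.dbl 40 8 43)))) .nd))))) .nd)))))))))) (.rp 13 (.str 49 (.nv (.thr 11 56 (.thr 15 3 (.thr 43 40 (.thr 51 50 (.dbl 27 39 59))))) (.nv (.thr 58 10 (.thr 53 63 (.dbl 61 1 57))) (.rp 28 (.str 19 (.nv (.thr 16 31 (.thr 17 18 (.dbl 1 33 61))) (.nv (.thr 51 50 (.thr 3 35 (.dbl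 11 15 56))) .nd))) (.rp 19 (.str 28 (.nv (.thr 16 31 (.thr 24 20 (.thr 40 43 (.dbl 56 8 11)))) (.nv (.thr 58 10 (.thr 53 63 (.dbl 61 1 57))) .nd))) (.rp 15 (.thr 61 1 (.thr 53 57 (.dbl 58 10 63))) (.rp 1 (.thr 58 10 (.thr 56 11 (.thr 57 59 (.dbl 53 61 63)))) .nd))))))) (.rp 11 (.thr 58 10 (.thr 43 40 (.thr 63 53 (.thr 23 3 (.thr 55 39 (.thr 38 4 (.thr 51 59 (.dbl 50 14 49)))))))) (.rp 10 (.thr 11 56 (.thr 43 40 (.thr 27 59 (.thr 31 16 (.thr 15 3 (.thr 39 51 (.dbl 23 19 55))))))) .nd))))))))))))) (.rp 49 (.str 13 (.nv (.thr 58 10 (.thr 61 1 (.thr 63 53 (.thr 60 62 (.dbl 56 11 52))))) (.nv (.thr 1 61 (.thr 9 5 (.thr 10 58 (.dbl 11 8 56)))) (.rp 61 (.thr 16 31 (.thr 56 11 (.thr 40 43 (.thr 24 8 (.thr 28 20 (.thr 12 36 (.dbl 60 44 52))))))) (.rp 58 (.thr 16 31 (.thr 56 11 (.thr 40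 43 (.thr 24 8 (.thr 28 20 (.thr 12 36 (.dbl 60 44 52))))))) (.rp 56 (.thr 61 1 (.thr 29 45 (.thr 58 10 (.thr 31 16 (.thr 63 53 (.thr 12 46 (.dbl 15 14 47))))))) (.rp 53 (.thr 10 58 (.thr 11 56 (.thr 9 8 (.dbl 1 5 61)))) (.rp 52 (.str 7 (.nv (.thr 11 56 (.thr 15 3 (.thr 31 16 (.thr 58 10 (.dbl 63 47 53))))) (.nv (.thr 1 61 (.thr 9 5 (.thr 10 58 (.dbl 11 8 56)))) (.rp 58 (.thr 31 16 (.thr 11 56 (.thr 3 15 (.thr 43 40 (.thr 23 63 (.dbl 27 19 59)))))) (.rp 56 (.thr 58 10 (.thr 63 53 (.thr 31 16 (.thr 15 47 (.thr 3 11 (.dbl 43 23 40)))))) (.rp 53 (.thr 10 58 (.thr 11 56 (.thr 9 8 (.dbl 1 5 61)))) (.rp 28 (.str 19 (.nv (.thr 1 61 (.thr 5 9 (.thr 4 6 (.thr 31 16 (.thr 23 27 (.dbl 55 38 39)))))) (.nv (.thr 11 56 (.thr 31 16 (.thr 27 23 (.dbl 43 40 59)))) (.nv (.thr 1 61 (.thr 9 5 (.thr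 10 58 (.dbl 11 8 56)))) .nd)))) (.rp 19 (.str 28 (.nv (.thr 11 56 (.thr 3 15 (.thr 43 40 (.thr 63 23 (.dbl 58 10 53))))) (.nv (.thr 31 16 (.thr 29 30 (.dbl 61 1 45))) (.rp 31 (.thr 11 56 (.thr 10 58 (.thr 9 8 (.dbl 1 5 61)))) .nd)))) (.rp 11 (.thr 61 1 (.thr 29 45 (.thr 58 10 (.thr 63 53 (.thr 31 16 (.thr 15 47 (.dbl 12 14 46))))))) (.rp 10 (.thr 1 61 (.thr 5 9 (.thr 11 56 (.thr 4 6 (.thr 38 55 (.thr 14 50 (.dbl 15 3 12))))))) (.rp 1 (.thr 58 10 (.thr 63 53 (.thr 31 16 (.thr 15 47 (.dbl 11 3 56))))) .nd))))))))))) (.rp 28 (.str 19 (.nv (.thr 31 16 (.thr 23 27 (.thr 43 40 (.thr 58 10 (.dbl 63 3 53))))) (.nv (.thr 31 16 (.thr 27 23 (.thr 43 40 (.dbl 11 56 59)))) (.nv (.thr 11 56 (.thr 1 61 (.thr 9 5 (.dbl 10 8 58)))) (.rp 52 (.str 7 (.nv (.thr 1 61 (.thr 5 9 (.thr 4 6 (.thr 31 16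 (.thr 23 27 (.dbl 55 38 39)))))) (.nv (.thr 11 56 (.thr 31 16 (.thr 27 23 (.dbl 43 40 59)))) (.nv (.thr 1 61 (.thr 9 5 (.thr 10 58 (.dbl 11 8 56)))) .nd)))) (.rp 7 (.str 52 (.nv (.dbl 56 11 60) (.rp 60 (.thr 1 61 (.thr 9 5 (.thr 10 58 (.dbl 11 8 56)))) (.rp 56 (.thr 58 10 (.thr 43 40 (.thr 31 16 (.thr 23 27 (.dbl 63 3 53))))) (.rp 11 (.thr 60 56 (.thr 61 1 (.thr 58 10 (.dbl 63 53 62)))) .nd))))) .nd)))))) (.rp 19 (.str 28 (.nv (.thr 16 31 (.thr 24 20 (.thr 40 43 (.dbl 56 8 11)))) (.nv (.thr 1 61 (.thr 9 5 (.thr 10 58 (.dbl 11 8 56)))) (.nv (.thr 31 16 (.thr 29 30 (.dbl 61 1 45))) (.rp 52 (.str 7 (.nv (.thr 11 56 (.thr 3 15 (.thr 43 40 (.thr 63 23 (.dbl 58 10 53))))) (.nv (.thr 31 16 (.thr 29 30 (.dbl 61 1 45))) (.rp 31 (.thr 11 56 (.thr 10 58 (.thr 9 8 (.dbl 1 5 61)))) .nd))))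 (.rp 7 (.str 52 (.nv (.thr 31 16 (.thr 29 30 (.dbl 61 1 45))) (.nv (.dbl 56 11 60) .nd))) .nd)))))) (.rp 11 (.thr 61 1 (.thr 29 45 (.thr 58 10 (.thr 31 16 (.thr 63 53 (.thr 12 46 (.dbl 15 14 47))))))) (.rp 10 (.thr 11 56 (.str 15 (.nv (.thr 31 16 (.thr 43 40 (.thr 47 63 (.thr 39 35 (.dbl 27 51 59))))) (.nv (.thr 12 14 (.thr 1 61 (.thr 9 5 (.dbl 3 6 7)))) (.rp 52 (.thr 7 3 (.thr 43 40 (.thr 27 59 (.thr 31 16 (.thr 47 63 (.dbl 39 35 51)))))) (.rp 28 (.str 19 (.nv (.thr 1 61 (.thr 9 5 (.thr 12 14 (.dbl 3 6 7)))) (.nv (.thr 31 16 (.thr 27 23 (.dbl 43 40 59))) (.rp 52 (.thr 7 3 (.thr 43 40 (.thr 27 59 (.dbl 31 16 23)))) (.rp 7 (.str 52 (.nv (.thr 12 14 (.thr 61 1 (.thr 29 45 (.thr 63 46 (.dbl 31 16 47))))) (.nv (.thr 31 16 (.thr 27 23 (.dbl 43 40 59))) (.rp 31 (.thr 12 14 (.thr 40 43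 (.thr 36 24 (.thr 44 32 (.thr 38 35 (.dbl 4 20 55)))))) (.rp 16 (.thr 43 40 (.thr 27 59 (.thr 23 31 (.thr 51 39 (.dbl 3 35 63))))) .nd))))) .nd))))) (.rp 19 (.str 28 (.nv (.thr 12 14 (.thr 36 24 (.thr 40 43 (.dbl 44 32 60)))) (.nv (.thr 31 16 (.thr 29 30 (.dbl 61 1 45))) (.rp 52 (.thr 7 3 (.thr 12 14 (.thr 16 31 (.dbl 24 20 36)))) (.rp 7 (.str 52 (.nv (.thr 12 14 (.thr 36 24 (.thr 40 43 (.dbl 44 32 60)))) (.nv (.thr 31 16 (.thr 29 30 (.dbl 61 1 45))) .nd))) .nd))))) (.rp 7 (.str 52 (.nv (.thr 12 14 (.thr 31 16 (.thr 63 47 (.thr 29 46 (.dbl 61 1 45))))) (.nv (.thr 14 12 (.thr 38 50 (.thr 46 34 (.thr 30 62 (.thr 61 1 (.dbl 45 29 60)))))) (.nv (.thr 31 16 (.thr 43 40 (.thr 47 63 (.thr 39 35 (.dbl 27 51 59))))) (.rp 28 (.str 19 (.nv (.thr 12 14 (.thr 61 1 (.thr 29 45 (.thr 63 46 (.dbl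 31 16 47))))) (.nv (.thr 31 16 (.thr 27 23 (.dbl 43 40 59))) (.rp 31 (.thr 12 14 (.thr 40 43 (.thr 36 24 (.thr 44 32 (.thr 38 35 (.dbl 4 20 55)))))) (.rp 16 (.thr 43 40 (.thr 27 59 (.thr 23 31 (.thr 51 39 (.dbl 3 35 63))))) .nd))))) (.rp 19 (.str 28 (.nv (.thr 12 14 (.thr 36 24 (.thr 40 43 (.dbl 44 32 60)))) (.nv (.thr 31 16 (.thr 29 30 (.dbl 61 1 45))) .nd))) .nd)))))) .nd)))))))) (.rp 7 (.str 52 (.nv (.dbl 56 11 60) (.rp 60 (.thr 1 61 (.thr 9 5 (.thr 10 58 (.dbl 11 8 56)))) (.rp 56 (.thr 61 1 (.thr 29 45 (.thr 58 10 (.thr 31 16 (.thr 63 53 (.thr 12 46 (.dbl 15 14 47))))))) (.rp 28 (.str 19 (.nv (.dbl 56 11 60) (.rp 60 (.thr 1 61 (.thr 9 5 (.thr 10 58 (.dbl 11 8 56)))) (.rp 56 (.thr 58 10 (.thr 43 40 (.thr 31 16 (.thr 23 27 (.dbl 63 3 53))))) (.rp 11 (.thr 60 56 (.thr 61 1 (.thr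 58 10 (.dbl 63 53 62)))) .nd))))) (.rp 19 (.str 28 (.nv (.thr 31 16 (.thr 29 30 (.dbl 61 1 45))) (.nv (.dbl 56 11 60) .nd))) (.rp 11 (.thr 60 56 (.thr 61 1 (.thr 58 10 (.dbl 63 53 62)))) .nd))))))) (.rp 5 (.thr 16 31 (.thr 56 11 (.thr 40 43 (.thr 24 8 (.thr 28 20 (.thr 12 36 (.dbl 60 44 52))))))) (.rp 1 (.thr 58 10 (.thr 31 16 (.thr 63 53 (.thr 15 47 (.thr 11 56 (.thr 43 40 (.dbl 3 7 23))))))) .nd))))))))))))))) (.rp 28 (.str 19 (.nv (.thr 31 16 (.thr 23 27 (.thr 43 40 (.thr 58 10 (.dbl 63 3 53))))) (.nv (.thr 56 11 (.thr 58 10 (.thr 61 1 (.thr 63 53 (.dbl 60 52 62))))) (.nv (.thr 11 56 (.thr 31 16 (.thr 27 23 (.dbl 43 40 59)))) (.rp 52 (.str 7 (.nv (.thr 11 56 (.thr 31 16 (.thr 27 23 (.dbl 43 40 59)))) (.nv (.thr 11 56 (.thr 3 15 (.thr 43 40 (.thr 63 23 (.dbl 58 10 53))))) (.nv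 (.thr 31 16 (.thr 23 27 (.thr 43 40 (.thr 63 3 (.dbl 58 10 53))))) (.nv (.thr 11 56 (.thr 3 15 (.thr 18 33 (.dbl 16 17 31)))) (.rp 49 (.str 13 (.nv (.thr 1 61 (.thr 5 9 (.thr 4 6 (.thr 31 16 (.thr 23 27 (.dbl 55 38 39)))))) (.nv (.thr 11 56 (.thr 31 16 (.thr 27 23 (.dbl 43 40 59)))) (.nv (.thr 1 61 (.thr 9 5 (.thr 10 58 (.dbl 11 8 56)))) .nd)))) (.rp 13 (.str 49 (.nv (.thr 16 31 (.thr 17 18 (.dbl 1 33 61))) (.nv (.thr 51 50 (.thr 3 35 (.dbl 11 15 56))) .nd))) .nd))))))) (.rp 49 (.str 13 (.nv (.thr 31 16 (.thr 23 27 (.thr 43 40 (.thr 58 10 (.dbl 63 3 53))))) (.nv (.thr 31 16 (.thr 27 23 (.thr 43 40 (.dbl 11 56 59)))) (.nv (.thr 11 56 (.thr 1 61 (.thr 9 5 (.dbl 10 8 58)))) (.rp 52 (.str 7 (.nv (.thr 1 61 (.thr 5 9 (.thr 4 6 (.thr 31 16 (.thr 23 27 (.dbl 55 38 39)))))) (.nv (.thr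 11 56 (.thr 31 16 (.thr 27 23 (.dbl 43 40 59)))) (.nv (.thr 1 61 (.thr 9 5 (.thr 10 58 (.dbl 11 8 56)))) .nd)))) (.rp 7 (.str 52 (.nv (.dbl 56 11 60) (.rp 60 (.thr 1 61 (.thr 9 5 (.thr 10 58 (.dbl 11 8 56)))) (.rp 56 (.thr 58 10 (.thr 43 40 (.thr 31 16 (.thr 23 27 (.dbl 63 3 53))))) (.rp 11 (.thr 60 56 (.thr 61 1 (.thr 58 10 (.dbl 63 53 62)))) .nd))))) .nd)))))) (.rp 13 (.str 49 (.nv (.thr 11 56 (.thr 31 16 (.thr 27 23 (.dbl 43 40 59)))) (.nv (.thr 58 10 (.thr 53 63 (.dbl 61 1 57))) (.rp 52 (.str 7 (.nv (.thr 16 31 (.thr 17 18 (.dbl 1 33 61))) (.nv (.thr 51 50 (.thr 3 35 (.dbl 11 15 56))) .nd))) (.rp 7 (.str 52 (.nv (.thr 1 61 (.thr 16 31 (.dbl 17 18 33))) (.nv (.dbl 56 11 60) .nd))) .nd))))) (.rp 7 (.str 52 (.nv (.dbl 56 11 60) (.rp 60 (.thr 11 56 (.thr 31 16 (.thr 27 23 (.dbl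 43 40 59)))) (.rp 56 (.thr 43 40 (.thr 58 10 (.thr 63 53 (.thr 23 3 (.dbl 31 16 27))))) (.rp 49 (.str 13 (.nv (.dbl 56 11 60) (.rp 60 (.thr 1 61 (.thr 9 5 (.thr 10 58 (.dbl 11 8 56)))) (.rp 56 (.thr 58 10 (.thr 43 40 (.thr 31 16 (.thr 23 27 (.dbl 63 3 53))))) (.rp 11 (.thr 60 56 (.thr 61 1 (.thr 58 10 (.dbl 63 53 62)))) .nd))))) (.rp 13 (.str 49 (.nv (.thr 1 61 (.thr 16 31 (.dbl 17 18 33))) (.nv (.dbl 56 11 60) .nd))) (.rp 11 (.thr 58 10 (.thr 63 53 (.thr 61 1 (.dbl 60 56 62)))) .nd))))))) .nd)))))))) (.rp 19 (.str 28 (.nv (.thr 58 10 (.thr 61 1 (.thr 63 53 (.thr 60 62 (.dbl 56 11 52))))) (.nv (.thr 40 43 (.thr 16 31 (.thr 24 20 (.dbl 56 8 11)))) (.rp 56 (.thr 61 1 (.thr 58 10 (.thr 16 31 (.thr 24 20 (.thr 12 36 (.thr 60 44 (.dbl 63 53 62))))))) (.rp 52 (.str 7 (.nv (.thr 11 56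 (.thr 15 3 (.thr 31 16 (.thr 58 10 (.dbl 63 47 53))))) (.nv (.thr 56 11 (.thr 58 10 (.thr 53 63 (.thr 61 1 (.dbl 57 49 59))))) (.nv (.thr 16 31 (.thr 40 43 (.thr 56 11 (.dbl 24 8 20)))) (.rp 56 (.thr 43 40 (.thr 31 16 (.thr 58 10 (.thr 63 53 (.thr 3 23 (.dbl 15 11 47)))))) (.rp 49 (.str 13 (.nv (.thr 11 56 (.thr 3 15 (.thr 43 40 (.thr 63 23 (.dbl 58 10 53))))) (.nv (.thr 31 16 (.thr 29 30 (.dbl 61 1 45))) (.rp 31 (.thr 11 56 (.thr 10 58 (.thr 9 8 (.dbl 1 5 61)))) .nd)))) (.rp 13 (.str 49 (.nv (.thr 16 31 (.thr 24 20 (.thr 40 43 (.dbl 56 8 11)))) (.nv (.thr 58 10 (.thr 53 63 (.dbl 61 1 57))) .nd))) (.rp 11 (.thr 16 31 (.thr 24 20 (.thr 58 10 (.thr 61 1 (.thr 63 53 (.thr 60 62 (.dbl 12 36 44))))))) .nd)))))))) (.rp 49 (.str 13 (.nv (.thr 16 31 (.thr 24 20 (.thr 40 43 (.dbl 56 8 11))))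 (.nv (.thr 1 61 (.thr 9 5 (.thr 10 58 (.dbl 11 8 56)))) (.nv (.thr 31 16 (.thr 29 30 (.dbl 61 1 45))) (.rp 52 (.str 7 (.nv (.thr 11 56 (.thr 3 15 (.thr 43 40 (.thr 63 23 (.dbl 58 10 53))))) (.nv (.thr 31 16 (.thr 29 30 (.dbl 61 1 45))) (.rp 31 (.thr 11 56 (.thr 10 58 (.thr 9 8 (.dbl 1 5 61)))) .nd)))) (.rp 7 (.str 52 (.nv (.thr 31 16 (.thr 29 30 (.dbl 61 1 45))) (.nv (.dbl 56 11 60) .nd))) .nd)))))) (.rp 13 (.str 49 (.nv (.thr 16 31 (.thr 24 20 (.thr 40 43 (.dbl 56 8 11)))) (.nv (.thr 58 10 (.thr 53 63 (.dbl 61 1 57))) (.rp 52 (.str 7 (.nv (.thr 16 31 (.thr 24 20 (.thr 40 43 (.dbl 56 8 11)))) (.nv (.thr 58 10 (.thr 53 63 (.dbl 61 1 57))) .nd))) (.rp 7 (.str 52 (.nv (.thr 58 10 (.thr 53 63 (.dbl 61 1 57))) (.nv (.dbl 56 11 60) .nd))) .nd))))) (.rp 11 (.thr 16 31 (.thr 24 20 (.thr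 12 36 (.thr 60 44 (.thr 40 43 (.dbl 56 8 52)))))) (.rp 7 (.str 52 (.nv (.dbl 56 11 60) (.rp 60 (.thr 16 31 (.thr 24 20 (.thr 40 43 (.dbl 56 8 11)))) (.rp 56 (.thr 61 1 (.thr 58 10 (.thr 53 63 (.thr 49 57 (.thr 54 55 (.dbl 50 51 62)))))) (.rp 49 (.str 13 (.nv (.thr 31 16 (.thr 29 30 (.dbl 61 1 45))) (.nv (.dbl 56 11 60) .nd))) (.rp 13 (.str 49 (.nv (.thr 58 10 (.thr 53 63 (.dbl 61 1 57))) (.nv (.dbl 56 11 60) .nd))) (.rp 11 (.thr 60 56 (.thr 12 44 (.thr 24 36 (.dbl 16 20 31)))) .nd))))))) .nd))))))))) (.rp 13 (.str 49 (.nv (.thr 56 11 (.thr 61 1 (.thr 57 53 (.dbl 58 10 59)))) (.nv (.thr 58 10 (.thr 53 63 (.dbl 61 1 57))) (.rp 61 (.thr 51 50 (.thr 56 11 (.thr 58 10 (.thr 59 57 (.dbl 63 53 55))))) (.rp 58 (.thr 51 50 (.thr 56 11 (.thr 61 1 (.thr 57 53 (.dbl 60 52 54))))) (.rp 57 (.thr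 50 51 (.thr 58 10 (.thr 63 53 (.thr 61 1 (.dbl 62 54 60))))) (.rp 53 (.thr 51 50 (.thr 56 11 (.thr 58 10 (.thr 57 59 (.dbl 60 52 54))))) (.rp 52 (.str 7 (.nv (.thr 11 56 (.thr 15 3 (.thr 43 40 (.thr 51 50 (.dbl 27 39 59))))) (.nv (.thr 58 10 (.thr 53 63 (.dbl 61 1 57))) (.rp 28 (.str 19 (.nv (.thr 16 31 (.thr 17 18 (.dbl 1 33 61))) (.nv (.thr 51 50 (.thr 3 35 (.dbl 11 15 56))) .nd))) (.rp 19 (.str 28 (.nv (.thr 16 31 (.thr 24 20 (.thr 40 43 (.dbl 56 8 11)))) (.nv (.thr 58 10 (.thr 53 63 (.dbl 61 1 57))) .nd))) (.rp 15 (.thr 61 1 (.thr 53 57 (.dbl 58 10 63))) (.rp 1 (.thr 58 10 (.thr 56 11 (.thr 57 59 (.dbl 53 61 63)))) .nd))))))) (.rp 28 (.str 19 (.nv (.thr 11 56 (.thr 31 16 (.thr 27 23 (.dbl 43 40 59)))) (.nv (.thr 58 10 (.thr 53 63 (.dbl 61 1 57))) (.rp 52 (.str 7 (.nv (.thr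 16 31 (.thr 17 18 (.dbl 1 33 61))) (.nv (.thr 51 50 (.thr 3 35 (.dbl 11 15 56))) .nd))) (.rp 7 (.str 52 (.nv (.thr 1 61 (.thr 16 31 (.dbl 17 18 33))) (.nv (.dbl 56 11 60) .nd))) .nd))))) (.rp 19 (.str 28 (.nv (.thr 16 31 (.thr 24 20 (.thr 40 43 (.dbl 56 8 11)))) (.nv (.thr 58 10 (.thr 53 63 (.dbl 61 1 57))) (.rp 52 (.str 7 (.nv (.thr 16 31 (.thr 24 20 (.thr 40 43 (.dbl 56 8 11)))) (.nv (.thr 58 10 (.thr 53 63 (.dbl 61 1 57))) .nd))) (.rp 7 (.str 52 (.nv (.thr 58 10 (.thr 53 63 (.dbl 61 1 57))) (.nv (.dbl 56 11 60) .nd))) .nd))))) (.rp 10 (.thr 51 50 (.thr 56 11 (.thr 61 1 (.thr 57 53 (.dbl 60 52 54))))) (.rp 7 (.str 52 (.nv (.thr 58 10 (.thr 53 63 (.dbl 61 1 57))) (.nv (.dbl 56 11 60) (.rp 28 (.str 19 (.nv (.thr 1 61 (.thr 16 31 (.dbl 17 18 33))) (.nv (.dbl 56 11 60) .nd))) (.rp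 19 (.str 28 (.nv (.thr 58 10 (.thr 53 63 (.dbl 61 1 57))) (.nv (.dbl 56 11 60) .nd))) .nd))))) (.rp 5 (.thr 51 50 (.thr 43 40 (.thr 11 56 (.thr 59 27 (.thr 63 55 (.dbl 58 10 53)))))) (.rp 1 (.thr 56 11 (.thr 58 10 (.thr 57 59 (.dbl 53 61 63)))) .nd)))))))))))))) (.rp 11 (.thr 58 10 (.thr 53 63 (.thr 61 1 (.thr 49 57 (.thr 50 51 (.thr 54 62 (.thr 38 14 (.dbl 55 4 52)))))))) (.rp 10 (.thr 11 56 (.str 15 (.nv (.thr 31 16 (.thr 43 40 (.thr 27 59 (.thr 39 51 (.dbl 47 35 63))))) (.nv (.thr 7 3 (.thr 31 16 (.thr 43 40 (.thr 27 59 (.thr 39 51 (.dbl 23 19 55)))))) (.nv (.thr 43 40 (.thr 31 16 (.thr 63 47 (.dbl 3 7 23)))) (.rp 63 (.thr 43 40 (.thr 27 59 (.thr 31 16 (.thr 19 23 (.thr 51 39 (.dbl 3 7 35)))))) (.rp 60 (.thr 40 43 (.str 12 (.nv (.thr 36 24 (.thr 44 32 (.thr 38 35 (.dbl 14 13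 50)))) (.nv (.thr 13 14 (.thr 1 61 (.thr 9 5 (.dbl 3 6 7)))) (.rp 52 (.thr 7 3 (.thr 36 24 (.thr 44 32 (.thr 38 35 (.dbl 14 13 50))))) (.rp 28 (.str 19 (.nv (.thr 16 31 (.thr 18 17 (.dbl 3 7 33))) (.nv (.thr 13 14 (.thr 1 61 (.thr 9 5 (.dbl 3 6 7)))) (.rp 52 (.thr 7 3 (.thr 36 24 (.thr 44 32 (.thr 38 35 (.dbl 14 13 50))))) (.rp 13 (.str 49 (.nv (.thr 1 61 (.thr 16 31 (.dbl 17 18 33))) (.nv (.thr 51 50 (.dbl 3 7 35)) (.rp 52 (.thr 7 3 (.thr 51 50 (.thr 31 16 (.dbl 27 23 39)))) (.rp 7 (.str 52 (.nv (.thr 50 51 (.thr 38 14 (.thr 4 55 (.dbl 36 20 24)))) (.nv (.thr 16 31 (.thr 17 18 (.dbl 1 33 61))) (.rp 17 (.thr 31 16 (.thr 27 23 (.dbl 51 39 50))) .nd)))) .nd))))) (.rp 7 (.str 52 (.nv (.thr 36 24 (.thr 20 4 (.thr 44 32 (.thr 38 35 (.dbl 14 13 50))))) (.nv (.thr 13 14 (.thr 1 61 (.thr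 16 31 (.thr 18 17 (.thr 3 33 (.dbl 9 5 6)))))) (.nv (.thr 16 31 (.thr 36 24 (.thr 4 20 (.thr 44 32 (.dbl 38 35 55))))) (.rp 13 (.str 49 (.nv (.thr 50 51 (.thr 38 14 (.thr 4 55 (.dbl 36 20 24)))) (.nv (.thr 16 31 (.thr 17 18 (.dbl 1 33 61))) (.rp 17 (.thr 31 16 (.thr 27 23 (.dbl 51 39 50))) .nd)))) .nd))))) (.rp 3 (.thr 36 24 (.thr 44 32 (.thr 38 35 (.dbl 14 13 50)))) .nd))))))) (.rp 19 (.str 28 (.nv (.thr 13 14 (.thr 1 61 (.thr 9 5 (.dbl 3 6 7)))) (.nv (.thr 16 31 (.dbl 24 20 36)) (.rp 52 (.thr 7 3 (.thr 16 31 (.dbl 24 20 36))) (.rp 13 (.str 49 (.nv (.thr 1 61 (.thr 33 17 (.dbl 3 7 18))) (.nv (.thr 16 31 (.dbl 24 20 36)) (.rp 52 (.thr 7 3 (.thr 16 31 (.dbl 24 20 36))) (.rp 16 (.thr 50 51 (.thr 36 24 (.thr 44 32 (.dbl 38 14 35)))) (.rp 7 (.str 52 (.nv (.thr 36 24 (.thr 4 20 (.thr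 38 55 (.dbl 44 32 35)))) (.nv (.thr 31 16 (.thr 29 30 (.dbl 63 46 47))) (.nv (.thr 24 36 (.dbl 16 20 31)) .nd)))) .nd)))))) (.rp 7 (.str 52 (.nv (.thr 36 24 (.thr 4 20 (.thr 38 55 (.dbl 14 13 50)))) (.nv (.thr 13 14 (.thr 31 16 (.thr 29 30 (.dbl 61 1 45)))) (.nv (.thr 24 36 (.dbl 16 20 31)) (.rp 13 (.str 49 (.nv (.thr 36 24 (.thr 4 20 (.thr 38 55 (.dbl 44 32 35)))) (.nv (.thr 31 16 (.thr 29 30 (.dbl 63 46 47))) (.nv (.thr 24 36 (.dbl 16 20 31)) .nd)))) .nd))))) .nd)))))) (.rp 14 (.thr 31 16 (.thr 63 47 (.thr 46 29 (.thr 36 24 (.thr 44 32 (.dbl 38 34 35)))))) (.rp 13 (.str 49 (.nv (.thr 31 16 (.thr 63 47 (.thr 53 58 (.dbl 61 1 57)))) (.nv (.thr 36 24 (.thr 44 32 (.thr 35 38 (.thr 51 50 (.dbl 3 7 19))))) (.rp 52 (.thr 7 3 (.thr 50 51 (.thr 36 24 (.thr 44 32 (.dbl 38 14 35))))) (.rp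 35 (.thr 1 61 (.thr 33 17 (.dbl 3 7 18))) (.rp 28 (.str 19 (.nv (.thr 1 61 (.thr 16 31 (.dbl 17 18 33))) (.nv (.thr 51 50 (.dbl 3 7 35)) (.rp 52 (.thr 7 3 (.thr 51 50 (.thr 31 16 (.dbl 27 23 39)))) (.rp 7 (.str 52 (.nv (.thr 50 51 (.thr 38 14 (.thr 4 55 (.dbl 36 20 24)))) (.nv (.thr 16 31 (.thr 17 18 (.dbl 1 33 61))) (.rp 17 (.thr 31 16 (.thr 27 23 (.dbl 51 39 50))) .nd)))) .nd))))) (.rp 19 (.str 28 (.nv (.thr 1 61 (.thr 33 17 (.dbl 3 7 18))) (.nv (.thr 16 31 (.dbl 24 20 36)) (.rp 52 (.thr 7 3 (.thr 16 31 (.dbl 24 20 36))) (.rp 16 (.thr 50 51 (.thr 36 24 (.thr 44 32 (.dbl 38 14 35)))) (.rp 7 (.str 52 (.nv (.thr 36 24 (.thr 4 20 (.thr 38 55 (.dbl 44 32 35)))) (.nv (.thr 31 16 (.thr 29 30 (.dbl 63 46 47))) (.nv (.thr 24 36 (.dbl 16 20 31)) .nd)))) .nd)))))) (.rp 7 (.str 52 (.nv (.thr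 31 16 (.thr 61 1 (.thr 53 57 (.dbl 63 47 58)))) (.nv (.thr 36 24 (.thr 4 20 (.thr 44 32 (.dbl 38 35 55)))) (.rp 28 (.str 19 (.nv (.thr 50 51 (.thr 38 14 (.thr 4 55 (.dbl 36 20 24)))) (.nv (.thr 16 31 (.thr 17 18 (.dbl 1 33 61))) (.rp 17 (.thr 31 16 (.thr 27 23 (.dbl 51 39 50))) .nd)))) (.rp 19 (.str 28 (.nv (.thr 36 24 (.thr 4 20 (.thr 38 55 (.dbl 44 32 35)))) (.nv (.thr 31 16 (.thr 29 30 (.dbl 63 46 47))) (.nv (.thr 24 36 (.dbl 16 20 31)) .nd)))) (.rp 16 (.thr 36 24 (.thr 50 51 (.thr 38 14 (.dbl 4 20 55)))) .nd)))))) .nd)))))))) (.rp 7 (.str 52 (.nv (.thr 13 14 (.thr 31 16 (.thr 61 1 (.thr 29 45 (.dbl 63 46 47))))) (.nv (.thr 36 24 (.thr 44 32 (.thr 4 20 (.dbl 38 35 55)))) (.rp 28 (.str 19 (.nv (.thr 36 24 (.thr 20 4 (.thr 44 32 (.thr 38 35 (.dbl 14 13 50))))) (.nv (.thr 13 14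 (.thr 1 61 (.thr 16 31 (.thr 18 17 (.thr 3 33 (.dbl 9 5 6)))))) (.nv (.thr 16 31 (.thr 36 24 (.thr 4 20 (.thr 44 32 (.dbl 38 35 55))))) (.rp 13 (.str 49 (.nv (.thr 50 51 (.thr 38 14 (.thr 4 55 (.dbl 36 20 24)))) (.nv (.thr 16 31 (.thr 17 18 (.dbl 1 33 61))) (.rp 17 (.thr 31 16 (.thr 27 23 (.dbl 51 39 50))) .nd)))) .nd))))) (.rp 19 (.str 28 (.nv (.thr 36 24 (.thr 4 20 (.thr 38 55 (.dbl 14 13 50)))) (.nv (.thr 13 14 (.thr 31 16 (.thr 29 30 (.dbl 61 1 45)))) (.nv (.thr 24 36 (.dbl 16 20 31)) (.rp 13 (.str 49 (.nv (.thr 36 24 (.thr 4 20 (.thr 38 55 (.dbl 44 32 35)))) (.nv (.thr 31 16 (.thr 29 30 (.dbl 63 46 47))) (.nv (.thr 24 36 (.dbl 16 20 31)) .nd)))) .nd))))) (.rp 16 (.thr 36 24 (.thr 44 32 (.thr 38 35 (.dbl 14 13 50)))) (.rp 13 (.str 49 (.nv (.thr 31 16 (.thr 61 1 (.thr 53 57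 (.dbl 63 47 58)))) (.nv (.thr 36 24 (.thr 4 20 (.thr 44 32 (.dbl 38 35 55)))) (.rp 28 (.str 19 (.nv (.thr 50 51 (.thr 38 14 (.thr 4 55 (.dbl 36 20 24)))) (.nv (.thr 16 31 (.thr 17 18 (.dbl 1 33 61))) (.rp 17 (.thr 31 16 (.thr 27 23 (.dbl 51 39 50))) .nd)))) (.rp 19 (.str 28 (.nv (.thr 36 24 (.thr 4 20 (.thr 38 55 (.dbl 44 32 35)))) (.nv (.thr 31 16 (.thr 29 30 (.dbl 63 46 47))) (.nv (.thr 24 36 (.dbl 16 20 31)) .nd)))) (.rp 16 (.thr 36 24 (.thr 50 51 (.thr 38 14 (.dbl 4 20 55)))) .nd)))))) .nd))))))) .nd)))))))))) (.rp 49 (.str 13 (.nv (.thr 31 16 (.thr 43 40 (.thr 47 63 (.thr 39 35 (.dbl 27 51 59))))) (.nv (.thr 12 14 (.thr 1 61 (.thr 9 5 (.dbl 3 6 7)))) (.rp 52 (.thr 7 3 (.thr 43 40 (.thr 27 59 (.thr 31 16 (.thr 47 63 (.dbl 39 35 51)))))) (.rp 28 (.str 19 (.nv (.thr 1 61 (.thr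 9 5 (.thr 12 14 (.dbl 3 6 7)))) (.nv (.thr 31 16 (.thr 27 23 (.dbl 43 40 59))) (.rp 52 (.thr 7 3 (.thr 43 40 (.thr 27 59 (.dbl 31 16 23)))) (.rp 7 (.str 52 (.nv (.thr 12 14 (.thr 61 1 (.thr 29 45 (.thr 63 46 (.dbl 31 16 47))))) (.nv (.thr 31 16 (.thr 27 23 (.dbl 43 40 59))) (.rp 31 (.thr 12 14 (.thr 40 43 (.thr 36 24 (.thr 44 32 (.thr 38 35 (.dbl 4 20 55)))))) (.rp 16 (.thr 43 40 (.thr 27 59 (.thr 23 31 (.thr 51 39 (.dbl 3 35 63))))) .nd))))) .nd))))) (.rp 19 (.str 28 (.nv (.thr 12 14 (.thr 36 24 (.thr 40 43 (.dbl 44 32 60)))) (.nv (.thr 31 16 (.thr 29 30 (.dbl 61 1 45))) (.rp 52 (.thr 7 3 (.thr 12 14 (.thr 16 31 (.dbl 24 20 36)))) (.rp 7 (.str 52 (.nv (.thr 12 14 (.thr 36 24 (.thr 40 43 (.dbl 44 32 60)))) (.nv (.thr 31 16 (.thr 29 30 (.dbl 61 1 45))) .nd))) .nd))))) (.rp 7 (.str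 52 (.nv (.thr 12 14 (.thr 31 16 (.thr 63 47 (.thr 29 46 (.dbl 61 1 45))))) (.nv (.thr 14 12 (.thr 38 50 (.thr 46 34 (.thr 30 62 (.thr 61 1 (.dbl 45 29 60)))))) (.nv (.thr 31 16 (.thr 43 40 (.thr 47 63 (.thr 39 35 (.dbl 27 51 59))))) (.rp 28 (.str 19 (.nv (.thr 12 14 (.thr 61 1 (.thr 29 45 (.thr 63 46 (.dbl 31 16 47))))) (.nv (.thr 31 16 (.thr 27 23 (.dbl 43 40 59))) (.rp 31 (.thr 12 14 (.thr 40 43 (.thr 36 24 (.thr 44 32 (.thr 38 35 (.dbl 4 20 55)))))) (.rp 16 (.thr 43 40 (.thr 27 59 (.thr 23 31 (.thr 51 39 (.dbl 3 35 63))))) .nd))))) (.rp 19 (.str 28 (.nv (.thr 12 14 (.thr 36 24 (.thr 40 43 (.dbl 44 32 60)))) (.nv (.thr 31 16 (.thr 29 30 (.dbl 61 1 45))) .nd))) .nd)))))) .nd))))))) (.rp 43 (.thr 61 1 (.thr 31 16 (.thr 63 47 (.thr 62 60 (.thr 58 53 (.thr 50 54 (.thr 38 14 (.thr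 55 4 (.dbl 51 49 59))))))))) (.rp 40 (.thr 61 1 (.thr 31 16 (.thr 63 47 (.thr 60 62 (.thr 45 30 (.thr 13 29 (.thr 14 12 (.thr 50 38 (.thr 51 49 (.thr 59 55 (.dbl 27 39 43))))))))))) (.rp 31 (.thr 43 40 (.thr 27 59 (.thr 1 61 (.thr 51 39 (.thr 49 50 (.thr 33 17 (.dbl 3 7 18))))))) (.rp 28 (.str 19 (.nv (.thr 43 40 (.thr 27 59 (.thr 51 39 (.dbl 3 7 35)))) (.nv (.thr 16 31 (.thr 18 17 (.dbl 3 7 33))) (.nv (.thr 31 16 (.thr 27 23 (.dbl 43 40 59))) (.rp 52 (.thr 7 3 (.thr 43 40 (.thr 27 59 (.dbl 31 16 23)))) (.rp 49 (.str 13 (.nv (.thr 1 61 (.thr 9 5 (.thr 12 14 (.dbl 3 6 7)))) (.nv (.thr 31 16 (.thr 27 23 (.dbl 43 40 59))) (.rp 52 (.thr 7 3 (.thr 43 40 (.thr 27 59 (.dbl 31 16 23)))) (.rp 7 (.str 52 (.nv (.thr 12 14 (.thr 61 1 (.thr 29 45 (.thr 63 46 (.dbl 31 16 47))))) (.nv (.thr 31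 16 (.thr 27 23 (.dbl 43 40 59))) (.rp 31 (.thr 12 14 (.thr 40 43 (.thr 36 24 (.thr 44 32 (.thr 38 35 (.dbl 4 20 55)))))) (.rp 16 (.thr 43 40 (.thr 27 59 (.thr 23 31 (.thr 51 39 (.dbl 3 35 63))))) .nd))))) .nd))))) (.rp 13 (.str 49 (.nv (.thr 1 61 (.thr 16 31 (.dbl 17 18 33))) (.nv (.thr 51 50 (.dbl 3 7 35)) (.rp 52 (.thr 7 3 (.thr 43 40 (.thr 27 59 (.dbl 51 39 50)))) (.rp 7 (.str 52 (.nv (.thr 43 40 (.thr 27 59 (.dbl 51 39 50))) (.nv (.thr 16 31 (.thr 17 18 (.dbl 1 33 61))) (.nv (.thr 51 50 (.thr 31 16 (.dbl 27 23 39))) .nd)))) .nd))))) (.rp 7 (.str 52 (.nv (.thr 31 16 (.thr 23 27 (.thr 63 47 (.dbl 43 3 40)))) (.nv (.thr 43 40 (.thr 31 16 (.dbl 27 23 59))) (.rp 49 (.str 13 (.nv (.thr 12 14 (.thr 61 1 (.thr 29 45 (.thr 63 46 (.dbl 31 16 47))))) (.nv (.thr 31 16 (.thr 27 23 (.dbl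 43 40 59))) (.rp 31 (.thr 12 14 (.thr 40 43 (.thr 36 24 (.thr 44 32 (.thr 38 35 (.dbl 4 20 55)))))) (.rp 16 (.thr 43 40 (.thr 27 59 (.thr 23 31 (.thr 51 39 (.dbl 3 35 63))))) .nd))))) (.rp 43 (.thr 31 16 (.thr 27 23 (.thr 63 47 (.thr 53 58 (.thr 55 54 (.dbl 51 39 59)))))) (.rp 40 (.thr 31 16 (.thr 27 23 (.thr 43 59 (.thr 39 51 (.dbl 47 35 63))))) (.rp 31 (.thr 43 40 (.thr 27 59 (.thr 51 39 (.thr 35 3 (.thr 38 44 (.dbl 50 14 49)))))) (.rp 27 (.thr 43 40 (.thr 31 16 (.thr 47 63 (.thr 35 39 (.thr 51 3 (.thr 38 44 (.dbl 50 14 49))))))) (.rp 24 (.thr 16 31 (.thr 18 17 (.thr 3 33 (.thr 51 35 (.thr 27 39 (.dbl 43 40 59)))))) (.rp 23 (.thr 43 40 (.thr 27 59 (.thr 39 51 (.thr 31 16 (.dbl 47 35 63))))) (.rp 20 (.thr 16 31 (.thr 18 17 (.thr 3 33 (.thr 51 35 (.thr 27 39 (.dbl 43 40 59))))))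 (.rp 16 (.thr 43 40 (.thr 27 59 (.thr 51 39 (.thr 3 35 (.dbl 23 31 63))))) (.rp 13 (.str 49 (.nv (.thr 43 40 (.thr 27 59 (.dbl 51 39 50))) (.nv (.thr 16 31 (.thr 17 18 (.dbl 1 33 61))) (.nv (.thr 51 50 (.thr 31 16 (.dbl 27 23 39))) .nd)))) .nd))))))))))))) .nd)))))))) (.rp 24 (.thr 61 1 (.thr 31 16 (.thr 63 47 (.thr 62 60 (.thr 58 53 (.thr 50 54 (.thr 38 14 (.thr 55 4 (.dbl 51 49 59))))))))) (.rp 20 (.thr 61 1 (.thr 31 16 (.thr 63 47 (.thr 43 40 (.thr 60 62 (.dbl 3 7 23)))))) (.rp 19 (.str 28 (.nv (.thr 31 16 (.thr 30 29 (.thr 60 45 (.thr 63 47 (.dbl 61 1 62))))) (.nv (.thr 43 40 (.thr 31 16 (.thr 63 47 (.dbl 3 7 23)))) (.rp 63 (.thr 40 43 (.thr 16 31 (.thr 24 20 (.thr 12 36 (.thr 44 60 (.thr 38 35 (.dbl 14 13 50))))))) (.rp 60 (.thr 61 1 (.thr 31 16 (.thr 63 47 (.thr 29 30 (.thr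 13 45 (.dbl 12 14 46)))))) (.rp 52 (.thr 7 3 (.thr 43 40 (.thr 27 59 (.thr 31 16 (.thr 47 63 (.dbl 39 35 51)))))) (.rp 49 (.str 13 (.nv (.thr 12 14 (.thr 36 24 (.thr 40 43 (.dbl 44 32 60)))) (.nv (.thr 31 16 (.thr 29 30 (.dbl 61 1 45))) (.rp 52 (.thr 7 3 (.thr 12 14 (.thr 16 31 (.dbl 24 20 36)))) (.rp 7 (.str 52 (.nv (.thr 12 14 (.thr 36 24 (.thr 40 43 (.dbl 44 32 60)))) (.nv (.thr 31 16 (.thr 29 30 (.dbl 61 1 45))) .nd))) .nd))))) (.rp 47 (.thr 43 40 (.thr 27 59 (.thr 1 61 (.thr 51 39 (.thr 49 50 (.thr 33 17 (.dbl 3 7 18))))))) (.rp 31 (.thr 43 40 (.thr 27 59 (.thr 1 61 (.thr 51 39 (.thr 49 50 (.thr 33 17 (.dbl 3 7 18))))))) (.rp 18 (.thr 40 43 (.thr 16 31 (.thr 24 20 (.thr 12 36 (.thr 44 60 (.thr 38 35 (.dbl 14 13 50))))))) (.rp 17 (.thr 40 43 (.thr 16 31 (.thr 24 20 (.thr 12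 36 (.thr 44 60 (.thr 38 35 (.dbl 14 13 50))))))) (.rp 16 (.thr 43 40 (.thr 27 59 (.thr 7 3 (.thr 39 51 (.thr 35 47 (.thr 55 23 (.dbl 38 4 44))))))) (.rp 13 (.str 49 (.nv (.thr 31 16 (.thr 61 1 (.thr 63 47 (.dbl 53 57 58)))) (.nv (.thr 51 50 (.thr 27 39 (.dbl 43 40 59))) (.rp 52 (.thr 7 3 (.thr 43 40 (.thr 27 59 (.dbl 51 39 50)))) (.rp 7 (.str 52 (.nv (.thr 31 16 (.thr 61 1 (.thr 63 47 (.dbl 53 57 58)))) (.nv (.thr 43 40 (.thr 51 50 (.dbl 27 39 59))) .nd))) .nd))))) (.rp 7 (.str 52 (.nv (.thr 16 31 (.thr 20 24 (.thr 4 36 (.thr 38 55 (.thr 14 50 (.thr 44 35 (.dbl 12 13 60))))))) (.nv (.thr 61 1 (.thr 31 16 (.thr 30 29 (.thr 60 45 (.dbl 63 47 62))))) (.rp 60 (.thr 31 16 (.thr 29 30 (.thr 63 47 (.thr 12 46 (.thr 61 1 (.dbl 13 14 45)))))) (.rp 49 (.str 13 (.nv (.thr 12 14 (.thr 36 24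 (.thr 40 43 (.dbl 44 32 60)))) (.nv (.thr 31 16 (.thr 29 30 (.dbl 61 1 45))) .nd))) (.rp 31 (.thr 43 40 (.thr 27 59 (.thr 61 1 (.thr 51 39 (.thr 49 50 (.thr 57 53 (.thr 60 54 (.thr 12 44 (.thr 45 30 (.dbl 13 14 29)))))))))) (.rp 16 (.thr 43 40 (.thr 27 59 (.thr 61 1 (.thr 51 39 (.thr 49 50 (.thr 57 53 (.thr 60 54 (.thr 12 44 (.thr 45 30 (.dbl 13 14 29)))))))))) (.rp 13 (.str 49 (.nv (.thr 31 16 (.thr 61 1 (.thr 63 47 (.dbl 53 57 58)))) (.nv (.thr 43 40 (.thr 51 50 (.dbl 27 39 59))) .nd))) (.rp 3 (.thr 43 40 (.thr 27 59 (.thr 31 16 (.thr 47 63 (.dbl 39 35 51))))) .nd))))))))) .nd)))))))))))))) (.rp 16 (.thr 43 40 (.thr 27 59 (.thr 39 51 (.thr 47 35 (.thr 63 31 (.dbl 3 7 23)))))) (.rp 13 (.str 49 (.nv (.thr 31 16 (.thr 61 1 (.thr 63 47 (.dbl 53 57 58)))) (.nv (.thr 51 50 (.thr 27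 39 (.dbl 43 40 59))) (.rp 52 (.thr 7 3 (.thr 43 40 (.thr 27 59 (.dbl 51 39 50)))) (.rp 28 (.str 19 (.nv (.thr 1 61 (.thr 16 31 (.dbl 17 18 33))) (.nv (.thr 51 50 (.dbl 3 7 35)) (.rp 52 (.thr 7 3 (.thr 43 40 (.thr 27 59 (.dbl 51 39 50)))) (.rp 7 (.str 52 (.nv (.thr 43 40 (.thr 27 59 (.dbl 51 39 50))) (.nv (.thr 16 31 (.thr 17 18 (.dbl 1 33 61))) (.nv (.thr 51 50 (.thr 31 16 (.dbl 27 23 39))) .nd)))) .nd))))) (.rp 19 (.str 28 (.nv (.thr 31 16 (.thr 61 1 (.thr 63 47 (.dbl 53 57 58)))) (.nv (.thr 51 50 (.thr 27 39 (.dbl 43 40 59))) (.rp 52 (.thr 7 3 (.thr 43 40 (.thr 27 59 (.dbl 51 39 50)))) (.rp 7 (.str 52 (.nv (.thr 31 16 (.thr 61 1 (.thr 63 47 (.dbl 53 57 58)))) (.nv (.thr 43 40 (.thr 51 50 (.dbl 27 39 59))) .nd))) .nd))))) (.rp 7 (.str 52 (.nv (.thr 43 40 (.thr 51 50 (.dbl 27 39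 59))) (.nv (.thr 31 16 (.thr 63 47 (.thr 53 58 (.dbl 61 1 57)))) (.rp 59 (.thr 31 16 (.thr 63 47 (.thr 61 1 (.dbl 53 57 58)))) (.rp 28 (.str 19 (.nv (.thr 43 40 (.thr 27 59 (.dbl 51 39 50))) (.nv (.thr 16 31 (.thr 17 18 (.dbl 1 33 61))) (.nv (.thr 51 50 (.thr 31 16 (.dbl 27 23 39))) .nd)))) (.rp 19 (.str 28 (.nv (.thr 31 16 (.thr 61 1 (.thr 63 47 (.dbl 53 57 58)))) (.nv (.thr 43 40 (.thr 51 50 (.dbl 27 39 59))) .nd))) .nd)))))) .nd))))))) (.rp 8 (.thr 61 1 (.thr 31 16 (.thr 63 47 (.thr 62 60 (.thr 58 53 (.thr 50 54 (.thr 38 14 (.thr 46 34 (.thr 12 29 (.thr 55 4 (.dbl 51 49 59))))))))))) (.rp 7 (.str 52 (.nv (.thr 31 16 (.thr 63 47 (.thr 53 58 (.thr 55 54 (.thr 59 51 (.dbl 43 27 40)))))) (.nv (.thr 31 16 (.thr 43 40 (.thr 47 63 (.thr 39 35 (.dbl 27 51 59))))) (.rp 63 (.thr 43 40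 (.thr 27 59 (.thr 31 16 (.thr 1 61 (.thr 51 39 (.thr 49 50 (.thr 33 17 (.thr 3 18 (.dbl 19 23 35))))))))) (.rp 60 (.thr 31 16 (.thr 63 47 (.thr 53 58 (.thr 55 54 (.thr 38 4 (.thr 50 14 (.dbl 51 49 59))))))) (.rp 59 (.thr 31 16 (.thr 63 47 (.thr 61 1 (.thr 60 62 (.thr 45 30 (.thr 13 29 (.thr 53 58 (.thr 57 49 (.dbl 54 51 55))))))))) (.rp 51 (.thr 43 40 (.thr 27 59 (.thr 31 16 (.thr 63 47 (.dbl 23 3 19))))) (.rp 49 (.str 13 (.nv (.thr 12 14 (.thr 31 16 (.thr 63 47 (.thr 29 46 (.dbl 61 1 45))))) (.nv (.thr 14 12 (.thr 38 50 (.thr 46 34 (.thr 30 62 (.thr 61 1 (.dbl 45 29 60)))))) (.nv (.thr 31 16 (.thr 43 40 (.thr 47 63 (.thr 39 35 (.dbl 27 51 59))))) (.rp 28 (.str 19 (.nv (.thr 12 14 (.thr 61 1 (.thr 29 45 (.thr 63 46 (.dbl 31 16 47))))) (.nv (.thr 31 16 (.thr 27 23 (.dbl 43 40 59)))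 (.rp 31 (.thr 12 14 (.thr 40 43 (.thr 36 24 (.thr 44 32 (.thr 38 35 (.dbl 4 20 55)))))) (.rp 16 (.thr 43 40 (.thr 27 59 (.thr 23 31 (.thr 51 39 (.dbl 3 35 63))))) .nd))))) (.rp 19 (.str 28 (.nv (.thr 12 14 (.thr 36 24 (.thr 40 43 (.dbl 44 32 60)))) (.nv (.thr 31 16 (.thr 29 30 (.dbl 61 1 45))) .nd))) .nd)))))) (.rp 47 (.thr 43 40 (.thr 27 59 (.thr 31 16 (.thr 1 61 (.thr 51 39 (.thr 49 50 (.thr 33 17 (.thr 3 18 (.dbl 19 23 35))))))))) (.rp 43 (.thr 31 16 (.thr 63 47 (.thr 53 58 (.thr 54 55 (.thr 61 1 (.thr 60 62 (.dbl 57 49 51))))))) (.rp 40 (.thr 31 16 (.thr 63 47 (.thr 53 58 (.thr 54 55 (.thr 61 1 (.thr 60 62 (.dbl 57 49 51))))))) (.rp 31 (.thr 43 40 (.thr 27 59 (.thr 61 1 (.thr 51 39 (.thr 49 50 (.thr 53 57 (.thr 58 63 (.thr 55 54 (.thr 38 4 (.thr 46 34 (.thr 44 35 (.thr 45 47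 (.thr 13 29 (.thr 12 14 (.dbl 60 28 30))))))))))))))) (.rp 28 (.str 19 (.nv (.thr 31 16 (.thr 23 27 (.thr 63 47 (.dbl 43 3 40)))) (.nv (.thr 43 40 (.thr 31 16 (.dbl 27 23 59))) (.rp 49 (.str 13 (.nv (.thr 12 14 (.thr 61 1 (.thr 29 45 (.thr 63 46 (.dbl 31 16 47))))) (.nv (.thr 31 16 (.thr 27 23 (.dbl 43 40 59))) (.rp 31 (.thr 12 14 (.thr 40 43 (.thr 36 24 (.thr 44 32 (.thr 38 35 (.dbl 4 20 55)))))) (.rp 16 (.thr 43 40 (.thr 27 59 (.thr 23 31 (.thr 51 39 (.dbl 3 35 63))))) .nd))))) (.rp 43 (.thr 31 16 (.thr 27 23 (.thr 63 47 (.thr 53 58 (.thr 55 54 (.dbl 51 39 59)))))) (.rp 40 (.thr 31 16 (.thr 27 23 (.thr 43 59 (.thr 39 51 (.dbl 47 35 63))))) (.rp 31 (.thr 43 40 (.thr 27 59 (.thr 51 39 (.thr 35 3 (.thr 38 44 (.dbl 50 14 49)))))) (.rp 27 (.thr 43 40 (.thr 31 16 (.thr 47 63 (.thr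 35 39 (.thr 51 3 (.thr 38 44 (.dbl 50 14 49))))))) (.rp 24 (.thr 16 31 (.thr 18 17 (.thr 3 33 (.thr 51 35 (.thr 27 39 (.dbl 43 40 59)))))) (.rp 23 (.thr 43 40 (.thr 27 59 (.thr 39 51 (.thr 31 16 (.dbl 47 35 63))))) (.rp 20 (.thr 16 31 (.thr 18 17 (.thr 3 33 (.thr 51 35 (.thr 27 39 (.dbl 43 40 59)))))) (.rp 16 (.thr 43 40 (.thr 27 59 (.thr 51 39 (.thr 3 35 (.dbl 23 31 63))))) (.rp 13 (.str 49 (.nv (.thr 43 40 (.thr 27 59 (.dbl 51 39 50))) (.nv (.thr 16 31 (.thr 17 18 (.dbl 1 33 61))) (.nv (.thr 51 50 (.thr 31 16 (.dbl 27 23 39))) .nd)))) .nd))))))))))))) (.rp 27 (.thr 31 16 (.thr 63 47 (.thr 53 58 (.thr 54 55 (.thr 61 1 (.thr 60 62 (.dbl 57 49 51))))))) (.rp 19 (.str 28 (.nv (.thr 16 31 (.thr 20 24 (.thr 4 36 (.thr 38 55 (.thr 14 50 (.thr 44 35 (.dbl 12 13 60))))))) (.nv (.thr 61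 1 (.thr 31 16 (.thr 30 29 (.thr 60 45 (.dbl 63 47 62))))) (.rp 60 (.thr 31 16 (.thr 29 30 (.thr 63 47 (.thr 12 46 (.thr 61 1 (.dbl 13 14 45)))))) (.rp 49 (.str 13 (.nv (.thr 12 14 (.thr 36 24 (.thr 40 43 (.dbl 44 32 60)))) (.nv (.thr 31 16 (.thr 29 30 (.dbl 61 1 45))) .nd))) (.rp 31 (.thr 43 40 (.thr 27 59 (.thr 61 1 (.thr 51 39 (.thr 49 50 (.thr 57 53 (.thr 60 54 (.thr 12 44 (.thr 45 30 (.dbl 13 14 29)))))))))) (.rp 16 (.thr 43 40 (.thr 27 59 (.thr 61 1 (.thr 51 39 (.thr 49 50 (.thr 57 53 (.thr 60 54 (.thr 12 44 (.thr 45 30 (.dbl 13 14 29)))))))))) (.rp 13 (.str 49 (.nv (.thr 31 16 (.thr 61 1 (.thr 63 47 (.dbl 53 57 58)))) (.nv (.thr 43 40 (.thr 51 50 (.dbl 27 39 59))) .nd))) (.rp 3 (.thr 43 40 (.thr 27 59 (.thr 31 16 (.thr 47 63 (.dbl 39 35 51))))) .nd))))))))) (.rp 16 (.thr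 43 40 (.thr 27 59 (.thr 1 61 (.thr 51 39 (.thr 49 50 (.thr 33 17 (.thr 3 18 (.thr 19 35 (.dbl 23 31 63))))))))) (.rp 13 (.str 49 (.nv (.thr 43 40 (.thr 51 50 (.dbl 27 39 59))) (.nv (.thr 31 16 (.thr 63 47 (.thr 53 58 (.dbl 61 1 57)))) (.rp 59 (.thr 31 16 (.thr 63 47 (.thr 61 1 (.dbl 53 57 58)))) (.rp 28 (.str 19 (.nv (.thr 43 40 (.thr 27 59 (.dbl 51 39 50))) (.nv (.thr 16 31 (.thr 17 18 (.dbl 1 33 61))) (.nv (.thr 51 50 (.thr 31 16 (.dbl 27 23 39))) .nd)))) (.rp 19 (.str 28 (.nv (.thr 31 16 (.thr 61 1 (.thr 63 47 (.dbl 53 57 58)))) (.nv (.thr 43 40 (.thr 51 50 (.dbl 27 39 59))) .nd))) .nd)))))) .nd))))))))))))))))) .nd))))))))))))))))))) (.rp 7 (.str 52 (.nv (.dbl 56 11 60) (.rp 60 (.thr 56 11 (.thr 58 10 (.thr 57 59 (.thr 53 63 (.dbl 61 1 49))))) (.rp 56 (.thr 58 10 (.thr 53 63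 (.thr 54 55 (.thr 61 1 (.thr 49 57 (.dbl 50 51 62)))))) (.rp 49 (.str 13 (.nv (.dbl 56 11 60) (.rp 60 (.thr 1 61 (.thr 9 5 (.thr 10 58 (.dbl 11 8 56)))) (.rp 56 (.thr 61 1 (.thr 29 45 (.thr 58 10 (.thr 31 16 (.thr 63 53 (.thr 12 46 (.dbl 15 14 47))))))) (.rp 28 (.str 19 (.nv (.dbl 56 11 60) (.rp 60 (.thr 1 61 (.thr 9 5 (.thr 10 58 (.dbl 11 8 56)))) (.rp 56 (.thr 58 10 (.thr 43 40 (.thr 31 16 (.thr 23 27 (.dbl 63 3 53))))) (.rp 11 (.thr 60 56 (.thr 61 1 (.thr 58 10 (.dbl 63 53 62)))) .nd))))) (.rp 19 (.str 28 (.nv (.thr 31 16 (.thr 29 30 (.dbl 61 1 45))) (.nv (.dbl 56 11 60) .nd))) (.rp 11 (.thr 60 56 (.thr 61 1 (.thr 58 10 (.dbl 63 53 62)))) .nd))))))) (.rp 28 (.str 19 (.nv (.dbl 56 11 60) (.rp 60 (.thr 11 56 (.thr 31 16 (.thr 27 23 (.dbl 43 40 59)))) (.rp 56 (.thr 43 40 (.thr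 58 10 (.thr 63 53 (.thr 23 3 (.dbl 31 16 27))))) (.rp 49 (.str 13 (.nv (.dbl 56 11 60) (.rp 60 (.thr 1 61 (.thr 9 5 (.thr 10 58 (.dbl 11 8 56)))) (.rp 56 (.thr 58 10 (.thr 43 40 (.thr 31 16 (.thr 23 27 (.dbl 63 3 53))))) (.rp 11 (.thr 60 56 (.thr 61 1 (.thr 58 10 (.dbl 63 53 62)))) .nd))))) (.rp 13 (.str 49 (.nv (.thr 1 61 (.thr 16 31 (.dbl 17 18 33))) (.nv (.dbl 56 11 60) .nd))) (.rp 11 (.thr 58 10 (.thr 63 53 (.thr 61 1 (.dbl 60 56 62)))) .nd))))))) (.rp 19 (.str 28 (.nv (.dbl 56 11 60) (.rp 60 (.thr 16 31 (.thr 24 20 (.thr 40 43 (.dbl 56 8 11)))) (.rp 56 (.thr 61 1 (.thr 58 10 (.thr 53 63 (.thr 49 57 (.thr 54 55 (.dbl 50 51 62)))))) (.rp 49 (.str 13 (.nv (.thr 31 16 (.thr 29 30 (.dbl 61 1 45))) (.nv (.dbl 56 11 60) .nd))) (.rp 13 (.str 49 (.nv (.thr 58 10 (.thr 53 63 (.dbl 61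 1 57))) (.nv (.dbl 56 11 60) .nd))) (.rp 11 (.thr 60 56 (.thr 12 44 (.thr 24 36 (.dbl 16 20 31)))) .nd))))))) (.rp 13 (.str 49 (.nv (.thr 58 10 (.thr 53 63 (.dbl 61 1 57))) (.nv (.dbl 56 11 60) (.rp 28 (.str 19 (.nv (.thr 1 61 (.thr 16 31 (.dbl 17 18 33))) (.nv (.dbl 56 11 60) .nd))) (.rp 19 (.str 28 (.nv (.thr 58 10 (.thr 53 63 (.dbl 61 1 57))) (.nv (.dbl 56 11 60) .nd))) .nd))))) (.rp 11 (.thr 58 10 (.thr 63 53 (.thr 61 1 (.dbl 60 56 62)))) .nd))))))))) .nd)))))))))))))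

theorem w426 : WinAt (285873092427776, 137476702209) :=
  chF (K := []) kn c426 285873092427776 137476702209 37
    [306708480, 563087425937408, 4503737070518400] (by decide +kernel) (by decide +kernel)

/-- A certificate. -/
noncomputable def c427 : Ct := (.str 52 (.nv (.thr 16 31 (.thr 32 48 (.thr 40 43 (.thr 20 60 (.dbl 36 4 44))))) (.nv (.thr 40 43 (.thr 60 20 (.dbl 56 11 48))) (.nv (.thr 16 31 (.thr 48 32 (.dbl 56 11 60))) (.rp 60 (.thr 11 56 (.thr 10 58 (.thr 9 8 (.thr 5 15 (.dbl 1 13 61))))) (.rp 49 (.str 13 (.nv (.thr 1 61 (.thr 5 9 (.dbl 10 15 58))) (.nv (.thr 40 43 (.thr 60 20 (.dbl 56 11 48))) (.rp 60 (.thr 10 58 (.thr 5 15 (.dbl 1 9 61))) (.rp 28 (.str 19 (.nv (.thr 10 58 (.thr 11 56 (.thr 9 8 (.dbl 1 5 61)))) (.nv (.thr 1 61 (.thr 5 9 (.dbl 10 15 58))) (.nv (.thr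 16 31 (.thr 48 32 (.dbl 56 11 60))) .nd)))) (.rp 19 (.str 28 (.nv (.thr 40 43 (.thr 56 11 (.dbl 60 20 48))) (.nv (.thr 61 1 (.thr 29 45 (.dbl 31 16 30))) .nd))) .nd)))))) (.rp 48 (.thr 40 43 (.thr 56 11 (.thr 24 8 (.thr 20 60 (.dbl 16 28 31))))) (.rp 28 (.str 19 (.nv (.thr 40 43 (.thr 56 11 (.dbl 60 20 48))) (.nv (.thr 1 61 (.thr 3 2 (.thr 51 35 (.thr 17 34 (.dbl 16 18 31))))) (.nv (.thr 16 31 (.thr 48 32 (.dbl 56 11 60))) (.rp 60 (.thr 43 40 (.thr 11 56 (.thr 27 59 (.dbl 31 16 23)))) (.rp 49 (.str 13 (.nv (.thr 10 58 (.thr 11 56 (.thr 9 8 (.dbl 1 5 61)))) (.nv (.thr 1 61 (.thr 5 9 (.dbl 10 15 58))) (.nv (.thr 16 31 (.thr 48 32 (.dbl 56 11 60))) .nd)))) (.rp 13 (.str 49 (.nv (.thr 11 56 (.thr 31 16 (.thr 27 23 (.dbl 43 40 59)))) (.nv (.thr 1 61 (.thr 3 2 (.thr 17 33 (.dbl 51 34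 35)))) (.nv (.thr 16 31 (.thr 48 32 (.dbl 56 11 60))) .nd)))) .nd))))))) (.rp 19 (.str 28 (.nv (.thr 16 31 (.thr 20 24 (.dbl 40 43 60))) (.nv (.thr 10 58 (.thr 5 15 (.thr 11 56 (.thr 9 8 (.dbl 1 13 61))))) (.nv (.thr 40 43 (.thr 60 20 (.dbl 56 11 48))) (.rp 49 (.str 13 (.nv (.thr 40 43 (.thr 56 11 (.dbl 60 20 48))) (.nv (.thr 61 1 (.thr 29 45 (.dbl 31 16 30))) .nd))) (.rp 40 (.thr 16 31 (.thr 48 32 (.dbl 56 11 60))) (.rp 13 (.str 49 (.nv (.thr 16 31 (.thr 20 24 (.dbl 40 43 60))) (.nv (.thr 58 10 (.thr 61 1 (.thr 57 53 (.dbl 56 11 59)))) (.nv (.thr 40 43 (.thr 60 20 (.dbl 56 11 48))) .nd)))) .nd))))))) (.rp 13 (.str 49 (.nv (.thr 1 61 (.thr 3 2 (.thr 16 31 (.thr 33 17 (.dbl 48 18 32))))) (.nv (.thr 58 10 (.thr 61 1 (.thr 57 53 (.dbl 56 11 59)))) (.nv (.thr 16 31 (.thr 48 32 (.dbl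 56 11 60))) (.rp 28 (.str 19 (.nv (.thr 11 56 (.thr 31 16 (.thr 27 23 (.dbl 43 40 59)))) (.nv (.thr 1 61 (.thr 3 2 (.thr 17 33 (.dbl 51 34 35)))) (.nv (.thr 16 31 (.thr 48 32 (.dbl 56 11 60))) .nd)))) (.rp 19 (.str 28 (.nv (.thr 16 31 (.thr 20 24 (.dbl 40 43 60))) (.nv (.thr 58 10 (.thr 61 1 (.thr 57 53 (.dbl 56 11 59)))) (.nv (.thr 40 43 (.thr 60 20 (.dbl 56 11 48))) .nd)))) .nd)))))) .nd))))))))))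

theorem w427 : WinAt (6597138972673, 9223372174331478144) :=
  chF (K := []) kn c427 6597138972673 9223372174331478144 7
    [306708480, 563087425937408] (by decide +kernel) (by decide +kernel)

/-- A certificate. -/
noncomputable def c428 : Ct := (.str 49 (.nv (.thr 1 61 (.thr 3 2 (.thr 16 31 (.thr 33 17 (.dbl 48 18 32))))) (.nv (.thr 16 31 (.thr 48 32 (.thr 40 43 (.thr 60 20 (.dbl 56 11 52))))) (.nv (.thr 56 11 (.thr 61 1 (.thr 57 53 (.dbl 58 10 59)))) (.rp 52 (.str 7 (.nv (.thr 10 58 (.thr 11 56 (.dbl 15 3 5))) (.nv (.thr 1 61 (.thr 2 3 (.thr 10 58 (.thr 5 15 (.dbl 6 4 14))))) (.nv (.thr 56 11 (.thr 58 10 (.thr 57 59 (.dbl 61 1 53)))) (.nv (.thr 1 61 (.thr 3 2 (.dbl 11 15 56))) (.rp 28 (.str 19 (.nv (.thr 11 56 (.thr 31 16 (.thr 27 23 (.dbl 43 40 59)))) (.nv (.thr 16 31 (.thr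 17 18 (.thr 48 32 (.dbl 51 34 50)))) (.nv (.thr 1 61 (.thr 3 2 (.dbl 11 15 56))) .nd)))) (.rp 19 (.str 28 (.nv (.thr 40 43 (.thr 56 11 (.thr 24 8 (.dbl 16 20 31)))) (.nv (.thr 16 31 (.thr 20 24 (.dbl 40 43 60))) (.nv (.thr 1 61 (.thr 3 2 (.dbl 11 15 56))) .nd)))) .nd))))))) (.rp 28 (.str 19 (.nv (.thr 1 61 (.thr 3 2 (.thr 17 33 (.dbl 51 34 35)))) (.nv (.thr 11 56 (.thr 31 16 (.thr 27 23 (.dbl 43 40 59)))) (.nv (.thr 1 61 (.thr 17 33 (.dbl 16 18 31))) (.rp 52 (.str 7 (.nv (.thr 11 56 (.thr 31 16 (.thr 27 23 (.dbl 43 40 59)))) (.nv (.thr 16 31 (.thr 17 18 (.thr 48 32 (.dbl 51 34 50)))) (.nv (.thr 1 61 (.thr 3 2 (.dbl 11 15 56))) .nd)))) (.rp 7 (.str 52 (.nv (.thr 11 56 (.thr 31 16 (.thr 27 23 (.dbl 43 40 59)))) (.nv (.thr 1 61 (.thr 3 2 (.thr 17 33 (.dbl 51 34 35)))) (.nv (.thr 16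 31 (.thr 48 32 (.dbl 56 11 60))) .nd)))) .nd)))))) (.rp 19 (.str 28 (.nv (.thr 56 11 (.thr 58 10 (.thr 61 1 (.dbl 57 53 59)))) (.nv (.thr 16 31 (.thr 20 24 (.dbl 40 43 60))) (.rp 52 (.str 7 (.nv (.thr 40 43 (.thr 56 11 (.thr 24 8 (.dbl 16 20 31)))) (.nv (.thr 16 31 (.thr 20 24 (.dbl 40 43 60))) (.nv (.thr 1 61 (.thr 3 2 (.dbl 11 15 56))) .nd)))) (.rp 7 (.str 52 (.nv (.thr 16 31 (.thr 20 24 (.dbl 40 43 60))) (.nv (.thr 58 10 (.thr 61 1 (.thr 57 53 (.dbl 56 11 59)))) (.nv (.thr 40 43 (.thr 60 20 (.dbl 56 11 48))) .nd)))) .nd))))) (.rp 7 (.str 52 (.nv (.thr 1 61 (.thr 3 2 (.thr 16 31 (.thr 33 17 (.dbl 48 18 32))))) (.nv (.thr 58 10 (.thr 61 1 (.thr 57 53 (.dbl 56 11 59)))) (.nv (.thr 16 31 (.thr 48 32 (.dbl 56 11 60))) (.rp 28 (.str 19 (.nv (.thr 11 56 (.thr 31 16 (.thr 27 23 (.dbl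 43 40 59)))) (.nv (.thr 1 61 (.thr 3 2 (.thr 17 33 (.dbl 51 34 35)))) (.nv (.thr 16 31 (.thr 48 32 (.dbl 56 11 60))) .nd)))) (.rp 19 (.str 28 (.nv (.thr 16 31 (.thr 20 24 (.dbl 40 43 60))) (.nv (.thr 58 10 (.thr 61 1 (.thr 57 53 (.dbl 56 11 59)))) (.nv (.thr 40 43 (.thr 60 20 (.dbl 56 11 48))) .nd)))) .nd)))))) .nd))))))))

theorem w428 : WinAt (6597138972673, 9223372174331486208) :=
  chF (K := []) kn c428 6597138972673 9223372174331486208 13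
    [306708480, 4503737070518400] (by decide +kernel) (by decide +kernel)

/-- A certificate. -/
noncomputable def c429 : Ct := (.str 19 (.nv (.thr 1 61 (.thr 3 2 (.thr 16 31 (.thr 17 18 (.dbl 51 34 35))))) (.nv (.thr 1 61 (.thr 3 2 (.thr 10 58 (.thr 15 5 (.dbl 11 7 56))))) (.nv (.thr 31 16 (.thr 27 23 (.thr 43 40 (.dbl 11 56 59)))) (.rp 52 (.str 7 (.nv (.thr 1 61 (.thr 2 3 (.thr 10 58 (.thr 5 15 (.dbl 6 4 14))))) (.nv (.thr 31 16 (.thr 27 23 (.thr 43 40 (.dbl 11 56 59)))) (.nv (.thr 1 61 (.thr 3 2 (.dbl 11 15 56))) (.rp 49 (.str 13 (.nv (.thr 1 61 (.thr 5 9 (.dbl 10 15 58))) (.nv (.thr 31 16 (.thr 27 23 (.thr 43 40 (.dbl 11 56 59)))) (.nv (.thr 10 58 (.thr 15 5 (.dbl 11 3 56))) .nd)))) (.rp 13 (.str 49 (.nv (.thr 11 56 (.thr 31 16 (.thr 27 23 (.dbl 43 40 59)))) (.nv (.thr 16 31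 (.thr 17 18 (.thr 48 32 (.dbl 51 34 50)))) (.nv (.thr 1 61 (.thr 3 2 (.dbl 11 15 56))) .nd)))) .nd)))))) (.rp 49 (.str 13 (.nv (.thr 11 56 (.thr 31 16 (.thr 27 23 (.dbl 43 40 59)))) (.nv (.thr 1 61 (.thr 5 9 (.dbl 10 15 58))) (.rp 52 (.str 7 (.nv (.thr 1 61 (.thr 5 9 (.dbl 10 15 58))) (.nv (.thr 31 16 (.thr 27 23 (.thr 43 40 (.dbl 11 56 59)))) (.nv (.thr 10 58 (.thr 15 5 (.dbl 11 3 56))) .nd)))) (.rp 7 (.str 52 (.nv (.thr 10 58 (.thr 11 56 (.thr 9 8 (.dbl 1 5 61)))) (.nv (.thr 1 61 (.thr 5 9 (.dbl 10 15 58))) (.nv (.thr 16 31 (.thr 48 32 (.dbl 56 11 60))) .nd)))) .nd))))) (.rp 13 (.str 49 (.nv (.thr 1 61 (.thr 3 2 (.thr 17 33 (.dbl 51 34 35)))) (.nv (.thr 11 56 (.thr 31 16 (.thr 27 23 (.dbl 43 40 59)))) (.nv (.thr 1 61 (.thr 17 33 (.dbl 16 18 31))) (.rp 52 (.str 7 (.nv (.thr 11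 56 (.thr 31 16 (.thr 27 23 (.dbl 43 40 59)))) (.nv (.thr 16 31 (.thr 17 18 (.thr 48 32 (.dbl 51 34 50)))) (.nv (.thr 1 61 (.thr 3 2 (.dbl 11 15 56))) .nd)))) (.rp 7 (.str 52 (.nv (.thr 11 56 (.thr 31 16 (.thr 27 23 (.dbl 43 40 59)))) (.nv (.thr 1 61 (.thr 3 2 (.thr 17 33 (.dbl 51 34 35)))) (.nv (.thr 16 31 (.thr 48 32 (.dbl 56 11 60))) .nd)))) .nd)))))) (.rp 7 (.str 52 (.nv (.thr 40 43 (.thr 56 11 (.dbl 60 20 48))) (.nv (.thr 1 61 (.thr 3 2 (.thr 51 35 (.thr 17 34 (.dbl 16 18 31))))) (.nv (.thr 16 31 (.thr 48 32 (.dbl 56 11 60))) (.rp 60 (.thr 43 40 (.thr 11 56 (.thr 27 59 (.dbl 31 16 23)))) (.rp 49 (.str 13 (.nv (.thr 10 58 (.thr 11 56 (.thr 9 8 (.dbl 1 5 61)))) (.nv (.thr 1 61 (.thr 5 9 (.dbl 10 15 58))) (.nv (.thr 16 31 (.thr 48 32 (.dbl 56 11 60))) .nd)))) (.rp 13 (.str 49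 (.nv (.thr 11 56 (.thr 31 16 (.thr 27 23 (.dbl 43 40 59)))) (.nv (.thr 1 61 (.thr 3 2 (.thr 17 33 (.dbl 51 34 35)))) (.nv (.thr 16 31 (.thr 48 32 (.dbl 56 11 60))) .nd)))) .nd))))))) .nd))))))))

theorem w429 : WinAt (6597138972673, 9223372174599913472) :=
  chF (K := []) kn c429 6597138972673 9223372174599913472 28
    [563087425937408, 4503737070518400] (by decide +kernel) (by decide +kernel)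

/-- A certificate. -/
noncomputable def c430 : Ct := (.str 13 (.nv (.thr 10 58 (.thr 5 15 (.thr 9 1 (.dbl 11 8 56)))) (.nv (.thr 1 61 (.thr 5 9 (.dbl 10 15 58))) (.rp 58 (.thr 16 31 (.thr 40 43 (.thr 20 60 (.thr 56 11 (.dbl 24 8 28))))) (.rp 53 (.thr 16 31 (.thr 40 43 (.thr 20 60 (.thr 56 11 (.dbl 24 8 28))))) (.rp 52 (.str 7 (.nv (.thr 1 61 (.thr 5 9 (.dbl 10 15 58))) (.nv (.thr 11 56 (.thr 3 15 (.dbl 1 2 61))) (.nv (.thr 10 58 (.thr 15 5 (.dbl 11 3 56))) (.rp 28 (.str 19 (.nv (.thr 1 61 (.thr 5 9 (.dbl 10 15 58))) (.nv (.thr 31 16 (.thr 27 23 (.thr 43 40 (.dbl 11 56 59)))) (.nv (.thr 10 58 (.thr 15 5 (.dbl 11 3 56))) .nd)))) (.rp 19 (.str 28 (.nv (.thr 10 58 (.thr 11 56 (.dbl 15 3 5))) (.nv (.thr 31 16 (.thr 29 30 (.dbl 61 1 45))) .nd))) (.rp 15 (.thr 1 61 (.thr 9 5 (.thr 11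 56 (.dbl 10 8 58)))) .nd))))))) (.rp 28 (.str 19 (.nv (.thr 11 56 (.thr 31 16 (.thr 27 23 (.dbl 43 40 59)))) (.nv (.thr 1 61 (.thr 5 9 (.dbl 10 15 58))) (.rp 52 (.str 7 (.nv (.thr 1 61 (.thr 5 9 (.dbl 10 15 58))) (.nv (.thr 31 16 (.thr 27 23 (.thr 43 40 (.dbl 11 56 59)))) (.nv (.thr 10 58 (.thr 15 5 (.dbl 11 3 56))) .nd)))) (.rp 7 (.str 52 (.nv (.thr 10 58 (.thr 11 56 (.thr 9 8 (.dbl 1 5 61)))) (.nv (.thr 1 61 (.thr 5 9 (.dbl 10 15 58))) (.nv (.thr 16 31 (.thr 48 32 (.dbl 56 11 60))) .nd)))) .nd))))) (.rp 19 (.str 28 (.nv (.thr 10 58 (.thr 11 56 (.thr 9 8 (.dbl 5 1 15)))) (.nv (.thr 31 16 (.thr 29 30 (.dbl 61 1 45))) (.rp 52 (.str 7 (.nv (.thr 10 58 (.thr 11 56 (.dbl 15 3 5))) (.nv (.thr 31 16 (.thr 29 30 (.dbl 61 1 45))) .nd))) (.rp 7 (.str 52 (.nv (.thr 40 43 (.thr 56 11 (.dbl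 60 20 48))) (.nv (.thr 61 1 (.thr 29 45 (.dbl 31 16 30))) .nd))) (.rp 1 (.thr 16 31 (.thr 20 24 (.dbl 40 43 60))) .nd)))))) (.rp 15 (.thr 1 61 (.thr 9 5 (.thr 11 56 (.dbl 10 8 58)))) (.rp 10 (.thr 16 31 (.thr 40 43 (.thr 20 60 (.thr 56 11 (.dbl 24 8 28))))) (.rp 9 (.thr 16 31 (.thr 40 43 (.thr 20 60 (.thr 56 11 (.dbl 24 8 28))))) (.rp 7 (.str 52 (.nv (.thr 1 61 (.thr 5 9 (.dbl 10 15 58))) (.nv (.thr 40 43 (.thr 60 20 (.dbl 56 11 48))) (.rp 60 (.thr 10 58 (.thr 5 15 (.dbl 1 9 61))) (.rp 28 (.str 19 (.nv (.thr 10 58 (.thr 11 56 (.thr 9 8 (.dbl 1 5 61)))) (.nv (.thr 1 61 (.thr 5 9 (.dbl 10 15 58))) (.nv (.thr 16 31 (.thr 48 32 (.dbl 56 11 60))) .nd)))) (.rp 19 (.str 28 (.nv (.thr 40 43 (.thr 56 11 (.dbl 60 20 48))) (.nv (.thr 61 1 (.thr 29 45 (.dbl 31 16 30))) .nd))) .nd)))))) (.rp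 5 (.thr 16 31 (.thr 40 43 (.thr 20 60 (.thr 56 11 (.dbl 24 8 28))))) (.rp 1 (.thr 16 31 (.thr 40 43 (.thr 20 60 (.thr 56 11 (.dbl 24 8 28))))) .nd))))))))))))))

theorem w430 : WinAt (6597138972673, 9223935124284899328) :=
  chF (K := []) kn c430 6597138972673 9223935124284899328 49
    [306708480, 4503737070518400] (by decide +kernel) (by decide +kernel)

/-- A certificate. -/
noncomputable def c431 : Ct := (.str 7 (.nv (.thr 1 61 (.thr 2 3 (.thr 10 58 (.thr 5 15 (.dbl 6 4 14))))) (.nv (.thr 10 58 (.thr 15 5 (.dbl 11 3 56))) (.nv (.thr 1 61 (.thr 3 2 (.dbl 11 15 56))) (.rp 49 (.str 13 (.nv (.thr 1 61 (.thr 5 9 (.dbl 10 15 58))) (.nv (.thr 11 56 (.thr 3 15 (.dbl 1 2 61))) (.nv (.thr 10 58 (.thr 15 5 (.dbl 11 3 56))) (.rp 28 (.str 19 (.nv (.thr 1 61 (.thr 5 9 (.dbl 10 15 58))) (.nv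 (.thr 31 16 (.thr 27 23 (.thr 43 40 (.dbl 11 56 59)))) (.nv (.thr 10 58 (.thr 15 5 (.dbl 11 3 56))) .nd)))) (.rp 19 (.str 28 (.nv (.thr 10 58 (.thr 11 56 (.dbl 15 3 5))) (.nv (.thr 31 16 (.thr 29 30 (.dbl 61 1 45))) .nd))) (.rp 15 (.thr 1 61 (.thr 9 5 (.thr 11 56 (.dbl 10 8 58)))) .nd))))))) (.rp 28 (.str 19 (.nv (.thr 1 61 (.thr 2 3 (.thr 10 58 (.thr 5 15 (.dbl 6 4 14))))) (.nv (.thr 31 16 (.thr 27 23 (.thr 43 40 (.dbl 11 56 59)))) (.nv (.thr 1 61 (.thr 3 2 (.dbl 11 15 56))) (.rp 49 (.str 13 (.nv (.thr 1 61 (.thr 5 9 (.dbl 10 15 58))) (.nv (.thr 31 16 (.thr 27 23 (.thr 43 40 (.dbl 11 56 59)))) (.nv (.thr 10 58 (.thr 15 5 (.dbl 11 3 56))) .nd)))) (.rp 13 (.str 49 (.nv (.thr 11 56 (.thr 31 16 (.thr 27 23 (.dbl 43 40 59)))) (.nv (.thr 16 31 (.thr 17 18 (.thr 48 32 (.dbl 51 34 50))))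 (.nv (.thr 1 61 (.thr 3 2 (.dbl 11 15 56))) .nd)))) .nd)))))) (.rp 19 (.str 28 (.nv (.thr 16 31 (.thr 20 24 (.dbl 40 43 60))) (.nv (.thr 10 58 (.thr 15 5 (.dbl 11 3 56))) (.rp 49 (.str 13 (.nv (.thr 10 58 (.thr 11 56 (.dbl 15 3 5))) (.nv (.thr 31 16 (.thr 29 30 (.dbl 61 1 45))) .nd))) (.rp 15 (.thr 40 43 (.thr 20 60 (.dbl 16 24 31))) (.rp 13 (.str 49 (.nv (.thr 40 43 (.thr 56 11 (.thr 24 8 (.dbl 16 20 31)))) (.nv (.thr 16 31 (.thr 20 24 (.dbl 40 43 60))) (.nv (.thr 1 61 (.thr 3 2 (.dbl 11 15 56))) .nd)))) .nd)))))) (.rp 15 (.thr 56 11 (.thr 40 43 (.thr 24 8 (.thr 20 60 (.dbl 16 28 31))))) (.rp 13 (.str 49 (.nv (.thr 10 58 (.thr 11 56 (.dbl 15 3 5))) (.nv (.thr 1 61 (.thr 2 3 (.thr 10 58 (.thr 5 15 (.dbl 6 4 14))))) (.nv (.thr 56 11 (.thr 58 10 (.thr 57 59 (.dbl 61 1 53)))) (.nv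 (.thr 1 61 (.thr 3 2 (.dbl 11 15 56))) (.rp 28 (.str 19 (.nv (.thr 11 56 (.thr 31 16 (.thr 27 23 (.dbl 43 40 59)))) (.nv (.thr 16 31 (.thr 17 18 (.thr 48 32 (.dbl 51 34 50)))) (.nv (.thr 1 61 (.thr 3 2 (.dbl 11 15 56))) .nd)))) (.rp 19 (.str 28 (.nv (.thr 40 43 (.thr 56 11 (.thr 24 8 (.dbl 16 20 31)))) (.nv (.thr 16 31 (.thr 20 24 (.dbl 40 43 60))) (.nv (.thr 1 61 (.thr 3 2 (.dbl 11 15 56))) .nd)))) .nd))))))) (.rp 3 (.thr 10 58 (.thr 11 56 (.thr 9 8 (.thr 5 15 (.dbl 1 13 61))))) .nd))))))))))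

theorem w431 : WinAt (6597138972673, 9227875773958848512) :=
  chF (K := []) kn c431 6597138972673 9227875773958848512 52
    [306708480, 563087425937408] (by decide +kernel) (by decide +kernel)

/-- A certificate. -/
noncomputable def c432 : Ct := (.str 41 (.nv (.thr 11 56 (.thr 10 58 (.thr 9 8 (.thr 5 0 (.dbl 1 13 61))))) (.nv (.thr 1 61 (.thr 10 58 (.thr 0 5 (.thr 3 2 (.dbl 11 7 56))))) (.rp 61 (.thr 40 43 (.thr 56 11 (.thr 24 8 (.thr 10 58 (.thr 0 5 (.thr 16 31 (.dbl 20 28 60))))))) (.rp 58 (.thr 56 11 (.str 48 (.nv (.thr 16 31 (.thr 32 0 (.thr 40 43 (.thr 24 8 (.dbl 36 12 44))))) (.nv (.thr 16 31 (.thr 40 43 (.thr 24 8 (.thr 12 36 (.thr 28 20 (.dbl 60 44 52)))))) (.nv (.thr 40 43 (.thr 16 31 (.thr 0 32 (.dbl 60 20 52)))) (.rp 59 (.thr 1 61 (.thr 16 31 (.thr 0 32 (.thr 2 3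 (.thr 10 5 (.thr 14 6 (.thr 38 50 (.thr 34 46 (.thr 51 17 (.thr 4 55 (.dbl 12 8 13))))))))))) (.rp 52 (.str 7 (.nv (.thr 16 31 (.thr 0 32 (.thr 5 10 (.thr 4 6 (.thr 38 55 (.thr 14 50 (.dbl 12 8 13))))))) (.nv (.thr 16 31 (.thr 32 0 (.thr 40 43 (.thr 36 44 (.dbl 24 8 12))))) (.rp 59 (.thr 16 31 (.thr 0 32 (.thr 5 10 (.thr 4 6 (.thr 8 12 (.dbl 40 24 43)))))) (.rp 49 (.str 13 (.nv (.thr 12 14 (.thr 40 43 (.dbl 24 8 36))) (.nv (.thr 16 31 (.thr 0 32 (.thr 5 10 (.dbl 1 9 61)))) (.rp 28 (.str 19 (.nv (.thr 1 61 (.thr 16 31 (.thr 0 32 (.dbl 5 9 10)))) (.nv (.thr 40 43 (.thr 12 14 (.dbl 24 8 36))) .nd))) (.rp 19 (.str 28 (.nv (.thr 12 14 (.thr 24 36 (.dbl 40 8 43))) (.nv (.thr 31 16 (.thr 29 30 (.dbl 61 1 45))) (.nv (.thr 12 14 (.thr 16 31 (.dbl 24 20 36))) .nd)))) (.rp 8 (.thr 16 31 (.thr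 0 32 (.thr 1 61 (.dbl 5 9 10)))) .nd)))))) (.rp 32 (.thr 40 43 (.thr 24 8 (.thr 16 31 (.thr 61 1 (.thr 12 36 (.thr 13 14 (.thr 45 29 (.thr 60 30 (.dbl 28 20 44))))))))) (.rp 31 (.thr 40 43 (.thr 24 8 (.thr 61 1 (.thr 12 36 (.thr 13 14 (.thr 45 29 (.thr 60 30 (.thr 28 44 (.dbl 20 0 16))))))))) (.rp 28 (.str 19 (.nv (.thr 16 31 (.thr 32 0 (.thr 40 43 (.thr 24 8 (.dbl 36 12 44))))) (.nv (.thr 1 61 (.thr 16 31 (.thr 18 17 (.thr 3 33 (.dbl 0 2 32))))) (.rp 49 (.str 13 (.nv (.thr 1 61 (.thr 16 31 (.thr 0 32 (.dbl 5 9 10)))) (.nv (.thr 40 43 (.thr 12 14 (.dbl 24 8 36))) .nd))) (.rp 32 (.thr 16 31 (.thr 18 17 (.thr 3 33 (.thr 35 51 (.thr 38 44 (.thr 50 14 (.dbl 34 2 46))))))) (.rp 31 (.thr 40 43 (.thr 24 8 (.thr 1 61 (.thr 12 36 (.thr 13 14 (.thr 9 5 (.thr 3 6 (.thr 51 35 (.thr 33 18 (.dbl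 49 17 50)))))))))) (.rp 30 (.thr 43 40 (.thr 31 16 (.thr 27 23 (.thr 51 39 (.thr 35 3 (.thr 38 44 (.dbl 50 14 49))))))) (.rp 29 (.thr 43 40 (.thr 31 16 (.thr 27 23 (.thr 51 39 (.thr 35 3 (.thr 38 44 (.dbl 50 14 49))))))) (.rp 16 (.thr 40 43 (.thr 24 8 (.thr 1 61 (.thr 12 36 (.thr 13 14 (.thr 9 5 (.thr 3 6 (.thr 51 35 (.thr 33 18 (.dbl 49 17 50)))))))))) (.rp 13 (.str 49 (.nv (.thr 43 40 (.thr 51 50 (.thr 35 3 (.dbl 39 27 47)))) (.nv (.thr 16 31 (.thr 17 18 (.dbl 1 33 61))) .nd))) (.rp 3 (.thr 16 31 (.thr 17 18 (.thr 0 32 (.thr 51 34 (.thr 1 61 (.dbl 49 33 50)))))) (.rp 0 (.thr 43 40 (.thr 31 16 (.thr 27 23 (.thr 51 39 (.thr 35 3 (.thr 38 44 (.dbl 50 14 49))))))) .nd)))))))))))) (.rp 19 (.str 28 (.nv (.thr 16 31 (.thr 0 32 (.thr 20 24 (.dbl 40 43 60)))) (.nv (.thr 40 43 (.thr 16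 31 (.dbl 24 8 20))) (.rp 49 (.str 13 (.nv (.thr 12 14 (.thr 24 36 (.dbl 40 8 43))) (.nv (.thr 31 16 (.thr 29 30 (.dbl 61 1 45))) (.nv (.thr 12 14 (.thr 16 31 (.dbl 24 20 36))) .nd)))) (.rp 43 (.thr 16 31 (.thr 24 20 (.thr 40 8 (.thr 36 12 (.dbl 32 0 44))))) (.rp 40 (.thr 16 31 (.thr 24 20 (.thr 0 32 (.thr 5 10 (.thr 4 6 (.dbl 12 8 36)))))) (.rp 31 (.thr 40 43 (.thr 24 8 (.thr 12 36 (.thr 60 44 (.dbl 20 0 16))))) (.rp 27 (.thr 31 16 (.thr 30 29 (.thr 60 45 (.thr 12 44 (.thr 24 36 (.dbl 40 8 43)))))) (.rp 24 (.thr 40 43 (.thr 16 31 (.thr 32 0 (.thr 44 36 (.thr 12 60 (.thr 38 35 (.dbl 14 13 50))))))) (.rp 23 (.thr 31 16 (.thr 30 29 (.thr 60 45 (.thr 12 44 (.thr 24 36 (.dbl 40 8 43)))))) (.rp 20 (.thr 40 43 (.thr 24 8 (.thr 36 12 (.thr 16 31 (.dbl 32 0 44))))) (.rp 16 (.thr 40 43 (.thr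 24 8 (.thr 12 36 (.thr 44 60 (.thr 38 35 (.dbl 14 13 50)))))) (.rp 13 (.str 49 (.nv (.thr 1 61 (.thr 17 33 (.thr 51 50 (.thr 0 34 (.dbl 16 31 32))))) (.nv (.thr 16 31 (.thr 24 20 (.dbl 40 8 43))) (.rp 31 (.thr 40 43 (.thr 24 8 (.thr 20 16 (.thr 12 36 (.dbl 60 0 44))))) (.rp 16 (.thr 51 50 (.thr 43 40 (.thr 39 27 (.thr 35 47 (.thr 38 44 (.dbl 55 4 23)))))) .nd))))) .nd))))))))))))) (.rp 16 (.thr 40 43 (.thr 24 8 (.thr 1 61 (.thr 12 36 (.thr 13 14 (.thr 5 9 (.thr 10 0 (.thr 4 6 (.thr 38 55 (.thr 34 46 (.thr 35 44 (.thr 33 32 (.thr 49 17 (.thr 51 50 (.dbl 3 18 19))))))))))))))) (.rp 13 (.str 49 (.nv (.thr 1 61 (.thr 33 17 (.thr 18 3 (.thr 50 51 (.thr 34 2 (.dbl 38 14 46)))))) (.nv (.thr 16 31 (.thr 32 0 (.thr 40 43 (.thr 24 8 (.dbl 36 12 44))))) (.nv (.thr 1 61 (.thr 16 31 (.thr 0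 32 (.thr 3 2 (.dbl 33 17 18))))) (.rp 28 (.str 19 (.nv (.thr 43 40 (.thr 51 50 (.thr 35 3 (.dbl 39 27 47)))) (.nv (.thr 16 31 (.thr 17 18 (.dbl 1 33 61))) .nd))) (.rp 19 (.str 28 (.nv (.thr 1 61 (.thr 17 33 (.thr 51 50 (.thr 0 34 (.dbl 16 31 32))))) (.nv (.thr 16 31 (.thr 24 20 (.dbl 40 8 43))) (.rp 31 (.thr 40 43 (.thr 24 8 (.thr 20 16 (.thr 12 36 (.dbl 60 0 44))))) (.rp 16 (.thr 51 50 (.thr 43 40 (.thr 39 27 (.thr 35 47 (.thr 38 44 (.dbl 55 4 23)))))) .nd))))) (.rp 3 (.thr 51 50 (.thr 16 31 (.thr 0 32 (.thr 17 34 (.dbl 1 33 61))))) .nd))))))) (.rp 12 (.thr 40 43 (.thr 24 8 (.thr 16 31 (.thr 0 32 (.dbl 20 28 60))))) (.rp 8 (.thr 16 31 (.thr 0 32 (.thr 1 61 (.thr 3 2 (.thr 33 18 (.thr 49 17 (.thr 5 10 (.thr 9 13 (.dbl 6 4 12))))))))) (.rp 0 (.thr 40 43 (.thr 24 8 (.thr 16 31 (.thr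 61 1 (.thr 12 36 (.thr 13 14 (.thr 45 29 (.thr 60 30 (.dbl 28 20 44))))))))) .nd)))))))))))))) (.rp 49 (.str 13 (.nv (.thr 1 61 (.thr 16 31 (.thr 0 32 (.dbl 5 9 10)))) (.nv (.thr 12 14 (.thr 24 36 (.dbl 40 8 43))) (.rp 52 (.str 7 (.nv (.thr 12 14 (.thr 40 43 (.dbl 24 8 36))) (.nv (.thr 16 31 (.thr 0 32 (.thr 5 10 (.dbl 1 9 61)))) (.rp 28 (.str 19 (.nv (.thr 1 61 (.thr 16 31 (.thr 0 32 (.dbl 5 9 10)))) (.nv (.thr 40 43 (.thr 12 14 (.dbl 24 8 36))) .nd))) (.rp 19 (.str 28 (.nv (.thr 12 14 (.thr 24 36 (.dbl 40 8 43))) (.nv (.thr 31 16 (.thr 29 30 (.dbl 61 1 45))) (.nv (.thr 12 14 (.thr 16 31 (.dbl 24 20 36))) .nd)))) (.rp 8 (.thr 16 31 (.thr 0 32 (.thr 1 61 (.dbl 5 9 10)))) .nd)))))) (.rp 28 (.str 19 (.nv (.thr 1 61 (.thr 16 31 (.thr 0 32 (.dbl 5 9 10)))) (.nv (.thr 12 14 (.thr 24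 36 (.dbl 40 8 43))) (.rp 52 (.str 7 (.nv (.thr 1 61 (.thr 16 31 (.thr 0 32 (.dbl 5 9 10)))) (.nv (.thr 40 43 (.thr 12 14 (.dbl 24 8 36))) .nd))) (.rp 7 (.thr 52 60 (.thr 40 43 (.thr 24 8 (.dbl 12 14 36)))) .nd))))) (.rp 19 (.str 28 (.nv (.thr 16 31 (.thr 24 20 (.dbl 40 8 43))) (.nv (.thr 12 14 (.dbl 60 44 52)) (.rp 52 (.str 7 (.nv (.thr 12 14 (.thr 24 36 (.dbl 40 8 43))) (.nv (.thr 31 16 (.thr 29 30 (.dbl 61 1 45))) (.nv (.thr 12 14 (.thr 16 31 (.dbl 24 20 36))) .nd)))) (.rp 7 (.thr 52 60 (.thr 40 43 (.thr 24 8 (.dbl 12 14 36)))) .nd))))) (.rp 7 (.thr 52 60 (.thr 40 43 (.thr 24 8 (.dbl 12 14 36)))) .nd))))))) (.rp 43 (.thr 1 61 (.thr 16 31 (.thr 0 32 (.thr 3 2 (.thr 33 18 (.thr 49 17 (.thr 50 51 (.thr 14 38 (.thr 12 13 (.thr 8 4 (.dbl 24 36 40))))))))))) (.rp 40 (.thr 1 61 (.thr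 16 31 (.thr 0 32 (.thr 2 3 (.thr 10 5 (.thr 14 6 (.thr 38 50 (.thr 4 55 (.dbl 12 8 13))))))))) (.rp 31 (.thr 40 43 (.thr 24 8 (.thr 36 12 (.thr 32 44 (.thr 0 16 (.dbl 60 20 52)))))) (.rp 28 (.str 19 (.nv (.thr 16 31 (.thr 0 32 (.thr 18 17 (.thr 3 33 (.dbl 1 2 61))))) (.nv (.thr 40 43 (.thr 16 31 (.thr 0 32 (.dbl 60 20 52)))) (.rp 52 (.str 7 (.nv (.thr 16 31 (.thr 32 0 (.thr 40 43 (.thr 24 8 (.dbl 36 12 44))))) (.nv (.thr 1 61 (.thr 16 31 (.thr 18 17 (.thr 3 33 (.dbl 0 2 32))))) (.rp 49 (.str 13 (.nv (.thr 1 61 (.thr 16 31 (.thr 0 32 (.dbl 5 9 10)))) (.nv (.thr 40 43 (.thr 12 14 (.dbl 24 8 36))) .nd))) (.rp 32 (.thr 16 31 (.thr 18 17 (.thr 3 33 (.thr 35 51 (.thr 38 44 (.thr 50 14 (.dbl 34 2 46))))))) (.rp 31 (.thr 40 43 (.thr 24 8 (.thr 1 61 (.thr 12 36 (.thr 13 14 (.thr 9 5 (.thr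 3 6 (.thr 51 35 (.thr 33 18 (.dbl 49 17 50)))))))))) (.rp 30 (.thr 43 40 (.thr 31 16 (.thr 27 23 (.thr 51 39 (.thr 35 3 (.thr 38 44 (.dbl 50 14 49))))))) (.rp 29 (.thr 43 40 (.thr 31 16 (.thr 27 23 (.thr 51 39 (.thr 35 3 (.thr 38 44 (.dbl 50 14 49))))))) (.rp 16 (.thr 40 43 (.thr 24 8 (.thr 1 61 (.thr 12 36 (.thr 13 14 (.thr 9 5 (.thr 3 6 (.thr 51 35 (.thr 33 18 (.dbl 49 17 50)))))))))) (.rp 13 (.str 49 (.nv (.thr 43 40 (.thr 51 50 (.thr 35 3 (.dbl 39 27 47)))) (.nv (.thr 16 31 (.thr 17 18 (.dbl 1 33 61))) .nd))) (.rp 3 (.thr 16 31 (.thr 17 18 (.thr 0 32 (.thr 51 34 (.thr 1 61 (.dbl 49 33 50)))))) (.rp 0 (.thr 43 40 (.thr 31 16 (.thr 27 23 (.thr 51 39 (.thr 35 3 (.thr 38 44 (.dbl 50 14 49))))))) .nd)))))))))))) (.rp 49 (.str 13 (.nv (.thr 1 61 (.thr 16 31 (.thr 0 32 (.dbl 5 9 10))))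 (.nv (.thr 12 14 (.thr 24 36 (.dbl 40 8 43))) (.rp 52 (.str 7 (.nv (.thr 1 61 (.thr 16 31 (.thr 0 32 (.dbl 5 9 10)))) (.nv (.thr 40 43 (.thr 12 14 (.dbl 24 8 36))) .nd))) (.rp 7 (.thr 52 60 (.thr 40 43 (.thr 24 8 (.dbl 12 14 36)))) .nd))))) (.rp 32 (.thr 40 43 (.thr 24 8 (.thr 61 1 (.thr 12 36 (.thr 13 14 (.thr 45 29 (.dbl 60 30 52))))))) (.rp 31 (.thr 40 43 (.thr 24 8 (.thr 52 60 (.thr 36 12 (.thr 44 32 (.thr 4 20 (.dbl 38 35 55))))))) (.rp 30 (.thr 43 40 (.thr 31 16 (.thr 27 23 (.thr 51 39 (.thr 35 3 (.thr 38 44 (.dbl 50 14 49))))))) (.rp 29 (.thr 43 40 (.thr 31 16 (.thr 27 23 (.thr 51 39 (.thr 35 3 (.thr 38 44 (.dbl 50 14 49))))))) (.rp 16 (.thr 40 43 (.thr 24 8 (.thr 61 1 (.thr 12 36 (.thr 13 14 (.thr 45 29 (.dbl 60 30 52))))))) (.rp 13 (.str 49 (.nv (.thr 43 40 (.thr 51 50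 (.thr 35 3 (.dbl 39 27 47)))) (.nv (.thr 16 31 (.thr 17 18 (.dbl 1 33 61))) (.rp 52 (.str 7 (.nv (.thr 43 40 (.thr 51 50 (.thr 35 3 (.dbl 39 27 47)))) (.nv (.thr 16 31 (.thr 17 18 (.dbl 1 33 61))) .nd))) (.rp 7 (.thr 52 60 (.thr 51 50 (.thr 31 16 (.dbl 27 23 39)))) .nd))))) (.rp 7 (.thr 52 60 (.thr 40 43 (.thr 24 8 (.thr 16 31 (.thr 32 0 (.dbl 36 12 44)))))) (.rp 3 (.thr 1 61 (.thr 16 31 (.thr 0 32 (.thr 17 18 (.thr 49 33 (.dbl 51 34 50)))))) (.rp 0 (.thr 43 40 (.thr 31 16 (.thr 27 23 (.thr 51 39 (.thr 35 3 (.thr 38 44 (.dbl 50 14 49))))))) .nd)))))))))))))) (.rp 27 (.thr 1 61 (.thr 16 31 (.thr 0 32 (.thr 2 3 (.thr 10 5 (.thr 14 6 (.thr 38 50 (.thr 4 55 (.dbl 12 8 13))))))))) (.rp 23 (.thr 1 61 (.thr 16 31 (.thr 0 32 (.thr 40 43 (.thr 3 2 (.dbl 60 20 52)))))) (.rp 19 (.str 28 (.nv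 (.thr 40 43 (.thr 24 8 (.thr 12 36 (.dbl 60 44 52)))) (.nv (.thr 31 16 (.thr 30 29 (.dbl 60 45 52))) (.nv (.thr 16 31 (.thr 24 20 (.dbl 40 8 43))) (.rp 52 (.str 7 (.nv (.thr 16 31 (.thr 0 32 (.thr 20 24 (.dbl 40 43 60)))) (.nv (.thr 40 43 (.thr 16 31 (.dbl 24 8 20))) (.rp 49 (.str 13 (.nv (.thr 12 14 (.thr 24 36 (.dbl 40 8 43))) (.nv (.thr 31 16 (.thr 29 30 (.dbl 61 1 45))) (.nv (.thr 12 14 (.thr 16 31 (.dbl 24 20 36))) .nd)))) (.rp 43 (.thr 16 31 (.thr 24 20 (.thr 40 8 (.thr 36 12 (.dbl 32 0 44))))) (.rp 40 (.thr 16 31 (.thr 24 20 (.thr 0 32 (.thr 5 10 (.thr 4 6 (.dbl 12 8 36)))))) (.rp 31 (.thr 40 43 (.thr 24 8 (.thr 12 36 (.thr 60 44 (.dbl 20 0 16))))) (.rp 27 (.thr 31 16 (.thr 30 29 (.thr 60 45 (.thr 12 44 (.thr 24 36 (.dbl 40 8 43)))))) (.rp 24 (.thr 40 43 (.thr 16 31 (.thr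 32 0 (.thr 44 36 (.thr 12 60 (.thr 38 35 (.dbl 14 13 50))))))) (.rp 23 (.thr 31 16 (.thr 30 29 (.thr 60 45 (.thr 12 44 (.thr 24 36 (.dbl 40 8 43)))))) (.rp 20 (.thr 40 43 (.thr 24 8 (.thr 36 12 (.thr 16 31 (.dbl 32 0 44))))) (.rp 16 (.thr 40 43 (.thr 24 8 (.thr 12 36 (.thr 44 60 (.thr 38 35 (.dbl 14 13 50)))))) (.rp 13 (.str 49 (.nv (.thr 1 61 (.thr 17 33 (.thr 51 50 (.thr 0 34 (.dbl 16 31 32))))) (.nv (.thr 16 31 (.thr 24 20 (.dbl 40 8 43))) (.rp 31 (.thr 40 43 (.thr 24 8 (.thr 20 16 (.thr 12 36 (.dbl 60 0 44))))) (.rp 16 (.thr 51 50 (.thr 43 40 (.thr 39 27 (.thr 35 47 (.thr 38 44 (.dbl 55 4 23)))))) .nd))))) .nd))))))))))))) (.rp 49 (.str 13 (.nv (.thr 16 31 (.thr 24 20 (.dbl 40 8 43))) (.nv (.thr 12 14 (.dbl 60 44 52)) (.rp 52 (.str 7 (.nv (.thr 12 14 (.thr 24 36 (.dbl 40 8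 43))) (.nv (.thr 31 16 (.thr 29 30 (.dbl 61 1 45))) (.nv (.thr 12 14 (.thr 16 31 (.dbl 24 20 36))) .nd)))) (.rp 7 (.thr 52 60 (.thr 40 43 (.thr 24 8 (.dbl 12 14 36)))) .nd))))) (.rp 13 (.str 49 (.nv (.thr 51 50 (.thr 61 1 (.thr 57 53 (.dbl 60 52 54)))) (.nv (.thr 16 31 (.thr 24 20 (.dbl 40 8 43))) (.rp 52 (.str 7 (.nv (.thr 1 61 (.thr 17 33 (.thr 51 50 (.thr 0 34 (.dbl 16 31 32))))) (.nv (.thr 16 31 (.thr 24 20 (.dbl 40 8 43))) (.rp 31 (.thr 40 43 (.thr 24 8 (.thr 20 16 (.thr 12 36 (.dbl 60 0 44))))) (.rp 16 (.thr 51 50 (.thr 43 40 (.thr 39 27 (.thr 35 47 (.thr 38 44 (.dbl 55 4 23)))))) .nd))))) (.rp 7 (.thr 52 60 (.thr 40 43 (.thr 24 8 (.dbl 16 20 31)))) .nd))))) (.rp 7 (.thr 52 60 (.thr 40 43 (.thr 24 8 (.dbl 16 20 31)))) .nd)))))))) (.rp 16 (.thr 40 43 (.thr 24 8 (.thr 61 1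 (.thr 12 36 (.thr 13 14 (.thr 45 29 (.dbl 60 30 52))))))) (.rp 13 (.str 49 (.nv (.thr 16 31 (.thr 32 0 (.thr 40 43 (.thr 36 44 (.dbl 24 8 12))))) (.nv (.thr 51 50 (.thr 61 1 (.thr 57 53 (.dbl 60 52 54)))) (.rp 52 (.str 7 (.nv (.thr 1 61 (.thr 33 17 (.thr 18 3 (.thr 50 51 (.thr 34 2 (.dbl 38 14 46)))))) (.nv (.thr 16 31 (.thr 32 0 (.thr 40 43 (.thr 24 8 (.dbl 36 12 44))))) (.nv (.thr 1 61 (.thr 16 31 (.thr 0 32 (.thr 3 2 (.dbl 33 17 18))))) (.rp 28 (.str 19 (.nv (.thr 43 40 (.thr 51 50 (.thr 35 3 (.dbl 39 27 47)))) (.nv (.thr 16 31 (.thr 17 18 (.dbl 1 33 61))) .nd))) (.rp 19 (.str 28 (.nv (.thr 1 61 (.thr 17 33 (.thr 51 50 (.thr 0 34 (.dbl 16 31 32))))) (.nv (.thr 16 31 (.thr 24 20 (.dbl 40 8 43))) (.rp 31 (.thr 40 43 (.thr 24 8 (.thr 20 16 (.thr 12 36 (.dbl 60 0 44))))) (.rp 16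 (.thr 51 50 (.thr 43 40 (.thr 39 27 (.thr 35 47 (.thr 38 44 (.dbl 55 4 23)))))) .nd))))) (.rp 3 (.thr 51 50 (.thr 16 31 (.thr 0 32 (.thr 17 34 (.dbl 1 33 61))))) .nd))))))) (.rp 28 (.str 19 (.nv (.thr 43 40 (.thr 51 50 (.thr 35 3 (.dbl 39 27 47)))) (.nv (.thr 16 31 (.thr 17 18 (.dbl 1 33 61))) (.rp 52 (.str 7 (.nv (.thr 43 40 (.thr 51 50 (.thr 35 3 (.dbl 39 27 47)))) (.nv (.thr 16 31 (.thr 17 18 (.dbl 1 33 61))) .nd))) (.rp 7 (.thr 52 60 (.thr 51 50 (.thr 31 16 (.dbl 27 23 39)))) .nd))))) (.rp 19 (.str 28 (.nv (.thr 51 50 (.thr 61 1 (.thr 57 53 (.dbl 60 52 54)))) (.nv (.thr 16 31 (.thr 24 20 (.dbl 40 8 43))) (.rp 52 (.str 7 (.nv (.thr 1 61 (.thr 17 33 (.thr 51 50 (.thr 0 34 (.dbl 16 31 32))))) (.nv (.thr 16 31 (.thr 24 20 (.dbl 40 8 43))) (.rp 31 (.thr 40 43 (.thr 24 8 (.thr 20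 16 (.thr 12 36 (.dbl 60 0 44))))) (.rp 16 (.thr 51 50 (.thr 43 40 (.thr 39 27 (.thr 35 47 (.thr 38 44 (.dbl 55 4 23)))))) .nd))))) (.rp 7 (.thr 52 60 (.thr 40 43 (.thr 24 8 (.dbl 16 20 31)))) .nd))))) (.rp 7 (.thr 52 60 (.thr 40 43 (.thr 24 8 (.thr 16 31 (.thr 32 0 (.dbl 36 12 44)))))) .nd))))))) (.rp 7 (.thr 52 60 (.thr 40 43 (.thr 24 8 (.thr 16 31 (.thr 32 0 (.dbl 36 12 44)))))) (.rp 3 (.thr 43 40 (.str 51 (.nv (.thr 39 27 (.thr 35 47 (.thr 38 44 (.dbl 50 14 49)))) (.nv (.thr 49 50 (.thr 61 1 (.thr 57 53 (.dbl 60 52 54)))) (.rp 52 (.str 7 (.nv (.thr 49 50 (.thr 1 61 (.thr 16 31 (.thr 17 33 (.dbl 0 32 34))))) (.nv (.thr 39 27 (.thr 35 47 (.thr 55 23 (.dbl 38 4 44)))) (.rp 49 (.str 13 (.nv (.thr 1 61 (.thr 5 9 (.thr 16 31 (.dbl 0 10 32)))) (.nv (.thr 39 27 (.thr 35 47 (.thr 55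 23 (.dbl 38 4 44)))) (.rp 31 (.thr 39 27 (.thr 14 12 (.thr 38 50 (.dbl 55 4 23)))) (.rp 28 (.str 19 (.nv (.thr 14 12 (.thr 38 50 (.thr 39 27 (.dbl 35 44 47)))) (.nv (.thr 16 31 (.thr 17 18 (.dbl 0 32 34))) (.nv (.thr 27 39 (.dbl 31 16 23)) .nd)))) (.rp 19 (.str 28 (.nv (.thr 12 14 (.thr 39 27 (.thr 23 55 (.thr 35 47 (.dbl 44 38 60))))) (.nv (.thr 31 16 (.thr 29 30 (.dbl 61 1 45))) .nd))) .nd)))))) (.rp 31 (.thr 39 27 (.thr 35 47 (.thr 38 44 (.dbl 50 14 49)))) (.rp 28 (.str 19 (.nv (.thr 39 27 (.thr 35 47 (.thr 38 44 (.dbl 50 14 49)))) (.nv (.thr 49 50 (.thr 1 61 (.thr 16 31 (.dbl 17 18 33)))) (.nv (.thr 27 39 (.dbl 31 16 23)) (.rp 49 (.str 13 (.nv (.thr 14 12 (.thr 38 50 (.thr 39 27 (.dbl 35 44 47)))) (.nv (.thr 16 31 (.thr 17 18 (.dbl 0 32 34))) (.nv (.thr 27 39 (.dbl 31 16 23))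 .nd)))) .nd))))) (.rp 19 (.str 28 (.nv (.thr 39 27 (.thr 23 55 (.thr 35 47 (.thr 38 44 (.dbl 50 14 49))))) (.nv (.thr 49 50 (.thr 1 61 (.thr 17 33 (.thr 0 34 (.dbl 16 31 32))))) (.nv (.thr 31 16 (.thr 39 27 (.thr 55 23 (.thr 35 47 (.dbl 38 4 44))))) (.rp 49 (.str 13 (.nv (.thr 12 14 (.thr 39 27 (.thr 23 55 (.thr 35 47 (.dbl 44 38 60))))) (.nv (.thr 31 16 (.thr 29 30 (.dbl 61 1 45))) .nd))) (.rp 35 (.thr 49 50 (.thr 16 31 (.thr 1 61 (.thr 17 33 (.dbl 0 32 34))))) .nd)))))) .nd))))))) (.rp 50 (.thr 16 31 (.thr 0 32 (.thr 34 17 (.thr 39 27 (.thr 35 47 (.dbl 38 44 46)))))) (.rp 49 (.str 13 (.nv (.thr 16 31 (.thr 0 32 (.thr 5 10 (.dbl 1 9 61)))) (.nv (.thr 12 14 (.thr 39 27 (.thr 35 47 (.thr 44 38 (.dbl 60 28 52))))) (.rp 52 (.str 7 (.nv (.thr 1 61 (.thr 5 9 (.thr 16 31 (.dbl 0 10 32))))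 (.nv (.thr 39 27 (.thr 35 47 (.thr 55 23 (.dbl 38 4 44)))) (.rp 31 (.thr 39 27 (.thr 14 12 (.thr 38 50 (.dbl 55 4 23)))) (.rp 28 (.str 19 (.nv (.thr 14 12 (.thr 38 50 (.thr 39 27 (.dbl 35 44 47)))) (.nv (.thr 16 31 (.thr 17 18 (.dbl 0 32 34))) (.nv (.thr 27 39 (.dbl 31 16 23)) .nd)))) (.rp 19 (.str 28 (.nv (.thr 12 14 (.thr 39 27 (.thr 23 55 (.thr 35 47 (.dbl 44 38 60))))) (.nv (.thr 31 16 (.thr 29 30 (.dbl 61 1 45))) .nd))) .nd)))))) (.rp 44 (.thr 61 1 (.thr 45 29 (.dbl 60 30 52))) (.rp 28 (.str 19 (.nv (.thr 61 1 (.thr 45 29 (.dbl 60 30 52))) (.nv (.thr 31 16 (.dbl 27 23 39)) (.rp 52 (.str 7 (.nv (.thr 14 12 (.thr 38 50 (.thr 39 27 (.dbl 35 44 47)))) (.nv (.thr 16 31 (.thr 17 18 (.dbl 0 32 34))) (.nv (.thr 27 39 (.dbl 31 16 23)) .nd)))) (.rp 31 (.thr 14 12 (.thr 39 27 (.thr 35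 47 (.dbl 38 44 50)))) (.rp 7 (.thr 52 60 (.thr 31 16 (.dbl 27 23 39))) .nd)))))) (.rp 19 (.str 28 (.nv (.thr 31 16 (.thr 29 30 (.dbl 61 1 45))) (.nv (.thr 12 14 (.dbl 60 44 52)) (.rp 52 (.str 7 (.nv (.thr 12 14 (.thr 39 27 (.thr 23 55 (.thr 35 47 (.dbl 44 38 60))))) (.nv (.thr 31 16 (.thr 29 30 (.dbl 61 1 45))) .nd))) (.rp 7 (.thr 52 60 (.thr 12 14 (.thr 16 31 (.dbl 24 20 36)))) .nd))))) (.rp 7 (.thr 52 60 (.thr 14 12 (.thr 39 27 (.thr 35 47 (.dbl 38 44 50))))) .nd)))))))) (.rp 28 (.str 19 (.nv (.thr 49 50 (.thr 61 1 (.thr 57 53 (.dbl 60 52 54)))) (.nv (.thr 31 16 (.dbl 27 23 39)) (.rp 52 (.str 7 (.nv (.thr 39 27 (.thr 35 47 (.thr 38 44 (.dbl 50 14 49)))) (.nv (.thr 49 50 (.thr 1 61 (.thr 16 31 (.dbl 17 18 33)))) (.nv (.thr 27 39 (.dbl 31 16 23)) (.rp 49 (.str 13 (.nv (.thr 14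 12 (.thr 38 50 (.thr 39 27 (.dbl 35 44 47)))) (.nv (.thr 16 31 (.thr 17 18 (.dbl 0 32 34))) (.nv (.thr 27 39 (.dbl 31 16 23)) .nd)))) .nd))))) (.rp 49 (.str 13 (.nv (.thr 61 1 (.thr 45 29 (.dbl 60 30 52))) (.nv (.thr 31 16 (.dbl 27 23 39)) (.rp 52 (.str 7 (.nv (.thr 14 12 (.thr 38 50 (.thr 39 27 (.dbl 35 44 47)))) (.nv (.thr 16 31 (.thr 17 18 (.dbl 0 32 34))) (.nv (.thr 27 39 (.dbl 31 16 23)) .nd)))) (.rp 31 (.thr 14 12 (.thr 39 27 (.thr 35 47 (.dbl 38 44 50)))) (.rp 7 (.thr 52 60 (.thr 31 16 (.dbl 27 23 39))) .nd)))))) (.rp 7 (.thr 52 60 (.thr 31 16 (.dbl 27 23 39))) .nd)))))) (.rp 19 (.str 28 (.nv (.thr 31 16 (.thr 30 29 (.dbl 60 45 52))) (.nv (.thr 49 50 (.thr 61 1 (.thr 57 53 (.dbl 60 52 54)))) (.rp 60 (.thr 39 27 (.thr 35 47 (.thr 38 44 (.dbl 50 14 49)))) (.rp 52 (.str 7 (.nv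 (.thr 39 27 (.thr 23 55 (.thr 35 47 (.thr 38 44 (.dbl 50 14 49))))) (.nv (.thr 49 50 (.thr 1 61 (.thr 17 33 (.thr 0 34 (.dbl 16 31 32))))) (.nv (.thr 31 16 (.thr 39 27 (.thr 55 23 (.thr 35 47 (.dbl 38 4 44))))) (.rp 49 (.str 13 (.nv (.thr 12 14 (.thr 39 27 (.thr 23 55 (.thr 35 47 (.dbl 44 38 60))))) (.nv (.thr 31 16 (.thr 29 30 (.dbl 61 1 45))) .nd))) (.rp 35 (.thr 49 50 (.thr 16 31 (.thr 1 61 (.thr 17 33 (.dbl 0 32 34))))) .nd)))))) (.rp 49 (.str 13 (.nv (.thr 31 16 (.thr 29 30 (.dbl 61 1 45))) (.nv (.thr 12 14 (.dbl 60 44 52)) (.rp 52 (.str 7 (.nv (.thr 12 14 (.thr 39 27 (.thr 23 55 (.thr 35 47 (.dbl 44 38 60))))) (.nv (.thr 31 16 (.thr 29 30 (.dbl 61 1 45))) .nd))) (.rp 7 (.thr 52 60 (.thr 12 14 (.thr 16 31 (.dbl 24 20 36)))) .nd))))) (.rp 7 (.thr 52 60 (.thr 39 27 (.thr 35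 47 (.thr 38 44 (.dbl 50 14 49))))) .nd))))))) (.rp 7 (.thr 52 60 (.thr 39 27 (.thr 35 47 (.thr 38 44 (.dbl 50 14 49))))) .nd)))))))))) .nd))))))))))))))))))) (.rp 56 (.thr 10 58 (.thr 5 0 (.thr 1 61 (.thr 13 9 (.thr 14 12 (.thr 6 2 (.thr 38 50 (.dbl 4 7 55)))))))) (.rp 53 (.thr 43 40 (.thr 11 56 (.thr 27 59 (.thr 31 16 (.thr 19 23 (.thr 51 39 (.dbl 3 7 35))))))) (.rp 52 (.str 7 (.nv (.dbl 11 3 56) (.rp 56 (.thr 10 58 (.thr 0 5 (.thr 1 61 (.dbl 3 2 11)))) (.rp 49 (.str 13 (.nv (.thr 1 61 (.thr 5 9 (.dbl 10 0 58))) (.nv (.dbl 11 3 56) (.rp 28 (.str 19 (.nv (.thr 1 61 (.thr 5 9 (.dbl 10 0 58))) (.nv (.dbl 11 3 56) .nd))) (.rp 19 (.str 28 (.nv (.thr 1 61 (.thr 5 9 (.dbl 10 0 58))) (.nv (.dbl 11 3 56) .nd))) .nd))))) (.rp 28 (.str 19 (.nv (.dbl 11 3 56) (.rp 56 (.thr 3 11 (.thr 51 35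 (.thr 27 39 (.dbl 31 16 23)))) (.rp 49 (.str 13 (.nv (.thr 1 61 (.thr 5 9 (.dbl 10 0 58))) (.nv (.dbl 11 3 56) .nd))) (.rp 13 (.str 49 (.nv (.thr 1 61 (.thr 16 31 (.dbl 17 18 33))) (.nv (.dbl 11 3 56) .nd))) (.rp 11 (.thr 1 61 (.thr 10 58 (.thr 5 0 (.thr 13 9 (.thr 6 4 (.dbl 14 2 12)))))) (.rp 3 (.thr 31 16 (.thr 27 23 (.thr 43 40 (.dbl 11 56 59)))) .nd))))))) (.rp 19 (.str 28 (.nv (.dbl 11 3 56) (.rp 56 (.thr 10 58 (.thr 0 5 (.thr 1 61 (.dbl 3 2 11)))) (.rp 49 (.str 13 (.nv (.thr 1 61 (.thr 5 9 (.dbl 10 0 58))) (.nv (.dbl 11 3 56) .nd))) (.rp 13 (.str 49 (.nv (.dbl 11 3 56) (.rp 56 (.thr 3 11 (.thr 1 61 (.thr 10 58 (.dbl 0 2 5)))) (.rp 11 (.thr 10 58 (.thr 40 43 (.thr 16 31 (.thr 20 24 (.dbl 0 5 60))))) (.rp 3 (.thr 61 1 (.thr 57 53 (.thr 58 10 (.dbl 56 11 59)))) .nd))))) (.rp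 11 (.thr 40 43 (.thr 10 58 (.thr 0 5 (.thr 20 60 (.dbl 16 24 31))))) (.rp 3 (.thr 56 11 (.thr 16 31 (.thr 24 20 (.dbl 40 8 43)))) .nd))))))) (.rp 13 (.str 49 (.nv (.dbl 11 3 56) (.rp 56 (.thr 3 11 (.thr 1 61 (.thr 10 58 (.dbl 0 2 5)))) (.rp 28 (.str 19 (.nv (.thr 1 61 (.thr 16 31 (.dbl 17 18 33))) (.nv (.dbl 11 3 56) .nd))) (.rp 19 (.str 28 (.nv (.dbl 11 3 56) (.rp 56 (.thr 3 11 (.thr 1 61 (.thr 10 58 (.dbl 0 2 5)))) (.rp 11 (.thr 10 58 (.thr 40 43 (.thr 16 31 (.thr 20 24 (.dbl 0 5 60))))) (.rp 3 (.thr 61 1 (.thr 57 53 (.thr 58 10 (.dbl 56 11 59)))) .nd))))) (.rp 11 (.thr 1 61 (.thr 17 33 (.thr 10 58 (.thr 16 31 (.thr 0 5 (.thr 51 34 (.dbl 48 32 50))))))) (.rp 3 (.thr 61 1 (.thr 57 53 (.thr 58 10 (.dbl 56 11 59)))) .nd))))))) (.rp 11 (.thr 10 58 (.thr 5 0 (.thr 6 4 (.thr 1 61 (.thr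 13 9 (.dbl 14 2 12)))))) (.rp 3 (.thr 11 56 (.thr 10 58 (.thr 9 8 (.thr 5 0 (.dbl 1 13 61))))) .nd))))))))) (.rp 49 (.str 13 (.nv (.thr 1 61 (.thr 9 5 (.thr 11 56 (.thr 12 14 (.dbl 3 6 7))))) (.nv (.thr 10 58 (.thr 5 0 (.dbl 1 9 61))) (.rp 61 (.thr 11 56 (.thr 10 58 (.thr 9 8 (.dbl 5 0 1)))) (.rp 53 (.thr 12 14 (.thr 40 43 (.thr 56 11 (.thr 8 24 (.thr 0 4 (.dbl 10 5 58)))))) (.rp 52 (.str 7 (.nv (.thr 1 61 (.thr 5 9 (.dbl 10 0 58))) (.nv (.dbl 11 3 56) (.rp 28 (.str 19 (.nv (.thr 1 61 (.thr 5 9 (.dbl 10 0 58))) (.nv (.dbl 11 3 56) .nd))) (.rp 19 (.str 28 (.nv (.thr 1 61 (.thr 5 9 (.dbl 10 0 58))) (.nv (.dbl 11 3 56) .nd))) .nd))))) (.rp 28 (.str 19 (.nv (.thr 11 56 (.thr 31 16 (.thr 27 23 (.dbl 43 40 59)))) (.nv (.thr 10 58 (.thr 5 0 (.dbl 1 9 61))) (.rp 52 (.str 7 (.nv (.thr 1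 61 (.thr 5 9 (.dbl 10 0 58))) (.nv (.dbl 11 3 56) .nd))) (.rp 7 (.str 52 (.nv (.thr 11 56 (.thr 31 16 (.thr 27 23 (.dbl 43 40 59)))) (.nv (.thr 10 58 (.thr 5 0 (.dbl 1 9 61))) .nd))) .nd))))) (.rp 19 (.str 28 (.nv (.thr 12 14 (.thr 31 16 (.thr 30 29 (.dbl 60 44 45)))) (.nv (.thr 10 58 (.thr 5 0 (.dbl 1 9 61))) (.rp 52 (.str 7 (.nv (.thr 1 61 (.thr 5 9 (.dbl 10 0 58))) (.nv (.dbl 11 3 56) .nd))) (.rp 7 (.str 52 (.nv (.thr 31 16 (.thr 29 30 (.dbl 61 1 45))) (.nv (.thr 12 14 (.thr 60 44 (.dbl 56 11 48))) .nd))) .nd))))) (.rp 9 (.thr 14 12 (.thr 10 58 (.thr 0 5 (.thr 1 61 (.dbl 2 3 6))))) (.rp 7 (.str 52 (.nv (.thr 56 11 (.thr 61 1 (.thr 45 29 (.dbl 60 30 48)))) (.nv (.thr 10 58 (.thr 5 0 (.dbl 1 9 61))) (.rp 61 (.thr 10 58 (.thr 11 56 (.thr 9 8 (.dbl 5 0 1)))) (.rp 48 (.thr 1 61 (.thr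 5 9 (.dbl 10 0 58))) (.rp 28 (.str 19 (.nv (.thr 11 56 (.thr 31 16 (.thr 27 23 (.dbl 43 40 59)))) (.nv (.thr 10 58 (.thr 5 0 (.dbl 1 9 61))) .nd))) (.rp 19 (.str 28 (.nv (.thr 31 16 (.thr 29 30 (.dbl 61 1 45))) (.nv (.thr 12 14 (.thr 60 44 (.dbl 56 11 48))) .nd))) (.rp 1 (.thr 12 14 (.thr 10 58 (.thr 11 56 (.thr 8 9 (.dbl 0 4 5))))) .nd)))))))) (.rp 5 (.thr 12 14 (.thr 11 56 (.thr 10 58 (.thr 9 8 (.dbl 3 6 7))))) (.rp 1 (.thr 12 14 (.thr 11 56 (.thr 10 58 (.thr 8 9 (.dbl 0 4 5))))) .nd)))))))))))) (.rp 48 (.thr 43 40 (.thr 11 56 (.thr 27 59 (.thr 31 16 (.thr 19 23 (.thr 51 39 (.dbl 3 7 35))))))) (.rp 28 (.str 19 (.nv (.thr 1 61 (.thr 10 58 (.thr 0 5 (.thr 3 2 (.dbl 11 7 56))))) (.nv (.thr 43 40 (.thr 31 16 (.thr 27 23 (.dbl 11 56 59)))) (.rp 56 (.thr 31 16 (.thr 27 23 (.thr 51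 39 (.thr 3 35 (.thr 43 40 (.dbl 11 7 59)))))) (.rp 52 (.str 7 (.nv (.dbl 11 3 56) (.rp 56 (.thr 3 11 (.thr 51 35 (.thr 27 39 (.dbl 31 16 23)))) (.rp 49 (.str 13 (.nv (.thr 1 61 (.thr 5 9 (.dbl 10 0 58))) (.nv (.dbl 11 3 56) .nd))) (.rp 13 (.str 49 (.nv (.thr 1 61 (.thr 16 31 (.dbl 17 18 33))) (.nv (.dbl 11 3 56) .nd))) (.rp 11 (.thr 1 61 (.thr 10 58 (.thr 5 0 (.thr 13 9 (.thr 6 4 (.dbl 14 2 12)))))) (.rp 3 (.thr 31 16 (.thr 27 23 (.thr 43 40 (.dbl 11 56 59)))) .nd))))))) (.rp 49 (.str 13 (.nv (.thr 11 56 (.thr 31 16 (.thr 27 23 (.dbl 43 40 59)))) (.nv (.thr 10 58 (.thr 5 0 (.dbl 1 9 61))) (.rp 52 (.str 7 (.nv (.thr 1 61 (.thr 5 9 (.dbl 10 0 58))) (.nv (.dbl 11 3 56) .nd))) (.rp 7 (.str 52 (.nv (.thr 11 56 (.thr 31 16 (.thr 27 23 (.dbl 43 40 59)))) (.nv (.thr 10 58 (.thr 5 0 (.dbl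 1 9 61))) .nd))) .nd))))) (.rp 13 (.str 49 (.nv (.thr 56 11 (.thr 58 10 (.thr 57 59 (.dbl 61 1 53)))) (.nv (.thr 11 56 (.thr 31 16 (.thr 27 23 (.dbl 43 40 59)))) (.nv (.thr 16 31 (.thr 17 18 (.dbl 1 33 61))) (.rp 52 (.str 7 (.nv (.thr 1 61 (.thr 16 31 (.dbl 17 18 33))) (.nv (.dbl 11 3 56) .nd))) (.rp 7 (.str 52 (.nv (.thr 10 58 (.thr 0 5 (.thr 40 43 (.thr 56 11 (.dbl 60 20 48))))) (.nv (.thr 16 31 (.thr 17 18 (.dbl 1 33 61))) (.rp 1 (.thr 43 40 (.thr 31 16 (.thr 27 23 (.dbl 11 56 59)))) .nd)))) .nd)))))) (.rp 11 (.thr 1 61 (.thr 10 58 (.thr 31 16 (.thr 27 23 (.thr 51 39 (.thr 3 35 (.dbl 0 2 5))))))) (.rp 7 (.str 52 (.nv (.thr 10 58 (.thr 0 5 (.thr 16 31 (.thr 40 43 (.thr 48 32 (.dbl 60 20 56)))))) (.nv (.thr 1 61 (.thr 10 58 (.thr 5 0 (.thr 11 56 (.dbl 9 8 13))))) (.nv (.thr 11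 56 (.thr 31 16 (.thr 43 40 (.dbl 27 23 59)))) (.rp 56 (.thr 31 16 (.thr 27 23 (.thr 10 58 (.thr 1 61 (.thr 0 5 (.thr 3 2 (.dbl 51 35 39))))))) (.rp 49 (.str 13 (.nv (.thr 11 56 (.thr 31 16 (.thr 27 23 (.dbl 43 40 59)))) (.nv (.thr 10 58 (.thr 5 0 (.dbl 1 9 61))) .nd))) (.rp 13 (.str 49 (.nv (.thr 10 58 (.thr 0 5 (.thr 40 43 (.thr 56 11 (.dbl 60 20 48))))) (.nv (.thr 16 31 (.thr 17 18 (.dbl 1 33 61))) (.rp 1 (.thr 43 40 (.thr 31 16 (.thr 27 23 (.dbl 11 56 59)))) .nd)))) .nd))))))) .nd))))))))) (.rp 19 (.str 28 (.nv (.thr 10 58 (.thr 0 5 (.thr 16 31 (.thr 20 24 (.dbl 40 43 60))))) (.nv (.thr 1 61 (.thr 10 58 (.thr 0 5 (.thr 3 2 (.dbl 11 7 56))))) (.nv (.thr 16 31 (.thr 24 20 (.thr 56 11 (.dbl 40 8 43)))) (.rp 52 (.str 7 (.nv (.dbl 11 3 56) (.rp 56 (.thr 10 58 (.thr 0 5 (.thr 1 61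 (.dbl 3 2 11)))) (.rp 49 (.str 13 (.nv (.thr 1 61 (.thr 5 9 (.dbl 10 0 58))) (.nv (.dbl 11 3 56) .nd))) (.rp 13 (.str 49 (.nv (.dbl 11 3 56) (.rp 56 (.thr 3 11 (.thr 1 61 (.thr 10 58 (.dbl 0 2 5)))) (.rp 11 (.thr 10 58 (.thr 40 43 (.thr 16 31 (.thr 20 24 (.dbl 0 5 60))))) (.rp 3 (.thr 61 1 (.thr 57 53 (.thr 58 10 (.dbl 56 11 59)))) .nd))))) (.rp 11 (.thr 40 43 (.thr 10 58 (.thr 0 5 (.thr 20 60 (.dbl 16 24 31))))) (.rp 3 (.thr 56 11 (.thr 16 31 (.thr 24 20 (.dbl 40 8 43)))) .nd))))))) (.rp 49 (.str 13 (.nv (.thr 12 14 (.thr 31 16 (.thr 30 29 (.dbl 60 44 45)))) (.nv (.thr 10 58 (.thr 5 0 (.dbl 1 9 61))) (.rp 52 (.str 7 (.nv (.thr 1 61 (.thr 5 9 (.dbl 10 0 58))) (.nv (.dbl 11 3 56) .nd))) (.rp 7 (.str 52 (.nv (.thr 31 16 (.thr 29 30 (.dbl 61 1 45))) (.nv (.thr 12 14 (.thr 60 44 (.dbl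 56 11 48))) .nd))) .nd))))) (.rp 13 (.str 49 (.nv (.thr 10 58 (.thr 0 5 (.thr 16 31 (.thr 20 24 (.dbl 40 43 60))))) (.nv (.thr 16 31 (.thr 24 20 (.thr 40 43 (.dbl 56 8 11)))) (.nv (.thr 56 11 (.thr 61 1 (.thr 57 53 (.dbl 58 10 59)))) (.rp 52 (.str 7 (.nv (.dbl 11 3 56) (.rp 56 (.thr 3 11 (.thr 1 61 (.thr 10 58 (.dbl 0 2 5)))) (.rp 11 (.thr 10 58 (.thr 40 43 (.thr 16 31 (.thr 20 24 (.dbl 0 5 60))))) (.rp 3 (.thr 61 1 (.thr 57 53 (.thr 58 10 (.dbl 56 11 59)))) .nd))))) (.rp 7 (.str 52 (.nv (.thr 10 58 (.thr 0 5 (.thr 16 31 (.thr 20 24 (.dbl 40 43 60))))) (.nv (.thr 16 31 (.thr 24 20 (.thr 40 43 (.dbl 56 8 11)))) (.nv (.thr 61 1 (.thr 57 53 (.thr 58 10 (.dbl 56 11 59)))) .nd)))) .nd)))))) (.rp 7 (.str 52 (.nv (.thr 10 58 (.thr 0 5 (.thr 16 31 (.thr 20 24 (.dbl 40 43 60))))) (.nv (.thr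 1 61 (.thr 10 58 (.thr 5 0 (.thr 11 56 (.dbl 9 8 13))))) (.nv (.thr 16 31 (.thr 24 20 (.thr 56 11 (.dbl 40 8 43)))) (.rp 49 (.str 13 (.nv (.thr 31 16 (.thr 29 30 (.dbl 61 1 45))) (.nv (.thr 12 14 (.thr 60 44 (.dbl 56 11 48))) .nd))) (.rp 13 (.str 49 (.nv (.thr 10 58 (.thr 0 5 (.thr 16 31 (.thr 20 24 (.dbl 40 43 60))))) (.nv (.thr 16 31 (.thr 24 20 (.thr 40 43 (.dbl 56 8 11)))) (.nv (.thr 61 1 (.thr 57 53 (.thr 58 10 (.dbl 56 11 59)))) .nd)))) .nd)))))) .nd)))))))) (.rp 13 (.str 49 (.nv (.thr 1 61 (.thr 10 58 (.thr 0 5 (.thr 3 2 (.dbl 11 7 56))))) (.nv (.thr 61 1 (.thr 57 53 (.thr 58 10 (.dbl 56 11 59)))) (.rp 61 (.thr 10 58 (.thr 16 31 (.thr 0 5 (.thr 48 32 (.thr 56 11 (.thr 40 43 (.dbl 60 20 52))))))) (.rp 58 (.thr 56 11 (.str 48 (.nv (.thr 16 31 (.thr 32 0 (.thr 40 43 (.thr 36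 44 (.dbl 24 8 12))))) (.nv (.thr 51 50 (.thr 61 1 (.thr 57 53 (.dbl 60 52 54)))) (.rp 52 (.str 7 (.nv (.thr 1 61 (.thr 33 17 (.thr 18 3 (.thr 50 51 (.thr 34 2 (.dbl 38 14 46)))))) (.nv (.thr 16 31 (.thr 32 0 (.thr 40 43 (.thr 24 8 (.dbl 36 12 44))))) (.nv (.thr 1 61 (.thr 16 31 (.thr 0 32 (.thr 3 2 (.dbl 33 17 18))))) (.rp 28 (.str 19 (.nv (.thr 43 40 (.thr 51 50 (.thr 35 3 (.dbl 39 27 47)))) (.nv (.thr 16 31 (.thr 17 18 (.dbl 1 33 61))) .nd))) (.rp 19 (.str 28 (.nv (.thr 1 61 (.thr 17 33 (.thr 51 50 (.thr 0 34 (.dbl 16 31 32))))) (.nv (.thr 16 31 (.thr 24 20 (.dbl 40 8 43))) (.rp 31 (.thr 40 43 (.thr 24 8 (.thr 20 16 (.thr 12 36 (.dbl 60 0 44))))) (.rp 16 (.thr 51 50 (.thr 43 40 (.thr 39 27 (.thr 35 47 (.thr 38 44 (.dbl 55 4 23)))))) .nd))))) (.rp 3 (.thr 51 50 (.thr 16 31 (.thr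 0 32 (.thr 17 34 (.dbl 1 33 61))))) .nd))))))) (.rp 28 (.str 19 (.nv (.thr 43 40 (.thr 51 50 (.thr 35 3 (.dbl 39 27 47)))) (.nv (.thr 16 31 (.thr 17 18 (.dbl 1 33 61))) (.rp 52 (.str 7 (.nv (.thr 43 40 (.thr 51 50 (.thr 35 3 (.dbl 39 27 47)))) (.nv (.thr 16 31 (.thr 17 18 (.dbl 1 33 61))) .nd))) (.rp 7 (.thr 52 60 (.thr 51 50 (.thr 31 16 (.dbl 27 23 39)))) .nd))))) (.rp 19 (.str 28 (.nv (.thr 51 50 (.thr 61 1 (.thr 57 53 (.dbl 60 52 54)))) (.nv (.thr 16 31 (.thr 24 20 (.dbl 40 8 43))) (.rp 52 (.str 7 (.nv (.thr 1 61 (.thr 17 33 (.thr 51 50 (.thr 0 34 (.dbl 16 31 32))))) (.nv (.thr 16 31 (.thr 24 20 (.dbl 40 8 43))) (.rp 31 (.thr 40 43 (.thr 24 8 (.thr 20 16 (.thr 12 36 (.dbl 60 0 44))))) (.rp 16 (.thr 51 50 (.thr 43 40 (.thr 39 27 (.thr 35 47 (.thr 38 44 (.dbl 55 4 23)))))) .nd)))))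 (.rp 7 (.thr 52 60 (.thr 40 43 (.thr 24 8 (.dbl 16 20 31)))) .nd))))) (.rp 7 (.thr 52 60 (.thr 40 43 (.thr 24 8 (.thr 16 31 (.thr 32 0 (.dbl 36 12 44)))))) .nd)))))))) (.rp 56 (.thr 1 61 (.thr 17 33 (.thr 10 58 (.thr 16 31 (.thr 0 5 (.thr 51 34 (.dbl 48 32 50))))))) (.rp 53 (.thr 31 16 (.thr 11 56 (.thr 43 40 (.thr 27 59 (.thr 19 23 (.thr 51 39 (.dbl 3 7 35))))))) (.rp 52 (.str 7 (.nv (.dbl 11 3 56) (.rp 56 (.thr 3 11 (.thr 1 61 (.thr 10 58 (.dbl 0 2 5)))) (.rp 28 (.str 19 (.nv (.thr 1 61 (.thr 16 31 (.dbl 17 18 33))) (.nv (.dbl 11 3 56) .nd))) (.rp 19 (.str 28 (.nv (.dbl 11 3 56) (.rp 56 (.thr 3 11 (.thr 1 61 (.thr 10 58 (.dbl 0 2 5)))) (.rp 11 (.thr 10 58 (.thr 40 43 (.thr 16 31 (.thr 20 24 (.dbl 0 5 60))))) (.rp 3 (.thr 61 1 (.thr 57 53 (.thr 58 10 (.dbl 56 11 59)))) .nd)))))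 (.rp 11 (.thr 1 61 (.thr 17 33 (.thr 10 58 (.thr 16 31 (.thr 0 5 (.thr 51 34 (.dbl 48 32 50))))))) (.rp 3 (.thr 61 1 (.thr 57 53 (.thr 58 10 (.dbl 56 11 59)))) .nd))))))) (.rp 28 (.str 19 (.nv (.thr 56 11 (.thr 58 10 (.thr 57 59 (.dbl 61 1 53)))) (.nv (.thr 11 56 (.thr 31 16 (.thr 27 23 (.dbl 43 40 59)))) (.nv (.thr 16 31 (.thr 17 18 (.dbl 1 33 61))) (.rp 52 (.str 7 (.nv (.thr 1 61 (.thr 16 31 (.dbl 17 18 33))) (.nv (.dbl 11 3 56) .nd))) (.rp 7 (.str 52 (.nv (.thr 10 58 (.thr 0 5 (.thr 40 43 (.thr 56 11 (.dbl 60 20 48))))) (.nv (.thr 16 31 (.thr 17 18 (.dbl 1 33 61))) (.rp 1 (.thr 43 40 (.thr 31 16 (.thr 27 23 (.dbl 11 56 59)))) .nd)))) .nd)))))) (.rp 19 (.str 28 (.nv (.thr 10 58 (.thr 0 5 (.thr 16 31 (.thr 20 24 (.dbl 40 43 60))))) (.nv (.thr 16 31 (.thr 24 20 (.thr 40 43 (.dbl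 56 8 11)))) (.nv (.thr 56 11 (.thr 61 1 (.thr 57 53 (.dbl 58 10 59)))) (.rp 52 (.str 7 (.nv (.dbl 11 3 56) (.rp 56 (.thr 3 11 (.thr 1 61 (.thr 10 58 (.dbl 0 2 5)))) (.rp 11 (.thr 10 58 (.thr 40 43 (.thr 16 31 (.thr 20 24 (.dbl 0 5 60))))) (.rp 3 (.thr 61 1 (.thr 57 53 (.thr 58 10 (.dbl 56 11 59)))) .nd))))) (.rp 7 (.str 52 (.nv (.thr 10 58 (.thr 0 5 (.thr 16 31 (.thr 20 24 (.dbl 40 43 60))))) (.nv (.thr 16 31 (.thr 24 20 (.thr 40 43 (.dbl 56 8 11)))) (.nv (.thr 61 1 (.thr 57 53 (.thr 58 10 (.dbl 56 11 59)))) .nd)))) .nd)))))) (.rp 11 (.thr 1 61 (.thr 17 33 (.thr 10 58 (.thr 16 31 (.thr 0 5 (.thr 51 34 (.dbl 48 32 50))))))) (.rp 10 (.thr 31 16 (.thr 11 56 (.thr 43 40 (.thr 27 59 (.thr 19 23 (.thr 51 39 (.dbl 3 7 35))))))) (.rp 7 (.str 52 (.nv (.thr 10 58 (.thr 0 5 (.thr 16 31 (.thr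 40 43 (.thr 48 32 (.dbl 60 20 56)))))) (.nv (.thr 16 31 (.thr 56 11 (.thr 10 58 (.thr 48 60 (.dbl 0 5 32))))) (.nv (.thr 61 1 (.thr 57 53 (.thr 58 10 (.dbl 56 11 59)))) (.rp 58 (.thr 61 1 (.thr 53 57 (.thr 56 11 (.thr 55 54 (.thr 38 4 (.thr 50 14 (.dbl 48 51 60))))))) (.rp 56 (.thr 1 61 (.thr 17 33 (.thr 10 58 (.thr 0 5 (.thr 16 31 (.thr 48 32 (.dbl 51 34 50))))))) (.rp 28 (.str 19 (.nv (.thr 10 58 (.thr 0 5 (.thr 40 43 (.thr 56 11 (.dbl 60 20 48))))) (.nv (.thr 16 31 (.thr 17 18 (.dbl 1 33 61))) (.rp 1 (.thr 43 40 (.thr 31 16 (.thr 27 23 (.dbl 11 56 59)))) .nd)))) (.rp 19 (.str 28 (.nv (.thr 10 58 (.thr 0 5 (.thr 16 31 (.thr 20 24 (.dbl 40 43 60))))) (.nv (.thr 16 31 (.thr 24 20 (.thr 40 43 (.dbl 56 8 11)))) (.nv (.thr 61 1 (.thr 57 53 (.thr 58 10 (.dbl 56 11 59)))) .nd)))) (.rp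 10 (.thr 16 31 (.thr 56 11 (.thr 60 48 (.thr 40 43 (.thr 20 0 (.dbl 24 8 28)))))) (.rp 5 (.thr 58 10 (.thr 56 11 (.thr 57 59 (.dbl 61 1 53)))) .nd)))))))))) (.rp 5 (.thr 58 10 (.thr 56 11 (.thr 57 59 (.dbl 61 1 53)))) (.rp 1 (.thr 31 16 (.thr 11 56 (.thr 43 40 (.thr 27 59 (.thr 19 23 (.thr 51 39 (.dbl 3 7 35))))))) .nd))))))))))))))) (.rp 11 (.thr 10 58 (.thr 5 0 (.thr 1 61 (.thr 13 9 (.thr 14 12 (.thr 6 2 (.thr 38 50 (.dbl 4 7 55)))))))) (.rp 10 (.thr 43 40 (.thr 11 56 (.thr 27 59 (.thr 31 16 (.thr 19 23 (.thr 51 39 (.dbl 3 7 35))))))) (.rp 7 (.str 52 (.nv (.thr 10 58 (.thr 0 5 (.thr 40 43 (.thr 56 11 (.dbl 60 20 48))))) (.nv (.thr 16 31 (.thr 56 11 (.thr 10 58 (.thr 48 60 (.dbl 0 5 32))))) (.rp 60 (.thr 10 58 (.thr 11 56 (.thr 9 8 (.thr 5 0 (.dbl 1 13 61))))) (.rp 58 (.thr 56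 11 (.thr 40 43 (.thr 24 8 (.thr 16 31 (.thr 48 60 (.thr 36 12 (.dbl 20 4 28))))))) (.rp 56 (.thr 10 58 (.thr 40 43 (.thr 0 5 (.thr 20 60 (.thr 4 36 (.thr 38 55 (.thr 12 8 (.dbl 14 13 50)))))))) (.rp 49 (.str 13 (.nv (.thr 56 11 (.thr 61 1 (.thr 45 29 (.dbl 60 30 48)))) (.nv (.thr 10 58 (.thr 5 0 (.dbl 1 9 61))) (.rp 61 (.thr 10 58 (.thr 11 56 (.thr 9 8 (.dbl 5 0 1)))) (.rp 48 (.thr 1 61 (.thr 5 9 (.dbl 10 0 58))) (.rp 28 (.str 19 (.nv (.thr 11 56 (.thr 31 16 (.thr 27 23 (.dbl 43 40 59)))) (.nv (.thr 10 58 (.thr 5 0 (.dbl 1 9 61))) .nd))) (.rp 19 (.str 28 (.nv (.thr 31 16 (.thr 29 30 (.dbl 61 1 45))) (.nv (.thr 12 14 (.thr 60 44 (.dbl 56 11 48))) .nd))) (.rp 1 (.thr 12 14 (.thr 10 58 (.thr 11 56 (.thr 8 9 (.dbl 0 4 5))))) .nd)))))))) (.rp 48 (.thr 61 1 (.thr 58 10 (.str 13 (.nv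 (.thr 45 29 (.thr 56 11 (.thr 57 59 (.thr 53 49 (.thr 60 30 (.dbl 54 51 55)))))) (.nv (.thr 14 12 (.thr 38 50 (.thr 4 55 (.thr 36 20 (.thr 40 43 (.dbl 44 32 35)))))) (.nv (.thr 12 14 (.thr 40 43 (.thr 45 29 (.thr 56 11 (.thr 8 24 (.thr 0 4 (.dbl 60 20 30))))))) (.nv (.thr 45 29 (.thr 30 60 (.thr 14 12 (.thr 46 62 (.dbl 38 34 50))))) (.rp 29 (.thr 56 11 (.thr 57 59 (.thr 53 49 (.thr 55 54 (.thr 38 4 (.dbl 14 12 50)))))) (.rp 28 (.str 19 (.nv (.thr 14 12 (.thr 38 50 (.thr 44 35 (.thr 46 34 (.dbl 45 29 47))))) (.nv (.thr 11 56 (.thr 43 40 (.thr 27 59 (.dbl 31 16 23)))) (.rp 51 (.thr 11 56 (.thr 31 16 (.thr 27 23 (.dbl 43 40 59)))) (.rp 24 (.thr 56 11 (.thr 57 59 (.thr 53 49 (.thr 55 54 (.thr 38 4 (.dbl 14 12 50)))))) .nd))))) (.rp 19 (.str 28 (.nv (.thr 12 14 (.thr 45 29 (.dbl 60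 30 44))) (.nv (.thr 16 31 (.thr 24 20 (.thr 40 43 (.dbl 56 8 11)))) (.nv (.thr 29 45 (.dbl 31 16 30)) .nd)))) (.rp 12 (.thr 56 11 (.thr 57 59 (.thr 53 49 (.thr 55 54 (.thr 38 4 (.thr 45 29 (.thr 46 34 (.dbl 44 35 47)))))))) .nd))))))))))) (.rp 28 (.str 19 (.nv (.thr 10 58 (.thr 0 5 (.thr 16 31 (.thr 40 43 (.thr 48 32 (.dbl 60 20 56)))))) (.nv (.thr 1 61 (.thr 10 58 (.thr 5 0 (.thr 11 56 (.dbl 9 8 13))))) (.nv (.thr 11 56 (.thr 31 16 (.thr 43 40 (.dbl 27 23 59)))) (.rp 56 (.thr 31 16 (.thr 27 23 (.thr 10 58 (.thr 1 61 (.thr 0 5 (.thr 3 2 (.dbl 51 35 39))))))) (.rp 49 (.str 13 (.nv (.thr 11 56 (.thr 31 16 (.thr 27 23 (.dbl 43 40 59)))) (.nv (.thr 10 58 (.thr 5 0 (.dbl 1 9 61))) .nd))) (.rp 13 (.str 49 (.nv (.thr 10 58 (.thr 0 5 (.thr 40 43 (.thr 56 11 (.dbl 60 20 48))))) (.nv (.thr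 16 31 (.thr 17 18 (.dbl 1 33 61))) (.rp 1 (.thr 43 40 (.thr 31 16 (.thr 27 23 (.dbl 11 56 59)))) .nd)))) .nd))))))) (.rp 19 (.str 28 (.nv (.thr 10 58 (.thr 0 5 (.thr 16 31 (.thr 20 24 (.dbl 40 43 60))))) (.nv (.thr 1 61 (.thr 10 58 (.thr 5 0 (.thr 11 56 (.dbl 9 8 13))))) (.nv (.thr 16 31 (.thr 24 20 (.thr 56 11 (.dbl 40 8 43)))) (.rp 49 (.str 13 (.nv (.thr 31 16 (.thr 29 30 (.dbl 61 1 45))) (.nv (.thr 12 14 (.thr 60 44 (.dbl 56 11 48))) .nd))) (.rp 13 (.str 49 (.nv (.thr 10 58 (.thr 0 5 (.thr 16 31 (.thr 20 24 (.dbl 40 43 60))))) (.nv (.thr 16 31 (.thr 24 20 (.thr 40 43 (.dbl 56 8 11)))) (.nv (.thr 61 1 (.thr 57 53 (.thr 58 10 (.dbl 56 11 59)))) .nd)))) .nd)))))) (.rp 13 (.str 49 (.nv (.thr 10 58 (.thr 0 5 (.thr 16 31 (.thr 40 43 (.thr 48 32 (.dbl 60 20 56)))))) (.nv (.thr 16 31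 (.thr 56 11 (.thr 10 58 (.thr 48 60 (.dbl 0 5 32))))) (.nv (.thr 61 1 (.thr 57 53 (.thr 58 10 (.dbl 56 11 59)))) (.rp 58 (.thr 61 1 (.thr 53 57 (.thr 56 11 (.thr 55 54 (.thr 38 4 (.thr 50 14 (.dbl 48 51 60))))))) (.rp 56 (.thr 1 61 (.thr 17 33 (.thr 10 58 (.thr 0 5 (.thr 16 31 (.thr 48 32 (.dbl 51 34 50))))))) (.rp 28 (.str 19 (.nv (.thr 10 58 (.thr 0 5 (.thr 40 43 (.thr 56 11 (.dbl 60 20 48))))) (.nv (.thr 16 31 (.thr 17 18 (.dbl 1 33 61))) (.rp 1 (.thr 43 40 (.thr 31 16 (.thr 27 23 (.dbl 11 56 59)))) .nd)))) (.rp 19 (.str 28 (.nv (.thr 10 58 (.thr 0 5 (.thr 16 31 (.thr 20 24 (.dbl 40 43 60))))) (.nv (.thr 16 31 (.thr 24 20 (.thr 40 43 (.dbl 56 8 11)))) (.nv (.thr 61 1 (.thr 57 53 (.thr 58 10 (.dbl 56 11 59)))) .nd)))) (.rp 10 (.thr 16 31 (.thr 56 11 (.thr 60 48 (.thr 40 43 (.thr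 20 0 (.dbl 24 8 28)))))) (.rp 5 (.thr 58 10 (.thr 56 11 (.thr 57 59 (.dbl 61 1 53)))) .nd)))))))))) (.rp 11 (.thr 10 58 (.thr 40 43 (.thr 0 5 (.thr 60 20 (.thr 16 31 (.dbl 48 32 56)))))) (.rp 10 (.thr 56 11 (.thr 40 43 (.thr 16 31 (.thr 60 48 (.thr 20 0 (.dbl 24 8 28)))))) (.rp 5 (.thr 56 11 (.thr 40 43 (.thr 24 8 (.thr 16 31 (.thr 60 48 (.dbl 20 0 28)))))) (.rp 0 (.thr 58 10 (.thr 56 11 (.thr 57 59 (.thr 60 48 (.thr 54 51 (.thr 55 53 (.thr 38 4 (.dbl 50 14 62)))))))) .nd))))))))))))))) (.rp 5 (.thr 43 40 (.thr 11 56 (.thr 27 59 (.thr 31 16 (.thr 19 23 (.thr 51 39 (.dbl 3 7 35))))))) (.rp 1 (.thr 40 43 (.thr 56 11 (.thr 24 8 (.thr 10 58 (.thr 0 5 (.thr 20 60 (.dbl 16 28 31))))))) (.rp 0 (.thr 43 40 (.thr 11 56 (.thr 27 59 (.thr 31 16 (.thr 19 23 (.thr 51 39 (.dbl 3 7 35)))))))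 .nd)))))))))))))))))))

theorem w432 : WinAt (4398115749888, 9223372174331478016) :=
  chF (K := []) kn c432 4398115749888 9223372174331478016 37
    [306708480, 563087425937408, 4503737070518400] (by decide +kernel) (by decide +kernel)

/-- A certificate. -/
noncomputable def c433 : Ct := (.str 26 (.nv (.thr 31 16 (.thr 63 0 (.thr 15 47 (.thr 58 10 (.dbl 48 37 53))))) (.rp 63 (.str 15 (.nv (.thr 10 58 (.thr 5 0 (.dbl 37 48 53))) (.rp 58 (.thr 37 48 (.thr 53 5 (.str 38 (.nv (.thr 14 50 (.thr 46 34 (.thr 47 32 (.thr 45 44 (.dbl 30 60 62))))) (.nv (.thr 31 16 (.thr 39 36 (.thr 27 51 (.thr 55 4 (.dbl 23 7 19))))) (.nv (.thr 32 47 (.thr 36 39 (.thr 34 46 (.thr 44 40 (.dbl 35 33 41))))) (.rp 36 (.thr 55 4 (.thr 47 32 (.thr 46 34 (.thr 44 45 (.thr 35 41 (.thr 39 43 (.thr 7 23 (.thr 3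 11 (.dbl 51 19 27))))))))) (.rp 32 (.thr 4 55 (.thr 39 36 (.thr 14 50 (.thr 12 13 (.thr 0 8 (.thr 34 46 (.dbl 51 17 27))))))) (.rp 28 (.str 19 (.nv (.thr 39 36 (.thr 51 27 (.thr 35 3 (.dbl 47 32 43)))) (.nv (.thr 16 31 (.thr 18 17 (.thr 50 14 (.dbl 34 2 46)))) (.rp 18 (.thr 31 16 (.thr 27 23 (.dbl 39 36 51))) .nd)))) (.rp 19 (.str 28 (.nv (.thr 14 50 (.thr 12 13 (.thr 46 34 (.thr 60 44 (.dbl 30 45 62))))) (.nv (.thr 16 31 (.thr 20 24 (.thr 36 39 (.dbl 4 52 55)))) .nd))) .nd)))))))))) (.rp 53 (.thr 16 31 (.thr 10 58 (.thr 48 37 (.dbl 0 5 32)))) (.rp 48 (.str 41 (.nv (.thr 11 56 (.thr 3 7 (.thr 43 40 (.thr 27 59 (.thr 51 39 (.thr 19 35 (.dbl 31 16 23))))))) (.nv (.thr 11 56 (.thr 1 61 (.thr 3 7 (.thr 0 2 (.dbl 10 5 58))))) (.rp 60 (.thr 43 40 (.thr 56 11 (.thr 58 10 (.thr 57 59 (.thr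 61 1 (.thr 53 49 (.thr 37 5 (.thr 47 32 (.thr 35 39 (.thr 44 38 (.dbl 45 33 46))))))))))) (.rp 58 (.str 53 (.nv (.thr 40 43 (.thr 37 5 (.thr 33 45 (.thr 32 47 (.thr 35 34 (.dbl 44 36 38)))))) (.nv (.thr 1 61 (.thr 11 56 (.thr 3 7 (.thr 0 2 (.dbl 5 10 37))))) (.rp 37 (.thr 56 11 (.thr 61 1 (.str 12 (.nv (.thr 40 43 (.thr 8 24 (.thr 4 0 (.thr 38 55 (.dbl 14 13 50))))) (.nv (.thr 13 14 (.thr 16 31 (.thr 45 29 (.thr 60 30 (.thr 28 44 (.thr 20 24 (.dbl 40 0 43))))))) (.rp 52 (.str 7 (.nv (.thr 13 14 (.thr 16 31 (.thr 40 43 (.thr 24 8 (.thr 28 20 (.thr 45 29 (.dbl 60 30 44))))))) (.nv (.thr 14 13 (.thr 49 57 (.thr 38 50 (.thr 4 55 (.thr 5 6 (.dbl 0 8 10)))))) (.nv (.thr 13 14 (.thr 16 31 (.thr 45 29 (.thr 60 30 (.thr 28 44 (.thr 20 24 (.dbl 40 0 43))))))) (.rp 28 (.str 19 (.nv (.thr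 14 13 (.thr 49 57 (.thr 38 50 (.thr 35 44 (.thr 43 40 (.thr 39 47 (.dbl 51 3 27))))))) (.nv (.thr 13 14 (.thr 40 43 (.thr 8 24 (.thr 0 4 (.thr 45 29 (.dbl 60 20 30)))))) (.nv (.thr 14 13 (.thr 49 57 (.thr 38 50 (.thr 4 55 (.thr 5 6 (.dbl 0 8 10)))))) (.rp 14 (.thr 40 43 (.thr 8 24 (.thr 4 0 (.thr 6 5 (.thr 38 55 (.thr 35 44 (.dbl 3 9 51))))))) (.rp 13 (.thr 49 57 (.thr 40 43 (.thr 8 24 (.thr 4 0 (.thr 38 55 (.thr 34 46 (.thr 50 14 (.thr 16 31 (.dbl 18 2 17))))))))) .nd)))))) (.rp 19 (.str 28 (.nv (.thr 40 43 (.thr 8 24 (.thr 0 4 (.dbl 60 20 44)))) (.nv (.thr 13 14 (.thr 29 45 (.dbl 31 16 30))) (.rp 13 (.thr 49 57 (.thr 60 44 (.thr 30 45 (.dbl 31 16 29)))) .nd)))) (.rp 14 (.thr 40 43 (.thr 8 24 (.thr 4 0 (.thr 38 55 (.thr 46 34 (.thr 44 35 (.thr 28 60 (.thr 32 36 (.thr 31 16 (.thr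 29 30 (.dbl 45 13 47))))))))))) (.rp 13 (.thr 49 57 (.thr 40 43 (.thr 8 24 (.thr 4 0 (.thr 38 55 (.thr 46 34 (.thr 14 50 (.thr 44 35 (.thr 28 60 (.thr 32 36 (.thr 31 16 (.dbl 30 29 62)))))))))))) .nd)))))))) (.rp 43 (.thr 14 13 (.thr 49 57 (.thr 31 16 (.thr 38 50 (.thr 46 34 (.thr 44 35 (.thr 28 60 (.dbl 30 29 62)))))))) (.rp 40 (.thr 14 13 (.thr 49 57 (.thr 38 50 (.thr 46 34 (.thr 44 35 (.thr 45 47 (.dbl 60 28 30))))))) (.rp 28 (.str 19 (.nv (.thr 40 43 (.thr 8 24 (.thr 4 0 (.thr 38 55 (.dbl 14 13 50))))) (.nv (.thr 14 13 (.thr 49 57 (.thr 38 50 (.thr 44 35 (.thr 46 34 (.thr 45 47 (.dbl 30 60 62))))))) (.nv (.thr 13 14 (.thr 45 29 (.thr 40 43 (.thr 8 24 (.thr 0 4 (.dbl 60 20 30)))))) (.rp 52 (.str 7 (.nv (.thr 14 13 (.thr 49 57 (.thr 38 50 (.thr 35 44 (.thr 43 40 (.thr 39 47 (.dbl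 51 3 27))))))) (.nv (.thr 13 14 (.thr 40 43 (.thr 8 24 (.thr 0 4 (.thr 45 29 (.dbl 60 20 30)))))) (.nv (.thr 14 13 (.thr 49 57 (.thr 38 50 (.thr 4 55 (.thr 5 6 (.dbl 0 8 10)))))) (.rp 14 (.thr 40 43 (.thr 8 24 (.thr 4 0 (.thr 6 5 (.thr 38 55 (.thr 35 44 (.dbl 3 9 51))))))) (.rp 13 (.thr 49 57 (.thr 40 43 (.thr 8 24 (.thr 4 0 (.thr 38 55 (.thr 34 46 (.thr 50 14 (.thr 16 31 (.dbl 18 2 17))))))))) .nd)))))) (.rp 43 (.thr 13 14 (.thr 45 29 (.thr 60 30 (.thr 31 16 (.thr 57 49 (.thr 51 54 (.dbl 27 23 39))))))) (.rp 14 (.thr 40 43 (.thr 8 24 (.thr 0 4 (.thr 60 20 (.thr 16 31 (.thr 17 18 (.thr 51 34 (.dbl 57 49 54)))))))) (.rp 13 (.thr 49 57 (.thr 40 43 (.thr 8 24 (.thr 4 0 (.thr 38 55 (.thr 34 46 (.thr 50 14 (.thr 16 31 (.dbl 18 2 17))))))))) (.rp 7 (.str 52 (.nv (.thr 13 14 (.thr 45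 29 (.thr 54 55 (.thr 57 49 (.dbl 60 30 51))))) (.nv (.thr 49 57 (.thr 40 43 (.thr 8 24 (.thr 4 0 (.dbl 55 38 54))))) (.nv (.thr 55 54 (.thr 38 4 (.dbl 14 13 50))) (.rp 55 (.thr 13 14 (.thr 45 29 (.thr 40 43 (.thr 8 24 (.thr 0 4 (.dbl 60 20 30)))))) (.rp 54 (.thr 40 43 (.thr 8 24 (.thr 4 0 (.thr 38 55 (.dbl 14 13 50))))) (.rp 49 (.thr 13 14 (.thr 55 54 (.thr 40 43 (.thr 8 24 (.dbl 4 0 38))))) .nd))))))) .nd))))))))) (.rp 24 (.thr 14 13 (.thr 49 57 (.thr 38 50 (.thr 46 34 (.thr 44 35 (.thr 45 47 (.dbl 60 28 30))))))) (.rp 19 (.str 28 (.nv (.thr 40 43 (.thr 8 24 (.thr 0 4 (.dbl 60 20 44)))) (.nv (.thr 13 14 (.thr 29 45 (.dbl 31 16 30))) (.rp 52 (.str 7 (.nv (.thr 40 43 (.thr 8 24 (.thr 0 4 (.dbl 60 20 44)))) (.nv (.thr 13 14 (.thr 29 45 (.dbl 31 16 30))) (.rp 13 (.thr 49 57 (.thr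 60 44 (.thr 30 45 (.dbl 31 16 29)))) .nd)))) (.rp 13 (.thr 49 57 (.thr 60 44 (.thr 30 45 (.dbl 31 16 29)))) (.rp 7 (.str 52 (.nv (.thr 49 57 (.thr 44 60 (.thr 38 35 (.dbl 55 4 54)))) (.nv (.thr 13 14 (.thr 29 45 (.dbl 31 16 30))) .nd))) .nd)))))) (.rp 16 (.thr 13 14 (.thr 45 29 (.thr 60 30 (.thr 40 43 (.thr 8 24 (.dbl 0 4 20)))))) (.rp 14 (.thr 40 43 (.thr 8 24 (.thr 31 16 (.thr 0 4 (.thr 60 20 (.thr 28 44 (.dbl 30 29 45))))))) (.rp 13 (.thr 49 57 (.thr 40 43 (.thr 8 24 (.thr 31 16 (.thr 0 4 (.thr 60 20 (.thr 28 44 (.dbl 30 29 45)))))))) (.rp 7 (.str 52 (.nv (.thr 13 14 (.thr 45 29 (.thr 54 55 (.thr 57 49 (.dbl 60 30 51))))) (.nv (.thr 49 57 (.thr 40 43 (.thr 8 24 (.thr 4 0 (.dbl 55 38 54))))) (.nv (.thr 55 54 (.thr 38 4 (.dbl 14 13 50))) (.rp 55 (.thr 13 14 (.thr 45 29 (.thr 60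 30 (.thr 40 43 (.thr 8 24 (.dbl 0 4 20)))))) (.rp 54 (.thr 40 43 (.thr 8 24 (.thr 4 0 (.thr 38 55 (.dbl 14 13 50))))) (.rp 49 (.thr 13 14 (.thr 40 43 (.thr 8 24 (.thr 55 54 (.dbl 4 0 38))))) (.rp 28 (.str 19 (.nv (.thr 13 14 (.thr 45 29 (.thr 54 55 (.thr 57 49 (.dbl 60 30 51))))) (.nv (.thr 49 57 (.thr 40 43 (.thr 8 24 (.thr 4 0 (.dbl 55 38 54))))) (.nv (.thr 55 54 (.thr 38 4 (.dbl 14 13 50))) (.rp 55 (.thr 13 14 (.thr 45 29 (.thr 40 43 (.thr 8 24 (.thr 0 4 (.dbl 60 20 30)))))) (.rp 54 (.thr 40 43 (.thr 8 24 (.thr 4 0 (.thr 38 55 (.dbl 14 13 50))))) (.rp 49 (.thr 13 14 (.thr 55 54 (.thr 40 43 (.thr 8 24 (.dbl 4 0 38))))) .nd))))))) (.rp 19 (.str 28 (.nv (.thr 49 57 (.thr 44 60 (.thr 38 35 (.dbl 55 4 54)))) (.nv (.thr 13 14 (.thr 29 45 (.dbl 31 16 30))) .nd))) .nd))))))))) (.rp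 0 (.thr 13 14 (.thr 45 29 (.thr 60 30 (.thr 28 44 (.thr 40 43 (.thr 24 8 (.dbl 16 20 31))))))) .nd)))))))))))))))) (.rp 28 (.str 19 (.nv (.thr 1 61 (.thr 5 37 (.thr 0 10 (.thr 3 2 (.dbl 11 7 56))))) (.nv (.thr 1 61 (.thr 16 31 (.thr 17 18 (.thr 33 49 (.dbl 37 5 45))))) (.nv (.thr 43 40 (.thr 31 16 (.thr 27 23 (.dbl 11 56 59)))) .nd)))) (.rp 19 (.str 28 (.nv (.thr 37 5 (.thr 45 33 (.thr 60 30 (.thr 44 12 (.dbl 47 32 46))))) (.nv (.thr 16 31 (.thr 24 20 (.thr 56 11 (.dbl 40 8 43)))) (.rp 24 (.thr 37 5 (.thr 31 16 (.thr 30 29 (.dbl 45 33 60)))) .nd)))) (.rp 5 (.thr 43 40 (.thr 11 56 (.thr 31 16 (.thr 61 1 (.thr 27 59 (.thr 57 49 (.thr 51 39 (.thr 19 23 (.dbl 3 7 35))))))))) (.rp 3 (.thr 11 56 (.thr 5 37 (.thr 10 0 (.thr 9 8 (.dbl 1 13 61))))) .nd)))))))) (.rp 56 (.thr 61 1 (.thr 58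 10 (.str 60 (.nv (.thr 40 43 (.thr 45 30 (.thr 13 29 (.thr 12 14 (.thr 37 33 (.thr 32 47 (.dbl 44 28 36))))))) (.nv (.thr 16 31 (.thr 40 43 (.thr 20 0 (.thr 28 24 (.thr 44 12 (.thr 36 32 (.thr 4 52 (.dbl 38 35 55)))))))) (.nv (.thr 30 45 (.thr 31 16 (.thr 28 29 (.thr 12 44 (.thr 14 13 (.thr 38 50 (.dbl 46 34 62))))))) (.nv (.thr 43 40 (.thr 45 30 (.thr 37 33 (.thr 47 32 (.thr 35 39 (.dbl 44 38 46)))))) (.nv (.thr 16 31 (.thr 40 43 (.thr 20 0 (.thr 28 24 (.thr 12 44 (.thr 45 30 (.dbl 13 14 29))))))) (.rp 44 (.thr 45 30 (.thr 13 29 (.thr 12 14 (.thr 40 43 (.thr 0 20 (.thr 4 8 (.thr 38 55 (.thr 37 33 (.thr 39 36 (.thr 51 27 (.dbl 34 17 46))))))))))) (.rp 28 (.str 19 (.nv (.thr 16 31 (.thr 43 40 (.thr 45 30 (.thr 29 13 (.thr 37 33 (.thr 47 32 (.thr 35 39 (.dbl 44 38 46)))))))) (.nv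 (.thr 31 16 (.thr 27 23 (.thr 45 30 (.thr 37 33 (.thr 51 39 (.thr 53 5 (.dbl 57 49 54))))))) (.nv (.thr 45 30 (.thr 29 13 (.thr 37 33 (.thr 47 32 (.thr 44 46 (.thr 35 38 (.dbl 43 39 40))))))) (.nv (.thr 43 40 (.thr 31 16 (.thr 27 23 (.thr 11 59 (.thr 51 39 (.dbl 3 7 35)))))) (.rp 43 (.str 3 (.nv (.thr 30 45 (.thr 35 51 (.thr 38 44 (.thr 46 34 (.dbl 14 50 62))))) (.nv (.thr 31 16 (.thr 27 23 (.dbl 51 35 39))) (.rp 51 (.thr 45 30 (.thr 13 29 (.thr 31 16 (.thr 12 14 (.thr 7 11 (.thr 37 33 (.thr 5 53 (.dbl 6 4 9)))))))) (.rp 35 (.thr 45 30 (.thr 13 29 (.thr 31 16 (.thr 12 14 (.thr 7 11 (.thr 37 33 (.thr 5 53 (.dbl 6 4 9)))))))) (.rp 0 (.thr 45 30 (.thr 51 35 (.thr 57 54 (.thr 53 49 (.dbl 37 5 33))))) .nd)))))) (.rp 39 (.thr 40 43 (.thr 16 31 (.thr 17 18 (.thr 0 20 (.thr 51 34 (.thr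 57 54 (.thr 53 49 (.thr 37 5 (.dbl 45 30 33))))))))) (.rp 32 (.thr 40 43 (.thr 16 31 (.thr 17 18 (.thr 0 20 (.thr 51 34 (.thr 57 54 (.thr 53 49 (.thr 37 5 (.dbl 45 30 33))))))))) (.rp 16 (.thr 40 43 (.thr 45 30 (.thr 37 33 (.thr 20 0 (.thr 32 47 (.thr 36 44 (.thr 4 52 (.dbl 38 39 55)))))))) (.rp 3 (.thr 43 40 (.thr 45 30 (.thr 31 16 (.thr 27 23 (.thr 39 51 (.thr 47 35 (.dbl 37 32 33))))))) .nd)))))))))) (.rp 19 (.str 28 (.nv (.thr 12 44 (.thr 13 14 (.dbl 45 29 30))) (.nv (.thr 16 31 (.thr 20 24 (.dbl 40 0 43))) (.nv (.thr 30 45 (.dbl 31 16 29)) .nd)))) .nd))))))))))) (.rp 53 (.thr 58 10 (.thr 43 40 (.thr 11 56 (.thr 27 59 (.thr 3 7 (.thr 31 16 (.thr 19 23 (.dbl 51 35 39)))))))) (.rp 52 (.thr 43 40 (.thr 56 11 (.thr 58 10 (.thr 57 59 (.thr 61 1 (.thr 53 49 (.thr 37 5 (.thr 47 32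 (.thr 35 39 (.thr 44 38 (.dbl 45 33 46))))))))))) (.rp 37 (.thr 43 40 (.thr 11 56 (.thr 27 59 (.thr 31 16 (.thr 19 23 (.thr 51 39 (.dbl 3 7 35))))))) (.rp 28 (.str 19 (.nv (.thr 58 10 (.thr 11 56 (.thr 43 40 (.thr 27 59 (.dbl 31 16 23))))) (.nv (.thr 1 61 (.thr 11 56 (.thr 3 7 (.thr 0 2 (.dbl 10 5 58))))) (.nv (.thr 43 40 (.thr 31 16 (.thr 27 23 (.dbl 11 56 59)))) (.rp 58 (.str 53 (.nv (.thr 1 61 (.thr 5 37 (.thr 0 10 (.thr 3 2 (.dbl 11 7 56))))) (.nv (.thr 1 61 (.thr 16 31 (.thr 17 18 (.thr 33 49 (.dbl 37 5 45))))) (.nv (.thr 43 40 (.thr 31 16 (.thr 27 23 (.dbl 11 56 59)))) .nd)))) (.rp 56 (.thr 31 16 (.thr 27 23 (.thr 51 39 (.thr 3 35 (.thr 43 40 (.dbl 11 7 59)))))) (.rp 11 (.thr 1 61 (.thr 31 16 (.thr 27 23 (.thr 51 39 (.thr 3 35 (.thr 0 2 (.dbl 10 5 58))))))) .nd))))))) (.rp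 19 (.str 28 (.nv (.thr 31 16 (.thr 30 29 (.thr 40 43 (.thr 60 45 (.thr 0 20 (.dbl 10 5 58)))))) (.nv (.thr 1 61 (.thr 11 56 (.thr 3 7 (.thr 0 2 (.dbl 10 5 58))))) (.nv (.thr 16 31 (.thr 24 20 (.thr 56 11 (.dbl 40 8 43)))) (.rp 58 (.str 53 (.nv (.thr 37 5 (.thr 45 33 (.thr 60 30 (.thr 44 12 (.dbl 47 32 46))))) (.nv (.thr 16 31 (.thr 24 20 (.thr 56 11 (.dbl 40 8 43)))) (.rp 24 (.thr 37 5 (.thr 31 16 (.thr 30 29 (.dbl 45 33 60)))) .nd)))) (.rp 53 (.thr 58 10 (.thr 40 43 (.thr 56 11 (.thr 16 31 (.dbl 24 8 20))))) .nd)))))) (.rp 11 (.thr 61 1 (.thr 43 40 (.str 37 (.nv (.thr 58 10 (.thr 45 33 (.thr 29 13 (.thr 30 60 (.dbl 31 16 28))))) (.nv (.thr 47 32 (.thr 35 39 (.thr 44 38 (.dbl 45 33 46)))) (.nv (.thr 45 33 (.thr 29 13 (.thr 31 16 (.dbl 30 28 60)))) (.rp 58 (.thr 53 5 (.thr 45 33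 (.thr 31 16 (.thr 30 60 (.dbl 29 13 28))))) (.rp 45 (.thr 53 5 (.thr 57 49 (.thr 58 10 (.thr 47 32 (.thr 39 35 (.thr 51 27 (.thr 54 60 (.thr 50 62 (.dbl 38 14 36))))))))) (.rp 33 (.thr 47 32 (.thr 35 39 (.thr 44 38 (.thr 45 46 (.thr 29 13 (.thr 30 60 (.dbl 31 16 28))))))) (.rp 28 (.str 19 (.nv (.thr 31 16 (.thr 32 47 (.thr 27 23 (.thr 33 45 (.thr 35 34 (.dbl 51 3 39)))))) (.nv (.thr 53 5 (.thr 31 16 (.thr 27 23 (.thr 39 51 (.dbl 47 32 35))))) (.nv (.thr 45 33 (.thr 47 32 (.thr 35 39 (.dbl 44 38 46)))) (.rp 53 (.thr 58 10 (.thr 45 33 (.thr 47 32 (.thr 35 39 (.dbl 44 38 46))))) (.rp 47 (.thr 53 5 (.thr 57 49 (.thr 31 16 (.thr 27 23 (.thr 51 39 (.thr 60 54 (.dbl 45 30 33))))))) (.rp 39 (.thr 33 45 (.thr 16 31 (.thr 17 18 (.thr 32 47 (.thr 34 35 (.thr 0 51 (.dbl 5 10 53))))))) (.rp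 35 (.thr 53 5 (.thr 57 49 (.thr 31 16 (.thr 27 23 (.thr 51 39 (.thr 60 54 (.dbl 45 30 33))))))) (.rp 32 (.thr 16 31 (.str 38 (.nv (.thr 17 18 (.thr 34 46 (.thr 51 0 (.dbl 35 3 44)))) (.nv (.thr 4 55 (.thr 14 50 (.thr 12 13 (.thr 0 8 (.dbl 5 10 53))))) (.nv (.thr 50 14 (.thr 18 17 (.dbl 34 2 46))) (.rp 58 (.thr 53 5 (.thr 18 17 (.thr 34 46 (.dbl 50 2 14)))) (.rp 53 (.thr 58 10 (.thr 18 17 (.thr 34 46 (.dbl 50 2 14)))) (.rp 44 (.thr 36 39 (.thr 18 17 (.thr 34 46 (.dbl 50 2 14)))) (.rp 36 (.thr 44 35 (.thr 18 17 (.thr 34 46 (.dbl 50 2 14)))) (.rp 30 (.str 29 (.nv (.thr 36 39 (.thr 13 45 (.dbl 14 12 50))) (.nv (.thr 18 17 (.thr 34 46 (.dbl 50 2 14))) (.nv (.dbl 45 13 33) (.rp 58 (.thr 53 5 (.dbl 45 13 33)) (.rp 53 (.thr 58 10 (.dbl 45 13 33)) (.rp 36 (.thr 44 35 (.dbl 45 13 33)) .nd)))))))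 (.rp 29 (.str 30 (.nv (.thr 36 39 (.thr 14 50 (.dbl 46 34 62))) (.nv (.dbl 45 33 60) (.rp 58 (.thr 53 5 (.dbl 45 33 60)) (.rp 53 (.thr 58 10 (.dbl 45 33 60)) (.rp 46 (.str 12 (.nv (.thr 36 39 (.dbl 45 33 60)) (.nv (.dbl 14 13 50) (.rp 58 (.thr 53 5 (.dbl 14 13 50)) (.rp 53 (.thr 58 10 (.dbl 14 13 50)) (.rp 36 (.thr 44 35 (.dbl 14 13 50)) .nd)))))) (.rp 36 (.thr 44 35 (.dbl 45 33 60)) (.rp 12 (.thr 46 34 (.dbl 45 33 60)) .nd)))))))) .nd))))))))))) (.rp 16 (.thr 33 45 (.thr 32 47 (.thr 35 34 (.thr 51 3 (.thr 39 27 (.dbl 38 36 44)))))) .nd)))))))))) (.rp 19 (.str 28 (.nv (.thr 58 10 (.thr 45 33 (.thr 29 13 (.dbl 30 31 60)))) (.nv (.thr 47 32 (.thr 35 39 (.thr 44 38 (.dbl 45 33 46)))) (.nv (.thr 31 16 (.thr 29 30 (.dbl 45 13 33))) (.rp 58 (.thr 53 5 (.thr 31 16 (.thr 29 30 (.dbl 45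 13 33)))) (.rp 45 (.thr 58 10 (.thr 53 5 (.thr 47 32 (.thr 57 49 (.thr 39 35 (.thr 51 27 (.thr 54 60 (.thr 50 62 (.dbl 38 14 36))))))))) (.rp 33 (.thr 47 32 (.thr 35 39 (.thr 44 38 (.thr 45 46 (.dbl 60 12 30))))) .nd))))))) (.rp 16 (.thr 45 33 (.thr 13 29 (.thr 30 60 (.thr 14 12 (.thr 46 62 (.dbl 38 34 50)))))) (.rp 0 (.thr 45 33 (.thr 29 13 (.thr 31 16 (.thr 32 47 (.dbl 30 28 60))))) .nd))))))))))))) (.rp 7 (.thr 43 40 (.thr 56 11 (.thr 58 10 (.thr 57 59 (.thr 61 1 (.thr 53 49 (.thr 37 5 (.thr 47 32 (.thr 35 39 (.thr 44 38 (.dbl 45 33 46))))))))))) (.rp 3 (.thr 43 40 (.thr 56 11 (.thr 58 10 (.thr 57 59 (.thr 61 1 (.thr 53 49 (.thr 37 5 (.thr 47 32 (.thr 35 39 (.thr 44 38 (.dbl 45 33 46))))))))))) .nd)))))))))))))) (.rp 37 .ext (.rp 28 (.str 19 (.nv (.thr 10 58 (.thr 5 0 (.dbl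 37 48 53))) (.rp 58 (.thr 16 31 (.thr 18 17 (.thr 48 37 (.thr 3 33 (.thr 0 32 (.thr 1 2 (.thr 41 61 (.dbl 11 7 56)))))))) (.rp 53 (.thr 16 31 (.thr 10 58 (.thr 48 37 (.dbl 0 5 32)))) (.rp 48 (.str 38 (.nv (.thr 31 16 (.thr 27 23 (.thr 34 46 (.thr 51 39 (.thr 0 17 (.dbl 10 5 58)))))) (.nv (.thr 4 55 (.thr 14 50 (.thr 12 13 (.thr 0 8 (.dbl 10 5 58))))) (.nv (.thr 16 31 (.thr 18 17 (.thr 50 14 (.dbl 34 2 46)))) (.rp 58 (.str 53 (.nv (.thr 4 55 (.thr 37 5 (.thr 39 36 (.thr 51 27 (.thr 35 3 (.dbl 47 32 43)))))) (.nv (.thr 16 31 (.thr 18 17 (.thr 50 14 (.dbl 34 2 46)))) (.rp 18 (.thr 37 5 (.thr 31 16 (.thr 27 23 (.dbl 39 36 51)))) .nd)))) (.rp 53 (.thr 58 10 (.thr 34 46 (.thr 50 14 (.thr 16 31 (.dbl 18 2 17))))) .nd)))))) (.rp 37 (.thr 31 16 (.thr 27 23 (.thr 51 39 (.thr 3 35 (.thr 10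 58 (.thr 0 5 (.thr 1 2 (.thr 41 61 (.dbl 11 7 56))))))))) (.rp 10 (.thr 16 31 (.thr 18 17 (.thr 48 37 (.thr 3 33 (.thr 0 32 (.thr 1 2 (.thr 41 61 (.dbl 11 7 56)))))))) (.rp 5 (.thr 16 31 (.thr 18 17 (.thr 48 37 (.thr 3 33 (.thr 0 32 (.thr 1 2 (.thr 41 61 (.dbl 11 7 56)))))))) (.rp 0 (.thr 31 16 (.thr 27 23 (.thr 51 39 (.thr 3 35 (.thr 48 37 (.thr 33 18 (.thr 49 50 (.thr 1 17 (.thr 41 61 (.dbl 11 7 56)))))))))) .nd))))))))) (.rp 19 (.str 28 (.nv (.thr 10 58 (.thr 5 0 (.dbl 37 48 53))) (.rp 58 (.thr 16 31 (.thr 24 20 (.thr 48 37 (.thr 12 36 (.thr 0 32 (.thr 4 8 (.thr 38 55 (.dbl 14 13 50)))))))) (.rp 53 (.thr 16 31 (.thr 10 58 (.thr 48 37 (.dbl 0 5 32)))) (.rp 48 (.str 41 (.nv (.thr 31 16 (.thr 30 29 (.thr 40 43 (.thr 60 45 (.thr 0 20 (.dbl 10 5 58)))))) (.nv (.thr 1 61 (.thr 11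 56 (.thr 3 7 (.thr 0 2 (.dbl 10 5 58))))) (.nv (.thr 16 31 (.thr 24 20 (.thr 56 11 (.dbl 40 8 43)))) (.rp 58 (.str 53 (.nv (.thr 37 5 (.thr 45 33 (.thr 60 30 (.thr 44 12 (.dbl 47 32 46))))) (.nv (.thr 16 31 (.thr 24 20 (.thr 56 11 (.dbl 40 8 43)))) (.rp 24 (.thr 37 5 (.thr 31 16 (.thr 30 29 (.dbl 45 33 60)))) .nd)))) (.rp 53 (.thr 58 10 (.thr 40 43 (.thr 56 11 (.thr 16 31 (.dbl 24 8 20))))) .nd)))))) (.rp 37 (.thr 31 16 (.thr 30 29 (.thr 60 45 (.thr 12 44 (.thr 10 58 (.thr 0 5 (.thr 4 8 (.thr 38 55 (.dbl 14 13 50))))))))) (.rp 10 (.thr 16 31 (.thr 24 20 (.thr 48 37 (.thr 12 36 (.thr 0 32 (.thr 4 8 (.thr 38 55 (.dbl 14 13 50)))))))) (.rp 5 (.thr 16 31 (.thr 24 20 (.thr 48 37 (.thr 12 36 (.thr 0 32 (.thr 4 8 (.thr 38 55 (.dbl 14 13 50)))))))) (.rp 0 (.thr 31 16 (.thr 30 29 (.thr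 60 45 (.thr 12 44 (.thr 48 37 (.thr 36 24 (.thr 52 56 (.thr 4 20 (.thr 38 55 (.dbl 14 13 50)))))))))) .nd))))))))) (.rp 10 (.str 41 (.nv (.thr 31 16 (.thr 11 56 (.thr 43 40 (.thr 27 59 (.thr 19 23 (.thr 51 39 (.dbl 3 7 35))))))) (.nv (.thr 37 48 (.thr 32 47 (.thr 33 45 (.thr 35 34 (.thr 40 43 (.dbl 44 36 38)))))) (.nv (.thr 1 61 (.thr 11 56 (.thr 3 7 (.thr 0 2 (.thr 16 31 (.dbl 48 32 37)))))) (.rp 28 (.str 19 (.nv (.thr 11 56 (.thr 3 7 (.thr 43 40 (.thr 27 59 (.dbl 51 35 39))))) (.nv (.thr 1 61 (.thr 16 31 (.thr 17 18 (.thr 33 49 (.dbl 37 45 48))))) (.nv (.thr 43 40 (.thr 31 16 (.thr 27 23 (.dbl 11 56 59)))) .nd)))) (.rp 19 (.str 28 (.nv (.thr 31 16 (.thr 30 29 (.thr 37 48 (.dbl 45 33 60)))) (.nv (.thr 37 48 (.thr 45 33 (.thr 60 30 (.thr 44 12 (.dbl 47 32 46))))) (.nv (.thr 16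 31 (.thr 24 20 (.thr 40 43 (.dbl 56 8 11)))) .nd)))) (.rp 3 (.thr 43 40 (.thr 11 56 (.thr 27 59 (.thr 37 48 (.thr 47 32 (.dbl 39 35 51)))))) .nd))))))) (.rp 5 (.str 14 (.nv (.thr 10 58 (.thr 6 2 (.thr 12 13 (.thr 9 3 (.thr 8 11 (.thr 0 4 (.thr 16 31 (.dbl 48 32 37)))))))) (.nv (.thr 12 13 (.thr 31 16 (.thr 38 50 (.thr 46 34 (.thr 30 62 (.thr 28 29 (.dbl 60 44 45))))))) (.nv (.thr 37 48 (.thr 38 50 (.thr 46 34 (.thr 30 62 (.thr 47 32 (.dbl 45 44 60)))))) (.nv (.thr 12 13 (.thr 16 31 (.thr 38 50 (.thr 4 55 (.thr 0 8 (.dbl 48 32 37)))))) (.rp 49 (.thr 31 16 (.thr 38 50 (.thr 46 34 (.thr 30 62 (.thr 28 29 (.thr 60 45 (.dbl 12 13 44))))))) (.rp 37 (.thr 31 16 (.thr 38 50 (.thr 46 34 (.thr 30 62 (.thr 28 29 (.thr 60 45 (.dbl 12 13 44))))))) (.rp 28 (.str 19 (.nv (.thr 10 58 (.thr 6 2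 (.thr 12 13 (.thr 9 3 (.thr 8 11 (.thr 38 50 (.dbl 4 0 55))))))) (.nv (.thr 10 58 (.thr 6 2 (.thr 16 31 (.thr 18 17 (.thr 48 37 (.thr 3 33 (.dbl 12 9 13))))))) (.nv (.thr 31 16 (.thr 27 23 (.thr 39 51 (.thr 38 50 (.dbl 37 36 48))))) (.nv (.thr 16 31 (.thr 18 17 (.thr 50 38 (.thr 2 34 (.dbl 10 6 58))))) .nd))))) (.rp 19 (.str 28 (.nv (.thr 12 13 (.thr 38 50 (.thr 46 34 (.thr 30 62 (.dbl 60 44 45))))) (.nv (.thr 12 13 (.thr 16 31 (.thr 24 20 (.dbl 48 36 37)))) (.nv (.thr 31 16 (.thr 38 50 (.thr 30 29 (.dbl 46 34 62)))) .nd)))) (.rp 16 (.thr 12 13 (.thr 10 58 (.thr 6 2 (.thr 9 3 (.thr 8 11 (.thr 38 50 (.dbl 4 0 55))))))) .nd)))))))))) (.rp 0 (.str 14 (.nv (.thr 38 50 (.thr 4 55 (.thr 10 58 (.thr 6 2 (.thr 5 7 (.dbl 37 48 53)))))) (.nv (.thr 12 13 (.thr 31 16 (.thr 38 50 (.thr 46 34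 (.thr 30 62 (.thr 28 29 (.dbl 60 44 45))))))) (.nv (.thr 12 13 (.thr 10 58 (.thr 6 2 (.thr 3 9 (.thr 7 11 (.thr 5 4 (.dbl 37 48 53))))))) (.rp 58 (.thr 16 31 (.thr 38 50 (.thr 46 34 (.thr 37 48 (.thr 53 5 (.thr 47 32 (.thr 45 44 (.dbl 30 60 62)))))))) (.rp 48 (.thr 12 13 (.thr 38 50 (.thr 46 34 (.thr 30 62 (.thr 60 45 (.thr 28 44 (.dbl 31 16 29))))))) (.rp 37 (.thr 31 16 (.thr 38 50 (.thr 46 34 (.thr 30 62 (.thr 28 29 (.thr 60 45 (.dbl 12 13 44))))))) (.rp 28 (.str 19 (.nv (.thr 31 16 (.thr 27 23 (.thr 38 50 (.thr 39 51 (.dbl 37 36 48))))) (.nv (.thr 10 58 (.thr 6 2 (.thr 12 13 (.thr 3 9 (.thr 7 11 (.thr 5 4 (.dbl 37 48 53))))))) (.nv (.thr 10 58 (.thr 2 6 (.thr 16 31 (.thr 18 17 (.dbl 50 34 38))))) (.rp 48 (.str 37 (.nv (.thr 32 47 (.thr 38 50 (.thr 34 46 (.thr 35 33 (.thr 36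 39 (.dbl 44 40 41)))))) (.nv (.thr 16 31 (.thr 10 58 (.thr 53 5 (.thr 2 6 (.thr 18 17 (.dbl 50 34 38)))))) (.nv (.thr 31 16 (.thr 32 47 (.thr 38 50 (.thr 39 36 (.dbl 27 23 51))))) (.rp 58 (.thr 53 5 (.thr 38 50 (.thr 31 16 (.thr 32 47 (.thr 27 23 (.dbl 39 36 51)))))) (.rp 53 (.thr 58 10 (.thr 38 50 (.thr 31 16 (.thr 32 47 (.thr 27 23 (.dbl 39 36 51)))))) (.rp 51 (.thr 10 58 (.thr 53 5 (.thr 50 38 (.thr 12 13 (.thr 16 31 (.thr 18 17 (.thr 34 2 (.thr 32 47 (.thr 33 35 (.thr 41 45 (.thr 11 56 (.thr 3 7 (.dbl 9 6 8))))))))))))) (.rp 50 (.thr 58 10 (.thr 5 53 (.thr 16 31 (.thr 17 18 (.thr 13 12 (.thr 1 9 (.thr 41 61 (.dbl 33 45 49)))))))) (.rp 38 (.thr 10 58 (.thr 53 5 (.thr 6 2 (.thr 31 16 (.thr 32 47 (.thr 27 23 (.thr 51 39 (.thr 12 13 (.dbl 3 9 35))))))))) .nd))))))))) .nd))))) (.rp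 19 (.str 28 (.nv (.thr 12 13 (.thr 38 50 (.thr 46 34 (.thr 30 62 (.dbl 60 44 45))))) (.nv (.thr 12 13 (.thr 16 31 (.thr 24 20 (.dbl 48 36 37)))) (.nv (.thr 31 16 (.thr 38 50 (.thr 30 29 (.dbl 46 34 62)))) .nd)))) (.rp 2 (.thr 38 50 (.thr 34 46 (.thr 37 48 (.thr 36 39 (.thr 32 47 (.thr 44 40 (.dbl 35 33 41))))))) .nd)))))))))) .nd))))))))))) (.rp 58 (.thr 63 0 (.str 41 (.nv (.thr 11 56 (.thr 43 40 (.thr 3 23 (.thr 15 7 (.dbl 31 16 47))))) (.nv (.thr 11 56 (.thr 31 16 (.thr 43 40 (.thr 23 3 (.dbl 27 19 59))))) (.nv (.thr 31 16 (.thr 15 47 (.thr 61 1 (.thr 60 62 (.thr 45 30 (.dbl 37 33 48)))))) (.nv (.thr 31 16 (.thr 15 47 (.thr 43 40 (.thr 3 23 (.dbl 11 7 56))))) (.rp 60 (.thr 11 56 (.thr 31 16 (.thr 15 47 (.thr 3 7 (.dbl 43 23 40))))) (.rp 31 (.thr 43 40 (.thr 11 56 (.thr 59 27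 (.thr 23 3 (.thr 55 51 (.thr 38 4 (.thr 39 7 (.dbl 35 44 47)))))))) (.rp 28 (.str 19 (.nv (.thr 11 56 (.thr 43 40 (.thr 3 23 (.thr 51 35 (.dbl 59 27 55))))) (.nv (.thr 31 16 (.thr 23 27 (.dbl 43 3 40))) (.rp 43 (.thr 61 1 (.thr 31 16 (.thr 15 47 (.thr 48 37 (.thr 56 11 (.dbl 60 52 62)))))) (.rp 40 (.thr 31 16 (.thr 23 27 (.thr 3 43 (.thr 15 47 (.dbl 11 7 56))))) (.rp 27 (.thr 31 16 (.thr 47 15 (.thr 43 40 (.thr 3 23 (.dbl 35 39 51))))) (.rp 24 (.thr 43 40 (.thr 23 3 (.dbl 31 16 27))) (.rp 23 (.thr 61 1 (.thr 31 16 (.thr 15 47 (.thr 48 37 (.thr 56 11 (.dbl 60 52 62)))))) (.rp 20 (.thr 61 1 (.thr 11 56 (.thr 43 40 (.thr 60 62 (.thr 59 27 (.thr 51 55 (.dbl 3 23 35))))))) (.rp 3 (.thr 31 16 (.thr 27 23 (.thr 11 56 (.dbl 43 40 59)))) .nd)))))))))) (.rp 19 (.str 28 (.nv (.thr 31 16 (.thr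 15 47 (.thr 30 29 (.thr 60 45 (.dbl 61 1 62))))) (.nv (.thr 16 31 (.thr 24 20 (.thr 40 43 (.dbl 56 8 11)))) (.rp 31 (.thr 56 11 (.thr 40 43 (.thr 24 8 (.thr 61 1 (.thr 60 62 (.thr 12 44 (.dbl 48 36 52))))))) (.rp 16 (.thr 61 1 (.thr 60 62 (.thr 12 44 (.thr 29 46 (.thr 45 13 (.dbl 30 15 31)))))) .nd))))) (.rp 16 (.thr 43 40 (.thr 11 56 (.thr 3 23 (.thr 15 7 (.thr 47 31 (.dbl 37 32 48)))))) (.rp 3 (.thr 40 43 (.thr 31 16 (.thr 47 15 (.thr 32 37 (.thr 44 36 (.thr 46 45 (.dbl 38 34 35))))))) .nd)))))))))))) (.rp 53 (.thr 16 31 (.thr 0 63 (.thr 10 58 (.thr 48 32 (.dbl 15 5 37))))) (.rp 48 (.str 41 (.nv (.thr 11 56 (.thr 43 40 (.thr 27 59 (.thr 63 0 (.thr 23 3 (.dbl 31 16 19)))))) (.nv (.thr 16 31 (.thr 40 43 (.thr 56 11 (.thr 24 8 (.thr 0 63 (.dbl 20 28 60)))))) (.nv (.thr 0 63 (.thr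 1 61 (.thr 3 2 (.thr 11 56 (.thr 15 7 (.dbl 10 5 58)))))) (.rp 63 (.thr 43 40 (.thr 56 11 (.thr 58 10 (.thr 57 59 (.thr 61 1 (.thr 53 49 (.thr 37 5 (.thr 47 32 (.thr 35 39 (.thr 44 38 (.dbl 45 33 46))))))))))) (.rp 60 (.thr 43 40 (.thr 56 11 (.thr 58 10 (.thr 57 59 (.thr 61 1 (.thr 53 49 (.thr 37 5 (.thr 47 32 (.thr 35 39 (.thr 44 38 (.dbl 45 33 46))))))))))) (.rp 58 (.thr 43 40 (.thr 11 56 (.thr 63 0 (.thr 3 23 (.thr 15 7 (.dbl 31 16 47)))))) (.rp 56 (.thr 1 61 (.thr 0 63 (.thr 3 2 (.thr 40 43 (.thr 60 20 (.str 5 (.nv (.dbl 10 15 58) (.rp 58 (.thr 53 37 (.thr 15 10 (.thr 7 11 (.thr 6 4 (.dbl 9 12 13))))) (.rp 53 (.thr 58 10 (.thr 9 13 (.thr 6 12 (.thr 7 4 (.thr 15 11 (.thr 31 16 (.thr 45 30 (.thr 37 33 (.thr 47 32 (.thr 46 44 (.thr 34 38 (.thr 51 17 (.thr 27 39 (.dbl 19 23 35))))))))))))))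 (.rp 28 (.str 19 (.nv (.thr 51 35 (.thr 17 34 (.dbl 16 18 31))) (.nv (.dbl 10 15 58) (.rp 58 (.thr 53 37 (.thr 16 31 (.thr 17 18 (.dbl 51 34 35)))) (.rp 53 (.thr 58 10 (.thr 16 31 (.thr 17 18 (.dbl 51 34 35)))) (.rp 24 (.thr 16 31 (.dbl 10 15 58)) (.rp 16 (.str 24 (.nv (.dbl 10 15 58) (.rp 58 (.thr 53 37 (.thr 15 10 (.thr 7 11 (.thr 6 4 (.dbl 9 12 13))))) (.rp 53 (.thr 58 10 (.thr 9 13 (.thr 6 12 (.thr 4 7 (.thr 38 55 (.dbl 35 44 51)))))) (.rp 15 (.thr 9 13 (.thr 12 6 (.thr 8 4 (.dbl 10 11 58)))) (.rp 10 (.thr 51 35 (.thr 17 34 (.thr 33 49 (.dbl 37 45 53)))) .nd)))))) .nd))))))) (.rp 19 (.str 28 (.nv (.thr 53 37 (.thr 12 44 (.dbl 9 6 13))) (.nv (.dbl 10 15 58) (.rp 53 (.thr 58 10 (.thr 9 13 (.dbl 12 6 44))) .nd)))) (.rp 15 (.thr 9 13 (.thr 12 6 (.thr 8 4 (.dbl 10 11 58)))) (.rp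 10 (.thr 9 13 (.thr 6 12 (.thr 7 4 (.thr 15 11 (.thr 45 30 (.dbl 37 33 53)))))) .nd))))))))))))) (.rp 28 (.str 19 (.nv (.thr 11 56 (.thr 43 40 (.thr 27 59 (.dbl 31 16 23)))) (.nv (.thr 0 63 (.thr 1 61 (.thr 3 2 (.thr 11 56 (.thr 15 7 (.dbl 10 5 58)))))) (.nv (.thr 31 16 (.thr 23 27 (.thr 43 40 (.dbl 63 0 3)))) .nd)))) (.rp 19 (.str 28 (.nv (.thr 16 31 (.thr 20 24 (.thr 40 43 (.dbl 0 60 63)))) (.nv (.thr 0 63 (.thr 1 61 (.thr 3 2 (.thr 11 56 (.thr 15 7 (.dbl 10 5 58)))))) (.nv (.thr 16 31 (.thr 24 20 (.thr 40 43 (.dbl 56 8 11)))) .nd)))) (.rp 11 (.thr 58 10 (.thr 63 0 (.thr 61 1 (.thr 62 60 (.thr 50 54 (.thr 38 14 (.thr 46 34 (.thr 44 35 (.thr 47 45 (.dbl 31 15 16)))))))))) (.rp 3 (.thr 11 56 (.thr 10 58 (.thr 9 8 (.thr 1 61 (.thr 5 13 (.dbl 0 15 63)))))) (.rp 0 (.thr 16 31 (.str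 37 (.nv (.thr 1 61 (.thr 5 53 (.thr 9 13 (.thr 11 56 (.dbl 10 8 58))))) (.nv (.thr 56 11 (.thr 61 1 (.thr 58 10 (.thr 57 59 (.dbl 53 5 49))))) (.nv (.thr 40 43 (.thr 33 45 (.thr 32 47 (.thr 35 34 (.dbl 44 36 38))))) (.rp 28 (.str 19 (.nv (.thr 1 61 (.thr 10 58 (.thr 11 56 (.thr 9 8 (.dbl 5 13 53))))) (.nv (.thr 17 18 (.thr 33 45 (.dbl 1 49 61))) (.rp 61 (.thr 43 40 (.thr 47 32 (.thr 35 39 (.thr 45 33 (.dbl 44 38 46))))) (.rp 30 (.str 29 (.nv (.thr 1 61 (.thr 17 18 (.dbl 33 45 49))) (.nv (.thr 45 33 (.dbl 61 1 13)) (.rp 61 (.thr 33 45 (.thr 32 47 (.thr 35 34 (.thr 40 43 (.dbl 44 36 38))))) (.rp 45 (.thr 56 11 (.thr 61 1 (.thr 53 5 (.thr 57 49 (.dbl 58 10 59))))) (.rp 33 (.thr 56 11 (.thr 61 1 (.thr 58 10 (.thr 57 59 (.dbl 53 5 49))))) (.rp 18 (.thr 61 1 (.dbl 45 13 33)) (.rp 1 (.thr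 33 45 (.thr 32 47 (.thr 35 34 (.thr 40 43 (.dbl 44 36 38))))) .nd)))))))) (.rp 29 (.str 30 (.nv (.thr 1 61 (.thr 10 58 (.thr 11 56 (.thr 9 8 (.dbl 5 13 53))))) (.nv (.thr 17 18 (.thr 33 45 (.dbl 1 49 61))) (.rp 61 (.thr 45 33 (.thr 47 32 (.thr 43 40 (.thr 35 39 (.dbl 44 38 46))))) (.rp 45 (.thr 56 11 (.thr 61 1 (.thr 53 5 (.thr 57 49 (.dbl 58 10 59))))) (.rp 13 (.thr 45 33 (.thr 47 32 (.thr 43 40 (.thr 35 39 (.dbl 44 38 46))))) (.rp 1 (.thr 33 45 (.thr 32 47 (.thr 35 34 (.thr 40 43 (.dbl 44 36 38))))) .nd))))))) (.rp 1 (.thr 43 40 (.thr 47 32 (.thr 35 39 (.thr 45 33 (.dbl 44 38 46))))) .nd))))))) (.rp 19 (.str 28 (.nv (.thr 1 61 (.thr 5 53 (.thr 9 13 (.thr 11 56 (.dbl 10 8 58))))) (.nv (.thr 24 20 (.thr 40 43 (.dbl 56 8 11))) (.rp 56 (.thr 45 33 (.thr 47 32 (.thr 44 46 (.thr 43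 40 (.dbl 35 38 39))))) (.rp 27 (.str 23 (.nv (.thr 1 61 (.thr 5 53 (.thr 9 13 (.thr 11 56 (.dbl 10 8 58))))) (.nv (.thr 24 20 (.thr 40 43 (.dbl 56 8 11))) (.rp 56 (.thr 40 43 (.thr 32 47 (.thr 44 36 (.thr 33 45 (.dbl 35 34 38))))) (.rp 11 (.thr 43 40 (.thr 47 32 (.thr 45 33 (.thr 44 46 (.dbl 35 38 39))))) (.rp 8 (.thr 40 43 (.thr 32 47 (.thr 44 36 (.thr 33 45 (.dbl 35 34 38))))) .nd)))))) (.rp 23 (.str 27 (.nv (.thr 24 20 (.thr 40 43 (.dbl 56 8 11))) (.nv (.thr 43 40 (.dbl 11 56 59)) (.rp 56 (.thr 40 43 (.thr 32 47 (.thr 44 36 (.thr 33 45 (.dbl 35 34 38))))) (.rp 43 (.thr 1 61 (.thr 11 56 (.thr 10 58 (.thr 9 8 (.dbl 5 13 53))))) (.rp 40 (.thr 1 61 (.thr 11 56 (.thr 5 53 (.thr 9 13 (.dbl 10 8 58))))) (.rp 20 (.thr 11 56 (.dbl 43 40 59)) (.rp 11 (.thr 40 43 (.thr 32 47 (.thr 44 36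 (.thr 33 45 (.dbl 35 34 38))))) .nd)))))))) (.rp 11 (.thr 45 33 (.thr 47 32 (.thr 44 46 (.thr 43 40 (.dbl 35 38 39))))) (.rp 8 (.thr 53 5 (.thr 61 1 (.thr 57 49 (.thr 56 11 (.dbl 58 10 59))))) .nd)))))))) .nd))))))) .nd))))))))))))) (.rp 47 (.thr 16 31 (.thr 10 58 (.thr 0 63 (.thr 15 5 (.dbl 48 32 37))))) (.rp 37 (.thr 0 63 (.str 41 (.nv (.thr 40 43 (.thr 20 60 (.thr 56 11 (.thr 24 8 (.dbl 16 28 31))))) (.nv (.thr 10 58 (.thr 5 15 (.thr 11 56 (.thr 9 8 (.dbl 1 13 61))))) (.nv (.thr 1 61 (.thr 3 2 (.thr 10 58 (.thr 11 56 (.dbl 15 5 7))))) (.nv (.thr 16 31 (.thr 48 32 (.thr 40 43 (.thr 60 20 (.dbl 56 11 52))))) (.rp 56 (.thr 40 43 (.thr 60 20 (.thr 16 31 (.thr 32 48 (.thr 44 36 (.thr 38 35 (.thr 4 55 (.dbl 12 8 28)))))))) (.rp 52 .ext (.rp 49 .ext (.rp 28 .ext (.rp 19 (.str 28 (.nv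 (.thr 40 43 (.thr 56 11 (.thr 24 8 (.dbl 16 20 31)))) (.nv (.thr 1 61 (.thr 3 2 (.thr 10 58 (.thr 11 56 (.dbl 15 5 7))))) (.nv (.thr 16 31 (.thr 20 24 (.dbl 40 43 60))) (.rp 52 (.str 7 (.nv (.thr 16 31 (.thr 20 24 (.dbl 40 43 60))) (.nv (.thr 10 58 (.thr 15 5 (.dbl 11 3 56))) (.rp 49 (.str 13 (.nv (.thr 10 58 (.thr 11 56 (.dbl 15 3 5))) (.nv (.thr 31 16 (.thr 29 30 (.dbl 61 1 45))) .nd))) (.rp 15 (.thr 40 43 (.thr 20 60 (.dbl 16 24 31))) (.rp 13 (.str 49 (.nv (.thr 40 43 (.thr 56 11 (.thr 24 8 (.dbl 16 20 31)))) (.nv (.thr 16 31 (.thr 20 24 (.dbl 40 43 60))) (.nv (.thr 1 61 (.thr 3 2 (.dbl 11 15 56))) .nd)))) .nd)))))) (.rp 49 (.str 13 (.nv (.thr 10 58 (.thr 11 56 (.thr 9 8 (.dbl 5 1 15)))) (.nv (.thr 31 16 (.thr 29 30 (.dbl 61 1 45))) (.rp 52 (.str 7 (.nv (.thr 10 58 (.thr 11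 56 (.dbl 15 3 5))) (.nv (.thr 31 16 (.thr 29 30 (.dbl 61 1 45))) .nd))) (.rp 7 (.str 52 (.nv (.thr 40 43 (.thr 56 11 (.dbl 60 20 48))) (.nv (.thr 61 1 (.thr 29 45 (.dbl 31 16 30))) .nd))) (.rp 1 (.thr 16 31 (.thr 20 24 (.dbl 40 43 60))) .nd)))))) (.rp 13 (.str 49 (.nv (.thr 56 11 (.thr 58 10 (.thr 61 1 (.dbl 57 53 59)))) (.nv (.thr 16 31 (.thr 20 24 (.dbl 40 43 60))) (.rp 52 (.str 7 (.nv (.thr 40 43 (.thr 56 11 (.thr 24 8 (.dbl 16 20 31)))) (.nv (.thr 16 31 (.thr 20 24 (.dbl 40 43 60))) (.nv (.thr 1 61 (.thr 3 2 (.dbl 11 15 56))) .nd)))) (.rp 7 (.str 52 (.nv (.thr 16 31 (.thr 20 24 (.dbl 40 43 60))) (.nv (.thr 58 10 (.thr 61 1 (.thr 57 53 (.dbl 56 11 59)))) (.nv (.thr 40 43 (.thr 60 20 (.dbl 56 11 48))) .nd)))) .nd))))) (.rp 7 (.str 52 (.nv (.thr 16 31 (.thr 20 24 (.dbl 40 43 60)))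 (.nv (.thr 10 58 (.thr 5 15 (.thr 11 56 (.thr 9 8 (.dbl 1 13 61))))) (.nv (.thr 40 43 (.thr 60 20 (.dbl 56 11 48))) (.rp 49 (.str 13 (.nv (.thr 40 43 (.thr 56 11 (.dbl 60 20 48))) (.nv (.thr 61 1 (.thr 29 45 (.dbl 31 16 30))) .nd))) (.rp 40 (.thr 16 31 (.thr 48 32 (.dbl 56 11 60))) (.rp 13 (.str 49 (.nv (.thr 16 31 (.thr 20 24 (.dbl 40 43 60))) (.nv (.thr 58 10 (.thr 61 1 (.thr 57 53 (.dbl 56 11 59)))) (.nv (.thr 40 43 (.thr 60 20 (.dbl 56 11 48))) .nd)))) .nd))))))) .nd)))))))) (.rp 13 .ext (.rp 11 (.thr 40 43 (.thr 60 20 (.thr 16 31 (.thr 32 48 (.thr 44 36 (.thr 38 35 (.thr 4 55 (.dbl 12 8 28)))))))) (.rp 7 .ext .nd)))))))))))))) (.rp 32 (.thr 31 16 (.thr 58 10 (.thr 63 0 (.thr 48 53 (.dbl 15 37 47))))) (.rp 31 (.str 56 (.nv (.thr 58 10 (.thr 57 59 (.thr 63 0 (.thr 48 53 (.thr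 60 52 (.thr 62 61 (.dbl 54 50 51))))))) (.nv (.thr 41 11 (.thr 58 10 (.thr 57 59 (.thr 63 0 (.thr 53 48 (.dbl 61 1 49)))))) (.nv (.thr 0 63 (.thr 41 11 (.thr 40 43 (.thr 60 20 (.thr 48 52 (.thr 32 16 (.dbl 37 15 47))))))) (.nv (.thr 41 11 (.thr 61 1 (.thr 63 0 (.thr 60 62 (.thr 48 52 (.dbl 58 10 53)))))) (.rp 63 (.thr 58 10 (.thr 57 59 (.thr 41 11 (.thr 43 40 (.thr 61 1 (.thr 53 49 (.thr 37 5 (.thr 47 32 (.thr 35 39 (.thr 44 38 (.dbl 45 33 46))))))))))) (.rp 48 (.thr 63 0 (.thr 58 10 (.thr 59 57 (.thr 55 51 (.thr 38 4 (.thr 50 14 (.thr 41 11 (.thr 61 1 (.dbl 62 54 60))))))))) (.rp 28 (.str 19 (.nv (.thr 0 63 (.thr 41 11 (.thr 1 61 (.thr 3 2 (.thr 51 35 (.thr 17 34 (.thr 18 16 (.dbl 33 48 49)))))))) (.nv (.thr 58 10 (.thr 57 59 (.thr 63 0 (.thr 48 53 (.thr 60 52 (.thr 62 61 (.dbl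 54 50 51))))))) (.nv (.thr 41 11 (.thr 58 10 (.thr 59 57 (.thr 63 0 (.thr 51 55 (.thr 3 35 (.dbl 43 23 40))))))) (.nv (.thr 41 11 (.thr 61 1 (.thr 63 0 (.thr 60 62 (.thr 48 52 (.dbl 58 10 53)))))) (.rp 63 (.thr 58 10 (.thr 57 59 (.thr 41 11 (.thr 43 40 (.thr 61 1 (.thr 53 49 (.thr 37 5 (.thr 47 32 (.thr 35 39 (.thr 44 38 (.dbl 45 33 46))))))))))) (.rp 30 (.str 29 (.nv (.thr 58 10 (.thr 57 59 (.thr 63 0 (.thr 48 53 (.thr 60 52 (.thr 62 61 (.dbl 54 50 51))))))) (.nv (.thr 41 11 (.thr 58 10 (.thr 57 59 (.thr 61 1 (.thr 45 13 (.thr 37 33 (.dbl 53 5 49))))))) (.nv (.thr 41 11 (.thr 43 40 (.thr 63 0 (.thr 3 23 (.thr 35 51 (.thr 38 44 (.dbl 46 12 34))))))) (.nv (.thr 41 11 (.thr 58 10 (.thr 61 1 (.thr 63 0 (.thr 48 53 (.dbl 60 52 62)))))) .nd))))) (.rp 29 (.str 30 (.nv (.thr 0 63 (.thr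 41 11 (.thr 40 43 (.thr 60 20 (.thr 15 45 (.dbl 48 37 52)))))) (.nv (.thr 0 63 (.thr 41 11 (.thr 40 43 (.thr 60 20 (.thr 15 45 (.dbl 10 5 58)))))) (.nv (.thr 41 11 (.thr 58 10 (.thr 57 59 (.thr 61 1 (.thr 53 49 (.dbl 63 0 48)))))) (.nv (.thr 63 0 (.thr 58 10 (.thr 48 53 (.thr 60 52 (.dbl 15 37 45))))) (.rp 63 (.thr 58 10 (.thr 57 59 (.thr 41 11 (.thr 61 1 (.thr 53 49 (.thr 37 5 (.thr 15 48 (.dbl 45 33 60)))))))) (.rp 0 (.thr 58 10 (.thr 57 59 (.thr 41 11 (.thr 61 1 (.thr 53 49 (.thr 48 63 (.dbl 37 5 15))))))) .nd))))))) (.rp 0 (.thr 58 10 (.thr 57 59 (.thr 41 11 (.thr 61 1 (.thr 53 49 (.thr 48 63 (.dbl 37 5 15))))))) .nd))))))))) (.rp 19 (.str 28 (.nv (.thr 0 63 (.thr 10 58 (.thr 15 5 (.thr 48 37 (.thr 16 32 (.thr 20 24 (.dbl 60 40 52))))))) (.nv (.thr 41 11 (.thr 61 1 (.thr 63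 0 (.thr 60 62 (.thr 48 52 (.dbl 58 10 53)))))) (.nv (.thr 41 11 (.thr 40 43 (.thr 24 8 (.thr 20 16 (.dbl 0 60 63))))) (.rp 63 (.thr 41 11 (.thr 40 43 (.thr 24 8 (.thr 20 16 (.thr 60 0 (.thr 48 52 (.dbl 12 36 44))))))) (.rp 60 (.thr 63 0 (.thr 58 10 (.thr 57 59 (.thr 53 48 (.thr 61 49 (.dbl 41 1 11)))))) (.rp 27 (.str 23 (.nv (.thr 63 0 (.thr 41 11 (.dbl 43 3 40))) (.rp 63 (.thr 58 10 (.thr 57 59 (.thr 41 11 (.thr 43 40 (.thr 61 1 (.thr 53 49 (.thr 37 5 (.thr 47 32 (.thr 35 39 (.thr 44 38 (.dbl 45 33 46))))))))))) (.rp 43 (.thr 63 0 (.thr 58 10 (.thr 48 53 (.thr 60 52 (.thr 61 62 (.dbl 41 1 11)))))) (.rp 41 (.thr 63 0 (.thr 58 10 (.thr 57 59 (.thr 48 53 (.thr 60 52 (.thr 54 51 (.dbl 62 50 61))))))) (.rp 40 (.thr 63 0 (.thr 3 43 (.thr 58 10 (.thr 48 53 (.thr 11 41 (.dbl 15 7 37))))))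 (.rp 11 (.thr 63 0 (.thr 43 3 (.thr 41 40 (.thr 58 10 (.thr 57 59 (.thr 53 48 (.dbl 61 1 49))))))) (.rp 3 (.thr 63 0 (.thr 58 10 (.thr 57 59 (.thr 53 48 (.thr 61 49 (.dbl 41 1 11)))))) (.rp 0 (.thr 58 10 (.thr 57 59 (.thr 41 11 (.thr 43 40 (.thr 61 1 (.thr 53 49 (.dbl 63 3 48))))))) .nd))))))))) (.rp 23 (.str 27 (.nv (.thr 41 11 (.thr 40 43 (.thr 24 8 (.thr 20 16 (.dbl 0 60 63))))) (.nv (.thr 58 10 (.thr 59 57 (.dbl 11 41 43))) (.rp 43 (.thr 63 0 (.thr 58 10 (.thr 57 59 (.thr 53 48 (.thr 61 49 (.dbl 41 1 11)))))) (.rp 41 (.thr 63 0 (.thr 58 10 (.thr 48 53 (.thr 15 37 (.thr 51 39 (.dbl 59 55 57)))))) (.rp 11 (.thr 63 0 (.thr 58 10 (.thr 59 57 (.thr 48 53 (.thr 51 55 (.dbl 15 37 39)))))) (.rp 10 (.thr 63 0 (.thr 41 11 (.thr 61 1 (.thr 60 62 (.thr 48 52 (.thr 53 58 (.dbl 37 5 15)))))))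 (.rp 9 (.thr 63 0 (.thr 58 10 (.thr 57 59 (.thr 53 48 (.thr 61 49 (.dbl 41 1 11)))))) .nd)))))))) (.rp 10 (.thr 0 63 (.thr 41 11 (.thr 40 43 (.thr 20 60 (.dbl 24 8 16))))) (.rp 0 (.thr 58 10 (.thr 57 59 (.thr 41 11 (.thr 61 1 (.thr 53 49 (.thr 48 63 (.dbl 37 5 15))))))) .nd)))))))))) (.rp 0 (.thr 58 10 (.thr 57 59 (.thr 41 11 (.thr 61 1 (.thr 53 49 (.thr 48 63 (.dbl 37 5 15))))))) .nd)))))))))) (.rp 28 (.str 19 (.nv (.thr 16 31 (.thr 10 58 (.thr 0 63 (.thr 15 5 (.dbl 48 32 37))))) (.nv (.thr 31 16 (.thr 63 0 (.thr 15 47 (.thr 58 10 (.dbl 48 37 53))))) (.rp 63 (.str 41 (.nv (.thr 43 40 (.thr 31 16 (.thr 27 23 (.dbl 11 56 59)))) (.rp 59 (.thr 11 56 (.thr 16 31 (.thr 17 18 (.thr 1 61 (.thr 33 49 (.thr 37 45 (.thr 32 47 (.thr 15 48 (.thr 35 34 (.dbl 3 7 51)))))))))) (.rp 56 (.thr 40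 43 (.thr 16 31 (.thr 17 18 (.thr 1 61 (.thr 33 49 (.thr 37 45 (.thr 32 47 (.thr 15 48 (.thr 35 34 (.dbl 44 36 38)))))))))) (.rp 43 (.thr 10 58 (.thr 11 56 (.thr 9 8 (.thr 1 61 (.thr 5 13 (.thr 15 0 (.dbl 37 48 53))))))) (.rp 40 (.thr 58 10 (.thr 56 11 (.thr 57 59 (.thr 16 31 (.thr 61 1 (.thr 53 49 (.thr 37 5 (.thr 18 17 (.thr 33 45 (.dbl 48 3 15)))))))))) (.rp 31 (.thr 10 58 (.thr 11 56 (.thr 9 8 (.thr 1 61 (.thr 5 13 (.thr 15 0 (.dbl 37 48 53))))))) (.rp 27 (.thr 10 58 (.thr 11 56 (.thr 9 8 (.thr 1 61 (.thr 5 13 (.thr 15 0 (.dbl 37 48 53))))))) (.rp 24 (.thr 10 58 (.thr 11 56 (.thr 40 43 (.thr 9 8 (.thr 1 61 (.thr 5 13 (.thr 15 0 (.dbl 37 48 53)))))))) (.rp 23 (.thr 10 58 (.thr 11 56 (.thr 9 8 (.thr 1 61 (.thr 5 13 (.thr 15 0 (.dbl 37 48 53))))))) (.rp 20 (.thr 11 56 (.thr 43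 40 (.thr 27 59 (.dbl 31 16 23)))) (.rp 16 (.thr 10 58 (.thr 11 56 (.thr 9 8 (.thr 1 61 (.thr 5 13 (.thr 15 0 (.dbl 37 48 53))))))) (.rp 11 (.thr 40 43 (.thr 16 31 (.thr 17 18 (.thr 1 61 (.thr 33 49 (.thr 37 45 (.thr 32 47 (.thr 15 48 (.thr 35 34 (.dbl 44 36 38)))))))))) .nd))))))))))))) (.rp 58 (.thr 31 16 (.thr 27 23 (.thr 63 0 (.thr 15 47 (.thr 51 39 (.thr 55 59 (.thr 38 4 (.thr 50 14 (.dbl 48 37 49))))))))) (.rp 53 (.thr 16 31 (.thr 0 63 (.thr 10 58 (.thr 48 32 (.dbl 15 5 37))))) (.rp 48 (.str 38 (.nv (.thr 16 31 (.thr 17 18 (.thr 34 46 (.dbl 0 51 63)))) (.nv (.thr 0 63 (.thr 4 55 (.thr 12 8 (.thr 14 50 (.thr 15 13 (.dbl 10 5 58)))))) (.nv (.thr 16 31 (.thr 18 17 (.thr 34 46 (.dbl 50 2 14)))) .nd)))) (.rp 37 (.thr 31 16 (.thr 27 23 (.thr 0 63 (.thr 10 58 (.thr 15 5 (.thr 51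 39 (.thr 3 35 (.thr 1 2 (.thr 41 61 (.dbl 11 7 56)))))))))) (.rp 32 (.thr 31 16 (.thr 58 10 (.thr 63 0 (.thr 48 53 (.dbl 15 37 47))))) (.rp 31 (.thr 0 63 (.thr 10 58 (.thr 15 5 (.thr 48 37 (.thr 16 32 (.thr 18 17 (.thr 3 33 (.thr 1 2 (.thr 41 61 (.dbl 11 7 56)))))))))) (.rp 16 (.thr 63 0 (.thr 58 10 (.thr 48 53 (.thr 15 37 (.thr 31 47 (.thr 27 23 (.thr 51 39 (.thr 55 59 (.thr 38 4 (.dbl 50 14 49)))))))))) (.rp 15 (.str 41 (.nv (.thr 0 63 (.thr 1 61 (.thr 3 2 (.thr 51 35 (.thr 17 34 (.dbl 16 18 31)))))) (.nv (.thr 11 56 (.thr 31 16 (.thr 27 23 (.dbl 43 40 59)))) (.rp 31 (.thr 58 10 (.thr 56 11 (.thr 57 59 (.thr 61 1 (.thr 53 49 (.dbl 63 0 48)))))) (.rp 16 (.thr 11 56 (.thr 43 40 (.thr 27 59 (.thr 63 0 (.dbl 23 3 31))))) .nd))))) (.rp 10 (.thr 31 16 (.thr 27 23 (.thr 63 0 (.thr 15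 47 (.thr 51 39 (.thr 55 59 (.thr 38 4 (.thr 50 14 (.dbl 48 37 49))))))))) (.rp 0 (.str 38 (.nv (.thr 34 46 (.thr 16 31 (.thr 18 17 (.dbl 50 2 14)))) (.rp 50 (.thr 46 34 (.thr 31 16 (.thr 23 27 (.thr 55 4 (.thr 39 7 (.thr 37 36 (.thr 47 32 (.thr 48 15 (.thr 35 43 (.dbl 44 41 45)))))))))) (.rp 46 (.thr 10 58 (.thr 14 50 (.thr 6 2 (.thr 31 16 (.thr 4 55 (.thr 5 7 (.thr 37 53 (.thr 27 23 (.thr 39 36 (.dbl 15 48 51)))))))))) (.rp 34 (.thr 58 10 (.thr 50 14 (.thr 54 62 (.thr 55 4 (.thr 53 52 (.thr 48 63 (.dbl 37 5 15))))))) (.rp 31 (.thr 58 10 (.thr 50 14 (.thr 54 62 (.thr 55 4 (.thr 53 52 (.thr 48 63 (.dbl 37 5 15))))))) (.rp 30 (.thr 58 10 (.thr 50 14 (.thr 46 34 (.thr 54 62 (.thr 55 4 (.thr 53 52 (.thr 48 63 (.dbl 37 5 15)))))))) (.rp 29 (.thr 50 14 (.thr 34 46 (.thr 18 2 (.dbl 16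 17 31)))) (.rp 18 (.thr 58 10 (.thr 50 14 (.thr 54 62 (.thr 55 4 (.thr 53 52 (.thr 48 63 (.dbl 37 5 15))))))) (.rp 17 (.thr 58 10 (.thr 50 14 (.thr 54 62 (.thr 55 4 (.thr 53 52 (.thr 48 63 (.dbl 37 5 15))))))) (.rp 16 (.thr 58 10 (.thr 50 14 (.thr 54 62 (.thr 55 4 (.thr 53 52 (.thr 48 63 (.dbl 37 5 15))))))) (.rp 14 (.thr 46 34 (.thr 31 16 (.thr 23 27 (.thr 55 4 (.thr 39 7 (.thr 37 36 (.thr 47 32 (.thr 48 15 (.thr 35 43 (.dbl 44 41 45)))))))))) (.rp 2 (.thr 50 14 (.thr 31 16 (.thr 23 27 (.thr 55 4 (.thr 39 7 (.thr 37 36 (.thr 47 32 (.thr 48 15 (.thr 35 43 (.dbl 51 3 49)))))))))) .nd))))))))))))) .nd)))))))))))))) (.rp 19 (.str 28 (.nv (.thr 16 31 (.thr 10 58 (.thr 0 63 (.thr 15 5 (.dbl 48 32 37))))) (.nv (.thr 31 16 (.thr 63 0 (.thr 15 47 (.thr 58 10 (.dbl 48 37 53))))) (.rp 63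 (.str 38 (.nv (.thr 46 34 (.thr 31 16 (.thr 30 29 (.dbl 14 50 62)))) (.rp 62 (.thr 14 50 (.thr 16 31 (.thr 20 24 (.thr 4 55 (.thr 36 52 (.thr 37 39 (.thr 32 47 (.thr 15 48 (.thr 44 40 (.dbl 12 13 60)))))))))) (.rp 50 (.thr 34 46 (.thr 16 31 (.thr 20 24 (.thr 4 55 (.thr 36 52 (.thr 37 39 (.thr 32 47 (.thr 15 48 (.thr 44 40 (.dbl 35 33 41)))))))))) (.rp 46 (.thr 10 58 (.thr 14 50 (.thr 6 2 (.thr 4 55 (.thr 5 7 (.thr 15 0 (.dbl 37 48 53))))))) (.rp 34 (.thr 58 10 (.thr 50 14 (.thr 54 62 (.thr 16 31 (.thr 55 4 (.thr 53 52 (.thr 37 5 (.thr 24 20 (.thr 36 39 (.dbl 48 12 15)))))))))) (.rp 31 (.thr 10 58 (.thr 14 50 (.thr 6 2 (.thr 4 55 (.thr 5 7 (.thr 15 0 (.dbl 37 48 53))))))) (.rp 30 (.thr 10 58 (.thr 14 50 (.thr 6 2 (.thr 4 55 (.thr 5 7 (.thr 15 0 (.dbl 37 48 53))))))) (.rp 29 (.thr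 10 58 (.thr 14 50 (.thr 6 2 (.thr 4 55 (.thr 5 7 (.thr 15 0 (.dbl 37 48 53))))))) (.rp 18 (.thr 10 58 (.thr 14 50 (.thr 34 46 (.thr 6 2 (.thr 4 55 (.thr 5 7 (.thr 15 0 (.dbl 37 48 53)))))))) (.rp 17 (.thr 14 50 (.thr 46 34 (.thr 30 62 (.dbl 31 16 29)))) (.rp 16 (.thr 10 58 (.thr 14 50 (.thr 6 2 (.thr 4 55 (.thr 5 7 (.thr 15 0 (.dbl 37 48 53))))))) (.rp 14 (.thr 34 46 (.thr 16 31 (.thr 20 24 (.thr 4 55 (.thr 36 52 (.thr 37 39 (.thr 32 47 (.thr 15 48 (.thr 44 40 (.dbl 35 33 41)))))))))) .nd))))))))))))) (.rp 58 (.thr 31 16 (.thr 30 29 (.thr 63 0 (.thr 15 47 (.thr 60 45 (.thr 61 62 (.thr 41 1 (.thr 56 11 (.dbl 48 37 52))))))))) (.rp 53 (.thr 16 31 (.thr 0 63 (.thr 10 58 (.thr 48 32 (.dbl 15 5 37))))) (.rp 48 (.str 41 (.nv (.thr 16 31 (.thr 20 24 (.thr 40 43 (.dbl 0 60 63)))) (.nv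 (.thr 0 63 (.thr 1 61 (.thr 3 2 (.thr 11 56 (.thr 15 7 (.dbl 10 5 58)))))) (.nv (.thr 16 31 (.thr 24 20 (.thr 40 43 (.dbl 56 8 11)))) .nd)))) (.rp 37 (.thr 31 16 (.thr 30 29 (.thr 0 63 (.thr 10 58 (.thr 15 5 (.thr 60 45 (.thr 12 44 (.thr 4 8 (.thr 38 55 (.dbl 14 13 50)))))))))) (.rp 32 (.thr 31 16 (.thr 58 10 (.thr 63 0 (.thr 48 53 (.dbl 15 37 47))))) (.rp 31 (.thr 0 63 (.thr 10 58 (.thr 15 5 (.thr 48 37 (.thr 16 32 (.thr 24 20 (.thr 12 36 (.thr 4 8 (.thr 38 55 (.dbl 14 13 50)))))))))) (.rp 16 (.thr 63 0 (.thr 58 10 (.thr 48 53 (.thr 15 37 (.thr 31 47 (.thr 30 29 (.thr 60 45 (.thr 61 62 (.thr 41 1 (.dbl 56 11 52)))))))))) (.rp 15 (.str 38 (.nv (.thr 0 63 (.thr 4 55 (.thr 12 8 (.thr 60 44 (.thr 20 40 (.dbl 16 24 31)))))) (.nv (.thr 14 50 (.thr 31 16 (.thr 30 29 (.dbl 46 34 62))))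 (.rp 31 (.thr 58 10 (.thr 50 14 (.thr 54 62 (.thr 55 4 (.thr 53 52 (.dbl 63 0 48)))))) (.rp 16 (.thr 14 50 (.thr 46 34 (.thr 30 62 (.thr 63 0 (.dbl 29 12 31))))) .nd))))) (.rp 10 (.thr 31 16 (.thr 30 29 (.thr 63 0 (.thr 15 47 (.thr 60 45 (.thr 61 62 (.thr 41 1 (.thr 56 11 (.dbl 48 37 52))))))))) (.rp 0 (.str 41 (.nv (.thr 40 43 (.thr 16 31 (.thr 24 20 (.dbl 56 8 11)))) (.rp 56 (.thr 43 40 (.thr 31 16 (.thr 29 30 (.thr 61 1 (.thr 45 13 (.thr 37 33 (.thr 47 32 (.thr 48 15 (.thr 44 46 (.dbl 35 38 39)))))))))) (.rp 43 (.thr 10 58 (.thr 11 56 (.thr 9 8 (.thr 31 16 (.thr 1 61 (.thr 5 13 (.thr 37 53 (.thr 30 29 (.thr 45 33 (.dbl 15 48 60)))))))))) (.rp 40 (.thr 58 10 (.thr 56 11 (.thr 57 59 (.thr 61 1 (.thr 53 49 (.thr 48 63 (.dbl 37 5 15))))))) (.rp 31 (.thr 58 10 (.thr 56 11 (.thr 57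 59 (.thr 61 1 (.thr 53 49 (.thr 48 63 (.dbl 37 5 15))))))) (.rp 27 (.thr 58 10 (.thr 56 11 (.thr 43 40 (.thr 57 59 (.thr 61 1 (.thr 53 49 (.thr 48 63 (.dbl 37 5 15)))))))) (.rp 24 (.thr 58 10 (.thr 56 11 (.thr 57 59 (.thr 61 1 (.thr 53 49 (.thr 48 63 (.dbl 37 5 15))))))) (.rp 23 (.thr 56 11 (.thr 40 43 (.thr 24 8 (.dbl 16 20 31)))) (.rp 20 (.thr 58 10 (.thr 56 11 (.thr 57 59 (.thr 61 1 (.thr 53 49 (.thr 48 63 (.dbl 37 5 15))))))) (.rp 16 (.thr 58 10 (.thr 56 11 (.thr 57 59 (.thr 61 1 (.thr 53 49 (.thr 48 63 (.dbl 37 5 15))))))) (.rp 11 (.thr 43 40 (.thr 31 16 (.thr 29 30 (.thr 61 1 (.thr 45 13 (.thr 37 33 (.thr 47 32 (.thr 48 15 (.thr 44 46 (.dbl 35 38 39)))))))))) (.rp 8 (.thr 56 11 (.thr 31 16 (.thr 29 30 (.thr 61 1 (.thr 45 13 (.thr 37 33 (.thr 47 32 (.thr 48 15 (.thr 44 46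 (.dbl 60 12 52)))))))))) .nd))))))))))))) .nd)))))))))))))) (.rp 16 (.str 11 (.nv (.thr 10 58 (.thr 9 8 (.thr 0 63 (.thr 15 5 (.thr 3 7 (.thr 2 1 (.dbl 6 12 14))))))) (.nv (.thr 0 63 (.thr 10 58 (.thr 5 15 (.thr 9 8 (.thr 41 56 (.dbl 1 13 61)))))) (.nv (.thr 0 63 (.thr 41 56 (.thr 1 61 (.thr 3 2 (.thr 15 7 (.dbl 10 5 58)))))) (.rp 63 (.thr 10 58 (.thr 9 8 (.thr 41 56 (.thr 1 61 (.thr 5 13 (.thr 15 0 (.dbl 37 48 53))))))) (.rp 58 (.thr 0 63 (.thr 41 56 (.thr 1 61 (.thr 3 2 (.thr 15 7 (.thr 5 10 (.dbl 37 48 53))))))) (.rp 28 (.str 19 (.nv (.thr 0 63 (.thr 41 56 (.thr 1 61 (.thr 3 2 (.thr 15 7 (.thr 5 10 (.dbl 37 48 53))))))) (.nv (.thr 0 63 (.thr 10 58 (.thr 9 8 (.thr 15 5 (.thr 3 7 (.thr 2 1 (.dbl 6 12 14))))))) (.nv (.thr 41 56 (.thr 43 40 (.thr 27 59 (.thr 23 31 (.dbl 63 0 3)))))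 (.rp 63 (.thr 10 58 (.thr 9 8 (.thr 41 56 (.thr 1 61 (.thr 5 13 (.thr 15 0 (.dbl 37 48 53))))))) (.rp 24 (.str 20 (.nv (.thr 0 63 (.thr 41 56 (.dbl 40 43 60))) (.rp 63 (.thr 10 58 (.thr 9 8 (.thr 41 56 (.thr 40 43 (.thr 1 61 (.thr 5 13 (.dbl 0 15 60))))))) (.rp 60 (.thr 0 63 (.thr 10 58 (.thr 9 8 (.thr 5 15 (.thr 1 13 (.dbl 41 56 61)))))) (.rp 56 (.thr 0 63 (.thr 40 60 (.thr 41 43 (.thr 10 58 (.thr 9 8 (.thr 5 15 (.dbl 1 13 61))))))) (.rp 43 (.thr 0 63 (.thr 60 40 (.thr 10 58 (.thr 15 5 (.thr 56 41 (.dbl 48 37 52)))))) (.rp 41 (.thr 0 63 (.thr 10 58 (.thr 9 8 (.thr 15 5 (.thr 3 7 (.thr 6 12 (.dbl 2 1 14))))))) (.rp 40 (.thr 0 63 (.thr 10 58 (.thr 15 5 (.thr 3 7 (.thr 1 2 (.dbl 41 56 61)))))) (.rp 0 (.thr 10 58 (.thr 9 8 (.thr 41 56 (.thr 40 43 (.thr 1 61 (.thr 5 13 (.thr 37 53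 (.thr 32 47 (.thr 44 36 (.thr 35 38 (.dbl 33 34 45))))))))))) .nd))))))))) (.rp 20 (.str 24 (.nv (.thr 41 56 (.thr 43 40 (.thr 27 59 (.thr 23 31 (.dbl 63 0 3))))) (.nv (.thr 10 58 (.thr 8 9 (.dbl 56 40 41))) (.rp 58 (.thr 0 63 (.thr 41 56 (.thr 1 61 (.thr 3 2 (.thr 15 7 (.thr 5 10 (.dbl 37 48 53))))))) (.rp 57 (.thr 0 63 (.thr 10 58 (.thr 9 8 (.thr 5 15 (.thr 1 13 (.dbl 41 56 61)))))) (.rp 56 (.thr 0 63 (.thr 10 58 (.thr 8 9 (.thr 15 5 (.thr 12 4 (.dbl 48 36 37)))))) (.rp 41 (.thr 0 63 (.thr 10 58 (.thr 15 5 (.thr 48 37 (.thr 12 36 (.dbl 8 4 9)))))) (.rp 40 (.thr 0 63 (.thr 10 58 (.thr 9 8 (.thr 5 15 (.thr 1 13 (.dbl 41 56 61)))))) .nd)))))))) (.rp 3 (.thr 0 63 (.thr 10 58 (.thr 9 8 (.thr 5 15 (.thr 1 13 (.dbl 41 56 61)))))) (.rp 0 (.thr 41 56 (.thr 43 40 (.thr 27 59 (.thr 23 31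 (.thr 3 63 (.thr 15 7 (.dbl 51 35 39))))))) .nd))))))))) (.rp 19 (.str 28 (.nv (.thr 10 58 (.thr 9 8 (.thr 0 63 (.thr 15 5 (.thr 3 7 (.thr 2 1 (.dbl 6 12 14))))))) (.nv (.thr 0 63 (.thr 10 58 (.thr 8 9 (.thr 12 4 (.thr 41 56 (.thr 60 44 (.dbl 40 20 43))))))) (.nv (.thr 0 63 (.thr 41 56 (.thr 1 61 (.thr 3 2 (.thr 15 7 (.dbl 10 5 58)))))) (.rp 63 (.thr 10 58 (.thr 9 8 (.thr 41 56 (.thr 1 61 (.thr 5 13 (.thr 15 0 (.dbl 37 48 53))))))) (.rp 58 (.thr 0 63 (.thr 41 56 (.thr 1 61 (.thr 3 2 (.thr 15 7 (.thr 5 10 (.dbl 37 48 53))))))) (.rp 18 (.str 17 (.nv (.thr 0 63 (.thr 41 56 (.thr 1 61 (.thr 3 2 (.thr 15 7 (.dbl 10 5 58)))))) (.nv (.thr 0 63 (.thr 10 58 (.thr 8 9 (.thr 4 12 (.thr 34 51 (.dbl 38 46 55)))))) (.nv (.thr 0 63 (.thr 10 58 (.thr 15 5 (.thr 41 56 (.thr 1 61 (.dbl 3 2 7))))))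 (.rp 63 (.thr 10 58 (.thr 9 8 (.thr 41 56 (.thr 1 61 (.thr 5 13 (.thr 15 0 (.dbl 37 48 53))))))) (.rp 58 (.thr 0 63 (.thr 34 51 (.thr 38 46 (.thr 41 56 (.thr 35 44 (.thr 33 32 (.dbl 1 49 61))))))) (.rp 41 (.thr 0 63 (.thr 10 58 (.thr 9 8 (.thr 15 5 (.thr 3 7 (.thr 6 12 (.dbl 2 1 14))))))) (.rp 10 (.thr 0 63 (.thr 34 51 (.thr 38 46 (.thr 41 56 (.thr 35 44 (.thr 33 32 (.dbl 1 49 61))))))) (.rp 3 (.thr 0 63 (.thr 10 58 (.thr 9 8 (.thr 5 15 (.thr 1 13 (.dbl 41 56 61)))))) (.rp 0 (.thr 10 58 (.thr 9 8 (.thr 41 56 (.thr 1 61 (.thr 5 13 (.thr 37 53 (.dbl 33 45 49))))))) .nd)))))))))) (.rp 17 (.str 18 (.nv (.thr 41 56 (.thr 43 40 (.thr 63 0 (.thr 3 23 (.thr 48 33 (.dbl 58 10 53)))))) (.nv (.thr 0 63 (.thr 41 56 (.thr 1 61 (.thr 3 2 (.thr 15 7 (.dbl 48 33 37)))))) (.nv (.thr 10 58 (.thr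 9 8 (.thr 41 56 (.thr 1 61 (.thr 5 13 (.dbl 0 15 63)))))) (.nv (.thr 0 63 (.thr 10 58 (.thr 15 5 (.thr 3 7 (.dbl 48 33 37))))) (.rp 63 (.thr 10 58 (.thr 9 8 (.thr 41 56 (.thr 1 61 (.thr 5 13 (.thr 15 0 (.dbl 37 48 53))))))) (.rp 0 (.thr 10 58 (.thr 9 8 (.thr 41 56 (.thr 1 61 (.thr 5 13 (.thr 37 53 (.thr 48 15 (.dbl 33 3 45)))))))) .nd))))))) (.rp 10 (.thr 63 0 (.thr 41 56 (.thr 43 40 (.thr 3 23 (.thr 15 7 (.thr 47 31 (.thr 27 59 (.dbl 39 35 51)))))))) (.rp 0 (.thr 10 58 (.thr 9 8 (.thr 41 56 (.thr 40 43 (.thr 1 61 (.thr 5 13 (.thr 37 53 (.thr 32 47 (.thr 44 36 (.thr 35 38 (.dbl 33 34 45))))))))))) .nd)))))))))) (.rp 15 (.thr 0 63 (.thr 10 58 (.thr 8 9 (.thr 4 12 (.thr 38 55 (.thr 14 50 (.thr 41 56 (.thr 1 61 (.dbl 2 3 6))))))))) (.rp 10 (.thr 63 0 (.thr 41 56 (.thr 43 40 (.thr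 3 23 (.thr 15 7 (.thr 47 31 (.dbl 37 32 48))))))) (.rp 5 (.thr 63 0 (.thr 41 56 (.thr 43 40 (.thr 3 23 (.thr 15 7 (.thr 47 31 (.dbl 37 32 48))))))) (.rp 1 (.thr 63 0 (.thr 58 10 (.thr 41 56 (.thr 43 40 (.thr 3 23 (.thr 15 7 (.dbl 48 37 53))))))) (.rp 0 (.thr 10 58 (.thr 9 8 (.thr 41 56 (.thr 40 43 (.thr 1 61 (.thr 5 13 (.thr 37 53 (.thr 32 47 (.thr 44 36 (.thr 35 38 (.dbl 33 34 45))))))))))) .nd))))))))))))) (.rp 15 (.str 41 (.nv (.thr 31 16 (.thr 43 40 (.thr 11 56 (.thr 27 59 (.thr 63 0 (.dbl 23 3 19)))))) (.nv (.thr 0 63 (.thr 40 43 (.thr 20 60 (.thr 56 11 (.thr 24 8 (.dbl 16 28 31)))))) (.nv (.thr 31 16 (.thr 61 1 (.thr 63 0 (.thr 60 62 (.thr 56 11 (.thr 48 52 (.dbl 58 10 53))))))) (.rp 63 (.thr 31 16 (.str 37 (.nv (.thr 1 61 (.thr 5 53 (.thr 9 13 (.thr 11 56 (.dbl 10 8 58)))))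 (.nv (.thr 61 1 (.thr 56 11 (.thr 53 5 (.thr 57 49 (.dbl 58 10 59))))) (.nv (.thr 40 43 (.thr 33 45 (.thr 32 47 (.thr 35 34 (.dbl 44 36 38))))) (.rp 28 (.str 19 (.nv (.thr 1 61 (.thr 5 53 (.thr 9 13 (.thr 11 56 (.dbl 10 8 58))))) (.nv (.thr 27 23 (.thr 43 40 (.dbl 11 56 59))) (.rp 56 (.thr 33 45 (.thr 32 47 (.thr 35 34 (.thr 40 43 (.dbl 44 36 38))))) (.rp 24 (.str 20 (.nv (.thr 1 61 (.thr 5 53 (.thr 9 13 (.thr 11 56 (.dbl 10 8 58))))) (.nv (.thr 27 23 (.thr 43 40 (.dbl 11 56 59))) (.rp 56 (.thr 40 43 (.thr 32 47 (.thr 33 45 (.thr 35 34 (.dbl 44 36 38))))) (.rp 40 (.thr 61 1 (.thr 56 11 (.thr 58 10 (.thr 57 59 (.dbl 53 5 49))))) (.rp 11 (.thr 43 40 (.thr 47 32 (.thr 35 39 (.thr 45 33 (.dbl 44 38 46))))) (.rp 8 (.thr 40 43 (.thr 32 47 (.thr 33 45 (.thr 35 34 (.dbl 44 36 38))))) .nd)))))))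 (.rp 20 (.str 24 (.nv (.thr 11 56 (.thr 27 23 (.dbl 43 40 59))) (.nv (.thr 40 43 (.dbl 56 8 11)) (.rp 56 (.thr 43 40 (.thr 47 32 (.thr 35 39 (.thr 45 33 (.dbl 44 38 46))))) (.rp 43 (.thr 61 1 (.thr 56 11 (.thr 53 5 (.thr 57 49 (.dbl 58 10 59))))) (.rp 40 (.thr 61 1 (.thr 56 11 (.thr 58 10 (.thr 57 59 (.dbl 53 5 49))))) (.rp 23 (.thr 56 11 (.dbl 40 8 43)) (.rp 11 (.thr 43 40 (.thr 47 32 (.thr 35 39 (.thr 45 33 (.dbl 44 38 46))))) .nd)))))))) (.rp 11 (.thr 33 45 (.thr 32 47 (.thr 35 34 (.thr 40 43 (.dbl 44 36 38))))) .nd))))))) (.rp 19 (.str 28 (.nv (.thr 1 61 (.thr 10 58 (.thr 11 56 (.thr 9 8 (.dbl 5 13 53))))) (.nv (.thr 29 30 (.thr 45 33 (.dbl 61 1 13))) (.rp 61 (.thr 40 43 (.thr 32 47 (.thr 44 36 (.thr 33 45 (.dbl 35 34 38))))) (.rp 18 (.str 17 (.nv (.thr 29 30 (.thr 45 33 (.dbl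 61 1 13))) (.nv (.thr 33 45 (.dbl 1 49 61)) (.rp 61 (.thr 45 33 (.thr 47 32 (.thr 44 46 (.thr 43 40 (.dbl 35 38 39))))) (.rp 45 (.thr 11 56 (.thr 1 61 (.thr 10 58 (.thr 9 8 (.dbl 5 13 53))))) (.rp 33 (.thr 11 56 (.thr 1 61 (.thr 5 53 (.thr 9 13 (.dbl 10 8 58))))) (.rp 30 (.thr 1 61 (.dbl 33 45 49)) (.rp 1 (.thr 45 33 (.thr 47 32 (.thr 44 46 (.thr 43 40 (.dbl 35 38 39))))) .nd)))))))) (.rp 17 (.str 18 (.nv (.thr 1 61 (.thr 10 58 (.thr 11 56 (.thr 9 8 (.dbl 5 13 53))))) (.nv (.thr 29 30 (.thr 45 33 (.dbl 61 1 13))) (.rp 61 (.thr 45 33 (.thr 47 32 (.thr 44 46 (.thr 43 40 (.dbl 35 38 39))))) (.rp 13 (.thr 45 33 (.thr 47 32 (.thr 44 46 (.thr 43 40 (.dbl 35 38 39))))) (.rp 1 (.thr 33 45 (.thr 32 47 (.thr 40 43 (.thr 44 36 (.dbl 35 34 38))))) .nd)))))) (.rp 13 (.thr 58 10 (.thr 56 11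 (.thr 57 59 (.thr 61 1 (.dbl 53 5 49))))) (.rp 1 (.thr 40 43 (.thr 32 47 (.thr 44 36 (.thr 33 45 (.dbl 35 34 38))))) .nd)))))))) .nd))))))) (.rp 60 (.thr 56 11 (.thr 58 10 (.thr 57 59 (.thr 61 1 (.thr 53 49 (.dbl 63 0 48)))))) (.rp 56 (.thr 10 58 (.thr 0 63 (.thr 1 61 (.thr 2 3 (.thr 14 6 (.thr 38 50 (.thr 34 46 (.thr 35 44 (.thr 32 33 (.dbl 16 31 48)))))))))) (.rp 31 (.thr 56 11 (.thr 58 10 (.thr 57 59 (.thr 61 1 (.thr 53 49 (.dbl 63 0 48)))))) (.rp 28 (.str 19 (.nv (.thr 0 63 (.thr 1 61 (.thr 3 2 (.thr 51 35 (.thr 17 34 (.dbl 16 18 31)))))) (.nv (.thr 11 56 (.thr 31 16 (.thr 27 23 (.dbl 43 40 59)))) (.rp 31 (.thr 58 10 (.thr 56 11 (.thr 57 59 (.thr 61 1 (.thr 53 49 (.dbl 63 0 48)))))) (.rp 16 (.thr 11 56 (.thr 43 40 (.thr 27 59 (.thr 63 0 (.dbl 23 3 31))))) .nd))))) (.rp 19 (.str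 28 (.nv (.thr 0 63 (.thr 40 43 (.thr 60 20 (.thr 12 44 (.thr 8 4 (.dbl 56 11 24)))))) (.nv (.thr 40 43 (.thr 56 11 (.thr 24 8 (.dbl 16 20 31)))) (.nv (.thr 16 31 (.thr 20 24 (.thr 40 43 (.dbl 0 60 63)))) (.rp 43 (.thr 56 11 (.thr 63 0 (.thr 61 1 (.thr 60 62 (.thr 48 52 (.dbl 58 10 53)))))) (.rp 40 (.thr 58 10 (.thr 56 11 (.thr 57 59 (.thr 61 1 (.thr 53 49 (.dbl 63 0 48)))))) (.rp 31 (.thr 56 11 (.thr 40 43 (.thr 24 8 (.thr 20 16 (.dbl 0 60 63))))) (.rp 24 (.thr 58 10 (.thr 56 11 (.thr 57 59 (.thr 61 1 (.thr 53 49 (.dbl 63 0 48)))))) (.rp 20 (.thr 58 10 (.thr 56 11 (.thr 57 59 (.thr 61 1 (.thr 53 49 (.dbl 63 0 48)))))) .nd))))))))) (.rp 16 (.thr 56 11 (.thr 58 10 (.thr 57 59 (.thr 61 1 (.thr 53 49 (.dbl 63 0 48)))))) (.rp 11 (.thr 61 1 (.thr 63 0 (.thr 60 62 (.thr 43 40 (.thr 3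 23 (.str 53 (.nv (.dbl 58 10 48) (.rp 58 (.thr 57 49 (.thr 54 51 (.thr 52 55 (.thr 48 56 (.thr 33 18 (.dbl 37 5 45)))))) (.rp 48 (.thr 57 49 (.thr 51 54 (.thr 59 55 (.dbl 58 10 56)))) (.rp 28 (.str 19 (.nv (.thr 5 37 (.thr 51 35 (.dbl 57 49 54))) (.nv (.dbl 58 10 48) (.rp 5 (.thr 10 58 (.thr 57 49 (.dbl 51 35 54))) .nd)))) (.rp 19 (.str 28 (.nv (.thr 12 44 (.thr 29 46 (.dbl 31 16 30))) (.nv (.dbl 58 10 48) (.rp 31 (.str 27 (.nv (.dbl 58 10 48) (.rp 58 (.thr 12 44 (.thr 29 46 (.thr 45 13 (.dbl 37 5 33)))) (.rp 48 (.thr 57 49 (.thr 51 54 (.thr 59 55 (.dbl 58 10 56)))) (.rp 10 (.thr 5 37 (.thr 48 58 (.thr 52 56 (.thr 54 55 (.dbl 57 49 51))))) (.rp 5 (.thr 10 58 (.thr 57 49 (.thr 54 51 (.thr 55 52 (.thr 38 4 (.dbl 44 12 35)))))) .nd)))))) (.rp 27 (.thr 31 16 (.dbl 58 10 48)) (.rp 10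 (.thr 5 37 (.thr 31 16 (.thr 29 30 (.dbl 12 44 46)))) (.rp 5 (.thr 10 58 (.thr 31 16 (.thr 29 30 (.dbl 12 44 46)))) .nd))))))) (.rp 10 (.thr 5 37 (.thr 48 58 (.thr 52 56 (.thr 54 55 (.dbl 57 49 51))))) (.rp 5 (.thr 10 58 (.thr 57 49 (.thr 54 51 (.thr 52 55 (.thr 48 56 (.thr 16 31 (.thr 33 18 (.thr 37 45 (.thr 32 47 (.thr 34 35 (.thr 46 38 (.thr 12 29 (.thr 24 36 (.dbl 28 20 44)))))))))))))) .nd))))))))))))) (.rp 10 (.thr 40 43 (.thr 56 11 (.thr 0 63 (.thr 60 20 (.thr 48 52 (.dbl 16 31 32)))))) (.rp 3 (.thr 40 43 (.thr 11 56 (.thr 10 58 (.thr 9 8 (.thr 1 61 (.thr 5 13 (.thr 37 53 (.thr 32 47 (.thr 44 36 (.thr 35 38 (.dbl 33 34 45))))))))))) (.rp 0 (.thr 40 43 (.thr 11 56 (.thr 10 58 (.thr 9 8 (.thr 1 61 (.thr 5 13 (.thr 37 53 (.thr 32 47 (.thr 44 36 (.thr 35 38 (.dbl 33 34 45)))))))))))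 .nd))))))))))))))) (.rp 10 (.thr 0 63 (.str 41 (.nv (.thr 40 43 (.thr 56 11 (.thr 60 20 (.thr 48 52 (.dbl 16 31 32))))) (.nv (.thr 16 31 (.thr 40 43 (.thr 20 60 (.thr 56 11 (.dbl 24 8 28))))) (.nv (.thr 1 61 (.thr 3 2 (.thr 16 31 (.thr 48 32 (.thr 33 18 (.dbl 37 15 45)))))) (.nv (.thr 16 31 (.thr 48 32 (.thr 40 43 (.thr 60 20 (.dbl 56 11 52))))) (.rp 60 (.thr 43 40 (.thr 16 31 (.thr 32 48 (.thr 47 37 (.thr 35 39 (.thr 34 33 (.dbl 38 44 46))))))) (.rp 31 (.thr 40 43 (.thr 56 11 (.thr 60 20 (.thr 48 52 (.thr 32 16 (.dbl 37 15 47)))))) (.rp 28 (.str 19 (.nv (.thr 1 61 (.thr 3 2 (.thr 51 35 (.thr 17 34 (.thr 33 49 (.dbl 18 16 48)))))) (.nv (.thr 31 16 (.thr 27 23 (.thr 43 40 (.dbl 11 56 59)))) (.rp 16 (.thr 11 56 (.thr 43 40 (.thr 27 59 (.thr 1 61 (.thr 3 2 (.thr 51 35 (.dbl 15 7 39)))))))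 .nd)))) (.rp 19 (.str 28 (.nv (.thr 40 43 (.thr 20 60 (.thr 24 16 (.dbl 56 8 11)))) (.nv (.thr 16 31 (.thr 20 24 (.dbl 40 43 60))) (.rp 60 (.thr 16 31 (.thr 24 20 (.thr 56 11 (.dbl 40 8 43)))) (.rp 43 (.thr 16 31 (.thr 20 24 (.thr 60 40 (.thr 48 32 (.dbl 56 11 52))))) (.rp 40 (.thr 1 61 (.thr 16 31 (.thr 48 32 (.thr 15 37 (.thr 11 56 (.dbl 3 2 7)))))) (.rp 24 (.thr 16 31 (.thr 32 48 (.thr 40 43 (.thr 60 20 (.dbl 44 12 36))))) (.rp 23 (.thr 1 61 (.thr 56 11 (.thr 40 43 (.thr 3 2 (.thr 8 24 (.thr 12 4 (.dbl 60 20 44))))))) (.rp 20 (.thr 1 61 (.thr 16 31 (.thr 48 32 (.thr 15 37 (.thr 11 56 (.dbl 3 2 7)))))) (.rp 16 (.thr 56 11 (.thr 40 43 (.thr 8 24 (.thr 12 4 (.dbl 60 20 44))))) .nd)))))))))) (.rp 16 (.thr 40 43 (.thr 56 11 (.thr 8 24 (.thr 20 60 (.thr 4 12 (.thr 38 55 (.thr 36 52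 (.dbl 44 32 35)))))))) (.rp 3 (.thr 56 11 (.thr 16 31 (.thr 48 32 (.thr 60 52 (.dbl 40 20 43))))) .nd)))))))))))) (.rp 0 (.str 48 (.nv (.thr 58 10 (.thr 53 63 (.dbl 37 5 15))) (.rp 63 (.str 50 (.nv (.thr 38 14 (.thr 55 4 (.thr 58 10 (.thr 54 62 (.thr 53 52 (.dbl 37 5 15)))))) (.nv (.thr 10 58 (.thr 16 31 (.thr 38 14 (.thr 34 46 (.thr 18 2 (.thr 3 33 (.thr 19 17 (.dbl 51 35 49)))))))) (.nv (.thr 51 49 (.thr 58 10 (.thr 54 62 (.thr 60 57 (.thr 52 56 (.thr 53 55 (.dbl 37 5 15))))))) (.rp 62 (.thr 38 14 (.thr 46 34 (.thr 37 15 (.thr 39 36 (.thr 47 32 (.thr 35 43 (.dbl 44 41 45))))))) (.rp 58 (.thr 51 49 (.thr 16 31 (.thr 38 14 (.thr 34 46 (.thr 18 2 (.thr 19 17 (.dbl 3 33 35))))))) (.rp 28 (.str 19 (.nv (.thr 38 14 (.thr 34 46 (.thr 18 2 (.thr 3 33 (.dbl 51 35 49))))) (.nv (.thr 51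 49 (.thr 31 16 (.thr 27 23 (.dbl 15 37 39)))) (.nv (.thr 16 31 (.thr 38 14 (.thr 18 17 (.dbl 34 2 46)))) .nd)))) (.rp 19 (.str 28 (.nv (.thr 16 31 (.thr 24 20 (.thr 12 36 (.thr 15 37 (.dbl 14 13 38))))) (.nv (.thr 58 10 (.thr 62 54 (.thr 31 16 (.thr 30 29 (.dbl 14 38 46))))) (.rp 38 (.thr 51 49 (.thr 16 31 (.thr 24 20 (.thr 12 36 (.thr 60 44 (.thr 54 57 (.dbl 58 10 62))))))) (.rp 31 (.thr 58 10 (.thr 54 62 (.thr 38 14 (.thr 55 4 (.thr 53 52 (.dbl 37 5 15)))))) (.rp 16 (.thr 58 10 (.thr 54 62 (.thr 38 14 (.thr 55 4 (.thr 53 52 (.dbl 37 5 15)))))) (.rp 15 (.str 37 (.nv (.thr 5 53 (.thr 38 14 (.thr 36 39 (.thr 12 24 (.thr 44 60 (.dbl 32 40 47)))))) (.nv (.thr 31 16 (.thr 5 53 (.thr 30 29 (.thr 58 10 (.thr 62 54 (.dbl 14 38 46)))))) (.nv (.thr 16 31 (.thr 47 32 (.thr 38 14 (.thr 36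 39 (.dbl 24 12 20))))) (.rp 38 (.thr 58 10 (.thr 5 53 (.thr 54 62 (.thr 16 31 (.thr 47 32 (.thr 24 20 (.thr 12 36 (.thr 51 49 (.dbl 60 44 57))))))))) (.rp 31 (.thr 47 32 (.thr 38 14 (.thr 46 34 (.thr 44 45 (.thr 36 39 (.dbl 12 24 60)))))) (.rp 14 (.thr 10 58 (.thr 53 5 (.thr 31 16 (.thr 29 30 (.thr 49 51 (.thr 61 57 (.thr 41 1 (.dbl 45 13 33)))))))) (.rp 12 (.thr 58 10 (.thr 5 53 (.thr 14 38 (.thr 51 49 (.thr 31 16 (.thr 30 29 (.thr 46 62 (.thr 47 32 (.thr 45 44 (.thr 41 33 (.thr 56 11 (.thr 60 52 (.dbl 57 54 59))))))))))))) (.rp 5 (.thr 10 58 (.thr 38 14 (.thr 16 31 (.thr 47 32 (.thr 24 20 (.dbl 36 12 39)))))) .nd))))))))) (.rp 14 (.thr 51 49 (.thr 16 31 (.thr 24 20 (.thr 12 36 (.thr 60 44 (.thr 54 57 (.dbl 58 10 62))))))) (.rp 12 (.thr 16 31 (.thr 20 24 (.thr 38 14 (.thr 4 55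 (.thr 36 52 (.dbl 37 15 39)))))) .nd))))))))) (.rp 15 (.thr 51 49 (.thr 38 14 (.thr 34 46 (.thr 18 2 (.thr 3 33 (.thr 19 35 (.dbl 16 17 31))))))) (.rp 10 (.thr 31 16 (.thr 38 14 (.thr 34 46 (.thr 37 15 (.thr 5 53 (.thr 32 47 (.thr 33 35 (.dbl 18 2 3)))))))) .nd)))))))))) (.rp 58 (.str 41 (.nv (.thr 16 31 (.thr 37 15 (.thr 33 45 (.thr 18 3 (.thr 1 61 (.dbl 17 19 49)))))) (.nv (.thr 16 31 (.thr 56 11 (.thr 40 43 (.thr 24 8 (.thr 28 20 (.thr 12 36 (.dbl 60 44 52))))))) (.nv (.thr 1 61 (.thr 37 15 (.thr 45 33 (.thr 47 32 (.thr 44 46 (.thr 35 38 (.dbl 43 39 40))))))) (.nv (.thr 15 37 (.thr 31 16 (.thr 43 40 (.thr 63 47 (.thr 3 23 (.dbl 11 7 56)))))) (.rp 28 (.str 19 (.nv (.thr 1 61 (.thr 37 15 (.thr 33 45 (.thr 3 18 (.thr 49 17 (.dbl 51 35 50)))))) (.nv (.thr 11 56 (.thr 31 16 (.thr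 27 23 (.dbl 43 40 59)))) .nd))) (.rp 19 (.str 28 (.nv (.thr 40 43 (.thr 56 11 (.thr 24 8 (.thr 12 36 (.dbl 60 44 52))))) (.nv (.thr 31 16 (.thr 29 30 (.thr 37 15 (.thr 45 33 (.dbl 61 1 13))))) (.nv (.thr 40 43 (.thr 16 31 (.thr 24 20 (.dbl 56 8 11)))) .nd)))) .nd))))))) (.rp 53 (.str 50 (.nv (.thr 10 58 (.thr 37 15 (.thr 38 14 (.thr 39 36 (.thr 47 32 (.thr 35 43 (.thr 44 41 (.dbl 46 34 45)))))))) (.nv (.thr 10 58 (.thr 16 31 (.thr 38 14 (.thr 34 46 (.thr 18 2 (.thr 3 33 (.thr 19 17 (.dbl 51 35 49)))))))) (.nv (.thr 51 49 (.thr 31 16 (.thr 38 14 (.thr 55 4 (.thr 63 59 (.dbl 15 37 47)))))) (.rp 38 (.thr 51 49 (.thr 31 16 (.thr 58 10 (.thr 54 62 (.thr 57 60 (.thr 59 56 (.thr 63 55 (.dbl 15 37 47)))))))) (.rp 28 (.str 19 (.nv (.thr 38 14 (.thr 34 46 (.thr 18 2 (.thr 3 33 (.dbl 51 35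 49))))) (.nv (.thr 15 37 (.thr 31 16 (.thr 27 23 (.dbl 51 39 49)))) (.nv (.thr 16 31 (.thr 38 14 (.thr 18 17 (.dbl 34 2 46)))) .nd)))) (.rp 19 (.str 28 (.nv (.thr 16 31 (.thr 24 20 (.thr 36 12 (.thr 38 14 (.dbl 37 15 39))))) (.nv (.thr 14 38 (.thr 31 16 (.thr 30 29 (.thr 62 46 (.dbl 58 10 54))))) (.rp 38 (.thr 51 49 (.thr 16 31 (.thr 24 20 (.thr 12 36 (.thr 60 44 (.thr 58 10 (.dbl 54 57 62))))))) (.rp 31 (.thr 38 14 (.thr 37 15 (.thr 36 39 (.thr 12 24 (.thr 44 60 (.dbl 32 40 47)))))) (.rp 16 (.thr 38 14 (.thr 34 46 (.thr 18 2 (.thr 37 15 (.thr 32 47 (.dbl 33 3 35)))))) (.rp 14 (.thr 51 49 (.thr 16 31 (.thr 24 20 (.thr 12 36 (.thr 60 44 (.thr 58 10 (.dbl 54 57 62))))))) (.rp 12 (.thr 31 16 (.thr 30 29 (.thr 58 10 (.thr 62 54 (.dbl 14 38 46))))) .nd)))))))) (.rp 14 (.thr 51 49 (.thr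 31 16 (.thr 58 10 (.thr 54 62 (.thr 57 60 (.thr 59 56 (.thr 63 55 (.dbl 15 37 47)))))))) .nd)))))))) (.rp 37 .ext (.rp 28 (.str 19 (.nv (.thr 58 10 (.thr 53 63 (.dbl 37 5 15))) (.rp 63 (.thr 16 31 (.thr 18 17 (.thr 3 33 (.thr 51 35 (.thr 15 37 (.thr 39 27 (.thr 7 11 (.thr 55 23 (.thr 38 4 (.dbl 50 14 49)))))))))) (.rp 58 (.thr 31 16 (.thr 27 23 (.thr 15 37 (.thr 51 39 (.thr 63 47 (.thr 55 59 (.thr 38 4 (.dbl 50 14 49)))))))) (.rp 53 (.thr 31 16 (.thr 27 23 (.thr 15 37 (.thr 51 39 (.thr 63 47 (.thr 55 59 (.thr 38 4 (.dbl 50 14 49)))))))) (.rp 37 (.thr 16 31 (.thr 18 17 (.thr 3 33 (.thr 51 35 (.thr 58 10 (.thr 63 53 (.thr 55 59 (.thr 38 4 (.dbl 50 14 49))))))))) (.rp 15 (.str 41 (.nv (.thr 16 31 (.thr 18 17 (.thr 3 33 (.thr 43 40 (.thr 63 23 (.dbl 58 10 53)))))) (.nv (.thr 56 11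 (.thr 60 52 (.thr 61 1 (.thr 63 62 (.dbl 58 10 53))))) (.nv (.thr 11 56 (.thr 31 16 (.thr 27 23 (.dbl 43 40 59)))) (.rp 10 (.str 5 (.nv (.thr 37 53 (.thr 33 45 (.thr 3 18 (.thr 35 51 (.dbl 32 34 47))))) (.nv (.thr 11 56 (.thr 31 16 (.thr 27 23 (.dbl 43 40 59)))) (.rp 27 (.thr 37 53 (.thr 16 31 (.thr 18 17 (.dbl 33 3 45)))) .nd)))) (.rp 5 (.thr 10 58 (.thr 43 40 (.thr 11 56 (.thr 31 16 (.dbl 27 23 59))))) .nd)))))) (.rp 10 (.thr 31 16 (.thr 27 23 (.thr 15 37 (.thr 51 39 (.thr 63 47 (.thr 55 59 (.thr 38 4 (.dbl 50 14 49)))))))) (.rp 5 (.thr 31 16 (.thr 58 10 (.thr 15 37 (.dbl 63 47 53)))) .nd))))))))) (.rp 19 (.str 28 (.nv (.thr 58 10 (.thr 53 63 (.dbl 37 5 15))) (.rp 63 (.thr 16 31 (.thr 24 20 (.thr 12 36 (.thr 60 44 (.thr 15 37 (.thr 45 30 (.thr 13 14 (.thr 61 29 (.thr 41 1 (.dbl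 56 11 52)))))))))) (.rp 58 (.thr 31 16 (.thr 30 29 (.thr 15 37 (.thr 60 45 (.thr 63 47 (.thr 61 62 (.thr 41 1 (.dbl 56 11 52)))))))) (.rp 53 (.thr 31 16 (.thr 30 29 (.thr 15 37 (.thr 60 45 (.thr 63 47 (.thr 61 62 (.thr 41 1 (.dbl 56 11 52)))))))) (.rp 37 (.thr 16 31 (.thr 24 20 (.thr 12 36 (.thr 60 44 (.thr 58 10 (.thr 63 53 (.thr 61 62 (.thr 41 1 (.dbl 56 11 52))))))))) (.rp 15 (.str 38 (.nv (.thr 16 31 (.thr 24 20 (.thr 12 36 (.thr 46 34 (.thr 63 29 (.dbl 58 10 53)))))) (.nv (.thr 50 14 (.thr 51 49 (.thr 55 4 (.thr 63 59 (.dbl 58 10 53))))) (.nv (.thr 14 50 (.thr 31 16 (.thr 30 29 (.dbl 46 34 62)))) (.rp 10 (.str 5 (.nv (.thr 37 53 (.thr 36 39 (.thr 12 24 (.thr 44 60 (.dbl 32 40 47))))) (.nv (.thr 14 50 (.thr 31 16 (.thr 30 29 (.dbl 46 34 62)))) (.rp 30 (.thr 37 53 (.thr 16 31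 (.thr 24 20 (.dbl 36 12 39)))) .nd)))) (.rp 5 (.thr 10 58 (.thr 46 34 (.thr 14 50 (.thr 31 16 (.dbl 30 29 62))))) .nd)))))) (.rp 10 (.thr 31 16 (.thr 30 29 (.thr 15 37 (.thr 60 45 (.thr 63 47 (.thr 61 62 (.thr 41 1 (.dbl 56 11 52)))))))) (.rp 5 (.thr 31 16 (.thr 58 10 (.thr 15 37 (.dbl 63 47 53)))) .nd))))))))) (.rp 15 (.str 41 (.nv (.thr 16 31 (.thr 40 43 (.thr 56 11 (.thr 24 8 (.thr 12 36 (.thr 28 20 (.dbl 60 44 52))))))) (.nv (.thr 56 11 (.thr 61 1 (.thr 60 52 (.thr 63 62 (.dbl 58 10 53))))) (.rp 63 (.thr 40 43 (.thr 56 11 (.thr 24 8 (.thr 60 52 (.thr 12 36 (.thr 28 44 (.dbl 16 20 31))))))) (.rp 60 (.thr 40 43 (.thr 11 56 (.thr 10 58 (.thr 9 8 (.thr 1 61 (.thr 5 13 (.thr 37 53 (.thr 32 47 (.thr 44 36 (.thr 35 38 (.dbl 33 34 45))))))))))) (.rp 56 (.thr 1 61 (.thr 40 43 (.str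 37 (.nv (.thr 5 53 (.thr 31 16 (.thr 32 47 (.thr 33 45 (.thr 35 34 (.dbl 44 36 38)))))) (.nv (.thr 10 58 (.thr 33 45 (.thr 17 49 (.thr 18 3 (.dbl 16 19 31))))) (.nv (.thr 32 47 (.thr 44 36 (.thr 35 38 (.dbl 33 34 45)))) (.nv (.thr 33 45 (.thr 17 49 (.thr 16 31 (.dbl 18 3 19)))) (.rp 45 (.thr 32 47 (.thr 44 36 (.thr 35 38 (.thr 33 34 (.thr 17 49 (.thr 18 3 (.dbl 16 19 31))))))) (.rp 33 (.thr 5 53 (.thr 9 13 (.thr 10 58 (.thr 32 47 (.thr 36 44 (.thr 12 24 (.thr 6 3 (.thr 14 2 (.dbl 38 39 50))))))))) (.rp 31 (.thr 33 45 (.thr 49 17 (.thr 18 3 (.thr 50 51 (.thr 34 2 (.dbl 38 14 46)))))) (.rp 28 (.str 19 (.nv (.thr 5 53 (.thr 33 45 (.thr 3 18 (.thr 49 17 (.dbl 51 35 50))))) (.nv (.thr 10 58 (.thr 32 47 (.thr 44 36 (.thr 35 38 (.dbl 33 34 45))))) (.nv (.thr 16 31 (.thr 17 18 (.dbl 33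 45 49))) (.rp 45 (.thr 32 47 (.thr 44 36 (.thr 35 38 (.thr 33 34 (.dbl 3 18 51))))) (.rp 33 (.thr 10 58 (.thr 5 53 (.thr 32 47 (.thr 9 13 (.thr 36 44 (.thr 12 24 (.thr 6 3 (.thr 14 2 (.dbl 38 39 50))))))))) .nd)))))) (.rp 19 (.str 28 (.nv (.thr 10 58 (.thr 31 16 (.thr 32 47 (.thr 44 36 (.thr 35 38 (.dbl 33 34 45)))))) (.nv (.thr 5 53 (.thr 16 31 (.thr 24 20 (.thr 36 12 (.dbl 32 44 47))))) (.nv (.thr 33 45 (.thr 32 47 (.thr 44 36 (.dbl 35 34 38)))) (.rp 47 (.thr 31 16 (.str 38 (.nv (.thr 5 53 (.thr 29 30 (.thr 46 34 (.thr 12 63 (.dbl 36 24 39))))) (.nv (.thr 4 55 (.thr 5 53 (.thr 6 7 (.thr 10 58 (.dbl 14 2 50))))) (.nv (.thr 14 50 (.thr 30 29 (.dbl 46 34 62))) (.rp 39 (.thr 35 44 (.thr 30 29 (.thr 46 34 (.dbl 14 50 62)))) (.rp 35 (.thr 39 36 (.thr 30 29 (.thr 46 34 (.dbl 14 50 62))))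 (.rp 18 (.str 17 (.nv (.thr 5 53 (.thr 49 33 (.dbl 50 14 51))) (.nv (.thr 14 50 (.thr 30 29 (.dbl 46 34 62))) (.nv (.dbl 33 45 49) (.rp 39 (.thr 35 44 (.dbl 33 45 49)) (.rp 35 (.thr 39 36 (.dbl 33 45 49)) (.rp 5 (.thr 10 58 (.dbl 33 45 49)) .nd))))))) (.rp 17 (.str 18 (.nv (.thr 5 53 (.thr 50 14 (.dbl 34 2 46))) (.nv (.dbl 33 3 45) (.rp 51 (.thr 34 46 (.dbl 33 3 45)) (.rp 39 (.thr 35 44 (.dbl 33 3 45)) (.rp 35 (.thr 39 36 (.dbl 33 3 45)) (.rp 34 (.str 51 (.nv (.thr 10 58 (.dbl 33 3 45)) (.nv (.dbl 50 14 49) (.rp 39 (.thr 35 44 (.dbl 50 14 49)) (.rp 35 (.thr 39 36 (.dbl 50 14 49)) (.rp 10 (.thr 5 53 (.dbl 50 14 49)) .nd)))))) (.rp 5 (.thr 10 58 (.dbl 33 3 45)) .nd)))))))) (.rp 5 (.thr 10 58 (.thr 30 29 (.thr 46 34 (.dbl 14 50 62)))) .nd)))))))))) (.rp 44 (.thr 5 53 (.thr 9 13 (.thr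 16 31 (.thr 24 20 (.thr 12 36 (.thr 3 6 (.dbl 33 18 45))))))) (.rp 38 (.thr 45 33 (.thr 16 31 (.thr 24 20 (.thr 12 36 (.thr 44 60 (.dbl 47 32 46)))))) (.rp 36 (.thr 45 33 (.thr 31 16 (.thr 29 30 (.thr 47 32 (.thr 46 44 (.thr 63 12 (.dbl 53 5 58))))))) (.rp 32 (.thr 5 53 (.thr 9 13 (.thr 16 31 (.thr 24 20 (.thr 12 36 (.thr 3 6 (.dbl 33 18 45))))))) (.rp 31 (.thr 45 33 (.thr 47 32 (.thr 44 46 (.thr 12 60 (.thr 36 24 (.dbl 38 35 39)))))) .nd)))))))))) .nd)))))))))))) (.rp 52 (.thr 40 43 (.thr 11 56 (.thr 10 58 (.thr 9 8 (.thr 1 61 (.thr 5 13 (.thr 37 53 (.thr 32 47 (.thr 44 36 (.thr 35 38 (.dbl 33 34 45))))))))))) (.rp 28 (.str 19 (.nv (.thr 16 31 (.thr 18 17 (.thr 3 33 (.thr 43 40 (.thr 63 23 (.dbl 58 10 53)))))) (.nv (.thr 56 11 (.thr 60 52 (.thr 61 1 (.thr 63 62 (.dbl 58 10 53)))))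 (.nv (.thr 11 56 (.thr 31 16 (.thr 27 23 (.dbl 43 40 59)))) (.rp 10 (.str 5 (.nv (.thr 37 53 (.thr 33 45 (.thr 3 18 (.thr 35 51 (.dbl 32 34 47))))) (.nv (.thr 11 56 (.thr 31 16 (.thr 27 23 (.dbl 43 40 59)))) (.rp 27 (.thr 37 53 (.thr 16 31 (.thr 18 17 (.dbl 33 3 45)))) .nd)))) (.rp 5 (.thr 10 58 (.thr 43 40 (.thr 11 56 (.thr 31 16 (.dbl 27 23 59))))) .nd)))))) (.rp 19 (.str 28 (.nv (.thr 10 58 (.thr 40 43 (.thr 56 11 (.thr 24 8 (.dbl 16 20 31))))) (.nv (.thr 56 11 (.thr 60 52 (.thr 61 1 (.thr 63 62 (.dbl 58 10 53))))) (.nv (.thr 40 43 (.thr 16 31 (.thr 24 20 (.dbl 56 8 11)))) (.rp 56 (.thr 61 1 (.thr 16 31 (.thr 24 20 (.thr 12 36 (.thr 60 44 (.thr 63 62 (.dbl 58 10 53))))))) (.rp 11 (.thr 16 31 (.thr 24 20 (.thr 12 36 (.thr 60 44 (.thr 40 43 (.dbl 56 8 52)))))) (.rp 10 (.str 5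 (.nv (.thr 40 43 (.thr 56 11 (.thr 60 52 (.thr 12 44 (.dbl 24 8 36))))) (.nv (.thr 31 16 (.thr 29 30 (.thr 37 53 (.thr 45 33 (.dbl 61 1 13))))) (.nv (.thr 40 43 (.thr 16 31 (.thr 24 20 (.dbl 56 8 11)))) .nd)))) .nd))))))) (.rp 11 (.thr 1 61 (.thr 10 58 (.str 3 (.nv (.thr 33 18 (.thr 37 45 (.thr 43 40 (.thr 47 32 (.thr 35 39 (.thr 49 17 (.dbl 51 19 50))))))) (.nv (.thr 31 16 (.thr 43 40 (.thr 23 63 (.thr 19 27 (.thr 35 51 (.thr 39 47 (.thr 38 44 (.dbl 55 4 7)))))))) (.nv (.thr 16 31 (.thr 18 33 (.thr 19 17 (.thr 51 35 (.thr 50 49 (.thr 14 38 (.dbl 2 6 34))))))) (.nv (.thr 33 18 (.thr 37 45 (.thr 32 47 (.thr 40 43 (.thr 44 36 (.dbl 35 34 38)))))) (.nv (.thr 31 16 (.thr 33 18 (.thr 43 40 (.thr 23 63 (.thr 19 27 (.thr 51 35 (.dbl 49 17 50))))))) (.rp 35 (.thr 33 18 (.thr 49 17 (.thr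 51 50 (.thr 43 40 (.thr 63 23 (.thr 55 59 (.thr 38 4 (.thr 37 45 (.thr 36 39 (.thr 12 24 (.dbl 46 29 34))))))))))) (.rp 28 (.str 19 (.nv (.thr 33 18 (.thr 49 17 (.dbl 51 35 50))) (.nv (.thr 31 16 (.thr 23 27 (.dbl 43 40 63))) (.nv (.thr 18 33 (.dbl 16 17 31)) .nd)))) (.rp 19 (.str 28 (.nv (.thr 16 31 (.thr 24 20 (.thr 12 36 (.thr 9 6 (.thr 5 13 (.thr 33 18 (.dbl 37 45 53))))))) (.nv (.thr 33 18 (.thr 17 49 (.thr 37 45 (.thr 32 47 (.thr 35 34 (.thr 44 38 (.dbl 40 36 43))))))) (.nv (.thr 40 43 (.thr 16 31 (.thr 24 20 (.thr 56 8 (.thr 12 36 (.dbl 60 44 52)))))) (.rp 63 (.thr 43 40 (.thr 33 18 (.thr 37 45 (.thr 16 31 (.thr 47 32 (.thr 39 35 (.thr 36 38 (.dbl 24 12 20)))))))) (.rp 60 (.thr 40 43 (.thr 33 18 (.thr 16 31 (.thr 24 20 (.thr 36 12 (.thr 32 44 (.dbl 37 45 47))))))) (.rp 47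 (.thr 43 40 (.thr 31 16 (.thr 29 30 (.thr 63 23 (.thr 12 46 (.thr 9 6 (.thr 5 13 (.thr 37 53 (.dbl 33 18 45))))))))) (.rp 40 (.str 60 (.nv (.thr 12 44 (.thr 9 6 (.thr 5 13 (.thr 37 53 (.dbl 33 18 45))))) (.nv (.thr 16 31 (.thr 24 20 (.dbl 12 36 44))) (.rp 44 (.thr 33 18 (.thr 49 17 (.thr 16 31 (.thr 51 50 (.thr 52 56 (.thr 37 45 (.thr 53 5 (.dbl 54 55 57)))))))) (.rp 36 (.thr 18 33 (.thr 44 12 (.thr 38 35 (.thr 34 46 (.dbl 50 2 14))))) (.rp 12 (.thr 33 18 (.thr 49 17 (.thr 16 31 (.thr 51 50 (.thr 52 56 (.thr 37 45 (.thr 53 5 (.dbl 54 55 57)))))))) .nd)))))) (.rp 36 (.thr 43 40 (.thr 31 16 (.thr 29 30 (.thr 63 23 (.thr 12 46 (.thr 9 6 (.thr 5 13 (.thr 37 53 (.dbl 33 18 45))))))))) (.rp 31 (.thr 43 40 (.thr 33 18 (.thr 37 45 (.thr 23 63 (.thr 47 32 (.thr 39 35 (.thr 55 7 (.dbl 38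 4 36)))))))) (.rp 12 (.thr 40 43 (.thr 33 18 (.thr 37 45 (.thr 32 47 (.thr 35 34 (.dbl 44 36 38)))))) .nd))))))))))) .nd))))))))))) (.rp 10 (.str 5 (.nv (.thr 43 40 (.thr 37 53 (.thr 45 33 (.thr 47 32 (.thr 44 46 (.dbl 35 38 39)))))) (.nv (.thr 56 11 (.thr 60 52 (.thr 61 1 (.thr 63 62 (.dbl 53 37 58))))) (.rp 60 (.thr 56 11 (.thr 53 37 (.thr 58 63 (.thr 57 59 (.dbl 61 1 49))))) (.rp 53 (.thr 40 43 (.thr 56 11 (.thr 16 31 (.thr 1 61 (.thr 24 8 (.thr 9 13 (.thr 12 36 (.thr 28 20 (.dbl 60 44 52))))))))) (.rp 37 (.thr 11 56 (.thr 1 61 (.str 51 (.nv (.thr 43 40 (.thr 59 27 (.thr 55 63 (.thr 38 4 (.dbl 50 14 49))))) (.nv (.thr 13 9 (.thr 50 49 (.thr 38 14 (.thr 34 46 (.thr 35 44 (.thr 33 32 (.dbl 3 18 19))))))) (.nv (.thr 49 50 (.thr 33 17 (.thr 43 40 (.thr 59 27 (.thr 63 55 (.dbl 3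 18 23)))))) (.rp 52 (.str 7 (.nv (.thr 6 4 (.thr 9 13 (.thr 49 50 (.thr 33 17 (.dbl 3 12 18))))) (.nv (.thr 13 9 (.thr 43 40 (.thr 59 27 (.thr 55 63 (.dbl 4 6 38))))) (.nv (.thr 4 6 (.thr 38 55 (.dbl 50 14 49))) (.rp 28 (.str 19 (.nv (.thr 13 9 (.thr 31 16 (.thr 27 23 (.dbl 43 40 59)))) (.nv (.thr 49 50 (.thr 3 35 (.dbl 33 17 18))) .nd))) (.rp 19 (.str 28 (.nv (.thr 6 4 (.thr 9 13 (.thr 49 50 (.thr 33 17 (.dbl 3 12 18))))) (.nv (.thr 13 9 (.thr 43 40 (.thr 59 27 (.thr 55 63 (.dbl 4 6 38))))) (.nv (.thr 4 6 (.thr 38 55 (.dbl 50 14 49))) (.rp 13 (.thr 49 50 (.thr 4 6 (.thr 43 40 (.thr 59 27 (.dbl 55 38 63))))) (.rp 6 (.thr 43 40 (.thr 59 27 (.thr 55 63 (.thr 38 4 (.dbl 50 14 49))))) (.rp 4 (.thr 49 50 (.thr 33 17 (.thr 43 40 (.thr 59 27 (.thr 63 55 (.dbl 3 18 23)))))) .nd)))))))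 (.rp 13 (.thr 49 50 (.thr 43 40 (.thr 59 27 (.thr 4 6 (.dbl 55 38 63))))) (.rp 6 (.thr 43 40 (.thr 59 27 (.thr 55 63 (.thr 38 4 (.dbl 50 14 49))))) (.rp 4 (.thr 49 50 (.thr 33 17 (.thr 3 18 (.thr 43 40 (.thr 59 27 (.dbl 63 23 55)))))) .nd))))))))) (.rp 50 (.thr 43 40 (.thr 59 27 (.thr 16 31 (.thr 63 55 (.thr 3 23 (.thr 19 35 (.dbl 18 17 33))))))) (.rp 49 (.thr 13 9 (.thr 43 40 (.thr 59 27 (.thr 16 31 (.thr 63 55 (.thr 3 23 (.thr 19 35 (.dbl 18 17 33)))))))) (.rp 40 (.thr 50 49 (.thr 13 9 (.thr 16 31 (.thr 38 14 (.thr 34 46 (.thr 35 44 (.thr 19 3 (.dbl 18 2 17)))))))) (.rp 28 (.str 19 (.nv (.thr 13 9 (.thr 31 16 (.thr 27 23 (.dbl 43 40 59)))) (.nv (.thr 49 50 (.thr 3 35 (.dbl 33 17 18))) (.rp 52 (.str 7 (.nv (.thr 13 9 (.thr 31 16 (.thr 27 23 (.dbl 43 40 59)))) (.nv (.thr 49 50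 (.thr 3 35 (.dbl 33 17 18))) .nd))) (.rp 7 (.str 52 (.nv (.thr 13 9 (.thr 31 16 (.thr 27 23 (.dbl 43 40 59)))) (.nv (.thr 49 50 (.thr 3 35 (.dbl 33 17 18))) .nd))) .nd))))) (.rp 19 (.str 28 (.nv (.thr 43 40 (.thr 59 27 (.thr 55 63 (.thr 38 4 (.dbl 50 14 49))))) (.nv (.thr 13 9 (.thr 50 49 (.thr 38 14 (.thr 34 46 (.thr 35 44 (.thr 33 32 (.dbl 18 2 3))))))) (.nv (.thr 49 50 (.thr 33 17 (.thr 43 40 (.thr 59 27 (.thr 63 55 (.dbl 3 18 23)))))) (.rp 52 (.str 7 (.nv (.thr 6 4 (.thr 9 13 (.thr 49 50 (.thr 33 17 (.dbl 3 12 18))))) (.nv (.thr 13 9 (.thr 43 40 (.thr 59 27 (.thr 55 63 (.dbl 4 6 38))))) (.nv (.thr 4 6 (.thr 38 55 (.dbl 50 14 49))) (.rp 13 (.thr 49 50 (.thr 4 6 (.thr 43 40 (.thr 59 27 (.dbl 55 38 63))))) (.rp 6 (.thr 43 40 (.thr 59 27 (.thr 55 63 (.thr 38 4 (.dbl 50 14 49)))))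 (.rp 4 (.thr 49 50 (.thr 33 17 (.thr 43 40 (.thr 59 27 (.thr 63 55 (.dbl 3 18 23)))))) .nd))))))) (.rp 50 (.thr 43 40 (.thr 59 27 (.thr 63 55 (.thr 3 23 (.thr 31 16 (.thr 29 30 (.thr 12 46 (.dbl 9 6 13)))))))) (.rp 49 (.thr 13 9 (.thr 43 40 (.thr 59 27 (.thr 55 63 (.thr 38 4 (.thr 46 34 (.thr 14 50 (.thr 31 16 (.dbl 30 29 62))))))))) (.rp 40 (.thr 49 50 (.thr 33 17 (.thr 3 18 (.thr 16 31 (.thr 9 13 (.thr 12 6 (.dbl 24 20 36))))))) (.rp 7 (.str 52 (.nv (.thr 13 9 (.thr 40 43 (.thr 50 49 (.thr 38 14 (.thr 44 35 (.thr 36 32 (.dbl 12 24 60))))))) (.nv (.thr 49 50 (.thr 33 17 (.thr 43 40 (.thr 59 27 (.thr 63 55 (.dbl 3 18 23)))))) (.nv (.thr 50 49 (.thr 13 9 (.thr 38 14 (.thr 55 4 (.thr 53 54 (.dbl 63 58 59)))))) (.rp 50 (.thr 43 40 (.thr 59 27 (.thr 55 63 (.thr 54 53 (.thr 38 4 (.thr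 44 35 (.dbl 60 12 57))))))) (.rp 49 (.thr 13 9 (.thr 43 40 (.thr 59 27 (.thr 55 63 (.thr 38 4 (.thr 46 34 (.thr 14 50 (.thr 31 16 (.dbl 30 29 62))))))))) .nd)))))) .nd))))))))) (.rp 7 (.str 52 (.nv (.thr 13 9 (.thr 50 49 (.thr 38 14 (.thr 34 46 (.thr 35 44 (.thr 33 32 (.dbl 3 18 19))))))) (.nv (.thr 49 50 (.thr 33 17 (.thr 43 40 (.thr 59 27 (.thr 63 55 (.dbl 3 18 23)))))) (.nv (.thr 50 49 (.thr 13 9 (.thr 38 14 (.thr 55 4 (.thr 53 54 (.dbl 63 58 59)))))) (.rp 50 (.thr 43 40 (.thr 59 27 (.thr 55 63 (.thr 38 4 (.thr 34 46 (.thr 35 44 (.thr 19 3 (.thr 47 39 (.thr 16 31 (.thr 17 18 (.dbl 33 32 49))))))))))) (.rp 49 (.thr 13 9 (.thr 43 40 (.thr 59 27 (.thr 55 63 (.thr 38 4 (.thr 34 46 (.thr 50 14 (.thr 35 44 (.thr 19 3 (.thr 47 39 (.thr 16 31 (.dbl 18 2 17)))))))))))) (.rp 28 (.str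 19 (.nv (.thr 13 9 (.thr 31 16 (.thr 27 23 (.dbl 43 40 59)))) (.nv (.thr 49 50 (.thr 3 35 (.dbl 33 17 18))) .nd))) (.rp 19 (.str 28 (.nv (.thr 13 9 (.thr 40 43 (.thr 50 49 (.thr 38 14 (.thr 44 35 (.thr 36 32 (.dbl 12 24 60))))))) (.nv (.thr 49 50 (.thr 33 17 (.thr 43 40 (.thr 59 27 (.thr 63 55 (.dbl 3 18 23)))))) (.nv (.thr 50 49 (.thr 13 9 (.thr 38 14 (.thr 55 4 (.thr 53 54 (.dbl 63 58 59)))))) (.rp 50 (.thr 43 40 (.thr 59 27 (.thr 55 63 (.thr 54 53 (.thr 38 4 (.thr 44 35 (.dbl 60 12 57))))))) (.rp 49 (.thr 13 9 (.thr 43 40 (.thr 59 27 (.thr 55 63 (.thr 38 4 (.thr 46 34 (.thr 14 50 (.thr 31 16 (.dbl 30 29 62))))))))) .nd)))))) .nd)))))))) .nd))))))))))))) (.rp 28 (.str 19 (.nv (.thr 37 53 (.thr 33 45 (.thr 3 18 (.thr 35 51 (.dbl 32 34 47))))) (.nv (.thr 11 56 (.thr 31 16 (.thr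 27 23 (.dbl 43 40 59)))) (.rp 27 (.thr 37 53 (.thr 16 31 (.thr 18 17 (.dbl 33 3 45)))) .nd)))) (.rp 19 (.str 28 (.nv (.thr 40 43 (.thr 56 11 (.thr 60 52 (.thr 12 44 (.dbl 24 8 36))))) (.nv (.thr 31 16 (.thr 29 30 (.thr 37 53 (.thr 45 33 (.dbl 61 1 13))))) (.nv (.thr 40 43 (.thr 16 31 (.thr 24 20 (.dbl 56 8 11)))) .nd)))) .nd)))))))) (.rp 7 (.thr 40 43 (.thr 11 56 (.thr 10 58 (.thr 9 8 (.thr 1 61 (.thr 5 13 (.thr 37 53 (.thr 32 47 (.thr 44 36 (.thr 35 38 (.dbl 33 34 45))))))))))) (.rp 5 (.thr 10 58 (.thr 40 43 (.thr 56 11 (.thr 24 8 (.thr 60 52 (.thr 16 31 (.thr 28 20 (.dbl 12 36 44)))))))) (.rp 3 (.thr 40 43 (.thr 11 56 (.thr 10 58 (.thr 9 8 (.thr 1 61 (.thr 5 13 (.thr 37 53 (.thr 32 47 (.thr 44 36 (.thr 35 38 (.dbl 33 34 45))))))))))) .nd)))))))))))))) (.rp 10 (.thr 37 15 (.thr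 5 53 (.str 38 (.nv (.thr 32 47 (.thr 34 46 (.thr 33 35 (.thr 50 14 (.dbl 18 2 3))))) (.nv (.thr 16 31 (.thr 36 39 (.thr 24 12 (.thr 4 55 (.dbl 20 28 52))))) (.nv (.thr 39 36 (.thr 46 34 (.thr 47 32 (.thr 35 43 (.dbl 44 41 45))))) (.rp 47 (.thr 55 4 (.thr 36 39 (.thr 50 14 (.thr 51 49 (.thr 63 59 (.thr 46 34 (.dbl 12 24 29))))))) (.rp 39 (.thr 4 55 (.thr 32 47 (.thr 34 46 (.thr 35 33 (.thr 44 41 (.thr 36 40 (.thr 52 20 (.thr 60 56 (.dbl 12 24 28))))))))) (.rp 28 (.str 19 (.nv (.thr 34 46 (.thr 50 14 (.thr 51 49 (.thr 3 35 (.dbl 18 2 33))))) (.nv (.thr 31 16 (.thr 23 27 (.thr 39 36 (.dbl 55 4 7)))) .nd))) (.rp 19 (.str 28 (.nv (.thr 4 55 (.thr 36 39 (.thr 12 24 (.thr 52 20 (.dbl 60 44 56))))) (.nv (.thr 14 50 (.thr 31 16 (.thr 30 29 (.dbl 46 34 62)))) .nd))) .nd)))))))))) (.rp 5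 (.thr 31 16 (.thr 58 10 (.thr 15 37 (.dbl 63 47 53)))) .nd))))))))))) .nd))))))))))))))))

theorem w433 : WinAt (4398048608256, 37748736) :=
  chF (K := [(4398115749888, 9223372174331478016), (6597138972673, 9223372174331478144), (6597138972673, 9223372174331486208), (6597138972673, 9223372174599913472), (6597138972673, 9223935124284899328), (6597138972673, 9227875773958848512), (285873092427776, 137476702209)]) (kc w432 (kc w427 (kc w428 (kc w429 (kc w430 (kc w431 (kc w426 kn))))))) c433 4398048608256 37748736 25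
    [306708480] (by decide +kernel) (by decide +kernel)

/-- A certificate. -/
noncomputable def c434 : Ct := (.str 37 (.nv (.thr 5 53 (.thr 13 49 (.thr 1 9 (.thr 29 17 (.dbl 61 41 45))))) (.nv (.thr 53 5 (.thr 49 13 (.thr 61 57 (.thr 17 29 (.dbl 1 33 41))))) (.rp 61 (.thr 59 8 (.thr 29 17 (.str 38 (.nv (.thr 4 55 (.thr 39 36 (.thr 47 32 (.thr 43 35 (.thr 51 12 (.dbl 27 11 15)))))) (.nv (.thr 4 55 (.thr 5 53 (.thr 6 7 (.thr 12 51 (.thr 34 46 (.thr 9 3 (.dbl 13 1 49))))))) (.nv (.thr 34 46 (.thr 36 39 (.thr 32 47 (.thr 35 33 (.dbl 44 40 41))))) (.rp 39 (.thr 34 46 (.thr 12 51 (.thr 4 55 (.thr 32 47 (.thr 35 33 (.thr 44 41 (.thr 36 40 (.thr 60 28 (.thr 52 20 (.dbl 48 24 56)))))))))) (.rp 35 (.thr 5 53 (.thr 49 13 (.thr 34 46 (.thr 51 12 (.thr 4 55 (.thr 7 6 (.thr 39 36 (.thr 15 27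 (.thr 3 11 (.thr 47 32 (.thr 31 63 (.thr 30 28 (.thr 48 50 (.thr 33 18 (.dbl 45 41 60))))))))))))))) (.rp 34 (.thr 51 12 (.thr 4 55 (.thr 39 36 (.thr 27 15 (.thr 43 11 (.dbl 47 32 35)))))) (.rp 30 (.str 18 (.nv (.thr 34 46 (.thr 32 47 (.thr 35 33 (.thr 36 39 (.dbl 44 40 41))))) (.nv (.thr 39 36 (.thr 47 32 (.thr 43 35 (.thr 27 11 (.dbl 51 12 15))))) (.nv (.thr 49 13 (.thr 34 46 (.thr 50 2 (.dbl 51 12 48)))) (.rp 34 (.thr 51 12 (.thr 4 55 (.thr 47 32 (.thr 39 36 (.thr 27 15 (.dbl 43 11 35)))))) (.rp 12 (.thr 4 55 (.thr 34 46 (.thr 32 47 (.thr 35 33 (.thr 36 39 (.dbl 44 40 41)))))) (.rp 4 (.thr 12 51 (.thr 34 46 (.thr 32 47 (.thr 35 33 (.thr 36 39 (.dbl 44 40 41)))))) .nd))))))) (.rp 18 (.str 30 (.nv (.thr 34 46 (.thr 32 47 (.thr 36 39 (.thr 44 40 (.dbl 35 33 41))))) (.nv (.thr 47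 32 (.thr 31 28 (.thr 63 15 (.dbl 55 4 51)))) (.rp 47 (.thr 13 49 (.thr 34 46 (.thr 12 51 (.thr 15 14 (.thr 28 31 (.dbl 60 44 45)))))) (.rp 34 (.thr 51 12 (.thr 4 55 (.thr 39 36 (.thr 15 27 (.thr 47 32 (.dbl 31 28 63)))))) (.rp 32 (.thr 13 49 (.thr 34 46 (.thr 12 51 (.thr 15 14 (.thr 28 31 (.dbl 60 44 45)))))) (.rp 19 (.str 16 (.nv (.thr 12 51 (.thr 34 46 (.thr 28 31 (.thr 24 20 (.dbl 36 39 48))))) (.nv (.thr 47 32 (.thr 31 28 (.thr 63 15 (.dbl 55 4 51)))) (.rp 51 (.thr 34 46 (.thr 32 47 (.thr 36 39 (.thr 44 40 (.dbl 35 33 41))))) (.rp 34 (.thr 51 12 (.thr 4 55 (.thr 36 39 (.thr 28 31 (.dbl 20 24 52))))) (.rp 31 (.thr 53 5 (.thr 34 46 (.thr 32 47 (.thr 36 39 (.thr 44 40 (.dbl 35 33 41)))))) (.rp 28 (.thr 34 46 (.thr 32 47 (.thr 36 39 (.thr 44 40 (.dbl 35 33 41))))) (.rp 12 (.thr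 4 55 (.thr 36 39 (.thr 28 31 (.dbl 20 24 52)))) .nd)))))))) (.rp 16 (.str 19 (.nv (.thr 31 28 (.thr 27 23 (.thr 39 36 (.dbl 51 12 15)))) (.nv (.thr 32 47 (.thr 4 55 (.thr 34 46 (.thr 51 12 (.dbl 35 3 33))))) (.rp 51 (.thr 34 46 (.thr 39 36 (.thr 31 28 (.thr 23 27 (.dbl 55 4 7))))) (.rp 34 (.thr 51 12 (.thr 4 55 (.thr 35 3 (.thr 39 36 (.dbl 47 32 43))))) (.rp 32 (.str 48 (.nv (.thr 51 12 (.thr 4 55 (.dbl 49 13 50))) (.nv (.thr 36 39 (.dbl 12 24 51)) (.rp 51 (.thr 34 46 (.thr 31 28 (.thr 23 27 (.thr 39 36 (.dbl 55 4 7))))) (.rp 12 (.thr 4 55 (.thr 31 28 (.thr 27 23 (.thr 39 36 (.thr 49 13 (.dbl 51 15 50)))))) (.rp 4 (.thr 12 51 (.thr 34 46 (.dbl 36 24 39))) .nd)))))) (.rp 12 (.thr 4 55 (.thr 34 46 (.thr 36 39 (.thr 32 47 (.thr 35 33 (.dbl 44 40 41)))))) (.rp 4 (.thr 12 51 (.thr 34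 46 (.thr 13 49 (.thr 15 14 (.thr 31 28 (.dbl 47 32 63)))))) .nd)))))))) (.rp 12 (.thr 4 55 (.thr 34 46 (.thr 36 39 (.thr 32 47 (.thr 35 33 (.dbl 44 40 41)))))) (.rp 4 (.thr 12 51 (.thr 34 46 (.thr 13 49 (.thr 15 14 (.thr 47 32 (.dbl 31 28 63)))))) .nd)))))))))) (.rp 12 (.thr 4 55 (.thr 34 46 (.thr 36 39 (.thr 32 47 (.thr 35 33 (.dbl 44 40 41)))))) (.rp 4 (.thr 12 51 (.thr 34 46 (.thr 36 39 (.thr 32 47 (.thr 35 33 (.dbl 44 40 41)))))) .nd))))))))))))) (.rp 57 (.thr 5 53 (.thr 29 17 (.thr 13 49 (.thr 61 45 (.dbl 1 9 41))))) (.rp 53 (.thr 59 8 (.thr 32 47 (.str 38 (.nv (.thr 49 13 (.thr 34 46 (.thr 36 39 (.thr 35 33 (.dbl 44 40 41))))) (.rp 49 (.thr 34 46 (.thr 35 33 (.thr 44 41 (.dbl 36 39 40)))) (.rp 46 (.thr 17 29 (.thr 49 13 (.thr 33 1 (.thr 35 34 (.dbl 41 44 45))))) (.rp 45 (.thr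 36 39 (.thr 44 40 (.thr 34 46 (.dbl 35 33 41)))) (.rp 44 (.thr 17 29 (.thr 49 13 (.thr 33 1 (.dbl 34 35 46)))) (.rp 41 (.thr 34 46 (.thr 33 35 (.thr 17 29 (.dbl 49 1 13)))) (.rp 40 (.thr 34 46 (.thr 33 35 (.thr 17 29 (.dbl 49 1 13)))) (.rp 39 (.thr 34 46 (.thr 17 29 (.thr 49 13 (.dbl 33 1 35)))) (.rp 36 (.thr 34 46 (.thr 33 35 (.thr 17 29 (.dbl 49 1 13)))) (.rp 35 (.thr 39 36 (.thr 17 29 (.thr 4 55 (.thr 51 12 (.thr 27 15 (.thr 43 11 (.thr 41 40 (.thr 33 45 (.dbl 49 1 13))))))))) (.rp 34 (.thr 36 39 (.thr 40 44 (.thr 17 29 (.thr 49 13 (.thr 33 1 (.dbl 41 43 45)))))) (.rp 33 (.thr 36 39 (.thr 44 40 (.thr 4 55 (.thr 12 51 (.thr 52 20 (.thr 60 28 (.dbl 48 24 56))))))) (.rp 30 (.str 18 (.nv (.thr 4 55 (.thr 49 13 (.thr 51 12 (.thr 50 48 (.dbl 34 2 46))))) (.nv (.thr 4 55 (.thr 17 29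 (.thr 49 13 (.thr 33 1 (.dbl 34 35 46))))) (.nv (.thr 34 46 (.thr 35 33 (.thr 36 39 (.dbl 44 40 41)))) (.rp 46 (.thr 17 29 (.thr 49 13 (.thr 33 1 (.thr 35 34 (.dbl 41 44 45))))) (.rp 34 (.thr 36 39 (.thr 40 44 (.thr 17 29 (.thr 49 13 (.thr 33 1 (.dbl 41 43 45)))))) (.rp 4 (.thr 12 51 (.thr 34 46 (.thr 33 35 (.thr 17 29 (.dbl 49 1 13))))) .nd))))))) (.rp 18 (.str 30 (.nv (.thr 4 55 (.thr 34 46 (.thr 35 33 (.thr 36 39 (.dbl 44 40 41))))) (.nv (.thr 12 51 (.thr 17 29 (.thr 46 34 (.thr 14 62 (.dbl 13 15 49))))) (.rp 46 (.thr 36 39 (.thr 44 40 (.thr 29 17 (.thr 28 31 (.dbl 12 51 60))))) (.rp 34 (.thr 36 39 (.thr 44 40 (.thr 17 29 (.thr 49 13 (.thr 33 1 (.dbl 41 35 45)))))) .nd))))) (.rp 13 (.thr 34 46 (.thr 35 33 (.thr 44 41 (.dbl 36 39 40)))) (.rp 12 (.thr 4 55 (.thr 34 46 (.thr 33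 35 (.thr 49 13 (.dbl 17 1 29))))) (.rp 4 (.thr 12 51 (.thr 34 46 (.thr 33 35 (.thr 17 29 (.dbl 49 1 13))))) .nd)))))))))))))))))))) (.rp 49 (.thr 59 8 (.thr 17 29 (.str 38 (.nv (.thr 4 55 (.thr 32 47 (.thr 36 39 (.thr 44 40 (.thr 35 41 (.dbl 34 33 46)))))) (.nv (.thr 4 55 (.thr 5 53 (.thr 6 7 (.thr 12 51 (.thr 9 3 (.thr 1 13 (.dbl 41 57 61))))))) (.nv (.thr 34 46 (.thr 32 47 (.thr 35 33 (.thr 36 39 (.dbl 44 40 41))))) (.rp 41 (.thr 4 55 (.thr 51 12 (.thr 47 32 (.thr 39 36 (.thr 43 35 (.dbl 27 11 15)))))) (.rp 39 (.thr 34 46 (.thr 4 55 (.thr 12 51 (.thr 32 47 (.thr 35 33 (.thr 44 41 (.thr 36 40 (.thr 52 20 (.thr 60 28 (.dbl 48 24 56)))))))))) (.rp 35 (.thr 53 5 (.thr 55 4 (.thr 12 51 (.thr 36 39 (.thr 48 24 (.thr 58 63 (.thr 56 57 (.dbl 52 54 60)))))))) (.rp 30 (.str 18 (.nv (.thr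 19 16 (.thr 32 47 (.thr 34 46 (.thr 35 33 (.dbl 51 3 12))))) (.nv (.thr 4 55 (.thr 5 53 (.thr 6 7 (.thr 12 51 (.thr 3 9 (.thr 48 33 (.dbl 36 24 39))))))) (.nv (.thr 39 36 (.thr 47 32 (.thr 35 43 (.thr 46 34 (.dbl 44 41 45))))) (.rp 31 (.str 28 (.nv (.thr 12 51 (.thr 32 47 (.thr 34 46 (.thr 35 33 (.dbl 44 41 60))))) (.nv (.thr 4 55 (.thr 16 19 (.thr 36 39 (.dbl 20 24 52)))) .nd))) (.rp 28 (.str 31 (.nv (.thr 12 51 (.thr 39 36 (.thr 55 4 (.thr 23 7 (.dbl 19 16 27))))) (.nv (.thr 32 47 (.thr 36 39 (.thr 44 40 (.thr 35 41 (.dbl 34 33 46))))) (.nv (.thr 47 32 (.thr 63 15 (.dbl 51 12 55))) (.rp 12 (.thr 4 55 (.thr 46 34 (.thr 47 32 (.thr 39 36 (.thr 35 43 (.dbl 44 41 45)))))) (.rp 4 (.thr 12 51 (.thr 53 5 (.thr 47 32 (.thr 36 39 (.thr 48 24 (.dbl 63 15 58)))))) .nd)))))) (.rp 12 (.thr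 4 55 (.thr 46 34 (.thr 47 32 (.thr 39 36 (.thr 35 43 (.dbl 44 41 45)))))) (.rp 4 (.thr 12 51 (.thr 34 46 (.thr 32 47 (.thr 35 33 (.thr 36 39 (.dbl 44 40 41)))))) .nd)))))))) (.rp 18 (.str 30 (.nv (.thr 32 47 (.thr 36 39 (.thr 34 46 (.thr 44 40 (.dbl 35 33 41))))) (.nv (.thr 12 51 (.thr 46 34 (.thr 14 62 (.thr 15 13 (.thr 45 60 (.dbl 47 32 44)))))) (.nv (.thr 4 55 (.thr 5 53 (.thr 6 7 (.thr 12 51 (.thr 9 3 (.thr 1 13 (.dbl 41 57 61))))))) (.nv (.thr 36 39 (.thr 34 46 (.thr 32 47 (.thr 35 33 (.dbl 44 40 41))))) (.rp 41 (.thr 46 34 (.thr 14 62 (.thr 12 51 (.thr 15 13 (.thr 47 32 (.dbl 45 44 60)))))) (.rp 12 (.thr 4 55 (.thr 46 34 (.thr 39 36 (.thr 47 32 (.thr 35 43 (.dbl 44 41 45)))))) .nd))))))) (.rp 4 (.thr 12 51 (.thr 34 46 (.thr 32 47 (.thr 35 33 (.thr 36 39 (.dbl 44 40 41))))))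 .nd)))))))))))) (.rp 41 (.thr 13 49 (.thr 29 17 (.thr 45 61 (.thr 47 32 (.thr 46 44 (.thr 12 63 (.dbl 38 34 51))))))) (.rp 30 (.str 18 (.nv (.thr 17 29 (.thr 49 13 (.thr 1 33 (.thr 53 5 (.dbl 61 41 57))))) (.nv (.thr 5 53 (.thr 13 49 (.thr 1 9 (.thr 29 17 (.dbl 61 41 45))))) (.rp 61 (.str 3 (.nv (.thr 32 47 (.thr 33 48 (.thr 35 34 (.thr 19 51 (.dbl 17 16 29))))) (.nv (.thr 49 13 (.thr 33 48 (.dbl 17 1 29))) (.rp 49 (.thr 17 29 (.thr 32 47 (.thr 19 16 (.thr 35 51 (.dbl 33 34 48))))) (.rp 48 (.thr 17 29 (.thr 32 47 (.thr 19 16 (.thr 35 51 (.thr 33 34 (.dbl 49 1 13)))))) (.rp 33 (.thr 17 29 (.thr 19 16 (.thr 51 35 (.thr 59 8 (.thr 55 63 (.dbl 38 4 12)))))) (.rp 32 (.thr 17 29 (.thr 16 19 (.thr 33 48 (.dbl 49 1 13)))) (.rp 29 (.thr 53 5 (.thr 48 33 (.thr 63 58 (.thr 59 8 (.thr 51 55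 (.dbl 49 13 50)))))) (.rp 17 (.thr 53 5 (.thr 49 13 (.thr 48 33 (.thr 51 50 (.thr 63 58 (.dbl 59 8 55)))))) (.rp 16 (.thr 49 13 (.thr 32 47 (.thr 33 48 (.dbl 17 1 29)))) .nd)))))))))) (.rp 57 (.thr 5 53 (.thr 29 17 (.thr 13 49 (.thr 61 45 (.dbl 1 9 41))))) (.rp 53 (.thr 49 13 (.thr 17 29 (.thr 33 1 (.thr 32 47 (.thr 35 34 (.thr 19 16 (.dbl 3 48 51))))))) (.rp 49 (.str 3 (.nv (.thr 17 29 (.thr 19 16 (.thr 51 35 (.thr 59 8 (.thr 55 63 (.dbl 38 4 12)))))) (.nv (.thr 32 47 (.thr 33 48 (.thr 41 45 (.thr 40 43 (.thr 44 36 (.dbl 35 34 38)))))) (.nv (.thr 17 29 (.thr 32 47 (.thr 19 16 (.thr 35 51 (.dbl 33 34 48))))) (.rp 51 (.thr 53 5 (.thr 17 29 (.thr 47 32 (.thr 19 16 (.thr 48 33 (.thr 63 58 (.thr 23 43 (.dbl 31 15 27)))))))) (.rp 48 (.thr 17 29 (.thr 32 47 (.thr 19 16 (.thr 51 35 (.thr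 59 8 (.thr 55 63 (.dbl 38 4 12))))))) (.rp 35 (.thr 53 5 (.thr 48 33 (.thr 63 58 (.thr 59 8 (.thr 51 55 (.thr 12 38 (.dbl 29 17 46))))))) (.rp 32 (.thr 53 5 (.thr 17 29 (.thr 19 16 (.thr 48 33 (.thr 63 58 (.thr 59 8 (.dbl 51 35 55))))))) .nd)))))))) (.rp 45 (.thr 53 5 (.thr 49 13 (.thr 17 29 (.thr 61 57 (.dbl 1 33 41))))) (.rp 41 (.thr 49 13 (.thr 17 29 (.thr 33 1 (.thr 32 47 (.thr 35 34 (.thr 19 16 (.dbl 3 48 51))))))) (.rp 29 (.thr 53 5 (.thr 49 13 (.thr 61 57 (.thr 1 41 (.thr 33 17 (.thr 32 47 (.thr 34 35 (.thr 50 2 (.dbl 48 3 51))))))))) (.rp 17 (.thr 53 5 (.thr 49 13 (.thr 57 61 (.thr 59 8 (.thr 58 56 (.thr 48 63 (.thr 33 3 (.dbl 41 9 45)))))))) (.rp 13 (.str 3 (.nv (.thr 17 29 (.thr 32 47 (.thr 33 48 (.thr 1 49 (.dbl 41 45 61))))) (.nv (.thr 17 29 (.thr 19 16 (.thr 51 35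 (.thr 59 8 (.thr 55 63 (.dbl 38 4 12)))))) (.nv (.thr 33 48 (.thr 32 47 (.thr 35 34 (.thr 19 51 (.dbl 17 16 29))))) (.rp 51 (.thr 32 47 (.thr 33 48 (.thr 41 45 (.thr 40 43 (.thr 44 36 (.dbl 35 34 38)))))) (.rp 48 (.thr 17 29 (.thr 32 47 (.thr 19 16 (.thr 51 35 (.thr 59 8 (.thr 55 63 (.dbl 38 4 12))))))) (.rp 32 (.thr 17 29 (.thr 16 19 (.thr 33 48 (.thr 1 49 (.dbl 41 45 61))))) (.rp 29 (.thr 32 47 (.thr 33 48 (.thr 35 34 (.thr 51 19 (.thr 38 12 (.dbl 41 44 45)))))) (.rp 17 (.thr 32 47 (.thr 33 48 (.thr 41 45 (.thr 35 34 (.thr 51 19 (.dbl 38 12 44)))))) .nd))))))))) (.rp 5 (.thr 13 49 (.thr 29 17 (.thr 45 61 (.thr 47 32 (.thr 46 44 (.thr 12 63 (.dbl 38 34 51))))))) (.rp 1 (.str 3 (.nv (.thr 13 49 (.thr 33 48 (.thr 45 41 (.dbl 29 17 61)))) (.nv (.thr 33 48 (.thr 17 29 (.thr 19 16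 (.thr 32 47 (.dbl 35 34 51))))) (.rp 51 (.thr 53 5 (.thr 48 33 (.thr 58 63 (.thr 59 8 (.thr 57 56 (.dbl 49 13 61)))))) (.rp 48 (.thr 17 29 (.thr 32 47 (.thr 19 16 (.thr 51 35 (.thr 59 8 (.thr 55 63 (.dbl 38 4 12))))))) (.rp 33 (.thr 17 29 (.thr 19 16 (.thr 51 35 (.thr 59 8 (.thr 55 63 (.dbl 38 4 12)))))) (.rp 32 (.thr 49 13 (.thr 17 29 (.thr 19 16 (.thr 48 33 (.dbl 51 35 50))))) (.rp 29 (.thr 53 5 (.thr 48 33 (.thr 63 58 (.thr 59 8 (.thr 51 55 (.dbl 49 13 50)))))) (.rp 17 (.thr 49 13 (.thr 48 33 (.thr 51 50 (.thr 59 8 (.thr 55 63 (.dbl 38 4 12)))))) (.rp 16 (.thr 13 49 (.thr 29 17 (.thr 33 48 (.thr 32 47 (.dbl 45 41 61))))) .nd)))))))))) .nd)))))))))))))) (.rp 29 (.thr 59 8 (.str 38 (.nv (.thr 4 55 (.thr 39 36 (.thr 46 34 (.thr 47 32 (.thr 35 43 (.dbl 44 41 45)))))) (.nv (.thr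 4 55 (.thr 5 53 (.thr 6 7 (.thr 13 49 (.thr 9 1 (.dbl 12 3 51)))))) (.nv (.thr 36 39 (.thr 34 46 (.thr 32 47 (.thr 35 33 (.dbl 44 40 41))))) (.rp 39 (.thr 4 55 (.thr 12 51 (.thr 5 53 (.thr 13 49 (.thr 9 1 (.dbl 6 3 7)))))) (.rp 30 (.str 18 (.nv (.thr 39 36 (.thr 47 32 (.thr 43 35 (.thr 27 11 (.dbl 51 12 15))))) (.nv (.thr 4 55 (.thr 32 47 (.thr 36 39 (.thr 44 40 (.thr 35 41 (.dbl 34 33 46)))))) (.nv (.thr 34 46 (.thr 49 13 (.thr 50 2 (.dbl 51 12 48)))) (.rp 34 (.thr 39 36 (.thr 47 32 (.thr 4 55 (.thr 51 12 (.thr 27 15 (.dbl 43 11 35)))))) (.rp 31 (.str 28 (.nv (.thr 4 55 (.thr 36 39 (.thr 20 52 (.thr 24 16 (.dbl 12 48 51))))) (.nv (.thr 34 46 (.thr 49 13 (.thr 50 2 (.dbl 51 12 48)))) (.nv (.thr 12 51 (.thr 32 47 (.thr 36 39 (.dbl 44 40 60)))) (.rp 51 (.thr 34 46 (.thr 36 39 (.thr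 32 47 (.thr 44 40 (.dbl 35 33 41))))) (.rp 12 (.thr 4 55 (.thr 46 34 (.thr 39 36 (.thr 47 32 (.thr 44 45 (.dbl 35 41 43)))))) .nd)))))) (.rp 28 (.str 31 (.nv (.thr 34 46 (.thr 49 13 (.thr 50 2 (.dbl 51 12 48)))) (.nv (.thr 32 47 (.thr 36 39 (.thr 44 40 (.thr 35 41 (.dbl 34 33 46))))) (.nv (.thr 47 32 (.thr 13 49 (.thr 15 63 (.dbl 12 14 51)))) (.rp 12 (.thr 4 55 (.thr 46 34 (.thr 47 32 (.thr 39 36 (.thr 35 43 (.dbl 44 41 45)))))) (.rp 4 (.thr 12 51 (.thr 13 49 (.thr 15 14 (.dbl 47 32 63)))) .nd)))))) (.rp 4 (.thr 12 51 (.thr 34 46 (.thr 36 39 (.thr 32 47 (.thr 44 40 (.dbl 35 33 41)))))) .nd)))))))) (.rp 18 (.str 30 (.nv (.thr 4 55 (.thr 5 53 (.thr 6 7 (.thr 13 49 (.thr 9 1 (.dbl 12 3 51)))))) (.nv (.thr 4 55 (.thr 32 47 (.thr 36 39 (.thr 44 40 (.thr 35 41 (.dbl 34 33 46)))))) (.nv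 (.thr 13 49 (.thr 46 34 (.thr 14 62 (.dbl 12 15 51)))) (.rp 4 (.thr 12 51 (.thr 13 49 (.thr 14 15 (.dbl 46 34 62)))) .nd))))) (.rp 4 (.thr 12 51 (.thr 34 46 (.thr 36 39 (.thr 32 47 (.thr 44 40 (.dbl 35 33 41)))))) .nd))))))))) (.rp 18 (.str 30 (.nv (.thr 5 53 (.thr 13 49 (.thr 1 9 (.thr 29 17 (.dbl 61 41 45))))) (.nv (.thr 13 49 (.thr 29 17 (.thr 31 28 (.thr 47 32 (.thr 15 63 (.dbl 45 60 61)))))) (.nv (.thr 53 5 (.thr 49 13 (.thr 61 57 (.thr 17 29 (.dbl 1 33 41))))) (.rp 61 (.thr 29 17 (.thr 47 32 (.thr 31 28 (.thr 63 15 (.thr 12 46 (.thr 59 8 (.dbl 51 38 55))))))) (.rp 49 (.thr 29 17 (.thr 47 32 (.thr 31 28 (.thr 63 15 (.thr 12 46 (.thr 59 8 (.dbl 51 38 55))))))) (.rp 29 (.str 60 (.nv (.thr 5 53 (.thr 13 49 (.thr 15 45 (.thr 14 12 (.thr 47 32 (.thr 62 46 (.dbl 63 31 61)))))))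 (.nv (.thr 13 49 (.thr 5 53 (.thr 1 9 (.thr 45 15 (.dbl 41 33 61))))) (.rp 61 (.thr 47 32 (.thr 45 15 (.thr 41 33 (.thr 44 46 (.thr 12 28 (.dbl 38 35 51)))))) (.rp 57 (.thr 13 49 (.thr 47 32 (.thr 15 45 (.thr 14 12 (.thr 62 46 (.dbl 63 31 61)))))) (.rp 53 (.thr 13 49 (.thr 47 32 (.thr 15 45 (.thr 14 12 (.thr 62 46 (.dbl 63 31 61)))))) (.rp 49 (.thr 47 32 (.thr 45 15 (.thr 41 33 (.thr 44 46 (.thr 12 28 (.dbl 38 35 51)))))) (.rp 45 (.thr 53 5 (.thr 49 13 (.thr 61 57 (.thr 63 62 (.thr 48 58 (.thr 59 8 (.dbl 51 50 55))))))) (.rp 15 (.thr 5 53 (.thr 13 49 (.thr 9 1 (.thr 57 41 (.thr 59 8 (.thr 51 54 (.thr 55 63 (.dbl 38 4 12)))))))) (.rp 13 (.thr 47 32 (.thr 45 15 (.thr 41 33 (.thr 61 1 (.thr 62 63 (.dbl 46 14 44)))))) (.rp 5 (.thr 13 49 (.thr 47 32 (.thr 15 45 (.thr 14 12 (.thr 62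 46 (.dbl 63 31 61)))))) .nd))))))))))) (.rp 17 (.thr 5 53 (.thr 13 49 (.thr 1 9 (.thr 61 41 (.thr 45 29 (.thr 47 32 (.thr 46 44 (.thr 62 14 (.dbl 60 15 63))))))))) (.rp 13 (.thr 29 17 (.thr 47 32 (.thr 31 28 (.thr 63 15 (.thr 12 46 (.thr 59 8 (.dbl 51 38 55))))))) (.rp 1 (.thr 29 17 (.thr 47 32 (.thr 31 28 (.thr 15 63 (.thr 45 60 (.dbl 13 49 61)))))) .nd)))))))))) (.rp 17 (.thr 53 5 (.thr 49 13 (.thr 57 61 (.thr 32 47 (.thr 59 8 (.thr 58 56 (.thr 48 63 (.thr 51 50 (.thr 38 12 (.thr 4 55 (.thr 36 39 (.thr 40 44 (.dbl 41 9 43))))))))))))) (.rp 13 (.thr 59 8 (.thr 29 17 (.str 38 (.nv (.thr 4 55 (.thr 39 36 (.thr 47 32 (.thr 35 43 (.thr 44 41 (.dbl 46 34 45)))))) (.nv (.thr 4 55 (.thr 39 36 (.thr 47 32 (.thr 43 35 (.thr 51 12 (.dbl 27 11 15)))))) (.nv (.thr 34 46 (.thr 36 39 (.thr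 32 47 (.thr 35 33 (.dbl 44 40 41))))) (.rp 47 (.thr 53 5 (.thr 34 46 (.thr 12 51 (.thr 55 4 (.thr 36 39 (.thr 52 54 (.thr 48 24 (.thr 58 63 (.dbl 56 57 60))))))))) (.rp 44 (.thr 5 53 (.thr 51 12 (.thr 4 55 (.thr 7 6 (.thr 39 36 (.thr 15 27 (.thr 3 11 (.thr 35 19 (.dbl 47 32 43))))))))) (.rp 40 (.thr 46 34 (.thr 51 12 (.thr 4 55 (.thr 39 36 (.thr 47 32 (.thr 44 45 (.dbl 35 41 43))))))) (.rp 39 (.thr 34 46 (.thr 12 51 (.thr 4 55 (.thr 32 47 (.thr 35 33 (.thr 44 41 (.thr 36 40 (.thr 60 28 (.thr 52 20 (.dbl 48 24 56)))))))))) (.rp 36 (.thr 5 53 (.thr 34 46 (.thr 12 51 (.thr 4 55 (.thr 6 7 (.thr 9 3 (.thr 41 57 (.thr 33 45 (.dbl 35 32 44))))))))) (.rp 35 (.thr 53 5 (.thr 34 46 (.thr 12 51 (.thr 55 4 (.thr 36 39 (.thr 52 54 (.thr 48 24 (.thr 58 63 (.dbl 56 57 60))))))))) (.rp 34 (.thr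 51 12 (.thr 4 55 (.thr 5 53 (.thr 7 6 (.thr 39 36 (.thr 15 27 (.thr 3 11 (.thr 35 19 (.dbl 47 32 43))))))))) (.rp 32 (.thr 53 5 (.thr 34 46 (.thr 12 51 (.thr 55 4 (.thr 36 39 (.thr 52 54 (.thr 48 24 (.thr 58 63 (.dbl 56 57 60))))))))) (.rp 30 (.str 18 (.nv (.thr 4 55 (.thr 39 36 (.thr 47 32 (.thr 35 43 (.thr 44 41 (.dbl 46 34 45)))))) (.nv (.thr 12 51 (.thr 34 46 (.thr 36 39 (.thr 48 24 (.thr 33 3 (.dbl 32 35 47)))))) (.nv (.thr 4 55 (.thr 32 47 (.thr 34 46 (.thr 50 2 (.thr 51 12 (.thr 48 49 (.dbl 33 3 35))))))) (.nv (.thr 39 36 (.thr 47 32 (.thr 43 35 (.thr 27 11 (.dbl 51 12 15))))) (.nv (.thr 34 46 (.thr 32 47 (.thr 35 33 (.thr 36 39 (.dbl 44 40 41))))) (.rp 47 (.thr 34 46 (.thr 12 51 (.thr 36 39 (.thr 48 24 (.thr 33 3 (.thr 35 32 (.dbl 41 44 45))))))) (.rp 35 (.thr 5 53 (.thr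 34 46 (.thr 4 55 (.thr 6 7 (.thr 12 51 (.thr 3 9 (.thr 48 33 (.dbl 36 24 39)))))))) (.rp 34 (.thr 51 12 (.thr 4 55 (.thr 5 53 (.thr 7 6 (.thr 47 32 (.thr 39 36 (.thr 35 43 (.thr 3 19 (.dbl 15 11 27))))))))) (.rp 32 (.thr 5 53 (.thr 34 46 (.thr 4 55 (.thr 6 7 (.thr 12 51 (.thr 3 9 (.thr 48 33 (.dbl 36 24 39)))))))) .nd)))))))))) (.rp 18 (.str 30 (.nv (.thr 34 46 (.thr 32 47 (.thr 36 39 (.thr 44 40 (.dbl 35 33 41))))) (.nv (.thr 47 32 (.thr 31 28 (.thr 63 15 (.dbl 12 46 51)))) (.rp 47 (.thr 34 46 (.thr 12 51 (.thr 4 55 (.thr 36 39 (.thr 28 31 (.thr 20 52 (.dbl 24 16 48))))))) (.rp 46 (.thr 47 32 (.thr 31 28 (.thr 63 15 (.dbl 55 4 51)))) (.rp 34 (.thr 51 12 (.thr 4 55 (.thr 39 36 (.thr 15 27 (.thr 47 32 (.dbl 31 28 63)))))) (.rp 32 (.thr 34 46 (.thr 12 51 (.thr 4 55 (.thr 36 39 (.thr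 28 31 (.thr 20 52 (.dbl 24 16 48))))))) (.rp 19 (.str 16 (.nv (.thr 34 46 (.thr 32 47 (.thr 35 33 (.thr 36 39 (.dbl 44 40 41))))) (.nv (.thr 4 55 (.thr 28 31 (.thr 20 24 (.dbl 36 39 52)))) (.nv (.thr 31 28 (.thr 47 32 (.thr 63 15 (.dbl 12 46 51)))) (.rp 34 (.thr 51 12 (.thr 4 55 (.thr 36 39 (.thr 28 31 (.dbl 20 24 52))))) (.rp 4 (.thr 12 51 (.thr 34 46 (.thr 36 39 (.thr 28 31 (.dbl 24 20 48))))) .nd)))))) (.rp 16 (.str 19 (.nv (.thr 31 28 (.thr 23 27 (.thr 39 36 (.dbl 55 4 7)))) (.nv (.thr 34 46 (.thr 32 47 (.thr 35 33 (.dbl 51 3 12)))) (.rp 51 (.thr 34 46 (.thr 39 36 (.thr 31 28 (.thr 23 27 (.dbl 55 4 7))))) (.rp 48 (.thr 32 47 (.thr 34 46 (.thr 51 12 (.thr 4 55 (.dbl 35 3 33))))) (.rp 34 (.thr 51 12 (.thr 4 55 (.thr 35 3 (.thr 39 36 (.dbl 47 32 43))))) (.rp 32 (.str 48 (.nv (.thr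 53 5 (.thr 63 58 (.dbl 12 46 51))) (.nv (.thr 36 39 (.dbl 12 24 51)) (.rp 51 (.thr 34 46 (.thr 31 28 (.thr 23 27 (.thr 39 36 (.dbl 55 4 7))))) (.rp 34 (.thr 51 12 (.thr 4 55 (.thr 31 28 (.thr 27 23 (.dbl 39 15 36))))) (.rp 12 (.thr 4 55 (.thr 36 39 (.thr 52 20 (.thr 53 5 (.thr 58 63 (.dbl 56 57 60)))))) (.rp 4 (.thr 12 51 (.thr 34 46 (.dbl 36 24 39))) .nd))))))) (.rp 12 (.thr 4 55 (.thr 34 46 (.thr 36 39 (.thr 32 47 (.thr 35 33 (.dbl 44 40 41)))))) (.rp 4 (.thr 12 51 (.thr 34 46 (.thr 36 39 (.thr 32 47 (.thr 35 33 (.dbl 44 40 41)))))) .nd))))))))) (.rp 12 (.thr 4 55 (.thr 34 46 (.thr 36 39 (.thr 32 47 (.thr 35 33 (.dbl 44 40 41)))))) (.rp 4 (.thr 12 51 (.thr 34 46 (.thr 36 39 (.thr 32 47 (.thr 35 33 (.dbl 44 40 41)))))) .nd))))))))))) (.rp 4 (.thr 12 51 (.thr 34 46 (.thr 36 39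 (.thr 32 47 (.thr 35 33 (.dbl 44 40 41)))))) .nd))))))))))))))))) (.rp 9 (.thr 53 5 (.thr 17 29 (.thr 49 13 (.thr 1 33 (.dbl 61 41 57))))) (.rp 5 (.thr 13 49 (.thr 29 17 (.thr 45 61 (.thr 47 32 (.thr 46 44 (.thr 12 63 (.dbl 38 34 51))))))) (.rp 1 (.thr 32 47 (.str 41 (.nv (.thr 40 43 (.thr 44 36 (.thr 33 45 (.dbl 35 34 38)))) (.rp 45 (.thr 17 29 (.thr 13 49 (.thr 57 9 (.thr 53 5 (.thr 59 8 (.thr 58 56 (.thr 63 48 (.thr 51 55 (.thr 60 54 (.thr 61 62 (.thr 40 43 (.thr 44 36 (.dbl 12 28 38))))))))))))) (.rp 44 (.thr 40 43 (.thr 13 49 (.thr 57 9 (.thr 53 5 (.thr 59 8 (.thr 58 56 (.thr 63 48 (.thr 51 55 (.thr 12 38 (.dbl 29 17 46)))))))))) (.rp 43 (.thr 33 45 (.thr 29 17 (.thr 13 49 (.thr 57 9 (.thr 53 5 (.thr 59 8 (.thr 58 56 (.thr 63 48 (.thr 51 55 (.dbl 12 38 46)))))))))) (.rp 40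 (.thr 33 45 (.thr 29 17 (.thr 49 13 (.thr 9 57 (.thr 53 5 (.thr 34 35 (.thr 46 38 (.thr 63 12 (.thr 48 58 (.thr 50 51 (.dbl 18 2 3))))))))))) (.rp 39 (.thr 33 45 (.thr 40 43 (.thr 35 34 (.dbl 44 36 38)))) (.rp 38 (.thr 40 43 (.thr 44 36 (.thr 33 45 (.thr 29 17 (.thr 13 49 (.thr 57 9 (.thr 53 5 (.thr 59 8 (.thr 58 56 (.thr 63 48 (.thr 12 46 (.thr 60 28 (.dbl 51 54 55))))))))))))) (.rp 36 (.thr 40 43 (.thr 33 45 (.thr 29 17 (.thr 13 49 (.thr 57 9 (.thr 53 5 (.thr 59 8 (.thr 58 56 (.thr 63 48 (.thr 51 55 (.dbl 12 38 46))))))))))) (.rp 35 (.thr 33 45 (.thr 29 17 (.thr 13 49 (.thr 57 9 (.thr 53 5 (.thr 59 8 (.thr 58 56 (.thr 63 48 (.thr 51 55 (.dbl 12 38 46)))))))))) (.rp 34 (.thr 8 59 (.thr 40 43 (.thr 36 44 (.thr 24 56 (.thr 12 48 (.dbl 38 39 51)))))) (.rp 33 (.thr 8 59 (.thr 40 43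 (.thr 36 44 (.thr 24 56 (.thr 12 48 (.dbl 38 39 51)))))) (.rp 30 (.str 18 (.nv (.thr 40 43 (.thr 44 36 (.thr 35 38 (.dbl 33 34 45)))) (.nv (.thr 17 29 (.thr 19 16 (.thr 33 45 (.thr 3 48 (.dbl 35 34 51))))) (.nv (.thr 40 43 (.thr 33 45 (.thr 44 36 (.dbl 35 34 38)))) (.rp 45 (.thr 40 43 (.thr 17 29 (.thr 19 16 (.thr 44 36 (.thr 35 38 (.thr 3 51 (.dbl 33 34 48))))))) (.rp 44 (.thr 17 29 (.thr 57 9 (.thr 59 8 (.thr 58 56 (.thr 53 5 (.thr 13 49 (.thr 48 63 (.dbl 33 3 45)))))))) (.rp 35 (.thr 9 57 (.thr 43 40 (.thr 33 45 (.thr 3 48 (.thr 63 23 (.thr 29 17 (.dbl 12 6 46))))))) (.rp 34 (.thr 8 59 (.thr 40 43 (.thr 24 56 (.thr 36 44 (.thr 48 12 (.dbl 33 3 45)))))) (.rp 33 (.thr 8 59 (.thr 40 43 (.thr 24 56 (.thr 36 44 (.thr 12 48 (.dbl 38 39 51)))))) (.rp 3 (.str 2 (.nv (.thr 33 45 (.dbl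 34 35 50)) (.nv (.thr 34 50 (.dbl 33 35 45)) (.rp 50 (.thr 40 43 (.thr 33 45 (.thr 35 34 (.dbl 44 36 38)))) (.rp 45 (.thr 34 50 (.thr 35 33 (.dbl 38 44 46))) (.rp 35 (.thr 50 34 (.thr 59 8 (.thr 49 13 (.thr 51 48 (.thr 55 63 (.dbl 38 4 12)))))) (.rp 34 (.thr 57 9 (.thr 8 59 (.thr 40 43 (.thr 24 56 (.thr 36 44 (.thr 12 48 (.dbl 38 39 51))))))) (.rp 33 (.thr 34 50 (.thr 40 43 (.thr 38 46 (.dbl 36 39 44)))) .nd)))))))) (.rp 2 (.str 3 (.nv (.dbl 33 45 48) (.rp 48 (.thr 40 43 (.thr 33 45 (.thr 35 34 (.dbl 44 36 38)))) (.rp 45 (.thr 33 48 (.thr 35 34 (.thr 19 51 (.dbl 17 16 29)))) (.rp 33 (.thr 9 57 (.thr 43 40 (.thr 63 23 (.thr 12 6 (.dbl 29 17 46))))) .nd))))) .nd))))))))))) (.rp 18 (.str 30 (.nv (.thr 40 43 (.thr 44 36 (.thr 33 45 (.dbl 35 34 38)))) (.rp 45 (.thr 29 17 (.thr 28 31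 (.thr 40 43 (.thr 44 36 (.thr 12 60 (.dbl 38 35 51)))))) (.rp 44 (.thr 57 9 (.thr 53 5 (.thr 13 49 (.thr 45 33 (.thr 17 29 (.thr 15 60 (.thr 12 14 (.thr 8 59 (.thr 40 43 (.thr 24 56 (.thr 38 51 (.dbl 36 39 48)))))))))))) (.rp 43 (.thr 57 9 (.thr 45 33 (.thr 60 15 (.thr 59 8 (.thr 56 58 (.thr 48 52 (.thr 51 54 (.dbl 49 13 50)))))))) (.rp 40 (.thr 13 49 (.thr 33 45 (.thr 29 17 (.thr 34 35 (.thr 46 38 (.thr 14 62 (.dbl 12 15 63))))))) (.rp 39 (.thr 33 45 (.thr 40 43 (.thr 35 34 (.dbl 44 36 38)))) (.rp 38 (.thr 45 33 (.thr 60 15 (.thr 40 43 (.thr 44 36 (.thr 28 12 (.dbl 29 17 31)))))) (.rp 36 (.thr 57 9 (.thr 53 5 (.thr 13 49 (.thr 33 45 (.thr 29 17 (.thr 28 31 (.thr 8 59 (.thr 43 40 (.thr 34 35 (.thr 46 38 (.thr 14 62 (.dbl 12 15 63)))))))))))) (.rp 35 (.thr 57 9 (.thr 53 5 (.thr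 13 49 (.thr 45 33 (.thr 17 29 (.thr 15 60 (.thr 12 14 (.thr 59 8 (.thr 58 56 (.thr 48 63 (.thr 36 24 (.dbl 40 43 44)))))))))))) (.rp 34 (.thr 45 33 (.thr 60 15 (.thr 40 43 (.thr 44 36 (.thr 28 12 (.dbl 29 17 31)))))) (.rp 33 (.thr 49 13 (.thr 29 17 (.thr 28 31 (.thr 40 43 (.thr 44 36 (.thr 12 60 (.dbl 38 35 51))))))) (.rp 3 (.str 2 (.nv (.thr 33 45 (.thr 35 34 (.thr 44 38 (.dbl 40 36 43)))) (.nv (.thr 33 45 (.thr 40 43 (.thr 44 36 (.dbl 35 34 38)))) (.rp 46 (.thr 40 43 (.thr 33 45 (.thr 44 36 (.dbl 35 34 38)))) (.rp 45 (.thr 40 43 (.thr 44 36 (.thr 29 17 (.thr 28 31 (.thr 12 60 (.dbl 38 35 51)))))) (.rp 44 (.thr 8 59 (.thr 9 57 (.thr 10 11 (.thr 14 6 (.thr 33 45 (.thr 46 62 (.dbl 34 35 38))))))) (.rp 43 (.thr 33 45 (.thr 35 34 (.thr 44 38 (.thr 40 36 (.thr 59 8 (.thr 53 5 (.thr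 57 9 (.thr 13 49 (.thr 58 56 (.thr 63 48 (.thr 29 17 (.thr 51 55 (.thr 28 31 (.dbl 12 46 60)))))))))))))) (.rp 40 (.thr 33 45 (.thr 34 35 (.thr 46 38 (.thr 29 17 (.thr 12 63 (.thr 13 49 (.dbl 14 15 62))))))) (.rp 38 (.thr 13 49 (.thr 33 45 (.thr 40 43 (.thr 35 34 (.thr 44 36 (.thr 59 8 (.thr 53 5 (.thr 57 9 (.thr 58 56 (.thr 63 48 (.thr 29 17 (.thr 51 55 (.thr 28 31 (.dbl 12 46 60)))))))))))))) (.rp 36 (.thr 33 45 (.thr 34 35 (.thr 46 38 (.thr 29 17 (.thr 12 63 (.thr 13 49 (.dbl 14 15 62))))))) (.rp 35 (.thr 8 59 (.thr 9 57 (.thr 10 11 (.thr 14 6 (.thr 13 49 (.thr 15 12 (.dbl 45 33 60))))))) (.rp 34 (.thr 8 59 (.thr 9 57 (.thr 10 11 (.thr 14 6 (.thr 13 49 (.thr 15 12 (.dbl 45 33 60))))))) (.rp 33 (.str 48 (.nv (.thr 49 13 (.thr 51 50 (.thr 38 12 (.thr 36 39 (.dbl 40 43 44)))))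 (.nv (.thr 17 29 (.thr 57 9 (.thr 59 8 (.thr 58 56 (.dbl 53 5 63))))) (.nv (.thr 40 43 (.thr 36 44 (.thr 12 24 (.dbl 38 39 51)))) (.rp 40 (.thr 53 5 (.thr 58 63 (.thr 59 8 (.dbl 57 9 56)))) (.rp 12 (.thr 9 57 (.thr 53 5 (.thr 49 13 (.thr 63 58 (.thr 51 50 (.dbl 59 8 55)))))) .nd)))))) .nd))))))))))))) (.rp 2 (.str 3 (.nv (.thr 5 53 (.thr 8 59 (.thr 9 57 (.thr 6 12 (.thr 7 4 (.dbl 11 10 15)))))) (.nv (.thr 40 43 (.thr 33 45 (.thr 44 36 (.dbl 35 34 38)))) (.rp 50 (.str 34 (.nv (.thr 9 57 (.thr 12 6 (.dbl 38 46 51))) (.nv (.dbl 33 35 45) (.rp 38 (.str 14 (.nv (.thr 9 57 (.thr 13 49 (.dbl 12 6 15))) (.nv (.dbl 33 35 45) (.rp 54 (.str 6 (.nv (.thr 62 46 (.dbl 33 35 45)) (.nv (.dbl 9 12 57) (.rp 62 (.str 58 (.nv (.dbl 9 12 57) (.nv (.dbl 33 35 45) .nd))) .nd)))) (.rp 33 (.thr 43 40 (.thr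 63 23 (.thr 46 62 (.dbl 29 12 17)))) (.rp 6 (.str 54 (.nv (.dbl 33 35 45) (.rp 45 (.thr 57 9 (.thr 35 33 (.dbl 51 19 60))) (.rp 35 (.thr 45 33 (.thr 57 9 (.dbl 60 15 51))) (.rp 33 (.thr 46 62 (.thr 43 40 (.thr 63 23 (.dbl 29 12 17)))) .nd))))) .nd)))))) (.rp 14 (.thr 38 46 (.dbl 33 35 45)) .nd))))) (.rp 34 (.str 50 (.nv (.thr 43 40 (.thr 59 8 (.thr 11 27 (.thr 15 7 (.dbl 45 33 60))))) (.nv (.thr 9 57 (.thr 49 13 (.thr 51 48 (.dbl 12 6 38)))) (.rp 51 (.thr 17 29 (.thr 43 40 (.thr 45 33 (.thr 59 8 (.thr 11 27 (.dbl 15 7 60)))))) (.rp 17 (.str 51 (.nv (.thr 33 45 (.thr 9 57 (.dbl 12 6 38))) (.nv (.dbl 49 13 48) (.rp 19 (.str 16 (.nv (.thr 33 45 (.thr 9 57 (.dbl 12 6 38))) (.nv (.dbl 49 13 48) .nd))) (.rp 16 (.thr 19 35 (.dbl 49 13 48)) .nd))))) (.rp 12 (.thr 43 40 (.thr 63 23 (.thr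 53 5 (.thr 48 58 (.dbl 49 13 51))))) .nd)))))) .nd))))) .nd)))))))))))))) (.rp 3 (.str 2 (.nv (.thr 33 45 (.thr 35 34 (.thr 44 38 (.dbl 40 36 43)))) (.nv (.thr 40 43 (.thr 33 45 (.thr 44 36 (.dbl 35 34 38)))) (.rp 45 (.thr 17 29 (.thr 57 9 (.thr 59 8 (.thr 40 43 (.thr 58 56 (.thr 53 5 (.thr 13 49 (.thr 63 48 (.thr 51 55 (.thr 44 36 (.dbl 38 12 35))))))))))) (.rp 44 (.thr 59 8 (.thr 57 9 (.thr 58 56 (.thr 53 5 (.thr 13 49 (.thr 63 48 (.thr 51 55 (.thr 12 38 (.dbl 29 17 46))))))))) (.rp 43 (.thr 57 9 (.thr 59 8 (.thr 58 56 (.thr 53 5 (.thr 13 49 (.thr 63 48 (.thr 51 55 (.thr 12 38 (.dbl 29 17 46))))))))) (.rp 40 (.thr 9 57 (.thr 8 59 (.thr 10 11 (.thr 53 5 (.thr 13 49 (.thr 33 45 (.thr 34 35 (.thr 29 17 (.thr 46 38 (.thr 12 63 (.dbl 14 6 15))))))))))) (.rp 38 (.thr 33 45 (.thr 35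 34 (.thr 57 9 (.thr 59 8 (.thr 40 43 (.thr 58 56 (.thr 53 5 (.thr 13 49 (.thr 63 48 (.thr 51 55 (.thr 29 17 (.thr 12 46 (.thr 44 36 (.dbl 60 28 54)))))))))))))) (.rp 36 (.thr 40 43 (.thr 57 9 (.thr 59 8 (.thr 58 56 (.thr 53 5 (.thr 13 49 (.thr 63 48 (.thr 51 55 (.thr 33 45 (.thr 35 34 (.dbl 38 12 44))))))))))) (.rp 35 (.thr 33 45 (.thr 57 9 (.thr 59 8 (.thr 58 56 (.thr 53 5 (.thr 13 49 (.thr 63 48 (.thr 51 55 (.thr 29 17 (.dbl 12 38 46)))))))))) (.rp 34 (.thr 33 45 (.thr 57 9 (.thr 59 8 (.thr 58 56 (.thr 53 5 (.thr 13 49 (.thr 63 48 (.thr 51 55 (.thr 29 17 (.dbl 12 38 46)))))))))) (.rp 33 (.thr 17 29 (.str 18 (.nv (.thr 34 50 (.thr 38 46 (.thr 12 51 (.thr 36 39 (.dbl 40 43 44))))) (.nv (.thr 40 43 (.thr 44 36 (.thr 34 50 (.dbl 38 35 46)))) (.rp 50 (.thr 8 59 (.thr 40 43 (.thr 24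 56 (.thr 36 44 (.thr 12 48 (.dbl 38 39 51)))))) (.rp 46 (.thr 50 34 (.thr 40 43 (.thr 49 13 (.thr 51 48 (.thr 44 36 (.dbl 38 12 35)))))) (.rp 44 (.thr 50 34 (.thr 59 8 (.thr 49 13 (.thr 51 48 (.thr 55 63 (.dbl 38 4 12)))))) (.rp 43 (.thr 50 34 (.thr 57 9 (.thr 59 8 (.thr 58 56 (.thr 54 62 (.thr 51 60 (.dbl 49 13 48))))))) (.rp 40 (.thr 50 34 (.thr 59 8 (.thr 49 13 (.thr 51 48 (.thr 55 63 (.dbl 38 4 12)))))) (.rp 39 (.str 35 (.nv (.thr 40 43 (.dbl 44 36 38)) (.nv (.thr 34 50 (.dbl 38 44 46)) (.rp 44 (.thr 50 34 (.thr 59 8 (.thr 49 13 (.thr 51 48 (.thr 55 63 (.dbl 38 4 12)))))) (.rp 38 (.thr 50 34 (.thr 57 9 (.thr 59 8 (.thr 58 56 (.thr 54 62 (.thr 51 60 (.dbl 49 13 48))))))) .nd))))) (.rp 38 (.thr 50 34 (.thr 57 9 (.thr 59 8 (.thr 58 56 (.thr 54 62 (.thr 51 60 (.dbl 49 13 48)))))))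 (.rp 36 (.thr 50 34 (.thr 59 8 (.thr 49 13 (.thr 51 48 (.thr 55 63 (.dbl 38 4 12)))))) (.rp 35 (.thr 50 34 (.thr 59 8 (.thr 49 13 (.thr 51 48 (.thr 55 63 (.dbl 38 4 12)))))) (.rp 34 (.thr 8 59 (.thr 40 43 (.thr 24 56 (.thr 36 44 (.thr 12 48 (.dbl 38 39 51)))))) .nd)))))))))))))) (.rp 30 (.str 18 (.nv (.thr 33 45 (.dbl 34 35 50)) (.nv (.thr 34 50 (.dbl 33 35 45)) (.rp 50 (.thr 40 43 (.thr 33 45 (.thr 35 34 (.dbl 44 36 38)))) (.rp 45 (.thr 34 50 (.thr 35 33 (.dbl 38 44 46))) (.rp 35 (.thr 50 34 (.thr 59 8 (.thr 49 13 (.thr 51 48 (.thr 55 63 (.dbl 38 4 12)))))) (.rp 34 (.thr 57 9 (.thr 8 59 (.thr 40 43 (.thr 24 56 (.thr 36 44 (.thr 12 48 (.dbl 38 39 51))))))) (.rp 33 (.thr 34 50 (.thr 40 43 (.thr 38 46 (.dbl 36 39 44)))) .nd)))))))) (.rp 18 (.str 30 (.nv (.thr 33 45 (.thr 35 34 (.thr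 44 38 (.dbl 40 36 43)))) (.nv (.thr 33 45 (.thr 40 43 (.thr 44 36 (.dbl 35 34 38)))) (.rp 46 (.thr 40 43 (.thr 33 45 (.thr 44 36 (.dbl 35 34 38)))) (.rp 45 (.thr 40 43 (.thr 44 36 (.thr 29 17 (.thr 28 31 (.thr 12 60 (.dbl 38 35 51)))))) (.rp 44 (.thr 8 59 (.thr 9 57 (.thr 10 11 (.thr 14 6 (.thr 33 45 (.thr 46 62 (.dbl 34 35 38))))))) (.rp 43 (.thr 33 45 (.thr 35 34 (.thr 44 38 (.thr 40 36 (.thr 59 8 (.thr 53 5 (.thr 57 9 (.thr 13 49 (.thr 58 56 (.thr 63 48 (.thr 29 17 (.thr 51 55 (.thr 28 31 (.dbl 12 46 60)))))))))))))) (.rp 40 (.thr 33 45 (.thr 34 35 (.thr 46 38 (.thr 29 17 (.thr 12 63 (.thr 13 49 (.dbl 14 15 62))))))) (.rp 38 (.thr 13 49 (.thr 33 45 (.thr 40 43 (.thr 35 34 (.thr 44 36 (.thr 59 8 (.thr 53 5 (.thr 57 9 (.thr 58 56 (.thr 63 48 (.thr 29 17 (.thr 51 55 (.thr 28 31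 (.dbl 12 46 60)))))))))))))) (.rp 36 (.thr 33 45 (.thr 34 35 (.thr 46 38 (.thr 29 17 (.thr 12 63 (.thr 13 49 (.dbl 14 15 62))))))) (.rp 35 (.thr 8 59 (.thr 9 57 (.thr 10 11 (.thr 14 6 (.thr 13 49 (.thr 15 12 (.dbl 45 33 60))))))) (.rp 34 (.thr 8 59 (.thr 9 57 (.thr 10 11 (.thr 14 6 (.thr 13 49 (.thr 15 12 (.dbl 45 33 60))))))) (.rp 33 (.str 48 (.nv (.thr 49 13 (.thr 51 50 (.thr 38 12 (.thr 36 39 (.dbl 40 43 44))))) (.nv (.thr 17 29 (.thr 57 9 (.thr 59 8 (.thr 58 56 (.dbl 53 5 63))))) (.nv (.thr 40 43 (.thr 36 44 (.thr 12 24 (.dbl 38 39 51)))) (.rp 40 (.thr 53 5 (.thr 58 63 (.thr 59 8 (.dbl 57 9 56)))) (.rp 12 (.thr 9 57 (.thr 53 5 (.thr 49 13 (.thr 63 58 (.thr 51 50 (.dbl 59 8 55)))))) .nd)))))) .nd))))))))))))) .nd)))))))))))))) (.rp 2 (.str 3 (.nv (.thr 5 53 (.thr 8 59 (.thr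 9 57 (.thr 6 12 (.thr 7 4 (.dbl 11 10 15)))))) (.nv (.thr 40 43 (.thr 33 45 (.thr 44 36 (.dbl 35 34 38)))) (.rp 30 (.str 18 (.nv (.dbl 33 45 48) (.rp 48 (.thr 40 43 (.thr 33 45 (.thr 35 34 (.dbl 44 36 38)))) (.rp 45 (.thr 33 48 (.thr 35 34 (.thr 19 51 (.dbl 17 16 29)))) (.rp 33 (.thr 9 57 (.thr 43 40 (.thr 63 23 (.thr 12 6 (.dbl 29 17 46))))) .nd))))) (.rp 18 (.str 30 (.nv (.thr 5 53 (.thr 8 59 (.thr 9 57 (.thr 6 12 (.thr 7 4 (.dbl 11 10 15)))))) (.nv (.thr 40 43 (.thr 33 45 (.thr 44 36 (.dbl 35 34 38)))) (.rp 50 (.str 34 (.nv (.thr 9 57 (.thr 12 6 (.dbl 38 46 51))) (.nv (.dbl 33 35 45) (.rp 38 (.str 14 (.nv (.thr 9 57 (.thr 13 49 (.dbl 12 6 15))) (.nv (.dbl 33 35 45) (.rp 54 (.str 6 (.nv (.thr 62 46 (.dbl 33 35 45)) (.nv (.dbl 9 12 57) (.rp 62 (.str 58 (.nv (.dbl 9 12 57) (.nv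 (.dbl 33 35 45) .nd))) .nd)))) (.rp 33 (.thr 43 40 (.thr 63 23 (.thr 46 62 (.dbl 29 12 17)))) (.rp 6 (.str 54 (.nv (.dbl 33 35 45) (.rp 45 (.thr 57 9 (.thr 35 33 (.dbl 51 19 60))) (.rp 35 (.thr 45 33 (.thr 57 9 (.dbl 60 15 51))) (.rp 33 (.thr 46 62 (.thr 43 40 (.thr 63 23 (.dbl 29 12 17)))) .nd))))) .nd)))))) (.rp 14 (.thr 38 46 (.dbl 33 35 45)) .nd))))) (.rp 34 (.str 50 (.nv (.thr 43 40 (.thr 59 8 (.thr 11 27 (.thr 15 7 (.dbl 45 33 60))))) (.nv (.thr 9 57 (.thr 49 13 (.thr 51 48 (.dbl 12 6 38)))) (.rp 51 (.thr 17 29 (.thr 43 40 (.thr 45 33 (.thr 59 8 (.thr 11 27 (.dbl 15 7 60)))))) (.rp 17 (.str 51 (.nv (.thr 33 45 (.thr 9 57 (.dbl 12 6 38))) (.nv (.dbl 49 13 48) (.rp 19 (.str 16 (.nv (.thr 33 45 (.thr 9 57 (.dbl 12 6 38))) (.nv (.dbl 49 13 48) .nd))) (.rp 16 (.thr 19 35 (.dbl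 49 13 48)) .nd))))) (.rp 12 (.thr 43 40 (.thr 63 23 (.thr 53 5 (.thr 48 58 (.dbl 49 13 51))))) .nd)))))) .nd))))) .nd))))) .nd))))))))))))))))) .nd))))))))))))))))

theorem w434 : WinAt (4398082162688, 71303169) :=
  chF (K := []) kn c434 4398082162688 71303169 0
    [1145307136] (by decide +kernel) (by decide +kernel)

/-- A certificate. -/
noncomputable def c435 : Ct := (.str 41 (.nv (.thr 0 63 (.thr 17 29 (.thr 40 43 (.thr 51 34 (.thr 57 9 (.dbl 60 20 54)))))) (.nv (.thr 0 63 (.thr 1 61 (.thr 3 2 (.thr 8 59 (.thr 12 4 (.dbl 9 6 57)))))) (.nv (.thr 9 57 (.thr 1 61 (.thr 13 5 (.thr 17 29 (.dbl 49 33 37))))) (.rp 57 (.thr 63 0 (.thr 61 1 (.thr 29 17 (.thr 45 13 (.thr 46 12 (.thr 47 44 (.dbl 37 32 33))))))) (.rp 54 (.str 6 (.nv (.thr 0 63 (.thr 1 61 (.thr 3 2 (.thr 8 59 (.dbl 12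 4 9))))) (.nv (.thr 1 61 (.thr 17 29 (.thr 49 33 (.thr 13 37 (.dbl 9 5 57))))) (.nv (.thr 29 17 (.thr 63 0 (.thr 12 46 (.dbl 9 3 57)))) (.rp 50 (.str 14 (.nv (.thr 0 63 (.thr 8 59 (.thr 9 57 (.dbl 12 3 4)))) (.nv (.thr 8 59 (.thr 10 2 (.dbl 9 11 57))) (.nv (.thr 2 10 (.thr 1 61 (.dbl 0 3 63))) (.rp 62 (.str 58 (.nv (.thr 0 63 (.thr 2 10 (.dbl 1 3 61))) (.nv (.thr 57 9 (.dbl 59 8 56)) (.rp 30 (.str 18 (.nv (.thr 0 63 (.thr 2 10 (.dbl 1 3 61))) (.nv (.thr 57 9 (.dbl 59 8 56)) .nd))) (.rp 18 (.str 30 (.nv (.thr 2 10 (.thr 0 63 (.dbl 1 3 61))) (.nv (.thr 57 9 (.dbl 59 8 56)) (.rp 2 (.str 34 (.nv (.thr 57 9 (.dbl 59 8 56)) (.nv (.thr 17 29 (.dbl 0 51 63)) .nd))) .nd)))) .nd))))) (.rp 58 (.str 62 (.nv (.thr 8 59 (.thr 10 2 (.dbl 9 11 57))) (.nv (.thr 63 0 (.dbl 61 1 60)) (.rp 30 (.str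 18 (.nv (.thr 8 59 (.thr 10 2 (.dbl 9 11 57))) (.nv (.thr 61 1 (.dbl 63 0 60)) .nd))) (.rp 18 (.thr 30 46 (.thr 63 0 (.dbl 61 1 60))) .nd))))) (.rp 30 (.str 18 (.nv (.thr 0 63 (.thr 1 61 (.thr 3 2 (.thr 17 29 (.dbl 33 48 49))))) (.nv (.thr 10 2 (.thr 8 59 (.dbl 9 11 57))) (.rp 62 (.str 58 (.nv (.thr 0 63 (.thr 2 10 (.dbl 1 3 61))) (.nv (.thr 57 9 (.dbl 59 8 56)) .nd))) (.rp 58 (.str 62 (.nv (.thr 8 59 (.thr 10 2 (.dbl 9 11 57))) (.nv (.thr 61 1 (.dbl 63 0 60)) .nd))) (.rp 2 (.thr 29 17 (.thr 63 0 (.thr 12 46 (.dbl 9 3 57)))) .nd)))))) (.rp 18 (.str 30 (.nv (.thr 2 10 (.thr 1 61 (.dbl 0 3 63))) (.nv (.thr 8 59 (.thr 9 57 (.dbl 10 2 11))) (.nv (.thr 62 46 (.thr 63 0 (.dbl 61 1 60))) (.rp 62 (.str 58 (.nv (.thr 2 10 (.thr 0 63 (.dbl 1 3 61))) (.nv (.thr 57 9 (.dbl 59 8 56)) (.rp 2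 (.str 34 (.nv (.thr 57 9 (.dbl 59 8 56)) (.nv (.thr 17 29 (.dbl 0 51 63)) .nd))) .nd)))) (.rp 2 (.str 34 (.nv (.thr 62 46 (.thr 61 1 (.dbl 63 0 60))) (.nv (.thr 1 61 (.thr 9 57 (.thr 12 3 (.dbl 13 5 15)))) (.nv (.thr 17 29 (.dbl 0 51 63)) (.rp 62 (.str 58 (.nv (.thr 57 9 (.dbl 59 8 56)) (.nv (.thr 17 29 (.dbl 0 51 63)) .nd))) .nd))))) .nd)))))) .nd)))))))) (.rp 30 (.str 18 (.nv (.thr 0 63 (.thr 1 61 (.thr 3 2 (.thr 8 59 (.dbl 12 4 9))))) (.nv (.thr 1 61 (.thr 17 29 (.thr 49 33 (.thr 13 37 (.dbl 9 5 57))))) (.nv (.thr 9 57 (.thr 12 3 (.thr 29 17 (.dbl 63 0 46)))) (.rp 50 (.str 14 (.nv (.thr 0 63 (.thr 1 61 (.thr 3 2 (.thr 17 29 (.dbl 33 48 49))))) (.nv (.thr 10 2 (.thr 8 59 (.dbl 9 11 57))) (.rp 62 (.str 58 (.nv (.thr 0 63 (.thr 2 10 (.dbl 1 3 61))) (.nv (.thr 57 9 (.dbl 59 8 56))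 .nd))) (.rp 58 (.str 62 (.nv (.thr 8 59 (.thr 10 2 (.dbl 9 11 57))) (.nv (.thr 61 1 (.dbl 63 0 60)) .nd))) (.rp 2 (.thr 29 17 (.thr 63 0 (.thr 12 46 (.dbl 9 3 57)))) .nd)))))) (.rp 14 (.str 50 (.nv (.thr 0 63 (.thr 8 59 (.thr 9 57 (.dbl 12 3 4)))) (.nv (.thr 1 61 (.thr 2 34 (.dbl 0 3 63))) (.rp 63 (.thr 9 57 (.thr 1 61 (.thr 2 34 (.dbl 3 0 12)))) (.rp 62 (.str 46 (.nv (.thr 0 63 (.thr 2 34 (.dbl 1 3 61))) (.nv (.thr 29 17 (.dbl 63 0 12)) (.rp 63 (.thr 2 34 (.thr 9 57 (.thr 3 12 (.dbl 1 0 61)))) (.rp 0 (.thr 9 57 (.thr 29 17 (.dbl 12 3 63))) .nd))))) (.rp 46 (.str 62 (.nv (.thr 0 63 (.thr 34 2 (.dbl 17 29 51))) (.nv (.thr 61 1 (.dbl 63 0 60)) (.rp 63 (.thr 2 34 (.thr 9 57 (.thr 1 61 (.dbl 3 0 12)))) (.rp 0 (.thr 57 9 (.thr 61 1 (.thr 49 53 (.thr 29 17 (.dbl 13 37 45))))) .nd)))))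 (.rp 3 (.thr 17 29 (.thr 34 2 (.dbl 0 51 63))) (.rp 0 (.thr 9 57 (.thr 17 29 (.thr 1 61 (.thr 49 33 (.dbl 13 5 37))))) .nd)))))))) (.rp 9 (.thr 17 29 (.thr 0 63 (.thr 1 61 (.thr 3 2 (.dbl 33 48 49))))) .nd))))))) (.rp 18 (.str 30 (.nv (.thr 0 63 (.thr 1 61 (.thr 3 2 (.thr 12 9 (.dbl 8 4 59))))) (.nv (.thr 1 61 (.thr 9 57 (.thr 13 5 (.thr 17 29 (.dbl 49 33 37))))) (.nv (.thr 0 63 (.thr 8 59 (.thr 12 4 (.dbl 9 3 57)))) (.rp 50 (.str 14 (.nv (.thr 2 10 (.thr 1 61 (.dbl 0 3 63))) (.nv (.thr 8 59 (.thr 9 57 (.dbl 10 2 11))) (.nv (.thr 62 46 (.thr 63 0 (.dbl 61 1 60))) (.rp 62 (.str 58 (.nv (.thr 2 10 (.thr 0 63 (.dbl 1 3 61))) (.nv (.thr 57 9 (.dbl 59 8 56)) (.rp 2 (.str 34 (.nv (.thr 57 9 (.dbl 59 8 56)) (.nv (.thr 17 29 (.dbl 0 51 63)) .nd))) .nd)))) (.rp 2 (.str 34 (.nv (.thr 62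 46 (.thr 61 1 (.dbl 63 0 60))) (.nv (.thr 1 61 (.thr 9 57 (.thr 12 3 (.dbl 13 5 15)))) (.nv (.thr 17 29 (.dbl 0 51 63)) (.rp 62 (.str 58 (.nv (.thr 57 9 (.dbl 59 8 56)) (.nv (.thr 17 29 (.dbl 0 51 63)) .nd))) .nd))))) .nd)))))) (.rp 14 (.str 50 (.nv (.thr 0 63 (.thr 1 61 (.thr 17 29 (.thr 49 33 (.dbl 51 34 48))))) (.nv (.thr 1 61 (.thr 9 57 (.thr 13 5 (.thr 17 29 (.dbl 49 33 37))))) (.nv (.thr 0 63 (.thr 8 59 (.thr 12 4 (.dbl 9 3 57)))) (.rp 51 (.thr 1 61 (.thr 0 63 (.thr 3 2 (.dbl 9 12 57)))) .nd))))) (.rp 9 (.thr 63 0 (.thr 61 1 (.thr 60 62 (.thr 45 15 (.dbl 29 13 17))))) .nd))))))) (.rp 14 (.str 50 (.nv (.thr 0 63 (.thr 1 61 (.thr 2 3 (.thr 17 29 (.dbl 34 18 51))))) (.nv (.thr 1 61 (.thr 17 29 (.thr 49 33 (.thr 13 37 (.dbl 9 5 57))))) (.nv (.thr 43 40 (.thr 63 0 (.thr 3 23 (.dbl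 9 12 57)))) (.rp 30 (.str 18 (.nv (.thr 0 63 (.thr 8 59 (.thr 9 57 (.dbl 12 3 4)))) (.nv (.thr 1 61 (.thr 2 34 (.dbl 0 3 63))) (.rp 63 (.thr 9 57 (.thr 1 61 (.thr 2 34 (.dbl 3 0 12)))) (.rp 62 (.str 46 (.nv (.thr 0 63 (.thr 2 34 (.dbl 1 3 61))) (.nv (.thr 29 17 (.dbl 63 0 12)) (.rp 63 (.thr 2 34 (.thr 9 57 (.thr 3 12 (.dbl 1 0 61)))) (.rp 0 (.thr 9 57 (.thr 29 17 (.dbl 12 3 63))) .nd))))) (.rp 46 (.str 62 (.nv (.thr 0 63 (.thr 34 2 (.dbl 17 29 51))) (.nv (.thr 61 1 (.dbl 63 0 60)) (.rp 63 (.thr 2 34 (.thr 9 57 (.thr 1 61 (.dbl 3 0 12)))) (.rp 0 (.thr 57 9 (.thr 61 1 (.thr 49 53 (.thr 29 17 (.dbl 13 37 45))))) .nd))))) (.rp 3 (.thr 17 29 (.thr 34 2 (.dbl 0 51 63))) (.rp 0 (.thr 9 57 (.thr 17 29 (.thr 1 61 (.thr 49 33 (.dbl 13 5 37))))) .nd)))))))) (.rp 18 (.str 30 (.nv (.thr 0 63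 (.thr 1 61 (.thr 17 29 (.thr 49 33 (.dbl 51 34 48))))) (.nv (.thr 1 61 (.thr 9 57 (.thr 13 5 (.thr 17 29 (.dbl 49 33 37))))) (.nv (.thr 0 63 (.thr 8 59 (.thr 12 4 (.dbl 9 3 57)))) (.rp 51 (.thr 1 61 (.thr 0 63 (.thr 3 2 (.dbl 9 12 57)))) .nd))))) .nd)))))) (.rp 9 (.thr 8 59 (.thr 0 63 (.thr 4 12 (.thr 5 7 (.thr 10 15 (.thr 1 61 (.dbl 2 3 14))))))) .nd))))))))) (.rp 50 (.str 14 (.nv (.thr 29 17 (.thr 61 1 (.thr 13 45 (.thr 12 15 (.dbl 63 0 46))))) (.nv (.thr 0 63 (.thr 8 59 (.thr 9 57 (.thr 10 11 (.thr 6 2 (.dbl 12 3 4)))))) (.nv (.thr 9 57 (.thr 1 61 (.thr 13 5 (.thr 17 29 (.dbl 49 33 37))))) (.rp 54 (.str 6 (.nv (.thr 0 63 (.thr 8 59 (.thr 9 57 (.dbl 12 3 4)))) (.nv (.thr 8 59 (.thr 10 2 (.dbl 9 11 57))) (.nv (.thr 2 10 (.thr 1 61 (.dbl 0 3 63))) (.rp 62 (.str 58 (.nv (.thr 0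 63 (.thr 2 10 (.dbl 1 3 61))) (.nv (.thr 57 9 (.dbl 59 8 56)) (.rp 30 (.str 18 (.nv (.thr 0 63 (.thr 2 10 (.dbl 1 3 61))) (.nv (.thr 57 9 (.dbl 59 8 56)) .nd))) (.rp 18 (.str 30 (.nv (.thr 2 10 (.thr 0 63 (.dbl 1 3 61))) (.nv (.thr 57 9 (.dbl 59 8 56)) (.rp 2 (.str 34 (.nv (.thr 57 9 (.dbl 59 8 56)) (.nv (.thr 17 29 (.dbl 0 51 63)) .nd))) .nd)))) .nd))))) (.rp 58 (.str 62 (.nv (.thr 8 59 (.thr 10 2 (.dbl 9 11 57))) (.nv (.thr 63 0 (.dbl 61 1 60)) (.rp 30 (.str 18 (.nv (.thr 8 59 (.thr 10 2 (.dbl 9 11 57))) (.nv (.thr 61 1 (.dbl 63 0 60)) .nd))) (.rp 18 (.thr 30 46 (.thr 63 0 (.dbl 61 1 60))) .nd))))) (.rp 30 (.str 18 (.nv (.thr 0 63 (.thr 1 61 (.thr 3 2 (.thr 17 29 (.dbl 33 48 49))))) (.nv (.thr 10 2 (.thr 8 59 (.dbl 9 11 57))) (.rp 62 (.str 58 (.nv (.thr 0 63 (.thr 2 10 (.dbl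 1 3 61))) (.nv (.thr 57 9 (.dbl 59 8 56)) .nd))) (.rp 58 (.str 62 (.nv (.thr 8 59 (.thr 10 2 (.dbl 9 11 57))) (.nv (.thr 61 1 (.dbl 63 0 60)) .nd))) (.rp 2 (.thr 29 17 (.thr 63 0 (.thr 12 46 (.dbl 9 3 57)))) .nd)))))) (.rp 18 (.str 30 (.nv (.thr 2 10 (.thr 1 61 (.dbl 0 3 63))) (.nv (.thr 8 59 (.thr 9 57 (.dbl 10 2 11))) (.nv (.thr 62 46 (.thr 63 0 (.dbl 61 1 60))) (.rp 62 (.str 58 (.nv (.thr 2 10 (.thr 0 63 (.dbl 1 3 61))) (.nv (.thr 57 9 (.dbl 59 8 56)) (.rp 2 (.str 34 (.nv (.thr 57 9 (.dbl 59 8 56)) (.nv (.thr 17 29 (.dbl 0 51 63)) .nd))) .nd)))) (.rp 2 (.str 34 (.nv (.thr 62 46 (.thr 61 1 (.dbl 63 0 60))) (.nv (.thr 1 61 (.thr 9 57 (.thr 12 3 (.dbl 13 5 15)))) (.nv (.thr 17 29 (.dbl 0 51 63)) (.rp 62 (.str 58 (.nv (.thr 57 9 (.dbl 59 8 56)) (.nv (.thr 17 29 (.dbl 0 51 63)) .nd)))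 .nd))))) .nd)))))) .nd)))))))) (.rp 30 (.str 18 (.nv (.thr 0 63 (.thr 1 61 (.thr 3 2 (.thr 17 29 (.dbl 33 48 49))))) (.nv (.thr 0 63 (.thr 8 59 (.thr 9 57 (.thr 10 11 (.thr 6 2 (.dbl 12 3 4)))))) (.nv (.thr 29 17 (.thr 57 9 (.thr 61 1 (.thr 49 53 (.dbl 13 37 45))))) (.rp 54 (.str 6 (.nv (.thr 0 63 (.thr 1 61 (.thr 3 2 (.thr 17 29 (.dbl 33 48 49))))) (.nv (.thr 10 2 (.thr 8 59 (.dbl 9 11 57))) (.rp 62 (.str 58 (.nv (.thr 0 63 (.thr 2 10 (.dbl 1 3 61))) (.nv (.thr 57 9 (.dbl 59 8 56)) .nd))) (.rp 58 (.str 62 (.nv (.thr 8 59 (.thr 10 2 (.dbl 9 11 57))) (.nv (.thr 61 1 (.dbl 63 0 60)) .nd))) (.rp 2 (.thr 29 17 (.thr 63 0 (.thr 12 46 (.dbl 9 3 57)))) .nd)))))) (.rp 6 (.str 54 (.nv (.thr 0 63 (.thr 1 61 (.thr 3 2 (.thr 17 29 (.dbl 33 48 49))))) (.nv (.thr 1 61 (.thr 9 57 (.thr 17 29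 (.thr 49 33 (.dbl 13 5 37))))) (.nv (.thr 63 0 (.thr 59 8 (.thr 51 55 (.dbl 57 9 60)))) .nd)))) .nd)))))) (.rp 18 (.str 30 (.nv (.thr 29 17 (.thr 46 62 (.dbl 63 0 12))) (.nv (.thr 1 61 (.thr 9 57 (.thr 13 5 (.thr 17 29 (.dbl 49 33 37))))) (.nv (.thr 61 1 (.thr 62 46 (.dbl 63 0 60))) (.rp 54 (.str 6 (.nv (.thr 2 10 (.thr 1 61 (.dbl 0 3 63))) (.nv (.thr 8 59 (.thr 9 57 (.dbl 10 2 11))) (.nv (.thr 62 46 (.thr 63 0 (.dbl 61 1 60))) (.rp 62 (.str 58 (.nv (.thr 2 10 (.thr 0 63 (.dbl 1 3 61))) (.nv (.thr 57 9 (.dbl 59 8 56)) (.rp 2 (.str 34 (.nv (.thr 57 9 (.dbl 59 8 56)) (.nv (.thr 17 29 (.dbl 0 51 63)) .nd))) .nd)))) (.rp 2 (.str 34 (.nv (.thr 62 46 (.thr 61 1 (.dbl 63 0 60))) (.nv (.thr 1 61 (.thr 9 57 (.thr 12 3 (.dbl 13 5 15)))) (.nv (.thr 17 29 (.dbl 0 51 63)) (.rp 62 (.str 58 (.nv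 (.thr 57 9 (.dbl 59 8 56)) (.nv (.thr 17 29 (.dbl 0 51 63)) .nd))) .nd))))) .nd)))))) (.rp 34 (.str 2 (.nv (.thr 8 59 (.thr 9 57 (.dbl 10 6 11))) (.nv (.thr 1 61 (.dbl 0 3 63)) (.rp 54 (.thr 6 10 (.thr 1 61 (.dbl 0 3 63))) (.rp 6 (.str 54 (.nv (.thr 29 17 (.thr 46 62 (.dbl 63 0 12))) (.nv (.thr 1 61 (.dbl 0 3 63)) (.rp 63 (.thr 9 57 (.thr 1 61 (.thr 13 5 (.thr 17 29 (.dbl 49 33 37))))) (.rp 0 (.thr 62 46 (.thr 57 9 (.thr 61 1 (.dbl 60 51 63)))) .nd))))) .nd))))) (.rp 6 (.str 54 (.nv (.thr 29 17 (.thr 46 62 (.dbl 63 0 12))) (.nv (.thr 1 61 (.thr 9 57 (.thr 13 5 (.thr 17 29 (.dbl 49 33 37))))) (.nv (.thr 61 1 (.thr 62 46 (.dbl 63 0 60))) (.rp 34 (.str 2 (.nv (.thr 29 17 (.thr 46 62 (.dbl 63 0 12))) (.nv (.thr 1 61 (.dbl 0 3 63)) (.rp 63 (.thr 9 57 (.thr 1 61 (.thr 13 5 (.thr 17 29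 (.dbl 49 33 37))))) (.rp 0 (.thr 62 46 (.thr 57 9 (.thr 61 1 (.dbl 60 51 63)))) .nd))))) (.rp 2 (.str 34 (.nv (.thr 61 1 (.thr 62 46 (.dbl 63 0 60))) (.nv (.thr 17 29 (.dbl 0 51 63)) (.rp 63 (.thr 57 9 (.thr 17 29 (.dbl 51 0 60))) (.rp 0 (.thr 62 46 (.thr 57 9 (.thr 60 51 (.dbl 61 1 63)))) .nd))))) .nd)))))) (.rp 2 (.str 34 (.nv (.thr 61 1 (.thr 62 46 (.dbl 63 0 60))) (.nv (.thr 17 29 (.dbl 0 51 63)) (.rp 63 (.thr 29 17 (.thr 61 1 (.thr 13 45 (.thr 57 9 (.dbl 49 37 53))))) (.rp 54 (.str 6 (.nv (.thr 62 46 (.thr 61 1 (.dbl 63 0 60))) (.nv (.thr 1 61 (.thr 9 57 (.thr 12 3 (.dbl 13 5 15)))) (.nv (.thr 17 29 (.dbl 0 51 63)) (.rp 62 (.str 58 (.nv (.thr 57 9 (.dbl 59 8 56)) (.nv (.thr 17 29 (.dbl 0 51 63)) .nd))) .nd))))) (.rp 6 (.str 54 (.nv (.thr 61 1 (.thr 62 46 (.dbl 63 0 60))) (.nv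 (.thr 17 29 (.dbl 0 51 63)) (.rp 63 (.thr 57 9 (.thr 17 29 (.dbl 51 0 60))) (.rp 0 (.thr 62 46 (.thr 57 9 (.thr 60 51 (.dbl 61 1 63)))) .nd))))) (.rp 0 (.thr 29 17 (.thr 46 62 (.thr 12 63 (.thr 13 15 (.dbl 61 1 45))))) .nd))))))) .nd)))))))) (.rp 6 (.str 54 (.nv (.thr 0 63 (.thr 8 59 (.thr 12 4 (.thr 13 15 (.thr 29 17 (.dbl 61 1 45)))))) (.nv (.thr 1 61 (.thr 9 57 (.thr 13 5 (.thr 17 29 (.dbl 49 33 37))))) (.nv (.thr 40 43 (.thr 0 63 (.thr 60 20 (.dbl 57 9 51)))) (.rp 30 (.str 18 (.nv (.thr 0 63 (.thr 1 61 (.thr 3 2 (.thr 17 29 (.dbl 33 48 49))))) (.nv (.thr 1 61 (.thr 9 57 (.thr 17 29 (.thr 49 33 (.dbl 13 5 37))))) (.nv (.thr 63 0 (.thr 59 8 (.thr 51 55 (.dbl 57 9 60)))) .nd)))) (.rp 18 (.str 30 (.nv (.thr 29 17 (.thr 46 62 (.dbl 63 0 12))) (.nv (.thr 1 61 (.thr 9 57 (.thr 13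 5 (.thr 17 29 (.dbl 49 33 37))))) (.nv (.thr 61 1 (.thr 62 46 (.dbl 63 0 60))) (.rp 34 (.str 2 (.nv (.thr 29 17 (.thr 46 62 (.dbl 63 0 12))) (.nv (.thr 1 61 (.dbl 0 3 63)) (.rp 63 (.thr 9 57 (.thr 1 61 (.thr 13 5 (.thr 17 29 (.dbl 49 33 37))))) (.rp 0 (.thr 62 46 (.thr 57 9 (.thr 61 1 (.dbl 60 51 63)))) .nd))))) (.rp 2 (.str 34 (.nv (.thr 61 1 (.thr 62 46 (.dbl 63 0 60))) (.nv (.thr 17 29 (.dbl 0 51 63)) (.rp 63 (.thr 57 9 (.thr 17 29 (.dbl 51 0 60))) (.rp 0 (.thr 62 46 (.thr 57 9 (.thr 60 51 (.dbl 61 1 63)))) .nd))))) .nd)))))) .nd)))))) .nd)))))))) (.rp 30 (.str 18 (.nv (.thr 0 63 (.thr 1 61 (.thr 2 3 (.thr 17 29 (.dbl 34 50 51))))) (.nv (.thr 0 63 (.thr 1 61 (.thr 3 2 (.thr 8 59 (.thr 12 4 (.dbl 9 6 57)))))) (.nv (.thr 57 9 (.thr 61 1 (.thr 49 53 (.thr 29 17 (.dbl 13 37 45)))))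 (.rp 61 (.thr 57 9 (.thr 40 43 (.thr 0 63 (.thr 17 29 (.thr 51 34 (.dbl 60 20 54)))))) (.rp 54 (.str 6 (.nv (.thr 0 63 (.thr 1 61 (.thr 3 2 (.thr 8 59 (.dbl 12 4 9))))) (.nv (.thr 1 61 (.thr 17 29 (.thr 49 33 (.thr 13 37 (.dbl 9 5 57))))) (.nv (.thr 9 57 (.thr 12 3 (.thr 29 17 (.dbl 63 0 46)))) (.rp 50 (.str 14 (.nv (.thr 0 63 (.thr 1 61 (.thr 3 2 (.thr 17 29 (.dbl 33 48 49))))) (.nv (.thr 10 2 (.thr 8 59 (.dbl 9 11 57))) (.rp 62 (.str 58 (.nv (.thr 0 63 (.thr 2 10 (.dbl 1 3 61))) (.nv (.thr 57 9 (.dbl 59 8 56)) .nd))) (.rp 58 (.str 62 (.nv (.thr 8 59 (.thr 10 2 (.dbl 9 11 57))) (.nv (.thr 61 1 (.dbl 63 0 60)) .nd))) (.rp 2 (.thr 29 17 (.thr 63 0 (.thr 12 46 (.dbl 9 3 57)))) .nd)))))) (.rp 14 (.str 50 (.nv (.thr 0 63 (.thr 8 59 (.thr 9 57 (.dbl 12 3 4)))) (.nv (.thr 1 61 (.thr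 2 34 (.dbl 0 3 63))) (.rp 63 (.thr 9 57 (.thr 1 61 (.thr 2 34 (.dbl 3 0 12)))) (.rp 62 (.str 46 (.nv (.thr 0 63 (.thr 2 34 (.dbl 1 3 61))) (.nv (.thr 29 17 (.dbl 63 0 12)) (.rp 63 (.thr 2 34 (.thr 9 57 (.thr 3 12 (.dbl 1 0 61)))) (.rp 0 (.thr 9 57 (.thr 29 17 (.dbl 12 3 63))) .nd))))) (.rp 46 (.str 62 (.nv (.thr 0 63 (.thr 34 2 (.dbl 17 29 51))) (.nv (.thr 61 1 (.dbl 63 0 60)) (.rp 63 (.thr 2 34 (.thr 9 57 (.thr 1 61 (.dbl 3 0 12)))) (.rp 0 (.thr 57 9 (.thr 61 1 (.thr 49 53 (.thr 29 17 (.dbl 13 37 45))))) .nd))))) (.rp 3 (.thr 17 29 (.thr 34 2 (.dbl 0 51 63))) (.rp 0 (.thr 9 57 (.thr 17 29 (.thr 1 61 (.thr 49 33 (.dbl 13 5 37))))) .nd)))))))) (.rp 9 (.thr 17 29 (.thr 0 63 (.thr 1 61 (.thr 3 2 (.dbl 33 48 49))))) .nd))))))) (.rp 50 (.str 14 (.nv (.thr 0 63 (.thr 1 61 (.thr 3 2 (.thr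 17 29 (.dbl 33 48 49))))) (.nv (.thr 0 63 (.thr 8 59 (.thr 9 57 (.thr 10 11 (.thr 6 2 (.dbl 12 3 4)))))) (.nv (.thr 29 17 (.thr 57 9 (.thr 61 1 (.thr 49 53 (.dbl 13 37 45))))) (.rp 54 (.str 6 (.nv (.thr 0 63 (.thr 1 61 (.thr 3 2 (.thr 17 29 (.dbl 33 48 49))))) (.nv (.thr 10 2 (.thr 8 59 (.dbl 9 11 57))) (.rp 62 (.str 58 (.nv (.thr 0 63 (.thr 2 10 (.dbl 1 3 61))) (.nv (.thr 57 9 (.dbl 59 8 56)) .nd))) (.rp 58 (.str 62 (.nv (.thr 8 59 (.thr 10 2 (.dbl 9 11 57))) (.nv (.thr 61 1 (.dbl 63 0 60)) .nd))) (.rp 2 (.thr 29 17 (.thr 63 0 (.thr 12 46 (.dbl 9 3 57)))) .nd)))))) (.rp 6 (.str 54 (.nv (.thr 0 63 (.thr 1 61 (.thr 3 2 (.thr 17 29 (.dbl 33 48 49))))) (.nv (.thr 1 61 (.thr 9 57 (.thr 17 29 (.thr 49 33 (.dbl 13 5 37))))) (.nv (.thr 63 0 (.thr 59 8 (.thr 51 55 (.dbl 57 9 60)))) .nd))))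 .nd)))))) (.rp 14 (.str 50 (.nv (.thr 0 63 (.thr 17 29 (.thr 16 19 (.thr 48 32 (.dbl 51 34 49))))) (.nv (.thr 1 61 (.thr 2 34 (.dbl 0 3 63))) (.rp 63 (.thr 34 2 (.thr 1 61 (.thr 17 29 (.thr 49 33 (.dbl 51 0 48))))) (.rp 62 (.str 46 (.nv (.thr 0 63 (.thr 2 34 (.dbl 1 3 61))) (.nv (.thr 29 17 (.dbl 63 0 12)) (.rp 63 (.thr 17 29 (.thr 34 2 (.thr 51 0 (.thr 49 48 (.dbl 1 33 61))))) (.rp 54 (.str 6 (.nv (.thr 0 63 (.thr 2 34 (.dbl 1 3 61))) (.nv (.thr 29 17 (.dbl 63 0 12)) (.rp 63 (.thr 2 34 (.thr 9 57 (.thr 3 12 (.dbl 1 0 61)))) (.rp 0 (.thr 9 57 (.thr 29 17 (.dbl 12 3 63))) .nd))))) (.rp 6 (.str 54 (.nv (.thr 2 34 (.thr 0 63 (.dbl 1 3 61))) (.nv (.thr 29 17 (.dbl 63 0 12)) (.rp 63 (.thr 61 1 (.thr 57 9 (.thr 49 53 (.dbl 51 48 60)))) (.rp 2 (.str 10 (.nv (.thr 8 59 (.dbl 9 11 57))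 (.nv (.thr 29 17 (.dbl 63 0 12)) .nd))) (.rp 0 (.thr 61 1 (.thr 57 9 (.thr 49 53 (.dbl 51 48 60)))) .nd)))))) (.rp 0 (.thr 17 29 (.thr 1 61 (.thr 49 33 (.thr 9 57 (.dbl 13 5 37))))) .nd))))))) (.rp 54 (.str 6 (.nv (.thr 0 63 (.thr 8 59 (.thr 9 57 (.dbl 12 3 4)))) (.nv (.thr 1 61 (.thr 2 34 (.dbl 0 3 63))) (.rp 63 (.thr 9 57 (.thr 1 61 (.thr 2 34 (.dbl 3 0 12)))) (.rp 62 (.str 46 (.nv (.thr 0 63 (.thr 2 34 (.dbl 1 3 61))) (.nv (.thr 29 17 (.dbl 63 0 12)) (.rp 63 (.thr 2 34 (.thr 9 57 (.thr 3 12 (.dbl 1 0 61)))) (.rp 0 (.thr 9 57 (.thr 29 17 (.dbl 12 3 63))) .nd))))) (.rp 46 (.str 62 (.nv (.thr 0 63 (.thr 34 2 (.dbl 17 29 51))) (.nv (.thr 61 1 (.dbl 63 0 60)) (.rp 63 (.thr 2 34 (.thr 9 57 (.thr 1 61 (.dbl 3 0 12)))) (.rp 0 (.thr 57 9 (.thr 61 1 (.thr 49 53 (.thr 29 17 (.dbl 13 37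 45))))) .nd))))) (.rp 3 (.thr 17 29 (.thr 34 2 (.dbl 0 51 63))) (.rp 0 (.thr 9 57 (.thr 17 29 (.thr 1 61 (.thr 49 33 (.dbl 13 5 37))))) .nd)))))))) (.rp 46 (.str 62 (.nv (.thr 57 9 (.thr 59 8 (.dbl 58 54 56))) (.nv (.thr 61 1 (.dbl 63 0 60)) (.rp 54 (.str 6 (.nv (.thr 0 63 (.thr 34 2 (.dbl 17 29 51))) (.nv (.thr 61 1 (.dbl 63 0 60)) (.rp 63 (.thr 2 34 (.thr 9 57 (.thr 1 61 (.dbl 3 0 12)))) (.rp 0 (.thr 57 9 (.thr 61 1 (.thr 49 53 (.thr 29 17 (.dbl 13 37 45))))) .nd))))) (.rp 6 (.thr 54 58 (.thr 61 1 (.dbl 63 0 60))) .nd))))) (.rp 34 (.thr 57 9 (.thr 61 1 (.thr 49 53 (.thr 29 17 (.dbl 13 37 45))))) (.rp 6 (.str 54 (.nv (.thr 62 58 (.thr 61 1 (.dbl 63 0 60))) (.nv (.thr 57 9 (.thr 59 8 (.dbl 58 56 62))) (.nv (.thr 2 34 (.thr 0 63 (.dbl 1 3 61))) (.rp 62 (.str 46 (.nv (.thr 2 34 (.thr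 0 63 (.dbl 1 3 61))) (.nv (.thr 29 17 (.dbl 63 0 12)) (.rp 63 (.thr 61 1 (.thr 57 9 (.thr 49 53 (.dbl 51 48 60)))) (.rp 2 (.str 10 (.nv (.thr 8 59 (.dbl 9 11 57)) (.nv (.thr 29 17 (.dbl 63 0 12)) .nd))) (.rp 0 (.thr 61 1 (.thr 57 9 (.thr 49 53 (.dbl 51 48 60)))) .nd)))))) (.rp 2 (.str 10 (.nv (.thr 62 58 (.thr 61 1 (.dbl 63 0 60))) (.nv (.thr 9 57 (.dbl 8 11 59)) (.rp 62 (.str 46 (.nv (.thr 8 59 (.dbl 9 11 57)) (.nv (.thr 29 17 (.dbl 63 0 12)) .nd))) .nd)))) .nd)))))) (.rp 0 (.thr 57 9 (.thr 61 1 (.thr 49 53 (.thr 29 17 (.dbl 13 37 45))))) .nd)))))))))) (.rp 6 (.str 54 (.nv (.thr 0 63 (.thr 1 61 (.thr 3 2 (.thr 17 29 (.dbl 33 48 49))))) (.nv (.thr 1 61 (.thr 9 57 (.thr 13 5 (.thr 17 29 (.dbl 49 33 37))))) (.nv (.thr 0 63 (.thr 40 43 (.thr 60 20 (.dbl 57 9 51)))) (.rp 50 (.str 14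 (.nv (.thr 0 63 (.thr 1 61 (.thr 3 2 (.thr 17 29 (.dbl 33 48 49))))) (.nv (.thr 1 61 (.thr 9 57 (.thr 17 29 (.thr 49 33 (.dbl 13 5 37))))) (.nv (.thr 63 0 (.thr 59 8 (.thr 51 55 (.dbl 57 9 60)))) .nd)))) (.rp 14 (.str 50 (.nv (.thr 62 58 (.thr 61 1 (.dbl 63 0 60))) (.nv (.thr 57 9 (.thr 59 8 (.dbl 58 56 62))) (.nv (.thr 2 34 (.thr 0 63 (.dbl 1 3 61))) (.rp 62 (.str 46 (.nv (.thr 2 34 (.thr 0 63 (.dbl 1 3 61))) (.nv (.thr 29 17 (.dbl 63 0 12)) (.rp 63 (.thr 61 1 (.thr 57 9 (.thr 49 53 (.dbl 51 48 60)))) (.rp 2 (.str 10 (.nv (.thr 8 59 (.dbl 9 11 57)) (.nv (.thr 29 17 (.dbl 63 0 12)) .nd))) (.rp 0 (.thr 61 1 (.thr 57 9 (.thr 49 53 (.dbl 51 48 60)))) .nd)))))) (.rp 2 (.str 10 (.nv (.thr 62 58 (.thr 61 1 (.dbl 63 0 60))) (.nv (.thr 9 57 (.dbl 8 11 59)) (.rp 62 (.str 46 (.nv (.thr 8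 59 (.dbl 9 11 57)) (.nv (.thr 29 17 (.dbl 63 0 12)) .nd))) .nd)))) .nd)))))) .nd)))))) (.rp 1 (.thr 57 9 (.thr 40 43 (.thr 0 63 (.thr 17 29 (.thr 51 34 (.dbl 60 20 54)))))) .nd)))))))))) (.rp 18 (.str 30 (.nv (.thr 29 17 (.thr 61 1 (.thr 63 0 (.thr 46 12 (.dbl 62 14 60))))) (.nv (.thr 0 63 (.thr 17 29 (.thr 40 43 (.thr 51 34 (.thr 57 9 (.dbl 60 20 54)))))) (.nv (.thr 0 63 (.thr 1 61 (.thr 3 2 (.thr 8 59 (.thr 12 4 (.dbl 9 6 57)))))) (.nv (.thr 9 57 (.thr 1 61 (.thr 13 5 (.thr 17 29 (.dbl 49 33 37))))) (.rp 54 (.str 6 (.nv (.thr 0 63 (.thr 1 61 (.thr 3 2 (.thr 12 9 (.dbl 8 4 59))))) (.nv (.thr 1 61 (.thr 9 57 (.thr 13 5 (.thr 17 29 (.dbl 49 33 37))))) (.nv (.thr 0 63 (.thr 8 59 (.thr 12 4 (.dbl 9 3 57)))) (.rp 50 (.str 14 (.nv (.thr 2 10 (.thr 1 61 (.dbl 0 3 63))) (.nv (.thr 8 59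 (.thr 9 57 (.dbl 10 2 11))) (.nv (.thr 62 46 (.thr 63 0 (.dbl 61 1 60))) (.rp 62 (.str 58 (.nv (.thr 2 10 (.thr 0 63 (.dbl 1 3 61))) (.nv (.thr 57 9 (.dbl 59 8 56)) (.rp 2 (.str 34 (.nv (.thr 57 9 (.dbl 59 8 56)) (.nv (.thr 17 29 (.dbl 0 51 63)) .nd))) .nd)))) (.rp 2 (.str 34 (.nv (.thr 62 46 (.thr 61 1 (.dbl 63 0 60))) (.nv (.thr 1 61 (.thr 9 57 (.thr 12 3 (.dbl 13 5 15)))) (.nv (.thr 17 29 (.dbl 0 51 63)) (.rp 62 (.str 58 (.nv (.thr 57 9 (.dbl 59 8 56)) (.nv (.thr 17 29 (.dbl 0 51 63)) .nd))) .nd))))) .nd)))))) (.rp 14 (.str 50 (.nv (.thr 0 63 (.thr 1 61 (.thr 17 29 (.thr 49 33 (.dbl 51 34 48))))) (.nv (.thr 1 61 (.thr 9 57 (.thr 13 5 (.thr 17 29 (.dbl 49 33 37))))) (.nv (.thr 0 63 (.thr 8 59 (.thr 12 4 (.dbl 9 3 57)))) (.rp 51 (.thr 1 61 (.thr 0 63 (.thr 3 2 (.dbl 9 12 57))))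 .nd))))) (.rp 9 (.thr 63 0 (.thr 61 1 (.thr 60 62 (.thr 45 15 (.dbl 29 13 17))))) .nd))))))) (.rp 50 (.str 14 (.nv (.thr 29 17 (.thr 46 62 (.dbl 63 0 12))) (.nv (.thr 1 61 (.thr 9 57 (.thr 13 5 (.thr 17 29 (.dbl 49 33 37))))) (.nv (.thr 61 1 (.thr 62 46 (.dbl 63 0 60))) (.rp 54 (.str 6 (.nv (.thr 2 10 (.thr 1 61 (.dbl 0 3 63))) (.nv (.thr 8 59 (.thr 9 57 (.dbl 10 2 11))) (.nv (.thr 62 46 (.thr 63 0 (.dbl 61 1 60))) (.rp 62 (.str 58 (.nv (.thr 2 10 (.thr 0 63 (.dbl 1 3 61))) (.nv (.thr 57 9 (.dbl 59 8 56)) (.rp 2 (.str 34 (.nv (.thr 57 9 (.dbl 59 8 56)) (.nv (.thr 17 29 (.dbl 0 51 63)) .nd))) .nd)))) (.rp 2 (.str 34 (.nv (.thr 62 46 (.thr 61 1 (.dbl 63 0 60))) (.nv (.thr 1 61 (.thr 9 57 (.thr 12 3 (.dbl 13 5 15)))) (.nv (.thr 17 29 (.dbl 0 51 63)) (.rp 62 (.str 58 (.nv (.thr 57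 9 (.dbl 59 8 56)) (.nv (.thr 17 29 (.dbl 0 51 63)) .nd))) .nd))))) .nd)))))) (.rp 34 (.str 2 (.nv (.thr 8 59 (.thr 9 57 (.dbl 10 6 11))) (.nv (.thr 1 61 (.dbl 0 3 63)) (.rp 54 (.thr 6 10 (.thr 1 61 (.dbl 0 3 63))) (.rp 6 (.str 54 (.nv (.thr 29 17 (.thr 46 62 (.dbl 63 0 12))) (.nv (.thr 1 61 (.dbl 0 3 63)) (.rp 63 (.thr 9 57 (.thr 1 61 (.thr 13 5 (.thr 17 29 (.dbl 49 33 37))))) (.rp 0 (.thr 62 46 (.thr 57 9 (.thr 61 1 (.dbl 60 51 63)))) .nd))))) .nd))))) (.rp 6 (.str 54 (.nv (.thr 29 17 (.thr 46 62 (.dbl 63 0 12))) (.nv (.thr 1 61 (.thr 9 57 (.thr 13 5 (.thr 17 29 (.dbl 49 33 37))))) (.nv (.thr 61 1 (.thr 62 46 (.dbl 63 0 60))) (.rp 34 (.str 2 (.nv (.thr 29 17 (.thr 46 62 (.dbl 63 0 12))) (.nv (.thr 1 61 (.dbl 0 3 63)) (.rp 63 (.thr 9 57 (.thr 1 61 (.thr 13 5 (.thr 17 29 (.dbl 49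 33 37))))) (.rp 0 (.thr 62 46 (.thr 57 9 (.thr 61 1 (.dbl 60 51 63)))) .nd))))) (.rp 2 (.str 34 (.nv (.thr 61 1 (.thr 62 46 (.dbl 63 0 60))) (.nv (.thr 17 29 (.dbl 0 51 63)) (.rp 63 (.thr 57 9 (.thr 17 29 (.dbl 51 0 60))) (.rp 0 (.thr 62 46 (.thr 57 9 (.thr 60 51 (.dbl 61 1 63)))) .nd))))) .nd)))))) (.rp 2 (.str 34 (.nv (.thr 61 1 (.thr 62 46 (.dbl 63 0 60))) (.nv (.thr 17 29 (.dbl 0 51 63)) (.rp 63 (.thr 29 17 (.thr 61 1 (.thr 13 45 (.thr 57 9 (.dbl 49 37 53))))) (.rp 54 (.str 6 (.nv (.thr 62 46 (.thr 61 1 (.dbl 63 0 60))) (.nv (.thr 1 61 (.thr 9 57 (.thr 12 3 (.dbl 13 5 15)))) (.nv (.thr 17 29 (.dbl 0 51 63)) (.rp 62 (.str 58 (.nv (.thr 57 9 (.dbl 59 8 56)) (.nv (.thr 17 29 (.dbl 0 51 63)) .nd))) .nd))))) (.rp 6 (.str 54 (.nv (.thr 61 1 (.thr 62 46 (.dbl 63 0 60))) (.nv (.thr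 17 29 (.dbl 0 51 63)) (.rp 63 (.thr 57 9 (.thr 17 29 (.dbl 51 0 60))) (.rp 0 (.thr 62 46 (.thr 57 9 (.thr 60 51 (.dbl 61 1 63)))) .nd))))) (.rp 0 (.thr 29 17 (.thr 46 62 (.thr 12 63 (.thr 13 15 (.dbl 61 1 45))))) .nd))))))) .nd)))))))) (.rp 14 (.str 50 (.nv (.thr 61 1 (.thr 63 0 (.thr 60 62 (.thr 45 15 (.dbl 29 13 17))))) (.nv (.thr 57 9 (.thr 59 8 (.thr 63 0 (.thr 51 55 (.thr 48 49 (.dbl 58 53 56)))))) (.nv (.thr 17 29 (.thr 9 57 (.thr 1 61 (.thr 13 5 (.dbl 49 33 37))))) (.rp 54 (.str 6 (.nv (.thr 0 63 (.thr 1 61 (.thr 17 29 (.thr 49 33 (.dbl 51 34 48))))) (.nv (.thr 1 61 (.thr 9 57 (.thr 13 5 (.thr 17 29 (.dbl 49 33 37))))) (.nv (.thr 0 63 (.thr 8 59 (.thr 12 4 (.dbl 9 3 57)))) (.rp 51 (.thr 1 61 (.thr 0 63 (.thr 3 2 (.dbl 9 12 57)))) .nd))))) (.rp 6 (.str 54 (.nv (.thr 0 63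 (.thr 17 29 (.thr 40 43 (.thr 51 34 (.dbl 60 20 57))))) (.nv (.thr 58 62 (.thr 59 8 (.dbl 57 9 56))) (.rp 57 (.thr 62 58 (.thr 63 0 (.dbl 61 1 60))) (.rp 10 (.str 2 (.nv (.thr 58 62 (.thr 59 8 (.dbl 57 9 56))) (.nv (.thr 1 61 (.dbl 0 3 63)) .nd))) (.rp 2 (.str 10 (.nv (.thr 61 1 (.thr 62 58 (.dbl 63 0 60))) (.nv (.thr 9 57 (.dbl 8 11 59)) .nd))) .nd)))))) .nd)))))) (.rp 6 (.str 54 (.nv (.thr 0 63 (.thr 40 43 (.thr 57 9 (.dbl 60 20 51)))) (.nv (.thr 1 61 (.thr 9 57 (.thr 13 5 (.thr 17 29 (.dbl 49 33 37))))) (.nv (.thr 57 9 (.thr 51 60 (.thr 17 29 (.dbl 0 34 63)))) (.rp 57 (.thr 29 17 (.thr 63 0 (.thr 61 1 (.thr 60 62 (.dbl 45 13 15))))) (.rp 50 (.str 14 (.nv (.thr 29 17 (.thr 46 62 (.dbl 63 0 12))) (.nv (.thr 1 61 (.thr 9 57 (.thr 13 5 (.thr 17 29 (.dbl 49 33 37))))) (.nv (.thr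 61 1 (.thr 62 46 (.dbl 63 0 60))) (.rp 34 (.str 2 (.nv (.thr 29 17 (.thr 46 62 (.dbl 63 0 12))) (.nv (.thr 1 61 (.dbl 0 3 63)) (.rp 63 (.thr 9 57 (.thr 1 61 (.thr 13 5 (.thr 17 29 (.dbl 49 33 37))))) (.rp 0 (.thr 62 46 (.thr 57 9 (.thr 61 1 (.dbl 60 51 63)))) .nd))))) (.rp 2 (.str 34 (.nv (.thr 61 1 (.thr 62 46 (.dbl 63 0 60))) (.nv (.thr 17 29 (.dbl 0 51 63)) (.rp 63 (.thr 57 9 (.thr 17 29 (.dbl 51 0 60))) (.rp 0 (.thr 62 46 (.thr 57 9 (.thr 60 51 (.dbl 61 1 63)))) .nd))))) .nd)))))) (.rp 14 (.str 50 (.nv (.thr 0 63 (.thr 17 29 (.thr 40 43 (.thr 51 34 (.dbl 60 20 57))))) (.nv (.thr 58 62 (.thr 59 8 (.dbl 57 9 56))) (.rp 57 (.thr 62 58 (.thr 63 0 (.dbl 61 1 60))) (.rp 10 (.str 2 (.nv (.thr 58 62 (.thr 59 8 (.dbl 57 9 56))) (.nv (.thr 1 61 (.dbl 0 3 63)) .nd))) (.rp 2 (.str 10 (.nv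 (.thr 61 1 (.thr 62 58 (.dbl 63 0 60))) (.nv (.thr 9 57 (.dbl 8 11 59)) .nd))) .nd)))))) (.rp 9 (.thr 17 29 (.thr 40 43 (.thr 0 63 (.thr 51 34 (.dbl 60 20 57))))) .nd)))))))) .nd))))))))) (.rp 14 (.str 50 (.nv (.thr 0 63 (.thr 17 29 (.thr 51 34 (.thr 49 48 (.thr 33 1 (.dbl 37 13 45)))))) (.nv (.thr 0 63 (.thr 1 61 (.thr 3 2 (.thr 8 59 (.thr 12 4 (.dbl 9 6 57)))))) (.nv (.thr 57 9 (.thr 61 1 (.thr 49 53 (.thr 29 17 (.dbl 13 37 45))))) (.rp 54 (.str 6 (.nv (.thr 0 63 (.thr 1 61 (.thr 2 3 (.thr 17 29 (.dbl 34 18 51))))) (.nv (.thr 1 61 (.thr 17 29 (.thr 49 33 (.thr 13 37 (.dbl 9 5 57))))) (.nv (.thr 43 40 (.thr 63 0 (.thr 3 23 (.dbl 9 12 57)))) (.rp 30 (.str 18 (.nv (.thr 0 63 (.thr 8 59 (.thr 9 57 (.dbl 12 3 4)))) (.nv (.thr 1 61 (.thr 2 34 (.dbl 0 3 63))) (.rp 63 (.thr 9 57 (.thr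 1 61 (.thr 2 34 (.dbl 3 0 12)))) (.rp 62 (.str 46 (.nv (.thr 0 63 (.thr 2 34 (.dbl 1 3 61))) (.nv (.thr 29 17 (.dbl 63 0 12)) (.rp 63 (.thr 2 34 (.thr 9 57 (.thr 3 12 (.dbl 1 0 61)))) (.rp 0 (.thr 9 57 (.thr 29 17 (.dbl 12 3 63))) .nd))))) (.rp 46 (.str 62 (.nv (.thr 0 63 (.thr 34 2 (.dbl 17 29 51))) (.nv (.thr 61 1 (.dbl 63 0 60)) (.rp 63 (.thr 2 34 (.thr 9 57 (.thr 1 61 (.dbl 3 0 12)))) (.rp 0 (.thr 57 9 (.thr 61 1 (.thr 49 53 (.thr 29 17 (.dbl 13 37 45))))) .nd))))) (.rp 3 (.thr 17 29 (.thr 34 2 (.dbl 0 51 63))) (.rp 0 (.thr 9 57 (.thr 17 29 (.thr 1 61 (.thr 49 33 (.dbl 13 5 37))))) .nd)))))))) (.rp 18 (.str 30 (.nv (.thr 0 63 (.thr 1 61 (.thr 17 29 (.thr 49 33 (.dbl 51 34 48))))) (.nv (.thr 1 61 (.thr 9 57 (.thr 13 5 (.thr 17 29 (.dbl 49 33 37))))) (.nv (.thr 0 63 (.thr 8 59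 (.thr 12 4 (.dbl 9 3 57)))) (.rp 51 (.thr 1 61 (.thr 0 63 (.thr 3 2 (.dbl 9 12 57)))) .nd))))) .nd)))))) (.rp 30 (.str 18 (.nv (.thr 0 63 (.thr 17 29 (.thr 16 19 (.thr 48 32 (.dbl 51 34 49))))) (.nv (.thr 1 61 (.thr 2 34 (.dbl 0 3 63))) (.rp 63 (.thr 34 2 (.thr 1 61 (.thr 17 29 (.thr 49 33 (.dbl 51 0 48))))) (.rp 62 (.str 46 (.nv (.thr 0 63 (.thr 2 34 (.dbl 1 3 61))) (.nv (.thr 29 17 (.dbl 63 0 12)) (.rp 63 (.thr 17 29 (.thr 34 2 (.thr 51 0 (.thr 49 48 (.dbl 1 33 61))))) (.rp 54 (.str 6 (.nv (.thr 0 63 (.thr 2 34 (.dbl 1 3 61))) (.nv (.thr 29 17 (.dbl 63 0 12)) (.rp 63 (.thr 2 34 (.thr 9 57 (.thr 3 12 (.dbl 1 0 61)))) (.rp 0 (.thr 9 57 (.thr 29 17 (.dbl 12 3 63))) .nd))))) (.rp 6 (.str 54 (.nv (.thr 2 34 (.thr 0 63 (.dbl 1 3 61))) (.nv (.thr 29 17 (.dbl 63 0 12)) (.rp 63 (.thr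 61 1 (.thr 57 9 (.thr 49 53 (.dbl 51 48 60)))) (.rp 2 (.str 10 (.nv (.thr 8 59 (.dbl 9 11 57)) (.nv (.thr 29 17 (.dbl 63 0 12)) .nd))) (.rp 0 (.thr 61 1 (.thr 57 9 (.thr 49 53 (.dbl 51 48 60)))) .nd)))))) (.rp 0 (.thr 17 29 (.thr 1 61 (.thr 49 33 (.thr 9 57 (.dbl 13 5 37))))) .nd))))))) (.rp 54 (.str 6 (.nv (.thr 0 63 (.thr 8 59 (.thr 9 57 (.dbl 12 3 4)))) (.nv (.thr 1 61 (.thr 2 34 (.dbl 0 3 63))) (.rp 63 (.thr 9 57 (.thr 1 61 (.thr 2 34 (.dbl 3 0 12)))) (.rp 62 (.str 46 (.nv (.thr 0 63 (.thr 2 34 (.dbl 1 3 61))) (.nv (.thr 29 17 (.dbl 63 0 12)) (.rp 63 (.thr 2 34 (.thr 9 57 (.thr 3 12 (.dbl 1 0 61)))) (.rp 0 (.thr 9 57 (.thr 29 17 (.dbl 12 3 63))) .nd))))) (.rp 46 (.str 62 (.nv (.thr 0 63 (.thr 34 2 (.dbl 17 29 51))) (.nv (.thr 61 1 (.dbl 63 0 60)) (.rp 63 (.thr 2 34 (.thr 9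 57 (.thr 1 61 (.dbl 3 0 12)))) (.rp 0 (.thr 57 9 (.thr 61 1 (.thr 49 53 (.thr 29 17 (.dbl 13 37 45))))) .nd))))) (.rp 3 (.thr 17 29 (.thr 34 2 (.dbl 0 51 63))) (.rp 0 (.thr 9 57 (.thr 17 29 (.thr 1 61 (.thr 49 33 (.dbl 13 5 37))))) .nd)))))))) (.rp 46 (.str 62 (.nv (.thr 57 9 (.thr 59 8 (.dbl 58 54 56))) (.nv (.thr 61 1 (.dbl 63 0 60)) (.rp 54 (.str 6 (.nv (.thr 0 63 (.thr 34 2 (.dbl 17 29 51))) (.nv (.thr 61 1 (.dbl 63 0 60)) (.rp 63 (.thr 2 34 (.thr 9 57 (.thr 1 61 (.dbl 3 0 12)))) (.rp 0 (.thr 57 9 (.thr 61 1 (.thr 49 53 (.thr 29 17 (.dbl 13 37 45))))) .nd))))) (.rp 6 (.thr 54 58 (.thr 61 1 (.dbl 63 0 60))) .nd))))) (.rp 34 (.thr 57 9 (.thr 61 1 (.thr 49 53 (.thr 29 17 (.dbl 13 37 45))))) (.rp 6 (.str 54 (.nv (.thr 62 58 (.thr 61 1 (.dbl 63 0 60))) (.nv (.thr 57 9 (.thr 59 8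 (.dbl 58 56 62))) (.nv (.thr 2 34 (.thr 0 63 (.dbl 1 3 61))) (.rp 62 (.str 46 (.nv (.thr 2 34 (.thr 0 63 (.dbl 1 3 61))) (.nv (.thr 29 17 (.dbl 63 0 12)) (.rp 63 (.thr 61 1 (.thr 57 9 (.thr 49 53 (.dbl 51 48 60)))) (.rp 2 (.str 10 (.nv (.thr 8 59 (.dbl 9 11 57)) (.nv (.thr 29 17 (.dbl 63 0 12)) .nd))) (.rp 0 (.thr 61 1 (.thr 57 9 (.thr 49 53 (.dbl 51 48 60)))) .nd)))))) (.rp 2 (.str 10 (.nv (.thr 62 58 (.thr 61 1 (.dbl 63 0 60))) (.nv (.thr 9 57 (.dbl 8 11 59)) (.rp 62 (.str 46 (.nv (.thr 8 59 (.dbl 9 11 57)) (.nv (.thr 29 17 (.dbl 63 0 12)) .nd))) .nd)))) .nd)))))) (.rp 0 (.thr 57 9 (.thr 61 1 (.thr 49 53 (.thr 29 17 (.dbl 13 37 45))))) .nd)))))))))) (.rp 18 (.str 30 (.nv (.thr 61 1 (.thr 63 0 (.thr 60 62 (.thr 45 15 (.dbl 29 13 17))))) (.nv (.thr 57 9 (.thr 59 8 (.thr 63 0 (.thr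 51 55 (.thr 48 49 (.dbl 58 53 56)))))) (.nv (.thr 17 29 (.thr 9 57 (.thr 1 61 (.thr 13 5 (.dbl 49 33 37))))) (.rp 54 (.str 6 (.nv (.thr 0 63 (.thr 1 61 (.thr 17 29 (.thr 49 33 (.dbl 51 34 48))))) (.nv (.thr 1 61 (.thr 9 57 (.thr 13 5 (.thr 17 29 (.dbl 49 33 37))))) (.nv (.thr 0 63 (.thr 8 59 (.thr 12 4 (.dbl 9 3 57)))) (.rp 51 (.thr 1 61 (.thr 0 63 (.thr 3 2 (.dbl 9 12 57)))) .nd))))) (.rp 6 (.str 54 (.nv (.thr 0 63 (.thr 17 29 (.thr 40 43 (.thr 51 34 (.dbl 60 20 57))))) (.nv (.thr 58 62 (.thr 59 8 (.dbl 57 9 56))) (.rp 57 (.thr 62 58 (.thr 63 0 (.dbl 61 1 60))) (.rp 10 (.str 2 (.nv (.thr 58 62 (.thr 59 8 (.dbl 57 9 56))) (.nv (.thr 1 61 (.dbl 0 3 63)) .nd))) (.rp 2 (.str 10 (.nv (.thr 61 1 (.thr 62 58 (.dbl 63 0 60))) (.nv (.thr 9 57 (.dbl 8 11 59)) .nd))) .nd)))))) .nd))))))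 (.rp 6 (.str 54 (.nv (.thr 0 63 (.thr 17 29 (.thr 51 34 (.dbl 57 9 60)))) (.nv (.thr 59 8 (.thr 58 62 (.dbl 57 9 56))) (.nv (.thr 61 1 (.thr 62 58 (.dbl 63 0 60))) (.rp 30 (.str 18 (.nv (.thr 62 58 (.thr 61 1 (.dbl 63 0 60))) (.nv (.thr 57 9 (.thr 59 8 (.dbl 58 56 62))) (.nv (.thr 2 34 (.thr 0 63 (.dbl 1 3 61))) (.rp 62 (.str 46 (.nv (.thr 2 34 (.thr 0 63 (.dbl 1 3 61))) (.nv (.thr 29 17 (.dbl 63 0 12)) (.rp 63 (.thr 61 1 (.thr 57 9 (.thr 49 53 (.dbl 51 48 60)))) (.rp 2 (.str 10 (.nv (.thr 8 59 (.dbl 9 11 57)) (.nv (.thr 29 17 (.dbl 63 0 12)) .nd))) (.rp 0 (.thr 61 1 (.thr 57 9 (.thr 49 53 (.dbl 51 48 60)))) .nd)))))) (.rp 2 (.str 10 (.nv (.thr 62 58 (.thr 61 1 (.dbl 63 0 60))) (.nv (.thr 9 57 (.dbl 8 11 59)) (.rp 62 (.str 46 (.nv (.thr 8 59 (.dbl 9 11 57)) (.nv (.thr 29 17 (.dbl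 63 0 12)) .nd))) .nd)))) .nd)))))) (.rp 18 (.str 30 (.nv (.thr 0 63 (.thr 17 29 (.thr 40 43 (.thr 51 34 (.dbl 60 20 57))))) (.nv (.thr 58 62 (.thr 59 8 (.dbl 57 9 56))) (.rp 57 (.thr 62 58 (.thr 63 0 (.dbl 61 1 60))) (.rp 10 (.str 2 (.nv (.thr 58 62 (.thr 59 8 (.dbl 57 9 56))) (.nv (.thr 1 61 (.dbl 0 3 63)) .nd))) (.rp 2 (.str 10 (.nv (.thr 61 1 (.thr 62 58 (.dbl 63 0 60))) (.nv (.thr 9 57 (.dbl 8 11 59)) .nd))) .nd)))))) (.rp 10 (.str 2 (.nv (.thr 58 62 (.thr 59 8 (.dbl 57 9 56))) (.nv (.thr 0 63 (.dbl 1 3 61)) (.rp 30 (.thr 18 34 (.thr 0 63 (.dbl 1 3 61))) (.rp 18 (.str 30 (.nv (.thr 58 62 (.thr 59 8 (.dbl 57 9 56))) (.nv (.thr 1 61 (.dbl 0 3 63)) .nd))) .nd))))) (.rp 2 (.str 10 (.nv (.thr 61 1 (.thr 62 58 (.dbl 63 0 60))) (.nv (.thr 9 57 (.dbl 8 11 59)) (.rp 30 (.str 18 (.nv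 (.thr 62 58 (.thr 61 1 (.dbl 63 0 60))) (.nv (.thr 9 57 (.dbl 8 11 59)) (.rp 62 (.str 46 (.nv (.thr 8 59 (.dbl 9 11 57)) (.nv (.thr 29 17 (.dbl 63 0 12)) .nd))) .nd)))) (.rp 18 (.str 30 (.nv (.thr 61 1 (.thr 62 58 (.dbl 63 0 60))) (.nv (.thr 9 57 (.dbl 8 11 59)) .nd))) .nd))))) .nd)))))))) (.rp 1 (.thr 57 9 (.thr 40 43 (.thr 0 63 (.thr 17 29 (.thr 51 34 (.dbl 60 20 54)))))) .nd))))))))) (.rp 9 (.thr 0 63 (.thr 1 61 (.thr 17 29 (.thr 33 49 (.thr 34 51 (.thr 32 35 (.dbl 37 45 47))))))) (.rp 6 (.str 54 (.nv (.thr 0 63 (.thr 40 43 (.thr 57 9 (.dbl 60 20 51)))) (.nv (.thr 1 61 (.thr 9 57 (.thr 13 5 (.thr 17 29 (.dbl 49 33 37))))) (.nv (.thr 17 29 (.thr 0 63 (.thr 51 34 (.dbl 57 9 60)))) (.rp 57 (.thr 59 8 (.thr 63 0 (.thr 55 51 (.thr 53 52 (.thr 58 48 (.thr 61 1 (.dbl 62 50 60)))))))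 (.rp 50 (.str 14 (.nv (.thr 0 63 (.thr 8 59 (.thr 12 4 (.thr 13 15 (.thr 29 17 (.dbl 61 1 45)))))) (.nv (.thr 1 61 (.thr 9 57 (.thr 13 5 (.thr 17 29 (.dbl 49 33 37))))) (.nv (.thr 40 43 (.thr 0 63 (.thr 60 20 (.dbl 57 9 51)))) (.rp 30 (.str 18 (.nv (.thr 0 63 (.thr 1 61 (.thr 3 2 (.thr 17 29 (.dbl 33 48 49))))) (.nv (.thr 1 61 (.thr 9 57 (.thr 17 29 (.thr 49 33 (.dbl 13 5 37))))) (.nv (.thr 63 0 (.thr 59 8 (.thr 51 55 (.dbl 57 9 60)))) .nd)))) (.rp 18 (.str 30 (.nv (.thr 29 17 (.thr 46 62 (.dbl 63 0 12))) (.nv (.thr 1 61 (.thr 9 57 (.thr 13 5 (.thr 17 29 (.dbl 49 33 37))))) (.nv (.thr 61 1 (.thr 62 46 (.dbl 63 0 60))) (.rp 34 (.str 2 (.nv (.thr 29 17 (.thr 46 62 (.dbl 63 0 12))) (.nv (.thr 1 61 (.dbl 0 3 63)) (.rp 63 (.thr 9 57 (.thr 1 61 (.thr 13 5 (.thr 17 29 (.dbl 49 33 37)))))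 (.rp 0 (.thr 62 46 (.thr 57 9 (.thr 61 1 (.dbl 60 51 63)))) .nd))))) (.rp 2 (.str 34 (.nv (.thr 61 1 (.thr 62 46 (.dbl 63 0 60))) (.nv (.thr 17 29 (.dbl 0 51 63)) (.rp 63 (.thr 57 9 (.thr 17 29 (.dbl 51 0 60))) (.rp 0 (.thr 62 46 (.thr 57 9 (.thr 60 51 (.dbl 61 1 63)))) .nd))))) .nd)))))) .nd)))))) (.rp 30 (.str 18 (.nv (.thr 0 63 (.thr 1 61 (.thr 3 2 (.thr 17 29 (.dbl 33 48 49))))) (.nv (.thr 1 61 (.thr 9 57 (.thr 13 5 (.thr 17 29 (.dbl 49 33 37))))) (.nv (.thr 0 63 (.thr 40 43 (.thr 60 20 (.dbl 57 9 51)))) (.rp 50 (.str 14 (.nv (.thr 0 63 (.thr 1 61 (.thr 3 2 (.thr 17 29 (.dbl 33 48 49))))) (.nv (.thr 1 61 (.thr 9 57 (.thr 17 29 (.thr 49 33 (.dbl 13 5 37))))) (.nv (.thr 63 0 (.thr 59 8 (.thr 51 55 (.dbl 57 9 60)))) .nd)))) (.rp 14 (.str 50 (.nv (.thr 62 58 (.thr 61 1 (.dbl 63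 0 60))) (.nv (.thr 57 9 (.thr 59 8 (.dbl 58 56 62))) (.nv (.thr 2 34 (.thr 0 63 (.dbl 1 3 61))) (.rp 62 (.str 46 (.nv (.thr 2 34 (.thr 0 63 (.dbl 1 3 61))) (.nv (.thr 29 17 (.dbl 63 0 12)) (.rp 63 (.thr 61 1 (.thr 57 9 (.thr 49 53 (.dbl 51 48 60)))) (.rp 2 (.str 10 (.nv (.thr 8 59 (.dbl 9 11 57)) (.nv (.thr 29 17 (.dbl 63 0 12)) .nd))) (.rp 0 (.thr 61 1 (.thr 57 9 (.thr 49 53 (.dbl 51 48 60)))) .nd)))))) (.rp 2 (.str 10 (.nv (.thr 62 58 (.thr 61 1 (.dbl 63 0 60))) (.nv (.thr 9 57 (.dbl 8 11 59)) (.rp 62 (.str 46 (.nv (.thr 8 59 (.dbl 9 11 57)) (.nv (.thr 29 17 (.dbl 63 0 12)) .nd))) .nd)))) .nd)))))) .nd)))))) (.rp 18 (.str 30 (.nv (.thr 0 63 (.thr 40 43 (.thr 57 9 (.dbl 60 20 51)))) (.nv (.thr 1 61 (.thr 9 57 (.thr 13 5 (.thr 17 29 (.dbl 49 33 37))))) (.nv (.thr 57 9 (.thr 51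 60 (.thr 17 29 (.dbl 0 34 63)))) (.rp 57 (.thr 29 17 (.thr 63 0 (.thr 61 1 (.thr 60 62 (.dbl 45 13 15))))) (.rp 50 (.str 14 (.nv (.thr 29 17 (.thr 46 62 (.dbl 63 0 12))) (.nv (.thr 1 61 (.thr 9 57 (.thr 13 5 (.thr 17 29 (.dbl 49 33 37))))) (.nv (.thr 61 1 (.thr 62 46 (.dbl 63 0 60))) (.rp 34 (.str 2 (.nv (.thr 29 17 (.thr 46 62 (.dbl 63 0 12))) (.nv (.thr 1 61 (.dbl 0 3 63)) (.rp 63 (.thr 9 57 (.thr 1 61 (.thr 13 5 (.thr 17 29 (.dbl 49 33 37))))) (.rp 0 (.thr 62 46 (.thr 57 9 (.thr 61 1 (.dbl 60 51 63)))) .nd))))) (.rp 2 (.str 34 (.nv (.thr 61 1 (.thr 62 46 (.dbl 63 0 60))) (.nv (.thr 17 29 (.dbl 0 51 63)) (.rp 63 (.thr 57 9 (.thr 17 29 (.dbl 51 0 60))) (.rp 0 (.thr 62 46 (.thr 57 9 (.thr 60 51 (.dbl 61 1 63)))) .nd))))) .nd)))))) (.rp 14 (.str 50 (.nv (.thr 0 63 (.thr 17 29 (.thr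 40 43 (.thr 51 34 (.dbl 60 20 57))))) (.nv (.thr 58 62 (.thr 59 8 (.dbl 57 9 56))) (.rp 57 (.thr 62 58 (.thr 63 0 (.dbl 61 1 60))) (.rp 10 (.str 2 (.nv (.thr 58 62 (.thr 59 8 (.dbl 57 9 56))) (.nv (.thr 1 61 (.dbl 0 3 63)) .nd))) (.rp 2 (.str 10 (.nv (.thr 61 1 (.thr 62 58 (.dbl 63 0 60))) (.nv (.thr 9 57 (.dbl 8 11 59)) .nd))) .nd)))))) (.rp 9 (.thr 17 29 (.thr 40 43 (.thr 0 63 (.thr 51 34 (.dbl 60 20 57))))) .nd)))))))) (.rp 14 (.str 50 (.nv (.thr 0 63 (.thr 17 29 (.thr 51 34 (.dbl 57 9 60)))) (.nv (.thr 59 8 (.thr 58 62 (.dbl 57 9 56))) (.nv (.thr 61 1 (.thr 62 58 (.dbl 63 0 60))) (.rp 30 (.str 18 (.nv (.thr 62 58 (.thr 61 1 (.dbl 63 0 60))) (.nv (.thr 57 9 (.thr 59 8 (.dbl 58 56 62))) (.nv (.thr 2 34 (.thr 0 63 (.dbl 1 3 61))) (.rp 62 (.str 46 (.nv (.thr 2 34 (.thr 0 63 (.dbl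 1 3 61))) (.nv (.thr 29 17 (.dbl 63 0 12)) (.rp 63 (.thr 61 1 (.thr 57 9 (.thr 49 53 (.dbl 51 48 60)))) (.rp 2 (.str 10 (.nv (.thr 8 59 (.dbl 9 11 57)) (.nv (.thr 29 17 (.dbl 63 0 12)) .nd))) (.rp 0 (.thr 61 1 (.thr 57 9 (.thr 49 53 (.dbl 51 48 60)))) .nd)))))) (.rp 2 (.str 10 (.nv (.thr 62 58 (.thr 61 1 (.dbl 63 0 60))) (.nv (.thr 9 57 (.dbl 8 11 59)) (.rp 62 (.str 46 (.nv (.thr 8 59 (.dbl 9 11 57)) (.nv (.thr 29 17 (.dbl 63 0 12)) .nd))) .nd)))) .nd)))))) (.rp 18 (.str 30 (.nv (.thr 0 63 (.thr 17 29 (.thr 40 43 (.thr 51 34 (.dbl 60 20 57))))) (.nv (.thr 58 62 (.thr 59 8 (.dbl 57 9 56))) (.rp 57 (.thr 62 58 (.thr 63 0 (.dbl 61 1 60))) (.rp 10 (.str 2 (.nv (.thr 58 62 (.thr 59 8 (.dbl 57 9 56))) (.nv (.thr 1 61 (.dbl 0 3 63)) .nd))) (.rp 2 (.str 10 (.nv (.thr 61 1 (.thr 62 58 (.dbl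 63 0 60))) (.nv (.thr 9 57 (.dbl 8 11 59)) .nd))) .nd)))))) (.rp 10 (.str 2 (.nv (.thr 58 62 (.thr 59 8 (.dbl 57 9 56))) (.nv (.thr 0 63 (.dbl 1 3 61)) (.rp 30 (.thr 18 34 (.thr 0 63 (.dbl 1 3 61))) (.rp 18 (.str 30 (.nv (.thr 58 62 (.thr 59 8 (.dbl 57 9 56))) (.nv (.thr 1 61 (.dbl 0 3 63)) .nd))) .nd))))) (.rp 2 (.str 10 (.nv (.thr 61 1 (.thr 62 58 (.dbl 63 0 60))) (.nv (.thr 9 57 (.dbl 8 11 59)) (.rp 30 (.str 18 (.nv (.thr 62 58 (.thr 61 1 (.dbl 63 0 60))) (.nv (.thr 9 57 (.dbl 8 11 59)) (.rp 62 (.str 46 (.nv (.thr 8 59 (.dbl 9 11 57)) (.nv (.thr 29 17 (.dbl 63 0 12)) .nd))) .nd)))) (.rp 18 (.str 30 (.nv (.thr 61 1 (.thr 62 58 (.dbl 63 0 60))) (.nv (.thr 9 57 (.dbl 8 11 59)) .nd))) .nd))))) .nd)))))))) (.rp 9 (.thr 40 43 (.thr 0 63 (.thr 60 20 (.thr 51 57 (.dbl 17 29 34)))))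 .nd)))))))))) .nd))))))))))))

theorem w435 : WinAt (4398082162688, 274949210112) :=
  chF (K := []) kn c435 4398082162688 274949210112 38
    [1145307136, 1126174851874816, 18014673391583296] (by decide +kernel) (by decide +kernel)

/-- A certificate. -/
noncomputable def c436 : Ct := (.str 37 (.nv (.thr 17 29 (.thr 49 13 (.thr 1 33 (.thr 53 5 (.dbl 61 41 57))))) (.nv (.thr 5 53 (.thr 13 49 (.thr 1 9 (.thr 29 17 (.dbl 61 41 45))))) (.rp 61 (.thr 47 32 (.str 41 (.nv (.thr 43 40 (.thr 35 39 (.thr 45 33 (.dbl 44 38 46)))) (.rp 62 (.str 60 (.nv (.thr 45 33 (.thr 44 46 (.thr 12 28 (.dbl 38 35 51)))) (.nv (.thr 5 53 (.thr 8 59 (.thr 40 43 (.thr 0 20 (.thr 10 15 (.dbl 9 11 57)))))) (.nv (.thr 43 40 (.thr 45 33 (.thr 35 39 (.dbl 44 38 46)))) (.rp 30 (.str 18 (.nv (.thr 5 53 (.thr 8 59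 (.thr 40 43 (.thr 0 20 (.thr 10 15 (.dbl 9 11 57)))))) (.nv (.thr 17 29 (.thr 57 9 (.thr 51 54 (.thr 34 0 (.dbl 38 12 46))))) (.nv (.thr 43 40 (.thr 45 33 (.thr 35 39 (.dbl 44 38 46)))) (.rp 46 (.str 14 (.nv (.thr 8 59 (.thr 40 43 (.thr 56 24 (.thr 48 52 (.dbl 33 3 45))))) (.nv (.thr 57 9 (.thr 13 49 (.thr 12 15 (.dbl 51 38 54)))) (.rp 51 (.thr 40 43 (.thr 0 20 (.thr 5 53 (.thr 15 10 (.dbl 13 12 49))))) (.rp 29 (.str 12 (.nv (.thr 45 33 (.thr 38 51 (.dbl 44 28 35))) (.nv (.dbl 13 15 49) (.rp 31 (.thr 28 44 (.dbl 13 15 49)) (.rp 28 (.str 31 (.nv (.thr 45 33 (.thr 51 38 (.dbl 57 9 54))) (.nv (.dbl 13 15 49) .nd))) .nd))))) (.rp 12 (.thr 29 17 (.thr 40 43 (.thr 33 45 (.thr 8 59 (.thr 56 24 (.dbl 48 3 52)))))) .nd)))))) (.rp 14 (.str 46 (.nv (.thr 38 34 (.thr 51 12 (.dbl 57 9 54)))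 (.nv (.dbl 45 33 44) (.rp 38 (.str 50 (.nv (.thr 49 13 (.thr 51 48 (.dbl 57 9 54))) (.nv (.dbl 45 33 44) (.rp 54 (.str 6 (.nv (.dbl 45 33 44) (.rp 45 (.thr 34 2 (.thr 40 43 (.thr 0 20 (.dbl 17 29 51)))) (.rp 44 (.thr 33 45 (.thr 9 57 (.dbl 3 12 48))) (.rp 33 (.thr 9 57 (.thr 44 45 (.dbl 12 3 28))) .nd))))) (.rp 45 (.thr 40 43 (.thr 0 20 (.thr 34 2 (.dbl 17 29 51)))) (.rp 6 (.str 54 (.nv (.thr 2 34 (.dbl 45 33 44)) (.nv (.dbl 57 9 51) (.rp 2 (.str 10 (.nv (.dbl 57 9 51) (.nv (.dbl 45 33 44) .nd))) .nd)))) .nd)))))) (.rp 33 (.thr 44 45 (.dbl 38 34 35)) .nd))))) .nd)))))) (.rp 18 (.str 30 (.nv (.dbl 45 15 33) (.rp 45 (.thr 57 9 (.thr 40 43 (.thr 0 20 (.thr 51 54 (.dbl 17 29 34))))) (.rp 33 (.thr 45 15 (.thr 44 46 (.thr 28 12 (.dbl 29 17 31)))) (.rp 15 (.thr 43 40 (.thr 45 33 (.thr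 44 46 (.dbl 35 38 39)))) .nd))))) .nd)))))) (.rp 60 (.str 62 (.nv (.thr 45 33 (.thr 44 46 (.thr 35 38 (.dbl 43 39 40)))) (.nv (.thr 43 40 (.thr 45 33 (.thr 35 39 (.dbl 44 38 46)))) (.rp 46 (.thr 45 33 (.thr 9 57 (.thr 8 59 (.thr 10 11 (.thr 5 53 (.thr 49 13 (.thr 0 15 (.thr 12 4 (.thr 17 29 (.dbl 51 34 38)))))))))) (.rp 45 (.thr 29 17 (.str 30 (.nv (.thr 5 53 (.thr 46 14 (.thr 38 34 (.thr 51 12 (.thr 39 36 (.dbl 35 43 44)))))) (.nv (.thr 43 40 (.thr 35 39 (.thr 46 14 (.dbl 38 34 44)))) (.rp 46 (.thr 59 8 (.thr 43 40 (.thr 27 11 (.thr 39 35 (.thr 51 15 (.dbl 38 12 36)))))) (.rp 44 (.thr 14 46 (.thr 8 59 (.thr 13 49 (.thr 12 15 (.thr 4 0 (.dbl 38 51 55)))))) (.rp 43 (.thr 14 46 (.thr 8 59 (.thr 13 49 (.thr 12 15 (.thr 4 0 (.dbl 38 51 55)))))) (.rp 40 (.thr 14 46 (.thr 9 57 (.thr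 8 59 (.thr 10 11 (.thr 6 2 (.thr 12 3 (.dbl 13 15 49))))))) (.rp 39 (.thr 14 46 (.thr 8 59 (.thr 13 49 (.thr 12 15 (.thr 4 0 (.dbl 38 51 55)))))) (.rp 38 (.thr 14 46 (.thr 9 57 (.thr 8 59 (.thr 10 11 (.thr 6 2 (.thr 12 3 (.dbl 13 15 49))))))) (.rp 36 (.str 44 (.nv (.thr 43 40 (.dbl 35 38 39)) (.nv (.thr 46 14 (.dbl 38 34 35)) (.rp 38 (.thr 14 46 (.thr 9 57 (.thr 8 59 (.thr 10 11 (.thr 6 2 (.thr 12 3 (.dbl 13 15 49))))))) (.rp 35 (.thr 14 46 (.thr 8 59 (.thr 13 49 (.thr 12 15 (.thr 4 0 (.dbl 38 51 55)))))) .nd))))) (.rp 35 (.thr 14 46 (.thr 8 59 (.thr 13 49 (.thr 12 15 (.thr 4 0 (.dbl 38 51 55)))))) (.rp 34 (.thr 14 46 (.thr 43 40 (.thr 13 49 (.thr 12 15 (.thr 35 39 (.dbl 38 44 51)))))) (.rp 14 (.thr 59 8 (.thr 43 40 (.thr 27 11 (.thr 39 35 (.thr 51 15 (.dbl 38 12 36)))))) .nd))))))))))))))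 (.rp 44 (.thr 45 33 (.thr 9 57 (.thr 8 59 (.thr 10 11 (.thr 5 53 (.thr 49 13 (.thr 0 15 (.thr 12 4 (.thr 17 29 (.dbl 51 34 38)))))))))) (.rp 43 (.thr 57 9 (.thr 59 8 (.thr 58 56 (.thr 5 53 (.thr 49 13 (.thr 45 33 (.thr 46 44 (.thr 17 29 (.thr 34 38 (.thr 51 0 (.dbl 50 48 54))))))))))) (.rp 40 (.thr 9 57 (.thr 8 59 (.thr 10 11 (.thr 5 53 (.thr 49 13 (.thr 0 15 (.thr 12 4 (.thr 51 38 (.dbl 17 29 34))))))))) (.rp 39 (.thr 43 40 (.thr 9 57 (.thr 8 59 (.thr 10 11 (.thr 5 53 (.thr 49 13 (.thr 0 15 (.thr 12 4 (.thr 45 33 (.thr 44 46 (.dbl 38 35 51))))))))))) (.rp 38 (.thr 45 33 (.thr 44 46 (.thr 9 57 (.thr 8 59 (.thr 43 40 (.thr 10 11 (.thr 5 53 (.thr 49 13 (.thr 0 15 (.thr 12 4 (.thr 17 29 (.thr 51 34 (.thr 35 39 (.dbl 3 6 19)))))))))))))) (.rp 35 (.thr 8 59 (.thr 9 57 (.thr 10 11 (.thr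 5 53 (.thr 49 13 (.thr 0 15 (.thr 12 4 (.thr 51 38 (.dbl 17 29 34))))))))) (.rp 33 (.thr 29 17 (.thr 9 57 (.thr 8 59 (.thr 43 40 (.thr 10 11 (.thr 5 53 (.thr 49 13 (.thr 0 15 (.thr 12 4 (.thr 35 39 (.dbl 38 44 51))))))))))) (.rp 30 (.str 18 (.nv (.thr 45 33 (.thr 44 46 (.thr 35 38 (.dbl 43 39 40)))) (.nv (.thr 43 40 (.thr 45 33 (.thr 35 39 (.dbl 44 38 46)))) (.rp 46 (.thr 59 8 (.thr 57 9 (.thr 58 56 (.thr 50 54 (.thr 49 13 (.thr 48 51 (.dbl 33 3 45))))))) (.rp 45 (.str 15 (.nv (.thr 13 49 (.thr 12 14 (.thr 38 51 (.thr 35 44 (.dbl 39 36 43))))) (.nv (.thr 5 53 (.thr 8 59 (.thr 9 57 (.thr 49 13 (.thr 29 17 (.dbl 10 0 11)))))) (.nv (.thr 43 40 (.thr 39 35 (.thr 51 27 (.dbl 38 12 36)))) (.rp 51 (.thr 57 9 (.thr 5 53 (.thr 13 49 (.thr 0 10 (.thr 12 14 (.dbl 8 4 59)))))) (.rp 13 (.thr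 29 17 (.thr 9 57 (.thr 8 59 (.thr 10 11 (.dbl 5 0 53))))) .nd)))))) (.rp 44 (.thr 59 8 (.thr 57 9 (.thr 58 56 (.thr 50 54 (.thr 49 13 (.thr 48 51 (.dbl 33 3 45))))))) (.rp 43 (.thr 45 33 (.thr 46 44 (.thr 34 38 (.thr 17 29 (.thr 51 0 (.thr 49 13 (.dbl 50 2 48))))))) (.rp 40 (.thr 45 33 (.thr 44 46 (.thr 35 38 (.thr 43 39 (.thr 8 59 (.thr 5 53 (.thr 9 57 (.thr 49 13 (.thr 10 11 (.thr 0 15 (.thr 17 29 (.thr 12 4 (.thr 19 16 (.dbl 51 3 34)))))))))))))) (.rp 39 (.thr 45 33 (.thr 46 44 (.thr 34 38 (.thr 17 29 (.thr 51 0 (.thr 49 13 (.dbl 50 2 48))))))) (.rp 38 (.thr 49 13 (.thr 45 33 (.thr 43 40 (.thr 44 46 (.thr 35 39 (.thr 8 59 (.thr 5 53 (.thr 9 57 (.thr 10 11 (.thr 0 15 (.thr 17 29 (.thr 12 4 (.thr 19 16 (.dbl 51 3 34)))))))))))))) (.rp 35 (.thr 59 8 (.thr 57 9 (.thr 58 56 (.thr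 50 54 (.thr 45 33 (.thr 34 2 (.dbl 46 38 44))))))) (.rp 33 (.thr 43 40 (.thr 35 39 (.thr 17 29 (.thr 19 16 (.thr 51 3 (.dbl 38 12 44)))))) .nd)))))))))))) (.rp 18 (.str 30 (.nv (.thr 43 40 (.thr 35 39 (.thr 46 14 (.dbl 38 34 44)))) (.nv (.thr 46 14 (.dbl 45 33 44)) (.rp 46 (.thr 9 57 (.thr 59 8 (.thr 43 40 (.thr 27 11 (.thr 39 35 (.thr 51 15 (.dbl 38 12 36))))))) (.rp 44 (.thr 14 46 (.thr 8 59 (.thr 13 49 (.thr 12 15 (.thr 4 0 (.dbl 38 51 55)))))) (.rp 38 (.thr 45 33 (.dbl 46 14 44)) (.rp 14 (.thr 43 40 (.thr 45 33 (.thr 44 46 (.dbl 35 38 39)))) .nd))))))) .nd)))))))))))))) (.rp 46 (.thr 59 8 (.thr 43 40 (.thr 39 35 (.thr 27 11 (.thr 51 15 (.dbl 38 12 36)))))) (.rp 45 (.thr 59 8 (.thr 43 40 (.thr 39 35 (.thr 27 11 (.thr 51 15 (.dbl 38 12 36)))))) (.rp 44 (.thr 45 33 (.thr 17 29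 (.thr 49 13 (.thr 9 57 (.thr 5 53 (.thr 8 59 (.thr 10 11 (.thr 0 15 (.thr 12 4 (.dbl 51 34 38)))))))))) (.rp 43 (.thr 45 33 (.thr 17 29 (.thr 13 49 (.thr 57 9 (.thr 5 53 (.thr 46 44 (.thr 34 38 (.thr 0 51 (.thr 15 10 (.thr 14 12 (.dbl 30 60 62))))))))))) (.rp 40 (.thr 45 33 (.thr 17 29 (.thr 49 13 (.thr 9 57 (.thr 5 53 (.thr 8 59 (.thr 10 11 (.thr 0 15 (.thr 12 4 (.dbl 51 34 38)))))))))) (.rp 39 (.thr 43 40 (.thr 45 33 (.thr 17 29 (.thr 49 13 (.thr 9 57 (.thr 5 53 (.thr 8 59 (.thr 10 11 (.thr 0 15 (.thr 12 4 (.dbl 51 34 38))))))))))) (.rp 38 (.thr 43 40 (.thr 35 39 (.thr 45 33 (.thr 17 29 (.thr 49 13 (.thr 9 57 (.thr 5 53 (.thr 8 59 (.thr 10 11 (.thr 0 15 (.thr 51 34 (.thr 3 19 (.dbl 12 4 6))))))))))))) (.rp 36 (.thr 45 33 (.thr 43 40 (.thr 44 46 (.dbl 35 38 39)))) (.rp 35 (.thr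 43 40 (.thr 49 13 (.thr 9 57 (.thr 5 53 (.thr 8 59 (.thr 10 11 (.thr 0 15 (.thr 12 4 (.thr 51 38 (.dbl 17 29 34)))))))))) (.rp 33 (.thr 29 17 (.thr 49 13 (.thr 9 57 (.thr 5 53 (.thr 8 59 (.thr 10 11 (.thr 0 15 (.thr 12 4 (.thr 3 6 (.thr 1 2 (.thr 43 40 (.thr 35 39 (.dbl 51 19 38))))))))))))) (.rp 30 (.str 18 (.nv (.thr 43 40 (.thr 35 39 (.thr 45 33 (.dbl 44 38 46)))) (.rp 62 (.str 60 (.nv (.thr 5 53 (.thr 8 59 (.thr 40 43 (.thr 0 20 (.thr 10 15 (.dbl 9 11 57)))))) (.nv (.thr 17 29 (.thr 57 9 (.thr 51 54 (.thr 34 0 (.dbl 38 12 46))))) (.nv (.thr 43 40 (.thr 45 33 (.thr 35 39 (.dbl 44 38 46)))) (.rp 46 (.str 14 (.nv (.thr 8 59 (.thr 40 43 (.thr 56 24 (.thr 48 52 (.dbl 33 3 45))))) (.nv (.thr 57 9 (.thr 13 49 (.thr 12 15 (.dbl 51 38 54)))) (.rp 51 (.thr 40 43 (.thr 0 20 (.thr 5 53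 (.thr 15 10 (.dbl 13 12 49))))) (.rp 29 (.str 12 (.nv (.thr 45 33 (.thr 38 51 (.dbl 44 28 35))) (.nv (.dbl 13 15 49) (.rp 31 (.thr 28 44 (.dbl 13 15 49)) (.rp 28 (.str 31 (.nv (.thr 45 33 (.thr 51 38 (.dbl 57 9 54))) (.nv (.dbl 13 15 49) .nd))) .nd))))) (.rp 12 (.thr 29 17 (.thr 40 43 (.thr 33 45 (.thr 8 59 (.thr 56 24 (.dbl 48 3 52)))))) .nd)))))) (.rp 14 (.str 46 (.nv (.thr 38 34 (.thr 51 12 (.dbl 57 9 54))) (.nv (.dbl 45 33 44) (.rp 38 (.str 50 (.nv (.thr 49 13 (.thr 51 48 (.dbl 57 9 54))) (.nv (.dbl 45 33 44) (.rp 54 (.str 6 (.nv (.dbl 45 33 44) (.rp 45 (.thr 34 2 (.thr 40 43 (.thr 0 20 (.dbl 17 29 51)))) (.rp 44 (.thr 33 45 (.thr 9 57 (.dbl 3 12 48))) (.rp 33 (.thr 9 57 (.thr 44 45 (.dbl 12 3 28))) .nd))))) (.rp 45 (.thr 40 43 (.thr 0 20 (.thr 34 2 (.dbl 17 29 51)))) (.rp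 6 (.str 54 (.nv (.thr 2 34 (.dbl 45 33 44)) (.nv (.dbl 57 9 51) (.rp 2 (.str 10 (.nv (.dbl 57 9 51) (.nv (.dbl 45 33 44) .nd))) .nd)))) .nd)))))) (.rp 33 (.thr 44 45 (.dbl 38 34 35)) .nd))))) .nd)))))) (.rp 60 (.str 62 (.nv (.thr 45 33 (.thr 44 46 (.thr 35 38 (.dbl 43 39 40)))) (.nv (.thr 43 40 (.thr 45 33 (.thr 35 39 (.dbl 44 38 46)))) (.rp 46 (.thr 59 8 (.thr 57 9 (.thr 58 56 (.thr 50 54 (.thr 49 13 (.thr 48 51 (.dbl 33 3 45))))))) (.rp 45 (.str 15 (.nv (.thr 13 49 (.thr 12 14 (.thr 38 51 (.thr 35 44 (.dbl 39 36 43))))) (.nv (.thr 5 53 (.thr 8 59 (.thr 9 57 (.thr 49 13 (.thr 29 17 (.dbl 10 0 11)))))) (.nv (.thr 43 40 (.thr 39 35 (.thr 51 27 (.dbl 38 12 36)))) (.rp 51 (.thr 57 9 (.thr 5 53 (.thr 13 49 (.thr 0 10 (.thr 12 14 (.dbl 8 4 59)))))) (.rp 13 (.thr 29 17 (.thr 9 57 (.thr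 8 59 (.thr 10 11 (.dbl 5 0 53))))) .nd)))))) (.rp 44 (.thr 59 8 (.thr 57 9 (.thr 58 56 (.thr 50 54 (.thr 49 13 (.thr 48 51 (.dbl 33 3 45))))))) (.rp 43 (.thr 45 33 (.thr 46 44 (.thr 34 38 (.thr 17 29 (.thr 51 0 (.thr 49 13 (.dbl 50 2 48))))))) (.rp 40 (.thr 45 33 (.thr 44 46 (.thr 35 38 (.thr 43 39 (.thr 8 59 (.thr 5 53 (.thr 9 57 (.thr 49 13 (.thr 10 11 (.thr 0 15 (.thr 17 29 (.thr 12 4 (.thr 19 16 (.dbl 51 3 34)))))))))))))) (.rp 39 (.thr 45 33 (.thr 46 44 (.thr 34 38 (.thr 17 29 (.thr 51 0 (.thr 49 13 (.dbl 50 2 48))))))) (.rp 38 (.thr 49 13 (.thr 45 33 (.thr 43 40 (.thr 44 46 (.thr 35 39 (.thr 8 59 (.thr 5 53 (.thr 9 57 (.thr 10 11 (.thr 0 15 (.thr 17 29 (.thr 12 4 (.thr 19 16 (.dbl 51 3 34)))))))))))))) (.rp 35 (.thr 59 8 (.thr 57 9 (.thr 58 56 (.thr 50 54 (.thr 45 33 (.thr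 34 2 (.dbl 46 38 44))))))) (.rp 33 (.thr 43 40 (.thr 35 39 (.thr 17 29 (.thr 19 16 (.thr 51 3 (.dbl 38 12 44)))))) .nd)))))))))))) (.rp 46 (.thr 33 45 (.thr 3 48 (.thr 43 40 (.thr 35 39 (.thr 19 51 (.dbl 17 16 29)))))) (.rp 45 (.thr 13 49 (.thr 17 29 (.thr 19 16 (.thr 43 40 (.thr 35 39 (.thr 51 3 (.dbl 38 12 44))))))) (.rp 44 (.thr 9 57 (.thr 5 53 (.thr 49 13 (.thr 33 45 (.thr 29 17 (.thr 48 3 (.thr 51 50 (.thr 8 59 (.thr 10 11 (.thr 15 0 (.thr 39 27 (.dbl 43 35 40)))))))))))) (.rp 43 (.thr 49 13 (.thr 45 33 (.thr 17 29 (.thr 46 44 (.thr 34 38 (.thr 50 2 (.dbl 51 0 48))))))) (.rp 40 (.thr 9 57 (.thr 33 45 (.thr 3 48 (.thr 8 59 (.thr 11 10 (.thr 15 7 (.thr 12 6 (.dbl 13 14 49)))))))) (.rp 39 (.thr 9 57 (.thr 5 53 (.thr 49 13 (.thr 45 33 (.thr 17 29 (.thr 19 16 (.thr 59 8 (.thr 40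 43 (.thr 46 44 (.thr 34 38 (.thr 50 2 (.dbl 51 0 48)))))))))))) (.rp 38 (.thr 33 45 (.thr 3 48 (.thr 43 40 (.thr 35 39 (.thr 19 51 (.dbl 17 16 29)))))) (.rp 36 (.thr 45 33 (.thr 43 40 (.thr 44 46 (.dbl 35 38 39)))) (.rp 35 (.thr 9 57 (.thr 5 53 (.thr 49 13 (.thr 33 45 (.thr 29 17 (.thr 48 3 (.thr 51 50 (.thr 59 8 (.thr 43 40 (.thr 27 11 (.thr 38 12 (.dbl 39 15 36)))))))))))) (.rp 33 (.thr 17 29 (.thr 19 16 (.thr 43 40 (.thr 35 39 (.thr 51 3 (.dbl 38 12 44)))))) .nd)))))))))))))) (.rp 18 (.str 30 (.nv (.thr 43 40 (.thr 35 39 (.thr 44 38 (.dbl 45 33 46)))) (.nv (.thr 29 17 (.thr 28 31 (.thr 45 33 (.thr 44 46 (.dbl 60 12 15))))) (.nv (.thr 43 40 (.thr 45 33 (.thr 35 39 (.dbl 44 38 46)))) (.rp 62 (.str 60 (.nv (.dbl 45 15 33) (.rp 45 (.thr 57 9 (.thr 40 43 (.thr 0 20 (.thr 51 54 (.dbl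 17 29 34))))) (.rp 33 (.thr 45 15 (.thr 44 46 (.thr 28 12 (.dbl 29 17 31)))) (.rp 15 (.thr 43 40 (.thr 45 33 (.thr 44 46 (.dbl 35 38 39)))) .nd))))) (.rp 60 (.str 62 (.nv (.thr 43 40 (.thr 35 39 (.thr 46 14 (.dbl 38 34 44)))) (.nv (.thr 46 14 (.dbl 45 33 44)) (.rp 46 (.thr 9 57 (.thr 59 8 (.thr 43 40 (.thr 27 11 (.thr 39 35 (.thr 51 15 (.dbl 38 12 36))))))) (.rp 44 (.thr 14 46 (.thr 8 59 (.thr 13 49 (.thr 12 15 (.thr 4 0 (.dbl 38 51 55)))))) (.rp 38 (.thr 45 33 (.dbl 46 14 44)) (.rp 14 (.thr 43 40 (.thr 45 33 (.thr 44 46 (.dbl 35 38 39)))) .nd))))))) (.rp 46 (.thr 59 8 (.thr 43 40 (.thr 27 11 (.thr 39 35 (.thr 15 51 (.dbl 45 33 60)))))) (.rp 45 (.thr 59 8 (.thr 43 40 (.thr 27 11 (.thr 39 35 (.thr 51 15 (.dbl 38 12 36)))))) (.rp 44 (.thr 57 9 (.thr 40 43 (.thr 45 33 (.thr 60 15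 (.thr 0 20 (.thr 17 29 (.dbl 51 34 54))))))) (.rp 35 (.thr 29 17 (.thr 9 57 (.thr 8 59 (.thr 10 11 (.thr 5 53 (.thr 49 13 (.thr 15 0 (.dbl 45 33 60)))))))) (.rp 33 (.thr 43 40 (.thr 29 17 (.thr 28 31 (.thr 35 39 (.thr 44 38 (.thr 60 12 (.dbl 45 15 46))))))) .nd))))))))))) .nd))))))))))))))))) (.rp 57 (.thr 5 53 (.thr 29 17 (.thr 13 49 (.thr 61 45 (.dbl 1 9 41))))) (.rp 53 (.thr 49 13 (.thr 17 29 (.thr 33 1 (.thr 32 47 (.thr 34 35 (.thr 51 0 (.dbl 38 12 46))))))) (.rp 49 (.thr 8 59 (.thr 17 29 (.str 38 (.nv (.thr 12 51 (.thr 55 4 (.thr 32 47 (.thr 36 39 (.thr 40 44 (.dbl 24 48 56)))))) (.nv (.thr 46 34 (.thr 39 36 (.thr 47 32 (.thr 44 45 (.dbl 35 41 43))))) (.rp 55 (.thr 51 12 (.thr 46 34 (.thr 39 36 (.thr 47 32 (.thr 44 45 (.dbl 35 41 43)))))) (.rp 51 (.thr 55 4 (.thr 46 34 (.thr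 39 36 (.thr 47 32 (.thr 44 45 (.dbl 35 41 43)))))) (.rp 47 (.thr 5 53 (.thr 46 34 (.thr 51 12 (.thr 4 55 (.thr 39 36 (.thr 7 6 (.thr 15 27 (.thr 10 0 (.dbl 11 3 9))))))))) (.rp 46 (.thr 12 51 (.thr 55 4 (.thr 53 5 (.thr 52 54 (.thr 36 39 (.thr 48 24 (.thr 60 56 (.thr 44 28 (.dbl 32 40 47))))))))) (.rp 45 (.thr 36 39 (.thr 32 47 (.thr 44 40 (.thr 35 41 (.dbl 34 33 46))))) (.rp 44 (.thr 5 53 (.thr 46 34 (.thr 51 12 (.thr 4 55 (.thr 39 36 (.thr 7 6 (.thr 15 27 (.thr 10 0 (.dbl 11 3 9))))))))) (.rp 43 (.thr 34 46 (.thr 12 51 (.thr 55 4 (.thr 36 39 (.thr 32 47 (.thr 35 33 (.dbl 44 40 41))))))) (.rp 39 (.thr 53 5 (.thr 46 34 (.thr 51 12 (.thr 55 4 (.thr 54 52 (.thr 57 60 (.thr 41 9 (.thr 45 33 (.dbl 44 35 47))))))))) (.rp 36 (.thr 46 34 (.thr 51 12 (.thr 55 4 (.thr 47 32 (.thr 44 45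 (.thr 35 41 (.thr 39 43 (.thr 3 19 (.thr 7 23 (.dbl 15 11 27)))))))))) (.rp 35 (.thr 53 5 (.thr 12 51 (.thr 55 4 (.thr 52 54 (.thr 36 39 (.thr 48 24 (.thr 60 56 (.thr 44 28 (.dbl 32 40 47))))))))) (.rp 32 (.thr 5 53 (.thr 46 34 (.thr 51 12 (.thr 4 55 (.thr 39 36 (.thr 7 6 (.thr 15 27 (.thr 10 0 (.dbl 11 3 9))))))))) (.rp 30 (.str 18 (.nv (.thr 12 51 (.thr 55 4 (.thr 16 19 (.thr 32 47 (.thr 36 39 (.dbl 48 0 24)))))) (.nv (.thr 46 34 (.thr 39 36 (.thr 47 32 (.thr 35 43 (.dbl 44 41 45))))) (.nv (.thr 32 47 (.thr 16 19 (.thr 0 48 (.dbl 51 12 34)))) (.rp 55 (.thr 51 12 (.thr 46 34 (.thr 39 36 (.thr 47 32 (.thr 44 45 (.dbl 35 41 43)))))) (.rp 51 (.thr 55 4 (.thr 46 34 (.thr 39 36 (.thr 47 32 (.thr 44 45 (.dbl 35 41 43)))))) (.rp 47 (.thr 46 34 (.thr 51 12 (.thr 55 4 (.thr 39 36 (.thr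 19 16 (.thr 23 7 (.dbl 27 15 31))))))) (.rp 32 (.thr 46 34 (.thr 51 12 (.thr 55 4 (.thr 39 36 (.thr 19 16 (.thr 23 7 (.dbl 27 15 31))))))) (.rp 31 (.str 28 (.nv (.thr 16 19 (.thr 20 24 (.thr 36 39 (.dbl 4 52 55)))) (.nv (.thr 46 34 (.thr 47 32 (.thr 44 45 (.dbl 12 51 60)))) (.rp 55 (.thr 51 12 (.thr 46 34 (.thr 39 36 (.thr 47 32 (.thr 44 45 (.dbl 35 41 43)))))) (.rp 51 (.thr 55 4 (.thr 46 34 (.thr 39 36 (.thr 47 32 (.thr 44 45 (.dbl 35 41 43)))))) (.rp 47 (.str 15 (.nv (.thr 5 53 (.thr 0 10 (.dbl 4 12 55))) (.nv (.thr 39 36 (.dbl 51 12 27)) (.rp 55 (.thr 51 12 (.thr 46 34 (.dbl 39 27 36))) (.rp 51 (.thr 55 4 (.thr 39 36 (.thr 7 23 (.thr 5 53 (.thr 10 0 (.dbl 11 3 9)))))) (.rp 46 (.thr 12 51 (.thr 55 4 (.thr 16 19 (.thr 24 20 (.dbl 36 39 48))))) (.rp 12 (.thr 46 34 (.thr 16 19 (.thr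 20 24 (.thr 36 39 (.dbl 4 52 55))))) .nd))))))) (.rp 46 (.thr 12 51 (.thr 55 4 (.thr 44 60 (.thr 36 39 (.dbl 32 40 47))))) (.rp 15 (.thr 47 32 (.thr 46 34 (.thr 12 51 (.thr 55 4 (.dbl 44 45 60))))) (.rp 12 (.thr 46 34 (.thr 36 39 (.thr 16 19 (.thr 20 24 (.dbl 4 52 55))))) .nd))))))))) (.rp 28 (.str 31 (.nv (.thr 32 47 (.thr 36 39 (.thr 40 44 (.thr 24 56 (.dbl 12 48 51))))) (.nv (.thr 55 4 (.thr 19 16 (.thr 23 27 (.dbl 39 7 36)))) (.nv (.thr 16 19 (.thr 32 47 (.thr 0 48 (.dbl 51 12 34)))) (.rp 55 (.thr 51 12 (.thr 46 34 (.thr 39 36 (.thr 19 16 (.dbl 27 15 23))))) (.rp 46 (.thr 12 51 (.thr 55 4 (.thr 39 36 (.thr 19 16 (.dbl 23 7 27))))) (.rp 12 (.thr 46 34 (.thr 47 32 (.thr 39 36 (.thr 35 43 (.dbl 44 41 45))))) .nd))))))) .nd)))))))))) (.rp 18 (.str 30 (.nv (.thr 5 53 (.thr 46 34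 (.thr 47 32 (.thr 45 44 (.thr 15 60 (.thr 0 10 (.dbl 4 12 55))))))) (.nv (.thr 36 39 (.thr 32 47 (.thr 40 44 (.thr 24 56 (.dbl 12 48 51))))) (.nv (.thr 46 34 (.thr 47 32 (.thr 44 45 (.thr 39 36 (.dbl 35 41 43))))) (.rp 55 (.thr 51 12 (.thr 46 34 (.thr 47 32 (.thr 44 45 (.thr 39 36 (.dbl 35 41 43)))))) (.rp 51 (.thr 55 4 (.thr 46 34 (.thr 47 32 (.thr 44 45 (.thr 39 36 (.dbl 35 41 43)))))) (.rp 47 (.thr 53 5 (.thr 46 34 (.thr 55 4 (.thr 54 52 (.thr 51 12 (.thr 60 57 (.thr 15 45 (.dbl 39 27 36)))))))) (.rp 46 (.thr 12 51 (.thr 55 4 (.thr 53 5 (.thr 52 54 (.thr 32 47 (.thr 36 39 (.thr 44 40 (.thr 60 28 (.dbl 48 24 56))))))))) (.rp 45 (.thr 32 47 (.thr 36 39 (.thr 44 40 (.thr 35 41 (.dbl 34 33 46))))) (.rp 44 (.thr 53 5 (.thr 46 34 (.thr 55 4 (.thr 54 52 (.thr 51 12 (.thr 60 57 (.thr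 15 45 (.dbl 39 27 36)))))))) (.rp 41 (.thr 46 34 (.thr 51 12 (.thr 47 32 (.thr 39 36 (.thr 15 27 (.dbl 45 44 60)))))) (.rp 36 (.thr 46 34 (.thr 14 62 (.thr 55 4 (.thr 12 51 (.thr 47 32 (.thr 15 13 (.dbl 45 44 60))))))) (.rp 35 (.thr 46 34 (.thr 51 12 (.thr 39 36 (.thr 15 27 (.thr 45 60 (.dbl 47 32 44)))))) (.rp 32 (.thr 46 34 (.thr 51 12 (.thr 39 36 (.thr 15 27 (.thr 45 60 (.thr 44 47 (.dbl 41 33 35))))))) .nd)))))))))))))) .nd)))))))))))))))))) (.rp 45 (.thr 53 5 (.thr 49 13 (.thr 17 29 (.thr 61 57 (.dbl 1 33 41))))) (.rp 41 (.thr 49 13 (.thr 17 29 (.thr 33 1 (.thr 32 47 (.thr 34 35 (.thr 51 0 (.dbl 38 12 46))))))) (.rp 30 (.str 18 (.nv (.thr 17 29 (.thr 16 19 (.thr 32 47 (.thr 48 0 (.thr 33 3 (.dbl 49 1 13)))))) (.nv (.thr 5 53 (.thr 13 49 (.thr 1 9 (.thr 29 17 (.dbl 61 41 45)))))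 (.rp 49 (.thr 17 29 (.thr 32 47 (.thr 16 19 (.thr 0 48 (.thr 51 34 (.thr 8 59 (.dbl 12 4 38))))))) (.rp 48 (.thr 53 5 (.thr 49 13 (.thr 17 29 (.thr 1 33 (.dbl 61 41 57))))) (.rp 41 (.thr 49 13 (.thr 17 29 (.thr 33 1 (.thr 32 47 (.thr 16 19 (.dbl 48 0 3)))))) (.rp 29 (.thr 53 5 (.thr 49 13 (.thr 61 57 (.thr 1 41 (.thr 33 17 (.thr 32 47 (.thr 34 35 (.thr 2 50 (.dbl 3 0 48))))))))) (.rp 17 (.str 3 (.nv (.thr 32 47 (.thr 48 33 (.thr 0 16 (.thr 2 1 (.thr 49 13 (.dbl 50 34 51)))))) (.nv (.thr 32 47 (.thr 33 48 (.thr 35 34 (.thr 41 45 (.thr 40 43 (.dbl 44 36 38)))))) (.nv (.thr 33 48 (.thr 53 5 (.thr 49 13 (.thr 61 57 (.dbl 41 1 45))))) (.rp 48 (.thr 53 5 (.thr 49 13 (.thr 57 61 (.thr 9 41 (.thr 8 59 (.thr 12 6 (.thr 4 0 (.dbl 38 51 55)))))))) (.rp 33 (.thr 5 53 (.thr 13 49 (.thr 1 9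 (.thr 0 2 (.thr 15 10 (.thr 8 59 (.dbl 12 4 14))))))) .nd)))))) (.rp 13 (.thr 17 29 (.thr 32 47 (.thr 16 19 (.thr 0 48 (.thr 51 34 (.thr 8 59 (.dbl 12 4 38))))))) (.rp 1 (.thr 17 29 (.thr 32 47 (.thr 16 19 (.thr 0 48 (.thr 51 34 (.thr 8 59 (.dbl 12 4 38))))))) .nd)))))))))) (.rp 29 (.thr 5 53 (.thr 13 49 (.thr 9 1 (.thr 47 32 (.thr 8 59 (.thr 10 11 (.thr 15 0 (.thr 12 14 (.thr 38 51 (.thr 55 4 (.thr 39 36 (.thr 43 35 (.dbl 41 40 57))))))))))))) (.rp 18 (.str 30 (.nv (.thr 5 53 (.thr 13 49 (.thr 1 9 (.thr 29 17 (.dbl 61 41 45))))) (.nv (.thr 53 5 (.thr 49 13 (.thr 61 57 (.thr 17 29 (.dbl 1 33 41))))) (.rp 61 (.str 60 (.nv (.thr 5 53 (.thr 8 59 (.thr 15 45 (.thr 10 0 (.thr 9 11 (.dbl 13 1 49)))))) (.nv (.thr 45 15 (.thr 29 17 (.thr 28 31 (.thr 47 32 (.dbl 44 12 46))))) (.rp 45 (.thr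 29 17 (.thr 28 31 (.thr 12 44 (.thr 8 59 (.thr 4 0 (.dbl 38 51 55)))))) (.rp 29 (.thr 13 49 (.thr 15 45 (.thr 12 14 (.thr 8 59 (.thr 4 0 (.dbl 38 51 55)))))) (.rp 15 (.thr 29 17 (.thr 47 32 (.thr 28 31 (.thr 12 44 (.thr 8 59 (.thr 4 0 (.dbl 38 51 55))))))) .nd)))))) (.rp 57 (.thr 5 53 (.thr 29 17 (.thr 13 49 (.thr 61 45 (.dbl 1 9 41))))) (.rp 53 (.thr 49 13 (.thr 17 29 (.thr 33 1 (.thr 32 47 (.thr 34 35 (.thr 51 0 (.dbl 38 12 46))))))) (.rp 49 (.str 60 (.nv (.thr 29 17 (.thr 45 15 (.thr 47 32 (.thr 61 13 (.dbl 41 1 33))))) (.nv (.thr 8 59 (.thr 29 17 (.thr 28 31 (.thr 12 44 (.thr 4 0 (.dbl 38 51 55)))))) (.nv (.thr 45 15 (.thr 47 32 (.thr 44 46 (.thr 28 12 (.dbl 29 17 31))))) (.rp 47 (.thr 29 17 (.thr 31 28 (.thr 45 15 (.thr 61 13 (.dbl 41 1 33))))) (.rp 29 (.thr 47 32 (.thr 45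 15 (.thr 41 33 (.thr 44 46 (.thr 12 28 (.dbl 38 35 51)))))) (.rp 17 (.thr 47 32 (.thr 45 15 (.thr 44 46 (.thr 12 28 (.thr 38 51 (.dbl 41 33 35)))))) (.rp 15 (.thr 29 17 (.thr 47 32 (.thr 28 31 (.thr 12 44 (.thr 8 59 (.thr 4 0 (.dbl 38 51 55))))))) (.rp 12 (.thr 47 32 (.thr 45 15 (.thr 41 33 (.thr 43 40 (.thr 35 39 (.dbl 44 38 46)))))) .nd))))))))) (.rp 41 (.thr 13 49 (.thr 29 17 (.thr 45 61 (.thr 47 32 (.thr 44 46 (.thr 28 31 (.dbl 60 12 15))))))) (.rp 29 (.thr 5 53 (.thr 13 49 (.thr 9 1 (.thr 8 59 (.thr 10 11 (.thr 15 0 (.thr 45 60 (.dbl 41 33 57)))))))) (.rp 17 (.thr 5 53 (.thr 13 49 (.thr 1 9 (.thr 61 41 (.thr 45 29 (.thr 47 32 (.thr 46 44 (.thr 14 62 (.dbl 15 12 60))))))))) (.rp 13 (.str 60 (.nv (.thr 45 15 (.thr 41 33 (.thr 43 40 (.thr 47 32 (.thr 35 39 (.dbl 44 38 46))))))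 (.nv (.thr 8 59 (.thr 29 17 (.thr 28 31 (.thr 12 44 (.thr 4 0 (.dbl 38 51 55)))))) (.nv (.thr 5 53 (.thr 8 59 (.thr 15 45 (.thr 0 10 (.thr 12 4 (.thr 51 38 (.dbl 17 29 34))))))) (.nv (.thr 29 17 (.thr 47 32 (.thr 28 31 (.thr 44 12 (.dbl 45 15 46))))) (.rp 15 (.thr 29 17 (.thr 47 32 (.thr 28 31 (.thr 12 44 (.thr 8 59 (.thr 4 0 (.dbl 38 51 55))))))) (.rp 12 (.thr 5 53 (.thr 29 17 (.thr 32 47 (.thr 28 31 (.thr 15 45 (.thr 0 10 (.thr 20 40 (.dbl 16 24 48)))))))) .nd))))))) (.rp 9 (.thr 53 5 (.thr 17 29 (.thr 49 13 (.thr 1 33 (.dbl 61 41 57))))) (.rp 5 (.thr 13 49 (.thr 29 17 (.thr 45 61 (.thr 47 32 (.thr 44 46 (.thr 28 31 (.dbl 60 12 15))))))) (.rp 1 (.str 60 (.nv (.thr 29 17 (.thr 28 31 (.thr 44 12 (.thr 47 32 (.dbl 45 15 46))))) (.nv (.thr 13 49 (.thr 45 15 (.dbl 29 17 61))) (.rp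 49 (.thr 47 32 (.thr 45 15 (.thr 44 46 (.thr 28 12 (.dbl 29 17 31))))) (.rp 47 (.thr 29 17 (.thr 31 28 (.thr 45 15 (.dbl 13 49 61)))) (.rp 45 (.thr 29 17 (.thr 28 31 (.thr 12 44 (.thr 8 59 (.thr 4 0 (.dbl 38 51 55)))))) (.rp 33 (.thr 47 32 (.thr 45 15 (.thr 44 46 (.thr 28 12 (.dbl 29 17 31))))) (.rp 31 (.thr 13 49 (.thr 47 32 (.thr 45 15 (.dbl 29 17 61)))) (.rp 29 (.thr 5 53 (.thr 13 49 (.thr 15 45 (.thr 12 14 (.thr 0 10 (.dbl 8 4 59)))))) (.rp 17 (.thr 5 53 (.thr 15 45 (.thr 0 10 (.thr 8 59 (.thr 12 4 (.dbl 13 14 49)))))) (.rp 15 (.thr 29 17 (.thr 47 32 (.thr 28 31 (.thr 44 12 (.thr 45 46 (.dbl 13 49 61)))))) .nd))))))))))) .nd)))))))))))))) (.rp 17 (.thr 8 59 (.str 38 (.nv (.thr 5 53 (.thr 13 49 (.thr 1 9 (.thr 47 32 (.thr 61 41 (.thr 45 29 (.dbl 46 34 44))))))) (.nv (.thr 5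 53 (.thr 13 49 (.thr 39 36 (.thr 51 12 (.thr 15 27 (.thr 10 0 (.dbl 9 1 11))))))) (.nv (.thr 39 36 (.thr 46 34 (.thr 47 32 (.thr 44 45 (.dbl 35 41 43))))) (.rp 55 (.thr 51 12 (.thr 46 34 (.thr 39 36 (.thr 47 32 (.thr 35 43 (.dbl 44 41 45)))))) (.rp 51 (.thr 55 4 (.thr 34 46 (.thr 36 39 (.thr 32 47 (.thr 35 33 (.dbl 44 40 41)))))) (.rp 46 (.thr 36 39 (.thr 32 47 (.thr 55 4 (.thr 12 51 (.thr 24 48 (.dbl 40 44 56)))))) (.rp 30 (.str 18 (.nv (.thr 32 47 (.thr 36 39 (.thr 44 40 (.thr 35 41 (.dbl 34 33 46))))) (.nv (.thr 49 13 (.thr 34 46 (.thr 50 2 (.dbl 51 12 48)))) (.rp 55 (.thr 51 12 (.thr 49 13 (.thr 50 48 (.dbl 34 2 46)))) (.rp 51 (.thr 55 4 (.thr 34 46 (.thr 36 39 (.thr 32 47 (.thr 44 40 (.dbl 35 33 41)))))) (.rp 46 (.thr 53 5 (.thr 49 13 (.thr 57 61 (.thr 55 4 (.thr 54 52 (.dbl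 51 12 60)))))) (.rp 34 (.thr 36 39 (.thr 32 47 (.thr 40 44 (.thr 24 56 (.dbl 12 48 51))))) .nd))))))) (.rp 18 (.str 30 (.nv (.thr 39 36 (.thr 46 34 (.thr 47 32 (.thr 35 43 (.dbl 44 41 45))))) (.nv (.thr 32 47 (.thr 36 39 (.thr 40 44 (.thr 24 56 (.dbl 12 48 51))))) (.nv (.thr 46 34 (.thr 13 49 (.thr 14 62 (.dbl 12 15 51)))) (.rp 55 (.thr 51 12 (.thr 46 34 (.thr 39 36 (.thr 47 32 (.thr 35 43 (.dbl 44 41 45)))))) (.rp 51 (.thr 55 4 (.thr 34 46 (.thr 36 39 (.thr 32 47 (.thr 35 33 (.dbl 44 40 41)))))) (.rp 46 (.thr 36 39 (.thr 32 47 (.thr 55 4 (.thr 12 51 (.thr 24 48 (.dbl 40 44 56)))))) (.rp 19 (.str 16 (.nv (.thr 13 49 (.thr 46 34 (.thr 14 62 (.dbl 12 15 51)))) (.nv (.thr 32 47 (.thr 36 39 (.thr 44 40 (.thr 35 41 (.dbl 34 33 46))))) (.nv (.thr 32 47 (.thr 49 13 (.thr 48 0 (.dbl 51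 12 50)))) (.rp 55 (.thr 51 12 (.thr 49 13 (.thr 48 50 (.dbl 32 0 47)))) (.rp 51 (.thr 55 4 (.thr 34 46 (.thr 32 47 (.thr 36 39 (.thr 44 40 (.dbl 35 33 41)))))) (.rp 15 (.thr 46 34 (.thr 47 32 (.thr 44 45 (.thr 39 36 (.dbl 35 41 43))))) .nd))))))) (.rp 16 (.str 19 (.nv (.thr 32 47 (.thr 36 39 (.thr 44 40 (.thr 35 41 (.dbl 34 33 46))))) (.nv (.thr 46 34 (.thr 13 49 (.thr 14 62 (.dbl 12 15 51)))) (.nv (.thr 51 12 (.thr 39 36 (.thr 47 32 (.dbl 35 3 43)))) (.rp 51 (.thr 55 4 (.thr 34 46 (.thr 36 39 (.thr 32 47 (.thr 35 33 (.dbl 44 40 41)))))) (.rp 46 (.thr 39 36 (.thr 47 32 (.thr 35 43 (.dbl 51 3 12)))) .nd)))))) .nd))))))))) .nd)))))))))) (.rp 13 (.thr 8 59 (.thr 29 17 (.str 38 (.nv (.thr 32 47 (.thr 36 39 (.thr 40 44 (.thr 24 56 (.dbl 12 48 51))))) (.nv (.thr 12 51 (.thr 55 4 (.thr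 36 39 (.thr 24 48 (.thr 40 56 (.dbl 32 44 47)))))) (.nv (.thr 46 34 (.thr 47 32 (.thr 44 45 (.thr 39 36 (.dbl 35 41 43))))) (.rp 55 (.thr 51 12 (.thr 46 34 (.thr 47 32 (.thr 44 45 (.thr 39 36 (.dbl 35 41 43)))))) (.rp 51 (.thr 55 4 (.thr 34 46 (.thr 32 47 (.thr 36 39 (.thr 44 40 (.dbl 35 33 41)))))) (.rp 47 (.thr 53 5 (.thr 55 4 (.thr 54 52 (.thr 51 12 (.thr 57 60 (.thr 61 49 (.dbl 41 1 9))))))) (.rp 44 (.thr 5 53 (.thr 4 55 (.thr 51 12 (.thr 39 36 (.thr 15 27 (.thr 10 0 (.thr 11 9 (.dbl 7 3 6)))))))) (.rp 41 (.thr 55 4 (.thr 12 51 (.thr 32 47 (.thr 36 39 (.thr 40 44 (.dbl 24 48 56)))))) (.rp 39 (.thr 53 5 (.thr 55 4 (.thr 54 52 (.thr 51 12 (.thr 57 60 (.thr 61 49 (.dbl 41 1 9))))))) (.rp 36 (.thr 46 34 (.thr 55 4 (.thr 51 12 (.thr 47 32 (.thr 44 45 (.thr 35 41 (.thr 39 43 (.thr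 7 23 (.thr 3 19 (.dbl 15 11 27)))))))))) (.rp 32 (.thr 53 5 (.thr 55 4 (.thr 54 52 (.thr 51 12 (.thr 57 60 (.thr 61 49 (.dbl 41 1 9))))))) (.rp 30 (.str 18 (.nv (.thr 12 51 (.thr 55 4 (.thr 36 39 (.thr 24 48 (.thr 40 56 (.dbl 32 44 47)))))) (.nv (.thr 32 47 (.thr 34 46 (.thr 50 2 (.thr 51 12 (.thr 48 49 (.dbl 33 3 35)))))) (.nv (.thr 39 36 (.thr 46 34 (.thr 47 32 (.thr 44 45 (.dbl 35 41 43))))) (.rp 55 (.thr 51 12 (.thr 34 46 (.thr 50 2 (.thr 48 49 (.thr 32 47 (.dbl 33 3 35)))))) (.rp 51 (.thr 55 4 (.thr 34 46 (.thr 36 39 (.thr 32 47 (.thr 44 40 (.dbl 35 33 41)))))) (.rp 47 (.thr 53 5 (.thr 51 12 (.thr 55 4 (.thr 54 52 (.thr 57 60 (.thr 61 49 (.dbl 41 1 9))))))) (.rp 44 (.thr 34 46 (.thr 50 2 (.thr 51 12 (.thr 48 49 (.thr 33 3 (.dbl 32 35 47)))))) (.rp 34 (.thr 36 39 (.thr 32 47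 (.thr 40 44 (.thr 24 56 (.dbl 12 48 51))))) (.rp 32 (.thr 53 5 (.thr 51 12 (.thr 55 4 (.thr 54 52 (.thr 57 60 (.thr 61 49 (.dbl 41 1 9))))))) (.rp 15 (.thr 46 34 (.thr 39 36 (.thr 47 32 (.thr 35 43 (.dbl 44 41 45))))) .nd))))))))))) (.rp 18 (.str 30 (.nv (.thr 28 31 (.thr 47 32 (.thr 46 34 (.thr 44 45 (.dbl 12 51 60))))) (.nv (.thr 31 28 (.thr 39 36 (.thr 51 12 (.thr 55 4 (.thr 23 7 (.dbl 27 15 19)))))) (.nv (.thr 36 39 (.thr 32 47 (.thr 44 40 (.thr 34 46 (.dbl 35 33 41))))) (.rp 55 (.thr 51 12 (.thr 46 34 (.thr 47 32 (.thr 44 45 (.thr 39 36 (.dbl 35 41 43)))))) (.rp 51 (.thr 55 4 (.thr 34 46 (.thr 32 47 (.thr 36 39 (.thr 44 40 (.dbl 35 33 41)))))) (.rp 44 (.thr 53 5 (.thr 55 4 (.thr 54 52 (.thr 51 12 (.thr 60 57 (.thr 15 45 (.dbl 39 27 36))))))) (.rp 31 (.thr 46 34 (.thr 47 32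 (.thr 44 45 (.thr 39 36 (.dbl 35 41 43))))) (.rp 19 (.str 16 (.nv (.thr 28 31 (.thr 47 32 (.thr 24 20 (.thr 36 39 (.dbl 12 48 51))))) (.nv (.thr 28 31 (.thr 20 24 (.thr 36 39 (.dbl 4 52 55)))) (.nv (.thr 32 47 (.thr 0 48 (.dbl 12 4 51))) (.rp 55 (.thr 51 12 (.thr 5 53 (.thr 32 47 (.thr 39 36 (.thr 15 27 (.dbl 0 10 48)))))) (.rp 51 (.thr 55 4 (.thr 34 46 (.thr 32 47 (.thr 36 39 (.thr 44 40 (.dbl 35 33 41)))))) (.rp 47 (.thr 4 55 (.thr 51 12 (.thr 36 39 (.thr 20 52 (.dbl 28 24 31))))) (.rp 31 (.thr 46 34 (.thr 47 32 (.thr 44 45 (.thr 39 36 (.dbl 35 41 43))))) .nd)))))))) (.rp 16 (.str 19 (.nv (.thr 51 12 (.thr 32 47 (.thr 34 46 (.dbl 35 3 33)))) (.nv (.thr 55 4 (.thr 31 28 (.thr 39 36 (.dbl 23 7 27)))) (.rp 31 (.thr 34 46 (.thr 51 12 (.thr 35 3 (.dbl 32 33 47)))) .nd)))) .nd))))))))))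 .nd)))))))))))))))) (.rp 5 (.thr 8 59 (.thr 47 32 (.str 38 (.nv (.thr 13 49 (.thr 29 17 (.thr 39 36 (.thr 35 43 (.thr 45 61 (.dbl 41 33 44)))))) (.nv (.thr 13 49 (.thr 29 17 (.thr 45 61 (.dbl 46 34 44)))) (.nv (.thr 46 34 (.thr 39 36 (.thr 44 45 (.dbl 35 41 43)))) (.rp 55 (.thr 51 12 (.thr 46 34 (.thr 45 44 (.thr 29 17 (.dbl 13 49 61))))) (.rp 51 (.thr 55 4 (.thr 46 34 (.thr 45 44 (.thr 13 49 (.dbl 29 17 61))))) (.rp 45 (.thr 39 36 (.thr 35 43 (.thr 55 4 (.thr 51 12 (.thr 7 23 (.thr 3 19 (.dbl 15 11 27))))))) (.rp 44 (.thr 36 39 (.thr 29 17 (.thr 55 4 (.thr 12 51 (.thr 24 48 (.thr 40 56 (.thr 41 43 (.thr 45 33 (.dbl 13 49 61))))))))) (.rp 33 (.thr 39 36 (.thr 35 43 (.thr 46 34 (.dbl 44 41 45)))) (.rp 30 (.str 18 (.nv (.thr 13 49 (.thr 29 17 (.thr 39 36 (.thr 35 43 (.thr 45 61 (.dbl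 41 33 44)))))) (.nv (.thr 34 46 (.thr 49 13 (.thr 50 2 (.dbl 51 12 48)))) (.nv (.thr 46 34 (.thr 39 36 (.thr 44 45 (.dbl 35 41 43)))) (.rp 55 (.thr 51 12 (.thr 49 13 (.thr 50 48 (.dbl 34 2 46)))) (.rp 51 (.thr 55 4 (.thr 46 34 (.thr 39 36 (.thr 35 43 (.dbl 44 41 45))))) .nd)))))) (.rp 18 (.str 30 (.nv (.thr 13 49 (.thr 46 34 (.thr 14 62 (.dbl 12 15 51)))) (.nv (.thr 12 51 (.thr 55 4 (.thr 13 49 (.thr 15 14 (.thr 45 60 (.dbl 29 17 61)))))) (.nv (.thr 46 34 (.thr 39 36 (.thr 44 45 (.dbl 35 41 43)))) (.rp 55 (.thr 51 12 (.thr 46 34 (.thr 45 44 (.thr 29 17 (.dbl 13 49 61))))) (.rp 51 (.thr 55 4 (.thr 46 34 (.thr 45 44 (.thr 13 49 (.dbl 29 17 61))))) (.rp 50 (.thr 39 36 (.thr 35 43 (.thr 44 41 (.dbl 46 34 45)))) .nd))))))) .nd))))))))))))) (.rp 1 (.thr 8 59 (.thr 17 29 (.str 38 (.nv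 (.thr 12 51 (.thr 55 4 (.thr 36 39 (.thr 24 48 (.thr 40 56 (.dbl 32 44 47)))))) (.nv (.thr 46 34 (.thr 39 36 (.thr 47 32 (.thr 44 45 (.dbl 35 41 43))))) (.rp 55 (.thr 51 12 (.thr 46 34 (.thr 39 36 (.thr 47 32 (.thr 44 45 (.dbl 35 41 43)))))) (.rp 51 (.thr 55 4 (.thr 46 34 (.thr 39 36 (.thr 47 32 (.thr 44 45 (.dbl 35 41 43)))))) (.rp 47 (.thr 53 5 (.thr 46 34 (.thr 51 12 (.thr 55 4 (.thr 54 52 (.thr 57 60 (.dbl 49 13 61))))))) (.rp 44 (.thr 53 5 (.thr 13 49 (.thr 46 34 (.thr 12 51 (.thr 55 4 (.thr 52 54 (.thr 36 39 (.thr 48 24 (.thr 60 56 (.thr 32 47 (.thr 16 0 (.thr 18 19 (.thr 15 14 (.thr 45 30 (.dbl 33 3 41))))))))))))))) (.rp 41 (.thr 12 51 (.thr 55 4 (.thr 36 39 (.thr 24 48 (.thr 32 47 (.dbl 40 44 56)))))) (.rp 39 (.thr 53 5 (.thr 46 34 (.thr 51 12 (.thr 55 4 (.thr 54 52 (.thr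 57 60 (.dbl 49 13 61))))))) (.rp 36 (.thr 46 34 (.thr 51 12 (.thr 55 4 (.thr 47 32 (.thr 44 45 (.thr 35 41 (.thr 39 43 (.thr 3 19 (.thr 7 23 (.dbl 15 11 27)))))))))) (.rp 32 (.thr 53 5 (.thr 46 34 (.thr 51 12 (.thr 55 4 (.thr 54 52 (.thr 57 60 (.dbl 49 13 61))))))) (.rp 30 (.str 18 (.nv (.thr 46 34 (.thr 39 36 (.thr 47 32 (.thr 35 43 (.dbl 44 41 45))))) (.nv (.thr 32 47 (.thr 16 19 (.thr 0 48 (.dbl 4 12 55)))) (.rp 55 (.thr 51 12 (.thr 46 34 (.thr 49 13 (.thr 48 50 (.thr 32 47 (.dbl 16 0 19)))))) (.rp 51 (.thr 55 4 (.thr 46 34 (.thr 39 36 (.thr 47 32 (.thr 44 45 (.dbl 35 41 43)))))) (.rp 47 (.thr 49 13 (.thr 46 34 (.thr 51 12 (.thr 48 50 (.thr 19 16 (.dbl 3 33 35)))))) (.rp 46 (.thr 12 51 (.thr 55 4 (.thr 36 39 (.thr 48 24 (.thr 32 47 (.dbl 16 0 19)))))) (.rp 32 (.thr 49 13 (.thr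 46 34 (.thr 51 12 (.thr 48 50 (.thr 19 16 (.dbl 3 33 35)))))) (.rp 31 (.str 28 (.nv (.thr 16 19 (.thr 24 20 (.thr 36 39 (.dbl 12 48 51)))) (.nv (.thr 47 32 (.thr 12 51 (.thr 55 4 (.thr 46 34 (.dbl 44 45 60))))) (.rp 55 (.thr 51 12 (.thr 46 34 (.thr 49 13 (.thr 48 50 (.thr 16 19 (.dbl 32 0 47)))))) (.rp 51 (.thr 55 4 (.thr 46 34 (.thr 39 36 (.thr 47 32 (.thr 44 45 (.dbl 35 41 43)))))) (.rp 47 (.str 15 (.nv (.thr 12 51 (.thr 55 4 (.dbl 13 14 49))) (.nv (.thr 39 36 (.dbl 51 12 27)) (.rp 55 (.thr 51 12 (.thr 46 34 (.dbl 39 27 36))) (.rp 51 (.thr 55 4 (.thr 16 19 (.thr 24 20 (.thr 36 39 (.thr 13 49 (.dbl 12 14 48)))))) (.rp 12 (.thr 46 34 (.thr 16 19 (.thr 20 24 (.thr 36 39 (.dbl 4 52 55))))) .nd)))))) (.rp 46 (.thr 12 51 (.thr 55 4 (.thr 44 60 (.thr 36 39 (.dbl 32 40 47))))) (.rp 12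 (.thr 46 34 (.thr 36 39 (.thr 16 19 (.thr 20 24 (.dbl 4 52 55))))) .nd)))))))) (.rp 28 (.str 31 (.nv (.thr 19 16 (.thr 27 23 (.thr 39 36 (.dbl 51 12 15)))) (.nv (.thr 32 47 (.thr 16 19 (.thr 0 48 (.dbl 4 12 55)))) (.rp 55 (.thr 51 12 (.thr 46 34 (.thr 39 36 (.thr 19 16 (.dbl 27 15 23))))) (.rp 51 (.thr 55 4 (.thr 39 36 (.thr 19 16 (.dbl 23 7 27)))) (.rp 46 (.thr 12 51 (.thr 55 4 (.thr 39 36 (.thr 19 16 (.dbl 23 7 27))))) (.rp 19 (.thr 46 34 (.thr 47 32 (.thr 39 36 (.thr 35 43 (.dbl 44 41 45))))) (.rp 16 (.thr 5 53 (.thr 46 34 (.thr 47 32 (.thr 39 36 (.thr 35 43 (.dbl 44 41 45)))))) (.rp 12 (.thr 46 34 (.thr 47 32 (.thr 39 36 (.thr 35 43 (.dbl 44 41 45))))) .nd))))))))) .nd)))))))))) (.rp 18 (.str 30 (.nv (.thr 46 34 (.thr 39 36 (.thr 47 32 (.thr 35 43 (.dbl 44 41 45))))) (.nv (.thr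 32 47 (.thr 36 39 (.thr 40 44 (.thr 24 56 (.dbl 12 48 51))))) (.nv (.thr 13 49 (.thr 46 34 (.thr 14 62 (.dbl 12 15 51)))) (.rp 55 (.thr 51 12 (.thr 46 34 (.thr 47 32 (.thr 44 45 (.thr 39 36 (.dbl 35 41 43)))))) (.rp 51 (.thr 55 4 (.thr 46 34 (.thr 47 32 (.thr 44 45 (.thr 39 36 (.dbl 35 41 43)))))) (.rp 46 (.thr 12 51 (.thr 55 4 (.thr 32 47 (.thr 36 39 (.thr 24 48 (.dbl 40 44 56)))))) .nd))))))) .nd))))))))))))))) .nd))))))))))))))))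

theorem w436 : WinAt (4398082162688, 9223372036926078976) :=
  chF (K := []) kn c436 4398082162688 9223372036926078976 63
    [1145307136] (by decide +kernel) (by decide +kernel)

/-- A certificate. -/
noncomputable def c437 : Ct := (.str 25 (.nv (.thr 8 59 (.thr 0 63 (.thr 12 4 (.thr 17 29 (.dbl 51 34 38))))) (.rp 63 .ext (.rp 59 (.thr 29 17 (.str 13 (.nv (.thr 63 0 (.thr 12 46 (.thr 15 14 (.thr 47 31 (.dbl 37 32 49))))) (.nv (.thr 61 45 (.thr 41 1 (.thr 57 9 (.dbl 49 37 53)))) (.rp 49 (.thr 45 61 (.thr 63 0 (.thr 12 46 (.thr 15 14 (.thr 30 60 (.dbl 31 28 47)))))) (.rp 37 (.thr 45 61 (.thr 63 0 (.thr 12 46 (.thr 15 14 (.thr 30 60 (.dbl 31 28 47)))))) (.rp 30 (.str 18 (.nv (.thr 45 61 (.thr 63 0 (.thr 46 12 (.thr 47 44 (.dbl 37 32 49))))) (.nv (.thr 37 49 (.thr 47 32 (.thr 63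 0 (.thr 12 46 (.dbl 15 14 31))))) (.nv (.thr 37 49 (.thr 5 53 (.thr 1 9 (.dbl 61 41 45)))) (.rp 49 (.thr 0 63 (.thr 61 45 (.thr 1 41 (.thr 9 5 (.thr 3 2 (.thr 12 6 (.thr 4 8 (.dbl 38 51 55)))))))) (.rp 37 (.thr 63 0 (.thr 12 46 (.thr 51 38 (.thr 61 45 (.thr 41 1 (.thr 57 9 (.dbl 60 54 62))))))) .nd)))))) (.rp 18 (.str 30 (.nv (.thr 31 28 (.thr 63 0 (.thr 12 46 (.dbl 15 14 47)))) (.nv (.thr 37 49 (.thr 5 53 (.thr 61 45 (.dbl 1 9 41)))) (.rp 19 (.str 16 (.nv (.thr 37 49 (.thr 5 53 (.thr 61 45 (.dbl 1 9 41)))) (.nv (.thr 45 61 (.thr 15 60 (.thr 12 14 (.dbl 63 0 46)))) (.nv (.thr 37 49 (.thr 32 47 (.dbl 0 48 63))) .nd)))) (.rp 16 (.str 19 (.nv (.thr 31 28 (.thr 63 0 (.thr 12 46 (.dbl 15 14 47)))) (.nv (.thr 37 49 (.thr 5 53 (.thr 61 45 (.dbl 1 9 41)))) .nd))) .nd))))) .nd)))))))) (.rp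 55 (.thr 8 59 (.thr 17 29 (.thr 0 63 (.thr 51 34 (.dbl 12 4 38))))) (.rp 51 (.thr 17 29 (.str 1 (.nv (.thr 49 33 (.thr 13 37 (.thr 41 61 (.dbl 9 5 57)))) (.nv (.thr 0 63 (.thr 3 2 (.thr 41 61 (.thr 9 57 (.thr 12 6 (.dbl 8 4 59)))))) (.nv (.thr 49 33 (.thr 37 13 (.thr 53 5 (.dbl 61 41 57)))) (.rp 61 (.thr 49 33 (.thr 0 63 (.thr 3 2 (.thr 13 37 (.thr 9 5 (.thr 12 6 (.dbl 8 4 59))))))) (.rp 57 (.thr 49 33 (.thr 0 63 (.thr 3 2 (.thr 13 37 (.thr 9 5 (.thr 12 6 (.dbl 8 4 59))))))) (.rp 49 (.thr 59 8 (.thr 0 63 (.thr 3 2 (.thr 41 61 (.thr 43 40 (.thr 11 27 (.thr 15 7 (.thr 5 10 (.dbl 9 13 57))))))))) (.rp 41 (.thr 49 33 (.thr 59 8 (.thr 63 0 (.thr 37 13 (.thr 53 5 (.thr 58 48 (.dbl 57 56 61))))))) (.rp 30 (.str 18 (.nv (.thr 0 63 (.thr 3 2 (.thr 16 19 (.dbl 48 32 33)))) (.nv (.thr 49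 33 (.thr 37 13 (.thr 53 5 (.dbl 61 41 57)))) (.rp 33 (.thr 0 63 (.thr 3 2 (.thr 41 61 (.thr 9 57 (.thr 12 6 (.dbl 8 4 59)))))) (.rp 31 (.str 28 (.nv (.thr 0 63 (.thr 3 2 (.thr 16 19 (.dbl 48 32 33)))) (.nv (.thr 49 33 (.thr 37 13 (.thr 53 5 (.dbl 61 41 57)))) (.rp 33 (.thr 16 19 (.thr 24 20 (.thr 8 59 (.thr 41 61 (.dbl 40 43 56))))) .nd)))) (.rp 28 (.str 31 (.nv (.thr 0 63 (.thr 3 2 (.thr 16 19 (.dbl 48 32 33)))) (.nv (.thr 49 33 (.thr 37 13 (.thr 53 5 (.dbl 61 41 57)))) (.rp 33 (.thr 19 16 (.thr 27 23 (.thr 59 8 (.thr 43 11 (.dbl 41 40 61))))) .nd)))) .nd)))))) (.rp 18 (.str 30 (.nv (.thr 49 33 (.thr 13 37 (.thr 41 61 (.dbl 9 5 57)))) (.nv (.thr 0 63 (.thr 3 2 (.thr 41 61 (.thr 9 57 (.thr 12 6 (.dbl 8 4 59)))))) (.nv (.thr 49 33 (.thr 37 13 (.thr 53 5 (.dbl 61 41 57)))) (.rp 61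 (.thr 0 63 (.thr 3 2 (.thr 49 33 (.thr 13 37 (.thr 9 5 (.thr 12 6 (.dbl 8 4 59))))))) (.rp 57 (.thr 0 63 (.thr 41 61 (.thr 40 43 (.thr 60 20 (.thr 45 15 (.dbl 33 37 49)))))) (.rp 49 (.thr 0 63 (.thr 3 2 (.thr 59 8 (.thr 41 61 (.thr 43 40 (.thr 11 27 (.thr 15 7 (.thr 5 10 (.dbl 9 13 57))))))))) (.rp 41 (.thr 63 0 (.thr 49 33 (.thr 37 13 (.thr 47 32 (.thr 15 31 (.thr 53 5 (.thr 61 57 (.dbl 60 45 62)))))))) (.rp 13 (.thr 0 63 (.thr 33 49 (.thr 41 61 (.thr 45 37 (.thr 40 43 (.dbl 60 15 20)))))) (.rp 3 (.thr 41 61 (.thr 9 57 (.thr 13 5 (.dbl 49 33 37)))) .nd)))))))))) (.rp 13 (.thr 33 49 (.thr 59 8 (.thr 0 63 (.thr 3 2 (.thr 41 61 (.thr 45 37 (.thr 57 9 (.thr 56 58 (.thr 40 43 (.thr 60 20 (.dbl 48 18 52))))))))))) .nd)))))))))))) (.rp 38 .ext (.rp 34 (.thr 59 8 (.thr 63 0 (.thr 29 17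 (.thr 51 55 (.dbl 12 38 46))))) (.rp 30 (.str 18 (.nv (.thr 0 63 (.thr 17 29 (.thr 16 19 (.thr 48 32 (.thr 3 33 (.thr 2 1 (.dbl 34 50 51))))))) (.nv (.thr 59 8 (.thr 63 0 (.thr 51 55 (.thr 29 17 (.dbl 12 38 46))))) (.rp 63 (.str 51 (.nv (.thr 8 59 (.thr 12 38 (.thr 0 4 (.dbl 17 29 34)))) (.nv (.thr 17 29 (.thr 34 0 (.dbl 38 12 46))) (.rp 38 (.thr 17 29 (.thr 19 16 (.thr 3 35 (.thr 48 33 (.thr 50 49 (.dbl 34 0 2)))))) (.rp 34 (.thr 8 59 (.thr 17 29 (.thr 19 16 (.thr 3 35 (.thr 33 48 (.thr 1 49 (.thr 0 2 (.dbl 12 4 38)))))))) (.rp 29 (.thr 8 59 (.thr 12 38 (.thr 0 4 (.thr 17 34 (.thr 19 16 (.thr 3 35 (.thr 33 48 (.dbl 1 2 49)))))))) (.rp 17 (.str 49 (.nv (.thr 37 13 (.thr 50 48 (.thr 53 5 (.thr 34 2 (.dbl 38 12 46))))) (.nv (.thr 50 48 (.thr 34 2 (.dbl 38 12 46))) (.rp 53 (.thr 48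 50 (.thr 33 3 (.thr 37 13 (.thr 32 47 (.thr 34 35 (.dbl 38 12 46)))))) (.rp 50 (.thr 37 13 (.thr 53 5 (.thr 57 61 (.thr 38 12 (.thr 55 4 (.dbl 54 52 60)))))) (.rp 48 (.thr 37 13 (.thr 53 5 (.thr 57 61 (.thr 38 12 (.thr 55 4 (.dbl 54 52 60)))))) (.rp 46 (.thr 48 50 (.thr 33 3 (.thr 37 13 (.thr 53 5 (.thr 57 61 (.dbl 41 9 45)))))) (.rp 38 (.thr 50 48 (.thr 59 8 (.thr 37 13 (.thr 53 5 (.thr 57 61 (.thr 58 56 (.dbl 54 60 62))))))) (.rp 37 (.thr 48 50 (.thr 3 33 (.thr 35 19 (.thr 38 12 (.thr 41 44 (.thr 57 9 (.dbl 61 1 53))))))) (.rp 34 (.thr 48 50 (.thr 33 3 (.thr 37 13 (.thr 53 5 (.thr 57 61 (.dbl 41 9 45)))))) (.rp 12 (.thr 48 50 (.thr 33 3 (.thr 37 13 (.thr 53 5 (.thr 57 61 (.dbl 41 9 45)))))) (.rp 2 (.thr 48 50 (.thr 33 3 (.thr 37 13 (.thr 53 5 (.thr 57 61 (.dbl 41 9 45)))))) .nd))))))))))))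 (.rp 12 (.str 34 (.nv (.dbl 17 0 29) (.rp 46 (.thr 29 17 (.thr 50 2 (.thr 49 48 (.thr 59 8 (.thr 37 13 (.thr 53 5 (.thr 57 61 (.thr 58 56 (.dbl 54 60 62))))))))) (.rp 29 (.thr 46 38 (.thr 50 2 (.thr 48 49 (.thr 33 3 (.thr 32 35 (.dbl 0 16 17)))))) (.rp 17 (.thr 50 2 (.thr 49 48 (.thr 59 8 (.thr 37 13 (.thr 53 5 (.thr 57 61 (.thr 58 56 (.dbl 54 60 62)))))))) (.rp 0 (.thr 50 2 (.thr 48 49 (.thr 3 33 (.thr 19 35 (.dbl 17 16 29))))) .nd)))))) (.rp 0 (.thr 17 29 (.thr 19 16 (.thr 3 35 (.thr 48 33 (.thr 50 49 (.thr 34 2 (.dbl 38 12 46))))))) .nd))))))))) (.rp 51 (.thr 0 63 (.thr 17 29 (.thr 16 19 (.thr 32 48 (.thr 37 47 (.thr 53 5 (.thr 49 13 (.thr 1 33 (.dbl 61 41 57))))))))) (.rp 46 (.thr 8 59 (.thr 0 63 (.thr 17 29 (.thr 12 4 (.dbl 51 34 38))))) (.rp 29 (.thr 8 59 (.thr 0 63 (.thr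 12 4 (.thr 51 38 (.thr 17 34 (.thr 19 16 (.thr 3 35 (.thr 33 48 (.dbl 1 2 49))))))))) (.rp 17 (.str 4 (.nv (.thr 0 63 (.dbl 8 12 59)) (.rp 63 (.thr 8 59 (.thr 12 0 (.dbl 38 51 55))) (.rp 59 (.thr 0 63 (.thr 12 8 (.dbl 38 51 55))) (.rp 12 (.thr 63 0 (.thr 59 8 (.dbl 55 38 51))) (.rp 8 (.thr 0 63 (.thr 38 55 (.thr 34 46 (.thr 2 50 (.thr 3 1 (.thr 33 48 (.thr 35 32 (.dbl 51 12 19)))))))) (.rp 0 (.thr 38 55 (.thr 34 46 (.thr 51 12 (.thr 50 2 (.thr 49 48 (.thr 37 13 (.thr 36 39 (.thr 32 47 (.thr 35 33 (.dbl 44 40 41)))))))))) .nd))))))) (.rp 12 (.str 49 (.nv (.thr 17 29 (.thr 16 19 (.thr 33 1 (.thr 48 3 (.dbl 0 32 63))))) (.nv (.thr 0 63 (.thr 37 13 (.thr 32 47 (.thr 48 16 (.thr 50 51 (.thr 34 2 (.dbl 33 3 35))))))) (.nv (.thr 13 37 (.thr 29 17 (.thr 61 45 (.thr 41 1 (.dbl 57 9 53)))))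 (.rp 48 (.thr 17 29 (.thr 1 33 (.thr 41 61 (.thr 9 57 (.dbl 13 5 37))))) (.rp 29 (.thr 63 0 (.thr 37 13 (.thr 53 5 (.thr 48 58 (.thr 51 50 (.dbl 59 8 55)))))) .nd)))))) (.rp 0 (.str 51 (.nv (.thr 59 8 (.thr 55 63 (.dbl 38 4 12))) (.rp 63 (.thr 17 29 (.thr 19 16 (.thr 3 35 (.thr 48 33 (.thr 50 49 (.thr 34 2 (.dbl 38 12 46))))))) (.rp 59 (.thr 17 29 (.thr 19 16 (.thr 3 35 (.thr 48 33 (.thr 50 49 (.thr 34 2 (.dbl 38 12 46))))))) (.rp 55 (.thr 17 29 (.thr 19 16 (.thr 3 35 (.thr 48 33 (.thr 50 49 (.thr 34 2 (.dbl 38 12 46))))))) (.rp 38 (.thr 59 8 (.thr 63 55 (.thr 17 29 (.thr 19 16 (.thr 3 35 (.thr 48 33 (.thr 53 58 (.thr 37 5 (.dbl 49 13 50))))))))) (.rp 12 (.thr 17 29 (.thr 19 16 (.thr 3 35 (.thr 48 33 (.thr 49 50 (.thr 37 13 (.thr 53 5 (.thr 63 58 (.dbl 59 8 55))))))))) (.rp 8 (.thr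 17 29 (.thr 19 16 (.thr 3 35 (.thr 48 33 (.thr 50 49 (.thr 34 2 (.dbl 38 12 46))))))) (.rp 4 (.thr 59 8 (.thr 12 38 (.thr 63 55 (.dbl 29 17 46)))) .nd))))))))) .nd)))))))))) (.rp 29 (.thr 63 0 (.str 43 (.nv (.thr 41 40 (.thr 57 9 (.thr 59 8 (.thr 51 55 (.thr 60 54 (.dbl 61 1 62)))))) (.nv (.thr 3 23 (.thr 41 40 (.thr 9 57 (.thr 12 6 (.thr 38 51 (.thr 44 35 (.thr 61 1 (.dbl 60 28 62)))))))) (.nv (.thr 3 23 (.thr 59 8 (.thr 51 55 (.thr 35 19 (.thr 39 47 (.dbl 27 11 15)))))) (.rp 51 (.thr 59 8 (.thr 41 40 (.thr 57 9 (.thr 61 1 (.thr 53 49 (.dbl 58 48 56)))))) (.rp 30 (.str 18 (.nv (.thr 41 40 (.thr 57 9 (.thr 59 8 (.thr 51 55 (.thr 60 54 (.dbl 61 1 62)))))) (.nv (.thr 3 23 (.thr 59 8 (.thr 51 55 (.thr 35 19 (.thr 39 47 (.dbl 27 11 15)))))) (.nv (.thr 3 23 (.thr 41 40 (.thr 48 33 (.thr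 53 58 (.thr 57 9 (.dbl 61 1 49)))))) (.rp 31 (.str 28 (.nv (.thr 3 23 (.thr 59 8 (.thr 27 11 (.thr 51 55 (.thr 35 19 (.dbl 39 15 47)))))) (.nv (.thr 3 23 (.thr 33 48 (.thr 41 40 (.thr 1 61 (.thr 49 17 (.dbl 37 13 45)))))) (.nv (.thr 59 8 (.thr 51 55 (.thr 12 38 (.thr 60 44 (.thr 61 62 (.dbl 41 1 40)))))) (.nv (.thr 41 40 (.thr 3 23 (.thr 48 33 (.thr 58 53 (.thr 57 9 (.dbl 59 8 56)))))) (.rp 41 (.thr 3 23 (.thr 48 33 (.thr 53 58 (.thr 59 8 (.thr 51 55 (.thr 49 50 (.dbl 37 5 13))))))) .nd)))))) (.rp 28 (.str 31 (.nv (.thr 59 8 (.thr 27 11 (.dbl 23 3 19))) (.nv (.thr 15 47 (.thr 59 8 (.thr 27 11 (.dbl 51 39 55)))) (.nv (.thr 3 23 (.thr 33 48 (.thr 41 40 (.thr 37 45 (.dbl 47 15 32))))) (.nv (.thr 3 23 (.thr 59 8 (.thr 11 27 (.dbl 15 7 47)))) .nd))))) .nd)))))) (.rp 18 (.str 30 (.nv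 (.thr 3 23 (.thr 41 40 (.thr 9 57 (.thr 12 6 (.thr 38 51 (.thr 44 35 (.thr 60 28 (.dbl 61 1 62)))))))) (.nv (.thr 41 40 (.thr 57 9 (.thr 59 8 (.thr 61 1 (.thr 53 49 (.dbl 58 48 56)))))) (.nv (.thr 3 23 (.thr 59 8 (.thr 51 55 (.thr 35 19 (.thr 39 47 (.dbl 27 11 15)))))) (.nv (.thr 3 23 (.thr 41 40 (.thr 9 57 (.thr 12 6 (.thr 59 8 (.dbl 51 38 55)))))) (.rp 12 (.thr 41 40 (.thr 57 9 (.thr 61 1 (.thr 60 62 (.thr 51 54 (.dbl 59 8 55)))))) (.rp 3 (.thr 41 40 (.thr 57 9 (.thr 59 8 (.thr 51 55 (.thr 60 54 (.dbl 61 1 62)))))) .nd))))))) (.rp 12 (.thr 41 40 (.thr 57 9 (.thr 61 1 (.thr 53 49 (.thr 58 48 (.dbl 59 8 56)))))) .nd))))))))) (.rp 18 (.str 30 (.nv (.thr 29 17 (.thr 28 31 (.thr 63 0 (.thr 12 46 (.thr 60 44 (.thr 45 15 (.dbl 61 13 62))))))) (.nv (.thr 8 59 (.thr 0 63 (.thr 12 4 (.thr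 17 29 (.dbl 51 34 38))))) (.rp 63 (.str 12 (.nv (.thr 8 59 (.thr 4 0 (.dbl 38 51 55))) (.rp 59 (.thr 29 17 (.thr 28 31 (.thr 60 44 (.thr 15 45 (.thr 14 13 (.thr 46 62 (.dbl 38 34 51))))))) (.rp 55 (.thr 8 59 (.thr 51 38 (.thr 0 4 (.dbl 17 29 34)))) (.rp 51 (.thr 29 17 (.thr 28 31 (.thr 60 44 (.thr 15 45 (.thr 13 14 (.thr 37 49 (.thr 5 53 (.thr 0 10 (.dbl 8 4 59))))))))) (.rp 38 (.thr 8 59 (.thr 0 4 (.thr 29 17 (.thr 28 31 (.thr 60 44 (.thr 15 45 (.thr 5 10 (.thr 37 53 (.dbl 13 14 49))))))))) (.rp 8 (.thr 29 17 (.thr 28 31 (.thr 60 44 (.thr 15 45 (.thr 14 13 (.thr 46 62 (.dbl 38 34 51))))))) (.rp 4 (.thr 29 17 (.thr 28 31 (.thr 60 44 (.thr 15 45 (.thr 14 13 (.thr 46 62 (.dbl 38 34 51))))))) (.rp 0 (.thr 29 17 (.thr 28 31 (.thr 60 44 (.thr 15 45 (.thr 14 13 (.thr 46 62 (.dbl 38 34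 51))))))) .nd))))))))) (.rp 51 (.str 13 (.nv (.thr 29 17 (.thr 31 28 (.thr 45 61 (.thr 15 60 (.dbl 63 0 47))))) (.nv (.thr 0 63 (.thr 37 49 (.thr 5 53 (.thr 15 10 (.thr 12 14 (.dbl 8 4 59)))))) (.nv (.thr 29 17 (.thr 28 31 (.thr 45 61 (.thr 60 15 (.thr 12 44 (.dbl 63 0 46)))))) (.nv (.thr 17 29 (.thr 49 37 (.thr 1 33 (.thr 41 61 (.dbl 9 5 57))))) (.rp 61 (.thr 63 0 (.thr 37 49 (.thr 47 32 (.thr 31 15 (.dbl 29 17 28))))) (.rp 15 (.thr 29 17 (.thr 61 45 (.thr 41 1 (.thr 57 9 (.dbl 49 37 53))))) .nd))))))) (.rp 34 (.thr 59 8 (.thr 63 0 (.thr 29 17 (.thr 51 55 (.dbl 12 38 46))))) (.rp 29 (.str 55 (.nv (.thr 63 0 (.dbl 59 8 51)) (.rp 63 (.thr 38 4 (.thr 46 34 (.thr 12 51 (.thr 14 62 (.thr 13 15 (.thr 37 49 (.thr 39 36 (.thr 47 32 (.thr 44 45 (.dbl 35 41 43)))))))))) (.rp 59 (.thr 63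 0 (.thr 38 4 (.thr 46 34 (.thr 62 14 (.thr 60 61 (.thr 45 15 (.thr 44 47 (.dbl 12 28 51)))))))) (.rp 51 (.thr 0 63 (.thr 8 59 (.dbl 4 12 38))) (.rp 8 (.thr 63 0 (.thr 51 59 (.dbl 38 4 12))) (.rp 0 (.thr 59 8 (.thr 51 63 (.dbl 38 4 12))) .nd))))))) (.rp 17 (.thr 59 8 (.thr 63 0 (.thr 51 55 (.thr 12 38 (.thr 29 46 (.thr 28 31 (.thr 60 44 (.thr 45 15 (.dbl 61 13 62))))))))) (.rp 12 (.thr 63 0 (.thr 29 17 (.thr 31 28 (.thr 47 15 (.thr 37 32 (.thr 5 53 (.thr 13 49 (.thr 61 45 (.dbl 1 9 41))))))))) (.rp 0 (.str 12 (.nv (.thr 51 38 (.thr 59 8 (.thr 63 55 (.dbl 29 17 46)))) (.nv (.thr 29 17 (.thr 46 63 (.dbl 38 34 51))) (.rp 63 (.thr 29 17 (.thr 28 31 (.thr 60 44 (.thr 15 45 (.thr 14 13 (.thr 46 62 (.dbl 38 34 51))))))) (.rp 51 (.str 46 (.nv (.dbl 29 17 63) (.rp 63 (.thr 14 62 (.thr 15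 13 (.thr 60 45 (.thr 28 44 (.dbl 29 17 31))))) (.rp 34 (.thr 17 29 (.thr 14 62 (.thr 13 15 (.thr 8 59 (.thr 37 49 (.thr 5 53 (.thr 9 1 (.thr 10 11 (.dbl 6 2 3))))))))) (.rp 29 (.thr 14 62 (.thr 13 15 (.thr 8 59 (.thr 37 49 (.thr 5 53 (.thr 9 1 (.thr 10 11 (.dbl 6 2 3)))))))) (.rp 17 (.thr 34 38 (.thr 14 62 (.thr 15 13 (.thr 45 60 (.thr 47 44 (.dbl 63 29 31)))))) .nd)))))) (.rp 46 (.thr 59 8 (.thr 29 17 (.thr 28 31 (.thr 60 44 (.thr 45 15 (.thr 61 13 (.thr 63 62 (.dbl 51 38 55)))))))) (.rp 38 (.thr 29 17 (.thr 28 31 (.thr 60 44 (.thr 15 45 (.thr 14 13 (.dbl 46 62 63)))))) (.rp 29 (.str 13 (.nv (.thr 37 49 (.thr 5 53 (.thr 14 15 (.thr 46 62 (.dbl 38 34 51))))) (.nv (.thr 14 15 (.thr 46 62 (.dbl 38 34 51))) (.rp 62 (.thr 15 14 (.thr 45 60 (.thr 37 49 (.thr 5 53 (.thr 9 1 (.dbl 41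 33 57)))))) (.rp 51 (.thr 15 14 (.thr 45 60 (.thr 37 49 (.thr 5 53 (.thr 9 1 (.dbl 41 33 57)))))) (.rp 46 (.thr 15 14 (.thr 45 60 (.thr 37 49 (.thr 5 53 (.thr 9 1 (.dbl 41 33 57)))))) (.rp 38 (.thr 14 15 (.thr 8 59 (.thr 37 49 (.thr 5 53 (.thr 9 1 (.thr 10 11 (.dbl 6 2 3))))))) (.rp 37 (.thr 15 14 (.thr 60 45 (.thr 44 28 (.thr 38 51 (.thr 41 35 (.thr 9 57 (.dbl 1 5 61))))))) (.rp 34 (.thr 15 14 (.thr 45 60 (.thr 37 49 (.thr 5 53 (.thr 9 1 (.dbl 41 33 57)))))) (.rp 15 (.thr 37 49 (.thr 5 53 (.thr 9 1 (.thr 38 51 (.thr 4 55 (.dbl 6 3 7)))))) (.rp 14 (.thr 37 49 (.thr 5 53 (.thr 9 1 (.thr 38 51 (.thr 4 55 (.dbl 6 3 7)))))) (.rp 5 (.thr 15 14 (.thr 45 60 (.thr 37 49 (.thr 47 32 (.thr 46 44 (.dbl 38 34 51)))))) .nd)))))))))))) (.rp 17 (.thr 59 8 (.thr 51 38 (.thr 63 55 (.thr 29 46 (.thr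 28 31 (.thr 60 44 (.thr 45 15 (.dbl 61 13 62)))))))) .nd))))))))) .nd)))))))))) (.rp 17 (.thr 0 63 (.str 40 (.nv (.thr 8 59 (.thr 41 43 (.thr 1 61 (.thr 9 57 (.thr 5 13 (.dbl 10 11 15)))))) (.nv (.thr 41 43 (.thr 1 61 (.thr 3 2 (.thr 9 57 (.thr 12 6 (.dbl 8 4 59)))))) (.nv (.thr 60 20 (.thr 8 59 (.thr 12 4 (.thr 44 28 (.thr 36 32 (.dbl 24 48 56)))))) (.rp 60 (.thr 8 59 (.thr 12 4 (.thr 41 43 (.thr 9 57 (.thr 3 6 (.dbl 1 2 61)))))) (.rp 59 (.thr 41 43 (.thr 9 57 (.thr 1 61 (.thr 3 2 (.thr 12 6 (.thr 4 8 (.dbl 38 51 55))))))) (.rp 30 (.str 18 (.nv (.thr 8 59 (.thr 41 43 (.thr 1 61 (.thr 9 57 (.thr 5 13 (.dbl 10 11 15)))))) (.nv (.thr 8 59 (.thr 12 4 (.thr 60 20 (.thr 44 28 (.thr 36 32 (.dbl 24 48 56)))))) (.nv (.thr 41 43 (.thr 57 9 (.thr 60 20 (.thr 8 59 (.thr 51 54 (.dbl 12 4 38))))))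 (.rp 60 (.thr 41 43 (.thr 9 57 (.thr 8 59 (.thr 12 4 (.thr 3 6 (.dbl 1 2 61)))))) (.rp 59 (.thr 41 43 (.thr 9 57 (.thr 1 61 (.thr 3 2 (.thr 33 48 (.thr 37 45 (.dbl 5 13 53))))))) (.rp 51 (.thr 41 43 (.thr 9 57 (.thr 1 61 (.thr 3 2 (.thr 12 6 (.dbl 8 4 59)))))) (.rp 8 (.thr 41 43 (.thr 9 57 (.thr 1 61 (.thr 3 2 (.thr 33 48 (.thr 37 45 (.dbl 5 13 53))))))) .nd)))))))) (.rp 18 (.str 30 (.nv (.thr 41 43 (.thr 9 57 (.thr 8 59 (.thr 12 4 (.thr 3 6 (.dbl 1 2 61)))))) (.nv (.thr 60 20 (.thr 8 59 (.thr 12 4 (.thr 44 28 (.thr 36 32 (.dbl 24 48 56)))))) (.nv (.thr 41 43 (.thr 9 57 (.thr 60 20 (.thr 15 45 (.thr 5 10 (.dbl 1 13 61)))))) (.rp 19 (.str 16 (.nv (.thr 8 59 (.thr 12 4 (.thr 24 56 (.dbl 48 32 36)))) (.nv (.thr 8 59 (.thr 4 12 (.thr 32 48 (.thr 36 44 (.dbl 20 52 60))))) (.nv (.thr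 20 60 (.thr 24 28 (.dbl 8 56 59))) (.nv (.thr 60 20 (.thr 8 59 (.thr 56 24 (.dbl 48 32 52)))) (.rp 59 (.thr 60 20 (.thr 32 48 (.thr 37 47 (.thr 15 45 (.dbl 5 10 53))))) (.rp 8 (.thr 60 20 (.thr 32 48 (.thr 37 47 (.thr 15 45 (.dbl 5 10 53))))) .nd))))))) (.rp 16 (.str 19 (.nv (.thr 41 43 (.thr 1 61 (.thr 3 2 (.thr 9 57 (.thr 12 6 (.dbl 51 35 38)))))) (.nv (.thr 8 59 (.thr 12 4 (.thr 24 56 (.thr 60 20 (.thr 44 28 (.dbl 36 32 48)))))) (.nv (.thr 8 59 (.thr 12 4 (.thr 51 38 (.thr 3 35 (.thr 1 2 (.dbl 41 43 61)))))) (.nv (.thr 41 43 (.thr 60 20 (.thr 15 45 (.thr 10 5 (.thr 9 57 (.dbl 8 11 59)))))) (.rp 41 (.thr 60 20 (.thr 15 45 (.thr 5 10 (.thr 8 59 (.thr 12 4 (.thr 13 14 (.dbl 37 49 53))))))) .nd)))))) .nd)))))) (.rp 8 (.thr 60 20 (.thr 41 43 (.thr 57 9 (.thr 1 61 (.thr 51 54 (.thr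 38 12 (.thr 35 44 (.dbl 3 2 19)))))))) .nd)))))))))) (.rp 12 (.thr 29 17 (.str 61 (.nv (.thr 13 45 (.thr 41 1 (.thr 49 37 (.dbl 57 9 53)))) (.nv (.thr 13 45 (.thr 37 49 (.thr 5 53 (.dbl 1 9 41)))) (.rp 53 (.thr 63 0 (.thr 60 62 (.thr 41 1 (.thr 57 9 (.thr 51 54 (.dbl 59 8 55)))))) (.rp 49 (.thr 45 13 (.thr 8 59 (.thr 63 0 (.thr 60 62 (.thr 41 1 (.thr 33 37 (.thr 9 57 (.thr 11 10 (.thr 43 40 (.thr 3 23 (.dbl 15 7 30))))))))))) (.rp 45 (.thr 63 0 (.thr 60 62 (.thr 41 1 (.thr 57 9 (.thr 51 54 (.dbl 59 8 55)))))) (.rp 41 (.thr 13 45 (.thr 8 59 (.thr 0 63 (.thr 37 49 (.thr 5 53 (.thr 10 15 (.dbl 9 1 11))))))) (.rp 37 (.thr 63 0 (.thr 60 62 (.thr 41 1 (.thr 57 9 (.thr 51 54 (.dbl 59 8 55)))))) (.rp 30 (.str 18 (.nv (.thr 13 45 (.thr 41 1 (.thr 49 37 (.dbl 57 9 53)))) (.nv (.thr 41 1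 (.thr 57 9 (.thr 49 53 (.dbl 13 37 45)))) (.nv (.thr 13 45 (.thr 37 49 (.thr 5 53 (.dbl 1 9 41)))) (.rp 53 (.thr 63 0 (.thr 60 62 (.thr 41 1 (.thr 57 9 (.thr 51 54 (.dbl 59 8 55)))))) (.rp 49 (.thr 63 0 (.thr 45 13 (.thr 41 1 (.thr 33 37 (.thr 43 40 (.dbl 3 23 48)))))) (.rp 45 (.thr 63 0 (.thr 60 62 (.thr 41 1 (.thr 57 9 (.thr 51 54 (.dbl 59 8 55)))))) (.rp 41 (.thr 0 63 (.thr 13 45 (.thr 37 49 (.thr 32 47 (.thr 48 16 (.thr 5 53 (.thr 1 9 (.dbl 3 2 33)))))))) (.rp 37 (.thr 63 0 (.thr 60 62 (.thr 41 1 (.thr 57 9 (.thr 51 54 (.dbl 59 8 55)))))) (.rp 13 (.thr 63 0 (.thr 60 62 (.thr 8 59 (.thr 41 1 (.thr 40 43 (.thr 56 24 (.thr 48 52 (.thr 53 58 (.dbl 57 9 49))))))))) (.rp 9 (.thr 63 0 (.thr 41 1 (.thr 43 40 (.thr 3 23 (.thr 33 48 (.dbl 45 13 37)))))) (.rp 1 (.thr 63 0 (.thr 60 62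 (.thr 13 45 (.thr 49 37 (.thr 57 53 (.thr 51 54 (.dbl 59 8 55))))))) .nd)))))))))))) (.rp 18 (.str 30 (.nv (.thr 31 28 (.thr 63 0 (.thr 15 47 (.dbl 60 45 62)))) (.nv (.thr 13 45 (.thr 37 49 (.thr 5 53 (.dbl 1 9 41)))) (.rp 45 (.thr 63 0 (.thr 60 62 (.thr 41 1 (.thr 57 9 (.thr 51 54 (.dbl 59 8 55)))))) (.rp 19 (.str 16 (.nv (.thr 31 28 (.thr 63 0 (.thr 15 47 (.dbl 60 45 62)))) (.nv (.thr 13 45 (.thr 37 49 (.thr 5 53 (.dbl 1 9 41)))) (.rp 45 (.thr 28 31 (.thr 24 20 (.thr 8 59 (.thr 40 56 (.dbl 41 1 43))))) .nd)))) (.rp 16 (.str 19 (.nv (.thr 31 28 (.thr 63 0 (.thr 15 47 (.dbl 60 45 62)))) (.nv (.thr 13 45 (.thr 37 49 (.thr 5 53 (.dbl 1 9 41)))) (.rp 45 (.thr 31 28 (.thr 27 23 (.thr 59 8 (.thr 41 1 (.dbl 43 11 40))))) .nd)))) .nd)))))) (.rp 13 (.thr 8 59 (.thr 63 0 (.thr 60 62 (.thr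 41 1 (.thr 40 43 (.thr 56 24 (.thr 48 52 (.thr 53 58 (.dbl 57 9 49))))))))) (.rp 9 (.thr 13 45 (.thr 63 0 (.thr 60 62 (.thr 49 37 (.thr 57 53 (.thr 51 54 (.dbl 59 8 55))))))) (.rp 1 (.thr 13 45 (.thr 63 0 (.thr 60 62 (.thr 49 37 (.thr 57 53 (.thr 51 54 (.dbl 59 8 55))))))) .nd)))))))))))))) (.rp 8 (.thr 17 29 (.str 49 (.nv (.thr 0 63 (.thr 37 13 (.thr 32 47 (.thr 48 16 (.dbl 51 34 50))))) (.nv (.thr 0 63 (.thr 33 1 (.thr 51 34 (.thr 48 50 (.thr 16 32 (.dbl 18 3 19)))))) (.nv (.thr 1 33 (.thr 41 61 (.thr 9 57 (.dbl 13 5 37)))) (.rp 30 (.str 18 (.nv (.thr 0 63 (.thr 16 19 (.thr 48 32 (.dbl 51 34 50)))) (.nv (.thr 1 33 (.thr 37 13 (.thr 53 5 (.dbl 61 41 57)))) (.rp 31 (.str 28 (.nv (.thr 0 63 (.thr 16 19 (.thr 48 32 (.dbl 51 34 50)))) (.nv (.thr 1 33 (.thr 37 13 (.thr 53 5 (.dbl 61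 41 57)))) .nd))) (.rp 28 (.str 31 (.nv (.thr 37 13 (.thr 53 5 (.thr 1 33 (.dbl 61 41 57)))) (.nv (.thr 0 63 (.thr 1 33 (.thr 2 3 (.dbl 34 50 51)))) (.nv (.thr 37 13 (.thr 47 32 (.dbl 63 0 15))) .nd)))) .nd))))) (.rp 18 (.str 30 (.nv (.thr 0 63 (.thr 33 1 (.thr 34 51 (.thr 32 35 (.dbl 37 13 47))))) (.nv (.thr 0 63 (.thr 37 13 (.thr 32 47 (.thr 48 16 (.dbl 51 34 50))))) (.nv (.thr 37 13 (.thr 53 5 (.thr 61 57 (.dbl 1 33 41)))) (.rp 37 (.thr 0 63 (.thr 51 34 (.thr 12 38 (.thr 1 33 (.thr 41 61 (.thr 9 57 (.dbl 3 2 6))))))) (.rp 13 (.thr 63 0 (.thr 1 33 (.thr 61 41 (.thr 57 53 (.thr 60 62 (.thr 51 54 (.thr 55 59 (.dbl 38 4 12)))))))) .nd)))))) .nd))))))) (.rp 4 (.thr 59 8 (.thr 29 17 (.thr 63 0 (.thr 12 46 (.dbl 51 38 55))))) (.rp 0 .ext .nd))))))))))))))))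

theorem w437 : WinAt (4398048608256, 71303168) :=
  chF (K := [(4398082162688, 71303169), (4398082162688, 274949210112), (4398082162688, 9223372036926078976)]) (kc w434 (kc w435 (kc w436 kn))) c437 4398048608256 71303168 26
    [1145307136] (by decide +kernel) (by decide +kernel)

end Pool.Agent.TTT.B43
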