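import Pool.Agent.TTT.B43

/-!
Certified forced wins in positions of the 4 x 4 x 4 board.
-/

set_option autoImplicit false
set_option maxRecDepth 1000000
set_option linter.all false

namespace Pool.Agent.TTT.B43

/-- A certificate. -/
noncomputable def c456 : Ct := (.str 25 (.nv (.thr 17 29 (.thr 49 13 (.thr 1 33 (.thr 53 5 (.dbl 61 41 57))))) (.nv (.thr 29 17 (.thr 13 49 (.thr 61 45 (.thr 5 53 (.dbl 1 9 41))))) (.rp 61 (.thr 47 32 (.thr 53 5 (.str 26 (.nv (.thr 15 48 (.thr 16 31 (.thr 27 24 (.thr 39 51 (.thr 43 35 (.dbl 59 8 11)))))) (.nv (.thr 10 58 (.thr 24 27 (.thr 8 59 (.thr 11 9 (.dbl 56 40 41))))) (.rp 59 (.thr 17 29 (.thr 10 58 (.thr 48 15 (.thr 16 31 (.thr 18 19 (.thr 33 3 (.dbl 49 1 13))))))) (.rp 54 (.str 6 (.nv (.thr 10 58 (.thr 8 59 (.thr 11 9 (.thr 24 27 (.dbl 56 40 41)))))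 (.nv (.thr 27 24 (.thr 59 8 (.thr 43 11 (.thr 39 35 (.dbl 15 48 51))))) (.nv (.thr 13 49 (.thr 10 58 (.thr 14 2 (.dbl 15 12 48)))) (.rp 48 (.thr 16 31 (.thr 10 58 (.thr 8 59 (.thr 11 9 (.thr 24 27 (.dbl 56 40 41)))))) (.rp 16 (.thr 48 15 (.thr 10 58 (.thr 8 59 (.thr 11 9 (.thr 24 27 (.dbl 56 40 41)))))) (.rp 10 (.thr 15 48 (.thr 16 31 (.thr 59 8 (.thr 27 24 (.thr 39 51 (.dbl 43 11 35)))))) .nd))))))) (.rp 48 (.thr 16 31 (.thr 10 58 (.thr 24 27 (.thr 8 59 (.thr 11 9 (.dbl 56 40 41)))))) (.rp 41 (.thr 15 48 (.thr 16 31 (.thr 27 24 (.thr 39 51 (.thr 59 8 (.dbl 43 11 35)))))) (.rp 27 (.thr 10 58 (.thr 48 15 (.thr 16 31 (.thr 8 59 (.thr 11 9 (.thr 56 41 (.thr 24 40 (.thr 60 52 (.thr 28 20 (.dbl 12 36 44)))))))))) (.rp 24 (.thr 17 29 (.thr 10 58 (.thr 48 15 (.thr 16 31 (.thr 18 19 (.thr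 33 3 (.dbl 49 1 13))))))) (.rp 16 (.thr 48 15 (.thr 10 58 (.thr 24 27 (.thr 8 59 (.thr 11 9 (.dbl 56 40 41)))))) (.rp 11 (.thr 17 29 (.thr 13 49 (.thr 10 58 (.thr 15 48 (.thr 16 31 (.thr 19 18 (.thr 27 24 (.thr 51 39 (.thr 3 35 (.thr 59 8 (.thr 55 63 (.thr 54 52 (.thr 12 14 (.thr 9 6 (.dbl 57 41 60))))))))))))))) (.rp 8 (.thr 17 29 (.thr 10 58 (.thr 48 15 (.thr 16 31 (.thr 18 19 (.thr 33 3 (.dbl 49 1 13))))))) (.rp 6 (.str 54 (.nv (.thr 10 58 (.thr 8 59 (.thr 24 27 (.thr 56 40 (.dbl 11 9 41))))) (.nv (.thr 59 8 (.thr 55 52 (.thr 63 51 (.dbl 31 15 16)))) (.rp 59 (.thr 49 13 (.thr 10 58 (.thr 48 15 (.thr 51 50 (.thr 52 55 (.dbl 60 56 57)))))) (.rp 48 (.thr 16 31 (.thr 10 58 (.thr 24 27 (.thr 8 59 (.thr 11 9 (.dbl 56 40 41)))))) (.rp 16 (.thr 48 15 (.thr 10 58 (.thr 49 13 (.thr 51 50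 (.thr 59 8 (.dbl 55 52 63)))))) (.rp 10 (.thr 15 48 (.thr 16 31 (.thr 27 24 (.thr 51 39 (.thr 59 8 (.dbl 55 52 63)))))) (.rp 8 (.thr 49 13 (.thr 10 58 (.thr 48 15 (.thr 51 50 (.thr 52 55 (.dbl 60 56 57)))))) (.rp 7 (.str 4 (.nv (.thr 16 31 (.thr 24 27 (.thr 20 28 (.dbl 52 36 55)))) (.nv (.thr 10 58 (.thr 8 59 (.thr 11 9 (.thr 24 27 (.dbl 56 40 41))))) (.nv (.thr 59 8 (.thr 55 52 (.thr 63 51 (.dbl 31 15 16)))) (.rp 16 (.thr 48 15 (.thr 10 58 (.thr 24 27 (.thr 52 55 (.dbl 36 12 20))))) (.rp 10 (.thr 15 48 (.thr 16 31 (.thr 24 27 (.thr 52 55 (.dbl 20 28 36))))) .nd)))))) (.rp 4 (.str 7 (.nv (.thr 27 24 (.thr 55 52 (.thr 39 23 (.dbl 15 48 51)))) (.nv (.thr 8 59 (.thr 10 58 (.thr 15 48 (.thr 16 31 (.dbl 11 3 9))))) (.rp 48 (.thr 16 31 (.thr 10 58 (.thr 24 27 (.thr 8 59 (.thr 11 9 (.dbl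 56 40 41)))))) (.rp 16 (.thr 48 15 (.thr 10 58 (.thr 49 13 (.thr 51 50 (.thr 55 52 (.dbl 59 8 63)))))) (.rp 15 (.thr 10 58 (.thr 27 24 (.thr 55 52 (.thr 23 39 (.dbl 31 16 19))))) (.rp 10 (.thr 15 48 (.thr 16 31 (.thr 11 3 (.thr 27 24 (.dbl 59 8 43))))) (.rp 8 (.str 12 (.nv (.thr 15 48 (.thr 16 31 (.dbl 13 14 49))) (.nv (.thr 24 27 (.dbl 48 15 36)) (.rp 48 (.thr 16 31 (.thr 55 52 (.thr 39 23 (.thr 27 24 (.thr 13 49 (.dbl 15 14 51)))))) (.rp 16 (.thr 48 15 (.thr 10 58 (.dbl 24 27 36))) (.rp 15 (.thr 10 58 (.thr 55 52 (.thr 23 39 (.thr 27 24 (.dbl 31 16 19))))) .nd)))))) .nd)))))))) .nd)))))))))) .nd))))))))))))))) (.rp 54 (.str 6 (.nv (.thr 5 53 (.thr 13 49 (.thr 1 9 (.thr 29 17 (.dbl 61 41 45))))) (.nv (.thr 5 53 (.thr 7 4 (.thr 8 59 (.thr 13 49 (.thr 9 1 (.thr 3 12 (.dbl 11 10 15)))))))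 (.nv (.thr 17 29 (.thr 49 13 (.thr 1 33 (.thr 53 5 (.dbl 61 41 57))))) (.rp 61 (.str 3 (.nv (.thr 8 59 (.thr 9 12 (.thr 11 10 (.thr 7 15 (.dbl 5 4 53))))) (.nv (.thr 13 49 (.thr 9 12 (.dbl 5 1 53))) (.rp 53 (.thr 29 17 (.thr 12 9 (.thr 63 46 (.thr 47 32 (.thr 15 31 (.dbl 13 14 49)))))) (.rp 13 (.thr 5 53 (.thr 8 59 (.thr 7 4 (.thr 11 15 (.dbl 9 10 12))))) (.rp 12 (.thr 5 53 (.thr 8 59 (.thr 7 4 (.thr 11 15 (.thr 9 10 (.dbl 13 1 49)))))) (.rp 9 (.thr 5 53 (.thr 7 4 (.thr 15 11 (.thr 47 32 (.thr 31 63 (.dbl 26 16 48)))))) (.rp 8 (.thr 5 53 (.thr 4 7 (.thr 9 12 (.dbl 13 1 49)))) (.rp 5 (.thr 29 17 (.thr 13 49 (.thr 12 9 (.thr 15 14 (.thr 63 46 (.dbl 47 31 32)))))) (.rp 4 (.thr 13 49 (.thr 8 59 (.thr 9 12 (.dbl 5 1 53)))) .nd)))))))))) (.rp 57 (.thr 29 17 (.thr 13 49 (.thr 5 53 (.thr 61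 45 (.dbl 1 9 41))))) (.rp 53 (.thr 29 17 (.thr 13 49 (.thr 61 45 (.thr 1 41 (.thr 9 5 (.thr 8 59 (.thr 10 11 (.thr 14 2 (.dbl 12 3 15))))))))) (.rp 49 (.str 3 (.nv (.thr 5 53 (.thr 8 59 (.thr 9 12 (.thr 1 13 (.dbl 41 57 61))))) (.nv (.thr 5 53 (.thr 7 4 (.thr 15 11 (.thr 47 32 (.thr 31 63 (.dbl 26 16 48)))))) (.nv (.thr 9 12 (.thr 8 59 (.thr 11 10 (.thr 7 15 (.dbl 5 4 53))))) (.rp 53 (.thr 8 59 (.thr 9 12 (.thr 11 10 (.thr 15 7 (.thr 26 48 (.dbl 41 56 57)))))) (.rp 15 (.thr 8 59 (.thr 9 12 (.thr 41 57 (.thr 40 43 (.thr 56 24 (.dbl 11 10 26)))))) (.rp 12 (.thr 5 53 (.thr 8 59 (.thr 7 4 (.thr 15 11 (.thr 47 32 (.thr 31 63 (.dbl 26 16 48))))))) (.rp 8 (.thr 5 53 (.thr 4 7 (.thr 9 12 (.thr 1 13 (.dbl 41 57 61))))) (.rp 5 (.thr 8 59 (.thr 9 12 (.thr 41 57 (.thr 11 10 (.thr 15 7 (.dbl 26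 48 56)))))) .nd))))))))) (.rp 17 (.thr 49 13 (.thr 53 5 (.thr 57 61 (.thr 59 8 (.thr 58 56 (.thr 48 63 (.dbl 26 10 15))))))) (.rp 13 (.str 3 (.nv (.thr 5 53 (.thr 7 4 (.thr 15 11 (.thr 47 32 (.thr 31 63 (.dbl 26 16 48)))))) (.nv (.thr 8 59 (.thr 9 12 (.thr 41 57 (.thr 40 43 (.thr 56 24 (.dbl 11 10 26)))))) (.nv (.thr 5 53 (.thr 8 59 (.thr 7 4 (.thr 11 15 (.dbl 9 10 12))))) (.rp 15 (.thr 29 17 (.thr 5 53 (.thr 59 8 (.thr 7 4 (.thr 12 9 (.thr 63 46 (.thr 23 43 (.dbl 55 39 51)))))))) (.rp 12 (.thr 5 53 (.thr 8 59 (.thr 7 4 (.thr 15 11 (.thr 47 32 (.thr 31 63 (.dbl 26 16 48))))))) (.rp 11 (.thr 29 17 (.thr 12 9 (.thr 63 46 (.thr 47 32 (.thr 15 31 (.thr 48 26 (.dbl 53 5 58))))))) (.rp 8 (.thr 29 17 (.thr 5 53 (.thr 7 4 (.thr 12 9 (.thr 63 46 (.thr 47 32 (.dbl 15 11 31))))))) .nd))))))))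 (.rp 5 (.thr 29 17 (.thr 13 49 (.thr 45 61 (.thr 47 32 (.thr 46 44 (.thr 12 63 (.thr 9 3 (.dbl 41 33 57)))))))) (.rp 1 (.str 3 (.nv (.thr 9 12 (.thr 49 13 (.thr 57 41 (.dbl 53 5 61)))) (.nv (.thr 9 12 (.thr 5 53 (.thr 7 4 (.thr 8 59 (.dbl 11 10 15))))) (.rp 53 (.thr 29 17 (.thr 12 9 (.thr 63 46 (.thr 47 32 (.thr 15 31 (.dbl 13 14 49)))))) (.rp 15 (.thr 29 17 (.thr 12 9 (.thr 46 63 (.thr 47 32 (.thr 45 44 (.dbl 13 49 61)))))) (.rp 12 (.thr 5 53 (.thr 8 59 (.thr 7 4 (.thr 15 11 (.thr 47 32 (.thr 31 63 (.dbl 26 16 48))))))) (.rp 9 (.thr 5 53 (.thr 7 4 (.thr 15 11 (.thr 47 32 (.thr 31 63 (.dbl 26 16 48)))))) (.rp 8 (.thr 13 49 (.thr 5 53 (.thr 7 4 (.thr 12 9 (.dbl 15 11 14))))) (.rp 5 (.thr 13 49 (.thr 12 9 (.thr 15 14 (.thr 47 32 (.thr 31 63 (.dbl 26 16 48)))))) (.rp 4 (.thr 49 13 (.thr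 53 5 (.thr 9 12 (.thr 8 59 (.dbl 57 41 61))))) .nd)))))))))) .nd)))))))))))) (.rp 53 (.thr 47 32 (.str 26 (.nv (.thr 8 59 (.thr 10 58 (.thr 11 9 (.thr 13 49 (.thr 29 17 (.thr 61 45 (.dbl 41 1 56))))))) (.nv (.thr 27 24 (.thr 59 8 (.thr 43 11 (.thr 39 35 (.dbl 15 48 51))))) (.nv (.thr 15 48 (.thr 16 31 (.thr 27 24 (.thr 39 51 (.thr 43 35 (.dbl 59 8 11)))))) (.nv (.thr 24 27 (.thr 10 58 (.thr 8 59 (.thr 11 9 (.dbl 56 40 41))))) (.rp 59 (.thr 16 31 (.thr 48 15 (.thr 17 29 (.thr 49 13 (.thr 33 1 (.dbl 18 3 19)))))) (.rp 54 (.str 6 (.nv (.thr 27 24 (.thr 59 8 (.thr 43 11 (.thr 39 35 (.dbl 15 48 51))))) (.nv (.thr 8 59 (.thr 24 27 (.thr 56 40 (.thr 11 41 (.dbl 10 9 58))))) (.nv (.thr 10 58 (.thr 13 49 (.thr 14 2 (.dbl 15 12 48)))) (.rp 55 (.str 52 (.nv (.thr 16 31 (.thr 24 27 (.thr 20 28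 (.thr 36 4 (.dbl 48 12 15))))) (.nv (.thr 10 58 (.thr 13 49 (.thr 14 2 (.dbl 15 12 48)))) (.nv (.thr 48 15 (.thr 8 59 (.thr 24 27 (.dbl 56 40 60)))) (.rp 48 (.thr 16 31 (.thr 58 10 (.thr 27 24 (.thr 59 8 (.thr 56 57 (.dbl 11 41 43)))))) (.rp 15 (.thr 10 58 (.thr 24 27 (.thr 8 59 (.thr 56 40 (.dbl 11 9 41))))) .nd)))))) (.rp 52 (.str 55 (.nv (.thr 10 58 (.thr 13 49 (.thr 14 2 (.dbl 15 12 48)))) (.nv (.thr 8 59 (.thr 24 27 (.thr 56 40 (.thr 11 41 (.dbl 10 9 58))))) (.nv (.thr 59 8 (.thr 49 13 (.thr 51 63 (.dbl 48 15 50)))) (.rp 48 (.thr 16 31 (.thr 58 10 (.thr 59 8 (.thr 27 24 (.thr 11 43 (.dbl 56 41 57)))))) (.rp 16 (.thr 48 15 (.thr 49 13 (.thr 51 50 (.dbl 59 8 63)))) .nd)))))) (.rp 48 (.thr 16 31 (.thr 58 10 (.thr 27 24 (.thr 59 8 (.thr 56 57 (.dbl 11 41 43)))))) (.rp 16 (.thr 48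 15 (.thr 10 58 (.thr 24 27 (.thr 8 59 (.thr 56 40 (.dbl 11 9 41)))))) (.rp 10 (.thr 27 24 (.thr 59 8 (.thr 16 31 (.thr 15 48 (.thr 39 51 (.dbl 43 11 35)))))) .nd))))))))) (.rp 48 (.thr 16 31 (.thr 58 10 (.thr 27 24 (.thr 59 8 (.thr 56 57 (.dbl 11 41 43)))))) (.rp 41 (.thr 27 24 (.thr 59 8 (.thr 43 11 (.thr 16 31 (.thr 15 48 (.dbl 39 35 51)))))) (.rp 16 (.thr 48 15 (.thr 10 58 (.thr 24 27 (.thr 8 59 (.thr 56 40 (.dbl 11 9 41)))))) (.rp 11 (.thr 16 31 (.thr 48 15 (.thr 17 29 (.thr 49 13 (.thr 33 1 (.dbl 18 3 19)))))) (.rp 8 (.thr 16 31 (.thr 48 15 (.thr 17 29 (.thr 49 13 (.thr 33 1 (.dbl 18 3 19)))))) (.rp 6 (.str 54 (.nv (.thr 8 59 (.thr 10 58 (.thr 11 9 (.thr 24 27 (.dbl 56 40 41))))) (.nv (.thr 49 13 (.thr 58 10 (.thr 50 62 (.dbl 48 15 51)))) (.rp 58 (.thr 27 24 (.thr 59 8 (.thr 43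 11 (.thr 39 35 (.dbl 15 48 51))))) (.rp 48 (.thr 16 31 (.thr 58 10 (.thr 27 24 (.thr 59 8 (.thr 11 43 (.dbl 56 41 57)))))) (.rp 16 (.thr 48 15 (.thr 49 13 (.thr 50 51 (.dbl 58 10 62)))) (.rp 10 (.thr 17 29 (.thr 49 13 (.thr 33 1 (.thr 16 31 (.thr 18 19 (.dbl 48 3 15)))))) .nd))))))) .nd)))))))))))))) (.rp 49 (.thr 47 32 (.thr 53 5 (.str 26 (.nv (.thr 16 31 (.thr 27 24 (.thr 59 8 (.thr 11 43 (.thr 56 41 (.dbl 58 10 57)))))) (.nv (.thr 15 48 (.thr 16 31 (.thr 27 24 (.thr 59 8 (.thr 43 11 (.dbl 39 35 51)))))) (.nv (.thr 10 58 (.thr 24 27 (.thr 8 59 (.thr 11 9 (.dbl 56 40 41))))) (.rp 59 (.thr 29 17 (.thr 10 58 (.thr 48 15 (.thr 31 16 (.thr 24 27 (.thr 28 30 (.thr 12 36 (.thr 46 63 (.dbl 44 45 60))))))))) (.rp 56 (.thr 17 29 (.thr 15 48 (.thr 16 31 (.thr 19 18 (.thr 27 24 (.thr 51 39 (.thr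 3 35 (.thr 11 7 (.dbl 59 8 43))))))))) (.rp 54 (.str 6 (.nv (.thr 16 31 (.thr 27 24 (.thr 59 8 (.thr 11 43 (.thr 56 41 (.dbl 58 10 57)))))) (.nv (.thr 8 59 (.thr 10 58 (.thr 14 2 (.thr 15 48 (.thr 16 31 (.thr 12 13 (.dbl 9 3 11))))))) (.nv (.thr 27 24 (.thr 59 8 (.thr 43 11 (.thr 39 35 (.dbl 15 48 51))))) (.nv (.thr 10 58 (.thr 8 59 (.thr 11 9 (.thr 24 27 (.dbl 56 40 41))))) (.rp 59 (.thr 10 58 (.thr 48 15 (.thr 24 27 (.thr 12 36 (.thr 9 3 (.thr 11 8 (.dbl 41 56 57))))))) (.rp 56 (.thr 10 58 (.thr 48 15 (.thr 24 27 (.thr 12 36 (.thr 9 3 (.dbl 8 11 59)))))) (.rp 16 (.thr 48 15 (.thr 10 58 (.thr 8 59 (.thr 11 9 (.thr 24 27 (.dbl 56 40 41)))))) (.rp 11 (.thr 17 29 (.thr 10 58 (.thr 16 31 (.thr 18 19 (.thr 48 15 (.thr 3 33 (.thr 12 9 (.dbl 24 27 36)))))))) (.rp 10 (.thr 15 48 (.thr 16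 31 (.thr 17 29 (.thr 19 18 (.thr 59 8 (.thr 27 24 (.thr 11 43 (.thr 3 7 (.dbl 51 35 39))))))))) (.rp 8 (.thr 17 29 (.thr 10 58 (.thr 16 31 (.thr 18 19 (.thr 48 15 (.thr 3 33 (.thr 12 9 (.dbl 24 27 36)))))))) .nd))))))))))) (.rp 40 (.thr 58 10 (.thr 15 48 (.thr 16 31 (.thr 27 24 (.thr 59 8 (.thr 56 57 (.dbl 11 41 43))))))) (.rp 27 (.thr 10 58 (.thr 48 15 (.thr 16 31 (.thr 8 59 (.thr 11 9 (.thr 56 41 (.thr 24 40 (.thr 60 52 (.thr 28 20 (.dbl 12 36 44)))))))))) (.rp 24 (.thr 17 29 (.thr 10 58 (.thr 48 15 (.thr 16 31 (.thr 18 19 (.thr 33 3 (.thr 41 45 (.thr 9 57 (.dbl 11 8 56))))))))) (.rp 16 (.thr 48 15 (.thr 10 58 (.thr 24 27 (.thr 8 59 (.thr 11 9 (.dbl 56 40 41)))))) (.rp 11 (.thr 29 17 (.thr 10 58 (.thr 48 15 (.thr 31 16 (.thr 24 27 (.thr 28 30 (.thr 12 36 (.thr 46 63 (.dbl 44 45 60)))))))))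 (.rp 10 (.thr 15 48 (.thr 16 31 (.thr 17 29 (.thr 19 18 (.thr 27 24 (.thr 51 39 (.thr 3 35 (.thr 11 7 (.dbl 59 8 43))))))))) (.rp 8 (.thr 29 17 (.thr 10 58 (.thr 48 15 (.thr 31 16 (.thr 24 27 (.thr 28 30 (.thr 12 36 (.thr 46 63 (.dbl 44 45 60))))))))) (.rp 6 (.str 54 (.nv (.thr 10 58 (.thr 8 59 (.thr 24 27 (.thr 56 40 (.dbl 11 9 41))))) (.nv (.thr 59 8 (.thr 55 52 (.thr 63 51 (.dbl 48 15 58)))) (.rp 59 (.thr 10 58 (.thr 48 15 (.thr 16 31 (.thr 24 27 (.thr 52 55 (.thr 20 28 (.dbl 36 4 12))))))) (.rp 58 (.thr 59 8 (.thr 55 52 (.thr 63 51 (.dbl 31 15 16)))) (.rp 48 (.thr 16 31 (.thr 10 58 (.thr 24 27 (.thr 8 59 (.thr 11 9 (.dbl 56 40 41)))))) (.rp 16 (.thr 48 15 (.thr 10 58 (.thr 24 27 (.thr 8 59 (.thr 11 9 (.dbl 56 40 41)))))) (.rp 10 (.thr 15 48 (.thr 16 31 (.thr 27 24 (.thr 51 39 (.thr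 59 8 (.dbl 55 52 63)))))) (.rp 8 (.thr 10 58 (.thr 48 15 (.thr 16 31 (.thr 24 27 (.thr 52 55 (.thr 20 28 (.dbl 36 4 12))))))) (.rp 7 (.str 4 (.nv (.thr 10 58 (.thr 8 59 (.thr 11 9 (.thr 24 27 (.dbl 56 40 41))))) (.nv (.thr 16 31 (.thr 24 27 (.thr 20 28 (.dbl 52 36 55)))) (.nv (.thr 55 52 (.thr 59 8 (.thr 63 51 (.dbl 48 15 58)))) (.rp 16 (.thr 48 15 (.thr 10 58 (.thr 24 27 (.thr 52 55 (.dbl 36 12 20))))) (.rp 10 (.thr 15 48 (.thr 16 31 (.thr 24 27 (.thr 52 55 (.dbl 20 28 36))))) .nd)))))) (.rp 4 (.str 7 (.nv (.thr 27 24 (.thr 55 52 (.thr 23 39 (.dbl 31 16 19)))) (.nv (.thr 10 58 (.thr 8 59 (.thr 11 9 (.dbl 15 3 48)))) (.rp 48 (.thr 16 31 (.thr 10 58 (.thr 24 27 (.thr 8 59 (.thr 11 9 (.dbl 56 40 41)))))) (.rp 16 (.thr 48 15 (.thr 10 58 (.thr 24 27 (.thr 8 59 (.thr 11 9 (.dbl 56 40 41))))))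 (.rp 15 (.thr 10 58 (.thr 27 24 (.thr 55 52 (.thr 23 39 (.dbl 31 16 19))))) (.rp 12 (.thr 8 59 (.thr 10 58 (.thr 15 48 (.thr 16 31 (.dbl 11 3 9))))) (.rp 10 (.thr 15 48 (.thr 16 31 (.thr 11 3 (.thr 27 24 (.dbl 59 8 43))))) (.rp 8 (.str 12 (.nv (.thr 29 17 (.thr 63 46 (.dbl 15 31 48))) (.nv (.thr 24 27 (.dbl 48 15 36)) (.rp 48 (.thr 16 31 (.thr 24 27 (.thr 28 20 (.thr 29 17 (.thr 46 63 (.dbl 44 45 60)))))) (.rp 16 (.thr 48 15 (.thr 10 58 (.dbl 24 27 36))) (.rp 15 (.thr 10 58 (.thr 55 52 (.thr 23 39 (.thr 27 24 (.dbl 31 16 19))))) (.rp 10 (.thr 15 48 (.thr 16 31 (.thr 55 52 (.thr 39 23 (.dbl 27 24 51))))) .nd))))))) .nd))))))))) .nd))))))))))) .nd))))))))))))))))) (.rp 45 (.thr 17 29 (.thr 53 5 (.thr 49 13 (.thr 61 57 (.dbl 1 33 41))))) (.rp 41 (.thr 49 13 (.thr 53 5 (.thr 57 61 (.thr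 59 8 (.thr 58 56 (.thr 48 63 (.dbl 26 10 15))))))) (.rp 33 (.thr 29 17 (.thr 5 53 (.thr 13 49 (.thr 1 9 (.dbl 61 41 45))))) (.rp 29 (.thr 47 32 (.thr 8 59 (.str 26 (.nv (.thr 5 53 (.thr 13 49 (.thr 1 9 (.thr 24 27 (.thr 56 40 (.dbl 41 11 61)))))) (.nv (.thr 16 31 (.thr 5 53 (.thr 13 49 (.thr 9 1 (.dbl 10 11 58))))) (.nv (.thr 10 58 (.thr 11 9 (.thr 24 27 (.dbl 56 40 41)))) (.rp 57 (.thr 24 27 (.thr 56 40 (.thr 10 58 (.dbl 11 9 41)))) (.rp 54 (.str 6 (.nv (.thr 13 49 (.thr 10 58 (.thr 14 2 (.dbl 15 12 48)))) (.nv (.thr 5 53 (.thr 7 4 (.thr 13 49 (.thr 9 1 (.thr 3 12 (.dbl 15 11 48)))))) (.nv (.thr 10 58 (.thr 11 9 (.thr 24 27 (.dbl 56 40 41)))) (.rp 57 (.thr 24 27 (.thr 56 40 (.thr 10 58 (.dbl 11 9 41)))) (.rp 48 (.thr 16 31 (.thr 10 58 (.thr 9 11 (.thr 13 49 (.dbl 5 1 53))))) (.rp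 16 (.thr 48 15 (.thr 10 58 (.thr 9 11 (.thr 5 53 (.dbl 13 1 49))))) .nd))))))) (.rp 16 (.thr 48 15 (.thr 10 58 (.thr 9 11 (.thr 5 53 (.dbl 13 1 49))))) (.rp 11 (.thr 27 24 (.thr 5 53 (.thr 16 31 (.thr 15 48 (.thr 39 51 (.thr 43 35 (.thr 41 40 (.thr 9 57 (.dbl 13 1 49))))))))) (.rp 9 (.thr 24 27 (.thr 56 40 (.thr 16 31 (.thr 48 15 (.thr 28 20 (.thr 60 52 (.dbl 12 36 44))))))) (.rp 6 (.str 54 (.nv (.thr 5 53 (.thr 13 49 (.thr 1 9 (.thr 24 27 (.thr 56 40 (.dbl 41 11 61)))))) (.nv (.thr 58 10 (.thr 49 13 (.thr 50 62 (.dbl 48 15 51)))) (.nv (.thr 10 58 (.thr 11 9 (.thr 24 27 (.dbl 56 40 41)))) (.rp 48 (.thr 16 31 (.thr 10 58 (.thr 24 27 (.thr 56 40 (.dbl 11 9 41))))) (.rp 16 (.thr 48 15 (.thr 49 13 (.thr 50 51 (.dbl 58 10 62)))) .nd)))))) .nd)))))))))))) (.rp 17 (.thr 49 13 (.thr 53 5 (.thr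 57 61 (.thr 59 8 (.thr 58 56 (.thr 48 63 (.dbl 26 10 15))))))) (.rp 13 (.thr 47 32 (.thr 5 53 (.str 26 (.nv (.thr 27 24 (.thr 59 8 (.thr 43 11 (.thr 39 35 (.dbl 15 48 51))))) (.nv (.thr 15 48 (.thr 16 31 (.thr 27 24 (.thr 39 51 (.thr 43 35 (.dbl 59 8 11)))))) (.nv (.thr 10 58 (.thr 8 59 (.thr 11 9 (.thr 24 27 (.dbl 56 40 41))))) (.rp 59 (.thr 17 29 (.thr 16 31 (.thr 18 19 (.thr 48 15 (.thr 33 3 (.thr 1 49 (.dbl 41 45 61))))))) (.rp 54 (.str 6 (.nv (.thr 7 4 (.thr 8 59 (.thr 10 58 (.thr 11 9 (.dbl 15 3 48))))) (.nv (.thr 4 7 (.thr 16 31 (.thr 24 27 (.thr 20 28 (.thr 48 15 (.dbl 36 12 52)))))) (.nv (.thr 27 24 (.thr 59 8 (.thr 11 43 (.thr 58 10 (.dbl 56 41 57))))) (.rp 55 (.str 52 (.nv (.thr 48 15 (.thr 56 60 (.thr 58 10 (.dbl 59 8 57)))) (.nv (.thr 16 31 (.thr 4 7 (.thr 24 27 (.dbl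 20 28 36)))) (.rp 20 (.thr 58 10 (.thr 59 8 (.thr 56 57 (.dbl 48 15 60)))) .nd)))) (.rp 52 (.str 55 (.nv (.thr 27 24 (.thr 31 16 (.thr 48 15 (.thr 23 19 (.dbl 7 4 39))))) (.nv (.thr 8 59 (.thr 24 27 (.thr 56 40 (.thr 11 41 (.dbl 10 9 58))))) (.nv (.thr 59 8 (.thr 63 51 (.dbl 15 31 48))) (.rp 48 (.thr 16 31 (.thr 58 10 (.thr 59 8 (.thr 27 24 (.thr 11 43 (.dbl 56 41 57)))))) (.rp 16 (.thr 48 15 (.thr 29 17 (.thr 59 8 (.thr 24 27 (.thr 12 36 (.dbl 63 46 51)))))) .nd)))))) (.rp 48 (.thr 16 31 (.thr 58 10 (.thr 59 8 (.thr 27 24 (.thr 11 43 (.dbl 56 41 57)))))) (.rp 16 (.thr 48 15 (.thr 10 58 (.thr 8 59 (.thr 11 9 (.thr 24 27 (.dbl 56 40 41)))))) (.rp 11 (.thr 17 29 (.thr 16 31 (.thr 18 19 (.thr 48 15 (.thr 3 33 (.thr 12 9 (.dbl 24 27 36))))))) (.rp 4 (.thr 10 58 (.thr 8 59 (.thr 11 9 (.thr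 24 27 (.dbl 56 40 41))))) .nd)))))))))) (.rp 48 (.thr 16 31 (.thr 58 10 (.thr 59 8 (.thr 27 24 (.thr 11 43 (.dbl 56 41 57)))))) (.rp 41 (.thr 16 31 (.thr 15 48 (.thr 59 8 (.thr 27 24 (.thr 43 11 (.dbl 39 35 51)))))) (.rp 27 (.thr 10 58 (.thr 16 31 (.thr 48 15 (.thr 8 59 (.thr 11 9 (.thr 56 41 (.thr 24 40 (.thr 28 20 (.thr 60 52 (.dbl 12 36 44)))))))))) (.rp 24 (.thr 17 29 (.thr 16 31 (.thr 18 19 (.thr 48 15 (.thr 33 3 (.thr 1 49 (.dbl 41 45 61))))))) (.rp 16 (.thr 48 15 (.thr 10 58 (.thr 8 59 (.thr 11 9 (.thr 24 27 (.dbl 56 40 41)))))) (.rp 11 (.thr 29 17 (.thr 31 16 (.thr 48 15 (.thr 24 27 (.thr 12 36 (.thr 46 63 (.thr 44 45 (.dbl 28 30 60)))))))) (.rp 8 (.thr 17 29 (.thr 16 31 (.thr 18 19 (.thr 48 15 (.thr 33 3 (.thr 1 49 (.dbl 41 45 61))))))) (.rp 6 (.str 54 (.nv (.thr 16 31 (.thr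 8 59 (.thr 24 27 (.thr 56 40 (.thr 11 41 (.dbl 10 9 58)))))) (.nv (.thr 27 24 (.thr 59 8 (.thr 43 11 (.thr 39 35 (.dbl 15 48 51))))) (.nv (.thr 15 48 (.thr 16 31 (.thr 27 24 (.thr 39 51 (.thr 43 35 (.dbl 59 8 11)))))) (.nv (.thr 24 27 (.thr 10 58 (.thr 8 59 (.thr 11 9 (.dbl 56 40 41))))) (.rp 59 (.thr 17 29 (.thr 48 15 (.thr 16 31 (.thr 18 19 (.thr 33 3 (.thr 1 49 (.dbl 41 45 61))))))) (.rp 41 (.thr 58 10 (.thr 50 62 (.thr 48 15 (.thr 51 49 (.thr 59 8 (.dbl 57 56 60)))))) (.rp 27 (.thr 58 10 (.thr 50 62 (.thr 48 15 (.thr 51 49 (.thr 59 8 (.dbl 57 56 60)))))) (.rp 24 (.thr 58 10 (.thr 50 62 (.thr 48 15 (.thr 51 49 (.thr 59 8 (.dbl 57 56 60)))))) (.rp 16 (.thr 48 15 (.thr 58 10 (.thr 50 62 (.thr 51 49 (.thr 59 8 (.dbl 57 56 60)))))) (.rp 11 (.thr 58 10 (.thr 50 62 (.thr 48 15 (.thr 51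 49 (.thr 57 60 (.dbl 59 8 56)))))) (.rp 8 (.thr 17 29 (.thr 48 15 (.thr 16 31 (.thr 18 19 (.thr 33 3 (.thr 1 49 (.dbl 41 45 61))))))) .nd)))))))))))) .nd)))))))))))))))) (.rp 6 (.str 54 (.nv (.thr 17 29 (.thr 49 13 (.thr 1 33 (.thr 53 5 (.dbl 61 41 57))))) (.nv (.thr 29 17 (.thr 13 49 (.thr 61 45 (.thr 5 53 (.dbl 1 9 41))))) (.rp 61 (.thr 53 5 (.thr 59 8 (.thr 55 52 (.thr 63 51 (.thr 48 58 (.thr 47 32 (.dbl 15 26 31))))))) (.rp 53 (.str 60 (.nv (.thr 13 49 (.thr 29 17 (.thr 51 57 (.thr 61 45 (.thr 59 8 (.dbl 63 55 62)))))) (.nv (.thr 17 29 (.thr 49 13 (.thr 1 33 (.thr 57 51 (.dbl 41 9 61))))) (.rp 61 (.thr 59 8 (.thr 57 51 (.thr 41 9 (.thr 56 58 (.thr 48 52 (.dbl 26 11 15)))))) (.rp 57 (.thr 29 17 (.thr 13 49 (.thr 61 45 (.thr 63 62 (.thr 12 46 (.thr 47 32 (.dbl 15 14 31))))))) (.rp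 51 (.thr 17 29 (.thr 49 13 (.thr 33 1 (.thr 45 41 (.thr 47 32 (.thr 15 30 (.thr 31 63 (.dbl 26 16 48)))))))) (.rp 49 (.thr 59 8 (.thr 57 51 (.thr 41 9 (.thr 61 1 (.thr 62 63 (.dbl 58 50 56)))))) (.rp 45 (.thr 49 13 (.thr 59 8 (.thr 51 57 (.thr 50 48 (.thr 62 58 (.dbl 63 55 61)))))) (.rp 33 (.thr 29 17 (.thr 59 8 (.thr 51 57 (.thr 63 55 (.thr 61 62 (.dbl 13 45 49)))))) (.rp 29 (.thr 49 13 (.thr 59 8 (.thr 51 57 (.thr 50 48 (.thr 62 58 (.dbl 63 55 61)))))) (.rp 17 (.thr 49 13 (.thr 59 8 (.thr 51 57 (.thr 50 48 (.thr 62 58 (.dbl 63 55 61)))))) (.rp 13 (.thr 59 8 (.thr 57 51 (.thr 41 9 (.thr 56 58 (.thr 48 52 (.dbl 26 11 15)))))) (.rp 1 (.thr 29 17 (.thr 59 8 (.thr 51 57 (.thr 63 55 (.thr 61 62 (.dbl 13 45 49)))))) .nd))))))))))))) (.rp 49 (.thr 53 5 (.thr 59 8 (.thr 55 52 (.thr 63 51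 (.thr 48 58 (.thr 47 32 (.dbl 15 26 31))))))) (.rp 45 (.thr 17 29 (.thr 53 5 (.thr 49 13 (.thr 61 57 (.dbl 1 33 41))))) (.rp 41 (.thr 49 13 (.thr 53 5 (.thr 57 61 (.thr 59 8 (.thr 55 52 (.dbl 51 60 63)))))) (.rp 33 (.thr 29 17 (.thr 5 53 (.thr 13 49 (.thr 1 9 (.dbl 61 41 45))))) (.rp 29 (.thr 49 13 (.thr 53 5 (.thr 59 8 (.thr 55 52 (.thr 51 63 (.dbl 57 60 61)))))) (.rp 17 (.thr 49 13 (.thr 53 5 (.thr 57 61 (.thr 59 8 (.thr 55 52 (.dbl 51 60 63)))))) (.rp 13 (.thr 53 5 (.thr 59 8 (.thr 55 52 (.thr 63 51 (.thr 48 58 (.thr 47 32 (.dbl 15 26 31))))))) (.rp 5 (.thr 17 29 (.thr 49 13 (.thr 1 33 (.thr 61 41 (.thr 57 53 (.thr 59 8 (.thr 58 56 (.thr 62 50 (.dbl 60 51 63))))))))) (.rp 1 (.thr 53 5 (.thr 59 8 (.thr 55 52 (.thr 51 63 (.thr 57 60 (.dbl 49 13 61)))))) .nd)))))))))))))) (.rp 5 (.thr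 29 17 (.thr 13 49 (.thr 45 61 (.thr 8 59 (.thr 47 32 (.thr 46 44 (.thr 12 63 (.thr 15 14 (.thr 26 48 (.thr 16 31 (.thr 24 27 (.thr 40 56 (.dbl 41 33 43))))))))))))) (.rp 1 (.thr 8 59 (.str 41 (.nv (.thr 40 43 (.thr 56 24 (.thr 9 57 (.dbl 11 10 26)))) (.rp 57 (.thr 5 53 (.thr 49 13 (.thr 45 33 (.thr 29 17 (.thr 47 32 (.thr 46 44 (.thr 63 12 (.thr 15 31 (.thr 60 30 (.thr 61 62 (.thr 40 43 (.thr 56 24 (.dbl 48 26 52))))))))))))) (.rp 56 (.thr 40 43 (.thr 49 13 (.thr 45 33 (.thr 29 17 (.thr 47 32 (.thr 46 44 (.thr 63 12 (.thr 15 31 (.thr 48 26 (.dbl 53 5 58)))))))))) (.rp 54 (.str 6 (.nv (.thr 40 43 (.thr 56 24 (.thr 11 26 (.dbl 9 10 57)))) (.nv (.thr 5 53 (.thr 7 4 (.thr 9 57 (.thr 3 12 (.dbl 11 10 15))))) (.nv (.thr 40 43 (.thr 9 57 (.thr 56 24 (.dbl 11 10 26)))) (.rp 57 (.thr 40 43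 (.thr 5 53 (.thr 7 4 (.thr 56 24 (.thr 11 26 (.thr 3 15 (.dbl 9 10 12))))))) (.rp 56 (.thr 5 53 (.thr 45 33 (.thr 47 32 (.thr 46 44 (.thr 29 17 (.thr 49 13 (.thr 12 63 (.dbl 9 3 57)))))))) (.rp 11 (.thr 33 45 (.thr 43 40 (.thr 9 57 (.thr 3 12 (.thr 63 23 (.thr 53 5 (.dbl 48 18 58))))))) (.rp 10 (.thr 32 47 (.thr 40 43 (.thr 36 44 (.thr 24 56 (.thr 12 48 (.dbl 9 3 57)))))) (.rp 9 (.thr 32 47 (.thr 40 43 (.thr 36 44 (.thr 24 56 (.thr 48 12 (.dbl 26 15 27)))))) (.rp 3 (.str 2 (.nv (.thr 9 57 (.dbl 10 11 14)) (.nv (.thr 10 14 (.thr 26 58 (.thr 56 11 (.dbl 24 27 40)))) (.nv (.thr 10 14 (.dbl 9 11 57)) (.rp 14 (.thr 40 43 (.thr 9 57 (.thr 11 10 (.dbl 56 24 26)))) (.rp 11 (.thr 14 10 (.thr 47 32 (.thr 13 49 (.thr 15 12 (.thr 31 63 (.dbl 26 16 48)))))) (.rp 10 (.thr 45 33 (.thr 32 47 (.thr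 40 43 (.thr 36 44 (.thr 24 56 (.thr 48 12 (.dbl 26 15 27))))))) .nd))))))) (.rp 2 (.str 3 (.nv (.dbl 9 12 57) (.rp 57 (.thr 9 12 (.thr 11 10 (.thr 7 15 (.dbl 5 4 53)))) (.rp 12 (.thr 40 43 (.thr 9 57 (.thr 11 10 (.dbl 56 24 26)))) (.rp 9 (.thr 33 45 (.thr 43 40 (.thr 63 23 (.thr 48 18 (.dbl 53 5 58))))) .nd))))) .nd))))))))))) (.rp 43 (.thr 9 57 (.thr 53 5 (.thr 49 13 (.thr 45 33 (.thr 29 17 (.thr 47 32 (.thr 46 44 (.thr 63 12 (.thr 15 31 (.dbl 48 26 58)))))))))) (.rp 40 (.thr 9 57 (.thr 53 5 (.thr 13 49 (.thr 33 45 (.thr 29 17 (.thr 10 11 (.thr 58 26 (.thr 63 48 (.thr 12 46 (.thr 14 15 (.dbl 6 2 3))))))))))) (.rp 27 (.thr 9 57 (.thr 40 43 (.thr 11 10 (.dbl 56 24 26)))) (.rp 26 (.thr 40 43 (.thr 56 24 (.thr 9 57 (.thr 53 5 (.thr 49 13 (.thr 45 33 (.thr 29 17 (.thr 47 32 (.thr 46 44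 (.thr 63 12 (.thr 48 58 (.thr 60 52 (.dbl 15 30 31))))))))))))) (.rp 24 (.thr 40 43 (.thr 9 57 (.thr 53 5 (.thr 49 13 (.thr 45 33 (.thr 29 17 (.thr 47 32 (.thr 46 44 (.thr 63 12 (.thr 15 31 (.dbl 48 26 58))))))))))) (.rp 11 (.thr 9 57 (.thr 53 5 (.thr 49 13 (.thr 45 33 (.thr 29 17 (.thr 47 32 (.thr 46 44 (.thr 63 12 (.thr 15 31 (.dbl 48 26 58)))))))))) (.rp 10 (.thr 32 47 (.thr 40 43 (.thr 24 56 (.thr 36 44 (.thr 48 12 (.dbl 26 15 27)))))) (.rp 9 (.thr 32 47 (.thr 40 43 (.thr 24 56 (.thr 36 44 (.thr 48 12 (.dbl 26 15 27)))))) (.rp 6 (.str 54 (.nv (.thr 40 43 (.thr 56 24 (.thr 9 57 (.dbl 11 10 26)))) (.rp 57 (.thr 53 5 (.thr 52 55 (.thr 40 43 (.thr 56 24 (.thr 48 60 (.dbl 26 11 15)))))) (.rp 56 (.thr 45 33 (.thr 29 17 (.thr 49 13 (.thr 57 9 (.thr 5 53 (.thr 51 60 (.thr 48 50 (.thr 32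 47 (.thr 40 43 (.thr 36 44 (.thr 26 15 (.dbl 24 12 27)))))))))))) (.rp 43 (.thr 45 33 (.thr 57 9 (.thr 60 51 (.thr 47 32 (.thr 44 46 (.thr 12 28 (.thr 15 30 (.dbl 13 14 49)))))))) (.rp 40 (.thr 49 13 (.thr 9 57 (.thr 53 5 (.thr 10 11 (.thr 58 26 (.thr 50 62 (.dbl 48 51 63))))))) (.rp 27 (.thr 9 57 (.thr 40 43 (.thr 11 10 (.dbl 56 24 26)))) (.rp 26 (.thr 57 9 (.thr 60 51 (.thr 40 43 (.thr 56 24 (.thr 52 48 (.dbl 53 5 55)))))) (.rp 24 (.thr 45 33 (.thr 29 17 (.thr 49 13 (.thr 9 57 (.thr 53 5 (.thr 52 55 (.thr 32 47 (.thr 43 40 (.thr 10 11 (.thr 58 26 (.thr 50 62 (.dbl 48 51 63)))))))))))) (.rp 11 (.thr 45 33 (.thr 29 17 (.thr 49 13 (.thr 57 9 (.thr 5 53 (.thr 51 60 (.thr 48 50 (.thr 47 32 (.thr 46 44 (.thr 12 63 (.thr 24 36 (.dbl 40 43 56)))))))))))) (.rp 10 (.thr 57 9 (.thr 60 51 (.thr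 40 43 (.thr 56 24 (.thr 52 48 (.dbl 53 5 55)))))) (.rp 9 (.thr 13 49 (.thr 53 5 (.thr 52 55 (.thr 40 43 (.thr 56 24 (.thr 48 60 (.dbl 26 11 15))))))) (.rp 3 (.str 2 (.nv (.thr 9 57 (.thr 11 10 (.thr 56 26 (.dbl 40 24 43)))) (.nv (.thr 9 57 (.thr 40 43 (.thr 56 24 (.dbl 11 10 26)))) (.rp 58 (.thr 40 43 (.thr 9 57 (.thr 56 24 (.dbl 11 10 26)))) (.rp 57 (.thr 40 43 (.thr 56 24 (.thr 53 5 (.thr 52 55 (.thr 48 60 (.dbl 26 11 15)))))) (.rp 56 (.thr 32 47 (.thr 33 45 (.thr 34 35 (.thr 50 18 (.thr 9 57 (.thr 58 62 (.dbl 10 11 26))))))) (.rp 43 (.thr 9 57 (.thr 11 10 (.thr 56 26 (.thr 40 24 (.thr 47 32 (.thr 29 17 (.thr 45 33 (.thr 49 13 (.thr 46 44 (.thr 63 12 (.thr 53 5 (.thr 15 31 (.thr 52 55 (.dbl 48 58 60)))))))))))))) (.rp 40 (.thr 9 57 (.thr 10 11 (.thr 58 26 (.thr 53 5 (.thr 48 63 (.thr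 49 13 (.dbl 50 51 62))))))) (.rp 26 (.thr 49 13 (.thr 9 57 (.thr 40 43 (.thr 11 10 (.thr 56 24 (.thr 47 32 (.thr 29 17 (.thr 45 33 (.thr 46 44 (.thr 63 12 (.thr 53 5 (.thr 15 31 (.thr 52 55 (.dbl 48 58 60)))))))))))))) (.rp 24 (.thr 9 57 (.thr 10 11 (.thr 58 26 (.thr 53 5 (.thr 48 63 (.thr 49 13 (.dbl 50 51 62))))))) (.rp 11 (.thr 32 47 (.thr 33 45 (.thr 34 35 (.thr 50 18 (.thr 49 13 (.thr 51 48 (.dbl 57 9 60))))))) (.rp 10 (.thr 32 47 (.thr 33 45 (.thr 34 35 (.thr 50 18 (.thr 49 13 (.thr 51 48 (.dbl 57 9 60))))))) (.rp 9 (.str 12 (.nv (.thr 13 49 (.thr 15 14 (.thr 26 48 (.thr 24 27 (.dbl 40 43 56))))) (.nv (.thr 5 53 (.thr 29 17 (.thr 45 33 (.thr 49 13 (.thr 47 32 (.dbl 46 44 63)))))) (.nv (.thr 40 43 (.thr 24 56 (.thr 48 36 (.dbl 26 15 27)))) (.rp 48 (.thr 33 45 (.thr 29 17 (.thr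 13 49 (.thr 63 46 (.thr 15 14 (.dbl 47 31 32)))))) (.rp 13 (.thr 5 53 (.thr 45 33 (.thr 47 32 (.thr 46 44 (.dbl 29 17 63))))) .nd)))))) .nd))))))))))))) (.rp 2 (.str 3 (.nv (.thr 33 45 (.thr 40 43 (.thr 48 18 (.thr 26 15 (.dbl 24 27 56))))) (.nv (.thr 32 47 (.thr 33 45 (.thr 35 34 (.thr 51 19 (.dbl 57 9 60))))) (.nv (.thr 40 43 (.thr 9 57 (.thr 56 24 (.dbl 11 10 26)))) (.rp 14 (.str 10 (.nv (.thr 26 58 (.thr 33 45 (.dbl 48 15 18))) (.nv (.dbl 9 11 57) (.rp 57 (.thr 11 9 (.dbl 26 56 58)) (.rp 26 (.str 50 (.nv (.thr 33 45 (.thr 49 13 (.dbl 48 18 51))) (.nv (.dbl 9 11 57) (.rp 30 (.str 18 (.nv (.thr 62 58 (.dbl 9 11 57)) (.nv (.dbl 33 45 48) (.rp 62 (.str 46 (.nv (.dbl 33 45 48) (.nv (.dbl 9 11 57) .nd))) .nd)))) (.rp 18 (.str 30 (.nv (.dbl 9 11 57) (.rp 57 (.thr 45 33 (.thr 11 9 (.dbl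 15 7 60))) (.rp 11 (.thr 57 9 (.thr 45 33 (.dbl 60 15 51))) (.rp 9 (.thr 58 62 (.thr 43 40 (.thr 63 23 (.dbl 53 5 48)))) .nd))))) (.rp 9 (.thr 43 40 (.thr 63 23 (.thr 58 62 (.dbl 53 5 48)))) .nd)))))) .nd))))) (.rp 10 (.str 14 (.nv (.thr 5 53 (.thr 43 40 (.thr 47 32 (.thr 35 39 (.thr 51 19 (.dbl 57 9 60)))))) (.nv (.thr 33 45 (.thr 13 49 (.thr 15 12 (.dbl 48 18 26)))) (.rp 48 (.thr 43 40 (.thr 63 23 (.thr 29 17 (.thr 12 46 (.dbl 13 15 49))))) (.rp 5 (.str 15 (.nv (.thr 9 57 (.thr 26 48 (.dbl 11 7 56))) (.nv (.dbl 13 12 49) (.rp 7 (.str 4 (.nv (.thr 9 57 (.thr 33 45 (.dbl 48 18 26))) (.nv (.dbl 13 12 49) .nd))) (.rp 4 (.thr 7 11 (.dbl 13 12 49)) .nd))))) .nd))))) .nd)))))) .nd)))))))))))))) (.rp 3 (.str 2 (.nv (.thr 9 57 (.thr 11 10 (.thr 56 26 (.dbl 40 24 43)))) (.nv (.thr 40 43 (.thr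 9 57 (.thr 56 24 (.dbl 11 10 26)))) (.rp 57 (.thr 5 53 (.thr 45 33 (.thr 47 32 (.thr 40 43 (.thr 46 44 (.thr 29 17 (.thr 49 13 (.thr 63 12 (.thr 15 31 (.thr 56 24 (.dbl 26 11 48))))))))))) (.rp 56 (.thr 47 32 (.thr 45 33 (.thr 46 44 (.thr 29 17 (.thr 49 13 (.thr 63 12 (.thr 15 31 (.thr 48 26 (.dbl 53 5 58))))))))) (.rp 54 (.str 6 (.nv (.thr 9 57 (.dbl 10 11 14)) (.nv (.thr 10 14 (.thr 26 58 (.thr 56 11 (.dbl 24 27 40)))) (.nv (.thr 10 14 (.dbl 9 11 57)) (.rp 14 (.thr 40 43 (.thr 9 57 (.thr 11 10 (.dbl 56 24 26)))) (.rp 11 (.thr 14 10 (.thr 47 32 (.thr 13 49 (.thr 15 12 (.thr 31 63 (.dbl 26 16 48)))))) (.rp 10 (.thr 45 33 (.thr 32 47 (.thr 40 43 (.thr 36 44 (.thr 24 56 (.thr 48 12 (.dbl 26 15 27))))))) .nd))))))) (.rp 43 (.thr 45 33 (.thr 47 32 (.thr 46 44 (.thr 29 17 (.thr 49 13 (.thr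 63 12 (.thr 15 31 (.thr 48 26 (.dbl 53 5 58))))))))) (.rp 40 (.thr 33 45 (.thr 32 47 (.thr 34 35 (.thr 29 17 (.thr 49 13 (.thr 9 57 (.thr 10 11 (.thr 53 5 (.thr 58 26 (.thr 48 63 (.dbl 50 18 51))))))))))) (.rp 26 (.thr 9 57 (.thr 11 10 (.thr 45 33 (.thr 47 32 (.thr 40 43 (.thr 46 44 (.thr 29 17 (.thr 49 13 (.thr 63 12 (.thr 15 31 (.thr 53 5 (.thr 48 58 (.thr 56 24 (.dbl 60 30 52)))))))))))))) (.rp 24 (.thr 40 43 (.thr 45 33 (.thr 47 32 (.thr 46 44 (.thr 29 17 (.thr 49 13 (.thr 63 12 (.thr 15 31 (.thr 9 57 (.thr 11 10 (.dbl 26 48 56))))))))))) (.rp 11 (.thr 9 57 (.thr 45 33 (.thr 47 32 (.thr 46 44 (.thr 29 17 (.thr 49 13 (.thr 63 12 (.thr 15 31 (.thr 53 5 (.dbl 48 26 58)))))))))) (.rp 10 (.thr 9 57 (.thr 45 33 (.thr 47 32 (.thr 46 44 (.thr 29 17 (.thr 49 13 (.thr 63 12 (.thr 15 31 (.thr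 53 5 (.dbl 48 26 58)))))))))) (.rp 9 (.thr 5 53 (.str 6 (.nv (.thr 10 14 (.thr 26 58 (.thr 48 15 (.thr 24 27 (.dbl 40 43 56))))) (.nv (.thr 40 43 (.thr 56 24 (.thr 10 14 (.dbl 26 11 58)))) (.rp 58 (.thr 14 10 (.thr 40 43 (.thr 13 49 (.thr 15 12 (.thr 56 24 (.dbl 26 11 48)))))) (.rp 56 (.thr 14 10 (.thr 47 32 (.thr 13 49 (.thr 15 12 (.thr 31 63 (.dbl 26 16 48)))))) (.rp 43 (.thr 14 10 (.thr 45 33 (.thr 47 32 (.thr 46 44 (.thr 30 62 (.thr 15 60 (.dbl 13 12 49))))))) (.rp 40 (.thr 14 10 (.thr 47 32 (.thr 13 49 (.thr 15 12 (.thr 31 63 (.dbl 26 16 48)))))) (.rp 27 (.str 11 (.nv (.thr 40 43 (.dbl 56 24 26)) (.nv (.thr 10 14 (.dbl 26 56 58)) (.rp 56 (.thr 14 10 (.thr 47 32 (.thr 13 49 (.thr 15 12 (.thr 31 63 (.dbl 26 16 48)))))) (.rp 26 (.thr 14 10 (.thr 45 33 (.thr 47 32 (.thr 46 44 (.thr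 30 62 (.thr 15 60 (.dbl 13 12 49))))))) .nd))))) (.rp 26 (.thr 14 10 (.thr 45 33 (.thr 47 32 (.thr 46 44 (.thr 30 62 (.thr 15 60 (.dbl 13 12 49))))))) (.rp 24 (.thr 14 10 (.thr 47 32 (.thr 13 49 (.thr 15 12 (.thr 31 63 (.dbl 26 16 48)))))) (.rp 14 (.thr 32 47 (.thr 40 43 (.thr 36 44 (.thr 24 56 (.thr 48 12 (.dbl 26 15 27)))))) (.rp 11 (.thr 14 10 (.thr 47 32 (.thr 13 49 (.thr 15 12 (.thr 31 63 (.dbl 26 16 48)))))) (.rp 10 (.thr 32 47 (.thr 40 43 (.thr 36 44 (.thr 24 56 (.thr 48 12 (.dbl 26 15 27)))))) .nd)))))))))))))) (.rp 6 (.str 54 (.nv (.thr 9 57 (.thr 11 10 (.thr 56 26 (.dbl 40 24 43)))) (.nv (.thr 9 57 (.thr 40 43 (.thr 56 24 (.dbl 11 10 26)))) (.rp 58 (.thr 40 43 (.thr 9 57 (.thr 56 24 (.dbl 11 10 26)))) (.rp 57 (.thr 40 43 (.thr 56 24 (.thr 53 5 (.thr 52 55 (.thr 48 60 (.dbl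 26 11 15)))))) (.rp 56 (.thr 32 47 (.thr 33 45 (.thr 34 35 (.thr 50 18 (.thr 9 57 (.thr 58 62 (.dbl 10 11 26))))))) (.rp 43 (.thr 9 57 (.thr 11 10 (.thr 56 26 (.thr 40 24 (.thr 47 32 (.thr 29 17 (.thr 45 33 (.thr 49 13 (.thr 46 44 (.thr 63 12 (.thr 53 5 (.thr 15 31 (.thr 52 55 (.dbl 48 58 60)))))))))))))) (.rp 40 (.thr 9 57 (.thr 10 11 (.thr 58 26 (.thr 53 5 (.thr 48 63 (.thr 49 13 (.dbl 50 51 62))))))) (.rp 26 (.thr 49 13 (.thr 9 57 (.thr 40 43 (.thr 11 10 (.thr 56 24 (.thr 47 32 (.thr 29 17 (.thr 45 33 (.thr 46 44 (.thr 63 12 (.thr 53 5 (.thr 15 31 (.thr 52 55 (.dbl 48 58 60)))))))))))))) (.rp 24 (.thr 9 57 (.thr 10 11 (.thr 58 26 (.thr 53 5 (.thr 48 63 (.thr 49 13 (.dbl 50 51 62))))))) (.rp 11 (.thr 32 47 (.thr 33 45 (.thr 34 35 (.thr 50 18 (.thr 49 13 (.thr 51 48 (.dbl 57 9 60)))))))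 (.rp 10 (.thr 32 47 (.thr 33 45 (.thr 34 35 (.thr 50 18 (.thr 49 13 (.thr 51 48 (.dbl 57 9 60))))))) (.rp 9 (.str 12 (.nv (.thr 13 49 (.thr 15 14 (.thr 26 48 (.thr 24 27 (.dbl 40 43 56))))) (.nv (.thr 5 53 (.thr 29 17 (.thr 45 33 (.thr 49 13 (.thr 47 32 (.dbl 46 44 63)))))) (.nv (.thr 40 43 (.thr 24 56 (.thr 48 36 (.dbl 26 15 27)))) (.rp 48 (.thr 33 45 (.thr 29 17 (.thr 13 49 (.thr 63 46 (.thr 15 14 (.dbl 47 31 32)))))) (.rp 13 (.thr 5 53 (.thr 45 33 (.thr 47 32 (.thr 46 44 (.dbl 29 17 63))))) .nd)))))) .nd))))))))))))) .nd)))))))))))))) (.rp 2 (.str 3 (.nv (.thr 5 53 (.thr 9 57 (.thr 6 12 (.thr 7 4 (.dbl 11 10 15))))) (.nv (.thr 33 45 (.thr 43 40 (.thr 48 18 (.thr 63 23 (.dbl 53 5 58))))) (.nv (.thr 40 43 (.thr 9 57 (.thr 56 24 (.dbl 11 10 26)))) (.rp 54 (.str 6 (.nv (.dbl 9 12 57)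 (.rp 57 (.thr 9 12 (.thr 11 10 (.thr 7 15 (.dbl 5 4 53)))) (.rp 12 (.thr 40 43 (.thr 9 57 (.thr 11 10 (.dbl 56 24 26)))) (.rp 9 (.thr 33 45 (.thr 43 40 (.thr 63 23 (.thr 48 18 (.dbl 53 5 58))))) .nd))))) (.rp 6 (.str 54 (.nv (.thr 33 45 (.thr 40 43 (.thr 48 18 (.thr 26 15 (.dbl 24 27 56))))) (.nv (.thr 32 47 (.thr 33 45 (.thr 35 34 (.thr 51 19 (.dbl 57 9 60))))) (.nv (.thr 40 43 (.thr 9 57 (.thr 56 24 (.dbl 11 10 26)))) (.rp 14 (.str 10 (.nv (.thr 26 58 (.thr 33 45 (.dbl 48 15 18))) (.nv (.dbl 9 11 57) (.rp 57 (.thr 11 9 (.dbl 26 56 58)) (.rp 26 (.str 50 (.nv (.thr 33 45 (.thr 49 13 (.dbl 48 18 51))) (.nv (.dbl 9 11 57) (.rp 30 (.str 18 (.nv (.thr 62 58 (.dbl 9 11 57)) (.nv (.dbl 33 45 48) (.rp 62 (.str 46 (.nv (.dbl 33 45 48) (.nv (.dbl 9 11 57) .nd))) .nd)))) (.rp 18 (.str 30 (.nv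 (.dbl 9 11 57) (.rp 57 (.thr 45 33 (.thr 11 9 (.dbl 15 7 60))) (.rp 11 (.thr 57 9 (.thr 45 33 (.dbl 60 15 51))) (.rp 9 (.thr 58 62 (.thr 43 40 (.thr 63 23 (.dbl 53 5 48)))) .nd))))) (.rp 9 (.thr 43 40 (.thr 63 23 (.thr 58 62 (.dbl 53 5 48)))) .nd)))))) .nd))))) (.rp 10 (.str 14 (.nv (.thr 5 53 (.thr 43 40 (.thr 47 32 (.thr 35 39 (.thr 51 19 (.dbl 57 9 60)))))) (.nv (.thr 33 45 (.thr 13 49 (.thr 15 12 (.dbl 48 18 26)))) (.rp 48 (.thr 43 40 (.thr 63 23 (.thr 29 17 (.thr 12 46 (.dbl 13 15 49))))) (.rp 5 (.str 15 (.nv (.thr 9 57 (.thr 26 48 (.dbl 11 7 56))) (.nv (.dbl 13 12 49) (.rp 7 (.str 4 (.nv (.thr 9 57 (.thr 33 45 (.dbl 48 18 26))) (.nv (.dbl 13 12 49) .nd))) (.rp 4 (.thr 7 11 (.dbl 13 12 49)) .nd))))) .nd))))) .nd)))))) .nd)))))) .nd))))))))))))))))) .nd))))))))))))))))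

theorem w456 : WinAt (4535487561728, 274882101249) :=
  chF (K := []) kn c456 4535487561728 274882101249 0
    [18014673391583296] (by decide +kernel) (by decide +kernel)

/-- A certificate. -/
noncomputable def c457 : Ct := (.str 41 (.nv (.thr 0 63 (.thr 5 53 (.thr 15 10 (.thr 40 43 (.thr 45 33 (.dbl 60 20 30)))))) (.nv (.thr 0 63 (.thr 1 61 (.thr 3 2 (.thr 32 47 (.thr 48 16 (.dbl 33 18 45)))))) (.nv (.thr 33 45 (.thr 1 61 (.thr 49 17 (.thr 5 53 (.dbl 13 9 25))))) (.rp 54 (.str 6 (.nv (.thr 0 63 (.thr 1 61 (.thr 2 3 (.thr 5 53 (.dbl 10 14 15))))) (.nv (.thr 0 63 (.thr 5 53 (.thr 15 10 (.thr 40 43 (.thr 45 33 (.dbl 60 20 30)))))) (.nv (.thr 0 63 (.thr 1 61 (.thr 3 2 (.thr 32 47 (.thr 48 16 (.dbl 33 18 45)))))) (.nv (.thr 45 33 (.thr 61 1 (.thr 13 29 (.thr 53 5 (.dbl 49 25 57)))))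 (.rp 50 (.str 14 (.nv (.thr 0 63 (.thr 5 53 (.thr 4 7 (.thr 12 8 (.dbl 15 10 13))))) (.nv (.thr 1 61 (.thr 2 10 (.dbl 0 3 63))) (.rp 63 (.thr 10 2 (.thr 1 61 (.thr 5 53 (.thr 13 9 (.dbl 15 0 12))))) (.rp 62 (.str 58 (.nv (.thr 0 63 (.thr 2 10 (.dbl 1 3 61))) (.nv (.thr 53 5 (.dbl 63 0 48)) (.rp 63 (.thr 5 53 (.thr 10 2 (.thr 15 0 (.thr 13 12 (.dbl 1 9 61))))) (.rp 30 (.str 18 (.nv (.thr 0 63 (.thr 2 10 (.dbl 1 3 61))) (.nv (.thr 53 5 (.dbl 63 0 48)) (.rp 63 (.thr 2 10 (.thr 33 45 (.thr 3 48 (.dbl 1 0 61)))) (.rp 0 (.thr 33 45 (.thr 53 5 (.dbl 48 3 63))) .nd))))) (.rp 18 (.str 30 (.nv (.thr 2 10 (.thr 0 63 (.dbl 1 3 61))) (.nv (.thr 45 33 (.thr 15 60 (.thr 61 1 (.dbl 13 12 29)))) (.nv (.thr 53 5 (.dbl 63 0 48)) (.rp 2 (.str 34 (.nv (.thr 33 45 (.dbl 32 35 47)) (.nv (.thr 53 5 (.dbl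 63 0 48)) .nd))) .nd))))) (.rp 0 (.thr 5 53 (.thr 1 61 (.thr 13 9 (.thr 33 45 (.dbl 49 17 25))))) .nd))))))) (.rp 58 (.str 62 (.nv (.thr 45 33 (.thr 47 32 (.dbl 46 30 44))) (.nv (.thr 61 1 (.dbl 63 0 60)) (.rp 30 (.str 18 (.nv (.thr 0 63 (.thr 10 2 (.dbl 5 15 53))) (.nv (.thr 61 1 (.dbl 63 0 60)) (.rp 63 (.thr 2 10 (.thr 33 45 (.thr 1 61 (.dbl 3 0 48)))) (.rp 0 (.thr 45 33 (.thr 61 1 (.thr 13 29 (.thr 53 5 (.dbl 49 25 57))))) .nd))))) (.rp 18 (.thr 30 46 (.thr 61 1 (.dbl 63 0 60))) .nd))))) (.rp 30 (.str 18 (.nv (.thr 0 63 (.thr 32 47 (.thr 33 45 (.dbl 48 3 16)))) (.nv (.thr 1 61 (.thr 2 10 (.dbl 0 3 63))) (.rp 63 (.thr 33 45 (.thr 1 61 (.thr 2 10 (.dbl 3 0 48)))) (.rp 62 (.str 58 (.nv (.thr 0 63 (.thr 2 10 (.dbl 1 3 61))) (.nv (.thr 53 5 (.dbl 63 0 48)) (.rp 63 (.thr 2 10 (.thr 33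 45 (.thr 3 48 (.dbl 1 0 61)))) (.rp 0 (.thr 33 45 (.thr 53 5 (.dbl 48 3 63))) .nd))))) (.rp 58 (.str 62 (.nv (.thr 0 63 (.thr 10 2 (.dbl 5 15 53))) (.nv (.thr 61 1 (.dbl 63 0 60)) (.rp 63 (.thr 2 10 (.thr 33 45 (.thr 1 61 (.dbl 3 0 48)))) (.rp 0 (.thr 45 33 (.thr 61 1 (.thr 13 29 (.thr 53 5 (.dbl 49 25 57))))) .nd))))) (.rp 3 (.thr 5 53 (.thr 10 2 (.dbl 0 15 63))) (.rp 0 (.thr 33 45 (.thr 5 53 (.thr 1 61 (.thr 13 9 (.dbl 49 17 25))))) .nd)))))))) (.rp 18 (.str 30 (.nv (.thr 62 46 (.thr 61 1 (.dbl 63 0 60))) (.nv (.thr 45 33 (.thr 47 32 (.dbl 46 44 62))) (.nv (.thr 2 10 (.thr 0 63 (.dbl 1 3 61))) (.rp 62 (.str 58 (.nv (.thr 2 10 (.thr 0 63 (.dbl 1 3 61))) (.nv (.thr 45 33 (.thr 15 60 (.thr 61 1 (.dbl 13 12 29)))) (.nv (.thr 53 5 (.dbl 63 0 48)) (.rp 2 (.str 34 (.nv (.thr 33 45 (.dbl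 32 35 47)) (.nv (.thr 53 5 (.dbl 63 0 48)) .nd))) .nd))))) (.rp 2 (.str 34 (.nv (.thr 62 46 (.thr 61 1 (.dbl 63 0 60))) (.nv (.thr 33 45 (.dbl 32 35 47)) (.rp 62 (.str 58 (.nv (.thr 33 45 (.dbl 32 35 47)) (.nv (.thr 53 5 (.dbl 63 0 48)) .nd))) .nd)))) .nd)))))) (.rp 10 (.thr 45 33 (.thr 61 1 (.thr 13 29 (.thr 53 5 (.dbl 49 25 57))))) (.rp 0 (.thr 45 33 (.thr 61 1 (.thr 13 29 (.thr 53 5 (.dbl 49 25 57))))) .nd)))))))))) (.rp 30 (.str 18 (.nv (.thr 0 63 (.thr 1 61 (.thr 3 2 (.thr 32 47 (.dbl 48 16 33))))) (.nv (.thr 1 61 (.thr 5 53 (.thr 13 9 (.thr 49 25 (.dbl 33 17 45))))) (.nv (.thr 33 45 (.thr 48 3 (.thr 53 5 (.dbl 63 0 58)))) (.rp 50 (.str 14 (.nv (.thr 0 63 (.thr 32 47 (.thr 33 45 (.dbl 48 3 16)))) (.nv (.thr 1 61 (.thr 2 10 (.dbl 0 3 63))) (.rp 63 (.thr 33 45 (.thr 1 61 (.thr 2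 10 (.dbl 3 0 48)))) (.rp 62 (.str 58 (.nv (.thr 0 63 (.thr 2 10 (.dbl 1 3 61))) (.nv (.thr 53 5 (.dbl 63 0 48)) (.rp 63 (.thr 2 10 (.thr 33 45 (.thr 3 48 (.dbl 1 0 61)))) (.rp 0 (.thr 33 45 (.thr 53 5 (.dbl 48 3 63))) .nd))))) (.rp 58 (.str 62 (.nv (.thr 0 63 (.thr 10 2 (.dbl 5 15 53))) (.nv (.thr 61 1 (.dbl 63 0 60)) (.rp 63 (.thr 2 10 (.thr 33 45 (.thr 1 61 (.dbl 3 0 48)))) (.rp 0 (.thr 45 33 (.thr 61 1 (.thr 13 29 (.thr 53 5 (.dbl 49 25 57))))) .nd))))) (.rp 3 (.thr 5 53 (.thr 10 2 (.dbl 0 15 63))) (.rp 0 (.thr 33 45 (.thr 5 53 (.thr 1 61 (.thr 13 9 (.dbl 49 17 25))))) .nd)))))))) (.rp 33 (.thr 5 53 (.thr 0 63 (.thr 1 61 (.thr 3 2 (.dbl 9 12 13))))) (.rp 14 (.str 50 (.nv (.thr 0 63 (.thr 1 61 (.thr 3 2 (.thr 5 53 (.dbl 9 12 13))))) (.nv (.thr 34 2 (.thr 32 47 (.dbl 33 35 45))) (.rp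 62 (.str 46 (.nv (.thr 0 63 (.thr 2 34 (.dbl 1 3 61))) (.nv (.thr 45 33 (.dbl 47 32 44)) .nd))) (.rp 46 (.str 62 (.nv (.thr 32 47 (.thr 34 2 (.dbl 33 35 45))) (.nv (.thr 61 1 (.dbl 63 0 60)) .nd))) (.rp 2 (.thr 53 5 (.thr 63 0 (.thr 48 58 (.dbl 33 3 45)))) .nd)))))) .nd))))))) (.rp 18 (.str 30 (.nv (.thr 0 63 (.thr 1 61 (.thr 3 2 (.thr 5 53 (.dbl 9 12 13))))) (.nv (.thr 1 61 (.thr 5 53 (.thr 13 9 (.thr 33 45 (.dbl 49 17 25))))) (.nv (.thr 40 43 (.thr 45 33 (.thr 60 15 (.dbl 0 20 63)))) (.rp 50 (.str 14 (.nv (.thr 62 46 (.thr 61 1 (.dbl 63 0 60))) (.nv (.thr 45 33 (.thr 47 32 (.dbl 46 44 62))) (.nv (.thr 2 10 (.thr 0 63 (.dbl 1 3 61))) (.rp 62 (.str 58 (.nv (.thr 2 10 (.thr 0 63 (.dbl 1 3 61))) (.nv (.thr 45 33 (.thr 15 60 (.thr 61 1 (.dbl 13 12 29)))) (.nv (.thr 53 5 (.dbl 63 0 48))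 (.rp 2 (.str 34 (.nv (.thr 33 45 (.dbl 32 35 47)) (.nv (.thr 53 5 (.dbl 63 0 48)) .nd))) .nd))))) (.rp 2 (.str 34 (.nv (.thr 62 46 (.thr 61 1 (.dbl 63 0 60))) (.nv (.thr 33 45 (.dbl 32 35 47)) (.rp 62 (.str 58 (.nv (.thr 33 45 (.dbl 32 35 47)) (.nv (.thr 53 5 (.dbl 63 0 48)) .nd))) .nd)))) .nd)))))) (.rp 14 (.str 50 (.nv (.thr 0 63 (.thr 1 61 (.thr 3 2 (.thr 5 53 (.dbl 9 12 13))))) (.nv (.thr 1 61 (.thr 5 53 (.thr 13 9 (.thr 33 45 (.dbl 49 17 25))))) (.nv (.thr 63 0 (.thr 47 32 (.thr 15 31 (.dbl 45 33 60)))) .nd)))) .nd)))))) (.rp 14 (.str 50 (.nv (.thr 0 63 (.thr 1 61 (.thr 3 2 (.thr 5 53 (.dbl 9 12 13))))) (.nv (.thr 0 63 (.thr 32 47 (.thr 33 45 (.thr 34 35 (.thr 18 2 (.dbl 48 3 16)))))) (.nv (.thr 45 33 (.thr 53 5 (.thr 61 1 (.thr 13 29 (.dbl 49 25 57))))) (.rp 30 (.str 18 (.nv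 (.thr 0 63 (.thr 1 61 (.thr 3 2 (.thr 5 53 (.dbl 9 12 13))))) (.nv (.thr 34 2 (.thr 32 47 (.dbl 33 35 45))) (.rp 62 (.str 46 (.nv (.thr 0 63 (.thr 2 34 (.dbl 1 3 61))) (.nv (.thr 45 33 (.dbl 47 32 44)) .nd))) (.rp 46 (.str 62 (.nv (.thr 32 47 (.thr 34 2 (.dbl 33 35 45))) (.nv (.thr 61 1 (.dbl 63 0 60)) .nd))) (.rp 2 (.thr 53 5 (.thr 63 0 (.thr 48 58 (.dbl 33 3 45)))) .nd)))))) (.rp 18 (.str 30 (.nv (.thr 0 63 (.thr 1 61 (.thr 3 2 (.thr 5 53 (.dbl 9 12 13))))) (.nv (.thr 1 61 (.thr 5 53 (.thr 13 9 (.thr 33 45 (.dbl 49 17 25))))) (.nv (.thr 63 0 (.thr 47 32 (.thr 15 31 (.dbl 45 33 60)))) .nd)))) .nd)))))) .nd))))))))) (.rp 50 (.str 14 (.nv (.thr 0 63 (.thr 5 53 (.thr 15 10 (.thr 13 12 (.thr 9 1 (.dbl 25 49 57)))))) (.nv (.thr 0 63 (.thr 1 61 (.thr 3 2 (.thr 32 47 (.thr 48 16 (.dbl 33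 18 45)))))) (.nv (.thr 45 33 (.thr 61 1 (.thr 13 29 (.thr 53 5 (.dbl 49 25 57))))) (.rp 54 (.str 6 (.nv (.thr 0 63 (.thr 5 53 (.thr 4 7 (.thr 12 8 (.dbl 15 10 13))))) (.nv (.thr 1 61 (.thr 2 10 (.dbl 0 3 63))) (.rp 63 (.thr 10 2 (.thr 1 61 (.thr 5 53 (.thr 13 9 (.dbl 15 0 12))))) (.rp 62 (.str 58 (.nv (.thr 0 63 (.thr 2 10 (.dbl 1 3 61))) (.nv (.thr 53 5 (.dbl 63 0 48)) (.rp 63 (.thr 5 53 (.thr 10 2 (.thr 15 0 (.thr 13 12 (.dbl 1 9 61))))) (.rp 30 (.str 18 (.nv (.thr 0 63 (.thr 2 10 (.dbl 1 3 61))) (.nv (.thr 53 5 (.dbl 63 0 48)) (.rp 63 (.thr 2 10 (.thr 33 45 (.thr 3 48 (.dbl 1 0 61)))) (.rp 0 (.thr 33 45 (.thr 53 5 (.dbl 48 3 63))) .nd))))) (.rp 18 (.str 30 (.nv (.thr 2 10 (.thr 0 63 (.dbl 1 3 61))) (.nv (.thr 45 33 (.thr 15 60 (.thr 61 1 (.dbl 13 12 29)))) (.nv (.thr 53 5 (.dbl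 63 0 48)) (.rp 2 (.str 34 (.nv (.thr 33 45 (.dbl 32 35 47)) (.nv (.thr 53 5 (.dbl 63 0 48)) .nd))) .nd))))) (.rp 0 (.thr 5 53 (.thr 1 61 (.thr 13 9 (.thr 33 45 (.dbl 49 17 25))))) .nd))))))) (.rp 58 (.str 62 (.nv (.thr 45 33 (.thr 47 32 (.dbl 46 30 44))) (.nv (.thr 61 1 (.dbl 63 0 60)) (.rp 30 (.str 18 (.nv (.thr 0 63 (.thr 10 2 (.dbl 5 15 53))) (.nv (.thr 61 1 (.dbl 63 0 60)) (.rp 63 (.thr 2 10 (.thr 33 45 (.thr 1 61 (.dbl 3 0 48)))) (.rp 0 (.thr 45 33 (.thr 61 1 (.thr 13 29 (.thr 53 5 (.dbl 49 25 57))))) .nd))))) (.rp 18 (.thr 30 46 (.thr 61 1 (.dbl 63 0 60))) .nd))))) (.rp 30 (.str 18 (.nv (.thr 0 63 (.thr 32 47 (.thr 33 45 (.dbl 48 3 16)))) (.nv (.thr 1 61 (.thr 2 10 (.dbl 0 3 63))) (.rp 63 (.thr 33 45 (.thr 1 61 (.thr 2 10 (.dbl 3 0 48)))) (.rp 62 (.str 58 (.nv (.thr 0 63 (.thr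 2 10 (.dbl 1 3 61))) (.nv (.thr 53 5 (.dbl 63 0 48)) (.rp 63 (.thr 2 10 (.thr 33 45 (.thr 3 48 (.dbl 1 0 61)))) (.rp 0 (.thr 33 45 (.thr 53 5 (.dbl 48 3 63))) .nd))))) (.rp 58 (.str 62 (.nv (.thr 0 63 (.thr 10 2 (.dbl 5 15 53))) (.nv (.thr 61 1 (.dbl 63 0 60)) (.rp 63 (.thr 2 10 (.thr 33 45 (.thr 1 61 (.dbl 3 0 48)))) (.rp 0 (.thr 45 33 (.thr 61 1 (.thr 13 29 (.thr 53 5 (.dbl 49 25 57))))) .nd))))) (.rp 3 (.thr 5 53 (.thr 10 2 (.dbl 0 15 63))) (.rp 0 (.thr 33 45 (.thr 5 53 (.thr 1 61 (.thr 13 9 (.dbl 49 17 25))))) .nd)))))))) (.rp 18 (.str 30 (.nv (.thr 62 46 (.thr 61 1 (.dbl 63 0 60))) (.nv (.thr 45 33 (.thr 47 32 (.dbl 46 44 62))) (.nv (.thr 2 10 (.thr 0 63 (.dbl 1 3 61))) (.rp 62 (.str 58 (.nv (.thr 2 10 (.thr 0 63 (.dbl 1 3 61))) (.nv (.thr 45 33 (.thr 15 60 (.thr 61 1 (.dbl 13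 12 29)))) (.nv (.thr 53 5 (.dbl 63 0 48)) (.rp 2 (.str 34 (.nv (.thr 33 45 (.dbl 32 35 47)) (.nv (.thr 53 5 (.dbl 63 0 48)) .nd))) .nd))))) (.rp 2 (.str 34 (.nv (.thr 62 46 (.thr 61 1 (.dbl 63 0 60))) (.nv (.thr 33 45 (.dbl 32 35 47)) (.rp 62 (.str 58 (.nv (.thr 33 45 (.dbl 32 35 47)) (.nv (.thr 53 5 (.dbl 63 0 48)) .nd))) .nd)))) .nd)))))) (.rp 10 (.thr 45 33 (.thr 61 1 (.thr 13 29 (.thr 53 5 (.dbl 49 25 57))))) (.rp 0 (.thr 45 33 (.thr 61 1 (.thr 13 29 (.thr 53 5 (.dbl 49 25 57))))) .nd)))))))))) (.rp 30 (.str 18 (.nv (.thr 0 63 (.thr 1 61 (.thr 2 3 (.thr 5 53 (.dbl 10 6 15))))) (.nv (.thr 1 61 (.thr 5 53 (.thr 13 9 (.thr 49 25 (.dbl 33 17 45))))) (.nv (.thr 43 40 (.thr 63 0 (.thr 3 23 (.dbl 33 45 48)))) (.rp 54 (.str 6 (.nv (.thr 0 63 (.thr 32 47 (.thr 33 45 (.dbl 48 3 16)))) (.nv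 (.thr 1 61 (.thr 2 10 (.dbl 0 3 63))) (.rp 63 (.thr 33 45 (.thr 1 61 (.thr 2 10 (.dbl 3 0 48)))) (.rp 62 (.str 58 (.nv (.thr 0 63 (.thr 2 10 (.dbl 1 3 61))) (.nv (.thr 53 5 (.dbl 63 0 48)) (.rp 63 (.thr 2 10 (.thr 33 45 (.thr 3 48 (.dbl 1 0 61)))) (.rp 0 (.thr 33 45 (.thr 53 5 (.dbl 48 3 63))) .nd))))) (.rp 58 (.str 62 (.nv (.thr 0 63 (.thr 10 2 (.dbl 5 15 53))) (.nv (.thr 61 1 (.dbl 63 0 60)) (.rp 63 (.thr 2 10 (.thr 33 45 (.thr 1 61 (.dbl 3 0 48)))) (.rp 0 (.thr 45 33 (.thr 61 1 (.thr 13 29 (.thr 53 5 (.dbl 49 25 57))))) .nd))))) (.rp 3 (.thr 5 53 (.thr 10 2 (.dbl 0 15 63))) (.rp 0 (.thr 33 45 (.thr 5 53 (.thr 1 61 (.thr 13 9 (.dbl 49 17 25))))) .nd)))))))) (.rp 6 (.str 54 (.nv (.thr 0 63 (.thr 1 61 (.thr 5 53 (.thr 13 9 (.dbl 15 10 12))))) (.nv (.thr 1 61 (.thr 5 53 (.thr 33 45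 (.thr 49 17 (.dbl 13 9 25))))) (.nv (.thr 0 63 (.thr 32 47 (.thr 48 16 (.dbl 33 3 45)))) (.rp 15 (.thr 1 61 (.thr 0 63 (.thr 3 2 (.dbl 33 45 48)))) .nd))))) .nd)))))) (.rp 18 (.str 30 (.nv (.thr 0 63 (.thr 5 53 (.thr 15 10 (.dbl 45 33 60)))) (.nv (.thr 47 32 (.thr 46 62 (.dbl 45 33 44))) (.nv (.thr 61 1 (.thr 62 46 (.dbl 63 0 60))) (.rp 54 (.str 6 (.nv (.thr 62 46 (.thr 61 1 (.dbl 63 0 60))) (.nv (.thr 45 33 (.thr 47 32 (.dbl 46 44 62))) (.nv (.thr 2 10 (.thr 0 63 (.dbl 1 3 61))) (.rp 62 (.str 58 (.nv (.thr 2 10 (.thr 0 63 (.dbl 1 3 61))) (.nv (.thr 45 33 (.thr 15 60 (.thr 61 1 (.dbl 13 12 29)))) (.nv (.thr 53 5 (.dbl 63 0 48)) (.rp 2 (.str 34 (.nv (.thr 33 45 (.dbl 32 35 47)) (.nv (.thr 53 5 (.dbl 63 0 48)) .nd))) .nd))))) (.rp 2 (.str 34 (.nv (.thr 62 46 (.thr 61 1 (.dbl 63 0 60)))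 (.nv (.thr 33 45 (.dbl 32 35 47)) (.rp 62 (.str 58 (.nv (.thr 33 45 (.dbl 32 35 47)) (.nv (.thr 53 5 (.dbl 63 0 48)) .nd))) .nd)))) .nd)))))) (.rp 34 (.str 2 (.nv (.thr 46 62 (.thr 47 32 (.dbl 45 33 44))) (.nv (.thr 0 63 (.dbl 1 3 61)) (.rp 54 (.thr 6 10 (.thr 0 63 (.dbl 1 3 61))) (.rp 6 (.str 54 (.nv (.thr 46 62 (.thr 47 32 (.dbl 45 33 44))) (.nv (.thr 1 61 (.dbl 0 3 63)) .nd))) .nd))))) (.rp 6 (.str 54 (.nv (.thr 0 63 (.thr 5 53 (.thr 15 10 (.thr 40 43 (.dbl 60 20 45))))) (.nv (.thr 46 62 (.thr 47 32 (.dbl 45 33 44))) (.rp 45 (.thr 62 46 (.thr 63 0 (.dbl 61 1 60))) (.rp 34 (.str 2 (.nv (.thr 46 62 (.thr 47 32 (.dbl 45 33 44))) (.nv (.thr 1 61 (.dbl 0 3 63)) .nd))) (.rp 2 (.str 34 (.nv (.thr 61 1 (.thr 62 46 (.dbl 63 0 60))) (.nv (.thr 33 45 (.dbl 32 35 47)) .nd))) .nd)))))) (.rp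 2 (.str 34 (.nv (.thr 61 1 (.thr 62 46 (.dbl 63 0 60))) (.nv (.thr 33 45 (.dbl 32 35 47)) (.rp 54 (.str 6 (.nv (.thr 62 46 (.thr 61 1 (.dbl 63 0 60))) (.nv (.thr 33 45 (.dbl 32 35 47)) (.rp 62 (.str 58 (.nv (.thr 33 45 (.dbl 32 35 47)) (.nv (.thr 53 5 (.dbl 63 0 48)) .nd))) .nd)))) (.rp 6 (.str 54 (.nv (.thr 61 1 (.thr 62 46 (.dbl 63 0 60))) (.nv (.thr 33 45 (.dbl 32 35 47)) .nd))) .nd))))) .nd)))))))) (.rp 6 (.str 54 (.nv (.thr 61 1 (.thr 63 0 (.thr 60 62 (.thr 57 51 (.dbl 53 5 49))))) (.nv (.thr 45 33 (.thr 47 32 (.thr 63 0 (.thr 15 31 (.thr 12 13 (.dbl 46 29 44)))))) (.nv (.thr 1 61 (.thr 33 45 (.thr 5 53 (.thr 49 17 (.dbl 13 9 25))))) (.rp 30 (.str 18 (.nv (.thr 0 63 (.thr 1 61 (.thr 5 53 (.thr 13 9 (.dbl 15 10 12))))) (.nv (.thr 1 61 (.thr 5 53 (.thr 33 45 (.thr 49 17 (.dbl 13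 9 25))))) (.nv (.thr 0 63 (.thr 32 47 (.thr 48 16 (.dbl 33 3 45)))) (.rp 15 (.thr 1 61 (.thr 0 63 (.thr 3 2 (.dbl 33 45 48)))) .nd))))) (.rp 18 (.str 30 (.nv (.thr 0 63 (.thr 5 53 (.thr 15 10 (.thr 40 43 (.dbl 60 20 45))))) (.nv (.thr 46 62 (.thr 47 32 (.dbl 45 33 44))) (.rp 45 (.thr 62 46 (.thr 63 0 (.dbl 61 1 60))) (.rp 34 (.str 2 (.nv (.thr 46 62 (.thr 47 32 (.dbl 45 33 44))) (.nv (.thr 1 61 (.dbl 0 3 63)) .nd))) (.rp 2 (.str 34 (.nv (.thr 61 1 (.thr 62 46 (.dbl 63 0 60))) (.nv (.thr 33 45 (.dbl 32 35 47)) .nd))) .nd)))))) .nd)))))) (.rp 1 (.thr 45 33 (.thr 40 43 (.thr 0 63 (.thr 5 53 (.thr 15 10 (.dbl 60 20 30)))))) .nd))))))))) (.rp 45 (.thr 63 0 (.thr 61 1 (.thr 53 5 (.thr 57 49 (.thr 58 48 (.thr 59 56 (.dbl 25 8 9))))))) (.rp 33 (.thr 0 63 (.thr 1 61 (.thr 5 53 (.thr 9 13 (.thr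 10 15 (.thr 8 11 (.dbl 25 57 59))))))) (.rp 30 (.str 18 (.nv (.thr 0 63 (.thr 1 61 (.thr 3 2 (.thr 32 47 (.dbl 48 16 33))))) (.nv (.thr 1 61 (.thr 5 53 (.thr 13 9 (.thr 49 25 (.dbl 33 17 45))))) (.nv (.thr 53 5 (.thr 63 0 (.thr 48 58 (.dbl 33 3 45)))) (.rp 54 (.str 6 (.nv (.thr 0 63 (.thr 1 61 (.thr 3 2 (.thr 32 47 (.dbl 48 16 33))))) (.nv (.thr 1 61 (.thr 5 53 (.thr 13 9 (.thr 49 25 (.dbl 33 17 45))))) (.nv (.thr 33 45 (.thr 48 3 (.thr 53 5 (.dbl 63 0 58)))) (.rp 50 (.str 14 (.nv (.thr 0 63 (.thr 32 47 (.thr 33 45 (.dbl 48 3 16)))) (.nv (.thr 1 61 (.thr 2 10 (.dbl 0 3 63))) (.rp 63 (.thr 33 45 (.thr 1 61 (.thr 2 10 (.dbl 3 0 48)))) (.rp 62 (.str 58 (.nv (.thr 0 63 (.thr 2 10 (.dbl 1 3 61))) (.nv (.thr 53 5 (.dbl 63 0 48)) (.rp 63 (.thr 2 10 (.thr 33 45 (.thr 3 48 (.dbl 1 0 61))))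 (.rp 0 (.thr 33 45 (.thr 53 5 (.dbl 48 3 63))) .nd))))) (.rp 58 (.str 62 (.nv (.thr 0 63 (.thr 10 2 (.dbl 5 15 53))) (.nv (.thr 61 1 (.dbl 63 0 60)) (.rp 63 (.thr 2 10 (.thr 33 45 (.thr 1 61 (.dbl 3 0 48)))) (.rp 0 (.thr 45 33 (.thr 61 1 (.thr 13 29 (.thr 53 5 (.dbl 49 25 57))))) .nd))))) (.rp 3 (.thr 5 53 (.thr 10 2 (.dbl 0 15 63))) (.rp 0 (.thr 33 45 (.thr 5 53 (.thr 1 61 (.thr 13 9 (.dbl 49 17 25))))) .nd)))))))) (.rp 33 (.thr 5 53 (.thr 0 63 (.thr 1 61 (.thr 3 2 (.dbl 9 12 13))))) (.rp 14 (.str 50 (.nv (.thr 0 63 (.thr 1 61 (.thr 3 2 (.thr 5 53 (.dbl 9 12 13))))) (.nv (.thr 34 2 (.thr 32 47 (.dbl 33 35 45))) (.rp 62 (.str 46 (.nv (.thr 0 63 (.thr 2 34 (.dbl 1 3 61))) (.nv (.thr 45 33 (.dbl 47 32 44)) .nd))) (.rp 46 (.str 62 (.nv (.thr 32 47 (.thr 34 2 (.dbl 33 35 45))) (.nv (.thr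 61 1 (.dbl 63 0 60)) .nd))) (.rp 2 (.thr 53 5 (.thr 63 0 (.thr 48 58 (.dbl 33 3 45)))) .nd)))))) .nd))))))) (.rp 50 (.str 14 (.nv (.thr 0 63 (.thr 1 61 (.thr 2 3 (.thr 5 53 (.dbl 10 6 15))))) (.nv (.thr 1 61 (.thr 5 53 (.thr 13 9 (.thr 49 25 (.dbl 33 17 45))))) (.nv (.thr 43 40 (.thr 63 0 (.thr 3 23 (.dbl 33 45 48)))) (.rp 54 (.str 6 (.nv (.thr 0 63 (.thr 32 47 (.thr 33 45 (.dbl 48 3 16)))) (.nv (.thr 1 61 (.thr 2 10 (.dbl 0 3 63))) (.rp 63 (.thr 33 45 (.thr 1 61 (.thr 2 10 (.dbl 3 0 48)))) (.rp 62 (.str 58 (.nv (.thr 0 63 (.thr 2 10 (.dbl 1 3 61))) (.nv (.thr 53 5 (.dbl 63 0 48)) (.rp 63 (.thr 2 10 (.thr 33 45 (.thr 3 48 (.dbl 1 0 61)))) (.rp 0 (.thr 33 45 (.thr 53 5 (.dbl 48 3 63))) .nd))))) (.rp 58 (.str 62 (.nv (.thr 0 63 (.thr 10 2 (.dbl 5 15 53))) (.nv (.thr 61 1 (.dbl 63 0 60))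 (.rp 63 (.thr 2 10 (.thr 33 45 (.thr 1 61 (.dbl 3 0 48)))) (.rp 0 (.thr 45 33 (.thr 61 1 (.thr 13 29 (.thr 53 5 (.dbl 49 25 57))))) .nd))))) (.rp 3 (.thr 5 53 (.thr 10 2 (.dbl 0 15 63))) (.rp 0 (.thr 33 45 (.thr 5 53 (.thr 1 61 (.thr 13 9 (.dbl 49 17 25))))) .nd)))))))) (.rp 6 (.str 54 (.nv (.thr 0 63 (.thr 1 61 (.thr 5 53 (.thr 13 9 (.dbl 15 10 12))))) (.nv (.thr 1 61 (.thr 5 53 (.thr 33 45 (.thr 49 17 (.dbl 13 9 25))))) (.nv (.thr 0 63 (.thr 32 47 (.thr 48 16 (.dbl 33 3 45)))) (.rp 15 (.thr 1 61 (.thr 0 63 (.thr 3 2 (.dbl 33 45 48)))) .nd))))) .nd)))))) (.rp 33 (.thr 32 47 (.thr 0 63 (.thr 16 48 (.thr 17 19 (.thr 34 51 (.thr 1 61 (.dbl 2 3 50))))))) (.rp 14 (.str 50 (.nv (.thr 0 63 (.thr 32 47 (.thr 33 45 (.dbl 48 3 16)))) (.nv (.thr 32 47 (.thr 34 2 (.dbl 33 35 45))) (.nv (.thr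 0 63 (.thr 2 34 (.dbl 1 3 61))) (.rp 62 (.str 46 (.nv (.thr 0 63 (.thr 2 34 (.dbl 1 3 61))) (.nv (.thr 45 33 (.dbl 47 32 44)) (.rp 54 (.str 6 (.nv (.thr 0 63 (.thr 2 34 (.dbl 1 3 61))) (.nv (.thr 45 33 (.dbl 47 32 44)) .nd))) (.rp 6 (.str 54 (.nv (.thr 2 34 (.thr 0 63 (.dbl 1 3 61))) (.nv (.thr 45 33 (.dbl 47 32 44)) (.rp 2 (.str 10 (.nv (.thr 45 33 (.dbl 47 32 44)) (.nv (.thr 5 53 (.dbl 0 15 63)) .nd))) .nd)))) .nd))))) (.rp 54 (.str 6 (.nv (.thr 0 63 (.thr 1 61 (.thr 3 2 (.thr 5 53 (.dbl 9 12 13))))) (.nv (.thr 34 2 (.thr 32 47 (.dbl 33 35 45))) (.rp 62 (.str 46 (.nv (.thr 0 63 (.thr 2 34 (.dbl 1 3 61))) (.nv (.thr 45 33 (.dbl 47 32 44)) .nd))) (.rp 46 (.str 62 (.nv (.thr 32 47 (.thr 34 2 (.dbl 33 35 45))) (.nv (.thr 61 1 (.dbl 63 0 60)) .nd))) (.rp 2 (.thr 53 5 (.thr 63 0 (.thr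 48 58 (.dbl 33 3 45)))) .nd)))))) (.rp 46 (.str 62 (.nv (.thr 32 47 (.thr 34 2 (.dbl 33 35 45))) (.nv (.thr 63 0 (.dbl 61 1 60)) (.rp 54 (.str 6 (.nv (.thr 32 47 (.thr 34 2 (.dbl 33 35 45))) (.nv (.thr 61 1 (.dbl 63 0 60)) .nd))) (.rp 6 (.thr 54 58 (.thr 63 0 (.dbl 61 1 60))) .nd))))) (.rp 6 (.str 54 (.nv (.thr 2 34 (.thr 0 63 (.dbl 1 3 61))) (.nv (.thr 33 45 (.thr 32 47 (.dbl 34 2 35))) (.nv (.thr 62 58 (.thr 63 0 (.dbl 61 1 60))) (.rp 62 (.str 46 (.nv (.thr 2 34 (.thr 0 63 (.dbl 1 3 61))) (.nv (.thr 45 33 (.dbl 47 32 44)) (.rp 2 (.str 10 (.nv (.thr 45 33 (.dbl 47 32 44)) (.nv (.thr 5 53 (.dbl 0 15 63)) .nd))) .nd)))) (.rp 2 (.str 10 (.nv (.thr 62 58 (.thr 61 1 (.dbl 63 0 60))) (.nv (.thr 1 61 (.thr 33 45 (.thr 48 3 (.dbl 49 17 51)))) (.nv (.thr 5 53 (.dbl 0 15 63)) (.rp 62 (.str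 46 (.nv (.thr 45 33 (.dbl 47 32 44)) (.nv (.thr 5 53 (.dbl 0 15 63)) .nd))) .nd))))) .nd)))))) .nd)))))))) (.rp 6 (.str 54 (.nv (.thr 1 61 (.thr 5 53 (.thr 13 9 (.thr 49 25 (.dbl 33 17 45))))) (.nv (.thr 43 40 (.thr 33 45 (.thr 3 48 (.dbl 63 0 23)))) (.rp 50 (.str 14 (.nv (.thr 0 63 (.thr 1 61 (.thr 5 53 (.thr 13 9 (.dbl 15 10 12))))) (.nv (.thr 1 61 (.thr 5 53 (.thr 33 45 (.thr 49 17 (.dbl 13 9 25))))) (.nv (.thr 0 63 (.thr 32 47 (.thr 48 16 (.dbl 33 3 45)))) (.rp 15 (.thr 1 61 (.thr 0 63 (.thr 3 2 (.dbl 33 45 48)))) .nd))))) (.rp 45 (.thr 43 40 (.thr 63 0 (.thr 3 23 (.thr 48 33 (.dbl 53 5 58))))) (.rp 33 (.thr 63 0 (.thr 61 1 (.thr 60 62 (.thr 57 51 (.dbl 53 5 49))))) (.rp 14 (.str 50 (.nv (.thr 2 34 (.thr 0 63 (.dbl 1 3 61))) (.nv (.thr 33 45 (.thr 32 47 (.dbl 34 2 35))) (.nv (.thr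 62 58 (.thr 63 0 (.dbl 61 1 60))) (.rp 62 (.str 46 (.nv (.thr 2 34 (.thr 0 63 (.dbl 1 3 61))) (.nv (.thr 45 33 (.dbl 47 32 44)) (.rp 2 (.str 10 (.nv (.thr 45 33 (.dbl 47 32 44)) (.nv (.thr 5 53 (.dbl 0 15 63)) .nd))) .nd)))) (.rp 2 (.str 10 (.nv (.thr 62 58 (.thr 61 1 (.dbl 63 0 60))) (.nv (.thr 1 61 (.thr 33 45 (.thr 48 3 (.dbl 49 17 51)))) (.nv (.thr 5 53 (.dbl 0 15 63)) (.rp 62 (.str 46 (.nv (.thr 45 33 (.dbl 47 32 44)) (.nv (.thr 5 53 (.dbl 0 15 63)) .nd))) .nd))))) .nd)))))) (.rp 3 (.thr 33 45 (.thr 1 61 (.thr 49 17 (.thr 5 53 (.dbl 13 9 25))))) .nd)))))))) .nd))))))))) (.rp 18 (.str 30 (.nv (.thr 40 43 (.thr 45 33 (.thr 60 15 (.dbl 0 20 63)))) (.nv (.thr 1 61 (.thr 5 53 (.thr 13 9 (.thr 33 45 (.dbl 49 17 25))))) (.nv (.thr 5 53 (.thr 0 63 (.thr 15 10 (.dbl 45 33 60)))) (.rp 54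 (.str 6 (.nv (.thr 0 63 (.thr 1 61 (.thr 3 2 (.thr 5 53 (.dbl 9 12 13))))) (.nv (.thr 1 61 (.thr 5 53 (.thr 13 9 (.thr 33 45 (.dbl 49 17 25))))) (.nv (.thr 40 43 (.thr 45 33 (.thr 60 15 (.dbl 0 20 63)))) (.rp 50 (.str 14 (.nv (.thr 62 46 (.thr 61 1 (.dbl 63 0 60))) (.nv (.thr 45 33 (.thr 47 32 (.dbl 46 44 62))) (.nv (.thr 2 10 (.thr 0 63 (.dbl 1 3 61))) (.rp 62 (.str 58 (.nv (.thr 2 10 (.thr 0 63 (.dbl 1 3 61))) (.nv (.thr 45 33 (.thr 15 60 (.thr 61 1 (.dbl 13 12 29)))) (.nv (.thr 53 5 (.dbl 63 0 48)) (.rp 2 (.str 34 (.nv (.thr 33 45 (.dbl 32 35 47)) (.nv (.thr 53 5 (.dbl 63 0 48)) .nd))) .nd))))) (.rp 2 (.str 34 (.nv (.thr 62 46 (.thr 61 1 (.dbl 63 0 60))) (.nv (.thr 33 45 (.dbl 32 35 47)) (.rp 62 (.str 58 (.nv (.thr 33 45 (.dbl 32 35 47)) (.nv (.thr 53 5 (.dbl 63 0 48)) .nd))) .nd))))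 .nd)))))) (.rp 14 (.str 50 (.nv (.thr 0 63 (.thr 1 61 (.thr 3 2 (.thr 5 53 (.dbl 9 12 13))))) (.nv (.thr 1 61 (.thr 5 53 (.thr 13 9 (.thr 33 45 (.dbl 49 17 25))))) (.nv (.thr 63 0 (.thr 47 32 (.thr 15 31 (.dbl 45 33 60)))) .nd)))) .nd)))))) (.rp 50 (.str 14 (.nv (.thr 0 63 (.thr 5 53 (.thr 15 10 (.dbl 45 33 60)))) (.nv (.thr 47 32 (.thr 46 62 (.dbl 45 33 44))) (.nv (.thr 61 1 (.thr 62 46 (.dbl 63 0 60))) (.rp 54 (.str 6 (.nv (.thr 62 46 (.thr 61 1 (.dbl 63 0 60))) (.nv (.thr 45 33 (.thr 47 32 (.dbl 46 44 62))) (.nv (.thr 2 10 (.thr 0 63 (.dbl 1 3 61))) (.rp 62 (.str 58 (.nv (.thr 2 10 (.thr 0 63 (.dbl 1 3 61))) (.nv (.thr 45 33 (.thr 15 60 (.thr 61 1 (.dbl 13 12 29)))) (.nv (.thr 53 5 (.dbl 63 0 48)) (.rp 2 (.str 34 (.nv (.thr 33 45 (.dbl 32 35 47)) (.nv (.thr 53 5 (.dbl 63 0 48))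 .nd))) .nd))))) (.rp 2 (.str 34 (.nv (.thr 62 46 (.thr 61 1 (.dbl 63 0 60))) (.nv (.thr 33 45 (.dbl 32 35 47)) (.rp 62 (.str 58 (.nv (.thr 33 45 (.dbl 32 35 47)) (.nv (.thr 53 5 (.dbl 63 0 48)) .nd))) .nd)))) .nd)))))) (.rp 34 (.str 2 (.nv (.thr 46 62 (.thr 47 32 (.dbl 45 33 44))) (.nv (.thr 0 63 (.dbl 1 3 61)) (.rp 54 (.thr 6 10 (.thr 0 63 (.dbl 1 3 61))) (.rp 6 (.str 54 (.nv (.thr 46 62 (.thr 47 32 (.dbl 45 33 44))) (.nv (.thr 1 61 (.dbl 0 3 63)) .nd))) .nd))))) (.rp 6 (.str 54 (.nv (.thr 0 63 (.thr 5 53 (.thr 15 10 (.thr 40 43 (.dbl 60 20 45))))) (.nv (.thr 46 62 (.thr 47 32 (.dbl 45 33 44))) (.rp 45 (.thr 62 46 (.thr 63 0 (.dbl 61 1 60))) (.rp 34 (.str 2 (.nv (.thr 46 62 (.thr 47 32 (.dbl 45 33 44))) (.nv (.thr 1 61 (.dbl 0 3 63)) .nd))) (.rp 2 (.str 34 (.nv (.thr 61 1 (.thr 62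 46 (.dbl 63 0 60))) (.nv (.thr 33 45 (.dbl 32 35 47)) .nd))) .nd)))))) (.rp 2 (.str 34 (.nv (.thr 61 1 (.thr 62 46 (.dbl 63 0 60))) (.nv (.thr 33 45 (.dbl 32 35 47)) (.rp 54 (.str 6 (.nv (.thr 62 46 (.thr 61 1 (.dbl 63 0 60))) (.nv (.thr 33 45 (.dbl 32 35 47)) (.rp 62 (.str 58 (.nv (.thr 33 45 (.dbl 32 35 47)) (.nv (.thr 53 5 (.dbl 63 0 48)) .nd))) .nd)))) (.rp 6 (.str 54 (.nv (.thr 61 1 (.thr 62 46 (.dbl 63 0 60))) (.nv (.thr 33 45 (.dbl 32 35 47)) .nd))) .nd))))) .nd)))))))) (.rp 45 (.thr 47 32 (.thr 63 0 (.thr 31 15 (.thr 29 28 (.thr 46 12 (.thr 61 1 (.dbl 62 14 60))))))) (.rp 33 (.thr 40 43 (.thr 0 63 (.thr 60 20 (.thr 15 45 (.dbl 5 10 53))))) (.rp 14 (.str 50 (.nv (.thr 1 61 (.thr 5 53 (.thr 13 9 (.thr 33 45 (.dbl 49 17 25))))) (.nv (.thr 40 43 (.thr 0 63 (.thr 60 20 (.dbl 45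 15 33)))) (.rp 54 (.str 6 (.nv (.thr 0 63 (.thr 1 61 (.thr 3 2 (.thr 5 53 (.dbl 9 12 13))))) (.nv (.thr 1 61 (.thr 5 53 (.thr 13 9 (.thr 33 45 (.dbl 49 17 25))))) (.nv (.thr 63 0 (.thr 47 32 (.thr 15 31 (.dbl 45 33 60)))) .nd)))) (.rp 45 (.thr 53 5 (.thr 61 1 (.thr 49 57 (.thr 63 0 (.dbl 48 51 58))))) (.rp 33 (.thr 53 5 (.thr 61 1 (.thr 49 57 (.thr 63 0 (.dbl 48 51 58))))) (.rp 6 (.str 54 (.nv (.thr 53 5 (.thr 58 62 (.dbl 63 0 48))) (.nv (.thr 1 61 (.thr 5 53 (.thr 13 9 (.thr 33 45 (.dbl 49 17 25))))) (.nv (.thr 61 1 (.thr 62 58 (.dbl 63 0 60))) (.rp 10 (.str 2 (.nv (.thr 53 5 (.thr 58 62 (.dbl 63 0 48))) (.nv (.thr 1 61 (.dbl 0 3 63)) (.rp 63 (.thr 33 45 (.thr 1 61 (.thr 49 17 (.thr 5 53 (.dbl 13 9 25))))) (.rp 0 (.thr 62 58 (.thr 45 33 (.thr 61 1 (.dbl 60 15 63)))) .nd))))) (.rp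 2 (.str 10 (.nv (.thr 61 1 (.thr 62 58 (.dbl 63 0 60))) (.nv (.thr 5 53 (.dbl 0 15 63)) (.rp 63 (.thr 45 33 (.thr 5 53 (.dbl 15 0 60))) (.rp 0 (.thr 62 58 (.thr 45 33 (.thr 60 15 (.dbl 61 1 63)))) .nd))))) .nd)))))) .nd))))))) (.rp 6 (.str 54 (.nv (.thr 40 43 (.thr 45 33 (.thr 60 15 (.dbl 0 20 63)))) (.nv (.thr 1 61 (.thr 5 53 (.thr 33 45 (.thr 49 17 (.dbl 13 9 25))))) (.nv (.thr 45 33 (.thr 15 60 (.thr 5 53 (.dbl 0 10 63)))) (.rp 50 (.str 14 (.nv (.thr 0 63 (.thr 5 53 (.thr 15 10 (.thr 40 43 (.dbl 60 20 45))))) (.nv (.thr 46 62 (.thr 47 32 (.dbl 45 33 44))) (.rp 45 (.thr 62 46 (.thr 63 0 (.dbl 61 1 60))) (.rp 34 (.str 2 (.nv (.thr 46 62 (.thr 47 32 (.dbl 45 33 44))) (.nv (.thr 1 61 (.dbl 0 3 63)) .nd))) (.rp 2 (.str 34 (.nv (.thr 61 1 (.thr 62 46 (.dbl 63 0 60))) (.nv (.thr 33 45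 (.dbl 32 35 47)) .nd))) .nd)))))) (.rp 45 (.thr 53 5 (.thr 63 0 (.thr 61 1 (.thr 60 62 (.dbl 57 49 51))))) (.rp 33 (.thr 5 53 (.thr 40 43 (.thr 0 63 (.thr 15 10 (.dbl 60 20 45))))) (.rp 14 (.str 50 (.nv (.thr 53 5 (.thr 58 62 (.dbl 63 0 48))) (.nv (.thr 1 61 (.thr 5 53 (.thr 13 9 (.thr 33 45 (.dbl 49 17 25))))) (.nv (.thr 61 1 (.thr 62 58 (.dbl 63 0 60))) (.rp 10 (.str 2 (.nv (.thr 53 5 (.thr 58 62 (.dbl 63 0 48))) (.nv (.thr 1 61 (.dbl 0 3 63)) (.rp 63 (.thr 33 45 (.thr 1 61 (.thr 49 17 (.thr 5 53 (.dbl 13 9 25))))) (.rp 0 (.thr 62 58 (.thr 45 33 (.thr 61 1 (.dbl 60 15 63)))) .nd))))) (.rp 2 (.str 10 (.nv (.thr 61 1 (.thr 62 58 (.dbl 63 0 60))) (.nv (.thr 5 53 (.dbl 0 15 63)) (.rp 63 (.thr 45 33 (.thr 5 53 (.dbl 15 0 60))) (.rp 0 (.thr 62 58 (.thr 45 33 (.thr 60 15 (.dbl 61 1 63))))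 .nd))))) .nd)))))) .nd)))))))) .nd)))))))))) (.rp 14 (.str 50 (.nv (.thr 53 5 (.thr 61 1 (.thr 49 57 (.thr 48 51 (.dbl 63 0 58))))) (.nv (.thr 0 63 (.thr 32 47 (.thr 33 45 (.thr 34 35 (.thr 18 2 (.dbl 48 3 16)))))) (.nv (.thr 33 45 (.thr 1 61 (.thr 49 17 (.thr 5 53 (.dbl 13 9 25))))) (.rp 54 (.str 6 (.nv (.thr 0 63 (.thr 1 61 (.thr 3 2 (.thr 5 53 (.dbl 9 12 13))))) (.nv (.thr 0 63 (.thr 32 47 (.thr 33 45 (.thr 34 35 (.thr 18 2 (.dbl 48 3 16)))))) (.nv (.thr 45 33 (.thr 53 5 (.thr 61 1 (.thr 13 29 (.dbl 49 25 57))))) (.rp 30 (.str 18 (.nv (.thr 0 63 (.thr 1 61 (.thr 3 2 (.thr 5 53 (.dbl 9 12 13))))) (.nv (.thr 34 2 (.thr 32 47 (.dbl 33 35 45))) (.rp 62 (.str 46 (.nv (.thr 0 63 (.thr 2 34 (.dbl 1 3 61))) (.nv (.thr 45 33 (.dbl 47 32 44)) .nd))) (.rp 46 (.str 62 (.nv (.thr 32 47 (.thr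 34 2 (.dbl 33 35 45))) (.nv (.thr 61 1 (.dbl 63 0 60)) .nd))) (.rp 2 (.thr 53 5 (.thr 63 0 (.thr 48 58 (.dbl 33 3 45)))) .nd)))))) (.rp 18 (.str 30 (.nv (.thr 0 63 (.thr 1 61 (.thr 3 2 (.thr 5 53 (.dbl 9 12 13))))) (.nv (.thr 1 61 (.thr 5 53 (.thr 13 9 (.thr 33 45 (.dbl 49 17 25))))) (.nv (.thr 63 0 (.thr 47 32 (.thr 15 31 (.dbl 45 33 60)))) .nd)))) .nd)))))) (.rp 30 (.str 18 (.nv (.thr 0 63 (.thr 32 47 (.thr 33 45 (.dbl 48 3 16)))) (.nv (.thr 32 47 (.thr 34 2 (.dbl 33 35 45))) (.nv (.thr 0 63 (.thr 2 34 (.dbl 1 3 61))) (.rp 62 (.str 46 (.nv (.thr 0 63 (.thr 2 34 (.dbl 1 3 61))) (.nv (.thr 45 33 (.dbl 47 32 44)) (.rp 54 (.str 6 (.nv (.thr 0 63 (.thr 2 34 (.dbl 1 3 61))) (.nv (.thr 45 33 (.dbl 47 32 44)) .nd))) (.rp 6 (.str 54 (.nv (.thr 2 34 (.thr 0 63 (.dbl 1 3 61))) (.nv (.thr 45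 33 (.dbl 47 32 44)) (.rp 2 (.str 10 (.nv (.thr 45 33 (.dbl 47 32 44)) (.nv (.thr 5 53 (.dbl 0 15 63)) .nd))) .nd)))) .nd))))) (.rp 54 (.str 6 (.nv (.thr 0 63 (.thr 1 61 (.thr 3 2 (.thr 5 53 (.dbl 9 12 13))))) (.nv (.thr 34 2 (.thr 32 47 (.dbl 33 35 45))) (.rp 62 (.str 46 (.nv (.thr 0 63 (.thr 2 34 (.dbl 1 3 61))) (.nv (.thr 45 33 (.dbl 47 32 44)) .nd))) (.rp 46 (.str 62 (.nv (.thr 32 47 (.thr 34 2 (.dbl 33 35 45))) (.nv (.thr 61 1 (.dbl 63 0 60)) .nd))) (.rp 2 (.thr 53 5 (.thr 63 0 (.thr 48 58 (.dbl 33 3 45)))) .nd)))))) (.rp 46 (.str 62 (.nv (.thr 32 47 (.thr 34 2 (.dbl 33 35 45))) (.nv (.thr 63 0 (.dbl 61 1 60)) (.rp 54 (.str 6 (.nv (.thr 32 47 (.thr 34 2 (.dbl 33 35 45))) (.nv (.thr 61 1 (.dbl 63 0 60)) .nd))) (.rp 6 (.thr 54 58 (.thr 63 0 (.dbl 61 1 60))) .nd))))) (.rp 6 (.str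 54 (.nv (.thr 2 34 (.thr 0 63 (.dbl 1 3 61))) (.nv (.thr 33 45 (.thr 32 47 (.dbl 34 2 35))) (.nv (.thr 62 58 (.thr 63 0 (.dbl 61 1 60))) (.rp 62 (.str 46 (.nv (.thr 2 34 (.thr 0 63 (.dbl 1 3 61))) (.nv (.thr 45 33 (.dbl 47 32 44)) (.rp 2 (.str 10 (.nv (.thr 45 33 (.dbl 47 32 44)) (.nv (.thr 5 53 (.dbl 0 15 63)) .nd))) .nd)))) (.rp 2 (.str 10 (.nv (.thr 62 58 (.thr 61 1 (.dbl 63 0 60))) (.nv (.thr 1 61 (.thr 33 45 (.thr 48 3 (.dbl 49 17 51)))) (.nv (.thr 5 53 (.dbl 0 15 63)) (.rp 62 (.str 46 (.nv (.thr 45 33 (.dbl 47 32 44)) (.nv (.thr 5 53 (.dbl 0 15 63)) .nd))) .nd))))) .nd)))))) .nd)))))))) (.rp 18 (.str 30 (.nv (.thr 1 61 (.thr 5 53 (.thr 13 9 (.thr 33 45 (.dbl 49 17 25))))) (.nv (.thr 40 43 (.thr 0 63 (.thr 60 20 (.dbl 45 15 33)))) (.rp 54 (.str 6 (.nv (.thr 0 63 (.thr 1 61 (.thr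 3 2 (.thr 5 53 (.dbl 9 12 13))))) (.nv (.thr 1 61 (.thr 5 53 (.thr 13 9 (.thr 33 45 (.dbl 49 17 25))))) (.nv (.thr 63 0 (.thr 47 32 (.thr 15 31 (.dbl 45 33 60)))) .nd)))) (.rp 45 (.thr 53 5 (.thr 61 1 (.thr 49 57 (.thr 63 0 (.dbl 48 51 58))))) (.rp 33 (.thr 53 5 (.thr 61 1 (.thr 49 57 (.thr 63 0 (.dbl 48 51 58))))) (.rp 6 (.str 54 (.nv (.thr 53 5 (.thr 58 62 (.dbl 63 0 48))) (.nv (.thr 1 61 (.thr 5 53 (.thr 13 9 (.thr 33 45 (.dbl 49 17 25))))) (.nv (.thr 61 1 (.thr 62 58 (.dbl 63 0 60))) (.rp 10 (.str 2 (.nv (.thr 53 5 (.thr 58 62 (.dbl 63 0 48))) (.nv (.thr 1 61 (.dbl 0 3 63)) (.rp 63 (.thr 33 45 (.thr 1 61 (.thr 49 17 (.thr 5 53 (.dbl 13 9 25))))) (.rp 0 (.thr 62 58 (.thr 45 33 (.thr 61 1 (.dbl 60 15 63)))) .nd))))) (.rp 2 (.str 10 (.nv (.thr 61 1 (.thr 62 58 (.dbl 63 0 60))) (.nv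 (.thr 5 53 (.dbl 0 15 63)) (.rp 63 (.thr 45 33 (.thr 5 53 (.dbl 15 0 60))) (.rp 0 (.thr 62 58 (.thr 45 33 (.thr 60 15 (.dbl 61 1 63)))) .nd))))) .nd)))))) .nd))))))) (.rp 6 (.str 54 (.nv (.thr 53 5 (.thr 58 62 (.dbl 63 0 48))) (.nv (.thr 1 61 (.thr 5 53 (.thr 13 9 (.thr 33 45 (.dbl 49 17 25))))) (.nv (.thr 61 1 (.thr 62 58 (.dbl 63 0 60))) (.rp 30 (.str 18 (.nv (.thr 2 34 (.thr 0 63 (.dbl 1 3 61))) (.nv (.thr 33 45 (.thr 32 47 (.dbl 34 2 35))) (.nv (.thr 62 58 (.thr 63 0 (.dbl 61 1 60))) (.rp 62 (.str 46 (.nv (.thr 2 34 (.thr 0 63 (.dbl 1 3 61))) (.nv (.thr 45 33 (.dbl 47 32 44)) (.rp 2 (.str 10 (.nv (.thr 45 33 (.dbl 47 32 44)) (.nv (.thr 5 53 (.dbl 0 15 63)) .nd))) .nd)))) (.rp 2 (.str 10 (.nv (.thr 62 58 (.thr 61 1 (.dbl 63 0 60))) (.nv (.thr 1 61 (.thr 33 45 (.thr 48 3 (.dbl 49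 17 51)))) (.nv (.thr 5 53 (.dbl 0 15 63)) (.rp 62 (.str 46 (.nv (.thr 45 33 (.dbl 47 32 44)) (.nv (.thr 5 53 (.dbl 0 15 63)) .nd))) .nd))))) .nd)))))) (.rp 18 (.str 30 (.nv (.thr 53 5 (.thr 58 62 (.dbl 63 0 48))) (.nv (.thr 1 61 (.thr 5 53 (.thr 13 9 (.thr 33 45 (.dbl 49 17 25))))) (.nv (.thr 61 1 (.thr 62 58 (.dbl 63 0 60))) (.rp 10 (.str 2 (.nv (.thr 53 5 (.thr 58 62 (.dbl 63 0 48))) (.nv (.thr 1 61 (.dbl 0 3 63)) (.rp 63 (.thr 33 45 (.thr 1 61 (.thr 49 17 (.thr 5 53 (.dbl 13 9 25))))) (.rp 0 (.thr 62 58 (.thr 45 33 (.thr 61 1 (.dbl 60 15 63)))) .nd))))) (.rp 2 (.str 10 (.nv (.thr 61 1 (.thr 62 58 (.dbl 63 0 60))) (.nv (.thr 5 53 (.dbl 0 15 63)) (.rp 63 (.thr 45 33 (.thr 5 53 (.dbl 15 0 60))) (.rp 0 (.thr 62 58 (.thr 45 33 (.thr 60 15 (.dbl 61 1 63)))) .nd))))) .nd)))))) (.rp 10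 (.str 2 (.nv (.thr 32 47 (.thr 33 45 (.dbl 34 18 35))) (.nv (.thr 1 61 (.dbl 0 3 63)) (.rp 30 (.thr 18 34 (.thr 1 61 (.dbl 0 3 63))) (.rp 18 (.str 30 (.nv (.thr 53 5 (.thr 58 62 (.dbl 63 0 48))) (.nv (.thr 1 61 (.dbl 0 3 63)) (.rp 63 (.thr 33 45 (.thr 1 61 (.thr 49 17 (.thr 5 53 (.dbl 13 9 25))))) (.rp 0 (.thr 62 58 (.thr 45 33 (.thr 61 1 (.dbl 60 15 63)))) .nd))))) .nd))))) (.rp 2 (.str 10 (.nv (.thr 61 1 (.thr 62 58 (.dbl 63 0 60))) (.nv (.thr 5 53 (.dbl 0 15 63)) (.rp 63 (.thr 53 5 (.thr 61 1 (.thr 49 57 (.thr 45 33 (.dbl 13 25 29))))) (.rp 30 (.str 18 (.nv (.thr 62 58 (.thr 61 1 (.dbl 63 0 60))) (.nv (.thr 1 61 (.thr 33 45 (.thr 48 3 (.dbl 49 17 51)))) (.nv (.thr 5 53 (.dbl 0 15 63)) (.rp 62 (.str 46 (.nv (.thr 45 33 (.dbl 47 32 44)) (.nv (.thr 5 53 (.dbl 0 15 63)) .nd))) .nd)))))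 (.rp 18 (.str 30 (.nv (.thr 61 1 (.thr 62 58 (.dbl 63 0 60))) (.nv (.thr 5 53 (.dbl 0 15 63)) (.rp 63 (.thr 45 33 (.thr 5 53 (.dbl 15 0 60))) (.rp 0 (.thr 62 58 (.thr 45 33 (.thr 60 15 (.dbl 61 1 63)))) .nd))))) (.rp 0 (.thr 53 5 (.thr 58 62 (.thr 48 63 (.thr 49 51 (.dbl 61 1 57))))) .nd))))))) .nd)))))))) .nd)))))))) (.rp 6 (.str 54 (.nv (.thr 53 5 (.thr 61 1 (.thr 63 0 (.thr 58 48 (.dbl 62 50 60))))) (.nv (.thr 0 63 (.thr 5 53 (.thr 15 10 (.thr 40 43 (.thr 45 33 (.dbl 60 20 30)))))) (.nv (.thr 0 63 (.thr 1 61 (.thr 3 2 (.thr 32 47 (.thr 48 16 (.dbl 33 18 45)))))) (.nv (.thr 33 45 (.thr 1 61 (.thr 49 17 (.thr 5 53 (.dbl 13 9 25))))) (.rp 50 (.str 14 (.nv (.thr 61 1 (.thr 63 0 (.thr 60 62 (.thr 57 51 (.dbl 53 5 49))))) (.nv (.thr 45 33 (.thr 47 32 (.thr 63 0 (.thr 15 31 (.thr 12 13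 (.dbl 46 29 44)))))) (.nv (.thr 1 61 (.thr 33 45 (.thr 5 53 (.thr 49 17 (.dbl 13 9 25))))) (.rp 30 (.str 18 (.nv (.thr 0 63 (.thr 1 61 (.thr 5 53 (.thr 13 9 (.dbl 15 10 12))))) (.nv (.thr 1 61 (.thr 5 53 (.thr 33 45 (.thr 49 17 (.dbl 13 9 25))))) (.nv (.thr 0 63 (.thr 32 47 (.thr 48 16 (.dbl 33 3 45)))) (.rp 15 (.thr 1 61 (.thr 0 63 (.thr 3 2 (.dbl 33 45 48)))) .nd))))) (.rp 18 (.str 30 (.nv (.thr 0 63 (.thr 5 53 (.thr 15 10 (.thr 40 43 (.dbl 60 20 45))))) (.nv (.thr 46 62 (.thr 47 32 (.dbl 45 33 44))) (.rp 45 (.thr 62 46 (.thr 63 0 (.dbl 61 1 60))) (.rp 34 (.str 2 (.nv (.thr 46 62 (.thr 47 32 (.dbl 45 33 44))) (.nv (.thr 1 61 (.dbl 0 3 63)) .nd))) (.rp 2 (.str 34 (.nv (.thr 61 1 (.thr 62 46 (.dbl 63 0 60))) (.nv (.thr 33 45 (.dbl 32 35 47)) .nd))) .nd)))))) .nd)))))) (.rp 30 (.str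 18 (.nv (.thr 1 61 (.thr 5 53 (.thr 13 9 (.thr 49 25 (.dbl 33 17 45))))) (.nv (.thr 43 40 (.thr 33 45 (.thr 3 48 (.dbl 63 0 23)))) (.rp 50 (.str 14 (.nv (.thr 0 63 (.thr 1 61 (.thr 5 53 (.thr 13 9 (.dbl 15 10 12))))) (.nv (.thr 1 61 (.thr 5 53 (.thr 33 45 (.thr 49 17 (.dbl 13 9 25))))) (.nv (.thr 0 63 (.thr 32 47 (.thr 48 16 (.dbl 33 3 45)))) (.rp 15 (.thr 1 61 (.thr 0 63 (.thr 3 2 (.dbl 33 45 48)))) .nd))))) (.rp 45 (.thr 43 40 (.thr 63 0 (.thr 3 23 (.thr 48 33 (.dbl 53 5 58))))) (.rp 33 (.thr 63 0 (.thr 61 1 (.thr 60 62 (.thr 57 51 (.dbl 53 5 49))))) (.rp 14 (.str 50 (.nv (.thr 2 34 (.thr 0 63 (.dbl 1 3 61))) (.nv (.thr 33 45 (.thr 32 47 (.dbl 34 2 35))) (.nv (.thr 62 58 (.thr 63 0 (.dbl 61 1 60))) (.rp 62 (.str 46 (.nv (.thr 2 34 (.thr 0 63 (.dbl 1 3 61))) (.nv (.thr 45 33 (.dbl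 47 32 44)) (.rp 2 (.str 10 (.nv (.thr 45 33 (.dbl 47 32 44)) (.nv (.thr 5 53 (.dbl 0 15 63)) .nd))) .nd)))) (.rp 2 (.str 10 (.nv (.thr 62 58 (.thr 61 1 (.dbl 63 0 60))) (.nv (.thr 1 61 (.thr 33 45 (.thr 48 3 (.dbl 49 17 51)))) (.nv (.thr 5 53 (.dbl 0 15 63)) (.rp 62 (.str 46 (.nv (.thr 45 33 (.dbl 47 32 44)) (.nv (.thr 5 53 (.dbl 0 15 63)) .nd))) .nd))))) .nd)))))) (.rp 3 (.thr 33 45 (.thr 1 61 (.thr 49 17 (.thr 5 53 (.dbl 13 9 25))))) .nd)))))))) (.rp 18 (.str 30 (.nv (.thr 40 43 (.thr 45 33 (.thr 60 15 (.dbl 0 20 63)))) (.nv (.thr 1 61 (.thr 5 53 (.thr 33 45 (.thr 49 17 (.dbl 13 9 25))))) (.nv (.thr 45 33 (.thr 15 60 (.thr 5 53 (.dbl 0 10 63)))) (.rp 50 (.str 14 (.nv (.thr 0 63 (.thr 5 53 (.thr 15 10 (.thr 40 43 (.dbl 60 20 45))))) (.nv (.thr 46 62 (.thr 47 32 (.dbl 45 33 44))) (.rp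 45 (.thr 62 46 (.thr 63 0 (.dbl 61 1 60))) (.rp 34 (.str 2 (.nv (.thr 46 62 (.thr 47 32 (.dbl 45 33 44))) (.nv (.thr 1 61 (.dbl 0 3 63)) .nd))) (.rp 2 (.str 34 (.nv (.thr 61 1 (.thr 62 46 (.dbl 63 0 60))) (.nv (.thr 33 45 (.dbl 32 35 47)) .nd))) .nd)))))) (.rp 45 (.thr 53 5 (.thr 63 0 (.thr 61 1 (.thr 60 62 (.dbl 57 49 51))))) (.rp 33 (.thr 5 53 (.thr 40 43 (.thr 0 63 (.thr 15 10 (.dbl 60 20 45))))) (.rp 14 (.str 50 (.nv (.thr 53 5 (.thr 58 62 (.dbl 63 0 48))) (.nv (.thr 1 61 (.thr 5 53 (.thr 13 9 (.thr 33 45 (.dbl 49 17 25))))) (.nv (.thr 61 1 (.thr 62 58 (.dbl 63 0 60))) (.rp 10 (.str 2 (.nv (.thr 53 5 (.thr 58 62 (.dbl 63 0 48))) (.nv (.thr 1 61 (.dbl 0 3 63)) (.rp 63 (.thr 33 45 (.thr 1 61 (.thr 49 17 (.thr 5 53 (.dbl 13 9 25))))) (.rp 0 (.thr 62 58 (.thr 45 33 (.thr 61 1 (.dbl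 60 15 63)))) .nd))))) (.rp 2 (.str 10 (.nv (.thr 61 1 (.thr 62 58 (.dbl 63 0 60))) (.nv (.thr 5 53 (.dbl 0 15 63)) (.rp 63 (.thr 45 33 (.thr 5 53 (.dbl 15 0 60))) (.rp 0 (.thr 62 58 (.thr 45 33 (.thr 60 15 (.dbl 61 1 63)))) .nd))))) .nd)))))) .nd)))))))) (.rp 14 (.str 50 (.nv (.thr 53 5 (.thr 58 62 (.dbl 63 0 48))) (.nv (.thr 1 61 (.thr 5 53 (.thr 13 9 (.thr 33 45 (.dbl 49 17 25))))) (.nv (.thr 61 1 (.thr 62 58 (.dbl 63 0 60))) (.rp 30 (.str 18 (.nv (.thr 2 34 (.thr 0 63 (.dbl 1 3 61))) (.nv (.thr 33 45 (.thr 32 47 (.dbl 34 2 35))) (.nv (.thr 62 58 (.thr 63 0 (.dbl 61 1 60))) (.rp 62 (.str 46 (.nv (.thr 2 34 (.thr 0 63 (.dbl 1 3 61))) (.nv (.thr 45 33 (.dbl 47 32 44)) (.rp 2 (.str 10 (.nv (.thr 45 33 (.dbl 47 32 44)) (.nv (.thr 5 53 (.dbl 0 15 63)) .nd))) .nd)))) (.rp 2 (.str 10 (.nv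 (.thr 62 58 (.thr 61 1 (.dbl 63 0 60))) (.nv (.thr 1 61 (.thr 33 45 (.thr 48 3 (.dbl 49 17 51)))) (.nv (.thr 5 53 (.dbl 0 15 63)) (.rp 62 (.str 46 (.nv (.thr 45 33 (.dbl 47 32 44)) (.nv (.thr 5 53 (.dbl 0 15 63)) .nd))) .nd))))) .nd)))))) (.rp 18 (.str 30 (.nv (.thr 53 5 (.thr 58 62 (.dbl 63 0 48))) (.nv (.thr 1 61 (.thr 5 53 (.thr 13 9 (.thr 33 45 (.dbl 49 17 25))))) (.nv (.thr 61 1 (.thr 62 58 (.dbl 63 0 60))) (.rp 10 (.str 2 (.nv (.thr 53 5 (.thr 58 62 (.dbl 63 0 48))) (.nv (.thr 1 61 (.dbl 0 3 63)) (.rp 63 (.thr 33 45 (.thr 1 61 (.thr 49 17 (.thr 5 53 (.dbl 13 9 25))))) (.rp 0 (.thr 62 58 (.thr 45 33 (.thr 61 1 (.dbl 60 15 63)))) .nd))))) (.rp 2 (.str 10 (.nv (.thr 61 1 (.thr 62 58 (.dbl 63 0 60))) (.nv (.thr 5 53 (.dbl 0 15 63)) (.rp 63 (.thr 45 33 (.thr 5 53 (.dbl 15 0 60)))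 (.rp 0 (.thr 62 58 (.thr 45 33 (.thr 60 15 (.dbl 61 1 63)))) .nd))))) .nd)))))) (.rp 10 (.str 2 (.nv (.thr 32 47 (.thr 33 45 (.dbl 34 18 35))) (.nv (.thr 1 61 (.dbl 0 3 63)) (.rp 30 (.thr 18 34 (.thr 1 61 (.dbl 0 3 63))) (.rp 18 (.str 30 (.nv (.thr 53 5 (.thr 58 62 (.dbl 63 0 48))) (.nv (.thr 1 61 (.dbl 0 3 63)) (.rp 63 (.thr 33 45 (.thr 1 61 (.thr 49 17 (.thr 5 53 (.dbl 13 9 25))))) (.rp 0 (.thr 62 58 (.thr 45 33 (.thr 61 1 (.dbl 60 15 63)))) .nd))))) .nd))))) (.rp 2 (.str 10 (.nv (.thr 61 1 (.thr 62 58 (.dbl 63 0 60))) (.nv (.thr 5 53 (.dbl 0 15 63)) (.rp 63 (.thr 53 5 (.thr 61 1 (.thr 49 57 (.thr 45 33 (.dbl 13 25 29))))) (.rp 30 (.str 18 (.nv (.thr 62 58 (.thr 61 1 (.dbl 63 0 60))) (.nv (.thr 1 61 (.thr 33 45 (.thr 48 3 (.dbl 49 17 51)))) (.nv (.thr 5 53 (.dbl 0 15 63)) (.rp 62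 (.str 46 (.nv (.thr 45 33 (.dbl 47 32 44)) (.nv (.thr 5 53 (.dbl 0 15 63)) .nd))) .nd))))) (.rp 18 (.str 30 (.nv (.thr 61 1 (.thr 62 58 (.dbl 63 0 60))) (.nv (.thr 5 53 (.dbl 0 15 63)) (.rp 63 (.thr 45 33 (.thr 5 53 (.dbl 15 0 60))) (.rp 0 (.thr 62 58 (.thr 45 33 (.thr 60 15 (.dbl 61 1 63)))) .nd))))) (.rp 0 (.thr 53 5 (.thr 58 62 (.thr 48 63 (.thr 49 51 (.dbl 61 1 57))))) .nd))))))) .nd)))))))) .nd))))))))) .nd))))))))))))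

theorem w457 : WinAt (4535487561728, 274949210112) :=
  chF (K := []) kn c457 4535487561728 274949210112 26
    [1145307136, 1126174851874816, 18014673391583296] (by decide +kernel) (by decide +kernel)

/-- A certificate. -/
noncomputable def c458 : Ct := (.str 25 (.nv (.thr 5 53 (.thr 8 59 (.thr 13 49 (.thr 9 1 (.thr 10 11 (.thr 15 0 (.dbl 26 48 58))))))) (.nv (.thr 17 29 (.thr 49 13 (.thr 1 33 (.thr 53 5 (.dbl 61 41 57))))) (.rp 61 (.thr 59 8 (.str 41 (.nv (.thr 43 40 (.thr 11 27 (.thr 57 9 (.dbl 56 26 58)))) (.rp 62 (.str 60 (.nv (.thr 17 29 (.thr 40 43 (.thr 0 20 (.thr 51 34 (.dbl 57 9 54))))) (.nv (.thr 5 53 (.thr 49 13 (.thr 45 33 (.thr 15 30 (.thr 10 0 (.dbl 26 48 58)))))) (.nv (.thr 43 40 (.thr 57 9 (.thr 11 27 (.dbl 56 26 58)))) (.rp 54 (.str 6 (.nv (.thr 5 53 (.thr 45 33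 (.thr 15 30 (.thr 10 0 (.dbl 26 48 58))))) (.nv (.thr 43 40 (.thr 57 9 (.thr 11 27 (.dbl 56 26 58)))) (.rp 58 (.str 50 (.nv (.thr 32 47 (.thr 40 43 (.thr 44 36 (.thr 12 28 (.dbl 9 3 57))))) (.nv (.thr 45 33 (.thr 49 13 (.thr 48 51 (.dbl 15 26 30)))) (.rp 53 (.str 48 (.nv (.thr 57 9 (.thr 15 26 (.dbl 45 30 33))) (.nv (.dbl 49 13 51) (.rp 55 (.thr 52 56 (.dbl 49 13 51)) (.rp 52 (.str 55 (.nv (.thr 57 9 (.thr 15 26 (.dbl 45 30 33))) (.nv (.dbl 49 13 51) .nd))) .nd))))) (.rp 48 (.thr 53 5 (.thr 40 43 (.thr 9 57 (.thr 32 47 (.thr 44 36 (.dbl 12 3 28)))))) (.rp 15 (.thr 40 43 (.thr 0 20 (.thr 17 29 (.thr 51 34 (.dbl 49 13 48))))) .nd)))))) (.rp 57 (.thr 40 43 (.thr 0 20 (.thr 45 33 (.thr 15 30 (.dbl 5 10 53))))) (.rp 50 (.str 58 (.nv (.thr 26 10 (.thr 15 48 (.dbl 45 30 33))) (.nv (.dbl 57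 9 56) (.rp 26 (.str 14 (.nv (.thr 13 49 (.thr 15 12 (.dbl 45 30 33))) (.nv (.dbl 57 9 56) (.rp 57 (.thr 40 43 (.thr 0 20 (.thr 10 2 (.dbl 5 15 53)))) (.rp 30 (.str 18 (.nv (.dbl 57 9 56) (.rp 57 (.thr 10 2 (.thr 40 43 (.thr 0 20 (.dbl 5 15 53)))) (.rp 56 (.thr 9 57 (.thr 33 45 (.dbl 3 12 48))) (.rp 9 (.thr 33 45 (.thr 56 57 (.dbl 48 3 52))) .nd))))) (.rp 18 (.str 30 (.nv (.thr 2 10 (.dbl 57 9 56)) (.nv (.dbl 45 15 33) (.rp 2 (.str 34 (.nv (.dbl 45 15 33) (.nv (.dbl 57 9 56) .nd))) .nd)))) .nd)))))) (.rp 9 (.thr 56 57 (.dbl 26 10 11)) .nd))))) (.rp 26 (.thr 9 57 (.thr 40 43 (.thr 32 47 (.thr 44 36 (.dbl 12 3 28))))) .nd))))))) (.rp 6 (.str 54 (.nv (.dbl 57 9 51) (.rp 57 (.thr 45 33 (.thr 40 43 (.thr 0 20 (.thr 15 30 (.dbl 5 10 53))))) (.rp 51 (.thr 43 40 (.thr 57 9 (.thr 56 58 (.dbl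 11 26 27)))) (.rp 9 (.thr 57 51 (.thr 56 58 (.thr 52 48 (.dbl 53 5 55)))) .nd))))) .nd)))))) (.rp 60 (.str 62 (.nv (.thr 57 9 (.thr 56 58 (.thr 11 26 (.dbl 43 27 40)))) (.nv (.thr 43 40 (.thr 57 9 (.thr 11 27 (.dbl 56 26 58)))) (.rp 58 (.thr 57 9 (.thr 33 45 (.thr 32 47 (.thr 34 35 (.thr 17 29 (.thr 13 49 (.thr 0 51 (.thr 48 16 (.thr 5 53 (.dbl 15 10 26)))))))))) (.rp 57 (.thr 53 5 (.str 54 (.nv (.thr 43 40 (.thr 11 27 (.thr 58 50 (.dbl 26 10 56)))) (.rp 58 (.thr 47 32 (.thr 43 40 (.thr 39 35 (.thr 27 11 (.thr 15 51 (.dbl 26 24 48)))))) (.rp 56 (.thr 50 58 (.thr 32 47 (.thr 49 13 (.thr 48 51 (.thr 16 0 (.dbl 26 15 31)))))) (.rp 50 (.thr 47 32 (.thr 43 40 (.thr 39 35 (.thr 27 11 (.thr 15 51 (.dbl 26 24 48)))))) (.rp 43 (.thr 50 58 (.thr 32 47 (.thr 49 13 (.thr 48 51 (.thr 16 0 (.dbl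 26 15 31)))))) (.rp 40 (.thr 50 58 (.thr 33 45 (.thr 32 47 (.thr 34 35 (.thr 18 2 (.thr 48 3 (.dbl 49 13 51))))))) (.rp 27 (.thr 50 58 (.thr 32 47 (.thr 49 13 (.thr 48 51 (.thr 16 0 (.dbl 26 15 31)))))) (.rp 26 (.thr 50 58 (.thr 33 45 (.thr 32 47 (.thr 34 35 (.thr 18 2 (.thr 48 3 (.dbl 49 13 51))))))) (.rp 24 (.str 56 (.nv (.thr 43 40 (.dbl 11 26 27)) (.nv (.thr 58 50 (.dbl 26 10 11)) (.rp 26 (.thr 50 58 (.thr 33 45 (.thr 32 47 (.thr 34 35 (.thr 18 2 (.thr 48 3 (.dbl 49 13 51))))))) (.rp 11 (.thr 50 58 (.thr 32 47 (.thr 49 13 (.thr 48 51 (.thr 16 0 (.dbl 26 15 31)))))) .nd))))) (.rp 20 (.thr 58 50 (.thr 26 10 (.thr 27 24 (.dbl 43 11 40)))) (.rp 11 (.thr 50 58 (.thr 32 47 (.thr 49 13 (.thr 48 51 (.thr 16 0 (.dbl 26 15 31)))))) (.rp 10 (.thr 50 58 (.thr 43 40 (.thr 49 13 (.thr 48 51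 (.thr 11 27 (.dbl 26 15 56)))))) (.rp 0 (.thr 58 50 (.thr 26 10 (.thr 15 48 (.thr 27 24 (.dbl 43 11 40))))) .nd))))))))))))))) (.rp 56 (.thr 57 9 (.thr 33 45 (.thr 32 47 (.thr 34 35 (.thr 17 29 (.thr 13 49 (.thr 0 51 (.thr 48 16 (.thr 5 53 (.dbl 15 10 26)))))))))) (.rp 54 (.str 6 (.nv (.thr 57 9 (.thr 56 58 (.thr 11 26 (.dbl 43 27 40)))) (.nv (.thr 43 40 (.thr 57 9 (.thr 11 27 (.dbl 56 26 58)))) (.rp 58 (.thr 47 32 (.thr 45 33 (.thr 46 44 (.thr 14 30 (.thr 13 49 (.thr 12 15 (.dbl 9 3 57))))))) (.rp 57 (.str 51 (.nv (.thr 49 13 (.thr 48 50 (.thr 26 15 (.thr 11 56 (.dbl 27 24 43))))) (.nv (.thr 13 49 (.thr 53 5 (.thr 17 29 (.thr 32 47 (.thr 33 45 (.dbl 34 0 35)))))) (.nv (.thr 43 40 (.thr 27 11 (.thr 15 39 (.dbl 26 24 48)))) (.rp 49 (.thr 53 5 (.thr 33 45 (.thr 32 47 (.thr 34 35 (.dbl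 17 0 29))))) (.rp 15 (.thr 45 33 (.thr 17 29 (.thr 49 13 (.thr 0 34 (.thr 48 50 (.dbl 32 16 47)))))) .nd)))))) (.rp 56 (.thr 47 32 (.thr 45 33 (.thr 46 44 (.thr 14 30 (.thr 13 49 (.thr 12 15 (.dbl 9 3 57))))))) (.rp 43 (.thr 57 9 (.thr 58 56 (.thr 10 26 (.thr 5 53 (.thr 15 0 (.thr 13 49 (.dbl 14 2 12))))))) (.rp 40 (.thr 57 9 (.thr 56 58 (.thr 11 26 (.thr 43 27 (.thr 32 47 (.thr 17 29 (.thr 33 45 (.thr 13 49 (.thr 34 35 (.thr 0 51 (.thr 5 53 (.thr 48 16 (.thr 7 4 (.dbl 15 3 10)))))))))))))) (.rp 27 (.thr 57 9 (.thr 58 56 (.thr 10 26 (.thr 5 53 (.thr 15 0 (.thr 13 49 (.dbl 14 2 12))))))) (.rp 26 (.thr 13 49 (.thr 57 9 (.thr 43 40 (.thr 56 58 (.thr 11 27 (.thr 32 47 (.thr 17 29 (.thr 33 45 (.thr 34 35 (.thr 0 51 (.thr 5 53 (.thr 48 16 (.thr 7 4 (.dbl 15 3 10)))))))))))))) (.rp 11 (.thr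 47 32 (.thr 45 33 (.thr 46 44 (.thr 14 30 (.thr 57 9 (.thr 10 2 (.dbl 58 26 56))))))) (.rp 9 (.thr 43 40 (.thr 11 27 (.thr 5 53 (.thr 7 4 (.thr 15 3 (.dbl 26 48 56)))))) .nd)))))))))))) (.rp 43 (.thr 45 33 (.thr 47 32 (.thr 46 44 (.thr 17 29 (.thr 13 49 (.thr 57 9 (.thr 58 56 (.thr 5 53 (.thr 10 26 (.thr 15 0 (.dbl 14 12 30))))))))))) (.rp 40 (.thr 33 45 (.thr 32 47 (.thr 34 35 (.thr 17 29 (.thr 13 49 (.thr 0 51 (.thr 48 16 (.thr 15 26 (.dbl 5 10 53))))))))) (.rp 27 (.thr 43 40 (.thr 33 45 (.thr 32 47 (.thr 34 35 (.thr 17 29 (.thr 13 49 (.thr 0 51 (.thr 48 16 (.thr 57 9 (.thr 56 58 (.dbl 26 11 15))))))))))) (.rp 26 (.thr 57 9 (.thr 56 58 (.thr 33 45 (.thr 32 47 (.thr 43 40 (.thr 34 35 (.thr 17 29 (.thr 13 49 (.thr 0 51 (.thr 48 16 (.thr 5 53 (.thr 15 10 (.thr 11 27 (.dbl 3 7 18))))))))))))))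 (.rp 11 (.thr 32 47 (.thr 33 45 (.thr 34 35 (.thr 17 29 (.thr 13 49 (.thr 0 51 (.thr 48 16 (.thr 15 26 (.dbl 5 10 53))))))))) (.rp 9 (.thr 53 5 (.thr 33 45 (.thr 32 47 (.thr 43 40 (.thr 34 35 (.thr 17 29 (.thr 13 49 (.thr 0 51 (.thr 48 16 (.thr 11 27 (.dbl 26 15 56))))))))))) (.rp 6 (.str 54 (.nv (.thr 43 40 (.thr 11 27 (.thr 58 50 (.dbl 26 10 56)))) (.nv (.thr 58 50 (.dbl 57 9 56)) (.rp 58 (.thr 33 45 (.thr 47 32 (.thr 43 40 (.thr 39 35 (.thr 27 11 (.thr 15 51 (.dbl 26 24 48))))))) (.rp 56 (.thr 50 58 (.thr 32 47 (.thr 49 13 (.thr 48 51 (.thr 16 0 (.dbl 26 15 31)))))) (.rp 50 (.thr 43 40 (.thr 57 9 (.thr 56 58 (.dbl 11 26 27)))) (.rp 26 (.thr 57 9 (.dbl 58 50 56)) .nd))))))) .nd)))))))))))))) (.rp 58 (.thr 47 32 (.thr 43 40 (.thr 27 11 (.thr 39 35 (.thr 15 51 (.dbl 26 24 48))))))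 (.rp 57 (.thr 47 32 (.thr 43 40 (.thr 27 11 (.thr 39 35 (.thr 15 51 (.dbl 26 24 48)))))) (.rp 56 (.thr 57 9 (.thr 5 53 (.thr 13 49 (.thr 33 45 (.thr 17 29 (.thr 32 47 (.thr 34 35 (.thr 0 51 (.thr 48 16 (.dbl 15 10 26)))))))))) (.rp 54 (.str 6 (.nv (.thr 9 57 (.thr 3 12 (.thr 43 40 (.thr 11 27 (.thr 7 15 (.dbl 5 4 53)))))) (.nv (.thr 43 40 (.thr 11 27 (.thr 57 9 (.dbl 56 26 58)))) (.rp 62 (.str 60 (.nv (.thr 5 53 (.thr 45 33 (.thr 15 30 (.thr 10 0 (.dbl 26 48 58))))) (.nv (.thr 43 40 (.thr 57 9 (.thr 11 27 (.dbl 56 26 58)))) (.rp 58 (.str 50 (.nv (.thr 32 47 (.thr 40 43 (.thr 44 36 (.thr 12 28 (.dbl 9 3 57))))) (.nv (.thr 45 33 (.thr 49 13 (.thr 48 51 (.dbl 15 26 30)))) (.rp 53 (.str 48 (.nv (.thr 57 9 (.thr 15 26 (.dbl 45 30 33))) (.nv (.dbl 49 13 51) (.rp 55 (.thr 52 56 (.dbl 49 13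 51)) (.rp 52 (.str 55 (.nv (.thr 57 9 (.thr 15 26 (.dbl 45 30 33))) (.nv (.dbl 49 13 51) .nd))) .nd))))) (.rp 48 (.thr 53 5 (.thr 40 43 (.thr 9 57 (.thr 32 47 (.thr 44 36 (.dbl 12 3 28)))))) (.rp 15 (.thr 40 43 (.thr 0 20 (.thr 17 29 (.thr 51 34 (.dbl 49 13 48))))) .nd)))))) (.rp 57 (.thr 40 43 (.thr 0 20 (.thr 45 33 (.thr 15 30 (.dbl 5 10 53))))) (.rp 50 (.str 58 (.nv (.thr 26 10 (.thr 15 48 (.dbl 45 30 33))) (.nv (.dbl 57 9 56) (.rp 26 (.str 14 (.nv (.thr 13 49 (.thr 15 12 (.dbl 45 30 33))) (.nv (.dbl 57 9 56) (.rp 57 (.thr 40 43 (.thr 0 20 (.thr 10 2 (.dbl 5 15 53)))) (.rp 30 (.str 18 (.nv (.dbl 57 9 56) (.rp 57 (.thr 10 2 (.thr 40 43 (.thr 0 20 (.dbl 5 15 53)))) (.rp 56 (.thr 9 57 (.thr 33 45 (.dbl 3 12 48))) (.rp 9 (.thr 33 45 (.thr 56 57 (.dbl 48 3 52))) .nd))))) (.rp 18 (.str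 30 (.nv (.thr 2 10 (.dbl 57 9 56)) (.nv (.dbl 45 15 33) (.rp 2 (.str 34 (.nv (.dbl 45 15 33) (.nv (.dbl 57 9 56) .nd))) .nd)))) .nd)))))) (.rp 9 (.thr 56 57 (.dbl 26 10 11)) .nd))))) (.rp 26 (.thr 9 57 (.thr 40 43 (.thr 32 47 (.thr 44 36 (.dbl 12 3 28))))) .nd))))))) (.rp 60 (.str 62 (.nv (.thr 57 9 (.thr 56 58 (.thr 11 26 (.dbl 43 27 40)))) (.nv (.thr 43 40 (.thr 57 9 (.thr 11 27 (.dbl 56 26 58)))) (.rp 58 (.thr 47 32 (.thr 45 33 (.thr 46 44 (.thr 14 30 (.thr 13 49 (.thr 12 15 (.dbl 9 3 57))))))) (.rp 57 (.str 51 (.nv (.thr 49 13 (.thr 48 50 (.thr 26 15 (.thr 11 56 (.dbl 27 24 43))))) (.nv (.thr 13 49 (.thr 53 5 (.thr 17 29 (.thr 32 47 (.thr 33 45 (.dbl 34 0 35)))))) (.nv (.thr 43 40 (.thr 27 11 (.thr 15 39 (.dbl 26 24 48)))) (.rp 49 (.thr 53 5 (.thr 33 45 (.thr 32 47 (.thr 34 35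 (.dbl 17 0 29))))) (.rp 15 (.thr 45 33 (.thr 17 29 (.thr 49 13 (.thr 0 34 (.thr 48 50 (.dbl 32 16 47)))))) .nd)))))) (.rp 56 (.thr 47 32 (.thr 45 33 (.thr 46 44 (.thr 14 30 (.thr 13 49 (.thr 12 15 (.dbl 9 3 57))))))) (.rp 43 (.thr 57 9 (.thr 58 56 (.thr 10 26 (.thr 5 53 (.thr 15 0 (.thr 13 49 (.dbl 14 2 12))))))) (.rp 40 (.thr 57 9 (.thr 56 58 (.thr 11 26 (.thr 43 27 (.thr 32 47 (.thr 17 29 (.thr 33 45 (.thr 13 49 (.thr 34 35 (.thr 0 51 (.thr 5 53 (.thr 48 16 (.thr 7 4 (.dbl 15 3 10)))))))))))))) (.rp 27 (.thr 57 9 (.thr 58 56 (.thr 10 26 (.thr 5 53 (.thr 15 0 (.thr 13 49 (.dbl 14 2 12))))))) (.rp 26 (.thr 13 49 (.thr 57 9 (.thr 43 40 (.thr 56 58 (.thr 11 27 (.thr 32 47 (.thr 17 29 (.thr 33 45 (.thr 34 35 (.thr 0 51 (.thr 5 53 (.thr 48 16 (.thr 7 4 (.dbl 15 3 10)))))))))))))) (.rp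 11 (.thr 47 32 (.thr 45 33 (.thr 46 44 (.thr 14 30 (.thr 57 9 (.thr 10 2 (.dbl 58 26 56))))))) (.rp 9 (.thr 43 40 (.thr 11 27 (.thr 5 53 (.thr 7 4 (.thr 15 3 (.dbl 26 48 56)))))) .nd)))))))))))) (.rp 57 (.thr 49 13 (.thr 5 53 (.thr 7 4 (.thr 43 40 (.thr 11 27 (.thr 15 3 (.dbl 26 48 56))))))) (.rp 56 (.thr 33 45 (.thr 17 29 (.thr 13 49 (.thr 9 57 (.thr 53 5 (.thr 12 3 (.thr 15 14 (.thr 32 47 (.thr 34 35 (.thr 51 0 (.thr 27 39 (.dbl 43 11 40)))))))))))) (.rp 43 (.thr 13 49 (.thr 57 9 (.thr 5 53 (.thr 58 56 (.thr 10 26 (.thr 14 2 (.dbl 15 0 12))))))) (.rp 40 (.thr 33 45 (.thr 9 57 (.thr 3 12 (.thr 32 47 (.thr 35 34 (.thr 51 19 (.thr 48 18 (.dbl 49 13 50)))))))) (.rp 27 (.thr 33 45 (.thr 17 29 (.thr 13 49 (.thr 57 9 (.thr 5 53 (.thr 7 4 (.thr 47 32 (.thr 40 43 (.thr 58 56 (.thr 10 26 (.thr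 14 2 (.dbl 15 0 12)))))))))))) (.rp 24 (.thr 57 9 (.thr 43 40 (.thr 56 58 (.dbl 11 26 27)))) (.rp 11 (.thr 33 45 (.thr 17 29 (.thr 13 49 (.thr 9 57 (.thr 53 5 (.thr 12 3 (.thr 15 14 (.thr 47 32 (.thr 43 40 (.thr 39 35 (.thr 26 48 (.dbl 27 24 51)))))))))))) (.rp 9 (.thr 5 53 (.thr 7 4 (.thr 43 40 (.thr 11 27 (.thr 15 3 (.dbl 26 48 56)))))) .nd))))))))))))) (.rp 43 (.thr 57 9 (.thr 5 53 (.thr 49 13 (.thr 45 33 (.thr 17 29 (.thr 58 56 (.thr 10 26 (.thr 0 15 (.thr 51 34 (.thr 50 48 (.dbl 54 60 62))))))))))) (.rp 40 (.thr 57 9 (.thr 5 53 (.thr 13 49 (.thr 33 45 (.thr 17 29 (.thr 32 47 (.thr 34 35 (.thr 0 51 (.thr 48 16 (.dbl 15 10 26)))))))))) (.rp 27 (.thr 43 40 (.thr 57 9 (.thr 5 53 (.thr 13 49 (.thr 33 45 (.thr 17 29 (.thr 32 47 (.thr 34 35 (.thr 0 51 (.thr 48 16 (.dbl 15 10 26)))))))))))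 (.rp 26 (.thr 43 40 (.thr 11 27 (.thr 57 9 (.thr 5 53 (.thr 13 49 (.thr 33 45 (.thr 17 29 (.thr 32 47 (.thr 34 35 (.thr 0 51 (.thr 15 10 (.thr 3 7 (.dbl 48 16 18))))))))))))) (.rp 24 (.thr 57 9 (.thr 43 40 (.thr 56 58 (.dbl 11 26 27)))) (.rp 11 (.thr 43 40 (.thr 13 49 (.thr 33 45 (.thr 17 29 (.thr 32 47 (.thr 34 35 (.thr 0 51 (.thr 48 16 (.thr 15 26 (.dbl 5 10 53)))))))))) (.rp 9 (.thr 53 5 (.thr 13 49 (.thr 33 45 (.thr 17 29 (.thr 32 47 (.thr 34 35 (.thr 0 51 (.thr 48 16 (.thr 3 18 (.thr 1 2 (.thr 43 40 (.thr 11 27 (.dbl 15 7 26))))))))))))) (.rp 6 (.str 54 (.nv (.thr 43 40 (.thr 11 27 (.thr 56 26 (.dbl 57 9 58)))) (.nv (.thr 53 5 (.thr 52 55 (.thr 57 9 (.thr 56 58 (.dbl 60 48 51))))) (.nv (.thr 43 40 (.thr 57 9 (.thr 11 27 (.dbl 56 26 58)))) (.rp 62 (.str 60 (.nv (.dbl 57 9 51) (.rp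 57 (.thr 45 33 (.thr 40 43 (.thr 0 20 (.thr 15 30 (.dbl 5 10 53))))) (.rp 51 (.thr 43 40 (.thr 57 9 (.thr 56 58 (.dbl 11 26 27)))) (.rp 9 (.thr 57 51 (.thr 56 58 (.thr 52 48 (.dbl 53 5 55)))) .nd))))) (.rp 60 (.str 62 (.nv (.thr 43 40 (.thr 11 27 (.thr 58 50 (.dbl 26 10 56)))) (.nv (.thr 58 50 (.dbl 57 9 56)) (.rp 58 (.thr 33 45 (.thr 47 32 (.thr 43 40 (.thr 39 35 (.thr 27 11 (.thr 15 51 (.dbl 26 24 48))))))) (.rp 56 (.thr 50 58 (.thr 32 47 (.thr 49 13 (.thr 48 51 (.thr 16 0 (.dbl 26 15 31)))))) (.rp 50 (.thr 43 40 (.thr 57 9 (.thr 56 58 (.dbl 11 26 27)))) (.rp 26 (.thr 57 9 (.dbl 58 50 56)) .nd))))))) (.rp 58 (.thr 47 32 (.thr 43 40 (.thr 39 35 (.thr 27 11 (.thr 51 15 (.dbl 57 9 60)))))) (.rp 57 (.thr 47 32 (.thr 43 40 (.thr 39 35 (.thr 27 11 (.thr 15 51 (.dbl 26 24 48)))))) (.rp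 56 (.thr 45 33 (.thr 40 43 (.thr 57 9 (.thr 60 51 (.thr 0 20 (.thr 5 53 (.dbl 15 10 30))))))) (.rp 11 (.thr 53 5 (.thr 33 45 (.thr 32 47 (.thr 34 35 (.thr 17 29 (.thr 13 49 (.thr 51 0 (.dbl 57 9 60)))))))) (.rp 9 (.thr 43 40 (.thr 53 5 (.thr 52 55 (.thr 11 27 (.thr 56 26 (.thr 60 48 (.dbl 57 51 58))))))) .nd))))))))))) .nd))))))))))))))))) (.rp 57 (.thr 29 17 (.thr 13 49 (.thr 5 53 (.thr 61 45 (.dbl 1 9 41))))) (.rp 54 (.str 6 (.nv (.thr 5 53 (.thr 13 49 (.thr 1 9 (.thr 29 17 (.dbl 61 41 45))))) (.nv (.thr 5 53 (.thr 4 7 (.thr 8 59 (.thr 0 12 (.thr 15 10 (.thr 32 47 (.dbl 48 16 26))))))) (.nv (.thr 17 29 (.thr 49 13 (.thr 1 33 (.thr 53 5 (.dbl 61 41 57))))) (.rp 53 (.thr 29 17 (.thr 13 49 (.thr 61 45 (.thr 1 41 (.thr 9 5 (.thr 8 59 (.thr 10 11 (.thr 2 14 (.dbl 3 0 12))))))))) (.rp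 29 (.thr 13 49 (.thr 5 53 (.thr 9 1 (.thr 8 59 (.thr 4 7 (.dbl 12 0 3)))))) (.rp 5 (.str 3 (.nv (.thr 8 59 (.thr 12 9 (.thr 0 4 (.thr 2 1 (.thr 13 49 (.dbl 14 10 15)))))) (.nv (.thr 8 59 (.thr 9 12 (.thr 11 10 (.thr 15 7 (.thr 26 48 (.thr 24 27 (.dbl 56 40 41))))))) (.nv (.thr 9 12 (.thr 29 17 (.thr 13 49 (.thr 61 45 (.dbl 41 1 57))))) (.rp 12 (.thr 29 17 (.thr 13 49 (.thr 45 61 (.thr 33 41 (.thr 32 47 (.thr 48 18 (.thr 16 0 (.dbl 26 15 31)))))))) (.rp 9 (.thr 17 29 (.thr 49 13 (.thr 1 33 (.thr 0 2 (.thr 51 34 (.thr 32 47 (.dbl 48 16 50))))))) .nd)))))) .nd))))))) (.rp 53 (.thr 17 29 (.thr 49 13 (.thr 33 1 (.thr 59 8 (.thr 32 47 (.thr 34 35 (.thr 51 0 (.thr 48 50 (.thr 26 15 (.thr 31 16 (.thr 27 24 (.thr 43 11 (.dbl 41 40 45))))))))))))) (.rp 49 (.thr 32 47 (.thr 53 5 (.str 26 (.nv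 (.thr 15 48 (.thr 8 59 (.thr 10 58 (.thr 11 9 (.thr 24 27 (.dbl 56 40 41)))))) (.nv (.thr 8 59 (.thr 24 27 (.thr 31 16 (.thr 48 15 (.thr 36 12 (.dbl 40 44 56)))))) (.nv (.thr 58 10 (.thr 59 8 (.thr 56 57 (.thr 27 24 (.dbl 11 41 43))))) (.rp 59 (.thr 29 17 (.thr 31 16 (.thr 30 28 (.thr 15 48 (.thr 45 60 (.thr 61 13 (.dbl 41 1 33))))))) (.rp 56 (.thr 17 29 (.thr 16 31 (.thr 15 48 (.thr 27 24 (.thr 51 39 (.thr 34 0 (.thr 35 33 (.dbl 19 3 18)))))))) (.rp 54 (.str 6 (.nv (.thr 8 59 (.thr 24 27 (.thr 31 16 (.thr 48 15 (.thr 36 12 (.dbl 40 44 56)))))) (.nv (.thr 8 59 (.thr 10 58 (.thr 14 2 (.thr 15 48 (.thr 12 13 (.dbl 9 3 11)))))) (.nv (.thr 27 24 (.thr 58 10 (.thr 59 8 (.thr 56 57 (.dbl 11 41 43))))) (.rp 59 (.thr 29 17 (.thr 15 48 (.thr 31 16 (.thr 30 28 (.thr 45 60 (.thr 61 13 (.dbl 41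 1 33))))))) (.rp 56 (.thr 10 58 (.thr 14 2 (.thr 15 48 (.thr 12 13 (.thr 9 3 (.dbl 8 11 59)))))) (.rp 51 (.thr 58 10 (.thr 27 24 (.thr 59 8 (.thr 11 43 (.dbl 56 41 57))))) (.rp 31 (.thr 15 48 (.thr 10 58 (.thr 14 2 (.thr 12 13 (.thr 8 59 (.dbl 9 3 11)))))) (.rp 15 (.thr 31 16 (.thr 10 58 (.thr 24 27 (.thr 8 59 (.thr 56 40 (.dbl 11 9 41)))))) (.rp 11 (.thr 48 15 (.thr 31 16 (.thr 24 27 (.thr 36 12 (.thr 40 44 (.dbl 8 56 59)))))) (.rp 10 (.thr 24 27 (.thr 8 59 (.thr 40 56 (.thr 36 44 (.dbl 48 12 15))))) (.rp 8 (.thr 29 17 (.thr 15 48 (.thr 31 16 (.thr 30 28 (.thr 45 60 (.thr 61 13 (.dbl 41 1 33))))))) .nd)))))))))))) (.rp 27 (.thr 29 17 (.thr 31 16 (.thr 30 28 (.thr 15 48 (.thr 45 60 (.thr 61 13 (.dbl 41 1 33))))))) (.rp 24 (.thr 58 10 (.thr 31 16 (.thr 15 48 (.thr 59 8 (.thr 56 57 (.thr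 11 41 (.thr 27 43 (.thr 19 23 (.thr 3 7 (.dbl 51 35 39)))))))))) (.rp 15 (.thr 31 16 (.thr 10 58 (.thr 8 59 (.thr 24 27 (.thr 56 40 (.dbl 11 9 41)))))) (.rp 11 (.thr 31 16 (.thr 48 15 (.thr 24 27 (.thr 36 12 (.thr 40 44 (.dbl 8 56 59)))))) (.rp 10 (.thr 8 59 (.thr 24 27 (.thr 40 56 (.thr 36 44 (.dbl 48 12 15))))) (.rp 8 (.thr 29 17 (.thr 31 16 (.thr 30 28 (.thr 15 48 (.thr 45 60 (.thr 61 13 (.dbl 41 1 33))))))) (.rp 6 (.str 54 (.nv (.thr 15 48 (.thr 27 24 (.thr 51 39 (.thr 57 60 (.thr 58 10 (.dbl 59 8 56)))))) (.nv (.thr 52 55 (.thr 59 8 (.thr 58 10 (.thr 56 57 (.dbl 48 15 60))))) (.nv (.thr 15 48 (.thr 27 24 (.thr 31 16 (.thr 23 19 (.thr 55 52 (.dbl 39 7 51)))))) (.nv (.thr 24 27 (.thr 8 59 (.thr 56 40 (.thr 10 58 (.dbl 11 9 41))))) (.rp 56 (.thr 29 17 (.thr 31 16 (.thr 30 28 (.thr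 15 48 (.thr 60 45 (.thr 51 57 (.dbl 27 24 39))))))) (.rp 15 (.thr 31 16 (.thr 10 58 (.thr 8 59 (.thr 24 27 (.thr 56 40 (.dbl 11 9 41)))))) (.rp 7 (.str 4 (.nv (.thr 8 59 (.thr 55 52 (.thr 12 0 (.thr 24 27 (.dbl 48 15 36))))) (.nv (.thr 24 27 (.thr 52 55 (.thr 20 36 (.dbl 16 28 31)))) (.nv (.thr 8 59 (.thr 0 12 (.dbl 48 15 16))) (.rp 59 (.thr 16 31 (.thr 15 48 (.thr 24 27 (.thr 20 28 (.dbl 52 36 55))))) (.rp 55 (.thr 58 10 (.thr 59 8 (.thr 56 57 (.thr 27 24 (.dbl 11 41 43))))) (.rp 31 (.thr 15 48 (.thr 17 29 (.thr 8 59 (.thr 27 24 (.thr 51 39 (.dbl 0 12 34)))))) (.rp 15 (.thr 31 16 (.thr 10 58 (.thr 8 59 (.thr 24 27 (.thr 56 40 (.dbl 11 9 41)))))) .nd)))))))) (.rp 4 (.str 7 (.nv (.thr 15 48 (.thr 8 59 (.thr 10 58 (.dbl 11 3 9)))) (.nv (.thr 31 16 (.thr 27 24 (.thr 55 52 (.dbl 23 19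 39)))) (.rp 55 (.thr 10 58 (.thr 15 48 (.thr 11 3 (.dbl 8 9 59)))) .nd)))) .nd))))))))) .nd)))))))))))))))) (.rp 33 (.thr 29 17 (.thr 5 53 (.thr 13 49 (.thr 1 9 (.dbl 61 41 45))))) (.rp 17 (.thr 32 47 (.thr 59 8 (.str 26 (.nv (.thr 31 16 (.thr 27 24 (.thr 11 43 (.thr 56 41 (.dbl 58 10 57))))) (.nv (.thr 15 48 (.thr 49 13 (.thr 53 5 (.thr 57 61 (.dbl 58 10 56))))) (.nv (.thr 58 10 (.thr 27 24 (.thr 56 57 (.dbl 11 41 43)))) (.rp 58 (.thr 27 24 (.thr 43 11 (.thr 53 5 (.thr 49 13 (.thr 57 61 (.dbl 41 9 40)))))) (.rp 57 (.thr 27 24 (.thr 11 43 (.thr 31 16 (.thr 15 48 (.thr 19 23 (.thr 3 7 (.dbl 51 35 39))))))) (.rp 56 (.thr 24 27 (.thr 53 5 (.thr 31 16 (.thr 48 15 (.thr 36 12 (.thr 40 44 (.thr 41 43 (.thr 57 9 (.dbl 49 13 61))))))))) (.rp 54 (.str 6 (.nv (.thr 31 16 (.thr 27 24 (.thr 11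 43 (.thr 56 41 (.dbl 58 10 57))))) (.nv (.thr 15 48 (.thr 10 58 (.thr 53 5 (.thr 14 2 (.dbl 13 12 49))))) (.rp 58 (.thr 27 24 (.thr 11 43 (.thr 53 5 (.thr 49 13 (.thr 57 61 (.dbl 41 9 56)))))) (.rp 10 (.thr 27 24 (.thr 11 43 (.thr 5 53 (.thr 7 4 (.dbl 15 3 48))))) .nd))))) (.rp 10 (.thr 53 5 (.thr 49 13 (.thr 57 61 (.thr 56 58 (.dbl 41 9 11))))) (.rp 6 (.str 54 (.nv (.thr 31 16 (.thr 48 15 (.thr 49 13 (.thr 50 51 (.dbl 58 10 62))))) (.nv (.thr 15 48 (.thr 49 13 (.thr 53 5 (.thr 57 61 (.dbl 58 10 56))))) (.nv (.thr 58 10 (.thr 27 24 (.thr 56 57 (.dbl 11 41 43)))) (.rp 58 (.thr 27 24 (.thr 43 11 (.thr 53 5 (.thr 49 13 (.thr 57 61 (.dbl 41 9 40)))))) (.rp 15 (.thr 31 16 (.thr 58 10 (.thr 57 56 (.thr 49 13 (.dbl 53 5 61))))) (.rp 10 (.thr 53 5 (.thr 49 13 (.thr 57 61 (.thr 56 58 (.dbl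 41 9 11))))) .nd))))))) .nd)))))))))))) (.rp 13 (.thr 32 47 (.thr 5 53 (.str 26 (.nv (.thr 31 16 (.thr 8 59 (.thr 24 27 (.thr 56 40 (.thr 11 41 (.dbl 10 9 58)))))) (.nv (.thr 8 59 (.thr 24 27 (.thr 31 16 (.thr 40 56 (.thr 48 15 (.dbl 36 12 44)))))) (.nv (.thr 58 10 (.thr 27 24 (.thr 59 8 (.thr 56 57 (.dbl 11 41 43))))) (.rp 59 (.thr 17 29 (.thr 58 10 (.thr 15 48 (.thr 16 31 (.thr 27 24 (.thr 19 18 (.thr 51 39 (.thr 34 0 (.dbl 35 3 33))))))))) (.rp 58 (.thr 48 15 (.thr 31 16 (.thr 29 17 (.thr 28 30 (.thr 24 27 (.thr 12 36 (.thr 60 44 (.thr 56 52 (.dbl 8 40 59))))))))) (.rp 56 (.thr 17 29 (.thr 58 10 (.thr 15 48 (.thr 16 31 (.thr 27 24 (.thr 19 18 (.thr 51 39 (.thr 34 0 (.dbl 35 3 33))))))))) (.rp 54 (.str 6 (.nv (.thr 58 10 (.thr 27 24 (.thr 59 8 (.thr 11 43 (.dbl 56 41 57))))) (.nv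 (.thr 8 59 (.thr 4 7 (.thr 0 12 (.dbl 15 10 48)))) (.rp 59 (.thr 58 10 (.thr 15 48 (.thr 31 16 (.thr 27 24 (.thr 7 4 (.thr 23 19 (.dbl 39 51 55))))))) (.rp 58 (.thr 48 15 (.thr 31 16 (.thr 24 27 (.thr 12 36 (.thr 8 59 (.dbl 4 0 7)))))) (.rp 55 (.str 52 (.nv (.thr 4 7 (.thr 24 27 (.thr 20 36 (.dbl 16 28 31)))) (.nv (.thr 58 10 (.thr 59 8 (.thr 56 57 (.dbl 48 15 60)))) (.rp 59 (.str 51 (.nv (.thr 17 29 (.thr 0 34 (.dbl 10 15 58))) (.nv (.thr 27 24 (.dbl 15 39 48)) (.rp 58 (.thr 48 15 (.thr 31 16 (.thr 4 7 (.thr 36 20 (.dbl 24 12 27))))) (.rp 48 (.thr 58 10 (.thr 4 7 (.thr 20 36 (.thr 24 27 (.dbl 16 28 31))))) (.rp 31 (.thr 15 48 (.thr 58 10 (.dbl 27 24 39))) (.rp 15 (.thr 31 16 (.thr 27 24 (.thr 19 23 (.thr 17 29 (.thr 34 0 (.dbl 35 3 33)))))) .nd))))))) (.rp 58 (.thr 48 15 (.thr 31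 16 (.thr 56 60 (.thr 24 27 (.dbl 8 40 59))))) (.rp 51 (.thr 59 8 (.thr 58 10 (.thr 48 15 (.thr 31 16 (.dbl 56 57 60))))) (.rp 48 (.thr 58 10 (.thr 24 27 (.thr 4 7 (.thr 20 36 (.dbl 16 28 31))))) (.rp 31 (.thr 15 48 (.thr 58 10 (.thr 27 24 (.thr 59 8 (.thr 56 57 (.dbl 11 41 43)))))) (.rp 15 (.thr 31 16 (.thr 58 10 (.thr 27 24 (.thr 59 8 (.thr 56 57 (.dbl 11 41 43)))))) .nd))))))))) (.rp 52 (.str 55 (.nv (.thr 8 59 (.thr 24 27 (.thr 40 56 (.thr 36 44 (.dbl 48 12 15))))) (.nv (.thr 31 16 (.thr 7 4 (.thr 23 39 (.dbl 27 19 24)))) (.nv (.thr 4 7 (.thr 8 59 (.thr 0 12 (.dbl 15 10 48)))) (.rp 58 (.thr 48 15 (.thr 31 16 (.thr 27 24 (.thr 7 4 (.dbl 23 19 39))))) (.rp 48 (.thr 58 10 (.thr 59 8 (.thr 27 24 (.thr 11 43 (.dbl 56 41 57))))) (.rp 31 (.thr 15 48 (.thr 58 10 (.thr 27 24 (.thr 7 4 (.dbl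 39 23 51))))) .nd))))))) (.rp 31 (.thr 15 48 (.thr 58 10 (.thr 27 24 (.thr 59 8 (.thr 56 57 (.dbl 11 41 43)))))) (.rp 15 (.thr 31 16 (.thr 58 10 (.thr 27 24 (.thr 59 8 (.thr 56 57 (.dbl 11 41 43)))))) (.rp 10 (.thr 8 59 (.thr 4 7 (.thr 0 12 (.dbl 16 31 48)))) (.rp 8 (.thr 58 10 (.thr 15 48 (.thr 31 16 (.thr 27 24 (.thr 7 4 (.thr 23 19 (.dbl 39 51 55))))))) .nd))))))))))) (.rp 43 (.thr 10 58 (.thr 48 15 (.thr 31 16 (.thr 24 27 (.thr 8 59 (.thr 11 9 (.dbl 56 40 41))))))) (.rp 31 (.thr 15 48 (.thr 58 10 (.thr 27 24 (.thr 59 8 (.thr 56 57 (.dbl 11 41 43)))))) (.rp 27 (.thr 29 17 (.thr 58 10 (.thr 15 48 (.thr 31 16 (.thr 30 28 (.thr 45 60 (.thr 41 33 (.thr 57 9 (.dbl 56 11 59))))))))) (.rp 24 (.thr 58 10 (.thr 15 48 (.thr 31 16 (.thr 59 8 (.thr 56 57 (.thr 11 41 (.thr 27 43 (.thr 3 7 (.thr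 19 23 (.dbl 51 35 39)))))))))) (.rp 11 (.thr 29 17 (.thr 48 15 (.thr 31 16 (.thr 28 30 (.thr 24 27 (.thr 12 36 (.thr 60 44 (.thr 56 52 (.dbl 8 40 59))))))))) (.rp 8 (.thr 17 29 (.thr 58 10 (.thr 15 48 (.thr 16 31 (.thr 27 24 (.thr 19 18 (.thr 51 39 (.thr 34 0 (.dbl 35 3 33))))))))) (.rp 6 (.str 54 (.nv (.thr 31 16 (.thr 8 59 (.thr 24 27 (.thr 56 40 (.thr 11 41 (.dbl 10 9 58)))))) (.nv (.thr 15 48 (.thr 58 10 (.thr 27 24 (.thr 51 39 (.thr 57 60 (.dbl 59 8 56)))))) (.nv (.thr 24 27 (.thr 8 59 (.thr 40 56 (.thr 36 44 (.dbl 48 12 15))))) (.nv (.thr 58 10 (.thr 59 8 (.thr 56 57 (.thr 27 24 (.dbl 11 41 43))))) (.rp 59 (.thr 29 17 (.thr 58 10 (.thr 31 16 (.thr 30 28 (.thr 15 48 (.thr 60 45 (.thr 51 57 (.dbl 27 24 39)))))))) (.rp 58 (.thr 48 15 (.thr 31 16 (.thr 29 17 (.thr 28 30 (.thr 8 59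 (.thr 24 27 (.thr 56 40 (.thr 60 52 (.dbl 12 36 44))))))))) (.rp 56 (.thr 29 17 (.thr 58 10 (.thr 31 16 (.thr 30 28 (.thr 15 48 (.thr 60 45 (.thr 51 57 (.dbl 27 24 39)))))))) (.rp 43 (.thr 17 29 (.thr 58 10 (.thr 59 8 (.thr 57 56 (.thr 51 60 (.thr 0 34 (.dbl 48 15 16))))))) (.rp 41 (.thr 58 10 (.thr 15 48 (.thr 59 8 (.thr 27 24 (.thr 51 39 (.dbl 57 56 60)))))) (.rp 27 (.thr 17 29 (.thr 58 10 (.thr 59 8 (.thr 57 56 (.thr 51 60 (.thr 0 34 (.dbl 48 15 16))))))) (.rp 24 (.thr 58 10 (.thr 50 62 (.thr 31 16 (.thr 48 15 (.thr 59 8 (.thr 51 49 (.dbl 57 56 60))))))) (.rp 8 (.thr 58 10 (.thr 15 48 (.thr 27 24 (.thr 51 39 (.thr 57 60 (.thr 56 59 (.dbl 41 9 11))))))) .nd))))))))))))) .nd))))))))))))))))) (.rp 6 (.str 54 (.nv (.thr 17 29 (.thr 49 13 (.thr 1 33 (.thr 53 5 (.dbl 61 41 57))))) (.nv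 (.thr 5 53 (.thr 8 59 (.thr 13 49 (.thr 9 1 (.thr 10 11 (.thr 15 0 (.dbl 26 48 58))))))) (.nv (.thr 29 17 (.thr 13 49 (.thr 61 45 (.thr 5 53 (.dbl 1 9 41))))) (.rp 61 (.str 60 (.nv (.thr 13 49 (.thr 57 51 (.thr 9 41 (.dbl 5 1 53)))) (.nv (.thr 57 51 (.thr 53 5 (.thr 52 55 (.thr 59 8 (.dbl 56 48 58))))) (.rp 59 (.thr 49 13 (.thr 53 5 (.thr 52 55 (.thr 51 57 (.dbl 48 50 56))))) (.rp 57 (.thr 53 5 (.thr 52 55 (.thr 48 56 (.thr 32 47 (.thr 16 0 (.dbl 26 15 31)))))) (.rp 55 (.thr 13 49 (.thr 5 53 (.thr 57 51 (.thr 59 8 (.dbl 9 1 41))))) (.rp 53 (.thr 49 13 (.thr 51 57 (.thr 48 50 (.thr 32 47 (.thr 16 0 (.dbl 26 15 31)))))) (.rp 51 (.thr 53 5 (.thr 59 8 (.thr 52 55 (.thr 48 56 (.thr 32 47 (.thr 16 0 (.dbl 26 15 31))))))) (.rp 48 (.thr 17 29 (.thr 51 57 (.thr 34 0 (.thr 32 47 (.thr 33 35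 (.dbl 49 1 13)))))) (.rp 5 (.thr 17 29 (.thr 51 57 (.thr 0 34 (.thr 32 47 (.thr 48 16 (.dbl 49 13 50)))))) .nd)))))))))) (.rp 53 (.thr 17 29 (.thr 49 13 (.thr 33 1 (.thr 32 47 (.thr 34 35 (.thr 51 0 (.thr 57 60 (.dbl 41 9 45)))))))) (.rp 49 (.str 60 (.nv (.thr 57 51 (.thr 41 9 (.thr 43 40 (.thr 59 8 (.thr 11 27 (.dbl 56 26 58)))))) (.nv (.thr 32 47 (.thr 53 5 (.thr 52 55 (.thr 48 56 (.thr 16 0 (.dbl 26 15 31)))))) (.nv (.thr 17 29 (.thr 32 47 (.thr 51 57 (.thr 0 34 (.thr 48 16 (.thr 15 26 (.dbl 5 10 53))))))) (.nv (.thr 53 5 (.thr 59 8 (.thr 52 55 (.thr 56 48 (.dbl 57 51 58))))) (.rp 51 (.thr 53 5 (.thr 59 8 (.thr 52 55 (.thr 48 56 (.thr 32 47 (.thr 16 0 (.dbl 26 15 31))))))) (.rp 48 (.thr 17 29 (.thr 53 5 (.thr 8 59 (.thr 52 55 (.thr 51 57 (.thr 0 34 (.thr 20 40 (.dbl 4 12 36))))))))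 .nd))))))) (.rp 33 (.thr 29 17 (.thr 5 53 (.thr 13 49 (.thr 1 9 (.dbl 61 41 45))))) (.rp 17 (.thr 49 13 (.thr 53 5 (.thr 57 61 (.thr 59 8 (.thr 56 58 (.thr 52 55 (.dbl 60 48 51))))))) (.rp 13 (.str 60 (.nv (.thr 53 5 (.thr 57 51 (.thr 59 8 (.thr 61 49 (.dbl 41 1 9))))) (.nv (.thr 32 47 (.thr 53 5 (.thr 52 55 (.thr 48 56 (.thr 16 0 (.dbl 26 15 31)))))) (.nv (.thr 57 51 (.thr 59 8 (.thr 56 58 (.thr 52 48 (.dbl 53 5 55))))) (.rp 59 (.thr 53 5 (.thr 55 52 (.thr 57 51 (.thr 61 49 (.dbl 41 1 9))))) (.rp 53 (.thr 59 8 (.thr 57 51 (.thr 41 9 (.thr 56 58 (.thr 48 52 (.dbl 26 11 15)))))) (.rp 51 (.thr 53 5 (.thr 59 8 (.thr 52 55 (.thr 48 56 (.thr 32 47 (.thr 16 0 (.dbl 26 15 31))))))) (.rp 48 (.thr 59 8 (.thr 57 51 (.thr 41 9 (.thr 43 40 (.thr 11 27 (.dbl 56 26 58)))))) (.rp 5 (.thr 59 8 (.thr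 57 51 (.thr 56 58 (.thr 48 52 (.thr 26 15 (.dbl 41 9 11)))))) .nd))))))))) (.rp 5 (.thr 17 29 (.thr 49 13 (.thr 1 33 (.thr 61 41 (.thr 57 53 (.thr 59 8 (.thr 58 56 (.thr 50 62 (.dbl 51 48 60))))))))) (.rp 1 (.str 60 (.nv (.thr 53 5 (.thr 52 55 (.thr 56 48 (.thr 59 8 (.dbl 57 51 58))))) (.nv (.thr 49 13 (.thr 57 51 (.dbl 53 5 61))) (.rp 59 (.thr 53 5 (.thr 55 52 (.thr 57 51 (.dbl 49 13 61)))) (.rp 57 (.thr 53 5 (.thr 52 55 (.thr 48 56 (.thr 32 47 (.thr 16 0 (.dbl 26 15 31)))))) (.rp 55 (.thr 49 13 (.thr 59 8 (.thr 57 51 (.dbl 53 5 61)))) (.rp 53 (.thr 17 29 (.thr 49 13 (.thr 51 57 (.thr 48 50 (.thr 0 34 (.dbl 32 16 47)))))) (.rp 51 (.thr 53 5 (.thr 59 8 (.thr 52 55 (.thr 56 48 (.thr 57 58 (.dbl 49 13 61)))))) (.rp 13 (.thr 59 8 (.thr 57 51 (.thr 56 58 (.thr 52 48 (.dbl 53 5 55)))))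 (.rp 9 (.thr 59 8 (.thr 57 51 (.thr 56 58 (.thr 52 48 (.dbl 53 5 55))))) (.rp 5 (.thr 17 29 (.thr 51 57 (.thr 0 34 (.thr 32 47 (.thr 48 16 (.dbl 49 13 50)))))) .nd))))))))))) .nd)))))))))))) (.rp 5 (.thr 32 47 (.str 26 (.nv (.thr 8 59 (.thr 24 27 (.thr 31 16 (.thr 48 15 (.thr 36 12 (.dbl 40 44 56)))))) (.nv (.thr 13 49 (.thr 15 48 (.thr 29 17 (.thr 31 16 (.thr 45 61 (.dbl 30 28 60)))))) (.nv (.thr 27 24 (.thr 58 10 (.thr 59 8 (.thr 56 57 (.dbl 11 41 43))))) (.rp 54 (.str 6 (.nv (.thr 8 59 (.thr 24 27 (.thr 56 40 (.thr 11 41 (.dbl 10 9 58))))) (.nv (.thr 13 49 (.thr 10 58 (.thr 14 2 (.dbl 15 12 48)))) (.rp 58 (.thr 29 17 (.thr 13 49 (.thr 45 61 (.thr 31 16 (.thr 30 28 (.dbl 15 48 60)))))) (.rp 31 (.thr 15 48 (.thr 13 49 (.thr 14 12 (.dbl 10 2 58)))) (.rp 15 (.thr 31 16 (.thr 10 58 (.thr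 24 27 (.thr 8 59 (.thr 56 40 (.dbl 11 9 41)))))) (.rp 10 (.thr 24 27 (.thr 8 59 (.thr 40 56 (.thr 36 44 (.dbl 48 12 15))))) .nd))))))) (.rp 31 (.thr 15 48 (.thr 58 10 (.thr 27 24 (.thr 59 8 (.thr 11 43 (.dbl 56 41 57)))))) (.rp 15 (.thr 31 16 (.thr 10 58 (.thr 24 27 (.thr 8 59 (.thr 11 9 (.dbl 56 40 41)))))) (.rp 6 (.str 54 (.nv (.thr 27 24 (.thr 58 10 (.thr 59 8 (.thr 11 43 (.dbl 56 41 57))))) (.nv (.thr 8 59 (.thr 24 27 (.thr 40 56 (.thr 36 44 (.dbl 48 12 15))))) (.nv (.thr 58 10 (.thr 49 13 (.thr 50 62 (.dbl 48 15 51)))) (.rp 58 (.thr 24 27 (.thr 8 59 (.thr 31 16 (.thr 48 15 (.thr 36 12 (.dbl 40 44 56)))))) (.rp 31 (.thr 15 48 (.thr 58 10 (.thr 27 24 (.thr 59 8 (.thr 11 43 (.dbl 56 41 57)))))) (.rp 15 (.thr 31 16 (.thr 10 58 (.thr 24 27 (.thr 8 59 (.thr 11 9 (.dbl 56 40 41))))))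 (.rp 7 (.str 4 (.nv (.thr 49 13 (.thr 58 10 (.thr 50 62 (.dbl 48 15 51)))) (.nv (.thr 8 59 (.thr 24 27 (.thr 56 40 (.thr 11 41 (.dbl 10 9 58))))) (.nv (.thr 8 59 (.thr 13 49 (.thr 12 0 (.dbl 15 14 48)))) (.rp 51 (.thr 58 10 (.thr 59 8 (.thr 56 57 (.thr 27 24 (.dbl 11 41 43))))) (.rp 31 (.thr 15 48 (.thr 13 49 (.thr 12 14 (.dbl 8 0 59)))) (.rp 15 (.thr 31 16 (.thr 10 58 (.thr 8 59 (.thr 24 27 (.thr 56 40 (.dbl 11 9 41)))))) .nd))))))) (.rp 4 (.str 7 (.nv (.thr 8 59 (.thr 24 27 (.thr 56 40 (.thr 11 41 (.dbl 10 9 58))))) (.nv (.thr 58 10 (.thr 49 13 (.thr 50 62 (.dbl 48 15 51)))) (.nv (.thr 15 48 (.thr 27 24 (.thr 59 8 (.dbl 11 3 43)))) (.rp 58 (.thr 27 24 (.thr 59 8 (.thr 11 43 (.dbl 15 3 48)))) (.rp 15 (.thr 31 16 (.thr 10 58 (.thr 24 27 (.thr 8 59 (.thr 11 9 (.dbl 56 40 41)))))) .nd))))))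 .nd))))))))) .nd))))))))) (.rp 1 (.thr 32 47 (.thr 5 53 (.str 26 (.nv (.thr 24 27 (.thr 31 16 (.thr 48 15 (.thr 36 12 (.thr 40 44 (.dbl 8 56 59)))))) (.nv (.thr 58 10 (.thr 27 24 (.thr 59 8 (.thr 56 57 (.dbl 11 41 43))))) (.rp 59 (.thr 29 17 (.thr 58 10 (.thr 15 48 (.thr 31 16 (.thr 30 28 (.thr 45 60 (.dbl 13 49 61))))))) (.rp 58 (.thr 48 15 (.thr 31 16 (.thr 24 27 (.thr 36 12 (.thr 40 44 (.dbl 8 56 59)))))) (.rp 56 (.thr 29 17 (.thr 49 13 (.thr 58 10 (.thr 48 15 (.thr 31 16 (.thr 28 30 (.thr 24 27 (.thr 12 36 (.thr 60 44 (.thr 8 59 (.thr 4 0 (.thr 6 7 (.thr 51 50 (.thr 57 54 (.dbl 9 3 41))))))))))))))) (.rp 54 (.str 6 (.nv (.thr 58 10 (.thr 27 24 (.thr 59 8 (.thr 11 43 (.dbl 56 41 57))))) (.nv (.thr 8 59 (.thr 4 7 (.thr 0 12 (.dbl 16 31 48)))) (.rp 59 (.thr 13 49 (.thr 58 10 (.thr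 15 48 (.thr 12 14 (.thr 7 4 (.dbl 3 9 11)))))) (.rp 58 (.thr 48 15 (.thr 31 16 (.thr 24 27 (.thr 12 36 (.thr 8 59 (.dbl 4 0 7)))))) (.rp 55 (.str 52 (.nv (.thr 4 7 (.thr 24 27 (.thr 36 20 (.dbl 48 12 15)))) (.nv (.thr 59 8 (.thr 31 16 (.thr 48 15 (.thr 58 10 (.dbl 56 57 60))))) (.rp 59 (.str 51 (.nv (.thr 48 15 (.thr 31 16 (.dbl 49 13 50))) (.nv (.thr 27 24 (.dbl 15 39 48)) (.rp 48 (.thr 58 10 (.thr 4 7 (.thr 20 36 (.thr 24 27 (.dbl 16 28 31))))) (.rp 31 (.thr 15 48 (.thr 58 10 (.dbl 27 24 39))) (.rp 15 (.thr 31 16 (.thr 4 7 (.thr 36 20 (.thr 24 27 (.thr 49 13 (.dbl 48 12 50)))))) .nd)))))) (.rp 58 (.thr 48 15 (.thr 31 16 (.thr 56 60 (.thr 24 27 (.dbl 8 40 59))))) (.rp 48 (.thr 58 10 (.thr 24 27 (.thr 4 7 (.thr 20 36 (.dbl 16 28 31))))) (.rp 31 (.thr 15 48 (.thr 58 10 (.thr 13 49 (.thr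 12 14 (.thr 4 7 (.dbl 8 0 59)))))) (.rp 15 (.thr 31 16 (.thr 58 10 (.thr 27 24 (.thr 59 8 (.thr 56 57 (.dbl 11 41 43)))))) .nd)))))))) (.rp 52 (.str 55 (.nv (.thr 8 59 (.thr 24 27 (.thr 40 56 (.thr 36 44 (.dbl 48 12 15))))) (.nv (.thr 7 4 (.thr 27 24 (.thr 39 23 (.dbl 15 48 51)))) (.nv (.thr 8 59 (.thr 4 7 (.thr 0 12 (.dbl 16 31 48)))) (.rp 58 (.thr 48 15 (.thr 31 16 (.thr 27 24 (.thr 7 4 (.dbl 23 19 39))))) (.rp 48 (.thr 58 10 (.thr 59 8 (.thr 27 24 (.thr 11 43 (.dbl 56 41 57))))) (.rp 31 (.thr 15 48 (.thr 58 10 (.thr 27 24 (.thr 7 4 (.dbl 39 23 51))))) (.rp 15 (.thr 31 16 (.thr 27 24 (.thr 7 4 (.dbl 23 19 39)))) .nd)))))))) (.rp 31 (.thr 15 48 (.thr 58 10 (.thr 13 49 (.thr 12 14 (.thr 8 59 (.dbl 4 0 7)))))) (.rp 15 (.thr 31 16 (.thr 58 10 (.thr 27 24 (.thr 59 8 (.thr 56 57 (.dbl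 11 41 43)))))) (.rp 8 (.thr 13 49 (.thr 58 10 (.thr 15 48 (.thr 12 14 (.thr 7 4 (.dbl 3 9 11)))))) .nd)))))))))) (.rp 41 (.thr 48 15 (.thr 31 16 (.thr 24 27 (.thr 36 12 (.thr 8 59 (.dbl 40 44 56)))))) (.rp 31 (.thr 15 48 (.thr 58 10 (.thr 27 24 (.thr 59 8 (.thr 56 57 (.dbl 11 41 43)))))) (.rp 27 (.thr 29 17 (.thr 58 10 (.thr 15 48 (.thr 31 16 (.thr 30 28 (.thr 45 60 (.dbl 13 49 61))))))) (.rp 24 (.thr 58 10 (.thr 15 48 (.thr 31 16 (.thr 59 8 (.thr 56 57 (.thr 11 41 (.thr 27 43 (.thr 3 7 (.thr 19 23 (.dbl 51 35 39)))))))))) (.rp 15 (.thr 31 16 (.thr 58 10 (.thr 27 24 (.thr 59 8 (.thr 56 57 (.dbl 11 41 43)))))) (.rp 8 (.thr 29 17 (.thr 58 10 (.thr 15 48 (.thr 31 16 (.thr 30 28 (.thr 45 60 (.dbl 13 49 61))))))) (.rp 6 (.str 54 (.nv (.thr 58 10 (.thr 27 24 (.thr 59 8 (.thr 11 43 (.dbl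 56 41 57))))) (.nv (.thr 8 59 (.thr 24 27 (.thr 40 56 (.thr 36 44 (.dbl 48 12 15))))) (.nv (.thr 49 13 (.thr 58 10 (.thr 50 62 (.dbl 48 15 51)))) (.rp 58 (.thr 48 15 (.thr 31 16 (.thr 8 59 (.thr 24 27 (.thr 36 12 (.dbl 40 44 56)))))) (.rp 31 (.thr 15 48 (.thr 58 10 (.thr 59 8 (.thr 56 57 (.thr 27 24 (.dbl 11 41 43)))))) (.rp 15 (.thr 31 16 (.thr 58 10 (.thr 59 8 (.thr 56 57 (.thr 27 24 (.dbl 11 41 43)))))) .nd))))))) .nd)))))))))))))))) .nd))))))))))))))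

theorem w458 : WinAt (4535487561728, 9223372311736877056) :=
  chF (K := []) kn c458 4535487561728 9223372311736877056 63
    [18014673391583296] (by decide +kernel) (by decide +kernel)

/-- A certificate. -/
noncomputable def c459 : Ct := (.str 37 (.nv (.thr 32 47 (.thr 0 63 (.thr 48 16 (.thr 5 53 (.dbl 15 10 26))))) (.rp 63 .ext (.rp 54 (.str 6 (.nv (.thr 0 63 (.thr 5 53 (.thr 4 7 (.thr 12 8 (.thr 3 9 (.thr 2 1 (.dbl 10 14 15))))))) (.nv (.thr 47 32 (.thr 63 0 (.thr 15 31 (.thr 53 5 (.dbl 48 26 58))))) (.rp 63 (.str 15 (.nv (.thr 32 47 (.thr 48 26 (.thr 0 16 (.dbl 5 10 53)))) (.nv (.thr 5 53 (.thr 10 0 (.dbl 26 48 58))) (.rp 53 (.thr 32 47 (.thr 48 26 (.thr 0 16 (.thr 5 10 (.thr 7 4 (.thr 3 11 (.thr 9 12 (.dbl 1 2 13)))))))) (.rp 48 (.str 10 (.nv (.dbl 5 0 53) (.rp 58 (.thr 53 5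 (.thr 14 2 (.thr 13 12 (.thr 47 32 (.thr 25 49 (.thr 29 17 (.thr 45 61 (.thr 46 44 (.dbl 30 60 62))))))))) (.rp 53 (.thr 58 26 (.thr 14 2 (.thr 12 13 (.thr 9 3 (.thr 8 11 (.dbl 0 4 5)))))) (.rp 5 (.thr 14 2 (.thr 13 12 (.thr 47 32 (.thr 25 49 (.thr 29 17 (.thr 45 61 (.thr 46 44 (.dbl 30 60 62)))))))) (.rp 0 (.thr 14 2 (.thr 12 13 (.thr 3 9 (.thr 7 11 (.dbl 5 4 53))))) .nd)))))) (.rp 26 (.thr 5 53 (.thr 7 4 (.thr 3 11 (.thr 12 9 (.thr 14 13 (.dbl 10 0 2)))))) (.rp 10 (.thr 32 47 (.thr 5 53 (.thr 7 4 (.thr 3 11 (.thr 9 12 (.thr 1 13 (.thr 0 2 (.dbl 48 16 26)))))))) (.rp 5 (.str 13 (.nv (.thr 25 49 (.thr 14 12 (.thr 29 17 (.thr 10 2 (.dbl 26 48 58))))) (.nv (.thr 14 12 (.thr 10 2 (.dbl 26 48 58))) (.rp 58 (.thr 12 14 (.thr 9 3 (.thr 25 49 (.thr 29 17 (.thr 45 61 (.dbl 41 33 57)))))) (.rp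 48 (.thr 12 14 (.thr 9 3 (.thr 25 49 (.thr 29 17 (.thr 45 61 (.dbl 41 33 57)))))) (.rp 29 (.thr 12 14 (.thr 9 3 (.thr 25 49 (.thr 8 59 (.thr 10 11 (.dbl 26 48 58)))))) (.rp 26 (.thr 14 12 (.thr 47 32 (.thr 25 49 (.thr 29 17 (.thr 45 61 (.thr 46 44 (.dbl 30 60 62))))))) (.rp 25 (.thr 12 14 (.thr 3 9 (.thr 11 7 (.thr 26 48 (.thr 41 56 (.thr 45 33 (.dbl 61 1 29))))))) (.rp 14 (.thr 25 49 (.thr 29 17 (.thr 45 61 (.thr 26 48 (.thr 31 16 (.dbl 30 28 60)))))) (.rp 12 (.thr 25 49 (.thr 29 17 (.thr 45 61 (.thr 26 48 (.thr 31 16 (.dbl 30 28 60)))))) (.rp 10 (.thr 12 14 (.thr 9 3 (.thr 25 49 (.thr 29 17 (.thr 45 61 (.dbl 41 33 57)))))) (.rp 2 (.thr 12 14 (.thr 9 3 (.thr 25 49 (.thr 29 17 (.thr 45 61 (.dbl 41 33 57)))))) .nd)))))))))))) (.rp 0 (.thr 5 53 (.thr 7 4 (.thr 3 11 (.thr 12 9 (.thr 14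 13 (.thr 10 2 (.dbl 26 48 58))))))) .nd))))))))) (.rp 58 (.thr 32 47 (.thr 0 63 (.thr 5 53 (.thr 48 16 (.dbl 15 10 26))))) (.rp 53 (.thr 32 47 (.thr 0 63 (.thr 48 16 (.thr 15 26 (.thr 5 10 (.thr 7 4 (.thr 3 11 (.thr 9 12 (.dbl 1 2 13))))))))) (.rp 48 (.str 13 (.nv (.thr 5 53 (.thr 4 7 (.thr 9 1 (.thr 12 3 (.dbl 0 8 63))))) (.nv (.thr 25 49 (.thr 29 17 (.thr 61 45 (.thr 1 41 (.dbl 5 9 53))))) (.nv (.thr 0 63 (.thr 25 49 (.thr 8 59 (.thr 4 12 (.dbl 5 7 53))))) (.nv (.thr 5 53 (.thr 1 9 (.thr 41 61 (.thr 33 45 (.dbl 49 17 25))))) (.rp 53 (.thr 63 0 (.thr 25 49 (.thr 29 17 (.thr 12 46 (.thr 15 14 (.dbl 47 31 32)))))) (.rp 5 (.thr 47 32 (.thr 25 49 (.thr 29 17 (.thr 45 61 (.thr 46 44 (.dbl 63 0 12)))))) .nd))))))) (.rp 15 (.thr 0 63 (.thr 5 53 (.thr 4 7 (.thr 8 12 (.thr 25 59 (.thr 29 17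 (.thr 13 49 (.thr 1 9 (.dbl 61 41 45))))))))) (.rp 5 (.str 16 (.nv (.thr 0 63 (.dbl 32 47 48)) (.rp 63 (.thr 32 47 (.thr 48 0 (.dbl 26 15 31))) (.rp 48 (.thr 63 0 (.thr 47 32 (.dbl 31 15 26))) (.rp 47 (.thr 0 63 (.thr 48 32 (.dbl 26 15 31))) (.rp 32 (.thr 0 63 (.thr 26 31 (.thr 10 58 (.thr 2 14 (.thr 3 1 (.thr 9 12 (.thr 11 8 (.dbl 15 7 48)))))))) (.rp 0 (.thr 26 31 (.thr 10 58 (.thr 15 48 (.thr 14 2 (.thr 13 12 (.thr 25 49 (.thr 24 27 (.thr 8 59 (.thr 11 9 (.dbl 56 40 41)))))))))) .nd))))))) (.rp 0 (.str 15 (.nv (.thr 47 32 (.thr 31 63 (.dbl 26 16 48))) (.rp 63 (.thr 5 53 (.thr 7 4 (.thr 3 11 (.thr 12 9 (.thr 14 13 (.thr 10 2 (.dbl 26 48 58))))))) (.rp 48 (.thr 5 53 (.thr 7 4 (.thr 3 11 (.thr 12 9 (.thr 13 14 (.thr 25 49 (.thr 29 17 (.thr 63 46 (.dbl 47 31 32))))))))) (.rp 47 (.thr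 5 53 (.thr 7 4 (.thr 3 11 (.thr 12 9 (.thr 14 13 (.thr 10 2 (.dbl 26 48 58))))))) (.rp 32 (.thr 5 53 (.thr 7 4 (.thr 3 11 (.thr 12 9 (.thr 14 13 (.thr 10 2 (.dbl 26 48 58))))))) (.rp 31 (.thr 5 53 (.thr 7 4 (.thr 3 11 (.thr 12 9 (.thr 14 13 (.thr 10 2 (.dbl 26 48 58))))))) (.rp 26 (.thr 47 32 (.thr 63 31 (.thr 5 53 (.thr 7 4 (.thr 3 11 (.thr 12 9 (.thr 29 46 (.thr 25 17 (.dbl 13 14 49))))))))) (.rp 16 (.thr 47 32 (.thr 48 26 (.thr 63 31 (.dbl 53 5 58)))) .nd))))))))) .nd)))))))))) (.rp 53 (.thr 63 0 (.str 43 (.nv (.thr 41 40 (.thr 45 33 (.thr 47 32 (.thr 15 31 (.thr 60 30 (.dbl 61 1 62)))))) (.nv (.thr 3 23 (.thr 41 40 (.thr 33 45 (.thr 48 18 (.thr 26 15 (.thr 56 11 (.thr 61 1 (.dbl 60 52 62)))))))) (.nv (.thr 3 23 (.thr 47 32 (.thr 15 31 (.thr 11 7 (.thr 27 59 (.dbl 39 35 51))))))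 (.rp 54 (.str 6 (.nv (.thr 41 40 (.thr 45 33 (.thr 47 32 (.thr 15 31 (.thr 60 30 (.dbl 61 1 62)))))) (.nv (.thr 3 23 (.thr 47 32 (.thr 15 31 (.thr 11 7 (.thr 27 59 (.dbl 39 35 51)))))) (.nv (.thr 3 23 (.thr 12 9 (.thr 29 46 (.thr 41 40 (.thr 45 33 (.dbl 61 1 13)))))) (.rp 55 (.str 52 (.nv (.thr 3 23 (.thr 9 12 (.thr 41 40 (.thr 1 61 (.thr 13 5 (.dbl 25 49 57)))))) (.nv (.thr 3 23 (.thr 12 9 (.thr 29 46 (.thr 25 17 (.thr 13 49 (.thr 15 14 (.dbl 47 31 32))))))) (.nv (.thr 47 32 (.thr 15 31 (.thr 48 26 (.thr 60 56 (.thr 61 62 (.dbl 41 1 40)))))) (.nv (.thr 41 40 (.thr 3 23 (.thr 12 9 (.thr 46 29 (.thr 45 33 (.dbl 47 32 44)))))) .nd))))) (.rp 52 (.str 55 (.nv (.thr 47 32 (.thr 39 35 (.dbl 23 3 7))) (.nv (.thr 47 32 (.thr 15 31 (.thr 39 35 (.dbl 51 27 59)))) (.nv (.thr 3 23 (.thr 9 12 (.thr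 41 40 (.thr 25 57 (.dbl 59 8 51))))) (.nv (.thr 3 23 (.thr 47 32 (.thr 35 39 (.dbl 51 19 59)))) .nd))))) .nd)))))) (.rp 48 (.thr 41 40 (.thr 45 33 (.thr 61 1 (.thr 29 13 (.thr 46 12 (.dbl 47 32 44)))))) (.rp 15 (.thr 47 32 (.thr 41 40 (.thr 45 33 (.thr 61 1 (.thr 29 13 (.dbl 46 12 44)))))) (.rp 6 (.str 54 (.nv (.thr 3 23 (.thr 41 40 (.thr 33 45 (.thr 48 18 (.thr 26 15 (.thr 56 11 (.thr 60 52 (.dbl 61 1 62)))))))) (.nv (.thr 41 40 (.thr 45 33 (.thr 47 32 (.thr 61 1 (.thr 29 13 (.dbl 46 12 44)))))) (.nv (.thr 3 23 (.thr 47 32 (.thr 15 31 (.thr 11 7 (.thr 27 59 (.dbl 39 35 51)))))) (.nv (.thr 3 23 (.thr 41 40 (.thr 33 45 (.thr 47 32 (.thr 48 18 (.dbl 15 26 31)))))) (.rp 48 (.thr 41 40 (.thr 45 33 (.thr 61 1 (.thr 60 62 (.thr 15 30 (.dbl 47 31 32)))))) (.rp 3 (.thr 41 40 (.thr 45 33 (.thr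 47 32 (.thr 15 31 (.thr 60 30 (.dbl 61 1 62)))))) .nd))))))) .nd))))))))) (.rp 48 (.thr 53 5 (.str 61 (.nv (.thr 49 57 (.thr 13 25 (.thr 41 1 (.dbl 45 29 33)))) (.nv (.thr 49 57 (.thr 25 13 (.thr 17 29 (.dbl 1 33 41)))) (.rp 57 (.thr 63 0 (.thr 60 62 (.thr 41 1 (.thr 45 33 (.thr 15 30 (.dbl 47 31 32)))))) (.rp 54 (.str 6 (.nv (.thr 49 57 (.thr 13 25 (.thr 41 1 (.dbl 45 29 33)))) (.nv (.thr 41 1 (.thr 45 33 (.thr 13 29 (.dbl 49 25 57)))) (.nv (.thr 49 57 (.thr 25 13 (.thr 17 29 (.dbl 1 33 41)))) (.rp 57 (.thr 63 0 (.thr 60 62 (.thr 41 1 (.thr 45 33 (.thr 15 30 (.dbl 47 31 32)))))) (.rp 49 (.thr 63 0 (.thr 60 62 (.thr 32 47 (.thr 41 1 (.thr 40 43 (.thr 44 36 (.thr 12 28 (.thr 29 46 (.dbl 45 13 33))))))))) (.rp 41 (.thr 0 63 (.thr 49 57 (.thr 25 13 (.thr 8 59 (.thr 12 4 (.thr 17 29 (.thr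 1 33 (.dbl 3 2 9)))))))) (.rp 33 (.thr 63 0 (.thr 41 1 (.thr 43 40 (.thr 3 23 (.thr 9 12 (.dbl 57 25 49)))))) (.rp 29 (.thr 63 0 (.thr 60 62 (.thr 41 1 (.thr 45 33 (.thr 15 30 (.dbl 47 31 32)))))) (.rp 25 (.thr 63 0 (.thr 60 62 (.thr 41 1 (.thr 45 33 (.thr 15 30 (.dbl 47 31 32)))))) (.rp 13 (.thr 63 0 (.thr 57 49 (.thr 41 1 (.thr 9 25 (.thr 43 40 (.dbl 3 12 23)))))) (.rp 1 (.thr 63 0 (.thr 60 62 (.thr 49 57 (.thr 13 25 (.thr 45 29 (.thr 15 30 (.dbl 47 31 32))))))) .nd)))))))))))) (.rp 49 (.thr 32 47 (.thr 63 0 (.thr 60 62 (.thr 41 1 (.thr 40 43 (.thr 44 36 (.thr 12 28 (.thr 29 46 (.dbl 45 13 33))))))))) (.rp 41 (.thr 49 57 (.thr 32 47 (.thr 0 63 (.thr 25 13 (.thr 17 29 (.thr 34 51 (.dbl 33 1 35))))))) (.rp 33 (.thr 49 57 (.thr 63 0 (.thr 60 62 (.thr 13 25 (.thr 45 29 (.thr 15 30 (.dbl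 47 31 32))))))) (.rp 29 (.thr 63 0 (.thr 60 62 (.thr 41 1 (.thr 45 33 (.thr 15 30 (.dbl 47 31 32)))))) (.rp 25 (.thr 63 0 (.thr 60 62 (.thr 41 1 (.thr 45 33 (.thr 15 30 (.dbl 47 31 32)))))) (.rp 13 (.thr 57 49 (.thr 32 47 (.thr 63 0 (.thr 60 62 (.thr 41 1 (.thr 9 25 (.thr 33 45 (.thr 35 34 (.thr 43 40 (.thr 3 23 (.dbl 51 19 54))))))))))) (.rp 6 (.str 54 (.nv (.thr 55 52 (.thr 63 0 (.thr 51 59 (.dbl 60 57 62)))) (.nv (.thr 49 57 (.thr 25 13 (.thr 17 29 (.dbl 1 33 41)))) (.rp 57 (.thr 63 0 (.thr 60 62 (.thr 41 1 (.thr 45 33 (.thr 15 30 (.dbl 47 31 32)))))) (.rp 7 (.str 4 (.nv (.thr 55 52 (.thr 63 0 (.thr 51 59 (.dbl 60 57 62)))) (.nv (.thr 49 57 (.thr 25 13 (.thr 17 29 (.dbl 1 33 41)))) (.rp 57 (.thr 52 55 (.thr 36 20 (.thr 32 47 (.thr 40 44 (.dbl 41 1 43))))) .nd)))) (.rp 4 (.str 7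 (.nv (.thr 55 52 (.thr 63 0 (.thr 51 59 (.dbl 60 57 62)))) (.nv (.thr 49 57 (.thr 25 13 (.thr 17 29 (.dbl 1 33 41)))) (.rp 57 (.thr 55 52 (.thr 39 23 (.thr 47 32 (.thr 41 1 (.dbl 43 35 40))))) .nd)))) .nd)))))) (.rp 1 (.thr 49 57 (.thr 63 0 (.thr 60 62 (.thr 13 25 (.thr 45 29 (.thr 15 30 (.dbl 47 31 32))))))) .nd)))))))))))))) (.rp 47 (.thr 53 5 (.str 49 (.nv (.thr 63 0 (.thr 48 58 (.thr 51 50 (.thr 59 55 (.dbl 25 8 13))))) (.nv (.thr 61 57 (.thr 41 1 (.thr 45 33 (.dbl 13 25 29)))) (.rp 54 (.str 6 (.nv (.thr 57 61 (.thr 63 0 (.thr 58 48 (.thr 59 56 (.dbl 25 8 13))))) (.nv (.thr 25 13 (.thr 59 8 (.thr 63 0 (.thr 48 58 (.dbl 51 50 55))))) (.nv (.thr 25 13 (.thr 17 29 (.thr 1 33 (.dbl 61 41 57)))) (.rp 25 (.thr 63 0 (.thr 48 58 (.thr 15 26 (.thr 61 57 (.thr 41 1 (.thr 45 33 (.dbl 60 30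 62))))))) (.rp 13 (.thr 0 63 (.thr 61 57 (.thr 1 41 (.thr 33 17 (.thr 3 2 (.thr 48 18 (.thr 16 32 (.dbl 26 15 31)))))))) .nd)))))) (.rp 25 (.thr 57 61 (.thr 63 0 (.thr 48 58 (.thr 51 50 (.thr 54 60 (.dbl 55 52 59)))))) (.rp 13 (.thr 57 61 (.thr 63 0 (.thr 48 58 (.thr 51 50 (.thr 54 60 (.dbl 55 52 59)))))) (.rp 6 (.str 54 (.nv (.thr 55 52 (.thr 63 0 (.thr 48 58 (.dbl 51 50 59)))) (.nv (.thr 25 13 (.thr 17 29 (.thr 61 57 (.dbl 1 33 41)))) (.rp 7 (.str 4 (.nv (.thr 25 13 (.thr 17 29 (.thr 61 57 (.dbl 1 33 41)))) (.nv (.thr 57 61 (.thr 51 60 (.thr 48 50 (.dbl 63 0 58)))) (.nv (.thr 25 13 (.thr 8 59 (.dbl 0 12 63))) .nd)))) (.rp 4 (.str 7 (.nv (.thr 55 52 (.thr 63 0 (.thr 48 58 (.dbl 51 50 59)))) (.nv (.thr 25 13 (.thr 17 29 (.thr 61 57 (.dbl 1 33 41)))) .nd))) .nd))))) .nd)))))))) (.rp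 32 (.thr 5 53 (.str 13 (.nv (.thr 0 63 (.thr 15 10 (.thr 12 14 (.thr 8 4 (.dbl 25 49 59))))) (.nv (.thr 0 63 (.thr 9 1 (.thr 15 10 (.thr 12 14 (.thr 4 8 (.dbl 6 3 7)))))) (.nv (.thr 1 9 (.thr 41 61 (.thr 33 45 (.dbl 49 17 25)))) (.rp 54 (.str 6 (.nv (.thr 0 63 (.thr 4 7 (.thr 12 8 (.dbl 15 10 14)))) (.nv (.thr 1 9 (.thr 25 49 (.thr 29 17 (.dbl 61 41 45)))) (.rp 55 (.str 52 (.nv (.thr 0 63 (.thr 4 7 (.thr 12 8 (.dbl 15 10 14)))) (.nv (.thr 1 9 (.thr 25 49 (.thr 29 17 (.dbl 61 41 45)))) .nd))) (.rp 52 (.str 55 (.nv (.thr 25 49 (.thr 29 17 (.thr 1 9 (.dbl 61 41 45)))) (.nv (.thr 0 63 (.thr 1 9 (.thr 2 3 (.dbl 10 14 15)))) (.nv (.thr 25 49 (.thr 59 8 (.dbl 63 0 51))) .nd)))) .nd))))) (.rp 6 (.str 54 (.nv (.thr 0 63 (.thr 9 1 (.thr 10 15 (.thr 8 11 (.dbl 25 49 59))))) (.nv (.thr 0 63 (.thr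 15 10 (.thr 25 49 (.thr 8 59 (.dbl 12 4 14))))) (.nv (.thr 25 49 (.thr 29 17 (.thr 61 45 (.dbl 1 9 41)))) (.rp 49 (.thr 63 0 (.thr 1 9 (.thr 61 41 (.thr 45 29 (.thr 60 62 (.thr 15 30 (.thr 31 47 (.dbl 26 16 48)))))))) (.rp 25 (.thr 0 63 (.thr 15 10 (.thr 48 26 (.thr 1 9 (.thr 41 61 (.thr 33 45 (.dbl 3 2 18))))))) .nd)))))) .nd))))))) (.rp 31 (.thr 32 47 (.thr 5 53 (.thr 0 63 (.thr 15 10 (.dbl 48 16 26))))) (.rp 26 .ext (.rp 16 (.thr 47 32 (.thr 53 5 (.thr 63 0 (.thr 48 58 (.dbl 15 26 31))))) (.rp 15 (.thr 5 53 (.str 1 (.nv (.thr 13 9 (.thr 41 61 (.thr 49 25 (.dbl 33 17 45)))) (.nv (.thr 0 63 (.thr 3 2 (.thr 41 61 (.thr 33 45 (.thr 48 18 (.dbl 32 16 47)))))) (.nv (.thr 13 9 (.thr 25 49 (.thr 29 17 (.dbl 61 41 45)))) (.rp 61 (.thr 13 9 (.thr 0 63 (.thr 3 2 (.thr 49 25 (.thr 33 17 (.thr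 48 18 (.dbl 32 16 47))))))) (.rp 54 (.str 6 (.nv (.thr 0 63 (.thr 3 2 (.thr 4 7 (.dbl 12 8 9)))) (.nv (.thr 13 9 (.thr 25 49 (.thr 29 17 (.dbl 61 41 45)))) (.rp 55 (.str 52 (.nv (.thr 0 63 (.thr 3 2 (.thr 4 7 (.dbl 12 8 9)))) (.nv (.thr 13 9 (.thr 25 49 (.thr 29 17 (.dbl 61 41 45)))) (.rp 9 (.thr 4 7 (.thr 36 20 (.thr 32 47 (.thr 41 61 (.dbl 40 43 44))))) .nd)))) (.rp 52 (.str 55 (.nv (.thr 0 63 (.thr 3 2 (.thr 4 7 (.dbl 12 8 9)))) (.nv (.thr 13 9 (.thr 25 49 (.thr 29 17 (.dbl 61 41 45)))) (.rp 9 (.thr 7 4 (.thr 39 23 (.thr 47 32 (.thr 43 35 (.dbl 41 40 61))))) .nd)))) (.rp 9 (.thr 0 63 (.thr 3 2 (.thr 41 61 (.thr 33 45 (.thr 48 18 (.dbl 32 16 47)))))) .nd)))))) (.rp 49 (.thr 9 13 (.thr 47 32 (.thr 0 63 (.thr 3 2 (.thr 41 61 (.thr 57 25 (.thr 45 33 (.thr 44 46 (.thr 40 43 (.thr 60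 20 (.dbl 12 6 28))))))))))) (.rp 45 (.thr 13 9 (.thr 0 63 (.thr 3 2 (.thr 49 25 (.thr 33 17 (.thr 48 18 (.dbl 32 16 47))))))) (.rp 41 (.thr 13 9 (.thr 47 32 (.thr 63 0 (.thr 25 49 (.thr 29 17 (.thr 46 12 (.dbl 45 44 61))))))) (.rp 13 (.thr 47 32 (.thr 0 63 (.thr 3 2 (.thr 41 61 (.thr 43 40 (.thr 35 39 (.thr 51 19 (.thr 17 34 (.dbl 33 45 49))))))))) (.rp 6 (.str 54 (.nv (.thr 13 9 (.thr 41 61 (.thr 49 25 (.dbl 33 17 45)))) (.nv (.thr 0 63 (.thr 3 2 (.thr 41 61 (.thr 33 45 (.thr 48 18 (.dbl 32 16 47)))))) (.nv (.thr 13 9 (.thr 25 49 (.thr 29 17 (.dbl 61 41 45)))) (.rp 61 (.thr 0 63 (.thr 3 2 (.thr 13 9 (.thr 49 25 (.thr 33 17 (.thr 48 18 (.dbl 32 16 47))))))) (.rp 49 (.thr 0 63 (.thr 9 13 (.thr 41 61 (.thr 57 25 (.thr 40 43 (.dbl 60 20 51)))))) (.rp 45 (.thr 0 63 (.thr 41 61 (.thr 40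 43 (.thr 60 20 (.thr 57 51 (.dbl 9 13 25)))))) (.rp 41 (.thr 63 0 (.thr 13 9 (.thr 25 49 (.thr 59 8 (.thr 51 55 (.thr 29 17 (.thr 61 45 (.dbl 60 57 62)))))))) (.rp 13 (.thr 0 63 (.thr 3 2 (.thr 47 32 (.thr 41 61 (.thr 43 40 (.thr 35 39 (.thr 51 19 (.thr 17 34 (.dbl 33 45 49))))))))) (.rp 3 (.thr 41 61 (.thr 33 45 (.thr 49 17 (.dbl 13 9 25)))) .nd)))))))))) .nd)))))))))))) (.rp 10 (.thr 47 32 (.thr 63 0 (.thr 53 5 (.thr 15 31 (.dbl 48 26 58))))) (.rp 6 (.str 54 (.nv (.thr 53 5 (.thr 52 55 (.thr 63 0 (.thr 48 58 (.thr 60 56 (.thr 57 51 (.dbl 61 49 62))))))) (.nv (.thr 32 47 (.thr 0 63 (.thr 48 16 (.thr 5 53 (.dbl 15 10 26))))) (.rp 63 (.str 48 (.nv (.thr 32 47 (.thr 16 0 (.dbl 26 15 31))) (.rp 47 (.thr 53 5 (.thr 52 55 (.thr 60 56 (.thr 51 57 (.thr 50 49 (.thr 58 62 (.dbl 26 10 15)))))))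 (.rp 32 (.thr 53 5 (.thr 52 55 (.thr 60 56 (.thr 51 57 (.thr 50 49 (.thr 58 62 (.dbl 26 10 15))))))) (.rp 31 (.thr 32 47 (.thr 15 26 (.thr 0 16 (.dbl 5 10 53)))) (.rp 26 (.thr 32 47 (.thr 0 16 (.thr 53 5 (.thr 52 55 (.thr 60 56 (.thr 51 57 (.thr 17 34 (.thr 25 29 (.dbl 49 13 50))))))))) (.rp 16 (.thr 53 5 (.thr 52 55 (.thr 60 56 (.thr 51 57 (.thr 50 49 (.thr 58 62 (.dbl 26 10 15))))))) (.rp 15 (.thr 53 5 (.thr 52 55 (.thr 60 56 (.thr 51 57 (.thr 49 50 (.thr 25 13 (.thr 17 29 (.thr 0 34 (.dbl 32 16 47))))))))) (.rp 0 (.thr 53 5 (.thr 52 55 (.thr 60 56 (.thr 51 57 (.thr 50 49 (.thr 58 62 (.dbl 26 10 15))))))) .nd))))))))) (.rp 53 (.str 31 (.nv (.thr 63 0 (.dbl 47 15 32)) (.rp 63 (.thr 26 16 (.thr 58 10 (.thr 48 15 (.thr 50 62 (.thr 49 51 (.thr 25 13 (.thr 27 24 (.thr 59 8 (.thr 56 57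 (.dbl 11 41 43)))))))))) (.rp 47 (.thr 63 0 (.thr 26 16 (.thr 58 10 (.thr 62 50 (.thr 60 61 (.thr 57 51 (.thr 56 59 (.dbl 48 15 52)))))))) (.rp 32 (.thr 63 0 (.thr 15 47 (.dbl 26 16 48))) (.rp 15 (.thr 0 63 (.thr 32 47 (.dbl 16 26 48))) (.rp 0 (.thr 47 32 (.thr 15 63 (.dbl 26 16 48))) .nd))))))) (.rp 48 (.thr 63 0 (.thr 53 5 (.thr 55 52 (.thr 59 51 (.thr 25 8 (.thr 17 29 (.thr 49 13 (.thr 61 57 (.dbl 1 33 41))))))))) (.rp 15 (.str 49 (.nv (.thr 53 5 (.thr 55 52 (.thr 25 13 (.thr 59 8 (.dbl 63 0 51))))) (.nv (.thr 53 5 (.thr 55 52 (.thr 57 61 (.thr 51 60 (.dbl 63 0 59))))) (.nv (.thr 0 63 (.thr 25 13 (.thr 17 29 (.thr 51 34 (.thr 48 50 (.dbl 32 16 47)))))) (.nv (.thr 5 53 (.thr 13 25 (.thr 1 9 (.thr 41 61 (.dbl 33 17 45))))) (.rp 51 (.thr 53 5 (.thr 61 57 (.thr 41 1 (.thr 45 33 (.dbl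 13 25 29))))) .nd)))))) (.rp 10 (.thr 47 32 (.thr 63 0 (.thr 53 5 (.thr 15 31 (.dbl 48 26 58))))) (.rp 5 (.thr 47 32 (.thr 63 0 (.thr 15 31 (.thr 48 26 (.thr 53 58 (.thr 52 55 (.thr 60 56 (.thr 57 51 (.dbl 61 49 62))))))))) (.rp 0 (.str 48 (.nv (.thr 15 26 (.thr 47 32 (.thr 63 31 (.dbl 53 5 58)))) (.nv (.thr 53 5 (.thr 58 63 (.dbl 26 10 15))) (.rp 63 (.thr 53 5 (.thr 52 55 (.thr 60 56 (.thr 51 57 (.thr 50 49 (.thr 58 62 (.dbl 26 10 15))))))) (.rp 58 (.thr 47 32 (.thr 53 5 (.thr 52 55 (.thr 60 56 (.thr 57 51 (.thr 61 49 (.thr 63 62 (.dbl 15 26 31)))))))) (.rp 53 (.str 49 (.nv (.thr 25 13 (.thr 17 29 (.thr 50 51 (.thr 58 62 (.dbl 26 10 15))))) (.nv (.thr 50 51 (.thr 58 62 (.dbl 26 10 15))) (.rp 62 (.thr 51 50 (.thr 57 60 (.thr 25 13 (.thr 17 29 (.thr 33 1 (.dbl 41 9 45)))))) (.rp 58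 (.thr 51 50 (.thr 57 60 (.thr 25 13 (.thr 17 29 (.thr 33 1 (.dbl 41 9 45)))))) (.rp 51 (.thr 25 13 (.thr 17 29 (.thr 33 1 (.thr 26 15 (.thr 16 31 (.dbl 18 3 19)))))) (.rp 50 (.thr 25 13 (.thr 17 29 (.thr 33 1 (.thr 26 15 (.thr 16 31 (.dbl 18 3 19)))))) (.rp 26 (.thr 50 51 (.thr 32 47 (.thr 25 13 (.thr 17 29 (.thr 33 1 (.thr 34 35 (.dbl 18 2 3))))))) (.rp 25 (.thr 51 50 (.thr 60 57 (.thr 56 52 (.thr 26 15 (.thr 41 11 (.thr 33 45 (.dbl 1 17 61))))))) (.rp 17 (.thr 51 50 (.thr 57 60 (.thr 25 13 (.thr 59 8 (.thr 58 56 (.dbl 26 10 15)))))) (.rp 15 (.thr 51 50 (.thr 57 60 (.thr 25 13 (.thr 17 29 (.thr 33 1 (.dbl 41 9 45)))))) (.rp 10 (.thr 51 50 (.thr 57 60 (.thr 25 13 (.thr 17 29 (.thr 33 1 (.dbl 41 9 45)))))) .nd)))))))))))) (.rp 26 (.thr 53 5 (.thr 52 55 (.thr 60 56 (.thr 51 57 (.thr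 50 49 (.dbl 58 62 63)))))) (.rp 15 (.str 58 (.nv (.dbl 53 5 63) (.rp 63 (.thr 50 62 (.thr 51 49 (.thr 60 57 (.thr 52 56 (.dbl 53 5 55))))) (.rp 53 (.thr 50 62 (.thr 49 51 (.thr 32 47 (.thr 25 13 (.thr 17 29 (.thr 33 1 (.thr 34 35 (.dbl 18 2 3)))))))) (.rp 10 (.thr 5 53 (.thr 50 62 (.thr 49 51 (.thr 32 47 (.thr 25 13 (.thr 17 29 (.thr 33 1 (.thr 34 35 (.dbl 18 2 3))))))))) (.rp 5 (.thr 10 26 (.thr 50 62 (.thr 51 49 (.thr 57 60 (.thr 59 56 (.dbl 63 53 55)))))) .nd)))))) (.rp 5 (.thr 47 32 (.thr 15 26 (.thr 63 31 (.thr 53 58 (.thr 52 55 (.thr 60 56 (.thr 57 51 (.dbl 61 49 62)))))))) .nd))))))))) .nd)))))))))) (.rp 5 (.thr 0 63 (.str 40 (.nv (.thr 32 47 (.thr 41 43 (.thr 1 61 (.thr 33 45 (.thr 17 49 (.dbl 34 35 51)))))) (.nv (.thr 41 43 (.thr 1 61 (.thr 3 2 (.thr 33 45 (.thr 48 18 (.dbl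 32 16 47)))))) (.nv (.thr 60 20 (.thr 32 47 (.thr 48 16 (.thr 56 52 (.thr 24 8 (.dbl 36 12 44)))))) (.rp 60 (.thr 32 47 (.thr 48 16 (.thr 41 43 (.thr 33 45 (.thr 3 18 (.dbl 1 2 61)))))) (.rp 54 (.str 6 (.nv (.thr 32 47 (.thr 41 43 (.thr 1 61 (.thr 33 45 (.thr 17 49 (.dbl 34 35 51)))))) (.nv (.thr 32 47 (.thr 48 16 (.thr 60 20 (.thr 56 52 (.thr 24 8 (.dbl 36 12 44)))))) (.nv (.thr 41 43 (.thr 45 33 (.thr 60 20 (.thr 15 30 (.thr 32 47 (.dbl 48 16 26)))))) (.rp 60 (.thr 41 43 (.thr 33 45 (.thr 32 47 (.thr 48 16 (.thr 3 18 (.dbl 1 2 61)))))) (.rp 47 (.thr 41 43 (.thr 33 45 (.thr 1 61 (.thr 3 2 (.thr 9 12 (.thr 25 57 (.dbl 17 29 49))))))) (.rp 32 (.thr 41 43 (.thr 33 45 (.thr 1 61 (.thr 3 2 (.thr 9 12 (.thr 25 57 (.dbl 17 29 49))))))) (.rp 15 (.thr 41 43 (.thr 33 45 (.thr 1 61 (.thr 3 2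 (.thr 48 18 (.dbl 32 16 47)))))) .nd)))))))) (.rp 47 (.thr 41 43 (.thr 33 45 (.thr 1 61 (.thr 3 2 (.thr 48 18 (.thr 16 32 (.dbl 26 15 31))))))) (.rp 32 (.thr 60 20 (.thr 41 43 (.thr 45 33 (.thr 1 61 (.thr 15 30 (.thr 26 48 (.thr 11 56 (.dbl 3 2 7)))))))) (.rp 6 (.str 54 (.nv (.thr 41 43 (.thr 33 45 (.thr 32 47 (.thr 48 16 (.thr 3 18 (.dbl 1 2 61)))))) (.nv (.thr 60 20 (.thr 32 47 (.thr 48 16 (.thr 56 52 (.thr 24 8 (.dbl 36 12 44)))))) (.nv (.thr 41 43 (.thr 33 45 (.thr 60 20 (.thr 51 57 (.thr 17 34 (.dbl 1 49 61)))))) (.rp 7 (.str 4 (.nv (.thr 32 47 (.thr 36 44 (.dbl 20 52 60))) (.nv (.thr 12 8 (.thr 32 47 (.thr 36 44 (.dbl 48 16 24)))) (.nv (.thr 8 12 (.thr 25 59 (.thr 41 43 (.thr 60 20 (.dbl 57 9 51))))) (.nv (.thr 60 20 (.thr 32 47 (.thr 44 36 (.dbl 12 8 28)))) .nd))))) (.rp 4 (.str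 7 (.nv (.thr 41 43 (.thr 1 61 (.thr 3 2 (.thr 15 11 (.thr 33 45 (.dbl 48 18 26)))))) (.nv (.thr 32 47 (.thr 36 44 (.thr 48 16 (.thr 60 20 (.thr 56 52 (.dbl 24 8 12)))))) (.nv (.thr 32 47 (.thr 48 16 (.thr 15 26 (.thr 3 11 (.thr 1 2 (.dbl 41 43 61)))))) (.nv (.thr 41 43 (.thr 60 20 (.thr 51 57 (.thr 34 17 (.thr 33 45 (.dbl 32 35 47)))))) (.rp 41 (.thr 60 20 (.thr 51 57 (.thr 17 34 (.thr 32 47 (.thr 48 16 (.thr 49 50 (.dbl 25 13 29))))))) .nd)))))) .nd)))))) .nd)))))))))) (.rp 0 .ext .nd))))))))))))))))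

theorem w459 : WinAt (4398048608256, 274882101248) :=
  chF (K := [(4535487561728, 274882101249), (4535487561728, 274949210112), (4535487561728, 9223372311736877056)]) (kc w456 (kc w457 (kc w458 kn))) c459 4398048608256 274882101248 38
    [18014673391583296] (by decide +kernel) (by decide +kernel)

/-- A certificate. -/
noncomputable def c460 : Ct := (.str 48 (.nv (.thr 32 16 (.thr 37 47 (.thr 15 26 (.dbl 5 10 53)))) (.nv (.thr 16 32 (.thr 26 31 (.thr 10 58 (.dbl 15 5 37)))) (.rp 47 (.thr 16 32 (.thr 26 31 (.thr 15 37 (.dbl 10 5 58)))) (.rp 37 (.str 38 (.nv (.thr 4 55 (.thr 12 8 (.thr 32 16 (.thr 36 24 (.thr 40 44 (.dbl 20 52 60)))))) (.nv (.thr 16 32 (.thr 26 31 (.thr 50 14 (.thr 51 49 (.dbl 34 17 46))))) (.nv (.thr 34 46 (.thr 51 17 (.thr 4 55 (.dbl 12 8 25)))) (.rp 52 (.str 7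 (.nv (.thr 16 32 (.thr 26 31 (.thr 34 46 (.thr 50 14 (.dbl 51 17 49))))) (.nv (.thr 4 55 (.thr 5 6 (.thr 10 15 (.thr 16 32 (.dbl 26 31 58))))) (.nv (.thr 34 46 (.thr 51 17 (.thr 4 55 (.dbl 12 8 25)))) (.rp 51 (.thr 16 32 (.thr 26 31 (.thr 10 58 (.thr 14 50 (.thr 6 2 (.dbl 4 5 55)))))) .nd))))) (.rp 51 (.thr 16 32 (.thr 26 31 (.thr 10 58 (.thr 15 5 (.thr 14 50 (.thr 12 13 (.dbl 4 8 55))))))) (.rp 7 (.str 52 (.nv (.thr 16 32 (.thr 26 31 (.thr 34 46 (.thr 50 14 (.dbl 51 17 49))))) (.nv (.thr 60 56 (.thr 20 40 (.dbl 4 36 55))) (.rp 55 (.str 23 (.nv (.thr 34 46 (.thr 51 17 (.thr 12 25 (.thr 4 8 (.dbl 36 20 24))))) (.nv (.thr 34 46 (.thr 16 32 (.thr 26 31 (.thr 50 14 (.dbl 51 17 49))))) (.nv (.thr 32 16 (.thr 60 56 (.thr 40 20 (.thr 44 36 (.dbl 41 35 43))))) (.rp 59 (.str 51 (.nv (.thr 12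 25 (.thr 4 8 (.dbl 36 20 24))) (.nv (.dbl 34 17 46) .nd))) (.rp 51 (.str 59 (.nv (.thr 16 32 (.thr 25 8 (.thr 17 29 (.thr 19 18 (.dbl 31 26 27))))) (.nv (.thr 8 25 (.thr 4 12 (.thr 20 36 (.dbl 60 40 56)))) (.nv (.thr 16 32 (.thr 26 31 (.thr 58 10 (.dbl 56 57 60)))) (.rp 27 (.str 15 (.nv (.thr 56 60 (.thr 8 25 (.thr 24 40 (.dbl 12 4 36)))) (.nv (.thr 16 32 (.thr 26 31 (.dbl 10 5 58))) .nd))) (.rp 15 (.str 27 (.nv (.thr 60 56 (.thr 40 20 (.dbl 43 11 41))) (.nv (.thr 16 32 (.dbl 31 19 26)) (.rp 47 (.thr 31 19 (.dbl 16 26 32)) (.rp 31 (.str 47 (.nv (.thr 11 43 (.thr 25 8 (.thr 26 24 (.dbl 56 41 60)))) (.nv (.thr 16 32 (.thr 25 8 (.thr 24 26 (.thr 20 28 (.dbl 36 4 12))))) (.nv (.thr 60 56 (.thr 40 20 (.dbl 43 11 41))) (.rp 11 (.str 3 (.nv (.thr 1 2 (.thr 41 61 (.thr 40 43 (.dbl 60 20 56))))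 (.nv (.thr 34 46 (.thr 32 16 (.dbl 33 18 35))) .nd))) .nd))))) (.rp 11 (.str 3 (.nv (.thr 2 1 (.thr 18 33 (.dbl 34 46 50))) (.nv (.thr 16 32 (.dbl 31 19 26)) (.rp 47 (.thr 31 19 (.dbl 16 26 32)) (.rp 31 (.str 47 (.nv (.thr 1 2 (.thr 41 61 (.thr 40 43 (.dbl 60 20 56)))) (.nv (.thr 34 46 (.thr 32 16 (.dbl 33 18 35))) .nd))) .nd))))) (.rp 3 (.thr 11 43 (.thr 16 32 (.dbl 31 19 26))) .nd))))))) .nd)))))) .nd)))))) (.rp 23 (.thr 55 4 (.thr 54 53 (.thr 60 56 (.thr 51 57 (.dbl 34 17 46))))) .nd))))) .nd))))))) (.rp 32 (.str 8 (.nv (.thr 12 4 (.thr 24 36 (.thr 25 59 (.thr 26 27 (.thr 10 58 (.dbl 15 5 37)))))) (.nv (.thr 12 4 (.thr 25 59 (.thr 17 29 (.dbl 51 34 38)))) (.rp 59 (.thr 12 4 (.thr 24 36 (.thr 40 56 (.thr 41 43 (.thr 1 61 (.thr 3 2 (.thr 9 6 (.thr 5 13 (.dbl 10 11 15))))))))) (.rp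 55 (.thr 12 4 (.thr 25 59 (.thr 51 38 (.dbl 17 29 34)))) (.rp 51 (.thr 12 4 (.thr 24 36 (.thr 40 56 (.thr 20 60 (.thr 16 28 (.thr 26 31 (.dbl 25 27 59))))))) (.rp 38 (.thr 25 59 (.thr 17 29 (.thr 51 34 (.thr 49 50 (.thr 37 13 (.thr 5 53 (.dbl 15 10 26))))))) (.rp 25 (.thr 12 4 (.thr 24 36 (.thr 40 56 (.thr 41 43 (.thr 1 61 (.thr 3 2 (.thr 9 6 (.thr 5 13 (.dbl 10 11 15))))))))) (.rp 12 (.thr 25 59 (.str 51 (.nv (.dbl 17 29 34) (.rp 46 (.thr 29 17 (.thr 49 50 (.thr 37 13 (.thr 5 53 (.dbl 15 10 26))))) (.rp 34 (.thr 49 50 (.thr 37 13 (.thr 5 53 (.dbl 15 10 26)))) (.rp 29 (.str 46 (.nv (.dbl 34 17 38) (.rp 38 (.thr 49 50 (.thr 37 13 (.thr 5 53 (.dbl 15 10 26)))) (.rp 34 (.thr 49 50 (.thr 37 13 (.thr 5 53 (.dbl 15 10 26)))) (.rp 17 (.thr 49 50 (.thr 37 13 (.thr 5 53 (.dbl 15 10 26)))) .nd)))))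 (.rp 17 (.thr 49 50 (.thr 37 13 (.thr 5 53 (.dbl 15 10 26)))) .nd))))))) (.rp 4 (.thr 25 59 (.thr 17 29 (.thr 51 34 (.thr 49 50 (.thr 37 13 (.thr 5 53 (.dbl 15 10 26))))))) .nd)))))))))) (.rp 26 (.str 18 (.nv (.thr 3 33 (.thr 2 1 (.thr 34 50 (.thr 38 46 (.thr 4 55 (.thr 12 8 (.dbl 51 17 25))))))) (.nv (.thr 32 16 (.thr 33 3 (.thr 35 34 (.thr 37 47 (.thr 41 45 (.thr 44 38 (.dbl 40 36 43))))))) (.nv (.thr 16 32 (.thr 17 19 (.thr 25 29 (.thr 8 59 (.thr 12 4 (.dbl 51 34 38)))))) (.nv (.thr 16 32 (.thr 17 19 (.thr 3 33 (.thr 2 1 (.dbl 34 50 51))))) (.rp 34 (.thr 33 3 (.thr 16 32 (.thr 17 19 (.thr 49 1 (.thr 51 50 (.thr 25 29 (.thr 8 59 (.dbl 12 4 38)))))))) .nd)))))) (.rp 16 (.str 8 (.nv (.thr 12 4 (.thr 24 36 (.thr 25 59 (.thr 26 27 (.thr 10 58 (.dbl 15 5 37)))))) (.nv (.thr 12 4 (.thr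 25 59 (.thr 17 29 (.dbl 51 34 38)))) (.rp 59 (.thr 12 4 (.thr 24 36 (.thr 40 56 (.thr 41 43 (.thr 1 61 (.thr 3 2 (.thr 9 6 (.thr 5 13 (.dbl 10 11 15))))))))) (.rp 55 (.thr 12 4 (.thr 25 59 (.thr 51 38 (.dbl 17 29 34)))) (.rp 51 (.thr 12 4 (.thr 24 36 (.thr 40 56 (.thr 41 43 (.thr 1 61 (.thr 3 2 (.thr 9 6 (.dbl 25 57 59)))))))) (.rp 38 (.thr 25 59 (.thr 17 29 (.thr 51 34 (.thr 49 50 (.thr 37 13 (.thr 5 53 (.dbl 15 10 26))))))) (.rp 25 (.thr 12 4 (.thr 24 36 (.thr 40 56 (.thr 41 43 (.thr 1 61 (.thr 3 2 (.thr 9 6 (.thr 5 13 (.dbl 10 11 15))))))))) (.rp 12 (.thr 25 59 (.str 51 (.nv (.dbl 17 29 34) (.rp 46 (.thr 29 17 (.thr 49 50 (.thr 37 13 (.thr 5 53 (.dbl 15 10 26))))) (.rp 34 (.thr 49 50 (.thr 37 13 (.thr 5 53 (.dbl 15 10 26)))) (.rp 29 (.str 46 (.nv (.dbl 34 17 38) (.rp 38 (.thr 49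 50 (.thr 37 13 (.thr 5 53 (.dbl 15 10 26)))) (.rp 34 (.thr 49 50 (.thr 37 13 (.thr 5 53 (.dbl 15 10 26)))) (.rp 17 (.thr 49 50 (.thr 37 13 (.thr 5 53 (.dbl 15 10 26)))) .nd))))) (.rp 17 (.thr 49 50 (.thr 37 13 (.thr 5 53 (.dbl 15 10 26)))) .nd))))))) (.rp 4 (.thr 25 59 (.thr 17 29 (.thr 51 34 (.thr 49 50 (.thr 37 13 (.thr 5 53 (.dbl 15 10 26))))))) .nd)))))))))) (.rp 15 (.thr 16 32 (.thr 31 26 (.str 18 (.nv (.thr 17 19 (.thr 25 29 (.thr 8 59 (.thr 12 4 (.dbl 51 34 38))))) (.nv (.thr 3 33 (.thr 2 1 (.thr 17 19 (.dbl 34 50 51)))) (.rp 51 (.str 27 (.nv (.dbl 19 17 23) (.rp 59 (.str 55 (.nv (.dbl 19 17 23) (.rp 23 (.thr 38 4 (.thr 34 46 (.thr 2 50 (.dbl 3 1 33)))) (.rp 19 (.thr 38 4 (.thr 34 46 (.thr 2 50 (.dbl 3 1 33)))) (.rp 17 (.thr 38 4 (.thr 34 46 (.thr 2 50 (.dbl 3 1 33)))) .nd)))))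 (.rp 55 (.str 59 (.nv (.dbl 19 17 23) (.rp 23 (.str 7 (.nv (.thr 3 33 (.thr 1 2 (.thr 41 61 (.dbl 43 11 40)))) (.nv (.thr 25 8 (.dbl 17 19 29)) (.rp 43 (.thr 3 33 (.thr 17 19 (.dbl 25 8 29))) (.rp 3 (.thr 43 11 (.thr 25 8 (.dbl 17 19 29))) .nd))))) (.rp 19 (.thr 43 11 (.thr 41 40 (.thr 3 33 (.dbl 1 2 61)))) (.rp 17 (.thr 43 11 (.thr 41 40 (.thr 3 33 (.dbl 1 2 61)))) (.rp 7 (.thr 23 19 (.thr 43 11 (.thr 3 33 (.thr 41 40 (.dbl 1 2 61))))) .nd)))))) (.rp 23 (.thr 17 19 (.thr 3 33 (.thr 1 2 (.thr 25 29 (.thr 59 8 (.thr 43 11 (.dbl 41 40 61))))))) (.rp 19 (.thr 3 33 (.thr 1 2 (.thr 41 61 (.thr 43 40 (.thr 59 11 (.thr 25 8 (.thr 9 57 (.thr 29 17 (.thr 28 30 (.thr 24 20 (.dbl 12 6 36))))))))))) (.rp 17 (.str 59 (.nv (.thr 3 33 (.thr 8 25 (.thr 11 43 (.thr 9 10 (.dbl 12 4 6))))) (.nv (.thr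 8 25 (.thr 12 4 (.thr 24 36 (.thr 40 56 (.dbl 20 28 60))))) (.nv (.thr 3 33 (.thr 1 2 (.thr 43 11 (.dbl 41 40 61)))) (.rp 11 (.thr 8 25 (.thr 19 23 (.thr 12 4 (.thr 24 36 (.thr 20 28 (.dbl 40 56 60)))))) .nd))))) .nd))))))) (.rp 34 (.thr 17 19 (.thr 25 29 (.thr 8 59 (.thr 12 4 (.thr 24 36 (.thr 20 28 (.dbl 40 56 60))))))) (.rp 27 (.str 51 (.nv (.thr 50 49 (.thr 2 34 (.dbl 3 1 33))) (.nv (.dbl 17 19 34) (.rp 34 (.thr 19 17 (.dbl 3 33 35)) (.rp 25 (.str 24 (.nv (.thr 19 17 (.dbl 3 33 35)) (.nv (.dbl 17 19 34) (.rp 19 (.thr 28 20 (.thr 50 49 (.dbl 34 2 17))) (.rp 17 (.thr 50 49 (.thr 2 34 (.dbl 3 1 33))) .nd))))) (.rp 24 (.str 25 (.nv (.thr 8 59 (.dbl 12 4 38)) (.nv (.dbl 17 19 29) .nd))) .nd)))))) (.rp 25 (.thr 3 33 (.thr 2 1 (.thr 34 50 (.dbl 17 19 51)))) (.rp 19 (.thr 3 33 (.thr 2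 1 (.thr 34 50 (.thr 38 46 (.thr 4 55 (.thr 12 8 (.dbl 51 17 25))))))) (.rp 17 (.thr 3 33 (.thr 1 2 (.thr 41 61 (.thr 40 43 (.thr 60 20 (.thr 56 52 (.thr 8 24 (.thr 25 59 (.thr 9 57 (.dbl 12 4 6)))))))))) .nd))))))))))) (.rp 10 (.str 51 (.nv (.thr 16 32 (.thr 26 31 (.thr 50 49 (.thr 38 14 (.thr 4 55 (.dbl 12 8 25)))))) (.nv (.thr 16 32 (.thr 17 34 (.thr 49 50 (.thr 33 1 (.dbl 18 3 19))))) (.nv (.thr 17 34 (.thr 25 29 (.thr 8 59 (.dbl 12 4 38)))) .nd)))) (.rp 5 (.str 51 (.nv (.thr 16 32 (.thr 26 31 (.thr 50 49 (.thr 38 14 (.thr 4 55 (.dbl 12 8 25)))))) (.nv (.thr 16 32 (.thr 17 34 (.thr 49 50 (.thr 33 1 (.dbl 18 3 19))))) (.nv (.thr 17 34 (.thr 25 29 (.thr 8 59 (.dbl 12 4 38)))) .nd)))) .nd)))))))))))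

theorem w460 : WinAt (4398048608257, 9223372586614784000) :=
  chF (K := []) kn c460 4398048608257 9223372586614784000 63
    [] (by decide +kernel) (by decide +kernel)

/-- A certificate. -/
noncomputable def c461 : Ct := (.str 51 (.nv (.thr 34 17 (.thr 38 46 (.thr 12 25 (.dbl 4 8 55)))) (.nv (.thr 17 34 (.thr 25 29 (.thr 8 59 (.dbl 12 4 38)))) (.rp 46 (.thr 17 34 (.thr 25 29 (.thr 12 38 (.dbl 8 4 59)))) (.rp 38 (.str 49 (.nv (.thr 48 50 (.thr 17 34 (.thr 16 32 (.thr 33 1 (.dbl 18 3 19))))) (.nv (.thr 17 34 (.thr 25 29 (.thr 37 13 (.thr 53 5 (.thr 61 57 (.dbl 1 33 41)))))) (.nv (.thr 48 50 (.thr 32 16 (.thr 37 47 (.thr 5 53 (.dbl 15 10 26))))) (.rp 54 (.str 6 (.nv (.thr 48 50 (.thr 16 32 (.thr 26 31 (.thr 15 37 (.dbl 10 5 58))))) (.nv (.thr 17 34 (.thr 25 29 (.thr 8 59 (.thr 12 4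 (.thr 3 9 (.dbl 1 2 33)))))) .nd))) (.rp 6 (.str 54 (.nv (.thr 48 50 (.thr 16 32 (.thr 26 31 (.thr 10 58 (.dbl 15 5 37))))) (.nv (.thr 17 34 (.thr 1 33 (.thr 57 60 (.dbl 61 41 53)))) (.rp 32 (.thr 17 34 (.thr 57 60 (.thr 61 53 (.dbl 1 33 41)))) .nd)))) .nd)))))) (.rp 34 (.str 26 (.nv (.thr 10 58 (.thr 15 5 (.thr 27 39 (.thr 25 24 (.thr 8 59 (.dbl 12 4 38)))))) (.nv (.thr 16 31 (.thr 48 32 (.thr 50 49 (.thr 38 14 (.thr 4 55 (.dbl 12 8 25)))))) (.nv (.thr 10 58 (.thr 16 31 (.thr 15 5 (.dbl 48 32 37)))) (.rp 48 (.thr 16 31 (.str 15 (.nv (.dbl 10 5 58) (.rp 58 (.str 53 (.nv (.dbl 5 10 37) (.rp 37 (.thr 27 39 (.thr 25 24 (.thr 8 59 (.dbl 12 4 38)))) (.rp 10 (.thr 27 39 (.thr 25 24 (.thr 8 59 (.dbl 12 4 38)))) (.rp 5 (.thr 27 39 (.thr 25 24 (.thr 8 59 (.dbl 12 4 38)))) .nd))))) (.rp 53 (.thr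 58 10 (.thr 27 39 (.thr 25 24 (.thr 12 38 (.dbl 8 4 59))))) (.rp 10 (.thr 27 39 (.thr 25 24 (.thr 12 38 (.dbl 8 4 59)))) (.rp 5 (.thr 27 39 (.thr 25 24 (.thr 12 38 (.dbl 8 4 59)))) .nd))))))) (.rp 15 (.str 50 (.nv (.thr 38 14 (.thr 4 55 (.dbl 12 8 25))) (.nv (.thr 48 49 (.dbl 16 31 32)) (.rp 47 (.thr 31 16 (.thr 38 14 (.thr 4 55 (.dbl 12 8 25)))) (.rp 31 (.str 47 (.nv (.thr 38 14 (.thr 4 55 (.dbl 12 8 25))) (.nv (.thr 48 49 (.dbl 32 16 37)) .nd))) .nd))))) .nd)))))) (.rp 25 (.thr 34 17 (.str 48 (.nv (.thr 38 46 (.thr 50 49 (.thr 26 14 (.thr 10 58 (.dbl 15 5 37))))) (.nv (.thr 16 32 (.thr 26 31 (.thr 10 58 (.dbl 15 5 37)))) (.nv (.thr 32 16 (.thr 33 35 (.thr 50 49 (.dbl 18 2 3)))) (.rp 37 (.thr 32 16 (.thr 33 35 (.thr 18 3 (.dbl 50 2 49)))) (.rp 28 (.str 19 (.nv (.thr 3 35 (.thr 2 1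 (.dbl 18 33 50))) (.nv (.thr 16 32 (.thr 26 31 (.thr 10 58 (.dbl 15 5 37)))) (.nv (.thr 32 16 (.dbl 35 3 33)) .nd)))) (.rp 19 (.str 28 (.nv (.thr 16 32 (.thr 24 20 (.thr 38 46 (.thr 4 55 (.dbl 12 8 36))))) (.nv (.thr 50 49 (.thr 18 2 (.thr 32 16 (.dbl 33 3 35)))) (.rp 32 (.thr 50 49 (.thr 38 46 (.thr 26 14 (.thr 10 58 (.dbl 15 5 37))))) (.rp 16 (.str 18 (.nv (.dbl 50 2 49) (.rp 50 (.thr 33 3 (.thr 32 35 (.thr 37 47 (.thr 15 26 (.dbl 5 10 53))))) (.rp 49 (.thr 2 50 (.dbl 3 1 33)) (.rp 2 (.thr 50 49 (.thr 38 46 (.thr 26 14 (.thr 10 58 (.dbl 15 5 37))))) .nd))))) .nd))))) .nd)))))))) (.rp 17 (.str 26 (.nv (.thr 10 58 (.thr 15 5 (.thr 27 39 (.thr 25 24 (.thr 8 59 (.dbl 12 4 38)))))) (.nv (.thr 16 31 (.thr 48 32 (.thr 50 49 (.thr 38 14 (.thr 4 55 (.dbl 12 8 25)))))) (.nv (.thr 10 58 (.thr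 16 31 (.thr 15 5 (.dbl 48 32 37)))) (.rp 48 (.thr 16 31 (.str 15 (.nv (.dbl 10 5 58) (.rp 58 (.str 53 (.nv (.dbl 5 10 37) (.rp 37 (.thr 27 39 (.thr 25 24 (.thr 8 59 (.dbl 12 4 38)))) (.rp 10 (.thr 27 39 (.thr 25 24 (.thr 8 59 (.dbl 12 4 38)))) (.rp 5 (.thr 27 39 (.thr 25 24 (.thr 8 59 (.dbl 12 4 38)))) .nd))))) (.rp 53 (.thr 58 10 (.thr 27 39 (.thr 25 24 (.thr 12 38 (.dbl 8 4 59))))) (.rp 10 (.thr 27 39 (.thr 25 24 (.thr 12 38 (.dbl 8 4 59)))) (.rp 5 (.thr 27 39 (.thr 25 24 (.thr 12 38 (.dbl 8 4 59)))) .nd))))))) (.rp 15 (.str 50 (.nv (.thr 38 14 (.thr 4 55 (.dbl 12 8 25))) (.nv (.thr 48 49 (.dbl 16 31 32)) (.rp 47 (.thr 31 16 (.thr 38 14 (.thr 4 55 (.dbl 12 8 25)))) (.rp 31 (.str 47 (.nv (.thr 38 14 (.thr 4 55 (.dbl 12 8 25))) (.nv (.thr 32 37 (.dbl 48 16 49)) .nd))) .nd))))) .nd))))))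 (.rp 12 (.thr 17 34 (.str 48 (.nv (.thr 29 25 (.thr 16 32 (.thr 49 50 (.thr 33 1 (.dbl 18 3 19))))) (.nv (.thr 32 16 (.thr 37 47 (.thr 5 53 (.dbl 15 10 26)))) (.rp 32 (.thr 49 50 (.thr 33 1 (.thr 18 3 (.thr 16 19 (.thr 26 31 (.thr 10 58 (.dbl 15 5 37))))))) (.rp 29 (.str 46 (.nv (.thr 16 32 (.thr 18 19 (.thr 33 3 (.dbl 49 1 50)))) (.nv (.thr 32 16 (.thr 37 47 (.thr 5 53 (.dbl 15 10 26)))) (.rp 32 (.thr 49 50 (.thr 33 1 (.thr 18 3 (.thr 16 19 (.thr 26 31 (.thr 15 37 (.dbl 10 5 58))))))) (.rp 16 (.thr 49 50 (.thr 1 33 (.thr 61 41 (.thr 53 57 (.thr 37 5 (.thr 15 26 (.thr 39 27 (.thr 47 32 (.thr 35 43 (.dbl 3 2 19)))))))))) .nd))))) (.rp 16 (.thr 49 50 (.thr 1 33 (.thr 61 41 (.thr 53 57 (.thr 37 5 (.dbl 25 13 29)))))) .nd))))))) (.rp 8 (.thr 34 17 (.str 50 (.nv (.thr 38 46 (.thr 26 14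 (.thr 10 58 (.thr 15 5 (.dbl 48 37 49))))) (.nv (.thr 48 49 (.thr 32 16 (.thr 18 2 (.dbl 33 3 35)))) (.rp 56 (.str 24 (.nv (.thr 38 46 (.thr 26 14 (.dbl 25 12 27))) (.nv (.thr 18 2 (.thr 48 49 (.thr 33 3 (.dbl 32 16 35)))) (.nv (.thr 48 49 (.thr 38 46 (.dbl 12 25 36))) .nd)))) (.rp 49 (.thr 38 46 (.thr 26 14 (.thr 10 58 (.thr 16 31 (.thr 48 32 (.dbl 15 5 37)))))) (.rp 48 (.thr 2 18 (.thr 3 1 (.thr 38 46 (.thr 12 25 (.thr 6 9 (.dbl 14 10 26)))))) (.rp 24 (.str 56 (.nv (.thr 38 46 (.thr 26 14 (.thr 58 10 (.thr 57 59 (.dbl 54 60 62))))) (.nv (.thr 48 49 (.thr 18 2 (.thr 32 16 (.dbl 33 3 35)))) (.rp 2 (.thr 48 49 (.thr 16 32 (.thr 26 31 (.dbl 38 14 46)))) .nd)))) .nd)))))))) (.rp 4 (.str 50 (.nv (.thr 48 49 (.thr 16 32 (.thr 26 31 (.thr 10 58 (.dbl 15 5 37))))) (.nv (.thr 34 17 (.thr 38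 46 (.thr 26 14 (.thr 10 58 (.thr 15 5 (.dbl 48 37 49)))))) (.nv (.thr 48 49 (.thr 34 17 (.thr 32 16 (.thr 18 2 (.dbl 33 3 35))))) (.rp 49 (.thr 34 17 (.thr 38 46 (.thr 26 14 (.thr 10 58 (.thr 16 31 (.thr 48 32 (.dbl 15 5 37))))))) (.rp 48 (.thr 34 17 (.thr 2 18 (.thr 3 1 (.thr 38 46 (.thr 12 25 (.thr 6 9 (.dbl 14 10 26))))))) .nd)))))) .nd)))))))))))

theorem w461 : WinAt (4398048608257, 9223373136370597888) :=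
  chF (K := []) kn c461 4398048608257 9223373136370597888 63
    [] (by decide +kernel) (by decide +kernel)

/-- A certificate. -/
noncomputable def c462 : Ct := (.str 48 (.nv (.thr 18 33 (.thr 50 49 (.thr 34 2 (.thr 46 38 (.thr 24 8 (.dbl 12 29 36)))))) (.nv (.thr 18 33 (.thr 24 8 (.thr 12 36 (.thr 29 46 (.thr 31 30 (.thr 15 47 (.thr 11 7 (.dbl 27 39 43)))))))) (.nv (.thr 24 8 (.thr 49 50 (.thr 53 61 (.thr 37 5 (.thr 32 47 (.dbl 36 12 44)))))) (.nv (.thr 24 8 (.thr 18 33 (.thr 50 49 (.thr 34 2 (.thr 12 36 (.dbl 46 29 38)))))) (.rp 37 (.thr 24 8 (.thr 43 23 (.thr 27 11 (.thr 39 15 (.thr 35 47 (.thr 12 36 (.thr 46 29 (.thr 34 38 (.dbl 33 18 32))))))))) (.rp 36 (.thr 49 50 (.thr 43 23 (.thr 27 11 (.thr 53 61 (.thr 37 5 (.thr 47 32 (.dbl 15 31 39))))))) (.rp 24 (.str 27 (.nv (.thr 18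 33 (.thr 11 43 (.dbl 15 7 39))) (.nv (.dbl 43 11 23) (.rp 43 (.thr 49 50 (.thr 53 61 (.thr 37 5 (.thr 47 32 (.dbl 15 31 39))))) (.rp 18 (.str 30 (.nv (.thr 31 29 (.dbl 15 39 47)) (.nv (.dbl 43 11 23) (.rp 17 (.str 16 (.nv (.thr 31 29 (.dbl 15 39 47)) (.nv (.dbl 43 11 23) .nd))) (.rp 16 (.str 17 (.nv (.thr 31 29 (.dbl 15 39 47)) (.nv (.dbl 43 11 23) .nd))) .nd))))) (.rp 11 (.thr 49 50 (.thr 53 61 (.thr 37 5 (.thr 47 32 (.dbl 15 31 39))))) .nd)))))) (.rp 18 (.str 30 (.nv (.thr 31 29 (.thr 15 47 (.thr 27 39 (.dbl 11 7 43)))) (.nv (.thr 24 8 (.thr 12 36 (.dbl 29 31 46))) (.rp 31 (.thr 24 8 (.thr 49 50 (.thr 53 61 (.thr 37 5 (.thr 32 47 (.dbl 36 12 44)))))) (.rp 29 (.thr 24 8 (.thr 49 50 (.thr 53 61 (.thr 37 5 (.thr 32 47 (.dbl 36 12 44)))))) (.rp 24 (.str 27 (.nv (.thr 31 29 (.dbl 15 39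 47)) (.nv (.dbl 43 11 23) (.rp 17 (.str 16 (.nv (.thr 31 29 (.dbl 15 39 47)) (.nv (.dbl 43 11 23) .nd))) (.rp 16 (.str 17 (.nv (.thr 31 29 (.dbl 15 39 47)) (.nv (.dbl 43 11 23) .nd))) .nd))))) (.rp 17 (.str 16 (.nv (.thr 31 29 (.thr 15 47 (.thr 27 39 (.dbl 11 7 43)))) (.nv (.thr 24 8 (.thr 12 36 (.dbl 29 31 46))) (.rp 31 (.thr 24 8 (.thr 49 50 (.thr 53 61 (.thr 37 5 (.thr 32 47 (.dbl 36 12 44)))))) (.rp 29 (.thr 24 8 (.thr 49 50 (.thr 53 61 (.thr 37 5 (.thr 32 47 (.dbl 36 12 44)))))) (.rp 24 (.str 27 (.nv (.thr 31 29 (.dbl 15 39 47)) (.nv (.dbl 43 11 23) .nd))) .nd)))))) (.rp 16 (.str 17 (.nv (.thr 31 29 (.thr 15 47 (.thr 27 39 (.dbl 11 7 43)))) (.nv (.thr 24 8 (.thr 12 36 (.dbl 29 31 46))) (.rp 31 (.thr 24 8 (.thr 49 50 (.thr 53 61 (.thr 37 5 (.thr 32 47 (.dbl 36 12 44)))))) (.rp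 29 (.thr 24 8 (.thr 49 50 (.thr 53 61 (.thr 37 5 (.thr 32 47 (.dbl 36 12 44)))))) (.rp 24 (.str 27 (.nv (.thr 31 29 (.dbl 15 39 47)) (.nv (.dbl 43 11 23) .nd))) .nd)))))) .nd)))))))) (.rp 12 (.thr 49 50 (.thr 43 23 (.thr 27 11 (.thr 53 61 (.thr 37 5 (.thr 47 32 (.dbl 15 31 39))))))) (.rp 8 (.thr 49 50 (.thr 43 23 (.thr 27 11 (.thr 53 61 (.thr 37 5 (.thr 47 32 (.dbl 15 31 39))))))) .nd)))))))))))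

theorem w462 : WinAt (10018262868914339848, 1477182876907208705) :=
  chF (K := []) kn c462 10018262868914339848 1477182876907208705 58
    [251658240, 1145307136] (by decide +kernel) (by decide +kernel)

/-- A certificate. -/
noncomputable def c463 : Ct := (.thr 56 58 .ext)

theorem w463 : WinAt (9946205274876411912, 1188952500755496961) :=
  chF (K := [(10018262868914339848, 1477182876907208705)]) (kc w462 kn) c463 9946205274876411912 1188952500755496961 55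
    [251658240, 1145307136, 72059793128294400] (by decide +kernel) (by decide +kernel)

/-- A certificate. -/
noncomputable def c464 : Ct := (.thr 59 55 .ext)

theorem w464 : WinAt (9369744522572988424, 1152923703736532993) :=
  chF (K := [(9946205274876411912, 1188952500755496961)]) (kc w463 kn) c464 9369744522572988424 1152923703736532993 26
    [251658240, 1145307136, 72059793128294400] (by decide +kernel) (by decide +kernel)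

/-- A certificate. -/
noncomputable def c465 : Ct := (.str 40 (.nv (.thr 43 23 (.thr 59 55 (.thr 27 11 (.thr 58 56 (.thr 26 10 (.thr 31 16 (.dbl 15 39 47))))))) (.nv (.thr 59 55 (.thr 58 56 (.thr 48 53 (.thr 26 10 (.thr 15 37 (.thr 27 39 (.dbl 11 7 43))))))) (.nv (.thr 59 55 (.thr 58 56 (.thr 26 10 (.thr 31 16 (.thr 15 47 (.dbl 48 37 53)))))) (.rp 59 (.str 48 (.nv (.thr 53 58 (.thr 37 5 (.thr 15 26 (.dbl 47 31 32)))) (.nv (.thr 49 50 (.dbl 53 58 61)) (.rp 58 (.thr 49 50 (.thr 53 61 (.thr 37 5 (.thr 15 26 (.dbl 47 31 32))))) (.rp 53 (.thr 50 49 (.thr 18 33 (.thr 34 2 (.thr 38 46 (.thr 26 14 (.thr 31 16 (.dbl 15 37 47))))))) .nd))))) (.rp 58 (.thr 23 43 (.thr 55 59 (.thr 7 39 (.thr 4 38 (.thr 6 5 (.thr 12 9 (.thr 29 46 (.thr 31 30 (.dbl 15 11 47))))))))) (.rp 56 (.thr 23 43 (.thr 55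 59 (.thr 7 39 (.thr 4 38 (.thr 6 5 (.thr 12 9 (.thr 29 46 (.thr 31 30 (.dbl 15 11 47))))))))) (.rp 55 (.str 48 (.nv (.thr 53 58 (.thr 37 5 (.thr 15 26 (.dbl 47 31 32)))) (.nv (.thr 49 50 (.dbl 53 58 61)) (.rp 58 (.thr 49 50 (.thr 53 61 (.thr 37 5 (.thr 15 26 (.dbl 47 31 32))))) (.rp 53 (.thr 50 49 (.thr 18 33 (.thr 34 2 (.thr 38 46 (.thr 26 14 (.thr 31 16 (.dbl 15 37 47))))))) .nd))))) (.rp 52 (.thr 23 43 (.thr 55 59 (.thr 7 39 (.thr 4 38 (.thr 6 5 (.thr 12 9 (.thr 29 46 (.thr 31 30 (.dbl 15 11 47))))))))) (.rp 48 (.thr 23 43 (.thr 55 59 (.thr 7 39 (.thr 4 38 (.thr 6 5 (.thr 12 9 (.thr 29 46 (.thr 31 30 (.dbl 15 11 47))))))))) (.rp 26 .ext (.rp 15 (.thr 59 55 (.thr 58 56 (.thr 48 53 (.thr 50 49 (.thr 18 33 (.thr 34 2 (.thr 38 46 (.dbl 26 10 14)))))))) (.rp 10 (.thr 59 55 (.thr 58 56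 (.thr 48 53 (.thr 50 49 (.thr 18 33 (.thr 34 2 (.thr 46 38 (.thr 29 12 (.thr 30 31 (.dbl 62 14 54)))))))))) .nd)))))))))))))

theorem w465 : WinAt (9369743423061360648, 1152923703669424129) :=
  chF (K := [(9369744522572988424, 1152923703736532993)]) (kc w464 kn) c465 9369743423061360648 1152923703669424129 20
    [] (by decide +kernel) (by decide +kernel)

/-- A certificate. -/
noncomputable def c466 : Ct := (.str 20 (.nv (.thr 23 43 (.thr 55 59 (.thr 39 7 (.thr 53 52 (.thr 37 5 (.thr 47 32 (.dbl 15 27 31))))))) (.nv (.thr 55 59 (.thr 53 52 (.thr 48 58 (.thr 23 43 (.thr 39 7 (.thr 37 5 (.dbl 15 26 27))))))) (.nv (.thr 55 59 (.thr 53 52 (.thr 37 5 (.thr 47 32 (.thr 15 31 (.dbl 48 26 58)))))) (.rp 59 (.str 48 (.nv (.thr 53 58 (.thr 37 5 (.thr 47 32 (.dbl 15 26 31)))) (.nv (.thr 50 49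 (.dbl 58 53 62)) (.rp 58 (.thr 49 50 (.thr 33 18 (.thr 17 1 (.thr 25 29 (.thr 37 13 (.thr 47 32 (.dbl 15 26 31))))))) (.rp 53 (.thr 50 49 (.thr 58 62 (.thr 26 10 (.thr 15 37 (.dbl 31 16 47))))) .nd))))) (.rp 56 (.thr 43 23 (.thr 59 55 (.thr 11 27 (.thr 8 25 (.thr 9 10 (.thr 12 6 (.thr 46 29 (.thr 47 45 (.dbl 15 7 31))))))))) (.rp 55 (.str 48 (.nv (.thr 53 58 (.thr 37 5 (.thr 47 32 (.dbl 15 26 31)))) (.nv (.thr 50 49 (.dbl 58 53 62)) (.rp 58 (.thr 49 50 (.thr 33 18 (.thr 17 1 (.thr 25 29 (.thr 37 13 (.thr 47 32 (.dbl 15 26 31))))))) (.rp 53 (.thr 50 49 (.thr 58 62 (.thr 26 10 (.thr 15 37 (.dbl 31 16 47))))) .nd))))) (.rp 53 (.thr 43 23 (.thr 59 55 (.thr 11 27 (.thr 8 25 (.thr 9 10 (.thr 12 6 (.thr 46 29 (.thr 47 45 (.dbl 15 7 31))))))))) (.rp 52 (.thr 43 23 (.thr 59 55 (.thr 11 27 (.thr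 8 25 (.thr 9 10 (.thr 12 6 (.thr 46 29 (.thr 47 45 (.dbl 15 7 31))))))))) (.rp 48 (.thr 43 23 (.thr 59 55 (.thr 11 27 (.thr 8 25 (.thr 9 10 (.thr 12 6 (.thr 46 29 (.thr 47 45 (.dbl 15 7 31))))))))) (.rp 37 (.thr 55 59 (.thr 52 53 (.str 48 (.nv (.thr 23 43 (.thr 33 18 (.thr 36 4 (.thr 12 24 (.thr 39 7 (.thr 46 29 (.thr 47 45 (.dbl 15 27 31)))))))) (.nv (.thr 23 43 (.thr 39 7 (.thr 50 49 (.thr 58 62 (.thr 26 10 (.thr 31 16 (.dbl 15 27 47))))))) (.nv (.thr 36 4 (.thr 33 18 (.thr 49 50 (.thr 17 1 (.thr 12 24 (.dbl 29 25 46)))))) (.rp 45 (.thr 33 18 (.thr 36 4 (.thr 49 50 (.thr 17 1 (.thr 12 24 (.dbl 29 25 46)))))) (.rp 36 (.str 39 (.nv (.thr 33 18 (.thr 7 23 (.dbl 15 11 27))) (.nv (.dbl 23 7 43) (.rp 33 (.str 45 (.nv (.thr 47 46 (.dbl 15 27 31)) (.nv (.dbl 23 7 43) (.rp 34 (.str 32 (.nv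 (.thr 47 46 (.dbl 15 27 31)) (.nv (.dbl 23 7 43) .nd))) (.rp 32 (.str 34 (.nv (.thr 47 46 (.dbl 15 27 31)) (.nv (.dbl 23 7 43) .nd))) .nd))))) (.rp 23 (.thr 50 49 (.thr 58 62 (.thr 26 10 (.thr 31 16 (.dbl 15 27 47))))) (.rp 7 (.thr 50 49 (.thr 58 62 (.thr 26 10 (.thr 31 16 (.dbl 15 27 47))))) .nd)))))) (.rp 33 (.str 45 (.nv (.thr 23 43 (.thr 39 7 (.thr 47 46 (.dbl 15 27 31)))) (.nv (.thr 36 4 (.thr 12 24 (.dbl 46 29 47))) (.rp 47 (.thr 36 4 (.thr 50 49 (.thr 58 62 (.thr 26 10 (.thr 16 31 (.dbl 24 12 28)))))) (.rp 46 (.thr 36 4 (.thr 50 49 (.thr 58 62 (.thr 26 10 (.thr 16 31 (.dbl 24 12 28)))))) (.rp 36 (.str 39 (.nv (.thr 47 46 (.dbl 15 27 31)) (.nv (.dbl 23 7 43) (.rp 34 (.str 32 (.nv (.thr 47 46 (.dbl 15 27 31)) (.nv (.dbl 23 7 43) .nd))) (.rp 32 (.str 34 (.nv (.thr 47 46 (.dbl 15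 27 31)) (.nv (.dbl 23 7 43) .nd))) .nd))))) (.rp 34 (.str 32 (.nv (.thr 23 43 (.thr 39 7 (.thr 47 46 (.dbl 15 27 31)))) (.nv (.thr 36 4 (.thr 12 24 (.dbl 46 29 47))) (.rp 47 (.thr 36 4 (.thr 50 49 (.thr 58 62 (.thr 26 10 (.thr 16 31 (.dbl 24 12 28)))))) (.rp 46 (.thr 36 4 (.thr 50 49 (.thr 58 62 (.thr 26 10 (.thr 16 31 (.dbl 24 12 28)))))) (.rp 36 (.str 39 (.nv (.thr 47 46 (.dbl 15 27 31)) (.nv (.dbl 23 7 43) .nd))) .nd)))))) (.rp 32 (.str 34 (.nv (.thr 23 43 (.thr 39 7 (.thr 47 46 (.dbl 15 27 31)))) (.nv (.thr 36 4 (.thr 12 24 (.dbl 46 29 47))) (.rp 47 (.thr 36 4 (.thr 50 49 (.thr 58 62 (.thr 26 10 (.thr 16 31 (.dbl 24 12 28)))))) (.rp 46 (.thr 36 4 (.thr 50 49 (.thr 58 62 (.thr 26 10 (.thr 16 31 (.dbl 24 12 28)))))) (.rp 36 (.str 39 (.nv (.thr 47 46 (.dbl 15 27 31)) (.nv (.dbl 23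 7 43) .nd))) .nd)))))) .nd)))))))) (.rp 26 (.thr 36 4 (.thr 23 43 (.thr 39 7 (.thr 27 15 (.thr 19 31 (.thr 12 24 (.thr 29 46 (.thr 17 25 (.dbl 18 16 33))))))))) .nd)))))))))) (.rp 15 (.thr 55 59 (.thr 53 52 (.thr 48 58 (.thr 49 50 (.thr 33 18 (.thr 17 1 (.thr 25 29 (.dbl 37 5 13)))))))) (.rp 5 (.thr 55 59 (.thr 53 52 (.thr 48 58 (.thr 49 50 (.thr 33 18 (.thr 17 1 (.thr 29 25 (.thr 46 12 (.thr 45 47 (.dbl 61 13 57)))))))))) .nd)))))))))))))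

theorem w466 : WinAt (9243660225412595720, 1152925112383569921) :=
  chF (K := []) kn c466 9243660225412595720 1152925112383569921 40
    [] (by decide +kernel) (by decide +kernel)

/-- A certificate. -/
noncomputable def c467 : Ct := (.str 51 (.nv (.thr 59 55 (.thr 25 8 (.thr 12 38 (.dbl 29 17 46)))) (.nv (.thr 55 59 (.thr 38 4 (.thr 46 34 (.dbl 12 25 29)))) (.rp 60 (.str 3 (.nv (.thr 23 43 (.thr 55 59 (.thr 39 7 (.thr 27 15 (.dbl 19 31 35))))) (.nv (.thr 55 59 (.thr 38 4 (.thr 46 34 (.dbl 12 25 29)))) (.rp 59 (.thr 35 19 (.thr 43 23 (.thr 47 39 (.thr 37 32 (.thr 53 5 (.thr 48 58 (.dbl 15 26 31))))))) (.rp 55 (.thr 19 35 (.thr 23 43 (.thr 31 27 (.thr 26 16 (.thr 58 10 (.thr 48 53 (.dbl 15 37 47))))))) (.rp 40 (.str 20 (.nv (.thr 23 43 (.thr 55 59 (.thr 39 7 (.thr 27 15 (.dbl 19 31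 35))))) (.nv (.thr 55 59 (.thr 38 4 (.thr 46 34 (.dbl 12 25 29)))) (.rp 59 (.thr 35 19 (.thr 43 23 (.thr 47 39 (.thr 37 32 (.thr 53 5 (.thr 48 58 (.dbl 15 26 31))))))) (.rp 55 (.thr 19 35 (.thr 23 43 (.thr 31 27 (.thr 26 16 (.thr 58 10 (.thr 48 53 (.dbl 15 37 47))))))) .nd))))) (.rp 20 (.str 40 (.nv (.thr 23 43 (.thr 55 59 (.thr 39 7 (.thr 27 15 (.dbl 19 31 35))))) (.nv (.thr 59 55 (.thr 25 8 (.thr 29 17 (.dbl 12 38 46)))) (.rp 59 (.thr 35 19 (.thr 43 23 (.thr 47 39 (.thr 37 32 (.thr 53 5 (.thr 48 58 (.dbl 15 26 31))))))) (.rp 55 (.thr 19 35 (.thr 23 43 (.thr 31 27 (.thr 26 16 (.thr 58 10 (.thr 48 53 (.dbl 15 37 47))))))) .nd))))) .nd))))))) (.rp 59 (.str 37 (.nv (.thr 47 32 (.thr 15 31 (.thr 39 27 (.thr 38 36 (.thr 12 25 (.dbl 46 29 34)))))) (.nv (.thr 53 5 (.thr 48 58 (.thr 49 50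 (.thr 25 13 (.thr 29 17 (.dbl 12 38 46)))))) (.nv (.thr 47 32 (.thr 53 5 (.thr 15 31 (.dbl 48 26 58)))) (.rp 60 (.str 3 (.nv (.thr 53 5 (.thr 47 32 (.thr 48 58 (.dbl 15 26 31)))) (.nv (.thr 43 23 (.thr 47 32 (.dbl 35 19 39))) (.rp 48 (.thr 35 19 (.thr 43 23 (.dbl 47 32 39))) (.rp 47 (.thr 19 35 (.thr 53 5 (.thr 48 58 (.thr 18 33 (.thr 16 17 (.dbl 26 15 31)))))) (.rp 40 (.str 20 (.nv (.thr 47 32 (.thr 15 31 (.thr 48 26 (.dbl 53 5 58)))) (.nv (.thr 35 19 (.thr 43 23 (.dbl 47 32 39))) (.rp 47 (.thr 53 5 (.thr 19 35 (.thr 48 58 (.thr 18 33 (.thr 16 17 (.dbl 26 15 31)))))) (.rp 32 (.thr 53 5 (.thr 35 19 (.thr 48 58 (.thr 15 26 (.thr 47 31 (.dbl 39 27 43)))))) (.rp 31 (.thr 35 19 (.thr 47 32 (.dbl 43 23 39))) .nd)))))) (.rp 32 (.thr 35 19 (.thr 43 23 (.thr 39 47 (.thr 53 5 (.thr 48 58 (.dbl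 15 26 27)))))) (.rp 20 (.str 40 (.nv (.thr 53 5 (.thr 47 32 (.thr 48 58 (.dbl 15 26 31)))) (.nv (.thr 43 23 (.thr 47 32 (.dbl 35 19 39))) (.rp 48 (.thr 35 19 (.thr 43 23 (.dbl 47 32 39))) (.rp 47 (.thr 53 5 (.thr 19 35 (.thr 48 58 (.thr 18 33 (.thr 16 17 (.dbl 26 15 31)))))) (.rp 32 (.thr 53 5 (.thr 35 19 (.thr 43 23 (.thr 47 39 (.thr 48 58 (.dbl 15 26 31)))))) .nd)))))) .nd)))))))) (.rp 48 (.thr 32 47 (.str 60 (.nv (.thr 57 54 (.thr 61 62 (.dbl 53 5 49))) (.nv (.thr 53 5 (.thr 61 62 (.dbl 57 49 54))) (.rp 62 (.thr 54 57 (.thr 53 5 (.thr 55 52 (.thr 38 4 (.thr 46 34 (.dbl 12 25 29)))))) (.rp 61 (.thr 54 57 (.thr 53 5 (.thr 55 52 (.thr 38 4 (.thr 46 34 (.dbl 12 25 29)))))) (.rp 57 (.thr 5 53 (.str 25 (.nv (.thr 13 49 (.thr 61 62 (.dbl 29 17 45))) (.nv (.thr 29 17 (.dbl 12 38 46)) (.rp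 61 (.thr 49 13 (.thr 29 17 (.dbl 12 38 46))) (.rp 58 (.str 56 (.nv (.thr 13 49 (.thr 61 62 (.dbl 29 17 45))) (.nv (.thr 29 17 (.dbl 12 38 46)) (.rp 61 (.thr 49 13 (.thr 29 17 (.dbl 12 38 46))) (.rp 49 (.thr 61 62 (.thr 29 17 (.dbl 12 38 46))) (.rp 29 (.thr 12 38 (.thr 44 28 (.thr 40 36 (.thr 24 8 (.thr 27 26 (.thr 15 39 (.dbl 13 14 49))))))) (.rp 17 (.thr 13 49 (.thr 61 62 (.thr 29 45 (.dbl 12 38 46)))) .nd))))))) (.rp 56 (.str 58 (.nv (.thr 13 49 (.thr 61 62 (.dbl 29 17 45))) (.nv (.thr 26 10 (.thr 27 24 (.thr 39 15 (.dbl 38 12 36)))) (.nv (.thr 29 17 (.dbl 12 38 46)) (.rp 61 (.thr 49 13 (.thr 29 17 (.dbl 12 38 46))) (.rp 49 (.thr 61 62 (.thr 29 17 (.dbl 12 38 46))) (.rp 26 (.str 11 (.nv (.thr 13 49 (.thr 61 62 (.dbl 29 17 45))) (.nv (.thr 29 17 (.dbl 12 38 46)) (.rp 61 (.thr 49 13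 (.thr 29 17 (.dbl 12 38 46))) (.rp 49 (.thr 61 62 (.thr 29 17 (.dbl 12 38 46))) (.rp 30 (.str 18 (.nv (.thr 38 12 (.thr 34 46 (.thr 50 2 (.dbl 62 54 61)))) (.nv (.thr 29 17 (.thr 13 49 (.dbl 61 45 62))) (.nv (.thr 29 17 (.dbl 12 38 46)) (.rp 61 (.thr 49 13 (.thr 29 17 (.dbl 12 38 46))) (.rp 49 (.thr 61 62 (.thr 29 17 (.dbl 12 38 46))) .nd)))))) (.rp 29 (.thr 38 12 (.thr 4 55 (.thr 34 46 (.thr 35 33 (.thr 3 19 (.dbl 7 6 15)))))) (.rp 18 (.str 30 (.nv (.thr 49 13 (.thr 12 38 (.dbl 29 17 46))) (.nv (.thr 15 45 (.thr 38 12 (.dbl 39 27 36))) (.nv (.thr 13 49 (.thr 61 62 (.dbl 29 17 45))) (.rp 49 (.thr 61 62 (.thr 45 15 (.dbl 29 13 17))) (.rp 33 (.str 3 (.nv (.thr 49 13 (.thr 12 38 (.dbl 29 17 46))) (.nv (.dbl 15 7 45) (.rp 49 (.thr 61 62 (.dbl 15 7 45)) .nd)))) (.rp 3 (.str 33 (.nv (.thr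 61 62 (.thr 34 35 (.dbl 38 12 46))) (.nv (.thr 49 13 (.dbl 17 1 29)) (.rp 2 (.str 1 (.nv (.thr 34 35 (.dbl 38 12 46)) (.nv (.dbl 49 13 17) (.rp 49 (.thr 61 62 (.thr 45 15 (.dbl 29 13 17))) (.rp 34 (.str 50 (.nv (.dbl 62 54 61) (.nv (.dbl 49 13 17) (.rp 49 (.thr 61 62 (.thr 45 15 (.dbl 29 13 17))) .nd)))) .nd))))) (.rp 1 (.str 2 (.nv (.thr 34 35 (.dbl 38 12 46)) (.nv (.thr 13 49 (.thr 61 62 (.dbl 29 17 45))) (.rp 61 (.thr 49 13 (.thr 34 35 (.dbl 38 12 46))) (.rp 49 (.thr 61 62 (.thr 45 15 (.dbl 29 13 17))) .nd))))) .nd))))) .nd))))))) (.rp 17 (.thr 13 49 (.thr 61 62 (.thr 29 45 (.dbl 12 38 46)))) .nd))))))))) .nd))))))) (.rp 49 (.thr 61 62 (.thr 29 17 (.dbl 12 38 46))) (.rp 29 (.thr 38 12 (.thr 4 55 (.thr 34 46 (.thr 35 33 (.thr 3 19 (.thr 7 6 (.thr 15 11 (.dbl 39 27 36)))))))) (.rp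 17 (.thr 13 49 (.thr 61 62 (.thr 29 45 (.dbl 12 38 46)))) .nd)))))))))) (.rp 54 (.thr 61 62 (.thr 53 5 (.thr 49 57 (.thr 25 13 (.thr 29 17 (.dbl 12 38 46)))))) (.rp 53 (.str 38 (.nv (.thr 12 25 (.thr 36 39 (.dbl 44 28 40))) (.nv (.thr 46 34 (.dbl 12 25 29)) (.rp 25 (.thr 36 39 (.thr 44 40 (.thr 46 34 (.dbl 12 28 29)))) (.rp 12 (.thr 62 61 (.thr 46 34 (.thr 30 14 (.thr 15 45 (.dbl 39 27 36))))) .nd))))) (.rp 49 (.thr 54 57 (.thr 53 5 (.thr 55 52 (.thr 38 4 (.thr 46 34 (.dbl 12 25 29)))))) (.rp 5 (.thr 57 54 (.thr 61 62 (.thr 49 53 (.thr 25 13 (.thr 29 17 (.dbl 12 38 46)))))) .nd))))))))))) (.rp 15 (.thr 5 53 (.str 3 (.nv (.thr 35 19 (.thr 43 23 (.dbl 47 32 39))) (.nv (.thr 43 23 (.thr 47 32 (.dbl 35 19 39))) (.rp 47 (.str 13 (.nv (.thr 25 49 (.thr 12 38 (.dbl 29 17 46))) (.nv (.thr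 49 25 (.thr 48 50 (.thr 33 18 (.dbl 1 9 17)))) (.nv (.thr 9 1 (.thr 12 6 (.dbl 25 38 49))) (.rp 49 (.thr 9 1 (.thr 12 6 (.thr 38 25 (.dbl 46 29 34)))) (.rp 25 (.thr 23 43 (.thr 9 1 (.thr 12 6 (.thr 46 29 (.thr 38 34 (.thr 55 4 (.dbl 39 7 36))))))) .nd)))))) (.rp 43 (.thr 35 19 (.thr 32 47 (.thr 34 33 (.thr 38 46 (.thr 4 55 (.thr 6 7 (.dbl 12 9 25))))))) (.rp 39 (.thr 35 19 (.thr 23 43 (.thr 32 47 (.thr 34 33 (.thr 38 46 (.thr 4 55 (.thr 6 7 (.dbl 12 9 25)))))))) (.rp 35 (.str 38 (.nv (.thr 23 43 (.thr 39 36 (.dbl 55 4 7))) (.nv (.thr 46 34 (.dbl 12 25 29)) .nd))) (.rp 32 (.thr 35 19 (.thr 43 23 (.thr 39 47 (.thr 38 36 (.thr 46 34 (.dbl 12 25 29)))))) (.rp 23 (.thr 35 19 (.thr 47 32 (.thr 39 43 (.thr 38 36 (.thr 46 34 (.dbl 12 25 29)))))) (.rp 19 (.thr 43 23 (.thr 47 32 (.thr 39 35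 (.thr 38 36 (.thr 4 55 (.thr 6 7 (.dbl 12 9 25))))))) .nd))))))))))) (.rp 3 (.str 60 (.nv (.thr 47 32 (.thr 15 31 (.thr 48 26 (.dbl 53 5 58)))) (.nv (.thr 53 5 (.thr 61 62 (.dbl 57 49 54))) (.rp 53 (.thr 61 62 (.thr 47 32 (.thr 15 31 (.thr 45 30 (.thr 46 44 (.dbl 29 12 13)))))) (.rp 15 (.thr 57 54 (.thr 61 62 (.dbl 53 5 49))) (.rp 5 (.thr 54 57 (.thr 62 61 (.thr 58 50 (.thr 47 32 (.thr 26 10 (.dbl 15 31 48)))))) (.rp 2 (.str 1 (.nv (.thr 47 32 (.thr 15 31 (.thr 48 26 (.dbl 53 5 58)))) (.nv (.thr 53 5 (.thr 61 62 (.dbl 57 49 54))) (.rp 53 (.thr 47 32 (.thr 61 62 (.thr 15 31 (.thr 45 30 (.thr 46 44 (.dbl 29 12 13)))))) (.rp 15 (.thr 57 54 (.thr 61 62 (.dbl 53 5 49))) (.rp 5 (.thr 57 54 (.thr 61 62 (.thr 49 53 (.thr 17 33 (.dbl 25 13 29))))) .nd)))))) (.rp 1 (.str 2 (.nv (.thr 47 32 (.thr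 15 31 (.thr 48 26 (.dbl 53 5 58)))) (.nv (.thr 53 5 (.thr 61 62 (.dbl 57 49 54))) (.rp 53 (.thr 61 62 (.thr 47 32 (.thr 15 31 (.thr 45 30 (.thr 46 44 (.dbl 29 12 13)))))) (.rp 15 (.thr 61 62 (.thr 57 54 (.dbl 53 5 49))) (.rp 5 (.thr 62 61 (.thr 47 32 (.thr 15 31 (.thr 54 57 (.thr 58 50 (.dbl 48 26 53)))))) .nd)))))) .nd)))))))) .nd)))))))) (.rp 55 (.str 26 (.nv (.thr 31 16 (.thr 15 47 (.thr 27 39 (.thr 25 24 (.thr 12 38 (.dbl 29 17 46)))))) (.nv (.thr 58 10 (.thr 48 53 (.thr 50 49 (.thr 38 14 (.thr 46 34 (.dbl 12 25 29)))))) (.nv (.thr 31 16 (.thr 58 10 (.thr 15 47 (.dbl 48 37 53)))) (.rp 60 (.str 3 (.nv (.thr 58 10 (.thr 31 16 (.thr 48 53 (.dbl 15 37 47)))) (.nv (.thr 23 43 (.thr 31 16 (.dbl 19 27 35))) (.rp 48 (.thr 19 35 (.thr 23 43 (.dbl 31 16 27))) (.rp 40 (.str 20 (.nv (.thr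 58 10 (.thr 31 16 (.thr 48 53 (.dbl 15 37 47)))) (.nv (.thr 23 43 (.thr 31 16 (.dbl 19 27 35))) (.rp 48 (.thr 19 35 (.thr 23 43 (.dbl 31 16 27))) (.rp 31 (.thr 58 10 (.thr 35 19 (.thr 48 53 (.thr 33 18 (.thr 32 34 (.dbl 37 15 47)))))) (.rp 16 (.thr 58 10 (.thr 19 35 (.thr 23 43 (.thr 31 27 (.thr 48 53 (.dbl 15 37 47)))))) .nd)))))) (.rp 31 (.thr 35 19 (.thr 58 10 (.thr 48 53 (.thr 33 18 (.thr 32 34 (.dbl 37 15 47)))))) (.rp 20 (.str 40 (.nv (.thr 31 16 (.thr 15 47 (.thr 48 37 (.dbl 58 10 53)))) (.nv (.thr 19 35 (.thr 23 43 (.dbl 31 16 27))) (.rp 47 (.thr 19 35 (.thr 31 16 (.dbl 23 27 43))) (.rp 31 (.thr 58 10 (.thr 35 19 (.thr 48 53 (.thr 33 18 (.thr 32 34 (.dbl 37 15 47)))))) (.rp 16 (.thr 58 10 (.thr 19 35 (.thr 48 53 (.thr 15 37 (.thr 31 47 (.dbl 27 23 39)))))) .nd)))))) (.rp 16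 (.thr 19 35 (.thr 23 43 (.thr 27 31 (.thr 58 10 (.thr 48 53 (.dbl 15 37 39)))))) .nd)))))))) (.rp 48 (.thr 16 31 (.str 60 (.nv (.thr 54 57 (.thr 62 61 (.dbl 58 10 50))) (.nv (.thr 58 10 (.thr 62 61 (.dbl 54 50 57))) (.rp 62 (.thr 57 54 (.thr 58 10 (.thr 59 56 (.thr 25 8 (.thr 29 17 (.dbl 12 38 46)))))) (.rp 61 (.thr 57 54 (.thr 58 10 (.thr 59 56 (.thr 25 8 (.thr 29 17 (.dbl 12 38 46)))))) (.rp 58 (.str 25 (.nv (.thr 12 38 (.thr 24 27 (.dbl 28 20 44))) (.nv (.thr 29 17 (.dbl 12 38 46)) (.rp 38 (.thr 24 27 (.thr 28 20 (.thr 29 17 (.dbl 12 44 46)))) (.rp 12 (.thr 61 62 (.thr 29 17 (.thr 45 13 (.thr 15 30 (.dbl 27 24 39))))) .nd))))) (.rp 57 (.thr 62 61 (.thr 58 10 (.thr 50 54 (.thr 38 14 (.thr 46 34 (.dbl 12 25 29)))))) (.rp 54 (.thr 10 58 (.str 38 (.nv (.thr 14 50 (.thr 62 61 (.dbl 46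 30 34))) (.nv (.thr 46 34 (.dbl 12 25 29)) (.rp 62 (.thr 50 14 (.thr 46 34 (.dbl 12 25 29))) (.rp 53 (.str 52 (.nv (.thr 14 50 (.thr 62 61 (.dbl 46 30 34))) (.nv (.thr 46 34 (.dbl 12 25 29)) (.rp 62 (.thr 50 14 (.thr 46 34 (.dbl 12 25 29))) (.rp 50 (.thr 62 61 (.thr 46 34 (.dbl 12 25 29))) (.rp 46 (.thr 12 25 (.thr 28 44 (.thr 20 24 (.thr 36 4 (.thr 39 37 (.thr 15 27 (.dbl 14 13 50))))))) (.rp 34 (.thr 14 50 (.thr 62 61 (.thr 46 30 (.dbl 12 25 29)))) .nd))))))) (.rp 52 (.str 53 (.nv (.thr 14 50 (.thr 62 61 (.dbl 46 30 34))) (.nv (.thr 37 5 (.thr 25 12 (.thr 49 13 (.dbl 61 57 62)))) (.nv (.thr 46 34 (.dbl 12 25 29)) (.rp 62 (.thr 50 14 (.thr 46 34 (.dbl 12 25 29))) (.rp 50 (.thr 62 61 (.thr 46 34 (.dbl 12 25 29))) (.rp 37 (.str 7 (.nv (.thr 14 50 (.thr 62 61 (.dbl 46 30 34))) (.nv (.thr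 46 34 (.dbl 12 25 29)) (.rp 62 (.thr 50 14 (.thr 46 34 (.dbl 12 25 29))) (.rp 50 (.thr 62 61 (.thr 46 34 (.dbl 12 25 29))) (.rp 46 (.thr 25 12 (.thr 8 59 (.thr 17 29 (.thr 19 18 (.thr 3 35 (.dbl 11 9 15)))))) (.rp 45 (.str 33 (.nv (.thr 25 12 (.thr 17 29 (.thr 49 1 (.dbl 61 57 62)))) (.nv (.thr 46 34 (.thr 14 50 (.dbl 62 30 61))) (.nv (.thr 46 34 (.dbl 12 25 29)) (.rp 62 (.thr 50 14 (.thr 46 34 (.dbl 12 25 29))) (.rp 50 (.thr 62 61 (.thr 46 34 (.dbl 12 25 29))) .nd)))))) (.rp 34 (.thr 14 50 (.thr 62 61 (.thr 46 30 (.dbl 12 25 29)))) (.rp 33 (.str 45 (.nv (.thr 50 14 (.thr 12 25 (.dbl 46 29 34))) (.nv (.thr 15 30 (.thr 25 12 (.dbl 27 24 39))) (.nv (.thr 14 50 (.thr 62 61 (.dbl 46 30 34))) (.rp 50 (.thr 62 61 (.thr 30 15 (.dbl 46 14 34))) (.rp 18 (.str 3 (.nv (.thr 50 14 (.thr 12 25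 (.dbl 46 29 34))) (.nv (.dbl 15 11 30) (.rp 50 (.thr 62 61 (.dbl 15 11 30)) .nd)))) (.rp 3 (.str 18 (.nv (.thr 62 61 (.thr 17 19 (.dbl 25 12 29))) (.nv (.thr 50 14 (.dbl 34 2 46)) (.rp 2 (.str 1 (.nv (.thr 17 19 (.dbl 25 12 29)) (.nv (.thr 14 50 (.thr 62 61 (.dbl 46 30 34))) (.rp 62 (.thr 50 14 (.thr 17 19 (.dbl 25 12 29))) (.rp 50 (.thr 62 61 (.thr 30 15 (.dbl 46 14 34))) .nd))))) (.rp 1 (.str 2 (.nv (.thr 17 19 (.dbl 25 12 29)) (.nv (.dbl 50 14 34) (.rp 50 (.thr 62 61 (.thr 30 15 (.dbl 46 14 34))) (.rp 17 (.str 49 (.nv (.dbl 61 57 62) (.nv (.dbl 50 14 34) (.rp 50 (.thr 62 61 (.thr 30 15 (.dbl 46 14 34))) .nd)))) .nd))))) .nd))))) .nd))))))) .nd))))))))) .nd))))))) (.rp 50 (.thr 62 61 (.thr 46 34 (.dbl 12 25 29))) (.rp 46 (.thr 25 12 (.thr 8 59 (.thr 17 29 (.thr 19 18 (.thr 3 35 (.thr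 11 9 (.thr 15 7 (.dbl 27 24 39)))))))) (.rp 34 (.thr 14 50 (.thr 62 61 (.thr 46 30 (.dbl 12 25 29)))) .nd)))))))))) (.rp 50 (.thr 57 54 (.thr 58 10 (.thr 59 56 (.thr 25 8 (.thr 29 17 (.dbl 12 38 46)))))) (.rp 10 (.thr 54 57 (.thr 62 61 (.thr 50 58 (.thr 38 14 (.thr 46 34 (.dbl 12 25 29)))))) .nd))))))))))) (.rp 15 (.thr 10 58 (.str 3 (.nv (.thr 19 35 (.thr 23 43 (.dbl 31 16 27))) (.nv (.thr 23 43 (.thr 31 16 (.dbl 19 27 35))) (.rp 43 (.thr 19 35 (.thr 31 16 (.thr 27 23 (.thr 25 24 (.thr 29 17 (.dbl 12 38 46)))))) (.rp 35 (.thr 23 43 (.thr 31 16 (.thr 27 19 (.thr 25 24 (.thr 8 59 (.thr 9 11 (.dbl 12 6 38))))))) (.rp 31 (.str 14 (.nv (.thr 38 50 (.thr 12 25 (.dbl 46 29 34))) (.nv (.thr 50 38 (.thr 48 49 (.thr 18 33 (.dbl 2 6 34)))) (.nv (.thr 6 2 (.thr 12 9 (.dbl 38 25 50))) (.rp 50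 (.thr 6 2 (.thr 12 9 (.thr 25 38 (.dbl 29 17 46)))) (.rp 38 (.thr 43 23 (.thr 6 2 (.thr 12 9 (.thr 29 46 (.thr 25 17 (.thr 59 8 (.dbl 27 11 24))))))) .nd)))))) (.rp 27 (.thr 19 35 (.thr 43 23 (.thr 16 31 (.thr 17 18 (.thr 25 29 (.thr 8 59 (.thr 9 11 (.dbl 12 6 38)))))))) (.rp 23 (.thr 19 35 (.thr 16 31 (.thr 17 18 (.thr 25 29 (.thr 8 59 (.thr 9 11 (.dbl 12 6 38))))))) (.rp 19 (.str 25 (.nv (.thr 27 24 (.thr 43 23 (.dbl 59 8 11))) (.nv (.thr 29 17 (.dbl 12 38 46)) .nd))) (.rp 16 (.thr 19 35 (.thr 23 43 (.thr 27 31 (.thr 25 24 (.thr 29 17 (.dbl 12 38 46)))))) .nd))))))))))) (.rp 3 (.str 60 (.nv (.thr 31 16 (.thr 15 47 (.thr 48 37 (.dbl 58 10 53)))) (.nv (.thr 58 10 (.thr 62 61 (.dbl 54 50 57))) (.rp 58 (.thr 62 61 (.thr 31 16 (.thr 15 47 (.thr 30 45 (.thr 29 28 (.dbl 46 12 14)))))) (.rp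 15 (.thr 54 57 (.thr 62 61 (.dbl 58 10 50))) (.rp 10 (.thr 57 54 (.thr 61 62 (.thr 53 49 (.thr 31 16 (.thr 37 5 (.dbl 15 47 48)))))) (.rp 2 (.str 1 (.nv (.thr 31 16 (.thr 15 47 (.thr 48 37 (.dbl 58 10 53)))) (.nv (.thr 58 10 (.thr 62 61 (.dbl 54 50 57))) (.rp 58 (.thr 62 61 (.thr 31 16 (.thr 15 47 (.thr 30 45 (.thr 29 28 (.dbl 46 12 14)))))) (.rp 15 (.thr 62 61 (.thr 54 57 (.dbl 58 10 50))) (.rp 10 (.thr 61 62 (.thr 31 16 (.thr 15 47 (.thr 57 54 (.thr 53 49 (.dbl 48 37 58)))))) .nd)))))) (.rp 1 (.str 2 (.nv (.thr 54 57 (.thr 62 61 (.thr 50 58 (.thr 34 18 (.dbl 38 14 46))))) (.nv (.thr 31 16 (.thr 15 47 (.thr 48 37 (.dbl 58 10 53)))) (.nv (.thr 58 10 (.thr 62 61 (.dbl 54 50 57))) (.rp 58 (.thr 31 16 (.thr 62 61 (.thr 15 47 (.thr 30 45 (.thr 29 28 (.dbl 46 12 14)))))) .nd))))) .nd))))))))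 .nd)))))))) (.rp 46 (.str 60 (.nv (.thr 57 54 (.thr 59 55 (.thr 58 56 (.thr 53 48 (.dbl 61 49 62))))) (.nv (.thr 54 57 (.thr 62 61 (.thr 58 50 (.thr 26 10 (.thr 31 16 (.thr 15 47 (.dbl 48 37 53))))))) (.nv (.thr 54 57 (.thr 55 59 (.thr 53 52 (.thr 37 5 (.thr 47 32 (.thr 15 31 (.dbl 48 26 58))))))) (.nv (.thr 54 57 (.thr 62 61 (.thr 55 59 (.thr 58 50 (.dbl 53 48 52))))) (.rp 58 (.thr 59 55 (.thr 61 62 (.thr 25 8 (.thr 29 17 (.thr 12 38 (.thr 45 13 (.thr 30 15 (.dbl 28 31 44)))))))) (.rp 57 (.thr 59 55 (.thr 61 62 (.thr 25 8 (.thr 29 17 (.thr 12 38 (.thr 45 13 (.thr 30 15 (.dbl 28 31 44)))))))) (.rp 54 (.thr 59 55 (.thr 61 62 (.thr 25 8 (.thr 29 17 (.thr 45 13 (.thr 30 15 (.thr 28 31 (.dbl 12 38 44)))))))) (.rp 53 (.thr 59 55 (.thr 61 62 (.thr 25 8 (.thr 29 17 (.thr 12 38 (.thr 45 13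 (.thr 30 15 (.dbl 28 31 44)))))))) (.rp 48 (.thr 57 54 (.thr 59 55 (.thr 61 62 (.thr 25 8 (.thr 29 17 (.thr 13 45 (.dbl 49 37 53))))))) .nd)))))))))) (.rp 38 (.str 54 (.nv (.thr 60 57 (.thr 62 61 (.thr 58 50 (.thr 26 10 (.thr 31 16 (.thr 15 47 (.dbl 48 37 53))))))) (.nv (.thr 55 59 (.thr 53 52 (.thr 37 5 (.thr 47 32 (.thr 15 31 (.dbl 48 26 58)))))) (.nv (.thr 60 57 (.thr 55 59 (.thr 53 52 (.thr 62 61 (.dbl 58 48 50))))) (.rp 60 (.str 3 (.nv (.thr 35 19 (.thr 55 59 (.thr 53 52 (.thr 48 58 (.thr 33 18 (.thr 32 34 (.dbl 37 5 47))))))) (.nv (.thr 55 59 (.thr 53 52 (.thr 37 5 (.thr 47 32 (.thr 15 31 (.dbl 48 26 58)))))) (.nv (.thr 35 19 (.thr 43 23 (.thr 39 47 (.thr 59 55 (.dbl 27 11 15))))) (.rp 59 (.thr 35 19 (.thr 43 23 (.thr 47 39 (.thr 37 32 (.thr 53 5 (.thr 48 58 (.dbl 15 26 31)))))))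 (.rp 55 (.str 48 (.nv (.thr 53 58 (.thr 37 5 (.thr 47 32 (.dbl 15 26 31)))) (.nv (.thr 50 49 (.dbl 58 53 62)) (.rp 58 (.thr 35 19 (.thr 33 18 (.thr 32 34 (.thr 47 37 (.dbl 43 23 39))))) (.rp 53 (.thr 35 19 (.thr 33 18 (.thr 32 34 (.thr 47 37 (.dbl 43 23 39))))) (.rp 44 (.thr 35 19 (.thr 50 49 (.dbl 58 53 62))) (.rp 40 (.str 20 (.nv (.thr 53 58 (.thr 37 5 (.thr 47 32 (.dbl 15 26 31)))) (.nv (.thr 50 49 (.dbl 58 53 62)) (.rp 58 (.thr 35 19 (.thr 33 18 (.thr 32 34 (.thr 47 37 (.dbl 43 23 39))))) (.rp 53 (.thr 35 19 (.thr 33 18 (.thr 32 34 (.thr 47 37 (.dbl 43 23 39))))) (.rp 44 (.thr 35 19 (.thr 50 49 (.dbl 58 53 62))) (.rp 35 (.str 44 (.nv (.thr 53 58 (.thr 37 5 (.thr 47 32 (.dbl 15 26 31)))) (.nv (.thr 50 49 (.dbl 58 53 62)) (.rp 58 (.thr 49 50 (.thr 33 18 (.thr 17 1 (.thr 25 29 (.thr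 37 13 (.thr 47 32 (.dbl 15 26 31))))))) (.rp 53 (.thr 50 49 (.thr 58 62 (.thr 26 10 (.thr 15 37 (.dbl 31 16 47))))) .nd))))) .nd))))))) (.rp 35 (.str 44 (.nv (.thr 53 58 (.thr 37 5 (.thr 47 32 (.dbl 15 26 31)))) (.nv (.thr 50 49 (.dbl 58 53 62)) (.rp 58 (.thr 49 50 (.thr 33 18 (.thr 17 1 (.thr 25 29 (.thr 37 13 (.thr 47 32 (.dbl 15 26 31))))))) (.rp 53 (.thr 50 49 (.thr 58 62 (.thr 26 10 (.thr 15 37 (.dbl 31 16 47))))) (.rp 40 (.str 20 (.nv (.thr 53 58 (.thr 37 5 (.thr 47 32 (.dbl 15 26 31)))) (.nv (.thr 50 49 (.dbl 58 53 62)) (.rp 58 (.thr 49 50 (.thr 33 18 (.thr 17 1 (.thr 25 29 (.thr 37 13 (.thr 47 32 (.dbl 15 26 31))))))) (.rp 53 (.thr 50 49 (.thr 58 62 (.thr 26 10 (.thr 15 37 (.dbl 31 16 47))))) .nd))))) (.rp 20 (.str 40 (.nv (.thr 32 36 (.thr 37 47 (.dbl 53 5 58))) (.nv (.thr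 50 49 (.dbl 58 53 62)) (.rp 58 (.thr 36 32 (.thr 49 50 (.thr 33 18 (.thr 17 1 (.thr 29 25 (.dbl 12 24 46)))))) (.rp 53 (.thr 32 36 (.thr 37 47 (.thr 50 49 (.thr 58 62 (.dbl 26 10 15))))) .nd))))) .nd))))))) (.rp 20 (.str 40 (.nv (.thr 53 58 (.thr 37 5 (.thr 47 32 (.dbl 15 26 31)))) (.nv (.thr 50 49 (.dbl 58 53 62)) (.rp 58 (.thr 35 19 (.thr 33 18 (.thr 32 34 (.thr 43 23 (.dbl 47 37 39))))) (.rp 53 (.thr 50 49 (.thr 58 62 (.thr 26 10 (.thr 31 16 (.dbl 15 37 47))))) (.rp 44 (.thr 35 19 (.thr 50 49 (.dbl 58 53 62))) (.rp 35 (.str 44 (.nv (.thr 32 36 (.thr 37 47 (.dbl 53 5 58))) (.nv (.thr 50 49 (.dbl 58 53 62)) (.rp 58 (.thr 36 32 (.thr 49 50 (.thr 33 18 (.thr 17 1 (.thr 29 25 (.dbl 12 24 46)))))) (.rp 53 (.thr 32 36 (.thr 37 47 (.thr 50 49 (.thr 58 62 (.dbl 26 10 15))))) .nd))))) .nd)))))))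 .nd))))))))) (.rp 47 (.thr 23 43 (.thr 55 59 (.thr 39 7 (.thr 27 15 (.dbl 19 31 35))))) (.rp 40 (.str 20 (.nv (.thr 35 19 (.thr 55 59 (.thr 53 52 (.thr 48 58 (.thr 33 18 (.thr 32 34 (.dbl 37 5 47))))))) (.nv (.thr 55 59 (.thr 53 52 (.thr 37 5 (.thr 47 32 (.thr 15 31 (.dbl 48 26 58)))))) (.nv (.thr 35 19 (.thr 59 55 (.thr 43 23 (.thr 39 47 (.dbl 27 11 15))))) (.rp 59 (.thr 35 19 (.thr 43 23 (.thr 47 39 (.thr 37 32 (.thr 53 5 (.thr 48 58 (.dbl 15 26 31))))))) (.rp 55 (.str 48 (.nv (.thr 53 58 (.thr 37 5 (.thr 47 32 (.dbl 15 26 31)))) (.nv (.thr 50 49 (.dbl 58 53 62)) (.rp 58 (.thr 35 19 (.thr 33 18 (.thr 32 34 (.thr 47 37 (.dbl 43 23 39))))) (.rp 53 (.thr 35 19 (.thr 33 18 (.thr 32 34 (.thr 47 37 (.dbl 43 23 39))))) (.rp 44 (.thr 35 19 (.thr 50 49 (.dbl 58 53 62))) (.rp 35 (.str 44 (.nv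 (.thr 53 58 (.thr 37 5 (.thr 47 32 (.dbl 15 26 31)))) (.nv (.thr 50 49 (.dbl 58 53 62)) (.rp 58 (.thr 49 50 (.thr 33 18 (.thr 17 1 (.thr 25 29 (.thr 37 13 (.thr 47 32 (.dbl 15 26 31))))))) (.rp 53 (.thr 50 49 (.thr 58 62 (.thr 26 10 (.thr 15 37 (.dbl 31 16 47))))) .nd))))) .nd))))))) (.rp 47 (.thr 55 59 (.thr 23 43 (.thr 39 7 (.thr 27 15 (.dbl 19 31 35))))) (.rp 35 (.str 44 (.nv (.thr 23 43 (.thr 55 59 (.thr 39 7 (.thr 53 52 (.thr 37 5 (.thr 47 32 (.dbl 15 27 31))))))) (.nv (.thr 55 59 (.thr 53 52 (.thr 48 58 (.thr 23 43 (.thr 39 7 (.thr 37 5 (.dbl 15 26 27))))))) (.nv (.thr 55 59 (.thr 53 52 (.thr 37 5 (.thr 47 32 (.thr 15 31 (.dbl 48 26 58)))))) (.rp 59 (.str 48 (.nv (.thr 53 58 (.thr 37 5 (.thr 47 32 (.dbl 15 26 31)))) (.nv (.thr 50 49 (.dbl 58 53 62)) (.rp 58 (.thr 49 50 (.thr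 33 18 (.thr 17 1 (.thr 25 29 (.thr 37 13 (.thr 47 32 (.dbl 15 26 31))))))) (.rp 53 (.thr 50 49 (.thr 58 62 (.thr 26 10 (.thr 15 37 (.dbl 31 16 47))))) .nd))))) (.rp 56 (.thr 43 23 (.thr 59 55 (.thr 11 27 (.thr 8 25 (.thr 9 10 (.thr 12 6 (.thr 46 29 (.thr 47 45 (.dbl 15 7 31))))))))) (.rp 55 (.str 48 (.nv (.thr 53 58 (.thr 37 5 (.thr 47 32 (.dbl 15 26 31)))) (.nv (.thr 50 49 (.dbl 58 53 62)) (.rp 58 (.thr 49 50 (.thr 33 18 (.thr 17 1 (.thr 25 29 (.thr 37 13 (.thr 47 32 (.dbl 15 26 31))))))) (.rp 53 (.thr 50 49 (.thr 58 62 (.thr 26 10 (.thr 15 37 (.dbl 31 16 47))))) .nd))))) (.rp 53 (.thr 43 23 (.thr 59 55 (.thr 11 27 (.thr 8 25 (.thr 9 10 (.thr 12 6 (.thr 46 29 (.thr 47 45 (.dbl 15 7 31))))))))) (.rp 52 (.thr 43 23 (.thr 59 55 (.thr 11 27 (.thr 8 25 (.thr 9 10 (.thr 12 6 (.thr 46 29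 (.thr 47 45 (.dbl 15 7 31))))))))) (.rp 48 (.thr 43 23 (.thr 59 55 (.thr 11 27 (.thr 8 25 (.thr 9 10 (.thr 12 6 (.thr 46 29 (.thr 47 45 (.dbl 15 7 31))))))))) (.rp 37 (.thr 55 59 (.thr 52 53 (.str 48 (.nv (.thr 23 43 (.thr 33 18 (.thr 36 4 (.thr 12 24 (.thr 39 7 (.thr 46 29 (.thr 47 45 (.dbl 15 27 31)))))))) (.nv (.thr 23 43 (.thr 39 7 (.thr 50 49 (.thr 58 62 (.thr 26 10 (.thr 31 16 (.dbl 15 27 47))))))) (.nv (.thr 36 4 (.thr 33 18 (.thr 49 50 (.thr 17 1 (.thr 12 24 (.dbl 29 25 46)))))) (.rp 45 (.thr 33 18 (.thr 36 4 (.thr 49 50 (.thr 17 1 (.thr 12 24 (.dbl 29 25 46)))))) (.rp 36 (.str 39 (.nv (.thr 33 18 (.thr 7 23 (.dbl 15 11 27))) (.nv (.dbl 23 7 43) (.rp 33 (.str 45 (.nv (.thr 47 46 (.dbl 15 27 31)) (.nv (.dbl 23 7 43) (.rp 34 (.str 32 (.nv (.thr 47 46 (.dbl 15 27 31)) (.nv (.dbl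 23 7 43) .nd))) (.rp 32 (.str 34 (.nv (.thr 47 46 (.dbl 15 27 31)) (.nv (.dbl 23 7 43) .nd))) .nd))))) (.rp 23 (.thr 50 49 (.thr 58 62 (.thr 26 10 (.thr 31 16 (.dbl 15 27 47))))) (.rp 7 (.thr 50 49 (.thr 58 62 (.thr 26 10 (.thr 31 16 (.dbl 15 27 47))))) .nd)))))) (.rp 33 (.str 45 (.nv (.thr 23 43 (.thr 39 7 (.thr 47 46 (.dbl 15 27 31)))) (.nv (.thr 36 4 (.thr 12 24 (.dbl 46 29 47))) (.rp 47 (.thr 36 4 (.thr 50 49 (.thr 58 62 (.thr 26 10 (.thr 16 31 (.dbl 24 12 28)))))) (.rp 46 (.thr 36 4 (.thr 50 49 (.thr 58 62 (.thr 26 10 (.thr 16 31 (.dbl 24 12 28)))))) (.rp 36 (.str 39 (.nv (.thr 47 46 (.dbl 15 27 31)) (.nv (.dbl 23 7 43) (.rp 34 (.str 32 (.nv (.thr 47 46 (.dbl 15 27 31)) (.nv (.dbl 23 7 43) .nd))) (.rp 32 (.str 34 (.nv (.thr 47 46 (.dbl 15 27 31)) (.nv (.dbl 23 7 43) .nd))) .nd)))))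 (.rp 34 (.str 32 (.nv (.thr 23 43 (.thr 39 7 (.thr 47 46 (.dbl 15 27 31)))) (.nv (.thr 36 4 (.thr 12 24 (.dbl 46 29 47))) (.rp 47 (.thr 36 4 (.thr 50 49 (.thr 58 62 (.thr 26 10 (.thr 16 31 (.dbl 24 12 28)))))) (.rp 46 (.thr 36 4 (.thr 50 49 (.thr 58 62 (.thr 26 10 (.thr 16 31 (.dbl 24 12 28)))))) (.rp 36 (.str 39 (.nv (.thr 47 46 (.dbl 15 27 31)) (.nv (.dbl 23 7 43) .nd))) .nd)))))) (.rp 32 (.str 34 (.nv (.thr 23 43 (.thr 39 7 (.thr 47 46 (.dbl 15 27 31)))) (.nv (.thr 36 4 (.thr 12 24 (.dbl 46 29 47))) (.rp 47 (.thr 36 4 (.thr 50 49 (.thr 58 62 (.thr 26 10 (.thr 16 31 (.dbl 24 12 28)))))) (.rp 46 (.thr 36 4 (.thr 50 49 (.thr 58 62 (.thr 26 10 (.thr 16 31 (.dbl 24 12 28)))))) (.rp 36 (.str 39 (.nv (.thr 47 46 (.dbl 15 27 31)) (.nv (.dbl 23 7 43) .nd))) .nd)))))) .nd)))))))) (.rp 26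 (.thr 36 4 (.thr 23 43 (.thr 39 7 (.thr 27 15 (.thr 19 31 (.thr 12 24 (.thr 29 46 (.thr 17 25 (.dbl 18 16 33))))))))) .nd)))))))))) (.rp 15 (.thr 55 59 (.thr 53 52 (.thr 48 58 (.thr 49 50 (.thr 33 18 (.thr 17 1 (.thr 25 29 (.dbl 37 5 13)))))))) (.rp 5 (.thr 55 59 (.thr 53 52 (.thr 48 58 (.thr 49 50 (.thr 33 18 (.thr 17 1 (.thr 29 25 (.thr 46 12 (.thr 45 47 (.dbl 61 13 57)))))))))) .nd))))))))))))) .nd)))))))) (.rp 35 (.str 44 (.nv (.thr 55 59 (.thr 53 52 (.thr 48 58 (.thr 23 43 (.thr 39 7 (.thr 37 5 (.dbl 15 26 27))))))) (.nv (.thr 43 23 (.thr 59 55 (.thr 25 8 (.thr 27 11 (.thr 26 24 (.thr 31 16 (.dbl 15 39 47))))))) (.nv (.thr 55 59 (.thr 53 52 (.thr 37 5 (.thr 47 32 (.thr 15 31 (.dbl 48 26 58)))))) (.rp 59 (.str 48 (.nv (.thr 53 58 (.thr 37 5 (.thr 47 32 (.dbl 15 26 31)))) (.nv (.thr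 50 49 (.dbl 58 53 62)) (.rp 58 (.thr 49 50 (.thr 33 18 (.thr 17 1 (.thr 25 29 (.thr 37 13 (.thr 47 32 (.dbl 15 26 31))))))) (.rp 53 (.thr 50 49 (.thr 58 62 (.thr 26 10 (.thr 15 37 (.dbl 31 16 47))))) (.rp 40 (.str 20 (.nv (.thr 53 58 (.thr 37 5 (.thr 47 32 (.dbl 15 26 31)))) (.nv (.thr 50 49 (.dbl 58 53 62)) (.rp 58 (.thr 49 50 (.thr 33 18 (.thr 17 1 (.thr 25 29 (.thr 37 13 (.thr 47 32 (.dbl 15 26 31))))))) (.rp 53 (.thr 50 49 (.thr 58 62 (.thr 26 10 (.thr 15 37 (.dbl 31 16 47))))) .nd))))) (.rp 20 (.str 40 (.nv (.thr 32 36 (.thr 37 47 (.dbl 53 5 58))) (.nv (.thr 50 49 (.dbl 58 53 62)) (.rp 58 (.thr 36 32 (.thr 49 50 (.thr 33 18 (.thr 17 1 (.thr 29 25 (.dbl 12 24 46)))))) (.rp 53 (.thr 32 36 (.thr 37 47 (.thr 50 49 (.thr 58 62 (.dbl 26 10 15))))) .nd))))) .nd))))))) (.rp 56 (.thr 43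 23 (.thr 59 55 (.thr 11 27 (.thr 8 25 (.thr 9 10 (.thr 12 6 (.thr 46 29 (.thr 47 45 (.dbl 15 7 31))))))))) (.rp 55 (.str 48 (.nv (.thr 53 58 (.thr 37 5 (.thr 47 32 (.dbl 15 26 31)))) (.nv (.thr 50 49 (.dbl 58 53 62)) (.rp 58 (.thr 49 50 (.thr 33 18 (.thr 17 1 (.thr 25 29 (.thr 37 13 (.thr 47 32 (.dbl 15 26 31))))))) (.rp 53 (.thr 50 49 (.thr 58 62 (.thr 26 10 (.thr 15 37 (.dbl 31 16 47))))) (.rp 40 (.str 20 (.nv (.thr 53 58 (.thr 37 5 (.thr 47 32 (.dbl 15 26 31)))) (.nv (.thr 50 49 (.dbl 58 53 62)) (.rp 58 (.thr 49 50 (.thr 33 18 (.thr 17 1 (.thr 25 29 (.thr 37 13 (.thr 47 32 (.dbl 15 26 31))))))) (.rp 53 (.thr 50 49 (.thr 58 62 (.thr 26 10 (.thr 15 37 (.dbl 31 16 47))))) .nd))))) (.rp 20 (.str 40 (.nv (.thr 32 36 (.thr 37 47 (.dbl 53 5 58))) (.nv (.thr 50 49 (.dbl 58 53 62)) (.rp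 58 (.thr 36 32 (.thr 49 50 (.thr 33 18 (.thr 17 1 (.thr 29 25 (.dbl 12 24 46)))))) (.rp 53 (.thr 32 36 (.thr 37 47 (.thr 50 49 (.thr 58 62 (.dbl 26 10 15))))) .nd))))) .nd))))))) (.rp 48 (.thr 43 23 (.thr 59 55 (.thr 11 27 (.thr 8 25 (.thr 9 10 (.thr 12 6 (.thr 46 29 (.thr 47 45 (.dbl 15 7 31))))))))) (.rp 40 .ext (.rp 26 (.thr 23 43 (.thr 55 59 (.thr 53 52 (.thr 39 7 (.thr 37 5 (.thr 47 32 (.dbl 15 27 31))))))) (.rp 20 (.str 40 (.nv (.thr 55 59 (.thr 53 52 (.thr 37 5 (.dbl 32 36 47)))) (.nv (.thr 32 36 (.thr 37 47 (.thr 55 59 (.dbl 53 5 52)))) (.rp 59 (.thr 32 36 (.thr 37 47 (.thr 53 5 (.thr 48 58 (.thr 49 50 (.thr 33 18 (.thr 17 1 (.dbl 25 13 29)))))))) (.rp 55 (.thr 32 36 (.thr 37 47 (.thr 53 5 (.thr 48 58 (.thr 49 50 (.thr 33 18 (.thr 17 1 (.dbl 25 13 29)))))))) (.rp 53 (.thr 36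 32 (.thr 59 55 (.thr 43 23 (.thr 8 25 (.thr 24 56 (.thr 11 27 (.thr 9 10 (.dbl 12 6 48)))))))) (.rp 52 (.thr 36 32 (.thr 59 55 (.thr 8 25 (.thr 24 56 (.thr 48 12 (.thr 50 49 (.dbl 58 53 62))))))) (.rp 47 (.thr 36 32 (.thr 59 55 (.thr 8 25 (.thr 24 56 (.thr 48 12 (.thr 50 49 (.dbl 58 53 62))))))) (.rp 37 (.thr 36 32 (.thr 59 55 (.thr 8 25 (.thr 24 56 (.thr 48 12 (.thr 58 53 (.dbl 50 49 62))))))) (.rp 36 (.thr 59 55 (.thr 43 23 (.thr 8 25 (.thr 11 27 (.thr 9 10 (.thr 12 6 (.thr 46 29 (.thr 47 45 (.dbl 15 7 31))))))))) (.rp 32 (.thr 55 59 (.thr 53 52 (.thr 48 58 (.thr 37 5 (.thr 23 43 (.thr 39 7 (.dbl 15 26 27))))))) (.rp 5 (.thr 36 32 (.thr 59 55 (.thr 8 25 (.thr 24 56 (.thr 48 12 (.thr 50 49 (.dbl 58 53 62))))))) (.rp 4 (.thr 36 32 (.thr 59 55 (.thr 8 25 (.thr 24 56 (.thr 48 12 (.thr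 50 49 (.dbl 58 53 62))))))) .nd))))))))))))) (.rp 15 (.thr 55 59 (.thr 53 52 (.thr 48 58 (.thr 49 50 (.thr 33 18 (.thr 17 1 (.thr 25 29 (.dbl 37 5 13)))))))) .nd)))))))))))) (.rp 20 (.str 40 (.nv (.thr 35 19 (.thr 55 59 (.thr 53 52 (.thr 48 58 (.thr 33 18 (.thr 32 34 (.dbl 37 5 47))))))) (.nv (.thr 55 59 (.thr 53 52 (.thr 37 5 (.thr 47 32 (.thr 15 31 (.dbl 48 26 58)))))) (.nv (.thr 35 19 (.thr 59 55 (.thr 43 23 (.thr 39 47 (.dbl 27 11 15))))) (.rp 59 (.thr 35 19 (.thr 43 23 (.thr 47 39 (.thr 37 32 (.thr 53 5 (.thr 48 58 (.dbl 15 26 31))))))) (.rp 55 (.str 48 (.nv (.thr 53 58 (.thr 37 5 (.thr 47 32 (.dbl 15 26 31)))) (.nv (.thr 50 49 (.dbl 58 53 62)) (.rp 58 (.thr 35 19 (.thr 33 18 (.thr 32 34 (.thr 43 23 (.dbl 47 37 39))))) (.rp 53 (.thr 50 49 (.thr 58 62 (.thr 26 10 (.thr 31 16 (.dbl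 15 37 47))))) (.rp 44 (.thr 35 19 (.thr 50 49 (.dbl 58 53 62))) (.rp 35 (.str 44 (.nv (.thr 32 36 (.thr 37 47 (.dbl 53 5 58))) (.nv (.thr 50 49 (.dbl 58 53 62)) (.rp 58 (.thr 36 32 (.thr 49 50 (.thr 33 18 (.thr 17 1 (.thr 29 25 (.dbl 12 24 46)))))) (.rp 53 (.thr 32 36 (.thr 37 47 (.thr 50 49 (.thr 58 62 (.dbl 26 10 15))))) .nd))))) .nd))))))) (.rp 47 (.thr 55 59 (.thr 23 43 (.thr 39 7 (.thr 27 15 (.dbl 19 31 35))))) (.rp 35 (.str 44 (.nv (.thr 55 59 (.thr 53 52 (.thr 37 5 (.dbl 32 36 47)))) (.nv (.thr 32 36 (.thr 37 47 (.thr 55 59 (.dbl 53 5 52)))) (.rp 59 (.thr 32 36 (.thr 37 47 (.thr 53 5 (.thr 48 58 (.thr 49 50 (.thr 33 18 (.thr 17 1 (.dbl 25 13 29)))))))) (.rp 55 (.thr 32 36 (.thr 37 47 (.thr 53 5 (.thr 48 58 (.thr 49 50 (.thr 33 18 (.thr 17 1 (.dbl 25 13 29)))))))) (.rp 53 (.thr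 36 32 (.thr 59 55 (.thr 43 23 (.thr 8 25 (.thr 24 56 (.thr 11 27 (.thr 9 10 (.dbl 12 6 48)))))))) (.rp 52 (.thr 36 32 (.thr 59 55 (.thr 8 25 (.thr 24 56 (.thr 48 12 (.thr 50 49 (.dbl 58 53 62))))))) (.rp 47 (.thr 36 32 (.thr 59 55 (.thr 8 25 (.thr 24 56 (.thr 48 12 (.thr 50 49 (.dbl 58 53 62))))))) (.rp 37 (.thr 36 32 (.thr 59 55 (.thr 8 25 (.thr 24 56 (.thr 48 12 (.thr 58 53 (.dbl 50 49 62))))))) (.rp 36 (.thr 59 55 (.thr 43 23 (.thr 8 25 (.thr 11 27 (.thr 9 10 (.thr 12 6 (.thr 46 29 (.thr 47 45 (.dbl 15 7 31))))))))) (.rp 32 (.thr 55 59 (.thr 53 52 (.thr 48 58 (.thr 37 5 (.thr 23 43 (.thr 39 7 (.dbl 15 26 27))))))) (.rp 5 (.thr 36 32 (.thr 59 55 (.thr 8 25 (.thr 24 56 (.thr 48 12 (.thr 50 49 (.dbl 58 53 62))))))) (.rp 4 (.thr 36 32 (.thr 59 55 (.thr 8 25 (.thr 24 56 (.thr 48 12 (.thr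 50 49 (.dbl 58 53 62))))))) .nd))))))))))))) .nd)))))))) .nd)))))))))) (.rp 58 (.thr 55 59 (.thr 53 52 (.thr 37 5 (.thr 47 32 (.thr 15 31 (.thr 39 27 (.thr 23 7 (.dbl 43 3 35)))))))) (.rp 53 (.thr 60 57 (.thr 59 55 (.thr 61 62 (.thr 25 8 (.thr 29 17 (.thr 12 46 (.thr 45 13 (.thr 30 15 (.dbl 28 31 44))))))))) (.rp 48 (.thr 60 57 (.thr 59 55 (.thr 61 62 (.thr 25 8 (.thr 29 17 (.thr 12 46 (.thr 45 13 (.thr 30 15 (.dbl 28 31 44))))))))) (.rp 44 (.str 35 (.nv (.thr 55 59 (.thr 53 52 (.thr 48 58 (.thr 49 50 (.dbl 57 60 61))))) (.nv (.thr 3 19 (.thr 43 23 (.thr 39 47 (.thr 59 55 (.dbl 27 11 15))))) (.rp 59 (.thr 60 57 (.thr 62 61 (.thr 58 50 (.thr 26 10 (.thr 31 16 (.thr 15 47 (.dbl 48 37 53))))))) (.rp 55 (.thr 60 57 (.thr 62 61 (.thr 58 50 (.thr 26 10 (.thr 31 16 (.thr 15 47 (.dbl 48 37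 53))))))) (.rp 3 (.thr 60 57 (.thr 55 59 (.thr 53 52 (.thr 58 48 (.dbl 62 50 61))))) .nd)))))) (.rp 37 (.thr 60 57 (.thr 55 59 (.thr 62 61 (.thr 58 50 (.dbl 53 48 52))))) (.rp 35 (.str 44 (.nv (.thr 60 57 (.thr 12 28 (.thr 46 29 (.thr 45 47 (.thr 30 15 (.dbl 62 14 61)))))) (.nv (.thr 55 59 (.thr 53 52 (.thr 37 5 (.thr 47 32 (.thr 15 31 (.dbl 48 26 58)))))) (.nv (.thr 59 55 (.thr 60 57 (.thr 25 8 (.thr 12 28 (.dbl 29 17 46))))) (.rp 60 (.str 3 (.nv (.thr 55 59 (.thr 53 52 (.thr 48 58 (.thr 23 43 (.thr 39 7 (.thr 37 5 (.dbl 15 26 27))))))) (.nv (.thr 43 23 (.thr 59 55 (.thr 25 8 (.thr 27 11 (.thr 26 24 (.thr 31 16 (.dbl 15 39 47))))))) (.nv (.thr 55 59 (.thr 53 52 (.thr 37 5 (.thr 47 32 (.thr 15 31 (.dbl 48 26 58)))))) (.rp 59 (.str 48 (.nv (.thr 53 58 (.thr 37 5 (.thr 47 32 (.dbl 15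 26 31)))) (.nv (.thr 50 49 (.dbl 58 53 62)) (.rp 58 (.thr 49 50 (.thr 33 18 (.thr 17 1 (.thr 25 29 (.thr 37 13 (.thr 47 32 (.dbl 15 26 31))))))) (.rp 53 (.thr 50 49 (.thr 58 62 (.thr 26 10 (.thr 15 37 (.dbl 31 16 47))))) (.rp 40 (.str 20 (.nv (.thr 53 58 (.thr 37 5 (.thr 47 32 (.dbl 15 26 31)))) (.nv (.thr 50 49 (.dbl 58 53 62)) (.rp 58 (.thr 49 50 (.thr 33 18 (.thr 17 1 (.thr 25 29 (.thr 37 13 (.thr 47 32 (.dbl 15 26 31))))))) (.rp 53 (.thr 50 49 (.thr 58 62 (.thr 26 10 (.thr 15 37 (.dbl 31 16 47))))) .nd))))) (.rp 20 (.str 40 (.nv (.thr 32 36 (.thr 37 47 (.dbl 53 5 58))) (.nv (.thr 50 49 (.dbl 58 53 62)) (.rp 58 (.thr 36 32 (.thr 49 50 (.thr 33 18 (.thr 17 1 (.thr 29 25 (.dbl 12 24 46)))))) (.rp 53 (.thr 32 36 (.thr 37 47 (.thr 50 49 (.thr 58 62 (.dbl 26 10 15))))) .nd))))) .nd)))))))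 (.rp 56 (.thr 43 23 (.thr 59 55 (.thr 11 27 (.thr 8 25 (.thr 9 10 (.thr 12 6 (.thr 46 29 (.thr 47 45 (.dbl 15 7 31))))))))) (.rp 55 (.str 48 (.nv (.thr 53 58 (.thr 37 5 (.thr 47 32 (.dbl 15 26 31)))) (.nv (.thr 50 49 (.dbl 58 53 62)) (.rp 58 (.thr 49 50 (.thr 33 18 (.thr 17 1 (.thr 25 29 (.thr 37 13 (.thr 47 32 (.dbl 15 26 31))))))) (.rp 53 (.thr 50 49 (.thr 58 62 (.thr 26 10 (.thr 15 37 (.dbl 31 16 47))))) (.rp 40 (.str 20 (.nv (.thr 53 58 (.thr 37 5 (.thr 47 32 (.dbl 15 26 31)))) (.nv (.thr 50 49 (.dbl 58 53 62)) (.rp 58 (.thr 49 50 (.thr 33 18 (.thr 17 1 (.thr 25 29 (.thr 37 13 (.thr 47 32 (.dbl 15 26 31))))))) (.rp 53 (.thr 50 49 (.thr 58 62 (.thr 26 10 (.thr 15 37 (.dbl 31 16 47))))) .nd))))) (.rp 20 (.str 40 (.nv (.thr 32 36 (.thr 37 47 (.dbl 53 5 58))) (.nv (.thr 50 49 (.dbl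 58 53 62)) (.rp 58 (.thr 36 32 (.thr 49 50 (.thr 33 18 (.thr 17 1 (.thr 29 25 (.dbl 12 24 46)))))) (.rp 53 (.thr 32 36 (.thr 37 47 (.thr 50 49 (.thr 58 62 (.dbl 26 10 15))))) .nd))))) .nd))))))) (.rp 48 (.thr 43 23 (.thr 59 55 (.thr 11 27 (.thr 8 25 (.thr 9 10 (.thr 12 6 (.thr 46 29 (.thr 47 45 (.dbl 15 7 31))))))))) (.rp 40 .ext (.rp 26 (.thr 23 43 (.thr 55 59 (.thr 53 52 (.thr 39 7 (.thr 37 5 (.thr 47 32 (.dbl 15 27 31))))))) (.rp 20 (.str 40 (.nv (.thr 55 59 (.thr 53 52 (.thr 37 5 (.dbl 32 36 47)))) (.nv (.thr 32 36 (.thr 37 47 (.thr 55 59 (.dbl 53 5 52)))) (.rp 59 (.thr 32 36 (.thr 37 47 (.thr 53 5 (.thr 48 58 (.thr 49 50 (.thr 33 18 (.thr 17 1 (.dbl 25 13 29)))))))) (.rp 55 (.thr 32 36 (.thr 37 47 (.thr 53 5 (.thr 48 58 (.thr 49 50 (.thr 33 18 (.thr 17 1 (.dbl 25 13 29))))))))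 (.rp 53 (.thr 36 32 (.thr 59 55 (.thr 43 23 (.thr 8 25 (.thr 24 56 (.thr 11 27 (.thr 9 10 (.dbl 12 6 48)))))))) (.rp 52 (.thr 36 32 (.thr 59 55 (.thr 8 25 (.thr 24 56 (.thr 48 12 (.thr 50 49 (.dbl 58 53 62))))))) (.rp 47 (.thr 36 32 (.thr 59 55 (.thr 8 25 (.thr 24 56 (.thr 48 12 (.thr 50 49 (.dbl 58 53 62))))))) (.rp 37 (.thr 36 32 (.thr 59 55 (.thr 8 25 (.thr 24 56 (.thr 48 12 (.thr 58 53 (.dbl 50 49 62))))))) (.rp 36 (.thr 59 55 (.thr 43 23 (.thr 8 25 (.thr 11 27 (.thr 9 10 (.thr 12 6 (.thr 46 29 (.thr 47 45 (.dbl 15 7 31))))))))) (.rp 32 (.thr 55 59 (.thr 53 52 (.thr 48 58 (.thr 37 5 (.thr 23 43 (.thr 39 7 (.dbl 15 26 27))))))) (.rp 5 (.thr 36 32 (.thr 59 55 (.thr 8 25 (.thr 24 56 (.thr 48 12 (.thr 50 49 (.dbl 58 53 62))))))) (.rp 4 (.thr 36 32 (.thr 59 55 (.thr 8 25 (.thr 24 56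 (.thr 48 12 (.thr 50 49 (.dbl 58 53 62))))))) .nd))))))))))))) (.rp 15 (.thr 55 59 (.thr 53 52 (.thr 48 58 (.thr 49 50 (.thr 33 18 (.thr 17 1 (.thr 25 29 (.dbl 37 5 13)))))))) .nd)))))))))))) .nd))))) .nd))))))))))) (.rp 29 (.str 60 (.nv (.thr 54 57 (.thr 62 61 (.thr 58 50 (.thr 26 10 (.thr 31 16 (.thr 15 47 (.dbl 48 37 53))))))) (.nv (.thr 54 57 (.thr 55 59 (.thr 53 52 (.thr 37 5 (.thr 47 32 (.thr 15 31 (.dbl 48 26 58))))))) (.nv (.thr 57 54 (.thr 61 62 (.thr 59 55 (.thr 53 49 (.dbl 58 48 56))))) (.rp 58 (.thr 55 59 (.thr 62 61 (.thr 38 4 (.thr 46 34 (.thr 12 25 (.thr 30 14 (.thr 45 15 (.dbl 44 28 47)))))))) (.rp 57 (.thr 55 59 (.thr 62 61 (.thr 38 4 (.thr 46 34 (.thr 30 14 (.thr 45 15 (.thr 44 47 (.dbl 12 25 28)))))))) (.rp 54 (.thr 55 59 (.thr 62 61 (.thr 38 4 (.thr 46 34 (.thr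 12 25 (.thr 30 14 (.thr 45 15 (.dbl 44 28 47)))))))) (.rp 53 (.thr 55 59 (.thr 62 61 (.thr 38 4 (.thr 46 34 (.thr 12 25 (.thr 30 14 (.thr 45 15 (.dbl 44 28 47)))))))) (.rp 48 (.thr 54 57 (.thr 55 59 (.thr 62 61 (.thr 38 4 (.thr 46 34 (.thr 14 30 (.dbl 50 26 58))))))) .nd))))))))) (.rp 25 (.str 57 (.nv (.thr 60 54 (.thr 61 62 (.thr 53 49 (.thr 37 5 (.thr 47 32 (.thr 15 31 (.dbl 48 26 58))))))) (.nv (.thr 59 55 (.thr 58 56 (.thr 26 10 (.thr 31 16 (.thr 15 47 (.dbl 48 37 53)))))) (.nv (.thr 60 54 (.thr 59 55 (.thr 58 56 (.thr 61 62 (.dbl 53 48 49))))) (.rp 60 (.str 3 (.nv (.thr 19 35 (.thr 59 55 (.thr 58 56 (.thr 48 53 (.thr 18 33 (.thr 16 17 (.dbl 26 10 31))))))) (.nv (.thr 59 55 (.thr 58 56 (.thr 26 10 (.thr 31 16 (.thr 15 47 (.dbl 48 37 53)))))) (.nv (.thr 19 35 (.thr 23 43 (.thr 27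 31 (.thr 55 59 (.dbl 39 7 15))))) (.rp 59 (.str 48 (.nv (.thr 53 58 (.thr 37 5 (.thr 15 26 (.dbl 47 31 32)))) (.nv (.thr 49 50 (.dbl 53 58 61)) (.rp 58 (.thr 19 35 (.thr 18 33 (.thr 16 17 (.thr 31 26 (.dbl 23 27 43))))) (.rp 53 (.thr 19 35 (.thr 18 33 (.thr 16 17 (.thr 31 26 (.dbl 23 27 43))))) (.rp 40 (.str 20 (.nv (.thr 53 58 (.thr 37 5 (.thr 15 26 (.dbl 47 31 32)))) (.nv (.thr 49 50 (.dbl 53 58 61)) (.rp 58 (.thr 49 50 (.thr 53 61 (.thr 37 5 (.thr 47 32 (.dbl 15 26 31))))) (.rp 53 (.thr 19 35 (.thr 18 33 (.thr 16 17 (.thr 23 43 (.dbl 31 26 27))))) (.rp 28 (.thr 19 35 (.thr 49 50 (.dbl 53 58 61))) (.rp 19 (.str 28 (.nv (.thr 16 24 (.thr 26 31 (.dbl 58 10 53))) (.nv (.thr 49 50 (.dbl 53 58 61)) (.rp 58 (.thr 16 24 (.thr 26 31 (.thr 49 50 (.thr 53 61 (.dbl 37 5 15))))) (.rp 53 (.thr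 24 16 (.thr 50 49 (.thr 18 33 (.thr 34 2 (.thr 46 38 (.dbl 12 29 36)))))) .nd))))) .nd))))))) (.rp 28 (.thr 19 35 (.thr 49 50 (.dbl 53 58 61))) (.rp 20 (.str 40 (.nv (.thr 53 58 (.thr 37 5 (.thr 15 26 (.dbl 47 31 32)))) (.nv (.thr 49 50 (.dbl 53 58 61)) (.rp 58 (.thr 19 35 (.thr 18 33 (.thr 16 17 (.thr 31 26 (.dbl 23 27 43))))) (.rp 53 (.thr 19 35 (.thr 18 33 (.thr 16 17 (.thr 31 26 (.dbl 23 27 43))))) (.rp 28 (.thr 19 35 (.thr 49 50 (.dbl 53 58 61))) (.rp 19 (.str 28 (.nv (.thr 53 58 (.thr 37 5 (.thr 15 26 (.dbl 47 31 32)))) (.nv (.thr 49 50 (.dbl 53 58 61)) (.rp 58 (.thr 49 50 (.thr 53 61 (.thr 37 5 (.thr 15 26 (.dbl 47 31 32))))) (.rp 53 (.thr 50 49 (.thr 18 33 (.thr 34 2 (.thr 38 46 (.thr 26 14 (.thr 31 16 (.dbl 15 37 47))))))) .nd))))) .nd))))))) (.rp 19 (.str 28 (.nv (.thr 53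 58 (.thr 37 5 (.thr 15 26 (.dbl 47 31 32)))) (.nv (.thr 49 50 (.dbl 53 58 61)) (.rp 58 (.thr 49 50 (.thr 53 61 (.thr 37 5 (.thr 15 26 (.dbl 47 31 32))))) (.rp 53 (.thr 50 49 (.thr 18 33 (.thr 34 2 (.thr 38 46 (.thr 26 14 (.thr 31 16 (.dbl 15 37 47))))))) (.rp 40 (.str 20 (.nv (.thr 16 24 (.thr 26 31 (.dbl 58 10 53))) (.nv (.thr 49 50 (.dbl 53 58 61)) (.rp 58 (.thr 16 24 (.thr 26 31 (.thr 49 50 (.thr 53 61 (.dbl 37 5 15))))) (.rp 53 (.thr 24 16 (.thr 50 49 (.thr 18 33 (.thr 34 2 (.thr 46 38 (.dbl 12 29 36)))))) .nd))))) (.rp 20 (.str 40 (.nv (.thr 53 58 (.thr 37 5 (.thr 15 26 (.dbl 47 31 32)))) (.nv (.thr 49 50 (.dbl 53 58 61)) (.rp 58 (.thr 49 50 (.thr 53 61 (.thr 37 5 (.thr 15 26 (.dbl 47 31 32))))) (.rp 53 (.thr 50 49 (.thr 18 33 (.thr 34 2 (.thr 38 46 (.thr 26 14 (.thr 31 16 (.dbl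 15 37 47))))))) .nd))))) .nd))))))) .nd))))))))) (.rp 55 (.thr 19 35 (.thr 23 43 (.thr 31 27 (.thr 26 16 (.thr 58 10 (.thr 48 53 (.dbl 15 37 47))))))) (.rp 40 (.str 20 (.nv (.thr 19 35 (.thr 59 55 (.thr 58 56 (.thr 48 53 (.thr 18 33 (.thr 16 17 (.dbl 26 10 31))))))) (.nv (.thr 59 55 (.thr 58 56 (.thr 26 10 (.thr 31 16 (.thr 15 47 (.dbl 48 37 53)))))) (.nv (.thr 19 35 (.thr 55 59 (.thr 23 43 (.thr 27 31 (.dbl 39 7 15))))) (.rp 59 (.str 48 (.nv (.thr 53 58 (.thr 37 5 (.thr 15 26 (.dbl 47 31 32)))) (.nv (.thr 49 50 (.dbl 53 58 61)) (.rp 58 (.thr 49 50 (.thr 53 61 (.thr 37 5 (.thr 47 32 (.dbl 15 26 31))))) (.rp 53 (.thr 19 35 (.thr 18 33 (.thr 16 17 (.thr 23 43 (.dbl 31 26 27))))) (.rp 28 (.thr 19 35 (.thr 49 50 (.dbl 53 58 61))) (.rp 19 (.str 28 (.nv (.thr 16 24 (.thr 26 31 (.dbl 58 10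 53))) (.nv (.thr 49 50 (.dbl 53 58 61)) (.rp 58 (.thr 16 24 (.thr 26 31 (.thr 49 50 (.thr 53 61 (.dbl 37 5 15))))) (.rp 53 (.thr 24 16 (.thr 50 49 (.thr 18 33 (.thr 34 2 (.thr 46 38 (.dbl 12 29 36)))))) .nd))))) .nd))))))) (.rp 55 (.thr 19 35 (.thr 23 43 (.thr 31 27 (.thr 26 16 (.thr 58 10 (.thr 48 53 (.dbl 15 37 47))))))) (.rp 31 (.thr 59 55 (.thr 43 23 (.thr 27 11 (.thr 39 15 (.dbl 35 19 47))))) (.rp 19 (.str 28 (.nv (.thr 59 55 (.thr 58 56 (.thr 26 10 (.dbl 16 24 31)))) (.nv (.thr 16 24 (.thr 26 31 (.thr 59 55 (.dbl 58 10 56)))) (.rp 59 (.thr 16 24 (.thr 26 31 (.thr 58 10 (.thr 48 53 (.thr 50 49 (.thr 18 33 (.thr 34 2 (.dbl 38 14 46)))))))) (.rp 58 (.thr 24 16 (.thr 55 59 (.thr 23 43 (.thr 4 38 (.thr 36 52 (.thr 7 39 (.thr 6 5 (.dbl 12 9 48)))))))) (.rp 56 (.thr 24 16 (.thr 55 59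 (.thr 4 38 (.thr 36 52 (.thr 48 12 (.thr 49 50 (.dbl 53 58 61))))))) (.rp 55 (.thr 16 24 (.thr 26 31 (.thr 58 10 (.thr 48 53 (.thr 50 49 (.thr 18 33 (.thr 34 2 (.dbl 38 14 46)))))))) (.rp 31 (.thr 24 16 (.thr 55 59 (.thr 4 38 (.thr 36 52 (.thr 48 12 (.thr 49 50 (.dbl 53 58 61))))))) (.rp 26 (.thr 24 16 (.thr 55 59 (.thr 4 38 (.thr 36 52 (.thr 48 12 (.thr 53 58 (.dbl 49 50 61))))))) (.rp 24 (.thr 55 59 (.thr 23 43 (.thr 4 38 (.thr 7 39 (.thr 6 5 (.thr 12 9 (.thr 29 46 (.thr 31 30 (.dbl 15 11 47))))))))) (.rp 16 (.thr 59 55 (.thr 58 56 (.thr 48 53 (.thr 26 10 (.thr 43 23 (.thr 27 11 (.dbl 15 37 39))))))) (.rp 10 (.thr 24 16 (.thr 55 59 (.thr 4 38 (.thr 36 52 (.thr 48 12 (.thr 49 50 (.dbl 53 58 61))))))) (.rp 8 (.thr 24 16 (.thr 55 59 (.thr 4 38 (.thr 36 52 (.thr 48 12 (.thr 49 50 (.dbl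 53 58 61))))))) .nd))))))))))))) .nd)))))))) (.rp 31 (.thr 43 23 (.thr 59 55 (.thr 27 11 (.thr 39 15 (.dbl 35 19 47))))) (.rp 20 (.str 40 (.nv (.thr 19 35 (.thr 59 55 (.thr 58 56 (.thr 48 53 (.thr 18 33 (.thr 16 17 (.dbl 26 10 31))))))) (.nv (.thr 59 55 (.thr 58 56 (.thr 26 10 (.thr 31 16 (.thr 15 47 (.dbl 48 37 53)))))) (.nv (.thr 19 35 (.thr 55 59 (.thr 23 43 (.thr 27 31 (.dbl 39 7 15))))) (.rp 59 (.str 48 (.nv (.thr 53 58 (.thr 37 5 (.thr 15 26 (.dbl 47 31 32)))) (.nv (.thr 49 50 (.dbl 53 58 61)) (.rp 58 (.thr 19 35 (.thr 18 33 (.thr 16 17 (.thr 31 26 (.dbl 23 27 43))))) (.rp 53 (.thr 19 35 (.thr 18 33 (.thr 16 17 (.thr 31 26 (.dbl 23 27 43))))) (.rp 28 (.thr 19 35 (.thr 49 50 (.dbl 53 58 61))) (.rp 19 (.str 28 (.nv (.thr 53 58 (.thr 37 5 (.thr 15 26 (.dbl 47 31 32)))) (.nv (.thr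 49 50 (.dbl 53 58 61)) (.rp 58 (.thr 49 50 (.thr 53 61 (.thr 37 5 (.thr 15 26 (.dbl 47 31 32))))) (.rp 53 (.thr 50 49 (.thr 18 33 (.thr 34 2 (.thr 38 46 (.thr 26 14 (.thr 31 16 (.dbl 15 37 47))))))) .nd))))) .nd))))))) (.rp 55 (.thr 19 35 (.thr 23 43 (.thr 31 27 (.thr 26 16 (.thr 58 10 (.thr 48 53 (.dbl 15 37 47))))))) (.rp 31 (.thr 59 55 (.thr 43 23 (.thr 27 11 (.thr 39 15 (.dbl 35 19 47))))) (.rp 19 (.str 28 (.nv (.thr 43 23 (.thr 59 55 (.thr 27 11 (.thr 58 56 (.thr 26 10 (.thr 31 16 (.dbl 15 39 47))))))) (.nv (.thr 59 55 (.thr 58 56 (.thr 48 53 (.thr 26 10 (.thr 15 37 (.thr 27 39 (.dbl 11 7 43))))))) (.nv (.thr 59 55 (.thr 58 56 (.thr 26 10 (.thr 31 16 (.thr 15 47 (.dbl 48 37 53)))))) (.rp 59 (.str 48 (.nv (.thr 53 58 (.thr 37 5 (.thr 15 26 (.dbl 47 31 32)))) (.nv (.thr 49 50 (.dbl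 53 58 61)) (.rp 58 (.thr 49 50 (.thr 53 61 (.thr 37 5 (.thr 15 26 (.dbl 47 31 32))))) (.rp 53 (.thr 50 49 (.thr 18 33 (.thr 34 2 (.thr 38 46 (.thr 26 14 (.thr 31 16 (.dbl 15 37 47))))))) .nd))))) (.rp 58 (.thr 23 43 (.thr 55 59 (.thr 7 39 (.thr 4 38 (.thr 6 5 (.thr 12 9 (.thr 29 46 (.thr 31 30 (.dbl 15 11 47))))))))) (.rp 56 (.thr 23 43 (.thr 55 59 (.thr 7 39 (.thr 4 38 (.thr 6 5 (.thr 12 9 (.thr 29 46 (.thr 31 30 (.dbl 15 11 47))))))))) (.rp 55 (.str 48 (.nv (.thr 53 58 (.thr 37 5 (.thr 15 26 (.dbl 47 31 32)))) (.nv (.thr 49 50 (.dbl 53 58 61)) (.rp 58 (.thr 49 50 (.thr 53 61 (.thr 37 5 (.thr 15 26 (.dbl 47 31 32))))) (.rp 53 (.thr 50 49 (.thr 18 33 (.thr 34 2 (.thr 38 46 (.thr 26 14 (.thr 31 16 (.dbl 15 37 47))))))) .nd))))) (.rp 52 (.thr 23 43 (.thr 55 59 (.thr 7 39 (.thr 4 38 (.thr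 6 5 (.thr 12 9 (.thr 29 46 (.thr 31 30 (.dbl 15 11 47))))))))) (.rp 48 (.thr 23 43 (.thr 55 59 (.thr 7 39 (.thr 4 38 (.thr 6 5 (.thr 12 9 (.thr 29 46 (.thr 31 30 (.dbl 15 11 47))))))))) (.rp 26 .ext (.rp 15 (.thr 59 55 (.thr 58 56 (.thr 48 53 (.thr 50 49 (.thr 18 33 (.thr 34 2 (.thr 38 46 (.dbl 26 10 14)))))))) (.rp 10 (.thr 59 55 (.thr 58 56 (.thr 48 53 (.thr 50 49 (.thr 18 33 (.thr 34 2 (.thr 46 38 (.thr 29 12 (.thr 30 31 (.dbl 62 14 54)))))))))) .nd))))))))))))) .nd)))))))) (.rp 19 (.str 28 (.nv (.thr 59 55 (.thr 58 56 (.thr 48 53 (.thr 26 10 (.thr 15 37 (.thr 27 39 (.dbl 11 7 43))))))) (.nv (.thr 23 43 (.thr 55 59 (.thr 38 4 (.thr 39 7 (.thr 37 36 (.thr 47 32 (.dbl 15 27 31))))))) (.nv (.thr 59 55 (.thr 58 56 (.thr 26 10 (.thr 31 16 (.thr 15 47 (.dbl 48 37 53)))))) (.rp 59 (.str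 48 (.nv (.thr 53 58 (.thr 37 5 (.thr 15 26 (.dbl 47 31 32)))) (.nv (.thr 49 50 (.dbl 53 58 61)) (.rp 58 (.thr 49 50 (.thr 53 61 (.thr 37 5 (.thr 15 26 (.dbl 47 31 32))))) (.rp 53 (.thr 50 49 (.thr 18 33 (.thr 34 2 (.thr 38 46 (.thr 26 14 (.thr 31 16 (.dbl 15 37 47))))))) (.rp 40 (.str 20 (.nv (.thr 16 24 (.thr 26 31 (.dbl 58 10 53))) (.nv (.thr 49 50 (.dbl 53 58 61)) (.rp 58 (.thr 16 24 (.thr 26 31 (.thr 49 50 (.thr 53 61 (.dbl 37 5 15))))) (.rp 53 (.thr 24 16 (.thr 50 49 (.thr 18 33 (.thr 34 2 (.thr 46 38 (.dbl 12 29 36)))))) .nd))))) (.rp 20 (.str 40 (.nv (.thr 53 58 (.thr 37 5 (.thr 15 26 (.dbl 47 31 32)))) (.nv (.thr 49 50 (.dbl 53 58 61)) (.rp 58 (.thr 49 50 (.thr 53 61 (.thr 37 5 (.thr 15 26 (.dbl 47 31 32))))) (.rp 53 (.thr 50 49 (.thr 18 33 (.thr 34 2 (.thr 38 46 (.thr 26 14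 (.thr 31 16 (.dbl 15 37 47))))))) .nd))))) .nd))))))) (.rp 55 (.str 48 (.nv (.thr 53 58 (.thr 37 5 (.thr 15 26 (.dbl 47 31 32)))) (.nv (.thr 49 50 (.dbl 53 58 61)) (.rp 58 (.thr 49 50 (.thr 53 61 (.thr 37 5 (.thr 15 26 (.dbl 47 31 32))))) (.rp 53 (.thr 50 49 (.thr 18 33 (.thr 34 2 (.thr 38 46 (.thr 26 14 (.thr 31 16 (.dbl 15 37 47))))))) (.rp 40 (.str 20 (.nv (.thr 16 24 (.thr 26 31 (.dbl 58 10 53))) (.nv (.thr 49 50 (.dbl 53 58 61)) (.rp 58 (.thr 16 24 (.thr 26 31 (.thr 49 50 (.thr 53 61 (.dbl 37 5 15))))) (.rp 53 (.thr 24 16 (.thr 50 49 (.thr 18 33 (.thr 34 2 (.thr 46 38 (.dbl 12 29 36)))))) .nd))))) (.rp 20 (.str 40 (.nv (.thr 53 58 (.thr 37 5 (.thr 15 26 (.dbl 47 31 32)))) (.nv (.thr 49 50 (.dbl 53 58 61)) (.rp 58 (.thr 49 50 (.thr 53 61 (.thr 37 5 (.thr 15 26 (.dbl 47 31 32)))))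 (.rp 53 (.thr 50 49 (.thr 18 33 (.thr 34 2 (.thr 38 46 (.thr 26 14 (.thr 31 16 (.dbl 15 37 47))))))) .nd))))) .nd))))))) (.rp 52 (.thr 23 43 (.thr 55 59 (.thr 7 39 (.thr 4 38 (.thr 6 5 (.thr 12 9 (.thr 29 46 (.thr 31 30 (.dbl 15 11 47))))))))) (.rp 48 (.thr 23 43 (.thr 55 59 (.thr 7 39 (.thr 4 38 (.thr 6 5 (.thr 12 9 (.thr 29 46 (.thr 31 30 (.dbl 15 11 47))))))))) (.rp 40 (.str 20 (.nv (.thr 59 55 (.thr 58 56 (.thr 26 10 (.dbl 16 24 31)))) (.nv (.thr 16 24 (.thr 26 31 (.thr 59 55 (.dbl 58 10 56)))) (.rp 59 (.thr 16 24 (.thr 26 31 (.thr 58 10 (.thr 48 53 (.thr 50 49 (.thr 18 33 (.thr 34 2 (.dbl 38 14 46)))))))) (.rp 58 (.thr 24 16 (.thr 55 59 (.thr 23 43 (.thr 4 38 (.thr 36 52 (.thr 7 39 (.thr 6 5 (.dbl 12 9 48)))))))) (.rp 56 (.thr 24 16 (.thr 55 59 (.thr 4 38 (.thr 36 52 (.thr 48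 12 (.thr 49 50 (.dbl 53 58 61))))))) (.rp 55 (.thr 16 24 (.thr 26 31 (.thr 58 10 (.thr 48 53 (.thr 50 49 (.thr 18 33 (.thr 34 2 (.dbl 38 14 46)))))))) (.rp 31 (.thr 24 16 (.thr 55 59 (.thr 4 38 (.thr 36 52 (.thr 48 12 (.thr 49 50 (.dbl 53 58 61))))))) (.rp 26 (.thr 24 16 (.thr 55 59 (.thr 4 38 (.thr 36 52 (.thr 48 12 (.thr 53 58 (.dbl 49 50 61))))))) (.rp 24 (.thr 55 59 (.thr 23 43 (.thr 4 38 (.thr 7 39 (.thr 6 5 (.thr 12 9 (.thr 29 46 (.thr 31 30 (.dbl 15 11 47))))))))) (.rp 16 (.thr 59 55 (.thr 58 56 (.thr 48 53 (.thr 26 10 (.thr 43 23 (.thr 27 11 (.dbl 15 37 39))))))) (.rp 10 (.thr 24 16 (.thr 55 59 (.thr 4 38 (.thr 36 52 (.thr 48 12 (.thr 49 50 (.dbl 53 58 61))))))) (.rp 8 (.thr 24 16 (.thr 55 59 (.thr 4 38 (.thr 36 52 (.thr 48 12 (.thr 49 50 (.dbl 53 58 61))))))) .nd)))))))))))))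 (.rp 37 (.thr 43 23 (.thr 59 55 (.thr 58 56 (.thr 27 11 (.thr 26 10 (.thr 31 16 (.dbl 15 39 47))))))) (.rp 20 .ext (.rp 15 (.thr 59 55 (.thr 58 56 (.thr 48 53 (.thr 50 49 (.thr 18 33 (.thr 34 2 (.thr 38 46 (.dbl 26 10 14)))))))) .nd)))))))))))) .nd)))))))))) (.rp 58 (.thr 60 54 (.thr 55 59 (.thr 62 61 (.thr 38 4 (.thr 46 34 (.thr 12 29 (.thr 30 14 (.thr 45 15 (.dbl 44 28 47))))))))) (.rp 53 (.thr 59 55 (.thr 58 56 (.thr 26 10 (.thr 31 16 (.thr 15 47 (.thr 27 39 (.thr 43 11 (.dbl 23 3 19)))))))) (.rp 48 (.thr 60 54 (.thr 55 59 (.thr 62 61 (.thr 38 4 (.thr 46 34 (.thr 12 29 (.thr 30 14 (.thr 45 15 (.dbl 44 28 47))))))))) (.rp 28 (.str 19 (.nv (.thr 59 55 (.thr 58 56 (.thr 48 53 (.thr 50 49 (.dbl 54 60 62))))) (.nv (.thr 3 35 (.thr 23 43 (.thr 27 31 (.thr 55 59 (.dbl 39 7 15))))) (.rp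 59 (.thr 60 54 (.thr 61 62 (.thr 53 49 (.thr 37 5 (.thr 47 32 (.thr 15 31 (.dbl 48 26 58))))))) (.rp 55 (.thr 60 54 (.thr 61 62 (.thr 53 49 (.thr 37 5 (.thr 47 32 (.thr 15 31 (.dbl 48 26 58))))))) (.rp 3 (.thr 60 54 (.thr 59 55 (.thr 58 56 (.thr 53 48 (.dbl 61 49 62))))) .nd)))))) (.rp 26 (.thr 60 54 (.thr 59 55 (.thr 61 62 (.thr 53 49 (.dbl 58 48 56))))) (.rp 19 (.str 28 (.nv (.thr 60 54 (.thr 12 44 (.thr 29 46 (.thr 30 31 (.thr 45 15 (.dbl 61 13 62)))))) (.nv (.thr 59 55 (.thr 58 56 (.thr 26 10 (.thr 31 16 (.thr 15 47 (.dbl 48 37 53)))))) (.nv (.thr 55 59 (.thr 60 54 (.thr 38 4 (.thr 12 44 (.dbl 46 29 34))))) (.rp 60 (.str 3 (.nv (.thr 59 55 (.thr 58 56 (.thr 48 53 (.thr 26 10 (.thr 15 37 (.thr 27 39 (.dbl 11 7 43))))))) (.nv (.thr 23 43 (.thr 55 59 (.thr 38 4 (.thr 39 7 (.thr 37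 36 (.thr 47 32 (.dbl 15 27 31))))))) (.nv (.thr 59 55 (.thr 58 56 (.thr 26 10 (.thr 31 16 (.thr 15 47 (.dbl 48 37 53)))))) (.rp 59 (.str 48 (.nv (.thr 53 58 (.thr 37 5 (.thr 15 26 (.dbl 47 31 32)))) (.nv (.thr 49 50 (.dbl 53 58 61)) (.rp 58 (.thr 49 50 (.thr 53 61 (.thr 37 5 (.thr 15 26 (.dbl 47 31 32))))) (.rp 53 (.thr 50 49 (.thr 18 33 (.thr 34 2 (.thr 38 46 (.thr 26 14 (.thr 31 16 (.dbl 15 37 47))))))) (.rp 40 (.str 20 (.nv (.thr 16 24 (.thr 26 31 (.dbl 58 10 53))) (.nv (.thr 49 50 (.dbl 53 58 61)) (.rp 58 (.thr 16 24 (.thr 26 31 (.thr 49 50 (.thr 53 61 (.dbl 37 5 15))))) (.rp 53 (.thr 24 16 (.thr 50 49 (.thr 18 33 (.thr 34 2 (.thr 46 38 (.dbl 12 29 36)))))) .nd))))) (.rp 20 (.str 40 (.nv (.thr 53 58 (.thr 37 5 (.thr 15 26 (.dbl 47 31 32)))) (.nv (.thr 49 50 (.dbl 53 58 61)) (.rp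 58 (.thr 49 50 (.thr 53 61 (.thr 37 5 (.thr 15 26 (.dbl 47 31 32))))) (.rp 53 (.thr 50 49 (.thr 18 33 (.thr 34 2 (.thr 38 46 (.thr 26 14 (.thr 31 16 (.dbl 15 37 47))))))) .nd))))) .nd))))))) (.rp 55 (.str 48 (.nv (.thr 53 58 (.thr 37 5 (.thr 15 26 (.dbl 47 31 32)))) (.nv (.thr 49 50 (.dbl 53 58 61)) (.rp 58 (.thr 49 50 (.thr 53 61 (.thr 37 5 (.thr 15 26 (.dbl 47 31 32))))) (.rp 53 (.thr 50 49 (.thr 18 33 (.thr 34 2 (.thr 38 46 (.thr 26 14 (.thr 31 16 (.dbl 15 37 47))))))) (.rp 40 (.str 20 (.nv (.thr 16 24 (.thr 26 31 (.dbl 58 10 53))) (.nv (.thr 49 50 (.dbl 53 58 61)) (.rp 58 (.thr 16 24 (.thr 26 31 (.thr 49 50 (.thr 53 61 (.dbl 37 5 15))))) (.rp 53 (.thr 24 16 (.thr 50 49 (.thr 18 33 (.thr 34 2 (.thr 46 38 (.dbl 12 29 36)))))) .nd))))) (.rp 20 (.str 40 (.nv (.thr 53 58 (.thr 37 5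 (.thr 15 26 (.dbl 47 31 32)))) (.nv (.thr 49 50 (.dbl 53 58 61)) (.rp 58 (.thr 49 50 (.thr 53 61 (.thr 37 5 (.thr 15 26 (.dbl 47 31 32))))) (.rp 53 (.thr 50 49 (.thr 18 33 (.thr 34 2 (.thr 38 46 (.thr 26 14 (.thr 31 16 (.dbl 15 37 47))))))) .nd))))) .nd))))))) (.rp 52 (.thr 23 43 (.thr 55 59 (.thr 7 39 (.thr 4 38 (.thr 6 5 (.thr 12 9 (.thr 29 46 (.thr 31 30 (.dbl 15 11 47))))))))) (.rp 48 (.thr 23 43 (.thr 55 59 (.thr 7 39 (.thr 4 38 (.thr 6 5 (.thr 12 9 (.thr 29 46 (.thr 31 30 (.dbl 15 11 47))))))))) (.rp 40 (.str 20 (.nv (.thr 59 55 (.thr 58 56 (.thr 26 10 (.dbl 16 24 31)))) (.nv (.thr 16 24 (.thr 26 31 (.thr 59 55 (.dbl 58 10 56)))) (.rp 59 (.thr 16 24 (.thr 26 31 (.thr 58 10 (.thr 48 53 (.thr 50 49 (.thr 18 33 (.thr 34 2 (.dbl 38 14 46)))))))) (.rp 58 (.thr 24 16 (.thr 55 59 (.thr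 23 43 (.thr 4 38 (.thr 36 52 (.thr 7 39 (.thr 6 5 (.dbl 12 9 48)))))))) (.rp 56 (.thr 24 16 (.thr 55 59 (.thr 4 38 (.thr 36 52 (.thr 48 12 (.thr 49 50 (.dbl 53 58 61))))))) (.rp 55 (.thr 16 24 (.thr 26 31 (.thr 58 10 (.thr 48 53 (.thr 50 49 (.thr 18 33 (.thr 34 2 (.dbl 38 14 46)))))))) (.rp 31 (.thr 24 16 (.thr 55 59 (.thr 4 38 (.thr 36 52 (.thr 48 12 (.thr 49 50 (.dbl 53 58 61))))))) (.rp 26 (.thr 24 16 (.thr 55 59 (.thr 4 38 (.thr 36 52 (.thr 48 12 (.thr 53 58 (.dbl 49 50 61))))))) (.rp 24 (.thr 55 59 (.thr 23 43 (.thr 4 38 (.thr 7 39 (.thr 6 5 (.thr 12 9 (.thr 29 46 (.thr 31 30 (.dbl 15 11 47))))))))) (.rp 16 (.thr 59 55 (.thr 58 56 (.thr 48 53 (.thr 26 10 (.thr 43 23 (.thr 27 11 (.dbl 15 37 39))))))) (.rp 10 (.thr 24 16 (.thr 55 59 (.thr 4 38 (.thr 36 52 (.thr 48 12 (.thr 49 50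 (.dbl 53 58 61))))))) (.rp 8 (.thr 24 16 (.thr 55 59 (.thr 4 38 (.thr 36 52 (.thr 48 12 (.thr 49 50 (.dbl 53 58 61))))))) .nd))))))))))))) (.rp 37 (.thr 43 23 (.thr 59 55 (.thr 58 56 (.thr 27 11 (.thr 26 10 (.thr 31 16 (.dbl 15 39 47))))))) (.rp 20 .ext (.rp 15 (.thr 59 55 (.thr 58 56 (.thr 48 53 (.thr 50 49 (.thr 18 33 (.thr 34 2 (.thr 38 46 (.dbl 26 10 14)))))))) .nd)))))))))))) .nd))))) .nd))))))))))) (.rp 12 (.str 60 (.nv (.thr 54 57 (.thr 62 61 (.thr 58 50 (.thr 26 10 (.thr 31 16 (.thr 15 47 (.dbl 48 37 53))))))) (.nv (.thr 54 57 (.thr 55 59 (.thr 53 52 (.thr 37 5 (.thr 47 32 (.thr 15 31 (.dbl 48 26 58))))))) (.nv (.thr 57 54 (.thr 61 62 (.thr 53 49 (.thr 59 55 (.dbl 58 48 56))))) (.rp 58 (.thr 62 61 (.thr 57 54 (.str 38 (.nv (.dbl 55 4 59) (.rp 59 (.thr 46 34 (.thr 30 14 (.thr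 15 45 (.thr 39 27 (.thr 37 36 (.dbl 47 31 32)))))) (.rp 55 (.thr 46 34 (.thr 30 14 (.thr 15 45 (.thr 39 27 (.thr 37 36 (.dbl 47 31 32)))))) (.rp 8 (.thr 4 55 (.thr 46 34 (.thr 30 14 (.thr 15 45 (.thr 39 27 (.thr 37 36 (.dbl 47 31 32))))))) (.rp 4 (.str 8 (.nv (.dbl 59 25 55) (.rp 59 (.thr 46 34 (.thr 30 14 (.thr 15 45 (.thr 47 31 (.thr 37 32 (.dbl 39 27 36)))))) (.rp 55 (.thr 46 34 (.thr 25 59 (.thr 29 17 (.thr 30 14 (.thr 15 45 (.dbl 31 28 47)))))) (.rp 25 (.thr 46 34 (.thr 30 14 (.thr 15 45 (.thr 47 31 (.thr 37 32 (.dbl 39 27 36)))))) .nd))))) .nd)))))))) (.rp 57 (.thr 61 62 (.str 25 (.nv (.dbl 59 8 55) (.rp 59 (.thr 29 17 (.thr 45 13 (.thr 15 30 (.thr 27 39 (.thr 26 24 (.dbl 31 16 47)))))) (.rp 55 (.thr 29 17 (.thr 45 13 (.thr 15 30 (.thr 27 39 (.thr 26 24 (.dbl 31 16 47)))))) (.rp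 8 (.str 4 (.nv (.dbl 55 38 59) (.rp 59 (.thr 29 17 (.thr 45 13 (.thr 38 55 (.thr 46 34 (.thr 47 44 (.dbl 15 30 31)))))) (.rp 55 (.thr 29 17 (.thr 45 13 (.thr 15 30 (.thr 27 39 (.thr 31 47 (.dbl 26 16 24)))))) (.rp 38 (.thr 29 17 (.thr 45 13 (.thr 15 30 (.thr 27 39 (.thr 31 47 (.dbl 26 16 24)))))) .nd))))) (.rp 4 (.thr 8 59 (.thr 29 17 (.thr 45 13 (.thr 15 30 (.thr 27 39 (.thr 26 24 (.dbl 31 16 47))))))) .nd))))))) (.rp 54 (.thr 62 61 (.str 38 (.nv (.dbl 55 4 59) (.rp 59 (.thr 46 34 (.thr 30 14 (.thr 15 45 (.thr 39 27 (.thr 37 36 (.dbl 47 31 32)))))) (.rp 55 (.thr 46 34 (.thr 30 14 (.thr 15 45 (.thr 39 27 (.thr 37 36 (.dbl 47 31 32)))))) (.rp 8 (.thr 4 55 (.thr 46 34 (.thr 30 14 (.thr 15 45 (.thr 39 27 (.thr 37 36 (.dbl 47 31 32))))))) (.rp 4 (.str 8 (.nv (.dbl 59 25 55) (.rp 59 (.thr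 46 34 (.thr 30 14 (.thr 15 45 (.thr 39 27 (.thr 47 31 (.dbl 37 32 36)))))) (.rp 55 (.thr 46 34 (.thr 30 14 (.thr 25 59 (.thr 29 17 (.thr 31 28 (.dbl 15 45 47)))))) (.rp 25 (.thr 46 34 (.thr 30 14 (.thr 15 45 (.thr 39 27 (.thr 47 31 (.dbl 37 32 36)))))) .nd))))) .nd))))))) (.rp 53 (.thr 61 62 (.thr 54 57 (.str 25 (.nv (.dbl 59 8 55) (.rp 59 (.thr 29 17 (.thr 45 13 (.thr 15 30 (.thr 27 39 (.thr 26 24 (.dbl 31 16 47)))))) (.rp 55 (.thr 29 17 (.thr 45 13 (.thr 15 30 (.thr 27 39 (.thr 26 24 (.dbl 31 16 47)))))) (.rp 8 (.str 4 (.nv (.dbl 55 38 59) (.rp 59 (.thr 29 17 (.thr 38 55 (.thr 46 34 (.thr 45 13 (.thr 15 30 (.dbl 47 31 44)))))) (.rp 55 (.thr 29 17 (.thr 45 13 (.thr 15 30 (.thr 31 47 (.thr 26 16 (.dbl 27 24 39)))))) (.rp 38 (.thr 29 17 (.thr 45 13 (.thr 15 30 (.thr 31 47 (.thr 26 16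 (.dbl 27 24 39)))))) .nd))))) (.rp 4 (.thr 8 59 (.thr 29 17 (.thr 45 13 (.thr 15 30 (.thr 27 39 (.thr 26 24 (.dbl 31 16 47))))))) .nd)))))))) (.rp 48 (.thr 57 54 (.thr 61 62 (.thr 53 49 (.thr 59 55 (.thr 58 56 (.thr 8 25 (.thr 37 5 (.thr 10 26 (.thr 11 9 (.thr 27 43 (.thr 15 39 (.dbl 47 31 32)))))))))))) (.rp 8 (.str 4 (.nv (.dbl 55 38 59) (.rp 59 (.thr 62 61 (.thr 54 57 (.thr 58 50 (.thr 53 48 (.dbl 55 38 52))))) (.rp 55 (.thr 61 62 (.thr 57 54 (.thr 53 49 (.thr 37 5 (.thr 47 32 (.thr 15 31 (.dbl 48 26 58))))))) (.rp 38 (.thr 62 61 (.thr 54 57 (.thr 55 59 (.thr 53 52 (.dbl 58 48 50))))) .nd))))) (.rp 4 (.str 8 (.nv (.dbl 59 25 55) (.rp 59 (.thr 62 61 (.thr 54 57 (.thr 58 50 (.thr 26 10 (.thr 31 16 (.thr 15 47 (.dbl 48 37 53))))))) (.rp 55 (.thr 61 62 (.thr 57 54 (.thr 53 49 (.thr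 58 48 (.dbl 59 25 56))))) (.rp 25 (.thr 61 62 (.thr 57 54 (.thr 59 55 (.thr 58 56 (.dbl 53 48 49))))) .nd))))) .nd))))))))))) (.rp 8 (.thr 55 59 (.thr 38 4 (.thr 12 25 (.dbl 46 29 34)))) (.rp 3 (.str 60 (.nv (.thr 54 57 (.thr 55 59 (.thr 53 52 (.thr 58 48 (.dbl 62 50 61))))) (.nv (.thr 55 59 (.thr 38 4 (.thr 46 34 (.dbl 12 25 29)))) (.rp 59 (.thr 54 57 (.thr 62 61 (.thr 58 50 (.thr 26 10 (.thr 31 16 (.thr 15 47 (.dbl 48 37 53))))))) (.rp 55 (.thr 54 57 (.thr 62 61 (.thr 58 50 (.thr 26 10 (.thr 31 16 (.thr 15 47 (.dbl 48 37 53))))))) (.rp 25 (.thr 57 54 (.thr 59 55 (.thr 58 56 (.thr 53 48 (.dbl 61 49 62))))) (.rp 2 (.str 1 (.nv (.thr 54 57 (.thr 55 59 (.thr 53 52 (.thr 58 48 (.dbl 62 50 61))))) (.nv (.thr 59 55 (.thr 25 8 (.thr 29 17 (.dbl 12 38 46)))) (.rp 59 (.thr 57 54 (.thr 61 62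 (.thr 53 49 (.thr 37 5 (.thr 47 32 (.thr 15 31 (.dbl 48 26 58))))))) (.rp 55 (.thr 57 54 (.thr 61 62 (.thr 53 49 (.thr 37 5 (.thr 47 32 (.thr 15 31 (.dbl 48 26 58))))))) (.rp 25 (.thr 59 55 (.thr 57 54 (.thr 61 62 (.thr 53 49 (.dbl 58 48 56))))) .nd)))))) (.rp 1 (.str 2 (.nv (.thr 54 57 (.thr 55 59 (.thr 53 52 (.thr 58 48 (.dbl 62 50 61))))) (.nv (.thr 55 59 (.thr 38 4 (.thr 46 34 (.dbl 12 25 29)))) (.rp 59 (.thr 54 57 (.thr 62 61 (.thr 58 50 (.thr 26 10 (.thr 31 16 (.thr 15 47 (.dbl 48 37 53))))))) (.rp 55 (.thr 54 57 (.thr 62 61 (.thr 58 50 (.thr 26 10 (.thr 31 16 (.thr 15 47 (.dbl 48 37 53))))))) (.rp 25 (.thr 59 55 (.thr 57 54 (.thr 58 56 (.thr 61 62 (.dbl 53 48 49))))) .nd)))))) .nd)))))))) .nd)))))))))))))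

theorem w467 : WinAt (9223376434903384064, 2199027449857) :=
  chF (K := [(9243660225412595720, 1152925112383569921), (9369743423061360648, 1152923703669424129), (9369744522572988424, 1152923703736532993)]) (kc w466 (kc w465 (kc w464 kn))) c467 9223376434903384064 2199027449857 0
    [1152923703634296840] (by decide +kernel) (by decide +kernel)

/-- A certificate. -/
noncomputable def c468 : Ct := (.str 12 (.nv (.thr 46 29 (.thr 38 34 (.thr 51 25 (.dbl 55 4 59)))) (.nv (.thr 29 46 (.thr 25 17 (.thr 59 8 (.dbl 51 38 55)))) (.rp 59 (.thr 46 29 (.str 14 (.nv (.thr 38 34 (.thr 26 50 (.thr 58 10 (.thr 48 53 (.dbl 15 13 37))))) (.nv (.thr 15 13 (.thr 47 31 (.thr 30 62 (.dbl 45 44 60)))) (.rp 27 (.str 11 (.nv (.thr 38 34 (.thr 26 50 (.thr 10 58 (.thr 9 8 (.dbl 6 2 3))))) (.nv (.thr 15 13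 (.thr 30 62 (.thr 47 31 (.dbl 45 44 60)))) (.rp 62 (.thr 15 13 (.thr 31 47 (.thr 26 16 (.dbl 38 34 50)))) .nd)))) (.rp 15 (.thr 62 30 (.thr 60 61 (.thr 38 34 (.thr 51 25 (.thr 54 57 (.dbl 50 26 58)))))) (.rp 13 (.thr 38 34 (.thr 26 50 (.thr 58 10 (.thr 31 16 (.thr 15 47 (.dbl 48 37 53)))))) (.rp 11 (.str 27 (.nv (.thr 38 34 (.thr 26 50 (.dbl 25 24 51))) (.nv (.thr 30 62 (.thr 15 13 (.thr 45 60 (.dbl 47 31 44)))) (.nv (.thr 15 13 (.thr 38 34 (.dbl 51 25 39))) .nd)))) .nd)))))))) (.rp 55 (.str 14 (.nv (.thr 15 13 (.thr 31 47 (.thr 26 16 (.thr 48 37 (.dbl 58 10 53))))) (.nv (.thr 46 29 (.thr 38 34 (.thr 26 50 (.thr 58 10 (.thr 48 53 (.dbl 15 13 37)))))) (.nv (.thr 15 13 (.thr 46 29 (.thr 47 31 (.thr 30 62 (.dbl 45 44 60))))) (.rp 15 (.thr 46 29 (.thr 62 30 (.thr 60 61 (.thr 38 34 (.thr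 51 25 (.thr 54 57 (.dbl 50 26 58))))))) (.rp 13 (.thr 46 29 (.thr 38 34 (.thr 26 50 (.thr 58 10 (.thr 31 16 (.thr 15 47 (.dbl 48 37 53))))))) .nd)))))) (.rp 51 (.thr 29 46 (.str 15 (.nv (.thr 17 25 (.thr 13 14 (.thr 31 47 (.thr 45 61 (.dbl 30 28 60))))) (.nv (.thr 47 31 (.thr 37 32 (.thr 53 5 (.dbl 48 26 58)))) (.rp 47 (.thr 13 14 (.thr 45 61 (.thr 30 60 (.thr 31 28 (.thr 26 16 (.thr 58 10 (.dbl 48 37 53))))))) (.rp 31 (.thr 13 14 (.thr 61 45 (.thr 1 41 (.thr 5 9 (.thr 37 53 (.dbl 25 17 49)))))) (.rp 17 (.str 34 (.nv (.thr 13 14 (.thr 45 61 (.thr 30 60 (.dbl 31 28 47)))) (.nv (.thr 47 31 (.thr 37 32 (.thr 53 5 (.dbl 48 26 58)))) (.rp 47 (.thr 13 14 (.thr 45 61 (.thr 30 60 (.thr 31 28 (.thr 26 16 (.thr 48 37 (.dbl 58 10 53))))))) (.rp 31 (.thr 13 14 (.thr 61 45 (.thr 1 41 (.thr 5 9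 (.thr 37 53 (.thr 48 26 (.thr 36 24 (.thr 32 47 (.thr 44 40 (.dbl 60 28 62)))))))))) .nd))))) .nd))))))) (.rp 46 (.str 26 (.nv (.thr 58 10 (.thr 48 53 (.thr 24 36 (.thr 25 27 (.thr 51 38 (.dbl 59 8 55)))))) (.nv (.thr 31 16 (.thr 15 47 (.thr 14 13 (.thr 38 50 (.thr 55 4 (.dbl 51 25 59)))))) (.nv (.thr 58 10 (.thr 31 16 (.thr 48 53 (.dbl 15 37 47)))) (.rp 48 (.str 14 (.nv (.thr 38 50 (.thr 51 25 (.dbl 55 4 59))) (.nv (.thr 15 13 (.dbl 31 16 47)) (.rp 32 (.thr 16 31 (.thr 38 50 (.thr 55 4 (.dbl 51 25 59)))) (.rp 16 (.str 32 (.nv (.thr 38 50 (.thr 51 25 (.dbl 55 4 59))) (.nv (.thr 15 13 (.dbl 47 31 37)) .nd))) .nd))))) (.rp 15 (.thr 31 16 (.str 48 (.nv (.dbl 58 10 53) (.rp 58 (.thr 24 36 (.thr 25 27 (.thr 51 38 (.dbl 59 8 55)))) (.rp 53 (.thr 24 36 (.thr 25 27 (.thr 51 38 (.dbl 59 8 55))))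 (.rp 10 (.str 5 (.nv (.dbl 53 37 58) (.rp 58 (.thr 24 36 (.thr 25 27 (.thr 59 8 (.dbl 51 38 55)))) (.rp 53 (.thr 24 36 (.thr 25 27 (.thr 59 8 (.dbl 51 38 55)))) (.rp 37 (.thr 24 36 (.thr 25 27 (.thr 59 8 (.dbl 51 38 55)))) .nd))))) (.rp 5 (.thr 10 58 (.thr 24 36 (.thr 25 27 (.thr 51 38 (.dbl 59 8 55))))) .nd))))))) .nd)))))) (.rp 38 (.str 13 (.nv (.thr 15 14 (.thr 29 46 (.thr 31 47 (.thr 45 61 (.dbl 30 28 60))))) (.nv (.thr 29 46 (.thr 25 17 (.thr 37 49 (.thr 5 53 (.thr 1 9 (.dbl 61 41 45)))))) (.nv (.thr 15 14 (.thr 47 31 (.thr 37 32 (.thr 53 5 (.dbl 48 26 58))))) (.rp 54 (.str 6 (.nv (.thr 15 14 (.thr 31 47 (.thr 26 16 (.thr 48 37 (.dbl 58 10 53))))) (.nv (.thr 29 46 (.thr 61 45 (.thr 9 3 (.dbl 1 5 41)))) (.rp 47 (.thr 29 46 (.thr 9 3 (.thr 1 5 (.dbl 61 41 45)))) .nd)))) (.rp 6 (.str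 54 (.nv (.thr 15 14 (.thr 31 47 (.thr 26 16 (.thr 48 37 (.dbl 58 10 53))))) (.nv (.thr 29 46 (.thr 25 17 (.thr 59 8 (.thr 51 55 (.thr 60 57 (.dbl 61 45 62)))))) .nd))) .nd)))))) (.rp 34 (.thr 29 46 (.thr 25 17 (.thr 51 38 (.dbl 59 8 55)))) (.rp 29 (.str 26 (.nv (.thr 58 10 (.thr 48 53 (.thr 24 36 (.thr 25 27 (.thr 51 38 (.dbl 59 8 55)))))) (.nv (.thr 31 16 (.thr 15 47 (.thr 14 13 (.thr 38 50 (.thr 55 4 (.dbl 51 25 59)))))) (.nv (.thr 58 10 (.thr 31 16 (.thr 48 53 (.dbl 15 37 47)))) (.rp 48 (.str 14 (.nv (.thr 38 50 (.thr 51 25 (.dbl 55 4 59))) (.nv (.thr 15 13 (.dbl 31 16 47)) (.rp 32 (.thr 16 31 (.thr 38 50 (.thr 55 4 (.dbl 51 25 59)))) (.rp 16 (.str 32 (.nv (.thr 38 50 (.thr 51 25 (.dbl 55 4 59))) (.nv (.thr 47 37 (.dbl 15 13 31)) .nd))) .nd))))) (.rp 15 (.thr 31 16 (.str 48 (.nv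 (.dbl 58 10 53) (.rp 58 (.thr 24 36 (.thr 25 27 (.thr 51 38 (.dbl 59 8 55)))) (.rp 53 (.thr 24 36 (.thr 25 27 (.thr 51 38 (.dbl 59 8 55)))) (.rp 10 (.str 5 (.nv (.dbl 53 37 58) (.rp 58 (.thr 24 36 (.thr 25 27 (.thr 59 8 (.dbl 51 38 55)))) (.rp 53 (.thr 24 36 (.thr 25 27 (.thr 59 8 (.dbl 51 38 55)))) (.rp 37 (.thr 24 36 (.thr 25 27 (.thr 59 8 (.dbl 51 38 55)))) .nd))))) (.rp 5 (.thr 10 58 (.thr 24 36 (.thr 25 27 (.thr 51 38 (.dbl 59 8 55))))) .nd))))))) .nd)))))) (.rp 25 (.thr 46 29 (.str 15 (.nv (.thr 14 13 (.thr 38 34 (.thr 26 50 (.thr 58 10 (.dbl 48 37 53))))) (.nv (.thr 31 47 (.thr 26 16 (.thr 58 10 (.dbl 48 37 53)))) (.nv (.thr 47 31 (.thr 14 13 (.thr 45 44 (.dbl 30 60 62)))) (.rp 37 (.thr 47 31 (.thr 45 44 (.thr 30 60 (.dbl 14 13 62)))) (.rp 28 (.str 19 (.nv (.thr 31 47 (.thr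 27 23 (.thr 38 34 (.thr 55 4 (.dbl 51 39 59))))) (.nv (.thr 14 13 (.thr 30 62 (.thr 47 31 (.dbl 45 44 60)))) (.rp 47 (.thr 14 13 (.thr 38 34 (.thr 26 50 (.thr 58 10 (.dbl 48 37 53))))) (.rp 31 (.str 30 (.nv (.dbl 14 13 62) (.rp 62 (.thr 14 13 (.thr 38 34 (.thr 26 50 (.thr 58 10 (.dbl 48 37 53))))) (.rp 14 (.thr 45 60 (.thr 47 44 (.thr 37 32 (.thr 48 26 (.dbl 53 5 58))))) (.rp 13 (.thr 62 14 (.dbl 60 45 61)) .nd))))) .nd))))) (.rp 19 (.str 28 (.nv (.thr 14 13 (.thr 30 62 (.dbl 60 44 45))) (.nv (.thr 31 47 (.thr 26 16 (.thr 38 34 (.dbl 14 13 50)))) (.nv (.thr 47 31 (.dbl 44 45 60)) .nd)))) .nd)))))))) .nd)))))))))))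

theorem w468 : WinAt (9223376434903384064, 8796097216513) :=
  chF (K := []) kn c468 9223376434903384064 8796097216513 0
    [] (by decide +kernel) (by decide +kernel)

/-- A certificate. -/
noncomputable def c469 : Ct := (.str 48 (.nv (.thr 32 16 (.thr 37 47 (.thr 15 26 (.dbl 5 10 53)))) (.nv (.thr 16 32 (.thr 26 31 (.thr 10 58 (.dbl 15 5 37)))) (.rp 47 (.thr 16 32 (.thr 26 31 (.thr 15 37 (.dbl 10 5 58)))) (.rp 37 (.thr 16 32 (.thr 26 31 (.thr 10 58 (.thr 15 5 (.str 38 (.nv (.thr 4 55 (.thr 12 8 (.thr 34 46 (.dbl 51 17 25)))) (.nv (.thr 4 55 (.thr 12 8 (.dbl 14 13 50))) (.nv (.thr 50 14 (.thr 51 49 (.dbl 34 17 46))) (.rp 52 (.str 7 (.nv (.thr 34 46 (.thr 51 17 (.thr 12 25 (.dbl 4 8 55)))) (.nv (.thr 14 50 (.thr 2 6 (.dbl 3 1 11))) (.rp 40 (.str 36 (.nv (.thr 3 11 (.thr 2 1 (.dbl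 14 6 50))) (.nv (.thr 12 24 (.dbl 4 8 55)) .nd))) (.rp 36 (.str 40 (.nv (.thr 4 55 (.thr 12 8 (.dbl 14 13 50))) (.nv (.thr 11 3 (.dbl 41 43 56)) (.rp 4 (.thr 20 60 (.thr 11 3 (.dbl 41 43 56))) .nd)))) .nd))))) (.rp 51 (.thr 14 50 (.thr 12 13 (.dbl 4 8 55))) (.rp 40 (.str 36 (.nv (.thr 50 14 (.thr 51 49 (.dbl 34 17 46))) (.nv (.thr 12 24 (.dbl 4 8 55)) (.rp 52 (.str 7 (.nv (.thr 3 11 (.thr 2 1 (.dbl 14 6 50))) (.nv (.thr 12 24 (.dbl 4 8 55)) .nd))) (.rp 7 (.str 52 (.nv (.thr 12 24 (.dbl 14 13 50)) (.nv (.dbl 4 20 55) (.rp 4 (.str 6 (.nv (.thr 12 24 (.thr 34 46 (.dbl 51 17 25))) (.nv (.dbl 14 2 50) .nd))) .nd)))) .nd))))) (.rp 36 (.str 40 (.nv (.thr 34 46 (.thr 50 14 (.dbl 51 17 49))) (.nv (.thr 60 20 (.thr 41 43 (.dbl 56 11 52))) (.rp 52 (.str 7 (.nv (.thr 4 55 (.thr 12 8 (.dbl 14 13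 50))) (.nv (.thr 11 3 (.dbl 41 43 56)) (.rp 4 (.thr 20 60 (.thr 11 3 (.dbl 41 43 56))) .nd)))) (.rp 7 (.str 52 (.nv (.thr 4 55 (.thr 12 8 (.dbl 14 13 50))) (.nv (.dbl 60 20 56) (.rp 4 (.str 6 (.nv (.dbl 14 2 50) (.nv (.dbl 60 20 56) .nd))) .nd)))) .nd))))) (.rp 7 (.str 52 (.nv (.thr 50 14 (.thr 51 49 (.dbl 34 17 46))) (.nv (.thr 4 55 (.thr 12 8 (.dbl 36 20 24))) (.rp 51 (.thr 14 50 (.thr 12 13 (.dbl 4 8 55))) (.rp 40 (.str 36 (.nv (.thr 12 24 (.dbl 14 13 50)) (.nv (.dbl 4 20 55) (.rp 4 (.str 6 (.nv (.thr 12 24 (.thr 34 46 (.dbl 51 17 25))) (.nv (.dbl 14 2 50) .nd))) .nd)))) (.rp 36 (.str 40 (.nv (.thr 4 55 (.thr 12 8 (.dbl 14 13 50))) (.nv (.dbl 60 20 56) (.rp 4 (.str 6 (.nv (.dbl 14 2 50) (.nv (.dbl 60 20 56) .nd))) .nd)))) (.rp 4 (.str 6 (.nv (.dbl 14 2 50) (.rp 50 (.thr 14 2 (.thr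 34 46 (.thr 12 13 (.dbl 51 17 25)))) (.rp 40 (.str 36 (.nv (.thr 12 24 (.thr 34 46 (.dbl 51 17 25))) (.nv (.dbl 14 2 50) .nd))) (.rp 36 (.str 40 (.nv (.dbl 14 2 50) (.nv (.dbl 60 20 56) .nd))) (.rp 14 (.thr 34 46 (.thr 51 17 (.thr 27 39 (.dbl 25 12 24)))) (.rp 2 (.thr 50 14 (.thr 34 46 (.dbl 51 17 49))) .nd))))))) .nd))))))) .nd))))))))))))) (.rp 32 (.str 60 (.nv (.thr 40 20 (.thr 41 43 (.thr 1 61 (.thr 3 2 (.thr 33 18 (.thr 37 45 (.thr 5 53 (.dbl 15 10 26)))))))) (.nv (.thr 40 20 (.thr 56 52 (.thr 8 24 (.thr 25 59 (.thr 17 29 (.thr 51 34 (.dbl 12 4 38))))))) (.nv (.thr 56 52 (.thr 40 20 (.thr 41 43 (.thr 26 11 (.thr 10 58 (.dbl 15 5 37)))))) (.rp 40 (.str 36 (.nv (.thr 12 24 (.thr 8 4 (.thr 25 59 (.thr 17 29 (.dbl 51 34 38))))) (.nv (.thr 52 56 (.thr 4 20 (.dbl 12 8 24))) (.rp 24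 (.str 8 (.nv (.thr 12 4 (.thr 25 59 (.thr 17 29 (.dbl 51 34 38)))) (.nv (.thr 52 56 (.dbl 4 12 20)) (.rp 12 (.thr 52 56 (.thr 4 20 (.thr 38 55 (.thr 37 39 (.thr 5 53 (.dbl 15 10 26)))))) (.rp 4 (.thr 25 59 (.thr 17 29 (.thr 51 34 (.thr 49 50 (.thr 37 13 (.dbl 38 12 39)))))) .nd))))) (.rp 12 (.thr 52 56 (.thr 4 20 (.thr 38 55 (.thr 37 39 (.thr 5 53 (.dbl 15 10 26)))))) (.rp 8 (.thr 52 56 (.thr 24 12 (.thr 20 4 (.thr 16 28 (.thr 26 31 (.thr 10 58 (.dbl 15 5 37))))))) (.rp 4 (.str 57 (.nv (.thr 51 54 (.thr 17 34 (.thr 49 50 (.thr 61 53 (.dbl 1 33 41))))) (.nv (.thr 24 12 (.thr 56 52 (.thr 59 58 (.thr 25 8 (.thr 26 27 (.dbl 41 9 11)))))) (.nv (.thr 12 24 (.thr 51 54 (.thr 34 17 (.dbl 38 25 46)))) .nd)))) .nd))))))) (.rp 37 (.thr 40 20 (.thr 41 43 (.thr 1 61 (.thr 3 2 (.thr 33 18 (.thr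 17 49 (.thr 25 29 (.thr 57 9 (.dbl 51 34 54))))))))) (.rp 20 (.str 40 (.nv (.thr 41 43 (.thr 1 61 (.thr 3 2 (.thr 33 18 (.thr 37 45 (.thr 5 53 (.dbl 15 10 26))))))) (.nv (.thr 56 52 (.thr 8 24 (.thr 25 59 (.thr 17 29 (.thr 51 34 (.dbl 12 4 38)))))) (.nv (.thr 56 52 (.thr 41 43 (.thr 26 11 (.thr 10 58 (.dbl 15 5 37))))) (.rp 37 (.thr 41 43 (.thr 1 61 (.thr 3 2 (.thr 33 18 (.thr 17 49 (.thr 25 29 (.thr 57 9 (.dbl 51 34 54)))))))) .nd))))) .nd))))))) (.rp 26 (.str 18 (.nv (.thr 3 33 (.thr 2 1 (.thr 34 50 (.thr 38 46 (.thr 4 55 (.thr 12 8 (.dbl 51 17 25))))))) (.nv (.thr 16 32 (.thr 17 19 (.thr 25 29 (.thr 8 59 (.thr 12 4 (.dbl 51 34 38)))))) (.nv (.thr 16 32 (.thr 17 19 (.thr 3 33 (.thr 2 1 (.dbl 34 50 51))))) (.rp 51 (.thr 3 33 (.thr 16 32 (.thr 17 19 (.thr 1 2 (.thr 41 61 (.thr 25 29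 (.thr 9 57 (.thr 12 6 (.dbl 8 4 59))))))))) (.rp 34 (.thr 33 3 (.thr 16 32 (.thr 17 19 (.thr 49 1 (.thr 51 50 (.thr 25 29 (.thr 8 59 (.dbl 12 4 38)))))))) (.rp 25 (.thr 33 3 (.thr 32 16 (.thr 34 35 (.thr 50 2 (.dbl 51 17 49))))) (.rp 17 (.thr 33 3 (.thr 32 16 (.thr 34 35 (.thr 50 2 (.thr 51 49 (.thr 38 46 (.thr 4 55 (.dbl 12 8 25)))))))) .nd)))))))) (.rp 16 (.str 17 (.nv (.thr 25 29 (.thr 51 34 (.thr 49 50 (.thr 37 13 (.thr 5 53 (.dbl 15 10 26)))))) (.nv (.thr 51 34 (.thr 25 29 (.thr 8 59 (.dbl 12 4 38)))) (.rp 51 (.thr 25 29 (.str 12 (.nv (.dbl 8 4 59) (.rp 59 (.str 55 (.nv (.dbl 4 8 38) (.rp 38 (.thr 24 36 (.thr 26 27 (.thr 10 58 (.dbl 15 5 37)))) (.rp 8 (.thr 24 36 (.thr 26 27 (.thr 10 58 (.dbl 15 5 37)))) (.rp 4 (.thr 24 36 (.thr 26 27 (.thr 10 58 (.dbl 15 5 37)))) .nd))))) (.rp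 55 (.thr 59 8 (.thr 24 36 (.thr 26 27 (.thr 10 58 (.dbl 15 5 37))))) (.rp 8 (.thr 24 36 (.thr 26 27 (.thr 10 58 (.dbl 15 5 37)))) (.rp 4 (.thr 24 36 (.thr 26 27 (.thr 10 58 (.dbl 15 5 37)))) .nd))))))) (.rp 46 (.thr 51 34 (.thr 25 29 (.thr 12 38 (.dbl 8 4 59)))) (.rp 34 (.thr 25 29 (.thr 8 59 (.thr 12 4 (.thr 24 36 (.thr 26 27 (.thr 10 58 (.dbl 15 5 37))))))) (.rp 29 (.thr 51 34 (.thr 49 50 (.thr 1 33 (.thr 61 41 (.thr 53 57 (.thr 37 5 (.thr 25 13 (.thr 8 59 (.dbl 12 4 38))))))))) (.rp 25 (.thr 51 34 (.thr 49 50 (.thr 1 33 (.thr 41 61 (.thr 40 43 (.thr 60 20 (.thr 57 54 (.thr 56 52 (.thr 58 59 (.dbl 26 10 11)))))))))) (.rp 12 (.thr 51 34 (.thr 49 50 (.thr 1 33 (.thr 61 41 (.thr 53 57 (.thr 37 5 (.dbl 25 13 29))))))) .nd))))))))) (.rp 15 (.thr 16 32 (.thr 31 26 (.str 18 (.nv (.thr 17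 19 (.thr 25 29 (.thr 8 59 (.thr 12 4 (.dbl 51 34 38))))) (.nv (.thr 3 33 (.thr 2 1 (.thr 17 19 (.dbl 34 50 51)))) (.rp 51 (.thr 17 19 (.thr 29 25 (.thr 28 30 (.thr 3 33 (.thr 1 2 (.thr 41 61 (.thr 40 43 (.dbl 20 24 60)))))))) (.rp 40 (.str 36 (.nv (.thr 3 33 (.thr 2 1 (.thr 34 50 (.dbl 17 19 51)))) (.nv (.thr 17 19 (.thr 25 29 (.thr 12 24 (.dbl 8 4 59)))) (.rp 19 (.thr 12 24 (.thr 8 4 (.thr 25 59 (.thr 51 38 (.dbl 17 29 34))))) (.rp 17 (.thr 12 24 (.thr 8 4 (.thr 25 59 (.thr 51 38 (.thr 50 49 (.thr 2 34 (.dbl 3 1 33))))))) .nd))))) (.rp 36 (.str 40 (.nv (.thr 17 19 (.thr 29 25 (.thr 28 30 (.dbl 20 24 60)))) (.nv (.thr 41 43 (.thr 3 33 (.dbl 1 2 61))) .nd))) (.rp 34 (.thr 17 19 (.thr 25 29 (.thr 8 59 (.thr 12 4 (.thr 24 36 (.thr 40 56 (.dbl 20 28 60))))))) (.rp 25 (.thr 3 33 (.thr 2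 1 (.thr 34 50 (.dbl 17 19 51)))) (.rp 19 (.thr 3 33 (.thr 2 1 (.thr 34 50 (.thr 38 46 (.thr 4 55 (.thr 12 8 (.dbl 51 17 25))))))) (.rp 17 (.thr 3 33 (.thr 1 2 (.thr 41 61 (.thr 40 43 (.thr 60 20 (.thr 56 52 (.thr 8 24 (.thr 25 59 (.thr 9 57 (.dbl 12 4 6)))))))))) .nd)))))))))))) (.rp 10 (.str 60 (.nv (.thr 16 32 (.thr 26 31 (.thr 40 20 (.thr 41 43 (.dbl 56 11 52))))) (.nv (.thr 32 16 (.thr 37 47 (.thr 15 26 (.thr 40 20 (.thr 41 43 (.dbl 45 30 33)))))) (.nv (.thr 52 56 (.thr 20 40 (.thr 16 32 (.thr 36 4 (.dbl 24 12 28))))) (.rp 40 (.thr 52 56 (.thr 32 16 (.thr 37 47 (.thr 53 5 (.thr 54 55 (.thr 51 57 (.thr 49 50 (.thr 25 13 (.dbl 17 29 34))))))))) (.rp 32 (.thr 56 52 (.thr 40 20 (.thr 8 24 (.thr 25 59 (.thr 17 29 (.thr 51 34 (.dbl 12 4 38))))))) (.rp 20 (.thr 56 52 (.thr 16 32 (.thr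 26 31 (.thr 41 11 (.thr 1 61 (.thr 3 2 (.thr 33 18 (.dbl 37 15 45)))))))) (.rp 16 (.thr 56 52 (.thr 40 20 (.thr 41 43 (.thr 1 61 (.thr 26 11 (.thr 37 15 (.thr 33 45 (.dbl 3 2 18)))))))) .nd)))))))) (.rp 5 (.str 40 (.nv (.thr 32 16 (.thr 37 47 (.thr 41 43 (.thr 1 61 (.thr 3 2 (.dbl 33 18 45)))))) (.nv (.thr 16 32 (.thr 20 60 (.thr 24 28 (.thr 12 36 (.dbl 8 4 56))))) (.nv (.thr 16 32 (.thr 26 31 (.thr 41 43 (.thr 60 20 (.dbl 56 11 52))))) (.rp 60 (.thr 16 32 (.thr 41 43 (.thr 26 31 (.thr 58 10 (.thr 56 11 (.thr 8 24 (.dbl 59 25 57))))))) (.rp 41 (.thr 60 20 (.thr 56 52 (.thr 8 24 (.thr 16 32 (.thr 59 25 (.thr 26 31 (.dbl 58 10 57))))))) (.rp 32 (.thr 60 20 (.thr 56 52 (.thr 8 24 (.thr 25 59 (.thr 17 29 (.thr 51 34 (.dbl 12 4 38))))))) (.rp 16 (.thr 60 20 (.thr 56 52 (.thr 41 43 (.thr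 26 11 (.thr 58 10 (.thr 59 57 (.dbl 8 24 25))))))) (.rp 3 (.thr 60 20 (.thr 56 52 (.thr 16 32 (.thr 26 31 (.dbl 41 11 43))))) .nd))))))))) .nd)))))))))))

theorem w469 : WinAt (4398048608257, 9223389629045014528) :=
  chF (K := []) kn c469 4398048608257 9223389629045014528 63
    [] (by decide +kernel) (by decide +kernel)

/-- A certificate. -/
noncomputable def c470 : Ct := (.str 51 (.nv (.thr 59 55 (.thr 25 8 (.thr 12 38 (.dbl 29 17 46)))) (.nv (.thr 55 59 (.thr 38 4 (.thr 46 34 (.dbl 12 25 29)))) (.rp 59 (.str 60 (.nv (.thr 57 54 (.thr 61 62 (.thr 41 1 (.thr 25 9 (.thr 29 17 (.dbl 12 38 46)))))) (.nv (.thr 61 62 (.thr 41 1 (.thr 43 40 (.thr 3 23 (.thr 35 19 (.thr 38 44 (.thr 46 34 (.dbl 12 25 29)))))))) (.nv (.thr 57 54 (.thr 61 62 (.thr 53 49 (.thr 37 5 (.thr 47 32 (.thr 15 31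 (.dbl 48 26 58))))))) (.rp 62 (.str 53 (.nv (.thr 37 5 (.thr 47 32 (.thr 15 31 (.dbl 48 26 58)))) (.nv (.thr 54 57 (.thr 52 55 (.dbl 48 56 58))) (.rp 58 (.thr 37 5 (.thr 47 32 (.thr 15 31 (.thr 39 27 (.thr 38 36 (.thr 46 34 (.dbl 12 25 29))))))) (.rp 48 (.thr 54 57 (.thr 55 52 (.thr 38 4 (.thr 46 34 (.dbl 12 25 29))))) .nd))))) (.rp 61 (.str 53 (.nv (.thr 37 5 (.thr 47 32 (.thr 15 31 (.dbl 48 26 58)))) (.nv (.thr 54 57 (.thr 52 55 (.dbl 48 56 58))) (.rp 58 (.thr 37 5 (.thr 47 32 (.thr 15 31 (.thr 39 27 (.thr 38 36 (.thr 46 34 (.dbl 12 25 29))))))) (.rp 48 (.thr 54 57 (.thr 55 52 (.thr 38 4 (.thr 46 34 (.dbl 12 25 29))))) (.rp 29 (.str 13 (.nv (.thr 37 5 (.thr 25 49 (.thr 12 38 (.thr 15 14 (.dbl 47 31 32))))) (.nv (.thr 54 57 (.thr 52 55 (.dbl 48 56 58))) (.rp 54 (.thr 48 58 (.thr 37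 5 (.dbl 49 25 50))) .nd)))) (.rp 13 (.str 29 (.nv (.thr 54 57 (.thr 52 55 (.dbl 48 56 58))) (.nv (.thr 25 17 (.dbl 12 38 46)) .nd))) .nd))))))) (.rp 38 (.thr 54 57 (.thr 62 61 (.thr 58 50 (.thr 26 10 (.thr 31 16 (.thr 15 47 (.dbl 48 37 53))))))) .nd))))))) (.rp 55 (.str 53 (.nv (.thr 37 5 (.thr 48 58 (.thr 49 50 (.thr 25 13 (.thr 29 17 (.dbl 12 38 46)))))) (.nv (.thr 48 58 (.thr 37 5 (.thr 47 32 (.dbl 15 26 31)))) (.rp 58 (.thr 37 5 (.thr 47 32 (.thr 15 31 (.thr 39 27 (.thr 38 36 (.thr 46 34 (.dbl 12 25 29))))))) (.rp 48 (.thr 37 5 (.str 15 (.nv (.dbl 47 31 32) (.rp 47 (.thr 39 27 (.thr 38 36 (.thr 46 34 (.dbl 12 25 29)))) (.rp 32 (.str 16 (.nv (.dbl 31 26 47) (.rp 47 (.thr 39 27 (.thr 38 36 (.thr 46 34 (.dbl 12 25 29)))) (.rp 31 (.thr 39 27 (.thr 38 36 (.thr 46 34 (.dbl 12 25 29))))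 (.rp 26 (.thr 39 27 (.thr 38 36 (.thr 46 34 (.dbl 12 25 29)))) .nd))))) (.rp 31 (.thr 39 27 (.thr 38 36 (.thr 46 34 (.dbl 12 25 29)))) (.rp 16 (.thr 32 47 (.thr 39 27 (.thr 38 36 (.thr 46 34 (.dbl 12 25 29))))) .nd))))))) (.rp 37 (.thr 48 58 (.thr 49 50 (.thr 61 57 (.thr 41 1 (.thr 43 40 (.thr 3 23 (.thr 33 18 (.thr 35 19 (.thr 34 32 (.dbl 38 44 46)))))))))) (.rp 15 (.thr 48 58 (.thr 49 50 (.thr 61 57 (.thr 41 1 (.thr 43 40 (.thr 3 23 (.thr 33 18 (.thr 35 19 (.thr 34 32 (.dbl 38 44 46)))))))))) (.rp 10 (.thr 48 58 (.thr 37 5 (.thr 15 26 (.dbl 47 31 32)))) (.rp 5 (.thr 48 58 (.thr 49 50 (.thr 61 57 (.thr 41 1 (.thr 43 40 (.thr 3 23 (.thr 33 18 (.thr 35 19 (.thr 34 32 (.dbl 38 44 46)))))))))) .nd))))))))) (.rp 46 (.str 47 (.nv (.thr 15 31 (.thr 39 27 (.thr 43 35 (.thr 23 3 (.dbl 55 7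 59))))) (.nv (.thr 15 31 (.thr 37 32 (.thr 53 5 (.dbl 48 26 58)))) (.rp 31 (.thr 59 55 (.thr 25 8 (.thr 37 32 (.thr 49 13 (.thr 53 5 (.dbl 48 50 58)))))) (.rp 15 (.thr 59 55 (.thr 25 8 (.thr 37 32 (.thr 49 13 (.thr 48 50 (.dbl 53 5 58)))))) .nd))))) (.rp 38 (.str 54 (.nv (.thr 55 59 (.thr 53 52 (.thr 37 5 (.thr 47 32 (.thr 15 31 (.dbl 48 26 58)))))) (.nv (.thr 57 60 (.thr 59 55 (.thr 25 8 (.thr 41 9 (.thr 56 58 (.thr 11 26 (.dbl 43 27 40))))))) (.nv (.thr 55 59 (.thr 53 52 (.thr 58 48 (.thr 60 57 (.dbl 62 50 61))))) (.rp 59 (.thr 60 57 (.thr 62 61 (.thr 58 50 (.thr 26 10 (.thr 31 16 (.thr 15 47 (.dbl 48 37 53))))))) (.rp 58 (.thr 57 60 (.thr 55 59 (.thr 53 52 (.thr 49 61 (.thr 48 50 (.thr 37 5 (.thr 47 32 (.dbl 15 26 31)))))))) (.rp 55 (.thr 60 57 (.thr 62 61 (.thr 58 50 (.thr 26 10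 (.thr 31 16 (.thr 15 47 (.dbl 48 37 53))))))) .nd))))))) (.rp 29 (.str 61 (.nv (.thr 41 1 (.thr 55 59 (.thr 38 4 (.thr 35 44 (.thr 3 19 (.dbl 43 23 40)))))) (.nv (.thr 60 62 (.thr 57 54 (.thr 53 49 (.thr 59 55 (.dbl 58 48 56))))) (.rp 59 (.thr 60 62 (.thr 57 54 (.thr 53 49 (.thr 37 5 (.thr 47 32 (.thr 15 31 (.dbl 48 26 58))))))) (.rp 55 (.thr 60 62 (.thr 57 54 (.thr 53 49 (.thr 58 48 (.thr 56 59 (.thr 41 1 (.dbl 26 10 11))))))) (.rp 38 (.thr 60 62 (.thr 59 55 (.thr 25 8 (.thr 41 1 (.dbl 57 9 54))))) .nd)))))) (.rp 25 (.str 48 (.nv (.thr 50 49 (.thr 55 59 (.thr 38 4 (.thr 26 14 (.thr 31 16 (.dbl 15 37 47)))))) (.nv (.thr 49 50 (.thr 53 58 (.thr 55 59 (.thr 57 61 (.dbl 54 52 60))))) (.nv (.thr 53 58 (.thr 37 5 (.thr 47 32 (.dbl 15 26 31)))) (.rp 28 (.str 19 (.nv (.thr 3 35 (.thr 18 33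 (.thr 16 17 (.thr 23 43 (.dbl 31 26 27))))) (.nv (.thr 49 50 (.thr 53 58 (.thr 55 59 (.thr 57 61 (.dbl 54 52 60))))) (.nv (.thr 53 58 (.thr 37 5 (.thr 47 32 (.dbl 15 26 31)))) .nd)))) (.rp 19 (.str 28 (.nv (.thr 50 49 (.thr 55 59 (.thr 38 4 (.thr 26 14 (.thr 31 16 (.dbl 15 37 47)))))) (.nv (.thr 49 50 (.thr 53 58 (.thr 55 59 (.thr 57 61 (.dbl 54 52 60))))) (.nv (.thr 53 58 (.thr 37 5 (.thr 47 32 (.dbl 15 26 31)))) .nd)))) .nd)))))) (.rp 12 (.thr 55 59 (.str 53 (.nv (.thr 48 58 (.thr 49 50 (.thr 57 61 (.dbl 54 52 60)))) (.nv (.thr 37 5 (.thr 47 32 (.thr 15 31 (.dbl 48 26 58)))) (.rp 58 (.thr 37 5 (.thr 47 32 (.thr 15 31 (.thr 39 27 (.dbl 38 4 36))))) (.rp 48 (.thr 54 52 (.thr 60 57 (.thr 61 62 (.thr 41 1 (.thr 43 40 (.thr 3 23 (.thr 35 19 (.dbl 38 4 44)))))))) (.rp 8 (.thr 4 38 (.thr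 54 52 (.thr 57 60 (.thr 49 61 (.dbl 48 50 58))))) (.rp 4 (.str 8 (.nv (.thr 48 58 (.thr 49 50 (.thr 57 61 (.dbl 54 52 60)))) (.nv (.thr 37 5 (.thr 47 32 (.thr 15 31 (.dbl 48 26 58)))) (.rp 58 (.thr 37 5 (.thr 47 32 (.thr 15 31 (.thr 39 27 (.thr 43 35 (.dbl 23 3 7)))))) (.rp 48 (.thr 37 5 (.thr 54 52 (.thr 60 57 (.thr 61 62 (.thr 41 1 (.thr 43 40 (.thr 3 23 (.thr 35 19 (.dbl 47 32 39))))))))) .nd))))) .nd)))))))) (.rp 8 (.thr 55 59 (.thr 38 4 (.thr 12 25 (.dbl 46 29 34)))) .nd)))))))))))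

theorem w470 : WinAt (9223376434903384064, 35184376283137) :=
  chF (K := []) kn c470 9223376434903384064 35184376283137 0
    [] (by decide +kernel) (by decide +kernel)

/-- A certificate. -/
noncomputable def c471 : Ct := (.str 47 (.nv (.thr 15 31 (.thr 37 32 (.thr 53 5 (.dbl 48 26 58)))) (.rp 58 (.str 61 (.nv (.thr 37 32 (.thr 53 5 (.thr 49 57 (.thr 25 13 (.thr 17 29 (.dbl 1 33 41)))))) (.nv (.thr 15 31 (.thr 37 32 (.thr 48 26 (.thr 41 1 (.thr 60 62 (.dbl 45 30 33)))))) (.nv (.thr 1 41 (.thr 37 32 (.thr 5 53 (.thr 13 9 (.thr 25 49 (.dbl 29 17 45)))))) (.rp 48 (.thr 15 31 (.thr 41 1 (.thr 43 40 (.thr 3 23 (.thr 11 7 (.thr 27 59 (.dbl 39 35 51))))))) (.rp 41 (.thr 15 31 (.thr 60 62 (.thr 37 32 (.thr 53 5 (.thr 48 26 (.thr 57 49 (.thr 54 51 (.dbl 52 55 56)))))))) (.rp 37 (.thr 15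 31 (.thr 41 1 (.thr 43 40 (.thr 3 23 (.thr 39 35 (.thr 27 51 (.dbl 11 7 59))))))) (.rp 32 (.thr 15 31 (.thr 41 1 (.thr 43 40 (.thr 3 23 (.thr 11 7 (.thr 27 59 (.dbl 39 35 51))))))) (.rp 1 (.thr 15 31 (.thr 60 62 (.thr 37 32 (.thr 53 5 (.thr 49 57 (.thr 13 25 (.dbl 45 29 30))))))) .nd))))))))) (.rp 53 (.str 38 (.nv (.thr 37 32 (.thr 39 36 (.thr 43 35 (.thr 55 4 (.dbl 23 3 7))))) (.nv (.thr 15 31 (.thr 55 4 (.thr 51 59 (.thr 39 27 (.thr 43 35 (.dbl 23 3 7)))))) (.nv (.thr 15 31 (.thr 37 32 (.thr 48 26 (.thr 36 39 (.thr 12 24 (.thr 25 51 (.dbl 13 14 49))))))) (.nv (.thr 15 31 (.thr 37 32 (.thr 55 4 (.thr 51 59 (.dbl 39 27 36))))) (.rp 39 (.thr 15 31 (.thr 55 4 (.thr 37 32 (.thr 48 26 (.thr 51 59 (.thr 49 50 (.dbl 25 12 13))))))) (.rp 12 (.thr 15 31 (.thr 37 32 (.thr 39 36 (.thr 51 27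 (.dbl 55 4 59))))) .nd))))))) (.rp 48 (.thr 15 31 (.str 39 (.nv (.thr 43 35 (.thr 23 3 (.thr 55 7 (.thr 38 4 (.dbl 37 32 36))))) (.nv (.thr 32 37 (.thr 27 51 (.thr 43 35 (.thr 3 23 (.dbl 11 7 59))))) (.nv (.thr 51 27 (.thr 55 59 (.thr 38 4 (.dbl 37 32 36)))) (.nv (.thr 43 35 (.thr 51 27 (.thr 55 59 (.dbl 23 3 7)))) (.rp 51 (.thr 43 35 (.thr 3 23 (.thr 11 7 (.thr 41 40 (.thr 26 56 (.thr 10 58 (.thr 8 9 (.dbl 59 25 27)))))))) (.rp 43 (.thr 51 27 (.thr 59 55 (.thr 25 8 (.thr 12 38 (.thr 13 14 (.dbl 37 32 49)))))) (.rp 32 (.str 16 (.nv (.thr 27 51 (.thr 43 35 (.thr 3 23 (.dbl 11 7 59)))) (.nv (.thr 35 43 (.thr 51 27 (.thr 19 3 (.thr 59 55 (.thr 25 8 (.dbl 17 18 29)))))) (.nv (.thr 51 27 (.thr 55 59 (.thr 43 35 (.dbl 23 3 7)))) (.rp 59 (.thr 51 27 (.thr 43 35 (.thr 41 40 (.thr 61 1 (.thr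 60 62 (.thr 57 54 (.thr 53 49 (.thr 37 5 (.dbl 45 30 33))))))))) (.rp 51 (.thr 43 35 (.thr 3 23 (.thr 11 7 (.thr 41 40 (.thr 26 56 (.thr 10 58 (.thr 8 9 (.dbl 59 25 27)))))))) (.rp 43 (.thr 51 27 (.thr 59 55 (.thr 25 8 (.thr 12 38 (.thr 17 29 (.thr 13 14 (.thr 49 37 (.thr 1 33 (.thr 9 5 (.dbl 41 57 61)))))))))) (.rp 35 (.thr 51 27 (.thr 55 59 (.thr 23 7 (.thr 38 4 (.thr 12 25 (.thr 14 13 (.thr 26 50 (.thr 10 58 (.thr 6 2 (.dbl 3 9 43)))))))))) (.rp 33 (.thr 51 27 (.thr 55 59 (.thr 23 7 (.dbl 43 3 35)))) (.rp 27 (.thr 43 35 (.thr 23 3 (.thr 55 7 (.thr 51 59 (.thr 38 4 (.thr 12 25 (.thr 13 14 (.thr 37 36 (.thr 5 53 (.thr 1 9 (.dbl 41 40 61))))))))))) (.rp 3 (.thr 51 27 (.thr 59 55 (.thr 43 35 (.thr 25 8 (.thr 41 40 (.thr 57 9 (.thr 60 54 (.dbl 61 1 62)))))))) .nd))))))))))) (.rp 23 (.thr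 35 43 (.thr 51 27 (.thr 19 3 (.thr 59 55 (.thr 25 8 (.thr 12 38 (.thr 13 14 (.dbl 37 32 49)))))))) .nd)))))))))) (.rp 37 (.str 43 (.nv (.thr 3 23 (.thr 35 39 (.thr 41 40 (.thr 38 44 (.thr 55 4 (.dbl 51 19 59)))))) (.nv (.thr 23 3 (.thr 31 15 (.thr 26 16 (.thr 41 40 (.thr 11 56 (.dbl 27 19 59)))))) (.nv (.thr 15 31 (.thr 39 35 (.thr 51 27 (.thr 55 59 (.dbl 23 3 7))))) (.rp 59 (.thr 35 39 (.thr 3 23 (.thr 51 19 (.thr 41 40 (.thr 61 1 (.thr 38 44 (.thr 25 12 (.thr 57 9 (.dbl 60 54 62))))))))) (.rp 52 (.str 7 (.nv (.thr 3 23 (.dbl 15 11 31)) (.nv (.thr 39 35 (.dbl 23 3 55)) (.rp 23 (.thr 39 35 (.thr 15 31 (.thr 11 3 (.dbl 27 51 59)))) (.rp 3 (.thr 39 35 (.thr 55 23 (.thr 15 31 (.dbl 51 27 59)))) .nd))))) (.rp 23 (.thr 31 15 (.thr 41 40 (.thr 26 16 (.thr 10 58 (.thr 11 56 (.thr 59 27 (.dbl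 8 9 25))))))) (.rp 19 (.thr 39 35 (.thr 3 23 (.thr 15 31 (.thr 27 51 (.dbl 11 7 59))))) (.rp 7 (.str 52 (.nv (.thr 15 31 (.thr 39 35 (.thr 51 27 (.thr 55 59 (.thr 54 53 (.thr 41 40 (.thr 60 57 (.dbl 61 1 62)))))))) (.nv (.thr 41 40 (.thr 35 39 (.thr 38 44 (.thr 3 23 (.thr 55 4 (.dbl 51 19 59)))))) (.nv (.thr 41 40 (.thr 61 1 (.thr 60 62 (.thr 56 48 (.thr 26 11 (.dbl 31 15 16)))))) (.rp 60 (.thr 39 35 (.thr 15 31 (.thr 51 27 (.thr 55 59 (.thr 53 54 (.thr 48 58 (.thr 50 49 (.thr 38 4 (.thr 14 26 (.dbl 12 13 25)))))))))) (.rp 41 (.thr 39 35 (.thr 15 31 (.thr 51 27 (.thr 55 59 (.thr 53 54 (.thr 48 58 (.thr 50 49 (.thr 38 4 (.thr 14 26 (.dbl 12 13 25)))))))))) (.rp 40 (.thr 39 35 (.thr 15 31 (.thr 51 27 (.thr 55 59 (.thr 53 54 (.thr 48 58 (.thr 50 49 (.thr 38 4 (.thr 14 26 (.dbl 12 13 25))))))))))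 .nd))))))) (.rp 3 (.thr 31 15 (.thr 41 40 (.thr 26 16 (.thr 10 58 (.thr 11 56 (.thr 59 27 (.dbl 8 9 25))))))) .nd)))))))))) (.rp 32 (.thr 15 31 (.str 39 (.nv (.thr 51 27 (.thr 55 59 (.thr 38 4 (.thr 37 36 (.thr 48 26 (.dbl 53 5 58)))))) (.nv (.thr 43 35 (.thr 3 23 (.thr 27 51 (.dbl 11 7 59)))) (.rp 59 (.thr 43 35 (.thr 3 23 (.thr 11 7 (.thr 41 40 (.thr 26 56 (.thr 58 10 (.dbl 48 37 53))))))) (.rp 51 (.thr 43 35 (.thr 3 23 (.thr 11 7 (.thr 41 40 (.thr 26 56 (.thr 58 10 (.dbl 48 37 53))))))) (.rp 48 (.str 16 (.nv (.thr 27 51 (.thr 43 35 (.thr 3 23 (.dbl 11 7 59)))) (.nv (.thr 35 43 (.thr 51 27 (.thr 19 3 (.thr 59 55 (.thr 25 8 (.dbl 17 18 29)))))) (.nv (.thr 51 27 (.thr 55 59 (.thr 43 35 (.dbl 23 3 7)))) (.rp 59 (.thr 51 27 (.thr 43 35 (.thr 41 40 (.thr 61 1 (.thr 60 62 (.thr 57 54 (.thr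 53 49 (.thr 37 5 (.dbl 45 30 33))))))))) (.rp 51 (.thr 43 35 (.thr 3 23 (.thr 11 7 (.thr 41 40 (.thr 26 56 (.thr 10 58 (.thr 8 9 (.dbl 59 25 27)))))))) (.rp 43 (.thr 51 27 (.thr 59 55 (.thr 25 8 (.thr 12 38 (.thr 17 29 (.thr 13 14 (.thr 49 37 (.thr 1 33 (.thr 9 5 (.dbl 41 57 61)))))))))) (.rp 35 (.thr 51 27 (.thr 55 59 (.thr 23 7 (.thr 38 4 (.thr 12 25 (.thr 14 13 (.thr 26 50 (.thr 10 58 (.thr 6 2 (.dbl 3 9 43)))))))))) (.rp 33 (.thr 51 27 (.thr 55 59 (.thr 23 7 (.dbl 43 3 35)))) (.rp 27 (.thr 43 35 (.thr 23 3 (.thr 55 7 (.thr 51 59 (.thr 38 4 (.thr 12 25 (.thr 13 14 (.thr 37 36 (.thr 5 53 (.thr 1 9 (.dbl 41 40 61))))))))))) (.rp 3 (.thr 51 27 (.thr 59 55 (.thr 43 35 (.thr 25 8 (.thr 41 40 (.thr 57 9 (.thr 60 54 (.dbl 61 1 62)))))))) .nd))))))))))) (.rp 43 (.thr 51 27 (.thr 59 55 (.thr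 25 8 (.thr 12 38 (.thr 13 14 (.thr 37 49 (.thr 53 5 (.dbl 48 26 58)))))))) (.rp 27 (.thr 43 35 (.thr 23 3 (.thr 55 7 (.thr 38 4 (.thr 37 36 (.thr 48 26 (.dbl 53 5 58))))))) (.rp 23 (.thr 43 35 (.thr 27 51 (.thr 11 59 (.thr 41 40 (.thr 26 56 (.thr 58 10 (.dbl 48 37 53))))))) (.rp 16 (.str 48 (.nv (.thr 27 51 (.thr 43 35 (.thr 3 23 (.dbl 11 7 59)))) (.nv (.thr 58 53 (.dbl 26 10 37)) .nd))) (.rp 11 (.thr 43 35 (.thr 51 27 (.thr 23 3 (.dbl 55 7 59)))) .nd)))))))))))) (.rp 31 (.str 41 (.nv (.thr 43 40 (.thr 3 23 (.thr 35 39 (.thr 38 44 (.thr 55 4 (.dbl 51 19 59)))))) (.nv (.thr 1 61 (.thr 37 32 (.thr 5 53 (.thr 13 9 (.thr 33 45 (.dbl 49 17 25)))))) (.rp 32 (.thr 43 40 (.thr 39 35 (.thr 23 3 (.thr 55 7 (.thr 51 59 (.thr 15 27 (.thr 38 4 (.thr 12 25 (.thr 14 13 (.thr 26 50 (.dbl 37 36 48)))))))))))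 .nd)))) (.rp 26 (.thr 15 31 (.str 30 (.nv (.thr 37 32 (.thr 53 5 (.thr 60 45 (.thr 61 62 (.thr 57 49 (.thr 51 54 (.thr 59 55 (.dbl 58 48 56)))))))) (.nv (.thr 60 45 (.thr 61 62 (.thr 41 1 (.thr 43 40 (.thr 3 23 (.thr 39 35 (.thr 27 51 (.dbl 11 7 59)))))))) (.nv (.thr 37 32 (.thr 53 5 (.thr 60 45 (.thr 61 62 (.thr 49 57 (.thr 25 13 (.thr 17 29 (.dbl 1 33 41)))))))) (.rp 62 (.thr 45 60 (.thr 37 32 (.thr 53 5 (.thr 41 33 (.thr 61 1 (.thr 13 29 (.dbl 49 25 57))))))) (.rp 61 (.thr 60 45 (.thr 37 32 (.thr 53 5 (.thr 48 58 (.thr 52 56 (.thr 55 54 (.thr 38 4 (.thr 39 36 (.dbl 51 27 59))))))))) (.rp 60 (.thr 37 32 (.thr 53 5 (.thr 48 58 (.str 3 (.nv (.thr 11 7 (.thr 43 23 (.thr 27 59 (.dbl 39 35 51)))) (.nv (.thr 33 18 (.thr 41 45 (.dbl 43 23 40))) (.rp 43 (.thr 33 18 (.thr 41 45 (.thr 1 61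 (.thr 49 17 (.thr 51 50 (.thr 59 55 (.dbl 25 8 13))))))) (.rp 40 (.str 20 (.nv (.thr 43 23 (.thr 39 35 (.thr 27 51 (.dbl 11 7 59)))) (.nv (.thr 7 11 (.thr 23 43 (.thr 55 39 (.thr 4 38 (.dbl 52 36 54))))) (.nv (.thr 43 23 (.thr 39 35 (.thr 11 7 (.dbl 27 51 59)))) (.rp 59 (.thr 33 18 (.thr 43 23 (.thr 39 35 (.thr 41 45 (.thr 1 61 (.thr 49 17 (.dbl 51 27 50))))))) (.rp 44 (.str 36 (.nv (.thr 12 24 (.thr 39 38 (.dbl 43 23 35))) (.nv (.thr 4 52 (.dbl 38 39 55)) (.rp 39 (.thr 4 52 (.thr 38 55 (.thr 12 24 (.thr 13 14 (.dbl 25 49 51))))) (.rp 38 (.thr 52 4 (.thr 23 43 (.thr 7 11 (.dbl 55 39 54)))) (.rp 12 (.str 28 (.nv (.thr 39 38 (.dbl 43 23 35)) (.nv (.thr 4 52 (.dbl 38 39 55)) (.rp 39 (.thr 4 52 (.thr 55 38 (.thr 43 23 (.thr 11 7 (.dbl 59 27 51))))) (.rp 38 (.thr 23 43 (.thr 7 11 (.thr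 55 39 (.dbl 52 4 54)))) (.rp 4 (.str 8 (.nv (.thr 25 59 (.thr 17 29 (.thr 33 18 (.dbl 49 1 13)))) (.nv (.thr 43 23 (.dbl 39 35 38)) (.rp 7 (.str 6 (.nv (.thr 25 59 (.thr 17 29 (.thr 33 18 (.dbl 49 1 13)))) (.nv (.thr 43 23 (.dbl 39 35 38)) .nd))) (.rp 6 (.thr 7 11 (.thr 23 43 (.dbl 39 38 55))) .nd))))) .nd)))))) .nd)))))) (.rp 43 (.thr 33 18 (.thr 41 45 (.thr 1 61 (.thr 49 17 (.thr 51 50 (.thr 59 55 (.dbl 25 8 13))))))) (.rp 39 (.thr 33 18 (.thr 41 45 (.thr 1 61 (.thr 49 17 (.thr 51 50 (.thr 59 55 (.dbl 25 8 13))))))) (.rp 36 (.str 44 (.nv (.thr 33 18 (.thr 41 45 (.thr 1 61 (.thr 35 38 (.thr 49 17 (.dbl 51 19 50)))))) (.nv (.thr 11 7 (.thr 43 23 (.thr 27 59 (.dbl 39 35 51)))) (.nv (.thr 33 18 (.thr 43 23 (.thr 41 45 (.dbl 35 38 39)))) (.rp 35 (.thr 33 18 (.thr 41 45 (.thr 1 61 (.thr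 49 17 (.thr 51 50 (.thr 59 55 (.dbl 25 8 13))))))) .nd))))) (.rp 27 (.thr 33 18 (.thr 41 45 (.thr 1 61 (.thr 49 17 (.thr 51 50 (.thr 59 55 (.dbl 25 8 13))))))) (.rp 23 (.thr 33 18 (.thr 41 45 (.thr 1 61 (.thr 49 17 (.thr 51 50 (.thr 59 55 (.dbl 25 8 13))))))) (.rp 11 (.thr 33 18 (.thr 43 23 (.thr 39 35 (.thr 41 45 (.thr 1 61 (.thr 49 17 (.dbl 51 27 50))))))) (.rp 7 (.thr 33 18 (.thr 43 23 (.thr 39 35 (.thr 41 45 (.thr 1 61 (.thr 49 17 (.dbl 51 27 50))))))) .nd))))))))))))) (.rp 23 (.thr 33 18 (.thr 41 45 (.thr 1 61 (.thr 49 17 (.thr 51 50 (.thr 59 55 (.dbl 25 8 13))))))) (.rp 20 (.str 40 (.nv (.dbl 43 23 41) (.rp 43 (.thr 33 18 (.thr 41 45 (.thr 61 1 (.thr 49 57 (.thr 51 50 (.thr 59 55 (.dbl 25 8 13))))))) (.rp 41 (.thr 43 23 (.thr 39 35 (.thr 11 7 (.dbl 27 51 59)))) (.rp 23 (.thr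 33 18 (.dbl 41 43 45)) .nd))))) .nd)))))))))) (.rp 45 (.str 60 (.nv (.thr 37 32 (.thr 53 5 (.thr 61 62 (.thr 1 41 (.thr 49 57 (.thr 17 33 (.dbl 25 13 29))))))) (.nv (.thr 61 62 (.thr 41 1 (.thr 43 40 (.thr 39 35 (.thr 51 27 (.thr 55 59 (.dbl 23 3 7))))))) (.nv (.thr 61 62 (.thr 37 32 (.thr 53 5 (.thr 57 49 (.thr 54 51 (.thr 48 58 (.dbl 52 55 56))))))) (.rp 62 (.thr 37 32 (.thr 53 5 (.thr 48 58 (.thr 52 56 (.thr 54 55 (.thr 57 51 (.thr 61 49 (.thr 41 1 (.thr 43 40 (.thr 9 25 (.thr 3 23 (.thr 12 6 (.thr 39 35 (.dbl 36 24 38)))))))))))))) (.rp 61 (.thr 37 32 (.thr 53 5 (.thr 48 58 (.thr 52 56 (.thr 55 54 (.thr 38 4 (.thr 39 36 (.dbl 51 27 59)))))))) .nd)))))) .nd))))))))) (.rp 16 (.thr 15 31 (.thr 37 32 (.thr 48 26 (.dbl 53 5 58)))) (.rp 15 (.thr 37 32 (.thr 5 53 (.str 41 (.nv (.thr 43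 40 (.thr 3 23 (.thr 35 39 (.thr 51 19 (.thr 55 59 (.dbl 38 4 44)))))) (.nv (.thr 33 45 (.thr 1 61 (.thr 13 9 (.dbl 49 17 25)))) (.rp 60 (.thr 1 61 (.thr 13 9 (.thr 49 25 (.dbl 33 17 45)))) (.rp 48 (.str 16 (.nv (.thr 26 31 (.thr 10 58 (.thr 11 56 (.thr 9 8 (.dbl 1 13 61))))) (.nv (.thr 33 45 (.thr 1 61 (.thr 13 9 (.dbl 49 17 25)))) (.rp 61 (.thr 40 43 (.thr 26 31 (.thr 56 11 (.thr 8 24 (.thr 59 25 (.dbl 58 10 57)))))) (.rp 60 (.thr 1 61 (.thr 13 9 (.thr 49 25 (.dbl 33 17 45)))) (.rp 57 (.thr 33 45 (.thr 1 61 (.thr 49 17 (.dbl 13 9 25)))) (.rp 13 (.thr 40 43 (.thr 26 31 (.thr 56 11 (.thr 8 24 (.thr 59 25 (.dbl 58 10 57)))))) (.rp 9 (.thr 40 43 (.thr 26 31 (.thr 56 11 (.thr 8 24 (.thr 59 25 (.dbl 58 10 57)))))) (.rp 1 (.thr 40 43 (.thr 26 31 (.thr 56 11 (.thr 8 24 (.thr 59 25 (.dbl 58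 10 57)))))) .nd))))))))) (.rp 25 (.thr 33 45 (.thr 1 61 (.thr 49 17 (.thr 43 40 (.thr 35 39 (.thr 3 23 (.thr 48 18 (.dbl 51 19 50)))))))) (.rp 16 (.str 48 (.nv (.thr 1 61 (.thr 13 9 (.thr 49 25 (.dbl 33 17 45)))) (.nv (.thr 43 40 (.thr 3 23 (.dbl 33 18 45))) (.rp 45 (.thr 43 40 (.thr 35 39 (.thr 3 23 (.thr 51 19 (.thr 55 59 (.dbl 38 4 44)))))) (.rp 33 (.thr 43 40 (.thr 35 39 (.thr 3 23 (.thr 51 19 (.thr 55 59 (.dbl 38 4 44)))))) .nd))))) .nd))))))))) (.rp 5 (.thr 15 31 (.str 61 (.nv (.thr 41 1 (.thr 43 40 (.thr 3 23 (.thr 39 35 (.thr 27 51 (.dbl 11 7 59)))))) (.nv (.thr 60 62 (.thr 41 1 (.thr 37 32 (.dbl 45 30 33)))) (.rp 60 (.thr 41 1 (.thr 37 32 (.thr 45 33 (.thr 13 29 (.thr 48 26 (.thr 53 58 (.dbl 49 25 57))))))) (.rp 41 (.thr 60 62 (.thr 37 32 (.thr 48 26 (.thr 53 58 (.thr 57 49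 (.thr 54 51 (.dbl 52 55 56))))))) (.rp 13 (.thr 60 62 (.thr 37 32 (.thr 48 26 (.thr 52 56 (.thr 53 58 (.thr 54 55 (.dbl 57 49 51))))))) (.rp 9 (.thr 60 62 (.thr 37 32 (.thr 48 26 (.thr 52 56 (.thr 53 58 (.thr 54 55 (.dbl 57 49 51))))))) (.rp 3 (.thr 60 62 (.thr 37 32 (.thr 48 26 (.thr 52 56 (.thr 53 58 (.thr 54 55 (.dbl 57 49 51))))))) (.rp 2 (.thr 60 62 (.thr 37 32 (.thr 48 26 (.thr 52 56 (.thr 53 58 (.thr 54 55 (.dbl 57 49 51))))))) (.rp 1 (.thr 60 62 (.thr 37 32 (.thr 48 26 (.thr 52 56 (.thr 53 58 (.thr 54 55 (.dbl 57 49 51))))))) .nd))))))))))) .nd))))))))))))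

theorem w471 : WinAt (9223376434903384064, 70368748371969) :=
  chF (K := []) kn c471 9223376434903384064 70368748371969 0
    [] (by decide +kernel) (by decide +kernel)

/-- A certificate. -/
noncomputable def c472 : Ct := (.str 51 (.nv (.thr 59 55 (.thr 25 8 (.thr 12 38 (.dbl 29 17 46)))) (.nv (.thr 55 59 (.thr 38 4 (.thr 46 34 (.dbl 12 25 29)))) (.rp 59 (.str 48 (.nv (.thr 49 50 (.thr 53 58 (.thr 57 61 (.thr 54 60 (.thr 55 52 (.thr 38 4 (.thr 12 25 (.dbl 46 29 34)))))))) (.nv (.thr 49 50 (.thr 53 58 (.thr 37 5 (.thr 25 13 (.thr 17 29 (.thr 1 33 (.dbl 61 41 57))))))) (.nv (.thr 58 53 (.thr 26 10 (.thr 15 37 (.thr 27 39 (.thr 25 24 (.thr 29 17 (.dbl 12 38 46))))))) (.nv (.thr 50 49 (.thr 58 53 (.thr 26 10 (.thr 38 14 (.thr 46 34 (.dbl 12 25 29)))))) (.rp 58 (.thr 50 49 (.str 34 (.nv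 (.thr 18 2 (.thr 3 33 (.thr 38 46 (.thr 26 14 (.thr 16 31 (.dbl 19 17 35)))))) (.nv (.thr 38 46 (.thr 26 14 (.thr 15 37 (.thr 25 12 (.dbl 27 24 39))))) (.nv (.thr 18 2 (.thr 3 33 (.thr 19 35 (.thr 17 16 (.thr 25 29 (.dbl 38 12 46)))))) (.rp 57 (.str 56 (.nv (.thr 18 2 (.thr 3 33 (.thr 19 35 (.thr 17 16 (.thr 25 29 (.dbl 38 12 46)))))) (.nv (.thr 38 46 (.thr 25 12 (.thr 26 14 (.thr 27 24 (.dbl 15 37 39))))) (.nv (.thr 18 2 (.thr 3 33 (.thr 43 23 (.thr 41 40 (.thr 60 52 (.dbl 61 1 62)))))) (.rp 61 (.str 53 (.nv (.thr 52 60 (.thr 55 54 (.dbl 38 4 46))) (.nv (.thr 37 5 (.thr 38 46 (.dbl 26 14 15))) (.rp 46 (.thr 52 60 (.thr 55 54 (.thr 38 4 (.thr 37 5 (.dbl 26 14 15))))) (.rp 38 (.thr 60 52 (.thr 18 2 (.thr 37 5 (.thr 15 26 (.thr 45 30 (.dbl 33 3 41)))))) .nd))))) (.rp 53 (.str 61 (.nv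 (.thr 38 46 (.thr 41 1 (.dbl 26 11 14))) (.nv (.dbl 60 52 62) .nd))) .nd)))))) (.rp 56 (.str 57 (.nv (.thr 18 2 (.thr 3 33 (.thr 43 23 (.thr 41 40 (.thr 60 54 (.dbl 61 1 62)))))) (.nv (.thr 60 54 (.thr 61 62 (.thr 38 46 (.thr 25 12 (.dbl 41 1 9))))) (.nv (.thr 18 2 (.thr 3 33 (.thr 19 35 (.thr 17 16 (.thr 25 29 (.dbl 38 12 46)))))) (.rp 38 (.thr 18 2 (.thr 3 33 (.thr 19 35 (.thr 17 16 (.thr 25 29 (.thr 43 23 (.dbl 41 9 40))))))) (.rp 1 (.thr 38 46 (.thr 25 12 (.thr 26 14 (.thr 27 24 (.dbl 15 37 39))))) .nd)))))) (.rp 46 (.thr 18 2 (.thr 3 33 (.thr 19 35 (.thr 17 16 (.thr 25 29 (.thr 43 23 (.thr 41 40 (.thr 12 38 (.dbl 9 6 57))))))))) (.rp 38 (.thr 18 2 (.thr 3 33 (.thr 19 35 (.thr 17 16 (.thr 25 29 (.thr 43 23 (.thr 41 40 (.thr 61 1 (.thr 60 62 (.dbl 57 9 54)))))))))) .nd)))))))))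 (.rp 53 (.str 33 (.nv (.thr 3 18 (.thr 35 19 (.thr 34 32 (.thr 38 46 (.thr 43 23 (.dbl 41 40 44)))))) (.nv (.thr 3 18 (.thr 35 19 (.thr 34 32 (.thr 38 46 (.thr 25 12 (.thr 17 29 (.dbl 49 1 50))))))) (.nv (.thr 49 50 (.thr 1 17 (.thr 41 61 (.thr 43 40 (.dbl 3 18 23))))) (.rp 18 (.thr 49 50 (.thr 17 1 (.thr 25 29 (.thr 38 12 (.thr 37 13 (.thr 39 36 (.dbl 15 26 27))))))) (.rp 17 (.thr 49 50 (.thr 3 18 (.thr 43 23 (.thr 41 40 (.thr 37 45 (.thr 25 13 (.thr 9 57 (.dbl 12 6 38)))))))) (.rp 3 (.thr 49 50 (.thr 1 17 (.thr 41 61 (.thr 37 45 (.thr 15 26 (.thr 39 27 (.thr 38 36 (.dbl 25 12 13)))))))) .nd))))))) (.rp 29 (.thr 49 50 (.thr 53 58 (.thr 37 5 (.thr 25 13 (.thr 38 12 (.thr 39 36 (.dbl 15 26 27))))))) (.rp 25 (.thr 50 49 (.thr 58 53 (.thr 26 10 (.thr 38 14 (.thr 46 34 (.thr 12 29 (.thr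 36 24 (.dbl 37 15 39)))))))) .nd))))))))) (.rp 55 (.str 53 (.nv (.thr 37 5 (.thr 48 58 (.thr 15 26 (.thr 49 50 (.thr 61 57 (.thr 41 1 (.thr 45 33 (.dbl 60 30 62)))))))) (.nv (.thr 48 58 (.thr 49 50 (.thr 61 57 (.thr 1 41 (.thr 17 33 (.thr 25 29 (.dbl 37 5 13))))))) (.nv (.thr 48 58 (.thr 37 5 (.thr 15 26 (.thr 39 27 (.thr 38 36 (.thr 46 34 (.dbl 12 25 29))))))) (.rp 58 (.str 48 (.nv (.thr 37 5 (.thr 15 26 (.thr 49 50 (.thr 61 57 (.thr 41 1 (.thr 45 33 (.dbl 60 30 62))))))) (.nv (.thr 49 50 (.thr 61 57 (.thr 1 41 (.thr 17 33 (.thr 25 29 (.dbl 37 5 13)))))) (.nv (.thr 37 5 (.thr 15 26 (.thr 39 27 (.thr 38 36 (.thr 46 34 (.dbl 12 25 29)))))) (.rp 37 (.thr 49 50 (.thr 61 57 (.thr 41 1 (.thr 43 40 (.thr 3 23 (.thr 33 18 (.thr 35 19 (.thr 34 32 (.dbl 38 44 46))))))))) (.rp 5 (.thr 49 50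 (.thr 61 57 (.thr 41 1 (.thr 43 40 (.thr 3 23 (.thr 33 18 (.thr 35 19 (.thr 34 32 (.dbl 38 44 46))))))))) .nd)))))) (.rp 48 (.str 49 (.nv (.thr 61 57 (.thr 1 41 (.thr 17 33 (.thr 25 29 (.dbl 37 5 13))))) (.nv (.thr 37 5 (.thr 13 25 (.thr 61 57 (.thr 41 1 (.dbl 45 29 33))))) (.nv (.thr 37 5 (.thr 25 13 (.thr 29 17 (.dbl 12 38 46)))) (.rp 37 (.thr 61 57 (.thr 41 1 (.thr 43 40 (.thr 3 23 (.thr 35 19 (.thr 38 44 (.thr 46 34 (.dbl 12 25 29)))))))) (.rp 32 (.str 16 (.nv (.thr 61 57 (.thr 1 41 (.thr 17 33 (.thr 25 29 (.dbl 37 5 13))))) (.nv (.thr 26 31 (.thr 57 61 (.thr 58 10 (.thr 59 56 (.thr 25 8 (.dbl 37 5 13)))))) (.nv (.thr 37 5 (.thr 25 13 (.thr 29 17 (.dbl 12 38 46)))) (.rp 37 (.thr 57 61 (.thr 26 31 (.thr 58 10 (.thr 59 56 (.thr 25 8 (.thr 29 17 (.dbl 12 38 46))))))) (.rp 25 (.thr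 61 57 (.thr 26 31 (.thr 41 1 (.thr 43 40 (.thr 3 23 (.thr 58 10 (.thr 11 56 (.thr 27 59 (.dbl 15 7 39))))))))) (.rp 13 (.thr 57 61 (.thr 26 31 (.thr 58 10 (.thr 59 56 (.thr 25 8 (.thr 29 17 (.dbl 12 38 46))))))) (.rp 9 (.thr 61 57 (.thr 41 1 (.thr 37 5 (.thr 13 25 (.dbl 45 29 33))))) (.rp 5 (.thr 61 57 (.thr 26 31 (.thr 41 1 (.thr 43 40 (.thr 10 58 (.thr 11 56 (.thr 59 27 (.dbl 8 9 25)))))))) .nd))))))))) (.rp 29 (.thr 61 57 (.thr 41 1 (.thr 43 40 (.thr 3 23 (.thr 35 19 (.thr 38 44 (.thr 37 5 (.dbl 25 12 13)))))))) (.rp 25 (.thr 61 57 (.thr 60 62 (.thr 41 1 (.thr 43 40 (.thr 37 5 (.thr 45 33 (.thr 15 30 (.thr 27 39 (.thr 11 59 (.dbl 3 7 23)))))))))) (.rp 16 (.str 32 (.nv (.thr 61 57 (.thr 1 41 (.thr 17 33 (.thr 25 29 (.dbl 37 5 13))))) (.nv (.thr 37 5 (.thr 13 25 (.thr 61 57 (.thr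 41 1 (.dbl 45 29 33))))) (.nv (.thr 37 5 (.thr 25 13 (.thr 29 17 (.dbl 12 38 46)))) (.nv (.thr 61 57 (.thr 37 5 (.thr 25 13 (.thr 17 29 (.dbl 1 33 41))))) (.rp 37 (.thr 61 57 (.thr 60 62 (.thr 41 1 (.thr 40 43 (.thr 44 36 (.thr 12 28 (.dbl 38 25 35))))))) (.rp 29 (.thr 61 57 (.thr 60 62 (.thr 41 1 (.thr 40 43 (.thr 44 36 (.thr 12 28 (.dbl 38 25 35))))))) (.rp 25 (.thr 61 57 (.thr 41 1 (.thr 40 43 (.thr 44 36 (.thr 35 38 (.thr 33 34 (.dbl 37 5 45))))))) (.rp 13 (.thr 61 57 (.thr 60 62 (.thr 41 1 (.thr 40 43 (.thr 44 36 (.thr 12 28 (.dbl 38 25 35))))))) (.rp 5 (.thr 61 57 (.thr 60 62 (.thr 41 1 (.thr 40 43 (.thr 44 36 (.thr 12 28 (.dbl 38 25 35))))))) (.rp 1 (.thr 57 61 (.thr 37 5 (.thr 25 13 (.thr 9 41 (.thr 29 17 (.dbl 12 38 46)))))) .nd))))))))))) (.rp 13 (.thr 61 57 (.thr 41 1 (.thr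 43 40 (.thr 3 23 (.thr 35 19 (.thr 38 44 (.thr 46 34 (.dbl 12 25 29)))))))) (.rp 5 (.thr 61 57 (.thr 41 1 (.thr 43 40 (.thr 3 23 (.thr 35 19 (.thr 38 44 (.thr 46 34 (.dbl 12 25 29)))))))) (.rp 1 (.thr 57 61 (.thr 37 5 (.thr 25 13 (.thr 9 41 (.thr 29 17 (.dbl 12 38 46)))))) .nd)))))))))))) (.rp 37 (.thr 48 58 (.thr 49 50 (.thr 61 57 (.thr 41 1 (.thr 43 40 (.thr 3 23 (.thr 33 18 (.thr 35 19 (.thr 34 32 (.dbl 38 44 46)))))))))) (.rp 5 (.thr 48 58 (.thr 49 50 (.thr 61 57 (.thr 41 1 (.thr 43 40 (.thr 3 23 (.thr 33 18 (.thr 35 19 (.thr 34 32 (.dbl 38 44 46)))))))))) .nd)))))))) (.rp 46 (.thr 59 55 (.str 19 (.nv (.thr 25 8 (.thr 17 29 (.thr 16 18 (.thr 26 31 (.thr 27 24 (.thr 3 35 (.dbl 43 11 23))))))) (.nv (.thr 3 35 (.thr 25 8 (.thr 17 29 (.thr 18 16 (.thr 48 33 (.thr 49 50 (.thr 37 13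 (.dbl 53 5 58)))))))) (.nv (.thr 3 35 (.thr 43 23 (.thr 11 27 (.thr 41 40 (.thr 26 56 (.thr 8 25 (.dbl 10 9 58))))))) (.rp 45 (.str 44 (.nv (.thr 35 3 (.thr 25 8 (.dbl 38 12 41))) (.rp 60 (.thr 35 3 (.thr 41 38 (.thr 40 43 (.thr 8 25 (.thr 56 24 (.thr 58 57 (.dbl 26 10 11))))))) (.rp 41 (.thr 3 35 (.thr 43 23 (.thr 25 8 (.thr 17 29 (.thr 16 18 (.thr 26 31 (.dbl 27 11 24))))))) (.rp 38 (.thr 3 35 (.thr 43 23 (.thr 41 40 (.thr 61 1 (.thr 60 62 (.thr 25 8 (.dbl 57 9 54))))))) (.rp 35 (.thr 25 8 (.thr 12 38 (.thr 60 28 (.thr 61 62 (.thr 41 1 (.dbl 57 9 54)))))) (.rp 25 (.thr 3 35 (.thr 43 23 (.thr 41 40 (.thr 61 1 (.thr 60 62 (.thr 57 54 (.thr 58 56 (.dbl 53 48 49)))))))) (.rp 12 (.thr 35 3 (.thr 41 38 (.thr 40 43 (.thr 8 25 (.thr 56 24 (.thr 58 57 (.dbl 26 10 11))))))) (.rp 8 (.thr 3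 35 (.thr 43 23 (.thr 41 40 (.thr 61 1 (.thr 60 62 (.thr 57 54 (.thr 53 49 (.dbl 58 48 56)))))))) (.rp 4 (.thr 3 35 (.thr 43 23 (.thr 41 40 (.thr 25 8 (.thr 12 38 (.dbl 9 6 57)))))) (.rp 3 (.thr 25 8 (.thr 17 29 (.thr 16 18 (.thr 26 31 (.thr 24 27 (.thr 28 20 (.dbl 12 38 60))))))) (.rp 2 (.thr 3 35 (.thr 43 23 (.thr 41 40 (.thr 25 8 (.thr 9 57 (.dbl 12 6 38)))))) (.rp 1 (.thr 3 35 (.thr 43 23 (.thr 41 40 (.thr 25 8 (.thr 9 57 (.dbl 12 6 38)))))) .nd))))))))))))) (.rp 44 (.str 45 (.nv (.thr 25 8 (.thr 29 17 (.thr 61 13 (.thr 41 1 (.thr 60 62 (.dbl 57 9 54)))))) (.nv (.thr 3 35 (.thr 43 23 (.thr 11 27 (.thr 41 40 (.thr 26 56 (.thr 37 33 (.dbl 15 7 48))))))) (.nv (.thr 3 35 (.thr 43 23 (.thr 25 8 (.thr 29 17 (.thr 61 13 (.dbl 41 1 40)))))) (.rp 41 (.thr 25 8 (.thr 17 29 (.thr 16 18 (.thr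 26 31 (.thr 27 24 (.thr 43 11 (.dbl 3 23 35))))))) (.rp 8 (.thr 3 35 (.thr 43 23 (.thr 11 27 (.thr 41 40 (.thr 61 1 (.thr 60 62 (.dbl 15 7 30))))))) (.rp 3 (.thr 25 8 (.thr 29 17 (.thr 61 13 (.thr 60 62 (.thr 57 54 (.dbl 41 1 9)))))) .nd))))))) (.rp 43 (.thr 25 8 (.thr 17 29 (.thr 16 18 (.thr 26 31 (.thr 58 10 (.thr 48 53 (.thr 49 50 (.dbl 37 13 15)))))))) (.rp 35 (.thr 25 8 (.thr 17 29 (.thr 16 18 (.thr 26 31 (.thr 58 10 (.thr 48 53 (.thr 49 50 (.dbl 37 13 15)))))))) (.rp 25 (.thr 3 35 (.thr 43 23 (.thr 11 27 (.thr 41 40 (.thr 61 1 (.thr 60 62 (.thr 57 54 (.dbl 56 26 58)))))))) (.rp 8 (.thr 3 35 (.thr 43 23 (.thr 11 27 (.thr 41 40 (.thr 61 1 (.thr 56 26 (.thr 57 58 (.dbl 60 54 62)))))))) (.rp 3 (.thr 25 8 (.thr 17 29 (.thr 16 18 (.thr 26 31 (.thr 58 10 (.thr 48 53 (.thr 49 50 (.dbl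 37 13 15)))))))) .nd)))))))))))) (.rp 38 (.thr 59 55 (.str 11 (.nv (.thr 8 25 (.thr 10 9 (.thr 58 26 (.thr 48 53 (.thr 50 49 (.thr 54 62 (.dbl 57 56 60))))))) (.nv (.thr 25 8 (.thr 27 43 (.thr 26 24 (.thr 58 10 (.thr 48 53 (.dbl 15 37 39)))))) (.nv (.thr 25 8 (.thr 43 27 (.thr 41 40 (.thr 57 9 (.thr 61 1 (.dbl 60 54 62)))))) (.nv (.thr 8 25 (.thr 10 9 (.thr 26 58 (.thr 41 56 (.dbl 43 27 40))))) (.rp 56 (.thr 43 27 (.thr 3 23 (.thr 7 15 (.thr 8 25 (.thr 41 40 (.thr 1 61 (.thr 9 10 (.thr 5 13 (.dbl 6 4 12))))))))) (.rp 54 (.str 6 (.nv (.thr 43 27 (.thr 41 40 (.thr 56 26 (.thr 57 58 (.dbl 25 8 9))))) (.nv (.thr 43 27 (.thr 3 23 (.thr 9 12 (.dbl 8 10 25)))) (.rp 53 (.str 52 (.nv (.thr 43 27 (.thr 41 40 (.thr 56 26 (.thr 60 48 (.dbl 61 1 62))))) (.nv (.thr 43 27 (.thr 3 23 (.thr 9 12 (.dbl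 8 10 25)))) (.rp 43 (.thr 25 8 (.thr 29 17 (.thr 12 46 (.thr 9 3 (.thr 41 57 (.thr 56 26 (.thr 60 48 (.dbl 61 1 62)))))))) (.rp 27 (.thr 8 25 (.thr 9 10 (.thr 3 12 (.thr 7 15 (.thr 5 4 (.thr 43 23 (.thr 41 40 (.dbl 1 13 61)))))))) (.rp 25 (.thr 43 27 (.thr 41 40 (.thr 61 1 (.thr 60 62 (.dbl 56 26 48))))) .nd)))))) (.rp 52 (.str 53 (.nv (.thr 43 27 (.thr 3 23 (.thr 7 15 (.dbl 5 4 37)))) (.nv (.thr 58 48 (.thr 56 57 (.dbl 26 10 41))) (.rp 37 (.str 7 (.nv (.thr 8 25 (.thr 10 9 (.dbl 58 26 48))) (.nv (.thr 43 27 (.dbl 3 15 23)) (.rp 39 (.str 36 (.nv (.thr 8 25 (.thr 10 9 (.dbl 58 26 48))) (.nv (.thr 43 27 (.dbl 3 15 23)) (.rp 43 (.str 35 (.nv (.thr 8 25 (.thr 10 9 (.dbl 58 26 48))) (.nv (.dbl 3 15 19) (.rp 19 (.thr 48 58 (.thr 3 15 (.dbl 12 9 24))) .nd)))) .nd)))) (.rp 36 (.str 39 (.nv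 (.thr 8 25 (.thr 10 9 (.dbl 58 26 48))) (.nv (.dbl 15 3 27) (.rp 20 (.thr 4 5 (.dbl 15 3 27)) (.rp 4 (.str 20 (.nv (.thr 8 25 (.thr 10 9 (.dbl 58 26 48))) (.nv (.dbl 27 15 43) (.rp 8 (.str 12 (.nv (.dbl 3 9 15) (.nv (.dbl 27 15 43) (.rp 15 (.thr 43 27 (.dbl 3 9 23)) .nd)))) .nd)))) .nd))))) .nd))))) (.rp 7 (.thr 37 5 (.thr 27 43 (.thr 48 58 (.dbl 15 26 39)))) .nd))))) (.rp 43 (.thr 25 8 (.thr 29 17 (.thr 12 46 (.thr 3 9 (.thr 15 7 (.thr 14 13 (.thr 10 2 (.thr 26 58 (.dbl 27 24 39))))))))) (.rp 27 (.thr 8 25 (.thr 9 10 (.thr 3 12 (.thr 7 15 (.thr 5 4 (.thr 43 23 (.thr 41 40 (.dbl 1 13 61)))))))) (.rp 25 (.thr 43 27 (.thr 3 23 (.thr 9 12 (.thr 41 40 (.thr 26 56 (.dbl 10 8 58)))))) (.rp 9 (.thr 27 43 (.thr 25 8 (.thr 26 24 (.thr 58 10 (.dbl 56 41 57))))) (.rp 8 (.thr 43 27 (.thr 3 23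 (.thr 41 40 (.thr 56 26 (.thr 57 58 (.dbl 9 12 25)))))) .nd)))))))))) (.rp 27 (.thr 8 25 (.thr 10 9 (.thr 26 58 (.thr 16 31 (.thr 41 56 (.thr 43 40 (.thr 3 23 (.thr 19 35 (.thr 18 17 (.thr 48 33 (.dbl 15 7 37))))))))))) (.rp 25 (.thr 43 27 (.thr 3 23 (.thr 41 40 (.thr 26 56 (.thr 58 10 (.thr 48 53 (.dbl 15 7 37))))))) (.rp 8 (.thr 43 27 (.thr 41 40 (.thr 61 1 (.thr 56 26 (.thr 57 58 (.dbl 60 54 62)))))) (.rp 6 (.str 54 (.nv (.thr 8 25 (.thr 10 9 (.thr 58 26 (.dbl 57 56 60)))) (.nv (.thr 43 27 (.thr 41 40 (.thr 60 57 (.dbl 61 1 62)))) (.rp 60 (.thr 27 43 (.thr 25 8 (.thr 26 24 (.thr 58 10 (.dbl 56 41 57))))) (.rp 57 (.thr 43 27 (.thr 8 25 (.thr 10 9 (.thr 41 40 (.dbl 26 56 58))))) (.rp 41 (.thr 27 43 (.thr 25 8 (.thr 26 24 (.thr 58 10 (.dbl 57 56 60))))) (.rp 27 (.thr 25 8 (.thr 57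 60 (.thr 41 9 (.dbl 56 26 58)))) .nd))))))) .nd)))))))))))) (.rp 29 (.str 3 (.nv (.thr 35 19 (.thr 43 23 (.thr 41 40 (.thr 38 44 (.dbl 55 4 59))))) (.nv (.thr 43 23 (.thr 41 40 (.thr 59 55 (.thr 25 8 (.thr 9 57 (.dbl 12 6 38)))))) (.nv (.thr 19 35 (.thr 55 59 (.thr 23 43 (.thr 39 7 (.dbl 27 15 31))))) (.rp 59 (.thr 35 19 (.thr 43 23 (.thr 41 40 (.thr 61 1 (.thr 38 44 (.thr 25 12 (.thr 57 9 (.dbl 60 54 62)))))))) (.rp 55 (.thr 35 19 (.thr 43 23 (.thr 41 40 (.thr 61 1 (.thr 38 44 (.thr 25 12 (.thr 57 9 (.dbl 60 54 62)))))))) (.rp 43 (.thr 35 19 (.thr 55 59 (.thr 38 4 (.thr 41 44 (.thr 61 1 (.thr 60 62 (.thr 57 54 (.dbl 25 9 12)))))))) (.rp 23 (.thr 35 19 (.thr 55 59 (.thr 38 4 (.thr 41 44 (.thr 61 1 (.thr 60 62 (.thr 57 54 (.dbl 25 9 12)))))))) .nd)))))))) (.rp 25 (.str 37 (.nv (.thr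 53 5 (.thr 48 58 (.thr 15 26 (.thr 49 50 (.thr 61 57 (.thr 41 1 (.thr 45 33 (.dbl 60 30 62)))))))) (.nv (.thr 5 53 (.thr 55 59 (.thr 38 4 (.thr 39 36 (.thr 23 7 (.thr 3 43 (.thr 19 35 (.dbl 27 15 31)))))))) (.nv (.thr 53 5 (.thr 48 58 (.thr 49 50 (.thr 55 59 (.thr 57 61 (.dbl 54 52 60)))))) (.rp 59 (.thr 53 5 (.thr 48 58 (.thr 49 50 (.thr 57 61 (.thr 54 60 (.thr 55 52 (.thr 38 4 (.thr 15 26 (.dbl 39 27 36))))))))) (.rp 53 (.thr 55 59 (.thr 38 4 (.thr 39 36 (.thr 23 7 (.thr 3 43 (.thr 19 35 (.dbl 27 15 31))))))) (.rp 28 (.str 19 (.nv (.thr 3 35 (.thr 43 23 (.thr 41 40 (.thr 33 45 (.thr 48 18 (.dbl 53 5 58)))))) (.nv (.thr 53 5 (.thr 48 58 (.thr 49 50 (.thr 55 59 (.thr 54 52 (.dbl 57 60 61)))))) (.nv (.thr 3 35 (.thr 55 59 (.thr 23 43 (.thr 39 7 (.dbl 27 15 31))))) .nd)))) (.rp 19 (.str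 28 (.nv (.thr 53 5 (.thr 48 58 (.thr 15 26 (.thr 49 50 (.thr 61 57 (.thr 41 1 (.thr 45 33 (.dbl 60 30 62)))))))) (.nv (.thr 53 5 (.thr 55 59 (.thr 38 4 (.thr 46 34 (.thr 12 29 (.thr 54 52 (.dbl 60 44 57))))))) (.nv (.thr 55 59 (.thr 38 4 (.thr 39 36 (.thr 15 27 (.thr 53 5 (.dbl 48 26 58)))))) (.nv (.thr 53 5 (.thr 48 58 (.thr 49 50 (.thr 57 61 (.thr 55 59 (.dbl 54 52 60)))))) (.rp 59 (.thr 53 5 (.thr 48 58 (.thr 49 50 (.thr 57 61 (.thr 54 60 (.thr 55 52 (.thr 38 4 (.thr 15 26 (.dbl 39 27 36))))))))) (.rp 53 (.thr 55 59 (.thr 38 4 (.thr 46 34 (.thr 36 39 (.thr 12 29 (.thr 48 24 (.thr 50 49 (.dbl 26 14 15)))))))) (.rp 15 (.thr 55 59 (.thr 38 4 (.thr 46 34 (.thr 36 39 (.thr 12 29 (.thr 48 24 (.dbl 53 5 58))))))) (.rp 5 (.thr 55 59 (.thr 38 4 (.thr 46 34 (.thr 36 39 (.thr 12 29 (.thr 48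 24 (.thr 50 49 (.dbl 26 14 15)))))))) .nd))))))))) (.rp 15 (.thr 55 59 (.thr 38 4 (.thr 36 39 (.thr 46 34 (.thr 12 29 (.thr 48 24 (.dbl 53 5 58))))))) (.rp 5 (.thr 55 59 (.thr 38 4 (.thr 36 39 (.thr 46 34 (.thr 12 29 (.thr 48 24 (.thr 50 49 (.dbl 26 14 15)))))))) .nd)))))))))) (.rp 12 (.thr 55 59 (.str 53 (.nv (.thr 4 38 (.thr 54 52 (.thr 48 58 (.thr 57 60 (.dbl 49 50 61))))) (.nv (.thr 37 5 (.thr 48 58 (.thr 15 26 (.thr 39 27 (.dbl 38 4 36))))) (.nv (.thr 48 58 (.thr 49 50 (.thr 57 61 (.dbl 54 52 60)))) (.rp 58 (.thr 54 52 (.thr 57 60 (.thr 49 61 (.thr 48 50 (.thr 37 5 (.thr 15 26 (.thr 39 27 (.dbl 38 4 36)))))))) (.rp 57 (.thr 54 52 (.thr 58 48 (.thr 50 62 (.thr 26 10 (.dbl 38 4 14))))) (.rp 48 (.thr 54 52 (.thr 60 57 (.thr 61 62 (.thr 41 1 (.thr 43 40 (.thr 3 23 (.thr 35 19 (.dbl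 38 4 44)))))))) (.rp 4 (.str 8 (.nv (.thr 54 52 (.thr 48 58 (.thr 57 60 (.dbl 49 50 61)))) (.nv (.thr 48 58 (.thr 49 50 (.thr 57 61 (.dbl 54 52 60)))) (.rp 61 (.thr 37 5 (.thr 48 58 (.thr 52 54 (.thr 56 60 (.thr 40 24 (.thr 41 43 (.dbl 26 11 15))))))) (.rp 60 (.thr 37 5 (.thr 48 58 (.thr 49 50 (.thr 25 13 (.thr 17 29 (.thr 1 33 (.dbl 61 41 57))))))) (.rp 58 (.thr 54 52 (.thr 57 60 (.thr 61 49 (.thr 41 1 (.thr 9 25 (.thr 40 43 (.thr 56 24 (.dbl 11 10 26)))))))) (.rp 57 (.thr 37 5 (.thr 52 54 (.thr 48 58 (.thr 56 60 (.thr 40 24 (.thr 41 43 (.dbl 26 11 15))))))) (.rp 54 (.thr 37 5 (.thr 48 58 (.thr 15 26 (.thr 39 27 (.thr 7 23 (.thr 50 49 (.thr 38 36 (.thr 34 46 (.thr 18 2 (.dbl 3 11 33)))))))))) (.rp 52 (.thr 37 5 (.thr 48 58 (.thr 49 50 (.thr 25 13 (.thr 17 29 (.thr 1 33 (.dbl 61 41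 57))))))) (.rp 50 (.thr 54 52 (.thr 57 60 (.thr 61 49 (.thr 41 1 (.thr 9 25 (.thr 10 11 (.dbl 58 26 48))))))) (.rp 49 (.thr 58 48 (.thr 54 52 (.thr 60 57 (.dbl 62 50 61)))) (.rp 48 (.thr 37 5 (.thr 54 52 (.thr 60 57 (.thr 61 62 (.thr 41 1 (.thr 45 33 (.thr 43 40 (.thr 15 30 (.thr 39 27 (.dbl 23 3 7)))))))))) .nd)))))))))))) .nd))))))))) (.rp 8 (.thr 55 59 (.thr 38 4 (.thr 12 25 (.dbl 46 29 34)))) .nd)))))))))))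

theorem w472 : WinAt (9223376434903384064, 140737492549633) :=
  chF (K := []) kn c472 9223376434903384064 140737492549633 0
    [] (by decide +kernel) (by decide +kernel)

/-- A certificate. -/
noncomputable def c473 : Ct := (.str 25 (.nv (.thr 17 29 (.thr 8 59 (.thr 0 63 (.thr 12 4 (.dbl 51 34 38))))) (.nv (.thr 59 8 (.thr 63 0 (.thr 51 55 (.thr 29 17 (.dbl 12 38 46))))) (.rp 63 (.str 41 (.nv (.thr 17 29 (.thr 9 57 (.thr 1 61 (.thr 13 5 (.dbl 49 33 37))))) (.nv (.thr 57 9 (.thr 43 40 (.thr 59 8 (.thr 11 27 (.dbl 56 26 58))))) (.rp 58 (.str 53 (.nv (.thr 1 61 (.thr 17 29 (.thr 33 49 (.dbl 37 5 45)))) (.nv (.thr 57 9 (.dbl 61 1 49)) (.rp 61 (.thr 9 57 (.thr 40 43 (.thr 8 59 (.thr 56 24 (.dbl 11 10 26))))) (.rp 49 (.thr 9 57 (.thr 5 37 (.dbl 1 13 61))) (.rp 1 (.thr 57 9 (.thr 49 61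 (.dbl 37 5 13))) .nd)))))) (.rp 57 (.thr 40 43 (.thr 8 59 (.thr 56 24 (.thr 11 26 (.thr 9 10 (.thr 1 61 (.thr 17 29 (.thr 49 33 (.dbl 13 5 37))))))))) (.rp 53 (.str 58 (.nv (.thr 8 59 (.thr 26 10 (.thr 24 27 (.dbl 40 43 56)))) (.nv (.thr 57 9 (.dbl 59 8 56)) (.rp 59 (.thr 9 57 (.thr 17 29 (.thr 1 61 (.thr 49 33 (.dbl 13 5 37))))) (.rp 56 (.thr 9 57 (.thr 10 26 (.dbl 8 11 59))) (.rp 8 (.thr 57 9 (.thr 56 59 (.dbl 26 10 11))) .nd)))))) (.rp 9 (.str 53 (.nv (.thr 61 1 (.thr 49 57 (.dbl 37 5 13))) (.rp 61 (.thr 37 5 (.thr 45 33 (.thr 47 32 (.thr 44 46 (.thr 43 40 (.dbl 35 38 39)))))) (.rp 57 (.thr 37 5 (.thr 13 49 (.thr 45 33 (.dbl 61 1 29)))) (.rp 49 (.thr 37 5 (.thr 45 33 (.thr 47 32 (.thr 44 46 (.thr 43 40 (.dbl 35 38 39)))))) (.rp 37 (.thr 61 1 (.thr 57 49 (.thr 59 8 (.thr 56 58 (.thr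 43 40 (.dbl 11 26 27)))))) (.rp 13 (.thr 59 8 (.thr 43 40 (.thr 11 27 (.thr 56 26 (.thr 57 58 (.dbl 61 1 49)))))) (.rp 5 (.thr 29 17 (.thr 61 1 (.thr 13 45 (.dbl 49 37 57)))) (.rp 1 (.thr 37 5 (.thr 13 49 (.thr 33 45 (.thr 32 47 (.thr 40 43 (.thr 44 36 (.dbl 35 34 38))))))) .nd))))))))) .nd))))))) (.rp 59 (.str 1 (.nv (.thr 0 63 (.thr 3 2 (.thr 17 29 (.thr 41 61 (.thr 51 34 (.thr 35 19 (.dbl 38 12 44))))))) (.nv (.thr 0 63 (.thr 3 2 (.thr 41 61 (.thr 9 57 (.thr 12 6 (.thr 4 8 (.dbl 38 51 55))))))) (.nv (.thr 17 29 (.thr 49 33 (.thr 37 13 (.thr 53 5 (.dbl 61 41 57))))) (.rp 61 (.thr 0 63 (.thr 3 2 (.thr 17 29 (.thr 49 33 (.thr 51 34 (.thr 13 37 (.thr 9 5 (.dbl 12 6 38)))))))) (.rp 53 (.thr 41 61 (.thr 17 29 (.thr 49 33 (.thr 9 57 (.dbl 13 5 37))))) (.rp 41 (.thr 0 63 (.thr 3 2 (.thr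 17 29 (.thr 49 33 (.thr 51 34 (.thr 35 19 (.thr 37 13 (.thr 47 32 (.thr 39 43 (.dbl 38 12 36)))))))))) (.rp 3 (.thr 41 61 (.thr 9 57 (.thr 17 29 (.thr 13 5 (.dbl 49 33 37))))) .nd)))))))) (.rp 55 (.thr 8 59 (.thr 17 29 (.thr 0 63 (.thr 51 34 (.dbl 12 4 38))))) (.rp 51 (.thr 17 29 (.str 41 (.nv (.thr 43 40 (.thr 57 9 (.thr 59 8 (.thr 11 27 (.dbl 56 26 58))))) (.nv (.thr 9 57 (.thr 1 61 (.thr 13 5 (.dbl 49 33 37)))) (.rp 57 (.thr 43 40 (.thr 59 8 (.thr 11 27 (.thr 63 0 (.thr 3 23 (.thr 15 7 (.thr 31 47 (.dbl 26 16 56)))))))) (.rp 50 (.str 49 (.nv (.thr 57 9 (.thr 53 61 (.dbl 37 5 13))) (.nv (.dbl 1 33 61) (.rp 61 (.thr 33 1 (.dbl 37 13 45)) .nd)))) (.rp 49 (.str 50 (.nv (.thr 57 9 (.thr 59 8 (.thr 61 1 (.thr 63 0 (.thr 62 60 (.dbl 58 54 56)))))) (.nv (.thr 57 9 (.thr 43 40 (.thr 59 8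 (.thr 11 27 (.dbl 56 26 58))))) (.rp 59 (.thr 57 9 (.thr 63 0 (.thr 61 1 (.thr 62 60 (.thr 58 54 (.thr 26 10 (.thr 16 31 (.thr 18 19 (.thr 38 14 (.dbl 34 2 46)))))))))) (.rp 58 (.thr 9 57 (.thr 40 43 (.thr 8 59 (.thr 56 24 (.dbl 11 10 26))))) (.rp 57 (.thr 43 40 (.thr 59 8 (.thr 11 27 (.thr 63 0 (.thr 3 23 (.thr 15 7 (.thr 31 47 (.dbl 26 16 56)))))))) (.rp 56 (.thr 9 57 (.thr 43 40 (.thr 63 0 (.thr 3 23 (.thr 61 1 (.thr 60 62 (.thr 12 6 (.thr 44 28 (.thr 38 35 (.thr 34 46 (.thr 18 2 (.thr 16 19 (.dbl 26 14 31))))))))))))) (.rp 40 (.thr 9 57 (.thr 8 59 (.thr 10 11 (.thr 58 26 (.thr 63 0 (.thr 61 1 (.dbl 62 54 60))))))) (.rp 11 (.thr 57 9 (.thr 63 0 (.thr 61 1 (.thr 62 60 (.thr 58 54 (.dbl 59 8 56)))))) (.rp 9 (.thr 43 40 (.thr 59 8 (.thr 11 27 (.thr 56 26 (.thr 58 57 (.thr 63 0 (.thr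 61 1 (.dbl 62 54 60)))))))) (.rp 8 (.thr 57 9 (.thr 63 0 (.thr 61 1 (.thr 62 60 (.thr 58 54 (.thr 56 59 (.dbl 26 10 11))))))) .nd))))))))))) (.rp 9 (.thr 43 40 (.thr 59 8 (.thr 11 27 (.thr 63 0 (.thr 3 23 (.thr 15 7 (.thr 31 47 (.dbl 26 16 56)))))))) .nd)))))))) (.rp 38 (.thr 29 17 (.str 13 (.nv (.thr 63 0 (.thr 12 46 (.thr 15 14 (.thr 47 31 (.dbl 37 32 49))))) (.nv (.thr 61 45 (.thr 41 1 (.thr 57 9 (.dbl 49 37 53)))) (.rp 54 (.str 6 (.nv (.thr 61 45 (.thr 63 0 (.thr 12 46 (.thr 9 3 (.dbl 1 5 41))))) (.nv (.thr 63 0 (.thr 12 46 (.thr 15 14 (.thr 47 31 (.dbl 37 32 49))))) (.nv (.thr 61 45 (.thr 41 1 (.thr 57 9 (.dbl 49 37 53)))) .nd)))) (.rp 49 (.thr 45 61 (.thr 63 0 (.thr 12 46 (.thr 15 14 (.thr 30 60 (.dbl 31 28 47)))))) (.rp 37 (.thr 45 61 (.thr 63 0 (.thr 12 46 (.thr 15 14 (.thr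 30 60 (.dbl 31 28 47)))))) (.rp 6 (.str 54 (.nv (.thr 37 49 (.thr 53 5 (.thr 55 52 (.thr 59 8 (.dbl 63 0 51))))) (.nv (.thr 61 45 (.thr 63 0 (.thr 60 62 (.thr 51 57 (.dbl 59 8 55))))) (.nv (.thr 61 45 (.thr 41 1 (.thr 57 9 (.dbl 49 37 53)))) .nd)))) .nd)))))))) (.rp 29 (.str 61 (.nv (.thr 0 63 (.thr 41 1 (.thr 40 43 (.thr 57 9 (.thr 60 20 (.thr 51 54 (.thr 34 17 (.dbl 38 12 46)))))))) (.nv (.thr 0 63 (.thr 8 59 (.thr 12 4 (.thr 41 1 (.thr 40 43 (.thr 60 20 (.thr 44 28 (.dbl 38 35 51)))))))) (.nv (.thr 41 1 (.thr 59 8 (.thr 63 0 (.thr 51 55 (.thr 60 62 (.dbl 57 9 54)))))) (.nv (.thr 8 59 (.thr 41 1 (.thr 9 57 (.thr 11 10 (.thr 40 43 (.dbl 56 24 26)))))) (.rp 41 (.thr 59 8 (.thr 63 0 (.thr 60 62 (.thr 51 55 (.thr 57 54 (.thr 58 56 (.thr 26 10 (.thr 24 27 (.thr 16 31 (.thr 28 20 (.dbl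 12 38 44))))))))))) (.rp 1 (.thr 59 8 (.thr 63 0 (.thr 60 62 (.thr 51 55 (.thr 57 54 (.thr 41 9 (.thr 43 40 (.thr 11 27 (.dbl 56 26 58))))))))) .nd))))))) (.rp 17 (.str 1 (.nv (.thr 0 63 (.thr 3 2 (.thr 41 61 (.thr 9 57 (.thr 5 13 (.thr 6 12 (.thr 7 4 (.dbl 15 10 11)))))))) (.nv (.thr 0 63 (.thr 3 2 (.thr 8 59 (.thr 12 4 (.thr 9 6 (.thr 5 13 (.dbl 10 11 15))))))) (.nv (.thr 41 61 (.thr 43 40 (.thr 57 9 (.thr 59 8 (.thr 11 27 (.dbl 56 26 58)))))) (.rp 58 (.thr 8 59 (.thr 41 61 (.thr 40 43 (.thr 9 57 (.thr 56 24 (.dbl 11 10 26)))))) (.rp 11 (.thr 8 59 (.thr 0 63 (.thr 3 2 (.thr 41 61 (.thr 9 57 (.dbl 12 4 6)))))) (.rp 9 (.thr 59 8 (.thr 63 0 (.thr 51 55 (.thr 41 61 (.thr 43 40 (.thr 3 23 (.thr 35 19 (.dbl 38 12 44)))))))) .nd))))))) (.rp 12 (.thr 29 17 (.str 61 (.nv (.thr 1 41 (.thr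 13 45 (.thr 37 49 (.dbl 5 9 53)))) (.nv (.thr 13 45 (.thr 41 1 (.thr 57 9 (.dbl 49 37 53)))) (.rp 53 (.thr 8 59 (.thr 41 1 (.thr 9 57 (.thr 11 10 (.thr 56 26 (.dbl 40 24 43)))))) (.rp 49 (.thr 45 13 (.thr 8 59 (.thr 41 1 (.thr 33 37 (.thr 9 57 (.thr 11 10 (.thr 40 43 (.dbl 56 24 26)))))))) (.rp 45 (.thr 8 59 (.thr 41 1 (.thr 9 57 (.thr 11 10 (.thr 56 26 (.dbl 40 24 43)))))) (.rp 41 (.thr 45 13 (.thr 63 0 (.thr 60 62 (.thr 15 30 (.thr 47 31 (.thr 46 44 (.thr 32 37 (.thr 34 38 (.thr 35 33 (.thr 39 43 (.thr 51 27 (.dbl 59 8 55)))))))))))) (.rp 37 (.thr 8 59 (.thr 41 1 (.thr 9 57 (.thr 11 10 (.thr 40 43 (.dbl 56 24 26)))))) (.rp 36 (.str 24 (.nv (.thr 8 59 (.thr 26 27 (.thr 10 58 (.thr 11 9 (.dbl 56 40 41))))) (.nv (.thr 1 41 (.thr 13 45 (.thr 37 49 (.dbl 5 9 53)))) (.nv (.thr 8 59 (.thr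 41 1 (.dbl 40 43 56))) (.rp 41 (.thr 13 45 (.thr 26 27 (.thr 58 10 (.thr 59 8 (.thr 57 56 (.dbl 49 37 53)))))) .nd))))) (.rp 24 (.str 36 (.nv (.thr 13 45 (.thr 41 1 (.thr 40 43 (.thr 32 44 (.dbl 37 47 49))))) (.nv (.thr 13 45 (.thr 41 1 (.thr 57 9 (.dbl 49 37 53)))) (.rp 49 (.thr 45 13 (.thr 41 1 (.thr 33 37 (.thr 40 43 (.thr 44 32 (.thr 46 47 (.dbl 38 34 35))))))) (.rp 45 (.thr 41 1 (.thr 57 9 (.thr 49 53 (.thr 40 43 (.thr 32 44 (.dbl 37 13 47)))))) (.rp 41 (.thr 45 13 (.thr 63 0 (.thr 60 62 (.thr 15 30 (.thr 47 31 (.thr 32 37 (.dbl 44 40 46))))))) (.rp 37 (.thr 45 13 (.thr 41 1 (.thr 40 43 (.thr 44 32 (.thr 46 47 (.dbl 38 34 35)))))) (.rp 33 (.thr 13 45 (.thr 37 49 (.thr 1 41 (.dbl 5 9 53)))) (.rp 13 (.thr 41 1 (.thr 0 63 (.thr 40 43 (.thr 44 32 (.thr 20 60 (.thr 38 35 (.dbl 4 52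 55))))))) (.rp 1 (.thr 45 13 (.thr 63 0 (.thr 60 62 (.thr 15 30 (.thr 47 31 (.thr 32 37 (.dbl 44 40 46))))))) .nd)))))))))) (.rp 13 (.thr 8 59 (.thr 41 1 (.thr 9 57 (.thr 11 10 (.thr 56 26 (.dbl 40 24 43)))))) (.rp 9 (.thr 13 45 (.thr 63 0 (.thr 60 62 (.thr 49 37 (.thr 57 53 (.thr 51 54 (.dbl 59 8 55))))))) (.rp 3 (.thr 13 45 (.thr 41 1 (.thr 49 37 (.dbl 57 9 53)))) (.rp 1 (.thr 13 45 (.thr 63 0 (.thr 60 62 (.thr 49 37 (.thr 57 53 (.thr 51 54 (.dbl 59 8 55))))))) .nd))))))))))))))) (.rp 8 (.str 1 (.nv (.thr 0 63 (.thr 3 2 (.thr 17 29 (.thr 41 61 (.thr 51 34 (.thr 35 19 (.dbl 38 12 44))))))) (.nv (.thr 41 61 (.thr 9 57 (.thr 13 5 (.thr 17 29 (.dbl 49 33 37))))) (.rp 61 (.thr 0 63 (.thr 3 2 (.thr 17 29 (.thr 49 33 (.thr 51 34 (.thr 13 37 (.thr 9 5 (.dbl 12 6 38)))))))) (.rp 53 (.thr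 41 61 (.thr 17 29 (.thr 49 33 (.thr 9 57 (.dbl 13 5 37))))) (.rp 41 (.thr 0 63 (.thr 3 2 (.thr 17 29 (.thr 49 33 (.thr 51 34 (.thr 35 19 (.thr 37 13 (.thr 47 32 (.thr 39 43 (.dbl 38 12 36)))))))))) (.rp 29 (.thr 0 63 (.thr 41 61 (.thr 57 9 (.thr 40 43 (.thr 60 20 (.thr 51 54 (.thr 34 17 (.dbl 38 12 46)))))))) (.rp 17 (.thr 0 63 (.thr 3 2 (.thr 41 61 (.thr 9 57 (.thr 5 13 (.thr 15 10 (.thr 7 11 (.dbl 6 4 12)))))))) (.rp 13 (.thr 0 63 (.thr 41 61 (.thr 57 9 (.thr 40 43 (.thr 60 20 (.thr 51 54 (.dbl 17 29 34))))))) .nd))))))))) (.rp 4 (.thr 59 8 (.thr 29 17 (.thr 63 0 (.thr 12 46 (.dbl 51 38 55))))) (.rp 0 (.str 41 (.nv (.thr 8 59 (.thr 9 57 (.thr 40 43 (.thr 56 24 (.dbl 11 10 26))))) (.nv (.thr 17 29 (.thr 1 61 (.thr 49 33 (.thr 9 57 (.dbl 13 5 37))))) (.rp 57 (.thr 40 43 (.thr 8 59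 (.thr 56 24 (.thr 11 26 (.thr 9 10 (.thr 1 61 (.thr 17 29 (.thr 49 33 (.dbl 13 5 37))))))))) (.rp 32 (.str 16 (.nv (.thr 26 31 (.thr 24 27 (.thr 40 43 (.dbl 8 56 59)))) (.nv (.thr 1 61 (.thr 9 57 (.thr 17 29 (.thr 49 33 (.dbl 13 5 37))))) (.nv (.thr 8 59 (.thr 9 57 (.thr 26 31 (.dbl 10 11 58)))) .nd)))) (.rp 16 (.str 32 (.nv (.thr 1 61 (.thr 8 59 (.thr 9 57 (.thr 11 10 (.thr 40 43 (.dbl 56 24 26)))))) (.nv (.thr 40 43 (.thr 44 36 (.thr 37 47 (.thr 33 45 (.dbl 35 34 38))))) (.nv (.thr 1 61 (.thr 9 57 (.thr 37 47 (.dbl 5 13 53)))) .nd)))) (.rp 9 (.thr 43 40 (.thr 59 8 (.thr 11 27 (.thr 56 26 (.thr 57 58 (.thr 61 1 (.thr 29 17 (.thr 13 45 (.dbl 49 37 53))))))))) .nd))))))) .nd))))))))))))))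

theorem w473 : WinAt (4398048608256, 281474980904960) :=
  chF (K := []) kn c473 4398048608256 281474980904960 48
    [] (by decide +kernel) (by decide +kernel)

/-- A certificate. -/
noncomputable def c474 : Ct := (.str 48 (.nv (.thr 32 16 (.thr 37 47 (.thr 15 26 (.dbl 5 10 53)))) (.nv (.thr 16 32 (.thr 26 31 (.thr 10 58 (.dbl 15 5 37)))) (.rp 47 (.thr 16 32 (.thr 26 31 (.thr 15 37 (.dbl 10 5 58)))) (.rp 37 (.thr 16 32 (.str 25 (.nv (.thr 17 29 (.thr 18 19 (.thr 3 33 (.thr 2 1 (.dbl 34 50 51))))) (.nv (.thr 8 59 (.thr 26 31 (.thr 24 27 (.thr 40 56 (.dbl 20 28 60))))) (.nv (.thr 8 59 (.thr 12 4 (.thr 17 29 (.dbl 51 34 38)))) (.rp 52 (.str 7 (.nv (.thr 17 29 (.thr 18 19 (.thr 3 33 (.thr 2 1 (.dbl 34 50 51))))) (.nv (.thr 26 31 (.thr 10 58 (.thr 15 5 (.thr 11 3 (.dbl 8 9 59))))) (.nv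 (.thr 17 29 (.thr 51 34 (.thr 8 59 (.dbl 12 4 38)))) .nd)))) (.rp 51 (.thr 26 31 (.thr 24 27 (.thr 12 36 (.dbl 8 4 59)))) (.rp 7 (.str 52 (.nv (.thr 17 29 (.thr 18 19 (.thr 3 33 (.thr 2 1 (.dbl 34 50 51))))) (.nv (.thr 60 56 (.thr 20 40 (.thr 24 28 (.dbl 36 4 12)))) (.rp 12 (.thr 60 56 (.thr 20 40 (.thr 24 28 (.dbl 26 27 31)))) .nd)))) .nd)))))))) (.rp 32 (.str 8 (.nv (.thr 12 4 (.thr 24 36 (.thr 25 59 (.thr 26 27 (.thr 10 58 (.dbl 15 5 37)))))) (.nv (.thr 12 4 (.thr 25 59 (.thr 17 29 (.dbl 51 34 38)))) (.rp 59 (.thr 12 4 (.thr 24 36 (.thr 40 56 (.thr 20 60 (.thr 16 28 (.thr 26 31 (.thr 15 37 (.dbl 10 5 58)))))))) (.rp 55 (.thr 12 4 (.thr 25 59 (.thr 51 38 (.dbl 17 29 34)))) (.rp 51 (.thr 12 4 (.thr 24 36 (.thr 40 56 (.thr 20 60 (.thr 16 28 (.thr 26 31 (.dbl 25 27 59))))))) (.rp 25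 (.thr 12 4 (.thr 24 36 (.thr 40 56 (.thr 41 43 (.thr 1 61 (.thr 3 2 (.thr 9 6 (.thr 10 11 (.dbl 5 13 15))))))))) (.rp 12 (.str 60 (.nv (.thr 40 20 (.dbl 56 24 52)) (.rp 56 (.thr 40 20 (.thr 25 59 (.thr 41 43 (.thr 57 9 (.thr 51 54 (.dbl 17 29 34)))))) (.rp 52 (.thr 40 20 (.thr 56 24 (.thr 25 59 (.thr 41 43 (.thr 9 57 (.dbl 11 10 26)))))) (.rp 46 (.str 29 (.nv (.thr 40 20 (.dbl 56 24 52)) (.nv (.dbl 25 17 59) .nd))) (.rp 40 (.thr 56 52 (.thr 59 25 (.thr 58 57 (.thr 26 10 (.thr 37 15 (.thr 41 11 (.thr 33 45 (.thr 3 18 (.dbl 1 2 61))))))))) (.rp 29 (.str 46 (.nv (.thr 40 20 (.dbl 56 24 52)) (.rp 56 (.thr 40 20 (.thr 34 38 (.thr 25 59 (.thr 41 43 (.thr 57 9 (.dbl 51 17 54)))))) (.rp 52 (.thr 40 20 (.thr 56 24 (.thr 34 38 (.thr 59 25 (.thr 51 17 (.dbl 57 54 58)))))) (.rp 40 (.thr 56 52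 (.thr 34 38 (.thr 59 25 (.thr 51 17 (.dbl 57 54 58))))) (.rp 24 (.thr 52 56 (.thr 20 40 (.thr 38 34 (.dbl 4 36 55)))) (.rp 20 (.thr 56 52 (.thr 34 38 (.thr 59 25 (.thr 51 17 (.dbl 57 54 58))))) .nd))))))) (.rp 24 (.thr 56 52 (.thr 40 20 (.thr 25 59 (.thr 41 43 (.thr 9 57 (.dbl 11 10 26)))))) (.rp 20 (.thr 56 52 (.thr 40 24 (.thr 25 59 (.thr 41 43 (.thr 9 57 (.dbl 11 10 26)))))) .nd))))))))) (.rp 4 (.thr 25 59 (.thr 17 29 (.thr 51 34 (.thr 12 38 (.thr 24 36 (.thr 26 27 (.thr 10 58 (.dbl 15 5 37)))))))) .nd))))))))) (.rp 26 (.thr 16 32 (.str 18 (.nv (.thr 17 19 (.thr 25 29 (.thr 8 59 (.thr 12 4 (.dbl 51 34 38))))) (.nv (.thr 17 19 (.thr 3 33 (.thr 2 1 (.dbl 34 50 51)))) (.rp 51 (.thr 17 19 (.thr 3 33 (.thr 1 2 (.thr 41 61 (.thr 40 43 (.thr 60 20 (.thr 56 52 (.thr 8 24 (.dbl 25 29 59)))))))))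 (.rp 34 (.thr 17 19 (.thr 25 29 (.thr 8 59 (.thr 12 4 (.thr 24 36 (.thr 40 56 (.dbl 20 28 60))))))) (.rp 25 (.thr 19 17 (.thr 3 33 (.thr 1 2 (.thr 35 51 (.thr 41 61 (.thr 40 43 (.thr 60 20 (.thr 56 52 (.thr 24 8 (.thr 44 38 (.dbl 12 28 36))))))))))) (.rp 19 (.thr 3 33 (.thr 1 2 (.thr 41 61 (.thr 40 43 (.thr 60 20 (.thr 56 52 (.thr 8 24 (.thr 25 59 (.thr 57 9 (.thr 51 54 (.dbl 17 29 34))))))))))) (.rp 17 (.thr 3 33 (.thr 1 2 (.thr 41 61 (.thr 40 43 (.thr 60 20 (.thr 56 52 (.thr 8 24 (.thr 25 59 (.thr 57 9 (.thr 51 54 (.dbl 12 4 38))))))))))) .nd))))))))) (.rp 16 (.str 8 (.nv (.thr 12 4 (.thr 24 36 (.thr 25 59 (.thr 26 27 (.thr 10 58 (.dbl 15 5 37)))))) (.nv (.thr 12 4 (.thr 25 59 (.thr 17 29 (.dbl 51 34 38)))) (.rp 59 (.thr 12 4 (.thr 24 36 (.thr 40 56 (.thr 41 43 (.thr 1 61 (.thr 3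 2 (.thr 9 6 (.thr 5 13 (.dbl 10 11 15))))))))) (.rp 55 (.thr 12 4 (.thr 25 59 (.thr 51 38 (.dbl 17 29 34)))) (.rp 51 (.thr 12 4 (.thr 24 36 (.thr 40 56 (.thr 41 43 (.thr 1 61 (.thr 3 2 (.thr 9 6 (.dbl 25 57 59)))))))) (.rp 25 (.thr 12 4 (.thr 24 36 (.thr 40 56 (.thr 41 43 (.thr 1 61 (.thr 3 2 (.thr 9 6 (.thr 10 11 (.dbl 5 13 15))))))))) (.rp 12 (.str 60 (.nv (.thr 40 20 (.dbl 56 24 52)) (.rp 56 (.thr 40 20 (.thr 25 59 (.thr 41 43 (.thr 57 9 (.thr 51 54 (.dbl 17 29 34)))))) (.rp 52 (.thr 40 20 (.thr 25 59 (.thr 41 43 (.thr 57 9 (.thr 51 54 (.dbl 17 29 34)))))) (.rp 46 (.str 29 (.nv (.thr 40 20 (.dbl 56 24 52)) (.nv (.dbl 25 17 59) .nd))) (.rp 40 (.thr 56 52 (.thr 59 25 (.thr 58 57 (.thr 26 10 (.thr 37 15 (.thr 41 11 (.thr 33 45 (.thr 3 18 (.dbl 1 2 61))))))))) (.rp 29 (.str 46 (.nv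 (.thr 20 40 (.thr 38 34 (.thr 4 55 (.dbl 52 36 56)))) (.nv (.thr 40 20 (.dbl 56 24 52)) (.rp 56 (.thr 40 20 (.thr 38 34 (.thr 41 43 (.thr 44 35 (.thr 32 36 (.dbl 47 37 45)))))) (.rp 52 (.thr 40 20 (.thr 38 34 (.thr 41 43 (.thr 44 35 (.thr 47 45 (.dbl 32 36 37)))))) (.rp 40 (.thr 56 52 (.thr 34 38 (.thr 59 25 (.thr 51 17 (.dbl 57 54 58))))) (.rp 20 (.thr 56 52 (.thr 34 38 (.thr 59 25 (.thr 51 17 (.dbl 57 54 58))))) .nd))))))) (.rp 28 (.thr 56 52 (.dbl 40 20 24)) (.rp 24 (.thr 56 52 (.thr 59 25 (.thr 58 57 (.thr 26 10 (.thr 41 11 (.dbl 40 20 43)))))) (.rp 20 (.thr 56 52 (.thr 24 40 (.thr 25 59 (.thr 26 27 (.thr 10 58 (.dbl 15 5 37)))))) .nd)))))))))) (.rp 4 (.thr 25 59 (.thr 17 29 (.thr 51 34 (.thr 12 38 (.thr 24 36 (.thr 26 27 (.thr 10 58 (.dbl 15 5 37)))))))) .nd))))))))) (.rp 15 (.thr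 32 16 (.str 36 (.nv (.thr 40 44 (.thr 20 60 (.thr 4 52 (.thr 38 55 (.dbl 37 39 47))))) (.nv (.thr 47 37 (.thr 24 12 (.thr 40 44 (.thr 60 20 (.dbl 56 8 52))))) (.nv (.thr 12 24 (.thr 8 4 (.thr 25 59 (.thr 17 29 (.dbl 51 34 38))))) (.nv (.thr 40 44 (.thr 12 24 (.thr 4 8 (.dbl 20 52 60)))) (.rp 47 (.str 31 (.nv (.thr 24 12 (.thr 40 44 (.thr 60 20 (.dbl 56 8 52)))) (.nv (.thr 12 24 (.thr 8 4 (.thr 25 59 (.thr 17 29 (.dbl 51 34 38))))) (.nv (.thr 12 24 (.thr 4 8 (.thr 40 44 (.dbl 20 52 60)))) (.rp 24 (.thr 40 44 (.thr 20 60 (.thr 4 52 (.thr 12 8 (.thr 38 55 (.thr 51 25 (.dbl 34 17 46))))))) (.rp 20 (.thr 44 40 (.thr 12 24 (.thr 28 60 (.thr 8 4 (.thr 25 59 (.dbl 29 17 30)))))) (.rp 12 (.thr 40 44 (.thr 60 20 (.thr 56 52 (.thr 41 43 (.thr 26 11 (.thr 58 10 (.thr 59 57 (.dbl 8 24 25))))))))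 (.rp 8 (.thr 12 24 (.thr 40 44 (.thr 20 60 (.thr 4 52 (.thr 38 55 (.thr 51 25 (.dbl 34 17 46))))))) .nd)))))))) (.rp 20 (.thr 44 40 (.thr 47 37 (.thr 46 45 (.thr 38 34 (.thr 4 55 (.dbl 12 8 24)))))) (.rp 12 (.thr 40 44 (.thr 41 43 (.thr 1 61 (.thr 3 2 (.thr 33 18 (.dbl 37 45 47)))))) .nd))))))))) (.rp 10 (.str 60 (.nv (.thr 16 32 (.thr 26 31 (.thr 40 20 (.thr 41 43 (.dbl 56 11 52))))) (.nv (.thr 32 16 (.thr 37 47 (.thr 15 26 (.thr 40 20 (.thr 41 43 (.dbl 45 30 33)))))) (.nv (.thr 52 56 (.thr 20 40 (.thr 16 32 (.thr 36 4 (.dbl 24 12 28))))) (.rp 40 (.thr 56 52 (.thr 16 32 (.thr 26 31 (.thr 41 11 (.thr 1 61 (.thr 3 2 (.thr 33 18 (.dbl 37 15 45)))))))) (.rp 32 (.thr 56 52 (.thr 40 20 (.thr 8 24 (.thr 25 59 (.thr 17 29 (.thr 51 34 (.dbl 12 4 38))))))) (.rp 20 (.thr 56 52 (.thr 16 32 (.thr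 26 31 (.thr 41 11 (.thr 1 61 (.thr 3 2 (.thr 33 18 (.dbl 37 15 45)))))))) (.rp 16 (.thr 52 56 (.thr 20 40 (.thr 4 36 (.thr 38 55 (.thr 34 46 (.thr 51 17 (.dbl 12 8 25))))))) .nd)))))))) (.rp 5 (.str 51 (.nv (.thr 16 32 (.thr 17 34 (.thr 26 31 (.thr 15 37 (.thr 27 39 (.dbl 25 24 29)))))) (.nv (.thr 17 34 (.thr 25 29 (.thr 8 59 (.dbl 12 4 38)))) (.rp 38 (.thr 17 34 (.thr 16 32 (.thr 26 31 (.thr 25 29 (.thr 27 24 (.dbl 15 37 39)))))) (.rp 34 (.thr 32 16 (.thr 37 47 (.thr 15 26 (.thr 39 27 (.thr 38 36 (.thr 4 55 (.dbl 12 8 25))))))) (.rp 29 (.thr 34 17 (.thr 38 46 (.thr 12 25 (.dbl 4 8 55)))) (.rp 25 (.thr 34 17 (.thr 32 16 (.thr 37 47 (.thr 38 46 (.thr 39 36 (.dbl 15 26 27)))))) (.rp 17 (.thr 32 16 (.thr 37 47 (.thr 15 26 (.thr 39 27 (.thr 38 36 (.thr 4 55 (.dbl 12 8 25))))))) .nd))))))))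 .nd)))))))))))

theorem w474 : WinAt (4398048608257, 9223934986812391424) :=
  chF (K := []) kn c474 4398048608257 9223934986812391424 63
    [] (by decide +kernel) (by decide +kernel)

/-- A certificate. -/
noncomputable def c475 : Ct := (.str 51 (.nv (.thr 55 59 (.thr 38 4 (.thr 12 25 (.dbl 46 29 34)))) (.nv (.thr 59 55 (.thr 25 8 (.thr 29 17 (.dbl 12 38 46)))) (.rp 59 (.str 47 (.nv (.thr 15 31 (.thr 37 32 (.thr 39 27 (.thr 38 36 (.thr 46 34 (.dbl 12 25 29)))))) (.nv (.thr 15 31 (.thr 37 32 (.thr 53 5 (.dbl 48 26 58)))) (.rp 48 (.thr 15 31 (.thr 39 27 (.thr 43 35 (.thr 23 3 (.thr 55 7 (.thr 38 4 (.dbl 37 32 36))))))) (.rp 37 (.thr 15 31 (.thr 39 27 (.thr 43 35 (.thr 41 40 (.thr 61 1 (.thr 60 62 (.thr 45 30 (.thr 29 13 (.dbl 46 12 44))))))))) (.rp 32 (.thr 15 31 (.thr 39 27 (.thr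 43 35 (.thr 23 3 (.thr 55 7 (.thr 38 4 (.thr 12 25 (.dbl 46 29 34)))))))) (.rp 31 (.thr 37 32 (.thr 53 5 (.thr 48 58 (.thr 15 26 (.thr 39 27 (.thr 38 36 (.thr 46 34 (.dbl 12 25 29)))))))) (.rp 16 (.thr 15 31 (.thr 37 32 (.thr 48 26 (.dbl 53 5 58)))) (.rp 15 (.str 3 (.nv (.thr 43 23 (.dbl 35 19 39)) (.rp 43 (.thr 35 19 (.thr 32 37 (.thr 34 33 (.thr 38 46 (.thr 25 12 (.thr 41 44 (.thr 57 9 (.thr 61 1 (.dbl 60 54 62))))))))) (.rp 39 (.thr 35 19 (.thr 43 23 (.thr 37 32 (.thr 41 40 (.thr 45 33 (.dbl 44 38 46)))))) (.rp 35 (.thr 43 23 (.thr 37 32 (.thr 41 40 (.thr 33 45 (.thr 48 18 (.dbl 53 5 58)))))) (.rp 23 (.thr 35 19 (.thr 43 39 (.thr 37 32 (.thr 41 40 (.thr 45 33 (.dbl 44 38 46)))))) (.rp 19 (.thr 43 23 (.thr 35 39 (.thr 37 32 (.thr 41 40 (.thr 45 33 (.dbl 44 38 46)))))) (.rp 10 (.str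 5 (.nv (.thr 35 19 (.dbl 43 23 39)) (.nv (.dbl 37 32 53) .nd))) (.rp 5 (.str 10 (.nv (.thr 43 23 (.dbl 35 19 39)) (.rp 43 (.thr 35 19 (.thr 58 26 (.thr 32 37 (.thr 48 53 (.dbl 33 18 34))))) (.rp 39 (.thr 19 35 (.thr 23 43 (.thr 26 58 (.dbl 31 16 27)))) (.rp 35 (.thr 43 23 (.thr 58 26 (.thr 37 32 (.thr 41 40 (.thr 33 45 (.dbl 48 18 53)))))) (.rp 23 (.thr 35 19 (.thr 58 26 (.thr 32 37 (.thr 48 53 (.dbl 33 18 34))))) (.rp 19 (.thr 43 23 (.thr 35 39 (.thr 58 26 (.thr 32 37 (.thr 48 53 (.dbl 33 18 34)))))) .nd))))))) .nd))))))))) .nd))))))))) (.rp 55 (.str 47 (.nv (.thr 15 31 (.thr 37 32 (.thr 39 27 (.thr 38 36 (.thr 46 34 (.dbl 12 25 29)))))) (.nv (.thr 15 31 (.thr 37 32 (.thr 53 5 (.dbl 48 26 58)))) (.rp 48 (.thr 15 31 (.thr 39 27 (.thr 43 35 (.thr 41 40 (.thr 61 1 (.thr 60 62 (.thr 45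 30 (.dbl 37 32 33)))))))) (.rp 37 (.thr 15 31 (.thr 39 27 (.thr 43 35 (.thr 41 40 (.thr 61 1 (.thr 60 62 (.thr 45 30 (.thr 29 13 (.dbl 46 12 44))))))))) (.rp 32 (.thr 15 31 (.thr 39 27 (.thr 43 35 (.thr 41 40 (.thr 61 1 (.thr 60 62 (.thr 45 30 (.thr 29 13 (.dbl 46 12 44))))))))) (.rp 31 (.thr 37 32 (.thr 53 5 (.thr 48 58 (.thr 15 26 (.thr 39 27 (.thr 38 36 (.thr 46 34 (.dbl 12 25 29)))))))) (.rp 16 (.thr 15 31 (.thr 37 32 (.thr 48 26 (.dbl 53 5 58)))) (.rp 15 (.str 3 (.nv (.thr 43 23 (.dbl 35 19 39)) (.rp 43 (.thr 35 19 (.thr 32 37 (.thr 34 33 (.thr 38 46 (.thr 25 12 (.thr 41 44 (.thr 57 9 (.thr 61 1 (.dbl 60 54 62))))))))) (.rp 39 (.thr 35 19 (.thr 32 37 (.thr 34 33 (.thr 38 46 (.thr 41 44 (.dbl 43 23 40)))))) (.rp 35 (.thr 43 23 (.thr 37 32 (.thr 41 40 (.thr 33 45 (.thr 48 18 (.dbl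 53 5 58)))))) (.rp 23 (.thr 35 19 (.thr 39 43 (.thr 37 32 (.thr 38 36 (.thr 46 34 (.dbl 12 25 29)))))) (.rp 19 (.thr 43 23 (.thr 37 32 (.thr 41 40 (.thr 33 45 (.thr 48 18 (.dbl 53 5 58)))))) (.rp 10 (.str 5 (.nv (.thr 35 19 (.dbl 43 23 39)) (.nv (.dbl 37 32 53) .nd))) (.rp 7 (.thr 35 19 (.dbl 43 23 39)) (.rp 5 (.str 10 (.nv (.thr 19 35 (.thr 23 43 (.thr 26 58 (.dbl 31 16 27)))) (.nv (.thr 43 23 (.dbl 35 19 39)) (.rp 43 (.thr 35 19 (.thr 58 26 (.thr 32 37 (.thr 48 53 (.dbl 33 18 34))))) (.rp 35 (.thr 43 23 (.thr 26 58 (.thr 41 40 (.thr 11 56 (.thr 59 27 (.dbl 8 9 25)))))) (.rp 23 (.thr 35 19 (.thr 58 26 (.thr 32 37 (.thr 48 53 (.dbl 33 18 34))))) (.rp 19 (.thr 43 23 (.thr 26 58 (.thr 41 40 (.thr 11 56 (.thr 8 9 (.dbl 59 25 27)))))) .nd))))))) .nd)))))))))) .nd))))))))) (.rp 46 (.str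 3 (.nv (.thr 35 19 (.thr 43 23 (.thr 41 40 (.thr 38 44 (.dbl 55 4 59))))) (.nv (.thr 43 23 (.thr 41 40 (.thr 59 55 (.thr 25 8 (.thr 9 57 (.dbl 12 6 38)))))) (.nv (.thr 19 35 (.thr 23 43 (.thr 55 59 (.thr 27 31 (.dbl 39 7 15))))) (.rp 59 (.thr 35 19 (.thr 43 23 (.thr 47 39 (.thr 37 32 (.thr 53 5 (.thr 48 58 (.dbl 15 26 31))))))) (.rp 55 (.thr 19 35 (.thr 23 43 (.thr 31 27 (.thr 26 16 (.thr 58 10 (.thr 48 53 (.dbl 15 37 47))))))) (.rp 43 (.thr 19 35 (.thr 59 55 (.thr 25 8 (.thr 17 29 (.thr 18 16 (.thr 48 33 (.thr 58 53 (.thr 26 10 (.thr 15 37 (.dbl 27 24 39)))))))))) (.rp 23 (.thr 19 35 (.thr 59 55 (.thr 25 8 (.thr 17 29 (.thr 16 18 (.thr 26 31 (.thr 27 24 (.thr 11 43 (.dbl 15 7 39))))))))) .nd)))))))) (.rp 38 (.str 26 (.nv (.thr 31 16 (.thr 15 47 (.thr 27 39 (.thr 25 24 (.dbl 59 8 55)))))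 (.nv (.thr 10 58 (.thr 59 55 (.thr 8 25 (.thr 11 9 (.thr 41 56 (.dbl 43 27 40)))))) (.nv (.thr 58 10 (.thr 48 53 (.thr 31 16 (.dbl 15 37 47)))) (.rp 54 (.str 6 (.nv (.thr 31 16 (.thr 15 47 (.thr 27 39 (.thr 25 24 (.dbl 59 8 55))))) (.nv (.thr 59 55 (.thr 25 8 (.thr 27 24 (.thr 11 43 (.thr 56 41 (.dbl 58 10 57)))))) (.nv (.thr 58 10 (.thr 31 16 (.thr 15 47 (.dbl 48 37 53)))) (.rp 58 (.str 62 (.nv (.thr 31 16 (.thr 15 47 (.thr 27 39 (.thr 25 24 (.dbl 59 8 55))))) (.nv (.thr 59 55 (.thr 61 60 (.thr 41 1 (.thr 40 43 (.thr 56 11 (.dbl 8 24 25)))))) (.nv (.thr 31 16 (.thr 15 47 (.thr 60 61 (.thr 30 45 (.thr 46 14 (.dbl 29 12 28)))))) .nd)))) .nd))))) (.rp 6 (.str 54 (.nv (.thr 31 16 (.thr 15 47 (.thr 48 37 (.dbl 58 10 53)))) (.nv (.thr 31 16 (.thr 15 47 (.thr 59 55 (.thr 25 8 (.dbl 27 24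 39))))) (.nv (.thr 55 59 (.thr 53 52 (.dbl 58 10 48))) (.rp 48 (.thr 57 60 (.thr 59 55 (.dbl 58 10 56))) .nd))))) .nd)))))) (.rp 29 (.str 48 (.nv (.thr 53 58 (.thr 55 59 (.thr 38 4 (.thr 12 25 (.thr 36 24 (.dbl 37 5 39)))))) (.nv (.thr 58 53 (.thr 26 10 (.thr 31 16 (.dbl 15 37 47)))) (.rp 58 (.thr 59 55 (.thr 25 8 (.thr 12 38 (.thr 24 36 (.thr 26 27 (.thr 31 16 (.dbl 15 37 47))))))) (.rp 53 (.thr 59 55 (.thr 25 8 (.thr 12 38 (.thr 24 36 (.thr 26 27 (.thr 31 16 (.dbl 15 37 47))))))) (.rp 37 (.thr 58 53 (.thr 59 55 (.thr 25 8 (.thr 26 10 (.thr 24 27 (.dbl 12 36 38)))))) (.rp 26 (.thr 53 58 (.thr 55 59 (.thr 38 4 (.thr 37 5 (.thr 36 39 (.dbl 12 24 25)))))) (.rp 5 (.thr 58 53 (.thr 26 10 (.thr 15 37 (.dbl 31 16 47)))) .nd)))))))) (.rp 25 (.thr 55 59 (.str 23 (.nv (.thr 38 4 (.thr 39 7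 (.thr 37 36 (.thr 47 32 (.dbl 43 3 35))))) (.nv (.thr 38 4 (.thr 39 7 (.thr 37 36 (.thr 47 32 (.dbl 15 27 31))))) (.nv (.thr 3 43 (.thr 19 35 (.thr 27 31 (.dbl 39 7 15)))) (.rp 47 (.thr 39 7 (.thr 27 15 (.thr 19 31 (.dbl 3 35 43)))) (.rp 39 (.thr 43 3 (.thr 38 4 (.thr 46 34 (.thr 41 40 (.thr 12 29 (.thr 44 35 (.thr 47 45 (.thr 31 15 (.thr 19 27 (.thr 60 28 (.dbl 61 1 62))))))))))) (.rp 28 (.str 19 (.nv (.thr 27 31 (.dbl 39 7 15)) (.nv (.dbl 3 35 43) .nd))) (.rp 19 (.str 28 (.nv (.thr 38 4 (.thr 39 7 (.thr 37 36 (.thr 47 32 (.dbl 15 27 31))))) (.nv (.thr 38 4 (.thr 43 3 (.thr 41 40 (.thr 44 35 (.thr 46 34 (.dbl 12 29 60)))))) (.nv (.thr 39 7 (.thr 15 27 (.thr 47 31 (.dbl 43 3 35)))) .nd)))) (.rp 7 (.thr 43 3 (.thr 38 4 (.thr 34 46 (.thr 41 40 (.thr 35 44 (.thr 47 39 (.dbl 32 33 37)))))))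 .nd)))))))))) (.rp 12 (.thr 55 59 (.str 54 (.nv (.thr 53 52 (.thr 37 5 (.thr 47 32 (.thr 15 31 (.thr 39 27 (.dbl 38 4 36)))))) (.nv (.thr 53 52 (.thr 48 58 (.thr 37 5 (.thr 15 26 (.thr 39 27 (.dbl 38 4 36)))))) (.nv (.thr 53 52 (.thr 37 5 (.thr 47 32 (.thr 15 31 (.dbl 48 26 58))))) (.rp 53 (.thr 60 57 (.thr 61 62 (.thr 41 1 (.thr 43 40 (.thr 3 23 (.thr 35 19 (.dbl 38 4 44))))))) (.rp 52 (.thr 60 57 (.thr 61 62 (.thr 41 1 (.thr 43 40 (.thr 3 23 (.thr 35 19 (.dbl 38 4 44))))))) (.rp 48 (.thr 60 57 (.thr 61 62 (.thr 41 1 (.thr 43 40 (.thr 3 23 (.thr 35 19 (.dbl 38 4 44))))))) (.rp 37 (.thr 60 57 (.thr 61 62 (.thr 41 1 (.thr 43 40 (.thr 3 23 (.thr 35 19 (.dbl 38 4 44))))))) (.rp 15 (.thr 60 57 (.thr 61 62 (.thr 41 1 (.thr 43 40 (.thr 3 23 (.thr 35 19 (.dbl 38 4 44))))))) (.rp 8 (.thr 4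 38 (.thr 53 52 (.thr 48 58 (.thr 37 5 (.thr 47 32 (.dbl 15 26 31)))))) (.rp 5 (.thr 60 57 (.thr 61 62 (.thr 41 1 (.thr 43 40 (.thr 3 23 (.thr 35 19 (.dbl 38 4 44))))))) (.rp 4 (.str 8 (.nv (.thr 52 53 (.thr 60 57 (.thr 61 62 (.thr 41 1 (.thr 40 43 (.dbl 56 24 48)))))) (.nv (.thr 53 52 (.thr 37 5 (.thr 47 32 (.thr 15 31 (.dbl 48 26 58))))) (.rp 58 (.thr 52 53 (.thr 60 57 (.thr 56 48 (.thr 61 62 (.thr 41 1 (.dbl 40 24 43)))))) (.rp 53 (.thr 60 57 (.thr 61 62 (.thr 41 1 (.thr 43 40 (.thr 3 23 (.thr 35 19 (.thr 44 38 (.thr 47 39 (.thr 45 46 (.dbl 15 30 31)))))))))) (.rp 52 (.thr 60 57 (.thr 61 62 (.thr 41 1 (.thr 43 40 (.thr 3 23 (.thr 35 19 (.thr 44 38 (.thr 47 39 (.thr 45 46 (.dbl 15 30 31)))))))))) (.rp 48 (.thr 60 57 (.thr 61 62 (.thr 53 52 (.thr 41 1 (.thr 37 5 (.thr 45 33 (.thr 15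 30 (.dbl 47 31 32)))))))) .nd))))))) .nd))))))))))))) (.rp 4 (.thr 59 55 (.thr 25 8 (.thr 12 38 (.dbl 29 17 46)))) .nd)))))))))))

theorem w475 : WinAt (9223376434903384064, 1125899911036929) :=
  chF (K := []) kn c475 9223376434903384064 1125899911036929 0
    [] (by decide +kernel) (by decide +kernel)

/-- A certificate. -/
noncomputable def c476 : Ct := (.str 37 (.nv (.thr 47 32 (.thr 53 5 (.thr 63 0 (.thr 15 31 (.dbl 48 26 58))))) (.nv (.thr 32 47 (.thr 0 63 (.thr 48 16 (.thr 5 53 (.dbl 15 10 26))))) (.rp 63 (.str 41 (.nv (.thr 40 43 (.thr 33 45 (.thr 32 47 (.thr 35 34 (.dbl 44 36 38))))) (.nv (.thr 53 5 (.thr 61 1 (.thr 49 57 (.thr 45 33 (.dbl 13 25 29))))) (.rp 59 (.str 55 (.nv (.thr 32 47 (.thr 38 4 (.thr 36 39 (.dbl 40 43 44)))) (.nv (.thr 1 61 (.thr 5 53 (.thr 13 9 (.thr 33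 45 (.dbl 49 17 25))))) (.nv (.thr 33 45 (.thr 38 4 (.thr 35 44 (.dbl 32 34 47)))) .nd)))) (.rp 55 (.str 59 (.nv (.thr 43 40 (.thr 11 27 (.thr 25 8 (.thr 57 9 (.dbl 56 26 58))))) (.nv (.thr 25 8 (.thr 33 45 (.thr 49 13 (.dbl 1 17 61)))) (.rp 25 (.thr 33 45 (.thr 32 47 (.thr 35 34 (.thr 40 43 (.dbl 44 36 38))))) (.rp 8 (.thr 33 45 (.thr 5 53 (.thr 1 61 (.thr 13 9 (.dbl 49 17 25))))) .nd))))) (.rp 45 (.thr 40 43 (.thr 32 47 (.thr 44 36 (.thr 35 38 (.thr 33 34 (.thr 1 61 (.thr 5 53 (.thr 13 9 (.dbl 49 17 25))))))))) (.rp 33 (.thr 43 40 (.thr 47 32 (.thr 35 39 (.thr 44 38 (.thr 45 46 (.thr 61 1 (.thr 53 5 (.thr 49 57 (.dbl 13 25 29))))))))) .nd))))))) (.rp 53 (.str 61 (.nv (.thr 63 0 (.thr 60 62 (.thr 41 1 (.thr 47 32 (.thr 15 31 (.dbl 45 30 33)))))) (.nv (.thr 0 63 (.thr 32 47 (.thr 41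 1 (.thr 40 43 (.thr 48 16 (.thr 60 20 (.thr 56 52 (.dbl 26 11 15)))))))) (.nv (.thr 0 63 (.thr 41 1 (.thr 40 43 (.thr 45 33 (.thr 60 20 (.thr 15 30 (.thr 10 5 (.dbl 26 48 58)))))))) (.nv (.thr 32 47 (.thr 41 1 (.thr 40 43 (.thr 33 45 (.thr 44 36 (.dbl 35 34 38)))))) (.rp 41 (.thr 47 32 (.thr 63 0 (.thr 60 62 (.thr 15 31 (.thr 45 30 (.thr 46 44 (.dbl 29 12 13))))))) (.rp 1 (.thr 47 32 (.thr 63 0 (.thr 60 62 (.thr 15 31 (.thr 45 30 (.thr 46 44 (.dbl 29 12 13))))))) .nd))))))) (.rp 48 (.thr 53 5 (.str 41 (.nv (.thr 32 47 (.thr 33 45 (.thr 40 43 (.thr 44 36 (.dbl 35 34 38))))) (.nv (.thr 45 33 (.thr 61 1 (.thr 13 29 (.dbl 49 25 57)))) (.rp 50 (.str 49 (.nv (.thr 33 45 (.thr 17 1 (.dbl 25 13 29))) (.nv (.dbl 61 1 57) (.rp 1 (.thr 57 61 (.dbl 25 9 13)) .nd)))) (.rp 49 (.str 50 (.nv (.thr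 0 63 (.thr 1 61 (.thr 2 3 (.thr 32 47 (.thr 34 18 (.dbl 33 35 45)))))) (.nv (.thr 33 45 (.thr 40 43 (.thr 32 47 (.thr 44 36 (.dbl 35 34 38))))) (.rp 47 (.thr 33 45 (.thr 0 63 (.thr 1 61 (.thr 2 3 (.thr 34 18 (.thr 35 32 (.dbl 38 44 46))))))) (.rp 45 (.thr 40 43 (.thr 32 47 (.thr 44 36 (.thr 35 38 (.thr 34 33 (.thr 0 63 (.thr 1 61 (.dbl 2 3 18)))))))) (.rp 43 (.thr 45 33 (.thr 47 32 (.thr 46 44 (.thr 34 38 (.thr 0 63 (.thr 1 61 (.dbl 2 3 18))))))) (.rp 35 (.thr 45 33 (.thr 40 43 (.thr 0 63 (.thr 60 20 (.thr 1 61 (.thr 3 2 (.thr 15 30 (.thr 11 7 (.thr 26 56 (.thr 58 10 (.thr 54 62 (.thr 55 52 (.dbl 38 4 14))))))))))))) (.rp 34 (.thr 45 33 (.thr 43 40 (.thr 47 32 (.thr 35 39 (.dbl 44 38 46))))) (.rp 33 (.thr 40 43 (.thr 32 47 (.thr 44 36 (.thr 0 63 (.thr 60 20 (.thr 12 28 (.thr 4 8 (.dbl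 38 35 55)))))))) (.rp 32 (.thr 33 45 (.thr 0 63 (.thr 1 61 (.thr 2 3 (.thr 34 18 (.thr 38 46 (.thr 55 4 (.thr 54 52 (.thr 26 14 (.dbl 58 10 62)))))))))) .nd)))))))))) (.rp 45 (.thr 40 43 (.thr 32 47 (.thr 44 36 (.thr 0 63 (.thr 60 20 (.thr 12 28 (.thr 4 8 (.dbl 38 35 55)))))))) (.rp 33 (.thr 40 43 (.thr 32 47 (.thr 44 36 (.thr 0 63 (.thr 60 20 (.thr 12 28 (.thr 4 8 (.dbl 38 35 55)))))))) .nd)))))))) (.rp 47 (.str 61 (.nv (.thr 0 63 (.thr 5 53 (.thr 15 10 (.thr 41 1 (.thr 40 43 (.thr 60 20 (.dbl 45 30 33))))))) (.nv (.thr 41 1 (.thr 45 33 (.thr 13 29 (.thr 53 5 (.dbl 49 25 57))))) (.rp 53 (.thr 63 0 (.thr 60 62 (.thr 41 1 (.thr 45 33 (.thr 29 13 (.thr 12 46 (.thr 28 44 (.dbl 30 15 31)))))))) (.rp 45 (.thr 1 41 (.thr 53 5 (.thr 49 57 (.thr 17 33 (.dbl 25 13 29))))) (.rp 41 (.thr 63 0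 (.thr 60 62 (.thr 53 5 (.thr 49 57 (.thr 48 58 (.thr 56 52 (.thr 25 13 (.thr 8 59 (.thr 24 40 (.dbl 26 15 27)))))))))) (.rp 33 (.thr 1 41 (.thr 5 53 (.thr 13 9 (.thr 25 49 (.dbl 29 17 45))))) (.rp 5 (.thr 63 0 (.thr 41 1 (.thr 33 45 (.thr 43 40 (.thr 3 23 (.thr 48 18 (.thr 58 53 (.dbl 26 10 15)))))))) (.rp 1 (.thr 63 0 (.thr 60 62 (.thr 53 5 (.thr 49 57 (.thr 48 58 (.thr 13 25 (.thr 45 29 (.dbl 15 26 30)))))))) .nd))))))))) (.rp 32 (.str 61 (.nv (.thr 0 63 (.thr 1 41 (.thr 3 2 (.thr 5 53 (.thr 13 9 (.thr 25 49 (.dbl 29 17 45))))))) (.nv (.thr 0 63 (.thr 5 53 (.thr 15 10 (.thr 41 1 (.thr 40 43 (.thr 60 20 (.dbl 45 30 33))))))) (.nv (.thr 53 5 (.thr 49 57 (.thr 25 13 (.thr 17 29 (.dbl 1 33 41))))) (.rp 53 (.thr 63 0 (.thr 60 62 (.thr 41 1 (.thr 45 33 (.thr 15 30 (.thr 31 47 (.dbl 26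 16 48))))))) (.rp 41 (.thr 63 0 (.thr 60 62 (.thr 53 5 (.thr 49 57 (.thr 48 58 (.thr 56 52 (.thr 25 13 (.thr 8 59 (.thr 24 40 (.dbl 26 15 27)))))))))) (.rp 5 (.thr 63 0 (.thr 60 62 (.thr 41 1 (.thr 45 33 (.thr 15 30 (.thr 31 47 (.dbl 26 16 48))))))) (.rp 1 (.thr 63 0 (.thr 60 62 (.thr 53 5 (.thr 49 57 (.thr 48 58 (.thr 13 25 (.thr 45 29 (.dbl 15 26 30)))))))) .nd)))))))) (.rp 31 (.thr 32 47 (.thr 5 53 (.thr 0 63 (.thr 15 10 (.dbl 48 16 26))))) (.rp 26 (.thr 5 53 (.str 13 (.nv (.thr 0 63 (.thr 15 10 (.thr 12 14 (.thr 8 4 (.dbl 25 49 59))))) (.nv (.thr 0 63 (.thr 9 1 (.thr 15 10 (.thr 12 14 (.thr 4 8 (.dbl 6 3 7)))))) (.nv (.thr 1 9 (.thr 41 61 (.thr 33 45 (.dbl 49 17 25)))) (.rp 30 (.str 18 (.nv (.thr 0 63 (.thr 15 10 (.thr 12 14 (.thr 8 4 (.dbl 25 49 59))))) (.nv (.thr 0 63 (.thr 1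 9 (.thr 3 2 (.thr 48 33 (.dbl 32 16 47))))) (.nv (.thr 1 9 (.thr 41 61 (.thr 33 45 (.dbl 49 17 25)))) .nd)))) (.rp 18 (.str 30 (.nv (.thr 0 63 (.thr 1 9 (.thr 15 10 (.thr 45 60 (.dbl 41 33 61))))) (.nv (.thr 0 63 (.thr 15 10 (.thr 12 14 (.thr 8 4 (.dbl 25 49 59))))) (.nv (.thr 1 9 (.thr 41 61 (.thr 33 45 (.dbl 49 17 25)))) .nd)))) .nd))))))) (.rp 16 (.thr 47 32 (.thr 53 5 (.thr 63 0 (.thr 48 58 (.dbl 15 26 31))))) (.rp 15 (.thr 5 53 (.str 1 (.nv (.thr 0 63 (.thr 3 2 (.thr 13 9 (.thr 25 49 (.thr 61 41 (.dbl 29 17 45)))))) (.nv (.thr 0 63 (.thr 3 2 (.thr 41 61 (.thr 33 45 (.thr 48 18 (.dbl 32 16 47)))))) (.nv (.thr 13 9 (.thr 41 61 (.thr 33 45 (.dbl 49 17 25)))) (.rp 61 (.thr 13 9 (.thr 0 63 (.thr 3 2 (.thr 49 25 (.thr 33 17 (.thr 48 18 (.dbl 32 16 47))))))) (.rp 49 (.thr 9 13 (.thr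 47 32 (.thr 41 61 (.thr 57 25 (.thr 45 33 (.thr 44 46 (.thr 43 40 (.dbl 35 38 39)))))))) (.rp 45 (.thr 13 9 (.thr 0 63 (.thr 3 2 (.thr 49 25 (.thr 33 17 (.thr 48 18 (.dbl 32 16 47))))))) (.rp 41 (.thr 9 13 (.thr 0 63 (.thr 3 2 (.thr 12 6 (.thr 8 4 (.thr 10 11 (.thr 59 25 (.thr 58 26 (.thr 56 57 (.thr 24 40 (.thr 48 36 (.dbl 32 16 47)))))))))))) (.rp 39 (.str 27 (.nv (.thr 0 63 (.thr 3 2 (.thr 41 61 (.thr 33 45 (.thr 48 18 (.dbl 32 16 47)))))) (.nv (.thr 13 9 (.thr 41 61 (.thr 43 40 (.thr 59 11 (.dbl 25 8 49))))) (.nv (.thr 13 9 (.thr 41 61 (.thr 33 45 (.dbl 49 17 25)))) (.rp 61 (.thr 9 13 (.thr 0 63 (.thr 3 2 (.thr 12 6 (.thr 8 4 (.thr 59 25 (.dbl 11 10 43))))))) (.rp 57 (.thr 13 9 (.thr 25 49 (.thr 61 41 (.dbl 29 17 45)))) (.rp 49 (.thr 9 13 (.thr 41 61 (.thr 57 25 (.thr 43 40 (.thr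 11 59 (.thr 10 8 (.dbl 26 56 58))))))) (.rp 41 (.thr 9 13 (.thr 0 63 (.thr 3 2 (.thr 12 6 (.thr 8 4 (.thr 59 25 (.dbl 11 10 43))))))) (.rp 13 (.thr 41 61 (.thr 63 0 (.thr 43 40 (.thr 11 59 (.thr 23 3 (.thr 26 56 (.dbl 31 16 19))))))) .nd))))))))) (.rp 27 (.str 39 (.nv (.thr 13 9 (.thr 25 49 (.thr 61 41 (.dbl 29 17 45)))) (.nv (.thr 47 32 (.thr 41 61 (.dbl 43 35 40))) (.rp 61 (.thr 38 36 (.thr 46 34 (.thr 47 32 (.thr 35 43 (.dbl 44 41 45))))) (.rp 49 (.thr 47 32 (.thr 43 35 (.dbl 41 40 61))) (.rp 41 (.thr 13 9 (.thr 38 36 (.thr 34 46 (.thr 32 47 (.thr 33 35 (.dbl 49 17 25)))))) .nd)))))) (.rp 13 (.thr 47 32 (.thr 41 61 (.thr 45 33 (.thr 44 46 (.thr 35 38 (.dbl 43 39 40)))))) .nd)))))))))))) (.rp 5 (.str 1 (.nv (.thr 0 63 (.thr 3 2 (.thr 32 47 (.thr 41 61 (.thr 48 16 (.dbl 33 18 45))))))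 (.nv (.thr 41 61 (.thr 43 40 (.thr 45 33 (.thr 47 32 (.thr 44 46 (.dbl 35 38 39)))))) (.rp 61 (.thr 32 47 (.thr 0 63 (.thr 3 2 (.thr 48 16 (.thr 33 18 (.thr 41 45 (.thr 40 43 (.thr 44 36 (.dbl 35 34 38))))))))) (.rp 47 (.thr 0 63 (.thr 3 2 (.thr 41 61 (.thr 33 45 (.thr 48 18 (.thr 16 32 (.dbl 26 15 31))))))) (.rp 45 (.thr 47 32 (.thr 63 0 (.thr 15 31 (.thr 41 61 (.thr 43 40 (.thr 3 23 (.thr 11 7 (.dbl 26 48 56)))))))) (.rp 41 (.thr 32 47 (.thr 0 63 (.thr 3 2 (.thr 48 16 (.thr 33 18 (.thr 34 35 (.thr 38 46 (.thr 39 36 (.thr 55 4 (.thr 7 23 (.dbl 15 11 26))))))))))) (.rp 33 (.thr 47 32 (.thr 63 0 (.thr 15 31 (.thr 41 61 (.thr 43 40 (.thr 3 23 (.thr 11 7 (.dbl 26 48 56)))))))) (.rp 32 (.thr 63 0 (.thr 41 61 (.thr 33 45 (.thr 43 40 (.thr 3 23 (.thr 48 18 (.thr 58 53 (.dbl 26 10 15))))))))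 .nd))))))))) (.rp 0 (.str 41 (.nv (.thr 1 61 (.thr 5 53 (.thr 13 9 (.thr 33 45 (.dbl 49 17 25))))) (.nv (.thr 33 45 (.thr 40 43 (.thr 32 47 (.thr 44 36 (.dbl 35 34 38))))) (.rp 45 (.str 17 (.nv (.thr 1 61 (.thr 49 33 (.dbl 25 13 29))) (.rp 61 (.thr 25 29 (.thr 13 49 (.thr 57 9 (.thr 59 8 (.thr 43 40 (.thr 11 27 (.dbl 56 26 58))))))) (.rp 49 (.thr 25 29 (.thr 9 57 (.thr 8 59 (.thr 11 10 (.thr 40 43 (.dbl 56 24 26)))))) (.rp 33 (.thr 25 29 (.thr 13 49 (.thr 9 57 (.dbl 1 5 61)))) (.rp 29 (.thr 5 53 (.thr 1 61 (.thr 13 9 (.dbl 49 25 33)))) (.rp 25 (.thr 1 61 (.thr 33 49 (.thr 32 47 (.thr 35 34 (.thr 40 43 (.dbl 44 36 38)))))) (.rp 13 (.thr 32 47 (.thr 40 43 (.thr 44 36 (.thr 35 38 (.thr 33 34 (.dbl 1 49 61)))))) (.rp 1 (.thr 25 29 (.thr 9 57 (.thr 8 59 (.thr 11 10 (.thr 40 43 (.dbl 56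 24 26)))))) .nd))))))))) (.rp 34 (.str 17 (.nv (.thr 1 61 (.thr 5 53 (.thr 13 9 (.dbl 25 29 49)))) (.nv (.thr 33 45 (.dbl 1 49 61)) (.rp 61 (.thr 33 45 (.thr 49 1 (.dbl 25 13 29))) (.rp 49 (.thr 45 33 (.thr 29 25 (.dbl 61 1 13))) (.rp 1 (.thr 45 33 (.thr 43 40 (.thr 47 32 (.thr 35 39 (.dbl 44 38 46))))) .nd)))))) (.rp 33 (.thr 43 40 (.thr 47 32 (.thr 35 39 (.thr 44 38 (.thr 45 46 (.thr 61 1 (.thr 53 5 (.thr 49 57 (.dbl 13 25 29))))))))) (.rp 17 (.str 34 (.nv (.thr 32 47 (.thr 38 46 (.thr 44 35 (.dbl 36 39 40)))) (.nv (.thr 33 45 (.dbl 32 35 47)) (.rp 47 (.thr 33 45 (.thr 35 32 (.dbl 38 44 46))) (.rp 35 (.thr 45 33 (.thr 46 38 (.dbl 47 32 44))) (.rp 32 (.thr 45 33 (.thr 53 5 (.thr 61 1 (.thr 49 57 (.dbl 13 25 29))))) .nd)))))) .nd))))))) .nd))))))))))))))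

theorem w476 : WinAt (4398048608256, 2251799817879552) :=
  chF (K := []) kn c476 4398048608256 2251799817879552 51
    [] (by decide +kernel) (by decide +kernel)

end Pool.Agent.TTT.B43
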