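import Pool.Agent.TTT.B43

/-!
Certified forced wins in positions of the 4 x 4 x 4 board.
-/

set_option autoImplicit false
set_option maxRecDepth 1000000
set_option linter.all false

namespace Pool.Agent.TTT.B43

/-- A certificate. -/
noncomputable def c106 : Ct := (.str 12 (.nv (.thr 4 8 (.thr 38 55 (.thr 51 25 (.dbl 34 17 46)))) (.nv (.thr 8 4 (.thr 25 59 (.thr 51 38 (.dbl 17 29 34)))) (.rp 51 (.thr 4 8 (.thr 55 38 (.str 20 (.nv (.thr 22 23 (.thr 52 36 (.thr 37 7 (.dbl 53 5 54)))) (.nv (.thr 36 52 (.thr 60 40 (.thr 28 44 (.dbl 24 16 48)))) (.rp 52 (.thr 60 40 (.thr 22 23 (.thr 2 62 (.thr 3 41 (.thr 6 9 (.thr 10 14 (.dbl 5 7 15))))))) (.rp 36 (.thr 60 40 (.thr 22 23 (.thr 2 62 (.thr 3 41 (.thr 6 9 (.thr 10 14 (.dbl 5 7 15))))))) (.rp 35 (.str 3 (.nv (.thr 6 9 (.thr 5 7 (.thr 52 36 (.dbl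 53 37 54)))) (.nv (.thr 22 23 (.dbl 60 40 41)) (.rp 44 (.str 41 (.nv (.dbl 40 43 60) (.nv (.dbl 22 23 60) (.rp 60 (.thr 23 22 (.thr 7 39 (.dbl 6 5 9))) .nd)))) (.rp 41 (.str 44 (.nv (.thr 6 9 (.thr 23 22 (.dbl 7 5 39))) (.nv (.dbl 60 28 40) (.rp 28 (.thr 36 52 (.dbl 40 32 60)) .nd)))) .nd))))) (.rp 3 (.str 35 (.nv (.thr 52 36 (.thr 53 54 (.thr 37 5 (.dbl 22 7 23)))) (.nv (.thr 36 52 (.thr 60 40 (.thr 28 44 (.dbl 24 16 48)))) (.rp 60 (.thr 36 52 (.thr 48 24 (.thr 32 16 (.thr 37 47 (.thr 5 53 (.dbl 15 10 26)))))) (.rp 52 (.thr 40 60 (.thr 22 23 (.thr 43 41 (.thr 47 39 (.thr 32 37 (.thr 36 44 (.dbl 48 16 24))))))) (.rp 43 (.thr 23 22 (.thr 36 52 (.thr 60 40 (.thr 28 44 (.dbl 24 16 48))))) (.rp 36 (.thr 23 22 (.thr 39 7 (.thr 43 47 (.dbl 40 41 60)))) (.rp 23 (.str 43 (.nv (.dbl 40 41 60) (.rp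 60 (.thr 47 39 (.thr 52 36 (.thr 37 32 (.dbl 53 5 54)))) (.rp 41 (.thr 47 39 (.thr 52 36 (.thr 37 32 (.dbl 53 5 54)))) (.rp 40 (.thr 47 39 (.thr 36 52 (.thr 32 37 (.dbl 48 16 24)))) (.rp 31 (.str 27 (.nv (.dbl 40 41 60) (.rp 60 (.thr 47 39 (.thr 52 36 (.thr 37 32 (.dbl 53 5 54)))) (.rp 47 (.str 15 (.nv (.thr 5 10 (.thr 52 36 (.dbl 53 37 54))) (.nv (.dbl 40 41 60) .nd))) (.rp 41 (.thr 47 39 (.thr 52 36 (.thr 37 32 (.dbl 53 5 54)))) (.rp 40 (.thr 47 39 (.thr 36 52 (.thr 32 37 (.dbl 48 16 24)))) (.rp 15 (.thr 47 39 (.dbl 40 41 60)) .nd))))))) (.rp 27 (.str 31 (.nv (.thr 16 26 (.thr 24 28 (.dbl 36 48 52))) (.nv (.dbl 40 41 60) (.rp 39 (.str 15 (.nv (.thr 36 52 (.thr 10 5 (.dbl 26 16 58))) (.nv (.dbl 40 41 60) (.rp 36 (.str 37 (.nv (.dbl 26 16 48) (.nv (.dbl 5 10 53) .nd))) .nd)))) (.rp 15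 (.thr 39 47 (.dbl 40 41 60)) .nd))))) .nd))))))) .nd)))))))) .nd))))))))) (.rp 38 (.str 15 (.nv (.thr 8 4 (.thr 10 5 (.thr 9 11 (.thr 6 3 (.dbl 14 2 13))))) (.nv (.thr 5 10 (.thr 37 53 (.thr 32 47 (.dbl 48 16 26)))) (.rp 10 (.thr 13 14 (.thr 8 4 (.thr 25 59 (.thr 37 49 (.thr 32 47 (.dbl 48 16 26)))))) (.rp 5 (.thr 13 14 (.thr 8 4 (.thr 25 59 (.thr 37 49 (.thr 32 47 (.dbl 48 16 26)))))) .nd))))) (.rp 34 (.str 15 (.nv (.thr 8 4 (.thr 10 5 (.thr 9 11 (.thr 6 3 (.dbl 14 2 13))))) (.nv (.thr 5 10 (.thr 37 53 (.thr 48 26 (.dbl 32 16 47)))) (.rp 10 (.thr 13 14 (.thr 8 4 (.thr 25 59 (.thr 37 49 (.thr 32 47 (.dbl 48 16 26)))))) (.rp 5 (.thr 13 14 (.thr 8 4 (.thr 25 59 (.thr 37 49 (.thr 32 47 (.dbl 48 16 26)))))) .nd))))) (.rp 25 (.str 22 (.nv (.thr 2 62 (.thr 4 8 (.thr 38 55 (.thr 6 54 (.thr 10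 14 (.dbl 5 7 15)))))) (.nv (.thr 8 4 (.thr 20 23 (.thr 40 60 (.thr 24 56 (.thr 48 36 (.dbl 16 28 32)))))) (.nv (.thr 4 8 (.thr 23 20 (.thr 55 38 (.thr 7 39 (.thr 37 52 (.dbl 5 6 53)))))) (.rp 8 (.thr 20 23 (.thr 60 40 (.thr 28 44 (.thr 24 16 (.thr 36 48 (.thr 4 52 (.thr 38 55 (.thr 3 41 (.dbl 6 9 54))))))))) (.rp 4 (.thr 20 23 (.thr 60 40 (.thr 28 44 (.thr 16 24 (.thr 32 48 (.thr 37 47 (.thr 7 52 (.thr 3 41 (.thr 15 11 (.dbl 5 10 53)))))))))) .nd)))))) (.rp 17 (.thr 8 4 (.thr 25 59 (.thr 51 38 (.str 16 (.nv (.thr 26 31 (.thr 10 58 (.thr 15 5 (.thr 13 14 (.dbl 37 48 49))))) (.nv (.thr 48 32 (.thr 24 36 (.thr 20 28 (.dbl 40 56 60)))) (.nv (.thr 48 32 (.thr 26 31 (.dbl 24 27 36))) (.rp 49 (.str 33 (.nv (.thr 26 31 (.thr 10 58 (.thr 15 5 (.dbl 27 24 39)))) (.nv (.thr 48 32 (.thr 24 36 (.thr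 20 28 (.dbl 40 56 60)))) (.nv (.thr 48 32 (.thr 26 31 (.dbl 24 27 36))) (.rp 48 (.thr 26 31 (.thr 27 24 (.thr 15 39 (.dbl 10 5 58)))) (.rp 24 (.thr 48 32 (.thr 26 31 (.thr 10 58 (.dbl 15 5 37)))) .nd)))))) (.rp 48 (.thr 26 31 (.thr 27 24 (.thr 15 39 (.dbl 10 5 58)))) (.rp 33 (.str 49 (.nv (.dbl 48 32 50) (.rp 50 (.thr 32 48 (.dbl 37 13 47)) (.rp 48 (.thr 13 37 (.thr 26 31 (.thr 27 24 (.dbl 15 14 39)))) (.rp 32 (.thr 37 13 (.thr 48 50 (.dbl 26 15 31))) .nd))))) .nd)))))))))) (.rp 8 (.str 32 (.nv (.thr 37 47 (.thr 5 53 (.thr 15 10 (.dbl 48 16 26)))) (.nv (.thr 37 47 (.thr 48 16 (.thr 36 24 (.thr 38 39 (.thr 34 46 (.dbl 51 17 25)))))) (.nv (.thr 48 16 (.thr 37 47 (.thr 15 26 (.dbl 5 10 53)))) (.rp 48 (.thr 37 47 (.str 15 (.nv (.dbl 5 10 53) (.rp 58 (.thr 53 5 (.thr 13 14 (.thr 25 49 (.thr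 17 29 (.dbl 51 34 38))))) (.rp 53 (.str 58 (.nv (.dbl 10 5 26) (.rp 26 (.thr 13 14 (.thr 25 49 (.thr 17 29 (.dbl 51 34 38)))) (.rp 10 (.thr 13 14 (.thr 25 49 (.thr 17 29 (.dbl 51 34 38)))) (.rp 5 (.thr 13 14 (.thr 25 49 (.thr 17 29 (.dbl 51 34 38)))) .nd))))) (.rp 10 (.thr 13 14 (.thr 25 49 (.thr 17 29 (.dbl 51 34 38)))) (.rp 5 (.thr 13 14 (.thr 25 49 (.thr 17 29 (.dbl 51 34 38)))) .nd))))))) (.rp 47 (.thr 48 16 (.thr 36 24 (.thr 40 44 (.thr 20 60 (.thr 4 52 (.thr 38 55 (.thr 51 25 (.dbl 34 17 46)))))))) (.rp 37 (.thr 48 16 (.thr 36 24 (.thr 40 44 (.thr 20 60 (.thr 4 52 (.thr 38 55 (.thr 34 46 (.dbl 51 17 25)))))))) (.rp 16 (.thr 37 47 (.thr 5 53 (.thr 15 10 (.thr 13 14 (.thr 25 49 (.thr 17 29 (.dbl 51 34 38))))))) (.rp 15 (.thr 48 16 (.thr 36 24 (.thr 40 44 (.thr 20 60 (.thr 52 4 (.thr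 22 23 (.dbl 37 7 47))))))) .nd))))))))) (.rp 4 (.str 26 (.nv (.thr 10 58 (.thr 15 5 (.thr 48 37 (.dbl 16 31 32)))) (.nv (.thr 16 31 (.thr 10 58 (.thr 48 32 (.dbl 15 5 37)))) (.rp 58 (.thr 16 31 (.thr 48 32 (.thr 15 37 (.thr 14 13 (.thr 38 50 (.thr 34 46 (.dbl 51 17 25))))))) (.rp 48 (.str 14 (.nv (.thr 38 50 (.thr 34 46 (.dbl 51 17 25))) (.nv (.thr 15 13 (.dbl 10 5 58)) (.rp 58 (.str 53 (.nv (.thr 38 50 (.thr 34 46 (.dbl 51 17 25))) (.nv (.thr 5 37 (.dbl 15 10 13)) .nd))) (.rp 53 (.thr 58 10 (.thr 38 50 (.thr 34 46 (.dbl 51 17 25)))) .nd))))) (.rp 37 (.thr 16 31 (.thr 48 32 (.thr 24 36 (.thr 20 28 (.thr 40 60 (.thr 41 43 (.dbl 56 8 11))))))) (.rp 32 (.thr 10 58 (.thr 15 5 (.thr 48 37 (.thr 24 36 (.thr 25 27 (.thr 17 29 (.dbl 51 34 38))))))) (.rp 31 (.thr 10 58 (.thr 15 5 (.thr 48 37 (.thr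 24 36 (.thr 16 32 (.thr 20 28 (.thr 40 60 (.thr 41 43 (.dbl 56 8 11))))))))) (.rp 16 (.thr 10 58 (.thr 15 5 (.thr 48 37 (.thr 24 36 (.thr 25 27 (.thr 17 29 (.dbl 51 34 38))))))) (.rp 15 (.thr 31 16 (.str 17 (.nv (.thr 25 29 (.dbl 51 34 38)) (.rp 51 (.thr 25 29 (.thr 27 24 (.thr 59 8 (.thr 11 43 (.thr 58 10 (.dbl 56 41 57)))))) (.rp 38 (.thr 25 29 (.thr 27 24 (.thr 59 8 (.thr 11 43 (.thr 58 10 (.dbl 56 41 57)))))) (.rp 34 (.thr 25 29 (.thr 27 24 (.thr 59 8 (.thr 11 43 (.thr 58 10 (.dbl 56 41 57)))))) (.rp 29 (.thr 34 51 (.thr 38 46 (.thr 58 10 (.thr 50 14 (.thr 2 18 (.dbl 62 22 54)))))) (.rp 25 (.thr 34 51 (.thr 38 46 (.thr 58 10 (.thr 50 14 (.thr 2 18 (.dbl 62 22 54)))))) .nd)))))))) (.rp 10 (.thr 16 31 (.thr 48 32 (.thr 15 37 (.thr 14 13 (.thr 38 50 (.thr 34 46 (.dbl 51 17 25))))))) (.rp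 5 (.thr 16 31 (.thr 48 32 (.thr 24 36 (.thr 20 28 (.thr 40 60 (.thr 41 43 (.dbl 56 8 11))))))) .nd)))))))))))) .nd))))))))))

theorem w106 : WinAt (4398048608257, 9223372036855300098) :=
  chF (K := []) kn c106 4398048608257 9223372036855300098 63
    [] (by decide +kernel) (by decide +kernel)

/-- A certificate. -/
noncomputable def c107 : Ct := (.str 10 (.nv (.thr 26 58 (.thr 16 31 (.thr 48 32 (.dbl 15 5 37)))) (.nv (.thr 15 5 (.thr 26 58 (.thr 48 37 (.dbl 16 31 32)))) (.rp 58 (.str 8 (.nv (.thr 25 59 (.thr 17 29 (.thr 51 34 (.dbl 12 4 38)))) (.nv (.thr 9 11 (.thr 12 4 (.thr 6 3 (.thr 14 2 (.dbl 15 5 13))))) (.nv (.thr 12 4 (.thr 25 59 (.thr 51 38 (.dbl 17 29 34)))) (.rp 53 (.str 48 (.nv (.thr 12 4 (.thr 25 59 (.thr 17 29 (.dbl 51 34 38)))) (.nv (.thr 16 32 (.thr 26 31 (.dbl 15 5 37)))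 .nd))) (.rp 48 (.str 53 (.nv (.dbl 5 15 37) (.rp 37 (.thr 12 4 (.thr 25 59 (.thr 17 29 (.dbl 51 34 38)))) (.rp 15 (.thr 12 4 (.thr 25 59 (.thr 17 29 (.dbl 51 34 38)))) (.rp 5 (.thr 12 4 (.thr 25 59 (.thr 17 29 (.dbl 51 34 38)))) .nd))))) (.rp 12 (.thr 11 9 (.thr 59 25 (.thr 43 27 (.thr 41 40 (.thr 26 56 (.thr 16 31 (.thr 48 32 (.dbl 15 5 37)))))))) (.rp 4 (.thr 11 9 (.thr 59 25 (.thr 43 27 (.thr 41 40 (.thr 26 56 (.thr 16 31 (.thr 48 32 (.dbl 15 5 37)))))))) .nd)))))))) (.rp 48 (.str 14 (.nv (.thr 6 2 (.thr 15 5 (.thr 12 13 (.thr 9 3 (.dbl 8 4 11))))) (.nv (.thr 2 6 (.thr 62 22 (.thr 46 30 (.thr 38 34 (.dbl 26 50 58))))) (.rp 58 (.str 53 (.nv (.dbl 5 15 37) (.rp 37 (.thr 6 2 (.thr 15 5 (.thr 12 13 (.thr 9 3 (.dbl 8 4 11))))) (.rp 15 (.thr 2 6 (.thr 62 22 (.thr 46 30 (.thr 38 34 (.thr 37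 5 (.thr 47 32 (.thr 39 36 (.thr 35 43 (.dbl 44 41 45))))))))) (.rp 5 (.str 12 (.nv (.thr 13 15 (.thr 4 8 (.thr 38 55 (.thr 34 46 (.dbl 51 17 25))))) (.nv (.thr 8 4 (.thr 6 2 (.dbl 9 3 11))) (.rp 13 (.str 9 (.nv (.dbl 6 2 3) (.nv (.dbl 8 4 11) .nd))) (.rp 8 (.thr 2 6 (.thr 62 22 (.thr 46 30 (.thr 38 34 (.thr 26 50 (.thr 13 15 (.thr 25 51 (.thr 49 37 (.thr 61 57 (.dbl 29 17 45)))))))))) (.rp 4 (.thr 6 2 (.thr 9 3 (.thr 8 11 (.thr 25 59 (.thr 17 29 (.dbl 51 34 38)))))) .nd)))))) .nd))))) (.rp 53 (.thr 58 26 (.thr 6 2 (.thr 15 5 (.thr 12 13 (.thr 9 3 (.dbl 8 4 11)))))) (.rp 18 (.thr 6 2 (.thr 5 15 (.thr 4 7 (.thr 38 55 (.dbl 26 50 58))))) (.rp 6 (.thr 5 15 (.thr 26 58 (.thr 53 37 (.thr 38 50 (.thr 34 46 (.thr 4 55 (.thr 12 8 (.dbl 51 17 25)))))))) (.rp 2 (.thr 5 15 (.thr 26 58 (.thr 53 37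 (.thr 38 50 (.thr 34 46 (.thr 4 55 (.thr 12 8 (.dbl 51 17 25)))))))) .nd)))))))) (.rp 37 (.str 14 (.nv (.thr 15 5 (.thr 26 58 (.thr 38 50 (.thr 4 55 (.dbl 12 8 13))))) (.nv (.thr 6 2 (.thr 15 5 (.thr 12 13 (.thr 9 3 (.dbl 8 4 11))))) (.nv (.thr 2 6 (.thr 26 58 (.thr 38 50 (.thr 46 34 (.dbl 62 22 30))))) .nd)))) (.rp 32 (.str 14 (.nv (.thr 15 5 (.thr 26 58 (.thr 38 50 (.thr 4 55 (.dbl 12 8 13))))) (.nv (.thr 2 6 (.thr 26 58 (.thr 38 50 (.thr 46 34 (.dbl 62 22 30))))) (.nv (.thr 6 2 (.thr 15 5 (.thr 12 13 (.thr 9 3 (.dbl 8 4 11))))) .nd)))) (.rp 31 (.thr 15 5 (.str 14 (.nv (.thr 26 58 (.thr 38 50 (.thr 34 46 (.thr 51 17 (.dbl 12 13 25))))) (.nv (.thr 6 2 (.thr 12 13 (.thr 9 3 (.dbl 8 4 11)))) (.rp 13 (.str 9 (.nv (.thr 8 11 (.thr 4 12 (.thr 26 58 (.dbl 38 50 55)))) (.nv (.thr 2 6 (.thr 22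 62 (.thr 26 58 (.thr 18 30 (.dbl 50 34 38))))) (.nv (.thr 11 8 (.thr 3 7 (.dbl 6 2 12))) .nd)))) (.rp 12 (.thr 2 6 (.thr 22 62 (.thr 26 58 (.thr 18 30 (.dbl 50 34 38))))) (.rp 9 (.thr 13 12 (.thr 26 58 (.thr 38 50 (.thr 46 34 (.thr 62 30 (.dbl 2 6 22)))))) .nd))))))) (.rp 26 (.str 8 (.nv (.thr 12 4 (.thr 25 59 (.thr 17 29 (.dbl 51 34 38)))) (.rp 59 (.thr 9 11 (.thr 15 5 (.thr 12 4 (.thr 14 13 (.dbl 6 2 3))))) (.rp 55 (.thr 12 4 (.thr 25 59 (.thr 51 38 (.dbl 17 29 34)))) (.rp 52 (.thr 25 59 (.thr 17 29 (.thr 51 34 (.dbl 12 4 38)))) (.rp 51 (.thr 9 11 (.thr 15 5 (.thr 12 4 (.thr 14 13 (.dbl 6 2 3))))) (.rp 38 (.thr 9 11 (.thr 15 5 (.thr 12 4 (.thr 14 13 (.dbl 6 2 3))))) (.rp 36 (.thr 25 59 (.thr 17 29 (.thr 51 34 (.dbl 12 4 38)))) (.rp 34 (.thr 9 11 (.thr 15 5 (.thr 12 4 (.thr 14 13 (.dbl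 6 2 3))))) (.rp 29 (.thr 9 11 (.thr 15 5 (.thr 12 4 (.thr 14 13 (.dbl 6 2 3))))) (.rp 25 (.thr 9 11 (.thr 15 5 (.thr 12 4 (.thr 14 13 (.dbl 6 2 3))))) (.rp 17 (.thr 9 11 (.thr 15 5 (.thr 12 4 (.thr 14 13 (.dbl 6 2 3))))) (.rp 12 (.thr 9 11 (.thr 5 15 (.thr 25 59 (.thr 41 57 (.thr 43 40 (.thr 37 53 (.thr 45 33 (.thr 47 32 (.thr 35 39 (.dbl 44 38 46)))))))))) (.rp 4 (.thr 9 11 (.thr 15 5 (.thr 25 59 (.thr 17 29 (.thr 51 34 (.thr 12 38 (.thr 14 13 (.dbl 6 2 3)))))))) .nd)))))))))))))) (.rp 16 (.thr 58 26 (.str 8 (.nv (.thr 9 11 (.thr 12 4 (.thr 6 3 (.thr 14 2 (.dbl 15 5 13))))) (.nv (.thr 25 59 (.thr 17 29 (.thr 51 34 (.dbl 12 4 38)))) (.rp 28 (.str 24 (.nv (.thr 12 4 (.thr 25 59 (.thr 17 29 (.dbl 51 34 38)))) (.nv (.thr 56 40 (.dbl 59 25 57)) (.rp 59 (.thr 12 4 (.thr 15 5 (.thr 14 13 (.thr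 9 11 (.dbl 6 2 3))))) (.rp 25 (.thr 12 4 (.thr 15 5 (.thr 14 13 (.thr 9 11 (.dbl 6 2 3))))) .nd))))) (.rp 24 (.str 28 (.nv (.thr 9 11 (.thr 12 4 (.thr 6 3 (.thr 14 2 (.dbl 15 5 13))))) (.nv (.thr 25 59 (.thr 17 29 (.thr 51 34 (.dbl 12 4 38)))) (.rp 25 (.str 27 (.nv (.thr 15 5 (.thr 51 39 (.thr 34 17 (.thr 38 46 (.dbl 4 12 55))))) (.nv (.thr 9 11 (.thr 15 5 (.thr 12 4 (.thr 6 3 (.dbl 14 2 13))))) (.rp 15 (.thr 11 9 (.thr 12 4 (.thr 43 59 (.thr 41 40 (.thr 44 60 (.thr 35 38 (.thr 47 39 (.thr 45 46 (.dbl 37 32 33))))))))) (.rp 13 (.thr 9 11 (.thr 4 12 (.thr 15 5 (.thr 38 55 (.thr 51 39 (.dbl 34 17 46)))))) (.rp 12 (.thr 11 9 (.thr 5 15 (.thr 43 59 (.thr 41 40 (.thr 37 53 (.thr 47 32 (.thr 35 39 (.thr 45 33 (.dbl 44 38 46))))))))) (.rp 9 (.thr 4 12 (.thr 5 15 (.thr 6 7 (.thr 38 55 (.thr 22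 54 (.dbl 2 14 62)))))) (.rp 5 (.thr 9 11 (.thr 12 4 (.thr 6 3 (.thr 14 2 (.thr 15 13 (.thr 60 44 (.thr 30 45 (.thr 46 62 (.thr 34 38 (.dbl 51 17 39)))))))))) (.rp 4 (.thr 11 9 (.thr 5 15 (.thr 43 59 (.thr 41 40 (.thr 37 53 (.thr 47 32 (.thr 35 39 (.thr 44 38 (.dbl 45 33 46))))))))) .nd))))))))) (.rp 12 (.thr 5 15 (.thr 37 53 (.thr 25 59 (.thr 22 19 (.thr 2 62 (.thr 7 52 (.dbl 6 4 14))))))) (.rp 4 (.thr 15 5 (.thr 25 59 (.thr 17 29 (.thr 51 34 (.thr 19 22 (.thr 3 35 (.dbl 11 7 9))))))) .nd)))))) (.rp 12 (.thr 5 15 (.thr 37 53 (.thr 47 32 (.thr 25 59 (.thr 9 11 (.thr 41 57 (.thr 45 33 (.thr 17 29 (.thr 46 44 (.dbl 34 38 51)))))))))) (.rp 4 (.thr 15 5 (.thr 25 59 (.thr 17 29 (.thr 9 11 (.thr 51 34 (.thr 12 38 (.thr 14 13 (.dbl 6 2 3)))))))) .nd)))))))) (.rp 15 (.str 8 (.nv (.thr 11 9 (.thr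 26 58 (.thr 41 56 (.thr 43 40 (.dbl 59 25 27))))) (.nv (.thr 12 4 (.thr 25 59 (.thr 51 38 (.dbl 17 29 34)))) (.rp 59 (.thr 11 9 (.thr 12 4 (.thr 26 58 (.thr 56 41 (.thr 24 40 (.thr 25 27 (.thr 17 29 (.dbl 51 34 38)))))))) (.rp 47 (.str 31 (.nv (.dbl 26 16 58) (.rp 58 (.thr 12 4 (.thr 25 59 (.thr 17 29 (.dbl 51 34 38)))) (.rp 26 (.thr 12 4 (.thr 25 59 (.thr 17 29 (.dbl 51 34 38)))) (.rp 16 (.thr 12 4 (.thr 25 59 (.thr 17 29 (.dbl 51 34 38)))) .nd))))) (.rp 31 (.str 47 (.nv (.thr 11 9 (.thr 26 58 (.thr 41 56 (.thr 43 40 (.dbl 59 25 27))))) (.nv (.thr 12 4 (.thr 25 59 (.thr 51 38 (.dbl 17 29 34)))) (.rp 59 (.thr 11 9 (.thr 12 4 (.thr 32 37 (.thr 26 58 (.thr 56 41 (.thr 24 40 (.dbl 48 16 36))))))) (.rp 25 (.thr 11 9 (.thr 4 12 (.thr 38 55 (.thr 46 34 (.thr 44 45 (.thr 41 35 (.dbl 26 56 58)))))))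 .nd))))) (.rp 25 (.thr 4 12 (.thr 26 58 (.thr 38 55 (.thr 46 34 (.thr 14 50 (.thr 2 6 (.dbl 62 22 30))))))) .nd))))))) (.rp 5 (.str 8 (.nv (.thr 9 11 (.thr 12 4 (.thr 25 59 (.thr 51 38 (.dbl 17 29 34))))) (.nv (.thr 25 59 (.thr 26 58 (.thr 24 27 (.thr 56 40 (.dbl 11 9 41))))) (.nv (.thr 25 59 (.thr 17 29 (.thr 51 34 (.dbl 12 4 38)))) (.rp 59 (.thr 9 11 (.thr 12 4 (.thr 6 3 (.thr 14 2 (.thr 15 13 (.thr 26 58 (.thr 16 31 (.dbl 48 32 37)))))))) (.rp 51 (.thr 4 12 (.thr 25 59 (.thr 55 38 (.thr 26 58 (.thr 24 27 (.thr 56 40 (.dbl 11 9 41))))))) (.rp 25 (.thr 4 12 (.thr 26 58 (.thr 38 55 (.thr 46 34 (.thr 14 50 (.thr 2 6 (.dbl 62 22 30))))))) (.rp 9 (.str 13 (.nv (.thr 25 59 (.thr 26 58 (.thr 16 31 (.thr 37 49 (.dbl 32 47 48))))) (.nv (.thr 12 4 (.thr 15 14 (.thr 26 58 (.thr 16 31 (.dbl 48 32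 37))))) (.nv (.thr 25 59 (.thr 17 29 (.thr 51 34 (.dbl 12 4 38)))) .nd)))) .nd)))))))) .nd))))))))))))

theorem w107 : WinAt (4398048608257, 9223372036855824386) :=
  chF (K := []) kn c107 4398048608257 9223372036855824386 63
    [] (by decide +kernel) (by decide +kernel)

/-- A certificate. -/
noncomputable def c108 : Ct := (.str 12 (.nv (.thr 4 8 (.thr 38 55 (.thr 51 25 (.dbl 34 17 46)))) (.nv (.thr 8 4 (.thr 25 59 (.thr 17 29 (.dbl 51 34 38)))) (.rp 55 (.thr 8 4 (.thr 25 59 (.thr 51 38 (.dbl 17 29 34)))) (.rp 51 (.thr 8 4 (.str 10 (.nv (.thr 59 25 (.thr 11 9 (.thr 26 58 (.thr 41 56 (.dbl 43 27 40))))) (.nv (.thr 26 58 (.thr 16 31 (.thr 48 32 (.thr 24 36 (.dbl 25 27 59))))) (.nv (.thr 15 5 (.thr 14 13 (.thr 9 11 (.dbl 6 2 3)))) (.rp 59 (.str 55 (.nv (.thr 26 58 (.thr 16 31 (.thr 48 32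 (.dbl 15 5 37)))) (.nv (.thr 15 5 (.thr 14 13 (.thr 9 11 (.dbl 6 2 3)))) (.rp 15 (.thr 26 58 (.thr 11 9 (.thr 56 41 (.thr 24 40 (.thr 48 36 (.dbl 16 31 32)))))) (.rp 5 (.thr 26 58 (.thr 16 31 (.thr 48 32 (.thr 24 36 (.thr 20 28 (.dbl 40 56 60)))))) .nd))))) .nd)))))) (.rp 38 (.thr 8 4 (.str 15 (.nv (.thr 5 10 (.thr 37 53 (.thr 32 47 (.dbl 48 16 26)))) (.nv (.thr 13 14 (.thr 25 59 (.thr 37 49 (.thr 32 47 (.dbl 48 16 26))))) (.nv (.thr 14 13 (.thr 10 5 (.thr 9 11 (.dbl 6 2 3)))) (.rp 54 (.str 6 (.nv (.thr 5 10 (.thr 13 14 (.thr 25 59 (.dbl 37 49 53)))) (.nv (.thr 10 5 (.dbl 9 3 11)) (.rp 10 (.thr 13 14 (.thr 25 59 (.thr 37 49 (.thr 32 47 (.dbl 48 16 26))))) (.rp 5 (.thr 14 13 (.thr 9 3 (.dbl 10 2 11))) .nd))))) (.rp 6 (.str 54 (.nv (.thr 25 59 (.thr 17 29 (.thr 51 34 (.thr 27 39 (.thr 26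 24 (.dbl 10 5 58)))))) (.nv (.thr 5 10 (.thr 37 53 (.thr 32 47 (.dbl 48 16 26)))) (.rp 58 (.thr 13 14 (.thr 25 59 (.thr 37 49 (.dbl 5 10 53)))) (.rp 37 (.thr 13 14 (.thr 25 59 (.thr 29 17 (.thr 45 61 (.thr 60 30 (.thr 40 20 (.thr 41 43 (.dbl 57 9 51)))))))) (.rp 26 (.thr 5 10 (.thr 25 59 (.thr 37 53 (.dbl 13 14 49)))) (.rp 10 (.thr 25 59 (.thr 17 29 (.thr 51 34 (.thr 60 57 (.thr 27 39 (.thr 24 26 (.dbl 40 20 56))))))) (.rp 5 (.str 7 (.nv (.thr 11 3 (.thr 10 9 (.thr 13 14 (.thr 26 58 (.thr 16 31 (.dbl 48 32 37)))))) (.nv (.thr 11 3 (.thr 59 25 (.thr 43 27 (.thr 41 40 (.thr 26 56 (.dbl 10 9 58)))))) (.nv (.thr 13 14 (.thr 25 59 (.thr 37 49 (.thr 32 47 (.dbl 48 16 26))))) (.rp 26 (.thr 11 3 (.thr 9 10 (.thr 25 59 (.thr 17 29 (.thr 51 34 (.dbl 57 41 60)))))) (.rp 13 (.str 9 (.nv (.dbl 11 3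 10) (.rp 11 (.thr 25 59 (.thr 17 29 (.thr 51 34 (.dbl 57 41 60)))) (.rp 10 (.thr 25 59 (.thr 17 29 (.thr 51 34 (.dbl 57 41 60)))) (.rp 3 (.thr 10 11 (.thr 26 58 (.thr 16 31 (.dbl 48 32 37)))) .nd))))) (.rp 10 (.thr 11 3 (.thr 59 25 (.thr 43 27 (.thr 40 41 (.thr 60 20 (.thr 57 51 (.dbl 56 24 58))))))) .nd))))))) .nd)))))))) .nd))))))) (.rp 34 (.str 15 (.nv (.thr 8 4 (.thr 10 5 (.thr 9 11 (.thr 6 3 (.dbl 14 2 13))))) (.nv (.thr 5 10 (.thr 37 53 (.thr 32 47 (.dbl 48 16 26)))) (.rp 10 (.thr 13 14 (.thr 8 4 (.thr 25 59 (.thr 37 49 (.thr 32 47 (.dbl 48 16 26)))))) (.rp 5 (.thr 13 14 (.thr 8 4 (.thr 25 59 (.thr 37 49 (.thr 32 47 (.dbl 48 16 26)))))) .nd))))) (.rp 25 (.str 15 (.nv (.thr 8 4 (.thr 10 5 (.thr 9 11 (.thr 6 3 (.dbl 14 2 13))))) (.nv (.thr 5 10 (.thr 37 53 (.thr 32 47 (.dbl 48 16 26))))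 (.rp 28 (.str 19 (.nv (.thr 8 4 (.thr 10 5 (.thr 9 11 (.thr 6 3 (.dbl 14 2 13))))) (.nv (.thr 5 10 (.thr 37 53 (.thr 32 47 (.dbl 48 16 26)))) (.rp 10 (.thr 14 13 (.thr 4 8 (.thr 38 55 (.thr 26 50 (.thr 16 31 (.dbl 48 32 37)))))) (.rp 5 (.thr 4 8 (.thr 38 55 (.thr 34 46 (.thr 51 17 (.thr 39 27 (.thr 37 36 (.thr 47 32 (.dbl 35 3 43)))))))) .nd))))) (.rp 19 (.str 28 (.nv (.thr 4 8 (.thr 38 55 (.thr 46 34 (.thr 60 44 (.thr 30 45 (.dbl 14 13 62)))))) (.nv (.thr 5 10 (.thr 37 53 (.thr 32 47 (.dbl 48 16 26)))) .nd))) (.rp 10 (.thr 14 13 (.thr 4 8 (.thr 38 55 (.thr 26 50 (.thr 16 31 (.dbl 48 32 37)))))) (.rp 5 (.thr 4 8 (.thr 38 55 (.thr 34 46 (.thr 51 17 (.thr 39 27 (.thr 37 36 (.thr 32 47 (.dbl 48 16 26)))))))) .nd))))))) (.rp 17 (.thr 4 8 (.str 15 (.nv (.thr 5 10 (.thr 37 53 (.thr 48 26 (.dbl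 32 16 47)))) (.nv (.thr 14 13 (.thr 38 55 (.thr 26 50 (.dbl 10 5 58)))) (.rp 49 (.str 33 (.nv (.thr 10 5 (.thr 26 58 (.thr 38 55 (.dbl 14 13 50)))) (.nv (.thr 38 55 (.thr 34 46 (.thr 32 35 (.thr 37 47 (.dbl 48 16 26))))) (.nv (.thr 38 55 (.thr 34 46 (.thr 32 35 (.thr 37 47 (.dbl 5 10 53))))) (.nv (.thr 10 5 (.thr 26 58 (.thr 16 31 (.dbl 48 32 37)))) .nd))))) (.rp 33 (.str 49 (.nv (.thr 5 10 (.thr 37 53 (.thr 32 47 (.dbl 48 16 26)))) (.nv (.thr 38 55 (.thr 13 14 (.dbl 25 37 51))) (.rp 37 (.thr 14 13 (.thr 38 55 (.thr 51 25 (.dbl 50 26 48)))) .nd)))) (.rp 26 (.thr 13 14 (.thr 5 10 (.thr 38 55 (.thr 37 53 (.dbl 25 49 51))))) (.rp 10 (.thr 14 13 (.thr 38 55 (.thr 26 50 (.thr 16 31 (.dbl 48 32 37))))) (.rp 9 (.thr 13 14 (.thr 10 5 (.thr 26 58 (.thr 16 31 (.dbl 48 32 37))))) (.rp 5 (.thr 38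 55 (.thr 51 25 (.thr 39 27 (.thr 37 36 (.thr 32 47 (.dbl 48 16 26)))))) .nd)))))))))) (.rp 8 (.str 26 (.nv (.thr 16 31 (.thr 48 32 (.thr 24 36 (.thr 25 27 (.thr 17 29 (.dbl 51 34 38)))))) (.nv (.thr 16 31 (.thr 10 58 (.thr 48 32 (.dbl 15 5 37)))) (.rp 48 (.str 14 (.nv (.thr 38 50 (.thr 34 46 (.dbl 51 17 25))) (.nv (.thr 15 13 (.dbl 10 5 58)) (.rp 58 (.str 53 (.nv (.thr 38 50 (.thr 34 46 (.dbl 51 17 25))) (.nv (.thr 15 13 (.dbl 5 10 37)) .nd))) (.rp 53 (.thr 58 10 (.thr 38 50 (.thr 34 46 (.dbl 51 17 25)))) .nd))))) (.rp 47 (.thr 10 58 (.thr 15 5 (.thr 16 31 (.dbl 48 32 37)))) (.rp 32 (.thr 10 58 (.thr 15 5 (.thr 48 37 (.thr 24 36 (.thr 25 27 (.thr 17 29 (.dbl 51 34 38))))))) (.rp 31 (.thr 10 58 (.thr 15 5 (.thr 48 37 (.thr 24 36 (.thr 25 27 (.thr 17 29 (.dbl 51 34 38))))))) (.rp 16 (.thr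 10 58 (.thr 15 5 (.thr 48 37 (.thr 24 36 (.thr 25 27 (.thr 17 29 (.dbl 51 34 38))))))) (.rp 15 (.thr 10 58 (.str 48 (.nv (.dbl 16 31 32) (.rp 47 (.thr 31 16 (.thr 24 36 (.thr 25 27 (.thr 17 29 (.dbl 51 34 38))))) (.rp 32 (.thr 24 36 (.thr 25 27 (.thr 17 29 (.dbl 51 34 38)))) (.rp 31 (.str 47 (.nv (.dbl 32 16 37) (.rp 37 (.thr 24 36 (.thr 25 27 (.thr 17 29 (.dbl 51 34 38)))) (.rp 32 (.thr 24 36 (.thr 25 27 (.thr 17 29 (.dbl 51 34 38)))) (.rp 16 (.thr 24 36 (.thr 25 27 (.thr 17 29 (.dbl 51 34 38)))) .nd))))) (.rp 16 (.thr 24 36 (.thr 25 27 (.thr 17 29 (.dbl 51 34 38)))) .nd))))))) .nd))))))))) (.rp 4 (.str 16 (.nv (.thr 26 31 (.thr 48 32 (.thr 24 36 (.thr 25 27 (.thr 17 29 (.dbl 51 34 38)))))) (.nv (.thr 48 32 (.thr 26 31 (.thr 10 58 (.dbl 15 5 37)))) (.rp 48 (.thr 26 31 (.thr 58 10 (.str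 25 (.nv (.thr 27 24 (.thr 59 8 (.thr 11 43 (.dbl 56 41 57)))) (.nv (.thr 17 29 (.dbl 51 34 38)) (.rp 47 (.str 15 (.nv (.thr 14 13 (.dbl 38 50 51)) (.nv (.thr 24 27 (.thr 20 28 (.thr 40 60 (.dbl 8 56 59)))) (.nv (.thr 27 24 (.dbl 51 38 39)) .nd)))) (.rp 15 (.str 47 (.nv (.thr 27 24 (.thr 59 8 (.thr 11 43 (.dbl 56 41 57)))) (.nv (.thr 17 29 (.dbl 51 34 38)) .nd))) .nd))))))) (.rp 47 (.thr 48 32 (.thr 26 31 (.thr 15 37 (.dbl 10 5 58)))) (.rp 32 (.thr 26 31 (.thr 10 58 (.thr 15 5 (.thr 48 37 (.thr 24 36 (.thr 25 27 (.thr 17 29 (.dbl 51 34 38)))))))) (.rp 31 (.thr 48 32 (.thr 24 36 (.thr 20 28 (.thr 40 60 (.thr 8 56 (.thr 25 59 (.thr 51 38 (.dbl 17 29 34)))))))) (.rp 26 (.thr 48 32 (.thr 24 36 (.thr 20 28 (.thr 40 60 (.thr 8 56 (.thr 25 59 (.thr 17 29 (.dbl 51 34 38)))))))) (.rp 15 (.thr 48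 32 (.thr 24 36 (.thr 20 28 (.thr 40 60 (.thr 56 8 (.thr 41 43 (.dbl 26 11 31))))))) .nd))))))))) .nd)))))))))))

theorem w108 : WinAt (4398048608257, 9223372036858970114) :=
  chF (K := []) kn c108 4398048608257 9223372036858970114 63
    [] (by decide +kernel) (by decide +kernel)

/-- A certificate. -/
noncomputable def c109 : Ct := (.str 31 (.nv (.thr 26 16 (.thr 15 47 (.thr 37 48 (.dbl 5 10 53)))) (.rp 53 (.str 25 (.nv (.thr 15 47 (.thr 26 16 (.thr 27 24 (.thr 51 39 (.thr 38 12 (.dbl 55 4 59)))))) (.nv (.thr 15 47 (.thr 29 17 (.thr 30 28 (.thr 45 60 (.thr 13 61 (.dbl 12 14 46)))))) (.nv (.thr 17 29 (.thr 51 34 (.thr 38 12 (.dbl 55 4 59)))) (.rp 12 (.thr 26 16 (.thr 27 24 (.thr 17 29 (.thr 15 47 (.dbl 51 34 39))))) .nd))))) (.rp 48 (.str 25 (.nv (.thr 15 47 (.thr 26 16 (.thr 27 24 (.thr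 51 39 (.thr 55 59 (.dbl 38 4 12)))))) (.nv (.thr 15 47 (.thr 29 17 (.thr 30 28 (.thr 45 60 (.thr 13 61 (.dbl 12 14 46)))))) (.nv (.thr 17 29 (.thr 51 34 (.thr 55 59 (.dbl 38 4 12)))) (.rp 12 (.thr 26 16 (.thr 17 29 (.thr 15 47 (.thr 51 34 (.dbl 27 24 39))))) .nd))))) (.rp 47 (.str 29 (.nv (.thr 16 26 (.thr 28 30 (.thr 20 24 (.thr 60 40 (.dbl 12 44 46))))) (.nv (.thr 12 46 (.thr 16 26 (.thr 28 30 (.thr 24 20 (.dbl 48 32 36))))) (.nv (.thr 25 17 (.thr 12 46 (.thr 38 51 (.dbl 4 8 55)))) (.rp 46 (.thr 28 30 (.thr 16 26 (.thr 20 24 (.thr 25 17 (.thr 22 19 (.thr 60 40 (.thr 41 3 (.thr 57 9 (.thr 51 54 (.dbl 12 38 44)))))))))) (.rp 44 (.thr 28 30 (.thr 16 26 (.thr 20 24 (.thr 25 17 (.thr 22 19 (.thr 60 40 (.thr 41 3 (.thr 57 9 (.thr 51 54 (.dbl 12 38 46)))))))))) (.rp 37 (.str 32 (.nv (.dbl 16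 26 48) (.rp 48 (.thr 25 17 (.thr 12 46 (.thr 4 8 (.dbl 38 51 55)))) (.rp 26 (.thr 25 17 (.thr 12 46 (.thr 4 8 (.dbl 38 51 55)))) (.rp 16 (.thr 25 17 (.thr 12 46 (.thr 4 8 (.dbl 38 51 55)))) .nd))))) (.rp 32 (.str 37 (.nv (.thr 12 46 (.thr 4 8 (.thr 25 17 (.dbl 38 51 55)))) (.nv (.thr 5 53 (.thr 15 10 (.dbl 26 16 48))) .nd))) (.rp 12 (.str 37 (.nv (.thr 5 53 (.thr 15 10 (.dbl 26 16 48))) (.rp 53 (.thr 25 17 (.thr 16 26 (.thr 28 30 (.thr 20 24 (.thr 60 40 (.thr 61 62 (.dbl 13 45 49))))))) (.rp 48 (.thr 17 25 (.thr 53 5 (.thr 26 16 (.thr 51 34 (.thr 30 28 (.thr 22 18 (.thr 52 7 (.dbl 55 54 59)))))))) (.rp 26 (.thr 17 25 (.thr 53 5 (.thr 58 48 (.thr 51 34 (.thr 59 55 (.thr 57 56 (.thr 61 49 (.dbl 60 54 62)))))))) (.rp 16 (.thr 17 25 (.thr 5 53 (.thr 15 10 (.thr 51 34 (.thr 39 27 (.thr 38 36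 (.dbl 55 4 59))))))) (.rp 15 (.thr 53 5 (.thr 48 58 (.dbl 16 26 32))) (.rp 10 (.thr 53 5 (.thr 48 58 (.dbl 26 15 16))) (.rp 5 (.thr 25 17 (.thr 16 26 (.thr 28 30 (.thr 20 24 (.thr 60 40 (.thr 61 62 (.dbl 13 45 49))))))) .nd))))))))) .nd))))))))) (.rp 37 (.thr 26 16 (.thr 47 15 (.str 12 (.nv (.thr 29 46 (.thr 4 8 (.thr 25 17 (.dbl 38 51 55)))) (.nv (.thr 4 8 (.thr 29 46 (.thr 38 55 (.dbl 25 17 51)))) (.rp 55 (.thr 8 4 (.thr 29 46 (.thr 28 30 (.thr 25 17 (.thr 24 27 (.thr 60 44 (.dbl 40 20 56))))))) (.rp 51 (.thr 8 4 (.thr 29 46 (.thr 28 30 (.thr 25 17 (.thr 60 44 (.thr 40 20 (.dbl 24 27 56))))))) (.rp 46 (.thr 4 8 (.thr 38 55 (.thr 25 51 (.thr 29 17 (.thr 28 30 (.thr 60 44 (.thr 20 40 (.thr 36 52 (.dbl 24 27 48))))))))) (.rp 38 (.thr 8 4 (.thr 46 29 (.thr 44 45 (.thr 60 28 (.thr 40 20 (.thr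 24 56 (.dbl 36 32 48))))))) (.rp 29 (.str 38 (.nv (.dbl 4 8 55) (.rp 55 (.thr 50 14 (.thr 51 25 (.thr 34 17 (.thr 18 2 (.thr 22 30 (.thr 6 54 (.thr 3 9 (.dbl 48 33 49)))))))) (.rp 8 (.thr 55 4 (.dbl 51 25 59)) (.rp 4 (.thr 50 14 (.thr 51 25 (.thr 34 17 (.thr 18 2 (.thr 22 30 (.thr 6 54 (.thr 3 9 (.dbl 48 33 49)))))))) .nd))))) (.rp 25 (.thr 8 4 (.thr 46 29 (.thr 44 45 (.thr 60 28 (.thr 40 20 (.thr 24 56 (.dbl 36 32 48))))))) (.rp 17 (.thr 8 4 (.thr 46 29 (.thr 44 45 (.thr 60 28 (.thr 40 20 (.thr 24 56 (.dbl 36 32 48))))))) (.rp 8 (.thr 29 46 (.thr 28 30 (.thr 25 17 (.thr 24 27 (.thr 60 44 (.thr 20 40 (.thr 36 48 (.thr 4 52 (.dbl 38 51 55))))))))) (.rp 4 (.thr 29 46 (.thr 28 30 (.thr 25 17 (.thr 24 27 (.thr 60 44 (.thr 40 20 (.thr 56 8 (.dbl 48 36 52)))))))) .nd)))))))))))))) (.rp 26 (.str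 29 (.nv (.thr 15 47 (.thr 30 28 (.thr 45 60 (.thr 13 61 (.dbl 12 14 46))))) (.nv (.thr 25 17 (.thr 12 46 (.thr 38 51 (.dbl 4 8 55)))) (.rp 58 (.str 10 (.nv (.dbl 15 5 47) (.rp 47 (.thr 25 17 (.thr 12 46 (.thr 4 8 (.dbl 38 51 55)))) (.rp 15 (.thr 25 17 (.thr 12 46 (.thr 4 8 (.dbl 38 51 55)))) (.rp 5 (.thr 25 17 (.thr 12 46 (.thr 4 8 (.dbl 38 51 55)))) .nd))))) (.rp 46 (.thr 30 28 (.thr 25 17 (.thr 15 47 (.thr 45 60 (.thr 13 61 (.thr 12 14 (.thr 4 8 (.dbl 38 51 55)))))))) (.rp 12 (.thr 30 28 (.thr 17 25 (.thr 15 47 (.thr 60 45 (.thr 61 62 (.thr 51 34 (.thr 57 54 (.thr 53 49 (.dbl 5 10 37))))))))) (.rp 10 (.str 58 (.nv (.thr 15 47 (.thr 30 28 (.thr 45 60 (.thr 13 61 (.dbl 12 14 46))))) (.nv (.thr 25 17 (.thr 12 46 (.thr 38 51 (.dbl 4 8 55)))) (.rp 46 (.thr 30 28 (.thr 25 17 (.thr 53 48 (.thr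 15 47 (.thr 45 60 (.thr 13 61 (.dbl 37 5 49))))))) (.rp 12 (.thr 30 28 (.thr 17 25 (.thr 51 34 (.thr 59 55 (.thr 57 56 (.thr 60 54 (.dbl 15 45 47))))))) .nd))))) .nd))))))) (.rp 16 (.str 25 (.nv (.thr 15 47 (.thr 5 10 (.thr 37 53 (.thr 13 49 (.thr 12 14 (.dbl 29 17 46)))))) (.nv (.thr 17 29 (.thr 51 34 (.thr 38 12 (.dbl 55 4 59)))) (.rp 29 (.thr 15 47 (.thr 5 10 (.thr 37 53 (.thr 13 49 (.thr 12 14 (.thr 4 8 (.dbl 38 51 55))))))) (.rp 17 (.thr 15 47 (.thr 5 10 (.thr 37 53 (.thr 26 48 (.thr 27 24 (.thr 51 39 (.thr 55 59 (.dbl 38 4 12)))))))) (.rp 12 (.thr 17 29 (.thr 15 47 (.thr 5 10 (.thr 51 34 (.thr 27 39 (.thr 26 24 (.dbl 37 48 53))))))) .nd)))))) (.rp 15 (.str 28 (.nv (.thr 16 26 (.thr 24 20 (.thr 48 32 (.thr 12 36 (.dbl 29 30 46))))) (.nv (.thr 29 30 (.thr 25 17 (.thr 12 46 (.thr 4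 8 (.dbl 38 51 55))))) (.rp 46 (.thr 29 30 (.thr 16 26 (.thr 24 20 (.thr 25 17 (.thr 48 32 (.thr 12 36 (.thr 4 8 (.dbl 38 51 55)))))))) (.rp 30 (.thr 16 26 (.thr 24 20 (.thr 48 32 (.thr 12 36 (.thr 4 8 (.thr 29 46 (.thr 25 17 (.dbl 38 51 55)))))))) (.rp 29 (.thr 16 26 (.thr 20 24 (.thr 60 40 (.thr 62 61 (.thr 48 32 (.thr 56 52 (.thr 58 53 (.thr 57 59 (.dbl 54 50 51))))))))) (.rp 12 (.thr 16 26 (.thr 20 24 (.thr 60 40 (.thr 62 61 (.thr 48 32 (.thr 56 52 (.thr 58 53 (.thr 57 59 (.dbl 54 50 51))))))))) (.rp 4 (.thr 29 30 (.thr 16 26 (.thr 24 20 (.thr 12 46 (.dbl 48 32 36))))) .nd)))))))) (.rp 10 (.thr 26 16 (.str 27 (.nv (.thr 15 47 (.thr 51 39 (.thr 55 59 (.thr 38 4 (.thr 14 50 (.dbl 12 13 25)))))) (.nv (.thr 25 24 (.thr 29 17 (.thr 12 46 (.thr 38 51 (.dbl 4 8 55))))) (.nv (.thr 25 24 (.thr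 17 29 (.thr 15 47 (.dbl 51 34 39)))) (.rp 51 (.thr 25 24 (.thr 29 17 (.thr 12 46 (.thr 15 47 (.thr 13 14 (.dbl 37 48 49)))))) (.rp 25 (.thr 15 47 (.thr 39 51 (.thr 37 48 (.thr 5 53 (.thr 38 36 (.thr 4 55 (.thr 7 6 (.thr 11 3 (.thr 12 8 (.thr 59 43 (.dbl 14 13 50))))))))))) .nd))))))) (.rp 5 (.thr 26 16 (.thr 15 47 (.thr 37 48 (.str 13 (.nv (.thr 25 49 (.thr 27 24 (.thr 51 39 (.thr 55 59 (.dbl 38 4 12))))) (.nv (.thr 12 14 (.thr 29 46 (.thr 30 28 (.dbl 45 60 61)))) (.nv (.thr 12 14 (.thr 25 49 (.dbl 29 17 46))) (.rp 12 (.thr 25 49 (.thr 17 29 (.thr 51 34 (.dbl 27 24 39)))) .nd)))))))) .nd)))))))))))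

theorem w109 : WinAt (9223372036856872961, 4398054899714) :=
  chF (K := []) kn c109 9223372036856872961 4398054899714 42
    [] (by decide +kernel) (by decide +kernel)

/-- A certificate. -/
noncomputable def c110 : Ct := (.str 38 (.nv (.thr 4 55 (.thr 12 8 (.thr 25 51 (.dbl 29 17 46)))) (.nv (.thr 55 4 (.thr 51 59 (.thr 17 34 (.dbl 25 12 29)))) (.rp 55 (.str 48 (.nv (.thr 16 32 (.thr 26 31 (.thr 50 14 (.thr 51 49 (.thr 17 34 (.dbl 25 12 29)))))) (.nv (.thr 16 32 (.thr 53 58 (.thr 26 31 (.dbl 37 5 15)))) (.rp 47 (.thr 53 58 (.thr 37 5 (.thr 16 32 (.dbl 26 15 31)))) (.rp 37 (.str 54 (.nv (.thr 22 6 (.thr 23 20 (.thr 3 43 (.thr 18 33 (.thr 26 30 (.dbl 16 31 32)))))) (.nv (.thr 58 53 (.thr 62 50 (.thr 60 61 (.thr 57 51 (.dbl 56 52 59))))) (.rp 47 (.thr 32 16 (.thr 22 6 (.thr 20 23 (.thr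 60 40 (.thr 62 61 (.dbl 58 50 53)))))) (.rp 32 (.str 47 (.nv (.thr 22 6 (.thr 20 23 (.thr 60 40 (.thr 51 57 (.thr 17 34 (.dbl 25 12 29)))))) (.nv (.thr 31 15 (.thr 58 53 (.thr 50 62 (.dbl 26 14 16)))) (.rp 22 (.thr 31 15 (.thr 58 53 (.thr 26 16 (.dbl 50 14 62)))) .nd)))) .nd))))) (.rp 32 (.thr 53 58 (.thr 37 5 (.thr 26 15 (.thr 50 14 (.thr 51 49 (.thr 17 34 (.dbl 25 12 29))))))) (.rp 31 (.thr 53 58 (.thr 37 5 (.thr 26 15 (.thr 50 14 (.thr 51 49 (.thr 17 34 (.dbl 25 12 29))))))) (.rp 26 (.str 25 (.nv (.thr 51 12 (.thr 49 50 (.thr 37 13 (.dbl 53 5 58)))) (.nv (.thr 17 29 (.dbl 51 12 34)) (.rp 58 (.str 10 (.nv (.thr 5 15 (.thr 37 53 (.thr 49 13 (.dbl 51 12 50)))) (.nv (.thr 17 29 (.dbl 51 12 34)) (.rp 51 (.thr 29 17 (.thr 15 5 (.thr 12 46 (.thr 8 4 (.thr 14 13 (.thr 9 11 (.dbl 6 2 3)))))))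 (.rp 12 (.thr 17 29 (.thr 5 15 (.thr 51 34 (.thr 49 50 (.dbl 37 13 53))))) .nd))))) (.rp 51 (.thr 17 29 (.thr 16 32 (.thr 58 53 (.thr 19 18 (.thr 22 28 (.thr 20 23 (.thr 60 40 (.thr 62 61 (.dbl 54 6 50))))))))) (.rp 12 (.thr 17 29 (.thr 51 34 (.thr 49 50 (.thr 37 13 (.dbl 53 5 58))))) (.rp 10 (.thr 58 53 (.thr 17 29 (.dbl 51 12 34))) .nd))))))) (.rp 16 (.thr 53 58 (.thr 37 5 (.thr 26 15 (.thr 50 14 (.thr 51 49 (.thr 17 34 (.dbl 25 12 29))))))) .nd))))))))) (.rp 51 (.str 6 (.nv (.thr 4 55 (.thr 12 8 (.thr 22 54 (.thr 23 20 (.dbl 3 9 43))))) (.nv (.thr 4 55 (.thr 5 7 (.thr 12 8 (.thr 15 10 (.thr 14 13 (.thr 26 50 (.dbl 31 16 47))))))) (.nv (.thr 22 54 (.thr 4 55 (.thr 20 23 (.thr 7 5 (.dbl 52 36 37))))) (.rp 55 (.thr 22 54 (.thr 23 20 (.thr 3 43 (.thr 12 9 (.thr 29 46 (.thr 25 17 (.thr 28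 19 (.dbl 60 41 44)))))))) (.rp 23 (.thr 54 22 (.thr 55 4 (.thr 53 52 (.thr 37 5 (.thr 48 58 (.thr 16 32 (.dbl 26 15 31))))))) (.rp 9 (.thr 22 54 (.thr 4 55 (.thr 20 23 (.thr 52 36 (.dbl 7 5 37))))) (.rp 4 (.thr 22 54 (.thr 23 20 (.thr 3 43 (.thr 12 9 (.thr 29 46 (.thr 25 17 (.thr 28 19 (.dbl 60 41 44)))))))) .nd)))))))) (.rp 29 (.str 6 (.nv (.thr 4 55 (.thr 12 8 (.thr 22 54 (.thr 23 20 (.dbl 3 9 43))))) (.nv (.thr 4 55 (.thr 5 7 (.thr 12 8 (.thr 15 10 (.thr 14 13 (.thr 26 50 (.dbl 31 16 47))))))) (.nv (.thr 22 54 (.thr 4 55 (.thr 20 23 (.thr 7 5 (.dbl 52 36 37))))) (.rp 55 (.thr 22 54 (.thr 23 20 (.thr 3 43 (.thr 41 60 (.thr 35 44 (.thr 51 19 (.dbl 12 9 25))))))) (.rp 23 (.thr 54 22 (.thr 55 4 (.thr 53 52 (.thr 37 5 (.thr 48 58 (.thr 16 32 (.dbl 26 15 31))))))) (.rp 9 (.thr 22 54 (.thr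 4 55 (.thr 20 23 (.thr 52 36 (.dbl 7 5 37))))) (.rp 4 (.thr 22 54 (.thr 23 20 (.thr 3 43 (.thr 41 60 (.thr 35 44 (.thr 51 19 (.dbl 12 9 25))))))) .nd)))))))) (.rp 25 (.thr 55 4 (.thr 59 51 (.str 37 (.nv (.thr 53 5 (.thr 52 54 (.thr 7 22 (.dbl 39 23 36)))) (.nv (.thr 5 53 (.thr 15 10 (.thr 31 47 (.dbl 26 16 48)))) (.rp 53 (.thr 39 36 (.thr 23 7 (.thr 43 3 (.thr 35 47 (.thr 41 44 (.thr 11 27 (.thr 26 56 (.thr 16 31 (.dbl 48 15 32))))))))) (.rp 27 (.str 26 (.nv (.thr 15 48 (.dbl 31 16 47)) (.nv (.thr 5 53 (.dbl 15 10 48)) (.rp 48 (.thr 5 53 (.thr 31 16 (.dbl 15 10 47))) (.rp 15 (.thr 39 36 (.thr 7 23 (.thr 53 5 (.dbl 52 22 54)))) .nd))))) (.rp 26 (.str 27 (.nv (.thr 43 11 (.thr 23 3 (.thr 53 5 (.thr 22 20 (.dbl 52 7 54))))) (.nv (.thr 5 53 (.thr 39 36 (.thr 43 11 (.thr 47 35 (.dbl 15 10 31)))))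 (.nv (.thr 39 36 (.thr 7 23 (.thr 53 5 (.dbl 52 22 54)))) (.nv (.thr 43 11 (.thr 23 3 (.dbl 39 7 36))) (.rp 58 (.str 10 (.nv (.thr 39 36 (.thr 43 11 (.dbl 23 3 7))) (.nv (.dbl 5 15 53) .nd))) (.rp 10 (.str 58 (.nv (.thr 43 11 (.thr 23 3 (.dbl 39 7 36))) (.nv (.dbl 53 5 48) .nd))) .nd))))))) (.rp 5 (.thr 39 36 (.thr 7 23 (.thr 52 22 (.thr 53 54 (.thr 48 58 (.thr 16 32 (.dbl 26 15 31))))))) .nd))))))))) (.rp 17 (.thr 55 4 (.thr 51 59 (.thr 25 12 (.str 48 (.nv (.thr 16 32 (.thr 26 31 (.thr 53 58 (.dbl 37 5 15)))) (.nv (.thr 16 32 (.thr 26 31 (.dbl 50 14 49))) (.nv (.thr 49 50 (.thr 37 13 (.dbl 53 5 58))) (.rp 49 (.str 33 (.nv (.thr 53 58 (.thr 37 5 (.thr 39 36 (.thr 52 54 (.dbl 7 22 23))))) (.nv (.thr 32 16 (.thr 35 34 (.dbl 3 18 19))) .nd))) (.rp 37 (.thr 49 50 (.thr 53 58 (.thr 57 61 (.dbl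 54 52 60)))) .nd))))))))) (.rp 12 (.str 48 (.nv (.thr 55 4 (.thr 51 59 (.thr 50 49 (.thr 26 14 (.dbl 16 31 32))))) (.nv (.thr 16 32 (.thr 26 31 (.thr 53 58 (.dbl 37 5 15)))) (.rp 32 (.thr 55 4 (.thr 53 58 (.thr 54 52 (.thr 51 59 (.thr 49 50 (.dbl 57 60 61)))))) (.rp 31 (.thr 55 4 (.thr 53 58 (.thr 54 52 (.thr 51 59 (.thr 49 50 (.dbl 57 60 61)))))) (.rp 26 (.thr 55 4 (.thr 32 16 (.thr 51 59 (.thr 50 49 (.thr 34 17 (.thr 33 35 (.dbl 18 2 3))))))) (.rp 16 (.thr 55 4 (.thr 53 58 (.thr 54 52 (.thr 51 59 (.thr 49 50 (.dbl 57 60 61)))))) (.rp 15 (.thr 55 4 (.thr 16 32 (.thr 51 59 (.thr 50 49 (.dbl 26 14 31))))) .nd)))))))) (.rp 8 (.thr 55 4 (.thr 51 59 (.thr 25 12 (.dbl 17 29 34)))) (.rp 4 (.str 48 (.nv (.thr 16 32 (.thr 26 31 (.thr 50 14 (.thr 51 49 (.thr 17 34 (.dbl 25 12 29)))))) (.nv (.thr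 16 32 (.thr 53 58 (.thr 26 31 (.dbl 37 5 15)))) (.rp 47 (.thr 53 58 (.thr 37 5 (.thr 16 32 (.dbl 26 15 31)))) (.rp 37 (.str 54 (.nv (.thr 32 16 (.thr 22 6 (.thr 20 23 (.thr 58 53 (.thr 60 40 (.dbl 62 50 61)))))) (.nv (.thr 22 6 (.thr 23 20 (.thr 3 43 (.thr 18 33 (.thr 26 30 (.dbl 16 31 32)))))) (.nv (.thr 58 53 (.thr 62 50 (.thr 60 61 (.thr 57 51 (.dbl 56 52 59))))) (.rp 32 (.str 47 (.nv (.thr 22 6 (.thr 20 23 (.thr 60 40 (.thr 51 57 (.thr 17 34 (.dbl 25 12 29)))))) (.nv (.thr 31 15 (.thr 58 53 (.thr 50 62 (.dbl 26 14 16)))) (.rp 22 (.thr 31 15 (.thr 58 53 (.thr 26 16 (.dbl 50 14 62)))) .nd)))) .nd))))) (.rp 32 (.thr 53 58 (.thr 37 5 (.thr 26 15 (.thr 50 14 (.thr 51 49 (.thr 17 34 (.dbl 25 12 29))))))) (.rp 31 (.thr 53 58 (.thr 37 5 (.thr 26 15 (.thr 50 14 (.thr 51 49 (.thr 17 34 (.dbl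 25 12 29))))))) (.rp 26 (.thr 58 53 (.str 25 (.nv (.thr 17 29 (.dbl 51 12 34)) (.rp 51 (.thr 17 29 (.thr 16 32 (.thr 19 18 (.thr 22 28 (.thr 20 23 (.thr 54 6 (.thr 62 50 (.dbl 60 40 61)))))))) (.rp 34 (.thr 29 17 (.dbl 12 46 51)) (.rp 29 (.thr 51 12 (.thr 59 55 (.thr 50 49 (.thr 54 62 (.dbl 57 56 60))))) (.rp 17 (.thr 51 12 (.thr 59 55 (.thr 57 56 (.thr 54 60 (.dbl 50 49 62))))) (.rp 12 (.thr 17 29 (.thr 51 34 (.thr 59 55 (.thr 50 49 (.thr 54 62 (.dbl 57 56 60)))))) .nd)))))))) (.rp 16 (.thr 53 58 (.thr 37 5 (.thr 26 15 (.thr 50 14 (.thr 51 49 (.thr 17 34 (.dbl 25 12 29))))))) .nd))))))))) .nd)))))))))))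

theorem w110 : WinAt (9223372036856872961, 4398063288322) :=
  chF (K := []) kn c110 9223372036856872961 4398063288322 42
    [] (by decide +kernel) (by decide +kernel)

/-- A certificate. -/
noncomputable def c111 : Ct := (.str 16 (.nv (.thr 48 32 (.thr 26 31 (.thr 10 58 (.dbl 15 5 37)))) (.rp 58 (.thr 48 32 (.str 17 (.nv (.thr 26 31 (.thr 34 51 (.thr 38 46 (.thr 50 14 (.dbl 18 2 19))))) (.nv (.thr 18 19 (.thr 3 33 (.thr 26 31 (.thr 22 30 (.thr 60 41 (.dbl 20 23 40)))))) (.nv (.thr 18 19 (.thr 34 51 (.thr 50 2 (.thr 38 46 (.dbl 26 14 31))))) (.rp 34 (.thr 18 19 (.thr 26 31 (.thr 22 30 (.thr 23 20 (.thr 2 62 (.thr 15 37 (.thr 10 5 (.thr 14 6 (.thr 50 38 (.thr 51 49 (.thr 13 12 (.thr 39 27 (.thr 7 55 (.dbl 3 11 33)))))))))))))) (.rp 31 (.thr 18 19 (.thr 3 33 (.thr 34 51 (.thr 2 50 (.thr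 38 46 (.thr 22 62 (.thr 54 6 (.thr 60 41 (.dbl 20 23 40))))))))) (.rp 29 (.thr 18 19 (.thr 34 51 (.thr 50 2 (.thr 26 31 (.dbl 38 14 46))))) (.rp 26 (.thr 18 19 (.thr 3 33 (.thr 34 51 (.thr 2 50 (.thr 38 46 (.thr 22 62 (.thr 54 6 (.thr 20 23 (.dbl 60 40 41))))))))) (.rp 19 (.thr 51 34 (.thr 50 49 (.thr 26 31 (.thr 38 14 (.thr 4 55 (.thr 12 8 (.thr 36 24 (.dbl 37 15 39)))))))) (.rp 18 (.thr 51 34 (.thr 50 49 (.thr 26 31 (.thr 38 14 (.thr 4 55 (.thr 12 8 (.thr 36 24 (.dbl 37 15 39)))))))) .nd))))))))))) (.rp 48 (.thr 26 31 (.thr 58 10 (.str 22 (.nv (.thr 20 23 (.thr 24 28 (.thr 40 60 (.thr 56 8 (.dbl 41 11 43))))) (.nv (.thr 30 18 (.thr 62 2 (.thr 50 54 (.dbl 14 38 46)))) (.rp 62 (.thr 18 30 (.thr 17 19 (.thr 34 51 (.thr 50 2 (.dbl 38 14 46))))) (.rp 47 (.str 15 (.nv (.thr 20 23 (.thr 24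 28 (.thr 40 60 (.thr 56 8 (.dbl 41 11 43))))) (.nv (.thr 62 2 (.thr 50 54 (.thr 14 38 (.dbl 30 18 46)))) (.nv (.thr 30 18 (.thr 60 45 (.dbl 20 23 40))) (.rp 30 (.thr 20 23 (.thr 28 24 (.thr 62 2 (.thr 50 54 (.thr 14 38 (.thr 12 13 (.dbl 60 40 44))))))) .nd))))) (.rp 30 (.thr 62 2 (.thr 54 50 (.thr 20 23 (.thr 60 40 (.thr 51 57 (.thr 34 17 (.dbl 38 6 46))))))) (.rp 15 (.str 47 (.nv (.thr 37 32 (.thr 53 5 (.thr 62 2 (.thr 54 50 (.dbl 52 7 55))))) (.nv (.thr 20 23 (.thr 24 28 (.thr 40 60 (.thr 56 8 (.dbl 41 11 43))))) (.nv (.thr 30 18 (.thr 62 2 (.thr 50 54 (.dbl 14 38 46)))) (.rp 62 (.thr 18 30 (.thr 17 19 (.thr 34 51 (.thr 50 2 (.dbl 38 14 46))))) .nd))))) (.rp 3 (.thr 18 30 (.thr 2 62 (.thr 34 50 (.dbl 17 19 51)))) .nd)))))))))) (.rp 47 (.thr 48 32 (.thr 26 31 (.thr 15 37 (.dbl 10 5 58))))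 (.rp 37 (.thr 48 32 (.str 49 (.nv (.thr 26 31 (.thr 50 51 (.thr 38 14 (.thr 58 10 (.thr 62 54 (.thr 2 22 (.dbl 34 18 46))))))) (.nv (.thr 50 51 (.thr 26 31 (.thr 38 14 (.thr 34 46 (.thr 2 18 (.thr 58 10 (.dbl 62 22 54))))))) (.rp 62 (.thr 51 50 (.thr 34 17 (.thr 38 46 (.thr 4 55 (.thr 12 8 (.thr 24 36 (.thr 20 28 (.thr 22 23 (.thr 54 6 (.dbl 60 40 57)))))))))) (.rp 59 (.thr 51 50 (.thr 34 17 (.thr 38 46 (.thr 4 55 (.thr 12 8 (.thr 24 36 (.thr 20 28 (.thr 22 23 (.thr 54 6 (.dbl 60 40 57)))))))))) (.rp 58 (.thr 51 50 (.thr 34 17 (.thr 38 46 (.thr 4 55 (.thr 12 8 (.thr 24 36 (.thr 20 28 (.thr 22 23 (.thr 54 6 (.dbl 60 40 57)))))))))) (.rp 55 (.thr 51 50 (.str 19 (.nv (.dbl 17 18 34) (.rp 34 (.thr 18 17 (.dbl 3 33 35)) (.rp 18 (.thr 35 3 (.thr 34 17 (.thr 26 31 (.thr 38 46 (.thr 41 44 (.thr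 56 11 (.thr 60 52 (.dbl 40 20 43)))))))) (.rp 17 (.thr 3 35 (.thr 26 31 (.thr 10 58 (.thr 15 5 (.thr 11 7 (.thr 41 56 (.thr 43 40 (.dbl 27 39 59)))))))) .nd)))))) (.rp 54 (.thr 50 51 (.thr 26 31 (.thr 10 58 (.thr 15 5 (.thr 38 14 (.thr 34 46 (.thr 18 2 (.thr 3 33 (.thr 11 7 (.thr 41 56 (.dbl 22 30 60))))))))))) (.rp 51 (.str 12 (.nv (.thr 24 36 (.thr 20 28 (.thr 26 31 (.thr 40 60 (.thr 41 43 (.dbl 56 8 11)))))) (.nv (.thr 8 4 (.thr 24 36 (.thr 26 31 (.thr 10 58 (.thr 11 9 (.dbl 56 40 41)))))) (.nv (.thr 8 4 (.thr 24 36 (.thr 40 56 (.dbl 20 28 60)))) (.rp 59 (.str 55 (.nv (.dbl 4 8 38) (.rp 38 (.thr 26 31 (.thr 8 4 (.thr 10 58 (.thr 9 11 (.thr 6 3 (.thr 14 2 (.dbl 15 5 13))))))) (.rp 8 (.thr 26 31 (.thr 10 58 (.thr 15 5 (.thr 38 4 (.dbl 14 13 50))))) (.rp 4 (.thr 26 31 (.thr 24 36 (.thr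 20 28 (.thr 40 60 (.thr 56 8 (.dbl 41 11 43)))))) .nd))))) (.rp 56 (.thr 8 4 (.thr 26 31 (.thr 10 58 (.thr 15 5 (.thr 14 13 (.thr 9 11 (.dbl 6 2 3))))))) (.rp 55 (.str 59 (.nv (.thr 24 36 (.thr 20 28 (.thr 26 31 (.thr 58 10 (.thr 56 57 (.dbl 60 40 52)))))) (.nv (.thr 8 4 (.thr 26 31 (.thr 10 58 (.thr 11 9 (.thr 41 56 (.dbl 43 27 40)))))) (.nv (.thr 8 4 (.thr 24 36 (.thr 40 56 (.dbl 20 28 60)))) (.rp 56 (.thr 8 4 (.thr 26 31 (.thr 10 58 (.thr 9 11 (.thr 15 5 (.thr 14 13 (.dbl 6 2 3))))))) (.rp 40 (.thr 36 24 (.thr 26 31 (.thr 58 10 (.thr 4 8 (.thr 56 57 (.dbl 52 20 60)))))) .nd)))))) (.rp 40 (.thr 8 4 (.thr 26 31 (.thr 10 58 (.thr 15 5 (.thr 14 13 (.thr 9 11 (.dbl 6 2 3))))))) (.rp 39 (.thr 8 4 (.thr 26 31 (.thr 10 58 (.thr 15 5 (.thr 14 13 (.thr 9 11 (.dbl 6 2 3))))))) (.rp 38 (.thr 8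 4 (.thr 26 31 (.thr 10 58 (.thr 15 5 (.thr 14 13 (.thr 9 11 (.dbl 6 2 3))))))) (.rp 36 (.thr 8 4 (.thr 26 31 (.thr 10 58 (.thr 15 5 (.thr 14 13 (.thr 9 11 (.dbl 6 2 3))))))) (.rp 24 (.thr 8 4 (.thr 26 31 (.thr 10 58 (.thr 15 5 (.thr 14 13 (.thr 9 11 (.dbl 6 2 3))))))) (.rp 20 (.thr 8 4 (.thr 26 31 (.thr 10 58 (.thr 15 5 (.thr 14 13 (.thr 9 11 (.dbl 6 2 3))))))) (.rp 8 (.thr 24 36 (.thr 20 28 (.thr 26 31 (.thr 10 58 (.thr 22 23 (.thr 30 18 (.thr 15 5 (.dbl 60 40 45)))))))) .nd)))))))))))))) (.rp 50 (.str 41 (.nv (.thr 26 31 (.thr 56 11 (.thr 60 52 (.dbl 40 20 43)))) (.nv (.thr 40 43 (.thr 20 60 (.thr 24 28 (.thr 8 56 (.dbl 12 4 36))))) (.nv (.thr 40 43 (.thr 60 20 (.thr 26 31 (.dbl 56 11 52)))) (.rp 60 (.thr 26 31 (.thr 10 58 (.thr 15 5 (.thr 11 56 (.thr 9 8 (.thr 3 7 (.thr 18 33 (.thr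 22 30 (.thr 6 12 (.dbl 2 14 62)))))))))) (.rp 56 (.thr 40 43 (.thr 60 20 (.thr 26 31 (.thr 10 58 (.thr 15 5 (.thr 30 45 (.dbl 22 3 18))))))) (.rp 43 (.thr 26 31 (.thr 56 11 (.thr 60 52 (.thr 20 40 (.dbl 22 3 23))))) (.rp 40 (.thr 26 31 (.thr 10 58 (.thr 15 5 (.thr 56 11 (.thr 60 52 (.thr 30 45 (.dbl 22 3 18))))))) (.rp 20 (.thr 26 31 (.thr 10 58 (.thr 15 5 (.thr 56 11 (.thr 60 52 (.thr 30 45 (.dbl 22 3 18))))))) .nd))))))))) (.rp 47 (.thr 51 50 (.thr 34 17 (.thr 38 46 (.thr 4 55 (.thr 12 8 (.thr 24 36 (.thr 20 28 (.thr 22 23 (.thr 54 6 (.dbl 60 40 57)))))))))) (.rp 46 (.thr 50 51 (.thr 26 31 (.thr 58 10 (.thr 62 54 (.thr 22 2 (.thr 20 23 (.thr 60 40 (.thr 56 52 (.dbl 41 3 11))))))))) (.rp 38 (.thr 51 50 (.thr 17 34 (.thr 18 19 (.thr 26 31 (.thr 10 58 (.thr 22 30 (.thr 23 20 (.thr 15 5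 (.thr 39 27 (.thr 7 55 (.dbl 3 11 33))))))))))) (.rp 34 (.thr 50 51 (.thr 26 31 (.thr 58 10 (.thr 62 54 (.thr 22 2 (.thr 30 18 (.dbl 14 38 46))))))) (.rp 31 (.thr 51 50 (.thr 34 17 (.thr 38 46 (.thr 4 55 (.thr 12 8 (.thr 24 36 (.thr 20 28 (.thr 22 23 (.thr 54 6 (.dbl 60 40 57)))))))))) (.rp 26 (.thr 51 50 (.thr 34 17 (.thr 38 46 (.thr 4 55 (.thr 12 8 (.thr 24 36 (.thr 20 28 (.thr 22 23 (.thr 54 6 (.dbl 60 40 57)))))))))) (.rp 22 (.thr 51 50 (.thr 34 17 (.thr 26 31 (.thr 10 58 (.thr 38 46 (.thr 4 55 (.thr 15 5 (.thr 27 39 (.thr 12 8 (.thr 24 36 (.thr 28 20 (.thr 44 60 (.thr 41 35 (.thr 43 40 (.dbl 11 56 59))))))))))))))) (.rp 18 (.thr 50 51 (.thr 26 31 (.thr 58 10 (.thr 62 54 (.thr 22 2 (.thr 20 23 (.thr 60 40 (.thr 56 52 (.dbl 41 3 11))))))))) (.rp 15 (.thr 51 50 (.thr 34 17 (.thr 38 46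 (.thr 4 55 (.thr 12 8 (.thr 24 36 (.thr 20 28 (.thr 22 23 (.thr 54 6 (.dbl 60 40 57)))))))))) (.rp 14 (.thr 51 50 (.thr 34 17 (.thr 38 46 (.thr 4 55 (.thr 12 8 (.thr 24 36 (.thr 20 28 (.thr 22 23 (.thr 54 6 (.dbl 60 40 57)))))))))) (.rp 10 (.thr 51 50 (.thr 34 17 (.thr 38 46 (.thr 4 55 (.thr 12 8 (.thr 24 36 (.thr 20 28 (.thr 22 23 (.thr 54 6 (.dbl 60 40 57)))))))))) (.rp 2 (.thr 51 50 (.thr 34 17 (.thr 38 46 (.thr 4 55 (.thr 12 8 (.thr 24 36 (.thr 20 28 (.thr 22 23 (.thr 54 6 (.dbl 60 40 57)))))))))) .nd))))))))))))))))))))))) (.rp 32 (.str 17 (.nv (.thr 26 31 (.thr 34 51 (.thr 38 46 (.thr 50 14 (.dbl 18 2 19))))) (.nv (.thr 18 19 (.thr 26 31 (.thr 34 51 (.thr 2 50 (.dbl 22 30 62))))) (.nv (.thr 18 19 (.thr 26 31 (.thr 10 58 (.thr 22 30 (.thr 2 62 (.thr 14 6 (.dbl 50 34 38))))))) (.nv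 (.thr 18 19 (.thr 34 51 (.thr 50 2 (.thr 38 46 (.dbl 26 14 31))))) (.rp 50 (.thr 18 19 (.thr 26 31 (.thr 10 58 (.thr 22 30 (.thr 15 5 (.thr 48 37 (.thr 3 33 (.thr 41 60 (.dbl 11 7 56))))))))) (.rp 38 (.thr 18 19 (.thr 26 31 (.thr 22 30 (.thr 2 62 (.dbl 34 50 51))))) (.rp 34 (.thr 18 19 (.thr 26 31 (.thr 10 58 (.thr 22 30 (.thr 23 20 (.thr 2 62 (.thr 15 5 (.thr 48 37 (.thr 14 6 (.thr 50 38 (.thr 51 49 (.thr 13 12 (.thr 39 27 (.thr 7 55 (.dbl 3 11 33))))))))))))))) (.rp 31 (.thr 18 19 (.thr 34 51 (.thr 2 50 (.thr 22 62 (.thr 23 20 (.thr 38 46 (.thr 54 6 (.thr 55 4 (.thr 52 53 (.dbl 7 37 39)))))))))) (.rp 26 (.thr 18 19 (.thr 34 51 (.thr 2 50 (.thr 22 62 (.thr 23 20 (.thr 38 46 (.thr 54 6 (.thr 55 4 (.thr 52 53 (.dbl 7 37 39)))))))))) (.rp 19 (.thr 34 51 (.thr 26 31 (.thr 58 10 (.thr 38 46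 (.thr 50 14 (.thr 2 18 (.dbl 62 22 54))))))) (.rp 18 (.thr 34 51 (.thr 26 31 (.thr 10 58 (.thr 38 46 (.thr 55 4 (.thr 14 50 (.thr 6 2 (.thr 54 22 (.thr 53 52 (.dbl 5 15 37)))))))))) (.rp 2 (.thr 18 19 (.thr 26 31 (.thr 10 58 (.thr 22 30 (.thr 15 5 (.thr 48 37 (.thr 3 33 (.thr 41 60 (.dbl 11 7 56))))))))) .nd))))))))))))) (.rp 31 (.thr 48 32 (.str 20 (.nv (.thr 24 28 (.thr 12 36 (.thr 40 60 (.dbl 8 4 56)))) (.nv (.thr 22 23 (.thr 60 40 (.thr 52 56 (.thr 37 7 (.thr 5 53 (.dbl 15 10 26)))))) (.nv (.thr 60 40 (.thr 52 56 (.thr 36 4 (.dbl 24 12 28)))) (.rp 60 (.thr 24 28 (.thr 12 36 (.thr 4 8 (.thr 38 55 (.thr 46 34 (.thr 22 23 (.thr 54 6 (.thr 62 2 (.thr 50 58 (.dbl 14 26 30)))))))))) (.rp 56 (.thr 24 28 (.thr 36 12 (.thr 52 4 (.thr 22 23 (.thr 37 7 (.thr 5 53 (.dbl 15 10 26))))))) (.rp 47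 (.str 15 (.nv (.thr 24 28 (.thr 12 36 (.thr 8 4 (.dbl 40 56 60)))) (.nv (.thr 5 10 (.dbl 37 26 53)) .nd))) (.rp 40 (.thr 24 28 (.thr 36 12 (.thr 52 4 (.thr 22 23 (.thr 37 7 (.thr 5 53 (.dbl 15 10 26))))))) (.rp 36 (.thr 24 28 (.thr 40 60 (.thr 56 8 (.thr 41 43 (.thr 26 11 (.thr 10 58 (.dbl 15 5 37))))))) (.rp 24 (.thr 60 40 (.thr 22 23 (.thr 2 62 (.thr 3 41 (.thr 18 33 (.thr 34 50 (.dbl 17 19 51))))))) (.rp 15 (.str 47 (.nv (.thr 24 28 (.thr 12 36 (.thr 40 60 (.dbl 8 4 56)))) (.nv (.thr 60 40 (.thr 52 56 (.thr 36 4 (.dbl 24 12 28)))) (.rp 60 (.thr 22 23 (.thr 62 2 (.thr 24 28 (.thr 12 36 (.thr 4 8 (.thr 38 55 (.thr 54 6 (.thr 34 46 (.thr 51 17 (.dbl 50 49 58)))))))))) (.rp 56 (.thr 22 23 (.thr 2 62 (.thr 60 40 (.thr 3 41 (.thr 18 33 (.thr 34 50 (.dbl 17 19 51))))))) (.rp 40 (.thr 24 28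 (.thr 36 12 (.thr 4 52 (.thr 38 55 (.thr 39 37 (.thr 46 34 (.thr 44 45 (.dbl 35 41 43)))))))) (.rp 36 (.thr 22 23 (.thr 28 24 (.thr 60 40 (.thr 44 12 (.thr 46 45 (.thr 38 34 (.dbl 41 3 35))))))) (.rp 28 (.thr 22 23 (.thr 2 62 (.thr 60 40 (.thr 3 41 (.thr 18 33 (.thr 34 50 (.dbl 17 19 51))))))) (.rp 24 (.thr 22 23 (.thr 2 62 (.thr 60 40 (.thr 3 41 (.thr 18 33 (.thr 34 50 (.dbl 17 19 51))))))) (.rp 12 (.thr 22 23 (.thr 2 62 (.thr 60 40 (.thr 3 41 (.thr 18 33 (.thr 34 50 (.dbl 17 19 51))))))) (.rp 8 (.thr 60 40 (.thr 52 56 (.thr 24 28 (.dbl 36 4 12)))) (.rp 4 (.thr 22 23 (.thr 2 62 (.thr 60 40 (.thr 3 41 (.thr 18 33 (.thr 34 50 (.dbl 17 19 51))))))) .nd)))))))))))) (.rp 8 (.thr 24 28 (.thr 36 12 (.thr 52 4 (.dbl 60 40 56)))) .nd))))))))))))) (.rp 26 (.thr 48 32 (.str 24 (.nv (.thr 20 28 (.thr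 22 23 (.thr 36 12 (.thr 60 40 (.dbl 52 4 56))))) (.nv (.thr 20 28 (.thr 12 36 (.thr 8 4 (.dbl 40 56 60)))) (.rp 60 (.thr 20 28 (.thr 12 36 (.thr 4 8 (.thr 38 55 (.thr 34 46 (.thr 51 17 (.thr 22 23 (.thr 54 6 (.thr 62 2 (.dbl 50 49 58)))))))))) (.rp 56 (.thr 20 28 (.thr 12 36 (.thr 4 8 (.thr 38 55 (.thr 22 23 (.thr 6 54 (.thr 3 9 (.dbl 60 40 41)))))))) (.rp 40 (.thr 20 28 (.thr 36 12 (.thr 52 4 (.thr 60 56 (.thr 22 23 (.thr 37 7 (.thr 5 53 (.thr 15 10 (.thr 45 30 (.dbl 41 3 33)))))))))) (.rp 36 (.thr 20 28 (.thr 40 60 (.thr 8 56 (.thr 12 4 (.thr 41 43 (.thr 22 23 (.str 3 (.nv (.thr 6 9 (.thr 38 54 (.thr 34 46 (.thr 35 44 (.dbl 51 17 19))))) (.nv (.thr 18 33 (.thr 17 19 (.thr 34 51 (.dbl 2 50 62)))) (.nv (.thr 33 18 (.thr 37 45 (.thr 5 53 (.thr 9 6 (.dbl 10 11 15))))) (.rp 62 (.str 61 (.nv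 (.thr 33 18 (.thr 37 45 (.thr 5 53 (.thr 7 52 (.dbl 15 10 11))))) (.nv (.thr 6 9 (.thr 38 54 (.thr 35 44 (.thr 51 19 (.dbl 34 17 46))))) (.nv (.thr 33 18 (.thr 37 45 (.thr 5 53 (.thr 9 6 (.dbl 10 11 15))))) (.rp 5 (.thr 33 18 (.thr 37 45 (.thr 9 6 (.thr 7 52 (.dbl 11 10 15))))) .nd))))) (.rp 61 (.thr 62 2 (.thr 9 6 (.thr 33 18 (.thr 37 45 (.thr 5 53 (.dbl 10 11 15)))))) .nd)))))))))))) (.rp 28 (.thr 12 36 (.thr 8 4 (.thr 40 56 (.thr 20 60 (.thr 41 43 (.thr 22 23 (.str 3 (.nv (.thr 6 9 (.thr 38 54 (.thr 34 46 (.thr 35 44 (.dbl 51 17 19))))) (.nv (.thr 18 33 (.thr 17 19 (.thr 34 51 (.dbl 2 50 62)))) (.nv (.thr 33 18 (.thr 37 45 (.thr 5 53 (.thr 9 6 (.dbl 10 11 15))))) (.rp 62 (.str 61 (.nv (.thr 33 18 (.thr 37 45 (.thr 5 53 (.thr 7 52 (.dbl 15 10 11))))) (.nv (.thr 6 9 (.thr 38 54 (.thr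 35 44 (.thr 51 19 (.dbl 34 17 46))))) (.nv (.thr 33 18 (.thr 37 45 (.thr 5 53 (.thr 9 6 (.dbl 10 11 15))))) (.rp 5 (.thr 33 18 (.thr 37 45 (.thr 9 6 (.thr 7 52 (.dbl 11 10 15))))) .nd))))) (.rp 61 (.thr 62 2 (.thr 9 6 (.thr 33 18 (.thr 37 45 (.thr 5 53 (.dbl 10 11 15)))))) .nd)))))))))))) (.rp 22 (.thr 12 36 (.thr 8 4 (.thr 40 56 (.dbl 20 28 60)))) (.rp 20 (.thr 12 36 (.thr 4 8 (.thr 38 55 (.thr 34 46 (.thr 51 17 (.thr 49 50 (.str 5 (.nv (.thr 6 7 (.thr 10 15 (.thr 2 14 (.dbl 22 54 62)))) (.nv (.thr 53 37 (.thr 57 61 (.thr 6 7 (.dbl 54 22 60)))) (.rp 62 (.thr 37 53 (.thr 6 7 (.thr 3 9 (.thr 33 18 (.thr 41 45 (.dbl 22 54 60)))))) (.rp 54 (.thr 6 7 (.thr 3 9 (.thr 33 18 (.thr 35 19 (.thr 41 44 (.thr 40 43 (.dbl 37 45 53))))))) (.rp 44 (.str 40 (.nv (.thr 7 6 (.thr 15 10 (.thr 27 39 (.thr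 11 3 (.dbl 43 41 59))))) (.nv (.thr 53 37 (.thr 57 61 (.thr 6 7 (.dbl 54 22 60)))) (.rp 47 (.str 45 (.nv (.thr 15 10 (.thr 6 7 (.thr 60 30 (.dbl 54 22 57)))) (.nv (.thr 37 53 (.dbl 41 33 43)) (.rp 54 (.thr 41 43 (.dbl 37 33 53)) (.rp 15 (.str 31 (.nv (.thr 6 7 (.thr 53 37 (.thr 57 61 (.dbl 54 22 60)))) (.nv (.thr 6 7 (.thr 3 9 (.thr 41 43 (.dbl 22 54 60)))) (.nv (.thr 37 53 (.dbl 41 33 43)) (.rp 54 (.thr 41 43 (.dbl 37 33 53)) .nd))))) .nd))))) (.rp 45 (.str 47 (.nv (.thr 6 7 (.thr 53 37 (.thr 57 61 (.dbl 54 22 60)))) (.nv (.thr 15 10 (.thr 39 27 (.dbl 43 35 41))) (.rp 41 (.thr 6 7 (.thr 10 15 (.thr 2 14 (.dbl 22 54 62)))) (.rp 39 (.thr 53 37 (.thr 57 61 (.thr 41 43 (.thr 60 54 (.thr 3 22 (.dbl 6 7 9)))))) .nd))))) (.rp 39 (.thr 53 37 (.thr 57 61 (.thr 60 54 (.thr 41 43 (.thr 3 22 (.dbl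 6 7 9)))))) (.rp 7 (.thr 37 53 (.thr 41 43 (.thr 45 33 (.thr 15 10 (.thr 60 30 (.thr 54 57 (.dbl 22 3 6))))))) (.rp 6 (.thr 37 53 (.thr 41 43 (.thr 45 33 (.thr 15 10 (.thr 60 30 (.thr 52 56 (.dbl 22 3 7))))))) .nd)))))))) (.rp 40 (.str 44 (.nv (.thr 6 7 (.thr 3 9 (.dbl 35 19 41))) (.nv (.thr 53 37 (.thr 57 61 (.dbl 60 28 54))) (.rp 57 (.thr 60 28 (.thr 52 56 (.thr 37 53 (.dbl 7 6 22)))) .nd)))) (.rp 39 (.thr 53 37 (.thr 57 61 (.thr 60 54 (.thr 44 28 (.thr 41 35 (.thr 7 6 (.thr 15 10 (.dbl 3 11 22)))))))) (.rp 23 (.thr 53 37 (.thr 57 61 (.thr 15 10 (.thr 6 7 (.thr 39 27 (.dbl 54 22 60)))))) (.rp 22 (.thr 53 37 (.thr 57 61 (.thr 60 54 (.thr 56 52 (.thr 7 6 (.thr 15 10 (.thr 27 39 (.thr 11 3 (.dbl 59 43 58))))))))) (.rp 7 (.thr 53 37 (.thr 57 61 (.thr 60 54 (.thr 44 28 (.thr 41 35 (.thr 56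 52 (.thr 22 3 (.thr 62 2 (.thr 59 58 (.thr 43 40 (.thr 27 11 (.dbl 15 10 39)))))))))))) (.rp 6 (.thr 53 37 (.thr 57 61 (.thr 60 54 (.thr 56 52 (.thr 44 28 (.thr 41 35 (.thr 43 40 (.thr 15 10 (.thr 27 39 (.dbl 59 11 58)))))))))) .nd)))))))))))))))))) (.rp 12 (.thr 20 28 (.thr 60 40 (.thr 52 56 (.thr 22 23 (.thr 37 7 (.thr 53 5 (.thr 55 54 (.dbl 4 36 38)))))))) (.rp 4 (.thr 20 28 (.thr 60 40 (.thr 22 23 (.thr 2 62 (.thr 3 41 (.thr 18 33 (.thr 34 50 (.dbl 17 19 51)))))))) .nd))))))))))))) (.rp 15 (.thr 48 32 (.str 20 (.nv (.thr 31 26 (.thr 24 28 (.thr 12 36 (.thr 40 60 (.dbl 8 4 56))))) (.nv (.thr 22 23 (.thr 60 40 (.thr 3 41 (.thr 18 33 (.dbl 26 30 31))))) (.nv (.thr 60 40 (.thr 52 56 (.thr 36 4 (.dbl 24 12 28)))) (.rp 60 (.thr 24 28 (.thr 12 36 (.thr 4 8 (.thr 38 55 (.thr 46 34 (.thr 22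 23 (.thr 62 2 (.thr 30 14 (.dbl 26 18 31))))))))) (.rp 40 (.thr 24 28 (.thr 36 12 (.thr 52 4 (.thr 60 56 (.thr 22 23 (.thr 3 41 (.thr 18 33 (.dbl 26 30 31)))))))) (.rp 36 (.thr 24 28 (.thr 40 60 (.thr 56 8 (.thr 41 43 (.dbl 26 11 31))))) (.rp 31 (.str 47 (.nv (.thr 24 28 (.thr 12 36 (.thr 40 60 (.dbl 8 4 56)))) (.nv (.thr 60 40 (.thr 52 56 (.thr 36 4 (.dbl 24 12 28)))) (.rp 60 (.thr 22 23 (.thr 62 2 (.thr 24 28 (.thr 12 36 (.thr 4 8 (.thr 38 55 (.thr 54 6 (.thr 34 46 (.thr 51 17 (.dbl 50 49 58)))))))))) (.rp 56 (.thr 22 23 (.thr 2 62 (.thr 60 40 (.thr 3 41 (.thr 18 33 (.thr 34 50 (.dbl 17 19 51))))))) (.rp 40 (.thr 24 28 (.thr 36 12 (.thr 4 52 (.thr 38 55 (.thr 39 37 (.thr 46 34 (.thr 44 45 (.dbl 35 41 43)))))))) (.rp 36 (.thr 22 23 (.thr 28 24 (.thr 60 40 (.thr 44 12 (.thr 46 45 (.thr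 38 34 (.dbl 41 3 35))))))) (.rp 28 (.thr 22 23 (.thr 2 62 (.thr 60 40 (.thr 3 41 (.thr 18 33 (.thr 34 50 (.dbl 17 19 51))))))) (.rp 24 (.thr 22 23 (.thr 2 62 (.thr 60 40 (.thr 3 41 (.thr 18 33 (.thr 34 50 (.dbl 17 19 51))))))) (.rp 12 (.thr 22 23 (.thr 2 62 (.thr 60 40 (.thr 3 41 (.thr 18 33 (.thr 34 50 (.dbl 17 19 51))))))) (.rp 8 (.thr 60 40 (.thr 52 56 (.thr 24 28 (.dbl 36 4 12)))) (.rp 4 (.thr 22 23 (.thr 2 62 (.thr 60 40 (.thr 3 41 (.thr 18 33 (.thr 34 50 (.dbl 17 19 51))))))) .nd)))))))))))) .nd))))))))) (.rp 10 (.str 24 (.nv (.thr 20 28 (.thr 26 31 (.thr 40 60 (.thr 41 43 (.dbl 56 8 11))))) (.nv (.thr 20 28 (.thr 22 23 (.thr 26 31 (.thr 30 18 (.thr 48 32 (.thr 15 37 (.dbl 60 40 45))))))) (.nv (.thr 48 32 (.thr 12 36 (.thr 8 4 (.thr 40 56 (.dbl 20 28 60))))) (.rp 60 (.thr 48 32 (.thr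 12 36 (.thr 4 8 (.thr 38 55 (.thr 26 31 (.thr 14 50 (.dbl 15 13 37))))))) (.rp 40 (.thr 20 28 (.thr 48 32 (.thr 36 12 (.thr 52 4 (.thr 26 31 (.thr 22 23 (.dbl 37 7 15))))))) (.rp 28 (.thr 48 32 (.thr 12 36 (.thr 4 8 (.thr 38 55 (.thr 26 31 (.thr 14 50 (.dbl 15 13 37))))))) (.rp 20 (.thr 48 32 (.thr 12 36 (.thr 4 8 (.thr 38 55 (.thr 26 31 (.thr 14 50 (.dbl 15 13 37))))))) .nd)))))))) (.rp 5 (.str 12 (.nv (.thr 4 8 (.thr 26 31 (.thr 38 55 (.thr 34 46 (.thr 50 14 (.thr 18 2 (.dbl 17 19 51))))))) (.nv (.thr 48 32 (.thr 8 4 (.thr 24 36 (.thr 40 56 (.dbl 20 28 60))))) (.rp 13 (.str 9 (.nv (.thr 48 32 (.thr 24 36 (.thr 20 28 (.thr 40 60 (.dbl 8 4 56))))) (.nv (.thr 8 4 (.thr 10 11 (.dbl 26 31 58))) (.rp 49 (.str 37 (.nv (.thr 8 4 (.thr 10 11 (.dbl 26 31 58))) (.nv (.dbl 32 47 48) (.rp 33 (.str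 17 (.nv (.thr 3 6 (.thr 19 18 (.dbl 51 34 35))) (.nv (.dbl 32 47 48) .nd))) (.rp 17 (.str 33 (.nv (.thr 8 4 (.thr 10 11 (.dbl 26 31 58))) (.nv (.dbl 32 47 48) .nd))) .nd))))) (.rp 37 (.str 49 (.nv (.thr 48 32 (.thr 51 50 (.thr 17 34 (.thr 18 19 (.dbl 3 6 33))))) (.nv (.thr 8 4 (.thr 10 11 (.dbl 26 31 58))) (.rp 6 (.thr 26 31 (.thr 10 58 (.dbl 8 4 11))) .nd)))) (.rp 8 (.thr 48 32 (.thr 24 36 (.thr 20 28 (.thr 22 23 (.thr 3 6 (.dbl 60 40 41)))))) (.rp 4 (.thr 48 32 (.thr 24 36 (.thr 20 28 (.thr 40 60 (.thr 56 8 (.thr 26 31 (.dbl 41 11 43))))))) .nd))))))) (.rp 9 (.str 13 (.nv (.thr 4 8 (.thr 14 15 (.thr 38 55 (.dbl 26 31 50)))) (.nv (.thr 8 4 (.thr 48 32 (.thr 24 36 (.thr 20 28 (.dbl 40 56 60))))) (.nv (.thr 48 32 (.thr 26 31 (.dbl 15 14 37))) (.rp 57 (.str 41 (.nv (.thr 8 4 (.thr 40 43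 (.thr 20 60 (.dbl 24 28 56)))) (.nv (.thr 48 32 (.thr 26 31 (.dbl 15 14 37))) .nd))) (.rp 41 (.str 57 (.nv (.thr 4 8 (.thr 14 15 (.thr 38 55 (.dbl 26 31 50)))) (.nv (.thr 8 4 (.thr 48 32 (.thr 24 36 (.thr 20 28 (.dbl 40 56 60))))) (.nv (.thr 48 32 (.thr 26 31 (.dbl 15 14 37))) .nd)))) .nd)))))) (.rp 8 (.thr 48 32 (.thr 24 36 (.thr 20 28 (.thr 26 31 (.thr 22 23 (.thr 30 18 (.thr 15 37 (.dbl 60 40 45)))))))) (.rp 6 (.thr 48 32 (.thr 24 36 (.thr 20 28 (.thr 40 60 (.dbl 8 4 56))))) (.rp 4 (.thr 48 32 (.thr 24 36 (.thr 20 28 (.thr 40 60 (.thr 56 8 (.thr 26 31 (.dbl 41 11 43))))))) .nd)))))))) .nd))))))))))))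

theorem w111 : WinAt (4398048608257, 9223372036888330242) :=
  chF (K := []) kn c111 4398048608257 9223372036888330242 63
    [] (by decide +kernel) (by decide +kernel)

/-- A certificate. -/
noncomputable def c112 : Ct := (.str 25 (.nv (.thr 29 17 (.thr 63 42 (.thr 12 46 (.thr 38 51 (.dbl 4 8 55))))) (.nv (.thr 17 29 (.thr 51 34 (.thr 12 38 (.thr 42 63 (.dbl 8 4 59))))) (.nv (.thr 17 29 (.thr 51 34 (.thr 38 12 (.thr 55 4 (.dbl 63 42 59))))) (.rp 63 (.str 20 (.nv (.thr 17 29 (.thr 22 23 (.thr 28 19 (.thr 24 16 (.thr 60 40 (.thr 12 44 (.thr 4 8 (.dbl 36 48 52)))))))) (.nv (.thr 17 29 (.thr 22 23 (.thr 28 19 (.thr 24 16 (.thr 51 34 (.thr 12 38 (.thr 4 8 (.dbl 36 48 52)))))))) (.nv (.thr 17 29 (.thr 51 34 (.thr 12 38 (.thr 60 40 (.thr 28 44 (.thr 16 24 (.dbl 19 18 22))))))) (.nv (.thr 22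 23 (.thr 28 19 (.thr 60 40 (.thr 12 44 (.thr 4 8 (.dbl 38 51 55)))))) (.nv (.thr 17 29 (.thr 22 23 (.thr 51 34 (.thr 60 40 (.thr 54 57 (.dbl 38 6 12)))))) (.rp 22 (.thr 17 29 (.thr 60 40 (.thr 51 34 (.thr 12 38 (.thr 4 8 (.thr 36 52 (.thr 24 48 (.dbl 28 16 44)))))))) (.rp 12 (.thr 22 23 (.thr 19 28 (.thr 60 40 (.thr 3 41 (.thr 51 35 (.dbl 17 29 34)))))) .nd)))))))) (.rp 51 (.str 20 (.nv (.thr 22 23 (.thr 28 19 (.thr 24 16 (.thr 40 60 (.thr 8 56 (.dbl 42 59 63)))))) (.nv (.thr 22 23 (.thr 28 19 (.thr 24 16 (.thr 60 40 (.thr 12 44 (.thr 4 8 (.dbl 36 48 52))))))) (.nv (.thr 22 23 (.thr 29 17 (.thr 60 40 (.thr 63 42 (.thr 12 46 (.dbl 28 19 44)))))) (.nv (.thr 22 23 (.thr 28 19 (.thr 60 40 (.thr 12 44 (.thr 8 4 (.dbl 42 59 63)))))) (.rp 60 (.thr 29 17 (.thr 22 23 (.thr 28 19 (.thr 63 42 (.thr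 12 46 (.thr 4 8 (.thr 36 52 (.dbl 24 16 48)))))))) (.rp 40 (.thr 29 17 (.thr 22 23 (.thr 28 19 (.thr 63 42 (.thr 12 46 (.thr 4 8 (.thr 36 52 (.dbl 24 16 48)))))))) (.rp 28 (.thr 29 17 (.thr 60 40 (.thr 63 42 (.thr 61 62 (.thr 45 13 (.thr 15 30 (.thr 47 31 (.dbl 46 12 44)))))))) (.rp 23 (.thr 29 17 (.thr 60 40 (.thr 63 42 (.thr 61 62 (.thr 45 13 (.thr 30 15 (.thr 28 31 (.dbl 12 44 46)))))))) (.rp 22 (.thr 29 17 (.thr 60 40 (.thr 63 42 (.thr 62 61 (.thr 46 12 (.thr 30 14 (.thr 31 28 (.dbl 15 45 47)))))))) (.rp 19 (.thr 29 17 (.thr 60 40 (.thr 63 42 (.thr 61 62 (.thr 45 13 (.thr 30 15 (.thr 28 31 (.dbl 12 44 46)))))))) .nd))))))))))) (.rp 42 (.thr 17 29 (.str 20 (.nv (.thr 22 23 (.thr 19 28 (.thr 51 34 (.thr 3 35 (.dbl 60 40 41))))) (.nv (.thr 22 23 (.thr 28 19 (.thr 24 16 (.thr 60 40 (.thr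 12 44 (.thr 4 8 (.dbl 36 48 52))))))) (.nv (.thr 22 23 (.thr 51 34 (.thr 60 40 (.thr 54 57 (.dbl 38 6 12))))) (.rp 60 (.thr 22 23 (.thr 51 34 (.thr 38 12 (.thr 4 55 (.thr 52 36 (.thr 7 37 (.dbl 6 5 54))))))) (.rp 58 (.str 10 (.nv (.thr 22 23 (.thr 28 19 (.thr 60 40 (.thr 12 44 (.thr 4 8 (.dbl 38 51 55)))))) (.nv (.thr 5 15 (.thr 37 53 (.thr 51 34 (.thr 38 12 (.thr 36 39 (.dbl 4 52 55)))))) (.nv (.thr 22 23 (.thr 51 34 (.thr 38 12 (.thr 54 6 (.dbl 60 40 57))))) (.rp 51 (.thr 22 23 (.thr 28 19 (.thr 24 16 (.thr 60 40 (.thr 12 44 (.thr 4 8 (.dbl 36 48 52))))))) (.rp 38 (.thr 22 23 (.thr 60 40 (.thr 41 3 (.thr 57 9 (.dbl 51 34 54))))) (.rp 12 (.thr 22 23 (.thr 19 28 (.thr 60 40 (.thr 51 34 (.dbl 3 35 41))))) .nd))))))) (.rp 41 (.thr 22 23 (.thr 51 34 (.thr 38 12 (.thr 54 6 (.dbl 60 40 57)))))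 (.rp 40 (.thr 22 23 (.thr 19 28 (.thr 51 34 (.thr 3 35 (.thr 41 60 (.thr 9 57 (.dbl 12 6 38))))))) (.rp 23 (.thr 60 40 (.thr 51 34 (.thr 57 54 (.thr 41 9 (.thr 22 3 (.thr 28 19 (.dbl 12 38 44))))))) (.rp 22 (.thr 60 40 (.thr 51 34 (.thr 54 57 (.thr 38 12 (.thr 55 4 (.thr 63 59 (.thr 53 52 (.thr 62 61 (.dbl 58 48 50))))))))) (.rp 10 (.str 58 (.nv (.thr 22 23 (.thr 19 28 (.thr 51 34 (.thr 3 35 (.dbl 60 40 41))))) (.nv (.thr 22 23 (.thr 28 19 (.thr 24 16 (.thr 60 40 (.thr 12 44 (.thr 4 8 (.dbl 36 48 52))))))) (.nv (.thr 22 23 (.thr 51 34 (.thr 60 40 (.thr 54 57 (.dbl 38 6 12))))) (.rp 60 (.thr 22 23 (.thr 51 34 (.thr 38 12 (.thr 6 54 (.thr 4 55 (.thr 7 5 (.dbl 52 36 37))))))) (.rp 41 (.thr 22 23 (.thr 51 34 (.thr 38 12 (.thr 54 6 (.dbl 60 40 57))))) (.rp 40 (.thr 22 23 (.thr 19 28 (.thr 51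 34 (.thr 3 35 (.thr 41 60 (.thr 9 57 (.dbl 12 6 38))))))) (.rp 23 (.thr 60 40 (.thr 51 34 (.thr 57 54 (.thr 59 56 (.thr 55 63 (.dbl 38 4 12)))))) (.rp 22 (.thr 60 40 (.thr 51 34 (.thr 57 54 (.thr 59 56 (.thr 55 63 (.dbl 38 4 12)))))) .nd))))))))) .nd)))))))))))) (.rp 38 (.thr 42 63 (.thr 17 29 (.thr 51 34 (.thr 8 59 (.thr 12 4 (.str 22 (.nv (.thr 20 23 (.thr 60 40 (.thr 57 54 (.dbl 41 3 9)))) (.nv (.thr 19 28 (.thr 3 35 (.thr 41 60 (.dbl 9 6 57)))) (.nv (.thr 28 19 (.thr 60 44 (.dbl 20 23 40))) (.rp 60 (.thr 19 28 (.thr 16 18 (.thr 3 35 (.thr 9 6 (.thr 10 11 (.thr 5 15 (.thr 32 48 (.dbl 37 47 53)))))))) (.rp 50 (.str 14 (.nv (.thr 2 62 (.thr 10 6 (.dbl 15 5 13))) (.nv (.thr 28 19 (.thr 60 44 (.dbl 20 23 40))) (.rp 60 (.thr 19 28 (.thr 23 20 (.thr 15 13 (.dbl 27 31 39)))) (.rp 2 (.str 18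 (.nv (.dbl 19 16 28) (.rp 28 (.thr 19 16 (.thr 20 23 (.thr 3 35 (.dbl 60 40 41)))) (.rp 19 (.thr 20 23 (.thr 60 40 (.thr 57 54 (.dbl 41 3 9)))) (.rp 16 (.thr 28 19 (.thr 20 23 (.dbl 60 40 44))) .nd))))) .nd))))) (.rp 41 (.thr 28 19 (.thr 20 23 (.dbl 60 40 44))) (.rp 14 (.str 50 (.nv (.thr 20 23 (.thr 60 40 (.thr 54 57 (.dbl 62 2 58)))) (.nv (.thr 19 28 (.thr 16 18 (.dbl 48 32 49))) .nd))) .nd))))))))))))) (.rp 29 (.str 20 (.nv (.thr 22 23 (.thr 28 19 (.thr 60 40 (.thr 12 44 (.thr 4 8 (.dbl 38 51 55)))))) (.nv (.thr 22 23 (.thr 19 28 (.thr 60 40 (.thr 3 41 (.thr 51 35 (.thr 38 12 (.dbl 54 6 57))))))) (.nv (.thr 22 23 (.thr 28 19 (.thr 60 40 (.thr 12 44 (.thr 8 4 (.dbl 42 59 63)))))) (.rp 60 (.thr 22 23 (.thr 28 19 (.thr 16 24 (.thr 32 48 (.thr 42 63 (.thr 8 59 (.thr 37 47 (.thr 52 7 (.dbl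 4 12 36))))))))) (.rp 40 (.thr 22 23 (.thr 28 19 (.thr 16 24 (.thr 32 48 (.thr 42 63 (.thr 8 59 (.thr 37 47 (.thr 52 7 (.dbl 4 12 36))))))))) (.rp 31 (.thr 22 23 (.thr 60 40 (.thr 42 63 (.thr 8 59 (.thr 12 4 (.dbl 28 19 44)))))) (.rp 28 (.thr 22 23 (.thr 60 40 (.thr 3 41 (.thr 42 63 (.thr 8 59 (.thr 12 4 (.thr 6 9 (.dbl 38 51 54)))))))) (.rp 23 (.thr 40 60 (.thr 42 63 (.thr 8 59 (.thr 12 4 (.thr 24 56 (.thr 16 28 (.dbl 48 32 36))))))) (.rp 22 (.thr 40 60 (.thr 42 63 (.thr 8 59 (.thr 12 4 (.thr 24 56 (.thr 16 28 (.dbl 48 32 36))))))) (.rp 19 (.thr 40 60 (.thr 42 63 (.thr 8 59 (.thr 12 4 (.thr 24 56 (.thr 16 28 (.dbl 48 32 36))))))) (.rp 12 (.thr 22 23 (.thr 28 19 (.thr 24 16 (.thr 40 60 (.thr 8 56 (.dbl 42 59 63)))))) .nd)))))))))))) (.rp 17 (.thr 42 63 (.str 57 (.nv (.thr 41 9 (.thr 40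 43 (.thr 60 20 (.thr 3 22 (.thr 51 54 (.thr 35 19 (.dbl 38 12 44))))))) (.nv (.thr 8 59 (.thr 12 4 (.thr 41 9 (.thr 51 38 (.thr 60 54 (.thr 22 3 (.dbl 28 19 44))))))) (.nv (.thr 8 59 (.thr 41 9 (.thr 40 43 (.thr 20 60 (.thr 24 56 (.thr 28 16 (.dbl 22 19 23))))))) (.nv (.thr 8 59 (.thr 12 4 (.thr 51 38 (.thr 60 54 (.thr 40 20 (.thr 44 28 (.thr 36 32 (.dbl 24 48 56)))))))) (.nv (.thr 41 9 (.thr 40 43 (.thr 60 20 (.thr 51 54 (.thr 8 59 (.dbl 12 4 38)))))) (.rp 60 (.thr 41 9 (.thr 40 43 (.thr 8 59 (.thr 24 56 (.thr 12 4 (.thr 51 38 (.thr 48 36 (.thr 32 16 (.thr 37 47 (.dbl 49 13 50)))))))))) (.rp 51 (.thr 41 9 (.thr 40 43 (.thr 59 8 (.thr 56 58 (.thr 60 20 (.thr 48 52 (.thr 32 16 (.thr 3 22 (.thr 37 47 (.dbl 33 18 45)))))))))) (.rp 49 (.str 33 (.nv (.thr 8 59 (.thr 4 12 (.thr 41 9 (.thr 37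 45 (.thr 32 47 (.thr 35 34 (.dbl 38 44 55))))))) (.nv (.thr 8 59 (.thr 12 4 (.thr 51 38 (.thr 60 54 (.thr 20 40 (.thr 22 23 (.dbl 28 19 44))))))) (.nv (.thr 41 9 (.thr 37 45 (.thr 32 47 (.thr 35 34 (.thr 44 38 (.dbl 40 36 43)))))) (.nv (.thr 41 9 (.thr 40 43 (.thr 60 20 (.thr 8 59 (.thr 51 54 (.dbl 12 4 38)))))) (.rp 38 (.thr 41 9 (.thr 40 43 (.thr 59 8 (.thr 56 58 (.thr 60 20 (.thr 48 52 (.dbl 3 18 22))))))) .nd)))))) (.rp 33 (.str 49 (.nv (.thr 37 13 (.dbl 53 5 61)) (.rp 61 (.thr 9 41 (.thr 8 59 (.thr 37 13 (.thr 5 53 (.dbl 10 11 15))))) (.rp 53 (.thr 41 9 (.thr 40 43 (.thr 8 59 (.thr 60 20 (.thr 51 54 (.dbl 12 4 38)))))) (.rp 37 (.thr 41 9 (.thr 40 43 (.thr 8 59 (.thr 60 20 (.thr 51 54 (.dbl 12 4 38)))))) (.rp 13 (.thr 8 59 (.thr 12 4 (.thr 51 38 (.thr 60 54 (.thr 40 20 (.dbl 41 9 43))))))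 (.rp 9 (.thr 53 61 (.dbl 37 5 13)) (.rp 5 (.thr 8 59 (.thr 12 4 (.thr 51 38 (.thr 60 54 (.thr 40 20 (.dbl 41 9 43)))))) .nd)))))))) .nd))))))))))) (.rp 12 (.str 20 (.nv (.thr 22 23 (.thr 28 19 (.thr 40 60 (.thr 42 63 (.thr 8 59 (.dbl 24 16 56)))))) (.nv (.thr 22 23 (.thr 28 19 (.thr 24 16 (.thr 40 60 (.thr 8 56 (.dbl 42 59 63)))))) (.nv (.thr 17 29 (.thr 22 23 (.thr 51 34 (.thr 60 40 (.thr 57 54 (.dbl 41 3 9)))))) (.rp 63 (.thr 22 23 (.thr 19 28 (.thr 60 40 (.thr 3 41 (.thr 51 35 (.dbl 17 29 34)))))) (.rp 60 (.thr 17 29 (.thr 23 22 (.thr 51 34 (.thr 63 42 (.thr 55 59 (.thr 39 7 (.thr 27 15 (.thr 19 31 (.dbl 3 35 43))))))))) (.rp 40 (.thr 17 29 (.thr 22 23 (.thr 19 28 (.thr 18 16 (.thr 34 51 (.thr 2 50 (.dbl 42 62 63))))))) (.rp 23 (.thr 17 29 (.thr 60 40 (.thr 51 34 (.thr 54 57 (.thr 63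 42 (.thr 55 59 (.thr 52 53 (.dbl 4 36 38)))))))) (.rp 22 (.thr 17 29 (.thr 60 40 (.thr 51 34 (.thr 54 57 (.thr 63 42 (.thr 55 59 (.thr 52 53 (.dbl 4 36 38)))))))) .nd))))))))) (.rp 4 (.str 20 (.nv (.thr 17 29 (.thr 22 23 (.thr 19 28 (.thr 18 16 (.thr 34 51 (.thr 2 50 (.dbl 42 62 63))))))) (.nv (.thr 22 23 (.thr 28 19 (.thr 24 16 (.thr 40 60 (.thr 8 56 (.dbl 42 59 63)))))) (.nv (.thr 17 29 (.thr 22 23 (.thr 51 34 (.thr 60 40 (.thr 54 57 (.dbl 38 6 12)))))) (.rp 23 (.thr 17 29 (.thr 60 40 (.thr 51 34 (.thr 12 38 (.thr 28 44 (.thr 16 24 (.dbl 19 18 22))))))) (.rp 22 (.thr 29 17 (.thr 60 40 (.thr 63 42 (.thr 62 61 (.thr 46 12 (.thr 30 14 (.thr 31 28 (.dbl 15 45 47)))))))) (.rp 17 (.thr 22 23 (.thr 28 19 (.thr 40 60 (.thr 42 63 (.thr 8 59 (.dbl 24 16 56)))))) .nd))))))) .nd))))))))))))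

theorem w112 : WinAt (2097153, 67108866) :=
  chF (K := []) kn c112 2097153 67108866 26
    [] (by decide +kernel) (by decide +kernel)

/-- A certificate. -/
noncomputable def c113 : Ct := (.str 12 (.nv (.thr 8 4 (.thr 25 59 (.thr 51 38 (.dbl 17 29 34)))) (.nv (.thr 4 8 (.thr 38 55 (.thr 34 46 (.dbl 51 17 25)))) (.rp 59 (.thr 4 8 (.thr 38 55 (.thr 51 25 (.dbl 34 17 46)))) (.rp 51 (.thr 4 8 (.thr 55 38 (.str 32 (.nv (.thr 37 47 (.thr 53 5 (.thr 52 54 (.thr 20 36 (.dbl 22 7 23))))) (.nv (.thr 48 16 (.thr 36 24 (.thr 20 52 (.dbl 40 44 60)))) (.nv (.thr 37 47 (.thr 5 53 (.thr 48 16 (.dbl 15 10 26)))) (.rp 39 (.str 15 (.nv (.thr 37 47 (.dbl 5 10 53)) (.nv (.thr 48 16 (.dbl 37 26 47)) (.rp 47 (.thr 5 10 (.thr 37 53 (.dbl 48 16 26))) (.rp 37 (.str 36 (.nv (.thr 20 52 (.dbl 40 44 60)) (.nv (.dbl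 48 16 24) .nd))) .nd))))) (.rp 15 (.str 39 (.nv (.thr 48 16 (.thr 36 24 (.thr 20 52 (.dbl 40 44 60)))) (.nv (.thr 7 23 (.thr 5 6 (.dbl 37 47 53))) (.rp 47 (.str 31 (.nv (.dbl 16 26 48) (.rp 48 (.thr 23 7 (.thr 20 22 (.thr 40 60 (.dbl 36 44 52)))) (.rp 26 (.thr 48 16 (.thr 23 7 (.thr 20 22 (.dbl 36 24 52)))) (.rp 16 (.thr 23 7 (.thr 20 22 (.thr 40 60 (.dbl 36 44 52)))) .nd))))) (.rp 31 (.thr 47 37 (.thr 43 35 (.thr 40 41 (.thr 44 36 (.dbl 60 20 28))))) .nd))))) .nd)))))))) (.rp 38 (.str 15 (.nv (.thr 8 4 (.thr 10 5 (.thr 9 11 (.thr 6 3 (.dbl 14 2 13))))) (.nv (.thr 5 10 (.thr 37 53 (.thr 32 47 (.dbl 48 16 26)))) (.rp 10 (.thr 13 14 (.thr 8 4 (.thr 25 59 (.thr 37 49 (.thr 32 47 (.dbl 48 16 26)))))) (.rp 5 (.thr 13 14 (.thr 8 4 (.thr 25 59 (.thr 37 49 (.thr 32 47 (.dbl 48 16 26)))))) .nd)))))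 (.rp 34 (.str 15 (.nv (.thr 8 4 (.thr 10 5 (.thr 9 11 (.thr 6 3 (.dbl 14 2 13))))) (.nv (.thr 5 10 (.thr 37 53 (.thr 32 47 (.dbl 48 16 26)))) (.rp 10 (.thr 13 14 (.thr 8 4 (.thr 25 59 (.thr 37 49 (.thr 32 47 (.dbl 48 16 26)))))) (.rp 5 (.thr 13 14 (.thr 8 4 (.thr 25 59 (.thr 37 49 (.thr 32 47 (.dbl 48 16 26)))))) .nd))))) (.rp 25 (.str 26 (.nv (.thr 4 8 (.thr 16 31 (.thr 38 55 (.thr 14 50 (.thr 48 32 (.dbl 15 13 37)))))) (.nv (.thr 4 8 (.thr 10 58 (.thr 15 5 (.thr 38 55 (.dbl 14 13 50))))) (.nv (.thr 16 31 (.thr 10 58 (.thr 48 32 (.dbl 15 5 37)))) (.rp 48 (.thr 4 8 (.thr 38 55 (.thr 14 50 (.thr 15 13 (.dbl 10 5 58))))) (.rp 15 (.thr 4 8 (.thr 10 58 (.thr 38 55 (.thr 46 34 (.thr 14 50 (.thr 2 6 (.dbl 62 22 30))))))) .nd)))))) (.rp 17 (.thr 4 8 (.thr 55 38 (.str 20 (.nv (.thr 22 23 (.thr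 52 36 (.thr 37 7 (.dbl 53 5 54)))) (.nv (.thr 36 52 (.thr 24 48 (.thr 60 40 (.dbl 28 16 44)))) (.rp 53 (.thr 36 52 (.thr 48 24 (.thr 32 16 (.dbl 40 44 60)))) (.rp 52 (.thr 60 40 (.thr 22 23 (.thr 2 62 (.thr 3 41 (.thr 6 9 (.thr 10 14 (.dbl 5 7 15))))))) (.rp 49 (.str 33 (.nv (.thr 22 23 (.thr 52 36 (.thr 37 7 (.dbl 53 5 54)))) (.nv (.thr 36 52 (.thr 60 40 (.thr 28 44 (.dbl 24 16 48)))) (.rp 52 (.thr 22 23 (.thr 60 40 (.thr 3 41 (.thr 48 18 (.thr 16 32 (.dbl 28 24 44)))))) (.rp 36 (.thr 23 22 (.thr 40 60 (.thr 41 43 (.thr 7 39 (.thr 37 45 (.dbl 5 6 53)))))) .nd))))) (.rp 36 (.thr 60 40 (.thr 22 23 (.thr 2 62 (.thr 3 41 (.thr 6 9 (.thr 10 14 (.dbl 5 7 15))))))) (.rp 33 (.str 49 (.nv (.thr 22 23 (.thr 52 36 (.thr 37 7 (.dbl 53 5 54)))) (.nv (.thr 36 52 (.thr 60 40 (.thr 28 44 (.dbl 24 16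 48)))) (.rp 52 (.thr 60 40 (.thr 22 23 (.thr 3 41 (.thr 6 9 (.thr 5 7 (.thr 10 15 (.dbl 2 14 62))))))) (.rp 36 (.thr 60 40 (.thr 22 23 (.thr 3 41 (.thr 6 9 (.thr 5 7 (.thr 10 15 (.dbl 2 14 62))))))) .nd))))) .nd)))))))))) (.rp 8 (.str 32 (.nv (.thr 37 47 (.thr 48 16 (.thr 36 24 (.thr 38 39 (.thr 34 46 (.dbl 51 17 25)))))) (.nv (.thr 48 16 (.thr 37 47 (.thr 5 53 (.dbl 15 10 26)))) (.rp 48 (.thr 37 47 (.str 15 (.nv (.dbl 5 10 53) (.rp 58 (.thr 53 5 (.thr 13 14 (.thr 25 49 (.thr 17 29 (.dbl 51 34 38))))) (.rp 53 (.str 58 (.nv (.dbl 10 5 26) (.rp 26 (.thr 13 14 (.thr 25 49 (.thr 17 29 (.dbl 51 34 38)))) (.rp 10 (.thr 13 14 (.thr 25 49 (.thr 17 29 (.dbl 51 34 38)))) (.rp 5 (.thr 13 14 (.thr 25 49 (.thr 17 29 (.dbl 51 34 38)))) .nd))))) (.rp 10 (.thr 13 14 (.thr 25 49 (.thr 17 29 (.dbl 51 34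 38)))) (.rp 5 (.thr 13 14 (.thr 25 49 (.thr 17 29 (.dbl 51 34 38)))) .nd))))))) (.rp 47 (.thr 48 16 (.thr 36 24 (.thr 40 44 (.thr 20 60 (.thr 52 4 (.thr 22 23 (.thr 37 7 (.thr 5 53 (.dbl 15 10 26))))))))) (.rp 37 (.thr 48 16 (.thr 36 24 (.thr 40 44 (.thr 20 60 (.thr 4 52 (.thr 38 55 (.thr 34 46 (.dbl 51 17 25)))))))) (.rp 31 (.thr 48 16 (.thr 37 47 (.thr 15 26 (.dbl 5 10 53)))) (.rp 26 (.thr 37 47 (.thr 5 53 (.thr 15 10 (.thr 13 14 (.thr 25 49 (.thr 17 29 (.dbl 51 34 38))))))) (.rp 16 (.thr 37 47 (.thr 5 53 (.thr 15 10 (.thr 13 14 (.thr 25 49 (.thr 17 29 (.dbl 51 34 38))))))) (.rp 15 (.thr 48 16 (.thr 36 24 (.thr 40 44 (.thr 20 60 (.thr 52 4 (.thr 22 23 (.dbl 37 7 47))))))) .nd)))))))))) (.rp 4 (.str 16 (.nv (.thr 48 32 (.thr 26 31 (.thr 15 37 (.dbl 10 5 58)))) (.rp 58 (.thr 48 32 (.thr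 24 36 (.thr 20 28 (.thr 40 60 (.thr 56 8 (.thr 26 31 (.dbl 41 11 43))))))) (.rp 48 (.str 60 (.nv (.thr 28 44 (.dbl 20 24 40)) (.rp 58 (.str 53 (.nv (.thr 28 44 (.dbl 20 24 40)) (.rp 44 (.thr 20 40 (.thr 28 24 (.thr 5 37 (.thr 15 10 (.thr 30 45 (.dbl 31 26 29)))))) (.rp 40 (.thr 28 44 (.thr 5 37 (.thr 31 26 (.thr 15 10 (.dbl 30 29 45))))) (.rp 28 (.thr 20 40 (.thr 5 37 (.thr 26 31 (.thr 15 10 (.thr 30 45 (.dbl 22 18 23)))))) (.rp 24 (.thr 44 28 (.thr 40 20 (.thr 37 5 (.dbl 32 36 47)))) (.rp 20 (.thr 28 44 (.thr 5 37 (.thr 31 26 (.thr 15 10 (.dbl 30 29 45))))) .nd))))))) (.rp 53 (.str 58 (.nv (.thr 20 40 (.dbl 28 24 44)) (.nv (.dbl 26 10 31) .nd))) (.rp 44 (.thr 20 40 (.thr 28 24 (.thr 26 31 (.thr 22 23 (.thr 19 25 (.dbl 18 17 30)))))) (.rp 40 (.thr 28 44 (.thr 20 24 (.thr 26 31 (.thr 22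 23 (.thr 19 25 (.dbl 18 17 30)))))) (.rp 28 (.thr 20 40 (.thr 22 23 (.thr 2 62 (.thr 3 41 (.thr 6 9 (.thr 10 14 (.dbl 26 31 58))))))) (.rp 24 (.thr 28 44 (.thr 20 40 (.thr 26 31 (.thr 22 23 (.thr 19 25 (.dbl 18 17 30)))))) (.rp 20 (.thr 28 44 (.thr 31 26 (.thr 29 30 (.thr 25 17 (.thr 38 51 (.thr 22 19 (.thr 6 54 (.dbl 3 9 41)))))))) .nd))))))))) (.rp 37 (.thr 48 32 (.thr 24 36 (.thr 20 28 (.thr 40 60 (.thr 56 8 (.thr 26 31 (.dbl 41 11 43))))))) (.rp 32 (.thr 26 31 (.thr 10 58 (.thr 15 5 (.thr 48 37 (.thr 24 36 (.thr 20 28 (.thr 40 60 (.thr 56 8 (.dbl 41 11 43))))))))) (.rp 31 (.thr 48 32 (.thr 24 36 (.thr 20 28 (.thr 40 60 (.thr 8 56 (.thr 25 59 (.thr 51 38 (.dbl 17 29 34)))))))) (.rp 26 (.thr 48 32 (.thr 24 36 (.thr 20 28 (.thr 40 60 (.thr 8 56 (.thr 25 59 (.thr 17 29 (.dbl 51 34 38))))))))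 (.rp 23 (.thr 48 32 (.thr 24 36 (.thr 20 28 (.thr 40 60 (.thr 8 56 (.thr 25 59 (.thr 17 29 (.dbl 51 34 38)))))))) (.rp 19 (.thr 48 32 (.thr 24 36 (.thr 20 28 (.thr 40 60 (.thr 56 8 (.thr 41 43 (.dbl 26 11 31))))))) (.rp 15 (.thr 48 32 (.thr 24 36 (.thr 20 28 (.thr 40 60 (.thr 56 8 (.thr 41 43 (.dbl 26 11 31))))))) (.rp 10 (.thr 48 32 (.thr 24 36 (.thr 20 28 (.thr 40 60 (.thr 56 8 (.thr 26 31 (.dbl 41 11 43))))))) (.rp 5 (.thr 48 32 (.thr 24 36 (.thr 20 28 (.thr 40 60 (.thr 56 8 (.thr 26 31 (.dbl 41 11 43))))))) .nd))))))))))))) .nd)))))))))))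

theorem w113 : WinAt (4398048608257, 9223372036988993538) :=
  chF (K := []) kn c113 4398048608257 9223372036988993538 63
    [] (by decide +kernel) (by decide +kernel)

/-- A certificate. -/
noncomputable def c114 : Ct := (.str 12 (.nv (.thr 4 8 (.thr 38 55 (.thr 51 25 (.dbl 34 17 46)))) (.nv (.thr 8 4 (.thr 25 59 (.thr 51 38 (.dbl 17 29 34)))) (.rp 51 (.thr 8 4 (.str 10 (.nv (.thr 59 25 (.thr 11 9 (.thr 26 58 (.thr 41 56 (.dbl 43 27 40))))) (.nv (.thr 26 58 (.thr 16 31 (.thr 48 32 (.thr 24 36 (.dbl 25 27 59))))) (.nv (.thr 15 5 (.thr 14 13 (.thr 9 11 (.dbl 6 2 3)))) (.rp 59 (.str 55 (.nv (.thr 26 58 (.thr 16 31 (.thr 48 32 (.dbl 15 5 37)))) (.nv (.thr 15 5 (.thr 14 13 (.thr 9 11 (.dbl 6 2 3)))) (.rp 15 (.thr 26 58 (.thr 11 9 (.thr 56 41 (.thr 24 40 (.thr 48 36 (.dbl 16 31 32)))))) (.rp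 5 (.thr 26 58 (.thr 16 31 (.thr 48 32 (.thr 15 37 (.thr 14 13 (.thr 9 11 (.dbl 6 2 3))))))) .nd))))) .nd)))))) (.rp 38 (.str 15 (.nv (.thr 8 4 (.thr 10 5 (.thr 9 11 (.thr 6 3 (.dbl 14 2 13))))) (.nv (.thr 5 10 (.thr 37 53 (.thr 32 47 (.dbl 48 16 26)))) (.rp 10 (.thr 13 14 (.thr 8 4 (.thr 25 59 (.thr 37 49 (.thr 32 47 (.dbl 48 16 26)))))) (.rp 5 (.thr 13 14 (.thr 8 4 (.thr 25 59 (.thr 37 49 (.thr 32 47 (.dbl 48 16 26)))))) .nd))))) (.rp 34 (.str 15 (.nv (.thr 8 4 (.thr 10 5 (.thr 9 11 (.thr 6 3 (.dbl 14 2 13))))) (.nv (.thr 5 10 (.thr 37 53 (.thr 48 26 (.dbl 32 16 47)))) (.rp 10 (.thr 13 14 (.thr 8 4 (.thr 25 59 (.thr 37 49 (.thr 32 47 (.dbl 48 16 26)))))) (.rp 5 (.thr 13 14 (.thr 8 4 (.thr 25 59 (.thr 37 49 (.thr 32 47 (.dbl 48 16 26)))))) .nd))))) (.rp 25 (.thr 4 8 (.str 22 (.nv (.thr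 20 23 (.thr 36 52 (.thr 48 24 (.thr 32 16 (.dbl 40 44 60))))) (.nv (.thr 2 62 (.thr 38 55 (.thr 34 46 (.thr 50 18 (.thr 14 26 (.dbl 6 10 54)))))) (.nv (.thr 20 23 (.thr 52 36 (.thr 37 7 (.thr 55 38 (.dbl 53 5 54))))) .nd))))) (.rp 17 (.thr 8 4 (.thr 25 59 (.thr 51 38 (.str 49 (.nv (.thr 37 13 (.thr 32 47 (.dbl 48 16 50))) (.nv (.thr 48 50 (.thr 16 32 (.thr 26 31 (.dbl 24 27 36)))) (.nv (.thr 48 50 (.thr 37 13 (.thr 5 53 (.dbl 15 10 26)))) (.rp 50 (.thr 37 13 (.thr 5 53 (.thr 32 47 (.thr 48 16 (.dbl 15 10 26))))) (.rp 48 (.thr 13 37 (.thr 15 14 (.thr 10 5 (.thr 9 11 (.thr 57 41 (.thr 53 61 (.thr 26 58 (.dbl 27 24 39)))))))) (.rp 15 (.thr 37 13 (.thr 48 50 (.dbl 32 16 47))) .nd)))))))))) (.rp 8 (.str 26 (.nv (.thr 16 31 (.thr 48 32 (.thr 24 36 (.thr 25 27 (.thr 51 38 (.dbl 17 29 34))))))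 (.nv (.thr 10 58 (.thr 15 5 (.thr 48 37 (.dbl 16 31 32)))) (.rp 48 (.str 14 (.nv (.thr 38 50 (.thr 34 46 (.dbl 51 17 25))) (.nv (.thr 15 13 (.dbl 10 5 58)) (.rp 58 (.str 53 (.nv (.thr 38 50 (.thr 34 46 (.dbl 51 17 25))) (.nv (.thr 5 37 (.dbl 15 10 13)) .nd))) (.rp 53 (.thr 58 10 (.thr 38 50 (.thr 34 46 (.dbl 51 17 25)))) .nd))))) (.rp 37 (.thr 16 31 (.thr 10 58 (.thr 15 5 (.thr 48 32 (.thr 24 36 (.thr 25 27 (.thr 38 51 (.dbl 14 13 50)))))))) (.rp 32 (.thr 10 58 (.thr 15 5 (.thr 48 37 (.thr 24 36 (.thr 25 27 (.thr 17 29 (.dbl 51 34 38))))))) (.rp 31 (.thr 10 58 (.thr 15 5 (.thr 48 37 (.thr 24 36 (.thr 25 27 (.thr 38 51 (.dbl 14 13 50))))))) (.rp 16 (.thr 10 58 (.thr 15 5 (.thr 48 37 (.thr 24 36 (.thr 25 27 (.thr 17 29 (.dbl 51 34 38))))))) (.rp 15 (.thr 31 16 (.str 22 (.nv (.thr 20 23 (.thr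 2 62 (.thr 18 30 (.thr 34 50 (.thr 51 17 (.dbl 38 25 46)))))) (.nv (.thr 2 62 (.thr 20 23 (.thr 60 40 (.thr 3 41 (.thr 6 9 (.dbl 10 14 58)))))) (.nv (.thr 30 18 (.thr 62 2 (.thr 14 46 (.thr 50 38 (.dbl 58 10 54))))) (.rp 62 (.thr 20 23 (.thr 10 58 (.thr 60 40 (.thr 3 41 (.thr 6 9 (.thr 14 2 (.dbl 38 50 54))))))) (.rp 58 (.thr 20 23 (.thr 60 40 (.thr 3 41 (.thr 6 9 (.thr 38 54 (.thr 34 46 (.dbl 51 17 25))))))) (.rp 20 (.str 24 (.nv (.thr 2 62 (.thr 10 58 (.thr 14 6 (.thr 18 30 (.dbl 50 34 38))))) (.nv (.thr 25 27 (.thr 51 38 (.dbl 17 29 34))) (.rp 38 (.thr 25 27 (.thr 18 30 (.thr 17 29 (.thr 2 62 (.dbl 34 50 51))))) (.rp 34 (.thr 25 27 (.thr 2 62 (.thr 10 58 (.thr 14 6 (.dbl 38 50 51))))) .nd))))) (.rp 14 (.thr 20 23 (.thr 62 2 (.thr 60 40 (.thr 3 41 (.thr 6 9 (.thr 54 38 (.dbl 58 10 50)))))))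 (.rp 2 (.thr 20 23 (.thr 60 40 (.thr 3 41 (.thr 6 9 (.thr 38 54 (.thr 34 46 (.dbl 51 17 25))))))) .nd)))))))))) .nd))))))))) (.rp 4 (.str 26 (.nv (.thr 10 58 (.thr 15 5 (.thr 48 37 (.dbl 16 31 32)))) (.nv (.thr 16 31 (.thr 48 32 (.thr 24 36 (.thr 25 27 (.thr 51 38 (.dbl 17 29 34)))))) (.nv (.thr 16 31 (.thr 10 58 (.thr 48 32 (.dbl 15 5 37)))) (.rp 48 (.str 14 (.nv (.thr 38 50 (.thr 34 46 (.dbl 51 17 25))) (.nv (.thr 15 13 (.dbl 10 5 58)) (.rp 58 (.str 53 (.nv (.thr 38 50 (.thr 34 46 (.dbl 51 17 25))) (.nv (.thr 5 37 (.dbl 15 10 13)) .nd))) (.rp 53 (.thr 58 10 (.thr 38 50 (.thr 34 46 (.dbl 51 17 25)))) .nd))))) (.rp 37 (.thr 16 31 (.thr 10 58 (.thr 15 5 (.thr 48 32 (.thr 24 36 (.thr 25 27 (.thr 38 51 (.dbl 14 13 50)))))))) (.rp 32 (.thr 10 58 (.thr 15 5 (.thr 48 37 (.thr 24 36 (.thr 25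 27 (.thr 17 29 (.dbl 51 34 38))))))) (.rp 31 (.thr 10 58 (.thr 15 5 (.thr 48 37 (.thr 24 36 (.thr 25 27 (.thr 38 51 (.dbl 14 13 50))))))) (.rp 16 (.thr 10 58 (.thr 15 5 (.thr 48 37 (.thr 24 36 (.thr 25 27 (.thr 17 29 (.dbl 51 34 38))))))) (.rp 15 (.thr 31 16 (.str 25 (.nv (.thr 17 29 (.dbl 51 34 38)) (.rp 51 (.thr 59 8 (.thr 58 10 (.thr 56 57 (.thr 11 41 (.dbl 27 24 43))))) (.rp 38 (.thr 24 27 (.thr 8 59 (.thr 10 58 (.thr 11 9 (.dbl 56 40 41))))) (.rp 34 (.thr 24 27 (.thr 8 59 (.thr 10 58 (.thr 11 9 (.dbl 56 40 41))))) (.rp 29 (.thr 24 27 (.thr 8 59 (.thr 10 58 (.thr 11 9 (.dbl 56 40 41))))) (.rp 24 (.str 20 (.nv (.thr 17 29 (.dbl 51 34 38)) (.rp 51 (.thr 23 22 (.thr 27 19 (.thr 40 60 (.thr 59 8 (.dbl 43 11 41))))) (.rp 38 (.thr 23 22 (.thr 27 19 (.thr 40 60 (.thr 59 8 (.dbl 43 11 41)))))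 (.rp 34 (.thr 23 22 (.thr 27 19 (.thr 40 60 (.thr 59 8 (.dbl 43 11 41))))) (.rp 29 (.thr 23 22 (.thr 27 19 (.thr 40 60 (.thr 59 8 (.dbl 43 11 41))))) (.rp 17 (.thr 22 23 (.thr 18 30 (.thr 2 62 (.thr 38 51 (.dbl 34 46 50))))) .nd))))))) (.rp 20 (.thr 24 27 (.thr 17 29 (.dbl 51 34 38))) (.rp 17 (.thr 24 27 (.thr 8 59 (.thr 10 58 (.thr 11 9 (.dbl 56 40 41))))) .nd)))))))))) .nd)))))))))) .nd))))))))))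

theorem w114 : WinAt (4398048608257, 9223372037123211266) :=
  chF (K := []) kn c114 4398048608257 9223372037123211266 63
    [] (by decide +kernel) (by decide +kernel)

/-- A certificate. -/
noncomputable def c115 : Ct := (.str 53 (.nv (.thr 48 58 (.thr 16 32 (.thr 26 31 (.dbl 37 5 15)))) (.nv (.thr 37 5 (.thr 48 58 (.thr 26 15 (.dbl 16 31 32)))) (.rp 58 (.str 55 (.nv (.thr 4 38 (.thr 37 5 (.thr 52 54 (.thr 22 7 (.dbl 20 23 36))))) (.nv (.thr 4 38 (.thr 5 37 (.thr 7 6 (.thr 39 23 (.thr 51 59 (.dbl 15 10 27)))))) (.nv (.thr 38 4 (.thr 37 5 (.thr 39 36 (.thr 7 23 (.dbl 52 22 54))))) (.rp 54 (.thr 38 4 (.thr 37 5 (.thr 39 36 (.thr 51 59 (.thr 15 27 (.thr 31 47 (.dbl 26 16 48))))))) (.rp 38 (.thr 54 52 (.thr 37 5 (.thr 51 59 (.thr 57 60 (.thr 49 61 (.thr 48 50 (.thr 16 32 (.dbl 26 15 31))))))))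 (.rp 37 (.thr 54 52 (.thr 38 4 (.thr 22 6 (.thr 20 23 (.thr 60 40 (.dbl 51 57 59)))))) (.rp 36 (.thr 54 52 (.thr 37 5 (.thr 51 59 (.thr 57 60 (.thr 49 61 (.thr 48 50 (.thr 16 32 (.dbl 26 15 31)))))))) (.rp 26 (.str 10 (.nv (.dbl 5 15 37) (.rp 37 (.thr 51 59 (.thr 54 52 (.thr 38 4 (.thr 22 6 (.thr 20 23 (.dbl 60 40 57)))))) (.rp 15 (.thr 52 54 (.thr 4 38 (.thr 20 36 (.thr 22 23 (.dbl 37 5 7))))) (.rp 5 (.thr 51 59 (.thr 54 52 (.thr 57 60 (.thr 49 61 (.thr 34 17 (.thr 38 4 (.thr 6 22 (.thr 2 14 (.dbl 50 18 48))))))))) .nd))))) (.rp 23 (.thr 54 52 (.thr 38 4 (.thr 37 5 (.thr 51 59 (.thr 57 60 (.thr 49 61 (.dbl 25 12 13))))))) (.rp 22 (.thr 54 52 (.thr 38 4 (.thr 37 5 (.thr 51 59 (.thr 57 60 (.thr 49 61 (.dbl 25 12 13))))))) (.rp 10 (.str 26 (.nv (.thr 16 31 (.thr 38 4 (.thr 50 14 (.thr 51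 59 (.dbl 48 32 49))))) (.nv (.thr 4 38 (.thr 37 5 (.thr 52 54 (.thr 20 36 (.dbl 22 7 23))))) (.nv (.thr 31 16 (.thr 15 47 (.dbl 37 5 48))) .nd)))) (.rp 7 (.thr 54 52 (.thr 38 4 (.thr 22 6 (.thr 5 37 (.thr 20 23 (.thr 60 40 (.dbl 51 57 59))))))) (.rp 5 (.thr 52 54 (.thr 4 38 (.thr 20 36 (.thr 22 23 (.thr 37 7 (.thr 60 40 (.thr 48 56 (.thr 26 15 (.dbl 16 31 32))))))))) (.rp 4 (.thr 54 52 (.thr 37 5 (.thr 51 59 (.thr 57 60 (.thr 49 61 (.thr 48 50 (.thr 16 32 (.dbl 26 15 31)))))))) .nd))))))))))))))) (.rp 48 (.str 51 (.nv (.thr 55 59 (.thr 38 4 (.thr 54 52 (.thr 60 57 (.thr 20 40 (.dbl 22 6 23)))))) (.nv (.thr 5 37 (.thr 15 10 (.thr 39 27 (.thr 47 31 (.thr 43 35 (.thr 23 3 (.dbl 55 7 59))))))) (.nv (.thr 37 5 (.thr 55 59 (.thr 52 54 (.thr 22 7 (.thr 20 23 (.dbl 4 36 38)))))) (.rp 59 (.thr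 5 37 (.thr 15 10 (.thr 47 31 (.thr 39 27 (.thr 43 35 (.thr 23 3 (.thr 55 7 (.thr 54 52 (.thr 22 20 (.dbl 38 4 6)))))))))) (.rp 55 (.thr 5 37 (.thr 15 10 (.thr 47 31 (.thr 39 27 (.thr 43 35 (.thr 23 3 (.thr 20 22 (.thr 60 40 (.thr 57 54 (.dbl 61 49 62)))))))))) (.rp 23 (.thr 55 59 (.thr 54 52 (.thr 38 4 (.thr 22 6 (.thr 60 57 (.thr 3 41 (.thr 19 35 (.dbl 25 12 28)))))))) .nd))))))) (.rp 37 (.str 57 (.nv (.thr 61 49 (.thr 60 62 (.thr 20 40 (.thr 22 23 (.thr 54 51 (.thr 38 6 (.dbl 55 4 52))))))) (.nv (.thr 58 48 (.thr 59 56 (.thr 51 55 (.thr 60 54 (.dbl 61 49 62))))) (.rp 62 (.thr 49 61 (.thr 48 58 (.thr 51 50 (.thr 54 60 (.dbl 55 52 59))))) (.rp 61 (.thr 58 48 (.thr 59 56 (.thr 51 55 (.thr 60 54 (.thr 20 40 (.thr 23 22 (.thr 43 3 (.thr 27 11 (.thr 15 39 (.dbl 31 19 47)))))))))) (.rp 60 (.thr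 49 61 (.thr 48 58 (.thr 32 16 (.thr 51 50 (.thr 55 59 (.thr 34 17 (.thr 35 33 (.thr 38 4 (.thr 41 44 (.dbl 25 9 12)))))))))) (.rp 55 (.thr 61 49 (.thr 48 58 (.thr 32 16 (.thr 60 62 (.thr 56 52 (.thr 40 20 (.thr 36 44 (.dbl 24 8 12)))))))) (.rp 54 (.thr 61 49 (.thr 60 62 (.thr 20 40 (.thr 22 23 (.thr 41 3 (.thr 25 9 (.thr 28 19 (.thr 16 24 (.dbl 48 32 58))))))))) (.rp 52 (.thr 61 49 (.thr 58 48 (.thr 59 56 (.thr 60 62 (.dbl 51 54 55))))) (.rp 51 (.thr 61 49 (.thr 48 58 (.thr 60 62 (.thr 52 56 (.thr 20 40 (.thr 4 36 (.dbl 55 38 54))))))) (.rp 49 (.thr 58 48 (.thr 59 56 (.thr 51 55 (.thr 60 54 (.thr 20 40 (.thr 23 22 (.thr 43 3 (.thr 27 11 (.thr 15 39 (.dbl 31 19 47)))))))))) (.rp 48 (.thr 61 49 (.thr 60 62 (.thr 20 40 (.thr 51 54 (.thr 55 59 (.thr 38 4 (.thr 25 12 (.thr 41 9 (.dbl 22 3 23)))))))))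 (.rp 47 (.str 32 (.nv (.dbl 48 16 58) (.rp 58 (.thr 61 49 (.thr 48 16 (.thr 60 62 (.thr 52 56 (.dbl 54 51 55))))) (.rp 48 (.thr 61 49 (.thr 60 62 (.thr 40 20 (.thr 44 36 (.thr 12 28 (.thr 4 8 (.thr 38 55 (.dbl 51 25 54)))))))) (.rp 16 (.thr 61 49 (.thr 48 58 (.thr 60 62 (.thr 52 56 (.dbl 54 51 55))))) .nd))))) (.rp 32 (.str 47 (.nv (.thr 61 49 (.thr 60 62 (.thr 51 54 (.thr 59 55 (.dbl 58 48 56))))) (.nv (.thr 49 61 (.thr 48 58 (.thr 51 50 (.thr 54 60 (.dbl 55 52 59))))) (.nv (.thr 58 48 (.thr 59 56 (.thr 51 55 (.thr 60 54 (.dbl 61 49 62))))) (.rp 61 (.thr 31 15 (.thr 58 48 (.thr 26 16 (.thr 59 56 (.thr 55 51 (.thr 38 4 (.thr 50 14 (.dbl 54 52 62)))))))) (.rp 60 (.thr 49 61 (.thr 15 31 (.thr 48 58 (.thr 51 50 (.thr 55 59 (.thr 39 27 (.thr 43 35 (.dbl 23 3 7)))))))) (.rp 59 (.thr 61 49 (.thr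 48 58 (.thr 60 62 (.thr 52 56 (.dbl 54 51 55))))) (.rp 58 (.thr 61 49 (.thr 60 62 (.thr 20 40 (.thr 54 51 (.thr 55 52 (.thr 38 4 (.dbl 22 6 23))))))) (.rp 55 (.thr 61 49 (.thr 15 31 (.thr 60 62 (.thr 20 40 (.thr 51 54 (.thr 39 27 (.thr 43 35 (.dbl 23 3 22)))))))) (.rp 54 (.thr 61 49 (.thr 31 15 (.thr 58 48 (.thr 26 16 (.thr 56 59 (.thr 60 62 (.thr 20 40 (.thr 41 11 (.dbl 22 3 23))))))))) (.rp 51 (.thr 61 49 (.thr 31 15 (.thr 48 58 (.thr 60 62 (.thr 56 52 (.thr 20 40 (.thr 26 16 (.thr 41 11 (.dbl 22 3 23))))))))) (.rp 49 (.thr 15 31 (.thr 58 48 (.thr 59 56 (.thr 51 55 (.thr 39 27 (.thr 43 35 (.thr 23 3 (.thr 60 54 (.dbl 20 22 40))))))))) (.rp 48 (.thr 61 49 (.thr 15 31 (.thr 60 62 (.thr 20 40 (.thr 51 54 (.thr 55 59 (.thr 39 27 (.dbl 23 7 22)))))))) .nd))))))))))))) .nd)))))))))))))) (.rp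 32 (.str 57 (.nv (.thr 37 5 (.thr 48 58 (.thr 49 61 (.thr 51 50 (.thr 55 59 (.thr 38 4 (.dbl 25 12 13))))))) (.nv (.thr 37 5 (.thr 48 58 (.thr 61 49 (.thr 60 62 (.thr 20 40 (.thr 22 23 (.dbl 52 7 56))))))) (.nv (.thr 37 5 (.thr 61 49 (.thr 60 62 (.thr 20 40 (.thr 22 23 (.thr 52 7 (.dbl 54 51 55))))))) (.nv (.thr 58 48 (.thr 59 56 (.thr 51 55 (.thr 60 54 (.dbl 61 49 62))))) (.rp 62 (.thr 49 61 (.thr 48 58 (.thr 51 50 (.thr 54 60 (.dbl 55 52 59))))) (.rp 61 (.thr 37 5 (.thr 58 48 (.thr 59 56 (.thr 55 51 (.thr 4 38 (.thr 52 54 (.thr 20 36 (.dbl 22 7 23)))))))) (.rp 54 (.thr 61 49 (.thr 37 5 (.thr 60 62 (.thr 20 40 (.thr 22 23 (.thr 52 7 (.dbl 48 56 58))))))) (.rp 49 (.thr 58 48 (.thr 59 56 (.thr 51 55 (.thr 60 54 (.thr 20 40 (.thr 23 22 (.thr 43 3 (.thr 27 11 (.thr 15 39 (.dbl 5 10 37))))))))))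 (.rp 37 (.str 47 (.nv (.thr 61 49 (.thr 60 62 (.thr 51 54 (.thr 59 55 (.dbl 58 48 56))))) (.nv (.thr 49 61 (.thr 48 58 (.thr 51 50 (.thr 54 60 (.dbl 55 52 59))))) (.nv (.thr 58 48 (.thr 59 56 (.thr 51 55 (.thr 60 54 (.dbl 61 49 62))))) (.rp 61 (.thr 31 15 (.thr 58 48 (.thr 26 16 (.thr 59 56 (.thr 55 51 (.thr 38 4 (.thr 50 14 (.dbl 54 52 62)))))))) (.rp 60 (.thr 49 61 (.thr 15 31 (.thr 48 58 (.thr 51 50 (.thr 55 59 (.thr 39 27 (.thr 43 35 (.dbl 23 3 7)))))))) (.rp 59 (.thr 61 49 (.thr 48 58 (.thr 60 62 (.thr 52 56 (.dbl 54 51 55))))) (.rp 58 (.thr 61 49 (.thr 60 62 (.thr 20 40 (.thr 54 51 (.thr 55 52 (.thr 38 4 (.dbl 22 6 23))))))) (.rp 55 (.thr 61 49 (.thr 15 31 (.thr 60 62 (.thr 20 40 (.thr 51 54 (.thr 39 27 (.thr 43 35 (.dbl 23 3 22)))))))) (.rp 54 (.thr 61 49 (.thr 31 15 (.thr 58 48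 (.thr 26 16 (.thr 56 59 (.thr 60 62 (.thr 20 40 (.thr 41 11 (.dbl 22 3 23))))))))) (.rp 51 (.thr 61 49 (.thr 31 15 (.thr 48 58 (.thr 60 62 (.thr 56 52 (.thr 20 40 (.thr 26 16 (.thr 41 11 (.dbl 22 3 23))))))))) (.rp 49 (.thr 15 31 (.thr 58 48 (.thr 59 56 (.thr 51 55 (.thr 39 27 (.thr 43 35 (.thr 23 3 (.thr 60 54 (.dbl 20 22 40))))))))) (.rp 48 (.thr 61 49 (.thr 15 31 (.thr 60 62 (.thr 20 40 (.thr 51 54 (.thr 55 59 (.thr 39 27 (.dbl 23 7 22)))))))) .nd))))))))))))) .nd)))))))))) (.rp 31 (.str 57 (.nv (.thr 37 5 (.thr 48 58 (.thr 49 61 (.thr 51 50 (.thr 55 59 (.thr 38 4 (.dbl 25 12 13))))))) (.nv (.thr 37 5 (.thr 48 58 (.thr 61 49 (.thr 60 62 (.thr 20 40 (.thr 22 23 (.dbl 52 7 56))))))) (.nv (.thr 58 48 (.thr 59 56 (.thr 51 55 (.thr 60 54 (.dbl 61 49 62))))) (.rp 62 (.thr 49 61 (.thr 48 58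 (.thr 51 50 (.thr 54 60 (.dbl 55 52 59))))) (.rp 61 (.thr 37 5 (.thr 58 48 (.thr 59 56 (.thr 55 51 (.thr 4 38 (.thr 52 54 (.thr 20 36 (.dbl 22 7 23)))))))) (.rp 58 (.thr 61 49 (.thr 37 5 (.thr 60 62 (.thr 20 40 (.thr 54 51 (.thr 52 55 (.dbl 22 7 23))))))) (.rp 54 (.thr 61 49 (.thr 37 5 (.thr 60 62 (.thr 20 40 (.thr 22 23 (.thr 52 7 (.dbl 48 56 58))))))) (.rp 49 (.thr 5 37 (.thr 58 48 (.thr 59 56 (.thr 51 55 (.thr 60 54 (.thr 20 40 (.thr 15 10 (.thr 27 39 (.thr 43 11 (.dbl 23 3 22)))))))))) (.rp 48 (.thr 61 49 (.thr 37 5 (.thr 60 62 (.thr 20 40 (.thr 22 23 (.thr 52 7 (.dbl 54 51 55))))))) (.rp 30 (.str 28 (.nv (.thr 48 58 (.thr 16 32 (.thr 20 24 (.thr 60 40 (.thr 54 51 (.dbl 52 55 56)))))) (.nv (.thr 5 37 (.thr 61 49 (.thr 60 62 (.thr 20 40 (.thr 22 23 (.thr 41 3 (.dbl 25 9 19))))))) (.nv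 (.thr 58 48 (.thr 59 56 (.thr 51 55 (.thr 60 54 (.dbl 61 49 62))))) (.rp 60 (.thr 49 61 (.thr 37 5 (.thr 48 58 (.thr 16 32 (.thr 20 24 (.thr 22 23 (.dbl 25 13 19))))))) .nd))))) (.rp 28 (.str 30 (.nv (.thr 5 37 (.thr 15 10 (.thr 58 48 (.thr 59 56 (.thr 51 55 (.dbl 60 45 54)))))) (.nv (.thr 5 37 (.thr 61 49 (.thr 60 62 (.dbl 15 10 45)))) (.nv (.thr 58 48 (.thr 59 56 (.thr 51 55 (.thr 60 54 (.dbl 61 49 62))))) (.rp 60 (.thr 48 58 (.thr 49 61 (.thr 51 50 (.thr 55 59 (.thr 38 4 (.thr 37 5 (.dbl 25 12 13))))))) .nd))))) .nd)))))))))))) (.rp 26 (.str 57 (.nv (.thr 61 49 (.thr 60 62 (.thr 51 54 (.thr 59 55 (.dbl 58 48 56))))) (.nv (.thr 5 37 (.thr 10 15 (.thr 48 58 (.thr 49 61 (.thr 51 50 (.thr 54 60 (.dbl 55 52 59))))))) (.nv (.thr 37 5 (.thr 61 49 (.thr 60 62 (.thr 20 40 (.thr 22 23 (.thr 52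 7 (.dbl 48 56 58))))))) (.nv (.thr 58 48 (.thr 59 56 (.thr 51 55 (.thr 60 54 (.dbl 61 49 62))))) (.rp 61 (.thr 37 5 (.thr 58 48 (.thr 59 56 (.thr 55 51 (.thr 4 38 (.thr 52 54 (.thr 20 36 (.dbl 22 7 23)))))))) (.rp 60 (.thr 49 61 (.thr 5 37 (.thr 48 58 (.thr 10 15 (.thr 32 16 (.thr 51 50 (.thr 55 59 (.thr 34 17 (.thr 35 33 (.thr 38 4 (.thr 41 44 (.dbl 25 9 12)))))))))))) (.rp 58 (.str 10 (.nv (.dbl 5 15 37) (.rp 37 (.thr 61 49 (.thr 60 62 (.thr 54 51 (.thr 55 52 (.thr 20 40 (.thr 22 23 (.dbl 38 4 6))))))) (.rp 15 (.thr 61 49 (.thr 60 62 (.thr 54 51 (.thr 52 55 (.thr 20 40 (.thr 22 23 (.dbl 37 5 7))))))) (.rp 5 (.thr 61 49 (.thr 60 62 (.thr 54 51 (.thr 55 52 (.thr 20 40 (.thr 22 23 (.dbl 38 4 6))))))) .nd))))) (.rp 55 (.thr 61 49 (.thr 60 62 (.thr 20 40 (.thr 51 54 (.thr 22 23 (.thr 41 3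 (.thr 25 9 (.thr 12 38 (.dbl 28 19 44))))))))) (.rp 49 (.thr 5 37 (.thr 58 48 (.thr 15 10 (.thr 59 56 (.thr 51 55 (.thr 27 39 (.thr 60 54 (.thr 20 40 (.thr 23 22 (.dbl 43 3 11)))))))))) (.rp 48 (.thr 61 49 (.thr 37 5 (.thr 60 62 (.thr 20 40 (.thr 22 23 (.thr 52 7 (.dbl 54 51 55))))))) .nd))))))))))) (.rp 16 (.str 57 (.nv (.thr 37 5 (.thr 48 58 (.thr 49 61 (.thr 51 50 (.thr 55 59 (.thr 38 4 (.dbl 25 12 13))))))) (.nv (.thr 37 5 (.thr 48 58 (.thr 61 49 (.thr 60 62 (.thr 20 40 (.thr 22 23 (.dbl 52 7 56))))))) (.nv (.thr 58 48 (.thr 59 56 (.thr 51 55 (.thr 60 54 (.dbl 61 49 62))))) (.rp 62 (.thr 49 61 (.thr 48 58 (.thr 51 50 (.thr 54 60 (.dbl 55 52 59))))) (.rp 61 (.thr 37 5 (.thr 58 48 (.thr 59 56 (.thr 55 51 (.thr 4 38 (.thr 52 54 (.thr 20 36 (.dbl 22 7 23)))))))) (.rp 58 (.thr 61 49 (.thr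 37 5 (.thr 60 62 (.thr 20 40 (.thr 54 51 (.thr 52 55 (.dbl 22 7 23))))))) (.rp 54 (.thr 61 49 (.thr 37 5 (.thr 60 62 (.thr 20 40 (.thr 22 23 (.thr 52 7 (.dbl 48 56 58))))))) (.rp 49 (.thr 5 37 (.thr 58 48 (.thr 59 56 (.thr 51 55 (.thr 15 10 (.thr 27 39 (.thr 43 11 (.thr 23 3 (.dbl 31 19 47))))))))) (.rp 48 (.thr 61 49 (.thr 37 5 (.thr 60 62 (.thr 20 40 (.thr 22 23 (.thr 52 7 (.dbl 54 51 55))))))) .nd)))))))))) (.rp 15 (.str 57 (.nv (.thr 37 5 (.thr 48 58 (.thr 49 61 (.thr 51 50 (.thr 55 59 (.thr 38 4 (.dbl 25 12 13))))))) (.nv (.thr 49 61 (.thr 48 58 (.thr 51 50 (.thr 54 60 (.dbl 55 52 59))))) (.nv (.thr 37 5 (.thr 48 58 (.thr 61 49 (.thr 60 62 (.thr 20 40 (.thr 22 23 (.dbl 52 7 56))))))) (.nv (.thr 37 5 (.thr 61 49 (.thr 60 62 (.thr 20 40 (.thr 22 23 (.thr 52 7 (.dbl 54 51 55))))))) (.nv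 (.thr 58 48 (.thr 59 56 (.thr 51 55 (.thr 60 54 (.dbl 61 49 62))))) (.rp 61 (.thr 37 5 (.thr 58 48 (.thr 59 56 (.thr 55 51 (.thr 4 38 (.thr 52 54 (.thr 20 36 (.dbl 22 7 23)))))))) (.rp 54 (.thr 61 49 (.thr 37 5 (.thr 60 62 (.thr 20 40 (.thr 22 23 (.thr 52 7 (.dbl 48 56 58))))))) (.rp 49 (.thr 58 48 (.thr 59 56 (.thr 51 55 (.thr 60 54 (.thr 20 40 (.thr 22 23 (.thr 41 3 (.thr 25 9 (.thr 12 38 (.dbl 28 19 44)))))))))) .nd))))))))) (.rp 5 (.str 57 (.nv (.thr 48 58 (.thr 61 49 (.thr 60 62 (.thr 20 40 (.thr 52 56 (.thr 4 36 (.dbl 55 38 54))))))) (.nv (.thr 49 61 (.thr 48 58 (.thr 51 50 (.thr 54 60 (.dbl 55 52 59))))) (.nv (.thr 58 48 (.thr 59 56 (.thr 51 55 (.thr 60 54 (.dbl 61 49 62))))) (.rp 61 (.thr 58 48 (.thr 59 56 (.thr 51 55 (.thr 60 54 (.thr 20 40 (.thr 23 22 (.thr 43 3 (.thr 27 11 (.thr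 15 39 (.dbl 31 19 47)))))))))) (.rp 60 (.thr 49 61 (.thr 48 58 (.thr 16 32 (.thr 51 50 (.thr 55 59 (.thr 38 4 (.thr 25 12 (.thr 26 31 (.dbl 37 13 15))))))))) (.rp 58 (.thr 61 49 (.thr 60 62 (.thr 20 40 (.thr 54 51 (.thr 55 52 (.thr 38 4 (.dbl 22 6 23))))))) (.rp 55 (.thr 61 49 (.thr 48 58 (.thr 32 16 (.thr 60 62 (.thr 56 52 (.thr 40 20 (.thr 36 44 (.dbl 24 8 12)))))))) (.rp 54 (.thr 49 61 (.thr 48 58 (.thr 16 32 (.thr 50 51 (.thr 26 31 (.thr 37 15 (.thr 38 14 (.thr 4 55 (.thr 12 8 (.dbl 36 24 39)))))))))) (.rp 52 (.thr 61 49 (.thr 58 48 (.thr 59 56 (.thr 60 62 (.dbl 51 54 55))))) (.rp 49 (.thr 58 48 (.thr 59 56 (.thr 51 55 (.thr 60 54 (.thr 20 40 (.thr 23 22 (.thr 43 3 (.thr 27 11 (.thr 15 39 (.dbl 31 19 47)))))))))) (.rp 48 (.thr 61 49 (.thr 60 62 (.thr 20 40 (.thr 51 54 (.thr 55 59 (.thr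 38 4 (.thr 25 12 (.thr 22 23 (.dbl 41 3 9))))))))) (.rp 13 (.str 9 (.nv (.thr 61 49 (.thr 60 62 (.thr 20 40 (.thr 22 23 (.dbl 41 3 25))))) (.nv (.thr 58 48 (.thr 59 56 (.thr 51 55 (.thr 60 54 (.dbl 61 49 62))))) (.rp 62 (.thr 41 25 (.thr 58 48 (.thr 59 56 (.thr 51 55 (.thr 60 54 (.thr 20 40 (.dbl 22 3 23))))))) (.rp 61 (.str 45 (.nv (.thr 48 58 (.thr 16 32 (.thr 26 31 (.thr 37 15 (.dbl 41 25 33))))) (.nv (.thr 58 48 (.thr 59 56 (.thr 51 55 (.thr 60 54 (.thr 20 40 (.thr 22 23 (.dbl 41 3 25))))))) (.nv (.thr 41 25 (.thr 37 33 (.thr 48 58 (.thr 26 15 (.dbl 16 31 32))))) (.rp 58 (.str 26 (.nv (.thr 41 25 (.thr 11 56 (.thr 37 33 (.thr 15 48 (.thr 3 7 (.dbl 60 22 30)))))) (.nv (.thr 31 16 (.thr 15 47 (.thr 60 30 (.thr 54 51 (.thr 52 55 (.dbl 48 37 56)))))) (.nv (.thr 31 16 (.thr 15 47 (.thr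 37 48 (.dbl 41 25 33)))) (.rp 48 (.thr 25 41 (.thr 27 24 (.thr 31 16 (.thr 15 47 (.thr 51 39 (.dbl 60 30 54)))))) (.rp 37 (.thr 25 41 (.thr 27 24 (.thr 31 16 (.thr 23 19 (.thr 43 3 (.thr 59 11 (.thr 51 55 (.dbl 15 39 47)))))))) (.rp 15 (.thr 25 41 (.thr 24 27 (.thr 16 31 (.thr 48 32 (.thr 12 36 (.thr 4 8 (.dbl 38 51 55))))))) .nd))))))) (.rp 48 (.str 60 (.nv (.thr 51 54 (.thr 55 59 (.thr 38 4 (.dbl 25 12 41)))) (.nv (.thr 20 40 (.thr 22 23 (.dbl 41 3 25))) (.rp 41 (.thr 51 54 (.thr 55 59 (.thr 15 30 (.thr 39 27 (.thr 23 7 (.dbl 20 22 40)))))) (.rp 25 (.thr 20 40 (.thr 54 51 (.thr 55 52 (.thr 38 4 (.dbl 22 6 23))))) .nd))))) (.rp 41 (.thr 58 48 (.thr 59 56 (.thr 51 55 (.thr 60 54 (.thr 15 30 (.thr 27 39 (.thr 31 47 (.thr 23 19 (.dbl 20 22 40))))))))) (.rp 25 (.thr 48 58 (.thr 16 32 (.thr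 26 31 (.thr 37 15 (.thr 41 33 (.thr 56 11 (.thr 60 52 (.thr 20 40 (.dbl 22 3 23))))))))) .nd)))))))) (.rp 60 (.thr 25 41 (.thr 48 58 (.thr 16 32 (.thr 26 31 (.thr 24 27 (.thr 12 36 (.thr 4 8 (.dbl 38 51 55)))))))) (.rp 49 (.thr 58 48 (.thr 59 56 (.thr 51 55 (.thr 60 54 (.thr 20 40 (.thr 22 23 (.dbl 41 3 25))))))) .nd))))))) (.rp 9 (.str 13 (.nv (.thr 48 58 (.thr 16 32 (.thr 26 31 (.thr 37 15 (.dbl 49 25 61))))) (.nv (.thr 58 48 (.thr 59 56 (.thr 51 55 (.thr 60 54 (.dbl 61 49 62))))) (.rp 61 (.thr 48 58 (.thr 16 32 (.thr 26 31 (.thr 37 15 (.thr 49 25 (.thr 51 50 (.thr 54 60 (.dbl 55 52 59)))))))) (.rp 58 (.thr 61 49 (.thr 60 62 (.thr 20 40 (.thr 54 51 (.thr 55 52 (.thr 38 4 (.dbl 22 6 23))))))) (.rp 49 (.thr 58 48 (.thr 59 56 (.thr 51 55 (.thr 60 54 (.thr 20 40 (.thr 23 22 (.thr 43 3 (.thr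 27 11 (.thr 15 39 (.dbl 31 19 47)))))))))) (.rp 48 (.thr 61 49 (.thr 60 62 (.thr 20 40 (.thr 51 54 (.thr 55 59 (.thr 38 4 (.thr 25 12 (.thr 22 23 (.thr 19 28 (.dbl 3 35 41)))))))))) .nd))))))) .nd)))))))))))))) .nd))))))))))))

theorem w115 : WinAt (9223372036856872961, 4398583382018) :=
  chF (K := []) kn c115 9223372036856872961 4398583382018 42
    [] (by decide +kernel) (by decide +kernel)

/-- A certificate. -/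
noncomputable def c116 : Ct := (.str 48 (.nv (.thr 16 32 (.thr 26 31 (.thr 15 37 (.dbl 10 5 58)))) (.nv (.thr 32 16 (.thr 37 47 (.thr 5 53 (.dbl 15 10 26)))) (.rp 37 (.str 60 (.nv (.thr 16 32 (.thr 26 31 (.thr 40 20 (.thr 41 43 (.dbl 56 11 52))))) (.nv (.thr 16 32 (.thr 52 56 (.thr 20 40 (.thr 36 4 (.dbl 24 12 28))))) (.rp 56 (.thr 40 20 (.thr 32 16 (.thr 44 36 (.thr 41 43 (.thr 38 35 (.thr 4 55 (.dbl 12 8 28))))))) (.rp 52 (.thr 20 40 (.thr 16 32 (.thr 28 24 (.thr 22 23 (.thr 25 19 (.thr 8 59 (.dbl 12 4 44))))))) (.rp 40 (.thr 56 52 (.thr 16 32 (.thr 26 31 (.thr 58 10 (.thr 59 57 (.thr 25 8 (.thr 27 24 (.dbl 11 41 43)))))))) (.rp 32 (.thr 56 52 (.thr 40 20 (.thr 8 24 (.thr 25 59 (.thr 17 29 (.thr 51 34 (.dbl 12 4 38))))))) (.rp 28 (.thr 56 52 (.thr 40 20 (.thr 24 8 (.thr 36 12 (.dbl 32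 16 44))))) (.rp 20 (.thr 56 52 (.thr 16 32 (.thr 26 31 (.thr 58 10 (.thr 59 57 (.thr 8 25 (.thr 40 24 (.dbl 41 11 43)))))))) (.rp 16 (.thr 56 52 (.thr 40 20 (.thr 41 43 (.thr 26 11 (.thr 58 10 (.thr 59 57 (.dbl 8 24 25))))))) .nd)))))))))) (.rp 32 (.str 12 (.nv (.thr 4 8 (.thr 36 24 (.thr 38 55 (.thr 37 39 (.thr 5 53 (.dbl 15 10 26)))))) (.nv (.thr 8 4 (.thr 25 59 (.thr 51 38 (.dbl 17 29 34)))) (.rp 59 (.thr 4 8 (.thr 38 55 (.thr 51 25 (.dbl 34 17 46)))) (.rp 51 (.thr 24 36 (.thr 8 4 (.thr 40 56 (.thr 20 60 (.thr 28 16 (.thr 22 23 (.dbl 25 19 59))))))) (.rp 38 (.thr 24 36 (.thr 8 4 (.thr 25 59 (.thr 26 27 (.thr 10 58 (.dbl 15 5 37)))))) (.rp 8 (.str 25 (.nv (.thr 24 36 (.thr 26 27 (.thr 10 58 (.dbl 15 5 37)))) (.nv (.thr 51 38 (.dbl 17 29 34)) .nd))) (.rp 4 (.str 25 (.nv (.thr 24 36 (.thr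 26 27 (.thr 10 58 (.dbl 15 5 37)))) (.nv (.thr 51 38 (.dbl 17 29 34)) .nd))) .nd)))))))) (.rp 31 (.thr 32 16 (.thr 37 47 (.thr 15 26 (.dbl 5 10 53)))) (.rp 26 (.str 22 (.nv (.thr 2 62 (.thr 32 16 (.thr 37 47 (.thr 5 53 (.thr 7 52 (.thr 6 4 (.dbl 10 14 15))))))) (.nv (.thr 16 32 (.thr 20 23 (.thr 28 24 (.thr 25 19 (.thr 8 59 (.thr 12 4 (.dbl 60 40 44))))))) (.nv (.thr 20 23 (.thr 60 40 (.thr 32 16 (.thr 37 47 (.dbl 52 7 56))))) (.rp 60 (.thr 32 16 (.thr 20 23 (.thr 37 47 (.thr 53 5 (.thr 52 7 (.thr 4 36 (.dbl 55 38 54))))))) (.rp 32 (.thr 20 23 (.thr 60 40 (.thr 52 56 (.thr 37 7 (.thr 53 5 (.thr 55 54 (.dbl 4 36 38))))))) (.rp 31 (.thr 32 16 (.thr 20 23 (.thr 60 40 (.thr 52 56 (.dbl 37 7 47))))) (.rp 20 (.thr 32 16 (.thr 37 47 (.thr 5 53 (.thr 15 10 (.thr 7 52 (.thr 3 11 (.thr 41 60 (.dbl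 33 18 45)))))))) (.rp 16 (.thr 20 23 (.thr 60 40 (.thr 52 56 (.thr 4 36 (.thr 38 55 (.thr 6 54 (.dbl 7 5 37))))))) .nd))))))))) (.rp 16 (.str 4 (.nv (.thr 12 8 (.thr 36 24 (.thr 38 55 (.thr 37 39 (.thr 5 53 (.dbl 15 10 26)))))) (.nv (.thr 12 8 (.thr 38 55 (.thr 51 25 (.dbl 34 17 46)))) (.rp 55 (.thr 12 8 (.thr 36 24 (.thr 20 52 (.thr 40 60 (.thr 32 44 (.thr 37 47 (.thr 15 26 (.dbl 5 10 53)))))))) (.rp 51 (.thr 12 8 (.thr 36 24 (.thr 20 52 (.thr 40 60 (.thr 44 32 (.thr 41 43 (.dbl 38 35 55))))))) (.rp 38 (.thr 12 8 (.thr 36 24 (.thr 20 52 (.thr 40 60 (.thr 32 44 (.thr 37 47 (.thr 5 53 (.dbl 15 10 26)))))))) (.rp 12 (.thr 38 55 (.thr 46 34 (.str 20 (.nv (.thr 22 23 (.thr 6 54 (.thr 7 5 (.dbl 52 36 37)))) (.nv (.thr 52 36 (.dbl 60 40 56)) (.rp 59 (.str 51 (.nv (.thr 22 23 (.thr 50 49 (.thr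 54 6 (.dbl 62 2 58)))) (.nv (.thr 52 36 (.dbl 60 40 56)) .nd))) (.rp 52 (.thr 40 60 (.thr 41 43 (.thr 44 35 (.thr 32 36 (.dbl 47 37 45))))) (.rp 51 (.str 59 (.nv (.thr 22 23 (.thr 52 36 (.thr 7 37 (.dbl 6 5 54)))) (.nv (.thr 52 36 (.dbl 60 40 56)) (.rp 52 (.thr 40 60 (.thr 41 43 (.thr 44 35 (.thr 32 36 (.dbl 47 37 45))))) (.rp 36 (.thr 60 40 (.thr 52 56 (.thr 22 23 (.thr 6 54 (.dbl 7 5 37))))) .nd))))) (.rp 36 (.thr 60 40 (.thr 52 56 (.thr 22 23 (.thr 6 54 (.dbl 7 5 37))))) .nd))))))))) (.rp 8 (.thr 38 55 (.thr 34 46 (.thr 51 17 (.thr 12 25 (.thr 36 24 (.thr 37 39 (.thr 5 53 (.dbl 15 10 26)))))))) .nd)))))))) (.rp 15 (.thr 32 16 (.thr 47 37 (.str 60 (.nv (.thr 40 20 (.thr 41 43 (.thr 44 36 (.thr 38 35 (.dbl 46 34 45))))) (.nv (.thr 56 52 (.thr 40 20 (.thr 36 44 (.dbl 24 8 12)))) (.rp 52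 (.thr 20 40 (.thr 22 23 (.thr 3 41 (.thr 33 18 (.thr 34 35 (.thr 38 46 (.thr 54 6 (.dbl 51 17 57)))))))) (.rp 44 (.thr 56 52 (.thr 40 20 (.thr 41 43 (.thr 26 11 (.thr 58 10 (.thr 59 57 (.dbl 8 24 25))))))) (.rp 40 (.str 33 (.nv (.thr 34 35 (.thr 38 46 (.thr 4 55 (.thr 52 56 (.thr 36 20 (.dbl 12 8 24)))))) (.nv (.thr 34 35 (.thr 51 17 (.thr 50 49 (.dbl 18 2 3)))) (.rp 51 (.thr 52 56 (.thr 34 35 (.thr 38 46 (.thr 55 4 (.thr 54 53 (.thr 3 18 (.dbl 22 6 41))))))) (.rp 35 (.thr 52 56 (.thr 3 18 (.thr 22 41 (.thr 20 23 (.thr 4 36 (.thr 38 55 (.thr 6 54 (.dbl 12 8 9)))))))) (.rp 34 (.thr 52 56 (.thr 3 18 (.thr 22 41 (.thr 20 23 (.thr 4 36 (.thr 38 55 (.thr 6 54 (.dbl 12 8 9)))))))) .nd)))))) (.rp 36 (.thr 20 40 (.thr 22 23 (.thr 3 41 (.thr 33 18 (.thr 34 35 (.thr 38 46 (.thr 54 6 (.dbl 51 17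 57)))))))) (.rp 28 (.thr 56 52 (.thr 40 20 (.thr 24 8 (.dbl 36 12 44)))) (.rp 24 (.thr 20 40 (.thr 22 23 (.thr 3 41 (.thr 33 18 (.thr 34 35 (.thr 38 46 (.thr 4 55 (.dbl 52 36 56)))))))) (.rp 20 (.str 12 (.nv (.thr 4 8 (.thr 24 36 (.thr 44 28 (.thr 46 45 (.dbl 38 34 55))))) (.nv (.thr 8 4 (.thr 25 59 (.thr 51 38 (.dbl 17 29 34)))) (.nv (.thr 4 8 (.thr 38 55 (.thr 46 34 (.dbl 44 28 45)))) (.rp 38 (.thr 8 4 (.thr 28 44 (.thr 25 59 (.thr 17 29 (.thr 51 34 (.thr 57 54 (.thr 41 9 (.dbl 22 3 19)))))))) (.rp 34 (.thr 8 4 (.thr 28 44 (.thr 25 59 (.thr 51 38 (.thr 57 54 (.thr 41 9 (.dbl 22 3 19))))))) (.rp 28 (.thr 24 36 (.thr 4 8 (.thr 38 55 (.thr 51 25 (.dbl 34 17 46))))) (.rp 24 (.thr 28 44 (.thr 8 4 (.thr 25 59 (.thr 17 29 (.dbl 51 34 38))))) (.rp 8 (.thr 52 56 (.thr 24 36 (.thr 44 28 (.thr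 46 45 (.thr 38 34 (.thr 51 25 (.thr 55 4 (.dbl 54 53 57)))))))) (.rp 4 (.thr 52 56 (.thr 24 36 (.thr 44 28 (.thr 46 45 (.thr 38 34 (.thr 41 35 (.thr 25 51 (.thr 9 57 (.dbl 3 6 22))))))))) .nd)))))))))) .nd)))))))))))) (.rp 10 (.str 60 (.nv (.thr 20 40 (.thr 22 23 (.thr 32 16 (.thr 37 47 (.dbl 52 7 56))))) (.nv (.thr 16 32 (.thr 52 56 (.thr 20 40 (.thr 36 4 (.dbl 24 12 28))))) (.rp 56 (.thr 40 20 (.thr 32 16 (.thr 37 47 (.thr 41 43 (.thr 33 45 (.dbl 3 18 22)))))) (.rp 52 (.thr 40 20 (.thr 32 16 (.thr 37 47 (.thr 41 43 (.thr 33 45 (.dbl 3 18 22)))))) (.rp 40 (.thr 56 52 (.thr 16 32 (.thr 26 31 (.thr 41 11 (.thr 3 22 (.thr 33 18 (.dbl 37 15 45))))))) (.rp 32 (.thr 56 52 (.thr 40 20 (.thr 8 24 (.thr 25 59 (.thr 17 29 (.thr 51 34 (.dbl 12 4 38))))))) (.rp 20 (.thr 56 52 (.thr 16 32 (.thr 26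 31 (.thr 41 11 (.thr 3 22 (.thr 33 18 (.dbl 37 15 45))))))) (.rp 16 (.thr 56 52 (.thr 40 20 (.thr 41 43 (.thr 26 11 (.thr 37 15 (.thr 33 45 (.dbl 3 18 22))))))) .nd))))))))) (.rp 5 (.str 60 (.nv (.thr 16 32 (.thr 26 31 (.thr 40 20 (.thr 41 43 (.dbl 56 11 52))))) (.nv (.thr 56 52 (.thr 40 20 (.thr 32 16 (.thr 24 8 (.dbl 36 12 44))))) (.rp 56 (.thr 40 20 (.thr 32 16 (.thr 37 47 (.thr 41 43 (.thr 33 45 (.dbl 3 18 22)))))) (.rp 52 (.thr 40 20 (.thr 32 16 (.thr 37 47 (.thr 41 43 (.thr 33 45 (.dbl 3 18 22)))))) (.rp 40 (.thr 56 52 (.thr 16 32 (.thr 26 31 (.thr 41 11 (.thr 3 22 (.thr 33 18 (.dbl 37 15 45))))))) (.rp 32 (.thr 56 52 (.thr 40 20 (.thr 8 24 (.thr 25 59 (.thr 17 29 (.thr 51 34 (.dbl 12 4 38))))))) (.rp 20 (.thr 56 52 (.thr 16 32 (.thr 26 31 (.thr 41 11 (.thr 3 22 (.thr 33 18 (.dbl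 37 15 45))))))) (.rp 16 (.thr 56 52 (.thr 40 20 (.thr 41 43 (.thr 26 11 (.thr 58 10 (.thr 59 57 (.dbl 8 24 25))))))) (.rp 13 (.str 9 (.nv (.thr 40 20 (.thr 41 43 (.thr 25 57 (.thr 8 59 (.dbl 56 24 52))))) (.nv (.thr 16 32 (.thr 20 40 (.thr 22 23 (.thr 3 41 (.thr 12 6 (.dbl 24 28 36)))))) (.nv (.thr 16 32 (.thr 26 31 (.thr 56 52 (.thr 41 11 (.thr 57 25 (.dbl 58 10 59)))))) (.nv (.thr 56 52 (.thr 40 20 (.thr 24 8 (.thr 32 16 (.dbl 36 12 44))))) .nd))))) (.rp 9 (.str 13 (.nv (.thr 16 32 (.thr 20 40 (.thr 26 31 (.thr 15 37 (.thr 12 14 (.dbl 24 28 36)))))) (.nv (.thr 20 40 (.thr 22 23 (.thr 32 16 (.thr 37 47 (.dbl 52 7 56))))) (.nv (.thr 32 16 (.thr 40 20 (.thr 36 44 (.thr 56 52 (.dbl 24 8 12))))) (.rp 40 (.thr 32 16 (.thr 37 47 (.thr 25 49 (.thr 15 26 (.thr 12 14 (.dbl 8 4 59)))))) (.rp 32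 (.thr 56 52 (.thr 40 20 (.thr 8 24 (.thr 25 59 (.thr 37 49 (.thr 26 15 (.dbl 41 11 43))))))) (.rp 20 (.thr 32 16 (.thr 37 47 (.thr 25 49 (.thr 15 26 (.thr 12 14 (.dbl 8 4 59)))))) (.rp 16 (.thr 56 52 (.thr 40 20 (.thr 41 43 (.thr 26 11 (.thr 37 15 (.thr 25 49 (.dbl 24 8 27))))))) .nd)))))))) .nd))))))))))) .nd)))))))))))

theorem w116 : WinAt (4398048608257, 9223372037928517634) :=
  chF (K := []) kn c116 4398048608257 9223372037928517634 63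
    [] (by decide +kernel) (by decide +kernel)

/-- A certificate. -/
noncomputable def c117 : Ct := (.str 38 (.nv (.thr 4 55 (.thr 12 8 (.thr 25 51 (.dbl 29 17 46)))) (.nv (.thr 55 4 (.thr 51 59 (.thr 25 12 (.dbl 17 29 34)))) (.rp 55 (.str 37 (.nv (.thr 5 53 (.thr 15 10 (.thr 39 36 (.thr 51 27 (.thr 17 34 (.dbl 25 12 29)))))) (.nv (.thr 36 39 (.thr 53 5 (.thr 48 58 (.thr 12 24 (.thr 4 8 (.thr 20 52 (.thr 32 16 (.dbl 40 44 60)))))))) (.nv (.thr 53 5 (.thr 48 58 (.thr 26 15 (.thr 50 14 (.thr 51 49 (.thr 17 34 (.dbl 25 12 29))))))) (.rp 58 (.thr 39 36 (.thr 5 53 (.thr 15 10 (.thr 26 48 (.thr 14 50 (.thr 12 13 (.dbl 51 25 27))))))) (.rp 53 (.thr 36 39 (.str 52 (.nv (.thr 20 4 (.dbl 22 7 23)) (.rp 23 (.thr 7 22 (.thr 4 20 (.thr 12 8 (.thr 29 46 (.dbl 25 17 51))))) (.rp 22 (.thr 4 20 (.thr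 12 8 (.thr 29 46 (.dbl 25 17 51)))) (.rp 20 (.str 48 (.nv (.thr 26 15 (.thr 50 14 (.thr 51 49 (.dbl 12 24 25)))) (.nv (.thr 7 22 (.thr 24 12 (.thr 32 16 (.thr 40 44 (.dbl 56 8 60))))) (.nv (.thr 12 24 (.thr 29 46 (.dbl 25 17 51))) (.rp 24 (.thr 60 56 (.thr 15 26 (.thr 45 30 (.thr 41 33 (.dbl 22 3 7))))) (.rp 12 (.thr 32 16 (.thr 44 40 (.thr 41 35 (.thr 60 56 (.dbl 22 3 7))))) (.rp 7 (.str 23 (.nv (.thr 3 43 (.thr 33 18 (.thr 41 45 (.dbl 60 22 56)))) (.nv (.thr 12 24 (.thr 29 46 (.dbl 25 17 51))) .nd))) .nd))))))) (.rp 7 (.str 23 (.nv (.dbl 20 4 22) (.rp 22 (.thr 4 20 (.thr 12 8 (.thr 29 46 (.dbl 25 17 51)))) (.rp 20 (.str 51 (.nv (.thr 12 25 (.thr 48 24 (.thr 26 15 (.dbl 50 14 49)))) (.nv (.thr 17 34 (.dbl 25 12 29)) (.rp 25 (.thr 34 17 (.thr 3 43 (.thr 35 19 (.thr 33 32 (.dbl 41 44 45)))))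 (.rp 12 (.thr 34 17 (.thr 3 43 (.thr 35 19 (.thr 33 32 (.dbl 41 44 45))))) .nd))))) (.rp 4 (.thr 20 22 (.thr 60 40 (.thr 48 56 (.thr 16 32 (.dbl 24 12 28))))) .nd))))) (.rp 4 (.thr 22 7 (.thr 23 20 (.thr 6 54 (.thr 3 43 (.thr 12 9 (.thr 29 46 (.dbl 25 17 51))))))) .nd)))))))) (.rp 26 (.thr 39 36 (.str 15 (.nv (.thr 51 27 (.thr 17 34 (.dbl 25 12 29))) (.nv (.dbl 5 10 53) (.rp 58 (.thr 10 5 (.thr 51 27 (.thr 17 34 (.dbl 25 12 29)))) (.rp 10 (.str 58 (.nv (.thr 51 27 (.thr 17 34 (.dbl 25 12 29))) (.nv (.dbl 53 5 48) .nd))) .nd)))))) (.rp 25 (.thr 36 39 (.thr 53 5 (.thr 48 58 (.thr 32 16 (.thr 40 44 (.thr 20 60 (.thr 4 52 (.dbl 12 8 24)))))))) (.rp 12 (.thr 39 36 (.thr 5 53 (.thr 15 10 (.thr 51 27 (.thr 17 34 (.thr 25 29 (.thr 49 13 (.dbl 48 26 50)))))))) (.rp 5 (.str 25 (.nv (.thr 13 49 (.thr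 12 51 (.dbl 29 17 46))) (.nv (.thr 51 12 (.dbl 17 29 34)) (.rp 51 (.thr 29 17 (.thr 36 39 (.thr 12 46 (.thr 48 24 (.thr 15 26 (.dbl 13 14 49)))))) (.rp 29 (.thr 13 49 (.thr 36 39 (.thr 12 51 (.thr 48 24 (.dbl 15 14 26))))) (.rp 17 (.thr 39 36 (.thr 51 12 (.thr 15 27 (.thr 48 26 (.dbl 49 13 50))))) (.rp 13 (.str 9 (.nv (.thr 12 51 (.dbl 29 17 46)) (.rp 51 (.thr 41 57 (.thr 45 33 (.thr 44 35 (.thr 46 47 (.dbl 29 12 17))))) (.rp 46 (.thr 17 29 (.dbl 51 12 34)) (.rp 29 (.thr 41 57 (.thr 35 44 (.thr 51 12 (.thr 34 17 (.dbl 33 32 45))))) (.rp 17 (.thr 41 57 (.thr 44 35 (.thr 12 51 (.thr 60 28 (.dbl 3 6 22))))) (.rp 12 (.thr 41 57 (.thr 33 45 (.thr 35 44 (.thr 34 32 (.dbl 17 29 51))))) .nd))))))) (.rp 12 (.thr 17 29 (.thr 39 36 (.thr 51 34 (.thr 15 27 (.thr 48 26 (.dbl 49 13 50)))))) .nd))))))))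 .nd)))))))))) (.rp 51 (.str 6 (.nv (.thr 4 55 (.thr 12 8 (.thr 22 54 (.thr 23 20 (.dbl 3 9 43))))) (.nv (.thr 4 55 (.thr 5 7 (.thr 12 8 (.thr 15 10 (.thr 14 13 (.thr 26 50 (.dbl 37 48 53))))))) (.nv (.thr 22 54 (.thr 20 23 (.thr 4 55 (.thr 52 36 (.dbl 7 5 37))))) (.rp 55 (.thr 22 54 (.thr 23 20 (.thr 3 43 (.thr 12 9 (.thr 29 46 (.thr 25 17 (.thr 28 19 (.dbl 60 41 44)))))))) (.rp 23 (.thr 22 54 (.thr 4 55 (.thr 7 5 (.thr 52 37 (.thr 20 36 (.thr 60 40 (.thr 12 8 (.dbl 3 9 41)))))))) (.rp 4 (.thr 22 54 (.thr 23 20 (.thr 3 43 (.thr 12 9 (.thr 29 46 (.thr 25 17 (.thr 28 19 (.dbl 60 41 44)))))))) .nd))))))) (.rp 29 (.thr 4 55 (.thr 12 8 (.thr 25 51 (.str 28 (.nv (.thr 22 19 (.thr 6 54 (.thr 3 9 (.dbl 23 20 43)))) (.nv (.thr 60 44 (.thr 20 40 (.thr 24 16 (.dbl 36 48 52)))) (.nv (.thr 60 44 (.thr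 22 19 (.dbl 20 23 40))) (.rp 60 (.thr 22 19 (.thr 23 20 (.thr 3 43 (.dbl 6 9 54)))) (.rp 20 (.thr 60 44 (.thr 22 19 (.thr 6 54 (.dbl 3 9 41)))) .nd))))))))) (.rp 25 (.thr 55 4 (.str 54 (.nv (.thr 22 6 (.thr 20 23 (.thr 60 40 (.dbl 51 57 59)))) (.nv (.thr 53 52 (.thr 58 48 (.thr 62 50 (.thr 60 61 (.dbl 51 57 59))))) (.nv (.thr 22 6 (.thr 23 20 (.thr 52 53 (.dbl 7 37 39)))) (.rp 59 (.str 8 (.nv (.thr 53 52 (.thr 58 48 (.thr 62 50 (.thr 60 61 (.thr 20 40 (.dbl 22 6 23)))))) (.nv (.thr 22 6 (.thr 23 20 (.thr 52 53 (.dbl 7 37 39)))) (.rp 53 (.thr 22 6 (.thr 20 23 (.thr 60 40 (.thr 62 61 (.thr 50 58 (.thr 26 14 (.thr 30 18 (.thr 15 45 (.thr 48 37 (.dbl 51 49 57)))))))))) (.rp 52 (.thr 22 6 (.thr 20 23 (.thr 60 40 (.thr 62 61 (.thr 58 50 (.thr 48 53 (.thr 16 32 (.thr 28 24 (.thr 44 12 (.dbl 41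 3 35)))))))))) (.rp 23 (.thr 53 52 (.thr 37 5 (.thr 36 39 (.thr 48 58 (.thr 24 12 (.thr 32 16 (.dbl 40 44 56))))))) (.rp 22 (.thr 53 52 (.thr 37 5 (.thr 36 39 (.thr 48 58 (.thr 24 12 (.thr 32 16 (.dbl 40 44 56))))))) (.rp 20 (.thr 22 6 (.thr 52 53 (.thr 7 37 (.thr 23 39 (.thr 3 43 (.thr 41 60 (.thr 11 15 (.thr 26 56 (.thr 50 14 (.thr 35 44 (.thr 51 19 (.thr 34 17 (.dbl 18 2 30))))))))))))) (.rp 6 (.thr 53 52 (.thr 5 37 (.thr 15 10 (.thr 58 48 (.thr 62 50 (.thr 60 61 (.thr 20 40 (.thr 23 22 (.thr 7 39 (.dbl 3 11 43)))))))))) .nd))))))))) (.rp 20 (.thr 22 6 (.thr 52 53 (.thr 7 37 (.thr 23 39 (.thr 3 43 (.thr 41 60 (.thr 35 44 (.dbl 51 19 59)))))))) (.rp 8 (.thr 59 51 (.thr 22 6 (.thr 52 53 (.thr 7 37 (.dbl 23 20 39))))) .nd)))))))) (.rp 17 (.thr 55 4 (.thr 51 59 (.thr 25 12 (.str 49 (.nv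 (.thr 37 13 (.thr 39 36 (.thr 15 27 (.dbl 48 26 50)))) (.nv (.thr 37 13 (.thr 5 53 (.thr 15 10 (.dbl 39 27 36)))) (.nv (.thr 48 50 (.thr 53 58 (.thr 54 52 (.dbl 57 60 61)))) (.nv (.thr 48 50 (.thr 37 13 (.dbl 53 5 58))) .nd)))))))) (.rp 12 (.str 39 (.nv (.thr 55 4 (.thr 51 59 (.thr 15 27 (.thr 5 10 (.dbl 37 36 53))))) (.nv (.thr 37 36 (.thr 53 5 (.thr 55 4 (.thr 52 54 (.dbl 7 22 23))))) (.rp 55 (.thr 37 36 (.thr 5 53 (.thr 15 10 (.thr 51 27 (.thr 17 34 (.thr 25 29 (.thr 49 13 (.dbl 48 26 50)))))))) (.rp 53 (.thr 55 4 (.thr 23 7 (.thr 22 20 (.thr 3 43 (.thr 41 60 (.thr 51 59 (.dbl 35 19 44))))))) (.rp 37 (.thr 55 4 (.thr 23 7 (.thr 22 20 (.thr 3 43 (.thr 41 60 (.thr 51 59 (.dbl 35 19 44))))))) (.rp 36 (.thr 55 4 (.thr 23 7 (.thr 3 43 (.thr 51 59 (.thr 35 19 (.thr 41 44 (.dbl 22 20 60)))))))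 (.rp 23 (.thr 37 36 (.thr 55 4 (.thr 5 53 (.thr 51 59 (.dbl 15 10 27))))) (.rp 5 (.thr 37 36 (.thr 55 4 (.thr 7 23 (.thr 52 22 (.thr 53 54 (.thr 48 58 (.thr 51 59 (.dbl 15 26 27)))))))) (.rp 4 (.thr 37 36 (.thr 5 53 (.thr 15 10 (.thr 51 27 (.thr 17 34 (.thr 25 29 (.thr 49 13 (.dbl 48 26 50)))))))) .nd)))))))))) (.rp 4 (.str 22 (.nv (.thr 6 54 (.thr 23 20 (.thr 3 43 (.thr 12 9 (.thr 29 46 (.dbl 25 17 51)))))) (.nv (.thr 20 23 (.thr 54 6 (.thr 60 40 (.thr 51 57 (.thr 62 61 (.thr 58 50 (.thr 53 48 (.dbl 55 52 59)))))))) (.nv (.thr 20 23 (.thr 60 40 (.thr 41 3 (.thr 44 35 (.thr 12 28 (.thr 29 46 (.dbl 25 17 51))))))) (.rp 51 (.thr 6 54 (.thr 23 20 (.thr 3 43 (.thr 12 9 (.thr 29 46 (.thr 25 17 (.thr 28 19 (.dbl 60 41 44)))))))) (.rp 41 (.thr 6 54 (.str 3 (.nv (.thr 12 9 (.thr 25 51 (.dbl 29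 17 46))) (.nv (.dbl 23 20 43) (.rp 43 (.str 40 (.nv (.thr 12 9 (.thr 29 46 (.dbl 25 17 51))) (.nv (.dbl 20 23 60) .nd))) (.rp 40 (.thr 43 23 (.thr 12 9 (.thr 29 46 (.dbl 25 17 51)))) .nd)))))) (.rp 40 (.thr 6 54 (.thr 23 20 (.thr 3 43 (.thr 41 60 (.thr 35 44 (.thr 51 19 (.dbl 12 9 25))))))) (.rp 23 (.str 25 (.nv (.thr 19 28 (.thr 51 12 (.dbl 17 29 34))) (.nv (.thr 12 51 (.dbl 29 17 46)) (.rp 51 (.thr 29 17 (.thr 6 54 (.thr 12 46 (.thr 3 9 (.thr 60 41 (.dbl 28 19 44)))))) (.rp 29 (.thr 6 54 (.thr 12 51 (.thr 3 9 (.thr 60 41 (.dbl 28 19 44))))) (.rp 19 (.str 27 (.nv (.thr 51 12 (.dbl 17 29 34)) (.rp 51 (.thr 26 24 (.thr 30 18 (.thr 14 50 (.thr 46 62 (.dbl 29 12 17))))) (.rp 34 (.thr 29 17 (.dbl 12 46 51)) (.rp 29 (.thr 26 24 (.thr 50 14 (.thr 51 12 (.thr 48 49 (.dbl 15 37 39))))) (.rp 17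 (.thr 26 24 (.thr 14 50 (.thr 12 51 (.thr 46 29 (.dbl 30 18 62))))) (.rp 12 (.thr 26 24 (.thr 18 30 (.thr 50 14 (.thr 34 2 (.dbl 17 29 51))))) .nd))))))) (.rp 17 (.thr 19 28 (.thr 54 6 (.thr 51 12 (.thr 60 57 (.dbl 3 35 41))))) (.rp 12 (.thr 17 29 (.thr 54 6 (.thr 51 34 (.thr 60 57 (.thr 3 41 (.dbl 19 28 35)))))) .nd)))))))) (.rp 20 (.thr 54 6 (.str 52 (.nv (.thr 53 55 (.dbl 37 5 7)) (.rp 55 (.thr 37 7 (.thr 5 53 (.thr 39 36 (.thr 15 10 (.thr 51 27 (.thr 17 34 (.dbl 25 12 29))))))) (.rp 53 (.str 60 (.nv (.thr 3 41 (.thr 48 56 (.thr 18 33 (.thr 26 30 (.dbl 37 7 15))))) (.nv (.thr 41 3 (.thr 56 48 (.thr 26 11 (.thr 50 14 (.dbl 62 58 61))))) (.nv (.thr 51 57 (.thr 17 34 (.dbl 25 12 29))) (.rp 7 (.str 5 (.nv (.thr 15 10 (.thr 30 45 (.thr 26 18 (.dbl 48 37 56)))) (.nv (.thr 51 57 (.thr 17 34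 (.dbl 25 12 29))) .nd))) (.rp 5 (.thr 7 37 (.thr 51 57 (.thr 17 34 (.dbl 25 12 29)))) .nd)))))) (.rp 37 (.thr 55 53 (.thr 51 59 (.thr 17 34 (.dbl 25 12 29)))) (.rp 7 (.str 5 (.nv (.dbl 53 37 55) (.rp 55 (.thr 53 37 (.thr 48 58 (.thr 60 56 (.thr 61 62 (.dbl 57 49 51))))) (.rp 53 (.str 12 (.nv (.thr 51 25 (.thr 60 57 (.thr 41 3 (.dbl 44 28 35)))) (.nv (.thr 29 46 (.dbl 25 17 51)) (.rp 51 (.thr 46 29 (.thr 15 10 (.thr 14 13 (.thr 30 62 (.dbl 26 18 50))))) (.rp 25 (.thr 46 29 (.thr 15 10 (.thr 14 13 (.thr 30 62 (.dbl 26 18 50))))) .nd))))) (.rp 37 (.thr 55 53 (.thr 51 59 (.thr 17 34 (.dbl 25 12 29)))) .nd))))) (.rp 5 (.thr 7 37 (.thr 55 53 (.thr 51 59 (.thr 17 34 (.dbl 25 12 29))))) .nd)))))))) .nd))))))))) .nd))))))))))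

theorem w117 : WinAt (9223372036856872961, 4400193994754) :=
  chF (K := []) kn c117 9223372036856872961 4400193994754 42
    [] (by decide +kernel) (by decide +kernel)

/-- A certificate. -/
noncomputable def c118 : Ct := (.str 12 (.nv (.thr 4 8 (.thr 38 55 (.thr 51 25 (.dbl 34 17 46)))) (.nv (.thr 8 4 (.thr 25 59 (.thr 51 38 (.dbl 17 29 34)))) (.rp 51 (.thr 8 4 (.str 10 (.nv (.thr 15 5 (.thr 13 14 (.thr 26 58 (.thr 48 37 (.thr 24 36 (.dbl 25 27 59)))))) (.nv (.thr 59 25 (.thr 11 9 (.thr 26 58 (.thr 41 56 (.dbl 43 27 40))))) (.nv (.thr 15 5 (.thr 14 13 (.thr 9 11 (.dbl 6 2 3)))) (.rp 59 (.str 55 (.nv (.thr 15 5 (.thr 14 13 (.thr 9 11 (.dbl 6 2 3)))) (.rp 43 (.thr 26 58 (.thr 16 31 (.thr 15 5 (.thr 48 37 (.thr 24 36 (.thr 20 28 (.dbl 40 56 60))))))) (.rp 27 (.thr 26 58 (.thr 16 31 (.thr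 15 5 (.thr 48 37 (.thr 24 36 (.thr 20 28 (.dbl 40 56 60))))))) (.rp 15 (.thr 26 58 (.thr 31 16 (.thr 11 9 (.thr 56 41 (.thr 40 24 (.thr 60 20 (.thr 28 44 (.thr 52 48 (.thr 53 54 (.thr 30 29 (.thr 22 18 (.dbl 37 5 7)))))))))))) (.rp 14 (.thr 26 58 (.thr 16 31 (.thr 15 5 (.thr 48 37 (.thr 24 36 (.thr 20 28 (.dbl 40 56 60))))))) (.rp 13 (.thr 9 11 (.thr 6 3 (.thr 2 14 (.thr 22 62 (.thr 54 38 (.thr 53 52 (.dbl 5 15 37))))))) (.rp 11 (.thr 26 58 (.thr 16 31 (.thr 15 5 (.thr 48 37 (.thr 24 36 (.thr 20 28 (.dbl 40 56 60))))))) (.rp 9 (.thr 26 58 (.thr 16 31 (.thr 15 5 (.thr 13 14 (.thr 48 37 (.thr 24 36 (.thr 20 28 (.dbl 40 56 60)))))))) (.rp 7 (.thr 9 11 (.thr 15 5 (.thr 6 3 (.dbl 14 2 13)))) (.rp 6 (.thr 26 58 (.thr 5 15 (.thr 53 37 (.thr 52 54 (.thr 11 9 (.thr 56 41 (.thr 60 48 (.dbl 40 20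 24)))))))) (.rp 5 (.thr 9 11 (.thr 6 3 (.thr 2 14 (.thr 22 62 (.thr 54 38 (.thr 23 20 (.thr 7 39 (.dbl 52 37 53)))))))) (.rp 3 (.thr 26 58 (.thr 16 31 (.thr 15 5 (.thr 48 37 (.thr 24 36 (.thr 20 28 (.dbl 40 56 60))))))) (.rp 2 (.thr 26 58 (.thr 16 31 (.thr 15 5 (.thr 48 37 (.thr 24 36 (.thr 20 28 (.dbl 40 56 60))))))) .nd)))))))))))))) (.rp 13 (.thr 11 9 (.thr 5 15 (.thr 59 25 (.thr 26 58 (.thr 41 56 (.dbl 43 27 40)))))) (.rp 5 (.thr 9 11 (.thr 6 3 (.thr 14 2 (.thr 15 13 (.thr 26 58 (.thr 48 37 (.thr 24 36 (.dbl 25 27 59)))))))) .nd)))))))) (.rp 38 (.str 15 (.nv (.thr 8 4 (.thr 10 5 (.thr 9 11 (.thr 25 59 (.thr 26 58 (.thr 48 37 (.dbl 24 27 36))))))) (.nv (.thr 5 10 (.thr 8 4 (.thr 25 59 (.thr 37 53 (.dbl 13 14 49))))) (.nv (.thr 14 13 (.thr 8 4 (.thr 10 5 (.thr 9 11 (.dbl 6 2 3))))) (.rp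 10 (.thr 13 14 (.thr 8 4 (.thr 25 59 (.thr 17 29 (.thr 51 34 (.thr 27 39 (.thr 26 24 (.dbl 37 48 49)))))))) (.rp 8 (.thr 13 14 (.thr 5 10 (.thr 37 53 (.thr 25 49 (.thr 17 29 (.thr 51 34 (.thr 27 39 (.dbl 26 24 48)))))))) (.rp 5 (.thr 13 14 (.thr 8 4 (.thr 25 59 (.thr 17 29 (.thr 51 34 (.thr 27 39 (.thr 26 24 (.dbl 37 48 49)))))))) (.rp 4 (.thr 13 14 (.thr 5 10 (.thr 37 53 (.thr 25 49 (.thr 17 29 (.thr 51 34 (.thr 27 39 (.dbl 26 24 48)))))))) .nd)))))))) (.rp 34 (.thr 4 8 (.thr 38 55 (.thr 51 25 (.str 35 (.nv (.thr 41 44 (.thr 40 43 (.thr 60 20 (.thr 54 57 (.dbl 22 3 6))))) (.nv (.thr 3 19 (.thr 6 9 (.thr 5 7 (.thr 10 15 (.thr 2 14 (.dbl 22 54 62)))))) (.nv (.thr 41 44 (.thr 40 43 (.thr 3 19 (.dbl 60 20 22)))) (.rp 41 (.str 57 (.nv (.thr 3 19 (.thr 6 9 (.dbl 54 22 60))) (.nv (.thr 54 60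 (.thr 3 19 (.dbl 6 9 22))) (.rp 60 (.thr 3 19 (.thr 6 9 (.thr 5 7 (.thr 10 15 (.thr 14 2 (.dbl 26 50 58)))))) (.rp 54 (.thr 3 19 (.thr 6 9 (.thr 5 7 (.thr 10 15 (.thr 14 2 (.dbl 26 50 58)))))) (.rp 28 (.thr 54 60 (.thr 22 6 (.thr 62 2 (.thr 50 58 (.thr 48 49 (.thr 36 24 (.dbl 20 23 52))))))) (.rp 22 (.thr 60 54 (.thr 3 19 (.thr 28 44 (.thr 6 9 (.thr 5 7 (.thr 10 15 (.thr 14 2 (.dbl 26 50 58)))))))) (.rp 19 (.thr 54 60 (.thr 22 6 (.thr 62 2 (.thr 50 58 (.thr 48 49 (.thr 36 24 (.dbl 20 23 52))))))) (.rp 9 (.thr 54 60 (.thr 22 6 (.thr 62 2 (.thr 50 58 (.thr 48 49 (.thr 36 24 (.dbl 20 23 52))))))) (.rp 6 (.thr 60 54 (.thr 19 3 (.thr 20 40 (.thr 23 22 (.thr 31 27 (.thr 16 26 (.thr 24 28 (.dbl 36 48 52)))))))) (.rp 3 (.thr 54 60 (.thr 22 6 (.thr 62 2 (.thr 50 58 (.thr 48 49 (.thr 36 24 (.dbl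 20 23 52))))))) .nd))))))))))) (.rp 22 (.thr 41 44 (.thr 40 43 (.thr 20 60 (.thr 36 52 (.thr 37 39 (.thr 33 45 (.thr 48 24 (.dbl 3 18 19)))))))) (.rp 3 (.thr 44 41 (.thr 60 28 (.thr 20 40 (.thr 36 52 (.thr 39 37 (.thr 43 47 (.thr 22 23 (.dbl 54 6 57)))))))) .nd)))))))))) (.rp 25 (.str 60 (.nv (.thr 4 8 (.thr 20 40 (.thr 36 52 (.thr 22 23 (.thr 3 41 (.thr 38 55 (.dbl 6 9 54))))))) (.nv (.thr 4 8 (.thr 38 55 (.thr 40 20 (.thr 41 43 (.dbl 44 28 35))))) (.nv (.thr 28 44 (.thr 4 8 (.thr 20 40 (.thr 36 52 (.dbl 24 16 48))))) (.rp 40 (.thr 44 28 (.thr 4 8 (.thr 38 55 (.thr 34 46 (.thr 51 17 (.thr 54 57 (.thr 22 6 (.dbl 41 3 35)))))))) (.rp 20 (.thr 44 28 (.thr 4 8 (.thr 38 55 (.thr 34 46 (.thr 51 17 (.thr 54 57 (.thr 22 6 (.dbl 41 3 35)))))))) (.rp 8 (.thr 44 28 (.thr 40 20 (.thr 41 43 (.thr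 38 35 (.thr 34 46 (.thr 51 17 (.thr 54 57 (.dbl 22 3 6)))))))) (.rp 4 (.thr 44 28 (.thr 40 20 (.thr 41 43 (.thr 38 35 (.thr 34 46 (.thr 51 17 (.thr 54 57 (.dbl 22 3 6)))))))) .nd)))))))) (.rp 17 (.thr 8 4 (.thr 25 59 (.thr 51 38 (.str 49 (.nv (.thr 37 13 (.thr 5 53 (.thr 15 10 (.thr 27 39 (.dbl 26 24 48))))) (.nv (.thr 48 50 (.thr 24 36 (.thr 26 27 (.thr 40 56 (.thr 20 60 (.dbl 16 28 31)))))) (.nv (.thr 37 13 (.thr 5 53 (.thr 48 50 (.dbl 15 10 26)))) (.rp 48 (.thr 13 37 (.thr 15 14 (.thr 10 5 (.thr 9 11 (.thr 57 41 (.thr 53 61 (.thr 26 58 (.dbl 27 24 39)))))))) (.rp 37 (.str 39 (.nv (.thr 48 50 (.thr 24 36 (.dbl 27 15 26))) (.nv (.thr 27 15 (.thr 48 50 (.dbl 24 26 36))) (.rp 50 (.thr 27 15 (.thr 26 24 (.thr 31 16 (.thr 19 23 (.thr 3 35 (.thr 9 6 (.dbl 10 11 58))))))) (.rp 48 (.thr 27 15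 (.thr 26 24 (.thr 31 16 (.thr 19 23 (.thr 3 35 (.thr 9 6 (.dbl 10 11 58))))))) (.rp 36 (.thr 27 15 (.thr 26 24 (.thr 31 16 (.thr 19 23 (.thr 3 35 (.thr 9 6 (.dbl 10 11 58))))))) (.rp 27 (.thr 48 50 (.thr 24 36 (.thr 40 56 (.thr 20 60 (.thr 28 16 (.dbl 22 19 23)))))) (.rp 26 (.thr 15 27 (.thr 48 50 (.thr 14 13 (.thr 24 36 (.thr 40 56 (.thr 20 60 (.thr 28 16 (.dbl 22 19 23)))))))) (.rp 24 (.thr 15 27 (.thr 50 48 (.thr 10 5 (.thr 58 26 (.thr 62 54 (.thr 2 22 (.thr 6 14 (.dbl 9 3 11)))))))) (.rp 15 (.thr 48 50 (.thr 24 36 (.thr 40 56 (.thr 20 60 (.thr 28 16 (.dbl 22 19 23)))))) (.rp 14 (.thr 27 15 (.thr 26 24 (.thr 31 16 (.thr 19 23 (.thr 3 35 (.thr 9 6 (.dbl 10 11 58))))))) .nd))))))))))) (.rp 26 (.thr 37 13 (.thr 5 53 (.thr 10 15 (.thr 9 11 (.thr 41 57 (.thr 33 45 (.thr 3 6 (.dbl 48 18 50))))))))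 .nd)))))))))) (.rp 8 (.str 60 (.nv (.thr 20 40 (.thr 22 23 (.thr 3 41 (.thr 6 9 (.thr 38 54 (.thr 25 51 (.dbl 28 19 44))))))) (.nv (.thr 44 28 (.thr 40 20 (.thr 41 43 (.thr 38 35 (.thr 34 46 (.dbl 51 17 25)))))) (.nv (.thr 40 20 (.thr 41 43 (.thr 3 22 (.thr 9 6 (.thr 25 57 (.thr 17 29 (.dbl 51 34 38))))))) (.rp 51 (.thr 20 40 (.thr 22 23 (.thr 2 62 (.thr 3 41 (.thr 6 9 (.thr 38 54 (.thr 34 46 (.thr 50 18 (.dbl 14 10 26))))))))) (.rp 41 (.str 4 (.nv (.thr 20 40 (.thr 36 52 (.thr 24 48 (.dbl 28 16 44)))) (.nv (.thr 38 55 (.thr 34 46 (.dbl 51 17 25))) .nd))) (.rp 40 (.thr 44 28 (.str 46 (.nv (.thr 38 34 (.thr 45 47 (.thr 15 30 (.thr 5 10 (.thr 37 53 (.dbl 41 33 35)))))) (.nv (.thr 34 38 (.thr 17 51 (.thr 45 47 (.thr 15 30 (.thr 13 14 (.dbl 29 25 61)))))) (.nv (.thr 38 34 (.thr 51 25 (.thr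 54 57 (.thr 22 6 (.dbl 41 3 35))))) (.rp 56 (.str 24 (.nv (.thr 38 34 (.thr 51 25 (.thr 54 57 (.thr 22 6 (.dbl 41 3 35))))) (.nv (.thr 45 47 (.thr 15 30 (.thr 5 10 (.thr 37 53 (.dbl 48 26 36))))) (.rp 9 (.thr 36 48 (.thr 38 34 (.thr 45 47 (.thr 37 39 (.dbl 41 33 35))))) .nd)))) (.rp 38 (.thr 45 47 (.thr 15 30 (.thr 13 14 (.thr 29 61 (.thr 25 17 (.thr 5 10 (.dbl 37 49 53))))))) (.rp 34 (.thr 45 47 (.thr 15 30 (.thr 13 14 (.thr 29 61 (.thr 25 17 (.thr 5 10 (.dbl 37 49 53))))))) (.rp 24 (.str 56 (.nv (.thr 38 34 (.thr 4 55 (.thr 52 48 (.thr 20 36 (.thr 22 23 (.dbl 41 3 35)))))) (.nv (.thr 38 34 (.thr 51 25 (.thr 54 57 (.thr 22 6 (.dbl 41 3 35))))) (.nv (.thr 45 47 (.thr 15 30 (.thr 5 10 (.thr 37 53 (.dbl 48 26 52))))) (.rp 20 (.str 16 (.nv (.thr 48 52 (.thr 26 31 (.thr 15 37 (.dbl 10 5 58))))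 (.nv (.thr 38 34 (.thr 26 31 (.dbl 41 11 35))) (.rp 31 (.thr 52 48 (.thr 38 34 (.thr 55 4 (.thr 51 25 (.dbl 54 53 57))))) (.rp 30 (.thr 52 48 (.thr 38 34 (.thr 55 4 (.thr 51 25 (.dbl 54 53 57))))) (.rp 29 (.thr 52 48 (.thr 38 34 (.thr 55 4 (.thr 51 25 (.dbl 54 53 57))))) (.rp 26 (.thr 48 52 (.thr 38 34 (.thr 45 47 (.thr 41 35 (.thr 33 37 (.dbl 3 18 22)))))) (.rp 15 (.thr 38 34 (.thr 26 31 (.thr 47 45 (.dbl 41 11 35)))) .nd)))))))) (.rp 16 (.str 20 (.nv (.thr 22 23 (.thr 45 47 (.thr 62 2 (.dbl 30 14 15)))) (.nv (.thr 52 48 (.thr 4 36 (.dbl 38 34 55))) .nd))) .nd)))))) .nd))))))))) (.rp 38 (.thr 20 40 (.thr 22 23 (.thr 2 62 (.thr 3 41 (.thr 6 9 (.thr 10 14 (.thr 26 58 (.thr 30 18 (.dbl 15 5 45))))))))) (.rp 25 (.thr 44 28 (.thr 40 20 (.thr 41 43 (.thr 38 35 (.thr 34 46 (.thr 51 17 (.thr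 54 57 (.dbl 22 3 6)))))))) (.rp 20 (.str 41 (.nv (.thr 3 22 (.thr 9 6 (.thr 25 57 (.thr 38 51 (.dbl 44 28 35))))) (.nv (.thr 3 22 (.thr 9 6 (.thr 25 57 (.thr 17 29 (.dbl 51 34 38))))) (.nv (.thr 44 28 (.thr 38 35 (.thr 34 46 (.dbl 51 17 25)))) (.rp 51 (.thr 44 28 (.thr 43 40 (.thr 35 38 (.thr 47 39 (.thr 45 46 (.thr 37 33 (.thr 5 53 (.dbl 15 10 30)))))))) (.rp 38 (.thr 28 44 (.thr 22 3 (.thr 25 19 (.thr 57 9 (.thr 17 29 (.dbl 51 34 54)))))) (.rp 25 (.thr 44 28 (.thr 38 35 (.thr 34 46 (.thr 51 17 (.thr 54 57 (.dbl 22 3 6)))))) .nd))))))) (.rp 3 (.thr 44 28 (.str 41 (.nv (.thr 38 35 (.thr 34 46 (.dbl 51 17 25))) (.nv (.dbl 40 20 43) (.rp 43 (.str 23 (.nv (.thr 38 35 (.thr 34 46 (.dbl 51 17 25))) (.nv (.dbl 20 22 40) .nd))) (.rp 23 (.thr 43 40 (.thr 38 35 (.thr 34 46 (.dbl 51 17 25)))) .nd))))))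 .nd))))))))))) (.rp 4 (.str 15 (.nv (.thr 10 5 (.thr 26 58 (.thr 48 37 (.thr 24 36 (.thr 25 27 (.thr 38 51 (.dbl 14 13 50))))))) (.nv (.thr 13 14 (.thr 5 10 (.thr 37 53 (.thr 25 49 (.thr 17 29 (.dbl 51 34 38)))))) (.nv (.thr 5 10 (.thr 37 53 (.thr 48 26 (.thr 36 24 (.thr 38 39 (.thr 34 46 (.dbl 51 17 25))))))) (.rp 51 (.thr 10 5 (.thr 26 58 (.thr 16 31 (.thr 48 37 (.thr 24 36 (.thr 25 27 (.thr 17 29 (.thr 19 18 (.dbl 28 20 22))))))))) (.rp 48 (.thr 13 14 (.str 37 (.nv (.thr 25 49 (.thr 17 29 (.dbl 51 34 38))) (.nv (.dbl 5 10 53) (.rp 58 (.thr 53 5 (.thr 25 49 (.thr 17 29 (.dbl 51 34 38)))) (.rp 53 (.str 58 (.nv (.thr 25 49 (.thr 17 29 (.dbl 51 34 38))) (.nv (.dbl 10 5 26) .nd))) .nd)))))) (.rp 38 (.thr 13 14 (.thr 5 10 (.thr 37 53 (.thr 25 49 (.thr 17 29 (.thr 51 34 (.thr 27 39 (.dbl 26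 24 48)))))))) (.rp 37 (.str 8 (.nv (.thr 10 5 (.thr 9 11 (.thr 6 3 (.dbl 14 2 13)))) (.nv (.thr 25 59 (.thr 17 29 (.dbl 51 34 38))) .nd))) (.rp 25 (.thr 10 5 (.thr 26 58 (.thr 16 31 (.thr 48 37 (.thr 24 36 (.thr 20 28 (.thr 22 23 (.thr 30 18 (.dbl 60 40 45))))))))) (.rp 10 (.str 37 (.nv (.thr 48 26 (.thr 36 24 (.thr 38 39 (.thr 34 46 (.dbl 51 17 25))))) (.nv (.thr 14 13 (.thr 26 48 (.thr 38 50 (.thr 51 25 (.dbl 39 27 36))))) (.nv (.thr 13 14 (.thr 25 49 (.thr 17 29 (.dbl 51 34 38)))) (.rp 51 (.thr 13 14 (.thr 53 5 (.thr 49 25 (.thr 61 57 (.thr 45 29 (.thr 41 33 (.thr 40 43 (.dbl 60 20 30)))))))) (.rp 38 (.thr 13 14 (.thr 25 49 (.thr 17 29 (.thr 51 34 (.thr 27 39 (.dbl 26 24 48)))))) (.rp 25 (.thr 14 13 (.thr 26 48 (.thr 38 50 (.thr 39 36 (.thr 34 46 (.dbl 51 17 27)))))) .nd))))))) (.rp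 5 (.thr 13 14 (.str 29 (.nv (.thr 25 17 (.thr 45 61 (.thr 60 30 (.thr 20 40 (.thr 22 23 (.dbl 28 19 44)))))) (.nv (.thr 17 25 (.thr 34 51 (.thr 45 61 (.thr 60 30 (.thr 44 28 (.dbl 46 38 47)))))) (.nv (.thr 25 17 (.thr 51 38 (.thr 27 39 (.thr 26 24 (.dbl 37 48 49))))) (.rp 25 (.thr 45 61 (.thr 60 30 (.thr 44 28 (.thr 46 47 (.thr 38 34 (.thr 40 20 (.dbl 41 35 43))))))) (.rp 17 (.thr 45 61 (.thr 60 30 (.thr 44 28 (.thr 46 47 (.thr 38 34 (.thr 40 20 (.dbl 41 35 43))))))) (.rp 7 (.str 6 (.nv (.thr 3 9 (.thr 45 61 (.thr 60 30 (.thr 41 22 (.dbl 40 20 43))))) (.nv (.thr 25 17 (.thr 51 38 (.thr 27 39 (.thr 26 24 (.dbl 37 48 49))))) (.nv (.thr 3 9 (.thr 45 61 (.thr 60 30 (.thr 20 40 (.dbl 22 23 41))))) .nd)))) (.rp 6 (.str 7 (.nv (.thr 3 11 (.thr 25 17 (.thr 45 61 (.thr 37 49 (.thr 33 41 (.dbl 48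 18 26)))))) (.nv (.thr 25 17 (.thr 51 38 (.thr 27 39 (.thr 26 24 (.dbl 37 48 49))))) (.nv (.thr 3 11 (.thr 45 61 (.thr 60 30 (.thr 20 40 (.dbl 22 23 41))))) (.rp 10 (.str 2 (.nv (.thr 3 11 (.thr 22 62 (.thr 20 23 (.dbl 60 40 41)))) (.nv (.thr 11 3 (.thr 25 17 (.thr 51 38 (.thr 59 8 (.dbl 27 39 43))))) (.nv (.thr 25 17 (.thr 22 62 (.dbl 37 49 52))) (.rp 22 (.thr 3 11 (.thr 25 17 (.thr 45 61 (.thr 37 49 (.thr 33 41 (.dbl 48 18 26)))))) .nd))))) (.rp 2 (.str 10 (.nv (.thr 26 58 (.thr 31 16 (.thr 30 28 (.dbl 45 60 61)))) (.nv (.thr 11 3 (.thr 8 9 (.dbl 25 17 59))) .nd))) .nd)))))) .nd))))))))) .nd))))))))))) .nd))))))))))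

theorem w118 : WinAt (4398048608257, 9223372041149743106) :=
  chF (K := []) kn c118 4398048608257 9223372041149743106 63
    [] (by decide +kernel) (by decide +kernel)

/-- A certificate. -/
noncomputable def c119 : Ct := (.str 17 (.nv (.thr 25 29 (.thr 8 59 (.thr 12 4 (.dbl 51 34 38)))) (.nv (.thr 51 34 (.thr 25 29 (.thr 12 38 (.dbl 8 4 59)))) (.rp 59 (.thr 51 34 (.str 32 (.nv (.thr 25 29 (.thr 12 38 (.thr 37 47 (.thr 13 49 (.thr 15 14 (.dbl 5 10 53)))))) (.nv (.thr 25 29 (.thr 48 16 (.thr 49 50 (.dbl 37 13 47)))) (.nv (.thr 48 16 (.thr 37 47 (.thr 15 26 (.dbl 5 10 53)))) (.rp 47 (.thr 48 16 (.thr 49 50 (.thr 25 29 (.thr 37 13 (.thr 5 53 (.dbl 15 10 26)))))) (.rp 37 (.thr 16 48 (.thr 26 31 (.thr 25 29 (.thr 27 24 (.thr 15 39 (.dbl 10 5 58)))))) .nd))))))) (.rp 51 (.str 16 (.nv (.thr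 19 18 (.thr 25 29 (.thr 22 28 (.thr 23 20 (.dbl 31 26 27))))) (.nv (.thr 48 32 (.thr 26 31 (.thr 10 58 (.dbl 15 5 37)))) (.rp 59 (.str 55 (.nv (.thr 19 18 (.thr 25 29 (.thr 22 28 (.thr 23 20 (.dbl 31 26 27))))) (.nv (.thr 48 32 (.thr 26 31 (.thr 15 37 (.dbl 10 5 58)))) (.rp 48 (.thr 18 19 (.thr 38 4 (.thr 34 46 (.thr 50 2 (.dbl 26 14 31))))) (.rp 31 (.thr 19 18 (.thr 48 32 (.thr 4 38 (.thr 25 29 (.thr 28 22 (.thr 24 20 (.dbl 12 8 36))))))) (.rp 26 (.thr 19 18 (.thr 48 32 (.thr 4 38 (.thr 25 29 (.thr 12 8 (.thr 24 36 (.dbl 28 20 22))))))) .nd)))))) (.rp 55 (.str 59 (.nv (.dbl 25 8 29) (.rp 29 (.thr 48 32 (.thr 26 31 (.thr 10 58 (.dbl 15 5 37)))) (.rp 25 (.thr 48 32 (.thr 26 31 (.thr 10 58 (.dbl 15 5 37)))) (.rp 8 (.thr 48 32 (.thr 26 31 (.thr 10 58 (.dbl 15 5 37)))) .nd))))) (.rp 48 (.thr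 26 31 (.thr 25 29 (.thr 24 27 (.thr 28 20 (.dbl 19 18 22))))) (.rp 31 (.thr 19 18 (.thr 48 32 (.thr 25 29 (.thr 28 22 (.thr 24 20 (.thr 12 36 (.dbl 8 4 59))))))) (.rp 26 (.thr 19 18 (.thr 48 32 (.thr 25 29 (.thr 59 8 (.thr 22 28 (.thr 20 23 (.thr 60 40 (.thr 56 52 (.thr 57 58 (.dbl 41 3 9)))))))))) .nd)))))))) (.rp 38 (.str 19 (.nv (.thr 16 18 (.thr 25 29 (.thr 8 59 (.thr 12 4 (.thr 28 22 (.thr 20 24 (.dbl 60 40 44))))))) (.nv (.thr 18 16 (.thr 25 29 (.thr 22 28 (.thr 2 62 (.dbl 34 50 51))))) (.nv (.thr 16 18 (.thr 48 32 (.thr 26 31 (.thr 10 58 (.dbl 15 5 37))))) (.rp 18 (.thr 51 34 (.thr 25 29 (.thr 22 28 (.thr 20 23 (.thr 60 40 (.dbl 3 35 41)))))) (.rp 16 (.thr 51 34 (.thr 25 29 (.thr 22 28 (.thr 20 23 (.thr 60 40 (.dbl 3 35 41)))))) .nd)))))) (.rp 34 (.str 32 (.nv (.thr 16 48 (.thr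 25 29 (.thr 26 31 (.thr 24 27 (.thr 28 20 (.dbl 19 18 22)))))) (.nv (.thr 48 16 (.thr 37 47 (.thr 15 26 (.dbl 5 10 53)))) (.rp 53 (.thr 48 16 (.thr 37 47 (.thr 25 29 (.thr 8 59 (.thr 15 26 (.thr 13 49 (.dbl 12 4 14))))))) (.rp 48 (.thr 37 47 (.thr 25 29 (.thr 8 59 (.thr 13 49 (.thr 12 4 (.thr 15 14 (.dbl 5 10 53))))))) (.rp 47 (.thr 48 16 (.thr 25 29 (.thr 8 59 (.thr 12 4 (.thr 24 36 (.thr 26 27 (.thr 10 58 (.dbl 15 5 37)))))))) (.rp 26 (.thr 48 16 (.thr 37 47 (.thr 25 29 (.thr 8 59 (.thr 49 13 (.thr 51 50 (.dbl 12 4 38))))))) (.rp 16 (.thr 37 47 (.thr 5 53 (.thr 25 29 (.thr 8 59 (.thr 15 10 (.thr 13 49 (.dbl 12 4 14))))))) (.rp 15 (.thr 48 16 (.thr 25 29 (.thr 8 59 (.thr 12 4 (.thr 51 38 (.thr 49 50 (.dbl 37 13 47))))))) .nd))))))))) (.rp 29 (.str 18 (.nv (.thr 16 19 (.thr 26 31 (.thr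 34 51 (.thr 50 2 (.dbl 38 14 46))))) (.nv (.thr 16 19 (.thr 26 31 (.thr 10 58 (.thr 15 5 (.dbl 48 32 37))))) (.nv (.thr 16 19 (.thr 34 51 (.thr 2 50 (.thr 22 62 (.dbl 26 30 31))))) (.nv (.thr 16 19 (.thr 48 32 (.thr 26 31 (.thr 10 58 (.dbl 15 5 37))))) (.rp 46 (.str 12 (.nv (.thr 16 19 (.thr 26 31 (.thr 10 58 (.thr 15 5 (.dbl 48 32 37))))) (.nv (.thr 8 4 (.thr 25 59 (.dbl 51 34 38))) .nd))) (.rp 31 (.thr 19 16 (.thr 34 51 (.thr 2 50 (.thr 22 62 (.thr 20 23 (.thr 60 40 (.thr 28 25 (.thr 38 46 (.thr 12 44 (.dbl 4 8 55)))))))))) (.rp 30 (.thr 19 16 (.thr 34 51 (.thr 2 50 (.thr 22 62 (.thr 20 23 (.thr 60 40 (.thr 28 25 (.thr 12 44 (.thr 4 8 (.dbl 38 46 55)))))))))) (.rp 26 (.thr 19 16 (.thr 34 51 (.thr 2 50 (.thr 22 62 (.thr 20 23 (.thr 60 40 (.thr 28 25 (.thr 38 46 (.thr 12 44 (.dbl 4 8 55))))))))))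 (.rp 19 (.thr 34 51 (.thr 2 50 (.thr 22 62 (.thr 20 23 (.thr 60 40 (.thr 30 26 (.thr 15 45 (.thr 10 5 (.thr 6 14 (.dbl 38 46 54)))))))))) (.rp 16 (.thr 34 51 (.thr 2 50 (.thr 22 62 (.thr 20 23 (.thr 60 40 (.thr 30 26 (.thr 15 45 (.thr 10 5 (.thr 6 14 (.dbl 38 46 54)))))))))) (.rp 12 (.str 46 (.nv (.dbl 34 38 51) (.rp 51 (.thr 16 19 (.thr 26 31 (.thr 30 22 (.thr 38 34 (.dbl 14 50 62))))) (.rp 38 (.thr 16 19 (.thr 26 31 (.thr 10 58 (.thr 15 5 (.dbl 48 32 37))))) (.rp 34 (.thr 16 19 (.thr 26 31 (.thr 10 58 (.thr 15 5 (.dbl 48 32 37))))) .nd))))) .nd)))))))))))) (.rp 25 (.str 18 (.nv (.thr 34 51 (.thr 38 46 (.thr 50 2 (.thr 26 14 (.dbl 16 19 31))))) (.nv (.thr 16 19 (.thr 48 32 (.thr 26 31 (.thr 10 58 (.dbl 15 5 37))))) (.rp 34 (.thr 16 19 (.thr 26 31 (.thr 10 58 (.thr 15 5 (.dbl 48 32 37)))))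 (.rp 31 (.thr 16 19 (.thr 34 51 (.thr 50 2 (.thr 48 32 (.thr 38 46 (.thr 26 14 (.thr 10 58 (.dbl 15 5 37)))))))) (.rp 26 (.thr 34 51 (.thr 2 50 (.thr 22 62 (.thr 23 20 (.thr 38 46 (.thr 54 6 (.thr 55 4 (.thr 52 53 (.dbl 7 37 39))))))))) (.rp 19 (.thr 34 51 (.thr 50 2 (.thr 38 46 (.thr 26 14 (.thr 10 58 (.thr 16 31 (.thr 48 32 (.dbl 15 5 37)))))))) (.rp 16 (.thr 34 51 (.thr 2 50 (.thr 22 62 (.thr 23 20 (.thr 38 46 (.thr 54 6 (.thr 55 4 (.thr 52 53 (.dbl 7 37 39))))))))) (.rp 10 (.thr 16 19 (.thr 34 51 (.thr 50 2 (.thr 26 31 (.dbl 38 14 46))))) .nd))))))))) (.rp 12 (.str 19 (.nv (.thr 29 25 (.thr 16 18 (.thr 26 31 (.thr 10 58 (.thr 15 5 (.dbl 48 32 37)))))) (.nv (.thr 18 16 (.thr 34 51 (.thr 25 29 (.thr 46 38 (.thr 22 28 (.dbl 2 50 62)))))) (.nv (.thr 16 18 (.thr 48 32 (.thr 26 31 (.thr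 10 58 (.dbl 15 5 37))))) (.rp 31 (.thr 18 16 (.thr 34 51 (.thr 2 50 (.thr 22 62 (.dbl 25 28 29))))) (.rp 29 (.str 46 (.nv (.dbl 34 38 51) (.rp 51 (.thr 16 18 (.thr 26 31 (.thr 10 58 (.thr 15 5 (.dbl 48 32 37))))) (.rp 38 (.thr 16 18 (.thr 26 31 (.thr 10 58 (.thr 15 5 (.dbl 48 32 37))))) (.rp 34 (.thr 16 18 (.thr 26 31 (.thr 10 58 (.thr 15 5 (.dbl 48 32 37))))) .nd))))) (.rp 18 (.thr 34 51 (.thr 25 29 (.thr 46 38 (.thr 22 28 (.thr 20 23 (.thr 62 2 (.thr 30 14 (.thr 60 40 (.thr 15 45 (.thr 10 5 (.thr 26 58 (.thr 16 31 (.dbl 48 32 37))))))))))))) (.rp 16 (.thr 34 51 (.thr 25 29 (.thr 46 38 (.thr 22 28 (.thr 20 23 (.thr 62 2 (.thr 30 14 (.thr 26 18 (.thr 10 58 (.thr 15 5 (.dbl 60 40 45))))))))))) .nd)))))))) (.rp 8 (.str 19 (.nv (.thr 25 29 (.thr 22 28 (.thr 23 20 (.thr 31 27 (.dbl 16 18 26)))))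 (.nv (.thr 18 16 (.thr 34 51 (.thr 2 50 (.thr 25 29 (.dbl 22 28 62))))) (.nv (.thr 16 18 (.thr 48 32 (.thr 26 31 (.thr 10 58 (.dbl 15 5 37))))) (.rp 18 (.thr 51 34 (.thr 25 29 (.thr 22 28 (.thr 20 23 (.thr 60 40 (.dbl 3 35 41)))))) (.rp 16 (.thr 51 34 (.thr 25 29 (.thr 22 28 (.thr 20 23 (.thr 60 40 (.dbl 3 35 41)))))) .nd)))))) (.rp 4 (.str 19 (.nv (.thr 25 29 (.thr 22 28 (.thr 23 20 (.thr 31 27 (.dbl 16 18 26))))) (.nv (.thr 18 16 (.thr 34 51 (.thr 2 50 (.thr 25 29 (.dbl 22 28 62))))) (.nv (.thr 16 18 (.thr 48 32 (.thr 26 31 (.thr 10 58 (.dbl 15 5 37))))) (.rp 18 (.thr 51 34 (.thr 25 29 (.thr 22 28 (.thr 20 23 (.thr 60 40 (.dbl 3 35 41)))))) (.rp 16 (.thr 51 34 (.thr 25 29 (.thr 22 28 (.thr 20 23 (.thr 60 40 (.dbl 3 35 41)))))) .nd)))))) .nd))))))))))))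

theorem w119 : WinAt (4398048608257, 9223372045444710402) :=
  chF (K := []) kn c119 4398048608257 9223372045444710402 63
    [562958543486978] (by decide +kernel) (by decide +kernel)

/-- A certificate. -/
noncomputable def c120 : Ct := (.str 16 (.nv (.thr 26 31 (.thr 10 58 (.thr 15 5 (.dbl 48 32 37)))) (.nv (.thr 48 32 (.thr 26 31 (.thr 15 37 (.dbl 10 5 58)))) (.rp 58 (.str 19 (.nv (.thr 48 32 (.thr 17 18 (.thr 25 29 (.thr 22 28 (.thr 23 20 (.dbl 31 26 27)))))) (.nv (.thr 17 18 (.thr 25 29 (.thr 8 59 (.thr 12 4 (.thr 26 31 (.thr 24 27 (.dbl 48 32 36))))))) (.nv (.thr 17 18 (.thr 25 29 (.thr 8 59 (.thr 12 4 (.thr 48 32 (.thr 24 36 (.dbl 28 20 22))))))) (.nv (.thr 31 26 (.thr 23 27 (.thr 22 20 (.thr 25 28 (.dbl 17 18 29))))) (.rp 48 (.str 53 (.nv (.thr 17 18 (.thr 25 29 (.thr 8 59 (.thr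 12 4 (.thr 28 22 (.thr 20 24 (.dbl 60 40 44))))))) (.nv (.thr 31 26 (.thr 23 27 (.thr 22 20 (.thr 25 28 (.dbl 17 18 29))))) (.rp 29 (.thr 18 17 (.thr 26 31 (.thr 22 30 (.thr 28 25 (.dbl 20 23 24))))) (.rp 28 (.thr 17 18 (.thr 5 37 (.thr 31 26 (.thr 15 10 (.thr 27 23 (.thr 25 29 (.thr 8 59 (.thr 51 39 (.dbl 12 4 38))))))))) (.rp 26 (.thr 17 18 (.thr 37 5 (.thr 25 29 (.thr 8 59 (.thr 22 28 (.thr 20 23 (.thr 52 7 (.dbl 4 12 36)))))))) (.rp 25 (.thr 18 17 (.thr 37 5 (.thr 26 31 (.thr 22 30 (.thr 20 23 (.thr 52 7 (.thr 55 54 (.dbl 4 36 38)))))))) (.rp 24 (.thr 17 18 (.thr 31 26 (.thr 23 27 (.thr 25 29 (.dbl 22 20 28))))) (.rp 22 (.thr 17 18 (.thr 5 37 (.thr 26 31 (.thr 25 29 (.thr 27 24 (.thr 8 59 (.thr 15 10 (.thr 51 39 (.dbl 12 4 38))))))))) (.rp 20 (.thr 17 18 (.thr 37 5 (.thr 25 29 (.thr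 8 59 (.thr 22 28 (.thr 52 7 (.thr 55 54 (.dbl 4 12 38)))))))) (.rp 18 (.thr 37 5 (.thr 31 26 (.thr 23 27 (.thr 22 20 (.thr 52 7 (.thr 55 54 (.thr 4 38 (.thr 25 28 (.dbl 8 12 59))))))))) (.rp 17 (.thr 5 37 (.thr 31 26 (.thr 15 10 (.thr 23 27 (.thr 20 22 (.thr 60 40 (.thr 30 45 (.dbl 28 24 29)))))))) .nd)))))))))))) (.rp 29 (.thr 18 17 (.thr 26 31 (.thr 22 30 (.thr 28 25 (.dbl 20 23 24))))) (.rp 28 (.thr 17 18 (.thr 48 32 (.thr 25 29 (.thr 8 59 (.thr 12 4 (.thr 24 36 (.dbl 26 27 31))))))) (.rp 25 (.thr 18 17 (.thr 48 32 (.thr 26 31 (.thr 22 30 (.thr 20 23 (.thr 60 40 (.dbl 3 33 41))))))) (.rp 18 (.thr 31 26 (.thr 23 27 (.thr 22 20 (.thr 25 28 (.thr 8 59 (.thr 4 12 (.thr 55 38 (.thr 7 39 (.thr 37 52 (.dbl 32 47 48)))))))))) (.rp 17 (.thr 48 32 (.thr 31 26 (.thr 23 27 (.thr 20 22 (.thr 40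 60 (.thr 24 28 (.thr 8 56 (.dbl 12 4 36)))))))) .nd))))))))))) (.rp 48 (.str 19 (.nv (.thr 17 18 (.thr 25 29 (.thr 8 59 (.thr 12 4 (.thr 28 22 (.thr 20 24 (.dbl 60 40 44))))))) (.nv (.thr 31 26 (.thr 23 27 (.thr 22 20 (.thr 25 28 (.dbl 17 18 29))))) (.rp 58 (.str 53 (.nv (.thr 17 18 (.thr 25 29 (.thr 8 59 (.thr 12 4 (.thr 28 22 (.thr 20 24 (.dbl 60 40 44))))))) (.nv (.thr 31 26 (.thr 23 27 (.thr 22 20 (.thr 25 28 (.dbl 17 18 29))))) (.rp 29 (.thr 18 17 (.thr 26 31 (.thr 22 30 (.thr 28 25 (.dbl 20 23 24))))) (.rp 28 (.thr 17 18 (.thr 5 37 (.thr 31 26 (.thr 15 10 (.thr 27 23 (.thr 25 29 (.thr 8 59 (.thr 51 39 (.dbl 12 4 38))))))))) (.rp 26 (.thr 17 18 (.thr 37 5 (.thr 25 29 (.thr 8 59 (.thr 22 28 (.thr 20 23 (.thr 52 7 (.dbl 4 12 36)))))))) (.rp 25 (.thr 18 17 (.thr 37 5 (.thr 26 31 (.thr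 22 30 (.thr 20 23 (.thr 52 7 (.thr 55 54 (.dbl 4 36 38)))))))) (.rp 24 (.thr 17 18 (.thr 31 26 (.thr 23 27 (.thr 25 29 (.dbl 22 20 28))))) (.rp 22 (.thr 17 18 (.thr 5 37 (.thr 26 31 (.thr 25 29 (.thr 27 24 (.thr 8 59 (.thr 15 10 (.thr 51 39 (.dbl 12 4 38))))))))) (.rp 20 (.thr 17 18 (.thr 37 5 (.thr 25 29 (.thr 8 59 (.thr 22 28 (.thr 52 7 (.thr 55 54 (.dbl 4 12 38)))))))) (.rp 18 (.thr 37 5 (.thr 31 26 (.thr 23 27 (.thr 22 20 (.thr 52 7 (.thr 55 54 (.thr 4 38 (.thr 25 28 (.dbl 8 12 59))))))))) (.rp 17 (.thr 5 37 (.thr 31 26 (.thr 15 10 (.thr 23 27 (.thr 20 22 (.thr 60 40 (.thr 30 45 (.dbl 28 24 29)))))))) .nd)))))))))))) (.rp 53 (.str 58 (.nv (.dbl 26 10 31) (.rp 31 (.thr 17 18 (.thr 26 10 (.thr 25 29 (.thr 24 27 (.dbl 28 20 22))))) (.rp 26 (.thr 17 18 (.thr 25 29 (.thr 59 8 (.thr 57 56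 (.thr 41 9 (.thr 40 43 (.thr 60 20 (.dbl 22 3 28)))))))) (.rp 10 (.thr 17 18 (.thr 26 31 (.thr 25 29 (.thr 24 27 (.dbl 28 20 22))))) .nd))))) (.rp 29 (.thr 18 17 (.thr 26 31 (.thr 22 30 (.thr 28 25 (.dbl 20 23 24))))) (.rp 28 (.thr 17 18 (.thr 25 29 (.thr 8 59 (.thr 12 4 (.thr 51 38 (.thr 3 35 (.thr 9 6 (.thr 10 11 (.dbl 26 31 58))))))))) (.rp 26 (.thr 17 18 (.thr 25 29 (.thr 8 59 (.thr 22 28 (.thr 20 23 (.thr 60 40 (.thr 3 41 (.thr 51 35 (.dbl 12 4 38))))))))) (.rp 25 (.thr 18 17 (.thr 26 31 (.thr 58 10 (.thr 22 30 (.thr 20 23 (.thr 62 2 (.thr 54 50 (.thr 60 40 (.thr 51 57 (.dbl 3 35 41)))))))))) (.rp 24 (.thr 17 18 (.thr 31 26 (.thr 23 27 (.thr 25 29 (.dbl 22 20 28))))) (.rp 22 (.thr 17 18 (.thr 26 31 (.thr 25 29 (.thr 24 27 (.thr 8 59 (.thr 40 56 (.dbl 20 28 60))))))) (.rp 20 (.thr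 17 18 (.thr 26 31 (.thr 58 10 (.thr 25 29 (.thr 27 24 (.thr 59 8 (.thr 56 57 (.dbl 11 41 43)))))))) (.rp 18 (.thr 31 26 (.thr 23 27 (.thr 22 20 (.thr 25 28 (.thr 8 59 (.thr 4 12 (.thr 55 38 (.thr 7 39 (.thr 37 52 (.dbl 5 6 53)))))))))) (.rp 17 (.thr 31 26 (.thr 23 27 (.thr 22 20 (.thr 25 28 (.thr 8 59 (.thr 4 12 (.thr 55 38 (.thr 7 39 (.thr 37 52 (.dbl 5 6 53)))))))))) .nd)))))))))))))) (.rp 37 (.str 19 (.nv (.thr 17 18 (.thr 25 29 (.thr 22 28 (.thr 23 20 (.dbl 31 26 27))))) (.nv (.thr 17 18 (.thr 25 29 (.thr 8 59 (.thr 12 4 (.thr 26 31 (.thr 24 27 (.dbl 48 32 36))))))) (.nv (.thr 17 18 (.thr 25 29 (.thr 8 59 (.thr 12 4 (.thr 48 32 (.thr 24 36 (.dbl 28 20 22))))))) (.nv (.thr 31 26 (.thr 23 27 (.thr 22 20 (.thr 25 28 (.dbl 17 18 29))))) (.rp 29 (.thr 18 17 (.thr 26 31 (.thr 22 30 (.thr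 28 25 (.dbl 20 23 24))))) (.rp 28 (.thr 17 18 (.thr 48 32 (.thr 25 29 (.thr 8 59 (.thr 12 4 (.thr 24 36 (.dbl 26 27 31))))))) (.rp 25 (.thr 18 17 (.thr 48 32 (.thr 26 31 (.thr 22 30 (.thr 20 23 (.thr 60 40 (.dbl 3 33 41))))))) (.rp 18 (.thr 31 26 (.thr 23 27 (.thr 22 20 (.thr 25 28 (.thr 8 59 (.thr 12 4 (.thr 51 38 (.thr 3 35 (.thr 41 60 (.dbl 9 6 57)))))))))) (.rp 17 (.thr 48 32 (.thr 31 26 (.thr 23 27 (.thr 20 22 (.thr 40 60 (.thr 24 28 (.thr 8 56 (.dbl 12 4 36)))))))) .nd)))))))))) (.rp 32 (.str 19 (.nv (.thr 17 18 (.thr 25 29 (.thr 8 59 (.thr 12 4 (.thr 28 22 (.thr 20 24 (.dbl 60 40 44))))))) (.nv (.thr 31 26 (.thr 23 27 (.thr 22 20 (.thr 25 28 (.dbl 17 18 29))))) (.rp 35 (.str 33 (.nv (.thr 18 17 (.thr 26 31 (.thr 10 58 (.thr 15 5 (.dbl 48 3 37))))) (.nv (.thr 31 26 (.thr 23 27 (.thr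 22 20 (.thr 25 28 (.dbl 17 18 29))))) (.rp 31 (.thr 17 18 (.thr 25 29 (.thr 8 59 (.thr 28 22 (.thr 20 24 (.thr 60 40 (.dbl 12 4 44))))))) (.rp 26 (.thr 17 18 (.thr 25 29 (.thr 8 59 (.thr 22 28 (.thr 20 23 (.thr 60 40 (.thr 3 41 (.thr 12 4 (.thr 6 9 (.dbl 38 51 54)))))))))) (.rp 18 (.thr 31 26 (.thr 23 27 (.thr 22 20 (.thr 25 28 (.thr 8 59 (.thr 4 12 (.thr 55 38 (.thr 7 39 (.thr 37 52 (.dbl 5 6 53)))))))))) (.rp 17 (.thr 26 31 (.thr 10 58 (.thr 15 5 (.thr 48 37 (.thr 18 3 (.thr 22 30 (.thr 28 25 (.dbl 20 23 24)))))))) .nd))))))) (.rp 33 (.str 35 (.nv (.thr 17 18 (.thr 25 29 (.thr 8 59 (.thr 12 4 (.dbl 51 3 38))))) (.nv (.thr 31 26 (.thr 23 27 (.thr 22 20 (.thr 25 28 (.dbl 17 18 29))))) (.rp 29 (.thr 51 3 (.thr 31 26 (.thr 23 27 (.thr 22 20 (.thr 25 28 (.thr 8 59 (.dbl 12 4 38))))))) (.rp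 25 (.thr 3 51 (.thr 26 31 (.thr 10 58 (.thr 15 5 (.thr 11 7 (.thr 41 56 (.thr 40 43 (.dbl 60 20 22)))))))) (.rp 18 (.thr 31 26 (.thr 23 27 (.thr 22 20 (.thr 25 28 (.thr 8 59 (.thr 12 4 (.dbl 51 3 38))))))) (.rp 17 (.str 49 (.nv (.thr 26 31 (.thr 10 58 (.thr 15 5 (.thr 48 37 (.dbl 51 3 50))))) (.nv (.thr 31 26 (.thr 23 27 (.thr 22 20 (.thr 25 28 (.thr 8 59 (.thr 12 4 (.dbl 51 3 38))))))) (.nv (.thr 51 3 (.thr 48 50 (.thr 26 31 (.thr 15 37 (.dbl 10 5 58))))) (.rp 51 (.thr 31 26 (.thr 23 27 (.thr 22 20 (.thr 25 28 (.thr 37 13 (.thr 7 52 (.thr 5 53 (.thr 4 6 (.dbl 8 12 59))))))))) (.rp 31 (.str 15 (.nv (.thr 51 3 (.thr 39 27 (.thr 48 50 (.thr 37 26 (.thr 38 36 (.dbl 25 12 13)))))) (.nv (.thr 5 10 (.thr 37 53 (.thr 25 13 (.thr 28 22 (.thr 24 20 (.dbl 26 27 48)))))) (.nv (.thr 5 10 (.thr 37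 53 (.thr 48 26 (.dbl 51 3 50)))) (.rp 48 (.thr 3 51 (.thr 7 11 (.thr 5 10 (.thr 4 6 (.thr 55 38 (.thr 23 39 (.thr 22 20 (.dbl 37 52 53)))))))) (.rp 37 (.thr 3 51 (.thr 11 7 (.thr 10 5 (.thr 26 58 (.thr 41 56 (.thr 40 43 (.dbl 60 20 22))))))) (.rp 26 (.thr 3 51 (.thr 7 11 (.thr 5 10 (.thr 37 53 (.thr 22 52 (.dbl 25 13 28)))))) .nd))))))) (.rp 26 (.str 25 (.nv (.thr 22 28 (.thr 20 23 (.thr 60 40 (.dbl 3 41 51)))) (.nv (.thr 8 59 (.thr 12 4 (.dbl 51 3 38))) (.rp 51 (.thr 22 28 (.thr 20 23 (.thr 37 13 (.thr 52 7 (.thr 4 36 (.dbl 8 12 59)))))) (.rp 3 (.thr 8 59 (.thr 28 22 (.thr 20 24 (.thr 60 40 (.dbl 12 4 44))))) .nd))))) (.rp 3 (.thr 26 31 (.thr 10 58 (.thr 15 5 (.thr 48 37 (.thr 51 50 (.thr 27 39 (.thr 25 24 (.thr 8 59 (.dbl 12 4 38))))))))) .nd)))))))) .nd))))))) (.rp 29 (.thr 18 17 (.thr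 26 31 (.thr 22 30 (.thr 28 25 (.dbl 20 23 24))))) (.rp 28 (.thr 18 17 (.thr 26 31 (.thr 10 58 (.thr 30 22 (.thr 15 5 (.thr 48 37 (.thr 60 45 (.thr 40 20 (.thr 41 43 (.dbl 56 11 52)))))))))) (.rp 26 (.thr 17 18 (.thr 25 29 (.thr 8 59 (.thr 22 28 (.thr 20 23 (.thr 60 40 (.thr 3 41 (.thr 12 4 (.dbl 51 35 38))))))))) (.rp 25 (.thr 18 17 (.thr 26 31 (.thr 10 58 (.thr 22 30 (.thr 20 23 (.thr 60 40 (.thr 3 41 (.thr 15 5 (.dbl 48 33 37))))))))) (.rp 24 (.thr 17 18 (.thr 31 26 (.thr 23 27 (.thr 25 29 (.dbl 22 20 28))))) (.rp 22 (.thr 17 18 (.thr 26 31 (.thr 25 29 (.thr 24 27 (.thr 8 59 (.thr 40 56 (.dbl 20 28 60))))))) (.rp 20 (.thr 17 18 (.thr 26 31 (.thr 58 10 (.thr 25 29 (.thr 27 24 (.thr 59 8 (.thr 56 57 (.dbl 11 41 43)))))))) (.rp 18 (.thr 31 26 (.thr 23 27 (.thr 22 20 (.thr 25 28 (.thr 8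 59 (.thr 4 12 (.thr 55 38 (.thr 7 39 (.thr 37 52 (.dbl 5 6 53)))))))))) (.rp 17 (.thr 31 26 (.thr 23 27 (.thr 22 20 (.thr 25 28 (.thr 8 59 (.thr 4 12 (.thr 55 38 (.thr 7 39 (.thr 37 52 (.dbl 5 6 53)))))))))) .nd)))))))))))))) (.rp 31 (.str 20 (.nv (.thr 22 23 (.thr 32 48 (.thr 40 60 (.thr 36 44 (.thr 52 4 (.dbl 37 7 47)))))) (.nv (.thr 22 23 (.thr 28 24 (.thr 19 25 (.thr 18 17 (.thr 60 40 (.thr 3 41 (.dbl 48 32 33))))))) (.nv (.thr 60 40 (.thr 48 32 (.thr 52 56 (.thr 36 4 (.dbl 24 12 28))))) (.rp 60 (.thr 28 24 (.thr 48 32 (.thr 22 23 (.thr 19 25 (.thr 18 17 (.thr 26 30 (.thr 10 58 (.dbl 15 5 37)))))))) (.rp 56 (.thr 28 24 (.thr 48 32 (.thr 22 23 (.thr 19 25 (.thr 18 17 (.thr 26 30 (.thr 10 58 (.dbl 15 5 37)))))))) (.rp 48 (.thr 28 24 (.thr 60 40 (.thr 12 44 (.thr 8 4 (.thr 25 59 (.dbl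 22 19 23)))))) (.rp 47 (.str 15 (.nv (.thr 10 5 (.thr 22 23 (.thr 60 40 (.thr 30 45 (.dbl 26 18 58))))) (.nv (.thr 5 10 (.thr 37 53 (.dbl 48 26 32))) (.rp 26 (.thr 24 28 (.thr 40 60 (.thr 8 56 (.thr 12 4 (.dbl 48 32 36))))) (.rp 10 (.thr 22 23 (.thr 60 40 (.thr 30 45 (.thr 26 18 (.dbl 48 32 37))))) (.rp 5 (.thr 22 23 (.thr 60 40 (.thr 30 45 (.thr 26 18 (.dbl 48 32 37))))) .nd)))))) (.rp 40 (.thr 28 24 (.thr 48 32 (.thr 22 23 (.thr 19 25 (.thr 18 17 (.thr 26 30 (.thr 10 58 (.dbl 15 5 37)))))))) (.rp 32 (.thr 24 28 (.thr 40 60 (.thr 8 56 (.thr 12 4 (.thr 48 36 (.thr 25 59 (.thr 26 27 (.thr 15 37 (.dbl 10 5 58))))))))) (.rp 28 (.thr 60 40 (.thr 48 32 (.thr 52 56 (.thr 22 23 (.thr 37 7 (.thr 5 53 (.dbl 15 10 26))))))) (.rp 15 (.str 47 (.nv (.dbl 32 37 48) (.rp 48 (.thr 22 23 (.thr 28 24 (.thr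 60 40 (.thr 12 44 (.thr 8 4 (.dbl 25 19 59)))))) (.rp 37 (.thr 24 28 (.thr 40 60 (.thr 8 56 (.thr 12 4 (.dbl 48 32 36))))) (.rp 32 (.thr 22 23 (.thr 28 24 (.thr 19 25 (.thr 18 17 (.thr 62 2 (.thr 60 40 (.thr 44 12 (.thr 46 45 (.dbl 30 14 26))))))))) .nd))))) .nd)))))))))))) (.rp 26 (.str 22 (.nv (.thr 20 23 (.thr 28 24 (.thr 25 19 (.thr 8 59 (.thr 12 4 (.dbl 60 40 44)))))) (.nv (.thr 2 62 (.thr 32 48 (.thr 37 47 (.thr 52 7 (.thr 53 5 (.thr 55 54 (.thr 4 38 (.dbl 20 23 36)))))))) (.nv (.thr 20 23 (.thr 24 28 (.thr 48 32 (.thr 12 36 (.thr 8 4 (.dbl 40 56 60)))))) (.rp 60 (.thr 32 48 (.thr 20 23 (.thr 37 47 (.thr 53 5 (.thr 52 7 (.thr 4 36 (.dbl 55 38 54))))))) (.rp 23 (.thr 32 48 (.thr 37 47 (.thr 53 5 (.thr 52 7 (.thr 55 54 (.thr 4 38 (.thr 20 36 (.thr 28 24 (.thr 12 8 (.dbl 60 40 44))))))))))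 (.rp 20 (.thr 32 48 (.thr 37 47 (.thr 53 5 (.thr 52 7 (.thr 55 54 (.thr 4 38 (.thr 8 12 (.thr 25 59 (.thr 19 28 (.dbl 17 18 29)))))))))) (.rp 4 (.thr 20 23 (.thr 28 24 (.thr 60 40 (.thr 12 44 (.thr 25 19 (.thr 38 51 (.thr 6 54 (.dbl 3 9 41)))))))) .nd)))))))) (.rp 15 (.str 19 (.nv (.thr 17 18 (.thr 25 29 (.thr 8 59 (.thr 12 4 (.thr 48 32 (.thr 24 36 (.dbl 26 27 31))))))) (.nv (.thr 17 18 (.thr 25 29 (.thr 28 22 (.thr 20 24 (.thr 60 40 (.thr 12 44 (.dbl 8 4 59))))))) (.nv (.thr 31 26 (.thr 23 27 (.thr 22 20 (.thr 25 28 (.dbl 17 18 29))))) (.rp 31 (.str 47 (.nv (.dbl 32 37 48) (.rp 48 (.thr 17 18 (.thr 25 29 (.thr 28 22 (.thr 20 24 (.thr 8 59 (.thr 12 4 (.dbl 60 40 44))))))) (.rp 37 (.thr 17 18 (.thr 25 29 (.thr 28 22 (.thr 24 20 (.thr 8 59 (.thr 12 4 (.dbl 48 32 36))))))) (.rp 32 (.thr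 17 18 (.thr 25 29 (.thr 28 22 (.thr 20 24 (.thr 8 59 (.thr 12 4 (.dbl 60 40 44))))))) .nd))))) (.rp 29 (.thr 18 17 (.thr 32 48 (.thr 26 31 (.thr 47 37 (.thr 22 30 (.thr 28 25 (.dbl 20 23 24))))))) (.rp 26 (.thr 17 18 (.thr 48 32 (.thr 25 29 (.thr 8 59 (.thr 12 4 (.thr 24 36 (.dbl 28 20 22))))))) (.rp 25 (.thr 18 17 (.thr 32 48 (.thr 26 31 (.thr 47 37 (.thr 58 10 (.thr 22 30 (.thr 20 23 (.thr 62 2 (.thr 54 50 (.thr 60 40 (.thr 51 57 (.dbl 3 35 41)))))))))))) (.rp 24 (.thr 17 18 (.thr 31 26 (.thr 23 27 (.thr 25 29 (.dbl 22 20 28))))) (.rp 20 (.thr 17 18 (.thr 25 29 (.thr 8 59 (.thr 22 28 (.thr 12 4 (.thr 51 38 (.thr 3 35 (.thr 41 60 (.dbl 9 6 57))))))))) (.rp 18 (.thr 32 48 (.thr 31 26 (.thr 37 47 (.thr 23 27 (.thr 22 20 (.thr 7 52 (.thr 25 28 (.thr 8 59 (.thr 4 12 (.dbl 55 38 39))))))))))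 (.rp 17 (.thr 48 32 (.thr 31 26 (.thr 23 27 (.thr 20 22 (.thr 40 60 (.thr 24 28 (.thr 8 56 (.dbl 12 4 36)))))))) .nd)))))))))))) (.rp 10 (.str 19 (.nv (.thr 17 18 (.thr 25 29 (.thr 8 59 (.thr 12 4 (.thr 26 31 (.thr 24 27 (.dbl 48 32 36))))))) (.nv (.thr 17 18 (.thr 25 29 (.thr 8 59 (.thr 12 4 (.thr 48 32 (.thr 24 36 (.dbl 28 20 22))))))) (.nv (.thr 31 26 (.thr 23 27 (.thr 22 20 (.thr 25 28 (.dbl 17 18 29))))) (.rp 29 (.thr 18 17 (.thr 26 31 (.thr 22 30 (.thr 28 25 (.dbl 20 23 24))))) (.rp 28 (.thr 17 18 (.thr 48 32 (.thr 25 29 (.thr 8 59 (.thr 12 4 (.thr 24 36 (.dbl 26 27 31))))))) (.rp 25 (.thr 18 17 (.thr 48 32 (.thr 26 31 (.thr 22 30 (.thr 20 23 (.thr 60 40 (.dbl 3 33 41))))))) (.rp 24 (.thr 17 18 (.thr 31 26 (.thr 23 27 (.thr 25 29 (.dbl 22 20 28))))) (.rp 18 (.thr 32 48 (.thr 31 26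 (.thr 23 27 (.thr 22 20 (.thr 37 47 (.thr 7 52 (.thr 55 39 (.thr 4 38 (.dbl 5 6 53))))))))) (.rp 17 (.thr 48 32 (.thr 31 26 (.thr 23 27 (.thr 20 22 (.thr 40 60 (.thr 24 28 (.thr 8 56 (.dbl 12 4 36)))))))) .nd)))))))))) (.rp 5 (.str 19 (.nv (.thr 17 18 (.thr 25 29 (.thr 8 59 (.thr 12 4 (.thr 26 31 (.thr 24 27 (.dbl 48 32 36))))))) (.nv (.thr 17 18 (.thr 25 29 (.thr 8 59 (.thr 12 4 (.thr 48 32 (.thr 24 36 (.dbl 28 20 22))))))) (.nv (.thr 31 26 (.thr 23 27 (.thr 22 20 (.thr 25 28 (.dbl 17 18 29))))) (.rp 29 (.thr 18 17 (.thr 26 31 (.thr 22 30 (.thr 28 25 (.dbl 20 23 24))))) (.rp 28 (.thr 17 18 (.thr 48 32 (.thr 25 29 (.thr 8 59 (.thr 12 4 (.thr 24 36 (.dbl 26 27 31))))))) (.rp 25 (.thr 18 17 (.thr 48 32 (.thr 26 31 (.thr 22 30 (.thr 20 23 (.thr 60 40 (.dbl 3 33 41))))))) (.rp 24 (.thr 17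 18 (.thr 31 26 (.thr 23 27 (.thr 25 29 (.dbl 22 20 28))))) (.rp 18 (.thr 32 48 (.thr 31 26 (.thr 23 27 (.thr 22 20 (.thr 25 28 (.thr 8 59 (.thr 37 47 (.thr 7 52 (.thr 55 39 (.dbl 4 12 38)))))))))) (.rp 17 (.thr 48 32 (.thr 31 26 (.thr 23 27 (.thr 20 22 (.thr 40 60 (.thr 24 28 (.thr 8 56 (.dbl 12 4 36)))))))) (.rp 13 (.str 9 (.nv (.thr 17 18 (.thr 25 29 (.thr 8 59 (.thr 12 4 (.thr 51 38 (.dbl 3 6 35)))))) (.nv (.thr 31 26 (.thr 23 27 (.thr 22 20 (.thr 25 28 (.dbl 17 18 29))))) (.rp 29 (.thr 18 17 (.thr 26 31 (.thr 22 30 (.thr 28 25 (.dbl 20 23 24))))) (.rp 25 (.thr 18 17 (.thr 48 32 (.thr 26 31 (.thr 10 58 (.thr 8 11 (.thr 12 4 (.dbl 3 6 33))))))) (.rp 18 (.thr 26 31 (.thr 10 58 (.thr 8 11 (.thr 25 59 (.thr 28 22 (.dbl 24 20 27)))))) (.rp 17 (.thr 26 31 (.thr 10 58 (.thr 8 11 (.thr 25 59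 (.thr 28 22 (.dbl 24 20 27)))))) .nd))))))) (.rp 9 (.str 13 (.nv (.thr 17 18 (.thr 25 29 (.thr 32 48 (.dbl 37 47 49)))) (.nv (.thr 31 26 (.thr 23 27 (.thr 22 20 (.thr 25 28 (.dbl 17 18 29))))) (.rp 29 (.thr 26 31 (.thr 18 17 (.thr 22 30 (.thr 28 25 (.dbl 20 23 24))))) (.rp 25 (.thr 26 31 (.thr 18 17 (.thr 22 30 (.thr 20 23 (.thr 60 40 (.thr 48 32 (.dbl 3 33 41))))))) (.rp 18 (.thr 31 26 (.thr 23 27 (.thr 22 20 (.thr 25 28 (.thr 37 49 (.dbl 32 47 48)))))) (.rp 17 (.thr 31 26 (.thr 23 27 (.thr 22 20 (.thr 25 28 (.thr 32 48 (.dbl 37 47 49)))))) .nd))))))) .nd)))))))))))) .nd))))))))))))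

theorem w120 : WinAt (4398048608257, 9223372054034644994) :=
  chF (K := []) kn c120 4398048608257 9223372054034644994 63
    [] (by decide +kernel) (by decide +kernel)

/-- A certificate. -/
noncomputable def c121 : Ct := (.str 12 (.nv (.thr 8 4 (.thr 25 59 (.thr 51 38 (.dbl 17 29 34)))) (.nv (.thr 4 8 (.thr 38 55 (.thr 51 25 (.dbl 34 17 46)))) (.rp 51 (.thr 8 4 (.thr 59 25 (.str 26 (.nv (.thr 16 31 (.thr 48 32 (.thr 24 36 (.thr 20 28 (.dbl 40 56 60))))) (.nv (.thr 16 31 (.thr 10 58 (.thr 48 32 (.dbl 15 5 37)))) (.nv (.thr 58 10 (.thr 56 57 (.thr 41 11 (.dbl 40 24 43)))) (.rp 19 (.str 3 (.nv (.thr 10 58 (.thr 16 31 (.thr 48 32 (.dbl 15 5 37)))) (.nv (.thr 9 6 (.dbl 10 11 58)) (.rp 58 (.thr 9 6 (.thr 11 10 (.thr 43 27 (.dbl 41 40 56)))) (.rp 28 (.str 22 (.nv (.thr 9 6 (.dbl 10 11 58))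 (.nv (.thr 20 23 (.dbl 60 40 41)) .nd))) (.rp 22 (.str 28 (.nv (.thr 16 31 (.thr 20 24 (.dbl 60 40 44))) (.nv (.thr 10 58 (.dbl 9 6 11)) .nd))) (.rp 10 (.thr 16 31 (.thr 48 32 (.thr 24 36 (.thr 40 56 (.dbl 20 28 60))))) (.rp 5 (.thr 10 58 (.dbl 9 6 11)) .nd)))))))) (.rp 3 (.str 19 (.nv (.thr 16 31 (.thr 48 32 (.thr 24 36 (.thr 20 28 (.dbl 40 56 60))))) (.nv (.thr 16 31 (.thr 10 58 (.thr 48 32 (.dbl 15 5 37)))) (.nv (.thr 58 10 (.thr 56 57 (.thr 40 24 (.dbl 41 11 43)))) (.rp 43 (.str 23 (.nv (.dbl 31 16 27) (.rp 47 (.str 39 (.nv (.dbl 31 16 27) (.rp 31 (.str 15 (.nv (.thr 7 55 (.thr 22 20 (.dbl 37 48 52))) (.nv (.dbl 10 5 58) .nd))) (.rp 27 (.thr 22 20 (.thr 18 30 (.dbl 16 17 31))) (.rp 16 (.thr 58 10 (.thr 20 22 (.thr 56 57 (.dbl 40 24 60)))) .nd))))) (.rp 39 (.str 47 (.nv (.thr 10 58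 (.thr 15 5 (.dbl 37 32 48))) (.nv (.dbl 31 16 27) (.rp 27 (.str 15 (.nv (.dbl 37 32 48) (.nv (.dbl 10 5 58) .nd))) (.rp 15 (.thr 27 31 (.thr 58 10 (.thr 20 22 (.thr 56 57 (.dbl 40 24 60))))) .nd))))) (.rp 31 (.thr 20 22 (.thr 58 10 (.thr 56 57 (.dbl 40 24 60)))) (.rp 27 (.thr 16 31 (.thr 18 17 (.dbl 22 20 30))) (.rp 16 (.thr 20 22 (.thr 58 10 (.thr 56 57 (.dbl 40 24 60)))) .nd))))))) (.rp 23 (.str 43 (.nv (.thr 10 58 (.thr 15 5 (.thr 16 31 (.dbl 48 32 37)))) (.nv (.thr 41 40 (.dbl 11 27 56)) .nd))) .nd)))))) .nd)))))))) (.rp 38 (.str 41 (.nv (.thr 4 8 (.thr 40 43 (.thr 20 60 (.thr 36 52 (.thr 48 24 (.dbl 32 16 44)))))) (.nv (.thr 8 4 (.thr 43 40 (.thr 59 25 (.thr 11 27 (.thr 26 56 (.dbl 10 9 58)))))) (.rp 43 (.thr 8 4 (.thr 25 59 (.thr 57 9 (.thr 17 29 (.thr 51 34 (.thr 60 54 (.thr 28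 44 (.dbl 22 3 19)))))))) (.rp 40 (.thr 8 4 (.thr 25 59 (.thr 9 57 (.thr 10 11 (.thr 15 5 (.thr 14 13 (.dbl 6 2 3))))))) (.rp 8 (.thr 40 43 (.thr 60 20 (.thr 44 28 (.thr 32 36 (.thr 16 48 (.thr 26 31 (.thr 11 56 (.thr 3 22 (.thr 15 7 (.dbl 10 5 58)))))))))) (.rp 4 (.thr 40 43 (.thr 60 20 (.thr 44 28 (.thr 36 32 (.thr 24 48 (.thr 8 56 (.thr 25 59 (.thr 3 22 (.dbl 9 6 57))))))))) .nd))))))) (.rp 34 (.str 32 (.nv (.thr 8 4 (.thr 25 59 (.thr 37 47 (.thr 13 49 (.thr 15 14 (.dbl 5 10 53)))))) (.nv (.thr 4 8 (.thr 48 16 (.thr 36 24 (.thr 20 52 (.dbl 40 44 60))))) (.nv (.thr 48 16 (.thr 37 47 (.thr 15 26 (.dbl 5 10 53)))) .nd)))) (.rp 25 (.str 15 (.nv (.thr 8 4 (.thr 10 5 (.thr 9 11 (.thr 6 3 (.dbl 14 2 13))))) (.nv (.thr 5 10 (.thr 37 53 (.thr 48 26 (.dbl 32 16 47)))) (.rp 10 (.thr 14 13 (.thr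 4 8 (.thr 38 55 (.thr 26 50 (.thr 16 31 (.dbl 48 32 37)))))) (.rp 5 (.thr 4 8 (.thr 38 55 (.thr 34 46 (.thr 51 17 (.thr 39 27 (.thr 37 36 (.thr 32 47 (.dbl 48 16 26)))))))) .nd))))) (.rp 17 (.thr 4 8 (.str 44 (.nv (.thr 38 55 (.thr 46 34 (.thr 47 45 (.thr 32 37 (.thr 36 40 (.dbl 48 16 24)))))) (.nv (.thr 38 55 (.thr 51 25 (.thr 60 28 (.thr 20 40 (.thr 22 23 (.dbl 54 6 57)))))) (.nv (.thr 38 55 (.thr 46 34 (.thr 47 45 (.thr 32 37 (.thr 40 36 (.dbl 60 20 28)))))) (.rp 55 (.thr 60 28 (.thr 20 40 (.thr 52 36 (.thr 22 23 (.thr 7 37 (.thr 6 5 (.dbl 3 9 41))))))) (.rp 51 (.thr 60 28 (.thr 20 40 (.thr 22 23 (.thr 3 41 (.thr 6 9 (.dbl 38 54 55)))))) (.rp 49 (.str 33 (.nv (.thr 38 55 (.thr 46 34 (.thr 47 45 (.thr 32 37 (.thr 36 40 (.dbl 48 16 24)))))) (.nv (.thr 38 55 (.thr 46 34 (.thr 45 47 (.thr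 37 41 (.thr 60 28 (.thr 15 30 (.dbl 5 10 53))))))) (.nv (.thr 60 28 (.thr 20 40 (.thr 22 23 (.thr 3 41 (.thr 36 52 (.dbl 48 18 24)))))) .nd)))) (.rp 40 (.thr 60 28 (.thr 38 55 (.thr 46 34 (.thr 45 47 (.thr 15 30 (.thr 14 13 (.thr 26 50 (.dbl 10 5 58)))))))) (.rp 38 (.thr 60 28 (.thr 20 40 (.thr 52 36 (.thr 22 23 (.thr 37 7 (.thr 32 47 (.dbl 48 16 56))))))) (.rp 33 (.str 49 (.nv (.thr 38 55 (.thr 51 25 (.thr 48 50 (.thr 32 16 (.thr 46 34 (.dbl 47 37 45)))))) (.nv (.thr 38 55 (.thr 60 28 (.thr 20 40 (.thr 22 23 (.thr 3 41 (.dbl 6 9 54)))))) (.nv (.thr 38 55 (.thr 51 25 (.thr 48 50 (.thr 32 16 (.dbl 36 24 40))))) (.rp 55 (.thr 60 28 (.thr 40 20 (.thr 32 36 (.thr 37 47 (.thr 25 13 (.thr 51 38 (.dbl 48 16 50))))))) (.rp 51 (.thr 60 28 (.thr 20 40 (.thr 22 23 (.thr 3 41 (.thr 6 9 (.dbl 38 54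 55)))))) (.rp 38 (.thr 60 28 (.thr 40 20 (.thr 32 36 (.thr 37 47 (.thr 13 25 (.thr 5 53 (.dbl 15 10 14))))))) (.rp 34 (.str 32 (.nv (.thr 37 47 (.thr 25 13 (.dbl 38 51 55))) (.nv (.thr 40 36 (.dbl 60 20 28)) .nd))) (.rp 32 (.str 34 (.nv (.dbl 38 46 55) (.rp 55 (.thr 60 28 (.thr 20 40 (.thr 52 36 (.thr 38 46 (.thr 51 25 (.dbl 48 50 56)))))) (.rp 46 (.thr 60 28 (.thr 20 40 (.thr 52 36 (.thr 38 55 (.thr 51 25 (.dbl 48 50 56)))))) (.rp 38 (.thr 60 28 (.thr 20 40 (.thr 52 36 (.thr 22 23 (.thr 2 62 (.thr 50 18 (.dbl 48 51 56))))))) .nd))))) .nd))))))))) .nd))))))))))) (.rp 8 (.str 37 (.nv (.thr 32 47 (.thr 48 16 (.thr 15 26 (.dbl 5 10 53)))) (.nv (.thr 5 53 (.thr 15 10 (.thr 13 14 (.thr 25 49 (.thr 17 29 (.dbl 51 34 38)))))) (.nv (.thr 5 53 (.thr 15 10 (.thr 48 26 (.dbl 32 16 47)))) (.rp 53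 (.thr 32 47 (.thr 48 16 (.thr 15 26 (.thr 13 14 (.thr 25 49 (.thr 17 29 (.dbl 51 34 38))))))) (.rp 48 (.str 15 (.nv (.dbl 5 10 53) (.rp 58 (.thr 53 5 (.thr 13 14 (.thr 25 49 (.thr 17 29 (.dbl 51 34 38))))) (.rp 53 (.str 58 (.nv (.dbl 10 5 26) (.rp 26 (.thr 13 14 (.thr 25 49 (.thr 17 29 (.dbl 51 34 38)))) (.rp 10 (.thr 13 14 (.thr 25 49 (.thr 17 29 (.dbl 51 34 38)))) (.rp 5 (.thr 13 14 (.thr 25 49 (.thr 17 29 (.dbl 51 34 38)))) .nd))))) (.rp 10 (.thr 13 14 (.thr 25 49 (.thr 17 29 (.dbl 51 34 38)))) (.rp 5 (.thr 13 14 (.thr 25 49 (.thr 17 29 (.dbl 51 34 38)))) .nd)))))) (.rp 15 (.thr 47 32 (.str 38 (.nv (.thr 34 46 (.dbl 51 17 25)) (.rp 51 (.thr 39 36 (.thr 55 4 (.thr 7 23 (.thr 53 5 (.dbl 52 22 54))))) (.rp 46 (.thr 39 36 (.thr 55 4 (.thr 7 23 (.thr 53 5 (.dbl 52 22 54))))) (.rp 34 (.str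 33 (.nv (.thr 45 41 (.thr 25 51 (.thr 29 17 (.dbl 13 49 61)))) (.nv (.thr 53 5 (.thr 55 4 (.thr 52 54 (.thr 7 22 (.dbl 39 23 36))))) (.rp 55 (.thr 41 45 (.thr 36 39 (.thr 40 43 (.thr 60 20 (.thr 3 22 (.dbl 48 18 24)))))) (.rp 39 (.thr 41 45 (.thr 40 43 (.thr 51 25 (.thr 60 20 (.thr 54 57 (.dbl 22 3 6)))))) (.rp 13 (.thr 41 45 (.thr 36 39 (.thr 40 43 (.thr 4 55 (.dbl 20 52 60))))) .nd)))))) (.rp 25 (.thr 39 36 (.thr 55 4 (.thr 7 23 (.thr 53 5 (.dbl 52 22 54))))) (.rp 17 (.thr 39 36 (.thr 55 4 (.thr 7 23 (.thr 53 5 (.dbl 52 22 54))))) .nd)))))))) (.rp 10 (.thr 32 47 (.thr 48 16 (.thr 15 26 (.thr 13 14 (.thr 25 49 (.thr 17 29 (.dbl 51 34 38))))))) (.rp 5 (.thr 32 47 (.thr 48 16 (.thr 15 26 (.thr 13 14 (.thr 25 49 (.thr 17 29 (.dbl 51 34 38))))))) .nd))))))))) (.rp 4 (.str 37 (.nv (.thr 5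 53 (.thr 15 10 (.thr 13 14 (.thr 25 49 (.thr 17 29 (.dbl 51 34 38)))))) (.nv (.thr 5 53 (.thr 15 10 (.thr 48 26 (.dbl 32 16 47)))) (.rp 58 (.thr 32 47 (.thr 5 53 (.thr 48 16 (.dbl 15 10 26)))) (.rp 53 (.thr 32 47 (.thr 48 16 (.thr 15 26 (.thr 13 14 (.thr 25 49 (.thr 17 29 (.dbl 51 34 38))))))) (.rp 48 (.str 15 (.nv (.dbl 5 10 53) (.rp 58 (.thr 53 5 (.thr 13 14 (.thr 25 49 (.thr 17 29 (.dbl 51 34 38))))) (.rp 53 (.str 58 (.nv (.dbl 10 5 26) (.rp 26 (.thr 13 14 (.thr 25 49 (.thr 17 29 (.dbl 51 34 38)))) (.rp 10 (.thr 13 14 (.thr 25 49 (.thr 17 29 (.dbl 51 34 38)))) (.rp 5 (.thr 13 14 (.thr 25 49 (.thr 17 29 (.dbl 51 34 38)))) .nd))))) (.rp 10 (.thr 13 14 (.thr 25 49 (.thr 17 29 (.dbl 51 34 38)))) (.rp 5 (.thr 13 14 (.thr 25 49 (.thr 17 29 (.dbl 51 34 38)))) .nd)))))) (.rp 15 (.thr 47 32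 (.str 34 (.nv (.thr 38 46 (.dbl 51 17 25)) (.rp 51 (.thr 46 38 (.thr 44 45 (.thr 60 28 (.thr 20 40 (.thr 22 23 (.thr 2 62 (.thr 18 50 (.thr 3 41 (.thr 52 7 (.dbl 48 33 56)))))))))) (.rp 46 (.thr 51 17 (.thr 25 38 (.thr 49 13 (.thr 50 48 (.thr 2 18 (.thr 22 62 (.thr 20 23 (.thr 60 40 (.dbl 28 19 44))))))))) (.rp 38 (.str 45 (.nv (.thr 44 46 (.thr 60 28 (.thr 40 20 (.dbl 41 33 43)))) (.nv (.thr 41 33 (.thr 44 46 (.thr 60 28 (.dbl 40 20 43)))) (.rp 60 (.thr 41 33 (.thr 43 40 (.thr 17 51 (.thr 25 29 (.thr 59 8 (.thr 57 9 (.thr 56 58 (.dbl 11 26 27)))))))) (.rp 46 (.thr 41 33 (.thr 40 43 (.thr 17 51 (.thr 25 29 (.thr 9 57 (.thr 3 6 (.dbl 60 20 22))))))) (.rp 44 (.thr 41 33 (.thr 40 43 (.thr 17 51 (.thr 25 29 (.thr 9 57 (.thr 3 6 (.dbl 60 20 22))))))) (.rp 43 (.thr 41 33 (.thr 44 46 (.thr 60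 28 (.thr 20 40 (.dbl 22 3 23))))) (.rp 41 (.thr 44 46 (.thr 51 17 (.thr 53 5 (.thr 60 28 (.thr 20 40 (.thr 22 23 (.thr 54 57 (.dbl 52 7 55)))))))) (.rp 40 (.thr 41 33 (.thr 44 46 (.thr 17 51 (.thr 25 29 (.thr 9 57 (.thr 3 6 (.dbl 60 22 28))))))) (.rp 33 (.thr 44 46 (.thr 17 51 (.thr 25 29 (.thr 28 60 (.thr 19 22 (.thr 16 18 (.thr 26 31 (.dbl 24 20 27)))))))) (.rp 28 (.thr 41 33 (.thr 40 43 (.thr 17 51 (.thr 25 29 (.thr 9 57 (.thr 3 6 (.dbl 60 20 22))))))) (.rp 20 (.thr 41 33 (.thr 44 46 (.thr 17 51 (.thr 25 29 (.thr 9 57 (.thr 3 6 (.dbl 60 22 28))))))) .nd)))))))))))) (.rp 25 (.thr 46 38 (.thr 44 45 (.thr 51 17 (.thr 53 5 (.thr 60 28 (.thr 20 40 (.thr 22 23 (.thr 54 57 (.dbl 52 7 55))))))))) (.rp 17 (.thr 46 38 (.thr 44 45 (.thr 60 28 (.thr 20 40 (.thr 22 23 (.thr 2 62 (.thr 18 50 (.thr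 3 41 (.thr 52 7 (.dbl 48 33 56)))))))))) .nd)))))))) (.rp 10 (.thr 32 47 (.thr 48 16 (.thr 15 26 (.thr 13 14 (.thr 25 49 (.thr 17 29 (.dbl 51 34 38))))))) (.rp 5 (.thr 32 47 (.thr 48 16 (.thr 15 26 (.thr 13 14 (.thr 25 49 (.thr 17 29 (.dbl 51 34 38))))))) .nd))))))))) .nd))))))))))

theorem w121 : WinAt (4398048608257, 9223372071214514178) :=
  chF (K := []) kn c121 4398048608257 9223372071214514178 63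
    [] (by decide +kernel) (by decide +kernel)

/-- A certificate. -/
noncomputable def c122 : Ct := (.str 26 (.nv (.thr 16 31 (.thr 48 32 (.thr 37 15 (.dbl 53 5 58)))) (.nv (.thr 31 16 (.thr 15 47 (.thr 5 10 (.dbl 37 48 53)))) (.rp 53 (.str 18 (.nv (.thr 16 31 (.thr 22 30 (.thr 23 20 (.thr 3 43 (.dbl 48 32 33))))) (.nv (.thr 16 31 (.thr 17 19 (.thr 48 32 (.thr 51 34 (.thr 50 49 (.thr 38 14 (.dbl 55 4 59))))))) (.nv (.thr 22 30 (.thr 16 31 (.thr 20 23 (.thr 19 17 (.dbl 28 24 25))))) (.rp 33 (.thr 22 30 (.thr 16 31 (.thr 20 23 (.thr 28 24 (.dbl 19 17 25))))) (.rp 31 (.thr 22 30 (.thr 23 20 (.thr 3 43 (.thr 41 60 (.thr 11 56 (.thr 15 7 (.dbl 48 33 37))))))) (.rp 23 (.thr 30 22 (.thr 31 16 (.thr 29 28 (.thr 25 17 (.thr 12 46 (.thr 4 8 (.dbl 38 51 55))))))) (.rp 16 (.thr 22 30 (.thr 23 20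 (.thr 3 43 (.thr 41 60 (.thr 11 56 (.thr 15 7 (.dbl 48 33 37))))))) .nd)))))))) (.rp 48 (.str 12 (.nv (.thr 31 16 (.thr 15 47 (.thr 14 13 (.thr 38 50 (.dbl 4 8 55))))) (.nv (.thr 4 8 (.thr 29 46 (.thr 38 55 (.dbl 25 17 51)))) (.rp 55 (.thr 31 16 (.thr 29 46 (.thr 30 28 (.thr 15 47 (.thr 13 14 (.dbl 45 60 61)))))) (.rp 51 (.thr 31 16 (.thr 4 8 (.thr 15 47 (.thr 14 13 (.dbl 38 50 55))))) (.rp 38 (.thr 31 16 (.thr 8 4 (.thr 15 47 (.thr 14 13 (.thr 10 5 (.thr 9 11 (.dbl 6 2 3))))))) (.rp 8 (.thr 31 16 (.thr 29 46 (.thr 30 28 (.thr 15 47 (.thr 13 14 (.dbl 45 60 61)))))) (.rp 4 (.thr 31 16 (.thr 29 46 (.thr 30 28 (.thr 15 47 (.thr 13 14 (.dbl 45 60 61)))))) .nd)))))))) (.rp 37 (.thr 31 16 (.thr 47 15 (.str 25 (.nv (.thr 29 17 (.thr 28 30 (.thr 19 22 (.dbl 27 23 24)))) (.nv (.thr 17 29 (.thr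 51 34 (.thr 55 59 (.dbl 38 4 12)))) (.rp 39 (.str 38 (.nv (.thr 51 12 (.dbl 55 4 59)) (.nv (.thr 17 29 (.dbl 51 12 34)) (.rp 51 (.thr 27 24 (.thr 19 23 (.thr 29 17 (.dbl 28 22 30)))) (.rp 12 (.thr 17 29 (.thr 55 4 (.dbl 51 34 59))) .nd))))) (.rp 38 (.str 39 (.nv (.thr 29 17 (.thr 28 30 (.thr 43 35 (.thr 23 3 (.dbl 22 19 20))))) (.nv (.thr 17 29 (.thr 27 24 (.thr 43 35 (.thr 59 11 (.dbl 51 34 55))))) (.nv (.thr 27 24 (.thr 19 23 (.thr 29 17 (.dbl 28 22 30)))) (.nv (.thr 43 35 (.thr 23 3 (.dbl 27 19 24))) (.rp 46 (.str 34 (.nv (.thr 27 24 (.thr 43 35 (.dbl 23 3 19))) (.nv (.dbl 17 29 51) .nd))) (.rp 34 (.str 46 (.nv (.thr 43 35 (.thr 23 3 (.dbl 27 19 24))) (.nv (.dbl 29 12 17) .nd))) .nd))))))) (.rp 29 (.thr 27 24 (.thr 23 19 (.thr 43 3 (.thr 11 59 (.thr 41 56 (.thr 35 39 (.thr 38 44 (.thr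 4 55 (.dbl 12 8 51))))))))) (.rp 17 (.thr 27 24 (.thr 19 23 (.thr 28 22 (.thr 29 30 (.thr 12 46 (.thr 4 8 (.dbl 38 51 55))))))) .nd))))))))) (.rp 32 (.thr 31 16 (.thr 15 47 (.thr 37 48 (.dbl 5 10 53)))) (.rp 31 (.str 12 (.nv (.thr 4 8 (.thr 38 55 (.thr 14 50 (.thr 15 13 (.thr 5 10 (.dbl 37 48 53)))))) (.nv (.thr 4 8 (.thr 29 46 (.thr 38 55 (.dbl 25 17 51)))) (.rp 59 (.thr 29 46 (.thr 25 17 (.thr 4 8 (.dbl 38 51 55)))) (.rp 55 (.thr 29 46 (.thr 25 17 (.thr 38 51 (.thr 14 50 (.thr 15 13 (.thr 5 10 (.dbl 37 48 53))))))) (.rp 38 (.str 37 (.nv (.thr 15 48 (.thr 13 14 (.thr 25 49 (.dbl 29 17 46)))) (.nv (.thr 5 53 (.dbl 15 10 48)) (.rp 48 (.thr 5 53 (.thr 15 10 (.thr 13 14 (.thr 25 49 (.dbl 29 17 46))))) (.rp 46 (.str 34 (.nv (.thr 15 48 (.thr 13 14 (.thr 17 51 (.dbl 25 29 49)))) (.nv (.thr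 5 53 (.dbl 15 10 48)) (.rp 48 (.thr 5 53 (.thr 17 51 (.thr 15 10 (.thr 13 14 (.dbl 25 29 49))))) (.rp 15 (.thr 53 5 (.thr 51 17 (.thr 48 58 (.thr 32 16 (.thr 50 49 (.thr 33 35 (.dbl 18 2 3))))))) .nd))))) (.rp 34 (.thr 46 29 (.thr 5 53 (.dbl 15 10 48))) (.rp 15 (.thr 5 53 (.thr 4 8 (.thr 46 29 (.thr 7 6 (.thr 22 52 (.thr 20 23 (.thr 60 40 (.thr 62 61 (.dbl 30 14 18))))))))) .nd))))))) (.rp 25 (.str 30 (.nv (.thr 22 18 (.thr 23 20 (.thr 3 43 (.thr 6 9 (.thr 38 54 (.dbl 4 8 55)))))) (.nv (.thr 46 29 (.thr 62 14 (.thr 60 61 (.thr 45 15 (.dbl 44 28 47))))) (.rp 59 (.thr 8 4 (.thr 22 18 (.thr 20 23 (.thr 60 40 (.thr 62 61 (.dbl 46 14 29)))))) (.rp 8 (.str 59 (.nv (.thr 22 18 (.thr 20 23 (.thr 60 40 (.thr 15 45 (.thr 5 10 (.dbl 37 48 53)))))) (.nv (.thr 55 51 (.thr 46 29 (.thr 14 62 (.dbl 38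 4 50)))) (.rp 22 (.thr 55 51 (.thr 46 29 (.thr 38 4 (.dbl 14 50 62)))) .nd)))) .nd))))) (.rp 8 (.thr 29 46 (.thr 25 17 (.thr 38 51 (.thr 14 50 (.thr 15 13 (.thr 5 10 (.dbl 37 48 53))))))) (.rp 4 (.thr 29 46 (.thr 25 17 (.thr 38 51 (.thr 14 50 (.thr 15 13 (.thr 5 10 (.dbl 37 48 53))))))) .nd))))))))) (.rp 16 (.str 12 (.nv (.thr 4 8 (.thr 38 55 (.thr 14 50 (.thr 15 13 (.thr 5 10 (.dbl 37 48 53)))))) (.nv (.thr 4 8 (.thr 29 46 (.thr 38 55 (.dbl 25 17 51)))) (.rp 59 (.thr 29 46 (.thr 25 17 (.thr 4 8 (.dbl 38 51 55)))) (.rp 55 (.thr 29 46 (.thr 25 17 (.thr 38 51 (.thr 14 50 (.thr 15 13 (.thr 5 10 (.dbl 37 48 53))))))) (.rp 38 (.thr 46 29 (.str 37 (.nv (.thr 5 53 (.dbl 15 10 48)) (.rp 53 (.thr 15 48 (.thr 47 31 (.thr 14 13 (.thr 30 62 (.dbl 45 44 60))))) (.rp 48 (.thr 5 53 (.thr 15 10 (.thr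 47 31 (.thr 14 13 (.thr 30 62 (.dbl 45 44 60)))))) (.rp 15 (.thr 5 53 (.thr 4 8 (.thr 7 6 (.thr 22 52 (.thr 20 23 (.thr 30 18 (.thr 62 14 (.dbl 60 40 61)))))))) (.rp 10 (.thr 53 5 (.dbl 48 15 58)) (.rp 5 (.thr 15 48 (.thr 47 31 (.thr 45 44 (.thr 30 60 (.dbl 14 13 62))))) .nd)))))))) (.rp 25 (.str 30 (.nv (.thr 8 4 (.thr 22 18 (.thr 20 23 (.thr 46 29 (.thr 60 40 (.dbl 62 14 61)))))) (.nv (.thr 22 18 (.thr 23 20 (.thr 3 43 (.thr 6 9 (.thr 38 54 (.dbl 4 8 55)))))) (.nv (.thr 46 29 (.thr 62 14 (.thr 60 61 (.thr 45 15 (.dbl 44 28 47))))) (.rp 8 (.str 59 (.nv (.thr 22 18 (.thr 20 23 (.thr 60 40 (.thr 15 45 (.thr 5 10 (.dbl 37 48 53)))))) (.nv (.thr 55 51 (.thr 46 29 (.thr 14 62 (.dbl 38 4 50)))) (.rp 22 (.thr 55 51 (.thr 46 29 (.thr 38 4 (.dbl 14 50 62)))) .nd)))) .nd))))) (.rp 8 (.thr 29 46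 (.thr 25 17 (.thr 38 51 (.thr 14 50 (.thr 15 13 (.thr 5 10 (.dbl 37 48 53))))))) (.rp 4 (.thr 29 46 (.thr 25 17 (.thr 38 51 (.thr 14 50 (.thr 15 13 (.thr 5 10 (.dbl 37 48 53))))))) .nd))))))))) (.rp 15 (.str 18 (.nv (.thr 16 31 (.thr 22 30 (.thr 23 20 (.thr 3 43 (.dbl 48 32 33))))) (.nv (.thr 16 31 (.thr 17 19 (.thr 48 32 (.thr 51 34 (.thr 50 49 (.thr 38 14 (.dbl 55 4 59))))))) (.nv (.thr 22 30 (.thr 16 31 (.thr 20 23 (.thr 19 17 (.dbl 28 24 25))))) (.rp 33 (.thr 22 30 (.thr 16 31 (.thr 20 23 (.thr 28 24 (.dbl 19 17 25))))) (.rp 31 (.thr 22 30 (.thr 23 20 (.thr 3 43 (.thr 48 33 (.thr 53 58 (.thr 37 5 (.thr 52 7 (.dbl 60 41 56)))))))) (.rp 23 (.thr 30 22 (.thr 31 16 (.thr 29 28 (.thr 25 17 (.thr 12 46 (.thr 4 8 (.dbl 38 51 55))))))) (.rp 16 (.thr 22 30 (.thr 23 20 (.thr 3 43 (.thr 48 33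 (.thr 53 58 (.thr 37 5 (.thr 52 7 (.dbl 60 41 56)))))))) .nd)))))))) (.rp 5 (.thr 31 16 (.thr 15 47 (.thr 37 48 (.str 12 (.nv (.thr 4 8 (.thr 29 46 (.thr 25 17 (.dbl 38 51 55)))) (.nv (.thr 4 8 (.thr 38 55 (.dbl 14 13 50))) (.nv (.thr 13 14 (.thr 25 49 (.dbl 29 17 46))) (.rp 25 (.thr 13 14 (.thr 29 46 (.thr 45 61 (.dbl 30 28 60)))) (.rp 13 (.str 9 (.nv (.thr 29 46 (.thr 25 17 (.thr 27 24 (.thr 28 30 (.dbl 19 22 23))))) (.nv (.thr 8 4 (.thr 11 10 (.dbl 3 6 7))) .nd))) .nd))))))))) .nd)))))))))))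

theorem w122 : WinAt (9223372036856872961, 4466765987842) :=
  chF (K := []) kn c122 9223372036856872961 4466765987842 42
    [] (by decide +kernel) (by decide +kernel)

/-- A certificate. -/
noncomputable def c123 : Ct := (.str 4 (.nv (.thr 12 8 (.thr 38 55 (.thr 34 46 (.dbl 51 17 25)))) (.rp 59 (.thr 12 8 (.thr 38 55 (.thr 51 25 (.dbl 34 17 46)))) (.rp 55 (.thr 12 8 (.str 20 (.nv (.thr 36 52 (.thr 24 48 (.thr 60 40 (.dbl 28 16 44)))) (.nv (.thr 22 23 (.thr 60 40 (.thr 28 44 (.thr 25 19 (.thr 17 29 (.dbl 51 34 38)))))) (.nv (.thr 60 40 (.thr 28 44 (.thr 24 16 (.dbl 36 48 52)))) (.rp 60 (.thr 36 52 (.thr 48 24 (.thr 16 32 (.thr 26 31 (.thr 58 10 (.thr 22 23 (.thr 30 18 (.thr 62 2 (.thr 14 46 (.dbl 50 38 54)))))))))) (.rp 59 (.str 51 (.nv (.thr 36 52 (.thr 24 48 (.thr 28 16 (.dbl 60 40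 44)))) (.nv (.thr 17 34 (.dbl 25 29 38)) .nd))) (.rp 51 (.str 59 (.nv (.thr 36 52 (.thr 24 48 (.thr 60 40 (.dbl 28 16 44)))) (.nv (.thr 60 40 (.thr 28 44 (.thr 24 16 (.dbl 36 48 52)))) (.rp 60 (.thr 22 23 (.thr 62 2 (.thr 36 52 (.thr 48 24 (.thr 16 32 (.thr 26 31 (.thr 30 18 (.thr 10 58 (.thr 15 5 (.dbl 14 13 46)))))))))) (.rp 52 (.thr 22 23 (.thr 2 62 (.thr 60 40 (.thr 3 41 (.thr 6 9 (.thr 10 14 (.dbl 5 7 15))))))) (.rp 48 (.thr 22 23 (.thr 2 62 (.thr 60 40 (.thr 3 41 (.thr 6 9 (.thr 10 14 (.dbl 5 7 15))))))) (.rp 44 (.thr 22 23 (.thr 2 62 (.thr 60 40 (.thr 3 41 (.thr 6 9 (.thr 10 14 (.dbl 5 7 15))))))) (.rp 40 (.thr 36 52 (.thr 24 48 (.thr 16 28 (.thr 26 31 (.thr 27 25 (.thr 58 10 (.thr 56 57 (.dbl 11 41 43)))))))) (.rp 36 (.thr 22 23 (.thr 2 62 (.thr 60 40 (.thr 3 41 (.thr 6 9 (.thr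 10 14 (.dbl 5 7 15))))))) (.rp 28 (.thr 40 60 (.thr 36 52 (.thr 48 24 (.dbl 32 16 44)))) (.rp 24 (.thr 22 23 (.thr 52 36 (.thr 60 40 (.thr 56 48 (.thr 58 57 (.thr 26 10 (.dbl 41 3 11))))))) (.rp 16 (.thr 22 23 (.thr 2 62 (.thr 60 40 (.thr 3 41 (.thr 6 9 (.thr 10 14 (.dbl 5 7 15))))))) .nd)))))))))))) (.rp 44 (.thr 36 52 (.thr 24 48 (.thr 28 16 (.thr 22 23 (.thr 25 19 (.thr 17 29 (.dbl 51 34 38))))))) (.rp 40 (.thr 36 52 (.thr 24 48 (.thr 28 16 (.thr 22 23 (.thr 25 19 (.thr 17 29 (.dbl 51 34 38))))))) (.rp 36 (.thr 60 40 (.thr 22 23 (.thr 2 62 (.thr 3 41 (.thr 6 9 (.thr 10 14 (.dbl 5 7 15))))))) (.rp 28 (.thr 36 52 (.thr 48 24 (.thr 40 60 (.dbl 32 16 44)))) (.rp 24 (.thr 36 52 (.thr 40 60 (.thr 44 32 (.thr 41 43 (.thr 38 35 (.thr 34 46 (.dbl 51 17 25))))))) .nd))))))))))))) (.rp 51 (.thr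 12 8 (.str 20 (.nv (.thr 55 38 (.thr 36 52 (.thr 24 48 (.thr 60 40 (.dbl 28 16 44))))) (.nv (.thr 22 23 (.thr 60 40 (.thr 3 41 (.thr 6 9 (.dbl 38 54 55))))) (.nv (.thr 60 40 (.thr 28 44 (.thr 24 16 (.dbl 36 48 52)))) (.rp 60 (.thr 36 52 (.thr 48 24 (.thr 16 32 (.thr 26 31 (.thr 58 10 (.thr 22 23 (.thr 62 2 (.thr 54 50 (.dbl 38 6 55))))))))) (.rp 55 (.str 59 (.nv (.thr 36 52 (.thr 24 48 (.thr 60 40 (.dbl 28 16 44)))) (.nv (.thr 60 40 (.thr 28 44 (.thr 24 16 (.dbl 36 48 52)))) (.rp 60 (.thr 22 23 (.thr 62 2 (.thr 36 52 (.thr 48 24 (.thr 16 32 (.thr 26 31 (.thr 30 18 (.thr 10 58 (.thr 15 5 (.dbl 14 13 46)))))))))) (.rp 52 (.thr 22 23 (.thr 2 62 (.thr 60 40 (.thr 3 41 (.thr 6 9 (.thr 10 14 (.dbl 5 7 15))))))) (.rp 48 (.thr 22 23 (.thr 2 62 (.thr 60 40 (.thr 3 41 (.thr 6 9 (.thr 10 14 (.dbl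 5 7 15))))))) (.rp 44 (.thr 22 23 (.thr 2 62 (.thr 60 40 (.thr 3 41 (.thr 6 9 (.thr 10 14 (.dbl 5 7 15))))))) (.rp 40 (.thr 36 52 (.thr 24 48 (.thr 16 28 (.thr 26 31 (.thr 27 25 (.thr 58 10 (.thr 56 57 (.dbl 11 41 43)))))))) (.rp 36 (.thr 22 23 (.thr 2 62 (.thr 60 40 (.thr 3 41 (.thr 6 9 (.thr 10 14 (.dbl 5 7 15))))))) (.rp 28 (.thr 40 60 (.thr 36 52 (.thr 48 24 (.dbl 32 16 44)))) (.rp 24 (.thr 22 23 (.thr 52 36 (.thr 60 40 (.thr 56 48 (.thr 58 57 (.thr 26 10 (.dbl 41 3 11))))))) (.rp 16 (.thr 22 23 (.thr 2 62 (.thr 60 40 (.thr 3 41 (.thr 6 9 (.thr 10 14 (.dbl 5 7 15))))))) .nd)))))))))))) (.rp 40 (.thr 36 52 (.thr 24 48 (.thr 28 16 (.thr 60 44 (.thr 22 23 (.thr 3 41 (.thr 6 9 (.dbl 38 54 55)))))))) (.rp 24 (.thr 36 52 (.thr 40 60 (.thr 44 32 (.thr 41 43 (.dbl 38 35 55))))) .nd)))))))))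 (.rp 46 (.thr 12 8 (.str 5 (.nv (.thr 10 15 (.thr 26 58 (.thr 38 55 (.thr 14 50 (.dbl 6 2 7))))) (.nv (.thr 6 7 (.thr 3 9 (.thr 38 55 (.thr 22 54 (.thr 60 41 (.dbl 20 23 40)))))) (.nv (.thr 6 7 (.thr 10 15 (.thr 14 2 (.thr 26 58 (.dbl 38 50 55))))) (.rp 55 (.thr 6 7 (.thr 3 9 (.thr 10 15 (.thr 2 14 (.thr 26 58 (.thr 22 62 (.thr 30 18 (.thr 60 41 (.dbl 20 23 40))))))))) (.rp 53 (.thr 6 7 (.thr 10 15 (.thr 14 2 (.thr 38 55 (.dbl 26 50 58))))) (.rp 38 (.thr 6 7 (.thr 3 9 (.thr 10 15 (.thr 2 14 (.thr 26 58 (.thr 22 62 (.thr 30 18 (.thr 20 23 (.dbl 60 40 41))))))))) (.rp 10 (.thr 6 7 (.thr 38 55 (.thr 22 54 (.thr 23 20 (.thr 2 62 (.thr 51 25 (.thr 34 17 (.thr 50 18 (.thr 14 26 (.thr 15 13 (.thr 49 48 (.thr 27 39 (.thr 19 31 (.dbl 3 9 35)))))))))))))) (.rp 7 (.thr 15 10 (.thr 14 13 (.thr 38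 55 (.thr 26 50 (.thr 16 31 (.thr 48 32 (.thr 24 36 (.dbl 25 27 51)))))))) (.rp 6 (.thr 15 10 (.thr 14 13 (.thr 38 55 (.thr 26 50 (.thr 16 31 (.thr 48 32 (.thr 24 36 (.dbl 25 27 51)))))))) .nd))))))))))) (.rp 38 (.thr 12 8 (.str 36 (.nv (.thr 20 52 (.thr 22 23 (.thr 24 48 (.thr 60 40 (.dbl 28 16 44))))) (.nv (.thr 20 52 (.thr 48 24 (.thr 32 16 (.dbl 40 44 60)))) (.rp 60 (.thr 20 52 (.thr 48 24 (.thr 16 32 (.thr 26 31 (.thr 10 58 (.thr 15 5 (.thr 22 23 (.thr 30 18 (.thr 62 2 (.dbl 14 13 46)))))))))) (.rp 52 (.thr 48 24 (.thr 32 16 (.thr 40 44 (.thr 20 60 (.thr 41 43 (.thr 22 23 (.str 3 (.nv (.thr 18 33 (.thr 26 30 (.thr 10 58 (.thr 11 56 (.dbl 15 5 7))))) (.nv (.thr 6 9 (.thr 5 7 (.thr 10 15 (.dbl 2 14 62)))) (.nv (.thr 9 6 (.thr 25 57 (.thr 17 29 (.thr 33 18 (.dbl 34 35 51))))) (.rp 62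 (.str 61 (.nv (.thr 9 6 (.thr 25 57 (.thr 17 29 (.thr 19 28 (.dbl 51 34 35))))) (.nv (.thr 18 33 (.thr 26 30 (.thr 11 56 (.thr 15 7 (.dbl 10 5 58))))) (.nv (.thr 9 6 (.thr 25 57 (.thr 17 29 (.thr 33 18 (.dbl 34 35 51))))) (.rp 17 (.thr 9 6 (.thr 25 57 (.thr 33 18 (.thr 19 28 (.dbl 35 34 51))))) .nd))))) (.rp 61 (.thr 62 2 (.thr 33 18 (.thr 9 6 (.thr 25 57 (.thr 17 29 (.dbl 34 35 51)))))) .nd)))))))))))) (.rp 48 (.thr 20 52 (.thr 60 40 (.thr 28 44 (.thr 22 23 (.thr 25 19 (.thr 29 17 (.thr 31 30 (.dbl 16 24 26)))))))) (.rp 44 (.thr 20 52 (.thr 48 24 (.thr 16 32 (.thr 26 31 (.thr 22 23 (.thr 18 30 (.thr 3 33 (.dbl 60 40 41)))))))) (.rp 40 (.thr 20 52 (.thr 24 48 (.thr 28 16 (.thr 60 44 (.thr 22 23 (.thr 25 19 (.thr 17 29 (.thr 51 34 (.thr 57 54 (.dbl 41 3 9)))))))))) (.rp 24 (.thr 20 52 (.thr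 40 60 (.thr 32 44 (.thr 48 16 (.thr 41 43 (.thr 22 23 (.str 3 (.nv (.thr 18 33 (.thr 26 30 (.thr 10 58 (.thr 11 56 (.dbl 15 5 7))))) (.nv (.thr 6 9 (.thr 5 7 (.thr 10 15 (.dbl 2 14 62)))) (.nv (.thr 9 6 (.thr 25 57 (.thr 17 29 (.thr 33 18 (.dbl 34 35 51))))) (.rp 62 (.str 61 (.nv (.thr 9 6 (.thr 25 57 (.thr 17 29 (.thr 19 28 (.dbl 51 34 35))))) (.nv (.thr 18 33 (.thr 26 30 (.thr 11 56 (.thr 15 7 (.dbl 10 5 58))))) (.nv (.thr 9 6 (.thr 25 57 (.thr 17 29 (.thr 33 18 (.dbl 34 35 51))))) (.rp 17 (.thr 9 6 (.thr 25 57 (.thr 33 18 (.thr 19 28 (.dbl 35 34 51))))) .nd))))) (.rp 61 (.thr 62 2 (.thr 33 18 (.thr 9 6 (.thr 25 57 (.thr 17 29 (.dbl 34 35 51)))))) .nd)))))))))))) (.rp 22 (.thr 48 24 (.thr 32 16 (.thr 40 44 (.dbl 20 52 60)))) (.rp 20 (.thr 48 24 (.thr 16 32 (.thr 26 31 (.thr 10 58 (.thr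 15 5 (.thr 13 14 (.str 17 (.nv (.thr 18 19 (.thr 34 51 (.thr 2 50 (.dbl 22 30 62)))) (.nv (.thr 29 25 (.thr 45 61 (.thr 18 19 (.dbl 30 22 60)))) (.rp 62 (.thr 25 29 (.thr 18 19 (.thr 3 33 (.thr 9 6 (.thr 41 57 (.dbl 22 30 60)))))) (.rp 56 (.str 40 (.nv (.thr 19 18 (.thr 51 34 (.thr 39 27 (.thr 35 3 (.dbl 43 41 47))))) (.nv (.thr 29 25 (.thr 45 61 (.thr 18 19 (.dbl 30 22 60)))) (.rp 59 (.str 57 (.nv (.thr 51 34 (.thr 18 19 (.thr 60 54 (.dbl 30 22 45)))) (.nv (.thr 25 29 (.dbl 41 9 43)) (.rp 51 (.str 55 (.nv (.thr 18 19 (.thr 29 25 (.thr 45 61 (.dbl 30 22 60)))) (.nv (.thr 18 19 (.thr 3 33 (.thr 41 43 (.dbl 22 30 60)))) (.nv (.thr 25 29 (.dbl 41 9 43)) (.rp 30 (.thr 41 43 (.dbl 25 9 29)) .nd))))) (.rp 30 (.thr 41 43 (.dbl 25 9 29)) .nd))))) (.rp 57 (.str 59 (.nv (.thr 18 19 (.thr 29 25 (.thr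 45 61 (.dbl 30 22 60)))) (.nv (.thr 51 34 (.thr 27 39 (.dbl 43 11 41))) (.rp 41 (.thr 18 19 (.thr 34 51 (.thr 2 50 (.dbl 22 30 62)))) (.rp 27 (.thr 29 25 (.thr 45 61 (.thr 41 43 (.thr 60 30 (.thr 3 22 (.dbl 18 19 33)))))) .nd))))) (.rp 27 (.thr 29 25 (.thr 45 61 (.thr 60 30 (.thr 41 43 (.thr 3 22 (.dbl 18 19 33)))))) (.rp 19 (.thr 25 29 (.thr 41 43 (.thr 57 9 (.thr 51 34 (.thr 60 54 (.thr 30 45 (.dbl 22 3 18))))))) (.rp 18 (.thr 25 29 (.thr 41 43 (.thr 57 9 (.thr 51 34 (.thr 60 54 (.thr 28 44 (.dbl 22 3 19))))))) .nd)))))))) (.rp 40 (.str 56 (.nv (.thr 11 41 (.thr 18 19 (.dbl 3 7 33))) (.nv (.thr 29 25 (.thr 45 61 (.dbl 60 30 52))) (.rp 45 (.thr 60 52 (.thr 28 44 (.thr 25 29 (.dbl 19 18 22)))) .nd)))) (.rp 30 (.thr 18 19 (.thr 3 33 (.thr 9 6 (.thr 11 7 (.thr 41 56 (.thr 40 43 (.dbl 25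 29 57))))))) (.rp 27 (.thr 29 25 (.thr 45 61 (.thr 60 30 (.thr 56 52 (.thr 41 11 (.thr 19 18 (.thr 51 34 (.dbl 3 22 35)))))))) (.rp 23 (.thr 29 25 (.thr 45 61 (.thr 51 34 (.thr 18 19 (.thr 27 39 (.dbl 30 22 60)))))) (.rp 22 (.thr 29 25 (.thr 45 61 (.thr 60 30 (.thr 44 28 (.thr 19 18 (.thr 51 34 (.thr 39 27 (.thr 35 3 (.dbl 47 43 46))))))))) (.rp 19 (.thr 29 25 (.thr 45 61 (.thr 60 30 (.thr 56 52 (.thr 41 11 (.thr 44 28 (.thr 22 3 (.thr 62 2 (.thr 47 46 (.thr 43 40 (.thr 39 35 (.dbl 51 27 34)))))))))))) (.rp 18 (.thr 29 25 (.thr 45 61 (.thr 60 30 (.thr 44 28 (.thr 56 52 (.thr 41 11 (.thr 43 40 (.thr 51 34 (.thr 39 27 (.dbl 47 35 46)))))))))) .nd)))))))))))))))))) (.rp 16 (.thr 20 52 (.thr 60 40 (.thr 22 23 (.thr 2 62 (.thr 3 41 (.thr 6 9 (.thr 10 14 (.dbl 5 7 15)))))))) .nd)))))))))))))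 (.rp 34 (.str 36 (.nv (.thr 20 52 (.thr 38 55 (.thr 40 60 (.thr 41 43 (.dbl 44 32 35))))) (.nv (.thr 12 8 (.thr 20 52 (.thr 22 23 (.thr 38 55 (.thr 51 25 (.thr 54 6 (.dbl 60 40 57))))))) (.nv (.thr 12 8 (.thr 48 24 (.thr 32 16 (.thr 40 44 (.dbl 20 52 60))))) (.rp 60 (.thr 12 8 (.thr 48 24 (.thr 16 32 (.thr 26 31 (.thr 38 55 (.thr 50 14 (.dbl 51 25 49))))))) (.rp 52 (.thr 12 8 (.thr 48 24 (.thr 16 32 (.thr 26 31 (.thr 38 55 (.thr 50 14 (.dbl 51 25 49))))))) (.rp 40 (.thr 20 52 (.thr 12 8 (.thr 24 48 (.thr 28 16 (.thr 38 55 (.thr 22 23 (.dbl 25 19 51))))))) (.rp 20 (.thr 12 8 (.thr 48 24 (.thr 16 32 (.thr 26 31 (.thr 38 55 (.thr 50 14 (.dbl 51 25 49))))))) .nd)))))))) (.rp 25 (.thr 12 8 (.str 13 (.nv (.thr 38 55 (.thr 14 15 (.thr 26 50 (.thr 46 34 (.thr 62 30 (.thr 2 22 (.dbl 10 6 58)))))))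 (.nv (.thr 14 15 (.thr 38 55 (.thr 26 50 (.thr 10 58 (.thr 2 6 (.thr 46 34 (.dbl 62 22 30))))))) (.rp 62 (.thr 15 14 (.thr 10 5 (.thr 26 58 (.thr 16 31 (.thr 48 32 (.thr 36 24 (.thr 20 52 (.thr 22 23 (.thr 30 18 (.dbl 60 40 45)))))))))) (.rp 59 (.thr 15 14 (.thr 10 5 (.thr 26 58 (.thr 16 31 (.thr 48 32 (.thr 36 24 (.thr 20 52 (.thr 22 23 (.thr 30 18 (.dbl 60 40 45)))))))))) (.rp 58 (.thr 14 15 (.thr 38 55 (.thr 46 34 (.thr 62 30 (.thr 22 2 (.thr 20 23 (.thr 60 40 (.thr 44 28 (.dbl 41 3 35))))))))) (.rp 55 (.thr 15 14 (.thr 10 5 (.thr 26 58 (.thr 16 31 (.thr 48 32 (.thr 36 24 (.thr 20 52 (.thr 22 23 (.thr 30 18 (.dbl 60 40 45)))))))))) (.rp 51 (.thr 15 14 (.thr 10 5 (.thr 26 58 (.thr 16 31 (.thr 48 32 (.thr 36 24 (.thr 20 52 (.thr 22 23 (.thr 30 18 (.dbl 60 40 45)))))))))) (.rp 50 (.thr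 15 14 (.thr 10 5 (.thr 26 58 (.thr 16 31 (.thr 48 32 (.thr 36 24 (.thr 20 52 (.thr 22 23 (.thr 30 18 (.dbl 60 40 45)))))))))) (.rp 47 (.thr 15 14 (.thr 10 5 (.thr 26 58 (.thr 16 31 (.thr 48 32 (.thr 36 24 (.thr 20 52 (.thr 22 23 (.thr 30 18 (.dbl 60 40 45)))))))))) (.rp 46 (.thr 15 14 (.thr 10 5 (.thr 26 58 (.thr 16 31 (.thr 48 32 (.thr 36 24 (.thr 20 52 (.thr 22 23 (.thr 30 18 (.dbl 60 40 45)))))))))) (.rp 38 (.thr 15 14 (.thr 10 5 (.thr 26 58 (.thr 16 31 (.thr 48 32 (.thr 36 24 (.thr 20 52 (.thr 22 23 (.thr 30 18 (.dbl 60 40 45)))))))))) (.rp 34 (.thr 15 14 (.thr 10 5 (.thr 26 58 (.thr 16 31 (.thr 48 32 (.thr 36 24 (.thr 20 52 (.thr 22 23 (.thr 30 18 (.dbl 60 40 45)))))))))) (.rp 31 (.thr 15 14 (.str 7 (.nv (.dbl 5 6 10) (.rp 10 (.thr 6 5 (.dbl 3 9 11)) (.rp 6 (.thr 11 3 (.thr 10 5 (.thr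 38 55 (.thr 26 58 (.thr 41 56 (.thr 44 35 (.thr 60 28 (.dbl 40 20 43)))))))) (.rp 5 (.thr 3 11 (.thr 38 55 (.thr 34 46 (.thr 51 17 (.thr 35 19 (.thr 41 44 (.thr 43 40 (.dbl 39 27 47)))))))) .nd)))))) (.rp 30 (.thr 14 15 (.thr 38 55 (.thr 34 46 (.thr 51 17 (.thr 26 50 (.thr 10 58 (.thr 6 2 (.thr 3 9 (.thr 35 19 (.thr 41 44 (.dbl 22 54 60))))))))))) (.rp 26 (.thr 15 14 (.thr 5 10 (.thr 6 7 (.thr 38 55 (.thr 34 46 (.thr 22 54 (.thr 23 20 (.thr 51 17 (.thr 27 39 (.thr 19 31 (.dbl 3 9 35))))))))))) (.rp 22 (.thr 15 14 (.thr 10 5 (.thr 38 55 (.thr 34 46 (.thr 26 58 (.thr 16 31 (.thr 51 17 (.thr 39 27 (.thr 48 32 (.thr 36 24 (.thr 52 20 (.thr 56 60 (.thr 41 11 (.thr 43 40 (.dbl 35 44 47))))))))))))))) (.rp 15 (.str 48 (.nv (.thr 36 24 (.thr 20 52 (.thr 38 55 (.thr 40 60 (.thr 41 43 (.dbl 44 32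 35)))))) (.nv (.thr 32 16 (.thr 36 24 (.thr 38 55 (.thr 34 46 (.thr 35 33 (.dbl 44 40 41)))))) (.nv (.thr 32 16 (.thr 36 24 (.thr 40 44 (.dbl 20 52 60)))) (.rp 47 (.str 31 (.nv (.dbl 16 26 32) (.rp 32 (.thr 38 55 (.thr 34 46 (.thr 51 17 (.thr 26 16 (.dbl 50 14 49))))) (.rp 26 (.thr 38 55 (.thr 32 16 (.thr 34 46 (.thr 33 35 (.thr 18 3 (.thr 50 2 (.dbl 51 17 49))))))) (.rp 16 (.thr 38 55 (.thr 36 24 (.thr 20 52 (.thr 40 60 (.thr 44 32 (.dbl 41 35 43)))))) .nd))))) (.rp 44 (.thr 32 16 (.thr 38 55 (.thr 34 46 (.thr 51 17 (.thr 50 49 (.thr 33 35 (.dbl 18 2 3))))))) (.rp 40 (.thr 32 16 (.thr 38 55 (.thr 34 46 (.thr 51 17 (.thr 50 49 (.thr 33 35 (.dbl 18 2 3))))))) (.rp 36 (.thr 32 16 (.thr 38 55 (.thr 34 46 (.thr 51 17 (.thr 50 49 (.thr 33 35 (.dbl 18 2 3))))))) (.rp 32 (.thr 36 24 (.thr 20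 52 (.thr 38 55 (.thr 34 46 (.thr 22 23 (.thr 54 6 (.thr 51 17 (.dbl 60 40 57)))))))) (.rp 31 (.str 47 (.nv (.thr 36 24 (.thr 20 52 (.thr 38 55 (.thr 46 34 (.thr 44 45 (.dbl 60 28 40)))))) (.nv (.thr 32 16 (.thr 38 55 (.thr 34 46 (.thr 35 33 (.thr 41 44 (.dbl 43 39 40)))))) (.nv (.thr 32 16 (.thr 36 24 (.thr 40 44 (.dbl 20 52 60)))) (.rp 44 (.thr 32 16 (.thr 38 55 (.thr 34 46 (.thr 33 35 (.thr 51 17 (.thr 50 49 (.dbl 18 2 3))))))) (.rp 40 (.thr 24 36 (.thr 38 55 (.thr 46 34 (.thr 16 32 (.thr 44 45 (.dbl 28 20 60)))))) .nd)))))) (.rp 27 (.thr 32 16 (.thr 38 55 (.thr 34 46 (.thr 51 17 (.thr 50 49 (.thr 33 35 (.dbl 18 2 3))))))) (.rp 26 (.thr 32 16 (.thr 38 55 (.thr 34 46 (.thr 51 17 (.thr 50 49 (.thr 33 35 (.dbl 18 2 3))))))) (.rp 24 (.thr 32 16 (.thr 38 55 (.thr 34 46 (.thr 51 17 (.thr 50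 49 (.thr 33 35 (.dbl 18 2 3))))))) (.rp 20 (.thr 32 16 (.thr 38 55 (.thr 34 46 (.thr 51 17 (.thr 50 49 (.thr 33 35 (.dbl 18 2 3))))))) .nd)))))))))))))) (.rp 14 (.str 41 (.nv (.thr 38 55 (.thr 44 35 (.thr 60 28 (.dbl 40 20 43)))) (.nv (.thr 40 43 (.thr 20 60 (.thr 36 52 (.thr 32 44 (.dbl 48 16 24))))) (.nv (.thr 40 43 (.thr 60 20 (.thr 38 55 (.dbl 44 28 35)))) (.rp 60 (.thr 38 55 (.thr 34 46 (.thr 51 17 (.thr 35 44 (.thr 33 32 (.thr 3 19 (.thr 6 9 (.thr 22 54 (.thr 18 48 (.dbl 2 50 62)))))))))) (.rp 44 (.thr 40 43 (.thr 60 20 (.thr 38 55 (.thr 34 46 (.thr 51 17 (.thr 54 57 (.dbl 22 3 6))))))) (.rp 43 (.thr 38 55 (.thr 44 35 (.thr 60 28 (.thr 20 40 (.dbl 22 3 23))))) (.rp 40 (.thr 38 55 (.thr 34 46 (.thr 51 17 (.thr 44 35 (.thr 60 28 (.thr 54 57 (.dbl 22 3 6))))))) (.rp 20 (.thr 38 55 (.thr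 34 46 (.thr 51 17 (.thr 44 35 (.thr 60 28 (.thr 54 57 (.dbl 22 3 6))))))) .nd))))))))) (.rp 10 (.thr 14 15 (.thr 38 55 (.thr 46 34 (.thr 62 30 (.thr 22 2 (.thr 54 6 (.dbl 50 26 58))))))) (.rp 6 (.thr 14 15 (.thr 38 55 (.thr 46 34 (.thr 62 30 (.thr 22 2 (.thr 20 23 (.thr 60 40 (.thr 44 28 (.dbl 41 3 35))))))))) (.rp 2 (.thr 15 14 (.thr 10 5 (.thr 26 58 (.thr 16 31 (.thr 48 32 (.thr 36 24 (.thr 20 52 (.thr 22 23 (.thr 30 18 (.dbl 60 40 45)))))))))) .nd))))))))))))))))))))))) (.rp 17 (.str 48 (.nv (.thr 12 8 (.thr 16 32 (.thr 26 31 (.thr 38 55 (.thr 50 14 (.dbl 51 25 49)))))) (.nv (.thr 12 8 (.thr 32 16 (.thr 36 24 (.thr 40 44 (.dbl 20 52 60))))) (.rp 49 (.str 33 (.nv (.thr 12 8 (.thr 36 24 (.thr 20 52 (.thr 40 60 (.dbl 32 16 44))))) (.nv (.thr 32 16 (.thr 34 35 (.dbl 38 46 55))) (.rp 32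 (.thr 12 8 (.thr 36 24 (.thr 20 52 (.thr 22 23 (.thr 3 18 (.dbl 60 40 41)))))) (.rp 25 (.str 13 (.nv (.thr 12 8 (.thr 15 14 (.thr 5 10 (.thr 6 7 (.dbl 3 9 18))))) (.nv (.thr 32 16 (.thr 34 35 (.dbl 38 46 55))) (.rp 18 (.thr 38 55 (.thr 34 46 (.dbl 32 16 35))) .nd)))) (.rp 16 (.thr 12 8 (.thr 36 24 (.thr 20 52 (.thr 40 60 (.thr 44 32 (.thr 38 55 (.dbl 41 35 43))))))) (.rp 13 (.str 25 (.nv (.thr 32 16 (.thr 34 35 (.dbl 38 46 55))) (.nv (.dbl 8 12 59) (.rp 9 (.str 5 (.nv (.thr 3 18 (.thr 7 6 (.dbl 15 10 11))) (.nv (.dbl 8 12 59) .nd))) (.rp 5 (.str 9 (.nv (.thr 32 16 (.thr 34 35 (.dbl 38 46 55))) (.nv (.dbl 8 12 59) .nd))) .nd))))) .nd))))))) (.rp 33 (.str 49 (.nv (.thr 16 32 (.thr 26 31 (.thr 38 55 (.dbl 50 14 51)))) (.nv (.thr 12 8 (.thr 32 16 (.thr 36 24 (.thr 20 52 (.dbl 40 44 60)))))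 (.nv (.thr 12 8 (.thr 38 55 (.dbl 51 25 50))) (.rp 45 (.str 41 (.nv (.thr 32 16 (.thr 40 43 (.thr 20 60 (.dbl 36 44 52)))) (.nv (.thr 12 8 (.thr 38 55 (.dbl 51 25 50))) .nd))) (.rp 41 (.str 45 (.nv (.thr 16 32 (.thr 26 31 (.thr 38 55 (.dbl 50 14 51)))) (.nv (.thr 12 8 (.thr 32 16 (.thr 36 24 (.thr 20 52 (.dbl 40 44 60))))) (.nv (.thr 12 8 (.thr 38 55 (.dbl 51 25 50))) .nd)))) .nd)))))) (.rp 32 (.thr 12 8 (.thr 36 24 (.thr 20 52 (.thr 38 55 (.thr 22 23 (.thr 54 6 (.thr 51 25 (.dbl 60 40 57)))))))) (.rp 16 (.thr 12 8 (.thr 36 24 (.thr 20 52 (.thr 40 60 (.thr 44 32 (.thr 38 55 (.dbl 41 35 43))))))) (.rp 12 (.thr 16 32 (.thr 26 31 (.thr 10 58 (.thr 38 55 (.thr 14 50 (.thr 6 2 (.dbl 5 7 15))))))) (.rp 8 (.thr 16 32 (.thr 26 31 (.thr 10 58 (.thr 38 55 (.thr 14 50 (.thr 6 2 (.dbl 5 7 15)))))))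 .nd))))))))) (.rp 12 (.thr 38 55 (.thr 46 34 (.str 22 (.nv (.thr 20 23 (.thr 36 52 (.thr 40 60 (.thr 44 32 (.dbl 41 35 43))))) (.nv (.thr 54 6 (.thr 62 2 (.thr 14 30 (.dbl 50 26 58)))) (.rp 62 (.thr 6 54 (.thr 5 7 (.thr 10 15 (.thr 14 2 (.dbl 26 50 58))))) (.rp 59 (.str 51 (.nv (.thr 20 23 (.thr 36 52 (.thr 40 60 (.thr 44 32 (.dbl 41 35 43))))) (.nv (.thr 62 2 (.thr 14 30 (.thr 50 26 (.dbl 54 6 58)))) (.nv (.thr 54 6 (.thr 60 57 (.dbl 20 23 40))) (.rp 54 (.thr 20 23 (.thr 52 36 (.thr 62 2 (.thr 14 30 (.thr 50 26 (.thr 48 49 (.dbl 60 40 56))))))) .nd))))) (.rp 54 (.thr 62 2 (.thr 30 14 (.thr 20 23 (.thr 60 40 (.thr 15 45 (.thr 10 5 (.dbl 26 18 58))))))) (.rp 51 (.str 59 (.nv (.thr 25 8 (.thr 29 17 (.thr 62 2 (.thr 30 14 (.dbl 28 19 31))))) (.nv (.thr 20 23 (.thr 36 52 (.thr 40 60 (.thr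 44 32 (.dbl 41 35 43))))) (.nv (.thr 54 6 (.thr 62 2 (.thr 14 30 (.dbl 50 26 58)))) (.rp 62 (.thr 6 54 (.thr 5 7 (.thr 10 15 (.thr 14 2 (.dbl 26 50 58))))) .nd))))) (.rp 3 (.thr 6 54 (.thr 2 62 (.thr 10 14 (.dbl 5 7 15)))) .nd)))))))))) (.rp 8 (.str 5 (.nv (.thr 10 15 (.thr 26 58 (.thr 38 55 (.thr 14 50 (.dbl 6 2 7))))) (.nv (.thr 6 7 (.thr 10 15 (.thr 2 14 (.thr 38 55 (.dbl 22 54 62))))) (.nv (.thr 6 7 (.thr 38 55 (.thr 22 54 (.thr 2 62 (.dbl 10 14 15))))) (.nv (.thr 6 7 (.thr 10 15 (.thr 14 2 (.thr 26 58 (.dbl 38 50 55))))) (.rp 55 (.thr 6 7 (.thr 10 15 (.thr 2 14 (.thr 22 62 (.thr 23 20 (.thr 26 58 (.thr 30 18 (.thr 31 16 (.thr 28 29 (.dbl 19 25 27)))))))))) (.rp 38 (.thr 6 7 (.thr 10 15 (.thr 2 14 (.thr 22 62 (.thr 23 20 (.thr 26 58 (.thr 30 18 (.thr 31 16 (.thr 28 29 (.dbl 19 25 27))))))))))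 (.rp 15 (.thr 6 7 (.thr 38 55 (.thr 34 46 (.thr 22 54 (.thr 2 62 (.thr 14 10 (.dbl 50 18 26))))))) (.rp 14 (.thr 6 7 (.thr 38 55 (.thr 34 46 (.thr 22 54 (.thr 51 17 (.thr 12 25 (.thr 3 9 (.thr 41 60 (.dbl 35 19 44))))))))) (.rp 10 (.thr 6 7 (.thr 38 55 (.thr 34 46 (.thr 22 54 (.thr 23 20 (.thr 2 62 (.thr 51 17 (.thr 12 25 (.thr 50 18 (.thr 14 26 (.thr 15 13 (.thr 49 48 (.thr 27 39 (.thr 19 31 (.dbl 3 9 35))))))))))))))) (.rp 7 (.thr 10 15 (.thr 38 55 (.thr 46 34 (.thr 26 58 (.thr 14 50 (.thr 2 6 (.dbl 62 22 30))))))) (.rp 6 (.thr 10 15 (.thr 38 55 (.thr 34 46 (.thr 26 58 (.thr 31 16 (.thr 50 14 (.thr 18 2 (.thr 30 22 (.thr 29 28 (.dbl 17 25 51)))))))))) (.rp 2 (.thr 6 7 (.thr 38 55 (.thr 34 46 (.thr 22 54 (.thr 51 17 (.thr 12 25 (.thr 3 9 (.thr 41 60 (.dbl 35 19 44))))))))) .nd)))))))))))))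 .nd))))))))))))

theorem w123 : WinAt (4398048608257, 9223372174293729282) :=
  chF (K := []) kn c123 4398048608257 9223372174293729282 63
    [] (by decide +kernel) (by decide +kernel)

/-- A certificate. -/
noncomputable def c124 : Ct := (.str 37 (.nv (.thr 53 5 (.thr 63 42 (.thr 48 58 (.thr 26 15 (.dbl 16 31 32))))) (.nv (.thr 5 53 (.thr 15 10 (.thr 42 63 (.thr 48 26 (.dbl 32 16 47))))) (.nv (.thr 5 53 (.thr 15 10 (.thr 26 48 (.thr 31 16 (.dbl 63 42 47))))) (.rp 63 (.str 20 (.nv (.thr 5 53 (.thr 15 10 (.thr 22 23 (.thr 48 26 (.thr 16 32 (.thr 24 28 (.thr 52 7 (.dbl 36 4 12)))))))) (.nv (.thr 5 53 (.thr 15 10 (.thr 48 26 (.thr 60 40 (.thr 52 56 (.thr 4 36 (.dbl 7 6 22))))))) (.nv (.thr 22 23 (.thr 52 7 (.thr 60 40 (.thr 48 56 (.thr 16 32 (.dbl 26 15 31)))))) (.nv (.thr 5 53 (.thr 15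 10 (.thr 22 23 (.thr 60 40 (.thr 30 45 (.dbl 26 18 48)))))) (.rp 48 (.thr 22 23 (.thr 7 52 (.thr 60 40 (.thr 3 41 (.thr 15 11 (.dbl 5 10 53)))))) (.rp 26 (.thr 5 53 (.thr 22 23 (.thr 7 52 (.thr 60 40 (.thr 3 41 (.dbl 15 10 11)))))) (.rp 22 (.thr 5 53 (.thr 60 40 (.thr 15 10 (.thr 48 26 (.thr 16 32 (.thr 24 28 (.thr 36 12 (.dbl 52 4 56)))))))) (.rp 15 (.thr 22 23 (.thr 52 7 (.thr 36 4 (.thr 60 40 (.thr 48 56 (.thr 16 32 (.dbl 24 12 28))))))) .nd))))))))) (.rp 53 (.str 20 (.nv (.thr 22 23 (.thr 40 60 (.thr 42 63 (.thr 32 47 (.thr 36 44 (.thr 48 16 (.thr 12 24 (.dbl 4 8 52)))))))) (.nv (.thr 22 23 (.thr 52 7 (.thr 60 40 (.thr 48 56 (.thr 16 32 (.dbl 26 15 31)))))) (.nv (.thr 22 23 (.thr 7 52 (.thr 60 40 (.thr 3 41 (.thr 15 11 (.thr 26 48 (.dbl 30 18 45))))))) (.nv (.thr 22 23 (.thr 52 7 (.thr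 60 40 (.thr 48 56 (.thr 32 16 (.dbl 42 47 63)))))) (.rp 60 (.thr 22 23 (.thr 52 7 (.thr 4 36 (.thr 8 12 (.thr 42 63 (.thr 32 47 (.thr 25 59 (.thr 28 19 (.dbl 16 24 48))))))))) (.rp 52 (.thr 22 23 (.thr 60 40 (.thr 3 41 (.thr 42 63 (.thr 32 47 (.thr 48 16 (.thr 18 33 (.dbl 26 15 30)))))))) (.rp 48 (.thr 22 23 (.thr 52 7 (.thr 36 4 (.thr 40 60 (.thr 32 44 (.dbl 42 47 63)))))) (.rp 40 (.thr 22 23 (.thr 52 7 (.thr 4 36 (.thr 8 12 (.thr 42 63 (.thr 32 47 (.thr 25 59 (.thr 28 19 (.dbl 16 24 48))))))))) (.rp 23 (.thr 40 60 (.thr 42 63 (.thr 32 47 (.thr 48 16 (.thr 36 44 (.thr 4 52 (.dbl 12 8 24))))))) (.rp 22 (.thr 40 60 (.thr 42 63 (.thr 32 47 (.thr 48 16 (.thr 36 44 (.thr 4 52 (.dbl 12 8 24))))))) .nd))))))))))) (.rp 48 (.str 20 (.nv (.thr 22 23 (.thr 40 60 (.thr 42 63 (.thr 32 47 (.thr 52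 7 (.dbl 36 4 44)))))) (.nv (.thr 22 23 (.thr 40 60 (.thr 52 7 (.thr 36 4 (.thr 32 44 (.dbl 42 47 63)))))) (.nv (.thr 5 53 (.thr 15 10 (.thr 22 23 (.thr 60 40 (.thr 45 30 (.dbl 41 3 33)))))) (.rp 63 (.thr 22 23 (.thr 7 52 (.thr 60 40 (.thr 3 41 (.thr 15 11 (.dbl 5 10 53)))))) (.rp 60 (.thr 5 53 (.thr 23 22 (.thr 15 10 (.thr 63 42 (.thr 31 47 (.thr 27 19 (.thr 39 51 (.thr 7 55 (.dbl 3 11 43))))))))) (.rp 40 (.thr 5 53 (.thr 22 23 (.thr 7 52 (.thr 6 4 (.thr 10 15 (.thr 2 14 (.dbl 42 62 63))))))) (.rp 23 (.thr 5 53 (.thr 60 40 (.thr 15 10 (.thr 30 45 (.thr 63 42 (.thr 31 47 (.thr 28 29 (.dbl 16 24 26)))))))) (.rp 22 (.thr 5 53 (.thr 60 40 (.thr 15 10 (.thr 30 45 (.thr 63 42 (.thr 31 47 (.thr 28 29 (.dbl 16 24 26)))))))) .nd))))))))) (.rp 42 (.thr 5 53 (.str 20 (.nv (.thr 22 23 (.thr 60 40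 (.thr 41 3 (.thr 45 33 (.dbl 15 10 30))))) (.nv (.thr 15 10 (.thr 22 23 (.thr 7 52 (.thr 3 11 (.dbl 60 40 41))))) (.nv (.thr 15 10 (.thr 22 23 (.thr 26 48 (.thr 16 31 (.thr 18 30 (.thr 19 17 (.dbl 28 24 25))))))) (.nv (.thr 15 10 (.thr 22 23 (.thr 60 40 (.thr 30 45 (.dbl 26 18 48))))) (.rp 46 (.str 34 (.nv (.thr 22 23 (.thr 52 7 (.thr 60 40 (.thr 48 56 (.dbl 15 10 26))))) (.nv (.thr 15 10 (.thr 17 51 (.thr 25 29 (.thr 26 48 (.thr 24 27 (.dbl 16 28 31)))))) (.nv (.thr 15 10 (.thr 22 23 (.thr 26 48 (.thr 30 18 (.dbl 60 40 45))))) (.rp 48 (.thr 22 23 (.thr 7 52 (.thr 60 40 (.thr 15 10 (.dbl 3 11 41))))) (.rp 26 (.thr 22 23 (.thr 60 40 (.thr 41 3 (.thr 45 33 (.dbl 15 10 30))))) (.rp 15 (.thr 22 23 (.thr 52 7 (.thr 36 4 (.thr 60 40 (.thr 48 56 (.thr 16 32 (.dbl 24 12 28))))))) (.rp 10 (.thr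 22 23 (.thr 52 7 (.thr 60 40 (.thr 48 56 (.thr 16 32 (.dbl 26 15 31)))))) .nd)))))))) (.rp 34 (.str 46 (.nv (.thr 22 23 (.thr 60 40 (.thr 41 3 (.thr 45 33 (.dbl 15 10 30))))) (.nv (.thr 15 10 (.thr 22 23 (.thr 7 52 (.thr 3 11 (.dbl 60 40 41))))) (.nv (.thr 15 10 (.thr 26 48 (.thr 31 16 (.thr 60 40 (.thr 45 30 (.dbl 47 44 63)))))) (.nv (.thr 15 10 (.thr 22 23 (.thr 26 48 (.thr 16 31 (.thr 18 30 (.thr 19 17 (.dbl 28 24 25))))))) (.nv (.thr 15 10 (.thr 22 23 (.thr 60 40 (.thr 30 45 (.dbl 26 18 48))))) (.rp 15 (.thr 22 23 (.thr 52 7 (.thr 36 4 (.thr 60 40 (.thr 48 56 (.thr 16 32 (.dbl 24 12 28))))))) (.rp 10 (.thr 22 23 (.thr 52 7 (.thr 60 40 (.thr 48 56 (.thr 16 32 (.dbl 26 15 31)))))) .nd)))))))) (.rp 23 (.thr 60 40 (.thr 15 10 (.thr 45 30 (.thr 41 33 (.thr 22 3 (.thr 52 7 (.dbl 48 26 56)))))))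 (.rp 22 (.thr 60 40 (.thr 15 10 (.thr 30 45 (.thr 26 48 (.thr 31 16 (.thr 63 47 (.thr 29 28 (.thr 62 61 (.dbl 46 12 14))))))))) (.rp 15 (.thr 22 23 (.thr 52 7 (.thr 36 4 (.thr 60 40 (.thr 48 56 (.thr 16 32 (.dbl 24 12 28))))))) (.rp 10 (.thr 22 23 (.thr 52 7 (.thr 60 40 (.thr 48 56 (.thr 16 32 (.dbl 26 15 31)))))) .nd)))))))))))) (.rp 26 (.thr 42 63 (.thr 5 53 (.thr 15 10 (.thr 32 47 (.thr 48 16 (.str 22 (.nv (.thr 20 23 (.thr 60 40 (.thr 45 30 (.dbl 41 3 33)))) (.nv (.thr 7 52 (.thr 3 11 (.thr 41 60 (.dbl 33 18 45)))) (.nv (.thr 52 7 (.thr 60 56 (.dbl 20 23 40))) (.rp 60 (.thr 7 52 (.thr 4 6 (.thr 3 11 (.thr 33 18 (.thr 34 35 (.thr 17 51 (.thr 8 12 (.dbl 25 29 59)))))))) (.rp 50 (.str 14 (.nv (.thr 20 23 (.thr 60 40 (.thr 30 45 (.dbl 62 2 46)))) (.nv (.thr 7 52 (.thr 4 6 (.dbl 12 8 13)))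 .nd))) (.rp 41 (.thr 52 7 (.thr 20 23 (.dbl 60 40 56))) (.rp 14 (.str 50 (.nv (.thr 2 62 (.thr 34 18 (.dbl 51 17 49))) (.nv (.thr 52 7 (.thr 60 56 (.dbl 20 23 40))) (.rp 60 (.thr 7 52 (.thr 23 20 (.thr 51 49 (.dbl 39 27 55)))) (.rp 2 (.str 6 (.nv (.dbl 7 4 52) (.rp 52 (.thr 7 4 (.thr 20 23 (.thr 3 11 (.dbl 60 40 41)))) (.rp 7 (.thr 20 23 (.thr 60 40 (.thr 45 30 (.dbl 41 3 33)))) (.rp 4 (.thr 52 7 (.thr 20 23 (.dbl 60 40 56))) .nd))))) .nd))))) .nd))))))))))))) (.rp 16 (.str 20 (.nv (.thr 5 53 (.thr 10 15 (.thr 22 23 (.thr 7 52 (.thr 6 4 (.thr 2 14 (.dbl 42 62 63))))))) (.nv (.thr 22 23 (.thr 40 60 (.thr 42 63 (.thr 32 47 (.thr 52 7 (.dbl 36 4 44)))))) (.nv (.thr 5 53 (.thr 15 10 (.thr 22 23 (.thr 60 40 (.thr 30 45 (.dbl 26 18 48)))))) (.rp 23 (.thr 5 53 (.thr 60 40 (.thr 15 10 (.thr 48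 26 (.thr 52 56 (.thr 4 36 (.dbl 7 6 22))))))) (.rp 22 (.thr 53 5 (.thr 60 40 (.thr 63 42 (.thr 62 61 (.thr 58 48 (.thr 54 50 (.thr 55 52 (.dbl 51 57 59)))))))) (.rp 15 (.thr 53 5 (.thr 22 23 (.thr 52 7 (.thr 60 40 (.thr 48 56 (.dbl 63 42 58)))))) .nd))))))) (.rp 15 (.str 20 (.nv (.thr 22 23 (.thr 52 7 (.thr 36 4 (.thr 40 60 (.thr 32 44 (.dbl 42 47 63)))))) (.nv (.thr 22 23 (.thr 52 7 (.thr 36 4 (.thr 60 40 (.thr 48 56 (.thr 16 32 (.dbl 24 12 28))))))) (.nv (.thr 22 23 (.thr 53 5 (.thr 60 40 (.thr 63 42 (.thr 48 58 (.dbl 52 7 56)))))) (.nv (.thr 22 23 (.thr 52 7 (.thr 60 40 (.thr 48 56 (.thr 32 16 (.dbl 42 47 63)))))) (.rp 60 (.thr 53 5 (.thr 22 23 (.thr 52 7 (.thr 63 42 (.thr 48 58 (.thr 16 32 (.thr 24 28 (.dbl 36 4 12)))))))) (.rp 52 (.thr 53 5 (.thr 60 40 (.thr 63 42 (.thr 61 62 (.thr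 57 49 (.thr 51 54 (.thr 59 55 (.dbl 58 48 56)))))))) (.rp 40 (.thr 53 5 (.thr 22 23 (.thr 52 7 (.thr 63 42 (.thr 48 58 (.thr 16 32 (.thr 24 28 (.dbl 36 4 12)))))))) (.rp 23 (.thr 53 5 (.thr 60 40 (.thr 63 42 (.thr 61 62 (.thr 57 49 (.thr 54 51 (.thr 52 55 (.dbl 48 56 58)))))))) (.rp 22 (.thr 53 5 (.thr 60 40 (.thr 63 42 (.thr 62 61 (.thr 58 48 (.thr 54 50 (.thr 55 52 (.dbl 51 57 59)))))))) (.rp 7 (.thr 53 5 (.thr 60 40 (.thr 63 42 (.thr 61 62 (.thr 57 49 (.thr 54 51 (.thr 52 55 (.dbl 48 56 58)))))))) .nd))))))))))) (.rp 5 (.thr 42 63 (.str 45 (.nv (.thr 41 33 (.thr 40 43 (.thr 60 20 (.thr 3 22 (.thr 15 30 (.thr 11 7 (.dbl 26 48 56))))))) (.nv (.thr 32 47 (.thr 48 16 (.thr 15 26 (.thr 60 30 (.thr 20 40 (.thr 22 23 (.dbl 52 7 56))))))) (.nv (.thr 32 47 (.thr 41 33 (.thr 40 43 (.thr 20 60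 (.thr 36 44 (.thr 52 4 (.dbl 22 7 23))))))) (.nv (.thr 32 47 (.thr 48 16 (.thr 15 26 (.thr 60 30 (.thr 52 56 (.thr 22 7 (.dbl 41 3 33))))))) (.nv (.thr 41 33 (.thr 40 43 (.thr 60 20 (.thr 15 30 (.thr 32 47 (.dbl 48 16 26)))))) (.rp 60 (.thr 41 33 (.thr 40 43 (.thr 32 47 (.thr 36 44 (.thr 48 16 (.thr 15 26 (.thr 12 24 (.thr 8 4 (.thr 25 59 (.dbl 13 14 49)))))))))) (.rp 15 (.thr 41 33 (.thr 40 43 (.thr 47 32 (.thr 44 46 (.thr 60 20 (.thr 12 28 (.thr 8 4 (.thr 3 22 (.thr 25 59 (.dbl 9 6 57)))))))))) (.rp 13 (.str 9 (.nv (.thr 32 47 (.thr 16 48 (.thr 41 33 (.thr 25 57 (.thr 8 59 (.thr 11 10 (.dbl 26 31 56))))))) (.nv (.thr 32 47 (.thr 48 16 (.thr 15 26 (.thr 60 30 (.thr 20 40 (.thr 22 23 (.dbl 52 7 56))))))) (.nv (.thr 41 33 (.thr 25 57 (.thr 8 59 (.thr 11 10 (.thr 56 26 (.dbl 40 24 43))))))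 (.nv (.thr 41 33 (.thr 40 43 (.thr 60 20 (.thr 15 30 (.thr 32 47 (.dbl 48 16 26)))))) (.rp 26 (.thr 41 33 (.thr 40 43 (.thr 47 32 (.thr 44 46 (.thr 60 20 (.thr 12 28 (.dbl 3 6 22))))))) .nd)))))) (.rp 9 (.str 13 (.nv (.thr 25 49 (.dbl 29 17 61)) (.rp 61 (.thr 33 41 (.thr 32 47 (.thr 25 49 (.thr 17 29 (.dbl 34 35 51))))) (.rp 49 (.thr 32 47 (.thr 48 16 (.thr 15 26 (.thr 60 30 (.thr 40 20 (.dbl 41 33 43)))))) (.rp 33 (.thr 29 61 (.dbl 25 17 49)) (.rp 29 (.thr 41 33 (.thr 40 43 (.thr 32 47 (.thr 60 20 (.thr 15 30 (.dbl 48 16 26)))))) (.rp 25 (.thr 41 33 (.thr 40 43 (.thr 32 47 (.thr 60 20 (.thr 15 30 (.dbl 48 16 26)))))) (.rp 17 (.thr 32 47 (.thr 48 16 (.thr 15 26 (.thr 60 30 (.thr 40 20 (.dbl 41 33 43)))))) .nd)))))))) (.rp 3 (.thr 41 33 (.thr 32 47 (.thr 48 16 (.thr 15 26 (.thr 60 30 (.dbl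 40 20 43)))))) .nd)))))))))))) .nd))))))))))))

theorem w124 : WinAt (2097153, 274877906946) :=
  chF (K := []) kn c124 2097153 274877906946 38
    [] (by decide +kernel) (by decide +kernel)

/-- A certificate. -/
noncomputable def c125 : Ct := (.str 48 (.nv (.thr 32 16 (.thr 37 47 (.thr 15 26 (.dbl 5 10 53)))) (.nv (.thr 16 32 (.thr 26 31 (.thr 10 58 (.dbl 15 5 37)))) (.rp 47 (.thr 16 32 (.thr 26 31 (.thr 15 37 (.dbl 10 5 58)))) (.rp 37 (.str 38 (.nv (.thr 4 55 (.thr 12 8 (.thr 16 32 (.thr 24 36 (.thr 26 31 (.dbl 25 27 51)))))) (.nv (.thr 16 32 (.thr 26 31 (.thr 34 46 (.thr 50 14 (.dbl 51 17 49))))) (.nv (.thr 4 55 (.thr 12 8 (.thr 34 46 (.dbl 51 17 25)))) (.rp 51 (.thr 16 32 (.thr 34 46 (.thr 26 31 (.thr 58 10 (.thr 50 14 (.thr 2 18 (.dbl 62 22 54))))))) (.rp 12 (.thr 16 32 (.thr 26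 31 (.thr 50 14 (.thr 51 49 (.dbl 34 17 46))))) .nd)))))) (.rp 32 (.str 8 (.nv (.thr 12 4 (.thr 24 36 (.thr 25 59 (.thr 26 27 (.thr 10 58 (.dbl 15 5 37)))))) (.nv (.thr 12 4 (.thr 25 59 (.thr 17 29 (.dbl 51 34 38)))) (.rp 59 (.thr 12 4 (.thr 24 36 (.thr 40 56 (.thr 20 60 (.thr 28 16 (.thr 22 23 (.thr 25 19 (.thr 17 29 (.dbl 51 34 38))))))))) (.rp 55 (.thr 12 4 (.thr 25 59 (.thr 51 38 (.dbl 17 29 34)))) (.rp 51 (.thr 12 4 (.thr 24 36 (.thr 40 56 (.thr 20 60 (.thr 28 16 (.thr 22 23 (.dbl 25 19 59))))))) (.rp 38 (.thr 25 59 (.thr 17 29 (.thr 51 34 (.thr 49 50 (.thr 37 13 (.thr 5 53 (.dbl 15 10 26))))))) (.rp 25 (.thr 12 4 (.thr 24 36 (.thr 40 56 (.thr 20 60 (.thr 16 28 (.thr 26 31 (.thr 10 58 (.dbl 15 5 37)))))))) (.rp 12 (.thr 25 59 (.str 51 (.nv (.dbl 17 29 34) (.rp 46 (.thr 29 17 (.thr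 49 50 (.thr 37 13 (.thr 5 53 (.dbl 15 10 26))))) (.rp 34 (.thr 49 50 (.thr 37 13 (.thr 5 53 (.dbl 15 10 26)))) (.rp 29 (.str 46 (.nv (.dbl 34 17 38) (.rp 38 (.thr 49 50 (.thr 37 13 (.thr 5 53 (.dbl 15 10 26)))) (.rp 34 (.thr 49 50 (.thr 37 13 (.thr 5 53 (.dbl 15 10 26)))) (.rp 17 (.thr 49 50 (.thr 37 13 (.thr 5 53 (.dbl 15 10 26)))) .nd))))) (.rp 17 (.thr 49 50 (.thr 37 13 (.thr 5 53 (.dbl 15 10 26)))) .nd))))))) (.rp 4 (.thr 25 59 (.thr 17 29 (.thr 51 34 (.thr 49 50 (.thr 37 13 (.thr 5 53 (.dbl 15 10 26))))))) .nd)))))))))) (.rp 26 (.str 51 (.nv (.thr 32 16 (.thr 34 17 (.thr 33 35 (.thr 18 3 (.dbl 50 2 49))))) (.nv (.thr 17 34 (.thr 25 29 (.thr 8 59 (.dbl 12 4 38)))) (.rp 34 (.thr 49 50 (.thr 32 16 (.thr 37 47 (.thr 25 13 (.thr 8 59 (.dbl 12 4 38)))))) (.rp 17 (.thr 49 50 (.thr 32 16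 (.thr 37 47 (.thr 25 13 (.thr 8 59 (.dbl 12 4 38)))))) .nd))))) (.rp 16 (.str 4 (.nv (.thr 12 8 (.thr 38 55 (.thr 51 25 (.dbl 34 17 46)))) (.rp 55 (.thr 12 8 (.thr 36 24 (.thr 20 52 (.thr 40 60 (.thr 32 44 (.thr 37 47 (.thr 15 26 (.dbl 5 10 53)))))))) (.rp 51 (.thr 12 8 (.thr 36 24 (.thr 20 52 (.thr 40 60 (.thr 44 32 (.thr 41 43 (.dbl 38 35 55))))))) (.rp 46 (.thr 12 8 (.thr 36 24 (.thr 20 52 (.thr 40 60 (.thr 44 32 (.thr 38 55 (.dbl 41 35 43))))))) (.rp 38 (.thr 12 8 (.thr 36 24 (.thr 20 52 (.thr 40 60 (.thr 32 44 (.thr 37 47 (.thr 5 53 (.dbl 15 10 26)))))))) (.rp 34 (.thr 12 8 (.thr 36 24 (.thr 20 52 (.thr 40 60 (.thr 44 32 (.thr 38 55 (.dbl 41 35 43))))))) (.rp 25 (.thr 12 8 (.thr 36 24 (.thr 20 52 (.thr 40 60 (.thr 44 32 (.thr 38 55 (.dbl 41 35 43))))))) (.rp 23 (.thr 12 8 (.thr 36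 24 (.thr 20 52 (.thr 40 60 (.thr 32 44 (.thr 37 47 (.thr 5 53 (.dbl 15 10 26)))))))) (.rp 17 (.thr 12 8 (.thr 36 24 (.thr 20 52 (.thr 40 60 (.thr 44 32 (.thr 38 55 (.dbl 41 35 43))))))) (.rp 12 (.str 60 (.nv (.thr 52 56 (.dbl 20 36 40)) (.rp 56 (.thr 20 40 (.thr 52 36 (.thr 38 55 (.thr 22 23 (.thr 7 37 (.dbl 6 5 54)))))) (.rp 52 (.thr 20 40 (.thr 22 23 (.thr 2 62 (.thr 3 41 (.thr 18 33 (.thr 34 50 (.dbl 38 46 55))))))) (.rp 46 (.str 29 (.nv (.thr 52 56 (.dbl 20 36 40)) (.rp 56 (.thr 20 40 (.thr 52 36 (.thr 17 25 (.thr 51 34 (.thr 54 57 (.dbl 55 38 53)))))) (.rp 52 (.thr 20 40 (.thr 17 25 (.thr 38 55 (.thr 51 34 (.thr 54 57 (.dbl 22 6 23)))))) (.rp 40 (.thr 52 56 (.thr 17 25 (.thr 55 38 (.thr 51 34 (.dbl 54 53 57))))) (.rp 36 (.thr 56 52 (.thr 40 20 (.thr 25 17 (.dbl 8 24 59)))) (.rp 20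 (.thr 52 56 (.thr 17 25 (.thr 55 38 (.thr 51 34 (.dbl 54 53 57))))) .nd))))))) (.rp 40 (.thr 52 56 (.thr 20 36 (.thr 38 55 (.thr 22 23 (.thr 7 37 (.dbl 6 5 54)))))) (.rp 36 (.thr 52 56 (.thr 20 40 (.thr 38 55 (.thr 22 23 (.thr 7 37 (.dbl 6 5 54)))))) (.rp 29 (.str 46 (.nv (.thr 20 40 (.dbl 52 36 56)) (.nv (.dbl 38 34 55) .nd))) (.rp 20 (.thr 52 56 (.thr 55 38 (.thr 53 54 (.thr 37 5 (.thr 26 15 (.thr 22 7 (.thr 18 30 (.dbl 3 33 41)))))))) .nd))))))))) (.rp 8 (.thr 38 55 (.thr 34 46 (.thr 51 17 (.thr 12 25 (.thr 36 24 (.thr 20 52 (.thr 40 60 (.thr 44 32 (.dbl 41 35 43))))))))) (.rp 7 (.thr 12 8 (.thr 36 24 (.thr 20 52 (.thr 40 60 (.thr 44 32 (.thr 41 43 (.dbl 38 35 55))))))) .nd))))))))))))) (.rp 15 (.thr 16 32 (.thr 31 26 (.str 8 (.nv (.thr 25 59 (.thr 29 17 (.thr 28 30 (.thr 20 24 (.dbl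 22 19 23))))) (.nv (.thr 12 4 (.thr 24 36 (.thr 20 28 (.dbl 40 56 60)))) (.nv (.thr 25 59 (.thr 17 29 (.thr 12 4 (.dbl 51 34 38)))) (.rp 51 (.str 27 (.nv (.thr 12 4 (.thr 24 36 (.thr 20 28 (.dbl 40 56 60)))) (.nv (.thr 19 23 (.thr 17 18 (.dbl 25 29 59))) (.rp 59 (.str 55 (.nv (.dbl 4 12 38) (.rp 38 (.thr 12 4 (.thr 23 19 (.thr 20 22 (.dbl 24 28 36)))) (.rp 12 (.thr 23 19 (.thr 20 22 (.thr 40 60 (.dbl 24 28 56)))) (.rp 4 (.thr 23 19 (.thr 20 22 (.thr 40 60 (.dbl 24 28 56)))) .nd))))) (.rp 55 (.thr 59 25 (.thr 43 11 (.thr 40 41 (.thr 56 24 (.dbl 60 20 52))))) .nd))))) (.rp 27 (.str 51 (.nv (.thr 25 59 (.dbl 17 29 34)) (.nv (.thr 12 4 (.dbl 25 38 59)) (.rp 59 (.thr 17 34 (.thr 25 29 (.dbl 12 4 38))) (.rp 25 (.str 24 (.nv (.thr 20 28 (.dbl 40 56 60)) (.nv (.dbl 12 4 36) .nd))) .nd))))) .nd))))))))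 (.rp 10 (.str 51 (.nv (.thr 32 16 (.thr 34 17 (.thr 33 35 (.thr 18 3 (.dbl 50 2 49))))) (.nv (.thr 17 34 (.thr 25 29 (.thr 8 59 (.dbl 12 4 38)))) (.rp 34 (.thr 49 50 (.thr 32 16 (.thr 37 47 (.thr 25 13 (.thr 8 59 (.dbl 12 4 38)))))) (.rp 17 (.thr 49 50 (.thr 32 16 (.thr 37 47 (.thr 25 13 (.thr 8 59 (.dbl 12 4 38)))))) .nd))))) (.rp 5 (.thr 16 32 (.thr 31 26 (.str 20 (.nv (.thr 22 23 (.thr 28 24 (.thr 25 19 (.dbl 29 17 30)))) (.nv (.thr 24 28 (.thr 36 12 (.thr 60 40 (.dbl 52 4 56)))) (.rp 29 (.thr 24 28 (.thr 12 36 (.thr 8 4 (.dbl 40 56 60)))) (.rp 28 (.thr 60 40 (.thr 22 23 (.thr 2 62 (.thr 3 41 (.thr 18 33 (.thr 34 50 (.dbl 17 19 51))))))) (.rp 24 (.thr 60 40 (.thr 22 23 (.thr 2 62 (.thr 3 41 (.thr 18 33 (.thr 34 50 (.dbl 17 19 51))))))) (.rp 13 (.str 9 (.nv (.thr 22 23 (.thr 28 24 (.thr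 25 19 (.dbl 29 17 30)))) (.nv (.thr 24 28 (.thr 60 40 (.thr 52 56 (.dbl 36 4 12)))) (.rp 28 (.thr 22 23 (.thr 60 40 (.thr 3 41 (.thr 12 6 (.thr 4 8 (.dbl 52 36 56)))))) (.rp 24 (.thr 23 22 (.thr 40 60 (.thr 41 43 (.thr 19 27 (.thr 25 57 (.dbl 17 18 29)))))) .nd))))) (.rp 9 (.str 13 (.nv (.thr 22 23 (.thr 28 24 (.thr 25 19 (.dbl 29 17 30)))) (.nv (.thr 24 28 (.thr 60 40 (.thr 52 56 (.dbl 36 4 12)))) (.rp 28 (.thr 60 40 (.thr 22 23 (.thr 3 41 (.thr 18 33 (.thr 17 19 (.thr 34 51 (.dbl 2 50 62))))))) (.rp 24 (.thr 60 40 (.thr 22 23 (.thr 3 41 (.thr 18 33 (.thr 17 19 (.thr 34 51 (.dbl 2 50 62))))))) .nd))))) .nd)))))))))) .nd)))))))))))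

theorem w125 : WinAt (4398048608257, 9223372586610589698) :=
  chF (K := []) kn c125 4398048608257 9223372586610589698 63
    [] (by decide +kernel) (by decide +kernel)

/-- A certificate. -/
noncomputable def c126 : Ct := (.str 5 (.nv (.thr 15 10 (.thr 37 53 (.thr 48 26 (.dbl 32 16 47)))) (.rp 53 (.str 4 (.nv (.thr 6 7 (.thr 10 15 (.thr 14 2 (.thr 38 55 (.dbl 26 50 58))))) (.nv (.thr 6 7 (.thr 10 15 (.thr 2 14 (.thr 22 62 (.dbl 38 54 55))))) (.nv (.thr 12 8 (.thr 38 55 (.thr 51 25 (.dbl 34 17 46)))) (.rp 58 (.str 48 (.nv (.thr 12 8 (.thr 38 55 (.thr 34 46 (.dbl 51 17 25)))) (.nv (.thr 32 16 (.thr 37 47 (.dbl 15 10 26))) .nd))) (.rp 55 (.thr 6 7 (.thr 10 15 (.thr 2 14 (.thr 12 8 (.thr 3 9 (.thr 22 62 (.thr 60 41 (.thr 28 44 (.thr 25 19 (.dbl 38 51 54)))))))))) (.rp 54 (.thr 6 7 (.thr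 10 15 (.thr 2 14 (.thr 12 8 (.thr 3 9 (.thr 22 62 (.thr 60 41 (.thr 28 44 (.thr 25 19 (.dbl 38 51 55)))))))))) (.rp 48 (.str 58 (.nv (.dbl 10 15 26) (.rp 26 (.thr 12 8 (.thr 38 55 (.thr 34 46 (.dbl 51 17 25)))) (.rp 15 (.thr 12 8 (.thr 38 55 (.thr 34 46 (.dbl 51 17 25)))) (.rp 10 (.thr 12 8 (.thr 38 55 (.thr 34 46 (.dbl 51 17 25)))) .nd))))) (.rp 38 (.str 48 (.nv (.thr 32 16 (.thr 37 47 (.dbl 15 10 26))) (.rp 47 (.thr 16 32 (.thr 26 31 (.dbl 15 10 37))) (.rp 37 (.thr 16 32 (.thr 26 31 (.dbl 10 15 58))) (.rp 32 (.thr 12 8 (.thr 10 15 (.thr 6 7 (.thr 2 14 (.thr 22 62 (.thr 20 23 (.dbl 36 24 52))))))) (.rp 26 (.thr 8 12 (.thr 16 32 (.thr 15 10 (.thr 25 59 (.thr 7 6 (.thr 3 11 (.thr 18 33 (.dbl 17 19 29)))))))) (.rp 16 (.thr 12 8 (.thr 10 15 (.thr 6 7 (.thr 2 14 (.thr 22 62 (.thr 20 23 (.dbl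 36 24 52))))))) (.rp 15 (.thr 8 12 (.thr 16 32 (.thr 31 26 (.thr 25 59 (.thr 29 17 (.thr 28 30 (.thr 20 24 (.dbl 22 19 23)))))))) (.rp 10 (.thr 8 12 (.thr 32 16 (.thr 37 47 (.thr 25 59 (.thr 49 13 (.thr 51 50 (.dbl 17 29 34))))))) .nd))))))))) .nd))))))))) (.rp 48 (.thr 15 10 (.thr 53 37 (.str 38 (.nv (.thr 4 55 (.thr 12 8 (.thr 34 46 (.dbl 51 17 25)))) (.nv (.thr 34 46 (.thr 4 55 (.thr 51 17 (.dbl 12 8 25)))) (.rp 55 (.thr 34 46 (.thr 51 17 (.thr 12 25 (.thr 4 8 (.thr 6 7 (.thr 22 54 (.thr 2 62 (.thr 50 18 (.dbl 14 13 26))))))))) (.rp 51 (.thr 46 34 (.thr 55 4 (.thr 54 52 (.thr 22 6 (.thr 62 2 (.thr 14 30 (.dbl 50 26 58))))))) (.rp 46 (.thr 4 55 (.thr 6 7 (.thr 12 8 (.thr 14 13 (.thr 22 54 (.thr 2 62 (.thr 50 26 (.thr 34 18 (.dbl 51 17 25))))))))) (.rp 34 (.thr 4 55 (.thr 6 7 (.thr 12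 8 (.thr 14 13 (.thr 22 54 (.thr 62 2 (.thr 30 46 (.dbl 26 18 50)))))))) (.rp 25 (.thr 46 34 (.thr 4 55 (.thr 6 7 (.thr 12 8 (.thr 22 54 (.thr 62 2 (.dbl 14 13 30))))))) (.rp 17 (.thr 46 34 (.thr 4 55 (.thr 6 7 (.thr 12 8 (.thr 14 13 (.thr 22 54 (.dbl 62 2 30))))))) (.rp 12 (.thr 46 34 (.thr 55 4 (.thr 54 52 (.thr 22 6 (.thr 62 2 (.thr 14 30 (.dbl 50 26 58))))))) (.rp 8 (.thr 46 34 (.thr 55 4 (.thr 54 52 (.thr 22 6 (.thr 62 2 (.thr 14 30 (.dbl 50 26 58))))))) (.rp 4 (.str 51 (.nv (.dbl 34 17 46) (.rp 46 (.thr 17 34 (.dbl 25 12 29)) (.rp 34 (.thr 27 39 (.thr 25 12 (.thr 59 8 (.thr 11 43 (.thr 3 7 (.thr 35 19 (.thr 41 44 (.dbl 26 24 56)))))))) (.rp 17 (.thr 27 39 (.thr 25 12 (.thr 59 8 (.thr 11 43 (.thr 3 7 (.thr 35 19 (.thr 41 44 (.dbl 26 24 56)))))))) .nd))))) .nd)))))))))))))) (.rp 47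 (.thr 15 10 (.str 13 (.nv (.thr 37 53 (.thr 25 49 (.thr 17 29 (.thr 51 34 (.dbl 12 14 38))))) (.nv (.thr 12 14 (.thr 4 8 (.thr 38 55 (.thr 51 25 (.dbl 34 17 46))))) (.nv (.thr 12 14 (.thr 8 4 (.thr 37 53 (.dbl 25 49 59)))) (.rp 25 (.thr 12 14 (.thr 4 8 (.thr 38 55 (.thr 37 53 (.thr 36 39 (.dbl 48 24 26)))))) (.rp 14 (.thr 37 53 (.thr 25 49 (.thr 17 29 (.thr 8 59 (.thr 12 4 (.dbl 51 34 38)))))) (.rp 12 (.thr 37 53 (.thr 49 25 (.thr 48 26 (.thr 32 16 (.thr 51 50 (.thr 34 17 (.thr 33 35 (.thr 45 41 (.thr 38 46 (.thr 29 61 (.dbl 39 27 36))))))))))) .nd)))))))) (.rp 37 (.str 6 (.nv (.thr 10 15 (.thr 14 2 (.thr 26 58 (.thr 38 50 (.dbl 4 7 55))))) (.nv (.thr 4 7 (.thr 12 8 (.thr 38 55 (.thr 34 46 (.dbl 51 17 25))))) (.rp 55 (.thr 4 7 (.thr 10 15 (.thr 14 2 (.thr 12 8 (.thr 26 58 (.thr 38 50 (.thr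 34 46 (.dbl 51 17 25)))))))) (.rp 38 (.thr 10 15 (.thr 2 14 (.thr 22 62 (.thr 23 20 (.thr 26 58 (.thr 30 18 (.thr 31 16 (.thr 28 29 (.dbl 19 25 27))))))))) (.rp 34 (.thr 4 7 (.thr 10 15 (.thr 14 2 (.thr 38 55 (.dbl 26 50 58))))) (.rp 7 (.thr 10 15 (.thr 14 2 (.thr 26 58 (.thr 38 50 (.thr 34 46 (.thr 4 55 (.thr 12 8 (.dbl 51 17 25)))))))) (.rp 4 (.thr 10 15 (.thr 2 14 (.thr 22 62 (.thr 23 20 (.thr 26 58 (.thr 30 18 (.thr 31 16 (.thr 28 29 (.dbl 19 25 27))))))))) .nd)))))))) (.rp 32 (.thr 15 10 (.thr 37 53 (.thr 48 26 (.str 36 (.nv (.thr 12 24 (.thr 13 14 (.thr 25 49 (.thr 17 29 (.dbl 51 34 38))))) (.nv (.thr 38 39 (.thr 4 55 (.thr 7 6 (.dbl 52 20 22)))) (.nv (.thr 38 39 (.thr 12 24 (.dbl 4 8 55))) (.rp 38 (.thr 12 24 (.thr 8 4 (.thr 25 59 (.dbl 13 14 49)))) .nd)))))))) (.rp 26 (.str 12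 (.nv (.thr 4 8 (.thr 6 7 (.thr 10 15 (.thr 2 14 (.thr 22 62 (.dbl 38 54 55)))))) (.nv (.thr 8 4 (.thr 25 59 (.thr 17 29 (.dbl 51 34 38)))) (.rp 55 (.thr 8 4 (.thr 25 59 (.thr 51 38 (.dbl 17 29 34)))) (.rp 38 (.thr 15 10 (.thr 8 4 (.thr 37 53 (.thr 25 59 (.dbl 13 14 49))))) (.rp 8 (.thr 15 10 (.thr 13 14 (.thr 37 53 (.thr 25 49 (.thr 17 29 (.dbl 51 34 38)))))) (.rp 4 (.thr 15 10 (.thr 13 14 (.thr 37 53 (.thr 25 49 (.thr 17 29 (.dbl 51 34 38)))))) .nd))))))) (.rp 16 (.str 12 (.nv (.thr 4 8 (.thr 6 7 (.thr 10 15 (.thr 2 14 (.thr 22 62 (.dbl 38 54 55)))))) (.nv (.thr 8 4 (.thr 25 59 (.thr 51 38 (.dbl 17 29 34)))) (.rp 38 (.thr 15 10 (.thr 13 14 (.thr 8 4 (.thr 37 53 (.dbl 25 49 59))))) (.rp 8 (.thr 15 10 (.thr 13 14 (.thr 37 53 (.thr 25 49 (.thr 17 29 (.dbl 51 34 38)))))) (.rp 4 (.thr 15 10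 (.thr 13 14 (.thr 37 53 (.thr 25 49 (.thr 17 29 (.dbl 51 34 38)))))) .nd)))))) (.rp 15 (.str 4 (.nv (.thr 7 6 (.thr 37 53 (.thr 22 52 (.thr 23 20 (.dbl 55 38 39))))) (.nv (.thr 12 8 (.thr 38 55 (.thr 51 25 (.dbl 34 17 46)))) (.rp 55 (.thr 7 6 (.thr 12 8 (.thr 37 53 (.thr 52 22 (.thr 36 20 (.thr 38 39 (.thr 34 46 (.dbl 51 17 25)))))))) (.rp 47 (.str 31 (.nv (.thr 6 7 (.thr 26 16 (.thr 10 58 (.thr 14 2 (.dbl 38 50 55))))) (.nv (.thr 12 8 (.thr 38 55 (.thr 51 25 (.dbl 34 17 46)))) (.rp 55 (.thr 7 6 (.thr 12 8 (.thr 16 26 (.thr 37 53 (.thr 52 22 (.thr 36 20 (.dbl 48 24 32))))))) (.rp 38 (.thr 7 6 (.thr 8 12 (.thr 25 59 (.thr 29 17 (.thr 28 30 (.thr 22 19 (.dbl 37 52 53))))))) .nd))))) (.rp 38 (.thr 7 6 (.thr 8 12 (.thr 37 53 (.thr 22 52 (.thr 20 23 (.thr 25 59 (.thr 28 19 (.thr 16 24 (.dbl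 32 47 48))))))))) (.rp 31 (.str 47 (.nv (.dbl 37 32 53) (.rp 53 (.thr 12 8 (.thr 38 55 (.thr 34 46 (.dbl 51 17 25)))) (.rp 37 (.thr 12 8 (.thr 38 55 (.thr 34 46 (.dbl 51 17 25)))) (.rp 32 (.thr 12 8 (.thr 38 55 (.thr 34 46 (.dbl 51 17 25)))) .nd))))) .nd))))))) (.rp 10 (.str 12 (.nv (.thr 4 8 (.thr 7 6 (.thr 37 53 (.thr 22 52 (.thr 23 20 (.dbl 55 38 39)))))) (.nv (.thr 8 4 (.thr 25 59 (.thr 51 38 (.dbl 17 29 34)))) (.rp 38 (.thr 8 4 (.thr 37 53 (.thr 32 47 (.thr 25 59 (.thr 13 49 (.thr 15 14 (.dbl 48 16 26))))))) (.rp 8 (.thr 37 53 (.thr 32 47 (.thr 48 16 (.thr 15 26 (.thr 13 14 (.thr 25 49 (.thr 17 29 (.dbl 51 34 38)))))))) (.rp 4 (.thr 37 53 (.thr 32 47 (.thr 48 16 (.thr 36 24 (.thr 38 39 (.thr 34 46 (.dbl 51 17 25))))))) .nd)))))) .nd)))))))))))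

theorem w126 : WinAt (4398048608257, 9223373136366403586) :=
  chF (K := []) kn c126 4398048608257 9223373136366403586 63
    [] (by decide +kernel) (by decide +kernel)

/-- A certificate. -/
noncomputable def c127 : Ct := (.str 25 (.nv (.thr 29 17 (.thr 63 42 (.thr 12 46 (.thr 38 51 (.dbl 4 8 55))))) (.nv (.thr 17 29 (.thr 51 34 (.thr 12 38 (.thr 42 63 (.dbl 8 4 59))))) (.nv (.thr 17 29 (.thr 51 34 (.thr 38 12 (.thr 55 4 (.dbl 63 42 59))))) (.rp 63 (.str 5 (.nv (.thr 15 10 (.thr 37 53 (.thr 13 49 (.thr 12 14 (.thr 4 8 (.dbl 38 51 55)))))) (.nv (.thr 15 10 (.thr 17 29 (.thr 51 34 (.thr 27 39 (.thr 26 24 (.dbl 37 48 53)))))) (.rp 53 (.thr 17 29 (.thr 15 10 (.thr 51 34 (.thr 27 39 (.thr 26 24 (.thr 16 31 (.dbl 48 32 37))))))) (.rp 51 (.thr 37 53 (.thr 13 49 (.thr 15 10 (.thr 48 26 (.thr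 32 16 (.thr 12 14 (.thr 8 4 (.dbl 42 47 59)))))))) (.rp 48 (.thr 17 29 (.thr 15 10 (.thr 51 34 (.thr 12 38 (.thr 13 14 (.dbl 37 49 53)))))) (.rp 37 (.thr 17 29 (.thr 15 10 (.thr 51 34 (.thr 27 39 (.thr 26 24 (.thr 16 31 (.thr 48 32 (.thr 50 49 (.dbl 38 12 14))))))))) (.rp 17 (.thr 37 53 (.thr 49 13 (.thr 15 10 (.thr 48 26 (.thr 51 50 (.thr 39 27 (.dbl 38 12 36))))))) (.rp 15 (.thr 17 29 (.thr 37 53 (.thr 49 13 (.thr 51 34 (.thr 48 50 (.thr 16 32 (.thr 12 38 (.thr 24 36 (.dbl 26 27 31))))))))) (.rp 12 (.thr 37 53 (.thr 49 13 (.thr 15 10 (.thr 48 26 (.thr 51 50 (.dbl 17 29 34)))))) (.rp 10 (.thr 17 29 (.thr 37 53 (.thr 49 13 (.thr 51 34 (.thr 48 50 (.thr 16 32 (.dbl 26 15 31))))))) .nd))))))))))) (.rp 51 (.str 5 (.nv (.thr 15 10 (.thr 37 53 (.thr 13 49 (.thr 12 14 (.thr 8 4 (.dbl 42 59 63))))))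 (.nv (.thr 37 53 (.thr 15 10 (.thr 48 26 (.thr 32 16 (.dbl 42 47 63))))) (.rp 63 (.thr 37 53 (.thr 13 49 (.thr 15 10 (.thr 48 26 (.thr 32 16 (.thr 12 14 (.thr 8 4 (.dbl 42 47 59)))))))) (.rp 53 (.thr 29 17 (.thr 15 10 (.thr 63 42 (.thr 31 47 (.thr 28 30 (.thr 19 22 (.thr 27 23 (.dbl 26 16 24)))))))) (.rp 48 (.thr 29 17 (.thr 37 53 (.thr 15 10 (.thr 63 42 (.thr 12 46 (.dbl 13 14 49)))))) (.rp 42 (.thr 17 29 (.thr 37 53 (.thr 15 10 (.thr 26 48 (.thr 16 31 (.thr 19 18 (.thr 28 22 (.dbl 24 20 27)))))))) (.rp 37 (.thr 29 17 (.thr 15 10 (.thr 63 42 (.thr 47 31 (.thr 46 12 (.thr 45 44 (.thr 61 13 (.dbl 60 30 62)))))))) (.rp 15 (.thr 29 17 (.thr 53 37 (.thr 63 42 (.thr 48 58 (.thr 12 46 (.thr 4 8 (.thr 36 24 (.thr 52 20 (.dbl 55 38 54))))))))) (.rp 10 (.thr 37 53 (.thr 13 49 (.thr 42 63 (.thr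 32 47 (.thr 48 16 (.thr 15 26 (.thr 12 14 (.dbl 8 4 59)))))))) .nd)))))))))) (.rp 42 (.thr 17 29 (.str 5 (.nv (.thr 15 10 (.thr 37 53 (.thr 26 48 (.thr 16 31 (.thr 19 18 (.thr 24 27 (.dbl 28 20 22))))))) (.nv (.thr 37 53 (.thr 51 34 (.thr 38 12 (.thr 39 36 (.dbl 15 10 27))))) (.nv (.thr 15 10 (.thr 37 53 (.thr 13 49 (.thr 12 14 (.thr 4 8 (.dbl 38 51 55)))))) (.nv (.thr 15 10 (.thr 37 53 (.thr 51 34 (.thr 27 39 (.dbl 26 24 48))))) (.rp 53 (.thr 15 10 (.thr 51 34 (.thr 27 39 (.thr 26 24 (.thr 16 31 (.dbl 48 32 37)))))) (.rp 43 (.str 40 (.nv (.thr 15 10 (.thr 20 60 (.thr 37 53 (.thr 26 48 (.thr 16 31 (.dbl 24 27 28)))))) (.nv (.thr 10 15 (.thr 20 60 (.thr 22 23 (.thr 51 34 (.thr 38 12 (.thr 6 54 (.dbl 4 7 55))))))) (.nv (.thr 15 10 (.thr 37 53 (.thr 26 48 (.thr 27 24 (.dbl 51 34 39))))) (.rp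 63 (.thr 37 53 (.thr 13 49 (.thr 15 10 (.thr 12 14 (.dbl 51 34 38))))) (.rp 15 (.thr 20 60 (.thr 37 53 (.thr 51 34 (.thr 38 12 (.thr 36 39 (.dbl 4 52 55)))))) (.rp 10 (.thr 20 60 (.thr 37 53 (.thr 51 34 (.thr 38 12 (.thr 36 39 (.dbl 4 52 55)))))) .nd))))))) (.rp 40 (.str 43 (.nv (.thr 37 53 (.thr 49 13 (.thr 51 34 (.thr 48 50 (.thr 16 32 (.dbl 26 15 31)))))) (.nv (.thr 15 10 (.thr 51 34 (.thr 27 39 (.thr 38 12 (.thr 55 4 (.dbl 59 11 63)))))) (.nv (.thr 15 10 (.thr 37 53 (.thr 26 48 (.thr 16 31 (.thr 19 18 (.thr 24 27 (.dbl 28 20 22))))))) (.nv (.thr 15 10 (.thr 37 53 (.thr 51 34 (.thr 27 39 (.dbl 26 24 48))))) (.rp 26 (.thr 37 53 (.thr 51 34 (.thr 38 12 (.thr 39 36 (.dbl 15 10 27))))) (.rp 15 (.thr 37 53 (.thr 51 34 (.thr 38 12 (.thr 36 39 (.thr 4 55 (.thr 52 20 (.dbl 7 6 22))))))) .nd)))))))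 (.rp 37 (.thr 15 10 (.thr 51 34 (.thr 27 39 (.thr 26 24 (.thr 16 31 (.thr 38 12 (.thr 50 14 (.dbl 48 32 49)))))))) (.rp 15 (.thr 37 53 (.thr 51 34 (.thr 38 12 (.thr 4 55 (.thr 7 6 (.thr 52 22 (.dbl 36 20 39))))))) (.rp 10 (.thr 37 53 (.thr 49 13 (.thr 51 34 (.thr 48 50 (.thr 16 32 (.dbl 26 15 31)))))) .nd)))))))))))) (.rp 38 (.thr 17 29 (.str 5 (.nv (.thr 15 10 (.thr 51 34 (.thr 27 39 (.thr 26 24 (.thr 31 16 (.dbl 63 42 47)))))) (.nv (.thr 37 53 (.thr 49 13 (.thr 15 10 (.thr 51 34 (.dbl 48 26 50))))) (.nv (.thr 15 10 (.thr 37 53 (.thr 26 48 (.thr 31 16 (.dbl 63 42 47))))) (.rp 44 (.str 35 (.nv (.thr 15 10 (.thr 51 34 (.thr 39 27 (.thr 47 43 (.dbl 63 31 42))))) (.nv (.thr 15 10 (.thr 34 51 (.thr 32 33 (.thr 37 53 (.dbl 48 16 26))))) (.nv (.thr 15 10 (.thr 37 53 (.thr 13 49 (.thr 12 14 (.thr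 8 4 (.dbl 42 59 63)))))) (.nv (.thr 34 51 (.thr 32 33 (.thr 37 53 (.dbl 42 47 63)))) .nd))))) (.rp 42 (.thr 37 53 (.thr 15 10 (.thr 26 48 (.thr 27 24 (.dbl 51 34 39))))) (.rp 37 (.thr 10 15 (.thr 51 34 (.thr 42 63 (.thr 8 59 (.thr 12 4 (.thr 9 11 (.thr 3 6 (.thr 26 58 (.thr 31 16 (.thr 27 24 (.dbl 19 23 35))))))))))) (.rp 35 (.str 44 (.nv (.thr 15 10 (.thr 51 34 (.thr 27 39 (.thr 26 24 (.thr 31 16 (.dbl 63 42 47)))))) (.nv (.thr 15 10 (.thr 37 53 (.thr 49 13 (.thr 51 34 (.dbl 48 26 50))))) (.nv (.thr 15 10 (.thr 37 53 (.thr 26 48 (.thr 31 16 (.dbl 63 42 47))))) (.rp 42 (.thr 37 53 (.thr 15 10 (.thr 26 48 (.thr 27 24 (.dbl 51 34 39))))) (.rp 37 (.thr 42 63 (.thr 8 59 (.thr 12 4 (.thr 60 28 (.thr 40 20 (.thr 36 32 (.dbl 24 48 56))))))) (.rp 26 (.thr 37 53 (.thr 13 49 (.thr 15 10 (.thr 42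 63 (.thr 8 59 (.dbl 12 4 14)))))) (.rp 15 (.thr 37 53 (.thr 49 13 (.thr 51 34 (.thr 48 50 (.thr 32 16 (.dbl 42 47 63)))))) (.rp 10 (.thr 37 53 (.thr 49 13 (.thr 51 34 (.thr 48 50 (.thr 32 16 (.dbl 42 47 63)))))) .nd))))))))) (.rp 26 (.thr 37 53 (.thr 13 49 (.thr 15 10 (.thr 42 63 (.thr 8 59 (.dbl 12 4 14)))))) (.rp 15 (.thr 37 53 (.thr 49 13 (.thr 51 34 (.thr 48 50 (.thr 32 16 (.dbl 42 47 63)))))) (.rp 10 (.thr 37 53 (.thr 49 13 (.thr 51 34 (.thr 48 50 (.thr 16 32 (.dbl 26 15 31)))))) .nd)))))))))))) (.rp 29 (.str 5 (.nv (.thr 15 10 (.thr 37 53 (.thr 13 49 (.thr 12 14 (.thr 4 8 (.dbl 38 51 55)))))) (.nv (.thr 15 10 (.thr 37 53 (.thr 26 48 (.thr 31 16 (.dbl 63 42 47))))) (.rp 53 (.thr 15 10 (.thr 63 42 (.thr 31 47 (.thr 26 16 (.thr 27 24 (.thr 51 39 (.thr 55 59 (.dbl 38 4 12)))))))) (.rp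 37 (.thr 10 15 (.thr 42 63 (.thr 8 59 (.thr 12 4 (.thr 26 58 (.thr 24 27 (.thr 48 36 (.dbl 16 31 32)))))))) (.rp 15 (.thr 37 53 (.thr 49 13 (.thr 42 63 (.thr 8 59 (.thr 12 4 (.thr 51 38 (.thr 48 50 (.dbl 32 16 47)))))))) (.rp 10 (.thr 37 53 (.thr 13 49 (.thr 42 63 (.thr 8 59 (.thr 12 4 (.thr 15 14 (.thr 48 26 (.dbl 32 16 47)))))))) .nd))))))) (.rp 17 (.str 49 (.nv (.thr 37 13 (.thr 5 53 (.thr 15 10 (.thr 48 26 (.thr 51 50 (.thr 38 12 (.dbl 39 27 36))))))) (.nv (.thr 42 63 (.thr 8 59 (.thr 12 4 (.thr 51 38 (.thr 48 50 (.thr 32 16 (.dbl 37 13 47))))))) (.nv (.thr 37 13 (.thr 5 53 (.thr 15 10 (.thr 42 63 (.thr 32 47 (.dbl 48 16 26)))))) (.rp 48 (.thr 37 13 (.thr 5 53 (.thr 15 10 (.thr 63 42 (.thr 31 47 (.thr 26 16 (.thr 27 24 (.thr 51 39 (.thr 55 59 (.dbl 38 4 12)))))))))) (.rp 42 (.thr 37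 13 (.thr 5 53 (.thr 15 10 (.thr 26 48 (.thr 31 16 (.thr 63 47 (.thr 27 24 (.thr 51 39 (.thr 55 59 (.dbl 38 4 12)))))))))) (.rp 37 (.thr 42 63 (.thr 8 59 (.thr 12 4 (.thr 51 38 (.thr 48 50 (.thr 16 32 (.thr 26 31 (.dbl 24 27 36)))))))) (.rp 26 (.thr 37 13 (.thr 42 63 (.thr 8 59 (.thr 12 4 (.thr 51 38 (.thr 32 47 (.dbl 48 16 50))))))) (.rp 13 (.thr 42 63 (.thr 8 59 (.thr 12 4 (.thr 51 38 (.thr 48 50 (.thr 24 36 (.thr 16 32 (.dbl 26 27 31)))))))) .nd))))))))) (.rp 12 (.str 5 (.nv (.thr 15 10 (.thr 17 29 (.thr 51 34 (.thr 27 39 (.thr 26 24 (.thr 31 16 (.dbl 63 42 47))))))) (.nv (.thr 15 10 (.thr 17 29 (.thr 37 53 (.thr 49 13 (.thr 51 34 (.dbl 48 26 50)))))) (.nv (.thr 37 53 (.thr 15 10 (.thr 48 26 (.thr 32 16 (.dbl 42 47 63))))) (.rp 63 (.thr 37 53 (.thr 49 13 (.thr 15 10 (.thr 48 26 (.thr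 51 50 (.dbl 17 29 34)))))) (.rp 48 (.thr 17 29 (.thr 15 10 (.thr 51 34 (.thr 27 39 (.thr 63 42 (.thr 31 47 (.dbl 26 16 24))))))) (.rp 26 (.thr 17 29 (.thr 37 53 (.thr 49 13 (.thr 51 34 (.thr 48 50 (.thr 32 16 (.dbl 42 47 63))))))) (.rp 15 (.thr 17 29 (.thr 53 37 (.thr 51 34 (.thr 63 42 (.thr 55 59 (.thr 54 52 (.thr 57 60 (.thr 49 61 (.dbl 48 50 58))))))))) (.rp 10 (.thr 17 29 (.thr 37 53 (.thr 49 13 (.thr 51 34 (.thr 48 50 (.thr 16 32 (.dbl 26 15 31))))))) .nd))))))))) (.rp 4 (.str 5 (.nv (.thr 15 10 (.thr 17 29 (.thr 37 53 (.thr 13 49 (.thr 12 14 (.dbl 51 34 38)))))) (.nv (.thr 15 10 (.thr 37 53 (.thr 26 48 (.thr 31 16 (.dbl 63 42 47))))) (.rp 53 (.thr 17 29 (.thr 15 10 (.thr 51 34 (.thr 27 39 (.thr 26 24 (.thr 16 31 (.dbl 48 32 37))))))) (.rp 37 (.thr 17 29 (.thr 15 10 (.thr 51 34 (.thr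 27 39 (.thr 26 24 (.thr 31 16 (.dbl 63 42 47))))))) (.rp 15 (.thr 17 29 (.thr 37 53 (.thr 49 13 (.thr 51 34 (.thr 48 50 (.thr 32 16 (.dbl 42 47 63))))))) (.rp 10 (.thr 17 29 (.thr 37 53 (.thr 49 13 (.thr 51 34 (.thr 48 50 (.thr 16 32 (.dbl 26 15 31))))))) .nd))))))) .nd))))))))))))

theorem w127 : WinAt (2097153, 2199023255554) :=
  chF (K := []) kn c127 2097153 2199023255554 41
    [] (by decide +kernel) (by decide +kernel)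

/-- A certificate. -/
noncomputable def c128 : Ct := (.str 4 (.rp 63 (.str 5 (.nv (.thr 6 7 (.thr 12 8 (.thr 3 9 (.thr 38 55 (.thr 22 54 (.thr 60 41 (.dbl 20 23 40))))))) (.nv (.thr 12 8 (.thr 15 10 (.thr 14 13 (.thr 38 55 (.thr 26 50 (.dbl 37 48 53)))))) (.nv (.thr 7 6 (.thr 37 53 (.thr 22 52 (.thr 23 20 (.dbl 55 38 39))))) (.rp 55 (.thr 12 8 (.thr 7 6 (.thr 15 10 (.thr 37 53 (.thr 52 22 (.thr 36 20 (.dbl 48 24 26))))))) (.rp 53 (.thr 12 8 (.thr 15 10 (.thr 14 13 (.thr 38 55 (.thr 26 50 (.thr 16 31 (.dbl 48 32 37))))))) (.rp 38 (.thr 7 6 (.thr 15 10 (.thr 3 11 (.thr 37 53 (.thr 22 52 (.thr 20 23 (.dbl 60 40 41))))))) .nd))))))) (.rp 62 (.str 22 (.nv (.thr 12 8 (.thr 20 23 (.thr 38 55 (.thr 25 51 (.thr 28 19 (.dbl 60 40 44)))))) (.nv (.thr 12 8 (.thr 20 23 (.thr 36 52 (.thr 24 48 (.thr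 28 16 (.dbl 60 40 44)))))) (.nv (.thr 20 23 (.thr 52 36 (.thr 7 37 (.thr 38 55 (.dbl 6 5 54))))) (.rp 23 (.thr 38 55 (.thr 6 54 (.thr 12 8 (.thr 25 51 (.thr 28 19 (.thr 60 44 (.dbl 3 9 41))))))) (.rp 20 (.thr 38 55 (.thr 6 54 (.thr 12 8 (.thr 25 51 (.thr 28 19 (.thr 60 44 (.dbl 3 9 41))))))) .nd)))))) (.rp 61 (.str 16 (.nv (.thr 26 31 (.thr 38 55 (.thr 48 32 (.thr 37 15 (.thr 36 39 (.dbl 12 8 24)))))) (.nv (.thr 12 8 (.thr 26 31 (.thr 38 55 (.thr 25 51 (.thr 17 29 (.thr 19 18 (.thr 28 22 (.dbl 24 20 27)))))))) (.nv (.thr 12 8 (.thr 26 31 (.thr 38 55 (.thr 14 50 (.thr 48 32 (.dbl 15 13 37)))))) (.rp 55 (.thr 12 8 (.thr 48 32 (.thr 24 36 (.thr 26 31 (.thr 25 27 (.thr 17 29 (.dbl 51 34 38))))))) (.rp 38 (.thr 12 8 (.thr 48 32 (.thr 24 36 (.thr 28 20 (.thr 26 31 (.thr 25 27 (.thr 17 29 (.dbl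 19 18 22)))))))) (.rp 31 (.thr 12 8 (.thr 48 32 (.thr 36 24 (.thr 38 55 (.thr 37 39 (.thr 5 53 (.dbl 15 10 26))))))) (.rp 26 (.thr 12 8 (.thr 48 32 (.thr 24 36 (.thr 28 20 (.thr 38 55 (.thr 25 51 (.thr 17 29 (.dbl 19 18 22)))))))) (.rp 12 (.thr 48 32 (.thr 26 31 (.thr 37 15 (.thr 5 53 (.thr 7 6 (.thr 52 22 (.thr 20 36 (.dbl 60 40 56)))))))) (.rp 8 (.thr 48 32 (.thr 26 31 (.thr 37 15 (.thr 38 55 (.thr 36 39 (.thr 24 12 (.dbl 20 28 52))))))) .nd)))))))))) (.rp 60 (.str 20 (.nv (.thr 12 8 (.thr 22 23 (.thr 36 52 (.thr 38 55 (.thr 25 51 (.thr 28 19 (.dbl 24 16 48))))))) (.nv (.thr 12 8 (.thr 36 52 (.thr 48 24 (.thr 16 32 (.thr 26 31 (.thr 37 15 (.dbl 38 39 55))))))) (.nv (.thr 22 23 (.thr 52 36 (.thr 7 37 (.thr 38 55 (.dbl 6 5 54))))) (.rp 55 (.thr 12 8 (.thr 36 52 (.thr 48 24 (.thr 16 32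 (.thr 26 31 (.thr 37 15 (.thr 38 39 (.thr 50 14 (.dbl 51 25 49))))))))) (.rp 52 (.thr 12 8 (.thr 22 23 (.thr 38 55 (.thr 25 51 (.thr 29 17 (.thr 28 19 (.thr 16 24 (.dbl 31 26 30)))))))) (.rp 38 (.thr 52 36 (.thr 22 23 (.thr 37 7 (.thr 5 53 (.thr 15 10 (.thr 26 48 (.thr 18 30 (.thr 16 31 (.thr 19 17 (.dbl 28 24 25)))))))))) (.rp 36 (.thr 12 8 (.thr 22 23 (.thr 38 55 (.thr 25 51 (.thr 29 17 (.thr 28 19 (.thr 16 24 (.dbl 31 26 30)))))))) .nd)))))))) (.rp 59 (.thr 8 12 (.str 5 (.nv (.thr 37 53 (.thr 38 55 (.thr 36 39 (.thr 52 20 (.dbl 7 6 22))))) (.nv (.thr 7 6 (.thr 15 10 (.thr 37 53 (.thr 52 22 (.thr 20 36 (.thr 60 40 (.dbl 48 26 56))))))) (.nv (.thr 7 6 (.thr 37 53 (.thr 22 52 (.thr 23 20 (.dbl 55 38 39))))) (.rp 54 (.thr 7 6 (.thr 37 53 (.thr 22 52 (.thr 55 38 (.dbl 23 20 39))))) (.rp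 53 (.thr 6 7 (.thr 10 15 (.thr 14 2 (.thr 11 9 (.thr 38 55 (.thr 26 50 (.thr 56 41 (.thr 40 24 (.thr 20 60 (.dbl 22 23 54)))))))))) (.rp 52 (.thr 7 6 (.thr 15 10 (.thr 3 11 (.thr 37 53 (.thr 26 48 (.thr 31 16 (.thr 55 38 (.thr 23 39 (.dbl 63 43 47))))))))) (.rp 38 (.thr 7 6 (.thr 15 10 (.thr 3 11 (.thr 37 53 (.thr 22 52 (.thr 20 23 (.dbl 60 40 41))))))) (.rp 37 (.thr 6 7 (.thr 10 15 (.thr 14 2 (.thr 11 9 (.thr 38 55 (.thr 26 50 (.thr 41 56 (.thr 22 54 (.thr 60 3 (.dbl 20 23 40)))))))))) (.rp 22 (.thr 15 10 (.thr 37 53 (.thr 38 55 (.thr 39 36 (.thr 51 27 (.thr 17 34 (.thr 25 29 (.thr 49 13 (.dbl 48 26 50))))))))) (.rp 20 (.thr 7 6 (.thr 15 10 (.thr 3 11 (.thr 37 53 (.thr 26 48 (.thr 22 52 (.thr 30 18 (.dbl 60 41 45)))))))) (.rp 7 (.thr 15 10 (.thr 37 53 (.thr 38 55 (.thr 39 36 (.thr 51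 27 (.thr 17 34 (.thr 25 29 (.thr 49 13 (.dbl 48 26 50))))))))) (.rp 6 (.thr 15 10 (.thr 37 53 (.thr 38 55 (.thr 39 36 (.thr 51 27 (.thr 17 34 (.thr 25 29 (.thr 49 13 (.dbl 48 26 50))))))))) .nd)))))))))))))) (.rp 58 (.str 26 (.nv (.thr 16 31 (.thr 38 55 (.thr 48 32 (.thr 37 15 (.thr 36 39 (.dbl 12 8 24)))))) (.nv (.thr 12 8 (.thr 38 55 (.thr 14 50 (.thr 15 13 (.thr 5 10 (.dbl 37 48 53)))))) (.nv (.thr 12 8 (.thr 16 31 (.thr 38 55 (.thr 25 51 (.thr 17 29 (.thr 19 18 (.thr 24 27 (.dbl 28 20 22)))))))) (.nv (.thr 12 8 (.thr 16 31 (.thr 38 55 (.thr 48 32 (.thr 50 14 (.dbl 51 25 49)))))) (.rp 55 (.thr 16 31 (.thr 12 8 (.thr 48 32 (.thr 24 36 (.thr 25 27 (.thr 17 29 (.dbl 51 34 38))))))) (.rp 38 (.thr 16 31 (.thr 12 8 (.thr 48 32 (.thr 37 15 (.thr 5 53 (.thr 7 6 (.thr 36 24 (.dbl 52 20 22))))))))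 (.rp 12 (.thr 16 31 (.thr 55 38 (.thr 48 32 (.thr 37 15 (.thr 5 53 (.thr 7 6 (.thr 22 52 (.dbl 23 20 39)))))))) (.rp 8 (.thr 16 31 (.thr 38 55 (.thr 50 14 (.thr 48 32 (.thr 51 49 (.thr 25 12 (.dbl 17 29 34))))))) .nd))))))))) (.rp 57 (.str 16 (.nv (.thr 26 31 (.thr 38 55 (.thr 48 32 (.thr 37 15 (.thr 36 39 (.dbl 12 8 24)))))) (.nv (.thr 12 8 (.thr 26 31 (.thr 38 55 (.thr 25 51 (.thr 17 29 (.thr 19 18 (.thr 28 22 (.dbl 24 20 27)))))))) (.nv (.thr 12 8 (.thr 26 31 (.thr 38 55 (.thr 14 50 (.thr 48 32 (.dbl 15 13 37)))))) (.rp 55 (.thr 48 32 (.thr 12 8 (.thr 24 36 (.thr 26 31 (.thr 25 27 (.thr 17 29 (.dbl 51 34 38))))))) (.rp 38 (.thr 48 32 (.thr 12 8 (.thr 36 24 (.thr 52 20 (.thr 26 31 (.thr 37 15 (.thr 5 53 (.dbl 7 6 22)))))))) (.rp 31 (.thr 48 32 (.thr 12 8 (.thr 36 24 (.thr 38 55 (.thr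 37 39 (.thr 5 53 (.dbl 15 10 26))))))) (.rp 26 (.thr 48 32 (.thr 12 8 (.thr 36 24 (.thr 52 20 (.thr 38 55 (.thr 37 39 (.thr 5 53 (.dbl 7 6 22)))))))) (.rp 12 (.thr 48 32 (.thr 38 55 (.thr 26 31 (.thr 37 15 (.thr 5 53 (.thr 7 6 (.thr 52 22 (.dbl 36 20 39)))))))) (.rp 8 (.thr 48 32 (.thr 38 55 (.thr 26 31 (.thr 50 14 (.thr 51 49 (.thr 17 34 (.dbl 25 12 29))))))) .nd)))))))))) (.rp 56 (.str 16 (.nv (.thr 12 8 (.thr 26 31 (.thr 38 55 (.thr 14 50 (.thr 15 13 (.dbl 48 32 37)))))) (.nv (.thr 12 8 (.thr 26 31 (.thr 38 55 (.thr 25 51 (.thr 17 29 (.thr 19 18 (.thr 24 27 (.dbl 28 20 22)))))))) (.nv (.thr 26 31 (.thr 38 55 (.thr 48 32 (.thr 50 14 (.thr 51 49 (.dbl 12 8 25)))))) (.rp 55 (.thr 48 32 (.thr 12 8 (.thr 24 36 (.thr 26 31 (.thr 25 27 (.thr 17 29 (.dbl 51 34 38))))))) (.rp 38 (.thr 48 32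 (.thr 12 8 (.thr 24 36 (.thr 28 20 (.thr 26 31 (.thr 25 27 (.thr 17 29 (.dbl 19 18 22)))))))) (.rp 31 (.thr 48 32 (.thr 12 8 (.thr 24 36 (.thr 28 20 (.thr 38 55 (.thr 25 51 (.thr 17 29 (.dbl 19 18 22)))))))) (.rp 26 (.thr 48 32 (.thr 12 8 (.thr 24 36 (.thr 28 20 (.thr 38 55 (.thr 25 51 (.thr 17 29 (.dbl 19 18 22)))))))) (.rp 25 (.thr 48 32 (.thr 38 55 (.thr 26 31 (.thr 37 15 (.thr 36 39 (.dbl 12 8 24)))))) (.rp 12 (.thr 48 32 (.thr 38 55 (.thr 26 31 (.thr 37 15 (.thr 5 53 (.thr 7 6 (.thr 52 22 (.dbl 36 20 39)))))))) (.rp 8 (.thr 48 32 (.thr 38 55 (.thr 26 31 (.thr 50 14 (.thr 51 49 (.thr 17 34 (.dbl 25 12 29))))))) .nd))))))))))) (.rp 55 (.str 20 (.nv (.thr 22 23 (.thr 52 36 (.thr 7 37 (.thr 5 6 (.thr 15 10 (.thr 3 11 (.dbl 60 40 41))))))) (.nv (.thr 12 8 (.thr 36 52 (.thr 40 60 (.thr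 48 24 (.dbl 32 16 44))))) (.rp 60 (.thr 12 8 (.thr 36 52 (.thr 48 24 (.thr 16 32 (.thr 26 31 (.thr 37 15 (.thr 38 39 (.thr 50 14 (.dbl 51 25 49))))))))) (.rp 52 (.thr 12 8 (.thr 60 40 (.thr 28 44 (.thr 22 23 (.thr 25 19 (.thr 17 29 (.dbl 51 34 38))))))) (.rp 40 (.thr 12 8 (.thr 36 52 (.thr 24 48 (.thr 16 28 (.thr 26 31 (.thr 25 27 (.thr 51 38 (.dbl 17 29 34)))))))) (.rp 36 (.thr 12 8 (.thr 60 40 (.thr 44 28 (.thr 22 23 (.thr 41 3 (.thr 38 35 (.thr 54 6 (.dbl 51 25 57)))))))) (.rp 32 (.thr 12 8 (.thr 36 52 (.thr 24 48 (.thr 28 16 (.dbl 60 40 44))))) (.rp 8 (.thr 52 36 (.thr 60 40 (.thr 22 23 (.thr 7 37 (.thr 5 6 (.thr 15 10 (.dbl 3 11 41))))))) .nd))))))))) (.rp 54 (.str 16 (.nv (.thr 26 31 (.thr 38 55 (.thr 48 32 (.thr 37 15 (.thr 36 39 (.dbl 12 8 24)))))) (.nv (.thr 48 32 (.thr 12 8 (.thr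 36 24 (.thr 26 31 (.thr 37 15 (.dbl 38 39 55)))))) (.nv (.thr 12 8 (.thr 26 31 (.thr 38 55 (.thr 25 51 (.thr 17 29 (.thr 19 18 (.thr 24 27 (.dbl 28 20 22)))))))) (.nv (.thr 12 8 (.thr 26 31 (.thr 38 55 (.thr 48 32 (.thr 50 14 (.dbl 51 25 49)))))) (.rp 55 (.thr 48 32 (.thr 12 8 (.thr 24 36 (.thr 26 31 (.thr 25 27 (.thr 17 29 (.dbl 51 34 38))))))) (.rp 38 (.thr 48 32 (.thr 12 8 (.thr 36 24 (.thr 52 20 (.thr 26 31 (.thr 37 15 (.thr 5 53 (.dbl 7 6 22)))))))) (.rp 31 (.thr 48 32 (.thr 12 8 (.thr 36 24 (.thr 38 55 (.thr 37 39 (.thr 15 26 (.dbl 5 10 53))))))) (.rp 26 (.thr 48 32 (.thr 12 8 (.thr 36 24 (.thr 52 20 (.thr 38 55 (.thr 37 39 (.thr 5 53 (.dbl 7 6 22)))))))) (.rp 12 (.thr 48 32 (.thr 38 55 (.thr 26 31 (.thr 37 15 (.thr 36 39 (.thr 52 20 (.thr 5 53 (.dbl 7 6 22)))))))) (.rp 8 (.thr 48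 32 (.thr 38 55 (.thr 26 31 (.thr 50 14 (.thr 51 49 (.thr 17 34 (.dbl 25 12 29))))))) .nd))))))))))) (.rp 53 (.str 16 (.nv (.thr 26 31 (.thr 38 55 (.thr 48 32 (.thr 37 15 (.thr 36 39 (.dbl 12 8 24)))))) (.nv (.thr 12 8 (.thr 26 31 (.thr 48 32 (.thr 24 36 (.thr 25 27 (.thr 17 29 (.dbl 51 34 38))))))) (.nv (.thr 12 8 (.thr 26 31 (.thr 38 55 (.thr 25 51 (.thr 17 29 (.thr 19 18 (.thr 28 22 (.dbl 24 20 27)))))))) (.nv (.thr 12 8 (.thr 26 31 (.thr 38 55 (.thr 14 50 (.thr 48 32 (.dbl 15 13 37)))))) (.rp 38 (.thr 48 32 (.thr 12 8 (.thr 24 36 (.thr 28 20 (.thr 26 31 (.thr 25 27 (.thr 17 29 (.dbl 19 18 22)))))))) (.rp 31 (.thr 48 32 (.thr 12 8 (.thr 36 24 (.thr 38 55 (.thr 25 51 (.thr 37 39 (.thr 13 49 (.dbl 15 14 26)))))))) (.rp 26 (.thr 48 32 (.thr 12 8 (.thr 24 36 (.thr 28 20 (.thr 38 55 (.thr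 25 51 (.thr 17 29 (.dbl 19 18 22)))))))) (.rp 12 (.thr 48 32 (.thr 38 55 (.thr 26 31 (.thr 50 14 (.thr 51 49 (.thr 17 34 (.thr 25 29 (.thr 27 24 (.dbl 15 37 39))))))))) (.rp 8 (.thr 48 32 (.thr 38 55 (.thr 26 31 (.thr 50 14 (.thr 51 49 (.thr 17 34 (.dbl 25 12 29))))))) .nd)))))))))) (.rp 52 (.str 16 (.nv (.thr 26 31 (.thr 38 55 (.thr 48 32 (.thr 37 15 (.thr 36 39 (.dbl 12 8 24)))))) (.nv (.thr 12 8 (.thr 26 31 (.thr 48 32 (.thr 24 36 (.thr 25 27 (.thr 17 29 (.dbl 51 34 38))))))) (.nv (.thr 12 8 (.thr 26 31 (.thr 38 55 (.thr 25 51 (.thr 17 29 (.thr 19 18 (.thr 24 27 (.dbl 28 20 22)))))))) (.nv (.thr 12 8 (.thr 26 31 (.thr 38 55 (.thr 14 50 (.thr 48 32 (.dbl 15 13 37)))))) (.rp 38 (.thr 48 32 (.thr 12 8 (.thr 24 36 (.thr 28 20 (.thr 26 31 (.thr 25 27 (.thr 17 29 (.dbl 19 18 22)))))))) (.rp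 31 (.thr 48 32 (.thr 12 8 (.thr 36 24 (.thr 38 55 (.thr 37 39 (.thr 15 26 (.dbl 5 10 53))))))) (.rp 26 (.thr 48 32 (.thr 12 8 (.thr 24 36 (.thr 28 20 (.thr 38 55 (.thr 25 51 (.thr 17 29 (.dbl 19 18 22)))))))) (.rp 12 (.thr 48 32 (.thr 38 55 (.thr 26 31 (.thr 50 14 (.thr 51 49 (.thr 17 34 (.thr 25 29 (.thr 27 24 (.dbl 15 37 39))))))))) (.rp 8 (.thr 48 32 (.thr 38 55 (.thr 26 31 (.thr 50 14 (.thr 51 49 (.thr 17 34 (.dbl 25 12 29))))))) .nd)))))))))) (.rp 51 (.str 5 (.nv (.thr 12 8 (.thr 15 10 (.thr 14 13 (.thr 37 53 (.thr 26 48 (.dbl 38 50 55)))))) (.nv (.thr 7 6 (.thr 37 53 (.thr 22 52 (.thr 23 20 (.dbl 55 38 39))))) (.rp 55 (.thr 12 8 (.thr 7 6 (.thr 15 10 (.thr 37 53 (.thr 52 22 (.thr 36 20 (.dbl 48 24 26))))))) (.rp 53 (.thr 12 8 (.thr 15 10 (.thr 14 13 (.thr 38 55 (.thr 26 50 (.thr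 16 31 (.dbl 48 32 37))))))) (.rp 38 (.thr 7 6 (.thr 15 10 (.thr 3 11 (.thr 37 53 (.thr 22 52 (.thr 20 23 (.dbl 60 40 41))))))) (.rp 37 (.thr 12 8 (.thr 6 7 (.thr 3 9 (.thr 38 55 (.thr 22 54 (.thr 60 41 (.dbl 20 23 40))))))) .nd))))))) (.rp 50 (.str 20 (.nv (.thr 12 8 (.thr 22 23 (.thr 38 55 (.thr 25 51 (.thr 28 19 (.dbl 60 40 44)))))) (.nv (.thr 22 23 (.thr 38 55 (.thr 6 54 (.thr 7 5 (.dbl 52 36 37))))) (.nv (.thr 12 8 (.thr 36 52 (.thr 40 60 (.thr 48 24 (.dbl 32 16 44))))) .nd)))) (.rp 49 (.thr 8 12 (.str 20 (.nv (.thr 22 23 (.thr 38 55 (.thr 6 54 (.thr 7 5 (.dbl 52 36 37))))) (.nv (.thr 22 23 (.thr 52 36 (.thr 37 7 (.thr 60 40 (.thr 48 56 (.thr 26 15 (.dbl 16 31 32))))))) (.nv (.thr 22 23 (.thr 38 55 (.thr 6 54 (.thr 52 36 (.dbl 7 5 37))))) (.rp 55 (.thr 52 36 (.thr 60 40 (.thr 22 23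 (.thr 7 37 (.thr 5 6 (.thr 15 10 (.dbl 3 11 41))))))) (.rp 52 (.thr 60 40 (.thr 22 23 (.thr 38 55 (.thr 54 6 (.thr 51 57 (.thr 17 34 (.thr 25 29 (.thr 19 28 (.dbl 3 35 41))))))))) (.rp 39 (.thr 52 36 (.thr 22 23 (.thr 37 7 (.thr 55 38 (.dbl 53 5 54))))) (.rp 37 (.thr 60 40 (.thr 22 23 (.thr 38 55 (.thr 54 6 (.thr 51 57 (.thr 17 34 (.thr 25 29 (.thr 19 28 (.dbl 3 35 41))))))))) (.rp 36 (.thr 60 40 (.thr 22 23 (.thr 38 55 (.thr 54 6 (.thr 51 57 (.thr 17 34 (.thr 25 29 (.thr 19 28 (.dbl 3 35 41))))))))) (.rp 33 (.str 17 (.nv (.thr 25 29 (.thr 40 60 (.thr 24 56 (.thr 26 27 (.dbl 16 28 31))))) (.nv (.thr 22 23 (.thr 25 29 (.thr 28 19 (.thr 24 16 (.dbl 40 56 60))))) (.nv (.thr 22 23 (.thr 38 55 (.thr 6 54 (.thr 52 36 (.dbl 7 5 37))))) (.rp 24 (.thr 60 40 (.thr 51 34 (.thr 54 57 (.thr 22 23 (.dbl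 38 6 55))))) .nd))))) (.rp 23 (.thr 52 36 (.thr 60 40 (.thr 48 56 (.thr 55 38 (.thr 53 54 (.thr 37 5 (.thr 26 15 (.dbl 16 31 32)))))))) (.rp 22 (.thr 36 52 (.thr 40 60 (.thr 44 32 (.thr 56 24 (.thr 38 55 (.thr 41 35 (.thr 26 11 (.thr 37 39 (.thr 15 48 (.dbl 5 10 53)))))))))) (.rp 17 (.str 33 (.nv (.thr 22 23 (.thr 60 40 (.thr 41 3 (.thr 37 45 (.thr 5 53 (.dbl 7 6 52)))))) (.nv (.thr 36 52 (.thr 38 55 (.thr 40 60 (.thr 44 32 (.thr 41 35 (.dbl 37 39 45)))))) (.nv (.thr 22 23 (.thr 60 40 (.thr 52 36 (.thr 48 56 (.dbl 3 18 41))))) (.nv (.thr 22 23 (.thr 38 55 (.thr 6 54 (.thr 52 36 (.dbl 7 5 37))))) (.rp 52 (.thr 60 40 (.thr 22 23 (.thr 41 3 (.thr 37 45 (.thr 5 53 (.thr 6 7 (.dbl 38 54 55))))))) .nd)))))) (.rp 7 (.thr 52 36 (.thr 60 40 (.thr 48 56 (.thr 55 38 (.thr 53 54 (.thr 37 5 (.thr 26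 15 (.dbl 16 31 32)))))))) .nd))))))))))))))) (.rp 48 (.str 20 (.nv (.thr 22 23 (.thr 38 55 (.thr 6 54 (.thr 7 5 (.dbl 52 36 37))))) (.nv (.thr 12 8 (.thr 22 23 (.thr 60 40 (.thr 41 3 (.thr 44 28 (.dbl 38 35 55)))))) (.nv (.thr 22 23 (.thr 38 55 (.thr 6 54 (.thr 52 36 (.dbl 7 5 37))))) (.rp 55 (.thr 12 8 (.thr 52 36 (.thr 60 40 (.thr 22 23 (.thr 7 37 (.thr 6 5 (.dbl 3 9 41))))))) (.rp 38 (.thr 12 8 (.thr 60 40 (.thr 28 44 (.thr 22 23 (.thr 25 19 (.thr 29 17 (.thr 31 30 (.dbl 16 24 26)))))))) (.rp 23 (.thr 12 8 (.thr 60 40 (.thr 28 44 (.thr 38 55 (.thr 25 51 (.thr 17 29 (.thr 19 22 (.dbl 16 18 24)))))))) (.rp 22 (.thr 12 8 (.thr 60 40 (.thr 28 44 (.thr 38 55 (.thr 25 51 (.thr 29 17 (.thr 31 30 (.dbl 16 24 26)))))))) .nd)))))))) (.rp 47 (.str 37 (.nv (.thr 5 53 (.thr 12 8 (.thr 15 10 (.thr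 14 13 (.thr 26 48 (.dbl 38 50 55)))))) (.nv (.thr 5 53 (.thr 7 6 (.thr 22 52 (.thr 23 20 (.dbl 55 38 39))))) (.rp 55 (.thr 5 53 (.thr 7 6 (.thr 52 22 (.thr 20 36 (.thr 60 40 (.thr 48 56 (.dbl 15 10 26))))))) (.rp 53 (.thr 38 55 (.thr 36 39 (.thr 12 8 (.thr 48 24 (.thr 16 32 (.dbl 26 15 31)))))) (.rp 38 (.thr 5 53 (.thr 7 6 (.thr 22 52 (.thr 20 23 (.thr 60 40 (.thr 15 10 (.dbl 3 11 41))))))) (.rp 5 (.thr 38 55 (.thr 36 39 (.thr 12 8 (.thr 48 24 (.thr 16 32 (.dbl 26 15 31)))))) .nd))))))) (.rp 46 (.str 5 (.nv (.thr 12 8 (.thr 15 10 (.thr 14 13 (.thr 37 53 (.thr 26 48 (.dbl 38 50 55)))))) (.nv (.thr 38 55 (.thr 7 6 (.thr 37 53 (.thr 36 39 (.dbl 52 20 22))))) (.rp 55 (.thr 12 8 (.thr 7 6 (.thr 15 10 (.thr 37 53 (.thr 52 22 (.thr 36 20 (.dbl 48 24 26))))))) (.rp 53 (.thr 12 8 (.thr 15 10 (.thr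 14 13 (.thr 38 55 (.thr 26 50 (.thr 16 31 (.dbl 48 32 37))))))) (.rp 38 (.str 34 (.nv (.thr 12 8 (.thr 17 51 (.thr 25 29 (.thr 37 53 (.thr 13 49 (.dbl 15 10 14)))))) (.nv (.thr 7 6 (.thr 15 10 (.thr 37 53 (.thr 22 52 (.thr 20 23 (.thr 60 40 (.dbl 3 11 41))))))) (.nv (.thr 15 10 (.thr 17 51 (.thr 12 8 (.thr 25 29 (.thr 37 53 (.dbl 13 14 49)))))) (.rp 53 (.thr 51 17 (.thr 7 6 (.thr 15 10 (.thr 3 11 (.thr 35 19 (.thr 39 27 (.thr 23 55 (.dbl 43 47 63)))))))) (.rp 37 (.thr 51 17 (.thr 7 6 (.thr 15 10 (.thr 3 11 (.thr 35 19 (.thr 39 27 (.thr 23 55 (.dbl 43 47 63)))))))) (.rp 15 (.thr 17 51 (.thr 7 6 (.thr 37 53 (.thr 22 52 (.thr 20 23 (.thr 12 8 (.thr 25 29 (.thr 28 19 (.dbl 60 40 44))))))))) (.rp 14 (.thr 7 6 (.thr 37 53 (.thr 22 52 (.thr 20 23 (.thr 60 40 (.thr 41 3 (.thr 45 33 (.dbl 15 10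 30)))))))) (.rp 10 (.thr 17 51 (.thr 7 6 (.thr 37 53 (.thr 22 52 (.thr 20 23 (.thr 12 8 (.thr 25 29 (.thr 28 19 (.dbl 60 40 44))))))))) .nd))))))))) (.rp 37 (.thr 12 8 (.thr 6 7 (.thr 3 9 (.thr 38 55 (.thr 22 54 (.thr 60 41 (.dbl 20 23 40))))))) .nd))))))) (.rp 45 (.str 16 (.nv (.thr 26 31 (.thr 38 55 (.thr 48 32 (.thr 37 15 (.thr 36 39 (.dbl 12 8 24)))))) (.nv (.thr 12 8 (.thr 26 31 (.thr 38 55 (.thr 25 51 (.thr 17 29 (.thr 19 18 (.thr 28 22 (.dbl 24 20 27)))))))) (.nv (.thr 12 8 (.thr 26 31 (.thr 38 55 (.thr 14 50 (.thr 48 32 (.dbl 15 13 37)))))) (.rp 55 (.thr 12 8 (.thr 48 32 (.thr 24 36 (.thr 26 31 (.thr 25 27 (.thr 17 29 (.dbl 51 34 38))))))) (.rp 38 (.thr 12 8 (.thr 48 32 (.thr 24 36 (.thr 28 20 (.thr 26 31 (.thr 25 27 (.thr 17 29 (.dbl 19 18 22)))))))) (.rp 31 (.thr 12 8 (.thr 48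 32 (.thr 36 24 (.thr 38 55 (.thr 37 39 (.thr 5 53 (.dbl 15 10 26))))))) (.rp 26 (.thr 12 8 (.thr 48 32 (.thr 24 36 (.thr 28 20 (.thr 38 55 (.thr 25 51 (.thr 17 29 (.dbl 19 18 22)))))))) (.rp 12 (.thr 48 32 (.thr 26 31 (.thr 37 15 (.thr 5 53 (.thr 7 6 (.thr 52 22 (.thr 20 36 (.dbl 60 40 56)))))))) (.rp 8 (.thr 48 32 (.thr 26 31 (.thr 37 15 (.thr 38 55 (.thr 36 39 (.thr 24 12 (.dbl 20 28 52))))))) .nd)))))))))) (.rp 44 (.str 16 (.nv (.thr 26 31 (.thr 38 55 (.thr 48 32 (.thr 37 15 (.thr 36 39 (.dbl 12 8 24)))))) (.nv (.thr 12 8 (.thr 26 31 (.thr 38 55 (.thr 25 51 (.thr 17 29 (.thr 19 18 (.thr 28 22 (.dbl 24 20 27)))))))) (.nv (.thr 12 8 (.thr 26 31 (.thr 38 55 (.thr 14 50 (.thr 15 13 (.dbl 48 32 37)))))) (.rp 55 (.thr 12 8 (.thr 48 32 (.thr 36 24 (.thr 52 20 (.thr 26 31 (.thr 37 15 (.thr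 5 53 (.dbl 7 6 22)))))))) (.rp 38 (.thr 12 8 (.thr 48 32 (.thr 36 24 (.thr 52 20 (.thr 26 31 (.thr 37 15 (.thr 5 53 (.dbl 7 6 22)))))))) (.rp 31 (.thr 12 8 (.thr 48 32 (.thr 36 24 (.thr 38 55 (.thr 37 39 (.thr 5 53 (.dbl 15 10 26))))))) (.rp 26 (.thr 12 8 (.thr 48 32 (.thr 36 24 (.thr 52 20 (.thr 38 55 (.thr 37 39 (.thr 5 53 (.dbl 7 6 22)))))))) (.rp 12 (.thr 48 32 (.thr 26 31 (.thr 37 15 (.thr 5 53 (.thr 7 6 (.thr 52 22 (.thr 36 20 (.dbl 38 39 55)))))))) (.rp 8 (.thr 48 32 (.thr 26 31 (.thr 37 15 (.thr 38 55 (.thr 36 39 (.thr 24 12 (.dbl 20 28 52))))))) .nd)))))))))) (.rp 43 (.str 20 (.nv (.thr 12 8 (.thr 22 23 (.thr 38 55 (.thr 25 51 (.thr 28 19 (.dbl 60 40 44)))))) (.nv (.thr 22 23 (.thr 38 55 (.thr 6 54 (.thr 7 5 (.dbl 52 36 37))))) (.nv (.thr 40 60 (.thr 12 8 (.thr 36 52 (.thr 48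 24 (.dbl 32 16 44))))) (.rp 40 (.str 41 (.nv (.thr 12 8 (.thr 36 52 (.thr 24 48 (.thr 28 16 (.thr 38 55 (.dbl 44 35 60)))))) (.nv (.thr 12 8 (.thr 22 23 (.thr 3 60 (.thr 9 6 (.thr 25 57 (.thr 51 38 (.dbl 17 29 34))))))) (.nv (.thr 22 23 (.thr 38 55 (.thr 6 54 (.thr 52 36 (.dbl 7 5 37))))) (.rp 38 (.thr 52 36 (.thr 12 8 (.thr 22 23 (.thr 3 60 (.thr 6 9 (.dbl 7 5 37)))))) .nd))))) .nd))))) (.rp 41 (.str 20 (.nv (.thr 12 8 (.thr 22 23 (.thr 38 55 (.thr 25 51 (.thr 28 19 (.dbl 60 40 44)))))) (.nv (.thr 12 8 (.thr 36 52 (.thr 24 48 (.thr 28 16 (.dbl 60 40 44))))) (.nv (.thr 22 23 (.thr 38 55 (.thr 6 54 (.thr 52 36 (.dbl 7 5 37))))) (.rp 43 (.thr 40 60 (.thr 12 8 (.thr 36 52 (.thr 32 44 (.dbl 48 16 24))))) (.rp 40 (.str 43 (.nv (.thr 12 8 (.thr 36 52 (.thr 24 48 (.thr 16 28 (.thr 26 31 (.thr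 38 55 (.dbl 25 27 51))))))) (.nv (.thr 12 8 (.thr 23 22 (.thr 38 55 (.thr 25 51 (.thr 29 17 (.dbl 63 3 46)))))) (.nv (.thr 22 23 (.thr 38 55 (.thr 6 54 (.thr 52 36 (.dbl 7 5 37))))) (.rp 55 (.thr 12 8 (.thr 36 52 (.thr 24 48 (.thr 28 16 (.thr 22 23 (.thr 25 19 (.thr 17 29 (.dbl 51 34 38)))))))) (.rp 38 (.thr 12 8 (.thr 36 52 (.thr 24 48 (.thr 16 28 (.thr 26 31 (.thr 25 27 (.thr 29 17 (.thr 23 22 (.dbl 63 3 46))))))))) .nd)))))) .nd)))))) (.rp 40 (.str 16 (.nv (.thr 26 31 (.thr 38 55 (.thr 48 32 (.thr 50 14 (.thr 51 49 (.dbl 12 8 25)))))) (.nv (.thr 12 8 (.thr 26 31 (.thr 38 55 (.thr 25 51 (.thr 17 29 (.thr 19 18 (.thr 28 22 (.dbl 24 20 27)))))))) (.nv (.thr 12 8 (.thr 48 32 (.thr 26 31 (.thr 37 15 (.thr 38 55 (.dbl 36 24 39)))))) (.rp 55 (.thr 12 8 (.thr 48 32 (.thr 26 31 (.thr 37 15 (.thr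 5 53 (.thr 7 6 (.thr 52 22 (.dbl 36 20 24)))))))) (.rp 43 (.str 41 (.nv (.thr 8 12 (.thr 26 31 (.thr 48 32 (.thr 11 56 (.thr 10 9 (.dbl 15 5 37)))))) (.nv (.thr 8 12 (.thr 26 31 (.thr 11 56 (.thr 10 9 (.thr 38 55 (.thr 14 50 (.thr 6 2 (.dbl 5 7 15)))))))) (.nv (.thr 12 8 (.thr 38 55 (.thr 44 35 (.thr 28 60 (.thr 24 20 (.dbl 48 32 36)))))) (.rp 56 (.thr 48 32 (.thr 26 31 (.thr 37 15 (.thr 38 55 (.thr 36 39 (.dbl 12 8 24)))))) (.rp 12 (.thr 48 32 (.thr 26 31 (.thr 37 15 (.thr 5 53 (.thr 56 11 (.thr 52 60 (.dbl 7 6 22))))))) (.rp 8 (.thr 48 32 (.thr 26 31 (.thr 37 15 (.thr 5 53 (.thr 56 11 (.thr 52 60 (.dbl 7 6 22))))))) .nd))))))) (.rp 41 (.str 43 (.nv (.thr 12 8 (.thr 26 31 (.thr 38 55 (.thr 25 51 (.thr 17 29 (.thr 19 18 (.thr 24 27 (.dbl 28 20 22)))))))) (.nv (.thr 26 31 (.thr 38 55 (.thr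 48 32 (.thr 37 15 (.thr 36 39 (.dbl 12 8 24)))))) (.nv (.thr 12 8 (.thr 26 31 (.thr 38 55 (.thr 14 50 (.thr 15 13 (.thr 5 10 (.dbl 37 48 53))))))) (.nv (.thr 12 8 (.thr 48 32 (.thr 38 55 (.thr 25 51 (.thr 26 31 (.dbl 24 27 36)))))) (.rp 55 (.thr 12 8 (.thr 48 32 (.thr 26 31 (.thr 37 15 (.thr 5 53 (.thr 7 6 (.thr 52 22 (.dbl 36 20 24)))))))) (.rp 38 (.thr 12 8 (.thr 48 32 (.thr 26 31 (.thr 37 15 (.thr 5 53 (.thr 7 6 (.thr 22 52 (.thr 20 23 (.dbl 24 28 36))))))))) (.rp 31 (.thr 12 8 (.thr 48 32 (.thr 38 55 (.thr 25 51 (.thr 17 29 (.thr 19 18 (.thr 28 22 (.dbl 24 20 36)))))))) (.rp 26 (.thr 12 8 (.thr 48 32 (.thr 38 55 (.thr 25 51 (.thr 17 29 (.thr 19 18 (.thr 22 28 (.thr 20 23 (.dbl 36 24 52))))))))) (.rp 24 (.thr 48 32 (.thr 38 55 (.thr 26 31 (.thr 50 14 (.thr 51 49 (.dbl 12 8 25))))))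 (.rp 12 (.thr 48 32 (.thr 55 38 (.thr 26 31 (.thr 37 15 (.thr 53 5 (.thr 52 54 (.thr 22 7 (.dbl 20 23 36)))))))) (.rp 8 (.thr 48 32 (.thr 38 55 (.thr 26 31 (.thr 37 15 (.thr 36 39 (.thr 24 12 (.dbl 20 28 52))))))) .nd)))))))))))) (.rp 38 (.thr 12 8 (.thr 48 32 (.thr 26 31 (.thr 37 15 (.thr 5 53 (.thr 7 6 (.thr 22 52 (.thr 20 23 (.dbl 24 28 36))))))))) (.rp 31 (.thr 12 8 (.thr 48 32 (.thr 38 55 (.thr 25 51 (.thr 17 29 (.thr 19 18 (.thr 28 22 (.dbl 24 20 36)))))))) (.rp 26 (.thr 12 8 (.thr 48 32 (.thr 38 55 (.thr 25 51 (.thr 17 29 (.thr 19 18 (.thr 22 28 (.thr 20 23 (.dbl 36 24 52))))))))) (.rp 25 (.thr 48 32 (.thr 26 31 (.thr 37 15 (.thr 38 55 (.thr 36 39 (.dbl 12 8 24)))))) (.rp 12 (.thr 48 32 (.thr 26 31 (.thr 37 15 (.thr 5 53 (.thr 7 6 (.thr 52 22 (.thr 36 20 (.dbl 38 39 55)))))))) (.rp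 8 (.thr 48 32 (.thr 26 31 (.thr 37 15 (.thr 38 55 (.thr 36 39 (.thr 24 12 (.dbl 20 28 52))))))) .nd))))))))))))) (.rp 39 (.str 5 (.nv (.thr 7 6 (.thr 15 10 (.thr 37 53 (.thr 22 52 (.thr 20 23 (.thr 60 40 (.dbl 3 11 41))))))) (.nv (.thr 7 6 (.thr 37 53 (.thr 52 22 (.thr 20 36 (.thr 60 40 (.thr 48 56 (.dbl 15 10 26))))))) (.nv (.thr 12 8 (.thr 15 10 (.thr 14 13 (.thr 37 53 (.thr 26 48 (.dbl 38 50 55)))))) (.rp 53 (.thr 12 8 (.thr 15 10 (.thr 14 13 (.thr 38 55 (.thr 26 50 (.thr 16 31 (.dbl 48 32 37))))))) (.rp 37 (.thr 12 8 (.thr 15 10 (.thr 14 13 (.thr 38 55 (.thr 26 50 (.thr 16 31 (.thr 25 51 (.thr 24 27 (.dbl 48 32 36))))))))) (.rp 26 (.thr 12 8 (.thr 37 53 (.thr 38 55 (.thr 25 51 (.thr 13 49 (.dbl 15 10 14)))))) (.rp 15 (.thr 12 8 (.thr 7 6 (.thr 37 53 (.thr 22 52 (.thr 20 23 (.thr 60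 40 (.thr 28 44 (.thr 25 19 (.dbl 38 51 55))))))))) (.rp 10 (.thr 12 8 (.thr 7 6 (.thr 37 53 (.thr 52 22 (.thr 36 20 (.thr 48 24 (.thr 16 32 (.dbl 26 15 31)))))))) .nd))))))))) (.rp 38 (.str 20 (.nv (.thr 22 23 (.thr 52 36 (.thr 37 7 (.thr 5 53 (.thr 15 10 (.thr 60 40 (.dbl 48 26 56))))))) (.nv (.thr 12 8 (.thr 36 52 (.thr 40 60 (.thr 48 24 (.dbl 32 16 44))))) (.rp 60 (.thr 52 36 (.thr 22 23 (.thr 37 7 (.thr 5 53 (.thr 15 10 (.thr 26 48 (.thr 18 30 (.thr 16 31 (.thr 19 17 (.dbl 28 24 25)))))))))) (.rp 52 (.thr 12 8 (.thr 60 40 (.thr 28 44 (.thr 22 23 (.thr 25 19 (.thr 29 17 (.thr 31 30 (.dbl 16 24 26)))))))) (.rp 48 (.thr 12 8 (.thr 60 40 (.thr 28 44 (.thr 22 23 (.thr 25 19 (.thr 29 17 (.thr 31 30 (.dbl 16 24 26)))))))) (.rp 46 (.str 34 (.nv (.thr 12 8 (.thr 17 51 (.thr 22 23 (.thr 25 29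 (.thr 28 19 (.thr 24 16 (.dbl 36 48 52))))))) (.nv (.thr 17 51 (.thr 12 8 (.thr 25 29 (.thr 22 23 (.thr 28 19 (.dbl 60 40 44)))))) (.nv (.thr 12 8 (.thr 36 52 (.thr 40 60 (.thr 48 24 (.dbl 32 16 44))))) (.rp 25 (.thr 36 52 (.thr 40 60 (.thr 32 44 (.thr 48 16 (.dbl 12 8 24))))) (.rp 12 (.thr 51 17 (.thr 52 36 (.thr 22 23 (.thr 37 7 (.thr 53 5 (.thr 60 40 (.dbl 54 55 57))))))) (.rp 8 (.thr 51 17 (.thr 52 36 (.thr 22 23 (.thr 37 7 (.thr 53 5 (.thr 60 40 (.dbl 54 55 57))))))) .nd))))))) (.rp 44 (.thr 52 36 (.thr 22 23 (.thr 37 7 (.thr 5 53 (.thr 15 10 (.thr 26 48 (.thr 30 18 (.dbl 60 40 45)))))))) (.rp 40 (.thr 52 36 (.thr 22 23 (.thr 37 7 (.thr 5 53 (.thr 15 10 (.thr 26 48 (.thr 18 30 (.thr 16 31 (.thr 19 17 (.dbl 28 24 25)))))))))) (.rp 36 (.str 37 (.nv (.thr 5 53 (.thr 22 23 (.dbl 7 6 52)))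 (.rp 53 (.thr 22 23 (.thr 52 7 (.thr 60 40 (.thr 48 56 (.thr 26 15 (.dbl 16 31 32)))))) (.rp 52 (.thr 5 53 (.thr 22 23 (.thr 7 6 (.thr 60 40 (.thr 15 10 (.dbl 3 11 41)))))) (.rp 46 (.str 34 (.nv (.thr 5 53 (.thr 7 6 (.dbl 22 23 52))) (.rp 53 (.thr 17 51 (.thr 22 23 (.thr 12 8 (.thr 60 40 (.thr 25 29 (.dbl 28 19 44)))))) (.rp 52 (.thr 17 51 (.thr 5 53 (.thr 12 8 (.thr 25 29 (.thr 13 49 (.dbl 15 10 14)))))) (.rp 23 (.thr 17 51 (.thr 5 53 (.thr 12 8 (.thr 25 29 (.thr 13 49 (.dbl 15 10 14)))))) (.rp 22 (.thr 17 51 (.thr 5 53 (.thr 12 8 (.thr 25 29 (.thr 13 49 (.dbl 15 10 14)))))) (.rp 7 (.thr 17 51 (.thr 5 53 (.thr 12 8 (.thr 25 29 (.thr 13 49 (.dbl 15 10 14)))))) (.rp 6 (.thr 17 51 (.thr 5 53 (.thr 12 8 (.thr 25 29 (.thr 13 49 (.dbl 15 10 14)))))) (.rp 5 (.thr 17 51 (.thr 22 23 (.thr 12 8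 (.thr 60 40 (.thr 25 29 (.dbl 28 19 44)))))) .nd))))))))) (.rp 34 (.str 46 (.nv (.thr 22 23 (.thr 7 52 (.dbl 5 6 53))) (.rp 53 (.thr 22 23 (.thr 7 52 (.thr 6 5 (.thr 60 40 (.thr 12 8 (.dbl 3 9 41)))))) (.rp 52 (.thr 22 23 (.thr 5 53 (.thr 6 7 (.thr 60 40 (.thr 12 8 (.dbl 3 9 41)))))) (.rp 23 (.thr 53 5 (.thr 12 8 (.thr 63 29 (.thr 48 58 (.thr 16 32 (.dbl 26 15 31)))))) (.rp 22 (.thr 53 5 (.thr 12 8 (.thr 63 29 (.thr 48 58 (.thr 16 32 (.dbl 26 15 31)))))) (.rp 7 (.thr 22 23 (.thr 5 53 (.thr 15 10 (.thr 26 48 (.thr 30 18 (.dbl 60 40 45)))))) (.rp 6 (.thr 22 23 (.thr 7 52 (.thr 5 53 (.thr 15 10 (.thr 3 11 (.dbl 60 40 41)))))) (.rp 5 (.thr 22 23 (.thr 52 7 (.thr 60 40 (.thr 48 56 (.thr 26 15 (.dbl 16 31 32)))))) .nd))))))))) (.rp 23 (.thr 5 53 (.thr 7 6 (.thr 22 52 (.thr 60 40 (.thr 15 10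 (.dbl 3 11 41)))))) (.rp 22 (.thr 5 53 (.thr 12 8 (.thr 60 40 (.thr 15 10 (.thr 26 48 (.thr 16 31 (.dbl 28 24 44))))))) (.rp 7 (.thr 5 53 (.thr 22 23 (.thr 60 40 (.thr 41 3 (.thr 45 33 (.dbl 15 10 30)))))) (.rp 6 (.thr 5 53 (.thr 22 23 (.thr 52 7 (.thr 60 40 (.thr 48 56 (.dbl 15 10 26)))))) (.rp 5 (.thr 22 23 (.thr 52 7 (.thr 60 40 (.thr 48 56 (.thr 26 15 (.dbl 16 31 32)))))) .nd))))))))))) (.rp 34 (.str 46 (.nv (.thr 36 52 (.thr 40 60 (.thr 32 44 (.thr 48 16 (.dbl 12 8 24))))) (.nv (.thr 12 8 (.thr 22 23 (.thr 29 63 (.thr 25 17 (.thr 28 19 (.thr 31 30 (.dbl 16 24 26))))))) (.nv (.thr 12 8 (.thr 36 52 (.thr 40 60 (.thr 48 24 (.dbl 32 16 44))))) (.rp 24 (.thr 22 23 (.thr 12 8 (.thr 29 63 (.thr 25 17 (.thr 28 19 (.dbl 60 40 44)))))) (.rp 16 (.thr 22 23 (.thr 60 40 (.thr 12 8 (.thr 28 44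 (.thr 29 63 (.dbl 25 17 19)))))) (.rp 12 (.thr 52 36 (.thr 22 23 (.thr 37 7 (.thr 5 53 (.thr 15 10 (.thr 60 40 (.dbl 48 26 56))))))) (.rp 8 (.thr 52 36 (.thr 22 23 (.thr 37 7 (.thr 5 53 (.thr 15 10 (.thr 60 40 (.dbl 48 26 56))))))) .nd)))))))) (.rp 32 (.thr 12 8 (.thr 36 52 (.thr 24 48 (.thr 28 16 (.dbl 60 40 44))))) .nd)))))))))))) (.rp 37 (.str 20 (.nv (.thr 12 8 (.thr 60 40 (.thr 28 44 (.thr 24 16 (.dbl 36 48 52))))) (.nv (.thr 12 8 (.thr 22 23 (.thr 36 52 (.thr 38 55 (.thr 25 51 (.thr 28 19 (.dbl 24 16 48))))))) (.nv (.thr 22 23 (.thr 38 55 (.thr 54 6 (.thr 60 40 (.thr 51 57 (.dbl 12 8 25)))))) (.nv (.thr 12 8 (.thr 36 52 (.thr 40 60 (.thr 48 24 (.dbl 32 16 44))))) (.rp 47 (.str 32 (.nv (.thr 8 12 (.thr 16 48 (.thr 24 28 (.dbl 40 56 60)))) (.nv (.thr 12 8 (.thr 36 52 (.dbl 48 16 24)))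 (.nv (.thr 40 60 (.dbl 36 44 52)) .nd)))) (.rp 32 (.str 47 (.nv (.thr 12 8 (.thr 22 23 (.thr 36 52 (.thr 38 55 (.thr 25 51 (.thr 28 19 (.dbl 24 16 48))))))) (.nv (.thr 22 23 (.thr 38 55 (.thr 60 40 (.thr 41 3 (.thr 44 35 (.dbl 12 8 28)))))) (.nv (.thr 12 8 (.thr 22 23 (.thr 38 55 (.thr 6 54 (.thr 3 9 (.dbl 60 40 41)))))) (.nv (.thr 12 8 (.thr 60 40 (.thr 28 44 (.thr 36 52 (.dbl 24 16 48))))) (.rp 22 (.thr 12 8 (.thr 60 40 (.thr 44 28 (.thr 46 45 (.thr 29 63 (.thr 25 17 (.dbl 38 51 55))))))) (.rp 12 (.thr 23 22 (.thr 55 38 (.thr 39 7 (.thr 52 36 (.thr 43 35 (.thr 63 3 (.thr 15 31 (.dbl 51 27 59)))))))) (.rp 8 (.thr 22 23 (.thr 60 40 (.thr 38 55 (.thr 54 6 (.thr 51 57 (.thr 25 12 (.dbl 17 29 34))))))) (.rp 7 (.thr 12 8 (.thr 22 23 (.thr 60 40 (.thr 28 44 (.thr 36 52 (.dbl 24 16 48))))))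 .nd))))))))) (.rp 25 (.thr 36 52 (.thr 40 60 (.thr 32 44 (.thr 48 16 (.dbl 12 8 24))))) (.rp 12 (.thr 60 40 (.thr 22 23 (.thr 38 55 (.thr 54 6 (.thr 51 57 (.thr 17 34 (.thr 25 29 (.thr 19 28 (.dbl 3 35 41))))))))) (.rp 8 (.thr 60 40 (.thr 22 23 (.thr 38 55 (.thr 54 6 (.thr 51 57 (.thr 17 34 (.dbl 25 12 29))))))) .nd)))))))))) (.rp 36 (.str 16 (.nv (.thr 26 31 (.thr 38 55 (.thr 48 32 (.thr 50 14 (.thr 51 49 (.thr 17 34 (.dbl 25 12 29))))))) (.nv (.thr 12 8 (.thr 38 55 (.thr 25 51 (.thr 17 29 (.thr 19 18 (.thr 28 22 (.thr 20 24 (.dbl 60 40 44)))))))) (.nv (.thr 12 8 (.thr 26 31 (.thr 38 55 (.thr 14 50 (.thr 15 13 (.dbl 48 32 37)))))) (.rp 55 (.thr 48 32 (.thr 12 8 (.thr 26 31 (.thr 37 15 (.thr 5 53 (.thr 6 7 (.thr 3 9 (.thr 33 18 (.thr 41 45 (.thr 60 22 (.dbl 56 11 52))))))))))) (.rp 38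 (.thr 48 32 (.thr 8 12 (.thr 26 31 (.thr 37 15 (.thr 5 53 (.thr 7 6 (.thr 22 52 (.thr 20 23 (.thr 24 28 (.dbl 40 56 60)))))))))) (.rp 26 (.thr 12 8 (.thr 38 55 (.thr 25 51 (.thr 17 29 (.thr 19 18 (.thr 22 28 (.thr 6 54 (.thr 3 9 (.thr 60 41 (.dbl 20 23 40)))))))))) (.rp 25 (.thr 48 32 (.thr 55 38 (.thr 26 31 (.thr 37 15 (.thr 5 53 (.thr 7 6 (.thr 22 52 (.dbl 23 20 39)))))))) (.rp 12 (.thr 48 32 (.thr 55 38 (.thr 26 31 (.thr 37 15 (.thr 5 53 (.thr 7 6 (.thr 22 52 (.dbl 23 20 39)))))))) .nd))))))))) (.rp 35 (.str 5 (.nv (.thr 12 8 (.thr 15 10 (.thr 14 13 (.thr 37 53 (.thr 26 48 (.dbl 38 50 55)))))) (.nv (.thr 7 6 (.thr 37 53 (.thr 22 52 (.thr 23 20 (.dbl 55 38 39))))) (.rp 55 (.thr 12 8 (.thr 7 6 (.thr 15 10 (.thr 37 53 (.thr 52 22 (.thr 36 20 (.dbl 48 24 26))))))) (.rp 53 (.thr 12 8 (.thr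 15 10 (.thr 14 13 (.thr 38 55 (.thr 26 50 (.thr 16 31 (.dbl 48 32 37))))))) (.rp 38 (.thr 7 6 (.thr 15 10 (.thr 3 11 (.thr 37 53 (.thr 22 52 (.thr 20 23 (.dbl 60 40 41))))))) (.rp 37 (.thr 12 8 (.thr 6 7 (.thr 3 9 (.thr 38 55 (.thr 22 54 (.thr 60 41 (.dbl 20 23 40))))))) .nd))))))) (.rp 34 (.thr 8 12 (.thr 38 55 (.str 5 (.nv (.thr 7 6 (.thr 37 53 (.thr 52 22 (.dbl 36 20 39)))) (.nv (.thr 37 53 (.thr 36 39 (.thr 52 20 (.dbl 7 6 22)))) (.rp 53 (.str 52 (.nv (.thr 36 20 (.thr 37 39 (.dbl 7 6 22))) (.rp 39 (.thr 20 36 (.thr 7 6 (.dbl 22 23 37))) (.rp 37 (.thr 20 36 (.thr 6 7 (.dbl 22 23 54))) (.rp 36 (.thr 7 6 (.thr 22 37 (.thr 20 23 (.thr 60 40 (.thr 15 10 (.dbl 3 11 41)))))) (.rp 22 (.thr 20 36 (.thr 60 40 (.thr 48 56 (.thr 15 10 (.thr 26 37 (.dbl 16 31 32)))))) (.rp 20 (.thr 7 6 (.thr 37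 22 (.thr 39 36 (.thr 15 10 (.thr 27 51 (.thr 26 48 (.thr 24 25 (.thr 56 40 (.dbl 11 3 41))))))))) (.rp 7 (.thr 20 36 (.thr 60 40 (.thr 48 56 (.thr 15 10 (.thr 26 37 (.dbl 16 31 32)))))) (.rp 6 (.thr 20 36 (.thr 22 23 (.thr 7 37 (.thr 60 40 (.thr 15 10 (.dbl 3 11 41)))))) .nd))))))))) (.rp 52 (.thr 6 7 (.thr 53 37 (.thr 22 54 (.thr 10 15 (.thr 11 9 (.thr 14 2 (.thr 26 50 (.thr 18 30 (.thr 41 56 (.thr 60 3 (.dbl 20 23 40))))))))))) (.rp 39 (.thr 7 6 (.thr 37 53 (.thr 52 22 (.thr 20 36 (.thr 15 10 (.thr 60 40 (.dbl 48 26 56))))))) (.rp 37 (.thr 6 7 (.thr 22 54 (.thr 10 15 (.thr 11 9 (.thr 14 2 (.thr 26 50 (.thr 18 30 (.thr 41 56 (.thr 60 3 (.dbl 20 23 40)))))))))) (.rp 36 (.thr 6 7 (.thr 22 54 (.thr 10 15 (.thr 11 9 (.thr 14 2 (.thr 26 50 (.thr 18 30 (.thr 41 56 (.thr 60 3 (.dbl 20 23 40))))))))))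 (.rp 22 (.thr 7 6 (.thr 37 53 (.thr 39 36 (.thr 15 10 (.thr 27 51 (.thr 26 48 (.thr 24 25 (.thr 56 40 (.dbl 11 3 41))))))))) (.rp 20 (.thr 7 6 (.thr 37 53 (.thr 39 36 (.thr 15 10 (.thr 3 11 (.thr 51 27 (.thr 35 19 (.thr 41 44 (.dbl 22 52 60))))))))) (.rp 7 (.thr 37 53 (.thr 39 36 (.thr 15 10 (.thr 27 51 (.thr 26 48 (.thr 24 25 (.thr 40 56 (.thr 16 31 (.dbl 20 28 60))))))))) (.rp 6 (.thr 37 53 (.thr 39 36 (.thr 15 10 (.thr 27 51 (.thr 26 48 (.thr 24 25 (.thr 40 56 (.thr 16 31 (.dbl 20 28 60))))))))) .nd)))))))))))))) (.rp 33 (.thr 8 12 (.str 5 (.nv (.thr 7 6 (.thr 37 53 (.thr 38 55 (.thr 52 22 (.dbl 36 20 39))))) (.nv (.thr 7 6 (.thr 15 10 (.thr 3 11 (.thr 37 53 (.thr 22 52 (.thr 20 23 (.dbl 60 40 41))))))) (.nv (.thr 37 53 (.thr 38 55 (.thr 36 39 (.thr 52 20 (.dbl 7 6 22))))) (.rp 55 (.thr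 7 6 (.thr 15 10 (.thr 37 53 (.thr 52 22 (.thr 20 36 (.thr 60 40 (.dbl 48 26 56))))))) (.rp 53 (.thr 6 7 (.thr 10 15 (.thr 14 2 (.thr 11 9 (.thr 38 55 (.thr 26 50 (.thr 56 41 (.thr 40 24 (.thr 20 60 (.dbl 22 23 54)))))))))) (.rp 52 (.thr 7 6 (.thr 15 10 (.thr 3 11 (.thr 37 53 (.thr 26 48 (.thr 31 16 (.thr 55 38 (.thr 23 39 (.dbl 63 43 47))))))))) (.rp 49 (.str 17 (.nv (.thr 7 6 (.thr 15 10 (.thr 51 34 (.thr 39 27 (.dbl 55 23 38))))) (.nv (.thr 7 6 (.thr 37 53 (.thr 22 52 (.thr 23 20 (.dbl 55 38 39))))) (.nv (.thr 15 10 (.thr 38 55 (.thr 51 34 (.thr 39 27 (.dbl 37 36 53))))) (.rp 55 (.thr 15 10 (.thr 25 29 (.thr 51 34 (.thr 27 39 (.thr 26 24 (.dbl 37 48 53)))))) (.rp 39 (.thr 7 6 (.thr 15 10 (.thr 3 11 (.thr 37 53 (.thr 22 52 (.thr 20 23 (.dbl 60 40 41))))))) (.rp 38 (.thr 7 6 (.thr 15 10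 (.thr 3 11 (.thr 37 53 (.thr 22 52 (.thr 20 23 (.dbl 60 40 41))))))) .nd))))))) (.rp 37 (.thr 6 7 (.thr 10 15 (.thr 14 2 (.thr 11 9 (.thr 38 55 (.thr 26 50 (.thr 41 56 (.thr 22 54 (.thr 60 3 (.dbl 20 23 40)))))))))) (.rp 22 (.thr 7 6 (.thr 15 10 (.thr 3 11 (.thr 37 53 (.thr 26 48 (.thr 31 16 (.thr 63 47 (.thr 23 43 (.dbl 55 38 39))))))))) (.rp 20 (.thr 7 6 (.thr 15 10 (.thr 3 11 (.thr 37 53 (.thr 26 48 (.thr 22 52 (.thr 30 18 (.dbl 60 41 45)))))))) (.rp 17 (.str 49 (.nv (.thr 7 6 (.thr 15 10 (.thr 3 11 (.thr 37 53 (.thr 22 52 (.thr 20 23 (.dbl 60 40 41))))))) (.nv (.thr 15 10 (.thr 37 53 (.thr 38 55 (.thr 39 36 (.thr 51 27 (.dbl 48 26 50)))))) (.nv (.thr 37 53 (.thr 38 55 (.thr 36 39 (.thr 52 20 (.dbl 7 6 22))))) (.rp 55 (.thr 37 53 (.thr 7 6 (.thr 52 22 (.thr 20 36 (.thr 60 40 (.thr 48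 56 (.dbl 15 10 26))))))) (.rp 54 (.thr 37 53 (.thr 7 6 (.thr 52 22 (.thr 38 55 (.dbl 36 20 39))))) (.rp 53 (.thr 7 6 (.thr 55 38 (.thr 39 23 (.thr 15 10 (.thr 51 27 (.thr 48 50 (.thr 16 32 (.dbl 26 31 37)))))))) (.rp 52 (.thr 37 53 (.thr 7 6 (.thr 55 38 (.thr 39 23 (.thr 15 10 (.thr 51 27 (.dbl 48 26 50))))))) (.rp 37 (.thr 6 7 (.thr 38 55 (.thr 22 54 (.thr 10 15 (.thr 14 2 (.thr 26 50 (.thr 11 9 (.thr 41 56 (.thr 60 3 (.dbl 20 23 40)))))))))) .nd))))))))) (.rp 7 (.thr 15 10 (.thr 37 53 (.thr 38 55 (.thr 39 36 (.thr 51 27 (.thr 17 34 (.thr 25 29 (.thr 49 13 (.dbl 48 26 50))))))))) (.rp 6 (.thr 15 10 (.thr 37 53 (.thr 38 55 (.thr 39 36 (.thr 51 27 (.thr 17 34 (.thr 25 29 (.thr 49 13 (.dbl 48 26 50))))))))) .nd))))))))))))))) (.rp 32 (.str 37 (.nv (.thr 5 53 (.thr 12 8 (.thr 15 10 (.thr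 14 13 (.thr 26 48 (.dbl 38 50 55)))))) (.nv (.thr 5 53 (.thr 7 6 (.thr 22 52 (.thr 23 20 (.dbl 55 38 39))))) (.rp 55 (.thr 5 53 (.thr 7 6 (.thr 52 22 (.thr 36 20 (.thr 12 8 (.thr 48 24 (.dbl 15 10 26))))))) (.rp 53 (.thr 38 55 (.thr 36 39 (.thr 12 8 (.thr 25 51 (.thr 13 49 (.thr 15 14 (.dbl 48 24 26))))))) (.rp 38 (.thr 5 53 (.thr 7 6 (.thr 22 52 (.thr 20 23 (.thr 60 40 (.thr 15 10 (.dbl 3 11 41))))))) (.rp 5 (.thr 38 55 (.thr 36 39 (.thr 20 52 (.thr 12 8 (.thr 24 48 (.thr 28 16 (.dbl 60 40 44))))))) .nd))))))) (.rp 31 (.str 5 (.nv (.thr 12 8 (.thr 15 10 (.thr 14 13 (.thr 37 53 (.thr 26 48 (.dbl 38 50 55)))))) (.nv (.thr 7 6 (.thr 37 53 (.thr 22 52 (.thr 23 20 (.dbl 55 38 39))))) (.rp 55 (.thr 12 8 (.thr 7 6 (.thr 15 10 (.thr 37 53 (.thr 52 22 (.thr 36 20 (.dbl 48 24 26))))))) (.rp 53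 (.thr 12 8 (.thr 15 10 (.thr 13 14 (.thr 38 55 (.thr 25 51 (.thr 37 49 (.thr 36 39 (.dbl 48 24 26)))))))) (.rp 38 (.thr 7 6 (.thr 15 10 (.thr 3 11 (.thr 37 53 (.thr 22 52 (.thr 20 23 (.dbl 60 40 41))))))) (.rp 37 (.thr 12 8 (.thr 6 7 (.thr 3 9 (.thr 38 55 (.thr 22 54 (.thr 60 41 (.dbl 20 23 40))))))) .nd))))))) (.rp 30 (.str 5 (.nv (.thr 12 8 (.thr 15 10 (.thr 14 13 (.thr 37 53 (.thr 26 48 (.dbl 38 50 55)))))) (.nv (.thr 7 6 (.thr 37 53 (.thr 22 52 (.thr 23 20 (.dbl 55 38 39))))) (.rp 55 (.thr 12 8 (.thr 7 6 (.thr 15 10 (.thr 37 53 (.thr 52 22 (.thr 36 20 (.dbl 48 24 26))))))) (.rp 53 (.thr 12 8 (.thr 15 10 (.thr 14 13 (.thr 38 55 (.thr 26 50 (.thr 16 31 (.dbl 48 32 37))))))) (.rp 38 (.thr 7 6 (.thr 15 10 (.thr 3 11 (.thr 37 53 (.thr 22 52 (.thr 20 23 (.dbl 60 40 41))))))) (.rp 37 (.thr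 12 8 (.thr 6 7 (.thr 3 9 (.thr 38 55 (.thr 22 54 (.thr 60 41 (.dbl 20 23 40))))))) .nd))))))) (.rp 29 (.str 5 (.nv (.thr 12 8 (.thr 15 10 (.thr 14 13 (.thr 37 53 (.thr 26 48 (.dbl 38 50 55)))))) (.nv (.thr 7 6 (.thr 37 53 (.thr 22 52 (.thr 23 20 (.dbl 55 38 39))))) (.rp 55 (.thr 12 8 (.thr 7 6 (.thr 15 10 (.thr 37 53 (.thr 52 22 (.thr 36 20 (.dbl 48 24 26))))))) (.rp 53 (.thr 12 8 (.thr 15 10 (.thr 14 13 (.thr 38 55 (.thr 26 50 (.thr 16 31 (.dbl 48 32 37))))))) (.rp 38 (.thr 7 6 (.thr 15 10 (.thr 3 11 (.thr 37 53 (.thr 22 52 (.thr 20 23 (.dbl 60 40 41))))))) (.rp 37 (.thr 12 8 (.thr 6 7 (.thr 3 9 (.thr 38 55 (.thr 22 54 (.thr 60 41 (.dbl 20 23 40))))))) .nd))))))) (.rp 28 (.str 16 (.nv (.thr 26 31 (.thr 38 55 (.thr 48 32 (.thr 37 15 (.thr 36 39 (.dbl 12 8 24)))))) (.nv (.thr 12 8 (.thr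 26 31 (.thr 38 55 (.thr 25 51 (.thr 24 27 (.dbl 48 32 36)))))) (.nv (.thr 12 8 (.thr 48 32 (.thr 24 36 (.thr 38 55 (.thr 25 51 (.dbl 26 27 31)))))) (.nv (.thr 12 8 (.thr 26 31 (.thr 38 55 (.thr 14 50 (.thr 48 32 (.dbl 15 13 37)))))) (.rp 55 (.thr 12 8 (.thr 48 32 (.thr 24 36 (.thr 26 31 (.thr 25 27 (.thr 51 38 (.dbl 17 29 34))))))) (.rp 48 (.thr 12 8 (.thr 26 31 (.thr 38 55 (.thr 14 50 (.thr 15 13 (.thr 5 10 (.thr 37 53 (.thr 39 36 (.dbl 51 25 27))))))))) (.rp 38 (.thr 12 8 (.thr 48 32 (.thr 36 24 (.thr 52 20 (.thr 26 31 (.thr 37 15 (.thr 5 53 (.dbl 7 6 22)))))))) (.rp 32 (.thr 12 8 (.thr 26 31 (.thr 38 55 (.thr 14 50 (.thr 15 13 (.thr 5 10 (.dbl 37 48 53))))))) (.rp 31 (.thr 12 8 (.thr 48 32 (.thr 36 24 (.thr 38 55 (.thr 37 39 (.thr 5 53 (.dbl 15 10 26))))))) (.rp 26 (.thr 12 8 (.thr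 48 32 (.thr 36 24 (.thr 52 20 (.thr 38 55 (.thr 37 39 (.thr 5 53 (.dbl 7 6 22)))))))) (.rp 12 (.thr 48 32 (.thr 26 31 (.thr 37 15 (.thr 5 53 (.thr 7 6 (.thr 52 22 (.thr 20 36 (.dbl 60 40 56)))))))) (.rp 8 (.thr 48 32 (.thr 26 31 (.thr 38 55 (.thr 50 14 (.thr 51 49 (.thr 17 34 (.dbl 25 12 29))))))) .nd))))))))))))) (.rp 27 (.str 5 (.nv (.thr 12 8 (.thr 15 10 (.thr 14 13 (.thr 37 53 (.thr 26 48 (.dbl 38 50 55)))))) (.nv (.thr 7 6 (.thr 37 53 (.thr 22 52 (.thr 23 20 (.dbl 55 38 39))))) (.rp 55 (.thr 12 8 (.thr 7 6 (.thr 15 10 (.thr 37 53 (.thr 52 22 (.thr 36 20 (.dbl 48 24 26))))))) (.rp 53 (.thr 12 8 (.thr 15 10 (.thr 14 13 (.thr 38 55 (.thr 26 50 (.thr 16 31 (.dbl 48 32 37))))))) (.rp 38 (.thr 7 6 (.thr 15 10 (.thr 3 11 (.thr 37 53 (.thr 22 52 (.thr 20 23 (.dbl 60 40 41))))))) (.rp 37 (.thr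 12 8 (.thr 6 7 (.thr 3 9 (.thr 38 55 (.thr 22 54 (.thr 60 41 (.dbl 20 23 40))))))) .nd))))))) (.rp 26 (.str 5 (.nv (.thr 10 15 (.thr 7 6 (.thr 37 53 (.thr 22 52 (.thr 55 38 (.dbl 23 20 39)))))) (.nv (.thr 12 8 (.thr 37 53 (.thr 38 55 (.thr 25 51 (.thr 13 49 (.dbl 15 10 14)))))) (.nv (.thr 7 6 (.thr 37 53 (.thr 22 52 (.thr 23 20 (.dbl 55 38 39))))) (.rp 55 (.thr 12 8 (.thr 7 6 (.thr 37 53 (.thr 52 22 (.thr 36 20 (.thr 38 39 (.thr 25 51 (.thr 13 49 (.dbl 15 10 14))))))))) (.rp 53 (.thr 12 8 (.thr 6 7 (.thr 3 9 (.thr 38 55 (.thr 25 51 (.thr 29 17 (.thr 63 46 (.thr 23 43 (.dbl 22 20 54))))))))) (.rp 52 (.thr 12 8 (.thr 6 7 (.thr 3 9 (.thr 38 55 (.thr 53 37 (.thr 22 54 (.thr 60 41 (.dbl 20 23 40)))))))) (.rp 38 (.thr 7 6 (.thr 37 53 (.thr 22 52 (.thr 20 23 (.thr 60 40 (.thr 41 3 (.thr 45 33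 (.dbl 15 10 30)))))))) (.rp 37 (.thr 12 8 (.thr 6 7 (.thr 3 9 (.thr 38 55 (.thr 22 54 (.thr 60 41 (.dbl 20 23 40))))))) (.rp 10 (.str 58 (.nv (.thr 12 8 (.thr 38 55 (.thr 25 51 (.thr 29 17 (.thr 53 37 (.dbl 63 46 48)))))) (.nv (.thr 37 53 (.thr 38 55 (.thr 36 39 (.thr 52 20 (.dbl 7 6 22))))) (.rp 55 (.thr 12 8 (.thr 53 37 (.thr 48 63 (.thr 32 16 (.thr 36 24 (.thr 20 52 (.dbl 40 44 60))))))) (.rp 53 (.thr 12 8 (.thr 6 7 (.thr 9 3 (.thr 38 55 (.thr 54 22 (.thr 62 50 (.thr 25 51 (.thr 29 17 (.thr 63 46 (.thr 60 61 (.thr 44 28 (.dbl 41 35 57)))))))))))) (.rp 38 (.thr 12 8 (.thr 53 37 (.thr 48 63 (.thr 32 16 (.thr 36 24 (.thr 20 52 (.dbl 40 44 60))))))) (.rp 37 (.thr 12 8 (.thr 6 7 (.thr 38 55 (.thr 22 54 (.thr 25 51 (.thr 28 19 (.thr 60 44 (.dbl 20 23 40)))))))) .nd))))))) .nd)))))))))) (.rp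 25 (.str 5 (.nv (.thr 8 12 (.thr 7 6 (.thr 37 53 (.thr 38 55 (.thr 52 22 (.dbl 36 20 39)))))) (.nv (.thr 15 10 (.thr 37 53 (.thr 26 48 (.thr 38 55 (.thr 14 50 (.dbl 12 8 13)))))) (.nv (.thr 7 6 (.thr 37 53 (.thr 22 52 (.thr 23 20 (.dbl 55 38 39))))) (.rp 55 (.thr 7 6 (.thr 15 10 (.thr 37 53 (.thr 52 22 (.thr 20 36 (.thr 60 40 (.dbl 48 26 56))))))) (.rp 53 (.thr 7 6 (.thr 15 10 (.thr 3 11 (.thr 55 38 (.thr 23 39 (.thr 22 20 (.thr 37 52 (.thr 26 48 (.thr 30 18 (.dbl 60 41 45)))))))))) (.rp 52 (.thr 6 7 (.thr 15 10 (.thr 37 53 (.thr 26 48 (.thr 38 55 (.thr 54 22 (.thr 14 50 (.dbl 12 8 13)))))))) (.rp 38 (.thr 7 6 (.thr 15 10 (.thr 3 11 (.thr 37 53 (.thr 22 52 (.thr 20 23 (.dbl 60 40 41))))))) (.rp 37 (.thr 8 12 (.thr 6 7 (.thr 10 15 (.thr 14 2 (.thr 11 9 (.thr 38 55 (.thr 26 50 (.thr 41 56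 (.thr 22 54 (.thr 60 3 (.dbl 20 23 40))))))))))) (.rp 8 (.str 59 (.nv (.thr 7 6 (.thr 15 10 (.thr 55 38 (.thr 39 23 (.dbl 51 27 63))))) (.nv (.thr 15 10 (.thr 37 53 (.thr 26 48 (.thr 31 16 (.thr 55 38 (.dbl 63 47 51)))))) (.nv (.thr 7 6 (.thr 37 53 (.thr 22 52 (.thr 23 20 (.dbl 55 38 39))))) (.rp 55 (.thr 37 53 (.thr 7 6 (.thr 52 22 (.thr 20 36 (.thr 15 10 (.thr 60 40 (.dbl 48 26 56))))))) (.rp 38 (.thr 37 53 (.thr 7 6 (.thr 22 52 (.thr 20 23 (.thr 15 10 (.thr 60 40 (.dbl 3 11 41))))))) .nd)))))) .nd)))))))))) (.rp 24 (.str 16 (.nv (.thr 12 8 (.thr 48 32 (.thr 26 31 (.thr 38 55 (.thr 14 50 (.dbl 15 13 37)))))) (.nv (.thr 12 8 (.thr 31 26 (.thr 38 55 (.thr 25 51 (.thr 17 29 (.thr 19 18 (.thr 22 28 (.dbl 23 20 27)))))))) (.nv (.thr 26 31 (.thr 38 55 (.thr 48 32 (.thr 50 14 (.thr 51 49 (.dbl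 12 8 25)))))) (.rp 55 (.thr 48 32 (.thr 26 31 (.thr 37 15 (.thr 5 53 (.thr 7 6 (.thr 52 22 (.thr 20 36 (.dbl 60 40 56)))))))) (.rp 38 (.thr 48 32 (.thr 26 31 (.thr 37 15 (.thr 5 53 (.thr 7 6 (.thr 22 52 (.thr 18 30 (.thr 3 33 (.thr 60 41 (.dbl 20 23 40)))))))))) (.rp 31 (.thr 12 8 (.thr 48 32 (.thr 38 55 (.thr 25 51 (.thr 17 29 (.thr 18 19 (.thr 3 33 (.thr 9 6 (.thr 41 57 (.thr 60 22 (.dbl 44 28 35))))))))))) (.rp 26 (.thr 12 8 (.thr 32 48 (.thr 38 55 (.thr 25 51 (.thr 17 29 (.thr 19 18 (.thr 22 28 (.thr 20 23 (.thr 36 52 (.dbl 40 44 60)))))))))) (.rp 25 (.thr 48 32 (.thr 26 31 (.thr 37 15 (.thr 5 53 (.thr 7 6 (.thr 52 22 (.thr 20 36 (.dbl 60 40 56)))))))) (.rp 12 (.thr 48 32 (.thr 26 31 (.thr 37 15 (.thr 5 53 (.thr 7 6 (.thr 52 22 (.thr 20 36 (.dbl 60 40 56)))))))) (.rp 8 (.thr 48 32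 (.thr 26 31 (.thr 38 55 (.thr 50 14 (.thr 51 49 (.thr 17 34 (.dbl 25 12 29))))))) .nd))))))))))) (.rp 23 (.str 5 (.nv (.thr 12 8 (.thr 15 10 (.thr 14 13 (.thr 37 53 (.thr 26 48 (.dbl 38 50 55)))))) (.nv (.thr 7 6 (.thr 37 53 (.thr 38 55 (.thr 36 39 (.dbl 52 20 22))))) (.rp 55 (.thr 12 8 (.thr 7 6 (.thr 15 10 (.thr 37 53 (.thr 52 22 (.thr 36 20 (.dbl 48 24 26))))))) (.rp 53 (.thr 12 8 (.thr 15 10 (.thr 14 13 (.thr 38 55 (.thr 26 50 (.thr 16 31 (.dbl 48 32 37))))))) (.rp 38 (.thr 7 6 (.thr 15 10 (.thr 3 11 (.thr 37 53 (.thr 26 48 (.thr 22 52 (.thr 30 18 (.dbl 60 41 45)))))))) (.rp 37 (.thr 12 8 (.thr 15 10 (.thr 14 13 (.thr 38 55 (.thr 26 50 (.thr 31 16 (.thr 25 51 (.thr 29 17 (.dbl 63 46 47))))))))) .nd))))))) (.rp 22 (.str 5 (.nv (.thr 12 8 (.thr 37 53 (.thr 38 55 (.thr 25 51 (.thr 13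 49 (.dbl 15 10 14)))))) (.nv (.thr 12 8 (.thr 15 10 (.thr 14 13 (.thr 37 53 (.thr 26 48 (.dbl 38 50 55)))))) (.nv (.thr 15 10 (.thr 37 53 (.thr 38 55 (.thr 39 36 (.thr 51 27 (.dbl 12 8 25)))))) (.rp 62 (.str 2 (.nv (.thr 10 15 (.dbl 6 7 14)) (.rp 15 (.thr 12 8 (.thr 37 53 (.thr 38 55 (.thr 36 39 (.thr 48 24 (.thr 32 16 (.thr 40 44 (.dbl 20 52 60)))))))) (.rp 14 (.thr 12 8 (.thr 15 10 (.thr 37 53 (.thr 38 55 (.thr 36 39 (.dbl 48 24 26)))))) (.rp 10 (.thr 12 8 (.thr 37 53 (.thr 38 55 (.thr 36 39 (.thr 48 24 (.thr 16 32 (.dbl 26 15 31))))))) (.rp 7 (.thr 12 8 (.thr 15 10 (.thr 13 14 (.thr 37 53 (.thr 25 49 (.dbl 38 51 55)))))) (.rp 6 (.thr 12 8 (.thr 15 10 (.thr 13 14 (.thr 37 53 (.thr 25 49 (.dbl 38 51 55)))))) .nd))))))) (.rp 55 (.thr 12 8 (.thr 15 10 (.thr 13 14 (.thr 37 53 (.thr 25 49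 (.thr 17 29 (.dbl 51 34 38))))))) (.rp 53 (.thr 12 8 (.thr 15 10 (.thr 14 13 (.thr 38 55 (.thr 26 50 (.thr 16 31 (.dbl 48 32 37))))))) (.rp 38 (.thr 12 8 (.thr 15 10 (.thr 13 14 (.thr 37 53 (.thr 26 48 (.thr 31 16 (.thr 25 49 (.thr 63 47 (.dbl 29 17 46))))))))) (.rp 37 (.thr 12 8 (.thr 15 10 (.thr 14 13 (.thr 38 55 (.thr 26 50 (.thr 16 31 (.thr 25 51 (.thr 24 27 (.dbl 48 32 36))))))))) (.rp 25 (.thr 15 10 (.thr 37 53 (.thr 26 48 (.thr 38 55 (.thr 14 50 (.dbl 12 8 13)))))) (.rp 15 (.thr 12 8 (.thr 37 53 (.thr 38 55 (.thr 36 39 (.thr 48 24 (.thr 32 16 (.thr 40 44 (.dbl 20 52 60)))))))) (.rp 12 (.thr 7 6 (.thr 15 10 (.thr 3 11 (.thr 37 53 (.thr 26 48 (.thr 31 16 (.thr 63 47 (.thr 23 43 (.dbl 55 38 39))))))))) (.rp 10 (.thr 12 8 (.thr 37 53 (.thr 38 55 (.thr 36 39 (.thr 48 24 (.thr 16 32 (.dbl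 26 15 31))))))) (.rp 8 (.thr 15 10 (.thr 37 53 (.thr 38 55 (.thr 39 36 (.thr 51 27 (.thr 17 34 (.dbl 25 12 29))))))) (.rp 2 (.str 62 (.nv (.thr 12 8 (.thr 37 53 (.thr 38 55 (.thr 25 51 (.thr 13 49 (.dbl 15 10 14)))))) (.nv (.thr 6 7 (.thr 15 10 (.thr 37 53 (.thr 38 55 (.thr 39 36 (.thr 51 27 (.dbl 12 8 25))))))) (.nv (.thr 12 8 (.thr 37 53 (.thr 15 10 (.thr 14 13 (.thr 26 48 (.dbl 38 50 55)))))) (.rp 55 (.thr 12 8 (.thr 37 53 (.thr 15 10 (.thr 13 14 (.thr 6 7 (.thr 25 49 (.thr 17 29 (.dbl 51 34 38)))))))) (.rp 53 (.thr 12 8 (.thr 15 10 (.thr 14 13 (.thr 46 30 (.thr 29 63 (.thr 25 17 (.dbl 38 51 55))))))) (.rp 38 (.thr 12 8 (.thr 37 53 (.thr 15 10 (.thr 14 13 (.thr 46 30 (.thr 63 29 (.thr 26 48 (.dbl 31 16 47)))))))) (.rp 37 (.thr 12 8 (.thr 15 10 (.thr 14 13 (.thr 46 30 (.thr 29 63 (.thr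 25 17 (.dbl 38 51 55))))))) (.rp 25 (.thr 37 53 (.thr 15 10 (.thr 26 48 (.thr 38 55 (.thr 14 50 (.dbl 12 8 13)))))) (.rp 15 (.thr 12 8 (.thr 37 53 (.thr 38 55 (.thr 36 39 (.thr 48 24 (.thr 32 16 (.thr 40 44 (.dbl 20 52 60)))))))) (.rp 12 (.thr 53 37 (.thr 55 38 (.thr 54 52 (.thr 7 6 (.thr 58 50 (.thr 63 48 (.thr 60 61 (.dbl 51 57 59)))))))) (.rp 10 (.thr 12 8 (.thr 37 53 (.thr 38 55 (.thr 36 39 (.thr 48 24 (.thr 16 32 (.dbl 26 15 31))))))) (.rp 8 (.thr 37 53 (.thr 15 10 (.thr 38 55 (.thr 39 36 (.thr 51 27 (.thr 25 12 (.dbl 17 29 34))))))) .nd))))))))))))) .nd))))))))))))))) (.rp 20 (.str 16 (.nv (.thr 12 8 (.thr 26 31 (.thr 48 32 (.thr 24 36 (.thr 25 27 (.thr 17 29 (.dbl 51 34 38))))))) (.nv (.thr 26 31 (.thr 38 55 (.thr 48 32 (.thr 37 15 (.thr 36 39 (.dbl 12 8 24)))))) (.nv (.thr 12 8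 (.thr 26 31 (.thr 38 55 (.thr 25 51 (.thr 24 27 (.dbl 48 32 36)))))) (.nv (.thr 12 8 (.thr 26 31 (.thr 38 55 (.thr 14 50 (.thr 48 32 (.dbl 15 13 37)))))) (.rp 48 (.thr 12 8 (.thr 26 31 (.thr 38 55 (.thr 14 50 (.thr 15 13 (.thr 5 10 (.thr 37 53 (.thr 39 36 (.dbl 51 25 27))))))))) (.rp 38 (.thr 12 8 (.thr 48 32 (.thr 24 36 (.thr 26 31 (.thr 37 15 (.thr 53 5 (.thr 25 27 (.thr 29 17 (.dbl 63 46 58))))))))) (.rp 32 (.thr 12 8 (.thr 26 31 (.thr 38 55 (.thr 14 50 (.thr 15 13 (.thr 5 10 (.dbl 37 48 53))))))) (.rp 31 (.thr 12 8 (.thr 48 32 (.thr 36 24 (.thr 38 55 (.thr 37 39 (.thr 5 53 (.dbl 15 10 26))))))) (.rp 26 (.thr 12 8 (.thr 48 32 (.thr 36 24 (.thr 38 55 (.thr 37 39 (.thr 5 53 (.thr 25 51 (.thr 13 49 (.dbl 15 10 14))))))))) (.rp 12 (.thr 48 32 (.thr 26 31 (.thr 38 55 (.thr 50 14 (.thr 51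 49 (.thr 17 34 (.thr 25 29 (.thr 27 24 (.dbl 15 37 39))))))))) (.rp 8 (.thr 48 32 (.thr 26 31 (.thr 38 55 (.thr 50 14 (.thr 51 49 (.thr 17 34 (.dbl 25 12 29))))))) .nd)))))))))))) (.rp 19 (.str 5 (.nv (.thr 12 8 (.thr 15 10 (.thr 14 13 (.thr 37 53 (.thr 26 48 (.dbl 38 50 55)))))) (.nv (.thr 7 6 (.thr 37 53 (.thr 22 52 (.thr 23 20 (.dbl 55 38 39))))) (.rp 55 (.thr 12 8 (.thr 7 6 (.thr 15 10 (.thr 37 53 (.thr 52 22 (.thr 36 20 (.dbl 48 24 26))))))) (.rp 53 (.thr 12 8 (.thr 15 10 (.thr 14 13 (.thr 38 55 (.thr 26 50 (.thr 16 31 (.dbl 48 32 37))))))) (.rp 38 (.thr 7 6 (.thr 15 10 (.thr 3 11 (.thr 37 53 (.thr 22 52 (.thr 20 23 (.dbl 60 40 41))))))) (.rp 37 (.thr 12 8 (.thr 6 7 (.thr 3 9 (.thr 38 55 (.thr 22 54 (.thr 60 41 (.dbl 20 23 40))))))) .nd))))))) (.rp 18 (.str 5 (.nv (.thr 12 8 (.thr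 15 10 (.thr 14 13 (.thr 37 53 (.thr 26 48 (.dbl 38 50 55)))))) (.nv (.thr 7 6 (.thr 37 53 (.thr 22 52 (.thr 23 20 (.dbl 55 38 39))))) (.rp 55 (.thr 12 8 (.thr 7 6 (.thr 15 10 (.thr 37 53 (.thr 52 22 (.thr 36 20 (.dbl 48 24 26))))))) (.rp 53 (.thr 12 8 (.thr 15 10 (.thr 14 13 (.thr 38 55 (.thr 26 50 (.thr 16 31 (.dbl 48 32 37))))))) (.rp 38 (.thr 7 6 (.thr 15 10 (.thr 3 11 (.thr 37 53 (.thr 22 52 (.thr 20 23 (.dbl 60 40 41))))))) (.rp 37 (.thr 12 8 (.thr 6 7 (.thr 3 9 (.thr 38 55 (.thr 22 54 (.thr 60 41 (.dbl 20 23 40))))))) .nd))))))) (.rp 17 (.thr 8 12 (.str 5 (.nv (.thr 7 6 (.thr 37 53 (.thr 38 55 (.thr 52 22 (.dbl 36 20 39))))) (.nv (.thr 7 6 (.thr 15 10 (.thr 3 11 (.thr 37 53 (.thr 22 52 (.thr 20 23 (.dbl 60 40 41))))))) (.nv (.thr 37 53 (.thr 38 55 (.thr 36 39 (.thr 52 20 (.dbl 7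 6 22))))) (.rp 55 (.thr 7 6 (.thr 15 10 (.thr 37 53 (.thr 52 22 (.thr 20 36 (.thr 60 40 (.dbl 48 26 56))))))) (.rp 53 (.thr 6 7 (.thr 10 15 (.thr 14 2 (.thr 11 9 (.thr 38 55 (.thr 26 50 (.thr 56 41 (.thr 40 24 (.thr 20 60 (.dbl 22 23 54)))))))))) (.rp 52 (.thr 7 6 (.thr 15 10 (.thr 3 11 (.thr 37 53 (.thr 26 48 (.thr 31 16 (.thr 55 38 (.thr 23 39 (.dbl 63 43 47))))))))) (.rp 49 (.str 33 (.nv (.thr 7 6 (.thr 15 10 (.thr 3 11 (.thr 48 18 (.thr 16 32 (.dbl 26 31 37)))))) (.nv (.thr 37 53 (.thr 38 55 (.thr 36 39 (.thr 52 20 (.dbl 7 6 22))))) (.rp 37 (.thr 6 7 (.thr 38 55 (.thr 22 54 (.thr 10 15 (.thr 14 2 (.thr 26 50 (.thr 18 30 (.thr 16 31 (.dbl 48 3 32))))))))) (.rp 7 (.thr 37 53 (.thr 41 45 (.thr 38 55 (.thr 35 44 (.thr 32 34 (.thr 48 16 (.dbl 15 10 26))))))) (.rp 6 (.thr 37 53 (.thr 41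 45 (.thr 38 55 (.thr 44 35 (.thr 36 39 (.thr 40 32 (.dbl 20 52 60))))))) .nd)))))) (.rp 37 (.thr 6 7 (.thr 10 15 (.thr 14 2 (.thr 11 9 (.thr 38 55 (.thr 26 50 (.thr 41 56 (.thr 22 54 (.thr 60 3 (.dbl 20 23 40)))))))))) (.rp 33 (.str 49 (.nv (.thr 7 6 (.thr 15 10 (.thr 3 11 (.thr 37 53 (.thr 22 52 (.thr 20 23 (.dbl 60 40 41))))))) (.nv (.thr 15 10 (.thr 37 53 (.thr 38 55 (.thr 39 36 (.thr 51 27 (.dbl 48 26 50)))))) (.nv (.thr 37 53 (.thr 38 55 (.thr 36 39 (.thr 52 20 (.dbl 7 6 22))))) (.rp 55 (.thr 37 53 (.thr 7 6 (.thr 52 22 (.thr 20 36 (.thr 60 40 (.thr 48 56 (.dbl 15 10 26))))))) (.rp 54 (.thr 37 53 (.thr 7 6 (.thr 52 22 (.thr 38 55 (.dbl 36 20 39))))) (.rp 53 (.thr 7 6 (.thr 55 38 (.thr 39 23 (.thr 15 10 (.thr 51 27 (.thr 48 50 (.thr 16 32 (.dbl 26 31 37)))))))) (.rp 52 (.thr 37 53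 (.thr 7 6 (.thr 55 38 (.thr 39 23 (.thr 15 10 (.thr 51 27 (.dbl 48 26 50))))))) (.rp 37 (.thr 6 7 (.thr 38 55 (.thr 22 54 (.thr 10 15 (.thr 14 2 (.thr 26 50 (.thr 11 9 (.thr 41 56 (.thr 60 3 (.dbl 20 23 40)))))))))) .nd))))))))) (.rp 22 (.thr 7 6 (.thr 15 10 (.thr 3 11 (.thr 37 53 (.thr 26 48 (.thr 31 16 (.thr 63 47 (.thr 23 43 (.dbl 55 38 39))))))))) (.rp 20 (.thr 7 6 (.thr 15 10 (.thr 3 11 (.thr 37 53 (.thr 26 48 (.thr 22 52 (.thr 30 18 (.dbl 60 41 45)))))))) (.rp 7 (.thr 15 10 (.thr 37 53 (.thr 38 55 (.thr 39 36 (.thr 27 51 (.thr 26 48 (.thr 24 25 (.thr 16 31 (.thr 20 28 (.dbl 40 56 60)))))))))) (.rp 6 (.thr 15 10 (.thr 37 53 (.thr 38 55 (.thr 39 36 (.thr 27 51 (.thr 26 48 (.thr 24 25 (.thr 16 31 (.thr 20 28 (.dbl 40 56 60)))))))))) .nd))))))))))))))) (.rp 16 (.str 5 (.nv (.thr 12 8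 (.thr 15 10 (.thr 14 13 (.thr 37 53 (.thr 26 48 (.dbl 38 50 55)))))) (.nv (.thr 7 6 (.thr 37 53 (.thr 38 55 (.thr 36 39 (.dbl 52 20 22))))) (.rp 55 (.thr 12 8 (.thr 7 6 (.thr 15 10 (.thr 37 53 (.thr 52 22 (.thr 36 20 (.dbl 48 24 26))))))) (.rp 53 (.thr 12 8 (.thr 15 10 (.thr 13 14 (.thr 38 55 (.thr 25 51 (.thr 37 49 (.thr 36 39 (.dbl 48 24 26)))))))) (.rp 38 (.thr 7 6 (.thr 15 10 (.thr 3 11 (.thr 37 53 (.thr 22 52 (.thr 20 23 (.dbl 60 40 41))))))) (.rp 37 (.thr 12 8 (.thr 6 7 (.thr 3 9 (.thr 38 55 (.thr 22 54 (.thr 60 41 (.dbl 20 23 40))))))) .nd))))))) (.rp 15 (.str 5 (.nv (.thr 7 6 (.thr 37 53 (.thr 38 55 (.thr 52 22 (.dbl 36 20 39))))) (.nv (.thr 7 6 (.thr 37 53 (.thr 22 52 (.thr 23 20 (.dbl 55 38 39))))) (.rp 55 (.thr 12 8 (.thr 7 6 (.thr 37 53 (.thr 52 22 (.thr 36 20 (.thr 38 39 (.thr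 48 24 (.thr 16 32 (.thr 26 31 (.thr 50 14 (.dbl 51 25 49))))))))))) (.rp 53 (.thr 12 8 (.thr 6 7 (.thr 3 9 (.thr 38 55 (.thr 25 51 (.thr 29 17 (.thr 63 46 (.thr 23 43 (.dbl 22 20 54))))))))) (.rp 52 (.thr 12 8 (.thr 6 7 (.thr 3 9 (.thr 38 55 (.thr 53 37 (.thr 22 54 (.thr 60 41 (.dbl 20 23 40)))))))) (.rp 39 (.thr 12 8 (.thr 7 6 (.thr 37 53 (.thr 22 52 (.thr 20 23 (.thr 60 40 (.thr 28 44 (.thr 25 19 (.dbl 38 51 55))))))))) (.rp 38 (.thr 12 8 (.thr 7 6 (.thr 37 53 (.thr 22 52 (.thr 20 23 (.thr 60 40 (.thr 28 44 (.thr 25 19 (.thr 29 17 (.thr 31 30 (.dbl 16 24 26))))))))))) (.rp 37 (.thr 12 8 (.thr 6 7 (.thr 3 9 (.thr 38 55 (.thr 22 54 (.thr 60 41 (.dbl 20 23 40))))))) (.rp 22 (.thr 12 8 (.thr 37 53 (.thr 38 55 (.thr 36 39 (.thr 48 24 (.thr 32 16 (.thr 40 44 (.dbl 20 52 60)))))))) (.rp 20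 (.thr 12 8 (.thr 6 7 (.thr 3 9 (.thr 38 55 (.thr 22 54 (.thr 41 60 (.thr 35 44 (.dbl 51 19 25)))))))) (.rp 7 (.thr 12 8 (.thr 53 37 (.thr 38 55 (.thr 25 51 (.thr 29 17 (.thr 63 46 (.thr 48 58 (.thr 32 16 (.thr 36 24 (.thr 40 44 (.dbl 20 52 60))))))))))) (.rp 6 (.thr 12 8 (.thr 37 53 (.thr 38 55 (.thr 36 39 (.thr 48 24 (.thr 32 16 (.thr 40 44 (.dbl 20 52 60)))))))) .nd))))))))))))) (.rp 14 (.str 5 (.nv (.thr 7 6 (.thr 37 53 (.thr 22 52 (.thr 55 38 (.dbl 23 20 39))))) (.nv (.thr 7 6 (.thr 12 8 (.thr 37 53 (.thr 52 22 (.thr 36 20 (.thr 48 24 (.dbl 15 10 26))))))) (.nv (.thr 12 8 (.thr 15 10 (.thr 37 53 (.thr 38 55 (.thr 39 36 (.dbl 51 25 27)))))) (.nv (.thr 37 53 (.thr 38 55 (.thr 36 39 (.thr 52 20 (.dbl 7 6 22))))) (.rp 53 (.thr 12 8 (.thr 6 7 (.thr 3 9 (.thr 38 55 (.thr 25 51 (.thr 29 17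 (.thr 63 46 (.thr 23 43 (.dbl 22 20 54))))))))) (.rp 52 (.thr 12 8 (.thr 6 7 (.thr 3 9 (.thr 38 55 (.thr 53 37 (.thr 22 54 (.thr 60 41 (.dbl 20 23 40)))))))) (.rp 38 (.thr 7 6 (.thr 37 53 (.thr 22 52 (.thr 20 23 (.thr 60 40 (.thr 41 3 (.thr 45 33 (.dbl 15 10 30)))))))) (.rp 37 (.thr 12 8 (.thr 6 7 (.thr 3 9 (.thr 38 55 (.thr 22 54 (.thr 60 41 (.dbl 20 23 40))))))) (.rp 6 (.thr 12 8 (.thr 37 53 (.thr 38 55 (.thr 36 39 (.thr 48 24 (.dbl 15 10 26)))))) .nd)))))))))) (.rp 13 (.str 5 (.nv (.thr 7 6 (.thr 12 8 (.thr 15 10 (.thr 37 53 (.thr 52 22 (.thr 36 20 (.dbl 48 24 26))))))) (.nv (.thr 12 8 (.thr 15 10 (.thr 37 53 (.thr 38 55 (.thr 39 36 (.dbl 51 25 27)))))) (.nv (.thr 7 6 (.thr 37 53 (.thr 22 52 (.thr 23 20 (.dbl 55 38 39))))) (.rp 54 (.thr 7 6 (.thr 37 53 (.thr 22 52 (.thr 55 38 (.dbl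 23 20 39))))) (.rp 53 (.thr 12 8 (.thr 6 7 (.thr 3 9 (.thr 38 55 (.thr 25 51 (.thr 29 17 (.thr 63 46 (.thr 23 43 (.dbl 22 20 54))))))))) (.rp 52 (.thr 12 8 (.thr 6 7 (.thr 3 9 (.thr 38 55 (.thr 53 37 (.thr 22 54 (.thr 60 41 (.dbl 20 23 40)))))))) (.rp 38 (.thr 7 6 (.thr 15 10 (.thr 3 11 (.thr 37 53 (.thr 22 52 (.thr 20 23 (.dbl 60 40 41))))))) (.rp 37 (.thr 12 8 (.thr 6 7 (.thr 3 9 (.thr 38 55 (.thr 22 54 (.thr 60 41 (.dbl 20 23 40))))))) .nd))))))))) (.rp 12 (.str 5 (.nv (.thr 7 6 (.thr 37 53 (.thr 38 55 (.thr 52 22 (.dbl 36 20 39))))) (.nv (.thr 7 6 (.thr 15 10 (.thr 3 11 (.thr 37 53 (.thr 22 52 (.thr 20 23 (.dbl 60 40 41))))))) (.nv (.thr 37 53 (.thr 38 55 (.thr 36 39 (.thr 52 20 (.dbl 7 6 22))))) (.rp 55 (.thr 7 6 (.thr 15 10 (.thr 37 53 (.thr 52 22 (.thr 20 36 (.thr 60 40 (.dbl 48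 26 56))))))) (.rp 53 (.thr 7 6 (.thr 15 10 (.thr 3 11 (.thr 55 38 (.thr 23 39 (.thr 22 20 (.thr 37 52 (.thr 26 48 (.thr 30 18 (.dbl 60 41 45)))))))))) (.rp 52 (.thr 7 6 (.thr 15 10 (.thr 3 11 (.thr 37 53 (.thr 26 48 (.thr 31 16 (.thr 55 38 (.thr 23 39 (.dbl 63 43 47))))))))) (.rp 37 (.thr 6 7 (.thr 10 15 (.thr 14 2 (.thr 38 55 (.thr 26 50 (.thr 16 31 (.thr 22 54 (.thr 18 30 (.thr 19 17 (.thr 28 25 (.dbl 20 23 24))))))))))) (.rp 22 (.thr 7 6 (.thr 15 10 (.thr 3 11 (.thr 37 53 (.thr 26 48 (.thr 31 16 (.thr 63 47 (.thr 23 43 (.dbl 55 38 39))))))))) (.rp 20 (.thr 7 6 (.thr 15 10 (.thr 3 11 (.thr 37 53 (.thr 26 48 (.thr 22 52 (.thr 30 18 (.dbl 60 41 45)))))))) (.rp 7 (.thr 15 10 (.thr 37 53 (.thr 38 55 (.thr 39 36 (.thr 51 27 (.thr 17 34 (.thr 25 29 (.thr 49 13 (.dbl 48 26 50))))))))) (.rp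 6 (.thr 15 10 (.thr 37 53 (.thr 38 55 (.thr 39 36 (.thr 51 27 (.thr 17 34 (.thr 25 29 (.thr 49 13 (.dbl 48 26 50))))))))) .nd)))))))))))) (.rp 11 (.str 5 (.nv (.thr 12 8 (.thr 37 53 (.thr 38 55 (.thr 25 51 (.thr 13 49 (.dbl 15 10 14)))))) (.nv (.thr 7 6 (.thr 37 53 (.thr 22 52 (.thr 23 20 (.dbl 55 38 39))))) (.rp 55 (.thr 12 8 (.thr 7 6 (.thr 37 53 (.thr 52 22 (.thr 36 20 (.thr 48 24 (.dbl 15 10 26))))))) (.rp 54 (.thr 7 6 (.thr 37 53 (.thr 22 52 (.thr 55 38 (.dbl 23 20 39))))) (.rp 53 (.thr 12 8 (.thr 6 7 (.thr 9 3 (.thr 15 10 (.thr 14 13 (.thr 38 55 (.thr 26 50 (.thr 16 31 (.dbl 48 32 37))))))))) (.rp 52 (.thr 12 8 (.thr 6 7 (.thr 9 3 (.thr 15 10 (.thr 13 14 (.thr 37 53 (.thr 25 49 (.dbl 38 51 55)))))))) (.rp 38 (.thr 7 6 (.thr 15 10 (.thr 37 53 (.thr 26 48 (.thr 22 52 (.thr 30 18 (.thr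 20 23 (.dbl 60 40 45)))))))) (.rp 37 (.thr 12 8 (.thr 6 7 (.thr 3 9 (.thr 10 15 (.thr 38 55 (.thr 22 54 (.thr 60 41 (.dbl 20 23 40)))))))) .nd))))))))) (.rp 10 (.str 26 (.nv (.thr 12 8 (.thr 38 55 (.thr 14 50 (.thr 15 13 (.thr 25 51 (.thr 24 27 (.dbl 48 36 37))))))) (.nv (.thr 16 31 (.thr 38 55 (.thr 48 32 (.thr 37 15 (.thr 36 39 (.dbl 12 8 24)))))) (.nv (.thr 12 8 (.thr 16 31 (.thr 38 55 (.thr 25 51 (.thr 17 29 (.thr 19 18 (.thr 28 22 (.dbl 24 20 27)))))))) (.nv (.thr 12 8 (.thr 16 31 (.thr 38 55 (.thr 14 50 (.thr 15 13 (.dbl 48 32 37)))))) (.rp 55 (.thr 16 31 (.thr 12 8 (.thr 48 32 (.thr 24 36 (.thr 25 27 (.thr 17 29 (.dbl 51 34 38))))))) (.rp 38 (.thr 16 31 (.thr 12 8 (.thr 48 32 (.thr 37 15 (.thr 5 53 (.thr 7 6 (.thr 36 24 (.dbl 52 20 22)))))))) (.rp 12 (.thr 16 31 (.thr 55 38 (.thr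 48 32 (.thr 37 15 (.thr 5 53 (.thr 7 6 (.thr 22 52 (.dbl 23 20 39)))))))) (.rp 8 (.thr 16 31 (.thr 38 55 (.thr 50 14 (.thr 48 32 (.thr 51 49 (.thr 25 12 (.dbl 17 29 34))))))) .nd))))))))) (.rp 9 (.str 5 (.nv (.thr 12 8 (.thr 37 53 (.thr 38 55 (.thr 25 51 (.thr 13 49 (.dbl 15 10 14)))))) (.nv (.thr 37 53 (.thr 38 55 (.thr 36 39 (.thr 52 20 (.dbl 7 6 22))))) (.rp 55 (.thr 12 8 (.thr 7 6 (.thr 37 53 (.thr 52 22 (.thr 36 20 (.thr 48 24 (.dbl 15 10 26))))))) (.rp 54 (.thr 7 6 (.thr 37 53 (.thr 22 52 (.thr 55 38 (.dbl 23 20 39))))) (.rp 53 (.thr 12 8 (.thr 7 6 (.thr 15 10 (.thr 11 3 (.thr 14 13 (.thr 38 55 (.thr 26 50 (.thr 16 31 (.dbl 48 32 37))))))))) (.rp 52 (.thr 12 8 (.thr 6 7 (.thr 37 53 (.thr 38 55 (.thr 54 22 (.thr 25 51 (.thr 13 49 (.dbl 15 10 14)))))))) (.rp 38 (.thr 7 6 (.thr 15 10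 (.thr 37 53 (.thr 22 52 (.thr 20 23 (.thr 60 40 (.dbl 3 11 41))))))) (.rp 37 (.thr 12 8 (.thr 6 7 (.thr 38 55 (.thr 22 54 (.thr 25 51 (.thr 28 19 (.thr 60 44 (.dbl 20 23 40)))))))) .nd))))))))) (.rp 8 (.str 5 (.nv (.thr 7 6 (.thr 15 10 (.thr 37 53 (.thr 52 22 (.thr 20 36 (.thr 60 40 (.dbl 48 26 56))))))) (.nv (.thr 7 6 (.thr 37 53 (.thr 22 52 (.thr 23 20 (.dbl 55 38 39))))) (.rp 59 (.str 25 (.nv (.thr 7 6 (.thr 37 53 (.thr 22 52 (.thr 23 20 (.dbl 55 38 39))))) (.nv (.thr 17 29 (.thr 38 55 (.dbl 51 12 34))) (.rp 55 (.thr 37 53 (.thr 17 29 (.thr 49 13 (.thr 51 34 (.thr 48 50 (.dbl 15 10 26)))))) (.rp 38 (.thr 37 53 (.thr 17 29 (.thr 15 10 (.thr 26 48 (.thr 27 24 (.dbl 51 34 39)))))) .nd))))) (.rp 54 (.thr 7 6 (.thr 37 53 (.thr 22 52 (.thr 55 38 (.dbl 23 20 39))))) (.rp 53 (.thr 7 6 (.thr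 15 10 (.thr 55 38 (.thr 23 39 (.thr 22 20 (.thr 37 52 (.thr 26 48 (.thr 30 18 (.thr 60 45 (.dbl 3 11 41)))))))))) (.rp 52 (.thr 6 7 (.thr 15 10 (.thr 37 53 (.thr 38 55 (.thr 54 22 (.thr 39 36 (.thr 51 27 (.thr 17 34 (.dbl 25 12 29))))))))) (.rp 38 (.thr 7 6 (.thr 15 10 (.thr 37 53 (.thr 22 52 (.thr 20 23 (.thr 60 40 (.dbl 3 11 41))))))) (.rp 37 (.thr 6 7 (.thr 10 15 (.thr 14 2 (.thr 38 55 (.thr 26 50 (.thr 16 31 (.thr 22 54 (.thr 18 30 (.thr 17 19 (.thr 51 34 (.dbl 25 12 29))))))))))) (.rp 25 (.str 59 (.nv (.thr 7 6 (.thr 15 10 (.thr 55 38 (.thr 39 23 (.dbl 51 27 63))))) (.nv (.thr 15 10 (.thr 37 53 (.thr 26 48 (.thr 31 16 (.thr 55 38 (.dbl 63 47 51)))))) (.nv (.thr 7 6 (.thr 37 53 (.thr 22 52 (.thr 23 20 (.dbl 55 38 39))))) (.rp 55 (.thr 37 53 (.thr 7 6 (.thr 52 22 (.thr 20 36 (.thr 15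 10 (.thr 60 40 (.dbl 48 26 56))))))) (.rp 38 (.thr 37 53 (.thr 7 6 (.thr 22 52 (.thr 20 23 (.thr 15 10 (.thr 60 40 (.dbl 3 11 41))))))) .nd)))))) (.rp 22 (.thr 15 10 (.thr 37 53 (.thr 38 55 (.thr 39 36 (.thr 51 27 (.thr 17 34 (.dbl 25 12 29))))))) (.rp 20 (.thr 15 10 (.thr 37 53 (.thr 38 55 (.thr 39 36 (.thr 51 27 (.thr 17 34 (.dbl 25 12 29))))))) (.rp 7 (.thr 15 10 (.thr 37 53 (.thr 38 55 (.thr 39 36 (.thr 51 27 (.thr 17 34 (.dbl 25 12 29))))))) (.rp 6 (.thr 15 10 (.thr 37 53 (.thr 38 55 (.thr 39 36 (.thr 51 27 (.thr 17 34 (.dbl 25 12 29))))))) .nd)))))))))))))) (.rp 7 (.str 15 (.nv (.thr 5 10 (.thr 12 8 (.thr 13 14 (.thr 37 53 (.thr 25 49 (.thr 17 29 (.dbl 51 34 38))))))) (.nv (.thr 12 8 (.thr 14 13 (.thr 38 55 (.thr 26 50 (.thr 16 31 (.dbl 48 32 37)))))) (.nv (.thr 5 10 (.thr 37 53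 (.thr 38 55 (.thr 39 36 (.thr 51 27 (.dbl 12 8 25)))))) (.rp 38 (.thr 12 8 (.thr 5 10 (.thr 13 14 (.thr 37 53 (.thr 26 48 (.thr 31 16 (.thr 25 49 (.thr 63 47 (.dbl 29 17 46))))))))) (.rp 37 (.thr 12 8 (.thr 14 13 (.thr 38 55 (.thr 26 50 (.thr 16 31 (.thr 25 51 (.thr 24 27 (.dbl 48 32 36)))))))) (.rp 26 (.thr 12 8 (.thr 13 14 (.thr 38 55 (.thr 25 51 (.thr 37 49 (.dbl 5 10 53)))))) (.rp 25 (.thr 5 10 (.thr 37 53 (.thr 26 48 (.thr 38 55 (.thr 14 50 (.dbl 12 8 13)))))) (.rp 12 (.thr 5 10 (.thr 37 53 (.thr 38 55 (.thr 39 36 (.thr 51 27 (.thr 17 34 (.thr 25 29 (.thr 49 13 (.dbl 48 26 50))))))))) (.rp 8 (.thr 5 10 (.thr 37 53 (.thr 38 55 (.thr 39 36 (.thr 51 27 (.thr 17 34 (.dbl 25 12 29))))))) (.rp 5 (.thr 12 8 (.thr 13 14 (.thr 38 55 (.thr 25 51 (.thr 37 49 (.thr 48 26 (.dbl 36 24 39)))))))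 .nd))))))))))) (.rp 6 (.str 5 (.nv (.thr 15 10 (.thr 37 53 (.thr 26 48 (.thr 38 55 (.thr 14 50 (.dbl 12 8 13)))))) (.nv (.thr 12 8 (.thr 37 53 (.thr 38 55 (.thr 36 39 (.thr 48 24 (.thr 16 32 (.dbl 26 15 31))))))) (.nv (.thr 12 8 (.thr 15 10 (.thr 14 13 (.thr 38 55 (.thr 26 50 (.dbl 37 48 53)))))) (.rp 55 (.thr 12 8 (.thr 15 10 (.thr 14 13 (.thr 37 53 (.thr 26 48 (.thr 38 50 (.thr 39 36 (.dbl 51 25 27)))))))) (.rp 53 (.thr 12 8 (.thr 15 10 (.thr 14 13 (.thr 38 55 (.thr 26 50 (.thr 16 31 (.dbl 48 32 37))))))) (.rp 48 (.thr 12 8 (.thr 15 10 (.thr 37 53 (.thr 38 55 (.thr 39 36 (.dbl 51 25 27)))))) (.rp 38 (.thr 12 8 (.thr 15 10 (.thr 14 13 (.thr 37 53 (.thr 26 48 (.thr 31 16 (.thr 63 47 (.thr 46 29 (.thr 30 62 (.thr 22 18 (.thr 20 23 (.dbl 52 7 36)))))))))))) (.rp 37 (.thr 12 8 (.thr 15 10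 (.thr 14 13 (.thr 38 55 (.thr 26 50 (.thr 16 31 (.thr 25 51 (.thr 24 27 (.dbl 48 32 36))))))))) (.rp 26 (.thr 12 8 (.thr 37 53 (.thr 38 55 (.thr 25 51 (.thr 13 49 (.dbl 15 10 14)))))) (.rp 15 (.thr 12 8 (.thr 37 53 (.thr 38 55 (.thr 36 39 (.thr 48 24 (.thr 32 16 (.thr 40 44 (.dbl 20 52 60)))))))) (.rp 12 (.thr 15 10 (.thr 37 53 (.thr 38 55 (.thr 39 36 (.thr 51 27 (.thr 17 34 (.thr 25 29 (.thr 49 13 (.dbl 48 26 50))))))))) (.rp 8 (.thr 15 10 (.thr 37 53 (.thr 38 55 (.thr 39 36 (.thr 51 27 (.thr 17 34 (.dbl 25 12 29))))))) .nd))))))))))))) (.rp 5 (.str 16 (.nv (.thr 26 31 (.thr 38 55 (.thr 48 32 (.thr 37 15 (.thr 36 39 (.dbl 12 8 24)))))) (.nv (.thr 12 8 (.thr 26 31 (.thr 38 55 (.thr 25 51 (.thr 17 29 (.thr 19 18 (.thr 28 22 (.dbl 24 20 27)))))))) (.nv (.thr 12 8 (.thr 26 31 (.thr 38 55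 (.thr 14 50 (.thr 48 32 (.dbl 15 13 37)))))) (.rp 55 (.thr 12 8 (.thr 48 32 (.thr 24 36 (.thr 26 31 (.thr 25 27 (.thr 17 29 (.dbl 51 34 38))))))) (.rp 38 (.thr 12 8 (.thr 48 32 (.thr 24 36 (.thr 28 20 (.thr 26 31 (.thr 25 27 (.thr 17 29 (.dbl 19 18 22)))))))) (.rp 31 (.thr 12 8 (.thr 48 32 (.thr 24 36 (.thr 28 20 (.thr 38 55 (.thr 25 51 (.thr 17 29 (.dbl 19 18 22)))))))) (.rp 26 (.thr 12 8 (.thr 48 32 (.thr 24 36 (.thr 28 20 (.thr 38 55 (.thr 25 51 (.thr 17 29 (.dbl 19 18 22)))))))) (.rp 13 (.str 9 (.nv (.thr 8 12 (.thr 11 10 (.thr 26 31 (.thr 56 41 (.thr 40 24 (.thr 60 20 (.dbl 48 32 52))))))) (.nv (.thr 12 8 (.thr 6 3 (.thr 38 55 (.thr 22 54 (.thr 20 23 (.thr 28 24 (.dbl 60 40 44))))))) (.nv (.thr 12 8 (.thr 26 31 (.thr 38 55 (.thr 48 32 (.thr 50 14 (.dbl 51 25 49)))))) (.rp 12 (.thr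 26 31 (.thr 48 32 (.thr 38 55 (.thr 37 15 (.thr 14 50 (.thr 36 39 (.thr 52 20 (.thr 56 60 (.thr 11 41 (.thr 10 8 (.thr 6 2 (.dbl 22 7 54)))))))))))) (.rp 8 (.thr 26 31 (.thr 48 32 (.thr 37 15 (.thr 38 55 (.thr 36 39 (.thr 20 52 (.dbl 24 12 28))))))) .nd)))))) (.rp 12 (.thr 48 32 (.thr 26 31 (.thr 38 55 (.thr 50 14 (.thr 51 49 (.thr 17 34 (.thr 25 29 (.thr 27 24 (.dbl 15 37 39))))))))) (.rp 9 (.str 13 (.nv (.thr 12 8 (.thr 15 14 (.thr 26 31 (.dbl 48 32 37)))) (.nv (.thr 12 8 (.thr 38 55 (.thr 25 51 (.thr 37 49 (.thr 48 32 (.dbl 36 24 39)))))) (.nv (.thr 26 31 (.thr 38 55 (.thr 14 50 (.dbl 12 8 15)))) (.rp 12 (.thr 26 31 (.thr 48 32 (.thr 37 15 (.thr 49 25 (.thr 50 51 (.dbl 38 14 55)))))) (.rp 8 (.thr 26 31 (.thr 48 32 (.thr 38 55 (.thr 14 50 (.dbl 15 12 37))))) .nd)))))) (.rp 8 (.thr 48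 32 (.thr 26 31 (.thr 37 15 (.thr 38 55 (.thr 36 39 (.thr 24 12 (.dbl 20 28 52))))))) .nd)))))))))))) (.rp 3 (.str 5 (.nv (.thr 12 8 (.thr 15 10 (.thr 14 13 (.thr 37 53 (.thr 26 48 (.dbl 38 50 55)))))) (.nv (.thr 37 53 (.thr 38 55 (.thr 36 39 (.thr 52 20 (.dbl 7 6 22))))) (.rp 55 (.thr 12 8 (.thr 7 6 (.thr 15 10 (.thr 37 53 (.thr 52 22 (.thr 36 20 (.dbl 48 24 26))))))) (.rp 53 (.thr 12 8 (.thr 15 10 (.thr 14 13 (.thr 38 55 (.thr 26 50 (.thr 16 31 (.dbl 48 32 37))))))) (.rp 38 (.thr 7 6 (.thr 15 10 (.thr 37 53 (.thr 26 48 (.thr 22 52 (.thr 20 23 (.thr 60 40 (.dbl 30 18 45)))))))) (.rp 37 (.thr 12 8 (.thr 15 10 (.thr 14 13 (.thr 38 55 (.thr 26 50 (.thr 16 31 (.thr 25 51 (.thr 24 27 (.dbl 48 32 36))))))))) .nd))))))) (.rp 2 (.str 22 (.nv (.thr 12 8 (.thr 20 23 (.thr 38 55 (.thr 25 51 (.thr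 28 19 (.dbl 60 40 44)))))) (.nv (.thr 12 8 (.thr 20 23 (.thr 36 52 (.thr 24 48 (.thr 28 16 (.dbl 60 40 44)))))) (.nv (.thr 20 23 (.thr 38 55 (.thr 6 54 (.thr 52 36 (.dbl 7 5 37))))) (.rp 23 (.thr 38 55 (.thr 6 54 (.thr 12 8 (.thr 25 51 (.thr 28 19 (.thr 60 44 (.dbl 3 9 41))))))) (.rp 20 (.thr 38 55 (.thr 6 54 (.thr 12 8 (.thr 25 51 (.thr 28 19 (.thr 60 44 (.dbl 3 9 41))))))) .nd)))))) .nd))))))))))))))))))))))))))))))))))))))))))))))))))))))))))))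

theorem w128 : WinAt (2097153, 4398046511106) :=
  chF (K := []) kn c128 2097153 4398046511106 42
    [] (by decide +kernel) (by decide +kernel)

/-- A certificate. -/
noncomputable def c129 : Ct := (.str 12 (.nv (.thr 8 4 (.thr 42 63 (.thr 25 59 (.thr 51 38 (.dbl 17 29 34))))) (.nv (.thr 4 8 (.thr 38 55 (.thr 25 51 (.thr 63 42 (.dbl 29 17 46))))) (.rp 63 (.thr 4 8 (.str 6 (.nv (.thr 3 9 (.thr 38 55 (.thr 22 54 (.thr 41 60 (.thr 35 44 (.dbl 51 19 25)))))) (.nv (.thr 5 7 (.thr 15 10 (.thr 37 53 (.thr 48 26 (.thr 36 24 (.dbl 38 39 55)))))) (.nv (.thr 7 5 (.thr 38 55 (.thr 22 54 (.thr 52 37 (.dbl 20 23 36))))) (.rp 55 (.thr 5 7 (.thr 15 10 (.thr 13 14 (.thr 37 53 (.thr 25 49 (.thr 17 29 (.dbl 51 34 38))))))) (.rp 38 (.thr 5 7 (.thr 15 10 (.thr 37 53 (.thr 48 26 (.thr 32 16 (.thr 36 24 (.thr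 40 44 (.dbl 20 52 60)))))))) (.rp 9 (.thr 5 7 (.thr 37 53 (.thr 38 55 (.thr 39 36 (.thr 51 25 (.dbl 15 10 27)))))) (.rp 5 (.thr 38 55 (.thr 22 54 (.thr 51 25 (.thr 34 17 (.thr 42 46 (.thr 2 62 (.thr 14 10 (.dbl 50 18 26)))))))) (.rp 3 (.str 23 (.nv (.thr 7 5 (.dbl 55 38 39)) (.nv (.thr 22 20 (.dbl 38 54 55)) (.rp 55 (.thr 20 22 (.thr 36 52 (.thr 24 48 (.thr 28 16 (.dbl 60 40 44))))) (.rp 38 (.thr 20 22 (.thr 36 52 (.thr 24 48 (.thr 28 16 (.dbl 60 40 44))))) .nd))))) .nd)))))))))) (.rp 51 (.str 5 (.nv (.thr 4 8 (.thr 6 7 (.thr 10 15 (.thr 2 14 (.thr 42 63 (.thr 22 62 (.dbl 38 54 55))))))) (.nv (.thr 4 8 (.thr 7 6 (.thr 37 53 (.thr 22 52 (.thr 55 38 (.dbl 23 20 39)))))) (.nv (.thr 15 10 (.thr 37 53 (.thr 48 26 (.thr 32 16 (.dbl 42 47 63))))) .nd)))) (.rp 42 (.str 5 (.nv (.thr 15 10 (.thr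 14 13 (.thr 37 53 (.thr 26 48 (.thr 38 50 (.dbl 4 8 55)))))) (.nv (.thr 15 10 (.thr 13 14 (.thr 37 53 (.thr 25 49 (.thr 17 29 (.dbl 51 34 38)))))) (.nv (.thr 4 8 (.thr 7 6 (.thr 37 53 (.thr 22 52 (.thr 23 20 (.dbl 55 38 39)))))) (.rp 53 (.thr 4 8 (.thr 15 10 (.thr 14 13 (.thr 38 55 (.thr 26 50 (.thr 16 31 (.dbl 48 32 37))))))) (.rp 41 (.str 40 (.nv (.thr 4 8 (.thr 20 60 (.thr 36 52 (.thr 48 24 (.dbl 32 16 44))))) (.nv (.thr 8 4 (.thr 15 10 (.thr 24 56 (.thr 37 53 (.dbl 48 26 36))))) (.nv (.thr 4 8 (.thr 7 6 (.thr 37 53 (.thr 20 60 (.dbl 22 23 52))))) (.rp 8 (.thr 60 20 (.thr 44 28 (.thr 32 36 (.thr 37 53 (.thr 15 10 (.dbl 48 16 26)))))) (.rp 4 (.thr 60 20 (.thr 44 28 (.thr 36 32 (.thr 37 53 (.thr 15 10 (.dbl 48 24 26)))))) .nd)))))) (.rp 40 (.str 41 (.nv (.thr 4 8 (.thr 7 6 (.thr 15 10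 (.thr 11 3 (.thr 37 53 (.dbl 26 48 56)))))) (.nv (.thr 4 8 (.thr 37 53 (.thr 38 55 (.thr 25 51 (.thr 13 49 (.dbl 15 10 14)))))) (.nv (.thr 4 8 (.thr 6 7 (.thr 3 9 (.thr 22 60 (.dbl 38 54 55))))) (.rp 59 (.thr 37 53 (.thr 45 33 (.thr 15 10 (.thr 13 14 (.thr 29 61 (.dbl 25 17 49)))))) (.rp 56 (.thr 37 53 (.thr 45 33 (.thr 15 10 (.thr 13 14 (.thr 29 61 (.dbl 25 17 49)))))) (.rp 25 (.thr 37 53 (.thr 15 10 (.thr 26 48 (.thr 11 56 (.thr 7 3 (.dbl 4 6 8)))))) (.rp 24 (.thr 37 53 (.thr 45 33 (.thr 15 10 (.thr 13 14 (.thr 29 61 (.dbl 25 17 49)))))) (.rp 10 (.thr 4 8 (.thr 6 7 (.thr 9 3 (.thr 25 57 (.dbl 38 51 55))))) (.rp 8 (.thr 37 53 (.thr 45 33 (.thr 15 10 (.thr 13 14 (.thr 29 61 (.dbl 25 17 49)))))) (.rp 4 (.thr 37 53 (.thr 45 33 (.thr 15 10 (.thr 13 14 (.thr 29 61 (.dbl 25 17 49)))))) .nd)))))))))))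 (.rp 38 (.thr 15 10 (.thr 13 14 (.thr 37 53 (.thr 26 48 (.thr 31 16 (.thr 25 49 (.thr 63 47 (.dbl 29 17 46)))))))) (.rp 37 (.thr 4 8 (.thr 6 7 (.thr 3 9 (.thr 38 55 (.thr 22 54 (.thr 41 60 (.thr 35 44 (.dbl 51 19 25)))))))) .nd))))))))) (.rp 38 (.str 5 (.nv (.thr 8 4 (.thr 15 10 (.thr 13 14 (.thr 37 53 (.thr 25 49 (.dbl 42 59 63)))))) (.nv (.thr 15 10 (.thr 37 53 (.thr 26 48 (.thr 31 16 (.dbl 63 42 47))))) (.rp 63 (.thr 4 8 (.thr 7 6 (.thr 15 10 (.thr 37 53 (.thr 48 26 (.thr 36 24 (.dbl 52 20 22))))))) (.rp 53 (.thr 15 10 (.thr 14 13 (.thr 63 42 (.thr 46 29 (.thr 30 62 (.thr 45 60 (.dbl 47 31 44))))))) (.rp 42 (.thr 15 10 (.thr 13 14 (.thr 37 53 (.thr 26 48 (.thr 31 16 (.thr 25 49 (.thr 63 47 (.dbl 29 17 46)))))))) (.rp 37 (.thr 15 10 (.thr 14 13 (.thr 63 42 (.thr 46 29 (.thr 30 62 (.thr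 45 60 (.dbl 47 31 44))))))) (.rp 26 (.thr 8 4 (.thr 15 10 (.thr 37 53 (.thr 42 63 (.thr 25 59 (.dbl 13 14 49)))))) (.rp 15 (.thr 4 8 (.thr 53 37 (.thr 63 42 (.thr 48 58 (.thr 32 16 (.thr 36 24 (.thr 40 44 (.dbl 20 52 60)))))))) (.rp 10 (.thr 4 8 (.thr 7 6 (.thr 37 53 (.thr 42 63 (.thr 32 47 (.thr 48 16 (.thr 36 24 (.dbl 52 20 22)))))))) .nd)))))))))) (.rp 29 (.thr 4 8 (.thr 38 55 (.thr 51 25 (.thr 34 17 (.dbl 42 46 63))))) (.rp 25 (.str 5 (.nv (.thr 4 8 (.thr 6 7 (.thr 10 15 (.thr 2 14 (.thr 38 55 (.thr 42 63 (.dbl 22 54 62))))))) (.nv (.thr 4 8 (.thr 7 6 (.thr 37 53 (.thr 22 52 (.thr 23 20 (.dbl 55 38 39)))))) (.nv (.thr 15 10 (.thr 37 53 (.thr 26 48 (.thr 31 16 (.dbl 63 42 47))))) (.rp 42 (.thr 15 10 (.thr 14 13 (.thr 37 53 (.thr 26 48 (.thr 38 50 (.dbl 4 8 55)))))) .nd))))) (.rp 17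 (.thr 63 42 (.thr 8 4 (.str 40 (.nv (.thr 24 56 (.thr 29 46 (.thr 48 36 (.thr 16 32 (.thr 31 26 (.dbl 28 20 30)))))) (.nv (.thr 24 56 (.thr 60 20 (.thr 36 48 (.dbl 44 28 32)))) (.rp 56 (.thr 60 20 (.thr 44 28 (.thr 46 29 (.thr 45 47 (.thr 62 61 (.dbl 30 14 15)))))) (.rp 49 (.str 33 (.nv (.thr 24 56 (.thr 48 36 (.thr 20 60 (.dbl 16 28 32)))) (.rp 60 (.thr 24 56 (.thr 48 36 (.thr 16 32 (.thr 53 58 (.thr 37 5 (.dbl 26 15 31)))))) (.rp 56 (.thr 60 20 (.thr 44 28 (.thr 46 29 (.thr 45 47 (.thr 62 61 (.dbl 30 14 15)))))) (.rp 48 (.thr 60 20 (.thr 44 28 (.thr 46 29 (.thr 45 47 (.thr 62 61 (.dbl 30 14 15)))))) (.rp 36 (.thr 24 56 (.thr 20 60 (.thr 16 28 (.thr 48 32 (.thr 53 58 (.thr 37 5 (.dbl 26 15 31))))))) (.rp 32 (.thr 60 20 (.thr 44 28 (.thr 46 29 (.thr 62 61 (.thr 30 14 (.dbl 45 15 47))))))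 (.rp 28 (.thr 24 56 (.thr 48 36 (.thr 16 32 (.thr 53 58 (.thr 37 5 (.dbl 26 15 31)))))) (.rp 24 (.thr 60 20 (.thr 28 44 (.thr 29 46 (.thr 61 62 (.thr 45 13 (.dbl 30 15 31)))))) (.rp 20 (.thr 24 56 (.thr 36 48 (.thr 44 32 (.thr 60 28 (.thr 46 29 (.thr 62 61 (.thr 30 14 (.dbl 45 15 47)))))))) (.rp 16 (.thr 24 56 (.thr 36 48 (.thr 44 32 (.dbl 60 20 28)))) .nd))))))))))) (.rp 48 (.thr 60 20 (.thr 44 28 (.thr 46 29 (.thr 45 47 (.thr 62 61 (.dbl 30 14 15)))))) (.rp 36 (.thr 24 56 (.thr 20 60 (.thr 16 28 (.thr 48 32 (.thr 53 58 (.thr 37 5 (.dbl 26 15 31))))))) (.rp 33 (.str 49 (.nv (.thr 24 56 (.thr 60 20 (.thr 61 62 (.thr 53 57 (.dbl 48 36 58))))) (.nv (.thr 24 56 (.thr 48 36 (.thr 20 60 (.dbl 16 28 32)))) (.rp 60 (.thr 24 56 (.thr 48 36 (.thr 16 32 (.thr 53 58 (.thr 37 5 (.dbl 26 15 31))))))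 (.rp 56 (.thr 60 20 (.thr 44 28 (.thr 36 32 (.thr 61 62 (.thr 53 57 (.dbl 48 24 58)))))) (.rp 48 (.thr 56 24 (.thr 60 20 (.thr 61 62 (.thr 57 53 (.thr 59 58 (.dbl 51 54 55)))))) (.rp 36 (.thr 56 24 (.thr 60 20 (.thr 52 48 (.thr 61 62 (.thr 57 53 (.thr 59 58 (.dbl 51 54 55))))))) (.rp 24 (.thr 60 20 (.thr 28 44 (.thr 29 46 (.thr 61 62 (.thr 45 13 (.dbl 30 15 31)))))) (.rp 20 (.thr 24 56 (.thr 36 48 (.thr 44 32 (.thr 60 28 (.thr 46 29 (.thr 62 61 (.thr 30 14 (.dbl 45 15 47)))))))) .nd))))))))) (.rp 32 (.thr 60 20 (.thr 44 28 (.thr 46 29 (.thr 62 61 (.thr 30 14 (.dbl 45 15 47)))))) (.rp 28 (.thr 24 56 (.thr 48 36 (.thr 16 32 (.thr 53 58 (.thr 37 5 (.dbl 26 15 31)))))) (.rp 24 (.thr 60 20 (.thr 28 44 (.thr 29 46 (.thr 61 62 (.thr 45 13 (.dbl 30 15 31)))))) (.rp 20 (.thr 24 56 (.thr 36 48 (.thr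 44 32 (.thr 60 28 (.thr 46 29 (.thr 62 61 (.thr 30 14 (.dbl 45 15 47)))))))) .nd)))))))))))))) (.rp 8 (.str 5 (.nv (.thr 37 53 (.thr 42 63 (.thr 32 47 (.thr 48 16 (.dbl 15 10 26))))) (.nv (.thr 15 10 (.thr 13 14 (.thr 63 42 (.thr 29 46 (.thr 45 61 (.thr 30 60 (.dbl 31 28 47))))))) (.nv (.thr 15 10 (.thr 13 14 (.thr 37 53 (.thr 25 49 (.thr 17 29 (.dbl 51 34 38)))))) (.nv (.thr 15 10 (.thr 37 53 (.thr 26 48 (.thr 31 16 (.dbl 63 42 47))))) (.rp 15 (.thr 53 37 (.thr 63 42 (.thr 29 46 (.thr 25 17 (.thr 48 58 (.thr 24 36 (.thr 26 27 (.dbl 16 31 32)))))))) (.rp 10 (.thr 37 53 (.thr 42 63 (.thr 32 47 (.thr 48 16 (.thr 36 24 (.thr 40 44 (.thr 20 60 (.thr 4 52 (.dbl 38 39 55))))))))) .nd))))))) (.rp 4 (.str 5 (.nv (.thr 15 10 (.thr 13 14 (.thr 63 42 (.thr 29 46 (.thr 45 61 (.thr 30 60 (.dbl 31 28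 47))))))) (.nv (.thr 15 10 (.thr 13 14 (.thr 37 53 (.thr 25 49 (.thr 17 29 (.dbl 51 34 38)))))) (.nv (.thr 15 10 (.thr 37 53 (.thr 26 48 (.thr 31 16 (.dbl 63 42 47))))) (.rp 15 (.thr 53 37 (.thr 63 42 (.thr 29 46 (.thr 25 17 (.thr 48 58 (.thr 24 36 (.thr 26 27 (.dbl 16 31 32)))))))) (.rp 10 (.thr 37 53 (.thr 42 63 (.thr 32 47 (.thr 48 16 (.thr 36 24 (.thr 44 40 (.thr 38 39 (.thr 35 41 (.dbl 34 33 46))))))))) .nd)))))) .nd))))))))))))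

theorem w129 : WinAt (2097153, 8796093022210) :=
  chF (K := []) kn c129 2097153 8796093022210 43
    [] (by decide +kernel) (by decide +kernel)

end Pool.Agent.TTT.B43
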