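import Pool.Agent.TTT.B43

/-!
Certified forced wins in positions of the 4 x 4 x 4 board.
-/

set_option autoImplicit false
set_option maxRecDepth 1000000
set_option linter.all false

namespace Pool.Agent.TTT.B43

/-- A certificate. -/
noncomputable def c130 : Ct := (.str 12 (.nv (.thr 8 4 (.thr 25 59 (.thr 51 38 (.dbl 17 29 34)))) (.nv (.thr 4 8 (.thr 38 55 (.thr 51 25 (.dbl 34 17 46)))) (.rp 51 (.thr 4 8 (.str 5 (.nv (.thr 6 7 (.thr 10 15 (.thr 2 14 (.thr 22 62 (.dbl 38 54 55))))) (.nv (.thr 55 38 (.thr 7 6 (.thr 23 39 (.thr 22 20 (.dbl 37 52 53))))) (.nv (.thr 15 10 (.thr 37 53 (.thr 48 26 (.dbl 32 16 47)))) (.rp 55 (.str 59 (.nv (.thr 7 6 (.thr 15 10 (.thr 37 53 (.thr 48 26 (.thr 36 24 (.dbl 52 20 22)))))) (.nv (.thr 7 6 (.thr 37 53 (.thr 52 22 (.thr 36 20 (.thr 48 24 (.dbl 32 16 47))))))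 (.nv (.thr 15 10 (.thr 37 53 (.thr 48 26 (.dbl 32 16 47)))) (.rp 54 (.thr 10 15 (.thr 6 7 (.thr 3 9 (.thr 2 14 (.thr 22 62 (.thr 60 41 (.dbl 20 23 40))))))) (.rp 53 (.thr 10 15 (.thr 6 7 (.thr 3 9 (.thr 2 14 (.thr 22 62 (.thr 60 41 (.dbl 20 23 40))))))) (.rp 52 (.thr 10 15 (.thr 6 7 (.thr 3 9 (.thr 2 14 (.thr 22 62 (.thr 60 41 (.dbl 20 23 40))))))) (.rp 48 (.thr 10 15 (.thr 6 7 (.thr 3 9 (.thr 2 14 (.thr 22 62 (.thr 60 41 (.dbl 20 23 40))))))) (.rp 37 (.thr 10 15 (.thr 6 7 (.thr 3 9 (.thr 2 14 (.thr 22 62 (.thr 60 41 (.dbl 20 23 40))))))) .nd))))))))) (.rp 15 (.thr 7 6 (.thr 55 38 (.thr 37 53 (.thr 22 52 (.dbl 23 20 39))))) .nd))))))) (.rp 38 (.thr 8 4 (.str 41 (.nv (.thr 25 59 (.thr 9 57 (.thr 3 6 (.thr 17 29 (.thr 22 60 (.thr 19 28 (.dbl 51 34 35))))))) (.nv (.thr 40 43 (.thr 24 56 (.thr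 48 36 (.thr 16 32 (.dbl 20 28 60))))) (.nv (.thr 25 59 (.thr 17 29 (.thr 51 34 (.thr 57 9 (.thr 60 54 (.dbl 40 20 43)))))) (.nv (.thr 40 43 (.thr 56 24 (.thr 26 11 (.thr 59 25 (.dbl 58 10 57))))) .nd)))))) (.rp 34 (.str 15 (.nv (.thr 8 4 (.thr 10 5 (.thr 9 11 (.thr 6 3 (.dbl 14 2 13))))) (.nv (.thr 5 10 (.thr 37 53 (.thr 48 26 (.dbl 32 16 47)))) (.rp 10 (.thr 13 14 (.thr 8 4 (.thr 25 59 (.thr 37 49 (.thr 32 47 (.dbl 48 16 26)))))) (.rp 5 (.thr 13 14 (.thr 8 4 (.thr 25 59 (.thr 37 49 (.thr 32 47 (.dbl 48 16 26)))))) .nd))))) (.rp 25 (.str 36 (.nv (.thr 4 8 (.thr 20 52 (.thr 22 23 (.thr 38 55 (.thr 60 40 (.thr 3 41 (.dbl 6 9 54))))))) (.nv (.thr 48 24 (.thr 16 32 (.thr 26 31 (.thr 10 58 (.dbl 15 5 37))))) (.rp 24 (.thr 4 8 (.thr 52 20 (.thr 38 55 (.thr 37 39 (.thr 5 53 (.dbl 7 6 22)))))) .nd))))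 (.rp 17 (.thr 4 8 (.str 15 (.nv (.thr 14 13 (.thr 38 55 (.thr 26 50 (.dbl 10 5 58)))) (.nv (.thr 5 10 (.thr 37 53 (.thr 48 26 (.dbl 32 16 47)))) (.rp 49 (.str 33 (.nv (.thr 10 5 (.thr 26 58 (.thr 38 55 (.dbl 14 13 50)))) (.nv (.thr 38 55 (.thr 34 46 (.thr 32 35 (.thr 48 16 (.dbl 37 26 47))))) (.nv (.thr 5 10 (.thr 38 55 (.thr 34 46 (.thr 32 35 (.dbl 37 47 53))))) (.nv (.thr 13 14 (.thr 10 5 (.thr 26 58 (.thr 48 37 (.dbl 16 31 32))))) .nd))))) (.rp 33 (.str 49 (.nv (.thr 13 14 (.thr 25 37 (.dbl 38 51 55))) (.nv (.thr 5 10 (.thr 37 53 (.thr 32 47 (.dbl 48 16 26)))) (.nv (.thr 13 14 (.thr 37 25 (.dbl 5 10 53))) (.rp 37 (.thr 14 13 (.thr 38 55 (.thr 51 25 (.dbl 50 26 48)))) .nd))))) (.rp 26 (.thr 13 14 (.thr 5 10 (.thr 38 55 (.thr 37 53 (.dbl 25 49 51))))) (.rp 10 (.thr 14 13 (.thr 38 55 (.thr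 26 50 (.thr 16 31 (.dbl 48 32 37))))) (.rp 9 (.thr 13 14 (.thr 10 5 (.thr 26 58 (.thr 16 31 (.dbl 48 32 37))))) (.rp 5 (.thr 38 55 (.thr 51 25 (.thr 39 27 (.thr 37 36 (.thr 32 47 (.dbl 48 16 26)))))) .nd)))))))))) (.rp 8 (.str 37 (.nv (.thr 5 53 (.thr 15 10 (.thr 13 14 (.thr 25 49 (.thr 17 29 (.dbl 51 34 38)))))) (.nv (.thr 32 47 (.thr 48 16 (.thr 36 24 (.thr 38 39 (.thr 51 25 (.dbl 34 17 46)))))) (.nv (.thr 5 53 (.thr 15 10 (.thr 48 26 (.dbl 32 16 47)))) (.rp 48 (.str 15 (.nv (.dbl 5 10 53) (.rp 58 (.thr 53 5 (.thr 13 14 (.thr 25 49 (.thr 17 29 (.dbl 51 34 38))))) (.rp 53 (.str 58 (.nv (.dbl 10 5 26) (.rp 26 (.thr 13 14 (.thr 25 49 (.thr 17 29 (.dbl 51 34 38)))) (.rp 10 (.thr 13 14 (.thr 25 49 (.thr 17 29 (.dbl 51 34 38)))) (.rp 5 (.thr 13 14 (.thr 25 49 (.thr 17 29 (.dbl 51 34 38)))) .nd)))))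 (.rp 10 (.thr 13 14 (.thr 25 49 (.thr 17 29 (.dbl 51 34 38)))) (.rp 5 (.thr 13 14 (.thr 25 49 (.thr 17 29 (.dbl 51 34 38)))) .nd)))))) (.rp 15 (.thr 47 32 (.str 38 (.nv (.thr 34 46 (.dbl 51 17 25)) (.rp 51 (.thr 55 4 (.thr 53 5 (.thr 52 54 (.thr 7 22 (.dbl 39 23 36))))) (.rp 46 (.thr 36 39 (.thr 4 55 (.thr 5 53 (.thr 7 6 (.dbl 52 20 22))))) (.rp 40 (.thr 36 39 (.thr 34 46 (.dbl 51 17 25))) (.rp 36 (.str 40 (.nv (.thr 34 46 (.dbl 51 17 25)) (.rp 51 (.thr 43 41 (.thr 39 35 (.thr 20 60 (.thr 55 4 (.dbl 23 7 22))))) (.rp 46 (.thr 43 41 (.thr 39 35 (.thr 20 60 (.thr 55 4 (.dbl 23 7 22))))) (.rp 34 (.thr 41 43 (.thr 60 20 (.thr 3 22 (.thr 9 6 (.dbl 25 51 57))))) (.rp 25 (.thr 43 41 (.thr 39 35 (.thr 20 60 (.thr 55 4 (.dbl 23 7 22))))) (.rp 17 (.thr 43 41 (.thr 39 35 (.thr 20 60 (.thr 55 4 (.dbl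 23 7 22))))) .nd))))))) (.rp 34 (.thr 36 39 (.thr 4 55 (.thr 5 53 (.thr 7 6 (.dbl 52 20 22))))) (.rp 25 (.thr 36 39 (.thr 4 55 (.thr 5 53 (.thr 7 6 (.dbl 52 20 22))))) (.rp 17 (.thr 36 39 (.thr 4 55 (.thr 5 53 (.thr 7 6 (.dbl 52 20 22))))) .nd)))))))))) .nd)))))) (.rp 4 (.str 37 (.nv (.thr 32 47 (.thr 48 16 (.thr 36 24 (.thr 38 39 (.thr 51 25 (.dbl 34 17 46)))))) (.nv (.thr 5 53 (.thr 15 10 (.thr 13 14 (.thr 25 49 (.thr 17 29 (.dbl 51 34 38)))))) (.nv (.thr 5 53 (.thr 15 10 (.thr 48 26 (.dbl 32 16 47)))) (.rp 48 (.str 15 (.nv (.dbl 5 10 53) (.rp 58 (.thr 53 5 (.thr 13 14 (.thr 25 49 (.thr 17 29 (.dbl 51 34 38))))) (.rp 53 (.str 58 (.nv (.dbl 10 5 26) (.rp 26 (.thr 13 14 (.thr 25 49 (.thr 17 29 (.dbl 51 34 38)))) (.rp 10 (.thr 13 14 (.thr 25 49 (.thr 17 29 (.dbl 51 34 38)))) (.rp 5 (.thr 13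 14 (.thr 25 49 (.thr 17 29 (.dbl 51 34 38)))) .nd))))) (.rp 10 (.thr 13 14 (.thr 25 49 (.thr 17 29 (.dbl 51 34 38)))) (.rp 5 (.thr 13 14 (.thr 25 49 (.thr 17 29 (.dbl 51 34 38)))) .nd)))))) (.rp 15 (.thr 47 32 (.str 51 (.nv (.thr 38 25 (.dbl 34 17 46)) (.rp 46 (.thr 17 34 (.dbl 25 29 38)) (.rp 40 (.str 36 (.nv (.dbl 38 25 39) (.rp 39 (.thr 34 17 (.dbl 38 25 46)) (.rp 38 (.thr 17 34 (.thr 25 29 (.thr 49 13 (.dbl 48 24 50)))) (.rp 25 (.thr 38 39 (.dbl 34 17 46)) .nd))))) (.rp 38 (.thr 17 34 (.thr 25 29 (.thr 8 59 (.thr 49 13 (.thr 48 50 (.thr 24 36 (.thr 40 56 (.thr 26 27 (.thr 16 31 (.dbl 20 28 60)))))))))) (.rp 36 (.str 40 (.nv (.thr 25 38 (.thr 41 43 (.thr 57 9 (.dbl 60 20 54)))) (.nv (.thr 38 25 (.dbl 34 17 46)) (.rp 52 (.thr 20 60 (.thr 34 17 (.dbl 38 25 46))) (.rp 38 (.thr 41 43 (.thr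 17 34 (.thr 25 29 (.thr 57 9 (.dbl 60 20 54))))) (.rp 25 (.thr 43 41 (.thr 35 39 (.thr 34 17 (.thr 38 46 (.thr 3 19 (.thr 20 60 (.thr 22 23 (.dbl 6 9 54)))))))) (.rp 20 (.str 52 (.nv (.thr 38 25 (.thr 53 5 (.thr 54 55 (.dbl 22 6 7)))) (.nv (.thr 38 25 (.dbl 34 17 46)) (.rp 38 (.thr 53 5 (.thr 41 43 (.thr 54 55 (.thr 60 57 (.dbl 22 3 7))))) (.rp 25 (.thr 53 5 (.thr 41 43 (.thr 54 55 (.thr 60 57 (.dbl 22 3 7))))) .nd))))) .nd))))))) (.rp 34 (.thr 25 38 (.thr 8 59 (.thr 49 13 (.thr 48 50 (.thr 24 36 (.thr 40 56 (.thr 26 27 (.thr 16 31 (.dbl 20 28 60))))))))) (.rp 25 (.thr 34 17 (.thr 38 46 (.thr 36 39 (.thr 53 5 (.thr 48 24 (.thr 49 50 (.thr 57 61 (.thr 60 54 (.thr 20 40 (.thr 22 23 (.dbl 52 7 56))))))))))) (.rp 17 (.thr 25 38 (.thr 8 59 (.thr 49 13 (.thr 48 50 (.thr 24 36 (.thr 40 56 (.thr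 26 27 (.thr 16 31 (.dbl 20 28 60))))))))) .nd)))))))))) .nd)))))) .nd))))))))))

theorem w130 : WinAt (4398048608257, 9223389629040820226) :=
  chF (K := []) kn c130 4398048608257 9223389629040820226 63
    [] (by decide +kernel) (by decide +kernel)

/-- A certificate. -/
noncomputable def c131 : Ct := (.str 38 (.nv (.thr 4 55 (.thr 12 8 (.thr 25 51 (.dbl 29 17 46)))) (.nv (.thr 55 4 (.thr 51 59 (.thr 25 12 (.dbl 17 29 34)))) (.rp 55 (.str 48 (.nv (.thr 53 58 (.thr 37 5 (.thr 36 39 (.thr 12 24 (.thr 25 51 (.dbl 29 17 46)))))) (.nv (.thr 16 32 (.thr 26 31 (.thr 50 14 (.thr 51 49 (.thr 17 34 (.dbl 25 12 29)))))) (.nv (.thr 16 32 (.thr 53 58 (.thr 26 31 (.dbl 37 5 15)))) (.rp 37 (.thr 32 16 (.str 33 (.nv (.thr 3 18 (.thr 23 43 (.thr 22 20 (.thr 41 60 (.dbl 35 34 44))))) (.nv (.thr 34 35 (.thr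 51 17 (.thr 18 3 (.dbl 50 2 49)))) (.rp 35 (.thr 3 18 (.thr 23 43 (.thr 22 20 (.thr 54 6 (.thr 58 53 (.thr 62 50 (.dbl 60 41 61))))))) (.rp 34 (.thr 3 18 (.thr 23 43 (.thr 22 20 (.thr 6 54 (.thr 12 9 (.thr 29 46 (.dbl 25 17 51))))))) (.rp 18 (.thr 35 34 (.thr 44 41 (.thr 40 36 (.thr 20 60 (.thr 22 23 (.thr 54 6 (.thr 58 53 (.thr 50 62 (.thr 51 49 (.thr 19 3 (.dbl 25 12 28))))))))))) (.rp 17 (.thr 35 34 (.thr 3 18 (.thr 19 51 (.thr 23 43 (.thr 22 20 (.dbl 41 44 60)))))) (.rp 3 (.thr 34 35 (.thr 51 17 (.thr 12 25 (.thr 36 24 (.thr 40 44 (.thr 20 60 (.dbl 4 8 52))))))) .nd))))))))) (.rp 26 (.str 36 (.nv (.thr 12 24 (.thr 25 51 (.dbl 29 17 46))) (.nv (.thr 37 39 (.dbl 53 5 58)) (.rp 58 (.str 10 (.nv (.thr 12 24 (.thr 25 51 (.dbl 29 17 46))) (.nv (.thr 5 15 (.dbl 37 39 53)) .nd))) (.rp 10 (.thr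 58 53 (.thr 12 24 (.thr 29 46 (.dbl 25 17 51)))) .nd))))) .nd)))))) (.rp 51 (.str 36 (.nv (.thr 37 39 (.thr 5 53 (.thr 15 10 (.thr 26 48 (.dbl 31 16 47))))) (.nv (.thr 4 55 (.thr 12 8 (.thr 48 24 (.thr 32 16 (.thr 40 44 (.dbl 20 52 60)))))) (.nv (.thr 37 39 (.thr 4 55 (.thr 5 53 (.thr 52 20 (.dbl 7 6 22))))) .nd)))) (.rp 29 (.thr 4 55 (.thr 12 8 (.thr 25 51 (.str 13 (.nv (.thr 37 49 (.thr 53 5 (.thr 48 58 (.dbl 36 24 39)))) (.nv (.thr 15 14 (.thr 31 47 (.thr 26 16 (.thr 24 27 (.dbl 48 36 37))))) (.nv (.thr 15 14 (.thr 37 49 (.dbl 5 10 53))) (.rp 48 (.thr 15 14 (.thr 5 10 (.dbl 37 49 53))) (.rp 37 (.thr 15 14 (.thr 5 10 (.thr 6 7 (.thr 22 54 (.thr 23 20 (.dbl 3 9 43)))))) .nd))))))))) (.rp 25 (.thr 55 4 (.str 39 (.nv (.thr 59 51 (.thr 37 36 (.thr 5 53 (.thr 15 10 (.thr 26 48 (.dbl 31 16 47))))))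 (.nv (.thr 23 7 (.thr 43 3 (.thr 47 35 (.thr 15 31 (.dbl 51 27 59))))) (.nv (.thr 37 36 (.thr 53 5 (.thr 7 23 (.dbl 52 22 54)))) (.rp 59 (.str 8 (.nv (.thr 23 7 (.thr 43 3 (.thr 47 35 (.thr 15 31 (.thr 5 10 (.dbl 37 36 53)))))) (.nv (.thr 37 36 (.thr 5 53 (.thr 15 10 (.thr 26 48 (.dbl 31 16 47))))) (.nv (.thr 37 36 (.thr 53 5 (.thr 7 23 (.dbl 52 22 54)))) (.rp 53 (.thr 36 37 (.thr 23 7 (.thr 22 20 (.thr 6 54 (.thr 3 43 (.thr 12 9 (.thr 41 60 (.thr 44 35 (.thr 32 40 (.dbl 48 16 24)))))))))) (.rp 37 (.thr 23 7 (.thr 22 20 (.thr 6 54 (.thr 3 43 (.thr 9 12 (.thr 11 10 (.thr 41 60 (.thr 26 56 (.thr 31 16 (.thr 27 19 (.dbl 15 47 51))))))))))) (.rp 36 (.thr 23 7 (.thr 20 22 (.thr 60 40 (.thr 43 3 (.thr 47 35 (.thr 15 31 (.thr 5 10 (.thr 53 37 (.thr 52 54 (.dbl 48 56 58)))))))))) (.rp 5 (.thr 37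 36 (.thr 7 23 (.thr 52 22 (.thr 53 54 (.thr 48 58 (.thr 26 15 (.dbl 16 31 32))))))) .nd)))))))) (.rp 5 (.thr 37 36 (.thr 7 23 (.thr 52 22 (.thr 53 54 (.thr 48 58 (.thr 16 32 (.dbl 26 15 31))))))) .nd))))))) (.rp 17 (.thr 55 4 (.thr 51 59 (.thr 25 12 (.str 49 (.nv (.thr 37 13 (.thr 5 53 (.thr 15 10 (.dbl 39 27 36)))) (.nv (.thr 48 50 (.thr 53 58 (.thr 54 52 (.dbl 57 60 61)))) (.nv (.thr 48 50 (.thr 16 32 (.thr 26 31 (.dbl 37 13 15)))) (.rp 26 (.thr 48 50 (.thr 37 13 (.dbl 53 5 58))) .nd)))))))) (.rp 12 (.str 39 (.nv (.thr 37 36 (.thr 5 53 (.thr 15 10 (.thr 31 47 (.dbl 26 16 48))))) (.nv (.thr 55 4 (.thr 51 59 (.thr 15 27 (.thr 47 31 (.thr 43 35 (.dbl 23 3 7)))))) (.nv (.thr 37 36 (.thr 5 53 (.thr 15 10 (.thr 51 27 (.dbl 55 4 59))))) (.rp 15 (.thr 37 36 (.thr 55 4 (.thr 7 23 (.thr 52 22 (.dbl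 53 5 54))))) .nd))))) (.rp 4 (.str 48 (.nv (.thr 53 58 (.thr 37 5 (.thr 36 39 (.thr 12 24 (.thr 25 51 (.dbl 29 17 46)))))) (.nv (.thr 16 32 (.thr 26 31 (.thr 50 14 (.thr 51 49 (.thr 17 34 (.dbl 25 12 29)))))) (.nv (.thr 16 32 (.thr 53 58 (.thr 26 31 (.dbl 37 5 15)))) (.rp 37 (.thr 32 16 (.str 33 (.nv (.thr 3 18 (.thr 23 43 (.thr 22 20 (.thr 41 60 (.dbl 35 34 44))))) (.nv (.thr 34 35 (.thr 51 17 (.thr 18 3 (.dbl 50 2 49)))) (.rp 35 (.thr 3 18 (.thr 23 43 (.thr 22 20 (.thr 54 6 (.thr 53 58 (.thr 52 55 (.dbl 60 41 56))))))) (.rp 34 (.thr 3 18 (.thr 23 43 (.thr 22 20 (.thr 54 6 (.thr 53 58 (.thr 52 55 (.dbl 60 41 56))))))) (.rp 18 (.thr 35 34 (.thr 44 41 (.thr 40 36 (.thr 60 20 (.thr 52 56 (.thr 61 62 (.thr 53 58 (.thr 54 55 (.dbl 57 49 51))))))))) (.rp 17 (.thr 35 34 (.thr 3 18 (.thr 19 51 (.thr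 23 43 (.thr 22 20 (.dbl 41 44 60)))))) (.rp 3 (.thr 34 35 (.thr 51 17 (.thr 50 49 (.thr 58 53 (.thr 54 62 (.thr 59 55 (.dbl 57 56 60))))))) .nd))))))))) (.rp 26 (.str 36 (.nv (.thr 12 24 (.thr 25 51 (.dbl 29 17 46))) (.nv (.thr 37 39 (.dbl 53 5 58)) (.rp 58 (.str 10 (.nv (.thr 12 24 (.thr 25 51 (.dbl 29 17 46))) (.nv (.thr 37 39 (.dbl 5 15 53)) .nd))) (.rp 10 (.thr 58 53 (.thr 12 24 (.thr 29 46 (.dbl 25 17 51)))) .nd))))) .nd)))))) .nd))))))))))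

theorem w131 : WinAt (9223372036856872961, 39582418599938) :=
  chF (K := []) kn c131 9223372036856872961 39582418599938 42
    [] (by decide +kernel) (by decide +kernel)

/-- A certificate. -/
noncomputable def c132 : Ct := (.str 15 (.nv (.thr 10 5 (.thr 42 63 (.thr 26 58 (.thr 48 37 (.dbl 16 31 32))))) (.nv (.thr 5 10 (.thr 37 53 (.thr 42 63 (.thr 48 26 (.dbl 32 16 47))))) (.nv (.thr 5 10 (.thr 37 53 (.thr 26 48 (.thr 31 16 (.dbl 63 42 47))))) (.rp 63 (.str 12 (.nv (.thr 5 10 (.thr 13 14 (.thr 37 53 (.thr 25 49 (.thr 17 29 (.dbl 51 34 38)))))) (.nv (.thr 4 8 (.thr 38 55 (.thr 51 25 (.thr 39 27 (.thr 37 36 (.dbl 5 10 53)))))) (.nv (.thr 8 4 (.thr 10 5 (.thr 9 11 (.thr 14 13 (.dbl 6 2 3))))) (.rp 10 (.thr 4 8 (.thr 14 13 (.thr 38 55 (.thr 26 50 (.thr 16 31 (.dbl 48 32 37)))))) (.rp 5 (.thr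 4 8 (.thr 38 55 (.thr 51 25 (.thr 39 27 (.thr 37 36 (.thr 26 48 (.dbl 14 13 50))))))) .nd)))))) (.rp 48 (.str 4 (.nv (.thr 5 10 (.thr 12 8 (.thr 38 55 (.thr 51 25 (.thr 39 27 (.dbl 37 36 53)))))) (.nv (.thr 12 8 (.thr 14 13 (.thr 38 55 (.thr 26 50 (.thr 31 16 (.dbl 63 42 47)))))) (.nv (.thr 5 10 (.thr 7 6 (.thr 37 53 (.thr 38 55 (.thr 52 22 (.dbl 36 20 39)))))) (.rp 55 (.thr 12 8 (.thr 5 10 (.thr 13 14 (.thr 37 53 (.thr 25 49 (.thr 17 29 (.dbl 51 34 38))))))) (.rp 38 (.thr 5 10 (.thr 7 6 (.thr 3 11 (.thr 37 53 (.thr 22 52 (.thr 20 23 (.dbl 60 40 41))))))) (.rp 5 (.thr 12 8 (.thr 38 55 (.thr 63 42 (.thr 31 47 (.thr 26 16 (.dbl 14 13 50)))))) .nd))))))) (.rp 42 (.str 38 (.nv (.thr 5 10 (.thr 4 55 (.thr 7 6 (.thr 37 53 (.thr 36 39 (.dbl 52 20 22)))))) (.nv (.thr 4 55 (.thr 12 8 (.thr 14 13 (.thr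 26 50 (.thr 16 31 (.dbl 48 32 37)))))) (.nv (.thr 5 10 (.thr 37 53 (.thr 39 36 (.thr 51 27 (.thr 17 34 (.dbl 25 12 29)))))) (.rp 37 (.thr 4 55 (.thr 12 8 (.thr 14 13 (.thr 25 51 (.thr 26 50 (.thr 24 27 (.thr 16 31 (.dbl 48 32 36)))))))) (.rp 26 (.thr 4 55 (.thr 12 8 (.thr 13 14 (.thr 25 51 (.thr 37 49 (.dbl 5 10 53)))))) (.rp 5 (.thr 4 55 (.thr 12 8 (.thr 13 14 (.thr 25 51 (.thr 37 49 (.thr 36 39 (.dbl 48 24 26))))))) .nd))))))) (.rp 37 (.str 4 (.nv (.thr 5 10 (.thr 6 7 (.thr 12 8 (.thr 38 55 (.thr 22 54 (.thr 23 20 (.thr 63 42 (.dbl 3 9 43)))))))) (.nv (.thr 5 10 (.thr 7 6 (.thr 55 38 (.thr 39 23 (.thr 51 27 (.dbl 63 42 59)))))) (.nv (.thr 12 8 (.thr 14 13 (.thr 38 55 (.thr 26 50 (.thr 31 16 (.dbl 63 42 47)))))) (.rp 63 (.thr 12 8 (.thr 14 13 (.thr 38 55 (.thr 26 50 (.thr 16 31 (.thr 48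 32 (.thr 24 36 (.dbl 25 27 51)))))))) (.rp 55 (.thr 12 8 (.thr 10 5 (.thr 42 63 (.thr 26 58 (.thr 16 31 (.thr 48 32 (.thr 24 36 (.thr 25 27 (.thr 17 29 (.dbl 51 34 38)))))))))) (.rp 42 (.thr 12 8 (.thr 14 13 (.thr 38 55 (.thr 26 50 (.thr 16 31 (.thr 25 51 (.thr 24 27 (.dbl 48 32 36)))))))) (.rp 38 (.thr 12 8 (.thr 10 5 (.thr 42 63 (.thr 26 58 (.thr 16 31 (.thr 48 32 (.thr 36 24 (.thr 20 52 (.thr 22 23 (.thr 30 18 (.dbl 60 40 45))))))))))) (.rp 5 (.thr 12 8 (.thr 13 14 (.thr 38 55 (.thr 25 51 (.thr 29 17 (.thr 45 61 (.thr 30 60 (.thr 31 28 (.dbl 63 42 47))))))))) .nd))))))))) (.rp 26 (.str 4 (.nv (.thr 5 10 (.thr 7 6 (.thr 55 38 (.thr 39 23 (.thr 51 27 (.dbl 63 42 59)))))) (.nv (.thr 12 8 (.thr 13 14 (.thr 38 55 (.thr 25 51 (.thr 37 49 (.dbl 5 10 53)))))) (.nv (.thr 5 10 (.thr 37 53 (.thr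 38 55 (.thr 36 39 (.thr 52 20 (.dbl 7 6 22)))))) (.rp 55 (.thr 12 8 (.thr 5 10 (.thr 13 14 (.thr 37 53 (.thr 25 49 (.thr 17 29 (.dbl 51 34 38))))))) (.rp 38 (.thr 5 10 (.thr 7 6 (.thr 3 11 (.thr 37 53 (.thr 22 52 (.thr 20 23 (.dbl 60 40 41))))))) (.rp 10 (.thr 12 8 (.thr 13 14 (.thr 38 55 (.thr 25 51 (.thr 29 17 (.thr 45 61 (.thr 30 60 (.thr 31 28 (.dbl 63 42 47))))))))) (.rp 5 (.thr 12 8 (.thr 13 14 (.thr 38 55 (.thr 25 51 (.thr 29 17 (.thr 45 61 (.thr 30 60 (.thr 31 28 (.dbl 63 42 47))))))))) .nd)))))))) (.rp 16 (.str 4 (.nv (.thr 5 10 (.thr 7 6 (.thr 12 8 (.thr 37 53 (.thr 48 26 (.thr 36 24 (.dbl 52 20 22))))))) (.nv (.thr 12 8 (.thr 14 13 (.thr 38 55 (.thr 26 50 (.thr 42 63 (.dbl 10 5 58)))))) (.nv (.thr 5 10 (.thr 7 6 (.thr 37 53 (.thr 38 55 (.thr 52 22 (.dbl 36 20 39)))))) (.rp 14 (.thr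 12 8 (.thr 5 10 (.thr 37 53 (.thr 48 26 (.thr 36 24 (.dbl 38 39 55)))))) (.rp 10 (.thr 12 8 (.thr 13 14 (.thr 38 55 (.thr 25 51 (.thr 37 49 (.thr 36 39 (.dbl 48 24 26))))))) (.rp 5 (.thr 12 8 (.thr 13 14 (.thr 38 55 (.thr 25 51 (.thr 37 49 (.thr 36 39 (.dbl 48 24 26))))))) .nd))))))) (.rp 10 (.str 12 (.nv (.thr 4 8 (.thr 14 13 (.thr 38 55 (.thr 26 50 (.thr 16 31 (.dbl 48 32 37)))))) (.nv (.thr 8 4 (.thr 42 63 (.thr 25 59 (.thr 51 38 (.dbl 17 29 34))))) (.rp 38 (.thr 8 4 (.thr 13 14 (.thr 42 63 (.thr 25 59 (.thr 37 49 (.thr 32 47 (.dbl 48 16 26))))))) (.rp 8 (.thr 14 13 (.thr 63 42 (.thr 31 47 (.thr 26 16 (.thr 38 50 (.thr 55 4 (.dbl 51 25 59))))))) (.rp 4 (.thr 13 14 (.thr 63 42 (.thr 31 47 (.thr 26 16 (.thr 37 48 (.thr 25 49 (.thr 17 29 (.dbl 51 34 38)))))))) .nd)))))) (.rp 5 (.str 13 (.nv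 (.thr 12 14 (.thr 4 8 (.thr 38 55 (.thr 25 51 (.thr 63 42 (.thr 31 47 (.thr 26 16 (.dbl 37 48 49)))))))) (.nv (.thr 63 42 (.thr 31 47 (.thr 26 16 (.thr 37 48 (.thr 25 49 (.thr 17 29 (.thr 27 24 (.dbl 51 34 39)))))))) (.nv (.thr 12 14 (.thr 8 4 (.thr 42 63 (.thr 25 59 (.thr 17 29 (.dbl 51 34 38)))))) (.rp 63 (.thr 12 14 (.thr 4 8 (.thr 38 55 (.thr 51 25 (.thr 39 27 (.thr 36 37 (.thr 24 48 (.thr 20 52 (.thr 28 16 (.dbl 60 40 44)))))))))) (.rp 51 (.thr 12 14 (.thr 4 8 (.thr 38 55 (.thr 63 42 (.thr 31 47 (.thr 26 16 (.thr 37 48 (.thr 36 39 (.thr 20 52 (.thr 23 22 (.thr 27 19 (.dbl 25 24 49)))))))))))) (.rp 42 (.thr 12 14 (.thr 4 8 (.thr 38 55 (.thr 25 51 (.thr 37 49 (.thr 36 39 (.dbl 48 24 26))))))) (.rp 38 (.thr 12 14 (.thr 8 4 (.thr 42 63 (.thr 25 59 (.thr 37 49 (.thr 32 47 (.dbl 48 16 26)))))))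 (.rp 25 (.thr 14 12 (.thr 63 42 (.thr 31 47 (.thr 26 16 (.thr 37 48 (.thr 38 50 (.thr 36 39 (.thr 4 55 (.thr 20 52 (.thr 60 40 (.thr 45 30 (.dbl 61 29 62)))))))))))) (.rp 12 (.str 17 (.nv (.thr 25 29 (.thr 63 42 (.thr 37 49 (.thr 26 48 (.dbl 31 16 47))))) (.nv (.thr 63 42 (.thr 31 47 (.thr 16 26 (.thr 19 18 (.thr 27 23 (.dbl 51 34 39)))))) (.nv (.thr 29 25 (.thr 45 61 (.thr 30 60 (.thr 63 42 (.dbl 31 28 47))))) (.nv (.thr 25 29 (.thr 63 42 (.thr 31 47 (.thr 37 49 (.dbl 26 16 48))))) (.rp 63 (.thr 29 25 (.thr 51 34 (.thr 39 27 (.thr 45 61 (.thr 60 30 (.thr 20 40 (.thr 22 23 (.thr 54 57 (.thr 38 6 (.thr 36 37 (.dbl 4 52 55))))))))))) (.rp 47 (.thr 25 29 (.thr 63 42 (.thr 37 49 (.thr 26 48 (.thr 24 27 (.thr 16 31 (.thr 19 18 (.dbl 28 20 22)))))))) (.rp 42 (.thr 29 25 (.thr 45 61 (.thr 60 30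 (.thr 20 40 (.thr 22 23 (.thr 41 3 (.thr 37 33 (.thr 48 26 (.dbl 52 7 56))))))))) (.rp 38 (.thr 25 29 (.thr 63 42 (.thr 34 51 (.thr 37 49 (.thr 31 47 (.dbl 26 16 48)))))) (.rp 34 (.thr 29 25 (.thr 45 61 (.thr 60 30 (.thr 20 40 (.thr 22 23 (.thr 41 3 (.thr 37 33 (.thr 48 26 (.dbl 52 7 56))))))))) (.rp 31 (.thr 29 25 (.thr 51 34 (.thr 39 27 (.thr 45 61 (.thr 60 30 (.thr 20 40 (.thr 23 22 (.thr 55 7 (.dbl 63 42 59))))))))) .nd))))))))))) .nd)))))))))) .nd))))))))))))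

theorem w132 : WinAt (2097153, 70368744177666) :=
  chF (K := []) kn c132 2097153 70368744177666 46
    [] (by decide +kernel) (by decide +kernel)

/-- A certificate. -/
noncomputable def c133 : Ct := (.str 25 (.nv (.thr 29 17 (.thr 63 42 (.thr 12 46 (.thr 38 51 (.dbl 4 8 55))))) (.nv (.thr 17 29 (.thr 51 34 (.thr 38 12 (.thr 63 42 (.dbl 55 4 59))))) (.nv (.thr 17 29 (.thr 51 34 (.thr 12 38 (.thr 8 4 (.dbl 42 59 63))))) (.rp 63 (.str 15 (.nv (.thr 17 29 (.thr 51 34 (.thr 27 39 (.thr 26 24 (.thr 16 31 (.dbl 48 32 37)))))) (.nv (.thr 5 10 (.thr 37 53 (.thr 13 49 (.thr 12 14 (.thr 4 8 (.dbl 38 51 55)))))) (.nv (.thr 5 10 (.thr 17 29 (.thr 37 53 (.thr 51 34 (.thr 39 27 (.dbl 38 12 36)))))) (.rp 51 (.thr 5 10 (.thr 37 53 (.thr 48 26 (.thr 13 49 (.thr 12 14 (.thr 4 8 (.thr 36 24 (.dbl 38 39 55))))))))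 (.rp 48 (.thr 5 10 (.thr 17 29 (.thr 51 34 (.thr 12 38 (.thr 13 14 (.dbl 37 49 53)))))) (.rp 37 (.thr 10 5 (.thr 17 29 (.thr 51 34 (.thr 12 38 (.thr 8 4 (.thr 14 13 (.thr 9 11 (.dbl 6 2 3)))))))) (.rp 17 (.thr 5 10 (.thr 37 53 (.thr 48 26 (.thr 49 13 (.thr 51 50 (.thr 38 12 (.dbl 39 27 36))))))) (.rp 12 (.thr 5 10 (.thr 37 53 (.thr 48 26 (.thr 49 13 (.thr 51 50 (.dbl 17 29 34)))))) .nd))))))))) (.rp 51 (.str 37 (.nv (.thr 5 53 (.thr 13 49 (.thr 15 10 (.thr 12 14 (.thr 8 4 (.dbl 42 59 63)))))) (.nv (.thr 53 5 (.thr 63 42 (.thr 48 58 (.thr 16 32 (.dbl 26 15 31))))) (.rp 63 (.thr 5 53 (.thr 13 49 (.thr 15 10 (.thr 12 14 (.thr 4 8 (.thr 48 26 (.thr 36 24 (.dbl 38 39 55)))))))) (.rp 53 (.thr 29 17 (.thr 63 42 (.thr 12 46 (.thr 4 8 (.thr 38 55 (.thr 36 39 (.thr 48 24 (.thr 16 32 (.dbl 26 15 31)))))))))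 (.rp 48 (.thr 5 53 (.thr 29 17 (.thr 15 10 (.thr 63 42 (.thr 12 46 (.dbl 13 14 49)))))) (.rp 42 (.thr 5 53 (.thr 17 29 (.thr 15 10 (.thr 26 48 (.thr 16 31 (.thr 19 18 (.thr 28 22 (.dbl 24 20 27)))))))) (.rp 15 (.thr 53 5 (.thr 29 17 (.thr 63 42 (.thr 12 46 (.thr 4 8 (.thr 38 55 (.thr 48 58 (.dbl 36 24 39)))))))) (.rp 13 (.thr 5 53 (.thr 17 29 (.thr 15 10 (.thr 26 48 (.thr 16 31 (.thr 19 18 (.thr 28 22 (.dbl 24 20 27)))))))) (.rp 10 (.thr 53 5 (.thr 63 42 (.thr 48 58 (.thr 26 15 (.dbl 16 31 32))))) (.rp 5 (.thr 29 17 (.thr 63 42 (.thr 12 46 (.thr 4 8 (.thr 38 55 (.thr 36 39 (.thr 48 24 (.thr 16 32 (.dbl 26 15 31))))))))) .nd))))))))))) (.rp 42 (.str 37 (.nv (.thr 5 53 (.thr 13 49 (.thr 15 10 (.thr 12 14 (.thr 4 8 (.dbl 38 51 55)))))) (.nv (.thr 17 29 (.thr 49 13 (.thr 51 34 (.thr 48 50 (.thr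 16 32 (.dbl 26 15 31)))))) (.nv (.thr 5 53 (.thr 15 10 (.thr 17 29 (.thr 51 34 (.thr 39 27 (.dbl 38 12 36)))))) (.rp 51 (.thr 5 53 (.thr 17 29 (.thr 15 10 (.thr 26 48 (.thr 16 31 (.thr 19 18 (.thr 28 22 (.dbl 24 20 27)))))))) (.rp 38 (.thr 5 53 (.thr 17 29 (.thr 15 10 (.thr 26 48 (.thr 27 24 (.dbl 51 34 39)))))) (.rp 26 (.thr 5 53 (.thr 17 29 (.thr 51 34 (.thr 38 12 (.thr 39 36 (.dbl 15 10 27)))))) (.rp 17 (.thr 5 53 (.thr 15 10 (.thr 26 48 (.thr 27 24 (.thr 51 39 (.thr 12 38 (.dbl 13 14 49))))))) (.rp 15 (.thr 5 53 (.thr 17 29 (.thr 51 34 (.thr 38 12 (.thr 4 55 (.thr 7 6 (.thr 52 22 (.dbl 36 20 39)))))))) (.rp 5 (.thr 17 29 (.thr 51 34 (.thr 38 12 (.thr 39 36 (.thr 15 27 (.thr 48 26 (.dbl 49 13 50))))))) .nd)))))))))) (.rp 38 (.str 13 (.nv (.thr 37 49 (.thr 5 53 (.thr 15 10 (.thr 42 63 (.thr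 8 59 (.dbl 12 4 14)))))) (.nv (.thr 42 63 (.thr 8 59 (.thr 12 4 (.thr 15 14 (.thr 5 10 (.dbl 37 49 53)))))) (.nv (.thr 37 49 (.thr 53 5 (.thr 63 42 (.thr 48 58 (.thr 26 15 (.dbl 16 31 32)))))) (.rp 63 (.thr 17 29 (.thr 37 49 (.thr 5 53 (.thr 15 10 (.thr 51 34 (.thr 27 39 (.dbl 26 24 48))))))) (.rp 53 (.thr 37 49 (.thr 42 63 (.thr 8 59 (.thr 12 4 (.thr 15 14 (.thr 10 5 (.dbl 26 48 58))))))) (.rp 49 (.thr 42 63 (.thr 8 59 (.thr 12 4 (.thr 15 14 (.thr 10 5 (.thr 26 58 (.thr 16 31 (.dbl 48 32 37)))))))) (.rp 42 (.thr 17 29 (.thr 37 49 (.thr 5 53 (.thr 15 10 (.thr 26 48 (.thr 27 24 (.dbl 51 34 39))))))) (.rp 37 (.thr 17 29 (.thr 51 34 (.thr 42 63 (.thr 8 59 (.thr 12 4 (.thr 15 14 (.thr 10 5 (.thr 26 58 (.dbl 27 24 39))))))))) (.rp 15 (.thr 29 17 (.thr 61 45 (.thr 63 42 (.thr 60 62 (.thr 20 40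 (.thr 22 23 (.thr 28 19 (.dbl 12 44 46)))))))) (.rp 5 (.thr 29 17 (.thr 61 45 (.thr 63 42 (.thr 60 62 (.thr 20 40 (.thr 22 23 (.thr 28 19 (.dbl 12 44 46)))))))) .nd))))))))))) (.rp 29 (.str 13 (.nv (.thr 42 63 (.thr 8 59 (.thr 12 4 (.thr 15 14 (.thr 5 10 (.dbl 37 49 53)))))) (.nv (.thr 37 49 (.thr 5 53 (.thr 15 10 (.thr 12 14 (.thr 4 8 (.dbl 38 51 55)))))) (.nv (.thr 37 49 (.thr 53 5 (.thr 63 42 (.thr 48 58 (.thr 26 15 (.dbl 16 31 32)))))) (.rp 53 (.thr 37 49 (.thr 42 63 (.thr 8 59 (.thr 12 4 (.thr 15 14 (.thr 10 5 (.dbl 26 48 58))))))) (.rp 49 (.thr 42 63 (.thr 8 59 (.thr 12 4 (.thr 15 14 (.thr 10 5 (.thr 51 38 (.thr 27 39 (.dbl 26 24 58)))))))) (.rp 37 (.thr 42 63 (.thr 8 59 (.thr 12 4 (.thr 15 14 (.thr 10 5 (.thr 51 38 (.thr 26 58 (.dbl 27 24 39)))))))) (.rp 15 (.thr 37 49 (.thr 53 5 (.thr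 63 42 (.thr 48 58 (.thr 16 32 (.thr 26 31 (.thr 24 27 (.thr 12 36 (.thr 4 8 (.dbl 38 51 55)))))))))) (.rp 5 (.thr 37 49 (.thr 42 63 (.thr 8 59 (.thr 12 4 (.thr 15 14 (.thr 48 26 (.thr 36 24 (.dbl 38 39 51)))))))) .nd))))))))) (.rp 17 (.str 49 (.nv (.thr 42 63 (.thr 8 59 (.thr 12 4 (.thr 51 38 (.thr 48 50 (.thr 16 32 (.thr 24 36 (.dbl 26 27 31)))))))) (.nv (.thr 37 13 (.thr 42 63 (.thr 8 59 (.thr 12 4 (.thr 51 38 (.thr 48 50 (.thr 16 32 (.dbl 26 15 31)))))))) (.nv (.thr 37 13 (.thr 5 53 (.thr 15 10 (.thr 48 26 (.thr 51 50 (.thr 38 12 (.dbl 39 27 36))))))) (.rp 51 (.thr 37 13 (.thr 5 53 (.thr 15 10 (.thr 26 48 (.thr 16 31 (.thr 24 27 (.thr 20 28 (.thr 60 40 (.thr 30 45 (.dbl 22 18 23)))))))))) (.rp 50 (.thr 13 37 (.thr 42 63 (.thr 8 59 (.thr 12 4 (.thr 15 14 (.thr 10 5 (.thr 51 38 (.thr 26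 58 (.dbl 27 24 39))))))))) (.rp 48 (.thr 13 37 (.thr 42 63 (.thr 8 59 (.thr 12 4 (.thr 15 14 (.thr 10 5 (.thr 9 11 (.thr 57 41 (.thr 53 61 (.thr 51 38 (.thr 26 58 (.dbl 27 24 39)))))))))))) (.rp 42 (.thr 37 13 (.thr 5 53 (.thr 15 10 (.thr 26 48 (.thr 16 31 (.thr 24 27 (.thr 20 28 (.thr 60 40 (.thr 30 45 (.dbl 22 18 23)))))))))) (.rp 38 (.thr 13 37 (.thr 42 63 (.thr 8 59 (.thr 12 4 (.thr 15 14 (.thr 10 5 (.thr 11 9 (.thr 26 58 (.thr 24 27 (.dbl 56 40 41)))))))))) (.rp 37 (.thr 42 63 (.thr 8 59 (.thr 12 4 (.thr 51 38 (.thr 48 50 (.thr 36 24 (.thr 32 16 (.thr 40 44 (.thr 41 43 (.thr 57 9 (.dbl 60 20 54))))))))))) (.rp 26 (.thr 37 13 (.thr 5 53 (.thr 42 63 (.thr 8 59 (.thr 4 12 (.thr 7 6 (.thr 52 22 (.thr 36 20 (.dbl 38 39 55))))))))) (.rp 15 (.thr 37 13 (.thr 5 53 (.thr 63 42 (.str 12 (.nv (.thr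 4 8 (.dbl 38 51 55)) (.rp 55 (.thr 4 8 (.thr 38 51 (.thr 7 6 (.thr 52 22 (.dbl 36 20 39))))) (.rp 51 (.thr 4 8 (.thr 55 38 (.thr 7 6 (.thr 22 52 (.dbl 23 20 39))))) (.rp 38 (.thr 4 8 (.thr 7 6 (.thr 22 52 (.thr 28 19 (.thr 60 44 (.dbl 20 23 40)))))) (.rp 8 (.thr 51 38 (.thr 48 50 (.thr 16 32 (.thr 24 36 (.dbl 26 27 31))))) (.rp 4 (.thr 51 38 (.thr 48 50 (.thr 16 32 (.thr 24 36 (.dbl 26 27 31))))) .nd)))))))))) (.rp 12 (.thr 37 13 (.thr 5 53 (.thr 15 10 (.thr 48 26 (.thr 51 50 (.thr 39 27 (.thr 38 36 (.thr 55 4 (.dbl 63 42 59))))))))) .nd))))))))))))) (.rp 12 (.str 5 (.nv (.thr 15 10 (.thr 37 53 (.thr 48 26 (.thr 49 13 (.thr 51 50 (.dbl 17 29 34)))))) (.nv (.thr 15 10 (.thr 17 29 (.thr 37 53 (.thr 26 48 (.thr 16 31 (.thr 19 18 (.thr 24 27 (.dbl 28 20 22)))))))) (.nv (.thr 17 29 (.thr 37 53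 (.thr 49 13 (.thr 15 10 (.thr 51 34 (.dbl 48 26 50)))))) (.rp 53 (.thr 17 29 (.thr 15 10 (.thr 51 34 (.thr 27 39 (.thr 26 24 (.thr 16 31 (.dbl 48 32 37))))))) (.rp 48 (.thr 17 29 (.thr 37 53 (.thr 15 10 (.thr 51 34 (.thr 39 27 (.thr 63 42 (.thr 55 59 (.dbl 38 4 36)))))))) (.rp 37 (.thr 17 29 (.thr 15 10 (.thr 51 34 (.thr 27 39 (.thr 26 24 (.thr 16 31 (.thr 18 19 (.thr 30 22 (.thr 60 45 (.thr 40 20 (.thr 57 54 (.thr 41 9 (.dbl 42 43 63))))))))))))) (.rp 29 (.thr 37 53 (.thr 49 13 (.thr 15 10 (.thr 48 26 (.thr 51 50 (.thr 39 27 (.thr 38 36 (.thr 55 4 (.dbl 63 42 59))))))))) (.rp 26 (.thr 17 29 (.thr 37 53 (.thr 15 10 (.thr 51 34 (.thr 39 27 (.thr 38 36 (.thr 55 4 (.dbl 63 42 59)))))))) (.rp 17 (.thr 37 53 (.thr 49 13 (.thr 15 10 (.thr 48 26 (.thr 51 50 (.thr 39 27 (.thr 38 36 (.thr 55 4 (.dbl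 63 42 59))))))))) (.rp 15 (.thr 17 29 (.thr 37 53 (.thr 51 34 (.thr 63 42 (.thr 55 59 (.thr 38 4 (.thr 39 36 (.thr 23 7 (.thr 3 43 (.thr 19 35 (.dbl 22 20 28))))))))))) (.rp 10 (.thr 17 29 (.thr 37 53 (.thr 49 13 (.thr 51 34 (.thr 48 50 (.thr 16 32 (.dbl 26 15 31))))))) .nd)))))))))))) (.rp 4 (.str 5 (.nv (.thr 15 10 (.thr 17 29 (.thr 51 34 (.thr 27 39 (.thr 26 24 (.thr 16 31 (.dbl 48 32 37))))))) (.nv (.thr 15 10 (.thr 37 53 (.thr 13 49 (.thr 12 14 (.thr 63 42 (.dbl 29 17 46)))))) (.nv (.thr 15 10 (.thr 17 29 (.thr 37 53 (.thr 51 34 (.thr 39 27 (.dbl 38 12 36)))))) (.rp 37 (.thr 17 29 (.thr 15 10 (.thr 51 34 (.thr 27 39 (.thr 26 24 (.thr 16 31 (.thr 38 12 (.thr 50 14 (.dbl 48 32 49))))))))) (.rp 29 (.thr 37 53 (.thr 13 49 (.thr 15 10 (.thr 48 26 (.thr 12 14 (.thr 36 24 (.dbl 38 39 51)))))))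 (.rp 17 (.thr 37 53 (.thr 49 13 (.thr 15 10 (.thr 48 26 (.thr 51 50 (.thr 39 27 (.dbl 38 12 36))))))) (.rp 15 (.thr 17 29 (.thr 37 53 (.thr 49 13 (.thr 51 34 (.thr 48 50 (.thr 16 32 (.thr 12 38 (.thr 24 36 (.dbl 26 27 31))))))))) (.rp 10 (.thr 17 29 (.thr 37 53 (.thr 49 13 (.thr 51 34 (.thr 48 50 (.thr 16 32 (.dbl 26 15 31))))))) .nd))))))))) .nd))))))))))))

theorem w133 : WinAt (2097153, 140737488355330) :=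
  chF (K := []) kn c133 2097153 140737488355330 47
    [] (by decide +kernel) (by decide +kernel)

/-- A certificate. -/
noncomputable def c134 : Ct := (.str 29 (.nv (.thr 25 17 (.thr 12 46 (.thr 38 51 (.dbl 4 8 55)))) (.nv (.thr 12 46 (.thr 4 8 (.thr 38 55 (.dbl 25 17 51)))) (.rp 55 (.str 45 (.nv (.thr 12 46 (.thr 13 61 (.thr 15 14 (.thr 5 10 (.thr 25 17 (.dbl 37 49 53)))))) (.nv (.thr 46 12 (.thr 47 44 (.thr 15 31 (.thr 60 30 (.dbl 61 13 62))))) (.rp 62 (.thr 13 61 (.thr 12 46 (.thr 15 14 (.thr 30 60 (.dbl 31 28 47))))) (.rp 61 (.thr 25 17 (.thr 46 12 (.thr 47 44 (.thr 31 15 (.thr 26 16 (.thr 28 30 (.thr 19 22 (.dbl 27 23 24)))))))) (.rp 46 (.thr 61 13 (.thr 25 17 (.thr 60 62 (.thr 20 40 (.thr 30 15 (.thr 28 31 (.dbl 22 19 23))))))) (.rp 30 (.thr 61 13 (.thr 25 17 (.thr 60 62 (.thr 20 40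 (.thr 22 23 (.thr 28 19 (.dbl 12 44 46))))))) (.rp 15 (.thr 61 13 (.thr 25 17 (.thr 12 46 (.thr 60 62 (.thr 28 44 (.thr 20 40 (.dbl 22 19 23))))))) (.rp 13 (.thr 46 12 (.thr 47 44 (.thr 15 31 (.thr 5 10 (.thr 37 53 (.thr 41 33 (.thr 60 30 (.thr 20 40 (.dbl 22 3 23))))))))) (.rp 12 (.thr 61 13 (.thr 25 17 (.thr 60 62 (.thr 20 40 (.thr 22 23 (.thr 28 19 (.dbl 30 15 31))))))) .nd)))))))))) (.rp 51 (.thr 25 17 (.str 49 (.nv (.thr 13 37 (.thr 45 61 (.thr 12 46 (.thr 15 14 (.thr 30 60 (.dbl 31 28 47)))))) (.nv (.thr 13 37 (.thr 61 45 (.thr 57 53 (.thr 41 9 (.thr 60 62 (.thr 20 40 (.dbl 22 3 23))))))) (.nv (.thr 12 46 (.thr 4 8 (.thr 37 13 (.thr 5 53 (.thr 7 6 (.thr 38 55 (.thr 52 22 (.dbl 36 20 39)))))))) (.rp 37 (.thr 12 46 (.thr 4 8 (.thr 38 55 (.str 26 (.nv (.thr 27 24 (.thr 31 16 (.thr 19 23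 (.dbl 28 22 30)))) (.nv (.thr 31 16 (.thr 14 50 (.dbl 15 13 47))) (.rp 47 (.str 32 (.nv (.thr 31 16 (.thr 28 30 (.thr 19 22 (.dbl 27 23 24)))) (.nv (.thr 16 31 (.thr 24 27 (.thr 20 28 (.thr 40 60 (.dbl 36 44 52))))) (.nv (.thr 31 16 (.thr 28 30 (.thr 27 24 (.dbl 19 22 23)))) (.rp 45 (.str 44 (.nv (.thr 41 35 (.thr 28 60 (.dbl 31 16 30))) (.nv (.thr 40 36 (.dbl 60 20 28)) (.rp 60 (.thr 36 40 (.thr 16 31 (.thr 24 27 (.dbl 20 28 52)))) (.rp 41 (.str 33 (.nv (.thr 31 16 (.dbl 28 30 60)) (.nv (.thr 40 36 (.dbl 60 20 28)) (.rp 60 (.thr 16 31 (.thr 24 27 (.thr 20 28 (.dbl 36 40 52)))) (.rp 40 (.str 43 (.nv (.thr 24 27 (.thr 23 3 (.thr 22 20 (.dbl 28 19 60)))) (.nv (.thr 31 16 (.dbl 28 30 60)) (.rp 60 (.thr 24 27 (.thr 16 31 (.thr 20 28 (.dbl 23 3 22)))) (.rp 28 (.thr 31 16 (.thr 23 3 (.dbl 27 19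 24))) (.rp 24 (.str 56 (.nv (.thr 23 3 (.thr 22 20 (.dbl 28 19 60))) (.nv (.thr 31 16 (.dbl 28 30 60)) (.rp 60 (.thr 31 16 (.thr 23 3 (.thr 22 20 (.dbl 28 19 30)))) (.rp 28 (.thr 14 50 (.thr 3 23 (.thr 6 9 (.thr 10 2 (.dbl 5 7 15))))) (.rp 19 (.thr 28 60 (.dbl 31 16 30)) .nd)))))) (.rp 19 (.thr 28 60 (.dbl 31 16 30)) .nd))))))) (.rp 28 (.thr 40 36 (.thr 20 60 (.thr 31 16 (.thr 27 24 (.dbl 23 19 22))))) .nd)))))) (.rp 28 (.thr 40 36 (.thr 60 20 (.thr 61 62 (.thr 57 53 (.dbl 41 9 35))))) .nd)))))) (.rp 44 (.str 45 (.nv (.thr 27 24 (.thr 31 16 (.thr 19 23 (.dbl 28 22 30)))) (.nv (.thr 14 50 (.dbl 13 15 61)) .nd))) (.rp 31 (.thr 14 50 (.thr 15 13 (.thr 5 10 (.thr 6 7 (.thr 22 54 (.thr 23 20 (.dbl 3 9 43))))))) (.rp 28 (.thr 14 50 (.thr 15 13 (.thr 5 10 (.thr 6 7 (.thr 22 54 (.thr 23 20 (.dbl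 3 9 43))))))) (.rp 27 (.thr 14 50 (.thr 31 16 (.thr 28 30 (.thr 15 13 (.thr 5 10 (.thr 6 7 (.dbl 22 19 54))))))) (.rp 24 (.thr 14 50 (.thr 31 16 (.thr 28 30 (.thr 15 13 (.thr 5 10 (.thr 6 7 (.dbl 22 19 54))))))) (.rp 23 (.thr 14 50 (.thr 31 16 (.thr 28 30 (.thr 44 60 (.thr 41 35 (.thr 57 9 (.thr 61 53 (.dbl 13 15 45)))))))) (.rp 19 (.thr 14 50 (.thr 15 13 (.thr 5 10 (.thr 6 7 (.thr 22 54 (.thr 23 20 (.dbl 3 9 43))))))) (.rp 16 (.thr 14 50 (.thr 15 13 (.thr 5 10 (.thr 6 7 (.thr 22 54 (.thr 23 20 (.dbl 3 9 43))))))) .nd))))))))))))) (.rp 32 (.str 47 (.nv (.dbl 31 15 16) (.rp 31 (.thr 14 50 (.thr 13 15 (.thr 61 45 (.thr 57 53 (.thr 41 9 (.thr 60 62 (.dbl 44 28 35))))))) (.rp 16 (.thr 14 50 (.dbl 15 13 31)) (.rp 15 (.thr 31 16 (.thr 28 30 (.thr 27 24 (.dbl 19 22 23)))) .nd))))) (.rp 31 (.thr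 14 50 (.thr 15 13 (.thr 5 10 (.thr 6 7 (.thr 22 54 (.thr 23 20 (.dbl 3 9 43))))))) (.rp 19 (.thr 14 50 (.thr 15 13 (.dbl 31 16 47))) (.rp 16 (.thr 14 50 (.thr 15 13 (.thr 5 10 (.thr 6 7 (.thr 22 54 (.thr 23 20 (.dbl 3 9 43))))))) .nd))))))))))) (.rp 13 (.str 5 (.nv (.thr 10 15 (.thr 12 46 (.thr 8 4 (.thr 9 11 (.thr 57 41 (.dbl 53 37 61)))))) (.nv (.thr 12 46 (.thr 4 8 (.thr 6 7 (.thr 38 55 (.thr 22 54 (.thr 23 20 (.dbl 3 9 43))))))) (.nv (.thr 15 10 (.thr 31 47 (.thr 28 30 (.thr 19 22 (.thr 26 16 (.dbl 27 23 24)))))) .nd)))) .nd))))))) (.rp 46 (.str 31 (.nv (.thr 15 47 (.thr 16 26 (.thr 17 25 (.thr 19 18 (.thr 27 23 (.dbl 51 34 39)))))) (.nv (.thr 15 47 (.thr 5 10 (.thr 30 28 (.thr 37 53 (.thr 45 60 (.thr 13 61 (.dbl 25 17 49))))))) (.nv (.thr 26 16 (.thr 28 30 (.thr 25 17 (.thr 19 22 (.dbl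 27 23 24))))) (.rp 38 (.str 34 (.nv (.dbl 17 25 51) (.rp 51 (.thr 28 30 (.thr 16 26 (.thr 20 24 (.thr 22 23 (.dbl 25 17 19))))) (.rp 25 (.thr 15 47 (.thr 30 28 (.thr 26 16 (.thr 22 18 (.thr 20 23 (.dbl 60 40 45)))))) (.rp 17 (.thr 15 47 (.thr 30 28 (.thr 45 60 (.thr 13 61 (.thr 10 5 (.thr 26 16 (.thr 18 22 (.thr 2 50 (.dbl 14 6 12))))))))) .nd))))) (.rp 34 (.str 38 (.nv (.thr 4 55 (.thr 12 8 (.thr 15 47 (.thr 14 13 (.dbl 26 16 50))))) (.nv (.thr 15 47 (.thr 25 17 (.thr 12 51 (.thr 14 13 (.dbl 26 16 50))))) (.nv (.thr 4 55 (.thr 12 8 (.dbl 25 17 51))) (.rp 25 (.thr 4 55 (.thr 15 47 (.thr 26 16 (.thr 14 50 (.dbl 12 8 13))))) (.rp 12 (.thr 28 30 (.thr 16 26 (.thr 25 17 (.thr 22 19 (.dbl 20 23 24))))) .nd)))))) (.rp 30 (.thr 26 16 (.thr 25 17 (.thr 27 24 (.thr 15 47 (.thr 51 39 (.thr 55 59 (.dbl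 38 4 12))))))) (.rp 26 (.thr 30 28 (.thr 25 17 (.thr 15 47 (.thr 45 60 (.thr 13 61 (.thr 12 14 (.thr 4 8 (.dbl 38 51 55)))))))) (.rp 25 (.thr 30 28 (.thr 26 16 (.thr 22 18 (.thr 20 23 (.thr 60 40 (.dbl 15 45 47)))))) (.rp 17 (.thr 28 30 (.thr 16 26 (.thr 20 24 (.thr 22 23 (.thr 25 19 (.thr 60 40 (.thr 12 44 (.thr 38 51 (.dbl 4 8 55))))))))) .nd)))))))))) (.rp 38 (.str 45 (.nv (.thr 25 17 (.thr 61 13 (.thr 60 62 (.thr 20 40 (.thr 22 23 (.thr 28 19 (.dbl 30 15 31))))))) (.nv (.thr 46 12 (.thr 13 61 (.thr 25 17 (.thr 47 44 (.thr 15 31 (.thr 5 10 (.dbl 37 49 53))))))) (.nv (.thr 61 13 (.thr 60 62 (.thr 15 30 (.thr 47 31 (.dbl 46 12 44))))) (.rp 61 (.thr 25 17 (.thr 46 12 (.thr 47 44 (.thr 31 15 (.thr 26 16 (.thr 28 30 (.thr 19 22 (.dbl 27 23 24)))))))) (.rp 60 (.thr 13 61 (.thr 17 25 (.thr 12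 46 (.thr 34 51 (.thr 15 14 (.thr 47 31 (.thr 5 10 (.thr 37 53 (.thr 33 41 (.thr 35 32 (.thr 43 39 (.thr 3 23 (.thr 7 11 (.dbl 4 6 8)))))))))))))) (.rp 46 (.str 34 (.nv (.dbl 17 25 51) (.rp 51 (.thr 61 13 (.thr 60 62 (.thr 30 15 (.thr 28 31 (.thr 20 40 (.thr 22 23 (.dbl 25 17 19))))))) (.rp 25 (.thr 61 13 (.thr 60 62 (.thr 30 15 (.thr 31 28 (.thr 20 40 (.thr 22 23 (.dbl 26 16 18))))))) (.rp 17 (.thr 61 13 (.thr 60 62 (.thr 30 15 (.thr 31 28 (.thr 20 40 (.thr 22 23 (.dbl 26 16 18))))))) .nd))))) (.rp 31 (.thr 61 13 (.thr 60 62 (.thr 20 40 (.thr 15 30 (.thr 5 10 (.thr 37 53 (.thr 41 33 (.dbl 22 3 23)))))))) (.rp 15 (.thr 61 13 (.thr 25 17 (.thr 60 62 (.thr 20 40 (.thr 22 23 (.thr 28 19 (.dbl 12 44 46))))))) (.rp 13 (.thr 46 12 (.thr 47 44 (.thr 15 31 (.thr 5 10 (.thr 37 53 (.thr 41 33 (.thr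 60 30 (.thr 20 40 (.dbl 22 3 23))))))))) (.rp 5 (.thr 46 12 (.thr 47 44 (.thr 15 31 (.thr 60 30 (.dbl 61 13 62))))) .nd))))))))))) (.rp 25 (.str 45 (.nv (.thr 12 46 (.thr 61 13 (.thr 60 62 (.thr 30 15 (.dbl 28 31 44))))) (.nv (.thr 61 13 (.thr 60 62 (.thr 15 30 (.thr 47 31 (.dbl 46 12 44))))) (.nv (.thr 13 61 (.thr 12 46 (.thr 15 14 (.thr 30 60 (.dbl 31 28 47))))) (.rp 61 (.thr 46 12 (.thr 47 44 (.thr 15 31 (.thr 5 10 (.thr 37 53 (.thr 41 33 (.thr 60 30 (.thr 20 40 (.dbl 22 3 23))))))))) (.rp 60 (.thr 13 61 (.thr 12 46 (.thr 15 14 (.thr 31 47 (.thr 5 10 (.thr 37 53 (.thr 26 16 (.thr 30 28 (.thr 22 18 (.thr 52 7 (.thr 20 23 (.dbl 4 8 36)))))))))))) (.rp 59 (.str 8 (.nv (.dbl 12 4 46) (.rp 46 (.thr 61 13 (.thr 12 4 (.thr 60 62 (.thr 28 44 (.dbl 30 15 31))))) (.rp 12 (.thr 61 13 (.thr 60 62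 (.thr 20 40 (.thr 15 30 (.thr 5 10 (.thr 37 53 (.thr 41 33 (.dbl 22 3 23)))))))) (.rp 4 (.thr 61 13 (.thr 12 46 (.thr 60 62 (.thr 28 44 (.dbl 30 15 31))))) .nd))))) (.rp 46 (.thr 61 13 (.thr 60 62 (.thr 20 40 (.thr 30 15 (.thr 31 28 (.thr 26 16 (.dbl 22 18 23))))))) (.rp 31 (.thr 61 13 (.thr 60 62 (.thr 20 40 (.thr 15 30 (.thr 5 10 (.thr 37 53 (.thr 41 33 (.dbl 22 3 23)))))))) (.rp 30 (.thr 61 13 (.thr 46 12 (.thr 47 44 (.thr 15 31 (.thr 5 10 (.thr 37 53 (.thr 41 33 (.thr 60 62 (.thr 20 40 (.dbl 22 3 23)))))))))) (.rp 15 (.thr 61 13 (.thr 12 46 (.thr 60 62 (.thr 28 44 (.thr 20 40 (.thr 16 24 (.dbl 31 26 30))))))) (.rp 13 (.thr 46 12 (.thr 47 44 (.thr 15 31 (.thr 5 10 (.thr 37 53 (.thr 41 33 (.thr 60 30 (.thr 20 40 (.dbl 22 3 23))))))))) (.rp 12 (.thr 61 13 (.thr 60 62 (.thr 20 40 (.thr 15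 30 (.thr 5 10 (.thr 37 53 (.thr 41 33 (.dbl 22 3 23)))))))) (.rp 8 (.str 59 (.nv (.thr 51 55 (.thr 61 13 (.thr 60 62 (.thr 15 30 (.thr 46 12 (.dbl 47 31 44)))))) (.nv (.thr 13 61 (.thr 12 46 (.thr 15 14 (.thr 30 60 (.dbl 31 28 47))))) (.rp 61 (.thr 51 55 (.thr 46 12 (.thr 47 44 (.thr 15 31 (.thr 27 39 (.thr 43 11 (.thr 23 3 (.thr 60 30 (.dbl 20 22 40))))))))) (.rp 60 (.thr 13 61 (.thr 51 55 (.thr 12 46 (.thr 15 14 (.thr 31 47 (.thr 27 39 (.thr 43 11 (.dbl 23 3 19)))))))) (.rp 47 (.thr 61 13 (.thr 12 46 (.thr 60 62 (.thr 28 44 (.dbl 30 15 31))))) (.rp 46 (.thr 61 13 (.thr 60 62 (.thr 20 40 (.thr 30 15 (.thr 31 28 (.thr 26 16 (.dbl 22 18 23))))))) (.rp 31 (.thr 61 13 (.thr 51 55 (.thr 60 62 (.thr 15 30 (.thr 5 10 (.thr 57 54 (.dbl 53 37 49))))))) (.rp 30 (.thr 61 13 (.thr 51 55 (.thr 46 12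 (.thr 47 44 (.thr 15 31 (.thr 5 10 (.thr 60 62 (.thr 57 54 (.dbl 53 37 49))))))))) (.rp 15 (.thr 61 13 (.thr 51 55 (.thr 60 62 (.thr 20 40 (.thr 57 54 (.thr 22 23 (.thr 41 3 (.thr 53 49 (.dbl 37 5 33))))))))) (.rp 13 (.thr 51 55 (.thr 46 12 (.thr 47 44 (.thr 15 31 (.thr 27 39 (.thr 43 11 (.thr 23 3 (.thr 60 30 (.dbl 20 22 40))))))))) (.rp 12 (.thr 61 13 (.thr 51 55 (.thr 60 62 (.thr 15 30 (.thr 5 10 (.thr 57 54 (.dbl 53 37 49))))))) .nd)))))))))))) .nd)))))))))))))) (.rp 17 (.str 22 (.nv (.thr 12 46 (.thr 4 8 (.thr 20 23 (.thr 38 55 (.thr 6 54 (.thr 7 5 (.dbl 52 36 37))))))) (.nv (.thr 20 23 (.thr 46 12 (.thr 60 40 (.thr 62 61 (.thr 30 14 (.thr 15 45 (.dbl 31 28 47))))))) (.nv (.thr 23 20 (.thr 12 46 (.thr 3 43 (.thr 6 9 (.thr 38 54 (.dbl 4 8 55)))))) (.rp 49 (.str 33 (.nv (.thr 12 46 (.thr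 4 8 (.thr 23 20 (.thr 38 55 (.thr 6 54 (.dbl 3 9 43)))))) (.nv (.thr 20 23 (.thr 60 40 (.thr 41 3 (.thr 61 62 (.dbl 45 13 37))))) (.rp 51 (.str 50 (.nv (.thr 12 46 (.thr 4 8 (.thr 38 55 (.thr 26 14 (.thr 30 18 (.dbl 31 16 28)))))) (.nv (.thr 20 23 (.thr 60 40 (.thr 41 3 (.thr 61 62 (.dbl 45 13 37))))) (.rp 19 (.thr 20 23 (.thr 60 40 (.thr 61 62 (.thr 45 13 (.dbl 41 3 37))))) .nd)))) (.rp 50 (.str 51 (.nv (.thr 20 23 (.thr 60 40 (.thr 41 3 (.thr 61 62 (.dbl 45 13 37))))) (.nv (.thr 55 59 (.thr 38 4 (.dbl 12 25 46))) .nd))) (.rp 23 (.thr 12 46 (.thr 4 8 (.thr 38 55 (.thr 6 54 (.thr 3 9 (.thr 60 41 (.thr 28 44 (.dbl 25 19 51)))))))) (.rp 20 (.thr 12 46 (.thr 4 8 (.thr 38 55 (.thr 6 54 (.thr 5 7 (.thr 3 9 (.thr 41 60 (.dbl 37 45 53)))))))) (.rp 3 (.thr 20 23 (.thr 12 46 (.thr 60 40 (.thr 28 44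 (.thr 31 30 (.dbl 16 24 26)))))) .nd)))))))) (.rp 46 (.thr 20 23 (.thr 60 40 (.thr 61 62 (.thr 45 13 (.thr 30 15 (.thr 31 28 (.dbl 26 16 18))))))) (.rp 33 (.str 49 (.nv (.thr 12 46 (.thr 4 8 (.thr 38 55 (.thr 6 54 (.thr 7 5 (.thr 25 51 (.dbl 37 13 52))))))) (.nv (.thr 12 46 (.thr 4 8 (.thr 20 23 (.thr 38 55 (.thr 25 51 (.thr 28 19 (.thr 16 24 (.dbl 31 26 30)))))))) (.nv (.thr 20 23 (.thr 60 40 (.thr 61 62 (.thr 53 57 (.thr 13 45 (.dbl 37 5 25)))))) (.rp 25 (.thr 20 23 (.thr 60 40 (.thr 12 46 (.thr 28 44 (.thr 31 30 (.dbl 16 24 26)))))) (.rp 18 (.str 3 (.nv (.dbl 23 20 43) (.rp 43 (.thr 20 23 (.dbl 60 40 41)) (.rp 23 (.thr 12 46 (.thr 4 8 (.thr 6 9 (.dbl 38 54 55)))) (.rp 20 (.thr 12 46 (.thr 4 8 (.thr 6 9 (.dbl 38 54 55)))) (.rp 19 (.str 16 (.nv (.dbl 23 20 43) (.rp 43 (.thr 20 23 (.dbl 60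 40 41)) (.rp 23 (.thr 31 26 (.thr 28 30 (.thr 20 24 (.dbl 60 40 41)))) (.rp 20 (.thr 31 26 (.thr 28 30 (.thr 60 41 (.dbl 12 44 46)))) .nd))))) (.rp 16 (.str 19 (.nv (.thr 12 46 (.thr 28 25 (.dbl 60 41 44))) (.nv (.dbl 23 20 43) .nd))) .nd))))))) (.rp 3 (.str 18 (.nv (.thr 12 46 (.thr 4 8 (.thr 38 55 (.thr 25 51 (.thr 37 13 (.thr 5 53 (.dbl 6 7 54))))))) (.nv (.thr 20 23 (.thr 30 26 (.thr 31 28 (.thr 15 47 (.dbl 60 40 45))))) (.rp 37 (.thr 20 23 (.thr 60 40 (.thr 62 61 (.thr 46 12 (.dbl 30 14 26))))) .nd)))) .nd))))))) (.rp 23 (.thr 12 46 (.thr 4 8 (.thr 38 55 (.thr 25 51 (.thr 28 19 (.thr 60 44 (.thr 3 41 (.dbl 6 9 54)))))))) (.rp 20 (.thr 12 46 (.thr 4 8 (.thr 38 55 (.thr 25 51 (.thr 28 19 (.thr 60 44 (.thr 3 41 (.dbl 6 9 54)))))))) (.rp 12 (.thr 20 23 (.thr 60 40 (.thr 61 62 (.thr 41 3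 (.thr 45 13 (.thr 15 30 (.thr 5 10 (.dbl 37 33 53)))))))) .nd)))))))))) (.rp 12 (.str 15 (.nv (.thr 31 47 (.thr 26 16 (.thr 30 28 (.thr 60 45 (.thr 20 40 (.dbl 22 18 23)))))) (.nv (.thr 17 25 (.thr 51 34 (.thr 27 39 (.thr 59 55 (.thr 43 11 (.thr 23 3 (.dbl 31 19 47))))))) (.nv (.thr 25 17 (.thr 31 47 (.thr 28 30 (.thr 22 19 (.thr 20 23 (.dbl 16 24 26)))))) (.rp 47 (.thr 17 25 (.thr 51 34 (.thr 59 55 (.thr 27 39 (.thr 43 11 (.thr 23 3 (.thr 31 19 (.thr 30 28 (.thr 22 20 (.dbl 26 16 18)))))))))) (.rp 36 (.str 24 (.nv (.thr 31 47 (.thr 16 26 (.dbl 28 20 30))) (.nv (.thr 25 17 (.thr 26 27 (.dbl 31 16 47))) (.rp 47 (.thr 25 17 (.thr 26 27 (.thr 31 16 (.thr 30 28 (.thr 60 45 (.thr 20 40 (.dbl 22 18 23))))))) (.rp 31 (.thr 17 25 (.thr 51 34 (.thr 59 55 (.thr 27 39 (.thr 43 11 (.thr 23 3 (.thr 20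 22 (.thr 60 40 (.thr 45 30 (.dbl 61 13 62)))))))))) (.rp 26 (.thr 25 17 (.thr 31 47 (.thr 28 30 (.thr 22 19 (.dbl 20 16 23))))) (.rp 16 (.thr 25 17 (.thr 27 26 (.thr 31 47 (.thr 28 30 (.dbl 19 22 23))))) .nd))))))) (.rp 31 (.thr 17 25 (.thr 51 34 (.thr 59 55 (.thr 27 39 (.thr 43 11 (.thr 23 3 (.thr 20 22 (.thr 60 40 (.thr 45 30 (.dbl 61 13 62)))))))))) (.rp 24 (.str 36 (.nv (.thr 31 47 (.thr 30 28 (.thr 60 45 (.thr 20 40 (.thr 22 23 (.dbl 26 16 18)))))) (.nv (.thr 5 10 (.thr 37 53 (.thr 39 38 (.thr 51 27 (.dbl 17 25 34))))) (.rp 46 (.thr 5 10 (.thr 37 53 (.thr 38 39 (.thr 4 55 (.thr 7 6 (.dbl 52 20 22)))))) (.rp 37 (.thr 17 25 (.thr 51 34 (.thr 59 55 (.thr 27 39 (.thr 43 11 (.thr 23 3 (.dbl 31 19 47))))))) (.rp 26 (.thr 31 47 (.thr 30 28 (.thr 60 45 (.thr 20 40 (.thr 4 52 (.thr 38 55 (.thr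 37 39 (.dbl 5 10 53)))))))) .nd)))))) (.rp 23 (.thr 17 25 (.thr 5 10 (.thr 31 47 (.thr 30 28 (.thr 60 45 (.thr 61 62 (.thr 51 34 (.thr 57 54 (.dbl 53 37 49))))))))) (.rp 18 (.thr 25 17 (.thr 31 47 (.thr 28 30 (.thr 19 22 (.thr 26 16 (.dbl 27 23 24)))))) .nd)))))))))) (.rp 8 (.str 45 (.nv (.thr 25 17 (.thr 12 46 (.thr 13 61 (.thr 15 14 (.thr 5 10 (.dbl 37 49 53)))))) (.nv (.thr 46 12 (.thr 47 44 (.thr 15 31 (.thr 60 30 (.dbl 61 13 62))))) (.rp 62 (.thr 13 61 (.thr 12 46 (.thr 15 14 (.thr 30 60 (.dbl 31 28 47))))) (.rp 61 (.thr 25 17 (.thr 46 12 (.thr 47 44 (.thr 31 15 (.thr 26 16 (.thr 28 30 (.thr 19 22 (.dbl 27 23 24)))))))) (.rp 46 (.thr 61 13 (.thr 25 17 (.thr 60 62 (.thr 20 40 (.thr 30 15 (.thr 28 31 (.dbl 22 19 23))))))) (.rp 30 (.thr 61 13 (.thr 25 17 (.thr 60 62 (.thr 20 40 (.thr 22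 23 (.thr 28 19 (.dbl 12 44 46))))))) (.rp 25 (.str 59 (.nv (.thr 51 55 (.thr 61 13 (.thr 60 62 (.thr 15 30 (.thr 46 12 (.dbl 47 31 44)))))) (.nv (.thr 13 61 (.thr 12 46 (.thr 15 14 (.thr 30 60 (.dbl 31 28 47))))) (.rp 61 (.thr 51 55 (.thr 46 12 (.thr 47 44 (.thr 15 31 (.thr 27 39 (.thr 43 11 (.thr 23 3 (.thr 60 30 (.dbl 20 22 40))))))))) (.rp 60 (.thr 13 61 (.thr 51 55 (.thr 12 46 (.thr 15 14 (.thr 31 47 (.thr 27 39 (.thr 43 11 (.dbl 23 3 19)))))))) (.rp 47 (.thr 61 13 (.thr 12 46 (.thr 60 62 (.thr 28 44 (.dbl 30 15 31))))) (.rp 46 (.thr 61 13 (.thr 60 62 (.thr 20 40 (.thr 30 15 (.thr 31 28 (.thr 26 16 (.dbl 22 18 23))))))) (.rp 31 (.thr 61 13 (.thr 51 55 (.thr 60 62 (.thr 15 30 (.thr 5 10 (.thr 57 54 (.dbl 53 37 49))))))) (.rp 30 (.thr 61 13 (.thr 51 55 (.thr 46 12 (.thr 47 44 (.thr 15 31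 (.thr 5 10 (.thr 60 62 (.thr 57 54 (.dbl 53 37 49))))))))) (.rp 15 (.thr 61 13 (.thr 51 55 (.thr 60 62 (.thr 20 40 (.thr 57 54 (.thr 22 23 (.thr 41 3 (.thr 53 49 (.dbl 37 5 33))))))))) (.rp 13 (.thr 51 55 (.thr 46 12 (.thr 47 44 (.thr 15 31 (.thr 27 39 (.thr 43 11 (.thr 23 3 (.thr 60 30 (.dbl 20 22 40))))))))) (.rp 12 (.thr 61 13 (.thr 51 55 (.thr 60 62 (.thr 15 30 (.thr 5 10 (.thr 57 54 (.dbl 53 37 49))))))) .nd)))))))))))) (.rp 15 (.thr 61 13 (.thr 25 17 (.thr 12 46 (.thr 60 62 (.thr 28 44 (.thr 20 40 (.dbl 22 19 23))))))) (.rp 13 (.thr 46 12 (.thr 47 44 (.thr 15 31 (.thr 5 10 (.thr 37 53 (.thr 41 33 (.thr 60 30 (.thr 20 40 (.dbl 22 3 23))))))))) (.rp 12 (.thr 61 13 (.thr 25 17 (.thr 60 62 (.thr 20 40 (.thr 22 23 (.thr 28 19 (.dbl 30 15 31))))))) .nd))))))))))) (.rp 4 (.str 45 (.nv (.thr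 12 46 (.thr 13 61 (.thr 15 14 (.thr 5 10 (.thr 25 17 (.dbl 37 49 53)))))) (.nv (.thr 46 12 (.thr 47 44 (.thr 15 31 (.thr 60 30 (.dbl 61 13 62))))) (.rp 62 (.thr 13 61 (.thr 12 46 (.thr 15 14 (.thr 30 60 (.dbl 31 28 47))))) (.rp 61 (.thr 25 17 (.thr 46 12 (.thr 47 44 (.thr 31 15 (.thr 26 16 (.thr 28 30 (.thr 19 22 (.dbl 27 23 24)))))))) (.rp 46 (.thr 61 13 (.thr 25 17 (.thr 60 62 (.thr 20 40 (.thr 30 15 (.thr 28 31 (.dbl 22 19 23))))))) (.rp 30 (.thr 61 13 (.thr 25 17 (.thr 60 62 (.thr 20 40 (.thr 22 23 (.thr 28 19 (.dbl 12 44 46))))))) (.rp 15 (.thr 61 13 (.thr 25 17 (.thr 12 46 (.thr 60 62 (.thr 28 44 (.thr 20 40 (.dbl 22 19 23))))))) (.rp 13 (.thr 17 25 (.thr 46 12 (.thr 47 44 (.thr 15 31 (.thr 51 34 (.thr 39 27 (.thr 43 35 (.thr 23 3 (.dbl 55 7 59))))))))) (.rp 12 (.thr 61 13 (.thr 25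 17 (.thr 60 62 (.thr 20 40 (.thr 22 23 (.thr 28 19 (.dbl 30 15 31))))))) .nd)))))))))) .nd))))))))))))

theorem w134 : WinAt (9223372036856872961, 285873023221762) :=
  chF (K := []) kn c134 9223372036856872961 285873023221762 42
    [] (by decide +kernel) (by decide +kernel)

/-- A certificate. -/
noncomputable def c135 : Ct := (.str 17 (.nv (.thr 51 34 (.thr 25 29 (.thr 12 38 (.dbl 8 4 59)))) (.rp 59 (.thr 51 34 (.str 19 (.nv (.thr 16 18 (.thr 26 31 (.thr 10 58 (.thr 15 5 (.dbl 48 32 37))))) (.nv (.thr 3 35 (.thr 25 29 (.thr 12 38 (.thr 9 6 (.thr 41 57 (.dbl 22 28 60)))))) (.nv (.thr 16 18 (.thr 25 29 (.thr 22 28 (.thr 31 26 (.dbl 23 20 27))))) .nd))))) (.rp 51 (.str 48 (.nv (.thr 16 32 (.thr 19 18 (.thr 25 29 (.thr 22 28 (.thr 23 20 (.dbl 31 26 27)))))) (.nv (.thr 32 16 (.thr 37 47 (.thr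 15 26 (.dbl 5 10 53)))) (.rp 59 (.str 55 (.nv (.thr 4 38 (.thr 12 8 (.thr 32 16 (.thr 36 24 (.thr 20 52 (.dbl 40 44 60)))))) (.nv (.thr 32 16 (.thr 37 47 (.thr 15 26 (.dbl 5 10 53)))) (.rp 32 (.thr 4 38 (.thr 25 29 (.thr 12 8 (.thr 24 36 (.thr 26 27 (.thr 10 58 (.dbl 15 5 37))))))) (.rp 16 (.thr 4 38 (.thr 25 29 (.thr 12 8 (.thr 24 36 (.thr 26 27 (.thr 10 58 (.dbl 15 5 37))))))) .nd))))) (.rp 55 (.str 59 (.nv (.dbl 25 8 29) (.rp 29 (.thr 16 32 (.thr 26 31 (.thr 10 58 (.dbl 15 5 37)))) (.rp 25 (.thr 16 32 (.thr 26 31 (.thr 10 58 (.dbl 15 5 37)))) (.rp 8 (.thr 16 32 (.thr 26 31 (.thr 10 58 (.dbl 15 5 37)))) .nd))))) (.rp 32 (.thr 25 29 (.str 12 (.nv (.dbl 8 4 59) (.rp 59 (.str 55 (.nv (.dbl 4 8 38) (.rp 38 (.thr 24 36 (.thr 26 27 (.thr 10 58 (.dbl 15 5 37)))) (.rp 8 (.thr 24 36 (.thr 26 27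 (.thr 10 58 (.dbl 15 5 37)))) (.rp 4 (.thr 24 36 (.thr 26 27 (.thr 10 58 (.dbl 15 5 37)))) .nd))))) (.rp 55 (.thr 59 8 (.thr 24 36 (.thr 26 27 (.thr 10 58 (.dbl 15 5 37))))) (.rp 8 (.thr 24 36 (.thr 26 27 (.thr 10 58 (.dbl 15 5 37)))) (.rp 4 (.thr 24 36 (.thr 26 27 (.thr 10 58 (.dbl 15 5 37)))) .nd))))))) (.rp 26 (.thr 16 32 (.thr 19 18 (.thr 25 29 (.thr 59 8 (.thr 22 28 (.thr 20 23 (.thr 60 40 (.thr 56 52 (.thr 57 58 (.dbl 41 3 9)))))))))) (.rp 16 (.thr 25 29 (.str 12 (.nv (.dbl 8 4 59) (.rp 59 (.str 55 (.nv (.dbl 4 8 38) (.rp 38 (.thr 24 36 (.thr 26 27 (.thr 10 58 (.dbl 15 5 37)))) (.rp 8 (.thr 24 36 (.thr 26 27 (.thr 10 58 (.dbl 15 5 37)))) (.rp 4 (.thr 24 36 (.thr 26 27 (.thr 10 58 (.dbl 15 5 37)))) .nd))))) (.rp 55 (.thr 59 8 (.thr 24 36 (.thr 26 27 (.thr 10 58 (.dbl 15 5 37))))) (.rp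 8 (.thr 24 36 (.thr 26 27 (.thr 10 58 (.dbl 15 5 37)))) (.rp 4 (.thr 24 36 (.thr 26 27 (.thr 10 58 (.dbl 15 5 37)))) .nd))))))) .nd)))))))) (.rp 38 (.str 19 (.nv (.thr 18 16 (.thr 25 29 (.thr 22 28 (.thr 2 62 (.dbl 34 50 51))))) (.nv (.thr 16 18 (.thr 26 31 (.thr 10 58 (.thr 48 32 (.dbl 15 5 37))))) (.rp 31 (.thr 18 16 (.thr 34 51 (.thr 25 29 (.thr 22 28 (.thr 30 26 (.dbl 2 50 62)))))) (.rp 18 (.thr 51 34 (.thr 3 35 (.thr 25 29 (.thr 22 28 (.thr 20 23 (.dbl 60 40 41)))))) (.rp 16 (.thr 51 34 (.thr 3 35 (.thr 25 29 (.thr 22 28 (.thr 20 23 (.dbl 60 40 41)))))) .nd)))))) (.rp 34 (.str 19 (.nv (.thr 25 29 (.thr 22 28 (.thr 23 20 (.thr 31 27 (.dbl 16 18 26))))) (.nv (.thr 16 18 (.thr 25 29 (.thr 8 59 (.thr 12 4 (.thr 48 32 (.thr 24 36 (.dbl 28 20 22))))))) (.nv (.thr 16 18 (.thr 48 32 (.thr 26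 31 (.thr 10 58 (.dbl 15 5 37))))) (.nv (.thr 16 18 (.thr 25 29 (.thr 22 28 (.thr 31 26 (.dbl 23 20 27))))) (.rp 18 (.thr 25 29 (.thr 8 59 (.thr 22 28 (.thr 20 23 (.thr 60 40 (.thr 3 41 (.thr 51 35 (.dbl 12 4 38)))))))) (.rp 16 (.thr 25 29 (.thr 8 59 (.thr 22 28 (.thr 20 23 (.thr 60 40 (.thr 3 41 (.thr 51 35 (.dbl 12 4 38)))))))) .nd))))))) (.rp 29 (.str 16 (.nv (.thr 18 19 (.thr 34 51 (.thr 2 50 (.thr 48 32 (.thr 22 62 (.dbl 26 30 31)))))) (.nv (.thr 18 19 (.thr 26 31 (.thr 34 51 (.thr 50 2 (.dbl 38 14 46))))) (.nv (.thr 48 32 (.thr 26 31 (.thr 10 58 (.dbl 15 5 37)))) (.rp 46 (.str 12 (.nv (.thr 26 31 (.thr 10 58 (.thr 15 5 (.dbl 48 32 37)))) (.nv (.thr 8 4 (.thr 25 59 (.dbl 51 34 38))) .nd))) (.rp 31 (.thr 18 19 (.thr 34 51 (.thr 2 50 (.thr 48 32 (.thr 3 33 (.thr 22 62 (.thr 60 41 (.dbl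 20 23 40)))))))) (.rp 30 (.thr 18 19 (.thr 34 51 (.thr 2 50 (.thr 48 32 (.thr 3 33 (.thr 22 62 (.thr 20 23 (.dbl 60 40 41)))))))) (.rp 26 (.thr 18 19 (.thr 34 51 (.thr 2 50 (.thr 48 32 (.thr 3 33 (.thr 22 62 (.thr 20 23 (.dbl 60 40 41)))))))) (.rp 12 (.str 46 (.nv (.dbl 34 38 51) (.rp 51 (.thr 48 32 (.thr 26 31 (.thr 10 58 (.dbl 15 5 37)))) (.rp 38 (.thr 48 32 (.thr 26 31 (.thr 10 58 (.dbl 15 5 37)))) (.rp 34 (.thr 48 32 (.thr 26 31 (.thr 10 58 (.dbl 15 5 37)))) .nd))))) .nd))))))))) (.rp 25 (.str 18 (.nv (.thr 34 51 (.thr 50 2 (.thr 38 46 (.thr 26 14 (.dbl 16 19 31))))) (.nv (.thr 16 19 (.thr 48 32 (.thr 26 31 (.thr 10 58 (.dbl 15 5 37))))) (.rp 37 (.str 13 (.nv (.thr 16 19 (.thr 26 31 (.thr 34 51 (.thr 2 50 (.thr 48 32 (.dbl 22 30 62)))))) (.nv (.thr 34 51 (.thr 38 46 (.thr 50 2 (.thr 26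 14 (.dbl 16 19 31))))) (.nv (.thr 16 19 (.thr 26 31 (.thr 10 58 (.thr 15 5 (.thr 22 30 (.thr 2 62 (.dbl 14 6 12))))))) (.nv (.thr 16 19 (.thr 34 51 (.thr 50 2 (.thr 38 46 (.dbl 26 14 31))))) (.rp 50 (.thr 16 19 (.thr 26 31 (.thr 22 30 (.thr 10 58 (.thr 15 5 (.thr 14 12 (.dbl 2 6 62))))))) (.rp 31 (.thr 16 19 (.thr 34 51 (.thr 38 46 (.thr 55 4 (.thr 2 50 (.thr 48 32 (.thr 22 62 (.thr 54 6 (.thr 52 53 (.thr 3 33 (.dbl 60 41 56))))))))))) (.rp 26 (.thr 16 19 (.thr 34 51 (.thr 2 50 (.thr 48 32 (.thr 22 62 (.thr 20 23 (.thr 60 40 (.dbl 3 33 41)))))))) (.rp 19 (.thr 34 51 (.thr 38 46 (.thr 50 2 (.thr 26 14 (.thr 16 31 (.thr 32 48 (.thr 35 33 (.thr 41 44 (.thr 40 43 (.thr 20 60 (.dbl 22 23 30))))))))))) (.rp 16 (.thr 34 51 (.thr 38 46 (.thr 50 2 (.thr 26 14 (.thr 30 22 (.thr 10 58 (.thr 15 5 (.thr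 60 45 (.thr 40 20 (.thr 41 43 (.thr 11 56 (.thr 8 9 (.dbl 4 12 55))))))))))))) (.rp 12 (.thr 16 19 (.thr 26 31 (.thr 22 30 (.thr 2 62 (.dbl 34 50 51))))) (.rp 2 (.thr 16 19 (.thr 26 31 (.thr 34 51 (.thr 38 46 (.thr 10 58 (.thr 15 5 (.dbl 14 12 50))))))) .nd)))))))))))) (.rp 31 (.thr 16 19 (.thr 34 51 (.thr 50 2 (.thr 48 32 (.thr 38 46 (.thr 26 14 (.thr 10 58 (.dbl 15 5 37)))))))) (.rp 26 (.thr 16 19 (.thr 34 51 (.thr 2 50 (.thr 48 32 (.thr 3 33 (.thr 22 62 (.thr 20 23 (.dbl 60 40 41)))))))) (.rp 19 (.thr 34 51 (.thr 50 2 (.thr 38 46 (.thr 26 14 (.thr 10 58 (.thr 16 31 (.thr 48 32 (.dbl 15 5 37)))))))) (.rp 16 (.thr 34 51 (.thr 50 2 (.thr 38 46 (.thr 26 14 (.thr 10 58 (.thr 30 22 (.thr 15 5 (.thr 60 45 (.thr 40 20 (.thr 41 43 (.thr 56 11 (.dbl 48 37 52)))))))))))) (.rp 13 (.str 37 (.nv (.thr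 5 53 (.thr 15 10 (.thr 16 19 (.dbl 26 31 48)))) (.nv (.thr 5 53 (.thr 15 10 (.thr 32 47 (.dbl 48 16 26)))) (.nv (.thr 16 19 (.dbl 32 47 48)) (.rp 48 (.thr 16 19 (.thr 34 51 (.thr 50 2 (.thr 38 46 (.dbl 26 14 31))))) (.rp 16 (.thr 34 51 (.thr 50 2 (.thr 5 53 (.thr 38 46 (.thr 10 15 (.dbl 26 14 58)))))) (.rp 5 (.str 9 (.nv (.thr 32 47 (.thr 34 51 (.thr 48 16 (.dbl 33 3 35)))) (.nv (.thr 16 19 (.dbl 32 47 48)) (.rp 48 (.thr 34 51 (.thr 50 2 (.thr 16 19 (.thr 26 31 (.dbl 38 14 46))))) (.rp 47 (.thr 16 19 (.thr 48 32 (.dbl 26 15 31))) (.rp 32 (.thr 34 51 (.thr 50 2 (.thr 16 19 (.thr 26 31 (.dbl 38 14 46))))) (.rp 16 (.thr 34 51 (.thr 32 47 (.thr 35 33 (.thr 38 46 (.thr 36 39 (.dbl 44 40 41)))))) .nd))))))) .nd))))))) (.rp 10 (.thr 16 19 (.thr 34 51 (.thr 50 2 (.thr 26 31 (.dbl 38 14 46))))) .nd))))))))))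 (.rp 12 (.thr 51 34 (.str 26 (.nv (.thr 16 31 (.thr 48 32 (.thr 15 37 (.thr 27 39 (.dbl 25 24 29))))) (.nv (.thr 10 58 (.thr 15 5 (.thr 27 39 (.dbl 25 24 29)))) (.nv (.thr 16 31 (.thr 48 32 (.thr 10 58 (.dbl 15 5 37)))) (.rp 48 (.thr 58 10 (.thr 16 31 (.thr 18 19 (.thr 22 30 (.thr 62 2 (.thr 54 50 (.thr 60 57 (.dbl 20 23 40)))))))) (.rp 46 (.thr 29 25 (.thr 10 58 (.thr 16 31 (.thr 48 32 (.dbl 15 5 37))))) (.rp 29 (.str 46 (.nv (.thr 16 31 (.thr 10 58 (.thr 48 32 (.dbl 15 5 37)))) (.nv (.thr 10 58 (.thr 15 5 (.thr 48 37 (.dbl 16 31 32)))) (.rp 58 (.thr 16 31 (.thr 19 18 (.thr 48 32 (.thr 15 37 (.thr 27 39 (.thr 25 24 (.thr 59 8 (.thr 11 43 (.dbl 3 7 35))))))))) (.rp 48 (.thr 58 10 (.thr 16 31 (.thr 18 19 (.thr 30 22 (.thr 62 14 (.thr 54 50 (.thr 60 57 (.thr 15 45 (.thr 27 39 (.thr 20 40 (.dbl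 24 25 28))))))))))) (.rp 37 (.thr 10 58 (.thr 15 5 (.thr 27 39 (.thr 31 16 (.thr 23 19 (.thr 22 20 (.thr 30 18 (.dbl 62 2 14)))))))) (.rp 32 (.thr 10 58 (.thr 15 5 (.thr 27 39 (.thr 31 16 (.thr 23 19 (.thr 22 20 (.thr 30 18 (.dbl 62 2 14)))))))) (.rp 31 (.thr 10 58 (.thr 15 5 (.thr 27 39 (.thr 48 37 (.thr 16 32 (.thr 19 18 (.thr 25 24 (.thr 59 8 (.thr 11 43 (.dbl 3 7 35)))))))))) (.rp 16 (.thr 10 58 (.thr 15 5 (.thr 27 39 (.thr 48 37 (.thr 25 24 (.thr 59 8 (.thr 11 43 (.thr 3 7 (.thr 18 33 (.thr 22 30 (.dbl 19 28 35))))))))))) (.rp 15 (.thr 31 16 (.str 14 (.nv (.thr 10 58 (.thr 2 6 (.dbl 62 22 30))) (.nv (.thr 50 38 (.thr 58 10 (.dbl 62 30 54))) (.rp 62 (.str 60 (.nv (.thr 40 20 (.thr 41 43 (.thr 56 11 (.thr 57 54 (.dbl 58 10 59))))) (.nv (.thr 40 20 (.thr 41 43 (.thr 3 22 (.thr 35 19 (.dbl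 38 44 50))))) (.nv (.thr 38 50 (.thr 54 57 (.thr 6 22 (.dbl 10 2 58)))) .nd)))) (.rp 58 (.thr 30 62 (.thr 22 18 (.thr 20 23 (.thr 60 40 (.thr 54 57 (.dbl 38 6 50)))))) (.rp 30 (.thr 58 10 (.thr 50 38 (.thr 54 62 (.thr 60 57 (.thr 40 20 (.thr 41 43 (.thr 56 11 (.thr 3 22 (.thr 19 35 (.thr 27 23 (.dbl 24 8 25))))))))))) (.rp 10 (.thr 50 38 (.thr 62 30 (.thr 22 2 (.thr 54 58 (.thr 20 23 (.dbl 60 40 57)))))) .nd)))))))) (.rp 10 (.thr 16 31 (.thr 19 18 (.thr 48 32 (.thr 15 37 (.thr 27 39 (.thr 25 24 (.thr 59 8 (.thr 11 43 (.dbl 3 7 35))))))))) (.rp 5 (.thr 58 10 (.thr 16 31 (.thr 18 19 (.thr 30 22 (.thr 62 14 (.thr 54 50 (.thr 48 32 (.thr 15 37 (.dbl 60 45 57))))))))) .nd)))))))))))) (.rp 15 (.thr 58 10 (.thr 31 16 (.thr 29 25 (.thr 30 28 (.thr 22 18 (.thr 62 2 (.thr 50 54 (.dbl 14 38 46))))))))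 .nd))))))))) (.rp 8 (.str 19 (.nv (.thr 18 16 (.thr 25 29 (.thr 22 28 (.thr 2 62 (.dbl 34 50 51))))) (.nv (.thr 16 18 (.thr 26 31 (.thr 10 58 (.thr 48 32 (.dbl 15 5 37))))) (.rp 31 (.thr 18 16 (.thr 34 51 (.thr 25 29 (.thr 22 28 (.thr 30 26 (.dbl 2 50 62)))))) (.rp 18 (.thr 51 34 (.thr 3 35 (.thr 25 29 (.thr 22 28 (.thr 20 23 (.dbl 60 40 41)))))) (.rp 16 (.thr 51 34 (.thr 3 35 (.thr 25 29 (.thr 22 28 (.thr 20 23 (.dbl 60 40 41)))))) .nd)))))) (.rp 4 (.str 19 (.nv (.thr 18 16 (.thr 25 29 (.thr 22 28 (.thr 2 62 (.dbl 34 50 51))))) (.nv (.thr 16 18 (.thr 26 31 (.thr 10 58 (.thr 48 32 (.dbl 15 5 37))))) (.rp 31 (.thr 18 16 (.thr 34 51 (.thr 25 29 (.thr 22 28 (.thr 30 26 (.dbl 2 50 62)))))) (.rp 18 (.thr 51 34 (.thr 3 35 (.thr 25 29 (.thr 22 28 (.thr 20 23 (.dbl 60 40 41)))))) (.rp 16 (.thr 51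 34 (.thr 3 35 (.thr 25 29 (.thr 22 28 (.thr 20 23 (.dbl 60 40 41)))))) .nd)))))) .nd)))))))))))

theorem w135 : WinAt (4398048608257, 9223934986808197122) :=
  chF (K := []) kn c135 4398048608257 9223934986808197122 63
    [562958543486978] (by decide +kernel) (by decide +kernel)

/-- A certificate. -/
noncomputable def c136 : Ct := (.str 48 (.nv (.thr 32 16 (.thr 37 47 (.thr 15 26 (.dbl 5 10 53)))) (.nv (.thr 16 32 (.thr 26 31 (.thr 15 37 (.dbl 10 5 58)))) (.rp 37 (.str 51 (.nv (.thr 16 32 (.thr 17 34 (.thr 25 29 (.thr 12 38 (.thr 26 31 (.dbl 24 27 36)))))) (.nv (.thr 34 17 (.thr 38 46 (.thr 4 55 (.dbl 12 8 25)))) (.rp 38 (.thr 17 34 (.thr 16 32 (.thr 26 31 (.thr 10 58 (.thr 25 29 (.thr 27 24 (.dbl 15 5 39))))))) (.rp 34 (.thr 16 32 (.thr 26 31 (.thr 10 58 (.thr 15 5 (.thr 27 39 (.thr 25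 24 (.thr 8 59 (.dbl 12 4 38)))))))) (.rp 33 (.thr 17 34 (.thr 25 29 (.thr 8 59 (.dbl 12 4 38)))) (.rp 29 (.thr 34 17 (.thr 38 46 (.thr 12 25 (.dbl 4 8 55)))) (.rp 25 (.thr 34 17 (.thr 32 16 (.thr 38 46 (.thr 4 55 (.thr 12 8 (.thr 36 24 (.thr 20 52 (.dbl 40 44 60)))))))) (.rp 17 (.thr 16 32 (.thr 26 31 (.thr 10 58 (.thr 15 5 (.thr 27 39 (.thr 25 24 (.thr 8 59 (.dbl 12 4 38)))))))) (.rp 12 (.thr 17 34 (.thr 16 32 (.thr 26 31 (.thr 10 58 (.thr 15 5 (.thr 27 39 (.dbl 25 24 29))))))) .nd)))))))))) (.rp 32 (.str 8 (.nv (.thr 12 4 (.thr 24 36 (.thr 25 59 (.thr 26 27 (.thr 10 58 (.dbl 15 5 37)))))) (.nv (.thr 12 4 (.thr 25 59 (.thr 17 29 (.dbl 51 34 38)))) (.rp 59 (.thr 12 4 (.thr 24 36 (.thr 40 56 (.thr 20 60 (.thr 16 28 (.thr 26 31 (.thr 15 37 (.dbl 10 5 58)))))))) (.rp 55 (.thr 12 4 (.thr 25 59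 (.thr 51 38 (.dbl 17 29 34)))) (.rp 51 (.thr 12 4 (.thr 24 36 (.thr 40 56 (.thr 20 60 (.thr 28 16 (.thr 22 23 (.dbl 25 19 59))))))) (.rp 25 (.thr 12 4 (.thr 24 36 (.thr 40 56 (.thr 20 60 (.thr 16 28 (.thr 26 31 (.thr 10 58 (.dbl 15 5 37)))))))) (.rp 12 (.str 60 (.nv (.thr 56 52 (.dbl 40 20 24)) (.rp 56 (.thr 40 20 (.thr 25 59 (.thr 41 43 (.thr 57 9 (.thr 51 54 (.dbl 17 29 34)))))) (.rp 52 (.thr 40 20 (.thr 56 24 (.thr 25 59 (.thr 41 43 (.thr 9 57 (.dbl 11 10 26)))))) (.rp 46 (.str 29 (.nv (.thr 40 20 (.dbl 56 24 52)) (.nv (.dbl 25 17 59) .nd))) (.rp 40 (.thr 56 52 (.thr 59 25 (.thr 58 57 (.thr 26 10 (.thr 37 15 (.thr 41 11 (.thr 33 45 (.dbl 3 18 22)))))))) (.rp 29 (.str 46 (.nv (.thr 56 52 (.dbl 40 20 24)) (.rp 56 (.thr 20 40 (.thr 22 23 (.thr 62 2 (.thr 30 14 (.thr 15 45 (.dbl 26 18 37))))))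 (.rp 52 (.thr 20 40 (.thr 22 23 (.thr 62 2 (.thr 30 14 (.thr 15 45 (.dbl 26 18 37)))))) (.rp 40 (.thr 56 52 (.thr 34 38 (.thr 59 25 (.thr 51 17 (.dbl 57 54 58))))) (.rp 24 (.thr 52 56 (.thr 20 40 (.thr 38 34 (.dbl 4 36 55)))) (.rp 20 (.thr 56 52 (.thr 34 38 (.thr 59 25 (.thr 51 17 (.dbl 57 54 58))))) .nd))))))) (.rp 24 (.thr 56 52 (.thr 40 20 (.thr 25 59 (.thr 41 43 (.thr 9 57 (.dbl 11 10 26)))))) (.rp 20 (.thr 56 52 (.thr 40 24 (.thr 25 59 (.thr 41 43 (.thr 9 57 (.dbl 11 10 26)))))) .nd))))))))) (.rp 4 (.thr 25 59 (.thr 17 29 (.thr 51 34 (.thr 12 38 (.thr 24 36 (.thr 26 27 (.thr 10 58 (.dbl 15 5 37)))))))) .nd))))))))) (.rp 26 (.str 38 (.nv (.thr 32 16 (.thr 37 47 (.thr 36 39 (.thr 12 24 (.dbl 4 8 55))))) (.nv (.thr 4 55 (.thr 32 16 (.thr 37 47 (.thr 36 39 (.thr 20 52 (.dbl 40 44 60))))))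 (.nv (.thr 4 55 (.thr 12 8 (.thr 34 46 (.dbl 51 17 25)))) (.rp 55 (.thr 32 16 (.thr 37 47 (.thr 36 39 (.thr 34 46 (.thr 35 33 (.dbl 44 40 41)))))) (.rp 4 (.thr 32 16 (.thr 37 47 (.thr 36 39 (.thr 34 46 (.thr 35 33 (.dbl 44 40 41)))))) .nd)))))) (.rp 16 (.str 4 (.nv (.thr 12 8 (.thr 36 24 (.thr 38 55 (.thr 37 39 (.thr 5 53 (.dbl 15 10 26)))))) (.nv (.thr 12 8 (.thr 38 55 (.thr 51 25 (.dbl 34 17 46)))) (.rp 55 (.thr 12 8 (.thr 36 24 (.thr 20 52 (.thr 40 60 (.thr 32 44 (.thr 37 47 (.thr 15 26 (.dbl 5 10 53)))))))) (.rp 51 (.thr 12 8 (.thr 36 24 (.thr 20 52 (.thr 40 60 (.thr 44 32 (.thr 41 43 (.dbl 38 35 55))))))) (.rp 38 (.thr 12 8 (.thr 36 24 (.thr 20 52 (.thr 40 60 (.thr 32 44 (.thr 37 47 (.thr 5 53 (.dbl 15 10 26)))))))) (.rp 12 (.str 60 (.nv (.thr 52 56 (.dbl 20 36 40)) (.rp 56 (.thr 20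 40 (.thr 52 36 (.thr 38 55 (.thr 22 23 (.thr 6 54 (.dbl 7 5 37)))))) (.rp 52 (.thr 20 40 (.thr 38 55 (.thr 22 23 (.thr 54 6 (.thr 51 57 (.dbl 34 17 46)))))) (.rp 46 (.str 29 (.nv (.thr 52 56 (.dbl 20 36 40)) (.rp 56 (.thr 20 40 (.thr 52 36 (.thr 17 25 (.thr 55 38 (.thr 51 34 (.dbl 54 53 57)))))) (.rp 52 (.thr 20 40 (.thr 17 25 (.thr 38 55 (.thr 22 23 (.thr 54 6 (.dbl 51 34 57)))))) (.rp 40 (.thr 52 56 (.thr 17 25 (.thr 55 38 (.thr 51 34 (.dbl 54 53 57))))) (.rp 36 (.thr 56 52 (.thr 40 20 (.thr 25 17 (.dbl 8 24 59)))) (.rp 20 (.thr 52 56 (.thr 17 25 (.thr 55 38 (.thr 51 34 (.dbl 54 53 57))))) .nd))))))) (.rp 40 (.thr 52 56 (.thr 20 36 (.thr 38 55 (.thr 22 23 (.thr 6 54 (.dbl 7 5 37)))))) (.rp 36 (.thr 52 56 (.thr 20 40 (.thr 38 55 (.thr 22 23 (.thr 6 54 (.dbl 7 5 37)))))) (.rp 29 (.str 46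 (.nv (.thr 20 40 (.dbl 52 36 56)) (.nv (.dbl 38 34 55) .nd))) (.rp 20 (.thr 52 56 (.thr 55 38 (.thr 53 54 (.thr 37 5 (.thr 26 15 (.thr 22 7 (.thr 18 30 (.dbl 3 33 41)))))))) .nd))))))))) (.rp 8 (.thr 38 55 (.thr 34 46 (.thr 51 17 (.thr 12 25 (.thr 36 24 (.thr 37 39 (.thr 5 53 (.dbl 15 10 26)))))))) .nd)))))))) (.rp 15 (.thr 16 32 (.str 24 (.nv (.thr 31 26 (.thr 20 28 (.thr 12 36 (.thr 40 60 (.dbl 8 4 56))))) (.nv (.thr 20 28 (.thr 40 60 (.thr 8 56 (.thr 25 59 (.dbl 26 27 31))))) (.nv (.thr 12 36 (.thr 4 8 (.thr 38 55 (.thr 34 46 (.dbl 51 17 25))))) (.nv (.thr 20 28 (.thr 60 40 (.thr 52 56 (.dbl 36 4 12)))) (.rp 40 (.thr 28 20 (.thr 31 26 (.thr 29 30 (.thr 25 17 (.thr 8 59 (.dbl 12 4 36)))))) (.rp 31 (.str 47 (.nv (.thr 20 28 (.thr 36 12 (.thr 60 40 (.dbl 52 4 56)))) (.nv (.thr 12 36 (.thr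 4 8 (.thr 38 55 (.thr 34 46 (.dbl 51 17 25))))) (.nv (.thr 12 36 (.thr 8 4 (.thr 40 56 (.dbl 20 28 60)))) (.rp 40 (.thr 28 20 (.thr 12 36 (.thr 44 60 (.thr 4 8 (.thr 38 55 (.dbl 46 34 45)))))) (.rp 36 (.thr 20 28 (.thr 40 60 (.thr 8 56 (.thr 12 4 (.thr 25 59 (.thr 51 38 (.dbl 17 29 34))))))) (.rp 12 (.thr 20 28 (.thr 60 40 (.thr 52 56 (.thr 22 23 (.thr 37 7 (.thr 53 5 (.thr 55 54 (.dbl 4 36 38)))))))) (.rp 4 (.thr 12 36 (.thr 20 28 (.thr 40 60 (.thr 8 56 (.thr 25 59 (.thr 51 38 (.dbl 17 29 34))))))) .nd)))))))) (.rp 12 (.thr 20 28 (.thr 60 40 (.thr 22 23 (.thr 3 41 (.thr 18 33 (.dbl 26 30 31)))))) .nd))))))))) (.rp 10 (.str 51 (.nv (.thr 16 32 (.thr 26 31 (.thr 15 37 (.thr 27 39 (.thr 25 24 (.dbl 17 29 34)))))) (.nv (.thr 34 17 (.thr 38 46 (.thr 12 25 (.dbl 4 8 55)))) (.rp 38 (.thr 17 34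 (.thr 16 32 (.thr 26 31 (.thr 25 29 (.thr 27 24 (.dbl 15 37 39)))))) (.rp 34 (.thr 16 32 (.thr 26 31 (.thr 15 37 (.thr 27 39 (.thr 25 24 (.thr 8 59 (.dbl 12 4 38))))))) (.rp 25 (.thr 34 17 (.thr 32 16 (.thr 37 47 (.thr 38 46 (.thr 39 36 (.dbl 15 26 27)))))) (.rp 17 (.thr 16 32 (.thr 26 31 (.thr 15 37 (.thr 27 39 (.thr 25 24 (.thr 8 59 (.dbl 12 4 38))))))) .nd))))))) (.rp 5 (.str 51 (.nv (.thr 16 32 (.thr 26 31 (.thr 15 37 (.thr 27 39 (.thr 25 24 (.dbl 17 29 34)))))) (.nv (.thr 34 17 (.thr 38 46 (.thr 12 25 (.dbl 4 8 55)))) (.rp 38 (.thr 17 34 (.thr 16 32 (.thr 26 31 (.thr 25 29 (.thr 27 24 (.dbl 15 37 39)))))) (.rp 34 (.thr 32 16 (.thr 37 47 (.thr 15 26 (.thr 39 27 (.thr 38 36 (.thr 4 55 (.dbl 12 8 25))))))) (.rp 25 (.thr 34 17 (.thr 32 16 (.thr 37 47 (.thr 38 46 (.thr 39 36 (.dbl 15 26 27))))))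 (.rp 17 (.thr 32 16 (.thr 37 47 (.thr 15 26 (.thr 39 27 (.thr 38 36 (.thr 4 55 (.dbl 12 8 25))))))) (.rp 13 (.str 9 (.nv (.thr 16 32 (.thr 26 31 (.thr 10 58 (.thr 8 11 (.thr 12 4 (.dbl 25 38 59)))))) (.nv (.thr 16 32 (.thr 26 31 (.thr 10 58 (.thr 8 11 (.thr 25 59 (.dbl 17 29 34)))))) (.nv (.thr 34 17 (.thr 38 46 (.thr 4 55 (.dbl 12 8 25)))) (.rp 25 (.thr 34 17 (.thr 32 16 (.thr 37 47 (.thr 15 26 (.thr 38 46 (.dbl 39 27 36)))))) (.rp 8 (.thr 17 34 (.thr 16 32 (.thr 18 19 (.thr 25 29 (.thr 12 38 (.dbl 3 6 33)))))) .nd)))))) (.rp 9 (.str 13 (.nv (.thr 16 32 (.thr 26 31 (.thr 15 37 (.thr 12 14 (.thr 4 8 (.dbl 38 25 55)))))) (.nv (.thr 17 34 (.thr 25 29 (.thr 8 59 (.dbl 12 4 38)))) (.nv (.thr 32 16 (.thr 37 47 (.thr 25 49 (.dbl 17 29 34)))) (.rp 25 (.thr 32 16 (.thr 34 17 (.thr 37 47 (.thr 15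 26 (.thr 38 46 (.dbl 39 27 36)))))) .nd))))) .nd))))))))) .nd))))))))))

theorem w136 : WinAt (4398048608257, 9224497936761618434) :=
  chF (K := []) kn c136 4398048608257 9224497936761618434 63
    [] (by decide +kernel) (by decide +kernel)

/-- A certificate. -/
noncomputable def c137 : Ct := (.str 5 (.nv (.thr 37 53 (.thr 15 10 (.thr 31 47 (.dbl 26 16 48)))) (.rp 58 (.thr 37 53 (.thr 15 10 (.thr 26 48 (.dbl 31 16 47)))) (.rp 53 (.str 12 (.nv (.thr 4 8 (.thr 6 7 (.thr 3 9 (.thr 38 55 (.thr 23 43 (.dbl 22 20 54)))))) (.nv (.thr 15 10 (.thr 14 13 (.thr 47 31 (.thr 46 29 (.thr 45 44 (.dbl 30 60 62)))))) (.rp 10 (.thr 4 8 (.thr 7 6 (.thr 55 38 (.thr 23 39 (.thr 22 20 (.thr 37 52 (.thr 3 43 (.thr 41 60 (.thr 33 45 (.thr 48 18 (.dbl 15 11 26))))))))))) .nd)))) (.rp 48 (.thr 37 53 (.str 49 (.nv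 (.thr 13 25 (.thr 15 10 (.thr 31 47 (.thr 12 14 (.thr 29 46 (.thr 45 61 (.dbl 30 28 60))))))) (.nv (.thr 25 13 (.thr 29 17 (.thr 12 46 (.thr 4 8 (.thr 7 6 (.thr 22 52 (.thr 23 20 (.dbl 55 38 39)))))))) (.nv (.thr 15 10 (.thr 25 13 (.thr 29 17 (.thr 31 47 (.thr 28 30 (.thr 19 22 (.thr 26 16 (.dbl 27 23 24)))))))) (.rp 29 (.thr 25 13 (.thr 15 10 (.thr 31 47 (.thr 26 16 (.thr 27 24 (.thr 23 19 (.thr 3 43 (.thr 7 11 (.dbl 22 20 52))))))))) (.rp 25 (.thr 15 10 (.thr 31 47 (.thr 26 16 (.str 38 (.nv (.thr 4 55 (.thr 36 39 (.thr 52 20 (.dbl 7 6 22)))) (.nv (.thr 14 50 (.thr 12 13 (.dbl 4 8 55))) (.rp 59 (.str 8 (.nv (.dbl 4 12 55) (.rp 55 (.thr 14 50 (.dbl 12 4 13)) (.rp 12 (.thr 4 55 (.thr 7 6 (.thr 36 39 (.dbl 52 20 22)))) (.rp 4 (.thr 14 50 (.thr 12 13 (.thr 29 46 (.thr 30 28 (.thr 22 18 (.thr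 20 23 (.dbl 60 40 45))))))) .nd))))) (.rp 55 (.thr 14 50 (.thr 12 13 (.thr 46 29 (.thr 30 62 (.thr 22 18 (.thr 20 23 (.dbl 60 40 45))))))) (.rp 8 (.str 59 (.nv (.thr 4 55 (.thr 7 6 (.thr 52 22 (.dbl 36 20 39)))) (.nv (.thr 39 36 (.thr 55 4 (.thr 23 7 (.thr 43 3 (.dbl 27 11 19))))) (.nv (.thr 4 55 (.thr 7 6 (.thr 36 39 (.dbl 52 20 22)))) (.rp 55 (.thr 14 50 (.thr 12 13 (.thr 46 29 (.thr 30 62 (.thr 22 18 (.thr 20 23 (.dbl 60 40 45))))))) (.rp 52 (.thr 14 50 (.thr 12 13 (.thr 46 29 (.thr 30 62 (.thr 22 18 (.thr 20 23 (.dbl 60 40 45))))))) (.rp 39 (.thr 14 50 (.thr 4 55 (.thr 7 6 (.thr 12 13 (.thr 46 29 (.thr 30 62 (.dbl 22 18 52))))))) (.rp 36 (.thr 14 50 (.thr 4 55 (.thr 7 6 (.thr 12 13 (.thr 46 29 (.thr 30 62 (.dbl 22 18 52))))))) (.rp 20 (.thr 14 50 (.thr 4 55 (.thr 7 6 (.thr 12 13 (.thr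 46 29 (.thr 30 62 (.dbl 22 18 52))))))) (.rp 11 (.str 9 (.nv (.thr 14 50 (.thr 12 13 (.thr 6 3 (.thr 29 46 (.thr 30 28 (.dbl 22 18 54)))))) (.nv (.thr 36 39 (.thr 4 55 (.thr 52 20 (.dbl 7 6 22)))) (.nv (.thr 14 50 (.thr 4 55 (.thr 12 13 (.dbl 6 3 7)))) (.rp 6 (.thr 14 50 (.thr 12 13 (.thr 46 29 (.thr 30 62 (.thr 22 18 (.thr 20 23 (.dbl 60 40 45))))))) .nd))))) (.rp 9 (.str 11 (.nv (.thr 41 56 (.thr 4 55 (.dbl 7 3 6))) (.nv (.thr 43 27 (.dbl 3 7 23)) (.rp 41 (.str 57 (.nv (.thr 4 55 (.dbl 7 3 6)) (.nv (.thr 43 27 (.dbl 3 7 23)) (.rp 43 (.str 40 (.nv (.thr 14 50 (.thr 60 20 (.thr 30 45 (.dbl 62 46 61)))) (.nv (.thr 4 55 (.dbl 7 3 6)) (.rp 39 (.str 35 (.nv (.thr 14 50 (.thr 60 20 (.thr 30 45 (.dbl 62 46 61)))) (.nv (.thr 4 55 (.dbl 7 3 6)) .nd))) (.rp 35 (.thr 39 36 (.thr 55 4 (.dbl 7 3 23)))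 .nd))))) (.rp 7 (.thr 43 27 (.thr 23 3 (.thr 4 55 (.thr 36 39 (.dbl 20 22 52))))) (.rp 3 (.thr 55 4 (.thr 39 36 (.thr 23 7 (.dbl 27 19 43)))) .nd)))))) (.rp 7 (.thr 43 27 (.thr 3 23 (.thr 41 56 (.thr 45 33 (.dbl 60 22 30))))) (.rp 3 (.thr 27 43 (.thr 55 4 (.thr 39 36 (.dbl 23 7 19)))) .nd)))))) (.rp 7 (.thr 14 50 (.thr 12 13 (.thr 46 29 (.thr 30 62 (.thr 22 18 (.thr 20 23 (.dbl 60 40 45))))))) (.rp 4 (.thr 14 50 (.thr 12 13 (.thr 46 29 (.thr 30 62 (.thr 22 18 (.thr 20 23 (.dbl 60 40 45))))))) .nd))))))))))))) (.rp 4 (.thr 14 50 (.thr 12 13 (.thr 46 29 (.thr 30 62 (.thr 22 18 (.thr 20 23 (.dbl 60 40 45))))))) .nd)))))))))) (.rp 13 (.str 25 (.nv (.thr 15 10 (.thr 29 17 (.thr 46 12 (.thr 31 47 (.thr 30 28 (.thr 60 45 (.dbl 62 14 61))))))) (.nv (.thr 29 17 (.thr 12 46 (.thr 4 8 (.thr 7 6 (.thr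 22 52 (.thr 23 20 (.dbl 55 38 39))))))) (.nv (.thr 29 17 (.thr 15 10 (.thr 31 47 (.thr 28 30 (.thr 19 22 (.thr 26 16 (.dbl 27 23 24))))))) (.rp 29 (.thr 15 10 (.thr 31 47 (.thr 26 16 (.thr 27 24 (.thr 23 19 (.thr 3 43 (.thr 7 11 (.dbl 22 20 52)))))))) (.rp 17 (.thr 15 10 (.thr 31 47 (.thr 26 16 (.thr 27 24 (.thr 19 23 (.thr 28 22 (.thr 29 30 (.thr 12 46 (.thr 4 8 (.thr 44 60 (.thr 38 55 (.thr 41 35 (.thr 7 6 (.dbl 11 3 56)))))))))))))) .nd)))))) .nd)))))))) (.rp 47 (.thr 37 53 (.str 29 (.nv (.thr 12 46 (.thr 4 8 (.thr 7 6 (.thr 22 52 (.thr 23 20 (.dbl 55 38 39)))))) (.nv (.thr 25 17 (.thr 12 46 (.thr 15 10 (.dbl 13 14 49)))) (.rp 46 (.thr 25 17 (.thr 15 10 (.thr 26 48 (.thr 27 24 (.thr 31 16 (.thr 19 23 (.dbl 28 22 30))))))) (.rp 45 (.thr 25 17 (.thr 15 10 (.thr 26 48 (.thr 27 24 (.thr 31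 16 (.thr 19 23 (.dbl 28 22 30))))))) (.rp 44 (.thr 25 17 (.thr 15 10 (.thr 26 48 (.thr 27 24 (.thr 31 16 (.thr 19 23 (.dbl 28 22 30))))))) (.rp 38 (.thr 25 17 (.thr 15 10 (.thr 26 48 (.thr 27 24 (.thr 31 16 (.thr 19 23 (.dbl 28 22 30))))))) (.rp 34 (.thr 25 17 (.thr 15 10 (.thr 26 48 (.thr 27 24 (.thr 31 16 (.thr 19 23 (.dbl 28 22 30))))))) (.rp 25 (.thr 12 46 (.thr 15 10 (.thr 13 14 (.thr 45 61 (.thr 26 48 (.thr 31 16 (.dbl 30 28 60))))))) (.rp 12 (.thr 25 17 (.thr 15 10 (.thr 26 48 (.thr 31 16 (.thr 28 30 (.thr 19 22 (.dbl 27 23 24))))))) .nd))))))))))) (.rp 37 (.thr 15 10 (.thr 47 31 (.str 12 (.nv (.thr 4 8 (.thr 6 7 (.thr 38 55 (.thr 22 54 (.thr 23 20 (.dbl 3 9 43)))))) (.nv (.thr 14 13 (.thr 46 29 (.thr 45 44 (.dbl 30 60 62)))) (.rp 60 (.thr 14 13 (.thr 46 29 (.thr 30 62 (.thr 4 8 (.thr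 6 7 (.thr 38 55 (.thr 26 50 (.dbl 22 18 54)))))))) (.rp 58 (.str 26 (.nv (.thr 46 29 (.thr 45 44 (.thr 30 60 (.dbl 14 13 62)))) (.nv (.thr 4 8 (.thr 38 55 (.dbl 14 13 50))) (.rp 14 (.thr 4 8 (.thr 6 7 (.thr 38 55 (.thr 22 54 (.thr 23 20 (.dbl 3 9 43)))))) (.rp 13 (.thr 4 8 (.thr 6 7 (.thr 38 55 (.thr 22 54 (.thr 23 20 (.dbl 3 9 43)))))) .nd))))) (.rp 26 (.str 58 (.nv (.thr 46 29 (.thr 44 45 (.thr 48 53 (.thr 32 16 (.dbl 36 24 40))))) (.nv (.thr 4 8 (.thr 6 7 (.thr 38 55 (.thr 22 54 (.thr 23 20 (.dbl 3 9 43)))))) (.nv (.thr 14 13 (.thr 46 29 (.thr 45 44 (.dbl 30 60 62)))) .nd)))) (.rp 25 (.thr 46 29 (.thr 45 44 (.thr 30 60 (.dbl 14 13 62)))) .nd))))))))) (.rp 31 (.str 3 (.nv (.thr 15 10 (.thr 7 11 (.thr 4 6 (.thr 37 53 (.thr 38 55 (.thr 36 39 (.dbl 52 20 22))))))) (.nv (.thr 23 43 (.thr 22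 20 (.thr 37 53 (.thr 7 52 (.thr 4 6 (.dbl 55 38 39)))))) (.nv (.thr 15 10 (.thr 7 11 (.thr 4 6 (.thr 55 38 (.dbl 23 39 43))))) (.nv (.thr 37 53 (.thr 15 10 (.thr 23 43 (.thr 22 20 (.dbl 7 11 52))))) (.rp 22 (.thr 23 43 (.thr 15 10 (.thr 7 11 (.thr 55 39 (.dbl 4 6 38))))) (.rp 7 (.thr 37 53 (.thr 23 43 (.thr 15 10 (.thr 26 48 (.thr 22 20 (.thr 30 18 (.dbl 60 41 45))))))) .nd))))))) (.rp 26 (.thr 37 53 (.str 7 (.nv (.thr 4 6 (.thr 55 38 (.thr 23 39 (.thr 3 43 (.dbl 15 10 11))))) (.nv (.thr 10 15 (.thr 4 6 (.thr 38 55 (.thr 52 22 (.dbl 36 20 39))))) (.nv (.thr 22 52 (.thr 23 20 (.thr 3 43 (.dbl 15 10 11)))) (.nv (.thr 4 6 (.thr 22 52 (.thr 23 20 (.dbl 55 38 39)))) (.rp 55 (.thr 6 4 (.thr 22 52 (.thr 54 38 (.thr 20 23 (.thr 60 40 (.thr 41 3 (.thr 45 33 (.dbl 15 10 30)))))))) (.rp 22 (.thr 4 6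 (.thr 38 55 (.thr 36 39 (.thr 12 8 (.thr 48 24 (.thr 32 16 (.thr 40 44 (.dbl 20 52 60)))))))) (.rp 10 (.str 58 (.nv (.thr 4 6 (.thr 38 55 (.thr 52 22 (.dbl 36 20 39)))) (.nv (.thr 6 4 (.thr 22 52 (.thr 54 38 (.thr 20 23 (.thr 60 40 (.dbl 62 50 61)))))) (.nv (.thr 22 52 (.thr 23 20 (.thr 4 6 (.dbl 55 38 39)))) (.rp 52 (.thr 4 6 (.thr 55 38 (.thr 23 39 (.thr 22 20 (.thr 3 43 (.thr 41 60 (.thr 45 33 (.thr 15 11 (.thr 47 31 (.thr 46 44 (.dbl 12 8 29))))))))))) (.rp 38 (.thr 22 52 (.thr 20 23 (.thr 4 6 (.thr 60 40 (.thr 12 8 (.thr 28 44 (.thr 25 19 (.dbl 29 17 46)))))))) (.rp 22 (.thr 4 6 (.thr 38 55 (.thr 36 39 (.thr 12 8 (.thr 48 24 (.thr 32 16 (.thr 40 44 (.dbl 20 52 60)))))))) (.rp 20 (.thr 22 52 (.thr 4 6 (.thr 12 8 (.thr 29 46 (.thr 25 17 (.thr 28 19 (.thr 31 30 (.thr 15 47 (.dbl 13 14 49)))))))))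 (.rp 14 (.thr 22 52 (.thr 23 20 (.thr 55 39 (.dbl 4 6 38)))) (.rp 6 (.thr 22 52 (.thr 23 20 (.thr 55 39 (.thr 3 43 (.thr 41 60 (.thr 33 45 (.thr 48 18 (.thr 32 16 (.thr 35 34 (.dbl 38 4 44)))))))))) (.rp 4 (.thr 22 52 (.thr 20 23 (.thr 60 40 (.thr 41 3 (.thr 62 61 (.thr 45 33 (.thr 30 15 (.thr 46 14 (.thr 44 47 (.dbl 12 28 29)))))))))) .nd))))))))))) (.rp 4 (.thr 22 52 (.thr 20 23 (.thr 60 40 (.thr 41 3 (.thr 45 33 (.dbl 15 10 30)))))) .nd)))))))))) (.rp 16 (.str 29 (.nv (.thr 15 10 (.thr 31 47 (.thr 30 28 (.thr 45 60 (.thr 13 61 (.dbl 12 14 46)))))) (.nv (.thr 12 46 (.thr 4 8 (.thr 6 7 (.thr 38 55 (.thr 22 54 (.thr 23 20 (.dbl 3 9 43))))))) (.nv (.thr 37 53 (.thr 25 17 (.thr 12 46 (.thr 15 10 (.dbl 13 14 49))))) (.rp 46 (.thr 37 53 (.thr 25 17 (.thr 15 10 (.thr 31 47 (.thr 30 28 (.thr 45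 60 (.dbl 13 49 61))))))) (.rp 12 (.thr 37 53 (.thr 25 17 (.thr 15 10 (.thr 31 47 (.thr 26 48 (.thr 28 30 (.thr 19 22 (.dbl 27 23 24)))))))) .nd)))))) (.rp 15 (.str 4 (.nv (.thr 6 7 (.thr 12 8 (.thr 3 9 (.thr 23 43 (.thr 22 20 (.dbl 38 54 55)))))) (.nv (.thr 12 8 (.thr 53 37 (.thr 48 58 (.thr 36 24 (.thr 52 20 (.dbl 55 38 54)))))) (.nv (.thr 37 53 (.thr 7 6 (.thr 22 52 (.thr 23 20 (.dbl 55 38 39))))) (.rp 55 (.thr 53 37 (.thr 12 8 (.thr 48 58 (.thr 32 16 (.thr 36 24 (.thr 20 52 (.dbl 40 44 60))))))) (.rp 54 (.thr 7 6 (.thr 38 55 (.thr 37 53 (.thr 52 22 (.dbl 36 20 39))))) (.rp 39 (.str 27 (.nv (.thr 12 8 (.thr 6 7 (.thr 3 9 (.thr 38 55 (.thr 23 43 (.dbl 22 20 54)))))) (.nv (.thr 12 8 (.thr 29 46 (.thr 25 17 (.thr 24 26 (.thr 48 36 (.dbl 53 37 58)))))) (.rp 59 (.thr 7 6 (.thr 37 53 (.thr 22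 52 (.thr 23 20 (.thr 19 31 (.thr 25 28 (.thr 29 17 (.dbl 12 8 46)))))))) (.rp 38 (.thr 12 8 (.thr 6 7 (.thr 3 9 (.thr 23 43 (.thr 31 19 (.thr 26 16 (.thr 25 24 (.dbl 29 17 46)))))))) (.rp 25 (.thr 7 6 (.thr 37 53 (.thr 22 52 (.thr 23 20 (.thr 31 19 (.thr 26 16 (.thr 18 30 (.thr 3 43 (.thr 33 48 (.dbl 41 45 60)))))))))) (.rp 12 (.thr 7 6 (.thr 37 53 (.thr 22 52 (.thr 23 20 (.thr 31 19 (.thr 26 16 (.thr 18 30 (.thr 3 43 (.thr 33 48 (.dbl 41 45 60)))))))))) (.rp 10 (.thr 12 8 (.thr 29 46 (.thr 25 17 (.thr 26 24 (.thr 31 16 (.thr 19 23 (.dbl 28 22 30))))))) (.rp 8 (.thr 7 6 (.thr 37 53 (.thr 22 52 (.thr 23 20 (.thr 31 19 (.thr 26 16 (.thr 18 30 (.thr 3 43 (.thr 33 48 (.dbl 41 45 60)))))))))) .nd))))))))) (.rp 38 (.thr 53 37 (.thr 12 8 (.thr 48 58 (.thr 32 16 (.thr 36 24 (.thr 20 52 (.dbl 40 44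 60))))))) (.rp 27 (.str 39 (.nv (.thr 37 53 (.dbl 38 36 55)) (.nv (.thr 7 6 (.dbl 55 23 38)) (.rp 55 (.thr 7 6 (.thr 37 53 (.thr 36 38 (.dbl 52 20 22)))) (.rp 38 (.thr 7 6 (.thr 23 55 (.thr 37 53 (.dbl 22 20 52)))) .nd))))) (.rp 20 (.thr 6 7 (.thr 38 55 (.thr 22 54 (.thr 12 8 (.thr 29 46 (.thr 3 9 (.thr 60 41 (.thr 28 44 (.dbl 25 17 19))))))))) .nd)))))))))) (.rp 10 (.thr 37 53 (.str 7 (.nv (.thr 22 52 (.thr 23 20 (.thr 3 43 (.thr 15 11 (.thr 26 48 (.dbl 31 16 47)))))) (.nv (.thr 4 6 (.thr 38 55 (.thr 52 22 (.dbl 36 20 39)))) (.rp 58 (.str 26 (.nv (.thr 4 6 (.thr 22 52 (.thr 23 20 (.dbl 55 38 39)))) (.nv (.thr 16 31 (.dbl 48 15 32)) .nd))) (.rp 55 (.thr 4 6 (.thr 52 22 (.thr 36 20 (.thr 12 8 (.thr 48 24 (.thr 16 32 (.dbl 26 15 31))))))) (.rp 52 (.thr 4 6 (.thr 55 38 (.thr 23 39 (.thr 3 43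 (.thr 15 11 (.thr 26 48 (.dbl 31 16 47))))))) (.rp 36 (.thr 4 6 (.thr 22 52 (.thr 55 38 (.dbl 23 20 39)))) (.rp 26 (.str 58 (.nv (.thr 4 6 (.thr 38 55 (.thr 52 22 (.dbl 36 20 39)))) (.nv (.thr 6 4 (.thr 22 52 (.thr 54 38 (.thr 20 23 (.thr 60 40 (.dbl 62 50 61)))))) (.nv (.thr 22 52 (.thr 23 20 (.thr 4 6 (.dbl 55 38 39)))) (.rp 52 (.thr 4 6 (.thr 55 38 (.thr 23 39 (.thr 22 20 (.thr 3 43 (.thr 41 60 (.thr 45 33 (.thr 15 11 (.thr 47 31 (.thr 46 44 (.dbl 12 8 29))))))))))) (.rp 38 (.thr 22 52 (.thr 20 23 (.thr 4 6 (.thr 60 40 (.thr 12 8 (.thr 28 44 (.thr 25 19 (.dbl 29 17 46)))))))) (.rp 22 (.thr 4 6 (.thr 38 55 (.thr 36 39 (.thr 12 8 (.thr 48 24 (.thr 32 16 (.thr 40 44 (.dbl 20 52 60)))))))) (.rp 20 (.thr 22 52 (.thr 4 6 (.thr 12 8 (.thr 29 46 (.thr 25 17 (.thr 28 19 (.thr 31 30 (.thr 15 47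 (.dbl 13 14 49))))))))) (.rp 14 (.thr 22 52 (.thr 23 20 (.thr 55 39 (.dbl 4 6 38)))) (.rp 6 (.thr 22 52 (.thr 23 20 (.thr 55 39 (.thr 3 43 (.thr 41 60 (.thr 33 45 (.thr 48 18 (.thr 32 16 (.thr 35 34 (.dbl 38 4 44)))))))))) (.rp 4 (.thr 22 52 (.thr 20 23 (.thr 60 40 (.thr 41 3 (.thr 62 61 (.thr 45 33 (.thr 30 15 (.thr 46 14 (.thr 44 47 (.dbl 12 28 29)))))))))) .nd))))))))))) (.rp 22 (.thr 4 6 (.thr 38 55 (.thr 36 39 (.thr 12 8 (.thr 48 24 (.thr 16 32 (.dbl 26 15 31))))))) (.rp 20 (.thr 4 6 (.thr 38 55 (.thr 36 39 (.thr 12 8 (.thr 48 24 (.thr 16 32 (.dbl 26 15 31))))))) (.rp 4 (.thr 22 52 (.thr 20 23 (.thr 60 40 (.thr 41 3 (.thr 45 33 (.thr 15 30 (.thr 31 47 (.dbl 26 16 48)))))))) .nd)))))))))))) .nd))))))))))))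

theorem w137 : WinAt (9223372036856872961, 2256197860196354) :=
  chF (K := []) kn c137 9223372036856872961 2256197860196354 42
    [] (by decide +kernel) (by decide +kernel)

/-- A certificate. -/
noncomputable def c138 : Ct := (.str 48 (.nv (.thr 16 32 (.thr 26 31 (.thr 15 37 (.dbl 10 5 58)))) (.nv (.thr 32 16 (.thr 37 47 (.thr 15 26 (.dbl 5 10 53)))) (.rp 37 (.thr 16 32 (.str 22 (.nv (.thr 20 23 (.thr 24 28 (.thr 12 36 (.thr 8 4 (.dbl 40 56 60))))) (.nv (.thr 2 62 (.thr 26 31 (.thr 10 58 (.thr 14 6 (.thr 50 38 (.dbl 18 30 34)))))) (.nv (.thr 20 23 (.thr 28 24 (.thr 25 19 (.thr 31 26 (.dbl 29 17 30))))) .nd))))) (.rp 32 (.str 38 (.nv (.thr 4 55 (.thr 12 8 (.thr 36 24 (.thr 37 39 (.thr 15 26 (.dbl 5 10 53)))))) (.nv (.thr 34 46 (.thr 51 17 (.thr 12 25 (.dbl 4 8 55)))) (.rp 55 (.thr 34 46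 (.thr 51 17 (.thr 12 25 (.thr 36 24 (.thr 37 39 (.thr 26 15 (.dbl 50 14 49))))))) (.rp 51 (.thr 55 4 (.str 22 (.nv (.thr 20 23 (.thr 2 62 (.thr 6 54 (.thr 10 14 (.thr 15 5 (.dbl 26 37 58)))))) (.nv (.thr 2 62 (.thr 20 23 (.thr 60 40 (.thr 3 41 (.thr 18 33 (.dbl 34 46 50)))))) (.nv (.thr 46 34 (.thr 62 2 (.thr 14 30 (.thr 50 26 (.dbl 54 6 58))))) (.rp 62 (.thr 20 23 (.thr 34 46 (.thr 60 40 (.thr 3 41 (.thr 18 33 (.thr 50 2 (.dbl 26 14 30))))))) (.rp 50 (.thr 20 23 (.thr 62 2 (.thr 60 40 (.thr 3 41 (.thr 18 33 (.thr 30 26 (.dbl 46 14 34))))))) (.rp 46 (.thr 20 23 (.thr 60 40 (.thr 3 41 (.thr 18 33 (.thr 26 30 (.thr 10 58 (.dbl 15 5 37))))))) (.rp 20 (.str 36 (.nv (.thr 2 62 (.thr 6 54 (.thr 14 10 (.thr 34 46 (.dbl 50 18 26))))) (.nv (.thr 37 39 (.thr 15 26 (.dbl 5 10 53))) (.rp 26 (.thr 37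 39 (.thr 6 54 (.thr 5 53 (.thr 2 62 (.dbl 10 14 15))))) (.rp 10 (.thr 37 39 (.thr 2 62 (.thr 34 46 (.thr 50 18 (.dbl 26 14 15))))) .nd))))) (.rp 2 (.thr 20 23 (.thr 60 40 (.thr 3 41 (.thr 18 33 (.thr 26 30 (.thr 10 58 (.dbl 15 5 37))))))) .nd)))))))))) (.rp 25 (.thr 4 55 (.thr 34 46 (.thr 51 17 (.thr 12 8 (.thr 36 24 (.thr 37 39 (.thr 26 15 (.dbl 50 14 49)))))))) (.rp 12 (.str 50 (.nv (.thr 26 14 (.thr 10 58 (.dbl 15 5 37))) (.nv (.thr 51 49 (.dbl 34 17 46)) (.rp 46 (.str 29 (.nv (.thr 26 14 (.thr 10 58 (.dbl 15 5 37))) (.nv (.thr 17 25 (.dbl 51 34 49)) .nd))) (.rp 29 (.thr 46 34 (.thr 26 14 (.thr 10 58 (.dbl 15 5 37)))) .nd))))) (.rp 8 (.thr 34 46 (.thr 51 17 (.thr 12 25 (.thr 36 24 (.thr 37 39 (.thr 5 53 (.dbl 15 10 26))))))) (.rp 4 (.thr 34 46 (.thr 51 17 (.thr 12 25 (.thr 36 24 (.thr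 37 39 (.thr 5 53 (.dbl 15 10 26))))))) .nd))))))))) (.rp 26 (.str 51 (.nv (.thr 32 16 (.thr 34 17 (.thr 33 35 (.thr 18 3 (.dbl 50 2 49))))) (.nv (.thr 17 34 (.thr 25 29 (.thr 8 59 (.dbl 12 4 38)))) (.rp 34 (.thr 49 50 (.thr 32 16 (.thr 37 47 (.thr 25 13 (.thr 8 59 (.dbl 12 4 38)))))) (.rp 17 (.thr 49 50 (.thr 32 16 (.thr 37 47 (.thr 25 13 (.thr 8 59 (.dbl 12 4 38)))))) .nd))))) (.rp 16 (.str 38 (.nv (.thr 34 46 (.thr 51 17 (.thr 12 25 (.dbl 4 8 55)))) (.nv (.thr 4 55 (.thr 12 8 (.thr 36 24 (.thr 37 39 (.thr 15 26 (.dbl 5 10 53)))))) (.nv (.thr 4 55 (.thr 34 46 (.thr 12 8 (.dbl 51 17 25)))) (.rp 55 (.thr 34 46 (.thr 51 17 (.thr 12 25 (.thr 36 24 (.thr 37 39 (.thr 26 15 (.dbl 50 14 49))))))) (.rp 51 (.thr 55 4 (.str 37 (.nv (.thr 5 53 (.dbl 15 10 26)) (.rp 53 (.thr 36 39 (.thr 32 47 (.thr 34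 46 (.thr 35 33 (.dbl 44 40 41))))) (.rp 36 (.str 20 (.nv (.thr 5 53 (.dbl 15 10 26)) (.rp 53 (.thr 23 22 (.thr 39 7 (.thr 40 60 (.thr 47 32 (.dbl 43 35 41))))) (.rp 26 (.thr 23 22 (.thr 39 7 (.thr 40 60 (.thr 47 32 (.dbl 43 35 41))))) (.rp 15 (.thr 23 22 (.thr 39 7 (.thr 40 60 (.thr 47 32 (.dbl 43 35 41))))) (.rp 10 (.thr 23 22 (.thr 39 7 (.thr 40 60 (.thr 47 32 (.dbl 43 35 41))))) (.rp 5 (.thr 22 23 (.thr 6 54 (.thr 2 62 (.thr 26 15 (.dbl 10 14 58))))) .nd))))))) (.rp 26 (.thr 36 39 (.thr 32 47 (.thr 34 46 (.thr 35 33 (.dbl 44 40 41))))) (.rp 20 (.thr 36 39 (.thr 5 53 (.dbl 15 10 26))) (.rp 15 (.thr 47 32 (.thr 46 34 (.thr 44 45 (.thr 35 41 (.dbl 39 36 43))))) (.rp 10 (.thr 36 39 (.thr 32 47 (.thr 34 46 (.thr 35 33 (.dbl 44 40 41))))) (.rp 5 (.thr 36 39 (.thr 32 47 (.thr 34 46 (.thr 35 33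 (.dbl 44 40 41))))) .nd)))))))))) (.rp 25 (.thr 4 55 (.thr 34 46 (.thr 51 17 (.thr 12 8 (.thr 36 24 (.thr 37 39 (.thr 26 15 (.dbl 50 14 49)))))))) (.rp 12 (.str 50 (.nv (.thr 26 14 (.thr 10 58 (.dbl 15 5 37))) (.nv (.thr 51 49 (.dbl 34 17 46)) (.rp 46 (.str 29 (.nv (.thr 26 14 (.thr 10 58 (.dbl 15 5 37))) (.nv (.thr 17 25 (.dbl 51 34 49)) .nd))) (.rp 29 (.thr 46 34 (.thr 26 14 (.thr 10 58 (.dbl 15 5 37)))) .nd))))) (.rp 8 (.thr 34 46 (.thr 51 17 (.thr 12 25 (.thr 36 24 (.thr 37 39 (.thr 5 53 (.dbl 15 10 26))))))) (.rp 4 (.thr 34 46 (.thr 51 17 (.thr 12 25 (.thr 36 24 (.thr 37 39 (.thr 5 53 (.dbl 15 10 26))))))) .nd)))))))))) (.rp 15 (.thr 32 16 (.str 34 (.nv (.thr 47 37 (.thr 35 33 (.thr 38 46 (.thr 41 44 (.dbl 43 39 40))))) (.nv (.thr 38 46 (.thr 4 55 (.thr 12 8 (.thr 36 24 (.dbl 37 39 47)))))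 (.nv (.thr 51 17 (.thr 50 49 (.thr 33 35 (.dbl 18 2 3)))) (.rp 47 (.str 31 (.nv (.thr 38 46 (.thr 4 55 (.thr 12 8 (.dbl 51 17 25)))) (.nv (.thr 51 17 (.thr 50 49 (.thr 33 35 (.dbl 18 2 3)))) (.rp 51 (.thr 38 46 (.thr 35 33 (.thr 44 41 (.thr 36 40 (.thr 12 24 (.dbl 4 8 55)))))) (.rp 17 (.thr 38 46 (.thr 4 55 (.thr 12 8 (.thr 51 25 (.thr 50 49 (.thr 33 35 (.dbl 18 2 3))))))) .nd))))) .nd)))))) (.rp 10 (.str 51 (.nv (.thr 32 16 (.thr 34 17 (.thr 33 35 (.thr 18 3 (.dbl 50 2 49))))) (.nv (.thr 17 34 (.thr 25 29 (.thr 12 38 (.dbl 8 4 59)))) (.rp 34 (.thr 49 50 (.thr 32 16 (.thr 37 47 (.thr 25 13 (.thr 8 59 (.dbl 12 4 38)))))) (.rp 17 (.thr 49 50 (.thr 32 16 (.thr 37 47 (.thr 25 13 (.thr 8 59 (.dbl 12 4 38)))))) .nd))))) (.rp 5 (.thr 32 16 (.thr 37 47 (.thr 15 26 (.str 13 (.nv (.thr 25 49 (.thr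 8 59 (.dbl 12 4 14))) (.nv (.thr 12 14 (.thr 4 8 (.thr 38 55 (.dbl 36 24 39)))) (.nv (.thr 12 14 (.thr 25 49 (.thr 17 29 (.dbl 51 34 38)))) (.rp 51 (.thr 25 49 (.thr 12 14 (.dbl 8 4 59))) (.rp 14 (.thr 25 49 (.thr 17 29 (.thr 8 59 (.thr 12 4 (.dbl 51 34 38))))) (.rp 12 (.thr 49 25 (.thr 51 50 (.thr 34 17 (.thr 33 35 (.thr 45 41 (.thr 29 61 (.thr 38 46 (.dbl 39 27 36)))))))) .nd)))))))))) .nd))))))))))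

theorem w138 : WinAt (4398048608257, 9227875636482146306) :=
  chF (K := []) kn c138 4398048608257 9227875636482146306 63
    [] (by decide +kernel) (by decide +kernel)

/-- A certificate. -/
noncomputable def c139 : Ct := (.str 29 (.nv (.thr 12 46 (.thr 4 8 (.thr 38 55 (.dbl 25 17 51)))) (.nv (.thr 25 17 (.thr 12 46 (.thr 38 51 (.dbl 4 8 55)))) (.rp 55 (.str 45 (.nv (.thr 12 46 (.thr 13 61 (.thr 15 14 (.thr 25 17 (.thr 31 47 (.thr 26 16 (.dbl 37 48 49))))))) (.nv (.thr 46 12 (.thr 47 44 (.thr 15 31 (.thr 60 30 (.dbl 61 13 62))))) (.rp 62 (.thr 13 61 (.thr 12 46 (.thr 15 14 (.thr 30 60 (.dbl 31 28 47))))) (.rp 61 (.thr 25 17 (.thr 46 12 (.thr 47 44 (.thr 31 15 (.thr 16 26 (.thr 28 30 (.thr 20 24 (.dbl 22 19 23)))))))) (.rp 54 (.str 52 (.nv (.thr 12 46 (.thr 4 8 (.thr 20 36 (.thr 60 40 (.thr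 30 15 (.dbl 28 31 44)))))) (.nv (.thr 12 46 (.thr 4 8 (.thr 13 61 (.thr 20 36 (.thr 22 23 (.thr 25 17 (.dbl 37 7 49))))))) (.nv (.thr 46 12 (.thr 47 44 (.thr 15 31 (.thr 60 30 (.dbl 61 13 62))))) (.rp 46 (.thr 61 13 (.thr 60 62 (.thr 48 56 (.thr 16 32 (.thr 31 26 (.dbl 15 30 47)))))) (.rp 12 (.thr 61 13 (.thr 60 62 (.thr 48 56 (.thr 16 32 (.thr 31 26 (.dbl 15 30 47)))))) .nd)))))) (.rp 52 (.str 54 (.nv (.thr 17 25 (.thr 46 12 (.thr 47 44 (.thr 15 31 (.thr 51 34 (.dbl 60 30 57)))))) (.nv (.thr 17 25 (.thr 61 13 (.thr 60 62 (.dbl 51 34 57)))) (.nv (.thr 46 12 (.thr 47 44 (.thr 15 31 (.thr 60 30 (.dbl 61 13 62))))) (.rp 60 (.thr 12 46 (.thr 13 61 (.thr 15 14 (.thr 31 47 (.thr 26 16 (.thr 25 17 (.dbl 37 48 49))))))) .nd))))) (.rp 47 (.thr 61 13 (.thr 12 46 (.thr 60 62 (.thr 28 44 (.dbl 30 15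 31))))) (.rp 46 (.thr 61 13 (.thr 25 17 (.thr 60 62 (.thr 20 40 (.thr 30 15 (.thr 28 31 (.dbl 22 19 23))))))) (.rp 31 (.thr 61 13 (.thr 25 17 (.thr 12 46 (.thr 60 62 (.thr 28 44 (.thr 20 40 (.dbl 22 19 23))))))) (.rp 30 (.thr 61 13 (.thr 25 17 (.thr 60 62 (.thr 20 40 (.thr 22 23 (.thr 28 19 (.dbl 12 44 46))))))) (.rp 15 (.thr 61 13 (.thr 25 17 (.thr 12 46 (.thr 60 62 (.thr 28 44 (.thr 20 40 (.dbl 22 19 23))))))) (.rp 13 (.thr 17 25 (.thr 46 12 (.thr 47 44 (.thr 15 31 (.thr 60 30 (.thr 20 40 (.thr 51 34 (.thr 39 27 (.thr 43 35 (.dbl 23 3 22)))))))))) (.rp 12 (.thr 61 13 (.thr 25 17 (.thr 60 62 (.thr 20 40 (.thr 22 23 (.thr 28 19 (.dbl 30 15 31))))))) .nd)))))))))))))) (.rp 51 (.str 45 (.nv (.thr 61 13 (.thr 60 62 (.thr 15 30 (.thr 47 31 (.dbl 46 12 44))))) (.nv (.thr 13 61 (.thr 12 46 (.thr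 15 14 (.thr 30 60 (.dbl 31 28 47))))) (.nv (.thr 46 12 (.thr 47 44 (.thr 15 31 (.thr 60 30 (.dbl 61 13 62))))) (.rp 61 (.thr 25 17 (.thr 46 12 (.thr 47 44 (.thr 31 15 (.thr 16 26 (.thr 28 30 (.thr 20 24 (.dbl 22 19 23)))))))) (.rp 60 (.thr 13 61 (.thr 25 17 (.thr 12 46 (.thr 15 14 (.thr 31 47 (.thr 26 16 (.dbl 37 48 49))))))) (.rp 47 (.thr 61 13 (.thr 12 46 (.thr 60 62 (.thr 28 44 (.dbl 30 15 31))))) (.rp 46 (.thr 61 13 (.thr 25 17 (.thr 60 62 (.thr 20 40 (.thr 30 15 (.thr 28 31 (.dbl 22 19 23))))))) (.rp 31 (.thr 61 13 (.thr 25 17 (.thr 12 46 (.thr 60 62 (.thr 28 44 (.thr 20 40 (.dbl 22 19 23))))))) (.rp 30 (.thr 61 13 (.thr 25 17 (.thr 60 62 (.thr 20 40 (.thr 22 23 (.thr 28 19 (.dbl 12 44 46))))))) (.rp 15 (.thr 61 13 (.thr 25 17 (.thr 12 46 (.thr 60 62 (.thr 28 44 (.thr 20 40 (.dbl 22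 19 23))))))) (.rp 13 (.thr 46 12 (.thr 47 44 (.thr 15 31 (.thr 60 30 (.thr 20 40 (.thr 22 23 (.thr 41 3 (.thr 37 33 (.thr 48 26 (.dbl 52 7 56)))))))))) (.rp 12 (.thr 61 13 (.thr 25 17 (.thr 60 62 (.thr 20 40 (.thr 22 23 (.thr 28 19 (.dbl 30 15 31))))))) .nd))))))))))))) (.rp 46 (.str 31 (.nv (.thr 16 26 (.thr 25 17 (.thr 28 30 (.thr 22 19 (.dbl 20 23 24))))) (.nv (.thr 15 47 (.thr 25 17 (.thr 26 16 (.thr 27 24 (.thr 51 39 (.thr 38 12 (.dbl 55 4 59))))))) (.nv (.thr 15 47 (.thr 16 26 (.thr 17 25 (.thr 19 18 (.thr 27 23 (.dbl 51 34 39)))))) (.nv (.thr 26 16 (.thr 25 17 (.thr 27 24 (.thr 19 23 (.dbl 28 22 30))))) (.rp 38 (.str 34 (.nv (.dbl 17 25 51) (.rp 51 (.thr 28 30 (.thr 16 26 (.thr 20 24 (.thr 22 23 (.dbl 25 17 19))))) (.rp 25 (.thr 15 47 (.thr 30 28 (.thr 26 16 (.thr 22 18 (.thr 20 23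 (.dbl 60 40 45)))))) (.rp 17 (.thr 15 47 (.thr 30 28 (.thr 45 60 (.thr 13 61 (.thr 10 5 (.thr 26 16 (.thr 18 22 (.thr 2 50 (.dbl 14 6 12))))))))) .nd))))) (.rp 34 (.str 38 (.nv (.thr 15 47 (.thr 25 17 (.thr 12 51 (.thr 14 13 (.dbl 26 16 50))))) (.nv (.thr 4 55 (.thr 15 47 (.thr 26 16 (.thr 14 50 (.dbl 12 8 13))))) (.nv (.thr 55 4 (.thr 51 59 (.dbl 25 12 17))) (.rp 12 (.thr 28 30 (.thr 16 26 (.thr 20 24 (.thr 22 23 (.dbl 25 17 19))))) .nd))))) (.rp 26 (.thr 30 28 (.thr 25 17 (.thr 15 47 (.thr 45 60 (.thr 13 61 (.thr 12 14 (.thr 4 8 (.dbl 38 51 55)))))))) (.rp 25 (.thr 30 28 (.thr 26 16 (.thr 22 18 (.thr 20 23 (.thr 60 40 (.dbl 15 45 47)))))) (.rp 24 (.thr 30 28 (.thr 25 17 (.thr 15 47 (.thr 45 60 (.thr 13 61 (.thr 12 14 (.thr 4 8 (.dbl 38 51 55)))))))) (.rp 19 (.thr 30 28 (.thr 26 16 (.thr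 22 18 (.thr 17 25 (.thr 20 23 (.thr 60 40 (.dbl 15 45 47))))))) (.rp 17 (.thr 28 30 (.thr 16 26 (.thr 20 24 (.thr 22 23 (.thr 25 19 (.thr 60 40 (.thr 12 44 (.thr 38 51 (.dbl 4 8 55))))))))) (.rp 16 (.thr 30 28 (.thr 25 17 (.thr 15 47 (.thr 45 60 (.thr 13 61 (.thr 12 14 (.thr 4 8 (.dbl 38 51 55)))))))) .nd))))))))))))) (.rp 38 (.str 45 (.nv (.thr 61 13 (.thr 60 62 (.thr 15 30 (.thr 47 31 (.dbl 46 12 44))))) (.nv (.thr 13 61 (.thr 17 25 (.thr 12 46 (.thr 34 51 (.thr 15 14 (.thr 30 60 (.dbl 31 28 47))))))) (.nv (.thr 25 17 (.thr 61 13 (.thr 60 62 (.thr 20 40 (.thr 22 23 (.thr 28 19 (.dbl 12 44 46))))))) (.nv (.thr 46 12 (.thr 47 44 (.thr 15 31 (.thr 60 30 (.dbl 61 13 62))))) (.rp 61 (.thr 25 17 (.thr 46 12 (.thr 47 44 (.thr 31 15 (.thr 16 26 (.thr 28 30 (.thr 20 24 (.dbl 22 19 23)))))))) (.rp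 60 (.thr 13 61 (.thr 17 25 (.thr 12 46 (.thr 34 51 (.thr 8 4 (.thr 15 14 (.thr 31 47 (.thr 10 5 (.thr 11 9 (.thr 26 16 (.thr 41 56 (.dbl 37 33 48)))))))))))) (.rp 46 (.str 34 (.nv (.dbl 17 25 51) (.rp 51 (.thr 61 13 (.thr 60 62 (.thr 30 15 (.thr 28 31 (.thr 20 40 (.thr 22 23 (.dbl 25 17 19))))))) (.rp 25 (.thr 61 13 (.thr 60 62 (.thr 30 15 (.thr 31 28 (.thr 20 40 (.thr 22 23 (.dbl 26 16 18))))))) (.rp 17 (.thr 61 13 (.thr 60 62 (.thr 30 15 (.thr 31 28 (.thr 20 40 (.thr 22 23 (.dbl 26 16 18))))))) .nd))))) (.rp 31 (.thr 61 13 (.thr 60 62 (.thr 20 40 (.thr 15 30 (.thr 22 23 (.thr 41 3 (.thr 37 33 (.thr 48 26 (.dbl 52 7 56))))))))) (.rp 13 (.thr 17 25 (.thr 46 12 (.thr 51 34 (.thr 47 44 (.thr 15 31 (.thr 39 27 (.thr 60 30 (.thr 20 40 (.thr 23 22 (.dbl 43 3 35)))))))))) (.rp 12 (.thr 61 13 (.thr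 25 17 (.thr 60 62 (.thr 20 40 (.thr 22 23 (.thr 28 19 (.dbl 30 15 31))))))) .nd))))))))))) (.rp 25 (.str 45 (.nv (.thr 12 46 (.thr 61 13 (.thr 60 62 (.thr 20 40 (.thr 28 44 (.thr 16 24 (.dbl 31 26 30))))))) (.nv (.thr 13 61 (.thr 12 46 (.thr 15 14 (.thr 30 60 (.dbl 31 28 47))))) (.nv (.thr 61 13 (.thr 60 62 (.thr 15 30 (.thr 47 31 (.dbl 46 12 44))))) (.nv (.thr 46 12 (.thr 47 44 (.thr 15 31 (.thr 60 30 (.dbl 61 13 62))))) (.rp 61 (.thr 46 12 (.thr 47 44 (.thr 15 31 (.thr 60 30 (.thr 20 40 (.thr 23 22 (.thr 43 3 (.thr 39 35 (.thr 51 27 (.dbl 55 7 59)))))))))) (.rp 60 (.thr 13 61 (.thr 12 46 (.thr 8 4 (.thr 15 14 (.thr 31 47 (.thr 10 5 (.thr 11 9 (.thr 26 16 (.thr 41 56 (.dbl 37 33 48)))))))))) (.rp 59 (.str 8 (.nv (.dbl 12 4 46) (.rp 46 (.thr 61 13 (.thr 12 4 (.thr 60 62 (.thr 28 44 (.dbl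 30 15 31))))) (.rp 12 (.thr 61 13 (.thr 60 62 (.thr 40 20 (.thr 56 24 (.thr 48 52 (.thr 16 32 (.thr 26 31 (.dbl 15 30 37)))))))) (.rp 4 (.thr 61 13 (.thr 12 46 (.thr 60 62 (.thr 28 44 (.dbl 30 15 31))))) .nd))))) (.rp 46 (.thr 61 13 (.thr 60 62 (.thr 20 40 (.thr 30 15 (.thr 31 28 (.thr 26 16 (.dbl 22 18 23))))))) (.rp 31 (.thr 61 13 (.thr 12 46 (.thr 8 4 (.thr 60 62 (.thr 44 28 (.thr 40 20 (.thr 24 56 (.dbl 36 32 48)))))))) (.rp 30 (.thr 61 13 (.thr 60 62 (.thr 20 40 (.thr 22 23 (.thr 41 3 (.thr 37 33 (.thr 52 7 (.thr 4 36 (.dbl 12 8 46))))))))) (.rp 13 (.thr 46 12 (.thr 47 44 (.thr 15 31 (.thr 60 30 (.thr 20 40 (.thr 23 22 (.thr 43 3 (.thr 39 35 (.thr 51 27 (.dbl 55 7 59)))))))))) (.rp 12 (.thr 61 13 (.thr 60 62 (.thr 20 40 (.thr 15 30 (.thr 31 47 (.thr 26 16 (.thr 37 48 (.thr 41 33 (.dbl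 22 3 23))))))))) (.rp 8 (.str 59 (.nv (.thr 61 13 (.thr 60 62 (.thr 15 30 (.thr 47 31 (.dbl 46 12 44))))) (.nv (.thr 13 61 (.thr 12 46 (.thr 15 14 (.thr 30 60 (.dbl 31 28 47))))) (.nv (.thr 46 12 (.thr 47 44 (.thr 15 31 (.thr 60 30 (.dbl 61 13 62))))) (.rp 61 (.thr 55 51 (.thr 46 12 (.thr 38 4 (.thr 47 44 (.thr 31 15 (.thr 26 16 (.thr 14 50 (.dbl 30 28 62)))))))) (.rp 60 (.thr 13 61 (.thr 51 55 (.thr 12 46 (.thr 15 14 (.thr 31 47 (.thr 27 39 (.thr 43 11 (.dbl 23 3 19)))))))) (.rp 47 (.thr 61 13 (.thr 12 46 (.thr 60 62 (.thr 28 44 (.dbl 30 15 31))))) (.rp 46 (.thr 61 13 (.thr 60 62 (.thr 20 40 (.thr 30 15 (.thr 31 28 (.thr 26 16 (.dbl 22 18 23))))))) (.rp 31 (.thr 61 13 (.thr 51 55 (.thr 60 62 (.thr 20 40 (.thr 15 30 (.thr 27 39 (.thr 43 11 (.dbl 23 3 22)))))))) (.rp 30 (.thr 61 13 (.thr 55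 51 (.thr 46 12 (.thr 38 4 (.thr 44 47 (.thr 60 62 (.thr 20 40 (.thr 41 35 (.dbl 22 3 23))))))))) (.rp 15 (.thr 61 13 (.thr 55 51 (.thr 12 46 (.thr 60 62 (.thr 44 28 (.thr 20 40 (.thr 38 4 (.thr 41 35 (.dbl 22 3 23))))))))) (.rp 13 (.thr 51 55 (.thr 46 12 (.thr 47 44 (.thr 15 31 (.thr 27 39 (.thr 43 11 (.thr 23 3 (.thr 60 30 (.dbl 20 22 40))))))))) (.rp 12 (.thr 61 13 (.thr 51 55 (.thr 60 62 (.thr 20 40 (.thr 15 30 (.thr 31 47 (.thr 27 39 (.dbl 23 19 22)))))))) .nd))))))))))))) .nd)))))))))))))) (.rp 17 (.str 45 (.nv (.thr 12 46 (.thr 61 13 (.thr 60 62 (.thr 20 40 (.thr 28 44 (.thr 16 24 (.dbl 31 26 30))))))) (.nv (.thr 13 61 (.thr 12 46 (.thr 15 14 (.thr 30 60 (.dbl 31 28 47))))) (.nv (.thr 46 12 (.thr 47 44 (.thr 15 31 (.thr 60 30 (.dbl 61 13 62))))) (.rp 61 (.thr 46 12 (.thr 47 44 (.thr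 15 31 (.thr 60 30 (.thr 20 40 (.thr 23 22 (.thr 43 3 (.thr 39 35 (.thr 51 27 (.dbl 55 7 59)))))))))) (.rp 60 (.thr 13 61 (.thr 12 46 (.thr 4 8 (.thr 15 14 (.thr 31 47 (.thr 26 16 (.thr 37 48 (.thr 38 55 (.dbl 25 49 51))))))))) (.rp 49 (.str 33 (.nv (.thr 61 13 (.thr 60 62 (.thr 20 40 (.thr 22 23 (.dbl 41 3 37))))) (.nv (.thr 46 12 (.thr 47 44 (.thr 15 31 (.thr 60 30 (.dbl 61 13 62))))) (.rp 62 (.thr 41 37 (.thr 46 12 (.thr 47 44 (.thr 15 31 (.thr 60 30 (.thr 20 40 (.dbl 22 3 23))))))) (.rp 61 (.str 57 (.nv (.thr 12 46 (.thr 4 8 (.thr 38 55 (.thr 25 51 (.dbl 41 9 37))))) (.nv (.thr 46 12 (.thr 47 44 (.thr 15 31 (.thr 60 30 (.thr 20 40 (.thr 22 23 (.dbl 41 3 37))))))) (.nv (.thr 41 37 (.thr 25 9 (.thr 12 46 (.thr 38 51 (.dbl 4 8 55))))) (.rp 46 (.str 38 (.nv (.thr 41 37 (.thr 25 9 (.thr 35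 44 (.thr 51 12 (.thr 3 19 (.dbl 60 22 54)))))) (.nv (.thr 55 4 (.thr 51 59 (.thr 60 54 (.thr 30 15 (.thr 28 31 (.dbl 12 25 44)))))) (.nv (.thr 55 4 (.thr 51 59 (.thr 25 12 (.dbl 41 9 37)))) (.rp 51 (.thr 37 41 (.thr 36 39 (.thr 4 55 (.thr 12 8 (.thr 48 24 (.thr 16 32 (.dbl 26 15 31))))))) (.rp 25 (.thr 37 41 (.thr 39 36 (.thr 55 4 (.thr 23 7 (.thr 43 3 (.thr 47 35 (.thr 15 31 (.dbl 51 27 59)))))))) (.rp 12 (.thr 37 41 (.thr 39 36 (.thr 55 4 (.thr 51 59 (.thr 15 27 (.dbl 60 30 54)))))) .nd))))))) (.rp 41 (.thr 46 12 (.thr 47 44 (.thr 15 31 (.thr 60 30 (.thr 51 54 (.thr 39 27 (.thr 55 59 (.thr 23 7 (.dbl 20 22 40))))))))) (.rp 37 (.thr 12 46 (.thr 4 8 (.thr 38 55 (.thr 25 51 (.thr 41 9 (.thr 44 35 (.thr 60 28 (.thr 20 40 (.dbl 22 3 23))))))))) (.rp 12 (.str 60 (.nv (.thr 15 30 (.thr 31 47 (.thr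 26 16 (.dbl 37 41 48)))) (.nv (.thr 20 40 (.thr 22 23 (.dbl 41 3 37))) (.rp 41 (.thr 15 30 (.thr 31 47 (.thr 51 54 (.thr 27 39 (.thr 23 19 (.dbl 20 22 40)))))) (.rp 37 (.thr 20 40 (.thr 30 15 (.thr 31 28 (.thr 26 16 (.dbl 22 18 23))))) .nd))))) .nd)))))))) (.rp 60 (.thr 37 41 (.thr 12 46 (.thr 4 8 (.thr 38 55 (.thr 36 39 (.thr 48 24 (.thr 16 32 (.dbl 26 15 31)))))))) (.rp 13 (.thr 46 12 (.thr 47 44 (.thr 15 31 (.thr 60 30 (.thr 20 40 (.thr 22 23 (.dbl 41 3 37))))))) .nd))))))) (.rp 46 (.thr 61 13 (.thr 60 62 (.thr 20 40 (.thr 30 15 (.thr 31 28 (.thr 26 16 (.dbl 22 18 23))))))) (.rp 33 (.str 49 (.nv (.thr 12 46 (.thr 4 8 (.thr 13 61 (.thr 38 55 (.dbl 25 37 51))))) (.nv (.thr 46 12 (.thr 47 44 (.thr 15 31 (.thr 60 30 (.dbl 61 13 62))))) (.rp 61 (.thr 12 46 (.thr 4 8 (.thr 38 55 (.thr 25 51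 (.thr 13 37 (.thr 15 14 (.thr 30 60 (.dbl 31 28 47)))))))) (.rp 46 (.thr 61 13 (.thr 60 62 (.thr 20 40 (.thr 30 15 (.thr 31 28 (.thr 26 16 (.dbl 22 18 23))))))) (.rp 13 (.thr 46 12 (.thr 47 44 (.thr 15 31 (.thr 60 30 (.thr 20 40 (.thr 23 22 (.thr 43 3 (.thr 39 35 (.thr 51 27 (.dbl 55 7 59)))))))))) (.rp 12 (.thr 61 13 (.thr 60 62 (.thr 20 40 (.thr 15 30 (.thr 31 47 (.thr 26 16 (.thr 37 48 (.thr 22 23 (.thr 7 52 (.dbl 3 11 41)))))))))) .nd))))))) (.rp 31 (.thr 61 13 (.thr 12 46 (.thr 8 4 (.thr 60 62 (.thr 44 28 (.thr 40 20 (.thr 24 56 (.dbl 36 32 48)))))))) (.rp 30 (.thr 13 61 (.thr 12 46 (.thr 4 8 (.thr 14 15 (.thr 38 55 (.thr 25 51 (.thr 26 50 (.thr 16 31 (.thr 48 32 (.dbl 24 27 36)))))))))) (.rp 28 (.thr 61 13 (.thr 46 12 (.thr 47 44 (.thr 60 62 (.dbl 15 30 31))))) (.rp 13 (.thr 46 12 (.thr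 47 44 (.thr 15 31 (.thr 60 30 (.thr 20 40 (.thr 23 22 (.thr 43 3 (.thr 39 35 (.thr 51 27 (.dbl 55 7 59)))))))))) (.rp 12 (.thr 61 13 (.thr 60 62 (.thr 20 40 (.thr 15 30 (.thr 31 47 (.thr 26 16 (.thr 37 48 (.thr 22 23 (.dbl 41 3 33))))))))) .nd)))))))))))))) (.rp 12 (.str 15 (.nv (.thr 31 47 (.thr 26 16 (.thr 30 28 (.thr 60 45 (.thr 20 40 (.dbl 22 18 23)))))) (.nv (.thr 17 25 (.thr 51 34 (.thr 27 39 (.thr 59 55 (.thr 43 11 (.thr 23 3 (.dbl 31 19 47))))))) (.nv (.thr 25 17 (.thr 31 47 (.thr 28 30 (.thr 22 19 (.thr 20 23 (.dbl 16 24 26)))))) (.rp 47 (.thr 17 25 (.thr 51 34 (.thr 59 55 (.thr 27 39 (.thr 43 11 (.thr 23 3 (.thr 31 19 (.thr 30 28 (.thr 22 20 (.dbl 26 16 18)))))))))) (.rp 31 (.thr 17 25 (.thr 51 34 (.thr 59 55 (.thr 27 39 (.thr 43 11 (.thr 23 3 (.thr 20 22 (.thr 60 40 (.thr 45 30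 (.dbl 61 13 62)))))))))) (.rp 23 (.thr 31 47 (.thr 30 28 (.thr 26 16 (.thr 22 18 (.thr 60 45 (.thr 3 41 (.thr 7 11 (.dbl 37 48 52)))))))) .nd))))))) (.rp 8 (.str 45 (.nv (.thr 12 46 (.thr 13 61 (.thr 15 14 (.thr 25 17 (.thr 31 47 (.thr 26 16 (.dbl 37 48 49))))))) (.nv (.thr 25 17 (.thr 12 46 (.thr 61 13 (.thr 60 62 (.thr 20 40 (.thr 22 23 (.dbl 28 19 44))))))) (.nv (.thr 46 12 (.thr 47 44 (.thr 15 31 (.thr 60 30 (.dbl 61 13 62))))) (.rp 62 (.thr 13 61 (.thr 12 46 (.thr 15 14 (.thr 30 60 (.dbl 31 28 47))))) (.rp 61 (.thr 25 17 (.thr 46 12 (.thr 47 44 (.thr 31 15 (.thr 16 26 (.thr 28 30 (.thr 20 24 (.dbl 22 19 23)))))))) (.rp 46 (.thr 61 13 (.thr 25 17 (.thr 60 62 (.thr 20 40 (.thr 30 15 (.thr 28 31 (.dbl 22 19 23))))))) (.rp 30 (.thr 61 13 (.thr 25 17 (.thr 60 62 (.thr 20 40 (.thr 22 23 (.thr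 28 19 (.dbl 12 44 46))))))) (.rp 25 (.str 59 (.nv (.thr 61 13 (.thr 60 62 (.thr 15 30 (.thr 47 31 (.dbl 46 12 44))))) (.nv (.thr 13 61 (.thr 12 46 (.thr 15 14 (.thr 30 60 (.dbl 31 28 47))))) (.nv (.thr 46 12 (.thr 47 44 (.thr 15 31 (.thr 60 30 (.dbl 61 13 62))))) (.rp 61 (.thr 55 51 (.thr 46 12 (.thr 38 4 (.thr 47 44 (.thr 31 15 (.thr 26 16 (.thr 14 50 (.dbl 30 28 62)))))))) (.rp 60 (.thr 13 61 (.thr 51 55 (.thr 12 46 (.thr 15 14 (.thr 31 47 (.thr 27 39 (.thr 43 11 (.dbl 23 3 19)))))))) (.rp 47 (.thr 61 13 (.thr 12 46 (.thr 60 62 (.thr 28 44 (.dbl 30 15 31))))) (.rp 46 (.thr 61 13 (.thr 60 62 (.thr 20 40 (.thr 30 15 (.thr 31 28 (.thr 26 16 (.dbl 22 18 23))))))) (.rp 31 (.thr 61 13 (.thr 51 55 (.thr 60 62 (.thr 20 40 (.thr 15 30 (.thr 27 39 (.thr 43 11 (.dbl 23 3 22)))))))) (.rp 30 (.thr 61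 13 (.thr 55 51 (.thr 46 12 (.thr 38 4 (.thr 44 47 (.thr 60 62 (.thr 20 40 (.thr 41 35 (.dbl 22 3 23))))))))) (.rp 15 (.thr 61 13 (.thr 55 51 (.thr 12 46 (.thr 60 62 (.thr 44 28 (.thr 20 40 (.thr 38 4 (.thr 41 35 (.dbl 22 3 23))))))))) (.rp 13 (.thr 51 55 (.thr 46 12 (.thr 47 44 (.thr 15 31 (.thr 27 39 (.thr 43 11 (.thr 23 3 (.thr 60 30 (.dbl 20 22 40))))))))) (.rp 12 (.thr 61 13 (.thr 51 55 (.thr 60 62 (.thr 20 40 (.thr 15 30 (.thr 31 47 (.thr 27 39 (.dbl 23 19 22)))))))) .nd))))))))))))) (.rp 13 (.thr 46 12 (.thr 47 44 (.thr 15 31 (.thr 60 30 (.thr 20 40 (.thr 23 22 (.thr 43 3 (.thr 39 35 (.thr 51 27 (.dbl 17 25 34)))))))))) (.rp 12 (.thr 61 13 (.thr 25 17 (.thr 60 62 (.thr 20 40 (.thr 22 23 (.thr 28 19 (.dbl 30 15 31))))))) .nd))))))))))) (.rp 4 (.str 45 (.nv (.thr 12 46 (.thr 13 61 (.thr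 15 14 (.thr 25 17 (.thr 31 47 (.thr 26 16 (.dbl 37 48 49))))))) (.nv (.thr 12 46 (.thr 25 17 (.thr 61 13 (.thr 60 62 (.thr 20 40 (.thr 22 23 (.dbl 28 19 44))))))) (.nv (.thr 46 12 (.thr 47 44 (.thr 15 31 (.thr 60 30 (.dbl 61 13 62))))) (.rp 62 (.thr 13 61 (.thr 12 46 (.thr 15 14 (.thr 30 60 (.dbl 31 28 47))))) (.rp 61 (.thr 25 17 (.thr 46 12 (.thr 47 44 (.thr 31 15 (.thr 16 26 (.thr 28 30 (.thr 20 24 (.dbl 22 19 23)))))))) (.rp 46 (.thr 61 13 (.thr 25 17 (.thr 60 62 (.thr 20 40 (.thr 30 15 (.thr 28 31 (.dbl 22 19 23))))))) (.rp 30 (.thr 61 13 (.thr 25 17 (.thr 60 62 (.thr 20 40 (.thr 22 23 (.thr 28 19 (.dbl 12 44 46))))))) (.rp 13 (.thr 17 25 (.thr 46 12 (.thr 47 44 (.thr 15 31 (.thr 51 34 (.thr 39 27 (.thr 43 35 (.thr 23 3 (.dbl 55 7 59))))))))) (.rp 12 (.thr 61 13 (.thr 25 17 (.thr 60 62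 (.thr 20 40 (.thr 22 23 (.thr 28 19 (.dbl 30 15 31))))))) .nd)))))))))) .nd))))))))))))

theorem w139 : WinAt (9223372036856872961, 9011597301252098) :=
  chF (K := []) kn c139 9223372036856872961 9011597301252098 42
    [] (by decide +kernel) (by decide +kernel)

/-- A certificate. -/
noncomputable def c140 : Ct := (.str 12 (.nv (.thr 4 8 (.thr 38 55 (.thr 51 25 (.dbl 34 17 46)))) (.nv (.thr 8 4 (.thr 25 59 (.thr 17 29 (.dbl 51 34 38)))) (.rp 55 (.thr 8 4 (.thr 25 59 (.thr 51 38 (.dbl 17 29 34)))) (.rp 51 (.thr 8 4 (.thr 59 25 (.str 60 (.nv (.thr 40 20 (.thr 41 43 (.thr 56 24 (.thr 26 11 (.dbl 58 10 57))))) (.nv (.thr 44 28 (.thr 40 20 (.thr 24 56 (.dbl 36 32 48)))) (.rp 56 (.thr 44 28 (.thr 40 20 (.thr 41 43 (.thr 38 35 (.thr 46 34 (.thr 47 45 (.dbl 32 36 37))))))) (.rp 52 (.thr 44 28 (.thr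 40 20 (.thr 36 32 (.dbl 24 48 56)))) (.rp 40 (.str 9 (.nv (.thr 10 11 (.thr 26 58 (.thr 16 31 (.thr 48 32 (.dbl 15 5 37))))) (.nv (.thr 10 11 (.thr 15 5 (.thr 14 13 (.dbl 6 2 3)))) (.rp 37 (.thr 10 11 (.thr 15 5 (.thr 6 3 (.dbl 14 2 13)))) (.rp 15 (.thr 28 44 (.thr 10 11 (.thr 26 58 (.thr 31 16 (.thr 30 29 (.thr 3 6 (.dbl 22 18 41))))))) (.rp 11 (.thr 28 44 (.thr 3 6 (.thr 22 41 (.thr 20 23 (.thr 16 24 (.thr 26 31 (.thr 18 30 (.dbl 48 32 33)))))))) (.rp 10 (.thr 28 44 (.thr 3 6 (.thr 22 41 (.thr 20 23 (.thr 16 24 (.thr 26 31 (.thr 18 30 (.dbl 48 32 33)))))))) (.rp 5 (.thr 28 44 (.thr 10 11 (.thr 26 58 (.thr 16 31 (.thr 24 20 (.dbl 48 32 36)))))) .nd)))))))) (.rp 36 (.thr 20 40 (.thr 22 23 (.thr 3 41 (.thr 9 6 (.thr 10 11 (.thr 26 58 (.thr 16 31 (.dbl 28 24 44)))))))) (.rp 28 (.thr 20 40 (.thr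 22 23 (.thr 3 41 (.thr 9 6 (.thr 10 11 (.thr 26 58 (.thr 30 18 (.dbl 15 5 45)))))))) (.rp 24 (.thr 20 40 (.thr 22 23 (.thr 3 41 (.thr 9 6 (.thr 10 11 (.thr 26 58 (.thr 30 18 (.dbl 15 5 45)))))))) (.rp 20 (.str 48 (.nv (.thr 16 32 (.thr 36 24 (.thr 56 52 (.thr 58 57 (.dbl 26 10 31))))) (.nv (.thr 32 16 (.thr 37 47 (.thr 15 26 (.dbl 5 10 53)))) (.nv (.thr 16 32 (.thr 26 31 (.thr 58 10 (.dbl 56 52 57)))) (.rp 52 (.thr 36 24 (.thr 16 32 (.thr 26 31 (.thr 15 37 (.dbl 10 5 58))))) (.rp 36 (.thr 52 56 (.thr 32 16 (.thr 37 47 (.thr 5 53 (.dbl 15 10 26))))) (.rp 32 (.thr 28 44 (.thr 36 24 (.thr 56 52 (.thr 58 57 (.thr 26 10 (.thr 15 37 (.thr 31 16 (.dbl 30 29 45)))))))) (.rp 26 (.thr 32 16 (.thr 52 56 (.thr 37 47 (.thr 5 53 (.thr 15 10 (.thr 45 30 (.thr 41 33 (.dbl 22 3 7)))))))) (.rp 16 (.thr 28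 44 (.thr 36 24 (.thr 56 52 (.thr 58 57 (.thr 26 10 (.thr 41 11 (.thr 37 15 (.thr 33 45 (.dbl 3 18 22))))))))) (.rp 10 (.thr 32 16 (.thr 52 56 (.thr 37 47 (.thr 15 26 (.thr 45 30 (.thr 41 33 (.dbl 22 3 7))))))) .nd)))))))))) .nd)))))))))))) (.rp 38 (.str 22 (.nv (.thr 2 62 (.thr 8 4 (.thr 25 59 (.thr 17 29 (.thr 19 28 (.thr 18 16 (.dbl 34 50 51))))))) (.nv (.thr 4 8 (.thr 20 23 (.thr 52 36 (.thr 37 7 (.thr 32 47 (.thr 48 16 (.dbl 60 40 56))))))) (.nv (.thr 20 23 (.thr 60 40 (.thr 8 4 (.thr 25 59 (.dbl 28 19 44))))) (.rp 60 (.thr 8 4 (.thr 20 23 (.thr 25 59 (.thr 29 17 (.thr 28 19 (.thr 16 24 (.dbl 31 26 30))))))) (.rp 55 (.thr 8 4 (.thr 20 23 (.thr 60 40 (.thr 28 44 (.dbl 25 19 59))))) (.rp 20 (.thr 8 4 (.thr 25 59 (.thr 17 29 (.thr 51 34 (.thr 19 28 (.thr 3 35 (.thr 41 60 (.dbl 9 6 57))))))))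 (.rp 8 (.thr 20 23 (.thr 60 40 (.thr 28 44 (.thr 25 19 (.thr 29 17 (.thr 31 30 (.dbl 16 24 26))))))) (.rp 4 (.thr 20 23 (.thr 60 40 (.thr 28 44 (.thr 16 24 (.thr 26 31 (.thr 18 30 (.dbl 19 17 25))))))) .nd))))))))) (.rp 34 (.str 60 (.nv (.thr 4 8 (.thr 40 20 (.thr 41 43 (.thr 44 28 (.dbl 38 35 55))))) (.nv (.thr 8 4 (.thr 25 59 (.thr 40 20 (.thr 41 43 (.thr 3 22 (.dbl 9 6 57)))))) (.nv (.thr 4 8 (.thr 28 44 (.thr 20 40 (.thr 24 16 (.dbl 36 48 52))))) (.rp 40 (.thr 44 28 (.thr 4 8 (.thr 38 55 (.thr 41 35 (.thr 3 22 (.thr 9 6 (.dbl 25 51 57))))))) (.rp 20 (.thr 44 28 (.thr 4 8 (.thr 38 55 (.thr 41 35 (.thr 3 22 (.thr 9 6 (.dbl 25 51 57))))))) (.rp 8 (.thr 44 28 (.thr 40 20 (.thr 32 36 (.thr 37 47 (.thr 5 53 (.thr 15 10 (.dbl 48 16 26))))))) (.rp 4 (.thr 44 28 (.thr 40 20 (.thr 41 43 (.thr 38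 35 (.thr 25 51 (.thr 9 57 (.dbl 3 6 22))))))) .nd)))))))) (.rp 25 (.str 60 (.nv (.thr 4 8 (.thr 38 55 (.thr 40 20 (.thr 41 43 (.dbl 44 28 35))))) (.nv (.thr 4 8 (.thr 28 44 (.thr 20 40 (.thr 24 16 (.dbl 36 48 52))))) (.rp 52 (.thr 44 28 (.thr 40 20 (.thr 36 32 (.thr 24 48 (.dbl 8 4 56))))) (.rp 44 (.thr 40 20 (.thr 8 4 (.thr 56 24 (.thr 41 43 (.thr 26 11 (.thr 16 31 (.dbl 48 32 52))))))) (.rp 40 (.thr 44 28 (.thr 4 8 (.thr 38 55 (.thr 46 34 (.thr 47 45 (.thr 37 32 (.thr 39 36 (.dbl 35 41 43)))))))) (.rp 28 (.thr 20 40 (.thr 4 8 (.thr 52 36 (.thr 22 23 (.thr 37 7 (.thr 32 47 (.dbl 48 16 56))))))) (.rp 20 (.thr 44 28 (.thr 4 8 (.thr 38 55 (.thr 46 34 (.thr 47 45 (.thr 32 37 (.thr 40 36 (.dbl 41 35 43)))))))) (.rp 8 (.thr 44 28 (.thr 40 20 (.thr 32 36 (.thr 37 47 (.thr 5 53 (.thr 15 10 (.dbl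 48 16 26))))))) (.rp 4 (.thr 44 28 (.thr 40 20 (.thr 41 43 (.thr 38 35 (.thr 46 34 (.thr 47 45 (.dbl 32 36 37))))))) .nd)))))))))) (.rp 17 (.str 60 (.nv (.thr 8 4 (.thr 25 59 (.thr 40 20 (.thr 41 43 (.thr 3 22 (.dbl 9 6 57)))))) (.nv (.thr 44 28 (.thr 40 20 (.thr 8 4 (.thr 36 32 (.dbl 24 48 56))))) (.rp 49 (.str 33 (.nv (.thr 40 20 (.thr 41 43 (.thr 37 45 (.thr 32 47 (.dbl 44 28 36))))) (.nv (.thr 4 8 (.thr 20 40 (.thr 22 23 (.thr 3 41 (.thr 36 52 (.dbl 48 18 24)))))) (.nv (.thr 4 8 (.thr 38 55 (.thr 44 28 (.thr 41 35 (.thr 45 37 (.dbl 46 34 47)))))) (.nv (.thr 44 28 (.thr 40 20 (.thr 36 32 (.thr 8 4 (.dbl 24 48 56))))) .nd))))) (.rp 40 (.thr 44 28 (.thr 4 8 (.thr 38 55 (.thr 41 35 (.thr 3 22 (.thr 9 6 (.dbl 25 51 57))))))) (.rp 36 (.thr 44 28 (.thr 40 20 (.thr 4 8 (.thr 41 43 (.dbl 38 35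 55))))) (.rp 33 (.str 49 (.nv (.thr 4 8 (.thr 38 55 (.thr 40 20 (.thr 41 43 (.dbl 44 28 35))))) (.nv (.thr 8 4 (.thr 25 59 (.thr 37 13 (.thr 32 47 (.thr 48 16 (.dbl 51 38 50)))))) (.nv (.thr 8 4 (.thr 40 20 (.thr 24 56 (.thr 44 28 (.dbl 36 32 48))))) (.rp 8 (.thr 44 28 (.thr 40 20 (.thr 32 36 (.thr 37 47 (.thr 25 13 (.thr 38 51 (.dbl 41 35 43))))))) (.rp 4 (.thr 44 28 (.thr 40 20 (.thr 41 43 (.thr 38 35 (.thr 25 51 (.thr 37 13 (.dbl 36 32 39))))))) .nd)))))) (.rp 20 (.thr 44 28 (.thr 4 8 (.thr 38 55 (.thr 41 35 (.thr 3 22 (.thr 9 6 (.dbl 25 51 57))))))) (.rp 8 (.thr 44 28 (.thr 40 20 (.thr 32 36 (.thr 37 47 (.thr 5 53 (.thr 15 10 (.dbl 48 16 26))))))) (.rp 4 (.thr 44 28 (.thr 40 20 (.thr 41 43 (.thr 38 35 (.thr 46 34 (.thr 47 45 (.dbl 32 36 37))))))) .nd)))))))))) (.rp 8 (.str 48 (.nv (.thr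 16 32 (.thr 24 36 (.thr 26 31 (.thr 25 27 (.thr 17 29 (.dbl 51 34 38)))))) (.nv (.thr 32 16 (.thr 37 47 (.thr 15 26 (.dbl 5 10 53)))) (.rp 47 (.thr 16 32 (.thr 26 31 (.thr 15 37 (.dbl 10 5 58)))) (.rp 32 (.str 37 (.nv (.thr 36 24 (.thr 38 39 (.thr 34 46 (.dbl 51 17 25)))) (.nv (.thr 15 26 (.dbl 5 10 53)) .nd))) (.rp 26 (.thr 36 24 (.thr 32 16 (.thr 37 47 (.thr 38 39 (.thr 34 46 (.dbl 51 17 25)))))) (.rp 16 (.str 37 (.nv (.thr 36 24 (.thr 38 39 (.thr 34 46 (.dbl 51 17 25)))) (.nv (.thr 15 26 (.dbl 5 10 53)) .nd))) (.rp 15 (.thr 36 24 (.thr 32 16 (.thr 40 44 (.thr 20 60 (.thr 52 4 (.thr 22 23 (.dbl 37 7 47))))))) .nd)))))))) (.rp 4 (.str 16 (.nv (.thr 26 31 (.thr 48 32 (.thr 24 36 (.thr 25 27 (.thr 17 29 (.dbl 51 34 38)))))) (.nv (.thr 48 32 (.thr 26 31 (.thr 15 37 (.dbl 10 5 58)))) (.rp 48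 (.thr 26 31 (.thr 58 10 (.str 20 (.nv (.thr 22 23 (.thr 18 30 (.thr 19 17 (.dbl 28 24 25)))) (.nv (.thr 28 24 (.dbl 60 40 44)) (.rp 47 (.str 15 (.nv (.thr 14 13 (.thr 22 23 (.thr 30 18 (.dbl 62 2 46)))) (.nv (.thr 28 24 (.dbl 60 40 44)) .nd))) (.rp 28 (.thr 40 60 (.thr 41 43 (.thr 56 11 (.thr 8 24 (.dbl 59 25 57))))) (.rp 24 (.thr 60 40 (.thr 28 44 (.thr 22 23 (.thr 18 30 (.dbl 19 17 25))))) (.rp 15 (.str 47 (.nv (.thr 22 23 (.thr 28 24 (.thr 19 25 (.dbl 18 17 30)))) (.nv (.thr 28 24 (.dbl 60 40 44)) (.rp 28 (.thr 40 60 (.thr 41 43 (.thr 56 11 (.thr 8 24 (.dbl 59 25 57))))) (.rp 24 (.thr 60 40 (.thr 28 44 (.thr 22 23 (.thr 18 30 (.dbl 19 17 25))))) .nd))))) .nd))))))))) (.rp 32 (.thr 26 31 (.thr 10 58 (.thr 15 5 (.thr 48 37 (.thr 24 36 (.thr 25 27 (.thr 17 29 (.dbl 51 34 38)))))))) (.rp 31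 (.thr 48 32 (.thr 24 36 (.thr 20 28 (.thr 40 60 (.thr 8 56 (.thr 25 59 (.thr 51 38 (.dbl 17 29 34)))))))) (.rp 26 (.thr 48 32 (.thr 24 36 (.thr 20 28 (.thr 40 60 (.thr 8 56 (.thr 25 59 (.thr 17 29 (.dbl 51 34 38)))))))) (.rp 15 (.thr 48 32 (.thr 24 36 (.thr 20 28 (.thr 40 60 (.thr 56 8 (.thr 41 43 (.dbl 26 11 31))))))) .nd)))))))) .nd)))))))))))

theorem w140 : WinAt (4398048608257, 9241386435364257794) :=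
  chF (K := []) kn c140 4398048608257 9241386435364257794 63
    [] (by decide +kernel) (by decide +kernel)

/-- A certificate. -/
noncomputable def c141 : Ct := (.str 26 (.nv (.thr 16 31 (.thr 48 32 (.thr 37 15 (.dbl 53 5 58)))) (.nv (.thr 31 16 (.thr 15 47 (.thr 37 48 (.dbl 5 10 53)))) (.rp 53 (.thr 16 31 (.thr 48 32 (.thr 37 15 (.str 52 (.nv (.thr 22 7 (.thr 18 30 (.thr 3 33 (.dbl 23 20 43)))) (.nv (.thr 60 56 (.thr 20 40 (.thr 24 28 (.dbl 36 4 12)))) (.nv (.thr 60 56 (.thr 22 7 (.dbl 20 23 40))) (.rp 60 (.thr 22 7 (.thr 23 20 (.thr 3 43 (.dbl 18 30 33)))) (.rp 20 (.thr 60 56 (.thr 22 7 (.thr 18 30 (.dbl 3 33 41)))) .nd))))))))) (.rp 48 (.str 27 (.nv (.thr 31 16 (.thr 15 47 (.thr 51 39 (.thr 17 34 (.dbl 25 24 29))))) (.nv (.thr 25 24 (.thr 29 17 (.thr 31 16 (.thr 28 30 (.dbl 19 22 23)))))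 (.rp 31 (.thr 25 24 (.thr 17 29 (.thr 51 34 (.thr 15 39 (.thr 5 10 (.thr 37 53 (.thr 13 49 (.dbl 12 14 38)))))))) (.rp 29 (.thr 31 16 (.thr 23 19 (.thr 22 20 (.thr 3 43 (.thr 41 60 (.thr 15 47 (.dbl 11 7 56))))))) (.rp 25 (.thr 31 16 (.thr 23 19 (.thr 22 20 (.thr 3 43 (.thr 41 60 (.thr 15 47 (.dbl 11 7 56))))))) (.rp 24 (.thr 31 16 (.thr 23 19 (.thr 3 43 (.thr 15 47 (.thr 11 7 (.thr 41 56 (.dbl 22 20 60))))))) (.rp 23 (.thr 25 24 (.thr 31 16 (.thr 17 29 (.thr 15 47 (.dbl 51 34 39))))) (.rp 17 (.thr 25 24 (.thr 31 16 (.thr 19 23 (.thr 28 22 (.thr 29 30 (.thr 12 46 (.thr 15 47 (.dbl 51 38 39)))))))) (.rp 16 (.thr 25 24 (.thr 17 29 (.thr 51 34 (.thr 15 39 (.thr 5 10 (.thr 37 53 (.thr 13 49 (.dbl 12 14 38)))))))) .nd)))))))))) (.rp 37 (.thr 31 16 (.str 30 (.nv (.thr 22 18 (.thr 20 23 (.thr 60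 40 (.dbl 15 45 47)))) (.nv (.thr 29 28 (.thr 46 12 (.thr 62 14 (.thr 60 61 (.dbl 15 45 47))))) (.nv (.thr 22 18 (.thr 23 20 (.thr 28 29 (.dbl 19 25 27)))) (.rp 47 (.str 32 (.nv (.thr 29 28 (.thr 46 12 (.thr 62 14 (.thr 60 61 (.thr 20 40 (.dbl 22 18 23)))))) (.nv (.thr 22 18 (.thr 23 20 (.thr 28 29 (.dbl 19 25 27)))) (.rp 29 (.thr 22 18 (.thr 20 23 (.thr 60 40 (.thr 62 61 (.thr 14 46 (.thr 38 50 (.thr 54 6 (.thr 51 57 (.thr 12 25 (.dbl 15 13 45)))))))))) (.rp 28 (.thr 22 18 (.thr 20 23 (.thr 60 40 (.thr 62 61 (.thr 46 14 (.thr 12 29 (.thr 4 8 (.thr 52 36 (.thr 56 48 (.dbl 41 3 11)))))))))) (.rp 23 (.thr 29 28 (.thr 25 17 (.thr 24 27 (.thr 12 46 (.thr 36 48 (.thr 8 4 (.dbl 40 44 56))))))) (.rp 22 (.thr 29 28 (.thr 25 17 (.thr 24 27 (.thr 12 46 (.thr 36 48 (.thr 8 4 (.dbl 40 44 56))))))) (.rp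 20 (.thr 22 18 (.thr 28 29 (.thr 19 25 (.thr 23 27 (.thr 3 43 (.thr 41 60 (.thr 35 51 (.thr 38 44 (.thr 14 50 (.thr 11 56 (.thr 15 7 (.thr 10 5 (.dbl 6 2 54))))))))))))) (.rp 18 (.thr 29 28 (.thr 17 25 (.thr 51 34 (.thr 46 12 (.thr 62 14 (.thr 60 61 (.thr 20 40 (.thr 23 22 (.thr 19 27 (.dbl 3 35 43)))))))))) .nd))))))))) (.rp 32 (.thr 47 15 (.thr 22 18 (.thr 28 29 (.thr 19 25 (.dbl 23 20 27))))) (.rp 20 (.thr 22 18 (.thr 28 29 (.thr 19 25 (.thr 23 27 (.thr 3 43 (.thr 41 60 (.thr 11 56 (.dbl 15 7 47)))))))) .nd)))))))) (.rp 31 (.str 25 (.nv (.thr 17 29 (.thr 27 24 (.thr 51 34 (.thr 15 39 (.thr 5 10 (.dbl 37 48 53)))))) (.nv (.thr 24 27 (.thr 29 17 (.thr 12 46 (.thr 8 4 (.thr 36 48 (.thr 40 56 (.thr 60 20 (.dbl 44 28 32)))))))) (.nv (.thr 29 17 (.thr 12 46 (.thr 38 51 (.thr 14 50 (.thr 15 13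 (.thr 5 10 (.dbl 37 48 53))))))) (.rp 48 (.thr 27 24 (.thr 17 29 (.thr 51 34 (.thr 15 39 (.thr 5 10 (.thr 37 53 (.thr 13 49 (.dbl 12 14 38)))))))) (.rp 46 (.thr 27 24 (.thr 17 29 (.thr 51 34 (.thr 38 12 (.thr 50 14 (.thr 48 49 (.dbl 15 37 39))))))) (.rp 38 (.thr 27 24 (.str 51 (.nv (.thr 15 39 (.thr 5 10 (.dbl 37 48 53))) (.nv (.dbl 17 29 34) (.rp 46 (.thr 34 17 (.thr 15 39 (.thr 5 10 (.dbl 37 48 53)))) (.rp 34 (.str 46 (.nv (.thr 15 39 (.thr 5 10 (.dbl 37 48 53))) (.nv (.dbl 29 12 17) .nd))) .nd)))))) (.rp 29 (.thr 24 27 (.str 28 (.nv (.thr 20 16 (.dbl 22 19 23)) (.rp 23 (.thr 19 22 (.thr 16 20 (.thr 48 32 (.thr 53 58 (.dbl 37 5 15))))) (.rp 22 (.thr 16 20 (.thr 48 32 (.thr 53 58 (.dbl 37 5 15)))) (.rp 20 (.str 12 (.nv (.thr 19 22 (.thr 8 4 (.thr 36 48 (.thr 40 56 (.dbl 44 32 60))))) (.nv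 (.thr 38 51 (.thr 44 60 (.thr 41 35 (.thr 56 11 (.dbl 8 4 40))))) (.nv (.thr 48 36 (.thr 53 58 (.dbl 37 5 15))) (.rp 19 (.str 23 (.nv (.thr 3 43 (.thr 9 6 (.thr 41 57 (.dbl 60 22 44)))) (.nv (.thr 48 36 (.thr 53 58 (.dbl 37 5 15))) .nd))) (.rp 4 (.thr 38 51 (.thr 14 50 (.thr 15 13 (.dbl 48 36 37)))) .nd)))))) (.rp 19 (.str 23 (.nv (.dbl 20 16 22) (.rp 22 (.thr 16 20 (.thr 48 32 (.thr 53 58 (.dbl 37 5 15)))) (.rp 20 (.str 15 (.nv (.thr 48 37 (.thr 12 36 (.thr 38 51 (.dbl 14 13 50)))) (.nv (.thr 5 10 (.dbl 37 48 53)) (.rp 48 (.thr 10 5 (.thr 3 43 (.thr 11 7 (.thr 9 8 (.dbl 41 56 57))))) (.rp 37 (.thr 10 5 (.thr 3 43 (.thr 11 7 (.thr 9 8 (.dbl 41 56 57))))) .nd))))) (.rp 16 (.thr 20 22 (.thr 60 40 (.thr 12 44 (.thr 4 8 (.dbl 36 48 52))))) .nd))))) (.rp 16 (.thr 22 19 (.thr 23 20 (.thr 18 30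 (.thr 3 43 (.thr 48 33 (.thr 53 58 (.dbl 37 5 15))))))) .nd)))))))) (.rp 17 (.str 37 (.nv (.thr 49 13 (.thr 48 15 (.dbl 53 5 58))) (.nv (.thr 15 48 (.dbl 5 10 53)) (.rp 53 (.thr 49 13 (.thr 24 27 (.thr 48 15 (.thr 12 36 (.dbl 51 38 50))))) (.rp 49 (.str 33 (.nv (.thr 48 15 (.dbl 53 5 58)) (.rp 58 (.thr 5 53 (.dbl 15 10 48)) (.rp 53 (.thr 41 45 (.thr 11 56 (.thr 15 48 (.thr 10 5 (.dbl 9 8 57))))) (.rp 48 (.thr 41 45 (.thr 9 57 (.thr 11 56 (.thr 10 8 (.dbl 5 15 53))))) (.rp 15 (.thr 41 45 (.thr 57 9 (.thr 56 11 (.thr 58 59 (.dbl 53 5 48))))) (.rp 5 (.thr 41 45 (.thr 56 11 (.thr 48 15 (.thr 60 52 (.dbl 3 18 22))))) .nd))))))) (.rp 48 (.thr 5 53 (.thr 27 24 (.thr 15 10 (.thr 51 39 (.thr 12 38 (.dbl 13 14 49)))))) (.rp 15 (.thr 53 5 (.thr 24 27 (.thr 48 58 (.thr 12 36 (.thr 51 38 (.dbl 49 13 50))))))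 (.rp 5 (.thr 27 24 (.thr 15 48 (.thr 51 39 (.thr 12 38 (.dbl 13 14 49))))) .nd)))))))) .nd))))))))) (.rp 16 (.str 22 (.nv (.thr 18 30 (.thr 23 20 (.thr 3 43 (.thr 48 33 (.thr 53 58 (.dbl 37 5 15)))))) (.nv (.thr 20 23 (.thr 30 18 (.thr 60 40 (.thr 15 45 (.thr 62 61 (.thr 46 14 (.thr 29 12 (.dbl 31 28 47)))))))) (.nv (.thr 20 23 (.thr 60 40 (.thr 41 3 (.thr 56 11 (.thr 48 52 (.thr 53 58 (.dbl 37 5 15))))))) (.rp 41 (.thr 18 30 (.str 3 (.nv (.thr 48 33 (.thr 37 15 (.dbl 53 5 58))) (.nv (.dbl 23 20 43) (.rp 43 (.str 40 (.nv (.thr 48 33 (.thr 53 58 (.dbl 37 5 15))) (.nv (.dbl 20 23 60) .nd))) (.rp 40 (.thr 43 23 (.thr 48 33 (.thr 53 58 (.dbl 37 5 15)))) .nd)))))) (.rp 40 (.thr 18 30 (.thr 23 20 (.thr 3 43 (.thr 41 60 (.thr 11 56 (.thr 15 7 (.dbl 48 33 37))))))) (.rp 23 (.str 37 (.nv (.thr 7 52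 (.thr 15 48 (.dbl 5 10 53))) (.nv (.thr 48 15 (.dbl 53 5 58)) (.rp 53 (.thr 18 30 (.thr 48 15 (.thr 3 33 (.thr 60 41 (.dbl 52 7 56))))) (.rp 48 (.thr 5 53 (.thr 30 18 (.thr 15 10 (.thr 60 45 (.thr 3 41 (.dbl 7 11 52)))))) (.rp 15 (.thr 53 5 (.thr 18 30 (.thr 48 58 (.thr 3 33 (.thr 60 41 (.dbl 52 7 56)))))) (.rp 7 (.str 39 (.nv (.thr 15 48 (.dbl 5 10 53)) (.rp 53 (.thr 38 36 (.thr 14 50 (.thr 15 48 (.thr 12 13 (.dbl 51 25 27))))) (.rp 48 (.thr 38 36 (.thr 6 54 (.thr 14 50 (.thr 10 2 (.dbl 5 15 53))))) (.rp 15 (.thr 38 36 (.thr 54 6 (.thr 50 14 (.thr 58 62 (.dbl 53 5 48))))) (.rp 10 (.thr 53 5 (.dbl 48 15 58)) (.rp 5 (.thr 38 36 (.thr 50 14 (.thr 48 15 (.thr 58 53 (.dbl 54 6 62))))) .nd))))))) (.rp 5 (.thr 7 52 (.thr 30 18 (.thr 15 48 (.thr 60 45 (.dbl 3 11 41))))) .nd)))))))) (.rp 20 (.thr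 30 18 (.str 28 (.nv (.thr 29 31 (.dbl 25 17 19)) (.rp 31 (.thr 25 19 (.thr 17 29 (.thr 27 24 (.thr 51 34 (.thr 15 39 (.thr 5 10 (.dbl 37 48 53))))))) (.rp 29 (.str 60 (.nv (.thr 3 41 (.thr 15 45 (.thr 61 62 (.thr 7 11 (.dbl 37 48 52))))) (.nv (.thr 3 41 (.thr 12 44 (.thr 6 9 (.thr 38 54 (.dbl 25 19 51))))) (.nv (.thr 15 45 (.thr 5 10 (.dbl 37 48 53))) (.rp 19 (.str 17 (.nv (.thr 12 44 (.thr 51 34 (.thr 38 25 (.dbl 54 6 57)))) (.nv (.thr 15 45 (.thr 5 10 (.dbl 37 48 53))) .nd))) (.rp 17 (.thr 19 25 (.thr 15 45 (.thr 5 10 (.dbl 37 48 53)))) .nd)))))) (.rp 25 (.thr 31 29 (.thr 15 47 (.thr 5 10 (.dbl 37 48 53)))) (.rp 19 (.str 17 (.nv (.dbl 29 25 31) (.rp 31 (.thr 29 25 (.thr 12 46 (.thr 60 44 (.thr 61 62 (.dbl 45 13 15))))) (.rp 29 (.str 48 (.nv (.thr 15 37 (.thr 60 45 (.thr 41 3 (.dbl 56 11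 52)))) (.nv (.thr 53 58 (.dbl 37 5 15)) (.rp 37 (.thr 58 53 (.thr 51 34 (.thr 50 49 (.thr 54 62 (.dbl 38 6 14))))) (.rp 15 (.thr 58 53 (.thr 51 34 (.thr 50 49 (.thr 54 62 (.dbl 38 6 14))))) .nd))))) (.rp 25 (.thr 31 29 (.thr 15 47 (.thr 5 10 (.dbl 37 48 53)))) .nd))))) (.rp 17 (.thr 19 25 (.thr 31 29 (.thr 15 47 (.thr 5 10 (.dbl 37 48 53))))) .nd)))))))) (.rp 15 (.thr 18 30 (.thr 23 20 (.thr 3 43 (.thr 48 33 (.thr 53 58 (.thr 37 5 (.thr 52 7 (.dbl 60 41 56)))))))) .nd))))))))) (.rp 15 (.str 18 (.nv (.thr 16 31 (.thr 22 30 (.thr 23 20 (.thr 3 43 (.dbl 48 32 33))))) (.nv (.thr 16 31 (.thr 17 19 (.thr 48 32 (.thr 51 34 (.thr 50 49 (.thr 38 14 (.dbl 25 12 29))))))) (.nv (.thr 22 30 (.thr 20 23 (.thr 16 31 (.thr 28 24 (.dbl 19 17 25))))) (.rp 31 (.thr 22 30 (.thr 23 20 (.thr 3 43 (.thr 48 33 (.thr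 53 58 (.thr 37 5 (.thr 52 7 (.dbl 60 41 56)))))))) (.rp 23 (.thr 22 30 (.thr 16 31 (.thr 19 17 (.thr 28 25 (.thr 20 24 (.thr 60 40 (.thr 48 32 (.dbl 3 33 41)))))))) (.rp 16 (.thr 22 30 (.thr 23 20 (.thr 3 43 (.thr 48 33 (.thr 53 58 (.thr 37 5 (.thr 52 7 (.dbl 60 41 56)))))))) .nd))))))) (.rp 5 (.thr 31 16 (.thr 15 47 (.thr 37 48 (.str 13 (.nv (.thr 25 49 (.thr 17 29 (.thr 51 34 (.dbl 27 24 39)))) (.nv (.thr 12 14 (.thr 25 49 (.thr 27 24 (.dbl 51 38 39)))) (.nv (.thr 12 14 (.thr 29 46 (.thr 30 28 (.dbl 45 60 61)))) (.nv (.thr 12 14 (.thr 25 49 (.dbl 29 17 46))) .nd)))))))) .nd))))))))))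

theorem w141 : WinAt (9223372036856872961, 36033195065475074) :=
  chF (K := []) kn c141 9223372036856872961 36033195065475074 42
    [] (by decide +kernel) (by decide +kernel)

/-- A certificate. -/
noncomputable def c142 : Ct := (.str 48 (.nv (.thr 32 16 (.thr 37 47 (.thr 15 26 (.dbl 5 10 53)))) (.nv (.thr 16 32 (.thr 26 31 (.thr 15 37 (.dbl 10 5 58)))) (.rp 37 (.str 24 (.nv (.thr 16 32 (.thr 28 20 (.thr 26 31 (.thr 25 27 (.thr 19 22 (.dbl 17 18 29)))))) (.nv (.thr 12 36 (.thr 4 8 (.thr 38 55 (.thr 34 46 (.dbl 51 17 25))))) (.rp 25 (.thr 16 32 (.thr 20 28 (.thr 60 40 (.thr 26 31 (.thr 22 23 (.thr 3 41 (.dbl 18 30 33))))))) (.rp 17 (.thr 12 36 (.thr 16 32 (.thr 8 4 (.thr 25 59 (.dbl 26 27 31))))) .nd))))) (.rp 32 (.str 25 (.nv (.thr 17 29 (.thr 51 34 (.thr 49 50 (.thr 37 13 (.thr 5 53 (.dbl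 15 10 26)))))) (.nv (.thr 8 59 (.thr 12 4 (.thr 24 36 (.thr 26 27 (.thr 15 37 (.dbl 10 5 58)))))) (.nv (.thr 17 29 (.thr 51 34 (.thr 12 38 (.dbl 8 4 59)))) (.rp 51 (.thr 59 8 (.str 26 (.nv (.thr 10 58 (.dbl 15 5 37)) (.rp 58 (.thr 24 27 (.thr 16 31 (.thr 17 29 (.thr 19 18 (.dbl 28 20 22))))) (.rp 40 (.thr 24 27 (.thr 10 58 (.dbl 15 5 37))) (.rp 37 (.thr 24 27 (.thr 16 31 (.thr 17 29 (.thr 19 18 (.dbl 28 20 22))))) (.rp 24 (.str 40 (.nv (.thr 10 58 (.dbl 15 5 37)) (.rp 58 (.thr 43 41 (.thr 27 11 (.thr 20 60 (.thr 31 16 (.dbl 23 19 22))))) (.rp 37 (.thr 43 41 (.thr 27 11 (.thr 20 60 (.thr 31 16 (.dbl 23 19 22))))) (.rp 15 (.thr 43 41 (.thr 27 11 (.thr 20 60 (.thr 31 16 (.dbl 23 19 22))))) (.rp 10 (.thr 41 43 (.thr 60 20 (.thr 3 22 (.thr 33 18 (.dbl 37 15 45))))) (.rp 5 (.thr 43 41 (.thr 27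 11 (.thr 20 60 (.thr 31 16 (.dbl 23 19 22))))) .nd))))))) (.rp 15 (.thr 31 16 (.thr 29 17 (.thr 28 30 (.thr 19 22 (.dbl 27 23 24))))) (.rp 10 (.thr 24 27 (.thr 16 31 (.thr 17 29 (.thr 19 18 (.dbl 28 20 22))))) (.rp 5 (.thr 24 27 (.thr 16 31 (.thr 17 29 (.thr 19 18 (.dbl 28 20 22))))) .nd)))))))))) (.rp 12 (.str 51 (.nv (.dbl 17 29 34) (.rp 46 (.thr 29 17 (.thr 49 50 (.thr 37 13 (.thr 5 53 (.dbl 15 10 26))))) (.rp 34 (.thr 49 50 (.thr 37 13 (.thr 5 53 (.dbl 15 10 26)))) (.rp 29 (.str 46 (.nv (.dbl 34 17 38) (.rp 38 (.thr 49 50 (.thr 37 13 (.thr 5 53 (.dbl 15 10 26)))) (.rp 34 (.thr 49 50 (.thr 37 13 (.thr 5 53 (.dbl 15 10 26)))) (.rp 17 (.thr 49 50 (.thr 37 13 (.thr 5 53 (.dbl 15 10 26)))) .nd))))) (.rp 17 (.thr 49 50 (.thr 37 13 (.thr 5 53 (.dbl 15 10 26)))) .nd)))))) .nd)))))) (.rp 26 (.thr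 32 16 (.str 41 (.nv (.thr 37 47 (.thr 5 53 (.thr 15 10 (.thr 33 45 (.thr 3 18 (.thr 7 11 (.dbl 22 52 60))))))) (.nv (.thr 40 43 (.thr 36 44 (.thr 12 24 (.thr 4 8 (.dbl 20 52 60))))) (.nv (.thr 37 47 (.thr 5 53 (.thr 15 10 (.thr 45 33 (.thr 60 30 (.dbl 40 20 43)))))) (.nv (.thr 40 43 (.thr 44 36 (.thr 38 35 (.thr 47 37 (.dbl 46 34 45))))) .nd)))))) (.rp 16 (.str 25 (.nv (.thr 8 59 (.thr 12 4 (.thr 24 36 (.thr 26 27 (.thr 15 37 (.dbl 10 5 58)))))) (.nv (.thr 17 29 (.thr 51 34 (.thr 49 50 (.thr 37 13 (.thr 5 53 (.dbl 15 10 26)))))) (.nv (.thr 17 29 (.thr 51 34 (.thr 12 38 (.dbl 8 4 59)))) (.rp 51 (.thr 59 8 (.str 15 (.nv (.thr 26 37 (.dbl 10 5 58)) (.rp 58 (.thr 5 10 (.dbl 37 26 53)) (.rp 40 (.str 24 (.nv (.dbl 26 27 37) (.rp 37 (.thr 26 27 (.dbl 10 5 58)) (.rp 27 (.thr 10 5 (.dbl 26 37 58))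 (.rp 26 (.thr 5 10 (.thr 37 53 (.thr 13 49 (.dbl 12 14 36)))) .nd))))) (.rp 37 (.thr 10 5 (.thr 26 58 (.thr 24 27 (.thr 29 17 (.thr 12 36 (.thr 13 14 (.thr 45 61 (.thr 60 30 (.thr 20 40 (.thr 22 23 (.dbl 28 19 44))))))))))) (.rp 26 (.thr 5 10 (.thr 37 53 (.thr 32 47 (.thr 13 49 (.thr 12 14 (.thr 36 24 (.thr 40 44 (.thr 38 39 (.thr 4 55 (.dbl 20 52 60)))))))))) (.rp 24 (.str 40 (.nv (.thr 37 26 (.thr 41 43 (.thr 45 33 (.dbl 60 20 30)))) (.nv (.thr 26 37 (.dbl 10 5 58)) (.rp 37 (.thr 43 41 (.thr 11 27 (.thr 10 5 (.thr 26 58 (.thr 3 7 (.thr 20 60 (.thr 22 23 (.dbl 18 30 33)))))))) (.rp 28 (.thr 20 60 (.thr 10 5 (.dbl 26 37 58))) (.rp 26 (.thr 41 43 (.thr 5 10 (.thr 37 53 (.thr 45 33 (.dbl 60 20 30))))) (.rp 20 (.str 28 (.nv (.thr 26 37 (.thr 29 17 (.thr 30 31 (.dbl 22 18 19)))) (.nv (.thr 26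 37 (.dbl 10 5 58)) (.rp 37 (.thr 29 17 (.thr 41 43 (.thr 30 31 (.thr 60 45 (.dbl 22 3 19))))) (.rp 26 (.thr 29 17 (.thr 41 43 (.thr 30 31 (.thr 60 45 (.dbl 22 3 19))))) .nd))))) .nd))))))) (.rp 10 (.thr 37 26 (.thr 32 47 (.thr 13 49 (.thr 12 14 (.thr 36 24 (.thr 40 44 (.thr 38 39 (.thr 4 55 (.dbl 20 52 60))))))))) (.rp 5 (.thr 37 26 (.thr 32 47 (.thr 13 49 (.thr 12 14 (.thr 36 24 (.thr 40 44 (.thr 38 39 (.thr 4 55 (.dbl 20 52 60))))))))) .nd)))))))))) (.rp 12 (.str 51 (.nv (.dbl 17 29 34) (.rp 46 (.thr 29 17 (.thr 49 50 (.thr 37 13 (.thr 5 53 (.dbl 15 10 26))))) (.rp 34 (.thr 49 50 (.thr 37 13 (.thr 5 53 (.dbl 15 10 26)))) (.rp 29 (.str 46 (.nv (.dbl 34 17 38) (.rp 38 (.thr 49 50 (.thr 37 13 (.thr 5 53 (.dbl 15 10 26)))) (.rp 34 (.thr 49 50 (.thr 37 13 (.thr 5 53 (.dbl 15 10 26)))) (.rp 17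 (.thr 49 50 (.thr 37 13 (.thr 5 53 (.dbl 15 10 26)))) .nd))))) (.rp 17 (.thr 49 50 (.thr 37 13 (.thr 5 53 (.dbl 15 10 26)))) .nd)))))) .nd)))))) (.rp 15 (.thr 16 32 (.str 17 (.nv (.thr 18 19 (.thr 34 51 (.thr 2 50 (.thr 22 62 (.dbl 26 30 31))))) (.nv (.thr 31 26 (.thr 19 18 (.thr 23 27 (.thr 22 20 (.dbl 25 28 29))))) (.nv (.thr 51 34 (.thr 25 29 (.thr 12 38 (.dbl 8 4 59)))) (.rp 51 (.thr 19 18 (.thr 31 26 (.thr 25 29 (.thr 22 28 (.dbl 23 20 27))))) (.rp 31 (.str 47 (.nv (.thr 19 18 (.thr 25 29 (.thr 28 22 (.thr 24 20 (.thr 51 34 (.dbl 12 36 38)))))) (.nv (.thr 19 18 (.thr 25 29 (.thr 28 22 (.thr 24 20 (.thr 12 36 (.dbl 8 4 59)))))) (.nv (.thr 51 34 (.thr 25 29 (.thr 12 38 (.dbl 8 4 59)))) (.rp 30 (.thr 34 51 (.thr 18 19 (.thr 3 33 (.thr 2 50 (.thr 22 62 (.thr 60 41 (.dbl 20 23 40))))))) (.rp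 29 (.thr 34 51 (.thr 18 19 (.thr 3 33 (.thr 2 50 (.thr 22 62 (.thr 60 41 (.dbl 20 23 40))))))) (.rp 28 (.thr 34 51 (.thr 18 19 (.thr 3 33 (.thr 2 50 (.thr 22 62 (.thr 60 41 (.dbl 20 23 40))))))) (.rp 25 (.thr 34 51 (.thr 18 19 (.thr 3 33 (.thr 2 50 (.thr 22 62 (.thr 60 41 (.dbl 20 23 40))))))) (.rp 12 (.thr 34 51 (.thr 18 19 (.thr 3 33 (.thr 2 50 (.thr 22 62 (.thr 60 41 (.dbl 20 23 40))))))) .nd))))))))) .nd))))))) (.rp 10 (.str 51 (.nv (.thr 32 16 (.thr 34 17 (.thr 33 35 (.thr 18 3 (.dbl 50 2 49))))) (.nv (.thr 17 34 (.thr 25 29 (.thr 12 38 (.dbl 8 4 59)))) (.rp 34 (.thr 49 50 (.thr 32 16 (.thr 37 47 (.thr 25 13 (.thr 8 59 (.dbl 12 4 38)))))) (.rp 17 (.thr 49 50 (.thr 32 16 (.thr 37 47 (.thr 25 13 (.thr 8 59 (.dbl 12 4 38)))))) .nd))))) (.rp 5 (.thr 16 32 (.str 51 (.nv (.thr 26 31 (.thr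 50 49 (.thr 38 14 (.dbl 34 17 46)))) (.nv (.thr 17 34 (.thr 25 29 (.thr 12 38 (.dbl 8 4 59)))) (.rp 38 (.thr 49 50 (.thr 17 34 (.thr 26 31 (.thr 25 29 (.dbl 37 13 15))))) (.rp 34 (.thr 50 49 (.thr 26 31 (.thr 38 14 (.thr 4 55 (.dbl 12 8 25))))) (.rp 33 (.thr 49 50 (.thr 34 17 (.thr 38 46 (.thr 4 55 (.dbl 12 8 25))))) (.rp 17 (.thr 26 31 (.thr 15 37 (.thr 27 39 (.thr 25 24 (.thr 8 59 (.dbl 12 4 38)))))) (.rp 13 (.str 9 (.nv (.thr 26 31 (.thr 34 17 (.thr 38 46 (.dbl 50 14 49)))) (.nv (.thr 26 31 (.thr 10 58 (.thr 8 11 (.thr 12 4 (.dbl 25 38 59))))) (.nv (.thr 17 34 (.thr 26 31 (.thr 10 58 (.thr 8 11 (.dbl 25 29 59))))) (.nv (.thr 49 50 (.thr 34 17 (.thr 38 46 (.thr 12 25 (.dbl 4 8 55))))) .nd))))) (.rp 9 (.str 13 (.nv (.thr 26 31 (.thr 34 17 (.thr 38 46 (.dbl 50 14 49)))) (.nv (.thr 26 31 (.thr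 15 37 (.thr 12 14 (.thr 4 8 (.dbl 38 25 55))))) (.nv (.thr 49 50 (.thr 25 37 (.dbl 17 29 34))) .nd)))) .nd)))))))))) .nd))))))))))

theorem w142 : WinAt (4398048608257, 9295429630892703746) :=
  chF (K := []) kn c142 4398048608257 9295429630892703746 63
    [] (by decide +kernel) (by decide +kernel)

/-- A certificate. -/
noncomputable def c143 : Ct := (.str 26 (.nv (.thr 16 31 (.thr 48 32 (.thr 37 15 (.dbl 53 5 58)))) (.nv (.thr 31 16 (.thr 15 47 (.thr 37 48 (.dbl 5 10 53)))) (.rp 53 (.thr 16 31 (.thr 48 32 (.thr 37 15 (.str 49 (.nv (.thr 25 13 (.thr 29 17 (.thr 12 46 (.dbl 24 27 36)))) (.nv (.thr 51 50 (.thr 55 59 (.thr 38 4 (.thr 36 39 (.dbl 12 24 25))))) (.nv (.thr 51 50 (.thr 25 13 (.dbl 17 29 34))) (.rp 25 (.thr 51 50 (.thr 17 34 (.thr 18 19 (.thr 22 30 (.thr 23 20 (.dbl 3 33 43))))))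 (.rp 12 (.thr 51 50 (.thr 17 34 (.dbl 25 13 29))) .nd))))))))) (.rp 48 (.str 27 (.nv (.thr 25 24 (.thr 17 29 (.thr 51 34 (.thr 55 59 (.dbl 38 4 12))))) (.nv (.thr 31 16 (.thr 15 47 (.thr 51 39 (.thr 59 55 (.thr 43 11 (.dbl 23 3 19)))))) (.nv (.thr 25 24 (.thr 17 29 (.thr 51 34 (.thr 15 39 (.dbl 31 16 47))))) (.rp 51 (.thr 25 24 (.thr 31 16 (.thr 19 23 (.thr 28 22 (.dbl 29 17 30))))) .nd))))) (.rp 37 (.thr 31 16 (.str 27 (.nv (.thr 47 15 (.thr 25 24 (.thr 17 29 (.thr 51 34 (.thr 38 12 (.dbl 55 4 59)))))) (.nv (.thr 23 19 (.thr 43 3 (.thr 59 11 (.thr 51 55 (.dbl 15 39 47))))) (.nv (.thr 25 24 (.thr 29 17 (.thr 19 23 (.dbl 28 22 30)))) (.rp 47 (.str 32 (.nv (.thr 23 19 (.thr 43 3 (.thr 59 11 (.thr 51 55 (.thr 17 34 (.dbl 25 24 29)))))) (.nv (.thr 25 24 (.thr 17 29 (.thr 51 34 (.thr 38 12 (.dbl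 55 4 59))))) (.nv (.thr 25 24 (.thr 29 17 (.thr 19 23 (.dbl 28 22 30)))) (.rp 29 (.thr 24 25 (.thr 23 19 (.thr 22 20 (.thr 18 30 (.thr 3 43 (.thr 48 33 (.thr 41 60 (.thr 56 11 (.thr 8 40 (.dbl 12 4 36)))))))))) (.rp 25 (.thr 23 19 (.thr 22 20 (.thr 18 30 (.thr 3 43 (.thr 33 48 (.thr 35 34 (.thr 41 60 (.thr 38 44 (.thr 55 4 (.thr 39 7 (.dbl 51 15 59))))))))))) (.rp 24 (.thr 23 19 (.thr 20 22 (.thr 60 40 (.thr 43 3 (.thr 59 11 (.thr 51 55 (.thr 17 34 (.thr 29 25 (.thr 28 30 (.dbl 12 44 46)))))))))) (.rp 17 (.thr 25 24 (.thr 19 23 (.thr 28 22 (.thr 29 30 (.thr 12 46 (.thr 38 51 (.dbl 4 8 55))))))) .nd)))))))) (.rp 17 (.thr 25 24 (.thr 19 23 (.thr 28 22 (.thr 29 30 (.thr 12 46 (.thr 4 8 (.dbl 38 51 55))))))) .nd))))))) (.rp 31 (.str 12 (.nv (.thr 29 46 (.thr 25 17 (.thr 24 27 (.thr 48 36 (.thr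 37 15 (.dbl 53 5 58)))))) (.nv (.thr 4 8 (.thr 38 55 (.thr 14 50 (.thr 15 13 (.thr 5 10 (.dbl 37 48 53)))))) (.nv (.thr 4 8 (.thr 29 46 (.thr 38 55 (.dbl 25 17 51)))) (.rp 38 (.str 24 (.nv (.thr 48 36 (.thr 37 15 (.dbl 53 5 58))) (.nv (.thr 25 27 (.dbl 29 17 46)) (.rp 46 (.str 34 (.nv (.thr 48 36 (.thr 37 15 (.dbl 53 5 58))) (.nv (.thr 17 51 (.dbl 25 27 29)) .nd))) (.rp 34 (.thr 46 29 (.thr 48 36 (.thr 53 58 (.dbl 37 5 15)))) .nd))))) (.rp 25 (.thr 8 4 (.str 9 (.nv (.thr 3 6 (.thr 23 43 (.thr 22 20 (.thr 41 60 (.dbl 11 10 56))))) (.nv (.thr 10 11 (.thr 15 5 (.thr 6 3 (.dbl 14 2 13)))) (.rp 11 (.thr 3 6 (.thr 23 43 (.thr 22 20 (.thr 30 18 (.thr 46 29 (.thr 62 14 (.dbl 60 41 61))))))) (.rp 10 (.thr 3 6 (.thr 23 43 (.thr 22 20 (.thr 18 30 (.thr 48 33 (.thr 53 58 (.dbl 37 5 15))))))) (.rp 6 (.thr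 11 10 (.thr 56 41 (.thr 40 24 (.thr 20 60 (.thr 22 23 (.thr 30 18 (.thr 46 29 (.thr 14 62 (.thr 15 13 (.thr 7 3 (.dbl 37 48 52))))))))))) (.rp 5 (.thr 11 10 (.thr 3 6 (.thr 7 15 (.thr 23 43 (.thr 22 20 (.dbl 41 56 60)))))) (.rp 3 (.thr 10 11 (.thr 15 5 (.thr 48 37 (.thr 24 36 (.thr 40 56 (.thr 20 60 (.dbl 16 28 32))))))) .nd))))))))) .nd)))))) (.rp 16 (.str 12 (.nv (.thr 29 46 (.thr 25 17 (.thr 24 27 (.thr 48 36 (.thr 37 15 (.dbl 53 5 58)))))) (.nv (.thr 4 8 (.thr 38 55 (.thr 14 50 (.thr 15 13 (.thr 5 10 (.dbl 37 48 53)))))) (.nv (.thr 4 8 (.thr 29 46 (.thr 38 55 (.dbl 25 17 51)))) (.rp 38 (.str 24 (.nv (.thr 48 36 (.thr 37 15 (.dbl 53 5 58))) (.nv (.thr 25 27 (.dbl 29 17 46)) (.rp 46 (.str 34 (.nv (.thr 48 36 (.thr 37 15 (.dbl 53 5 58))) (.nv (.thr 25 27 (.dbl 17 29 51)) .nd))) (.rp 34 (.thr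 46 29 (.thr 48 36 (.thr 53 58 (.dbl 37 5 15)))) .nd))))) (.rp 25 (.thr 8 4 (.str 9 (.nv (.thr 3 6 (.thr 23 43 (.thr 22 20 (.thr 41 60 (.dbl 11 10 56))))) (.nv (.thr 10 11 (.thr 15 5 (.thr 6 3 (.dbl 14 2 13)))) (.rp 11 (.thr 3 6 (.thr 23 43 (.thr 22 20 (.thr 30 18 (.thr 29 46 (.thr 28 31 (.dbl 60 41 44))))))) (.rp 10 (.thr 3 6 (.thr 23 43 (.thr 22 20 (.thr 30 18 (.thr 29 46 (.thr 28 31 (.dbl 60 41 44))))))) (.rp 6 (.thr 11 10 (.thr 56 41 (.thr 40 24 (.thr 60 20 (.thr 28 44 (.thr 61 62 (.thr 29 46 (.thr 30 31 (.dbl 45 13 15))))))))) (.rp 5 (.thr 11 10 (.thr 3 6 (.thr 7 15 (.thr 23 43 (.thr 22 20 (.dbl 41 56 60)))))) (.rp 3 (.thr 10 11 (.thr 15 5 (.thr 14 13 (.thr 46 29 (.thr 30 62 (.thr 47 31 (.dbl 45 44 60))))))) .nd))))))))) .nd)))))) (.rp 15 (.str 24 (.nv (.thr 25 27 (.thr 17 29 (.thr 51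 34 (.thr 38 12 (.dbl 55 4 59))))) (.nv (.thr 16 31 (.thr 48 32 (.thr 12 36 (.thr 8 4 (.thr 40 56 (.dbl 20 28 60)))))) (.nv (.thr 25 27 (.thr 16 31 (.thr 17 29 (.thr 28 20 (.dbl 19 18 22))))) .nd)))) (.rp 5 (.thr 31 16 (.thr 15 47 (.thr 37 48 (.str 13 (.nv (.thr 25 49 (.thr 17 29 (.thr 51 34 (.dbl 27 24 39)))) (.nv (.thr 12 14 (.thr 29 46 (.thr 30 28 (.dbl 45 60 61)))) (.nv (.thr 12 14 (.thr 4 8 (.thr 38 55 (.dbl 25 49 51)))) (.rp 38 (.thr 12 14 (.thr 25 49 (.dbl 29 17 46))) .nd)))))))) .nd))))))))))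

theorem w143 : WinAt (9223372036856872961, 144119586122366978) :=
  chF (K := []) kn c143 9223372036856872961 144119586122366978 42
    [] (by decide +kernel) (by decide +kernel)

/-- A certificate. -/
noncomputable def c144 : Ct := (.str 51 (.nv (.thr 34 17 (.thr 42 63 (.thr 38 46 (.thr 12 25 (.dbl 4 8 55))))) (.nv (.thr 17 34 (.thr 25 29 (.thr 12 38 (.thr 42 63 (.dbl 8 4 59))))) (.nv (.thr 17 34 (.thr 25 29 (.thr 38 12 (.thr 55 4 (.dbl 63 42 59))))) (.rp 63 (.str 48 (.nv (.thr 17 34 (.thr 25 29 (.thr 49 50 (.thr 37 13 (.thr 5 53 (.dbl 15 10 26)))))) (.nv (.thr 16 32 (.thr 26 31 (.thr 15 37 (.thr 27 39 (.thr 25 24 (.dbl 17 29 34)))))) (.nv (.thr 32 16 (.thr 34 17 (.thr 33 35 (.thr 50 49 (.dbl 18 2 3))))) (.rp 34 (.thr 16 32 (.thr 50 49 (.thr 26 31 (.thr 38 14 (.thr 4 55 (.dbl 12 8 25))))))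 (.rp 17 (.thr 16 32 (.thr 26 31 (.thr 15 37 (.thr 27 39 (.thr 25 24 (.thr 38 12 (.dbl 50 14 49))))))) .nd)))))) (.rp 42 (.str 26 (.nv (.thr 17 34 (.thr 16 31 (.thr 19 18 (.thr 25 29 (.thr 24 27 (.dbl 28 20 22)))))) (.nv (.thr 16 31 (.thr 48 32 (.thr 50 49 (.thr 38 14 (.thr 4 55 (.dbl 12 8 25)))))) (.nv (.thr 17 34 (.thr 25 29 (.thr 27 24 (.thr 15 39 (.thr 5 10 (.dbl 37 48 53)))))) (.rp 38 (.thr 16 31 (.thr 48 32 (.thr 49 50 (.thr 37 15 (.thr 25 13 (.dbl 17 29 34)))))) (.rp 25 (.thr 16 31 (.thr 48 32 (.thr 50 49 (.thr 37 15 (.thr 38 14 (.thr 36 39 (.thr 4 55 (.dbl 12 8 24)))))))) (.rp 17 (.thr 16 31 (.thr 48 32 (.thr 49 50 (.thr 37 15 (.thr 25 13 (.thr 24 27 (.dbl 12 36 38))))))) .nd))))))) (.rp 38 (.str 16 (.nv (.thr 17 34 (.thr 19 18 (.thr 31 26 (.thr 27 23 (.thr 15 39 (.dbl 63 42 47))))))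 (.nv (.thr 26 31 (.thr 48 32 (.thr 37 15 (.thr 49 50 (.thr 25 13 (.dbl 17 29 34)))))) (.nv (.thr 17 34 (.thr 25 29 (.thr 26 31 (.thr 24 27 (.thr 28 20 (.dbl 19 18 22)))))) (.rp 34 (.thr 48 32 (.thr 49 50 (.thr 26 31 (.thr 37 15 (.thr 53 5 (.thr 57 61 (.thr 54 60 (.thr 55 52 (.dbl 63 42 59))))))))) (.rp 31 (.thr 48 32 (.thr 17 34 (.thr 49 50 (.thr 25 29 (.thr 37 13 (.thr 5 53 (.dbl 15 10 26))))))) (.rp 26 (.thr 17 34 (.thr 19 18 (.thr 3 35 (.thr 25 29 (.thr 22 28 (.thr 20 23 (.dbl 60 40 41))))))) (.rp 17 (.thr 48 32 (.thr 49 50 (.thr 26 31 (.thr 37 15 (.thr 53 5 (.thr 57 61 (.thr 54 60 (.thr 55 52 (.dbl 63 42 59))))))))) .nd)))))))) (.rp 34 (.str 48 (.nv (.thr 16 32 (.thr 26 31 (.thr 50 49 (.thr 38 14 (.thr 4 55 (.dbl 12 8 25)))))) (.nv (.thr 32 16 (.thr 42 63 (.thr 37 47 (.thr 15 26 (.dbl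 5 10 53))))) (.rp 32 (.thr 50 49 (.thr 63 42 (.thr 55 59 (.thr 38 4 (.thr 26 14 (.thr 31 16 (.dbl 15 37 47))))))) (.rp 26 (.thr 32 16 (.thr 49 50 (.thr 42 63 (.thr 37 47 (.thr 25 13 (.thr 8 59 (.dbl 12 4 38))))))) (.rp 16 (.thr 49 50 (.thr 63 42 (.thr 55 59 (.thr 38 4 (.thr 25 12 (.thr 37 13 (.thr 5 53 (.dbl 15 10 26)))))))) .nd)))))) (.rp 25 (.str 16 (.nv (.thr 17 34 (.thr 18 19 (.thr 26 31 (.thr 22 30 (.thr 23 20 (.thr 48 32 (.thr 63 42 (.dbl 3 33 43)))))))) (.nv (.thr 17 34 (.thr 19 18 (.thr 31 26 (.thr 27 23 (.thr 15 39 (.dbl 63 42 47)))))) (.nv (.thr 48 32 (.thr 50 49 (.thr 26 31 (.thr 38 14 (.thr 55 4 (.dbl 63 42 59)))))) (.rp 63 (.thr 48 32 (.thr 50 49 (.thr 26 31 (.thr 38 14 (.thr 4 55 (.thr 12 8 (.thr 36 24 (.dbl 37 15 39)))))))) (.rp 42 (.thr 48 32 (.thr 50 49 (.thr 26 31 (.thr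 38 14 (.thr 4 55 (.thr 37 15 (.thr 36 39 (.dbl 12 8 24)))))))) (.rp 31 (.thr 48 32 (.thr 34 17 (.thr 42 63 (.thr 38 46 (.thr 4 55 (.thr 12 8 (.thr 36 24 (.thr 37 39 (.thr 5 53 (.dbl 15 10 26)))))))))) (.rp 26 (.thr 48 32 (.thr 34 17 (.thr 42 63 (.thr 38 46 (.thr 4 55 (.thr 12 8 (.thr 24 36 (.thr 20 28 (.thr 22 23 (.thr 54 6 (.dbl 60 40 57))))))))))) (.rp 17 (.thr 48 32 (.thr 49 50 (.thr 26 31 (.thr 37 15 (.thr 53 5 (.thr 57 61 (.thr 54 60 (.thr 55 52 (.dbl 63 42 59))))))))) .nd))))))))) (.rp 17 (.str 49 (.nv (.thr 42 63 (.thr 48 50 (.thr 32 16 (.thr 37 47 (.thr 15 26 (.thr 39 27 (.thr 38 36 (.dbl 25 12 13)))))))) (.nv (.thr 63 42 (.thr 55 59 (.thr 38 4 (.thr 25 12 (.thr 37 13 (.thr 5 53 (.thr 39 36 (.dbl 15 10 27)))))))) (.nv (.thr 48 50 (.thr 32 16 (.thr 42 63 (.thr 37 47 (.thr 5 53 (.dbl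 15 10 26)))))) (.rp 63 (.thr 48 50 (.thr 16 32 (.thr 26 31 (.thr 15 37 (.thr 27 39 (.thr 24 25 (.thr 36 12 (.thr 20 28 (.thr 52 4 (.dbl 60 40 56)))))))))) (.rp 48 (.str 5 (.nv (.thr 37 53 (.thr 63 42 (.thr 25 13 (.thr 38 12 (.dbl 55 4 59))))) (.nv (.thr 63 42 (.thr 55 59 (.thr 4 38 (.thr 7 6 (.thr 39 23 (.dbl 15 10 27)))))) (.nv (.thr 53 37 (.thr 57 61 (.thr 54 60 (.thr 63 42 (.dbl 55 52 59))))) (.nv (.thr 37 53 (.thr 63 42 (.thr 55 59 (.thr 25 13 (.dbl 38 4 12))))) (.rp 63 (.thr 53 37 (.thr 15 10 (.thr 27 39 (.thr 57 61 (.thr 60 54 (.thr 20 40 (.thr 22 23 (.thr 30 45 (.thr 26 18 (.thr 24 25 (.dbl 16 28 31))))))))))) (.rp 59 (.thr 37 53 (.thr 63 42 (.thr 25 13 (.thr 38 12 (.thr 36 39 (.thr 4 55 (.thr 7 6 (.dbl 52 20 22)))))))) (.rp 55 (.thr 53 37 (.thr 15 10 (.thr 27 39 (.thr 57 61 (.thr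 60 54 (.thr 20 40 (.thr 23 22 (.thr 31 19 (.dbl 63 42 47))))))))) (.rp 42 (.thr 53 37 (.thr 57 61 (.thr 60 54 (.thr 20 40 (.thr 22 23 (.thr 41 3 (.thr 25 9 (.thr 12 38 (.dbl 28 19 44))))))))) (.rp 26 (.thr 37 53 (.thr 63 42 (.thr 10 15 (.thr 25 13 (.thr 55 59 (.dbl 38 4 12)))))) (.rp 10 (.thr 53 37 (.thr 57 61 (.thr 60 54 (.thr 20 40 (.thr 22 23 (.thr 41 3 (.thr 25 9 (.thr 12 38 (.dbl 28 19 44))))))))) .nd))))))))))) (.rp 42 (.thr 48 50 (.thr 16 32 (.thr 26 31 (.thr 37 15 (.thr 25 13 (.thr 24 27 (.dbl 12 36 38))))))) (.rp 37 (.thr 50 48 (.thr 63 42 (.thr 55 59 (.thr 38 4 (.thr 25 12 (.thr 26 14 (.thr 24 27 (.thr 16 31 (.thr 20 28 (.thr 60 40 (.thr 57 54 (.dbl 61 53 62)))))))))))) (.rp 26 (.thr 48 50 (.thr 32 16 (.thr 42 63 (.thr 37 47 (.thr 25 13 (.thr 8 59 (.dbl 12 4 38))))))) (.rp 15 (.thr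 48 50 (.thr 16 32 (.thr 26 31 (.thr 63 42 (.thr 55 59 (.thr 38 4 (.thr 25 12 (.thr 24 27 (.thr 20 28 (.thr 23 22 (.thr 39 7 (.dbl 37 13 36)))))))))))) .nd)))))))))) (.rp 12 (.str 16 (.nv (.thr 17 34 (.thr 26 31 (.thr 48 32 (.thr 15 37 (.thr 27 39 (.dbl 25 24 29)))))) (.nv (.thr 26 31 (.thr 48 32 (.thr 50 49 (.thr 38 14 (.thr 55 4 (.dbl 63 42 59)))))) (.nv (.thr 17 34 (.thr 19 18 (.thr 25 29 (.thr 26 31 (.thr 28 22 (.dbl 24 20 27)))))) (.rp 31 (.thr 48 32 (.thr 17 34 (.thr 49 50 (.thr 25 29 (.thr 37 13 (.thr 5 53 (.dbl 15 10 26))))))) (.rp 26 (.thr 17 34 (.thr 19 18 (.thr 3 35 (.thr 25 29 (.thr 22 28 (.thr 20 23 (.dbl 60 40 41))))))) (.rp 17 (.thr 48 32 (.thr 26 31 (.thr 63 42 (.thr 55 59 (.thr 38 4 (.dbl 50 14 49)))))) .nd))))))) (.rp 4 (.str 16 (.nv (.thr 17 34 (.thr 19 18 (.thr 25 29 (.thr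 12 38 (.thr 48 32 (.thr 24 36 (.dbl 28 20 22))))))) (.nv (.thr 26 31 (.thr 42 63 (.thr 48 32 (.thr 50 49 (.thr 38 14 (.dbl 34 17 46)))))) (.nv (.thr 17 34 (.thr 19 18 (.thr 25 29 (.thr 26 31 (.thr 28 22 (.dbl 24 20 27)))))) (.rp 50 (.thr 48 32 (.thr 17 34 (.thr 25 29 (.thr 12 38 (.thr 24 36 (.dbl 26 27 31)))))) (.rp 34 (.thr 48 32 (.thr 49 50 (.thr 26 31 (.thr 37 15 (.thr 25 13 (.thr 24 27 (.dbl 12 36 38))))))) (.rp 17 (.thr 48 32 (.thr 49 50 (.thr 26 31 (.thr 37 15 (.thr 25 13 (.thr 24 27 (.dbl 12 36 38))))))) .nd))))))) .nd))))))))))))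

theorem w144 : WinAt (2097153, 288230376151711746) :=
  chF (K := []) kn c144 2097153 288230376151711746 58
    [] (by decide +kernel) (by decide +kernel)

/-- A certificate. -/
noncomputable def c145 : Ct := (.str 37 (.nv (.thr 53 5 (.thr 63 42 (.thr 48 58 (.thr 26 15 (.dbl 16 31 32))))) (.nv (.thr 5 53 (.thr 15 10 (.thr 26 48 (.thr 63 42 (.dbl 31 16 47))))) (.nv (.thr 5 53 (.thr 15 10 (.thr 48 26 (.thr 32 16 (.dbl 42 47 63))))) (.rp 63 (.str 51 (.nv (.thr 17 34 (.thr 25 29 (.thr 49 13 (.thr 48 50 (.thr 16 32 (.dbl 26 15 31)))))) (.nv (.thr 5 53 (.thr 15 10 (.thr 39 27 (.thr 38 36 (.thr 4 55 (.dbl 12 8 25)))))) (.nv (.thr 5 53 (.thr 15 10 (.thr 17 34 (.thr 25 29 (.thr 27 39 (.dbl 26 24 48)))))) (.rp 48 (.thr 17 34 (.thr 25 29 (.thr 12 38 (.thr 13 49 (.thr 15 14 (.dbl 5 10 53)))))) (.rp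 25 (.thr 34 17 (.thr 5 53 (.thr 15 10 (.thr 48 26 (.thr 32 16 (.thr 50 49 (.thr 33 35 (.dbl 18 2 3)))))))) (.rp 15 (.thr 17 34 (.thr 25 29 (.thr 12 38 (.thr 49 13 (.thr 48 50 (.thr 16 32 (.thr 24 36 (.dbl 26 27 31)))))))) (.rp 12 (.thr 17 34 (.thr 5 53 (.thr 15 10 (.thr 48 26 (.thr 49 50 (.dbl 25 13 29)))))) (.rp 5 (.thr 17 34 (.thr 25 29 (.thr 12 38 (.thr 13 49 (.thr 15 14 (.thr 26 48 (.dbl 27 24 39))))))) .nd))))))))) (.rp 53 (.str 49 (.nv (.thr 42 63 (.thr 32 47 (.thr 48 16 (.thr 51 50 (.thr 17 34 (.dbl 25 13 29)))))) (.nv (.thr 25 13 (.thr 17 29 (.thr 51 34 (.thr 48 50 (.thr 16 32 (.dbl 26 15 31)))))) (.nv (.thr 25 13 (.thr 29 17 (.thr 63 42 (.thr 12 46 (.thr 38 51 (.dbl 4 8 55)))))) (.rp 51 (.thr 25 13 (.thr 29 17 (.thr 63 42 (.thr 12 46 (.thr 4 8 (.thr 38 55 (.thr 36 39 (.thr 48 24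 (.thr 16 32 (.dbl 26 15 31)))))))))) (.rp 29 (.thr 25 13 (.thr 42 63 (.thr 32 47 (.thr 48 16 (.thr 51 50 (.thr 34 17 (.dbl 38 12 46))))))) (.rp 25 (.thr 42 63 (.thr 32 47 (.thr 48 16 (.thr 51 50 (.thr 34 17 (.thr 15 26 (.thr 38 46 (.dbl 39 27 36)))))))) (.rp 17 (.thr 25 13 (.thr 42 63 (.thr 32 47 (.thr 48 16 (.thr 51 50 (.thr 12 38 (.thr 24 36 (.dbl 26 15 27)))))))) (.rp 13 (.thr 42 63 (.thr 32 47 (.thr 48 16 (.thr 51 50 (.thr 34 17 (.thr 15 26 (.thr 39 27 (.dbl 38 36 46)))))))) .nd))))))))) (.rp 48 (.str 17 (.nv (.thr 25 29 (.thr 13 49 (.thr 51 34 (.thr 12 38 (.thr 15 14 (.dbl 5 10 53)))))) (.nv (.thr 5 53 (.thr 15 10 (.thr 51 34 (.thr 39 27 (.thr 38 36 (.thr 4 55 (.dbl 12 8 25))))))) (.nv (.thr 5 53 (.thr 25 29 (.thr 13 49 (.thr 51 34 (.thr 15 10 (.dbl 12 14 38)))))) (.rp 53 (.thr 25 29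 (.thr 13 49 (.thr 51 34 (.thr 12 38 (.thr 15 14 (.thr 27 39 (.thr 26 24 (.thr 31 16 (.dbl 63 42 47))))))))) (.rp 51 (.thr 5 53 (.thr 25 29 (.thr 15 10 (.thr 63 42 (.thr 31 47 (.thr 26 16 (.thr 27 24 (.thr 23 19 (.thr 3 43 (.thr 7 11 (.dbl 22 20 52))))))))))) (.rp 38 (.thr 5 53 (.thr 25 29 (.thr 51 34 (.thr 15 10 (.thr 27 39 (.thr 26 24 (.thr 31 16 (.dbl 63 42 47)))))))) (.rp 34 (.thr 5 53 (.thr 25 29 (.thr 13 49 (.thr 15 10 (.thr 12 14 (.thr 4 8 (.dbl 38 51 55))))))) (.rp 25 (.thr 5 53 (.thr 51 34 (.thr 15 10 (.thr 39 27 (.thr 38 36 (.thr 4 55 (.thr 6 7 (.thr 54 22 (.thr 60 57 (.thr 40 20 (.thr 45 30 (.thr 41 33 (.dbl 42 43 63))))))))))))) (.rp 15 (.thr 5 53 (.thr 25 29 (.thr 51 34 (.thr 38 12 (.thr 4 55 (.thr 7 6 (.thr 52 22 (.dbl 36 20 39)))))))) (.rp 12 (.thr 5 53 (.thr 25 29 (.thr 51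 34 (.thr 15 10 (.thr 27 39 (.thr 63 42 (.thr 31 47 (.dbl 26 16 24)))))))) (.rp 10 (.thr 5 53 (.thr 25 29 (.thr 51 34 (.thr 38 12 (.thr 4 55 (.thr 7 6 (.thr 52 22 (.dbl 36 20 39)))))))) (.rp 5 (.thr 25 29 (.thr 13 49 (.thr 51 34 (.thr 12 38 (.thr 15 14 (.thr 27 39 (.thr 26 24 (.thr 31 16 (.dbl 63 42 47))))))))) .nd))))))))))))) (.rp 42 (.str 25 (.nv (.thr 17 29 (.thr 49 13 (.thr 51 34 (.thr 48 50 (.thr 16 32 (.dbl 26 15 31)))))) (.nv (.thr 5 53 (.thr 13 49 (.thr 15 10 (.thr 12 14 (.thr 4 8 (.dbl 38 51 55)))))) (.nv (.thr 5 53 (.thr 15 10 (.thr 17 29 (.thr 51 34 (.thr 27 39 (.dbl 26 24 48)))))) (.rp 51 (.thr 17 29 (.thr 5 53 (.thr 15 10 (.thr 26 48 (.thr 16 31 (.thr 19 18 (.thr 28 22 (.dbl 24 20 27)))))))) (.rp 38 (.thr 17 29 (.thr 5 53 (.thr 15 10 (.thr 26 48 (.thr 27 24 (.dbl 51 34 39))))))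 (.rp 26 (.thr 17 29 (.thr 5 53 (.thr 51 34 (.thr 38 12 (.thr 39 36 (.dbl 15 10 27)))))) (.rp 17 (.thr 5 53 (.thr 15 10 (.thr 26 48 (.thr 27 24 (.thr 51 39 (.thr 12 38 (.dbl 13 14 49))))))) (.rp 15 (.thr 17 29 (.thr 5 53 (.thr 51 34 (.thr 38 12 (.thr 4 55 (.thr 7 6 (.thr 52 22 (.dbl 36 20 39)))))))) (.rp 5 (.thr 17 29 (.thr 51 34 (.thr 38 12 (.thr 39 36 (.thr 15 27 (.thr 48 26 (.dbl 49 13 50))))))) .nd)))))))))) (.rp 26 (.str 49 (.nv (.thr 25 13 (.thr 17 29 (.thr 42 63 (.thr 51 34 (.thr 32 47 (.dbl 48 16 50)))))) (.nv (.thr 42 63 (.thr 32 47 (.thr 48 16 (.thr 51 50 (.thr 17 34 (.dbl 25 13 29)))))) (.nv (.thr 25 13 (.thr 29 17 (.thr 63 42 (.thr 12 46 (.thr 38 51 (.dbl 4 8 55)))))) (.rp 63 (.thr 5 53 (.thr 25 13 (.thr 17 29 (.thr 51 34 (.thr 15 10 (.thr 39 27 (.dbl 38 12 36))))))) (.rp 51 (.thr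 53 5 (.thr 61 57 (.thr 63 42 (.thr 60 62 (.thr 20 40 (.thr 22 23 (.thr 52 7 (.dbl 48 56 58)))))))) (.rp 42 (.thr 5 53 (.thr 25 13 (.thr 17 29 (.thr 51 34 (.thr 38 12 (.thr 39 36 (.dbl 15 10 27))))))) (.rp 29 (.thr 25 13 (.thr 42 63 (.thr 32 47 (.thr 48 16 (.thr 51 50 (.thr 34 17 (.dbl 38 12 46))))))) (.rp 25 (.thr 5 53 (.thr 15 10 (.thr 42 63 (.thr 32 47 (.thr 48 16 (.thr 51 50 (.thr 34 17 (.thr 38 46 (.dbl 39 27 36))))))))) (.rp 17 (.thr 53 5 (.thr 61 57 (.thr 63 42 (.thr 60 62 (.thr 20 40 (.thr 22 23 (.thr 52 7 (.dbl 48 56 58)))))))) (.rp 13 (.thr 42 63 (.thr 32 47 (.thr 48 16 (.thr 51 50 (.thr 34 17 (.thr 38 46 (.thr 4 55 (.dbl 12 8 25)))))))) .nd))))))))))) (.rp 16 (.str 17 (.nv (.thr 5 53 (.thr 15 10 (.thr 25 29 (.thr 13 49 (.thr 12 14 (.thr 4 8 (.dbl 38 51 55))))))) (.nv (.thr 25 29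 (.thr 49 13 (.thr 51 34 (.thr 48 50 (.thr 63 42 (.dbl 53 5 58)))))) (.nv (.thr 5 53 (.thr 15 10 (.thr 25 29 (.thr 51 34 (.thr 27 39 (.dbl 26 24 48)))))) (.rp 53 (.thr 25 29 (.thr 49 13 (.thr 51 34 (.thr 12 38 (.thr 48 50 (.thr 24 36 (.dbl 26 15 27))))))) (.rp 51 (.thr 5 53 (.thr 25 29 (.thr 13 49 (.thr 15 10 (.thr 12 14 (.thr 4 8 (.thr 48 26 (.thr 36 24 (.dbl 38 39 55))))))))) (.rp 29 (.thr 5 53 (.thr 51 34 (.thr 15 10 (.thr 39 27 (.thr 38 36 (.thr 4 55 (.dbl 12 8 25))))))) (.rp 25 (.thr 5 53 (.thr 51 34 (.thr 15 10 (.thr 39 27 (.thr 38 36 (.thr 4 55 (.thr 26 48 (.thr 14 50 (.dbl 12 8 13))))))))) (.rp 5 (.thr 25 29 (.thr 13 49 (.thr 51 34 (.thr 12 38 (.thr 15 14 (.thr 27 39 (.dbl 26 24 48))))))) .nd))))))))) (.rp 15 (.str 25 (.nv (.thr 17 29 (.thr 49 13 (.thr 51 34 (.thr 48 50 (.thr 32 16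 (.dbl 42 47 63)))))) (.nv (.thr 29 17 (.thr 63 42 (.thr 12 46 (.thr 4 8 (.dbl 38 51 55))))) (.rp 63 (.thr 17 29 (.thr 49 13 (.thr 51 34 (.thr 48 50 (.thr 16 32 (.thr 12 38 (.thr 24 36 (.dbl 26 27 31)))))))) (.rp 51 (.thr 29 17 (.thr 53 5 (.thr 63 42 (.thr 48 58 (.thr 16 32 (.thr 26 31 (.thr 12 46 (.dbl 24 27 36)))))))) (.rp 49 (.thr 17 29 (.thr 5 53 (.thr 51 34 (.thr 38 12 (.thr 4 55 (.thr 7 6 (.thr 52 22 (.dbl 36 20 39)))))))) (.rp 42 (.thr 17 29 (.thr 5 53 (.thr 51 34 (.thr 38 12 (.thr 4 55 (.thr 7 6 (.thr 52 22 (.dbl 36 20 39)))))))) (.rp 34 (.thr 29 17 (.thr 63 42 (.thr 12 46 (.thr 38 51 (.dbl 4 8 55))))) (.rp 29 (.thr 53 5 (.thr 63 42 (.thr 48 58 (.thr 16 32 (.thr 26 31 (.thr 24 27 (.thr 12 36 (.thr 4 8 (.dbl 38 51 55))))))))) (.rp 17 (.thr 53 5 (.thr 63 42 (.thr 48 58 (.thr 16 32 (.thr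 26 31 (.thr 24 27 (.thr 12 36 (.thr 4 8 (.dbl 38 51 55))))))))) (.rp 12 (.thr 17 29 (.thr 53 5 (.thr 51 34 (.thr 63 42 (.thr 48 58 (.dbl 49 13 50)))))) .nd))))))))))) (.rp 5 (.str 13 (.nv (.thr 42 63 (.thr 32 47 (.thr 48 16 (.thr 15 26 (.thr 12 14 (.thr 4 8 (.thr 36 24 (.dbl 38 39 55)))))))) (.nv (.thr 25 49 (.thr 42 63 (.thr 32 47 (.thr 48 16 (.thr 15 26 (.thr 12 14 (.thr 4 8 (.dbl 38 51 55)))))))) (.nv (.thr 25 49 (.thr 17 29 (.thr 51 34 (.thr 12 38 (.thr 15 14 (.thr 26 48 (.dbl 27 24 39))))))) (.rp 51 (.thr 25 49 (.thr 17 29 (.thr 63 42 (.str 48 (.nv (.thr 16 32 (.dbl 26 15 31)) (.rp 32 (.thr 15 26 (.thr 12 14 (.thr 4 8 (.thr 36 24 (.dbl 38 39 55))))) (.rp 31 (.thr 16 32 (.thr 26 15 (.thr 19 18 (.thr 28 22 (.dbl 24 20 27))))) (.rp 26 (.thr 16 32 (.thr 19 18 (.thr 22 28 (.thr 52 7 (.thr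 60 56 (.dbl 20 23 40)))))) (.rp 16 (.thr 15 26 (.thr 12 14 (.thr 4 8 (.thr 36 24 (.dbl 38 39 55))))) (.rp 15 (.thr 16 32 (.thr 31 26 (.thr 19 18 (.thr 22 28 (.dbl 23 20 27))))) .nd)))))))))) (.rp 48 (.thr 25 49 (.thr 17 29 (.thr 51 34 (.thr 12 38 (.thr 15 14 (.thr 27 39 (.thr 26 24 (.thr 31 16 (.dbl 63 42 47))))))))) (.rp 42 (.thr 25 49 (.thr 17 29 (.thr 51 34 (.thr 38 12 (.thr 4 55 (.thr 36 39 (.thr 20 52 (.thr 60 40 (.thr 54 57 (.dbl 22 6 23)))))))))) (.rp 38 (.thr 25 49 (.thr 17 29 (.thr 42 63 (.thr 32 47 (.thr 16 48 (.thr 19 18 (.thr 28 22 (.thr 24 20 (.dbl 26 27 31))))))))) (.rp 26 (.thr 49 25 (.thr 42 63 (.thr 32 47 (.thr 48 16 (.thr 51 50 (.thr 34 17 (.thr 35 33 (.thr 38 46 (.thr 36 39 (.dbl 44 40 41)))))))))) (.rp 25 (.thr 42 63 (.thr 32 47 (.thr 48 16 (.thr 15 26 (.thr 12 14 (.thr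 24 36 (.thr 8 4 (.thr 40 56 (.thr 41 43 (.thr 45 33 (.dbl 60 20 30))))))))))) (.rp 15 (.thr 25 49 (.thr 17 29 (.thr 51 34 (.thr 38 12 (.thr 4 55 (.thr 36 39 (.thr 20 52 (.thr 60 40 (.thr 54 57 (.dbl 22 6 23)))))))))) (.rp 14 (.thr 49 25 (.thr 42 63 (.thr 32 47 (.thr 48 16 (.thr 51 50 (.thr 34 17 (.thr 15 26 (.thr 38 46 (.dbl 39 27 36))))))))) (.rp 12 (.thr 49 25 (.thr 42 63 (.thr 32 47 (.thr 48 16 (.thr 51 50 (.thr 34 17 (.thr 33 35 (.thr 45 41 (.thr 29 61 (.thr 15 26 (.thr 38 46 (.dbl 39 27 36)))))))))))) .nd))))))))))))) .nd))))))))))))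

theorem w145 : WinAt (2097153, 576460752303423490) :=
  chF (K := []) kn c145 2097153 576460752303423490 59
    [] (by decide +kernel) (by decide +kernel)

/-- A certificate. -/
noncomputable def c146 : Ct := (.str 38 (.nv (.thr 4 55 (.thr 12 8 (.thr 25 51 (.dbl 29 17 46)))) (.nv (.thr 55 4 (.thr 51 59 (.thr 17 34 (.dbl 25 12 29)))) (.rp 55 (.str 48 (.nv (.thr 16 32 (.thr 26 31 (.thr 50 14 (.thr 51 49 (.thr 17 34 (.dbl 25 12 29)))))) (.nv (.thr 53 58 (.thr 37 5 (.thr 36 39 (.thr 12 24 (.thr 29 46 (.dbl 25 17 51)))))) (.nv (.thr 16 32 (.thr 53 58 (.thr 26 31 (.dbl 37 5 15)))) (.rp 37 (.thr 53 58 (.str 26 (.nv (.dbl 16 31 32) (.rp 47 (.thr 32 16 (.thr 50 14 (.thr 51 49 (.thr 25 12 (.dbl 17 29 34))))) (.rp 32 (.str 47 (.nv (.dbl 31 15 16) (.rp 31 (.thr 50 14 (.thr 51 49 (.thr 17 34 (.dbl 25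 12 29)))) (.rp 16 (.thr 50 14 (.thr 51 49 (.thr 17 34 (.dbl 25 12 29)))) (.rp 15 (.thr 50 14 (.thr 51 49 (.thr 17 34 (.dbl 25 12 29)))) .nd))))) (.rp 31 (.thr 50 14 (.thr 51 49 (.thr 25 12 (.dbl 17 29 34)))) (.rp 16 (.thr 50 14 (.thr 51 49 (.thr 25 12 (.dbl 17 29 34)))) .nd))))))) (.rp 26 (.str 36 (.nv (.thr 12 24 (.thr 25 51 (.dbl 29 17 46))) (.nv (.thr 37 39 (.dbl 53 5 58)) (.rp 58 (.str 10 (.nv (.thr 12 24 (.thr 25 51 (.dbl 29 17 46))) (.nv (.thr 5 15 (.dbl 37 39 53)) .nd))) (.rp 10 (.thr 58 53 (.thr 12 24 (.thr 29 46 (.dbl 25 17 51)))) .nd))))) .nd)))))) (.rp 51 (.thr 4 55 (.str 37 (.nv (.thr 12 8 (.thr 36 39 (.thr 48 24 (.thr 16 32 (.dbl 26 15 31))))) (.nv (.thr 53 5 (.thr 48 58 (.thr 16 32 (.dbl 26 15 31)))) (.nv (.thr 5 53 (.thr 7 6 (.thr 36 39 (.dbl 52 20 22)))) (.rp 57 (.str 54 (.nv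 (.thr 22 6 (.thr 20 23 (.dbl 36 39 52))) (.nv (.thr 12 8 (.thr 53 5 (.thr 48 58 (.dbl 36 24 39)))) (.nv (.thr 5 53 (.dbl 6 7 22)) .nd)))) (.rp 54 (.str 57 (.nv (.thr 53 5 (.thr 49 61 (.thr 12 8 (.thr 29 46 (.dbl 25 13 17))))) (.nv (.thr 36 39 (.thr 5 53 (.thr 52 20 (.dbl 7 6 22)))) (.rp 53 (.str 52 (.nv (.dbl 36 20 39) (.rp 39 (.thr 20 36 (.dbl 22 7 23)) (.rp 36 (.thr 7 22 (.thr 5 6 (.thr 15 10 (.thr 26 48 (.dbl 31 16 47))))) (.rp 20 (.thr 36 39 (.thr 12 8 (.thr 48 24 (.thr 16 32 (.dbl 26 15 31))))) .nd))))) (.rp 5 (.thr 36 39 (.thr 12 8 (.thr 48 24 (.thr 16 32 (.dbl 26 15 31))))) .nd))))) (.rp 15 (.thr 5 53 (.thr 7 6 (.thr 52 22 (.dbl 36 20 39)))) .nd)))))))) (.rp 29 (.str 36 (.nv (.thr 37 39 (.thr 5 53 (.thr 15 10 (.thr 26 48 (.dbl 31 16 47))))) (.nv (.thr 4 55 (.thr 12 8 (.thr 48 24 (.thr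 16 32 (.thr 26 31 (.dbl 37 15 39)))))) (.nv (.thr 37 39 (.thr 4 55 (.thr 5 53 (.thr 52 20 (.dbl 7 6 22))))) (.rp 39 (.thr 4 55 (.thr 12 8 (.thr 48 24 (.thr 16 32 (.thr 53 58 (.thr 37 5 (.dbl 26 15 31))))))) (.rp 37 (.thr 4 55 (.thr 20 52 (.thr 22 23 (.thr 12 8 (.thr 25 51 (.thr 28 19 (.dbl 24 16 48))))))) .nd)))))) (.rp 25 (.thr 55 4 (.str 37 (.nv (.thr 59 51 (.thr 39 36 (.thr 7 23 (.thr 52 22 (.dbl 53 5 54))))) (.nv (.thr 5 53 (.thr 15 10 (.thr 31 47 (.dbl 26 16 48)))) (.rp 59 (.str 8 (.nv (.thr 39 36 (.thr 53 5 (.thr 7 23 (.dbl 52 22 54)))) (.nv (.thr 5 53 (.thr 15 10 (.thr 31 47 (.dbl 26 16 48)))) (.rp 53 (.thr 39 36 (.thr 23 7 (.thr 43 3 (.thr 47 35 (.thr 15 31 (.thr 26 48 (.thr 14 50 (.thr 10 5 (.thr 6 2 (.dbl 22 20 54)))))))))) (.rp 5 (.thr 39 36 (.thr 7 23 (.thr 52 22 (.thr 53 54 (.thr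 48 58 (.thr 26 15 (.dbl 16 31 32))))))) .nd))))) (.rp 53 (.thr 39 36 (.thr 23 7 (.thr 43 3 (.thr 47 35 (.thr 15 31 (.dbl 51 27 59)))))) (.rp 5 (.thr 39 36 (.thr 7 23 (.thr 52 22 (.thr 53 54 (.thr 48 58 (.thr 16 32 (.dbl 26 15 31))))))) .nd))))))) (.rp 17 (.thr 4 55 (.str 36 (.nv (.thr 12 8 (.thr 48 24 (.thr 16 32 (.thr 26 31 (.dbl 37 15 39))))) (.nv (.thr 37 39 (.thr 5 53 (.thr 52 20 (.dbl 7 6 22)))) (.rp 49 (.str 33 (.nv (.thr 12 8 (.thr 48 24 (.thr 32 16 (.thr 35 34 (.dbl 44 40 41))))) (.nv (.thr 37 39 (.thr 52 20 (.thr 5 53 (.dbl 7 6 22)))) (.rp 20 (.thr 37 39 (.thr 53 5 (.thr 48 58 (.dbl 12 8 24)))) .nd)))) (.rp 39 (.thr 12 8 (.thr 48 24 (.thr 16 32 (.thr 53 58 (.thr 37 5 (.dbl 26 15 31)))))) (.rp 37 (.thr 20 52 (.thr 22 23 (.thr 12 8 (.thr 25 51 (.thr 28 19 (.dbl 24 16 48)))))) (.rp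 33 (.str 49 (.nv (.thr 12 8 (.thr 48 24 (.dbl 51 25 50))) (.nv (.thr 52 20 (.thr 37 39 (.thr 7 22 (.dbl 5 6 53)))) (.nv (.thr 37 39 (.thr 12 8 (.dbl 25 13 51))) .nd)))) .nd)))))))) (.rp 12 (.str 39 (.nv (.thr 37 36 (.thr 55 4 (.thr 53 5 (.thr 7 23 (.dbl 52 22 54))))) (.nv (.thr 55 4 (.thr 51 59 (.thr 15 27 (.thr 47 31 (.thr 43 35 (.dbl 23 3 7)))))) (.nv (.thr 37 36 (.thr 5 53 (.thr 15 10 (.thr 31 47 (.dbl 26 16 48))))) (.rp 44 (.str 28 (.nv (.thr 37 36 (.thr 5 53 (.thr 15 10 (.thr 31 47 (.dbl 26 16 48))))) (.nv (.thr 55 4 (.thr 51 59 (.thr 17 34 (.thr 25 29 (.thr 22 19 (.dbl 23 7 20)))))) .nd))) (.rp 28 (.str 44 (.nv (.thr 37 36 (.thr 53 5 (.thr 48 58 (.thr 16 32 (.dbl 26 15 31))))) (.nv (.thr 55 4 (.thr 23 7 (.thr 35 41 (.dbl 43 3 47)))) (.rp 5 (.thr 55 4 (.thr 35 41 (.thr 43 47 (.dbl 23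 3 7)))) .nd)))) .nd)))))) (.rp 8 (.thr 55 4 (.thr 51 59 (.thr 25 12 (.dbl 17 29 34)))) (.rp 4 (.str 48 (.nv (.thr 16 32 (.thr 26 31 (.thr 50 14 (.thr 51 49 (.thr 17 34 (.dbl 25 12 29)))))) (.nv (.thr 53 58 (.thr 37 5 (.thr 36 39 (.thr 12 24 (.thr 29 46 (.dbl 25 17 51)))))) (.nv (.thr 16 32 (.thr 53 58 (.thr 26 31 (.dbl 37 5 15)))) (.rp 37 (.thr 53 58 (.str 26 (.nv (.dbl 16 31 32) (.rp 47 (.thr 32 16 (.thr 50 14 (.thr 51 49 (.thr 25 12 (.dbl 17 29 34))))) (.rp 32 (.str 47 (.nv (.dbl 31 15 16) (.rp 31 (.thr 50 14 (.thr 51 49 (.thr 17 34 (.dbl 25 12 29)))) (.rp 16 (.thr 50 14 (.thr 51 49 (.thr 17 34 (.dbl 25 12 29)))) (.rp 15 (.thr 50 14 (.thr 51 49 (.thr 17 34 (.dbl 25 12 29)))) .nd))))) (.rp 31 (.thr 50 14 (.thr 51 49 (.thr 25 12 (.dbl 17 29 34)))) (.rp 16 (.thr 50 14 (.thr 51 49 (.thr 25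 12 (.dbl 17 29 34)))) .nd))))))) (.rp 26 (.str 36 (.nv (.thr 12 24 (.thr 25 51 (.dbl 29 17 46))) (.nv (.thr 37 39 (.dbl 53 5 58)) (.rp 58 (.str 10 (.nv (.thr 12 24 (.thr 25 51 (.dbl 29 17 46))) (.nv (.thr 37 39 (.dbl 5 15 53)) .nd))) (.rp 10 (.thr 58 53 (.thr 12 24 (.thr 29 46 (.dbl 25 17 51)))) .nd))))) .nd)))))) .nd)))))))))))

theorem w146 : WinAt (9223372036856872961, 1152925902653358082) :=
  chF (K := []) kn c146 9223372036856872961 1152925902653358082 42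
    [] (by decide +kernel) (by decide +kernel)

/-- A certificate. -/
noncomputable def c147 : Ct := (.str 37 (.nv (.thr 5 53 (.thr 15 10 (.thr 26 48 (.dbl 31 16 47)))) (.nv (.thr 53 5 (.thr 48 58 (.thr 26 15 (.dbl 16 31 32)))) (.rp 53 (.str 51 (.nv (.thr 55 59 (.thr 38 4 (.thr 39 36 (.thr 15 27 (.thr 31 47 (.dbl 26 16 48)))))) (.nv (.thr 55 59 (.thr 38 4 (.thr 17 34 (.dbl 25 12 29)))) (.rp 59 (.thr 17 34 (.thr 25 29 (.thr 38 12 (.thr 39 36 (.thr 15 27 (.thr 31 47 (.dbl 26 16 48))))))) (.rp 57 (.str 49 (.nv (.thr 48 50 (.thr 16 32 (.dbl 26 15 31))) (.nv (.thr 17 34 (.dbl 25 13 29)) .nd))) (.rp 55 (.thr 17 34 (.thr 25 29 (.thr 38 12 (.thr 39 36 (.thr 15 27 (.thr 31 47 (.dbl 26 16 48))))))) (.rp 49 (.str 57 (.nv (.thr 54 60 (.thr 55 59 (.thr 38 4 (.thr 22 6 (.thr 7 52 (.dbl 23 20 39)))))) (.nv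 (.thr 17 34 (.thr 25 29 (.thr 41 9 (.thr 60 54 (.thr 20 40 (.dbl 22 3 23)))))) (.nv (.thr 17 34 (.thr 55 59 (.thr 38 4 (.dbl 25 12 29)))) (.rp 55 (.thr 17 34 (.thr 25 29 (.thr 41 9 (.thr 38 12 (.thr 35 44 (.thr 3 19 (.dbl 60 22 54))))))) (.rp 38 (.thr 59 55 (.thr 56 58 (.thr 60 54 (.thr 52 48 (.thr 20 40 (.dbl 22 7 23)))))) (.rp 25 (.thr 59 55 (.thr 56 58 (.thr 60 54 (.thr 52 48 (.thr 20 40 (.dbl 22 7 23)))))) (.rp 17 (.str 33 (.nv (.thr 41 45 (.thr 60 54 (.thr 20 40 (.dbl 22 3 23)))) (.nv (.thr 55 59 (.thr 38 4 (.thr 25 12 (.dbl 41 9 45)))) (.rp 55 (.thr 41 45 (.thr 25 9 (.thr 38 12 (.thr 35 44 (.thr 3 19 (.dbl 60 22 54)))))) (.rp 45 (.thr 59 55 (.thr 56 58 (.thr 60 54 (.thr 52 48 (.thr 20 40 (.dbl 22 7 23)))))) (.rp 41 (.thr 59 55 (.thr 56 58 (.thr 60 54 (.thr 52 48 (.thr 22 7 (.dbl 20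 23 40)))))) .nd)))))) .nd)))))))) (.rp 38 (.str 49 (.nv (.thr 48 50 (.thr 16 32 (.dbl 26 15 31))) (.nv (.thr 25 13 (.dbl 17 29 34)) (.rp 46 (.thr 34 17 (.thr 48 50 (.thr 16 32 (.dbl 26 15 31)))) (.rp 34 (.str 46 (.nv (.thr 48 50 (.thr 16 32 (.dbl 26 15 31))) (.nv (.thr 29 12 (.dbl 25 13 17)) .nd))) .nd))))) (.rp 25 (.str 48 (.nv (.thr 16 32 (.dbl 26 15 31)) (.rp 59 (.str 8 (.nv (.thr 4 12 (.thr 15 26 (.thr 38 55 (.dbl 39 27 36)))) (.nv (.thr 16 32 (.dbl 26 15 31)) (.rp 57 (.thr 49 50 (.thr 16 32 (.dbl 26 15 31))) (.rp 49 (.str 57 (.nv (.thr 17 34 (.thr 60 54 (.thr 40 20 (.dbl 56 24 52)))) (.nv (.thr 16 32 (.dbl 26 15 31)) (.rp 17 (.str 33 (.nv (.thr 41 45 (.thr 60 54 (.dbl 3 18 22))) (.nv (.thr 16 32 (.dbl 26 15 31)) .nd))) .nd)))) (.rp 26 (.thr 12 4 (.thr 24 36 (.thr 40 56 (.thr 16 32 (.dbl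 20 28 60))))) (.rp 15 (.thr 12 4 (.thr 24 36 (.thr 40 56 (.thr 16 32 (.dbl 20 28 60))))) .nd))))))) (.rp 57 (.thr 49 50 (.thr 16 32 (.dbl 26 15 31))) (.rp 49 (.str 57 (.nv (.thr 59 55 (.thr 56 58 (.dbl 60 52 54))) (.nv (.thr 16 32 (.dbl 26 15 31)) (.rp 59 (.str 8 (.nv (.thr 17 34 (.thr 60 54 (.thr 40 20 (.dbl 56 24 52)))) (.nv (.thr 16 32 (.dbl 26 15 31)) (.rp 17 (.str 33 (.nv (.thr 41 45 (.thr 60 54 (.dbl 3 18 22))) (.nv (.thr 16 32 (.dbl 26 15 31)) .nd))) .nd)))) (.rp 33 (.thr 17 34 (.thr 26 15 (.dbl 16 31 32))) (.rp 26 (.thr 60 54 (.thr 52 56 (.thr 20 40 (.dbl 22 7 23)))) (.rp 17 (.str 33 (.nv (.thr 41 45 (.thr 60 54 (.dbl 3 18 22))) (.nv (.thr 16 32 (.dbl 26 15 31)) (.rp 59 (.str 8 (.nv (.thr 41 45 (.thr 60 54 (.dbl 3 18 22))) (.nv (.thr 16 32 (.dbl 26 15 31)) .nd))) (.rp 8 (.thr 59 55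 (.thr 16 32 (.dbl 26 15 31))) .nd))))) .nd))))))) (.rp 32 (.thr 59 55 (.thr 15 26 (.thr 31 47 (.thr 27 39 (.thr 23 19 (.dbl 43 3 11)))))) (.rp 31 (.thr 32 16 (.thr 34 17 (.thr 33 35 (.thr 18 3 (.dbl 50 2 49))))) (.rp 26 (.thr 32 16 (.thr 34 17 (.thr 33 35 (.thr 18 3 (.dbl 50 2 49))))) (.rp 16 (.thr 59 55 (.thr 15 26 (.thr 31 47 (.thr 27 39 (.thr 23 19 (.dbl 43 3 11)))))) (.rp 15 (.thr 32 16 (.thr 34 17 (.thr 33 35 (.thr 18 3 (.dbl 50 2 49))))) (.rp 8 (.thr 59 55 (.thr 16 32 (.dbl 26 15 31))) .nd))))))))))) (.rp 8 (.thr 17 34 (.thr 55 59 (.thr 25 29 (.dbl 38 4 12)))) (.rp 4 (.thr 17 34 (.thr 25 29 (.thr 38 12 (.thr 39 36 (.thr 15 27 (.thr 31 47 (.dbl 26 16 48))))))) .nd))))))))))) (.rp 48 (.str 25 (.nv (.thr 5 53 (.thr 15 10 (.thr 17 29 (.thr 51 34 (.thr 38 12 (.dbl 39 27 36)))))) (.nv (.thr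 29 17 (.thr 12 46 (.thr 4 8 (.dbl 38 51 55)))) (.rp 51 (.thr 5 53 (.thr 29 17 (.thr 12 46 (.thr 15 10 (.dbl 13 14 49))))) (.rp 49 (.thr 17 29 (.thr 51 34 (.thr 55 59 (.dbl 38 4 12)))) (.rp 38 (.thr 5 53 (.thr 17 29 (.thr 15 10 (.thr 31 47 (.thr 26 16 (.thr 27 24 (.dbl 51 34 39))))))) (.rp 34 (.thr 29 17 (.thr 12 46 (.thr 38 51 (.dbl 4 8 55)))) (.rp 29 (.thr 5 53 (.thr 15 10 (.thr 31 47 (.thr 26 16 (.thr 27 24 (.thr 51 39 (.thr 55 59 (.dbl 38 4 12)))))))) (.rp 17 (.thr 5 53 (.thr 15 10 (.thr 31 47 (.thr 26 16 (.thr 27 24 (.thr 51 39 (.thr 55 59 (.dbl 38 4 12)))))))) (.rp 12 (.thr 5 53 (.thr 17 29 (.thr 51 34 (.thr 55 59 (.thr 38 4 (.thr 15 10 (.dbl 39 27 36))))))) .nd)))))))))) (.rp 31 (.str 25 (.nv (.thr 5 53 (.thr 15 10 (.thr 17 29 (.thr 26 48 (.thr 27 24 (.dbl 51 34 39)))))) (.nv (.thr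 29 17 (.thr 12 46 (.thr 38 51 (.dbl 4 8 55)))) (.rp 51 (.thr 29 17 (.thr 5 53 (.thr 15 10 (.thr 12 46 (.dbl 13 14 49))))) (.rp 49 (.thr 17 29 (.thr 51 34 (.thr 55 59 (.dbl 38 4 12)))) (.rp 29 (.thr 5 53 (.thr 15 10 (.thr 26 48 (.thr 27 24 (.thr 51 39 (.thr 55 59 (.dbl 38 4 12))))))) (.rp 17 (.thr 5 53 (.thr 15 10 (.thr 26 48 (.thr 27 24 (.thr 51 39 (.thr 55 59 (.dbl 38 4 12))))))) (.rp 12 (.thr 17 29 (.thr 53 5 (.thr 48 58 (.thr 51 34 (.dbl 49 13 50))))) .nd)))))))) (.rp 26 (.thr 53 5 (.thr 58 48 (.str 55 (.nv (.thr 51 59 (.thr 17 34 (.thr 25 29 (.dbl 38 4 12)))) (.nv (.thr 52 54 (.thr 22 7 (.thr 20 23 (.dbl 4 36 38)))) (.rp 38 (.thr 52 54 (.thr 22 7 (.thr 23 20 (.thr 51 59 (.thr 3 43 (.thr 19 35 (.thr 25 28 (.dbl 17 29 34)))))))) (.rp 13 (.str 9 (.nv (.thr 51 59 (.thr 38 4 (.thr 17 34 (.dbl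 25 12 29)))) (.nv (.thr 52 54 (.thr 22 7 (.thr 20 23 (.dbl 4 36 38)))) (.rp 45 (.str 29 (.nv (.thr 12 46 (.thr 38 4 (.thr 6 3 (.dbl 54 22 52)))) (.nv (.thr 51 59 (.dbl 17 25 34)) .nd))) (.rp 38 (.thr 59 51 (.thr 52 54 (.thr 57 56 (.thr 22 7 (.thr 20 23 (.thr 60 40 (.dbl 41 3 25))))))) (.rp 29 (.str 45 (.nv (.thr 41 33 (.thr 57 25 (.dbl 59 51 56))) (.nv (.thr 52 54 (.thr 22 7 (.thr 20 23 (.dbl 4 36 38)))) .nd))) (.rp 7 (.thr 51 59 (.thr 54 52 (.thr 38 4 (.thr 6 22 (.dbl 12 3 25))))) (.rp 6 (.thr 52 54 (.thr 38 4 (.thr 7 22 (.dbl 39 23 36)))) (.rp 4 (.thr 51 59 (.thr 52 54 (.thr 17 34 (.thr 7 22 (.thr 39 23 (.thr 38 36 (.dbl 25 12 29))))))) .nd))))))))) (.rp 9 (.str 13 (.nv (.thr 38 4 (.thr 39 36 (.thr 7 23 (.dbl 52 22 54)))) (.nv (.thr 51 59 (.thr 25 49 (.dbl 17 29 34))) .nd))) (.rp 4 (.thr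 52 54 (.thr 7 22 (.thr 39 23 (.thr 38 36 (.thr 51 59 (.thr 17 34 (.dbl 25 12 29))))))) .nd))))))))) (.rp 16 (.str 25 (.nv (.thr 5 53 (.thr 15 10 (.thr 26 48 (.thr 27 24 (.thr 51 39 (.dbl 17 29 34)))))) (.nv (.thr 17 29 (.thr 51 34 (.thr 38 12 (.dbl 55 4 59)))) (.rp 51 (.thr 29 17 (.thr 5 53 (.thr 15 10 (.thr 12 46 (.dbl 13 14 49))))) (.rp 34 (.thr 29 17 (.thr 12 46 (.thr 38 51 (.dbl 4 8 55)))) (.rp 29 (.thr 53 5 (.thr 48 58 (.thr 26 15 (.thr 24 27 (.thr 12 36 (.thr 4 8 (.dbl 38 51 55))))))) (.rp 17 (.thr 53 5 (.thr 48 58 (.thr 26 15 (.thr 24 27 (.thr 12 36 (.thr 4 8 (.dbl 38 51 55))))))) (.rp 12 (.thr 17 29 (.thr 53 5 (.thr 48 58 (.thr 51 34 (.dbl 49 13 50))))) .nd)))))))) (.rp 15 (.str 25 (.nv (.thr 29 17 (.thr 12 46 (.thr 38 51 (.thr 53 5 (.thr 48 58 (.dbl 36 24 39)))))) (.nv (.thr 17 29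 (.thr 51 34 (.thr 55 59 (.dbl 38 4 12)))) (.rp 51 (.thr 53 5 (.thr 29 17 (.thr 12 46 (.thr 4 8 (.thr 38 55 (.thr 48 58 (.dbl 36 24 39))))))) (.rp 46 (.thr 17 29 (.thr 51 34 (.thr 38 12 (.dbl 55 4 59)))) (.rp 38 (.thr 53 5 (.thr 29 17 (.thr 48 58 (.thr 16 32 (.thr 26 31 (.thr 24 27 (.dbl 12 36 46))))))) (.rp 29 (.thr 53 5 (.thr 48 58 (.thr 16 32 (.thr 26 31 (.thr 24 27 (.thr 12 36 (.thr 4 8 (.dbl 38 51 55)))))))) (.rp 17 (.thr 53 5 (.thr 48 58 (.thr 16 32 (.thr 26 31 (.thr 24 27 (.thr 12 36 (.thr 4 8 (.dbl 38 51 55)))))))) (.rp 13 (.thr 29 17 (.thr 12 46 (.thr 4 8 (.dbl 38 51 55)))) (.rp 12 (.thr 53 5 (.thr 17 29 (.thr 51 34 (.thr 48 58 (.dbl 49 13 50))))) .nd)))))))))) (.rp 5 (.str 12 (.nv (.thr 4 8 (.thr 38 55 (.thr 36 39 (.thr 48 24 (.thr 16 32 (.dbl 26 15 31)))))) (.nv (.thr 4 8 (.thr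 38 55 (.thr 29 46 (.dbl 25 17 51)))) (.rp 59 (.thr 29 46 (.thr 4 8 (.thr 25 17 (.dbl 38 51 55)))) (.rp 55 (.thr 29 46 (.thr 25 17 (.thr 38 51 (.thr 36 39 (.thr 48 24 (.thr 16 32 (.dbl 26 15 31))))))) (.rp 38 (.str 13 (.nv (.thr 15 14 (.thr 26 48 (.dbl 31 16 47))) (.nv (.thr 25 49 (.dbl 29 17 46)) (.rp 46 (.str 34 (.nv (.thr 15 14 (.thr 26 48 (.dbl 31 16 47))) (.nv (.thr 17 51 (.dbl 25 29 49)) .nd))) (.rp 34 (.thr 46 29 (.thr 15 14 (.thr 31 47 (.dbl 26 16 48)))) .nd))))) (.rp 25 (.str 15 (.nv (.thr 31 47 (.dbl 26 16 48)) (.rp 59 (.thr 8 4 (.thr 31 47 (.dbl 26 16 48))) (.rp 48 (.thr 47 31 (.thr 46 29 (.thr 45 44 (.thr 30 60 (.dbl 14 13 62))))) (.rp 47 (.thr 8 4 (.thr 48 26 (.thr 16 32 (.thr 24 36 (.thr 20 28 (.dbl 40 56 60)))))) (.rp 31 (.thr 8 4 (.thr 48 26 (.thr 16 32 (.thr 24 36 (.thr 20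 28 (.dbl 40 56 60)))))) (.rp 26 (.thr 47 31 (.thr 46 29 (.thr 45 44 (.thr 30 60 (.dbl 14 13 62))))) (.rp 16 (.thr 47 31 (.thr 46 29 (.thr 45 44 (.thr 30 60 (.dbl 14 13 62))))) (.rp 13 (.str 9 (.nv (.thr 8 4 (.thr 11 10 (.dbl 3 6 7))) (.nv (.thr 31 47 (.dbl 26 16 48)) (.rp 45 (.thr 29 46 (.thr 26 48 (.dbl 31 16 47))) (.rp 29 (.str 45 (.nv (.thr 3 6 (.thr 41 33 (.dbl 60 22 30))) (.nv (.thr 31 47 (.dbl 26 16 48)) (.rp 59 (.thr 8 4 (.thr 31 47 (.dbl 26 16 48))) (.rp 8 (.str 59 (.nv (.thr 3 6 (.thr 41 33 (.dbl 60 22 30))) (.nv (.thr 31 47 (.dbl 26 16 48)) .nd))) .nd))))) (.rp 26 (.thr 3 6 (.thr 7 11 (.thr 23 43 (.dbl 22 20 52)))) (.rp 8 (.str 59 (.nv (.thr 29 46 (.thr 3 6 (.thr 43 23 (.dbl 11 7 27)))) (.nv (.thr 31 47 (.dbl 26 16 48)) (.rp 29 (.str 45 (.nv (.thr 3 6 (.thr 41 33 (.dbl 60 22 30)))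 (.nv (.thr 31 47 (.dbl 26 16 48)) .nd))) .nd)))) .nd))))))) (.rp 9 (.thr 13 14 (.thr 31 47 (.dbl 26 16 48))) (.rp 8 (.str 59 (.nv (.thr 26 48 (.thr 55 51 (.thr 38 4 (.dbl 14 13 50)))) (.nv (.thr 31 47 (.dbl 26 16 48)) (.rp 48 (.thr 51 55 (.thr 27 39 (.thr 43 11 (.thr 31 47 (.dbl 23 3 19))))) (.rp 26 (.thr 51 55 (.thr 27 39 (.thr 43 11 (.thr 31 47 (.dbl 23 3 19))))) (.rp 13 (.str 9 (.nv (.thr 29 46 (.thr 3 6 (.thr 43 23 (.dbl 11 7 27)))) (.nv (.thr 31 47 (.dbl 26 16 48)) (.rp 29 (.str 45 (.nv (.thr 3 6 (.thr 41 33 (.dbl 60 22 30))) (.nv (.thr 31 47 (.dbl 26 16 48)) .nd))) .nd)))) (.rp 9 (.thr 13 14 (.thr 31 47 (.dbl 26 16 48))) .nd))))))) .nd))))))))))) (.rp 13 (.str 9 (.nv (.thr 3 6 (.thr 23 43 (.thr 22 20 (.thr 7 52 (.thr 11 15 (.dbl 8 4 10)))))) (.nv (.thr 29 46 (.thr 4 8 (.thr 38 55 (.dbl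 25 17 51)))) (.rp 29 (.str 45 (.nv (.thr 3 6 (.thr 4 8 (.thr 38 55 (.thr 36 39 (.thr 20 52 (.dbl 23 22 43)))))) (.nv (.thr 3 6 (.thr 23 43 (.thr 22 20 (.dbl 41 33 60)))) (.nv (.thr 4 8 (.thr 38 55 (.thr 25 51 (.dbl 41 33 57)))) (.rp 4 (.thr 41 33 (.thr 25 57 (.thr 38 51 (.thr 44 35 (.thr 60 28 (.dbl 3 6 22)))))) .nd))))) (.rp 8 (.thr 29 46 (.thr 25 17 (.thr 41 57 (.thr 3 6 (.thr 23 43 (.dbl 22 20 60)))))) (.rp 4 (.thr 29 46 (.thr 25 17 (.thr 41 57 (.thr 38 51 (.thr 44 35 (.thr 60 28 (.dbl 3 6 22))))))) .nd)))))) (.rp 9 (.str 13 (.nv (.thr 15 14 (.thr 26 48 (.dbl 31 16 47))) (.nv (.thr 29 46 (.dbl 25 17 49)) .nd))) (.rp 8 (.thr 29 46 (.thr 25 17 (.thr 38 51 (.thr 36 39 (.thr 48 24 (.thr 16 32 (.dbl 26 15 31))))))) (.rp 4 (.thr 29 46 (.thr 25 17 (.thr 38 51 (.thr 36 39 (.thr 48 24 (.thr 16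 32 (.dbl 26 15 31))))))) .nd))))))))))) .nd))))))))))

theorem w147 : WinAt (9223372036856872961, 2305847407260205058) :=
  chF (K := []) kn c147 9223372036856872961 2305847407260205058 42
    [] (by decide +kernel) (by decide +kernel)

/-- A certificate. -/
noncomputable def c148 : Ct := (.str 25 (.nv (.thr 29 17 (.thr 63 42 (.thr 12 46 (.thr 38 51 (.dbl 4 8 55))))) (.nv (.thr 17 29 (.thr 51 34 (.thr 38 12 (.thr 63 42 (.dbl 55 4 59))))) (.nv (.thr 17 29 (.thr 51 34 (.thr 12 38 (.thr 8 4 (.dbl 42 59 63))))) (.rp 63 (.str 60 (.nv (.thr 20 40 (.thr 22 23 (.thr 28 19 (.thr 12 44 (.thr 4 8 (.dbl 38 51 55)))))) (.nv (.thr 17 29 (.thr 51 34 (.thr 12 38 (.thr 28 44 (.thr 22 19 (.thr 57 54 (.dbl 41 3 9))))))) (.nv (.thr 20 40 (.thr 22 23 (.thr 28 19 (.thr 16 24 (.thr 29 17 (.dbl 31 26 30)))))) (.nv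 (.thr 17 29 (.thr 20 40 (.thr 22 23 (.thr 51 34 (.thr 54 57 (.dbl 38 6 12)))))) (.rp 22 (.thr 20 40 (.thr 17 29 (.thr 51 34 (.thr 12 38 (.thr 4 8 (.thr 28 44 (.thr 24 16 (.dbl 36 48 52)))))))) (.rp 3 (.thr 20 40 (.thr 17 29 (.thr 51 34 (.thr 12 38 (.thr 28 44 (.dbl 22 19 23)))))) .nd))))))) (.rp 51 (.str 16 (.nv (.thr 26 31 (.thr 42 63 (.thr 10 58 (.thr 15 5 (.dbl 48 32 37))))) (.nv (.thr 17 29 (.thr 19 18 (.thr 31 26 (.thr 22 28 (.dbl 23 20 27))))) (.rp 31 (.thr 17 29 (.thr 19 18 (.thr 28 22 (.thr 20 24 (.thr 60 40 (.thr 12 44 (.thr 8 4 (.dbl 42 59 63)))))))) (.rp 26 (.thr 29 17 (.thr 48 32 (.thr 63 42 (.thr 12 46 (.thr 8 4 (.thr 24 36 (.thr 20 28 (.dbl 40 56 60)))))))) .nd))))) (.rp 42 (.str 22 (.nv (.thr 20 23 (.thr 28 19 (.thr 60 40 (.thr 12 44 (.thr 4 8 (.dbl 38 51 55)))))) (.nv (.thr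 17 29 (.thr 19 28 (.thr 51 34 (.thr 3 35 (.thr 38 12 (.thr 54 6 (.dbl 60 41 57))))))) (.nv (.thr 17 29 (.thr 20 23 (.thr 51 34 (.thr 38 12 (.thr 54 6 (.dbl 60 40 57)))))) (.nv (.thr 17 29 (.thr 19 28 (.thr 16 18 (.thr 23 20 (.dbl 31 26 27))))) .nd))))) (.rp 38 (.str 20 (.nv (.thr 22 23 (.thr 28 19 (.thr 42 63 (.thr 8 59 (.thr 12 4 (.dbl 60 40 44)))))) (.nv (.thr 17 29 (.thr 22 23 (.thr 51 34 (.thr 60 40 (.thr 41 3 (.dbl 57 9 54)))))) (.nv (.thr 29 17 (.thr 22 23 (.thr 28 19 (.thr 16 24 (.dbl 31 26 30))))) (.rp 23 (.thr 17 29 (.thr 60 40 (.thr 42 63 (.thr 8 59 (.thr 12 4 (.thr 28 44 (.thr 16 24 (.dbl 19 18 22)))))))) (.rp 22 (.thr 29 17 (.thr 60 40 (.thr 42 63 (.thr 8 59 (.thr 12 4 (.thr 28 44 (.thr 16 24 (.dbl 31 26 30)))))))) .nd)))))) (.rp 29 (.str 20 (.nv (.thr 22 23 (.thr 28 19 (.thr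 60 40 (.thr 12 44 (.thr 4 8 (.dbl 38 51 55)))))) (.nv (.thr 22 23 (.thr 42 63 (.thr 8 59 (.thr 12 4 (.thr 60 40 (.dbl 28 19 44)))))) (.nv (.thr 22 23 (.thr 28 19 (.thr 16 24 (.thr 48 32 (.thr 63 42 (.thr 53 58 (.thr 37 5 (.dbl 26 15 31)))))))) (.nv (.thr 22 23 (.thr 28 19 (.thr 60 40 (.thr 12 44 (.thr 8 4 (.dbl 42 59 63)))))) (.rp 28 (.thr 22 23 (.thr 60 40 (.thr 3 41 (.thr 42 63 (.thr 8 59 (.thr 12 4 (.thr 6 9 (.dbl 38 51 54)))))))) (.rp 23 (.thr 60 40 (.thr 42 63 (.thr 8 59 (.thr 12 4 (.thr 28 44 (.thr 16 24 (.thr 19 22 (.thr 17 18 (.dbl 51 34 38))))))))) (.rp 22 (.thr 60 40 (.thr 42 63 (.thr 8 59 (.thr 12 4 (.thr 28 44 (.thr 16 24 (.thr 26 31 (.thr 10 58 (.thr 15 5 (.dbl 48 32 37)))))))))) (.rp 19 (.thr 22 23 (.thr 60 40 (.thr 3 41 (.thr 42 63 (.thr 8 59 (.thr 12 4 (.thr 6 9 (.dbl 38 51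 54)))))))) .nd))))))))) (.rp 17 (.str 49 (.nv (.thr 42 63 (.thr 8 59 (.thr 12 4 (.thr 51 38 (.thr 48 50 (.thr 32 16 (.dbl 37 13 47))))))) (.nv (.thr 37 13 (.thr 5 53 (.thr 15 10 (.thr 48 26 (.thr 51 50 (.thr 38 12 (.dbl 39 27 36))))))) (.nv (.thr 37 13 (.thr 5 53 (.thr 15 10 (.thr 48 26 (.thr 42 63 (.dbl 32 16 47)))))) (.rp 48 (.thr 37 13 (.thr 5 53 (.thr 15 10 (.thr 63 42 (.thr 31 47 (.thr 26 16 (.thr 27 24 (.thr 51 39 (.thr 55 59 (.dbl 38 4 12)))))))))) (.rp 42 (.thr 37 13 (.thr 5 53 (.thr 15 10 (.thr 26 48 (.thr 16 31 (.thr 24 27 (.thr 20 28 (.thr 60 40 (.thr 30 45 (.dbl 22 18 23)))))))))) (.rp 37 (.thr 42 63 (.thr 8 59 (.thr 12 4 (.thr 51 38 (.thr 48 50 (.thr 16 32 (.thr 26 31 (.dbl 24 27 36)))))))) (.rp 26 (.thr 37 13 (.thr 42 63 (.thr 8 59 (.thr 12 4 (.thr 51 38 (.thr 32 47 (.dbl 48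 16 50))))))) (.rp 13 (.thr 42 63 (.thr 8 59 (.thr 12 4 (.thr 51 38 (.thr 48 50 (.thr 24 36 (.thr 16 32 (.dbl 26 27 31)))))))) .nd))))))))) (.rp 12 (.str 16 (.nv (.thr 26 31 (.thr 48 32 (.thr 15 37 (.thr 10 5 (.dbl 42 58 63))))) (.nv (.thr 17 29 (.thr 19 18 (.thr 31 26 (.thr 23 27 (.dbl 22 20 28))))) (.rp 63 (.thr 29 17 (.thr 31 26 (.thr 28 30 (.thr 20 24 (.dbl 22 19 23))))) (.rp 31 (.thr 17 29 (.thr 19 18 (.thr 51 34 (.thr 3 35 (.thr 63 42 (.thr 23 43 (.dbl 22 20 28))))))) (.rp 26 (.thr 17 29 (.thr 19 18 (.thr 22 28 (.thr 20 23 (.thr 60 40 (.thr 3 41 (.dbl 51 34 35))))))) .nd)))))) (.rp 4 (.str 20 (.nv (.thr 17 29 (.thr 22 23 (.thr 60 40 (.thr 51 34 (.thr 54 57 (.dbl 38 6 12)))))) (.nv (.thr 22 23 (.thr 28 19 (.thr 16 24 (.thr 31 26 (.dbl 29 17 30))))) (.rp 29 (.thr 22 23 (.thr 28 19 (.thr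 24 16 (.thr 40 60 (.thr 8 56 (.dbl 42 59 63)))))) (.rp 23 (.thr 17 29 (.thr 60 40 (.thr 51 34 (.thr 12 38 (.thr 28 44 (.thr 16 24 (.dbl 19 18 22))))))) (.rp 22 (.thr 17 29 (.thr 60 40 (.thr 51 34 (.thr 57 54 (.thr 9 41 (.thr 42 63 (.thr 8 59 (.thr 10 11 (.thr 15 5 (.thr 27 39 (.dbl 26 24 58))))))))))) (.rp 17 (.thr 22 23 (.thr 28 19 (.thr 60 40 (.thr 3 41 (.thr 12 44 (.thr 6 9 (.dbl 38 51 54))))))) .nd))))))) .nd))))))))))))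

theorem w148 : WinAt (2097153, 4611686018427387906) :=
  chF (K := []) kn c148 2097153 4611686018427387906 62
    [] (by decide +kernel) (by decide +kernel)

/-- A certificate. -/
noncomputable def c149 : Ct := (.str 17 (.rp 62 (.str 60 (.nv (.thr 20 40 (.thr 22 23 (.thr 3 41 (.thr 51 34 (.thr 19 35 (.thr 16 18 (.dbl 28 24 25))))))) (.nv (.thr 20 40 (.thr 25 29 (.thr 51 34 (.thr 12 38 (.thr 28 44 (.thr 16 24 (.dbl 19 18 22))))))) (.nv (.thr 20 40 (.thr 22 23 (.thr 25 29 (.thr 28 19 (.thr 12 44 (.thr 4 8 (.thr 24 16 (.dbl 36 48 52)))))))) (.nv (.thr 20 40 (.thr 22 23 (.thr 51 34 (.thr 54 57 (.thr 38 6 (.dbl 25 12 29)))))) (.rp 40 (.thr 25 29 (.thr 51 34 (.thr 12 38 (.thr 28 44 (.thr 22 19 (.thr 41 3 (.dbl 57 9 54))))))) (.rp 25 (.thr 20 40 (.thr 51 34 (.thr 54 57 (.thr 22 23 (.thr 38 6 (.thr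 4 55 (.thr 12 8 (.thr 44 28 (.dbl 41 3 35))))))))) (.rp 22 (.thr 20 40 (.thr 25 29 (.thr 51 34 (.thr 12 38 (.thr 4 8 (.thr 36 52 (.thr 24 48 (.dbl 28 16 44)))))))) (.rp 20 (.thr 25 29 (.thr 51 34 (.thr 12 38 (.thr 28 44 (.thr 22 19 (.thr 41 3 (.dbl 57 9 54))))))) .nd))))))))) (.rp 61 (.str 60 (.nv (.thr 20 40 (.thr 22 23 (.thr 3 41 (.thr 51 34 (.thr 19 35 (.thr 16 18 (.dbl 28 24 25))))))) (.nv (.thr 20 40 (.thr 25 29 (.thr 51 34 (.thr 12 38 (.thr 28 44 (.thr 16 24 (.dbl 19 18 22))))))) (.nv (.thr 20 40 (.thr 22 23 (.thr 25 29 (.thr 28 19 (.thr 12 44 (.thr 4 8 (.thr 24 16 (.dbl 36 48 52)))))))) (.nv (.thr 20 40 (.thr 22 23 (.thr 51 34 (.thr 54 57 (.thr 38 6 (.dbl 25 12 29)))))) (.rp 40 (.thr 25 29 (.thr 51 34 (.thr 12 38 (.thr 28 44 (.thr 22 19 (.thr 41 3 (.dbl 57 9 54))))))) (.rp 25 (.thr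 20 40 (.thr 51 34 (.thr 54 57 (.thr 22 23 (.thr 38 6 (.thr 4 55 (.thr 12 8 (.thr 44 28 (.dbl 41 3 35))))))))) (.rp 22 (.thr 20 40 (.thr 25 29 (.thr 51 34 (.thr 12 38 (.thr 4 8 (.thr 36 52 (.thr 24 48 (.dbl 28 16 44)))))))) (.rp 20 (.thr 25 29 (.thr 51 34 (.thr 12 38 (.thr 28 44 (.thr 22 19 (.thr 41 3 (.dbl 57 9 54))))))) .nd))))))))) (.rp 60 (.thr 25 29 (.thr 51 34 (.thr 12 38 (.thr 8 4 (.thr 42 59 (.str 37 (.nv (.thr 32 47 (.thr 48 16 (.thr 24 36 (.dbl 26 15 27)))) (.nv (.thr 13 49 (.thr 15 14 (.dbl 5 10 53))) (.rp 62 (.str 61 (.nv (.thr 32 47 (.thr 48 16 (.thr 24 36 (.dbl 26 15 27)))) (.nv (.thr 49 13 (.dbl 53 5 57)) .nd))) (.rp 61 (.str 62 (.nv (.thr 32 47 (.thr 48 16 (.thr 24 36 (.dbl 26 15 27)))) (.nv (.thr 13 49 (.thr 15 14 (.dbl 5 10 53))) (.nv (.thr 32 47 (.thr 48 16 (.dbl 49 13 50)))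 (.rp 15 (.thr 22 2 (.thr 28 19 (.thr 20 23 (.thr 16 24 (.dbl 32 47 48))))) (.rp 13 (.str 45 (.nv (.thr 2 22 (.thr 41 33 (.thr 9 57 (.thr 10 11 (.dbl 6 3 14))))) (.nv (.thr 22 2 (.thr 19 28 (.thr 32 47 (.dbl 16 18 48)))) (.nv (.thr 5 53 (.thr 15 10 (.thr 27 39 (.dbl 26 24 48)))) (.rp 5 (.str 9 (.nv (.thr 22 2 (.thr 19 28 (.dbl 3 6 35))) (.nv (.dbl 41 33 57) (.rp 7 (.thr 6 3 (.dbl 41 33 57)) (.rp 6 (.str 7 (.nv (.dbl 41 33 57) (.nv (.dbl 22 2 52) (.rp 22 (.str 54 (.nv (.thr 10 11 (.dbl 58 26 50)) (.nv (.dbl 41 33 57) (.rp 41 (.str 3 (.nv (.thr 50 58 (.thr 48 49 (.dbl 32 16 47))) (.nv (.dbl 11 10 15) (.rp 44 (.thr 35 19 (.dbl 11 10 15)) (.rp 35 (.str 44 (.nv (.dbl 11 10 15) (.nv (.dbl 47 32 46) (.rp 33 (.thr 32 47 (.dbl 11 10 15)) (.rp 32 (.str 33 (.nv (.thr 48 18 (.dbl 50 49 58)) (.nv (.dbl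 11 10 15) .nd))) .nd))))) .nd))))) .nd)))) .nd)))) .nd))))) .nd))))) .nd)))))) (.rp 26 (.thr 49 13 (.thr 32 47 (.dbl 48 16 50))) (.rp 15 (.thr 49 13 (.thr 48 50 (.dbl 32 16 47))) .nd)))))))))))) (.rp 59 (.str 5 (.nv (.thr 15 10 (.thr 25 29 (.thr 37 53 (.thr 13 49 (.thr 12 14 (.thr 4 8 (.dbl 38 51 55))))))) (.nv (.thr 15 10 (.thr 37 53 (.thr 48 26 (.thr 51 34 (.thr 49 50 (.dbl 25 13 29)))))) (.nv (.thr 51 34 (.thr 15 10 (.thr 25 29 (.thr 27 39 (.thr 26 24 (.dbl 37 48 53)))))) (.rp 53 (.thr 25 29 (.thr 15 10 (.thr 51 34 (.thr 27 39 (.thr 26 24 (.thr 16 31 (.dbl 48 32 37))))))) (.rp 51 (.str 55 (.nv (.thr 4 38 (.thr 12 8 (.thr 15 10 (.thr 13 14 (.thr 25 29 (.dbl 37 49 53)))))) (.nv (.thr 37 53 (.thr 4 38 (.thr 7 6 (.thr 22 52 (.dbl 23 20 39))))) (.rp 53 (.thr 4 38 (.thr 7 6 (.thr 23 39 (.thr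 22 20 (.thr 25 29 (.thr 19 28 (.thr 16 18 (.dbl 31 26 27)))))))) (.rp 38 (.thr 37 53 (.thr 25 29 (.thr 15 10 (.thr 48 26 (.thr 16 32 (.thr 19 18 (.thr 22 28 (.thr 23 20 (.dbl 7 39 52))))))))) (.rp 37 (.str 20 (.nv (.thr 23 22 (.thr 4 38 (.dbl 7 6 39))) (.nv (.thr 23 22 (.thr 7 39 (.dbl 4 6 38))) (.rp 39 (.thr 22 23 (.thr 25 29 (.thr 28 19 (.thr 60 40 (.thr 12 44 (.dbl 4 8 38)))))) (.rp 38 (.thr 22 23 (.thr 25 29 (.thr 19 28 (.thr 18 16 (.thr 60 40 (.thr 30 26 (.dbl 15 10 45))))))) (.rp 36 (.thr 22 23 (.thr 60 40 (.thr 3 41 (.thr 15 10 (.thr 7 11 (.dbl 4 6 38)))))) (.rp 23 (.thr 4 38 (.thr 36 52 (.thr 12 8 (.thr 48 24 (.thr 32 16 (.dbl 40 44 60)))))) (.rp 22 (.thr 4 38 (.thr 12 8 (.thr 60 40 (.thr 28 44 (.thr 24 16 (.dbl 36 48 52)))))) (.rp 7 (.thr 22 23 (.thr 4 38 (.thr 25 29 (.thr 28 19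 (.thr 12 8 (.dbl 60 40 44)))))) (.rp 6 (.thr 22 23 (.thr 4 38 (.thr 25 29 (.thr 28 19 (.thr 12 8 (.dbl 60 40 44)))))) (.rp 4 (.thr 22 23 (.thr 29 25 (.thr 60 40 (.thr 15 10 (.thr 30 45 (.thr 31 28 (.dbl 26 16 18))))))) .nd))))))))))) (.rp 25 (.thr 37 53 (.thr 15 10 (.thr 48 26 (.thr 16 32 (.thr 18 19 (.thr 3 33 (.thr 7 11 (.dbl 4 6 38)))))))) (.rp 12 (.thr 37 53 (.thr 15 10 (.thr 48 26 (.thr 16 32 (.thr 18 19 (.thr 3 33 (.thr 7 11 (.dbl 4 6 38)))))))) (.rp 6 (.thr 37 53 (.thr 4 38 (.thr 25 29 (.thr 13 49 (.thr 12 8 (.dbl 15 10 14)))))) (.rp 4 (.thr 37 53 (.thr 25 29 (.thr 15 10 (.thr 48 26 (.thr 16 32 (.thr 19 18 (.thr 22 28 (.thr 23 20 (.dbl 7 39 52))))))))) .nd)))))))))) (.rp 48 (.thr 25 29 (.thr 15 10 (.thr 51 34 (.thr 12 38 (.thr 13 14 (.dbl 37 49 53)))))) (.rp 37 (.thr 25 29 (.thr 15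 10 (.thr 51 34 (.thr 27 39 (.thr 26 24 (.thr 16 31 (.thr 48 32 (.thr 50 49 (.dbl 38 12 14))))))))) (.rp 29 (.thr 37 53 (.thr 15 10 (.thr 51 34 (.thr 39 27 (.thr 38 36 (.thr 4 55 (.dbl 12 8 25))))))) (.rp 25 (.thr 37 53 (.thr 15 10 (.thr 48 26 (.thr 16 32 (.thr 18 19 (.thr 3 33 (.thr 7 11 (.thr 22 52 (.thr 20 23 (.dbl 60 40 41)))))))))) (.rp 15 (.thr 25 29 (.thr 37 53 (.thr 49 13 (.thr 51 34 (.thr 48 50 (.thr 16 32 (.thr 12 38 (.thr 24 36 (.dbl 26 27 31))))))))) (.rp 10 (.thr 25 29 (.thr 37 53 (.thr 49 13 (.thr 51 34 (.thr 48 50 (.thr 16 32 (.dbl 26 15 31))))))) .nd)))))))))))) (.rp 58 (.str 48 (.nv (.thr 16 32 (.thr 18 19 (.thr 3 33 (.thr 26 31 (.thr 15 37 (.thr 11 7 (.thr 41 56 (.dbl 22 30 60)))))))) (.nv (.thr 25 29 (.thr 51 34 (.thr 49 50 (.thr 37 13 (.thr 5 53 (.dbl 15 10 26)))))) (.nv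 (.thr 16 32 (.thr 19 18 (.thr 25 29 (.thr 22 28 (.thr 23 20 (.dbl 31 26 27)))))) (.rp 26 (.thr 16 32 (.thr 19 18 (.thr 51 34 (.thr 25 29 (.thr 12 38 (.thr 24 36 (.dbl 28 20 22))))))) (.rp 18 (.thr 16 32 (.thr 51 34 (.thr 50 49 (.thr 25 29 (.thr 26 31 (.dbl 38 12 14)))))) .nd)))))) (.rp 57 (.str 5 (.nv (.thr 15 10 (.thr 37 53 (.thr 51 34 (.thr 39 27 (.thr 38 36 (.thr 4 55 (.dbl 12 8 25))))))) (.nv (.thr 15 10 (.thr 37 53 (.thr 48 26 (.thr 51 34 (.thr 49 50 (.dbl 25 13 29)))))) (.nv (.thr 15 10 (.thr 25 29 (.thr 51 34 (.thr 27 39 (.thr 26 24 (.dbl 37 48 53)))))) (.rp 53 (.thr 25 29 (.thr 15 10 (.thr 51 34 (.thr 27 39 (.thr 26 24 (.thr 16 31 (.dbl 48 32 37))))))) (.rp 51 (.thr 25 29 (.thr 37 53 (.thr 15 10 (.thr 48 26 (.thr 16 32 (.thr 19 18 (.thr 22 28 (.thr 20 23 (.thr 60 40 (.dbl 52 7 56))))))))))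 (.rp 48 (.thr 25 29 (.thr 15 10 (.thr 51 34 (.thr 12 38 (.thr 13 14 (.dbl 37 49 53)))))) (.rp 37 (.thr 25 29 (.thr 15 10 (.thr 51 34 (.thr 27 39 (.thr 26 24 (.thr 16 31 (.thr 48 32 (.thr 50 49 (.dbl 38 12 14))))))))) (.rp 34 (.thr 25 29 (.thr 37 53 (.thr 49 13 (.thr 15 10 (.thr 48 26 (.thr 51 50 (.thr 39 27 (.dbl 38 12 36)))))))) (.rp 25 (.thr 37 53 (.thr 15 10 (.thr 51 34 (.thr 39 27 (.thr 38 36 (.thr 4 55 (.thr 12 8 (.thr 14 13 (.dbl 26 48 50))))))))) (.rp 15 (.thr 25 29 (.thr 37 53 (.thr 49 13 (.thr 51 34 (.thr 48 50 (.thr 16 32 (.thr 12 38 (.thr 24 36 (.dbl 26 27 31))))))))) (.rp 10 (.thr 25 29 (.thr 37 53 (.thr 49 13 (.thr 51 34 (.thr 48 50 (.thr 16 32 (.dbl 26 15 31))))))) .nd)))))))))))) (.rp 56 (.str 5 (.nv (.thr 15 10 (.thr 25 29 (.thr 51 34 (.thr 27 39 (.thr 26 24 (.thr 16 31 (.dbl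 48 32 37))))))) (.nv (.thr 15 10 (.thr 25 29 (.thr 51 34 (.thr 12 38 (.thr 13 14 (.dbl 37 49 53)))))) (.nv (.thr 15 10 (.thr 37 53 (.thr 51 34 (.thr 39 27 (.thr 38 36 (.dbl 25 12 29)))))) (.rp 51 (.thr 25 29 (.thr 37 53 (.thr 13 49 (.thr 15 10 (.thr 48 26 (.thr 32 16 (.thr 12 14 (.thr 8 4 (.dbl 42 47 59))))))))) (.rp 37 (.thr 25 29 (.thr 15 10 (.thr 51 34 (.thr 27 39 (.thr 26 24 (.thr 16 31 (.thr 48 32 (.thr 50 49 (.dbl 38 12 14))))))))) (.rp 34 (.thr 25 29 (.thr 37 53 (.thr 13 49 (.thr 15 10 (.thr 12 14 (.thr 4 8 (.dbl 38 51 55))))))) (.rp 29 (.thr 37 53 (.thr 15 10 (.thr 51 34 (.thr 39 27 (.thr 38 36 (.thr 4 55 (.dbl 12 8 25))))))) (.rp 25 (.thr 37 53 (.thr 15 10 (.thr 51 34 (.thr 39 27 (.thr 38 36 (.thr 4 55 (.thr 12 8 (.thr 14 13 (.dbl 26 48 50))))))))) (.rp 15 (.thr 25 29 (.thr 37 53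 (.thr 49 13 (.thr 51 34 (.thr 48 50 (.thr 16 32 (.thr 12 38 (.thr 24 36 (.dbl 26 27 31))))))))) (.rp 12 (.thr 37 53 (.thr 15 10 (.thr 48 26 (.thr 51 34 (.thr 49 50 (.dbl 25 13 29)))))) (.rp 10 (.thr 25 29 (.thr 37 53 (.thr 49 13 (.thr 51 34 (.thr 48 50 (.thr 16 32 (.dbl 26 15 31))))))) .nd)))))))))))) (.rp 55 (.thr 25 29 (.thr 51 34 (.thr 12 38 (.thr 8 4 (.str 37 (.nv (.thr 42 59 (.thr 32 47 (.thr 48 16 (.thr 24 36 (.dbl 26 15 27))))) (.nv (.thr 13 49 (.thr 15 14 (.dbl 5 10 53))) (.rp 42 (.str 46 (.nv (.thr 13 49 (.thr 15 14 (.thr 27 39 (.dbl 26 24 48)))) (.nv (.thr 5 53 (.thr 15 10 (.thr 27 39 (.dbl 26 24 48)))) (.nv (.thr 13 49 (.thr 15 14 (.dbl 5 10 53))) (.rp 26 (.thr 13 49 (.thr 5 53 (.dbl 15 10 14))) (.rp 15 (.thr 49 13 (.thr 48 50 (.thr 16 32 (.thr 24 36 (.dbl 26 27 31))))) .nd))))))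 (.rp 26 (.thr 5 53 (.thr 13 49 (.dbl 15 10 14))) (.rp 15 (.thr 49 13 (.thr 42 59 (.thr 48 50 (.dbl 32 16 47)))) .nd)))))))))) (.rp 54 (.str 16 (.nv (.thr 19 18 (.thr 25 29 (.thr 22 28 (.thr 20 23 (.thr 51 34 (.thr 3 35 (.dbl 60 40 41))))))) (.nv (.thr 18 19 (.thr 26 31 (.thr 22 30 (.thr 48 32 (.thr 3 33 (.thr 60 41 (.dbl 20 23 40))))))) (.nv (.thr 25 29 (.thr 26 31 (.thr 27 24 (.thr 48 32 (.thr 15 37 (.dbl 51 34 39)))))) (.nv (.thr 25 29 (.thr 19 18 (.thr 31 26 (.thr 22 28 (.dbl 23 20 27))))) (.rp 31 (.thr 25 29 (.thr 19 18 (.thr 28 22 (.thr 20 24 (.thr 60 40 (.thr 12 44 (.dbl 51 34 38))))))) (.rp 29 (.thr 26 31 (.thr 48 32 (.thr 51 34 (.thr 50 49 (.thr 38 14 (.thr 4 55 (.dbl 12 8 25))))))) (.rp 28 (.thr 25 29 (.thr 48 32 (.thr 51 34 (.thr 49 50 (.thr 37 13 (.dbl 26 15 31)))))) .nd))))))))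 (.rp 53 (.str 48 (.nv (.thr 16 32 (.thr 18 19 (.thr 3 33 (.thr 26 31 (.thr 15 37 (.thr 11 7 (.thr 41 56 (.dbl 22 30 60)))))))) (.nv (.thr 16 32 (.thr 19 18 (.thr 25 29 (.thr 51 34 (.thr 12 38 (.thr 24 36 (.dbl 28 20 22))))))) (.nv (.thr 16 32 (.thr 26 31 (.thr 15 37 (.thr 51 34 (.thr 27 39 (.dbl 25 24 29)))))) (.nv (.thr 16 32 (.thr 19 18 (.thr 25 29 (.thr 22 28 (.thr 31 26 (.dbl 23 20 27)))))) (.rp 32 (.thr 51 34 (.thr 49 50 (.thr 25 29 (.thr 12 38 (.thr 24 36 (.thr 26 27 (.dbl 37 13 15))))))) (.rp 16 (.thr 51 34 (.thr 49 50 (.thr 25 29 (.thr 12 38 (.thr 24 36 (.thr 26 27 (.dbl 37 13 15))))))) .nd))))))) (.rp 52 (.str 5 (.nv (.thr 15 10 (.thr 25 29 (.thr 37 53 (.thr 13 49 (.thr 12 14 (.thr 4 8 (.dbl 38 51 55))))))) (.nv (.thr 15 10 (.thr 37 53 (.thr 48 26 (.thr 51 34 (.thr 49 50 (.dbl 25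 13 29)))))) (.nv (.thr 15 10 (.thr 25 29 (.thr 51 34 (.thr 27 39 (.thr 26 24 (.dbl 37 48 53)))))) (.rp 53 (.thr 25 29 (.thr 51 34 (.thr 15 10 (.thr 27 39 (.thr 26 24 (.thr 16 31 (.dbl 48 32 37))))))) (.rp 51 (.thr 37 53 (.thr 25 29 (.thr 13 49 (.thr 15 10 (.thr 12 14 (.thr 4 8 (.thr 48 26 (.thr 36 24 (.dbl 38 39 55))))))))) (.rp 48 (.thr 25 29 (.thr 51 34 (.thr 12 38 (.thr 15 10 (.thr 13 14 (.dbl 37 49 53)))))) (.rp 37 (.thr 25 29 (.thr 51 34 (.thr 15 10 (.thr 27 39 (.thr 26 24 (.thr 16 31 (.thr 48 32 (.thr 50 49 (.dbl 38 12 14))))))))) (.rp 29 (.thr 37 53 (.thr 51 34 (.thr 15 10 (.thr 39 27 (.thr 38 36 (.thr 12 25 (.dbl 4 8 55))))))) (.rp 25 (.thr 37 53 (.thr 34 51 (.thr 15 10 (.thr 48 26 (.thr 32 16 (.thr 35 33 (.thr 42 47 (.thr 38 46 (.thr 36 39 (.dbl 44 40 41)))))))))) (.rp 15 (.thr 37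 53 (.thr 25 29 (.thr 49 13 (.thr 51 34 (.thr 12 38 (.thr 8 4 (.thr 48 50 (.thr 32 16 (.dbl 42 47 59))))))))) (.rp 10 (.thr 37 53 (.thr 25 29 (.thr 49 13 (.thr 51 34 (.thr 48 50 (.thr 16 32 (.dbl 26 15 31))))))) .nd)))))))))))) (.rp 51 (.str 16 (.nv (.thr 18 19 (.thr 26 31 (.thr 22 30 (.thr 48 32 (.thr 3 33 (.thr 60 41 (.dbl 20 23 40))))))) (.nv (.thr 25 29 (.thr 19 18 (.thr 31 26 (.thr 22 28 (.dbl 23 20 27))))) (.rp 59 (.str 55 (.nv (.thr 4 38 (.thr 12 8 (.thr 19 18 (.thr 25 29 (.thr 48 32 (.thr 24 36 (.dbl 28 20 22))))))) (.nv (.thr 4 38 (.thr 12 8 (.thr 25 29 (.thr 48 32 (.thr 24 36 (.dbl 26 27 31)))))) (.nv (.thr 19 18 (.thr 25 29 (.thr 22 28 (.thr 31 26 (.dbl 23 20 27))))) (.rp 29 (.thr 4 38 (.thr 19 18 (.thr 48 32 (.thr 31 26 (.thr 23 27 (.thr 12 8 (.thr 24 36 (.dbl 20 22 28))))))))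 (.rp 25 (.thr 18 19 (.thr 48 32 (.thr 3 33 (.thr 26 31 (.thr 22 30 (.thr 60 41 (.dbl 20 23 40))))))) (.rp 12 (.thr 19 18 (.thr 31 26 (.thr 23 27 (.thr 22 20 (.dbl 25 28 29))))) .nd))))))) (.rp 55 (.str 59 (.nv (.thr 19 18 (.thr 25 29 (.thr 8 42 (.thr 12 4 (.thr 48 32 (.thr 24 36 (.dbl 28 20 22))))))) (.nv (.thr 18 19 (.thr 26 31 (.thr 22 30 (.thr 48 32 (.thr 3 33 (.thr 60 41 (.dbl 20 23 40))))))) (.nv (.thr 25 29 (.thr 26 31 (.thr 42 8 (.thr 10 58 (.thr 15 5 (.dbl 48 32 37)))))) (.nv (.thr 19 18 (.thr 25 29 (.thr 22 28 (.thr 31 26 (.dbl 23 20 27))))) (.rp 29 (.thr 18 19 (.thr 48 32 (.thr 3 33 (.thr 26 31 (.thr 15 37 (.thr 11 7 (.thr 41 56 (.dbl 22 30 60)))))))) (.rp 28 (.thr 48 32 (.thr 26 31 (.thr 15 37 (.thr 10 5 (.thr 42 58 (.dbl 25 8 29)))))) .nd))))))) (.rp 31 (.thr 25 29 (.thr 19 18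 (.thr 28 22 (.thr 24 20 (.thr 26 27 (.thr 48 32 (.thr 15 37 (.thr 10 5 (.thr 12 36 (.thr 42 58 (.dbl 8 4 59))))))))))) (.rp 29 (.thr 18 19 (.thr 26 31 (.thr 48 32 (.thr 15 37 (.thr 3 33 (.thr 11 7 (.thr 41 56 (.dbl 22 30 60)))))))) (.rp 28 (.thr 29 25 (.thr 26 31 (.thr 18 19 (.thr 22 30 (.thr 48 32 (.thr 3 33 (.thr 60 41 (.dbl 20 23 40)))))))) (.rp 27 (.thr 25 29 (.thr 19 18 (.thr 22 28 (.thr 20 23 (.thr 48 32 (.thr 60 40 (.thr 52 56 (.thr 37 7 (.dbl 26 15 31))))))))) (.rp 26 (.thr 25 29 (.thr 19 18 (.thr 22 28 (.thr 20 23 (.thr 48 32 (.thr 60 40 (.thr 52 56 (.thr 37 7 (.thr 53 5 (.thr 55 54 (.dbl 4 36 38))))))))))) (.rp 23 (.thr 25 29 (.thr 19 18 (.thr 28 22 (.thr 24 20 (.dbl 26 27 31))))) (.rp 22 (.thr 25 29 (.thr 26 31 (.thr 24 27 (.thr 48 32 (.thr 12 36 (.thr 8 4 (.thr 40 56 (.dbl 20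 28 60)))))))) (.rp 20 (.thr 18 19 (.thr 26 31 (.thr 22 30 (.thr 48 32 (.thr 15 37 (.thr 3 33 (.thr 11 7 (.dbl 41 56 60)))))))) (.rp 19 (.thr 25 29 (.thr 26 31 (.thr 27 24 (.thr 48 32 (.thr 15 37 (.thr 10 5 (.thr 42 58 (.thr 59 8 (.thr 11 43 (.thr 56 41 (.thr 60 52 (.thr 20 40 (.thr 22 23 (.thr 3 7 (.dbl 18 30 33))))))))))))))) (.rp 18 (.thr 25 29 (.thr 26 31 (.thr 24 27 (.thr 48 32 (.thr 12 36 (.thr 8 4 (.thr 40 56 (.dbl 20 28 60)))))))) .nd))))))))))))))) (.rp 50 (.str 20 (.nv (.thr 22 23 (.thr 51 34 (.thr 60 40 (.thr 3 41 (.thr 19 35 (.thr 28 25 (.dbl 16 18 24))))))) (.nv (.thr 25 29 (.thr 51 34 (.thr 12 38 (.thr 60 40 (.thr 28 44 (.dbl 22 19 23)))))) (.nv (.thr 22 23 (.thr 25 29 (.thr 28 19 (.thr 24 16 (.thr 51 34 (.thr 12 38 (.thr 4 8 (.dbl 36 48 52)))))))) (.nv (.thr 22 23 (.thr 25 29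 (.thr 28 19 (.thr 24 16 (.thr 60 40 (.thr 12 44 (.thr 4 8 (.dbl 36 48 52)))))))) (.nv (.thr 22 23 (.thr 51 34 (.thr 60 40 (.thr 54 57 (.thr 38 6 (.dbl 25 12 29)))))) (.rp 25 (.thr 22 23 (.thr 51 34 (.thr 60 40 (.thr 54 57 (.thr 38 6 (.thr 4 55 (.thr 12 8 (.thr 44 28 (.dbl 41 3 35))))))))) (.rp 23 (.thr 25 29 (.thr 51 34 (.thr 12 38 (.thr 60 40 (.thr 28 44 (.thr 19 22 (.dbl 16 18 24))))))) (.rp 22 (.thr 25 29 (.thr 51 34 (.thr 12 38 (.thr 4 8 (.thr 36 52 (.thr 24 48 (.thr 16 28 (.dbl 26 27 31)))))))) .nd))))))))) (.rp 49 (.str 5 (.nv (.thr 15 10 (.thr 37 53 (.thr 51 34 (.thr 39 27 (.thr 38 36 (.thr 4 55 (.dbl 12 8 25))))))) (.nv (.thr 15 10 (.thr 25 29 (.thr 51 34 (.thr 27 39 (.thr 26 24 (.dbl 37 48 53)))))) (.rp 53 (.thr 25 29 (.thr 51 34 (.thr 15 10 (.thr 27 39 (.thr 26 24 (.thr 16 31 (.dbl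 48 32 37))))))) (.rp 51 (.thr 37 53 (.thr 25 29 (.thr 15 10 (.thr 48 26 (.thr 16 32 (.thr 19 18 (.thr 22 28 (.thr 20 23 (.thr 60 40 (.dbl 52 7 56)))))))))) (.rp 48 (.thr 25 29 (.thr 51 34 (.thr 12 38 (.thr 4 8 (.thr 7 6 (.thr 15 10 (.thr 39 27 (.thr 23 55 (.thr 22 20 (.dbl 37 52 53)))))))))) (.rp 39 (.thr 37 53 (.thr 25 29 (.thr 51 34 (.thr 12 38 (.thr 8 4 (.thr 15 10 (.thr 48 26 (.thr 32 16 (.dbl 42 47 59))))))))) (.rp 37 (.thr 25 29 (.thr 51 34 (.thr 12 38 (.thr 4 8 (.thr 6 7 (.thr 3 9 (.thr 19 35 (.thr 22 28 (.thr 20 23 (.dbl 60 40 41)))))))))) (.rp 34 (.thr 37 53 (.thr 25 29 (.thr 15 10 (.thr 48 26 (.thr 16 32 (.thr 19 18 (.thr 22 28 (.thr 20 23 (.thr 60 40 (.dbl 52 7 56)))))))))) (.rp 27 (.thr 37 53 (.thr 25 29 (.thr 51 34 (.thr 12 38 (.thr 8 4 (.thr 15 10 (.thr 48 26 (.thr 32 16 (.dbl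 42 47 59))))))))) (.rp 25 (.thr 37 53 (.thr 51 34 (.thr 15 10 (.thr 39 27 (.thr 38 36 (.thr 4 55 (.thr 12 8 (.thr 14 13 (.dbl 26 48 50))))))))) (.rp 15 (.thr 37 53 (.thr 25 29 (.thr 51 34 (.thr 12 38 (.thr 4 8 (.thr 7 6 (.thr 22 52 (.thr 20 23 (.thr 60 40 (.dbl 28 19 44)))))))))) (.rp 12 (.thr 37 53 (.thr 51 34 (.thr 15 10 (.thr 27 39 (.thr 48 26 (.thr 16 32 (.thr 19 18 (.thr 23 31 (.thr 22 20 (.dbl 25 28 29)))))))))) (.rp 10 (.thr 37 53 (.thr 25 29 (.thr 51 34 (.thr 12 38 (.thr 4 8 (.thr 7 6 (.thr 22 52 (.thr 20 23 (.thr 60 40 (.dbl 28 19 44)))))))))) .nd)))))))))))))) (.rp 48 (.thr 25 29 (.thr 51 34 (.thr 12 38 (.thr 8 4 (.thr 42 59 (.str 41 (.nv (.thr 40 43 (.thr 60 20 (.thr 28 44 (.dbl 22 3 19)))) (.nv (.thr 9 57 (.thr 3 6 (.thr 19 35 (.dbl 22 28 60)))) (.nv (.thr 9 57 (.thr 11 10 (.thr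 40 43 (.dbl 56 24 26)))) (.nv (.thr 57 9 (.thr 60 54 (.dbl 40 20 43))) (.rp 58 (.str 53 (.nv (.thr 40 43 (.thr 9 57 (.thr 56 24 (.dbl 11 10 26)))) (.nv (.thr 57 9 (.thr 49 61 (.dbl 37 5 13))) (.rp 57 (.str 56 (.nv (.thr 11 26 (.thr 10 9 (.dbl 5 15 37))) (.nv (.dbl 40 24 43) .nd))) (.rp 9 (.thr 40 43 (.thr 60 20 (.thr 28 44 (.dbl 22 3 19)))) .nd))))) (.rp 53 (.str 58 (.nv (.thr 40 43 (.thr 60 20 (.thr 28 44 (.dbl 22 3 19)))) (.nv (.thr 9 57 (.dbl 10 11 26)) (.rp 11 (.thr 57 9 (.thr 60 54 (.dbl 40 20 43))) .nd)))) .nd)))))))))))) (.rp 47 (.str 15 (.nv (.thr 5 10 (.thr 25 29 (.thr 51 34 (.thr 12 38 (.thr 13 14 (.dbl 37 49 53)))))) (.nv (.thr 25 29 (.thr 51 34 (.thr 27 39 (.thr 26 24 (.thr 16 31 (.dbl 48 32 37)))))) (.nv (.thr 5 10 (.thr 37 53 (.thr 51 34 (.thr 39 27 (.thr 38 36 (.dbl 25 12 29))))))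 (.rp 51 (.thr 5 10 (.thr 25 29 (.thr 37 53 (.thr 48 26 (.thr 13 49 (.thr 12 14 (.thr 4 8 (.thr 36 24 (.dbl 38 39 55))))))))) (.rp 37 (.thr 10 5 (.thr 25 29 (.thr 51 34 (.thr 12 38 (.thr 8 4 (.thr 9 11 (.thr 6 3 (.dbl 14 2 13)))))))) (.rp 34 (.thr 5 10 (.thr 25 29 (.thr 37 53 (.thr 13 49 (.thr 12 14 (.thr 4 8 (.dbl 38 51 55))))))) (.rp 29 (.thr 5 10 (.thr 51 34 (.thr 39 27 (.thr 37 53 (.thr 38 36 (.thr 12 25 (.dbl 4 8 55))))))) (.rp 25 (.thr 5 10 (.thr 51 34 (.thr 39 27 (.thr 37 53 (.thr 38 36 (.thr 4 55 (.thr 12 8 (.thr 14 13 (.dbl 26 48 50))))))))) (.rp 12 (.thr 5 10 (.thr 51 34 (.thr 37 53 (.thr 48 26 (.thr 49 50 (.dbl 25 13 29)))))) .nd)))))))))) (.rp 46 (.thr 29 25 (.str 16 (.nv (.thr 18 19 (.thr 26 31 (.thr 48 32 (.thr 3 33 (.thr 15 37 (.thr 11 7 (.thr 41 56 (.dbl 22 30 60)))))))) (.nv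 (.thr 26 31 (.thr 18 19 (.thr 22 30 (.thr 48 32 (.thr 3 33 (.thr 60 41 (.dbl 20 23 40))))))) (.rp 60 (.thr 18 19 (.thr 26 31 (.thr 22 30 (.thr 48 32 (.thr 15 37 (.thr 10 5 (.thr 34 51 (.thr 2 50 (.dbl 42 58 62))))))))) (.rp 48 (.thr 19 18 (.thr 31 26 (.thr 27 23 (.thr 30 28 (.thr 51 34 (.thr 15 39 (.thr 5 10 (.thr 60 45 (.thr 54 57 (.thr 3 35 (.thr 7 11 (.thr 6 4 (.dbl 22 38 41))))))))))))) (.rp 47 (.thr 31 26 (.thr 28 30 (.thr 24 20 (.thr 48 32 (.thr 12 36 (.thr 4 8 (.thr 44 60 (.thr 38 55 (.thr 35 41 (.thr 51 34 (.dbl 19 3 18))))))))))) (.rp 45 (.thr 18 19 (.thr 26 31 (.thr 22 30 (.thr 48 32 (.thr 15 37 (.thr 3 33 (.thr 41 60 (.dbl 11 7 56)))))))) (.rp 41 (.thr 18 19 (.thr 26 31 (.thr 22 30 (.thr 48 32 (.thr 15 37 (.thr 10 5 (.thr 34 51 (.thr 2 50 (.dbl 42 58 62))))))))) (.rp 37 (.thr 31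 26 (.thr 28 30 (.thr 24 20 (.thr 48 32 (.thr 12 36 (.thr 4 8 (.thr 44 60 (.thr 38 55 (.thr 35 41 (.thr 51 34 (.dbl 19 3 18))))))))))) (.rp 35 (.thr 18 19 (.thr 26 31 (.thr 22 30 (.thr 48 32 (.thr 3 33 (.thr 34 51 (.thr 60 41 (.dbl 20 23 40)))))))) (.rp 34 (.thr 18 19 (.thr 26 31 (.thr 22 30 (.thr 23 20 (.thr 48 32 (.thr 15 37 (.thr 10 5 (.thr 42 58 (.thr 2 62 (.thr 14 6 (.thr 13 12 (.thr 50 38 (.thr 51 49 (.thr 39 27 (.thr 7 55 (.dbl 3 11 33)))))))))))))))) (.rp 33 (.thr 18 19 (.thr 26 31 (.thr 22 30 (.thr 48 32 (.thr 15 37 (.thr 10 5 (.thr 34 51 (.thr 2 50 (.dbl 42 58 62))))))))) (.rp 32 (.thr 19 18 (.thr 31 26 (.thr 27 23 (.thr 30 28 (.thr 51 34 (.thr 15 39 (.thr 5 10 (.thr 53 37 (.thr 60 45 (.thr 54 57 (.thr 55 52 (.thr 38 4 (.thr 22 6 (.dbl 3 35 41)))))))))))))) (.rp 31 (.str 15 (.nv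 (.thr 5 10 (.thr 48 32 (.dbl 37 26 53))) (.rp 53 (.thr 18 19 (.thr 48 32 (.thr 3 33 (.thr 11 7 (.thr 26 37 (.thr 22 30 (.dbl 41 56 60))))))) (.rp 48 (.thr 5 10 (.thr 19 18 (.thr 51 34 (.thr 3 35 (.thr 7 11 (.thr 4 6 (.thr 39 27 (.dbl 55 23 38)))))))) (.rp 37 (.thr 5 10 (.thr 19 18 (.thr 51 34 (.thr 3 35 (.thr 7 11 (.thr 4 6 (.thr 39 27 (.dbl 55 23 38)))))))) (.rp 32 (.thr 5 10 (.thr 19 18 (.thr 37 53 (.thr 51 34 (.thr 39 27 (.thr 38 36 (.thr 4 55 (.thr 7 6 (.dbl 3 11 35))))))))) (.rp 26 (.thr 5 10 (.thr 19 18 (.thr 37 53 (.thr 51 34 (.thr 3 35 (.thr 7 11 (.thr 4 6 (.thr 38 55 (.dbl 39 27 36))))))))) (.rp 10 (.thr 18 19 (.thr 48 32 (.thr 3 33 (.thr 11 7 (.thr 26 37 (.thr 22 30 (.dbl 41 56 60))))))) (.rp 5 (.thr 18 19 (.thr 48 32 (.thr 3 33 (.thr 11 7 (.thr 26 37 (.thr 22 30 (.dbl 41 56 60)))))))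 .nd))))))))) (.rp 30 (.thr 18 19 (.thr 26 31 (.thr 48 32 (.thr 15 37 (.thr 5 10 (.thr 3 33 (.thr 7 11 (.thr 4 6 (.thr 38 55 (.thr 14 50 (.dbl 12 8 13))))))))))) (.rp 27 (.thr 26 31 (.thr 48 32 (.thr 51 34 (.thr 50 49 (.thr 38 14 (.thr 4 55 (.thr 12 8 (.thr 36 24 (.dbl 37 15 39))))))))) (.rp 26 (.str 20 (.nv (.thr 48 32 (.thr 60 40 (.thr 52 56 (.thr 36 4 (.dbl 24 12 28))))) (.nv (.thr 19 18 (.thr 22 23 (.thr 51 34 (.thr 60 40 (.dbl 3 35 41))))) (.nv (.thr 24 28 (.thr 48 32 (.thr 12 36 (.thr 8 4 (.dbl 40 56 60))))) (.rp 60 (.thr 24 28 (.thr 22 23 (.thr 18 19 (.thr 48 32 (.thr 3 33 (.thr 12 36 (.thr 4 8 (.thr 6 9 (.dbl 38 54 55))))))))) (.rp 40 (.thr 24 28 (.thr 22 23 (.thr 18 19 (.thr 48 32 (.thr 3 33 (.thr 60 41 (.thr 36 12 (.dbl 52 4 56)))))))) (.rp 24 (.str 27 (.nv (.thr 23 22 (.dbl 19 18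 31)) (.rp 31 (.thr 22 23 (.thr 19 18 (.thr 60 40 (.thr 3 41 (.dbl 51 34 35))))) (.rp 30 (.thr 22 23 (.thr 19 18 (.thr 60 40 (.thr 3 41 (.dbl 51 34 35))))) (.rp 23 (.thr 48 32 (.thr 60 40 (.thr 51 34 (.thr 57 54 (.thr 49 50 (.thr 53 61 (.thr 5 37 (.dbl 15 10 39)))))))) (.rp 22 (.thr 60 40 (.thr 51 34 (.thr 15 39 (.thr 19 18 (.thr 30 45 (.dbl 31 23 28)))))) (.rp 19 (.thr 22 23 (.thr 48 32 (.thr 60 40 (.thr 51 34 (.thr 54 57 (.thr 38 6 (.thr 4 55 (.dbl 52 36 56)))))))) (.rp 18 (.thr 60 40 (.thr 51 34 (.thr 15 39 (.thr 23 22 (.thr 30 45 (.dbl 31 19 28)))))) .nd)))))))) .nd))))))) (.rp 23 (.thr 26 31 (.thr 48 32 (.thr 51 34 (.thr 50 49 (.thr 38 14 (.thr 4 55 (.thr 12 8 (.thr 36 24 (.dbl 37 15 39))))))))) (.rp 22 (.thr 26 31 (.thr 48 32 (.thr 51 34 (.thr 50 49 (.thr 38 14 (.thr 4 55 (.thr 12 8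 (.thr 36 24 (.dbl 37 15 39))))))))) (.rp 19 (.thr 26 31 (.thr 48 32 (.thr 51 34 (.thr 50 49 (.thr 38 14 (.thr 4 55 (.thr 12 8 (.thr 36 24 (.dbl 37 15 39))))))))) (.rp 18 (.thr 26 31 (.thr 48 32 (.thr 51 34 (.thr 50 49 (.thr 38 14 (.thr 4 55 (.thr 12 8 (.thr 36 24 (.dbl 37 15 39))))))))) (.rp 15 (.thr 18 19 (.thr 31 26 (.thr 28 30 (.thr 24 20 (.thr 48 32 (.thr 3 33 (.thr 12 36 (.thr 4 8 (.thr 6 9 (.thr 38 55 (.thr 22 54 (.dbl 60 41 44)))))))))))) (.rp 3 (.thr 26 31 (.thr 48 32 (.thr 51 34 (.thr 50 49 (.thr 38 14 (.thr 4 55 (.thr 12 8 (.thr 36 24 (.dbl 37 15 39))))))))) .nd)))))))))))))))))))))))) (.rp 45 (.str 5 (.nv (.thr 15 10 (.thr 25 29 (.thr 51 34 (.thr 27 39 (.thr 26 24 (.thr 16 31 (.dbl 48 32 37))))))) (.nv (.thr 15 10 (.thr 25 29 (.thr 51 34 (.thr 12 38 (.thr 13 14 (.dbl 37 49 53))))))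 (.nv (.thr 15 10 (.thr 37 53 (.thr 51 34 (.thr 39 27 (.thr 38 36 (.dbl 25 12 29)))))) (.rp 51 (.thr 37 53 (.thr 25 29 (.thr 13 49 (.thr 15 10 (.thr 12 14 (.thr 4 8 (.thr 48 26 (.thr 36 24 (.dbl 38 39 55))))))))) (.rp 37 (.thr 25 29 (.thr 51 34 (.thr 15 10 (.thr 27 39 (.thr 26 24 (.thr 16 31 (.thr 48 32 (.thr 50 49 (.dbl 38 12 14))))))))) (.rp 34 (.thr 37 53 (.thr 25 29 (.thr 13 49 (.thr 15 10 (.thr 12 14 (.thr 4 8 (.dbl 38 51 55))))))) (.rp 29 (.thr 37 53 (.thr 51 34 (.thr 15 10 (.thr 39 27 (.thr 38 36 (.thr 4 55 (.dbl 12 8 25))))))) (.rp 25 (.thr 37 53 (.thr 51 34 (.thr 15 10 (.thr 39 27 (.thr 38 36 (.thr 4 55 (.thr 12 8 (.thr 14 13 (.dbl 26 48 50))))))))) (.rp 15 (.thr 37 53 (.thr 25 29 (.thr 51 34 (.thr 12 38 (.thr 4 8 (.thr 7 6 (.thr 22 52 (.thr 20 23 (.thr 60 40 (.dbl 28 19 44))))))))))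 (.rp 12 (.thr 37 53 (.thr 51 34 (.thr 15 10 (.thr 48 26 (.thr 49 50 (.dbl 25 13 29)))))) (.rp 10 (.thr 37 53 (.thr 25 29 (.thr 13 49 (.thr 51 34 (.thr 12 38 (.thr 15 14 (.thr 27 39 (.dbl 26 24 48)))))))) .nd)))))))))))) (.rp 44 (.str 5 (.nv (.thr 15 10 (.thr 25 29 (.thr 37 53 (.thr 13 49 (.thr 12 14 (.thr 4 8 (.dbl 38 51 55))))))) (.nv (.thr 15 10 (.thr 37 53 (.thr 48 26 (.thr 51 34 (.thr 49 50 (.dbl 25 13 29)))))) (.nv (.thr 15 10 (.thr 25 29 (.thr 51 34 (.thr 27 39 (.thr 26 24 (.dbl 37 48 53)))))) (.rp 53 (.thr 25 29 (.thr 51 34 (.thr 15 10 (.thr 27 39 (.thr 26 24 (.thr 16 31 (.dbl 48 32 37))))))) (.rp 51 (.thr 37 53 (.thr 25 29 (.thr 13 49 (.thr 15 10 (.thr 12 14 (.thr 4 8 (.thr 48 26 (.thr 36 24 (.dbl 38 39 55))))))))) (.rp 48 (.thr 25 29 (.thr 51 34 (.thr 12 38 (.thr 15 10 (.thr 13 14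 (.dbl 37 49 53)))))) (.rp 37 (.thr 25 29 (.thr 51 34 (.thr 15 10 (.thr 27 39 (.thr 26 24 (.thr 16 31 (.thr 48 32 (.thr 50 49 (.dbl 38 12 14))))))))) (.rp 29 (.thr 37 53 (.thr 51 34 (.thr 15 10 (.thr 39 27 (.thr 38 36 (.thr 4 55 (.dbl 12 8 25))))))) (.rp 25 (.thr 37 53 (.thr 51 34 (.thr 15 10 (.thr 39 27 (.thr 38 36 (.thr 4 55 (.thr 12 8 (.thr 14 13 (.dbl 26 48 50))))))))) (.rp 15 (.thr 37 53 (.thr 25 29 (.thr 49 13 (.thr 51 34 (.thr 12 38 (.thr 8 4 (.thr 48 50 (.thr 32 16 (.dbl 42 47 59))))))))) (.rp 10 (.thr 37 53 (.thr 25 29 (.thr 49 13 (.thr 51 34 (.thr 48 50 (.thr 16 32 (.dbl 26 15 31))))))) .nd)))))))))))) (.rp 43 (.thr 51 34 (.str 3 (.nv (.thr 19 35 (.thr 16 18 (.thr 31 26 (.thr 23 27 (.thr 22 20 (.dbl 25 28 29)))))) (.nv (.thr 25 29 (.thr 12 38 (.thr 9 6 (.thr 41 57 (.thr 22 60 (.dbl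 19 28 35)))))) (.rp 35 (.thr 25 29 (.thr 12 38 (.thr 4 8 (.thr 6 9 (.thr 5 7 (.thr 37 53 (.thr 13 49 (.dbl 15 10 14)))))))) (.rp 29 (.thr 19 35 (.thr 16 18 (.thr 31 26 (.thr 23 27 (.thr 22 20 (.thr 25 28 (.thr 12 38 (.thr 9 6 (.dbl 41 57 60))))))))) (.rp 28 (.thr 25 29 (.thr 12 38 (.thr 4 8 (.thr 6 9 (.thr 5 7 (.thr 37 53 (.thr 13 49 (.dbl 15 10 14)))))))) (.rp 25 (.str 16 (.nv (.dbl 19 18 35) (.rp 35 (.thr 18 19 (.dbl 48 32 33)) (.rp 19 (.thr 48 32 (.thr 26 31 (.thr 15 37 (.thr 11 7 (.thr 41 56 (.thr 22 60 (.dbl 18 30 33))))))) (.rp 18 (.thr 48 32 (.thr 35 19 (.thr 50 49 (.thr 26 31 (.thr 38 14 (.thr 41 44 (.thr 11 56 (.dbl 15 7 37)))))))) .nd))))) (.rp 22 (.thr 19 35 (.thr 16 18 (.thr 25 29 (.thr 12 38 (.thr 26 31 (.thr 24 27 (.dbl 48 32 36))))))) (.rp 19 (.thr 25 29 (.thr 12 38 (.thr 4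 8 (.thr 6 9 (.thr 5 7 (.thr 37 53 (.thr 13 49 (.dbl 15 10 14)))))))) .nd)))))))))) (.rp 42 (.str 16 (.nv (.thr 25 29 (.thr 26 31 (.thr 27 24 (.thr 48 32 (.thr 51 34 (.dbl 15 37 39)))))) (.nv (.thr 18 19 (.thr 26 31 (.thr 22 30 (.thr 48 32 (.thr 3 33 (.thr 60 41 (.dbl 20 23 40))))))) (.nv (.thr 18 19 (.thr 25 29 (.thr 48 32 (.thr 51 34 (.thr 49 50 (.thr 37 13 (.dbl 26 15 31))))))) (.nv (.thr 19 18 (.thr 25 29 (.thr 22 28 (.thr 23 20 (.dbl 31 26 27))))) (.rp 31 (.thr 48 32 (.thr 19 18 (.thr 51 34 (.thr 25 29 (.thr 28 22 (.thr 24 20 (.dbl 12 36 38))))))) (.rp 29 (.thr 48 32 (.thr 51 34 (.thr 50 49 (.thr 26 31 (.thr 38 14 (.thr 4 55 (.dbl 12 8 25))))))) (.rp 26 (.thr 19 18 (.thr 51 34 (.thr 3 35 (.thr 25 29 (.thr 22 28 (.thr 20 23 (.dbl 60 40 41))))))) .nd)))))))) (.rp 41 (.str 37 (.nv (.thr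 25 29 (.thr 49 13 (.thr 51 34 (.thr 48 50 (.thr 16 32 (.dbl 26 15 31)))))) (.nv (.thr 5 53 (.thr 15 10 (.thr 51 34 (.thr 39 27 (.thr 38 36 (.dbl 25 12 29)))))) (.rp 51 (.thr 5 53 (.thr 25 29 (.thr 13 49 (.thr 15 10 (.thr 12 14 (.thr 4 8 (.thr 48 26 (.thr 36 24 (.dbl 38 39 55))))))))) (.rp 48 (.thr 25 29 (.thr 13 49 (.thr 51 34 (.thr 12 38 (.thr 15 14 (.dbl 5 10 53)))))) (.rp 34 (.thr 5 53 (.thr 25 29 (.thr 13 49 (.thr 15 10 (.thr 12 14 (.thr 4 8 (.dbl 38 51 55))))))) (.rp 29 (.thr 5 53 (.thr 51 34 (.thr 15 10 (.thr 39 27 (.thr 38 36 (.thr 4 55 (.dbl 12 8 25))))))) (.rp 25 (.thr 5 53 (.thr 51 34 (.thr 15 10 (.thr 39 27 (.thr 38 36 (.thr 4 55 (.thr 12 8 (.thr 14 13 (.dbl 26 48 50))))))))) (.rp 15 (.thr 25 29 (.thr 49 13 (.thr 51 34 (.thr 12 38 (.thr 8 4 (.thr 48 50 (.thr 32 16 (.dbl 42 47 59))))))))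 (.rp 12 (.thr 5 53 (.thr 51 34 (.thr 15 10 (.thr 48 26 (.thr 49 50 (.dbl 25 13 29)))))) (.rp 5 (.thr 25 29 (.thr 13 49 (.thr 51 34 (.thr 12 38 (.thr 15 14 (.thr 27 39 (.dbl 26 24 48))))))) .nd))))))))))) (.rp 40 (.str 5 (.nv (.thr 15 10 (.thr 37 53 (.thr 51 34 (.thr 39 27 (.thr 38 36 (.thr 4 55 (.dbl 12 8 25))))))) (.nv (.thr 15 10 (.thr 25 29 (.thr 51 34 (.thr 12 38 (.thr 13 14 (.dbl 37 49 53)))))) (.nv (.thr 15 10 (.thr 25 29 (.thr 37 53 (.thr 51 34 (.thr 27 39 (.dbl 26 24 48)))))) (.rp 53 (.thr 25 29 (.thr 15 10 (.thr 51 34 (.thr 27 39 (.thr 26 24 (.thr 16 31 (.dbl 48 32 37))))))) (.rp 51 (.thr 25 29 (.thr 37 53 (.thr 13 49 (.thr 15 10 (.thr 48 26 (.thr 32 16 (.thr 12 14 (.thr 8 4 (.dbl 42 47 59))))))))) (.rp 37 (.thr 25 29 (.thr 15 10 (.thr 51 34 (.thr 27 39 (.thr 26 24 (.thr 16 31 (.thr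 48 32 (.thr 50 49 (.dbl 38 12 14))))))))) (.rp 34 (.thr 25 29 (.thr 37 53 (.thr 13 49 (.thr 15 10 (.thr 12 14 (.thr 4 8 (.dbl 38 51 55))))))) (.rp 25 (.thr 37 53 (.thr 15 10 (.thr 51 34 (.thr 39 27 (.thr 38 36 (.thr 4 55 (.thr 12 8 (.thr 14 13 (.dbl 26 48 50))))))))) (.rp 15 (.thr 25 29 (.thr 37 53 (.thr 49 13 (.thr 51 34 (.thr 48 50 (.thr 32 16 (.thr 12 38 (.thr 8 4 (.dbl 42 47 59))))))))) (.rp 12 (.thr 37 53 (.thr 15 10 (.thr 48 26 (.thr 51 34 (.thr 49 50 (.dbl 25 13 29)))))) (.rp 10 (.thr 25 29 (.thr 37 53 (.thr 49 13 (.thr 51 34 (.thr 48 50 (.thr 16 32 (.dbl 26 15 31))))))) .nd)))))))))))) (.rp 39 (.str 37 (.nv (.thr 5 53 (.thr 15 10 (.thr 48 26 (.thr 51 34 (.thr 49 50 (.dbl 25 13 29)))))) (.nv (.thr 25 29 (.thr 49 13 (.thr 51 34 (.thr 48 50 (.thr 16 32 (.dbl 26 15 31)))))) (.nv (.thr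 5 53 (.thr 25 29 (.thr 51 34 (.thr 12 38 (.thr 15 10 (.dbl 13 14 49)))))) (.rp 51 (.thr 5 53 (.thr 25 29 (.thr 13 49 (.thr 15 10 (.thr 12 14 (.thr 8 4 (.thr 48 26 (.thr 32 16 (.dbl 42 47 59))))))))) (.rp 49 (.thr 5 53 (.thr 25 29 (.thr 51 34 (.thr 12 38 (.thr 8 4 (.thr 15 10 (.thr 48 26 (.thr 32 16 (.dbl 42 47 59))))))))) (.rp 48 (.thr 25 29 (.thr 13 49 (.thr 51 34 (.thr 12 38 (.thr 15 14 (.dbl 5 10 53)))))) (.rp 34 (.thr 5 53 (.thr 25 29 (.thr 13 49 (.thr 15 10 (.thr 12 14 (.thr 4 8 (.dbl 38 51 55))))))) (.rp 29 (.thr 5 53 (.thr 51 34 (.thr 15 10 (.thr 48 26 (.thr 32 16 (.thr 49 50 (.thr 25 13 (.thr 42 47 (.thr 8 59 (.dbl 12 4 38)))))))))) (.rp 25 (.thr 5 53 (.thr 34 51 (.thr 15 10 (.thr 48 26 (.thr 32 16 (.thr 33 35 (.thr 41 45 (.thr 3 18 (.thr 7 11 (.dbl 22 52 60)))))))))) (.rp 15 (.thr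 25 29 (.thr 49 13 (.thr 51 34 (.thr 12 38 (.thr 8 4 (.thr 48 50 (.thr 32 16 (.dbl 42 47 59)))))))) (.rp 13 (.thr 5 53 (.thr 25 29 (.thr 51 34 (.thr 12 38 (.thr 8 4 (.thr 15 10 (.thr 48 26 (.thr 32 16 (.dbl 42 47 59))))))))) (.rp 5 (.thr 25 29 (.thr 51 34 (.thr 12 38 (.thr 8 4 (.thr 42 59 (.thr 32 47 (.thr 48 16 (.dbl 49 13 50)))))))) .nd))))))))))))) (.rp 38 (.str 16 (.nv (.thr 25 29 (.thr 26 31 (.thr 27 24 (.thr 48 32 (.thr 15 37 (.dbl 51 34 39)))))) (.nv (.thr 18 19 (.thr 26 31 (.thr 22 30 (.thr 48 32 (.thr 3 33 (.thr 60 41 (.dbl 20 23 40))))))) (.nv (.thr 18 19 (.thr 25 29 (.thr 48 32 (.thr 51 34 (.thr 49 50 (.thr 37 13 (.dbl 26 15 31))))))) (.nv (.thr 25 29 (.thr 19 18 (.thr 22 28 (.thr 23 20 (.dbl 31 26 27))))) (.rp 31 (.thr 25 29 (.thr 48 32 (.thr 51 34 (.thr 49 50 (.thr 37 13 (.thr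 5 53 (.dbl 15 10 26))))))) (.rp 29 (.thr 18 19 (.thr 26 31 (.thr 48 32 (.thr 15 37 (.thr 3 33 (.thr 11 7 (.thr 41 56 (.dbl 22 30 60)))))))) (.rp 26 (.thr 25 29 (.thr 19 18 (.thr 22 28 (.thr 20 23 (.thr 60 40 (.thr 3 41 (.dbl 51 34 35))))))) .nd)))))))) (.rp 37 (.str 20 (.nv (.thr 22 23 (.thr 51 34 (.thr 60 40 (.thr 3 41 (.thr 19 35 (.thr 16 18 (.dbl 28 24 25))))))) (.nv (.thr 25 29 (.thr 51 34 (.thr 12 38 (.thr 60 40 (.thr 28 44 (.dbl 22 19 23)))))) (.nv (.thr 22 23 (.thr 25 29 (.thr 28 19 (.thr 24 16 (.thr 51 34 (.thr 12 38 (.thr 4 8 (.dbl 36 48 52)))))))) (.nv (.thr 22 23 (.thr 25 29 (.thr 28 19 (.thr 24 16 (.thr 60 40 (.thr 12 44 (.thr 4 8 (.dbl 36 48 52)))))))) (.nv (.thr 22 23 (.thr 51 34 (.thr 60 40 (.thr 54 57 (.thr 38 6 (.dbl 25 12 29)))))) (.rp 25 (.thr 22 23 (.thr 60 40 (.thr 51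 34 (.thr 54 57 (.thr 38 6 (.thr 4 55 (.thr 12 8 (.thr 44 28 (.dbl 41 3 35))))))))) (.rp 23 (.thr 25 29 (.thr 60 40 (.thr 51 34 (.thr 12 38 (.thr 28 44 (.thr 16 24 (.dbl 19 18 22))))))) (.rp 22 (.thr 25 29 (.thr 60 40 (.thr 51 34 (.thr 12 38 (.thr 4 8 (.thr 28 44 (.thr 24 16 (.dbl 36 48 52)))))))) .nd))))))))) (.rp 36 (.str 5 (.nv (.thr 15 10 (.thr 25 29 (.thr 37 53 (.thr 13 49 (.thr 12 14 (.thr 4 8 (.dbl 38 51 55))))))) (.nv (.thr 15 10 (.thr 25 29 (.thr 51 34 (.thr 12 38 (.thr 13 14 (.dbl 37 49 53)))))) (.nv (.thr 15 10 (.thr 37 53 (.thr 48 26 (.thr 51 34 (.thr 49 50 (.dbl 25 13 29)))))) (.nv (.thr 15 10 (.thr 25 29 (.thr 37 53 (.thr 51 34 (.thr 27 39 (.dbl 26 24 48)))))) (.rp 53 (.thr 25 29 (.thr 51 34 (.thr 15 10 (.thr 27 39 (.thr 26 24 (.thr 16 31 (.dbl 48 32 37))))))) (.rp 51 (.thr 37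 53 (.thr 25 29 (.thr 13 49 (.thr 15 10 (.thr 12 14 (.thr 8 4 (.thr 48 26 (.thr 32 16 (.dbl 42 47 59))))))))) (.rp 37 (.thr 25 29 (.thr 51 34 (.thr 15 10 (.thr 39 27 (.thr 12 38 (.thr 4 8 (.thr 7 6 (.thr 23 55 (.thr 22 20 (.thr 19 28 (.dbl 3 11 35))))))))))) (.rp 29 (.thr 37 53 (.thr 51 34 (.thr 15 10 (.thr 48 26 (.thr 32 16 (.thr 49 50 (.thr 25 13 (.thr 42 47 (.thr 8 59 (.dbl 12 4 38)))))))))) (.rp 25 (.thr 37 53 (.thr 34 51 (.thr 15 10 (.thr 48 26 (.thr 32 16 (.thr 33 35 (.thr 41 45 (.thr 3 18 (.thr 7 11 (.dbl 22 52 60)))))))))) (.rp 15 (.thr 37 53 (.thr 25 29 (.thr 49 13 (.thr 51 34 (.thr 12 38 (.thr 8 4 (.thr 48 50 (.thr 32 16 (.dbl 42 47 59))))))))) (.rp 10 (.thr 37 53 (.thr 25 29 (.thr 49 13 (.thr 51 34 (.thr 48 50 (.thr 16 32 (.dbl 26 15 31))))))) .nd)))))))))))) (.rp 35 (.str 5 (.nv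 (.thr 15 10 (.thr 25 29 (.thr 51 34 (.thr 12 38 (.thr 13 14 (.dbl 37 49 53)))))) (.nv (.thr 37 53 (.thr 25 29 (.thr 49 13 (.thr 15 10 (.thr 48 26 (.dbl 51 34 50)))))) (.nv (.thr 15 10 (.thr 37 53 (.thr 51 34 (.thr 39 27 (.thr 38 36 (.dbl 25 12 29)))))) (.rp 53 (.thr 25 29 (.thr 51 34 (.thr 15 10 (.thr 27 39 (.thr 26 24 (.thr 16 31 (.dbl 48 32 37))))))) (.rp 51 (.thr 37 53 (.thr 25 29 (.thr 13 49 (.thr 15 10 (.thr 12 14 (.thr 4 8 (.thr 48 26 (.thr 36 24 (.dbl 38 39 55))))))))) (.rp 37 (.thr 25 29 (.thr 51 34 (.thr 12 38 (.thr 8 4 (.thr 10 15 (.thr 11 9 (.thr 42 59 (.thr 26 58 (.thr 24 27 (.dbl 56 40 41)))))))))) (.rp 34 (.thr 37 53 (.thr 25 29 (.thr 13 49 (.thr 15 10 (.thr 12 14 (.thr 4 8 (.dbl 38 51 55))))))) (.rp 29 (.thr 37 53 (.thr 51 34 (.thr 15 10 (.thr 39 27 (.thr 38 36 (.thr 4 55 (.dbl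 12 8 25))))))) (.rp 25 (.thr 37 53 (.thr 51 34 (.thr 15 10 (.thr 39 27 (.thr 38 36 (.thr 4 55 (.thr 12 8 (.thr 14 13 (.dbl 26 48 50))))))))) (.rp 15 (.thr 37 53 (.thr 25 29 (.thr 49 13 (.thr 51 34 (.thr 12 38 (.thr 8 4 (.thr 48 50 (.thr 32 16 (.dbl 42 47 59))))))))) (.rp 12 (.thr 37 53 (.thr 51 34 (.thr 15 10 (.thr 48 26 (.thr 49 50 (.dbl 25 13 29)))))) (.rp 10 (.thr 37 53 (.thr 25 29 (.thr 49 13 (.thr 51 34 (.thr 48 50 (.thr 26 15 (.dbl 16 31 32))))))) .nd))))))))))))) (.rp 34 (.str 16 (.nv (.thr 19 18 (.thr 31 26 (.thr 23 27 (.thr 22 20 (.dbl 25 28 29))))) (.nv (.thr 25 29 (.thr 26 31 (.thr 24 27 (.thr 48 32 (.thr 12 36 (.thr 4 8 (.dbl 38 51 55))))))) (.nv (.thr 25 29 (.thr 19 18 (.thr 31 26 (.thr 22 28 (.dbl 23 20 27))))) (.rp 31 (.thr 25 29 (.thr 19 18 (.thr 28 22 (.thr 20 24 (.thr 60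 40 (.thr 12 44 (.thr 38 51 (.dbl 4 8 55)))))))) (.rp 29 (.thr 18 19 (.thr 26 31 (.thr 30 22 (.thr 48 32 (.thr 15 37 (.thr 60 45 (.thr 52 56 (.thr 20 40 (.thr 36 4 (.dbl 24 12 28)))))))))) (.rp 28 (.thr 25 29 (.thr 18 19 (.thr 26 31 (.thr 30 22 (.thr 27 24 (.thr 48 32 (.thr 15 37 (.thr 51 39 (.thr 50 49 (.dbl 38 12 14)))))))))) (.rp 27 (.thr 25 29 (.thr 19 18 (.thr 28 22 (.thr 20 24 (.thr 60 40 (.thr 12 44 (.thr 38 51 (.dbl 4 8 55)))))))) (.rp 26 (.thr 25 29 (.thr 19 18 (.thr 22 28 (.thr 20 23 (.thr 60 40 (.thr 3 41 (.thr 51 35 (.thr 54 57 (.dbl 38 6 12))))))))) (.rp 25 (.thr 18 19 (.thr 26 31 (.thr 22 30 (.thr 23 20 (.thr 48 32 (.thr 15 37 (.thr 10 5 (.thr 42 58 (.thr 2 62 (.thr 14 6 (.thr 13 12 (.thr 50 38 (.thr 51 49 (.thr 39 27 (.thr 7 55 (.dbl 3 11 33)))))))))))))))) (.rp 23 (.thr 25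 29 (.thr 19 18 (.thr 28 22 (.thr 24 20 (.dbl 26 27 31))))) (.rp 19 (.thr 25 29 (.thr 26 31 (.thr 27 24 (.thr 48 32 (.thr 15 37 (.thr 51 39 (.thr 50 49 (.dbl 38 12 14)))))))) .nd)))))))))))) (.rp 33 (.str 5 (.nv (.thr 15 10 (.thr 37 53 (.thr 48 26 (.thr 51 34 (.thr 49 50 (.dbl 25 13 29)))))) (.nv (.thr 15 10 (.thr 25 29 (.thr 37 53 (.thr 13 49 (.thr 12 14 (.thr 4 8 (.dbl 38 51 55))))))) (.nv (.thr 15 10 (.thr 25 29 (.thr 51 34 (.thr 27 39 (.thr 26 24 (.dbl 37 48 53)))))) (.rp 53 (.thr 25 29 (.thr 51 34 (.thr 15 10 (.thr 27 39 (.thr 26 24 (.thr 16 31 (.dbl 48 32 37))))))) (.rp 51 (.thr 37 53 (.thr 25 29 (.thr 13 49 (.thr 15 10 (.thr 12 14 (.thr 4 8 (.thr 48 26 (.thr 36 24 (.dbl 38 39 55))))))))) (.rp 48 (.thr 25 29 (.thr 51 34 (.thr 12 38 (.thr 15 10 (.thr 13 14 (.dbl 37 49 53)))))) (.rp 37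 (.thr 25 29 (.thr 51 34 (.thr 12 38 (.thr 8 4 (.thr 10 15 (.thr 9 11 (.thr 41 57 (.thr 3 6 (.thr 22 60 (.dbl 19 28 35)))))))))) (.rp 29 (.thr 37 53 (.thr 51 34 (.thr 15 10 (.thr 39 27 (.thr 38 36 (.thr 4 55 (.dbl 12 8 25))))))) (.rp 25 (.thr 37 53 (.thr 51 34 (.thr 15 10 (.thr 39 27 (.thr 38 36 (.thr 4 55 (.thr 12 8 (.thr 14 13 (.dbl 26 48 50))))))))) (.rp 15 (.thr 37 53 (.thr 25 29 (.thr 49 13 (.thr 51 34 (.thr 12 38 (.thr 8 4 (.thr 48 50 (.thr 32 16 (.dbl 42 47 59))))))))) (.rp 10 (.thr 37 53 (.thr 25 29 (.thr 49 13 (.thr 51 34 (.thr 48 50 (.thr 26 15 (.dbl 16 31 32))))))) .nd)))))))))))) (.rp 32 (.str 5 (.nv (.thr 15 10 (.thr 37 53 (.thr 48 26 (.thr 51 34 (.thr 49 50 (.dbl 25 13 29)))))) (.nv (.thr 15 10 (.thr 25 29 (.thr 37 53 (.thr 13 49 (.thr 12 14 (.thr 4 8 (.dbl 38 51 55))))))) (.nv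 (.thr 15 10 (.thr 25 29 (.thr 51 34 (.thr 27 39 (.thr 26 24 (.dbl 37 48 53)))))) (.rp 53 (.thr 25 29 (.thr 51 34 (.thr 12 38 (.thr 15 10 (.thr 27 39 (.thr 13 14 (.thr 37 49 (.dbl 26 24 48)))))))) (.rp 51 (.thr 37 53 (.thr 25 29 (.thr 13 49 (.thr 15 10 (.thr 12 14 (.thr 4 8 (.thr 48 26 (.thr 36 24 (.dbl 38 39 55))))))))) (.rp 48 (.thr 25 29 (.thr 51 34 (.thr 12 38 (.thr 15 10 (.thr 13 14 (.dbl 37 49 53)))))) (.rp 37 (.thr 25 29 (.thr 51 34 (.thr 12 38 (.thr 8 4 (.thr 10 15 (.thr 9 11 (.thr 41 57 (.thr 3 6 (.thr 22 60 (.dbl 19 28 35)))))))))) (.rp 29 (.thr 37 53 (.thr 51 34 (.thr 15 10 (.thr 39 27 (.thr 38 36 (.thr 4 55 (.dbl 12 8 25))))))) (.rp 25 (.thr 37 53 (.thr 51 34 (.thr 15 10 (.thr 39 27 (.thr 38 36 (.thr 4 55 (.thr 12 8 (.thr 14 13 (.dbl 26 48 50))))))))) (.rp 15 (.thr 37 53 (.thr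 25 29 (.thr 49 13 (.thr 51 34 (.thr 12 38 (.thr 4 8 (.thr 7 6 (.thr 48 50 (.thr 36 24 (.dbl 52 20 22)))))))))) (.rp 10 (.thr 37 53 (.thr 25 29 (.thr 49 13 (.thr 51 34 (.thr 12 38 (.thr 48 50 (.thr 24 36 (.dbl 26 15 27)))))))) .nd)))))))))))) (.rp 31 (.str 15 (.nv (.thr 5 10 (.thr 25 29 (.thr 37 53 (.thr 13 49 (.thr 12 14 (.thr 4 8 (.dbl 38 51 55))))))) (.nv (.thr 5 10 (.thr 37 53 (.thr 48 26 (.thr 51 34 (.thr 49 50 (.dbl 25 13 29)))))) (.nv (.thr 5 10 (.thr 25 29 (.thr 51 34 (.thr 27 39 (.thr 26 24 (.dbl 37 48 53)))))) (.rp 53 (.thr 25 29 (.thr 51 34 (.thr 12 38 (.thr 13 14 (.thr 37 49 (.thr 27 39 (.dbl 26 24 48))))))) (.rp 51 (.thr 5 10 (.thr 25 29 (.thr 37 53 (.thr 48 26 (.thr 32 16 (.thr 42 47 (.thr 13 49 (.thr 12 14 (.dbl 8 4 59))))))))) (.rp 48 (.thr 5 10 (.thr 25 29 (.thr 51 34 (.thr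 12 38 (.thr 13 14 (.dbl 37 49 53)))))) (.rp 37 (.thr 10 5 (.thr 25 29 (.thr 51 34 (.thr 12 38 (.thr 8 4 (.thr 9 11 (.thr 6 3 (.dbl 14 2 13)))))))) (.rp 29 (.thr 5 10 (.thr 51 34 (.thr 39 27 (.thr 37 53 (.thr 38 36 (.thr 12 25 (.dbl 4 8 55))))))) (.rp 25 (.thr 5 10 (.thr 51 34 (.thr 39 27 (.thr 37 53 (.thr 38 36 (.thr 4 55 (.thr 12 8 (.thr 14 13 (.dbl 26 48 50))))))))) (.rp 10 (.thr 25 29 (.thr 51 34 (.thr 12 38 (.thr 13 14 (.thr 37 49 (.thr 26 48 (.dbl 27 24 39))))))) (.rp 5 (.thr 25 29 (.thr 51 34 (.thr 12 38 (.thr 13 14 (.thr 37 49 (.thr 26 48 (.dbl 27 24 39))))))) .nd)))))))))))) (.rp 30 (.str 20 (.nv (.thr 22 23 (.thr 51 34 (.thr 60 40 (.thr 3 41 (.thr 19 35 (.thr 16 18 (.dbl 28 24 25))))))) (.nv (.thr 25 29 (.thr 51 34 (.thr 12 38 (.thr 60 40 (.thr 28 44 (.dbl 22 19 23)))))) (.nv (.thr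 22 23 (.thr 25 29 (.thr 28 19 (.thr 24 16 (.thr 51 34 (.thr 12 38 (.thr 4 8 (.dbl 36 48 52)))))))) (.nv (.thr 22 23 (.thr 25 29 (.thr 28 19 (.thr 24 16 (.thr 60 40 (.thr 12 44 (.thr 4 8 (.dbl 36 48 52)))))))) (.nv (.thr 22 23 (.thr 51 34 (.thr 60 40 (.thr 54 57 (.thr 38 6 (.dbl 25 12 29)))))) (.rp 25 (.thr 22 23 (.thr 60 40 (.thr 51 34 (.thr 54 57 (.thr 38 6 (.thr 4 55 (.thr 12 8 (.thr 44 28 (.dbl 41 3 35))))))))) (.rp 23 (.thr 25 29 (.thr 60 40 (.thr 51 34 (.thr 12 38 (.thr 28 44 (.thr 16 24 (.dbl 19 18 22))))))) (.rp 22 (.thr 25 29 (.thr 60 40 (.thr 51 34 (.thr 12 38 (.thr 4 8 (.thr 36 52 (.thr 24 48 (.dbl 28 16 44)))))))) .nd))))))))) (.rp 29 (.thr 51 34 (.str 12 (.nv (.thr 38 25 (.dbl 4 8 55)) (.rp 55 (.str 5 (.nv (.thr 15 10 (.thr 13 14 (.thr 37 53 (.thr 49 25 (.dbl 48 26 50))))) (.nv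 (.thr 4 8 (.thr 7 6 (.thr 37 53 (.thr 38 25 (.thr 36 39 (.dbl 52 20 22)))))) (.nv (.thr 15 10 (.thr 38 25 (.thr 39 27 (.dbl 37 36 53)))) (.rp 53 (.thr 38 25 (.thr 15 10 (.thr 14 13 (.thr 39 27 (.thr 37 36 (.dbl 26 48 50)))))) (.rp 37 (.thr 38 25 (.thr 4 8 (.thr 6 7 (.thr 22 54 (.thr 3 9 (.thr 35 19 (.dbl 41 44 60))))))) (.rp 25 (.thr 37 53 (.thr 15 10 (.thr 39 27 (.thr 36 38 (.dbl 48 24 26))))) .nd))))))) (.rp 38 (.str 5 (.nv (.thr 4 8 (.thr 7 6 (.thr 15 10 (.thr 39 27 (.thr 23 55 (.thr 22 20 (.dbl 37 52 53))))))) (.nv (.thr 37 53 (.thr 15 10 (.thr 13 14 (.thr 49 25 (.dbl 48 26 50))))) (.rp 53 (.thr 4 8 (.thr 6 7 (.thr 3 9 (.thr 19 35 (.thr 16 18 (.thr 31 26 (.thr 27 23 (.dbl 15 10 39)))))))) (.rp 46 (.str 42 (.nv (.thr 8 4 (.thr 25 59 (.thr 37 53 (.thr 49 13 (.thr 48 50 (.dbl 32 16 47))))))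 (.nv (.thr 8 4 (.thr 15 10 (.thr 25 59 (.thr 37 53 (.dbl 13 14 49))))) (.nv (.thr 15 10 (.thr 37 53 (.thr 48 26 (.dbl 32 16 47)))) (.rp 53 (.thr 15 10 (.thr 13 14 (.thr 8 4 (.thr 27 39 (.thr 25 59 (.thr 26 24 (.dbl 37 48 49))))))) (.rp 48 (.thr 15 10 (.thr 13 14 (.thr 8 4 (.thr 25 59 (.dbl 37 49 53))))) (.rp 37 (.thr 10 15 (.thr 4 8 (.thr 6 7 (.thr 3 9 (.thr 19 35 (.thr 16 18 (.dbl 26 31 58))))))) (.rp 14 (.thr 15 10 (.thr 37 53 (.thr 32 47 (.dbl 48 16 26)))) .nd)))))))) (.rp 42 (.str 46 (.nv (.thr 15 10 (.thr 13 14 (.thr 27 39 (.thr 37 53 (.thr 25 49 (.dbl 26 24 48)))))) (.nv (.thr 4 8 (.thr 7 6 (.thr 15 10 (.thr 39 27 (.thr 23 55 (.thr 22 20 (.dbl 37 52 53))))))) (.nv (.thr 37 53 (.thr 15 10 (.thr 13 14 (.thr 49 25 (.dbl 48 26 50))))) (.rp 58 (.thr 4 8 (.thr 6 7 (.thr 3 9 (.thr 19 35 (.thr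 16 18 (.thr 26 31 (.thr 37 53 (.dbl 48 15 32)))))))) (.rp 53 (.thr 4 8 (.thr 6 7 (.thr 3 9 (.thr 19 35 (.thr 16 18 (.thr 31 26 (.thr 27 23 (.dbl 15 10 39)))))))) (.rp 37 (.thr 4 8 (.thr 6 7 (.thr 3 9 (.thr 19 35 (.thr 16 18 (.thr 31 26 (.thr 27 23 (.dbl 15 10 39)))))))) (.rp 26 (.thr 37 53 (.thr 4 8 (.thr 7 6 (.thr 22 52 (.thr 20 23 (.thr 60 40 (.thr 44 28 (.thr 45 47 (.dbl 15 10 30))))))))) (.rp 25 (.thr 37 53 (.str 48 (.nv (.thr 8 4 (.thr 16 32 (.dbl 26 15 31))) (.nv (.dbl 15 10 26) (.rp 26 (.thr 16 32 (.thr 8 4 (.thr 24 36 (.thr 20 28 (.dbl 40 56 60))))) (.rp 15 (.thr 32 16 (.thr 36 24 (.thr 40 44 (.thr 20 60 (.dbl 4 8 52))))) (.rp 8 (.str 59 (.nv (.dbl 15 10 26) (.rp 26 (.thr 24 36 (.thr 16 32 (.thr 20 28 (.thr 22 23 (.thr 52 7 (.dbl 60 40 56)))))) (.rp 15 (.thr 36 24 (.thr 32 16 (.thr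 40 44 (.thr 20 60 (.thr 52 4 (.dbl 22 7 23)))))) (.rp 10 (.thr 16 32 (.dbl 26 15 31)) .nd))))) .nd))))))) (.rp 15 (.thr 37 53 (.thr 4 8 (.thr 7 6 (.thr 22 52 (.thr 20 23 (.thr 60 40 (.thr 28 44 (.thr 25 19 (.thr 49 13 (.thr 48 50 (.dbl 16 24 32))))))))))) (.rp 14 (.thr 37 53 (.thr 4 8 (.thr 6 7 (.thr 3 9 (.thr 19 35 (.thr 16 18 (.thr 26 31 (.dbl 48 15 32)))))))) (.rp 10 (.thr 37 53 (.thr 4 8 (.thr 7 6 (.thr 22 52 (.thr 20 23 (.thr 60 40 (.thr 44 28 (.thr 45 47 (.dbl 41 3 33))))))))) (.rp 6 (.str 54 (.nv (.thr 4 8 (.thr 37 53 (.thr 60 57 (.thr 20 40 (.thr 22 23 (.dbl 52 7 36)))))) (.nv (.thr 60 57 (.thr 44 28 (.thr 45 47 (.dbl 15 10 30)))) (.rp 60 (.thr 53 37 (.thr 52 55 (.thr 4 8 (.thr 36 20 (.thr 15 10 (.thr 14 13 (.thr 62 30 (.thr 48 24 (.dbl 50 49 58))))))))) (.rp 57 (.thr 53 37 (.thr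 52 55 (.thr 4 8 (.thr 36 20 (.thr 15 10 (.thr 14 13 (.thr 62 30 (.thr 48 24 (.dbl 50 49 58))))))))) (.rp 37 (.thr 60 57 (.thr 44 28 (.thr 15 10 (.dbl 45 30 47)))) .nd)))))) (.rp 2 (.thr 37 53 (.thr 4 8 (.thr 7 6 (.thr 22 52 (.thr 23 20 (.thr 15 10 (.thr 14 13 (.dbl 39 27 55)))))))) .nd)))))))))))))) (.rp 37 (.thr 4 8 (.thr 6 7 (.thr 3 9 (.thr 19 35 (.thr 16 18 (.thr 31 26 (.thr 27 23 (.dbl 15 10 39)))))))) (.rp 15 (.thr 37 53 (.thr 4 8 (.thr 7 6 (.thr 22 52 (.thr 20 23 (.thr 60 40 (.thr 28 44 (.thr 19 25 (.dbl 3 35 41))))))))) (.rp 14 (.thr 37 53 (.thr 4 8 (.thr 7 6 (.thr 22 52 (.thr 20 23 (.thr 60 40 (.thr 3 41 (.dbl 15 10 11)))))))) (.rp 10 (.thr 37 53 (.thr 4 8 (.thr 7 6 (.thr 22 52 (.thr 20 23 (.thr 60 40 (.thr 28 44 (.thr 19 25 (.dbl 3 35 41))))))))) (.rp 6 (.thr 37 53 (.thr 4 8 (.thr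 15 10 (.thr 48 26 (.thr 32 16 (.thr 36 24 (.thr 20 52 (.dbl 40 44 60)))))))) (.rp 2 (.thr 37 53 (.thr 4 8 (.thr 6 7 (.thr 15 10 (.thr 13 14 (.thr 49 25 (.dbl 48 26 50))))))) .nd)))))))))))) (.rp 25 (.str 5 (.nv (.thr 4 8 (.thr 6 7 (.thr 3 9 (.thr 35 19 (.thr 38 55 (.thr 41 44 (.dbl 22 54 60))))))) (.nv (.thr 15 10 (.thr 37 53 (.thr 39 27 (.thr 36 38 (.dbl 48 24 26))))) (.rp 42 (.thr 37 53 (.thr 15 10 (.thr 39 27 (.thr 38 36 (.dbl 4 8 55))))) (.rp 39 (.thr 37 53 (.thr 4 8 (.thr 38 55 (.thr 15 10 (.thr 14 13 (.dbl 26 48 50)))))) (.rp 38 (.thr 37 53 (.thr 4 8 (.thr 7 6 (.thr 22 52 (.thr 23 20 (.thr 15 10 (.dbl 39 27 55))))))) (.rp 10 (.thr 37 53 (.thr 4 8 (.thr 7 6 (.thr 52 22 (.thr 36 20 (.dbl 38 39 55)))))) .nd))))))) (.rp 8 (.str 5 (.nv (.thr 15 10 (.thr 13 14 (.thr 25 38 (.dbl 37 49 53))))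 (.nv (.thr 37 53 (.thr 38 25 (.thr 39 36 (.dbl 15 10 27)))) (.rp 53 (.thr 38 25 (.thr 15 10 (.thr 14 13 (.thr 39 27 (.thr 37 36 (.dbl 26 48 50)))))) (.rp 42 (.thr 37 53 (.thr 15 10 (.thr 13 14 (.dbl 25 38 49)))) (.rp 38 (.thr 37 53 (.thr 15 10 (.thr 13 14 (.thr 49 25 (.dbl 48 26 50))))) (.rp 37 (.thr 38 25 (.thr 4 55 (.thr 6 7 (.thr 22 54 (.thr 3 9 (.thr 35 19 (.dbl 41 44 60))))))) (.rp 25 (.thr 37 53 (.thr 15 10 (.thr 39 27 (.thr 36 38 (.dbl 48 24 26))))) (.rp 15 (.thr 37 53 (.thr 38 25 (.thr 4 55 (.thr 7 6 (.thr 52 22 (.dbl 36 20 39)))))) (.rp 10 (.thr 37 53 (.thr 38 25 (.thr 4 55 (.thr 7 6 (.thr 52 22 (.dbl 36 20 39)))))) .nd)))))))))) (.rp 4 (.str 37 (.nv (.thr 25 38 (.thr 49 13 (.thr 48 50 (.thr 16 32 (.dbl 26 15 31))))) (.nv (.thr 5 53 (.thr 38 25 (.thr 15 10 (.dbl 39 27 36)))) (.rp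 48 (.thr 38 25 (.thr 39 36 (.thr 15 27 (.dbl 5 10 53)))) (.rp 38 (.thr 5 53 (.thr 15 10 (.thr 13 14 (.thr 49 25 (.dbl 48 26 50))))) (.rp 25 (.thr 5 53 (.thr 15 10 (.thr 39 27 (.thr 36 38 (.dbl 48 24 26))))) (.rp 15 (.thr 38 25 (.thr 36 39 (.thr 48 24 (.thr 16 32 (.thr 50 49 (.dbl 26 14 31)))))) (.rp 5 (.thr 38 25 (.thr 36 39 (.thr 48 24 (.thr 16 32 (.dbl 26 15 31))))) .nd)))))))) .nd)))))))) (.rp 28 (.str 5 (.nv (.thr 15 10 (.thr 25 29 (.thr 51 34 (.thr 12 38 (.thr 13 14 (.dbl 37 49 53)))))) (.nv (.thr 15 10 (.thr 37 53 (.thr 51 34 (.thr 39 27 (.thr 38 36 (.dbl 25 12 29)))))) (.rp 53 (.thr 25 29 (.thr 15 10 (.thr 51 34 (.thr 27 39 (.thr 26 24 (.thr 48 37 (.dbl 16 31 32))))))) (.rp 51 (.thr 25 29 (.thr 37 53 (.thr 13 49 (.thr 15 10 (.thr 48 26 (.thr 32 16 (.thr 12 14 (.thr 8 4 (.dbl 42 47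 59))))))))) (.rp 38 (.thr 25 29 (.thr 37 53 (.thr 49 13 (.thr 15 10 (.thr 48 26 (.dbl 51 34 50)))))) (.rp 37 (.thr 25 29 (.thr 10 15 (.thr 51 34 (.thr 12 38 (.thr 8 4 (.thr 11 9 (.thr 42 59 (.thr 26 58 (.thr 24 27 (.dbl 56 40 41)))))))))) (.rp 34 (.thr 25 29 (.thr 37 53 (.thr 13 49 (.thr 15 10 (.thr 12 14 (.thr 4 8 (.dbl 38 51 55))))))) (.rp 29 (.thr 37 53 (.thr 15 10 (.thr 51 34 (.thr 39 27 (.thr 38 36 (.thr 4 55 (.dbl 12 8 25))))))) (.rp 25 (.thr 37 53 (.thr 15 10 (.thr 51 34 (.thr 39 27 (.thr 38 36 (.thr 4 55 (.thr 12 8 (.thr 14 13 (.dbl 26 48 50))))))))) (.rp 15 (.thr 25 29 (.thr 37 53 (.thr 49 13 (.thr 51 34 (.thr 48 50 (.thr 16 32 (.thr 12 38 (.thr 24 36 (.dbl 26 27 31))))))))) (.rp 12 (.thr 37 53 (.thr 15 10 (.thr 48 26 (.thr 51 34 (.thr 49 50 (.dbl 25 13 29)))))) (.rp 10 (.thr 25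 29 (.thr 37 53 (.thr 49 13 (.thr 51 34 (.thr 48 50 (.thr 16 32 (.dbl 26 15 31))))))) .nd))))))))))))) (.rp 27 (.str 20 (.nv (.thr 22 23 (.thr 51 34 (.thr 60 40 (.thr 3 41 (.thr 19 35 (.thr 16 18 (.dbl 28 24 25))))))) (.nv (.thr 25 29 (.thr 51 34 (.thr 60 40 (.thr 57 54 (.thr 41 9 (.dbl 22 3 23)))))) (.nv (.thr 25 29 (.thr 51 34 (.thr 12 38 (.thr 60 40 (.thr 28 44 (.dbl 22 19 23)))))) (.nv (.thr 22 23 (.thr 51 34 (.thr 60 40 (.thr 54 57 (.thr 38 6 (.dbl 25 12 29)))))) (.rp 60 (.thr 25 29 (.thr 22 23 (.thr 19 28 (.thr 16 18 (.thr 48 32 (.thr 51 34 (.thr 12 38 (.thr 4 8 (.dbl 36 24 52))))))))) (.rp 51 (.thr 25 29 (.thr 22 23 (.thr 19 28 (.thr 16 18 (.thr 48 32 (.thr 60 40 (.thr 52 56 (.thr 37 7 (.dbl 26 15 31))))))))) (.rp 40 (.thr 25 29 (.thr 22 23 (.thr 19 28 (.thr 51 34 (.thr 3 35 (.thr 60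 41 (.thr 54 57 (.dbl 38 6 12)))))))) (.rp 34 (.thr 25 29 (.thr 22 23 (.thr 19 28 (.thr 60 40 (.thr 3 41 (.thr 51 35 (.thr 54 57 (.dbl 38 6 12)))))))) (.rp 25 (.thr 22 23 (.thr 60 40 (.thr 51 34 (.thr 54 57 (.thr 38 6 (.thr 4 55 (.thr 12 8 (.thr 44 28 (.dbl 41 3 35))))))))) (.rp 23 (.thr 25 29 (.thr 60 40 (.thr 51 34 (.thr 12 38 (.thr 28 44 (.thr 16 24 (.dbl 19 18 22))))))) (.rp 22 (.thr 25 29 (.thr 60 40 (.thr 51 34 (.thr 12 38 (.thr 4 8 (.thr 36 52 (.thr 24 48 (.dbl 28 16 44)))))))) .nd)))))))))))) (.rp 26 (.str 20 (.nv (.thr 22 23 (.thr 51 34 (.thr 60 40 (.thr 3 41 (.thr 19 35 (.thr 16 18 (.dbl 28 24 25))))))) (.nv (.thr 25 29 (.thr 51 34 (.thr 12 38 (.thr 60 40 (.thr 28 44 (.dbl 22 19 23)))))) (.nv (.thr 22 23 (.thr 25 29 (.thr 28 19 (.thr 24 16 (.thr 51 34 (.thr 12 38 (.thr 4 8 (.dbl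 36 48 52)))))))) (.nv (.thr 22 23 (.thr 25 29 (.thr 28 19 (.thr 24 16 (.thr 60 40 (.thr 12 44 (.thr 4 8 (.dbl 36 48 52)))))))) (.nv (.thr 22 23 (.thr 51 34 (.thr 60 40 (.thr 54 57 (.thr 38 6 (.dbl 25 12 29)))))) (.rp 25 (.thr 22 23 (.thr 60 40 (.thr 51 34 (.thr 54 57 (.thr 38 6 (.thr 4 55 (.thr 12 8 (.thr 44 28 (.dbl 41 3 35))))))))) (.rp 23 (.thr 25 29 (.thr 60 40 (.thr 51 34 (.thr 12 38 (.thr 28 44 (.thr 16 24 (.dbl 19 18 22))))))) (.rp 22 (.thr 25 29 (.thr 60 40 (.thr 51 34 (.thr 12 38 (.thr 4 8 (.thr 36 52 (.thr 24 48 (.dbl 28 16 44)))))))) .nd))))))))) (.rp 25 (.str 16 (.nv (.thr 18 19 (.thr 26 31 (.thr 22 30 (.thr 48 32 (.thr 3 33 (.thr 15 37 (.thr 41 60 (.dbl 11 7 56)))))))) (.nv (.thr 18 19 (.thr 26 31 (.thr 22 30 (.thr 48 32 (.thr 3 33 (.thr 60 41 (.dbl 20 23 40))))))) (.rp 60 (.thr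 18 19 (.thr 26 31 (.thr 22 30 (.thr 48 32 (.thr 15 37 (.thr 10 5 (.thr 34 51 (.thr 2 50 (.dbl 42 58 62))))))))) (.rp 48 (.thr 18 19 (.thr 26 31 (.thr 22 30 (.thr 23 20 (.thr 34 51 (.thr 50 2 (.thr 38 14 (.thr 55 4 (.thr 7 39 (.thr 52 37 (.dbl 54 6 53))))))))))) (.rp 47 (.str 15 (.nv (.thr 19 18 (.thr 31 26 (.thr 27 23 (.dbl 51 34 39)))) (.nv (.thr 26 31 (.dbl 48 32 37)) (.rp 31 (.thr 5 10 (.thr 48 32 (.dbl 37 26 53))) (.rp 26 (.thr 5 10 (.thr 19 18 (.thr 51 34 (.thr 3 35 (.thr 7 11 (.thr 4 6 (.thr 55 38 (.dbl 39 23 27)))))))) .nd))))) (.rp 41 (.thr 18 19 (.thr 26 31 (.thr 22 30 (.thr 48 32 (.thr 15 37 (.thr 10 5 (.thr 34 51 (.thr 2 50 (.dbl 42 58 62))))))))) (.rp 37 (.thr 18 19 (.thr 26 31 (.thr 22 30 (.thr 48 32 (.thr 3 33 (.thr 34 51 (.thr 50 2 (.thr 38 14 (.thr 6 54 (.thr 12 9 (.dbl 4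 8 55))))))))))) (.rp 35 (.thr 18 19 (.thr 26 31 (.thr 22 30 (.thr 48 32 (.thr 3 33 (.thr 34 51 (.thr 60 41 (.dbl 20 23 40)))))))) (.rp 34 (.thr 18 19 (.thr 26 31 (.thr 22 30 (.thr 23 20 (.thr 48 32 (.thr 15 37 (.thr 10 5 (.thr 42 58 (.thr 2 62 (.thr 14 6 (.thr 13 12 (.thr 50 38 (.thr 51 49 (.thr 39 27 (.thr 7 55 (.dbl 3 11 33)))))))))))))))) (.rp 33 (.thr 18 19 (.thr 26 31 (.thr 22 30 (.thr 48 32 (.thr 15 37 (.thr 10 5 (.thr 34 51 (.thr 2 50 (.dbl 42 58 62))))))))) (.rp 32 (.thr 18 19 (.thr 26 31 (.thr 22 30 (.thr 23 20 (.thr 34 51 (.thr 50 2 (.thr 38 14 (.thr 55 4 (.thr 7 39 (.thr 52 37 (.dbl 54 6 53))))))))))) (.rp 31 (.str 15 (.nv (.thr 5 10 (.thr 48 32 (.dbl 37 26 53))) (.rp 53 (.thr 18 19 (.thr 48 32 (.thr 3 33 (.thr 11 7 (.thr 26 37 (.thr 22 30 (.dbl 41 56 60))))))) (.rp 48 (.thr 5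 10 (.thr 19 18 (.thr 51 34 (.thr 3 35 (.thr 7 11 (.thr 4 6 (.thr 39 27 (.dbl 55 23 38)))))))) (.rp 37 (.thr 5 10 (.thr 19 18 (.thr 51 34 (.thr 3 35 (.thr 7 11 (.thr 4 6 (.thr 39 27 (.dbl 55 23 38)))))))) (.rp 32 (.thr 5 10 (.thr 19 18 (.thr 51 34 (.thr 39 27 (.thr 37 53 (.thr 38 36 (.thr 4 55 (.thr 7 6 (.dbl 3 11 35))))))))) (.rp 26 (.thr 5 10 (.thr 19 18 (.thr 51 34 (.thr 3 35 (.thr 7 11 (.thr 4 6 (.thr 55 38 (.dbl 39 23 27)))))))) (.rp 10 (.thr 18 19 (.thr 48 32 (.thr 3 33 (.thr 11 7 (.thr 26 37 (.thr 22 30 (.dbl 41 56 60))))))) (.rp 5 (.thr 18 19 (.thr 48 32 (.thr 3 33 (.thr 11 7 (.thr 26 37 (.thr 22 30 (.dbl 41 56 60))))))) .nd))))))))) (.rp 30 (.thr 18 19 (.thr 26 31 (.thr 48 32 (.thr 15 37 (.thr 10 5 (.thr 34 51 (.thr 50 2 (.thr 38 14 (.dbl 42 46 58))))))))) (.rp 29 (.thr 18 19 (.thr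 26 31 (.thr 48 32 (.thr 15 37 (.thr 3 33 (.thr 11 7 (.thr 41 56 (.dbl 22 30 60)))))))) (.rp 28 (.thr 26 31 (.thr 48 32 (.thr 15 37 (.thr 10 5 (.thr 34 51 (.thr 42 58 (.thr 38 46 (.thr 50 14 (.dbl 18 2 19))))))))) (.rp 27 (.thr 26 31 (.thr 48 32 (.thr 15 37 (.thr 10 5 (.thr 34 51 (.thr 42 58 (.thr 38 46 (.thr 50 14 (.dbl 18 2 19))))))))) (.rp 26 (.str 20 (.nv (.thr 48 32 (.thr 60 40 (.thr 52 56 (.thr 36 4 (.dbl 24 12 28))))) (.nv (.thr 19 18 (.thr 22 23 (.thr 51 34 (.thr 60 40 (.dbl 3 35 41))))) (.nv (.thr 24 28 (.thr 48 32 (.thr 12 36 (.thr 8 4 (.dbl 40 56 60))))) (.rp 60 (.thr 24 28 (.thr 22 23 (.thr 18 19 (.thr 48 32 (.thr 3 33 (.thr 12 36 (.thr 4 8 (.thr 6 9 (.dbl 38 54 55))))))))) (.rp 40 (.thr 24 28 (.thr 22 23 (.thr 18 19 (.thr 48 32 (.thr 3 33 (.thr 60 41 (.thr 36 12 (.dbl 52 4 56))))))))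 (.rp 24 (.str 27 (.nv (.thr 23 22 (.dbl 19 18 31)) (.rp 31 (.thr 22 23 (.thr 19 18 (.thr 60 40 (.thr 3 41 (.dbl 51 34 35))))) (.rp 30 (.thr 22 23 (.thr 19 18 (.thr 60 40 (.thr 3 41 (.dbl 51 34 35))))) (.rp 23 (.thr 48 32 (.thr 60 40 (.thr 51 34 (.thr 57 54 (.thr 49 50 (.thr 53 61 (.thr 5 37 (.dbl 15 10 39)))))))) (.rp 22 (.thr 48 32 (.thr 60 40 (.thr 51 34 (.thr 57 54 (.thr 49 50 (.thr 53 61 (.thr 5 37 (.dbl 15 10 39)))))))) (.rp 19 (.thr 22 23 (.thr 48 32 (.thr 60 40 (.thr 51 34 (.thr 54 57 (.thr 38 6 (.thr 4 55 (.dbl 52 36 56)))))))) (.rp 18 (.thr 22 23 (.thr 48 32 (.thr 60 40 (.thr 51 34 (.thr 54 57 (.thr 38 6 (.thr 4 55 (.dbl 52 36 56)))))))) .nd)))))))) .nd))))))) (.rp 23 (.thr 26 31 (.thr 48 32 (.thr 15 37 (.thr 10 5 (.thr 34 51 (.thr 42 58 (.thr 38 46 (.thr 50 14 (.dbl 18 2 19)))))))))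 (.rp 22 (.thr 26 31 (.thr 48 32 (.thr 15 37 (.thr 10 5 (.thr 34 51 (.thr 42 58 (.thr 38 46 (.thr 50 14 (.dbl 18 2 19))))))))) (.rp 19 (.thr 26 31 (.thr 48 32 (.thr 51 34 (.thr 50 49 (.thr 38 14 (.thr 4 55 (.thr 12 8 (.thr 36 24 (.dbl 37 15 39))))))))) (.rp 18 (.thr 26 31 (.thr 48 32 (.thr 51 34 (.thr 50 49 (.thr 38 14 (.thr 4 55 (.thr 12 8 (.thr 36 24 (.dbl 37 15 39))))))))) (.rp 15 (.str 20 (.nv (.thr 18 19 (.thr 48 32 (.thr 3 33 (.thr 60 40 (.dbl 22 23 41))))) (.nv (.thr 23 22 (.thr 19 18 (.dbl 31 26 27))) (.rp 47 (.thr 31 26 (.thr 23 22 (.dbl 19 18 27))) (.rp 31 (.str 47 (.nv (.thr 48 32 (.thr 60 40 (.thr 52 56 (.thr 36 4 (.dbl 24 12 28))))) (.nv (.thr 19 18 (.thr 51 34 (.thr 60 40 (.thr 22 23 (.dbl 3 35 41))))) (.rp 60 (.thr 22 23 (.thr 32 48 (.thr 37 42 (.thr 53 5 (.thr 52 7 (.thr 4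 36 (.dbl 55 38 54))))))) (.rp 40 (.thr 22 23 (.thr 32 48 (.thr 37 42 (.thr 53 5 (.thr 52 7 (.thr 4 36 (.dbl 55 38 54))))))) .nd))))) (.rp 23 (.thr 24 28 (.thr 48 32 (.thr 12 36 (.thr 8 4 (.dbl 40 56 60))))) (.rp 22 (.thr 48 32 (.thr 60 40 (.thr 52 56 (.thr 36 4 (.dbl 24 12 28))))) (.rp 19 (.thr 48 32 (.thr 60 40 (.thr 52 56 (.thr 36 4 (.dbl 24 12 28))))) (.rp 18 (.thr 24 28 (.thr 48 32 (.thr 12 36 (.thr 8 4 (.dbl 40 56 60))))) .nd))))))))) (.rp 3 (.thr 18 19 (.thr 26 31 (.thr 22 30 (.thr 48 32 (.thr 15 37 (.thr 10 5 (.thr 42 58 (.thr 2 62 (.dbl 34 50 51))))))))) .nd)))))))))))))))))))))))) (.rp 24 (.str 5 (.nv (.thr 15 10 (.thr 37 53 (.thr 48 26 (.thr 51 34 (.thr 49 50 (.dbl 25 13 29)))))) (.nv (.thr 15 10 (.thr 25 29 (.thr 51 34 (.thr 12 38 (.thr 13 14 (.dbl 37 49 53)))))) (.nv (.thr 15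 10 (.thr 25 29 (.thr 37 53 (.thr 51 34 (.thr 39 27 (.dbl 38 12 36)))))) (.rp 53 (.thr 25 29 (.thr 15 10 (.thr 51 34 (.thr 12 38 (.thr 8 4 (.thr 13 14 (.thr 37 49 (.thr 42 59 (.thr 32 47 (.dbl 48 16 26)))))))))) (.rp 51 (.thr 25 29 (.thr 37 53 (.thr 13 49 (.thr 15 10 (.thr 48 26 (.thr 32 16 (.thr 12 14 (.thr 8 4 (.dbl 42 47 59))))))))) (.rp 38 (.thr 25 29 (.thr 37 53 (.thr 49 13 (.thr 15 10 (.thr 48 26 (.dbl 51 34 50)))))) (.rp 37 (.thr 25 29 (.thr 10 15 (.thr 51 34 (.thr 12 38 (.thr 8 4 (.thr 9 11 (.thr 41 57 (.thr 3 6 (.thr 19 35 (.dbl 22 28 60)))))))))) (.rp 34 (.thr 25 29 (.thr 37 53 (.thr 13 49 (.thr 15 10 (.thr 12 14 (.thr 4 8 (.dbl 38 51 55))))))) (.rp 29 (.thr 37 53 (.thr 15 10 (.thr 51 34 (.thr 39 27 (.thr 38 36 (.thr 4 55 (.dbl 12 8 25))))))) (.rp 25 (.thr 37 53 (.thr 15 10 (.thr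 51 34 (.thr 27 39 (.thr 48 26 (.thr 16 32 (.thr 19 18 (.thr 23 31 (.thr 22 20 (.thr 7 52 (.dbl 3 11 35))))))))))) (.rp 15 (.thr 25 29 (.thr 37 53 (.thr 49 13 (.thr 51 34 (.thr 48 50 (.thr 32 16 (.thr 12 38 (.thr 8 4 (.dbl 42 47 59))))))))) (.rp 10 (.thr 25 29 (.thr 37 53 (.thr 49 13 (.thr 51 34 (.thr 48 50 (.thr 16 32 (.dbl 26 15 31))))))) .nd))))))))))))) (.rp 23 (.thr 25 29 (.thr 51 34 (.thr 12 38 (.thr 8 4 (.str 3 (.nv (.thr 42 59 (.thr 9 6 (.thr 41 57 (.thr 40 43 (.dbl 60 20 22))))) (.nv (.thr 19 35 (.thr 16 18 (.thr 26 31 (.thr 24 27 (.dbl 48 32 36))))) (.nv (.thr 9 6 (.thr 19 35 (.thr 41 57 (.dbl 22 28 60)))) (.rp 42 (.str 46 (.nv (.thr 9 6 (.thr 11 10 (.thr 41 57 (.thr 26 56 (.thr 27 24 (.dbl 15 7 39)))))) (.nv (.thr 19 35 (.thr 16 18 (.thr 26 31 (.thr 24 27 (.dbl 48 32 36))))) (.nv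 (.thr 9 6 (.thr 41 57 (.thr 19 35 (.dbl 22 28 60)))) (.rp 41 (.thr 9 6 (.thr 10 11 (.thr 5 15 (.thr 37 53 (.thr 49 13 (.thr 48 50 (.thr 18 33 (.dbl 19 16 35)))))))) .nd))))) (.rp 41 (.thr 9 6 (.thr 10 11 (.thr 42 59 (.thr 26 58 (.thr 16 31 (.dbl 19 18 35)))))) .nd)))))))))) (.rp 22 (.str 16 (.nv (.thr 25 29 (.thr 48 32 (.thr 51 34 (.thr 12 38 (.thr 24 36 (.dbl 26 27 31)))))) (.nv (.thr 18 19 (.thr 25 29 (.thr 26 31 (.thr 27 24 (.thr 51 34 (.thr 15 39 (.thr 5 10 (.dbl 37 48 53)))))))) (.nv (.thr 26 31 (.thr 48 32 (.thr 51 34 (.thr 50 49 (.thr 38 14 (.dbl 25 12 29)))))) (.rp 51 (.thr 25 29 (.thr 26 31 (.thr 24 27 (.thr 48 32 (.thr 12 36 (.thr 8 4 (.thr 40 56 (.dbl 20 28 60)))))))) (.rp 48 (.thr 25 29 (.thr 26 31 (.thr 24 27 (.thr 51 34 (.thr 12 38 (.thr 8 4 (.thr 40 56 (.dbl 20 28 60))))))))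 (.rp 34 (.thr 25 29 (.thr 26 31 (.thr 24 27 (.thr 48 32 (.thr 12 36 (.thr 4 8 (.dbl 38 51 55))))))) (.rp 31 (.thr 25 29 (.thr 48 32 (.thr 51 34 (.thr 49 50 (.thr 37 13 (.thr 5 53 (.dbl 15 10 26))))))) (.rp 29 (.thr 26 31 (.thr 48 32 (.thr 51 34 (.thr 50 49 (.thr 38 14 (.thr 4 55 (.dbl 12 8 25))))))) (.rp 26 (.thr 25 29 (.thr 48 32 (.thr 51 34 (.thr 12 38 (.thr 8 4 (.thr 24 36 (.thr 20 28 (.dbl 40 56 60)))))))) (.rp 25 (.thr 26 31 (.thr 48 32 (.thr 15 37 (.thr 10 5 (.thr 34 51 (.thr 42 58 (.thr 38 46 (.thr 50 14 (.dbl 18 2 19))))))))) (.rp 12 (.thr 26 31 (.thr 48 32 (.thr 15 37 (.thr 51 34 (.thr 27 39 (.dbl 25 24 29)))))) .nd)))))))))))) (.rp 20 (.str 5 (.nv (.thr 15 10 (.thr 37 53 (.thr 51 34 (.thr 39 27 (.thr 38 36 (.thr 4 55 (.dbl 12 8 25))))))) (.nv (.thr 15 10 (.thr 25 29 (.thr 51 34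 (.thr 12 38 (.thr 13 14 (.dbl 37 49 53)))))) (.nv (.thr 15 10 (.thr 25 29 (.thr 37 53 (.thr 51 34 (.thr 27 39 (.dbl 26 24 48)))))) (.rp 53 (.thr 25 29 (.thr 15 10 (.thr 51 34 (.thr 27 39 (.thr 26 24 (.thr 16 31 (.dbl 48 32 37))))))) (.rp 51 (.thr 25 29 (.thr 37 53 (.thr 13 49 (.thr 15 10 (.thr 48 26 (.thr 32 16 (.thr 12 14 (.thr 8 4 (.dbl 42 47 59))))))))) (.rp 37 (.thr 25 29 (.thr 15 10 (.thr 51 34 (.thr 27 39 (.thr 26 24 (.thr 16 31 (.thr 48 32 (.thr 50 49 (.dbl 38 12 14))))))))) (.rp 34 (.thr 25 29 (.thr 37 53 (.thr 13 49 (.thr 15 10 (.thr 12 14 (.thr 4 8 (.dbl 38 51 55))))))) (.rp 25 (.thr 37 53 (.thr 15 10 (.thr 51 34 (.thr 39 27 (.thr 38 36 (.thr 4 55 (.thr 12 8 (.thr 14 13 (.dbl 26 48 50))))))))) (.rp 15 (.thr 25 29 (.thr 37 53 (.thr 49 13 (.thr 51 34 (.thr 48 50 (.thr 16 32 (.thr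 12 38 (.thr 24 36 (.dbl 26 27 31))))))))) (.rp 12 (.thr 37 53 (.thr 15 10 (.thr 48 26 (.thr 51 34 (.thr 49 50 (.dbl 25 13 29)))))) (.rp 10 (.thr 25 29 (.thr 37 53 (.thr 49 13 (.thr 51 34 (.thr 48 50 (.thr 16 32 (.dbl 26 15 31))))))) .nd)))))))))))) (.rp 19 (.str 16 (.nv (.thr 26 31 (.thr 48 32 (.thr 15 37 (.thr 51 34 (.thr 27 39 (.dbl 25 24 29)))))) (.nv (.thr 25 29 (.thr 48 32 (.thr 51 34 (.thr 49 50 (.thr 37 13 (.thr 5 53 (.dbl 15 10 26))))))) (.nv (.thr 25 29 (.thr 26 31 (.thr 27 24 (.thr 51 34 (.thr 15 39 (.dbl 48 32 37)))))) (.rp 51 (.thr 25 29 (.thr 26 31 (.thr 27 24 (.thr 48 32 (.thr 15 37 (.thr 10 5 (.thr 42 58 (.thr 59 8 (.thr 11 43 (.thr 56 41 (.thr 60 52 (.thr 20 40 (.thr 22 23 (.thr 3 7 (.dbl 18 30 33))))))))))))))) (.rp 48 (.thr 25 29 (.thr 26 31 (.thr 27 24 (.thr 51 34 (.thr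 15 39 (.thr 5 10 (.thr 12 38 (.thr 13 14 (.dbl 37 49 53))))))))) (.rp 37 (.thr 25 29 (.thr 26 31 (.thr 48 32 (.thr 51 34 (.thr 50 49 (.dbl 38 12 14)))))) (.rp 34 (.thr 25 29 (.thr 26 31 (.thr 27 24 (.thr 48 32 (.thr 15 37 (.thr 51 39 (.thr 50 49 (.dbl 38 12 14)))))))) (.rp 32 (.thr 25 29 (.thr 26 31 (.thr 27 24 (.thr 51 34 (.thr 15 39 (.thr 5 10 (.dbl 37 48 53))))))) (.rp 29 (.thr 26 31 (.thr 48 32 (.thr 51 34 (.thr 50 49 (.thr 38 14 (.thr 4 55 (.dbl 12 8 25))))))) (.rp 26 (.thr 25 29 (.thr 48 32 (.thr 51 34 (.thr 12 38 (.thr 8 4 (.thr 24 36 (.thr 20 28 (.dbl 40 56 60)))))))) (.rp 25 (.thr 26 31 (.thr 48 32 (.thr 51 34 (.thr 50 49 (.thr 38 14 (.thr 4 55 (.thr 12 8 (.thr 36 24 (.dbl 37 15 39))))))))) (.rp 15 (.thr 25 29 (.thr 48 32 (.thr 51 34 (.thr 12 38 (.thr 24 36 (.dbl 26 27 31)))))) .nd)))))))))))))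 (.rp 18 (.str 20 (.nv (.thr 25 29 (.thr 51 34 (.thr 12 38 (.thr 60 40 (.thr 28 44 (.dbl 22 19 23)))))) (.nv (.thr 22 23 (.thr 25 29 (.thr 28 19 (.thr 24 16 (.thr 51 34 (.thr 12 38 (.thr 4 8 (.dbl 36 48 52)))))))) (.nv (.thr 22 23 (.thr 25 29 (.thr 28 19 (.thr 24 16 (.thr 60 40 (.thr 12 44 (.thr 4 8 (.dbl 36 48 52)))))))) (.nv (.thr 22 23 (.thr 51 34 (.thr 60 40 (.thr 54 57 (.thr 38 6 (.dbl 25 12 29)))))) (.rp 29 (.thr 22 23 (.thr 60 40 (.thr 51 34 (.thr 54 57 (.thr 38 6 (.thr 4 55 (.dbl 12 8 25))))))) (.rp 25 (.thr 22 23 (.thr 60 40 (.thr 51 34 (.thr 54 57 (.thr 38 6 (.thr 4 55 (.thr 12 8 (.thr 44 28 (.dbl 41 3 35))))))))) (.rp 23 (.thr 25 29 (.thr 60 40 (.thr 51 34 (.thr 57 54 (.thr 41 9 (.thr 3 22 (.thr 35 19 (.dbl 38 12 44)))))))) (.rp 22 (.thr 25 29 (.thr 60 40 (.thr 51 34 (.thr 12 38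 (.thr 4 8 (.thr 36 52 (.thr 24 48 (.dbl 28 16 44)))))))) (.rp 12 (.thr 22 23 (.thr 60 40 (.thr 3 41 (.thr 51 34 (.thr 19 35 (.dbl 25 28 29)))))) .nd)))))))))) (.rp 16 (.str 20 (.nv (.thr 25 29 (.thr 51 34 (.thr 12 38 (.thr 60 40 (.thr 28 44 (.dbl 22 19 23)))))) (.nv (.thr 22 23 (.thr 51 34 (.thr 60 40 (.thr 54 57 (.thr 38 6 (.dbl 25 12 29)))))) (.rp 60 (.thr 25 29 (.thr 22 23 (.thr 19 28 (.thr 51 34 (.thr 3 35 (.thr 12 38 (.thr 4 8 (.thr 6 9 (.thr 52 36 (.dbl 7 5 37)))))))))) (.rp 51 (.thr 25 29 (.thr 22 23 (.thr 28 19 (.thr 60 40 (.thr 3 41 (.thr 12 44 (.thr 4 8 (.thr 6 9 (.dbl 38 54 55))))))))) (.rp 40 (.thr 25 29 (.thr 22 23 (.thr 28 19 (.thr 51 34 (.thr 12 38 (.thr 60 44 (.thr 57 54 (.dbl 41 3 9)))))))) (.rp 38 (.thr 25 29 (.thr 22 23 (.thr 19 28 (.thr 60 40 (.thr 3 41 (.dbl 51 34 35))))))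 (.rp 34 (.thr 25 29 (.thr 22 23 (.thr 28 19 (.thr 60 40 (.thr 12 44 (.thr 4 8 (.dbl 38 51 55))))))) (.rp 29 (.thr 22 23 (.thr 60 40 (.thr 51 34 (.thr 54 57 (.thr 38 6 (.thr 4 55 (.dbl 12 8 25))))))) (.rp 25 (.thr 22 23 (.thr 60 40 (.thr 51 34 (.thr 54 57 (.thr 38 6 (.thr 4 55 (.thr 12 8 (.thr 44 28 (.dbl 41 3 35))))))))) (.rp 23 (.thr 25 29 (.thr 60 40 (.thr 51 34 (.thr 57 54 (.thr 41 9 (.thr 3 22 (.thr 35 19 (.dbl 38 12 44)))))))) (.rp 22 (.thr 25 29 (.thr 40 60 (.thr 51 34 (.thr 12 38 (.thr 8 4 (.thr 24 56 (.thr 26 27 (.thr 48 36 (.thr 49 50 (.dbl 37 13 15)))))))))) (.rp 12 (.thr 22 23 (.thr 60 40 (.thr 3 41 (.thr 51 34 (.thr 19 35 (.dbl 25 28 29)))))) .nd))))))))))))) (.rp 15 (.thr 25 29 (.thr 51 34 (.thr 12 38 (.thr 8 4 (.thr 42 59 (.str 9 (.nv (.thr 3 6 (.thr 19 35 (.thr 22 28 (.dbl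 41 57 60)))) (.nv (.thr 41 57 (.thr 40 43 (.thr 11 10 (.dbl 56 24 26)))) (.rp 57 (.thr 10 11 (.thr 3 6 (.thr 19 35 (.thr 16 18 (.dbl 26 31 58))))) (.rp 47 (.str 31 (.nv (.thr 3 6 (.thr 19 35 (.thr 22 28 (.dbl 23 20 27)))) (.nv (.thr 26 16 (.dbl 10 11 58)) .nd))) (.rp 41 (.thr 10 11 (.thr 3 6 (.thr 26 58 (.thr 27 24 (.thr 31 16 (.dbl 19 23 35)))))) (.rp 31 (.str 47 (.nv (.thr 3 6 (.thr 19 35 (.thr 16 18 (.dbl 32 37 48)))) (.nv (.thr 41 57 (.thr 40 43 (.thr 11 10 (.dbl 56 24 26)))) (.rp 41 (.thr 32 37 (.thr 48 16 (.thr 10 11 (.thr 26 58 (.dbl 24 27 36))))) (.rp 30 (.str 28 (.nv (.thr 6 3 (.thr 22 19 (.thr 2 62 (.dbl 10 11 14)))) (.nv (.thr 60 44 (.dbl 57 41 54)) (.rp 60 (.str 45 (.nv (.thr 3 6 (.dbl 19 22 35)) (.nv (.thr 37 32 (.dbl 41 33 57)) (.rp 62 (.str 61 (.nv (.thr 46 44 (.thr 41 57 (.dbl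 37 32 33))) (.nv (.thr 3 6 (.dbl 19 22 35)) (.nv (.thr 37 32 (.dbl 41 33 57)) (.rp 46 (.str 14 (.nv (.thr 10 11 (.dbl 6 2 3)) (.nv (.thr 37 32 (.dbl 41 33 57)) .nd))) .nd))))) (.rp 61 (.str 62 (.nv (.thr 37 32 (.dbl 41 33 57)) (.nv (.dbl 22 2 19) .nd))) (.rp 35 (.thr 41 57 (.dbl 37 32 33)) .nd)))))) .nd)))) (.rp 28 (.str 30 (.nv (.thr 3 6 (.thr 19 35 (.thr 16 18 (.dbl 32 37 48)))) (.nv (.thr 11 10 (.thr 41 57 (.thr 40 43 (.dbl 56 24 26)))) (.rp 41 (.thr 10 11 (.thr 32 37 (.thr 26 58 (.thr 18 22 (.dbl 16 19 48))))) (.rp 3 (.thr 11 10 (.thr 41 57 (.thr 56 26 (.dbl 40 24 43)))) .nd))))) (.rp 3 (.thr 41 57 (.thr 11 10 (.thr 56 26 (.dbl 40 24 43)))) .nd))))))) (.rp 3 (.thr 41 57 (.thr 11 10 (.thr 56 26 (.dbl 40 24 43)))) .nd))))))))))))) (.rp 14 (.str 20 (.nv (.thr 25 29 (.thr 51 34 (.thr 12 38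 (.thr 60 40 (.thr 28 44 (.dbl 22 19 23)))))) (.nv (.thr 22 23 (.thr 25 29 (.thr 28 19 (.thr 24 16 (.thr 51 34 (.thr 12 38 (.thr 4 8 (.dbl 36 48 52)))))))) (.nv (.thr 22 23 (.thr 51 34 (.thr 60 40 (.thr 3 41 (.thr 19 35 (.thr 16 18 (.dbl 28 24 25))))))) (.nv (.thr 22 23 (.thr 25 29 (.thr 28 19 (.thr 24 16 (.thr 60 40 (.thr 12 44 (.thr 4 8 (.dbl 36 48 52)))))))) (.nv (.thr 22 23 (.thr 25 29 (.thr 51 34 (.thr 60 40 (.thr 54 57 (.dbl 38 6 12)))))) (.rp 25 (.thr 22 23 (.thr 51 34 (.thr 60 40 (.thr 54 57 (.thr 38 6 (.thr 4 55 (.thr 12 8 (.thr 44 28 (.dbl 41 3 35))))))))) (.rp 23 (.thr 25 29 (.thr 51 34 (.thr 12 38 (.thr 60 40 (.thr 28 44 (.thr 19 22 (.dbl 16 18 24))))))) (.rp 22 (.thr 25 29 (.thr 51 34 (.thr 12 38 (.thr 4 8 (.thr 36 52 (.thr 24 48 (.thr 16 28 (.dbl 26 27 31)))))))) .nd)))))))))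 (.rp 13 (.str 5 (.nv (.thr 15 10 (.thr 25 29 (.thr 51 34 (.thr 27 39 (.thr 26 24 (.thr 16 31 (.dbl 48 32 37))))))) (.nv (.thr 15 10 (.thr 37 53 (.thr 51 34 (.thr 39 27 (.thr 38 36 (.dbl 25 12 29)))))) (.rp 51 (.thr 25 29 (.thr 37 53 (.thr 15 10 (.thr 48 26 (.thr 16 32 (.thr 19 18 (.thr 22 28 (.thr 20 23 (.thr 60 40 (.dbl 52 7 56)))))))))) (.rp 48 (.thr 25 29 (.thr 15 10 (.thr 51 34 (.thr 39 27 (.thr 12 38 (.thr 4 8 (.thr 7 6 (.thr 23 55 (.thr 22 20 (.dbl 37 52 53)))))))))) (.rp 39 (.thr 25 29 (.thr 37 53 (.thr 15 10 (.thr 48 26 (.thr 32 16 (.thr 51 34 (.thr 12 38 (.thr 8 4 (.dbl 42 47 59))))))))) (.rp 37 (.thr 25 29 (.thr 15 10 (.thr 51 34 (.thr 27 39 (.thr 26 24 (.thr 16 31 (.thr 48 32 (.thr 50 49 (.dbl 38 12 14))))))))) (.rp 34 (.thr 25 29 (.thr 37 53 (.thr 15 10 (.thr 48 26 (.thr 16 32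 (.thr 19 18 (.thr 22 28 (.thr 20 23 (.thr 60 40 (.dbl 52 7 56)))))))))) (.rp 29 (.thr 37 53 (.thr 15 10 (.thr 51 34 (.thr 39 27 (.thr 38 36 (.thr 4 55 (.dbl 12 8 25))))))) (.rp 27 (.thr 25 29 (.thr 37 53 (.thr 15 10 (.thr 48 26 (.thr 32 16 (.thr 51 34 (.thr 12 38 (.thr 8 4 (.dbl 42 47 59))))))))) (.rp 25 (.thr 37 53 (.thr 15 10 (.thr 48 26 (.thr 16 32 (.thr 18 19 (.thr 3 33 (.thr 7 11 (.thr 22 52 (.thr 20 23 (.dbl 60 40 41)))))))))) (.rp 15 (.thr 25 29 (.thr 37 53 (.thr 51 34 (.thr 12 38 (.thr 4 8 (.thr 7 6 (.thr 22 52 (.thr 20 23 (.thr 60 40 (.dbl 28 19 44)))))))))) (.rp 12 (.thr 37 53 (.thr 15 10 (.thr 48 26 (.thr 16 32 (.thr 19 18 (.thr 51 34 (.thr 27 39 (.thr 23 31 (.thr 22 20 (.dbl 25 28 29)))))))))) (.rp 10 (.thr 25 29 (.thr 37 53 (.thr 51 34 (.thr 12 38 (.thr 4 8 (.thr 7 6 (.thr 22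 52 (.thr 20 23 (.thr 60 40 (.dbl 28 19 44)))))))))) .nd)))))))))))))) (.rp 12 (.str 26 (.nv (.thr 16 31 (.thr 18 19 (.thr 22 30 (.thr 48 32 (.thr 3 33 (.thr 60 41 (.dbl 20 23 40))))))) (.nv (.thr 16 31 (.thr 48 32 (.thr 15 37 (.thr 51 34 (.thr 27 39 (.dbl 25 24 29)))))) (.rp 48 (.thr 29 25 (.thr 31 16 (.thr 30 28 (.thr 22 18 (.thr 20 23 (.thr 60 40 (.thr 15 45 (.thr 5 10 (.thr 3 41 (.thr 7 11 (.dbl 37 52 53))))))))))) (.rp 47 (.thr 29 25 (.thr 31 16 (.thr 30 28 (.thr 22 18 (.thr 20 23 (.thr 60 40 (.thr 15 45 (.thr 5 10 (.dbl 37 48 53))))))))) (.rp 46 (.thr 29 25 (.thr 16 31 (.thr 18 19 (.thr 22 30 (.thr 48 32 (.thr 3 33 (.thr 60 41 (.dbl 20 23 40)))))))) (.rp 37 (.thr 16 31 (.thr 18 19 (.thr 22 30 (.thr 48 32 (.thr 51 34 (.thr 50 49 (.thr 38 14 (.thr 54 6 (.thr 60 57 (.dbl 20 23 40))))))))))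 (.rp 35 (.thr 16 31 (.thr 18 19 (.thr 22 30 (.thr 48 32 (.thr 3 33 (.thr 34 51 (.thr 60 41 (.dbl 20 23 40)))))))) (.rp 34 (.thr 29 25 (.thr 31 16 (.thr 30 28 (.thr 22 18 (.thr 20 23 (.thr 60 40 (.thr 15 45 (.thr 5 10 (.dbl 37 48 53))))))))) (.rp 33 (.thr 16 31 (.thr 19 18 (.thr 48 32 (.thr 15 37 (.thr 51 34 (.thr 35 3 (.thr 27 39 (.dbl 25 24 29)))))))) (.rp 32 (.thr 29 25 (.thr 31 16 (.thr 30 28 (.thr 22 18 (.thr 20 23 (.thr 60 40 (.thr 15 45 (.thr 5 10 (.dbl 37 48 53))))))))) (.rp 31 (.str 15 (.nv (.thr 51 34 (.thr 27 39 (.dbl 25 24 29))) (.nv (.thr 5 10 (.dbl 37 48 53)) (.rp 46 (.thr 29 25 (.thr 5 10 (.dbl 37 48 53))) (.rp 29 (.str 46 (.nv (.thr 10 5 (.thr 34 51 (.dbl 42 38 58))) (.nv (.thr 5 10 (.dbl 37 48 53)) (.rp 30 (.str 28 (.nv (.thr 10 5 (.thr 34 51 (.dbl 42 38 58))) (.nv (.thr 5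 10 (.dbl 37 48 53)) (.rp 10 (.thr 51 34 (.thr 27 39 (.thr 24 25 (.thr 16 20 (.dbl 48 32 37))))) (.rp 5 (.thr 51 34 (.thr 27 39 (.thr 24 25 (.thr 16 20 (.dbl 48 32 37))))) .nd))))) (.rp 28 (.str 30 (.nv (.thr 60 45 (.thr 20 40 (.dbl 22 18 23))) (.nv (.thr 5 10 (.dbl 37 48 53)) (.rp 60 (.str 44 (.nv (.thr 34 51 (.thr 38 42 (.dbl 14 50 62))) (.nv (.thr 5 10 (.dbl 37 48 53)) (.rp 62 (.str 61 (.nv (.thr 34 51 (.thr 38 42 (.thr 50 14 (.dbl 18 2 22)))) (.nv (.thr 5 10 (.dbl 37 48 53)) .nd))) (.rp 61 (.thr 62 14 (.thr 5 10 (.dbl 37 48 53))) .nd))))) .nd)))) (.rp 10 (.thr 34 51 (.thr 48 37 (.thr 16 32 (.thr 18 19 (.thr 50 2 (.dbl 38 14 42)))))) (.rp 5 (.thr 34 51 (.thr 38 42 (.thr 50 14 (.thr 18 2 (.thr 16 19 (.dbl 48 32 37)))))) .nd))))))) .nd))))) (.rp 29 (.str 46 (.nv (.thr 16 31 (.thr 18 19 (.thr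 30 22 (.thr 48 32 (.thr 51 34 (.thr 50 49 (.dbl 14 38 62))))))) (.nv (.thr 34 51 (.thr 38 42 (.thr 50 14 (.thr 18 2 (.dbl 16 19 31))))) (.nv (.thr 16 31 (.thr 48 32 (.thr 15 37 (.thr 10 5 (.thr 42 58 (.dbl 34 38 51)))))) (.nv (.thr 16 31 (.thr 34 51 (.thr 38 42 (.thr 50 14 (.dbl 18 2 19))))) (.rp 51 (.thr 16 31 (.thr 18 19 (.thr 48 32 (.thr 15 37 (.thr 3 33 (.thr 11 7 (.thr 41 56 (.dbl 22 30 60)))))))) (.rp 38 (.thr 16 31 (.thr 18 19 (.thr 48 32 (.thr 15 37 (.thr 3 33 (.thr 11 7 (.thr 41 56 (.dbl 22 30 60)))))))) (.rp 34 (.thr 16 31 (.thr 18 19 (.thr 30 22 (.thr 14 62 (.thr 38 50 (.thr 4 55 (.thr 48 32 (.thr 15 37 (.thr 5 10 (.thr 7 6 (.dbl 3 11 33))))))))))) (.rp 31 (.thr 34 51 (.thr 38 42 (.thr 55 4 (.thr 14 50 (.thr 30 62 (.thr 22 18 (.thr 23 20 (.thr 7 39 (.thr 54 6 (.dbl 52 37 53))))))))))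 (.rp 16 (.thr 34 51 (.thr 38 42 (.thr 55 4 (.thr 14 50 (.thr 30 62 (.thr 22 18 (.thr 23 20 (.thr 7 39 (.thr 54 6 (.dbl 52 37 53)))))))))) (.rp 15 (.thr 34 51 (.thr 38 42 (.thr 55 4 (.thr 14 50 (.thr 30 62 (.thr 22 18 (.thr 23 20 (.thr 54 6 (.thr 52 53 (.dbl 7 37 39)))))))))) .nd))))))))))) (.rp 27 (.thr 29 25 (.thr 31 16 (.thr 30 28 (.thr 22 18 (.thr 20 23 (.thr 60 40 (.thr 15 45 (.thr 5 10 (.dbl 37 48 53))))))))) (.rp 16 (.str 22 (.nv (.thr 20 23 (.thr 51 34 (.thr 60 40 (.thr 3 41 (.thr 19 35 (.dbl 25 28 29)))))) (.nv (.thr 20 23 (.thr 30 18 (.thr 60 40 (.thr 15 45 (.thr 5 10 (.dbl 37 48 53)))))) (.rp 60 (.thr 23 20 (.thr 18 30 (.thr 34 51 (.thr 50 2 (.thr 38 14 (.thr 55 4 (.thr 7 39 (.thr 52 37 (.dbl 54 6 53))))))))) (.rp 46 (.thr 29 25 (.thr 20 23 (.thr 30 18 (.thr 60 40 (.thr 15 45 (.thr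 5 10 (.dbl 37 48 53))))))) (.rp 43 (.thr 23 20 (.thr 18 30 (.thr 34 51 (.thr 50 2 (.thr 38 14 (.thr 55 4 (.thr 7 39 (.thr 52 37 (.dbl 54 6 53))))))))) (.rp 40 (.thr 23 20 (.thr 18 30 (.thr 34 51 (.thr 50 2 (.thr 38 14 (.thr 55 4 (.thr 7 39 (.thr 52 37 (.dbl 54 6 53))))))))) (.rp 29 (.str 46 (.nv (.thr 20 23 (.thr 30 18 (.thr 60 40 (.thr 15 45 (.thr 5 10 (.dbl 37 48 53)))))) (.nv (.thr 30 18 (.thr 34 51 (.thr 38 42 (.dbl 14 50 62)))) (.rp 30 (.thr 23 20 (.thr 34 51 (.thr 38 42 (.thr 55 4 (.thr 7 39 (.thr 54 6 (.dbl 52 37 53))))))) (.rp 18 (.thr 23 20 (.thr 34 51 (.thr 38 42 (.thr 55 4 (.thr 7 39 (.thr 54 6 (.dbl 52 37 53))))))) .nd))))) (.rp 23 (.thr 18 30 (.thr 34 51 (.thr 2 50 (.thr 42 62 (.thr 25 29 (.thr 46 38 (.thr 27 24 (.thr 59 8 (.thr 58 10 (.thr 56 57 (.dbl 11 41 43))))))))))) (.rp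 20 (.thr 18 30 (.thr 34 51 (.thr 2 50 (.thr 42 62 (.thr 25 29 (.thr 46 38 (.thr 59 8 (.thr 58 10 (.thr 56 57 (.thr 11 41 (.dbl 27 24 43))))))))))) (.rp 3 (.thr 23 20 (.thr 18 30 (.thr 34 51 (.thr 50 2 (.thr 38 14 (.thr 55 4 (.thr 7 39 (.thr 52 37 (.dbl 54 6 53))))))))) .nd))))))))))) (.rp 15 (.thr 29 25 (.thr 31 16 (.thr 30 28 (.thr 22 18 (.thr 20 23 (.thr 60 40 (.thr 51 34 (.thr 54 57 (.thr 38 6 (.thr 4 55 (.thr 52 36 (.thr 48 56 (.dbl 50 14 49))))))))))))) .nd)))))))))))))))) (.rp 11 (.str 20 (.nv (.thr 22 23 (.thr 51 34 (.thr 60 40 (.thr 3 41 (.thr 19 35 (.thr 16 18 (.dbl 28 24 25))))))) (.nv (.thr 25 29 (.thr 51 34 (.thr 12 38 (.thr 60 40 (.thr 28 44 (.dbl 22 19 23)))))) (.nv (.thr 22 23 (.thr 25 29 (.thr 28 19 (.thr 24 16 (.thr 51 34 (.thr 12 38 (.thr 4 8 (.dbl 36 48 52)))))))) (.nv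 (.thr 22 23 (.thr 25 29 (.thr 28 19 (.thr 24 16 (.thr 60 40 (.thr 12 44 (.thr 4 8 (.dbl 36 48 52)))))))) (.nv (.thr 22 23 (.thr 51 34 (.thr 60 40 (.thr 54 57 (.thr 38 6 (.dbl 25 12 29)))))) (.rp 25 (.thr 22 23 (.thr 60 40 (.thr 51 34 (.thr 54 57 (.thr 38 6 (.thr 4 55 (.thr 12 8 (.thr 44 28 (.dbl 41 3 35))))))))) (.rp 23 (.thr 25 29 (.thr 60 40 (.thr 51 34 (.thr 12 38 (.thr 28 44 (.thr 16 24 (.dbl 19 18 22))))))) (.rp 22 (.thr 25 29 (.thr 60 40 (.thr 51 34 (.thr 12 38 (.thr 4 8 (.thr 36 52 (.thr 24 48 (.dbl 28 16 44)))))))) .nd))))))))) (.rp 10 (.str 20 (.nv (.thr 25 29 (.thr 51 34 (.thr 12 38 (.thr 60 40 (.thr 28 44 (.dbl 22 19 23)))))) (.nv (.thr 22 23 (.thr 25 29 (.thr 28 19 (.thr 24 16 (.thr 51 34 (.thr 12 38 (.thr 4 8 (.dbl 36 48 52)))))))) (.nv (.thr 22 23 (.thr 51 34 (.thr 60 40 (.thr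 3 41 (.thr 19 35 (.thr 16 18 (.dbl 28 24 25))))))) (.nv (.thr 22 23 (.thr 25 29 (.thr 28 19 (.thr 24 16 (.thr 60 40 (.thr 12 44 (.thr 4 8 (.dbl 36 48 52)))))))) (.nv (.thr 22 23 (.thr 25 29 (.thr 51 34 (.thr 60 40 (.thr 54 57 (.dbl 38 6 12)))))) (.rp 25 (.thr 22 23 (.thr 60 40 (.thr 51 34 (.thr 54 57 (.thr 38 6 (.thr 4 55 (.thr 12 8 (.thr 44 28 (.dbl 41 3 35))))))))) (.rp 23 (.thr 25 29 (.thr 60 40 (.thr 51 34 (.thr 12 38 (.thr 28 44 (.thr 16 24 (.dbl 19 18 22))))))) (.rp 22 (.thr 25 29 (.thr 60 40 (.thr 51 34 (.thr 12 38 (.thr 4 8 (.thr 36 52 (.thr 24 48 (.dbl 28 16 44)))))))) .nd))))))))) (.rp 9 (.str 5 (.nv (.thr 15 10 (.thr 37 53 (.thr 48 26 (.thr 51 34 (.thr 49 50 (.dbl 25 13 29)))))) (.nv (.thr 25 29 (.thr 37 53 (.thr 13 49 (.thr 51 34 (.thr 12 38 (.dbl 15 10 14)))))) (.nv (.thr 15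 10 (.thr 25 29 (.thr 51 34 (.thr 27 39 (.thr 26 24 (.dbl 37 48 53)))))) (.rp 53 (.thr 25 29 (.thr 15 10 (.thr 51 34 (.thr 27 39 (.thr 26 24 (.thr 16 31 (.dbl 48 32 37))))))) (.rp 51 (.thr 25 29 (.thr 37 53 (.thr 13 49 (.thr 15 10 (.thr 48 26 (.thr 32 16 (.thr 12 14 (.thr 8 4 (.dbl 42 47 59))))))))) (.rp 48 (.thr 25 29 (.thr 15 10 (.thr 51 34 (.thr 12 38 (.thr 13 14 (.dbl 37 49 53)))))) (.rp 37 (.thr 25 29 (.thr 15 10 (.thr 51 34 (.thr 27 39 (.thr 26 24 (.thr 16 31 (.thr 48 32 (.thr 50 49 (.dbl 38 12 14))))))))) (.rp 34 (.thr 25 29 (.thr 37 53 (.thr 13 49 (.thr 15 10 (.thr 12 14 (.thr 38 51 (.dbl 4 8 55))))))) (.rp 29 (.thr 37 53 (.thr 15 10 (.thr 51 34 (.thr 39 27 (.thr 38 36 (.thr 4 55 (.dbl 12 8 25))))))) (.rp 25 (.thr 37 53 (.thr 15 10 (.thr 48 26 (.thr 32 16 (.thr 34 51 (.thr 33 35 (.thr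 41 45 (.thr 3 18 (.thr 22 60 (.dbl 7 11 52)))))))))) (.rp 15 (.thr 25 29 (.thr 37 53 (.thr 49 13 (.thr 51 34 (.thr 48 50 (.thr 16 32 (.thr 12 38 (.thr 24 36 (.dbl 26 27 31))))))))) (.rp 10 (.thr 25 29 (.thr 37 53 (.thr 49 13 (.thr 51 34 (.thr 48 50 (.thr 16 32 (.dbl 26 15 31))))))) .nd))))))))))))) (.rp 8 (.str 5 (.nv (.thr 15 10 (.thr 25 29 (.thr 51 34 (.thr 12 38 (.thr 13 14 (.dbl 37 49 53)))))) (.nv (.thr 25 29 (.thr 37 53 (.thr 49 13 (.thr 51 34 (.thr 48 50 (.dbl 15 10 26)))))) (.nv (.thr 15 10 (.thr 37 53 (.thr 51 34 (.thr 39 27 (.thr 38 36 (.dbl 25 12 29)))))) (.rp 53 (.thr 25 29 (.thr 15 10 (.thr 51 34 (.thr 27 39 (.thr 26 24 (.thr 16 31 (.dbl 48 32 37))))))) (.rp 51 (.thr 25 29 (.thr 37 53 (.thr 13 49 (.thr 15 10 (.thr 48 26 (.thr 16 32 (.thr 19 18 (.thr 12 14 (.thr 24 36 (.dbl 28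 20 22)))))))))) (.rp 37 (.thr 25 29 (.thr 15 10 (.thr 51 34 (.thr 27 39 (.thr 26 24 (.thr 16 31 (.thr 48 32 (.thr 50 49 (.dbl 38 12 14))))))))) (.rp 34 (.thr 25 29 (.thr 37 53 (.thr 13 49 (.thr 15 10 (.thr 48 26 (.thr 12 14 (.thr 36 24 (.dbl 38 39 51)))))))) (.rp 29 (.thr 37 53 (.thr 15 10 (.thr 48 26 (.thr 51 34 (.thr 39 27 (.thr 49 50 (.thr 25 13 (.dbl 38 12 36)))))))) (.rp 25 (.thr 37 53 (.thr 15 10 (.thr 48 26 (.thr 32 16 (.thr 34 51 (.thr 33 35 (.thr 41 45 (.thr 3 18 (.thr 22 60 (.dbl 7 11 52)))))))))) (.rp 15 (.thr 25 29 (.thr 37 53 (.thr 49 13 (.thr 51 34 (.thr 48 50 (.thr 16 32 (.thr 12 38 (.thr 24 36 (.dbl 26 27 31))))))))) (.rp 12 (.thr 37 53 (.thr 15 10 (.thr 48 26 (.thr 51 34 (.thr 49 50 (.dbl 25 13 29)))))) (.rp 10 (.thr 25 29 (.thr 37 53 (.thr 49 13 (.thr 51 34 (.thr 48 50 (.thr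 16 32 (.dbl 26 15 31))))))) .nd))))))))))))) (.rp 7 (.str 16 (.nv (.thr 19 18 (.thr 25 29 (.thr 22 28 (.thr 20 23 (.thr 51 34 (.thr 3 35 (.dbl 60 40 41))))))) (.nv (.thr 18 19 (.thr 26 31 (.thr 22 30 (.thr 48 32 (.thr 3 33 (.thr 60 41 (.dbl 20 23 40))))))) (.nv (.thr 25 29 (.thr 26 31 (.thr 27 24 (.thr 48 32 (.thr 51 34 (.dbl 15 37 39)))))) (.nv (.thr 25 29 (.thr 19 18 (.thr 31 26 (.thr 22 28 (.dbl 23 20 27))))) (.rp 31 (.thr 25 29 (.thr 19 18 (.thr 28 22 (.thr 20 24 (.thr 60 40 (.thr 12 44 (.dbl 51 34 38))))))) (.rp 29 (.thr 26 31 (.thr 48 32 (.thr 51 34 (.thr 50 49 (.thr 38 14 (.thr 4 55 (.dbl 12 8 25))))))) (.rp 28 (.thr 25 29 (.thr 48 32 (.thr 51 34 (.thr 49 50 (.thr 37 13 (.dbl 26 15 31)))))) .nd)))))))) (.rp 6 (.str 20 (.nv (.thr 25 29 (.thr 51 34 (.thr 12 38 (.thr 60 40 (.thr 28 44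 (.dbl 22 19 23)))))) (.nv (.thr 22 23 (.thr 25 29 (.thr 28 19 (.thr 24 16 (.thr 60 40 (.thr 12 44 (.thr 4 8 (.dbl 36 48 52)))))))) (.nv (.thr 22 23 (.thr 51 34 (.thr 60 40 (.thr 3 41 (.thr 19 35 (.thr 16 18 (.dbl 28 24 25))))))) (.nv (.thr 22 23 (.thr 25 29 (.thr 28 19 (.thr 24 16 (.thr 51 34 (.thr 12 38 (.thr 4 8 (.dbl 36 48 52)))))))) (.nv (.thr 22 23 (.thr 25 29 (.thr 51 34 (.thr 60 40 (.thr 57 54 (.dbl 41 3 9)))))) (.rp 25 (.thr 22 23 (.thr 51 34 (.thr 60 40 (.thr 3 41 (.thr 19 35 (.thr 18 16 (.thr 30 26 (.thr 15 45 (.thr 5 10 (.thr 37 53 (.dbl 7 11 52))))))))))) (.rp 23 (.thr 25 29 (.thr 51 34 (.thr 12 38 (.thr 60 40 (.thr 28 44 (.thr 16 24 (.dbl 19 18 22))))))) (.rp 22 (.thr 25 29 (.thr 51 34 (.thr 60 40 (.thr 54 57 (.thr 12 38 (.thr 4 8 (.thr 36 52 (.thr 24 48 (.dbl 28 16 44)))))))))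 .nd))))))))) (.rp 5 (.str 20 (.nv (.thr 25 29 (.thr 51 34 (.thr 12 38 (.thr 60 40 (.thr 28 44 (.dbl 22 19 23)))))) (.nv (.thr 22 23 (.thr 25 29 (.thr 28 19 (.thr 24 16 (.thr 60 40 (.thr 12 44 (.thr 4 8 (.dbl 36 48 52)))))))) (.nv (.thr 22 23 (.thr 51 34 (.thr 60 40 (.thr 3 41 (.thr 19 35 (.thr 16 18 (.dbl 28 24 25))))))) (.nv (.thr 22 23 (.thr 25 29 (.thr 28 19 (.thr 24 16 (.thr 51 34 (.thr 12 38 (.thr 4 8 (.dbl 36 48 52)))))))) (.nv (.thr 22 23 (.thr 25 29 (.thr 51 34 (.thr 60 40 (.thr 57 54 (.dbl 41 3 9)))))) (.rp 25 (.thr 22 23 (.thr 60 40 (.thr 51 34 (.thr 54 57 (.thr 38 6 (.thr 4 55 (.thr 12 8 (.thr 44 28 (.dbl 41 3 35))))))))) (.rp 23 (.thr 25 29 (.thr 60 40 (.thr 51 34 (.thr 12 38 (.thr 28 44 (.thr 16 24 (.dbl 19 18 22))))))) (.rp 22 (.thr 25 29 (.thr 60 40 (.thr 51 34 (.thr 12 38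 (.thr 4 8 (.thr 36 52 (.thr 24 48 (.dbl 28 16 44)))))))) (.rp 13 (.str 9 (.nv (.thr 22 23 (.thr 25 29 (.thr 41 57 (.dbl 60 3 40)))) (.nv (.thr 22 23 (.thr 51 34 (.thr 60 40 (.thr 3 41 (.thr 54 57 (.dbl 6 12 38)))))) (.nv (.thr 22 23 (.thr 25 29 (.thr 19 28 (.thr 51 34 (.thr 3 35 (.dbl 12 6 38)))))) (.nv (.thr 51 34 (.thr 60 40 (.thr 57 54 (.dbl 25 29 41)))) .nd))))) (.rp 9 (.str 13 (.nv (.thr 22 23 (.thr 25 29 (.thr 19 28 (.thr 16 18 (.thr 37 49 (.thr 48 32 (.dbl 26 15 31))))))) (.nv (.thr 29 25 (.thr 45 61 (.thr 60 40 (.thr 30 15 (.thr 31 28 (.thr 26 16 (.dbl 22 18 23))))))) (.nv (.thr 22 23 (.thr 25 29 (.thr 51 34 (.thr 60 40 (.thr 54 57 (.dbl 38 6 12)))))) (.rp 29 (.thr 60 40 (.thr 22 23 (.thr 3 41 (.thr 51 34 (.thr 19 35 (.thr 16 18 (.dbl 28 24 25))))))) (.rp 25 (.thr 60 40 (.thr 22 23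 (.thr 51 34 (.thr 3 41 (.thr 57 54 (.thr 19 35 (.thr 18 16 (.thr 30 26 (.thr 45 15 (.thr 61 29 (.thr 49 53 (.dbl 48 33 50)))))))))))) (.rp 23 (.thr 25 29 (.thr 49 37 (.thr 51 34 (.thr 48 50 (.thr 16 32 (.thr 28 24 (.dbl 19 18 22))))))) (.rp 22 (.thr 25 29 (.thr 49 37 (.thr 51 34 (.thr 48 50 (.thr 16 32 (.thr 24 28 (.dbl 12 36 38))))))) .nd)))))))) .nd))))))))))) (.rp 4 (.str 15 (.nv (.thr 25 29 (.thr 51 34 (.thr 27 39 (.thr 26 24 (.thr 16 31 (.dbl 48 32 37)))))) (.nv (.thr 5 10 (.thr 37 53 (.thr 48 26 (.thr 51 34 (.thr 49 50 (.dbl 25 13 29)))))) (.nv (.thr 5 10 (.thr 25 29 (.thr 51 34 (.thr 27 39 (.thr 26 24 (.dbl 37 48 53)))))) (.rp 51 (.thr 5 10 (.thr 25 29 (.thr 37 53 (.thr 48 26 (.thr 16 32 (.thr 19 18 (.thr 22 28 (.thr 20 23 (.thr 52 7 (.dbl 60 40 56)))))))))) (.rp 48 (.thr 5 10 (.thr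 25 29 (.thr 51 34 (.thr 12 38 (.thr 13 14 (.dbl 37 49 53)))))) (.rp 37 (.thr 25 29 (.thr 51 34 (.thr 27 39 (.thr 26 24 (.thr 16 31 (.thr 48 32 (.thr 50 49 (.dbl 38 12 14)))))))) (.rp 34 (.thr 5 10 (.thr 25 29 (.thr 37 53 (.thr 48 26 (.thr 13 49 (.thr 12 14 (.thr 36 24 (.dbl 38 39 51)))))))) (.rp 29 (.thr 5 10 (.thr 51 34 (.thr 39 27 (.thr 37 53 (.thr 38 36 (.thr 48 26 (.thr 49 50 (.dbl 25 12 13)))))))) (.rp 26 (.thr 5 10 (.thr 25 29 (.thr 51 34 (.thr 12 38 (.thr 37 53 (.dbl 13 14 49)))))) (.rp 25 (.thr 5 10 (.thr 34 51 (.thr 37 53 (.thr 48 26 (.thr 32 16 (.thr 33 35 (.thr 41 45 (.thr 3 18 (.thr 7 11 (.dbl 22 52 60)))))))))) .nd))))))))))) (.rp 3 (.thr 25 29 (.thr 51 34 (.thr 12 38 (.thr 8 4 (.thr 42 59 (.str 15 (.nv (.thr 27 39 (.thr 26 24 (.thr 16 31 (.dbl 48 32 37)))) (.nv (.thr 5 10 (.thr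 37 53 (.dbl 13 14 49))) (.rp 48 (.thr 10 5 (.thr 27 39 (.dbl 26 24 58))) (.rp 43 (.str 23 (.nv (.thr 22 20 (.thr 19 28 (.dbl 27 31 39))) (.nv (.thr 5 10 (.thr 37 53 (.dbl 13 14 49))) (.rp 27 (.str 11 (.nv (.dbl 10 5 9) (.rp 10 (.thr 13 14 (.thr 37 49 (.thr 32 47 (.dbl 48 16 26)))) (.rp 9 (.thr 5 10 (.thr 13 14 (.dbl 37 49 53))) (.rp 5 (.thr 10 9 (.thr 13 14 (.thr 26 58 (.dbl 37 48 49)))) .nd))))) (.rp 11 (.thr 27 39 (.thr 10 5 (.dbl 26 24 58))) .nd))))) (.rp 37 (.thr 10 5 (.thr 26 58 (.dbl 27 24 39))) (.rp 23 (.str 43 (.nv (.thr 13 14 (.thr 37 49 (.thr 26 48 (.dbl 27 24 39)))) (.nv (.thr 10 5 (.thr 9 11 (.dbl 41 40 57))) .nd))) .nd)))))))))))) (.rp 2 (.str 20 (.nv (.thr 25 29 (.thr 51 34 (.thr 12 38 (.thr 60 40 (.thr 28 44 (.dbl 22 19 23)))))) (.nv (.thr 22 23 (.thr 25 29 (.thr 28 19 (.thr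 24 16 (.thr 51 34 (.thr 12 38 (.thr 4 8 (.dbl 36 48 52)))))))) (.nv (.thr 22 23 (.thr 51 34 (.thr 60 40 (.thr 3 41 (.thr 19 35 (.thr 28 25 (.dbl 16 18 24))))))) (.nv (.thr 22 23 (.thr 25 29 (.thr 28 19 (.thr 24 16 (.thr 60 40 (.thr 12 44 (.thr 4 8 (.dbl 36 48 52)))))))) (.nv (.thr 22 23 (.thr 25 29 (.thr 51 34 (.thr 60 40 (.thr 54 57 (.dbl 38 6 12)))))) (.rp 25 (.thr 22 23 (.thr 51 34 (.thr 60 40 (.thr 54 57 (.thr 38 6 (.thr 4 55 (.thr 12 8 (.thr 44 28 (.dbl 41 3 35))))))))) (.rp 23 (.thr 25 29 (.thr 51 34 (.thr 12 38 (.thr 60 40 (.thr 28 44 (.thr 19 22 (.dbl 16 18 24))))))) (.rp 22 (.thr 25 29 (.thr 51 34 (.thr 12 38 (.thr 4 8 (.thr 36 52 (.thr 24 48 (.thr 16 28 (.dbl 26 27 31)))))))) .nd))))))))) .nd))))))))))))))))))))))))))))))))))))))))))))))))))))))))))))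

theorem w149 : WinAt (2097153, 9223372036854775810) :=
  chF (K := []) kn c149 2097153 9223372036854775810 63
    [] (by decide +kernel) (by decide +kernel)

/-- A certificate. -/
noncomputable def c150 : Ct := (.str 22 (.nv (.thr 19 28 (.thr 16 18 (.thr 31 26 (.dbl 23 20 27)))) (.nv (.thr 3 60 (.thr 12 6 (.thr 51 38 (.dbl 19 28 35)))) (.nv (.thr 23 20 (.thr 19 28 (.thr 31 27 (.dbl 16 18 26)))) (.rp 28 (.thr 3 60 (.thr 12 6 (.thr 51 38 (.thr 19 35 (.thr 16 18 (.thr 31 26 (.dbl 23 20 27))))))) (.rp 20 (.thr 60 3 (.thr 28 19 (.thr 12 44 (.thr 51 38 (.thr 48 50 (.thr 56 52 (.thr 26 11 (.dbl 24 27 36)))))))) (.rp 19 (.str 11 (.nv (.thr 3 60 (.thr 12 6 (.dbl 15 7 14))) (.nv (.thr 26 56 (.thr 27 24 (.thr 59 43 (.dbl 8 10 42)))) (.rp 40 (.thr 3 60 (.thr 20 23 (.thr 15 7 (.dbl 12 6 14)))) (.rp 15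 (.thr 10 8 (.thr 3 60 (.thr 12 6 (.thr 51 38 (.thr 26 56 (.thr 24 27 (.dbl 48 36 50))))))) (.rp 10 (.str 15 (.nv (.thr 12 14 (.thr 6 3 (.dbl 38 51 54))) (.nv (.dbl 3 7 60) (.rp 14 (.str 6 (.nv (.thr 12 3 (.dbl 38 51 54)) (.nv (.dbl 3 7 12) (.rp 12 (.dbl 3 7 60) (.rp 3 (.thr 38 54 (.thr 51 12 (.thr 27 39 (.dbl 26 24 56)))) .nd))))) (.rp 6 (.thr 14 12 (.dbl 3 7 60)) (.rp 3 (.thr 26 56 (.thr 27 24 (.thr 51 39 (.dbl 12 14 38)))) .nd)))))) .nd)))))) (.rp 15 (.str 10 (.nv (.thr 3 60 (.thr 12 6 (.thr 51 38 (.dbl 19 28 35)))) (.nv (.thr 11 8 (.thr 19 28 (.thr 16 18 (.dbl 26 31 56)))) (.nv (.thr 23 20 (.thr 19 28 (.thr 31 27 (.dbl 16 18 26)))) (.rp 48 (.str 26 (.nv (.thr 16 31 (.dbl 18 19 30)) (.nv (.dbl 11 8 56) (.rp 18 (.thr 3 60 (.dbl 11 8 56)) (.rp 16 (.str 32 (.nv (.dbl 11 8 56) (.rp 56 (.thr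 8 11 (.dbl 42 58 59)) (.rp 18 (.thr 3 60 (.dbl 11 8 56)) (.rp 11 (.thr 3 60 (.thr 12 6 (.thr 19 28 (.dbl 51 35 38)))) (.rp 8 (.thr 3 60 (.thr 12 6 (.thr 19 28 (.dbl 51 35 38)))) (.rp 3 (.thr 18 30 (.dbl 11 8 56)) .nd))))))) (.rp 3 (.thr 18 30 (.dbl 11 8 56)) .nd)))))) (.rp 28 (.thr 3 60 (.thr 12 6 (.thr 8 11 (.thr 51 38 (.thr 59 42 (.thr 63 55 (.dbl 23 20 43))))))) (.rp 26 (.str 48 (.nv (.thr 3 60 (.thr 12 6 (.thr 20 23 (.thr 28 19 (.dbl 24 16 36))))) (.nv (.thr 3 60 (.thr 51 50 (.dbl 12 6 38))) (.nv (.thr 28 19 (.thr 60 3 (.thr 12 44 (.dbl 51 38 50)))) (.rp 60 (.thr 19 28 (.thr 51 50 (.thr 3 35 (.dbl 12 6 38)))) (.rp 51 (.thr 28 19 (.thr 20 23 (.thr 24 16 (.thr 12 36 (.dbl 60 3 44))))) (.rp 12 (.thr 3 60 (.thr 51 50 (.dbl 19 28 35))) (.rp 3 (.thr 28 19 (.thr 20 23 (.thr 24 16 (.thr 12 36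 (.dbl 51 38 50))))) .nd)))))))) (.rp 19 (.thr 3 60 (.thr 12 6 (.thr 8 11 (.thr 51 38 (.thr 59 42 (.thr 63 55 (.dbl 23 20 43))))))) .nd)))))))) (.rp 10 (.str 15 (.nv (.thr 19 28 (.thr 23 20 (.thr 31 27 (.dbl 16 18 26)))) (.nv (.thr 12 14 (.thr 6 3 (.dbl 38 51 54))) (.rp 18 (.thr 3 60 (.dbl 12 6 14)) (.rp 14 (.str 6 (.nv (.dbl 3 12 60) (.rp 60 (.thr 12 3 (.dbl 38 51 54)) (.rp 12 (.thr 19 28 (.thr 60 3 (.thr 30 45 (.dbl 18 16 26)))) (.rp 3 (.thr 19 28 (.thr 23 20 (.thr 31 27 (.dbl 16 18 26)))) .nd))))) (.rp 6 (.thr 14 12 (.thr 60 3 (.thr 30 45 (.thr 18 26 (.dbl 19 16 28))))) .nd)))))) .nd)))))))))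

theorem w150 : WinAt (565149012468226, 2449958343855308837) :=
  chF (K := []) kn c150 565149012468226 2449958343855308837 57
    [33825] (by decide +kernel) (by decide +kernel)

/-- A certificate. -/
noncomputable def c151 : Ct := (.str 25 (.nv (.thr 17 29 (.thr 9 57 (.thr 49 33 (.dbl 13 5 37)))) (.rp 57 (.thr 17 29 (.thr 49 33 (.thr 13 37 (.str 38 (.nv (.thr 35 44 (.thr 51 12 (.thr 50 48 (.thr 26 14 (.thr 16 31 (.dbl 19 3 18)))))) (.nv (.thr 4 55 (.thr 5 9 (.thr 6 7 (.thr 22 54 (.thr 3 60 (.thr 51 12 (.dbl 19 28 35))))))) (.nv (.thr 44 35 (.thr 12 51 (.thr 60 28 (.thr 9 5 (.dbl 3 6 22))))) (.rp 60 (.thr 51 12 (.thr 50 48 (.thr 26 14 (.thr 24 27 (.thr 16 31 (.thr 19 18 (.thr 3 35 (.dbl 28 20 22)))))))) (.rp 51 (.thr 5 9 (.thr 4 55 (.thr 6 7 (.thr 22 54 (.thr 60 3 (.thr 19 28 (.thr 23 20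 (.thr 31 27 (.dbl 16 18 26))))))))) (.rp 44 (.thr 51 12 (.thr 50 48 (.thr 26 14 (.thr 24 27 (.thr 16 31 (.thr 28 20 (.dbl 19 18 22))))))) (.rp 35 (.thr 51 12 (.thr 50 48 (.thr 26 14 (.thr 24 27 (.thr 16 31 (.thr 28 20 (.dbl 19 18 22))))))) (.rp 28 (.thr 12 51 (.thr 14 15 (.thr 26 50 (.thr 27 24 (.thr 11 56 (.thr 59 43 (.thr 8 42 (.dbl 9 5 10)))))))) (.rp 19 (.thr 9 5 (.thr 12 51 (.thr 44 35 (.thr 3 6 (.dbl 60 22 28))))) (.rp 12 (.thr 5 9 (.thr 4 55 (.thr 6 7 (.thr 22 54 (.thr 19 28 (.thr 16 18 (.thr 23 20 (.dbl 31 26 27)))))))) (.rp 6 (.thr 12 51 (.thr 44 35 (.thr 60 28 (.thr 14 15 (.thr 26 50 (.thr 56 11 (.thr 48 52 (.dbl 24 27 36)))))))) (.rp 3 (.thr 5 9 (.thr 4 55 (.thr 6 7 (.thr 22 54 (.thr 19 28 (.thr 23 20 (.thr 31 27 (.dbl 16 18 26)))))))) .nd)))))))))))))))) (.rp 49 (.thr 57 9 (.str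 51 (.nv (.thr 12 38 (.thr 60 54 (.thr 22 3 (.dbl 28 19 44)))) (.rp 60 (.thr 29 17 (.thr 12 38 (.thr 63 46 (.thr 59 55 (.thr 56 58 (.thr 11 26 (.thr 43 27 (.dbl 42 8 40)))))))) (.rp 54 (.thr 29 17 (.thr 12 38 (.thr 63 46 (.thr 59 55 (.thr 56 58 (.thr 11 26 (.thr 43 27 (.dbl 42 8 40)))))))) (.rp 44 (.thr 17 29 (.thr 60 54 (.thr 22 3 (.thr 19 28 (.thr 16 18 (.thr 31 26 (.dbl 23 20 27))))))) (.rp 38 (.thr 17 29 (.thr 60 54 (.thr 22 3 (.thr 19 28 (.thr 16 18 (.thr 31 26 (.dbl 23 20 27))))))) (.rp 28 (.thr 60 54 (.thr 3 22 (.thr 35 19 (.dbl 38 12 44)))) (.rp 22 (.thr 29 17 (.thr 12 38 (.thr 63 46 (.thr 59 55 (.thr 56 58 (.thr 11 26 (.thr 43 27 (.dbl 42 8 40)))))))) (.rp 19 (.thr 29 17 (.thr 60 54 (.thr 22 3 (.thr 20 23 (.thr 12 38 (.thr 28 44 (.thr 16 24 (.dbl 31 26 30)))))))) (.rp 12 (.thr 17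 29 (.thr 60 54 (.thr 3 22 (.thr 19 35 (.thr 16 18 (.thr 26 31 (.thr 27 24 (.thr 15 39 (.dbl 11 7 56))))))))) (.rp 3 (.thr 29 17 (.thr 60 54 (.thr 12 38 (.thr 28 44 (.thr 31 30 (.thr 16 26 (.thr 20 24 (.dbl 22 19 23)))))))) .nd)))))))))))) (.rp 45 (.thr 9 57 (.thr 17 29 (.thr 13 5 (.dbl 49 33 37)))) (.rp 37 (.str 28 (.nv (.thr 17 29 (.thr 19 22 (.thr 16 18 (.thr 26 31 (.dbl 24 20 27))))) (.nv (.thr 22 19 (.thr 57 9 (.thr 60 3 (.thr 12 44 (.dbl 51 38 54))))) (.rp 22 (.thr 29 17 (.thr 9 57 (.thr 31 30 (.thr 26 16 (.thr 27 24 (.thr 11 56 (.thr 59 43 (.dbl 8 10 42)))))))) (.rp 19 (.thr 29 17 (.thr 57 9 (.thr 31 30 (.thr 16 26 (.thr 20 24 (.thr 22 23 (.thr 60 3 (.thr 12 44 (.dbl 51 38 54))))))))) .nd))))) (.rp 33 (.str 28 (.nv (.thr 22 19 (.thr 57 9 (.thr 60 3 (.thr 12 44 (.dbl 51 38 54))))) (.nv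 (.thr 22 19 (.thr 20 23 (.thr 16 24 (.thr 31 26 (.dbl 29 17 30))))) (.rp 22 (.thr 29 17 (.thr 9 57 (.thr 31 30 (.thr 26 16 (.thr 27 24 (.thr 11 56 (.thr 59 43 (.dbl 8 10 42)))))))) (.rp 19 (.thr 29 17 (.thr 57 9 (.thr 31 30 (.thr 16 26 (.thr 20 24 (.thr 22 23 (.thr 60 3 (.thr 12 44 (.dbl 51 38 54))))))))) .nd))))) (.rp 29 (.thr 9 57 (.thr 13 5 (.thr 49 37 (.thr 17 33 .ext)))) (.rp 17 (.str 51 (.nv (.thr 9 57 (.thr 12 38 (.thr 13 5 (.thr 15 14 (.thr 27 39 (.thr 26 24 (.dbl 37 48 49))))))) (.nv (.thr 57 9 (.thr 60 54 (.thr 12 38 (.thr 22 3 (.dbl 28 19 44))))) (.rp 57 (.str 49 (.nv (.thr 12 38 (.thr 37 13 (.thr 48 50 (.thr 26 15 (.dbl 24 27 36))))) (.nv (.thr 12 38 (.thr 13 37 (.thr 9 5 (.thr 3 6 (.thr 19 35 (.dbl 22 28 60)))))) (.nv (.thr 12 38 (.thr 48 50 (.thr 24 36 (.thr 26 27 (.dbl 37 13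 15))))) (.rp 38 (.thr 37 13 (.thr 48 50 (.thr 26 15 (.thr 56 11 (.thr 60 52 (.thr 3 22 (.dbl 33 18 45))))))) (.rp 37 (.thr 50 48 (.thr 38 12 (.thr 35 44 (.thr 19 3 (.thr 28 22 (.thr 26 14 (.thr 24 27 (.dbl 16 20 31)))))))) (.rp 36 (.thr 37 13 (.thr 53 5 (.thr 48 50 (.thr 63 58 (.thr 38 12 (.dbl 55 4 59)))))) (.rp 15 (.thr 13 37 (.thr 5 9 (.thr 38 12 (.thr 35 44 (.thr 3 19 (.thr 4 55 (.thr 6 7 (.dbl 22 54 60)))))))) (.rp 13 (.thr 48 50 (.thr 12 38 (.thr 24 36 (.thr 26 27 (.thr 56 11 (.thr 60 52 (.thr 28 44 (.dbl 16 20 31)))))))) (.rp 12 (.thr 37 13 (.thr 45 33 (.thr 48 50 (.thr 15 26 (.thr 60 30 (.thr 52 56 (.dbl 22 3 7))))))) .nd)))))))))) (.rp 38 (.thr 57 9 (.thr 60 54 (.thr 22 3 (.thr 19 28 (.thr 23 20 (.thr 27 31 (.thr 15 39 (.thr 30 45 (.dbl 26 18 24))))))))) (.rp 12 (.str 49 (.nv (.thr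 9 57 (.dbl 13 5 37)) (.rp 57 (.thr 37 13 (.thr 45 33 (.thr 48 50 (.thr 15 26 (.thr 60 30 (.thr 52 56 (.dbl 22 3 7))))))) (.rp 37 (.thr 57 9 (.thr 48 50 (.thr 60 54 (.thr 56 52 (.thr 26 11 (.thr 24 27 (.thr 8 40 (.dbl 59 42 58)))))))) (.rp 13 (.thr 57 9 (.thr 48 50 (.thr 60 54 (.thr 56 52 (.thr 26 11 (.thr 27 24 (.dbl 15 37 39))))))) (.rp 9 (.thr 37 13 (.thr 45 33 (.thr 48 50 (.thr 15 26 (.thr 60 30 (.thr 52 56 (.dbl 22 3 7))))))) (.rp 8 (.str 4 (.nv (.thr 13 37 (.dbl 9 5 57)) (.rp 57 (.thr 37 13 (.thr 53 5 (.thr 55 38 (.thr 63 59 (.dbl 48 50 58))))) (.rp 37 (.thr 57 9 (.thr 38 55 (.thr 35 44 (.thr 3 19 (.dbl 60 22 54))))) (.rp 13 (.thr 57 9 (.thr 38 55 (.thr 35 44 (.thr 3 19 (.dbl 60 22 54))))) (.rp 9 (.thr 37 13 (.thr 53 5 (.thr 55 38 (.thr 63 59 (.dbl 48 50 58))))) (.rp 5 (.thr 37 13 (.thr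 38 55 (.thr 39 36 (.thr 15 27 (.dbl 48 26 50))))) .nd))))))) (.rp 5 (.thr 57 9 (.thr 37 13 (.thr 45 33 (.thr 48 50 (.thr 15 26 (.dbl 60 30 54)))))) (.rp 4 (.str 8 (.nv (.thr 9 57 (.dbl 13 5 37)) (.rp 57 (.thr 37 13 (.thr 53 5 (.thr 59 42 (.thr 63 55 (.dbl 48 50 58))))) (.rp 37 (.thr 9 57 (.thr 59 42 (.thr 11 10 (.thr 27 43 (.dbl 26 24 56))))) (.rp 13 (.thr 9 57 (.thr 59 42 (.thr 11 10 (.thr 27 43 (.dbl 26 24 56))))) (.rp 9 (.thr 37 13 (.thr 53 5 (.thr 59 42 (.thr 63 55 (.dbl 48 50 58))))) (.rp 5 (.thr 9 57 (.thr 42 59 (.thr 40 43 (.thr 56 24 (.dbl 11 10 26))))) .nd))))))) .nd))))))))) (.rp 9 (.str 49 (.nv (.thr 37 13 (.thr 48 50 (.thr 53 5 (.thr 63 58 (.thr 55 59 (.dbl 38 4 12)))))) (.nv (.thr 37 13 (.thr 5 53 (.thr 38 12 (.thr 4 55 (.thr 36 39 (.thr 52 20 (.dbl 7 6 22))))))) (.nv (.thr 12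 38 (.thr 48 50 (.thr 24 36 (.thr 26 27 (.dbl 37 13 15))))) (.rp 38 (.thr 37 13 (.thr 48 50 (.thr 26 15 (.thr 56 11 (.thr 60 52 (.thr 3 22 (.dbl 33 18 45))))))) (.rp 37 (.thr 48 50 (.thr 38 12 (.thr 35 44 (.thr 3 19 (.thr 60 22 (.thr 52 56 (.thr 54 57 (.dbl 55 4 53)))))))) (.rp 15 (.thr 48 50 (.thr 12 38 (.thr 24 36 (.thr 26 27 (.thr 56 11 (.thr 60 52 (.thr 28 44 (.dbl 16 20 31)))))))) (.rp 13 (.thr 48 50 (.thr 12 38 (.thr 24 36 (.thr 26 27 (.thr 56 11 (.thr 60 52 (.thr 28 44 (.dbl 16 20 31)))))))) (.rp 12 (.thr 37 13 (.thr 45 33 (.thr 48 50 (.thr 15 26 (.thr 60 30 (.thr 52 56 (.dbl 22 3 7))))))) .nd))))))))) .nd))))))) (.rp 13 (.thr 57 9 (.str 22 (.nv (.thr 20 23 (.thr 28 19 (.thr 16 24 (.thr 31 26 (.dbl 29 17 30))))) (.nv (.thr 28 19 (.thr 60 3 (.thr 12 44 (.dbl 51 38 54)))) (.rp 45 (.thr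 29 17 (.thr 60 3 (.thr 28 19 (.thr 12 44 (.dbl 51 38 54))))) (.rp 29 (.str 45 (.nv (.thr 37 33 (.thr 52 7 (.thr 53 5 (.thr 54 55 (.dbl 60 3 51))))) (.nv (.thr 19 28 (.thr 33 37 (.thr 17 49 (.thr 16 18 (.thr 31 26 (.dbl 23 20 27)))))) (.nv (.thr 28 19 (.thr 60 3 (.thr 12 44 (.dbl 51 38 54)))) .nd)))) (.rp 28 (.thr 29 17 (.thr 60 3 (.thr 51 54 (.thr 12 38 (.thr 63 46 (.thr 59 55 (.thr 42 8 (.thr 43 40 (.thr 56 58 (.dbl 11 26 27)))))))))) (.rp 19 (.thr 29 17 (.thr 60 3 (.thr 51 54 (.thr 12 38 (.thr 28 44 (.thr 20 23 (.thr 16 24 (.dbl 31 26 30)))))))) .nd)))))))) (.rp 9 (.str 22 (.nv (.thr 3 60 (.thr 17 29 (.thr 33 49 (.thr 18 48 (.dbl 19 16 28))))) (.nv (.thr 20 23 (.thr 28 19 (.thr 16 24 (.thr 31 26 (.dbl 29 17 30))))) (.rp 29 (.thr 20 23 (.thr 28 19 (.thr 24 16 (.thr 60 3 (.thr 12 44 (.thr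 48 36 (.thr 56 52 (.dbl 26 11 27)))))))) (.rp 28 (.thr 17 29 (.thr 3 60 (.thr 33 49 (.thr 18 48 (.thr 16 19 (.dbl 26 30 31)))))) (.rp 20 (.thr 17 29 (.thr 19 28 (.thr 60 3 (.thr 33 49 (.thr 45 37 (.thr 30 15 (.dbl 18 16 26))))))) (.rp 19 (.str 12 (.nv (.thr 3 60 (.thr 29 17 (.thr 63 46 (.dbl 23 20 43)))) (.nv (.thr 60 3 (.thr 44 28 (.dbl 38 35 51))) (.rp 60 (.thr 20 23 (.thr 38 51 (.thr 4 55 (.thr 52 36 (.thr 7 37 (.dbl 6 5 54)))))) (.rp 51 (.thr 17 29 (.thr 3 60 (.thr 33 49 (.thr 48 18 (.thr 24 36 (.thr 26 27 (.dbl 37 15 45))))))) (.rp 3 (.thr 17 29 (.thr 49 33 (.thr 51 38 (.thr 48 50 (.thr 24 36 (.thr 26 27 (.dbl 37 13 15))))))) .nd)))))) (.rp 17 (.thr 20 23 (.thr 28 19 (.thr 16 24 (.thr 31 26 (.thr 30 29 (.thr 60 3 (.thr 12 44 (.thr 15 45 (.thr 13 14 (.thr 37 49 (.thr 52 7 (.thr 4 36 (.dbl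 38 51 55))))))))))))) (.rp 16 (.thr 29 17 (.thr 19 28 (.thr 3 60 (.thr 51 35 (.thr 12 38 (.thr 63 46 (.dbl 23 20 43))))))) .nd))))))))) (.rp 5 (.thr 17 29 (.thr 49 33 (.thr 13 37 (.thr 9 57 .ext)))) .nd))))))))))))

theorem w151 : WinAt (2199025352706, 2305843009213693957) :=
  chF (K := [(565149012468226, 2449958343855308837)]) (kc w150 kn) c151 2199025352706 2305843009213693957 61
    [] (by decide +kernel) (by decide +kernel)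

end Pool.Agent.TTT.B43
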