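import Pool.Agent.TTT.Sound2
import Pool.Agent.TTT.Cube

/-!
From checked certificates to a forced win on the board.
-/

set_option autoImplicit false

namespace Pool.Agent.TTT

open Finset

/-- The number of the bits of `m` below `k` which are not bits of `z`. -/
def cntD : ℕ → ℕ → ℕ → ℕ
  | 0, _, _ => 0
  | k + 1, m, z => cntD k m z + (if m.testBit k && !z.testBit k then 1 else 0)

theorem cntD_le (k m z : ℕ) : cntD k m z ≤ ((bs m \ bs z) ∩ range k).card := by
  induction k with
  | zero => simp [cntD]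
  | succ k ih =>
    have h1 : (bs m \ bs z) ∩ range k ⊆ (bs m \ bs z) ∩ range (k + 1) :=
      inter_subset_inter (Subset.refl _) (range_subset_range.2 (by omega))
    unfold cntD
    split_ifs with h
    · rw [Bool.and_eq_true, Bool.not_eq_true'] at h
      have h2 : insert k ((bs m \ bs z) ∩ range k) ⊆ (bs m \ bs z) ∩ range (k + 1) := by
        intro i hi
        rcases mem_insert.1 hi with rfl | hi
        · rw [mem_inter, mem_sdiff, mem_bs, mem_bs, mem_range]
          refine ⟨⟨h.1, ?_⟩, by omega⟩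
          rw [h.2]
          simp
        · exact h1 hi
      have h3 := card_le_card h2
      rw [card_insert_of_notMem (by simp)] at h3
      omega
    · have := card_le_card h1
      omega

theorem cntD_card {k m z c : ℕ} (h : c ≤ cntD k m z) : c ≤ (bs m \ bs z).card :=
  h.trans ((cntD_le k m z).trans (card_le_card inter_subset_left))

/-- The table is correct. -/
noncomputable def boardOK (N : ℕ) (L : List ℕ) (T : BT) : Bool :=
  (List.range N).all fun y =>
    ((look T y).all fun e => memL e.l L && (Nat.beq e.l (Nat.lor e.m (Nat.shiftLeft 1 y)) &&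
      ((e.a.all fun z => Nat.ble 3 (cntD N e.m z)) &&
        (e.b.all fun z => Nat.ble 2 (cntD N e.m z))))) &&
    (L.all fun l => !l.testBit y || (look T y).any fun e => Nat.beq e.l l)

theorem board_of_ok {N : ℕ} {L : List ℕ} {T : BT} (h : boardOK N L T = true) : Board N L T := by
  have h0 : ∀ y < N, ((look T y).all fun e => memL e.l L &&
      (Nat.beq e.l (Nat.lor e.m (Nat.shiftLeft 1 y)) &&
      ((e.a.all fun z => Nat.ble 3 (cntD N e.m z)) &&
        (e.b.all fun z => Nat.ble 2 (cntD N e.m z))))) = true ∧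
      (L.all fun l => !l.testBit y || (look T y).any fun e => Nat.beq e.l l) = true := by
    intro y hy
    have := List.all_eq_true.1 h y (List.mem_range.2 hy)
    rwa [Bool.and_eq_true] at this
  refine ⟨?_, ?_, ?_⟩
  · intro y hy e he
    have h1 := List.all_eq_true.1 (h0 y hy).1 e he
    simp only [Bool.and_eq_true] at h1
    refine ⟨memL_sound _ _ h1.1, ?_⟩
    rw [Nat.eq_of_beq_eq_true h1.2.1, bs_ins]
  · intro y hy l hl hyl
    have h1 := List.all_eq_true.1 (h0 y hy).2 l hl
    rw [Bool.or_eq_true] at h1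
    rcases h1 with h1 | h1
    · rw [mem_bs.1 hyl] at h1
      simp at h1
    · obtain ⟨e, he, h2⟩ := List.any_eq_true.1 h1
      exact ⟨e, he, Nat.eq_of_beq_eq_true h2⟩
  · intro y hy e he
    have h1 := List.all_eq_true.1 (h0 y hy).1 e he
    simp only [Bool.and_eq_true] at h1
    constructor
    · intro z hz
      exact cntD_card (Nat.le_of_ble_eq_true (List.all_eq_true.1 h1.2.2.1 z hz))
    · intro z hz
      exact cntD_card (Nat.le_of_ble_eq_true (List.all_eq_true.1 h1.2.2.2 z hz))

/-- The position is fine: `y` is the last cell of the second player, `P` contains the lines with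
two cells left. -/
noncomputable def posOK (N full : ℕ) (L : List ℕ) (X O y : ℕ) (P : List ℕ) : Bool :=
  Nat.ble (y + 1) N && (O.testBit y && (Nat.beq (Nat.land X O) 0 &&
    (Nat.beq (Nat.land X full) X && (Nat.beq (Nat.land O full) O &&
    (L.all fun l => !(Nat.beq (Nat.land O l) l) && (l.testBit y || (!(Nat.beq (Nat.land X l) 0) ||
      (Nat.ble 3 (cntD N l O) || (Nat.ble 2 (cntD N l O) && memL l P)))))))))

theorem chunk_sound {N full : ℕ} {L : List ℕ} {T : BT} {K : List (ℕ × ℕ)} (hB : Board N L T)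
    (hfull : full = 2 ^ N - 1)
    (hK : ∀ p ∈ K, FW (cellsN N) (Won L) (bs p.1) (bs p.2)) (c : Ct) (X O y : ℕ) (P : List ℕ)
    (hp : posOK N full L X O y P = true) (h : go N full T K c X O (look T y) P = true) :
    FW (cellsN N) (Won L) (bs X) (bs O) := by
  have hf : ∀ i, i ∈ bs full ↔ i < N := by
    intro i
    rw [mem_bs, hfull, Nat.testBit_two_pow_sub_one, decide_eq_true_eq]
  simp only [posOK, Bool.and_eq_true] at hp
  obtain ⟨h1, h2, h3, h4, h5, h6⟩ := hp
  have hy : y < N := Nat.le_of_ble_eq_true h1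
  have h3' := Nat.eq_of_beq_eq_true h3
  refine go_sound hB hf hK c X O (look T y) P h ?_ ?_ (EsOK.look hB hy (mem_bs.2 h2)) ?_ ?_
  · rw [disjoint_iff_inter_eq_empty, ← bs_land, h3', bs_zero]
  · intro i hi
    rw [← hf]
    rcases hi with hi | hi
    · rw [← Nat.eq_of_beq_eq_true h4, bs_land, mem_inter] at hi
      exact hi.2
    · rw [← Nat.eq_of_beq_eq_true h5, bs_land, mem_inter] at hi
      exact hi.2
  · rintro ⟨l, hl, hs⟩
    have h7 := List.all_eq_true.1 h6 l hl
    rw [Bool.and_eq_true, Bool.not_eq_true'] at h7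
    have h8 : Nat.land O l = l := by
      apply Nat.eq_of_testBit_eq
      intro i
      rw [tb_land]
      by_cases hi : l.testBit i = true
      · rw [hi, mem_bs.1 (hs (mem_bs.2 hi))]; rfl
      · simp only [Bool.not_eq_true] at hi
        rw [hi]; simp
    rw [h8] at h7
    simp at h7
  · intro l hl hle hd
    have h7 := List.all_eq_true.1 h6 l hl
    simp only [Bool.and_eq_true, Bool.not_eq_true', Bool.or_eq_true] at h7
    obtain ⟨-, h7 | h7 | h7 | h7⟩ := h7
    · exact absurd (mem_bs.2 h7) (not_mem_of_look hB hy hl hle)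
    · exact absurd hd (land_zero h7)
    · have := cntD_card (Nat.le_of_ble_eq_true h7)
      exact ⟨by omega, fun h => by omega⟩
    · have := cntD_card (Nat.le_of_ble_eq_true h7.1)
      exact ⟨this, fun _ => memL_sound _ _ h7.2⟩

theorem root_sound {N full : ℕ} {L : List ℕ} {T : BT} {K : List (ℕ × ℕ)} (hB : Board N L T)
    (hfull : full = 2 ^ N - 1)
    (hK : ∀ p ∈ K, FW (cellsN N) (Won L) (bs p.1) (bs p.2)) (c : Ct) (P : List ℕ)
    (hp : (L.all fun l => Nat.ble 3 (cntD N l 0) || (Nat.ble 2 (cntD N l 0) && memL l P)) = true)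
    (h : go N full T K c 0 0 [] P = true) : FW (cellsN N) (Won L) ∅ ∅ := by
  have hf : ∀ i, i ∈ bs full ↔ i < N := by
    intro i
    rw [mem_bs, hfull, Nat.testBit_two_pow_sub_one, decide_eq_true_eq]
  have hlin : ∀ l ∈ L, 2 ≤ (bs l \ bs 0).card ∧ ((bs l \ bs 0).card ≤ 2 → l ∈ P) := by
    intro l hl
    have h7 := List.all_eq_true.1 hp l hl
    simp only [Bool.and_eq_true, Bool.or_eq_true] at h7
    rcases h7 with h7 | h7
    · have := cntD_card (Nat.le_of_ble_eq_true h7)
      exact ⟨by omega, fun h => by omega⟩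
    · have := cntD_card (Nat.le_of_ble_eq_true h7.1)
      exact ⟨this, fun _ => memL_sound _ _ h7.2⟩
  have := go_sound hB hf hK c 0 0 [] P h (by rw [bs_zero]; simp) (by
      intro i hi
      rw [bs_zero] at hi
      simp at hi) (EsOK.nil 0) (by
      rw [bs_zero]
      rintro ⟨l, hl, hs⟩
      have h8 := (hlin l hl).1
      rw [subset_empty.1 hs] at h8
      simp at h8) (fun l hl _ _ => hlin l hl)
  rwa [bs_zero] at this

/-- Apply a permutation given by a list. -/
def ap (σ : List ℕ) (i : ℕ) : ℕ := σ.getD i 0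

/-- `σ` and `τ` are inverse permutations of the cells, and they map lines to lines. -/
noncomputable def symOK (N : ℕ) (L : List ℕ) (σ τ : List ℕ) : Bool :=
  ((List.range N).all fun i => Nat.ble (ap σ i + 1) N && (Nat.beq (ap τ (ap σ i)) i &&
    (Nat.ble (ap τ i + 1) N && Nat.beq (ap σ (ap τ i)) i))) &&
  (L.all fun l => memL (maskOf (((List.range N).filter (fun i => l.testBit i)).map (ap σ))) L &&
    memL (maskOf (((List.range N).filter (fun i => l.testBit i)).map (ap τ))) L)

theorem image_mask {N l : ℕ} (hl : ∀ i ∈ bs l, i < N) (σ : List ℕ) :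
    bs (maskOf (((List.range N).filter (fun i => l.testBit i)).map (ap σ))) =
      (bs l).image (ap σ) := by
  ext j
  rw [mem_maskOf, List.mem_map, mem_image]
  constructor
  · rintro ⟨i, hi, rfl⟩
    rw [List.mem_filter] at hi
    exact ⟨i, mem_bs.2 hi.2, rfl⟩
  · rintro ⟨i, hi, rfl⟩
    exact ⟨i, List.mem_filter.2 ⟨List.mem_range.2 (hl i hi), mem_bs.1 hi⟩, rfl⟩

theorem FW.sym {N : ℕ} {L : List ℕ} (hL : ∀ l ∈ L, ∀ i ∈ bs l, i < N) {σ τ : List ℕ}
    (hs : symOK N L σ τ = true) {A B : Finset ℕ} (hA : (A : Set ℕ) ⊆ cellsN N)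
    (hB : (B : Set ℕ) ⊆ cellsN N) (h : FW (cellsN N) (Won L) A B) :
    FW (cellsN N) (Won L) (A.image (ap σ)) (B.image (ap σ)) := by
  rw [symOK, Bool.and_eq_true] at hs
  obtain ⟨h1, h2⟩ := hs
  have hσ : ∀ i < N, ap σ i < N ∧ ap τ (ap σ i) = i ∧ ap τ i < N ∧ ap σ (ap τ i) = i := by
    intro i hi
    have := List.all_eq_true.1 h1 i (List.mem_range.2 hi)
    simp only [Bool.and_eq_true] at this
    exact ⟨Nat.le_of_ble_eq_true this.1, Nat.eq_of_beq_eq_true this.2.1,
      Nat.le_of_ble_eq_true this.2.2.1, Nat.eq_of_beq_eq_true this.2.2.2⟩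
  have hlσ : ∀ l ∈ L, (∃ l' ∈ L, bs l' = (bs l).image (ap σ)) ∧
      (∃ l' ∈ L, bs l' = (bs l).image (ap τ)) := by
    intro l hl
    have := List.all_eq_true.1 h2 l hl
    rw [Bool.and_eq_true] at this
    exact ⟨⟨_, memL_sound _ _ this.1, image_mask (hL l hl) σ⟩,
      ⟨_, memL_sound _ _ this.2, image_mask (hL l hl) τ⟩⟩
  refine h.map (cellsN N) (Won L) (ap σ) ?_ ?_ ?_ hA hB
  · intro i hi j hj hij
    rw [← (hσ i hi).2.1, ← (hσ j hj).2.1, hij]
  · ext j
    constructor
    · rintro ⟨i, hi, rfl⟩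
      exact (hσ i hi).1
    · intro hj
      exact ⟨ap τ j, (hσ j hj).2.2.1, (hσ j hj).2.2.2⟩
  · intro A hA
    constructor
    · rintro ⟨l, hl, hs⟩
      obtain ⟨l', hl', he⟩ := (hlσ l hl).2
      refine ⟨l', hl', ?_⟩
      rw [he]
      intro i hi
      obtain ⟨j, hj, rfl⟩ := mem_image.1 hi
      obtain ⟨x, hx, rfl⟩ := mem_image.1 (hs hj)
      rw [(hσ x (hA hx)).2.1]
      exact hx
    · rintro ⟨l, hl, hs⟩
      obtain ⟨l', hl', he⟩ := (hlσ l hl).1
      exact ⟨l', hl', by rw [he]; exact image_subset_image hs⟩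

/-- Apply a word in the symmetries to a pair of cells. -/
def apw (G : List (List ℕ)) : List ℕ → ℕ × ℕ → ℕ × ℕ
  | [], p => p
  | g :: w, p => apw G w (ap (G.getD g []) p.1, ap (G.getD g []) p.2)

theorem FW.word {N : ℕ} {L : List ℕ} (hL : ∀ l ∈ L, ∀ i ∈ bs l, i < N) {G : List (List ℕ)}
    (hG : ∀ σ ∈ G, ∃ τ, symOK N L σ τ = true) (w : List ℕ) :
    ∀ p : ℕ × ℕ, p.1 < N → p.2 < N → (∀ g ∈ w, g < G.length) →
      FW (cellsN N) (Won L) {p.1} {p.2} →
      FW (cellsN N) (Won L) {(apw G w p).1} {(apw G w p).2} := by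
  induction w with
  | nil => intro p _ _ _ h; exact h
  | cons g w ih =>
    intro p hp1 hp2 hg h
    have hgl := hg g List.mem_cons_self
    have hmem : G.getD g [] ∈ G := by
      rw [List.getD_eq_getElem _ _ hgl]
      exact List.getElem_mem hgl
    obtain ⟨τ, hτ⟩ := hG _ hmem
    have hlt : ∀ i < N, ap (G.getD g []) i < N := by
      intro i hi
      have h1 := hτ
      rw [symOK, Bool.and_eq_true] at h1
      have := List.all_eq_true.1 h1.1 i (List.mem_range.2 hi)
      simp only [Bool.and_eq_true] at this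
      exact Nat.le_of_ble_eq_true this.1
    refine ih _ (hlt _ hp1) (hlt _ hp2) (fun g hg' => hg g (List.mem_cons_of_mem _ hg')) ?_
    have h2 := h.sym hL hτ (A := {p.1}) (B := {p.2}) (by
      intro x hx
      rw [coe_singleton, Set.mem_singleton_iff] at hx
      rw [hx]; exact hp1) (by
      intro x hx
      rw [coe_singleton, Set.mem_singleton_iff] at hx
      rw [hx]; exact hp2)
    rw [image_singleton, image_singleton] at h2
    exact h2

/-- From the numbered board to `[n]^k`. -/
theorem fw_lines {k n N : ℕ} (enc : (Fin k → Fin n) → ℕ) (hinj : Function.Injective enc)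
    (hlt : ∀ x, enc x < N) (hran : ∀ i < N, ∃ x, enc x = i) (L : List ℕ)
    (h1 : ∀ l ∈ L, ∃ e ∈ Lines k n, e.image enc = bs l)
    (h2 : ∀ e ∈ Lines k n, ∃ l ∈ L, e.image enc = bs l)
    (h : FW (cellsN N) (Won L) ∅ ∅) :
    FW Set.univ (fun A : Finset (Fin k → Fin n) => ∃ e ∈ Lines k n, e ⊆ A) ∅ ∅ := by
  have hne : Nonempty (Fin k → Fin n) := by
    cases h with
    | win _ _ c _ hc _ _ _ =>
      obtain ⟨x, -⟩ := hran c hc
      exact ⟨x⟩
    | step _ _ c _ hc _ _ _ _ =>
      obtain ⟨x, -⟩ := hran c hc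
      exact ⟨x⟩
  have hl : ∀ x, Function.invFun enc (enc x) = x := Function.leftInverse_invFun hinj
  have hr : ∀ i < N, enc (Function.invFun enc i) = i := by
    intro i hi
    obtain ⟨x, rfl⟩ := hran i hi
    rw [hl]
  have := h.map Set.univ (fun A : Finset (Fin k → Fin n) => ∃ e ∈ Lines k n, e ⊆ A)
    (Function.invFun enc) (by
      intro i hi j hj hij
      rw [← hr i hi, ← hr j hj, hij]) (by
      ext x
      constructor
      · intro _; trivial
      · intro _; exact ⟨enc x, hlt x, hl x⟩) (by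
      intro A hA
      constructor
      · rintro ⟨e, he, hs⟩
        obtain ⟨l, hlL, hel⟩ := h2 e he
        refine ⟨l, hlL, ?_⟩
        rw [← hel]
        intro i hi
        obtain ⟨x, hx, rfl⟩ := mem_image.1 hi
        obtain ⟨j, hj, hjx⟩ := mem_image.1 (hs hx)
        rw [← hjx, hr j (hA hj)]
        exact hj
      · rintro ⟨l, hlL, hs⟩
        obtain ⟨e, he, hel⟩ := h1 l hlL
        refine ⟨e, he, ?_⟩
        intro x hx
        rw [mem_image]
        refine ⟨enc x, hs ?_, hl x⟩
        rw [← hel]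
        exact mem_image_of_mem _ hx) (by simp) (by simp)
  simpa using this

/-- The list of masks is the list of the lines of the cube. -/
noncomputable def eq3 (n : ℕ) (L : List ℕ) : Bool :=
  ((List.range (n + 2)).all fun a => (List.range (n + 2)).all fun b => (List.range (n + 2)).all
    fun c => (Nat.ble (a + 1) n && (Nat.ble (b + 1) n && Nat.ble (c + 1) n)) ||
      memL (lm3 n a b c) L) &&
  (L.all fun l => (List.range (n + 2)).any fun a => (List.range (n + 2)).any fun b =>
    (List.range (n + 2)).any fun c => (Nat.ble n a || (Nat.ble n b || Nat.ble n c)) &&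
      Nat.beq (lm3 n a b c) l)

theorem eq3_sound {n : ℕ} {L : List ℕ} (h : eq3 n L = true) :
    (∀ l ∈ L, ∃ e ∈ Lines 3 n, e.image enc3 = bs l) ∧
      (∀ e ∈ Lines 3 n, ∃ l ∈ L, e.image enc3 = bs l) := by
  rw [eq3, Bool.and_eq_true] at h
  obtain ⟨h1, h2⟩ := h
  constructor
  · intro l hl
    have h3 := List.all_eq_true.1 h2 l hl
    obtain ⟨a, ha, h3⟩ := List.any_eq_true.1 h3
    obtain ⟨b, hb, h3⟩ := List.any_eq_true.1 h3
    obtain ⟨c, hc, h3⟩ := List.any_eq_true.1 h3
    simp only [Bool.and_eq_true, Bool.or_eq_true] at h3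
    have h4 : n ≤ a ∨ n ≤ b ∨ n ≤ c := by
      rcases h3.1 with h | h | h
      · exact Or.inl (Nat.le_of_ble_eq_true h)
      · exact Or.inr (Or.inl (Nat.le_of_ble_eq_true h))
      · exact Or.inr (Or.inr (Nat.le_of_ble_eq_true h))
    have h5 := mask_line3 (List.mem_range.1 ha) (List.mem_range.1 hb) (List.mem_range.1 hc) h4
    rw [Nat.eq_of_beq_eq_true h3.2] at h5
    exact h5
  · rintro e ⟨f, hf, rfl⟩
    obtain ⟨a, ha, b, hb, c, hcc, h3, h4⟩ := line_mask3 hf
    have h5 := List.all_eq_true.1 h1 a (List.mem_range.2 ha)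
    have h5 := List.all_eq_true.1 h5 b (List.mem_range.2 hb)
    have h5 := List.all_eq_true.1 h5 c (List.mem_range.2 hcc)
    rw [Bool.or_eq_true] at h5
    rcases h5 with h5 | h5
    · exfalso
      simp only [Bool.and_eq_true] at h5
      have e1 := Nat.le_of_ble_eq_true h5.1
      have e2 := Nat.le_of_ble_eq_true h5.2.1
      have e3 := Nat.le_of_ble_eq_true h5.2.2
      omega
    · exact ⟨_, memL_sound _ _ h5, h4⟩

/-- The list of masks is the list of the lines of the square. -/
noncomputable def eq2 (n : ℕ) (L : List ℕ) : Bool :=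
  ((List.range (n + 2)).all fun a => (List.range (n + 2)).all fun b =>
    (Nat.ble (a + 1) n && Nat.ble (b + 1) n) || memL (lm2 n a b) L) &&
  (L.all fun l => (List.range (n + 2)).any fun a => (List.range (n + 2)).any fun b =>
    (Nat.ble n a || Nat.ble n b) && Nat.beq (lm2 n a b) l)

theorem eq2_sound {n : ℕ} {L : List ℕ} (h : eq2 n L = true) :
    (∀ l ∈ L, ∃ e ∈ Lines 2 n, e.image enc2 = bs l) ∧
      (∀ e ∈ Lines 2 n, ∃ l ∈ L, e.image enc2 = bs l) := by
  rw [eq2, Bool.and_eq_true] at h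
  obtain ⟨h1, h2⟩ := h
  constructor
  · intro l hl
    have h3 := List.all_eq_true.1 h2 l hl
    obtain ⟨a, ha, h3⟩ := List.any_eq_true.1 h3
    obtain ⟨b, hb, h3⟩ := List.any_eq_true.1 h3
    simp only [Bool.and_eq_true, Bool.or_eq_true] at h3
    have h4 : n ≤ a ∨ n ≤ b := by
      rcases h3.1 with h | h
      · exact Or.inl (Nat.le_of_ble_eq_true h)
      · exact Or.inr (Nat.le_of_ble_eq_true h)
    have h5 := mask_line2 (List.mem_range.1 ha) (List.mem_range.1 hb) h4
    rw [Nat.eq_of_beq_eq_true h3.2] at h5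
    exact h5
  · rintro e ⟨f, hf, rfl⟩
    obtain ⟨a, ha, b, hb, h3, h4⟩ := line_mask2 hf
    have h5 := List.all_eq_true.1 h1 a (List.mem_range.2 ha)
    have h5 := List.all_eq_true.1 h5 b (List.mem_range.2 hb)
    rw [Bool.or_eq_true] at h5
    rcases h5 with h5 | h5
    · exfalso
      simp only [Bool.and_eq_true] at h5
      have e1 := Nat.le_of_ble_eq_true h5.1
      have e2 := Nat.le_of_ble_eq_true h5.2
      omega
    · exact ⟨_, memL_sound _ _ h5, h4⟩

end Pool.Agent.TTT
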