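import Pool.Agent.TTT.Draw3

/-!
Positions with the second player to move, their transport by symmetries, and the root of the tree.
-/

set_option autoImplicit false

namespace Pool.Agent.TTT

open Finset

/-- The second player is to move, and the first player has a forced win. -/
def FR {α : Type*} [DecidableEq α] (C : Set α) (W : Finset α → Prop) (A B : Finset α) : Prop :=
  (∃ d, d ∈ C ∧ d ∉ A ∧ d ∉ B) ∧ ∀ d, d ∈ C → d ∉ A → d ∉ B → FW C W A (insert d B)

/-- The check of a position with the second player to move. -/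
noncomputable def posR (full N : ℕ) (L : List ℕ) (X O : ℕ) (P : List ℕ) : Bool :=
  Nat.beq (Nat.land X O) 0 && (Nat.beq (Nat.land X full) X && (Nat.beq (Nat.land O full) O &&
    (!(Nat.beq (Nat.xor full (Nat.lor X O)) 0) &&
    (L.all fun l => !(Nat.beq (Nat.land X l) 0) ||
      (Nat.ble 3 (cntD N l O) || (Nat.ble 2 (cntD N l O) && memL l P))))))

theorem chunkR_sound {N full : ℕ} {L : List ℕ} {T : BT} {K : List (ℕ × ℕ)} (hB : Board N L T)
    (hfull : full = 2 ^ N - 1)
    (hK : ∀ p ∈ K, FW (cellsN N) (Won L) (bs p.1) (bs p.2)) (t : Rt) (X O : ℕ) (P : List ℕ)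
    (hp : posR full N L X O P = true)
    (h : goR N full T K t X O (Nat.xor full (Nat.lor X O)) P = true) :
    FR (cellsN N) (Won L) (bs X) (bs O) := by
  have hf : ∀ i, i ∈ bs full ↔ i < N := by
    intro i
    rw [mem_bs, hfull, Nat.testBit_two_pow_sub_one, decide_eq_true_eq]
  simp only [posR, Bool.and_eq_true, Bool.not_eq_true'] at hp
  obtain ⟨h3, h4, h5, h7, h6⟩ := hp
  have h3' := Nat.eq_of_beq_eq_true h3
  have hsub : ∀ i, i ∈ bs X ∨ i ∈ bs O → i < N := by
    intro i hi
    rw [← hf]
    rcases hi with hi | hi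
    · rw [← Nat.eq_of_beq_eq_true h4, bs_land, mem_inter] at hi
      exact hi.2
    · rw [← Nat.eq_of_beq_eq_true h5, bs_land, mem_inter] at hi
      exact hi.2
  have hxor : ∀ i, (Nat.xor full (Nat.lor X O)).testBit i =
      (full.testBit i ^^ (X.testBit i || O.testBit i)) := by
    intro i
    have := Nat.testBit_xor full (Nat.lor X O) i
    rw [tb_lor] at this
    exact this
  constructor
  · have h8 : ∃ i, (Nat.xor full (Nat.lor X O)).testBit i = true := by
      by_contra hno
      push Not at hno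
      have h9 : Nat.xor full (Nat.lor X O) = 0 := by
        apply Nat.eq_of_testBit_eq
        intro i
        rw [Nat.zero_testBit]
        simpa using hno i
      rw [h9] at h7
      simp at h7
    obtain ⟨i, hi⟩ := h8
    rw [hxor] at hi
    by_cases hiN : i < N
    · rw [mem_bs.1 ((hf i).2 hiN)] at hi
      refine ⟨i, hiN, ?_, ?_⟩
      · intro h
        rw [mem_bs.1 h] at hi
        simp at hi
      · intro h
        rw [mem_bs.1 h] at hi
        simp at hi
    · exfalso
      have h9 : full.testBit i = false := by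
        by_contra h
        exact hiN ((hf i).1 (mem_bs.2 (by simpa using h)))
      rw [h9] at hi
      apply hiN
      apply hsub
      rw [mem_bs, mem_bs]
      simpa using hi
  · intro d hd hdX hdO
    refine goR_sound hB hf hK t X O _ P h ?_ hsub ?_ d hd hdX hdO ?_
    · rw [disjoint_iff_inter_eq_empty, ← bs_land, h3', bs_zero]
    · intro l hl hd'
      have h7 := List.all_eq_true.1 h6 l hl
      simp only [Bool.and_eq_true, Bool.not_eq_true', Bool.or_eq_true] at h7
      rcases h7 with h7 | h7 | h7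
      · exact absurd hd' (land_zero h7)
      · have := cntD_card (Nat.le_of_ble_eq_true h7)
        exact ⟨by omega, fun h => by omega⟩
      · have := cntD_card (Nat.le_of_ble_eq_true h7.1)
        exact ⟨this, fun _ => memL_sound _ _ h7.2⟩
    · rw [mem_bs, hxor, mem_bs.1 ((hf d).2 hd)]
      rw [mem_bs, Bool.not_eq_true] at hdX hdO
      rw [hdX, hdO]
      rfl

theorem FR.sym {N : ℕ} {L : List ℕ} (hL : ∀ l ∈ L, ∀ i ∈ bs l, i < N) {σ τ : List ℕ}
    (hs : symOK N L σ τ = true) {A B : Finset ℕ} (hA : (A : Set ℕ) ⊆ cellsN N)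
    (hB : (B : Set ℕ) ⊆ cellsN N) (h : FR (cellsN N) (Won L) A B) :
    FR (cellsN N) (Won L) (A.image (ap σ)) (B.image (ap σ)) := by
  have hs' := hs
  rw [symOK, Bool.and_eq_true] at hs'
  have hσ : ∀ i < N, ap σ i < N ∧ ap τ (ap σ i) = i ∧ ap τ i < N ∧ ap σ (ap τ i) = i := by
    intro i hi
    have := List.all_eq_true.1 hs'.1 i (List.mem_range.2 hi)
    simp only [Bool.and_eq_true] at this
    exact ⟨Nat.le_of_ble_eq_true this.1, Nat.eq_of_beq_eq_true this.2.1,
      Nat.le_of_ble_eq_true this.2.2.1, Nat.eq_of_beq_eq_true this.2.2.2⟩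
  have hm : ∀ (A : Finset ℕ) (c : ℕ), (A : Set ℕ) ⊆ cellsN N → c < N →
      (ap σ c ∈ A.image (ap σ) ↔ c ∈ A) := by
    intro A c hA hc
    constructor
    · intro h
      obtain ⟨x, hx, hxc⟩ := mem_image.1 h
      rw [← (hσ c hc).2.1, ← hxc, (hσ x (hA hx)).2.1]
      exact hx
    · exact fun h => mem_image_of_mem _ h
  obtain ⟨⟨d, hd, hdA, hdB⟩, h2⟩ := h
  constructor
  · exact ⟨ap σ d, (hσ d hd).1, by rwa [hm A d hA hd], by rwa [hm B d hB hd]⟩
  · intro e he heA heB
    have he' := (hσ e he).2.2.1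
    have hee := (hσ e he).2.2.2
    rw [← hee] at heA heB ⊢
    rw [hm A _ hA he'] at heA
    rw [hm B _ hB he'] at heB
    rw [← image_insert]
    refine (h2 _ he' heA heB).sym hL hs hA ?_
    intro x hx
    rcases mem_insert.1 hx with rfl | h
    · exact he'
    · exact hB h

/-- Apply a word in the symmetries to a triple of cells. -/
def apt (G : List (List ℕ)) : List ℕ → ℕ × ℕ × ℕ → ℕ × ℕ × ℕ
  | [], p => p
  | g :: w, p => apt G w (ap (G.getD g []) p.1, ap (G.getD g []) p.2.1, ap (G.getD g []) p.2.2)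

theorem FR.word {N : ℕ} {L : List ℕ} (hL : ∀ l ∈ L, ∀ i ∈ bs l, i < N) {G : List (List ℕ)}
    (hG : ∀ σ ∈ G, ∃ τ, symOK N L σ τ = true) (w : List ℕ) :
    ∀ p : ℕ × ℕ × ℕ, p.1 < N → p.2.1 < N → p.2.2 < N → (∀ g ∈ w, g < G.length) →
      FR (cellsN N) (Won L) {p.1, p.2.1} {p.2.2} →
      FR (cellsN N) (Won L) {(apt G w p).1, (apt G w p).2.1} {(apt G w p).2.2} := by
  induction w with
  | nil => intro p _ _ _ _ h; exact h
  | cons g w ih =>
    intro p hp1 hp2 hp3 hg h
    have hgl := hg g List.mem_cons_self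
    have hmem : G.getD g [] ∈ G := by
      rw [List.getD_eq_getElem _ _ hgl]
      exact List.getElem_mem hgl
    obtain ⟨τ, hτ⟩ := hG _ hmem
    have hlt : ∀ i < N, ap (G.getD g []) i < N := by
      intro i hi
      have h1 := hτ
      rw [symOK, Bool.and_eq_true] at h1
      have := List.all_eq_true.1 h1.1 i (List.mem_range.2 hi)
      simp only [Bool.and_eq_true] at this
      exact Nat.le_of_ble_eq_true this.1
    refine ih _ (hlt _ hp1) (hlt _ hp2) (hlt _ hp3)
      (fun g hg' => hg g (List.mem_cons_of_mem _ hg')) ?_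
    have h2 := h.sym hL hτ (A := {p.1, p.2.1}) (B := {p.2.2}) (by
      intro x hx
      simp only [coe_insert, coe_singleton, Set.mem_insert_iff, Set.mem_singleton_iff] at hx
      rcases hx with rfl | rfl
      · exact hp1
      · exact hp2) (by
      intro x hx
      rw [coe_singleton, Set.mem_singleton_iff] at hx
      rw [hx]; exact hp3)
    rw [image_insert, image_singleton, image_singleton] at h2
    exact h2

/-- The last step: the first player starts with `r`; an entry `(d, c, i, w)` says that after the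
answer `d` he plays `c`, and that the position is the image under the word `w` of the `i`-th known
position. -/
noncomputable def rootOK (N : ℕ) (G : List (List ℕ)) (R : List (ℕ × ℕ × ℕ)) (r : ℕ)
    (E : List (ℕ × ℕ × ℕ × List ℕ)) : Bool :=
  ((List.range N).all fun d => Nat.beq d r || E.any fun e => Nat.beq e.1 d) &&
  (E.all fun e => (e.2.2.2.all fun g => Nat.ble (g + 1) G.length) &&
    (Nat.ble (e.2.2.1 + 1) R.length &&
    (Nat.ble (e.2.1 + 1) N && (!(Nat.beq e.2.1 r) && (!(Nat.beq e.2.1 e.1) &&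
      (let q := apt G e.2.2.2 (R.getD e.2.2.1 (0, 0, 0))
       Nat.beq q.2.2 e.1 && ((Nat.beq q.1 r && Nat.beq q.2.1 e.2.1) ||
         (Nat.beq q.1 e.2.1 && Nat.beq q.2.1 r))))))))

theorem fw_root {N : ℕ} {L : List ℕ} (hN : 2 < N) (hL : ∀ l ∈ L, ∀ i ∈ bs l, i < N)
    (hL2 : ∀ l ∈ L, 2 ≤ (bs l).card)
    {G : List (List ℕ)}
    (hG : ∀ σ ∈ G, ∃ τ, symOK N L σ τ = true) (R : List (ℕ × ℕ × ℕ))
    (hR : ∀ p ∈ R, p.1 < N ∧ p.2.1 < N ∧ p.2.2 < N ∧
      FR (cellsN N) (Won L) {p.1, p.2.1} {p.2.2}) (r : ℕ) (hr : r < N)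
    (E : List (ℕ × ℕ × ℕ × List ℕ)) (h : rootOK N G R r E = true) :
    FW (cellsN N) (Won L) ∅ ∅ := by
  have hsmall : ∀ B : Finset ℕ, B.card ≤ 1 → ¬ Won L B := by
    rintro B hB ⟨l, hl, hs⟩
    have := card_le_card hs
    have := hL2 l hl
    omega
  rw [rootOK, Bool.and_eq_true] at h
  refine .step _ _ r (hsmall _ (by simp)) hr (by simp) (by simp) ?_ ?_
  · by_cases h0 : r = 0
    · exact ⟨1, by show 1 < N; omega, by simp [h0], by simp⟩
    · exact ⟨0, by show 0 < N; omega, by simp [Ne.symm h0], by simp⟩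
  · intro d hd hdr _
    have hdr' : d ≠ r := by simpa using hdr
    have h1 := List.all_eq_true.1 h.1 d (List.mem_range.2 hd)
    rw [Bool.or_eq_true] at h1
    rcases h1 with h1 | h1
    · exact absurd (Nat.eq_of_beq_eq_true h1) hdr'
    · obtain ⟨⟨e1, c, i, w⟩, he, hed⟩ := List.any_eq_true.1 h1
      have hed' : e1 = d := Nat.eq_of_beq_eq_true hed
      subst hed'
      have h2 := List.all_eq_true.1 h.2 _ he
      simp only [Bool.and_eq_true, Bool.not_eq_true', Bool.or_eq_true] at h2
      obtain ⟨h3, h4, h5, h6, h7, h8, h9⟩ := h2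
      have hi : i < R.length := Nat.le_of_ble_eq_true h4
      have hmem : R.getD i (0, 0, 0) ∈ R := by
        rw [List.getD_eq_getElem _ _ hi]
        exact List.getElem_mem hi
      obtain ⟨r1, r2, r3, r4⟩ := hR _ hmem
      have hw : ∀ g ∈ w, g < G.length := by
        intro g hg
        exact Nat.le_of_ble_eq_true (List.all_eq_true.1 h3 g hg)
      have h10 := FR.word hL hG w _ r1 r2 r3 hw r4
      have hcr : c ≠ r := by
        rintro rfl
        simp at h6
      have hcd : c ≠ e1 := by
        rintro rfl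
        simp at h7
      have h11 : FR (cellsN N) (Won L) {c, r} {e1} := by
        rw [Nat.eq_of_beq_eq_true h8] at h10
        rcases h9 with ⟨h9, h12⟩ | ⟨h9, h12⟩
        · rw [Nat.eq_of_beq_eq_true h9, Nat.eq_of_beq_eq_true h12, Finset.pair_comm] at h10
          exact h10
        · rw [Nat.eq_of_beq_eq_true h9, Nat.eq_of_beq_eq_true h12] at h10
          exact h10
      have h13 : FW (cellsN N) (Won L) {r} {e1} := by
        refine .step _ _ c (hsmall _ (by simp)) (Nat.le_of_ble_eq_true h5) (by simpa using hcr)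
          (by simpa using hcd) h11.1 h11.2
      simpa using h13

end Pool.Agent.TTT
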