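import Pool.Agent.TTT.Local
import Pool.Agent.TTT.Root

/-!
One adaptive round: Breaker answers the first move of Maker, and plays locally after that; the
symmetries of the board reduce the first moves to a few cases.
-/

set_option autoImplicit false

namespace Pool.Agent.TTT

open Finset

/-- After the moves `c` and `d`, each surviving line contains a mask of the list. -/
def covR (L : List ℕ) (c d : ℕ) (Ms : List ℕ) : Bool :=
  L.all fun l => Nat.testBit l d ||
    Ms.any (fun m => Nat.beq (Nat.land m l) m && !(Nat.testBit m c))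

theorem round_base {L Ms : List ℕ} {c d : ℕ} (hcd : c ≠ d) (h : BW (fam Ms))
    (hc : covR L c d Ms = true) : BW (kill d (play c (fam L))) := by
  refine h.mono ?_
  rintro e ⟨⟨f, ⟨l, hl, rfl⟩, rfl⟩, hd⟩
  have h1 := List.all_eq_true.1 hc l hl
  rw [Bool.or_eq_true] at h1
  rcases h1 with h1 | h1
  · exact absurd (mem_erase.2 ⟨fun h => hcd h.symm, mem_bs.2 h1⟩) hd
  · obtain ⟨m, hm, hmm⟩ := List.any_eq_true.1 h1
    rw [Bool.and_eq_true] at hmm
    refine ⟨bs m, ⟨m, hm, rfl⟩, ?_⟩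
    have h6 := Nat.eq_of_beq_eq_true hmm.1
    intro i hi
    rw [mem_erase]
    constructor
    · rintro rfl
      have h8 := mem_bs.1 hi
      have h9 := hmm.2
      rw [h8] at h9
      exact absurd h9 (by simp)
    · have h7 : i ∈ bs (Nat.land m l) := by rw [h6]; exact hi
      rw [bs_land, mem_inter] at h7
      exact h7.2

theorem BW.symRound {N : ℕ} {L : List ℕ} (hL : ∀ l ∈ L, ∀ i ∈ bs l, i < N) {σ τ : List ℕ}
    (hs : symOK N L σ τ = true) {c d : ℕ} (hc : c < N) (hd : d < N)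
    (h : BW (kill d (play c (fam L)))) :
    BW (kill (ap σ d) (play (ap σ c) (fam L))) := by
  rw [symOK, Bool.and_eq_true] at hs
  obtain ⟨h1, h2⟩ := hs
  have hσ : ∀ i < N, ap σ i < N ∧ ap τ (ap σ i) = i ∧ ap τ i < N ∧ ap σ (ap τ i) = i := by
    intro i hi
    have := List.all_eq_true.1 h1 i (List.mem_range.2 hi)
    simp only [Bool.and_eq_true] at this
    exact ⟨Nat.le_of_ble_eq_true this.1, Nat.eq_of_beq_eq_true this.2.1,
      Nat.le_of_ble_eq_true this.2.2.1, Nat.eq_of_beq_eq_true this.2.2.2⟩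
  have hlσ : ∀ l ∈ L, (∃ l' ∈ L, bs l' = (bs l).image (ap σ)) ∧
      (∃ l' ∈ L, bs l' = (bs l).image (ap τ)) := by
    intro l hl
    have := List.all_eq_true.1 h2 l hl
    rw [Bool.and_eq_true] at this
    exact ⟨⟨_, memL_sound _ _ this.1, image_mask (hL l hl) σ⟩,
      ⟨_, memL_sound _ _ this.2, image_mask (hL l hl) τ⟩⟩
  have hinj : ∀ i < N, ∀ j < N, ap τ i = ap τ j → i = j := by
    intro i hi j hj hij
    rw [← (hσ i hi).2.2.2, ← (hσ j hj).2.2.2, hij]
  refine h.comap (ap τ) {i | i < N} ?_ ?_ ?_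
  · intro i hi j hj hij
    exact hinj i hi j hj hij
  · rintro e ⟨⟨f, ⟨l, hl, rfl⟩, rfl⟩, -⟩ i hi
    exact hL l hl i (mem_of_mem_erase hi)
  · rintro e ⟨⟨f, ⟨l, hl, rfl⟩, rfl⟩, hde⟩
    obtain ⟨l', hl', he⟩ := (hlσ l hl).2
    have him : ((bs l).erase (ap σ c)).image (ap τ) = (bs l').erase c := by
      rw [he]
      ext j
      simp only [mem_image, mem_erase]
      constructor
      · rintro ⟨i, ⟨hi1, hi2⟩, rfl⟩
        refine ⟨?_, i, hi2, rfl⟩
        intro h
        apply hi1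
        have hiN := hL l hl i hi2
        rw [← h, (hσ i hiN).2.2.2]
      · rintro ⟨hj, i, hi, rfl⟩
        refine ⟨i, ⟨?_, hi⟩, rfl⟩
        rintro rfl
        exact hj (hσ c hc).2.1
    refine ⟨(bs l').erase c, ⟨⟨bs l', ⟨l', hl', rfl⟩, rfl⟩, ?_⟩, by rw [him]⟩
    intro hd'
    rw [← him, mem_image] at hd'
    obtain ⟨i, hi, hid⟩ := hd'
    have hiN := hL l hl i (mem_of_mem_erase hi)
    apply hde
    rw [← hid, (hσ i hiN).2.2.2]
    exact hi

theorem BW.wordRound {N : ℕ} {L : List ℕ} (hL : ∀ l ∈ L, ∀ i ∈ bs l, i < N) {G : List (List ℕ)}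
    (hG : ∀ σ ∈ G, ∃ τ, symOK N L σ τ = true) : ∀ (w : List ℕ) (c d : ℕ), c < N → d < N →
    w.all (fun g => Nat.ble (g + 1) G.length) = true →
    BW (kill d (play c (fam L))) →
    BW (kill (apw G w (c, d)).2 (play (apw G w (c, d)).1 (fam L))) := by
  intro w
  induction w with
  | nil => intro c d _ _ _ h; exact h
  | cons g w ih =>
    intro c d hc hd hw h
    rw [List.all_cons, Bool.and_eq_true] at hw
    have hg : g < G.length := Nat.le_of_ble_eq_true hw.1
    have hmem : G.getD g [] ∈ G := by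
      rw [List.getD_eq_getElem _ _ hg]
      exact List.getElem_mem hg
    obtain ⟨τ, hτ⟩ := hG _ hmem
    have hb : ∀ i < N, ap (G.getD g []) i < N := by
      intro i hi
      rw [symOK, Bool.and_eq_true] at hτ
      have := List.all_eq_true.1 hτ.1 i (List.mem_range.2 hi)
      simp only [Bool.and_eq_true] at this
      exact Nat.le_of_ble_eq_true this.1
    exact ih _ _ (hb c hc) (hb d hd) hw.2 (BW.symRound hL hτ hc hd h)

/-- The table of answers covers all first moves. -/
def tabOK (N : ℕ) (G : List (List ℕ)) (K : List (ℕ × ℕ)) (E : List (ℕ × List ℕ)) : Bool :=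
  (List.range N).all fun c => E.any fun e =>
    Nat.ble (e.1 + 1) K.length && (e.2.all (fun g => Nat.ble (g + 1) G.length) &&
      Nat.beq (apw G e.2 (K.getD e.1 (0, 0))).1 c)

theorem round_all {N : ℕ} {L : List ℕ} (hL : ∀ l ∈ L, ∀ i ∈ bs l, i < N) (h0 : ∀ l ∈ L, l ≠ 0)
    {G : List (List ℕ)} (hG : ∀ σ ∈ G, ∃ τ, symOK N L σ τ = true) (K : List (ℕ × ℕ))
    (hK : ∀ p ∈ K, p.1 < N ∧ p.2 < N ∧ BW (kill p.2 (play p.1 (fam L))))
    (E : List (ℕ × List ℕ)) (hE : tabOK N G K E = true) : BW (fam L) := by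
  refine BW.intro ?_ ?_
  · rintro ⟨l, hl, hle⟩
    apply h0 l hl
    apply Nat.eq_of_testBit_eq
    intro i
    rw [Nat.zero_testBit]
    by_contra hi
    have : i ∈ bs l := mem_bs.2 (by simpa using hi)
    rw [← hle] at this
    exact absurd this (by simp)
  · rintro c ⟨e, ⟨l, hl, rfl⟩, hce⟩
    have hcN := hL l hl c hce
    obtain ⟨e, -, he⟩ := List.any_eq_true.1 (List.all_eq_true.1 hE c (List.mem_range.2 hcN))
    simp only [Bool.and_eq_true] at he
    have h1 : e.1 < K.length := Nat.le_of_ble_eq_true he.1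
    have hmem : K.getD e.1 (0, 0) ∈ K := by
      rw [List.getD_eq_getElem _ _ h1]
      exact List.getElem_mem h1
    obtain ⟨h2, h3, h4⟩ := hK _ hmem
    have h5 := BW.wordRound hL hG e.2 _ _ h2 h3 he.2.1 h4
    rw [Prod.mk.eta, Nat.eq_of_beq_eq_true he.2.2] at h5
    exact ⟨_, h5⟩

end Pool.Agent.TTT
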