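import Pool.Agent.TTT.Draw3

/-!
The small boards.
-/

set_option autoImplicit false
set_option maxRecDepth 100000

namespace Pool.Agent.TTT

namespace S22

/-- The lines of `[2]^2`. -/
def lines : List ℕ := [3, 5, 6, 9, 10, 12]

/-- The table of the lines through the cells. -/
def tab : BT := (.nd (.nd (.lf [⟨2, 3, [], []⟩, ⟨4, 5, [], []⟩, ⟨8, 9, [], []⟩]) (.lf [⟨1, 5, [], []⟩, ⟨2, 6, [], []⟩, ⟨8, 12, [], []⟩])) (.nd (.lf [⟨1, 3, [], []⟩, ⟨4, 6, [], []⟩, ⟨8, 10, [], []⟩]) (.lf [⟨1, 9, [], []⟩, ⟨2, 10, [], []⟩, ⟨4, 12, [], []⟩])))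

/-- The board. -/
def full : ℕ := 15

/-- The certificate. -/
def cert : Ct := (.str 0 (.rp 3 (.imm 1) (.rp 2 (.imm 1) (.rp 1 (.imm 2) .nd))))

theorem board : Board 4 lines tab := board_of_ok (by decide +kernel)

theorem win : FW (cellsN 4) (Won lines) ∅ ∅ :=
  root_sound (K := []) board (full := full) (by decide +kernel) (by simp) cert lines (by decide +kernel)
    (by decide +kernel)

theorem eq : eq2 2 lines = true := by decide +kernel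

end S22

namespace S23

/-- The lines of `[2]^3`. -/
def lines : List ℕ := [3, 5, 6, 9, 10, 12, 17, 18, 20, 24, 33, 34, 36, 40, 48, 65, 66, 68, 72, 80, 96, 129, 130, 132, 136, 144, 160, 192]

/-- The table of the lines through the cells. -/
def tab : BT := (.nd (.nd (.nd (.lf [⟨2, 3, [], []⟩, ⟨4, 5, [], []⟩, ⟨8, 9, [], []⟩, ⟨16, 17, [], []⟩, ⟨32, 33, [], []⟩, ⟨64, 65, [], []⟩, ⟨128, 129, [], []⟩]) (.lf [⟨1, 17, [], []⟩, ⟨2, 18, [], []⟩, ⟨4, 20, [], []⟩, ⟨8, 24, [], []⟩, ⟨32, 48, [], []⟩, ⟨64, 80, [], []⟩, ⟨128, 144, [], []⟩])) (.nd (.lf [⟨1, 5, [], []⟩, ⟨2, 6, [], []⟩, ⟨8, 12, [], []⟩, ⟨16, 20, [], []⟩, ⟨32, 36, [], []⟩, ⟨64, 68, [], []⟩, ⟨128, 132, [], []⟩]) (.lf [⟨1, 65, [], []⟩, ⟨2, 66, [], []⟩, ⟨4, 68, [], []⟩, ⟨8, 72, [], []⟩, ⟨16, 80, [], []⟩, ⟨32, 96, [], []⟩, ⟨128, 192, [], []⟩]))) (.nd (.nd (.lf [⟨1, 3, [], []⟩, ⟨4, 6, [],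 []⟩, ⟨8, 10, [], []⟩, ⟨16, 18, [], []⟩, ⟨32, 34, [], []⟩, ⟨64, 66, [], []⟩, ⟨128, 130, [], []⟩]) (.lf [⟨1, 33, [], []⟩, ⟨2, 34, [], []⟩, ⟨4, 36, [], []⟩, ⟨8, 40, [], []⟩, ⟨16, 48, [], []⟩, ⟨64, 96, [], []⟩, ⟨128, 160, [], []⟩])) (.nd (.lf [⟨1, 9, [], []⟩, ⟨2, 10, [], []⟩, ⟨4, 12, [], []⟩, ⟨16, 24, [], []⟩, ⟨32, 40, [], []⟩, ⟨64, 72, [], []⟩, ⟨128, 136, [], []⟩]) (.lf [⟨1, 129, [], []⟩, ⟨2, 130, [], []⟩, ⟨4, 132, [], []⟩, ⟨8, 136, [], []⟩, ⟨16, 144, [], []⟩, ⟨32, 160, [], []⟩, ⟨64, 192, [], []⟩]))))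

/-- The board. -/
def full : ℕ := 255

/-- The certificate. -/
def cert : Ct := (.str 0 (.rp 7 (.imm 1) (.rp 6 (.imm 1) (.rp 5 (.imm 1) (.rp 4 (.imm 1) (.rp 3 (.imm 1) (.rp 2 (.imm 1) (.rp 1 (.imm 2) .nd))))))))

theorem board : Board 8 lines tab := board_of_ok (by decide +kernel)

theorem win : FW (cellsN 8) (Won lines) ∅ ∅ :=
  root_sound (K := []) board (full := full) (by decide +kernel) (by simp) cert lines (by decide +kernel)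
    (by decide +kernel)

theorem eq : eq3 2 lines = true := by decide +kernel

end S23

namespace S33

/-- The lines of `[3]^3`. -/
def lines : List ℕ := [7, 56, 73, 84, 146, 273, 292, 448, 3584, 28672, 37376, 43008, 74752, 139776, 149504, 229376, 262657, 263172, 266304, 270592, 525314, 532608, 1049601, 1050628, 1056832, 1065216, 1835008, 2101256, 2105376, 4202512, 8396808, 8405024, 14680064, 16781313, 16785412, 16810048, 16843008, 19136512, 22020096, 33562626, 33620096, 38273024, 67117057, 67125252, 67174464, 67240192, 71565312, 76546048, 117440512]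

/-- The table of the lines through the cells. -/
def tab : BT := (.nd (.nd (.nd (.nd (.nd (.lf [⟨6, 7, [], [0]⟩, ⟨72, 73, [], [0]⟩, ⟨272, 273, [], [0]⟩, ⟨262656, 262657, [], [0]⟩, ⟨1049600, 1049601, [], [0]⟩, ⟨16781312, 16781313, [], [0]⟩, ⟨67117056, 67117057, [], [0]⟩]) (.lf [⟨9216, 74752, [], [0]⟩, ⟨163840, 229376, [], [0]⟩, ⟨16777472, 16843008, [], [0]⟩, ⟨33554560, 33620096, [], [0]⟩, ⟨67108928, 67174464, [], [0]⟩])) (.nd (.lf [⟨17, 273, [], [0]⟩, ⟨36, 292, [], [0]⟩, ⟨192, 448, [], [0]⟩, ⟨270336, 270592, [], [0]⟩, ⟨1064960, 1065216, [], [0]⟩, ⟨16842752, 16843008, [], [0]⟩, ⟨67239936, 67240192, [], [0]⟩]) (.lf [⟨4097, 16781313, [], [0]⟩, ⟨8196, 16785412, [], [0]⟩, ⟨32832, 16810048, [], [0]⟩, ⟨65792, 16843008, [], [0]⟩, ⟨2359296, 19136512, [], [0]⟩, ⟨5242880, 22020096, [], [0]⟩, ⟨100663296, 117440512, [], [0]⟩]))) (.nd (.nd (.lf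 [⟨40, 56, [], [0]⟩, ⟨68, 84, [], [0]⟩, ⟨130, 146, [], [0]⟩, ⟨257, 273, [], [0]⟩, ⟨4202496, 4202512, [], [0]⟩]) (.lf [⟨1025, 1049601, [], [0]⟩, ⟨2052, 1050628, [], [0]⟩, ⟨8256, 1056832, [], [0]⟩, ⟨16640, 1065216, [], [0]⟩, ⟨786432, 1835008, [], [0]⟩, ⟨20971520, 22020096, [], [0]⟩, ⟨75497472, 76546048, [], [0]⟩])) (.nd (.lf [⟨24576, 28672, [], [0]⟩, ⟨33280, 37376, [], [0]⟩, ⟨262208, 266304, [], [0]⟩, ⟨2097160, 2101256, [], [0]⟩, ⟨16777217, 16781313, [], [0]⟩]) (.lf [])))) (.nd (.nd (.nd (.lf [⟨3, 7, [], [0]⟩, ⟨80, 84, [], [0]⟩, ⟨288, 292, [], [0]⟩, ⟨263168, 263172, [], [0]⟩, ⟨1050624, 1050628, [], [0]⟩, ⟨16785408, 16785412, [], [0]⟩, ⟨67125248, 67125252, [], [0]⟩]) (.lf [⟨513, 262657, [], [0]⟩, ⟨1028, 263172, [], [0]⟩, ⟨4160, 266304, [], [0]⟩, ⟨8448, 270592, [], [0]⟩, ⟨1572864, 1835008, [], [0]⟩, ⟨18874368, 19136512, [], [0]⟩, ⟨71303168,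 71565312, [], [0]⟩])) (.nd (.lf [⟨2560, 3584, [], [0]⟩, ⟨73728, 74752, [], [0]⟩, ⟨262148, 263172, [], [0]⟩, ⟨524290, 525314, [], [0]⟩, ⟨1048577, 1049601, [], [0]⟩]) (.lf [⟨8193, 67117057, [], [0]⟩, ⟨16388, 67125252, [], [0]⟩, ⟨65600, 67174464, [], [0]⟩, ⟨131328, 67240192, [], [0]⟩, ⟨4456448, 71565312, [], [0]⟩, ⟨9437184, 76546048, [], [0]⟩, ⟨50331648, 117440512, [], [0]⟩]))) (.nd (.nd (.lf [⟨9, 73, [], [0]⟩, ⟨20, 84, [], [0]⟩, ⟨384, 448, [], [0]⟩, ⟨266240, 266304, [], [0]⟩, ⟨1056768, 1056832, [], [0]⟩, ⟨16809984, 16810048, [], [0]⟩, ⟨67174400, 67174464, [], [0]⟩]) (.lf [⟨8208, 4202512, [], [0]⟩, ⟨10485760, 14680064, [], [0]⟩, ⟨17825792, 22020096, [], [0]⟩, ⟨34078720, 38273024, [], [0]⟩, ⟨67371008, 71565312, [], [0]⟩])) (.nd (.lf [⟨12288, 28672, [], [0]⟩, ⟨133120, 149504, [], [0]⟩, ⟨1048832, 1065216, [], [0]⟩, ⟨8388640, 8405024, [],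 [0]⟩, ⟨67108868, 67125252, [], [0]⟩]) (.lf []))))) (.nd (.nd (.nd (.nd (.lf [⟨5, 7, [], [0]⟩, ⟨144, 146, [], [0]⟩, ⟨525312, 525314, [], [0]⟩, ⟨33562624, 33562626, [], [0]⟩]) (.lf [⟨8704, 139776, [], [0]⟩, ⟨18432, 149504, [], [0]⟩, ⟨98304, 229376, [], [0]⟩, ⟨67109120, 67240192, [], [0]⟩])) (.nd (.lf [⟨3072, 3584, [], [0]⟩, ⟨36864, 37376, [], [0]⟩, ⟨139264, 139776, [], [0]⟩, ⟨262145, 262657, [], [0]⟩]) (.lf [⟨8194, 33562626, [], [0]⟩, ⟨65664, 33620096, [], [0]⟩, ⟨4718592, 38273024, [], [0]⟩, ⟨83886080, 117440512, [], [0]⟩]))) (.nd (.nd (.lf [⟨24, 56, [], [0]⟩, ⟨260, 292, [], [0]⟩, ⟨2105344, 2105376, [], [0]⟩, ⟨8404992, 8405024, [], [0]⟩]) (.lf [⟨4104, 2101256, [], [0]⟩, ⟨8224, 2105376, [], [0]⟩, ⟨12582912, 14680064, [], [0]⟩, ⟨17039360, 19136512, [], [0]⟩])) (.nd (.lf [⟨20480, 28672, [], [0]⟩, ⟨34816, 43008, [], [0]⟩, ⟨66560, 74752,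 [], [0]⟩, ⟨131584, 139776, [], [0]⟩, ⟨262400, 270592, [], [0]⟩, ⟨524416, 532608, [], [0]⟩, ⟨1048640, 1056832, [], [0]⟩, ⟨2097184, 2105376, [], [0]⟩, ⟨4194320, 4202512, [], [0]⟩, ⟨8388616, 8396808, [], [0]⟩, ⟨16777220, 16785412, [], [0]⟩, ⟨33554434, 33562626, [], [0]⟩, ⟨67108865, 67117057, [], [0]⟩]) (.lf [])))) (.nd (.nd (.nd (.lf [⟨48, 56, [], [0]⟩, ⟨65, 73, [], [0]⟩, ⟨2101248, 2101256, [], [0]⟩, ⟨8396800, 8396808, [], [0]⟩]) (.lf [⟨1026, 525314, [], [0]⟩, ⟨8320, 532608, [], [0]⟩, ⟨1310720, 1835008, [], [0]⟩, ⟨37748736, 38273024, [], [0]⟩])) (.nd (.lf [⟨1536, 3584, [], [0]⟩, ⟨40960, 43008, [], [0]⟩, ⟨147456, 149504, [], [0]⟩, ⟨1048580, 1050628, [], [0]⟩]) (.lf []))) (.nd (.nd (.lf [⟨18, 146, [], [0]⟩, ⟨320, 448, [], [0]⟩, ⟨532480, 532608, [], [0]⟩, ⟨33619968, 33620096, [], [0]⟩]) (.lf [⟨8200, 8396808, [], [0]⟩, ⟨16416, 8405024, [],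 [0]⟩, ⟨6291456, 14680064, [], [0]⟩, ⟨68157440, 76546048, [], [0]⟩])) (.nd (.lf [⟨4608, 37376, [], [0]⟩, ⟨10240, 43008, [], [0]⟩, ⟨196608, 229376, [], [0]⟩, ⟨16777280, 16810048, [], [0]⟩]) (.lf []))))))

/-- The board. -/
def full : ℕ := 134217727

/-- The certificate. -/
def cert : Ct := (.str 13 (.rp 26 (.thr 1 25 (.thr 24 2 (.thr 14 12 (.dbl 4 7 22)))) (.rp 25 (.thr 0 26 (.dbl 24 2 12)) (.rp 24 (.thr 0 26 (.thr 25 1 (.dbl 3 6 23))) (.rp 23 (.thr 0 26 (.dbl 20 6 10)) (.rp 22 (.thr 0 26 (.dbl 18 8 9)) (.rp 21 (.thr 0 26 (.dbl 1 2 25)) (.rp 20 (.thr 0 26 (.thr 23 3 (.dbl 1 2 25))) (.rp 19 (.thr 0 26 (.dbl 1 2 25)) (.rp 18 (.thr 0 26 (.thr 22 4 (.dbl 1 2 25))) (.rp 17 (.thr 0 26 (.dbl 8 4 18)) (.rp 16 (.thr 0 26 (.dbl 6 3 20)) (.rp 15 (.thr 0 26 (.dbl 1 2 25)) (.rp 14 (.thr 0 26 (.dbl 2 1 24)) (.rp 12 (.thr 0 26 (.dbl 1 2 25)) (.rp 11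 (.thr 0 26 (.dbl 1 2 25)) (.rp 10 (.thr 0 26 (.dbl 1 2 25)) (.rp 9 (.thr 0 26 (.dbl 1 2 25)) (.rp 8 (.thr 0 26 (.thr 17 9 (.dbl 1 2 25))) (.rp 7 (.thr 0 26 (.dbl 1 2 25)) (.rp 6 (.thr 0 26 (.thr 16 10 (.dbl 1 2 25))) (.rp 5 (.thr 0 26 (.dbl 1 2 25)) (.rp 4 (.thr 0 26 (.dbl 1 2 25)) (.rp 3 (.thr 0 26 (.dbl 1 2 25)) (.rp 2 (.thr 0 26 (.thr 14 12 (.dbl 3 6 23))) (.rp 1 (.thr 0 26 (.dbl 3 6 23)) (.rp 0 (.thr 1 25 (.dbl 4 7 22)) .nd)))))))))))))))))))))))))))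

theorem board : Board 27 lines tab := board_of_ok (by decide +kernel)

theorem win : FW (cellsN 27) (Won lines) ∅ ∅ :=
  root_sound (K := []) board (full := full) (by decide +kernel) (by simp) cert [] (by decide +kernel)
    (by decide +kernel)

theorem eq : eq3 3 lines = true := by decide +kernel

end S33

namespace D32

/-- The lines of `[3]^2`. -/
def lines : List ℕ := [7, 56, 73, 84, 146, 273, 292, 448]

/-- The certificate. -/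
def cert : DT := (.cons 8 4 (.cons 7 6 (.cons 5 2 .won (.cons 3 2 .won (.cons 2 5 (.cons 3 0 (.last 1 .nil) (.cons 1 3 .won (.cons 0 3 .won .nil))) (.cons 1 2 .won (.cons 0 2 .won .nil))))) (.cons 6 7 (.cons 5 1 .won (.cons 3 1 .won (.cons 2 1 .won (.cons 1 3 (.cons 5 2 (.last 0 .nil) (.cons 2 5 .won (.cons 0 5 .won .nil))) (.cons 0 1 .won .nil))))) (.cons 5 2 (.cons 7 6 .won (.cons 6 7 (.cons 3 1 .won (.cons 1 0 (.last 3 .nil) (.cons 0 1 .won .nil))) (.cons 3 6 .won (.cons 1 6 .won (.cons 0 6 .won .nil))))) (.cons 3 1 (.cons 7 6 (.cons 5 2 .won (.cons 2 5 (.last 0 .nil) (.cons 0 2 .won .nil))) (.cons 6 7 .won (.cons 5 7 .won (.cons 2 7 .won (.cons 0 7 .won .nil))))) (.cons 2 5 (.cons 7 3 .won (.cons 6 3 .won (.cons 3 1 (.cons 7 6 (.last 0 .nil) (.cons 6 7 .won (.cons 0 7 .won .nil))) (.cons 1 3 .won (.cons 0 3 .won .nil))))) (.cons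 1 3 (.cons 7 5 .won (.cons 6 5 .won (.cons 5 2 (.cons 7 6 .won (.cons 6 7 (.last 0 .nil) (.cons 0 6 .won .nil))) (.cons 2 5 .won (.cons 0 5 .won .nil))))) (.cons 0 1 (.cons 7 6 (.cons 5 2 .won (.cons 3 2 .won (.cons 2 5 (.last 3 .nil) .nil))) (.cons 6 7 .won (.cons 5 7 .won (.cons 3 7 .won (.cons 2 7 .won .nil))))) .nil))))))) (.cons 7 4 (.cons 8 6 (.cons 5 2 .won (.cons 3 2 .won (.cons 2 5 (.cons 3 0 (.last 1 .nil) (.cons 1 3 .won (.cons 0 3 .won .nil))) (.cons 1 2 .won (.cons 0 2 .won .nil))))) (.cons 6 8 (.cons 5 0 .won (.cons 3 0 .won (.cons 2 0 .won (.cons 1 0 .won (.cons 0 3 (.cons 5 1 (.last 2 .nil) (.cons 2 5 .won (.cons 1 5 .won .nil))) .nil))))) (.cons 5 2 (.cons 8 6 .won (.cons 6 8 (.cons 3 0 .won (.cons 1 0 .won (.cons 0 3 (.last 1 .nil) .nil))) (.cons 3 6 .won (.cons 1 6 .won (.cons 0 6 .won .nil))))) (.cons 3 0 (.cons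 8 6 (.cons 5 2 .won (.cons 2 5 (.last 1 .nil) (.cons 1 2 .won .nil))) (.cons 6 8 .won (.cons 5 8 .won (.cons 2 8 .won (.cons 1 8 .won .nil))))) (.cons 2 3 (.cons 8 5 .won (.cons 6 5 .won (.cons 5 8 (.cons 6 0 .won (.cons 1 0 .won (.cons 0 1 (.last 6 .nil) .nil))) (.cons 1 5 .won (.cons 0 5 .won .nil))))) (.cons 1 0 (.cons 8 6 (.cons 5 2 .won (.cons 3 2 .won (.cons 2 3 .won .nil))) (.cons 6 8 .won (.cons 5 8 .won (.cons 3 8 .won (.cons 2 8 .won .nil))))) (.cons 0 3 (.cons 8 5 .won (.cons 6 5 .won (.cons 5 2 (.cons 8 6 .won (.cons 6 8 (.last 1 .nil) (.cons 1 6 .won .nil))) (.cons 2 5 .won (.cons 1 5 .won .nil))))) .nil))))))) (.cons 6 4 (.cons 8 7 (.cons 5 1 .won (.cons 3 1 .won (.cons 2 1 .won (.cons 1 3 (.cons 5 2 (.last 0 .nil) (.cons 2 5 .won (.cons 0 5 .won .nil))) (.cons 0 1 .won .nil))))) (.cons 7 8 (.cons 5 0 .won (.cons 3 0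 .won (.cons 2 0 .won (.cons 1 0 .won (.cons 0 3 (.cons 5 1 (.last 2 .nil) (.cons 2 5 .won (.cons 1 5 .won .nil))) .nil))))) (.cons 5 1 (.cons 8 7 .won (.cons 7 8 (.cons 3 0 .won (.cons 2 0 .won (.cons 0 3 (.last 2 .nil) .nil))) (.cons 3 7 .won (.cons 2 7 .won (.cons 0 7 .won .nil))))) (.cons 3 0 (.cons 8 7 (.cons 5 1 .won (.cons 2 1 .won (.cons 1 2 (.last 5 .nil) .nil))) (.cons 7 8 .won (.cons 5 8 .won (.cons 2 8 .won (.cons 1 8 .won .nil))))) (.cons 2 1 (.cons 8 7 .won (.cons 7 8 (.cons 5 0 .won (.cons 3 0 .won (.cons 0 3 (.last 5 .nil) .nil))) (.cons 5 7 .won (.cons 3 7 .won (.cons 0 7 .won .nil))))) (.cons 1 3 (.cons 8 5 .won (.cons 7 5 .won (.cons 5 8 (.cons 7 0 .won (.cons 2 0 .won (.cons 0 2 (.last 7 .nil) .nil))) (.cons 2 5 .won (.cons 0 5 .won .nil))))) (.cons 0 3 (.cons 8 5 .won (.cons 7 5 .won (.cons 5 1 (.cons 8 7 .won (.cons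 7 8 (.last 2 .nil) (.cons 2 7 .won .nil))) (.cons 2 5 .won (.cons 1 5 .won .nil))))) .nil))))))) (.cons 5 4 (.cons 8 2 (.cons 7 6 .won (.cons 6 7 (.cons 3 1 .won (.cons 1 0 (.last 3 .nil) (.cons 0 1 .won .nil))) (.cons 3 6 .won (.cons 1 6 .won (.cons 0 6 .won .nil))))) (.cons 7 2 (.cons 8 6 .won (.cons 6 8 (.cons 3 0 .won (.cons 1 0 .won (.cons 0 3 (.last 1 .nil) .nil))) (.cons 3 6 .won (.cons 1 6 .won (.cons 0 6 .won .nil))))) (.cons 6 1 (.cons 8 7 .won (.cons 7 8 (.cons 3 0 .won (.cons 2 0 .won (.cons 0 3 (.last 2 .nil) .nil))) (.cons 3 7 .won (.cons 2 7 .won (.cons 0 7 .won .nil))))) (.cons 3 0 (.cons 8 2 (.cons 7 1 .won (.cons 6 1 .won (.cons 1 6 .won .nil))) (.cons 7 8 .won (.cons 6 8 .won (.cons 2 8 .won (.cons 1 8 .won .nil))))) (.cons 2 8 (.cons 7 0 .won (.cons 6 0 .won (.cons 3 0 .won (.cons 1 0 .won (.cons 0 1 (.cons 7 3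 (.last 6 .nil) (.cons 6 7 .won (.cons 3 7 .won .nil))) .nil))))) (.cons 1 0 (.cons 8 2 (.cons 7 6 .won (.cons 6 7 (.last 3 .nil) (.cons 3 6 .won .nil))) (.cons 7 8 .won (.cons 6 8 .won (.cons 3 8 .won (.cons 2 8 .won .nil))))) (.cons 0 1 (.cons 8 7 .won (.cons 7 6 (.cons 8 2 .won (.cons 3 2 .won (.cons 2 8 (.last 3 .nil) .nil))) (.cons 6 7 .won (.cons 3 7 .won (.cons 2 7 .won .nil))))) .nil))))))) (.cons 4 0 (.cons 8 2 (.cons 7 1 .won (.cons 6 1 .won (.cons 5 1 .won (.cons 3 1 .won (.cons 1 7 (.cons 6 3 (.last 5 .nil) (.cons 5 3 (.last 6 .nil) (.cons 3 5 (.last 6 .nil) .nil))) .nil))))) (.cons 7 1 (.cons 8 2 .won (.cons 6 2 .won (.cons 5 2 .won (.cons 3 2 .won (.cons 2 6 (.cons 8 3 .won (.cons 5 3 .won (.cons 3 5 (.last 8 .nil) .nil))) .nil))))) (.cons 6 2 (.cons 8 1 .won (.cons 7 1 .won (.cons 5 1 .won (.cons 3 1 .won (.cons 1 7 (.cons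 8 3 (.last 5 .nil) (.cons 5 3 (.last 8 .nil) (.cons 3 5 (.last 8 .nil) .nil))) .nil))))) (.cons 5 3 (.cons 8 6 .won (.cons 7 6 .won (.cons 6 2 (.cons 8 1 .won (.cons 7 1 .won (.cons 1 7 (.last 8 .nil) .nil))) (.cons 2 6 .won (.cons 1 6 .won .nil))))) (.cons 3 5 (.cons 8 1 (.cons 7 2 .won (.cons 6 2 .won (.cons 2 6 (.last 7 .nil) .nil))) (.cons 7 1 (.cons 8 2 .won (.cons 6 2 .won (.cons 2 6 (.last 8 .nil) .nil))) (.cons 6 2 (.cons 8 1 .won (.cons 7 1 .won (.cons 1 8 .won .nil))) (.cons 2 6 (.cons 8 1 (.last 7 .nil) (.cons 7 1 (.last 8 .nil) (.cons 1 7 (.last 8 .nil) .nil))) (.cons 1 7 (.cons 8 2 (.last 6 .nil) (.cons 6 2 (.last 8 .nil) (.cons 2 6 (.last 8 .nil) .nil))) .nil))))) (.cons 2 6 (.cons 8 3 .won (.cons 7 3 .won (.cons 5 3 .won (.cons 3 5 (.cons 8 1 (.last 7 .nil) (.cons 7 1 (.last 8 .nil) (.cons 1 7 (.last 8 .nil) .nil)))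 (.cons 1 3 .won .nil))))) (.cons 1 7 (.cons 8 3 (.cons 6 2 (.last 5 .nil) (.cons 5 6 .won (.cons 2 6 .won .nil))) (.cons 6 2 (.cons 8 3 (.last 5 .nil) (.cons 5 3 (.last 8 .nil) (.cons 3 5 (.last 8 .nil) .nil))) (.cons 5 3 (.cons 8 6 .won (.cons 6 2 (.last 8 .nil) (.cons 2 6 .won .nil))) (.cons 3 5 (.cons 8 2 (.last 6 .nil) (.cons 6 2 (.last 8 .nil) (.cons 2 6 (.last 8 .nil) .nil))) (.cons 2 6 (.cons 8 3 .won (.cons 5 3 .won (.cons 3 8 .won .nil))) .nil))))) .nil))))))) (.cons 3 4 (.cons 8 1 (.cons 7 6 (.cons 5 2 .won (.cons 2 5 (.last 0 .nil) (.cons 0 2 .won .nil))) (.cons 6 7 .won (.cons 5 7 .won (.cons 2 7 .won (.cons 0 7 .won .nil))))) (.cons 7 0 (.cons 8 6 (.cons 5 2 .won (.cons 2 5 (.last 1 .nil) (.cons 1 2 .won .nil))) (.cons 6 8 .won (.cons 5 8 .won (.cons 2 8 .won (.cons 1 8 .won .nil))))) (.cons 6 0 (.cons 8 7 (.cons 5 1 .won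 (.cons 2 1 .won (.cons 1 2 (.last 5 .nil) .nil))) (.cons 7 8 .won (.cons 5 8 .won (.cons 2 8 .won (.cons 1 8 .won .nil))))) (.cons 5 0 (.cons 8 2 (.cons 7 1 .won (.cons 6 1 .won (.cons 1 6 .won .nil))) (.cons 7 8 .won (.cons 6 8 .won (.cons 2 8 .won (.cons 1 8 .won .nil))))) (.cons 2 1 (.cons 8 7 .won (.cons 7 8 (.cons 6 0 .won (.cons 5 0 .won (.cons 0 6 (.last 5 .nil) .nil))) (.cons 6 7 .won (.cons 5 7 .won (.cons 0 7 .won .nil))))) (.cons 1 0 (.cons 8 2 (.cons 7 6 .won (.cons 6 7 (.last 5 .nil) (.cons 5 6 .won .nil))) (.cons 7 8 .won (.cons 6 8 .won (.cons 5 8 .won (.cons 2 8 .won .nil))))) (.cons 0 6 (.cons 8 2 .won (.cons 7 2 .won (.cons 5 2 .won (.cons 2 1 (.cons 8 7 .won (.cons 7 5 (.last 8 .nil) (.cons 5 7 .won .nil))) (.cons 1 2 .won .nil))))) .nil))))))) (.cons 2 4 (.cons 8 5 (.cons 7 3 .won (.cons 6 3 .won (.cons 3 1 (.cons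 7 6 (.last 0 .nil) (.cons 6 7 .won (.cons 0 7 .won .nil))) (.cons 1 3 .won (.cons 0 3 .won .nil))))) (.cons 7 3 (.cons 8 5 .won (.cons 6 5 .won (.cons 5 8 (.cons 6 0 .won (.cons 1 0 .won (.cons 0 1 (.last 6 .nil) .nil))) (.cons 1 5 .won (.cons 0 5 .won .nil))))) (.cons 6 1 (.cons 8 7 .won (.cons 7 8 (.cons 5 0 .won (.cons 3 0 .won (.cons 0 3 (.last 5 .nil) .nil))) (.cons 5 7 .won (.cons 3 7 .won (.cons 0 7 .won .nil))))) (.cons 5 8 (.cons 7 0 .won (.cons 6 0 .won (.cons 3 0 .won (.cons 1 0 .won (.cons 0 1 (.cons 7 3 (.last 6 .nil) (.cons 6 7 .won (.cons 3 7 .won .nil))) .nil))))) (.cons 3 1 (.cons 8 7 .won (.cons 7 8 (.cons 6 0 .won (.cons 5 0 .won (.cons 0 6 (.last 5 .nil) .nil))) (.cons 6 7 .won (.cons 5 7 .won (.cons 0 7 .won .nil))))) (.cons 1 0 (.cons 8 5 (.cons 7 3 .won (.cons 6 3 .won (.cons 3 6 (.last 7 .nil) .nil))) (.cons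 7 8 .won (.cons 6 8 .won (.cons 5 8 .won (.cons 3 8 .won .nil))))) (.cons 0 1 (.cons 8 7 .won (.cons 7 3 (.cons 8 5 .won (.cons 6 5 .won (.cons 5 8 (.last 6 .nil) .nil))) (.cons 6 7 .won (.cons 5 7 .won (.cons 3 7 .won .nil))))) .nil))))))) (.cons 1 4 (.cons 8 3 (.cons 7 5 .won (.cons 6 5 .won (.cons 5 2 (.cons 7 6 .won (.cons 6 7 (.last 0 .nil) (.cons 0 6 .won .nil))) (.cons 2 5 .won (.cons 0 5 .won .nil))))) (.cons 7 0 (.cons 8 6 (.cons 5 2 .won (.cons 3 2 .won (.cons 2 3 .won .nil))) (.cons 6 8 .won (.cons 5 8 .won (.cons 3 8 .won (.cons 2 8 .won .nil))))) (.cons 6 3 (.cons 8 5 .won (.cons 7 5 .won (.cons 5 8 (.cons 7 0 .won (.cons 2 0 .won (.cons 0 2 (.last 7 .nil) .nil))) (.cons 2 5 .won (.cons 0 5 .won .nil))))) (.cons 5 0 (.cons 8 2 (.cons 7 6 .won (.cons 6 7 (.last 3 .nil) (.cons 3 6 .won .nil))) (.cons 7 8 .won (.cons 6 8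 .won (.cons 3 8 .won (.cons 2 8 .won .nil))))) (.cons 3 0 (.cons 8 2 (.cons 7 6 .won (.cons 6 7 (.last 5 .nil) (.cons 5 6 .won .nil))) (.cons 7 8 .won (.cons 6 8 .won (.cons 5 8 .won (.cons 2 8 .won .nil))))) (.cons 2 0 (.cons 8 5 (.cons 7 3 .won (.cons 6 3 .won (.cons 3 6 (.last 7 .nil) .nil))) (.cons 7 8 .won (.cons 6 8 .won (.cons 5 8 .won (.cons 3 8 .won .nil))))) (.cons 0 2 (.cons 8 6 .won (.cons 7 6 .won (.cons 6 3 (.cons 8 5 .won (.cons 7 5 .won (.cons 5 7 (.last 8 .nil) .nil))) (.cons 5 6 .won (.cons 3 6 .won .nil))))) .nil))))))) (.cons 0 4 (.cons 8 1 (.cons 7 6 (.cons 5 2 .won (.cons 3 2 .won (.cons 2 5 (.last 3 .nil) .nil))) (.cons 6 7 .won (.cons 5 7 .won (.cons 3 7 .won (.cons 2 7 .won .nil))))) (.cons 7 3 (.cons 8 5 .won (.cons 6 5 .won (.cons 5 2 (.cons 8 6 .won (.cons 6 8 (.last 1 .nil) (.cons 1 6 .won .nil))) (.cons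 2 5 .won (.cons 1 5 .won .nil))))) (.cons 6 3 (.cons 8 5 .won (.cons 7 5 .won (.cons 5 1 (.cons 8 7 .won (.cons 7 8 (.last 2 .nil) (.cons 2 7 .won .nil))) (.cons 2 5 .won (.cons 1 5 .won .nil))))) (.cons 5 1 (.cons 8 7 .won (.cons 7 6 (.cons 8 2 .won (.cons 3 2 .won (.cons 2 8 (.last 3 .nil) .nil))) (.cons 6 7 .won (.cons 3 7 .won (.cons 2 7 .won .nil))))) (.cons 3 6 (.cons 8 2 .won (.cons 7 2 .won (.cons 5 2 .won (.cons 2 1 (.cons 8 7 .won (.cons 7 5 (.last 8 .nil) (.cons 5 7 .won .nil))) (.cons 1 2 .won .nil))))) (.cons 2 1 (.cons 8 7 .won (.cons 7 3 (.cons 8 5 .won (.cons 6 5 .won (.cons 5 8 (.last 6 .nil) .nil))) (.cons 6 7 .won (.cons 5 7 .won (.cons 3 7 .won .nil))))) (.cons 1 2 (.cons 8 6 .won (.cons 7 6 .won (.cons 6 3 (.cons 8 5 .won (.cons 7 5 .won (.cons 5 7 (.last 8 .nil) .nil))) (.cons 5 6 .won (.cons 3 6 .won .nil)))))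 .nil))))))) .nil)))))))))

theorem draw : DR (cellsN 9) (Won lines) ∅ ∅ := by
  have h := chkD_sound (N := 9) (L := lines) cert 0 0 0 (by decide +kernel) (by simp)
  rwa [bs_zero] at h

theorem eq : eq2 3 lines = true := by decide +kernel

end D32

namespace B42

/-- The lines of `[4]^2`. -/
def lines : List ℕ := [15, 240, 3840, 4369, 4680, 8738, 17476, 33825, 34952, 61440]

/-- The strategy of Breaker. -/
def tree : Tr := (.cons 14 6 (.leaf [(12,13),(0,4),(1,5),(2,3),(8,9),(10,15),(7,11)]) (.cons 13 5 (.leaf [(4,12),(14,15),(0,1),(2,10),(8,9),(3,6),(7,11)]) (.cons 11 3 (.leaf [(4,8),(9,10),(0,15),(1,5),(12,13),(2,14),(6,7)]) (.cons 8 0 (.leaf [(1,9),(10,11),(4,5),(2,14),(3,6),(7,15),(12,13)]) (.cons 7 3 (.leaf [(0,4),(5,6),(8,11),(12,13),(1,9),(10,15),(2,14)]) (.cons 4 0 (.leaf [(1,5),(6,7),(2,14),(3,9),(8,10),(12,13),(11,15)]) (.cons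 2 0 (.leaf [(3,6),(10,14),(1,9),(4,5),(7,15),(8,11),(12,13)]) (.cons 1 0 (.leaf [(5,9),(2,14),(3,6),(8,10),(12,13),(4,7),(11,15)]) (.cons 15 0 (.leaf [(3,12),(7,11),(13,14),(1,5),(2,10),(4,6),(8,9)]) (.cons 12 0 (.leaf [(3,6),(13,14),(1,5),(2,10),(8,9),(4,7),(11,15)]) (.cons 10 0 (.leaf [(2,14),(3,6),(8,11),(1,9),(4,5),(7,15),(12,13)]) (.cons 9 3 (.leaf [(1,5),(4,8),(10,11),(0,15),(12,13),(2,14),(6,7)]) (.cons 6 3 (.leaf [(2,14),(10,15),(0,4),(5,7),(8,11),(12,13),(1,9)]) (.cons 5 0 (.leaf [(1,9),(4,7),(3,6),(2,14),(8,10),(12,13),(11,15)]) (.cons 3 0 (.leaf [(6,9),(4,7),(11,15),(1,5),(2,14),(12,13),(8,10)]) (.cons 0 3 (.leaf [(4,8),(1,5),(10,15),(2,14),(6,7),(12,13),(9,11)]) .nil))))))))))))))))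

theorem bw : BW (Lines 2 4) :=
  bw_of_cov2 (bw_of_chk (t := tree) (L := lines) (by decide +kernel)) (by decide +kernel)

end B42

end Pool.Agent.TTT
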