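import Pool.Agent.TTT.Sound

/-!
Soundness of the main checker.
-/

set_option autoImplicit false

namespace Pool.Agent.TTT

open Finset

/-- The checker for the answers of the second player. -/
noncomputable def goR (N full : ℕ) (T : BT) (K : List (ℕ × ℕ)) (t : Rt) :
    (X O unc : ℕ) → List ℕ → Bool :=
  @Rt.rec (fun _ => (X O : ℕ) → List En → List ℕ → Bool) (fun _ => (X O unc : ℕ) → List ℕ → Bool)
    (fun z X O _ _ => an (isFree N X O z) (hasThr X (look T z)))
    (fun x a b X O es P => an (isFree N X O x)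
      (thruS (Nat.lor X (Nat.shiftLeft 1 x)) O
        (fun _ => an (isFree N (Nat.lor X (Nat.shiftLeft 1 x)) O a)
          (an (isFree N (Nat.lor X (Nat.shiftLeft 1 x)) O b)
          (an (hasThr (Nat.lor X (Nat.shiftLeft 1 x)) (look T a))
          (an (hasThr (Nat.lor X (Nat.shiftLeft 1 x)) (look T b))
          (@Bool.rec (fun _ => Bool) true false (Nat.beq a b))))))
        es P))
    (fun x a _ ih X O es P => an (isFree N X O x)
      (thruS (Nat.lor X (Nat.shiftLeft 1 x)) O
        (fun P' => an (isFree N (Nat.lor X (Nat.shiftLeft 1 x)) O a)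
          (an (hasThr (Nat.lor X (Nat.shiftLeft 1 x)) (look T a))
            (ih (Nat.lor X (Nat.shiftLeft 1 x)) (Nat.lor O (Nat.shiftLeft 1 a)) (look T a) P')))
        es P))
    (fun x _ ih X O es P => an (isFree N X O x)
      (thruS (Nat.lor X (Nat.shiftLeft 1 x)) O
        (fun P' => @Bool.rec (fun _ => Bool)
          (ih (Nat.lor X (Nat.shiftLeft 1 x)) O
            (Nat.xor full (Nat.lor (Nat.lor X (Nat.shiftLeft 1 x)) O)) P') false
          (Nat.beq (Nat.xor full (Nat.lor (Nat.lor X (Nat.shiftLeft 1 x)) O)) 0))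
        es P))
    (fun X O _ _ => memK X O K)
    (fun v _ _ iht X O unc P =>
      nvgo N T (fun bad => iht X O (Nat.land unc bad) P) v X O []
        (foldP (Nat.lor X (Nat.shiftLeft 1 (fst v))) P))
    (fun d _ _ ihv iht X O unc P => an (isFree N X O d)
      (an (ihv X (Nat.lor O (Nat.shiftLeft 1 d)) (look T d) P)
        (iht X O (Nat.xor unc (Nat.land unc (Nat.shiftLeft 1 d))) P)))
    (fun _ _ unc _ => Nat.beq unc 0) t

theorem memK_sound (X O : ℕ) (K : List (ℕ × ℕ)) (h : memK X O K = true) : (X, O) ∈ K := by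
  induction K with
  | nil => exact absurd h (by simp [memK])
  | cons a t ih =>
    have h' : @Bool.rec (fun _ => Bool) (memK X O t) true (an (Nat.beq X a.1) (Nat.beq O a.2))
      = true := h
    cases hb : an (Nat.beq X a.1) (Nat.beq O a.2)
    · rw [hb] at h'
      exact List.mem_cons_of_mem _ (ih h')
    · obtain ⟨h1, h2⟩ := an_true hb
      rw [Nat.eq_of_beq_eq_true h1, Nat.eq_of_beq_eq_true h2]
      exact List.mem_cons_self

theorem sub_land (unc d : ℕ) {i : ℕ} (hi : i ∈ bs unc) (hid : i ≠ d) :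
    i ∈ bs (Nat.xor unc (Nat.land unc (Nat.shiftLeft 1 d))) := by
  have h6 : (Nat.xor unc (Nat.land unc (Nat.shiftLeft 1 d))).testBit i =
    (unc.testBit i ^^ (Nat.land unc (Nat.shiftLeft 1 d)).testBit i) := Nat.testBit_xor _ _ _
  rw [mem_bs, h6, tb_land, tb_one, mem_bs.1 hi]
  have hdi : ¬ d = i := fun h => hid h.symm
  simp [hdi]

/-- The hypothesis on the lines. -/
def LinOK (L : List ℕ) (X O : ℕ) (es : List En) (P : List ℕ) : Prop :=
  ∀ l ∈ L, (∀ e ∈ es, e.l ≠ l) → Disjoint (bs l) (bs X) →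
    2 ≤ (bs l \ bs O).card ∧ ((bs l \ bs O).card ≤ 2 → l ∈ P)

theorem LinOK.ins {L : List ℕ} {X O : ℕ} {es : List En} {P : List ℕ} (h : LinOK L X O es P)
    (x : ℕ) : LinOK L (Nat.lor X (Nat.shiftLeft 1 x)) O es P := by
  intro l hl he hd
  refine h l hl he (hd.mono_right ?_)
  rw [bs_ins]
  exact subset_insert _ _

theorem LinOK.look {N : ℕ} {L : List ℕ} {T : BT} (hB : Board N L T) {X O a : ℕ} {P : List ℕ}
    (ha : a < N) (h : Safe2 L X O P) :
    LinOK L X (Nat.lor O (Nat.shiftLeft 1 a)) (look T a) P := by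
  intro l hl he hd
  rw [sdiff_ins O (not_mem_of_look hB ha hl he)]
  exact h l hl hd

theorem go_both {N full : ℕ} {L : List ℕ} {T : BT} {K : List (ℕ × ℕ)} (hB : Board N L T)
    (hfull : ∀ i, i ∈ bs full ↔ i < N)
    (hK : ∀ p ∈ K, FW (cellsN N) (Won L) (bs p.1) (bs p.2)) :
    (∀ c : Ct, ∀ (X O : ℕ) (es : List En) (P : List ℕ), go N full T K c X O es P = true →
      Disjoint (bs X) (bs O) → (∀ i, i ∈ bs X ∨ i ∈ bs O → i < N) → EsOK O es →
      ¬ Won L (bs O) → LinOK L X O es P → FW (cellsN N) (Won L) (bs X) (bs O)) ∧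
    (∀ t : Rt, ∀ (X O unc : ℕ) (P : List ℕ), goR N full T K t X O unc P = true →
      Disjoint (bs X) (bs O) → (∀ i, i ∈ bs X ∨ i ∈ bs O → i < N) → Safe2 L X O P →
      ∀ d, d < N → d ∉ bs X → d ∉ bs O → d ∈ bs unc →
      FW (cellsN N) (Won L) (bs X) (insert d (bs O))) := by
  refine ⟨@Ct.rec (fun c => ∀ (X O : ℕ) (es : List En) (P : List ℕ),
      go N full T K c X O es P = true →
      Disjoint (bs X) (bs O) → (∀ i, i ∈ bs X ∨ i ∈ bs O → i < N) → EsOK O es →
      ¬ Won L (bs O) → LinOK L X O es P →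
      FW (cellsN N) (Won L) (bs X) (bs O))
    (fun t => ∀ (X O unc : ℕ) (P : List ℕ), goR N full T K t X O unc P = true →
      Disjoint (bs X) (bs O) → (∀ i, i ∈ bs X ∨ i ∈ bs O → i < N) → Safe2 L X O P →
      ∀ d, d < N → d ∉ bs X → d ∉ bs O → d ∈ bs unc →
      FW (cellsN N) (Won L) (bs X) (insert d (bs O)))
    ?imm ?dbl ?thr ?str ?ext ?nv ?rp ?nd,
    @Rt.rec (fun c => ∀ (X O : ℕ) (es : List En) (P : List ℕ),
      go N full T K c X O es P = true →
      Disjoint (bs X) (bs O) → (∀ i, i ∈ bs X ∨ i ∈ bs O → i < N) → EsOK O es →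
      ¬ Won L (bs O) → LinOK L X O es P →
      FW (cellsN N) (Won L) (bs X) (bs O))
    (fun t => ∀ (X O unc : ℕ) (P : List ℕ), goR N full T K t X O unc P = true →
      Disjoint (bs X) (bs O) → (∀ i, i ∈ bs X ∨ i ∈ bs O → i < N) → Safe2 L X O P →
      ∀ d, d < N → d ∉ bs X → d ∉ bs O → d ∈ bs unc →
      FW (cellsN N) (Won L) (bs X) (insert d (bs O)))
    ?imm ?dbl ?thr ?str ?ext ?nv ?rp ?nd⟩
  case imm =>
    intro z X O es P h hdis hsub hes hnw hlin
    have h' : an (isFree N X O z) (hasThr X (look T z)) = true := h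
    obtain ⟨h1, h2⟩ := an_true h'
    obtain ⟨hz, hzX, hzO⟩ := isFree_sound h1
    exact .win _ _ z hnw hz hzX hzO (hasThr_sound hB hz h2)
  case dbl =>
    intro x a b X O es P h hdis hsub hes hnw hlin
    have h' : an (isFree N X O x)
      (thruS (Nat.lor X (Nat.shiftLeft 1 x)) O
        (fun _ => an (isFree N (Nat.lor X (Nat.shiftLeft 1 x)) O a)
          (an (isFree N (Nat.lor X (Nat.shiftLeft 1 x)) O b)
          (an (hasThr (Nat.lor X (Nat.shiftLeft 1 x)) (look T a))
          (an (hasThr (Nat.lor X (Nat.shiftLeft 1 x)) (look T b))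
          (@Bool.rec (fun _ => Bool) true false (Nat.beq a b))))))
        es P) = true := h
    obtain ⟨h1, h2⟩ := an_true h'
    obtain ⟨hx, hxX, hxO⟩ := isFree_sound h1
    obtain ⟨P', h3, h4, h5⟩ := thruS_sound _ _ _ _ _ h2 hes
    obtain ⟨h6, h3⟩ := an_true h3
    obtain ⟨h7, h3⟩ := an_true h3
    obtain ⟨h8, h3⟩ := an_true h3
    obtain ⟨h9, h3⟩ := an_true h3
    obtain ⟨ha, haX, haO⟩ := isFree_sound h6
    obtain ⟨hb, hbX, hbO⟩ := isFree_sound h7
    have hsafe := safe2_of hes (hlin.ins x) h4 h5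
    have hab : a ≠ b := by
      rintro rfl
      rw [Nat.beq_refl] at h3
      exact absurd h3 (by simp)
    have hwa := hasThr_sound hB ha h8
    have hwb := hasThr_sound hB hb h9
    have hs : ∀ l ∈ L, Disjoint (bs l) (bs (Nat.lor X (Nat.shiftLeft 1 x))) →
      2 ≤ (bs l \ bs O).card := fun l hl hd => (hsafe l hl hd).1
    rw [bs_ins] at haX hbX hwa hwb hs
    refine fw_dbl hnw hx hxX hxO ha haX haO hb hbX hbO hab hs ?_ hwa hwb
    rw [disjoint_insert_left]
    exact ⟨hxO, hdis⟩
  case thr =>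
    intro x a t ih X O es P h hdis hsub hes hnw hlin
    have h' : an (isFree N X O x)
      (thruS (Nat.lor X (Nat.shiftLeft 1 x)) O
        (fun P' => an (isFree N (Nat.lor X (Nat.shiftLeft 1 x)) O a)
          (an (hasThr (Nat.lor X (Nat.shiftLeft 1 x)) (look T a))
            (go N full T K t (Nat.lor X (Nat.shiftLeft 1 x)) (Nat.lor O (Nat.shiftLeft 1 a))
              (look T a) P')))
        es P) = true := h
    obtain ⟨h1, h2⟩ := an_true h'
    obtain ⟨hx, hxX, hxO⟩ := isFree_sound h1
    obtain ⟨P', h3, h4, h5⟩ := thruS_sound _ _ _ _ _ h2 hes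
    obtain ⟨h6, h3⟩ := an_true h3
    obtain ⟨h7, h3⟩ := an_true h3
    obtain ⟨ha, haX, haO⟩ := isFree_sound h6
    have hsafe := safe2_of hes (hlin.ins x) h4 h5
    have hwa := hasThr_sound hB ha h7
    have hs : ∀ l ∈ L, Disjoint (bs l) (bs (Nat.lor X (Nat.shiftLeft 1 x))) →
      2 ≤ (bs l \ bs O).card := fun l hl hd => (hsafe l hl hd).1
    have hdis' : Disjoint (bs (Nat.lor X (Nat.shiftLeft 1 x))) (bs O) := by
      rw [bs_ins, disjoint_insert_left]
      exact ⟨hxO, hdis⟩
    have h10 := ih _ _ _ _ h3 (by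
        rw [bs_ins O, disjoint_insert_right]
        exact ⟨haX, hdis'⟩)
      (by
        intro i hi
        rw [bs_ins, bs_ins, mem_insert, mem_insert] at hi
        rcases hi with (rfl | hi) | (rfl | hi)
        · exact hx
        · exact hsub i (Or.inl hi)
        · exact ha
        · exact hsub i (Or.inr hi))
      (EsOK.look hB ha (by rw [bs_ins]; exact mem_insert_self _ _))
      (by rw [bs_ins O]; exact noWin hs hdis' haX)
      (LinOK.look hB ha hsafe)
    rw [bs_ins] at haX hwa hs hdis' h10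
    rw [bs_ins] at h10
    exact fw_thr hnw hx hxX hxO ha haX haO hs hdis' hwa h10
  case str =>
    intro x t ih X O es P h hdis hsub hes hnw hlin
    have h' : an (isFree N X O x)
      (thruS (Nat.lor X (Nat.shiftLeft 1 x)) O
        (fun P' => @Bool.rec (fun _ => Bool)
          (goR N full T K t (Nat.lor X (Nat.shiftLeft 1 x)) O
            (Nat.xor full (Nat.lor (Nat.lor X (Nat.shiftLeft 1 x)) O)) P') false
          (Nat.beq (Nat.xor full (Nat.lor (Nat.lor X (Nat.shiftLeft 1 x)) O)) 0))
        es P) = true := h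
    obtain ⟨h1, h2⟩ := an_true h'
    obtain ⟨hx, hxX, hxO⟩ := isFree_sound h1
    obtain ⟨P', h3, h4, h5⟩ := thruS_sound _ _ _ _ _ h2 hes
    have hsafe := safe2_of hes (hlin.ins x) h4 h5
    cases hb : Nat.beq (Nat.xor full (Nat.lor (Nat.lor X (Nat.shiftLeft 1 x)) O)) 0
    · rw [hb] at h3
      have hdis' : Disjoint (bs (Nat.lor X (Nat.shiftLeft 1 x))) (bs O) := by
        rw [bs_ins, disjoint_insert_left]
        exact ⟨hxO, hdis⟩
      have hunc : ∀ i, i < N → i ∉ bs (Nat.lor X (Nat.shiftLeft 1 x)) → i ∉ bs O →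
          i ∈ bs (Nat.xor full (Nat.lor (Nat.lor X (Nat.shiftLeft 1 x)) O)) := by
        intro i hi hiX hiO
        have h6 : (Nat.xor full (Nat.lor (Nat.lor X (Nat.shiftLeft 1 x)) O)).testBit i =
          (full.testBit i ^^ (Nat.lor (Nat.lor X (Nat.shiftLeft 1 x)) O).testBit i) :=
          Nat.testBit_xor _ _ _
        rw [mem_bs] at hiX hiO
        rw [mem_bs, h6, mem_bs.1 ((hfull i).2 hi), tb_lor]
        simp only [Bool.not_eq_true] at hiX hiO
        rw [hiX, hiO]
        rfl
      have hsub' : ∀ i, i ∈ bs (Nat.lor X (Nat.shiftLeft 1 x)) ∨ i ∈ bs O → i < N := by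
        intro i hi
        rw [bs_ins, mem_insert] at hi
        rcases hi with (rfl | hi) | hi
        · exact hx
        · exact hsub i (Or.inl hi)
        · exact hsub i (Or.inr hi)
      have hrec := ih _ _ _ _ h3 hdis' hsub' hsafe
      refine .step _ _ x hnw hx hxX hxO ?_ ?_
      · by_contra hcon
        push Not at hcon
        -- the board would be full
        have h7 : Nat.xor full (Nat.lor (Nat.lor X (Nat.shiftLeft 1 x)) O) ≠ 0 := by
          intro h0
          rw [h0] at hb
          simp at hb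
        have h8 : ∃ i, (Nat.xor full (Nat.lor (Nat.lor X (Nat.shiftLeft 1 x)) O)).testBit i
            = true := by
          by_contra hno
          push Not at hno
          apply h7
          apply Nat.eq_of_testBit_eq
          intro i
          rw [Nat.zero_testBit]
          simpa using hno i
        obtain ⟨i, hi⟩ := h8
        have h6 : (Nat.xor full (Nat.lor (Nat.lor X (Nat.shiftLeft 1 x)) O)).testBit i =
          (full.testBit i ^^ (Nat.lor (Nat.lor X (Nat.shiftLeft 1 x)) O).testBit i) :=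
          Nat.testBit_xor _ _ _
        rw [h6] at hi
        by_cases hiN : i < N
        · have h9 := mem_bs.1 ((hfull i).2 hiN)
          rw [h9, tb_lor] at hi
          by_cases hiX : i ∈ bs (Nat.lor X (Nat.shiftLeft 1 x))
          · rw [mem_bs.1 hiX] at hi
            simp at hi
          · rw [bs_ins] at hiX
            have h10 := hcon i hiN hiX
            rw [mem_bs.1 h10] at hi
            simp at hi
        · have h9 : full.testBit i = false := by
            by_contra h
            exact hiN ((hfull i).1 (mem_bs.2 (by simpa using h)))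
          rw [h9, tb_lor] at hi
          apply hiN
          apply hsub'
          rw [mem_bs, mem_bs]
          simpa using hi
      · intro d hd hdX hdO
        rw [← bs_ins] at hdX ⊢
        exact hrec d hd hdX hdO (hunc d hd hdX hdO)
    · rw [hb] at h3
      exact absurd h3 (by simp)
  case ext =>
    intro X O es P h hdis hsub hes hnw hlin
    have h' : memK X O K = true := h
    exact hK _ (memK_sound _ _ _ h')
  case nv =>
    intro v t _ iht X O unc P h hdis hsub hsafe d hd hdX hdO hdu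
    have h' : nvgo N T (fun bad => goR N full T K t X O (Nat.land unc bad) P) v X O []
        (foldP (Nat.lor X (Nat.shiftLeft 1 (fst v))) P) = true := h
    obtain ⟨bad, h1, -, h2⟩ := nvgo_sound hB _ v _ _ _ _ h' hdis (EsOK.nil O) (by
      intro l hl _ hld
      have hld' : Disjoint (bs l) (bs X) := by
        refine hld.mono_right ?_
        rw [bs_ins]
        exact subset_insert _ _
      obtain ⟨h3, h4⟩ := hsafe l hl hld'
      exact ⟨h3, fun h => sdiff_subset.trans (foldP_sound _ _ l (h4 h) hld)⟩)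
    by_cases hdb : d ∈ bs bad
    · refine iht _ _ _ _ h1 hdis hsub hsafe d hd hdX hdO ?_
      rw [bs_land, mem_inter]
      exact ⟨hdu, hdb⟩
    · refine h2 d hd hdX hdO hdb ?_
      exact noWin (fun l hl hld => (hsafe l hl hld).1) hdis hdX
  case rp =>
    intro d v t ihv iht X O unc P h hdis hsub hsafe d' hd' hdX' hdO' hdu'
    have h' : an (isFree N X O d)
      (an (go N full T K v X (Nat.lor O (Nat.shiftLeft 1 d)) (look T d) P)
        (goR N full T K t X O (Nat.xor unc (Nat.land unc (Nat.shiftLeft 1 d))) P)) = true := h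
    obtain ⟨h1, h2⟩ := an_true h'
    obtain ⟨h2, h3⟩ := an_true h2
    obtain ⟨hd, hdX, hdO⟩ := isFree_sound h1
    by_cases hdd : d' = d
    · subst hdd
      have h4 := ihv _ _ _ _ h2 (by
          rw [bs_ins, disjoint_insert_right]
          exact ⟨hdX, hdis⟩)
        (by
          intro i hi
          rw [bs_ins, mem_insert] at hi
          rcases hi with hi | (rfl | hi)
          · exact hsub i (Or.inl hi)
          · exact hd
          · exact hsub i (Or.inr hi))
        (EsOK.look hB hd (by rw [bs_ins]; exact mem_insert_self _ _))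
        (by rw [bs_ins]; exact noWin (fun l hl hld => (hsafe l hl hld).1) hdis hdX)
        (LinOK.look hB hd hsafe)
      rw [bs_ins] at h4
      exact h4
    · exact iht _ _ _ _ h3 hdis hsub hsafe d' hd' hdX' hdO' (sub_land _ _ hdu' hdd)
  case nd =>
    intro X O unc P h hdis hsub hsafe d hd hdX hdO hdu
    have h' : Nat.beq unc 0 = true := h
    rw [Nat.eq_of_beq_eq_true h', bs_zero] at hdu
    exact absurd hdu (by simp)

theorem go_sound {N full : ℕ} {L : List ℕ} {T : BT} {K : List (ℕ × ℕ)} (hB : Board N L T)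
    (hfull : ∀ i, i ∈ bs full ↔ i < N)
    (hK : ∀ p ∈ K, FW (cellsN N) (Won L) (bs p.1) (bs p.2)) (c : Ct) :
    ∀ (X O : ℕ) (es : List En) (P : List ℕ), go N full T K c X O es P = true →
      Disjoint (bs X) (bs O) → (∀ i, i ∈ bs X ∨ i ∈ bs O → i < N) → EsOK O es →
      ¬ Won L (bs O) → LinOK L X O es P → FW (cellsN N) (Won L) (bs X) (bs O) :=
  (go_both hB hfull hK).1 c

theorem goR_sound {N full : ℕ} {L : List ℕ} {T : BT} {K : List (ℕ × ℕ)} (hB : Board N L T)
    (hfull : ∀ i, i ∈ bs full ↔ i < N)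
    (hK : ∀ p ∈ K, FW (cellsN N) (Won L) (bs p.1) (bs p.2)) (t : Rt) :
    ∀ (X O unc : ℕ) (P : List ℕ), goR N full T K t X O unc P = true →
      Disjoint (bs X) (bs O) → (∀ i, i ∈ bs X ∨ i ∈ bs O → i < N) → Safe2 L X O P →
      ∀ d, d < N → d ∉ bs X → d ∉ bs O → d ∈ bs unc →
      FW (cellsN N) (Won L) (bs X) (insert d (bs O)) :=
  (go_both hB hfull hK).2 t

end Pool.Agent.TTT
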