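import Pool.Agent.TTT.Board

/-!
Forced wins of the first player in the strong game, and their transport.
-/

set_option autoImplicit false

namespace Pool.Agent.TTT

open Finset

/-- The first player, to move, has a forced win on the board `C` from the position `(A, B)`. -/
inductive FW {α : Type*} [DecidableEq α] (C : Set α) (W : Finset α → Prop) :
    Finset α → Finset α → Prop
  | win (A B : Finset α) (c : α) : ¬ W B → c ∈ C → c ∉ A → c ∉ B → W (insert c A) → FW C W A B
  | step (A B : Finset α) (c : α) : ¬ W B → c ∈ C → c ∉ A → c ∉ B →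
      (∃ d, d ∈ C ∧ d ∉ insert c A ∧ d ∉ B) →
      (∀ d, d ∈ C → d ∉ insert c A → d ∉ B → FW C W (insert c A) (insert d B)) → FW C W A B

theorem winset_of_fw {α : Type*} [DecidableEq α] (W : Finset α → Prop)
    (h : FW Set.univ W (∅ : Finset α) ∅) :
    ∃ S : Set (Finset α × Finset α),
            ((∅ : Finset α), (∅ : Finset α)) ∈ S ∧
            ∀ p ∈ S, W p.1 ∨
              (¬ W p.2 ∧
                (p.1.card = p.2.card ∨ p.1.card = p.2.card + 1) ∧
                (p.1.card = p.2.card →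
                  ∃ c : α, c ∉ p.1 ∧ c ∉ p.2 ∧ (insert c p.1, p.2) ∈ S) ∧
                (p.1.card = p.2.card + 1 →
                  (∃ c : α, c ∉ p.1 ∧ c ∉ p.2) ∧
                  ∀ c : α, c ∉ p.1 → c ∉ p.2 → (p.1, insert c p.2) ∈ S)) := by
  refine ⟨{p | (p.1.card = p.2.card ∧ FW Set.univ W p.1 p.2) ∨ (p.1.card = p.2.card + 1 ∧
    (W p.1 ∨ (¬ W p.2 ∧ (∃ d, d ∉ p.1 ∧ d ∉ p.2) ∧
      ∀ d, d ∉ p.1 → d ∉ p.2 → FW Set.univ W p.1 (insert d p.2))))}, Or.inl ⟨rfl, h⟩, ?_⟩
  rintro ⟨A, B⟩ hp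
  simp only [Set.mem_ofPred_eq] at hp ⊢
  rcases hp with ⟨hc, hp⟩ | ⟨hc, hp | ⟨hB, hf, hp⟩⟩
  · right
    cases hp with
    | win _ _ c hB _ hcA hcB hW =>
      refine ⟨hB, Or.inl hc, fun _ => ⟨c, hcA, hcB, Or.inr ⟨?_, Or.inl hW⟩⟩, fun h => by omega⟩
      rw [card_insert_of_notMem hcA, hc]
    | step _ _ c hB _ hcA hcB hf hstep =>
      refine ⟨hB, Or.inl hc, fun _ => ⟨c, hcA, hcB, Or.inr ⟨?_, Or.inr ⟨hB, ?_, ?_⟩⟩⟩,
        fun h => by omega⟩
      · rw [card_insert_of_notMem hcA, hc]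
      · obtain ⟨d, -, h1, h2⟩ := hf
        exact ⟨d, h1, h2⟩
      · intro d h1 h2
        exact hstep d (Set.mem_univ _) h1 h2
  · exact Or.inl hp
  · right
    refine ⟨hB, Or.inr hc, fun h => by omega, fun _ => ⟨hf, ?_⟩⟩
    intro c h1 h2
    refine Or.inl ⟨?_, hp c h1 h2⟩
    rw [card_insert_of_notMem h2, hc]

/-- Transport of a forced win along a bijection of the boards. -/
theorem FW.map {α β : Type*} [DecidableEq α] [DecidableEq β] {C : Set α} {W : Finset α → Prop}
    {A B : Finset α} (h : FW C W A B) (C' : Set β) (W' : Finset β → Prop) (f : α → β)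
    (hf : Set.InjOn f C) (hC : f '' C = C')
    (hW : ∀ A : Finset α, (A : Set α) ⊆ C → (W' (A.image f) ↔ W A)) :
    (A : Set α) ⊆ C → (B : Set α) ⊆ C → FW C' W' (A.image f) (B.image f) := by
  have hmem : ∀ (A : Finset α) (c : α), (A : Set α) ⊆ C → c ∈ C → (f c ∈ A.image f ↔ c ∈ A) := by
    intro A c hA hc
    constructor
    · intro h
      obtain ⟨x, hx, hxc⟩ := mem_image.1 h
      exact hf (hA hx) hc hxc ▸ hx
    · exact fun h => mem_image_of_mem f h
  have hins : ∀ (A : Finset α) (c : α), (A : Set α) ⊆ C → c ∈ C → ((insert c A : Finset α) : Set α) ⊆ C := by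
    intro A c hA hc x hx
    rcases mem_insert.1 hx with rfl | h
    · exact hc
    · exact hA h
  induction h with
  | win A B c hB hc hcA hcB hWc =>
    intro hAC hBC
    refine .win _ _ (f c) ?_ (hC ▸ Set.mem_image_of_mem f hc) ?_ ?_ ?_
    · rwa [hW B hBC]
    · rwa [hmem A c hAC hc]
    · rwa [hmem B c hBC hc]
    · rw [← image_insert, hW _ (hins A c hAC hc)]
      exact hWc
  | step A B c hB hc hcA hcB hfree _ ih =>
    intro hAC hBC
    refine .step _ _ (f c) ?_ (hC ▸ Set.mem_image_of_mem f hc) ?_ ?_ ?_ ?_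
    · rwa [hW B hBC]
    · rwa [hmem A c hAC hc]
    · rwa [hmem B c hBC hc]
    · obtain ⟨d, hd, hd1, hd2⟩ := hfree
      refine ⟨f d, hC ▸ Set.mem_image_of_mem f hd, ?_, ?_⟩
      · rw [← image_insert, hmem _ d (hins A c hAC hc) hd]
        exact hd1
      · rw [hmem _ d hBC hd]
        exact hd2
    · intro d' hd' h1 h2
      rw [← hC] at hd'
      obtain ⟨d, hd, rfl⟩ := hd'
      rw [← image_insert] at h1 ⊢
      rw [← image_insert]
      rw [hmem _ d (hins A c hAC hc) hd] at h1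
      rw [hmem _ d hBC hd] at h2
      exact ih d hd h1 h2 (hins A c hAC hc) (hins B d hBC hd)

end Pool.Agent.TTT
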