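import Pool.Agent.TTT.Win
import Pool.Agent.TTT.Local

/-!
A checker for forced wins of the first player, for the kernel: explicit recursors, bit masks.
-/

set_option autoImplicit false

namespace Pool.Agent.TTT

open Finset

/-- A line through a cell `y`: `m` is the line without `y`, `l` the line; if the trace of the second
player on `m` is in `a`, then at least three cells of `m` are not his; if it is in `b`, then at
least two. -/
structure En where
  m : ℕ
  l : ℕ
  a : List ℕ
  b : List ℕ

/-- Binary trees. -/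
inductive BT
  | lf (v : List En) : BT
  | nd (l r : BT) : BT

/-- Look up. -/
noncomputable def look (t : BT) : ℕ → List En :=
  @BT.rec (fun _ => ℕ → List En) (fun v _ => v)
    (fun _ _ ihl ihr y => @Bool.rec (fun _ => List En) (ihr (Nat.div y 2)) (ihl (Nat.div y 2))
      (Nat.beq (Nat.mod y 2) 0)) t

/-- Membership. -/
noncomputable def memL (z : ℕ) (l : List ℕ) : Bool :=
  @List.rec ℕ (fun _ => Bool) false (fun a _ ih => @Bool.rec (fun _ => Bool) ih true (Nat.beq z a)) l

/-- Some line through the cell is completed. -/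
noncomputable def hasThr (X : ℕ) (es : List En) : Bool :=
  @List.rec En (fun _ => Bool) false
    (fun e _ ih => @Bool.rec (fun _ => Bool) ih true (Nat.beq (Nat.land X e.m) e.m)) es

/-- The lines through the last cell of the second player are harmless. -/
noncomputable def thruS (X O : ℕ) (k : List ℕ → Bool) (es : List En) : List ℕ → Bool :=
  @List.rec En (fun _ => List ℕ → Bool) k
    (fun e _ ih P => @Bool.rec (fun _ => Bool) (ih P)
      (@Bool.rec (fun _ => Bool)
        (@Bool.rec (fun _ => Bool) false (ih (e.l :: P)) (memL (Nat.land O e.m) e.b))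
        (ih P) (memL (Nat.land O e.m) e.a)) (Nat.beq (Nat.land X e.m) 0)) es

/-- The same, collecting the dangerous cells. -/
noncomputable def thruN (X O : ℕ) (k : ℕ → Bool) (es : List En) : ℕ → Bool :=
  @List.rec En (fun _ => ℕ → Bool) k
    (fun e _ ih acc => @Bool.rec (fun _ => Bool) (ih acc)
      (@Bool.rec (fun _ => Bool)
        (@Bool.rec (fun _ => Bool) false (ih (Nat.lor acc e.m)) (memL (Nat.land O e.m) e.b))
        (ih acc) (memL (Nat.land O e.m) e.a)) (Nat.beq (Nat.land X e.m) 0)) es

/-- The union of the lines of the list which are not met by `X`. -/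
noncomputable def foldP (X : ℕ) (P : List ℕ) : ℕ :=
  @List.rec ℕ (fun _ => ℕ) 0
    (fun l _ ih => @Bool.rec (fun _ => ℕ) ih (Nat.lor ih l) (Nat.beq (Nat.land X l) 0)) P

/-- Conjunction. -/
noncomputable def an (a b : Bool) : Bool := @Bool.rec (fun _ => Bool) false b a

/-- The cell is free. -/
noncomputable def isFree (N X O x : ℕ) : Bool :=
  an (Nat.ble (Nat.succ x) N) (Nat.beq (Nat.land (Nat.lor X O) (Nat.shiftLeft 1 x)) 0)

/-- Membership in the list of the known positions. -/
noncomputable def memK (X O : ℕ) (K : List (ℕ × ℕ)) : Bool :=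
  @List.rec (ℕ × ℕ) (fun _ => Bool) false
    (fun a _ ih => @Bool.rec (fun _ => Bool) ih true (an (Nat.beq X a.1) (Nat.beq O a.2))) K

mutual
/-- Certificates for the first player to move. -/
inductive Ct
  | imm (z : ℕ) : Ct
  | dbl (x a b : ℕ) : Ct
  | thr (x a : ℕ) (t : Ct) : Ct
  | str (x : ℕ) (t : Rt) : Ct
  | ext : Ct

/-- Certificates for the answers of the second player. -/
inductive Rt
  | nv (v : Ct) (t : Rt) : Rt
  | rp (d : ℕ) (v : Ct) (t : Rt) : Rt
  | nd : Rt
end

/-- The first move. -/
noncomputable def fst (c : Ct) : ℕ :=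
  @Ct.rec (fun _ => ℕ) (fun _ => ℕ) (fun z => z) (fun x _ _ => x) (fun x _ _ _ => x)
    (fun x _ _ => x) 0 (fun _ _ _ _ => 0) (fun _ _ _ _ _ => 0) 0 c

/-- Check of a sequence of threats which is valid for almost all the additional cells of the second
player. -/
noncomputable def nvgo (N : ℕ) (T : BT) (k : ℕ → Bool) (c : Ct) :
    (X O : ℕ) → List En → (acc : ℕ) → Bool :=
  @Ct.rec (fun _ => (X O : ℕ) → List En → (acc : ℕ) → Bool) (fun _ => Bool)
    (fun z X O _ acc => an (isFree N X O z) (an (hasThr X (look T z))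
      (k (Nat.lor acc (Nat.shiftLeft 1 z)))))
    (fun x a b X O es acc => an (isFree N X O x)
      (thruN (Nat.lor X (Nat.shiftLeft 1 x)) O
        (fun acc' => an (isFree N (Nat.lor X (Nat.shiftLeft 1 x)) O a)
          (an (isFree N (Nat.lor X (Nat.shiftLeft 1 x)) O b)
          (an (hasThr (Nat.lor X (Nat.shiftLeft 1 x)) (look T a))
          (an (hasThr (Nat.lor X (Nat.shiftLeft 1 x)) (look T b))
          (@Bool.rec (fun _ => Bool)
            (k (Nat.lor acc' (Nat.lor (Nat.shiftLeft 1 x)
              (Nat.lor (Nat.shiftLeft 1 a) (Nat.shiftLeft 1 b))))) false (Nat.beq a b))))))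
        es acc))
    (fun x a _ ih X O es acc => an (isFree N X O x)
      (thruN (Nat.lor X (Nat.shiftLeft 1 x)) O
        (fun acc' => an (isFree N (Nat.lor X (Nat.shiftLeft 1 x)) O a)
          (an (hasThr (Nat.lor X (Nat.shiftLeft 1 x)) (look T a))
            (ih (Nat.lor X (Nat.shiftLeft 1 x)) (Nat.lor O (Nat.shiftLeft 1 a)) (look T a)
              (Nat.lor acc' (Nat.lor (Nat.shiftLeft 1 x) (Nat.shiftLeft 1 a))))))
        es acc))
    (fun _ _ _ _ _ _ _ => false) (fun _ _ _ _ => false) (fun _ _ _ _ => false)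
    (fun _ _ _ _ _ => false) false c

/-- The checker. -/
noncomputable def go (N full : ℕ) (T : BT) (K : List (ℕ × ℕ)) (c : Ct) :
    (X O : ℕ) → List En → List ℕ → Bool :=
  @Ct.rec (fun _ => (X O : ℕ) → List En → List ℕ → Bool) (fun _ => (X O unc : ℕ) → List ℕ → Bool)
    (fun z X O _ _ => an (isFree N X O z) (hasThr X (look T z)))
    (fun x a b X O es P => an (isFree N X O x)
      (thruS (Nat.lor X (Nat.shiftLeft 1 x)) O
        (fun _ => an (isFree N (Nat.lor X (Nat.shiftLeft 1 x)) O a)
          (an (isFree N (Nat.lor X (Nat.shiftLeft 1 x)) O b)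
          (an (hasThr (Nat.lor X (Nat.shiftLeft 1 x)) (look T a))
          (an (hasThr (Nat.lor X (Nat.shiftLeft 1 x)) (look T b))
          (@Bool.rec (fun _ => Bool) true false (Nat.beq a b))))))
        es P))
    (fun x a _ ih X O es P => an (isFree N X O x)
      (thruS (Nat.lor X (Nat.shiftLeft 1 x)) O
        (fun P' => an (isFree N (Nat.lor X (Nat.shiftLeft 1 x)) O a)
          (an (hasThr (Nat.lor X (Nat.shiftLeft 1 x)) (look T a))
            (ih (Nat.lor X (Nat.shiftLeft 1 x)) (Nat.lor O (Nat.shiftLeft 1 a)) (look T a) P')))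
        es P))
    (fun x _ ih X O es P => an (isFree N X O x)
      (thruS (Nat.lor X (Nat.shiftLeft 1 x)) O
        (fun P' => @Bool.rec (fun _ => Bool)
          (ih (Nat.lor X (Nat.shiftLeft 1 x)) O
            (Nat.xor full (Nat.lor (Nat.lor X (Nat.shiftLeft 1 x)) O)) P') false
          (Nat.beq (Nat.xor full (Nat.lor (Nat.lor X (Nat.shiftLeft 1 x)) O)) 0))
        es P))
    (fun X O _ _ => memK X O K)
    (fun v _ _ iht X O unc P =>
      nvgo N T (fun bad => iht X O (Nat.land unc bad) P) v X O []
        (foldP (Nat.lor X (Nat.shiftLeft 1 (fst v))) P))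
    (fun d _ _ ihv iht X O unc P => an (isFree N X O d)
      (an (ihv X (Nat.lor O (Nat.shiftLeft 1 d)) (look T d) P)
        (iht X O (Nat.xor unc (Nat.land unc (Nat.shiftLeft 1 d))) P)))
    (fun _ _ unc _ => Nat.beq unc 0) c

end Pool.Agent.TTT
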